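import Pool.Agent.W319.GCI.K4D0
set_option autoImplicit false
set_option maxRecDepth 100000
set_option linter.all false
namespace Pool.Agent.W319.GCI.K4
open Pool.Agent.W319.GCI

theorem cl4 : lchk (nat_lit 4) [] (nat_lit 25165837) .nil .nil (.nod (nat_lit 339) (.nod (nat_lit 6382573449503504859396) .nil .nil (.opn (nat_lit 618970499258036053931458642))) (.dwn (nat_lit 2171877200443791544404920839384497288336125171405451247485188) (nat_lit 173)) .nil) .nil l4 = true := by decide +kernel
theorem cw11 : wchk (nat_lit 4) [] [l4] (nat_lit 17) (nat_lit 3) (nat_lit 2) (nat_lit 0) (nat_lit 577792) (nat_lit 0) w11 = true := by decide +kernel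
theorem cw12 : wchk (nat_lit 4) [] [l4] (nat_lit 0) (nat_lit 3) (nat_lit 1) (nat_lit 0) (nat_lit 576000) (nat_lit 0) w12 = true := by decide +kernel
theorem cl5 : lchk (nat_lit 4) [w1, w7, w0, w11, w12, w8, w9, w10] (nat_lit 2311168) .nil .nil (.nod (nat_lit 85267215235390977368164361) (.nod (nat_lit 47239952757880271368519803009996600694433382738) .nil (.dwn (nat_lit 1568029313548490542247620951546670953514174496) (nat_lit 606290944)) .dup) (.nod (nat_lit 871513307109225588232662063139186533193484121107818709587675054418) (.dwn (nat_lit 7611500124547327186545134465462814008203896645551718589447655688248) (nat_lit 606290944)) .nil .nil) (.nod (nat_lit 871513307109225588232662063139186533193484121107818709587675054418) (.opn (nat_lit 7611500124547327186545134465462814008203896645551718589447655688248)) .nil .nil)) (.dwn (nat_lit 1237940518900726191414575122) (nat_lit 2311168)) l5 = true := by decide +kernel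
theorem cw13 : wchk (nat_lit 4) [] [l5] (nat_lit 19) (nat_lit 1) (nat_lit 0) (nat_lit 0) (nat_lit 151572736) (nat_lit 0) w13 = true := by decide +kernel
theorem cw14 : wchk (nat_lit 4) [w13] [] (nat_lit 0) (nat_lit 3) (nat_lit 1) (nat_lit 2) (nat_lit 2304000) (nat_lit 2304000) w14 = true := by decide +kernel
theorem cl6 : lchk (nat_lit 4) [] (nat_lit 429) .nil (.nod (nat_lit 1237942880083967626170073860) .nil .nil (.dwn (nat_lit 618972860441277489290936474) (nat_lit 16777613))) .nil (.nod (nat_lit 50331794) .nil .nil (.dwn (nat_lit 11418012167060701932927999459310629950201004292) (nat_lit 16777261))) l6 = true := by decide +kernel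
theorem cw15 : wchk (nat_lit 4) [] [l6] (nat_lit 4) (nat_lit 2) (nat_lit 2) (nat_lit 0) (nat_lit 17355008) (nat_lit 0) w15 = true := by decide +kernel
theorem cl7 : lchk (nat_lit 4) [w3, w15] (nat_lit 2253824) .nil (.nod (nat_lit 1237941699492346908825878610) .nil (.dwn (nat_lit 47244828323633514574824307421963503786778427794) (nat_lit 69362688)) .dup) .nil .dup l7 = true := by decide +kernel
theorem cw16 : wchk (nat_lit 4) [] [l7] (nat_lit 0) (nat_lit 2) (nat_lit 1) (nat_lit 0) (nat_lit 577792) (nat_lit 0) w16 = true := by decide +kernel
theorem cw17 : wchk (nat_lit 4) [] [l0] (nat_lit 0) (nat_lit 2) (nat_lit 2) (nat_lit 0) (nat_lit 563456) (nat_lit 0) w17 = true := by decide +kernel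
theorem cl8 : lchk (nat_lit 4) [] (nat_lit 301) .nil (.nod (nat_lit 928456689671001840033989124) (.opn (nat_lit 210627960417848011441505163635611632875681691302035553045054488914)) (.dwn (nat_lit 210627960417848011441505163635611632876300664863453105335174168666) (nat_lit 16777485)) .dup) (.nod (nat_lit 50331730) .nil (.dwn (nat_lit 210625148276270558208522812755449655260695639472398854221929120004) (nat_lit 16777261)) .nil) .nil l8 = true := by decide +kernel
theorem cw18 : wchk (nat_lit 4) [] [l8] (nat_lit 3) (nat_lit 1) (nat_lit 2) (nat_lit 0) (nat_lit 17355008) (nat_lit 0) w18 = true := by decide +kernel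
theorem cw19 : wchk (nat_lit 4) [w18] [] (nat_lit 0) (nat_lit 3) (nat_lit 1) (nat_lit 2) (nat_lit 2304000) (nat_lit 2304000) w19 = true := by decide +kernel
theorem cl9 : lchk (nat_lit 4) [w14, w0, w16, w17, w19, w13] (nat_lit 2311168) .nil (.nod (nat_lit 1572902157042798381042300413018910504217020424) (.dwn (nat_lit 871513307109225588232666944149457647137363065320937248399283259416) (nat_lit 69420048)) .nil .nil) (.nod (nat_lit 1572902157042798381042300413018910504217020424) (.dwn (nat_lit 871513307109225588232666944149457647137363065320937248399283259416) (nat_lit 69420048)) .nil .nil) (.nod (nat_lit 1568034758066361277260391987883935450162028584) .nil (.nod (nat_lit 1572902157042798381042300413018910504217020424) (.dwn (nat_lit 871513307109225588232666944149457647137363065320937248399283259416) (nat_lit 69420048)) .nil .nil) (.nod (nat_lit 1572902157042798381042300413018910504217020424) (.dwn (nat_lit 871513307109225588232666944149457647137363065320937248399283259416) (nat_lit 69420048)) .nil .nil)) l9 = true := by decide +kernel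
theorem ct1 : wchk (nat_lit 4) [] [l9] (nat_lit 2) (nat_lit 1) (nat_lit 0) (nat_lit 0) (nat_lit 577792) (nat_lit 0) t1 = true := by decide +kernel
theorem ct0 : wchk (nat_lit 4) [t1] [] (nat_lit 0) (nat_lit 0) (nat_lit 0) (nat_lit 2) (nat_lit 2311168) (nat_lit 2311168) t0 = true := by decide +kernel

end Pool.Agent.W319.GCI.K4
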