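import Pool.Agent.W319.GCI.K4C0
import Pool.Agent.W319.GCI.K4C1
set_option autoImplicit false
set_option maxRecDepth 100000
set_option linter.all false
namespace Pool.Agent.W319.GCI.K4
open Pool.Agent.W319.GCI

theorem L0 : LFK l0 := fun D T h => lf_of_chk h mem_nil cl0
theorem W0 : WFK w0 := fun D T h => wf_of_chk h mem_nil (mem_cons (L0 D T h) mem_nil) cw0
theorem L1 : LFK l1 := fun D T h => lf_of_chk h mem_nil cl1
theorem W1 : WFK w1 := fun D T h => wf_of_chk h mem_nil (mem_cons (L1 D T h) mem_nil) cw1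
theorem W2 : WFK w2 := fun D T h => wf_of_chk h mem_nil (mem_cons (L1 D T h) mem_nil) cw2
theorem W3 : WFK w3 := fun D T h => wf_of_chk h mem_nil (mem_cons (L0 D T h) mem_nil) cw3
theorem L2 : LFK l2 := fun D T h => lf_of_chk h mem_nil cl2
theorem W4 : WFK w4 := fun D T h => wf_of_chk h mem_nil (mem_cons (L2 D T h) mem_nil) cw4
theorem W5 : WFK w5 := fun D T h => wf_of_chk h mem_nil (mem_cons (L2 D T h) mem_nil) cw5
theorem W6 : WFK w6 := fun D T h => wf_of_chk h mem_nil (mem_cons (L2 D T h) mem_nil) cw6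
theorem L3 : LFK l3 := fun D T h => lf_of_chk h (mem_cons (W2 D T h) (mem_cons (W0 D T h) (mem_cons (W3 D T h) (mem_cons (W4 D T h) (mem_cons (W5 D T h) (mem_cons (W6 D T h) mem_nil)))))) cl3
theorem W7 : WFK w7 := fun D T h => wf_of_chk h mem_nil (mem_cons (L3 D T h) mem_nil) cw7
theorem W8 : WFK w8 := fun D T h => wf_of_chk h mem_nil (mem_cons (L1 D T h) mem_nil) cw8
theorem W9 : WFK w9 := fun D T h => wf_of_chk h mem_nil (mem_cons (L1 D T h) mem_nil) cw9
theorem W10 : WFK w10 := fun D T h => wf_of_chk h mem_nil (mem_cons (L1 D T h) mem_nil) cw10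
theorem L4 : LFK l4 := fun D T h => lf_of_chk h mem_nil cl4
theorem W11 : WFK w11 := fun D T h => wf_of_chk h mem_nil (mem_cons (L4 D T h) mem_nil) cw11
theorem W12 : WFK w12 := fun D T h => wf_of_chk h mem_nil (mem_cons (L4 D T h) mem_nil) cw12
theorem L5 : LFK l5 := fun D T h => lf_of_chk h (mem_cons (W1 D T h) (mem_cons (W7 D T h) (mem_cons (W0 D T h) (mem_cons (W11 D T h) (mem_cons (W12 D T h) (mem_cons (W8 D T h) (mem_cons (W9 D T h) (mem_cons (W10 D T h) mem_nil)))))))) cl5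
theorem W13 : WFK w13 := fun D T h => wf_of_chk h mem_nil (mem_cons (L5 D T h) mem_nil) cw13
theorem W14 : WFK w14 := fun D T h => wf_of_chk h (mem_cons (W13 D T h) mem_nil) mem_nil cw14
theorem L6 : LFK l6 := fun D T h => lf_of_chk h mem_nil cl6
theorem W15 : WFK w15 := fun D T h => wf_of_chk h mem_nil (mem_cons (L6 D T h) mem_nil) cw15
theorem L7 : LFK l7 := fun D T h => lf_of_chk h (mem_cons (W3 D T h) (mem_cons (W15 D T h) mem_nil)) cl7
theorem W16 : WFK w16 := fun D T h => wf_of_chk h mem_nil (mem_cons (L7 D T h) mem_nil) cw16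
theorem W17 : WFK w17 := fun D T h => wf_of_chk h mem_nil (mem_cons (L0 D T h) mem_nil) cw17
theorem L8 : LFK l8 := fun D T h => lf_of_chk h mem_nil cl8
theorem W18 : WFK w18 := fun D T h => wf_of_chk h mem_nil (mem_cons (L8 D T h) mem_nil) cw18
theorem W19 : WFK w19 := fun D T h => wf_of_chk h (mem_cons (W18 D T h) mem_nil) mem_nil cw19
theorem L9 : LFK l9 := fun D T h => lf_of_chk h (mem_cons (W14 D T h) (mem_cons (W0 D T h) (mem_cons (W16 D T h) (mem_cons (W17 D T h) (mem_cons (W19 D T h) (mem_cons (W13 D T h) mem_nil)))))) cl9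
theorem T1 : WFK t1 := fun D T h => wf_of_chk h mem_nil (mem_cons (L9 D T h) mem_nil) ct1
theorem T0 : WFK t0 := fun D T h => wf_of_chk h (mem_cons (T1 D T h) mem_nil) mem_nil ct0

end Pool.Agent.W319.GCI.K4
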