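import Pool.Agent.W319.GCI.K5A14
set_option autoImplicit false
set_option maxRecDepth 100000
set_option linter.all false
namespace Pool.Agent.W319.GCI.K5
open Pool.Agent.W319.GCI

theorem W28917 : WFK w28917 := fun D T h => wf_of_chk h (mem_cons (W2015 D T h) (mem_cons (W1125 D T h) mem_nil)) mem_nil cw28917
theorem W28918 : WFK w28918 := fun D T h => wf_of_chk h mem_nil (mem_cons (L3193 D T h) mem_nil) cw28918
theorem W28919 : WFK w28919 := fun D T h => wf_of_chk h (mem_cons (W358 D T h) (mem_cons (W368 D T h) mem_nil)) mem_nil cw28919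
theorem W28920 : WFK w28920 := fun D T h => wf_of_chk h (mem_cons (W2219 D T h) (mem_cons (W368 D T h) mem_nil)) mem_nil cw28920
theorem W28921 : WFK w28921 := fun D T h => wf_of_chk h (mem_cons (W669 D T h) (mem_cons (W1125 D T h) mem_nil)) mem_nil cw28921
theorem W28922 : WFK w28922 := fun D T h => wf_of_chk h (mem_cons (W667 D T h) (mem_cons (W1125 D T h) mem_nil)) mem_nil cw28922
theorem W28923 : WFK w28923 := fun D T h => wf_of_chk h (mem_cons (W669 D T h) (mem_cons (W1125 D T h) mem_nil)) mem_nil cw28923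
theorem W28927 : WFK w28927 := fun D T h => wf_of_chk h (mem_cons (W15784 D T h) (mem_cons (W1125 D T h) mem_nil)) mem_nil cw28927
theorem L6461 : LFK l6461 := fun D T h => lf_of_chk h (mem_cons (W28893 D T h) (mem_cons (W15806 D T h) (mem_cons (W16019 D T h) (mem_cons (W16 D T h) (mem_cons (W26716 D T h) (mem_cons (W28921 D T h) (mem_cons (W28922 D T h) (mem_cons (W28923 D T h) (mem_cons (W28927 D T h) (mem_cons (W28919 D T h) (mem_cons (W28920 D T h) (mem_cons (W13539 D T h) (mem_cons (W5481 D T h) (mem_cons (W1502 D T h) (mem_cons (W368 D T h) (mem_cons (W2963 D T h) (mem_cons (W15552 D T h) (mem_cons (W18844 D T h) (mem_cons (W28892 D T h) (mem_cons (W28894 D T h) (mem_cons (W28895 D T h) (mem_cons (W28896 D T h) (mem_cons (W28897 D T h) (mem_cons (W4209 D T h) (mem_cons (W28898 D T h) (mem_cons (W28899 D T h) (mem_cons (W3878 D T h) (mem_cons (W28900 D T h) (mem_cons (W28909 D T h) (mem_cons (W28910 D T h) (mem_cons (W5622 D T h) (mem_cons (W28911 D T h) (mem_cons (W3396 D T h) (mem_cons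 (W28901 D T h) (mem_cons (W3199 D T h) (mem_cons (W28902 D T h) (mem_cons (W11881 D T h) (mem_cons (W27093 D T h) (mem_cons (W12820 D T h) (mem_cons (W2254 D T h) (mem_cons (W8112 D T h) (mem_cons (W28903 D T h) (mem_cons (W6754 D T h) (mem_cons (W28904 D T h) (mem_cons (W28905 D T h) (mem_cons (W12899 D T h) (mem_cons (W28906 D T h) (mem_cons (W28907 D T h) (mem_cons (W28908 D T h) (mem_cons (W28914 D T h) (mem_cons (W28915 D T h) (mem_cons (W28916 D T h) (mem_cons (W28917 D T h) (mem_cons (W28918 D T h) mem_nil)))))))))))))))))))))))))))))))))))))))))))))))))))))) cl6461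
theorem W28928 : WFK w28928 := fun D T h => wf_of_chk h mem_nil (mem_cons (L6461 D T h) mem_nil) cw28928
theorem W28929 : WFK w28929 := fun D T h => wf_of_chk h (mem_cons (W4397 D T h) (mem_cons (W16 D T h) mem_nil)) mem_nil cw28929
theorem W28930 : WFK w28930 := fun D T h => wf_of_chk h (mem_cons (W6849 D T h) (mem_cons (W16 D T h) mem_nil)) mem_nil cw28930
theorem W28931 : WFK w28931 := fun D T h => wf_of_chk h (mem_cons (W10696 D T h) (mem_cons (W16 D T h) mem_nil)) mem_nil cw28931
theorem W28932 : WFK w28932 := fun D T h => wf_of_chk h (mem_cons (W6849 D T h) (mem_cons (W16 D T h) mem_nil)) mem_nil cw28932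
theorem W28933 : WFK w28933 := fun D T h => wf_of_chk h (mem_cons (W1317 D T h) (mem_cons (W16 D T h) mem_nil)) mem_nil cw28933
theorem L6462 : LFK l6462 := fun D T h => lf_of_chk h (mem_cons (W1318 D T h) (mem_cons (W1502 D T h) (mem_cons (W2963 D T h) (mem_cons (W5721 D T h) (mem_cons (W42 D T h) (mem_cons (W16 D T h) (mem_cons (W11995 D T h) (mem_cons (W8449 D T h) (mem_cons (W8450 D T h) (mem_cons (W18319 D T h) (mem_cons (W28724 D T h) (mem_cons (W15562 D T h) (mem_cons (W15563 D T h) (mem_cons (W15559 D T h) (mem_cons (W28933 D T h) (mem_cons (W12924 D T h) (mem_cons (W12925 D T h) (mem_cons (W12927 D T h) (mem_cons (W177 D T h) (mem_cons (W18844 D T h) mem_nil)))))))))))))))))))) cl6462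
theorem W28934 : WFK w28934 := fun D T h => wf_of_chk h mem_nil (mem_cons (L6462 D T h) mem_nil) cw28934
theorem W28935 : WFK w28935 := fun D T h => wf_of_chk h mem_nil (mem_cons (L6426 D T h) mem_nil) cw28935
theorem L6463 : LFK l6463 := fun D T h => lf_of_chk h (mem_cons (W1448 D T h) (mem_cons (W200 D T h) (mem_cons (W42 D T h) (mem_cons (W10076 D T h) (mem_cons (W391 D T h) (mem_cons (W2304 D T h) (mem_cons (W3888 D T h) (mem_cons (W8633 D T h) (mem_cons (W22789 D T h) (mem_cons (W25137 D T h) (mem_cons (W22822 D T h) (mem_cons (W22821 D T h) (mem_cons (W28279 D T h) (mem_cons (W10234 D T h) (mem_cons (W21932 D T h) (mem_cons (W27245 D T h) (mem_cons (W21729 D T h) mem_nil))))))))))))))))) cl6463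
theorem W28936 : WFK w28936 := fun D T h => wf_of_chk h mem_nil (mem_cons (L6463 D T h) mem_nil) cw28936
theorem L6464 : LFK l6464 := fun D T h => lf_of_chk h (mem_cons (W1291 D T h) (mem_cons (W3304 D T h) (mem_cons (W13466 D T h) (mem_cons (W7114 D T h) (mem_cons (W42 D T h) (mem_cons (W16 D T h) (mem_cons (W1632 D T h) (mem_cons (W15556 D T h) (mem_cons (W5177 D T h) (mem_cons (W15557 D T h) (mem_cons (W50 D T h) (mem_cons (W15558 D T h) (mem_cons (W15559 D T h) (mem_cons (W5078 D T h) (mem_cons (W1408 D T h) (mem_cons (W15562 D T h) (mem_cons (W15563 D T h) (mem_cons (W15564 D T h) (mem_cons (W28494 D T h) (mem_cons (W15560 D T h) (mem_cons (W12924 D T h) (mem_cons (W12925 D T h) (mem_cons (W12926 D T h) (mem_cons (W12927 D T h) (mem_cons (W28936 D T h) mem_nil))))))))))))))))))))))))) cl6464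
theorem W28937 : WFK w28937 := fun D T h => wf_of_chk h mem_nil (mem_cons (L6464 D T h) mem_nil) cw28937
theorem L6465 : LFK l6465 := fun D T h => lf_of_chk h (mem_cons (W26716 D T h) (mem_cons (W3304 D T h) (mem_cons (W15147 D T h) (mem_cons (W3227 D T h) (mem_cons (W42 D T h) (mem_cons (W16 D T h) (mem_cons (W1502 D T h) (mem_cons (W2963 D T h) (mem_cons (W177 D T h) (mem_cons (W12918 D T h) (mem_cons (W5078 D T h) (mem_cons (W1408 D T h) (mem_cons (W15562 D T h) (mem_cons (W15563 D T h) (mem_cons (W15559 D T h) (mem_cons (W28494 D T h) (mem_cons (W12820 D T h) (mem_cons (W17875 D T h) (mem_cons (W28936 D T h) mem_nil))))))))))))))))))) cl6465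
theorem W28938 : WFK w28938 := fun D T h => wf_of_chk h mem_nil (mem_cons (L6465 D T h) mem_nil) cw28938
theorem W28939 : WFK w28939 := fun D T h => wf_of_chk h mem_nil (mem_cons (L290 D T h) mem_nil) cw28939
theorem L6466 : LFK l6466 := fun D T h => lf_of_chk h (mem_cons (W3 D T h) mem_nil) cl6466
theorem W28940 : WFK w28940 := fun D T h => wf_of_chk h mem_nil (mem_cons (L6466 D T h) mem_nil) cw28940
theorem L6467 : LFK l6467 := fun D T h => lf_of_chk h (mem_cons (W15784 D T h) (mem_cons (W433 D T h) (mem_cons (W1805 D T h) (mem_cons (W3298 D T h) (mem_cons (W864 D T h) (mem_cons (W142 D T h) (mem_cons (W16604 D T h) (mem_cons (W16972 D T h) (mem_cons (W15786 D T h) (mem_cons (W14816 D T h) (mem_cons (W11489 D T h) (mem_cons (W17308 D T h) (mem_cons (W17086 D T h) (mem_cons (W20596 D T h) (mem_cons (W164 D T h) (mem_cons (W42 D T h) (mem_cons (W20597 D T h) mem_nil))))))))))))))))) cl6467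
theorem W28941 : WFK w28941 := fun D T h => wf_of_chk h mem_nil (mem_cons (L6467 D T h) mem_nil) cw28941
theorem L6468 : LFK l6468 := fun D T h => lf_of_chk h (mem_cons (W15936 D T h) (mem_cons (W23896 D T h) (mem_cons (W15648 D T h) (mem_cons (W11487 D T h) (mem_cons (W20469 D T h) (mem_cons (W1267 D T h) (mem_cons (W808 D T h) (mem_cons (W11 D T h) (mem_cons (W16375 D T h) (mem_cons (W25648 D T h) (mem_cons (W27252 D T h) (mem_cons (W2140 D T h) (mem_cons (W2139 D T h) (mem_cons (W13 D T h) (mem_cons (W2141 D T h) mem_nil))))))))))))))) cl6468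
theorem W28942 : WFK w28942 := fun D T h => wf_of_chk h mem_nil (mem_cons (L6468 D T h) mem_nil) cw28942
theorem L6469 : LFK l6469 := fun D T h => lf_of_chk h (mem_cons (W13890 D T h) (mem_cons (W12 D T h) (mem_cons (W20725 D T h) (mem_cons (W1268 D T h) (mem_cons (W216 D T h) (mem_cons (W5606 D T h) (mem_cons (W13968 D T h) (mem_cons (W2474 D T h) (mem_cons (W5358 D T h) (mem_cons (W3274 D T h) mem_nil)))))))))) cl6469
theorem W28943 : WFK w28943 := fun D T h => wf_of_chk h mem_nil (mem_cons (L6469 D T h) mem_nil) cw28943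
theorem L6470 : LFK l6470 := fun D T h => lf_of_chk h (mem_cons (W13890 D T h) (mem_cons (W12 D T h) (mem_cons (W5358 D T h) (mem_cons (W13 D T h) (mem_cons (W19142 D T h) (mem_cons (W5645 D T h) (mem_cons (W3797 D T h) (mem_cons (W5606 D T h) (mem_cons (W3383 D T h) (mem_cons (W3274 D T h) mem_nil)))))))))) cl6470
theorem W28944 : WFK w28944 := fun D T h => wf_of_chk h mem_nil (mem_cons (L6470 D T h) mem_nil) cw28944
theorem L6471 : LFK l6471 := fun D T h => lf_of_chk h (mem_cons (W13890 D T h) (mem_cons (W12 D T h) (mem_cons (W294 D T h) (mem_cons (W13 D T h) (mem_cons (W7549 D T h) (mem_cons (W5645 D T h) (mem_cons (W3797 D T h) (mem_cons (W5606 D T h) (mem_cons (W20362 D T h) (mem_cons (W16152 D T h) (mem_cons (W1674 D T h) (mem_cons (W11676 D T h) (mem_cons (W5358 D T h) (mem_cons (W3274 D T h) mem_nil)))))))))))))) cl6471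
theorem W28945 : WFK w28945 := fun D T h => wf_of_chk h mem_nil (mem_cons (L6471 D T h) mem_nil) cw28945
theorem W28946 : WFK w28946 := fun D T h => wf_of_chk h (mem_cons (W1128 D T h) mem_nil) mem_nil cw28946
theorem W28947 : WFK w28947 := fun D T h => wf_of_chk h mem_nil (mem_cons (L1194 D T h) mem_nil) cw28947
theorem W28948 : WFK w28948 := fun D T h => wf_of_chk h (mem_cons (W4548 D T h) mem_nil) mem_nil cw28948
theorem W28949 : WFK w28949 := fun D T h => wf_of_chk h mem_nil (mem_cons (L1194 D T h) mem_nil) cw28949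
theorem W28950 : WFK w28950 := fun D T h => wf_of_chk h mem_nil (mem_cons (L1194 D T h) mem_nil) cw28950
theorem W28951 : WFK w28951 := fun D T h => wf_of_chk h mem_nil (mem_cons (L1208 D T h) mem_nil) cw28951
theorem W28952 : WFK w28952 := fun D T h => wf_of_chk h mem_nil (mem_cons (L1208 D T h) mem_nil) cw28952
theorem L6472 : LFK l6472 := fun D T h => lf_of_chk h (mem_cons (W13890 D T h) (mem_cons (W12 D T h) (mem_cons (W1129 D T h) (mem_cons (W3 D T h) (mem_cons (W750 D T h) (mem_cons (W767 D T h) (mem_cons (W86 D T h) (mem_cons (W5606 D T h) (mem_cons (W3378 D T h) (mem_cons (W5358 D T h) (mem_cons (W3274 D T h) mem_nil))))))))))) cl6472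
theorem W28953 : WFK w28953 := fun D T h => wf_of_chk h mem_nil (mem_cons (L6472 D T h) mem_nil) cw28953
theorem L6473 : LFK l6473 := fun D T h => lf_of_chk h (mem_cons (W19384 D T h) (mem_cons (W20104 D T h) (mem_cons (W28953 D T h) (mem_cons (W23876 D T h) (mem_cons (W28941 D T h) (mem_cons (W433 D T h) (mem_cons (W5647 D T h) (mem_cons (W5991 D T h) (mem_cons (W23704 D T h) (mem_cons (W1326 D T h) (mem_cons (W28946 D T h) (mem_cons (W26264 D T h) (mem_cons (W26268 D T h) (mem_cons (W28947 D T h) (mem_cons (W28948 D T h) (mem_cons (W28949 D T h) (mem_cons (W28950 D T h) (mem_cons (W6032 D T h) (mem_cons (W3967 D T h) (mem_cons (W28939 D T h) (mem_cons (W7314 D T h) (mem_cons (W28940 D T h) (mem_cons (W24204 D T h) (mem_cons (W28951 D T h) (mem_cons (W28952 D T h) (mem_cons (W25872 D T h) (mem_cons (W28942 D T h) (mem_cons (W721 D T h) (mem_cons (W267 D T h) (mem_cons (W28943 D T h) (mem_cons (W28944 D T h) (mem_cons (W28945 D T h) mem_nil)))))))))))))))))))))))))))))))) cl6473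
theorem W28954 : WFK w28954 := fun D T h => wf_of_chk h mem_nil (mem_cons (L6473 D T h) mem_nil) cw28954
theorem L6474 : LFK l6474 := fun D T h => lf_of_chk h (mem_cons (W12662 D T h) (mem_cons (W15633 D T h) (mem_cons (W15638 D T h) (mem_cons (W281 D T h) (mem_cons (W69 D T h) (mem_cons (W1 D T h) (mem_cons (W3953 D T h) (mem_cons (W368 D T h) (mem_cons (W126 D T h) (mem_cons (W267 D T h) (mem_cons (W4399 D T h) (mem_cons (W9025 D T h) (mem_cons (W15866 D T h) (mem_cons (W21833 D T h) (mem_cons (W23343 D T h) (mem_cons (W15639 D T h) (mem_cons (W18840 D T h) (mem_cons (W15640 D T h) (mem_cons (W721 D T h) (mem_cons (W22986 D T h) (mem_cons (W968 D T h) (mem_cons (W11568 D T h) (mem_cons (W16562 D T h) (mem_cons (W15641 D T h) (mem_cons (W1297 D T h) (mem_cons (W262 D T h) (mem_cons (W15634 D T h) (mem_cons (W8396 D T h) (mem_cons (W15635 D T h) (mem_cons (W28954 D T h) (mem_cons (W7557 D T h) (mem_cons (W15637 D T h) (mem_cons (W12409 D T h) (mem_cons (W15617 D T h) (mem_cons (W15626 D T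 h) (mem_cons (W15627 D T h) (mem_cons (W15628 D T h) (mem_cons (W3950 D T h) mem_nil)))))))))))))))))))))))))))))))))))))) cl6474
theorem W28955 : WFK w28955 := fun D T h => wf_of_chk h mem_nil (mem_cons (L6474 D T h) mem_nil) cw28955
theorem W28956 : WFK w28956 := fun D T h => wf_of_chk h mem_nil (mem_cons (L289 D T h) mem_nil) cw28956
theorem L6475 : LFK l6475 := fun D T h => lf_of_chk h (mem_cons (W15936 D T h) (mem_cons (W6685 D T h) (mem_cons (W15648 D T h) (mem_cons (W11487 D T h) (mem_cons (W20469 D T h) (mem_cons (W2139 D T h) (mem_cons (W13 D T h) (mem_cons (W2141 D T h) (mem_cons (W1267 D T h) (mem_cons (W11389 D T h) (mem_cons (W11 D T h) (mem_cons (W16375 D T h) (mem_cons (W25648 D T h) (mem_cons (W27252 D T h) (mem_cons (W2140 D T h) mem_nil))))))))))))))) cl6475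
theorem W28957 : WFK w28957 := fun D T h => wf_of_chk h mem_nil (mem_cons (L6475 D T h) mem_nil) cw28957
theorem W28958 : WFK w28958 := fun D T h => wf_of_chk h mem_nil (mem_cons (L6472 D T h) mem_nil) cw28958
theorem L6476 : LFK l6476 := fun D T h => lf_of_chk h (mem_cons (W28953 D T h) (mem_cons (W20104 D T h) (mem_cons (W23876 D T h) (mem_cons (W28941 D T h) (mem_cons (W433 D T h) (mem_cons (W6032 D T h) (mem_cons (W5991 D T h) (mem_cons (W23704 D T h) (mem_cons (W1326 D T h) (mem_cons (W28946 D T h) (mem_cons (W26264 D T h) (mem_cons (W28951 D T h) (mem_cons (W28952 D T h) (mem_cons (W28948 D T h) (mem_cons (W28958 D T h) (mem_cons (W5647 D T h) (mem_cons (W3967 D T h) (mem_cons (W28956 D T h) (mem_cons (W28939 D T h) (mem_cons (W28940 D T h) (mem_cons (W19384 D T h) (mem_cons (W24204 D T h) (mem_cons (W28950 D T h) (mem_cons (W28947 D T h) (mem_cons (W28957 D T h) (mem_cons (W25872 D T h) (mem_cons (W267 D T h) (mem_cons (W721 D T h) (mem_cons (W28943 D T h) (mem_cons (W28944 D T h) (mem_cons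 (W28945 D T h) mem_nil))))))))))))))))))))))))))))))) cl6476
theorem W28959 : WFK w28959 := fun D T h => wf_of_chk h mem_nil (mem_cons (L6476 D T h) mem_nil) cw28959
theorem W28960 : WFK w28960 := fun D T h => wf_of_chk h mem_nil (mem_cons (L5344 D T h) mem_nil) cw28960
theorem W28961 : WFK w28961 := fun D T h => wf_of_chk h mem_nil (mem_cons (L1741 D T h) mem_nil) cw28961
theorem L6477 : LFK l6477 := fun D T h => lf_of_chk h (mem_cons (W5606 D T h) (mem_cons (W28961 D T h) (mem_cons (W12533 D T h) (mem_cons (W109 D T h) (mem_cons (W10 D T h) mem_nil))))) cl6477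
theorem W28962 : WFK w28962 := fun D T h => wf_of_chk h mem_nil (mem_cons (L6477 D T h) mem_nil) cw28962
theorem W28963 : WFK w28963 := fun D T h => wf_of_chk h mem_nil (mem_cons (L894 D T h) mem_nil) cw28963
theorem L6478 : LFK l6478 := fun D T h => lf_of_chk h (mem_cons (W12661 D T h) (mem_cons (W15633 D T h) (mem_cons (W15638 D T h) (mem_cons (W281 D T h) (mem_cons (W69 D T h) (mem_cons (W1 D T h) (mem_cons (W3953 D T h) (mem_cons (W126 D T h) (mem_cons (W368 D T h) (mem_cons (W721 D T h) (mem_cons (W4399 D T h) (mem_cons (W9025 D T h) (mem_cons (W15866 D T h) (mem_cons (W21833 D T h) (mem_cons (W23343 D T h) (mem_cons (W15639 D T h) (mem_cons (W18840 D T h) (mem_cons (W15666 D T h) (mem_cons (W267 D T h) (mem_cons (W28215 D T h) (mem_cons (W968 D T h) (mem_cons (W11568 D T h) (mem_cons (W16562 D T h) (mem_cons (W28963 D T h) (mem_cons (W262 D T h) (mem_cons (W1297 D T h) (mem_cons (W15664 D T h) (mem_cons (W8396 D T h) (mem_cons (W15635 D T h) (mem_cons (W28959 D T h) (mem_cons (W7557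 D T h) (mem_cons (W28960 D T h) (mem_cons (W28962 D T h) (mem_cons (W15652 D T h) (mem_cons (W15660 D T h) (mem_cons (W15661 D T h) (mem_cons (W15663 D T h) mem_nil))))))))))))))))))))))))))))))))))))) cl6478
theorem W28964 : WFK w28964 := fun D T h => wf_of_chk h mem_nil (mem_cons (L6478 D T h) mem_nil) cw28964
theorem L6479 : LFK l6479 := fun D T h => lf_of_chk h (mem_cons (W18615 D T h) (mem_cons (W15905 D T h) (mem_cons (W1651 D T h) (mem_cons (W15784 D T h) (mem_cons (W26826 D T h) (mem_cons (W17839 D T h) (mem_cons (W16448 D T h) (mem_cons (W26019 D T h) (mem_cons (W16 D T h) (mem_cons (W14 D T h) (mem_cons (W5222 D T h) (mem_cons (W10605 D T h) (mem_cons (W24 D T h) (mem_cons (W9382 D T h) (mem_cons (W1398 D T h) (mem_cons (W2343 D T h) (mem_cons (W2344 D T h) (mem_cons (W284 D T h) (mem_cons (W1523 D T h) (mem_cons (W28214 D T h) (mem_cons (W5072 D T h) (mem_cons (W42 D T h) (mem_cons (W28477 D T h) (mem_cons (W28453 D T h) (mem_cons (W2049 D T h) (mem_cons (W2051 D T h) (mem_cons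 (W1502 D T h) mem_nil))))))))))))))))))))))))))) cl6479
theorem W28965 : WFK w28965 := fun D T h => wf_of_chk h mem_nil (mem_cons (L6479 D T h) mem_nil) cw28965
theorem W28966 : WFK w28966 := fun D T h => wf_of_chk h mem_nil (mem_cons (L6377 D T h) mem_nil) cw28966
theorem L6480 : LFK l6480 := fun D T h => lf_of_chk h (mem_cons (W1318 D T h) (mem_cons (W11995 D T h) (mem_cons (W15905 D T h) (mem_cons (W15147 D T h) (mem_cons (W1063 D T h) (mem_cons (W42 D T h) (mem_cons (W669 D T h) (mem_cons (W1502 D T h) (mem_cons (W18184 D T h) (mem_cons (W177 D T h) (mem_cons (W18844 D T h) (mem_cons (W15684 D T h) (mem_cons (W16 D T h) (mem_cons (W28724 D T h) (mem_cons (W15687 D T h) (mem_cons (W12550 D T h) (mem_cons (W7996 D T h) (mem_cons (W1291 D T h) (mem_cons (W15685 D T h) (mem_cons (W15686 D T h) (mem_cons (W8450 D T h) mem_nil))))))))))))))))))))) cl6480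
theorem W28967 : WFK w28967 := fun D T h => wf_of_chk h mem_nil (mem_cons (L6480 D T h) mem_nil) cw28967
theorem L6481 : LFK l6481 := fun D T h => lf_of_chk h (mem_cons (W15689 D T h) (mem_cons (W15600 D T h) (mem_cons (W15601 D T h) (mem_cons (W15642 D T h) (mem_cons (W15671 D T h) (mem_cons (W16 D T h) (mem_cons (W1318 D T h) (mem_cons (W15679 D T h) (mem_cons (W15688 D T h) (mem_cons (W28965 D T h) (mem_cons (W28966 D T h) (mem_cons (W28967 D T h) (mem_cons (W28955 D T h) (mem_cons (W28964 D T h) (mem_cons (W12963 D T h) (mem_cons (W15485 D T h) (mem_cons (W1211 D T h) (mem_cons (W12203 D T h) (mem_cons (W1502 D T h) (mem_cons (W28857 D T h) (mem_cons (W2963 D T h) (mem_cons (W15550 D T h) (mem_cons (W21706 D T h) (mem_cons (W28823 D T h) (mem_cons (W22300 D T h) (mem_cons (W15552 D T h) (mem_cons (W18844 D T h) (mem_cons (W28892 D T h) (mem_cons (W28928 D T h) (mem_cons (W15883 D T h) (mem_cons (W28929 D T h) (mem_cons (W28930 D T h) (mem_cons (W28931 D T h) (mem_cons (W28932 D T h) (mem_cons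 (W28934 D T h) (mem_cons (W3396 D T h) (mem_cons (W7962 D T h) (mem_cons (W12852 D T h) (mem_cons (W1291 D T h) (mem_cons (W15554 D T h) (mem_cons (W12209 D T h) (mem_cons (W28935 D T h) (mem_cons (W20849 D T h) (mem_cons (W28937 D T h) (mem_cons (W15566 D T h) (mem_cons (W28938 D T h) (mem_cons (W20207 D T h) (mem_cons (W21440 D T h) (mem_cons (W28858 D T h) (mem_cons (W6754 D T h) (mem_cons (W12871 D T h) (mem_cons (W28862 D T h) (mem_cons (W12899 D T h) (mem_cons (W28866 D T h) (mem_cons (W28869 D T h) (mem_cons (W28875 D T h) (mem_cons (W28887 D T h) (mem_cons (W28889 D T h) (mem_cons (W28890 D T h) (mem_cons (W28891 D T h) mem_nil)))))))))))))))))))))))))))))))))))))))))))))))))))))))))))) cl6481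
theorem W28968 : WFK w28968 := fun D T h => wf_of_chk h mem_nil (mem_cons (L6481 D T h) mem_nil) cw28968
theorem W28969 : WFK w28969 := fun D T h => wf_of_chk h (mem_cons (W284 D T h) (mem_cons (W1318 D T h) mem_nil)) mem_nil cw28969
theorem L6482 : LFK l6482 := fun D T h => lf_of_chk h (mem_cons (W18615 D T h) (mem_cons (W747 D T h) (mem_cons (W12 D T h) (mem_cons (W16 D T h) (mem_cons (W1408 D T h) (mem_cons (W16566 D T h) (mem_cons (W5078 D T h) (mem_cons (W28712 D T h) (mem_cons (W2684 D T h) (mem_cons (W5358 D T h) mem_nil)))))))))) cl6482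
theorem W28970 : WFK w28970 := fun D T h => wf_of_chk h mem_nil (mem_cons (L6482 D T h) mem_nil) cw28970
theorem L6483 : LFK l6483 := fun D T h => lf_of_chk h (mem_cons (W15784 D T h) (mem_cons (W5177 D T h) (mem_cons (W15893 D T h) (mem_cons (W3878 D T h) (mem_cons (W42 D T h) (mem_cons (W18137 D T h) (mem_cons (W12279 D T h) (mem_cons (W16071 D T h) (mem_cons (W669 D T h) (mem_cons (W179 D T h) (mem_cons (W15786 D T h) (mem_cons (W15 D T h) (mem_cons (W220 D T h) mem_nil))))))))))))) cl6483
theorem W28971 : WFK w28971 := fun D T h => wf_of_chk h mem_nil (mem_cons (L6483 D T h) mem_nil) cw28971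
theorem W28972 : WFK w28972 := fun D T h => wf_of_chk h (mem_cons (W114 D T h) mem_nil) mem_nil cw28972
theorem W28973 : WFK w28973 := fun D T h => wf_of_chk h (mem_cons (W114 D T h) mem_nil) mem_nil cw28973
theorem W28974 : WFK w28974 := fun D T h => wf_of_chk h (mem_cons (W2517 D T h) mem_nil) mem_nil cw28974
theorem L6484 : LFK l6484 := fun D T h => lf_of_chk h (mem_cons (W15786 D T h) (mem_cons (W28972 D T h) (mem_cons (W28973 D T h) (mem_cons (W126 D T h) (mem_cons (W9005 D T h) (mem_cons (W28974 D T h) (mem_cons (W1350 D T h) (mem_cons (W15760 D T h) (mem_cons (W69 D T h) (mem_cons (W1 D T h) mem_nil)))))))))) cl6484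
theorem W28975 : WFK w28975 := fun D T h => wf_of_chk h mem_nil (mem_cons (L6484 D T h) mem_nil) cw28975
theorem L6485 : LFK l6485 := fun D T h => lf_of_chk h (mem_cons (W15773 D T h) (mem_cons (W19845 D T h) (mem_cons (W368 D T h) (mem_cons (W126 D T h) (mem_cons (W721 D T h) (mem_cons (W267 D T h) (mem_cons (W16 D T h) (mem_cons (W114 D T h) (mem_cons (W1298 D T h) (mem_cons (W6433 D T h) (mem_cons (W21077 D T h) (mem_cons (W28975 D T h) (mem_cons (W28971 D T h) (mem_cons (W28741 D T h) (mem_cons (W15694 D T h) (mem_cons (W1317 D T h) (mem_cons (W8595 D T h) (mem_cons (W28970 D T h) (mem_cons (W28774 D T h) (mem_cons (W15703 D T h) (mem_cons (W1 D T h) (mem_cons (W69 D T h) (mem_cons (W28705 D T h) mem_nil))))))))))))))))))))))) cl6485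
theorem W28976 : WFK w28976 := fun D T h => wf_of_chk h mem_nil (mem_cons (L6485 D T h) mem_nil) cw28976
theorem W28977 : WFK w28977 := fun D T h => wf_of_chk h mem_nil (mem_cons (L6485 D T h) mem_nil) cw28977
theorem L6486 : LFK l6486 := fun D T h => lf_of_chk h (mem_cons (W3766 D T h) (mem_cons (W16 D T h) (mem_cons (W1 D T h) (mem_cons (W1318 D T h) (mem_cons (W1325 D T h) (mem_cons (W1554 D T h) (mem_cons (W581 D T h) (mem_cons (W1326 D T h) (mem_cons (W8640 D T h) (mem_cons (W3 D T h) (mem_cons (W461 D T h) (mem_cons (W39 D T h) (mem_cons (W42 D T h) (mem_cons (W181 D T h) mem_nil)))))))))))))) cl6486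
theorem W28978 : WFK w28978 := fun D T h => wf_of_chk h mem_nil (mem_cons (L6486 D T h) mem_nil) cw28978
theorem L6487 : LFK l6487 := fun D T h => lf_of_chk h (mem_cons (W5721 D T h) (mem_cons (W1065 D T h) (mem_cons (W219 D T h) (mem_cons (W16 D T h) (mem_cons (W1318 D T h) (mem_cons (W1 D T h) (mem_cons (W181 D T h) (mem_cons (W8424 D T h) (mem_cons (W10825 D T h) (mem_cons (W932 D T h) (mem_cons (W3878 D T h) (mem_cons (W5622 D T h) (mem_cons (W461 D T h) (mem_cons (W12168 D T h) (mem_cons (W7076 D T h) mem_nil))))))))))))))) cl6487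
theorem W28979 : WFK w28979 := fun D T h => wf_of_chk h mem_nil (mem_cons (L6487 D T h) mem_nil) cw28979
theorem L6488 : LFK l6488 := fun D T h => lf_of_chk h (mem_cons (W5622 D T h) (mem_cons (W795 D T h) (mem_cons (W1109 D T h) (mem_cons (W16 D T h) (mem_cons (W1318 D T h) (mem_cons (W10 D T h) (mem_cons (W3878 D T h) (mem_cons (W15709 D T h) (mem_cons (W15710 D T h) (mem_cons (W7168 D T h) (mem_cons (W20829 D T h) (mem_cons (W15711 D T h) (mem_cons (W25038 D T h) (mem_cons (W6103 D T h) mem_nil)))))))))))))) cl6488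
theorem W28980 : WFK w28980 := fun D T h => wf_of_chk h mem_nil (mem_cons (L6488 D T h) mem_nil) cw28980
theorem L6489 : LFK l6489 := fun D T h => lf_of_chk h (mem_cons (W26716 D T h) (mem_cons (W15713 D T h) (mem_cons (W11995 D T h) (mem_cons (W16 D T h) (mem_cons (W42 D T h) (mem_cons (W8628 D T h) (mem_cons (W177 D T h) (mem_cons (W28976 D T h) (mem_cons (W28977 D T h) (mem_cons (W50 D T h) (mem_cons (W28978 D T h) (mem_cons (W28979 D T h) (mem_cons (W28724 D T h) (mem_cons (W3410 D T h) (mem_cons (W7996 D T h) (mem_cons (W1291 D T h) (mem_cons (W1310 D T h) (mem_cons (W1063 D T h) (mem_cons (W28980 D T h) (mem_cons (W15147 D T h) mem_nil)))))))))))))))))))) cl6489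
theorem W28981 : WFK w28981 := fun D T h => wf_of_chk h mem_nil (mem_cons (L6489 D T h) mem_nil) cw28981
theorem W28982 : WFK w28982 := fun D T h => wf_of_chk h (mem_cons (W56 D T h) (mem_cons (W1318 D T h) mem_nil)) mem_nil cw28982
theorem W28983 : WFK w28983 := fun D T h => wf_of_chk h (mem_cons (W267 D T h) (mem_cons (W1318 D T h) mem_nil)) mem_nil cw28983
theorem L6490 : LFK l6490 := fun D T h => lf_of_chk h (mem_cons (W3766 D T h) (mem_cons (W16 D T h) (mem_cons (W1318 D T h) (mem_cons (W1 D T h) (mem_cons (W1554 D T h) (mem_cons (W581 D T h) (mem_cons (W21469 D T h) (mem_cons (W1326 D T h) (mem_cons (W7212 D T h) (mem_cons (W461 D T h) (mem_cons (W3 D T h) (mem_cons (W39 D T h) (mem_cons (W42 D T h) (mem_cons (W181 D T h) mem_nil)))))))))))))) cl6490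
theorem W28984 : WFK w28984 := fun D T h => wf_of_chk h mem_nil (mem_cons (L6490 D T h) mem_nil) cw28984
theorem L6491 : LFK l6491 := fun D T h => lf_of_chk h (mem_cons (W15786 D T h) (mem_cons (W2989 D T h) (mem_cons (W15760 D T h) (mem_cons (W1 D T h) (mem_cons (W69 D T h) (mem_cons (W1315 D T h) (mem_cons (W16077 D T h) mem_nil))))))) cl6491
theorem W28985 : WFK w28985 := fun D T h => wf_of_chk h mem_nil (mem_cons (L6491 D T h) mem_nil) cw28985
theorem W28986 : WFK w28986 := fun D T h => wf_of_chk h mem_nil (mem_cons (L6461 D T h) mem_nil) cw28986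
theorem L6492 : LFK l6492 := fun D T h => lf_of_chk h (mem_cons (W26716 D T h) (mem_cons (W11995 D T h) (mem_cons (W15147 D T h) (mem_cons (W16 D T h) (mem_cons (W1063 D T h) (mem_cons (W42 D T h) (mem_cons (W28985 D T h) (mem_cons (W3410 D T h) (mem_cons (W28724 D T h) (mem_cons (W1291 D T h) (mem_cons (W1310 D T h) (mem_cons (W7996 D T h) (mem_cons (W3910 D T h) (mem_cons (W8628 D T h) (mem_cons (W177 D T h) (mem_cons (W28982 D T h) (mem_cons (W50 D T h) (mem_cons (W28983 D T h) (mem_cons (W28984 D T h) (mem_cons (W28986 D T h) (mem_cons (W15713 D T h) mem_nil))))))))))))))))))))) cl6492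
theorem W28987 : WFK w28987 := fun D T h => wf_of_chk h mem_nil (mem_cons (L6492 D T h) mem_nil) cw28987
theorem L6493 : LFK l6493 := fun D T h => lf_of_chk h (mem_cons (W16 D T h) (mem_cons (W1318 D T h) (mem_cons (W15 D T h) (mem_cons (W220 D T h) (mem_cons (W15773 D T h) (mem_cons (W15784 D T h) (mem_cons (W6509 D T h) (mem_cons (W6510 D T h) (mem_cons (W7212 D T h) (mem_cons (W18756 D T h) mem_nil)))))))))) cl6493
theorem W28988 : WFK w28988 := fun D T h => wf_of_chk h mem_nil (mem_cons (L6493 D T h) mem_nil) cw28988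
theorem W28989 : WFK w28989 := fun D T h => wf_of_chk h mem_nil (mem_cons (L6485 D T h) mem_nil) cw28989
theorem W28990 : WFK w28990 := fun D T h => wf_of_chk h (mem_cons (W16 D T h) (mem_cons (W1318 D T h) mem_nil)) mem_nil cw28990
theorem W28991 : WFK w28991 := fun D T h => wf_of_chk h mem_nil (mem_cons (L6367 D T h) mem_nil) cw28991
theorem W28992 : WFK w28992 := fun D T h => wf_of_chk h mem_nil (mem_cons (L3466 D T h) mem_nil) cw28992
theorem L6494 : LFK l6494 := fun D T h => lf_of_chk h (mem_cons (W10772 D T h) (mem_cons (W10422 D T h) (mem_cons (W5186 D T h) (mem_cons (W153 D T h) (mem_cons (W2729 D T h) (mem_cons (W2732 D T h) (mem_cons (W8815 D T h) (mem_cons (W1676 D T h) (mem_cons (W50 D T h) (mem_cons (W69 D T h) (mem_cons (W8638 D T h) (mem_cons (W1555 D T h) (mem_cons (W19636 D T h) (mem_cons (W1326 D T h) (mem_cons (W10769 D T h) (mem_cons (W7212 D T h) (mem_cons (W39 D T h) (mem_cons (W1929 D T h) (mem_cons (W28651 D T h) mem_nil))))))))))))))))))) cl6494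
theorem W28993 : WFK w28993 := fun D T h => wf_of_chk h mem_nil (mem_cons (L6494 D T h) mem_nil) cw28993
theorem W28994 : WFK w28994 := fun D T h => wf_of_chk h mem_nil (mem_cons (L1945 D T h) mem_nil) cw28994
theorem L6495 : LFK l6495 := fun D T h => lf_of_chk h (mem_cons (W8628 D T h) (mem_cons (W15733 D T h) (mem_cons (W8781 D T h) (mem_cons (W15734 D T h) (mem_cons (W15735 D T h) (mem_cons (W16 D T h) (mem_cons (W28994 D T h) (mem_cons (W8977 D T h) (mem_cons (W11137 D T h) (mem_cons (W284 D T h) (mem_cons (W15884 D T h) (mem_cons (W1318 D T h) (mem_cons (W2989 D T h) (mem_cons (W19845 D T h) (mem_cons (W28985 D T h) (mem_cons (W28989 D T h) (mem_cons (W2934 D T h) (mem_cons (W28990 D T h) (mem_cons (W15723 D T h) (mem_cons (W15883 D T h) (mem_cons (W28988 D T h) (mem_cons (W28845 D T h) (mem_cons (W28935 D T h) (mem_cons (W20849 D T h) (mem_cons (W15968 D T h) (mem_cons (W28991 D T h) (mem_cons (W19729 D T h) (mem_cons (W28992 D T h) (mem_cons (W28993 D T h) mem_nil)))))))))))))))))))))))))))))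 cl6495
theorem W28995 : WFK w28995 := fun D T h => wf_of_chk h mem_nil (mem_cons (L6495 D T h) mem_nil) cw28995
theorem W28996 : WFK w28996 := fun D T h => wf_of_chk h mem_nil (mem_cons (L6492 D T h) mem_nil) cw28996
theorem W29009 : WFK w29009 := fun D T h => wf_of_chk h mem_nil (mem_cons (L3497 D T h) mem_nil) cw29009
theorem L6500 : LFK l6500 := fun D T h => lf_of_chk h (mem_cons (W16 D T h) (mem_cons (W19845 D T h) (mem_cons (W1318 D T h) (mem_cons (W42 D T h) (mem_cons (W2015 D T h) (mem_cons (W10772 D T h) (mem_cons (W8640 D T h) (mem_cons (W28774 D T h) (mem_cons (W15773 D T h) (mem_cons (W15 D T h) (mem_cons (W220 D T h) (mem_cons (W28695 D T h) mem_nil)))))))))))) cl6500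
theorem W29012 : WFK w29012 := fun D T h => wf_of_chk h mem_nil (mem_cons (L6500 D T h) mem_nil) cw29012
theorem L6502 : LFK l6502 := fun D T h => lf_of_chk h (mem_cons (W669 D T h) (mem_cons (W15905 D T h) (mem_cons (W15893 D T h) (mem_cons (W8829 D T h) (mem_cons (W18189 D T h) (mem_cons (W2963 D T h) (mem_cons (W2914 D T h) (mem_cons (W15 D T h) (mem_cons (W220 D T h) (mem_cons (W15784 D T h) (mem_cons (W2517 D T h) mem_nil))))))))))) cl6502
theorem W29014 : WFK w29014 := fun D T h => wf_of_chk h mem_nil (mem_cons (L6502 D T h) mem_nil) cw29014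
theorem L6503 : LFK l6503 := fun D T h => lf_of_chk h (mem_cons (W15810 D T h) (mem_cons (W7223 D T h) (mem_cons (W14 D T h) (mem_cons (W16 D T h) (mem_cons (W1502 D T h) (mem_cons (W29009 D T h) (mem_cons (W12168 D T h) (mem_cons (W3766 D T h) (mem_cons (W15752 D T h) (mem_cons (W26755 D T h) (mem_cons (W27887 D T h) (mem_cons (W26756 D T h) mem_nil)))))))))))) cl6503
theorem W29015 : WFK w29015 := fun D T h => wf_of_chk h mem_nil (mem_cons (L6503 D T h) mem_nil) cw29015
theorem W29016 : WFK w29016 := fun D T h => wf_of_chk h mem_nil (mem_cons (L3471 D T h) mem_nil) cw29016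
theorem L6504 : LFK l6504 := fun D T h => lf_of_chk h (mem_cons (W15741 D T h) (mem_cons (W8639 D T h) (mem_cons (W16019 D T h) (mem_cons (W16 D T h) (mem_cons (W26716 D T h) (mem_cons (W15740 D T h) (mem_cons (W28737 D T h) (mem_cons (W15739 D T h) (mem_cons (W28832 D T h) (mem_cons (W28803 D T h) (mem_cons (W29012 D T h) (mem_cons (W28979 D T h) (mem_cons (W15744 D T h) (mem_cons (W29014 D T h) (mem_cons (W28719 D T h) (mem_cons (W16233 D T h) (mem_cons (W29015 D T h) (mem_cons (W28674 D T h) (mem_cons (W29016 D T h) mem_nil))))))))))))))))))) cl6504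
theorem W29017 : WFK w29017 := fun D T h => wf_of_chk h mem_nil (mem_cons (L6504 D T h) mem_nil) cw29017
theorem W29018 : WFK w29018 := fun D T h => wf_of_chk h (mem_cons (W284 D T h) (mem_cons (W1318 D T h) mem_nil)) mem_nil cw29018
theorem W29019 : WFK w29019 := fun D T h => wf_of_chk h mem_nil (mem_cons (L6504 D T h) mem_nil) cw29019
theorem W29020 : WFK w29020 := fun D T h => wf_of_chk h mem_nil (mem_cons (L6504 D T h) mem_nil) cw29020
theorem L6505 : LFK l6505 := fun D T h => lf_of_chk h (mem_cons (W8860 D T h) (mem_cons (W8499 D T h) (mem_cons (W8594 D T h) (mem_cons (W8607 D T h) (mem_cons (W16 D T h) (mem_cons (W26716 D T h) (mem_cons (W28670 D T h) (mem_cons (W28780 D T h) (mem_cons (W28781 D T h) (mem_cons (W28783 D T h) (mem_cons (W28671 D T h) (mem_cons (W8497 D T h) (mem_cons (W9704 D T h) (mem_cons (W12166 D T h) (mem_cons (W28803 D T h) (mem_cons (W28831 D T h) (mem_cons (W28832 D T h) (mem_cons (W15741 D T h) (mem_cons (W28996 D T h) (mem_cons (W29017 D T h) (mem_cons (W29018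 D T h) (mem_cons (W29019 D T h) (mem_cons (W29020 D T h) (mem_cons (W28968 D T h) (mem_cons (W3910 D T h) (mem_cons (W8628 D T h) (mem_cons (W28969 D T h) (mem_cons (W28981 D T h) (mem_cons (W28987 D T h) (mem_cons (W28995 D T h) (mem_cons (W28805 D T h) (mem_cons (W28819 D T h) (mem_cons (W18786 D T h) (mem_cons (W28825 D T h) (mem_cons (W28827 D T h) (mem_cons (W28679 D T h) (mem_cons (W28689 D T h) (mem_cons (W28690 D T h) mem_nil)))))))))))))))))))))))))))))))))))))) cl6505
theorem W29021 : WFK w29021 := fun D T h => wf_of_chk h mem_nil (mem_cons (L6505 D T h) mem_nil) cw29021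
theorem L6506 : LFK l6506 := fun D T h => lf_of_chk h (mem_cons (W15758 D T h) (mem_cons (W15759 D T h) (mem_cons (W15774 D T h) (mem_cons (W16 D T h) (mem_cons (W37 D T h) (mem_cons (W10406 D T h) (mem_cons (W29021 D T h) mem_nil))))))) cl6506
theorem T1 : WFK t1 := fun D T h => wf_of_chk h mem_nil (mem_cons (L6506 D T h) mem_nil) ct1
theorem T0 : WFK t0 := fun D T h => wf_of_chk h (mem_cons (T1 D T h) mem_nil) mem_nil ct0

end Pool.Agent.W319.GCI.K5
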