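import Mathlib

/-!
# Edge-colouring game on the 4-regular tree: words, patterns
-/

set_option autoImplicit false

namespace Pool.Agent.W319.GCI

/-- Partial knowledge about what lies behind a directed edge. -/
inductive Pat : Type
  | junk : Pat
  | slot : Nat → Pat
  | col : Nat → Pat
  | node : Pat → Pat → Pat → Pat

/-- Pattern around a vertex. -/
inductive Root : Type
  | mk : Pat → Pat → Pat → Pat → Root

abbrev Wd := List (Fin 4)

def Rd (x : Wd) : Prop := List.IsChain (· ≠ ·) x

/-- identifier of the edge `l` at `x` -/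
def eid (x : Wd) (l : Fin 4) : Wd := if x.head? = some l then x else l :: x
/-- neighbour of `x` along `l` -/
def nb (x : Wd) (l : Fin 4) : Wd := if x.head? = some l then x.tail else l :: x

/-- edges behind the directed edge `(x,l)` (that edge included) -/
def BE (x : Wd) (l : Fin 4) (w : Wd) : Prop :=
  if x.head? = some l then (¬ x <:+ w ∨ w = x) else (l :: x) <:+ w

def D4 (i j k l : Fin 4) : Prop := i ≠ j ∧ i ≠ k ∧ i ≠ l ∧ j ≠ k ∧ j ≠ l ∧ k ≠ l

theorem D4.s12 {i j k l : Fin 4} (h : D4 i j k l) : D4 j i k l := by
  obtain ⟨a, b, c, d, e, f⟩ := h; exact ⟨a.symm, d, e, b, c, f⟩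
theorem D4.s23 {i j k l : Fin 4} (h : D4 i j k l) : D4 i k j l := by
  obtain ⟨a, b, c, d, e, f⟩ := h; exact ⟨b, a, c, d.symm, f, e⟩
theorem D4.s34 {i j k l : Fin 4} (h : D4 i j k l) : D4 i j l k := by
  obtain ⟨a, b, c, d, e, f⟩ := h; exact ⟨a, c, b, e, d, f.symm⟩
theorem D4.cover {i j k l : Fin 4} (h : D4 i j k l) (m : Fin 4) : m = i ∨ m = j ∨ m = k ∨ m = l := by
  obtain ⟨a, b, c, d, e, f⟩ := h
  revert i j k l m; decide
theorem D4.cover' {i j k l : Fin 4} (h : D4 i j k l) {m : Fin 4} (hm : m ≠ l) : m = i ∨ m = j ∨ m = k := by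
  rcases h.cover m with h1 | h1 | h1 | h1
  · exact Or.inl h1
  · exact Or.inr (Or.inl h1)
  · exact Or.inr (Or.inr h1)
  · exact absurd h1 hm
theorem D4.exists (l : Fin 4) : ∃ i j k, D4 i j k l := by
  unfold D4; revert l; decide

theorem Rd.tail {x : Wd} (h : Rd x) : Rd x.tail := by
  unfold Rd at *; exact h.tail
theorem Rd.cons {x : Wd} {l : Fin 4} (h : Rd x) (hl : x.head? ≠ some l) : Rd (l :: x) := by
  unfold Rd at *
  cases x with
  | nil => simp
  | cons m t =>
    rw [List.isChain_cons_cons]
    refine ⟨?_, h⟩
    intro e; apply hl; simp [e]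
theorem Rd.nb {x : Wd} (h : Rd x) (l : Fin 4) : Rd (nb x l) := by
  unfold GCI.nb
  split_ifs with h1
  · exact h.tail
  · exact h.cons h1
theorem Rd.eid {x : Wd} (h : Rd x) (l : Fin 4) : Rd (eid x l) := by
  unfold GCI.eid
  split_ifs with h1
  · exact h
  · exact h.cons h1
theorem Rd.head_ne {x : Wd} {l m : Fin 4} (h : Rd (l :: x)) (hm : x.head? = some m) : l ≠ m := by
  unfold Rd at h
  cases x with
  | nil => simp at hm
  | cons a t =>
    rw [List.isChain_cons_cons] at h
    simp at hm
    rw [← hm]; exact h.1

theorem nb_nb {x : Wd} (h : Rd x) (l : Fin 4) : nb (nb x l) l = x := by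
  unfold nb
  by_cases h1 : x.head? = some l
  · rw [if_pos h1]
    cases x with
    | nil => simp at h1
    | cons m t =>
      simp at h1; subst h1
      have h3 : t.head? ≠ some m := fun h2 => h.head_ne h2 rfl
      simp [h3]
  · rw [if_neg h1]; simp
theorem eid_nb {x : Wd} (h : Rd x) (l : Fin 4) : eid (nb x l) l = eid x l := by
  unfold nb eid
  by_cases h1 : x.head? = some l
  · rw [if_pos h1, if_pos h1]
    cases x with
    | nil => simp at h1
    | cons m t =>
      simp at h1; subst h1
      have h3 : t.head? ≠ some m := fun h2 => h.head_ne h2 rfl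
      simp [h3]
  · rw [if_neg h1]; simp [h1]
theorem eid_ne_nil (x : Wd) (l : Fin 4) : eid x l ≠ [] := by
  unfold eid; split_ifs with h
  · intro e; rw [e] at h; simp at h
  · simp

theorem BE_eid (x : Wd) (l : Fin 4) : BE x l (eid x l) := by
  unfold BE eid; split_ifs with h
  · right; rfl
  · exact List.suffix_refl _

theorem suffix_cons_inj {l m : Fin 4} {x w : Wd} (h1 : (l :: x) <:+ w) (h2 : (m :: x) <:+ w) : l = m := by
  obtain ⟨t1, e1⟩ := h1
  obtain ⟨t2, e2⟩ := h2
  have h3 : t1.length = t2.length := by
    have := congrArg List.length e1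
    have := congrArg List.length e2
    simp at *; omega
  have := List.append_inj (e1.trans e2.symm) h3
  simpa using this.2

/-- different ports have disjoint branches -/
theorem BE_disj {x : Wd} {l m : Fin 4} (hlm : l ≠ m) {w : Wd} (h1 : BE x l w) (h2 : BE x m w) : False := by
  unfold BE at h1 h2
  by_cases a : x.head? = some l
  · have b : x.head? ≠ some m := by rw [a]; simpa using hlm
    rw [if_pos a] at h1; rw [if_neg b] at h2
    have hx : x <:+ w := (List.suffix_cons m x).trans h2
    rcases h1 with h1 | h1
    · exact h1 hx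
    · subst h1
      have := h2.length_le
      simp at this
  · by_cases b : x.head? = some m
    · rw [if_neg a] at h1; rw [if_pos b] at h2
      have hx : x <:+ w := (List.suffix_cons l x).trans h1
      rcases h2 with h2 | h2
      · exact h2 hx
      · subst h2
        have := h1.length_le
        simp at this
    · rw [if_neg a] at h1; rw [if_neg b] at h2
      exact hlm (suffix_cons_inj h1 h2)

/-- every edge lies in some branch of `x` -/
theorem BE_exists (x : Wd) {w : Wd} (hw : w ≠ []) (hr : Rd w) : ∃ l, BE x l w := by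
  by_cases hx : x <:+ w ∧ w ≠ x
  · obtain ⟨⟨t, ht⟩, hne⟩ := hx
    have htn : t ≠ [] := by
      rintro rfl; apply hne; simpa using ht.symm
    obtain ⟨s, a, rfl⟩ : ∃ s a, t = s ++ [a] := ⟨t.dropLast, t.getLast htn, (List.dropLast_append_getLast htn).symm⟩
    refine ⟨a, ?_⟩
    have h1 : (a :: x) <:+ w := ⟨s, by simpa using ht⟩
    unfold BE
    rw [if_neg]
    · exact h1
    · intro h2
      cases x with
      | nil => simp at h2
      | cons b y =>
        simp at h2; subst h2
        obtain ⟨u, hu⟩ := h1
        unfold Rd at hr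
        rw [← hu] at hr
        have := (List.isChain_append.1 hr).2.1
        rw [List.isChain_cons_cons] at this
        exact this.1 rfl
  · have hx' : ¬ x <:+ w ∨ w = x := by
      by_cases h : x <:+ w
      · right; by_contra h2; exact hx ⟨h, h2⟩
      · exact Or.inl h
    cases x with
    | nil =>
      rcases hx' with h | h
      · exact absurd (List.nil_suffix) h
      · exact absurd h hw
    | cons a y =>
      refine ⟨a, ?_⟩
      unfold BE
      rw [if_pos (by simp)]
      exact hx'

/-- deeper branches are inside -/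
theorem BE_sub {x : Wd} (hr : Rd x) {l m : Fin 4} (hm : m ≠ l) {w : Wd} (h : BE (nb x l) m w) :
    BE x l w ∧ w ≠ eid x l := by
  unfold nb at h
  by_cases a : x.head? = some l
  · rw [if_pos a] at h
    cases x with
    | nil => simp at a
    | cons b y =>
      simp at a; subst a
      simp only [List.tail_cons] at h
      unfold BE at h ⊢
      unfold eid
      simp only [List.head?_cons, if_true]
      by_cases c : y.head? = some m
      · rw [if_pos c] at h
        have hnot : ¬ (b :: y) <:+ w := by
          intro hs
          rcases h with h | h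
          · exact h ((List.suffix_cons b y).trans hs)
          · subst h; have := hs.length_le; simp at this
        refine ⟨Or.inl hnot, ?_⟩
        rintro rfl; exact hnot (List.suffix_refl _)
      · rw [if_neg c] at h
        have hnot : ¬ (b :: y) <:+ w := fun hs => hm (suffix_cons_inj h hs)
        refine ⟨Or.inl hnot, ?_⟩
        rintro rfl; exact hnot (List.suffix_refl _)
  · rw [if_neg a] at h
    unfold BE at h ⊢
    unfold eid
    rw [if_neg a, if_neg a]
    have c : (l :: x).head? ≠ some m := by simp; exact fun e => hm e.symm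
    rw [if_neg c] at h
    refine ⟨(List.suffix_cons m _).trans h, ?_⟩
    rintro rfl
    have := h.length_le
    simp at this

theorem BE_back {x : Wd} (hr : Rd x) {l : Fin 4} {w : Wd} (h1 : BE x l w) (h2 : BE (nb x l) l w) : w = eid x l := by
  unfold nb at h2
  by_cases a : x.head? = some l
  · rw [if_pos a] at h2
    cases x with
    | nil => simp at a
    | cons b y =>
      simp at a; subst a
      simp only [List.tail_cons] at h2
      have hy : y.head? ≠ some b := by intro e; exact hr.head_ne e rfl
      unfold BE at h1 h2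
      unfold eid
      simp only [List.head?_cons, if_true] at *
      rw [if_neg hy] at h2
      rcases h1 with h1 | h1
      · exact absurd h2 h1
      · exact h1
  · rw [if_neg a] at h2
    unfold BE at h1 h2
    unfold eid
    rw [if_neg a] at *
    simp only [List.head?_cons, if_true] at h2
    rcases h2 with h2 | h2
    · exact absurd h1 h2
    · exact h2

theorem BE_step {x : Wd} (hr : Rd x) {l : Fin 4} {w : Wd} (hw : w ≠ []) (hrw : Rd w) (h : BE x l w)
    (hne : w ≠ eid x l) : ∃ m, m ≠ l ∧ BE (nb x l) m w := by
  obtain ⟨m, hm⟩ := BE_exists (nb x l) hw hrw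
  refine ⟨m, ?_, hm⟩
  rintro rfl
  exact hne (BE_back hr h hm)

/-- edges in other branches of `x` are behind `(nb x l, l)` -/
theorem BE_other {x : Wd} (hr : Rd x) {l m : Fin 4} (hm : m ≠ l) {w : Wd} (h : BE x m w) :
    BE (nb x l) l w ∧ w ≠ eid x l := by
  have h1 : nb (nb x l) l = x := nb_nb hr l
  have h2 : eid (nb x l) l = eid x l := eid_nb hr l
  have := BE_sub (x := nb x l) (hr.nb l) (l := l) (m := m) hm (w := w) (by rw [h1]; exact h)
  rw [h2] at this
  exact this

end Pool.Agent.W319.GCI
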