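import Pool.Agent.W319.GCI.Rules

set_option autoImplicit false
set_option linter.unusedVariables false

namespace Pool.Agent.W319.GCI

section
variable {K D : ℕ}

/-- all colours below `n` satisfy a Boolean test -/
def allB (f : Nat → Bool) : Nat → Bool
  | 0 => true
  | n+1 => f n && allB f n

theorem allB_sound {f : Nat → Bool} {n : Nat} (h : allB f n = true) {a : Nat} (ha : a < n) : f a = true := by
  induction n with
  | zero => omega
  | succ n ih =>
    simp only [allB, Bool.and_eq_true] at h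
    by_cases hn : a = n
    · subst hn; exact h.1
    · exact ih h.2 (by omega)

/-- everything seen at the far end of a port -/
def farCol (a : Nat) : Pat → Bool
  | .node p q r => isCol a p || (isCol a q || isCol a r)
  | _ => false

def farFree (a : Nat) : Pat → Bool
  | .node p q r => freeOf a p && (freeOf a q && freeOf a r)
  | .slot d => match d with
    | 0 => false
    | _+1 => true
  | _ => false

def isNode : Pat → Bool
  | .node _ _ _ => true
  | _ => false

/-- port 0 is a dead edge -/
def deadR (K : Nat) : Root → Bool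
  | .mk p a b c => isNode p && allB (fun z => farCol z p || (isCol z a || (isCol z b || isCol z c))) K

/-- port 0 is threatened by colour `z`, playable at port 1 -/
def killR (K : Nat) (t : Nat) : Root → Bool
  | .mk p f b c => isNode p && (isOpen f && (farFree t f && (Nat.blt t K &&
      allB (fun z => Nat.beq z t || (farCol z p || (isCol z b || isCol z c))) K)))

theorem farCol_sound {σ : Equiv.Perm (Fin K)} {γ : Stt K} {a : ℕ} (ha : a < K) {P : Pat}
    (h : farCol a P = true) {x : Wd} (hx : Rd x) {l : Fin 4} (hm : M D σ γ P x l) :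
    ∃ f, VE D f ∧ Adj (eid x l) f ∧ γ f = some (σ ⟨a, ha⟩) := by
  cases P with
  | junk => simp [farCol] at h
  | slot d => simp [farCol] at h
  | col b => simp [farCol] at h
  | node p q r =>
    obtain ⟨h1, h2, i, j, k, hd, hp, hq, hr⟩ := hm
    simp only [farCol, Bool.or_eq_true] at h
    rcases h with h | h | h
    · obtain ⟨h3, h4⟩ := isCol_sound ha h hp
      exact ⟨_, h3, adj_far hx hd.2.2.1.symm, h4⟩
    · obtain ⟨h3, h4⟩ := isCol_sound ha h hq
      exact ⟨_, h3, adj_far hx hd.2.2.2.2.1.symm, h4⟩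
    · obtain ⟨h3, h4⟩ := isCol_sound ha h hr
      exact ⟨_, h3, adj_far hx hd.2.2.2.2.2.symm, h4⟩

theorem farFree_sound {σ : Equiv.Perm (Fin K)} {γ : Stt K} {a : ℕ} (ha : a < K) {P : Pat}
    (h : farFree a P = true) {x : Wd} (hx : Rd x) {l : Fin 4} (hm : M D σ γ P x l) {m : Fin 4} (hml : m ≠ l) :
    γ (eid (nb x l) m) ≠ some (σ ⟨a, ha⟩) := by
  cases P with
  | junk => simp [farFree] at h
  | col b => simp [farFree] at h
  | slot d =>
    cases d with
    | zero => simp [farFree] at h
    | succ d =>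
      rw [(slotM_VE (hm.2.2 m hml)).2]; simp
  | node p q r =>
    obtain ⟨h1, h2, i, j, k, hd, hp, hq, hr⟩ := hm
    simp only [farFree, Bool.and_eq_true] at h
    rcases hd.cover' hml with rfl | rfl | rfl
    · exact freeOf_sound ha h.1 hp
    · exact freeOf_sound ha h.2.1 hq
    · exact freeOf_sound ha h.2.2 hr

theorem isNode_open {P : Pat} (h : isNode P = true) : isOpen P = true := by
  cases P <;> simp_all [isNode, isOpen]

theorem dead_sound {T : Bool → Stt K → Prop} (hT : Good D T) {R : Root} (h : deadR K R = true) {b : Bool}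
    {σ : Equiv.Perm (Fin K)} {γ : Stt K} {x : Wd} (hx : Rd x) (ht : T b γ) (hm : RM D σ γ R x) : False := by
  obtain ⟨p, a, b', c⟩ := R
  simp only [deadR, Bool.and_eq_true] at h
  obtain ⟨l, hp, i, j, k, hd, h1, h2, h3⟩ := hm.head
  have ho := isOpen_sound (isNode_open h.1) hp
  refine dead_false hT ht ho.1 ho.2 ?_
  intro z
  have hz := allB_sound h.2 (σ.symm z).2
  have hσ : σ ⟨(σ.symm z).1, (σ.symm z).2⟩ = z := by simp
  simp only [Bool.or_eq_true] at hz
  rcases hz with hz | hz | hz | hz
  · obtain ⟨f, hf1, hf2, hf3⟩ := farCol_sound (σ.symm z).2 hz hx hp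
    exact ⟨f, hf1, hf2, by rw [hf3, hσ]⟩
  · obtain ⟨h4, h5⟩ := isCol_sound (σ.symm z).2 hz h1
    exact ⟨_, h4, adj_same hx hd.2.2.1.symm, by rw [h5, hσ]⟩
  · obtain ⟨h4, h5⟩ := isCol_sound (σ.symm z).2 hz h2
    exact ⟨_, h4, adj_same hx hd.2.2.2.2.1.symm, by rw [h5, hσ]⟩
  · obtain ⟨h4, h5⟩ := isCol_sound (σ.symm z).2 hz h3
    exact ⟨_, h4, adj_same hx hd.2.2.2.2.2.symm, by rw [h5, hσ]⟩

theorem kill_sound {T : Bool → Stt K → Prop} (hT : Good D T) {R : Root} {t : Nat} (h : killR K t R = true) :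
    WF D T R := by
  intro σ γ x hx ht hm
  obtain ⟨p, f, b, c⟩ := R
  simp only [killR, Bool.and_eq_true] at h
  obtain ⟨hn, hfo, hff, htK, hall⟩ := h
  have htK : t < K := Nat.le_of_ble_eq_true htK
  obtain ⟨l, hp, i, j, k, hd, hf, hb, hc⟩ := hm.head
  have ho := isOpen_sound (isNode_open hn) hp
  have hof := isOpen_sound hfo hf
  by_cases hleg : Legal D γ (eid x i) (σ ⟨t, htK⟩)
  · have ht' := hT.bob γ ht _ _ hleg
    have hne : eid x l ≠ eid x i := fun e => hd.2.2.1 (eid_inj hx e).symm
    refine dead_false hT ht' ho.1 (by rw [upd_ne hne]; exact ho.2) ?_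
    intro z
    have hσ : σ ⟨(σ.symm z).1, (σ.symm z).2⟩ = z := by simp
    have hz := allB_sound hall (σ.symm z).2
    simp only [Bool.or_eq_true] at hz
    have key : ∀ g, γ g = some z → VE D g → Adj (eid x l) g →
        ∃ f, VE D f ∧ Adj (eid x l) f ∧ Function.update γ (eid x i) (some (σ ⟨t, htK⟩)) f = some z := by
      intro g hg hg1 hg2
      refine ⟨g, hg1, hg2, ?_⟩
      rw [upd_ne, hg]
      rintro rfl
      rw [hof.2] at hg; simp at hg
    rcases hz with hz | hz | hz | hz
    · have hz' : (σ.symm z).1 = t := Nat.eq_of_beq_eq_true hz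
      refine ⟨eid x i, hof.1, adj_same hx hd.2.2.1.symm, ?_⟩
      rw [Function.update_self, ← hσ]
      congr 3
      exact hz'.symm
    · obtain ⟨g, hg1, hg2, hg3⟩ := farCol_sound (σ.symm z).2 hz hx hp
      exact key g (by rw [hg3, hσ]) hg1 hg2
    · obtain ⟨h4, h5⟩ := isCol_sound (σ.symm z).2 hz hb
      exact key _ (by rw [h5, hσ]) h4 (adj_same hx hd.2.2.2.2.1.symm)
    · obtain ⟨h4, h5⟩ := isCol_sound (σ.symm z).2 hz hc
      exact key _ (by rw [h5, hσ]) h4 (adj_same hx hd.2.2.2.2.2.symm)
  · -- some neighbour already has the colour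
    have : ∃ g, VE D g ∧ Adj (eid x i) g ∧ γ g = some (σ ⟨t, htK⟩) := by
      by_contra hc'
      exact hleg ⟨hof.1, hof.2, fun g hg1 hg2 hg3 => hc' ⟨g, hg1, hg2, hg3⟩⟩
    obtain ⟨g, hg1, hg2, hg3⟩ := this
    obtain ⟨m, hm1, hm2⟩ := adj_cases hx hg2
    rcases hm2 with rfl | rfl
    · -- at x
      have hml : m ≠ l := by
        rintro rfl
        rw [ho.2] at hg3; simp at hg3
      refine dead_false hT ht ho.1 ho.2 ?_
      intro z
      have hσ : σ ⟨(σ.symm z).1, (σ.symm z).2⟩ = z := by simp
      have hz := allB_sound hall (σ.symm z).2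
      simp only [Bool.or_eq_true] at hz
      rcases hz with hz | hz | hz | hz
      · have hz' : (σ.symm z).1 = t := Nat.eq_of_beq_eq_true hz
        refine ⟨eid x m, hg1, adj_same hx hml.symm, ?_⟩
        rw [hg3, ← hσ]
        congr 3
        exact hz'.symm
      · obtain ⟨g, hg1, hg2, hg3⟩ := farCol_sound (σ.symm z).2 hz hx hp
        exact ⟨g, hg1, hg2, by rw [hg3, hσ]⟩
      · obtain ⟨h4, h5⟩ := isCol_sound (σ.symm z).2 hz hb
        exact ⟨_, h4, adj_same hx hd.2.2.2.2.1.symm, by rw [h5, hσ]⟩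
      · obtain ⟨h4, h5⟩ := isCol_sound (σ.symm z).2 hz hc
        exact ⟨_, h4, adj_same hx hd.2.2.2.2.2.symm, by rw [h5, hσ]⟩
    · exact farFree_sound htK hff hx hf hm1 hg3

/-! ### covers -/

def getR : List Root → Nat → Option Root
  | [], _ => none
  | R :: t, n => match n with
    | 0 => some R
    | n+1 => getR t n

theorem getR_mem {db : List Root} {n : Nat} {R : Root} (h : getR db n = some R) : R ∈ db := by
  induction db generalizing n with
  | nil => simp [getR] at h
  | cons a t ih =>
    cases n with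
    | zero => simp [getR] at h; simp [h]
    | succ n => simp only [getR] at h; exact List.mem_cons_of_mem _ (ih h)

def swap01 : Root → Root
  | .mk a b c d => .mk b a c d
def swapj (j : Nat) : Root → Root
  | .mk a b c d => match j with
    | 0 => .mk a b c d
    | 1 => .mk a c b d
    | _ => .mk a d b c

/-- fact cover: code = idx + 256 * (s + 2^15 * path) -/
def covF (K : Nat) (db : List Root) (R : Root) (code : Nat) : Bool :=
  match getR db (Nat.land code 255) with
  | none => false
  | some F =>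
    let s := Nat.land (Nat.shiftRight code 8) 32767
    okCode K s && leRoot s F (reroot 12 (Nat.shiftRight code 23) R)

/-- cover by a fact (kind 0), a kill (kind 1) or a dead edge (kind 2): code = kind + 4 * rest -/
def covW (K : Nat) (db : List Root) (R : Root) (code : Nat) : Bool :=
  match Nat.land code 3 with
  | 0 => covF K db R (Nat.shiftRight code 2)
  | 1 => killR K (Nat.land (Nat.shiftRight code 2) 7)
      (swapj (Nat.land (Nat.shiftRight code 5) 3)
        (rot (Nat.land (Nat.shiftRight code 7) 3) (reroot 12 (Nat.shiftRight code 23) R)))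
  | _ => deadR K (rot (Nat.land (Nat.shiftRight code 7) 3) (reroot 12 (Nat.shiftRight code 23) R))

theorem swapj_sound {σ : Equiv.Perm (Fin K)} {γ : Stt K} {R : Root} {x : Wd} (j : Nat)
    (h : RM D σ γ R x) : RM D σ γ (swapj j R) x := by
  obtain ⟨a, b, c, d⟩ := R
  rcases j with _ | _ | j
  · exact h
  · exact h.s23
  · exact h.s34.s23

theorem leRoot_imp {s : Nat} {F Q : Root} (hs : okCode K s = true) (h : leRoot s F Q = true) : Imp D K F Q := by
  intro σ γ x hx hm
  obtain ⟨σ', hσ'⟩ := okCode_sound hs σ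
  exact ⟨σ', x, hx, leRoot_sound hσ' h hm⟩

theorem covF_imp {db : List Root} {R : Root} {code : Nat} (h : covF K db R code = true) :
    ∃ F ∈ db, Imp D K F R := by
  unfold covF at h
  split at h
  · simp at h
  · rename_i F hF
    simp only [Bool.and_eq_true] at h
    exact ⟨F, getR_mem hF, (leRoot_imp h.1 h.2).trans (reroot_imp _ _ _)⟩

theorem covW_sound {T : Bool → Stt K → Prop} (hT : Good D T) {db : List Root} (hdb : ∀ F ∈ db, WF D T F)
    {R : Root} {code : Nat} (h : covW K db R code = true) : WF D T R := by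
  unfold covW at h
  split at h
  · obtain ⟨F, hF, hi⟩ := covF_imp (D := D) h
    exact (hdb F hF).imp hi
  · refine (kill_sound hT h).imp ?_
    refine Imp.trans ?_ (reroot_imp 12 (Nat.shiftRight code 23) R)
    intro σ γ x hx hm
    exact ⟨σ, x, hx, swapj_sound _ (rot_sound _ hm)⟩
  · intro σ γ x hx ht hm
    obtain ⟨σ', y, hy, hm'⟩ := reroot_imp (D := D) 12 (Nat.shiftRight code 23) R σ γ x hx hm
    exact dead_sound hT h hy ht (rot_sound _ hm')

/-! ### Alice's moves -/

inductive Cert : Type
  | nil : Cert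
  | dup : Cert
  | opn : Nat → Cert
  | dwn : Nat → Nat → Cert
  | nod : Nat → Cert → Cert → Cert → Cert

/-- test all colours `n-1, …, 0`, codes packed in base `2^64` -/
def allC (f : Nat → Nat → Bool) : Nat → Nat → Bool
  | 0, _ => true
  | n+1, c => f n (Nat.land c 18446744073709551615) && allC f n (Nat.shiftRight c 64)

theorem allC_sound {f : Nat → Nat → Bool} {n c : Nat} (h : allC f n c = true) {a : Nat} (ha : a < n) :
    ∃ d, f a d = true := by
  induction n generalizing c with
  | zero => omega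
  | succ n ih =>
    simp only [allC, Bool.and_eq_true] at h
    by_cases hn : a = n
    · subst hn; exact ⟨_, h.1⟩
    · exact ih h.2 (by omega)

/-- Alice colours the port edge; only the near side is used -/
def near (K : Nat) (db : List Root) (A B C : Pat) (a code : Nat) : Bool :=
  match code with
  | 0 => isCol a A || (isCol a B || isCol a C)
  | n+1 => covW K db (.mk (.col a) A B C) (Nat.shiftRight (Nat.succ n) 1)

/-- both sides may be used -/
def both (K : Nat) (db : List Root) (A B C p q r : Pat) (a code : Nat) : Bool :=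
  match code with
  | 0 => isCol a A || (isCol a B || (isCol a C || (isCol a p || (isCol a q || isCol a r))))
  | n+1 => match Nat.land (Nat.succ n) 1 with
    | 0 => covW K db (.mk (.col a) A B C) (Nat.shiftRight (Nat.succ n) 1)
    | _ => covW K db (.mk (.col a) p q r) (Nat.shiftRight (Nat.succ n) 1)

def peq : Pat → Pat → Bool
  | .junk, P => match P with
    | .junk => true
    | _ => false
  | .slot a, P => match P with
    | .slot b => Nat.beq a b
    | _ => false
  | .col a, P => match P with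
    | .col b => Nat.beq a b
    | _ => false
  | .node a b c, P => match P with
    | .node x y z => peq a x && (peq b y && peq c z)
    | _ => false

theorem peq_eq {P Q : Pat} (h : peq P Q = true) : P = Q := by
  induction P generalizing Q with
  | junk => cases Q <;> simp_all [peq]
  | slot a => cases Q <;> simp_all [peq]
  | col a => cases Q <;> simp_all [peq]
  | node a b c iha ihb ihc =>
    cases Q with
    | node x y z =>
      simp only [peq, Bool.and_eq_true] at h
      rw [iha h.1, ihb h.2.1, ihc h.2.2]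
    | _ => simp [peq] at h

def isDup : Cert → Bool
  | .dup => true
  | _ => false

/-- all moves of Alice behind the port with pattern `P` are answered; `A B C` are the other ports -/
def chk (K : Nat) (db : List Root) : Cert → Pat → Pat → Pat → Pat → Bool
  | .nil, _, _, _, P => match P with
    | .junk => true
    | .col _ => true
    | _ => false
  | .dup, _, _, _, _ => false
  | .opn c, A, B, C, P => match P with
    | .slot d => match d with
      | 0 => allC (near K db A B C) K c
      | _ => false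
    | _ => false
  | .dwn c n, A, B, C, P => match P with
    | .slot _ => covW K db (.mk (.slot 0) A B C) n && allC (near K db A B C) K c
    | _ => false
  | .nod c c1 c2 c3, A, B, C, P => match P with
    | .slot d => match d with
      | 0 => false
      | d+1 => allC (near K db A B C) K c && chk K db c1 (.node A B C) (.slot d) (.slot d) (.slot d)
    | .node p q r => allC (both K db A B C p q r) K c && (chk K db c1 (.node A B C) q r p &&
        (((isDup c2 && peq q p) || chk K db c2 (.node A B C) p r q) &&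
         ((isDup c3 && (peq r p || peq r q)) || chk K db c3 (.node A B C) p q r)))
    | _ => false

/-- every move of Alice behind the port refutes her -/
def Safe (D : ℕ) (T : Bool → Stt K → Prop) (A B C P : Pat) : Prop :=
  ∀ (σ : Equiv.Perm (Fin K)) (γ : Stt K) (x : Wd) (l : Fin 4), Rd x →
    (∃ i j k, D4 i j k l ∧ M D σ γ A x i ∧ M D σ γ B x j ∧ M D σ γ C x k) → M D σ γ P x l →
    ∀ (e : Wd) (b : Fin K), Legal D γ e b → BE x l e → T false (Function.update γ e (some b)) → False

theorem near_sound {T : Bool → Stt K → Prop} (hT : Good D T) {db : List Root} (hdb : ∀ F ∈ db, WF D T F)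
    {A B C : Pat} {c : Nat} (h : allC (near K db A B C) K c = true)
    {σ : Equiv.Perm (Fin K)} {γ : Stt K} {x : Wd} {l : Fin 4} (hx : Rd x)
    (hr : ∃ i j k, D4 i j k l ∧ M D σ γ A x i ∧ M D σ γ B x j ∧ M D σ γ C x k)
    {b : Fin K} (hleg : Legal D γ (eid x l) b)
    (ht : T false (Function.update γ (eid x l) (some b))) : False := by
  have hσ : σ ⟨(σ.symm b).1, (σ.symm b).2⟩ = b := by simp
  obtain ⟨d, hd⟩ := allC_sound h (σ.symm b).2
  cases d with
  | zero =>
    simp only [near, Bool.or_eq_true] at hd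
    obtain ⟨i, j, k, hd4, hA, hB, hC⟩ := hr
    rcases hd with hd | hd | hd
    · obtain ⟨h1, h2⟩ := isCol_sound (σ.symm b).2 hd hA
      exact hleg.2.2 _ h1 (adj_same hx hd4.2.2.1.symm) (by rw [h2, hσ])
    · obtain ⟨h1, h2⟩ := isCol_sound (σ.symm b).2 hd hB
      exact hleg.2.2 _ h1 (adj_same hx hd4.2.2.2.2.1.symm) (by rw [h2, hσ])
    · obtain ⟨h1, h2⟩ := isCol_sound (σ.symm b).2 hd hC
      exact hleg.2.2 _ h1 (adj_same hx hd4.2.2.2.2.2.symm) (by rw [h2, hσ])
  | succ n =>
    simp only [near] at hd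
    have hw := covW_sound hT hdb hd
    refine hw σ _ x hx ht ?_
    have h1 := col_upd (σ := σ) (γ := γ) (σ.symm b).2 hleg.1
    have h2 := near_upd (a := (σ.symm b).1) hx (σ.symm b).2 hleg.1 hr
    rw [hσ] at h1 h2
    exact RM.of_head h1 h2

theorem both_sound {T : Bool → Stt K → Prop} (hT : Good D T) {db : List Root} (hdb : ∀ F ∈ db, WF D T F)
    {A B C p q r : Pat} {c : Nat} (h : allC (both K db A B C p q r) K c = true)
    {σ : Equiv.Perm (Fin K)} {γ : Stt K} {x : Wd} {l : Fin 4} (hx : Rd x)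
    (hr : ∃ i j k, D4 i j k l ∧ M D σ γ A x i ∧ M D σ γ B x j ∧ M D σ γ C x k)
    (hr' : ∃ i j k, D4 i j k l ∧ M D σ γ p (nb x l) i ∧ M D σ γ q (nb x l) j ∧ M D σ γ r (nb x l) k)
    {b : Fin K} (hleg : Legal D γ (eid x l) b)
    (ht : T false (Function.update γ (eid x l) (some b))) : False := by
  have hσ : σ ⟨(σ.symm b).1, (σ.symm b).2⟩ = b := by simp
  obtain ⟨d, hd⟩ := allC_sound h (σ.symm b).2
  cases d with
  | zero =>
    simp only [both, Bool.or_eq_true] at hd
    obtain ⟨i, j, k, hd4, hA, hB, hC⟩ := hr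
    obtain ⟨i', j', k', hd4', hp, hq, hr⟩ := hr'
    rcases hd with hd | hd | hd | hd | hd | hd
    · obtain ⟨h1, h2⟩ := isCol_sound (σ.symm b).2 hd hA
      exact hleg.2.2 _ h1 (adj_same hx hd4.2.2.1.symm) (by rw [h2, hσ])
    · obtain ⟨h1, h2⟩ := isCol_sound (σ.symm b).2 hd hB
      exact hleg.2.2 _ h1 (adj_same hx hd4.2.2.2.2.1.symm) (by rw [h2, hσ])
    · obtain ⟨h1, h2⟩ := isCol_sound (σ.symm b).2 hd hC
      exact hleg.2.2 _ h1 (adj_same hx hd4.2.2.2.2.2.symm) (by rw [h2, hσ])
    · obtain ⟨h1, h2⟩ := isCol_sound (σ.symm b).2 hd hp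
      exact hleg.2.2 _ h1 (adj_far hx hd4'.2.2.1.symm) (by rw [h2, hσ])
    · obtain ⟨h1, h2⟩ := isCol_sound (σ.symm b).2 hd hq
      exact hleg.2.2 _ h1 (adj_far hx hd4'.2.2.2.2.1.symm) (by rw [h2, hσ])
    · obtain ⟨h1, h2⟩ := isCol_sound (σ.symm b).2 hd hr
      exact hleg.2.2 _ h1 (adj_far hx hd4'.2.2.2.2.2.symm) (by rw [h2, hσ])
  | succ n =>
    simp only [both] at hd
    split at hd
    · have hw := covW_sound hT hdb hd
      refine hw σ _ x hx ht ?_
      have h1 := col_upd (σ := σ) (γ := γ) (σ.symm b).2 hleg.1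
      have h2 := near_upd (a := (σ.symm b).1) hx (σ.symm b).2 hleg.1 hr
      rw [hσ] at h1 h2
      exact RM.of_head h1 h2
    · have hw := covW_sound hT hdb hd
      refine hw σ _ (nb x l) (hx.nb l) ht ?_
      have he : eid (nb x l) l = eid x l := eid_nb hx l
      have h1 := col_upd (σ := σ) (γ := γ) (x := nb x l) (l := l) (σ.symm b).2 (by rw [he]; exact hleg.1)
      have h2 := near_upd (a := (σ.symm b).1) (l := l) (hx.nb l) (σ.symm b).2 (by rw [he]; exact hleg.1) hr'
      rw [hσ, he] at h1 h2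
      exact RM.of_head h1 h2

theorem fold_imp (A B C p q r : Pat) : Imp D K (.mk A B C (.node p q r)) (.mk (.node A B C) p q r) := by
  intro σ γ y hy h
  obtain ⟨l, ⟨h1, h2, i, j, k, hd, hA, hB, hC⟩, hr⟩ := h.head
  refine ⟨σ, nb y l, hy.nb l, i, j, k, l, hd, hA, hB, hC, ?_⟩
  refine ⟨by rw [eid_nb hy]; exact h1, by rw [eid_nb hy]; exact h2, ?_⟩
  rw [nb_nb hy]
  exact hr

theorem imp_of {F Q : Root} (h : ∀ (σ : Equiv.Perm (Fin K)) (γ : Stt K) (x : Wd), RM D σ γ Q x → RM D σ γ F x) :
    Imp D K F Q := fun σ γ x hx hm => ⟨σ, x, hx, h σ γ x hm⟩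

theorem Safe.swap {T : Bool → Stt K → Prop} {A B C P : Pat} (h : Safe D T A B C P) : Safe D T A C B P := by
  intro σ γ x l hx ⟨i, j, k, hd, h1, h2, h3⟩ hP
  exact h σ γ x l hx ⟨i, k, j, hd.s23, h1, h3, h2⟩ hP

theorem nod_safe {T : Bool → Stt K → Prop} {A B C p q r : Pat}
    (h1 : Safe D T (.node A B C) q r p) (h2 : Safe D T (.node A B C) p r q)
    (h3 : Safe D T (.node A B C) p q r)
    (h0 : ∀ (σ : Equiv.Perm (Fin K)) (γ : Stt K) (x : Wd) (l : Fin 4), Rd x →
      (∃ i j k, D4 i j k l ∧ M D σ γ A x i ∧ M D σ γ B x j ∧ M D σ γ C x k) →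
      (∃ i j k, D4 i j k l ∧ M D σ γ p (nb x l) i ∧ M D σ γ q (nb x l) j ∧ M D σ γ r (nb x l) k) →
      ∀ b, Legal D γ (eid x l) b → T false (Function.update γ (eid x l) (some b)) → False) :
    Safe D T A B C (.node p q r) := by
  intro σ γ x l hx hr hP e b hleg hbe ht
  obtain ⟨hv, hn, i, j, k, hd, hp, hq, hrr⟩ := hP
  by_cases he : e = eid x l
  · subst he
    exact h0 σ γ x l hx hr ⟨i, j, k, hd, hp, hq, hrr⟩ b hleg ht
  · obtain ⟨m, hml, hm⟩ := BE_step hx hleg.1.1 hleg.1.2.1 hbe he
    have hU : M D σ γ (.node A B C) (nb x l) l := by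
      refine ⟨by rw [eid_nb hx]; exact hv, by rw [eid_nb hx]; exact hn, ?_⟩
      rw [nb_nb hx]; exact hr
    have hd' := hd
    obtain ⟨a1, a2, a3, a4, a5, a6⟩ := hd'
    rcases hd.cover' hml with rfl | rfl | rfl
    · exact h1 σ γ (nb x l) m (hx.nb l) ⟨l, j, k, ⟨a5.symm, a6.symm, a3.symm, a4, a1.symm, a2.symm⟩, hU, hq, hrr⟩
        hp e b hleg hm ht
    · exact h2 σ γ (nb x l) m (hx.nb l) ⟨l, i, k, ⟨a3.symm, a6.symm, a5.symm, a2, a1, a4.symm⟩, hU, hp, hrr⟩
        hq e b hleg hm ht
    · exact h3 σ γ (nb x l) m (hx.nb l) ⟨l, i, j, ⟨a3.symm, a5.symm, a6.symm, a1, a2, a4⟩, hU, hp, hq⟩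
        hrr e b hleg hm ht

theorem slot_node_safe {T : Bool → Stt K → Prop} {A B C : Pat} {d : Nat}
    (h : Safe D T A B C (.node (.slot d) (.slot d) (.slot d))) : Safe D T A B C (.slot (d+1)) :=
  fun σ γ x l hx hr hP e b => h σ γ x l hx hr (M_slot_succ.1 hP) e b

theorem wf_slot_node {T : Bool → Stt K → Prop} {A B C : Pat} {d : Nat}
    (h : WF D T (.mk A B C (.slot (d+1)))) : WF D T (.mk A B C (.node (.slot d) (.slot d) (.slot d))) := by
  refine h.imp (imp_of ?_)
  rintro σ γ x ⟨i, j, k, l, hd, hA, hB, hC, hP⟩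
  exact ⟨i, j, k, l, hd, hA, hB, hC, M_slot_succ.2 hP⟩

theorem wf_fold1 {T : Bool → Stt K → Prop} {A B C p q r : Pat}
    (h : WF D T (.mk A B C (.node p q r))) : WF D T (.mk (.node A B C) q r p) :=
  (h.imp (fold_imp A B C p q r)).imp (imp_of fun _ _ _ hm => hm.s34.s23)

theorem wf_fold2 {T : Bool → Stt K → Prop} {A B C p q r : Pat}
    (h : WF D T (.mk A B C (.node p q r))) : WF D T (.mk (.node A B C) p r q) :=
  (h.imp (fold_imp A B C p q r)).imp (imp_of fun _ _ _ hm => hm.s34)

theorem wf_fold3 {T : Bool → Stt K → Prop} {A B C p q r : Pat}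
    (h : WF D T (.mk A B C (.node p q r))) : WF D T (.mk (.node A B C) p q r) :=
  h.imp (fold_imp A B C p q r)

theorem chk_sound {T : Bool → Stt K → Prop} (hT : Good D T) {db : List Root} (hdb : ∀ F ∈ db, WF D T F)
    (ct : Cert) : ∀ {A B C P : Pat}, chk K db ct A B C P = true → WF D T (.mk A B C P) → Safe D T A B C P := by
  induction ct with
  | nil =>
    intro A B C P h hw
    intro σ γ x l hx ⟨i, j, k, hd, hA, hB, hC⟩ hP e b hleg hbe ht
    cases P with
    | slot _ => simp [chk] at h
    | node _ _ _ => simp [chk] at h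
    | junk =>
      exact hw σ _ x hx ht ⟨i, j, k, l, hd, M_upd hx hd.2.2.1 hbe hA, M_upd hx hd.2.2.2.2.1 hbe hB,
        M_upd hx hd.2.2.2.2.2 hbe hC, trivial⟩
    | col a =>
      refine hw σ _ x hx ht ⟨i, j, k, l, hd, M_upd hx hd.2.2.1 hbe hA, M_upd hx hd.2.2.2.2.1 hbe hB,
        M_upd hx hd.2.2.2.2.2 hbe hC, ?_⟩
      obtain ⟨h1, h2, h3⟩ := hP
      refine ⟨h1, h2, ?_⟩
      rw [upd_ne, h3]
      rintro he
      rw [he, hleg.2.1] at h3
      simp at h3
  | dup => intro A B C P h; simp [chk] at h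
  | opn c =>
    intro A B C P h hw
    cases P with
    | junk => simp [chk] at h
    | col _ => simp [chk] at h
    | node _ _ _ => simp [chk] at h
    | slot d =>
      cases d with
      | succ d => simp [chk] at h
      | zero =>
        intro σ γ x l hx hr hP e b hleg hbe ht
        by_cases he : e = eid x l
        · subst he
          exact near_sound hT hdb h hx hr hleg ht
        · obtain ⟨i, j, k, hd, hA, hB, hC⟩ := hr
          refine hw σ _ x hx ht ⟨i, j, k, l, hd, M_upd hx hd.2.2.1 hbe hA, M_upd hx hd.2.2.2.2.1 hbe hB,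
            M_upd hx hd.2.2.2.2.2 hbe hC, hP.1, ?_⟩
          rw [upd_ne (fun h => he h.symm)]; exact hP.2
  | dwn c n =>
    intro A B C P h hw
    cases P with
    | junk => simp [chk] at h
    | col _ => simp [chk] at h
    | node _ _ _ => simp [chk] at h
    | slot d =>
      simp only [chk, Bool.and_eq_true] at h
      intro σ γ x l hx hr hP e b hleg hbe ht
      by_cases he : e = eid x l
      · subst he
        exact near_sound hT hdb h.2 hx hr hleg ht
      · obtain ⟨i, j, k, hd, hA, hB, hC⟩ := hr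
        have hP' := slotM_VE hP
        refine covW_sound hT hdb h.1 σ _ x hx ht (RM.of_head (l := l) ?_
          ⟨i, j, k, hd, M_upd hx hd.2.2.1 hbe hA, M_upd hx hd.2.2.2.2.1 hbe hB,
          M_upd hx hd.2.2.2.2.2 hbe hC⟩)
        refine ⟨hP'.1, ?_⟩
        rw [upd_ne (fun h => he h.symm)]; exact hP'.2
  | nod c c1 c2 c3 ih1 ih2 ih3 =>
    intro A B C P h hw
    cases P with
    | junk => simp [chk] at h
    | col _ => simp [chk] at h
    | slot d =>
      cases d with
      | zero => simp [chk] at h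
      | succ d =>
        simp only [chk, Bool.and_eq_true] at h
        apply slot_node_safe
        have hw' := wf_slot_node hw
        have h1 := ih1 h.2 (wf_fold1 hw')
        refine nod_safe h1 h1 h1 ?_
        intro σ γ x l hx hr _ b hleg ht
        exact near_sound hT hdb h.1 hx hr hleg ht
    | node p q r =>
      simp only [chk, Bool.and_eq_true, Bool.or_eq_true] at h
      obtain ⟨h0, h1, h2, h3⟩ := h
      have s1 := ih1 h1 (wf_fold1 hw)
      have s2 : Safe D T (.node A B C) p r q := by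
        rcases h2 with h2 | h2
        · have := peq_eq h2.2; subst this; exact s1
        · exact ih2 h2 (wf_fold2 hw)
      have s3 : Safe D T (.node A B C) p q r := by
        rcases h3 with h3 | h3
        · rcases h3.2 with h4 | h4
          · have := peq_eq h4; subst this
            intro σ γ x l hx ⟨i, j, k, hd, h1, h2, h3⟩ hP
            exact s1 σ γ x l hx ⟨i, k, j, hd.s23, h1, h3, h2⟩ hP
          · have := peq_eq h4; subst this; exact s2
        · exact ih3 h3 (wf_fold3 hw)
      refine nod_safe s1 s2 s3 ?_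
      intro σ γ x l hx hr hr' b hleg ht
      exact both_sound hT hdb h0 hx hr hr' hleg ht

/-- the check for facts with Alice to move: `n` covers the pattern itself -/
def lchk (K : Nat) (db : List Root) (n : Nat) (c1 c2 c3 c4 : Cert) : Root → Bool
  | .mk a b c d => covW K db (.mk a b c d) n && ((isOpen a || (isOpen b || (isOpen c || isOpen d))) &&
      (chk K db c1 b c d a &&
      (((isDup c2 && peq b a) || chk K db c2 a c d b) &&
      (((isDup c3 && (peq c a || peq c b)) || chk K db c3 a b d c) &&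
       ((isDup c4 && (peq d a || (peq d b || peq d c))) || chk K db c4 a b c d)))))

theorem Safe.perm {T : Bool → Stt K → Prop} {A B C P : Pat} (h : Safe D T A B C P) :
    Safe D T B A C P := by
  intro σ γ x l hx ⟨i, j, k, hd, h1, h2, h3⟩ hP
  exact h σ γ x l hx ⟨j, i, k, hd.s12, h2, h1, h3⟩ hP

theorem lf_of_chk {T : Bool → Stt K → Prop} (hT : Good D T) {db : List Root} (hdb : ∀ F ∈ db, WF D T F)
    {R : Root} {n : Nat} {c1 c2 c3 c4 : Cert} (h : lchk K db n c1 c2 c3 c4 R = true) : LF D T R := by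
  obtain ⟨a, b, c, d⟩ := R
  simp only [lchk, Bool.and_eq_true, Bool.or_eq_true] at h
  obtain ⟨h0, hop, h1, h2, h3, h4⟩ := h
  have hw : WF D T (.mk a b c d) := covW_sound hT hdb h0
  have wa : WF D T (.mk b c d a) := hw.imp (imp_of fun _ _ _ hm => hm.s34.s23.s12)
  have wb : WF D T (.mk a c d b) := hw.imp (imp_of fun _ _ _ hm => hm.s34.s23)
  have wc : WF D T (.mk a b d c) := hw.imp (imp_of fun _ _ _ hm => hm.s34)
  have sa : Safe D T b c d a := chk_sound hT hdb c1 h1 wa
  have sb : Safe D T a c d b := by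
    rcases h2 with h2 | h2
    · have := peq_eq h2.2; subst this; exact sa
    · exact chk_sound hT hdb c2 h2 wb
  have sc : Safe D T a b d c := by
    rcases h3 with h3 | h3
    · rcases h3.2 with h5 | h5
      · have := peq_eq h5; subst this; exact sa.perm
      · have := peq_eq h5; subst this; exact sb
    · exact chk_sound hT hdb c3 h3 wc
  have sd : Safe D T a b c d := by
    rcases h4 with h4 | h4
    · rcases h4.2 with h5 | h5 | h5
      · have := peq_eq h5; subst this; exact sa.swap.perm
      · have := peq_eq h5; subst this; exact sb.swap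
      · have := peq_eq h5; subst this; exact sc
    · exact chk_sound hT hdb c4 h4 hw
  intro σ γ x hx ht hm
  obtain ⟨i, j, k, l, hd, ha, hb, hc, hdd⟩ := hm
  have hex : ∃ e, VE D e ∧ γ e = none := by
    rcases hop with h | h | h | h
    · exact ⟨_, isOpen_sound h ha⟩
    · exact ⟨_, isOpen_sound h hb⟩
    · exact ⟨_, isOpen_sound h hc⟩
    · exact ⟨_, isOpen_sound h hdd⟩
  obtain ⟨e0, he0, hn0⟩ := hex
  obtain ⟨e, z, hleg, ht'⟩ := hT.alice γ ht (exists_legal hT ht he0 hn0)
  obtain ⟨m, hm⟩ := BE_exists x hleg.1.1 hleg.1.2.1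
  have hd' := hd
  obtain ⟨a1, a2, a3, a4, a5, a6⟩ := hd'
  rcases hd.cover m with rfl | rfl | rfl | rfl
  · exact sa σ γ x m hx ⟨j, k, l, ⟨a4, a5, a1.symm, a6, a2.symm, a3.symm⟩, hb, hc, hdd⟩ ha e z hleg hm ht'
  · exact sb σ γ x m hx ⟨i, k, l, ⟨a2, a3, a1, a6, a4.symm, a5.symm⟩, ha, hc, hdd⟩ hb e z hleg hm ht'
  · exact sc σ γ x m hx ⟨i, j, l, ⟨a1, a3, a2, a5, a4, a6.symm⟩, ha, hb, hdd⟩ hc e z hleg hm ht'
  · exact sd σ γ x m hx ⟨i, j, k, ⟨a1, a2, a3, a4, a5, a6⟩, ha, hb, hc⟩ hdd e z hleg hm ht'

/-! ### Bob's moves -/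

/-- Bob colours port 0 of the rerooted pattern with colour `t`; mode 0: the near side is an `L`-fact,
mode 1: the far side is an `L`-fact, mode 2: both sides are `W`-facts -/
def wmove (K : Nat) (dbW dbL : List Root) (t mode cA cB : Nat) (A B C p q r : Pat) : Bool :=
  Nat.blt t K && (freeOf t A && (freeOf t B && (freeOf t C && (freeOf t p && (freeOf t q && (freeOf t r &&
    (match mode with
      | 0 => covF K dbL (.mk (.col t) A B C) cA
      | 1 => covF K dbL (.mk (.col t) p q r) cA
      | _ => covW K dbW (.mk (.col t) A B C) cA && (covW K dbW (.mk (.col t) p q r) cB &&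
          (isOpen A || (isOpen B || isOpen C))))))))))

def wchk (K : Nat) (dbW dbL : List Root) (path i t mode cA cB : Nat) (R : Root) : Bool :=
  match rot i (reroot 12 path R) with
  | .mk P A B C => match P with
    | .node p q r => wmove K dbW dbL t mode cA cB A B C p q r
    | .slot d => match d with
      | 0 => false
      | d+1 => wmove K dbW dbL t mode cA cB A B C (.slot d) (.slot d) (.slot d)
    | _ => false

theorem wmove_sound {T : Bool → Stt K → Prop} (hT : Good D T) {dbW dbL : List Root}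
    (hW : ∀ F ∈ dbW, WF D T F) (hL : ∀ F ∈ dbL, LF D T F) {t mode cA cB : Nat} {A B C p q r : Pat}
    (h : wmove K dbW dbL t mode cA cB A B C p q r = true) : WF D T (.mk (.node p q r) A B C) := by
  intro σ γ x hx ht hm
  obtain ⟨l, ⟨hv, hn, hr'⟩, hr⟩ := hm.head
  simp only [wmove, Bool.and_eq_true] at h
  obtain ⟨htK, hA, hB, hC, hp, hq, hrr, hmode⟩ := h
  have htK : t < K := Nat.le_of_ble_eq_true htK
  have hleg : Legal D γ (eid x l) (σ ⟨t, htK⟩) := by
    refine ⟨hv, hn, ?_⟩
    intro f hf hadj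
    obtain ⟨m, hml, hm⟩ := adj_cases hx hadj
    obtain ⟨i, j, k, hd, h1, h2, h3⟩ := hr
    obtain ⟨i', j', k', hd', h1', h2', h3'⟩ := hr'
    rcases hm with rfl | rfl
    · rcases hd.cover' hml with rfl | rfl | rfl
      · exact freeOf_sound htK hA h1
      · exact freeOf_sound htK hB h2
      · exact freeOf_sound htK hC h3
    · rcases hd'.cover' hml with rfl | rfl | rfl
      · exact freeOf_sound htK hp h1'
      · exact freeOf_sound htK hq h2'
      · exact freeOf_sound htK hrr h3'
  have ht' := hT.bob γ ht _ _ hleg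
  have hcol := col_upd (σ := σ) (γ := γ) htK hv
  have he : eid (nb x l) l = eid x l := eid_nb hx l
  have hn1 := near_upd (σ := σ) hx htK hv hr
  have hRA := RM.of_head hcol hn1
  have hcol' : M D σ (Function.update γ (eid x l) (some (σ ⟨t, htK⟩))) (.col t) (nb x l) l := by
    refine ⟨by rw [he]; exact hv, htK, by rw [he]; simp⟩
  have hn2 := near_upd (σ := σ) (l := l) (hx.nb l) htK (by rw [he]; exact hv) hr'
  rw [he] at hn2
  have hRB := RM.of_head hcol' hn2
  split at hmode
  · obtain ⟨F, hF, hi⟩ := covF_imp (D := D) hmode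
    exact (hL F hF).imp hi σ _ x hx ht' hRA
  · obtain ⟨F, hF, hi⟩ := covF_imp (D := D) hmode
    exact (hL F hF).imp hi σ _ (nb x l) (hx.nb l) ht' hRB
  · simp only [Bool.and_eq_true, Bool.or_eq_true] at hmode
    obtain ⟨hwA, hwB, hop⟩ := hmode
    have hWA := covW_sound hT hW hwA
    have hWB := covW_sound hT hW hwB
    obtain ⟨i, j, k, hd, h1, h2, h3⟩ := hn1
    have hex : ∃ e, VE D e ∧ (Function.update γ (eid x l) (some (σ ⟨t, htK⟩))) e = none := by
      rcases hop with h | h | h
      · exact ⟨_, isOpen_sound h h1⟩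
      · exact ⟨_, isOpen_sound h h2⟩
      · exact ⟨_, isOpen_sound h h3⟩
    obtain ⟨e0, he0, hn0⟩ := hex
    obtain ⟨e, z, hleg', ht''⟩ := hT.alice _ ht' (exists_legal hT ht' he0 hn0)
    have hne : e ≠ eid x l := by
      rintro rfl
      have := hleg'.2.1
      simp at this
    obtain ⟨m, hm⟩ := BE_exists x hleg'.1.1 hleg'.1.2.1
    by_cases hml : m = l
    · subst hml
      refine hWA σ _ x hx ht'' (RM.of_head (l := m) ?_ ⟨i, j, k, hd, M_upd hx hd.2.2.1 hm h1,
        M_upd hx hd.2.2.2.2.1 hm h2, M_upd hx hd.2.2.2.2.2 hm h3⟩)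
      refine ⟨hv, htK, ?_⟩
      rw [upd_ne hne.symm]; simp
    · have hb := BE_other hx hml hm
      obtain ⟨i', j', k', hd', h1', h2', h3'⟩ := hn2
      refine hWB σ _ (nb x l) (hx.nb l) ht'' (RM.of_head (l := l) ?_ ⟨i', j', k', hd',
        M_upd (hx.nb l) hd'.2.2.1 hb.1 h1', M_upd (hx.nb l) hd'.2.2.2.2.1 hb.1 h2',
        M_upd (hx.nb l) hd'.2.2.2.2.2 hb.1 h3'⟩)
      refine ⟨by rw [he]; exact hv, htK, ?_⟩
      rw [he, upd_ne hne.symm]; simp

theorem wf_of_chk {T : Bool → Stt K → Prop} (hT : Good D T) {dbW dbL : List Root}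
    (hW : ∀ F ∈ dbW, WF D T F) (hL : ∀ F ∈ dbL, LF D T F) {path i t mode cA cB : Nat} {R : Root}
    (h : wchk K dbW dbL path i t mode cA cB R = true) : WF D T R := by
  have key : WF D T (rot i (reroot 12 path R)) := by
    unfold wchk at h
    generalize rot i (reroot 12 path R) = R' at h ⊢
    obtain ⟨P, A, B, C⟩ := R'
    simp only at h
    cases P with
    | junk => simp at h
    | col _ => simp at h
    | node p q r => exact wmove_sound hT hW hL h
    | slot d =>
      cases d with
      | zero => simp at h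
      | succ d =>
        have := wmove_sound hT hW hL h
        refine this.imp (imp_of ?_)
        intro σ γ x hm
        obtain ⟨l, hl, hr⟩ := hm.head
        exact RM.of_head (M_slot_succ.1 hl) hr
  refine key.imp (Imp.trans ?_ (reroot_imp 12 path R))
  intro σ γ x hx hm
  exact ⟨σ, x, hx, rot_sound _ hm⟩

end

end Pool.Agent.W319.GCI
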