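import Pool.Agent.W319.GCI.Tree

set_option autoImplicit false

namespace Pool.Agent.W319.GCI

section
variable {D k : ℕ}

/-- legality of colouring `e` with `a` -/
def LegC (D : ℕ) {k : ℕ} (c : Sym2 (VV D) → Option (Fin k)) (e : Sym2 (VV D)) (a : Fin k) : Prop :=
  ∀ f ∈ (GG D).edgeSet, f ≠ e → (∃ v, v ∈ e ∧ v ∈ f) → c f ≠ some a

/-- the closure conditions of the frozen statement -/
structure Clo (S : Set (Sym2 (VV D) → Option (Fin k))) : Prop where
  done : ∀ c ∈ S, (∀ e ∈ (GG D).edgeSet, ∀ a : Fin k, c e = none → ¬ LegC D c e a) →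
    ∀ e ∈ (GG D).edgeSet, c e ≠ none
  alice : ∀ c ∈ S, Even (Set.ncard {e | e ∈ (GG D).edgeSet ∧ c e ≠ none}) →
    (∃ e ∈ (GG D).edgeSet, ∃ a : Fin k, c e = none ∧ LegC D c e a) →
    ∃ e ∈ (GG D).edgeSet, ∃ a : Fin k, c e = none ∧ LegC D c e a ∧ Function.update c e (some a) ∈ S
  bob : ∀ c ∈ S, ¬ Even (Set.ncard {e | e ∈ (GG D).edgeSet ∧ c e ≠ none}) →
    ∀ e ∈ (GG D).edgeSet, ∀ a : Fin k, c e = none → LegC D c e a → Function.update c e (some a) ∈ S

/-- the positions of `S` in terms of words -/
def TT (S : Set (Sym2 (VV D) → Option (Fin k))) (b : Bool) (γ : Stt k) : Prop :=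
  ∃ c ∈ S, (b = true ↔ Even (Set.ncard {e | e ∈ (GG D).edgeSet ∧ c e ≠ none})) ∧
    ∀ w, VE D w → γ w = c (E D w)

theorem legal_iff {c : Sym2 (VV D) → Option (Fin k)} {γ : Stt k} (h : ∀ w, VE D w → γ w = c (E D w))
    {w : Wd} (hw : VE D w) (a : Fin k) : Legal D γ w a ↔ (c (E D w) = none ∧ LegC D c (E D w) a) := by
  constructor
  · rintro ⟨_, h1, h2⟩
    refine ⟨by rw [← h w hw]; exact h1, ?_⟩
    intro f hf hne hv
    obtain ⟨w', hw', rfl⟩ := E_surj hf
    rw [← h w' hw']
    exact h2 w' hw' ((adj_iff hw hw').2 ⟨hne, hv⟩)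
  · rintro ⟨h1, h2⟩
    refine ⟨hw, by rw [h w hw]; exact h1, ?_⟩
    intro w' hw' hadj
    obtain ⟨hne, hv⟩ := (adj_iff hw hw').1 hadj
    rw [h w' hw']
    exact h2 _ (E_mem hw') hne hv

open Classical in
theorem upd_corr {c : Sym2 (VV D) → Option (Fin k)} {γ : Stt k} (h : ∀ w, VE D w → γ w = c (E D w))
    {w : Wd} (hw : VE D w) (a : Option (Fin k)) :
    ∀ w', VE D w' → Function.update γ w a w' = Function.update c (E D w) a (E D w') := by
  intro w' hw'
  by_cases he : w' = w
  · subst he; simp
  · have : E D w' ≠ E D w := fun e => he (E_inj hw' hw e)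
    rw [Function.update_of_ne he, Function.update_of_ne this, h w' hw']

theorem card_upd [DecidableEq (Sym2 (VV D))] {c : Sym2 (VV D) → Option (Fin k)} {e : Sym2 (VV D)}
    (he : e ∈ (GG D).edgeSet)
    (hn : c e = none) (a : Fin k) :
    Set.ncard {f | f ∈ (GG D).edgeSet ∧ Function.update c e (some a) f ≠ none} =
      Set.ncard {f | f ∈ (GG D).edgeSet ∧ c f ≠ none} + 1 := by
  have : {f | f ∈ (GG D).edgeSet ∧ Function.update c e (some a) f ≠ none} =
      insert e {f | f ∈ (GG D).edgeSet ∧ c f ≠ none} := by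
    ext f
    simp only [Set.mem_ofPred_eq, Set.mem_insert_iff]
    by_cases hf : f = e
    · subst hf; simp [he]
    · rw [Function.update_of_ne hf]; simp [hf]
  rw [this, Set.ncard_insert_of_notMem]
  simp [hn]

theorem good_TT {S : Set (Sym2 (VV D) → Option (Fin k))} (hS : Clo S) : Good D (TT S) where
  done := by
    rintro b γ ⟨c, hc, hb, h⟩ hno e he
    rw [h e he]
    refine hS.done c hc ?_ _ (E_mem he)
    intro f hf a hn hl
    obtain ⟨w, hw, rfl⟩ := E_surj hf
    exact hno w a ((legal_iff h hw a).2 ⟨hn, hl⟩)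
  alice := by
    rintro γ ⟨c, hc, hb, h⟩ ⟨e, a, hl⟩
    have hev := hb.1 rfl
    obtain ⟨f, hf, a', hn, hl', hu⟩ := hS.alice c hc hev
      ⟨E D e, E_mem hl.1, a, ((legal_iff h hl.1 a).1 hl).1, ((legal_iff h hl.1 a).1 hl).2⟩
    obtain ⟨w, hw, rfl⟩ := E_surj hf
    refine ⟨w, a', (legal_iff h hw a').2 ⟨hn, hl'⟩, Function.update c (E D w) (some a'), hu, ?_, ?_⟩
    · have hcard := card_upd (E_mem hw) hn a'
      rw [hcard]
      constructor
      · intro h'; simp at h'
      · intro h'
        exfalso
        rw [Nat.even_add_one] at h'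
        exact h' hev
    · intro w' hw'
      convert upd_corr h hw (some a') w' hw'
  bob := by
    rintro γ ⟨c, hc, hb, h⟩ e a hl
    have hodd : ¬ Even (Set.ncard {e | e ∈ (GG D).edgeSet ∧ c e ≠ none}) := by
      intro h'; simpa using hb.2 h'
    have hl' := (legal_iff h hl.1 a).1 hl
    refine ⟨Function.update c (E D e) (some a), hS.bob c hc hodd _ (E_mem hl.1) a hl'.1 hl'.2, ?_, ?_⟩
    · have hcard := card_upd (E_mem hl.1) hl'.1 a
      rw [hcard, Nat.even_add_one]
      simp [hodd]
    · intro w' hw'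
      convert upd_corr h hl.1 (some a) w' hw'

theorem TT_init {S : Set (Sym2 (VV D) → Option (Fin k))} (h0 : (fun _ => none) ∈ S) :
    TT S true (fun _ => none) :=
  ⟨fun _ => none, h0, by simp, fun _ _ => rfl⟩

/-! ### few colours -/

theorem few_colours (hk : k ≤ 3) (hD : 1 ≤ D) {T : Bool → Stt k → Prop} (hT : Good D T)
    (h0 : T true (fun _ => none)) : False := by
  -- play to the end
  have key : ∀ n, ∀ b γ, T b γ → (∀ e f, VE D e → VE D f → Adj e f → γ e ≠ none → γ e ≠ γ f) →
      {w : Wd | VE D w ∧ γ w = none}.ncard = n →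
      ∃ γ' : Stt k, (∀ e f, VE D e → VE D f → Adj e f → γ' e ≠ none → γ' e ≠ γ' f) ∧ ∀ e, VE D e → γ' e ≠ none := by
    intro n
    induction n using Nat.strong_induction_on with
    | _ n ih =>
      intro b γ h hp hn
      by_cases hl : ∃ e' a, Legal D γ e' a
      · obtain ⟨e', a, hle, b', hT'⟩ : ∃ e' a, Legal D γ e' a ∧ ∃ b', T b' (Function.update γ e' (some a)) := by
          cases b with
          | true =>
            obtain ⟨e', a, h1, h2⟩ := hT.alice γ h hl
            exact ⟨e', a, h1, false, h2⟩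
          | false =>
            obtain ⟨e', a, h1⟩ := hl
            exact ⟨e', a, h1, true, hT.bob γ h e' a h1⟩
        refine ih _ ?_ b' _ hT' ?_ rfl
        · rw [← hn]
          apply Set.ncard_lt_ncard _ (VE_finite.subset (fun w hw => hw.1))
          refine ⟨?_, ?_⟩
          · rintro w ⟨hw1, hw2⟩
            refine ⟨hw1, ?_⟩
            by_cases hwe : w = e'
            · subst hwe; simp at hw2
            · rwa [Function.update_of_ne hwe] at hw2
          · intro hsub
            have : e' ∈ {w : Wd | VE D w ∧ Function.update γ e' (some a) w = none} := hsub ⟨hle.1, hle.2.1⟩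
            simp at this
        · intro e f he hf hadj hne
          have hsymm : Adj f e := by
            obtain ⟨x, l, m, hx, hlm, h1, h2⟩ := hadj
            exact ⟨x, m, l, hx, hlm.symm, h2, h1⟩
          have hef : e ≠ f := by
            rintro rfl
            obtain ⟨x, l, m, hx, hlm, h1, h2⟩ := hadj
            exact hlm (eid_inj hx (h1.symm.trans h2))
          by_cases h1 : e = e'
          · subst h1
            rw [Function.update_self, Function.update_of_ne hef.symm]
            exact (hle.2.2 f hf hadj).symm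
          · rw [Function.update_of_ne h1] at hne ⊢
            by_cases h2 : f = e'
            · subst h2
              rw [Function.update_self]
              exact hle.2.2 e he hsymm
            · rw [Function.update_of_ne h2]
              exact hp e f he hf hadj hne
      · exact ⟨γ, hp, hT.done b γ h (fun e a hh => hl ⟨e, a, hh⟩)⟩
  obtain ⟨γ, hp, hall⟩ := key _ true _ h0 (by intro e f _ _ _ hne; exact absurd rfl hne) rfl
  have hR : ∀ l : Fin 4, VE D [l] := fun l => ⟨by simp, by unfold Rd; simp, by simp; omega⟩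
  have hex : ∀ l : Fin 4, ∃ a : Fin k, γ [l] = some a := fun l => Option.ne_none_iff_exists'.1 (hall _ (hR l))
  choose g hg using hex
  have hginj : Function.Injective g := by
    intro l m hlm
    by_contra hne
    refine hp [l] [m] (hR l) (hR m) ⟨[], l, m, by unfold Rd; simp, hne, by simp [eid], by simp [eid]⟩
      (hall _ (hR l)) ?_
    rw [hg, hg, hlm]
  have := Fintype.card_le_of_injective g hginj
  simp at this
  omega

/-! ### fresh balls -/

theorem slot_fresh {γ : Stt k} {b : Fin 4} (h : ∀ w, VE D w → BE [] b w → γ w = none) :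
    ∀ (d : ℕ) (x : Wd) (l : Fin 4), Rd x → d + 2 ≤ x.length → x.length + d + 1 ≤ D → [b] <:+ x →
      slotM D γ d x l := by
  intro d
  have h1 : ∀ (x : Wd) (l : Fin 4), Rd x → 2 ≤ x.length → x.length + 1 ≤ D → [b] <:+ x →
      VE D (eid x l) ∧ γ (eid x l) = none := by
    intro x l hx h2 h3 h4
    have hv : VE D (eid x l) := by
      refine ⟨eid_ne_nil x l, hx.eid l, ?_⟩
      unfold eid; split_ifs
      · omega
      · simp; omega
    refine ⟨hv, h _ hv ?_⟩
    unfold BE
    rw [if_neg (by simp)]
    unfold eid; split_ifs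
    · exact h4
    · exact h4.trans (List.suffix_cons l x)
  have h5 : ∀ (x : Wd) (l : Fin 4), Rd x → 2 ≤ x.length → [b] <:+ x → [b] <:+ nb x l := by
    intro x l hx h2 h4
    unfold nb; split_ifs
    · cases x with
      | nil => simp at h2
      | cons a t =>
        simp only [List.tail_cons]
        rcases List.suffix_cons_iff.1 h4 with h6 | h6
        · exfalso
          have h7 := congrArg List.length h6
          simp only [List.length_cons, List.length_nil] at h7 h2
          omega
        · exact h6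
    · exact h4.trans (List.suffix_cons l x)
  induction d with
  | zero =>
    intro x l hx h2 h3 h4
    exact h1 x l hx h2 (by omega) h4
  | succ d ih =>
    intro x l hx h2 h3 h4
    obtain ⟨h6, h7⟩ := h1 x l hx (by omega) (by omega) h4
    refine ⟨h6, h7, ?_⟩
    intro m _
    have hlen : (nb x l).length ≤ x.length + 1 ∧ x.length ≤ (nb x l).length + 1 := by
      unfold nb; split_ifs <;> simp <;> omega
    exact ih (nb x l) m (hx.nb l) (by omega) (by omega) (h5 x l hx (by omega) h4)

/-- a word of length `n+1` starting (at the root) with `b`, alternating `b`, `c` -/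
def alt (b c : Fin 4) : ℕ → Wd
  | 0 => [b]
  | n+1 => (if (alt b c n).head? = some b then c else b) :: alt b c n

theorem alt_len (b c : Fin 4) (n : ℕ) : (alt b c n).length = n + 1 := by
  induction n with
  | zero => rfl
  | succ n ih => simp [alt, ih]

theorem alt_rd {b c : Fin 4} (hbc : b ≠ c) (n : ℕ) :
    Rd (alt b c n) ∧ [b] <:+ alt b c n ∧ ((alt b c n).head? = some b ∨ (alt b c n).head? = some c) := by
  induction n with
  | zero => exact ⟨by unfold Rd alt; simp, List.suffix_refl _, Or.inl rfl⟩
  | succ n ih =>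
    obtain ⟨h1, h2, h3⟩ := ih
    simp only [alt]
    split_ifs with h
    · exact ⟨h1.cons (by rw [h]; simpa using hbc), h2.trans (List.suffix_cons _ _), Or.inr rfl⟩
    · exact ⟨h1.cons h, h2.trans (List.suffix_cons _ _), Or.inl rfl⟩

theorem fresh_false {T : Bool → Stt k → Prop} (hT : Good D T) (h0 : T true (fun _ => none)) {n : ℕ}
    (hD : 2 * n + 3 ≤ D) (hW : WF D T (.mk (.slot n) (.slot n) (.slot n) (.slot n))) : False := by
  have hv : VE D [0] := ⟨by simp, by unfold Rd; simp, by simp; omega⟩
  obtain ⟨e, a, hl, ht⟩ := hT.alice _ h0 (exists_legal hT h0 hv rfl)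
  have hb : ∃ b c : Fin 4, b ≠ c ∧ ¬ BE [] b e := by
    by_cases h : BE [] 0 e
    · exact ⟨1, 0, by decide, fun h' => BE_disj (by decide) h h'⟩
    · exact ⟨0, 1, by decide, h⟩
  obtain ⟨b, c, hbc, hb⟩ := hb
  obtain ⟨h1, h2, _⟩ := alt_rd hbc (n+1)
  have hlen := alt_len b c (n+1)
  have hfr : ∀ w, VE D w → BE [] b w → Function.update (fun _ => none : Stt k) e (some a) w = none := by
    intro w _ hw
    rw [upd_ne]
    rintro rfl; exact hb hw
  have hs := fun l => slot_fresh hfr n (alt b c (n+1)) l h1 (by omega) (by omega) h2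
  exact hW (Equiv.refl _) _ _ h1 ht ⟨0, 1, 2, 3, by unfold D4; decide, hs 0, hs 1, hs 2, hs 3⟩

end

end Pool.Agent.W319.GCI
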