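import Pool.Agent.W319.GCI.Game

set_option autoImplicit false

namespace Pool.Agent.W319.GCI

theorem mem_nil {p : Root → Prop} : ∀ F ∈ ([] : List Root), p F := by
  intro F h; simp at h
theorem mem_cons {p : Root → Prop} {a : Root} {t : List Root} (h1 : p a) (h2 : ∀ F ∈ t, p F) :
    ∀ F ∈ a :: t, p F := by
  intro F h
  rcases List.mem_cons.1 h with h | h
  · rw [h]; exact h1
  · exact h2 F h

namespace K4
abbrev WFK (R : Root) : Prop := ∀ (D : ℕ) (T : Bool → Stt 4 → Prop), Good D T → WF D T R
abbrev LFK (R : Root) : Prop := ∀ (D : ℕ) (T : Bool → Stt 4 → Prop), Good D T → LF D T R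
end K4

end Pool.Agent.W319.GCI
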