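import Pool.Agent.W319.GCI.K4D0
set_option autoImplicit false
set_option maxRecDepth 100000
set_option linter.all false
namespace Pool.Agent.W319.GCI.K4
open Pool.Agent.W319.GCI

theorem cl0 : lchk (nat_lit 4) [] (nat_lit 461) .nil .nil (.nod (nat_lit 1237941699492346908758770436) .nil (.dwn (nat_lit 11418251725847014274225262341391746578425839706) (nat_lit 16777613)) (.opn (nat_lit 11418251725847014273606285238199332135938032018))) (.nod (nat_lit 67108946) .nil (.dwn (nat_lit 210625550010781622956091720024044223491407931679122175553303478532) (nat_lit 16777293)) .nil) l0 = true := by decide +kernel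
theorem cw0 : wchk (nat_lit 4) [] [l0] (nat_lit 4) (nat_lit 1) (nat_lit 2) (nat_lit 0) (nat_lit 17355008) (nat_lit 0) w0 = true := by decide +kernel
theorem cl1 : lchk (nat_lit 4) [] (nat_lit 13) (.nod (nat_lit 394) .nil .nil .nil) (.nod (nat_lit 139515770437584770019983589047024966697220) .nil (.opn (nat_lit 11418033945132184873608636336910024506943209610)) .dup) .nil (.dwn (nat_lit 2171877200443791544404920839384497288329742597955947742626052) (nat_lit 173)) l1 = true := by decide +kernel
theorem cw1 : wchk (nat_lit 4) [] [l1] (nat_lit 3) (nat_lit 2) (nat_lit 2) (nat_lit 0) (nat_lit 577792) (nat_lit 0) w1 = true := by decide +kernel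
theorem cw2 : wchk (nat_lit 4) [] [l1] (nat_lit 2) (nat_lit 2) (nat_lit 1) (nat_lit 0) (nat_lit 17355008) (nat_lit 0) w2 = true := by decide +kernel
theorem cw3 : wchk (nat_lit 4) [] [l0] (nat_lit 2) (nat_lit 2) (nat_lit 1) (nat_lit 0) (nat_lit 17340672) (nat_lit 0) w3 = true := by decide +kernel
theorem cl2 : lchk (nat_lit 4) [] (nat_lit 333) .nil .nil (.nod (nat_lit 772) .nil .nil .dup) (.nod (nat_lit 772) .nil (.opn (nat_lit 11418251725847014274225262341391746577855414532)) .dup) l2 = true := by decide +kernel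
theorem cw4 : wchk (nat_lit 4) [] [l2] (nat_lit 0) (nat_lit 1) (nat_lit 1) (nat_lit 0) (nat_lit 563456) (nat_lit 0) w4 = true := by decide +kernel
theorem cw5 : wchk (nat_lit 4) [] [l2] (nat_lit 0) (nat_lit 3) (nat_lit 3) (nat_lit 0) (nat_lit 334080) (nat_lit 0) w5 = true := by decide +kernel
theorem cw6 : wchk (nat_lit 4) [] [l2] (nat_lit 0) (nat_lit 3) (nat_lit 1) (nat_lit 0) (nat_lit 563456) (nat_lit 0) w6 = true := by decide +kernel
theorem cl3 : lchk (nat_lit 4) [w2, w0, w3, w4, w5, w6] (nat_lit 2311168) .nil (.nod (nat_lit 226628056369345016666607488549557628830346) .nil (.dwn (nat_lit 139515770437584852642655147286927301935498) (nat_lit 69420032)) .dup) .dup (.nod (nat_lit 29014973760768094602078115539999172618820221500917768416382681738) (.opn (nat_lit 871513357326039471326113057558031968166204217762109894346112698400)) .nil .nil) l3 = true := by decide +kernel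
theorem cw7 : wchk (nat_lit 4) [] [l3] (nat_lit 3) (nat_lit 1) (nat_lit 0) (nat_lit 0) (nat_lit 17355008) (nat_lit 0) w7 = true := by decide +kernel
theorem cw8 : wchk (nat_lit 4) [] [l1] (nat_lit 3) (nat_lit 1) (nat_lit 2) (nat_lit 0) (nat_lit 577792) (nat_lit 0) w8 = true := by decide +kernel
theorem cw9 : wchk (nat_lit 4) [] [l1] (nat_lit 3) (nat_lit 1) (nat_lit 2) (nat_lit 0) (nat_lit 576000) (nat_lit 0) w9 = true := by decide +kernel
theorem cw10 : wchk (nat_lit 4) [] [l1] (nat_lit 3) (nat_lit 2) (nat_lit 3) (nat_lit 0) (nat_lit 463104) (nat_lit 0) w10 = true := by decide +kernel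

end Pool.Agent.W319.GCI.K4
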