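import Pool.Agent.W319.GCI.K4Base
set_option autoImplicit false
set_option maxRecDepth 100000
set_option linter.all false
namespace Pool.Agent.W319.GCI.K4
open Pool.Agent.W319.GCI

def l0 : Root := .mk (.col (nat_lit 0)) (.col (nat_lit 1)) (.node (.col (nat_lit 0)) (.slot (nat_lit 1)) (.slot (nat_lit 0))) (.node (.col (nat_lit 2)) (.slot (nat_lit 1)) .junk)
def w0 : Root := .mk (.col (nat_lit 0)) (.col (nat_lit 1)) (.node (.col (nat_lit 0)) (.slot (nat_lit 1)) (.slot (nat_lit 0))) (.slot (nat_lit 2))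
def l1 : Root := .mk (.node (.col (nat_lit 0)) (.col (nat_lit 1)) .junk) (.node (.col (nat_lit 0)) (.slot (nat_lit 0)) (.slot (nat_lit 0))) (.col (nat_lit 2)) (.slot (nat_lit 1))
def w1 : Root := .mk (.col (nat_lit 0)) (.col (nat_lit 1)) (.node (.node (.col (nat_lit 0)) (.slot (nat_lit 0)) (.slot (nat_lit 0))) (.slot (nat_lit 1)) (.slot (nat_lit 1))) .junk
def w2 : Root := .mk (.col (nat_lit 2)) (.node (.col (nat_lit 0)) (.slot (nat_lit 1)) (.slot (nat_lit 0))) (.node (.col (nat_lit 0)) (.slot (nat_lit 0)) (.slot (nat_lit 0))) (.slot (nat_lit 1))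
def w3 : Root := .mk (.col (nat_lit 2)) (.node (.col (nat_lit 0)) (.slot (nat_lit 1)) (.slot (nat_lit 1))) (.node (.col (nat_lit 0)) (.slot (nat_lit 1)) (.slot (nat_lit 0))) (.col (nat_lit 0))
def l2 : Root := .mk (.col (nat_lit 2)) (.col (nat_lit 1)) (.node (.col (nat_lit 0)) .junk .junk) (.node (.col (nat_lit 0)) (.slot (nat_lit 0)) (.slot (nat_lit 0)))
def w4 : Root := .mk (.col (nat_lit 2)) (.node (.col (nat_lit 0)) (.slot (nat_lit 0)) (.slot (nat_lit 0))) (.node (.col (nat_lit 0)) .junk .junk) (.node (.col (nat_lit 0)) (.slot (nat_lit 0)) (.slot (nat_lit 0)))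
def w5 : Root := .mk (.col (nat_lit 2)) (.node (.col (nat_lit 0)) .junk .junk) (.node (.col (nat_lit 0)) (.slot (nat_lit 0)) (.slot (nat_lit 0))) (.node (.col (nat_lit 1)) (.slot (nat_lit 0)) (.slot (nat_lit 0)))
def w6 : Root := .mk (.col (nat_lit 2)) (.node (.col (nat_lit 0)) .junk .junk) (.node (.col (nat_lit 0)) (.slot (nat_lit 0)) (.slot (nat_lit 0))) (.node (.col (nat_lit 2)) (.slot (nat_lit 0)) (.slot (nat_lit 0)))
def l3 : Root := .mk (.col (nat_lit 2)) (.node (.col (nat_lit 0)) (.slot (nat_lit 2)) (.slot (nat_lit 2))) (.node (.col (nat_lit 0)) (.slot (nat_lit 2)) (.slot (nat_lit 2))) (.slot (nat_lit 1))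
def w7 : Root := .mk (.col (nat_lit 2)) (.node (.col (nat_lit 0)) (.slot (nat_lit 2)) (.slot (nat_lit 2))) (.slot (nat_lit 3)) (.slot (nat_lit 1))
def w8 : Root := .mk (.col (nat_lit 0)) (.col (nat_lit 1)) (.node (.node (.col (nat_lit 0)) (.slot (nat_lit 0)) (.slot (nat_lit 0))) (.node (.col (nat_lit 0)) (.slot (nat_lit 0)) (.slot (nat_lit 0))) (.slot (nat_lit 1))) .junk
def w9 : Root := .mk (.col (nat_lit 0)) (.col (nat_lit 1)) (.node (.node (.col (nat_lit 0)) (.slot (nat_lit 0)) (.slot (nat_lit 0))) (.node (.col (nat_lit 1)) (.slot (nat_lit 0)) (.slot (nat_lit 0))) (.slot (nat_lit 1))) .junk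
def w10 : Root := .mk (.col (nat_lit 0)) (.col (nat_lit 1)) (.node (.node (.col (nat_lit 0)) (.slot (nat_lit 0)) (.slot (nat_lit 0))) (.node (.col (nat_lit 2)) (.slot (nat_lit 0)) (.slot (nat_lit 0))) (.slot (nat_lit 1))) .junk
def l4 : Root := .mk (.col (nat_lit 0)) (.col (nat_lit 1)) (.node (.node (.col (nat_lit 0)) (.col (nat_lit 1)) (.slot (nat_lit 0))) (.slot (nat_lit 1)) .junk) (.col (nat_lit 2))
def w11 : Root := .mk (.node (.node (.col (nat_lit 0)) (.col (nat_lit 1)) (.slot (nat_lit 1))) (.slot (nat_lit 1)) .junk) (.col (nat_lit 0)) (.col (nat_lit 1)) (.slot (nat_lit 0))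
def w12 : Root := .mk (.node (.node (.col (nat_lit 0)) (.col (nat_lit 1)) (.slot (nat_lit 0))) (.slot (nat_lit 1)) .junk) (.col (nat_lit 0)) (.col (nat_lit 2)) (.slot (nat_lit 1))
def l5 : Root := .mk (.col (nat_lit 0)) (.col (nat_lit 1)) (.node (.node (.col (nat_lit 0)) (.slot (nat_lit 2)) (.slot (nat_lit 2))) (.slot (nat_lit 3)) (.slot (nat_lit 1))) (.slot (nat_lit 2))
def w13 : Root := .mk (.col (nat_lit 0)) (.col (nat_lit 1)) (.slot (nat_lit 4)) (.slot (nat_lit 2))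
def w14 : Root := .mk (.col (nat_lit 0)) (.slot (nat_lit 4)) (.slot (nat_lit 2)) (.node (.col (nat_lit 0)) (.slot (nat_lit 4)) (.slot (nat_lit 2)))
def l6 : Root := .mk (.col (nat_lit 0)) (.node (.col (nat_lit 0)) (.col (nat_lit 1)) (.slot (nat_lit 1))) (.col (nat_lit 1)) (.node (.col (nat_lit 0)) (.col (nat_lit 2)) (.slot (nat_lit 1)))
def w15 : Root := .mk (.col (nat_lit 0)) (.node (.col (nat_lit 0)) (.col (nat_lit 1)) (.slot (nat_lit 1))) (.col (nat_lit 1)) (.node (.col (nat_lit 0)) (.slot (nat_lit 1)) (.slot (nat_lit 1)))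
def l7 : Root := .mk (.col (nat_lit 0)) (.node (.col (nat_lit 0)) (.slot (nat_lit 1)) (.slot (nat_lit 1))) (.col (nat_lit 1)) (.node (.col (nat_lit 0)) (.slot (nat_lit 1)) (.slot (nat_lit 1)))
def w16 : Root := .mk (.col (nat_lit 0)) (.node (.col (nat_lit 0)) (.slot (nat_lit 1)) (.slot (nat_lit 1))) (.slot (nat_lit 1)) (.node (.col (nat_lit 0)) (.slot (nat_lit 1)) (.slot (nat_lit 1)))
def w17 : Root := .mk (.col (nat_lit 0)) (.node (.col (nat_lit 1)) (.slot (nat_lit 1)) .junk) (.slot (nat_lit 1)) (.node (.col (nat_lit 0)) (.slot (nat_lit 1)) (.slot (nat_lit 0)))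
def l8 : Root := .mk (.col (nat_lit 0)) (.node (.slot (nat_lit 0)) (.slot (nat_lit 1)) (.slot (nat_lit 0))) (.node (.col (nat_lit 2)) (.slot (nat_lit 1)) .junk) (.col (nat_lit 1))
def w18 : Root := .mk (.col (nat_lit 0)) (.node (.slot (nat_lit 0)) (.slot (nat_lit 1)) (.slot (nat_lit 0))) (.slot (nat_lit 2)) (.col (nat_lit 1))
def w19 : Root := .mk (.col (nat_lit 0)) (.node (.slot (nat_lit 0)) (.slot (nat_lit 1)) (.slot (nat_lit 0))) (.slot (nat_lit 2)) (.node (.col (nat_lit 0)) (.slot (nat_lit 4)) (.slot (nat_lit 2)))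
def l9 : Root := .mk (.col (nat_lit 0)) (.slot (nat_lit 4)) (.slot (nat_lit 2)) (.node (.col (nat_lit 0)) (.slot (nat_lit 4)) (.slot (nat_lit 2)))
def t1 : Root := .mk (.col (nat_lit 0)) (.slot (nat_lit 5)) (.slot (nat_lit 5)) (.slot (nat_lit 5))
def t0 : Root := .mk (.slot (nat_lit 6)) (.slot (nat_lit 6)) (.slot (nat_lit 6)) (.slot (nat_lit 6))

end Pool.Agent.W319.GCI.K4
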