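import Pool.Agent.W319.GCI.K5Base
set_option autoImplicit false
set_option maxRecDepth 100000
set_option linter.all false
namespace Pool.Agent.W319.GCI.K5
open Pool.Agent.W319.GCI

def l198 : Root := .mk (.node (.node (.col (nat_lit 1)) (.col (nat_lit 0)) (.slot (nat_lit 4))) (.col (nat_lit 0)) (.node (.col (nat_lit 1)) (.node (.slot (nat_lit 0)) (.slot (nat_lit 0)) (.slot (nat_lit 0))) (.slot (nat_lit 3)))) (.node (.col (nat_lit 0)) (.col (nat_lit 2)) (.slot (nat_lit 2))) (.col (nat_lit 1)) (.col (nat_lit 0))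
def w908 : Root := .mk (.node (.node (.col (nat_lit 1)) (.col (nat_lit 0)) (.slot (nat_lit 4))) (.col (nat_lit 0)) (.node (.col (nat_lit 1)) (.node (.slot (nat_lit 0)) (.slot (nat_lit 0)) (.slot (nat_lit 0))) (.slot (nat_lit 3)))) (.node (.col (nat_lit 0)) (.slot (nat_lit 1)) (.slot (nat_lit 2))) (.col (nat_lit 1)) (.col (nat_lit 0))
def l199 : Root := .mk (.node (.node (.col (nat_lit 1)) (.col (nat_lit 0)) (.slot (nat_lit 4))) (.col (nat_lit 0)) (.node (.col (nat_lit 1)) (.slot (nat_lit 7)) (.slot (nat_lit 5)))) (.node (.col (nat_lit 0)) (.slot (nat_lit 2)) (.slot (nat_lit 1))) (.col (nat_lit 1)) (.col (nat_lit 0))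
def w909 : Root := .mk (.node (.node (.col (nat_lit 1)) (.col (nat_lit 0)) (.slot (nat_lit 4))) (.col (nat_lit 0)) (.slot (nat_lit 8))) (.node (.col (nat_lit 0)) (.slot (nat_lit 2)) (.slot (nat_lit 1))) (.col (nat_lit 1)) (.col (nat_lit 0))
def w910 : Root := .mk (.node (.node (.col (nat_lit 1)) (.col (nat_lit 0)) (.slot (nat_lit 1))) (.col (nat_lit 0)) (.slot (nat_lit 1))) (.node (.col (nat_lit 0)) (.slot (nat_lit 2)) (.slot (nat_lit 2))) (.col (nat_lit 1)) (.node (.col (nat_lit 1)) (.slot (nat_lit 0)) (.slot (nat_lit 0)))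
def w911 : Root := .mk (.node (.node (.col (nat_lit 1)) (.col (nat_lit 0)) (.slot (nat_lit 1))) (.col (nat_lit 0)) (.slot (nat_lit 1))) (.node (.col (nat_lit 0)) (.slot (nat_lit 2)) (.slot (nat_lit 2))) (.col (nat_lit 1)) (.node (.col (nat_lit 2)) (.slot (nat_lit 0)) (.slot (nat_lit 0)))
def l200 : Root := .mk (.node (.col (nat_lit 1)) (.col (nat_lit 0)) (.slot (nat_lit 0))) (.col (nat_lit 0)) (.node (.node (.col (nat_lit 0)) (.slot (nat_lit 7)) (.slot (nat_lit 5))) (.col (nat_lit 1)) (.node (.col (nat_lit 0)) (.slot (nat_lit 7)) (.slot (nat_lit 5)))) (.col (nat_lit 1))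
def w912 : Root := .mk (.node (.col (nat_lit 1)) (.col (nat_lit 0)) (.slot (nat_lit 0))) (.col (nat_lit 0)) (.node (.node (.col (nat_lit 0)) (.slot (nat_lit 7)) (.slot (nat_lit 5))) (.col (nat_lit 1)) (.slot (nat_lit 8))) (.col (nat_lit 1))
def w913 : Root := .mk (.node (.node (.col (nat_lit 1)) (.col (nat_lit 0)) (.slot (nat_lit 0))) (.col (nat_lit 0)) (.node (.col (nat_lit 0)) (.slot (nat_lit 0)) (.slot (nat_lit 0)))) (.node (.col (nat_lit 0)) (.col (nat_lit 1)) (.slot (nat_lit 1))) (.col (nat_lit 1)) (.col (nat_lit 2))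
def w914 : Root := .mk (.node (.node (.col (nat_lit 1)) (.col (nat_lit 0)) (.slot (nat_lit 0))) (.col (nat_lit 0)) (.slot (nat_lit 0))) (.node (.col (nat_lit 0)) (.node (.col (nat_lit 0)) (.slot (nat_lit 0)) (.slot (nat_lit 0))) (.slot (nat_lit 1))) (.col (nat_lit 1)) (.col (nat_lit 2))
def w915 : Root := .mk (.node (.node (.col (nat_lit 1)) (.col (nat_lit 0)) (.slot (nat_lit 0))) (.col (nat_lit 0)) (.slot (nat_lit 0))) (.node (.col (nat_lit 0)) (.slot (nat_lit 1)) (.slot (nat_lit 1))) (.col (nat_lit 1)) (.col (nat_lit 2))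
def l201 : Root := .mk (.node (.node (.col (nat_lit 1)) (.col (nat_lit 0)) (.slot (nat_lit 1))) (.col (nat_lit 0)) (.node (.col (nat_lit 0)) (.slot (nat_lit 0)) (.slot (nat_lit 0)))) (.node (.col (nat_lit 0)) (.slot (nat_lit 2)) (.slot (nat_lit 2))) (.col (nat_lit 1)) (.col (nat_lit 2))
def w916 : Root := .mk (.node (.col (nat_lit 1)) (.col (nat_lit 0)) (.slot (nat_lit 1))) (.col (nat_lit 0)) (.node (.node (.col (nat_lit 0)) (.slot (nat_lit 2)) (.slot (nat_lit 2))) (.col (nat_lit 1)) (.slot (nat_lit 1))) (.node (.col (nat_lit 0)) (.slot (nat_lit 0)) (.slot (nat_lit 0)))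
def l202 : Root := .mk (.node (.node (.col (nat_lit 1)) (.col (nat_lit 0)) (.slot (nat_lit 0))) (.col (nat_lit 0)) (.node (.col (nat_lit 2)) (.slot (nat_lit 1)) (.slot (nat_lit 0)))) (.node (.col (nat_lit 0)) (.slot (nat_lit 2)) (.slot (nat_lit 2))) (.col (nat_lit 1)) (.col (nat_lit 2))
def w917 : Root := .mk (.node (.col (nat_lit 1)) (.col (nat_lit 0)) (.slot (nat_lit 0))) (.col (nat_lit 0)) (.node (.node (.col (nat_lit 0)) (.slot (nat_lit 2)) (.slot (nat_lit 2))) (.col (nat_lit 1)) (.slot (nat_lit 1))) (.node (.col (nat_lit 2)) (.slot (nat_lit 1)) (.slot (nat_lit 0)))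
def w918 : Root := .mk (.node (.node (.col (nat_lit 1)) (.col (nat_lit 0)) (.slot (nat_lit 0))) (.col (nat_lit 0)) (.node (.col (nat_lit 1)) (.slot (nat_lit 1)) (.slot (nat_lit 0)))) (.node (.col (nat_lit 0)) (.col (nat_lit 1)) (.slot (nat_lit 0))) (.col (nat_lit 1)) (.col (nat_lit 2))
def w919 : Root := .mk (.node (.node (.col (nat_lit 1)) (.col (nat_lit 0)) (.slot (nat_lit 1))) (.col (nat_lit 0)) (.node (.col (nat_lit 3)) (.slot (nat_lit 0)) (.slot (nat_lit 0)))) (.node (.col (nat_lit 0)) (.col (nat_lit 1)) (.slot (nat_lit 0))) (.col (nat_lit 1)) (.col (nat_lit 2))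
def w920 : Root := .mk (.node (.node (.node (.col (nat_lit 1)) (.col (nat_lit 0)) (.slot (nat_lit 1))) (.col (nat_lit 0)) (.slot (nat_lit 1))) (.col (nat_lit 1)) (.col (nat_lit 2))) (.col (nat_lit 0)) (.col (nat_lit 1)) (.slot (nat_lit 0))
def l203 : Root := .mk (.node (.node (.col (nat_lit 1)) (.col (nat_lit 0)) (.slot (nat_lit 1))) (.col (nat_lit 0)) (.slot (nat_lit 2))) (.node (.col (nat_lit 0)) (.col (nat_lit 1)) (.slot (nat_lit 3))) (.col (nat_lit 1)) (.col (nat_lit 2))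
def w921 : Root := .mk (.node (.node (.node (.col (nat_lit 1)) (.col (nat_lit 0)) (.slot (nat_lit 1))) (.col (nat_lit 0)) (.slot (nat_lit 2))) (.col (nat_lit 1)) (.slot (nat_lit 1))) (.col (nat_lit 0)) (.col (nat_lit 1)) (.slot (nat_lit 3))
def w922 : Root := .mk (.node (.col (nat_lit 1)) (.col (nat_lit 0)) (.slot (nat_lit 0))) (.col (nat_lit 0)) (.node (.node (.col (nat_lit 0)) (.node (.col (nat_lit 0)) (.slot (nat_lit 0)) (.slot (nat_lit 0))) (.slot (nat_lit 1))) (.col (nat_lit 1)) (.col (nat_lit 2))) (.col (nat_lit 1))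
def w923 : Root := .mk (.node (.slot (nat_lit 0)) (.col (nat_lit 0)) (.slot (nat_lit 1))) (.node (.col (nat_lit 0)) (.node (.col (nat_lit 0)) (.slot (nat_lit 0)) (.slot (nat_lit 0))) (.node (.col (nat_lit 3)) (.slot (nat_lit 0)) (.slot (nat_lit 0)))) (.col (nat_lit 1)) (.col (nat_lit 2))
def w924 : Root := .mk (.node (.slot (nat_lit 0)) (.col (nat_lit 0)) (.slot (nat_lit 1))) (.node (.col (nat_lit 0)) (.node (.col (nat_lit 0)) (.col (nat_lit 1)) (.slot (nat_lit 0))) (.slot (nat_lit 1))) (.col (nat_lit 1)) (.col (nat_lit 2))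
def l204 : Root := .mk (.node (.node (.col (nat_lit 1)) (.col (nat_lit 0)) (.slot (nat_lit 1))) (.col (nat_lit 0)) (.slot (nat_lit 1))) (.node (.col (nat_lit 0)) (.node (.col (nat_lit 0)) (.slot (nat_lit 0)) (.slot (nat_lit 0))) (.slot (nat_lit 2))) (.col (nat_lit 1)) (.col (nat_lit 2))
def w925 : Root := .mk (.col (nat_lit 1)) (.node (.col (nat_lit 0)) (.node (.node (.col (nat_lit 0)) (.node (.col (nat_lit 0)) (.slot (nat_lit 0)) (.slot (nat_lit 0))) (.slot (nat_lit 2))) (.col (nat_lit 1)) (.slot (nat_lit 1))) (.slot (nat_lit 1))) (.col (nat_lit 0)) (.slot (nat_lit 1))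
def w926 : Root := .mk (.node (.slot (nat_lit 0)) (.col (nat_lit 0)) (.slot (nat_lit 0))) (.node (.col (nat_lit 0)) (.node (.col (nat_lit 2)) (.slot (nat_lit 0)) (.slot (nat_lit 0))) (.node (.col (nat_lit 1)) (.slot (nat_lit 1)) (.slot (nat_lit 0)))) (.col (nat_lit 1)) (.col (nat_lit 2))
def w927 : Root := .mk (.node (.slot (nat_lit 0)) (.col (nat_lit 0)) (.slot (nat_lit 1))) (.node (.col (nat_lit 0)) (.node (.col (nat_lit 2)) (.slot (nat_lit 0)) (.slot (nat_lit 0))) (.node (.col (nat_lit 3)) (.slot (nat_lit 0)) (.slot (nat_lit 0)))) (.col (nat_lit 1)) (.col (nat_lit 2))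
def l205 : Root := .mk (.node (.node (.col (nat_lit 1)) (.col (nat_lit 0)) (.slot (nat_lit 1))) (.col (nat_lit 0)) (.slot (nat_lit 2))) (.node (.col (nat_lit 0)) (.node (.col (nat_lit 2)) (.slot (nat_lit 1)) (.slot (nat_lit 1))) (.slot (nat_lit 2))) (.col (nat_lit 1)) (.col (nat_lit 2))
def w928 : Root := .mk (.col (nat_lit 1)) (.node (.col (nat_lit 0)) (.node (.node (.col (nat_lit 0)) (.node (.col (nat_lit 2)) (.slot (nat_lit 1)) (.slot (nat_lit 1))) (.slot (nat_lit 2))) (.col (nat_lit 1)) (.slot (nat_lit 1))) (.slot (nat_lit 2))) (.col (nat_lit 0)) (.slot (nat_lit 1))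
def l206 : Root := .mk (.node (.node (.col (nat_lit 1)) (.col (nat_lit 0)) (.slot (nat_lit 1))) (.col (nat_lit 0)) (.slot (nat_lit 2))) (.node (.col (nat_lit 0)) (.node (.slot (nat_lit 0)) (.slot (nat_lit 0)) (.slot (nat_lit 0))) (.slot (nat_lit 2))) (.col (nat_lit 1)) (.col (nat_lit 2))
def w929 : Root := .mk (.col (nat_lit 1)) (.node (.col (nat_lit 0)) (.node (.node (.col (nat_lit 0)) (.node (.slot (nat_lit 0)) (.slot (nat_lit 0)) (.slot (nat_lit 0))) (.slot (nat_lit 2))) (.col (nat_lit 1)) (.slot (nat_lit 1))) (.slot (nat_lit 2))) (.col (nat_lit 0)) (.slot (nat_lit 1))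
def l207 : Root := .mk (.node (.node (.col (nat_lit 1)) (.col (nat_lit 0)) (.node (.col (nat_lit 0)) (.slot (nat_lit 0)) (.slot (nat_lit 0)))) (.col (nat_lit 0)) (.slot (nat_lit 1))) (.node (.col (nat_lit 0)) (.slot (nat_lit 2)) (.slot (nat_lit 2))) (.col (nat_lit 1)) (.col (nat_lit 2))
def w930 : Root := .mk (.col (nat_lit 1)) (.node (.col (nat_lit 0)) (.node (.node (.col (nat_lit 0)) (.slot (nat_lit 2)) (.slot (nat_lit 2))) (.col (nat_lit 1)) (.slot (nat_lit 1))) (.slot (nat_lit 1))) (.col (nat_lit 0)) (.node (.col (nat_lit 0)) (.slot (nat_lit 0)) (.slot (nat_lit 0)))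
def l208 : Root := .mk (.node (.node (.col (nat_lit 1)) (.col (nat_lit 0)) (.node (.col (nat_lit 1)) (.slot (nat_lit 0)) (.slot (nat_lit 0)))) (.col (nat_lit 0)) (.slot (nat_lit 1))) (.node (.col (nat_lit 0)) (.slot (nat_lit 2)) (.slot (nat_lit 2))) (.col (nat_lit 1)) (.col (nat_lit 2))
def w931 : Root := .mk (.col (nat_lit 1)) (.node (.col (nat_lit 0)) (.node (.node (.col (nat_lit 0)) (.slot (nat_lit 2)) (.slot (nat_lit 2))) (.col (nat_lit 1)) (.slot (nat_lit 1))) (.slot (nat_lit 1))) (.col (nat_lit 0)) (.node (.col (nat_lit 1)) (.slot (nat_lit 0)) (.slot (nat_lit 0)))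
def w932 : Root := .mk (.col (nat_lit 1)) (.node (.col (nat_lit 0)) (.node (.slot (nat_lit 0)) (.col (nat_lit 1)) (.slot (nat_lit 1))) (.slot (nat_lit 1))) (.col (nat_lit 0)) (.node (.col (nat_lit 2)) (.slot (nat_lit 1)) (.slot (nat_lit 1)))
def l209 : Root := .mk (.col (nat_lit 1)) (.node (.col (nat_lit 0)) (.node (.node (.col (nat_lit 0)) (.slot (nat_lit 7)) (.slot (nat_lit 5))) (.col (nat_lit 1)) (.slot (nat_lit 8))) (.slot (nat_lit 8))) (.col (nat_lit 0)) (.slot (nat_lit 4))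
def w933 : Root := .mk (.col (nat_lit 1)) (.node (.col (nat_lit 0)) (.node (.node (.col (nat_lit 0)) (.slot (nat_lit 7)) (.slot (nat_lit 5))) (.slot (nat_lit 1)) (.slot (nat_lit 8))) (.slot (nat_lit 8))) (.col (nat_lit 0)) (.slot (nat_lit 4))
def w934 : Root := .mk (.node (.node (.col (nat_lit 3)) (.col (nat_lit 2)) .junk) (.col (nat_lit 0)) (.slot (nat_lit 1))) (.node (.col (nat_lit 0)) (.node (.node (.col (nat_lit 0)) (.slot (nat_lit 7)) (.slot (nat_lit 5))) (.slot (nat_lit 8)) (.slot (nat_lit 1))) (.slot (nat_lit 8))) (.col (nat_lit 0)) (.slot (nat_lit 4))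
def l210 : Root := .mk (.col (nat_lit 3)) (.node (.node (.node (.col (nat_lit 0)) (.node (.node (.col (nat_lit 0)) (.slot (nat_lit 0)) (.slot (nat_lit 0))) (.slot (nat_lit 1)) (.slot (nat_lit 1))) (.slot (nat_lit 2))) (.col (nat_lit 1)) (.col (nat_lit 2))) (.col (nat_lit 0)) (.slot (nat_lit 1))) (.col (nat_lit 2)) (.col (nat_lit 0))
def w935 : Root := .mk (.col (nat_lit 3)) (.node (.node (.node (.col (nat_lit 0)) (.node (.node (.col (nat_lit 0)) (.slot (nat_lit 0)) (.slot (nat_lit 0))) (.slot (nat_lit 1)) (.slot (nat_lit 1))) (.slot (nat_lit 2))) (.col (nat_lit 1)) (.slot (nat_lit 1))) (.col (nat_lit 0)) (.slot (nat_lit 1))) (.col (nat_lit 2)) (.col (nat_lit 0))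
def w936 : Root := .mk (.node (.col (nat_lit 3)) (.col (nat_lit 2)) .junk) (.node (.node (.col (nat_lit 0)) (.node (.slot (nat_lit 0)) (.slot (nat_lit 0)) (.slot (nat_lit 0))) (.slot (nat_lit 1))) (.node (.col (nat_lit 0)) (.slot (nat_lit 1)) (.slot (nat_lit 1))) (.slot (nat_lit 1))) (.col (nat_lit 0)) (.slot (nat_lit 1))
def w937 : Root := .mk (.col (nat_lit 3)) (.node (.node (.col (nat_lit 2)) (.node (.col (nat_lit 1)) (.slot (nat_lit 0)) (.slot (nat_lit 0))) (.slot (nat_lit 3))) (.col (nat_lit 0)) (.slot (nat_lit 1))) (.col (nat_lit 2)) (.col (nat_lit 0))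
def w938 : Root := .mk (.node (.node (.node (.col (nat_lit 3)) (.col (nat_lit 2)) .junk) (.col (nat_lit 0)) (.slot (nat_lit 1))) (.node (.col (nat_lit 1)) (.slot (nat_lit 1)) (.slot (nat_lit 1))) (.col (nat_lit 0))) (.col (nat_lit 0)) (.node (.slot (nat_lit 0)) (.slot (nat_lit 0)) (.slot (nat_lit 0))) (.col (nat_lit 1))
def w939 : Root := .mk (.col (nat_lit 3)) (.node (.node (.node (.col (nat_lit 0)) (.node (.node (.col (nat_lit 0)) (.slot (nat_lit 0)) (.slot (nat_lit 0))) (.slot (nat_lit 1)) (.slot (nat_lit 1))) (.col (nat_lit 1))) (.node (.col (nat_lit 1)) (.slot (nat_lit 0)) (.slot (nat_lit 0))) (.col (nat_lit 1))) (.col (nat_lit 0)) (.slot (nat_lit 2))) (.col (nat_lit 2)) (.col (nat_lit 0))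
def w940 : Root := .mk (.node (.node (.node (.col (nat_lit 3)) (.col (nat_lit 2)) .junk) (.col (nat_lit 0)) (.slot (nat_lit 1))) (.node (.col (nat_lit 1)) (.slot (nat_lit 1)) (.slot (nat_lit 0))) (.node (.col (nat_lit 0)) (.slot (nat_lit 0)) (.slot (nat_lit 0)))) (.col (nat_lit 0)) (.node (.slot (nat_lit 0)) (.slot (nat_lit 0)) (.slot (nat_lit 0))) (.col (nat_lit 1))
def w941 : Root := .mk (.node (.node (.node (.col (nat_lit 3)) (.col (nat_lit 2)) .junk) (.col (nat_lit 0)) (.slot (nat_lit 1))) (.node (.col (nat_lit 1)) (.slot (nat_lit 0)) (.slot (nat_lit 0))) (.node (.col (nat_lit 1)) (.slot (nat_lit 1)) (.slot (nat_lit 0)))) (.col (nat_lit 0)) (.node (.slot (nat_lit 0)) (.slot (nat_lit 0)) (.slot (nat_lit 0))) (.col (nat_lit 1))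
def w942 : Root := .mk (.node (.node (.node (.col (nat_lit 3)) (.col (nat_lit 2)) .junk) (.col (nat_lit 0)) (.slot (nat_lit 1))) (.node (.col (nat_lit 1)) (.slot (nat_lit 1)) (.slot (nat_lit 0))) (.node (.col (nat_lit 2)) (.slot (nat_lit 0)) (.slot (nat_lit 0)))) (.col (nat_lit 0)) (.node (.slot (nat_lit 0)) (.slot (nat_lit 0)) (.slot (nat_lit 0))) (.col (nat_lit 1))
def w943 : Root := .mk (.node (.node (.node (.col (nat_lit 3)) (.col (nat_lit 2)) .junk) (.col (nat_lit 0)) (.slot (nat_lit 1))) (.node (.col (nat_lit 1)) (.slot (nat_lit 1)) (.slot (nat_lit 0))) (.node (.col (nat_lit 4)) (.slot (nat_lit 0)) (.slot (nat_lit 0)))) (.col (nat_lit 0)) (.node (.slot (nat_lit 0)) (.slot (nat_lit 0)) (.slot (nat_lit 0))) (.col (nat_lit 1))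
def w944 : Root := .mk (.node (.node (.node (.col (nat_lit 3)) (.col (nat_lit 2)) .junk) (.col (nat_lit 0)) (.slot (nat_lit 1))) (.node (.col (nat_lit 1)) (.slot (nat_lit 1)) (.slot (nat_lit 0))) (.node (.slot (nat_lit 0)) (.slot (nat_lit 0)) (.slot (nat_lit 0)))) (.col (nat_lit 0)) (.node (.slot (nat_lit 0)) (.slot (nat_lit 0)) (.slot (nat_lit 0))) (.col (nat_lit 1))
def w945 : Root := .mk (.col (nat_lit 3)) (.node (.node (.node (.col (nat_lit 0)) (.node (.col (nat_lit 1)) (.slot (nat_lit 1)) (.slot (nat_lit 1))) (.col (nat_lit 1))) (.node (.col (nat_lit 1)) (.slot (nat_lit 0)) (.slot (nat_lit 0))) (.slot (nat_lit 3))) (.col (nat_lit 0)) (.slot (nat_lit 1))) (.col (nat_lit 2)) (.col (nat_lit 0))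
def w946 : Root := .mk (.node (.node (.slot (nat_lit 0)) (.col (nat_lit 0)) (.slot (nat_lit 0))) (.node (.col (nat_lit 1)) (.slot (nat_lit 1)) (.slot (nat_lit 0))) (.slot (nat_lit 1))) (.col (nat_lit 0)) (.node (.col (nat_lit 2)) (.slot (nat_lit 2)) (.slot (nat_lit 2))) (.col (nat_lit 1))
def w947 : Root := .mk (.col (nat_lit 3)) (.node (.node (.node (.col (nat_lit 0)) (.node (.slot (nat_lit 0)) (.col (nat_lit 0)) (.slot (nat_lit 2))) (.col (nat_lit 1))) (.node (.col (nat_lit 1)) (.slot (nat_lit 0)) (.slot (nat_lit 0))) (.slot (nat_lit 3))) (.col (nat_lit 0)) (.slot (nat_lit 1))) (.col (nat_lit 2)) (.col (nat_lit 0))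
def w948 : Root := .mk (.col (nat_lit 3)) (.node (.node (.node (.col (nat_lit 0)) (.node (.node (.col (nat_lit 0)) (.slot (nat_lit 1)) (.slot (nat_lit 1))) (.col (nat_lit 1)) (.slot (nat_lit 1))) (.col (nat_lit 1))) (.node (.col (nat_lit 1)) (.slot (nat_lit 0)) (.slot (nat_lit 0))) (.slot (nat_lit 3))) (.col (nat_lit 0)) (.slot (nat_lit 1))) (.col (nat_lit 2)) (.col (nat_lit 0))
def w949 : Root := .mk (.node (.node (.col (nat_lit 4)) (.col (nat_lit 0)) (.slot (nat_lit 0))) (.node (.col (nat_lit 1)) (.slot (nat_lit 1)) (.slot (nat_lit 1))) (.slot (nat_lit 2))) (.col (nat_lit 0)) (.col (nat_lit 3)) (.col (nat_lit 1))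
def w950 : Root := .mk (.col (nat_lit 4)) (.node (.node (.col (nat_lit 0)) (.node .junk (.col (nat_lit 2)) (.slot (nat_lit 1))) (.col (nat_lit 1))) (.node (.col (nat_lit 1)) (.slot (nat_lit 0)) (.slot (nat_lit 0))) (.slot (nat_lit 0))) (.col (nat_lit 0)) (.col (nat_lit 1))
def w951 : Root := .mk (.node (.node (.col (nat_lit 4)) (.col (nat_lit 0)) (.col (nat_lit 1))) (.node (.col (nat_lit 1)) (.slot (nat_lit 0)) (.slot (nat_lit 0))) (.slot (nat_lit 1))) (.col (nat_lit 0)) (.col (nat_lit 3)) (.col (nat_lit 1))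
def w952 : Root := .mk (.node (.node (.col (nat_lit 4)) (.col (nat_lit 0)) (.col (nat_lit 1))) (.node (.col (nat_lit 1)) (.slot (nat_lit 0)) (.slot (nat_lit 0))) (.slot (nat_lit 1))) (.col (nat_lit 0)) (.col (nat_lit 4)) (.col (nat_lit 1))
def w953 : Root := .mk (.col (nat_lit 4)) (.node (.node (.col (nat_lit 0)) (.slot (nat_lit 0)) (.col (nat_lit 1))) (.node (.col (nat_lit 1)) (.col (nat_lit 0)) (.slot (nat_lit 0))) (.slot (nat_lit 1))) (.col (nat_lit 0)) (.col (nat_lit 1))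
def w954 : Root := .mk (.col (nat_lit 4)) (.node (.node (.col (nat_lit 0)) (.slot (nat_lit 0)) (.col (nat_lit 1))) (.node (.col (nat_lit 1)) (.col (nat_lit 2)) (.slot (nat_lit 0))) (.slot (nat_lit 1))) (.col (nat_lit 0)) (.col (nat_lit 1))
def w955 : Root := .mk (.col (nat_lit 4)) (.node (.node (.col (nat_lit 0)) (.slot (nat_lit 0)) (.col (nat_lit 1))) (.node (.col (nat_lit 1)) (.col (nat_lit 4)) (.slot (nat_lit 0))) (.slot (nat_lit 1))) (.col (nat_lit 0)) (.col (nat_lit 1))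
def l211 : Root := .mk (.col (nat_lit 4)) (.node (.node (.col (nat_lit 0)) (.node (.col (nat_lit 1)) (.col (nat_lit 2)) (.slot (nat_lit 2))) (.col (nat_lit 1))) (.node (.col (nat_lit 1)) (.slot (nat_lit 0)) (.slot (nat_lit 0))) (.slot (nat_lit 1))) (.col (nat_lit 0)) (.col (nat_lit 1))
def w956 : Root := .mk (.node (.node (.col (nat_lit 4)) (.col (nat_lit 0)) (.slot (nat_lit 1))) (.node (.col (nat_lit 1)) (.slot (nat_lit 0)) (.slot (nat_lit 0))) (.slot (nat_lit 1))) (.col (nat_lit 0)) (.node (.col (nat_lit 1)) (.col (nat_lit 2)) (.slot (nat_lit 2))) (.col (nat_lit 1))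
def w957 : Root := .mk (.col (nat_lit 4)) (.node (.node (.col (nat_lit 0)) (.node (.node (.col (nat_lit 0)) (.slot (nat_lit 0)) (.slot (nat_lit 0))) (.col (nat_lit 2)) .junk) (.col (nat_lit 1))) (.node (.col (nat_lit 1)) (.slot (nat_lit 0)) (.slot (nat_lit 0))) (.slot (nat_lit 0))) (.col (nat_lit 0)) (.col (nat_lit 1))
def l212 : Root := .mk (.col (nat_lit 4)) (.node (.node (.col (nat_lit 0)) (.node (.node (.col (nat_lit 0)) (.slot (nat_lit 0)) (.slot (nat_lit 0))) (.col (nat_lit 2)) (.col (nat_lit 0))) (.col (nat_lit 1))) (.node (.col (nat_lit 1)) (.slot (nat_lit 3)) (.slot (nat_lit 1))) (.slot (nat_lit 2))) (.col (nat_lit 0)) (.col (nat_lit 1))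
def w958 : Root := .mk (.node (.node (.node (.col (nat_lit 4)) (.col (nat_lit 0)) (.slot (nat_lit 1))) (.node (.col (nat_lit 1)) (.slot (nat_lit 3)) (.slot (nat_lit 1))) (.slot (nat_lit 2))) (.col (nat_lit 0)) (.col (nat_lit 1))) (.node (.col (nat_lit 0)) (.slot (nat_lit 0)) (.slot (nat_lit 0))) (.col (nat_lit 2)) (.col (nat_lit 0))
def w959 : Root := .mk (.node (.slot (nat_lit 0)) (.slot (nat_lit 0)) (.col (nat_lit 3))) (.col (nat_lit 0)) (.node (.node (.col (nat_lit 0)) (.slot (nat_lit 1)) (.slot (nat_lit 0))) (.col (nat_lit 2)) (.slot (nat_lit 1))) (.col (nat_lit 1))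
def l213 : Root := .mk (.node (.node (.col (nat_lit 4)) (.col (nat_lit 0)) (.slot (nat_lit 1))) (.node (.col (nat_lit 1)) (.slot (nat_lit 3)) (.slot (nat_lit 1))) (.slot (nat_lit 2))) (.col (nat_lit 0)) (.node (.node (.col (nat_lit 0)) (.slot (nat_lit 1)) (.slot (nat_lit 1))) (.col (nat_lit 2)) (.slot (nat_lit 2))) (.col (nat_lit 1))
def w960 : Root := .mk (.node (.node (.col (nat_lit 4)) (.col (nat_lit 0)) (.slot (nat_lit 1))) (.node (.col (nat_lit 1)) (.slot (nat_lit 3)) (.slot (nat_lit 1))) (.slot (nat_lit 2))) (.col (nat_lit 0)) (.node (.node (.col (nat_lit 0)) (.slot (nat_lit 1)) (.slot (nat_lit 1))) (.slot (nat_lit 1)) (.slot (nat_lit 2))) (.col (nat_lit 1))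
def w961 : Root := .mk (.col (nat_lit 3)) (.node (.node (.node (.col (nat_lit 0)) (.node (.node (.col (nat_lit 0)) (.slot (nat_lit 1)) (.slot (nat_lit 1))) (.slot (nat_lit 2)) (.slot (nat_lit 1))) (.col (nat_lit 1))) (.node (.col (nat_lit 1)) (.slot (nat_lit 1)) (.slot (nat_lit 1))) (.slot (nat_lit 2))) (.col (nat_lit 0)) (.col (nat_lit 2))) (.col (nat_lit 2)) (.col (nat_lit 0))
def w962 : Root := .mk (.col (nat_lit 3)) (.node (.node (.node (.col (nat_lit 0)) (.node (.slot (nat_lit 0)) (.slot (nat_lit 0)) (.slot (nat_lit 0))) (.col (nat_lit 1))) (.node (.col (nat_lit 1)) (.slot (nat_lit 0)) (.slot (nat_lit 0))) (.slot (nat_lit 2))) (.col (nat_lit 0)) (.node (.col (nat_lit 0)) (.slot (nat_lit 0)) (.slot (nat_lit 0)))) (.col (nat_lit 2)) (.col (nat_lit 0))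
def w963 : Root := .mk (.col (nat_lit 3)) (.node (.node (.node (.col (nat_lit 0)) (.node (.slot (nat_lit 0)) (.slot (nat_lit 0)) (.slot (nat_lit 0))) (.col (nat_lit 1))) (.node (.col (nat_lit 1)) (.slot (nat_lit 0)) (.slot (nat_lit 0))) (.slot (nat_lit 2))) (.col (nat_lit 0)) (.node (.col (nat_lit 1)) (.slot (nat_lit 1)) (.slot (nat_lit 1)))) (.col (nat_lit 2)) (.col (nat_lit 0))
def w964 : Root := .mk (.node (.node (.node (.col (nat_lit 3)) (.col (nat_lit 2)) .junk) (.col (nat_lit 0)) (.node (.col (nat_lit 4)) (.slot (nat_lit 0)) (.slot (nat_lit 0)))) (.node (.col (nat_lit 1)) (.slot (nat_lit 1)) (.slot (nat_lit 0))) (.slot (nat_lit 1))) (.col (nat_lit 0)) (.node (.slot (nat_lit 0)) (.slot (nat_lit 0)) (.slot (nat_lit 0))) (.col (nat_lit 1))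
def w965 : Root := .mk (.col (nat_lit 3)) (.node (.node (.node (.col (nat_lit 0)) (.node (.slot (nat_lit 0)) (.slot (nat_lit 0)) (.slot (nat_lit 0))) (.col (nat_lit 1))) (.node (.col (nat_lit 1)) (.col (nat_lit 2)) (.slot (nat_lit 0))) (.slot (nat_lit 3))) (.col (nat_lit 0)) (.slot (nat_lit 1))) (.col (nat_lit 2)) (.col (nat_lit 0))
def w966 : Root := .mk (.col (nat_lit 3)) (.node (.node (.node (.col (nat_lit 0)) (.node (.slot (nat_lit 0)) (.slot (nat_lit 0)) (.slot (nat_lit 0))) (.col (nat_lit 1))) (.node (.col (nat_lit 1)) (.col (nat_lit 4)) (.slot (nat_lit 0))) (.slot (nat_lit 3))) (.col (nat_lit 0)) (.slot (nat_lit 1))) (.col (nat_lit 2)) (.col (nat_lit 0))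
def l214 : Root := .mk (.col (nat_lit 3)) (.node (.node (.node (.col (nat_lit 0)) (.node (.node (.col (nat_lit 0)) (.slot (nat_lit 1)) (.slot (nat_lit 1))) (.slot (nat_lit 7)) (.slot (nat_lit 5))) (.col (nat_lit 1))) (.node (.col (nat_lit 1)) (.slot (nat_lit 3)) (.slot (nat_lit 2))) (.slot (nat_lit 3))) (.col (nat_lit 0)) (.slot (nat_lit 4))) (.col (nat_lit 2)) (.col (nat_lit 0))
def w967 : Root := .mk (.col (nat_lit 3)) (.node (.node (.node (.col (nat_lit 0)) (.node (.node (.col (nat_lit 0)) (.slot (nat_lit 1)) (.slot (nat_lit 1))) (.slot (nat_lit 7)) (.slot (nat_lit 5))) (.slot (nat_lit 1))) (.node (.col (nat_lit 1)) (.slot (nat_lit 3)) (.slot (nat_lit 2))) (.slot (nat_lit 3))) (.col (nat_lit 0)) (.slot (nat_lit 4))) (.col (nat_lit 2)) (.col (nat_lit 0))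
def w968 : Root := .mk (.node (.node (.node (.col (nat_lit 3)) (.col (nat_lit 2)) .junk) (.col (nat_lit 0)) (.slot (nat_lit 1))) (.node (.col (nat_lit 2)) (.slot (nat_lit 1)) (.slot (nat_lit 0))) (.slot (nat_lit 1))) (.col (nat_lit 0)) (.col (nat_lit 2)) (.slot (nat_lit 1))
def w969 : Root := .mk (.node (.node (.node (.col (nat_lit 3)) (.col (nat_lit 2)) .junk) (.col (nat_lit 0)) (.slot (nat_lit 1))) (.node (.col (nat_lit 2)) (.slot (nat_lit 1)) (.slot (nat_lit 1))) (.slot (nat_lit 2))) (.col (nat_lit 0)) (.node (.slot (nat_lit 0)) (.col (nat_lit 1)) (.col (nat_lit 0))) (.col (nat_lit 4))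
def w970 : Root := .mk (.node (.node (.col (nat_lit 3)) (.col (nat_lit 2)) .junk) (.col (nat_lit 0)) (.slot (nat_lit 1))) (.col (nat_lit 1)) (.node (.col (nat_lit 2)) (.slot (nat_lit 1)) (.slot (nat_lit 1))) (.slot (nat_lit 2))
def w971 : Root := .mk (.node (.col (nat_lit 2)) (.node (.col (nat_lit 2)) (.slot (nat_lit 0)) (.slot (nat_lit 0))) (.slot (nat_lit 1))) (.col (nat_lit 0)) (.node (.node (.col (nat_lit 0)) (.slot (nat_lit 0)) (.slot (nat_lit 0))) (.col (nat_lit 1)) (.col (nat_lit 0))) (.col (nat_lit 4))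
def w972 : Root := .mk (.node (.col (nat_lit 3)) (.node (.col (nat_lit 2)) (.slot (nat_lit 1)) (.slot (nat_lit 1))) (.slot (nat_lit 2))) (.col (nat_lit 0)) (.node (.slot (nat_lit 0)) (.col (nat_lit 1)) (.col (nat_lit 0))) (.col (nat_lit 4))
def w973 : Root := .mk (.node (.node (.node (.col (nat_lit 3)) (.col (nat_lit 2)) .junk) (.col (nat_lit 0)) (.slot (nat_lit 1))) (.col (nat_lit 0)) (.slot (nat_lit 2))) (.col (nat_lit 0)) (.node (.node (.col (nat_lit 0)) (.slot (nat_lit 1)) (.slot (nat_lit 1))) (.col (nat_lit 1)) (.col (nat_lit 0))) (.col (nat_lit 4))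
def w974 : Root := .mk (.col (nat_lit 3)) (.node (.node (.node (.col (nat_lit 0)) (.node (.node (.col (nat_lit 0)) (.slot (nat_lit 0)) (.slot (nat_lit 0))) (.col (nat_lit 1)) .junk) (.col (nat_lit 4))) (.col (nat_lit 4)) (.slot (nat_lit 1))) (.col (nat_lit 0)) (.slot (nat_lit 1))) (.col (nat_lit 2)) (.col (nat_lit 0))
def w975 : Root := .mk (.node (.node (.node (.col (nat_lit 3)) (.col (nat_lit 2)) .junk) (.col (nat_lit 0)) (.slot (nat_lit 1))) (.node (.col (nat_lit 2)) (.slot (nat_lit 1)) .junk) (.col (nat_lit 0))) (.col (nat_lit 0)) (.node (.node (.col (nat_lit 0)) (.slot (nat_lit 0)) (.slot (nat_lit 0))) (.col (nat_lit 1)) .junk) (.col (nat_lit 4))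
def w976 : Root := .mk (.node (.node (.slot (nat_lit 0)) (.col (nat_lit 0)) (.slot (nat_lit 1))) (.node (.col (nat_lit 2)) (.slot (nat_lit 0)) (.slot (nat_lit 0))) (.col (nat_lit 1))) (.col (nat_lit 0)) (.node (.slot (nat_lit 0)) (.col (nat_lit 1)) (.col (nat_lit 0))) (.col (nat_lit 4))
def w977 : Root := .mk (.node (.node (.node (.col (nat_lit 3)) (.col (nat_lit 2)) .junk) (.col (nat_lit 0)) (.slot (nat_lit 1))) (.node (.col (nat_lit 2)) (.slot (nat_lit 1)) .junk) (.col (nat_lit 4))) (.col (nat_lit 0)) (.node (.node (.col (nat_lit 0)) (.slot (nat_lit 0)) (.slot (nat_lit 0))) (.col (nat_lit 1)) .junk) (.col (nat_lit 4))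
def w978 : Root := .mk (.node (.node (.node (.col (nat_lit 3)) (.col (nat_lit 2)) .junk) (.col (nat_lit 0)) (.slot (nat_lit 1))) (.node (.col (nat_lit 2)) (.slot (nat_lit 0)) (.slot (nat_lit 0))) (.node (.col (nat_lit 0)) (.slot (nat_lit 1)) (.slot (nat_lit 0)))) (.col (nat_lit 0)) (.node (.slot (nat_lit 0)) (.col (nat_lit 1)) (.col (nat_lit 0))) (.col (nat_lit 4))
def w979 : Root := .mk (.node (.col (nat_lit 1)) (.node (.col (nat_lit 2)) (.slot (nat_lit 0)) (.slot (nat_lit 0))) (.node (.col (nat_lit 1)) (.slot (nat_lit 0)) (.slot (nat_lit 0)))) (.col (nat_lit 0)) (.node (.node (.col (nat_lit 0)) (.slot (nat_lit 0)) (.slot (nat_lit 0))) (.col (nat_lit 1)) (.col (nat_lit 0))) (.col (nat_lit 4))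
def w980 : Root := .mk (.node (.node (.node (.col (nat_lit 3)) (.col (nat_lit 2)) .junk) (.col (nat_lit 0)) (.slot (nat_lit 1))) (.node (.col (nat_lit 2)) (.slot (nat_lit 0)) (.slot (nat_lit 0))) (.node (.col (nat_lit 1)) (.slot (nat_lit 0)) (.slot (nat_lit 0)))) (.col (nat_lit 0)) (.node (.node (.col (nat_lit 0)) (.slot (nat_lit 0)) (.slot (nat_lit 0))) (.col (nat_lit 1)) (.col (nat_lit 0))) (.col (nat_lit 4))
def w981 : Root := .mk (.node (.col (nat_lit 1)) (.node (.col (nat_lit 2)) (.slot (nat_lit 1)) (.slot (nat_lit 1))) (.node (.col (nat_lit 2)) (.slot (nat_lit 1)) (.slot (nat_lit 1)))) (.col (nat_lit 0)) (.slot (nat_lit 0)) (.col (nat_lit 4))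
def w982 : Root := .mk (.node (.node (.node (.col (nat_lit 3)) (.col (nat_lit 2)) .junk) (.col (nat_lit 0)) (.slot (nat_lit 1))) (.node (.col (nat_lit 2)) (.slot (nat_lit 1)) (.slot (nat_lit 1))) (.node (.col (nat_lit 2)) (.slot (nat_lit 1)) (.slot (nat_lit 1)))) (.col (nat_lit 0)) (.slot (nat_lit 0)) (.col (nat_lit 4))
def w983 : Root := .mk (.node (.col (nat_lit 1)) (.node (.col (nat_lit 2)) (.slot (nat_lit 0)) (.slot (nat_lit 0))) (.node (.col (nat_lit 3)) (.slot (nat_lit 0)) (.slot (nat_lit 0)))) (.col (nat_lit 0)) (.node (.node (.col (nat_lit 0)) (.slot (nat_lit 0)) (.slot (nat_lit 0))) (.col (nat_lit 1)) (.col (nat_lit 0))) (.col (nat_lit 4))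
def w984 : Root := .mk (.node (.node (.node (.col (nat_lit 3)) (.col (nat_lit 2)) .junk) (.col (nat_lit 0)) (.slot (nat_lit 1))) (.node (.col (nat_lit 2)) (.slot (nat_lit 0)) (.slot (nat_lit 0))) (.node (.col (nat_lit 3)) (.slot (nat_lit 0)) (.slot (nat_lit 0)))) (.col (nat_lit 0)) (.node (.node (.col (nat_lit 0)) (.slot (nat_lit 0)) (.slot (nat_lit 0))) (.col (nat_lit 1)) (.col (nat_lit 0))) (.col (nat_lit 4))
def w985 : Root := .mk (.node (.node (.node (.col (nat_lit 3)) (.col (nat_lit 2)) .junk) (.col (nat_lit 0)) (.slot (nat_lit 1))) (.node (.col (nat_lit 2)) (.slot (nat_lit 0)) (.slot (nat_lit 0))) (.node (.col (nat_lit 4)) (.slot (nat_lit 1)) (.slot (nat_lit 0)))) (.col (nat_lit 0)) (.node (.slot (nat_lit 0)) (.col (nat_lit 1)) (.col (nat_lit 0))) (.col (nat_lit 4))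
def w986 : Root := .mk (.node (.node (.node (.col (nat_lit 3)) (.col (nat_lit 2)) .junk) (.col (nat_lit 0)) (.slot (nat_lit 1))) (.node (.col (nat_lit 2)) (.slot (nat_lit 0)) (.slot (nat_lit 0))) (.node (.slot (nat_lit 0)) (.slot (nat_lit 0)) (.slot (nat_lit 0)))) (.col (nat_lit 0)) (.node (.node (.col (nat_lit 0)) (.slot (nat_lit 0)) (.slot (nat_lit 0))) (.col (nat_lit 1)) (.col (nat_lit 0))) (.col (nat_lit 4))
def w987 : Root := .mk (.node (.node (.node (.node (.col (nat_lit 3)) (.col (nat_lit 2)) .junk) (.col (nat_lit 0)) (.slot (nat_lit 1))) (.col (nat_lit 3)) (.col (nat_lit 0))) .junk (.col (nat_lit 4))) (.col (nat_lit 4)) (.col (nat_lit 1)) (.col (nat_lit 0))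
def w988 : Root := .mk (.node (.node (.node (.slot (nat_lit 0)) (.col (nat_lit 0)) (.slot (nat_lit 0))) (.col (nat_lit 3)) (.node (.col (nat_lit 0)) (.slot (nat_lit 1)) (.slot (nat_lit 0)))) (.col (nat_lit 0)) (.col (nat_lit 4))) (.col (nat_lit 4)) (.col (nat_lit 1)) (.col (nat_lit 0))
def w989 : Root := .mk (.node (.node (.node (.slot (nat_lit 0)) (.col (nat_lit 0)) (.slot (nat_lit 0))) (.col (nat_lit 3)) (.node (.col (nat_lit 4)) (.slot (nat_lit 1)) (.slot (nat_lit 0)))) (.col (nat_lit 0)) (.col (nat_lit 4))) (.col (nat_lit 4)) (.col (nat_lit 1)) (.col (nat_lit 0))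
def w990 : Root := .mk (.col (nat_lit 3)) (.node (.node (.node (.col (nat_lit 0)) (.slot (nat_lit 0)) (.col (nat_lit 4))) (.col (nat_lit 3)) (.slot (nat_lit 1))) (.col (nat_lit 0)) (.col (nat_lit 2))) (.col (nat_lit 2)) (.col (nat_lit 0))
def l215 : Root := .mk (.col (nat_lit 3)) (.node (.node (.node (.col (nat_lit 0)) (.node (.col (nat_lit 4)) (.col (nat_lit 1)) (.col (nat_lit 0))) (.col (nat_lit 4))) (.col (nat_lit 3)) (.col (nat_lit 1))) (.col (nat_lit 0)) (.col (nat_lit 3))) (.col (nat_lit 2)) (.col (nat_lit 0))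
def w991 : Root := .mk (.col (nat_lit 3)) (.node (.node (.node (.col (nat_lit 0)) (.node (.col (nat_lit 4)) (.col (nat_lit 1)) (.col (nat_lit 0))) (.col (nat_lit 4))) (.col (nat_lit 3)) (.slot (nat_lit 1))) (.col (nat_lit 0)) (.col (nat_lit 3))) (.col (nat_lit 2)) (.col (nat_lit 0))
def l216 : Root := .mk (.col (nat_lit 3)) (.node (.node (.node (.col (nat_lit 0)) (.node (.col (nat_lit 4)) (.col (nat_lit 1)) (.col (nat_lit 0))) (.col (nat_lit 4))) (.col (nat_lit 3)) (.slot (nat_lit 3))) (.col (nat_lit 0)) (.slot (nat_lit 1))) (.col (nat_lit 2)) (.col (nat_lit 0))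
def w992 : Root := .mk (.node (.node (.node (.node (.col (nat_lit 3)) (.col (nat_lit 2)) (.col (nat_lit 0))) (.col (nat_lit 0)) (.slot (nat_lit 1))) (.node (.col (nat_lit 2)) (.slot (nat_lit 0)) (.slot (nat_lit 0))) (.slot (nat_lit 3))) (.col (nat_lit 0)) (.col (nat_lit 4))) (.col (nat_lit 4)) (.col (nat_lit 1)) (.col (nat_lit 0))
def w993 : Root := .mk (.node (.node (.col (nat_lit 1)) (.col (nat_lit 0)) (.slot (nat_lit 2))) (.node (.col (nat_lit 2)) (.slot (nat_lit 0)) (.slot (nat_lit 0))) (.slot (nat_lit 2))) (.col (nat_lit 0)) (.node (.node (.col (nat_lit 0)) (.slot (nat_lit 0)) (.slot (nat_lit 0))) (.col (nat_lit 1)) .junk) (.col (nat_lit 4))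
def l217 : Root := .mk (.node (.node (.col (nat_lit 4)) (.col (nat_lit 0)) (.slot (nat_lit 1))) (.col (nat_lit 1)) (.slot (nat_lit 1))) (.col (nat_lit 0)) (.node (.node (.col (nat_lit 0)) (.slot (nat_lit 0)) (.slot (nat_lit 0))) (.col (nat_lit 1)) .junk) (.col (nat_lit 4))
def w994 : Root := .mk (.node (.node (.col (nat_lit 4)) (.col (nat_lit 0)) (.slot (nat_lit 1))) (.node (.col (nat_lit 2)) (.slot (nat_lit 0)) (.slot (nat_lit 0))) (.slot (nat_lit 1))) (.col (nat_lit 0)) (.node (.node (.col (nat_lit 0)) (.slot (nat_lit 0)) (.slot (nat_lit 0))) (.col (nat_lit 1)) .junk) (.col (nat_lit 4))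
def w995 : Root := .mk (.col (nat_lit 3)) (.node (.node (.node (.col (nat_lit 0)) (.node (.node (.col (nat_lit 0)) (.slot (nat_lit 0)) (.slot (nat_lit 0))) (.col (nat_lit 1)) .junk) (.col (nat_lit 4))) (.node (.col (nat_lit 2)) (.slot (nat_lit 1)) (.slot (nat_lit 0))) (.slot (nat_lit 1))) (.col (nat_lit 0)) (.col (nat_lit 2))) (.col (nat_lit 2)) (.col (nat_lit 0))
def w996 : Root := .mk (.node (.node (.col (nat_lit 4)) .junk (.col (nat_lit 3))) (.node (.col (nat_lit 2)) (.slot (nat_lit 0)) (.slot (nat_lit 0))) (.col (nat_lit 0))) (.col (nat_lit 0)) (.node (.node (.col (nat_lit 0)) (.slot (nat_lit 0)) (.slot (nat_lit 0))) (.col (nat_lit 1)) .junk) (.col (nat_lit 4))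
def w997 : Root := .mk (.node (.node .junk (.col (nat_lit 0)) (.col (nat_lit 3))) (.node (.col (nat_lit 2)) (.slot (nat_lit 0)) (.slot (nat_lit 0))) (.col (nat_lit 4))) (.col (nat_lit 0)) (.node (.node (.col (nat_lit 0)) (.slot (nat_lit 0)) (.slot (nat_lit 0))) (.col (nat_lit 1)) .junk) (.col (nat_lit 4))
def w998 : Root := .mk (.col (nat_lit 4)) (.node (.node (.col (nat_lit 0)) (.node (.node (.col (nat_lit 0)) (.slot (nat_lit 0)) (.slot (nat_lit 0))) (.col (nat_lit 1)) .junk) (.col (nat_lit 4))) (.node (.col (nat_lit 2)) (.slot (nat_lit 0)) (.slot (nat_lit 0))) (.slot (nat_lit 0))) (.col (nat_lit 0)) (.col (nat_lit 3))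
def w999 : Root := .mk (.node (.node (.col (nat_lit 4)) (.col (nat_lit 0)) (.col (nat_lit 3))) (.node (.col (nat_lit 2)) (.slot (nat_lit 0)) (.slot (nat_lit 0))) (.slot (nat_lit 1))) (.col (nat_lit 0)) (.col (nat_lit 2)) (.col (nat_lit 4))
def w1000 : Root := .mk (.node (.node (.col (nat_lit 4)) (.col (nat_lit 0)) (.col (nat_lit 3))) (.node (.col (nat_lit 2)) (.slot (nat_lit 0)) (.slot (nat_lit 0))) (.slot (nat_lit 1))) (.col (nat_lit 0)) (.col (nat_lit 3)) (.col (nat_lit 4))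
def w1001 : Root := .mk (.col (nat_lit 4)) (.node (.node (.col (nat_lit 0)) (.node (.node (.col (nat_lit 0)) (.slot (nat_lit 0)) (.slot (nat_lit 0))) (.col (nat_lit 1)) .junk) (.col (nat_lit 4))) (.slot (nat_lit 0)) (.slot (nat_lit 1))) (.col (nat_lit 0)) (.col (nat_lit 3))
def l218 : Root := .mk (.col (nat_lit 4)) (.node (.node (.col (nat_lit 0)) (.node (.node (.col (nat_lit 0)) (.slot (nat_lit 0)) (.slot (nat_lit 0))) (.col (nat_lit 1)) (.col (nat_lit 0))) (.col (nat_lit 4))) (.node (.col (nat_lit 2)) (.slot (nat_lit 1)) (.slot (nat_lit 1))) (.slot (nat_lit 2))) (.col (nat_lit 0)) (.col (nat_lit 3))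
def w1002 : Root := .mk (.col (nat_lit 3)) (.node (.node (.node (.col (nat_lit 0)) (.node (.node (.col (nat_lit 0)) (.slot (nat_lit 0)) (.slot (nat_lit 0))) (.col (nat_lit 1)) (.col (nat_lit 0))) (.col (nat_lit 4))) (.node (.col (nat_lit 2)) (.slot (nat_lit 1)) (.slot (nat_lit 1))) (.slot (nat_lit 2))) (.col (nat_lit 0)) (.col (nat_lit 3))) (.col (nat_lit 2)) (.col (nat_lit 0))
def w1003 : Root := .mk (.node (.node (.node (.col (nat_lit 3)) (.col (nat_lit 2)) .junk) (.col (nat_lit 0)) (.node (.col (nat_lit 0)) (.slot (nat_lit 0)) (.slot (nat_lit 0)))) (.node (.col (nat_lit 2)) (.slot (nat_lit 1)) (.slot (nat_lit 1))) (.slot (nat_lit 2))) (.col (nat_lit 0)) (.node (.slot (nat_lit 0)) (.col (nat_lit 1)) (.col (nat_lit 0))) (.col (nat_lit 4))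
def w1004 : Root := .mk (.node (.node (.node (.col (nat_lit 3)) (.col (nat_lit 2)) .junk) (.col (nat_lit 0)) (.node (.col (nat_lit 1)) (.slot (nat_lit 0)) (.slot (nat_lit 0)))) (.node (.col (nat_lit 2)) (.slot (nat_lit 1)) (.slot (nat_lit 1))) (.slot (nat_lit 2))) (.col (nat_lit 0)) (.node (.slot (nat_lit 0)) (.col (nat_lit 1)) (.col (nat_lit 0))) (.col (nat_lit 4))
def w1005 : Root := .mk (.node (.node .junk (.col (nat_lit 0)) (.col (nat_lit 1))) (.col (nat_lit 4)) (.slot (nat_lit 1))) (.col (nat_lit 0)) (.node (.node (.col (nat_lit 0)) (.slot (nat_lit 0)) (.slot (nat_lit 0))) (.col (nat_lit 1)) .junk) (.col (nat_lit 4))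
def w1006 : Root := .mk (.node (.node .junk (.col (nat_lit 0)) (.col (nat_lit 1))) (.node (.col (nat_lit 2)) (.slot (nat_lit 0)) (.slot (nat_lit 0))) (.col (nat_lit 4))) (.col (nat_lit 0)) (.node (.node (.col (nat_lit 0)) (.slot (nat_lit 0)) (.slot (nat_lit 0))) (.col (nat_lit 1)) .junk) (.col (nat_lit 4))
def l219 : Root := .mk (.node (.col (nat_lit 3)) (.col (nat_lit 2)) .junk) (.node (.node (.col (nat_lit 0)) (.node (.node (.col (nat_lit 0)) (.slot (nat_lit 0)) (.slot (nat_lit 0))) (.col (nat_lit 1)) (.col (nat_lit 0))) (.col (nat_lit 4))) (.node (.col (nat_lit 2)) (.slot (nat_lit 1)) (.slot (nat_lit 1))) (.slot (nat_lit 2))) (.col (nat_lit 0)) (.col (nat_lit 1))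
def w1007 : Root := .mk (.node (.node (.node (.col (nat_lit 3)) (.col (nat_lit 2)) .junk) (.col (nat_lit 0)) (.node (.col (nat_lit 4)) (.slot (nat_lit 0)) (.slot (nat_lit 0)))) (.node (.col (nat_lit 2)) (.slot (nat_lit 1)) (.slot (nat_lit 1))) (.slot (nat_lit 2))) (.col (nat_lit 0)) (.node (.node (.col (nat_lit 0)) (.slot (nat_lit 0)) (.slot (nat_lit 0))) (.col (nat_lit 1)) (.col (nat_lit 0))) (.col (nat_lit 4))
def w1008 : Root := .mk (.node (.node (.node (.col (nat_lit 3)) (.col (nat_lit 2)) .junk) (.col (nat_lit 0)) (.slot (nat_lit 1))) (.node (.col (nat_lit 2)) (.col (nat_lit 0)) (.slot (nat_lit 1))) (.slot (nat_lit 1))) (.col (nat_lit 0)) (.slot (nat_lit 0)) (.col (nat_lit 4))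
def w1009 : Root := .mk (.node (.node (.node (.col (nat_lit 3)) (.col (nat_lit 2)) .junk) (.col (nat_lit 0)) (.slot (nat_lit 1))) (.node (.col (nat_lit 2)) (.col (nat_lit 1)) (.slot (nat_lit 0))) (.slot (nat_lit 1))) (.col (nat_lit 0)) (.node (.node (.col (nat_lit 0)) (.slot (nat_lit 0)) (.slot (nat_lit 0))) (.col (nat_lit 1)) (.col (nat_lit 0))) (.col (nat_lit 4))
def w1010 : Root := .mk (.col (nat_lit 4)) (.node (.col (nat_lit 0)) (.node (.slot (nat_lit 0)) (.col (nat_lit 1)) (.col (nat_lit 0))) .junk) (.node (.col (nat_lit 2)) (.col (nat_lit 3)) (.node (.col (nat_lit 4)) (.slot (nat_lit 1)) .junk)) (.col (nat_lit 2))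
def l220 : Root := .mk (.node (.col (nat_lit 4)) (.node (.col (nat_lit 0)) (.node (.slot (nat_lit 0)) (.col (nat_lit 1)) (.col (nat_lit 0))) .junk) (.slot (nat_lit 1))) (.col (nat_lit 2)) (.col (nat_lit 3)) (.node (.col (nat_lit 4)) (.slot (nat_lit 2)) (.slot (nat_lit 2)))
def w1011 : Root := .mk (.node (.node (.col (nat_lit 4)) (.node (.col (nat_lit 2)) (.col (nat_lit 3)) (.slot (nat_lit 3))) (.slot (nat_lit 1))) (.col (nat_lit 0)) .junk) (.slot (nat_lit 0)) (.col (nat_lit 1)) (.col (nat_lit 0))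
def w1012 : Root := .mk (.node (.node (.node (.node (.col (nat_lit 3)) (.col (nat_lit 2)) .junk) (.col (nat_lit 0)) (.slot (nat_lit 1))) (.node (.col (nat_lit 2)) (.col (nat_lit 3)) (.slot (nat_lit 3))) (.slot (nat_lit 1))) (.col (nat_lit 0)) .junk) (.slot (nat_lit 0)) (.col (nat_lit 1)) (.col (nat_lit 0))
def w1013 : Root := .mk (.node (.node (.node (.col (nat_lit 3)) (.col (nat_lit 2)) .junk) (.col (nat_lit 0)) (.slot (nat_lit 1))) (.node (.col (nat_lit 2)) (.col (nat_lit 4)) (.slot (nat_lit 1))) (.slot (nat_lit 1))) (.col (nat_lit 0)) (.slot (nat_lit 0)) (.col (nat_lit 4))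
def l221 : Root := .mk (.col (nat_lit 3)) (.node (.node (.node (.col (nat_lit 0)) (.node (.node (.col (nat_lit 0)) (.slot (nat_lit 1)) (.slot (nat_lit 1))) (.col (nat_lit 1)) (.col (nat_lit 0))) (.col (nat_lit 4))) (.node (.col (nat_lit 2)) (.slot (nat_lit 3)) (.slot (nat_lit 3))) (.slot (nat_lit 3))) (.col (nat_lit 0)) (.slot (nat_lit 4))) (.col (nat_lit 2)) (.col (nat_lit 0))
def w1014 : Root := .mk (.col (nat_lit 3)) (.node (.node (.node (.col (nat_lit 0)) (.node (.node (.col (nat_lit 0)) (.slot (nat_lit 1)) (.slot (nat_lit 1))) (.col (nat_lit 1)) (.col (nat_lit 0))) (.slot (nat_lit 1))) (.node (.col (nat_lit 2)) (.slot (nat_lit 3)) (.slot (nat_lit 3))) (.slot (nat_lit 3))) (.col (nat_lit 0)) (.slot (nat_lit 4))) (.col (nat_lit 2)) (.col (nat_lit 0))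
def w1015 : Root := .mk (.node (.node (.slot (nat_lit 0)) (.slot (nat_lit 0)) (.slot (nat_lit 0))) (.col (nat_lit 0)) (.slot (nat_lit 1))) (.node (.col (nat_lit 0)) (.slot (nat_lit 1)) (.slot (nat_lit 1))) (.col (nat_lit 1)) (.node (.col (nat_lit 2)) (.slot (nat_lit 0)) (.slot (nat_lit 0)))
def w1016 : Root := .mk (.col (nat_lit 3)) (.node (.node (.node (.col (nat_lit 0)) (.node (.node (.col (nat_lit 0)) (.slot (nat_lit 1)) (.slot (nat_lit 1))) (.col (nat_lit 1)) (.slot (nat_lit 1))) (.col (nat_lit 1))) (.node (.col (nat_lit 2)) (.slot (nat_lit 0)) (.slot (nat_lit 0))) (.slot (nat_lit 3))) (.col (nat_lit 0)) (.slot (nat_lit 1))) (.col (nat_lit 2)) (.col (nat_lit 0))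
def w1017 : Root := .mk (.node (.node .junk (.col (nat_lit 0)) .junk) (.slot (nat_lit 0)) (.slot (nat_lit 1))) (.col (nat_lit 0)) (.node (.node (.col (nat_lit 0)) (.slot (nat_lit 1)) (.slot (nat_lit 1))) (.col (nat_lit 1)) (.slot (nat_lit 1))) (.node (.col (nat_lit 0)) (.slot (nat_lit 0)) (.slot (nat_lit 0)))
def w1018 : Root := .mk (.node (.node (.node (.node (.node (.col (nat_lit 3)) (.col (nat_lit 2)) .junk) (.col (nat_lit 0)) (.slot (nat_lit 1))) (.node (.col (nat_lit 2)) (.slot (nat_lit 1)) (.slot (nat_lit 1))) (.slot (nat_lit 2))) (.col (nat_lit 0)) (.slot (nat_lit 1))) (.col (nat_lit 1)) (.slot (nat_lit 2))) (.col (nat_lit 0)) (.col (nat_lit 1)) (.slot (nat_lit 1))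
def l222 : Root := .mk (.node (.node (.slot (nat_lit 0)) (.slot (nat_lit 0)) (.slot (nat_lit 0))) (.col (nat_lit 0)) (.slot (nat_lit 2))) (.node (.col (nat_lit 0)) (.node (.col (nat_lit 2)) (.slot (nat_lit 1)) (.slot (nat_lit 0))) (.slot (nat_lit 1))) (.col (nat_lit 1)) (.col (nat_lit 2))
def w1019 : Root := .mk (.node (.node (.node (.slot (nat_lit 0)) (.slot (nat_lit 0)) (.slot (nat_lit 0))) (.col (nat_lit 0)) (.slot (nat_lit 2))) (.col (nat_lit 1)) (.slot (nat_lit 1))) (.col (nat_lit 0)) (.node (.col (nat_lit 2)) (.slot (nat_lit 1)) (.slot (nat_lit 0))) (.slot (nat_lit 1))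
def w1020 : Root := .mk (.node (.node (.col (nat_lit 3)) (.col (nat_lit 2)) .junk) (.col (nat_lit 0)) (.slot (nat_lit 1))) (.node (.col (nat_lit 0)) (.node (.slot (nat_lit 0)) (.col (nat_lit 1)) (.slot (nat_lit 1))) (.slot (nat_lit 1))) (.node (.col (nat_lit 2)) (.slot (nat_lit 0)) (.slot (nat_lit 0))) (.col (nat_lit 1))
def w1021 : Root := .mk (.node (.node (.col (nat_lit 3)) (.col (nat_lit 2)) .junk) (.col (nat_lit 0)) (.slot (nat_lit 1))) (.node (.col (nat_lit 0)) (.node (.slot (nat_lit 0)) (.col (nat_lit 1)) (.slot (nat_lit 1))) (.slot (nat_lit 1))) (.node (.col (nat_lit 2)) (.slot (nat_lit 0)) (.slot (nat_lit 0))) (.col (nat_lit 2))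
def w1022 : Root := .mk (.node (.node (.col (nat_lit 3)) (.col (nat_lit 2)) .junk) (.col (nat_lit 0)) (.slot (nat_lit 1))) (.node (.col (nat_lit 0)) (.node (.slot (nat_lit 0)) (.col (nat_lit 1)) (.slot (nat_lit 1))) (.slot (nat_lit 1))) (.node (.col (nat_lit 2)) (.slot (nat_lit 0)) (.slot (nat_lit 0))) (.col (nat_lit 3))
def w1023 : Root := .mk (.node (.node (.col (nat_lit 3)) (.col (nat_lit 2)) .junk) (.col (nat_lit 0)) (.slot (nat_lit 1))) (.node (.col (nat_lit 0)) (.node (.slot (nat_lit 0)) (.col (nat_lit 1)) (.slot (nat_lit 1))) (.slot (nat_lit 1))) (.node (.col (nat_lit 2)) (.slot (nat_lit 0)) (.slot (nat_lit 0))) (.col (nat_lit 4))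
def l223 : Root := .mk (.col (nat_lit 3)) (.node (.node (.node (.col (nat_lit 0)) (.node (.node (.col (nat_lit 0)) (.slot (nat_lit 3)) (.slot (nat_lit 3))) (.col (nat_lit 1)) (.slot (nat_lit 2))) (.slot (nat_lit 2))) (.node (.col (nat_lit 2)) (.slot (nat_lit 3)) (.slot (nat_lit 3))) (.slot (nat_lit 3))) (.col (nat_lit 0)) (.slot (nat_lit 4))) (.col (nat_lit 2)) (.col (nat_lit 0))
def w1024 : Root := .mk (.col (nat_lit 3)) (.node (.node (.node (.col (nat_lit 0)) (.node (.node (.col (nat_lit 0)) (.slot (nat_lit 3)) (.slot (nat_lit 3))) (.slot (nat_lit 1)) (.slot (nat_lit 2))) (.slot (nat_lit 2))) (.node (.col (nat_lit 2)) (.slot (nat_lit 3)) (.slot (nat_lit 3))) (.slot (nat_lit 3))) (.col (nat_lit 0)) (.slot (nat_lit 4))) (.col (nat_lit 2)) (.col (nat_lit 0))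
def w1025 : Root := .mk (.node (.col (nat_lit 4)) (.node (.slot (nat_lit 0)) (.slot (nat_lit 0)) (.slot (nat_lit 0))) (.col (nat_lit 0))) (.col (nat_lit 0)) (.node (.node (.col (nat_lit 0)) (.node (.col (nat_lit 4)) (.slot (nat_lit 2)) (.slot (nat_lit 2))) (.slot (nat_lit 1))) (.slot (nat_lit 2)) (.slot (nat_lit 1))) (.col (nat_lit 1))
def w1026 : Root := .mk (.node (.col (nat_lit 4)) (.node (.slot (nat_lit 0)) (.slot (nat_lit 0)) (.slot (nat_lit 0))) (.col (nat_lit 0))) (.col (nat_lit 0)) (.node (.node (.col (nat_lit 0)) (.col (nat_lit 2)) (.slot (nat_lit 1))) (.slot (nat_lit 1)) (.slot (nat_lit 1))) (.col (nat_lit 1))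
def w1027 : Root := .mk (.node (.col (nat_lit 4)) (.node (.slot (nat_lit 0)) (.slot (nat_lit 0)) (.slot (nat_lit 0))) (.col (nat_lit 0))) (.col (nat_lit 0)) (.node (.node (.col (nat_lit 0)) (.slot (nat_lit 0)) (.col (nat_lit 4))) (.col (nat_lit 4)) (.slot (nat_lit 1))) (.col (nat_lit 1))
def w1028 : Root := .mk (.col (nat_lit 4)) (.node (.col (nat_lit 0)) (.node (.node (.col (nat_lit 0)) (.slot (nat_lit 0)) (.slot (nat_lit 0))) (.slot (nat_lit 1)) (.slot (nat_lit 1))) (.col (nat_lit 1))) (.node (.slot (nat_lit 0)) (.col (nat_lit 1)) (.slot (nat_lit 1))) (.col (nat_lit 0))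
def w1030 : Root := .mk (.col (nat_lit 3)) (.node (.node (.node (.col (nat_lit 0)) (.node (.col (nat_lit 4)) (.slot (nat_lit 1)) .junk) (.col (nat_lit 1))) (.col (nat_lit 4)) (.col (nat_lit 0))) .junk (.col (nat_lit 2))) (.col (nat_lit 2)) (.col (nat_lit 0))
def l224 : Root := .mk (.col (nat_lit 3)) (.node (.node (.node (.col (nat_lit 0)) (.node (.col (nat_lit 4)) (.slot (nat_lit 3)) (.slot (nat_lit 3))) (.col (nat_lit 1))) (.col (nat_lit 4)) (.col (nat_lit 0))) (.col (nat_lit 0)) (.slot (nat_lit 1))) (.col (nat_lit 2)) (.col (nat_lit 0))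
def w1031 : Root := .mk (.col (nat_lit 3)) (.node (.node (.node (.col (nat_lit 0)) (.node (.node (.col (nat_lit 0)) (.slot (nat_lit 0)) (.slot (nat_lit 0))) (.slot (nat_lit 3)) (.slot (nat_lit 3))) (.col (nat_lit 1))) (.col (nat_lit 4)) (.col (nat_lit 0))) (.col (nat_lit 0)) (.slot (nat_lit 1))) (.col (nat_lit 2)) (.col (nat_lit 0))
def w1033 : Root := .mk (.col (nat_lit 4)) (.node (.col (nat_lit 0)) (.node (.node (.col (nat_lit 0)) (.slot (nat_lit 0)) (.slot (nat_lit 0))) (.slot (nat_lit 2)) (.slot (nat_lit 2))) (.col (nat_lit 1))) (.node (.slot (nat_lit 0)) (.col (nat_lit 1)) (.col (nat_lit 0))) (.col (nat_lit 0))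
def w1035 : Root := .mk (.node (.node (.node (.col (nat_lit 3)) (.col (nat_lit 2)) .junk) (.col (nat_lit 0)) (.slot (nat_lit 1))) (.node .junk (.col (nat_lit 1)) (.col (nat_lit 2))) (.col (nat_lit 0))) (.col (nat_lit 0)) (.slot (nat_lit 0)) (.col (nat_lit 1))
def l226 : Root := .mk (.node (.col (nat_lit 4)) (.node (.slot (nat_lit 0)) (.col (nat_lit 1)) (.node (.col (nat_lit 0)) (.slot (nat_lit 0)) (.slot (nat_lit 0)))) (.col (nat_lit 0))) (.col (nat_lit 0)) (.node (.col (nat_lit 4)) (.slot (nat_lit 1)) (.slot (nat_lit 3))) (.col (nat_lit 1))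
def l227 : Root := .mk (.node (.col (nat_lit 4)) (.node (.slot (nat_lit 0)) (.col (nat_lit 1)) (.node (.col (nat_lit 1)) (.slot (nat_lit 0)) (.slot (nat_lit 0)))) (.col (nat_lit 0))) (.col (nat_lit 0)) (.node (.col (nat_lit 4)) (.slot (nat_lit 1)) (.slot (nat_lit 1))) (.col (nat_lit 1))
def w1041 : Root := .mk (.col (nat_lit 4)) (.node (.col (nat_lit 0)) (.node (.col (nat_lit 4)) (.slot (nat_lit 2)) (.slot (nat_lit 2))) (.col (nat_lit 1))) (.node (.slot (nat_lit 0)) (.col (nat_lit 1)) (.node (.col (nat_lit 2)) (.col (nat_lit 3)) (.slot (nat_lit 0)))) (.col (nat_lit 0))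
def w1042 : Root := .mk (.col (nat_lit 4)) (.node (.col (nat_lit 0)) (.node (.col (nat_lit 4)) (.slot (nat_lit 2)) (.slot (nat_lit 2))) (.col (nat_lit 1))) (.node (.slot (nat_lit 0)) (.col (nat_lit 1)) (.node (.col (nat_lit 2)) (.col (nat_lit 4)) (.slot (nat_lit 0)))) (.col (nat_lit 0))
def l228 : Root := .mk (.node (.col (nat_lit 4)) (.node (.slot (nat_lit 0)) (.col (nat_lit 1)) (.node (.col (nat_lit 2)) (.slot (nat_lit 0)) (.slot (nat_lit 0)))) (.col (nat_lit 0))) (.col (nat_lit 0)) (.node (.col (nat_lit 4)) (.slot (nat_lit 2)) (.slot (nat_lit 2))) (.col (nat_lit 1))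
def l229 : Root := .mk (.node (.col (nat_lit 4)) (.node (.slot (nat_lit 0)) (.col (nat_lit 1)) (.node (.col (nat_lit 4)) (.slot (nat_lit 0)) (.slot (nat_lit 0)))) (.col (nat_lit 0))) (.col (nat_lit 0)) (.node (.col (nat_lit 4)) (.slot (nat_lit 2)) (.slot (nat_lit 2))) (.col (nat_lit 1))
def w1045 : Root := .mk (.col (nat_lit 4)) (.node (.col (nat_lit 0)) (.node (.node (.col (nat_lit 0)) (.slot (nat_lit 0)) (.slot (nat_lit 0))) (.slot (nat_lit 2)) (.slot (nat_lit 2))) (.col (nat_lit 1))) (.node (.slot (nat_lit 0)) (.col (nat_lit 1)) (.node (.col (nat_lit 4)) (.slot (nat_lit 0)) (.slot (nat_lit 0)))) (.col (nat_lit 0))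
def w1047 : Root := .mk (.node (.node (.col (nat_lit 1)) (.col (nat_lit 0)) (.slot (nat_lit 2))) (.node (.slot (nat_lit 0)) (.col (nat_lit 1)) (.slot (nat_lit 1))) (.col (nat_lit 0))) (.col (nat_lit 0)) (.node (.node (.col (nat_lit 0)) (.slot (nat_lit 0)) (.slot (nat_lit 0))) (.col (nat_lit 2)) .junk) (.col (nat_lit 1))
def w1049 : Root := .mk (.node (.node (.col (nat_lit 4)) (.col (nat_lit 0)) (.slot (nat_lit 0))) (.node .junk (.col (nat_lit 1)) (.col (nat_lit 4))) (.col (nat_lit 0))) (.col (nat_lit 0)) (.node .junk (.col (nat_lit 2)) (.slot (nat_lit 1))) (.col (nat_lit 1))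
def w1051 : Root := .mk (.node (.slot (nat_lit 0)) (.col (nat_lit 0)) (.col (nat_lit 1))) (.node (.col (nat_lit 0)) (.node (.col (nat_lit 4)) (.slot (nat_lit 2)) (.slot (nat_lit 2))) (.slot (nat_lit 1))) (.col (nat_lit 4)) (.col (nat_lit 0))
def w1053 : Root := .mk (.node (.node (.node (.slot (nat_lit 0)) (.slot (nat_lit 0)) (.col (nat_lit 0))) .junk (.col (nat_lit 1))) (.col (nat_lit 4)) (.col (nat_lit 0))) (.col (nat_lit 0)) (.node (.col (nat_lit 4)) (.slot (nat_lit 1)) .junk) (.col (nat_lit 2))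
def w1054 : Root := .mk (.col (nat_lit 3)) (.node (.node (.node (.col (nat_lit 0)) (.node (.col (nat_lit 4)) (.slot (nat_lit 3)) (.slot (nat_lit 3))) (.col (nat_lit 1))) (.node (.slot (nat_lit 0)) (.slot (nat_lit 0)) (.slot (nat_lit 0))) (.col (nat_lit 0))) (.col (nat_lit 0)) (.slot (nat_lit 1))) (.col (nat_lit 2)) (.col (nat_lit 0))
def w1060 : Root := .mk (.col (nat_lit 3)) (.node (.node (.node (.col (nat_lit 0)) (.node (.node (.col (nat_lit 0)) (.slot (nat_lit 3)) (.slot (nat_lit 1))) (.slot (nat_lit 1)) (.slot (nat_lit 1))) (.slot (nat_lit 3))) (.node (.slot (nat_lit 0)) (.slot (nat_lit 0)) (.slot (nat_lit 0))) (.slot (nat_lit 3))) (.col (nat_lit 0)) (.slot (nat_lit 1))) (.col (nat_lit 2)) (.col (nat_lit 0))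
def w1061 : Root := .mk (.node (.node (.node (.col (nat_lit 3)) (.col (nat_lit 2)) .junk) (.col (nat_lit 0)) (.slot (nat_lit 1))) (.slot (nat_lit 1)) (.slot (nat_lit 1))) (.col (nat_lit 0)) (.node (.col (nat_lit 1)) (.slot (nat_lit 1)) (.slot (nat_lit 1))) (.slot (nat_lit 1))
def w1062 : Root := .mk (.col (nat_lit 3)) (.node (.node (.node (.col (nat_lit 0)) (.node (.col (nat_lit 2)) (.slot (nat_lit 1)) (.slot (nat_lit 1))) (.slot (nat_lit 2))) (.slot (nat_lit 3)) (.slot (nat_lit 1))) (.col (nat_lit 0)) (.slot (nat_lit 1))) (.col (nat_lit 2)) (.col (nat_lit 0))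
def w1063 : Root := .mk (.node (.node (.col (nat_lit 1)) (.slot (nat_lit 7)) (.slot (nat_lit 5))) (.col (nat_lit 0)) (.slot (nat_lit 1))) (.col (nat_lit 1)) (.col (nat_lit 0)) (.slot (nat_lit 2))
def w1064 : Root := .mk (.col (nat_lit 2)) (.node (.col (nat_lit 0)) (.node (.col (nat_lit 1)) (.slot (nat_lit 1)) (.slot (nat_lit 1))) (.node (.col (nat_lit 1)) (.slot (nat_lit 1)) (.slot (nat_lit 1)))) (.col (nat_lit 0)) (.slot (nat_lit 0))
def w1065 : Root := .mk (.node (.node (.slot (nat_lit 0)) (.col (nat_lit 0)) (.slot (nat_lit 0))) (.col (nat_lit 0)) (.node (.col (nat_lit 1)) (.slot (nat_lit 7)) (.slot (nat_lit 5)))) (.col (nat_lit 1)) (.col (nat_lit 0)) (.slot (nat_lit 2))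
def w1066 : Root := .mk (.node (.slot (nat_lit 0)) (.col (nat_lit 0)) (.slot (nat_lit 0))) (.col (nat_lit 0)) (.node (.col (nat_lit 1)) (.node (.col (nat_lit 1)) (.slot (nat_lit 0)) (.slot (nat_lit 0))) (.slot (nat_lit 2))) (.node (.col (nat_lit 1)) (.slot (nat_lit 1)) (.slot (nat_lit 1)))
def w1067 : Root := .mk (.node (.slot (nat_lit 0)) (.col (nat_lit 0)) (.slot (nat_lit 0))) (.col (nat_lit 0)) (.node (.col (nat_lit 1)) (.node (.col (nat_lit 2)) (.slot (nat_lit 1)) (.slot (nat_lit 0))) (.slot (nat_lit 1))) (.node (.col (nat_lit 1)) (.slot (nat_lit 2)) (.slot (nat_lit 2)))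
def l231 : Root := .mk (.node (.node (.node (.col (nat_lit 1)) (.slot (nat_lit 7)) (.slot (nat_lit 5))) (.col (nat_lit 0)) (.slot (nat_lit 2))) (.col (nat_lit 0)) (.slot (nat_lit 2))) (.col (nat_lit 0)) (.node (.col (nat_lit 1)) (.slot (nat_lit 7)) (.slot (nat_lit 5))) (.node (.col (nat_lit 1)) (.slot (nat_lit 7)) (.slot (nat_lit 5)))
def w1068 : Root := .mk (.node (.node (.node (.col (nat_lit 1)) (.slot (nat_lit 7)) (.slot (nat_lit 5))) (.col (nat_lit 0)) (.slot (nat_lit 2))) (.col (nat_lit 0)) (.slot (nat_lit 2))) (.col (nat_lit 0)) (.node (.col (nat_lit 1)) (.slot (nat_lit 7)) (.slot (nat_lit 5))) (.slot (nat_lit 8))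
def w1069 : Root := .mk (.node (.node (.node (.col (nat_lit 1)) (.slot (nat_lit 1)) (.slot (nat_lit 1))) (.col (nat_lit 0)) (.slot (nat_lit 2))) (.col (nat_lit 0)) (.slot (nat_lit 3))) (.col (nat_lit 0)) (.node (.col (nat_lit 1)) (.slot (nat_lit 3)) (.slot (nat_lit 1))) (.col (nat_lit 1))
def l232 : Root := .mk (.node (.node (.slot (nat_lit 0)) (.col (nat_lit 0)) (.slot (nat_lit 0))) (.col (nat_lit 0)) (.node (.col (nat_lit 1)) (.col (nat_lit 2)) (.slot (nat_lit 3)))) (.col (nat_lit 0)) (.col (nat_lit 1)) (.col (nat_lit 2))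
def w1070 : Root := .mk (.node (.node (.slot (nat_lit 0)) (.col (nat_lit 0)) (.slot (nat_lit 0))) (.col (nat_lit 0)) (.node (.col (nat_lit 1)) (.slot (nat_lit 1)) (.slot (nat_lit 3)))) (.col (nat_lit 0)) (.col (nat_lit 1)) (.col (nat_lit 2))
def w1071 : Root := .mk (.node (.node (.node (.slot (nat_lit 0)) (.col (nat_lit 0)) (.slot (nat_lit 0))) (.col (nat_lit 0)) (.slot (nat_lit 4))) (.col (nat_lit 0)) (.node (.col (nat_lit 1)) (.slot (nat_lit 7)) (.slot (nat_lit 5)))) (.col (nat_lit 0)) (.col (nat_lit 1)) (.node (.col (nat_lit 0)) (.slot (nat_lit 2)) (.slot (nat_lit 1)))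
def w1072 : Root := .mk (.node (.col (nat_lit 1)) (.col (nat_lit 0)) (.node .junk (.col (nat_lit 2)) (.slot (nat_lit 1)))) (.col (nat_lit 0)) (.col (nat_lit 3)) (.node .junk (.col (nat_lit 1)) (.node (.col (nat_lit 1)) (.slot (nat_lit 0)) (.slot (nat_lit 0))))
def w1073 : Root := .mk (.col (nat_lit 1)) (.node (.col (nat_lit 0)) (.node (.col (nat_lit 1)) (.col (nat_lit 0)) (.slot (nat_lit 2))) (.node (.col (nat_lit 0)) (.col (nat_lit 1)) (.node (.col (nat_lit 1)) (.slot (nat_lit 1)) (.slot (nat_lit 1))))) (.col (nat_lit 0)) (.node .junk (.col (nat_lit 2)) (.slot (nat_lit 1)))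
def w1074 : Root := .mk (.col (nat_lit 1)) (.node (.col (nat_lit 0)) (.node (.col (nat_lit 1)) (.col (nat_lit 2)) (.slot (nat_lit 1))) (.node (.col (nat_lit 0)) (.col (nat_lit 1)) (.node (.col (nat_lit 1)) (.slot (nat_lit 0)) (.slot (nat_lit 0))))) (.col (nat_lit 0)) (.slot (nat_lit 0))
def w1075 : Root := .mk (.col (nat_lit 3)) (.col (nat_lit 0)) (.node (.col (nat_lit 1)) (.node (.col (nat_lit 1)) (.slot (nat_lit 0)) (.slot (nat_lit 0))) (.slot (nat_lit 1))) (.node (.col (nat_lit 0)) (.col (nat_lit 1)) (.node (.col (nat_lit 1)) (.slot (nat_lit 0)) (.slot (nat_lit 0))))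
def w1076 : Root := .mk (.col (nat_lit 1)) (.node (.col (nat_lit 0)) (.node (.col (nat_lit 1)) (.node (.col (nat_lit 1)) (.slot (nat_lit 0)) (.slot (nat_lit 0))) (.slot (nat_lit 1))) (.node (.col (nat_lit 0)) (.col (nat_lit 1)) (.node (.col (nat_lit 1)) (.slot (nat_lit 0)) (.slot (nat_lit 0))))) (.col (nat_lit 0)) (.node .junk (.col (nat_lit 2)) (.slot (nat_lit 1)))
def l233 : Root := .mk (.col (nat_lit 1)) (.node (.col (nat_lit 0)) (.node (.col (nat_lit 1)) (.slot (nat_lit 3)) (.slot (nat_lit 3))) (.node (.col (nat_lit 0)) (.col (nat_lit 1)) (.node (.col (nat_lit 1)) (.slot (nat_lit 1)) (.slot (nat_lit 1))))) (.col (nat_lit 0)) (.node (.col (nat_lit 1)) (.col (nat_lit 2)) (.slot (nat_lit 1)))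
def w1077 : Root := .mk (.col (nat_lit 1)) (.node (.col (nat_lit 0)) (.node (.col (nat_lit 1)) (.slot (nat_lit 3)) (.slot (nat_lit 3))) (.node (.col (nat_lit 0)) (.col (nat_lit 1)) (.node (.col (nat_lit 1)) (.slot (nat_lit 1)) (.slot (nat_lit 1))))) (.col (nat_lit 0)) (.node (.col (nat_lit 1)) (.slot (nat_lit 1)) (.slot (nat_lit 1)))
def w1078 : Root := .mk (.col (nat_lit 1)) (.node (.col (nat_lit 0)) (.node (.col (nat_lit 1)) (.slot (nat_lit 3)) (.slot (nat_lit 1))) (.node (.col (nat_lit 0)) (.col (nat_lit 1)) (.slot (nat_lit 0)))) (.col (nat_lit 0)) (.node (.slot (nat_lit 0)) (.col (nat_lit 2)) (.node (.col (nat_lit 0)) (.slot (nat_lit 0)) (.slot (nat_lit 0))))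
def w1079 : Root := .mk (.col (nat_lit 1)) (.node (.col (nat_lit 0)) (.node (.col (nat_lit 1)) (.slot (nat_lit 2)) (.slot (nat_lit 2))) (.node (.col (nat_lit 0)) (.col (nat_lit 1)) (.slot (nat_lit 0)))) (.col (nat_lit 0)) (.node (.slot (nat_lit 0)) (.col (nat_lit 2)) (.node (.col (nat_lit 1)) (.slot (nat_lit 0)) (.slot (nat_lit 0))))
def w1080 : Root := .mk (.col (nat_lit 1)) (.node (.col (nat_lit 0)) (.node (.col (nat_lit 1)) (.slot (nat_lit 1)) (.slot (nat_lit 1))) (.node (.col (nat_lit 0)) (.col (nat_lit 1)) (.slot (nat_lit 0)))) (.col (nat_lit 0)) (.node (.slot (nat_lit 0)) (.col (nat_lit 2)) (.node (.col (nat_lit 2)) (.slot (nat_lit 0)) (.slot (nat_lit 0))))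
def w1081 : Root := .mk (.col (nat_lit 1)) (.node (.col (nat_lit 0)) (.node (.col (nat_lit 1)) (.slot (nat_lit 2)) (.slot (nat_lit 2))) (.node (.col (nat_lit 0)) (.col (nat_lit 1)) (.slot (nat_lit 0)))) (.col (nat_lit 0)) (.node (.slot (nat_lit 0)) (.col (nat_lit 2)) (.node (.col (nat_lit 3)) (.slot (nat_lit 0)) (.slot (nat_lit 0))))
def l234 : Root := .mk (.col (nat_lit 1)) (.node (.col (nat_lit 0)) (.node (.col (nat_lit 1)) (.slot (nat_lit 3)) (.slot (nat_lit 3))) (.node (.col (nat_lit 0)) (.col (nat_lit 1)) (.node (.col (nat_lit 1)) (.slot (nat_lit 1)) (.slot (nat_lit 1))))) (.col (nat_lit 0)) (.node (.slot (nat_lit 0)) (.col (nat_lit 2)) (.slot (nat_lit 1)))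
def w1082 : Root := .mk (.col (nat_lit 1)) (.node (.col (nat_lit 0)) (.node (.col (nat_lit 1)) (.slot (nat_lit 3)) (.slot (nat_lit 3))) (.node (.col (nat_lit 0)) (.col (nat_lit 1)) (.node (.col (nat_lit 1)) (.slot (nat_lit 1)) (.slot (nat_lit 1))))) (.col (nat_lit 0)) (.node (.slot (nat_lit 0)) (.slot (nat_lit 1)) (.slot (nat_lit 1)))
def l235 : Root := .mk (.node (.node (.col (nat_lit 1)) (.col (nat_lit 0)) (.slot (nat_lit 1))) (.col (nat_lit 0)) (.node (.col (nat_lit 0)) (.col (nat_lit 1)) (.node (.col (nat_lit 1)) (.slot (nat_lit 0)) (.slot (nat_lit 0))))) (.col (nat_lit 1)) (.node (.col (nat_lit 0)) (.slot (nat_lit 1)) (.slot (nat_lit 1))) (.col (nat_lit 2))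
def w1083 : Root := .mk (.node (.node (.col (nat_lit 1)) (.col (nat_lit 0)) (.slot (nat_lit 1))) (.col (nat_lit 0)) (.node (.col (nat_lit 1)) (.node (.col (nat_lit 0)) (.slot (nat_lit 1)) (.slot (nat_lit 1))) (.slot (nat_lit 1)))) (.col (nat_lit 0)) (.col (nat_lit 1)) (.node (.col (nat_lit 1)) (.slot (nat_lit 0)) (.slot (nat_lit 0)))
def l236 : Root := .mk (.col (nat_lit 1)) (.node (.col (nat_lit 0)) (.node (.col (nat_lit 1)) (.node (.col (nat_lit 1)) (.slot (nat_lit 0)) (.slot (nat_lit 0))) (.slot (nat_lit 3))) (.node (.col (nat_lit 0)) (.col (nat_lit 1)) (.node (.col (nat_lit 1)) (.slot (nat_lit 1)) (.slot (nat_lit 1))))) (.col (nat_lit 0)) (.node (.col (nat_lit 2)) (.slot (nat_lit 3)) (.slot (nat_lit 3)))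
def w1084 : Root := .mk (.node (.node (.col (nat_lit 1)) (.col (nat_lit 0)) (.slot (nat_lit 4))) (.col (nat_lit 0)) (.node (.col (nat_lit 1)) (.node (.col (nat_lit 1)) (.slot (nat_lit 0)) (.slot (nat_lit 0))) (.slot (nat_lit 3)))) (.col (nat_lit 0)) (.col (nat_lit 1)) (.node (.col (nat_lit 1)) (.slot (nat_lit 1)) (.slot (nat_lit 1)))
def w1086 : Root := .mk (.col (nat_lit 2)) (.col (nat_lit 0)) (.node (.col (nat_lit 1)) (.node (.slot (nat_lit 0)) (.col (nat_lit 2)) (.col (nat_lit 1))) (.slot (nat_lit 1))) (.node (.col (nat_lit 0)) (.col (nat_lit 1)) (.node (.col (nat_lit 1)) (.slot (nat_lit 0)) (.slot (nat_lit 0))))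
def w1087 : Root := .mk (.col (nat_lit 3)) (.col (nat_lit 0)) (.node (.col (nat_lit 1)) (.node (.slot (nat_lit 0)) (.col (nat_lit 2)) (.col (nat_lit 1))) (.slot (nat_lit 1))) (.node (.col (nat_lit 0)) (.col (nat_lit 1)) (.node (.col (nat_lit 1)) (.slot (nat_lit 0)) (.slot (nat_lit 0))))
def w1091 : Root := .mk (.col (nat_lit 2)) (.col (nat_lit 0)) (.node (.col (nat_lit 1)) (.node .junk (.col (nat_lit 2)) (.node (.col (nat_lit 0)) (.slot (nat_lit 0)) (.slot (nat_lit 0)))) (.col (nat_lit 0))) (.node .junk (.col (nat_lit 1)) (.node (.col (nat_lit 1)) (.slot (nat_lit 0)) (.slot (nat_lit 0))))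
def w1092 : Root := .mk (.col (nat_lit 3)) (.col (nat_lit 0)) (.node (.col (nat_lit 1)) (.node (.slot (nat_lit 0)) (.col (nat_lit 2)) (.slot (nat_lit 0))) (.slot (nat_lit 1))) (.node (.col (nat_lit 0)) (.col (nat_lit 1)) (.node (.col (nat_lit 1)) (.slot (nat_lit 0)) (.slot (nat_lit 0))))
def w1093 : Root := .mk (.col (nat_lit 1)) (.node (.col (nat_lit 0)) (.node (.col (nat_lit 1)) (.node (.slot (nat_lit 0)) (.col (nat_lit 2)) (.slot (nat_lit 0))) (.slot (nat_lit 1))) (.node (.col (nat_lit 0)) (.col (nat_lit 1)) (.node (.col (nat_lit 1)) (.slot (nat_lit 0)) (.slot (nat_lit 0))))) (.col (nat_lit 0)) (.node (.col (nat_lit 2)) .junk (.slot (nat_lit 1)))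
def l240 : Root := .mk (.node (.col (nat_lit 1)) (.col (nat_lit 0)) (.slot (nat_lit 1))) (.col (nat_lit 0)) (.node (.col (nat_lit 1)) (.node (.slot (nat_lit 0)) (.col (nat_lit 2)) (.slot (nat_lit 0))) (.col (nat_lit 2))) (.col (nat_lit 3))
def w1095 : Root := .mk (.node (.node (.col (nat_lit 1)) (.col (nat_lit 0)) (.slot (nat_lit 1))) (.col (nat_lit 0)) (.node (.col (nat_lit 0)) (.col (nat_lit 1)) (.slot (nat_lit 0)))) (.col (nat_lit 1)) (.node (.slot (nat_lit 0)) (.col (nat_lit 2)) (.slot (nat_lit 0))) (.col (nat_lit 2))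
def l241 : Root := .mk (.node (.col (nat_lit 3)) (.col (nat_lit 0)) (.node (.col (nat_lit 0)) (.col (nat_lit 1)) (.node (.col (nat_lit 1)) (.slot (nat_lit 0)) (.slot (nat_lit 0))))) (.col (nat_lit 1)) (.col (nat_lit 4)) (.node (.col (nat_lit 1)) (.slot (nat_lit 0)) (.slot (nat_lit 0)))
def w1098 : Root := .mk (.col (nat_lit 3)) (.col (nat_lit 0)) (.node (.col (nat_lit 1)) (.node (.slot (nat_lit 0)) (.col (nat_lit 2)) (.slot (nat_lit 0))) (.node (.col (nat_lit 1)) (.slot (nat_lit 0)) (.slot (nat_lit 0)))) (.node (.col (nat_lit 0)) (.col (nat_lit 1)) (.node (.col (nat_lit 1)) (.slot (nat_lit 0)) (.slot (nat_lit 0))))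
def w1099 : Root := .mk (.col (nat_lit 3)) (.col (nat_lit 0)) (.node (.col (nat_lit 1)) (.node (.slot (nat_lit 0)) (.col (nat_lit 2)) (.slot (nat_lit 1))) (.node (.col (nat_lit 2)) (.slot (nat_lit 1)) (.slot (nat_lit 1)))) (.node (.col (nat_lit 0)) (.col (nat_lit 1)) (.slot (nat_lit 0)))
def l242 : Root := .mk (.node (.col (nat_lit 3)) (.col (nat_lit 0)) (.node (.col (nat_lit 0)) (.col (nat_lit 1)) (.node (.col (nat_lit 1)) (.slot (nat_lit 0)) (.slot (nat_lit 0))))) (.col (nat_lit 1)) (.col (nat_lit 4)) (.node (.col (nat_lit 4)) (.slot (nat_lit 0)) (.slot (nat_lit 0)))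
def w1100 : Root := .mk (.col (nat_lit 3)) (.col (nat_lit 0)) (.node (.col (nat_lit 1)) (.node (.slot (nat_lit 0)) (.col (nat_lit 2)) (.slot (nat_lit 0))) (.node (.col (nat_lit 4)) (.slot (nat_lit 0)) (.slot (nat_lit 0)))) (.node (.col (nat_lit 0)) (.col (nat_lit 1)) (.node (.col (nat_lit 1)) (.slot (nat_lit 0)) (.slot (nat_lit 0))))
def w1101 : Root := .mk (.node (.slot (nat_lit 0)) (.col (nat_lit 0)) (.col (nat_lit 1))) (.col (nat_lit 1)) (.node (.col (nat_lit 0)) (.col (nat_lit 2)) (.slot (nat_lit 4))) (.col (nat_lit 2))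
def w1104 : Root := .mk (.node (.node (.col (nat_lit 1)) (.col (nat_lit 0)) (.slot (nat_lit 2))) (.col (nat_lit 0)) (.node (.col (nat_lit 1)) (.node (.slot (nat_lit 0)) (.slot (nat_lit 0)) (.slot (nat_lit 0))) (.slot (nat_lit 0)))) (.col (nat_lit 0)) (.col (nat_lit 1)) (.node .junk (.col (nat_lit 2)) (.node (.col (nat_lit 1)) (.slot (nat_lit 0)) (.slot (nat_lit 0))))
def l244 : Root := .mk (.node (.node (.col (nat_lit 1)) (.col (nat_lit 0)) (.slot (nat_lit 4))) (.col (nat_lit 0)) (.node (.col (nat_lit 1)) (.node (.slot (nat_lit 0)) (.slot (nat_lit 0)) (.slot (nat_lit 0))) (.slot (nat_lit 3)))) (.col (nat_lit 0)) (.col (nat_lit 1)) (.node (.col (nat_lit 1)) (.col (nat_lit 2)) (.slot (nat_lit 2)))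
def w1105 : Root := .mk (.node (.node (.col (nat_lit 1)) (.col (nat_lit 0)) (.slot (nat_lit 4))) (.col (nat_lit 0)) (.node (.col (nat_lit 1)) (.node (.slot (nat_lit 0)) (.slot (nat_lit 0)) (.slot (nat_lit 0))) (.slot (nat_lit 3)))) (.col (nat_lit 0)) (.col (nat_lit 1)) (.node (.col (nat_lit 1)) (.slot (nat_lit 1)) (.slot (nat_lit 2)))
def l245 : Root := .mk (.node (.node (.col (nat_lit 1)) (.col (nat_lit 0)) (.slot (nat_lit 4))) (.col (nat_lit 0)) (.node (.col (nat_lit 1)) (.slot (nat_lit 7)) (.slot (nat_lit 5)))) (.col (nat_lit 0)) (.col (nat_lit 1)) (.node (.col (nat_lit 1)) (.slot (nat_lit 2)) (.slot (nat_lit 1)))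
def w1106 : Root := .mk (.node (.node (.node (.slot (nat_lit 0)) (.col (nat_lit 0)) (.slot (nat_lit 0))) (.col (nat_lit 0)) (.slot (nat_lit 4))) (.col (nat_lit 0)) (.node (.col (nat_lit 1)) (.slot (nat_lit 7)) (.slot (nat_lit 5)))) (.col (nat_lit 0)) (.col (nat_lit 1)) (.node (.col (nat_lit 1)) (.slot (nat_lit 2)) (.slot (nat_lit 1)))
def l246 : Root := .mk (.node (.node (.node (.node (.col (nat_lit 1)) (.slot (nat_lit 7)) (.slot (nat_lit 5))) (.col (nat_lit 0)) (.node (.col (nat_lit 1)) (.slot (nat_lit 7)) (.slot (nat_lit 5)))) (.col (nat_lit 0)) (.slot (nat_lit 2))) (.col (nat_lit 0)) (.node (.col (nat_lit 1)) (.slot (nat_lit 7)) (.slot (nat_lit 5)))) (.col (nat_lit 0)) (.col (nat_lit 1)) (.node (.slot (nat_lit 0)) (.slot (nat_lit 0)) (.slot (nat_lit 0)))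
def w1107 : Root := .mk (.node (.node (.node (.node (.col (nat_lit 1)) (.slot (nat_lit 7)) (.slot (nat_lit 5))) (.col (nat_lit 0)) (.slot (nat_lit 8))) (.col (nat_lit 0)) (.slot (nat_lit 2))) (.col (nat_lit 0)) (.node (.col (nat_lit 1)) (.slot (nat_lit 7)) (.slot (nat_lit 5)))) (.col (nat_lit 0)) (.col (nat_lit 1)) (.node (.slot (nat_lit 0)) (.slot (nat_lit 0)) (.slot (nat_lit 0)))
def w1108 : Root := .mk (.slot (nat_lit 0)) (.node (.col (nat_lit 0)) (.node (.col (nat_lit 1)) (.slot (nat_lit 7)) (.slot (nat_lit 5))) (.node (.col (nat_lit 0)) (.col (nat_lit 1)) (.slot (nat_lit 2)))) (.col (nat_lit 0)) (.col (nat_lit 2))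
def w1109 : Root := .mk (.node (.node (.slot (nat_lit 0)) (.col (nat_lit 0)) (.slot (nat_lit 0))) (.col (nat_lit 0)) (.node (.col (nat_lit 0)) (.col (nat_lit 1)) (.slot (nat_lit 3)))) (.col (nat_lit 1)) (.col (nat_lit 0)) (.slot (nat_lit 3))
def w1110 : Root := .mk (.col (nat_lit 1)) (.node (.col (nat_lit 0)) (.node (.col (nat_lit 1)) (.slot (nat_lit 0)) (.slot (nat_lit 0))) (.node (.col (nat_lit 0)) (.col (nat_lit 1)) (.slot (nat_lit 3)))) (.col (nat_lit 0)) (.slot (nat_lit 3))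
def w1111 : Root := .mk (.node (.node (.col (nat_lit 1)) (.col (nat_lit 0)) (.slot (nat_lit 0))) (.col (nat_lit 0)) (.node (.col (nat_lit 0)) (.col (nat_lit 1)) (.slot (nat_lit 1)))) (.col (nat_lit 1)) (.node (.col (nat_lit 1)) (.slot (nat_lit 0)) (.slot (nat_lit 0))) (.col (nat_lit 3))
def l247 : Root := .mk (.node (.col (nat_lit 1)) (.col (nat_lit 0)) (.node (.slot (nat_lit 0)) (.col (nat_lit 2)) (.col (nat_lit 0)))) (.col (nat_lit 0)) (.node (.col (nat_lit 1)) (.col (nat_lit 4)) (.slot (nat_lit 1))) (.col (nat_lit 3))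
def w1112 : Root := .mk (.node (.col (nat_lit 1)) (.col (nat_lit 0)) (.node (.slot (nat_lit 0)) (.col (nat_lit 2)) (.col (nat_lit 0)))) (.col (nat_lit 0)) (.node (.col (nat_lit 1)) (.node (.col (nat_lit 1)) (.slot (nat_lit 0)) (.slot (nat_lit 0))) (.slot (nat_lit 1))) (.col (nat_lit 3))
def w1113 : Root := .mk (.node (.node (.col (nat_lit 1)) (.col (nat_lit 0)) (.node (.slot (nat_lit 0)) (.col (nat_lit 2)) (.col (nat_lit 0)))) (.col (nat_lit 0)) (.node (.col (nat_lit 1)) (.node (.col (nat_lit 1)) (.slot (nat_lit 0)) (.slot (nat_lit 0))) (.slot (nat_lit 1)))) (.col (nat_lit 0)) (.col (nat_lit 1)) (.node (.col (nat_lit 2)) .junk (.slot (nat_lit 1)))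
def l248 : Root := .mk (.node (.node (.col (nat_lit 1)) (.col (nat_lit 0)) (.node (.slot (nat_lit 0)) (.col (nat_lit 2)) (.col (nat_lit 0)))) (.col (nat_lit 0)) (.node (.col (nat_lit 1)) (.node (.col (nat_lit 1)) (.slot (nat_lit 0)) (.slot (nat_lit 0))) (.slot (nat_lit 3)))) (.col (nat_lit 0)) (.col (nat_lit 1)) (.node (.col (nat_lit 2)) (.slot (nat_lit 3)) (.slot (nat_lit 3)))
def w1114 : Root := .mk (.col (nat_lit 1)) (.node (.col (nat_lit 0)) (.node (.col (nat_lit 1)) (.node (.col (nat_lit 1)) (.slot (nat_lit 0)) (.slot (nat_lit 0))) (.slot (nat_lit 3))) (.node (.col (nat_lit 0)) (.col (nat_lit 1)) (.slot (nat_lit 4)))) (.col (nat_lit 0)) (.node (.slot (nat_lit 0)) (.col (nat_lit 2)) (.col (nat_lit 0)))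
def l249 : Root := .mk (.node (.col (nat_lit 1)) (.col (nat_lit 0)) (.node (.slot (nat_lit 0)) (.col (nat_lit 2)) (.col (nat_lit 1)))) (.col (nat_lit 0)) (.node (.col (nat_lit 1)) (.col (nat_lit 4)) (.slot (nat_lit 1))) (.col (nat_lit 3))
def w1115 : Root := .mk (.node (.col (nat_lit 1)) (.col (nat_lit 0)) (.node (.slot (nat_lit 0)) (.col (nat_lit 2)) (.col (nat_lit 1)))) (.col (nat_lit 0)) (.node (.col (nat_lit 1)) (.node (.col (nat_lit 1)) (.slot (nat_lit 0)) (.slot (nat_lit 0))) (.slot (nat_lit 1))) (.col (nat_lit 3))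
def w1116 : Root := .mk (.node (.node (.col (nat_lit 1)) (.col (nat_lit 0)) (.node (.slot (nat_lit 0)) (.col (nat_lit 2)) (.col (nat_lit 1)))) (.col (nat_lit 0)) (.node (.col (nat_lit 1)) (.node (.col (nat_lit 1)) (.slot (nat_lit 0)) (.slot (nat_lit 0))) (.slot (nat_lit 1)))) (.col (nat_lit 0)) (.col (nat_lit 1)) (.node (.col (nat_lit 2)) .junk (.slot (nat_lit 1)))
def l250 : Root := .mk (.node (.node (.col (nat_lit 1)) (.col (nat_lit 0)) (.node (.slot (nat_lit 0)) (.col (nat_lit 2)) (.col (nat_lit 1)))) (.col (nat_lit 0)) (.node (.col (nat_lit 1)) (.node (.col (nat_lit 1)) (.slot (nat_lit 0)) (.slot (nat_lit 0))) (.slot (nat_lit 3)))) (.col (nat_lit 0)) (.col (nat_lit 1)) (.node (.col (nat_lit 2)) (.slot (nat_lit 3)) (.slot (nat_lit 3)))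
def w1117 : Root := .mk (.col (nat_lit 1)) (.node (.col (nat_lit 0)) (.node (.col (nat_lit 1)) (.node (.col (nat_lit 1)) (.slot (nat_lit 0)) (.slot (nat_lit 0))) (.slot (nat_lit 3))) (.node (.col (nat_lit 0)) (.col (nat_lit 1)) (.slot (nat_lit 4)))) (.col (nat_lit 0)) (.node (.slot (nat_lit 0)) (.col (nat_lit 2)) (.col (nat_lit 1)))
def w1118 : Root := .mk (.col (nat_lit 1)) (.node (.col (nat_lit 0)) (.node (.col (nat_lit 1)) (.node (.col (nat_lit 1)) (.slot (nat_lit 0)) (.slot (nat_lit 0))) (.slot (nat_lit 1))) (.node (.col (nat_lit 0)) (.col (nat_lit 1)) (.slot (nat_lit 1)))) (.col (nat_lit 0)) (.node .junk (.col (nat_lit 2)) (.node (.col (nat_lit 2)) (.slot (nat_lit 0)) (.slot (nat_lit 0))))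
def w1119 : Root := .mk (.col (nat_lit 1)) (.node (.col (nat_lit 0)) (.node (.col (nat_lit 1)) (.node (.col (nat_lit 1)) (.slot (nat_lit 0)) (.slot (nat_lit 0))) (.slot (nat_lit 1))) (.node (.col (nat_lit 0)) (.col (nat_lit 1)) (.slot (nat_lit 1)))) (.col (nat_lit 0)) (.node .junk (.col (nat_lit 2)) (.node (.col (nat_lit 3)) (.slot (nat_lit 0)) (.slot (nat_lit 0))))
def w1120 : Root := .mk (.col (nat_lit 3)) (.col (nat_lit 0)) (.node (.col (nat_lit 1)) (.node (.col (nat_lit 1)) (.slot (nat_lit 0)) (.slot (nat_lit 0))) (.slot (nat_lit 0))) (.node (.col (nat_lit 0)) (.col (nat_lit 1)) (.slot (nat_lit 2)))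
def w1121 : Root := .mk (.col (nat_lit 1)) (.node (.col (nat_lit 0)) (.node (.col (nat_lit 1)) (.node (.col (nat_lit 1)) (.slot (nat_lit 0)) (.slot (nat_lit 0))) (.slot (nat_lit 0))) (.node (.col (nat_lit 0)) (.col (nat_lit 1)) (.slot (nat_lit 2)))) (.col (nat_lit 0)) (.node .junk (.col (nat_lit 2)) (.slot (nat_lit 1)))
def w1122 : Root := .mk (.node (.node (.col (nat_lit 1)) (.col (nat_lit 0)) (.node .junk (.col (nat_lit 2)) (.slot (nat_lit 1)))) (.col (nat_lit 0)) (.node (.col (nat_lit 1)) (.node (.col (nat_lit 1)) (.slot (nat_lit 0)) (.slot (nat_lit 0))) (.slot (nat_lit 1)))) (.col (nat_lit 0)) (.col (nat_lit 1)) (.node (.slot (nat_lit 0)) (.slot (nat_lit 0)) (.slot (nat_lit 0)))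
def l251 : Root := .mk (.col (nat_lit 1)) (.node (.col (nat_lit 0)) (.node (.col (nat_lit 1)) (.node (.col (nat_lit 1)) (.slot (nat_lit 1)) (.slot (nat_lit 1))) (.slot (nat_lit 3))) (.node (.col (nat_lit 0)) (.col (nat_lit 1)) (.slot (nat_lit 4)))) (.col (nat_lit 0)) (.node (.slot (nat_lit 0)) (.col (nat_lit 2)) (.slot (nat_lit 1)))
def w1123 : Root := .mk (.col (nat_lit 1)) (.node (.col (nat_lit 0)) (.node (.col (nat_lit 1)) (.node (.col (nat_lit 1)) (.slot (nat_lit 1)) (.slot (nat_lit 1))) (.slot (nat_lit 3))) (.node (.col (nat_lit 0)) (.col (nat_lit 1)) (.slot (nat_lit 4)))) (.col (nat_lit 0)) (.node (.slot (nat_lit 0)) (.slot (nat_lit 1)) (.slot (nat_lit 1)))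
def l252 : Root := .mk (.col (nat_lit 1)) (.node (.col (nat_lit 0)) (.node (.col (nat_lit 1)) (.node (.col (nat_lit 1)) (.slot (nat_lit 1)) (.slot (nat_lit 1))) (.slot (nat_lit 3))) (.node (.col (nat_lit 0)) (.col (nat_lit 1)) (.slot (nat_lit 4)))) (.col (nat_lit 0)) (.slot (nat_lit 4))
def w1124 : Root := .mk (.node (.node (.slot (nat_lit 0)) (.col (nat_lit 0)) (.slot (nat_lit 0))) (.col (nat_lit 0)) (.slot (nat_lit 4))) (.col (nat_lit 0)) (.node (.col (nat_lit 1)) (.node (.col (nat_lit 1)) (.slot (nat_lit 1)) (.slot (nat_lit 1))) (.slot (nat_lit 3))) (.node (.col (nat_lit 0)) (.col (nat_lit 1)) (.slot (nat_lit 4)))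
def w1125 : Root := .mk (.node (.slot (nat_lit 0)) (.col (nat_lit 0)) (.slot (nat_lit 0))) (.col (nat_lit 0)) (.node (.col (nat_lit 1)) (.node (.col (nat_lit 2)) (.slot (nat_lit 1)) (.slot (nat_lit 0))) (.slot (nat_lit 2))) (.node (.col (nat_lit 0)) (.col (nat_lit 1)) (.slot (nat_lit 3)))
def l253 : Root := .mk (.node (.col (nat_lit 1)) (.slot (nat_lit 7)) (.slot (nat_lit 5))) (.col (nat_lit 0)) (.node (.node (.col (nat_lit 0)) (.node (.col (nat_lit 1)) (.node (.slot (nat_lit 0)) (.slot (nat_lit 0)) (.slot (nat_lit 0))) (.slot (nat_lit 1))) (.node (.col (nat_lit 0)) (.col (nat_lit 1)) (.slot (nat_lit 3)))) (.col (nat_lit 0)) (.slot (nat_lit 3))) (.node (.col (nat_lit 1)) (.slot (nat_lit 7)) (.slot (nat_lit 5)))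
def w1126 : Root := .mk (.node (.node (.node (.col (nat_lit 1)) (.slot (nat_lit 7)) (.slot (nat_lit 5))) (.col (nat_lit 0)) (.slot (nat_lit 8))) (.col (nat_lit 0)) (.slot (nat_lit 3))) (.col (nat_lit 0)) (.node (.col (nat_lit 1)) (.node (.slot (nat_lit 0)) (.slot (nat_lit 0)) (.slot (nat_lit 0))) (.slot (nat_lit 1))) (.node (.col (nat_lit 0)) (.col (nat_lit 1)) (.slot (nat_lit 3)))
def l254 : Root := .mk (.node (.node (.node (.node (.col (nat_lit 1)) (.slot (nat_lit 7)) (.slot (nat_lit 5))) (.col (nat_lit 0)) (.slot (nat_lit 8))) (.col (nat_lit 0)) (.slot (nat_lit 4))) (.col (nat_lit 0)) (.node (.col (nat_lit 1)) (.slot (nat_lit 7)) (.slot (nat_lit 5)))) (.col (nat_lit 0)) (.col (nat_lit 1)) (.slot (nat_lit 4))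
def w1127 : Root := .mk (.node (.node (.node (.col (nat_lit 1)) (.slot (nat_lit 7)) (.slot (nat_lit 5))) (.col (nat_lit 0)) (.slot (nat_lit 8))) (.col (nat_lit 0)) (.slot (nat_lit 4))) (.col (nat_lit 0)) (.node (.col (nat_lit 1)) (.slot (nat_lit 7)) (.slot (nat_lit 5))) (.node (.col (nat_lit 0)) (.slot (nat_lit 1)) (.slot (nat_lit 4)))
def w1128 : Root := .mk (.col (nat_lit 3)) (.node (.col (nat_lit 0)) (.node (.col (nat_lit 1)) (.col (nat_lit 2)) (.slot (nat_lit 1))) (.node (.col (nat_lit 2)) (.slot (nat_lit 1)) (.slot (nat_lit 0)))) (.col (nat_lit 0)) (.slot (nat_lit 0))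
def w1129 : Root := .mk (.node (.node (.slot (nat_lit 0)) (.col (nat_lit 0)) (.slot (nat_lit 0))) (.col (nat_lit 0)) (.node (.col (nat_lit 1)) (.col (nat_lit 2)) (.slot (nat_lit 1)))) (.col (nat_lit 2)) (.col (nat_lit 3)) (.slot (nat_lit 1))
def l255 : Root := .mk (.node (.node (.node (.node (.col (nat_lit 1)) (.slot (nat_lit 1)) (.slot (nat_lit 1))) (.col (nat_lit 0)) (.slot (nat_lit 1))) (.col (nat_lit 0)) (.slot (nat_lit 3))) (.col (nat_lit 0)) (.node (.col (nat_lit 2)) (.slot (nat_lit 3)) (.slot (nat_lit 1)))) (.col (nat_lit 1)) (.col (nat_lit 2)) (.slot (nat_lit 3))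
def w1130 : Root := .mk (.node (.node (.node (.col (nat_lit 1)) (.slot (nat_lit 1)) (.slot (nat_lit 1))) (.col (nat_lit 0)) (.slot (nat_lit 1))) (.col (nat_lit 0)) (.slot (nat_lit 3))) (.col (nat_lit 0)) (.node (.col (nat_lit 1)) (.slot (nat_lit 1)) (.slot (nat_lit 3))) (.node (.col (nat_lit 2)) (.slot (nat_lit 3)) (.slot (nat_lit 1)))
def l256 : Root := .mk (.node (.node (.node .junk (.col (nat_lit 2)) (.slot (nat_lit 1))) (.col (nat_lit 0)) (.col (nat_lit 1))) (.col (nat_lit 0)) (.col (nat_lit 1))) (.col (nat_lit 0)) (.node (.col (nat_lit 1)) (.slot (nat_lit 1)) (.slot (nat_lit 1))) (.col (nat_lit 3))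
def w1131 : Root := .mk (.node .junk (.col (nat_lit 2)) (.slot (nat_lit 1))) (.col (nat_lit 0)) (.node (.node (.col (nat_lit 0)) (.node (.col (nat_lit 1)) (.slot (nat_lit 1)) (.slot (nat_lit 1))) (.node (.slot (nat_lit 0)) (.col (nat_lit 1)) (.slot (nat_lit 0)))) (.col (nat_lit 0)) (.col (nat_lit 1))) (.col (nat_lit 1))
def w1132 : Root := .mk (.col (nat_lit 3)) (.col (nat_lit 0)) (.node (.node (.col (nat_lit 0)) (.node (.col (nat_lit 1)) (.slot (nat_lit 2)) (.slot (nat_lit 2))) (.node (.slot (nat_lit 0)) (.col (nat_lit 1)) (.slot (nat_lit 0)))) (.col (nat_lit 0)) (.col (nat_lit 1))) (.col (nat_lit 1))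
def w1133 : Root := .mk (.node (.node (.col (nat_lit 1)) (.slot (nat_lit 1)) (.slot (nat_lit 1))) (.col (nat_lit 0)) (.slot (nat_lit 2))) (.node (.col (nat_lit 0)) (.node (.col (nat_lit 1)) (.slot (nat_lit 1)) (.slot (nat_lit 1))) (.node (.slot (nat_lit 0)) (.slot (nat_lit 0)) (.slot (nat_lit 0)))) (.col (nat_lit 0)) (.node (.col (nat_lit 2)) (.slot (nat_lit 1)) (.slot (nat_lit 1)))
def w1134 : Root := .mk (.node (.node (.node (.col (nat_lit 1)) (.slot (nat_lit 7)) (.slot (nat_lit 5))) (.col (nat_lit 0)) (.slot (nat_lit 2))) (.col (nat_lit 0)) (.slot (nat_lit 2))) (.col (nat_lit 0)) (.node (.col (nat_lit 1)) (.slot (nat_lit 7)) (.slot (nat_lit 5))) (.node (.node (.col (nat_lit 0)) (.slot (nat_lit 0)) (.slot (nat_lit 0))) (.slot (nat_lit 7)) (.slot (nat_lit 5)))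
def w1135 : Root := .mk (.node (.node (.node (.col (nat_lit 1)) (.slot (nat_lit 1)) (.slot (nat_lit 1))) (.col (nat_lit 0)) (.slot (nat_lit 2))) (.col (nat_lit 0)) (.slot (nat_lit 1))) (.col (nat_lit 0)) (.node (.col (nat_lit 1)) (.slot (nat_lit 1)) (.slot (nat_lit 1))) (.node (.node (.col (nat_lit 1)) (.slot (nat_lit 1)) (.slot (nat_lit 1))) (.node (.col (nat_lit 1)) (.slot (nat_lit 1)) (.slot (nat_lit 1))) (.slot (nat_lit 1)))
def w1136 : Root := .mk (.node (.node (.node (.col (nat_lit 1)) (.slot (nat_lit 1)) (.slot (nat_lit 1))) (.col (nat_lit 0)) (.slot (nat_lit 2))) (.col (nat_lit 0)) (.slot (nat_lit 1))) (.col (nat_lit 0)) (.node (.col (nat_lit 1)) (.slot (nat_lit 1)) (.slot (nat_lit 1))) (.node (.col (nat_lit 0)) (.node (.col (nat_lit 1)) (.slot (nat_lit 1)) (.slot (nat_lit 1))) (.slot (nat_lit 2)))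
def w1137 : Root := .mk (.node (.node (.node (.col (nat_lit 1)) (.slot (nat_lit 1)) (.slot (nat_lit 1))) (.col (nat_lit 0)) (.slot (nat_lit 2))) (.col (nat_lit 0)) (.slot (nat_lit 1))) (.col (nat_lit 0)) (.node (.col (nat_lit 1)) (.slot (nat_lit 1)) (.slot (nat_lit 1))) (.node (.col (nat_lit 2)) (.node (.col (nat_lit 1)) (.slot (nat_lit 1)) (.slot (nat_lit 1))) (.slot (nat_lit 2)))
def l257 : Root := .mk (.col (nat_lit 2)) (.col (nat_lit 0)) (.node (.col (nat_lit 1)) (.slot (nat_lit 2)) (.slot (nat_lit 2))) (.node (.node (.col (nat_lit 1)) (.slot (nat_lit 0)) (.slot (nat_lit 0))) (.node (.col (nat_lit 1)) (.slot (nat_lit 0)) (.slot (nat_lit 0))) (.col (nat_lit 1)))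
def w1138 : Root := .mk (.node (.node (.slot (nat_lit 0)) (.col (nat_lit 0)) (.slot (nat_lit 0))) (.col (nat_lit 0)) (.node (.col (nat_lit 1)) (.slot (nat_lit 2)) (.slot (nat_lit 2)))) (.node (.col (nat_lit 1)) (.slot (nat_lit 0)) (.slot (nat_lit 0))) (.node (.col (nat_lit 1)) (.slot (nat_lit 0)) (.slot (nat_lit 0))) (.col (nat_lit 1))
def w1139 : Root := .mk (.col (nat_lit 2)) (.node (.col (nat_lit 1)) (.slot (nat_lit 1)) (.slot (nat_lit 1))) (.node (.col (nat_lit 1)) (.slot (nat_lit 1)) (.slot (nat_lit 1))) (.node (.col (nat_lit 0)) (.slot (nat_lit 0)) (.slot (nat_lit 0)))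
def w1140 : Root := .mk (.node (.node (.node (.col (nat_lit 1)) (.slot (nat_lit 1)) (.slot (nat_lit 1))) (.col (nat_lit 0)) (.slot (nat_lit 2))) (.col (nat_lit 0)) (.slot (nat_lit 1))) (.col (nat_lit 0)) (.node (.col (nat_lit 1)) (.slot (nat_lit 1)) (.slot (nat_lit 1))) (.node (.node (.col (nat_lit 1)) (.slot (nat_lit 1)) (.slot (nat_lit 1))) (.node (.col (nat_lit 1)) (.slot (nat_lit 1)) (.slot (nat_lit 1))) (.node (.col (nat_lit 0)) (.slot (nat_lit 0)) (.slot (nat_lit 0))))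
def l258 : Root := .mk (.col (nat_lit 2)) (.node (.col (nat_lit 1)) (.slot (nat_lit 1)) (.slot (nat_lit 1))) (.node (.col (nat_lit 1)) (.slot (nat_lit 1)) (.slot (nat_lit 1))) (.node (.col (nat_lit 1)) (.slot (nat_lit 1)) (.slot (nat_lit 1)))
def w1141 : Root := .mk (.slot (nat_lit 0)) (.col (nat_lit 0)) (.slot (nat_lit 0)) (.node (.node (.col (nat_lit 1)) (.slot (nat_lit 1)) (.slot (nat_lit 1))) (.node (.col (nat_lit 1)) (.slot (nat_lit 1)) (.slot (nat_lit 1))) (.node (.col (nat_lit 1)) (.slot (nat_lit 1)) (.slot (nat_lit 1))))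
def w1142 : Root := .mk (.node (.node (.node (.col (nat_lit 1)) (.slot (nat_lit 1)) (.slot (nat_lit 1))) (.col (nat_lit 0)) (.slot (nat_lit 2))) (.col (nat_lit 0)) (.slot (nat_lit 1))) (.col (nat_lit 0)) (.node (.col (nat_lit 1)) (.slot (nat_lit 1)) (.slot (nat_lit 1))) (.node (.node (.col (nat_lit 1)) (.slot (nat_lit 1)) (.slot (nat_lit 1))) (.node (.col (nat_lit 1)) (.slot (nat_lit 1)) (.slot (nat_lit 1))) (.node (.col (nat_lit 2)) (.slot (nat_lit 0)) (.slot (nat_lit 0))))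
def w1143 : Root := .mk (.col (nat_lit 1)) (.col (nat_lit 0)) (.node (.col (nat_lit 1)) (.slot (nat_lit 0)) (.slot (nat_lit 0))) (.node (.node (.col (nat_lit 1)) (.col (nat_lit 2)) (.slot (nat_lit 0))) (.node (.col (nat_lit 1)) (.slot (nat_lit 1)) (.slot (nat_lit 0))) (.col (nat_lit 2)))
def l259 : Root := .mk (.col (nat_lit 1)) (.col (nat_lit 0)) (.node (.col (nat_lit 1)) (.slot (nat_lit 0)) (.slot (nat_lit 0))) (.node (.node (.col (nat_lit 1)) (.slot (nat_lit 1)) (.slot (nat_lit 1))) (.node (.col (nat_lit 1)) (.slot (nat_lit 1)) (.slot (nat_lit 1))) (.col (nat_lit 2)))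
def w1144 : Root := .mk (.col (nat_lit 1)) (.col (nat_lit 0)) (.node (.col (nat_lit 1)) (.slot (nat_lit 0)) (.slot (nat_lit 0))) (.node (.node (.col (nat_lit 1)) (.slot (nat_lit 1)) (.slot (nat_lit 1))) (.node (.col (nat_lit 1)) (.slot (nat_lit 1)) (.slot (nat_lit 1))) (.slot (nat_lit 1)))
def w1145 : Root := .mk (.col (nat_lit 2)) (.col (nat_lit 0)) (.node (.col (nat_lit 1)) (.slot (nat_lit 2)) (.slot (nat_lit 2))) (.node (.node (.col (nat_lit 1)) (.slot (nat_lit 0)) (.slot (nat_lit 0))) (.node (.col (nat_lit 1)) (.slot (nat_lit 0)) (.slot (nat_lit 0))) (.slot (nat_lit 1)))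
def w1146 : Root := .mk (.node (.node (.node (.col (nat_lit 1)) (.slot (nat_lit 1)) (.slot (nat_lit 1))) (.col (nat_lit 0)) (.slot (nat_lit 2))) (.col (nat_lit 0)) (.slot (nat_lit 1))) (.col (nat_lit 0)) (.col (nat_lit 2)) (.node (.node (.col (nat_lit 1)) (.slot (nat_lit 1)) (.slot (nat_lit 1))) (.node (.col (nat_lit 1)) (.slot (nat_lit 1)) (.slot (nat_lit 1))) (.slot (nat_lit 1)))
def w1147 : Root := .mk (.col (nat_lit 2)) (.node (.col (nat_lit 0)) (.node (.col (nat_lit 1)) (.slot (nat_lit 1)) (.slot (nat_lit 1))) (.node (.node (.col (nat_lit 1)) (.col (nat_lit 0)) (.slot (nat_lit 1))) (.node (.col (nat_lit 1)) (.slot (nat_lit 1)) (.slot (nat_lit 0))) (.slot (nat_lit 1)))) (.col (nat_lit 0)) (.slot (nat_lit 1))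
def w1148 : Root := .mk (.node (.node (.node (.node (.node (.col (nat_lit 1)) (.slot (nat_lit 1)) (.slot (nat_lit 1))) (.col (nat_lit 0)) (.slot (nat_lit 2))) (.col (nat_lit 0)) (.slot (nat_lit 1))) (.col (nat_lit 0)) (.node (.col (nat_lit 1)) (.slot (nat_lit 1)) (.slot (nat_lit 1)))) (.node (.col (nat_lit 1)) (.slot (nat_lit 1)) (.slot (nat_lit 0))) (.slot (nat_lit 1))) (.col (nat_lit 1)) (.col (nat_lit 0)) (.slot (nat_lit 1))
def w1149 : Root := .mk (.col (nat_lit 2)) (.node (.col (nat_lit 0)) (.node (.col (nat_lit 1)) (.slot (nat_lit 1)) (.slot (nat_lit 1))) (.node (.node (.col (nat_lit 1)) (.col (nat_lit 2)) (.slot (nat_lit 1))) (.node (.col (nat_lit 1)) (.slot (nat_lit 1)) (.slot (nat_lit 0))) (.slot (nat_lit 1)))) (.col (nat_lit 0)) (.slot (nat_lit 1))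
def w1150 : Root := .mk (.node (.node (.node (.node (.node (.col (nat_lit 1)) (.slot (nat_lit 1)) (.slot (nat_lit 1))) (.col (nat_lit 0)) (.slot (nat_lit 2))) (.col (nat_lit 0)) (.slot (nat_lit 1))) (.col (nat_lit 0)) (.node (.col (nat_lit 1)) (.slot (nat_lit 1)) (.slot (nat_lit 1)))) (.node (.col (nat_lit 1)) (.slot (nat_lit 1)) (.slot (nat_lit 0))) (.slot (nat_lit 1))) (.col (nat_lit 1)) (.col (nat_lit 2)) (.slot (nat_lit 1))
def w1151 : Root := .mk (.node (.node (.node (.col (nat_lit 1)) (.slot (nat_lit 1)) (.slot (nat_lit 1))) (.col (nat_lit 0)) (.slot (nat_lit 2))) (.col (nat_lit 0)) (.slot (nat_lit 1))) (.col (nat_lit 0)) (.node (.col (nat_lit 1)) (.slot (nat_lit 1)) (.slot (nat_lit 1))) (.node (.node (.col (nat_lit 1)) (.node (.col (nat_lit 0)) (.slot (nat_lit 1)) (.slot (nat_lit 0))) (.slot (nat_lit 1))) (.node (.col (nat_lit 1)) (.slot (nat_lit 2)) (.slot (nat_lit 2))) (.slot (nat_lit 1)))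
def w1152 : Root := .mk (.node (.node (.node (.col (nat_lit 1)) (.slot (nat_lit 1)) (.slot (nat_lit 1))) (.col (nat_lit 0)) (.slot (nat_lit 2))) (.col (nat_lit 0)) (.slot (nat_lit 1))) (.col (nat_lit 0)) (.node (.col (nat_lit 1)) (.slot (nat_lit 1)) (.slot (nat_lit 1))) (.node (.node (.col (nat_lit 1)) (.node (.col (nat_lit 1)) (.slot (nat_lit 0)) (.slot (nat_lit 0))) (.slot (nat_lit 2))) (.node (.col (nat_lit 1)) (.slot (nat_lit 1)) (.slot (nat_lit 1))) (.slot (nat_lit 1)))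
def w1153 : Root := .mk (.slot (nat_lit 0)) (.col (nat_lit 0)) (.slot (nat_lit 0)) (.node (.node (.col (nat_lit 1)) (.node (.col (nat_lit 2)) (.slot (nat_lit 7)) (.slot (nat_lit 5))) (.slot (nat_lit 8))) (.node (.col (nat_lit 1)) (.slot (nat_lit 7)) (.slot (nat_lit 5))) (.slot (nat_lit 8)))
def w1154 : Root := .mk (.node (.slot (nat_lit 0)) (.col (nat_lit 0)) (.slot (nat_lit 0))) (.node (.col (nat_lit 0)) (.node (.col (nat_lit 1)) (.slot (nat_lit 1)) (.slot (nat_lit 1))) (.node (.node (.col (nat_lit 1)) (.slot (nat_lit 1)) (.slot (nat_lit 1))) (.node (.col (nat_lit 1)) (.slot (nat_lit 1)) (.slot (nat_lit 1))) (.slot (nat_lit 1)))) (.col (nat_lit 0)) (.col (nat_lit 2))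
def w1155 : Root := .mk (.node (.node (.col (nat_lit 1)) (.slot (nat_lit 1)) (.slot (nat_lit 1))) (.col (nat_lit 0)) (.slot (nat_lit 2))) (.node (.col (nat_lit 0)) (.node (.col (nat_lit 1)) (.slot (nat_lit 1)) (.slot (nat_lit 1))) (.node (.node (.col (nat_lit 1)) (.slot (nat_lit 1)) (.slot (nat_lit 1))) (.node (.col (nat_lit 1)) (.slot (nat_lit 1)) (.slot (nat_lit 1))) (.slot (nat_lit 1)))) (.col (nat_lit 0)) (.node (.col (nat_lit 0)) (.slot (nat_lit 0)) (.slot (nat_lit 0)))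
def w1156 : Root := .mk (.col (nat_lit 2)) (.node (.col (nat_lit 0)) (.node (.col (nat_lit 1)) (.slot (nat_lit 1)) .junk) (.node (.node (.col (nat_lit 1)) (.slot (nat_lit 1)) (.slot (nat_lit 1))) (.node (.col (nat_lit 1)) (.slot (nat_lit 1)) (.slot (nat_lit 1))) (.slot (nat_lit 1)))) (.col (nat_lit 0)) (.node (.col (nat_lit 1)) (.slot (nat_lit 1)) .junk)
def w1157 : Root := .mk (.node (.node (.col (nat_lit 1)) (.slot (nat_lit 1)) (.slot (nat_lit 1))) (.col (nat_lit 0)) (.slot (nat_lit 2))) (.node (.col (nat_lit 0)) (.node (.col (nat_lit 1)) (.slot (nat_lit 1)) .junk) (.node (.node (.col (nat_lit 1)) (.slot (nat_lit 1)) (.slot (nat_lit 1))) (.node (.col (nat_lit 1)) (.slot (nat_lit 1)) (.slot (nat_lit 1))) (.slot (nat_lit 1)))) (.col (nat_lit 0)) (.node (.col (nat_lit 1)) (.slot (nat_lit 1)) .junk)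
def w1158 : Root := .mk (.node (.node (.node (.slot (nat_lit 0)) (.col (nat_lit 0)) (.slot (nat_lit 0))) (.col (nat_lit 0)) (.slot (nat_lit 3))) (.col (nat_lit 0)) (.node (.node (.col (nat_lit 1)) (.slot (nat_lit 1)) (.slot (nat_lit 1))) (.node (.col (nat_lit 1)) (.slot (nat_lit 1)) (.slot (nat_lit 1))) (.slot (nat_lit 1)))) (.col (nat_lit 1)) (.col (nat_lit 0)) (.slot (nat_lit 3))
def w1159 : Root := .mk (.node (.slot (nat_lit 0)) (.col (nat_lit 0)) (.slot (nat_lit 0))) (.col (nat_lit 0)) (.node (.col (nat_lit 1)) (.col (nat_lit 2)) .junk) (.node (.node (.col (nat_lit 1)) (.slot (nat_lit 1)) (.slot (nat_lit 1))) (.node (.col (nat_lit 1)) (.slot (nat_lit 1)) (.slot (nat_lit 1))) (.slot (nat_lit 1)))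
def w1160 : Root := .mk (.node (.slot (nat_lit 0)) (.col (nat_lit 0)) (.slot (nat_lit 0))) (.col (nat_lit 0)) (.node (.col (nat_lit 1)) (.node (.col (nat_lit 0)) (.slot (nat_lit 1)) (.slot (nat_lit 0))) (.slot (nat_lit 1))) (.node (.node (.col (nat_lit 1)) (.slot (nat_lit 1)) (.slot (nat_lit 1))) (.node (.col (nat_lit 1)) (.slot (nat_lit 1)) (.slot (nat_lit 1))) (.slot (nat_lit 1)))
def w1161 : Root := .mk (.node (.node (.node (.col (nat_lit 1)) (.slot (nat_lit 1)) (.slot (nat_lit 1))) (.col (nat_lit 0)) (.slot (nat_lit 2))) (.col (nat_lit 0)) (.slot (nat_lit 1))) (.col (nat_lit 0)) (.node (.col (nat_lit 1)) (.node (.col (nat_lit 1)) (.slot (nat_lit 0)) (.slot (nat_lit 0))) (.slot (nat_lit 1))) (.col (nat_lit 2))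
def w1162 : Root := .mk (.node (.node (.node (.col (nat_lit 1)) (.slot (nat_lit 1)) (.slot (nat_lit 1))) (.col (nat_lit 0)) (.slot (nat_lit 2))) (.col (nat_lit 0)) (.slot (nat_lit 1))) (.col (nat_lit 0)) (.node (.col (nat_lit 1)) (.node (.col (nat_lit 1)) (.slot (nat_lit 0)) (.slot (nat_lit 0))) (.slot (nat_lit 1))) (.node (.node (.col (nat_lit 1)) (.slot (nat_lit 1)) (.slot (nat_lit 1))) (.node (.col (nat_lit 1)) (.slot (nat_lit 1)) (.slot (nat_lit 1))) (.slot (nat_lit 1)))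
def w1163 : Root := .mk (.node (.slot (nat_lit 0)) (.col (nat_lit 0)) (.slot (nat_lit 0))) (.col (nat_lit 0)) (.node (.col (nat_lit 1)) (.node (.col (nat_lit 2)) (.slot (nat_lit 1)) (.slot (nat_lit 0))) (.slot (nat_lit 1))) (.node (.node (.col (nat_lit 1)) (.slot (nat_lit 1)) (.slot (nat_lit 1))) (.node (.col (nat_lit 1)) (.slot (nat_lit 1)) (.slot (nat_lit 1))) (.slot (nat_lit 1)))
def w1164 : Root := .mk (.col (nat_lit 2)) (.col (nat_lit 0)) (.node (.node (.col (nat_lit 0)) (.node (.col (nat_lit 1)) (.slot (nat_lit 1)) (.slot (nat_lit 1))) (.node (.node (.col (nat_lit 1)) (.slot (nat_lit 1)) (.slot (nat_lit 1))) (.node (.col (nat_lit 1)) (.slot (nat_lit 1)) (.slot (nat_lit 1))) (.slot (nat_lit 1)))) (.col (nat_lit 0)) (.slot (nat_lit 1))) (.slot (nat_lit 1))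
def w1165 : Root := .mk (.node (.col (nat_lit 1)) (.slot (nat_lit 3)) (.slot (nat_lit 1))) (.col (nat_lit 0)) (.node (.node (.col (nat_lit 0)) (.node (.col (nat_lit 1)) (.slot (nat_lit 2)) (.slot (nat_lit 2))) (.node (.node (.col (nat_lit 1)) (.slot (nat_lit 0)) (.slot (nat_lit 0))) (.node (.col (nat_lit 1)) (.slot (nat_lit 0)) (.slot (nat_lit 0))) (.slot (nat_lit 1)))) (.col (nat_lit 0)) (.slot (nat_lit 3))) (.col (nat_lit 1))
def w1166 : Root := .mk (.node (.col (nat_lit 1)) (.slot (nat_lit 7)) (.slot (nat_lit 5))) (.col (nat_lit 0)) (.node (.node (.col (nat_lit 0)) (.slot (nat_lit 0)) (.slot (nat_lit 0))) (.col (nat_lit 0)) (.slot (nat_lit 2))) (.col (nat_lit 2))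
def w1167 : Root := .mk (.slot (nat_lit 0)) (.col (nat_lit 0)) (.node (.node (.col (nat_lit 0)) (.node (.col (nat_lit 1)) (.slot (nat_lit 7)) (.slot (nat_lit 5))) (.node (.node (.col (nat_lit 1)) (.slot (nat_lit 1)) (.slot (nat_lit 1))) (.node (.col (nat_lit 1)) (.slot (nat_lit 1)) (.slot (nat_lit 1))) (.slot (nat_lit 1)))) (.col (nat_lit 0)) (.slot (nat_lit 2))) (.slot (nat_lit 0))
def l260 : Root := .mk (.node (.node (.node (.col (nat_lit 1)) (.slot (nat_lit 7)) (.slot (nat_lit 5))) (.col (nat_lit 0)) (.slot (nat_lit 8))) (.col (nat_lit 0)) (.slot (nat_lit 3))) (.col (nat_lit 0)) (.node (.col (nat_lit 1)) (.slot (nat_lit 7)) (.slot (nat_lit 5))) (.node (.node (.col (nat_lit 1)) (.slot (nat_lit 8)) (.slot (nat_lit 8))) (.node (.col (nat_lit 1)) (.slot (nat_lit 8)) (.slot (nat_lit 8))) (.slot (nat_lit 8)))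
def w1168 : Root := .mk (.node (.node (.node (.col (nat_lit 1)) (.slot (nat_lit 7)) (.slot (nat_lit 5))) (.col (nat_lit 0)) (.slot (nat_lit 8))) (.col (nat_lit 0)) (.slot (nat_lit 3))) (.col (nat_lit 0)) (.node (.col (nat_lit 1)) (.slot (nat_lit 7)) (.slot (nat_lit 5))) (.node (.node (.col (nat_lit 1)) (.slot (nat_lit 8)) (.slot (nat_lit 8))) (.slot (nat_lit 9)) (.slot (nat_lit 8)))
def w1169 : Root := .mk (.node (.node (.node (.col (nat_lit 1)) (.slot (nat_lit 3)) (.slot (nat_lit 3))) (.col (nat_lit 0)) (.slot (nat_lit 5))) (.col (nat_lit 0)) (.slot (nat_lit 4))) (.col (nat_lit 0)) (.node (.col (nat_lit 1)) (.slot (nat_lit 0)) (.slot (nat_lit 0))) (.node (.node (.col (nat_lit 2)) (.slot (nat_lit 3)) (.slot (nat_lit 3))) (.slot (nat_lit 3)) (.slot (nat_lit 3)))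
def w1170 : Root := .mk (.node (.col (nat_lit 3)) (.col (nat_lit 0)) (.slot (nat_lit 3))) (.node (.col (nat_lit 0)) (.node (.col (nat_lit 1)) (.slot (nat_lit 0)) (.slot (nat_lit 0))) (.slot (nat_lit 3))) (.col (nat_lit 0)) (.col (nat_lit 2))
def l261 : Root := .mk (.node (.col (nat_lit 1)) (.col (nat_lit 2)) .junk) (.col (nat_lit 0)) (.node (.node (.col (nat_lit 0)) (.node (.col (nat_lit 1)) (.slot (nat_lit 3)) (.slot (nat_lit 1))) (.slot (nat_lit 2))) (.col (nat_lit 0)) (.col (nat_lit 2))) (.col (nat_lit 3))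
def w1171 : Root := .mk (.node (.node (.col (nat_lit 1)) (.col (nat_lit 2)) .junk) (.col (nat_lit 0)) (.slot (nat_lit 1))) (.node (.col (nat_lit 0)) (.node (.col (nat_lit 1)) (.slot (nat_lit 3)) (.slot (nat_lit 1))) (.slot (nat_lit 2))) (.col (nat_lit 0)) (.col (nat_lit 2))
def w1172 : Root := .mk (.node (.slot (nat_lit 0)) (.col (nat_lit 0)) (.col (nat_lit 2))) (.node (.col (nat_lit 0)) (.node (.col (nat_lit 1)) (.col (nat_lit 2)) (.slot (nat_lit 1))) (.slot (nat_lit 1))) (.col (nat_lit 0)) (.col (nat_lit 2))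
def l262 : Root := .mk (.node (.node (.node (.col (nat_lit 1)) (.col (nat_lit 2)) (.slot (nat_lit 3))) (.col (nat_lit 0)) (.col (nat_lit 2))) (.col (nat_lit 0)) (.col (nat_lit 2))) (.col (nat_lit 0)) (.node (.col (nat_lit 1)) (.col (nat_lit 2)) .junk) (.col (nat_lit 3))
def w1173 : Root := .mk (.node (.node (.col (nat_lit 1)) (.col (nat_lit 2)) (.slot (nat_lit 3))) (.col (nat_lit 0)) (.col (nat_lit 2))) (.node (.col (nat_lit 0)) (.node (.col (nat_lit 1)) (.col (nat_lit 2)) .junk) (.slot (nat_lit 1))) (.col (nat_lit 0)) (.col (nat_lit 2))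
def l263 : Root := .mk (.node (.node (.node (.node (.col (nat_lit 1)) (.col (nat_lit 2)) (.slot (nat_lit 3))) (.col (nat_lit 0)) (.col (nat_lit 2))) (.col (nat_lit 0)) (.col (nat_lit 2))) (.col (nat_lit 0)) (.col (nat_lit 2))) (.col (nat_lit 1)) (.col (nat_lit 2)) (.node (.col (nat_lit 0)) (.slot (nat_lit 2)) (.slot (nat_lit 2)))
def w1174 : Root := .mk (.node (.node (.node (.col (nat_lit 1)) (.col (nat_lit 2)) (.slot (nat_lit 3))) (.col (nat_lit 0)) (.col (nat_lit 2))) (.col (nat_lit 0)) (.col (nat_lit 2))) (.col (nat_lit 0)) (.node (.col (nat_lit 1)) (.col (nat_lit 2)) (.slot (nat_lit 3))) (.col (nat_lit 2))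
def w1175 : Root := .mk (.node (.slot (nat_lit 0)) (.col (nat_lit 0)) (.col (nat_lit 2))) (.node (.col (nat_lit 0)) (.node (.col (nat_lit 1)) (.col (nat_lit 2)) (.slot (nat_lit 3))) (.node (.col (nat_lit 0)) (.slot (nat_lit 0)) (.slot (nat_lit 0)))) (.col (nat_lit 0)) (.col (nat_lit 2))
def w1176 : Root := .mk (.node (.node (.col (nat_lit 1)) (.col (nat_lit 2)) (.slot (nat_lit 3))) (.col (nat_lit 0)) (.col (nat_lit 2))) (.node (.col (nat_lit 0)) (.node (.col (nat_lit 1)) (.col (nat_lit 2)) .junk) (.node (.col (nat_lit 3)) (.slot (nat_lit 0)) (.slot (nat_lit 0)))) (.col (nat_lit 0)) (.col (nat_lit 2))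
def w1177 : Root := .mk (.col (nat_lit 3)) (.col (nat_lit 0)) (.node (.node (.col (nat_lit 0)) (.node (.col (nat_lit 1)) (.col (nat_lit 2)) (.slot (nat_lit 1))) (.slot (nat_lit 1))) (.col (nat_lit 0)) (.col (nat_lit 2))) (.col (nat_lit 2))
def l264 : Root := .mk (.node (.node (.col (nat_lit 1)) (.col (nat_lit 2)) (.slot (nat_lit 3))) (.col (nat_lit 0)) (.col (nat_lit 2))) (.node (.col (nat_lit 0)) (.node (.col (nat_lit 1)) (.col (nat_lit 2)) (.slot (nat_lit 3))) (.slot (nat_lit 2))) (.col (nat_lit 0)) (.col (nat_lit 2))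
def w1178 : Root := .mk (.node (.col (nat_lit 1)) (.col (nat_lit 2)) (.slot (nat_lit 3))) (.col (nat_lit 0)) (.node (.node (.col (nat_lit 0)) (.node (.col (nat_lit 1)) (.slot (nat_lit 1)) (.slot (nat_lit 3))) (.slot (nat_lit 2))) (.col (nat_lit 0)) (.col (nat_lit 2))) (.col (nat_lit 2))
def w1179 : Root := .mk (.node (.node (.col (nat_lit 1)) (.col (nat_lit 2)) (.slot (nat_lit 3))) (.col (nat_lit 0)) (.node (.col (nat_lit 0)) (.slot (nat_lit 0)) (.slot (nat_lit 0)))) (.node (.col (nat_lit 0)) (.slot (nat_lit 0)) (.slot (nat_lit 0))) (.col (nat_lit 0)) (.col (nat_lit 2))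
def w1180 : Root := .mk (.node (.node (.col (nat_lit 1)) (.col (nat_lit 2)) .junk) (.col (nat_lit 0)) (.node (.col (nat_lit 3)) (.slot (nat_lit 0)) (.slot (nat_lit 0)))) (.node (.col (nat_lit 0)) (.node (.col (nat_lit 1)) (.slot (nat_lit 3)) (.slot (nat_lit 1))) (.slot (nat_lit 2))) (.col (nat_lit 0)) (.col (nat_lit 2))
def w1181 : Root := .mk (.node (.node (.col (nat_lit 1)) (.col (nat_lit 2)) .junk) (.col (nat_lit 0)) (.slot (nat_lit 1))) (.node .junk (.node (.col (nat_lit 1)) (.slot (nat_lit 0)) (.slot (nat_lit 0))) (.col (nat_lit 1))) (.col (nat_lit 0)) (.col (nat_lit 2))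
def l265 : Root := .mk (.node (.node (.col (nat_lit 1)) (.col (nat_lit 2)) (.slot (nat_lit 3))) (.col (nat_lit 0)) (.slot (nat_lit 3))) (.node (.col (nat_lit 0)) (.node (.col (nat_lit 1)) (.slot (nat_lit 3)) (.slot (nat_lit 1))) (.slot (nat_lit 3))) (.col (nat_lit 0)) (.col (nat_lit 2))
def w1182 : Root := .mk (.node (.node (.col (nat_lit 1)) (.slot (nat_lit 1)) (.slot (nat_lit 3))) (.col (nat_lit 0)) (.slot (nat_lit 3))) (.node (.col (nat_lit 0)) (.node (.col (nat_lit 1)) (.slot (nat_lit 3)) (.slot (nat_lit 1))) (.slot (nat_lit 3))) (.col (nat_lit 0)) (.col (nat_lit 2))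
def l266 : Root := .mk (.node (.node (.col (nat_lit 1)) (.slot (nat_lit 7)) (.slot (nat_lit 5))) (.col (nat_lit 0)) (.slot (nat_lit 8))) (.node (.col (nat_lit 0)) (.node (.col (nat_lit 1)) (.slot (nat_lit 7)) (.slot (nat_lit 5))) (.slot (nat_lit 8))) (.col (nat_lit 0)) (.col (nat_lit 1))
def w1183 : Root := .mk (.node (.node (.col (nat_lit 1)) (.slot (nat_lit 7)) (.slot (nat_lit 5))) (.col (nat_lit 0)) (.slot (nat_lit 8))) (.node (.col (nat_lit 0)) (.node (.col (nat_lit 1)) (.slot (nat_lit 7)) (.slot (nat_lit 5))) (.slot (nat_lit 8))) (.col (nat_lit 0)) (.node (.col (nat_lit 0)) (.slot (nat_lit 0)) (.slot (nat_lit 0)))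
def w1184 : Root := .mk (.col (nat_lit 2)) (.node (.col (nat_lit 0)) (.node (.col (nat_lit 1)) (.slot (nat_lit 1)) (.slot (nat_lit 1))) (.slot (nat_lit 2))) (.col (nat_lit 0)) (.node (.col (nat_lit 1)) (.slot (nat_lit 1)) .junk)
def w1185 : Root := .mk (.node (.node (.col (nat_lit 1)) (.slot (nat_lit 1)) (.slot (nat_lit 1))) (.col (nat_lit 0)) (.slot (nat_lit 2))) (.node (.col (nat_lit 0)) (.node (.col (nat_lit 1)) (.slot (nat_lit 1)) (.slot (nat_lit 1))) (.slot (nat_lit 2))) (.col (nat_lit 0)) (.node (.col (nat_lit 1)) (.slot (nat_lit 1)) .junk)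
def w1186 : Root := .mk (.node (.node (.col (nat_lit 1)) (.slot (nat_lit 7)) (.slot (nat_lit 5))) (.col (nat_lit 0)) (.slot (nat_lit 8))) (.node (.col (nat_lit 0)) (.node (.col (nat_lit 1)) (.slot (nat_lit 7)) (.slot (nat_lit 5))) (.slot (nat_lit 8))) (.col (nat_lit 0)) (.node (.col (nat_lit 2)) (.slot (nat_lit 0)) (.slot (nat_lit 0)))
def w1187 : Root := .mk (.node (.node (.col (nat_lit 1)) (.slot (nat_lit 7)) (.slot (nat_lit 5))) (.col (nat_lit 0)) (.slot (nat_lit 8))) (.node (.col (nat_lit 0)) (.node (.col (nat_lit 1)) (.slot (nat_lit 7)) (.slot (nat_lit 5))) (.slot (nat_lit 8))) (.col (nat_lit 0)) (.node (.slot (nat_lit 0)) (.slot (nat_lit 0)) (.slot (nat_lit 0)))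
def w1188 : Root := .mk (.node (.node (.node (.node (.col (nat_lit 1)) (.slot (nat_lit 7)) (.slot (nat_lit 5))) (.col (nat_lit 0)) (.slot (nat_lit 8))) (.col (nat_lit 0)) (.slot (nat_lit 4))) (.col (nat_lit 0)) (.slot (nat_lit 8))) (.col (nat_lit 1)) (.col (nat_lit 0)) (.slot (nat_lit 4))
def w1189 : Root := .mk (.col (nat_lit 2)) (.node (.col (nat_lit 0)) (.node (.col (nat_lit 1)) (.node (.col (nat_lit 1)) (.slot (nat_lit 0)) (.slot (nat_lit 0))) (.slot (nat_lit 2))) (.node (.col (nat_lit 1)) (.slot (nat_lit 1)) (.slot (nat_lit 1)))) (.col (nat_lit 0)) (.slot (nat_lit 0))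
def l267 : Root := .mk (.col (nat_lit 2)) (.col (nat_lit 0)) (.node (.col (nat_lit 1)) (.node (.col (nat_lit 1)) (.slot (nat_lit 0)) (.slot (nat_lit 0))) (.node (.col (nat_lit 0)) (.slot (nat_lit 1)) (.slot (nat_lit 0)))) (.node (.col (nat_lit 1)) (.slot (nat_lit 2)) (.slot (nat_lit 2)))
def w1190 : Root := .mk (.node (.node (.slot (nat_lit 0)) (.col (nat_lit 0)) (.slot (nat_lit 0))) (.col (nat_lit 0)) (.node (.col (nat_lit 1)) (.slot (nat_lit 2)) (.slot (nat_lit 2)))) (.col (nat_lit 1)) (.node (.col (nat_lit 1)) (.slot (nat_lit 0)) (.slot (nat_lit 0))) (.node (.col (nat_lit 0)) (.slot (nat_lit 1)) (.slot (nat_lit 0)))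
def w1191 : Root := .mk (.node (.node (.slot (nat_lit 0)) (.col (nat_lit 0)) (.slot (nat_lit 0))) (.col (nat_lit 0)) (.node (.col (nat_lit 1)) (.slot (nat_lit 2)) (.slot (nat_lit 2)))) (.col (nat_lit 1)) (.node (.col (nat_lit 1)) (.slot (nat_lit 0)) (.slot (nat_lit 0))) (.node (.col (nat_lit 2)) (.slot (nat_lit 1)) (.slot (nat_lit 0)))
def l268 : Root := .mk (.col (nat_lit 2)) (.col (nat_lit 0)) (.node (.col (nat_lit 1)) (.node (.col (nat_lit 1)) (.slot (nat_lit 0)) (.slot (nat_lit 0))) (.node (.slot (nat_lit 0)) (.slot (nat_lit 1)) (.slot (nat_lit 0)))) (.node (.col (nat_lit 1)) (.slot (nat_lit 1)) (.slot (nat_lit 1)))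
def w1192 : Root := .mk (.node (.node (.slot (nat_lit 0)) (.col (nat_lit 0)) (.slot (nat_lit 0))) (.col (nat_lit 0)) (.node (.col (nat_lit 1)) (.slot (nat_lit 1)) (.slot (nat_lit 1)))) (.col (nat_lit 1)) (.node (.col (nat_lit 1)) (.slot (nat_lit 0)) (.slot (nat_lit 0))) (.node (.slot (nat_lit 0)) (.slot (nat_lit 1)) (.slot (nat_lit 0)))
def w1193 : Root := .mk (.node (.slot (nat_lit 0)) (.col (nat_lit 0)) (.slot (nat_lit 0))) (.col (nat_lit 0)) (.node (.col (nat_lit 1)) (.slot (nat_lit 0)) (.slot (nat_lit 1))) (.node (.col (nat_lit 1)) (.node (.col (nat_lit 0)) (.slot (nat_lit 2)) (.slot (nat_lit 2))) (.slot (nat_lit 1)))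
def l269 : Root := .mk (.col (nat_lit 2)) (.col (nat_lit 0)) (.node (.col (nat_lit 1)) (.node (.col (nat_lit 1)) (.slot (nat_lit 0)) (.slot (nat_lit 0))) (.slot (nat_lit 2))) (.node (.col (nat_lit 1)) (.node (.col (nat_lit 1)) (.slot (nat_lit 0)) (.slot (nat_lit 0))) (.slot (nat_lit 2)))
def w1194 : Root := .mk (.node (.slot (nat_lit 0)) (.col (nat_lit 0)) (.slot (nat_lit 0))) (.col (nat_lit 0)) (.node (.col (nat_lit 1)) (.node (.col (nat_lit 1)) (.slot (nat_lit 0)) (.slot (nat_lit 0))) (.slot (nat_lit 2))) (.node (.col (nat_lit 1)) (.node (.col (nat_lit 1)) (.slot (nat_lit 0)) (.slot (nat_lit 0))) (.slot (nat_lit 2)))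
def l270 : Root := .mk (.col (nat_lit 2)) (.col (nat_lit 0)) (.node (.col (nat_lit 1)) (.node (.col (nat_lit 1)) (.slot (nat_lit 0)) (.slot (nat_lit 0))) (.slot (nat_lit 2))) (.node (.col (nat_lit 1)) (.node (.col (nat_lit 2)) (.slot (nat_lit 1)) (.slot (nat_lit 1))) (.slot (nat_lit 2)))
def w1195 : Root := .mk (.node (.slot (nat_lit 0)) (.col (nat_lit 0)) (.slot (nat_lit 0))) (.col (nat_lit 0)) (.node (.col (nat_lit 1)) (.node (.col (nat_lit 1)) (.slot (nat_lit 0)) (.slot (nat_lit 0))) (.slot (nat_lit 2))) (.node (.col (nat_lit 1)) (.node (.col (nat_lit 2)) (.slot (nat_lit 1)) (.slot (nat_lit 1))) (.slot (nat_lit 2)))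
def w1196 : Root := .mk (.node (.node (.node (.slot (nat_lit 0)) (.col (nat_lit 0)) (.slot (nat_lit 0))) (.col (nat_lit 0)) (.node (.col (nat_lit 1)) (.slot (nat_lit 1)) (.slot (nat_lit 1)))) (.col (nat_lit 1)) (.slot (nat_lit 2))) (.col (nat_lit 1)) (.col (nat_lit 2)) (.slot (nat_lit 1))
def l271 : Root := .mk (.node (.node (.node (.col (nat_lit 1)) (.slot (nat_lit 7)) (.slot (nat_lit 5))) (.col (nat_lit 0)) (.slot (nat_lit 2))) (.col (nat_lit 0)) (.slot (nat_lit 4))) (.col (nat_lit 0)) (.node (.col (nat_lit 1)) (.node (.col (nat_lit 1)) (.slot (nat_lit 2)) (.slot (nat_lit 1))) (.slot (nat_lit 3))) (.node (.col (nat_lit 1)) (.slot (nat_lit 7)) (.slot (nat_lit 5)))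
def w1197 : Root := .mk (.node (.node (.node (.node (.col (nat_lit 1)) (.slot (nat_lit 7)) (.slot (nat_lit 5))) (.col (nat_lit 0)) (.slot (nat_lit 2))) (.col (nat_lit 0)) (.slot (nat_lit 4))) (.col (nat_lit 0)) (.slot (nat_lit 8))) (.col (nat_lit 1)) (.node (.col (nat_lit 1)) (.slot (nat_lit 2)) (.slot (nat_lit 1))) (.slot (nat_lit 3))
def w1198 : Root := .mk (.col (nat_lit 3)) (.node (.col (nat_lit 0)) (.node (.col (nat_lit 1)) (.slot (nat_lit 0)) (.slot (nat_lit 0))) (.slot (nat_lit 2))) (.col (nat_lit 0)) (.node (.col (nat_lit 4)) (.slot (nat_lit 7)) (.slot (nat_lit 5)))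
def w1199 : Root := .mk (.col (nat_lit 3)) (.node (.col (nat_lit 0)) (.node (.col (nat_lit 1)) (.node (.col (nat_lit 2)) (.slot (nat_lit 0)) (.slot (nat_lit 0))) (.slot (nat_lit 2))) (.node (.col (nat_lit 0)) (.slot (nat_lit 0)) (.slot (nat_lit 0)))) (.col (nat_lit 0)) (.node (.col (nat_lit 4)) (.slot (nat_lit 1)) (.slot (nat_lit 1)))
def w1200 : Root := .mk (.col (nat_lit 3)) (.node (.col (nat_lit 0)) (.node (.col (nat_lit 1)) (.node (.col (nat_lit 2)) (.slot (nat_lit 2)) (.slot (nat_lit 1))) (.slot (nat_lit 1))) (.node (.col (nat_lit 2)) (.slot (nat_lit 1)) (.slot (nat_lit 1)))) (.col (nat_lit 0)) (.node (.col (nat_lit 4)) (.slot (nat_lit 1)) .junk)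
def w1201 : Root := .mk (.col (nat_lit 3)) (.node (.col (nat_lit 0)) (.node (.col (nat_lit 1)) (.slot (nat_lit 0)) (.slot (nat_lit 0))) (.node (.col (nat_lit 3)) (.slot (nat_lit 1)) (.slot (nat_lit 1)))) (.col (nat_lit 0)) (.node (.col (nat_lit 4)) (.slot (nat_lit 1)) (.slot (nat_lit 0)))
def w1202 : Root := .mk (.col (nat_lit 3)) (.node (.col (nat_lit 0)) (.node (.col (nat_lit 1)) (.slot (nat_lit 0)) (.slot (nat_lit 1))) (.node (.col (nat_lit 4)) (.slot (nat_lit 1)) (.slot (nat_lit 1)))) (.col (nat_lit 0)) (.node (.col (nat_lit 4)) (.slot (nat_lit 1)) .junk)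
def w1203 : Root := .mk (.col (nat_lit 3)) (.node (.col (nat_lit 0)) (.node (.col (nat_lit 1)) (.node (.col (nat_lit 2)) (.slot (nat_lit 0)) (.slot (nat_lit 0))) (.slot (nat_lit 1))) (.node (.slot (nat_lit 0)) (.slot (nat_lit 0)) (.slot (nat_lit 0)))) (.col (nat_lit 0)) (.node (.col (nat_lit 4)) (.slot (nat_lit 1)) (.slot (nat_lit 1)))
def w1204 : Root := .mk (.col (nat_lit 3)) (.node (.col (nat_lit 0)) (.node (.col (nat_lit 1)) (.slot (nat_lit 0)) (.slot (nat_lit 0))) (.slot (nat_lit 3))) (.col (nat_lit 0)) (.node (.col (nat_lit 4)) (.col (nat_lit 3)) (.slot (nat_lit 3)))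
def w1205 : Root := .mk (.col (nat_lit 3)) (.node (.col (nat_lit 0)) (.node (.col (nat_lit 1)) (.node (.col (nat_lit 2)) (.slot (nat_lit 1)) (.slot (nat_lit 0))) (.slot (nat_lit 1))) (.slot (nat_lit 1))) (.col (nat_lit 0)) (.node (.col (nat_lit 4)) .junk (.slot (nat_lit 1)))
def w1206 : Root := .mk (.node (.node (.col (nat_lit 3)) (.col (nat_lit 0)) (.node (.col (nat_lit 4)) (.slot (nat_lit 7)) (.slot (nat_lit 5)))) (.col (nat_lit 0)) (.slot (nat_lit 2))) (.col (nat_lit 1)) (.slot (nat_lit 0)) (.col (nat_lit 2))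
def l272 : Root := .mk (.col (nat_lit 3)) (.node (.col (nat_lit 0)) (.node (.col (nat_lit 1)) (.node (.col (nat_lit 2)) (.slot (nat_lit 2)) (.slot (nat_lit 1))) (.slot (nat_lit 3))) (.slot (nat_lit 3))) (.col (nat_lit 0)) (.node (.col (nat_lit 4)) (.slot (nat_lit 7)) (.slot (nat_lit 5)))
def w1207 : Root := .mk (.col (nat_lit 3)) (.node (.col (nat_lit 0)) (.node (.col (nat_lit 1)) (.node (.col (nat_lit 2)) (.slot (nat_lit 2)) (.slot (nat_lit 1))) (.slot (nat_lit 3))) (.slot (nat_lit 3))) (.col (nat_lit 0)) (.slot (nat_lit 8))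
def w1208 : Root := .mk (.node (.node (.node (.node (.col (nat_lit 1)) (.slot (nat_lit 1)) (.slot (nat_lit 1))) (.col (nat_lit 0)) (.slot (nat_lit 2))) (.col (nat_lit 0)) (.slot (nat_lit 8))) (.col (nat_lit 0)) (.slot (nat_lit 3))) (.col (nat_lit 1)) (.node (.col (nat_lit 2)) (.slot (nat_lit 2)) (.slot (nat_lit 1))) (.slot (nat_lit 3))
def w1209 : Root := .mk (.node (.slot (nat_lit 0)) (.col (nat_lit 0)) (.slot (nat_lit 0))) (.col (nat_lit 0)) (.node (.col (nat_lit 1)) (.node (.slot (nat_lit 0)) (.slot (nat_lit 0)) (.slot (nat_lit 0))) (.slot (nat_lit 2))) (.node (.col (nat_lit 1)) (.node (.col (nat_lit 2)) (.slot (nat_lit 1)) (.slot (nat_lit 0))) (.slot (nat_lit 1)))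
def l273 : Root := .mk (.node (.node (.node (.col (nat_lit 1)) (.slot (nat_lit 7)) (.slot (nat_lit 5))) (.col (nat_lit 0)) (.slot (nat_lit 8))) (.col (nat_lit 0)) (.slot (nat_lit 3))) (.col (nat_lit 0)) (.node (.col (nat_lit 1)) (.node (.slot (nat_lit 0)) (.slot (nat_lit 1)) (.slot (nat_lit 1))) (.slot (nat_lit 2))) (.node (.col (nat_lit 1)) (.slot (nat_lit 7)) (.slot (nat_lit 5)))
def w1210 : Root := .mk (.node (.node (.node (.node (.col (nat_lit 1)) (.slot (nat_lit 7)) (.slot (nat_lit 5))) (.col (nat_lit 0)) (.slot (nat_lit 8))) (.col (nat_lit 0)) (.slot (nat_lit 3))) (.col (nat_lit 0)) (.slot (nat_lit 8))) (.col (nat_lit 1)) (.node (.slot (nat_lit 0)) (.slot (nat_lit 1)) (.slot (nat_lit 1))) (.slot (nat_lit 2))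
def l274 : Root := .mk (.node (.node (.node (.col (nat_lit 1)) (.slot (nat_lit 7)) (.slot (nat_lit 5))) (.col (nat_lit 0)) (.slot (nat_lit 10))) (.col (nat_lit 0)) (.slot (nat_lit 8))) (.col (nat_lit 0)) (.node (.col (nat_lit 1)) (.slot (nat_lit 7)) (.slot (nat_lit 5))) (.slot (nat_lit 10))
def w1211 : Root := .mk (.node (.col (nat_lit 1)) (.slot (nat_lit 7)) (.slot (nat_lit 5))) (.col (nat_lit 0)) (.node (.node (.col (nat_lit 0)) (.slot (nat_lit 8)) (.slot (nat_lit 10))) (.col (nat_lit 0)) (.slot (nat_lit 8))) (.slot (nat_lit 10))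
def w1212 : Root := .mk (.node (.node (.node (.node (.col (nat_lit 3)) (.col (nat_lit 2)) .junk) (.col (nat_lit 0)) (.slot (nat_lit 1))) (.slot (nat_lit 7)) (.slot (nat_lit 5))) (.col (nat_lit 0)) (.slot (nat_lit 10))) (.node (.col (nat_lit 0)) (.slot (nat_lit 10)) (.slot (nat_lit 8))) (.col (nat_lit 0)) (.slot (nat_lit 8))
def w1213 : Root := .mk (.node (.slot (nat_lit 0)) (.slot (nat_lit 0)) (.slot (nat_lit 0))) (.col (nat_lit 0)) (.node (.node (.col (nat_lit 0)) (.slot (nat_lit 1)) (.slot (nat_lit 1))) (.node (.col (nat_lit 0)) (.slot (nat_lit 1)) (.slot (nat_lit 1))) (.slot (nat_lit 1))) (.slot (nat_lit 1))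
def w1214 : Root := .mk (.node (.node (.node (.col (nat_lit 3)) (.col (nat_lit 2)) .junk) (.col (nat_lit 0)) (.slot (nat_lit 1))) (.col (nat_lit 0)) (.slot (nat_lit 3))) (.col (nat_lit 0)) (.node (.node (.col (nat_lit 0)) (.slot (nat_lit 0)) (.slot (nat_lit 0))) (.node (.col (nat_lit 1)) (.slot (nat_lit 1)) (.slot (nat_lit 1))) (.slot (nat_lit 2))) (.col (nat_lit 1))
def w1215 : Root := .mk (.col (nat_lit 3)) (.node (.node (.node (.col (nat_lit 0)) (.node (.node (.col (nat_lit 0)) (.slot (nat_lit 1)) (.slot (nat_lit 1))) (.node (.col (nat_lit 1)) (.slot (nat_lit 0)) (.slot (nat_lit 0))) (.slot (nat_lit 2))) (.col (nat_lit 1))) (.col (nat_lit 1)) (.slot (nat_lit 1))) (.col (nat_lit 0)) (.slot (nat_lit 1))) (.col (nat_lit 2)) (.col (nat_lit 0))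
def w1216 : Root := .mk (.col (nat_lit 3)) (.node (.node (.node (.col (nat_lit 0)) (.node (.slot (nat_lit 0)) (.slot (nat_lit 0)) (.slot (nat_lit 0))) (.col (nat_lit 1))) (.node (.col (nat_lit 0)) (.slot (nat_lit 0)) (.slot (nat_lit 0))) (.slot (nat_lit 3))) (.col (nat_lit 0)) (.slot (nat_lit 1))) (.col (nat_lit 2)) (.col (nat_lit 0))
def w1217 : Root := .mk (.col (nat_lit 3)) (.node (.node (.node (.col (nat_lit 0)) (.node (.slot (nat_lit 0)) (.slot (nat_lit 0)) (.slot (nat_lit 0))) (.col (nat_lit 1))) (.node (.col (nat_lit 2)) (.slot (nat_lit 0)) (.slot (nat_lit 0))) (.slot (nat_lit 3))) (.col (nat_lit 0)) (.slot (nat_lit 1))) (.col (nat_lit 2)) (.col (nat_lit 0))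
def w1218 : Root := .mk (.col (nat_lit 3)) (.node (.node (.node (.col (nat_lit 0)) (.node (.slot (nat_lit 0)) (.slot (nat_lit 0)) (.slot (nat_lit 0))) (.col (nat_lit 1))) (.node (.col (nat_lit 4)) (.slot (nat_lit 0)) (.slot (nat_lit 0))) (.slot (nat_lit 3))) (.col (nat_lit 0)) (.slot (nat_lit 1))) (.col (nat_lit 2)) (.col (nat_lit 0))
def l275 : Root := .mk (.col (nat_lit 3)) (.node (.node (.node (.col (nat_lit 0)) (.node (.col (nat_lit 1)) (.slot (nat_lit 0)) (.slot (nat_lit 0))) (.col (nat_lit 1))) (.col (nat_lit 2)) (.slot (nat_lit 3))) (.col (nat_lit 0)) (.slot (nat_lit 1))) (.col (nat_lit 2)) (.col (nat_lit 0))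
def w1219 : Root := .mk (.col (nat_lit 3)) (.node (.node (.node (.col (nat_lit 0)) (.node (.col (nat_lit 1)) (.slot (nat_lit 0)) (.slot (nat_lit 0))) (.col (nat_lit 1))) (.slot (nat_lit 1)) (.slot (nat_lit 3))) (.col (nat_lit 0)) (.slot (nat_lit 1))) (.col (nat_lit 2)) (.col (nat_lit 0))
def w1220 : Root := .mk (.node (.node (.node (.col (nat_lit 3)) (.col (nat_lit 2)) .junk) (.col (nat_lit 0)) (.slot (nat_lit 1))) (.slot (nat_lit 1)) (.slot (nat_lit 0))) (.col (nat_lit 0)) (.node (.node (.col (nat_lit 0)) (.slot (nat_lit 0)) (.slot (nat_lit 0))) (.node (.col (nat_lit 1)) (.slot (nat_lit 1)) (.slot (nat_lit 1))) (.col (nat_lit 0))) (.col (nat_lit 1))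
def w1221 : Root := .mk (.node (.node (.col (nat_lit 4)) (.col (nat_lit 0)) (.slot (nat_lit 2))) (.slot (nat_lit 1)) (.slot (nat_lit 1))) (.col (nat_lit 0)) (.node (.node (.col (nat_lit 0)) (.slot (nat_lit 1)) (.slot (nat_lit 1))) (.node (.col (nat_lit 1)) (.slot (nat_lit 0)) (.slot (nat_lit 0))) (.slot (nat_lit 2))) (.col (nat_lit 1))
def w1222 : Root := .mk (.node (.node (.col (nat_lit 1)) .junk (.col (nat_lit 2))) (.col (nat_lit 0)) (.slot (nat_lit 1))) (.col (nat_lit 0)) (.node (.node (.col (nat_lit 0)) (.slot (nat_lit 0)) (.slot (nat_lit 0))) (.node (.col (nat_lit 1)) (.slot (nat_lit 1)) (.slot (nat_lit 1))) (.slot (nat_lit 2))) (.col (nat_lit 1))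
def l276 : Root := .mk (.col (nat_lit 1)) (.node (.node (.col (nat_lit 0)) (.node (.node (.col (nat_lit 0)) (.slot (nat_lit 1)) (.slot (nat_lit 1))) (.node (.col (nat_lit 1)) (.slot (nat_lit 1)) (.slot (nat_lit 1))) (.slot (nat_lit 2))) (.col (nat_lit 1))) (.slot (nat_lit 2)) (.slot (nat_lit 2))) (.col (nat_lit 0)) (.col (nat_lit 2))
def w1223 : Root := .mk (.col (nat_lit 3)) (.node (.node (.node (.col (nat_lit 0)) (.node (.node (.col (nat_lit 0)) (.slot (nat_lit 1)) (.slot (nat_lit 1))) (.node (.col (nat_lit 1)) (.slot (nat_lit 1)) (.slot (nat_lit 1))) (.slot (nat_lit 2))) (.col (nat_lit 1))) (.slot (nat_lit 2)) (.slot (nat_lit 2))) (.col (nat_lit 0)) (.col (nat_lit 2))) (.col (nat_lit 2)) (.col (nat_lit 0))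
def w1224 : Root := .mk (.node (.node (.node (.col (nat_lit 3)) (.col (nat_lit 2)) .junk) (.col (nat_lit 0)) (.node (.col (nat_lit 4)) (.slot (nat_lit 0)) (.slot (nat_lit 0)))) (.slot (nat_lit 2)) (.slot (nat_lit 2))) (.col (nat_lit 0)) (.node (.node (.col (nat_lit 0)) (.slot (nat_lit 0)) (.slot (nat_lit 0))) (.node (.col (nat_lit 1)) (.slot (nat_lit 1)) (.slot (nat_lit 0))) (.slot (nat_lit 1))) (.col (nat_lit 1))
def l277 : Root := .mk (.col (nat_lit 3)) (.node (.node (.node (.col (nat_lit 0)) (.node (.node (.col (nat_lit 0)) (.slot (nat_lit 1)) (.slot (nat_lit 1))) (.node (.col (nat_lit 1)) (.slot (nat_lit 1)) (.slot (nat_lit 1))) (.slot (nat_lit 2))) (.col (nat_lit 1))) (.slot (nat_lit 3)) (.slot (nat_lit 3))) (.col (nat_lit 0)) (.slot (nat_lit 4))) (.col (nat_lit 2)) (.col (nat_lit 0))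
def w1225 : Root := .mk (.col (nat_lit 3)) (.node (.node (.node (.col (nat_lit 0)) (.node (.node (.col (nat_lit 0)) (.slot (nat_lit 1)) (.slot (nat_lit 1))) (.node (.col (nat_lit 1)) (.slot (nat_lit 1)) (.slot (nat_lit 1))) (.slot (nat_lit 2))) (.slot (nat_lit 1))) (.slot (nat_lit 3)) (.slot (nat_lit 3))) (.col (nat_lit 0)) (.slot (nat_lit 4))) (.col (nat_lit 2)) (.col (nat_lit 0))
def w1226 : Root := .mk (.node (.col (nat_lit 2)) (.slot (nat_lit 1)) (.slot (nat_lit 1))) (.col (nat_lit 0)) (.node (.node (.col (nat_lit 0)) (.slot (nat_lit 0)) (.slot (nat_lit 0))) (.node (.col (nat_lit 2)) (.slot (nat_lit 0)) (.slot (nat_lit 0))) (.slot (nat_lit 2))) (.col (nat_lit 1))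
def w1227 : Root := .mk (.node (.col (nat_lit 3)) (.slot (nat_lit 2)) (.slot (nat_lit 2))) (.col (nat_lit 0)) (.node (.node (.col (nat_lit 0)) (.slot (nat_lit 0)) (.slot (nat_lit 0))) (.node (.col (nat_lit 2)) (.slot (nat_lit 1)) (.slot (nat_lit 0))) (.slot (nat_lit 1))) (.col (nat_lit 1))
def l278 : Root := .mk (.node (.col (nat_lit 4)) (.col (nat_lit 0)) (.slot (nat_lit 2))) (.col (nat_lit 0)) (.node (.node (.col (nat_lit 0)) (.slot (nat_lit 1)) (.slot (nat_lit 1))) (.col (nat_lit 4)) (.slot (nat_lit 2))) (.col (nat_lit 1))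
def w1228 : Root := .mk (.node (.col (nat_lit 4)) (.col (nat_lit 0)) (.slot (nat_lit 2))) (.col (nat_lit 0)) (.node (.node (.col (nat_lit 0)) (.slot (nat_lit 1)) (.slot (nat_lit 1))) (.node (.col (nat_lit 2)) (.slot (nat_lit 0)) (.slot (nat_lit 0))) (.slot (nat_lit 2))) (.col (nat_lit 1))
def w1229 : Root := .mk (.node (.node (.node (.col (nat_lit 3)) (.col (nat_lit 2)) .junk) (.col (nat_lit 0)) (.slot (nat_lit 1))) (.col (nat_lit 0)) (.slot (nat_lit 2))) (.col (nat_lit 0)) (.node (.node (.col (nat_lit 0)) (.slot (nat_lit 1)) (.slot (nat_lit 1))) (.node (.col (nat_lit 2)) (.slot (nat_lit 0)) (.slot (nat_lit 0))) (.slot (nat_lit 2))) (.col (nat_lit 1))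
def w1230 : Root := .mk (.col (nat_lit 3)) (.node (.node (.node (.col (nat_lit 0)) (.node (.node (.col (nat_lit 0)) (.slot (nat_lit 1)) (.slot (nat_lit 1))) (.node (.col (nat_lit 2)) (.slot (nat_lit 0)) (.slot (nat_lit 0))) (.slot (nat_lit 2))) (.col (nat_lit 1))) (.col (nat_lit 1)) (.slot (nat_lit 1))) (.col (nat_lit 0)) (.slot (nat_lit 1))) (.col (nat_lit 2)) (.col (nat_lit 0))
def w1231 : Root := .mk (.node (.node (.slot (nat_lit 0)) (.col (nat_lit 0)) (.slot (nat_lit 0))) (.slot (nat_lit 1)) (.slot (nat_lit 1))) (.col (nat_lit 0)) (.node (.col (nat_lit 2)) (.node (.col (nat_lit 2)) (.slot (nat_lit 0)) (.slot (nat_lit 0))) (.slot (nat_lit 2))) (.col (nat_lit 1))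
def w1232 : Root := .mk (.node (.node (.node (.col (nat_lit 3)) (.col (nat_lit 2)) .junk) (.col (nat_lit 0)) (.slot (nat_lit 1))) (.slot (nat_lit 1)) (.slot (nat_lit 1))) (.col (nat_lit 0)) (.node (.node (.col (nat_lit 0)) (.slot (nat_lit 0)) (.slot (nat_lit 0))) (.node (.col (nat_lit 2)) (.slot (nat_lit 2)) (.slot (nat_lit 1))) (.col (nat_lit 0))) (.col (nat_lit 1))
def w1233 : Root := .mk (.node (.node (.col (nat_lit 4)) (.col (nat_lit 0)) (.slot (nat_lit 2))) (.slot (nat_lit 1)) (.slot (nat_lit 1))) (.col (nat_lit 0)) (.node (.node (.col (nat_lit 0)) (.slot (nat_lit 1)) (.slot (nat_lit 1))) (.node (.col (nat_lit 2)) (.slot (nat_lit 0)) (.slot (nat_lit 0))) (.slot (nat_lit 2))) (.col (nat_lit 1))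
def w1234 : Root := .mk (.node (.node (.col (nat_lit 1)) .junk (.col (nat_lit 2))) (.col (nat_lit 0)) (.slot (nat_lit 2))) (.col (nat_lit 0)) (.node (.node (.col (nat_lit 0)) (.slot (nat_lit 1)) (.slot (nat_lit 1))) (.node (.col (nat_lit 2)) (.slot (nat_lit 0)) (.slot (nat_lit 0))) (.slot (nat_lit 2))) (.col (nat_lit 1))
def w1235 : Root := .mk (.node (.node .junk (.col (nat_lit 0)) (.col (nat_lit 2))) (.col (nat_lit 1)) (.slot (nat_lit 1))) (.col (nat_lit 0)) (.node (.node (.col (nat_lit 0)) (.slot (nat_lit 1)) (.slot (nat_lit 1))) (.node (.col (nat_lit 2)) (.slot (nat_lit 0)) (.slot (nat_lit 0))) (.slot (nat_lit 2))) (.col (nat_lit 1))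
def l279 : Root := .mk (.col (nat_lit 1)) (.node (.node (.col (nat_lit 0)) (.node (.node (.col (nat_lit 0)) (.slot (nat_lit 1)) (.slot (nat_lit 1))) (.node (.col (nat_lit 2)) (.slot (nat_lit 1)) (.slot (nat_lit 1))) (.slot (nat_lit 2))) (.col (nat_lit 1))) (.slot (nat_lit 2)) (.slot (nat_lit 2))) (.col (nat_lit 0)) (.col (nat_lit 2))
def w1236 : Root := .mk (.col (nat_lit 3)) (.node (.node (.node (.col (nat_lit 0)) (.node (.node (.col (nat_lit 0)) (.slot (nat_lit 1)) (.slot (nat_lit 1))) (.node (.col (nat_lit 2)) (.slot (nat_lit 1)) (.slot (nat_lit 1))) (.slot (nat_lit 2))) (.col (nat_lit 1))) (.slot (nat_lit 2)) (.slot (nat_lit 2))) (.col (nat_lit 0)) (.col (nat_lit 2))) (.col (nat_lit 2)) (.col (nat_lit 0))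
def w1237 : Root := .mk (.node (.node (.col (nat_lit 1)) .junk (.col (nat_lit 3))) (.col (nat_lit 0)) (.slot (nat_lit 2))) (.col (nat_lit 0)) (.node (.node (.col (nat_lit 0)) (.slot (nat_lit 1)) (.slot (nat_lit 1))) (.node (.col (nat_lit 2)) (.slot (nat_lit 0)) (.slot (nat_lit 0))) (.slot (nat_lit 2))) (.col (nat_lit 1))
def w1238 : Root := .mk (.node (.node .junk (.col (nat_lit 0)) (.col (nat_lit 3))) (.col (nat_lit 1)) (.slot (nat_lit 1))) (.col (nat_lit 0)) (.node (.node (.col (nat_lit 0)) (.slot (nat_lit 1)) (.slot (nat_lit 1))) (.node (.col (nat_lit 2)) (.slot (nat_lit 0)) (.slot (nat_lit 0))) (.slot (nat_lit 2))) (.col (nat_lit 1))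
def l280 : Root := .mk (.col (nat_lit 1)) (.node (.node (.col (nat_lit 0)) (.node (.node (.col (nat_lit 0)) (.slot (nat_lit 1)) (.slot (nat_lit 1))) (.node (.col (nat_lit 2)) (.slot (nat_lit 1)) (.slot (nat_lit 0))) (.slot (nat_lit 2))) (.col (nat_lit 1))) (.slot (nat_lit 2)) (.slot (nat_lit 2))) (.col (nat_lit 0)) (.col (nat_lit 3))
def w1239 : Root := .mk (.col (nat_lit 3)) (.node (.node (.node (.col (nat_lit 0)) (.node (.node (.col (nat_lit 0)) (.slot (nat_lit 1)) (.slot (nat_lit 1))) (.node (.col (nat_lit 2)) (.slot (nat_lit 1)) (.slot (nat_lit 0))) (.slot (nat_lit 2))) (.col (nat_lit 1))) (.slot (nat_lit 2)) (.slot (nat_lit 2))) (.col (nat_lit 0)) (.col (nat_lit 3))) (.col (nat_lit 2)) (.col (nat_lit 0))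
def w1240 : Root := .mk (.node (.node (.node (.col (nat_lit 3)) (.col (nat_lit 2)) .junk) (.col (nat_lit 0)) (.node (.col (nat_lit 4)) (.slot (nat_lit 0)) (.slot (nat_lit 0)))) (.slot (nat_lit 2)) (.slot (nat_lit 2))) (.col (nat_lit 0)) (.node (.node (.col (nat_lit 0)) (.slot (nat_lit 0)) (.slot (nat_lit 0))) (.node (.col (nat_lit 2)) (.slot (nat_lit 1)) (.slot (nat_lit 0))) (.slot (nat_lit 1))) (.col (nat_lit 1))
def l281 : Root := .mk (.col (nat_lit 3)) (.node (.node (.node (.col (nat_lit 0)) (.node (.node (.col (nat_lit 0)) (.slot (nat_lit 1)) (.slot (nat_lit 1))) (.node (.col (nat_lit 2)) (.slot (nat_lit 2)) (.slot (nat_lit 1))) (.slot (nat_lit 2))) (.col (nat_lit 1))) (.slot (nat_lit 3)) (.slot (nat_lit 3))) (.col (nat_lit 0)) (.slot (nat_lit 4))) (.col (nat_lit 2)) (.col (nat_lit 0))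
def w1241 : Root := .mk (.col (nat_lit 3)) (.node (.node (.node (.col (nat_lit 0)) (.node (.node (.col (nat_lit 0)) (.slot (nat_lit 1)) (.slot (nat_lit 1))) (.node (.col (nat_lit 2)) (.slot (nat_lit 2)) (.slot (nat_lit 1))) (.slot (nat_lit 2))) (.slot (nat_lit 1))) (.slot (nat_lit 3)) (.slot (nat_lit 3))) (.col (nat_lit 0)) (.slot (nat_lit 4))) (.col (nat_lit 2)) (.col (nat_lit 0))
def w1242 : Root := .mk (.col (nat_lit 3)) (.node (.node (.node (.col (nat_lit 0)) (.node (.node (.col (nat_lit 0)) (.slot (nat_lit 3)) (.slot (nat_lit 1))) (.slot (nat_lit 1)) (.slot (nat_lit 1))) (.slot (nat_lit 3))) (.col (nat_lit 1)) (.col (nat_lit 0))) .junk (.col (nat_lit 2))) (.col (nat_lit 2)) (.col (nat_lit 0))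
def w1243 : Root := .mk (.col (nat_lit 3)) (.node (.node (.node (.col (nat_lit 0)) (.node (.slot (nat_lit 0)) (.slot (nat_lit 0)) (.slot (nat_lit 0))) (.slot (nat_lit 0))) (.col (nat_lit 1)) (.node (.col (nat_lit 1)) (.slot (nat_lit 0)) (.slot (nat_lit 0)))) (.col (nat_lit 0)) (.col (nat_lit 2))) (.col (nat_lit 2)) (.col (nat_lit 0))
def w1244 : Root := .mk (.node (.slot (nat_lit 0)) (.col (nat_lit 0)) (.col (nat_lit 2))) (.node (.col (nat_lit 0)) (.node (.node (.col (nat_lit 0)) (.slot (nat_lit 0)) (.slot (nat_lit 0))) (.slot (nat_lit 2)) (.slot (nat_lit 2))) (.col (nat_lit 2))) (.col (nat_lit 1)) (.col (nat_lit 2))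
def w1245 : Root := .mk (.node (.node .junk (.col (nat_lit 0)) (.col (nat_lit 2))) (.col (nat_lit 1)) (.node (.col (nat_lit 3)) (.col (nat_lit 0)) (.slot (nat_lit 0)))) (.col (nat_lit 0)) (.slot (nat_lit 0)) (.col (nat_lit 2))
def w1246 : Root := .mk (.node (.node .junk (.col (nat_lit 0)) (.col (nat_lit 2))) (.col (nat_lit 1)) (.node (.col (nat_lit 3)) (.col (nat_lit 1)) (.slot (nat_lit 0)))) (.col (nat_lit 0)) (.slot (nat_lit 0)) (.col (nat_lit 2))
def w1247 : Root := .mk (.node (.node (.slot (nat_lit 0)) (.col (nat_lit 0)) (.col (nat_lit 2))) (.col (nat_lit 1)) (.node (.col (nat_lit 3)) (.col (nat_lit 4)) (.slot (nat_lit 0)))) (.col (nat_lit 0)) (.node (.col (nat_lit 1)) (.slot (nat_lit 2)) (.slot (nat_lit 2))) (.col (nat_lit 2))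
def w1248 : Root := .mk (.col (nat_lit 3)) (.node (.node (.node (.col (nat_lit 0)) (.node (.col (nat_lit 1)) .junk (.slot (nat_lit 1))) (.col (nat_lit 2))) (.col (nat_lit 1)) (.slot (nat_lit 0))) (.col (nat_lit 0)) (.col (nat_lit 2))) (.col (nat_lit 2)) (.col (nat_lit 0))
def w1249 : Root := .mk (.col (nat_lit 1)) (.node (.node (.col (nat_lit 0)) (.node (.col (nat_lit 1)) (.slot (nat_lit 1)) (.slot (nat_lit 1))) (.col (nat_lit 2))) (.col (nat_lit 1)) (.slot (nat_lit 0))) (.col (nat_lit 0)) (.col (nat_lit 2))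
def l282 : Root := .mk (.col (nat_lit 3)) (.node (.node (.node (.col (nat_lit 0)) (.node (.col (nat_lit 1)) (.slot (nat_lit 2)) (.slot (nat_lit 2))) (.col (nat_lit 2))) (.col (nat_lit 1)) (.node (.col (nat_lit 3)) (.col (nat_lit 4)) (.slot (nat_lit 0)))) (.col (nat_lit 0)) (.col (nat_lit 2))) (.col (nat_lit 2)) (.col (nat_lit 0))
def w1250 : Root := .mk (.col (nat_lit 3)) (.node (.node (.node (.col (nat_lit 0)) (.node (.node (.col (nat_lit 0)) (.slot (nat_lit 0)) (.slot (nat_lit 0))) (.slot (nat_lit 2)) (.slot (nat_lit 2))) (.col (nat_lit 2))) (.col (nat_lit 1)) (.node (.col (nat_lit 3)) (.col (nat_lit 4)) (.slot (nat_lit 0)))) (.col (nat_lit 0)) (.col (nat_lit 2))) (.col (nat_lit 2)) (.col (nat_lit 0))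
def l283 : Root := .mk (.col (nat_lit 3)) (.node (.node (.node (.col (nat_lit 0)) (.node (.node (.col (nat_lit 0)) (.slot (nat_lit 1)) (.slot (nat_lit 1))) (.slot (nat_lit 2)) (.slot (nat_lit 2))) (.col (nat_lit 2))) (.col (nat_lit 1)) (.node (.col (nat_lit 3)) (.slot (nat_lit 0)) (.slot (nat_lit 0)))) (.col (nat_lit 0)) (.col (nat_lit 2))) (.col (nat_lit 2)) (.col (nat_lit 0))
def w1251 : Root := .mk (.col (nat_lit 3)) (.node (.node (.node (.col (nat_lit 0)) (.node (.node (.col (nat_lit 0)) (.slot (nat_lit 1)) (.slot (nat_lit 1))) (.slot (nat_lit 2)) (.slot (nat_lit 2))) (.slot (nat_lit 1))) (.col (nat_lit 1)) (.node (.col (nat_lit 3)) (.slot (nat_lit 0)) (.slot (nat_lit 0)))) (.col (nat_lit 0)) (.col (nat_lit 2))) (.col (nat_lit 2)) (.col (nat_lit 0))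
def w1252 : Root := .mk (.col (nat_lit 3)) (.node (.node (.node (.col (nat_lit 0)) (.node (.slot (nat_lit 0)) (.slot (nat_lit 0)) (.slot (nat_lit 0))) (.slot (nat_lit 0))) (.col (nat_lit 1)) (.node (.col (nat_lit 4)) (.slot (nat_lit 0)) (.slot (nat_lit 0)))) (.col (nat_lit 0)) (.col (nat_lit 2))) (.col (nat_lit 2)) (.col (nat_lit 0))
def l284 : Root := .mk (.col (nat_lit 3)) (.node (.node (.node (.col (nat_lit 0)) (.col (nat_lit 1)) (.slot (nat_lit 1))) (.col (nat_lit 1)) (.col (nat_lit 3))) (.col (nat_lit 0)) (.col (nat_lit 2))) (.col (nat_lit 2)) (.col (nat_lit 0))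
def w1253 : Root := .mk (.col (nat_lit 3)) (.node (.node (.node (.col (nat_lit 0)) (.col (nat_lit 1)) (.slot (nat_lit 1))) (.col (nat_lit 1)) (.slot (nat_lit 1))) (.col (nat_lit 0)) (.col (nat_lit 2))) (.col (nat_lit 2)) (.col (nat_lit 0))
def l285 : Root := .mk (.col (nat_lit 3)) (.node (.node (.node (.col (nat_lit 0)) (.node (.node (.col (nat_lit 0)) (.slot (nat_lit 3)) (.slot (nat_lit 1))) (.slot (nat_lit 2)) (.slot (nat_lit 2))) (.slot (nat_lit 3))) (.col (nat_lit 1)) (.slot (nat_lit 2))) (.col (nat_lit 0)) (.col (nat_lit 2))) (.col (nat_lit 2)) (.col (nat_lit 0))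
def w1254 : Root := .mk (.col (nat_lit 3)) (.node (.node (.node (.col (nat_lit 0)) (.node (.node (.col (nat_lit 0)) (.slot (nat_lit 3)) (.slot (nat_lit 1))) (.slot (nat_lit 2)) (.slot (nat_lit 2))) (.slot (nat_lit 3))) (.slot (nat_lit 1)) (.slot (nat_lit 2))) (.col (nat_lit 0)) (.col (nat_lit 2))) (.col (nat_lit 2)) (.col (nat_lit 0))
def w1255 : Root := .mk (.node (.node (.node (.col (nat_lit 3)) (.col (nat_lit 2)) .junk) (.col (nat_lit 0)) (.node (.col (nat_lit 0)) (.slot (nat_lit 0)) (.slot (nat_lit 0)))) (.slot (nat_lit 1)) (.slot (nat_lit 0))) (.col (nat_lit 0)) (.col (nat_lit 2)) (.col (nat_lit 1))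
def l286 : Root := .mk (.node (.node (.node (.col (nat_lit 3)) (.col (nat_lit 2)) .junk) (.col (nat_lit 0)) (.col (nat_lit 1))) (.slot (nat_lit 1)) (.slot (nat_lit 1))) (.col (nat_lit 0)) (.col (nat_lit 4)) (.col (nat_lit 1))
def w1256 : Root := .mk (.node (.node (.node (.col (nat_lit 3)) (.col (nat_lit 2)) .junk) (.col (nat_lit 0)) (.node (.col (nat_lit 0)) (.slot (nat_lit 0)) (.slot (nat_lit 0)))) (.slot (nat_lit 1)) (.slot (nat_lit 1))) (.col (nat_lit 0)) (.col (nat_lit 4)) (.col (nat_lit 1))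
def w1257 : Root := .mk (.node (.node (.node (.col (nat_lit 3)) (.col (nat_lit 2)) .junk) (.col (nat_lit 0)) (.node (.col (nat_lit 0)) (.slot (nat_lit 0)) (.slot (nat_lit 0)))) (.col (nat_lit 0)) (.slot (nat_lit 2))) (.col (nat_lit 0)) (.node (.node (.col (nat_lit 0)) (.slot (nat_lit 0)) (.slot (nat_lit 0))) (.slot (nat_lit 7)) (.slot (nat_lit 5))) (.col (nat_lit 1))
def l287 : Root := .mk (.node (.node (.col (nat_lit 3)) (.col (nat_lit 2)) (.col (nat_lit 0))) (.col (nat_lit 0)) (.node (.col (nat_lit 0)) (.slot (nat_lit 0)) (.slot (nat_lit 0)))) (.col (nat_lit 3)) (.col (nat_lit 1)) (.col (nat_lit 2))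
def w1258 : Root := .mk (.node (.node (.node (.col (nat_lit 3)) (.col (nat_lit 2)) (.col (nat_lit 0))) (.col (nat_lit 0)) (.node (.col (nat_lit 0)) (.slot (nat_lit 0)) (.slot (nat_lit 0)))) (.col (nat_lit 1)) (.col (nat_lit 2))) (.col (nat_lit 0)) (.col (nat_lit 2)) (.col (nat_lit 1))
def w1259 : Root := .mk (.col (nat_lit 3)) (.node (.node (.node (.col (nat_lit 0)) (.slot (nat_lit 0)) (.col (nat_lit 1))) (.col (nat_lit 1)) (.col (nat_lit 2))) (.col (nat_lit 0)) (.node (.col (nat_lit 0)) (.col (nat_lit 1)) (.slot (nat_lit 1)))) (.col (nat_lit 2)) (.col (nat_lit 0))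
def w1260 : Root := .mk (.col (nat_lit 3)) (.node (.node (.node (.col (nat_lit 0)) (.slot (nat_lit 0)) (.col (nat_lit 1))) (.col (nat_lit 1)) (.col (nat_lit 2))) (.col (nat_lit 0)) (.node (.col (nat_lit 0)) (.col (nat_lit 2)) (.slot (nat_lit 1)))) (.col (nat_lit 2)) (.col (nat_lit 0))
def w1261 : Root := .mk (.col (nat_lit 3)) (.node (.node (.node (.col (nat_lit 0)) (.node (.slot (nat_lit 0)) (.slot (nat_lit 0)) (.slot (nat_lit 0))) (.col (nat_lit 1))) (.col (nat_lit 1)) (.col (nat_lit 2))) (.col (nat_lit 0)) (.node (.col (nat_lit 0)) (.col (nat_lit 4)) (.slot (nat_lit 0)))) (.col (nat_lit 2)) (.col (nat_lit 0))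
def w1262 : Root := .mk (.col (nat_lit 3)) (.node (.node (.node (.col (nat_lit 0)) (.slot (nat_lit 0)) (.col (nat_lit 1))) (.col (nat_lit 1)) (.col (nat_lit 2))) (.col (nat_lit 0)) (.node (.col (nat_lit 0)) (.slot (nat_lit 0)) (.slot (nat_lit 0)))) (.col (nat_lit 2)) (.col (nat_lit 0))
def l288 : Root := .mk (.col (nat_lit 3)) (.node (.node (.node (.col (nat_lit 0)) (.node (.node (.col (nat_lit 0)) (.slot (nat_lit 0)) (.slot (nat_lit 0))) (.slot (nat_lit 1)) (.slot (nat_lit 1))) (.col (nat_lit 1))) (.col (nat_lit 1)) (.col (nat_lit 2))) (.col (nat_lit 0)) (.node (.col (nat_lit 0)) (.slot (nat_lit 1)) (.slot (nat_lit 1)))) (.col (nat_lit 2)) (.col (nat_lit 0))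
def w1263 : Root := .mk (.col (nat_lit 3)) (.node (.node (.node (.col (nat_lit 0)) (.node (.node (.col (nat_lit 0)) (.slot (nat_lit 0)) (.slot (nat_lit 0))) (.slot (nat_lit 1)) (.slot (nat_lit 1))) (.col (nat_lit 1))) (.col (nat_lit 1)) (.slot (nat_lit 1))) (.col (nat_lit 0)) (.node (.col (nat_lit 0)) (.slot (nat_lit 1)) (.slot (nat_lit 1)))) (.col (nat_lit 2)) (.col (nat_lit 0))
def w1264 : Root := .mk (.col (nat_lit 3)) (.node (.node (.node (.col (nat_lit 0)) (.node (.slot (nat_lit 0)) (.slot (nat_lit 0)) (.slot (nat_lit 0))) (.col (nat_lit 1))) (.node (.col (nat_lit 0)) (.slot (nat_lit 0)) (.slot (nat_lit 0))) (.slot (nat_lit 2))) (.col (nat_lit 0)) (.node (.col (nat_lit 0)) (.slot (nat_lit 0)) (.slot (nat_lit 0)))) (.col (nat_lit 2)) (.col (nat_lit 0))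
def w1265 : Root := .mk (.col (nat_lit 3)) (.node (.node (.node (.col (nat_lit 0)) (.node (.slot (nat_lit 0)) (.slot (nat_lit 0)) (.slot (nat_lit 0))) (.col (nat_lit 1))) (.node (.col (nat_lit 2)) (.slot (nat_lit 0)) (.slot (nat_lit 0))) (.slot (nat_lit 2))) (.col (nat_lit 0)) (.node (.col (nat_lit 0)) (.slot (nat_lit 0)) (.slot (nat_lit 0)))) (.col (nat_lit 2)) (.col (nat_lit 0))
def w1266 : Root := .mk (.col (nat_lit 3)) (.node (.node (.node (.col (nat_lit 0)) (.node (.slot (nat_lit 0)) (.slot (nat_lit 0)) (.slot (nat_lit 0))) (.col (nat_lit 1))) (.node (.col (nat_lit 4)) (.slot (nat_lit 0)) (.slot (nat_lit 0))) (.slot (nat_lit 2))) (.col (nat_lit 0)) (.node (.col (nat_lit 0)) (.slot (nat_lit 0)) (.slot (nat_lit 0)))) (.col (nat_lit 2)) (.col (nat_lit 0))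
def w1267 : Root := .mk (.node (.node (.col (nat_lit 3)) (.col (nat_lit 2)) .junk) (.col (nat_lit 0)) (.node (.col (nat_lit 0)) (.slot (nat_lit 0)) (.slot (nat_lit 0)))) (.node .junk (.node (.col (nat_lit 1)) (.slot (nat_lit 0)) (.slot (nat_lit 0))) (.col (nat_lit 1))) (.col (nat_lit 2)) (.col (nat_lit 0))
def w1268 : Root := .mk (.node (.node (.col (nat_lit 3)) (.col (nat_lit 2)) .junk) (.col (nat_lit 0)) (.node (.col (nat_lit 0)) (.slot (nat_lit 0)) (.slot (nat_lit 0)))) (.node (.col (nat_lit 0)) .junk (.col (nat_lit 1))) (.col (nat_lit 2)) (.node (.col (nat_lit 2)) (.slot (nat_lit 0)) (.slot (nat_lit 0)))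
def w1269 : Root := .mk (.node (.node (.node (.col (nat_lit 3)) (.col (nat_lit 2)) .junk) (.col (nat_lit 0)) (.node (.col (nat_lit 0)) (.slot (nat_lit 0)) (.slot (nat_lit 0)))) (.col (nat_lit 2)) (.slot (nat_lit 0))) (.col (nat_lit 0)) (.node (.col (nat_lit 1)) (.slot (nat_lit 0)) (.slot (nat_lit 0))) (.col (nat_lit 1))
def l289 : Root := .mk (.col (nat_lit 3)) (.node (.node (.node (.col (nat_lit 0)) (.node (.col (nat_lit 1)) (.slot (nat_lit 0)) (.slot (nat_lit 0))) (.col (nat_lit 1))) (.col (nat_lit 2)) (.slot (nat_lit 2))) (.col (nat_lit 0)) (.node (.col (nat_lit 0)) (.slot (nat_lit 0)) (.slot (nat_lit 0)))) (.col (nat_lit 2)) (.col (nat_lit 0))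
def w1270 : Root := .mk (.col (nat_lit 3)) (.node (.node (.node (.col (nat_lit 0)) (.node (.col (nat_lit 1)) (.slot (nat_lit 0)) (.slot (nat_lit 0))) (.col (nat_lit 1))) (.slot (nat_lit 1)) (.slot (nat_lit 2))) (.col (nat_lit 0)) (.node (.col (nat_lit 0)) (.slot (nat_lit 0)) (.slot (nat_lit 0)))) (.col (nat_lit 2)) (.col (nat_lit 0))
def w1271 : Root := .mk (.node (.node (.col (nat_lit 3)) (.col (nat_lit 2)) .junk) (.col (nat_lit 0)) (.node (.col (nat_lit 0)) (.slot (nat_lit 0)) (.slot (nat_lit 0)))) (.node .junk (.node (.slot (nat_lit 0)) (.col (nat_lit 0)) (.slot (nat_lit 0))) (.col (nat_lit 1))) (.col (nat_lit 2)) (.col (nat_lit 0))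
def w1272 : Root := .mk (.node (.node (.slot (nat_lit 0)) (.col (nat_lit 0)) (.slot (nat_lit 0))) (.col (nat_lit 2)) (.node (.col (nat_lit 1)) (.slot (nat_lit 1)) (.slot (nat_lit 0)))) (.col (nat_lit 0)) (.node (.slot (nat_lit 0)) (.col (nat_lit 0)) (.slot (nat_lit 0))) (.col (nat_lit 1))
def w1273 : Root := .mk (.node (.node (.node (.col (nat_lit 3)) (.col (nat_lit 2)) .junk) (.col (nat_lit 0)) (.node (.col (nat_lit 0)) (.slot (nat_lit 0)) (.slot (nat_lit 0)))) (.col (nat_lit 2)) (.slot (nat_lit 0))) (.col (nat_lit 0)) (.node (.slot (nat_lit 0)) (.col (nat_lit 0)) (.slot (nat_lit 0))) (.col (nat_lit 1))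
def l290 : Root := .mk (.col (nat_lit 3)) (.node (.node (.node (.col (nat_lit 0)) (.node (.slot (nat_lit 0)) (.col (nat_lit 0)) (.slot (nat_lit 0))) (.col (nat_lit 1))) (.col (nat_lit 2)) (.slot (nat_lit 2))) (.col (nat_lit 0)) (.node (.col (nat_lit 0)) (.slot (nat_lit 0)) (.slot (nat_lit 0)))) (.col (nat_lit 2)) (.col (nat_lit 0))
def w1274 : Root := .mk (.col (nat_lit 3)) (.node (.node (.node (.col (nat_lit 0)) (.node (.slot (nat_lit 0)) (.col (nat_lit 0)) (.slot (nat_lit 0))) (.col (nat_lit 1))) (.slot (nat_lit 1)) (.slot (nat_lit 2))) (.col (nat_lit 0)) (.node (.col (nat_lit 0)) (.slot (nat_lit 0)) (.slot (nat_lit 0)))) (.col (nat_lit 2)) (.col (nat_lit 0))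
def w1275 : Root := .mk (.col (nat_lit 1)) (.node (.node (.col (nat_lit 0)) (.node (.node (.col (nat_lit 0)) (.slot (nat_lit 1)) (.slot (nat_lit 1))) (.slot (nat_lit 2)) (.slot (nat_lit 1))) (.col (nat_lit 1))) (.slot (nat_lit 2)) (.slot (nat_lit 2))) (.col (nat_lit 0)) (.node (.col (nat_lit 0)) (.slot (nat_lit 0)) (.slot (nat_lit 0)))
def w1276 : Root := .mk (.col (nat_lit 4)) (.node (.node (.col (nat_lit 0)) (.node (.node (.col (nat_lit 0)) (.slot (nat_lit 1)) (.slot (nat_lit 1))) (.slot (nat_lit 2)) (.slot (nat_lit 1))) (.col (nat_lit 1))) (.slot (nat_lit 2)) (.slot (nat_lit 2))) (.col (nat_lit 0)) (.node (.col (nat_lit 0)) (.slot (nat_lit 0)) (.slot (nat_lit 0)))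
def w1277 : Root := .mk (.col (nat_lit 3)) (.node (.node (.col (nat_lit 4)) (.col (nat_lit 2)) (.node (.col (nat_lit 0)) (.col (nat_lit 2)) (.slot (nat_lit 1)))) (.col (nat_lit 0)) (.node (.col (nat_lit 0)) (.col (nat_lit 1)) (.slot (nat_lit 0)))) (.col (nat_lit 2)) (.col (nat_lit 0))
def w1278 : Root := .mk (.col (nat_lit 3)) (.node (.node (.col (nat_lit 4)) (.col (nat_lit 2)) (.node (.col (nat_lit 0)) (.col (nat_lit 4)) (.slot (nat_lit 1)))) (.col (nat_lit 0)) (.node (.col (nat_lit 0)) (.col (nat_lit 1)) (.slot (nat_lit 0)))) (.col (nat_lit 2)) (.col (nat_lit 0))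
def l291 : Root := .mk (.col (nat_lit 3)) (.node (.node (.col (nat_lit 4)) (.col (nat_lit 2)) (.node (.col (nat_lit 0)) (.slot (nat_lit 1)) (.slot (nat_lit 1)))) (.col (nat_lit 0)) (.node (.col (nat_lit 0)) (.col (nat_lit 1)) (.slot (nat_lit 1)))) (.col (nat_lit 2)) (.col (nat_lit 0))
def w1279 : Root := .mk (.col (nat_lit 3)) (.node (.node (.col (nat_lit 4)) (.col (nat_lit 2)) (.slot (nat_lit 2))) (.col (nat_lit 0)) (.node (.col (nat_lit 0)) (.col (nat_lit 1)) (.slot (nat_lit 1)))) (.col (nat_lit 2)) (.col (nat_lit 0))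
def w1280 : Root := .mk (.node (.node (.col (nat_lit 3)) (.col (nat_lit 2)) .junk) (.col (nat_lit 0)) (.node (.col (nat_lit 0)) (.col (nat_lit 1)) (.slot (nat_lit 0)))) (.node (.col (nat_lit 0)) (.node (.slot (nat_lit 0)) (.slot (nat_lit 0)) (.slot (nat_lit 0))) (.col (nat_lit 1))) (.col (nat_lit 2)) (.col (nat_lit 0))
def w1281 : Root := .mk (.node (.node (.node (.col (nat_lit 3)) (.col (nat_lit 2)) .junk) (.col (nat_lit 0)) (.node (.col (nat_lit 0)) (.col (nat_lit 1)) (.slot (nat_lit 0)))) (.col (nat_lit 2)) (.slot (nat_lit 1))) (.col (nat_lit 0)) (.col (nat_lit 2)) (.col (nat_lit 1))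
def l292 : Root := .mk (.col (nat_lit 3)) (.node (.node (.node (.col (nat_lit 0)) (.node (.slot (nat_lit 0)) (.slot (nat_lit 0)) (.slot (nat_lit 0))) (.col (nat_lit 1))) (.col (nat_lit 2)) (.slot (nat_lit 2))) (.col (nat_lit 0)) (.node (.col (nat_lit 0)) (.col (nat_lit 1)) (.slot (nat_lit 1)))) (.col (nat_lit 2)) (.col (nat_lit 0))
def w1282 : Root := .mk (.col (nat_lit 3)) (.node (.node (.node (.col (nat_lit 0)) (.node (.slot (nat_lit 0)) (.slot (nat_lit 0)) (.slot (nat_lit 0))) (.col (nat_lit 1))) (.slot (nat_lit 1)) (.slot (nat_lit 2))) (.col (nat_lit 0)) (.node (.col (nat_lit 0)) (.col (nat_lit 1)) (.slot (nat_lit 1)))) (.col (nat_lit 2)) (.col (nat_lit 0))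
def w1283 : Root := .mk (.col (nat_lit 3)) (.node (.node (.col (nat_lit 4)) (.col (nat_lit 2)) (.slot (nat_lit 1))) (.col (nat_lit 0)) (.node (.col (nat_lit 0)) (.col (nat_lit 2)) (.slot (nat_lit 1)))) (.col (nat_lit 2)) (.col (nat_lit 0))
def w1284 : Root := .mk (.node (.node (.col (nat_lit 3)) (.col (nat_lit 2)) .junk) (.col (nat_lit 0)) (.node (.col (nat_lit 0)) (.col (nat_lit 2)) (.slot (nat_lit 0)))) (.node (.col (nat_lit 0)) (.node (.slot (nat_lit 0)) (.slot (nat_lit 0)) (.slot (nat_lit 0))) (.col (nat_lit 1))) (.col (nat_lit 2)) (.col (nat_lit 0))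
def w1285 : Root := .mk (.node (.node (.node (.col (nat_lit 3)) (.col (nat_lit 2)) .junk) (.col (nat_lit 0)) (.node (.col (nat_lit 0)) (.col (nat_lit 2)) (.slot (nat_lit 0)))) (.col (nat_lit 2)) (.slot (nat_lit 1))) (.col (nat_lit 0)) (.col (nat_lit 2)) (.col (nat_lit 1))
def l293 : Root := .mk (.col (nat_lit 3)) (.node (.node (.node (.col (nat_lit 0)) (.node (.slot (nat_lit 0)) (.slot (nat_lit 0)) (.slot (nat_lit 0))) (.col (nat_lit 1))) (.col (nat_lit 2)) (.slot (nat_lit 2))) (.col (nat_lit 0)) (.node (.col (nat_lit 0)) (.col (nat_lit 2)) (.slot (nat_lit 1)))) (.col (nat_lit 2)) (.col (nat_lit 0))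
def w1286 : Root := .mk (.col (nat_lit 3)) (.node (.node (.node (.col (nat_lit 0)) (.node (.slot (nat_lit 0)) (.slot (nat_lit 0)) (.slot (nat_lit 0))) (.col (nat_lit 1))) (.slot (nat_lit 1)) (.slot (nat_lit 2))) (.col (nat_lit 0)) (.node (.col (nat_lit 0)) (.col (nat_lit 2)) (.slot (nat_lit 1)))) (.col (nat_lit 2)) (.col (nat_lit 0))
def w1287 : Root := .mk (.node (.node (.node (.col (nat_lit 3)) (.col (nat_lit 2)) .junk) (.col (nat_lit 0)) (.node (.col (nat_lit 0)) (.col (nat_lit 4)) (.slot (nat_lit 0)))) (.slot (nat_lit 1)) (.slot (nat_lit 1))) (.col (nat_lit 0)) (.node (.node (.col (nat_lit 0)) (.slot (nat_lit 0)) (.slot (nat_lit 0))) (.slot (nat_lit 1)) (.slot (nat_lit 1))) (.col (nat_lit 1))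
def l294 : Root := .mk (.col (nat_lit 3)) (.node (.node (.node (.col (nat_lit 0)) (.node (.node (.col (nat_lit 0)) (.slot (nat_lit 1)) (.slot (nat_lit 1))) (.slot (nat_lit 7)) (.slot (nat_lit 5))) (.col (nat_lit 1))) (.slot (nat_lit 2)) (.slot (nat_lit 2))) (.col (nat_lit 0)) (.node (.col (nat_lit 0)) (.slot (nat_lit 1)) (.slot (nat_lit 1)))) (.col (nat_lit 2)) (.col (nat_lit 0))
def w1288 : Root := .mk (.col (nat_lit 3)) (.node (.node (.node (.col (nat_lit 0)) (.node (.node (.col (nat_lit 0)) (.slot (nat_lit 1)) (.slot (nat_lit 1))) (.slot (nat_lit 7)) (.slot (nat_lit 5))) (.slot (nat_lit 1))) (.slot (nat_lit 2)) (.slot (nat_lit 2))) (.col (nat_lit 0)) (.node (.col (nat_lit 0)) (.slot (nat_lit 1)) (.slot (nat_lit 1)))) (.col (nat_lit 2)) (.col (nat_lit 0))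
def w1289 : Root := .mk (.col (nat_lit 3)) (.node (.node (.col (nat_lit 1)) (.slot (nat_lit 1)) (.slot (nat_lit 1))) (.col (nat_lit 0)) (.node (.col (nat_lit 1)) (.slot (nat_lit 1)) (.slot (nat_lit 1)))) (.col (nat_lit 2)) (.col (nat_lit 0))
def w1290 : Root := .mk (.col (nat_lit 3)) (.node (.node (.node (.col (nat_lit 0)) (.node (.node (.col (nat_lit 0)) (.slot (nat_lit 3)) (.slot (nat_lit 1))) (.slot (nat_lit 1)) (.slot (nat_lit 1))) (.slot (nat_lit 3))) (.slot (nat_lit 1)) (.slot (nat_lit 1))) (.col (nat_lit 0)) (.node (.col (nat_lit 1)) (.slot (nat_lit 1)) (.slot (nat_lit 1)))) (.col (nat_lit 2)) (.col (nat_lit 0))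
def w1291 : Root := .mk (.col (nat_lit 2)) (.col (nat_lit 0)) (.node (.node (.col (nat_lit 0)) (.node (.col (nat_lit 0)) (.slot (nat_lit 0)) (.slot (nat_lit 0))) (.slot (nat_lit 3))) (.slot (nat_lit 1)) (.slot (nat_lit 1))) (.slot (nat_lit 3))
def w1292 : Root := .mk (.col (nat_lit 3)) (.node (.node (.node (.col (nat_lit 0)) (.node (.node (.col (nat_lit 0)) (.node (.col (nat_lit 0)) (.slot (nat_lit 0)) (.slot (nat_lit 0))) (.slot (nat_lit 3))) (.slot (nat_lit 1)) (.slot (nat_lit 1))) (.slot (nat_lit 3))) (.slot (nat_lit 3)) (.slot (nat_lit 1))) (.col (nat_lit 0)) (.slot (nat_lit 1))) (.col (nat_lit 2)) (.col (nat_lit 0))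
def w1293 : Root := .mk (.col (nat_lit 3)) (.node (.node (.node (.col (nat_lit 0)) (.node (.node (.col (nat_lit 0)) (.node (.col (nat_lit 1)) (.slot (nat_lit 1)) (.slot (nat_lit 1))) (.slot (nat_lit 1))) (.slot (nat_lit 1)) (.slot (nat_lit 1))) (.slot (nat_lit 3))) (.slot (nat_lit 1)) (.slot (nat_lit 1))) (.col (nat_lit 0)) (.slot (nat_lit 3))) (.col (nat_lit 2)) (.col (nat_lit 0))
def w1294 : Root := .mk (.node (.node (.node (.node (.node (.col (nat_lit 3)) (.col (nat_lit 2)) .junk) (.col (nat_lit 0)) (.slot (nat_lit 1))) (.slot (nat_lit 1)) (.slot (nat_lit 1))) (.col (nat_lit 0)) (.slot (nat_lit 1))) (.slot (nat_lit 1)) (.slot (nat_lit 1))) (.col (nat_lit 0)) (.node (.col (nat_lit 2)) (.slot (nat_lit 1)) (.slot (nat_lit 1))) (.slot (nat_lit 2))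
def l295 : Root := .mk (.col (nat_lit 3)) (.node (.node (.node (.col (nat_lit 0)) (.node (.node (.col (nat_lit 0)) (.slot (nat_lit 10)) (.slot (nat_lit 8))) (.slot (nat_lit 8)) (.slot (nat_lit 8))) (.slot (nat_lit 10))) (.slot (nat_lit 7)) (.slot (nat_lit 5))) (.col (nat_lit 0)) (.slot (nat_lit 4))) (.col (nat_lit 2)) (.col (nat_lit 0))
def w1295 : Root := .mk (.col (nat_lit 3)) (.node (.node (.node (.col (nat_lit 0)) (.slot (nat_lit 12)) (.slot (nat_lit 10))) (.slot (nat_lit 7)) (.slot (nat_lit 5))) (.col (nat_lit 0)) (.slot (nat_lit 4))) (.col (nat_lit 2)) (.col (nat_lit 0))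
def l296 : Root := .mk (.node (.col (nat_lit 3)) (.col (nat_lit 2)) (.node (.col (nat_lit 2)) (.slot (nat_lit 0)) (.slot (nat_lit 0)))) (.node (.node (.col (nat_lit 0)) (.slot (nat_lit 0)) (.slot (nat_lit 0))) (.col (nat_lit 2)) (.col (nat_lit 0))) (.col (nat_lit 0)) (.col (nat_lit 1))
def w1296 : Root := .mk (.node (.node (.col (nat_lit 3)) (.col (nat_lit 2)) (.node (.col (nat_lit 2)) (.slot (nat_lit 0)) (.slot (nat_lit 0)))) (.col (nat_lit 0)) (.slot (nat_lit 1))) (.node (.col (nat_lit 0)) (.slot (nat_lit 0)) (.slot (nat_lit 0))) (.col (nat_lit 2)) (.col (nat_lit 0))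
def l297 : Root := .mk (.node (.col (nat_lit 3)) (.col (nat_lit 2)) (.node (.col (nat_lit 2)) (.slot (nat_lit 0)) (.slot (nat_lit 0)))) (.node (.node (.col (nat_lit 0)) (.slot (nat_lit 0)) (.slot (nat_lit 0))) (.col (nat_lit 2)) (.slot (nat_lit 0))) (.col (nat_lit 0)) (.col (nat_lit 1))
def w1297 : Root := .mk (.col (nat_lit 3)) (.node (.node (.node (.col (nat_lit 0)) (.slot (nat_lit 0)) (.slot (nat_lit 0))) (.col (nat_lit 2)) (.slot (nat_lit 0))) (.col (nat_lit 0)) (.slot (nat_lit 1))) (.col (nat_lit 2)) (.node (.col (nat_lit 2)) (.slot (nat_lit 0)) (.slot (nat_lit 0)))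
def l298 : Root := .mk (.col (nat_lit 3)) (.node (.node (.node (.col (nat_lit 0)) (.slot (nat_lit 2)) (.slot (nat_lit 2))) (.col (nat_lit 2)) (.slot (nat_lit 3))) (.col (nat_lit 0)) (.slot (nat_lit 1))) (.col (nat_lit 2)) (.node (.col (nat_lit 2)) (.slot (nat_lit 0)) (.slot (nat_lit 0)))
def w1298 : Root := .mk (.col (nat_lit 3)) (.node (.node (.node (.col (nat_lit 0)) (.slot (nat_lit 2)) (.slot (nat_lit 2))) (.slot (nat_lit 1)) (.slot (nat_lit 3))) (.col (nat_lit 0)) (.slot (nat_lit 1))) (.col (nat_lit 2)) (.node (.col (nat_lit 2)) (.slot (nat_lit 0)) (.slot (nat_lit 0)))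
def l299 : Root := .mk (.col (nat_lit 3)) (.node (.node (.node (.col (nat_lit 0)) (.slot (nat_lit 1)) (.slot (nat_lit 1))) (.col (nat_lit 2)) (.slot (nat_lit 3))) (.col (nat_lit 0)) (.slot (nat_lit 1))) (.col (nat_lit 2)) (.node (.slot (nat_lit 0)) (.slot (nat_lit 0)) (.slot (nat_lit 0)))
def w1299 : Root := .mk (.col (nat_lit 3)) (.node (.node (.node (.col (nat_lit 0)) (.slot (nat_lit 1)) (.slot (nat_lit 1))) (.slot (nat_lit 1)) (.slot (nat_lit 3))) (.col (nat_lit 0)) (.slot (nat_lit 1))) (.col (nat_lit 2)) (.node (.slot (nat_lit 0)) (.slot (nat_lit 0)) (.slot (nat_lit 0)))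
def l300 : Root := .mk (.col (nat_lit 3)) (.node (.node (.node (.col (nat_lit 0)) (.slot (nat_lit 12)) (.slot (nat_lit 10))) (.slot (nat_lit 7)) (.slot (nat_lit 5))) (.col (nat_lit 0)) (.slot (nat_lit 8))) (.col (nat_lit 2)) (.slot (nat_lit 3))
def w1300 : Root := .mk (.col (nat_lit 3)) (.node (.node (.node (.col (nat_lit 0)) (.slot (nat_lit 12)) (.slot (nat_lit 10))) (.slot (nat_lit 7)) (.slot (nat_lit 5))) (.slot (nat_lit 1)) (.slot (nat_lit 8))) (.col (nat_lit 2)) (.slot (nat_lit 3))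
def l301 : Root := .mk (.node (.col (nat_lit 0)) (.col (nat_lit 1)) .junk) (.node (.node (.node (.col (nat_lit 0)) (.col (nat_lit 1)) (.slot (nat_lit 1))) (.col (nat_lit 3)) (.col (nat_lit 0))) (.col (nat_lit 0)) (.col (nat_lit 2))) (.col (nat_lit 2)) (.col (nat_lit 3))
def w1302 : Root := .mk (.node (.node (.node (.col (nat_lit 0)) (.col (nat_lit 1)) .junk) (.col (nat_lit 2)) (.slot (nat_lit 1))) (.col (nat_lit 0)) (.col (nat_lit 2))) (.node (.col (nat_lit 0)) (.col (nat_lit 1)) (.slot (nat_lit 1))) (.col (nat_lit 3)) (.col (nat_lit 0))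
def l302 : Root := .mk (.node (.node (.col (nat_lit 0)) (.col (nat_lit 1)) .junk) (.col (nat_lit 2)) (.slot (nat_lit 1))) (.node (.node (.col (nat_lit 0)) (.col (nat_lit 1)) (.slot (nat_lit 1))) (.col (nat_lit 3)) (.slot (nat_lit 2))) (.col (nat_lit 0)) (.col (nat_lit 2))
def w1303 : Root := .mk (.node (.node (.col (nat_lit 0)) (.col (nat_lit 1)) .junk) (.col (nat_lit 2)) (.slot (nat_lit 1))) (.node (.node (.col (nat_lit 0)) (.col (nat_lit 1)) (.slot (nat_lit 1))) (.slot (nat_lit 1)) (.slot (nat_lit 2))) (.col (nat_lit 0)) (.col (nat_lit 2))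
def w1304 : Root := .mk (.col (nat_lit 0)) (.col (nat_lit 1)) (.node (.node (.col (nat_lit 3)) (.col (nat_lit 0)) (.node (.col (nat_lit 0)) (.slot (nat_lit 0)) (.slot (nat_lit 0)))) (.col (nat_lit 2)) (.slot (nat_lit 1))) (.col (nat_lit 2))
def w1305 : Root := .mk (.col (nat_lit 0)) (.col (nat_lit 1)) (.node (.node (.node (.node (.col (nat_lit 0)) (.col (nat_lit 1)) (.slot (nat_lit 2))) (.slot (nat_lit 1)) (.slot (nat_lit 1))) (.col (nat_lit 0)) (.node (.col (nat_lit 0)) (.slot (nat_lit 0)) (.slot (nat_lit 0)))) (.col (nat_lit 2)) (.slot (nat_lit 1))) (.col (nat_lit 2))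
def w1306 : Root := .mk (.col (nat_lit 0)) (.col (nat_lit 1)) (.node (.node (.node (.node (.col (nat_lit 0)) (.col (nat_lit 1)) (.slot (nat_lit 2))) (.slot (nat_lit 1)) (.slot (nat_lit 1))) (.col (nat_lit 0)) (.node (.col (nat_lit 1)) (.slot (nat_lit 2)) (.slot (nat_lit 2)))) (.col (nat_lit 2)) (.slot (nat_lit 1))) (.col (nat_lit 2))
def l303 : Root := .mk (.col (nat_lit 0)) (.col (nat_lit 1)) (.node (.node (.col (nat_lit 1)) (.col (nat_lit 0)) (.node (.col (nat_lit 3)) (.slot (nat_lit 1)) (.slot (nat_lit 1)))) (.col (nat_lit 2)) (.slot (nat_lit 1))) (.col (nat_lit 2))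
def w1307 : Root := .mk (.col (nat_lit 0)) (.col (nat_lit 1)) (.node (.node (.node (.slot (nat_lit 0)) (.slot (nat_lit 0)) (.slot (nat_lit 0))) (.col (nat_lit 0)) (.node (.col (nat_lit 3)) (.slot (nat_lit 1)) (.slot (nat_lit 1)))) (.col (nat_lit 2)) (.slot (nat_lit 1))) (.col (nat_lit 2))
def w1308 : Root := .mk (.col (nat_lit 0)) (.col (nat_lit 1)) (.node (.node (.node (.node (.col (nat_lit 0)) (.col (nat_lit 1)) (.slot (nat_lit 2))) (.slot (nat_lit 1)) (.slot (nat_lit 1))) (.col (nat_lit 0)) (.node (.slot (nat_lit 0)) (.slot (nat_lit 0)) (.slot (nat_lit 0)))) (.col (nat_lit 2)) (.slot (nat_lit 1))) (.col (nat_lit 2))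
def w1309 : Root := .mk (.slot (nat_lit 0)) (.node (.node (.node (.col (nat_lit 0)) (.col (nat_lit 1)) (.slot (nat_lit 3))) (.slot (nat_lit 1)) (.slot (nat_lit 1))) (.col (nat_lit 0)) (.slot (nat_lit 3))) (.col (nat_lit 2)) (.col (nat_lit 0))
def w1310 : Root := .mk (.slot (nat_lit 0)) (.node (.node (.node (.col (nat_lit 0)) (.col (nat_lit 1)) (.slot (nat_lit 3))) (.slot (nat_lit 1)) (.slot (nat_lit 1))) (.col (nat_lit 0)) (.slot (nat_lit 3))) (.col (nat_lit 2)) (.slot (nat_lit 0))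
def w1311 : Root := .mk (.col (nat_lit 0)) (.col (nat_lit 1)) (.node (.node (.node (.slot (nat_lit 0)) (.col (nat_lit 0)) (.slot (nat_lit 0))) (.col (nat_lit 0)) (.slot (nat_lit 3))) (.col (nat_lit 2)) (.slot (nat_lit 1))) (.col (nat_lit 2))
def w1312 : Root := .mk (.node (.node (.node (.slot (nat_lit 0)) (.col (nat_lit 2)) (.slot (nat_lit 1))) (.col (nat_lit 0)) (.slot (nat_lit 2))) (.col (nat_lit 1)) (.slot (nat_lit 1))) (.col (nat_lit 0)) (.col (nat_lit 1)) (.slot (nat_lit 3))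
def l304 : Root := .mk (.col (nat_lit 0)) (.col (nat_lit 1)) (.node (.node (.node (.node (.col (nat_lit 0)) (.col (nat_lit 1)) (.slot (nat_lit 3))) (.slot (nat_lit 2)) (.slot (nat_lit 1))) (.col (nat_lit 0)) (.slot (nat_lit 3))) (.col (nat_lit 2)) (.slot (nat_lit 2))) (.col (nat_lit 2))
def w1313 : Root := .mk (.col (nat_lit 0)) (.col (nat_lit 1)) (.node (.node (.node (.node (.col (nat_lit 0)) (.col (nat_lit 1)) (.slot (nat_lit 3))) (.slot (nat_lit 2)) (.slot (nat_lit 1))) (.slot (nat_lit 1)) (.slot (nat_lit 3))) (.col (nat_lit 2)) (.slot (nat_lit 2))) (.col (nat_lit 2))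
def w1315 : Root := .mk (.col (nat_lit 0)) (.col (nat_lit 1)) (.node (.node (.node (.node (.col (nat_lit 0)) (.col (nat_lit 3)) (.slot (nat_lit 2))) (.slot (nat_lit 1)) (.slot (nat_lit 1))) (.slot (nat_lit 3)) (.slot (nat_lit 1))) (.col (nat_lit 2)) (.slot (nat_lit 1))) (.col (nat_lit 2))
def w1316 : Root := .mk (.node (.node (.node (.node (.slot (nat_lit 0)) (.slot (nat_lit 0)) (.slot (nat_lit 0))) (.slot (nat_lit 2)) (.slot (nat_lit 2))) (.col (nat_lit 0)) (.col (nat_lit 1))) (.col (nat_lit 2)) (.col (nat_lit 0))) (.col (nat_lit 0)) (.col (nat_lit 1)) (.col (nat_lit 2))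
def l305 : Root := .mk (.node (.node (.node (.slot (nat_lit 0)) (.slot (nat_lit 0)) (.slot (nat_lit 0))) (.slot (nat_lit 2)) (.slot (nat_lit 2))) (.col (nat_lit 0)) (.col (nat_lit 1))) (.node (.col (nat_lit 0)) (.col (nat_lit 1)) (.slot (nat_lit 3))) (.col (nat_lit 2)) (.col (nat_lit 0))
def w1317 : Root := .mk (.node (.node (.node (.slot (nat_lit 0)) (.slot (nat_lit 0)) (.slot (nat_lit 0))) (.slot (nat_lit 2)) (.slot (nat_lit 2))) (.col (nat_lit 0)) (.col (nat_lit 1))) (.node (.col (nat_lit 0)) (.slot (nat_lit 1)) (.slot (nat_lit 3))) (.col (nat_lit 2)) (.col (nat_lit 0))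
def l306 : Root := .mk (.node (.node (.slot (nat_lit 0)) (.slot (nat_lit 0)) (.slot (nat_lit 0))) (.slot (nat_lit 2)) (.slot (nat_lit 2))) (.col (nat_lit 0)) (.node (.node (.col (nat_lit 0)) (.slot (nat_lit 3)) (.slot (nat_lit 1))) (.col (nat_lit 2)) (.slot (nat_lit 8))) (.col (nat_lit 1))
def w1318 : Root := .mk (.node (.node (.slot (nat_lit 0)) (.slot (nat_lit 0)) (.slot (nat_lit 0))) (.slot (nat_lit 2)) (.slot (nat_lit 2))) (.col (nat_lit 0)) (.node (.node (.col (nat_lit 0)) (.slot (nat_lit 3)) (.slot (nat_lit 1))) (.slot (nat_lit 1)) (.slot (nat_lit 8))) (.col (nat_lit 1))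
def w1319 : Root := .mk (.node (.node (.col (nat_lit 1)) (.slot (nat_lit 7)) (.slot (nat_lit 5))) (.col (nat_lit 0)) (.node (.col (nat_lit 0)) (.slot (nat_lit 1)) (.slot (nat_lit 4)))) (.node (.col (nat_lit 0)) (.slot (nat_lit 2)) (.slot (nat_lit 1))) (.col (nat_lit 1)) (.col (nat_lit 0))
def w1320 : Root := .mk (.node (.node (.col (nat_lit 1)) (.slot (nat_lit 1)) (.slot (nat_lit 0))) (.col (nat_lit 0)) (.node (.col (nat_lit 0)) (.slot (nat_lit 0)) (.slot (nat_lit 0)))) (.node (.col (nat_lit 0)) (.slot (nat_lit 2)) (.slot (nat_lit 2))) (.col (nat_lit 1)) (.node (.col (nat_lit 2)) (.slot (nat_lit 0)) (.slot (nat_lit 0)))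
def w1321 : Root := .mk (.node (.node (.col (nat_lit 1)) (.slot (nat_lit 2)) (.slot (nat_lit 2))) (.col (nat_lit 0)) (.node (.node (.col (nat_lit 0)) (.slot (nat_lit 1)) (.slot (nat_lit 0))) (.col (nat_lit 1)) (.slot (nat_lit 1)))) (.col (nat_lit 0)) (.col (nat_lit 2)) (.slot (nat_lit 0))
def l307 : Root := .mk (.node (.col (nat_lit 1)) (.slot (nat_lit 7)) (.slot (nat_lit 5))) (.col (nat_lit 0)) (.node (.node (.col (nat_lit 0)) (.slot (nat_lit 7)) (.slot (nat_lit 5))) (.col (nat_lit 1)) (.slot (nat_lit 8))) (.node (.col (nat_lit 0)) (.slot (nat_lit 4)) (.slot (nat_lit 1)))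
def w1322 : Root := .mk (.node (.col (nat_lit 1)) (.slot (nat_lit 7)) (.slot (nat_lit 5))) (.col (nat_lit 0)) (.node (.node (.col (nat_lit 0)) (.slot (nat_lit 7)) (.slot (nat_lit 5))) (.slot (nat_lit 1)) (.slot (nat_lit 8))) (.node (.col (nat_lit 0)) (.slot (nat_lit 4)) (.slot (nat_lit 1)))
def w1325 : Root := .mk (.node (.col (nat_lit 1)) (.col (nat_lit 2)) (.slot (nat_lit 1))) (.col (nat_lit 0)) (.node (.col (nat_lit 1)) (.slot (nat_lit 0)) (.slot (nat_lit 0))) (.node (.col (nat_lit 2)) (.slot (nat_lit 1)) (.slot (nat_lit 0)))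
def w1326 : Root := .mk (.node (.col (nat_lit 1)) (.col (nat_lit 2)) (.slot (nat_lit 1))) (.col (nat_lit 0)) (.node (.col (nat_lit 3)) (.slot (nat_lit 0)) (.slot (nat_lit 0))) (.node (.col (nat_lit 2)) (.slot (nat_lit 1)) (.slot (nat_lit 0)))
def l308 : Root := .mk (.col (nat_lit 1)) (.node (.col (nat_lit 0)) (.node (.node (.col (nat_lit 0)) (.slot (nat_lit 1)) (.slot (nat_lit 1))) (.slot (nat_lit 2)) (.slot (nat_lit 1))) (.node (.col (nat_lit 2)) (.slot (nat_lit 3)) (.slot (nat_lit 1)))) (.col (nat_lit 2)) (.slot (nat_lit 3))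
def w1327 : Root := .mk (.node (.col (nat_lit 1)) (.slot (nat_lit 1)) (.slot (nat_lit 3))) (.col (nat_lit 0)) (.node (.node (.col (nat_lit 0)) (.slot (nat_lit 1)) (.slot (nat_lit 1))) (.slot (nat_lit 2)) (.slot (nat_lit 1))) (.node (.col (nat_lit 2)) (.slot (nat_lit 3)) (.slot (nat_lit 1)))
def w1330 : Root := .mk (.node (.node (.col (nat_lit 1)) (.slot (nat_lit 2)) (.slot (nat_lit 2))) (.col (nat_lit 0)) (.node (.slot (nat_lit 0)) (.col (nat_lit 1)) (.slot (nat_lit 0)))) (.node (.col (nat_lit 0)) (.col (nat_lit 2)) (.slot (nat_lit 0))) (.col (nat_lit 1)) (.col (nat_lit 0))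
def w1331 : Root := .mk (.node (.col (nat_lit 1)) (.slot (nat_lit 2)) (.slot (nat_lit 2))) (.col (nat_lit 0)) (.node (.node (.col (nat_lit 0)) (.slot (nat_lit 0)) (.slot (nat_lit 0))) (.node (.col (nat_lit 0)) (.slot (nat_lit 1)) (.slot (nat_lit 0))) (.slot (nat_lit 1))) (.col (nat_lit 2))
def w1332 : Root := .mk (.node (.node (.node (.col (nat_lit 1)) (.slot (nat_lit 2)) (.slot (nat_lit 2))) (.col (nat_lit 0)) (.col (nat_lit 2))) (.slot (nat_lit 1)) (.slot (nat_lit 1))) (.col (nat_lit 0)) (.node (.col (nat_lit 1)) (.slot (nat_lit 0)) (.slot (nat_lit 0))) (.col (nat_lit 1))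
def l309 : Root := .mk (.node (.col (nat_lit 1)) (.slot (nat_lit 3)) (.slot (nat_lit 3))) (.col (nat_lit 0)) (.node (.node (.col (nat_lit 0)) (.node (.col (nat_lit 1)) (.slot (nat_lit 1)) (.slot (nat_lit 1))) (.slot (nat_lit 2))) (.slot (nat_lit 7)) (.slot (nat_lit 5))) (.col (nat_lit 2))
def w1333 : Root := .mk (.node (.col (nat_lit 1)) (.slot (nat_lit 3)) (.slot (nat_lit 3))) (.col (nat_lit 0)) (.node (.node (.col (nat_lit 0)) (.node (.col (nat_lit 1)) (.slot (nat_lit 1)) (.slot (nat_lit 1))) (.slot (nat_lit 2))) (.slot (nat_lit 7)) (.slot (nat_lit 5))) (.node (.slot (nat_lit 0)) (.slot (nat_lit 0)) (.slot (nat_lit 0)))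
def w1334 : Root := .mk (.node (.col (nat_lit 1)) (.slot (nat_lit 2)) (.slot (nat_lit 2))) (.col (nat_lit 0)) (.node (.node (.col (nat_lit 0)) (.col (nat_lit 2)) (.slot (nat_lit 0))) (.node (.col (nat_lit 0)) (.slot (nat_lit 1)) (.slot (nat_lit 0))) (.slot (nat_lit 1))) (.col (nat_lit 2))
def w1335 : Root := .mk (.node (.col (nat_lit 1)) (.slot (nat_lit 2)) (.slot (nat_lit 2))) (.col (nat_lit 0)) (.node (.node (.col (nat_lit 0)) (.col (nat_lit 2)) (.slot (nat_lit 0))) (.node (.col (nat_lit 3)) (.slot (nat_lit 1)) (.slot (nat_lit 0))) (.slot (nat_lit 1))) (.col (nat_lit 2))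
def l310 : Root := .mk (.node (.col (nat_lit 1)) (.slot (nat_lit 2)) (.slot (nat_lit 2))) (.col (nat_lit 0)) (.node (.node (.col (nat_lit 0)) (.col (nat_lit 2)) (.slot (nat_lit 2))) (.slot (nat_lit 2)) (.slot (nat_lit 2))) (.col (nat_lit 2))
def w1336 : Root := .mk (.node (.node (.node (.col (nat_lit 1)) (.slot (nat_lit 2)) (.slot (nat_lit 2))) (.col (nat_lit 0)) (.node (.slot (nat_lit 0)) (.slot (nat_lit 0)) (.slot (nat_lit 0)))) (.slot (nat_lit 2)) (.slot (nat_lit 2))) (.col (nat_lit 0)) (.col (nat_lit 2)) (.slot (nat_lit 2))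
def w1339 : Root := .mk (.node (.node (.node (.col (nat_lit 0)) (.col (nat_lit 1)) .junk) (.col (nat_lit 2)) (.slot (nat_lit 1))) (.slot (nat_lit 1)) (.slot (nat_lit 0))) (.col (nat_lit 3)) (.col (nat_lit 1)) (.col (nat_lit 0))
def w1342 : Root := .mk (.node (.node (.slot (nat_lit 0)) (.col (nat_lit 2)) (.slot (nat_lit 0))) (.slot (nat_lit 2)) (.slot (nat_lit 2))) (.node (.col (nat_lit 0)) (.node (.slot (nat_lit 0)) (.col (nat_lit 1)) (.col (nat_lit 0))) (.col (nat_lit 3))) (.col (nat_lit 1)) (.col (nat_lit 0))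
def w1343 : Root := .mk (.node (.node (.slot (nat_lit 0)) (.col (nat_lit 2)) (.slot (nat_lit 0))) (.slot (nat_lit 3)) (.slot (nat_lit 3))) (.node (.col (nat_lit 0)) (.node (.slot (nat_lit 0)) (.col (nat_lit 1)) (.col (nat_lit 0))) (.col (nat_lit 3))) (.col (nat_lit 1)) (.col (nat_lit 3))
def w1346 : Root := .mk (.node (.node (.slot (nat_lit 0)) (.slot (nat_lit 0)) (.slot (nat_lit 0))) (.col (nat_lit 1)) (.slot (nat_lit 2))) (.col (nat_lit 0)) (.node (.node (.col (nat_lit 0)) (.slot (nat_lit 0)) (.slot (nat_lit 1))) (.col (nat_lit 1)) (.slot (nat_lit 1))) (.node (.slot (nat_lit 0)) (.slot (nat_lit 0)) (.slot (nat_lit 0)))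
def w1347 : Root := .mk (.node (.node (.slot (nat_lit 0)) (.slot (nat_lit 0)) (.slot (nat_lit 0))) (.col (nat_lit 1)) (.slot (nat_lit 2))) (.col (nat_lit 0)) (.node (.node (.col (nat_lit 0)) (.slot (nat_lit 1)) (.slot (nat_lit 0))) (.col (nat_lit 1)) (.slot (nat_lit 1))) (.node (.col (nat_lit 2)) (.slot (nat_lit 0)) (.slot (nat_lit 0)))
def w1348 : Root := .mk (.node (.node (.slot (nat_lit 0)) (.slot (nat_lit 0)) (.slot (nat_lit 0))) (.col (nat_lit 1)) (.slot (nat_lit 2))) (.col (nat_lit 0)) (.node (.node (.col (nat_lit 0)) (.slot (nat_lit 1)) (.slot (nat_lit 0))) (.col (nat_lit 1)) (.slot (nat_lit 1))) (.node (.slot (nat_lit 0)) (.col (nat_lit 1)) (.slot (nat_lit 0)))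
def w1350 : Root := .mk (.node (.node (.node (.col (nat_lit 0)) (.col (nat_lit 1)) .junk) (.col (nat_lit 2)) (.slot (nat_lit 1))) (.slot (nat_lit 1)) (.slot (nat_lit 1))) (.col (nat_lit 3)) (.col (nat_lit 1)) (.slot (nat_lit 2))
def w1351 : Root := .mk (.node (.col (nat_lit 3)) (.slot (nat_lit 3)) (.slot (nat_lit 3))) (.node (.col (nat_lit 0)) (.node (.col (nat_lit 3)) (.col (nat_lit 1)) (.slot (nat_lit 0))) (.node (.slot (nat_lit 0)) (.slot (nat_lit 0)) (.slot (nat_lit 0)))) (.col (nat_lit 1)) (.col (nat_lit 0))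
def w1352 : Root := .mk (.node (.col (nat_lit 3)) (.slot (nat_lit 1)) (.slot (nat_lit 1))) (.node (.col (nat_lit 0)) (.node (.slot (nat_lit 0)) (.col (nat_lit 1)) (.node (.col (nat_lit 1)) (.slot (nat_lit 0)) (.slot (nat_lit 0)))) (.node (.slot (nat_lit 0)) (.slot (nat_lit 0)) (.slot (nat_lit 0)))) (.col (nat_lit 1)) (.col (nat_lit 0))
def w1353 : Root := .mk (.node (.col (nat_lit 3)) (.slot (nat_lit 2)) (.slot (nat_lit 2))) (.node (.col (nat_lit 0)) (.node (.slot (nat_lit 0)) (.col (nat_lit 1)) (.node (.col (nat_lit 2)) (.slot (nat_lit 0)) (.slot (nat_lit 0)))) (.node (.slot (nat_lit 0)) (.slot (nat_lit 0)) (.slot (nat_lit 0)))) (.col (nat_lit 1)) (.col (nat_lit 0))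
def w1354 : Root := .mk (.node (.col (nat_lit 3)) (.slot (nat_lit 2)) (.slot (nat_lit 2))) (.node (.col (nat_lit 0)) (.node (.slot (nat_lit 0)) (.col (nat_lit 1)) (.node (.col (nat_lit 3)) (.slot (nat_lit 0)) (.slot (nat_lit 0)))) (.node (.slot (nat_lit 0)) (.slot (nat_lit 0)) (.slot (nat_lit 0)))) (.col (nat_lit 1)) (.col (nat_lit 0))
def w1355 : Root := .mk (.node (.col (nat_lit 3)) (.slot (nat_lit 1)) (.slot (nat_lit 1))) (.node (.col (nat_lit 0)) (.node (.slot (nat_lit 0)) (.col (nat_lit 1)) (.slot (nat_lit 1))) (.node (.col (nat_lit 0)) (.slot (nat_lit 0)) (.slot (nat_lit 0)))) (.col (nat_lit 1)) (.col (nat_lit 0))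
def w1356 : Root := .mk (.node (.col (nat_lit 3)) .junk (.slot (nat_lit 1))) (.node (.col (nat_lit 0)) (.node (.node (.col (nat_lit 0)) (.slot (nat_lit 1)) (.slot (nat_lit 0))) (.col (nat_lit 1)) (.slot (nat_lit 1))) (.node (.slot (nat_lit 0)) (.slot (nat_lit 0)) (.slot (nat_lit 0)))) (.col (nat_lit 1)) (.col (nat_lit 0))
def l314 : Root := .mk (.node (.col (nat_lit 3)) (.slot (nat_lit 3)) (.slot (nat_lit 3))) (.node (.col (nat_lit 0)) (.node (.node (.col (nat_lit 0)) (.slot (nat_lit 7)) (.slot (nat_lit 5))) (.col (nat_lit 1)) (.slot (nat_lit 8))) (.node (.slot (nat_lit 0)) (.slot (nat_lit 1)) (.slot (nat_lit 1)))) (.col (nat_lit 1)) (.col (nat_lit 0))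
def w1357 : Root := .mk (.node (.col (nat_lit 3)) (.slot (nat_lit 3)) (.slot (nat_lit 3))) (.node (.col (nat_lit 0)) (.node (.node (.col (nat_lit 0)) (.slot (nat_lit 7)) (.slot (nat_lit 5))) (.slot (nat_lit 1)) (.slot (nat_lit 8))) (.node (.slot (nat_lit 0)) (.slot (nat_lit 1)) (.slot (nat_lit 1)))) (.col (nat_lit 1)) (.col (nat_lit 0))
def w1359 : Root := .mk (.node (.node (.node (.node (.col (nat_lit 0)) (.col (nat_lit 1)) .junk) (.col (nat_lit 2)) (.slot (nat_lit 1))) (.slot (nat_lit 1)) (.slot (nat_lit 1))) (.col (nat_lit 1)) (.col (nat_lit 2))) (.col (nat_lit 0)) (.col (nat_lit 1)) (.node (.slot (nat_lit 0)) (.slot (nat_lit 0)) (.slot (nat_lit 0)))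
def w1360 : Root := .mk (.node (.node (.node (.node (.col (nat_lit 0)) (.col (nat_lit 1)) .junk) (.col (nat_lit 2)) (.slot (nat_lit 1))) (.slot (nat_lit 1)) (.slot (nat_lit 1))) (.col (nat_lit 1)) (.col (nat_lit 2))) (.col (nat_lit 0)) (.col (nat_lit 2)) (.node (.slot (nat_lit 0)) (.slot (nat_lit 0)) (.slot (nat_lit 0)))
def w1361 : Root := .mk (.node (.node (.slot (nat_lit 0)) (.col (nat_lit 2)) (.slot (nat_lit 0))) (.slot (nat_lit 2)) (.slot (nat_lit 2))) (.node (.col (nat_lit 0)) (.node (.col (nat_lit 3)) (.slot (nat_lit 1)) (.slot (nat_lit 0))) (.node (.slot (nat_lit 0)) (.slot (nat_lit 0)) (.slot (nat_lit 0)))) (.col (nat_lit 1)) (.col (nat_lit 2))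
def w1362 : Root := .mk (.node (.node (.slot (nat_lit 0)) (.col (nat_lit 2)) (.slot (nat_lit 0))) (.slot (nat_lit 1)) (.slot (nat_lit 1))) (.node (.col (nat_lit 0)) (.node (.slot (nat_lit 0)) (.col (nat_lit 0)) (.slot (nat_lit 0))) (.node (.slot (nat_lit 0)) (.slot (nat_lit 1)) (.slot (nat_lit 0)))) (.col (nat_lit 1)) (.col (nat_lit 2))
def w1367 : Root := .mk (.node (.node (.node (.col (nat_lit 1)) (.slot (nat_lit 0)) (.slot (nat_lit 0))) (.col (nat_lit 1)) (.slot (nat_lit 1))) (.col (nat_lit 0)) (.node (.slot (nat_lit 0)) (.col (nat_lit 1)) (.slot (nat_lit 1)))) (.node .junk (.col (nat_lit 2)) (.slot (nat_lit 1))) (.col (nat_lit 1)) (.col (nat_lit 0))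
def l316 : Root := .mk (.node (.col (nat_lit 1)) (.col (nat_lit 0)) (.slot (nat_lit 2))) (.node (.col (nat_lit 0)) (.node (.node (.col (nat_lit 0)) (.slot (nat_lit 1)) (.slot (nat_lit 1))) (.slot (nat_lit 2)) (.slot (nat_lit 1))) (.node (.slot (nat_lit 0)) (.slot (nat_lit 0)) (.slot (nat_lit 0)))) (.col (nat_lit 1)) (.col (nat_lit 2))
def w1369 : Root := .mk (.col (nat_lit 1)) (.node (.node (.col (nat_lit 0)) (.node (.node (.col (nat_lit 0)) (.slot (nat_lit 1)) (.slot (nat_lit 1))) (.slot (nat_lit 2)) (.slot (nat_lit 1))) (.node (.slot (nat_lit 0)) (.slot (nat_lit 0)) (.slot (nat_lit 0)))) (.col (nat_lit 1)) (.slot (nat_lit 1))) (.col (nat_lit 0)) (.slot (nat_lit 2))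
def w1370 : Root := .mk (.node (.node (.col (nat_lit 1)) (.col (nat_lit 3)) (.slot (nat_lit 1))) (.col (nat_lit 1)) (.slot (nat_lit 2))) (.col (nat_lit 0)) (.node (.col (nat_lit 1)) (.slot (nat_lit 1)) (.slot (nat_lit 1))) (.node (.slot (nat_lit 0)) (.slot (nat_lit 0)) (.slot (nat_lit 0)))
def w1371 : Root := .mk (.node (.node (.col (nat_lit 1)) (.col (nat_lit 3)) (.slot (nat_lit 0))) (.col (nat_lit 1)) (.slot (nat_lit 1))) (.col (nat_lit 0)) (.col (nat_lit 2)) (.node (.slot (nat_lit 0)) (.col (nat_lit 1)) (.slot (nat_lit 1)))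
def w1372 : Root := .mk (.node (.node (.col (nat_lit 1)) (.col (nat_lit 3)) (.slot (nat_lit 1))) (.col (nat_lit 1)) (.slot (nat_lit 2))) (.col (nat_lit 0)) (.node (.node (.col (nat_lit 0)) (.slot (nat_lit 0)) (.slot (nat_lit 0))) (.slot (nat_lit 1)) (.slot (nat_lit 1))) (.col (nat_lit 2))
def w1375 : Root := .mk (.node (.node (.col (nat_lit 1)) (.col (nat_lit 3)) (.slot (nat_lit 3))) (.col (nat_lit 1)) (.node (.col (nat_lit 1)) (.col (nat_lit 3)) (.slot (nat_lit 3)))) (.col (nat_lit 0)) (.slot (nat_lit 0)) (.col (nat_lit 2))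
def w1376 : Root := .mk (.node (.node (.col (nat_lit 1)) (.col (nat_lit 3)) (.slot (nat_lit 0))) (.col (nat_lit 1)) (.node (.col (nat_lit 1)) (.col (nat_lit 4)) (.slot (nat_lit 0)))) (.col (nat_lit 0)) (.node (.col (nat_lit 1)) (.slot (nat_lit 1)) (.slot (nat_lit 0))) (.col (nat_lit 2))
def l319 : Root := .mk (.node (.node (.col (nat_lit 1)) (.col (nat_lit 3)) (.slot (nat_lit 3))) (.col (nat_lit 1)) (.node (.col (nat_lit 1)) (.slot (nat_lit 3)) (.slot (nat_lit 3)))) (.col (nat_lit 0)) (.node (.col (nat_lit 1)) (.slot (nat_lit 2)) (.slot (nat_lit 2))) (.col (nat_lit 2))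
def w1377 : Root := .mk (.node (.node (.col (nat_lit 1)) (.col (nat_lit 3)) (.slot (nat_lit 3))) (.col (nat_lit 1)) (.node (.col (nat_lit 1)) (.slot (nat_lit 3)) (.slot (nat_lit 3)))) (.col (nat_lit 0)) (.node (.node (.col (nat_lit 0)) (.slot (nat_lit 0)) (.slot (nat_lit 0))) (.slot (nat_lit 2)) (.slot (nat_lit 2))) (.col (nat_lit 2))
def w1378 : Root := .mk (.node (.node (.col (nat_lit 1)) (.col (nat_lit 3)) (.slot (nat_lit 1))) (.col (nat_lit 1)) (.node (.col (nat_lit 3)) (.slot (nat_lit 1)) (.slot (nat_lit 1)))) (.col (nat_lit 0)) (.node (.slot (nat_lit 0)) (.slot (nat_lit 0)) (.slot (nat_lit 0))) (.col (nat_lit 2))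
def w1379 : Root := .mk (.node (.slot (nat_lit 0)) (.col (nat_lit 1)) (.node (.col (nat_lit 4)) (.slot (nat_lit 0)) (.slot (nat_lit 0)))) (.col (nat_lit 0)) (.node (.col (nat_lit 1)) (.col (nat_lit 0)) (.slot (nat_lit 3))) (.col (nat_lit 2))
def w1380 : Root := .mk (.node (.node (.col (nat_lit 1)) (.col (nat_lit 3)) (.slot (nat_lit 0))) (.col (nat_lit 1)) (.node (.col (nat_lit 4)) (.col (nat_lit 0)) (.slot (nat_lit 0)))) (.col (nat_lit 0)) (.node (.col (nat_lit 1)) (.slot (nat_lit 1)) (.slot (nat_lit 0))) (.col (nat_lit 2))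
def w1381 : Root := .mk (.node (.node (.col (nat_lit 1)) (.col (nat_lit 3)) (.slot (nat_lit 3))) (.col (nat_lit 1)) (.node (.col (nat_lit 4)) (.col (nat_lit 3)) (.slot (nat_lit 3)))) (.col (nat_lit 0)) (.slot (nat_lit 0)) (.col (nat_lit 2))
def l320 : Root := .mk (.node (.node (.col (nat_lit 1)) (.col (nat_lit 3)) (.slot (nat_lit 3))) (.col (nat_lit 1)) (.node (.col (nat_lit 4)) (.slot (nat_lit 3)) (.slot (nat_lit 3)))) (.col (nat_lit 0)) (.node (.col (nat_lit 1)) (.slot (nat_lit 3)) (.slot (nat_lit 3))) (.col (nat_lit 2))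
def l321 : Root := .mk (.node (.node (.col (nat_lit 1)) (.col (nat_lit 3)) (.slot (nat_lit 1))) (.col (nat_lit 1)) (.node (.slot (nat_lit 0)) (.slot (nat_lit 1)) (.slot (nat_lit 0)))) (.col (nat_lit 0)) (.node (.col (nat_lit 1)) (.slot (nat_lit 2)) (.slot (nat_lit 2))) (.col (nat_lit 2))
def w1383 : Root := .mk (.node (.node (.col (nat_lit 1)) (.col (nat_lit 3)) (.slot (nat_lit 1))) (.col (nat_lit 1)) (.node (.slot (nat_lit 0)) (.slot (nat_lit 1)) (.slot (nat_lit 0)))) (.col (nat_lit 0)) (.node (.node (.col (nat_lit 0)) (.slot (nat_lit 0)) (.slot (nat_lit 0))) (.slot (nat_lit 2)) (.slot (nat_lit 2))) (.col (nat_lit 2))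
def l322 : Root := .mk (.node (.col (nat_lit 1)) (.col (nat_lit 3)) (.slot (nat_lit 0))) (.node (.col (nat_lit 0)) (.node (.col (nat_lit 3)) (.col (nat_lit 0)) (.slot (nat_lit 1))) (.col (nat_lit 2))) (.col (nat_lit 1)) (.col (nat_lit 3))
def w1384 : Root := .mk (.node (.node (.col (nat_lit 1)) (.col (nat_lit 3)) (.slot (nat_lit 0))) (.col (nat_lit 1)) (.slot (nat_lit 1))) (.col (nat_lit 0)) (.node (.col (nat_lit 3)) (.col (nat_lit 0)) (.slot (nat_lit 1))) (.col (nat_lit 2))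
def w1385 : Root := .mk (.node (.node (.col (nat_lit 1)) (.col (nat_lit 3)) (.slot (nat_lit 0))) (.col (nat_lit 1)) (.slot (nat_lit 1))) (.col (nat_lit 0)) (.node (.node (.col (nat_lit 0)) (.node (.col (nat_lit 1)) (.slot (nat_lit 1)) (.slot (nat_lit 1))) (.slot (nat_lit 2))) (.col (nat_lit 0)) (.slot (nat_lit 1))) (.col (nat_lit 2))
def w1386 : Root := .mk (.node (.node (.col (nat_lit 1)) (.col (nat_lit 3)) (.slot (nat_lit 0))) (.col (nat_lit 1)) (.slot (nat_lit 1))) (.col (nat_lit 0)) (.node (.col (nat_lit 4)) (.col (nat_lit 2)) (.slot (nat_lit 1))) (.col (nat_lit 2))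
def w1388 : Root := .mk (.node (.slot (nat_lit 0)) (.col (nat_lit 1)) (.slot (nat_lit 0))) (.col (nat_lit 0)) (.node (.node (.col (nat_lit 0)) (.col (nat_lit 3)) (.slot (nat_lit 3))) (.col (nat_lit 2)) (.slot (nat_lit 1))) (.col (nat_lit 2))
def w1390 : Root := .mk (.slot (nat_lit 0)) (.col (nat_lit 0)) (.node (.node (.col (nat_lit 0)) (.node (.col (nat_lit 1)) (.slot (nat_lit 7)) (.slot (nat_lit 5))) (.slot (nat_lit 8))) (.node (.col (nat_lit 0)) (.slot (nat_lit 7)) (.slot (nat_lit 5))) (.slot (nat_lit 8))) (.col (nat_lit 2))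
def l324 : Root := .mk (.node (.node (.col (nat_lit 1)) (.col (nat_lit 3)) (.slot (nat_lit 0))) (.col (nat_lit 1)) (.slot (nat_lit 2))) (.col (nat_lit 0)) (.node (.col (nat_lit 1)) (.node (.col (nat_lit 1)) (.slot (nat_lit 0)) (.slot (nat_lit 0))) (.slot (nat_lit 2))) (.col (nat_lit 2))
def l325 : Root := .mk (.node (.node (.col (nat_lit 1)) (.col (nat_lit 3)) (.slot (nat_lit 0))) (.col (nat_lit 1)) (.slot (nat_lit 2))) (.col (nat_lit 0)) (.node (.col (nat_lit 1)) (.node (.col (nat_lit 2)) (.slot (nat_lit 1)) (.slot (nat_lit 1))) (.slot (nat_lit 2))) (.col (nat_lit 2))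
def w1393 : Root := .mk (.node (.slot (nat_lit 0)) (.col (nat_lit 1)) (.slot (nat_lit 1))) (.col (nat_lit 0)) (.node (.col (nat_lit 1)) (.node (.col (nat_lit 3)) (.slot (nat_lit 0)) (.slot (nat_lit 0))) (.node (.col (nat_lit 4)) (.slot (nat_lit 0)) (.slot (nat_lit 0)))) (.col (nat_lit 2))
def l326 : Root := .mk (.node (.node (.col (nat_lit 1)) (.col (nat_lit 3)) (.slot (nat_lit 0))) (.col (nat_lit 1)) (.slot (nat_lit 2))) (.col (nat_lit 0)) (.node (.col (nat_lit 1)) (.node (.col (nat_lit 3)) (.slot (nat_lit 1)) (.slot (nat_lit 1))) (.slot (nat_lit 2))) (.col (nat_lit 2))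
def w1394 : Root := .mk (.node (.node (.col (nat_lit 1)) (.col (nat_lit 3)) (.slot (nat_lit 0))) (.col (nat_lit 1)) (.slot (nat_lit 2))) (.col (nat_lit 0)) (.node (.node (.col (nat_lit 0)) (.slot (nat_lit 0)) (.slot (nat_lit 0))) (.node (.col (nat_lit 3)) (.slot (nat_lit 1)) (.slot (nat_lit 1))) (.slot (nat_lit 2))) (.col (nat_lit 2))
def l327 : Root := .mk (.node (.node (.col (nat_lit 1)) (.col (nat_lit 3)) (.slot (nat_lit 0))) (.col (nat_lit 1)) (.slot (nat_lit 2))) (.col (nat_lit 0)) (.node (.col (nat_lit 1)) (.node (.col (nat_lit 4)) (.slot (nat_lit 1)) (.slot (nat_lit 1))) (.slot (nat_lit 2))) (.col (nat_lit 2))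
def w1395 : Root := .mk (.node (.node (.col (nat_lit 1)) (.col (nat_lit 3)) (.slot (nat_lit 0))) (.col (nat_lit 1)) (.slot (nat_lit 2))) (.col (nat_lit 0)) (.node (.node (.col (nat_lit 0)) (.slot (nat_lit 0)) (.slot (nat_lit 0))) (.node (.col (nat_lit 4)) (.slot (nat_lit 1)) (.slot (nat_lit 1))) (.slot (nat_lit 2))) (.col (nat_lit 2))
def w1396 : Root := .mk (.node (.slot (nat_lit 0)) (.col (nat_lit 1)) (.slot (nat_lit 1))) (.col (nat_lit 0)) (.node (.node (.col (nat_lit 0)) (.node (.col (nat_lit 1)) (.slot (nat_lit 1)) (.slot (nat_lit 1))) (.slot (nat_lit 2))) (.slot (nat_lit 1)) (.slot (nat_lit 1))) (.col (nat_lit 2))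
def w1397 : Root := .mk (.node (.slot (nat_lit 0)) (.col (nat_lit 1)) (.slot (nat_lit 1))) (.col (nat_lit 0)) (.node (.node (.col (nat_lit 0)) (.col (nat_lit 2)) (.slot (nat_lit 1))) (.slot (nat_lit 1)) (.slot (nat_lit 1))) (.col (nat_lit 2))
def w1398 : Root := .mk (.node (.slot (nat_lit 0)) (.col (nat_lit 1)) (.slot (nat_lit 1))) (.col (nat_lit 0)) (.node (.node (.col (nat_lit 0)) (.col (nat_lit 3)) (.slot (nat_lit 1))) (.slot (nat_lit 1)) (.slot (nat_lit 1))) (.col (nat_lit 2))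
def w1399 : Root := .mk (.node (.node (.node (.col (nat_lit 1)) (.col (nat_lit 3)) (.slot (nat_lit 0))) (.col (nat_lit 1)) (.slot (nat_lit 1))) (.col (nat_lit 0)) (.col (nat_lit 2))) (.node (.col (nat_lit 0)) (.slot (nat_lit 0)) (.col (nat_lit 1))) (.col (nat_lit 1)) (.col (nat_lit 0))
def w1400 : Root := .mk (.node (.slot (nat_lit 0)) (.col (nat_lit 1)) (.slot (nat_lit 0))) (.col (nat_lit 0)) (.node (.node (.col (nat_lit 0)) (.slot (nat_lit 0)) (.col (nat_lit 1))) (.col (nat_lit 1)) (.node (.col (nat_lit 0)) (.slot (nat_lit 1)) (.slot (nat_lit 0)))) (.col (nat_lit 2))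
def w1401 : Root := .mk (.node (.slot (nat_lit 0)) (.col (nat_lit 1)) (.slot (nat_lit 1))) (.col (nat_lit 0)) (.node (.node (.col (nat_lit 0)) (.slot (nat_lit 0)) (.col (nat_lit 1))) (.col (nat_lit 1)) (.node (.col (nat_lit 1)) (.slot (nat_lit 0)) (.slot (nat_lit 0)))) (.col (nat_lit 2))
def w1402 : Root := .mk (.node (.slot (nat_lit 0)) (.col (nat_lit 1)) (.slot (nat_lit 0))) (.col (nat_lit 0)) (.node (.node (.col (nat_lit 0)) (.slot (nat_lit 0)) (.col (nat_lit 1))) (.col (nat_lit 1)) (.node (.col (nat_lit 2)) (.slot (nat_lit 1)) (.slot (nat_lit 0)))) (.col (nat_lit 2))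
def w1403 : Root := .mk (.node (.slot (nat_lit 0)) (.col (nat_lit 1)) (.slot (nat_lit 1))) (.col (nat_lit 0)) (.node (.node (.col (nat_lit 0)) (.slot (nat_lit 0)) (.col (nat_lit 1))) (.col (nat_lit 1)) (.node (.col (nat_lit 3)) (.slot (nat_lit 0)) (.slot (nat_lit 0)))) (.col (nat_lit 2))
def w1404 : Root := .mk (.node (.slot (nat_lit 0)) (.col (nat_lit 1)) (.node (.col (nat_lit 3)) (.slot (nat_lit 0)) (.slot (nat_lit 0)))) (.col (nat_lit 0)) (.node (.node (.col (nat_lit 0)) (.slot (nat_lit 0)) (.col (nat_lit 1))) (.col (nat_lit 1)) (.slot (nat_lit 1))) (.col (nat_lit 2))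
def w1407 : Root := .mk (.node (.node (.node (.node (.col (nat_lit 1)) (.col (nat_lit 3)) (.slot (nat_lit 1))) (.col (nat_lit 1)) (.slot (nat_lit 1))) (.col (nat_lit 0)) (.node (.slot (nat_lit 0)) (.slot (nat_lit 0)) (.slot (nat_lit 0)))) (.slot (nat_lit 1)) (.slot (nat_lit 1))) (.col (nat_lit 0)) (.col (nat_lit 2)) (.slot (nat_lit 2))
def l330 : Root := .mk (.slot (nat_lit 0)) (.col (nat_lit 0)) (.node (.node (.col (nat_lit 0)) (.col (nat_lit 3)) (.slot (nat_lit 3))) (.col (nat_lit 1)) (.slot (nat_lit 1))) (.col (nat_lit 3))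
def w1408 : Root := .mk (.slot (nat_lit 0)) (.col (nat_lit 0)) (.node (.node (.col (nat_lit 0)) (.col (nat_lit 3)) (.slot (nat_lit 3))) (.slot (nat_lit 1)) (.slot (nat_lit 1))) (.col (nat_lit 3))
def w1409 : Root := .mk (.node (.node (.col (nat_lit 1)) (.col (nat_lit 3)) (.slot (nat_lit 1))) (.col (nat_lit 1)) (.slot (nat_lit 1))) (.col (nat_lit 0)) (.node (.slot (nat_lit 0)) (.col (nat_lit 3)) (.slot (nat_lit 0))) (.col (nat_lit 3))
def l331 : Root := .mk (.node (.node (.col (nat_lit 1)) (.col (nat_lit 3)) (.slot (nat_lit 2))) (.col (nat_lit 1)) (.slot (nat_lit 1))) (.col (nat_lit 0)) (.node (.node (.col (nat_lit 0)) (.col (nat_lit 3)) (.slot (nat_lit 3))) (.slot (nat_lit 1)) (.slot (nat_lit 1))) (.col (nat_lit 3))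
def w1410 : Root := .mk (.node (.node (.node (.node (.col (nat_lit 1)) (.col (nat_lit 3)) (.slot (nat_lit 2))) (.col (nat_lit 1)) (.slot (nat_lit 1))) (.col (nat_lit 0)) (.node (.slot (nat_lit 0)) (.slot (nat_lit 0)) (.slot (nat_lit 0)))) (.slot (nat_lit 1)) (.slot (nat_lit 1))) (.col (nat_lit 0)) (.col (nat_lit 3)) (.slot (nat_lit 3))
def w1411 : Root := .mk (.node (.node (.node (.col (nat_lit 1)) (.col (nat_lit 3)) (.slot (nat_lit 1))) (.col (nat_lit 1)) (.slot (nat_lit 1))) (.col (nat_lit 0)) (.node (.slot (nat_lit 0)) (.slot (nat_lit 0)) (.slot (nat_lit 0)))) (.node .junk (.node (.col (nat_lit 1)) (.slot (nat_lit 0)) (.slot (nat_lit 0))) (.col (nat_lit 1))) (.col (nat_lit 2)) (.col (nat_lit 0))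
def w1412 : Root := .mk (.node .junk (.col (nat_lit 1)) (.slot (nat_lit 1))) (.col (nat_lit 0)) (.node (.node (.col (nat_lit 0)) .junk (.col (nat_lit 1))) (.col (nat_lit 2)) (.slot (nat_lit 1))) (.col (nat_lit 2))
def w1413 : Root := .mk (.node (.node (.col (nat_lit 1)) (.col (nat_lit 3)) (.slot (nat_lit 1))) (.col (nat_lit 1)) (.slot (nat_lit 1))) (.col (nat_lit 0)) (.node (.node (.col (nat_lit 0)) .junk (.col (nat_lit 1))) (.col (nat_lit 2)) (.slot (nat_lit 1))) (.node (.slot (nat_lit 0)) (.slot (nat_lit 0)) (.slot (nat_lit 0)))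
def w1414 : Root := .mk (.node (.node (.node (.slot (nat_lit 0)) (.col (nat_lit 1)) (.slot (nat_lit 1))) (.col (nat_lit 0)) (.node (.col (nat_lit 0)) (.slot (nat_lit 0)) (.slot (nat_lit 0)))) (.col (nat_lit 2)) (.slot (nat_lit 3))) (.col (nat_lit 0)) (.node (.col (nat_lit 1)) (.slot (nat_lit 0)) (.slot (nat_lit 0))) (.col (nat_lit 1))
def w1415 : Root := .mk (.node (.node (.col (nat_lit 1)) (.col (nat_lit 3)) (.slot (nat_lit 1))) (.col (nat_lit 1)) (.slot (nat_lit 2))) (.col (nat_lit 0)) (.node (.slot (nat_lit 0)) (.col (nat_lit 2)) (.slot (nat_lit 0))) (.node (.col (nat_lit 1)) (.slot (nat_lit 1)) (.slot (nat_lit 1)))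
def w1416 : Root := .mk (.node (.node (.col (nat_lit 1)) (.col (nat_lit 3)) (.slot (nat_lit 0))) (.col (nat_lit 1)) (.slot (nat_lit 1))) (.col (nat_lit 0)) (.node (.node (.col (nat_lit 0)) .junk (.col (nat_lit 1))) (.col (nat_lit 2)) (.slot (nat_lit 1))) (.node (.slot (nat_lit 0)) (.col (nat_lit 1)) (.slot (nat_lit 1)))
def l332 : Root := .mk (.node (.node (.node (.node (.col (nat_lit 1)) (.col (nat_lit 3)) (.slot (nat_lit 1))) (.col (nat_lit 1)) (.slot (nat_lit 2))) (.col (nat_lit 0)) (.node (.slot (nat_lit 0)) (.slot (nat_lit 1)) (.slot (nat_lit 1)))) (.col (nat_lit 2)) (.slot (nat_lit 3))) (.col (nat_lit 0)) (.node (.col (nat_lit 1)) (.slot (nat_lit 3)) (.slot (nat_lit 1))) (.col (nat_lit 1))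
def w1417 : Root := .mk (.node (.node (.node (.node (.col (nat_lit 1)) (.col (nat_lit 3)) (.slot (nat_lit 1))) (.col (nat_lit 1)) (.slot (nat_lit 2))) (.col (nat_lit 0)) (.node (.slot (nat_lit 0)) (.slot (nat_lit 1)) (.slot (nat_lit 1)))) (.slot (nat_lit 1)) (.slot (nat_lit 3))) (.col (nat_lit 0)) (.node (.col (nat_lit 1)) (.slot (nat_lit 3)) (.slot (nat_lit 1))) (.col (nat_lit 1))
def w1420 : Root := .mk (.node (.node (.node (.node (.col (nat_lit 1)) (.col (nat_lit 3)) (.slot (nat_lit 1))) (.col (nat_lit 1)) (.slot (nat_lit 1))) (.col (nat_lit 0)) (.node (.slot (nat_lit 0)) (.slot (nat_lit 0)) (.slot (nat_lit 0)))) (.slot (nat_lit 1)) (.slot (nat_lit 1))) (.col (nat_lit 0)) (.node (.col (nat_lit 1)) (.slot (nat_lit 0)) (.slot (nat_lit 0))) (.node (.col (nat_lit 3)) (.slot (nat_lit 1)) (.slot (nat_lit 1)))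
def w1424 : Root := .mk (.col (nat_lit 1)) (.node (.node (.col (nat_lit 0)) (.col (nat_lit 2)) (.node (.slot (nat_lit 0)) (.col (nat_lit 1)) (.slot (nat_lit 0)))) (.col (nat_lit 1)) (.slot (nat_lit 1))) (.col (nat_lit 3)) (.col (nat_lit 0))
def w1425 : Root := .mk (.col (nat_lit 1)) (.node (.node (.col (nat_lit 0)) (.node (.slot (nat_lit 0)) (.col (nat_lit 1)) (.col (nat_lit 0))) (.col (nat_lit 4))) (.col (nat_lit 1)) (.slot (nat_lit 1))) (.col (nat_lit 3)) (.col (nat_lit 0))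
def w1428 : Root := .mk (.col (nat_lit 1)) (.node (.node (.col (nat_lit 0)) (.node (.node .junk (.col (nat_lit 3)) (.slot (nat_lit 1))) (.col (nat_lit 2)) (.col (nat_lit 0))) (.node (.slot (nat_lit 0)) (.slot (nat_lit 0)) (.slot (nat_lit 0)))) (.col (nat_lit 1)) (.slot (nat_lit 1))) (.col (nat_lit 3)) (.col (nat_lit 0))
def w1429 : Root := .mk (.node (.node (.node .junk (.col (nat_lit 3)) (.col (nat_lit 0))) (.col (nat_lit 1)) (.slot (nat_lit 1))) (.col (nat_lit 0)) (.node (.slot (nat_lit 0)) (.slot (nat_lit 0)) (.slot (nat_lit 0)))) (.col (nat_lit 4)) (.col (nat_lit 2)) (.col (nat_lit 0))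
def w1430 : Root := .mk (.node (.node (.node .junk (.col (nat_lit 3)) (.col (nat_lit 0))) (.col (nat_lit 1)) (.slot (nat_lit 1))) (.col (nat_lit 0)) (.slot (nat_lit 0))) (.node .junk (.col (nat_lit 1)) (.slot (nat_lit 1))) (.col (nat_lit 2)) (.col (nat_lit 0))
def w1432 : Root := .mk (.col (nat_lit 1)) (.node (.node (.col (nat_lit 0)) (.node (.node (.col (nat_lit 0)) (.slot (nat_lit 0)) (.slot (nat_lit 0))) (.slot (nat_lit 2)) (.slot (nat_lit 2))) (.col (nat_lit 3))) (.col (nat_lit 1)) (.col (nat_lit 0))) (.col (nat_lit 3)) (.col (nat_lit 0))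
def l335 : Root := .mk (.col (nat_lit 1)) (.node (.node (.col (nat_lit 0)) (.node (.node (.col (nat_lit 0)) (.slot (nat_lit 0)) (.slot (nat_lit 0))) (.slot (nat_lit 2)) (.slot (nat_lit 2))) (.col (nat_lit 3))) (.col (nat_lit 1)) (.slot (nat_lit 1))) (.col (nat_lit 3)) (.col (nat_lit 0))
def w1433 : Root := .mk (.col (nat_lit 1)) (.node (.node (.col (nat_lit 0)) (.node (.node (.col (nat_lit 0)) (.slot (nat_lit 0)) (.slot (nat_lit 0))) (.slot (nat_lit 2)) (.slot (nat_lit 2))) (.node (.slot (nat_lit 0)) (.slot (nat_lit 0)) (.slot (nat_lit 0)))) (.col (nat_lit 1)) (.slot (nat_lit 1))) (.col (nat_lit 3)) (.col (nat_lit 0))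
def w1436 : Root := .mk (.node (.col (nat_lit 1)) (.slot (nat_lit 0)) (.slot (nat_lit 0))) (.node (.col (nat_lit 0)) (.node (.node (.col (nat_lit 0)) (.node (.col (nat_lit 1)) (.slot (nat_lit 1)) (.slot (nat_lit 1))) (.slot (nat_lit 2))) (.slot (nat_lit 1)) (.slot (nat_lit 1))) (.col (nat_lit 2))) (.col (nat_lit 1)) (.col (nat_lit 0))
def w1437 : Root := .mk (.node (.col (nat_lit 1)) (.slot (nat_lit 0)) (.slot (nat_lit 0))) (.node (.col (nat_lit 0)) (.node (.node (.col (nat_lit 0)) (.node (.col (nat_lit 1)) (.slot (nat_lit 1)) (.slot (nat_lit 1))) (.slot (nat_lit 2))) (.slot (nat_lit 1)) (.slot (nat_lit 1))) (.col (nat_lit 2))) (.col (nat_lit 1)) (.col (nat_lit 2))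
def w1438 : Root := .mk (.node (.node (.col (nat_lit 1)) (.slot (nat_lit 0)) (.slot (nat_lit 0))) (.col (nat_lit 1)) (.node (.col (nat_lit 1)) (.slot (nat_lit 0)) (.slot (nat_lit 0)))) (.col (nat_lit 0)) (.node (.node (.col (nat_lit 0)) (.slot (nat_lit 0)) (.slot (nat_lit 0))) (.slot (nat_lit 2)) (.slot (nat_lit 2))) (.col (nat_lit 2))
def w1439 : Root := .mk (.node (.node (.col (nat_lit 1)) (.slot (nat_lit 0)) (.slot (nat_lit 0))) (.col (nat_lit 1)) (.node (.col (nat_lit 3)) (.slot (nat_lit 1)) (.slot (nat_lit 0)))) (.col (nat_lit 0)) (.node (.node (.col (nat_lit 0)) (.slot (nat_lit 0)) (.slot (nat_lit 0))) (.slot (nat_lit 2)) (.slot (nat_lit 2))) (.col (nat_lit 2))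
def l336 : Root := .mk (.node (.node (.col (nat_lit 1)) (.slot (nat_lit 0)) (.slot (nat_lit 0))) (.col (nat_lit 1)) (.slot (nat_lit 1))) (.col (nat_lit 0)) (.node (.node (.col (nat_lit 0)) (.col (nat_lit 3)) (.slot (nat_lit 3))) (.col (nat_lit 2)) (.slot (nat_lit 1))) (.col (nat_lit 2))
def w1440 : Root := .mk (.node (.node (.col (nat_lit 1)) (.slot (nat_lit 0)) (.slot (nat_lit 0))) (.col (nat_lit 1)) (.slot (nat_lit 1))) (.col (nat_lit 0)) (.node (.node (.col (nat_lit 0)) (.node (.col (nat_lit 1)) (.slot (nat_lit 0)) (.slot (nat_lit 0))) (.slot (nat_lit 3))) (.col (nat_lit 2)) (.slot (nat_lit 1))) (.col (nat_lit 2))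
def w1441 : Root := .mk (.node (.node (.col (nat_lit 1)) (.slot (nat_lit 0)) (.slot (nat_lit 0))) (.col (nat_lit 1)) (.slot (nat_lit 2))) (.col (nat_lit 0)) (.node (.node (.col (nat_lit 0)) (.slot (nat_lit 0)) (.slot (nat_lit 0))) (.node (.col (nat_lit 1)) (.slot (nat_lit 0)) (.slot (nat_lit 0))) (.slot (nat_lit 2))) (.col (nat_lit 2))
def w1442 : Root := .mk (.node (.node (.col (nat_lit 1)) (.slot (nat_lit 0)) (.slot (nat_lit 0))) (.col (nat_lit 1)) (.slot (nat_lit 2))) (.col (nat_lit 0)) (.node (.node (.col (nat_lit 0)) (.slot (nat_lit 0)) (.slot (nat_lit 0))) (.node (.col (nat_lit 2)) (.slot (nat_lit 1)) (.slot (nat_lit 1))) (.slot (nat_lit 2))) (.col (nat_lit 2))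
def l337 : Root := .mk (.node (.node (.col (nat_lit 1)) (.slot (nat_lit 0)) (.slot (nat_lit 0))) (.col (nat_lit 1)) (.slot (nat_lit 2))) (.col (nat_lit 0)) (.node (.col (nat_lit 1)) (.node (.col (nat_lit 3)) (.slot (nat_lit 1)) (.slot (nat_lit 1))) (.slot (nat_lit 2))) (.col (nat_lit 2))
def w1443 : Root := .mk (.node (.node (.col (nat_lit 1)) (.slot (nat_lit 0)) (.slot (nat_lit 0))) (.col (nat_lit 1)) (.slot (nat_lit 2))) (.col (nat_lit 0)) (.node (.node (.col (nat_lit 0)) (.slot (nat_lit 0)) (.slot (nat_lit 0))) (.node (.col (nat_lit 3)) (.slot (nat_lit 1)) (.slot (nat_lit 1))) (.slot (nat_lit 2))) (.col (nat_lit 2))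
def w1444 : Root := .mk (.node (.col (nat_lit 1)) (.slot (nat_lit 0)) (.slot (nat_lit 0))) (.node (.col (nat_lit 0)) (.node (.node (.col (nat_lit 0)) (.slot (nat_lit 0)) (.col (nat_lit 1))) (.col (nat_lit 1)) (.slot (nat_lit 1))) (.col (nat_lit 2))) (.col (nat_lit 1)) (.col (nat_lit 0))
def l338 : Root := .mk (.node (.node (.col (nat_lit 1)) (.slot (nat_lit 0)) (.slot (nat_lit 0))) (.col (nat_lit 1)) (.slot (nat_lit 2))) (.col (nat_lit 0)) (.node (.node (.col (nat_lit 0)) (.slot (nat_lit 0)) (.col (nat_lit 1))) (.col (nat_lit 1)) (.slot (nat_lit 1))) (.col (nat_lit 2))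
def w1445 : Root := .mk (.node (.node (.node (.node (.col (nat_lit 1)) (.slot (nat_lit 0)) (.slot (nat_lit 0))) (.col (nat_lit 1)) (.slot (nat_lit 2))) (.col (nat_lit 0)) (.col (nat_lit 2))) (.slot (nat_lit 1)) (.slot (nat_lit 1))) (.col (nat_lit 0)) (.slot (nat_lit 0)) (.col (nat_lit 1))
def l339 : Root := .mk (.node (.node (.col (nat_lit 1)) (.slot (nat_lit 0)) (.slot (nat_lit 0))) (.col (nat_lit 1)) (.slot (nat_lit 3))) (.col (nat_lit 0)) (.node (.node (.col (nat_lit 0)) (.node (.col (nat_lit 1)) (.slot (nat_lit 7)) (.slot (nat_lit 5))) (.slot (nat_lit 8))) (.slot (nat_lit 8)) (.slot (nat_lit 8))) (.col (nat_lit 2))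
def l340 : Root := .mk (.node (.node (.node (.col (nat_lit 1)) (.slot (nat_lit 0)) (.slot (nat_lit 0))) (.col (nat_lit 1)) (.slot (nat_lit 1))) (.col (nat_lit 0)) (.col (nat_lit 2))) (.node (.col (nat_lit 0)) (.col (nat_lit 2)) (.slot (nat_lit 1))) (.col (nat_lit 0)) (.col (nat_lit 1))
def w1447 : Root := .mk (.node (.node (.col (nat_lit 1)) (.slot (nat_lit 0)) (.slot (nat_lit 0))) (.col (nat_lit 1)) (.slot (nat_lit 1))) (.col (nat_lit 0)) (.node (.node (.col (nat_lit 0)) (.col (nat_lit 2)) (.slot (nat_lit 1))) (.col (nat_lit 0)) (.slot (nat_lit 1))) (.col (nat_lit 2))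
def w1448 : Root := .mk (.slot (nat_lit 0)) (.col (nat_lit 0)) (.node (.node (.col (nat_lit 0)) (.col (nat_lit 2)) (.slot (nat_lit 3))) (.node (.col (nat_lit 0)) (.slot (nat_lit 0)) (.slot (nat_lit 0))) (.slot (nat_lit 1))) (.col (nat_lit 2))
def w1449 : Root := .mk (.slot (nat_lit 0)) (.col (nat_lit 0)) (.node (.node (.col (nat_lit 0)) (.col (nat_lit 2)) (.slot (nat_lit 3))) (.node (.col (nat_lit 1)) (.slot (nat_lit 0)) (.slot (nat_lit 0))) (.slot (nat_lit 1))) (.col (nat_lit 2))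
def l341 : Root := .mk (.node (.node (.col (nat_lit 1)) (.slot (nat_lit 0)) (.slot (nat_lit 0))) (.col (nat_lit 1)) (.slot (nat_lit 2))) (.col (nat_lit 0)) (.node (.node (.col (nat_lit 0)) (.col (nat_lit 2)) (.slot (nat_lit 3))) (.slot (nat_lit 1)) (.slot (nat_lit 1))) (.col (nat_lit 2))
def w1452 : Root := .mk (.col (nat_lit 4)) (.node (.node (.node (.col (nat_lit 0)) (.slot (nat_lit 0)) (.slot (nat_lit 0))) (.col (nat_lit 2)) (.node (.col (nat_lit 1)) (.slot (nat_lit 1)) (.slot (nat_lit 0)))) (.slot (nat_lit 1)) (.slot (nat_lit 1))) (.col (nat_lit 2)) (.col (nat_lit 3))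
def l342 : Root := .mk (.node (.node (.slot (nat_lit 0)) (.col (nat_lit 2)) (.col (nat_lit 3))) (.col (nat_lit 4)) (.slot (nat_lit 1))) (.col (nat_lit 3)) (.col (nat_lit 2)) (.node (.col (nat_lit 1)) (.slot (nat_lit 1)) (.slot (nat_lit 1)))
def w1453 : Root := .mk (.slot (nat_lit 0)) (.node (.node (.node (.col (nat_lit 0)) (.slot (nat_lit 0)) (.slot (nat_lit 0))) (.col (nat_lit 2)) (.node (.col (nat_lit 1)) (.slot (nat_lit 1)) (.slot (nat_lit 1)))) (.col (nat_lit 4)) (.slot (nat_lit 1))) (.col (nat_lit 2)) (.col (nat_lit 3))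
def l344 : Root := .mk (.node (.node (.col (nat_lit 1)) (.slot (nat_lit 3)) (.slot (nat_lit 1))) (.col (nat_lit 2)) (.slot (nat_lit 2))) (.col (nat_lit 0)) (.node (.node (.col (nat_lit 0)) (.slot (nat_lit 1)) (.slot (nat_lit 0))) (.slot (nat_lit 7)) (.slot (nat_lit 5))) (.col (nat_lit 1))
def w1458 : Root := .mk (.node (.node (.col (nat_lit 1)) (.slot (nat_lit 3)) (.slot (nat_lit 1))) (.col (nat_lit 2)) (.slot (nat_lit 2))) (.col (nat_lit 0)) (.node (.node (.col (nat_lit 0)) (.slot (nat_lit 1)) (.slot (nat_lit 0))) (.slot (nat_lit 7)) (.slot (nat_lit 5))) (.node (.slot (nat_lit 0)) (.slot (nat_lit 0)) (.slot (nat_lit 0)))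
def w1459 : Root := .mk (.node (.node (.node (.node (.col (nat_lit 0)) (.col (nat_lit 1)) .junk) (.col (nat_lit 2)) (.slot (nat_lit 1))) (.col (nat_lit 2)) (.col (nat_lit 0))) .junk (.col (nat_lit 3))) (.col (nat_lit 0)) (.col (nat_lit 2)) (.slot (nat_lit 0))
def l346 : Root := .mk (.node (.node (.node (.col (nat_lit 0)) (.col (nat_lit 1)) .junk) (.col (nat_lit 2)) (.slot (nat_lit 1))) (.col (nat_lit 2)) (.col (nat_lit 1))) (.node (.col (nat_lit 0)) (.col (nat_lit 1)) .junk) (.col (nat_lit 2)) (.col (nat_lit 3))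
def w1461 : Root := .mk (.node (.node (.col (nat_lit 0)) (.col (nat_lit 1)) .junk) (.col (nat_lit 2)) (.slot (nat_lit 1))) (.node (.node (.col (nat_lit 0)) (.col (nat_lit 1)) .junk) (.col (nat_lit 2)) (.slot (nat_lit 1))) (.col (nat_lit 2)) (.col (nat_lit 1))
def w1465 : Root := .mk (.col (nat_lit 0)) (.col (nat_lit 1)) (.node (.node (.node (.node (.col (nat_lit 0)) .junk (.col (nat_lit 1))) (.col (nat_lit 2)) (.slot (nat_lit 1))) (.col (nat_lit 2)) (.col (nat_lit 1))) .junk (.col (nat_lit 0))) (.col (nat_lit 2))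
def w1467 : Root := .mk (.col (nat_lit 0)) (.col (nat_lit 1)) (.node (.node (.node (.col (nat_lit 3)) (.col (nat_lit 2)) (.slot (nat_lit 4))) (.col (nat_lit 2)) (.col (nat_lit 4))) (.col (nat_lit 2)) (.slot (nat_lit 1))) (.col (nat_lit 2))
def w1468 : Root := .mk (.node (.node (.node (.col (nat_lit 0)) .junk (.col (nat_lit 4))) (.col (nat_lit 2)) (.slot (nat_lit 1))) (.col (nat_lit 0)) (.node .junk (.col (nat_lit 2)) (.col (nat_lit 4)))) (.slot (nat_lit 0)) (.col (nat_lit 2)) (.col (nat_lit 0))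
def w1471 : Root := .mk (.node (.node (.col (nat_lit 0)) .junk (.col (nat_lit 4))) (.col (nat_lit 2)) (.slot (nat_lit 1))) (.col (nat_lit 0)) (.node (.col (nat_lit 4)) (.col (nat_lit 2)) .junk) (.node (.slot (nat_lit 0)) (.col (nat_lit 2)) (.slot (nat_lit 0)))
def w1473 : Root := .mk (.node (.slot (nat_lit 0)) (.col (nat_lit 2)) (.node (.col (nat_lit 0)) (.slot (nat_lit 0)) (.slot (nat_lit 0)))) (.col (nat_lit 0)) (.col (nat_lit 1)) (.node (.col (nat_lit 0)) (.col (nat_lit 2)) (.slot (nat_lit 4)))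
def w1474 : Root := .mk (.col (nat_lit 0)) (.node (.node (.col (nat_lit 0)) (.col (nat_lit 1)) (.node (.slot (nat_lit 0)) (.col (nat_lit 2)) (.col (nat_lit 0)))) (.col (nat_lit 2)) (.node (.col (nat_lit 0)) (.slot (nat_lit 1)) (.slot (nat_lit 0)))) (.col (nat_lit 2)) (.col (nat_lit 4))
def w1475 : Root := .mk (.col (nat_lit 0)) (.node (.node (.col (nat_lit 0)) (.col (nat_lit 1)) .junk) (.col (nat_lit 2)) (.node (.col (nat_lit 0)) (.col (nat_lit 1)) (.slot (nat_lit 0)))) (.col (nat_lit 2)) (.col (nat_lit 4))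
def l349 : Root := .mk (.col (nat_lit 0)) (.node (.node (.col (nat_lit 0)) (.col (nat_lit 1)) (.node (.slot (nat_lit 0)) (.col (nat_lit 2)) (.slot (nat_lit 4)))) (.col (nat_lit 2)) (.node (.col (nat_lit 0)) (.slot (nat_lit 1)) (.slot (nat_lit 1)))) (.col (nat_lit 2)) (.col (nat_lit 4))
def w1477 : Root := .mk (.col (nat_lit 0)) (.node (.node (.col (nat_lit 0)) (.node (.node .junk (.col (nat_lit 4)) (.slot (nat_lit 1))) (.col (nat_lit 2)) (.col (nat_lit 0))) (.node (.slot (nat_lit 0)) (.slot (nat_lit 0)) (.slot (nat_lit 0)))) (.col (nat_lit 2)) (.slot (nat_lit 1))) (.col (nat_lit 2)) (.col (nat_lit 4))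
def w1482 : Root := .mk (.slot (nat_lit 0)) (.node (.node (.col (nat_lit 0)) (.node (.slot (nat_lit 0)) (.col (nat_lit 2)) (.col (nat_lit 0))) (.col (nat_lit 1))) (.col (nat_lit 2)) (.node (.col (nat_lit 0)) (.slot (nat_lit 1)) (.slot (nat_lit 0)))) (.col (nat_lit 2)) (.col (nat_lit 4))
def w1483 : Root := .mk (.slot (nat_lit 0)) (.node (.node (.col (nat_lit 0)) (.node (.node (.col (nat_lit 0)) (.slot (nat_lit 0)) (.slot (nat_lit 0))) (.col (nat_lit 2)) (.col (nat_lit 0))) (.col (nat_lit 1))) (.col (nat_lit 2)) (.node (.col (nat_lit 2)) (.slot (nat_lit 0)) (.slot (nat_lit 0)))) (.col (nat_lit 2)) (.col (nat_lit 4))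
def w1484 : Root := .mk (.slot (nat_lit 0)) (.node (.node (.col (nat_lit 0)) (.node (.node (.col (nat_lit 0)) (.slot (nat_lit 0)) (.slot (nat_lit 0))) (.col (nat_lit 2)) (.col (nat_lit 0))) (.col (nat_lit 1))) (.col (nat_lit 2)) (.node (.col (nat_lit 3)) (.slot (nat_lit 0)) (.slot (nat_lit 0)))) (.col (nat_lit 2)) (.col (nat_lit 4))
def l350 : Root := .mk (.node (.node (.node (.col (nat_lit 3)) (.col (nat_lit 2)) (.col (nat_lit 4))) (.col (nat_lit 2)) (.col (nat_lit 4))) (.col (nat_lit 2)) (.slot (nat_lit 3))) (.col (nat_lit 0)) (.col (nat_lit 4)) (.col (nat_lit 1))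
def l352 : Root := .mk (.node (.node (.slot (nat_lit 0)) (.col (nat_lit 2)) (.col (nat_lit 4))) (.col (nat_lit 2)) (.slot (nat_lit 2))) (.col (nat_lit 0)) (.node (.node (.col (nat_lit 0)) (.col (nat_lit 2)) (.slot (nat_lit 1))) (.col (nat_lit 2)) (.slot (nat_lit 2))) (.col (nat_lit 1))
def w1489 : Root := .mk (.node (.slot (nat_lit 0)) (.col (nat_lit 2)) (.slot (nat_lit 0))) (.col (nat_lit 0)) (.node (.node (.col (nat_lit 0)) (.slot (nat_lit 0)) (.slot (nat_lit 0))) (.col (nat_lit 2)) (.node (.col (nat_lit 0)) (.slot (nat_lit 1)) (.slot (nat_lit 0)))) (.col (nat_lit 1))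
def w1492 : Root := .mk (.slot (nat_lit 0)) (.node (.node (.col (nat_lit 0)) (.node (.node (.col (nat_lit 0)) (.slot (nat_lit 1)) (.slot (nat_lit 1))) (.col (nat_lit 2)) (.slot (nat_lit 3))) (.node (.slot (nat_lit 0)) (.slot (nat_lit 0)) (.slot (nat_lit 0)))) (.col (nat_lit 2)) (.node (.col (nat_lit 1)) (.slot (nat_lit 0)) (.slot (nat_lit 0)))) (.col (nat_lit 2)) (.col (nat_lit 4))
def w1493 : Root := .mk (.slot (nat_lit 0)) (.node (.node (.col (nat_lit 0)) (.node (.node (.col (nat_lit 0)) (.slot (nat_lit 1)) (.slot (nat_lit 1))) (.col (nat_lit 2)) (.slot (nat_lit 3))) (.node (.slot (nat_lit 0)) (.slot (nat_lit 0)) (.slot (nat_lit 0)))) (.col (nat_lit 2)) (.node (.col (nat_lit 2)) (.slot (nat_lit 0)) (.slot (nat_lit 0)))) (.col (nat_lit 2)) (.col (nat_lit 4))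
def w1495 : Root := .mk (.slot (nat_lit 0)) (.node (.node (.col (nat_lit 0)) (.node (.node (.col (nat_lit 0)) (.slot (nat_lit 1)) (.slot (nat_lit 1))) (.col (nat_lit 2)) (.slot (nat_lit 2))) (.node (.col (nat_lit 1)) (.slot (nat_lit 0)) (.slot (nat_lit 0)))) (.col (nat_lit 2)) (.slot (nat_lit 2))) (.col (nat_lit 2)) (.col (nat_lit 4))
def w1496 : Root := .mk (.slot (nat_lit 0)) (.node (.node (.col (nat_lit 0)) (.node (.node (.col (nat_lit 0)) (.slot (nat_lit 1)) (.slot (nat_lit 1))) (.col (nat_lit 2)) (.slot (nat_lit 2))) (.node (.col (nat_lit 4)) (.slot (nat_lit 0)) (.slot (nat_lit 0)))) (.col (nat_lit 2)) (.slot (nat_lit 2))) (.col (nat_lit 2)) (.col (nat_lit 4))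
def w1501 : Root := .mk (.node (.node (.slot (nat_lit 0)) (.col (nat_lit 2)) (.col (nat_lit 4))) (.col (nat_lit 2)) (.slot (nat_lit 2))) (.col (nat_lit 0)) (.node (.col (nat_lit 3)) (.slot (nat_lit 7)) (.slot (nat_lit 5))) (.col (nat_lit 2))
def w1502 : Root := .mk (.col (nat_lit 3)) (.col (nat_lit 0)) (.node (.node (.col (nat_lit 0)) (.node (.col (nat_lit 2)) (.slot (nat_lit 1)) (.slot (nat_lit 1))) (.slot (nat_lit 3))) (.slot (nat_lit 1)) (.slot (nat_lit 1))) (.node (.slot (nat_lit 0)) (.slot (nat_lit 0)) (.slot (nat_lit 0)))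
def w1519 : Root := .mk (.node (.col (nat_lit 3)) (.col (nat_lit 0)) (.slot (nat_lit 0))) (.node (.col (nat_lit 0)) (.node (.col (nat_lit 2)) (.slot (nat_lit 0)) (.slot (nat_lit 0))) (.node (.col (nat_lit 1)) (.slot (nat_lit 2)) (.slot (nat_lit 2)))) (.col (nat_lit 1)) (.col (nat_lit 0))
def w1520 : Root := .mk (.col (nat_lit 3)) (.col (nat_lit 0)) (.node (.node (.col (nat_lit 0)) (.slot (nat_lit 0)) (.node (.col (nat_lit 1)) (.slot (nat_lit 0)) (.slot (nat_lit 0)))) (.col (nat_lit 1)) (.node (.col (nat_lit 1)) (.slot (nat_lit 0)) (.slot (nat_lit 0)))) (.node (.slot (nat_lit 0)) (.slot (nat_lit 0)) (.slot (nat_lit 0)))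
def w1521 : Root := .mk (.col (nat_lit 3)) (.col (nat_lit 0)) (.node (.node (.col (nat_lit 0)) (.slot (nat_lit 0)) (.node (.col (nat_lit 1)) (.slot (nat_lit 0)) (.slot (nat_lit 0)))) (.col (nat_lit 1)) (.node (.col (nat_lit 2)) (.slot (nat_lit 0)) (.slot (nat_lit 0)))) (.node (.slot (nat_lit 0)) (.slot (nat_lit 0)) (.slot (nat_lit 0)))
def w1522 : Root := .mk (.col (nat_lit 3)) (.col (nat_lit 0)) (.node (.node (.col (nat_lit 0)) (.node (.col (nat_lit 2)) (.slot (nat_lit 1)) (.slot (nat_lit 1))) (.node (.col (nat_lit 1)) (.slot (nat_lit 0)) (.slot (nat_lit 0)))) (.col (nat_lit 1)) (.slot (nat_lit 1))) (.col (nat_lit 1))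
def l357 : Root := .mk (.col (nat_lit 3)) (.col (nat_lit 0)) (.node (.node (.col (nat_lit 0)) (.node (.col (nat_lit 2)) (.slot (nat_lit 1)) (.slot (nat_lit 1))) (.node (.col (nat_lit 1)) (.slot (nat_lit 2)) (.slot (nat_lit 2)))) (.col (nat_lit 1)) (.slot (nat_lit 2))) (.node (.slot (nat_lit 0)) (.slot (nat_lit 1)) (.slot (nat_lit 1)))
def w1523 : Root := .mk (.col (nat_lit 3)) (.col (nat_lit 0)) (.node (.node (.col (nat_lit 0)) (.node (.col (nat_lit 2)) (.slot (nat_lit 1)) (.slot (nat_lit 1))) (.node (.col (nat_lit 1)) (.slot (nat_lit 2)) (.slot (nat_lit 2)))) (.slot (nat_lit 1)) (.slot (nat_lit 2))) (.node (.slot (nat_lit 0)) (.slot (nat_lit 1)) (.slot (nat_lit 1)))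
def l358 : Root := .mk (.col (nat_lit 3)) (.col (nat_lit 0)) (.node (.node (.col (nat_lit 0)) (.node (.col (nat_lit 2)) (.slot (nat_lit 2)) (.slot (nat_lit 2))) (.node (.slot (nat_lit 0)) (.slot (nat_lit 0)) (.slot (nat_lit 0)))) (.col (nat_lit 2)) (.slot (nat_lit 2))) (.node (.slot (nat_lit 0)) (.col (nat_lit 2)) (.slot (nat_lit 1)))
def w1527 : Root := .mk (.col (nat_lit 3)) (.col (nat_lit 0)) (.node (.node (.col (nat_lit 0)) (.node (.col (nat_lit 2)) (.slot (nat_lit 2)) (.slot (nat_lit 2))) (.node (.slot (nat_lit 0)) (.slot (nat_lit 0)) (.slot (nat_lit 0)))) (.slot (nat_lit 1)) (.slot (nat_lit 2))) (.node (.slot (nat_lit 0)) (.col (nat_lit 2)) (.slot (nat_lit 1)))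
def w1528 : Root := .mk (.slot (nat_lit 0)) (.node (.col (nat_lit 0)) (.node (.col (nat_lit 2)) (.slot (nat_lit 1)) (.slot (nat_lit 3))) (.node (.slot (nat_lit 0)) (.slot (nat_lit 0)) (.slot (nat_lit 0)))) (.col (nat_lit 2)) (.col (nat_lit 3))
def w1529 : Root := .mk (.col (nat_lit 3)) (.col (nat_lit 0)) (.node (.node (.col (nat_lit 0)) (.slot (nat_lit 0)) (.slot (nat_lit 0))) (.col (nat_lit 2)) (.node (.col (nat_lit 0)) (.slot (nat_lit 1)) (.slot (nat_lit 0)))) (.node (.slot (nat_lit 0)) (.col (nat_lit 2)) (.col (nat_lit 0)))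
def w1530 : Root := .mk (.col (nat_lit 3)) (.col (nat_lit 0)) (.node (.node (.col (nat_lit 0)) (.slot (nat_lit 0)) (.node (.slot (nat_lit 0)) (.slot (nat_lit 0)) (.slot (nat_lit 0)))) (.col (nat_lit 2)) (.node (.col (nat_lit 2)) (.slot (nat_lit 0)) (.slot (nat_lit 0)))) (.node (.slot (nat_lit 0)) (.col (nat_lit 2)) (.col (nat_lit 0)))
def l359 : Root := .mk (.node (.col (nat_lit 3)) (.col (nat_lit 0)) (.node (.slot (nat_lit 0)) (.col (nat_lit 2)) (.col (nat_lit 0)))) (.node (.col (nat_lit 0)) (.node (.col (nat_lit 2)) (.slot (nat_lit 0)) (.slot (nat_lit 0))) (.col (nat_lit 2))) (.col (nat_lit 2)) (.col (nat_lit 1))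
def w1531 : Root := .mk (.node (.node (.col (nat_lit 3)) (.col (nat_lit 0)) (.node (.slot (nat_lit 0)) (.col (nat_lit 2)) (.col (nat_lit 0)))) (.col (nat_lit 2)) (.slot (nat_lit 1))) (.col (nat_lit 0)) (.node (.col (nat_lit 2)) (.slot (nat_lit 0)) (.slot (nat_lit 0))) (.col (nat_lit 2))
def l360 : Root := .mk (.node (.col (nat_lit 3)) (.col (nat_lit 0)) (.node (.slot (nat_lit 0)) (.col (nat_lit 2)) (.col (nat_lit 0)))) (.node (.col (nat_lit 0)) (.node (.col (nat_lit 2)) (.slot (nat_lit 0)) (.slot (nat_lit 0))) (.slot (nat_lit 0))) (.col (nat_lit 2)) (.col (nat_lit 1))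
def w1532 : Root := .mk (.col (nat_lit 3)) (.col (nat_lit 0)) (.node (.node (.col (nat_lit 0)) (.node (.col (nat_lit 2)) (.slot (nat_lit 0)) (.slot (nat_lit 0))) (.slot (nat_lit 0))) (.col (nat_lit 2)) (.slot (nat_lit 1))) (.node (.slot (nat_lit 0)) (.col (nat_lit 2)) (.col (nat_lit 0)))
def l361 : Root := .mk (.col (nat_lit 3)) (.col (nat_lit 0)) (.node (.node (.col (nat_lit 0)) (.node (.col (nat_lit 2)) (.slot (nat_lit 3)) (.slot (nat_lit 1))) (.node (.slot (nat_lit 0)) (.slot (nat_lit 0)) (.slot (nat_lit 0)))) (.col (nat_lit 2)) (.slot (nat_lit 4))) (.node (.slot (nat_lit 0)) (.col (nat_lit 2)) (.col (nat_lit 0)))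
def w1533 : Root := .mk (.col (nat_lit 3)) (.col (nat_lit 0)) (.node (.node (.col (nat_lit 0)) (.node (.col (nat_lit 2)) (.slot (nat_lit 3)) (.slot (nat_lit 1))) (.node (.slot (nat_lit 0)) (.slot (nat_lit 0)) (.slot (nat_lit 0)))) (.slot (nat_lit 1)) (.slot (nat_lit 4))) (.node (.slot (nat_lit 0)) (.col (nat_lit 2)) (.col (nat_lit 0)))
def l362 : Root := .mk (.node (.col (nat_lit 3)) (.col (nat_lit 0)) (.node (.slot (nat_lit 0)) (.col (nat_lit 2)) (.col (nat_lit 3)))) (.node (.col (nat_lit 0)) (.node (.col (nat_lit 2)) (.slot (nat_lit 0)) (.slot (nat_lit 0))) (.col (nat_lit 2))) (.col (nat_lit 2)) (.col (nat_lit 1))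
def w1534 : Root := .mk (.node (.node (.col (nat_lit 3)) (.col (nat_lit 0)) (.node (.slot (nat_lit 0)) (.col (nat_lit 2)) (.col (nat_lit 3)))) (.col (nat_lit 2)) (.slot (nat_lit 1))) (.col (nat_lit 0)) (.node (.col (nat_lit 2)) (.slot (nat_lit 0)) (.slot (nat_lit 0))) (.col (nat_lit 2))
def w1535 : Root := .mk (.col (nat_lit 3)) (.col (nat_lit 0)) (.node (.node (.col (nat_lit 0)) (.slot (nat_lit 0)) (.node (.slot (nat_lit 0)) (.slot (nat_lit 0)) (.slot (nat_lit 0)))) (.col (nat_lit 2)) (.slot (nat_lit 1))) (.node (.slot (nat_lit 0)) (.col (nat_lit 2)) (.col (nat_lit 3)))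
def l363 : Root := .mk (.node (.col (nat_lit 3)) (.col (nat_lit 0)) (.node (.slot (nat_lit 0)) (.col (nat_lit 2)) (.col (nat_lit 3)))) (.node (.col (nat_lit 0)) (.node (.col (nat_lit 2)) (.slot (nat_lit 0)) (.slot (nat_lit 0))) (.slot (nat_lit 0))) (.col (nat_lit 2)) (.col (nat_lit 1))
def w1536 : Root := .mk (.col (nat_lit 3)) (.col (nat_lit 0)) (.node (.node (.col (nat_lit 0)) (.node (.col (nat_lit 2)) (.slot (nat_lit 0)) (.slot (nat_lit 0))) (.slot (nat_lit 0))) (.col (nat_lit 2)) (.slot (nat_lit 1))) (.node (.slot (nat_lit 0)) (.col (nat_lit 2)) (.col (nat_lit 3)))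
def l364 : Root := .mk (.col (nat_lit 3)) (.col (nat_lit 0)) (.node (.node (.col (nat_lit 0)) (.node (.col (nat_lit 2)) (.slot (nat_lit 3)) (.slot (nat_lit 1))) (.node (.slot (nat_lit 0)) (.slot (nat_lit 0)) (.slot (nat_lit 0)))) (.col (nat_lit 2)) (.slot (nat_lit 3))) (.node (.slot (nat_lit 0)) (.col (nat_lit 2)) (.col (nat_lit 3)))
def w1537 : Root := .mk (.col (nat_lit 3)) (.col (nat_lit 0)) (.node (.node (.col (nat_lit 0)) (.node (.col (nat_lit 2)) (.slot (nat_lit 3)) (.slot (nat_lit 1))) (.node (.slot (nat_lit 0)) (.slot (nat_lit 0)) (.slot (nat_lit 0)))) (.slot (nat_lit 1)) (.slot (nat_lit 3))) (.node (.slot (nat_lit 0)) (.col (nat_lit 2)) (.col (nat_lit 3)))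
def w1538 : Root := .mk (.col (nat_lit 3)) (.col (nat_lit 0)) (.node (.col (nat_lit 2)) (.col (nat_lit 3)) (.slot (nat_lit 3))) (.node (.slot (nat_lit 0)) (.col (nat_lit 2)) (.node (.col (nat_lit 0)) (.slot (nat_lit 0)) (.slot (nat_lit 0))))
def w1539 : Root := .mk (.col (nat_lit 3)) (.col (nat_lit 0)) (.node (.col (nat_lit 2)) (.node (.col (nat_lit 2)) (.slot (nat_lit 0)) (.slot (nat_lit 0))) (.slot (nat_lit 1))) (.node (.slot (nat_lit 0)) (.col (nat_lit 2)) (.node (.col (nat_lit 0)) (.slot (nat_lit 0)) (.slot (nat_lit 0))))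
def w1540 : Root := .mk (.col (nat_lit 3)) (.col (nat_lit 0)) (.node (.node (.col (nat_lit 0)) (.slot (nat_lit 0)) (.node (.slot (nat_lit 0)) (.slot (nat_lit 0)) (.slot (nat_lit 0)))) (.col (nat_lit 2)) (.node (.col (nat_lit 1)) (.slot (nat_lit 0)) (.slot (nat_lit 0)))) (.node (.slot (nat_lit 0)) (.col (nat_lit 2)) (.slot (nat_lit 0)))
def w1541 : Root := .mk (.node (.node (.col (nat_lit 3)) (.col (nat_lit 0)) (.node (.slot (nat_lit 0)) (.col (nat_lit 2)) (.node (.col (nat_lit 0)) (.slot (nat_lit 0)) (.slot (nat_lit 0))))) (.col (nat_lit 2)) (.slot (nat_lit 1))) (.col (nat_lit 0)) (.slot (nat_lit 0)) (.col (nat_lit 2))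
def w1542 : Root := .mk (.col (nat_lit 3)) (.col (nat_lit 0)) (.node (.node (.col (nat_lit 0)) (.slot (nat_lit 0)) (.slot (nat_lit 0))) (.col (nat_lit 2)) (.slot (nat_lit 1))) (.node (.slot (nat_lit 0)) (.col (nat_lit 2)) (.node (.col (nat_lit 0)) (.slot (nat_lit 0)) (.slot (nat_lit 0))))
def l365 : Root := .mk (.col (nat_lit 3)) (.col (nat_lit 0)) (.node (.node (.col (nat_lit 0)) (.node (.col (nat_lit 2)) (.slot (nat_lit 2)) (.slot (nat_lit 2))) (.node (.slot (nat_lit 0)) (.slot (nat_lit 0)) (.slot (nat_lit 0)))) (.col (nat_lit 2)) (.slot (nat_lit 3))) (.node (.slot (nat_lit 0)) (.col (nat_lit 2)) (.node (.col (nat_lit 0)) (.slot (nat_lit 0)) (.slot (nat_lit 0))))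
def w1543 : Root := .mk (.col (nat_lit 3)) (.col (nat_lit 0)) (.node (.node (.col (nat_lit 0)) (.node (.col (nat_lit 2)) (.slot (nat_lit 2)) (.slot (nat_lit 2))) (.node (.slot (nat_lit 0)) (.slot (nat_lit 0)) (.slot (nat_lit 0)))) (.slot (nat_lit 1)) (.slot (nat_lit 3))) (.node (.slot (nat_lit 0)) (.col (nat_lit 2)) (.node (.col (nat_lit 0)) (.slot (nat_lit 0)) (.slot (nat_lit 0))))
def w1544 : Root := .mk (.col (nat_lit 3)) (.col (nat_lit 0)) (.node (.node (.col (nat_lit 0)) (.slot (nat_lit 0)) (.slot (nat_lit 0))) (.col (nat_lit 2)) (.slot (nat_lit 1))) (.node (.slot (nat_lit 0)) (.col (nat_lit 2)) (.node (.col (nat_lit 1)) (.slot (nat_lit 0)) (.slot (nat_lit 0))))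
def l366 : Root := .mk (.col (nat_lit 3)) (.col (nat_lit 0)) (.node (.node (.col (nat_lit 0)) (.node (.col (nat_lit 2)) (.slot (nat_lit 2)) (.slot (nat_lit 2))) (.node (.slot (nat_lit 0)) (.slot (nat_lit 0)) (.slot (nat_lit 0)))) (.col (nat_lit 2)) (.slot (nat_lit 3))) (.node (.slot (nat_lit 0)) (.col (nat_lit 2)) (.node (.col (nat_lit 1)) (.slot (nat_lit 0)) (.slot (nat_lit 0))))
def w1545 : Root := .mk (.col (nat_lit 3)) (.col (nat_lit 0)) (.node (.node (.col (nat_lit 0)) (.node (.col (nat_lit 2)) (.slot (nat_lit 2)) (.slot (nat_lit 2))) (.node (.slot (nat_lit 0)) (.slot (nat_lit 0)) (.slot (nat_lit 0)))) (.slot (nat_lit 1)) (.slot (nat_lit 3))) (.node (.slot (nat_lit 0)) (.col (nat_lit 2)) (.node (.col (nat_lit 1)) (.slot (nat_lit 0)) (.slot (nat_lit 0))))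
def w1546 : Root := .mk (.col (nat_lit 3)) (.col (nat_lit 0)) (.node (.col (nat_lit 2)) (.node (.col (nat_lit 2)) (.slot (nat_lit 0)) (.slot (nat_lit 0))) (.slot (nat_lit 1))) (.node (.slot (nat_lit 0)) (.col (nat_lit 2)) (.node (.col (nat_lit 2)) (.slot (nat_lit 0)) (.slot (nat_lit 0))))
def w1547 : Root := .mk (.node (.node (.col (nat_lit 3)) (.col (nat_lit 0)) (.node (.slot (nat_lit 0)) (.col (nat_lit 2)) (.node (.col (nat_lit 2)) (.slot (nat_lit 0)) (.slot (nat_lit 0))))) (.col (nat_lit 2)) (.slot (nat_lit 1))) (.col (nat_lit 0)) (.slot (nat_lit 0)) (.col (nat_lit 2))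
def w1548 : Root := .mk (.col (nat_lit 3)) (.col (nat_lit 0)) (.node (.node (.col (nat_lit 0)) (.slot (nat_lit 0)) (.slot (nat_lit 0))) (.col (nat_lit 2)) (.slot (nat_lit 1))) (.node (.slot (nat_lit 0)) (.col (nat_lit 2)) (.node (.col (nat_lit 2)) (.slot (nat_lit 0)) (.slot (nat_lit 0))))
def l367 : Root := .mk (.col (nat_lit 3)) (.col (nat_lit 0)) (.node (.node (.col (nat_lit 0)) (.node (.col (nat_lit 2)) (.slot (nat_lit 2)) (.slot (nat_lit 2))) (.node (.slot (nat_lit 0)) (.slot (nat_lit 0)) (.slot (nat_lit 0)))) (.col (nat_lit 2)) (.slot (nat_lit 2))) (.node (.slot (nat_lit 0)) (.col (nat_lit 2)) (.node (.col (nat_lit 2)) (.slot (nat_lit 0)) (.slot (nat_lit 0))))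
def w1549 : Root := .mk (.col (nat_lit 3)) (.col (nat_lit 0)) (.node (.node (.col (nat_lit 0)) (.node (.col (nat_lit 2)) (.slot (nat_lit 2)) (.slot (nat_lit 2))) (.node (.slot (nat_lit 0)) (.slot (nat_lit 0)) (.slot (nat_lit 0)))) (.slot (nat_lit 1)) (.slot (nat_lit 2))) (.node (.slot (nat_lit 0)) (.col (nat_lit 2)) (.node (.col (nat_lit 2)) (.slot (nat_lit 0)) (.slot (nat_lit 0))))
def w1550 : Root := .mk (.node (.node (.col (nat_lit 3)) (.col (nat_lit 0)) (.node (.slot (nat_lit 0)) (.col (nat_lit 2)) (.node (.col (nat_lit 3)) (.slot (nat_lit 0)) (.slot (nat_lit 0))))) (.col (nat_lit 2)) (.slot (nat_lit 1))) (.col (nat_lit 0)) (.slot (nat_lit 0)) (.col (nat_lit 2))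
def w1551 : Root := .mk (.col (nat_lit 3)) (.col (nat_lit 0)) (.node (.node (.col (nat_lit 0)) (.slot (nat_lit 0)) (.slot (nat_lit 0))) (.col (nat_lit 2)) (.slot (nat_lit 1))) (.node (.slot (nat_lit 0)) (.col (nat_lit 2)) (.node (.col (nat_lit 3)) (.slot (nat_lit 0)) (.slot (nat_lit 0))))
def l368 : Root := .mk (.col (nat_lit 3)) (.col (nat_lit 0)) (.node (.node (.col (nat_lit 0)) (.node (.col (nat_lit 2)) (.slot (nat_lit 2)) (.slot (nat_lit 2))) (.node (.slot (nat_lit 0)) (.slot (nat_lit 0)) (.slot (nat_lit 0)))) (.col (nat_lit 2)) (.slot (nat_lit 4))) (.node (.slot (nat_lit 0)) (.col (nat_lit 2)) (.node (.col (nat_lit 3)) (.slot (nat_lit 0)) (.slot (nat_lit 0))))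
def w1552 : Root := .mk (.col (nat_lit 3)) (.col (nat_lit 0)) (.node (.node (.col (nat_lit 0)) (.node (.col (nat_lit 2)) (.slot (nat_lit 2)) (.slot (nat_lit 2))) (.node (.slot (nat_lit 0)) (.slot (nat_lit 0)) (.slot (nat_lit 0)))) (.slot (nat_lit 1)) (.slot (nat_lit 4))) (.node (.slot (nat_lit 0)) (.col (nat_lit 2)) (.node (.col (nat_lit 3)) (.slot (nat_lit 0)) (.slot (nat_lit 0))))
def w1554 : Root := .mk (.col (nat_lit 2)) (.node (.col (nat_lit 0)) (.node (.col (nat_lit 2)) (.slot (nat_lit 0)) (.slot (nat_lit 0))) (.node (.slot (nat_lit 0)) (.col (nat_lit 2)) (.slot (nat_lit 1)))) (.col (nat_lit 1)) (.slot (nat_lit 1))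
def w1555 : Root := .mk (.col (nat_lit 4)) (.node (.col (nat_lit 0)) (.node (.col (nat_lit 2)) (.slot (nat_lit 1)) (.slot (nat_lit 1))) (.node (.slot (nat_lit 0)) (.col (nat_lit 2)) (.slot (nat_lit 1)))) (.col (nat_lit 1)) (.slot (nat_lit 1))
def w1556 : Root := .mk (.col (nat_lit 3)) (.col (nat_lit 0)) (.node (.node (.col (nat_lit 0)) (.node (.col (nat_lit 2)) (.slot (nat_lit 0)) (.slot (nat_lit 0))) (.slot (nat_lit 0))) (.col (nat_lit 1)) (.node (.col (nat_lit 1)) (.slot (nat_lit 0)) (.slot (nat_lit 0)))) (.node (.slot (nat_lit 0)) (.slot (nat_lit 0)) (.slot (nat_lit 0)))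
def w1557 : Root := .mk (.col (nat_lit 3)) (.col (nat_lit 0)) (.node (.node (.col (nat_lit 0)) (.node (.col (nat_lit 2)) (.slot (nat_lit 0)) (.slot (nat_lit 0))) (.slot (nat_lit 0))) (.col (nat_lit 1)) (.node (.col (nat_lit 2)) (.slot (nat_lit 0)) (.slot (nat_lit 0)))) (.node (.slot (nat_lit 0)) (.slot (nat_lit 0)) (.slot (nat_lit 0)))
def w1558 : Root := .mk (.col (nat_lit 3)) (.col (nat_lit 0)) (.node (.node (.col (nat_lit 0)) (.node (.col (nat_lit 2)) (.slot (nat_lit 0)) (.slot (nat_lit 0))) (.slot (nat_lit 0))) (.col (nat_lit 1)) (.node (.col (nat_lit 4)) (.slot (nat_lit 0)) (.slot (nat_lit 0)))) (.node (.slot (nat_lit 0)) (.slot (nat_lit 0)) (.slot (nat_lit 0)))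
def w1559 : Root := .mk (.col (nat_lit 3)) (.col (nat_lit 0)) (.node (.node (.col (nat_lit 0)) (.node (.col (nat_lit 2)) (.slot (nat_lit 1)) (.slot (nat_lit 1))) (.node (.slot (nat_lit 0)) (.col (nat_lit 2)) (.slot (nat_lit 0)))) (.col (nat_lit 1)) (.slot (nat_lit 1))) (.col (nat_lit 1))
def w1560 : Root := .mk (.col (nat_lit 3)) (.col (nat_lit 0)) (.node (.node (.col (nat_lit 0)) (.node (.col (nat_lit 2)) (.slot (nat_lit 0)) (.slot (nat_lit 0))) (.slot (nat_lit 0))) (.col (nat_lit 1)) (.slot (nat_lit 1))) (.node (.col (nat_lit 0)) (.slot (nat_lit 0)) (.slot (nat_lit 0)))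
def l369 : Root := .mk (.col (nat_lit 3)) (.col (nat_lit 0)) (.node (.node (.col (nat_lit 0)) (.node (.col (nat_lit 2)) (.slot (nat_lit 1)) (.slot (nat_lit 1))) (.node (.slot (nat_lit 0)) (.col (nat_lit 2)) (.slot (nat_lit 1)))) (.col (nat_lit 1)) (.slot (nat_lit 2))) (.node (.slot (nat_lit 0)) (.slot (nat_lit 1)) (.slot (nat_lit 1)))
def w1561 : Root := .mk (.col (nat_lit 3)) (.col (nat_lit 0)) (.node (.node (.col (nat_lit 0)) (.node (.col (nat_lit 2)) (.slot (nat_lit 1)) (.slot (nat_lit 1))) (.node (.slot (nat_lit 0)) (.col (nat_lit 2)) (.slot (nat_lit 1)))) (.slot (nat_lit 1)) (.slot (nat_lit 2))) (.node (.slot (nat_lit 0)) (.slot (nat_lit 1)) (.slot (nat_lit 1)))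
def l370 : Root := .mk (.node (.node (.col (nat_lit 3)) (.col (nat_lit 0)) (.slot (nat_lit 0))) (.slot (nat_lit 1)) (.slot (nat_lit 1))) (.col (nat_lit 0)) (.node (.col (nat_lit 2)) (.col (nat_lit 1)) (.slot (nat_lit 1))) (.col (nat_lit 3))
def w1563 : Root := .mk (.col (nat_lit 3)) (.col (nat_lit 0)) (.node (.node (.col (nat_lit 0)) (.slot (nat_lit 0)) (.slot (nat_lit 0))) (.col (nat_lit 2)) (.node (.col (nat_lit 2)) (.slot (nat_lit 0)) (.slot (nat_lit 0)))) (.node (.slot (nat_lit 0)) (.col (nat_lit 2)) (.slot (nat_lit 1)))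
def w1564 : Root := .mk (.node (.node (.col (nat_lit 3)) (.col (nat_lit 0)) (.node (.slot (nat_lit 0)) (.col (nat_lit 2)) (.slot (nat_lit 0)))) (.col (nat_lit 2)) (.slot (nat_lit 1))) (.col (nat_lit 0)) (.col (nat_lit 1)) (.slot (nat_lit 0))
def w1566 : Root := .mk (.col (nat_lit 3)) (.col (nat_lit 0)) (.node (.node (.col (nat_lit 0)) (.node (.col (nat_lit 2)) (.slot (nat_lit 1)) (.slot (nat_lit 0))) (.node (.slot (nat_lit 0)) (.col (nat_lit 2)) (.col (nat_lit 0)))) (.slot (nat_lit 1)) (.slot (nat_lit 1))) (.col (nat_lit 1))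
def w1571 : Root := .mk (.node (.node (.node (.slot (nat_lit 0)) (.col (nat_lit 2)) (.col (nat_lit 4))) (.col (nat_lit 2)) (.slot (nat_lit 1))) (.col (nat_lit 0)) (.node (.slot (nat_lit 0)) (.slot (nat_lit 0)) (.slot (nat_lit 0)))) (.col (nat_lit 3)) (.col (nat_lit 0)) (.node (.col (nat_lit 1)) (.slot (nat_lit 1)) (.slot (nat_lit 1)))
def w1572 : Root := .mk (.node (.node (.node (.slot (nat_lit 0)) (.col (nat_lit 2)) (.col (nat_lit 4))) (.col (nat_lit 2)) (.slot (nat_lit 3))) (.col (nat_lit 0)) (.node (.slot (nat_lit 0)) (.slot (nat_lit 0)) (.slot (nat_lit 0)))) (.col (nat_lit 3)) (.col (nat_lit 0)) (.col (nat_lit 2))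
def w1574 : Root := .mk (.node (.slot (nat_lit 0)) (.col (nat_lit 2)) (.slot (nat_lit 1))) (.col (nat_lit 0)) (.node (.col (nat_lit 3)) (.col (nat_lit 0)) (.node (.col (nat_lit 1)) (.slot (nat_lit 1)) (.slot (nat_lit 0)))) (.col (nat_lit 4))
def w1575 : Root := .mk (.node (.node (.node (.node (.slot (nat_lit 0)) (.col (nat_lit 2)) (.slot (nat_lit 0))) (.col (nat_lit 2)) (.col (nat_lit 4))) (.col (nat_lit 2)) (.slot (nat_lit 1))) (.col (nat_lit 0)) (.node (.slot (nat_lit 0)) (.slot (nat_lit 0)) (.slot (nat_lit 0)))) (.col (nat_lit 3)) (.col (nat_lit 0)) (.node (.col (nat_lit 1)) .junk (.slot (nat_lit 1)))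
def w1576 : Root := .mk (.node (.node (.col (nat_lit 0)) (.col (nat_lit 2)) (.slot (nat_lit 2))) (.col (nat_lit 0)) (.node (.slot (nat_lit 0)) (.slot (nat_lit 1)) (.slot (nat_lit 1)))) (.col (nat_lit 3)) (.col (nat_lit 0)) (.node (.col (nat_lit 1)) (.slot (nat_lit 1)) (.slot (nat_lit 1)))
def w1577 : Root := .mk (.node (.node (.col (nat_lit 0)) (.col (nat_lit 1)) .junk) (.col (nat_lit 2)) (.slot (nat_lit 1))) (.node (.node (.col (nat_lit 0)) (.slot (nat_lit 0)) (.slot (nat_lit 0))) .junk (.col (nat_lit 0))) (.col (nat_lit 2)) (.col (nat_lit 4))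
def l373 : Root := .mk (.col (nat_lit 3)) (.node (.col (nat_lit 0)) (.node (.col (nat_lit 3)) (.col (nat_lit 0)) (.node (.col (nat_lit 1)) (.slot (nat_lit 1)) (.slot (nat_lit 1)))) (.node (.slot (nat_lit 0)) (.slot (nat_lit 0)) (.slot (nat_lit 0)))) (.col (nat_lit 2)) (.col (nat_lit 4))
def w1578 : Root := .mk (.node (.slot (nat_lit 0)) (.col (nat_lit 2)) (.col (nat_lit 4))) (.node (.col (nat_lit 0)) (.node (.col (nat_lit 3)) (.col (nat_lit 0)) (.node (.col (nat_lit 1)) (.slot (nat_lit 1)) (.slot (nat_lit 1)))) (.node (.slot (nat_lit 0)) (.slot (nat_lit 0)) (.slot (nat_lit 0)))) (.col (nat_lit 2)) (.col (nat_lit 4))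
def w1584 : Root := .mk (.node (.node (.node (.slot (nat_lit 0)) (.col (nat_lit 2)) (.col (nat_lit 4))) (.col (nat_lit 2)) (.slot (nat_lit 2))) (.col (nat_lit 0)) (.node (.col (nat_lit 0)) (.slot (nat_lit 0)) (.slot (nat_lit 0)))) (.col (nat_lit 3)) (.col (nat_lit 0)) (.node (.col (nat_lit 1)) (.slot (nat_lit 1)) (.slot (nat_lit 1)))
def w1588 : Root := .mk (.node (.node (.slot (nat_lit 0)) (.col (nat_lit 2)) (.slot (nat_lit 0))) (.col (nat_lit 0)) (.node (.slot (nat_lit 0)) (.col (nat_lit 3)) (.slot (nat_lit 1)))) (.col (nat_lit 3)) (.col (nat_lit 0)) (.node (.col (nat_lit 1)) (.slot (nat_lit 1)) (.slot (nat_lit 1)))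
def w1595 : Root := .mk (.slot (nat_lit 0)) (.col (nat_lit 0)) (.node (.node (.col (nat_lit 0)) (.node (.col (nat_lit 2)) (.slot (nat_lit 7)) (.slot (nat_lit 5))) (.slot (nat_lit 8))) (.node (.col (nat_lit 0)) (.slot (nat_lit 7)) (.slot (nat_lit 5))) (.slot (nat_lit 8))) (.slot (nat_lit 0))
def w1599 : Root := .mk (.col (nat_lit 1)) (.node (.col (nat_lit 0)) (.node (.col (nat_lit 2)) (.slot (nat_lit 1)) (.slot (nat_lit 1))) (.slot (nat_lit 2))) (.node (.col (nat_lit 3)) (.slot (nat_lit 1)) (.slot (nat_lit 1))) (.slot (nat_lit 2))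
def w1611 : Root := .mk (.node (.node (.node (.node (.col (nat_lit 3)) .junk (.col (nat_lit 4))) (.col (nat_lit 2)) (.slot (nat_lit 1))) (.col (nat_lit 0)) (.col (nat_lit 2))) .junk (.col (nat_lit 3))) (.col (nat_lit 0)) (.slot (nat_lit 0)) (.col (nat_lit 2))
def w1612 : Root := .mk (.node (.node (.slot (nat_lit 0)) (.col (nat_lit 2)) (.slot (nat_lit 0))) (.col (nat_lit 0)) (.col (nat_lit 2))) (.node (.col (nat_lit 0)) (.node (.col (nat_lit 2)) (.col (nat_lit 0)) (.slot (nat_lit 0))) (.node (.col (nat_lit 0)) (.slot (nat_lit 0)) (.slot (nat_lit 0)))) (.col (nat_lit 2)) (.col (nat_lit 3))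
def w1613 : Root := .mk (.node (.node (.node (.node (.slot (nat_lit 0)) (.col (nat_lit 2)) (.slot (nat_lit 0))) (.col (nat_lit 0)) (.col (nat_lit 2))) (.col (nat_lit 2)) (.col (nat_lit 3))) (.col (nat_lit 0)) (.slot (nat_lit 1))) (.col (nat_lit 2)) (.col (nat_lit 0)) (.slot (nat_lit 0))
def w1616 : Root := .mk (.col (nat_lit 3)) (.node (.col (nat_lit 0)) (.node (.col (nat_lit 2)) (.col (nat_lit 0)) (.slot (nat_lit 1))) (.node (.col (nat_lit 0)) (.slot (nat_lit 0)) (.slot (nat_lit 0)))) (.col (nat_lit 2)) (.slot (nat_lit 1))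
def w1620 : Root := .mk (.slot (nat_lit 0)) (.node (.col (nat_lit 0)) (.node (.node (.col (nat_lit 0)) (.slot (nat_lit 0)) (.slot (nat_lit 0))) (.col (nat_lit 2)) (.slot (nat_lit 3))) (.node (.slot (nat_lit 0)) (.slot (nat_lit 0)) (.slot (nat_lit 0)))) (.col (nat_lit 2)) (.col (nat_lit 1))
def w1624 : Root := .mk (.col (nat_lit 3)) (.node (.node (.col (nat_lit 0)) (.node (.slot (nat_lit 0)) (.col (nat_lit 2)) (.slot (nat_lit 4))) (.node (.slot (nat_lit 0)) (.slot (nat_lit 0)) (.slot (nat_lit 0)))) (.col (nat_lit 2)) (.node (.col (nat_lit 3)) (.slot (nat_lit 1)) (.slot (nat_lit 1)))) (.col (nat_lit 2)) (.col (nat_lit 4))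
def w1631 : Root := .mk (.node (.col (nat_lit 1)) (.col (nat_lit 0)) (.node (.slot (nat_lit 0)) (.slot (nat_lit 0)) (.slot (nat_lit 0)))) (.node (.col (nat_lit 0)) (.node (.col (nat_lit 2)) (.node (.col (nat_lit 2)) (.slot (nat_lit 0)) (.slot (nat_lit 0))) (.slot (nat_lit 1))) (.slot (nat_lit 1))) (.col (nat_lit 2)) (.col (nat_lit 0))
def l379 : Root := .mk (.col (nat_lit 1)) (.col (nat_lit 0)) (.node (.node (.col (nat_lit 0)) (.node (.col (nat_lit 2)) (.node (.col (nat_lit 2)) (.slot (nat_lit 0)) (.slot (nat_lit 0))) (.slot (nat_lit 2))) (.slot (nat_lit 3))) (.col (nat_lit 2)) (.slot (nat_lit 1))) (.node (.slot (nat_lit 0)) (.slot (nat_lit 0)) (.slot (nat_lit 0)))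
def w1632 : Root := .mk (.col (nat_lit 1)) (.col (nat_lit 0)) (.node (.node (.col (nat_lit 0)) (.node (.col (nat_lit 2)) (.node (.col (nat_lit 2)) (.slot (nat_lit 0)) (.slot (nat_lit 0))) (.slot (nat_lit 2))) (.slot (nat_lit 3))) (.slot (nat_lit 1)) (.slot (nat_lit 1))) (.node (.slot (nat_lit 0)) (.slot (nat_lit 0)) (.slot (nat_lit 0)))
def w1634 : Root := .mk (.node (.node (.slot (nat_lit 0)) (.col (nat_lit 2)) (.col (nat_lit 4))) (.col (nat_lit 2)) (.slot (nat_lit 2))) (.col (nat_lit 0)) (.node (.node (.col (nat_lit 0)) (.node (.col (nat_lit 2)) (.slot (nat_lit 1)) (.slot (nat_lit 1))) (.slot (nat_lit 2))) (.slot (nat_lit 7)) (.slot (nat_lit 5))) (.col (nat_lit 2))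
def w1635 : Root := .mk (.col (nat_lit 0)) (.node (.col (nat_lit 0)) (.node (.node (.col (nat_lit 0)) (.node (.col (nat_lit 2)) (.slot (nat_lit 1)) (.slot (nat_lit 1))) (.slot (nat_lit 2))) (.slot (nat_lit 1)) (.slot (nat_lit 1))) (.col (nat_lit 1))) (.col (nat_lit 2)) (.col (nat_lit 1))
def w1636 : Root := .mk (.node (.col (nat_lit 0)) (.col (nat_lit 2)) (.slot (nat_lit 3))) (.col (nat_lit 0)) (.node (.node (.col (nat_lit 0)) (.slot (nat_lit 0)) (.slot (nat_lit 0))) (.col (nat_lit 1)) (.slot (nat_lit 3))) (.col (nat_lit 1))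
def w1637 : Root := .mk (.node (.col (nat_lit 0)) (.col (nat_lit 2)) (.slot (nat_lit 1))) (.col (nat_lit 0)) (.node (.col (nat_lit 3)) (.node (.col (nat_lit 2)) (.slot (nat_lit 0)) (.slot (nat_lit 0))) (.slot (nat_lit 1))) (.col (nat_lit 1))
def w1638 : Root := .mk (.node (.col (nat_lit 0)) (.col (nat_lit 2)) (.slot (nat_lit 1))) (.col (nat_lit 0)) (.node (.node (.col (nat_lit 0)) (.node (.col (nat_lit 2)) (.slot (nat_lit 1)) (.slot (nat_lit 1))) (.slot (nat_lit 2))) (.node (.col (nat_lit 2)) (.slot (nat_lit 0)) (.slot (nat_lit 0))) (.slot (nat_lit 1))) (.col (nat_lit 1))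
def w1639 : Root := .mk (.node (.col (nat_lit 0)) (.col (nat_lit 2)) (.slot (nat_lit 1))) (.col (nat_lit 0)) (.node (.node (.col (nat_lit 0)) (.node (.col (nat_lit 2)) (.slot (nat_lit 1)) (.slot (nat_lit 1))) (.slot (nat_lit 2))) (.node (.col (nat_lit 3)) (.slot (nat_lit 0)) (.slot (nat_lit 0))) (.slot (nat_lit 1))) (.col (nat_lit 1))
def w1640 : Root := .mk (.node (.col (nat_lit 0)) (.col (nat_lit 2)) (.slot (nat_lit 1))) (.col (nat_lit 0)) (.node (.node (.col (nat_lit 0)) (.col (nat_lit 3)) (.slot (nat_lit 1))) (.slot (nat_lit 1)) (.slot (nat_lit 1))) (.col (nat_lit 1))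
def l380 : Root := .mk (.node (.col (nat_lit 0)) (.col (nat_lit 2)) (.slot (nat_lit 3))) (.col (nat_lit 0)) (.node (.node (.col (nat_lit 0)) (.node (.col (nat_lit 2)) (.slot (nat_lit 0)) (.slot (nat_lit 0))) (.col (nat_lit 2))) (.col (nat_lit 2)) (.slot (nat_lit 2))) (.col (nat_lit 1))
def w1641 : Root := .mk (.node (.node (.node (.col (nat_lit 0)) (.col (nat_lit 2)) (.slot (nat_lit 3))) (.col (nat_lit 0)) (.col (nat_lit 1))) (.slot (nat_lit 1)) (.slot (nat_lit 2))) (.col (nat_lit 0)) (.node (.col (nat_lit 2)) (.slot (nat_lit 0)) (.slot (nat_lit 0))) (.col (nat_lit 2))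
def l381 : Root := .mk (.node (.col (nat_lit 0)) (.col (nat_lit 2)) (.slot (nat_lit 3))) (.col (nat_lit 0)) (.node (.node (.col (nat_lit 0)) (.node (.col (nat_lit 2)) (.slot (nat_lit 7)) (.slot (nat_lit 5))) (.slot (nat_lit 8))) (.slot (nat_lit 8)) (.slot (nat_lit 8))) (.col (nat_lit 1))
def w1642 : Root := .mk (.col (nat_lit 0)) (.node (.col (nat_lit 0)) (.node (.node (.col (nat_lit 0)) (.node (.col (nat_lit 2)) (.slot (nat_lit 7)) (.slot (nat_lit 5))) (.slot (nat_lit 8))) (.slot (nat_lit 8)) (.slot (nat_lit 8))) (.node (.slot (nat_lit 0)) (.slot (nat_lit 0)) (.slot (nat_lit 0)))) (.col (nat_lit 2)) (.slot (nat_lit 3))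
def w1643 : Root := .mk (.slot (nat_lit 0)) (.node (.col (nat_lit 0)) (.node (.node (.col (nat_lit 0)) (.node (.col (nat_lit 2)) (.slot (nat_lit 1)) (.slot (nat_lit 1))) (.slot (nat_lit 2))) (.slot (nat_lit 3)) (.slot (nat_lit 1))) (.node (.slot (nat_lit 0)) (.slot (nat_lit 0)) (.slot (nat_lit 0)))) (.col (nat_lit 2)) (.col (nat_lit 4))
def w1647 : Root := .mk (.node (.node (.node (.node (.col (nat_lit 0)) (.col (nat_lit 1)) .junk) (.col (nat_lit 2)) (.slot (nat_lit 1))) (.col (nat_lit 2)) (.col (nat_lit 4))) (.col (nat_lit 2)) (.node (.slot (nat_lit 0)) (.slot (nat_lit 0)) (.slot (nat_lit 0)))) (.col (nat_lit 0)) (.node (.col (nat_lit 3)) (.slot (nat_lit 1)) .junk) (.col (nat_lit 2))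
def l382 : Root := .mk (.col (nat_lit 3)) (.node (.node (.col (nat_lit 0)) (.node (.col (nat_lit 2)) (.slot (nat_lit 1)) (.slot (nat_lit 1))) (.col (nat_lit 3))) (.col (nat_lit 2)) (.node (.slot (nat_lit 0)) (.slot (nat_lit 1)) (.slot (nat_lit 0)))) (.col (nat_lit 2)) (.col (nat_lit 4))
def w1651 : Root := .mk (.col (nat_lit 1)) (.col (nat_lit 0)) (.node (.node (.col (nat_lit 0)) (.node (.col (nat_lit 2)) (.slot (nat_lit 2)) (.slot (nat_lit 2))) (.slot (nat_lit 3))) (.slot (nat_lit 1)) (.slot (nat_lit 1))) (.node (.col (nat_lit 0)) (.slot (nat_lit 0)) (.slot (nat_lit 0)))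
def w1653 : Root := .mk (.node (.slot (nat_lit 0)) (.col (nat_lit 2)) (.slot (nat_lit 0))) (.col (nat_lit 0)) (.node (.node (.col (nat_lit 0)) (.node (.col (nat_lit 2)) (.slot (nat_lit 1)) (.slot (nat_lit 1))) (.slot (nat_lit 2))) (.slot (nat_lit 1)) (.slot (nat_lit 1))) (.node (.col (nat_lit 1)) (.slot (nat_lit 1)) (.slot (nat_lit 1)))
def w1654 : Root := .mk (.node (.slot (nat_lit 0)) (.col (nat_lit 2)) (.col (nat_lit 4))) (.node (.col (nat_lit 0)) (.node (.col (nat_lit 1)) (.slot (nat_lit 0)) (.slot (nat_lit 0))) (.node (.slot (nat_lit 0)) (.col (nat_lit 1)) (.slot (nat_lit 1)))) (.col (nat_lit 2)) (.col (nat_lit 1))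
def w1657 : Root := .mk (.node (.slot (nat_lit 0)) (.col (nat_lit 2)) (.slot (nat_lit 0))) (.node (.node (.col (nat_lit 0)) (.node (.col (nat_lit 1)) (.slot (nat_lit 1)) (.slot (nat_lit 1))) (.node (.slot (nat_lit 0)) (.col (nat_lit 1)) (.slot (nat_lit 1)))) (.col (nat_lit 2)) (.node (.col (nat_lit 1)) (.slot (nat_lit 1)) (.slot (nat_lit 1)))) (.col (nat_lit 2)) (.col (nat_lit 4))
def l384 : Root := .mk (.node (.col (nat_lit 0)) .junk (.col (nat_lit 4))) (.node (.col (nat_lit 0)) (.node (.col (nat_lit 1)) (.slot (nat_lit 1)) (.slot (nat_lit 1))) (.node (.slot (nat_lit 0)) (.col (nat_lit 1)) (.slot (nat_lit 1)))) (.col (nat_lit 2)) (.col (nat_lit 3))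
def w1661 : Root := .mk (.node (.col (nat_lit 0)) .junk (.col (nat_lit 4))) (.node (.col (nat_lit 0)) (.node (.col (nat_lit 1)) (.slot (nat_lit 1)) (.slot (nat_lit 1))) (.node (.slot (nat_lit 0)) (.col (nat_lit 1)) (.slot (nat_lit 1)))) (.col (nat_lit 2)) (.node (.col (nat_lit 1)) (.slot (nat_lit 0)) (.slot (nat_lit 0)))
def w1663 : Root := .mk (.node (.node (.node (.slot (nat_lit 0)) (.col (nat_lit 2)) (.slot (nat_lit 0))) (.col (nat_lit 2)) (.col (nat_lit 4))) (.col (nat_lit 2)) (.node (.col (nat_lit 1)) (.slot (nat_lit 1)) (.slot (nat_lit 1)))) (.col (nat_lit 0)) (.col (nat_lit 2)) (.node .junk (.col (nat_lit 1)) (.slot (nat_lit 1)))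
def w1666 : Root := .mk (.node (.slot (nat_lit 0)) (.node (.col (nat_lit 0)) (.node (.col (nat_lit 1)) (.slot (nat_lit 1)) (.slot (nat_lit 1))) (.node (.slot (nat_lit 0)) (.col (nat_lit 1)) (.slot (nat_lit 1)))) (.col (nat_lit 2))) (.col (nat_lit 1)) (.col (nat_lit 0)) (.slot (nat_lit 1))
def w1667 : Root := .mk (.col (nat_lit 3)) (.node (.col (nat_lit 0)) (.node (.col (nat_lit 1)) (.slot (nat_lit 1)) (.slot (nat_lit 1))) (.node (.slot (nat_lit 0)) (.col (nat_lit 1)) (.slot (nat_lit 1)))) (.col (nat_lit 2)) (.node (.col (nat_lit 4)) (.slot (nat_lit 0)) (.slot (nat_lit 0)))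
def w1673 : Root := .mk (.node (.node (.slot (nat_lit 0)) (.col (nat_lit 2)) (.col (nat_lit 4))) (.col (nat_lit 2)) (.node (.col (nat_lit 4)) (.slot (nat_lit 1)) (.slot (nat_lit 0)))) (.col (nat_lit 0)) (.col (nat_lit 4)) (.node (.slot (nat_lit 0)) (.col (nat_lit 1)) (.slot (nat_lit 0)))
def w1674 : Root := .mk (.slot (nat_lit 0)) (.node (.node (.col (nat_lit 0)) (.node (.col (nat_lit 1)) (.slot (nat_lit 0)) (.slot (nat_lit 0))) (.slot (nat_lit 0))) (.col (nat_lit 2)) (.node (.col (nat_lit 4)) (.col (nat_lit 0)) (.slot (nat_lit 1)))) (.col (nat_lit 2)) (.col (nat_lit 4))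
def w1675 : Root := .mk (.node (.slot (nat_lit 0)) (.col (nat_lit 2)) (.slot (nat_lit 0))) (.node (.node (.col (nat_lit 0)) (.slot (nat_lit 0)) (.slot (nat_lit 0))) (.col (nat_lit 2)) (.node (.col (nat_lit 4)) (.col (nat_lit 1)) (.slot (nat_lit 1)))) (.col (nat_lit 2)) (.col (nat_lit 4))
def l385 : Root := .mk (.col (nat_lit 1)) (.col (nat_lit 0)) (.node (.node (.col (nat_lit 0)) (.node (.col (nat_lit 2)) (.slot (nat_lit 2)) (.slot (nat_lit 2))) (.slot (nat_lit 3))) (.col (nat_lit 2)) (.slot (nat_lit 1))) (.node (.slot (nat_lit 0)) (.col (nat_lit 1)) (.slot (nat_lit 0)))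
def w1676 : Root := .mk (.col (nat_lit 1)) (.col (nat_lit 0)) (.node (.node (.col (nat_lit 0)) (.node (.col (nat_lit 2)) (.slot (nat_lit 2)) (.slot (nat_lit 2))) (.slot (nat_lit 3))) (.slot (nat_lit 1)) (.slot (nat_lit 1))) (.node (.slot (nat_lit 0)) (.col (nat_lit 1)) (.slot (nat_lit 0)))
def w1679 : Root := .mk (.node (.col (nat_lit 1)) (.col (nat_lit 0)) (.node (.slot (nat_lit 0)) (.col (nat_lit 3)) (.slot (nat_lit 1)))) (.node (.col (nat_lit 0)) (.node (.col (nat_lit 2)) (.slot (nat_lit 3)) (.slot (nat_lit 1))) (.slot (nat_lit 2))) (.col (nat_lit 3)) (.col (nat_lit 0))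
def l386 : Root := .mk (.col (nat_lit 1)) (.col (nat_lit 0)) (.node (.node (.col (nat_lit 0)) (.node (.col (nat_lit 2)) (.slot (nat_lit 3)) (.slot (nat_lit 1))) (.slot (nat_lit 2))) (.col (nat_lit 3)) (.slot (nat_lit 2))) (.node (.slot (nat_lit 0)) (.col (nat_lit 3)) (.slot (nat_lit 1)))
def w1680 : Root := .mk (.col (nat_lit 1)) (.col (nat_lit 0)) (.node (.node (.col (nat_lit 0)) (.node (.col (nat_lit 2)) (.slot (nat_lit 3)) (.slot (nat_lit 1))) (.slot (nat_lit 2))) (.slot (nat_lit 1)) (.slot (nat_lit 2))) (.node (.slot (nat_lit 0)) (.col (nat_lit 3)) (.slot (nat_lit 1)))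
def l387 : Root := .mk (.node (.node (.slot (nat_lit 0)) (.col (nat_lit 2)) (.col (nat_lit 4))) (.col (nat_lit 2)) (.slot (nat_lit 2))) (.col (nat_lit 0)) (.node (.node (.col (nat_lit 0)) (.node (.col (nat_lit 2)) (.slot (nat_lit 0)) (.slot (nat_lit 0))) (.col (nat_lit 2))) (.col (nat_lit 2)) (.slot (nat_lit 2))) (.col (nat_lit 1))
def l390 : Root := .mk (.node (.node (.slot (nat_lit 0)) (.col (nat_lit 2)) (.col (nat_lit 0))) (.col (nat_lit 0)) (.node (.slot (nat_lit 0)) (.slot (nat_lit 0)) (.slot (nat_lit 0)))) (.node (.col (nat_lit 0)) (.node (.col (nat_lit 2)) (.slot (nat_lit 3)) (.slot (nat_lit 1))) (.slot (nat_lit 2))) (.col (nat_lit 2)) (.col (nat_lit 3))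
def w1689 : Root := .mk (.slot (nat_lit 0)) (.node (.col (nat_lit 0)) (.node (.node (.col (nat_lit 0)) (.node (.col (nat_lit 2)) (.slot (nat_lit 3)) (.slot (nat_lit 1))) (.slot (nat_lit 2))) (.col (nat_lit 2)) (.node (.col (nat_lit 1)) (.slot (nat_lit 0)) (.slot (nat_lit 0)))) (.node (.slot (nat_lit 0)) (.slot (nat_lit 0)) (.slot (nat_lit 0)))) (.col (nat_lit 2)) (.col (nat_lit 0))
def l391 : Root := .mk (.node (.node (.slot (nat_lit 0)) (.col (nat_lit 0)) (.col (nat_lit 2))) (.col (nat_lit 2)) (.slot (nat_lit 1))) (.col (nat_lit 0)) (.node (.col (nat_lit 2)) (.slot (nat_lit 1)) (.slot (nat_lit 1))) (.col (nat_lit 1))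
def w1690 : Root := .mk (.slot (nat_lit 0)) (.col (nat_lit 0)) (.node (.node (.col (nat_lit 0)) (.node (.col (nat_lit 2)) (.slot (nat_lit 1)) (.slot (nat_lit 1))) (.slot (nat_lit 1))) (.col (nat_lit 2)) (.slot (nat_lit 1))) (.col (nat_lit 2))
def l392 : Root := .mk (.col (nat_lit 1)) (.col (nat_lit 0)) (.node (.node (.col (nat_lit 0)) (.node (.col (nat_lit 2)) (.slot (nat_lit 7)) (.slot (nat_lit 5))) (.node (.col (nat_lit 2)) (.slot (nat_lit 7)) (.slot (nat_lit 5)))) (.col (nat_lit 0)) (.slot (nat_lit 2))) (.node (.slot (nat_lit 0)) (.col (nat_lit 2)) (.slot (nat_lit 1)))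
def w1691 : Root := .mk (.col (nat_lit 1)) (.col (nat_lit 0)) (.node (.node (.col (nat_lit 0)) (.node (.col (nat_lit 2)) (.slot (nat_lit 7)) (.slot (nat_lit 5))) (.slot (nat_lit 8))) (.col (nat_lit 0)) (.slot (nat_lit 2))) (.node (.slot (nat_lit 0)) (.col (nat_lit 2)) (.slot (nat_lit 1)))
def l394 : Root := .mk (.col (nat_lit 1)) (.col (nat_lit 0)) (.node (.node (.col (nat_lit 0)) (.node (.col (nat_lit 2)) (.slot (nat_lit 3)) (.slot (nat_lit 2))) (.slot (nat_lit 3))) (.col (nat_lit 2)) (.slot (nat_lit 1))) (.node (.slot (nat_lit 0)) (.col (nat_lit 2)) (.slot (nat_lit 1)))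
def l395 : Root := .mk (.col (nat_lit 1)) (.col (nat_lit 0)) (.node (.node (.col (nat_lit 0)) (.node (.col (nat_lit 2)) (.slot (nat_lit 3)) (.slot (nat_lit 2))) (.slot (nat_lit 2))) (.node (.col (nat_lit 2)) (.slot (nat_lit 0)) (.slot (nat_lit 0))) (.col (nat_lit 2))) (.node (.slot (nat_lit 0)) (.col (nat_lit 2)) (.slot (nat_lit 1)))
def w1694 : Root := .mk (.col (nat_lit 1)) (.col (nat_lit 0)) (.node (.node (.col (nat_lit 0)) (.node (.col (nat_lit 2)) (.slot (nat_lit 3)) (.slot (nat_lit 2))) (.slot (nat_lit 2))) (.node (.col (nat_lit 2)) (.slot (nat_lit 0)) (.slot (nat_lit 0))) (.slot (nat_lit 1))) (.node (.slot (nat_lit 0)) (.col (nat_lit 2)) (.slot (nat_lit 1)))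
def w1695 : Root := .mk (.col (nat_lit 1)) (.col (nat_lit 0)) (.node (.node (.col (nat_lit 0)) (.node (.col (nat_lit 2)) (.slot (nat_lit 3)) (.slot (nat_lit 2))) (.slot (nat_lit 3))) (.node (.col (nat_lit 3)) (.slot (nat_lit 0)) (.slot (nat_lit 0))) (.slot (nat_lit 1))) (.node (.slot (nat_lit 0)) (.col (nat_lit 2)) (.slot (nat_lit 1)))
def l396 : Root := .mk (.col (nat_lit 1)) (.col (nat_lit 0)) (.node (.node (.col (nat_lit 0)) (.node (.col (nat_lit 2)) (.slot (nat_lit 2)) (.slot (nat_lit 2))) (.slot (nat_lit 3))) (.col (nat_lit 2)) (.slot (nat_lit 1))) (.node (.slot (nat_lit 0)) (.col (nat_lit 2)) (.col (nat_lit 0)))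
def w1696 : Root := .mk (.col (nat_lit 1)) (.col (nat_lit 0)) (.node (.node (.col (nat_lit 0)) (.node (.col (nat_lit 2)) (.slot (nat_lit 2)) (.slot (nat_lit 2))) (.slot (nat_lit 3))) (.slot (nat_lit 1)) (.slot (nat_lit 1))) (.node (.slot (nat_lit 0)) (.col (nat_lit 2)) (.col (nat_lit 0)))
def l397 : Root := .mk (.col (nat_lit 1)) (.col (nat_lit 0)) (.node (.node (.col (nat_lit 0)) (.node (.col (nat_lit 2)) (.slot (nat_lit 2)) (.slot (nat_lit 2))) (.slot (nat_lit 3))) (.col (nat_lit 2)) (.slot (nat_lit 2))) (.node (.slot (nat_lit 0)) (.col (nat_lit 2)) (.col (nat_lit 1)))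
def w1697 : Root := .mk (.col (nat_lit 1)) (.col (nat_lit 0)) (.node (.node (.col (nat_lit 0)) (.node (.col (nat_lit 2)) (.slot (nat_lit 2)) (.slot (nat_lit 2))) (.slot (nat_lit 3))) (.slot (nat_lit 1)) (.slot (nat_lit 2))) (.node (.slot (nat_lit 0)) (.col (nat_lit 2)) (.col (nat_lit 1)))
def w1703 : Root := .mk (.slot (nat_lit 0)) (.node (.col (nat_lit 0)) (.node (.node (.col (nat_lit 0)) (.node (.col (nat_lit 2)) (.slot (nat_lit 2)) (.slot (nat_lit 2))) (.slot (nat_lit 3))) (.col (nat_lit 2)) (.slot (nat_lit 1))) (.node (.slot (nat_lit 0)) (.col (nat_lit 2)) (.slot (nat_lit 0)))) (.col (nat_lit 2)) (.col (nat_lit 0))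
def l403 : Root := .mk (.node (.node (.slot (nat_lit 0)) (.col (nat_lit 2)) (.col (nat_lit 0))) (.col (nat_lit 0)) (.node (.slot (nat_lit 0)) (.col (nat_lit 2)) (.slot (nat_lit 1)))) (.col (nat_lit 1)) (.node (.col (nat_lit 0)) (.slot (nat_lit 3)) (.slot (nat_lit 3))) (.col (nat_lit 2))
def w1706 : Root := .mk (.slot (nat_lit 0)) (.node (.col (nat_lit 0)) (.node (.col (nat_lit 1)) (.node (.col (nat_lit 0)) (.slot (nat_lit 3)) (.slot (nat_lit 3))) (.slot (nat_lit 1))) (.node (.slot (nat_lit 0)) (.col (nat_lit 2)) (.slot (nat_lit 1)))) (.col (nat_lit 2)) (.col (nat_lit 0))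
def w1707 : Root := .mk (.slot (nat_lit 0)) (.node (.col (nat_lit 0)) (.node (.col (nat_lit 2)) (.node (.col (nat_lit 0)) (.slot (nat_lit 3)) (.slot (nat_lit 3))) (.slot (nat_lit 1))) (.node (.slot (nat_lit 0)) (.col (nat_lit 2)) (.slot (nat_lit 1)))) (.col (nat_lit 2)) (.col (nat_lit 0))
def w1709 : Root := .mk (.col (nat_lit 0)) (.node (.node (.col (nat_lit 0)) (.node (.col (nat_lit 3)) (.slot (nat_lit 1)) (.slot (nat_lit 1))) (.col (nat_lit 1))) (.col (nat_lit 2)) (.col (nat_lit 0))) (.col (nat_lit 2)) (.col (nat_lit 4))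
def l404 : Root := .mk (.col (nat_lit 0)) (.node (.node (.col (nat_lit 0)) (.node (.node .junk (.col (nat_lit 1)) (.col (nat_lit 4))) (.col (nat_lit 0)) (.col (nat_lit 3))) (.col (nat_lit 1))) (.col (nat_lit 2)) (.col (nat_lit 0))) (.col (nat_lit 2)) (.col (nat_lit 4))
def w1710 : Root := .mk (.col (nat_lit 0)) (.node (.node (.col (nat_lit 0)) (.node (.node .junk (.col (nat_lit 1)) (.col (nat_lit 4))) (.col (nat_lit 0)) (.slot (nat_lit 1))) (.col (nat_lit 1))) (.col (nat_lit 2)) (.col (nat_lit 0))) (.col (nat_lit 2)) (.col (nat_lit 4))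
def l405 : Root := .mk (.col (nat_lit 0)) (.node (.node (.col (nat_lit 0)) (.node (.node (.col (nat_lit 0)) .junk (.col (nat_lit 4))) (.col (nat_lit 1)) (.col (nat_lit 3))) (.col (nat_lit 1))) (.col (nat_lit 2)) (.col (nat_lit 0))) (.col (nat_lit 2)) (.col (nat_lit 4))
def w1711 : Root := .mk (.col (nat_lit 0)) (.node (.node (.col (nat_lit 0)) (.node (.node (.col (nat_lit 0)) .junk (.col (nat_lit 4))) (.col (nat_lit 1)) (.slot (nat_lit 1))) (.col (nat_lit 1))) (.col (nat_lit 2)) (.col (nat_lit 0))) (.col (nat_lit 2)) (.col (nat_lit 4))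
def l406 : Root := .mk (.col (nat_lit 0)) (.node (.node (.col (nat_lit 0)) (.node (.node (.col (nat_lit 0)) (.col (nat_lit 1)) (.col (nat_lit 4))) (.slot (nat_lit 1)) (.slot (nat_lit 1))) (.col (nat_lit 1))) (.col (nat_lit 2)) (.col (nat_lit 0))) (.col (nat_lit 2)) (.col (nat_lit 4))
def w1713 : Root := .mk (.node (.node (.slot (nat_lit 0)) (.col (nat_lit 2)) (.col (nat_lit 3))) .junk (.col (nat_lit 4))) (.node (.col (nat_lit 0)) (.col (nat_lit 1)) (.node .junk (.col (nat_lit 2)) (.slot (nat_lit 1)))) (.col (nat_lit 2)) (.col (nat_lit 0))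
def w1714 : Root := .mk (.slot (nat_lit 0)) (.node (.node (.col (nat_lit 0)) (.col (nat_lit 1)) (.node (.slot (nat_lit 0)) (.col (nat_lit 2)) (.slot (nat_lit 1)))) (.col (nat_lit 2)) (.node (.col (nat_lit 3)) (.slot (nat_lit 0)) (.slot (nat_lit 0)))) (.col (nat_lit 2)) (.col (nat_lit 4))
def w1716 : Root := .mk (.node (.node (.node (.col (nat_lit 0)) (.col (nat_lit 1)) .junk) (.col (nat_lit 2)) (.slot (nat_lit 1))) (.col (nat_lit 2)) (.slot (nat_lit 2))) (.node (.col (nat_lit 0)) (.slot (nat_lit 0)) (.slot (nat_lit 0))) (.col (nat_lit 2)) (.node (.col (nat_lit 3)) (.slot (nat_lit 7)) (.slot (nat_lit 5)))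
def w1717 : Root := .mk (.node (.node (.node (.col (nat_lit 0)) (.col (nat_lit 1)) .junk) (.col (nat_lit 2)) (.slot (nat_lit 1))) (.col (nat_lit 2)) (.slot (nat_lit 3))) (.col (nat_lit 3)) (.col (nat_lit 2)) (.node (.col (nat_lit 3)) (.slot (nat_lit 3)) (.slot (nat_lit 1)))
def w1718 : Root := .mk (.col (nat_lit 3)) (.node (.node (.col (nat_lit 0)) (.node (.node (.col (nat_lit 0)) (.slot (nat_lit 0)) (.slot (nat_lit 0))) (.slot (nat_lit 3)) (.slot (nat_lit 3))) (.col (nat_lit 3))) (.col (nat_lit 2)) (.col (nat_lit 0))) (.col (nat_lit 2)) (.slot (nat_lit 0))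
def l407 : Root := .mk (.node (.node (.col (nat_lit 3)) (.col (nat_lit 2)) (.slot (nat_lit 4))) (.col (nat_lit 2)) (.col (nat_lit 0))) (.col (nat_lit 0)) (.node (.node (.col (nat_lit 0)) (.slot (nat_lit 0)) (.slot (nat_lit 0))) (.slot (nat_lit 3)) (.slot (nat_lit 3))) (.col (nat_lit 3))
def w1719 : Root := .mk (.node (.col (nat_lit 3)) (.col (nat_lit 2)) (.slot (nat_lit 4))) (.node (.col (nat_lit 0)) (.node (.node (.col (nat_lit 0)) (.slot (nat_lit 0)) (.slot (nat_lit 0))) (.slot (nat_lit 3)) (.slot (nat_lit 3))) (.node (.slot (nat_lit 0)) (.slot (nat_lit 0)) (.slot (nat_lit 0)))) (.col (nat_lit 2)) (.col (nat_lit 0))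
def w1721 : Root := .mk (.col (nat_lit 0)) (.node (.node (.col (nat_lit 0)) (.node (.node (.col (nat_lit 0)) (.slot (nat_lit 1)) (.slot (nat_lit 1))) (.slot (nat_lit 2)) (.slot (nat_lit 1))) (.node (.slot (nat_lit 0)) (.slot (nat_lit 0)) (.slot (nat_lit 0)))) (.col (nat_lit 2)) (.node (.col (nat_lit 3)) (.slot (nat_lit 0)) (.slot (nat_lit 0)))) (.col (nat_lit 2)) (.slot (nat_lit 2))
def w1722 : Root := .mk (.node (.node (.col (nat_lit 1)) (.col (nat_lit 2)) (.slot (nat_lit 1))) (.col (nat_lit 2)) (.node (.col (nat_lit 3)) (.slot (nat_lit 0)) (.slot (nat_lit 0)))) (.col (nat_lit 0)) (.col (nat_lit 1)) (.node (.slot (nat_lit 0)) (.slot (nat_lit 0)) (.slot (nat_lit 0)))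
def w1723 : Root := .mk (.node (.node (.node (.col (nat_lit 1)) (.col (nat_lit 2)) (.slot (nat_lit 0))) (.col (nat_lit 2)) (.slot (nat_lit 0))) (.col (nat_lit 0)) (.node (.slot (nat_lit 0)) (.slot (nat_lit 0)) (.slot (nat_lit 0)))) (.col (nat_lit 3)) (.col (nat_lit 2)) (.slot (nat_lit 1))
def w1724 : Root := .mk (.node (.node (.col (nat_lit 1)) (.col (nat_lit 2)) (.slot (nat_lit 0))) (.col (nat_lit 2)) (.node (.col (nat_lit 3)) (.col (nat_lit 0)) (.slot (nat_lit 1)))) (.col (nat_lit 0)) (.col (nat_lit 4)) (.node (.slot (nat_lit 0)) (.col (nat_lit 2)) (.col (nat_lit 0)))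
def w1725 : Root := .mk (.node (.node (.col (nat_lit 1)) (.col (nat_lit 2)) (.slot (nat_lit 0))) (.col (nat_lit 2)) (.node (.col (nat_lit 3)) (.col (nat_lit 4)) (.slot (nat_lit 1)))) (.col (nat_lit 0)) (.col (nat_lit 4)) (.node (.slot (nat_lit 0)) (.col (nat_lit 2)) (.col (nat_lit 0)))
def w1726 : Root := .mk (.node (.node (.node (.col (nat_lit 1)) (.col (nat_lit 2)) (.slot (nat_lit 1))) (.col (nat_lit 2)) (.node (.col (nat_lit 3)) (.slot (nat_lit 1)) (.slot (nat_lit 1)))) (.col (nat_lit 0)) (.node .junk (.col (nat_lit 2)) (.col (nat_lit 1)))) (.slot (nat_lit 0)) (.col (nat_lit 2)) (.col (nat_lit 0))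
def l408 : Root := .mk (.node (.node (.col (nat_lit 1)) (.col (nat_lit 2)) (.slot (nat_lit 1))) (.col (nat_lit 2)) (.node (.col (nat_lit 3)) (.slot (nat_lit 1)) (.slot (nat_lit 1)))) (.col (nat_lit 0)) (.col (nat_lit 1)) (.node .junk (.col (nat_lit 2)) (.col (nat_lit 4)))
def w1730 : Root := .mk (.node (.col (nat_lit 1)) (.col (nat_lit 2)) (.slot (nat_lit 0))) (.node (.col (nat_lit 0)) (.node (.slot (nat_lit 0)) (.col (nat_lit 2)) (.col (nat_lit 0))) (.node (.slot (nat_lit 0)) (.col (nat_lit 2)) (.slot (nat_lit 1)))) (.col (nat_lit 2)) (.col (nat_lit 1))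
def w1731 : Root := .mk (.node (.col (nat_lit 1)) (.col (nat_lit 2)) (.slot (nat_lit 0))) (.node (.col (nat_lit 0)) (.node (.slot (nat_lit 0)) (.col (nat_lit 2)) (.col (nat_lit 0))) (.node (.slot (nat_lit 0)) (.col (nat_lit 2)) (.slot (nat_lit 1)))) (.col (nat_lit 2)) (.col (nat_lit 4))
def w1732 : Root := .mk (.node (.node (.col (nat_lit 1)) (.col (nat_lit 2)) (.slot (nat_lit 0))) (.col (nat_lit 2)) (.node (.col (nat_lit 3)) (.col (nat_lit 4)) (.slot (nat_lit 0)))) (.col (nat_lit 0)) (.col (nat_lit 3)) (.node (.slot (nat_lit 0)) (.col (nat_lit 2)) (.node (.col (nat_lit 0)) (.slot (nat_lit 0)) (.slot (nat_lit 0))))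
def w1733 : Root := .mk (.node (.node (.col (nat_lit 1)) (.col (nat_lit 2)) (.slot (nat_lit 0))) (.col (nat_lit 2)) (.node (.col (nat_lit 3)) (.col (nat_lit 4)) .junk)) (.col (nat_lit 0)) (.col (nat_lit 3)) (.node .junk (.col (nat_lit 2)) (.node (.col (nat_lit 1)) (.slot (nat_lit 0)) (.slot (nat_lit 0))))
def w1734 : Root := .mk (.node (.node (.col (nat_lit 1)) (.col (nat_lit 2)) (.slot (nat_lit 0))) (.col (nat_lit 2)) (.node (.col (nat_lit 3)) (.col (nat_lit 4)) .junk)) (.col (nat_lit 0)) (.col (nat_lit 3)) (.node .junk (.col (nat_lit 2)) (.node (.col (nat_lit 2)) (.slot (nat_lit 0)) (.slot (nat_lit 0))))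
def w1735 : Root := .mk (.node (.node (.col (nat_lit 1)) (.col (nat_lit 2)) (.slot (nat_lit 0))) (.col (nat_lit 2)) (.node (.col (nat_lit 3)) (.col (nat_lit 4)) (.slot (nat_lit 0)))) (.col (nat_lit 0)) (.col (nat_lit 3)) (.node (.slot (nat_lit 0)) (.col (nat_lit 2)) (.node (.col (nat_lit 3)) (.slot (nat_lit 0)) (.slot (nat_lit 0))))
def l409 : Root := .mk (.node (.slot (nat_lit 0)) (.col (nat_lit 2)) (.node (.col (nat_lit 3)) (.col (nat_lit 4)) (.slot (nat_lit 1)))) (.col (nat_lit 0)) (.col (nat_lit 3)) (.node .junk (.col (nat_lit 2)) (.col (nat_lit 1)))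
def w1736 : Root := .mk (.node (.slot (nat_lit 0)) (.col (nat_lit 2)) (.node (.col (nat_lit 3)) (.col (nat_lit 4)) (.slot (nat_lit 1)))) (.col (nat_lit 0)) (.col (nat_lit 3)) (.node (.slot (nat_lit 0)) (.col (nat_lit 2)) (.node (.col (nat_lit 4)) (.slot (nat_lit 0)) (.slot (nat_lit 0))))
def w1737 : Root := .mk (.node (.slot (nat_lit 0)) (.col (nat_lit 2)) (.node (.col (nat_lit 3)) (.col (nat_lit 4)) (.slot (nat_lit 1)))) (.col (nat_lit 0)) (.col (nat_lit 3)) (.node (.slot (nat_lit 0)) (.col (nat_lit 2)) (.slot (nat_lit 1)))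
def l410 : Root := .mk (.node (.node (.col (nat_lit 1)) (.col (nat_lit 2)) (.slot (nat_lit 1))) (.col (nat_lit 2)) (.node (.col (nat_lit 3)) (.col (nat_lit 4)) (.slot (nat_lit 1)))) (.col (nat_lit 0)) (.col (nat_lit 3)) (.node (.slot (nat_lit 0)) (.col (nat_lit 2)) (.slot (nat_lit 1)))
def w1739 : Root := .mk (.node (.col (nat_lit 1)) .junk (.slot (nat_lit 1))) (.node (.col (nat_lit 0)) (.node (.slot (nat_lit 0)) (.col (nat_lit 2)) (.col (nat_lit 0))) (.node .junk (.col (nat_lit 2)) (.col (nat_lit 3)))) (.col (nat_lit 2)) (.col (nat_lit 0))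
def w1746 : Root := .mk (.node (.col (nat_lit 1)) (.col (nat_lit 2)) (.slot (nat_lit 1))) (.node (.col (nat_lit 0)) (.node (.slot (nat_lit 0)) (.col (nat_lit 2)) (.col (nat_lit 0))) (.node (.slot (nat_lit 0)) (.slot (nat_lit 0)) (.slot (nat_lit 0)))) (.col (nat_lit 2)) (.col (nat_lit 4))
def w1747 : Root := .mk (.col (nat_lit 1)) (.node (.node (.col (nat_lit 0)) (.slot (nat_lit 0)) (.node (.slot (nat_lit 0)) (.slot (nat_lit 0)) (.slot (nat_lit 0)))) (.col (nat_lit 2)) (.node (.col (nat_lit 3)) (.slot (nat_lit 1)) (.slot (nat_lit 1)))) (.col (nat_lit 2)) (.node (.col (nat_lit 0)) (.slot (nat_lit 1)) .junk)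
def w1748 : Root := .mk (.node (.node (.node (.col (nat_lit 1)) (.col (nat_lit 2)) (.col (nat_lit 3))) (.col (nat_lit 2)) (.node (.col (nat_lit 3)) (.slot (nat_lit 1)) (.slot (nat_lit 0)))) (.col (nat_lit 0)) (.col (nat_lit 3))) (.col (nat_lit 3)) (.col (nat_lit 2)) (.col (nat_lit 0))
def w1751 : Root := .mk (.node (.node (.node (.col (nat_lit 1)) .junk (.col (nat_lit 4))) (.col (nat_lit 2)) (.node (.col (nat_lit 3)) (.slot (nat_lit 0)) (.slot (nat_lit 0)))) (.col (nat_lit 0)) (.node .junk (.col (nat_lit 2)) (.col (nat_lit 1)))) (.slot (nat_lit 0)) (.col (nat_lit 2)) (.col (nat_lit 0))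
def l412 : Root := .mk (.col (nat_lit 1)) (.node (.node (.col (nat_lit 0)) (.col (nat_lit 1)) (.node .junk (.col (nat_lit 2)) (.col (nat_lit 3)))) (.col (nat_lit 2)) (.node (.col (nat_lit 3)) (.slot (nat_lit 0)) (.slot (nat_lit 0)))) (.col (nat_lit 2)) (.col (nat_lit 4))
def l413 : Root := .mk (.col (nat_lit 3)) (.node (.col (nat_lit 0)) (.node (.slot (nat_lit 0)) (.col (nat_lit 2)) (.col (nat_lit 0))) (.node (.slot (nat_lit 0)) (.col (nat_lit 2)) (.col (nat_lit 3)))) (.col (nat_lit 2)) (.col (nat_lit 1))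
def w1758 : Root := .mk (.node (.node (.slot (nat_lit 0)) (.col (nat_lit 2)) (.node (.col (nat_lit 3)) (.col (nat_lit 0)) (.slot (nat_lit 1)))) (.col (nat_lit 0)) (.node .junk (.col (nat_lit 2)) (.col (nat_lit 3)))) (.slot (nat_lit 0)) (.col (nat_lit 2)) (.col (nat_lit 0))
def l414 : Root := .mk (.col (nat_lit 1)) (.node (.node (.col (nat_lit 0)) (.col (nat_lit 1)) (.node .junk (.col (nat_lit 2)) (.col (nat_lit 3)))) (.col (nat_lit 2)) (.node (.col (nat_lit 3)) (.col (nat_lit 2)) (.slot (nat_lit 0)))) (.col (nat_lit 2)) (.col (nat_lit 4))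
def w1765 : Root := .mk (.node (.node (.node (.col (nat_lit 1)) .junk (.col (nat_lit 0))) (.col (nat_lit 2)) (.node (.col (nat_lit 3)) (.slot (nat_lit 0)) (.slot (nat_lit 0)))) (.col (nat_lit 0)) (.node .junk (.col (nat_lit 2)) (.col (nat_lit 1)))) (.slot (nat_lit 0)) (.col (nat_lit 2)) (.col (nat_lit 0))
def w1775 : Root := .mk (.node (.col (nat_lit 1)) (.col (nat_lit 2)) (.slot (nat_lit 0))) (.node (.col (nat_lit 0)) (.node (.node (.col (nat_lit 0)) (.slot (nat_lit 1)) (.slot (nat_lit 1))) (.slot (nat_lit 1)) (.slot (nat_lit 3))) (.node (.slot (nat_lit 0)) (.slot (nat_lit 0)) (.slot (nat_lit 0)))) (.col (nat_lit 2)) (.col (nat_lit 1))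
def w1778 : Root := .mk (.node (.node (.col (nat_lit 1)) (.col (nat_lit 2)) (.slot (nat_lit 0))) (.col (nat_lit 2)) (.node (.col (nat_lit 3)) (.col (nat_lit 1)) .junk)) (.col (nat_lit 0)) (.node (.node (.col (nat_lit 0)) (.slot (nat_lit 1)) (.slot (nat_lit 0))) (.col (nat_lit 2)) (.slot (nat_lit 1))) (.node (.slot (nat_lit 0)) (.slot (nat_lit 0)) (.slot (nat_lit 0)))
def w1779 : Root := .mk (.node (.node (.col (nat_lit 1)) (.col (nat_lit 2)) (.slot (nat_lit 0))) (.col (nat_lit 2)) (.node (.col (nat_lit 3)) (.col (nat_lit 1)) .junk)) (.col (nat_lit 0)) (.node (.col (nat_lit 1)) (.col (nat_lit 2)) .junk) (.node (.slot (nat_lit 0)) (.slot (nat_lit 0)) (.slot (nat_lit 0)))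
def w1780 : Root := .mk (.node (.node (.node (.col (nat_lit 1)) (.col (nat_lit 2)) (.slot (nat_lit 1))) (.col (nat_lit 2)) (.node (.col (nat_lit 3)) (.col (nat_lit 1)) (.col (nat_lit 2)))) (.col (nat_lit 0)) (.col (nat_lit 1))) (.col (nat_lit 1)) (.col (nat_lit 2)) (.col (nat_lit 0))
def w1781 : Root := .mk (.col (nat_lit 1)) (.node (.node (.col (nat_lit 0)) (.slot (nat_lit 0)) (.col (nat_lit 1))) (.col (nat_lit 2)) (.node (.col (nat_lit 3)) (.col (nat_lit 1)) .junk)) (.col (nat_lit 2)) (.col (nat_lit 3))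
def w1782 : Root := .mk (.node (.node (.col (nat_lit 1)) .junk (.col (nat_lit 4))) (.node (.col (nat_lit 0)) (.node (.node (.col (nat_lit 0)) (.slot (nat_lit 0)) (.slot (nat_lit 0))) (.col (nat_lit 2)) .junk) (.col (nat_lit 1))) (.col (nat_lit 2))) (.col (nat_lit 3)) (.col (nat_lit 1)) (.col (nat_lit 2))
def w1784 : Root := .mk (.col (nat_lit 1)) (.node (.node (.col (nat_lit 0)) (.node (.node (.col (nat_lit 0)) (.slot (nat_lit 0)) (.slot (nat_lit 0))) (.col (nat_lit 2)) .junk) (.col (nat_lit 1))) (.col (nat_lit 2)) (.node (.col (nat_lit 3)) (.col (nat_lit 1)) .junk)) (.col (nat_lit 2)) (.slot (nat_lit 0))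
def l416 : Root := .mk (.node (.node (.col (nat_lit 1)) (.col (nat_lit 2)) (.slot (nat_lit 2))) (.node (.col (nat_lit 0)) (.node (.node (.col (nat_lit 0)) (.slot (nat_lit 0)) (.slot (nat_lit 0))) (.col (nat_lit 2)) (.col (nat_lit 0))) (.col (nat_lit 1))) (.col (nat_lit 2))) (.col (nat_lit 3)) (.col (nat_lit 1)) (.col (nat_lit 2))
def w1785 : Root := .mk (.node (.node (.col (nat_lit 1)) (.col (nat_lit 2)) (.slot (nat_lit 2))) (.node (.col (nat_lit 0)) (.node (.node (.col (nat_lit 0)) (.slot (nat_lit 0)) (.slot (nat_lit 0))) (.col (nat_lit 2)) (.col (nat_lit 0))) (.node (.slot (nat_lit 0)) (.slot (nat_lit 0)) (.slot (nat_lit 0)))) (.col (nat_lit 2))) (.col (nat_lit 3)) (.col (nat_lit 1)) (.col (nat_lit 2))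
def w1786 : Root := .mk (.node (.node (.node (.col (nat_lit 1)) (.col (nat_lit 2)) (.slot (nat_lit 0))) (.col (nat_lit 2)) (.node (.col (nat_lit 3)) (.col (nat_lit 1)) .junk)) (.col (nat_lit 0)) (.node (.slot (nat_lit 0)) (.slot (nat_lit 0)) (.slot (nat_lit 0)))) (.node (.col (nat_lit 0)) (.slot (nat_lit 1)) (.slot (nat_lit 0))) (.col (nat_lit 2)) (.node (.col (nat_lit 1)) (.slot (nat_lit 0)) (.slot (nat_lit 0)))
def w1787 : Root := .mk (.node (.node (.node (.col (nat_lit 1)) (.col (nat_lit 2)) (.slot (nat_lit 0))) (.col (nat_lit 2)) (.node (.col (nat_lit 3)) (.col (nat_lit 1)) .junk)) (.col (nat_lit 0)) (.node (.slot (nat_lit 0)) (.slot (nat_lit 0)) (.slot (nat_lit 0)))) (.node (.col (nat_lit 0)) (.slot (nat_lit 1)) (.slot (nat_lit 0))) (.col (nat_lit 2)) (.node (.col (nat_lit 2)) (.slot (nat_lit 0)) (.slot (nat_lit 0)))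
def w1788 : Root := .mk (.node (.node (.node (.col (nat_lit 1)) (.col (nat_lit 2)) (.slot (nat_lit 0))) (.col (nat_lit 2)) (.node (.col (nat_lit 3)) (.col (nat_lit 1)) .junk)) (.col (nat_lit 0)) (.node (.slot (nat_lit 0)) (.slot (nat_lit 0)) (.slot (nat_lit 0)))) (.node (.col (nat_lit 0)) (.slot (nat_lit 1)) (.slot (nat_lit 0))) (.col (nat_lit 2)) (.node (.col (nat_lit 3)) (.slot (nat_lit 0)) (.slot (nat_lit 0)))
def w1789 : Root := .mk (.node (.node (.col (nat_lit 1)) (.col (nat_lit 2)) (.slot (nat_lit 1))) (.node (.col (nat_lit 0)) (.node (.node (.col (nat_lit 0)) (.slot (nat_lit 1)) (.slot (nat_lit 1))) (.col (nat_lit 2)) (.node (.col (nat_lit 4)) (.slot (nat_lit 1)) (.slot (nat_lit 0)))) (.node (.slot (nat_lit 0)) (.slot (nat_lit 0)) (.slot (nat_lit 0)))) (.col (nat_lit 2))) (.col (nat_lit 3)) (.col (nat_lit 1)) (.col (nat_lit 2))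
def w1790 : Root := .mk (.node (.node (.node (.node (.col (nat_lit 1)) (.col (nat_lit 2)) (.slot (nat_lit 0))) (.col (nat_lit 2)) (.node (.col (nat_lit 3)) (.col (nat_lit 1)) .junk)) (.col (nat_lit 0)) (.node (.slot (nat_lit 0)) (.slot (nat_lit 0)) (.slot (nat_lit 0)))) (.col (nat_lit 2)) (.slot (nat_lit 1))) (.col (nat_lit 0)) (.col (nat_lit 2)) (.slot (nat_lit 1))
def w1791 : Root := .mk (.node (.node (.col (nat_lit 1)) (.col (nat_lit 2)) (.slot (nat_lit 0))) (.col (nat_lit 2)) (.node (.col (nat_lit 3)) (.col (nat_lit 1)) .junk)) (.col (nat_lit 0)) (.node (.node (.col (nat_lit 0)) (.slot (nat_lit 2)) (.slot (nat_lit 1))) (.col (nat_lit 2)) (.slot (nat_lit 1))) (.node (.col (nat_lit 0)) (.slot (nat_lit 1)) (.slot (nat_lit 1)))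
def w1792 : Root := .mk (.node (.node (.col (nat_lit 1)) (.col (nat_lit 2)) (.slot (nat_lit 0))) (.col (nat_lit 2)) (.node (.col (nat_lit 3)) (.col (nat_lit 1)) .junk)) (.col (nat_lit 0)) (.node (.slot (nat_lit 0)) (.col (nat_lit 2)) (.slot (nat_lit 1))) (.node (.col (nat_lit 1)) (.slot (nat_lit 1)) (.slot (nat_lit 1)))
def w1793 : Root := .mk (.node (.node (.col (nat_lit 1)) (.col (nat_lit 2)) (.slot (nat_lit 0))) (.col (nat_lit 2)) (.node (.col (nat_lit 3)) (.col (nat_lit 1)) .junk)) (.col (nat_lit 0)) (.node (.slot (nat_lit 0)) (.col (nat_lit 2)) (.slot (nat_lit 1))) (.node (.col (nat_lit 3)) (.slot (nat_lit 1)) (.slot (nat_lit 1)))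
def w1794 : Root := .mk (.node (.node (.col (nat_lit 1)) (.col (nat_lit 2)) (.slot (nat_lit 0))) (.col (nat_lit 2)) (.node (.col (nat_lit 3)) (.col (nat_lit 1)) .junk)) (.col (nat_lit 0)) (.node (.node (.col (nat_lit 0)) (.slot (nat_lit 1)) (.slot (nat_lit 0))) (.col (nat_lit 2)) (.slot (nat_lit 1))) (.node (.col (nat_lit 4)) (.slot (nat_lit 0)) (.slot (nat_lit 0)))
def w1795 : Root := .mk (.node (.node (.col (nat_lit 1)) (.col (nat_lit 2)) (.slot (nat_lit 0))) (.col (nat_lit 2)) (.node (.col (nat_lit 3)) (.col (nat_lit 1)) .junk)) (.col (nat_lit 0)) (.node (.node (.col (nat_lit 0)) (.slot (nat_lit 3)) (.slot (nat_lit 1))) (.col (nat_lit 2)) (.slot (nat_lit 1))) (.slot (nat_lit 0))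
def w1796 : Root := .mk (.node (.node (.col (nat_lit 1)) .junk (.col (nat_lit 0))) (.node (.col (nat_lit 0)) (.node (.node (.col (nat_lit 0)) (.slot (nat_lit 1)) (.slot (nat_lit 0))) (.col (nat_lit 2)) (.slot (nat_lit 1))) (.node (.slot (nat_lit 0)) (.slot (nat_lit 0)) (.slot (nat_lit 0)))) (.col (nat_lit 2))) (.col (nat_lit 3)) (.col (nat_lit 1)) (.col (nat_lit 2))
def w1797 : Root := .mk (.col (nat_lit 1)) (.node (.node (.col (nat_lit 0)) (.slot (nat_lit 0)) (.slot (nat_lit 0))) (.col (nat_lit 2)) (.node (.col (nat_lit 3)) (.col (nat_lit 1)) .junk)) (.col (nat_lit 2)) (.col (nat_lit 3))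
def w1798 : Root := .mk (.node (.node (.col (nat_lit 1)) .junk (.col (nat_lit 4))) (.node (.col (nat_lit 0)) (.node (.node (.col (nat_lit 0)) (.slot (nat_lit 1)) (.slot (nat_lit 0))) (.col (nat_lit 2)) (.slot (nat_lit 1))) (.node (.slot (nat_lit 0)) (.slot (nat_lit 0)) (.slot (nat_lit 0)))) (.col (nat_lit 2))) (.col (nat_lit 3)) (.col (nat_lit 1)) (.col (nat_lit 2))
def l417 : Root := .mk (.node (.node (.col (nat_lit 1)) (.col (nat_lit 2)) (.slot (nat_lit 2))) (.node (.col (nat_lit 0)) (.node (.node (.col (nat_lit 0)) (.slot (nat_lit 7)) (.slot (nat_lit 5))) (.col (nat_lit 2)) (.slot (nat_lit 8))) (.node (.slot (nat_lit 0)) (.slot (nat_lit 1)) (.slot (nat_lit 2)))) (.col (nat_lit 2))) (.col (nat_lit 3)) (.col (nat_lit 1)) (.col (nat_lit 2))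
def w1800 : Root := .mk (.node (.node (.col (nat_lit 1)) (.col (nat_lit 2)) (.slot (nat_lit 1))) (.node (.col (nat_lit 0)) (.slot (nat_lit 0)) (.slot (nat_lit 0))) (.col (nat_lit 2))) (.col (nat_lit 3)) (.col (nat_lit 1)) (.node (.col (nat_lit 1)) (.slot (nat_lit 0)) (.slot (nat_lit 0)))
def w1801 : Root := .mk (.node (.node (.col (nat_lit 1)) (.col (nat_lit 2)) (.slot (nat_lit 1))) (.node (.col (nat_lit 0)) (.slot (nat_lit 0)) (.slot (nat_lit 0))) (.col (nat_lit 2))) (.col (nat_lit 3)) (.col (nat_lit 1)) (.node (.col (nat_lit 3)) (.slot (nat_lit 0)) (.slot (nat_lit 0)))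
def w1804 : Root := .mk (.node (.col (nat_lit 4)) (.col (nat_lit 2)) (.node (.col (nat_lit 3)) (.slot (nat_lit 1)) (.slot (nat_lit 0)))) (.col (nat_lit 0)) (.node (.col (nat_lit 4)) (.col (nat_lit 1)) (.slot (nat_lit 1))) (.col (nat_lit 4))
def w1805 : Root := .mk (.col (nat_lit 4)) (.node (.col (nat_lit 0)) (.node (.col (nat_lit 4)) (.col (nat_lit 1)) (.slot (nat_lit 1))) (.slot (nat_lit 0))) (.col (nat_lit 2)) (.node (.col (nat_lit 3)) (.slot (nat_lit 1)) (.slot (nat_lit 0)))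
def l418 : Root := .mk (.col (nat_lit 4)) (.node (.col (nat_lit 0)) (.node (.col (nat_lit 4)) (.col (nat_lit 1)) (.slot (nat_lit 1))) (.node (.slot (nat_lit 0)) (.slot (nat_lit 0)) (.slot (nat_lit 0)))) (.col (nat_lit 2)) (.node (.col (nat_lit 3)) (.slot (nat_lit 1)) (.slot (nat_lit 1)))
def w1807 : Root := .mk (.node (.node (.col (nat_lit 1)) (.col (nat_lit 2)) (.slot (nat_lit 0))) (.col (nat_lit 2)) .junk) (.col (nat_lit 0)) (.node (.node (.col (nat_lit 0)) (.slot (nat_lit 2)) (.slot (nat_lit 2))) (.col (nat_lit 3)) (.slot (nat_lit 1))) (.node (.slot (nat_lit 0)) (.slot (nat_lit 0)) (.slot (nat_lit 0)))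
def l419 : Root := .mk (.node (.node (.col (nat_lit 1)) (.col (nat_lit 2)) (.col (nat_lit 3))) (.col (nat_lit 2)) (.node (.col (nat_lit 3)) (.slot (nat_lit 0)) (.slot (nat_lit 0)))) (.col (nat_lit 0)) (.col (nat_lit 1)) (.col (nat_lit 3))
def w1808 : Root := .mk (.col (nat_lit 1)) (.node (.node (.col (nat_lit 0)) (.col (nat_lit 1)) (.node (.slot (nat_lit 0)) (.slot (nat_lit 0)) (.slot (nat_lit 0)))) (.col (nat_lit 2)) (.node (.col (nat_lit 3)) (.slot (nat_lit 0)) (.slot (nat_lit 0)))) (.col (nat_lit 2)) (.col (nat_lit 3))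
def w1809 : Root := .mk (.node (.node (.col (nat_lit 1)) .junk (.col (nat_lit 3))) (.col (nat_lit 2)) (.node (.col (nat_lit 3)) (.slot (nat_lit 0)) (.slot (nat_lit 0)))) (.col (nat_lit 0)) (.node (.col (nat_lit 3)) (.col (nat_lit 2)) .junk) (.node (.slot (nat_lit 0)) (.slot (nat_lit 0)) (.slot (nat_lit 0)))
def w1820 : Root := .mk (.col (nat_lit 1)) (.node (.node (.col (nat_lit 0)) (.node (.col (nat_lit 3)) (.col (nat_lit 2)) (.slot (nat_lit 3))) (.node (.slot (nat_lit 0)) (.slot (nat_lit 0)) (.slot (nat_lit 0)))) (.col (nat_lit 2)) (.slot (nat_lit 0))) (.col (nat_lit 2)) (.col (nat_lit 4))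
def l423 : Root := .mk (.col (nat_lit 1)) (.node (.node (.col (nat_lit 0)) (.node (.col (nat_lit 2)) (.col (nat_lit 0)) (.node (.col (nat_lit 1)) (.slot (nat_lit 2)) (.slot (nat_lit 4)))) (.col (nat_lit 1))) (.col (nat_lit 2)) (.node (.col (nat_lit 3)) (.col (nat_lit 4)) (.slot (nat_lit 0)))) (.col (nat_lit 2)) (.col (nat_lit 0))
def w1821 : Root := .mk (.col (nat_lit 1)) (.node (.node (.col (nat_lit 0)) (.node (.col (nat_lit 2)) (.col (nat_lit 0)) (.slot (nat_lit 5))) (.col (nat_lit 1))) (.col (nat_lit 2)) (.node (.col (nat_lit 3)) (.col (nat_lit 4)) (.slot (nat_lit 0)))) (.col (nat_lit 2)) (.col (nat_lit 0))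
def w1822 : Root := .mk (.col (nat_lit 1)) (.node (.node (.col (nat_lit 0)) (.node (.col (nat_lit 2)) (.node (.col (nat_lit 2)) (.slot (nat_lit 0)) (.slot (nat_lit 0))) (.slot (nat_lit 1))) (.col (nat_lit 1))) (.col (nat_lit 2)) (.slot (nat_lit 0))) (.col (nat_lit 2)) (.col (nat_lit 0))
def l424 : Root := .mk (.col (nat_lit 1)) (.node (.node (.col (nat_lit 0)) (.node (.col (nat_lit 2)) (.slot (nat_lit 5)) (.slot (nat_lit 5))) (.col (nat_lit 1))) (.col (nat_lit 2)) (.node (.col (nat_lit 3)) (.col (nat_lit 4)) (.slot (nat_lit 0)))) (.col (nat_lit 2)) (.col (nat_lit 0))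
def w1823 : Root := .mk (.col (nat_lit 1)) (.node (.node (.col (nat_lit 0)) (.node (.node (.col (nat_lit 0)) (.slot (nat_lit 0)) (.slot (nat_lit 0))) (.slot (nat_lit 5)) (.slot (nat_lit 5))) (.col (nat_lit 1))) (.col (nat_lit 2)) (.node (.col (nat_lit 3)) (.col (nat_lit 4)) (.slot (nat_lit 0)))) (.col (nat_lit 2)) (.col (nat_lit 0))
def l425 : Root := .mk (.col (nat_lit 1)) (.node (.node (.col (nat_lit 0)) (.node (.node (.col (nat_lit 0)) (.slot (nat_lit 1)) (.slot (nat_lit 1))) (.slot (nat_lit 5)) (.slot (nat_lit 5))) (.col (nat_lit 1))) (.col (nat_lit 2)) (.node (.col (nat_lit 3)) (.slot (nat_lit 0)) (.slot (nat_lit 0)))) (.col (nat_lit 2)) (.col (nat_lit 0))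
def w1825 : Root := .mk (.col (nat_lit 1)) (.node (.node (.col (nat_lit 0)) (.col (nat_lit 1)) .junk) (.col (nat_lit 2)) (.node (.col (nat_lit 3)) (.slot (nat_lit 0)) (.slot (nat_lit 0)))) (.col (nat_lit 2)) (.node (.col (nat_lit 4)) (.slot (nat_lit 1)) .junk)
def l426 : Root := .mk (.node (.node (.col (nat_lit 1)) (.col (nat_lit 2)) (.node (.col (nat_lit 4)) (.slot (nat_lit 1)) (.slot (nat_lit 1)))) (.col (nat_lit 2)) (.node (.col (nat_lit 3)) (.slot (nat_lit 1)) (.slot (nat_lit 0)))) (.col (nat_lit 0)) (.col (nat_lit 1)) (.node (.slot (nat_lit 0)) (.slot (nat_lit 0)) (.slot (nat_lit 0)))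
def w1826 : Root := .mk (.col (nat_lit 1)) (.node (.node (.col (nat_lit 0)) (.node (.slot (nat_lit 0)) (.slot (nat_lit 0)) (.slot (nat_lit 0))) (.node (.slot (nat_lit 0)) (.slot (nat_lit 0)) (.slot (nat_lit 0)))) (.col (nat_lit 2)) (.node (.col (nat_lit 3)) (.slot (nat_lit 1)) (.slot (nat_lit 0)))) (.col (nat_lit 2)) (.node (.col (nat_lit 4)) (.slot (nat_lit 1)) (.slot (nat_lit 1)))
def w1829 : Root := .mk (.node (.col (nat_lit 1)) (.col (nat_lit 2)) (.node (.col (nat_lit 4)) (.node (.col (nat_lit 4)) (.slot (nat_lit 0)) (.slot (nat_lit 0))) (.slot (nat_lit 1)))) (.col (nat_lit 3)) (.col (nat_lit 2)) (.node (.col (nat_lit 3)) (.slot (nat_lit 0)) (.slot (nat_lit 0)))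
def w1830 : Root := .mk (.node (.col (nat_lit 1)) (.node (.node (.col (nat_lit 0)) (.col (nat_lit 1)) (.node (.slot (nat_lit 0)) (.slot (nat_lit 0)) (.slot (nat_lit 0)))) (.col (nat_lit 2)) (.node (.col (nat_lit 3)) (.slot (nat_lit 0)) (.slot (nat_lit 0)))) (.col (nat_lit 2))) (.col (nat_lit 4)) (.slot (nat_lit 0)) (.col (nat_lit 1))
def w1831 : Root := .mk (.node (.col (nat_lit 1)) (.node (.node (.col (nat_lit 0)) (.col (nat_lit 1)) (.node (.slot (nat_lit 0)) (.slot (nat_lit 0)) (.slot (nat_lit 0)))) (.col (nat_lit 2)) (.node (.col (nat_lit 3)) (.slot (nat_lit 0)) (.slot (nat_lit 0)))) (.col (nat_lit 2))) (.col (nat_lit 4)) (.slot (nat_lit 0)) (.col (nat_lit 2))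
def w1832 : Root := .mk (.col (nat_lit 1)) (.node (.node (.col (nat_lit 0)) (.col (nat_lit 1)) .junk) (.col (nat_lit 2)) (.node (.col (nat_lit 3)) (.slot (nat_lit 0)) (.slot (nat_lit 0)))) (.col (nat_lit 2)) (.node (.col (nat_lit 4)) (.node (.col (nat_lit 4)) (.slot (nat_lit 0)) (.slot (nat_lit 0))) .junk)
def l429 : Root := .mk (.node (.node (.col (nat_lit 1)) (.col (nat_lit 2)) (.node (.col (nat_lit 4)) (.node (.col (nat_lit 4)) (.slot (nat_lit 0)) (.slot (nat_lit 0))) (.slot (nat_lit 1)))) (.col (nat_lit 2)) (.node (.col (nat_lit 3)) (.slot (nat_lit 1)) (.slot (nat_lit 0)))) (.col (nat_lit 0)) (.col (nat_lit 1)) (.node (.slot (nat_lit 0)) (.slot (nat_lit 0)) (.slot (nat_lit 0)))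
def l430 : Root := .mk (.node (.node (.col (nat_lit 1)) (.col (nat_lit 2)) (.col (nat_lit 0))) (.node (.col (nat_lit 0)) (.col (nat_lit 2)) (.slot (nat_lit 0))) (.col (nat_lit 2))) (.col (nat_lit 3)) (.col (nat_lit 1)) (.col (nat_lit 0))
def w1834 : Root := .mk (.col (nat_lit 1)) (.node (.node (.col (nat_lit 0)) (.col (nat_lit 2)) (.slot (nat_lit 0))) (.col (nat_lit 2)) (.node (.col (nat_lit 3)) (.col (nat_lit 1)) (.slot (nat_lit 1)))) (.col (nat_lit 2)) (.col (nat_lit 0))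
def l431 : Root := .mk (.col (nat_lit 1)) (.node (.node (.col (nat_lit 0)) (.col (nat_lit 2)) (.node (.slot (nat_lit 0)) (.slot (nat_lit 0)) (.slot (nat_lit 0)))) (.col (nat_lit 2)) (.node (.col (nat_lit 3)) (.col (nat_lit 1)) (.slot (nat_lit 1)))) (.col (nat_lit 2)) (.node (.col (nat_lit 4)) (.slot (nat_lit 1)) (.slot (nat_lit 1)))
def w1835 : Root := .mk (.node (.node (.col (nat_lit 1)) (.col (nat_lit 2)) (.node (.col (nat_lit 4)) (.slot (nat_lit 1)) (.slot (nat_lit 1)))) (.col (nat_lit 2)) (.node (.col (nat_lit 3)) (.slot (nat_lit 1)) (.slot (nat_lit 1)))) (.col (nat_lit 0)) (.col (nat_lit 2)) (.node (.slot (nat_lit 0)) (.slot (nat_lit 0)) (.slot (nat_lit 0)))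
def w1836 : Root := .mk (.col (nat_lit 1)) (.node (.node (.col (nat_lit 0)) (.col (nat_lit 4)) .junk) (.col (nat_lit 2)) (.node (.col (nat_lit 3)) (.slot (nat_lit 0)) (.slot (nat_lit 0)))) (.col (nat_lit 2)) (.node (.col (nat_lit 4)) (.slot (nat_lit 1)) .junk)
def w1841 : Root := .mk (.node (.node (.node (.slot (nat_lit 0)) (.col (nat_lit 2)) (.slot (nat_lit 0))) (.col (nat_lit 2)) (.col (nat_lit 1))) (.col (nat_lit 2)) (.node (.col (nat_lit 3)) (.col (nat_lit 1)) (.slot (nat_lit 1)))) (.col (nat_lit 0)) (.col (nat_lit 2)) (.slot (nat_lit 0))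
def w1842 : Root := .mk (.node (.node (.slot (nat_lit 0)) (.col (nat_lit 2)) (.col (nat_lit 1))) (.col (nat_lit 2)) (.node (.col (nat_lit 3)) (.col (nat_lit 1)) (.slot (nat_lit 0)))) (.col (nat_lit 0)) (.col (nat_lit 3)) (.node (.slot (nat_lit 0)) (.slot (nat_lit 0)) (.slot (nat_lit 0)))
def w1844 : Root := .mk (.node (.col (nat_lit 3)) .junk (.slot (nat_lit 1))) (.node (.node (.col (nat_lit 0)) (.slot (nat_lit 0)) (.slot (nat_lit 0))) (.col (nat_lit 2)) (.node (.col (nat_lit 3)) (.col (nat_lit 1)) .junk)) (.col (nat_lit 2)) (.col (nat_lit 1))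
def w1845 : Root := .mk (.slot (nat_lit 0)) (.node (.node (.node (.col (nat_lit 0)) (.slot (nat_lit 0)) (.slot (nat_lit 0))) (.col (nat_lit 2)) (.node (.col (nat_lit 3)) (.col (nat_lit 1)) (.slot (nat_lit 1)))) (.col (nat_lit 2)) (.col (nat_lit 1))) (.col (nat_lit 2)) (.col (nat_lit 0))
def w1846 : Root := .mk (.slot (nat_lit 0)) (.node (.node (.node (.col (nat_lit 0)) (.slot (nat_lit 0)) (.slot (nat_lit 0))) (.col (nat_lit 2)) (.node (.col (nat_lit 3)) (.col (nat_lit 1)) (.slot (nat_lit 1)))) (.col (nat_lit 2)) (.col (nat_lit 1))) (.col (nat_lit 2)) (.col (nat_lit 1))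
def w1851 : Root := .mk (.col (nat_lit 3)) (.node (.node (.col (nat_lit 0)) (.node (.node (.col (nat_lit 0)) (.slot (nat_lit 7)) (.slot (nat_lit 5))) (.col (nat_lit 2)) (.slot (nat_lit 8))) (.node (.slot (nat_lit 0)) (.slot (nat_lit 1)) (.slot (nat_lit 1)))) (.col (nat_lit 2)) (.node (.col (nat_lit 3)) (.slot (nat_lit 3)) (.slot (nat_lit 3)))) (.col (nat_lit 2)) (.slot (nat_lit 0))
def l434 : Root := .mk (.node (.node (.col (nat_lit 3)) (.col (nat_lit 2)) (.node (.col (nat_lit 2)) (.slot (nat_lit 0)) (.slot (nat_lit 0)))) (.col (nat_lit 2)) (.node (.col (nat_lit 3)) (.slot (nat_lit 1)) (.slot (nat_lit 1)))) (.col (nat_lit 0)) (.col (nat_lit 1)) (.col (nat_lit 3))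
def w1853 : Root := .mk (.col (nat_lit 3)) (.node (.node (.col (nat_lit 0)) (.node (.col (nat_lit 3)) (.col (nat_lit 2)) .junk) (.node (.slot (nat_lit 0)) (.slot (nat_lit 0)) (.slot (nat_lit 0)))) (.col (nat_lit 2)) (.node (.col (nat_lit 3)) (.slot (nat_lit 1)) (.slot (nat_lit 1)))) (.col (nat_lit 2)) (.node (.col (nat_lit 2)) (.slot (nat_lit 0)) (.slot (nat_lit 0)))
def w1854 : Root := .mk (.node (.col (nat_lit 3)) .junk (.node (.col (nat_lit 2)) (.slot (nat_lit 0)) (.slot (nat_lit 0)))) (.node (.col (nat_lit 0)) (.node (.node (.col (nat_lit 0)) (.slot (nat_lit 0)) (.slot (nat_lit 0))) (.col (nat_lit 2)) .junk) (.col (nat_lit 3))) (.col (nat_lit 2)) (.col (nat_lit 0))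
def l435 : Root := .mk (.node (.node (.col (nat_lit 3)) (.col (nat_lit 2)) (.node (.col (nat_lit 2)) (.slot (nat_lit 0)) (.slot (nat_lit 0)))) (.col (nat_lit 2)) (.node (.col (nat_lit 3)) (.slot (nat_lit 1)) (.slot (nat_lit 1)))) (.col (nat_lit 0)) (.node (.node (.col (nat_lit 0)) (.slot (nat_lit 0)) (.slot (nat_lit 0))) (.col (nat_lit 2)) (.col (nat_lit 0))) (.col (nat_lit 3))
def w1862 : Root := .mk (.node (.col (nat_lit 3)) .junk (.col (nat_lit 0))) (.node (.col (nat_lit 0)) (.node (.node (.col (nat_lit 0)) (.slot (nat_lit 1)) (.slot (nat_lit 0))) (.col (nat_lit 2)) (.slot (nat_lit 1))) (.node (.slot (nat_lit 0)) (.slot (nat_lit 0)) (.slot (nat_lit 0)))) (.col (nat_lit 2)) (.node (.col (nat_lit 3)) (.slot (nat_lit 0)) (.slot (nat_lit 0)))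
def w1864 : Root := .mk (.col (nat_lit 3)) (.node (.node (.col (nat_lit 0)) (.node (.node (.col (nat_lit 0)) (.slot (nat_lit 1)) (.slot (nat_lit 0))) (.col (nat_lit 2)) (.slot (nat_lit 1))) (.node (.slot (nat_lit 0)) (.slot (nat_lit 0)) (.slot (nat_lit 0)))) (.col (nat_lit 2)) (.node (.col (nat_lit 3)) (.node (.col (nat_lit 0)) (.slot (nat_lit 1)) (.slot (nat_lit 1))) (.slot (nat_lit 2)))) (.col (nat_lit 2)) (.slot (nat_lit 0))
def w1865 : Root := .mk (.col (nat_lit 3)) (.node (.node (.col (nat_lit 0)) (.node (.node (.col (nat_lit 0)) (.slot (nat_lit 1)) (.slot (nat_lit 0))) (.col (nat_lit 2)) (.slot (nat_lit 1))) (.node (.slot (nat_lit 0)) (.slot (nat_lit 0)) (.slot (nat_lit 0)))) (.col (nat_lit 2)) (.node (.col (nat_lit 3)) (.node (.col (nat_lit 1)) (.slot (nat_lit 1)) (.slot (nat_lit 1))) (.slot (nat_lit 2)))) (.col (nat_lit 2)) (.slot (nat_lit 0))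
def w1870 : Root := .mk (.col (nat_lit 3)) (.node (.node (.col (nat_lit 0)) (.node (.col (nat_lit 3)) (.col (nat_lit 2)) .junk) (.node (.slot (nat_lit 0)) (.slot (nat_lit 0)) (.slot (nat_lit 0)))) (.col (nat_lit 2)) (.node (.col (nat_lit 3)) (.slot (nat_lit 1)) (.slot (nat_lit 1)))) (.col (nat_lit 2)) (.node (.slot (nat_lit 0)) (.slot (nat_lit 0)) (.slot (nat_lit 0)))
def l437 : Root := .mk (.node (.node (.col (nat_lit 3)) (.col (nat_lit 2)) (.node (.slot (nat_lit 0)) (.slot (nat_lit 0)) (.slot (nat_lit 0)))) (.col (nat_lit 2)) (.node (.col (nat_lit 3)) (.slot (nat_lit 1)) (.slot (nat_lit 0)))) (.col (nat_lit 0)) (.node (.node (.col (nat_lit 0)) (.slot (nat_lit 0)) (.slot (nat_lit 0))) (.col (nat_lit 2)) (.col (nat_lit 0))) (.col (nat_lit 3))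
def w1871 : Root := .mk (.node (.node (.node (.col (nat_lit 3)) (.col (nat_lit 2)) (.node (.slot (nat_lit 0)) (.slot (nat_lit 0)) (.slot (nat_lit 0)))) (.col (nat_lit 2)) (.node (.col (nat_lit 3)) (.slot (nat_lit 1)) (.slot (nat_lit 0)))) (.col (nat_lit 0)) (.node (.slot (nat_lit 0)) (.slot (nat_lit 0)) (.slot (nat_lit 0)))) (.node (.col (nat_lit 0)) (.slot (nat_lit 0)) (.slot (nat_lit 0))) (.col (nat_lit 2)) (.col (nat_lit 0))
def w1872 : Root := .mk (.col (nat_lit 3)) (.node (.node (.col (nat_lit 0)) (.node (.node (.col (nat_lit 0)) (.slot (nat_lit 1)) (.slot (nat_lit 1))) (.col (nat_lit 2)) (.node (.col (nat_lit 1)) (.slot (nat_lit 1)) (.slot (nat_lit 0)))) (.node (.slot (nat_lit 0)) (.slot (nat_lit 0)) (.slot (nat_lit 0)))) (.col (nat_lit 2)) (.node (.col (nat_lit 3)) (.slot (nat_lit 1)) (.slot (nat_lit 0)))) (.col (nat_lit 2)) (.slot (nat_lit 0))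
def w1873 : Root := .mk (.col (nat_lit 3)) (.node (.node (.col (nat_lit 0)) (.node (.node (.col (nat_lit 0)) (.slot (nat_lit 1)) (.slot (nat_lit 0))) (.col (nat_lit 2)) (.node (.col (nat_lit 2)) (.slot (nat_lit 0)) (.slot (nat_lit 0)))) (.node (.slot (nat_lit 0)) (.slot (nat_lit 0)) (.slot (nat_lit 0)))) (.col (nat_lit 2)) (.node (.col (nat_lit 3)) (.slot (nat_lit 1)) (.slot (nat_lit 1)))) (.col (nat_lit 2)) (.node (.slot (nat_lit 0)) (.slot (nat_lit 0)) (.slot (nat_lit 0)))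
def w1874 : Root := .mk (.col (nat_lit 3)) (.node (.node (.col (nat_lit 0)) (.node (.node (.col (nat_lit 0)) (.slot (nat_lit 1)) (.slot (nat_lit 0))) (.col (nat_lit 2)) (.node (.col (nat_lit 3)) (.slot (nat_lit 0)) (.slot (nat_lit 0)))) (.node (.slot (nat_lit 0)) (.slot (nat_lit 0)) (.slot (nat_lit 0)))) (.col (nat_lit 2)) (.node (.col (nat_lit 3)) (.slot (nat_lit 1)) (.slot (nat_lit 1)))) (.col (nat_lit 2)) (.node (.slot (nat_lit 0)) (.slot (nat_lit 0)) (.slot (nat_lit 0)))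
def w1875 : Root := .mk (.col (nat_lit 3)) (.node (.node (.col (nat_lit 0)) (.node (.node (.col (nat_lit 0)) (.slot (nat_lit 3)) (.slot (nat_lit 1))) (.col (nat_lit 2)) (.node (.slot (nat_lit 0)) (.slot (nat_lit 0)) (.slot (nat_lit 0)))) (.slot (nat_lit 0))) (.col (nat_lit 2)) (.node (.col (nat_lit 3)) (.slot (nat_lit 1)) (.slot (nat_lit 1)))) (.col (nat_lit 2)) (.node (.slot (nat_lit 0)) (.slot (nat_lit 0)) (.slot (nat_lit 0)))
def w1876 : Root := .mk (.col (nat_lit 3)) (.node (.node (.col (nat_lit 0)) (.node (.node (.col (nat_lit 0)) (.col (nat_lit 2)) (.slot (nat_lit 1))) (.col (nat_lit 2)) (.slot (nat_lit 1))) (.node (.slot (nat_lit 0)) (.slot (nat_lit 0)) (.slot (nat_lit 0)))) (.col (nat_lit 2)) (.node (.col (nat_lit 3)) (.slot (nat_lit 1)) (.slot (nat_lit 1)))) (.col (nat_lit 2)) (.node (.slot (nat_lit 0)) (.slot (nat_lit 0)) (.slot (nat_lit 0)))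
def w1877 : Root := .mk (.col (nat_lit 3)) (.node (.node (.col (nat_lit 0)) (.node (.node (.col (nat_lit 0)) (.slot (nat_lit 0)) (.slot (nat_lit 1))) (.col (nat_lit 2)) (.slot (nat_lit 1))) (.node (.slot (nat_lit 0)) (.slot (nat_lit 0)) (.slot (nat_lit 0)))) (.col (nat_lit 2)) (.node (.col (nat_lit 3)) (.slot (nat_lit 1)) (.slot (nat_lit 1)))) (.col (nat_lit 2)) (.node (.slot (nat_lit 0)) (.slot (nat_lit 0)) (.slot (nat_lit 0)))
def w1878 : Root := .mk (.col (nat_lit 3)) (.node (.node (.col (nat_lit 0)) (.node (.node (.col (nat_lit 0)) (.slot (nat_lit 7)) (.slot (nat_lit 5))) (.col (nat_lit 2)) (.slot (nat_lit 8))) (.node (.slot (nat_lit 0)) (.slot (nat_lit 2)) (.slot (nat_lit 1)))) (.col (nat_lit 2)) (.node (.col (nat_lit 3)) (.col (nat_lit 2)) (.slot (nat_lit 2)))) (.col (nat_lit 2)) (.node (.slot (nat_lit 0)) (.slot (nat_lit 0)) (.slot (nat_lit 0)))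
def w1879 : Root := .mk (.col (nat_lit 3)) (.node (.node (.col (nat_lit 0)) (.node (.node (.col (nat_lit 0)) (.slot (nat_lit 1)) (.slot (nat_lit 0))) (.col (nat_lit 2)) (.slot (nat_lit 1))) (.node (.slot (nat_lit 0)) (.slot (nat_lit 0)) (.slot (nat_lit 0)))) (.col (nat_lit 2)) (.node (.col (nat_lit 3)) (.node (.col (nat_lit 3)) (.slot (nat_lit 0)) (.slot (nat_lit 0))) (.slot (nat_lit 1)))) (.col (nat_lit 2)) (.node (.slot (nat_lit 0)) (.slot (nat_lit 0)) (.slot (nat_lit 0)))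
def l438 : Root := .mk (.col (nat_lit 3)) (.node (.node (.col (nat_lit 0)) (.node (.node (.col (nat_lit 0)) (.slot (nat_lit 7)) (.slot (nat_lit 5))) (.col (nat_lit 2)) (.slot (nat_lit 8))) (.node (.slot (nat_lit 0)) (.slot (nat_lit 2)) (.slot (nat_lit 1)))) (.col (nat_lit 2)) (.node (.col (nat_lit 3)) (.slot (nat_lit 3)) (.slot (nat_lit 3)))) (.col (nat_lit 2)) (.node (.slot (nat_lit 0)) (.slot (nat_lit 0)) (.slot (nat_lit 0)))
def w1880 : Root := .mk (.col (nat_lit 3)) (.node (.node (.col (nat_lit 0)) (.node (.node (.col (nat_lit 0)) (.slot (nat_lit 7)) (.slot (nat_lit 5))) (.slot (nat_lit 1)) (.slot (nat_lit 8))) (.node (.slot (nat_lit 0)) (.slot (nat_lit 2)) (.slot (nat_lit 1)))) (.col (nat_lit 2)) (.node (.col (nat_lit 3)) (.slot (nat_lit 3)) (.slot (nat_lit 3)))) (.col (nat_lit 2)) (.node (.slot (nat_lit 0)) (.slot (nat_lit 0)) (.slot (nat_lit 0)))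
def w1883 : Root := .mk (.node (.node (.col (nat_lit 3)) (.col (nat_lit 2)) (.slot (nat_lit 3))) (.col (nat_lit 2)) (.node (.col (nat_lit 3)) (.node (.col (nat_lit 1)) (.slot (nat_lit 1)) (.slot (nat_lit 0))) (.slot (nat_lit 2)))) (.col (nat_lit 0)) (.col (nat_lit 2)) (.slot (nat_lit 0))
def w1889 : Root := .mk (.node (.node (.slot (nat_lit 0)) (.col (nat_lit 2)) (.slot (nat_lit 0))) (.col (nat_lit 2)) (.slot (nat_lit 2))) (.col (nat_lit 0)) (.node (.slot (nat_lit 0)) (.col (nat_lit 1)) (.slot (nat_lit 0))) (.node (.col (nat_lit 2)) (.slot (nat_lit 1)) (.slot (nat_lit 1)))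
def w1890 : Root := .mk (.node (.node (.slot (nat_lit 0)) (.col (nat_lit 2)) (.slot (nat_lit 0))) (.col (nat_lit 2)) (.slot (nat_lit 1))) (.col (nat_lit 0)) (.node (.node (.col (nat_lit 0)) .junk (.col (nat_lit 2))) (.col (nat_lit 1)) (.slot (nat_lit 1))) (.node (.slot (nat_lit 0)) (.col (nat_lit 2)) (.slot (nat_lit 1)))
def w1901 : Root := .mk (.node (.node (.slot (nat_lit 0)) (.col (nat_lit 2)) (.slot (nat_lit 0))) (.col (nat_lit 2)) (.node (.col (nat_lit 2)) (.slot (nat_lit 0)) (.slot (nat_lit 0)))) (.col (nat_lit 0)) (.node (.node (.col (nat_lit 0)) (.slot (nat_lit 0)) (.slot (nat_lit 0))) (.col (nat_lit 2)) (.col (nat_lit 0))) (.col (nat_lit 3))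
def w1903 : Root := .mk (.node (.node (.slot (nat_lit 0)) (.col (nat_lit 2)) (.slot (nat_lit 0))) (.col (nat_lit 2)) (.slot (nat_lit 1))) (.col (nat_lit 0)) (.node (.node (.col (nat_lit 0)) (.node (.col (nat_lit 0)) (.slot (nat_lit 0)) (.slot (nat_lit 0))) (.slot (nat_lit 2))) (.col (nat_lit 2)) (.slot (nat_lit 3))) (.node (.slot (nat_lit 0)) (.slot (nat_lit 0)) (.slot (nat_lit 0)))
def w1904 : Root := .mk (.node (.slot (nat_lit 0)) (.col (nat_lit 2)) (.slot (nat_lit 1))) (.col (nat_lit 0)) (.node (.node (.col (nat_lit 0)) (.node (.col (nat_lit 1)) (.slot (nat_lit 3)) (.slot (nat_lit 1))) (.slot (nat_lit 2))) (.col (nat_lit 2)) (.slot (nat_lit 2))) (.node (.slot (nat_lit 0)) (.slot (nat_lit 0)) (.slot (nat_lit 0)))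
def w1905 : Root := .mk (.node (.slot (nat_lit 0)) (.col (nat_lit 2)) (.slot (nat_lit 0))) (.node (.col (nat_lit 0)) (.node (.node (.col (nat_lit 0)) (.slot (nat_lit 2)) (.slot (nat_lit 2))) (.col (nat_lit 2)) (.slot (nat_lit 3))) (.node (.slot (nat_lit 0)) (.slot (nat_lit 0)) (.slot (nat_lit 0)))) (.col (nat_lit 2)) (.node (.col (nat_lit 1)) (.slot (nat_lit 0)) (.slot (nat_lit 0)))
def w1906 : Root := .mk (.node (.slot (nat_lit 0)) (.col (nat_lit 2)) (.slot (nat_lit 0))) (.node (.col (nat_lit 0)) (.node (.node (.col (nat_lit 0)) (.slot (nat_lit 2)) (.slot (nat_lit 2))) (.col (nat_lit 2)) (.slot (nat_lit 3))) (.node (.slot (nat_lit 0)) (.slot (nat_lit 0)) (.slot (nat_lit 0)))) (.col (nat_lit 2)) (.node (.col (nat_lit 2)) (.slot (nat_lit 0)) (.slot (nat_lit 0)))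
def w1907 : Root := .mk (.node (.node (.slot (nat_lit 0)) (.col (nat_lit 2)) (.slot (nat_lit 0))) (.col (nat_lit 2)) (.slot (nat_lit 2))) (.col (nat_lit 0)) (.node (.node (.col (nat_lit 0)) (.slot (nat_lit 1)) (.slot (nat_lit 1))) (.col (nat_lit 2)) (.slot (nat_lit 2))) (.node (.col (nat_lit 1)) (.slot (nat_lit 0)) (.slot (nat_lit 0)))
def w1911 : Root := .mk (.node (.node (.node (.node (.col (nat_lit 0)) (.col (nat_lit 1)) .junk) (.col (nat_lit 2)) (.slot (nat_lit 1))) (.node (.col (nat_lit 0)) (.slot (nat_lit 1)) (.slot (nat_lit 1))) (.slot (nat_lit 2))) (.col (nat_lit 2)) (.slot (nat_lit 2))) (.col (nat_lit 0)) (.node (.slot (nat_lit 0)) (.slot (nat_lit 0)) (.slot (nat_lit 0))) (.node (.slot (nat_lit 0)) (.slot (nat_lit 0)) (.slot (nat_lit 0)))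
def w1912 : Root := .mk (.node (.node (.node (.node (.col (nat_lit 0)) (.col (nat_lit 1)) .junk) (.col (nat_lit 2)) (.slot (nat_lit 1))) (.node (.col (nat_lit 1)) (.slot (nat_lit 1)) (.slot (nat_lit 1))) (.slot (nat_lit 2))) (.col (nat_lit 2)) (.slot (nat_lit 2))) (.col (nat_lit 0)) (.node (.slot (nat_lit 0)) (.slot (nat_lit 0)) (.slot (nat_lit 0))) (.node (.slot (nat_lit 0)) (.slot (nat_lit 0)) (.slot (nat_lit 0)))
def w1914 : Root := .mk (.col (nat_lit 0)) (.col (nat_lit 1)) (.node (.node (.node (.node (.col (nat_lit 0)) (.node (.slot (nat_lit 0)) (.slot (nat_lit 0)) (.slot (nat_lit 0))) (.node (.slot (nat_lit 0)) (.slot (nat_lit 0)) (.slot (nat_lit 0)))) (.col (nat_lit 2)) (.slot (nat_lit 2))) (.node (.col (nat_lit 3)) (.slot (nat_lit 0)) (.slot (nat_lit 0))) (.slot (nat_lit 3))) (.col (nat_lit 2)) (.slot (nat_lit 1))) (.col (nat_lit 2))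
def w1918 : Root := .mk (.col (nat_lit 0)) (.col (nat_lit 1)) (.node (.node (.node (.node (.col (nat_lit 0)) .junk (.col (nat_lit 3))) (.col (nat_lit 2)) (.slot (nat_lit 1))) (.slot (nat_lit 3)) (.slot (nat_lit 1))) (.col (nat_lit 2)) (.slot (nat_lit 1))) (.col (nat_lit 2))
def w1919 : Root := .mk (.node (.node (.col (nat_lit 1)) (.col (nat_lit 0)) (.slot (nat_lit 2))) (.col (nat_lit 2)) (.slot (nat_lit 1))) (.col (nat_lit 0)) (.col (nat_lit 2)) (.slot (nat_lit 0))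
def l444 : Root := .mk (.node (.col (nat_lit 3)) (.col (nat_lit 0)) (.node (.col (nat_lit 0)) (.slot (nat_lit 0)) (.slot (nat_lit 0)))) (.node (.col (nat_lit 0)) (.col (nat_lit 2)) (.node (.slot (nat_lit 0)) (.col (nat_lit 1)) (.col (nat_lit 0)))) (.col (nat_lit 2)) (.col (nat_lit 1))
def w1923 : Root := .mk (.node (.node (.col (nat_lit 0)) (.col (nat_lit 1)) .junk) (.col (nat_lit 2)) (.slot (nat_lit 1))) (.node (.slot (nat_lit 0)) (.col (nat_lit 2)) (.slot (nat_lit 1))) (.col (nat_lit 0)) (.node (.col (nat_lit 1)) (.slot (nat_lit 1)) (.slot (nat_lit 1)))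
def w1924 : Root := .mk (.node (.node (.node (.slot (nat_lit 0)) (.col (nat_lit 2)) (.slot (nat_lit 0))) (.col (nat_lit 0)) (.node (.col (nat_lit 2)) (.slot (nat_lit 1)) (.slot (nat_lit 1)))) (.col (nat_lit 2)) (.slot (nat_lit 1))) (.col (nat_lit 0)) (.col (nat_lit 2)) (.slot (nat_lit 0))
def w1926 : Root := .mk (.col (nat_lit 0)) (.col (nat_lit 1)) (.node (.node (.node (.node (.col (nat_lit 0)) (.col (nat_lit 2)) (.node .junk (.col (nat_lit 3)) (.slot (nat_lit 1)))) (.col (nat_lit 2)) (.slot (nat_lit 3))) (.slot (nat_lit 1)) (.slot (nat_lit 1))) (.col (nat_lit 2)) (.slot (nat_lit 3))) (.col (nat_lit 2))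
def l445 : Root := .mk (.col (nat_lit 0)) (.col (nat_lit 1)) (.node (.node (.node (.node (.col (nat_lit 0)) .junk (.col (nat_lit 1))) (.col (nat_lit 2)) (.col (nat_lit 3))) (.slot (nat_lit 3)) (.slot (nat_lit 1))) (.col (nat_lit 2)) (.slot (nat_lit 1))) (.col (nat_lit 2))
def w1927 : Root := .mk (.col (nat_lit 0)) (.col (nat_lit 1)) (.node (.node (.node (.node (.col (nat_lit 0)) .junk (.col (nat_lit 1))) (.col (nat_lit 2)) (.slot (nat_lit 1))) (.slot (nat_lit 3)) (.slot (nat_lit 1))) (.col (nat_lit 2)) (.slot (nat_lit 1))) (.col (nat_lit 2))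
def w1928 : Root := .mk (.node (.col (nat_lit 3)) (.col (nat_lit 4)) (.node (.col (nat_lit 2)) (.slot (nat_lit 1)) (.slot (nat_lit 1)))) (.node (.col (nat_lit 0)) (.col (nat_lit 2)) (.slot (nat_lit 0))) (.col (nat_lit 2)) (.col (nat_lit 3))
def l446 : Root := .mk (.col (nat_lit 3)) (.node (.node (.col (nat_lit 0)) (.col (nat_lit 2)) (.slot (nat_lit 0))) (.col (nat_lit 2)) (.slot (nat_lit 1))) (.col (nat_lit 4)) (.node (.col (nat_lit 2)) (.slot (nat_lit 1)) (.slot (nat_lit 1)))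
def w1929 : Root := .mk (.node (.node (.col (nat_lit 3)) (.col (nat_lit 4)) (.slot (nat_lit 2))) (.col (nat_lit 2)) (.slot (nat_lit 1))) (.col (nat_lit 0)) (.col (nat_lit 2)) (.slot (nat_lit 0))
def w1930 : Root := .mk (.node (.node (.node (.node (.col (nat_lit 0)) (.col (nat_lit 1)) .junk) (.col (nat_lit 2)) (.slot (nat_lit 1))) (.col (nat_lit 4)) (.slot (nat_lit 2))) (.col (nat_lit 2)) (.slot (nat_lit 1))) (.col (nat_lit 0)) (.col (nat_lit 2)) (.slot (nat_lit 0))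
def l447 : Root := .mk (.col (nat_lit 3)) (.node (.node (.node (.col (nat_lit 0)) (.col (nat_lit 2)) (.slot (nat_lit 0))) (.col (nat_lit 2)) (.slot (nat_lit 1))) (.col (nat_lit 0)) (.slot (nat_lit 2))) (.col (nat_lit 2)) (.col (nat_lit 4))
def w1931 : Root := .mk (.col (nat_lit 3)) (.node (.node (.node (.col (nat_lit 0)) (.col (nat_lit 2)) (.slot (nat_lit 0))) (.col (nat_lit 2)) (.slot (nat_lit 1))) (.slot (nat_lit 1)) (.slot (nat_lit 2))) (.col (nat_lit 2)) (.col (nat_lit 4))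
def w1932 : Root := .mk (.node (.node (.col (nat_lit 0)) (.slot (nat_lit 3)) (.slot (nat_lit 3))) (.col (nat_lit 2)) (.slot (nat_lit 1))) (.col (nat_lit 0)) (.col (nat_lit 2)) (.node (.slot (nat_lit 0)) (.col (nat_lit 3)) (.col (nat_lit 0)))
def w1935 : Root := .mk (.node (.node (.node (.slot (nat_lit 0)) (.col (nat_lit 2)) (.slot (nat_lit 1))) (.col (nat_lit 0)) (.node (.col (nat_lit 0)) (.slot (nat_lit 0)) (.slot (nat_lit 0)))) (.col (nat_lit 2)) (.node (.col (nat_lit 0)) (.slot (nat_lit 2)) (.slot (nat_lit 2)))) (.col (nat_lit 0)) (.col (nat_lit 2)) (.slot (nat_lit 0))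
def w1937 : Root := .mk (.slot (nat_lit 0)) (.node (.node (.node (.col (nat_lit 0)) (.col (nat_lit 2)) (.slot (nat_lit 0))) (.col (nat_lit 2)) (.node (.col (nat_lit 0)) (.slot (nat_lit 1)) (.slot (nat_lit 1)))) (.col (nat_lit 0)) (.slot (nat_lit 1))) (.col (nat_lit 2)) (.col (nat_lit 0))
def w1940 : Root := .mk (.col (nat_lit 0)) (.col (nat_lit 1)) (.node (.node (.node (.slot (nat_lit 0)) (.col (nat_lit 2)) (.slot (nat_lit 0))) (.col (nat_lit 0)) (.slot (nat_lit 3))) (.col (nat_lit 2)) (.node (.col (nat_lit 2)) (.slot (nat_lit 0)) (.slot (nat_lit 0)))) (.col (nat_lit 2))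
def w1944 : Root := .mk (.node (.node (.col (nat_lit 1)) (.col (nat_lit 0)) (.slot (nat_lit 0))) (.col (nat_lit 2)) (.node (.col (nat_lit 0)) (.col (nat_lit 3)) (.slot (nat_lit 1)))) (.col (nat_lit 0)) (.col (nat_lit 2)) (.slot (nat_lit 0))
def l449 : Root := .mk (.node (.node (.col (nat_lit 1)) (.col (nat_lit 0)) (.slot (nat_lit 2))) (.col (nat_lit 2)) (.node (.col (nat_lit 0)) (.slot (nat_lit 3)) (.slot (nat_lit 1)))) (.col (nat_lit 0)) (.col (nat_lit 2)) (.node (.slot (nat_lit 0)) (.slot (nat_lit 0)) (.slot (nat_lit 0)))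
def w1945 : Root := .mk (.node (.node (.col (nat_lit 1)) (.slot (nat_lit 1)) (.slot (nat_lit 2))) (.col (nat_lit 2)) (.node (.col (nat_lit 0)) (.slot (nat_lit 3)) (.slot (nat_lit 1)))) (.col (nat_lit 0)) (.col (nat_lit 2)) (.node (.slot (nat_lit 0)) (.slot (nat_lit 0)) (.slot (nat_lit 0)))
def l450 : Root := .mk (.col (nat_lit 0)) (.node (.node (.col (nat_lit 0)) (.col (nat_lit 2)) (.node (.slot (nat_lit 0)) (.slot (nat_lit 0)) (.slot (nat_lit 0)))) (.col (nat_lit 2)) (.node (.col (nat_lit 0)) (.slot (nat_lit 3)) (.slot (nat_lit 3)))) (.col (nat_lit 2)) (.node (.slot (nat_lit 0)) (.col (nat_lit 1)) (.slot (nat_lit 1)))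
def w1946 : Root := .mk (.col (nat_lit 0)) (.node (.node (.col (nat_lit 0)) (.col (nat_lit 2)) (.node (.slot (nat_lit 0)) (.slot (nat_lit 0)) (.slot (nat_lit 0)))) (.col (nat_lit 2)) (.node (.col (nat_lit 0)) (.slot (nat_lit 3)) (.slot (nat_lit 3)))) (.col (nat_lit 2)) (.node (.slot (nat_lit 0)) (.slot (nat_lit 1)) (.slot (nat_lit 1)))
def w1947 : Root := .mk (.node (.node (.col (nat_lit 0)) (.col (nat_lit 2)) (.slot (nat_lit 2))) (.col (nat_lit 2)) (.node (.col (nat_lit 0)) (.node (.col (nat_lit 2)) (.slot (nat_lit 1)) (.slot (nat_lit 1))) (.slot (nat_lit 2)))) (.col (nat_lit 0)) (.col (nat_lit 2)) (.slot (nat_lit 0))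
def l451 : Root := .mk (.col (nat_lit 0)) (.node (.node (.col (nat_lit 0)) (.col (nat_lit 2)) (.node (.slot (nat_lit 0)) (.col (nat_lit 1)) (.col (nat_lit 0)))) (.col (nat_lit 2)) (.node (.col (nat_lit 0)) (.node (.slot (nat_lit 0)) (.slot (nat_lit 0)) (.slot (nat_lit 0))) (.slot (nat_lit 3)))) (.col (nat_lit 2)) (.node (.col (nat_lit 1)) (.slot (nat_lit 3)) (.slot (nat_lit 3)))
def w1948 : Root := .mk (.node (.node (.col (nat_lit 0)) (.col (nat_lit 2)) (.slot (nat_lit 4))) (.col (nat_lit 2)) (.node (.col (nat_lit 0)) (.node (.slot (nat_lit 0)) (.slot (nat_lit 0)) (.slot (nat_lit 0))) (.slot (nat_lit 3)))) (.col (nat_lit 0)) (.col (nat_lit 2)) (.node (.slot (nat_lit 0)) (.col (nat_lit 1)) (.col (nat_lit 0)))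
def l452 : Root := .mk (.col (nat_lit 0)) (.node (.node (.col (nat_lit 0)) (.col (nat_lit 2)) (.node (.slot (nat_lit 0)) (.col (nat_lit 1)) (.col (nat_lit 2)))) (.col (nat_lit 2)) (.node (.col (nat_lit 0)) (.node (.slot (nat_lit 0)) (.slot (nat_lit 0)) (.slot (nat_lit 0))) (.slot (nat_lit 3)))) (.col (nat_lit 2)) (.node (.col (nat_lit 1)) (.slot (nat_lit 3)) (.slot (nat_lit 3)))
def w1949 : Root := .mk (.node (.node (.col (nat_lit 0)) (.col (nat_lit 2)) (.slot (nat_lit 4))) (.col (nat_lit 2)) (.node (.col (nat_lit 0)) (.node (.slot (nat_lit 0)) (.slot (nat_lit 0)) (.slot (nat_lit 0))) (.slot (nat_lit 3)))) (.col (nat_lit 0)) (.col (nat_lit 2)) (.node (.slot (nat_lit 0)) (.col (nat_lit 1)) (.col (nat_lit 2)))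
def w1950 : Root := .mk (.node (.node (.col (nat_lit 0)) (.col (nat_lit 2)) (.slot (nat_lit 2))) (.col (nat_lit 2)) (.node (.col (nat_lit 0)) (.node (.slot (nat_lit 0)) (.slot (nat_lit 0)) (.slot (nat_lit 0))) (.slot (nat_lit 0)))) (.col (nat_lit 0)) (.col (nat_lit 2)) (.node .junk (.col (nat_lit 1)) (.node (.col (nat_lit 3)) (.slot (nat_lit 0)) (.slot (nat_lit 0))))
def l453 : Root := .mk (.node (.node (.col (nat_lit 0)) (.col (nat_lit 2)) (.slot (nat_lit 4))) (.col (nat_lit 2)) (.node (.col (nat_lit 0)) (.node (.slot (nat_lit 0)) (.slot (nat_lit 0)) (.slot (nat_lit 0))) (.slot (nat_lit 3)))) (.col (nat_lit 0)) (.col (nat_lit 2)) (.node (.slot (nat_lit 0)) (.col (nat_lit 1)) (.slot (nat_lit 1)))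
def w1951 : Root := .mk (.node (.node (.col (nat_lit 0)) (.col (nat_lit 2)) (.slot (nat_lit 4))) (.col (nat_lit 2)) (.node (.col (nat_lit 0)) (.node (.slot (nat_lit 0)) (.slot (nat_lit 0)) (.slot (nat_lit 0))) (.slot (nat_lit 3)))) (.col (nat_lit 0)) (.col (nat_lit 2)) (.node (.slot (nat_lit 0)) (.slot (nat_lit 1)) (.slot (nat_lit 1)))
def l454 : Root := .mk (.node (.node (.col (nat_lit 0)) (.col (nat_lit 2)) (.slot (nat_lit 4))) (.col (nat_lit 2)) (.node (.col (nat_lit 0)) (.slot (nat_lit 7)) (.slot (nat_lit 5)))) (.col (nat_lit 0)) (.col (nat_lit 2)) (.node (.slot (nat_lit 0)) (.slot (nat_lit 1)) (.slot (nat_lit 1)))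
def w1952 : Root := .mk (.node (.node (.node (.slot (nat_lit 0)) (.col (nat_lit 2)) (.slot (nat_lit 0))) (.col (nat_lit 2)) (.slot (nat_lit 4))) (.col (nat_lit 2)) (.node (.col (nat_lit 0)) (.slot (nat_lit 7)) (.slot (nat_lit 5)))) (.col (nat_lit 0)) (.col (nat_lit 2)) (.node (.slot (nat_lit 0)) (.slot (nat_lit 1)) (.slot (nat_lit 1)))
def w1953 : Root := .mk (.node (.node (.node (.slot (nat_lit 0)) (.col (nat_lit 2)) (.slot (nat_lit 0))) (.col (nat_lit 3)) (.slot (nat_lit 2))) (.col (nat_lit 2)) (.node (.col (nat_lit 0)) (.slot (nat_lit 3)) (.slot (nat_lit 1)))) (.col (nat_lit 0)) (.col (nat_lit 2)) (.node (.slot (nat_lit 0)) (.slot (nat_lit 0)) (.slot (nat_lit 0)))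
def w1960 : Root := .mk (.node (.node (.slot (nat_lit 0)) (.slot (nat_lit 0)) (.col (nat_lit 0))) (.col (nat_lit 2)) (.node (.col (nat_lit 0)) (.col (nat_lit 1)) (.slot (nat_lit 1)))) (.col (nat_lit 0)) (.col (nat_lit 2)) (.node (.slot (nat_lit 0)) (.slot (nat_lit 0)) (.slot (nat_lit 0)))
def w1969 : Root := .mk (.node (.node (.node (.slot (nat_lit 0)) (.col (nat_lit 2)) (.slot (nat_lit 0))) (.slot (nat_lit 7)) (.slot (nat_lit 5))) (.col (nat_lit 2)) (.node (.col (nat_lit 0)) (.col (nat_lit 2)) (.slot (nat_lit 4)))) (.col (nat_lit 0)) (.col (nat_lit 2)) (.node (.slot (nat_lit 0)) (.slot (nat_lit 1)) (.slot (nat_lit 1)))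
def w1986 : Root := .mk (.node (.node (.slot (nat_lit 0)) (.col (nat_lit 1)) (.slot (nat_lit 1))) (.col (nat_lit 2)) (.node (.col (nat_lit 0)) (.slot (nat_lit 1)) (.slot (nat_lit 1)))) (.col (nat_lit 0)) (.col (nat_lit 2)) (.node (.col (nat_lit 1)) (.slot (nat_lit 1)) .junk)
def w1994 : Root := .mk (.node (.node (.slot (nat_lit 0)) (.col (nat_lit 2)) (.slot (nat_lit 0))) (.col (nat_lit 0)) (.slot (nat_lit 1))) (.node (.col (nat_lit 0)) (.col (nat_lit 2)) (.node (.slot (nat_lit 0)) (.slot (nat_lit 0)) (.slot (nat_lit 0)))) (.col (nat_lit 2)) (.col (nat_lit 1))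
def w1995 : Root := .mk (.col (nat_lit 0)) (.col (nat_lit 1)) (.node (.node (.node (.slot (nat_lit 0)) (.col (nat_lit 2)) (.slot (nat_lit 0))) (.col (nat_lit 0)) (.slot (nat_lit 3))) (.col (nat_lit 2)) (.node (.col (nat_lit 2)) (.col (nat_lit 0)) (.slot (nat_lit 0)))) (.col (nat_lit 2))
def w1996 : Root := .mk (.col (nat_lit 0)) (.col (nat_lit 1)) (.node (.node (.node (.slot (nat_lit 0)) (.col (nat_lit 2)) (.slot (nat_lit 0))) (.col (nat_lit 0)) (.slot (nat_lit 3))) (.col (nat_lit 2)) (.node (.col (nat_lit 2)) (.col (nat_lit 1)) (.slot (nat_lit 0)))) (.col (nat_lit 2))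
def w1997 : Root := .mk (.node (.node (.node (.slot (nat_lit 0)) (.col (nat_lit 2)) (.slot (nat_lit 0))) (.col (nat_lit 0)) (.slot (nat_lit 2))) (.col (nat_lit 2)) (.node (.col (nat_lit 0)) (.slot (nat_lit 3)) (.slot (nat_lit 1)))) (.col (nat_lit 0)) (.col (nat_lit 2)) (.node (.slot (nat_lit 0)) (.slot (nat_lit 0)) (.slot (nat_lit 0)))
def w2002 : Root := .mk (.col (nat_lit 0)) (.col (nat_lit 1)) (.node (.node (.node (.slot (nat_lit 0)) (.col (nat_lit 2)) (.slot (nat_lit 0))) (.col (nat_lit 0)) (.node (.col (nat_lit 2)) (.slot (nat_lit 2)) (.slot (nat_lit 2)))) (.col (nat_lit 2)) (.slot (nat_lit 2))) (.col (nat_lit 2))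
def w2004 : Root := .mk (.node (.node (.node (.slot (nat_lit 0)) (.col (nat_lit 2)) (.slot (nat_lit 0))) (.slot (nat_lit 7)) (.slot (nat_lit 5))) (.col (nat_lit 2)) (.node (.col (nat_lit 0)) (.slot (nat_lit 7)) (.slot (nat_lit 5)))) (.col (nat_lit 0)) (.col (nat_lit 2)) (.node (.col (nat_lit 2)) (.slot (nat_lit 0)) (.slot (nat_lit 0)))
def w2007 : Root := .mk (.col (nat_lit 0)) (.col (nat_lit 1)) (.node (.node (.node (.slot (nat_lit 0)) (.col (nat_lit 2)) (.slot (nat_lit 1))) (.col (nat_lit 1)) (.node (.col (nat_lit 3)) (.slot (nat_lit 0)) (.slot (nat_lit 0)))) (.col (nat_lit 2)) (.col (nat_lit 0))) (.col (nat_lit 2))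
def w2015 : Root := .mk (.col (nat_lit 1)) (.node (.col (nat_lit 0)) (.node (.slot (nat_lit 0)) (.col (nat_lit 0)) (.slot (nat_lit 0))) (.node (.slot (nat_lit 0)) (.slot (nat_lit 1)) (.slot (nat_lit 0)))) (.col (nat_lit 2)) (.slot (nat_lit 2))
def w2016 : Root := .mk (.col (nat_lit 0)) (.col (nat_lit 1)) (.node (.node (.node (.node (.col (nat_lit 0)) (.node (.slot (nat_lit 0)) (.col (nat_lit 0)) (.slot (nat_lit 0))) (.node (.slot (nat_lit 0)) (.slot (nat_lit 1)) (.slot (nat_lit 0)))) (.col (nat_lit 2)) (.slot (nat_lit 2))) (.slot (nat_lit 3)) (.slot (nat_lit 1))) (.col (nat_lit 2)) (.slot (nat_lit 1))) (.col (nat_lit 2))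
def w2017 : Root := .mk (.node (.node (.col (nat_lit 3)) (.slot (nat_lit 3)) (.slot (nat_lit 1))) (.col (nat_lit 2)) (.slot (nat_lit 2))) (.col (nat_lit 0)) (.node (.node (.col (nat_lit 0)) (.slot (nat_lit 1)) (.slot (nat_lit 0))) (.slot (nat_lit 7)) (.slot (nat_lit 5))) (.node (.slot (nat_lit 0)) (.col (nat_lit 1)) (.slot (nat_lit 0)))
def w2022 : Root := .mk (.node (.node (.node (.col (nat_lit 0)) (.col (nat_lit 1)) .junk) (.col (nat_lit 2)) (.slot (nat_lit 1))) (.slot (nat_lit 1)) (.slot (nat_lit 1))) (.col (nat_lit 1)) (.col (nat_lit 0)) (.slot (nat_lit 2))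
def w2024 : Root := .mk (.node (.slot (nat_lit 0)) (.slot (nat_lit 0)) (.slot (nat_lit 0))) (.node (.col (nat_lit 0)) (.node (.node (.col (nat_lit 0)) (.slot (nat_lit 12)) (.slot (nat_lit 10))) (.slot (nat_lit 7)) (.slot (nat_lit 5))) (.slot (nat_lit 8))) (.col (nat_lit 1)) (.slot (nat_lit 3))
def w2027 : Root := .mk (.col (nat_lit 1)) (.node (.col (nat_lit 0)) (.node (.slot (nat_lit 0)) (.slot (nat_lit 0)) (.slot (nat_lit 0))) (.slot (nat_lit 3))) (.node (.col (nat_lit 2)) (.slot (nat_lit 1)) (.slot (nat_lit 3))) (.slot (nat_lit 8))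
def w2031 : Root := .mk (.node (.node (.node (.col (nat_lit 0)) (.col (nat_lit 1)) .junk) (.col (nat_lit 2)) (.slot (nat_lit 1))) (.slot (nat_lit 1)) (.slot (nat_lit 0))) (.col (nat_lit 1)) (.col (nat_lit 2)) (.col (nat_lit 0))
def w2036 : Root := .mk (.node (.node (.node (.col (nat_lit 0)) (.col (nat_lit 1)) .junk) (.col (nat_lit 2)) (.slot (nat_lit 1))) (.slot (nat_lit 1)) (.slot (nat_lit 0))) (.node (.col (nat_lit 0)) (.node (.col (nat_lit 3)) (.slot (nat_lit 1)) (.slot (nat_lit 1))) (.slot (nat_lit 2))) (.col (nat_lit 3)) (.col (nat_lit 0))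
def w2037 : Root := .mk (.node (.slot (nat_lit 0)) (.slot (nat_lit 1)) (.slot (nat_lit 0))) (.node (.col (nat_lit 0)) (.node (.col (nat_lit 3)) (.slot (nat_lit 1)) (.slot (nat_lit 1))) (.slot (nat_lit 1))) (.col (nat_lit 3)) (.node (.col (nat_lit 3)) (.slot (nat_lit 0)) (.slot (nat_lit 0)))
def w2038 : Root := .mk (.col (nat_lit 0)) (.col (nat_lit 1)) (.node (.node (.node (.node (.col (nat_lit 0)) (.node (.col (nat_lit 3)) (.slot (nat_lit 3)) (.slot (nat_lit 1))) (.col (nat_lit 3))) (.col (nat_lit 3)) (.slot (nat_lit 3))) (.slot (nat_lit 3)) (.slot (nat_lit 1))) (.col (nat_lit 2)) (.slot (nat_lit 1))) (.col (nat_lit 2))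
def w2039 : Root := .mk (.node (.node (.node (.node (.slot (nat_lit 0)) (.col (nat_lit 2)) (.slot (nat_lit 0))) (.slot (nat_lit 7)) (.slot (nat_lit 5))) (.col (nat_lit 3)) (.slot (nat_lit 8))) (.col (nat_lit 0)) (.slot (nat_lit 8))) (.col (nat_lit 3)) (.col (nat_lit 0)) (.slot (nat_lit 4))
def l469 : Root := .mk (.col (nat_lit 0)) (.col (nat_lit 1)) (.node (.node (.node (.node (.col (nat_lit 0)) (.node (.col (nat_lit 3)) (.slot (nat_lit 4)) (.slot (nat_lit 4))) (.slot (nat_lit 8))) (.col (nat_lit 3)) (.slot (nat_lit 8))) (.slot (nat_lit 7)) (.slot (nat_lit 5))) (.col (nat_lit 2)) (.slot (nat_lit 1))) (.col (nat_lit 2))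
def w2042 : Root := .mk (.node (.col (nat_lit 1)) (.slot (nat_lit 7)) (.slot (nat_lit 5))) (.col (nat_lit 0)) (.node (.node (.col (nat_lit 0)) (.slot (nat_lit 7)) (.slot (nat_lit 5))) (.node (.col (nat_lit 1)) (.slot (nat_lit 4)) (.slot (nat_lit 1))) (.slot (nat_lit 1))) (.slot (nat_lit 8))
def w2046 : Root := .mk (.node (.node (.col (nat_lit 0)) (.node (.col (nat_lit 1)) (.slot (nat_lit 1)) (.slot (nat_lit 1))) (.slot (nat_lit 2))) (.col (nat_lit 0)) (.slot (nat_lit 2))) (.col (nat_lit 0)) (.node (.node (.col (nat_lit 0)) (.slot (nat_lit 0)) (.slot (nat_lit 0))) (.slot (nat_lit 7)) (.slot (nat_lit 5))) (.col (nat_lit 2))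
def w2047 : Root := .mk (.col (nat_lit 0)) (.node (.node (.col (nat_lit 0)) (.node (.node (.col (nat_lit 0)) (.slot (nat_lit 0)) (.slot (nat_lit 0))) (.slot (nat_lit 3)) (.slot (nat_lit 3))) (.col (nat_lit 2))) (.col (nat_lit 2)) (.col (nat_lit 1))) (.slot (nat_lit 0)) (.col (nat_lit 1))
def l470 : Root := .mk (.node (.col (nat_lit 0)) (.node (.col (nat_lit 1)) (.slot (nat_lit 3)) (.slot (nat_lit 1))) (.slot (nat_lit 2))) (.node (.col (nat_lit 0)) (.node (.node (.col (nat_lit 0)) (.slot (nat_lit 0)) (.slot (nat_lit 0))) (.slot (nat_lit 3)) (.slot (nat_lit 3))) (.col (nat_lit 2))) (.col (nat_lit 2)) (.col (nat_lit 1))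
def w2048 : Root := .mk (.node (.node (.col (nat_lit 0)) (.node (.col (nat_lit 1)) (.slot (nat_lit 3)) (.slot (nat_lit 1))) (.slot (nat_lit 2))) (.col (nat_lit 2)) (.slot (nat_lit 1))) (.col (nat_lit 0)) (.node (.node (.col (nat_lit 0)) (.slot (nat_lit 0)) (.slot (nat_lit 0))) (.slot (nat_lit 3)) (.slot (nat_lit 3))) (.col (nat_lit 2))
def w2049 : Root := .mk (.node (.node (.col (nat_lit 0)) (.node (.col (nat_lit 1)) (.slot (nat_lit 1)) (.slot (nat_lit 1))) (.slot (nat_lit 2))) (.node (.col (nat_lit 1)) (.slot (nat_lit 1)) (.slot (nat_lit 1))) (.slot (nat_lit 2))) (.col (nat_lit 0)) (.node (.slot (nat_lit 0)) (.slot (nat_lit 0)) (.slot (nat_lit 0))) (.col (nat_lit 2))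
def w2050 : Root := .mk (.node (.node (.col (nat_lit 0)) (.node (.col (nat_lit 1)) (.slot (nat_lit 1)) (.slot (nat_lit 1))) (.slot (nat_lit 3))) (.node (.col (nat_lit 2)) (.slot (nat_lit 0)) (.slot (nat_lit 0))) (.slot (nat_lit 1))) (.col (nat_lit 0)) (.node (.slot (nat_lit 0)) (.slot (nat_lit 0)) (.slot (nat_lit 0))) (.col (nat_lit 2))
def w2051 : Root := .mk (.node (.node (.col (nat_lit 0)) (.node (.col (nat_lit 1)) (.slot (nat_lit 1)) (.slot (nat_lit 1))) (.slot (nat_lit 3))) (.node (.col (nat_lit 3)) (.slot (nat_lit 0)) (.slot (nat_lit 0))) (.slot (nat_lit 1))) (.col (nat_lit 0)) (.node (.slot (nat_lit 0)) (.slot (nat_lit 0)) (.slot (nat_lit 0))) (.col (nat_lit 2))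
def w2052 : Root := .mk (.col (nat_lit 0)) (.node (.node (.col (nat_lit 0)) (.node (.node (.col (nat_lit 0)) (.slot (nat_lit 1)) (.slot (nat_lit 1))) (.slot (nat_lit 2)) (.slot (nat_lit 1))) (.col (nat_lit 2))) (.slot (nat_lit 2)) (.slot (nat_lit 2))) (.node (.col (nat_lit 1)) (.slot (nat_lit 0)) (.slot (nat_lit 0))) (.col (nat_lit 1))
def l471 : Root := .mk (.col (nat_lit 0)) (.node (.node (.col (nat_lit 0)) (.node (.node (.col (nat_lit 0)) (.slot (nat_lit 0)) (.slot (nat_lit 0))) (.slot (nat_lit 1)) (.slot (nat_lit 1))) (.col (nat_lit 2))) (.slot (nat_lit 2)) (.slot (nat_lit 2))) (.node (.col (nat_lit 1)) (.slot (nat_lit 2)) (.slot (nat_lit 2))) (.col (nat_lit 2))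
def w2053 : Root := .mk (.node (.node (.col (nat_lit 0)) (.node (.col (nat_lit 1)) (.slot (nat_lit 2)) (.slot (nat_lit 2))) (.node (.col (nat_lit 0)) (.slot (nat_lit 0)) (.slot (nat_lit 0)))) (.slot (nat_lit 2)) (.slot (nat_lit 2))) (.col (nat_lit 0)) (.node (.node (.col (nat_lit 0)) (.slot (nat_lit 0)) (.slot (nat_lit 0))) (.slot (nat_lit 1)) (.slot (nat_lit 1))) (.col (nat_lit 2))
def w2054 : Root := .mk (.node (.node (.col (nat_lit 0)) (.node (.col (nat_lit 1)) (.slot (nat_lit 1)) (.slot (nat_lit 1))) (.node (.col (nat_lit 2)) (.slot (nat_lit 1)) (.slot (nat_lit 0)))) (.slot (nat_lit 1)) (.slot (nat_lit 1))) (.col (nat_lit 0)) (.node (.node (.col (nat_lit 0)) (.slot (nat_lit 0)) (.slot (nat_lit 0))) (.slot (nat_lit 1)) (.slot (nat_lit 1))) (.col (nat_lit 2))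
def w2055 : Root := .mk (.node (.node (.col (nat_lit 0)) (.node (.col (nat_lit 1)) (.slot (nat_lit 2)) (.slot (nat_lit 2))) (.node (.slot (nat_lit 0)) (.slot (nat_lit 0)) (.slot (nat_lit 0)))) (.slot (nat_lit 2)) (.slot (nat_lit 2))) (.col (nat_lit 0)) (.node (.node (.col (nat_lit 0)) (.slot (nat_lit 0)) (.slot (nat_lit 0))) (.slot (nat_lit 1)) (.slot (nat_lit 1))) (.col (nat_lit 2))
def w2056 : Root := .mk (.node (.node (.col (nat_lit 0)) (.node (.col (nat_lit 1)) (.col (nat_lit 0)) (.slot (nat_lit 1))) (.slot (nat_lit 4))) (.slot (nat_lit 3)) (.slot (nat_lit 3))) (.col (nat_lit 0)) (.node (.node (.col (nat_lit 0)) (.slot (nat_lit 1)) (.slot (nat_lit 1))) (.slot (nat_lit 7)) (.slot (nat_lit 5))) (.col (nat_lit 2))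
def l472 : Root := .mk (.node (.node (.col (nat_lit 0)) (.node (.col (nat_lit 1)) (.slot (nat_lit 8)) (.slot (nat_lit 8))) (.slot (nat_lit 8))) (.slot (nat_lit 8)) (.slot (nat_lit 8))) (.col (nat_lit 0)) (.node (.node (.col (nat_lit 0)) (.slot (nat_lit 1)) (.slot (nat_lit 1))) (.slot (nat_lit 7)) (.slot (nat_lit 5))) (.col (nat_lit 2))
def w2057 : Root := .mk (.col (nat_lit 0)) (.node (.node (.col (nat_lit 0)) (.node (.node (.col (nat_lit 0)) (.slot (nat_lit 1)) (.slot (nat_lit 1))) (.slot (nat_lit 7)) (.slot (nat_lit 5))) (.slot (nat_lit 1))) (.slot (nat_lit 8)) (.slot (nat_lit 8))) (.node (.col (nat_lit 1)) (.slot (nat_lit 8)) (.slot (nat_lit 8))) (.slot (nat_lit 8))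
def w2058 : Root := .mk (.node .junk (.node (.col (nat_lit 1)) (.slot (nat_lit 0)) (.slot (nat_lit 0))) (.col (nat_lit 1))) (.node (.col (nat_lit 0)) (.node (.node (.col (nat_lit 0)) (.slot (nat_lit 3)) (.slot (nat_lit 1))) (.slot (nat_lit 1)) (.slot (nat_lit 1))) (.slot (nat_lit 3))) (.col (nat_lit 2)) (.col (nat_lit 0))
def l473 : Root := .mk (.col (nat_lit 0)) (.node (.node (.col (nat_lit 0)) (.node (.node (.col (nat_lit 0)) (.slot (nat_lit 3)) (.slot (nat_lit 1))) (.slot (nat_lit 1)) (.slot (nat_lit 1))) (.slot (nat_lit 3))) (.col (nat_lit 2)) (.slot (nat_lit 3))) (.node (.col (nat_lit 1)) (.slot (nat_lit 3)) (.slot (nat_lit 1))) (.col (nat_lit 1))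
def w2059 : Root := .mk (.col (nat_lit 0)) (.node (.node (.col (nat_lit 0)) (.node (.node (.col (nat_lit 0)) (.slot (nat_lit 3)) (.slot (nat_lit 1))) (.slot (nat_lit 1)) (.slot (nat_lit 1))) (.slot (nat_lit 3))) (.slot (nat_lit 1)) (.slot (nat_lit 3))) (.node (.col (nat_lit 1)) (.slot (nat_lit 3)) (.slot (nat_lit 1))) (.col (nat_lit 1))
def w2060 : Root := .mk (.col (nat_lit 0)) (.node (.node (.col (nat_lit 0)) (.node (.node (.col (nat_lit 0)) (.slot (nat_lit 3)) (.slot (nat_lit 1))) (.slot (nat_lit 1)) (.slot (nat_lit 1))) (.slot (nat_lit 3))) (.slot (nat_lit 1)) (.slot (nat_lit 1))) (.node (.col (nat_lit 1)) (.slot (nat_lit 1)) (.slot (nat_lit 1))) (.node (.col (nat_lit 0)) (.slot (nat_lit 0)) (.slot (nat_lit 0)))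
def w2061 : Root := .mk (.col (nat_lit 0)) (.node (.node (.col (nat_lit 0)) (.node (.node (.col (nat_lit 0)) (.slot (nat_lit 3)) (.slot (nat_lit 1))) (.slot (nat_lit 1)) (.slot (nat_lit 1))) (.slot (nat_lit 3))) (.slot (nat_lit 1)) (.slot (nat_lit 1))) (.node (.col (nat_lit 1)) (.slot (nat_lit 1)) (.slot (nat_lit 1))) (.node (.slot (nat_lit 0)) (.slot (nat_lit 0)) (.slot (nat_lit 0)))
def w2062 : Root := .mk (.node (.col (nat_lit 0)) (.node (.col (nat_lit 1)) (.slot (nat_lit 7)) (.slot (nat_lit 5))) (.slot (nat_lit 10))) (.node (.col (nat_lit 0)) (.node (.node (.col (nat_lit 0)) (.slot (nat_lit 0)) (.slot (nat_lit 0))) (.slot (nat_lit 7)) (.slot (nat_lit 5))) (.slot (nat_lit 10))) (.col (nat_lit 0)) (.slot (nat_lit 8))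
def l474 : Root := .mk (.node (.node (.col (nat_lit 0)) (.node (.col (nat_lit 1)) (.slot (nat_lit 1)) (.slot (nat_lit 0))) (.slot (nat_lit 1))) (.col (nat_lit 4)) (.slot (nat_lit 1))) (.col (nat_lit 0)) (.col (nat_lit 3)) (.col (nat_lit 2))
def w2063 : Root := .mk (.node (.node (.col (nat_lit 0)) (.node (.col (nat_lit 1)) (.slot (nat_lit 1)) (.slot (nat_lit 0))) (.slot (nat_lit 1))) (.node (.col (nat_lit 1)) (.slot (nat_lit 0)) (.slot (nat_lit 0))) (.slot (nat_lit 1))) (.col (nat_lit 0)) (.col (nat_lit 3)) (.col (nat_lit 2))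
def w2064 : Root := .mk (.node (.node (.col (nat_lit 0)) (.node (.col (nat_lit 1)) (.slot (nat_lit 1)) (.slot (nat_lit 1))) (.slot (nat_lit 2))) (.node (.col (nat_lit 1)) (.slot (nat_lit 1)) (.slot (nat_lit 1))) (.col (nat_lit 2))) (.col (nat_lit 0)) (.node (.slot (nat_lit 0)) (.slot (nat_lit 0)) (.slot (nat_lit 0))) (.col (nat_lit 2))
def w2065 : Root := .mk (.node (.node (.col (nat_lit 0)) (.node (.col (nat_lit 1)) (.slot (nat_lit 7)) (.slot (nat_lit 5))) (.slot (nat_lit 8))) (.node (.col (nat_lit 1)) (.slot (nat_lit 4)) (.slot (nat_lit 1))) (.node (.col (nat_lit 0)) (.slot (nat_lit 7)) (.slot (nat_lit 5)))) (.col (nat_lit 0)) (.slot (nat_lit 0)) (.col (nat_lit 2))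
def w2066 : Root := .mk (.node (.node (.col (nat_lit 0)) (.node (.col (nat_lit 1)) (.slot (nat_lit 1)) (.slot (nat_lit 1))) (.slot (nat_lit 2))) (.node (.col (nat_lit 1)) (.slot (nat_lit 1)) (.slot (nat_lit 1))) (.node (.col (nat_lit 1)) (.slot (nat_lit 1)) (.slot (nat_lit 1)))) (.col (nat_lit 0)) (.slot (nat_lit 0)) (.col (nat_lit 2))
def w2067 : Root := .mk (.node (.node (.col (nat_lit 0)) (.node (.col (nat_lit 1)) (.slot (nat_lit 1)) (.slot (nat_lit 1))) (.slot (nat_lit 2))) (.node (.col (nat_lit 1)) (.slot (nat_lit 0)) (.slot (nat_lit 0))) (.node (.col (nat_lit 2)) (.slot (nat_lit 1)) (.slot (nat_lit 0)))) (.col (nat_lit 0)) (.node (.slot (nat_lit 0)) (.slot (nat_lit 0)) (.slot (nat_lit 0))) (.col (nat_lit 2))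
def l475 : Root := .mk (.node (.col (nat_lit 4)) (.node (.col (nat_lit 1)) (.slot (nat_lit 1)) (.slot (nat_lit 0))) (.node (.col (nat_lit 3)) (.slot (nat_lit 1)) (.slot (nat_lit 0)))) (.col (nat_lit 0)) (.node (.col (nat_lit 4)) (.slot (nat_lit 3)) (.slot (nat_lit 3))) (.col (nat_lit 2))
def w2068 : Root := .mk (.node (.col (nat_lit 4)) (.node (.col (nat_lit 1)) (.slot (nat_lit 1)) (.slot (nat_lit 0))) (.node (.col (nat_lit 3)) (.slot (nat_lit 1)) (.slot (nat_lit 0)))) (.col (nat_lit 0)) (.node (.node (.col (nat_lit 0)) (.slot (nat_lit 0)) (.slot (nat_lit 0))) (.slot (nat_lit 3)) (.slot (nat_lit 3))) (.col (nat_lit 2))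
def w2069 : Root := .mk (.node (.node (.col (nat_lit 0)) (.node (.col (nat_lit 1)) (.slot (nat_lit 1)) (.slot (nat_lit 1))) (.slot (nat_lit 2))) (.node (.col (nat_lit 1)) (.slot (nat_lit 1)) (.slot (nat_lit 0))) (.node (.col (nat_lit 3)) (.slot (nat_lit 1)) (.slot (nat_lit 0)))) (.col (nat_lit 0)) (.node (.node (.col (nat_lit 0)) (.slot (nat_lit 0)) (.slot (nat_lit 0))) (.slot (nat_lit 3)) (.slot (nat_lit 3))) (.col (nat_lit 2))
def w2070 : Root := .mk (.node (.node (.col (nat_lit 0)) (.node (.col (nat_lit 1)) (.slot (nat_lit 1)) (.slot (nat_lit 1))) (.slot (nat_lit 2))) (.node (.col (nat_lit 1)) (.slot (nat_lit 1)) (.slot (nat_lit 0))) (.node (.slot (nat_lit 0)) (.slot (nat_lit 0)) (.slot (nat_lit 0)))) (.col (nat_lit 0)) (.node (.node (.col (nat_lit 0)) (.slot (nat_lit 0)) (.slot (nat_lit 0))) (.slot (nat_lit 2)) (.slot (nat_lit 2))) (.col (nat_lit 2))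
def l476 : Root := .mk (.node (.node (.col (nat_lit 0)) (.node (.col (nat_lit 1)) (.slot (nat_lit 2)) (.slot (nat_lit 1))) (.slot (nat_lit 2))) (.node (.col (nat_lit 1)) (.slot (nat_lit 1)) (.slot (nat_lit 1))) (.col (nat_lit 1))) (.col (nat_lit 0)) (.node (.col (nat_lit 2)) (.slot (nat_lit 1)) (.slot (nat_lit 1))) (.col (nat_lit 2))
def w2071 : Root := .mk (.node (.node (.col (nat_lit 0)) (.node (.col (nat_lit 1)) (.slot (nat_lit 2)) (.slot (nat_lit 1))) (.slot (nat_lit 2))) (.node (.col (nat_lit 1)) (.slot (nat_lit 1)) (.slot (nat_lit 1))) (.slot (nat_lit 1))) (.col (nat_lit 0)) (.node (.col (nat_lit 2)) (.slot (nat_lit 1)) (.slot (nat_lit 1))) (.col (nat_lit 2))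
def w2072 : Root := .mk (.node (.node (.col (nat_lit 0)) (.col (nat_lit 3)) (.slot (nat_lit 1))) (.node (.col (nat_lit 1)) (.slot (nat_lit 0)) (.slot (nat_lit 0))) (.col (nat_lit 1))) (.col (nat_lit 0)) (.node (.slot (nat_lit 0)) (.col (nat_lit 0)) (.slot (nat_lit 0))) (.col (nat_lit 2))
def w2073 : Root := .mk (.col (nat_lit 0)) (.node (.node (.col (nat_lit 0)) (.node (.slot (nat_lit 0)) (.col (nat_lit 0)) (.slot (nat_lit 0))) (.col (nat_lit 2))) (.node (.col (nat_lit 1)) (.slot (nat_lit 0)) (.slot (nat_lit 0))) (.col (nat_lit 1))) (.node (.col (nat_lit 1)) (.slot (nat_lit 0)) (.slot (nat_lit 0))) (.col (nat_lit 1))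
def w2074 : Root := .mk (.node (.node (.col (nat_lit 0)) (.node (.col (nat_lit 1)) (.slot (nat_lit 0)) (.slot (nat_lit 0))) (.slot (nat_lit 0))) (.node (.col (nat_lit 1)) (.slot (nat_lit 0)) (.slot (nat_lit 0))) (.col (nat_lit 1))) (.col (nat_lit 0)) (.node (.slot (nat_lit 0)) (.col (nat_lit 0)) (.slot (nat_lit 0))) (.col (nat_lit 2))
def w2075 : Root := .mk (.node (.node (.col (nat_lit 0)) (.slot (nat_lit 0)) (.slot (nat_lit 0))) (.node (.col (nat_lit 1)) (.col (nat_lit 2)) (.slot (nat_lit 1))) (.col (nat_lit 1))) (.col (nat_lit 0)) (.node (.slot (nat_lit 0)) (.col (nat_lit 0)) (.slot (nat_lit 0))) (.col (nat_lit 2))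
def w2076 : Root := .mk (.node (.node (.col (nat_lit 0)) (.node (.col (nat_lit 1)) (.slot (nat_lit 0)) (.slot (nat_lit 0))) (.slot (nat_lit 0))) (.node (.col (nat_lit 1)) (.col (nat_lit 3)) (.slot (nat_lit 0))) (.col (nat_lit 1))) (.col (nat_lit 0)) (.node (.slot (nat_lit 0)) (.col (nat_lit 0)) (.slot (nat_lit 0))) (.col (nat_lit 2))
def w2077 : Root := .mk (.node (.node (.col (nat_lit 0)) (.slot (nat_lit 0)) (.slot (nat_lit 0))) (.node (.col (nat_lit 1)) (.slot (nat_lit 0)) (.slot (nat_lit 0))) (.col (nat_lit 1))) (.col (nat_lit 0)) (.node (.col (nat_lit 3)) (.col (nat_lit 0)) (.slot (nat_lit 1))) (.col (nat_lit 2))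
def w2078 : Root := .mk (.node (.node (.node (.col (nat_lit 0)) (.slot (nat_lit 0)) (.slot (nat_lit 1))) (.node (.col (nat_lit 1)) (.slot (nat_lit 0)) (.slot (nat_lit 0))) (.col (nat_lit 1))) (.col (nat_lit 0)) (.col (nat_lit 2))) (.slot (nat_lit 0)) (.col (nat_lit 0)) (.col (nat_lit 3))
def l477 : Root := .mk (.node (.node (.col (nat_lit 0)) (.node (.col (nat_lit 1)) (.slot (nat_lit 2)) (.slot (nat_lit 2))) (.slot (nat_lit 2))) (.node (.col (nat_lit 1)) (.slot (nat_lit 1)) (.slot (nat_lit 1))) (.col (nat_lit 1))) (.col (nat_lit 0)) (.node (.slot (nat_lit 0)) (.col (nat_lit 0)) (.slot (nat_lit 1))) (.col (nat_lit 2))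
def w2079 : Root := .mk (.node (.node (.col (nat_lit 0)) (.node (.col (nat_lit 1)) (.slot (nat_lit 2)) (.slot (nat_lit 2))) (.slot (nat_lit 2))) (.node (.col (nat_lit 1)) (.slot (nat_lit 1)) (.slot (nat_lit 1))) (.slot (nat_lit 1))) (.col (nat_lit 0)) (.node (.slot (nat_lit 0)) (.col (nat_lit 0)) (.slot (nat_lit 1))) (.col (nat_lit 2))
def w2080 : Root := .mk (.node (.node (.col (nat_lit 0)) (.node (.col (nat_lit 1)) (.slot (nat_lit 1)) (.slot (nat_lit 0))) (.slot (nat_lit 1))) (.node (.col (nat_lit 1)) (.slot (nat_lit 0)) (.slot (nat_lit 0))) (.slot (nat_lit 1))) (.col (nat_lit 0)) (.node (.node (.col (nat_lit 0)) (.slot (nat_lit 1)) (.slot (nat_lit 1))) (.col (nat_lit 2)) (.slot (nat_lit 2))) (.col (nat_lit 2))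
def l478 : Root := .mk (.node .junk (.col (nat_lit 3)) (.col (nat_lit 2))) (.node (.col (nat_lit 0)) (.node (.col (nat_lit 2)) (.col (nat_lit 1)) (.slot (nat_lit 1))) (.col (nat_lit 2))) (.col (nat_lit 4)) (.col (nat_lit 0))
def w2081 : Root := .mk (.node (.node .junk (.col (nat_lit 3)) (.col (nat_lit 2))) (.node (.col (nat_lit 1)) (.slot (nat_lit 0)) (.slot (nat_lit 0))) (.col (nat_lit 0))) (.col (nat_lit 0)) (.node (.col (nat_lit 2)) (.col (nat_lit 1)) (.slot (nat_lit 1))) (.col (nat_lit 2))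
def l479 : Root := .mk (.node (.col (nat_lit 0)) (.col (nat_lit 3)) .junk) (.node (.col (nat_lit 0)) (.node (.col (nat_lit 2)) (.col (nat_lit 1)) (.slot (nat_lit 1))) (.col (nat_lit 2))) (.col (nat_lit 4)) (.col (nat_lit 2))
def w2082 : Root := .mk (.node (.node (.col (nat_lit 0)) (.col (nat_lit 3)) .junk) (.node (.col (nat_lit 1)) (.slot (nat_lit 0)) (.slot (nat_lit 0))) (.col (nat_lit 2))) (.col (nat_lit 0)) (.node (.col (nat_lit 2)) (.col (nat_lit 1)) (.slot (nat_lit 1))) (.col (nat_lit 2))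
def l480 : Root := .mk (.col (nat_lit 0)) (.node (.node (.col (nat_lit 0)) (.node .junk (.col (nat_lit 1)) (.slot (nat_lit 1))) (.col (nat_lit 2))) (.col (nat_lit 4)) (.node (.col (nat_lit 1)) (.slot (nat_lit 0)) (.slot (nat_lit 0)))) (.col (nat_lit 3)) (.col (nat_lit 2))
def w2083 : Root := .mk (.col (nat_lit 0)) (.node (.node (.col (nat_lit 0)) (.node .junk (.col (nat_lit 1)) (.slot (nat_lit 1))) (.col (nat_lit 2))) (.node (.col (nat_lit 1)) (.slot (nat_lit 0)) (.slot (nat_lit 0))) (.node (.col (nat_lit 1)) (.slot (nat_lit 0)) (.slot (nat_lit 0)))) (.col (nat_lit 3)) (.col (nat_lit 2))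
def w2084 : Root := .mk (.col (nat_lit 0)) (.node (.node (.col (nat_lit 0)) (.node .junk (.col (nat_lit 1)) (.slot (nat_lit 1))) (.col (nat_lit 2))) (.node (.col (nat_lit 1)) (.slot (nat_lit 0)) (.slot (nat_lit 0))) (.node (.col (nat_lit 3)) (.slot (nat_lit 0)) (.slot (nat_lit 0)))) (.col (nat_lit 3)) (.col (nat_lit 2))
def w2085 : Root := .mk (.col (nat_lit 0)) (.node (.node (.col (nat_lit 0)) (.node .junk (.col (nat_lit 1)) (.slot (nat_lit 1))) (.col (nat_lit 2))) (.slot (nat_lit 0)) (.node (.col (nat_lit 4)) (.slot (nat_lit 0)) (.slot (nat_lit 0)))) (.col (nat_lit 3)) (.col (nat_lit 2))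
def w2086 : Root := .mk (.node (.node (.col (nat_lit 0)) (.col (nat_lit 3)) (.col (nat_lit 2))) (.node (.col (nat_lit 1)) (.slot (nat_lit 0)) (.slot (nat_lit 0))) (.slot (nat_lit 1))) (.col (nat_lit 0)) (.col (nat_lit 4)) (.col (nat_lit 2))
def w2087 : Root := .mk (.col (nat_lit 0)) (.node (.node (.col (nat_lit 0)) (.slot (nat_lit 0)) (.col (nat_lit 2))) (.node (.col (nat_lit 1)) (.col (nat_lit 3)) (.slot (nat_lit 0))) (.slot (nat_lit 1))) (.col (nat_lit 3)) (.col (nat_lit 2))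
def w2088 : Root := .mk (.col (nat_lit 0)) (.node (.node (.col (nat_lit 0)) (.node .junk (.col (nat_lit 1)) (.slot (nat_lit 1))) (.col (nat_lit 2))) (.slot (nat_lit 0)) (.slot (nat_lit 1))) (.col (nat_lit 3)) (.col (nat_lit 2))
def l481 : Root := .mk (.col (nat_lit 0)) (.node (.node (.col (nat_lit 0)) (.node (.col (nat_lit 2)) (.col (nat_lit 1)) (.slot (nat_lit 1))) (.col (nat_lit 2))) (.node (.col (nat_lit 1)) (.slot (nat_lit 0)) (.slot (nat_lit 0))) (.slot (nat_lit 1))) (.col (nat_lit 3)) (.col (nat_lit 2))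

end Pool.Agent.W319.GCI.K5
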