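import Pool.Agent.W319.GCI.K5Base
set_option autoImplicit false
set_option maxRecDepth 100000
set_option linter.all false
namespace Pool.Agent.W319.GCI.K5
open Pool.Agent.W319.GCI

def w12769 : Root := .mk (.node (.node (.col (nat_lit 0)) (.col (nat_lit 1)) (.slot (nat_lit 8))) (.slot (nat_lit 8)) (.slot (nat_lit 8))) (.col (nat_lit 2)) (.node (.col (nat_lit 2)) (.node (.node (.col (nat_lit 2)) (.slot (nat_lit 3)) (.slot (nat_lit 1))) (.slot (nat_lit 7)) (.slot (nat_lit 5))) (.slot (nat_lit 8))) (.node (.node (.col (nat_lit 3)) (.slot (nat_lit 8)) (.slot (nat_lit 8))) (.slot (nat_lit 1)) (.slot (nat_lit 8)))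
def w12770 : Root := .mk (.node (.node (.col (nat_lit 0)) (.col (nat_lit 1)) (.slot (nat_lit 2))) (.slot (nat_lit 1)) (.slot (nat_lit 1))) (.col (nat_lit 2)) (.node (.col (nat_lit 2)) (.node (.node (.col (nat_lit 2)) (.slot (nat_lit 7)) (.slot (nat_lit 5))) (.slot (nat_lit 3)) (.slot (nat_lit 1))) (.slot (nat_lit 8))) (.node (.node (.slot (nat_lit 0)) (.slot (nat_lit 0)) (.slot (nat_lit 0))) (.slot (nat_lit 3)) (.slot (nat_lit 3)))
def w12771 : Root := .mk (.col (nat_lit 0)) (.col (nat_lit 1)) (.node (.node (.col (nat_lit 2)) (.node (.col (nat_lit 2)) (.node (.col (nat_lit 3)) (.slot (nat_lit 8)) (.slot (nat_lit 8))) (.slot (nat_lit 8))) (.slot (nat_lit 10))) (.slot (nat_lit 9)) (.slot (nat_lit 9))) (.slot (nat_lit 4))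
def w12772 : Root := .mk (.node (.node (.node (.node (.col (nat_lit 0)) (.col (nat_lit 1)) (.slot (nat_lit 2))) (.slot (nat_lit 1)) (.slot (nat_lit 1))) (.col (nat_lit 2)) (.slot (nat_lit 3))) (.col (nat_lit 2)) (.slot (nat_lit 1))) (.col (nat_lit 3)) (.col (nat_lit 2)) (.slot (nat_lit 3))
def w12773 : Root := .mk (.col (nat_lit 0)) (.col (nat_lit 1)) (.node (.node (.col (nat_lit 2)) (.node (.col (nat_lit 2)) (.node (.node (.col (nat_lit 2)) (.node (.col (nat_lit 0)) (.slot (nat_lit 1)) (.slot (nat_lit 1))) (.slot (nat_lit 2))) (.col (nat_lit 2)) (.slot (nat_lit 3))) (.slot (nat_lit 1))) (.slot (nat_lit 3))) (.slot (nat_lit 1)) (.slot (nat_lit 1))) (.slot (nat_lit 2))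
def l2956 : Root := .mk (.col (nat_lit 0)) (.col (nat_lit 1)) (.node (.node (.col (nat_lit 2)) (.node (.col (nat_lit 2)) (.node (.col (nat_lit 0)) (.col (nat_lit 2)) (.slot (nat_lit 8))) (.slot (nat_lit 8))) (.slot (nat_lit 8))) (.col (nat_lit 3)) (.slot (nat_lit 2))) (.slot (nat_lit 8))
def w12774 : Root := .mk (.node (.node (.node (.node (.col (nat_lit 0)) (.col (nat_lit 1)) (.slot (nat_lit 8))) (.slot (nat_lit 1)) (.slot (nat_lit 2))) (.col (nat_lit 2)) (.slot (nat_lit 8))) (.col (nat_lit 2)) (.slot (nat_lit 8))) (.col (nat_lit 0)) (.col (nat_lit 2)) (.slot (nat_lit 8))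
def w12775 : Root := .mk (.node (.node (.node (.node (.node (.col (nat_lit 0)) (.col (nat_lit 1)) (.slot (nat_lit 8))) (.slot (nat_lit 8)) (.slot (nat_lit 8))) (.col (nat_lit 2)) (.slot (nat_lit 1))) (.col (nat_lit 2)) (.slot (nat_lit 8))) (.col (nat_lit 2)) (.slot (nat_lit 8))) (.col (nat_lit 2)) (.col (nat_lit 1)) (.slot (nat_lit 2))
def w12776 : Root := .mk (.node (.node (.node (.node (.node (.col (nat_lit 0)) (.col (nat_lit 1)) (.slot (nat_lit 8))) (.slot (nat_lit 8)) (.slot (nat_lit 8))) (.col (nat_lit 2)) (.slot (nat_lit 1))) (.col (nat_lit 2)) (.slot (nat_lit 8))) (.col (nat_lit 2)) (.slot (nat_lit 8))) (.col (nat_lit 2)) (.col (nat_lit 3)) (.slot (nat_lit 2))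
def w12777 : Root := .mk (.node (.node (.node (.node (.node (.col (nat_lit 0)) (.col (nat_lit 1)) (.slot (nat_lit 8))) (.slot (nat_lit 8)) (.slot (nat_lit 8))) (.col (nat_lit 2)) (.slot (nat_lit 1))) (.col (nat_lit 2)) (.slot (nat_lit 8))) (.col (nat_lit 2)) (.slot (nat_lit 3))) (.col (nat_lit 2)) (.node (.col (nat_lit 0)) (.slot (nat_lit 3)) (.slot (nat_lit 1))) (.col (nat_lit 0))
def w12778 : Root := .mk (.node (.node (.node (.node (.node (.col (nat_lit 0)) (.col (nat_lit 1)) (.slot (nat_lit 2))) (.slot (nat_lit 1)) (.slot (nat_lit 1))) (.col (nat_lit 2)) (.slot (nat_lit 3))) (.col (nat_lit 2)) (.slot (nat_lit 1))) (.col (nat_lit 2)) (.slot (nat_lit 3))) (.col (nat_lit 2)) (.node (.col (nat_lit 0)) (.slot (nat_lit 7)) (.slot (nat_lit 5))) (.node (.col (nat_lit 2)) (.slot (nat_lit 2)) (.slot (nat_lit 1)))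
def w12779 : Root := .mk (.node (.node (.node (.node (.node (.col (nat_lit 0)) (.col (nat_lit 1)) (.slot (nat_lit 2))) (.slot (nat_lit 1)) (.slot (nat_lit 1))) (.col (nat_lit 2)) (.slot (nat_lit 3))) (.col (nat_lit 2)) (.slot (nat_lit 1))) (.col (nat_lit 2)) (.slot (nat_lit 3))) (.col (nat_lit 2)) (.node (.col (nat_lit 0)) (.slot (nat_lit 1)) (.slot (nat_lit 1))) (.node (.node (.col (nat_lit 0)) (.slot (nat_lit 0)) (.slot (nat_lit 0))) (.slot (nat_lit 2)) (.slot (nat_lit 1)))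
def w12780 : Root := .mk (.node (.node (.node (.node (.node (.col (nat_lit 0)) (.col (nat_lit 1)) (.slot (nat_lit 2))) (.slot (nat_lit 1)) (.slot (nat_lit 1))) (.col (nat_lit 2)) (.slot (nat_lit 3))) (.col (nat_lit 2)) (.slot (nat_lit 1))) (.col (nat_lit 2)) (.slot (nat_lit 3))) (.col (nat_lit 2)) (.node (.col (nat_lit 0)) (.slot (nat_lit 1)) (.slot (nat_lit 1))) (.node (.node (.col (nat_lit 1)) (.slot (nat_lit 0)) (.slot (nat_lit 0))) (.slot (nat_lit 1)) (.slot (nat_lit 1)))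
def w12781 : Root := .mk (.node (.node (.node (.node (.node (.col (nat_lit 0)) (.col (nat_lit 1)) (.slot (nat_lit 2))) (.slot (nat_lit 1)) (.slot (nat_lit 1))) (.col (nat_lit 2)) (.slot (nat_lit 3))) (.col (nat_lit 2)) (.slot (nat_lit 1))) (.col (nat_lit 2)) (.slot (nat_lit 3))) (.col (nat_lit 2)) (.node (.col (nat_lit 0)) (.slot (nat_lit 1)) (.slot (nat_lit 1))) (.node (.node (.col (nat_lit 3)) (.slot (nat_lit 0)) (.slot (nat_lit 0))) (.slot (nat_lit 1)) (.slot (nat_lit 1)))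
def w12782 : Root := .mk (.node (.col (nat_lit 2)) (.slot (nat_lit 0)) (.slot (nat_lit 0))) (.col (nat_lit 2)) (.node (.col (nat_lit 2)) (.node (.node (.col (nat_lit 2)) (.node (.col (nat_lit 0)) (.slot (nat_lit 3)) (.slot (nat_lit 1))) (.slot (nat_lit 2))) (.col (nat_lit 2)) (.col (nat_lit 1))) (.col (nat_lit 3))) (.col (nat_lit 0))
def w12783 : Root := .mk (.node (.slot (nat_lit 0)) (.col (nat_lit 0)) (.slot (nat_lit 0))) (.col (nat_lit 2)) (.node (.col (nat_lit 2)) (.node (.node (.col (nat_lit 2)) (.node (.col (nat_lit 0)) (.slot (nat_lit 3)) (.slot (nat_lit 1))) (.slot (nat_lit 2))) (.col (nat_lit 2)) (.col (nat_lit 1))) (.col (nat_lit 3))) (.col (nat_lit 0))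
def w12784 : Root := .mk (.node (.col (nat_lit 0)) (.col (nat_lit 1)) (.slot (nat_lit 1))) (.node (.col (nat_lit 2)) (.node (.col (nat_lit 2)) (.node (.slot (nat_lit 0)) (.col (nat_lit 2)) (.col (nat_lit 1))) (.col (nat_lit 3))) (.col (nat_lit 0))) (.col (nat_lit 3)) (.col (nat_lit 0))
def l2957 : Root := .mk (.node (.node (.col (nat_lit 0)) (.col (nat_lit 1)) (.slot (nat_lit 1))) (.col (nat_lit 3)) (.slot (nat_lit 3))) (.col (nat_lit 2)) (.node (.col (nat_lit 2)) (.node (.slot (nat_lit 0)) (.col (nat_lit 2)) (.col (nat_lit 1))) (.col (nat_lit 3))) (.col (nat_lit 0))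
def w12785 : Root := .mk (.node (.node (.node (.node (.col (nat_lit 0)) (.col (nat_lit 1)) (.slot (nat_lit 1))) (.slot (nat_lit 1)) (.slot (nat_lit 3))) (.col (nat_lit 2)) (.col (nat_lit 0))) (.col (nat_lit 2)) (.col (nat_lit 3))) (.slot (nat_lit 0)) (.col (nat_lit 2)) (.col (nat_lit 1))
def l2958 : Root := .mk (.node (.node (.node (.col (nat_lit 0)) (.col (nat_lit 1)) (.slot (nat_lit 2))) (.slot (nat_lit 3)) (.slot (nat_lit 1))) (.col (nat_lit 2)) (.col (nat_lit 0))) (.col (nat_lit 2)) (.node (.node (.col (nat_lit 2)) (.node (.col (nat_lit 0)) (.slot (nat_lit 3)) (.slot (nat_lit 1))) (.slot (nat_lit 2))) (.col (nat_lit 2)) (.col (nat_lit 1))) (.col (nat_lit 3))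
def w12786 : Root := .mk (.node (.node (.col (nat_lit 0)) (.col (nat_lit 1)) (.slot (nat_lit 2))) (.slot (nat_lit 3)) (.slot (nat_lit 1))) (.col (nat_lit 2)) (.node (.col (nat_lit 2)) (.node (.node (.col (nat_lit 2)) (.node (.col (nat_lit 0)) (.slot (nat_lit 3)) (.slot (nat_lit 1))) (.slot (nat_lit 2))) (.col (nat_lit 2)) (.col (nat_lit 1))) (.slot (nat_lit 1))) (.col (nat_lit 0))
def w12787 : Root := .mk (.node (.node (.col (nat_lit 0)) (.col (nat_lit 1)) (.slot (nat_lit 0))) (.slot (nat_lit 1)) (.slot (nat_lit 1))) (.col (nat_lit 2)) (.node (.col (nat_lit 2)) (.node (.node (.col (nat_lit 2)) (.node (.col (nat_lit 0)) (.slot (nat_lit 1)) (.slot (nat_lit 1))) (.slot (nat_lit 2))) (.col (nat_lit 2)) (.col (nat_lit 1))) (.slot (nat_lit 1))) (.col (nat_lit 1))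
def w12788 : Root := .mk (.node (.node (.col (nat_lit 0)) (.col (nat_lit 1)) (.slot (nat_lit 8))) (.slot (nat_lit 8)) (.slot (nat_lit 8))) (.col (nat_lit 2)) (.node (.col (nat_lit 2)) (.node (.slot (nat_lit 0)) (.col (nat_lit 2)) (.col (nat_lit 1))) (.slot (nat_lit 8))) (.col (nat_lit 4))
def w12789 : Root := .mk (.node (.col (nat_lit 2)) (.col (nat_lit 1)) (.slot (nat_lit 1))) (.col (nat_lit 2)) (.node (.col (nat_lit 2)) (.node (.col (nat_lit 3)) .junk (.col (nat_lit 1))) (.slot (nat_lit 1))) (.node (.col (nat_lit 3)) (.slot (nat_lit 1)) (.slot (nat_lit 1)))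
def w12790 : Root := .mk (.node (.node (.node (.col (nat_lit 2)) (.col (nat_lit 1)) (.slot (nat_lit 1))) (.col (nat_lit 2)) (.node (.col (nat_lit 3)) (.slot (nat_lit 1)) (.slot (nat_lit 1)))) (.col (nat_lit 2)) (.slot (nat_lit 1))) (.node (.col (nat_lit 2)) (.node (.col (nat_lit 0)) (.slot (nat_lit 1)) (.slot (nat_lit 1))) (.slot (nat_lit 2))) (.col (nat_lit 2)) (.col (nat_lit 1))
def w12791 : Root := .mk (.node (.node (.node (.col (nat_lit 2)) (.col (nat_lit 4)) (.slot (nat_lit 1))) (.col (nat_lit 2)) (.node (.col (nat_lit 3)) (.slot (nat_lit 1)) (.slot (nat_lit 1)))) (.col (nat_lit 2)) (.slot (nat_lit 1))) (.node (.col (nat_lit 2)) (.node (.col (nat_lit 0)) (.slot (nat_lit 1)) (.slot (nat_lit 1))) (.slot (nat_lit 2))) (.col (nat_lit 2)) (.col (nat_lit 1))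
def w12792 : Root := .mk (.col (nat_lit 2)) (.node (.col (nat_lit 2)) (.node (.col (nat_lit 2)) (.node (.node (.col (nat_lit 2)) (.node (.col (nat_lit 0)) (.slot (nat_lit 1)) (.slot (nat_lit 1))) (.slot (nat_lit 2))) (.col (nat_lit 2)) (.col (nat_lit 1))) (.slot (nat_lit 1))) (.node (.col (nat_lit 3)) (.slot (nat_lit 1)) (.slot (nat_lit 1)))) (.node (.col (nat_lit 0)) (.slot (nat_lit 0)) (.slot (nat_lit 0))) (.col (nat_lit 0))
def w12793 : Root := .mk (.node (.node (.node (.col (nat_lit 2)) (.node (.col (nat_lit 0)) (.slot (nat_lit 1)) (.slot (nat_lit 1))) (.node (.col (nat_lit 2)) (.slot (nat_lit 0)) (.slot (nat_lit 0)))) (.col (nat_lit 2)) (.node (.col (nat_lit 3)) (.slot (nat_lit 1)) (.slot (nat_lit 0)))) (.col (nat_lit 2)) (.slot (nat_lit 1))) (.node (.col (nat_lit 2)) (.node (.col (nat_lit 0)) (.slot (nat_lit 1)) (.slot (nat_lit 1))) (.slot (nat_lit 2))) (.col (nat_lit 2)) (.col (nat_lit 1))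
def w12794 : Root := .mk (.node (.node (.node (.col (nat_lit 2)) (.node (.col (nat_lit 0)) (.slot (nat_lit 1)) (.slot (nat_lit 1))) (.node (.slot (nat_lit 0)) (.slot (nat_lit 0)) (.slot (nat_lit 0)))) (.col (nat_lit 2)) (.node (.col (nat_lit 3)) (.slot (nat_lit 1)) (.slot (nat_lit 0)))) (.col (nat_lit 2)) (.slot (nat_lit 1))) (.node (.col (nat_lit 2)) (.node (.col (nat_lit 0)) (.slot (nat_lit 1)) (.slot (nat_lit 1))) (.slot (nat_lit 2))) (.col (nat_lit 2)) (.col (nat_lit 1))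
def w12795 : Root := .mk (.node (.col (nat_lit 2)) (.node (.col (nat_lit 0)) (.slot (nat_lit 1)) (.slot (nat_lit 1))) (.slot (nat_lit 2))) (.col (nat_lit 2)) (.node (.col (nat_lit 2)) (.node (.node (.col (nat_lit 2)) (.node (.col (nat_lit 0)) (.slot (nat_lit 1)) (.slot (nat_lit 1))) (.slot (nat_lit 2))) (.col (nat_lit 2)) (.col (nat_lit 1))) (.slot (nat_lit 1))) (.col (nat_lit 1))
def w12796 : Root := .mk (.node (.col (nat_lit 2)) (.node (.col (nat_lit 0)) (.slot (nat_lit 1)) (.slot (nat_lit 1))) (.slot (nat_lit 2))) (.col (nat_lit 2)) (.node (.col (nat_lit 2)) (.node (.node (.col (nat_lit 2)) (.node (.col (nat_lit 0)) (.slot (nat_lit 1)) (.slot (nat_lit 1))) (.slot (nat_lit 2))) (.col (nat_lit 2)) (.col (nat_lit 1))) (.slot (nat_lit 1))) (.col (nat_lit 4))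
def w12797 : Root := .mk (.node (.node (.node (.col (nat_lit 2)) (.node (.col (nat_lit 0)) (.col (nat_lit 2)) (.slot (nat_lit 1))) (.slot (nat_lit 1))) (.col (nat_lit 2)) (.node (.col (nat_lit 3)) (.slot (nat_lit 1)) (.slot (nat_lit 1)))) (.col (nat_lit 2)) (.slot (nat_lit 1))) (.node (.col (nat_lit 2)) (.node (.col (nat_lit 0)) (.slot (nat_lit 1)) (.slot (nat_lit 1))) (.slot (nat_lit 2))) (.col (nat_lit 2)) (.col (nat_lit 1))
def w12798 : Root := .mk (.node (.node (.node (.col (nat_lit 2)) (.node (.col (nat_lit 0)) (.slot (nat_lit 1)) (.slot (nat_lit 1))) (.slot (nat_lit 2))) (.col (nat_lit 2)) (.node (.col (nat_lit 3)) (.col (nat_lit 2)) (.slot (nat_lit 3)))) (.col (nat_lit 2)) (.slot (nat_lit 3))) (.slot (nat_lit 0)) (.col (nat_lit 2)) (.col (nat_lit 1))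
def l2959 : Root := .mk (.node (.node (.node (.col (nat_lit 2)) (.node (.col (nat_lit 0)) (.slot (nat_lit 8)) (.slot (nat_lit 8))) (.slot (nat_lit 8))) (.col (nat_lit 2)) (.node (.col (nat_lit 3)) (.slot (nat_lit 8)) (.slot (nat_lit 8)))) (.col (nat_lit 2)) (.slot (nat_lit 4))) (.node (.col (nat_lit 2)) (.node (.col (nat_lit 0)) (.slot (nat_lit 1)) (.slot (nat_lit 1))) (.slot (nat_lit 3))) (.col (nat_lit 2)) (.col (nat_lit 1))
def w12799 : Root := .mk (.node (.node (.node (.col (nat_lit 2)) (.slot (nat_lit 9)) (.slot (nat_lit 8))) (.col (nat_lit 2)) (.node (.col (nat_lit 3)) (.slot (nat_lit 8)) (.slot (nat_lit 8)))) (.col (nat_lit 2)) (.slot (nat_lit 4))) (.node (.col (nat_lit 2)) (.node (.col (nat_lit 0)) (.slot (nat_lit 1)) (.slot (nat_lit 1))) (.slot (nat_lit 3))) (.col (nat_lit 2)) (.col (nat_lit 1))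
def w12800 : Root := .mk (.node (.node (.node (.col (nat_lit 4)) (.slot (nat_lit 1)) (.slot (nat_lit 0))) (.col (nat_lit 2)) (.node (.col (nat_lit 3)) (.slot (nat_lit 1)) (.slot (nat_lit 1)))) (.col (nat_lit 2)) (.slot (nat_lit 1))) (.node (.col (nat_lit 2)) (.node (.col (nat_lit 0)) (.slot (nat_lit 1)) (.slot (nat_lit 1))) (.slot (nat_lit 2))) (.col (nat_lit 2)) (.col (nat_lit 1))
def w12801 : Root := .mk (.node (.node (.node (.slot (nat_lit 0)) (.col (nat_lit 0)) (.slot (nat_lit 1))) (.col (nat_lit 2)) (.node (.col (nat_lit 3)) (.slot (nat_lit 1)) (.slot (nat_lit 1)))) (.col (nat_lit 2)) (.slot (nat_lit 1))) (.node (.col (nat_lit 2)) (.node (.col (nat_lit 0)) (.slot (nat_lit 1)) (.slot (nat_lit 1))) (.slot (nat_lit 2))) (.col (nat_lit 2)) (.col (nat_lit 1))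
def w12802 : Root := .mk (.node (.node (.node (.slot (nat_lit 0)) (.col (nat_lit 1)) (.slot (nat_lit 1))) (.col (nat_lit 2)) (.node (.col (nat_lit 3)) (.slot (nat_lit 1)) (.slot (nat_lit 1)))) (.col (nat_lit 2)) (.slot (nat_lit 1))) (.node (.col (nat_lit 2)) (.node (.col (nat_lit 0)) (.slot (nat_lit 1)) (.slot (nat_lit 1))) (.slot (nat_lit 2))) (.col (nat_lit 2)) (.col (nat_lit 1))
def w12803 : Root := .mk (.node (.node (.node (.node (.col (nat_lit 0)) (.col (nat_lit 1)) (.slot (nat_lit 2))) (.node (.col (nat_lit 3)) (.slot (nat_lit 1)) (.slot (nat_lit 1))) (.slot (nat_lit 2))) (.col (nat_lit 2)) (.node (.col (nat_lit 3)) (.slot (nat_lit 7)) (.slot (nat_lit 5)))) (.col (nat_lit 2)) (.slot (nat_lit 3))) (.slot (nat_lit 0)) (.col (nat_lit 2)) (.col (nat_lit 1))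
def w12807 : Root := .mk (.col (nat_lit 0)) (.col (nat_lit 1)) (.node (.node (.col (nat_lit 2)) (.node (.col (nat_lit 2)) (.node (.col (nat_lit 3)) .junk (.col (nat_lit 1))) (.slot (nat_lit 1))) (.node (.col (nat_lit 3)) (.slot (nat_lit 1)) .junk)) (.slot (nat_lit 1)) (.slot (nat_lit 0))) (.col (nat_lit 3))
def w12808 : Root := .mk (.col (nat_lit 0)) (.col (nat_lit 1)) (.node (.node (.col (nat_lit 2)) (.node (.col (nat_lit 2)) (.node (.node (.col (nat_lit 2)) (.node (.col (nat_lit 0)) (.slot (nat_lit 1)) (.slot (nat_lit 1))) (.slot (nat_lit 2))) (.col (nat_lit 2)) (.col (nat_lit 1))) (.slot (nat_lit 1))) (.node (.col (nat_lit 3)) (.slot (nat_lit 1)) .junk)) (.slot (nat_lit 1)) (.slot (nat_lit 0))) (.col (nat_lit 3))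
def w12809 : Root := .mk (.col (nat_lit 0)) (.col (nat_lit 1)) (.node (.node (.col (nat_lit 2)) (.node (.col (nat_lit 2)) (.node (.slot (nat_lit 0)) (.col (nat_lit 2)) (.col (nat_lit 1))) (.slot (nat_lit 10))) (.node (.col (nat_lit 3)) (.slot (nat_lit 7)) (.slot (nat_lit 5)))) (.slot (nat_lit 7)) (.slot (nat_lit 5))) (.col (nat_lit 4))
def w12810 : Root := .mk (.col (nat_lit 0)) (.col (nat_lit 1)) (.node (.node (.col (nat_lit 2)) (.node (.col (nat_lit 2)) (.node (.node (.col (nat_lit 2)) (.node (.col (nat_lit 0)) (.slot (nat_lit 1)) (.slot (nat_lit 1))) (.slot (nat_lit 2))) (.col (nat_lit 2)) (.col (nat_lit 1))) (.slot (nat_lit 1))) (.node (.col (nat_lit 3)) (.slot (nat_lit 1)) (.slot (nat_lit 0)))) (.slot (nat_lit 1)) (.slot (nat_lit 1))) (.node (.slot (nat_lit 0)) (.slot (nat_lit 0)) (.slot (nat_lit 0)))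
def l2960 : Root := .mk (.node (.node (.node (.node (.col (nat_lit 0)) (.col (nat_lit 1)) (.slot (nat_lit 8))) (.slot (nat_lit 9)) (.slot (nat_lit 8))) (.col (nat_lit 2)) (.node (.col (nat_lit 3)) (.slot (nat_lit 8)) (.slot (nat_lit 8)))) (.col (nat_lit 2)) (.slot (nat_lit 10))) (.node (.col (nat_lit 2)) (.node (.col (nat_lit 0)) (.slot (nat_lit 3)) (.slot (nat_lit 1))) (.slot (nat_lit 3))) (.col (nat_lit 2)) (.col (nat_lit 1))
def w12811 : Root := .mk (.node (.node (.node (.node (.col (nat_lit 0)) (.col (nat_lit 1)) (.slot (nat_lit 8))) (.slot (nat_lit 9)) (.slot (nat_lit 8))) (.col (nat_lit 2)) (.slot (nat_lit 9))) (.col (nat_lit 2)) (.slot (nat_lit 10))) (.node (.col (nat_lit 2)) (.node (.col (nat_lit 0)) (.slot (nat_lit 3)) (.slot (nat_lit 1))) (.slot (nat_lit 3))) (.col (nat_lit 2)) (.col (nat_lit 1))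
def w12812 : Root := .mk (.node (.node (.node (.node (.col (nat_lit 0)) (.col (nat_lit 1)) (.slot (nat_lit 2))) (.slot (nat_lit 1)) (.slot (nat_lit 1))) (.col (nat_lit 2)) (.slot (nat_lit 3))) (.col (nat_lit 2)) (.slot (nat_lit 1))) (.node (.col (nat_lit 2)) (.node (.col (nat_lit 0)) (.slot (nat_lit 1)) (.slot (nat_lit 1))) (.slot (nat_lit 2))) (.col (nat_lit 2)) (.col (nat_lit 3))
def w12813 : Root := .mk (.node (.node (.node (.node (.col (nat_lit 0)) (.col (nat_lit 1)) (.slot (nat_lit 2))) (.slot (nat_lit 1)) (.slot (nat_lit 1))) (.col (nat_lit 2)) (.slot (nat_lit 4))) (.col (nat_lit 2)) (.slot (nat_lit 8))) (.col (nat_lit 3)) (.col (nat_lit 2)) (.node (.col (nat_lit 2)) (.slot (nat_lit 2)) (.slot (nat_lit 1)))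
def w12814 : Root := .mk (.node (.node (.node (.node (.col (nat_lit 0)) (.col (nat_lit 1)) (.slot (nat_lit 2))) (.slot (nat_lit 1)) (.slot (nat_lit 1))) (.col (nat_lit 2)) (.slot (nat_lit 4))) (.col (nat_lit 2)) (.slot (nat_lit 8))) (.node (.col (nat_lit 2)) (.node (.col (nat_lit 0)) (.slot (nat_lit 1)) (.slot (nat_lit 1))) (.slot (nat_lit 2))) (.col (nat_lit 2)) (.node (.col (nat_lit 2)) (.slot (nat_lit 2)) (.slot (nat_lit 1)))
def w12815 : Root := .mk (.node (.node (.node (.node (.col (nat_lit 0)) (.col (nat_lit 1)) (.slot (nat_lit 2))) (.slot (nat_lit 1)) (.slot (nat_lit 1))) (.col (nat_lit 2)) (.slot (nat_lit 4))) (.col (nat_lit 2)) (.slot (nat_lit 8))) (.col (nat_lit 3)) (.col (nat_lit 2)) (.node (.slot (nat_lit 0)) (.slot (nat_lit 1)) (.slot (nat_lit 1)))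
def w12816 : Root := .mk (.node (.node (.node (.node (.col (nat_lit 0)) (.col (nat_lit 1)) (.slot (nat_lit 2))) (.slot (nat_lit 1)) (.slot (nat_lit 1))) (.col (nat_lit 2)) (.slot (nat_lit 4))) (.col (nat_lit 2)) (.slot (nat_lit 8))) (.node (.col (nat_lit 2)) (.node (.col (nat_lit 0)) (.slot (nat_lit 1)) (.slot (nat_lit 1))) (.slot (nat_lit 2))) (.col (nat_lit 2)) (.node (.slot (nat_lit 0)) (.slot (nat_lit 1)) (.slot (nat_lit 1)))
def w12817 : Root := .mk (.node (.node (.node (.node (.node (.node (.col (nat_lit 0)) (.col (nat_lit 1)) (.slot (nat_lit 2))) (.slot (nat_lit 1)) (.slot (nat_lit 1))) (.col (nat_lit 2)) (.slot (nat_lit 3))) (.col (nat_lit 2)) (.slot (nat_lit 1))) (.col (nat_lit 2)) (.slot (nat_lit 3))) (.col (nat_lit 2)) (.slot (nat_lit 8))) (.col (nat_lit 0)) (.col (nat_lit 2)) (.slot (nat_lit 2))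
def w12818 : Root := .mk (.col (nat_lit 0)) (.col (nat_lit 1)) (.node (.node (.col (nat_lit 2)) (.node (.col (nat_lit 2)) (.node (.node (.col (nat_lit 2)) (.node (.col (nat_lit 0)) (.node (.col (nat_lit 0)) (.slot (nat_lit 0)) (.slot (nat_lit 0))) (.slot (nat_lit 2))) (.slot (nat_lit 2))) (.col (nat_lit 2)) (.slot (nat_lit 3))) (.slot (nat_lit 1))) (.slot (nat_lit 3))) (.slot (nat_lit 1)) (.slot (nat_lit 1))) (.slot (nat_lit 2))
def w12819 : Root := .mk (.node (.node (.node (.col (nat_lit 0)) (.col (nat_lit 1)) (.slot (nat_lit 2))) (.slot (nat_lit 1)) (.slot (nat_lit 1))) (.col (nat_lit 2)) (.slot (nat_lit 3))) (.col (nat_lit 2)) (.node (.node (.col (nat_lit 2)) (.node (.col (nat_lit 0)) (.slot (nat_lit 7)) (.slot (nat_lit 5))) (.slot (nat_lit 1))) (.col (nat_lit 2)) (.slot (nat_lit 2))) (.node (.col (nat_lit 2)) (.slot (nat_lit 3)) (.slot (nat_lit 1)))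
def w12820 : Root := .mk (.node (.node (.node (.col (nat_lit 0)) (.col (nat_lit 1)) (.slot (nat_lit 2))) (.slot (nat_lit 1)) (.slot (nat_lit 1))) (.col (nat_lit 2)) (.node (.col (nat_lit 2)) (.slot (nat_lit 3)) (.slot (nat_lit 1)))) (.col (nat_lit 2)) (.col (nat_lit 0)) (.slot (nat_lit 3))
def w12821 : Root := .mk (.node (.node (.col (nat_lit 0)) (.col (nat_lit 1)) (.slot (nat_lit 2))) (.slot (nat_lit 1)) (.slot (nat_lit 1))) (.col (nat_lit 2)) (.node (.col (nat_lit 2)) (.node (.node (.col (nat_lit 2)) (.node (.col (nat_lit 0)) (.slot (nat_lit 7)) (.slot (nat_lit 5))) (.slot (nat_lit 1))) (.col (nat_lit 2)) (.slot (nat_lit 2))) (.slot (nat_lit 3))) (.node (.col (nat_lit 2)) (.slot (nat_lit 3)) (.slot (nat_lit 1)))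
def w12822 : Root := .mk (.node (.node (.col (nat_lit 0)) (.col (nat_lit 1)) (.slot (nat_lit 2))) (.slot (nat_lit 1)) (.slot (nat_lit 1))) (.col (nat_lit 2)) (.node (.col (nat_lit 2)) (.node (.node (.col (nat_lit 2)) (.node (.col (nat_lit 0)) (.slot (nat_lit 1)) (.slot (nat_lit 1))) (.slot (nat_lit 2))) (.col (nat_lit 2)) (.slot (nat_lit 4))) (.slot (nat_lit 8))) (.node (.slot (nat_lit 0)) (.slot (nat_lit 1)) (.slot (nat_lit 1)))
def w12823 : Root := .mk (.node (.col (nat_lit 3)) (.slot (nat_lit 1)) (.slot (nat_lit 1))) (.col (nat_lit 2)) (.node (.col (nat_lit 2)) (.node (.node (.col (nat_lit 2)) (.node (.col (nat_lit 0)) (.slot (nat_lit 3)) (.slot (nat_lit 3))) (.slot (nat_lit 5))) (.col (nat_lit 2)) (.slot (nat_lit 4))) (.slot (nat_lit 5))) (.slot (nat_lit 2))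
def w12824 : Root := .mk (.slot (nat_lit 0)) (.node (.col (nat_lit 2)) (.node (.col (nat_lit 2)) (.node (.node (.col (nat_lit 2)) (.node (.col (nat_lit 0)) (.slot (nat_lit 7)) (.slot (nat_lit 5))) (.slot (nat_lit 1))) (.col (nat_lit 2)) (.slot (nat_lit 2))) (.slot (nat_lit 5))) (.slot (nat_lit 8))) (.col (nat_lit 0)) (.slot (nat_lit 1))
def w12825 : Root := .mk (.col (nat_lit 0)) (.col (nat_lit 1)) (.node (.node (.col (nat_lit 2)) (.node (.col (nat_lit 2)) (.node (.col (nat_lit 3)) .junk (.col (nat_lit 0))) (.slot (nat_lit 1))) (.slot (nat_lit 2))) (.col (nat_lit 1)) (.slot (nat_lit 2))) (.slot (nat_lit 1))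
def l2961 : Root := .mk (.col (nat_lit 0)) (.col (nat_lit 1)) (.node (.node (.col (nat_lit 2)) (.node (.col (nat_lit 2)) (.node (.col (nat_lit 3)) (.col (nat_lit 2)) (.node (.col (nat_lit 1)) (.slot (nat_lit 1)) .junk)) (.col (nat_lit 3))) (.slot (nat_lit 3))) (.col (nat_lit 1)) (.slot (nat_lit 3))) (.node (.col (nat_lit 4)) (.slot (nat_lit 7)) (.slot (nat_lit 5)))
def w12826 : Root := .mk (.node (.node (.node (.col (nat_lit 0)) (.col (nat_lit 1)) (.slot (nat_lit 8))) (.col (nat_lit 1)) (.slot (nat_lit 3))) (.col (nat_lit 2)) (.slot (nat_lit 3))) (.col (nat_lit 2)) (.node (.col (nat_lit 3)) (.col (nat_lit 2)) (.node (.col (nat_lit 1)) (.slot (nat_lit 1)) .junk)) (.col (nat_lit 3))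
def l2962 : Root := .mk (.node (.node (.node (.node (.col (nat_lit 0)) (.col (nat_lit 1)) (.slot (nat_lit 8))) (.col (nat_lit 1)) (.slot (nat_lit 8))) (.col (nat_lit 2)) (.slot (nat_lit 8))) (.col (nat_lit 2)) (.slot (nat_lit 5))) (.col (nat_lit 3)) (.col (nat_lit 2)) (.node (.col (nat_lit 1)) (.slot (nat_lit 7)) (.slot (nat_lit 5)))
def w12827 : Root := .mk (.node (.node (.node (.node (.col (nat_lit 0)) (.col (nat_lit 1)) (.slot (nat_lit 8))) (.col (nat_lit 1)) (.slot (nat_lit 8))) (.col (nat_lit 2)) (.slot (nat_lit 8))) (.col (nat_lit 2)) (.slot (nat_lit 5))) (.col (nat_lit 3)) (.col (nat_lit 2)) (.slot (nat_lit 8))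
def w12828 : Root := .mk (.col (nat_lit 0)) (.col (nat_lit 1)) (.node (.node (.col (nat_lit 2)) (.node (.col (nat_lit 2)) (.node (.node (.col (nat_lit 2)) (.node (.col (nat_lit 0)) (.slot (nat_lit 1)) (.slot (nat_lit 1))) (.slot (nat_lit 2))) (.col (nat_lit 2)) (.slot (nat_lit 8))) (.slot (nat_lit 5))) (.slot (nat_lit 8))) (.col (nat_lit 1)) (.slot (nat_lit 8))) (.slot (nat_lit 8))
def w12829 : Root := .mk (.col (nat_lit 0)) (.col (nat_lit 1)) (.node (.node (.col (nat_lit 2)) (.node (.col (nat_lit 2)) (.node (.node (.col (nat_lit 2)) (.node (.col (nat_lit 0)) (.slot (nat_lit 1)) (.slot (nat_lit 1))) (.slot (nat_lit 2))) (.col (nat_lit 2)) (.slot (nat_lit 3))) (.slot (nat_lit 1))) (.slot (nat_lit 3))) (.node (.col (nat_lit 2)) (.slot (nat_lit 1)) (.slot (nat_lit 1))) (.slot (nat_lit 2))) (.slot (nat_lit 1))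
def w12830 : Root := .mk (.col (nat_lit 0)) (.col (nat_lit 1)) (.node (.node (.col (nat_lit 2)) (.node (.col (nat_lit 2)) (.node (.node (.col (nat_lit 2)) (.node (.col (nat_lit 0)) (.slot (nat_lit 1)) (.slot (nat_lit 1))) (.slot (nat_lit 2))) (.col (nat_lit 2)) (.slot (nat_lit 3))) (.slot (nat_lit 1))) (.slot (nat_lit 3))) (.node (.col (nat_lit 3)) (.slot (nat_lit 0)) (.slot (nat_lit 0))) (.slot (nat_lit 2))) (.slot (nat_lit 2))
def w12831 : Root := .mk (.col (nat_lit 0)) (.col (nat_lit 1)) (.node (.node (.col (nat_lit 2)) (.node (.col (nat_lit 2)) (.node (.node (.col (nat_lit 2)) (.node (.col (nat_lit 0)) (.slot (nat_lit 1)) (.slot (nat_lit 1))) (.slot (nat_lit 2))) (.col (nat_lit 2)) (.slot (nat_lit 3))) (.slot (nat_lit 1))) (.slot (nat_lit 3))) (.slot (nat_lit 1)) (.slot (nat_lit 0))) (.col (nat_lit 3))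
def l2963 : Root := .mk (.col (nat_lit 0)) (.col (nat_lit 1)) (.node (.node (.col (nat_lit 2)) (.node (.col (nat_lit 2)) (.node (.node (.col (nat_lit 2)) (.node (.col (nat_lit 0)) (.slot (nat_lit 7)) (.slot (nat_lit 5))) (.slot (nat_lit 8))) (.col (nat_lit 2)) (.slot (nat_lit 5))) (.slot (nat_lit 8))) (.slot (nat_lit 5))) (.slot (nat_lit 3)) (.slot (nat_lit 3))) (.col (nat_lit 2))
def w12832 : Root := .mk (.col (nat_lit 0)) (.col (nat_lit 1)) (.node (.node (.col (nat_lit 2)) (.node (.col (nat_lit 2)) (.node (.node (.col (nat_lit 2)) (.node (.col (nat_lit 0)) (.slot (nat_lit 7)) (.slot (nat_lit 5))) (.slot (nat_lit 8))) (.col (nat_lit 2)) (.slot (nat_lit 5))) (.slot (nat_lit 8))) (.slot (nat_lit 5))) (.slot (nat_lit 3)) (.slot (nat_lit 3))) (.node (.col (nat_lit 0)) (.slot (nat_lit 0)) (.slot (nat_lit 0)))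
def w12833 : Root := .mk (.col (nat_lit 0)) (.col (nat_lit 1)) (.node (.node (.col (nat_lit 2)) (.node (.col (nat_lit 2)) (.node (.node (.col (nat_lit 2)) (.node (.col (nat_lit 0)) (.slot (nat_lit 7)) (.slot (nat_lit 5))) (.slot (nat_lit 8))) (.col (nat_lit 2)) (.slot (nat_lit 5))) (.slot (nat_lit 8))) (.slot (nat_lit 5))) (.slot (nat_lit 3)) (.slot (nat_lit 3))) (.node (.col (nat_lit 1)) (.slot (nat_lit 0)) (.slot (nat_lit 0)))
def w12834 : Root := .mk (.col (nat_lit 0)) (.col (nat_lit 1)) (.node (.node (.col (nat_lit 2)) (.node (.col (nat_lit 2)) (.node (.node (.col (nat_lit 2)) (.node (.col (nat_lit 0)) (.slot (nat_lit 7)) (.slot (nat_lit 5))) (.slot (nat_lit 8))) (.col (nat_lit 2)) (.slot (nat_lit 5))) (.slot (nat_lit 8))) (.slot (nat_lit 5))) (.slot (nat_lit 3)) (.slot (nat_lit 3))) (.node (.slot (nat_lit 0)) (.slot (nat_lit 0)) (.slot (nat_lit 0)))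
def l2964 : Root := .mk (.col (nat_lit 0)) (.col (nat_lit 1)) (.node (.node (.col (nat_lit 2)) (.node (.col (nat_lit 2)) (.node (.node (.col (nat_lit 2)) (.node (.col (nat_lit 0)) (.slot (nat_lit 8)) (.slot (nat_lit 8))) (.slot (nat_lit 9))) (.col (nat_lit 2)) (.slot (nat_lit 8))) (.slot (nat_lit 10))) (.slot (nat_lit 9))) (.slot (nat_lit 9)) (.slot (nat_lit 8))) (.slot (nat_lit 8))
def w12835 : Root := .mk (.col (nat_lit 0)) (.col (nat_lit 1)) (.node (.node (.col (nat_lit 2)) (.node (.col (nat_lit 2)) (.node (.node (.col (nat_lit 2)) (.slot (nat_lit 9)) (.slot (nat_lit 9))) (.col (nat_lit 2)) (.slot (nat_lit 8))) (.slot (nat_lit 10))) (.slot (nat_lit 9))) (.slot (nat_lit 9)) (.slot (nat_lit 8))) (.slot (nat_lit 8))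
def w12836 : Root := .mk (.col (nat_lit 0)) (.col (nat_lit 1)) (.node (.node (.col (nat_lit 2)) (.node (.col (nat_lit 2)) (.node (.node (.col (nat_lit 2)) (.slot (nat_lit 7)) (.slot (nat_lit 5))) (.node (.col (nat_lit 0)) (.slot (nat_lit 0)) (.slot (nat_lit 0))) (.slot (nat_lit 8))) (.slot (nat_lit 8))) (.slot (nat_lit 4))) (.slot (nat_lit 1)) (.slot (nat_lit 1))) (.slot (nat_lit 2))
def w12837 : Root := .mk (.col (nat_lit 0)) (.col (nat_lit 1)) (.node (.node (.col (nat_lit 2)) (.node (.col (nat_lit 2)) (.node (.node (.col (nat_lit 2)) (.slot (nat_lit 7)) (.slot (nat_lit 5))) (.node (.col (nat_lit 3)) (.slot (nat_lit 0)) (.slot (nat_lit 0))) (.slot (nat_lit 8))) (.slot (nat_lit 8))) (.slot (nat_lit 4))) (.slot (nat_lit 1)) (.slot (nat_lit 1))) (.slot (nat_lit 2))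
def w12838 : Root := .mk (.col (nat_lit 0)) (.col (nat_lit 1)) (.node (.node (.col (nat_lit 2)) (.node (.col (nat_lit 2)) (.node (.node (.col (nat_lit 2)) (.slot (nat_lit 3)) (.slot (nat_lit 1))) (.slot (nat_lit 1)) (.slot (nat_lit 1))) (.slot (nat_lit 3))) (.slot (nat_lit 1))) (.col (nat_lit 0)) (.slot (nat_lit 1))) (.slot (nat_lit 1))
def w12839 : Root := .mk (.col (nat_lit 0)) (.col (nat_lit 1)) (.node (.node (.col (nat_lit 2)) (.node (.col (nat_lit 2)) (.node (.node (.col (nat_lit 2)) (.slot (nat_lit 3)) (.slot (nat_lit 1))) (.slot (nat_lit 7)) (.slot (nat_lit 5))) (.slot (nat_lit 3))) (.slot (nat_lit 3))) (.node (.col (nat_lit 2)) (.slot (nat_lit 7)) (.slot (nat_lit 5))) (.slot (nat_lit 8))) (.slot (nat_lit 0))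
def w12840 : Root := .mk (.node (.node (.col (nat_lit 0)) (.col (nat_lit 1)) (.slot (nat_lit 2))) (.node (.col (nat_lit 3)) (.slot (nat_lit 1)) (.slot (nat_lit 1))) (.slot (nat_lit 2))) (.col (nat_lit 2)) (.col (nat_lit 0)) (.slot (nat_lit 5))
def w12841 : Root := .mk (.col (nat_lit 0)) (.col (nat_lit 1)) (.node (.node (.col (nat_lit 2)) (.node (.col (nat_lit 2)) (.node (.node (.col (nat_lit 2)) (.slot (nat_lit 3)) (.slot (nat_lit 1))) (.slot (nat_lit 1)) (.slot (nat_lit 1))) (.slot (nat_lit 3))) (.slot (nat_lit 5))) (.node (.col (nat_lit 3)) (.slot (nat_lit 1)) (.slot (nat_lit 1))) (.slot (nat_lit 2))) (.slot (nat_lit 2))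
def w12842 : Root := .mk (.node (.node (.col (nat_lit 3)) (.col (nat_lit 2)) (.slot (nat_lit 0))) (.col (nat_lit 2)) (.slot (nat_lit 1))) (.node (.col (nat_lit 2)) (.node (.col (nat_lit 2)) (.slot (nat_lit 0)) (.slot (nat_lit 0))) (.slot (nat_lit 2))) (.col (nat_lit 3)) (.node (.col (nat_lit 0)) (.slot (nat_lit 0)) (.slot (nat_lit 0)))
def l2965 : Root := .mk (.node (.col (nat_lit 3)) (.col (nat_lit 2)) (.slot (nat_lit 0))) (.col (nat_lit 2)) (.node (.node (.col (nat_lit 2)) (.node (.col (nat_lit 2)) (.slot (nat_lit 0)) (.slot (nat_lit 0))) (.slot (nat_lit 3))) (.col (nat_lit 3)) (.node (.col (nat_lit 2)) (.slot (nat_lit 7)) (.slot (nat_lit 5)))) (.col (nat_lit 3))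
def w12843 : Root := .mk (.node (.col (nat_lit 3)) (.col (nat_lit 2)) (.slot (nat_lit 0))) (.col (nat_lit 2)) (.node (.node (.col (nat_lit 2)) (.node (.col (nat_lit 2)) (.slot (nat_lit 0)) (.slot (nat_lit 0))) (.slot (nat_lit 3))) (.col (nat_lit 3)) (.slot (nat_lit 8))) (.col (nat_lit 3))
def l2966 : Root := .mk (.col (nat_lit 3)) (.col (nat_lit 2)) (.node (.col (nat_lit 2)) (.node (.node (.col (nat_lit 2)) (.node (.col (nat_lit 2)) (.slot (nat_lit 0)) (.slot (nat_lit 0))) (.slot (nat_lit 3))) (.col (nat_lit 3)) (.slot (nat_lit 8))) (.slot (nat_lit 8))) (.slot (nat_lit 5))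
def w12844 : Root := .mk (.col (nat_lit 3)) (.col (nat_lit 2)) (.node (.col (nat_lit 2)) (.node (.node (.col (nat_lit 2)) (.node (.col (nat_lit 2)) (.slot (nat_lit 0)) (.slot (nat_lit 0))) (.slot (nat_lit 3))) (.slot (nat_lit 1)) (.slot (nat_lit 8))) (.slot (nat_lit 8))) (.slot (nat_lit 5))
def w12845 : Root := .mk (.col (nat_lit 0)) (.col (nat_lit 1)) (.node (.node (.col (nat_lit 2)) (.node (.col (nat_lit 2)) (.node (.node (.col (nat_lit 2)) (.node (.col (nat_lit 2)) (.slot (nat_lit 0)) (.slot (nat_lit 0))) (.slot (nat_lit 3))) (.slot (nat_lit 8)) (.slot (nat_lit 1))) (.slot (nat_lit 8))) (.slot (nat_lit 5))) (.slot (nat_lit 1)) (.slot (nat_lit 1))) (.slot (nat_lit 2))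
def l2967 : Root := .mk (.col (nat_lit 3)) (.col (nat_lit 2)) (.node (.col (nat_lit 2)) (.node (.node (.col (nat_lit 2)) (.node (.slot (nat_lit 0)) (.slot (nat_lit 0)) (.slot (nat_lit 0))) (.slot (nat_lit 3))) (.col (nat_lit 3)) (.slot (nat_lit 8))) (.slot (nat_lit 8))) (.slot (nat_lit 5))
def w12846 : Root := .mk (.col (nat_lit 3)) (.col (nat_lit 2)) (.node (.col (nat_lit 2)) (.node (.node (.col (nat_lit 2)) (.node (.slot (nat_lit 0)) (.slot (nat_lit 0)) (.slot (nat_lit 0))) (.slot (nat_lit 3))) (.slot (nat_lit 1)) (.slot (nat_lit 8))) (.slot (nat_lit 8))) (.slot (nat_lit 5))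
def w12847 : Root := .mk (.col (nat_lit 0)) (.col (nat_lit 1)) (.node (.node (.col (nat_lit 2)) (.node (.col (nat_lit 2)) (.node (.node (.col (nat_lit 2)) (.node (.slot (nat_lit 0)) (.slot (nat_lit 0)) (.slot (nat_lit 0))) (.slot (nat_lit 3))) (.slot (nat_lit 8)) (.slot (nat_lit 1))) (.slot (nat_lit 8))) (.slot (nat_lit 5))) (.slot (nat_lit 1)) (.slot (nat_lit 1))) (.slot (nat_lit 2))
def w12848 : Root := .mk (.col (nat_lit 0)) (.col (nat_lit 1)) (.node (.node (.col (nat_lit 2)) (.node (.col (nat_lit 2)) (.node (.node (.col (nat_lit 2)) (.slot (nat_lit 7)) (.slot (nat_lit 5))) (.slot (nat_lit 8)) (.slot (nat_lit 1))) (.slot (nat_lit 8))) (.slot (nat_lit 4))) (.slot (nat_lit 1)) (.slot (nat_lit 0))) (.col (nat_lit 3))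
def l2968 : Root := .mk (.col (nat_lit 0)) (.col (nat_lit 1)) (.node (.node (.col (nat_lit 2)) (.node (.col (nat_lit 2)) (.node (.node (.col (nat_lit 2)) (.slot (nat_lit 7)) (.slot (nat_lit 5))) (.slot (nat_lit 8)) (.slot (nat_lit 5))) (.slot (nat_lit 8))) (.slot (nat_lit 4))) (.slot (nat_lit 8)) (.slot (nat_lit 8))) (.col (nat_lit 2))
def w12849 : Root := .mk (.col (nat_lit 0)) (.col (nat_lit 1)) (.node (.node (.col (nat_lit 2)) (.node (.col (nat_lit 2)) (.node (.node (.col (nat_lit 2)) (.slot (nat_lit 7)) (.slot (nat_lit 5))) (.slot (nat_lit 8)) (.slot (nat_lit 5))) (.slot (nat_lit 8))) (.slot (nat_lit 4))) (.slot (nat_lit 8)) (.slot (nat_lit 8))) (.node (.col (nat_lit 0)) (.slot (nat_lit 0)) (.slot (nat_lit 0)))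
def w12850 : Root := .mk (.col (nat_lit 0)) (.col (nat_lit 1)) (.node (.node (.col (nat_lit 2)) (.node (.col (nat_lit 2)) (.node (.node (.col (nat_lit 2)) (.slot (nat_lit 7)) (.slot (nat_lit 5))) (.slot (nat_lit 8)) (.slot (nat_lit 5))) (.slot (nat_lit 8))) (.slot (nat_lit 4))) (.slot (nat_lit 8)) (.slot (nat_lit 8))) (.node (.slot (nat_lit 0)) (.slot (nat_lit 0)) (.slot (nat_lit 0)))
def l2969 : Root := .mk (.col (nat_lit 0)) (.col (nat_lit 1)) (.node (.node (.col (nat_lit 2)) (.node (.col (nat_lit 2)) (.node (.node (.col (nat_lit 2)) (.slot (nat_lit 14)) (.slot (nat_lit 10))) (.slot (nat_lit 11)) (.slot (nat_lit 11))) (.slot (nat_lit 13))) (.slot (nat_lit 10))) (.slot (nat_lit 10)) (.slot (nat_lit 9))) (.slot (nat_lit 8))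
def w12851 : Root := .mk (.col (nat_lit 0)) (.col (nat_lit 1)) (.node (.node (.col (nat_lit 2)) (.node (.col (nat_lit 2)) (.slot (nat_lit 16)) (.slot (nat_lit 13))) (.slot (nat_lit 10))) (.slot (nat_lit 10)) (.slot (nat_lit 9))) (.slot (nat_lit 8))
def w12852 : Root := .mk (.col (nat_lit 0)) (.col (nat_lit 1)) (.node (.node (.node (.node (.col (nat_lit 0)) (.slot (nat_lit 0)) (.slot (nat_lit 0))) (.col (nat_lit 0)) (.slot (nat_lit 2))) (.col (nat_lit 3)) (.slot (nat_lit 2))) (.slot (nat_lit 1)) (.slot (nat_lit 1))) (.slot (nat_lit 2))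
def w12853 : Root := .mk (.node (.node (.node (.node (.col (nat_lit 0)) (.col (nat_lit 1)) (.col (nat_lit 4))) (.slot (nat_lit 1)) (.slot (nat_lit 0))) (.node (.col (nat_lit 2)) (.slot (nat_lit 0)) (.slot (nat_lit 0))) (.col (nat_lit 2))) (.col (nat_lit 0)) (.slot (nat_lit 1))) (.col (nat_lit 0)) (.col (nat_lit 1)) (.col (nat_lit 2))
def w12854 : Root := .mk (.node (.node (.node (.node (.col (nat_lit 0)) (.col (nat_lit 1)) (.col (nat_lit 4))) (.slot (nat_lit 1)) (.slot (nat_lit 0))) (.node (.col (nat_lit 2)) (.slot (nat_lit 0)) (.slot (nat_lit 0))) (.col (nat_lit 2))) (.col (nat_lit 0)) (.slot (nat_lit 1))) (.col (nat_lit 0)) (.col (nat_lit 1)) (.col (nat_lit 3))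
def l2970 : Root := .mk (.col (nat_lit 0)) (.col (nat_lit 1)) (.node (.node (.node (.node (.col (nat_lit 0)) (.col (nat_lit 1)) (.node (.col (nat_lit 4)) (.slot (nat_lit 7)) (.slot (nat_lit 5)))) (.col (nat_lit 0)) (.slot (nat_lit 3))) (.node (.col (nat_lit 2)) (.slot (nat_lit 8)) (.slot (nat_lit 1))) (.col (nat_lit 2))) (.slot (nat_lit 7)) (.slot (nat_lit 5))) (.col (nat_lit 4))
def w12855 : Root := .mk (.col (nat_lit 0)) (.col (nat_lit 1)) (.node (.node (.node (.node (.col (nat_lit 0)) (.col (nat_lit 1)) (.slot (nat_lit 8))) (.col (nat_lit 0)) (.slot (nat_lit 3))) (.node (.col (nat_lit 2)) (.slot (nat_lit 8)) (.slot (nat_lit 1))) (.col (nat_lit 2))) (.slot (nat_lit 7)) (.slot (nat_lit 5))) (.col (nat_lit 4))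
def w12856 : Root := .mk (.col (nat_lit 0)) (.col (nat_lit 1)) (.node (.node (.node (.node (.col (nat_lit 0)) (.node (.col (nat_lit 3)) (.slot (nat_lit 0)) (.slot (nat_lit 0))) (.col (nat_lit 3))) (.col (nat_lit 0)) (.slot (nat_lit 1))) (.node (.col (nat_lit 2)) (.slot (nat_lit 0)) (.slot (nat_lit 0))) (.col (nat_lit 2))) (.slot (nat_lit 1)) (.slot (nat_lit 0))) (.col (nat_lit 4))
def w12857 : Root := .mk (.col (nat_lit 0)) (.col (nat_lit 1)) (.node (.node (.node (.col (nat_lit 1)) (.col (nat_lit 0)) .junk) (.node (.col (nat_lit 2)) (.slot (nat_lit 0)) (.slot (nat_lit 0))) (.col (nat_lit 2))) (.slot (nat_lit 1)) (.slot (nat_lit 0))) (.col (nat_lit 4))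
def w12858 : Root := .mk (.col (nat_lit 0)) (.col (nat_lit 1)) (.node (.node (.node (.node (.col (nat_lit 0)) (.node (.col (nat_lit 3)) (.slot (nat_lit 1)) .junk) (.col (nat_lit 2))) (.col (nat_lit 0)) (.col (nat_lit 2))) (.node (.col (nat_lit 2)) (.slot (nat_lit 0)) (.slot (nat_lit 0))) (.col (nat_lit 2))) (.slot (nat_lit 1)) (.slot (nat_lit 0))) (.col (nat_lit 4))
def l2971 : Root := .mk (.col (nat_lit 0)) (.col (nat_lit 1)) (.node (.node (.node (.node (.col (nat_lit 0)) (.node (.col (nat_lit 3)) (.slot (nat_lit 3)) (.slot (nat_lit 3))) (.col (nat_lit 2))) (.col (nat_lit 0)) (.slot (nat_lit 3))) (.node (.col (nat_lit 2)) (.slot (nat_lit 0)) (.slot (nat_lit 0))) (.col (nat_lit 2))) (.slot (nat_lit 1)) (.slot (nat_lit 0))) (.col (nat_lit 4))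
def w12859 : Root := .mk (.col (nat_lit 0)) (.col (nat_lit 1)) (.node (.node (.node (.node (.col (nat_lit 0)) (.node (.col (nat_lit 3)) (.slot (nat_lit 3)) (.slot (nat_lit 3))) (.node (.col (nat_lit 0)) (.slot (nat_lit 0)) (.slot (nat_lit 0)))) (.col (nat_lit 0)) (.slot (nat_lit 3))) (.node (.col (nat_lit 2)) (.slot (nat_lit 0)) (.slot (nat_lit 0))) (.col (nat_lit 2))) (.slot (nat_lit 1)) (.slot (nat_lit 0))) (.col (nat_lit 4))
def w12860 : Root := .mk (.col (nat_lit 0)) (.col (nat_lit 1)) (.node (.node (.node (.node (.col (nat_lit 0)) (.node (.col (nat_lit 3)) (.slot (nat_lit 3)) (.slot (nat_lit 3))) (.node (.col (nat_lit 1)) (.slot (nat_lit 0)) (.slot (nat_lit 0)))) (.col (nat_lit 0)) (.slot (nat_lit 3))) (.node (.col (nat_lit 2)) (.slot (nat_lit 0)) (.slot (nat_lit 0))) (.col (nat_lit 2))) (.slot (nat_lit 1)) (.slot (nat_lit 0))) (.col (nat_lit 4))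
def w12861 : Root := .mk (.node (.node (.node (.slot (nat_lit 0)) (.slot (nat_lit 1)) (.slot (nat_lit 0))) (.node (.col (nat_lit 2)) (.slot (nat_lit 0)) (.slot (nat_lit 0))) (.col (nat_lit 2))) (.col (nat_lit 0)) (.slot (nat_lit 2))) (.col (nat_lit 0)) (.node (.col (nat_lit 3)) (.slot (nat_lit 1)) (.slot (nat_lit 1))) (.node (.col (nat_lit 2)) (.slot (nat_lit 1)) (.slot (nat_lit 0)))
def w12862 : Root := .mk (.col (nat_lit 0)) (.col (nat_lit 1)) (.node (.node (.node (.node (.col (nat_lit 0)) (.node (.col (nat_lit 3)) (.slot (nat_lit 3)) (.slot (nat_lit 3))) (.node (.slot (nat_lit 0)) (.slot (nat_lit 0)) (.slot (nat_lit 0)))) (.col (nat_lit 0)) (.slot (nat_lit 3))) (.node (.col (nat_lit 2)) (.slot (nat_lit 0)) (.slot (nat_lit 0))) (.col (nat_lit 2))) (.slot (nat_lit 1)) (.slot (nat_lit 0))) (.col (nat_lit 4))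
def w12863 : Root := .mk (.col (nat_lit 0)) (.col (nat_lit 1)) (.node (.node (.node (.node (.col (nat_lit 0)) (.node (.col (nat_lit 3)) (.slot (nat_lit 1)) (.slot (nat_lit 1))) (.slot (nat_lit 2))) (.col (nat_lit 0)) (.col (nat_lit 2))) (.node (.col (nat_lit 2)) (.slot (nat_lit 0)) (.slot (nat_lit 0))) (.col (nat_lit 2))) (.slot (nat_lit 1)) (.slot (nat_lit 0))) (.col (nat_lit 4))
def w12864 : Root := .mk (.col (nat_lit 0)) (.col (nat_lit 1)) (.node (.node (.node (.node (.col (nat_lit 0)) (.node (.col (nat_lit 3)) (.slot (nat_lit 1)) (.slot (nat_lit 1))) (.slot (nat_lit 2))) (.col (nat_lit 0)) (.slot (nat_lit 0))) (.node (.col (nat_lit 2)) (.slot (nat_lit 0)) (.slot (nat_lit 0))) (.col (nat_lit 2))) (.slot (nat_lit 1)) (.slot (nat_lit 0))) (.col (nat_lit 4))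
def w12865 : Root := .mk (.col (nat_lit 0)) (.col (nat_lit 1)) (.node (.node (.node (.node (.col (nat_lit 0)) (.node (.col (nat_lit 3)) (.col (nat_lit 0)) (.slot (nat_lit 8))) (.slot (nat_lit 3))) (.col (nat_lit 0)) (.slot (nat_lit 3))) (.node (.col (nat_lit 2)) (.slot (nat_lit 3)) (.slot (nat_lit 1))) (.col (nat_lit 2))) (.slot (nat_lit 1)) (.slot (nat_lit 0))) (.col (nat_lit 4))
def w12866 : Root := .mk (.node (.slot (nat_lit 0)) (.slot (nat_lit 1)) (.slot (nat_lit 0))) (.node (.node (.col (nat_lit 0)) (.node (.col (nat_lit 3)) (.node (.col (nat_lit 3)) (.slot (nat_lit 0)) (.slot (nat_lit 0))) (.slot (nat_lit 2))) (.slot (nat_lit 2))) (.col (nat_lit 0)) (.slot (nat_lit 2))) (.node (.col (nat_lit 2)) (.slot (nat_lit 0)) (.slot (nat_lit 0))) (.col (nat_lit 2))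
def w12867 : Root := .mk (.col (nat_lit 0)) (.col (nat_lit 1)) (.node (.node (.node (.node (.col (nat_lit 0)) (.slot (nat_lit 0)) (.slot (nat_lit 0))) (.col (nat_lit 0)) (.slot (nat_lit 2))) (.node (.col (nat_lit 2)) (.slot (nat_lit 0)) (.slot (nat_lit 0))) (.col (nat_lit 2))) (.col (nat_lit 0)) (.slot (nat_lit 1))) (.col (nat_lit 4))
def w12868 : Root := .mk (.node (.slot (nat_lit 0)) (.col (nat_lit 1)) (.slot (nat_lit 1))) (.node (.node (.col (nat_lit 0)) (.node (.col (nat_lit 3)) (.slot (nat_lit 1)) (.slot (nat_lit 1))) (.slot (nat_lit 2))) (.col (nat_lit 0)) (.slot (nat_lit 1))) (.node (.col (nat_lit 2)) (.slot (nat_lit 0)) (.slot (nat_lit 0))) (.col (nat_lit 2))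
def l2972 : Root := .mk (.col (nat_lit 0)) (.col (nat_lit 1)) (.node (.node (.node (.node (.col (nat_lit 0)) (.node (.col (nat_lit 3)) (.slot (nat_lit 8)) (.slot (nat_lit 8))) (.slot (nat_lit 8))) (.col (nat_lit 0)) (.slot (nat_lit 8))) (.node (.col (nat_lit 2)) (.slot (nat_lit 8)) (.slot (nat_lit 1))) (.col (nat_lit 2))) (.slot (nat_lit 7)) (.slot (nat_lit 5))) (.col (nat_lit 4))
def w12869 : Root := .mk (.col (nat_lit 0)) (.col (nat_lit 1)) (.node (.node (.node (.node (.col (nat_lit 0)) (.slot (nat_lit 9)) (.slot (nat_lit 8))) (.col (nat_lit 0)) (.slot (nat_lit 8))) (.node (.col (nat_lit 2)) (.slot (nat_lit 8)) (.slot (nat_lit 1))) (.col (nat_lit 2))) (.slot (nat_lit 7)) (.slot (nat_lit 5))) (.col (nat_lit 4))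
def l2973 : Root := .mk (.col (nat_lit 0)) (.col (nat_lit 1)) (.node (.node (.node (.node (.col (nat_lit 0)) (.slot (nat_lit 9)) (.slot (nat_lit 8))) (.col (nat_lit 0)) (.slot (nat_lit 8))) (.node (.col (nat_lit 2)) (.slot (nat_lit 8)) (.slot (nat_lit 1))) (.col (nat_lit 2))) (.slot (nat_lit 7)) (.slot (nat_lit 5))) (.node (.col (nat_lit 3)) (.slot (nat_lit 7)) (.slot (nat_lit 5)))
def w12870 : Root := .mk (.node (.node (.col (nat_lit 0)) (.col (nat_lit 1)) (.slot (nat_lit 8))) (.slot (nat_lit 7)) (.slot (nat_lit 5))) (.node (.node (.col (nat_lit 0)) (.slot (nat_lit 9)) (.slot (nat_lit 8))) (.col (nat_lit 0)) (.slot (nat_lit 8))) (.node (.col (nat_lit 2)) (.slot (nat_lit 8)) (.slot (nat_lit 1))) (.col (nat_lit 2))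
def w12871 : Root := .mk (.col (nat_lit 0)) (.col (nat_lit 1)) (.node (.node (.node (.node (.col (nat_lit 0)) (.slot (nat_lit 0)) (.slot (nat_lit 0))) (.col (nat_lit 0)) (.slot (nat_lit 2))) (.node (.col (nat_lit 2)) (.slot (nat_lit 0)) (.slot (nat_lit 0))) (.node (.col (nat_lit 0)) (.slot (nat_lit 1)) (.slot (nat_lit 1)))) (.slot (nat_lit 1)) (.slot (nat_lit 1))) (.slot (nat_lit 2))
def w12872 : Root := .mk (.node (.node (.slot (nat_lit 0)) (.slot (nat_lit 0)) (.slot (nat_lit 0))) (.node (.col (nat_lit 2)) (.slot (nat_lit 7)) (.slot (nat_lit 5))) (.node (.col (nat_lit 1)) (.slot (nat_lit 3)) (.slot (nat_lit 1)))) (.col (nat_lit 2)) (.col (nat_lit 0)) (.slot (nat_lit 3))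
def w12873 : Root := .mk (.node (.node (.slot (nat_lit 0)) (.slot (nat_lit 0)) (.slot (nat_lit 0))) (.node (.col (nat_lit 2)) (.slot (nat_lit 1)) (.slot (nat_lit 0))) (.node (.col (nat_lit 1)) (.slot (nat_lit 1)) (.slot (nat_lit 1)))) (.col (nat_lit 2)) (.col (nat_lit 0)) (.col (nat_lit 1))
def w12874 : Root := .mk (.node (.node (.node (.col (nat_lit 0)) (.col (nat_lit 1)) (.slot (nat_lit 2))) (.slot (nat_lit 1)) (.slot (nat_lit 1))) (.node (.col (nat_lit 2)) (.slot (nat_lit 0)) (.slot (nat_lit 0))) (.slot (nat_lit 0))) (.col (nat_lit 2)) (.col (nat_lit 0)) (.col (nat_lit 3))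
def w12875 : Root := .mk (.node (.node (.node (.col (nat_lit 0)) (.col (nat_lit 1)) (.slot (nat_lit 2))) (.slot (nat_lit 1)) (.slot (nat_lit 1))) (.node (.col (nat_lit 2)) (.slot (nat_lit 1)) (.slot (nat_lit 0))) (.node (.col (nat_lit 1)) (.slot (nat_lit 0)) (.slot (nat_lit 0)))) (.col (nat_lit 2)) (.col (nat_lit 0)) (.node (.col (nat_lit 0)) (.slot (nat_lit 0)) (.slot (nat_lit 0)))
def w12876 : Root := .mk (.node (.node (.node (.col (nat_lit 0)) (.col (nat_lit 1)) (.slot (nat_lit 2))) (.slot (nat_lit 1)) (.slot (nat_lit 1))) (.node (.col (nat_lit 2)) (.slot (nat_lit 1)) (.slot (nat_lit 0))) (.node (.col (nat_lit 1)) (.slot (nat_lit 0)) (.slot (nat_lit 0)))) (.col (nat_lit 2)) (.col (nat_lit 0)) (.node (.col (nat_lit 2)) (.slot (nat_lit 0)) (.slot (nat_lit 0)))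
def w12877 : Root := .mk (.node (.node (.node (.col (nat_lit 0)) (.col (nat_lit 1)) (.slot (nat_lit 2))) (.slot (nat_lit 1)) (.slot (nat_lit 1))) (.node (.col (nat_lit 2)) (.slot (nat_lit 1)) (.slot (nat_lit 0))) (.node (.col (nat_lit 1)) (.slot (nat_lit 0)) (.slot (nat_lit 0)))) (.col (nat_lit 2)) (.col (nat_lit 0)) (.node (.slot (nat_lit 0)) (.slot (nat_lit 0)) (.slot (nat_lit 0)))
def w12878 : Root := .mk (.node (.col (nat_lit 0)) (.col (nat_lit 1)) (.slot (nat_lit 3))) (.node (.node (.col (nat_lit 2)) (.col (nat_lit 0)) (.slot (nat_lit 0))) (.node (.col (nat_lit 2)) (.slot (nat_lit 1)) (.slot (nat_lit 1))) (.node (.col (nat_lit 1)) (.slot (nat_lit 0)) (.slot (nat_lit 0)))) (.col (nat_lit 1)) (.col (nat_lit 2))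
def w12879 : Root := .mk (.col (nat_lit 3)) (.node (.node (.col (nat_lit 2)) (.col (nat_lit 0)) (.slot (nat_lit 0))) (.node (.col (nat_lit 2)) (.slot (nat_lit 1)) (.slot (nat_lit 0))) (.node (.col (nat_lit 1)) (.slot (nat_lit 1)) (.slot (nat_lit 1)))) (.col (nat_lit 1)) (.col (nat_lit 2))
def l2974 : Root := .mk (.col (nat_lit 0)) (.col (nat_lit 1)) (.node (.node (.node (.col (nat_lit 2)) (.col (nat_lit 0)) (.slot (nat_lit 2))) (.node (.col (nat_lit 2)) (.slot (nat_lit 7)) (.slot (nat_lit 5))) (.col (nat_lit 0))) (.col (nat_lit 1)) (.col (nat_lit 2))) (.col (nat_lit 2))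
def w12880 : Root := .mk (.col (nat_lit 0)) (.col (nat_lit 1)) (.node (.node (.node (.col (nat_lit 2)) (.col (nat_lit 0)) (.slot (nat_lit 2))) (.node (.col (nat_lit 2)) (.slot (nat_lit 7)) (.slot (nat_lit 5))) (.node (.col (nat_lit 1)) (.slot (nat_lit 0)) (.slot (nat_lit 0)))) (.col (nat_lit 1)) (.col (nat_lit 2))) (.col (nat_lit 2))
def w12881 : Root := .mk (.col (nat_lit 0)) (.col (nat_lit 1)) (.node (.node (.node (.col (nat_lit 2)) (.col (nat_lit 0)) (.slot (nat_lit 2))) (.node (.col (nat_lit 2)) (.slot (nat_lit 1)) (.slot (nat_lit 0))) (.node (.col (nat_lit 1)) (.slot (nat_lit 0)) (.slot (nat_lit 0)))) (.col (nat_lit 1)) (.col (nat_lit 2))) (.node (.col (nat_lit 0)) (.slot (nat_lit 0)) (.slot (nat_lit 0)))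
def w12882 : Root := .mk (.col (nat_lit 0)) (.col (nat_lit 1)) (.node (.node (.node (.col (nat_lit 2)) (.col (nat_lit 0)) (.slot (nat_lit 2))) (.node (.col (nat_lit 2)) (.slot (nat_lit 1)) (.slot (nat_lit 0))) (.node (.col (nat_lit 1)) (.slot (nat_lit 0)) (.slot (nat_lit 0)))) (.col (nat_lit 1)) (.col (nat_lit 2))) (.node (.col (nat_lit 1)) (.slot (nat_lit 0)) (.slot (nat_lit 0)))
def w12883 : Root := .mk (.node (.col (nat_lit 0)) .junk (.node (.slot (nat_lit 0)) (.slot (nat_lit 0)) (.slot (nat_lit 0)))) (.node (.node (.col (nat_lit 2)) (.col (nat_lit 0)) (.slot (nat_lit 1))) (.node (.col (nat_lit 2)) (.slot (nat_lit 1)) (.slot (nat_lit 0))) (.node (.col (nat_lit 1)) (.slot (nat_lit 0)) (.slot (nat_lit 0)))) (.col (nat_lit 1)) (.col (nat_lit 2))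
def w12884 : Root := .mk (.node (.col (nat_lit 0)) .junk (.slot (nat_lit 1))) (.node (.node (.col (nat_lit 2)) (.col (nat_lit 0)) (.slot (nat_lit 3))) (.node (.col (nat_lit 2)) (.slot (nat_lit 3)) (.slot (nat_lit 1))) (.col (nat_lit 2))) (.col (nat_lit 1)) (.col (nat_lit 2))
def w12885 : Root := .mk (.node (.node (.slot (nat_lit 0)) (.col (nat_lit 1)) (.col (nat_lit 2))) (.node (.col (nat_lit 2)) (.slot (nat_lit 0)) (.slot (nat_lit 0))) (.node (.col (nat_lit 1)) (.slot (nat_lit 0)) (.slot (nat_lit 0)))) (.col (nat_lit 2)) (.col (nat_lit 0)) (.col (nat_lit 1))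
def w12886 : Root := .mk (.node (.node (.node (.col (nat_lit 0)) .junk (.slot (nat_lit 1))) (.col (nat_lit 1)) (.col (nat_lit 2))) (.node (.col (nat_lit 2)) (.slot (nat_lit 0)) (.slot (nat_lit 0))) (.slot (nat_lit 0))) (.col (nat_lit 2)) (.col (nat_lit 0)) (.col (nat_lit 3))
def w12887 : Root := .mk (.node (.slot (nat_lit 0)) (.node (.col (nat_lit 2)) (.col (nat_lit 0)) (.slot (nat_lit 6))) (.node (.col (nat_lit 1)) (.slot (nat_lit 0)) (.slot (nat_lit 0)))) (.col (nat_lit 2)) (.col (nat_lit 0)) (.slot (nat_lit 6))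
def w12888 : Root := .mk (.node (.col (nat_lit 0)) (.col (nat_lit 1)) (.slot (nat_lit 5))) (.node (.slot (nat_lit 0)) (.node (.col (nat_lit 2)) (.col (nat_lit 1)) (.slot (nat_lit 2))) (.node (.col (nat_lit 1)) (.slot (nat_lit 0)) (.slot (nat_lit 0)))) (.col (nat_lit 1)) (.col (nat_lit 2))
def w12889 : Root := .mk (.node (.col (nat_lit 0)) .junk (.slot (nat_lit 1))) (.node (.node (.col (nat_lit 2)) (.col (nat_lit 0)) (.slot (nat_lit 1))) (.node (.col (nat_lit 2)) (.col (nat_lit 3)) (.slot (nat_lit 1))) (.node (.col (nat_lit 1)) (.slot (nat_lit 0)) (.slot (nat_lit 0)))) (.col (nat_lit 1)) (.col (nat_lit 2))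
def w12890 : Root := .mk (.node (.col (nat_lit 0)) (.col (nat_lit 1)) (.slot (nat_lit 5))) (.node (.node (.col (nat_lit 2)) (.col (nat_lit 0)) (.slot (nat_lit 1))) (.node (.col (nat_lit 2)) (.slot (nat_lit 0)) (.slot (nat_lit 0))) (.node (.col (nat_lit 1)) (.col (nat_lit 0)) (.slot (nat_lit 0)))) (.col (nat_lit 1)) (.col (nat_lit 2))
def w12891 : Root := .mk (.slot (nat_lit 0)) (.node (.node (.col (nat_lit 2)) (.col (nat_lit 0)) (.slot (nat_lit 1))) (.node (.col (nat_lit 2)) (.slot (nat_lit 1)) (.slot (nat_lit 1))) (.node (.col (nat_lit 1)) (.col (nat_lit 2)) (.slot (nat_lit 1)))) (.col (nat_lit 1)) (.col (nat_lit 2))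
def w12892 : Root := .mk (.node (.col (nat_lit 0)) (.col (nat_lit 1)) (.slot (nat_lit 3))) (.node (.node (.col (nat_lit 2)) (.col (nat_lit 0)) (.slot (nat_lit 0))) (.node (.col (nat_lit 2)) (.slot (nat_lit 1)) (.slot (nat_lit 1))) (.node (.col (nat_lit 1)) (.col (nat_lit 3)) (.slot (nat_lit 0)))) (.col (nat_lit 1)) (.col (nat_lit 2))
def l2975 : Root := .mk (.node (.col (nat_lit 0)) (.col (nat_lit 1)) (.slot (nat_lit 5))) (.node (.node (.col (nat_lit 2)) (.col (nat_lit 0)) (.slot (nat_lit 6))) (.node (.col (nat_lit 2)) (.slot (nat_lit 7)) (.slot (nat_lit 6))) (.node (.col (nat_lit 1)) (.slot (nat_lit 1)) (.slot (nat_lit 1)))) (.col (nat_lit 1)) (.col (nat_lit 2))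
def w12893 : Root := .mk (.col (nat_lit 0)) (.col (nat_lit 1)) (.node (.node (.node (.col (nat_lit 2)) (.col (nat_lit 0)) (.slot (nat_lit 6))) (.node (.col (nat_lit 2)) (.slot (nat_lit 7)) (.slot (nat_lit 6))) (.node (.col (nat_lit 1)) (.slot (nat_lit 1)) (.slot (nat_lit 1)))) (.col (nat_lit 1)) (.slot (nat_lit 1))) (.slot (nat_lit 5))
def w12894 : Root := .mk (.node (.node (.node (.col (nat_lit 0)) (.col (nat_lit 1)) (.slot (nat_lit 2))) (.slot (nat_lit 1)) (.slot (nat_lit 1))) (.node (.col (nat_lit 2)) (.col (nat_lit 0)) (.slot (nat_lit 0))) (.node (.col (nat_lit 1)) (.slot (nat_lit 1)) (.slot (nat_lit 0)))) (.col (nat_lit 2)) (.col (nat_lit 1)) (.slot (nat_lit 1))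
def w12895 : Root := .mk (.node (.node (.node (.col (nat_lit 0)) (.col (nat_lit 1)) (.slot (nat_lit 2))) (.slot (nat_lit 1)) (.slot (nat_lit 1))) (.node (.col (nat_lit 2)) (.col (nat_lit 0)) (.slot (nat_lit 1))) (.node (.col (nat_lit 1)) (.slot (nat_lit 0)) (.slot (nat_lit 0)))) (.col (nat_lit 2)) (.col (nat_lit 3)) (.slot (nat_lit 1))
def w12896 : Root := .mk (.node (.node (.node (.col (nat_lit 0)) (.col (nat_lit 1)) (.slot (nat_lit 2))) (.slot (nat_lit 1)) (.slot (nat_lit 1))) (.node (.col (nat_lit 2)) (.col (nat_lit 0)) (.slot (nat_lit 1))) (.node (.col (nat_lit 2)) (.slot (nat_lit 0)) (.slot (nat_lit 0)))) (.col (nat_lit 1)) (.col (nat_lit 0)) (.slot (nat_lit 1))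
def w12897 : Root := .mk (.node (.node (.node (.col (nat_lit 0)) (.col (nat_lit 1)) (.slot (nat_lit 2))) (.slot (nat_lit 1)) (.slot (nat_lit 1))) (.node (.col (nat_lit 2)) (.col (nat_lit 0)) (.slot (nat_lit 3))) (.node (.col (nat_lit 2)) (.slot (nat_lit 3)) (.slot (nat_lit 3)))) (.col (nat_lit 1)) (.col (nat_lit 3)) (.slot (nat_lit 3))
def l2976 : Root := .mk (.node (.node (.node (.col (nat_lit 0)) (.col (nat_lit 1)) (.slot (nat_lit 5))) (.slot (nat_lit 8)) (.slot (nat_lit 2))) (.node (.col (nat_lit 2)) (.slot (nat_lit 7)) (.slot (nat_lit 6))) (.node (.col (nat_lit 1)) (.slot (nat_lit 3)) (.slot (nat_lit 3)))) (.col (nat_lit 2)) (.col (nat_lit 0)) (.slot (nat_lit 6))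
def w12898 : Root := .mk (.col (nat_lit 0)) (.col (nat_lit 1)) (.node (.node (.node (.node (.col (nat_lit 0)) (.slot (nat_lit 0)) (.slot (nat_lit 0))) (.col (nat_lit 0)) (.slot (nat_lit 6))) (.node (.col (nat_lit 2)) (.slot (nat_lit 7)) (.slot (nat_lit 6))) (.node (.col (nat_lit 1)) (.slot (nat_lit 3)) (.slot (nat_lit 3)))) (.slot (nat_lit 8)) (.slot (nat_lit 2))) (.slot (nat_lit 5))
def w12899 : Root := .mk (.col (nat_lit 0)) (.col (nat_lit 1)) (.node (.node (.node (.slot (nat_lit 0)) (.col (nat_lit 0)) (.slot (nat_lit 0))) (.node (.col (nat_lit 2)) (.slot (nat_lit 1)) (.slot (nat_lit 1))) (.node (.col (nat_lit 2)) (.slot (nat_lit 1)) (.slot (nat_lit 1)))) (.slot (nat_lit 1)) (.slot (nat_lit 1))) (.slot (nat_lit 2))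
def w12900 : Root := .mk (.node (.node (.slot (nat_lit 0)) (.slot (nat_lit 0)) (.slot (nat_lit 0))) (.node (.node (.col (nat_lit 0)) (.slot (nat_lit 0)) (.slot (nat_lit 0))) (.col (nat_lit 0)) (.slot (nat_lit 3))) (.node (.col (nat_lit 3)) (.slot (nat_lit 7)) (.slot (nat_lit 5)))) (.col (nat_lit 2)) (.col (nat_lit 3)) (.slot (nat_lit 3))
def w12901 : Root := .mk (.node (.node (.node (.col (nat_lit 0)) (.col (nat_lit 1)) (.slot (nat_lit 8))) (.slot (nat_lit 8)) (.slot (nat_lit 8))) (.node (.slot (nat_lit 0)) (.col (nat_lit 0)) (.slot (nat_lit 0))) (.node (.col (nat_lit 3)) (.slot (nat_lit 7)) (.slot (nat_lit 5)))) (.col (nat_lit 2)) (.col (nat_lit 3)) (.col (nat_lit 4))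
def w12902 : Root := .mk (.node (.node (.node (.col (nat_lit 0)) (.col (nat_lit 1)) (.slot (nat_lit 2))) (.slot (nat_lit 1)) (.slot (nat_lit 1))) (.node (.slot (nat_lit 0)) (.col (nat_lit 0)) (.slot (nat_lit 0))) (.node (.col (nat_lit 3)) (.slot (nat_lit 1)) (.slot (nat_lit 0)))) (.col (nat_lit 2)) (.col (nat_lit 3)) (.node (.col (nat_lit 2)) (.slot (nat_lit 0)) (.slot (nat_lit 0)))
def w12903 : Root := .mk (.node (.node (.node (.col (nat_lit 0)) (.col (nat_lit 1)) (.slot (nat_lit 2))) (.slot (nat_lit 1)) (.slot (nat_lit 1))) (.node (.slot (nat_lit 0)) (.col (nat_lit 0)) (.slot (nat_lit 0))) (.node (.col (nat_lit 3)) (.slot (nat_lit 1)) (.slot (nat_lit 0)))) (.col (nat_lit 2)) (.col (nat_lit 3)) (.node (.col (nat_lit 3)) (.slot (nat_lit 0)) (.slot (nat_lit 0)))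
def w12904 : Root := .mk (.node (.node (.node (.col (nat_lit 0)) (.col (nat_lit 1)) (.slot (nat_lit 2))) (.slot (nat_lit 1)) (.slot (nat_lit 1))) (.node (.slot (nat_lit 0)) (.col (nat_lit 0)) (.slot (nat_lit 0))) (.node (.col (nat_lit 3)) (.slot (nat_lit 1)) (.slot (nat_lit 0)))) (.col (nat_lit 2)) (.col (nat_lit 3)) (.node (.slot (nat_lit 0)) (.slot (nat_lit 0)) (.slot (nat_lit 0)))
def w12905 : Root := .mk (.node (.node (.col (nat_lit 0)) (.col (nat_lit 1)) (.slot (nat_lit 8))) (.slot (nat_lit 8)) (.slot (nat_lit 8))) (.node (.slot (nat_lit 0)) (.col (nat_lit 0)) (.slot (nat_lit 0))) (.node (.col (nat_lit 2)) (.col (nat_lit 3)) (.slot (nat_lit 8))) (.col (nat_lit 2))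
def w12906 : Root := .mk (.node (.node (.col (nat_lit 2)) (.slot (nat_lit 0)) (.slot (nat_lit 0))) (.node (.node (.col (nat_lit 0)) (.slot (nat_lit 0)) (.slot (nat_lit 0))) (.col (nat_lit 0)) (.slot (nat_lit 3))) (.node (.col (nat_lit 3)) (.slot (nat_lit 7)) (.slot (nat_lit 5)))) (.col (nat_lit 2)) (.col (nat_lit 3)) (.slot (nat_lit 3))
def l2977 : Root := .mk (.node (.node (.node (.col (nat_lit 0)) (.col (nat_lit 1)) (.slot (nat_lit 5))) (.col (nat_lit 0)) (.col (nat_lit 3))) (.col (nat_lit 1)) (.node (.col (nat_lit 3)) (.slot (nat_lit 1)) (.slot (nat_lit 0)))) (.col (nat_lit 2)) (.col (nat_lit 3)) (.col (nat_lit 1))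
def w12907 : Root := .mk (.node (.node (.node (.col (nat_lit 0)) (.col (nat_lit 1)) (.slot (nat_lit 5))) (.col (nat_lit 0)) (.slot (nat_lit 1))) (.col (nat_lit 1)) (.node (.col (nat_lit 3)) (.slot (nat_lit 1)) (.slot (nat_lit 0)))) (.col (nat_lit 2)) (.col (nat_lit 3)) (.col (nat_lit 1))
def l2978 : Root := .mk (.node (.node (.col (nat_lit 0)) (.col (nat_lit 1)) (.slot (nat_lit 5))) (.col (nat_lit 0)) (.slot (nat_lit 1))) (.col (nat_lit 1)) (.node (.col (nat_lit 2)) (.col (nat_lit 3)) (.slot (nat_lit 6))) (.node (.col (nat_lit 3)) (.slot (nat_lit 7)) (.slot (nat_lit 5)))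
def w12908 : Root := .mk (.col (nat_lit 0)) (.col (nat_lit 1)) (.node (.node (.node (.slot (nat_lit 0)) (.col (nat_lit 0)) (.slot (nat_lit 0))) (.node (.col (nat_lit 2)) (.col (nat_lit 3)) (.slot (nat_lit 6))) (.node (.col (nat_lit 3)) (.slot (nat_lit 7)) (.slot (nat_lit 5)))) (.col (nat_lit 0)) (.slot (nat_lit 1))) (.slot (nat_lit 5))
def w12909 : Root := .mk (.node (.node (.slot (nat_lit 0)) (.col (nat_lit 1)) (.slot (nat_lit 0))) (.node (.node (.col (nat_lit 0)) (.slot (nat_lit 0)) (.slot (nat_lit 0))) (.col (nat_lit 0)) (.slot (nat_lit 3))) (.node (.col (nat_lit 3)) (.slot (nat_lit 7)) (.slot (nat_lit 5)))) (.col (nat_lit 2)) (.col (nat_lit 3)) (.slot (nat_lit 3))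
def w12910 : Root := .mk (.node (.node (.node (.col (nat_lit 0)) (.col (nat_lit 1)) (.slot (nat_lit 2))) (.slot (nat_lit 1)) (.slot (nat_lit 1))) (.node (.col (nat_lit 2)) (.col (nat_lit 3)) (.slot (nat_lit 2))) (.node (.col (nat_lit 3)) (.slot (nat_lit 7)) (.slot (nat_lit 5)))) (.col (nat_lit 1)) (.col (nat_lit 0)) (.slot (nat_lit 0))
def w12911 : Root := .mk (.node (.node (.node (.col (nat_lit 0)) (.col (nat_lit 1)) (.slot (nat_lit 2))) (.slot (nat_lit 1)) (.slot (nat_lit 1))) (.node (.col (nat_lit 2)) (.col (nat_lit 3)) (.slot (nat_lit 1))) (.node (.col (nat_lit 3)) (.slot (nat_lit 0)) (.slot (nat_lit 0)))) (.col (nat_lit 2)) (.col (nat_lit 0)) (.slot (nat_lit 1))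
def w12912 : Root := .mk (.node (.node (.node (.col (nat_lit 0)) (.col (nat_lit 1)) (.slot (nat_lit 2))) (.slot (nat_lit 1)) (.slot (nat_lit 1))) (.node (.col (nat_lit 2)) (.col (nat_lit 3)) (.slot (nat_lit 2))) (.node (.col (nat_lit 3)) (.slot (nat_lit 7)) (.slot (nat_lit 5)))) (.col (nat_lit 4)) (.col (nat_lit 0)) (.slot (nat_lit 0))
def w12913 : Root := .mk (.node (.node (.node (.col (nat_lit 0)) (.col (nat_lit 1)) (.slot (nat_lit 2))) (.slot (nat_lit 1)) (.slot (nat_lit 1))) (.node (.col (nat_lit 2)) (.col (nat_lit 3)) (.slot (nat_lit 1))) (.node (.col (nat_lit 3)) (.slot (nat_lit 0)) (.slot (nat_lit 0)))) (.node (.col (nat_lit 0)) (.slot (nat_lit 0)) (.slot (nat_lit 0))) (.col (nat_lit 0)) (.col (nat_lit 2))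
def w12914 : Root := .mk (.node (.node (.slot (nat_lit 0)) (.slot (nat_lit 0)) (.slot (nat_lit 0))) (.node (.col (nat_lit 2)) (.col (nat_lit 3)) (.slot (nat_lit 4))) (.node (.col (nat_lit 3)) (.slot (nat_lit 3)) (.slot (nat_lit 1)))) (.node (.col (nat_lit 0)) (.slot (nat_lit 0)) (.slot (nat_lit 0))) (.col (nat_lit 0)) (.col (nat_lit 3))
def w12915 : Root := .mk (.node (.node (.node (.col (nat_lit 0)) (.col (nat_lit 1)) (.slot (nat_lit 2))) (.slot (nat_lit 1)) (.slot (nat_lit 1))) (.node (.slot (nat_lit 0)) (.col (nat_lit 0)) (.slot (nat_lit 1))) (.node (.col (nat_lit 2)) (.col (nat_lit 3)) (.slot (nat_lit 0)))) (.col (nat_lit 3)) (.col (nat_lit 0)) (.slot (nat_lit 1))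
def w12916 : Root := .mk (.node (.node (.node (.col (nat_lit 0)) (.col (nat_lit 1)) (.slot (nat_lit 2))) (.slot (nat_lit 1)) (.slot (nat_lit 1))) (.node (.slot (nat_lit 0)) (.col (nat_lit 0)) (.slot (nat_lit 1))) (.node (.col (nat_lit 2)) (.col (nat_lit 3)) (.slot (nat_lit 0)))) (.col (nat_lit 3)) (.col (nat_lit 4)) (.slot (nat_lit 4))
def l2979 : Root := .mk (.node (.node (.node (.col (nat_lit 0)) (.col (nat_lit 1)) (.slot (nat_lit 8))) (.slot (nat_lit 8)) (.slot (nat_lit 8))) (.node (.node (.col (nat_lit 0)) (.slot (nat_lit 0)) (.slot (nat_lit 0))) (.col (nat_lit 0)) (.slot (nat_lit 3))) (.node (.col (nat_lit 3)) (.slot (nat_lit 7)) (.slot (nat_lit 5)))) (.col (nat_lit 2)) (.col (nat_lit 3)) (.slot (nat_lit 8))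
def w12917 : Root := .mk (.col (nat_lit 0)) (.col (nat_lit 1)) (.node (.node (.node (.node (.col (nat_lit 0)) (.slot (nat_lit 0)) (.slot (nat_lit 0))) (.col (nat_lit 0)) (.slot (nat_lit 3))) (.node (.col (nat_lit 2)) (.slot (nat_lit 1)) (.slot (nat_lit 8))) (.node (.col (nat_lit 3)) (.slot (nat_lit 7)) (.slot (nat_lit 5)))) (.slot (nat_lit 8)) (.slot (nat_lit 8))) (.slot (nat_lit 8))
def w12918 : Root := .mk (.node (.node (.node (.col (nat_lit 0)) (.col (nat_lit 1)) (.slot (nat_lit 2))) (.slot (nat_lit 1)) (.slot (nat_lit 1))) (.node (.col (nat_lit 2)) (.slot (nat_lit 3)) (.slot (nat_lit 1))) (.node (.slot (nat_lit 0)) (.slot (nat_lit 0)) (.slot (nat_lit 0)))) (.col (nat_lit 2)) (.col (nat_lit 0)) (.slot (nat_lit 0))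
def w12919 : Root := .mk (.node (.col (nat_lit 0)) (.col (nat_lit 1)) (.slot (nat_lit 5))) (.node (.node (.col (nat_lit 2)) (.col (nat_lit 0)) (.slot (nat_lit 2))) (.slot (nat_lit 0)) (.node (.col (nat_lit 2)) (.slot (nat_lit 0)) (.slot (nat_lit 0)))) (.col (nat_lit 0)) (.col (nat_lit 2))
def l2980 : Root := .mk (.node (.col (nat_lit 0)) (.col (nat_lit 1)) (.slot (nat_lit 5))) (.node (.node (.col (nat_lit 2)) (.col (nat_lit 0)) (.slot (nat_lit 6))) (.node (.col (nat_lit 2)) (.slot (nat_lit 2)) (.slot (nat_lit 2))) (.node (.slot (nat_lit 0)) (.slot (nat_lit 0)) (.slot (nat_lit 0)))) (.col (nat_lit 0)) (.col (nat_lit 2))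
def w12920 : Root := .mk (.col (nat_lit 0)) (.col (nat_lit 1)) (.node (.node (.node (.col (nat_lit 2)) (.col (nat_lit 0)) (.slot (nat_lit 6))) (.node (.col (nat_lit 2)) (.slot (nat_lit 2)) (.slot (nat_lit 2))) (.node (.slot (nat_lit 0)) (.slot (nat_lit 0)) (.slot (nat_lit 0)))) (.col (nat_lit 0)) (.slot (nat_lit 1))) (.slot (nat_lit 5))
def w12921 : Root := .mk (.col (nat_lit 0)) (.col (nat_lit 1)) (.node (.node (.node (.col (nat_lit 2)) (.col (nat_lit 0)) (.slot (nat_lit 3))) (.node (.col (nat_lit 2)) (.slot (nat_lit 3)) (.slot (nat_lit 1))) (.node (.slot (nat_lit 0)) (.slot (nat_lit 0)) (.slot (nat_lit 0)))) (.col (nat_lit 1)) (.slot (nat_lit 3))) (.slot (nat_lit 2))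
def w12922 : Root := .mk (.node (.node (.node (.col (nat_lit 0)) (.col (nat_lit 1)) (.slot (nat_lit 2))) (.slot (nat_lit 1)) (.slot (nat_lit 1))) (.node (.col (nat_lit 2)) (.col (nat_lit 0)) (.slot (nat_lit 0))) (.node (.slot (nat_lit 0)) (.slot (nat_lit 0)) (.slot (nat_lit 0)))) (.col (nat_lit 2)) (.col (nat_lit 1)) (.slot (nat_lit 1))
def w12923 : Root := .mk (.node (.node (.node (.col (nat_lit 0)) (.col (nat_lit 1)) (.slot (nat_lit 2))) (.slot (nat_lit 1)) (.slot (nat_lit 1))) (.node (.col (nat_lit 2)) (.col (nat_lit 0)) (.slot (nat_lit 1))) (.node (.slot (nat_lit 0)) (.slot (nat_lit 0)) (.slot (nat_lit 0)))) (.col (nat_lit 2)) (.col (nat_lit 3)) (.slot (nat_lit 1))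
def w12924 : Root := .mk (.node (.node (.node (.col (nat_lit 0)) (.col (nat_lit 1)) (.slot (nat_lit 2))) (.slot (nat_lit 1)) (.slot (nat_lit 1))) (.node (.col (nat_lit 2)) (.slot (nat_lit 0)) (.slot (nat_lit 0))) (.node (.col (nat_lit 0)) (.slot (nat_lit 1)) (.slot (nat_lit 0)))) (.col (nat_lit 2)) (.col (nat_lit 0)) (.slot (nat_lit 1))
def w12925 : Root := .mk (.node (.node (.node (.col (nat_lit 0)) (.col (nat_lit 1)) (.slot (nat_lit 2))) (.slot (nat_lit 1)) (.slot (nat_lit 1))) (.node (.col (nat_lit 2)) (.slot (nat_lit 1)) (.slot (nat_lit 0))) (.node (.slot (nat_lit 0)) (.col (nat_lit 1)) (.slot (nat_lit 0)))) (.col (nat_lit 2)) (.col (nat_lit 0)) (.slot (nat_lit 1))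
def w12926 : Root := .mk (.node (.node (.node (.col (nat_lit 0)) (.col (nat_lit 1)) (.slot (nat_lit 2))) (.slot (nat_lit 1)) (.slot (nat_lit 1))) (.node (.col (nat_lit 2)) (.slot (nat_lit 0)) (.slot (nat_lit 0))) (.node (.slot (nat_lit 0)) (.col (nat_lit 2)) (.slot (nat_lit 1)))) (.col (nat_lit 2)) (.col (nat_lit 0)) (.slot (nat_lit 1))
def w12927 : Root := .mk (.node (.node (.node (.col (nat_lit 0)) (.col (nat_lit 1)) (.slot (nat_lit 2))) (.slot (nat_lit 1)) (.slot (nat_lit 1))) (.node (.col (nat_lit 2)) (.slot (nat_lit 1)) (.slot (nat_lit 0))) (.node (.slot (nat_lit 0)) (.col (nat_lit 3)) (.slot (nat_lit 0)))) (.col (nat_lit 2)) (.col (nat_lit 0)) (.slot (nat_lit 1))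
def l2981 : Root := .mk (.node (.node (.node (.col (nat_lit 0)) (.col (nat_lit 1)) (.slot (nat_lit 5))) (.slot (nat_lit 8)) (.slot (nat_lit 5))) (.node (.col (nat_lit 2)) (.slot (nat_lit 7)) (.slot (nat_lit 5))) (.node (.slot (nat_lit 0)) (.slot (nat_lit 3)) (.slot (nat_lit 1)))) (.col (nat_lit 2)) (.col (nat_lit 0)) (.slot (nat_lit 6))
def w12928 : Root := .mk (.col (nat_lit 0)) (.col (nat_lit 1)) (.node (.node (.node (.node (.col (nat_lit 0)) (.slot (nat_lit 0)) (.slot (nat_lit 0))) (.col (nat_lit 0)) (.slot (nat_lit 6))) (.node (.col (nat_lit 2)) (.slot (nat_lit 7)) (.slot (nat_lit 5))) (.node (.slot (nat_lit 0)) (.slot (nat_lit 3)) (.slot (nat_lit 1)))) (.slot (nat_lit 8)) (.slot (nat_lit 5))) (.slot (nat_lit 5))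
def w12929 : Root := .mk (.node (.node (.node (.col (nat_lit 2)) (.slot (nat_lit 7)) (.slot (nat_lit 5))) (.node (.col (nat_lit 2)) (.slot (nat_lit 7)) (.slot (nat_lit 5))) (.slot (nat_lit 1))) (.col (nat_lit 0)) (.slot (nat_lit 5))) (.col (nat_lit 0)) (.node (.col (nat_lit 2)) (.slot (nat_lit 1)) (.slot (nat_lit 0))) (.slot (nat_lit 8))
def w12930 : Root := .mk (.node (.node (.node (.col (nat_lit 2)) (.slot (nat_lit 1)) (.slot (nat_lit 1))) (.node (.col (nat_lit 2)) (.slot (nat_lit 1)) (.slot (nat_lit 1))) (.slot (nat_lit 1))) (.col (nat_lit 0)) (.slot (nat_lit 3))) (.col (nat_lit 0)) (.node (.col (nat_lit 2)) (.slot (nat_lit 3)) (.slot (nat_lit 1))) (.col (nat_lit 2))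
def w12931 : Root := .mk (.node (.node (.node (.col (nat_lit 2)) (.slot (nat_lit 7)) (.slot (nat_lit 5))) (.node (.col (nat_lit 2)) (.slot (nat_lit 7)) (.slot (nat_lit 5))) (.slot (nat_lit 1))) (.col (nat_lit 0)) (.slot (nat_lit 2))) (.col (nat_lit 0)) (.node (.col (nat_lit 2)) (.slot (nat_lit 7)) (.slot (nat_lit 5))) (.node (.col (nat_lit 0)) (.slot (nat_lit 0)) (.slot (nat_lit 0)))
def w12934 : Root := .mk (.node (.node (.node (.col (nat_lit 2)) (.slot (nat_lit 0)) (.slot (nat_lit 0))) (.node (.col (nat_lit 2)) (.slot (nat_lit 1)) (.slot (nat_lit 0))) (.slot (nat_lit 1))) (.col (nat_lit 0)) (.col (nat_lit 2))) (.col (nat_lit 0)) (.col (nat_lit 1)) (.node (.slot (nat_lit 0)) (.col (nat_lit 2)) (.slot (nat_lit 1)))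
def w12939 : Root := .mk (.node (.node (.col (nat_lit 2)) (.slot (nat_lit 1)) (.slot (nat_lit 1))) (.node (.col (nat_lit 2)) (.slot (nat_lit 1)) (.slot (nat_lit 1))) (.node (.col (nat_lit 2)) (.slot (nat_lit 1)) (.slot (nat_lit 1)))) (.col (nat_lit 2)) (.col (nat_lit 0)) (.slot (nat_lit 0))
def l2984 : Root := .mk (.node (.node (.node (.col (nat_lit 2)) (.slot (nat_lit 7)) (.slot (nat_lit 5))) (.node (.col (nat_lit 2)) (.slot (nat_lit 7)) (.slot (nat_lit 5))) (.node (.col (nat_lit 2)) (.slot (nat_lit 7)) (.slot (nat_lit 5)))) (.col (nat_lit 0)) (.slot (nat_lit 2))) (.col (nat_lit 0)) (.node (.col (nat_lit 2)) (.slot (nat_lit 7)) (.slot (nat_lit 5))) (.node (.slot (nat_lit 0)) (.slot (nat_lit 0)) (.slot (nat_lit 0)))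
def w12942 : Root := .mk (.node (.node (.node (.col (nat_lit 2)) (.slot (nat_lit 7)) (.slot (nat_lit 5))) (.node (.col (nat_lit 2)) (.slot (nat_lit 7)) (.slot (nat_lit 5))) (.slot (nat_lit 8))) (.col (nat_lit 0)) (.slot (nat_lit 2))) (.col (nat_lit 0)) (.node (.col (nat_lit 2)) (.slot (nat_lit 7)) (.slot (nat_lit 5))) (.node (.slot (nat_lit 0)) (.slot (nat_lit 0)) (.slot (nat_lit 0)))
def w12943 : Root := .mk (.node (.node (.col (nat_lit 2)) (.slot (nat_lit 0)) (.slot (nat_lit 0))) (.node (.col (nat_lit 2)) (.slot (nat_lit 1)) (.slot (nat_lit 1))) (.slot (nat_lit 2))) (.node (.col (nat_lit 0)) (.node (.col (nat_lit 2)) (.slot (nat_lit 3)) (.slot (nat_lit 1))) (.slot (nat_lit 2))) (.col (nat_lit 0)) (.col (nat_lit 1))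
def w12944 : Root := .mk (.node (.slot (nat_lit 0)) (.slot (nat_lit 0)) (.slot (nat_lit 0))) (.node (.col (nat_lit 0)) (.node (.col (nat_lit 2)) (.slot (nat_lit 7)) (.slot (nat_lit 5))) (.slot (nat_lit 8))) (.col (nat_lit 0)) (.node (.col (nat_lit 0)) (.node (.col (nat_lit 1)) (.slot (nat_lit 1)) (.slot (nat_lit 1))) (.slot (nat_lit 2)))
def w12945 : Root := .mk (.node (.node (.col (nat_lit 2)) (.slot (nat_lit 1)) (.slot (nat_lit 1))) (.node (.col (nat_lit 2)) (.slot (nat_lit 1)) (.slot (nat_lit 1))) (.slot (nat_lit 1))) (.node (.col (nat_lit 0)) (.node (.col (nat_lit 2)) (.slot (nat_lit 1)) (.slot (nat_lit 1))) (.slot (nat_lit 2))) (.col (nat_lit 0)) (.node .junk (.col (nat_lit 2)) (.slot (nat_lit 1)))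
def l2985 : Root := .mk (.node (.col (nat_lit 2)) (.slot (nat_lit 7)) (.slot (nat_lit 5))) (.node (.node (.col (nat_lit 0)) (.node (.col (nat_lit 2)) (.slot (nat_lit 1)) (.slot (nat_lit 1))) (.slot (nat_lit 2))) (.col (nat_lit 0)) (.node (.col (nat_lit 0)) (.col (nat_lit 3)) (.slot (nat_lit 1)))) (.node (.col (nat_lit 2)) (.slot (nat_lit 7)) (.slot (nat_lit 5))) (.col (nat_lit 3))
def w12946 : Root := .mk (.node (.node (.node (.col (nat_lit 2)) (.slot (nat_lit 7)) (.slot (nat_lit 5))) (.node (.col (nat_lit 2)) (.slot (nat_lit 7)) (.slot (nat_lit 5))) (.slot (nat_lit 1))) (.node (.col (nat_lit 0)) (.node (.col (nat_lit 2)) (.slot (nat_lit 1)) (.slot (nat_lit 1))) (.slot (nat_lit 2))) (.col (nat_lit 0))) (.col (nat_lit 0)) (.col (nat_lit 3)) (.slot (nat_lit 1))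
def l2986 : Root := .mk (.node (.node (.node (.col (nat_lit 2)) (.slot (nat_lit 7)) (.slot (nat_lit 5))) (.node (.col (nat_lit 2)) (.slot (nat_lit 7)) (.slot (nat_lit 5))) (.col (nat_lit 1))) (.node (.col (nat_lit 0)) (.node (.col (nat_lit 2)) (.slot (nat_lit 1)) (.slot (nat_lit 1))) (.slot (nat_lit 1))) (.col (nat_lit 0))) (.col (nat_lit 0)) (.node (.col (nat_lit 1)) (.slot (nat_lit 0)) (.slot (nat_lit 0))) (.col (nat_lit 1))
def w12947 : Root := .mk (.node (.node (.node (.col (nat_lit 2)) (.slot (nat_lit 7)) (.slot (nat_lit 5))) (.node (.col (nat_lit 2)) (.slot (nat_lit 7)) (.slot (nat_lit 5))) (.slot (nat_lit 1))) (.node (.col (nat_lit 0)) (.node (.col (nat_lit 2)) (.slot (nat_lit 1)) (.slot (nat_lit 1))) (.slot (nat_lit 1))) (.col (nat_lit 0))) (.col (nat_lit 0)) (.node (.col (nat_lit 1)) (.slot (nat_lit 0)) (.slot (nat_lit 0))) (.col (nat_lit 1))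
def w12948 : Root := .mk (.node (.node (.node (.col (nat_lit 2)) (.slot (nat_lit 1)) (.slot (nat_lit 1))) (.node (.col (nat_lit 2)) (.slot (nat_lit 1)) (.slot (nat_lit 1))) (.slot (nat_lit 1))) (.node (.col (nat_lit 0)) (.node (.col (nat_lit 2)) (.slot (nat_lit 3)) (.slot (nat_lit 1))) (.slot (nat_lit 2))) (.col (nat_lit 0))) (.col (nat_lit 0)) (.node (.col (nat_lit 1)) (.slot (nat_lit 3)) (.slot (nat_lit 3))) (.node (.col (nat_lit 0)) (.slot (nat_lit 0)) (.slot (nat_lit 0)))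
def w12949 : Root := .mk (.node (.node (.node (.col (nat_lit 2)) (.slot (nat_lit 1)) (.slot (nat_lit 1))) (.node (.col (nat_lit 2)) (.slot (nat_lit 1)) (.slot (nat_lit 1))) (.slot (nat_lit 1))) (.node (.col (nat_lit 0)) (.node (.col (nat_lit 2)) (.slot (nat_lit 3)) (.slot (nat_lit 1))) (.slot (nat_lit 2))) (.col (nat_lit 0))) (.col (nat_lit 0)) (.node (.col (nat_lit 1)) (.slot (nat_lit 3)) (.slot (nat_lit 3))) (.node (.slot (nat_lit 0)) (.slot (nat_lit 0)) (.slot (nat_lit 0)))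
def w12950 : Root := .mk (.node (.node (.node (.node (.col (nat_lit 2)) (.slot (nat_lit 1)) (.slot (nat_lit 1))) (.node (.col (nat_lit 2)) (.slot (nat_lit 1)) (.slot (nat_lit 1))) (.slot (nat_lit 1))) (.node (.col (nat_lit 0)) (.node (.col (nat_lit 2)) (.slot (nat_lit 1)) (.slot (nat_lit 1))) (.slot (nat_lit 2))) (.col (nat_lit 0))) (.col (nat_lit 0)) (.slot (nat_lit 1))) (.col (nat_lit 1)) (.col (nat_lit 0)) (.slot (nat_lit 3))
def w12951 : Root := .mk (.node (.slot (nat_lit 0)) (.slot (nat_lit 0)) (.slot (nat_lit 0))) (.node (.col (nat_lit 0)) (.node (.col (nat_lit 2)) (.slot (nat_lit 7)) (.slot (nat_lit 5))) (.slot (nat_lit 8))) (.col (nat_lit 0)) (.node (.col (nat_lit 0)) (.node (.col (nat_lit 1)) (.node (.col (nat_lit 1)) (.slot (nat_lit 0)) (.slot (nat_lit 0))) (.slot (nat_lit 2))) (.slot (nat_lit 2)))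
def w12952 : Root := .mk (.node (.node (.node (.col (nat_lit 2)) (.slot (nat_lit 0)) (.slot (nat_lit 0))) (.node (.col (nat_lit 2)) (.slot (nat_lit 1)) (.slot (nat_lit 1))) (.slot (nat_lit 2))) (.col (nat_lit 0)) (.node (.col (nat_lit 0)) (.node (.col (nat_lit 1)) (.slot (nat_lit 1)) (.slot (nat_lit 1))) (.slot (nat_lit 2)))) (.col (nat_lit 0)) (.col (nat_lit 1)) (.slot (nat_lit 3))
def w12953 : Root := .mk (.node (.node (.node (.col (nat_lit 2)) (.slot (nat_lit 1)) (.slot (nat_lit 1))) (.node (.col (nat_lit 2)) (.slot (nat_lit 1)) (.slot (nat_lit 1))) (.slot (nat_lit 1))) (.col (nat_lit 0)) (.node (.col (nat_lit 0)) (.node (.col (nat_lit 1)) (.slot (nat_lit 1)) (.slot (nat_lit 1))) (.slot (nat_lit 1)))) (.col (nat_lit 0)) (.node (.col (nat_lit 2)) (.slot (nat_lit 0)) (.slot (nat_lit 0))) (.col (nat_lit 2))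
def w12954 : Root := .mk (.node (.node (.node (.col (nat_lit 2)) (.slot (nat_lit 1)) (.slot (nat_lit 1))) (.node (.col (nat_lit 2)) (.slot (nat_lit 1)) (.slot (nat_lit 1))) (.slot (nat_lit 1))) (.col (nat_lit 0)) (.node (.col (nat_lit 0)) (.node (.col (nat_lit 1)) (.slot (nat_lit 1)) (.slot (nat_lit 1))) (.slot (nat_lit 2)))) (.col (nat_lit 0)) (.slot (nat_lit 0)) (.slot (nat_lit 0))
def l2987 : Root := .mk (.node (.node (.col (nat_lit 2)) (.slot (nat_lit 7)) (.slot (nat_lit 5))) (.node (.col (nat_lit 2)) (.slot (nat_lit 7)) (.slot (nat_lit 5))) (.slot (nat_lit 2))) (.node (.col (nat_lit 0)) (.node (.col (nat_lit 2)) (.slot (nat_lit 7)) (.slot (nat_lit 5))) (.slot (nat_lit 8))) (.col (nat_lit 0)) (.node (.col (nat_lit 0)) (.node (.col (nat_lit 1)) (.slot (nat_lit 8)) (.slot (nat_lit 8))) (.slot (nat_lit 3)))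
def w12955 : Root := .mk (.node (.node (.col (nat_lit 2)) (.slot (nat_lit 7)) (.slot (nat_lit 5))) (.node (.col (nat_lit 2)) (.slot (nat_lit 7)) (.slot (nat_lit 5))) (.slot (nat_lit 2))) (.node (.col (nat_lit 0)) (.node (.col (nat_lit 2)) (.slot (nat_lit 7)) (.slot (nat_lit 5))) (.slot (nat_lit 8))) (.col (nat_lit 0)) (.node (.col (nat_lit 0)) (.slot (nat_lit 9)) (.slot (nat_lit 3)))
def w12956 : Root := .mk (.node (.node (.col (nat_lit 2)) (.slot (nat_lit 1)) (.slot (nat_lit 1))) (.node (.col (nat_lit 2)) (.slot (nat_lit 1)) (.slot (nat_lit 1))) (.slot (nat_lit 2))) (.node (.col (nat_lit 0)) (.node (.col (nat_lit 2)) (.slot (nat_lit 0)) (.slot (nat_lit 0))) (.slot (nat_lit 3))) (.col (nat_lit 0)) (.node (.col (nat_lit 1)) (.slot (nat_lit 7)) (.slot (nat_lit 5)))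
def l2988 : Root := .mk (.node (.col (nat_lit 2)) (.slot (nat_lit 7)) (.slot (nat_lit 5))) (.node (.node (.col (nat_lit 0)) (.node (.col (nat_lit 2)) (.slot (nat_lit 7)) (.slot (nat_lit 5))) (.slot (nat_lit 8))) (.col (nat_lit 0)) (.node (.slot (nat_lit 0)) (.slot (nat_lit 0)) (.slot (nat_lit 0)))) (.node (.col (nat_lit 2)) (.slot (nat_lit 7)) (.slot (nat_lit 5))) (.col (nat_lit 0))
def w12957 : Root := .mk (.node (.node (.col (nat_lit 2)) (.slot (nat_lit 7)) (.slot (nat_lit 5))) (.node (.col (nat_lit 2)) (.slot (nat_lit 7)) (.slot (nat_lit 5))) (.slot (nat_lit 1))) (.node (.col (nat_lit 0)) (.node (.col (nat_lit 2)) (.slot (nat_lit 7)) (.slot (nat_lit 5))) (.slot (nat_lit 8))) (.col (nat_lit 0)) (.node (.slot (nat_lit 0)) (.slot (nat_lit 0)) (.slot (nat_lit 0)))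
def w12958 : Root := .mk (.node (.node (.node (.node (.col (nat_lit 2)) (.slot (nat_lit 7)) (.slot (nat_lit 5))) (.node (.col (nat_lit 2)) (.slot (nat_lit 7)) (.slot (nat_lit 5))) (.slot (nat_lit 1))) (.col (nat_lit 0)) (.slot (nat_lit 3))) (.col (nat_lit 0)) (.slot (nat_lit 1))) (.col (nat_lit 2)) (.col (nat_lit 0)) (.slot (nat_lit 3))
def w12959 : Root := .mk (.node (.col (nat_lit 2)) (.slot (nat_lit 0)) (.slot (nat_lit 0))) (.node (.node (.col (nat_lit 0)) (.node (.col (nat_lit 2)) (.slot (nat_lit 1)) (.slot (nat_lit 1))) (.slot (nat_lit 2))) (.col (nat_lit 0)) (.slot (nat_lit 3))) (.node (.col (nat_lit 2)) (.slot (nat_lit 0)) (.slot (nat_lit 0))) (.col (nat_lit 2))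
def w12960 : Root := .mk (.node (.col (nat_lit 2)) (.slot (nat_lit 0)) (.slot (nat_lit 0))) (.node (.node (.col (nat_lit 0)) (.node (.col (nat_lit 2)) (.slot (nat_lit 10)) (.slot (nat_lit 10))) (.slot (nat_lit 9))) (.col (nat_lit 0)) (.slot (nat_lit 10))) (.node (.col (nat_lit 2)) (.slot (nat_lit 10)) (.slot (nat_lit 10))) (.node (.col (nat_lit 0)) (.slot (nat_lit 9)) (.slot (nat_lit 8)))
def w12961 : Root := .mk (.node (.col (nat_lit 2)) (.slot (nat_lit 7)) (.slot (nat_lit 5))) (.node (.node (.col (nat_lit 0)) (.node (.col (nat_lit 2)) (.slot (nat_lit 1)) (.slot (nat_lit 0))) (.slot (nat_lit 8))) (.col (nat_lit 0)) (.slot (nat_lit 5))) (.node (.col (nat_lit 2)) (.slot (nat_lit 7)) (.slot (nat_lit 5))) (.node (.col (nat_lit 1)) (.slot (nat_lit 0)) (.slot (nat_lit 0)))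
def w12962 : Root := .mk (.col (nat_lit 2)) (.node (.node (.node (.col (nat_lit 0)) (.node (.col (nat_lit 2)) (.slot (nat_lit 7)) (.slot (nat_lit 5))) (.slot (nat_lit 2))) (.col (nat_lit 0)) (.slot (nat_lit 4))) (.node (.col (nat_lit 2)) (.slot (nat_lit 7)) (.slot (nat_lit 5))) (.slot (nat_lit 1))) (.node (.col (nat_lit 2)) (.slot (nat_lit 2)) (.slot (nat_lit 1))) (.slot (nat_lit 3))
def l2989 : Root := .mk (.node (.node (.node (.col (nat_lit 2)) (.slot (nat_lit 8)) (.slot (nat_lit 8))) (.node (.col (nat_lit 2)) (.slot (nat_lit 10)) (.slot (nat_lit 10))) (.slot (nat_lit 10))) (.col (nat_lit 0)) (.slot (nat_lit 10))) (.col (nat_lit 0)) (.node (.col (nat_lit 2)) (.slot (nat_lit 10)) (.slot (nat_lit 10))) (.slot (nat_lit 9))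
def w12963 : Root := .mk (.node (.node (.col (nat_lit 2)) (.slot (nat_lit 8)) (.slot (nat_lit 8))) (.node (.col (nat_lit 2)) (.slot (nat_lit 10)) (.slot (nat_lit 10))) (.slot (nat_lit 10))) (.node (.col (nat_lit 0)) (.slot (nat_lit 11)) (.slot (nat_lit 9))) (.col (nat_lit 0)) (.slot (nat_lit 10))
def w12964 : Root := .mk (.node (.node (.node (.col (nat_lit 3)) (.slot (nat_lit 1)) (.slot (nat_lit 1))) (.node (.col (nat_lit 2)) (.slot (nat_lit 3)) (.slot (nat_lit 1))) (.slot (nat_lit 2))) (.col (nat_lit 0)) (.slot (nat_lit 3))) (.col (nat_lit 0)) (.node (.node (.col (nat_lit 0)) (.slot (nat_lit 3)) (.slot (nat_lit 1))) (.slot (nat_lit 1)) (.slot (nat_lit 1))) (.slot (nat_lit 3))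
def w12965 : Root := .mk (.col (nat_lit 3)) (.node (.node (.node (.col (nat_lit 0)) (.col (nat_lit 1)) (.slot (nat_lit 0))) (.col (nat_lit 0)) (.slot (nat_lit 1))) (.node (.col (nat_lit 2)) (.slot (nat_lit 0)) (.slot (nat_lit 0))) (.slot (nat_lit 2))) (.col (nat_lit 1)) (.col (nat_lit 0))
def l2990 : Root := .mk (.col (nat_lit 3)) (.node (.node (.node (.col (nat_lit 0)) (.col (nat_lit 1)) (.slot (nat_lit 8))) (.col (nat_lit 0)) (.slot (nat_lit 8))) (.node (.col (nat_lit 2)) (.slot (nat_lit 3)) (.slot (nat_lit 3))) (.slot (nat_lit 5))) (.col (nat_lit 1)) (.node (.col (nat_lit 4)) (.slot (nat_lit 7)) (.slot (nat_lit 5)))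
def w12966 : Root := .mk (.col (nat_lit 3)) (.node (.node (.node (.col (nat_lit 0)) (.col (nat_lit 1)) (.slot (nat_lit 8))) (.col (nat_lit 0)) (.slot (nat_lit 8))) (.node (.col (nat_lit 2)) (.slot (nat_lit 3)) (.slot (nat_lit 3))) (.slot (nat_lit 5))) (.col (nat_lit 1)) (.slot (nat_lit 8))
def w12967 : Root := .mk (.col (nat_lit 3)) (.node (.node (.node (.col (nat_lit 0)) (.col (nat_lit 1)) (.slot (nat_lit 0))) (.col (nat_lit 0)) (.slot (nat_lit 1))) (.node (.col (nat_lit 2)) (.slot (nat_lit 0)) (.slot (nat_lit 0))) (.slot (nat_lit 2))) (.col (nat_lit 4)) (.col (nat_lit 0))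
def l2991 : Root := .mk (.col (nat_lit 3)) (.node (.node (.node (.col (nat_lit 0)) (.col (nat_lit 1)) (.slot (nat_lit 3))) (.col (nat_lit 0)) (.slot (nat_lit 1))) (.node (.col (nat_lit 2)) (.slot (nat_lit 3)) (.slot (nat_lit 3))) (.slot (nat_lit 5))) (.col (nat_lit 4)) (.node (.col (nat_lit 1)) (.slot (nat_lit 7)) (.slot (nat_lit 5)))
def w12968 : Root := .mk (.col (nat_lit 3)) (.node (.node (.node (.col (nat_lit 0)) (.col (nat_lit 1)) (.slot (nat_lit 3))) (.col (nat_lit 0)) (.slot (nat_lit 1))) (.node (.col (nat_lit 2)) (.slot (nat_lit 3)) (.slot (nat_lit 3))) (.slot (nat_lit 5))) (.col (nat_lit 4)) (.slot (nat_lit 8))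
def l2992 : Root := .mk (.col (nat_lit 3)) (.node (.node (.node (.col (nat_lit 0)) (.col (nat_lit 1)) (.slot (nat_lit 3))) (.col (nat_lit 0)) (.slot (nat_lit 8))) (.col (nat_lit 1)) (.slot (nat_lit 3))) (.node (.col (nat_lit 0)) (.slot (nat_lit 3)) (.slot (nat_lit 4))) (.col (nat_lit 0))
def w12969 : Root := .mk (.col (nat_lit 3)) (.node (.node (.node (.col (nat_lit 0)) (.col (nat_lit 1)) (.slot (nat_lit 3))) (.col (nat_lit 0)) (.slot (nat_lit 8))) (.node (.col (nat_lit 2)) (.slot (nat_lit 0)) (.slot (nat_lit 0))) (.slot (nat_lit 3))) (.node (.col (nat_lit 0)) (.slot (nat_lit 4)) (.slot (nat_lit 3))) (.col (nat_lit 0))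
def w12970 : Root := .mk (.col (nat_lit 3)) (.node (.node (.node (.col (nat_lit 0)) (.col (nat_lit 1)) (.slot (nat_lit 3))) (.col (nat_lit 0)) (.slot (nat_lit 1))) (.node (.col (nat_lit 2)) (.slot (nat_lit 3)) (.slot (nat_lit 3))) (.slot (nat_lit 5))) (.node (.col (nat_lit 0)) (.slot (nat_lit 0)) (.slot (nat_lit 0))) (.node (.col (nat_lit 1)) (.slot (nat_lit 7)) (.slot (nat_lit 5)))
def w12971 : Root := .mk (.node (.node (.col (nat_lit 3)) (.node (.col (nat_lit 0)) (.slot (nat_lit 1)) (.slot (nat_lit 1))) (.node (.col (nat_lit 2)) (.slot (nat_lit 1)) (.slot (nat_lit 0)))) (.node (.col (nat_lit 2)) (.slot (nat_lit 1)) (.slot (nat_lit 1))) (.col (nat_lit 1))) (.node (.col (nat_lit 0)) (.col (nat_lit 1)) (.slot (nat_lit 0))) (.col (nat_lit 0)) (.col (nat_lit 1))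
def w12972 : Root := .mk (.node (.node (.col (nat_lit 3)) (.node (.col (nat_lit 0)) (.slot (nat_lit 0)) (.slot (nat_lit 0))) (.slot (nat_lit 0))) (.node (.col (nat_lit 2)) (.slot (nat_lit 1)) (.slot (nat_lit 1))) (.col (nat_lit 1))) (.node (.col (nat_lit 0)) (.col (nat_lit 1)) (.slot (nat_lit 1))) (.col (nat_lit 0)) (.node (.col (nat_lit 2)) (.slot (nat_lit 1)) (.slot (nat_lit 1)))
def w12973 : Root := .mk (.node (.node (.col (nat_lit 3)) (.node (.col (nat_lit 0)) (.slot (nat_lit 1)) (.slot (nat_lit 1))) (.node (.col (nat_lit 2)) (.slot (nat_lit 1)) (.slot (nat_lit 0)))) (.node (.node (.col (nat_lit 0)) (.col (nat_lit 1)) (.slot (nat_lit 2))) (.col (nat_lit 0)) (.slot (nat_lit 8))) (.col (nat_lit 1))) (.col (nat_lit 2)) (.col (nat_lit 1)) (.slot (nat_lit 0))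
def w12974 : Root := .mk (.node (.col (nat_lit 3)) (.node (.col (nat_lit 0)) (.slot (nat_lit 1)) (.slot (nat_lit 1))) (.node (.col (nat_lit 2)) (.slot (nat_lit 1)) (.slot (nat_lit 0)))) (.node (.node (.col (nat_lit 0)) (.col (nat_lit 1)) (.slot (nat_lit 0))) (.col (nat_lit 0)) (.slot (nat_lit 1))) (.node (.col (nat_lit 2)) (.slot (nat_lit 0)) (.slot (nat_lit 1))) (.col (nat_lit 1))
def l2993 : Root := .mk (.node (.col (nat_lit 3)) (.node (.col (nat_lit 0)) (.slot (nat_lit 4)) (.slot (nat_lit 4))) (.node (.col (nat_lit 2)) (.slot (nat_lit 4)) (.slot (nat_lit 4)))) (.node (.node (.col (nat_lit 0)) (.col (nat_lit 1)) (.slot (nat_lit 3))) (.col (nat_lit 0)) (.slot (nat_lit 8))) (.node (.col (nat_lit 2)) (.slot (nat_lit 4)) (.slot (nat_lit 4))) (.col (nat_lit 1))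
def w12975 : Root := .mk (.col (nat_lit 3)) (.node (.node (.node (.col (nat_lit 0)) (.col (nat_lit 1)) (.slot (nat_lit 3))) (.col (nat_lit 0)) (.slot (nat_lit 8))) (.node (.col (nat_lit 2)) (.slot (nat_lit 4)) (.slot (nat_lit 4))) (.slot (nat_lit 1))) (.node (.col (nat_lit 0)) (.slot (nat_lit 4)) (.slot (nat_lit 4))) (.node (.col (nat_lit 2)) (.slot (nat_lit 4)) (.slot (nat_lit 4)))
def w12976 : Root := .mk (.node (.node (.col (nat_lit 3)) (.slot (nat_lit 0)) (.slot (nat_lit 0))) (.node (.col (nat_lit 2)) (.slot (nat_lit 1)) (.slot (nat_lit 1))) (.slot (nat_lit 2))) (.node (.col (nat_lit 0)) (.col (nat_lit 1)) (.slot (nat_lit 3))) (.col (nat_lit 0)) (.col (nat_lit 3))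
def w12977 : Root := .mk (.node (.node (.col (nat_lit 0)) (.node (.col (nat_lit 2)) (.slot (nat_lit 1)) (.slot (nat_lit 0))) (.slot (nat_lit 1))) (.col (nat_lit 0)) (.node (.col (nat_lit 1)) (.slot (nat_lit 3)) (.slot (nat_lit 3)))) (.col (nat_lit 0)) (.col (nat_lit 1)) (.node (.col (nat_lit 1)) (.slot (nat_lit 1)) (.slot (nat_lit 1)))
def w12978 : Root := .mk (.col (nat_lit 3)) (.node (.node (.node (.col (nat_lit 0)) (.col (nat_lit 1)) (.node (.col (nat_lit 1)) (.slot (nat_lit 0)) (.slot (nat_lit 0)))) (.col (nat_lit 0)) (.node (.col (nat_lit 1)) (.slot (nat_lit 1)) (.slot (nat_lit 1)))) (.slot (nat_lit 0)) (.slot (nat_lit 1))) (.col (nat_lit 4)) (.col (nat_lit 1))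
def w12979 : Root := .mk (.col (nat_lit 3)) (.node (.node (.node (.col (nat_lit 0)) (.col (nat_lit 1)) (.node (.col (nat_lit 1)) (.slot (nat_lit 0)) (.slot (nat_lit 0)))) (.col (nat_lit 0)) (.node (.col (nat_lit 1)) (.slot (nat_lit 1)) (.slot (nat_lit 1)))) (.col (nat_lit 3)) (.slot (nat_lit 1))) (.node (.col (nat_lit 0)) (.slot (nat_lit 1)) (.slot (nat_lit 1))) (.col (nat_lit 1))
def w12980 : Root := .mk (.col (nat_lit 3)) (.node (.node (.node (.col (nat_lit 0)) (.col (nat_lit 1)) (.slot (nat_lit 0))) (.col (nat_lit 0)) (.node (.col (nat_lit 1)) (.slot (nat_lit 1)) (.slot (nat_lit 1)))) (.node (.col (nat_lit 2)) (.slot (nat_lit 1)) (.slot (nat_lit 0))) (.col (nat_lit 1))) (.slot (nat_lit 0)) (.col (nat_lit 1))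
def w12981 : Root := .mk (.col (nat_lit 3)) (.node (.node (.slot (nat_lit 0)) (.col (nat_lit 0)) (.node (.col (nat_lit 1)) (.slot (nat_lit 0)) (.slot (nat_lit 0)))) (.node (.col (nat_lit 2)) (.slot (nat_lit 1)) (.slot (nat_lit 1))) (.col (nat_lit 3))) (.node (.col (nat_lit 0)) (.slot (nat_lit 1)) .junk) (.col (nat_lit 1))
def w12982 : Root := .mk (.col (nat_lit 3)) (.node (.node (.slot (nat_lit 0)) (.col (nat_lit 0)) (.slot (nat_lit 0))) (.node (.col (nat_lit 2)) (.slot (nat_lit 0)) (.slot (nat_lit 0))) (.node (.col (nat_lit 0)) (.slot (nat_lit 0)) (.slot (nat_lit 0)))) (.node (.col (nat_lit 0)) (.slot (nat_lit 1)) (.slot (nat_lit 1))) (.col (nat_lit 1))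
def w12983 : Root := .mk (.col (nat_lit 3)) (.node (.node (.node (.col (nat_lit 0)) (.col (nat_lit 1)) (.node (.col (nat_lit 1)) (.slot (nat_lit 0)) (.slot (nat_lit 0)))) (.col (nat_lit 0)) (.node (.col (nat_lit 1)) (.slot (nat_lit 1)) (.slot (nat_lit 1)))) (.node (.col (nat_lit 2)) (.slot (nat_lit 0)) (.slot (nat_lit 0))) (.slot (nat_lit 1))) (.node (.col (nat_lit 0)) (.col (nat_lit 1)) (.slot (nat_lit 1))) (.col (nat_lit 1))
def w12984 : Root := .mk (.col (nat_lit 3)) (.node (.node (.node (.col (nat_lit 0)) (.col (nat_lit 1)) (.node (.col (nat_lit 1)) (.slot (nat_lit 0)) (.slot (nat_lit 0)))) (.col (nat_lit 0)) (.node (.col (nat_lit 1)) (.slot (nat_lit 1)) (.slot (nat_lit 1)))) (.node (.col (nat_lit 2)) (.slot (nat_lit 0)) (.slot (nat_lit 0))) (.slot (nat_lit 1))) (.node (.col (nat_lit 0)) (.col (nat_lit 3)) (.slot (nat_lit 1))) (.col (nat_lit 1))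
def w12985 : Root := .mk (.col (nat_lit 3)) (.node (.node (.slot (nat_lit 0)) (.col (nat_lit 0)) (.slot (nat_lit 0))) (.node (.col (nat_lit 2)) (.col (nat_lit 0)) (.slot (nat_lit 0))) (.slot (nat_lit 1))) (.node (.col (nat_lit 0)) (.slot (nat_lit 1)) (.slot (nat_lit 1))) (.col (nat_lit 1))
def l2994 : Root := .mk (.col (nat_lit 3)) (.node (.node (.node (.col (nat_lit 0)) (.col (nat_lit 1)) (.node (.col (nat_lit 1)) (.slot (nat_lit 1)) (.slot (nat_lit 1)))) (.col (nat_lit 0)) (.node (.col (nat_lit 1)) (.slot (nat_lit 3)) (.slot (nat_lit 3)))) (.node (.col (nat_lit 2)) (.slot (nat_lit 1)) (.slot (nat_lit 1))) (.slot (nat_lit 2))) (.node (.col (nat_lit 0)) (.slot (nat_lit 2)) (.slot (nat_lit 2))) (.col (nat_lit 1))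
def w12986 : Root := .mk (.node (.node (.node (.col (nat_lit 3)) (.node (.col (nat_lit 0)) (.slot (nat_lit 2)) (.slot (nat_lit 2))) (.node (.col (nat_lit 3)) (.slot (nat_lit 0)) (.slot (nat_lit 0)))) (.node (.col (nat_lit 2)) (.slot (nat_lit 1)) (.slot (nat_lit 1))) (.slot (nat_lit 2))) (.col (nat_lit 0)) (.node (.col (nat_lit 1)) (.slot (nat_lit 3)) (.slot (nat_lit 3)))) (.col (nat_lit 0)) (.col (nat_lit 1)) (.node (.col (nat_lit 1)) (.slot (nat_lit 1)) (.slot (nat_lit 1)))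
def w12987 : Root := .mk (.col (nat_lit 3)) (.node (.node (.node (.col (nat_lit 0)) (.col (nat_lit 1)) (.slot (nat_lit 1))) (.col (nat_lit 0)) (.node (.col (nat_lit 1)) (.node (.col (nat_lit 1)) (.slot (nat_lit 0)) (.slot (nat_lit 0))) (.slot (nat_lit 1)))) (.col (nat_lit 3)) (.slot (nat_lit 1))) (.node (.col (nat_lit 0)) (.slot (nat_lit 1)) (.slot (nat_lit 1))) (.col (nat_lit 1))
def w12988 : Root := .mk (.col (nat_lit 3)) (.node (.node (.node (.col (nat_lit 0)) (.col (nat_lit 1)) (.slot (nat_lit 5))) (.col (nat_lit 0)) (.node (.col (nat_lit 1)) (.slot (nat_lit 0)) (.slot (nat_lit 0)))) (.node (.col (nat_lit 2)) (.slot (nat_lit 1)) (.slot (nat_lit 1))) (.col (nat_lit 1))) (.slot (nat_lit 0)) (.col (nat_lit 1))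
def w12989 : Root := .mk (.col (nat_lit 3)) (.node (.node (.node (.col (nat_lit 0)) (.col (nat_lit 1)) (.slot (nat_lit 1))) (.col (nat_lit 0)) (.node (.col (nat_lit 1)) (.node (.col (nat_lit 1)) (.slot (nat_lit 0)) (.slot (nat_lit 0))) (.slot (nat_lit 1)))) (.node (.col (nat_lit 2)) (.slot (nat_lit 0)) (.slot (nat_lit 0))) (.slot (nat_lit 1))) (.node (.col (nat_lit 0)) (.col (nat_lit 1)) (.slot (nat_lit 1))) (.col (nat_lit 1))
def w12990 : Root := .mk (.col (nat_lit 3)) (.node (.node (.node (.col (nat_lit 0)) (.col (nat_lit 1)) (.slot (nat_lit 1))) (.col (nat_lit 0)) (.node (.col (nat_lit 1)) (.node (.col (nat_lit 1)) (.slot (nat_lit 0)) (.slot (nat_lit 0))) (.slot (nat_lit 1)))) (.node (.col (nat_lit 2)) (.slot (nat_lit 0)) (.slot (nat_lit 0))) (.slot (nat_lit 1))) (.node (.col (nat_lit 0)) (.col (nat_lit 3)) (.slot (nat_lit 1))) (.col (nat_lit 1))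
def l2995 : Root := .mk (.col (nat_lit 3)) (.node (.node (.node (.col (nat_lit 0)) (.col (nat_lit 1)) (.slot (nat_lit 5))) (.col (nat_lit 0)) (.node (.col (nat_lit 1)) (.node (.col (nat_lit 1)) (.slot (nat_lit 0)) (.slot (nat_lit 0))) (.slot (nat_lit 2)))) (.node (.col (nat_lit 2)) (.slot (nat_lit 1)) (.slot (nat_lit 1))) (.slot (nat_lit 2))) (.node (.col (nat_lit 0)) (.slot (nat_lit 2)) (.slot (nat_lit 2))) (.col (nat_lit 1))
def w12991 : Root := .mk (.node (.node (.col (nat_lit 3)) (.node (.col (nat_lit 0)) (.slot (nat_lit 2)) (.slot (nat_lit 2))) (.node (.col (nat_lit 3)) (.slot (nat_lit 0)) (.slot (nat_lit 0)))) (.node (.col (nat_lit 2)) (.slot (nat_lit 1)) (.slot (nat_lit 1))) (.slot (nat_lit 2))) (.node (.col (nat_lit 0)) (.col (nat_lit 1)) (.slot (nat_lit 5))) (.col (nat_lit 0)) (.node (.col (nat_lit 1)) (.node (.col (nat_lit 1)) (.slot (nat_lit 0)) (.slot (nat_lit 0))) (.slot (nat_lit 2)))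
def w12992 : Root := .mk (.col (nat_lit 3)) (.node (.node (.node (.col (nat_lit 0)) (.col (nat_lit 1)) (.slot (nat_lit 5))) (.col (nat_lit 0)) (.node (.col (nat_lit 1)) (.node (.slot (nat_lit 0)) (.slot (nat_lit 0)) (.slot (nat_lit 0))) (.slot (nat_lit 0)))) (.node (.col (nat_lit 2)) (.slot (nat_lit 0)) (.slot (nat_lit 0))) (.col (nat_lit 3))) (.node (.col (nat_lit 0)) (.slot (nat_lit 1)) (.slot (nat_lit 4))) (.col (nat_lit 4))
def w12993 : Root := .mk (.col (nat_lit 3)) (.node (.node (.node (.col (nat_lit 0)) (.col (nat_lit 1)) (.slot (nat_lit 2))) (.col (nat_lit 0)) (.node (.col (nat_lit 1)) (.node (.slot (nat_lit 0)) (.slot (nat_lit 0)) (.slot (nat_lit 0))) (.slot (nat_lit 0)))) (.node (.col (nat_lit 2)) (.slot (nat_lit 0)) (.slot (nat_lit 0))) (.slot (nat_lit 1))) (.node (.col (nat_lit 0)) (.col (nat_lit 3)) (.slot (nat_lit 1))) (.col (nat_lit 4))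
def l2996 : Root := .mk (.col (nat_lit 3)) (.node (.node (.node (.col (nat_lit 0)) (.col (nat_lit 1)) (.slot (nat_lit 5))) (.col (nat_lit 0)) (.node (.col (nat_lit 1)) (.node (.slot (nat_lit 0)) (.slot (nat_lit 0)) (.slot (nat_lit 0))) (.slot (nat_lit 3)))) (.node (.col (nat_lit 2)) (.slot (nat_lit 1)) (.slot (nat_lit 1))) (.slot (nat_lit 2))) (.node (.col (nat_lit 0)) (.slot (nat_lit 4)) (.slot (nat_lit 2))) (.col (nat_lit 4))
def w12994 : Root := .mk (.node (.node (.col (nat_lit 3)) (.node (.col (nat_lit 0)) (.slot (nat_lit 4)) (.slot (nat_lit 2))) (.node (.col (nat_lit 3)) (.slot (nat_lit 0)) (.slot (nat_lit 0)))) (.node (.col (nat_lit 2)) (.slot (nat_lit 1)) (.slot (nat_lit 1))) (.slot (nat_lit 2))) (.node (.col (nat_lit 0)) (.col (nat_lit 1)) (.slot (nat_lit 5))) (.col (nat_lit 0)) (.node (.col (nat_lit 1)) (.node (.slot (nat_lit 0)) (.slot (nat_lit 0)) (.slot (nat_lit 0))) (.slot (nat_lit 3)))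
def l2997 : Root := .mk (.node (.node (.col (nat_lit 3)) (.node (.col (nat_lit 0)) (.slot (nat_lit 7)) (.slot (nat_lit 5))) (.node (.col (nat_lit 3)) (.slot (nat_lit 3)) (.slot (nat_lit 1)))) (.node (.col (nat_lit 2)) (.slot (nat_lit 1)) (.slot (nat_lit 1))) (.slot (nat_lit 3))) (.node (.col (nat_lit 0)) (.col (nat_lit 1)) (.slot (nat_lit 5))) (.col (nat_lit 0)) (.node (.col (nat_lit 1)) (.slot (nat_lit 7)) (.slot (nat_lit 5)))
def w12995 : Root := .mk (.col (nat_lit 3)) (.node (.node (.node (.col (nat_lit 0)) (.col (nat_lit 1)) (.slot (nat_lit 5))) (.col (nat_lit 0)) (.slot (nat_lit 8))) (.node (.col (nat_lit 2)) (.slot (nat_lit 1)) (.slot (nat_lit 1))) (.slot (nat_lit 3))) (.node (.col (nat_lit 0)) (.slot (nat_lit 7)) (.slot (nat_lit 5))) (.node (.col (nat_lit 3)) (.slot (nat_lit 3)) (.slot (nat_lit 1)))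
def w12996 : Root := .mk (.col (nat_lit 3)) (.node (.node (.node (.col (nat_lit 0)) (.col (nat_lit 1)) (.slot (nat_lit 8))) (.col (nat_lit 0)) (.slot (nat_lit 8))) (.node (.col (nat_lit 2)) (.slot (nat_lit 3)) (.slot (nat_lit 3))) (.slot (nat_lit 5))) (.node (.col (nat_lit 0)) (.slot (nat_lit 0)) (.slot (nat_lit 0))) (.node (.col (nat_lit 4)) (.slot (nat_lit 7)) (.slot (nat_lit 5)))
def w12997 : Root := .mk (.node (.node (.col (nat_lit 3)) .junk (.node (.slot (nat_lit 0)) (.slot (nat_lit 0)) (.slot (nat_lit 0)))) (.node (.col (nat_lit 2)) (.node (.col (nat_lit 0)) (.slot (nat_lit 1)) (.slot (nat_lit 1))) (.slot (nat_lit 2))) (.col (nat_lit 2))) (.node .junk (.col (nat_lit 1)) (.slot (nat_lit 1))) (.col (nat_lit 0)) (.col (nat_lit 2))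
def w13001 : Root := .mk (.col (nat_lit 3)) (.node (.node (.slot (nat_lit 0)) (.col (nat_lit 0)) (.col (nat_lit 2))) (.node (.col (nat_lit 2)) (.col (nat_lit 4)) (.slot (nat_lit 0))) (.col (nat_lit 2))) (.col (nat_lit 4)) (.node (.slot (nat_lit 0)) (.col (nat_lit 1)) (.slot (nat_lit 1)))
def w13011 : Root := .mk (.node (.col (nat_lit 4)) (.node (.col (nat_lit 2)) (.slot (nat_lit 0)) (.slot (nat_lit 0))) (.node (.col (nat_lit 0)) (.slot (nat_lit 1)) (.slot (nat_lit 0)))) (.node (.col (nat_lit 0)) (.col (nat_lit 1)) (.slot (nat_lit 0))) (.col (nat_lit 0)) (.col (nat_lit 3))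
def l3001 : Root := .mk (.node (.col (nat_lit 1)) (.node (.col (nat_lit 2)) (.slot (nat_lit 1)) (.slot (nat_lit 1))) (.node (.col (nat_lit 0)) (.slot (nat_lit 1)) (.slot (nat_lit 1)))) (.node (.col (nat_lit 0)) (.col (nat_lit 1)) (.slot (nat_lit 5))) (.col (nat_lit 0)) (.col (nat_lit 3))
def w13012 : Root := .mk (.node (.node (.col (nat_lit 3)) (.slot (nat_lit 0)) (.slot (nat_lit 0))) (.node (.col (nat_lit 2)) (.slot (nat_lit 1)) (.slot (nat_lit 1))) (.node (.col (nat_lit 0)) (.slot (nat_lit 1)) (.slot (nat_lit 1)))) (.node (.col (nat_lit 0)) (.col (nat_lit 1)) (.slot (nat_lit 5))) (.col (nat_lit 0)) (.col (nat_lit 3))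
def w13013 : Root := .mk (.node (.node (.col (nat_lit 3)) (.slot (nat_lit 0)) (.node (.slot (nat_lit 0)) (.slot (nat_lit 0)) (.slot (nat_lit 0)))) (.node (.col (nat_lit 2)) (.slot (nat_lit 0)) (.slot (nat_lit 0))) (.node (.col (nat_lit 1)) (.slot (nat_lit 1)) (.slot (nat_lit 1)))) (.node (.col (nat_lit 0)) (.col (nat_lit 1)) (.slot (nat_lit 3))) (.col (nat_lit 0)) (.col (nat_lit 3))
def w13014 : Root := .mk (.node (.node (.col (nat_lit 3)) (.slot (nat_lit 0)) (.slot (nat_lit 0))) (.node (.col (nat_lit 2)) (.slot (nat_lit 1)) (.slot (nat_lit 1))) (.node (.col (nat_lit 2)) (.slot (nat_lit 1)) (.slot (nat_lit 1)))) (.node .junk (.col (nat_lit 1)) (.slot (nat_lit 1))) (.col (nat_lit 0)) (.col (nat_lit 3))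
def w13015 : Root := .mk (.node (.node (.col (nat_lit 3)) (.slot (nat_lit 0)) (.slot (nat_lit 0))) (.node (.col (nat_lit 2)) (.slot (nat_lit 1)) (.slot (nat_lit 0))) (.node (.col (nat_lit 3)) (.slot (nat_lit 1)) (.slot (nat_lit 1)))) (.node (.col (nat_lit 0)) (.col (nat_lit 1)) (.slot (nat_lit 5))) (.col (nat_lit 0)) (.col (nat_lit 3))
def l3002 : Root := .mk (.node (.node (.col (nat_lit 3)) (.node (.col (nat_lit 0)) .junk .junk) (.node (.slot (nat_lit 0)) (.slot (nat_lit 0)) (.slot (nat_lit 0)))) (.col (nat_lit 1)) (.node (.col (nat_lit 4)) (.slot (nat_lit 1)) (.slot (nat_lit 0)))) (.node (.col (nat_lit 0)) (.col (nat_lit 1)) (.slot (nat_lit 5))) (.col (nat_lit 0)) (.col (nat_lit 3))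
def w13016 : Root := .mk (.node (.node (.col (nat_lit 3)) (.node (.col (nat_lit 0)) .junk .junk) (.node (.slot (nat_lit 0)) (.slot (nat_lit 0)) (.slot (nat_lit 0)))) (.node (.col (nat_lit 2)) (.slot (nat_lit 0)) (.slot (nat_lit 0))) (.node (.col (nat_lit 4)) (.slot (nat_lit 1)) (.slot (nat_lit 0)))) (.node (.col (nat_lit 0)) (.col (nat_lit 1)) (.slot (nat_lit 5))) (.col (nat_lit 0)) (.col (nat_lit 3))
def w13027 : Root := .mk (.node (.node (.node (.col (nat_lit 3)) (.node (.col (nat_lit 0)) (.slot (nat_lit 1)) .junk) (.col (nat_lit 4))) (.col (nat_lit 3)) (.slot (nat_lit 1))) (.col (nat_lit 0)) (.slot (nat_lit 1))) (.col (nat_lit 0)) (.col (nat_lit 1)) (.col (nat_lit 4))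
def w13028 : Root := .mk (.col (nat_lit 3)) (.node (.node (.node .junk (.col (nat_lit 1)) (.col (nat_lit 4))) (.col (nat_lit 0)) (.slot (nat_lit 1))) (.node (.col (nat_lit 2)) (.slot (nat_lit 0)) (.slot (nat_lit 0))) (.slot (nat_lit 1))) (.node (.col (nat_lit 0)) (.col (nat_lit 3)) (.slot (nat_lit 1))) (.col (nat_lit 4))
def w13029 : Root := .mk (.col (nat_lit 3)) (.node (.node (.node .junk (.col (nat_lit 1)) (.col (nat_lit 4))) (.col (nat_lit 0)) (.slot (nat_lit 1))) (.node (.col (nat_lit 2)) (.slot (nat_lit 0)) (.slot (nat_lit 0))) (.slot (nat_lit 1))) (.node (.col (nat_lit 0)) (.col (nat_lit 4)) (.slot (nat_lit 1))) (.col (nat_lit 4))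
def l3004 : Root := .mk (.node (.node (.node (.col (nat_lit 3)) (.node (.col (nat_lit 0)) (.slot (nat_lit 2)) (.slot (nat_lit 2))) (.col (nat_lit 4))) (.node (.col (nat_lit 2)) (.slot (nat_lit 3)) (.slot (nat_lit 1))) (.slot (nat_lit 8))) (.col (nat_lit 0)) (.slot (nat_lit 3))) (.col (nat_lit 0)) (.col (nat_lit 1)) (.col (nat_lit 4))
def w13030 : Root := .mk (.node (.node (.node (.col (nat_lit 3)) (.node (.col (nat_lit 0)) (.slot (nat_lit 2)) (.slot (nat_lit 2))) (.node (.slot (nat_lit 0)) (.slot (nat_lit 0)) (.slot (nat_lit 0)))) (.node (.col (nat_lit 2)) (.slot (nat_lit 3)) (.slot (nat_lit 1))) (.slot (nat_lit 8))) (.col (nat_lit 0)) (.slot (nat_lit 3))) (.col (nat_lit 0)) (.col (nat_lit 1)) (.col (nat_lit 4))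
def w13031 : Root := .mk (.node (.node (.col (nat_lit 3)) (.node (.col (nat_lit 0)) (.slot (nat_lit 1)) (.slot (nat_lit 0))) (.node (.slot (nat_lit 0)) (.slot (nat_lit 0)) (.slot (nat_lit 0)))) (.node (.col (nat_lit 2)) (.slot (nat_lit 0)) (.slot (nat_lit 0))) (.slot (nat_lit 3))) (.node (.col (nat_lit 0)) (.col (nat_lit 1)) (.node (.col (nat_lit 2)) (.slot (nat_lit 1)) .junk)) (.col (nat_lit 0)) (.col (nat_lit 1))
def w13032 : Root := .mk (.node (.node (.node (.col (nat_lit 3)) (.slot (nat_lit 0)) (.slot (nat_lit 0))) (.node (.col (nat_lit 2)) (.slot (nat_lit 0)) (.slot (nat_lit 0))) (.slot (nat_lit 2))) (.col (nat_lit 0)) (.node (.col (nat_lit 2)) (.slot (nat_lit 1)) (.slot (nat_lit 1)))) (.col (nat_lit 0)) (.col (nat_lit 1)) (.node (.col (nat_lit 2)) (.slot (nat_lit 1)) .junk)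
def w13033 : Root := .mk (.node (.node (.col (nat_lit 2)) (.node (.col (nat_lit 2)) (.slot (nat_lit 0)) (.slot (nat_lit 0))) (.slot (nat_lit 2))) (.col (nat_lit 0)) (.slot (nat_lit 2))) (.col (nat_lit 0)) (.col (nat_lit 1)) (.node (.col (nat_lit 2)) .junk (.slot (nat_lit 1)))
def w13034 : Root := .mk (.node (.node (.node (.col (nat_lit 3)) (.node (.col (nat_lit 0)) (.slot (nat_lit 3)) (.slot (nat_lit 1))) (.node (.slot (nat_lit 0)) (.slot (nat_lit 0)) (.slot (nat_lit 0)))) (.node (.col (nat_lit 2)) (.slot (nat_lit 3)) (.slot (nat_lit 3))) (.slot (nat_lit 5))) (.col (nat_lit 0)) (.slot (nat_lit 8))) (.col (nat_lit 0)) (.col (nat_lit 1)) (.node (.col (nat_lit 2)) .junk (.slot (nat_lit 1)))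
def w13035 : Root := .mk (.node (.node (.node (.col (nat_lit 3)) (.slot (nat_lit 0)) (.node (.slot (nat_lit 0)) (.slot (nat_lit 0)) (.slot (nat_lit 0)))) (.node (.col (nat_lit 2)) (.slot (nat_lit 0)) (.slot (nat_lit 0))) (.col (nat_lit 2))) (.col (nat_lit 0)) (.slot (nat_lit 1))) (.col (nat_lit 0)) (.col (nat_lit 1)) (.node (.col (nat_lit 2)) (.slot (nat_lit 1)) .junk)
def l3005 : Root := .mk (.node (.node (.node (.col (nat_lit 3)) (.node (.col (nat_lit 0)) (.slot (nat_lit 3)) (.slot (nat_lit 2))) (.node (.slot (nat_lit 0)) (.slot (nat_lit 0)) (.slot (nat_lit 0)))) (.node (.col (nat_lit 2)) (.slot (nat_lit 3)) (.slot (nat_lit 3))) (.slot (nat_lit 8))) (.col (nat_lit 0)) (.slot (nat_lit 8))) (.col (nat_lit 0)) (.col (nat_lit 1)) (.node (.col (nat_lit 2)) (.slot (nat_lit 12)) (.slot (nat_lit 8)))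
def w13036 : Root := .mk (.col (nat_lit 3)) (.node (.node (.node (.col (nat_lit 0)) (.col (nat_lit 1)) (.slot (nat_lit 13))) (.col (nat_lit 0)) (.slot (nat_lit 8))) (.node (.col (nat_lit 2)) (.slot (nat_lit 3)) (.slot (nat_lit 3))) (.slot (nat_lit 8))) (.node (.col (nat_lit 0)) (.slot (nat_lit 3)) (.slot (nat_lit 2))) (.node (.slot (nat_lit 0)) (.slot (nat_lit 0)) (.slot (nat_lit 0)))
def w13037 : Root := .mk (.node (.node (.node (.col (nat_lit 3)) (.node (.col (nat_lit 0)) (.slot (nat_lit 1)) (.slot (nat_lit 1))) (.slot (nat_lit 2))) (.col (nat_lit 3)) (.slot (nat_lit 1))) (.col (nat_lit 0)) (.slot (nat_lit 1))) (.col (nat_lit 0)) (.col (nat_lit 1)) (.slot (nat_lit 1))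
def w13038 : Root := .mk (.node (.col (nat_lit 3)) (.node (.col (nat_lit 0)) (.slot (nat_lit 8)) (.slot (nat_lit 8))) (.slot (nat_lit 3))) (.node (.node (.col (nat_lit 0)) (.col (nat_lit 1)) (.slot (nat_lit 0))) (.col (nat_lit 0)) (.slot (nat_lit 3))) (.node (.col (nat_lit 2)) (.slot (nat_lit 3)) (.slot (nat_lit 1))) (.col (nat_lit 2))
def w13039 : Root := .mk (.node (.node (.node (.col (nat_lit 3)) (.node (.col (nat_lit 0)) (.slot (nat_lit 1)) (.slot (nat_lit 1))) (.slot (nat_lit 2))) (.node (.col (nat_lit 2)) (.slot (nat_lit 0)) (.slot (nat_lit 0))) (.node (.col (nat_lit 0)) (.slot (nat_lit 2)) (.slot (nat_lit 2)))) (.col (nat_lit 0)) (.slot (nat_lit 1))) (.col (nat_lit 0)) (.col (nat_lit 1)) (.slot (nat_lit 1))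
def w13040 : Root := .mk (.node (.node (.node (.col (nat_lit 3)) (.node (.col (nat_lit 0)) (.slot (nat_lit 1)) (.slot (nat_lit 1))) (.slot (nat_lit 2))) (.node (.col (nat_lit 2)) (.slot (nat_lit 1)) (.slot (nat_lit 1))) (.node (.col (nat_lit 4)) (.slot (nat_lit 1)) (.slot (nat_lit 0)))) (.col (nat_lit 0)) (.slot (nat_lit 1))) (.col (nat_lit 0)) (.col (nat_lit 1)) (.slot (nat_lit 5))
def w13041 : Root := .mk (.node (.node (.node (.col (nat_lit 3)) (.node (.col (nat_lit 0)) (.col (nat_lit 3)) (.slot (nat_lit 8))) (.slot (nat_lit 8))) (.node (.col (nat_lit 2)) (.slot (nat_lit 3)) (.slot (nat_lit 3))) (.slot (nat_lit 5))) (.col (nat_lit 0)) (.node (.col (nat_lit 1)) (.slot (nat_lit 7)) (.slot (nat_lit 5)))) (.col (nat_lit 0)) (.col (nat_lit 1)) (.slot (nat_lit 0))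
def w13042 : Root := .mk (.col (nat_lit 3)) (.node (.node (.node (.col (nat_lit 0)) (.col (nat_lit 1)) (.slot (nat_lit 0))) (.col (nat_lit 0)) (.node (.col (nat_lit 1)) (.slot (nat_lit 0)) (.slot (nat_lit 1)))) (.node (.col (nat_lit 2)) (.slot (nat_lit 0)) (.slot (nat_lit 0))) (.col (nat_lit 2))) (.node (.col (nat_lit 0)) .junk (.slot (nat_lit 1))) (.col (nat_lit 2))
def w13043 : Root := .mk (.col (nat_lit 3)) (.node (.node (.node (.col (nat_lit 0)) (.col (nat_lit 1)) (.slot (nat_lit 0))) (.col (nat_lit 0)) (.node (.col (nat_lit 1)) (.slot (nat_lit 0)) (.slot (nat_lit 1)))) (.node (.col (nat_lit 2)) (.slot (nat_lit 0)) (.slot (nat_lit 0))) (.col (nat_lit 3))) (.node (.col (nat_lit 0)) .junk (.slot (nat_lit 1))) (.col (nat_lit 2))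
def w13044 : Root := .mk (.col (nat_lit 3)) (.node (.node (.node (.col (nat_lit 0)) (.col (nat_lit 1)) (.slot (nat_lit 1))) (.col (nat_lit 0)) (.node (.col (nat_lit 1)) (.node (.col (nat_lit 1)) (.slot (nat_lit 0)) (.slot (nat_lit 0))) (.slot (nat_lit 1)))) (.node (.col (nat_lit 2)) (.slot (nat_lit 0)) (.slot (nat_lit 0))) (.node (.col (nat_lit 0)) (.slot (nat_lit 0)) (.slot (nat_lit 0)))) (.node (.col (nat_lit 0)) (.col (nat_lit 3)) (.slot (nat_lit 1))) (.col (nat_lit 2))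
def w13045 : Root := .mk (.node (.col (nat_lit 3)) (.node (.node (.node (.col (nat_lit 0)) (.col (nat_lit 1)) (.slot (nat_lit 1))) (.col (nat_lit 0)) (.node (.col (nat_lit 1)) (.node (.col (nat_lit 1)) (.slot (nat_lit 0)) (.slot (nat_lit 0))) (.slot (nat_lit 1)))) (.node (.col (nat_lit 2)) (.slot (nat_lit 1)) (.slot (nat_lit 0))) (.slot (nat_lit 1))) (.col (nat_lit 2))) (.col (nat_lit 0)) (.col (nat_lit 3)) (.col (nat_lit 2))
def w13046 : Root := .mk (.col (nat_lit 3)) (.node (.node (.node (.col (nat_lit 0)) (.col (nat_lit 1)) (.slot (nat_lit 1))) (.col (nat_lit 0)) (.node (.col (nat_lit 1)) (.node (.col (nat_lit 1)) (.slot (nat_lit 0)) (.slot (nat_lit 0))) (.slot (nat_lit 1)))) (.node (.col (nat_lit 2)) (.slot (nat_lit 3)) (.slot (nat_lit 1))) (.slot (nat_lit 1))) (.slot (nat_lit 0)) (.col (nat_lit 2))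
def w13047 : Root := .mk (.node (.node (.col (nat_lit 3)) (.node (.col (nat_lit 0)) (.col (nat_lit 3)) (.slot (nat_lit 5))) (.col (nat_lit 2))) (.slot (nat_lit 0)) (.slot (nat_lit 1))) (.col (nat_lit 3)) (.col (nat_lit 0)) (.node (.col (nat_lit 1)) .junk (.slot (nat_lit 1)))
def w13048 : Root := .mk (.col (nat_lit 3)) (.node (.node (.slot (nat_lit 0)) (.col (nat_lit 0)) (.slot (nat_lit 0))) (.node (.col (nat_lit 2)) (.col (nat_lit 0)) (.slot (nat_lit 3))) (.slot (nat_lit 1))) (.node (.col (nat_lit 0)) .junk (.slot (nat_lit 1))) (.col (nat_lit 2))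
def w13049 : Root := .mk (.col (nat_lit 3)) (.node (.node (.node (.col (nat_lit 0)) (.col (nat_lit 1)) (.slot (nat_lit 1))) (.col (nat_lit 0)) (.node (.col (nat_lit 1)) (.node (.col (nat_lit 1)) (.slot (nat_lit 0)) (.slot (nat_lit 0))) (.slot (nat_lit 1)))) (.node (.col (nat_lit 2)) (.slot (nat_lit 0)) (.slot (nat_lit 1))) (.slot (nat_lit 1))) (.node (.col (nat_lit 0)) (.col (nat_lit 3)) (.slot (nat_lit 0))) (.col (nat_lit 2))
def l3006 : Root := .mk (.col (nat_lit 3)) (.node (.node (.node (.col (nat_lit 0)) (.col (nat_lit 1)) (.slot (nat_lit 2))) (.col (nat_lit 0)) (.node (.col (nat_lit 1)) (.node (.col (nat_lit 1)) (.slot (nat_lit 0)) (.slot (nat_lit 0))) (.slot (nat_lit 3)))) (.node (.col (nat_lit 2)) (.slot (nat_lit 3)) (.slot (nat_lit 3))) (.slot (nat_lit 2))) (.node (.col (nat_lit 0)) (.col (nat_lit 3)) (.slot (nat_lit 5))) (.col (nat_lit 2))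
def w13050 : Root := .mk (.node (.node (.col (nat_lit 3)) (.node (.col (nat_lit 0)) (.col (nat_lit 3)) (.slot (nat_lit 5))) (.slot (nat_lit 1))) (.node (.col (nat_lit 2)) (.slot (nat_lit 3)) (.slot (nat_lit 3))) (.slot (nat_lit 2))) (.node (.col (nat_lit 0)) (.col (nat_lit 1)) (.slot (nat_lit 2))) (.col (nat_lit 0)) (.node (.col (nat_lit 1)) (.node (.col (nat_lit 1)) (.slot (nat_lit 0)) (.slot (nat_lit 0))) (.slot (nat_lit 3)))
def w13051 : Root := .mk (.node (.col (nat_lit 4)) (.node (.col (nat_lit 2)) (.slot (nat_lit 0)) (.slot (nat_lit 0))) (.slot (nat_lit 2))) (.node (.col (nat_lit 0)) (.col (nat_lit 1)) (.slot (nat_lit 1))) (.col (nat_lit 0)) (.node (.col (nat_lit 1)) (.node (.slot (nat_lit 0)) (.slot (nat_lit 0)) (.slot (nat_lit 0))) (.slot (nat_lit 3)))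
def w13052 : Root := .mk (.col (nat_lit 3)) (.node (.node (.node (.col (nat_lit 0)) (.col (nat_lit 1)) (.slot (nat_lit 2))) (.col (nat_lit 0)) (.node (.col (nat_lit 1)) (.node (.slot (nat_lit 0)) (.slot (nat_lit 0)) (.slot (nat_lit 0))) (.slot (nat_lit 0)))) (.node (.col (nat_lit 2)) (.slot (nat_lit 2)) (.slot (nat_lit 1))) (.slot (nat_lit 1))) (.col (nat_lit 2)) (.node (.col (nat_lit 2)) (.slot (nat_lit 1)) (.slot (nat_lit 1)))
def w13053 : Root := .mk (.col (nat_lit 3)) (.node (.node (.node (.col (nat_lit 0)) (.col (nat_lit 1)) (.slot (nat_lit 2))) (.col (nat_lit 0)) (.node (.col (nat_lit 1)) (.node (.slot (nat_lit 0)) (.slot (nat_lit 0)) (.slot (nat_lit 0))) (.slot (nat_lit 0)))) (.node (.col (nat_lit 2)) (.slot (nat_lit 1)) (.slot (nat_lit 0))) (.slot (nat_lit 1))) (.col (nat_lit 2)) (.node (.col (nat_lit 3)) (.slot (nat_lit 0)) (.slot (nat_lit 0)))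
def w13054 : Root := .mk (.col (nat_lit 3)) (.node (.node (.node (.col (nat_lit 0)) (.col (nat_lit 1)) (.slot (nat_lit 2))) (.col (nat_lit 0)) (.node (.col (nat_lit 1)) (.node (.slot (nat_lit 0)) (.slot (nat_lit 0)) (.slot (nat_lit 0))) (.slot (nat_lit 0)))) (.node (.col (nat_lit 2)) (.slot (nat_lit 1)) (.slot (nat_lit 0))) (.slot (nat_lit 1))) (.col (nat_lit 2)) (.node (.slot (nat_lit 0)) (.slot (nat_lit 0)) (.slot (nat_lit 0)))
def w13055 : Root := .mk (.col (nat_lit 4)) (.node (.node (.col (nat_lit 0)) (.col (nat_lit 1)) (.slot (nat_lit 2))) (.col (nat_lit 0)) (.node (.col (nat_lit 1)) (.node (.slot (nat_lit 0)) (.slot (nat_lit 0)) (.slot (nat_lit 0))) (.slot (nat_lit 0)))) (.node (.col (nat_lit 2)) (.slot (nat_lit 0)) (.slot (nat_lit 0))) (.col (nat_lit 2))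
def w13056 : Root := .mk (.node (.col (nat_lit 3)) .junk (.col (nat_lit 0))) (.node (.node (.col (nat_lit 0)) (.col (nat_lit 1)) (.slot (nat_lit 2))) (.col (nat_lit 0)) (.node (.col (nat_lit 1)) (.node (.slot (nat_lit 0)) (.slot (nat_lit 0)) (.slot (nat_lit 0))) (.slot (nat_lit 0)))) (.node (.col (nat_lit 2)) (.slot (nat_lit 0)) (.slot (nat_lit 0))) (.col (nat_lit 2))
def w13057 : Root := .mk (.node (.col (nat_lit 3)) .junk (.col (nat_lit 1))) (.node (.node (.col (nat_lit 0)) (.col (nat_lit 1)) (.slot (nat_lit 2))) (.col (nat_lit 0)) (.node (.col (nat_lit 1)) (.node (.slot (nat_lit 0)) (.slot (nat_lit 0)) (.slot (nat_lit 0))) (.slot (nat_lit 0)))) (.node (.col (nat_lit 2)) (.slot (nat_lit 0)) (.slot (nat_lit 0))) (.col (nat_lit 2))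
def w13058 : Root := .mk (.col (nat_lit 3)) (.node (.node (.node (.col (nat_lit 0)) (.col (nat_lit 1)) (.slot (nat_lit 1))) (.col (nat_lit 0)) (.node (.col (nat_lit 1)) (.slot (nat_lit 0)) (.slot (nat_lit 0)))) (.node (.col (nat_lit 2)) (.slot (nat_lit 0)) (.slot (nat_lit 0))) (.col (nat_lit 2))) (.col (nat_lit 2)) (.node (.col (nat_lit 4)) .junk (.slot (nat_lit 1)))
def w13059 : Root := .mk (.col (nat_lit 3)) (.node (.node (.node (.col (nat_lit 0)) (.col (nat_lit 1)) (.slot (nat_lit 0))) (.col (nat_lit 0)) (.node (.col (nat_lit 1)) (.node (.slot (nat_lit 0)) (.slot (nat_lit 0)) (.slot (nat_lit 0))) (.slot (nat_lit 1)))) (.node (.col (nat_lit 2)) (.col (nat_lit 0)) (.slot (nat_lit 3))) (.col (nat_lit 2))) (.col (nat_lit 2)) (.slot (nat_lit 0))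
def w13060 : Root := .mk (.col (nat_lit 3)) (.node (.node (.node (.col (nat_lit 0)) (.col (nat_lit 1)) (.slot (nat_lit 0))) (.col (nat_lit 0)) (.node (.col (nat_lit 1)) (.node (.slot (nat_lit 0)) (.slot (nat_lit 0)) (.slot (nat_lit 0))) (.slot (nat_lit 0)))) (.node (.col (nat_lit 2)) (.col (nat_lit 1)) (.slot (nat_lit 0))) (.col (nat_lit 2))) (.col (nat_lit 2)) (.node (.col (nat_lit 4)) (.slot (nat_lit 1)) .junk)
def l3007 : Root := .mk (.col (nat_lit 3)) (.node (.node (.node (.col (nat_lit 0)) (.col (nat_lit 1)) (.slot (nat_lit 2))) (.col (nat_lit 0)) (.node (.col (nat_lit 1)) (.node (.slot (nat_lit 0)) (.slot (nat_lit 0)) (.slot (nat_lit 0))) (.slot (nat_lit 1)))) (.node (.col (nat_lit 2)) (.slot (nat_lit 3)) (.slot (nat_lit 3))) (.col (nat_lit 2))) (.col (nat_lit 2)) (.node (.col (nat_lit 4)) (.slot (nat_lit 7)) (.slot (nat_lit 5)))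
def w13061 : Root := .mk (.node (.col (nat_lit 3)) (.col (nat_lit 2)) (.slot (nat_lit 8))) (.node (.node (.col (nat_lit 0)) (.col (nat_lit 1)) (.slot (nat_lit 2))) (.col (nat_lit 0)) (.node (.col (nat_lit 1)) (.node (.slot (nat_lit 0)) (.slot (nat_lit 0)) (.slot (nat_lit 0))) (.slot (nat_lit 1)))) (.node (.col (nat_lit 2)) (.slot (nat_lit 3)) (.slot (nat_lit 3))) (.col (nat_lit 2))
def w13062 : Root := .mk (.col (nat_lit 3)) (.node (.node (.node (.col (nat_lit 0)) (.col (nat_lit 1)) (.slot (nat_lit 2))) (.col (nat_lit 0)) (.node (.col (nat_lit 1)) (.node (.slot (nat_lit 0)) (.slot (nat_lit 0)) (.slot (nat_lit 0))) (.slot (nat_lit 0)))) (.node (.col (nat_lit 2)) (.slot (nat_lit 1)) (.slot (nat_lit 0))) (.node (.col (nat_lit 0)) (.slot (nat_lit 0)) (.slot (nat_lit 0)))) (.col (nat_lit 2)) (.slot (nat_lit 1))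
def w13063 : Root := .mk (.col (nat_lit 3)) (.node (.node (.node (.col (nat_lit 0)) (.col (nat_lit 1)) (.slot (nat_lit 2))) (.col (nat_lit 0)) (.node (.col (nat_lit 1)) (.node (.slot (nat_lit 0)) (.slot (nat_lit 0)) (.slot (nat_lit 0))) (.slot (nat_lit 0)))) (.node (.col (nat_lit 2)) (.slot (nat_lit 0)) (.slot (nat_lit 0))) (.node (.col (nat_lit 3)) (.slot (nat_lit 1)) (.slot (nat_lit 0)))) (.col (nat_lit 2)) (.slot (nat_lit 1))
def w13064 : Root := .mk (.node (.node (.col (nat_lit 3)) (.col (nat_lit 2)) (.slot (nat_lit 1))) (.node (.node (.col (nat_lit 0)) (.col (nat_lit 1)) (.slot (nat_lit 2))) (.col (nat_lit 0)) (.node (.col (nat_lit 1)) (.node (.slot (nat_lit 0)) (.slot (nat_lit 0)) (.slot (nat_lit 0))) (.slot (nat_lit 0)))) (.slot (nat_lit 1))) (.col (nat_lit 2)) (.col (nat_lit 0)) (.slot (nat_lit 1))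
def w13065 : Root := .mk (.node (.node (.col (nat_lit 3)) (.col (nat_lit 2)) (.slot (nat_lit 1))) (.node (.node (.col (nat_lit 0)) (.col (nat_lit 1)) (.slot (nat_lit 2))) (.col (nat_lit 0)) (.node (.col (nat_lit 1)) (.node (.slot (nat_lit 0)) (.slot (nat_lit 0)) (.slot (nat_lit 0))) (.slot (nat_lit 0)))) (.slot (nat_lit 1))) (.col (nat_lit 2)) (.col (nat_lit 1)) (.slot (nat_lit 1))
def w13066 : Root := .mk (.node (.node (.col (nat_lit 3)) (.col (nat_lit 2)) (.slot (nat_lit 1))) (.node (.node (.col (nat_lit 0)) (.col (nat_lit 1)) (.slot (nat_lit 2))) (.col (nat_lit 0)) (.node (.col (nat_lit 1)) (.node (.slot (nat_lit 0)) (.slot (nat_lit 0)) (.slot (nat_lit 0))) (.slot (nat_lit 0)))) (.slot (nat_lit 1))) (.col (nat_lit 2)) (.col (nat_lit 4)) (.slot (nat_lit 1))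
def l3008 : Root := .mk (.col (nat_lit 3)) (.node (.node (.node (.col (nat_lit 0)) (.col (nat_lit 1)) (.slot (nat_lit 2))) (.col (nat_lit 0)) (.node (.col (nat_lit 1)) (.node (.slot (nat_lit 0)) (.slot (nat_lit 0)) (.slot (nat_lit 0))) (.slot (nat_lit 3)))) (.node (.col (nat_lit 2)) (.slot (nat_lit 7)) (.slot (nat_lit 5))) (.slot (nat_lit 8))) (.col (nat_lit 2)) (.slot (nat_lit 8))
def w13067 : Root := .mk (.node (.node (.col (nat_lit 3)) (.node (.col (nat_lit 0)) (.col (nat_lit 3)) (.slot (nat_lit 0))) (.slot (nat_lit 8))) (.node (.col (nat_lit 2)) (.slot (nat_lit 7)) (.slot (nat_lit 5))) (.slot (nat_lit 8))) (.node (.col (nat_lit 0)) (.col (nat_lit 1)) (.slot (nat_lit 2))) (.col (nat_lit 0)) (.node (.col (nat_lit 1)) (.node (.slot (nat_lit 0)) (.slot (nat_lit 0)) (.slot (nat_lit 0))) (.slot (nat_lit 3)))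
def l3009 : Root := .mk (.node (.node (.col (nat_lit 3)) (.node (.col (nat_lit 0)) (.col (nat_lit 3)) (.slot (nat_lit 8))) (.slot (nat_lit 8))) (.node (.col (nat_lit 2)) (.slot (nat_lit 7)) (.slot (nat_lit 5))) (.slot (nat_lit 8))) (.node (.col (nat_lit 0)) (.col (nat_lit 1)) (.slot (nat_lit 3))) (.col (nat_lit 0)) (.node (.col (nat_lit 1)) (.slot (nat_lit 7)) (.slot (nat_lit 5)))
def w13068 : Root := .mk (.node (.col (nat_lit 3)) (.node (.node (.node (.col (nat_lit 0)) (.col (nat_lit 1)) (.slot (nat_lit 3))) (.col (nat_lit 0)) (.slot (nat_lit 8))) (.node (.col (nat_lit 2)) (.slot (nat_lit 7)) (.slot (nat_lit 5))) (.slot (nat_lit 8))) (.slot (nat_lit 8))) (.col (nat_lit 0)) (.col (nat_lit 3)) (.slot (nat_lit 8))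
def w13069 : Root := .mk (.node (.node (.node (.col (nat_lit 3)) (.node (.col (nat_lit 0)) (.node (.col (nat_lit 0)) (.slot (nat_lit 0)) (.slot (nat_lit 0))) (.slot (nat_lit 2))) (.slot (nat_lit 2))) (.node (.col (nat_lit 2)) (.slot (nat_lit 1)) (.slot (nat_lit 0))) (.slot (nat_lit 2))) (.col (nat_lit 0)) (.slot (nat_lit 1))) (.col (nat_lit 0)) (.col (nat_lit 1)) (.slot (nat_lit 3))
def w13070 : Root := .mk (.node (.node (.col (nat_lit 3)) (.node (.col (nat_lit 0)) (.slot (nat_lit 1)) (.slot (nat_lit 1))) (.slot (nat_lit 2))) (.node (.col (nat_lit 2)) (.slot (nat_lit 1)) (.slot (nat_lit 1))) (.slot (nat_lit 2))) (.node (.col (nat_lit 0)) (.col (nat_lit 1)) (.slot (nat_lit 0))) (.col (nat_lit 0)) (.col (nat_lit 1))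
def w13071 : Root := .mk (.node (.node (.col (nat_lit 3)) (.node (.col (nat_lit 0)) (.slot (nat_lit 1)) (.slot (nat_lit 1))) (.slot (nat_lit 2))) (.node (.col (nat_lit 2)) (.slot (nat_lit 1)) (.slot (nat_lit 0))) (.slot (nat_lit 2))) (.node (.col (nat_lit 0)) (.col (nat_lit 1)) (.slot (nat_lit 3))) (.col (nat_lit 0)) (.node (.col (nat_lit 0)) (.slot (nat_lit 0)) (.slot (nat_lit 0)))
def w13072 : Root := .mk (.node (.node (.col (nat_lit 3)) (.node (.col (nat_lit 0)) (.slot (nat_lit 1)) (.slot (nat_lit 1))) (.slot (nat_lit 2))) (.node (.col (nat_lit 2)) (.slot (nat_lit 0)) (.slot (nat_lit 0))) (.slot (nat_lit 2))) (.node (.col (nat_lit 0)) (.col (nat_lit 1)) (.slot (nat_lit 0))) (.col (nat_lit 0)) (.node (.col (nat_lit 2)) (.slot (nat_lit 1)) (.slot (nat_lit 1)))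
def w13073 : Root := .mk (.node (.node (.col (nat_lit 3)) (.node (.col (nat_lit 0)) (.slot (nat_lit 1)) (.slot (nat_lit 1))) (.slot (nat_lit 2))) (.node (.col (nat_lit 2)) (.slot (nat_lit 1)) (.slot (nat_lit 1))) (.slot (nat_lit 2))) (.node (.col (nat_lit 0)) (.col (nat_lit 1)) (.slot (nat_lit 1))) (.col (nat_lit 0)) (.node (.col (nat_lit 3)) (.slot (nat_lit 1)) (.slot (nat_lit 1)))
def w13074 : Root := .mk (.node (.node (.col (nat_lit 3)) (.node (.col (nat_lit 0)) (.slot (nat_lit 1)) (.slot (nat_lit 1))) (.slot (nat_lit 2))) (.node (.col (nat_lit 2)) (.slot (nat_lit 1)) (.slot (nat_lit 0))) (.slot (nat_lit 1))) (.node (.col (nat_lit 0)) (.col (nat_lit 1)) (.slot (nat_lit 0))) (.col (nat_lit 0)) (.node (.col (nat_lit 4)) (.slot (nat_lit 2)) (.slot (nat_lit 2)))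
def w13075 : Root := .mk (.node (.node (.col (nat_lit 3)) (.node (.col (nat_lit 0)) (.slot (nat_lit 1)) (.slot (nat_lit 1))) (.slot (nat_lit 2))) (.node (.col (nat_lit 2)) (.slot (nat_lit 1)) (.slot (nat_lit 0))) (.slot (nat_lit 2))) (.node (.col (nat_lit 0)) (.col (nat_lit 1)) (.slot (nat_lit 3))) (.col (nat_lit 0)) (.node (.slot (nat_lit 0)) (.slot (nat_lit 0)) (.slot (nat_lit 0)))
def w13076 : Root := .mk (.node (.node (.node (.col (nat_lit 3)) (.node (.col (nat_lit 0)) (.slot (nat_lit 1)) (.slot (nat_lit 1))) (.slot (nat_lit 2))) (.node (.col (nat_lit 2)) (.slot (nat_lit 1)) (.slot (nat_lit 1))) (.slot (nat_lit 2))) (.col (nat_lit 0)) (.slot (nat_lit 1))) .junk (.col (nat_lit 1)) (.col (nat_lit 2))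
def w13077 : Root := .mk (.node (.node (.node (.col (nat_lit 3)) (.node (.col (nat_lit 0)) (.slot (nat_lit 2)) (.slot (nat_lit 2))) (.slot (nat_lit 1))) (.node (.col (nat_lit 2)) (.slot (nat_lit 3)) (.slot (nat_lit 1))) (.slot (nat_lit 8))) (.col (nat_lit 0)) (.slot (nat_lit 3))) (.col (nat_lit 0)) (.col (nat_lit 1)) (.col (nat_lit 3))
def w13078 : Root := .mk (.node (.node (.node (.col (nat_lit 3)) (.node (.col (nat_lit 0)) (.slot (nat_lit 2)) (.slot (nat_lit 2))) (.slot (nat_lit 1))) (.node (.col (nat_lit 2)) (.slot (nat_lit 3)) (.slot (nat_lit 1))) (.slot (nat_lit 8))) (.col (nat_lit 0)) (.slot (nat_lit 3))) (.col (nat_lit 0)) (.col (nat_lit 1)) (.col (nat_lit 4))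
def w13081 : Root := .mk (.node (.node (.node (.col (nat_lit 3)) (.node (.col (nat_lit 0)) (.slot (nat_lit 1)) (.slot (nat_lit 1))) (.slot (nat_lit 2))) (.node (.col (nat_lit 2)) (.slot (nat_lit 3)) (.slot (nat_lit 1))) (.slot (nat_lit 8))) (.col (nat_lit 0)) (.slot (nat_lit 3))) (.col (nat_lit 0)) (.col (nat_lit 1)) (.slot (nat_lit 0))
def l3010 : Root := .mk (.node (.node (.node (.col (nat_lit 3)) (.node (.col (nat_lit 0)) (.slot (nat_lit 8)) (.slot (nat_lit 8))) (.slot (nat_lit 8))) (.node (.col (nat_lit 2)) (.slot (nat_lit 7)) (.slot (nat_lit 5))) (.slot (nat_lit 8))) (.col (nat_lit 0)) (.slot (nat_lit 8))) (.col (nat_lit 0)) (.col (nat_lit 1)) (.slot (nat_lit 13))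
def w13082 : Root := .mk (.node (.node (.node (.col (nat_lit 3)) (.slot (nat_lit 9)) (.slot (nat_lit 8))) (.node (.col (nat_lit 2)) (.slot (nat_lit 7)) (.slot (nat_lit 5))) (.slot (nat_lit 8))) (.col (nat_lit 0)) (.slot (nat_lit 8))) (.col (nat_lit 0)) (.col (nat_lit 1)) (.slot (nat_lit 13))
def w13083 : Root := .mk (.node (.node (.node (.col (nat_lit 3)) (.slot (nat_lit 3)) (.slot (nat_lit 1))) (.node (.col (nat_lit 2)) (.slot (nat_lit 3)) (.slot (nat_lit 1))) (.slot (nat_lit 8))) (.col (nat_lit 0)) (.slot (nat_lit 8))) (.col (nat_lit 0)) (.col (nat_lit 2)) (.slot (nat_lit 2))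
def w13084 : Root := .mk (.node (.node (.node (.col (nat_lit 3)) (.slot (nat_lit 0)) (.slot (nat_lit 0))) (.node (.col (nat_lit 2)) (.slot (nat_lit 8)) (.slot (nat_lit 8))) (.slot (nat_lit 11))) (.col (nat_lit 0)) (.slot (nat_lit 8))) (.col (nat_lit 0)) (.node (.node (.col (nat_lit 0)) (.slot (nat_lit 9)) (.slot (nat_lit 8))) (.slot (nat_lit 8)) (.slot (nat_lit 8))) (.col (nat_lit 1))
def w13085 : Root := .mk (.node (.node (.node (.col (nat_lit 3)) (.slot (nat_lit 8)) (.slot (nat_lit 8))) (.node (.col (nat_lit 2)) (.slot (nat_lit 0)) (.slot (nat_lit 0))) (.slot (nat_lit 11))) (.col (nat_lit 0)) (.slot (nat_lit 8))) (.col (nat_lit 0)) (.node (.node (.col (nat_lit 0)) (.slot (nat_lit 9)) (.slot (nat_lit 8))) (.slot (nat_lit 8)) (.slot (nat_lit 8))) (.col (nat_lit 2))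
def w13086 : Root := .mk (.node (.node (.node (.col (nat_lit 3)) (.slot (nat_lit 3)) (.slot (nat_lit 1))) (.node (.col (nat_lit 2)) (.slot (nat_lit 3)) (.slot (nat_lit 1))) (.slot (nat_lit 8))) (.col (nat_lit 0)) (.slot (nat_lit 5))) (.col (nat_lit 0)) (.node (.node (.col (nat_lit 0)) (.slot (nat_lit 14)) (.slot (nat_lit 10))) (.slot (nat_lit 8)) (.slot (nat_lit 8))) (.node (.col (nat_lit 0)) (.slot (nat_lit 4)) (.slot (nat_lit 4)))
def w13087 : Root := .mk (.node (.node (.node (.col (nat_lit 3)) (.slot (nat_lit 1)) (.slot (nat_lit 1))) (.node (.col (nat_lit 2)) (.slot (nat_lit 3)) (.slot (nat_lit 1))) (.slot (nat_lit 2))) (.col (nat_lit 0)) (.slot (nat_lit 3))) (.col (nat_lit 0)) (.node (.node (.col (nat_lit 0)) (.slot (nat_lit 9)) (.slot (nat_lit 8))) (.slot (nat_lit 8)) (.slot (nat_lit 8))) (.node (.node (.col (nat_lit 0)) (.slot (nat_lit 1)) (.slot (nat_lit 1))) (.slot (nat_lit 7)) (.slot (nat_lit 5)))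
def w13088 : Root := .mk (.node (.node (.node (.col (nat_lit 3)) (.slot (nat_lit 1)) (.slot (nat_lit 1))) (.node (.col (nat_lit 2)) (.slot (nat_lit 3)) (.slot (nat_lit 1))) (.slot (nat_lit 2))) (.col (nat_lit 0)) (.slot (nat_lit 3))) (.col (nat_lit 0)) (.node (.node (.col (nat_lit 0)) (.slot (nat_lit 3)) (.slot (nat_lit 1))) (.slot (nat_lit 2)) (.slot (nat_lit 1))) (.node (.node (.col (nat_lit 1)) (.slot (nat_lit 0)) (.slot (nat_lit 0))) (.slot (nat_lit 7)) (.slot (nat_lit 5)))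
def w13089 : Root := .mk (.node (.node (.node (.col (nat_lit 3)) (.slot (nat_lit 1)) (.slot (nat_lit 1))) (.node (.col (nat_lit 2)) (.slot (nat_lit 3)) (.slot (nat_lit 1))) (.slot (nat_lit 2))) (.col (nat_lit 0)) (.slot (nat_lit 3))) (.col (nat_lit 0)) (.node (.node (.col (nat_lit 0)) (.slot (nat_lit 1)) (.slot (nat_lit 0))) (.slot (nat_lit 7)) (.slot (nat_lit 5))) (.node (.node (.col (nat_lit 2)) (.slot (nat_lit 3)) (.slot (nat_lit 1))) (.slot (nat_lit 2)) (.slot (nat_lit 1)))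
def w13090 : Root := .mk (.node (.node (.node (.col (nat_lit 3)) (.slot (nat_lit 1)) (.slot (nat_lit 1))) (.node (.col (nat_lit 2)) (.slot (nat_lit 3)) (.slot (nat_lit 1))) (.slot (nat_lit 2))) (.col (nat_lit 0)) (.slot (nat_lit 3))) (.col (nat_lit 0)) (.node (.node (.col (nat_lit 0)) (.slot (nat_lit 3)) (.slot (nat_lit 1))) (.slot (nat_lit 8)) (.slot (nat_lit 1))) (.node (.node (.slot (nat_lit 0)) (.slot (nat_lit 0)) (.slot (nat_lit 0))) (.slot (nat_lit 2)) (.slot (nat_lit 2)))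
def w13091 : Root := .mk (.node (.node (.col (nat_lit 3)) (.slot (nat_lit 0)) (.slot (nat_lit 0))) (.node (.col (nat_lit 2)) (.slot (nat_lit 1)) (.slot (nat_lit 1))) (.slot (nat_lit 2))) (.node (.col (nat_lit 0)) (.node (.node (.col (nat_lit 0)) (.slot (nat_lit 3)) (.slot (nat_lit 1))) (.slot (nat_lit 1)) (.slot (nat_lit 1))) (.slot (nat_lit 3))) (.col (nat_lit 0)) (.col (nat_lit 1))
def w13092 : Root := .mk (.node (.node (.col (nat_lit 3)) (.slot (nat_lit 3)) (.slot (nat_lit 1))) (.node (.col (nat_lit 2)) (.slot (nat_lit 3)) (.slot (nat_lit 1))) (.slot (nat_lit 8))) (.node (.col (nat_lit 0)) (.node (.node (.col (nat_lit 0)) (.slot (nat_lit 14)) (.slot (nat_lit 10))) (.slot (nat_lit 8)) (.slot (nat_lit 8))) (.slot (nat_lit 8))) (.col (nat_lit 0)) (.node (.col (nat_lit 0)) (.slot (nat_lit 3)) (.slot (nat_lit 3)))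
def w13093 : Root := .mk (.node (.node (.col (nat_lit 3)) (.slot (nat_lit 0)) (.slot (nat_lit 0))) (.node (.col (nat_lit 2)) (.slot (nat_lit 1)) (.slot (nat_lit 0))) (.slot (nat_lit 1))) (.node (.col (nat_lit 0)) (.node (.node (.col (nat_lit 0)) (.slot (nat_lit 3)) (.slot (nat_lit 1))) (.slot (nat_lit 1)) (.slot (nat_lit 1))) (.slot (nat_lit 3))) (.col (nat_lit 0)) (.node (.col (nat_lit 1)) (.slot (nat_lit 2)) (.slot (nat_lit 2)))
def w13094 : Root := .mk (.node (.node (.col (nat_lit 3)) (.slot (nat_lit 0)) (.slot (nat_lit 0))) (.node (.col (nat_lit 2)) (.slot (nat_lit 0)) (.slot (nat_lit 0))) (.slot (nat_lit 2))) (.node (.col (nat_lit 0)) (.node (.node (.col (nat_lit 0)) (.slot (nat_lit 3)) (.slot (nat_lit 1))) (.slot (nat_lit 1)) (.slot (nat_lit 1))) (.slot (nat_lit 3))) (.col (nat_lit 0)) (.node (.col (nat_lit 2)) (.slot (nat_lit 1)) (.slot (nat_lit 1)))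
def w13095 : Root := .mk (.node (.node (.node (.col (nat_lit 3)) (.slot (nat_lit 0)) (.slot (nat_lit 0))) (.node (.col (nat_lit 2)) (.slot (nat_lit 3)) (.slot (nat_lit 3))) (.slot (nat_lit 4))) (.col (nat_lit 1)) (.col (nat_lit 0))) (.node (.col (nat_lit 0)) (.slot (nat_lit 0)) (.slot (nat_lit 0))) (.col (nat_lit 4)) (.col (nat_lit 0))
def l3011 : Root := .mk (.node (.node (.col (nat_lit 3)) (.slot (nat_lit 3)) (.slot (nat_lit 3))) (.node (.col (nat_lit 2)) (.slot (nat_lit 0)) (.slot (nat_lit 0))) (.slot (nat_lit 5))) (.col (nat_lit 1)) (.col (nat_lit 0)) (.node (.node (.col (nat_lit 0)) (.slot (nat_lit 3)) (.slot (nat_lit 1))) (.col (nat_lit 4)) (.slot (nat_lit 3)))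
def w13096 : Root := .mk (.node (.node (.col (nat_lit 3)) (.slot (nat_lit 3)) (.slot (nat_lit 3))) (.node (.col (nat_lit 2)) (.slot (nat_lit 0)) (.slot (nat_lit 0))) (.slot (nat_lit 5))) (.col (nat_lit 1)) (.col (nat_lit 0)) (.node (.node (.col (nat_lit 0)) (.slot (nat_lit 3)) (.slot (nat_lit 1))) (.slot (nat_lit 1)) (.slot (nat_lit 3)))
def w13097 : Root := .mk (.node (.node (.col (nat_lit 3)) (.slot (nat_lit 3)) (.slot (nat_lit 3))) (.node (.col (nat_lit 2)) (.slot (nat_lit 0)) (.slot (nat_lit 0))) (.slot (nat_lit 5))) (.node (.col (nat_lit 0)) (.node (.node (.col (nat_lit 0)) (.slot (nat_lit 3)) (.slot (nat_lit 1))) (.slot (nat_lit 1)) (.slot (nat_lit 1))) (.slot (nat_lit 3))) (.col (nat_lit 0)) (.node (.node (.col (nat_lit 0)) (.slot (nat_lit 3)) (.slot (nat_lit 1))) (.slot (nat_lit 3)) (.slot (nat_lit 1)))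
def w13098 : Root := .mk (.node (.node (.col (nat_lit 3)) (.slot (nat_lit 3)) (.slot (nat_lit 3))) (.node (.col (nat_lit 2)) (.slot (nat_lit 0)) (.slot (nat_lit 0))) (.slot (nat_lit 5))) (.node (.col (nat_lit 0)) (.node (.node (.col (nat_lit 0)) (.slot (nat_lit 3)) (.slot (nat_lit 1))) (.slot (nat_lit 1)) (.slot (nat_lit 1))) (.slot (nat_lit 3))) (.col (nat_lit 0)) (.node (.node (.col (nat_lit 1)) (.slot (nat_lit 3)) (.slot (nat_lit 1))) (.slot (nat_lit 3)) (.slot (nat_lit 1)))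
def w13099 : Root := .mk (.node (.node (.col (nat_lit 3)) (.slot (nat_lit 1)) (.slot (nat_lit 1))) (.node (.col (nat_lit 2)) (.slot (nat_lit 1)) (.slot (nat_lit 1))) (.slot (nat_lit 2))) (.node (.col (nat_lit 0)) (.node (.node (.col (nat_lit 0)) (.slot (nat_lit 3)) (.slot (nat_lit 1))) (.slot (nat_lit 1)) (.slot (nat_lit 1))) (.slot (nat_lit 3))) (.col (nat_lit 0)) (.node (.node (.col (nat_lit 2)) (.slot (nat_lit 9)) (.slot (nat_lit 8))) (.slot (nat_lit 3)) (.slot (nat_lit 3)))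
def w13100 : Root := .mk (.node (.node (.col (nat_lit 3)) (.slot (nat_lit 0)) (.slot (nat_lit 0))) (.node (.col (nat_lit 2)) (.slot (nat_lit 3)) (.slot (nat_lit 1))) (.slot (nat_lit 8))) (.node (.col (nat_lit 0)) (.node (.node (.col (nat_lit 0)) (.slot (nat_lit 3)) (.slot (nat_lit 1))) (.slot (nat_lit 1)) (.slot (nat_lit 1))) (.slot (nat_lit 3))) (.col (nat_lit 0)) (.node (.node (.slot (nat_lit 0)) (.slot (nat_lit 0)) (.slot (nat_lit 0))) (.slot (nat_lit 2)) (.slot (nat_lit 2)))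
def w13101 : Root := .mk (.node (.node (.node (.col (nat_lit 3)) (.slot (nat_lit 1)) (.slot (nat_lit 1))) (.node (.col (nat_lit 2)) (.slot (nat_lit 3)) (.slot (nat_lit 1))) (.slot (nat_lit 2))) (.col (nat_lit 0)) (.slot (nat_lit 3))) (.col (nat_lit 0)) (.node (.col (nat_lit 1)) (.slot (nat_lit 1)) (.slot (nat_lit 1))) (.slot (nat_lit 2))
def w13102 : Root := .mk (.node (.node (.node (.col (nat_lit 3)) (.slot (nat_lit 0)) (.slot (nat_lit 0))) (.node (.col (nat_lit 2)) (.slot (nat_lit 7)) (.slot (nat_lit 5))) (.slot (nat_lit 10))) (.col (nat_lit 0)) (.slot (nat_lit 8))) (.col (nat_lit 0)) (.node (.col (nat_lit 2)) (.slot (nat_lit 7)) (.slot (nat_lit 5))) (.slot (nat_lit 10))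
def w13103 : Root := .mk (.node (.node (.node (.node (.node (.col (nat_lit 3)) (.slot (nat_lit 0)) (.slot (nat_lit 0))) (.node (.col (nat_lit 2)) (.node (.col (nat_lit 1)) (.slot (nat_lit 1)) (.slot (nat_lit 1))) (.slot (nat_lit 2))) (.slot (nat_lit 2))) (.col (nat_lit 0)) (.slot (nat_lit 2))) (.col (nat_lit 0)) (.slot (nat_lit 3))) (.col (nat_lit 0)) (.slot (nat_lit 1))) (.col (nat_lit 0)) (.col (nat_lit 1)) (.slot (nat_lit 3))
def l3012 : Root := .mk (.node (.node (.col (nat_lit 3)) (.slot (nat_lit 3)) (.slot (nat_lit 3))) (.node (.node (.col (nat_lit 0)) (.slot (nat_lit 0)) (.slot (nat_lit 0))) (.col (nat_lit 0)) (.slot (nat_lit 3))) (.slot (nat_lit 8))) (.col (nat_lit 2)) (.col (nat_lit 4)) (.node (.col (nat_lit 1)) (.slot (nat_lit 3)) (.slot (nat_lit 3)))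
def w13104 : Root := .mk (.node (.node (.col (nat_lit 3)) (.slot (nat_lit 3)) (.slot (nat_lit 3))) (.node (.node (.col (nat_lit 0)) (.slot (nat_lit 0)) (.slot (nat_lit 0))) (.col (nat_lit 0)) (.slot (nat_lit 3))) (.slot (nat_lit 8))) (.col (nat_lit 2)) (.col (nat_lit 4)) (.slot (nat_lit 4))
def w13105 : Root := .mk (.node (.node (.col (nat_lit 3)) (.slot (nat_lit 1)) (.slot (nat_lit 1))) (.node (.node (.col (nat_lit 0)) (.node (.node (.col (nat_lit 0)) (.col (nat_lit 1)) (.slot (nat_lit 3))) (.col (nat_lit 0)) (.slot (nat_lit 1))) (.slot (nat_lit 3))) (.col (nat_lit 0)) (.slot (nat_lit 8))) (.slot (nat_lit 2))) (.col (nat_lit 2)) (.node (.col (nat_lit 1)) (.slot (nat_lit 0)) (.slot (nat_lit 0))) (.col (nat_lit 1))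
def w13106 : Root := .mk (.node (.node (.col (nat_lit 3)) (.slot (nat_lit 3)) (.slot (nat_lit 3))) (.node (.node (.col (nat_lit 0)) (.slot (nat_lit 0)) (.slot (nat_lit 0))) (.col (nat_lit 0)) (.slot (nat_lit 3))) (.slot (nat_lit 8))) (.col (nat_lit 2)) (.node (.col (nat_lit 1)) (.slot (nat_lit 3)) (.slot (nat_lit 3))) (.node (.col (nat_lit 0)) (.slot (nat_lit 0)) (.slot (nat_lit 0)))
def w13107 : Root := .mk (.node (.node (.col (nat_lit 3)) (.slot (nat_lit 3)) (.slot (nat_lit 3))) (.node (.node (.col (nat_lit 0)) (.slot (nat_lit 0)) (.slot (nat_lit 0))) (.col (nat_lit 0)) (.slot (nat_lit 3))) (.slot (nat_lit 8))) (.col (nat_lit 2)) (.node (.col (nat_lit 1)) (.slot (nat_lit 3)) (.slot (nat_lit 3))) (.node (.col (nat_lit 2)) (.slot (nat_lit 0)) (.slot (nat_lit 0)))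
def w13108 : Root := .mk (.node (.node (.col (nat_lit 3)) (.slot (nat_lit 3)) (.slot (nat_lit 3))) (.node (.node (.col (nat_lit 0)) (.slot (nat_lit 0)) (.slot (nat_lit 0))) (.col (nat_lit 0)) (.slot (nat_lit 3))) (.slot (nat_lit 8))) (.col (nat_lit 2)) (.node (.col (nat_lit 1)) (.slot (nat_lit 3)) (.slot (nat_lit 3))) (.node (.col (nat_lit 3)) (.slot (nat_lit 0)) (.slot (nat_lit 0)))
def w13109 : Root := .mk (.node (.node (.col (nat_lit 3)) (.slot (nat_lit 1)) (.slot (nat_lit 1))) (.node (.col (nat_lit 2)) (.node (.col (nat_lit 1)) (.slot (nat_lit 0)) (.slot (nat_lit 0))) (.node (.col (nat_lit 4)) (.slot (nat_lit 4)) (.slot (nat_lit 4)))) (.slot (nat_lit 2))) (.col (nat_lit 1)) (.col (nat_lit 0)) (.slot (nat_lit 2))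
def w13110 : Root := .mk (.node (.node (.col (nat_lit 3)) (.slot (nat_lit 1)) (.slot (nat_lit 1))) (.node (.node (.col (nat_lit 0)) (.node (.node (.col (nat_lit 0)) (.col (nat_lit 1)) (.slot (nat_lit 3))) (.col (nat_lit 0)) (.slot (nat_lit 1))) (.slot (nat_lit 3))) (.col (nat_lit 0)) (.slot (nat_lit 2))) (.slot (nat_lit 2))) (.col (nat_lit 2)) (.node (.col (nat_lit 1)) (.slot (nat_lit 0)) (.slot (nat_lit 0))) (.node (.col (nat_lit 4)) (.slot (nat_lit 4)) (.slot (nat_lit 4)))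
def w13111 : Root := .mk (.node (.node (.col (nat_lit 3)) (.slot (nat_lit 3)) (.slot (nat_lit 3))) (.node (.node (.col (nat_lit 0)) (.slot (nat_lit 0)) (.slot (nat_lit 0))) (.col (nat_lit 0)) (.slot (nat_lit 3))) (.slot (nat_lit 8))) (.col (nat_lit 2)) (.node (.col (nat_lit 1)) (.slot (nat_lit 3)) (.slot (nat_lit 3))) (.node (.slot (nat_lit 0)) (.slot (nat_lit 0)) (.slot (nat_lit 0)))
def w13112 : Root := .mk (.node (.col (nat_lit 3)) (.slot (nat_lit 3)) (.slot (nat_lit 1))) (.node (.node (.col (nat_lit 0)) (.node (.node (.col (nat_lit 0)) (.col (nat_lit 1)) (.slot (nat_lit 8))) (.col (nat_lit 0)) (.slot (nat_lit 8))) (.slot (nat_lit 8))) (.col (nat_lit 0)) (.slot (nat_lit 8))) (.node (.col (nat_lit 2)) (.slot (nat_lit 0)) (.slot (nat_lit 0))) (.col (nat_lit 4))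
def w13113 : Root := .mk (.node (.col (nat_lit 3)) (.slot (nat_lit 0)) (.slot (nat_lit 0))) (.node (.node (.col (nat_lit 0)) (.slot (nat_lit 0)) (.slot (nat_lit 0))) (.col (nat_lit 0)) (.slot (nat_lit 2))) (.node (.col (nat_lit 2)) (.node (.col (nat_lit 1)) (.slot (nat_lit 1)) (.slot (nat_lit 1))) (.slot (nat_lit 2))) (.node (.col (nat_lit 0)) (.slot (nat_lit 1)) (.slot (nat_lit 1)))
def w13114 : Root := .mk (.node (.node (.node (.node (.node (.col (nat_lit 3)) (.slot (nat_lit 3)) (.slot (nat_lit 1))) (.node (.col (nat_lit 2)) (.slot (nat_lit 0)) (.slot (nat_lit 0))) (.node (.col (nat_lit 1)) (.slot (nat_lit 7)) (.slot (nat_lit 5)))) (.col (nat_lit 0)) (.slot (nat_lit 3))) (.col (nat_lit 0)) (.slot (nat_lit 3))) (.col (nat_lit 0)) (.slot (nat_lit 1))) (.col (nat_lit 0)) (.col (nat_lit 1)) (.slot (nat_lit 3))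
def w13115 : Root := .mk (.node (.node (.node (.node (.node (.col (nat_lit 3)) (.slot (nat_lit 0)) (.slot (nat_lit 0))) (.node (.col (nat_lit 2)) (.node (.col (nat_lit 1)) (.slot (nat_lit 1)) (.slot (nat_lit 1))) (.slot (nat_lit 2))) (.node (.col (nat_lit 2)) (.slot (nat_lit 1)) (.slot (nat_lit 0)))) (.col (nat_lit 0)) (.slot (nat_lit 3))) (.col (nat_lit 0)) (.slot (nat_lit 3))) (.col (nat_lit 0)) (.slot (nat_lit 1))) (.col (nat_lit 0)) (.col (nat_lit 1)) (.slot (nat_lit 3))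
def w13116 : Root := .mk (.node (.node (.node (.node (.node (.col (nat_lit 3)) (.slot (nat_lit 0)) (.slot (nat_lit 0))) (.node (.col (nat_lit 2)) (.node (.col (nat_lit 1)) (.slot (nat_lit 1)) (.slot (nat_lit 1))) (.slot (nat_lit 2))) (.node (.col (nat_lit 4)) (.slot (nat_lit 1)) (.slot (nat_lit 0)))) (.col (nat_lit 0)) (.slot (nat_lit 3))) (.col (nat_lit 0)) (.slot (nat_lit 3))) (.col (nat_lit 0)) (.slot (nat_lit 1))) (.col (nat_lit 0)) (.col (nat_lit 1)) (.slot (nat_lit 3))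
def w13117 : Root := .mk (.node (.node (.node (.node (.node (.col (nat_lit 3)) (.slot (nat_lit 0)) (.slot (nat_lit 0))) (.node (.col (nat_lit 2)) (.node (.col (nat_lit 1)) (.slot (nat_lit 1)) (.slot (nat_lit 1))) (.slot (nat_lit 2))) (.node (.slot (nat_lit 0)) (.slot (nat_lit 1)) (.slot (nat_lit 0)))) (.col (nat_lit 0)) (.slot (nat_lit 2))) (.col (nat_lit 0)) (.slot (nat_lit 3))) (.col (nat_lit 0)) (.slot (nat_lit 1))) (.col (nat_lit 0)) (.col (nat_lit 1)) (.slot (nat_lit 3))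
def w13118 : Root := .mk (.node (.node (.node (.col (nat_lit 3)) (.slot (nat_lit 3)) (.slot (nat_lit 3))) (.node (.node (.col (nat_lit 0)) (.node (.node (.col (nat_lit 0)) (.col (nat_lit 1)) (.slot (nat_lit 3))) (.col (nat_lit 0)) (.slot (nat_lit 1))) (.slot (nat_lit 3))) (.col (nat_lit 0)) (.slot (nat_lit 8))) (.slot (nat_lit 5))) (.col (nat_lit 2)) (.slot (nat_lit 8))) (.col (nat_lit 1)) (.col (nat_lit 2)) (.slot (nat_lit 8))
def w13119 : Root := .mk (.node (.node (.col (nat_lit 3)) (.slot (nat_lit 0)) (.slot (nat_lit 0))) (.node (.col (nat_lit 2)) (.node (.col (nat_lit 1)) (.node (.col (nat_lit 1)) (.slot (nat_lit 0)) (.slot (nat_lit 0))) (.slot (nat_lit 2))) (.slot (nat_lit 2))) (.slot (nat_lit 2))) (.col (nat_lit 1)) (.col (nat_lit 0)) (.slot (nat_lit 2))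
def w13120 : Root := .mk (.node (.node (.node (.node (.node (.col (nat_lit 3)) (.slot (nat_lit 0)) (.slot (nat_lit 0))) (.node (.col (nat_lit 2)) (.node (.col (nat_lit 1)) (.node (.col (nat_lit 1)) (.slot (nat_lit 0)) (.slot (nat_lit 0))) (.slot (nat_lit 2))) (.slot (nat_lit 2))) (.slot (nat_lit 2))) (.col (nat_lit 0)) (.slot (nat_lit 2))) (.col (nat_lit 0)) (.slot (nat_lit 3))) (.col (nat_lit 0)) (.slot (nat_lit 1))) (.col (nat_lit 0)) (.col (nat_lit 1)) (.slot (nat_lit 3))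
def w13121 : Root := .mk (.node (.node (.col (nat_lit 3)) (.slot (nat_lit 1)) (.slot (nat_lit 1))) (.node (.col (nat_lit 2)) (.node (.col (nat_lit 1)) (.slot (nat_lit 1)) (.slot (nat_lit 1))) (.slot (nat_lit 2))) (.slot (nat_lit 2))) (.node (.col (nat_lit 0)) (.node (.node (.col (nat_lit 0)) (.col (nat_lit 1)) (.slot (nat_lit 3))) (.col (nat_lit 0)) (.slot (nat_lit 1))) (.slot (nat_lit 3))) (.col (nat_lit 0)) (.node (.col (nat_lit 0)) (.slot (nat_lit 0)) (.slot (nat_lit 0)))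
def l3013 : Root := .mk (.node (.node (.col (nat_lit 3)) (.slot (nat_lit 2)) (.slot (nat_lit 1))) (.node (.col (nat_lit 2)) (.node (.col (nat_lit 1)) (.slot (nat_lit 3)) (.slot (nat_lit 2))) (.slot (nat_lit 3))) (.slot (nat_lit 2))) (.col (nat_lit 2)) (.col (nat_lit 0)) (.node (.col (nat_lit 1)) (.slot (nat_lit 3)) (.slot (nat_lit 3)))
def w13122 : Root := .mk (.node (.node (.col (nat_lit 3)) (.slot (nat_lit 2)) (.slot (nat_lit 1))) (.node (.col (nat_lit 2)) (.node (.col (nat_lit 1)) (.slot (nat_lit 3)) (.slot (nat_lit 2))) (.slot (nat_lit 3))) (.slot (nat_lit 2))) (.node (.col (nat_lit 0)) (.slot (nat_lit 0)) (.slot (nat_lit 0))) (.col (nat_lit 0)) (.node (.col (nat_lit 1)) (.slot (nat_lit 3)) (.slot (nat_lit 3)))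
def w13123 : Root := .mk (.node (.node (.col (nat_lit 3)) (.slot (nat_lit 0)) (.slot (nat_lit 0))) (.node (.col (nat_lit 2)) (.node (.col (nat_lit 1)) (.slot (nat_lit 1)) (.slot (nat_lit 1))) (.slot (nat_lit 2))) (.slot (nat_lit 2))) (.node (.col (nat_lit 0)) (.slot (nat_lit 0)) (.slot (nat_lit 0))) (.col (nat_lit 0)) (.node (.col (nat_lit 3)) (.slot (nat_lit 1)) (.slot (nat_lit 1)))
def w13124 : Root := .mk (.node (.node (.col (nat_lit 3)) (.slot (nat_lit 0)) (.slot (nat_lit 0))) (.node (.col (nat_lit 2)) (.node (.col (nat_lit 1)) (.slot (nat_lit 1)) (.slot (nat_lit 1))) (.slot (nat_lit 2))) (.slot (nat_lit 1))) (.node (.col (nat_lit 0)) (.slot (nat_lit 0)) (.slot (nat_lit 0))) (.col (nat_lit 0)) (.node (.col (nat_lit 4)) (.slot (nat_lit 2)) (.slot (nat_lit 1)))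
def w13125 : Root := .mk (.node (.node (.col (nat_lit 3)) (.slot (nat_lit 1)) (.slot (nat_lit 1))) (.node (.col (nat_lit 2)) (.node (.col (nat_lit 1)) (.slot (nat_lit 1)) (.slot (nat_lit 1))) (.slot (nat_lit 2))) (.slot (nat_lit 2))) (.node (.col (nat_lit 0)) (.node (.node (.col (nat_lit 0)) (.col (nat_lit 1)) (.slot (nat_lit 3))) (.col (nat_lit 0)) (.slot (nat_lit 1))) (.slot (nat_lit 3))) (.col (nat_lit 0)) (.node (.slot (nat_lit 0)) (.slot (nat_lit 0)) (.slot (nat_lit 0)))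
def w13126 : Root := .mk (.node (.node (.node (.col (nat_lit 3)) (.slot (nat_lit 3)) (.slot (nat_lit 3))) (.node (.col (nat_lit 2)) (.node (.col (nat_lit 1)) (.slot (nat_lit 7)) (.slot (nat_lit 5))) (.slot (nat_lit 1))) (.slot (nat_lit 5))) (.col (nat_lit 0)) (.slot (nat_lit 1))) (.col (nat_lit 0)) (.col (nat_lit 1)) (.slot (nat_lit 3))
def w13127 : Root := .mk (.node (.node (.node (.col (nat_lit 3)) (.slot (nat_lit 1)) (.slot (nat_lit 1))) (.node (.col (nat_lit 2)) (.node (.col (nat_lit 1)) (.slot (nat_lit 1)) (.slot (nat_lit 1))) (.slot (nat_lit 2))) (.slot (nat_lit 2))) (.col (nat_lit 0)) (.slot (nat_lit 3))) (.col (nat_lit 0)) (.node (.node (.col (nat_lit 0)) (.col (nat_lit 1)) (.slot (nat_lit 0))) (.col (nat_lit 0)) (.slot (nat_lit 3))) (.col (nat_lit 2))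
def w13128 : Root := .mk (.node (.node (.node (.col (nat_lit 3)) (.slot (nat_lit 1)) (.slot (nat_lit 1))) (.node (.col (nat_lit 2)) (.node (.col (nat_lit 1)) (.slot (nat_lit 1)) (.slot (nat_lit 1))) (.slot (nat_lit 2))) (.slot (nat_lit 2))) (.col (nat_lit 0)) (.slot (nat_lit 3))) (.col (nat_lit 0)) (.node (.node (.col (nat_lit 0)) (.col (nat_lit 1)) (.slot (nat_lit 0))) (.col (nat_lit 0)) (.slot (nat_lit 3))) (.col (nat_lit 3))
def w13129 : Root := .mk (.node (.node (.node (.col (nat_lit 3)) (.slot (nat_lit 3)) (.slot (nat_lit 1))) (.node (.col (nat_lit 2)) (.node (.col (nat_lit 1)) (.slot (nat_lit 1)) (.slot (nat_lit 1))) (.slot (nat_lit 2))) (.slot (nat_lit 8))) (.col (nat_lit 0)) (.slot (nat_lit 3))) (.col (nat_lit 0)) (.slot (nat_lit 0)) (.col (nat_lit 4))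
def l3014 : Root := .mk (.node (.node (.node (.node (.node (.col (nat_lit 3)) (.slot (nat_lit 3)) (.slot (nat_lit 3))) (.node (.col (nat_lit 2)) (.node (.col (nat_lit 1)) (.slot (nat_lit 8)) (.slot (nat_lit 8))) (.slot (nat_lit 8))) (.slot (nat_lit 8))) (.col (nat_lit 0)) (.slot (nat_lit 8))) (.col (nat_lit 0)) (.slot (nat_lit 8))) (.col (nat_lit 0)) (.slot (nat_lit 8))) (.col (nat_lit 0)) (.col (nat_lit 1)) (.slot (nat_lit 8))
def w13130 : Root := .mk (.node (.node (.node (.node (.node (.col (nat_lit 3)) (.slot (nat_lit 3)) (.slot (nat_lit 3))) (.node (.col (nat_lit 2)) (.slot (nat_lit 9)) (.slot (nat_lit 8))) (.slot (nat_lit 8))) (.col (nat_lit 0)) (.slot (nat_lit 8))) (.col (nat_lit 0)) (.slot (nat_lit 8))) (.col (nat_lit 0)) (.slot (nat_lit 8))) (.col (nat_lit 0)) (.col (nat_lit 1)) (.slot (nat_lit 8))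
def w13131 : Root := .mk (.node (.node (.node (.node (.col (nat_lit 3)) (.slot (nat_lit 3)) (.slot (nat_lit 1))) (.node (.col (nat_lit 2)) (.slot (nat_lit 1)) (.slot (nat_lit 1))) (.slot (nat_lit 2))) (.col (nat_lit 0)) (.slot (nat_lit 3))) (.col (nat_lit 0)) (.slot (nat_lit 3))) (.col (nat_lit 2)) (.col (nat_lit 0)) (.node (.node (.col (nat_lit 2)) (.slot (nat_lit 1)) (.slot (nat_lit 1))) (.slot (nat_lit 2)) (.slot (nat_lit 1)))
def w13132 : Root := .mk (.node (.node (.node (.node (.col (nat_lit 3)) (.slot (nat_lit 3)) (.slot (nat_lit 1))) (.node (.col (nat_lit 2)) (.slot (nat_lit 1)) (.slot (nat_lit 1))) (.slot (nat_lit 2))) (.col (nat_lit 0)) (.slot (nat_lit 3))) (.col (nat_lit 0)) (.slot (nat_lit 1))) (.col (nat_lit 2)) .junk (.col (nat_lit 1))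
def w13133 : Root := .mk (.col (nat_lit 3)) (.node (.node (.node (.col (nat_lit 0)) (.node (.col (nat_lit 2)) .junk (.col (nat_lit 3))) (.slot (nat_lit 1))) (.col (nat_lit 0)) (.slot (nat_lit 8))) (.node (.col (nat_lit 2)) (.slot (nat_lit 1)) (.slot (nat_lit 1))) (.slot (nat_lit 2))) (.node (.col (nat_lit 1)) (.slot (nat_lit 0)) (.slot (nat_lit 0))) (.col (nat_lit 1))
def w13134 : Root := .mk (.col (nat_lit 2)) (.node (.node (.col (nat_lit 0)) (.node (.col (nat_lit 2)) .junk (.col (nat_lit 3))) (.slot (nat_lit 1))) (.col (nat_lit 0)) (.slot (nat_lit 2))) (.node (.col (nat_lit 2)) (.slot (nat_lit 0)) (.slot (nat_lit 0))) (.slot (nat_lit 2))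
def w13135 : Root := .mk (.col (nat_lit 3)) (.node (.node (.node (.col (nat_lit 0)) (.node (.col (nat_lit 2)) .junk (.col (nat_lit 3))) (.slot (nat_lit 1))) (.col (nat_lit 0)) (.slot (nat_lit 2))) (.node (.col (nat_lit 2)) (.slot (nat_lit 0)) (.slot (nat_lit 0))) (.slot (nat_lit 2))) (.node (.col (nat_lit 1)) (.slot (nat_lit 1)) (.slot (nat_lit 1))) (.node (.col (nat_lit 4)) (.slot (nat_lit 1)) (.slot (nat_lit 0)))
def w13136 : Root := .mk (.node (.node (.node (.node (.col (nat_lit 3)) (.slot (nat_lit 0)) (.slot (nat_lit 0))) (.node (.col (nat_lit 2)) (.slot (nat_lit 0)) (.slot (nat_lit 0))) (.col (nat_lit 4))) (.col (nat_lit 0)) (.col (nat_lit 2))) (.col (nat_lit 0)) (.col (nat_lit 3))) (.col (nat_lit 2)) (.col (nat_lit 0)) (.col (nat_lit 3))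
def l3015 : Root := .mk (.node (.node (.node (.node (.col (nat_lit 3)) (.slot (nat_lit 0)) (.slot (nat_lit 1))) (.node (.col (nat_lit 2)) (.slot (nat_lit 1)) (.slot (nat_lit 1))) (.col (nat_lit 4))) (.col (nat_lit 0)) (.col (nat_lit 2))) (.col (nat_lit 0)) (.slot (nat_lit 3))) (.col (nat_lit 2)) (.col (nat_lit 0)) (.col (nat_lit 3))
def w13137 : Root := .mk (.node (.node (.node (.node (.col (nat_lit 3)) (.slot (nat_lit 0)) (.slot (nat_lit 1))) (.node (.col (nat_lit 2)) (.slot (nat_lit 1)) (.slot (nat_lit 1))) (.col (nat_lit 4))) (.col (nat_lit 0)) (.slot (nat_lit 1))) (.col (nat_lit 0)) (.slot (nat_lit 3))) (.col (nat_lit 2)) (.col (nat_lit 0)) (.col (nat_lit 3))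
def w13138 : Root := .mk (.node (.col (nat_lit 3)) (.node (.col (nat_lit 1)) (.slot (nat_lit 1)) (.slot (nat_lit 1))) (.slot (nat_lit 2))) (.node (.node (.col (nat_lit 0)) (.slot (nat_lit 0)) (.slot (nat_lit 0))) (.col (nat_lit 0)) (.slot (nat_lit 3))) (.node (.col (nat_lit 2)) (.slot (nat_lit 3)) (.slot (nat_lit 1))) (.node (.col (nat_lit 1)) (.slot (nat_lit 7)) (.slot (nat_lit 5)))
def w13139 : Root := .mk (.node (.node (.node (.node (.col (nat_lit 3)) (.node (.col (nat_lit 1)) (.slot (nat_lit 1)) (.slot (nat_lit 1))) (.slot (nat_lit 2))) (.node (.col (nat_lit 2)) (.slot (nat_lit 1)) (.slot (nat_lit 1))) (.node (.col (nat_lit 3)) (.slot (nat_lit 1)) (.slot (nat_lit 0)))) (.col (nat_lit 0)) (.slot (nat_lit 1))) (.col (nat_lit 0)) (.slot (nat_lit 3))) (.col (nat_lit 2)) (.col (nat_lit 0)) (.col (nat_lit 3))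
def w13140 : Root := .mk (.node (.col (nat_lit 3)) (.node (.col (nat_lit 1)) (.slot (nat_lit 1)) (.slot (nat_lit 1))) (.slot (nat_lit 2))) (.node (.node (.col (nat_lit 0)) (.slot (nat_lit 0)) (.slot (nat_lit 0))) (.col (nat_lit 0)) (.slot (nat_lit 3))) (.node (.col (nat_lit 2)) (.slot (nat_lit 3)) (.slot (nat_lit 1))) (.node (.col (nat_lit 4)) (.slot (nat_lit 7)) (.slot (nat_lit 5)))
def w13141 : Root := .mk (.node (.col (nat_lit 3)) (.node (.col (nat_lit 1)) (.slot (nat_lit 1)) (.slot (nat_lit 1))) (.slot (nat_lit 2))) (.node (.node (.col (nat_lit 0)) (.node (.col (nat_lit 2)) .junk (.col (nat_lit 3))) (.slot (nat_lit 1))) (.col (nat_lit 0)) (.slot (nat_lit 3))) (.node (.col (nat_lit 2)) (.slot (nat_lit 1)) (.slot (nat_lit 0))) (.node (.slot (nat_lit 0)) (.slot (nat_lit 0)) (.slot (nat_lit 0)))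
def w13142 : Root := .mk (.node (.col (nat_lit 3)) (.node (.node (.node (.col (nat_lit 0)) (.node (.col (nat_lit 2)) .junk (.col (nat_lit 3))) (.slot (nat_lit 1))) (.col (nat_lit 0)) (.slot (nat_lit 8))) (.node (.col (nat_lit 2)) (.slot (nat_lit 3)) (.slot (nat_lit 3))) (.slot (nat_lit 5))) (.slot (nat_lit 1))) (.col (nat_lit 1)) (.col (nat_lit 3)) (.slot (nat_lit 3))
def w13143 : Root := .mk (.node (.col (nat_lit 3)) (.node (.node (.node (.col (nat_lit 0)) (.node (.col (nat_lit 2)) .junk (.col (nat_lit 3))) (.slot (nat_lit 1))) (.col (nat_lit 0)) (.slot (nat_lit 2))) (.node (.col (nat_lit 2)) (.slot (nat_lit 0)) (.slot (nat_lit 0))) (.slot (nat_lit 2))) (.slot (nat_lit 2))) (.col (nat_lit 1)) (.node (.col (nat_lit 1)) (.slot (nat_lit 0)) (.slot (nat_lit 0))) (.slot (nat_lit 2))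
def w13144 : Root := .mk (.node (.node (.col (nat_lit 3)) (.node (.col (nat_lit 1)) (.slot (nat_lit 1)) (.slot (nat_lit 1))) (.slot (nat_lit 2))) (.node (.col (nat_lit 2)) (.slot (nat_lit 1)) (.slot (nat_lit 1))) (.slot (nat_lit 2))) (.node (.col (nat_lit 0)) (.node (.col (nat_lit 2)) .junk (.col (nat_lit 3))) (.slot (nat_lit 1))) (.col (nat_lit 0)) (.node (.col (nat_lit 0)) (.slot (nat_lit 0)) (.slot (nat_lit 0)))
def l3016 : Root := .mk (.col (nat_lit 3)) (.node (.node (.col (nat_lit 4)) (.col (nat_lit 0)) (.slot (nat_lit 0))) (.node (.col (nat_lit 2)) (.col (nat_lit 3)) (.slot (nat_lit 1))) (.col (nat_lit 0))) (.node (.col (nat_lit 1)) (.slot (nat_lit 1)) (.slot (nat_lit 1))) (.col (nat_lit 0))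
def w13145 : Root := .mk (.col (nat_lit 3)) (.node (.node (.col (nat_lit 4)) (.col (nat_lit 0)) (.slot (nat_lit 0))) (.node (.col (nat_lit 2)) (.slot (nat_lit 1)) (.slot (nat_lit 1))) (.col (nat_lit 0))) (.node (.col (nat_lit 1)) (.slot (nat_lit 1)) (.slot (nat_lit 1))) (.col (nat_lit 0))
def w13146 : Root := .mk (.col (nat_lit 3)) (.node (.node (.col (nat_lit 4)) (.col (nat_lit 0)) (.slot (nat_lit 0))) (.node (.col (nat_lit 2)) (.slot (nat_lit 1)) (.slot (nat_lit 0))) (.node (.col (nat_lit 0)) (.slot (nat_lit 1)) (.slot (nat_lit 1)))) (.node (.col (nat_lit 1)) (.slot (nat_lit 1)) (.slot (nat_lit 1))) (.col (nat_lit 0))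
def w13147 : Root := .mk (.col (nat_lit 3)) (.node (.node (.col (nat_lit 4)) (.col (nat_lit 0)) (.slot (nat_lit 0))) (.node (.col (nat_lit 2)) (.slot (nat_lit 0)) (.slot (nat_lit 0))) (.node (.col (nat_lit 2)) (.slot (nat_lit 1)) (.slot (nat_lit 1)))) (.node (.col (nat_lit 1)) (.slot (nat_lit 5)) (.slot (nat_lit 1))) (.col (nat_lit 0))
def w13148 : Root := .mk (.col (nat_lit 3)) (.node (.node (.col (nat_lit 4)) (.col (nat_lit 0)) (.slot (nat_lit 0))) (.node (.col (nat_lit 2)) (.slot (nat_lit 1)) (.slot (nat_lit 1))) (.slot (nat_lit 1))) (.node (.col (nat_lit 1)) (.node (.slot (nat_lit 0)) (.slot (nat_lit 0)) (.slot (nat_lit 0))) (.slot (nat_lit 5))) (.col (nat_lit 0))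
def w13149 : Root := .mk (.col (nat_lit 3)) (.node (.node (.col (nat_lit 4)) (.col (nat_lit 0)) (.slot (nat_lit 0))) (.node (.col (nat_lit 2)) (.col (nat_lit 4)) (.slot (nat_lit 0))) (.slot (nat_lit 1))) (.node (.col (nat_lit 1)) (.slot (nat_lit 2)) (.slot (nat_lit 2))) (.col (nat_lit 0))
def l3019 : Root := .mk (.node (.col (nat_lit 1)) (.node (.col (nat_lit 2)) (.slot (nat_lit 3)) (.slot (nat_lit 3))) (.slot (nat_lit 2))) (.col (nat_lit 4)) (.col (nat_lit 0)) (.node (.slot (nat_lit 0)) (.col (nat_lit 1)) (.node (.col (nat_lit 1)) (.slot (nat_lit 0)) (.slot (nat_lit 0))))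
def l3020 : Root := .mk (.node (.col (nat_lit 1)) (.node (.col (nat_lit 2)) (.slot (nat_lit 3)) (.slot (nat_lit 3))) (.slot (nat_lit 8))) (.col (nat_lit 4)) (.col (nat_lit 0)) (.node (.slot (nat_lit 0)) (.col (nat_lit 1)) (.node (.col (nat_lit 2)) (.slot (nat_lit 1)) (.slot (nat_lit 0))))
def l3021 : Root := .mk (.col (nat_lit 3)) (.node (.node (.col (nat_lit 4)) (.col (nat_lit 0)) (.node (.slot (nat_lit 0)) (.col (nat_lit 1)) (.slot (nat_lit 1)))) (.node (.col (nat_lit 2)) (.slot (nat_lit 1)) (.slot (nat_lit 0))) (.col (nat_lit 0))) (.node (.col (nat_lit 1)) (.slot (nat_lit 1)) (.slot (nat_lit 1))) (.col (nat_lit 4))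
def w13155 : Root := .mk (.node (.node (.col (nat_lit 3)) (.node (.col (nat_lit 1)) (.slot (nat_lit 1)) (.slot (nat_lit 1))) (.slot (nat_lit 1))) (.node (.col (nat_lit 2)) (.slot (nat_lit 1)) (.slot (nat_lit 0))) (.col (nat_lit 0))) (.col (nat_lit 4)) (.col (nat_lit 0)) (.node (.slot (nat_lit 0)) (.col (nat_lit 1)) (.slot (nat_lit 1)))
def w13164 : Root := .mk (.node (.node (.col (nat_lit 3)) (.node (.col (nat_lit 1)) (.slot (nat_lit 1)) (.slot (nat_lit 1))) (.slot (nat_lit 1))) (.node (.col (nat_lit 2)) (.slot (nat_lit 1)) (.slot (nat_lit 0))) (.col (nat_lit 3))) (.col (nat_lit 4)) (.col (nat_lit 0)) (.node (.slot (nat_lit 0)) (.col (nat_lit 3)) (.col (nat_lit 0)))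
def l3024 : Root := .mk (.col (nat_lit 3)) (.node (.node (.col (nat_lit 4)) (.col (nat_lit 0)) (.node (.slot (nat_lit 0)) (.col (nat_lit 3)) (.col (nat_lit 0)))) (.node (.col (nat_lit 2)) (.slot (nat_lit 1)) (.slot (nat_lit 1))) (.slot (nat_lit 2))) (.node (.col (nat_lit 1)) (.slot (nat_lit 5)) (.slot (nat_lit 7))) (.col (nat_lit 0))
def w13165 : Root := .mk (.node (.node (.col (nat_lit 3)) (.node (.col (nat_lit 1)) (.slot (nat_lit 7)) (.slot (nat_lit 5))) (.slot (nat_lit 1))) (.node (.col (nat_lit 2)) (.slot (nat_lit 1)) (.slot (nat_lit 1))) (.slot (nat_lit 2))) (.col (nat_lit 4)) (.col (nat_lit 0)) (.node (.slot (nat_lit 0)) (.col (nat_lit 3)) (.col (nat_lit 0)))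
def l3031 : Root := .mk (.col (nat_lit 3)) (.node (.node (.col (nat_lit 4)) (.col (nat_lit 0)) (.node (.slot (nat_lit 0)) (.slot (nat_lit 0)) (.slot (nat_lit 0)))) (.node (.col (nat_lit 2)) (.slot (nat_lit 1)) (.slot (nat_lit 1))) (.slot (nat_lit 2))) (.node (.col (nat_lit 1)) (.slot (nat_lit 7)) (.slot (nat_lit 5))) (.col (nat_lit 0))
def w13177 : Root := .mk (.node (.node (.col (nat_lit 3)) (.node (.col (nat_lit 1)) (.slot (nat_lit 7)) (.slot (nat_lit 5))) (.slot (nat_lit 1))) (.node (.col (nat_lit 2)) (.slot (nat_lit 1)) (.slot (nat_lit 1))) (.slot (nat_lit 2))) (.col (nat_lit 4)) (.col (nat_lit 0)) (.node (.slot (nat_lit 0)) (.slot (nat_lit 0)) (.slot (nat_lit 0)))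
def w13178 : Root := .mk (.node (.node (.col (nat_lit 3)) (.node (.col (nat_lit 1)) (.slot (nat_lit 7)) (.slot (nat_lit 5))) (.slot (nat_lit 1))) (.node (.col (nat_lit 2)) (.slot (nat_lit 1)) (.slot (nat_lit 1))) (.slot (nat_lit 2))) (.node (.col (nat_lit 0)) (.node (.col (nat_lit 2)) .junk (.col (nat_lit 3))) (.slot (nat_lit 1))) (.col (nat_lit 0)) (.node (.slot (nat_lit 0)) (.slot (nat_lit 0)) (.slot (nat_lit 0)))
def w13179 : Root := .mk (.node (.node (.node (.node (.col (nat_lit 3)) (.node (.col (nat_lit 1)) (.slot (nat_lit 1)) (.slot (nat_lit 1))) (.slot (nat_lit 2))) (.node (.col (nat_lit 2)) (.slot (nat_lit 1)) (.slot (nat_lit 1))) (.slot (nat_lit 2))) (.col (nat_lit 0)) (.slot (nat_lit 3))) (.col (nat_lit 0)) (.col (nat_lit 2))) (.col (nat_lit 2)) (.col (nat_lit 0)) (.col (nat_lit 3))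
def w13180 : Root := .mk (.node (.node (.node (.col (nat_lit 3)) (.node (.col (nat_lit 1)) (.slot (nat_lit 1)) (.slot (nat_lit 1))) (.slot (nat_lit 2))) (.node (.col (nat_lit 2)) (.slot (nat_lit 1)) (.slot (nat_lit 1))) (.slot (nat_lit 2))) (.col (nat_lit 0)) (.col (nat_lit 1))) (.col (nat_lit 0)) (.col (nat_lit 1)) (.col (nat_lit 3))
def w13181 : Root := .mk (.node (.node (.node (.col (nat_lit 3)) (.node (.col (nat_lit 1)) (.slot (nat_lit 1)) (.slot (nat_lit 1))) (.slot (nat_lit 2))) (.node (.col (nat_lit 2)) (.slot (nat_lit 0)) (.slot (nat_lit 0))) (.slot (nat_lit 1))) (.col (nat_lit 0)) (.col (nat_lit 3))) (.col (nat_lit 0)) (.col (nat_lit 1)) (.col (nat_lit 3))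
def w13182 : Root := .mk (.node (.node (.col (nat_lit 2)) (.node (.col (nat_lit 2)) (.slot (nat_lit 0)) (.slot (nat_lit 0))) (.slot (nat_lit 2))) (.col (nat_lit 0)) (.node (.col (nat_lit 2)) (.slot (nat_lit 1)) (.slot (nat_lit 1)))) (.col (nat_lit 0)) (.col (nat_lit 1)) (.col (nat_lit 3))
def w13183 : Root := .mk (.node (.node (.node (.col (nat_lit 3)) (.node (.col (nat_lit 1)) (.slot (nat_lit 1)) (.slot (nat_lit 1))) (.slot (nat_lit 2))) (.node (.col (nat_lit 2)) (.slot (nat_lit 0)) (.slot (nat_lit 0))) (.slot (nat_lit 2))) (.col (nat_lit 0)) (.node (.col (nat_lit 2)) (.slot (nat_lit 1)) (.slot (nat_lit 1)))) (.col (nat_lit 0)) (.col (nat_lit 1)) (.col (nat_lit 3))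
def w13184 : Root := .mk (.node (.node (.col (nat_lit 4)) (.node (.col (nat_lit 2)) (.slot (nat_lit 1)) (.slot (nat_lit 0))) (.slot (nat_lit 1))) (.col (nat_lit 0)) (.node (.col (nat_lit 4)) (.slot (nat_lit 2)) (.slot (nat_lit 2)))) (.col (nat_lit 0)) (.col (nat_lit 1)) (.col (nat_lit 3))
def w13185 : Root := .mk (.node (.node (.node (.col (nat_lit 3)) (.node (.col (nat_lit 1)) (.slot (nat_lit 1)) (.slot (nat_lit 1))) (.slot (nat_lit 2))) (.node (.col (nat_lit 2)) (.slot (nat_lit 1)) (.slot (nat_lit 0))) (.slot (nat_lit 1))) (.col (nat_lit 0)) (.node (.col (nat_lit 4)) (.slot (nat_lit 2)) (.slot (nat_lit 2)))) (.col (nat_lit 0)) (.col (nat_lit 1)) (.col (nat_lit 3))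
def l3032 : Root := .mk (.node (.node (.node (.col (nat_lit 3)) (.node (.col (nat_lit 1)) (.slot (nat_lit 1)) (.slot (nat_lit 1))) (.col (nat_lit 0))) (.node (.col (nat_lit 2)) (.slot (nat_lit 0)) (.slot (nat_lit 0))) (.col (nat_lit 2))) (.col (nat_lit 0)) (.slot (nat_lit 1))) (.col (nat_lit 0)) (.col (nat_lit 1)) (.col (nat_lit 3))
def w13186 : Root := .mk (.node (.node (.node (.col (nat_lit 3)) (.node (.col (nat_lit 1)) (.slot (nat_lit 1)) (.slot (nat_lit 1))) (.slot (nat_lit 1))) (.node (.col (nat_lit 2)) (.slot (nat_lit 0)) (.slot (nat_lit 0))) (.col (nat_lit 2))) (.col (nat_lit 0)) (.slot (nat_lit 1))) (.col (nat_lit 0)) (.col (nat_lit 1)) (.col (nat_lit 3))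
def l3033 : Root := .mk (.col (nat_lit 3)) (.node (.node (.node .junk (.col (nat_lit 1)) (.col (nat_lit 3))) (.col (nat_lit 0)) (.slot (nat_lit 1))) (.node (.col (nat_lit 2)) (.slot (nat_lit 1)) (.slot (nat_lit 0))) (.col (nat_lit 4))) (.node (.col (nat_lit 1)) (.slot (nat_lit 1)) (.slot (nat_lit 1))) (.col (nat_lit 0))
def w13187 : Root := .mk (.node (.col (nat_lit 3)) (.node (.col (nat_lit 1)) (.slot (nat_lit 1)) (.slot (nat_lit 1))) (.slot (nat_lit 1))) (.node (.node .junk (.col (nat_lit 1)) (.col (nat_lit 3))) (.col (nat_lit 0)) (.slot (nat_lit 1))) (.node (.col (nat_lit 2)) (.slot (nat_lit 1)) (.slot (nat_lit 0))) (.col (nat_lit 4))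
def w13188 : Root := .mk (.node (.col (nat_lit 3)) (.node (.col (nat_lit 1)) (.slot (nat_lit 1)) (.slot (nat_lit 1))) (.slot (nat_lit 2))) (.node (.node .junk (.col (nat_lit 1)) (.col (nat_lit 3))) (.col (nat_lit 0)) (.slot (nat_lit 1))) (.node (.col (nat_lit 2)) (.slot (nat_lit 1)) (.slot (nat_lit 0))) (.node (.col (nat_lit 1)) (.slot (nat_lit 1)) (.slot (nat_lit 1)))
def w13189 : Root := .mk (.col (nat_lit 3)) (.node (.node (.node .junk (.col (nat_lit 1)) (.col (nat_lit 3))) (.col (nat_lit 0)) (.slot (nat_lit 1))) (.col (nat_lit 1)) (.node (.col (nat_lit 4)) (.slot (nat_lit 1)) (.slot (nat_lit 1)))) (.node (.col (nat_lit 1)) (.slot (nat_lit 0)) (.slot (nat_lit 0))) (.col (nat_lit 1))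
def l3034 : Root := .mk (.node (.node (.node (.col (nat_lit 3)) (.node (.col (nat_lit 1)) (.slot (nat_lit 3)) (.slot (nat_lit 3))) (.slot (nat_lit 4))) (.col (nat_lit 1)) (.node (.col (nat_lit 4)) (.slot (nat_lit 1)) (.slot (nat_lit 1)))) (.col (nat_lit 0)) (.slot (nat_lit 4))) (.col (nat_lit 0)) (.col (nat_lit 1)) (.col (nat_lit 3))
def w13190 : Root := .mk (.node (.node (.node (.col (nat_lit 3)) (.node (.col (nat_lit 1)) (.slot (nat_lit 3)) (.slot (nat_lit 3))) (.slot (nat_lit 4))) (.node (.col (nat_lit 2)) (.slot (nat_lit 0)) (.slot (nat_lit 0))) (.node (.col (nat_lit 4)) (.slot (nat_lit 1)) (.slot (nat_lit 1)))) (.col (nat_lit 0)) (.slot (nat_lit 4))) (.col (nat_lit 0)) (.col (nat_lit 1)) (.col (nat_lit 3))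
def w13191 : Root := .mk (.node (.node (.node (.col (nat_lit 3)) (.node (.col (nat_lit 1)) (.slot (nat_lit 3)) (.slot (nat_lit 3))) (.slot (nat_lit 4))) (.node (.col (nat_lit 2)) (.slot (nat_lit 1)) (.slot (nat_lit 1))) (.node (.slot (nat_lit 0)) (.slot (nat_lit 0)) (.slot (nat_lit 0)))) (.col (nat_lit 0)) (.slot (nat_lit 4))) (.col (nat_lit 0)) (.col (nat_lit 1)) (.col (nat_lit 3))
def w13192 : Root := .mk (.node (.node (.node (.col (nat_lit 3)) (.col (nat_lit 0)) (.slot (nat_lit 5))) (.node (.col (nat_lit 2)) (.slot (nat_lit 3)) (.slot (nat_lit 3))) (.slot (nat_lit 5))) (.col (nat_lit 0)) (.slot (nat_lit 1))) (.col (nat_lit 0)) (.col (nat_lit 1)) (.col (nat_lit 3))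
def w13193 : Root := .mk (.col (nat_lit 3)) (.node (.node (.node .junk (.col (nat_lit 1)) (.col (nat_lit 3))) (.col (nat_lit 0)) (.slot (nat_lit 1))) (.node (.col (nat_lit 2)) (.slot (nat_lit 1)) (.slot (nat_lit 1))) (.slot (nat_lit 2))) (.node (.col (nat_lit 1)) (.slot (nat_lit 0)) (.slot (nat_lit 0))) (.col (nat_lit 1))
def w13194 : Root := .mk (.node (.node (.node (.col (nat_lit 3)) (.node (.col (nat_lit 1)) (.slot (nat_lit 0)) (.slot (nat_lit 0))) (.node (.col (nat_lit 0)) (.slot (nat_lit 2)) (.slot (nat_lit 2)))) (.node (.col (nat_lit 2)) (.slot (nat_lit 3)) (.slot (nat_lit 1))) (.slot (nat_lit 8))) (.col (nat_lit 0)) (.slot (nat_lit 3))) (.col (nat_lit 0)) (.col (nat_lit 1)) (.col (nat_lit 3))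
def w13195 : Root := .mk (.node (.node (.node (.col (nat_lit 3)) (.node (.col (nat_lit 1)) (.slot (nat_lit 4)) (.slot (nat_lit 4))) (.node (.col (nat_lit 2)) (.slot (nat_lit 0)) (.slot (nat_lit 0)))) (.node (.col (nat_lit 2)) (.slot (nat_lit 3)) (.slot (nat_lit 3))) (.slot (nat_lit 5))) (.col (nat_lit 0)) (.slot (nat_lit 1))) (.col (nat_lit 0)) (.col (nat_lit 1)) (.col (nat_lit 3))
def w13196 : Root := .mk (.node (.node (.node (.col (nat_lit 3)) (.node (.col (nat_lit 1)) (.slot (nat_lit 4)) (.slot (nat_lit 4))) (.node (.col (nat_lit 3)) (.slot (nat_lit 0)) (.slot (nat_lit 0)))) (.node (.col (nat_lit 2)) (.slot (nat_lit 3)) (.slot (nat_lit 3))) (.slot (nat_lit 5))) (.col (nat_lit 0)) (.slot (nat_lit 1))) (.col (nat_lit 0)) (.col (nat_lit 1)) (.col (nat_lit 3))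
def w13197 : Root := .mk (.node (.node (.node (.col (nat_lit 3)) (.node (.col (nat_lit 1)) (.slot (nat_lit 4)) (.slot (nat_lit 4))) (.node (.col (nat_lit 4)) (.slot (nat_lit 0)) (.slot (nat_lit 0)))) (.node (.col (nat_lit 2)) (.slot (nat_lit 3)) (.slot (nat_lit 3))) (.slot (nat_lit 5))) (.col (nat_lit 0)) (.slot (nat_lit 1))) (.col (nat_lit 0)) (.col (nat_lit 1)) (.col (nat_lit 3))
def w13198 : Root := .mk (.node (.node (.col (nat_lit 3)) (.node (.col (nat_lit 1)) (.slot (nat_lit 1)) (.slot (nat_lit 2))) (.slot (nat_lit 1))) (.node (.slot (nat_lit 0)) (.col (nat_lit 0)) (.slot (nat_lit 1))) (.slot (nat_lit 1))) (.col (nat_lit 2)) (.node (.col (nat_lit 0)) (.slot (nat_lit 1)) (.slot (nat_lit 1))) (.slot (nat_lit 2))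
def l3035 : Root := .mk (.node (.node (.node (.col (nat_lit 3)) (.node (.col (nat_lit 1)) (.col (nat_lit 3)) (.node (.col (nat_lit 2)) (.slot (nat_lit 4)) (.slot (nat_lit 4)))) (.col (nat_lit 2))) (.node (.col (nat_lit 2)) (.slot (nat_lit 0)) (.slot (nat_lit 0))) (.col (nat_lit 2))) (.col (nat_lit 0)) (.slot (nat_lit 1))) (.col (nat_lit 0)) (.col (nat_lit 1)) (.col (nat_lit 3))
def w13199 : Root := .mk (.node (.node (.node (.col (nat_lit 3)) (.node (.col (nat_lit 1)) (.col (nat_lit 3)) (.slot (nat_lit 5))) (.col (nat_lit 2))) (.node (.col (nat_lit 2)) (.slot (nat_lit 0)) (.slot (nat_lit 0))) (.col (nat_lit 2))) (.col (nat_lit 0)) (.slot (nat_lit 1))) (.col (nat_lit 0)) (.col (nat_lit 1)) (.col (nat_lit 3))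
def w13200 : Root := .mk (.col (nat_lit 3)) (.node (.node (.slot (nat_lit 0)) (.col (nat_lit 0)) (.slot (nat_lit 0))) (.node (.col (nat_lit 2)) (.slot (nat_lit 1)) (.slot (nat_lit 1))) (.node (.col (nat_lit 0)) (.slot (nat_lit 1)) (.slot (nat_lit 0)))) (.node (.col (nat_lit 1)) (.col (nat_lit 3)) (.slot (nat_lit 5))) (.col (nat_lit 2))
def w13201 : Root := .mk (.col (nat_lit 3)) (.node (.node (.slot (nat_lit 0)) (.col (nat_lit 0)) (.slot (nat_lit 0))) (.node (.col (nat_lit 2)) (.slot (nat_lit 1)) (.slot (nat_lit 1))) (.node (.col (nat_lit 4)) (.slot (nat_lit 1)) (.slot (nat_lit 0)))) (.node (.col (nat_lit 1)) (.col (nat_lit 3)) (.slot (nat_lit 5))) (.col (nat_lit 2))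
def w13202 : Root := .mk (.col (nat_lit 3)) (.node (.node (.slot (nat_lit 0)) (.col (nat_lit 0)) (.slot (nat_lit 0))) (.node (.col (nat_lit 2)) (.col (nat_lit 1)) (.slot (nat_lit 1))) (.slot (nat_lit 2))) (.node (.col (nat_lit 1)) (.col (nat_lit 3)) (.slot (nat_lit 2))) (.col (nat_lit 2))
def l3036 : Root := .mk (.node (.node (.node (.col (nat_lit 3)) (.node (.col (nat_lit 1)) (.col (nat_lit 3)) (.slot (nat_lit 5))) (.col (nat_lit 2))) (.node (.col (nat_lit 2)) (.slot (nat_lit 3)) (.slot (nat_lit 1))) (.slot (nat_lit 8))) (.col (nat_lit 0)) (.slot (nat_lit 3))) (.col (nat_lit 0)) (.col (nat_lit 1)) (.col (nat_lit 3))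
def w13203 : Root := .mk (.node (.node (.node (.col (nat_lit 3)) (.node (.col (nat_lit 1)) (.col (nat_lit 3)) (.slot (nat_lit 5))) (.slot (nat_lit 1))) (.node (.col (nat_lit 2)) (.slot (nat_lit 3)) (.slot (nat_lit 1))) (.slot (nat_lit 8))) (.col (nat_lit 0)) (.slot (nat_lit 3))) (.col (nat_lit 0)) (.col (nat_lit 1)) (.col (nat_lit 3))
def w13204 : Root := .mk (.col (nat_lit 3)) (.node (.node (.node .junk (.col (nat_lit 1)) (.col (nat_lit 3))) (.col (nat_lit 0)) (.slot (nat_lit 1))) (.node (.col (nat_lit 2)) (.slot (nat_lit 0)) (.slot (nat_lit 0))) (.col (nat_lit 0))) (.node (.col (nat_lit 1)) (.node (.col (nat_lit 1)) (.slot (nat_lit 0)) (.slot (nat_lit 0))) (.slot (nat_lit 1))) (.col (nat_lit 0))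
def w13205 : Root := .mk (.col (nat_lit 3)) (.node (.node (.node .junk .junk (.col (nat_lit 3))) (.col (nat_lit 0)) (.slot (nat_lit 1))) (.node (.col (nat_lit 2)) (.slot (nat_lit 0)) (.slot (nat_lit 0))) (.node (.col (nat_lit 0)) (.slot (nat_lit 1)) (.slot (nat_lit 0)))) (.node (.col (nat_lit 1)) (.slot (nat_lit 0)) (.slot (nat_lit 1))) (.col (nat_lit 0))
def w13206 : Root := .mk (.col (nat_lit 3)) (.node (.node (.node .junk (.col (nat_lit 1)) (.col (nat_lit 3))) (.col (nat_lit 0)) (.slot (nat_lit 1))) (.slot (nat_lit 0)) (.node (.col (nat_lit 3)) (.slot (nat_lit 0)) (.slot (nat_lit 0)))) (.node (.col (nat_lit 1)) (.node (.col (nat_lit 1)) (.slot (nat_lit 0)) (.slot (nat_lit 0))) (.slot (nat_lit 1))) (.col (nat_lit 0))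
def w13207 : Root := .mk (.col (nat_lit 3)) (.node (.node (.slot (nat_lit 0)) (.col (nat_lit 0)) (.slot (nat_lit 0))) (.node (.col (nat_lit 2)) (.slot (nat_lit 1)) (.slot (nat_lit 0))) (.node (.col (nat_lit 4)) (.slot (nat_lit 1)) (.slot (nat_lit 0)))) (.node (.col (nat_lit 1)) (.node (.col (nat_lit 1)) (.slot (nat_lit 0)) (.slot (nat_lit 0))) (.slot (nat_lit 3))) (.col (nat_lit 0))
def w13208 : Root := .mk (.node (.col (nat_lit 3)) (.node (.node (.slot (nat_lit 0)) (.col (nat_lit 0)) (.slot (nat_lit 0))) (.node (.col (nat_lit 2)) (.slot (nat_lit 3)) (.slot (nat_lit 3))) (.slot (nat_lit 2))) (.col (nat_lit 0))) (.col (nat_lit 1)) (.node (.col (nat_lit 1)) (.slot (nat_lit 1)) (.slot (nat_lit 1))) (.col (nat_lit 0))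
def w13209 : Root := .mk (.node (.col (nat_lit 3)) (.node (.node (.slot (nat_lit 0)) (.col (nat_lit 0)) (.slot (nat_lit 0))) (.node (.col (nat_lit 2)) (.slot (nat_lit 3)) (.slot (nat_lit 3))) (.slot (nat_lit 2))) (.col (nat_lit 0))) (.col (nat_lit 1)) (.node (.col (nat_lit 1)) (.slot (nat_lit 1)) (.slot (nat_lit 1))) (.col (nat_lit 3))
def w13210 : Root := .mk (.col (nat_lit 3)) (.node (.node (.slot (nat_lit 0)) (.col (nat_lit 0)) (.slot (nat_lit 0))) (.node (.col (nat_lit 2)) (.slot (nat_lit 3)) (.slot (nat_lit 3))) (.slot (nat_lit 2))) (.node (.col (nat_lit 1)) (.node (.col (nat_lit 1)) (.slot (nat_lit 0)) (.slot (nat_lit 0))) (.slot (nat_lit 0))) (.col (nat_lit 0))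
def w13211 : Root := .mk (.node (.node (.col (nat_lit 3)) (.node (.col (nat_lit 1)) (.node (.col (nat_lit 1)) (.slot (nat_lit 0)) (.slot (nat_lit 0))) (.slot (nat_lit 2))) (.col (nat_lit 0))) (.node (.col (nat_lit 2)) (.slot (nat_lit 0)) (.slot (nat_lit 0))) (.slot (nat_lit 1))) (.slot (nat_lit 0)) (.col (nat_lit 0)) (.col (nat_lit 1))
def w13212 : Root := .mk (.node (.node (.col (nat_lit 3)) (.node (.col (nat_lit 1)) (.node (.col (nat_lit 1)) (.slot (nat_lit 0)) (.slot (nat_lit 0))) (.slot (nat_lit 0))) (.col (nat_lit 0))) (.node (.col (nat_lit 2)) (.slot (nat_lit 3)) (.slot (nat_lit 3))) (.slot (nat_lit 2))) (.slot (nat_lit 0)) (.col (nat_lit 0)) (.col (nat_lit 3))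
def w13213 : Root := .mk (.col (nat_lit 3)) (.node (.node (.slot (nat_lit 0)) (.col (nat_lit 0)) (.slot (nat_lit 0))) (.node (.col (nat_lit 2)) (.col (nat_lit 0)) (.slot (nat_lit 1))) (.slot (nat_lit 2))) (.node (.col (nat_lit 1)) (.slot (nat_lit 0)) (.slot (nat_lit 1))) (.col (nat_lit 0))
def w13214 : Root := .mk (.col (nat_lit 3)) (.node (.node (.slot (nat_lit 0)) (.col (nat_lit 0)) (.slot (nat_lit 0))) (.node (.col (nat_lit 2)) (.col (nat_lit 1)) (.slot (nat_lit 0))) (.slot (nat_lit 2))) (.node (.col (nat_lit 1)) (.node (.col (nat_lit 1)) (.slot (nat_lit 0)) (.slot (nat_lit 0))) (.slot (nat_lit 2))) (.col (nat_lit 0))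
def w13215 : Root := .mk (.col (nat_lit 3)) (.node (.node (.slot (nat_lit 0)) (.col (nat_lit 0)) (.slot (nat_lit 0))) (.node (.col (nat_lit 2)) (.col (nat_lit 3)) (.slot (nat_lit 1))) (.slot (nat_lit 2))) (.node (.col (nat_lit 1)) (.slot (nat_lit 0)) (.slot (nat_lit 1))) (.col (nat_lit 0))
def l3037 : Root := .mk (.node (.node (.node (.col (nat_lit 3)) (.node (.col (nat_lit 1)) (.node (.col (nat_lit 1)) (.slot (nat_lit 1)) (.slot (nat_lit 1))) (.slot (nat_lit 3))) (.col (nat_lit 0))) (.node (.col (nat_lit 2)) (.slot (nat_lit 3)) (.slot (nat_lit 3))) (.slot (nat_lit 8))) (.col (nat_lit 0)) (.slot (nat_lit 3))) (.col (nat_lit 0)) (.col (nat_lit 1)) (.col (nat_lit 3))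
def w13216 : Root := .mk (.node (.node (.node (.col (nat_lit 3)) (.node (.col (nat_lit 1)) (.node (.col (nat_lit 1)) (.slot (nat_lit 1)) (.slot (nat_lit 1))) (.slot (nat_lit 3))) (.slot (nat_lit 1))) (.node (.col (nat_lit 2)) (.slot (nat_lit 3)) (.slot (nat_lit 3))) (.slot (nat_lit 8))) (.col (nat_lit 0)) (.slot (nat_lit 3))) (.col (nat_lit 0)) (.col (nat_lit 1)) (.col (nat_lit 3))
def l3038 : Root := .mk (.node (.node (.node (.col (nat_lit 3)) (.node (.col (nat_lit 1)) (.slot (nat_lit 8)) (.slot (nat_lit 8))) (.slot (nat_lit 9))) (.node (.col (nat_lit 2)) (.slot (nat_lit 3)) (.slot (nat_lit 3))) (.slot (nat_lit 8))) (.col (nat_lit 0)) (.slot (nat_lit 4))) (.col (nat_lit 0)) (.col (nat_lit 1)) (.col (nat_lit 3))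
def w13217 : Root := .mk (.node (.node (.node (.node (.col (nat_lit 3)) (.node (.col (nat_lit 1)) (.slot (nat_lit 8)) (.slot (nat_lit 8))) (.slot (nat_lit 9))) (.node (.col (nat_lit 2)) (.slot (nat_lit 3)) (.slot (nat_lit 3))) (.slot (nat_lit 8))) (.col (nat_lit 0)) (.slot (nat_lit 4))) (.col (nat_lit 0)) (.col (nat_lit 3))) (.col (nat_lit 2)) (.col (nat_lit 0)) (.col (nat_lit 3))
def l3039 : Root := .mk (.node (.node (.node (.node (.col (nat_lit 3)) (.node (.col (nat_lit 1)) (.slot (nat_lit 8)) (.slot (nat_lit 8))) (.slot (nat_lit 9))) (.node (.col (nat_lit 2)) (.slot (nat_lit 7)) (.slot (nat_lit 5))) (.slot (nat_lit 8))) (.col (nat_lit 0)) (.slot (nat_lit 8))) (.col (nat_lit 0)) (.slot (nat_lit 3))) (.col (nat_lit 2)) (.col (nat_lit 0)) (.col (nat_lit 3))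
def w13218 : Root := .mk (.node (.node (.node (.node (.col (nat_lit 3)) (.slot (nat_lit 9)) (.slot (nat_lit 9))) (.node (.col (nat_lit 2)) (.slot (nat_lit 7)) (.slot (nat_lit 5))) (.slot (nat_lit 8))) (.col (nat_lit 0)) (.slot (nat_lit 8))) (.col (nat_lit 0)) (.slot (nat_lit 3))) (.col (nat_lit 2)) (.col (nat_lit 0)) (.col (nat_lit 3))
def w13219 : Root := .mk (.node (.node (.node (.col (nat_lit 3)) (.slot (nat_lit 3)) (.slot (nat_lit 3))) (.node (.col (nat_lit 2)) (.slot (nat_lit 9)) (.slot (nat_lit 9))) (.slot (nat_lit 8))) (.col (nat_lit 0)) (.slot (nat_lit 4))) (.col (nat_lit 0)) (.col (nat_lit 1)) (.col (nat_lit 2))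
def w13220 : Root := .mk (.node (.node (.node (.col (nat_lit 3)) (.slot (nat_lit 3)) (.slot (nat_lit 3))) (.node (.col (nat_lit 2)) (.slot (nat_lit 9)) (.slot (nat_lit 9))) (.slot (nat_lit 8))) (.col (nat_lit 0)) (.slot (nat_lit 4))) (.col (nat_lit 0)) (.node (.col (nat_lit 2)) (.col (nat_lit 0)) (.node (.node (.col (nat_lit 2)) (.slot (nat_lit 1)) (.slot (nat_lit 1))) (.slot (nat_lit 2)) (.slot (nat_lit 1)))) (.col (nat_lit 2))
def w13221 : Root := .mk (.node (.node (.node (.node (.col (nat_lit 3)) (.slot (nat_lit 3)) (.slot (nat_lit 1))) (.node (.col (nat_lit 2)) (.slot (nat_lit 1)) (.slot (nat_lit 1))) (.slot (nat_lit 2))) (.col (nat_lit 0)) (.slot (nat_lit 3))) (.col (nat_lit 0)) (.node (.col (nat_lit 0)) (.slot (nat_lit 3)) (.slot (nat_lit 1)))) (.col (nat_lit 2)) (.col (nat_lit 0)) (.node (.node (.col (nat_lit 2)) (.slot (nat_lit 1)) (.slot (nat_lit 0))) (.slot (nat_lit 2)) (.slot (nat_lit 2)))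
def w13224 : Root := .mk (.node (.node (.col (nat_lit 1)) (.node (.col (nat_lit 2)) (.slot (nat_lit 1)) (.slot (nat_lit 1))) (.node (.col (nat_lit 3)) (.slot (nat_lit 1)) (.slot (nat_lit 0)))) (.col (nat_lit 0)) (.node (.col (nat_lit 1)) (.col (nat_lit 0)) (.slot (nat_lit 5)))) (.col (nat_lit 0)) (.col (nat_lit 1)) (.slot (nat_lit 0))
def w13225 : Root := .mk (.node (.node (.col (nat_lit 1)) (.node (.col (nat_lit 2)) (.slot (nat_lit 1)) (.slot (nat_lit 0))) (.node (.col (nat_lit 3)) (.slot (nat_lit 1)) (.slot (nat_lit 0)))) (.col (nat_lit 0)) (.node (.col (nat_lit 1)) (.node (.col (nat_lit 1)) (.slot (nat_lit 0)) (.slot (nat_lit 0))) (.slot (nat_lit 3)))) (.col (nat_lit 0)) (.col (nat_lit 1)) (.slot (nat_lit 0))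
def l3040 : Root := .mk (.node (.node (.col (nat_lit 1)) (.node (.col (nat_lit 2)) (.slot (nat_lit 1)) (.slot (nat_lit 1))) (.node (.col (nat_lit 3)) (.slot (nat_lit 1)) (.slot (nat_lit 0)))) (.col (nat_lit 0)) (.node (.col (nat_lit 1)) (.slot (nat_lit 7)) (.slot (nat_lit 5)))) (.col (nat_lit 0)) (.col (nat_lit 1)) (.node (.slot (nat_lit 0)) (.slot (nat_lit 1)) (.slot (nat_lit 1)))
def w13226 : Root := .mk (.node (.node (.col (nat_lit 1)) (.node (.col (nat_lit 2)) (.slot (nat_lit 1)) (.slot (nat_lit 1))) (.node (.col (nat_lit 3)) (.slot (nat_lit 1)) (.slot (nat_lit 0)))) (.col (nat_lit 0)) (.slot (nat_lit 8))) (.col (nat_lit 0)) (.col (nat_lit 1)) (.node (.slot (nat_lit 0)) (.slot (nat_lit 1)) (.slot (nat_lit 1)))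
def w13250 : Root := .mk (.node (.node (.node (.col (nat_lit 3)) (.slot (nat_lit 0)) (.slot (nat_lit 0))) (.node (.col (nat_lit 2)) (.slot (nat_lit 3)) (.slot (nat_lit 3))) (.slot (nat_lit 2))) (.col (nat_lit 0)) (.col (nat_lit 3))) (.col (nat_lit 0)) (.col (nat_lit 1)) (.node (.slot (nat_lit 0)) (.slot (nat_lit 0)) (.slot (nat_lit 0)))
def w13251 : Root := .mk (.node (.node (.col (nat_lit 3)) (.slot (nat_lit 0)) (.slot (nat_lit 0))) (.node (.col (nat_lit 2)) (.slot (nat_lit 3)) (.slot (nat_lit 3))) (.slot (nat_lit 2))) (.node (.col (nat_lit 0)) (.node (.col (nat_lit 2)) (.col (nat_lit 0)) (.node (.node (.col (nat_lit 2)) (.slot (nat_lit 1)) (.slot (nat_lit 1))) (.slot (nat_lit 2)) (.slot (nat_lit 1)))) (.node (.slot (nat_lit 0)) (.slot (nat_lit 0)) (.slot (nat_lit 0)))) (.col (nat_lit 0)) (.col (nat_lit 3))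
def w13261 : Root := .mk (.node (.node (.node (.node (.col (nat_lit 3)) (.slot (nat_lit 0)) (.slot (nat_lit 0))) (.col (nat_lit 3)) (.slot (nat_lit 2))) (.col (nat_lit 0)) (.slot (nat_lit 2))) (.col (nat_lit 0)) (.node (.slot (nat_lit 0)) (.col (nat_lit 2)) (.slot (nat_lit 0)))) (.col (nat_lit 2)) (.col (nat_lit 0)) (.node (.node (.col (nat_lit 2)) (.slot (nat_lit 0)) (.slot (nat_lit 0))) (.slot (nat_lit 4)) (.slot (nat_lit 4)))
def w13262 : Root := .mk (.node (.node (.node (.col (nat_lit 3)) (.slot (nat_lit 0)) (.slot (nat_lit 0))) (.col (nat_lit 3)) (.slot (nat_lit 2))) (.col (nat_lit 0)) (.slot (nat_lit 2))) (.col (nat_lit 0)) (.col (nat_lit 1)) (.node .junk (.col (nat_lit 2)) (.slot (nat_lit 1)))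
def w13273 : Root := .mk (.node (.node (.node (.node (.node (.node (.col (nat_lit 3)) (.slot (nat_lit 0)) (.slot (nat_lit 0))) (.col (nat_lit 3)) (.slot (nat_lit 2))) (.col (nat_lit 0)) (.slot (nat_lit 2))) (.col (nat_lit 0)) (.node (.slot (nat_lit 0)) (.slot (nat_lit 0)) (.slot (nat_lit 0)))) (.col (nat_lit 2)) (.col (nat_lit 0))) (.slot (nat_lit 1)) (.slot (nat_lit 1))) (.col (nat_lit 2)) (.col (nat_lit 0)) (.node (.col (nat_lit 0)) (.slot (nat_lit 0)) (.slot (nat_lit 0)))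
def w13274 : Root := .mk (.node (.node (.node (.node (.node (.node (.col (nat_lit 3)) (.slot (nat_lit 0)) (.slot (nat_lit 0))) (.col (nat_lit 3)) (.slot (nat_lit 2))) (.col (nat_lit 0)) (.slot (nat_lit 2))) (.col (nat_lit 0)) (.node (.slot (nat_lit 0)) (.slot (nat_lit 0)) (.slot (nat_lit 0)))) (.col (nat_lit 2)) (.col (nat_lit 0))) (.slot (nat_lit 1)) (.slot (nat_lit 1))) (.col (nat_lit 2)) (.col (nat_lit 0)) (.node (.col (nat_lit 2)) (.slot (nat_lit 0)) (.slot (nat_lit 0)))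
def w13275 : Root := .mk (.node (.node (.node (.node (.node (.node (.col (nat_lit 3)) (.slot (nat_lit 0)) (.slot (nat_lit 0))) (.col (nat_lit 3)) (.slot (nat_lit 2))) (.col (nat_lit 0)) (.slot (nat_lit 2))) (.col (nat_lit 0)) (.node (.slot (nat_lit 0)) (.slot (nat_lit 0)) (.slot (nat_lit 0)))) (.col (nat_lit 2)) (.col (nat_lit 0))) (.slot (nat_lit 1)) (.slot (nat_lit 1))) (.col (nat_lit 2)) (.col (nat_lit 0)) (.node (.slot (nat_lit 0)) (.slot (nat_lit 0)) (.slot (nat_lit 0)))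
def w13276 : Root := .mk (.node (.node (.node (.node (.col (nat_lit 3)) (.slot (nat_lit 0)) (.slot (nat_lit 0))) (.col (nat_lit 3)) (.slot (nat_lit 2))) (.col (nat_lit 0)) (.slot (nat_lit 2))) (.col (nat_lit 0)) (.node (.slot (nat_lit 0)) (.slot (nat_lit 0)) (.slot (nat_lit 0)))) (.col (nat_lit 2)) (.col (nat_lit 0)) (.node (.node (.col (nat_lit 2)) (.col (nat_lit 0)) (.slot (nat_lit 1))) (.col (nat_lit 0)) (.slot (nat_lit 4)))
def w13277 : Root := .mk (.node (.node (.node (.node (.col (nat_lit 3)) (.slot (nat_lit 0)) (.slot (nat_lit 0))) (.col (nat_lit 3)) (.slot (nat_lit 2))) (.col (nat_lit 0)) (.slot (nat_lit 2))) (.col (nat_lit 0)) (.slot (nat_lit 0))) (.col (nat_lit 2)) (.col (nat_lit 0)) (.node (.node (.col (nat_lit 2)) (.col (nat_lit 0)) (.slot (nat_lit 4))) (.col (nat_lit 2)) (.slot (nat_lit 8)))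
def l3047 : Root := .mk (.node (.node (.node (.node (.col (nat_lit 3)) (.slot (nat_lit 0)) (.slot (nat_lit 0))) (.col (nat_lit 3)) (.slot (nat_lit 2))) (.col (nat_lit 0)) (.slot (nat_lit 2))) (.col (nat_lit 0)) (.node (.slot (nat_lit 0)) (.slot (nat_lit 1)) (.slot (nat_lit 1)))) (.col (nat_lit 2)) (.col (nat_lit 0)) (.node (.node (.col (nat_lit 2)) (.col (nat_lit 0)) (.slot (nat_lit 4))) (.slot (nat_lit 8)) (.slot (nat_lit 8)))
def w13278 : Root := .mk (.node (.node (.node (.node (.col (nat_lit 3)) (.slot (nat_lit 0)) (.slot (nat_lit 0))) (.col (nat_lit 3)) (.slot (nat_lit 2))) (.col (nat_lit 0)) (.slot (nat_lit 2))) (.col (nat_lit 0)) (.node (.slot (nat_lit 0)) (.slot (nat_lit 1)) (.slot (nat_lit 1)))) (.col (nat_lit 2)) (.col (nat_lit 0)) (.node (.node (.col (nat_lit 2)) (.slot (nat_lit 1)) (.slot (nat_lit 4))) (.slot (nat_lit 8)) (.slot (nat_lit 8)))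
def w13297 : Root := .mk (.node (.node (.col (nat_lit 3)) (.col (nat_lit 0)) (.slot (nat_lit 0))) (.node (.col (nat_lit 2)) (.slot (nat_lit 3)) (.slot (nat_lit 3))) (.slot (nat_lit 2))) (.node (.col (nat_lit 0)) (.col (nat_lit 1)) (.node (.slot (nat_lit 0)) (.slot (nat_lit 0)) (.slot (nat_lit 0)))) (.col (nat_lit 0)) (.col (nat_lit 3))
def l3051 : Root := .mk (.node (.node (.node (.col (nat_lit 0)) (.node (.col (nat_lit 2)) (.slot (nat_lit 7)) (.slot (nat_lit 5))) (.node (.col (nat_lit 2)) (.slot (nat_lit 7)) (.slot (nat_lit 5)))) (.col (nat_lit 0)) (.slot (nat_lit 3))) (.col (nat_lit 0)) (.node (.slot (nat_lit 0)) (.slot (nat_lit 0)) (.slot (nat_lit 0)))) (.col (nat_lit 2)) (.col (nat_lit 0)) (.node (.node (.col (nat_lit 2)) (.slot (nat_lit 1)) (.slot (nat_lit 0))) (.slot (nat_lit 2)) (.slot (nat_lit 2)))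
def w13313 : Root := .mk (.node (.node (.node (.col (nat_lit 0)) (.node (.col (nat_lit 2)) (.slot (nat_lit 7)) (.slot (nat_lit 5))) (.slot (nat_lit 8))) (.col (nat_lit 0)) (.slot (nat_lit 3))) (.col (nat_lit 0)) (.node (.slot (nat_lit 0)) (.slot (nat_lit 0)) (.slot (nat_lit 0)))) (.col (nat_lit 2)) (.col (nat_lit 0)) (.node (.node (.col (nat_lit 2)) (.slot (nat_lit 1)) (.slot (nat_lit 0))) (.slot (nat_lit 2)) (.slot (nat_lit 2)))
def w13315 : Root := .mk (.node (.node (.node (.col (nat_lit 3)) (.col (nat_lit 1)) (.node (.col (nat_lit 1)) (.slot (nat_lit 0)) (.slot (nat_lit 0)))) (.col (nat_lit 4)) (.node (.col (nat_lit 2)) (.slot (nat_lit 0)) (.slot (nat_lit 0)))) (.col (nat_lit 0)) (.col (nat_lit 1))) (.col (nat_lit 0)) (.col (nat_lit 4)) (.col (nat_lit 1))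
def w13316 : Root := .mk (.node (.node (.node (.col (nat_lit 3)) (.col (nat_lit 1)) (.node (.col (nat_lit 1)) (.slot (nat_lit 0)) (.slot (nat_lit 0)))) (.col (nat_lit 4)) (.slot (nat_lit 0))) (.col (nat_lit 0)) (.col (nat_lit 1))) (.col (nat_lit 0)) (.col (nat_lit 4)) (.node (.col (nat_lit 0)) (.slot (nat_lit 0)) (.slot (nat_lit 0)))
def w13317 : Root := .mk (.node (.node (.node (.col (nat_lit 3)) (.col (nat_lit 1)) (.node (.col (nat_lit 1)) (.slot (nat_lit 0)) (.slot (nat_lit 0)))) (.col (nat_lit 4)) (.slot (nat_lit 0))) (.col (nat_lit 0)) (.col (nat_lit 1))) (.col (nat_lit 0)) (.col (nat_lit 4)) (.node (.col (nat_lit 4)) (.slot (nat_lit 0)) (.slot (nat_lit 0)))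
def l3052 : Root := .mk (.node (.node (.col (nat_lit 3)) (.col (nat_lit 1)) (.node (.col (nat_lit 1)) (.slot (nat_lit 0)) (.slot (nat_lit 0)))) (.col (nat_lit 4)) (.node (.col (nat_lit 2)) (.slot (nat_lit 1)) (.slot (nat_lit 0)))) (.node (.col (nat_lit 0)) (.col (nat_lit 4)) (.node (.slot (nat_lit 0)) (.slot (nat_lit 1)) (.slot (nat_lit 1)))) (.col (nat_lit 0)) (.col (nat_lit 1))
def w13318 : Root := .mk (.node (.node (.node (.col (nat_lit 3)) (.col (nat_lit 1)) (.node (.col (nat_lit 1)) (.slot (nat_lit 0)) (.slot (nat_lit 0)))) (.col (nat_lit 4)) (.node (.col (nat_lit 2)) (.slot (nat_lit 1)) (.slot (nat_lit 0)))) (.col (nat_lit 0)) (.slot (nat_lit 1))) (.col (nat_lit 0)) (.col (nat_lit 4)) (.node (.slot (nat_lit 0)) (.slot (nat_lit 1)) (.slot (nat_lit 1)))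
def l3053 : Root := .mk (.col (nat_lit 3)) (.node (.node (.node (.col (nat_lit 0)) (.col (nat_lit 4)) (.node (.slot (nat_lit 0)) (.slot (nat_lit 0)) (.slot (nat_lit 0)))) (.col (nat_lit 0)) (.slot (nat_lit 1))) (.col (nat_lit 4)) (.node (.col (nat_lit 4)) (.slot (nat_lit 0)) (.slot (nat_lit 0)))) (.col (nat_lit 1)) (.col (nat_lit 0))
def w13320 : Root := .mk (.node (.node (.node (.col (nat_lit 3)) (.col (nat_lit 1)) (.node (.col (nat_lit 1)) (.slot (nat_lit 0)) (.slot (nat_lit 0)))) (.col (nat_lit 4)) (.node (.col (nat_lit 4)) (.slot (nat_lit 0)) (.slot (nat_lit 0)))) (.col (nat_lit 0)) (.slot (nat_lit 1))) (.col (nat_lit 0)) (.col (nat_lit 4)) (.node (.slot (nat_lit 0)) (.slot (nat_lit 0)) (.slot (nat_lit 0)))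
def w13323 : Root := .mk (.node (.node (.node (.col (nat_lit 3)) (.col (nat_lit 1)) (.node (.col (nat_lit 1)) (.slot (nat_lit 0)) (.slot (nat_lit 0)))) (.col (nat_lit 4)) (.node (.slot (nat_lit 0)) (.slot (nat_lit 0)) (.slot (nat_lit 0)))) (.col (nat_lit 0)) (.slot (nat_lit 1))) (.col (nat_lit 0)) (.col (nat_lit 4)) (.node (.slot (nat_lit 0)) (.slot (nat_lit 0)) (.slot (nat_lit 0)))
def w13332 : Root := .mk (.node (.node (.node (.col (nat_lit 3)) (.col (nat_lit 1)) (.slot (nat_lit 0))) (.node (.col (nat_lit 2)) (.slot (nat_lit 1)) (.slot (nat_lit 1))) (.col (nat_lit 4))) (.col (nat_lit 0)) (.slot (nat_lit 6))) (.col (nat_lit 0)) (.node (.col (nat_lit 2)) .junk (.col (nat_lit 3))) (.node (.slot (nat_lit 0)) (.slot (nat_lit 0)) (.slot (nat_lit 0)))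
def l3055 : Root := .mk (.node (.node (.col (nat_lit 3)) (.col (nat_lit 1)) (.slot (nat_lit 0))) (.node (.col (nat_lit 2)) (.col (nat_lit 3)) (.node (.col (nat_lit 4)) (.slot (nat_lit 1)) (.slot (nat_lit 1)))) (.col (nat_lit 4))) (.col (nat_lit 4)) (.col (nat_lit 0)) (.col (nat_lit 3))
def w13334 : Root := .mk (.node (.node (.col (nat_lit 3)) (.col (nat_lit 1)) (.slot (nat_lit 0))) (.node (.col (nat_lit 2)) (.col (nat_lit 3)) (.slot (nat_lit 2))) (.col (nat_lit 4))) (.col (nat_lit 4)) (.col (nat_lit 0)) (.col (nat_lit 3))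
def w13336 : Root := .mk (.node (.node (.col (nat_lit 3)) (.col (nat_lit 1)) (.slot (nat_lit 0))) (.node (.col (nat_lit 2)) (.slot (nat_lit 4)) (.slot (nat_lit 4))) (.col (nat_lit 4))) (.node (.col (nat_lit 0)) (.node (.col (nat_lit 2)) (.col (nat_lit 0)) (.node (.col (nat_lit 4)) (.col (nat_lit 0)) (.slot (nat_lit 3)))) (.slot (nat_lit 0))) (.col (nat_lit 0)) (.col (nat_lit 2))
def w13342 : Root := .mk (.node (.slot (nat_lit 0)) (.node (.col (nat_lit 2)) (.slot (nat_lit 1)) (.slot (nat_lit 0))) (.col (nat_lit 4))) (.node (.col (nat_lit 0)) (.slot (nat_lit 0)) (.slot (nat_lit 0))) (.col (nat_lit 0)) (.node (.col (nat_lit 4)) (.node (.col (nat_lit 2)) (.slot (nat_lit 3)) (.slot (nat_lit 3))) (.slot (nat_lit 8)))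
def w13343 : Root := .mk (.node (.node (.node (.col (nat_lit 3)) (.col (nat_lit 1)) (.slot (nat_lit 0))) (.node (.col (nat_lit 2)) (.slot (nat_lit 0)) (.slot (nat_lit 0))) (.col (nat_lit 4))) (.col (nat_lit 1)) (.col (nat_lit 0))) (.col (nat_lit 4)) (.node (.col (nat_lit 4)) (.slot (nat_lit 0)) (.slot (nat_lit 0))) (.col (nat_lit 0))
def w13344 : Root := .mk (.node (.node (.node (.col (nat_lit 3)) (.col (nat_lit 1)) (.slot (nat_lit 0))) (.node (.col (nat_lit 2)) (.slot (nat_lit 0)) (.slot (nat_lit 0))) (.col (nat_lit 4))) (.col (nat_lit 1)) (.col (nat_lit 0))) (.col (nat_lit 4)) (.node (.col (nat_lit 4)) (.slot (nat_lit 0)) (.slot (nat_lit 0))) (.col (nat_lit 1))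
def l3057 : Root := .mk (.node (.node (.col (nat_lit 3)) (.col (nat_lit 1)) (.slot (nat_lit 0))) (.node (.col (nat_lit 2)) (.slot (nat_lit 1)) (.slot (nat_lit 1))) (.col (nat_lit 4))) (.col (nat_lit 1)) (.col (nat_lit 0)) (.node (.col (nat_lit 4)) (.node (.col (nat_lit 4)) (.slot (nat_lit 0)) (.slot (nat_lit 0))) (.slot (nat_lit 2)))
def l3058 : Root := .mk (.node (.node (.col (nat_lit 3)) (.col (nat_lit 1)) (.slot (nat_lit 0))) (.node (.col (nat_lit 2)) (.slot (nat_lit 0)) (.slot (nat_lit 1))) (.col (nat_lit 4))) (.col (nat_lit 1)) (.col (nat_lit 0)) (.node (.col (nat_lit 4)) (.slot (nat_lit 1)) (.slot (nat_lit 1)))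
def w13362 : Root := .mk (.slot (nat_lit 0)) (.node (.col (nat_lit 0)) (.node (.col (nat_lit 2)) (.col (nat_lit 0)) (.node (.node (.col (nat_lit 2)) (.slot (nat_lit 0)) (.slot (nat_lit 0))) (.slot (nat_lit 7)) (.slot (nat_lit 5)))) (.col (nat_lit 4))) (.col (nat_lit 0)) (.col (nat_lit 4))
def w13364 : Root := .mk (.node (.col (nat_lit 3)) (.col (nat_lit 1)) (.slot (nat_lit 0))) (.node (.node (.col (nat_lit 0)) (.slot (nat_lit 0)) (.col (nat_lit 4))) (.col (nat_lit 0)) (.node (.col (nat_lit 4)) (.slot (nat_lit 1)) (.slot (nat_lit 0)))) (.col (nat_lit 1)) (.col (nat_lit 4))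
def w13383 : Root := .mk (.node (.node (.col (nat_lit 3)) (.col (nat_lit 1)) .junk) (.node (.col (nat_lit 2)) (.node (.col (nat_lit 3)) (.slot (nat_lit 1)) (.slot (nat_lit 1))) (.slot (nat_lit 2))) (.slot (nat_lit 1))) (.node .junk (.col (nat_lit 3)) (.node (.slot (nat_lit 0)) (.slot (nat_lit 0)) (.slot (nat_lit 0)))) (.col (nat_lit 0)) (.col (nat_lit 1))
def w13384 : Root := .mk (.node (.node (.col (nat_lit 3)) (.col (nat_lit 1)) .junk) (.col (nat_lit 4)) (.slot (nat_lit 1))) (.node .junk (.col (nat_lit 3)) (.node (.slot (nat_lit 0)) (.slot (nat_lit 0)) (.slot (nat_lit 0)))) (.col (nat_lit 0)) (.col (nat_lit 1))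
def w13385 : Root := .mk (.node (.node (.col (nat_lit 3)) (.col (nat_lit 1)) (.slot (nat_lit 0))) (.node (.col (nat_lit 2)) (.col (nat_lit 0)) (.col (nat_lit 1))) (.slot (nat_lit 1))) (.col (nat_lit 4)) (.col (nat_lit 0)) (.col (nat_lit 1))
def l3065 : Root := .mk (.node (.node (.col (nat_lit 3)) (.col (nat_lit 1)) (.slot (nat_lit 0))) (.node (.node (.col (nat_lit 0)) (.col (nat_lit 3)) (.node (.slot (nat_lit 0)) (.slot (nat_lit 0)) (.slot (nat_lit 0)))) (.col (nat_lit 0)) (.col (nat_lit 1))) (.slot (nat_lit 1))) (.col (nat_lit 2)) (.col (nat_lit 0)) (.col (nat_lit 1))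
def w13386 : Root := .mk (.node (.node (.col (nat_lit 3)) (.col (nat_lit 1)) (.slot (nat_lit 0))) (.node (.col (nat_lit 2)) (.col (nat_lit 0)) (.slot (nat_lit 1))) (.slot (nat_lit 1))) (.node (.col (nat_lit 0)) (.col (nat_lit 3)) (.node (.slot (nat_lit 0)) (.slot (nat_lit 0)) (.slot (nat_lit 0)))) (.col (nat_lit 0)) (.col (nat_lit 1))
def w13387 : Root := .mk (.node (.node (.col (nat_lit 3)) (.col (nat_lit 1)) (.slot (nat_lit 0))) (.node (.col (nat_lit 2)) (.col (nat_lit 1)) (.slot (nat_lit 1))) (.slot (nat_lit 1))) (.node (.col (nat_lit 0)) (.col (nat_lit 3)) (.node (.slot (nat_lit 0)) (.slot (nat_lit 0)) (.slot (nat_lit 0)))) (.col (nat_lit 0)) (.col (nat_lit 1))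
def w13392 : Root := .mk (.node (.node (.node (.col (nat_lit 3)) (.col (nat_lit 1)) (.slot (nat_lit 0))) (.node (.col (nat_lit 2)) (.slot (nat_lit 3)) (.slot (nat_lit 3))) (.slot (nat_lit 2))) (.col (nat_lit 0)) (.col (nat_lit 1))) (.col (nat_lit 0)) (.col (nat_lit 4)) (.node (.slot (nat_lit 0)) (.slot (nat_lit 0)) (.slot (nat_lit 0)))
def w13422 : Root := .mk (.node (.node (.col (nat_lit 3)) (.col (nat_lit 2)) (.slot (nat_lit 0))) (.node (.col (nat_lit 2)) (.slot (nat_lit 0)) (.slot (nat_lit 0))) (.slot (nat_lit 1))) (.col (nat_lit 3)) (.col (nat_lit 0)) (.node (.col (nat_lit 1)) (.slot (nat_lit 2)) (.slot (nat_lit 2)))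
def w13423 : Root := .mk (.node (.node (.col (nat_lit 3)) (.col (nat_lit 2)) (.slot (nat_lit 0))) (.node (.col (nat_lit 2)) (.slot (nat_lit 3)) (.slot (nat_lit 1))) (.slot (nat_lit 1))) (.node .junk (.col (nat_lit 1)) (.node (.slot (nat_lit 0)) (.slot (nat_lit 0)) (.slot (nat_lit 0)))) (.col (nat_lit 0)) (.col (nat_lit 2))
def w13424 : Root := .mk (.node (.node (.col (nat_lit 3)) (.col (nat_lit 2)) (.slot (nat_lit 0))) (.node (.col (nat_lit 2)) (.slot (nat_lit 3)) (.slot (nat_lit 3))) (.slot (nat_lit 2))) (.node (.col (nat_lit 0)) (.col (nat_lit 1)) (.node (.slot (nat_lit 0)) (.slot (nat_lit 0)) (.slot (nat_lit 0)))) (.col (nat_lit 0)) (.col (nat_lit 3))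
def w13425 : Root := .mk (.node (.node (.col (nat_lit 3)) (.col (nat_lit 2)) (.slot (nat_lit 0))) (.node (.col (nat_lit 2)) (.slot (nat_lit 3)) (.slot (nat_lit 3))) (.slot (nat_lit 2))) (.node (.col (nat_lit 0)) (.col (nat_lit 1)) (.node (.slot (nat_lit 0)) (.slot (nat_lit 0)) (.slot (nat_lit 0)))) (.col (nat_lit 0)) (.col (nat_lit 4))
def w13426 : Root := .mk (.node (.node (.node (.col (nat_lit 3)) (.col (nat_lit 2)) (.slot (nat_lit 0))) (.node (.col (nat_lit 2)) (.slot (nat_lit 3)) (.slot (nat_lit 1))) (.slot (nat_lit 1))) (.col (nat_lit 0)) (.node (.col (nat_lit 1)) (.col (nat_lit 0)) (.slot (nat_lit 2)))) (.col (nat_lit 0)) (.col (nat_lit 1)) (.node (.slot (nat_lit 0)) (.slot (nat_lit 0)) (.slot (nat_lit 0)))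
def w13427 : Root := .mk (.node (.node (.slot (nat_lit 0)) (.slot (nat_lit 0)) (.slot (nat_lit 0))) (.col (nat_lit 0)) (.node (.col (nat_lit 1)) (.node (.col (nat_lit 2)) (.slot (nat_lit 3)) (.slot (nat_lit 3))) (.slot (nat_lit 2)))) (.col (nat_lit 0)) (.col (nat_lit 1)) (.node (.slot (nat_lit 0)) (.slot (nat_lit 0)) (.slot (nat_lit 0)))
def w13428 : Root := .mk (.node (.node (.node (.col (nat_lit 3)) (.col (nat_lit 2)) (.slot (nat_lit 0))) (.node (.col (nat_lit 2)) (.slot (nat_lit 3)) (.slot (nat_lit 1))) (.slot (nat_lit 1))) (.col (nat_lit 0)) (.node (.col (nat_lit 1)) (.node (.slot (nat_lit 0)) (.slot (nat_lit 0)) (.slot (nat_lit 0))) (.slot (nat_lit 1)))) (.col (nat_lit 0)) (.col (nat_lit 1)) (.node (.slot (nat_lit 0)) (.slot (nat_lit 0)) (.slot (nat_lit 0)))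
def w13429 : Root := .mk (.node (.node (.node (.col (nat_lit 3)) (.col (nat_lit 2)) (.slot (nat_lit 0))) (.node (.col (nat_lit 2)) (.slot (nat_lit 3)) (.slot (nat_lit 1))) (.slot (nat_lit 1))) (.col (nat_lit 0)) (.node (.col (nat_lit 1)) (.slot (nat_lit 1)) (.slot (nat_lit 1)))) (.col (nat_lit 0)) (.col (nat_lit 1)) (.node (.col (nat_lit 1)) (.slot (nat_lit 0)) (.slot (nat_lit 0)))
def w13430 : Root := .mk (.node (.node (.node (.col (nat_lit 3)) (.col (nat_lit 2)) (.slot (nat_lit 0))) (.node (.col (nat_lit 2)) (.slot (nat_lit 3)) (.slot (nat_lit 1))) (.slot (nat_lit 1))) (.col (nat_lit 0)) (.node (.col (nat_lit 1)) (.slot (nat_lit 1)) (.slot (nat_lit 1)))) (.col (nat_lit 0)) (.col (nat_lit 1)) (.node (.slot (nat_lit 0)) (.col (nat_lit 0)) (.slot (nat_lit 0)))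
def l3073 : Root := .mk (.node (.node (.node (.col (nat_lit 3)) (.col (nat_lit 2)) (.slot (nat_lit 0))) (.node (.col (nat_lit 2)) (.slot (nat_lit 3)) (.slot (nat_lit 3))) (.slot (nat_lit 2))) (.col (nat_lit 0)) (.node (.col (nat_lit 1)) (.slot (nat_lit 7)) (.slot (nat_lit 5)))) (.col (nat_lit 0)) (.col (nat_lit 1)) (.node (.slot (nat_lit 0)) (.slot (nat_lit 1)) (.slot (nat_lit 1)))
def w13431 : Root := .mk (.node (.node (.node (.col (nat_lit 3)) (.col (nat_lit 2)) (.slot (nat_lit 0))) (.node (.col (nat_lit 2)) (.slot (nat_lit 3)) (.slot (nat_lit 3))) (.slot (nat_lit 2))) (.col (nat_lit 0)) (.slot (nat_lit 8))) (.col (nat_lit 0)) (.col (nat_lit 1)) (.node (.slot (nat_lit 0)) (.slot (nat_lit 1)) (.slot (nat_lit 1)))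
def w13432 : Root := .mk (.node (.node (.node (.node (.col (nat_lit 3)) (.col (nat_lit 2)) (.slot (nat_lit 0))) (.node (.col (nat_lit 2)) (.slot (nat_lit 3)) (.slot (nat_lit 3))) (.slot (nat_lit 2))) (.col (nat_lit 0)) (.slot (nat_lit 8))) (.col (nat_lit 0)) (.node (.slot (nat_lit 0)) (.slot (nat_lit 1)) (.slot (nat_lit 1)))) (.col (nat_lit 2)) (.col (nat_lit 0)) (.node (.node (.col (nat_lit 2)) (.slot (nat_lit 1)) (.slot (nat_lit 1))) (.slot (nat_lit 2)) (.slot (nat_lit 1)))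
def w13436 : Root := .mk (.node (.node (.node (.col (nat_lit 3)) (.col (nat_lit 2)) (.slot (nat_lit 1))) (.col (nat_lit 3)) (.slot (nat_lit 2))) (.col (nat_lit 0)) (.slot (nat_lit 2))) (.col (nat_lit 0)) (.col (nat_lit 1)) (.node .junk (.col (nat_lit 2)) (.slot (nat_lit 1)))
def w13444 : Root := .mk (.node (.node (.node (.node (.node (.node (.col (nat_lit 3)) (.col (nat_lit 2)) (.slot (nat_lit 1))) (.col (nat_lit 3)) (.slot (nat_lit 2))) (.col (nat_lit 0)) (.slot (nat_lit 2))) (.col (nat_lit 0)) (.node (.slot (nat_lit 0)) (.slot (nat_lit 0)) (.slot (nat_lit 0)))) (.col (nat_lit 2)) (.col (nat_lit 0))) (.slot (nat_lit 1)) (.slot (nat_lit 1))) (.col (nat_lit 2)) (.col (nat_lit 0)) (.node (.col (nat_lit 0)) (.slot (nat_lit 0)) (.slot (nat_lit 0)))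
def w13445 : Root := .mk (.node (.node (.node (.node (.node (.node (.col (nat_lit 3)) (.col (nat_lit 2)) (.slot (nat_lit 1))) (.col (nat_lit 3)) (.slot (nat_lit 2))) (.col (nat_lit 0)) (.slot (nat_lit 2))) (.col (nat_lit 0)) (.node (.slot (nat_lit 0)) (.slot (nat_lit 0)) (.slot (nat_lit 0)))) (.col (nat_lit 2)) (.col (nat_lit 0))) (.slot (nat_lit 1)) (.slot (nat_lit 1))) (.col (nat_lit 2)) (.col (nat_lit 0)) (.node (.col (nat_lit 2)) (.slot (nat_lit 0)) (.slot (nat_lit 0)))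
def w13446 : Root := .mk (.node (.node (.node (.node (.node (.node (.col (nat_lit 3)) (.col (nat_lit 2)) (.slot (nat_lit 1))) (.col (nat_lit 3)) (.slot (nat_lit 2))) (.col (nat_lit 0)) (.slot (nat_lit 2))) (.col (nat_lit 0)) (.node (.slot (nat_lit 0)) (.slot (nat_lit 0)) (.slot (nat_lit 0)))) (.col (nat_lit 2)) (.col (nat_lit 0))) (.slot (nat_lit 1)) (.slot (nat_lit 1))) (.col (nat_lit 2)) (.col (nat_lit 0)) (.node (.slot (nat_lit 0)) (.slot (nat_lit 0)) (.slot (nat_lit 0)))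
def w13447 : Root := .mk (.node (.node (.node (.node (.col (nat_lit 3)) (.col (nat_lit 2)) (.slot (nat_lit 1))) (.col (nat_lit 3)) (.slot (nat_lit 2))) (.col (nat_lit 0)) (.slot (nat_lit 2))) (.col (nat_lit 0)) (.node (.slot (nat_lit 0)) (.slot (nat_lit 0)) (.slot (nat_lit 0)))) (.col (nat_lit 2)) (.col (nat_lit 0)) (.node (.node (.col (nat_lit 2)) (.col (nat_lit 0)) (.slot (nat_lit 1))) (.col (nat_lit 0)) (.slot (nat_lit 4)))
def w13448 : Root := .mk (.node (.node (.node (.node (.col (nat_lit 3)) (.col (nat_lit 2)) (.slot (nat_lit 1))) (.col (nat_lit 3)) (.slot (nat_lit 2))) (.col (nat_lit 0)) (.slot (nat_lit 2))) (.col (nat_lit 0)) (.slot (nat_lit 0))) (.col (nat_lit 2)) (.col (nat_lit 0)) (.node (.node (.col (nat_lit 2)) (.col (nat_lit 0)) (.slot (nat_lit 4))) (.col (nat_lit 2)) (.slot (nat_lit 8)))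
def l3074 : Root := .mk (.node (.node (.node (.node (.col (nat_lit 3)) (.col (nat_lit 2)) (.slot (nat_lit 1))) (.col (nat_lit 3)) (.slot (nat_lit 2))) (.col (nat_lit 0)) (.slot (nat_lit 2))) (.col (nat_lit 0)) (.node (.slot (nat_lit 0)) (.slot (nat_lit 1)) (.slot (nat_lit 1)))) (.col (nat_lit 2)) (.col (nat_lit 0)) (.node (.node (.col (nat_lit 2)) (.col (nat_lit 0)) (.slot (nat_lit 4))) (.slot (nat_lit 8)) (.slot (nat_lit 8)))
def w13449 : Root := .mk (.node (.node (.node (.node (.col (nat_lit 3)) (.col (nat_lit 2)) (.slot (nat_lit 1))) (.col (nat_lit 3)) (.slot (nat_lit 2))) (.col (nat_lit 0)) (.slot (nat_lit 2))) (.col (nat_lit 0)) (.node (.slot (nat_lit 0)) (.slot (nat_lit 1)) (.slot (nat_lit 1)))) (.col (nat_lit 2)) (.col (nat_lit 0)) (.node (.node (.col (nat_lit 2)) (.slot (nat_lit 1)) (.slot (nat_lit 4))) (.slot (nat_lit 8)) (.slot (nat_lit 8)))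
def w13453 : Root := .mk (.node (.node (.node (.node (.node (.node (.col (nat_lit 3)) (.col (nat_lit 2)) (.slot (nat_lit 3))) (.node (.col (nat_lit 2)) (.slot (nat_lit 3)) (.slot (nat_lit 3))) (.col (nat_lit 2))) (.col (nat_lit 0)) (.slot (nat_lit 3))) (.col (nat_lit 0)) (.node (.slot (nat_lit 0)) (.slot (nat_lit 0)) (.slot (nat_lit 0)))) (.col (nat_lit 2)) (.col (nat_lit 0))) (.slot (nat_lit 1)) (.slot (nat_lit 1))) (.col (nat_lit 2)) (.col (nat_lit 0)) (.node (.col (nat_lit 0)) (.slot (nat_lit 0)) (.slot (nat_lit 0)))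
def w13454 : Root := .mk (.node (.node (.node (.node (.node (.node (.col (nat_lit 3)) (.col (nat_lit 2)) (.slot (nat_lit 3))) (.node (.col (nat_lit 2)) (.slot (nat_lit 3)) (.slot (nat_lit 3))) (.col (nat_lit 2))) (.col (nat_lit 0)) (.slot (nat_lit 3))) (.col (nat_lit 0)) (.node (.slot (nat_lit 0)) (.slot (nat_lit 0)) (.slot (nat_lit 0)))) (.col (nat_lit 2)) (.col (nat_lit 0))) (.slot (nat_lit 1)) (.slot (nat_lit 1))) (.col (nat_lit 2)) (.col (nat_lit 0)) (.node (.col (nat_lit 2)) (.slot (nat_lit 0)) (.slot (nat_lit 0)))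
def w13455 : Root := .mk (.node (.node (.node (.node (.node (.node (.col (nat_lit 3)) (.col (nat_lit 2)) (.slot (nat_lit 3))) (.node (.col (nat_lit 2)) (.slot (nat_lit 3)) (.slot (nat_lit 3))) (.col (nat_lit 2))) (.col (nat_lit 0)) (.slot (nat_lit 3))) (.col (nat_lit 0)) (.node (.slot (nat_lit 0)) (.slot (nat_lit 0)) (.slot (nat_lit 0)))) (.col (nat_lit 2)) (.col (nat_lit 0))) (.slot (nat_lit 1)) (.slot (nat_lit 1))) (.col (nat_lit 2)) (.col (nat_lit 0)) (.node (.slot (nat_lit 0)) (.slot (nat_lit 0)) (.slot (nat_lit 0)))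
def w13456 : Root := .mk (.node (.node (.node (.node (.col (nat_lit 3)) (.col (nat_lit 2)) (.slot (nat_lit 3))) (.node (.col (nat_lit 2)) (.slot (nat_lit 3)) (.slot (nat_lit 3))) (.col (nat_lit 2))) (.col (nat_lit 0)) (.slot (nat_lit 3))) (.col (nat_lit 0)) (.node (.slot (nat_lit 0)) (.slot (nat_lit 0)) (.slot (nat_lit 0)))) (.col (nat_lit 2)) (.col (nat_lit 0)) (.node (.node (.col (nat_lit 2)) (.col (nat_lit 0)) (.slot (nat_lit 1))) (.col (nat_lit 0)) (.slot (nat_lit 4)))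
def w13457 : Root := .mk (.node (.node (.node (.node (.col (nat_lit 3)) (.col (nat_lit 2)) (.slot (nat_lit 3))) (.node (.col (nat_lit 2)) (.slot (nat_lit 3)) (.slot (nat_lit 3))) (.col (nat_lit 2))) (.col (nat_lit 0)) (.slot (nat_lit 3))) (.col (nat_lit 0)) (.slot (nat_lit 0))) (.col (nat_lit 2)) (.col (nat_lit 0)) (.node (.node (.col (nat_lit 2)) (.col (nat_lit 0)) (.slot (nat_lit 4))) (.col (nat_lit 2)) (.slot (nat_lit 8)))
def l3075 : Root := .mk (.node (.node (.node (.node (.col (nat_lit 3)) (.col (nat_lit 2)) (.slot (nat_lit 3))) (.node (.col (nat_lit 2)) (.slot (nat_lit 3)) (.slot (nat_lit 3))) (.col (nat_lit 2))) (.col (nat_lit 0)) (.slot (nat_lit 3))) (.col (nat_lit 0)) (.node (.slot (nat_lit 0)) (.slot (nat_lit 1)) (.slot (nat_lit 1)))) (.col (nat_lit 2)) (.col (nat_lit 0)) (.node (.node (.col (nat_lit 2)) (.col (nat_lit 0)) (.slot (nat_lit 4))) (.slot (nat_lit 8)) (.slot (nat_lit 8)))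
def w13458 : Root := .mk (.node (.node (.node (.node (.col (nat_lit 3)) (.col (nat_lit 2)) (.slot (nat_lit 3))) (.node (.col (nat_lit 2)) (.slot (nat_lit 3)) (.slot (nat_lit 3))) (.col (nat_lit 2))) (.col (nat_lit 0)) (.slot (nat_lit 3))) (.col (nat_lit 0)) (.node (.slot (nat_lit 0)) (.slot (nat_lit 1)) (.slot (nat_lit 1)))) (.col (nat_lit 2)) (.col (nat_lit 0)) (.node (.node (.col (nat_lit 2)) (.slot (nat_lit 1)) (.slot (nat_lit 4))) (.slot (nat_lit 8)) (.slot (nat_lit 8)))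
def l3076 : Root := .mk (.col (nat_lit 3)) (.node (.node (.node (.col (nat_lit 0)) (.col (nat_lit 1)) (.node (.slot (nat_lit 0)) (.slot (nat_lit 0)) (.slot (nat_lit 0)))) (.col (nat_lit 0)) (.col (nat_lit 2))) (.node (.col (nat_lit 2)) (.slot (nat_lit 1)) (.slot (nat_lit 1))) (.col (nat_lit 1))) (.col (nat_lit 2)) (.col (nat_lit 1))
def w13459 : Root := .mk (.col (nat_lit 3)) (.node (.node (.node (.col (nat_lit 0)) (.col (nat_lit 1)) (.node (.slot (nat_lit 0)) (.slot (nat_lit 0)) (.slot (nat_lit 0)))) (.col (nat_lit 0)) (.slot (nat_lit 1))) (.node (.col (nat_lit 2)) (.slot (nat_lit 1)) (.slot (nat_lit 1))) (.col (nat_lit 1))) (.col (nat_lit 2)) (.col (nat_lit 1))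
def w13460 : Root := .mk (.col (nat_lit 3)) (.node (.node (.node (.col (nat_lit 0)) (.node (.col (nat_lit 2)) (.col (nat_lit 0)) (.node (.node (.col (nat_lit 2)) (.slot (nat_lit 1)) (.slot (nat_lit 1))) (.slot (nat_lit 2)) (.slot (nat_lit 1)))) (.node (.slot (nat_lit 0)) (.slot (nat_lit 0)) (.slot (nat_lit 0)))) (.col (nat_lit 0)) (.slot (nat_lit 1))) (.node (.col (nat_lit 2)) (.slot (nat_lit 1)) (.slot (nat_lit 1))) (.col (nat_lit 1))) (.col (nat_lit 2)) (.col (nat_lit 1))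
def l3077 : Root := .mk (.node (.node (.node (.node (.col (nat_lit 3)) (.col (nat_lit 2)) (.slot (nat_lit 3))) (.node (.col (nat_lit 2)) (.slot (nat_lit 7)) (.slot (nat_lit 5))) (.col (nat_lit 1))) (.col (nat_lit 0)) (.slot (nat_lit 2))) (.col (nat_lit 0)) (.node (.slot (nat_lit 0)) (.slot (nat_lit 0)) (.slot (nat_lit 0)))) (.col (nat_lit 2)) (.col (nat_lit 0)) (.node (.node (.col (nat_lit 2)) (.slot (nat_lit 1)) (.slot (nat_lit 1))) (.slot (nat_lit 2)) (.slot (nat_lit 1)))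
def w13461 : Root := .mk (.node (.node (.node (.node (.col (nat_lit 3)) (.col (nat_lit 2)) (.slot (nat_lit 3))) (.node (.col (nat_lit 2)) (.slot (nat_lit 7)) (.slot (nat_lit 5))) (.node (.col (nat_lit 0)) (.slot (nat_lit 0)) (.slot (nat_lit 0)))) (.col (nat_lit 0)) (.slot (nat_lit 2))) (.col (nat_lit 0)) (.node (.slot (nat_lit 0)) (.slot (nat_lit 0)) (.slot (nat_lit 0)))) (.col (nat_lit 2)) (.col (nat_lit 0)) (.node (.node (.col (nat_lit 2)) (.slot (nat_lit 1)) (.slot (nat_lit 1))) (.slot (nat_lit 2)) (.slot (nat_lit 1)))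
def w13462 : Root := .mk (.col (nat_lit 3)) (.node (.node (.col (nat_lit 2)) (.col (nat_lit 0)) (.slot (nat_lit 2))) (.node (.col (nat_lit 2)) (.col (nat_lit 0)) (.slot (nat_lit 1))) (.node (.col (nat_lit 0)) (.slot (nat_lit 0)) (.slot (nat_lit 0)))) (.col (nat_lit 2)) (.slot (nat_lit 0))
def w13463 : Root := .mk (.col (nat_lit 3)) (.node (.node (.col (nat_lit 2)) (.col (nat_lit 0)) (.slot (nat_lit 0))) (.node (.col (nat_lit 2)) (.col (nat_lit 0)) (.slot (nat_lit 3))) (.slot (nat_lit 1))) (.col (nat_lit 2)) (.col (nat_lit 1))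
def l3078 : Root := .mk (.node (.node (.col (nat_lit 3)) (.col (nat_lit 2)) (.slot (nat_lit 1))) (.node (.col (nat_lit 2)) (.col (nat_lit 0)) (.slot (nat_lit 6))) (.slot (nat_lit 2))) (.col (nat_lit 2)) (.col (nat_lit 0)) (.slot (nat_lit 6))
def w13464 : Root := .mk (.node (.node (.node (.col (nat_lit 3)) (.col (nat_lit 2)) (.slot (nat_lit 1))) (.node (.col (nat_lit 2)) (.col (nat_lit 0)) (.slot (nat_lit 6))) (.slot (nat_lit 2))) (.col (nat_lit 0)) (.slot (nat_lit 6))) (.col (nat_lit 0)) (.col (nat_lit 1)) (.slot (nat_lit 0))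
def w13465 : Root := .mk (.node (.node (.node (.node (.col (nat_lit 3)) (.col (nat_lit 2)) (.slot (nat_lit 1))) (.node (.col (nat_lit 2)) (.col (nat_lit 0)) (.slot (nat_lit 6))) (.slot (nat_lit 2))) (.col (nat_lit 0)) (.slot (nat_lit 6))) (.col (nat_lit 0)) (.slot (nat_lit 0))) (.col (nat_lit 2)) (.col (nat_lit 0)) (.node (.node (.col (nat_lit 2)) (.slot (nat_lit 1)) (.slot (nat_lit 1))) (.slot (nat_lit 2)) (.slot (nat_lit 1)))
def l3079 : Root := .mk (.node (.node (.col (nat_lit 3)) (.col (nat_lit 2)) (.slot (nat_lit 6))) (.node (.slot (nat_lit 0)) (.col (nat_lit 0)) (.slot (nat_lit 0))) (.slot (nat_lit 2))) (.col (nat_lit 2)) (.col (nat_lit 3)) (.slot (nat_lit 6))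
def w13466 : Root := .mk (.col (nat_lit 3)) (.node (.node (.slot (nat_lit 0)) (.col (nat_lit 0)) (.slot (nat_lit 0))) (.node (.col (nat_lit 2)) (.node (.col (nat_lit 2)) (.slot (nat_lit 0)) (.slot (nat_lit 0))) (.slot (nat_lit 6))) (.slot (nat_lit 2))) (.col (nat_lit 2)) (.slot (nat_lit 6))
def l3080 : Root := .mk (.node (.node (.node (.node (.col (nat_lit 3)) (.col (nat_lit 2)) (.slot (nat_lit 6))) (.node (.col (nat_lit 2)) (.slot (nat_lit 8)) (.slot (nat_lit 8))) (.slot (nat_lit 8))) (.col (nat_lit 0)) (.slot (nat_lit 8))) (.col (nat_lit 0)) (.node (.slot (nat_lit 0)) (.slot (nat_lit 1)) (.slot (nat_lit 1)))) (.col (nat_lit 2)) (.col (nat_lit 0)) (.node (.node (.col (nat_lit 2)) (.slot (nat_lit 4)) (.slot (nat_lit 1))) (.slot (nat_lit 8)) (.slot (nat_lit 8)))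
def w13467 : Root := .mk (.node (.node (.node (.node (.col (nat_lit 3)) (.slot (nat_lit 1)) (.slot (nat_lit 6))) (.node (.col (nat_lit 2)) (.slot (nat_lit 8)) (.slot (nat_lit 8))) (.slot (nat_lit 8))) (.col (nat_lit 0)) (.slot (nat_lit 8))) (.col (nat_lit 0)) (.node (.slot (nat_lit 0)) (.slot (nat_lit 1)) (.slot (nat_lit 1)))) (.col (nat_lit 2)) (.col (nat_lit 0)) (.node (.node (.col (nat_lit 2)) (.slot (nat_lit 4)) (.slot (nat_lit 1))) (.slot (nat_lit 8)) (.slot (nat_lit 8)))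
def w13468 : Root := .mk (.node (.node (.node (.node (.col (nat_lit 3)) (.slot (nat_lit 3)) (.slot (nat_lit 1))) (.node (.col (nat_lit 2)) (.slot (nat_lit 1)) (.slot (nat_lit 1))) (.slot (nat_lit 2))) (.col (nat_lit 0)) (.slot (nat_lit 3))) (.col (nat_lit 0)) (.slot (nat_lit 3))) (.col (nat_lit 2)) (.col (nat_lit 0)) (.node (.col (nat_lit 0)) (.slot (nat_lit 3)) (.slot (nat_lit 1)))
def w13469 : Root := .mk (.node (.node (.node (.node (.col (nat_lit 3)) (.slot (nat_lit 3)) (.slot (nat_lit 1))) (.node (.col (nat_lit 2)) (.slot (nat_lit 1)) (.slot (nat_lit 1))) (.slot (nat_lit 2))) (.col (nat_lit 0)) (.slot (nat_lit 3))) (.col (nat_lit 0)) (.slot (nat_lit 3))) (.col (nat_lit 2)) (.col (nat_lit 0)) (.node (.node (.col (nat_lit 2)) (.slot (nat_lit 0)) (.slot (nat_lit 0))) (.col (nat_lit 2)) (.slot (nat_lit 3)))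
def w13470 : Root := .mk (.node (.node (.node (.node (.col (nat_lit 3)) (.slot (nat_lit 3)) (.slot (nat_lit 1))) (.node (.col (nat_lit 2)) (.slot (nat_lit 1)) (.slot (nat_lit 1))) (.slot (nat_lit 2))) (.col (nat_lit 0)) (.slot (nat_lit 3))) (.col (nat_lit 0)) (.slot (nat_lit 3))) (.col (nat_lit 2)) (.col (nat_lit 0)) (.node (.node (.col (nat_lit 2)) (.slot (nat_lit 1)) (.slot (nat_lit 1))) (.node (.col (nat_lit 0)) (.slot (nat_lit 0)) (.slot (nat_lit 0))) (.slot (nat_lit 2)))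
def w13471 : Root := .mk (.node (.node (.node (.node (.col (nat_lit 3)) (.slot (nat_lit 3)) (.slot (nat_lit 1))) (.node (.col (nat_lit 2)) (.slot (nat_lit 1)) (.slot (nat_lit 1))) (.slot (nat_lit 2))) (.col (nat_lit 0)) (.slot (nat_lit 3))) (.col (nat_lit 0)) (.slot (nat_lit 3))) (.col (nat_lit 2)) (.col (nat_lit 0)) (.node (.node (.col (nat_lit 2)) (.slot (nat_lit 1)) (.slot (nat_lit 1))) (.node (.col (nat_lit 1)) (.slot (nat_lit 0)) (.slot (nat_lit 0))) (.slot (nat_lit 2)))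
def w13472 : Root := .mk (.node (.node (.node (.node (.col (nat_lit 3)) (.slot (nat_lit 3)) (.slot (nat_lit 1))) (.node (.col (nat_lit 2)) (.slot (nat_lit 1)) (.slot (nat_lit 1))) (.slot (nat_lit 2))) (.col (nat_lit 0)) (.slot (nat_lit 3))) (.col (nat_lit 0)) (.slot (nat_lit 3))) (.col (nat_lit 2)) (.col (nat_lit 0)) (.node (.node (.col (nat_lit 2)) (.slot (nat_lit 1)) (.slot (nat_lit 1))) (.node (.col (nat_lit 3)) (.slot (nat_lit 1)) (.slot (nat_lit 1))) (.slot (nat_lit 1)))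
def w13473 : Root := .mk (.node (.node (.col (nat_lit 3)) (.slot (nat_lit 1)) (.slot (nat_lit 1))) (.node (.col (nat_lit 2)) (.slot (nat_lit 0)) (.slot (nat_lit 0))) (.slot (nat_lit 2))) (.node (.col (nat_lit 0)) (.node (.col (nat_lit 2)) (.col (nat_lit 0)) (.node (.node (.col (nat_lit 2)) (.slot (nat_lit 1)) (.slot (nat_lit 1))) (.slot (nat_lit 2)) (.slot (nat_lit 1)))) (.slot (nat_lit 3))) (.col (nat_lit 0)) (.col (nat_lit 1))
def w13474 : Root := .mk (.node (.node (.col (nat_lit 3)) (.slot (nat_lit 0)) (.slot (nat_lit 0))) (.node (.col (nat_lit 2)) (.slot (nat_lit 1)) (.slot (nat_lit 1))) (.slot (nat_lit 2))) (.node (.col (nat_lit 0)) (.node (.col (nat_lit 2)) (.col (nat_lit 0)) (.node (.node (.col (nat_lit 2)) (.slot (nat_lit 1)) (.slot (nat_lit 1))) (.slot (nat_lit 2)) (.slot (nat_lit 1)))) (.slot (nat_lit 3))) (.col (nat_lit 0)) (.col (nat_lit 2))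
def w13475 : Root := .mk (.node (.col (nat_lit 0)) (.node (.col (nat_lit 2)) (.slot (nat_lit 0)) (.slot (nat_lit 0))) (.slot (nat_lit 3))) (.node (.col (nat_lit 0)) (.node (.col (nat_lit 2)) (.col (nat_lit 0)) (.node (.node (.col (nat_lit 2)) (.slot (nat_lit 1)) (.slot (nat_lit 1))) (.slot (nat_lit 2)) (.slot (nat_lit 1)))) (.slot (nat_lit 3))) (.col (nat_lit 0)) (.col (nat_lit 3))
def w13476 : Root := .mk (.col (nat_lit 1)) (.node (.node (.col (nat_lit 0)) (.node (.col (nat_lit 2)) (.col (nat_lit 0)) (.node (.node (.col (nat_lit 2)) (.slot (nat_lit 1)) (.slot (nat_lit 1))) (.slot (nat_lit 2)) (.slot (nat_lit 1)))) (.slot (nat_lit 3))) (.col (nat_lit 0)) (.col (nat_lit 3))) (.col (nat_lit 0)) (.col (nat_lit 3))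
def w13477 : Root := .mk (.col (nat_lit 1)) (.node (.node (.col (nat_lit 0)) (.node (.col (nat_lit 2)) (.col (nat_lit 0)) (.node (.node (.col (nat_lit 2)) (.slot (nat_lit 1)) (.slot (nat_lit 1))) (.slot (nat_lit 2)) (.slot (nat_lit 1)))) (.slot (nat_lit 1))) (.col (nat_lit 0)) (.col (nat_lit 3))) (.node (.col (nat_lit 2)) .junk (.slot (nat_lit 1))) (.col (nat_lit 3))
def w13478 : Root := .mk (.node (.col (nat_lit 1)) (.node (.col (nat_lit 2)) (.slot (nat_lit 1)) .junk) (.col (nat_lit 3))) (.node .junk (.node (.col (nat_lit 2)) (.col (nat_lit 0)) (.slot (nat_lit 0))) (.col (nat_lit 2))) (.col (nat_lit 0)) (.col (nat_lit 3))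
def l3081 : Root := .mk (.col (nat_lit 1)) (.node (.node (.col (nat_lit 0)) (.node (.col (nat_lit 2)) (.col (nat_lit 0)) (.node (.node (.col (nat_lit 2)) (.slot (nat_lit 1)) (.slot (nat_lit 1))) (.slot (nat_lit 2)) (.slot (nat_lit 1)))) (.slot (nat_lit 3))) (.col (nat_lit 0)) (.col (nat_lit 3))) (.node (.col (nat_lit 2)) (.slot (nat_lit 1)) (.slot (nat_lit 1))) (.col (nat_lit 3))
def w13479 : Root := .mk (.node (.node (.col (nat_lit 3)) (.slot (nat_lit 0)) (.slot (nat_lit 0))) (.node (.col (nat_lit 2)) (.slot (nat_lit 1)) (.slot (nat_lit 1))) (.col (nat_lit 3))) (.node (.col (nat_lit 0)) (.node (.col (nat_lit 2)) (.col (nat_lit 0)) (.node (.node (.col (nat_lit 2)) (.slot (nat_lit 1)) (.slot (nat_lit 1))) (.slot (nat_lit 2)) (.slot (nat_lit 1)))) (.slot (nat_lit 3))) (.col (nat_lit 0)) (.col (nat_lit 3))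
def w13480 : Root := .mk (.node (.node (.col (nat_lit 3)) (.slot (nat_lit 1)) (.slot (nat_lit 0))) (.node (.col (nat_lit 2)) (.slot (nat_lit 0)) (.slot (nat_lit 0))) (.node (.col (nat_lit 0)) (.slot (nat_lit 1)) (.slot (nat_lit 1)))) (.node (.col (nat_lit 0)) (.node (.col (nat_lit 2)) (.col (nat_lit 0)) (.node (.node (.col (nat_lit 2)) (.slot (nat_lit 1)) (.slot (nat_lit 1))) (.slot (nat_lit 2)) (.slot (nat_lit 1)))) (.slot (nat_lit 3))) (.col (nat_lit 0)) (.col (nat_lit 3))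
def w13481 : Root := .mk (.node (.node (.col (nat_lit 3)) (.slot (nat_lit 1)) (.slot (nat_lit 0))) (.node (.col (nat_lit 2)) (.slot (nat_lit 0)) (.slot (nat_lit 0))) (.node (.col (nat_lit 1)) (.slot (nat_lit 1)) (.slot (nat_lit 1)))) (.node (.col (nat_lit 0)) (.node (.col (nat_lit 2)) (.col (nat_lit 0)) (.node (.node (.col (nat_lit 2)) (.slot (nat_lit 1)) (.slot (nat_lit 1))) (.slot (nat_lit 2)) (.slot (nat_lit 1)))) (.slot (nat_lit 3))) (.col (nat_lit 0)) (.col (nat_lit 3))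
def w13482 : Root := .mk (.node (.node (.col (nat_lit 3)) (.slot (nat_lit 1)) (.slot (nat_lit 1))) (.node (.col (nat_lit 2)) (.slot (nat_lit 0)) (.slot (nat_lit 0))) (.node (.col (nat_lit 2)) (.slot (nat_lit 1)) (.slot (nat_lit 0)))) (.node (.col (nat_lit 0)) (.node (.col (nat_lit 2)) (.col (nat_lit 0)) (.node (.node (.col (nat_lit 2)) (.slot (nat_lit 1)) (.slot (nat_lit 1))) (.slot (nat_lit 2)) (.slot (nat_lit 1)))) (.slot (nat_lit 5))) (.col (nat_lit 0)) (.col (nat_lit 3))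
def w13483 : Root := .mk (.node (.node (.col (nat_lit 3)) (.slot (nat_lit 1)) (.slot (nat_lit 1))) (.node (.col (nat_lit 2)) (.slot (nat_lit 0)) (.slot (nat_lit 0))) (.node (.col (nat_lit 3)) (.slot (nat_lit 1)) (.slot (nat_lit 1)))) (.node (.col (nat_lit 0)) (.slot (nat_lit 0)) (.slot (nat_lit 0))) (.col (nat_lit 0)) (.col (nat_lit 3))
def w13484 : Root := .mk (.node (.node (.col (nat_lit 3)) (.slot (nat_lit 1)) (.slot (nat_lit 0))) (.node (.col (nat_lit 2)) (.slot (nat_lit 0)) (.slot (nat_lit 0))) (.node (.slot (nat_lit 0)) (.slot (nat_lit 1)) (.slot (nat_lit 1)))) (.node (.col (nat_lit 0)) (.node (.col (nat_lit 2)) (.col (nat_lit 0)) (.node (.node (.col (nat_lit 2)) (.slot (nat_lit 1)) (.slot (nat_lit 1))) (.slot (nat_lit 2)) (.slot (nat_lit 1)))) (.slot (nat_lit 3))) (.col (nat_lit 0)) (.col (nat_lit 3))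
def w13485 : Root := .mk (.node (.node (.col (nat_lit 3)) (.slot (nat_lit 1)) (.slot (nat_lit 1))) (.node (.col (nat_lit 2)) (.slot (nat_lit 0)) (.slot (nat_lit 0))) (.slot (nat_lit 2))) (.node (.col (nat_lit 0)) (.node (.col (nat_lit 2)) (.col (nat_lit 0)) (.node (.node (.col (nat_lit 2)) (.slot (nat_lit 1)) (.slot (nat_lit 0))) (.slot (nat_lit 2)) (.slot (nat_lit 2)))) (.node (.col (nat_lit 0)) (.slot (nat_lit 3)) (.slot (nat_lit 1)))) (.col (nat_lit 0)) (.col (nat_lit 3))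
def w13486 : Root := .mk (.node (.node (.col (nat_lit 3)) (.slot (nat_lit 0)) (.slot (nat_lit 0))) (.node (.col (nat_lit 2)) (.slot (nat_lit 1)) (.slot (nat_lit 1))) (.slot (nat_lit 2))) (.node (.col (nat_lit 0)) (.node (.col (nat_lit 2)) (.col (nat_lit 0)) (.node (.node (.col (nat_lit 2)) (.slot (nat_lit 1)) (.slot (nat_lit 1))) (.slot (nat_lit 2)) (.slot (nat_lit 1)))) (.node (.col (nat_lit 1)) (.slot (nat_lit 1)) .junk)) (.col (nat_lit 0)) (.col (nat_lit 3))
def w13487 : Root := .mk (.node (.node (.col (nat_lit 3)) (.slot (nat_lit 1)) (.slot (nat_lit 1))) (.node (.col (nat_lit 2)) (.slot (nat_lit 0)) (.slot (nat_lit 0))) (.slot (nat_lit 2))) (.node (.col (nat_lit 0)) (.node (.col (nat_lit 2)) (.col (nat_lit 0)) (.node (.slot (nat_lit 0)) (.slot (nat_lit 0)) (.slot (nat_lit 0)))) (.node (.col (nat_lit 3)) (.slot (nat_lit 2)) (.slot (nat_lit 2)))) (.col (nat_lit 0)) (.col (nat_lit 3))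
def w13488 : Root := .mk (.node (.node (.col (nat_lit 3)) (.col (nat_lit 1)) (.slot (nat_lit 2))) (.node (.col (nat_lit 2)) (.slot (nat_lit 0)) (.slot (nat_lit 0))) (.slot (nat_lit 2))) (.node (.col (nat_lit 0)) (.node (.col (nat_lit 2)) (.col (nat_lit 0)) (.node (.node (.col (nat_lit 2)) (.slot (nat_lit 1)) (.slot (nat_lit 1))) (.slot (nat_lit 2)) (.slot (nat_lit 1)))) (.slot (nat_lit 1))) (.col (nat_lit 0)) (.col (nat_lit 3))
def w13489 : Root := .mk (.node (.node (.col (nat_lit 3)) (.slot (nat_lit 1)) (.slot (nat_lit 1))) (.node (.col (nat_lit 2)) (.col (nat_lit 0)) (.slot (nat_lit 0))) (.slot (nat_lit 2))) (.node (.col (nat_lit 0)) (.node (.col (nat_lit 2)) (.col (nat_lit 0)) (.node (.node (.col (nat_lit 2)) (.slot (nat_lit 1)) (.slot (nat_lit 1))) (.slot (nat_lit 2)) (.slot (nat_lit 1)))) (.slot (nat_lit 3))) (.col (nat_lit 0)) (.col (nat_lit 3))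
def w13490 : Root := .mk (.node (.node (.col (nat_lit 3)) (.slot (nat_lit 1)) (.slot (nat_lit 1))) (.node (.col (nat_lit 2)) (.col (nat_lit 1)) (.slot (nat_lit 0))) (.slot (nat_lit 2))) (.node (.col (nat_lit 0)) (.node (.col (nat_lit 2)) (.col (nat_lit 0)) (.node (.node (.col (nat_lit 2)) (.slot (nat_lit 1)) (.slot (nat_lit 1))) (.slot (nat_lit 2)) (.slot (nat_lit 1)))) (.slot (nat_lit 3))) (.col (nat_lit 0)) (.col (nat_lit 3))
def w13491 : Root := .mk (.node (.node (.col (nat_lit 3)) (.slot (nat_lit 1)) (.slot (nat_lit 1))) (.node (.col (nat_lit 2)) (.slot (nat_lit 0)) (.slot (nat_lit 0))) (.slot (nat_lit 2))) (.node (.col (nat_lit 0)) (.node (.col (nat_lit 2)) .junk (.col (nat_lit 1))) (.slot (nat_lit 1))) (.col (nat_lit 0)) (.col (nat_lit 3))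
def w13492 : Root := .mk (.node (.node (.node (.node (.col (nat_lit 3)) (.slot (nat_lit 1)) (.slot (nat_lit 1))) (.node (.col (nat_lit 2)) (.slot (nat_lit 0)) (.slot (nat_lit 0))) (.slot (nat_lit 2))) (.col (nat_lit 0)) (.col (nat_lit 3))) (.col (nat_lit 0)) (.slot (nat_lit 3))) (.col (nat_lit 2)) (.col (nat_lit 0)) (.node (.node (.col (nat_lit 2)) (.slot (nat_lit 0)) (.slot (nat_lit 0))) (.col (nat_lit 2)) (.slot (nat_lit 3)))
def w13493 : Root := .mk (.node (.node (.node (.node (.col (nat_lit 3)) (.slot (nat_lit 1)) (.slot (nat_lit 1))) (.node (.col (nat_lit 2)) (.slot (nat_lit 0)) (.slot (nat_lit 0))) (.slot (nat_lit 2))) (.col (nat_lit 0)) (.col (nat_lit 3))) (.col (nat_lit 0)) (.slot (nat_lit 3))) (.col (nat_lit 2)) (.col (nat_lit 0)) (.node (.node (.col (nat_lit 2)) (.slot (nat_lit 0)) (.slot (nat_lit 0))) (.node (.col (nat_lit 0)) (.slot (nat_lit 1)) (.slot (nat_lit 1))) (.slot (nat_lit 2)))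
def w13494 : Root := .mk (.node (.node (.node (.node (.col (nat_lit 3)) (.slot (nat_lit 1)) (.slot (nat_lit 1))) (.node (.col (nat_lit 2)) (.slot (nat_lit 0)) (.slot (nat_lit 0))) (.slot (nat_lit 2))) (.col (nat_lit 0)) (.col (nat_lit 3))) (.col (nat_lit 0)) (.slot (nat_lit 3))) (.col (nat_lit 2)) (.col (nat_lit 0)) (.node (.node (.col (nat_lit 2)) (.slot (nat_lit 0)) (.slot (nat_lit 0))) (.node (.col (nat_lit 1)) (.slot (nat_lit 1)) (.slot (nat_lit 1))) (.slot (nat_lit 2)))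
def w13495 : Root := .mk (.node (.node (.node (.node (.col (nat_lit 3)) (.slot (nat_lit 1)) (.slot (nat_lit 1))) (.node (.col (nat_lit 2)) (.slot (nat_lit 0)) (.slot (nat_lit 0))) (.slot (nat_lit 2))) (.col (nat_lit 0)) (.col (nat_lit 3))) (.col (nat_lit 0)) (.slot (nat_lit 3))) (.col (nat_lit 2)) (.col (nat_lit 0)) (.node (.node (.col (nat_lit 2)) (.slot (nat_lit 1)) (.slot (nat_lit 1))) (.node (.col (nat_lit 3)) (.slot (nat_lit 0)) (.slot (nat_lit 0))) (.slot (nat_lit 2)))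
def w13496 : Root := .mk (.node (.node (.node (.node (.col (nat_lit 3)) (.slot (nat_lit 1)) (.slot (nat_lit 1))) (.node (.col (nat_lit 2)) (.slot (nat_lit 0)) (.slot (nat_lit 0))) (.slot (nat_lit 2))) (.col (nat_lit 0)) (.col (nat_lit 3))) (.col (nat_lit 0)) (.slot (nat_lit 1))) (.col (nat_lit 2)) (.col (nat_lit 0)) (.node (.node (.col (nat_lit 2)) (.col (nat_lit 1)) (.slot (nat_lit 2))) (.slot (nat_lit 1)) (.slot (nat_lit 1)))
def w13497 : Root := .mk (.node (.node (.node (.node (.col (nat_lit 3)) (.slot (nat_lit 1)) (.slot (nat_lit 1))) (.node (.col (nat_lit 2)) (.slot (nat_lit 0)) (.slot (nat_lit 0))) (.slot (nat_lit 2))) (.col (nat_lit 0)) (.col (nat_lit 3))) (.col (nat_lit 0)) (.slot (nat_lit 1))) (.col (nat_lit 2)) (.col (nat_lit 0)) (.node (.node (.col (nat_lit 2)) (.col (nat_lit 3)) (.slot (nat_lit 1))) (.slot (nat_lit 1)) (.slot (nat_lit 1)))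
def w13498 : Root := .mk (.node (.node (.node (.node (.col (nat_lit 3)) (.slot (nat_lit 1)) (.slot (nat_lit 1))) (.node (.col (nat_lit 2)) (.slot (nat_lit 0)) (.slot (nat_lit 0))) (.slot (nat_lit 2))) (.col (nat_lit 0)) (.col (nat_lit 3))) (.col (nat_lit 0)) (.slot (nat_lit 3))) (.col (nat_lit 2)) (.col (nat_lit 0)) (.node (.node (.col (nat_lit 2)) (.node (.col (nat_lit 2)) (.slot (nat_lit 0)) (.slot (nat_lit 0))) (.slot (nat_lit 2))) (.slot (nat_lit 2)) (.slot (nat_lit 1)))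
def l3082 : Root := .mk (.node (.node (.col (nat_lit 3)) (.slot (nat_lit 3)) (.slot (nat_lit 3))) (.node (.col (nat_lit 2)) (.slot (nat_lit 4)) (.slot (nat_lit 3))) (.slot (nat_lit 8))) (.node (.col (nat_lit 0)) (.node (.col (nat_lit 2)) (.col (nat_lit 0)) (.node (.node (.col (nat_lit 2)) (.slot (nat_lit 3)) (.slot (nat_lit 3))) (.slot (nat_lit 8)) (.slot (nat_lit 8)))) (.slot (nat_lit 5))) (.col (nat_lit 0)) (.col (nat_lit 3))
def w13499 : Root := .mk (.node (.node (.node (.node (.col (nat_lit 3)) (.slot (nat_lit 3)) (.slot (nat_lit 3))) (.node (.col (nat_lit 2)) (.slot (nat_lit 4)) (.slot (nat_lit 3))) (.slot (nat_lit 8))) (.col (nat_lit 0)) (.node (.col (nat_lit 0)) (.slot (nat_lit 0)) (.slot (nat_lit 0)))) (.col (nat_lit 0)) (.slot (nat_lit 5))) (.col (nat_lit 2)) (.col (nat_lit 0)) (.node (.node (.col (nat_lit 2)) (.slot (nat_lit 3)) (.slot (nat_lit 3))) (.slot (nat_lit 8)) (.slot (nat_lit 8)))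
def w13500 : Root := .mk (.node (.node (.node (.node (.col (nat_lit 3)) (.slot (nat_lit 2)) (.slot (nat_lit 2))) (.node (.col (nat_lit 2)) (.slot (nat_lit 0)) (.slot (nat_lit 0))) (.slot (nat_lit 2))) (.col (nat_lit 0)) (.node (.col (nat_lit 1)) (.slot (nat_lit 2)) (.slot (nat_lit 2)))) (.col (nat_lit 0)) (.slot (nat_lit 3))) (.col (nat_lit 2)) (.col (nat_lit 0)) (.node (.node (.col (nat_lit 2)) (.slot (nat_lit 1)) (.slot (nat_lit 1))) (.slot (nat_lit 2)) (.slot (nat_lit 1)))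
def w13501 : Root := .mk (.node (.node (.node (.node (.col (nat_lit 3)) (.slot (nat_lit 3)) (.slot (nat_lit 3))) (.node (.col (nat_lit 2)) (.slot (nat_lit 4)) (.slot (nat_lit 3))) (.slot (nat_lit 8))) (.col (nat_lit 0)) (.node (.col (nat_lit 2)) (.slot (nat_lit 0)) (.slot (nat_lit 0)))) (.col (nat_lit 0)) (.slot (nat_lit 5))) (.col (nat_lit 2)) (.col (nat_lit 0)) (.node (.node (.col (nat_lit 2)) (.slot (nat_lit 3)) (.slot (nat_lit 3))) (.slot (nat_lit 8)) (.slot (nat_lit 8)))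
def w13502 : Root := .mk (.node (.node (.node (.node (.col (nat_lit 3)) (.slot (nat_lit 0)) (.slot (nat_lit 0))) (.node (.col (nat_lit 2)) (.slot (nat_lit 0)) (.slot (nat_lit 0))) (.slot (nat_lit 2))) (.col (nat_lit 0)) (.node (.col (nat_lit 3)) (.slot (nat_lit 1)) (.slot (nat_lit 1)))) (.col (nat_lit 0)) (.slot (nat_lit 3))) (.col (nat_lit 2)) (.col (nat_lit 0)) (.node (.node (.col (nat_lit 2)) (.slot (nat_lit 1)) (.slot (nat_lit 1))) (.slot (nat_lit 2)) (.slot (nat_lit 1)))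
def w13503 : Root := .mk (.node (.node (.node (.node (.col (nat_lit 3)) (.slot (nat_lit 3)) (.slot (nat_lit 3))) (.node (.col (nat_lit 2)) (.slot (nat_lit 4)) (.slot (nat_lit 3))) (.slot (nat_lit 8))) (.col (nat_lit 0)) (.node (.slot (nat_lit 0)) (.slot (nat_lit 0)) (.slot (nat_lit 0)))) (.col (nat_lit 0)) (.slot (nat_lit 5))) (.col (nat_lit 2)) (.col (nat_lit 0)) (.node (.node (.col (nat_lit 2)) (.slot (nat_lit 3)) (.slot (nat_lit 3))) (.slot (nat_lit 8)) (.slot (nat_lit 8)))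
def w13504 : Root := .mk (.node (.node (.node (.node (.col (nat_lit 3)) (.slot (nat_lit 3)) (.slot (nat_lit 1))) (.node (.col (nat_lit 2)) (.slot (nat_lit 1)) (.slot (nat_lit 1))) (.slot (nat_lit 2))) (.col (nat_lit 0)) (.slot (nat_lit 3))) (.col (nat_lit 0)) (.slot (nat_lit 3))) (.col (nat_lit 2)) (.col (nat_lit 0)) (.node (.node (.col (nat_lit 2)) (.slot (nat_lit 0)) (.slot (nat_lit 1))) (.slot (nat_lit 2)) (.slot (nat_lit 1)))
def w13505 : Root := .mk (.node (.node (.node (.col (nat_lit 2)) (.node (.col (nat_lit 2)) (.slot (nat_lit 0)) (.slot (nat_lit 0))) (.slot (nat_lit 2))) (.col (nat_lit 0)) (.slot (nat_lit 2))) (.col (nat_lit 0)) (.slot (nat_lit 3))) (.col (nat_lit 2)) (.col (nat_lit 0)) (.node (.node (.col (nat_lit 2)) (.slot (nat_lit 1)) (.slot (nat_lit 1))) (.slot (nat_lit 2)) (.slot (nat_lit 1)))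
def w13506 : Root := .mk (.node (.node (.node (.node (.col (nat_lit 3)) (.slot (nat_lit 1)) (.slot (nat_lit 0))) (.node (.col (nat_lit 2)) (.slot (nat_lit 0)) (.slot (nat_lit 0))) (.col (nat_lit 1))) (.col (nat_lit 0)) (.slot (nat_lit 1))) (.col (nat_lit 0)) (.slot (nat_lit 3))) (.col (nat_lit 2)) (.col (nat_lit 0)) (.node (.node (.col (nat_lit 2)) (.slot (nat_lit 1)) (.slot (nat_lit 1))) (.slot (nat_lit 2)) (.slot (nat_lit 1)))
def w13507 : Root := .mk (.node (.node (.node (.node (.col (nat_lit 3)) (.slot (nat_lit 0)) (.slot (nat_lit 0))) (.node (.col (nat_lit 2)) (.slot (nat_lit 3)) (.slot (nat_lit 1))) (.node (.col (nat_lit 0)) (.slot (nat_lit 7)) (.slot (nat_lit 5)))) (.col (nat_lit 0)) (.slot (nat_lit 3))) (.col (nat_lit 0)) (.slot (nat_lit 3))) (.col (nat_lit 2)) (.col (nat_lit 0)) (.node (.node (.col (nat_lit 2)) (.slot (nat_lit 1)) (.slot (nat_lit 1))) (.slot (nat_lit 2)) (.slot (nat_lit 1)))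
def w13508 : Root := .mk (.node (.node (.node (.node (.col (nat_lit 3)) (.slot (nat_lit 0)) (.slot (nat_lit 0))) (.node (.col (nat_lit 2)) (.slot (nat_lit 3)) (.slot (nat_lit 1))) (.node (.col (nat_lit 1)) (.slot (nat_lit 7)) (.slot (nat_lit 5)))) (.col (nat_lit 0)) (.slot (nat_lit 3))) (.col (nat_lit 0)) (.slot (nat_lit 3))) (.col (nat_lit 2)) (.col (nat_lit 0)) (.node (.node (.col (nat_lit 2)) (.slot (nat_lit 1)) (.slot (nat_lit 1))) (.slot (nat_lit 2)) (.slot (nat_lit 1)))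
def w13509 : Root := .mk (.node (.node (.node (.node (.col (nat_lit 3)) (.slot (nat_lit 0)) (.slot (nat_lit 0))) (.node (.col (nat_lit 2)) (.slot (nat_lit 7)) (.slot (nat_lit 5))) (.node (.col (nat_lit 2)) (.slot (nat_lit 7)) (.slot (nat_lit 5)))) (.col (nat_lit 0)) (.slot (nat_lit 4))) (.col (nat_lit 0)) (.slot (nat_lit 8))) (.col (nat_lit 2)) (.col (nat_lit 0)) (.node (.slot (nat_lit 0)) (.slot (nat_lit 1)) (.slot (nat_lit 1)))
def w13510 : Root := .mk (.node (.node (.node (.node (.col (nat_lit 3)) (.slot (nat_lit 0)) (.slot (nat_lit 0))) (.node (.col (nat_lit 2)) (.slot (nat_lit 3)) (.slot (nat_lit 1))) (.node (.col (nat_lit 3)) (.slot (nat_lit 7)) (.slot (nat_lit 5)))) (.col (nat_lit 0)) (.slot (nat_lit 3))) (.col (nat_lit 0)) (.slot (nat_lit 3))) (.col (nat_lit 2)) (.col (nat_lit 0)) (.node (.node (.col (nat_lit 2)) (.slot (nat_lit 1)) (.slot (nat_lit 1))) (.slot (nat_lit 2)) (.slot (nat_lit 1)))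
def w13511 : Root := .mk (.node (.node (.node (.node (.col (nat_lit 3)) (.slot (nat_lit 7)) (.slot (nat_lit 5))) (.node (.col (nat_lit 2)) (.slot (nat_lit 3)) (.slot (nat_lit 1))) (.node (.slot (nat_lit 0)) (.slot (nat_lit 0)) (.slot (nat_lit 0)))) (.col (nat_lit 0)) (.slot (nat_lit 3))) (.col (nat_lit 0)) (.slot (nat_lit 3))) (.col (nat_lit 2)) (.col (nat_lit 0)) (.node (.node (.col (nat_lit 2)) (.slot (nat_lit 1)) (.slot (nat_lit 1))) (.slot (nat_lit 2)) (.slot (nat_lit 1)))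
def w13512 : Root := .mk (.node (.node (.node (.node (.col (nat_lit 3)) (.node (.col (nat_lit 0)) (.slot (nat_lit 8)) (.slot (nat_lit 8))) (.slot (nat_lit 8))) (.node (.col (nat_lit 2)) (.slot (nat_lit 7)) (.slot (nat_lit 5))) (.slot (nat_lit 8))) (.col (nat_lit 0)) (.slot (nat_lit 8))) (.col (nat_lit 0)) (.slot (nat_lit 13))) (.col (nat_lit 2)) (.col (nat_lit 0)) (.slot (nat_lit 0))
def w13513 : Root := .mk (.node (.node (.node (.node (.col (nat_lit 3)) (.node (.col (nat_lit 3)) (.slot (nat_lit 0)) (.slot (nat_lit 0))) (.slot (nat_lit 6))) (.node (.col (nat_lit 2)) (.slot (nat_lit 0)) (.slot (nat_lit 0))) (.slot (nat_lit 2))) (.col (nat_lit 0)) (.slot (nat_lit 6))) (.col (nat_lit 0)) (.slot (nat_lit 3))) (.col (nat_lit 2)) (.col (nat_lit 0)) (.node (.node (.col (nat_lit 2)) (.slot (nat_lit 1)) (.slot (nat_lit 1))) (.slot (nat_lit 2)) (.slot (nat_lit 1)))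
def w13515 : Root := .mk (.node (.node (.node (.node (.col (nat_lit 3)) (.slot (nat_lit 3)) (.slot (nat_lit 1))) (.node (.col (nat_lit 2)) (.slot (nat_lit 0)) (.slot (nat_lit 0))) (.slot (nat_lit 8))) (.col (nat_lit 0)) (.slot (nat_lit 3))) (.col (nat_lit 0)) (.slot (nat_lit 3))) (.col (nat_lit 2)) (.col (nat_lit 0)) (.node (.node (.col (nat_lit 2)) (.slot (nat_lit 1)) (.slot (nat_lit 1))) (.slot (nat_lit 2)) (.slot (nat_lit 1)))
def l3083 : Root := .mk (.node (.node (.node (.node (.col (nat_lit 3)) (.slot (nat_lit 9)) (.slot (nat_lit 9))) (.node (.col (nat_lit 2)) (.slot (nat_lit 9)) (.slot (nat_lit 9))) (.slot (nat_lit 8))) (.col (nat_lit 0)) (.slot (nat_lit 8))) (.col (nat_lit 0)) (.slot (nat_lit 13))) (.col (nat_lit 2)) (.col (nat_lit 0)) (.node (.node (.col (nat_lit 2)) (.slot (nat_lit 8)) (.slot (nat_lit 8))) (.slot (nat_lit 8)) (.slot (nat_lit 8)))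
def w13516 : Root := .mk (.node (.node (.node (.node (.col (nat_lit 3)) (.slot (nat_lit 9)) (.slot (nat_lit 9))) (.node (.col (nat_lit 2)) (.slot (nat_lit 9)) (.slot (nat_lit 9))) (.slot (nat_lit 8))) (.col (nat_lit 0)) (.slot (nat_lit 8))) (.col (nat_lit 0)) (.slot (nat_lit 13))) (.col (nat_lit 2)) (.col (nat_lit 0)) (.slot (nat_lit 10))
def w13517 : Root := .mk (.node (.node (.node (.node (.col (nat_lit 3)) (.node (.col (nat_lit 0)) (.slot (nat_lit 8)) (.slot (nat_lit 8))) (.slot (nat_lit 8))) (.node (.col (nat_lit 2)) (.slot (nat_lit 7)) (.slot (nat_lit 5))) (.slot (nat_lit 8))) (.col (nat_lit 0)) (.slot (nat_lit 8))) (.col (nat_lit 0)) (.slot (nat_lit 13))) (.col (nat_lit 4)) (.col (nat_lit 0)) (.slot (nat_lit 0))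
def w13518 : Root := .mk (.col (nat_lit 3)) (.node (.node (.node (.col (nat_lit 0)) (.node (.col (nat_lit 4)) (.col (nat_lit 0)) (.slot (nat_lit 3))) (.slot (nat_lit 1))) (.col (nat_lit 0)) (.slot (nat_lit 3))) (.node (.col (nat_lit 2)) (.slot (nat_lit 1)) (.slot (nat_lit 1))) (.slot (nat_lit 2))) (.node (.col (nat_lit 0)) (.slot (nat_lit 0)) (.slot (nat_lit 0))) (.col (nat_lit 0))
def w13519 : Root := .mk (.col (nat_lit 3)) (.node (.node (.node (.col (nat_lit 0)) (.node (.col (nat_lit 4)) (.col (nat_lit 0)) (.slot (nat_lit 3))) (.slot (nat_lit 1))) (.col (nat_lit 0)) (.slot (nat_lit 3))) (.node (.col (nat_lit 2)) (.slot (nat_lit 1)) (.slot (nat_lit 1))) (.slot (nat_lit 2))) (.node (.col (nat_lit 0)) (.slot (nat_lit 1)) (.slot (nat_lit 0))) (.node (.col (nat_lit 2)) (.slot (nat_lit 1)) (.slot (nat_lit 1)))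
def w13520 : Root := .mk (.col (nat_lit 3)) (.node (.node (.node (.col (nat_lit 0)) (.node (.col (nat_lit 4)) (.col (nat_lit 0)) (.slot (nat_lit 3))) (.slot (nat_lit 1))) (.col (nat_lit 0)) (.slot (nat_lit 3))) (.node (.col (nat_lit 2)) (.slot (nat_lit 0)) (.slot (nat_lit 0))) (.slot (nat_lit 3))) (.node (.col (nat_lit 0)) (.slot (nat_lit 7)) (.slot (nat_lit 5))) (.node (.col (nat_lit 3)) (.slot (nat_lit 3)) (.slot (nat_lit 1)))
def w13521 : Root := .mk (.col (nat_lit 3)) (.node (.node (.node (.col (nat_lit 0)) (.node (.col (nat_lit 4)) (.col (nat_lit 0)) (.slot (nat_lit 3))) (.slot (nat_lit 1))) (.col (nat_lit 0)) (.slot (nat_lit 3))) (.node (.col (nat_lit 2)) (.slot (nat_lit 1)) (.slot (nat_lit 1))) (.slot (nat_lit 3))) (.node (.col (nat_lit 0)) (.slot (nat_lit 3)) (.slot (nat_lit 1))) (.node (.slot (nat_lit 0)) (.slot (nat_lit 0)) (.slot (nat_lit 0)))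
def w13522 : Root := .mk (.node (.col (nat_lit 3)) (.node (.col (nat_lit 0)) (.slot (nat_lit 8)) (.slot (nat_lit 8))) (.slot (nat_lit 3))) (.node (.node (.col (nat_lit 0)) (.slot (nat_lit 0)) (.slot (nat_lit 0))) (.col (nat_lit 0)) (.slot (nat_lit 3))) (.node (.col (nat_lit 2)) (.slot (nat_lit 3)) (.slot (nat_lit 1))) (.col (nat_lit 2))
def w13523 : Root := .mk (.node (.col (nat_lit 3)) (.node (.col (nat_lit 0)) (.slot (nat_lit 1)) (.slot (nat_lit 1))) (.slot (nat_lit 2))) (.node (.node (.col (nat_lit 0)) (.slot (nat_lit 0)) (.slot (nat_lit 0))) (.col (nat_lit 0)) (.slot (nat_lit 2))) (.node (.col (nat_lit 2)) (.slot (nat_lit 0)) (.slot (nat_lit 0))) (.node (.col (nat_lit 0)) (.slot (nat_lit 1)) (.slot (nat_lit 1)))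
def w13524 : Root := .mk (.node (.node (.node (.node (.col (nat_lit 3)) (.node (.col (nat_lit 0)) (.slot (nat_lit 5)) (.slot (nat_lit 1))) (.slot (nat_lit 2))) (.node (.col (nat_lit 2)) (.slot (nat_lit 1)) (.slot (nat_lit 1))) (.node (.col (nat_lit 1)) (.slot (nat_lit 1)) (.slot (nat_lit 1)))) (.col (nat_lit 0)) (.slot (nat_lit 3))) (.col (nat_lit 0)) (.slot (nat_lit 1))) (.col (nat_lit 4)) (.col (nat_lit 0)) (.slot (nat_lit 3))
def w13525 : Root := .mk (.node (.node (.node (.node (.col (nat_lit 3)) (.node (.col (nat_lit 0)) (.slot (nat_lit 0)) (.slot (nat_lit 0))) (.slot (nat_lit 3))) (.node (.col (nat_lit 2)) (.slot (nat_lit 7)) (.slot (nat_lit 5))) (.node (.col (nat_lit 4)) (.slot (nat_lit 3)) (.slot (nat_lit 1)))) (.col (nat_lit 0)) (.slot (nat_lit 3))) (.col (nat_lit 0)) (.slot (nat_lit 1))) (.col (nat_lit 4)) (.col (nat_lit 0)) (.slot (nat_lit 3))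
def w13526 : Root := .mk (.node (.node (.node (.node (.col (nat_lit 3)) (.node (.col (nat_lit 0)) (.slot (nat_lit 1)) (.slot (nat_lit 1))) (.slot (nat_lit 3))) (.node (.col (nat_lit 2)) (.slot (nat_lit 3)) (.slot (nat_lit 1))) (.node (.slot (nat_lit 0)) (.slot (nat_lit 0)) (.slot (nat_lit 0)))) (.col (nat_lit 0)) (.slot (nat_lit 3))) (.col (nat_lit 0)) (.slot (nat_lit 1))) (.col (nat_lit 4)) (.col (nat_lit 0)) (.slot (nat_lit 3))
def w13527 : Root := .mk (.node (.col (nat_lit 3)) (.node (.node (.node (.col (nat_lit 0)) (.node (.col (nat_lit 4)) (.col (nat_lit 0)) (.slot (nat_lit 3))) (.slot (nat_lit 1))) (.col (nat_lit 0)) (.slot (nat_lit 3))) (.node (.col (nat_lit 2)) (.slot (nat_lit 2)) (.slot (nat_lit 1))) (.slot (nat_lit 3))) (.slot (nat_lit 3))) (.col (nat_lit 0)) (.col (nat_lit 3)) (.slot (nat_lit 8))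
def w13528 : Root := .mk (.node (.node (.node (.node (.col (nat_lit 3)) (.node (.col (nat_lit 0)) (.slot (nat_lit 0)) (.slot (nat_lit 0))) (.slot (nat_lit 3))) (.node (.col (nat_lit 2)) (.slot (nat_lit 3)) (.slot (nat_lit 1))) (.slot (nat_lit 8))) (.col (nat_lit 0)) (.slot (nat_lit 3))) (.col (nat_lit 0)) (.slot (nat_lit 1))) (.col (nat_lit 4)) (.col (nat_lit 0)) (.slot (nat_lit 3))
def w13529 : Root := .mk (.node (.node (.col (nat_lit 3)) (.node (.col (nat_lit 0)) (.slot (nat_lit 1)) (.slot (nat_lit 1))) (.slot (nat_lit 2))) (.node (.col (nat_lit 2)) (.slot (nat_lit 0)) (.slot (nat_lit 0))) (.slot (nat_lit 1))) (.node (.col (nat_lit 0)) (.node (.col (nat_lit 4)) (.col (nat_lit 0)) (.slot (nat_lit 8))) (.slot (nat_lit 3))) (.col (nat_lit 0)) (.col (nat_lit 1))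
def w13530 : Root := .mk (.node (.node (.col (nat_lit 3)) (.node (.col (nat_lit 0)) (.slot (nat_lit 1)) (.slot (nat_lit 1))) (.slot (nat_lit 2))) (.node (.col (nat_lit 2)) (.slot (nat_lit 1)) (.slot (nat_lit 1))) (.slot (nat_lit 2))) (.node (.col (nat_lit 0)) (.slot (nat_lit 0)) (.slot (nat_lit 0))) (.col (nat_lit 0)) (.col (nat_lit 3))
def w13531 : Root := .mk (.node (.node (.col (nat_lit 3)) (.node (.col (nat_lit 0)) (.slot (nat_lit 1)) (.slot (nat_lit 1))) (.slot (nat_lit 2))) (.node (.col (nat_lit 2)) (.slot (nat_lit 1)) (.slot (nat_lit 1))) (.slot (nat_lit 2))) (.node (.col (nat_lit 0)) (.slot (nat_lit 0)) (.slot (nat_lit 0))) (.col (nat_lit 0)) (.col (nat_lit 4))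
def w13532 : Root := .mk (.node (.node (.col (nat_lit 3)) (.node (.col (nat_lit 0)) (.slot (nat_lit 1)) (.slot (nat_lit 1))) (.slot (nat_lit 2))) (.node (.col (nat_lit 2)) (.slot (nat_lit 1)) (.slot (nat_lit 1))) (.slot (nat_lit 2))) (.node .junk (.col (nat_lit 1)) (.col (nat_lit 2))) (.col (nat_lit 0)) (.node (.col (nat_lit 0)) (.slot (nat_lit 0)) (.slot (nat_lit 0)))
def w13533 : Root := .mk (.node (.node (.node (.col (nat_lit 3)) (.node (.col (nat_lit 0)) (.slot (nat_lit 1)) (.slot (nat_lit 1))) (.slot (nat_lit 2))) (.node (.col (nat_lit 2)) (.slot (nat_lit 0)) (.slot (nat_lit 0))) (.slot (nat_lit 3))) (.col (nat_lit 0)) (.node (.col (nat_lit 0)) (.slot (nat_lit 0)) (.slot (nat_lit 0)))) (.col (nat_lit 0)) (.col (nat_lit 1)) (.col (nat_lit 3))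
def w13534 : Root := .mk (.node (.node (.node (.col (nat_lit 3)) (.node (.col (nat_lit 0)) (.slot (nat_lit 1)) (.slot (nat_lit 1))) (.slot (nat_lit 2))) (.node (.col (nat_lit 2)) (.slot (nat_lit 0)) (.slot (nat_lit 0))) (.slot (nat_lit 3))) (.col (nat_lit 0)) (.node (.col (nat_lit 0)) (.slot (nat_lit 0)) (.slot (nat_lit 0)))) (.col (nat_lit 0)) (.col (nat_lit 1)) (.col (nat_lit 4))
def w13535 : Root := .mk (.node (.node (.node (.col (nat_lit 3)) (.node (.col (nat_lit 0)) (.slot (nat_lit 1)) (.slot (nat_lit 1))) (.slot (nat_lit 2))) (.node (.col (nat_lit 2)) (.slot (nat_lit 3)) (.slot (nat_lit 3))) (.slot (nat_lit 4))) (.col (nat_lit 0)) (.node (.col (nat_lit 0)) (.slot (nat_lit 0)) (.slot (nat_lit 0)))) (.col (nat_lit 0)) (.col (nat_lit 1)) (.node (.col (nat_lit 0)) (.slot (nat_lit 0)) (.slot (nat_lit 0)))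
def w13536 : Root := .mk (.node (.node (.col (nat_lit 1)) (.node (.col (nat_lit 2)) (.slot (nat_lit 3)) (.slot (nat_lit 3))) (.slot (nat_lit 2))) (.col (nat_lit 0)) (.node (.col (nat_lit 0)) (.slot (nat_lit 0)) (.slot (nat_lit 0)))) (.col (nat_lit 0)) (.col (nat_lit 1)) (.node (.col (nat_lit 1)) (.slot (nat_lit 1)) (.slot (nat_lit 1)))
def w13537 : Root := .mk (.node (.node (.node (.col (nat_lit 3)) (.node (.col (nat_lit 0)) (.slot (nat_lit 1)) (.slot (nat_lit 1))) (.slot (nat_lit 2))) (.node (.col (nat_lit 2)) (.slot (nat_lit 3)) (.slot (nat_lit 3))) (.slot (nat_lit 2))) (.col (nat_lit 0)) (.node (.col (nat_lit 0)) (.slot (nat_lit 0)) (.slot (nat_lit 0)))) (.col (nat_lit 0)) (.col (nat_lit 1)) (.node (.col (nat_lit 1)) (.slot (nat_lit 1)) (.slot (nat_lit 1)))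
def w13538 : Root := .mk (.node (.node (.node (.col (nat_lit 3)) (.node (.col (nat_lit 0)) (.slot (nat_lit 1)) (.slot (nat_lit 1))) (.slot (nat_lit 2))) (.node (.col (nat_lit 2)) (.slot (nat_lit 3)) (.slot (nat_lit 3))) (.slot (nat_lit 2))) (.col (nat_lit 0)) (.node (.col (nat_lit 0)) (.slot (nat_lit 0)) (.slot (nat_lit 0)))) (.col (nat_lit 0)) (.col (nat_lit 1)) (.node (.slot (nat_lit 0)) (.slot (nat_lit 0)) (.slot (nat_lit 0)))
def w13539 : Root := .mk (.node (.col (nat_lit 0)) (.node (.col (nat_lit 2)) (.slot (nat_lit 1)) (.slot (nat_lit 1))) (.slot (nat_lit 2))) (.node (.col (nat_lit 0)) (.col (nat_lit 1)) (.slot (nat_lit 3))) (.col (nat_lit 0)) (.node (.col (nat_lit 0)) (.slot (nat_lit 3)) (.slot (nat_lit 1)))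
def w13540 : Root := .mk (.node (.node (.col (nat_lit 3)) (.node (.col (nat_lit 0)) (.slot (nat_lit 1)) (.slot (nat_lit 1))) (.slot (nat_lit 2))) (.col (nat_lit 4)) (.slot (nat_lit 3))) (.node (.col (nat_lit 0)) (.col (nat_lit 1)) (.slot (nat_lit 0))) (.col (nat_lit 0)) (.node (.col (nat_lit 0)) (.slot (nat_lit 3)) (.slot (nat_lit 1)))
def w13541 : Root := .mk (.node (.col (nat_lit 3)) (.slot (nat_lit 0)) (.slot (nat_lit 1))) (.node (.node (.col (nat_lit 0)) (.col (nat_lit 1)) (.slot (nat_lit 5))) (.col (nat_lit 0)) (.node (.col (nat_lit 0)) (.slot (nat_lit 0)) (.slot (nat_lit 0)))) (.node (.col (nat_lit 2)) (.slot (nat_lit 1)) (.slot (nat_lit 1))) (.col (nat_lit 1))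
def w13542 : Root := .mk (.node (.col (nat_lit 3)) (.node (.col (nat_lit 0)) (.slot (nat_lit 1)) (.slot (nat_lit 1))) (.slot (nat_lit 2))) (.node (.node (.col (nat_lit 0)) (.col (nat_lit 1)) (.slot (nat_lit 1))) (.col (nat_lit 0)) (.node (.col (nat_lit 0)) (.slot (nat_lit 0)) (.slot (nat_lit 0)))) (.node (.col (nat_lit 2)) (.slot (nat_lit 0)) (.slot (nat_lit 0))) (.col (nat_lit 2))
def w13543 : Root := .mk (.node (.col (nat_lit 3)) (.node (.col (nat_lit 0)) (.slot (nat_lit 1)) (.slot (nat_lit 1))) (.slot (nat_lit 2))) (.node (.slot (nat_lit 0)) (.col (nat_lit 0)) (.node (.col (nat_lit 0)) (.slot (nat_lit 0)) (.slot (nat_lit 0)))) (.node (.col (nat_lit 2)) (.slot (nat_lit 1)) (.slot (nat_lit 1))) (.col (nat_lit 3))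
def w13544 : Root := .mk (.node (.col (nat_lit 3)) (.node (.col (nat_lit 0)) (.slot (nat_lit 1)) (.slot (nat_lit 1))) (.slot (nat_lit 2))) (.node (.slot (nat_lit 0)) (.col (nat_lit 0)) (.node (.col (nat_lit 0)) (.slot (nat_lit 0)) (.slot (nat_lit 0)))) (.node (.col (nat_lit 2)) (.slot (nat_lit 1)) (.slot (nat_lit 1))) (.col (nat_lit 4))
def w13545 : Root := .mk (.col (nat_lit 1)) (.node (.node (.col (nat_lit 0)) (.col (nat_lit 1)) (.slot (nat_lit 1))) (.col (nat_lit 0)) (.node (.col (nat_lit 0)) (.slot (nat_lit 0)) (.slot (nat_lit 0)))) (.node (.col (nat_lit 2)) (.slot (nat_lit 0)) (.slot (nat_lit 0))) (.node (.col (nat_lit 0)) (.slot (nat_lit 2)) (.slot (nat_lit 2)))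
def w13546 : Root := .mk (.node (.node (.col (nat_lit 3)) (.node (.col (nat_lit 0)) (.slot (nat_lit 1)) (.slot (nat_lit 1))) (.slot (nat_lit 2))) (.node (.col (nat_lit 2)) (.slot (nat_lit 0)) (.slot (nat_lit 0))) (.node (.col (nat_lit 0)) (.slot (nat_lit 2)) (.slot (nat_lit 2)))) (.node (.col (nat_lit 0)) (.col (nat_lit 1)) (.slot (nat_lit 1))) (.col (nat_lit 0)) (.node (.col (nat_lit 0)) (.slot (nat_lit 0)) (.slot (nat_lit 0)))
def w13547 : Root := .mk (.node (.node (.col (nat_lit 3)) (.node (.col (nat_lit 0)) (.slot (nat_lit 1)) (.slot (nat_lit 1))) (.slot (nat_lit 2))) (.node (.col (nat_lit 2)) (.slot (nat_lit 1)) (.slot (nat_lit 1))) (.node (.col (nat_lit 1)) (.slot (nat_lit 0)) (.slot (nat_lit 0)))) (.node (.col (nat_lit 0)) (.col (nat_lit 1)) (.slot (nat_lit 5))) (.col (nat_lit 0)) (.node (.col (nat_lit 0)) (.slot (nat_lit 0)) (.slot (nat_lit 0)))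
def w13548 : Root := .mk (.node (.node (.col (nat_lit 3)) (.node (.col (nat_lit 0)) (.slot (nat_lit 1)) (.slot (nat_lit 1))) (.slot (nat_lit 2))) (.node (.col (nat_lit 2)) (.slot (nat_lit 1)) (.slot (nat_lit 0))) (.node (.col (nat_lit 4)) (.slot (nat_lit 1)) (.slot (nat_lit 1)))) (.node (.col (nat_lit 0)) (.col (nat_lit 1)) (.slot (nat_lit 5))) (.col (nat_lit 0)) (.node (.col (nat_lit 0)) (.slot (nat_lit 0)) (.slot (nat_lit 0)))
def w13549 : Root := .mk (.node (.node (.col (nat_lit 3)) (.node (.col (nat_lit 0)) (.slot (nat_lit 1)) (.slot (nat_lit 1))) (.slot (nat_lit 2))) (.node (.col (nat_lit 2)) (.slot (nat_lit 1)) (.slot (nat_lit 0))) (.node (.slot (nat_lit 0)) (.slot (nat_lit 1)) (.slot (nat_lit 1)))) (.node (.col (nat_lit 0)) (.col (nat_lit 1)) (.slot (nat_lit 3))) (.col (nat_lit 0)) (.node (.col (nat_lit 0)) (.slot (nat_lit 0)) (.slot (nat_lit 0)))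
def w13550 : Root := .mk (.node (.node (.node (.col (nat_lit 3)) (.node (.col (nat_lit 0)) (.slot (nat_lit 1)) (.slot (nat_lit 1))) (.slot (nat_lit 2))) (.node (.col (nat_lit 2)) (.slot (nat_lit 1)) (.slot (nat_lit 1))) (.slot (nat_lit 2))) (.node (.col (nat_lit 0)) (.col (nat_lit 1)) (.slot (nat_lit 3))) (.col (nat_lit 0))) (.col (nat_lit 0)) (.col (nat_lit 2)) (.slot (nat_lit 0))
def w13551 : Root := .mk (.node (.node (.node (.col (nat_lit 3)) (.node (.col (nat_lit 0)) (.slot (nat_lit 1)) (.slot (nat_lit 1))) (.slot (nat_lit 2))) (.node (.col (nat_lit 2)) (.slot (nat_lit 1)) (.slot (nat_lit 0))) (.slot (nat_lit 2))) (.node (.col (nat_lit 0)) (.col (nat_lit 1)) (.slot (nat_lit 3))) (.col (nat_lit 0))) (.col (nat_lit 0)) (.col (nat_lit 3)) (.slot (nat_lit 0))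
def w13552 : Root := .mk (.node (.node (.node (.col (nat_lit 3)) (.node (.col (nat_lit 0)) (.slot (nat_lit 1)) (.slot (nat_lit 1))) (.slot (nat_lit 2))) (.node (.col (nat_lit 2)) (.slot (nat_lit 1)) (.slot (nat_lit 0))) (.slot (nat_lit 2))) (.node (.col (nat_lit 0)) (.col (nat_lit 1)) (.slot (nat_lit 0))) (.col (nat_lit 0))) (.col (nat_lit 0)) (.col (nat_lit 4)) (.slot (nat_lit 3))
def w13553 : Root := .mk (.col (nat_lit 3)) (.node (.node (.node (.col (nat_lit 0)) (.col (nat_lit 1)) (.slot (nat_lit 3))) (.col (nat_lit 0)) (.node (.col (nat_lit 0)) (.slot (nat_lit 3)) (.slot (nat_lit 1)))) (.node (.col (nat_lit 2)) (.slot (nat_lit 0)) (.slot (nat_lit 0))) (.slot (nat_lit 2))) (.col (nat_lit 1)) (.slot (nat_lit 2))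
def w13554 : Root := .mk (.col (nat_lit 3)) (.node (.node (.node (.col (nat_lit 0)) (.col (nat_lit 1)) (.slot (nat_lit 0))) (.col (nat_lit 0)) (.node (.col (nat_lit 0)) (.slot (nat_lit 0)) (.slot (nat_lit 0)))) (.node (.col (nat_lit 2)) (.slot (nat_lit 1)) (.slot (nat_lit 0))) (.col (nat_lit 3))) (.col (nat_lit 4)) (.node (.col (nat_lit 1)) (.slot (nat_lit 1)) (.slot (nat_lit 1)))
def w13555 : Root := .mk (.col (nat_lit 3)) (.node (.node (.slot (nat_lit 0)) (.col (nat_lit 0)) (.slot (nat_lit 0))) (.node (.col (nat_lit 2)) (.slot (nat_lit 1)) (.slot (nat_lit 0))) (.node (.col (nat_lit 3)) (.slot (nat_lit 1)) (.slot (nat_lit 1)))) (.col (nat_lit 4)) (.node (.col (nat_lit 1)) (.slot (nat_lit 1)) (.slot (nat_lit 1)))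
def w13556 : Root := .mk (.col (nat_lit 3)) (.node (.node (.slot (nat_lit 0)) (.col (nat_lit 0)) (.slot (nat_lit 0))) (.node (.col (nat_lit 2)) (.col (nat_lit 0)) (.slot (nat_lit 0))) (.slot (nat_lit 1))) (.col (nat_lit 4)) (.node (.col (nat_lit 1)) (.slot (nat_lit 2)) (.slot (nat_lit 2)))
def l3084 : Root := .mk (.col (nat_lit 3)) (.node (.node (.node (.col (nat_lit 0)) (.col (nat_lit 1)) (.slot (nat_lit 3))) (.col (nat_lit 0)) (.node (.col (nat_lit 0)) (.slot (nat_lit 0)) (.slot (nat_lit 0)))) (.node (.col (nat_lit 2)) (.slot (nat_lit 3)) (.slot (nat_lit 3))) (.slot (nat_lit 5))) (.col (nat_lit 4)) (.node (.col (nat_lit 1)) (.slot (nat_lit 7)) (.slot (nat_lit 5)))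
def w13557 : Root := .mk (.col (nat_lit 3)) (.node (.node (.node (.col (nat_lit 0)) (.col (nat_lit 1)) (.slot (nat_lit 3))) (.col (nat_lit 0)) (.node (.col (nat_lit 0)) (.slot (nat_lit 0)) (.slot (nat_lit 0)))) (.node (.col (nat_lit 2)) (.slot (nat_lit 3)) (.slot (nat_lit 3))) (.slot (nat_lit 5))) (.col (nat_lit 4)) (.slot (nat_lit 8))
def w13558 : Root := .mk (.col (nat_lit 3)) (.node (.node (.node (.col (nat_lit 0)) (.col (nat_lit 1)) (.slot (nat_lit 5))) (.col (nat_lit 0)) (.node (.col (nat_lit 0)) (.slot (nat_lit 3)) (.slot (nat_lit 1)))) (.node (.col (nat_lit 2)) (.slot (nat_lit 0)) (.slot (nat_lit 0))) (.slot (nat_lit 3))) (.node (.col (nat_lit 0)) (.slot (nat_lit 3)) (.slot (nat_lit 1))) (.col (nat_lit 0))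
def w13559 : Root := .mk (.col (nat_lit 3)) (.node (.node (.node (.col (nat_lit 0)) (.col (nat_lit 1)) (.slot (nat_lit 3))) (.col (nat_lit 0)) (.node (.col (nat_lit 0)) (.slot (nat_lit 0)) (.slot (nat_lit 0)))) (.node (.col (nat_lit 2)) (.slot (nat_lit 3)) (.slot (nat_lit 3))) (.slot (nat_lit 5))) (.node (.col (nat_lit 0)) (.slot (nat_lit 0)) (.slot (nat_lit 0))) (.node (.col (nat_lit 1)) (.slot (nat_lit 7)) (.slot (nat_lit 5)))
def w13560 : Root := .mk (.node (.col (nat_lit 3)) (.node (.col (nat_lit 0)) (.slot (nat_lit 0)) (.slot (nat_lit 0))) (.node (.col (nat_lit 2)) (.slot (nat_lit 0)) (.slot (nat_lit 0)))) (.node (.slot (nat_lit 0)) (.col (nat_lit 0)) (.node (.col (nat_lit 0)) (.slot (nat_lit 0)) (.slot (nat_lit 0)))) (.col (nat_lit 4)) (.col (nat_lit 1))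
def w13561 : Root := .mk (.col (nat_lit 3)) (.node (.node (.node (.col (nat_lit 0)) (.col (nat_lit 1)) (.slot (nat_lit 5))) (.col (nat_lit 0)) (.node (.col (nat_lit 0)) (.slot (nat_lit 0)) (.slot (nat_lit 0)))) (.node (.col (nat_lit 2)) (.slot (nat_lit 1)) (.slot (nat_lit 1))) (.col (nat_lit 1))) (.slot (nat_lit 0)) (.col (nat_lit 1))
def w13562 : Root := .mk (.node (.node (.col (nat_lit 3)) (.node (.col (nat_lit 0)) (.slot (nat_lit 1)) (.slot (nat_lit 1))) (.node (.col (nat_lit 2)) (.slot (nat_lit 1)) (.slot (nat_lit 0)))) (.node (.col (nat_lit 2)) (.slot (nat_lit 1)) (.slot (nat_lit 1))) (.col (nat_lit 1))) (.col (nat_lit 4)) (.col (nat_lit 0)) (.node (.col (nat_lit 0)) (.slot (nat_lit 0)) (.slot (nat_lit 0)))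
def w13563 : Root := .mk (.col (nat_lit 4)) (.node (.node (.col (nat_lit 0)) (.col (nat_lit 1)) (.slot (nat_lit 0))) (.col (nat_lit 0)) (.node (.col (nat_lit 0)) (.slot (nat_lit 0)) (.slot (nat_lit 0)))) (.node (.col (nat_lit 2)) (.col (nat_lit 1)) (.slot (nat_lit 1))) (.col (nat_lit 1))
def w13564 : Root := .mk (.node (.node (.col (nat_lit 3)) (.node (.col (nat_lit 0)) (.slot (nat_lit 1)) (.slot (nat_lit 1))) (.node (.col (nat_lit 2)) (.slot (nat_lit 1)) (.slot (nat_lit 0)))) (.node (.node (.col (nat_lit 0)) (.col (nat_lit 1)) (.slot (nat_lit 0))) (.col (nat_lit 0)) (.node (.col (nat_lit 0)) (.slot (nat_lit 0)) (.slot (nat_lit 0)))) (.col (nat_lit 1))) (.col (nat_lit 2)) (.col (nat_lit 1)) (.slot (nat_lit 1))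
def w13565 : Root := .mk (.col (nat_lit 4)) (.node (.node (.col (nat_lit 0)) (.col (nat_lit 1)) (.slot (nat_lit 0))) (.col (nat_lit 0)) (.node (.col (nat_lit 0)) (.slot (nat_lit 0)) (.slot (nat_lit 0)))) (.node (.col (nat_lit 2)) (.col (nat_lit 4)) (.slot (nat_lit 1))) (.col (nat_lit 1))
def w13566 : Root := .mk (.node (.node (.col (nat_lit 3)) (.node (.col (nat_lit 0)) (.slot (nat_lit 1)) (.slot (nat_lit 1))) (.node (.col (nat_lit 2)) (.slot (nat_lit 1)) (.slot (nat_lit 0)))) (.node (.node (.col (nat_lit 0)) (.col (nat_lit 1)) (.slot (nat_lit 0))) (.col (nat_lit 0)) (.node (.col (nat_lit 0)) (.slot (nat_lit 0)) (.slot (nat_lit 0)))) (.col (nat_lit 1))) (.col (nat_lit 2)) (.col (nat_lit 4)) (.slot (nat_lit 1))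
def w13567 : Root := .mk (.col (nat_lit 4)) (.node (.slot (nat_lit 0)) (.col (nat_lit 0)) (.node (.col (nat_lit 0)) (.slot (nat_lit 0)) (.slot (nat_lit 0)))) (.node (.col (nat_lit 2)) (.node (.col (nat_lit 0)) (.slot (nat_lit 0)) (.slot (nat_lit 0))) (.slot (nat_lit 1))) (.col (nat_lit 1))
def w13568 : Root := .mk (.node (.col (nat_lit 3)) (.node (.col (nat_lit 0)) (.slot (nat_lit 1)) (.slot (nat_lit 1))) (.node (.col (nat_lit 2)) (.slot (nat_lit 1)) (.slot (nat_lit 0)))) (.node (.slot (nat_lit 0)) (.col (nat_lit 0)) (.node (.col (nat_lit 0)) (.slot (nat_lit 0)) (.slot (nat_lit 0)))) (.node (.col (nat_lit 2)) (.node (.col (nat_lit 0)) (.slot (nat_lit 0)) (.slot (nat_lit 0))) (.slot (nat_lit 1))) (.col (nat_lit 1))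
def w13569 : Root := .mk (.col (nat_lit 4)) (.node (.slot (nat_lit 0)) (.col (nat_lit 0)) (.node (.col (nat_lit 0)) (.slot (nat_lit 0)) (.slot (nat_lit 0)))) (.node (.col (nat_lit 2)) (.node (.col (nat_lit 2)) (.slot (nat_lit 0)) (.slot (nat_lit 0))) (.slot (nat_lit 1))) (.col (nat_lit 1))
def w13570 : Root := .mk (.node (.col (nat_lit 3)) (.node (.col (nat_lit 0)) (.slot (nat_lit 1)) (.slot (nat_lit 1))) (.node (.col (nat_lit 2)) (.slot (nat_lit 1)) (.slot (nat_lit 0)))) (.node (.slot (nat_lit 0)) (.col (nat_lit 0)) (.node (.col (nat_lit 0)) (.slot (nat_lit 0)) (.slot (nat_lit 0)))) (.node (.col (nat_lit 2)) (.node (.col (nat_lit 2)) (.slot (nat_lit 0)) (.slot (nat_lit 0))) (.slot (nat_lit 1))) (.col (nat_lit 1))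
def w13571 : Root := .mk (.node (.col (nat_lit 3)) (.node (.col (nat_lit 0)) (.slot (nat_lit 1)) (.slot (nat_lit 1))) (.node (.col (nat_lit 2)) (.slot (nat_lit 1)) (.slot (nat_lit 0)))) (.node (.slot (nat_lit 0)) (.col (nat_lit 0)) (.slot (nat_lit 0))) (.node (.col (nat_lit 2)) (.node (.col (nat_lit 3)) (.slot (nat_lit 1)) (.slot (nat_lit 1))) (.slot (nat_lit 2))) (.col (nat_lit 1))
def w13572 : Root := .mk (.node (.col (nat_lit 3)) (.node (.node (.slot (nat_lit 0)) (.col (nat_lit 0)) (.node (.col (nat_lit 0)) (.slot (nat_lit 0)) (.slot (nat_lit 0)))) (.node (.col (nat_lit 2)) (.slot (nat_lit 1)) (.slot (nat_lit 1))) (.col (nat_lit 1))) (.node (.col (nat_lit 2)) (.slot (nat_lit 1)) (.slot (nat_lit 1)))) (.col (nat_lit 0)) (.col (nat_lit 3)) (.slot (nat_lit 1))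
def w13573 : Root := .mk (.node (.col (nat_lit 3)) (.node (.node (.slot (nat_lit 0)) (.col (nat_lit 0)) (.node (.col (nat_lit 0)) (.slot (nat_lit 0)) (.slot (nat_lit 0)))) (.node (.col (nat_lit 2)) (.slot (nat_lit 1)) (.slot (nat_lit 1))) (.col (nat_lit 1))) (.node (.col (nat_lit 0)) (.slot (nat_lit 1)) (.slot (nat_lit 1)))) (.col (nat_lit 2)) (.col (nat_lit 3)) (.slot (nat_lit 1))
def w13574 : Root := .mk (.col (nat_lit 3)) (.node (.node (.slot (nat_lit 0)) (.col (nat_lit 0)) (.node (.col (nat_lit 0)) (.slot (nat_lit 0)) (.slot (nat_lit 0)))) (.node (.col (nat_lit 2)) (.slot (nat_lit 1)) (.slot (nat_lit 1))) (.col (nat_lit 1))) (.node (.col (nat_lit 0)) (.slot (nat_lit 1)) (.slot (nat_lit 1))) (.node (.col (nat_lit 2)) (.slot (nat_lit 0)) (.slot (nat_lit 1)))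
def w13575 : Root := .mk (.node (.node (.col (nat_lit 3)) (.node (.col (nat_lit 0)) (.slot (nat_lit 1)) (.slot (nat_lit 1))) (.node (.col (nat_lit 2)) (.slot (nat_lit 1)) (.slot (nat_lit 0)))) (.node (.col (nat_lit 2)) (.slot (nat_lit 1)) (.slot (nat_lit 1))) (.col (nat_lit 1))) (.node (.col (nat_lit 0)) (.col (nat_lit 1)) (.slot (nat_lit 0))) (.col (nat_lit 0)) (.slot (nat_lit 0))
def l3085 : Root := .mk (.node (.col (nat_lit 3)) (.node (.col (nat_lit 0)) (.slot (nat_lit 4)) (.slot (nat_lit 4))) (.node (.col (nat_lit 2)) (.slot (nat_lit 4)) (.slot (nat_lit 4)))) (.node (.node (.col (nat_lit 0)) (.col (nat_lit 1)) (.slot (nat_lit 5))) (.col (nat_lit 0)) (.node (.col (nat_lit 0)) (.slot (nat_lit 0)) (.slot (nat_lit 3)))) (.node (.col (nat_lit 2)) (.slot (nat_lit 8)) (.slot (nat_lit 8))) (.col (nat_lit 1))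
def w13576 : Root := .mk (.col (nat_lit 3)) (.node (.node (.node (.col (nat_lit 0)) (.col (nat_lit 1)) (.slot (nat_lit 5))) (.col (nat_lit 0)) (.node (.col (nat_lit 0)) (.slot (nat_lit 3)) (.slot (nat_lit 0)))) (.node (.col (nat_lit 2)) (.slot (nat_lit 8)) (.slot (nat_lit 8))) (.slot (nat_lit 1))) (.node (.col (nat_lit 0)) (.slot (nat_lit 4)) (.slot (nat_lit 4))) (.node (.col (nat_lit 2)) (.slot (nat_lit 4)) (.slot (nat_lit 4)))
def w13577 : Root := .mk (.col (nat_lit 3)) (.node (.node (.node (.col (nat_lit 0)) (.col (nat_lit 1)) (.slot (nat_lit 3))) (.col (nat_lit 0)) (.node (.col (nat_lit 0)) (.slot (nat_lit 3)) (.slot (nat_lit 1)))) (.node (.col (nat_lit 2)) (.slot (nat_lit 0)) (.slot (nat_lit 0))) (.slot (nat_lit 3))) (.node (.col (nat_lit 0)) (.slot (nat_lit 7)) (.slot (nat_lit 5))) (.node (.col (nat_lit 3)) (.slot (nat_lit 3)) (.slot (nat_lit 1)))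
def w13578 : Root := .mk (.col (nat_lit 3)) (.node (.node (.node (.col (nat_lit 0)) (.col (nat_lit 1)) (.slot (nat_lit 3))) (.col (nat_lit 0)) (.node (.col (nat_lit 0)) (.slot (nat_lit 0)) (.slot (nat_lit 0)))) (.node (.col (nat_lit 2)) (.slot (nat_lit 1)) (.slot (nat_lit 0))) (.slot (nat_lit 2))) (.node (.col (nat_lit 0)) (.slot (nat_lit 1)) (.slot (nat_lit 1))) (.node (.col (nat_lit 4)) (.slot (nat_lit 1)) (.slot (nat_lit 0)))
def w13588 : Root := .mk (.col (nat_lit 3)) (.node (.node (.col (nat_lit 4)) (.col (nat_lit 0)) (.slot (nat_lit 0))) (.node (.col (nat_lit 2)) (.slot (nat_lit 7)) (.slot (nat_lit 5))) (.col (nat_lit 1))) (.col (nat_lit 2)) (.node (.slot (nat_lit 0)) (.slot (nat_lit 1)) (.slot (nat_lit 1)))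
def w13590 : Root := .mk (.node (.col (nat_lit 3)) (.node (.col (nat_lit 0)) (.slot (nat_lit 0)) (.slot (nat_lit 0))) (.node (.slot (nat_lit 0)) (.slot (nat_lit 0)) (.slot (nat_lit 0)))) (.node (.node (.col (nat_lit 0)) (.col (nat_lit 1)) (.slot (nat_lit 0))) (.col (nat_lit 0)) (.col (nat_lit 1))) (.col (nat_lit 4)) (.col (nat_lit 1))
def w13594 : Root := .mk (.col (nat_lit 3)) (.node (.node (.node (.col (nat_lit 0)) (.col (nat_lit 1)) (.slot (nat_lit 3))) (.col (nat_lit 0)) (.node (.col (nat_lit 0)) (.slot (nat_lit 3)) (.slot (nat_lit 1)))) (.node (.col (nat_lit 2)) (.slot (nat_lit 1)) (.slot (nat_lit 1))) (.slot (nat_lit 3))) (.node (.col (nat_lit 0)) (.slot (nat_lit 3)) (.slot (nat_lit 1))) (.node (.slot (nat_lit 0)) (.slot (nat_lit 0)) (.slot (nat_lit 0)))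
def w13595 : Root := .mk (.node (.node (.col (nat_lit 3)) (.node (.col (nat_lit 0)) (.slot (nat_lit 1)) (.slot (nat_lit 1))) (.slot (nat_lit 2))) (.node (.node (.col (nat_lit 0)) (.col (nat_lit 1)) (.slot (nat_lit 2))) (.col (nat_lit 0)) (.node (.col (nat_lit 0)) (.slot (nat_lit 0)) (.slot (nat_lit 0)))) (.slot (nat_lit 1))) (.col (nat_lit 2)) (.col (nat_lit 0)) (.slot (nat_lit 0))
def w13596 : Root := .mk (.node (.node (.col (nat_lit 3)) (.node (.col (nat_lit 0)) (.slot (nat_lit 0)) (.slot (nat_lit 0))) (.slot (nat_lit 6))) (.node (.slot (nat_lit 0)) (.col (nat_lit 0)) (.slot (nat_lit 0))) (.slot (nat_lit 2))) (.col (nat_lit 2)) (.col (nat_lit 3)) (.slot (nat_lit 6))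
def w13597 : Root := .mk (.node (.node (.col (nat_lit 3)) (.node (.col (nat_lit 0)) (.slot (nat_lit 1)) (.slot (nat_lit 1))) (.slot (nat_lit 2))) (.node (.slot (nat_lit 0)) (.col (nat_lit 0)) (.slot (nat_lit 0))) (.slot (nat_lit 1))) (.col (nat_lit 2)) (.col (nat_lit 4)) (.slot (nat_lit 3))
def w13598 : Root := .mk (.node (.col (nat_lit 3)) (.node (.node (.node (.col (nat_lit 0)) (.col (nat_lit 1)) (.slot (nat_lit 3))) (.col (nat_lit 0)) (.node (.col (nat_lit 0)) (.slot (nat_lit 3)) (.slot (nat_lit 1)))) (.node (.col (nat_lit 2)) (.slot (nat_lit 2)) (.slot (nat_lit 1))) (.slot (nat_lit 3))) (.slot (nat_lit 3))) (.col (nat_lit 0)) (.col (nat_lit 3)) (.slot (nat_lit 8))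
def w13599 : Root := .mk (.node (.node (.col (nat_lit 3)) (.node (.col (nat_lit 0)) (.node (.col (nat_lit 0)) (.slot (nat_lit 0)) (.slot (nat_lit 0))) (.slot (nat_lit 2))) (.slot (nat_lit 2))) (.node (.col (nat_lit 2)) (.slot (nat_lit 1)) (.slot (nat_lit 0))) (.slot (nat_lit 2))) (.node (.col (nat_lit 0)) (.col (nat_lit 1)) (.slot (nat_lit 3))) (.col (nat_lit 0)) (.node (.col (nat_lit 0)) (.slot (nat_lit 0)) (.slot (nat_lit 0)))
def l3088 : Root := .mk (.node (.node (.node (.col (nat_lit 3)) (.node (.col (nat_lit 0)) (.slot (nat_lit 8)) (.slot (nat_lit 8))) (.slot (nat_lit 8))) (.node (.col (nat_lit 2)) (.slot (nat_lit 8)) (.slot (nat_lit 8))) (.slot (nat_lit 8))) (.col (nat_lit 0)) (.node (.col (nat_lit 0)) (.slot (nat_lit 3)) (.slot (nat_lit 3)))) (.col (nat_lit 0)) (.col (nat_lit 1)) (.slot (nat_lit 8))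
def w13600 : Root := .mk (.node (.node (.col (nat_lit 3)) (.node (.col (nat_lit 0)) (.slot (nat_lit 8)) (.slot (nat_lit 8))) (.slot (nat_lit 8))) (.node (.col (nat_lit 2)) (.slot (nat_lit 8)) (.slot (nat_lit 8))) (.slot (nat_lit 8))) (.node (.col (nat_lit 0)) (.node (.col (nat_lit 4)) (.col (nat_lit 0)) (.slot (nat_lit 0))) (.slot (nat_lit 8))) (.col (nat_lit 0)) (.node (.col (nat_lit 0)) (.slot (nat_lit 3)) (.slot (nat_lit 3)))
def w13601 : Root := .mk (.node (.node (.col (nat_lit 3)) (.node (.col (nat_lit 0)) (.slot (nat_lit 1)) (.slot (nat_lit 1))) (.slot (nat_lit 2))) (.node (.col (nat_lit 2)) (.slot (nat_lit 0)) (.slot (nat_lit 0))) (.slot (nat_lit 1))) (.node (.col (nat_lit 0)) (.slot (nat_lit 0)) (.slot (nat_lit 0))) (.col (nat_lit 0)) (.node (.col (nat_lit 1)) (.slot (nat_lit 2)) (.slot (nat_lit 1)))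
def w13602 : Root := .mk (.node (.node (.col (nat_lit 3)) (.node (.col (nat_lit 0)) (.slot (nat_lit 1)) (.slot (nat_lit 1))) (.slot (nat_lit 2))) (.node (.col (nat_lit 2)) (.slot (nat_lit 0)) (.slot (nat_lit 0))) (.slot (nat_lit 2))) (.node (.col (nat_lit 0)) (.slot (nat_lit 0)) (.slot (nat_lit 0))) (.col (nat_lit 0)) (.node (.col (nat_lit 2)) (.slot (nat_lit 1)) (.slot (nat_lit 1)))
def w13603 : Root := .mk (.node (.node (.col (nat_lit 3)) (.node (.col (nat_lit 0)) (.slot (nat_lit 1)) (.slot (nat_lit 1))) (.slot (nat_lit 2))) (.node (.col (nat_lit 2)) (.slot (nat_lit 1)) (.slot (nat_lit 1))) (.slot (nat_lit 2))) (.node (.col (nat_lit 0)) (.node (.col (nat_lit 4)) (.col (nat_lit 0)) (.slot (nat_lit 1))) (.slot (nat_lit 1))) (.col (nat_lit 0)) (.node (.col (nat_lit 3)) (.slot (nat_lit 1)) (.slot (nat_lit 1)))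
def w13604 : Root := .mk (.node (.node (.col (nat_lit 3)) (.node (.col (nat_lit 0)) (.slot (nat_lit 1)) (.slot (nat_lit 1))) (.slot (nat_lit 2))) (.node (.col (nat_lit 2)) (.slot (nat_lit 1)) (.slot (nat_lit 1))) (.slot (nat_lit 2))) (.node (.col (nat_lit 0)) (.node (.col (nat_lit 4)) (.col (nat_lit 0)) (.slot (nat_lit 4))) (.slot (nat_lit 8))) (.col (nat_lit 0)) (.node (.slot (nat_lit 0)) (.slot (nat_lit 1)) (.slot (nat_lit 1)))
def w13605 : Root := .mk (.node (.node (.node (.node (.col (nat_lit 3)) (.node (.col (nat_lit 0)) (.slot (nat_lit 3)) (.slot (nat_lit 1))) (.slot (nat_lit 8))) (.node (.col (nat_lit 2)) (.slot (nat_lit 0)) (.slot (nat_lit 0))) (.slot (nat_lit 3))) (.col (nat_lit 0)) (.slot (nat_lit 3))) (.col (nat_lit 0)) (.slot (nat_lit 1))) (.col (nat_lit 4)) (.col (nat_lit 0)) (.slot (nat_lit 3))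
def w13607 : Root := .mk (.node (.node (.node (.col (nat_lit 3)) (.node (.col (nat_lit 0)) (.slot (nat_lit 1)) (.slot (nat_lit 1))) (.slot (nat_lit 2))) (.node (.col (nat_lit 2)) (.slot (nat_lit 3)) (.slot (nat_lit 1))) (.slot (nat_lit 8))) (.col (nat_lit 0)) (.slot (nat_lit 3))) (.col (nat_lit 0)) (.slot (nat_lit 0)) (.slot (nat_lit 0))
def l3089 : Root := .mk (.node (.node (.node (.node (.col (nat_lit 3)) (.node (.col (nat_lit 0)) (.slot (nat_lit 8)) (.slot (nat_lit 8))) (.slot (nat_lit 8))) (.node (.col (nat_lit 2)) (.slot (nat_lit 8)) (.slot (nat_lit 8))) (.slot (nat_lit 8))) (.col (nat_lit 0)) (.slot (nat_lit 8))) (.col (nat_lit 0)) (.slot (nat_lit 13))) (.col (nat_lit 4)) (.col (nat_lit 0)) (.slot (nat_lit 8))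
def w13608 : Root := .mk (.node (.node (.node (.node (.col (nat_lit 3)) (.slot (nat_lit 9)) (.slot (nat_lit 8))) (.node (.col (nat_lit 2)) (.slot (nat_lit 8)) (.slot (nat_lit 8))) (.slot (nat_lit 8))) (.col (nat_lit 0)) (.slot (nat_lit 8))) (.col (nat_lit 0)) (.slot (nat_lit 13))) (.col (nat_lit 4)) (.col (nat_lit 0)) (.slot (nat_lit 8))
def w13614 : Root := .mk (.node (.node (.node (.col (nat_lit 3)) (.col (nat_lit 1)) (.slot (nat_lit 0))) (.node (.col (nat_lit 2)) (.slot (nat_lit 1)) (.slot (nat_lit 0))) (.col (nat_lit 4))) (.col (nat_lit 0)) (.node (.col (nat_lit 4)) (.slot (nat_lit 1)) (.slot (nat_lit 1)))) (.col (nat_lit 0)) (.col (nat_lit 4)) (.slot (nat_lit 0))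
def w13615 : Root := .mk (.node (.node (.col (nat_lit 3)) (.col (nat_lit 1)) (.slot (nat_lit 0))) (.node (.col (nat_lit 2)) (.slot (nat_lit 1)) (.slot (nat_lit 1))) (.col (nat_lit 4))) (.node (.col (nat_lit 0)) (.col (nat_lit 4)) (.slot (nat_lit 0))) (.col (nat_lit 0)) (.node (.col (nat_lit 4)) (.node (.col (nat_lit 4)) (.slot (nat_lit 0)) (.slot (nat_lit 0))) (.slot (nat_lit 2)))
def l3090 : Root := .mk (.node (.node (.col (nat_lit 3)) (.col (nat_lit 1)) (.slot (nat_lit 0))) (.node (.col (nat_lit 2)) (.slot (nat_lit 1)) (.slot (nat_lit 1))) (.col (nat_lit 4))) (.node (.col (nat_lit 0)) (.col (nat_lit 4)) (.slot (nat_lit 5))) (.col (nat_lit 0)) (.node (.col (nat_lit 4)) (.slot (nat_lit 8)) (.slot (nat_lit 8)))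
def w13616 : Root := .mk (.col (nat_lit 3)) (.node (.node (.node (.col (nat_lit 0)) (.col (nat_lit 4)) (.slot (nat_lit 5))) (.col (nat_lit 0)) (.slot (nat_lit 9))) (.node (.col (nat_lit 2)) (.slot (nat_lit 1)) (.slot (nat_lit 1))) (.col (nat_lit 4))) (.col (nat_lit 1)) (.slot (nat_lit 0))
def l3091 : Root := .mk (.node (.node (.col (nat_lit 3)) (.col (nat_lit 2)) (.slot (nat_lit 0))) (.node (.col (nat_lit 2)) (.slot (nat_lit 1)) (.slot (nat_lit 0))) (.col (nat_lit 4))) (.node (.col (nat_lit 0)) (.col (nat_lit 4)) (.slot (nat_lit 5))) (.col (nat_lit 0)) (.col (nat_lit 2))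
def w13617 : Root := .mk (.col (nat_lit 3)) (.node (.node (.node (.col (nat_lit 0)) (.col (nat_lit 4)) (.slot (nat_lit 5))) (.col (nat_lit 0)) (.slot (nat_lit 1))) (.node (.col (nat_lit 2)) (.slot (nat_lit 1)) (.slot (nat_lit 0))) (.col (nat_lit 4))) (.col (nat_lit 2)) (.slot (nat_lit 0))
def l3092 : Root := .mk (.node (.node (.col (nat_lit 3)) (.node (.col (nat_lit 0)) (.col (nat_lit 4)) (.col (nat_lit 3))) (.slot (nat_lit 0))) (.node (.col (nat_lit 2)) (.slot (nat_lit 1)) (.slot (nat_lit 1))) (.col (nat_lit 4))) (.col (nat_lit 2)) (.col (nat_lit 0)) (.col (nat_lit 3))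
def w13618 : Root := .mk (.node (.node (.node (.col (nat_lit 3)) (.node (.col (nat_lit 0)) (.col (nat_lit 4)) (.col (nat_lit 3))) (.slot (nat_lit 0))) (.node (.col (nat_lit 2)) (.slot (nat_lit 1)) (.slot (nat_lit 1))) (.col (nat_lit 4))) (.col (nat_lit 0)) (.col (nat_lit 3))) (.col (nat_lit 0)) (.col (nat_lit 4)) (.col (nat_lit 3))
def w13619 : Root := .mk (.node (.node (.node (.col (nat_lit 3)) (.slot (nat_lit 0)) (.slot (nat_lit 0))) (.node (.col (nat_lit 2)) (.slot (nat_lit 0)) (.slot (nat_lit 0))) (.col (nat_lit 4))) (.col (nat_lit 0)) (.col (nat_lit 3))) (.col (nat_lit 0)) (.col (nat_lit 4)) (.node (.col (nat_lit 0)) (.slot (nat_lit 0)) (.slot (nat_lit 0)))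
def w13620 : Root := .mk (.node (.node (.node (.col (nat_lit 3)) (.slot (nat_lit 0)) (.slot (nat_lit 0))) (.node (.col (nat_lit 2)) (.slot (nat_lit 0)) (.slot (nat_lit 0))) (.col (nat_lit 4))) (.col (nat_lit 0)) (.col (nat_lit 3))) (.col (nat_lit 0)) (.col (nat_lit 4)) (.node (.col (nat_lit 4)) (.slot (nat_lit 0)) (.slot (nat_lit 0)))
def l3093 : Root := .mk (.node (.col (nat_lit 3)) (.node (.node (.node (.col (nat_lit 0)) (.col (nat_lit 4)) (.slot (nat_lit 5))) (.col (nat_lit 0)) (.col (nat_lit 3))) (.node (.col (nat_lit 2)) (.slot (nat_lit 1)) (.slot (nat_lit 1))) (.col (nat_lit 4))) (.slot (nat_lit 0))) (.col (nat_lit 0)) (.col (nat_lit 4)) (.col (nat_lit 3))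
def l3094 : Root := .mk (.node (.node (.col (nat_lit 3)) (.slot (nat_lit 0)) (.slot (nat_lit 0))) (.node (.col (nat_lit 2)) (.slot (nat_lit 1)) (.slot (nat_lit 1))) (.col (nat_lit 4))) (.node (.col (nat_lit 0)) (.col (nat_lit 4)) (.slot (nat_lit 5))) (.col (nat_lit 0)) (.col (nat_lit 2))
def w13622 : Root := .mk (.node (.col (nat_lit 3)) (.slot (nat_lit 0)) (.slot (nat_lit 0))) (.node (.node (.col (nat_lit 0)) (.col (nat_lit 4)) (.slot (nat_lit 5))) (.col (nat_lit 0)) (.slot (nat_lit 1))) (.node (.col (nat_lit 2)) (.slot (nat_lit 1)) (.slot (nat_lit 1))) (.col (nat_lit 4))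
def w13623 : Root := .mk (.node (.node (.node (.col (nat_lit 3)) (.slot (nat_lit 0)) (.slot (nat_lit 0))) (.node (.col (nat_lit 2)) (.slot (nat_lit 1)) (.slot (nat_lit 1))) (.col (nat_lit 1))) (.col (nat_lit 0)) (.slot (nat_lit 1))) (.col (nat_lit 0)) (.col (nat_lit 4)) (.col (nat_lit 1))
def w13626 : Root := .mk (.node (.col (nat_lit 3)) (.slot (nat_lit 0)) (.slot (nat_lit 0))) (.node (.node .junk (.col (nat_lit 4)) (.col (nat_lit 1))) (.col (nat_lit 0)) (.slot (nat_lit 1))) (.node (.col (nat_lit 2)) (.slot (nat_lit 1)) (.slot (nat_lit 1))) (.node (.col (nat_lit 2)) (.slot (nat_lit 1)) (.slot (nat_lit 1)))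
def w13634 : Root := .mk (.node (.node (.col (nat_lit 3)) (.slot (nat_lit 0)) (.slot (nat_lit 0))) (.node (.slot (nat_lit 0)) (.col (nat_lit 0)) (.slot (nat_lit 1))) (.node (.col (nat_lit 2)) (.slot (nat_lit 1)) (.slot (nat_lit 1)))) (.col (nat_lit 2)) (.col (nat_lit 3)) (.node (.col (nat_lit 1)) (.slot (nat_lit 1)) (.slot (nat_lit 1)))
def w13635 : Root := .mk (.node (.node (.col (nat_lit 3)) (.slot (nat_lit 0)) (.slot (nat_lit 0))) (.node (.slot (nat_lit 0)) (.col (nat_lit 0)) (.slot (nat_lit 1))) (.node (.col (nat_lit 3)) (.slot (nat_lit 1)) (.slot (nat_lit 1)))) (.col (nat_lit 2)) (.col (nat_lit 3)) (.node (.col (nat_lit 1)) (.slot (nat_lit 1)) (.slot (nat_lit 1)))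
def w13636 : Root := .mk (.node (.node (.col (nat_lit 3)) (.node (.col (nat_lit 0)) (.slot (nat_lit 0)) (.slot (nat_lit 0))) (.slot (nat_lit 0))) (.node (.slot (nat_lit 0)) (.col (nat_lit 0)) (.slot (nat_lit 0))) (.slot (nat_lit 1))) (.col (nat_lit 2)) (.col (nat_lit 3)) (.node (.col (nat_lit 1)) (.col (nat_lit 2)) (.slot (nat_lit 5)))
def w13637 : Root := .mk (.node (.node (.col (nat_lit 3)) (.slot (nat_lit 0)) (.slot (nat_lit 0))) (.node (.col (nat_lit 2)) (.col (nat_lit 3)) (.node (.col (nat_lit 1)) (.slot (nat_lit 1)) (.slot (nat_lit 2)))) (.slot (nat_lit 1))) (.slot (nat_lit 0)) (.col (nat_lit 0)) (.col (nat_lit 4))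
def w13640 : Root := .mk (.node (.node (.col (nat_lit 3)) (.slot (nat_lit 0)) (.slot (nat_lit 0))) (.node (.col (nat_lit 2)) (.node (.col (nat_lit 0)) (.slot (nat_lit 1)) (.slot (nat_lit 1))) (.slot (nat_lit 2))) (.slot (nat_lit 1))) (.col (nat_lit 3)) (.col (nat_lit 0)) (.slot (nat_lit 3))
def w13641 : Root := .mk (.node (.col (nat_lit 4)) (.node (.col (nat_lit 2)) (.slot (nat_lit 1)) (.slot (nat_lit 0))) (.slot (nat_lit 2))) (.node (.col (nat_lit 0)) (.col (nat_lit 4)) (.slot (nat_lit 3))) (.col (nat_lit 0)) (.node (.col (nat_lit 3)) (.slot (nat_lit 0)) (.slot (nat_lit 0)))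
def w13643 : Root := .mk (.node (.col (nat_lit 3)) (.slot (nat_lit 0)) (.slot (nat_lit 0))) (.node (.node (.col (nat_lit 0)) (.col (nat_lit 4)) (.slot (nat_lit 5))) (.col (nat_lit 0)) (.node (.col (nat_lit 3)) (.slot (nat_lit 0)) (.slot (nat_lit 0)))) (.node (.col (nat_lit 2)) (.slot (nat_lit 1)) (.slot (nat_lit 1))) (.col (nat_lit 4))
def w13644 : Root := .mk (.node (.node (.node (.col (nat_lit 3)) (.slot (nat_lit 0)) (.slot (nat_lit 0))) (.node (.col (nat_lit 2)) (.slot (nat_lit 1)) (.slot (nat_lit 1))) (.slot (nat_lit 6))) (.node (.col (nat_lit 0)) (.col (nat_lit 4)) (.slot (nat_lit 3))) (.col (nat_lit 0))) (.col (nat_lit 3)) (.col (nat_lit 4)) (.col (nat_lit 0))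
def w13655 : Root := .mk (.node (.col (nat_lit 3)) (.slot (nat_lit 0)) (.slot (nat_lit 0))) (.node (.node (.col (nat_lit 0)) (.node (.node .junk (.col (nat_lit 1)) (.col (nat_lit 2))) (.col (nat_lit 0)) (.slot (nat_lit 1))) (.slot (nat_lit 5))) (.col (nat_lit 0)) (.slot (nat_lit 1))) (.node (.col (nat_lit 2)) (.slot (nat_lit 1)) (.slot (nat_lit 1))) (.col (nat_lit 4))
def w13656 : Root := .mk (.node (.node (.col (nat_lit 3)) (.slot (nat_lit 0)) (.slot (nat_lit 0))) (.node (.col (nat_lit 2)) (.slot (nat_lit 1)) (.slot (nat_lit 0))) (.slot (nat_lit 2))) (.node (.col (nat_lit 0)) (.node (.node .junk (.col (nat_lit 1)) (.col (nat_lit 2))) (.col (nat_lit 0)) (.slot (nat_lit 1))) (.slot (nat_lit 3))) (.col (nat_lit 0)) (.col (nat_lit 2))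
def w13663 : Root := .mk (.node (.slot (nat_lit 0)) (.node (.col (nat_lit 2)) (.node (.col (nat_lit 0)) (.slot (nat_lit 1)) (.slot (nat_lit 1))) (.slot (nat_lit 2))) (.col (nat_lit 2))) (.node (.col (nat_lit 0)) (.col (nat_lit 4)) (.slot (nat_lit 4))) (.col (nat_lit 0)) (.col (nat_lit 2))
def w13667 : Root := .mk (.node (.node (.col (nat_lit 3)) (.slot (nat_lit 0)) (.slot (nat_lit 0))) (.node (.col (nat_lit 2)) (.slot (nat_lit 3)) (.slot (nat_lit 3))) (.slot (nat_lit 2))) (.node (.col (nat_lit 0)) (.node (.node .junk (.col (nat_lit 1)) (.col (nat_lit 2))) (.col (nat_lit 0)) (.slot (nat_lit 1))) (.slot (nat_lit 1))) (.col (nat_lit 0)) (.col (nat_lit 3))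
def w13672 : Root := .mk (.node (.col (nat_lit 3)) (.node (.node (.slot (nat_lit 0)) (.col (nat_lit 0)) (.slot (nat_lit 0))) (.col (nat_lit 4)) (.col (nat_lit 0))) (.slot (nat_lit 0))) (.col (nat_lit 0)) (.col (nat_lit 1)) (.node (.col (nat_lit 4)) (.slot (nat_lit 1)) .junk)
def w13674 : Root := .mk (.node (.col (nat_lit 3)) (.node (.col (nat_lit 0)) (.col (nat_lit 1)) (.slot (nat_lit 1))) (.slot (nat_lit 0))) (.node .junk (.col (nat_lit 0)) (.col (nat_lit 3))) (.node (.col (nat_lit 2)) (.slot (nat_lit 0)) (.slot (nat_lit 0))) (.col (nat_lit 1))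
def w13681 : Root := .mk (.node (.col (nat_lit 3)) (.node (.node (.node .junk (.col (nat_lit 3)) (.col (nat_lit 1))) (.col (nat_lit 0)) (.slot (nat_lit 1))) (.node (.col (nat_lit 2)) (.slot (nat_lit 1)) (.slot (nat_lit 1))) (.col (nat_lit 1))) (.slot (nat_lit 0))) (.col (nat_lit 0)) (.col (nat_lit 1)) (.col (nat_lit 3))
def w13685 : Root := .mk (.node (.col (nat_lit 3)) (.slot (nat_lit 0)) (.slot (nat_lit 0))) (.node (.node .junk (.col (nat_lit 3)) (.col (nat_lit 1))) (.col (nat_lit 0)) (.slot (nat_lit 1))) (.node (.col (nat_lit 2)) (.slot (nat_lit 1)) (.slot (nat_lit 1))) (.node (.col (nat_lit 2)) (.slot (nat_lit 1)) (.slot (nat_lit 1)))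
def w13692 : Root := .mk (.node (.col (nat_lit 3)) (.slot (nat_lit 0)) (.slot (nat_lit 0))) (.node (.node (.col (nat_lit 0)) (.col (nat_lit 3)) (.slot (nat_lit 5))) (.col (nat_lit 0)) (.node (.col (nat_lit 1)) (.slot (nat_lit 0)) (.slot (nat_lit 0)))) (.node (.col (nat_lit 2)) (.slot (nat_lit 1)) (.slot (nat_lit 1))) (.col (nat_lit 3))
def w13701 : Root := .mk (.node (.node (.col (nat_lit 3)) (.slot (nat_lit 0)) (.slot (nat_lit 0))) (.node (.node (.col (nat_lit 0)) (.col (nat_lit 3)) (.slot (nat_lit 0))) (.col (nat_lit 0)) (.node (.col (nat_lit 1)) (.slot (nat_lit 3)) (.slot (nat_lit 3)))) (.col (nat_lit 1))) (.col (nat_lit 2)) (.col (nat_lit 1)) (.slot (nat_lit 1))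
def w13711 : Root := .mk (.node (.node (.col (nat_lit 3)) (.slot (nat_lit 0)) (.slot (nat_lit 0))) (.node (.col (nat_lit 2)) (.slot (nat_lit 1)) (.slot (nat_lit 1))) (.slot (nat_lit 2))) (.node (.col (nat_lit 0)) (.node (.node .junk (.col (nat_lit 1)) (.col (nat_lit 2))) (.col (nat_lit 0)) (.slot (nat_lit 1))) (.slot (nat_lit 3))) (.col (nat_lit 0)) (.col (nat_lit 1))
def w13717 : Root := .mk (.node (.node (.col (nat_lit 3)) (.slot (nat_lit 0)) (.slot (nat_lit 0))) (.node (.col (nat_lit 2)) (.slot (nat_lit 0)) (.slot (nat_lit 0))) (.col (nat_lit 1))) (.node (.col (nat_lit 0)) (.node (.node .junk (.col (nat_lit 1)) (.col (nat_lit 2))) (.col (nat_lit 0)) (.slot (nat_lit 1))) (.slot (nat_lit 1))) (.col (nat_lit 0)) (.col (nat_lit 4))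
def w13720 : Root := .mk (.node (.node (.node (.col (nat_lit 3)) (.node (.col (nat_lit 1)) (.slot (nat_lit 0)) (.slot (nat_lit 0))) (.col (nat_lit 1))) (.node (.col (nat_lit 2)) (.slot (nat_lit 1)) (.slot (nat_lit 1))) (.slot (nat_lit 2))) (.col (nat_lit 0)) (.node (.col (nat_lit 4)) (.slot (nat_lit 7)) (.slot (nat_lit 5)))) (.col (nat_lit 0)) (.col (nat_lit 4)) (.slot (nat_lit 0))
def w13721 : Root := .mk (.col (nat_lit 3)) (.node (.node (.node (.col (nat_lit 0)) (.col (nat_lit 4)) (.slot (nat_lit 4))) (.col (nat_lit 0)) (.node (.col (nat_lit 4)) (.node (.col (nat_lit 4)) (.slot (nat_lit 0)) (.slot (nat_lit 0))) (.slot (nat_lit 3)))) (.node (.col (nat_lit 2)) (.slot (nat_lit 1)) (.slot (nat_lit 0))) (.col (nat_lit 4))) (.col (nat_lit 4)) (.col (nat_lit 1))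
def w13722 : Root := .mk (.node (.slot (nat_lit 0)) (.node (.node (.col (nat_lit 0)) (.col (nat_lit 4)) (.slot (nat_lit 5))) (.col (nat_lit 0)) (.node (.col (nat_lit 4)) (.slot (nat_lit 0)) (.slot (nat_lit 0)))) (.col (nat_lit 4))) (.col (nat_lit 2)) (.col (nat_lit 0)) (.slot (nat_lit 2))
def w13723 : Root := .mk (.node (.node (.col (nat_lit 3)) .junk (.col (nat_lit 1))) (.node (.node (.col (nat_lit 0)) (.col (nat_lit 4)) (.slot (nat_lit 1))) (.col (nat_lit 0)) (.node (.col (nat_lit 4)) (.node (.col (nat_lit 4)) (.slot (nat_lit 0)) (.slot (nat_lit 0))) (.slot (nat_lit 1)))) (.col (nat_lit 4))) (.col (nat_lit 2)) (.col (nat_lit 4)) (.slot (nat_lit 0))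
def w13724 : Root := .mk (.col (nat_lit 3)) (.node (.node (.node (.col (nat_lit 0)) (.col (nat_lit 4)) (.slot (nat_lit 2))) (.col (nat_lit 0)) (.node (.col (nat_lit 4)) (.slot (nat_lit 0)) (.slot (nat_lit 0)))) (.node (.col (nat_lit 2)) (.slot (nat_lit 0)) (.slot (nat_lit 1))) (.col (nat_lit 4))) (.node (.col (nat_lit 1)) (.slot (nat_lit 0)) (.slot (nat_lit 0))) (.col (nat_lit 1))
def l3105 : Root := .mk (.node (.node (.col (nat_lit 3)) (.node (.col (nat_lit 1)) (.slot (nat_lit 0)) (.slot (nat_lit 0))) (.col (nat_lit 1))) (.node (.col (nat_lit 2)) (.slot (nat_lit 1)) (.slot (nat_lit 0))) (.col (nat_lit 4))) (.node (.col (nat_lit 0)) (.col (nat_lit 4)) (.slot (nat_lit 5))) (.col (nat_lit 0)) (.col (nat_lit 1))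
def w13725 : Root := .mk (.node (.node (.node (.col (nat_lit 3)) (.node (.col (nat_lit 1)) (.slot (nat_lit 0)) (.slot (nat_lit 0))) (.col (nat_lit 1))) (.node (.col (nat_lit 2)) (.slot (nat_lit 1)) (.slot (nat_lit 0))) (.col (nat_lit 4))) (.node (.col (nat_lit 0)) (.col (nat_lit 4)) (.slot (nat_lit 5))) (.col (nat_lit 0))) (.col (nat_lit 4)) (.slot (nat_lit 0)) (.col (nat_lit 0))
def l3106 : Root := .mk (.col (nat_lit 3)) (.node (.node (.node (.col (nat_lit 0)) (.col (nat_lit 4)) (.slot (nat_lit 5))) (.col (nat_lit 0)) (.node (.col (nat_lit 4)) (.node (.col (nat_lit 4)) (.slot (nat_lit 0)) (.slot (nat_lit 0))) (.slot (nat_lit 3)))) (.node (.col (nat_lit 2)) (.slot (nat_lit 2)) (.slot (nat_lit 2))) (.col (nat_lit 4))) (.node (.col (nat_lit 1)) (.slot (nat_lit 0)) (.slot (nat_lit 0))) (.col (nat_lit 1))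
def w13726 : Root := .mk (.col (nat_lit 3)) (.node (.node (.node (.col (nat_lit 0)) (.col (nat_lit 4)) (.slot (nat_lit 5))) (.col (nat_lit 0)) (.node (.col (nat_lit 4)) (.node (.col (nat_lit 4)) (.slot (nat_lit 0)) (.slot (nat_lit 0))) (.slot (nat_lit 3)))) (.node (.col (nat_lit 2)) (.slot (nat_lit 2)) (.slot (nat_lit 2))) (.slot (nat_lit 1))) (.node (.col (nat_lit 1)) (.slot (nat_lit 0)) (.slot (nat_lit 0))) (.col (nat_lit 1))
def w13727 : Root := .mk (.col (nat_lit 3)) (.node (.node (.node (.col (nat_lit 0)) (.col (nat_lit 4)) (.slot (nat_lit 0))) (.col (nat_lit 0)) (.node (.col (nat_lit 4)) (.node (.slot (nat_lit 0)) (.slot (nat_lit 0)) (.slot (nat_lit 0))) (.slot (nat_lit 3)))) (.node (.col (nat_lit 2)) (.slot (nat_lit 0)) (.slot (nat_lit 0))) (.col (nat_lit 4))) (.col (nat_lit 4)) (.col (nat_lit 1))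
def w13728 : Root := .mk (.col (nat_lit 3)) (.node (.node (.node (.col (nat_lit 0)) (.col (nat_lit 4)) (.slot (nat_lit 4))) (.col (nat_lit 0)) (.node (.col (nat_lit 4)) (.node (.slot (nat_lit 0)) (.slot (nat_lit 0)) (.slot (nat_lit 0))) (.slot (nat_lit 3)))) (.node (.col (nat_lit 2)) (.col (nat_lit 4)) (.slot (nat_lit 2))) (.col (nat_lit 4))) (.slot (nat_lit 0)) (.col (nat_lit 1))
def l3107 : Root := .mk (.col (nat_lit 3)) (.node (.node (.node (.col (nat_lit 0)) (.col (nat_lit 4)) (.slot (nat_lit 5))) (.col (nat_lit 0)) (.node (.col (nat_lit 4)) (.node (.slot (nat_lit 0)) (.slot (nat_lit 0)) (.slot (nat_lit 0))) (.slot (nat_lit 3)))) (.node (.col (nat_lit 2)) (.slot (nat_lit 2)) (.slot (nat_lit 2))) (.col (nat_lit 4))) (.node (.col (nat_lit 1)) (.slot (nat_lit 0)) (.slot (nat_lit 0))) (.col (nat_lit 1))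
def w13729 : Root := .mk (.col (nat_lit 3)) (.node (.node (.node (.col (nat_lit 0)) (.col (nat_lit 4)) (.slot (nat_lit 5))) (.col (nat_lit 0)) (.node (.col (nat_lit 4)) (.node (.slot (nat_lit 0)) (.slot (nat_lit 0)) (.slot (nat_lit 0))) (.slot (nat_lit 3)))) (.node (.col (nat_lit 2)) (.slot (nat_lit 2)) (.slot (nat_lit 2))) (.slot (nat_lit 1))) (.node (.col (nat_lit 1)) (.slot (nat_lit 0)) (.slot (nat_lit 0))) (.col (nat_lit 1))
def l3108 : Root := .mk (.col (nat_lit 3)) (.node (.node (.node (.col (nat_lit 0)) (.col (nat_lit 4)) (.slot (nat_lit 5))) (.col (nat_lit 0)) (.node (.col (nat_lit 4)) (.slot (nat_lit 7)) (.slot (nat_lit 5)))) (.node (.col (nat_lit 2)) (.slot (nat_lit 2)) (.slot (nat_lit 2))) (.slot (nat_lit 2))) (.node (.col (nat_lit 1)) (.slot (nat_lit 0)) (.slot (nat_lit 0))) (.col (nat_lit 1))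
def w13730 : Root := .mk (.col (nat_lit 3)) (.node (.node (.node (.col (nat_lit 0)) (.col (nat_lit 4)) (.slot (nat_lit 5))) (.col (nat_lit 0)) (.slot (nat_lit 8))) (.node (.col (nat_lit 2)) (.slot (nat_lit 2)) (.slot (nat_lit 2))) (.slot (nat_lit 2))) (.node (.col (nat_lit 1)) (.slot (nat_lit 0)) (.slot (nat_lit 0))) (.col (nat_lit 1))
def w13731 : Root := .mk (.col (nat_lit 3)) (.node (.node (.node (.col (nat_lit 0)) (.node (.node .junk (.col (nat_lit 1)) (.col (nat_lit 2))) (.col (nat_lit 0)) (.slot (nat_lit 1))) (.slot (nat_lit 5))) (.col (nat_lit 0)) (.slot (nat_lit 8))) (.node (.col (nat_lit 2)) (.slot (nat_lit 2)) (.slot (nat_lit 2))) (.slot (nat_lit 2))) (.node (.col (nat_lit 1)) (.slot (nat_lit 0)) (.slot (nat_lit 0))) (.col (nat_lit 1))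
def w13732 : Root := .mk (.node (.node (.col (nat_lit 3)) (.node (.col (nat_lit 1)) (.slot (nat_lit 0)) (.slot (nat_lit 0))) (.slot (nat_lit 0))) (.node (.col (nat_lit 2)) (.slot (nat_lit 1)) (.slot (nat_lit 1))) (.col (nat_lit 0))) (.node .junk (.col (nat_lit 4)) (.slot (nat_lit 1))) (.col (nat_lit 0)) (.col (nat_lit 3))
def w13733 : Root := .mk (.node (.node (.col (nat_lit 3)) (.node (.col (nat_lit 1)) (.slot (nat_lit 1)) (.slot (nat_lit 1))) (.node (.col (nat_lit 4)) (.slot (nat_lit 1)) (.slot (nat_lit 0)))) (.node (.col (nat_lit 2)) (.slot (nat_lit 1)) .junk) (.col (nat_lit 3))) (.node .junk (.col (nat_lit 4)) (.slot (nat_lit 1))) (.col (nat_lit 0)) (.col (nat_lit 3))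
def w13734 : Root := .mk (.node (.node (.col (nat_lit 3)) (.node (.col (nat_lit 1)) (.slot (nat_lit 1)) (.slot (nat_lit 1))) (.node (.col (nat_lit 4)) (.slot (nat_lit 1)) (.slot (nat_lit 0)))) (.node (.col (nat_lit 2)) (.slot (nat_lit 0)) (.slot (nat_lit 0))) (.node (.col (nat_lit 1)) (.slot (nat_lit 0)) (.slot (nat_lit 0)))) (.node (.col (nat_lit 0)) (.col (nat_lit 4)) (.slot (nat_lit 1))) (.col (nat_lit 0)) (.col (nat_lit 3))
def w13735 : Root := .mk (.node (.node (.col (nat_lit 3)) (.node (.col (nat_lit 1)) (.slot (nat_lit 0)) (.slot (nat_lit 0))) (.slot (nat_lit 0))) (.node (.col (nat_lit 2)) (.slot (nat_lit 0)) (.slot (nat_lit 0))) (.node (.slot (nat_lit 0)) (.slot (nat_lit 0)) (.slot (nat_lit 0)))) (.node (.col (nat_lit 0)) (.col (nat_lit 4)) (.slot (nat_lit 5))) (.col (nat_lit 0)) (.col (nat_lit 3))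
def w13736 : Root := .mk (.node (.node (.node (.col (nat_lit 3)) (.node (.col (nat_lit 1)) (.slot (nat_lit 5)) (.slot (nat_lit 5))) (.node (.col (nat_lit 4)) (.slot (nat_lit 5)) (.slot (nat_lit 1)))) (.node (.col (nat_lit 2)) (.slot (nat_lit 0)) (.slot (nat_lit 0))) (.slot (nat_lit 3))) (.col (nat_lit 0)) (.col (nat_lit 3))) (.col (nat_lit 0)) (.col (nat_lit 4)) (.col (nat_lit 3))
def l3109 : Root := .mk (.col (nat_lit 3)) (.node (.node (.node (.col (nat_lit 0)) (.col (nat_lit 4)) (.slot (nat_lit 5))) (.col (nat_lit 0)) (.col (nat_lit 3))) (.col (nat_lit 4)) (.slot (nat_lit 1))) (.col (nat_lit 4)) (.node (.col (nat_lit 4)) (.slot (nat_lit 0)) (.slot (nat_lit 0)))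
def w13737 : Root := .mk (.col (nat_lit 3)) (.node (.node (.node (.col (nat_lit 0)) (.col (nat_lit 4)) (.slot (nat_lit 5))) (.col (nat_lit 0)) (.col (nat_lit 3))) (.node (.col (nat_lit 2)) (.slot (nat_lit 0)) (.slot (nat_lit 0))) (.slot (nat_lit 1))) (.col (nat_lit 4)) (.node (.col (nat_lit 4)) (.slot (nat_lit 0)) (.slot (nat_lit 0)))
def w13738 : Root := .mk (.node (.node (.col (nat_lit 3)) (.node (.col (nat_lit 1)) (.slot (nat_lit 0)) (.slot (nat_lit 0))) (.slot (nat_lit 0))) (.node (.col (nat_lit 2)) (.col (nat_lit 0)) (.slot (nat_lit 0))) (.slot (nat_lit 1))) (.node (.col (nat_lit 0)) (.col (nat_lit 4)) (.slot (nat_lit 5))) (.col (nat_lit 0)) (.col (nat_lit 3))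
def w13739 : Root := .mk (.node (.node (.col (nat_lit 3)) (.node (.col (nat_lit 1)) (.slot (nat_lit 0)) (.slot (nat_lit 0))) (.slot (nat_lit 0))) (.node (.col (nat_lit 2)) (.col (nat_lit 3)) (.slot (nat_lit 0))) (.slot (nat_lit 1))) (.node (.col (nat_lit 0)) (.col (nat_lit 4)) (.slot (nat_lit 5))) (.col (nat_lit 0)) (.col (nat_lit 3))
def l3110 : Root := .mk (.node (.node (.col (nat_lit 3)) (.node (.col (nat_lit 1)) (.slot (nat_lit 5)) (.slot (nat_lit 5))) (.node (.col (nat_lit 4)) (.slot (nat_lit 5)) (.slot (nat_lit 2)))) (.node (.col (nat_lit 2)) (.slot (nat_lit 3)) (.slot (nat_lit 3))) (.slot (nat_lit 4))) (.node (.col (nat_lit 0)) (.col (nat_lit 4)) (.slot (nat_lit 5))) (.col (nat_lit 0)) (.col (nat_lit 3))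
def w13740 : Root := .mk (.node (.node (.node (.col (nat_lit 3)) (.node (.col (nat_lit 1)) (.slot (nat_lit 5)) (.slot (nat_lit 5))) (.node (.col (nat_lit 4)) (.slot (nat_lit 5)) (.slot (nat_lit 2)))) (.node (.col (nat_lit 2)) (.slot (nat_lit 3)) (.slot (nat_lit 3))) (.slot (nat_lit 4))) (.col (nat_lit 0)) (.slot (nat_lit 1))) (.col (nat_lit 0)) (.col (nat_lit 4)) (.slot (nat_lit 5))
def w13741 : Root := .mk (.col (nat_lit 3)) (.node (.node (.node (.col (nat_lit 0)) (.node (.node .junk (.col (nat_lit 1)) (.col (nat_lit 2))) (.col (nat_lit 0)) (.slot (nat_lit 1))) (.slot (nat_lit 5))) (.col (nat_lit 0)) (.slot (nat_lit 1))) (.node (.col (nat_lit 2)) (.slot (nat_lit 3)) (.slot (nat_lit 3))) (.slot (nat_lit 4))) (.node (.col (nat_lit 1)) (.slot (nat_lit 5)) (.slot (nat_lit 5))) (.node (.col (nat_lit 4)) (.slot (nat_lit 5)) (.slot (nat_lit 2)))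
def w13742 : Root := .mk (.node (.col (nat_lit 3)) (.node (.col (nat_lit 1)) (.slot (nat_lit 1)) (.slot (nat_lit 1))) (.slot (nat_lit 2))) (.node (.node (.col (nat_lit 0)) (.node (.node .junk (.col (nat_lit 1)) (.col (nat_lit 2))) (.col (nat_lit 0)) (.slot (nat_lit 1))) (.slot (nat_lit 5))) (.col (nat_lit 0)) (.slot (nat_lit 1))) (.node (.col (nat_lit 2)) (.slot (nat_lit 1)) (.slot (nat_lit 1))) (.node (.col (nat_lit 3)) (.slot (nat_lit 0)) (.slot (nat_lit 0)))
def w13743 : Root := .mk (.col (nat_lit 4)) (.node (.node (.col (nat_lit 0)) (.node (.node .junk (.col (nat_lit 1)) (.col (nat_lit 2))) (.col (nat_lit 0)) (.slot (nat_lit 1))) (.slot (nat_lit 5))) (.col (nat_lit 0)) (.slot (nat_lit 8))) (.slot (nat_lit 0)) (.node (.slot (nat_lit 0)) (.slot (nat_lit 0)) (.slot (nat_lit 0)))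
def w13744 : Root := .mk (.node (.col (nat_lit 3)) (.node (.col (nat_lit 1)) (.slot (nat_lit 1)) (.slot (nat_lit 1))) (.slot (nat_lit 2))) (.node (.node (.col (nat_lit 0)) (.node (.node .junk (.col (nat_lit 1)) (.col (nat_lit 2))) (.col (nat_lit 0)) (.slot (nat_lit 1))) (.slot (nat_lit 5))) (.col (nat_lit 0)) (.slot (nat_lit 8))) (.slot (nat_lit 0)) (.node (.slot (nat_lit 0)) (.slot (nat_lit 0)) (.slot (nat_lit 0)))
def w13745 : Root := .mk (.node (.node (.col (nat_lit 3)) (.node (.col (nat_lit 1)) (.col (nat_lit 3)) (.slot (nat_lit 5))) (.slot (nat_lit 1))) (.node (.col (nat_lit 2)) (.slot (nat_lit 1)) (.slot (nat_lit 1))) (.col (nat_lit 1))) (.slot (nat_lit 0)) (.col (nat_lit 0)) (.col (nat_lit 1))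
def w13746 : Root := .mk (.node (.node (.col (nat_lit 3)) (.node (.col (nat_lit 1)) (.col (nat_lit 3)) (.slot (nat_lit 1))) (.slot (nat_lit 1))) (.node (.node .junk (.col (nat_lit 4)) (.col (nat_lit 1))) (.col (nat_lit 0)) (.slot (nat_lit 1))) (.col (nat_lit 1))) (.col (nat_lit 2)) (.col (nat_lit 1)) (.slot (nat_lit 0))
def w13748 : Root := .mk (.node (.col (nat_lit 3)) (.node (.col (nat_lit 1)) (.col (nat_lit 3)) (.slot (nat_lit 1))) (.slot (nat_lit 1))) (.node (.node .junk (.col (nat_lit 4)) (.col (nat_lit 1))) (.col (nat_lit 0)) (.slot (nat_lit 1))) (.node (.col (nat_lit 2)) (.slot (nat_lit 0)) (.slot (nat_lit 0))) (.col (nat_lit 1))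
def l3111 : Root := .mk (.node (.node (.node (.col (nat_lit 3)) (.node (.col (nat_lit 1)) (.col (nat_lit 3)) (.slot (nat_lit 5))) (.slot (nat_lit 9))) (.node (.col (nat_lit 2)) (.slot (nat_lit 4)) (.slot (nat_lit 2))) (.col (nat_lit 1))) (.col (nat_lit 0)) (.slot (nat_lit 2))) (.col (nat_lit 0)) (.col (nat_lit 4)) (.col (nat_lit 1))
def w13749 : Root := .mk (.node (.node (.node (.col (nat_lit 3)) (.node (.col (nat_lit 1)) (.col (nat_lit 3)) (.slot (nat_lit 5))) (.slot (nat_lit 9))) (.node (.col (nat_lit 2)) (.slot (nat_lit 4)) (.slot (nat_lit 2))) (.slot (nat_lit 1))) (.col (nat_lit 0)) (.slot (nat_lit 2))) (.col (nat_lit 0)) (.col (nat_lit 4)) (.col (nat_lit 1))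
def w13750 : Root := .mk (.node (.col (nat_lit 3)) (.node (.node (.node .junk (.col (nat_lit 4)) (.col (nat_lit 3))) (.col (nat_lit 0)) (.slot (nat_lit 1))) (.node (.col (nat_lit 2)) (.slot (nat_lit 1)) (.slot (nat_lit 0))) (.slot (nat_lit 2))) (.slot (nat_lit 1))) (.col (nat_lit 1)) (.col (nat_lit 3)) (.slot (nat_lit 3))
def w13751 : Root := .mk (.node (.node (.col (nat_lit 3)) (.node (.col (nat_lit 1)) (.col (nat_lit 3)) (.slot (nat_lit 0))) (.slot (nat_lit 1))) (.node (.col (nat_lit 2)) (.slot (nat_lit 0)) (.slot (nat_lit 0))) (.slot (nat_lit 2))) (.node (.col (nat_lit 0)) (.col (nat_lit 4)) (.node (.col (nat_lit 2)) (.slot (nat_lit 1)) .junk)) (.col (nat_lit 0)) (.col (nat_lit 4))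
def w13752 : Root := .mk (.col (nat_lit 3)) (.node (.node (.node (.col (nat_lit 0)) (.col (nat_lit 4)) (.node (.col (nat_lit 2)) .junk (.slot (nat_lit 1)))) (.col (nat_lit 0)) (.slot (nat_lit 4))) (.node (.col (nat_lit 2)) (.slot (nat_lit 1)) (.slot (nat_lit 0))) (.col (nat_lit 1))) (.slot (nat_lit 0)) (.col (nat_lit 1))
def w13753 : Root := .mk (.node (.node (.node (.col (nat_lit 3)) (.node (.col (nat_lit 1)) (.col (nat_lit 3)) (.slot (nat_lit 1))) (.node (.col (nat_lit 2)) (.slot (nat_lit 1)) (.slot (nat_lit 1)))) (.node (.col (nat_lit 2)) (.slot (nat_lit 1)) (.slot (nat_lit 1))) (.col (nat_lit 1))) (.col (nat_lit 0)) (.slot (nat_lit 0))) (.col (nat_lit 0)) (.col (nat_lit 4)) (.slot (nat_lit 0))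
def w13754 : Root := .mk (.col (nat_lit 3)) (.node (.node (.slot (nat_lit 0)) (.col (nat_lit 0)) (.slot (nat_lit 0))) (.node (.col (nat_lit 2)) (.slot (nat_lit 1)) (.slot (nat_lit 1))) (.col (nat_lit 1))) (.node (.col (nat_lit 1)) (.col (nat_lit 3)) (.slot (nat_lit 5))) (.node (.col (nat_lit 4)) (.slot (nat_lit 0)) (.slot (nat_lit 0)))
def w13755 : Root := .mk (.node (.node (.node (.col (nat_lit 3)) (.node (.col (nat_lit 1)) (.col (nat_lit 3)) (.slot (nat_lit 1))) (.slot (nat_lit 1))) (.node (.col (nat_lit 2)) (.col (nat_lit 1)) (.slot (nat_lit 0))) (.col (nat_lit 1))) (.col (nat_lit 0)) (.slot (nat_lit 2))) (.col (nat_lit 0)) (.col (nat_lit 4)) (.node (.col (nat_lit 2)) (.node (.slot (nat_lit 0)) (.slot (nat_lit 0)) (.slot (nat_lit 0))) (.slot (nat_lit 0)))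
def w13756 : Root := .mk (.node (.node (.node (.col (nat_lit 3)) (.slot (nat_lit 0)) (.slot (nat_lit 1))) (.node (.col (nat_lit 2)) (.slot (nat_lit 0)) (.slot (nat_lit 0))) (.col (nat_lit 1))) (.col (nat_lit 0)) (.slot (nat_lit 1))) (.col (nat_lit 0)) (.col (nat_lit 4)) (.node (.col (nat_lit 2)) .junk (.slot (nat_lit 1)))
def l3112 : Root := .mk (.node (.node (.node (.col (nat_lit 3)) (.node (.col (nat_lit 1)) (.col (nat_lit 3)) (.slot (nat_lit 5))) (.slot (nat_lit 4))) (.node (.col (nat_lit 2)) (.slot (nat_lit 7)) (.slot (nat_lit 5))) (.col (nat_lit 1))) (.col (nat_lit 0)) (.slot (nat_lit 4))) (.col (nat_lit 0)) (.col (nat_lit 4)) (.node (.col (nat_lit 2)) (.node (.slot (nat_lit 0)) (.slot (nat_lit 0)) (.slot (nat_lit 0))) (.slot (nat_lit 0)))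
def w13757 : Root := .mk (.node (.node (.node (.col (nat_lit 3)) (.node (.col (nat_lit 1)) (.col (nat_lit 3)) (.slot (nat_lit 5))) (.slot (nat_lit 4))) (.node (.col (nat_lit 2)) (.slot (nat_lit 7)) (.slot (nat_lit 5))) (.slot (nat_lit 1))) (.col (nat_lit 0)) (.slot (nat_lit 4))) (.col (nat_lit 0)) (.col (nat_lit 4)) (.node (.col (nat_lit 2)) (.node (.slot (nat_lit 0)) (.slot (nat_lit 0)) (.slot (nat_lit 0))) (.slot (nat_lit 0)))
def l3113 : Root := .mk (.node (.node (.node (.col (nat_lit 3)) (.node (.col (nat_lit 1)) (.col (nat_lit 3)) (.slot (nat_lit 8))) (.slot (nat_lit 9))) (.node (.col (nat_lit 2)) (.slot (nat_lit 7)) (.slot (nat_lit 5))) (.slot (nat_lit 8))) (.col (nat_lit 0)) (.slot (nat_lit 5))) (.col (nat_lit 0)) (.col (nat_lit 4)) (.node (.col (nat_lit 2)) (.slot (nat_lit 12)) (.slot (nat_lit 12)))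
def w13758 : Root := .mk (.node (.node (.node (.col (nat_lit 3)) (.node (.col (nat_lit 1)) (.col (nat_lit 3)) (.slot (nat_lit 8))) (.slot (nat_lit 9))) (.node (.col (nat_lit 2)) (.slot (nat_lit 7)) (.slot (nat_lit 5))) (.slot (nat_lit 8))) (.col (nat_lit 0)) (.slot (nat_lit 5))) (.col (nat_lit 0)) (.col (nat_lit 4)) (.slot (nat_lit 13))
def w13759 : Root := .mk (.node (.col (nat_lit 3)) (.node (.node (.node (.col (nat_lit 0)) (.node (.node .junk (.col (nat_lit 1)) (.col (nat_lit 2))) (.col (nat_lit 0)) (.slot (nat_lit 1))) (.slot (nat_lit 13))) (.col (nat_lit 0)) (.slot (nat_lit 5))) (.node (.col (nat_lit 2)) (.slot (nat_lit 7)) (.slot (nat_lit 5))) (.slot (nat_lit 8))) (.slot (nat_lit 9))) (.col (nat_lit 1)) (.col (nat_lit 3)) (.slot (nat_lit 8))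
def w13760 : Root := .mk (.node (.col (nat_lit 3)) (.node (.node (.node (.col (nat_lit 0)) (.node (.node .junk (.col (nat_lit 1)) (.col (nat_lit 2))) (.col (nat_lit 0)) (.slot (nat_lit 1))) (.slot (nat_lit 5))) (.col (nat_lit 0)) (.slot (nat_lit 8))) (.slot (nat_lit 0)) (.slot (nat_lit 1))) (.slot (nat_lit 2))) (.col (nat_lit 1)) (.node (.col (nat_lit 1)) (.slot (nat_lit 0)) (.slot (nat_lit 0))) (.slot (nat_lit 2))
def w13761 : Root := .mk (.node (.col (nat_lit 4)) (.node (.col (nat_lit 2)) (.slot (nat_lit 1)) (.slot (nat_lit 0))) (.slot (nat_lit 2))) (.node (.col (nat_lit 0)) (.node (.node .junk (.col (nat_lit 1)) (.col (nat_lit 2))) (.col (nat_lit 0)) (.slot (nat_lit 1))) (.slot (nat_lit 3))) (.col (nat_lit 0)) (.node (.col (nat_lit 0)) (.slot (nat_lit 0)) (.slot (nat_lit 0)))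
def w13762 : Root := .mk (.node (.node (.col (nat_lit 3)) (.node (.col (nat_lit 1)) (.slot (nat_lit 1)) (.slot (nat_lit 1))) (.slot (nat_lit 2))) (.node (.col (nat_lit 2)) (.slot (nat_lit 1)) (.slot (nat_lit 0))) (.slot (nat_lit 2))) (.node (.col (nat_lit 0)) (.node (.node .junk (.col (nat_lit 1)) (.col (nat_lit 2))) (.col (nat_lit 0)) (.slot (nat_lit 1))) (.slot (nat_lit 3))) (.col (nat_lit 0)) (.node (.col (nat_lit 0)) (.slot (nat_lit 0)) (.slot (nat_lit 0)))
def w13763 : Root := .mk (.node (.col (nat_lit 4)) (.node (.col (nat_lit 2)) (.slot (nat_lit 1)) (.slot (nat_lit 0))) (.slot (nat_lit 2))) (.node (.col (nat_lit 0)) (.node (.node .junk (.col (nat_lit 1)) (.col (nat_lit 2))) (.col (nat_lit 0)) (.slot (nat_lit 1))) (.slot (nat_lit 3))) (.col (nat_lit 0)) (.node (.slot (nat_lit 0)) (.slot (nat_lit 0)) (.slot (nat_lit 0)))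
def w13764 : Root := .mk (.node (.node (.col (nat_lit 3)) (.node (.col (nat_lit 1)) (.slot (nat_lit 1)) (.slot (nat_lit 1))) (.slot (nat_lit 2))) (.node (.col (nat_lit 2)) (.slot (nat_lit 1)) (.slot (nat_lit 0))) (.slot (nat_lit 2))) (.node (.col (nat_lit 0)) (.node (.node .junk (.col (nat_lit 1)) (.col (nat_lit 2))) (.col (nat_lit 0)) (.slot (nat_lit 1))) (.slot (nat_lit 3))) (.col (nat_lit 0)) (.node (.slot (nat_lit 0)) (.slot (nat_lit 0)) (.slot (nat_lit 0)))
def w13765 : Root := .mk (.node (.node (.node (.col (nat_lit 3)) (.node (.col (nat_lit 1)) (.slot (nat_lit 3)) (.slot (nat_lit 3))) (.slot (nat_lit 1))) (.node (.col (nat_lit 2)) (.slot (nat_lit 3)) (.slot (nat_lit 3))) (.slot (nat_lit 5))) (.col (nat_lit 0)) (.slot (nat_lit 1))) (.col (nat_lit 0)) (.node (.slot (nat_lit 0)) (.col (nat_lit 0)) (.slot (nat_lit 0))) (.col (nat_lit 1))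
def w13766 : Root := .mk (.node (.node (.node (.col (nat_lit 3)) (.node (.col (nat_lit 1)) (.slot (nat_lit 2)) (.slot (nat_lit 2))) (.slot (nat_lit 1))) (.node (.col (nat_lit 2)) (.slot (nat_lit 1)) (.slot (nat_lit 0))) (.slot (nat_lit 1))) (.col (nat_lit 0)) (.slot (nat_lit 1))) (.col (nat_lit 0)) (.node (.node .junk (.col (nat_lit 1)) (.col (nat_lit 2))) (.col (nat_lit 0)) (.slot (nat_lit 1))) (.col (nat_lit 2))
def w13767 : Root := .mk (.node (.node (.node (.col (nat_lit 3)) (.node (.col (nat_lit 1)) (.slot (nat_lit 8)) (.slot (nat_lit 8))) (.slot (nat_lit 9))) (.node (.col (nat_lit 2)) (.slot (nat_lit 3)) (.slot (nat_lit 3))) (.slot (nat_lit 8))) (.col (nat_lit 0)) (.slot (nat_lit 4))) (.col (nat_lit 0)) (.node (.slot (nat_lit 0)) (.col (nat_lit 0)) (.slot (nat_lit 0))) (.col (nat_lit 3))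
def l3114 : Root := .mk (.col (nat_lit 3)) (.node (.node (.node (.col (nat_lit 0)) (.node (.node .junk (.col (nat_lit 1)) (.col (nat_lit 2))) (.col (nat_lit 0)) (.slot (nat_lit 1))) (.slot (nat_lit 13))) (.col (nat_lit 0)) (.slot (nat_lit 8))) (.node (.col (nat_lit 2)) (.slot (nat_lit 7)) (.slot (nat_lit 5))) (.slot (nat_lit 8))) (.node (.col (nat_lit 1)) (.slot (nat_lit 8)) (.slot (nat_lit 8))) (.slot (nat_lit 9))
def w13768 : Root := .mk (.node (.node (.node (.node (.node (.col (nat_lit 3)) (.slot (nat_lit 9)) (.slot (nat_lit 9))) (.node (.col (nat_lit 2)) (.slot (nat_lit 7)) (.slot (nat_lit 5))) (.slot (nat_lit 8))) (.col (nat_lit 0)) (.slot (nat_lit 8))) (.col (nat_lit 0)) (.slot (nat_lit 13))) (.col (nat_lit 0)) (.slot (nat_lit 1))) .junk (.col (nat_lit 1)) (.col (nat_lit 2))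
def w13770 : Root := .mk (.node (.node (.col (nat_lit 1)) .junk (.col (nat_lit 2))) (.col (nat_lit 0)) (.slot (nat_lit 1))) (.col (nat_lit 0)) (.node (.node .junk (.col (nat_lit 1)) (.col (nat_lit 4))) (.col (nat_lit 0)) (.slot (nat_lit 1))) (.node (.col (nat_lit 2)) (.slot (nat_lit 1)) .junk)
def w13771 : Root := .mk (.col (nat_lit 1)) (.node (.node (.col (nat_lit 0)) (.node (.node .junk (.col (nat_lit 1)) (.col (nat_lit 4))) (.col (nat_lit 0)) (.slot (nat_lit 1))) (.node (.col (nat_lit 2)) (.slot (nat_lit 1)) (.slot (nat_lit 1)))) (.col (nat_lit 0)) (.slot (nat_lit 1))) (.node (.col (nat_lit 2)) (.slot (nat_lit 1)) (.slot (nat_lit 1))) (.node (.col (nat_lit 3)) (.slot (nat_lit 1)) (.slot (nat_lit 0)))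
def w13774 : Root := .mk (.node (.col (nat_lit 1)) (.slot (nat_lit 0)) (.slot (nat_lit 0))) (.node (.col (nat_lit 0)) (.node (.node .junk (.col (nat_lit 1)) (.col (nat_lit 4))) (.col (nat_lit 0)) (.slot (nat_lit 1))) (.node (.col (nat_lit 2)) (.slot (nat_lit 1)) (.slot (nat_lit 1)))) (.col (nat_lit 0)) (.col (nat_lit 1))
def w13775 : Root := .mk (.col (nat_lit 4)) (.node (.col (nat_lit 0)) (.node (.node .junk (.col (nat_lit 1)) (.col (nat_lit 4))) (.col (nat_lit 0)) (.slot (nat_lit 1))) (.node (.col (nat_lit 2)) (.slot (nat_lit 1)) (.slot (nat_lit 1)))) (.col (nat_lit 0)) (.node (.col (nat_lit 0)) (.slot (nat_lit 0)) (.slot (nat_lit 0)))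
def w13790 : Root := .mk (.node (.node (.node (.col (nat_lit 3)) (.node (.col (nat_lit 1)) (.slot (nat_lit 1)) (.slot (nat_lit 1))) (.slot (nat_lit 2))) (.col (nat_lit 3)) (.slot (nat_lit 2))) (.col (nat_lit 0)) (.slot (nat_lit 1))) (.col (nat_lit 0)) (.slot (nat_lit 0)) (.col (nat_lit 3))
def w13792 : Root := .mk (.node (.node (.node (.col (nat_lit 3)) (.slot (nat_lit 0)) (.slot (nat_lit 1))) (.node (.col (nat_lit 2)) (.slot (nat_lit 1)) (.slot (nat_lit 1))) (.col (nat_lit 4))) (.col (nat_lit 0)) (.slot (nat_lit 1))) (.col (nat_lit 0)) (.node (.node .junk (.col (nat_lit 1)) (.col (nat_lit 4))) (.col (nat_lit 0)) (.slot (nat_lit 1))) (.col (nat_lit 3))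
def w13793 : Root := .mk (.node (.col (nat_lit 3)) (.node (.col (nat_lit 1)) (.slot (nat_lit 1)) (.slot (nat_lit 1))) (.slot (nat_lit 2))) (.node (.slot (nat_lit 0)) (.col (nat_lit 0)) (.slot (nat_lit 1))) (.node (.col (nat_lit 2)) (.slot (nat_lit 5)) (.slot (nat_lit 1))) (.node (.col (nat_lit 0)) (.slot (nat_lit 3)) (.slot (nat_lit 1)))
def w13801 : Root := .mk (.node (.node (.col (nat_lit 3)) (.node (.col (nat_lit 1)) (.slot (nat_lit 1)) (.slot (nat_lit 1))) (.slot (nat_lit 3))) (.node (.col (nat_lit 2)) (.slot (nat_lit 0)) (.slot (nat_lit 0))) (.slot (nat_lit 1))) (.node (.col (nat_lit 0)) (.slot (nat_lit 0)) (.col (nat_lit 3))) (.col (nat_lit 0)) (.col (nat_lit 3))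
def w13804 : Root := .mk (.node (.node (.node (.col (nat_lit 3)) (.node (.col (nat_lit 1)) (.slot (nat_lit 2)) (.slot (nat_lit 2))) (.slot (nat_lit 1))) (.node (.col (nat_lit 2)) (.slot (nat_lit 1)) (.slot (nat_lit 0))) (.slot (nat_lit 1))) (.col (nat_lit 0)) (.node (.col (nat_lit 4)) (.slot (nat_lit 1)) (.slot (nat_lit 1)))) (.col (nat_lit 0)) (.node (.slot (nat_lit 0)) (.col (nat_lit 0)) (.slot (nat_lit 0))) (.col (nat_lit 3))
def w13805 : Root := .mk (.node (.node (.node (.col (nat_lit 3)) (.node (.col (nat_lit 1)) (.slot (nat_lit 8)) (.slot (nat_lit 8))) (.slot (nat_lit 9))) (.node (.col (nat_lit 2)) (.slot (nat_lit 3)) (.slot (nat_lit 3))) (.slot (nat_lit 8))) (.col (nat_lit 0)) (.slot (nat_lit 4))) (.col (nat_lit 0)) (.node (.col (nat_lit 3)) (.col (nat_lit 0)) (.slot (nat_lit 0))) (.col (nat_lit 3))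
def w13807 : Root := .mk (.node (.node (.node (.node (.col (nat_lit 3)) (.node (.col (nat_lit 1)) (.slot (nat_lit 8)) (.slot (nat_lit 8))) (.slot (nat_lit 9))) (.node (.col (nat_lit 2)) (.slot (nat_lit 3)) (.slot (nat_lit 3))) (.slot (nat_lit 8))) (.col (nat_lit 0)) (.slot (nat_lit 4))) (.col (nat_lit 0)) (.col (nat_lit 3))) (.slot (nat_lit 0)) (.col (nat_lit 0)) (.col (nat_lit 2))
def w13808 : Root := .mk (.node (.node (.node (.node (.col (nat_lit 3)) (.node (.col (nat_lit 1)) (.slot (nat_lit 8)) (.slot (nat_lit 8))) (.slot (nat_lit 9))) (.node (.col (nat_lit 2)) (.slot (nat_lit 3)) (.slot (nat_lit 3))) (.slot (nat_lit 8))) (.col (nat_lit 0)) (.slot (nat_lit 4))) (.col (nat_lit 0)) (.col (nat_lit 3))) (.slot (nat_lit 0)) (.col (nat_lit 0)) (.col (nat_lit 4))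
def w13810 : Root := .mk (.node (.col (nat_lit 3)) (.col (nat_lit 0)) (.slot (nat_lit 0))) (.col (nat_lit 0)) (.node (.node .junk (.col (nat_lit 1)) (.col (nat_lit 4))) (.col (nat_lit 0)) (.slot (nat_lit 1))) (.node (.col (nat_lit 2)) (.col (nat_lit 3)) .junk)
def l3117 : Root := .mk (.node (.node (.node (.col (nat_lit 3)) (.col (nat_lit 0)) (.slot (nat_lit 1))) (.col (nat_lit 0)) (.node (.col (nat_lit 2)) (.col (nat_lit 3)) (.slot (nat_lit 3)))) (.col (nat_lit 0)) (.slot (nat_lit 3))) (.col (nat_lit 0)) (.col (nat_lit 1)) (.col (nat_lit 4))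
def w13811 : Root := .mk (.node (.node (.node (.col (nat_lit 3)) (.col (nat_lit 0)) (.slot (nat_lit 1))) (.col (nat_lit 0)) (.node (.col (nat_lit 2)) (.slot (nat_lit 1)) (.slot (nat_lit 3)))) (.col (nat_lit 0)) (.slot (nat_lit 3))) (.col (nat_lit 0)) (.col (nat_lit 1)) (.col (nat_lit 4))
def w13814 : Root := .mk (.col (nat_lit 1)) (.node (.node (.col (nat_lit 0)) (.node (.node .junk (.col (nat_lit 1)) (.col (nat_lit 4))) (.col (nat_lit 0)) (.slot (nat_lit 1))) (.node (.col (nat_lit 2)) (.slot (nat_lit 7)) (.slot (nat_lit 5)))) (.col (nat_lit 0)) (.node (.col (nat_lit 0)) (.slot (nat_lit 1)) (.slot (nat_lit 1)))) (.slot (nat_lit 0)) (.slot (nat_lit 0))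
def l3121 : Root := .mk (.node (.node (.col (nat_lit 1)) (.col (nat_lit 3)) (.slot (nat_lit 3))) (.col (nat_lit 0)) (.node (.col (nat_lit 0)) (.slot (nat_lit 0)) (.slot (nat_lit 0)))) (.col (nat_lit 0)) (.col (nat_lit 3)) (.node (.col (nat_lit 2)) (.node (.col (nat_lit 2)) (.slot (nat_lit 0)) (.slot (nat_lit 0))) (.slot (nat_lit 1)))
def w13829 : Root := .mk (.slot (nat_lit 0)) (.col (nat_lit 0)) (.node (.node .junk (.col (nat_lit 1)) (.col (nat_lit 4))) (.col (nat_lit 0)) (.slot (nat_lit 1))) (.node (.col (nat_lit 2)) (.node (.col (nat_lit 3)) (.slot (nat_lit 3)) (.slot (nat_lit 1))) (.slot (nat_lit 1)))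
def w13834 : Root := .mk (.col (nat_lit 1)) (.node (.node (.col (nat_lit 0)) (.node (.node .junk (.col (nat_lit 1)) (.col (nat_lit 4))) (.col (nat_lit 0)) (.slot (nat_lit 1))) (.node (.col (nat_lit 2)) (.slot (nat_lit 7)) (.slot (nat_lit 5)))) (.col (nat_lit 0)) (.node (.slot (nat_lit 0)) (.slot (nat_lit 1)) (.slot (nat_lit 1)))) (.slot (nat_lit 0)) (.slot (nat_lit 0))
def w13836 : Root := .mk (.node (.node (.col (nat_lit 1)) (.node (.col (nat_lit 2)) (.slot (nat_lit 0)) (.slot (nat_lit 0))) (.slot (nat_lit 3))) (.col (nat_lit 0)) (.node (.slot (nat_lit 0)) (.slot (nat_lit 1)) (.slot (nat_lit 0)))) (.col (nat_lit 0)) (.node (.node .junk (.col (nat_lit 1)) (.col (nat_lit 4))) (.col (nat_lit 0)) (.slot (nat_lit 1))) (.col (nat_lit 4))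
def w13858 : Root := .mk (.node (.node (.col (nat_lit 3)) (.slot (nat_lit 3)) (.slot (nat_lit 1))) (.node (.node .junk (.col (nat_lit 2)) (.col (nat_lit 3))) (.col (nat_lit 0)) (.slot (nat_lit 1))) (.slot (nat_lit 1))) (.col (nat_lit 2)) (.col (nat_lit 3)) (.slot (nat_lit 0))
def w13880 : Root := .mk (.col (nat_lit 3)) (.node (.node (.node (.col (nat_lit 0)) (.slot (nat_lit 0)) (.slot (nat_lit 0))) (.col (nat_lit 0)) (.slot (nat_lit 3))) (.node (.col (nat_lit 2)) (.slot (nat_lit 3)) (.slot (nat_lit 1))) (.slot (nat_lit 8))) (.node (.col (nat_lit 2)) (.slot (nat_lit 1)) (.slot (nat_lit 1))) (.node (.col (nat_lit 0)) (.slot (nat_lit 1)) (.slot (nat_lit 0)))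
def l3127 : Root := .mk (.node (.node (.col (nat_lit 3)) (.col (nat_lit 4)) (.slot (nat_lit 0))) (.node (.col (nat_lit 2)) (.slot (nat_lit 1)) (.slot (nat_lit 1))) (.col (nat_lit 2))) (.node (.col (nat_lit 0)) (.col (nat_lit 2)) (.slot (nat_lit 5))) (.col (nat_lit 0)) (.col (nat_lit 3))
def w13884 : Root := .mk (.node (.node (.node (.col (nat_lit 3)) (.slot (nat_lit 0)) (.slot (nat_lit 0))) (.node (.col (nat_lit 2)) (.slot (nat_lit 0)) (.slot (nat_lit 0))) (.col (nat_lit 2))) (.col (nat_lit 0)) (.col (nat_lit 3))) (.col (nat_lit 0)) (.col (nat_lit 2)) (.node (.col (nat_lit 0)) (.slot (nat_lit 0)) (.slot (nat_lit 0)))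
def l3129 : Root := .mk (.node (.node (.col (nat_lit 3)) (.node (.col (nat_lit 2)) (.slot (nat_lit 0)) (.slot (nat_lit 0))) (.slot (nat_lit 0))) (.node (.col (nat_lit 2)) (.slot (nat_lit 1)) (.slot (nat_lit 1))) (.col (nat_lit 2))) (.node (.col (nat_lit 0)) (.col (nat_lit 2)) (.slot (nat_lit 5))) (.col (nat_lit 0)) (.col (nat_lit 3))
def w13889 : Root := .mk (.node (.node (.col (nat_lit 3)) (.node (.col (nat_lit 2)) (.slot (nat_lit 0)) (.slot (nat_lit 0))) (.slot (nat_lit 0))) (.node (.col (nat_lit 2)) (.slot (nat_lit 1)) (.slot (nat_lit 1))) (.slot (nat_lit 1))) (.node (.col (nat_lit 0)) (.col (nat_lit 2)) (.slot (nat_lit 5))) (.col (nat_lit 0)) (.col (nat_lit 3))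
def w13890 : Root := .mk (.node (.col (nat_lit 3)) (.slot (nat_lit 0)) (.slot (nat_lit 0))) (.node (.col (nat_lit 3)) (.col (nat_lit 0)) (.slot (nat_lit 5))) (.node (.col (nat_lit 2)) (.slot (nat_lit 0)) (.slot (nat_lit 0))) (.col (nat_lit 2))
def w13893 : Root := .mk (.node (.node (.col (nat_lit 3)) (.slot (nat_lit 0)) (.slot (nat_lit 0))) (.node (.slot (nat_lit 0)) (.col (nat_lit 0)) (.slot (nat_lit 0))) (.node (.col (nat_lit 4)) (.slot (nat_lit 1)) (.slot (nat_lit 0)))) (.col (nat_lit 2)) (.node (.col (nat_lit 1)) (.slot (nat_lit 3)) (.slot (nat_lit 3))) (.col (nat_lit 0))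
def l3130 : Root := .mk (.node (.node (.node (.col (nat_lit 3)) (.node (.col (nat_lit 2)) .junk .junk) (.slot (nat_lit 0))) (.node (.col (nat_lit 2)) (.node (.col (nat_lit 1)) (.slot (nat_lit 5)) (.slot (nat_lit 7))) (.col (nat_lit 0))) (.slot (nat_lit 3))) (.col (nat_lit 0)) (.slot (nat_lit 1))) (.col (nat_lit 0)) (.col (nat_lit 2)) (.col (nat_lit 1))
def w13894 : Root := .mk (.node (.node (.node (.col (nat_lit 3)) (.node (.col (nat_lit 2)) .junk .junk) (.slot (nat_lit 0))) (.node (.col (nat_lit 2)) (.node (.col (nat_lit 1)) (.slot (nat_lit 7)) (.slot (nat_lit 5))) (.slot (nat_lit 1))) (.slot (nat_lit 3))) (.col (nat_lit 0)) (.slot (nat_lit 1))) (.col (nat_lit 0)) (.col (nat_lit 2)) (.col (nat_lit 1))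
def w13896 : Root := .mk (.col (nat_lit 3)) (.node (.node (.node (.col (nat_lit 0)) (.col (nat_lit 2)) (.slot (nat_lit 0))) (.col (nat_lit 0)) (.slot (nat_lit 3))) (.node (.col (nat_lit 2)) (.node (.col (nat_lit 1)) (.slot (nat_lit 1)) (.slot (nat_lit 1))) (.slot (nat_lit 2))) (.slot (nat_lit 1))) (.col (nat_lit 0)) (.slot (nat_lit 0))
def w13897 : Root := .mk (.node (.node (.col (nat_lit 3)) (.slot (nat_lit 0)) (.slot (nat_lit 0))) (.node (.col (nat_lit 2)) (.node (.col (nat_lit 1)) (.slot (nat_lit 2)) (.slot (nat_lit 1))) (.slot (nat_lit 1))) (.slot (nat_lit 1))) (.node .junk (.col (nat_lit 2)) (.slot (nat_lit 1))) (.col (nat_lit 0)) (.col (nat_lit 4))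
def w13901 : Root := .mk (.node (.node (.node (.node (.node (.col (nat_lit 3)) (.slot (nat_lit 3)) (.slot (nat_lit 1))) (.node (.col (nat_lit 2)) (.slot (nat_lit 3)) (.slot (nat_lit 1))) (.slot (nat_lit 8))) (.col (nat_lit 0)) (.slot (nat_lit 2))) (.col (nat_lit 0)) (.slot (nat_lit 8))) (.col (nat_lit 0)) (.slot (nat_lit 1))) .junk (.col (nat_lit 1)) (.col (nat_lit 4))
def w13902 : Root := .mk (.node (.node (.node (.node (.node (.col (nat_lit 3)) (.slot (nat_lit 9)) (.slot (nat_lit 8))) (.node (.col (nat_lit 2)) (.slot (nat_lit 7)) (.slot (nat_lit 5))) (.slot (nat_lit 8))) (.col (nat_lit 0)) (.slot (nat_lit 8))) (.col (nat_lit 0)) (.slot (nat_lit 13))) (.col (nat_lit 0)) (.slot (nat_lit 3))) (.col (nat_lit 0)) (.col (nat_lit 1)) (.node (.col (nat_lit 0)) (.slot (nat_lit 3)) (.slot (nat_lit 1)))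
def w13903 : Root := .mk (.node (.node (.node (.node (.node (.col (nat_lit 3)) (.slot (nat_lit 9)) (.slot (nat_lit 8))) (.node (.col (nat_lit 2)) (.slot (nat_lit 7)) (.slot (nat_lit 5))) (.slot (nat_lit 8))) (.col (nat_lit 0)) (.slot (nat_lit 8))) (.col (nat_lit 0)) (.slot (nat_lit 13))) (.col (nat_lit 0)) (.slot (nat_lit 3))) (.col (nat_lit 0)) (.col (nat_lit 1)) (.node (.col (nat_lit 1)) (.slot (nat_lit 3)) (.slot (nat_lit 1)))
def w13904 : Root := .mk (.node (.node (.col (nat_lit 3)) (.slot (nat_lit 1)) (.slot (nat_lit 1))) (.node (.node (.col (nat_lit 0)) (.node (.node (.col (nat_lit 0)) (.col (nat_lit 1)) (.node (.slot (nat_lit 0)) (.slot (nat_lit 1)) (.slot (nat_lit 1)))) (.col (nat_lit 0)) (.slot (nat_lit 8))) (.slot (nat_lit 4))) (.col (nat_lit 0)) (.slot (nat_lit 8))) (.slot (nat_lit 2))) (.col (nat_lit 2)) (.node (.col (nat_lit 1)) (.slot (nat_lit 0)) (.slot (nat_lit 0))) (.col (nat_lit 1))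
def w13905 : Root := .mk (.node (.node (.node (.node (.node (.col (nat_lit 3)) (.slot (nat_lit 1)) (.slot (nat_lit 1))) (.node (.col (nat_lit 2)) (.node (.col (nat_lit 1)) (.slot (nat_lit 0)) (.slot (nat_lit 0))) (.node (.col (nat_lit 4)) (.slot (nat_lit 4)) (.slot (nat_lit 4)))) (.slot (nat_lit 2))) (.col (nat_lit 0)) (.slot (nat_lit 2))) (.col (nat_lit 0)) (.slot (nat_lit 4))) (.col (nat_lit 0)) (.slot (nat_lit 8))) (.col (nat_lit 0)) (.col (nat_lit 1)) (.node (.slot (nat_lit 0)) (.slot (nat_lit 1)) (.slot (nat_lit 1)))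
def w13906 : Root := .mk (.node (.col (nat_lit 3)) (.slot (nat_lit 0)) (.slot (nat_lit 0))) (.node (.col (nat_lit 1)) (.col (nat_lit 0)) .junk) (.node (.col (nat_lit 2)) (.node (.col (nat_lit 1)) (.slot (nat_lit 1)) (.slot (nat_lit 1))) (.slot (nat_lit 2))) (.col (nat_lit 4))
def l3131 : Root := .mk (.node (.node (.col (nat_lit 3)) (.slot (nat_lit 7)) (.slot (nat_lit 5))) (.node (.col (nat_lit 2)) (.node (.col (nat_lit 1)) (.slot (nat_lit 1)) (.slot (nat_lit 1))) (.slot (nat_lit 3))) (.col (nat_lit 4))) (.col (nat_lit 1)) (.col (nat_lit 0)) (.slot (nat_lit 6))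
def w13907 : Root := .mk (.node (.col (nat_lit 3)) (.slot (nat_lit 7)) (.slot (nat_lit 5))) (.node (.node (.col (nat_lit 0)) (.slot (nat_lit 0)) (.slot (nat_lit 0))) (.col (nat_lit 0)) (.slot (nat_lit 6))) (.node (.col (nat_lit 2)) (.node (.col (nat_lit 1)) (.slot (nat_lit 1)) (.slot (nat_lit 1))) (.slot (nat_lit 3))) (.col (nat_lit 4))
def w13908 : Root := .mk (.node (.node (.node (.node (.node (.col (nat_lit 3)) (.slot (nat_lit 0)) (.slot (nat_lit 0))) (.node (.col (nat_lit 2)) (.node (.col (nat_lit 1)) (.slot (nat_lit 1)) (.slot (nat_lit 1))) (.slot (nat_lit 2))) (.node (.col (nat_lit 2)) (.slot (nat_lit 1)) (.slot (nat_lit 0)))) (.col (nat_lit 0)) (.slot (nat_lit 3))) (.col (nat_lit 0)) (.slot (nat_lit 4))) (.col (nat_lit 0)) (.slot (nat_lit 8))) (.col (nat_lit 0)) (.col (nat_lit 1)) (.node (.slot (nat_lit 0)) (.slot (nat_lit 1)) (.slot (nat_lit 1)))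
def w13909 : Root := .mk (.node (.node (.node (.node (.node (.col (nat_lit 3)) (.slot (nat_lit 0)) (.slot (nat_lit 0))) (.node (.col (nat_lit 2)) (.node (.col (nat_lit 1)) (.slot (nat_lit 1)) (.slot (nat_lit 1))) (.slot (nat_lit 2))) (.node (.slot (nat_lit 0)) (.slot (nat_lit 1)) (.slot (nat_lit 0)))) (.col (nat_lit 0)) (.slot (nat_lit 2))) (.col (nat_lit 0)) (.slot (nat_lit 4))) (.col (nat_lit 0)) (.slot (nat_lit 8))) (.col (nat_lit 0)) (.col (nat_lit 1)) (.node (.slot (nat_lit 0)) (.slot (nat_lit 1)) (.slot (nat_lit 1)))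
def w13910 : Root := .mk (.node (.node (.node (.node (.node (.col (nat_lit 3)) (.slot (nat_lit 3)) (.slot (nat_lit 3))) (.node (.col (nat_lit 2)) (.node (.col (nat_lit 1)) (.col (nat_lit 2)) (.slot (nat_lit 8))) (.slot (nat_lit 8))) (.slot (nat_lit 5))) (.col (nat_lit 0)) (.slot (nat_lit 8))) (.col (nat_lit 0)) (.slot (nat_lit 4))) (.col (nat_lit 0)) (.slot (nat_lit 8))) (.col (nat_lit 0)) (.col (nat_lit 1)) (.node (.slot (nat_lit 0)) (.slot (nat_lit 1)) (.slot (nat_lit 1)))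
def w13911 : Root := .mk (.node (.node (.node (.node (.node (.col (nat_lit 3)) (.slot (nat_lit 0)) (.slot (nat_lit 0))) (.node (.col (nat_lit 2)) (.node (.col (nat_lit 1)) (.node (.col (nat_lit 1)) (.slot (nat_lit 0)) (.slot (nat_lit 0))) (.slot (nat_lit 2))) (.slot (nat_lit 2))) (.slot (nat_lit 2))) (.col (nat_lit 0)) (.slot (nat_lit 2))) (.col (nat_lit 0)) (.slot (nat_lit 4))) (.col (nat_lit 0)) (.slot (nat_lit 8))) (.col (nat_lit 0)) (.col (nat_lit 1)) (.node (.slot (nat_lit 0)) (.slot (nat_lit 1)) (.slot (nat_lit 1)))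
def w13912 : Root := .mk (.node (.node (.node (.node (.node (.col (nat_lit 3)) (.slot (nat_lit 1)) (.slot (nat_lit 1))) (.node (.col (nat_lit 2)) (.node (.col (nat_lit 1)) (.slot (nat_lit 1)) (.slot (nat_lit 1))) (.slot (nat_lit 2))) (.slot (nat_lit 2))) (.col (nat_lit 0)) (.node (.col (nat_lit 0)) (.slot (nat_lit 0)) (.slot (nat_lit 0)))) (.col (nat_lit 0)) (.slot (nat_lit 4))) (.col (nat_lit 0)) (.slot (nat_lit 8))) (.col (nat_lit 0)) (.col (nat_lit 1)) (.node (.slot (nat_lit 0)) (.slot (nat_lit 1)) (.slot (nat_lit 1)))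
def w13913 : Root := .mk (.node (.node (.node (.node (.node (.col (nat_lit 3)) (.slot (nat_lit 1)) (.slot (nat_lit 1))) (.node (.col (nat_lit 2)) (.node (.col (nat_lit 1)) (.slot (nat_lit 1)) (.slot (nat_lit 1))) (.slot (nat_lit 2))) (.slot (nat_lit 2))) (.col (nat_lit 0)) (.node (.slot (nat_lit 0)) (.slot (nat_lit 0)) (.slot (nat_lit 0)))) (.col (nat_lit 0)) (.slot (nat_lit 4))) (.col (nat_lit 0)) (.slot (nat_lit 8))) (.col (nat_lit 0)) (.col (nat_lit 1)) (.node (.slot (nat_lit 0)) (.slot (nat_lit 1)) (.slot (nat_lit 1)))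
def l3132 : Root := .mk (.node (.node (.node (.node (.node (.col (nat_lit 3)) (.slot (nat_lit 7)) (.slot (nat_lit 5))) (.node (.col (nat_lit 2)) (.node (.col (nat_lit 1)) (.slot (nat_lit 8)) (.slot (nat_lit 8))) (.slot (nat_lit 8))) (.slot (nat_lit 8))) (.col (nat_lit 0)) (.slot (nat_lit 8))) (.col (nat_lit 0)) (.slot (nat_lit 5))) (.col (nat_lit 0)) (.slot (nat_lit 8))) (.col (nat_lit 0)) (.col (nat_lit 1)) (.node (.slot (nat_lit 0)) (.slot (nat_lit 1)) (.slot (nat_lit 1)))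
def w13914 : Root := .mk (.node (.node (.node (.node (.node (.col (nat_lit 3)) (.slot (nat_lit 7)) (.slot (nat_lit 5))) (.node (.col (nat_lit 2)) (.slot (nat_lit 9)) (.slot (nat_lit 8))) (.slot (nat_lit 8))) (.col (nat_lit 0)) (.slot (nat_lit 8))) (.col (nat_lit 0)) (.slot (nat_lit 5))) (.col (nat_lit 0)) (.slot (nat_lit 8))) (.col (nat_lit 0)) (.col (nat_lit 1)) (.node (.slot (nat_lit 0)) (.slot (nat_lit 1)) (.slot (nat_lit 1)))
def w13915 : Root := .mk (.node (.node (.node (.node (.col (nat_lit 3)) (.slot (nat_lit 1)) (.slot (nat_lit 1))) (.node (.col (nat_lit 2)) (.slot (nat_lit 3)) (.slot (nat_lit 1))) (.slot (nat_lit 2))) (.col (nat_lit 0)) (.slot (nat_lit 3))) (.col (nat_lit 0)) (.slot (nat_lit 8))) (.node (.col (nat_lit 0)) (.col (nat_lit 1)) (.slot (nat_lit 0))) (.col (nat_lit 0)) (.col (nat_lit 1))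
def w13916 : Root := .mk (.node (.node (.node (.node (.col (nat_lit 3)) (.slot (nat_lit 9)) (.slot (nat_lit 8))) (.node (.col (nat_lit 2)) (.slot (nat_lit 7)) (.slot (nat_lit 5))) (.slot (nat_lit 8))) (.col (nat_lit 0)) (.slot (nat_lit 8))) (.col (nat_lit 0)) (.slot (nat_lit 13))) (.node (.col (nat_lit 0)) (.col (nat_lit 1)) (.slot (nat_lit 3))) (.col (nat_lit 0)) (.node (.col (nat_lit 0)) (.slot (nat_lit 3)) (.slot (nat_lit 1)))
def w13917 : Root := .mk (.node (.node (.node (.node (.col (nat_lit 3)) (.slot (nat_lit 9)) (.slot (nat_lit 8))) (.node (.col (nat_lit 2)) (.slot (nat_lit 7)) (.slot (nat_lit 5))) (.slot (nat_lit 8))) (.col (nat_lit 0)) (.slot (nat_lit 8))) (.col (nat_lit 0)) (.slot (nat_lit 13))) (.node (.col (nat_lit 0)) (.col (nat_lit 1)) (.slot (nat_lit 1))) (.col (nat_lit 0)) (.node (.col (nat_lit 2)) (.slot (nat_lit 1)) (.slot (nat_lit 1)))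
def w13918 : Root := .mk (.node (.node (.node (.node (.col (nat_lit 3)) (.slot (nat_lit 9)) (.slot (nat_lit 8))) (.node (.col (nat_lit 2)) (.slot (nat_lit 7)) (.slot (nat_lit 5))) (.slot (nat_lit 8))) (.col (nat_lit 0)) (.slot (nat_lit 8))) (.col (nat_lit 0)) (.slot (nat_lit 13))) (.node (.col (nat_lit 0)) (.col (nat_lit 1)) (.slot (nat_lit 3))) (.col (nat_lit 0)) (.node (.col (nat_lit 4)) (.slot (nat_lit 3)) (.slot (nat_lit 1)))
def w13938 : Root := .mk (.node (.col (nat_lit 3)) (.node (.col (nat_lit 1)) (.slot (nat_lit 1)) (.slot (nat_lit 1))) (.slot (nat_lit 2))) (.node (.col (nat_lit 4)) .junk (.col (nat_lit 3))) (.node (.col (nat_lit 2)) (.col (nat_lit 0)) (.slot (nat_lit 0))) (.col (nat_lit 0))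
def l3135 : Root := .mk (.node (.node (.node (.col (nat_lit 3)) (.col (nat_lit 0)) (.slot (nat_lit 3))) (.col (nat_lit 1)) (.slot (nat_lit 3))) (.col (nat_lit 0)) (.slot (nat_lit 1))) (.col (nat_lit 0)) (.col (nat_lit 1)) (.col (nat_lit 2))
def l3137 : Root := .mk (.col (nat_lit 3)) (.node (.col (nat_lit 1)) (.node (.col (nat_lit 2)) (.col (nat_lit 4)) (.slot (nat_lit 3))) (.slot (nat_lit 1))) (.col (nat_lit 0)) (.node (.col (nat_lit 1)) (.slot (nat_lit 5)) (.slot (nat_lit 5)))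
def w13960 : Root := .mk (.col (nat_lit 3)) (.node (.col (nat_lit 1)) (.node (.col (nat_lit 2)) (.col (nat_lit 4)) (.slot (nat_lit 3))) (.slot (nat_lit 1))) (.col (nat_lit 0)) (.slot (nat_lit 6))
def w13968 : Root := .mk (.node (.col (nat_lit 3)) (.col (nat_lit 0)) (.slot (nat_lit 1))) (.node (.slot (nat_lit 0)) (.col (nat_lit 0)) (.node (.col (nat_lit 0)) (.slot (nat_lit 0)) (.slot (nat_lit 0)))) (.node (.col (nat_lit 2)) (.col (nat_lit 4)) (.slot (nat_lit 0))) (.col (nat_lit 4))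
def w13994 : Root := .mk (.node (.node (.slot (nat_lit 0)) (.slot (nat_lit 0)) (.slot (nat_lit 0))) (.col (nat_lit 0)) (.node (.col (nat_lit 0)) (.node (.col (nat_lit 1)) (.slot (nat_lit 7)) (.slot (nat_lit 5))) (.slot (nat_lit 8)))) (.col (nat_lit 0)) (.node (.col (nat_lit 3)) .junk (.node (.slot (nat_lit 0)) (.slot (nat_lit 0)) (.slot (nat_lit 0)))) (.col (nat_lit 2))
def w14000 : Root := .mk (.node (.node (.col (nat_lit 3)) (.col (nat_lit 0)) (.slot (nat_lit 1))) (.node (.col (nat_lit 2)) (.col (nat_lit 4)) (.slot (nat_lit 1))) (.col (nat_lit 1))) (.col (nat_lit 4)) (.col (nat_lit 0)) (.slot (nat_lit 0))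
def w14002 : Root := .mk (.col (nat_lit 3)) (.node (.node (.slot (nat_lit 0)) (.col (nat_lit 0)) (.slot (nat_lit 0))) (.node (.col (nat_lit 2)) (.col (nat_lit 4)) (.slot (nat_lit 0))) (.col (nat_lit 3))) (.col (nat_lit 0)) (.node (.col (nat_lit 1)) (.slot (nat_lit 4)) (.slot (nat_lit 4)))
def w14006 : Root := .mk (.col (nat_lit 3)) (.node (.node (.slot (nat_lit 0)) (.col (nat_lit 0)) (.node (.slot (nat_lit 0)) (.slot (nat_lit 0)) (.slot (nat_lit 0)))) (.node (.col (nat_lit 2)) (.col (nat_lit 4)) (.slot (nat_lit 0))) (.slot (nat_lit 1))) (.col (nat_lit 0)) (.node (.col (nat_lit 1)) (.col (nat_lit 0)) (.slot (nat_lit 5)))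
def w14007 : Root := .mk (.col (nat_lit 3)) (.node (.node (.slot (nat_lit 0)) (.col (nat_lit 0)) (.slot (nat_lit 0))) (.node (.col (nat_lit 2)) (.col (nat_lit 4)) (.slot (nat_lit 0))) (.slot (nat_lit 1))) (.col (nat_lit 0)) (.node (.col (nat_lit 1)) (.node (.col (nat_lit 1)) (.slot (nat_lit 0)) (.slot (nat_lit 0))) (.slot (nat_lit 2)))
def w14008 : Root := .mk (.node (.node (.col (nat_lit 3)) (.col (nat_lit 0)) (.node (.col (nat_lit 1)) (.slot (nat_lit 1)) (.slot (nat_lit 1)))) (.node (.col (nat_lit 2)) (.col (nat_lit 4)) (.slot (nat_lit 0))) (.slot (nat_lit 1))) (.slot (nat_lit 0)) (.col (nat_lit 0)) (.col (nat_lit 1))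
def w14009 : Root := .mk (.node (.node (.col (nat_lit 3)) (.col (nat_lit 0)) (.node (.col (nat_lit 1)) (.slot (nat_lit 1)) (.slot (nat_lit 2)))) (.node (.slot (nat_lit 0)) (.col (nat_lit 0)) (.slot (nat_lit 0))) (.slot (nat_lit 1))) (.col (nat_lit 2)) (.col (nat_lit 4)) (.col (nat_lit 0))
def w14014 : Root := .mk (.node (.node (.col (nat_lit 2)) (.slot (nat_lit 0)) (.slot (nat_lit 1))) (.col (nat_lit 0)) (.slot (nat_lit 5))) (.col (nat_lit 0)) (.node (.col (nat_lit 3)) (.col (nat_lit 0)) (.node (.slot (nat_lit 0)) (.slot (nat_lit 0)) (.slot (nat_lit 0)))) (.col (nat_lit 2))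
def w14018 : Root := .mk (.node (.node (.node (.node (.col (nat_lit 3)) (.slot (nat_lit 9)) (.slot (nat_lit 8))) (.node (.col (nat_lit 2)) (.slot (nat_lit 7)) (.slot (nat_lit 5))) (.slot (nat_lit 8))) (.col (nat_lit 0)) (.slot (nat_lit 8))) (.col (nat_lit 0)) (.slot (nat_lit 13))) (.node (.col (nat_lit 0)) (.col (nat_lit 1)) (.slot (nat_lit 8))) (.col (nat_lit 0)) (.node (.slot (nat_lit 0)) (.slot (nat_lit 1)) (.slot (nat_lit 1)))
def l3143 : Root := .mk (.node (.node (.col (nat_lit 3)) (.slot (nat_lit 3)) (.slot (nat_lit 1))) (.node (.col (nat_lit 2)) (.slot (nat_lit 3)) (.slot (nat_lit 3))) (.slot (nat_lit 8))) (.col (nat_lit 4)) (.col (nat_lit 0)) (.node (.col (nat_lit 1)) (.slot (nat_lit 3)) (.slot (nat_lit 3)))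
def w14019 : Root := .mk (.node (.node (.col (nat_lit 3)) (.slot (nat_lit 3)) (.slot (nat_lit 1))) (.node (.col (nat_lit 2)) (.slot (nat_lit 3)) (.slot (nat_lit 3))) (.slot (nat_lit 8))) (.col (nat_lit 4)) (.col (nat_lit 0)) (.slot (nat_lit 4))
def w14020 : Root := .mk (.node (.node (.node (.col (nat_lit 3)) (.slot (nat_lit 0)) (.slot (nat_lit 0))) (.node (.col (nat_lit 2)) (.col (nat_lit 0)) (.slot (nat_lit 2))) (.slot (nat_lit 2))) (.col (nat_lit 0)) (.slot (nat_lit 3))) (.col (nat_lit 0)) (.node (.node (.col (nat_lit 0)) (.col (nat_lit 1)) (.slot (nat_lit 0))) (.col (nat_lit 0)) (.slot (nat_lit 3))) (.col (nat_lit 2))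
def w14021 : Root := .mk (.node (.node (.node (.col (nat_lit 3)) (.slot (nat_lit 0)) (.slot (nat_lit 0))) (.node (.col (nat_lit 2)) (.col (nat_lit 4)) (.slot (nat_lit 2))) (.slot (nat_lit 2))) (.col (nat_lit 0)) (.slot (nat_lit 3))) (.col (nat_lit 0)) (.node (.node (.col (nat_lit 0)) (.col (nat_lit 1)) (.slot (nat_lit 0))) (.col (nat_lit 0)) (.slot (nat_lit 3))) (.col (nat_lit 2))
def w14022 : Root := .mk (.node (.node (.col (nat_lit 3)) (.slot (nat_lit 1)) (.slot (nat_lit 1))) (.node (.node (.col (nat_lit 0)) (.node (.node (.col (nat_lit 0)) (.col (nat_lit 1)) (.slot (nat_lit 0))) (.col (nat_lit 0)) (.slot (nat_lit 3))) (.col (nat_lit 2))) (.col (nat_lit 0)) (.slot (nat_lit 3))) (.slot (nat_lit 2))) (.col (nat_lit 2)) (.node (.col (nat_lit 1)) (.slot (nat_lit 0)) (.slot (nat_lit 0))) (.col (nat_lit 1))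
def w14023 : Root := .mk (.node (.node (.node (.col (nat_lit 3)) (.slot (nat_lit 5)) (.slot (nat_lit 1))) (.node (.col (nat_lit 2)) (.node (.col (nat_lit 1)) (.slot (nat_lit 1)) (.slot (nat_lit 1))) (.node (.col (nat_lit 0)) (.slot (nat_lit 1)) (.slot (nat_lit 1)))) (.slot (nat_lit 2))) (.col (nat_lit 0)) (.slot (nat_lit 3))) (.col (nat_lit 0)) (.node (.node (.col (nat_lit 0)) (.col (nat_lit 1)) (.slot (nat_lit 0))) (.col (nat_lit 0)) (.slot (nat_lit 3))) (.col (nat_lit 2))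
def w14024 : Root := .mk (.node (.node (.node (.col (nat_lit 3)) (.slot (nat_lit 0)) (.slot (nat_lit 0))) (.node (.col (nat_lit 2)) (.node (.col (nat_lit 1)) (.slot (nat_lit 7)) (.slot (nat_lit 5))) (.node (.col (nat_lit 2)) (.slot (nat_lit 3)) (.slot (nat_lit 1)))) (.slot (nat_lit 3))) (.col (nat_lit 0)) (.slot (nat_lit 3))) (.col (nat_lit 0)) (.node (.node (.col (nat_lit 0)) (.col (nat_lit 1)) (.slot (nat_lit 0))) (.col (nat_lit 0)) (.slot (nat_lit 3))) (.col (nat_lit 2))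
def w14025 : Root := .mk (.node (.node (.node (.col (nat_lit 3)) (.slot (nat_lit 0)) (.slot (nat_lit 0))) (.node (.col (nat_lit 2)) (.node (.col (nat_lit 1)) (.slot (nat_lit 0)) (.slot (nat_lit 0))) (.node (.col (nat_lit 3)) (.slot (nat_lit 1)) (.slot (nat_lit 1)))) (.slot (nat_lit 2))) (.col (nat_lit 0)) (.slot (nat_lit 3))) (.col (nat_lit 0)) (.node (.node (.col (nat_lit 0)) (.col (nat_lit 1)) (.slot (nat_lit 0))) (.col (nat_lit 0)) (.slot (nat_lit 3))) (.col (nat_lit 2))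
def w14026 : Root := .mk (.node (.node (.node (.col (nat_lit 3)) (.slot (nat_lit 1)) (.slot (nat_lit 0))) (.node (.col (nat_lit 2)) (.node (.col (nat_lit 1)) (.slot (nat_lit 0)) (.slot (nat_lit 0))) (.node (.col (nat_lit 4)) (.slot (nat_lit 2)) (.slot (nat_lit 2)))) (.slot (nat_lit 1))) (.col (nat_lit 0)) (.slot (nat_lit 3))) (.col (nat_lit 0)) (.node (.node (.col (nat_lit 0)) (.col (nat_lit 1)) (.slot (nat_lit 0))) (.col (nat_lit 0)) (.slot (nat_lit 3))) (.col (nat_lit 2))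
def w14027 : Root := .mk (.node (.node (.node (.col (nat_lit 3)) (.slot (nat_lit 1)) (.slot (nat_lit 1))) (.node (.col (nat_lit 2)) (.node (.col (nat_lit 1)) (.slot (nat_lit 3)) (.slot (nat_lit 1))) (.node (.slot (nat_lit 0)) (.slot (nat_lit 0)) (.slot (nat_lit 0)))) (.slot (nat_lit 3))) (.col (nat_lit 0)) (.slot (nat_lit 3))) (.col (nat_lit 0)) (.node (.node (.col (nat_lit 0)) (.col (nat_lit 1)) (.slot (nat_lit 0))) (.col (nat_lit 0)) (.slot (nat_lit 3))) (.col (nat_lit 2))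
def w14028 : Root := .mk (.col (nat_lit 2)) (.node (.node (.col (nat_lit 0)) (.slot (nat_lit 0)) (.col (nat_lit 2))) (.col (nat_lit 0)) .junk) (.node (.col (nat_lit 2)) (.node (.col (nat_lit 1)) (.slot (nat_lit 1)) (.slot (nat_lit 1))) (.slot (nat_lit 2))) (.col (nat_lit 3))
def w14029 : Root := .mk (.node (.node (.col (nat_lit 3)) (.col (nat_lit 1)) (.slot (nat_lit 0))) (.node (.col (nat_lit 2)) (.slot (nat_lit 0)) (.slot (nat_lit 1))) (.col (nat_lit 3))) (.node (.col (nat_lit 0)) (.slot (nat_lit 0)) (.col (nat_lit 2))) (.col (nat_lit 0)) (.col (nat_lit 2))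
def w14030 : Root := .mk (.node (.node (.col (nat_lit 3)) (.slot (nat_lit 0)) (.slot (nat_lit 0))) (.node (.col (nat_lit 2)) (.col (nat_lit 3)) (.slot (nat_lit 1))) (.col (nat_lit 3))) (.node (.col (nat_lit 0)) (.slot (nat_lit 0)) (.col (nat_lit 2))) (.col (nat_lit 0)) (.col (nat_lit 2))
def w14031 : Root := .mk (.node (.node (.col (nat_lit 3)) (.slot (nat_lit 0)) (.slot (nat_lit 0))) (.node (.col (nat_lit 2)) (.slot (nat_lit 0)) (.node (.col (nat_lit 2)) (.slot (nat_lit 0)) (.slot (nat_lit 0)))) (.col (nat_lit 3))) (.node (.col (nat_lit 0)) (.slot (nat_lit 0)) (.col (nat_lit 2))) (.col (nat_lit 0)) (.col (nat_lit 2))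
def l3144 : Root := .mk (.node (.node (.col (nat_lit 3)) (.slot (nat_lit 0)) (.slot (nat_lit 0))) (.node (.col (nat_lit 2)) (.node (.col (nat_lit 1)) (.slot (nat_lit 3)) (.slot (nat_lit 1))) (.slot (nat_lit 3))) (.col (nat_lit 3))) (.node (.col (nat_lit 0)) (.slot (nat_lit 0)) (.col (nat_lit 2))) (.col (nat_lit 0)) (.col (nat_lit 2))
def w14032 : Root := .mk (.node (.node (.node (.col (nat_lit 3)) (.slot (nat_lit 0)) (.slot (nat_lit 0))) (.node (.col (nat_lit 2)) (.node (.col (nat_lit 1)) (.slot (nat_lit 3)) (.slot (nat_lit 1))) (.slot (nat_lit 3))) (.col (nat_lit 3))) (.col (nat_lit 0)) (.slot (nat_lit 1))) (.col (nat_lit 0)) (.slot (nat_lit 0)) (.col (nat_lit 2))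
def w14033 : Root := .mk (.node (.node (.node (.col (nat_lit 3)) (.slot (nat_lit 7)) (.slot (nat_lit 5))) (.node (.col (nat_lit 2)) (.node (.col (nat_lit 1)) (.slot (nat_lit 1)) (.slot (nat_lit 1))) (.slot (nat_lit 3))) (.col (nat_lit 4))) (.col (nat_lit 0)) (.slot (nat_lit 6))) (.col (nat_lit 0)) (.slot (nat_lit 0)) (.col (nat_lit 2))
def w14034 : Root := .mk (.node (.node (.node (.col (nat_lit 3)) (.slot (nat_lit 1)) (.slot (nat_lit 0))) (.node (.col (nat_lit 2)) (.node (.col (nat_lit 1)) (.slot (nat_lit 1)) (.slot (nat_lit 1))) (.slot (nat_lit 2))) (.node (.col (nat_lit 1)) (.slot (nat_lit 1)) (.slot (nat_lit 1)))) (.col (nat_lit 0)) (.slot (nat_lit 3))) (.col (nat_lit 0)) (.node (.node (.col (nat_lit 0)) (.col (nat_lit 1)) (.slot (nat_lit 0))) (.col (nat_lit 0)) (.slot (nat_lit 3))) (.col (nat_lit 2))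
def w14035 : Root := .mk (.node (.node (.node (.col (nat_lit 3)) (.slot (nat_lit 0)) (.slot (nat_lit 0))) (.node (.col (nat_lit 2)) (.node (.col (nat_lit 1)) (.slot (nat_lit 1)) (.slot (nat_lit 0))) (.slot (nat_lit 1))) (.node (.col (nat_lit 2)) (.slot (nat_lit 2)) (.slot (nat_lit 2)))) (.col (nat_lit 0)) (.slot (nat_lit 3))) (.col (nat_lit 0)) (.node (.node (.col (nat_lit 0)) (.col (nat_lit 1)) (.slot (nat_lit 0))) (.col (nat_lit 0)) (.slot (nat_lit 3))) (.col (nat_lit 2))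
def w14036 : Root := .mk (.node (.node (.node (.col (nat_lit 3)) (.slot (nat_lit 3)) (.slot (nat_lit 1))) (.node (.col (nat_lit 2)) (.node (.col (nat_lit 1)) (.slot (nat_lit 0)) (.slot (nat_lit 0))) (.slot (nat_lit 3))) (.node (.col (nat_lit 4)) (.slot (nat_lit 7)) (.slot (nat_lit 5)))) (.col (nat_lit 0)) (.slot (nat_lit 3))) (.col (nat_lit 0)) (.node (.node (.col (nat_lit 0)) (.col (nat_lit 1)) (.slot (nat_lit 0))) (.col (nat_lit 0)) (.slot (nat_lit 3))) (.col (nat_lit 2))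
def w14037 : Root := .mk (.node (.node (.node (.col (nat_lit 3)) (.slot (nat_lit 3)) (.slot (nat_lit 1))) (.node (.col (nat_lit 2)) (.node (.col (nat_lit 1)) (.slot (nat_lit 1)) (.slot (nat_lit 1))) (.slot (nat_lit 3))) (.node (.slot (nat_lit 0)) (.slot (nat_lit 0)) (.slot (nat_lit 0)))) (.col (nat_lit 0)) (.slot (nat_lit 3))) (.col (nat_lit 0)) (.node (.node (.col (nat_lit 0)) (.col (nat_lit 1)) (.slot (nat_lit 0))) (.col (nat_lit 0)) (.slot (nat_lit 3))) (.col (nat_lit 2))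
def w14038 : Root := .mk (.node (.node (.node (.col (nat_lit 3)) (.slot (nat_lit 2)) (.slot (nat_lit 1))) (.node (.col (nat_lit 2)) (.node (.col (nat_lit 1)) (.col (nat_lit 2)) (.slot (nat_lit 8))) (.slot (nat_lit 3))) (.slot (nat_lit 3))) (.col (nat_lit 0)) (.slot (nat_lit 3))) (.col (nat_lit 0)) (.node (.node (.col (nat_lit 0)) (.col (nat_lit 1)) (.slot (nat_lit 0))) (.col (nat_lit 0)) (.slot (nat_lit 3))) (.col (nat_lit 2))
def w14039 : Root := .mk (.node (.node (.node (.col (nat_lit 3)) (.slot (nat_lit 3)) (.slot (nat_lit 1))) (.node (.col (nat_lit 2)) (.node (.col (nat_lit 1)) (.slot (nat_lit 0)) (.slot (nat_lit 0))) (.slot (nat_lit 3))) (.slot (nat_lit 8))) (.col (nat_lit 0)) (.slot (nat_lit 3))) (.col (nat_lit 0)) (.node (.node (.col (nat_lit 0)) (.col (nat_lit 1)) (.slot (nat_lit 0))) (.col (nat_lit 0)) (.slot (nat_lit 3))) (.col (nat_lit 2))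
def w14040 : Root := .mk (.node (.node (.node (.col (nat_lit 3)) (.slot (nat_lit 0)) (.slot (nat_lit 0))) (.node (.col (nat_lit 2)) (.node (.col (nat_lit 1)) (.slot (nat_lit 3)) (.slot (nat_lit 1))) (.slot (nat_lit 8))) (.slot (nat_lit 3))) (.col (nat_lit 0)) (.slot (nat_lit 3))) (.col (nat_lit 0)) (.node (.node (.col (nat_lit 0)) (.col (nat_lit 1)) (.slot (nat_lit 0))) (.col (nat_lit 0)) (.slot (nat_lit 3))) (.col (nat_lit 2))
def w14041 : Root := .mk (.node (.node (.col (nat_lit 3)) (.slot (nat_lit 0)) (.slot (nat_lit 0))) (.node (.col (nat_lit 2)) (.node (.col (nat_lit 1)) (.slot (nat_lit 1)) (.slot (nat_lit 1))) (.slot (nat_lit 2))) (.slot (nat_lit 1))) (.node (.col (nat_lit 0)) (.node (.slot (nat_lit 0)) (.col (nat_lit 0)) (.slot (nat_lit 0))) (.col (nat_lit 2))) (.col (nat_lit 0)) (.col (nat_lit 1))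
def w14042 : Root := .mk (.node (.col (nat_lit 3)) (.slot (nat_lit 0)) (.slot (nat_lit 0))) (.node (.node .junk (.col (nat_lit 1)) (.col (nat_lit 2))) (.col (nat_lit 0)) (.node (.col (nat_lit 0)) (.slot (nat_lit 0)) (.slot (nat_lit 0)))) (.node (.col (nat_lit 2)) .junk (.col (nat_lit 0))) (.col (nat_lit 3))
def l3145 : Root := .mk (.node (.node (.node (.col (nat_lit 3)) (.slot (nat_lit 0)) (.slot (nat_lit 0))) (.node (.col (nat_lit 2)) (.node (.col (nat_lit 1)) (.slot (nat_lit 1)) (.slot (nat_lit 1))) (.col (nat_lit 0))) (.col (nat_lit 3))) (.col (nat_lit 0)) (.node (.col (nat_lit 0)) (.slot (nat_lit 0)) (.slot (nat_lit 0)))) (.col (nat_lit 0)) (.col (nat_lit 1)) (.col (nat_lit 2))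
def w14043 : Root := .mk (.node (.node (.node (.col (nat_lit 3)) (.slot (nat_lit 0)) (.slot (nat_lit 0))) (.node (.col (nat_lit 2)) (.node (.col (nat_lit 1)) (.slot (nat_lit 1)) (.slot (nat_lit 1))) (.slot (nat_lit 1))) (.col (nat_lit 3))) (.col (nat_lit 0)) (.node (.col (nat_lit 0)) (.slot (nat_lit 0)) (.slot (nat_lit 0)))) (.col (nat_lit 0)) (.col (nat_lit 1)) (.col (nat_lit 2))
def l3146 : Root := .mk (.node (.node (.node (.col (nat_lit 3)) (.col (nat_lit 0)) .junk) (.col (nat_lit 1)) (.col (nat_lit 4))) (.col (nat_lit 0)) (.node (.col (nat_lit 0)) (.slot (nat_lit 0)) (.slot (nat_lit 0)))) (.col (nat_lit 0)) (.col (nat_lit 1)) (.col (nat_lit 2))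
def w14044 : Root := .mk (.node (.node (.node (.col (nat_lit 3)) (.col (nat_lit 0)) .junk) (.node (.col (nat_lit 2)) (.slot (nat_lit 0)) (.slot (nat_lit 0))) (.col (nat_lit 4))) (.col (nat_lit 0)) (.node (.col (nat_lit 0)) (.slot (nat_lit 0)) (.slot (nat_lit 0)))) (.col (nat_lit 0)) (.col (nat_lit 1)) (.col (nat_lit 2))
def w14045 : Root := .mk (.node (.node (.col (nat_lit 3)) (.col (nat_lit 0)) (.slot (nat_lit 2))) (.node (.col (nat_lit 2)) (.slot (nat_lit 0)) (.slot (nat_lit 1))) (.col (nat_lit 4))) (.slot (nat_lit 0)) (.col (nat_lit 0)) (.col (nat_lit 1))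
def w14046 : Root := .mk (.node (.slot (nat_lit 0)) (.node (.node .junk (.col (nat_lit 1)) (.col (nat_lit 2))) (.col (nat_lit 0)) (.node (.col (nat_lit 0)) (.slot (nat_lit 0)) (.slot (nat_lit 0)))) (.col (nat_lit 4))) (.col (nat_lit 2)) (.node (.col (nat_lit 1)) (.slot (nat_lit 0)) (.slot (nat_lit 0))) (.col (nat_lit 1))
def w14047 : Root := .mk (.node (.node (.node (.col (nat_lit 3)) (.col (nat_lit 0)) .junk) (.node (.col (nat_lit 2)) (.slot (nat_lit 0)) (.slot (nat_lit 0))) (.col (nat_lit 4))) (.col (nat_lit 0)) (.node (.col (nat_lit 0)) (.col (nat_lit 3)) (.slot (nat_lit 0)))) (.col (nat_lit 0)) (.col (nat_lit 1)) (.col (nat_lit 2))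
def l3147 : Root := .mk (.node (.node (.node (.col (nat_lit 3)) (.col (nat_lit 0)) (.slot (nat_lit 4))) (.node (.col (nat_lit 2)) (.node (.col (nat_lit 1)) (.slot (nat_lit 1)) (.slot (nat_lit 1))) (.slot (nat_lit 2))) (.col (nat_lit 4))) (.col (nat_lit 0)) (.node (.col (nat_lit 0)) (.slot (nat_lit 0)) (.slot (nat_lit 0)))) (.col (nat_lit 0)) (.col (nat_lit 1)) (.col (nat_lit 2))
def w14048 : Root := .mk (.node (.node (.node (.col (nat_lit 3)) (.slot (nat_lit 1)) (.slot (nat_lit 4))) (.node (.col (nat_lit 2)) (.node (.col (nat_lit 1)) (.slot (nat_lit 1)) (.slot (nat_lit 1))) (.slot (nat_lit 2))) (.col (nat_lit 4))) (.col (nat_lit 0)) (.node (.col (nat_lit 0)) (.slot (nat_lit 0)) (.slot (nat_lit 0)))) (.col (nat_lit 0)) (.col (nat_lit 1)) (.col (nat_lit 2))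
def w14049 : Root := .mk (.node (.node (.node (.col (nat_lit 3)) (.slot (nat_lit 0)) (.slot (nat_lit 0))) (.col (nat_lit 3)) (.node (.col (nat_lit 0)) (.slot (nat_lit 1)) (.slot (nat_lit 1)))) (.col (nat_lit 0)) (.node (.col (nat_lit 0)) (.slot (nat_lit 0)) (.slot (nat_lit 0)))) (.col (nat_lit 0)) (.col (nat_lit 1)) (.col (nat_lit 2))
def w14050 : Root := .mk (.node (.node (.node (.col (nat_lit 3)) (.slot (nat_lit 0)) (.slot (nat_lit 0))) (.node (.col (nat_lit 2)) (.node (.col (nat_lit 1)) (.slot (nat_lit 1)) (.slot (nat_lit 1))) (.slot (nat_lit 2))) (.node (.col (nat_lit 0)) (.slot (nat_lit 1)) (.slot (nat_lit 1)))) (.col (nat_lit 0)) (.node (.col (nat_lit 0)) (.slot (nat_lit 0)) (.slot (nat_lit 0)))) (.col (nat_lit 0)) (.col (nat_lit 1)) (.col (nat_lit 2))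
def w14051 : Root := .mk (.node (.node (.col (nat_lit 3)) (.slot (nat_lit 1)) (.slot (nat_lit 0))) (.node (.col (nat_lit 2)) (.node (.col (nat_lit 1)) (.slot (nat_lit 1)) (.slot (nat_lit 1))) (.slot (nat_lit 2))) (.node (.col (nat_lit 1)) (.slot (nat_lit 1)) (.slot (nat_lit 1)))) (.node .junk (.col (nat_lit 1)) (.col (nat_lit 2))) (.col (nat_lit 0)) (.node (.col (nat_lit 0)) (.slot (nat_lit 0)) (.slot (nat_lit 0)))
def w14052 : Root := .mk (.node (.node (.col (nat_lit 3)) (.slot (nat_lit 0)) (.slot (nat_lit 0))) (.node (.col (nat_lit 2)) (.node (.col (nat_lit 1)) (.slot (nat_lit 1)) (.slot (nat_lit 0))) (.slot (nat_lit 1))) (.node (.col (nat_lit 2)) (.slot (nat_lit 2)) (.slot (nat_lit 2)))) (.node .junk (.col (nat_lit 1)) (.col (nat_lit 2))) (.col (nat_lit 0)) (.node (.col (nat_lit 0)) (.slot (nat_lit 0)) (.slot (nat_lit 0)))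
def w14053 : Root := .mk (.node (.col (nat_lit 1)) (.node (.node .junk (.col (nat_lit 1)) (.col (nat_lit 2))) (.col (nat_lit 0)) (.node (.col (nat_lit 0)) (.slot (nat_lit 0)) (.slot (nat_lit 0)))) (.node (.col (nat_lit 4)) (.slot (nat_lit 1)) (.slot (nat_lit 1)))) (.col (nat_lit 2)) (.node (.col (nat_lit 1)) (.slot (nat_lit 0)) (.slot (nat_lit 0))) (.col (nat_lit 1))
def w14054 : Root := .mk (.col (nat_lit 1)) (.node (.node .junk (.col (nat_lit 1)) (.col (nat_lit 2))) (.col (nat_lit 0)) (.node (.col (nat_lit 0)) (.slot (nat_lit 0)) (.slot (nat_lit 0)))) (.node (.col (nat_lit 2)) (.node (.col (nat_lit 1)) (.slot (nat_lit 0)) (.slot (nat_lit 1))) (.slot (nat_lit 1))) (.node (.col (nat_lit 4)) (.slot (nat_lit 0)) (.slot (nat_lit 0)))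
def l3148 : Root := .mk (.col (nat_lit 1)) (.node (.node .junk (.col (nat_lit 1)) (.col (nat_lit 2))) (.col (nat_lit 0)) (.node (.col (nat_lit 0)) (.slot (nat_lit 0)) (.slot (nat_lit 0)))) (.node (.col (nat_lit 2)) (.node (.col (nat_lit 1)) (.slot (nat_lit 7)) (.slot (nat_lit 5))) (.slot (nat_lit 9))) (.node (.col (nat_lit 4)) (.slot (nat_lit 1)) (.slot (nat_lit 1)))
def w14055 : Root := .mk (.node (.node (.col (nat_lit 3)) (.slot (nat_lit 0)) (.slot (nat_lit 0))) (.node (.col (nat_lit 2)) (.node (.col (nat_lit 1)) (.slot (nat_lit 7)) (.slot (nat_lit 5))) (.slot (nat_lit 9))) (.node (.col (nat_lit 4)) (.slot (nat_lit 1)) (.slot (nat_lit 1)))) (.node .junk (.col (nat_lit 1)) (.col (nat_lit 2))) (.col (nat_lit 0)) (.node (.col (nat_lit 0)) (.slot (nat_lit 0)) (.slot (nat_lit 0)))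
def w14056 : Root := .mk (.node (.node (.col (nat_lit 3)) (.slot (nat_lit 1)) (.slot (nat_lit 1))) (.node (.col (nat_lit 2)) (.node (.col (nat_lit 1)) (.slot (nat_lit 7)) (.slot (nat_lit 5))) (.slot (nat_lit 9))) (.node (.slot (nat_lit 0)) (.slot (nat_lit 0)) (.slot (nat_lit 0)))) (.node .junk (.col (nat_lit 1)) (.col (nat_lit 2))) (.col (nat_lit 0)) (.node (.col (nat_lit 0)) (.slot (nat_lit 0)) (.slot (nat_lit 0)))
def w14057 : Root := .mk (.node (.node (.node (.col (nat_lit 3)) (.slot (nat_lit 3)) (.slot (nat_lit 1))) (.node (.col (nat_lit 2)) (.node (.col (nat_lit 1)) (.slot (nat_lit 3)) (.slot (nat_lit 1))) (.slot (nat_lit 3))) (.slot (nat_lit 3))) (.col (nat_lit 0)) (.node (.col (nat_lit 0)) (.col (nat_lit 2)) (.slot (nat_lit 5)))) (.col (nat_lit 0)) (.col (nat_lit 1)) (.col (nat_lit 2))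
def w14058 : Root := .mk (.node (.node (.node (.col (nat_lit 3)) (.slot (nat_lit 1)) (.slot (nat_lit 1))) (.col (nat_lit 1)) (.slot (nat_lit 2))) (.col (nat_lit 0)) (.node (.col (nat_lit 0)) (.col (nat_lit 3)) (.slot (nat_lit 1)))) (.col (nat_lit 0)) (.col (nat_lit 1)) (.col (nat_lit 2))
def w14059 : Root := .mk (.node (.node (.col (nat_lit 3)) (.slot (nat_lit 0)) (.slot (nat_lit 0))) (.node (.node (.col (nat_lit 0)) (.col (nat_lit 1)) (.col (nat_lit 2))) (.col (nat_lit 0)) (.node (.col (nat_lit 0)) (.col (nat_lit 3)) (.slot (nat_lit 1)))) (.slot (nat_lit 1))) (.col (nat_lit 2)) (.col (nat_lit 4)) (.col (nat_lit 0))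
def l3149 : Root := .mk (.node (.node (.node (.col (nat_lit 3)) (.slot (nat_lit 3)) (.slot (nat_lit 3))) (.node (.col (nat_lit 2)) (.node (.col (nat_lit 1)) (.slot (nat_lit 5)) (.slot (nat_lit 7))) (.col (nat_lit 0))) (.slot (nat_lit 5))) (.col (nat_lit 0)) (.node (.col (nat_lit 0)) (.col (nat_lit 3)) (.slot (nat_lit 1)))) (.col (nat_lit 0)) (.col (nat_lit 1)) (.col (nat_lit 2))
def w14060 : Root := .mk (.node (.node (.node (.col (nat_lit 3)) (.slot (nat_lit 3)) (.slot (nat_lit 3))) (.node (.col (nat_lit 2)) (.node (.col (nat_lit 1)) (.slot (nat_lit 7)) (.slot (nat_lit 5))) (.slot (nat_lit 1))) (.slot (nat_lit 5))) (.col (nat_lit 0)) (.node (.col (nat_lit 0)) (.col (nat_lit 3)) (.slot (nat_lit 1)))) (.col (nat_lit 0)) (.col (nat_lit 1)) (.col (nat_lit 2))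
def w14061 : Root := .mk (.node (.node (.node (.col (nat_lit 3)) (.slot (nat_lit 1)) (.slot (nat_lit 1))) (.node (.col (nat_lit 2)) (.node (.col (nat_lit 1)) (.slot (nat_lit 1)) (.slot (nat_lit 1))) (.slot (nat_lit 2))) (.slot (nat_lit 2))) (.node .junk (.col (nat_lit 1)) (.col (nat_lit 2))) (.col (nat_lit 0))) (.col (nat_lit 0)) (.col (nat_lit 4)) (.slot (nat_lit 0))
def w14062 : Root := .mk (.node (.node (.col (nat_lit 3)) (.node (.col (nat_lit 0)) (.slot (nat_lit 1)) (.slot (nat_lit 1))) (.slot (nat_lit 2))) (.node (.col (nat_lit 2)) (.node (.col (nat_lit 1)) (.slot (nat_lit 3)) (.slot (nat_lit 1))) (.slot (nat_lit 8))) (.slot (nat_lit 3))) (.slot (nat_lit 0)) (.col (nat_lit 0)) (.slot (nat_lit 0))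
def w14063 : Root := .mk (.col (nat_lit 3)) (.node (.slot (nat_lit 0)) (.node (.col (nat_lit 2)) (.node (.col (nat_lit 1)) (.slot (nat_lit 7)) (.slot (nat_lit 5))) (.slot (nat_lit 8))) (.slot (nat_lit 1))) (.node (.col (nat_lit 2)) (.slot (nat_lit 1)) (.slot (nat_lit 1))) (.slot (nat_lit 2))
def w14064 : Root := .mk (.node (.node (.col (nat_lit 3)) (.node (.col (nat_lit 3)) (.slot (nat_lit 0)) (.slot (nat_lit 0))) (.slot (nat_lit 1))) (.node (.node .junk (.col (nat_lit 1)) (.col (nat_lit 2))) (.col (nat_lit 0)) (.node (.col (nat_lit 0)) (.slot (nat_lit 0)) (.slot (nat_lit 0)))) (.col (nat_lit 1))) (.col (nat_lit 2)) (.node (.col (nat_lit 1)) (.slot (nat_lit 0)) (.slot (nat_lit 0))) (.col (nat_lit 1))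
def w14065 : Root := .mk (.node (.node (.node (.col (nat_lit 3)) (.slot (nat_lit 0)) (.slot (nat_lit 0))) (.node (.node .junk (.col (nat_lit 1)) (.col (nat_lit 2))) (.col (nat_lit 0)) (.node (.col (nat_lit 0)) (.slot (nat_lit 0)) (.slot (nat_lit 0)))) (.col (nat_lit 1))) (.col (nat_lit 2)) (.slot (nat_lit 1))) (.col (nat_lit 1)) (.col (nat_lit 2)) (.slot (nat_lit 1))
def l3150 : Root := .mk (.node (.col (nat_lit 3)) (.node (.col (nat_lit 3)) (.slot (nat_lit 0)) (.slot (nat_lit 0))) (.slot (nat_lit 1))) (.node (.node .junk (.col (nat_lit 1)) (.col (nat_lit 2))) (.col (nat_lit 0)) (.node (.col (nat_lit 0)) (.slot (nat_lit 0)) (.slot (nat_lit 0)))) (.node (.col (nat_lit 2)) (.node (.col (nat_lit 1)) (.slot (nat_lit 7)) (.slot (nat_lit 5))) (.slot (nat_lit 8))) (.col (nat_lit 1))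
def w14066 : Root := .mk (.node (.node (.col (nat_lit 3)) (.node (.col (nat_lit 3)) (.slot (nat_lit 0)) (.slot (nat_lit 0))) (.slot (nat_lit 1))) (.node (.col (nat_lit 2)) (.node (.col (nat_lit 1)) (.slot (nat_lit 7)) (.slot (nat_lit 5))) (.slot (nat_lit 8))) (.slot (nat_lit 1))) (.node .junk (.col (nat_lit 1)) (.col (nat_lit 2))) (.col (nat_lit 0)) (.node (.col (nat_lit 0)) (.slot (nat_lit 0)) (.slot (nat_lit 0)))
def w14067 : Root := .mk (.col (nat_lit 3)) (.node (.slot (nat_lit 0)) (.node (.col (nat_lit 2)) (.node (.col (nat_lit 1)) (.slot (nat_lit 7)) (.slot (nat_lit 5))) (.slot (nat_lit 8))) (.slot (nat_lit 1))) (.node (.col (nat_lit 4)) (.slot (nat_lit 1)) (.slot (nat_lit 1))) (.slot (nat_lit 2))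
def w14068 : Root := .mk (.node (.node (.col (nat_lit 3)) (.slot (nat_lit 0)) (.slot (nat_lit 0))) (.node (.node .junk (.col (nat_lit 1)) (.col (nat_lit 2))) (.col (nat_lit 0)) (.node (.col (nat_lit 0)) (.slot (nat_lit 0)) (.slot (nat_lit 0)))) (.slot (nat_lit 2))) (.col (nat_lit 2)) (.col (nat_lit 0)) (.slot (nat_lit 2))
def w14069 : Root := .mk (.node (.node (.col (nat_lit 3)) (.slot (nat_lit 0)) (.slot (nat_lit 0))) (.node (.node .junk (.col (nat_lit 1)) (.col (nat_lit 2))) (.col (nat_lit 0)) (.node (.col (nat_lit 0)) (.slot (nat_lit 0)) (.slot (nat_lit 0)))) (.slot (nat_lit 2))) (.col (nat_lit 2)) (.col (nat_lit 4)) (.slot (nat_lit 2))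
def w14070 : Root := .mk (.node (.node (.col (nat_lit 3)) (.slot (nat_lit 1)) (.slot (nat_lit 1))) (.node (.node .junk (.col (nat_lit 1)) (.col (nat_lit 2))) (.col (nat_lit 0)) (.node (.col (nat_lit 0)) (.slot (nat_lit 0)) (.slot (nat_lit 0)))) (.slot (nat_lit 2))) (.col (nat_lit 2)) (.node (.col (nat_lit 1)) (.slot (nat_lit 0)) (.slot (nat_lit 0))) (.col (nat_lit 1))
def l3151 : Root := .mk (.node (.node (.node (.col (nat_lit 3)) (.slot (nat_lit 1)) (.slot (nat_lit 1))) (.node (.col (nat_lit 2)) (.node (.col (nat_lit 1)) (.slot (nat_lit 5)) (.slot (nat_lit 7))) (.col (nat_lit 3))) (.slot (nat_lit 3))) (.col (nat_lit 0)) (.node (.col (nat_lit 0)) (.slot (nat_lit 0)) (.slot (nat_lit 0)))) (.col (nat_lit 0)) (.col (nat_lit 1)) (.col (nat_lit 2))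
def w14071 : Root := .mk (.node (.node (.node (.col (nat_lit 3)) (.slot (nat_lit 1)) (.slot (nat_lit 1))) (.node (.col (nat_lit 2)) (.node (.col (nat_lit 1)) (.slot (nat_lit 7)) (.slot (nat_lit 5))) (.node (.col (nat_lit 0)) (.slot (nat_lit 0)) (.slot (nat_lit 0)))) (.slot (nat_lit 3))) (.col (nat_lit 0)) (.node (.col (nat_lit 0)) (.slot (nat_lit 0)) (.slot (nat_lit 0)))) (.col (nat_lit 0)) (.col (nat_lit 1)) (.col (nat_lit 2))
def w14072 : Root := .mk (.node (.node (.node (.col (nat_lit 3)) (.slot (nat_lit 1)) (.slot (nat_lit 1))) (.node (.col (nat_lit 2)) (.node (.col (nat_lit 1)) (.slot (nat_lit 7)) (.slot (nat_lit 5))) (.node (.col (nat_lit 2)) (.slot (nat_lit 0)) (.slot (nat_lit 0)))) (.slot (nat_lit 3))) (.col (nat_lit 0)) (.node (.col (nat_lit 0)) (.slot (nat_lit 0)) (.slot (nat_lit 0)))) (.col (nat_lit 0)) (.col (nat_lit 1)) (.col (nat_lit 2))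
def w14073 : Root := .mk (.node (.node (.col (nat_lit 3)) (.slot (nat_lit 0)) (.slot (nat_lit 0))) (.node (.node .junk (.col (nat_lit 1)) (.col (nat_lit 2))) (.col (nat_lit 0)) (.node (.col (nat_lit 0)) (.slot (nat_lit 0)) (.slot (nat_lit 0)))) (.slot (nat_lit 2))) (.col (nat_lit 2)) (.node (.col (nat_lit 1)) (.slot (nat_lit 0)) (.slot (nat_lit 0))) (.node (.col (nat_lit 3)) (.slot (nat_lit 1)) (.slot (nat_lit 1)))
def w14074 : Root := .mk (.node (.node (.node (.col (nat_lit 3)) (.slot (nat_lit 1)) (.slot (nat_lit 1))) (.node (.col (nat_lit 2)) (.node (.col (nat_lit 1)) (.slot (nat_lit 7)) (.slot (nat_lit 5))) (.node (.col (nat_lit 4)) (.slot (nat_lit 0)) (.slot (nat_lit 0)))) (.slot (nat_lit 3))) (.col (nat_lit 0)) (.node (.col (nat_lit 0)) (.slot (nat_lit 0)) (.slot (nat_lit 0)))) (.col (nat_lit 0)) (.col (nat_lit 1)) (.col (nat_lit 2))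
def w14075 : Root := .mk (.node (.node (.node (.col (nat_lit 3)) (.slot (nat_lit 1)) (.slot (nat_lit 1))) (.node (.col (nat_lit 2)) (.node (.col (nat_lit 1)) (.slot (nat_lit 7)) (.slot (nat_lit 5))) (.node (.slot (nat_lit 0)) (.slot (nat_lit 0)) (.slot (nat_lit 0)))) (.slot (nat_lit 3))) (.col (nat_lit 0)) (.node (.col (nat_lit 0)) (.slot (nat_lit 0)) (.slot (nat_lit 0)))) (.col (nat_lit 0)) (.col (nat_lit 1)) (.col (nat_lit 2))
def w14076 : Root := .mk (.col (nat_lit 3)) (.node (.node (.node .junk (.col (nat_lit 1)) (.col (nat_lit 2))) (.col (nat_lit 0)) (.node (.col (nat_lit 0)) (.slot (nat_lit 0)) (.slot (nat_lit 0)))) (.node (.col (nat_lit 2)) (.node (.col (nat_lit 1)) (.col (nat_lit 2)) (.slot (nat_lit 1))) (.slot (nat_lit 1))) (.col (nat_lit 1))) (.col (nat_lit 1)) (.slot (nat_lit 0))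
def w14077 : Root := .mk (.node (.node (.col (nat_lit 3)) (.slot (nat_lit 1)) (.slot (nat_lit 1))) (.node (.node .junk (.col (nat_lit 1)) (.col (nat_lit 2))) (.col (nat_lit 0)) (.node (.col (nat_lit 0)) (.slot (nat_lit 0)) (.slot (nat_lit 0)))) (.col (nat_lit 1))) (.col (nat_lit 2)) (.node (.col (nat_lit 1)) (.col (nat_lit 2)) (.slot (nat_lit 0))) (.col (nat_lit 1))
def w14078 : Root := .mk (.node (.node (.col (nat_lit 3)) (.slot (nat_lit 1)) (.slot (nat_lit 1))) (.node (.slot (nat_lit 0)) (.col (nat_lit 0)) (.slot (nat_lit 0))) (.col (nat_lit 1))) (.col (nat_lit 2)) (.node (.col (nat_lit 1)) (.col (nat_lit 2)) (.slot (nat_lit 5))) (.node (.col (nat_lit 2)) (.slot (nat_lit 0)) (.slot (nat_lit 0)))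
def w14079 : Root := .mk (.node (.node (.node (.col (nat_lit 3)) (.slot (nat_lit 1)) (.slot (nat_lit 1))) (.node (.col (nat_lit 2)) (.node (.col (nat_lit 1)) (.col (nat_lit 2)) (.slot (nat_lit 5))) (.node (.col (nat_lit 3)) (.slot (nat_lit 0)) (.slot (nat_lit 0)))) (.col (nat_lit 1))) (.col (nat_lit 0)) (.slot (nat_lit 0))) (.col (nat_lit 0)) (.col (nat_lit 1)) (.col (nat_lit 2))
def w14080 : Root := .mk (.node (.col (nat_lit 3)) (.slot (nat_lit 1)) .junk) (.node (.node .junk (.col (nat_lit 1)) (.col (nat_lit 2))) (.col (nat_lit 0)) (.node (.col (nat_lit 0)) (.slot (nat_lit 0)) (.slot (nat_lit 0)))) (.node (.col (nat_lit 2)) (.node (.col (nat_lit 1)) .junk (.col (nat_lit 3))) (.slot (nat_lit 1))) (.col (nat_lit 1))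
def w14081 : Root := .mk (.node (.node (.node (.col (nat_lit 3)) (.slot (nat_lit 0)) (.slot (nat_lit 0))) (.node (.node .junk (.col (nat_lit 1)) (.col (nat_lit 2))) (.col (nat_lit 0)) (.node (.col (nat_lit 0)) (.slot (nat_lit 0)) (.slot (nat_lit 0)))) (.col (nat_lit 1))) (.col (nat_lit 2)) (.slot (nat_lit 1))) (.col (nat_lit 1)) (.col (nat_lit 2)) (.node (.col (nat_lit 1)) (.slot (nat_lit 0)) (.slot (nat_lit 0)))
def w14082 : Root := .mk (.node (.node (.node (.col (nat_lit 3)) (.slot (nat_lit 0)) (.slot (nat_lit 0))) (.node (.node .junk (.col (nat_lit 1)) (.col (nat_lit 2))) (.col (nat_lit 0)) (.node (.col (nat_lit 0)) (.slot (nat_lit 0)) (.slot (nat_lit 0)))) (.col (nat_lit 1))) (.col (nat_lit 2)) (.slot (nat_lit 1))) (.col (nat_lit 1)) (.col (nat_lit 2)) (.node (.col (nat_lit 2)) (.slot (nat_lit 0)) (.slot (nat_lit 0)))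
def l3152 : Root := .mk (.node (.node (.node (.col (nat_lit 3)) (.slot (nat_lit 4)) (.slot (nat_lit 4))) (.node (.col (nat_lit 2)) (.node (.col (nat_lit 1)) (.col (nat_lit 2)) (.slot (nat_lit 5))) (.slot (nat_lit 9))) (.col (nat_lit 1))) (.col (nat_lit 0)) (.node (.col (nat_lit 0)) (.slot (nat_lit 0)) (.slot (nat_lit 0)))) (.col (nat_lit 0)) (.col (nat_lit 1)) (.col (nat_lit 2))
def w14083 : Root := .mk (.node (.node (.node (.col (nat_lit 3)) (.slot (nat_lit 4)) (.slot (nat_lit 4))) (.node (.col (nat_lit 2)) (.node (.col (nat_lit 1)) (.col (nat_lit 2)) (.slot (nat_lit 5))) (.slot (nat_lit 9))) (.slot (nat_lit 1))) (.col (nat_lit 0)) (.node (.col (nat_lit 0)) (.slot (nat_lit 0)) (.slot (nat_lit 0)))) (.col (nat_lit 0)) (.col (nat_lit 1)) (.col (nat_lit 2))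
def w14084 : Root := .mk (.node (.col (nat_lit 0)) (.node (.node .junk (.col (nat_lit 1)) (.col (nat_lit 2))) (.col (nat_lit 0)) (.node (.col (nat_lit 0)) (.slot (nat_lit 0)) (.slot (nat_lit 0)))) (.slot (nat_lit 1))) (.col (nat_lit 2)) (.node (.col (nat_lit 1)) (.node (.col (nat_lit 1)) (.slot (nat_lit 0)) (.slot (nat_lit 0))) (.slot (nat_lit 1))) (.col (nat_lit 0))
def w14085 : Root := .mk (.node (.node (.col (nat_lit 3)) (.slot (nat_lit 1)) (.slot (nat_lit 3))) (.node (.slot (nat_lit 0)) (.col (nat_lit 0)) (.slot (nat_lit 0))) (.col (nat_lit 0))) (.col (nat_lit 2)) (.node (.col (nat_lit 1)) (.node (.col (nat_lit 1)) (.slot (nat_lit 0)) (.slot (nat_lit 0))) (.slot (nat_lit 1))) (.col (nat_lit 0))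
def w14086 : Root := .mk (.node (.node (.node (.col (nat_lit 3)) (.slot (nat_lit 0)) (.slot (nat_lit 0))) (.node (.col (nat_lit 2)) (.node (.col (nat_lit 1)) (.node (.col (nat_lit 1)) (.slot (nat_lit 0)) (.slot (nat_lit 0))) (.slot (nat_lit 4))) (.col (nat_lit 0))) (.col (nat_lit 2))) (.col (nat_lit 0)) (.slot (nat_lit 0))) (.col (nat_lit 0)) (.col (nat_lit 1)) (.col (nat_lit 2))
def w14087 : Root := .mk (.node (.slot (nat_lit 0)) (.node (.node .junk (.col (nat_lit 1)) (.col (nat_lit 2))) (.col (nat_lit 0)) (.node (.col (nat_lit 0)) (.slot (nat_lit 0)) (.slot (nat_lit 0)))) (.node (.col (nat_lit 0)) (.slot (nat_lit 0)) (.slot (nat_lit 0)))) (.col (nat_lit 2)) (.node (.col (nat_lit 1)) (.node (.col (nat_lit 1)) (.slot (nat_lit 0)) (.slot (nat_lit 0))) (.slot (nat_lit 1))) (.col (nat_lit 0))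
def w14088 : Root := .mk (.node (.slot (nat_lit 0)) (.node (.node .junk (.col (nat_lit 1)) (.col (nat_lit 2))) (.col (nat_lit 0)) (.node (.col (nat_lit 0)) (.slot (nat_lit 0)) (.slot (nat_lit 0)))) (.node (.col (nat_lit 2)) (.slot (nat_lit 0)) (.slot (nat_lit 0)))) (.col (nat_lit 2)) (.node (.col (nat_lit 1)) (.node (.col (nat_lit 1)) (.slot (nat_lit 0)) (.slot (nat_lit 0))) (.slot (nat_lit 1))) (.col (nat_lit 0))
def w14089 : Root := .mk (.node (.node (.col (nat_lit 3)) (.slot (nat_lit 3)) (.slot (nat_lit 3))) (.node (.col (nat_lit 2)) (.node (.col (nat_lit 1)) (.node (.col (nat_lit 1)) (.slot (nat_lit 0)) (.slot (nat_lit 0))) (.slot (nat_lit 0))) (.col (nat_lit 0))) (.slot (nat_lit 2))) (.col (nat_lit 3)) (.col (nat_lit 0)) (.slot (nat_lit 0))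
def l3153 : Root := .mk (.node (.node (.node (.col (nat_lit 3)) (.slot (nat_lit 3)) (.slot (nat_lit 3))) (.node (.col (nat_lit 2)) (.node (.col (nat_lit 1)) (.node (.col (nat_lit 1)) (.slot (nat_lit 1)) (.slot (nat_lit 1))) (.slot (nat_lit 4))) (.col (nat_lit 0))) (.slot (nat_lit 3))) (.col (nat_lit 0)) (.node (.col (nat_lit 0)) (.slot (nat_lit 0)) (.slot (nat_lit 0)))) (.col (nat_lit 0)) (.col (nat_lit 1)) (.col (nat_lit 2))
def w14090 : Root := .mk (.node (.node (.node (.col (nat_lit 3)) (.slot (nat_lit 3)) (.slot (nat_lit 3))) (.node (.col (nat_lit 2)) (.node (.col (nat_lit 1)) (.node (.col (nat_lit 1)) (.slot (nat_lit 1)) (.slot (nat_lit 1))) (.slot (nat_lit 4))) (.slot (nat_lit 1))) (.slot (nat_lit 3))) (.col (nat_lit 0)) (.node (.col (nat_lit 0)) (.slot (nat_lit 0)) (.slot (nat_lit 0)))) (.col (nat_lit 0)) (.col (nat_lit 1)) (.col (nat_lit 2))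
def l3154 : Root := .mk (.node (.node (.node (.col (nat_lit 3)) (.slot (nat_lit 4)) (.slot (nat_lit 4))) (.node (.col (nat_lit 2)) (.node (.col (nat_lit 1)) (.slot (nat_lit 8)) (.slot (nat_lit 8))) (.slot (nat_lit 9))) (.slot (nat_lit 8))) (.col (nat_lit 0)) (.node (.col (nat_lit 0)) (.slot (nat_lit 5)) (.slot (nat_lit 5)))) (.col (nat_lit 0)) (.col (nat_lit 1)) (.col (nat_lit 2))
def w14091 : Root := .mk (.node (.node (.node (.col (nat_lit 3)) (.slot (nat_lit 4)) (.slot (nat_lit 4))) (.node (.col (nat_lit 2)) (.node (.col (nat_lit 1)) (.slot (nat_lit 8)) (.slot (nat_lit 8))) (.slot (nat_lit 9))) (.slot (nat_lit 8))) (.col (nat_lit 0)) (.node (.col (nat_lit 0)) (.slot (nat_lit 5)) (.slot (nat_lit 5)))) (.col (nat_lit 0)) (.node (.slot (nat_lit 0)) (.col (nat_lit 0)) (.slot (nat_lit 0))) (.col (nat_lit 2))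
def w14092 : Root := .mk (.node (.node (.node (.col (nat_lit 3)) (.slot (nat_lit 1)) (.slot (nat_lit 1))) (.node (.col (nat_lit 2)) (.node (.col (nat_lit 1)) (.slot (nat_lit 1)) (.slot (nat_lit 1))) (.slot (nat_lit 2))) (.slot (nat_lit 2))) (.col (nat_lit 0)) (.node (.col (nat_lit 1)) (.slot (nat_lit 1)) (.slot (nat_lit 1)))) (.col (nat_lit 0)) (.node (.slot (nat_lit 0)) (.col (nat_lit 0)) (.slot (nat_lit 0))) (.col (nat_lit 2))
def w14093 : Root := .mk (.node (.node (.node (.col (nat_lit 3)) (.slot (nat_lit 3)) (.slot (nat_lit 1))) (.node (.col (nat_lit 2)) (.node (.col (nat_lit 1)) (.slot (nat_lit 7)) (.slot (nat_lit 5))) (.slot (nat_lit 8))) (.slot (nat_lit 8))) (.col (nat_lit 0)) (.node (.col (nat_lit 2)) (.slot (nat_lit 2)) (.slot (nat_lit 2)))) (.col (nat_lit 0)) (.slot (nat_lit 0)) (.col (nat_lit 2))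
def w14094 : Root := .mk (.node (.node (.node (.col (nat_lit 3)) (.slot (nat_lit 1)) (.slot (nat_lit 0))) (.node (.col (nat_lit 2)) (.node (.col (nat_lit 1)) (.slot (nat_lit 2)) (.slot (nat_lit 2))) (.slot (nat_lit 1))) (.slot (nat_lit 1))) (.col (nat_lit 0)) (.node (.col (nat_lit 3)) (.slot (nat_lit 1)) (.slot (nat_lit 1)))) (.col (nat_lit 0)) (.node (.slot (nat_lit 0)) (.col (nat_lit 0)) (.slot (nat_lit 0))) (.col (nat_lit 2))
def l3155 : Root := .mk (.col (nat_lit 1)) (.node (.node .junk (.col (nat_lit 1)) (.col (nat_lit 2))) (.col (nat_lit 0)) (.node (.slot (nat_lit 0)) (.slot (nat_lit 0)) (.slot (nat_lit 0)))) (.node (.col (nat_lit 2)) (.node (.col (nat_lit 1)) (.slot (nat_lit 7)) (.slot (nat_lit 5))) (.slot (nat_lit 8))) (.node (.col (nat_lit 4)) (.slot (nat_lit 1)) (.slot (nat_lit 1)))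
def w14095 : Root := .mk (.node (.node (.col (nat_lit 3)) (.slot (nat_lit 0)) (.slot (nat_lit 0))) (.node (.col (nat_lit 2)) (.node (.col (nat_lit 1)) (.slot (nat_lit 7)) (.slot (nat_lit 5))) (.slot (nat_lit 8))) (.node (.col (nat_lit 4)) (.slot (nat_lit 1)) (.slot (nat_lit 1)))) (.node .junk (.col (nat_lit 1)) (.col (nat_lit 2))) (.col (nat_lit 0)) (.node (.slot (nat_lit 0)) (.slot (nat_lit 0)) (.slot (nat_lit 0)))
def w14096 : Root := .mk (.node (.node (.col (nat_lit 3)) (.slot (nat_lit 1)) (.slot (nat_lit 1))) (.node (.col (nat_lit 2)) (.node (.col (nat_lit 1)) (.slot (nat_lit 7)) (.slot (nat_lit 5))) (.slot (nat_lit 8))) (.node (.slot (nat_lit 0)) (.slot (nat_lit 0)) (.slot (nat_lit 0)))) (.node .junk (.col (nat_lit 1)) (.col (nat_lit 2))) (.col (nat_lit 0)) (.node (.slot (nat_lit 0)) (.slot (nat_lit 0)) (.slot (nat_lit 0)))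
def w14097 : Root := .mk (.node (.node (.node (.col (nat_lit 3)) (.slot (nat_lit 1)) (.slot (nat_lit 1))) (.node (.col (nat_lit 2)) (.slot (nat_lit 0)) (.col (nat_lit 4))) (.col (nat_lit 2))) (.col (nat_lit 0)) (.node (.slot (nat_lit 0)) (.col (nat_lit 1)) (.slot (nat_lit 6)))) (.col (nat_lit 0)) (.col (nat_lit 1)) (.col (nat_lit 2))
def w14098 : Root := .mk (.node (.node (.col (nat_lit 3)) (.slot (nat_lit 0)) (.slot (nat_lit 0))) (.node (.node .junk (.col (nat_lit 1)) (.col (nat_lit 2))) (.col (nat_lit 0)) (.node (.slot (nat_lit 0)) (.col (nat_lit 1)) (.slot (nat_lit 0)))) (.col (nat_lit 4))) (.col (nat_lit 2)) (.node (.col (nat_lit 1)) (.slot (nat_lit 1)) (.slot (nat_lit 1))) (.col (nat_lit 4))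
def l3156 : Root := .mk (.node (.node (.node (.col (nat_lit 3)) (.slot (nat_lit 3)) (.slot (nat_lit 3))) (.node (.col (nat_lit 2)) (.node (.col (nat_lit 1)) (.slot (nat_lit 7)) (.slot (nat_lit 5))) (.col (nat_lit 4))) (.slot (nat_lit 5))) (.col (nat_lit 0)) (.node (.slot (nat_lit 0)) (.col (nat_lit 1)) (.slot (nat_lit 6)))) (.col (nat_lit 0)) (.col (nat_lit 1)) (.col (nat_lit 2))
def w14099 : Root := .mk (.node (.node (.node (.col (nat_lit 3)) (.slot (nat_lit 3)) (.slot (nat_lit 3))) (.node (.col (nat_lit 2)) (.node (.col (nat_lit 1)) (.slot (nat_lit 7)) (.slot (nat_lit 5))) (.slot (nat_lit 1))) (.slot (nat_lit 5))) (.col (nat_lit 0)) (.node (.slot (nat_lit 0)) (.col (nat_lit 1)) (.slot (nat_lit 6)))) (.col (nat_lit 0)) (.col (nat_lit 1)) (.col (nat_lit 2))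
def w14100 : Root := .mk (.node (.node (.col (nat_lit 3)) (.slot (nat_lit 1)) (.slot (nat_lit 1))) (.node (.node .junk (.col (nat_lit 1)) (.col (nat_lit 2))) (.col (nat_lit 0)) (.node (.slot (nat_lit 0)) (.col (nat_lit 2)) (.slot (nat_lit 0)))) (.col (nat_lit 1))) (.col (nat_lit 2)) (.node (.col (nat_lit 1)) (.slot (nat_lit 0)) (.slot (nat_lit 0))) (.col (nat_lit 1))
def w14101 : Root := .mk (.node (.col (nat_lit 3)) (.slot (nat_lit 1)) (.slot (nat_lit 1))) (.node (.node .junk (.col (nat_lit 1)) (.col (nat_lit 2))) (.col (nat_lit 0)) (.node (.slot (nat_lit 0)) (.col (nat_lit 2)) (.slot (nat_lit 0)))) (.node (.col (nat_lit 2)) (.slot (nat_lit 0)) (.slot (nat_lit 1))) (.col (nat_lit 1))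
def l3157 : Root := .mk (.node (.col (nat_lit 3)) (.slot (nat_lit 1)) (.slot (nat_lit 1))) (.node (.node .junk (.col (nat_lit 1)) (.col (nat_lit 2))) (.col (nat_lit 0)) (.node (.slot (nat_lit 0)) (.col (nat_lit 2)) (.slot (nat_lit 0)))) (.node (.col (nat_lit 2)) (.node (.col (nat_lit 1)) (.slot (nat_lit 7)) (.slot (nat_lit 5))) (.slot (nat_lit 9))) (.col (nat_lit 1))
def w14102 : Root := .mk (.node (.node (.col (nat_lit 3)) (.slot (nat_lit 1)) (.slot (nat_lit 1))) (.node (.col (nat_lit 2)) (.node (.col (nat_lit 1)) (.slot (nat_lit 7)) (.slot (nat_lit 5))) (.slot (nat_lit 9))) (.slot (nat_lit 1))) (.node .junk (.col (nat_lit 1)) (.col (nat_lit 2))) (.col (nat_lit 0)) (.node (.slot (nat_lit 0)) (.col (nat_lit 2)) (.slot (nat_lit 0)))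
def w14103 : Root := .mk (.node (.node (.col (nat_lit 4)) (.node (.col (nat_lit 2)) (.node (.col (nat_lit 1)) (.slot (nat_lit 0)) (.slot (nat_lit 0))) (.col (nat_lit 1))) (.col (nat_lit 1))) (.col (nat_lit 0)) (.node (.slot (nat_lit 0)) (.col (nat_lit 3)) (.slot (nat_lit 0)))) (.col (nat_lit 0)) (.col (nat_lit 1)) (.col (nat_lit 2))
def w14104 : Root := .mk (.node (.node (.node (.col (nat_lit 3)) (.col (nat_lit 0)) .junk) (.node (.col (nat_lit 2)) (.slot (nat_lit 0)) (.col (nat_lit 1))) (.col (nat_lit 1))) (.col (nat_lit 0)) (.node (.slot (nat_lit 0)) (.col (nat_lit 3)) (.slot (nat_lit 0)))) (.col (nat_lit 0)) (.col (nat_lit 1)) (.col (nat_lit 2))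
def w14105 : Root := .mk (.node (.node (.node (.col (nat_lit 3)) (.col (nat_lit 0)) (.slot (nat_lit 1))) (.slot (nat_lit 0)) (.col (nat_lit 1))) (.node .junk (.col (nat_lit 1)) (.col (nat_lit 2))) (.col (nat_lit 0))) (.slot (nat_lit 0)) (.col (nat_lit 3)) (.col (nat_lit 1))
def w14106 : Root := .mk (.node (.node (.node (.col (nat_lit 3)) (.col (nat_lit 0)) (.slot (nat_lit 1))) (.slot (nat_lit 0)) (.col (nat_lit 1))) (.node .junk (.col (nat_lit 1)) (.col (nat_lit 2))) (.col (nat_lit 0))) (.slot (nat_lit 0)) (.col (nat_lit 3)) (.col (nat_lit 2))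
def w14107 : Root := .mk (.node (.node (.node (.col (nat_lit 3)) (.col (nat_lit 0)) (.slot (nat_lit 1))) (.node (.col (nat_lit 2)) (.slot (nat_lit 0)) (.col (nat_lit 1))) (.col (nat_lit 1))) (.col (nat_lit 0)) (.slot (nat_lit 0))) (.col (nat_lit 0)) (.col (nat_lit 1)) (.col (nat_lit 2))
def l3158 : Root := .mk (.node (.node (.node (.col (nat_lit 3)) (.col (nat_lit 0)) (.slot (nat_lit 4))) (.node (.col (nat_lit 2)) (.node (.col (nat_lit 1)) (.slot (nat_lit 0)) (.slot (nat_lit 0))) (.col (nat_lit 1))) (.col (nat_lit 1))) (.col (nat_lit 0)) (.node (.slot (nat_lit 0)) (.col (nat_lit 3)) (.slot (nat_lit 1)))) (.col (nat_lit 0)) (.col (nat_lit 1)) (.col (nat_lit 2))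
def w14108 : Root := .mk (.node (.node (.node (.col (nat_lit 3)) (.slot (nat_lit 1)) (.slot (nat_lit 4))) (.node (.col (nat_lit 2)) (.node (.col (nat_lit 1)) (.slot (nat_lit 0)) (.slot (nat_lit 0))) (.col (nat_lit 1))) (.col (nat_lit 1))) (.col (nat_lit 0)) (.node (.slot (nat_lit 0)) (.col (nat_lit 3)) (.slot (nat_lit 1)))) (.col (nat_lit 0)) (.col (nat_lit 1)) (.col (nat_lit 2))
def w14109 : Root := .mk (.node (.col (nat_lit 3)) (.slot (nat_lit 0)) (.slot (nat_lit 0))) (.node (.node .junk (.col (nat_lit 1)) (.col (nat_lit 2))) (.col (nat_lit 0)) (.node (.slot (nat_lit 0)) (.col (nat_lit 3)) (.slot (nat_lit 0)))) (.node (.col (nat_lit 2)) (.node (.col (nat_lit 1)) (.slot (nat_lit 0)) (.slot (nat_lit 1))) (.slot (nat_lit 1))) (.col (nat_lit 1))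
def l3159 : Root := .mk (.node (.node (.node (.col (nat_lit 3)) (.slot (nat_lit 4)) (.slot (nat_lit 1))) (.node (.col (nat_lit 2)) (.node (.col (nat_lit 1)) (.slot (nat_lit 7)) (.slot (nat_lit 5))) (.slot (nat_lit 9))) (.col (nat_lit 1))) (.col (nat_lit 0)) (.node (.slot (nat_lit 0)) (.col (nat_lit 3)) (.slot (nat_lit 1)))) (.col (nat_lit 0)) (.col (nat_lit 1)) (.col (nat_lit 2))
def w14110 : Root := .mk (.node (.node (.node (.col (nat_lit 3)) (.slot (nat_lit 4)) (.slot (nat_lit 1))) (.node (.col (nat_lit 2)) (.node (.col (nat_lit 1)) (.slot (nat_lit 7)) (.slot (nat_lit 5))) (.slot (nat_lit 9))) (.slot (nat_lit 1))) (.col (nat_lit 0)) (.node (.slot (nat_lit 0)) (.col (nat_lit 3)) (.slot (nat_lit 1)))) (.col (nat_lit 0)) (.col (nat_lit 1)) (.col (nat_lit 2))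
def w14111 : Root := .mk (.node (.node (.col (nat_lit 3)) (.slot (nat_lit 1)) (.slot (nat_lit 1))) (.node (.node .junk (.col (nat_lit 1)) (.col (nat_lit 2))) (.col (nat_lit 0)) (.node (.slot (nat_lit 0)) (.col (nat_lit 4)) (.slot (nat_lit 0)))) (.col (nat_lit 1))) (.col (nat_lit 2)) (.node (.col (nat_lit 1)) (.slot (nat_lit 0)) (.slot (nat_lit 0))) (.col (nat_lit 1))
def l3160 : Root := .mk (.node (.col (nat_lit 3)) (.slot (nat_lit 1)) (.slot (nat_lit 1))) (.node (.node .junk (.col (nat_lit 1)) (.col (nat_lit 2))) (.col (nat_lit 0)) (.node (.slot (nat_lit 0)) (.col (nat_lit 4)) (.slot (nat_lit 0)))) (.node (.col (nat_lit 2)) (.node (.col (nat_lit 1)) (.slot (nat_lit 7)) (.slot (nat_lit 5))) (.slot (nat_lit 8))) (.col (nat_lit 1))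
def w14112 : Root := .mk (.node (.node (.col (nat_lit 3)) (.slot (nat_lit 1)) (.slot (nat_lit 1))) (.node (.col (nat_lit 2)) (.node (.col (nat_lit 1)) (.slot (nat_lit 7)) (.slot (nat_lit 5))) (.slot (nat_lit 8))) (.slot (nat_lit 1))) (.node .junk (.col (nat_lit 1)) (.col (nat_lit 2))) (.col (nat_lit 0)) (.node (.slot (nat_lit 0)) (.col (nat_lit 4)) (.slot (nat_lit 0)))
def l3161 : Root := .mk (.node (.node (.node (.col (nat_lit 3)) (.slot (nat_lit 3)) (.slot (nat_lit 1))) (.node (.col (nat_lit 2)) (.node (.col (nat_lit 1)) (.slot (nat_lit 5)) (.slot (nat_lit 7))) (.col (nat_lit 3))) (.slot (nat_lit 3))) (.col (nat_lit 0)) (.node (.slot (nat_lit 0)) (.slot (nat_lit 0)) (.slot (nat_lit 0)))) (.col (nat_lit 0)) (.col (nat_lit 1)) (.col (nat_lit 2))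
def w14113 : Root := .mk (.node (.node (.node (.col (nat_lit 3)) (.slot (nat_lit 3)) (.slot (nat_lit 1))) (.node (.col (nat_lit 2)) (.node (.col (nat_lit 1)) (.slot (nat_lit 7)) (.slot (nat_lit 5))) (.node (.col (nat_lit 0)) (.slot (nat_lit 0)) (.slot (nat_lit 0)))) (.slot (nat_lit 3))) (.col (nat_lit 0)) (.node (.slot (nat_lit 0)) (.slot (nat_lit 0)) (.slot (nat_lit 0)))) (.col (nat_lit 0)) (.col (nat_lit 1)) (.col (nat_lit 2))
def l3162 : Root := .mk (.node (.node (.node (.col (nat_lit 3)) (.slot (nat_lit 3)) (.slot (nat_lit 1))) (.node (.col (nat_lit 2)) (.node (.col (nat_lit 1)) (.col (nat_lit 2)) (.slot (nat_lit 5))) (.col (nat_lit 3))) (.slot (nat_lit 3))) (.col (nat_lit 0)) (.node (.slot (nat_lit 0)) (.slot (nat_lit 0)) (.slot (nat_lit 0)))) (.col (nat_lit 0)) (.col (nat_lit 1)) (.col (nat_lit 2))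
def w14114 : Root := .mk (.node (.node (.node (.col (nat_lit 3)) (.slot (nat_lit 3)) (.slot (nat_lit 1))) (.node (.col (nat_lit 2)) (.node (.col (nat_lit 1)) (.col (nat_lit 2)) (.slot (nat_lit 5))) (.slot (nat_lit 1))) (.slot (nat_lit 3))) (.col (nat_lit 0)) (.node (.slot (nat_lit 0)) (.slot (nat_lit 0)) (.slot (nat_lit 0)))) (.col (nat_lit 0)) (.col (nat_lit 1)) (.col (nat_lit 2))
def l3163 : Root := .mk (.node (.node (.node (.col (nat_lit 3)) (.slot (nat_lit 3)) (.slot (nat_lit 3))) (.node (.col (nat_lit 2)) (.node (.col (nat_lit 1)) (.node (.col (nat_lit 1)) (.slot (nat_lit 1)) (.slot (nat_lit 1))) (.slot (nat_lit 3))) (.col (nat_lit 0))) (.slot (nat_lit 5))) (.col (nat_lit 0)) (.node (.slot (nat_lit 0)) (.slot (nat_lit 0)) (.slot (nat_lit 0)))) (.col (nat_lit 0)) (.col (nat_lit 1)) (.col (nat_lit 2))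
def w14115 : Root := .mk (.node (.node (.node (.col (nat_lit 3)) (.slot (nat_lit 3)) (.slot (nat_lit 3))) (.node (.col (nat_lit 2)) (.node (.col (nat_lit 1)) (.node (.col (nat_lit 1)) (.slot (nat_lit 1)) (.slot (nat_lit 1))) (.slot (nat_lit 3))) (.slot (nat_lit 1))) (.slot (nat_lit 5))) (.col (nat_lit 0)) (.node (.slot (nat_lit 0)) (.slot (nat_lit 0)) (.slot (nat_lit 0)))) (.col (nat_lit 0)) (.col (nat_lit 1)) (.col (nat_lit 2))
def l3164 : Root := .mk (.node (.node (.node (.col (nat_lit 3)) (.slot (nat_lit 5)) (.slot (nat_lit 3))) (.node (.col (nat_lit 2)) (.node (.col (nat_lit 1)) (.slot (nat_lit 8)) (.slot (nat_lit 8))) (.slot (nat_lit 9))) (.slot (nat_lit 5))) (.col (nat_lit 0)) (.node (.slot (nat_lit 0)) (.slot (nat_lit 6)) (.slot (nat_lit 6)))) (.col (nat_lit 0)) (.col (nat_lit 1)) (.col (nat_lit 2))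
def w14116 : Root := .mk (.node (.node (.node (.col (nat_lit 3)) (.slot (nat_lit 5)) (.slot (nat_lit 3))) (.node (.col (nat_lit 2)) (.node (.col (nat_lit 1)) (.slot (nat_lit 8)) (.slot (nat_lit 8))) (.slot (nat_lit 9))) (.slot (nat_lit 5))) (.col (nat_lit 0)) (.node (.slot (nat_lit 0)) (.slot (nat_lit 6)) (.slot (nat_lit 6)))) (.col (nat_lit 0)) (.node (.slot (nat_lit 0)) (.col (nat_lit 0)) (.slot (nat_lit 0))) (.col (nat_lit 2))
def w14117 : Root := .mk (.node (.node (.node (.node (.col (nat_lit 3)) (.slot (nat_lit 1)) (.slot (nat_lit 0))) (.node (.col (nat_lit 2)) (.node (.col (nat_lit 1)) (.slot (nat_lit 2)) (.slot (nat_lit 2))) (.slot (nat_lit 1))) (.slot (nat_lit 1))) (.col (nat_lit 0)) (.slot (nat_lit 3))) (.col (nat_lit 0)) (.col (nat_lit 2))) (.slot (nat_lit 0)) (.col (nat_lit 0)) (.col (nat_lit 1))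
def l3165 : Root := .mk (.node (.node (.node (.col (nat_lit 3)) (.slot (nat_lit 7)) (.slot (nat_lit 5))) (.node (.col (nat_lit 2)) (.node (.col (nat_lit 1)) (.slot (nat_lit 8)) (.slot (nat_lit 8))) (.slot (nat_lit 9))) (.slot (nat_lit 8))) (.col (nat_lit 0)) (.slot (nat_lit 7))) (.col (nat_lit 0)) (.node (.node (.col (nat_lit 0)) (.col (nat_lit 1)) (.slot (nat_lit 0))) (.col (nat_lit 0)) (.slot (nat_lit 3))) (.col (nat_lit 2))
def w14118 : Root := .mk (.node (.node (.node (.col (nat_lit 3)) (.slot (nat_lit 7)) (.slot (nat_lit 5))) (.node (.col (nat_lit 2)) (.slot (nat_lit 9)) (.slot (nat_lit 9))) (.slot (nat_lit 8))) (.col (nat_lit 0)) (.slot (nat_lit 7))) (.col (nat_lit 0)) (.node (.node (.col (nat_lit 0)) (.col (nat_lit 1)) (.slot (nat_lit 0))) (.col (nat_lit 0)) (.slot (nat_lit 3))) (.col (nat_lit 2))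
def w14119 : Root := .mk (.node (.node (.node (.col (nat_lit 3)) (.slot (nat_lit 1)) (.slot (nat_lit 1))) (.col (nat_lit 0)) (.slot (nat_lit 2))) (.col (nat_lit 0)) (.slot (nat_lit 3))) (.col (nat_lit 0)) (.node (.node (.col (nat_lit 0)) (.col (nat_lit 1)) (.slot (nat_lit 0))) (.col (nat_lit 0)) (.slot (nat_lit 3))) (.col (nat_lit 4))
def w14120 : Root := .mk (.col (nat_lit 1)) (.node (.node (.col (nat_lit 0)) (.node (.node (.col (nat_lit 0)) (.col (nat_lit 1)) (.slot (nat_lit 0))) (.col (nat_lit 0)) (.slot (nat_lit 3))) (.col (nat_lit 4))) (.col (nat_lit 0)) (.slot (nat_lit 3))) (.node (.col (nat_lit 2)) (.node (.col (nat_lit 0)) (.slot (nat_lit 0)) (.slot (nat_lit 0))) .junk) (.col (nat_lit 0))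
def l3166 : Root := .mk (.node (.col (nat_lit 1)) (.node (.node (.col (nat_lit 0)) (.node (.node (.col (nat_lit 0)) (.col (nat_lit 1)) (.slot (nat_lit 0))) (.col (nat_lit 0)) (.slot (nat_lit 3))) (.col (nat_lit 4))) (.col (nat_lit 0)) (.slot (nat_lit 3))) (.slot (nat_lit 3))) (.col (nat_lit 2)) (.node (.col (nat_lit 0)) (.slot (nat_lit 3)) (.slot (nat_lit 2))) (.col (nat_lit 0))
def w14121 : Root := .mk (.node (.node (.col (nat_lit 3)) (.slot (nat_lit 0)) (.slot (nat_lit 0))) (.node (.node (.col (nat_lit 0)) (.node (.node (.col (nat_lit 0)) (.col (nat_lit 1)) (.slot (nat_lit 0))) (.col (nat_lit 0)) (.slot (nat_lit 3))) (.col (nat_lit 4))) (.col (nat_lit 0)) (.slot (nat_lit 3))) (.slot (nat_lit 3))) (.col (nat_lit 2)) (.node (.col (nat_lit 0)) (.slot (nat_lit 3)) (.slot (nat_lit 2))) (.col (nat_lit 0))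
def w14122 : Root := .mk (.node (.node (.node (.col (nat_lit 3)) (.slot (nat_lit 3)) (.slot (nat_lit 1))) (.node (.col (nat_lit 2)) (.node (.col (nat_lit 0)) (.slot (nat_lit 1)) (.slot (nat_lit 1))) (.node (.col (nat_lit 1)) (.slot (nat_lit 1)) (.slot (nat_lit 0)))) (.slot (nat_lit 8))) (.col (nat_lit 0)) (.slot (nat_lit 3))) (.col (nat_lit 0)) (.slot (nat_lit 0)) (.col (nat_lit 4))
def w14123 : Root := .mk (.node (.slot (nat_lit 0)) (.node (.node (.col (nat_lit 0)) (.node (.node (.col (nat_lit 0)) (.col (nat_lit 1)) (.slot (nat_lit 0))) (.col (nat_lit 0)) (.slot (nat_lit 3))) (.col (nat_lit 4))) (.col (nat_lit 0)) (.slot (nat_lit 3))) (.slot (nat_lit 1))) (.col (nat_lit 2)) (.col (nat_lit 4)) (.col (nat_lit 1))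
def w14124 : Root := .mk (.node (.col (nat_lit 1)) (.node (.node (.col (nat_lit 0)) (.slot (nat_lit 0)) (.col (nat_lit 4))) (.col (nat_lit 0)) (.slot (nat_lit 1))) (.slot (nat_lit 2))) (.col (nat_lit 2)) (.node (.col (nat_lit 0)) (.slot (nat_lit 1)) .junk) (.col (nat_lit 1))
def w14125 : Root := .mk (.node (.node (.col (nat_lit 3)) (.slot (nat_lit 3)) (.slot (nat_lit 1))) (.node (.node (.col (nat_lit 0)) (.slot (nat_lit 0)) (.col (nat_lit 4))) (.col (nat_lit 0)) (.slot (nat_lit 3))) (.slot (nat_lit 8))) (.col (nat_lit 2)) (.node (.col (nat_lit 0)) .junk (.slot (nat_lit 1))) (.col (nat_lit 1))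
def l3167 : Root := .mk (.node (.node (.col (nat_lit 3)) (.slot (nat_lit 3)) (.slot (nat_lit 1))) (.node (.node (.col (nat_lit 0)) (.node (.node (.col (nat_lit 0)) (.col (nat_lit 1)) (.slot (nat_lit 0))) (.col (nat_lit 0)) (.slot (nat_lit 3))) (.col (nat_lit 4))) (.col (nat_lit 0)) (.slot (nat_lit 3))) (.slot (nat_lit 8))) (.col (nat_lit 2)) (.node (.col (nat_lit 0)) (.slot (nat_lit 2)) (.slot (nat_lit 2))) (.col (nat_lit 1))
def w14126 : Root := .mk (.node (.node (.node (.col (nat_lit 3)) (.slot (nat_lit 3)) (.slot (nat_lit 1))) (.node (.col (nat_lit 2)) (.node (.col (nat_lit 0)) (.slot (nat_lit 2)) (.slot (nat_lit 2))) (.node (.col (nat_lit 2)) (.slot (nat_lit 0)) (.slot (nat_lit 0)))) (.slot (nat_lit 8))) (.col (nat_lit 0)) (.slot (nat_lit 3))) (.col (nat_lit 0)) (.node (.node (.col (nat_lit 0)) (.col (nat_lit 1)) (.slot (nat_lit 0))) (.col (nat_lit 0)) (.slot (nat_lit 3))) (.col (nat_lit 4))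
def w14127 : Root := .mk (.node (.node (.node (.col (nat_lit 3)) (.slot (nat_lit 3)) (.slot (nat_lit 1))) (.node (.col (nat_lit 2)) (.node (.col (nat_lit 0)) (.slot (nat_lit 2)) (.slot (nat_lit 2))) (.node (.col (nat_lit 3)) (.slot (nat_lit 0)) (.slot (nat_lit 0)))) (.slot (nat_lit 8))) (.col (nat_lit 0)) (.slot (nat_lit 3))) (.col (nat_lit 0)) (.node (.node (.col (nat_lit 0)) (.col (nat_lit 1)) (.slot (nat_lit 0))) (.col (nat_lit 0)) (.slot (nat_lit 3))) (.col (nat_lit 4))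
def w14128 : Root := .mk (.node (.node (.node (.col (nat_lit 3)) (.slot (nat_lit 3)) (.slot (nat_lit 3))) (.node (.col (nat_lit 2)) (.node (.col (nat_lit 0)) (.slot (nat_lit 0)) (.slot (nat_lit 0))) (.node (.col (nat_lit 4)) (.slot (nat_lit 3)) (.slot (nat_lit 3)))) (.slot (nat_lit 5))) (.col (nat_lit 0)) (.slot (nat_lit 1))) (.col (nat_lit 0)) (.node (.slot (nat_lit 0)) (.col (nat_lit 0)) (.slot (nat_lit 0))) (.col (nat_lit 4))
def w14129 : Root := .mk (.node (.node (.node (.col (nat_lit 3)) (.slot (nat_lit 3)) (.slot (nat_lit 1))) (.node (.col (nat_lit 2)) (.node (.col (nat_lit 0)) (.slot (nat_lit 2)) (.slot (nat_lit 2))) (.node (.slot (nat_lit 0)) (.slot (nat_lit 0)) (.slot (nat_lit 0)))) (.slot (nat_lit 8))) (.col (nat_lit 0)) (.slot (nat_lit 3))) (.col (nat_lit 0)) (.node (.node (.col (nat_lit 0)) (.col (nat_lit 1)) (.slot (nat_lit 0))) (.col (nat_lit 0)) (.slot (nat_lit 3))) (.col (nat_lit 4))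
def w14130 : Root := .mk (.node (.node (.col (nat_lit 2)) (.node (.col (nat_lit 2)) (.node (.col (nat_lit 0)) (.slot (nat_lit 1)) (.slot (nat_lit 1))) (.slot (nat_lit 2))) (.slot (nat_lit 2))) (.col (nat_lit 0)) (.slot (nat_lit 1))) (.col (nat_lit 0)) (.slot (nat_lit 0)) (.col (nat_lit 4))
def w14131 : Root := .mk (.node (.col (nat_lit 3)) (.slot (nat_lit 5)) (.slot (nat_lit 1))) (.node (.slot (nat_lit 0)) (.col (nat_lit 0)) (.slot (nat_lit 1))) (.node (.col (nat_lit 2)) (.node (.col (nat_lit 0)) (.slot (nat_lit 1)) (.slot (nat_lit 1))) (.slot (nat_lit 2))) (.node (.col (nat_lit 0)) (.slot (nat_lit 3)) (.slot (nat_lit 1)))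
def w14132 : Root := .mk (.node (.node (.node (.col (nat_lit 3)) (.slot (nat_lit 1)) (.slot (nat_lit 1))) (.node (.col (nat_lit 2)) (.node (.col (nat_lit 0)) (.slot (nat_lit 1)) (.slot (nat_lit 1))) (.slot (nat_lit 2))) (.node (.col (nat_lit 1)) (.slot (nat_lit 1)) (.slot (nat_lit 0)))) (.col (nat_lit 0)) (.slot (nat_lit 3))) (.col (nat_lit 0)) (.node (.node (.col (nat_lit 0)) (.col (nat_lit 1)) (.slot (nat_lit 0))) (.col (nat_lit 0)) (.slot (nat_lit 3))) (.col (nat_lit 4))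
def w14133 : Root := .mk (.node (.node (.node (.col (nat_lit 3)) (.slot (nat_lit 1)) (.slot (nat_lit 1))) (.node (.col (nat_lit 2)) (.node (.col (nat_lit 0)) (.slot (nat_lit 1)) (.slot (nat_lit 1))) (.slot (nat_lit 2))) (.node (.col (nat_lit 4)) (.slot (nat_lit 1)) (.slot (nat_lit 0)))) (.col (nat_lit 0)) (.slot (nat_lit 3))) (.col (nat_lit 0)) (.node (.node (.col (nat_lit 0)) (.col (nat_lit 1)) (.slot (nat_lit 0))) (.col (nat_lit 0)) (.slot (nat_lit 3))) (.col (nat_lit 4))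
def w14134 : Root := .mk (.node (.node (.col (nat_lit 2)) (.col (nat_lit 4)) (.slot (nat_lit 0))) .junk (.col (nat_lit 2))) (.col (nat_lit 0)) (.node (.node .junk (.col (nat_lit 1)) (.col (nat_lit 2))) (.col (nat_lit 0)) (.slot (nat_lit 1))) (.col (nat_lit 4))
def w14135 : Root := .mk (.node (.node (.col (nat_lit 2)) (.col (nat_lit 4)) (.slot (nat_lit 0))) .junk (.col (nat_lit 2))) (.col (nat_lit 0)) (.node (.node (.col (nat_lit 0)) (.col (nat_lit 1)) (.node (.col (nat_lit 3)) (.slot (nat_lit 1)) .junk)) (.col (nat_lit 0)) (.node (.col (nat_lit 3)) (.slot (nat_lit 1)) .junk)) (.col (nat_lit 4))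
def w14137 : Root := .mk (.slot (nat_lit 0)) (.col (nat_lit 0)) (.node (.node (.col (nat_lit 0)) (.col (nat_lit 1)) (.node (.col (nat_lit 2)) (.slot (nat_lit 7)) (.slot (nat_lit 5)))) (.col (nat_lit 0)) (.node (.col (nat_lit 0)) (.slot (nat_lit 1)) (.slot (nat_lit 1)))) (.col (nat_lit 4))
def w14138 : Root := .mk (.node (.node (.node (.node (.node (.col (nat_lit 3)) (.slot (nat_lit 0)) (.slot (nat_lit 0))) (.col (nat_lit 4)) .junk) (.col (nat_lit 0)) (.col (nat_lit 3))) (.col (nat_lit 0)) (.col (nat_lit 4))) (.col (nat_lit 0)) (.slot (nat_lit 1))) (.col (nat_lit 0)) (.col (nat_lit 1)) (.node (.col (nat_lit 2)) .junk (.slot (nat_lit 1)))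
def l3169 : Root := .mk (.node (.node (.node (.node (.node (.col (nat_lit 3)) (.slot (nat_lit 0)) (.slot (nat_lit 0))) (.col (nat_lit 4)) (.col (nat_lit 3))) (.col (nat_lit 0)) (.col (nat_lit 3))) (.col (nat_lit 0)) (.col (nat_lit 4))) (.col (nat_lit 0)) (.slot (nat_lit 3))) (.col (nat_lit 0)) (.col (nat_lit 1)) (.node (.col (nat_lit 2)) (.slot (nat_lit 7)) (.slot (nat_lit 5)))
def w14139 : Root := .mk (.node (.col (nat_lit 3)) (.slot (nat_lit 0)) (.slot (nat_lit 0))) (.node (.node (.col (nat_lit 0)) (.node (.node (.col (nat_lit 0)) (.col (nat_lit 1)) (.slot (nat_lit 8))) (.col (nat_lit 0)) (.slot (nat_lit 3))) (.col (nat_lit 4))) (.col (nat_lit 0)) (.col (nat_lit 3))) (.col (nat_lit 4)) (.col (nat_lit 3))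
def l3170 : Root := .mk (.node (.node (.col (nat_lit 3)) (.slot (nat_lit 3)) (.slot (nat_lit 1))) (.col (nat_lit 4)) (.node (.slot (nat_lit 0)) (.slot (nat_lit 0)) (.slot (nat_lit 0)))) (.node (.col (nat_lit 0)) (.node (.node (.col (nat_lit 0)) (.col (nat_lit 1)) (.slot (nat_lit 8))) (.col (nat_lit 0)) (.slot (nat_lit 3))) (.col (nat_lit 4))) (.col (nat_lit 0)) (.col (nat_lit 3))
def w14140 : Root := .mk (.node (.node (.node (.col (nat_lit 3)) (.slot (nat_lit 3)) (.slot (nat_lit 1))) (.col (nat_lit 4)) (.node (.slot (nat_lit 0)) (.slot (nat_lit 0)) (.slot (nat_lit 0)))) (.col (nat_lit 0)) (.slot (nat_lit 1))) (.col (nat_lit 0)) (.node (.node (.col (nat_lit 0)) (.col (nat_lit 1)) (.slot (nat_lit 8))) (.col (nat_lit 0)) (.slot (nat_lit 3))) (.col (nat_lit 4))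
def w14141 : Root := .mk (.node (.node (.node (.col (nat_lit 3)) (.slot (nat_lit 3)) (.slot (nat_lit 1))) (.node (.col (nat_lit 2)) (.node (.col (nat_lit 0)) (.slot (nat_lit 1)) (.slot (nat_lit 1))) (.slot (nat_lit 2))) (.node (.slot (nat_lit 0)) (.slot (nat_lit 0)) (.slot (nat_lit 0)))) (.col (nat_lit 0)) (.slot (nat_lit 1))) (.col (nat_lit 0)) (.node (.node (.col (nat_lit 0)) (.col (nat_lit 1)) (.slot (nat_lit 8))) (.col (nat_lit 0)) (.slot (nat_lit 3))) (.col (nat_lit 4))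
def w14142 : Root := .mk (.node (.node (.col (nat_lit 3)) (.slot (nat_lit 0)) (.slot (nat_lit 0))) (.node (.node (.col (nat_lit 0)) (.node (.slot (nat_lit 0)) (.col (nat_lit 0)) (.slot (nat_lit 0))) (.col (nat_lit 4))) (.col (nat_lit 0)) (.slot (nat_lit 1))) (.col (nat_lit 3))) (.col (nat_lit 2)) (.node (.col (nat_lit 0)) .junk (.slot (nat_lit 1))) (.col (nat_lit 3))
def w14143 : Root := .mk (.node (.node (.col (nat_lit 3)) (.slot (nat_lit 5)) (.slot (nat_lit 1))) (.node (.slot (nat_lit 0)) (.col (nat_lit 0)) (.slot (nat_lit 1))) (.node (.col (nat_lit 0)) (.slot (nat_lit 3)) (.slot (nat_lit 1)))) (.col (nat_lit 2)) (.node (.col (nat_lit 0)) .junk (.slot (nat_lit 1))) (.col (nat_lit 3))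
def w14144 : Root := .mk (.node (.node (.node (.col (nat_lit 3)) (.slot (nat_lit 2)) (.slot (nat_lit 2))) (.node (.node (.col (nat_lit 0)) (.node (.node (.col (nat_lit 0)) (.col (nat_lit 1)) (.slot (nat_lit 0))) (.col (nat_lit 0)) (.slot (nat_lit 3))) (.col (nat_lit 4))) (.col (nat_lit 0)) (.slot (nat_lit 3))) (.slot (nat_lit 1))) (.col (nat_lit 2)) (.col (nat_lit 3))) (.col (nat_lit 0)) (.col (nat_lit 2)) (.col (nat_lit 3))
def w14145 : Root := .mk (.node (.node (.col (nat_lit 3)) (.slot (nat_lit 3)) (.slot (nat_lit 1))) (.node (.node (.col (nat_lit 0)) (.slot (nat_lit 0)) (.col (nat_lit 4))) (.col (nat_lit 0)) (.slot (nat_lit 3))) (.slot (nat_lit 8))) (.col (nat_lit 2)) (.node (.col (nat_lit 0)) .junk (.node (.col (nat_lit 0)) (.slot (nat_lit 0)) (.slot (nat_lit 0)))) (.col (nat_lit 3))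
def w14146 : Root := .mk (.node (.node (.node (.col (nat_lit 3)) (.slot (nat_lit 8)) (.slot (nat_lit 8))) (.node (.node (.col (nat_lit 0)) (.node (.slot (nat_lit 0)) (.col (nat_lit 0)) (.slot (nat_lit 0))) (.col (nat_lit 4))) (.col (nat_lit 0)) (.slot (nat_lit 4))) (.slot (nat_lit 8))) (.col (nat_lit 2)) (.col (nat_lit 3))) (.col (nat_lit 0)) (.col (nat_lit 2)) (.node (.col (nat_lit 2)) (.slot (nat_lit 0)) (.slot (nat_lit 0)))
def w14147 : Root := .mk (.node (.node (.col (nat_lit 3)) (.slot (nat_lit 3)) (.slot (nat_lit 1))) (.node (.node (.col (nat_lit 0)) (.slot (nat_lit 0)) (.col (nat_lit 4))) (.col (nat_lit 0)) (.slot (nat_lit 3))) (.slot (nat_lit 8))) (.col (nat_lit 2)) (.node (.col (nat_lit 0)) .junk (.node (.slot (nat_lit 0)) (.slot (nat_lit 0)) (.slot (nat_lit 0)))) (.col (nat_lit 3))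
def w14148 : Root := .mk (.node (.node (.col (nat_lit 3)) (.node (.col (nat_lit 1)) (.slot (nat_lit 0)) (.slot (nat_lit 0))) (.slot (nat_lit 3))) (.node (.node (.col (nat_lit 0)) (.slot (nat_lit 0)) (.col (nat_lit 4))) (.col (nat_lit 0)) (.slot (nat_lit 1))) (.slot (nat_lit 4))) (.col (nat_lit 2)) (.node (.col (nat_lit 0)) (.col (nat_lit 2)) (.slot (nat_lit 5))) (.col (nat_lit 3))
def w14149 : Root := .mk (.node (.node (.col (nat_lit 3)) (.node (.col (nat_lit 2)) (.slot (nat_lit 1)) (.slot (nat_lit 1))) (.slot (nat_lit 2))) (.slot (nat_lit 0)) (.slot (nat_lit 0))) (.col (nat_lit 2)) (.node (.col (nat_lit 0)) (.col (nat_lit 2)) (.slot (nat_lit 5))) (.col (nat_lit 3))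
def w14150 : Root := .mk (.node (.node (.col (nat_lit 3)) (.node (.col (nat_lit 3)) (.slot (nat_lit 0)) (.slot (nat_lit 0))) (.slot (nat_lit 3))) (.node (.node (.col (nat_lit 0)) (.slot (nat_lit 0)) (.col (nat_lit 4))) (.col (nat_lit 0)) (.slot (nat_lit 1))) (.slot (nat_lit 4))) (.col (nat_lit 2)) (.node (.col (nat_lit 0)) (.col (nat_lit 2)) (.slot (nat_lit 5))) (.col (nat_lit 3))
def w14151 : Root := .mk (.node (.node (.col (nat_lit 3)) (.node (.col (nat_lit 4)) (.slot (nat_lit 0)) (.slot (nat_lit 0))) (.slot (nat_lit 3))) (.node (.node (.col (nat_lit 0)) (.slot (nat_lit 0)) (.col (nat_lit 4))) (.col (nat_lit 0)) (.slot (nat_lit 1))) (.slot (nat_lit 4))) (.col (nat_lit 2)) (.node (.col (nat_lit 0)) (.col (nat_lit 2)) (.slot (nat_lit 5))) (.col (nat_lit 3))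
def l3171 : Root := .mk (.node (.node (.col (nat_lit 3)) (.slot (nat_lit 8)) (.slot (nat_lit 8))) (.node (.node (.col (nat_lit 0)) (.node (.node (.col (nat_lit 0)) (.col (nat_lit 1)) (.slot (nat_lit 0))) (.col (nat_lit 0)) (.slot (nat_lit 3))) (.col (nat_lit 4))) (.col (nat_lit 0)) (.slot (nat_lit 4))) (.slot (nat_lit 8))) (.col (nat_lit 2)) (.node (.col (nat_lit 0)) (.col (nat_lit 2)) (.slot (nat_lit 5))) (.col (nat_lit 3))
def w14152 : Root := .mk (.node (.node (.node (.col (nat_lit 3)) (.slot (nat_lit 8)) (.slot (nat_lit 8))) (.node (.col (nat_lit 2)) (.node (.col (nat_lit 0)) (.col (nat_lit 2)) (.slot (nat_lit 5))) (.slot (nat_lit 1))) (.slot (nat_lit 8))) (.col (nat_lit 0)) (.slot (nat_lit 4))) (.col (nat_lit 0)) (.node (.node (.col (nat_lit 0)) (.col (nat_lit 1)) (.slot (nat_lit 0))) (.col (nat_lit 0)) (.slot (nat_lit 3))) (.col (nat_lit 4))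

end Pool.Agent.W319.GCI.K5
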