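import Pool.Agent.W319.GCI.K5Base
set_option autoImplicit false
set_option maxRecDepth 100000
set_option linter.all false
namespace Pool.Agent.W319.GCI.K5
open Pool.Agent.W319.GCI

def w14153 : Root := .mk (.node (.node (.node (.col (nat_lit 3)) (.slot (nat_lit 3)) (.slot (nat_lit 1))) (.node (.col (nat_lit 2)) (.node (.col (nat_lit 0)) (.node (.col (nat_lit 0)) (.slot (nat_lit 0)) (.slot (nat_lit 0))) (.slot (nat_lit 2))) (.slot (nat_lit 2))) (.slot (nat_lit 8))) (.col (nat_lit 0)) (.slot (nat_lit 3))) (.col (nat_lit 0)) (.slot (nat_lit 0)) (.col (nat_lit 4))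
def w14154 : Root := .mk (.node (.node (.node (.col (nat_lit 3)) (.col (nat_lit 0)) (.slot (nat_lit 6))) (.node (.col (nat_lit 2)) (.slot (nat_lit 0)) (.slot (nat_lit 0))) (.slot (nat_lit 2))) (.col (nat_lit 0)) (.slot (nat_lit 6))) (.col (nat_lit 0)) (.slot (nat_lit 0)) (.col (nat_lit 4))
def w14155 : Root := .mk (.node (.node (.node (.col (nat_lit 3)) (.node (.col (nat_lit 3)) (.slot (nat_lit 0)) (.slot (nat_lit 0))) (.slot (nat_lit 2))) (.node (.col (nat_lit 2)) (.node (.col (nat_lit 0)) (.slot (nat_lit 1)) (.slot (nat_lit 1))) (.slot (nat_lit 2))) (.slot (nat_lit 2))) (.col (nat_lit 0)) (.slot (nat_lit 3))) (.col (nat_lit 0)) (.node (.node (.col (nat_lit 0)) (.col (nat_lit 1)) (.slot (nat_lit 0))) (.col (nat_lit 0)) (.slot (nat_lit 3))) (.col (nat_lit 4))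
def w14156 : Root := .mk (.node (.node (.node (.col (nat_lit 3)) (.slot (nat_lit 1)) (.slot (nat_lit 1))) (.node (.col (nat_lit 2)) (.node (.col (nat_lit 0)) (.slot (nat_lit 1)) (.slot (nat_lit 1))) (.slot (nat_lit 2))) (.slot (nat_lit 2))) (.col (nat_lit 0)) (.node (.col (nat_lit 2)) (.slot (nat_lit 1)) (.slot (nat_lit 1)))) (.col (nat_lit 0)) (.node (.slot (nat_lit 0)) (.col (nat_lit 0)) (.slot (nat_lit 0))) (.col (nat_lit 4))
def w14157 : Root := .mk (.node (.node (.node (.col (nat_lit 3)) (.slot (nat_lit 3)) (.slot (nat_lit 3))) (.node (.col (nat_lit 2)) (.node (.col (nat_lit 0)) (.slot (nat_lit 1)) (.slot (nat_lit 1))) (.slot (nat_lit 2))) (.slot (nat_lit 5))) (.col (nat_lit 0)) (.node (.col (nat_lit 4)) (.slot (nat_lit 1)) (.slot (nat_lit 0)))) (.col (nat_lit 0)) (.slot (nat_lit 0)) (.col (nat_lit 4))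
def l3172 : Root := .mk (.node (.node (.node (.col (nat_lit 3)) (.slot (nat_lit 8)) (.slot (nat_lit 8))) (.node (.col (nat_lit 2)) (.node (.col (nat_lit 0)) (.slot (nat_lit 8)) (.slot (nat_lit 8))) (.slot (nat_lit 8))) (.slot (nat_lit 8))) (.col (nat_lit 0)) (.slot (nat_lit 6))) (.col (nat_lit 0)) (.node (.node (.col (nat_lit 0)) (.col (nat_lit 1)) (.slot (nat_lit 8))) (.col (nat_lit 0)) (.slot (nat_lit 3))) (.col (nat_lit 4))
def w14158 : Root := .mk (.node (.node (.node (.col (nat_lit 3)) (.slot (nat_lit 8)) (.slot (nat_lit 8))) (.node (.col (nat_lit 2)) (.slot (nat_lit 9)) (.slot (nat_lit 8))) (.slot (nat_lit 8))) (.col (nat_lit 0)) (.slot (nat_lit 6))) (.col (nat_lit 0)) (.node (.node (.col (nat_lit 0)) (.col (nat_lit 1)) (.slot (nat_lit 8))) (.col (nat_lit 0)) (.slot (nat_lit 3))) (.col (nat_lit 4))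
def w14159 : Root := .mk (.node (.node (.node (.col (nat_lit 3)) (.slot (nat_lit 1)) (.slot (nat_lit 1))) (.node (.col (nat_lit 2)) (.col (nat_lit 0)) (.slot (nat_lit 1))) (.slot (nat_lit 2))) (.col (nat_lit 0)) (.slot (nat_lit 3))) (.col (nat_lit 0)) (.col (nat_lit 2)) (.node (.col (nat_lit 0)) (.slot (nat_lit 3)) (.slot (nat_lit 1)))
def w14160 : Root := .mk (.node (.node (.node (.col (nat_lit 3)) (.slot (nat_lit 1)) (.slot (nat_lit 1))) (.node (.col (nat_lit 2)) (.col (nat_lit 4)) (.slot (nat_lit 1))) (.slot (nat_lit 2))) (.col (nat_lit 0)) (.slot (nat_lit 3))) (.col (nat_lit 0)) (.col (nat_lit 2)) (.node (.col (nat_lit 0)) (.slot (nat_lit 3)) (.slot (nat_lit 1)))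
def w14161 : Root := .mk (.node (.node (.col (nat_lit 3)) (.slot (nat_lit 1)) (.slot (nat_lit 1))) (.node (.node (.col (nat_lit 0)) (.col (nat_lit 2)) (.node (.col (nat_lit 0)) (.slot (nat_lit 3)) (.slot (nat_lit 1)))) (.col (nat_lit 0)) (.slot (nat_lit 3))) (.slot (nat_lit 2))) (.col (nat_lit 2)) (.node (.col (nat_lit 1)) (.slot (nat_lit 0)) (.slot (nat_lit 0))) (.col (nat_lit 1))
def w14162 : Root := .mk (.node (.node (.node (.col (nat_lit 3)) (.slot (nat_lit 1)) (.slot (nat_lit 0))) (.node (.col (nat_lit 2)) (.node (.col (nat_lit 1)) (.slot (nat_lit 2)) (.slot (nat_lit 2))) (.node (.col (nat_lit 0)) (.slot (nat_lit 0)) (.slot (nat_lit 0)))) (.slot (nat_lit 1))) (.col (nat_lit 0)) (.slot (nat_lit 3))) (.col (nat_lit 0)) (.col (nat_lit 2)) (.node (.col (nat_lit 0)) (.slot (nat_lit 3)) (.slot (nat_lit 1)))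
def w14163 : Root := .mk (.node (.node (.node (.col (nat_lit 3)) (.slot (nat_lit 1)) (.slot (nat_lit 0))) (.node (.col (nat_lit 2)) (.node (.col (nat_lit 1)) (.slot (nat_lit 2)) (.slot (nat_lit 2))) (.node (.col (nat_lit 2)) (.slot (nat_lit 0)) (.slot (nat_lit 0)))) (.slot (nat_lit 1))) (.col (nat_lit 0)) (.slot (nat_lit 3))) (.col (nat_lit 0)) (.col (nat_lit 2)) (.node (.col (nat_lit 0)) (.slot (nat_lit 3)) (.slot (nat_lit 1)))
def w14164 : Root := .mk (.node (.node (.node (.col (nat_lit 3)) (.slot (nat_lit 1)) (.slot (nat_lit 0))) (.node (.col (nat_lit 2)) (.node (.col (nat_lit 1)) (.slot (nat_lit 2)) (.slot (nat_lit 2))) (.node (.col (nat_lit 3)) (.slot (nat_lit 0)) (.slot (nat_lit 0)))) (.slot (nat_lit 1))) (.col (nat_lit 0)) (.slot (nat_lit 3))) (.col (nat_lit 0)) (.col (nat_lit 2)) (.node (.col (nat_lit 0)) (.slot (nat_lit 3)) (.slot (nat_lit 1)))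
def w14165 : Root := .mk (.node (.node (.node (.col (nat_lit 3)) (.slot (nat_lit 1)) (.slot (nat_lit 0))) (.node (.col (nat_lit 2)) (.node (.col (nat_lit 1)) (.slot (nat_lit 0)) (.slot (nat_lit 0))) (.node (.col (nat_lit 4)) (.slot (nat_lit 2)) (.slot (nat_lit 2)))) (.slot (nat_lit 1))) (.col (nat_lit 0)) (.slot (nat_lit 3))) (.col (nat_lit 0)) (.col (nat_lit 2)) (.node (.col (nat_lit 0)) (.slot (nat_lit 3)) (.slot (nat_lit 1)))
def w14167 : Root := .mk (.node (.node (.node (.col (nat_lit 3)) (.slot (nat_lit 1)) (.slot (nat_lit 0))) (.node (.col (nat_lit 2)) (.node (.col (nat_lit 1)) (.slot (nat_lit 2)) (.slot (nat_lit 2))) (.slot (nat_lit 1))) (.node (.col (nat_lit 1)) (.slot (nat_lit 0)) (.slot (nat_lit 0)))) (.col (nat_lit 0)) (.slot (nat_lit 3))) (.col (nat_lit 0)) (.col (nat_lit 2)) (.node (.col (nat_lit 0)) (.slot (nat_lit 3)) (.slot (nat_lit 1)))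
def w14168 : Root := .mk (.node (.node (.node (.col (nat_lit 3)) (.slot (nat_lit 0)) (.slot (nat_lit 0))) (.node (.col (nat_lit 2)) (.node (.col (nat_lit 1)) (.slot (nat_lit 1)) (.slot (nat_lit 0))) (.slot (nat_lit 1))) (.node (.col (nat_lit 2)) (.slot (nat_lit 2)) (.slot (nat_lit 2)))) (.col (nat_lit 0)) (.slot (nat_lit 3))) (.col (nat_lit 0)) (.col (nat_lit 2)) (.node (.col (nat_lit 0)) (.slot (nat_lit 3)) (.slot (nat_lit 1)))
def w14169 : Root := .mk (.node (.node (.node (.col (nat_lit 3)) (.slot (nat_lit 1)) (.slot (nat_lit 0))) (.node (.col (nat_lit 2)) (.node (.col (nat_lit 1)) (.slot (nat_lit 3)) (.slot (nat_lit 3))) (.slot (nat_lit 1))) (.node (.col (nat_lit 4)) (.slot (nat_lit 1)) (.slot (nat_lit 0)))) (.col (nat_lit 0)) (.slot (nat_lit 3))) (.col (nat_lit 0)) (.col (nat_lit 2)) (.node (.col (nat_lit 0)) (.slot (nat_lit 3)) (.slot (nat_lit 1)))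
def w14170 : Root := .mk (.node (.node (.node (.col (nat_lit 3)) (.slot (nat_lit 0)) (.slot (nat_lit 0))) (.node (.col (nat_lit 2)) (.node (.col (nat_lit 1)) (.slot (nat_lit 2)) (.slot (nat_lit 1))) (.slot (nat_lit 1))) (.node (.slot (nat_lit 0)) (.slot (nat_lit 0)) (.slot (nat_lit 0)))) (.col (nat_lit 0)) (.slot (nat_lit 3))) (.col (nat_lit 0)) (.col (nat_lit 2)) (.node (.col (nat_lit 0)) (.slot (nat_lit 3)) (.slot (nat_lit 1)))
def w14171 : Root := .mk (.node (.node (.node (.col (nat_lit 3)) (.slot (nat_lit 1)) (.slot (nat_lit 0))) (.node (.col (nat_lit 2)) (.node (.col (nat_lit 1)) (.col (nat_lit 2)) (.slot (nat_lit 3))) (.slot (nat_lit 1))) (.slot (nat_lit 2))) (.col (nat_lit 0)) (.slot (nat_lit 3))) (.col (nat_lit 0)) (.col (nat_lit 2)) (.node (.col (nat_lit 0)) (.slot (nat_lit 3)) (.slot (nat_lit 1)))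
def w14172 : Root := .mk (.node (.node (.node (.col (nat_lit 3)) (.slot (nat_lit 3)) (.slot (nat_lit 1))) (.node (.col (nat_lit 2)) (.node (.col (nat_lit 1)) (.slot (nat_lit 0)) (.slot (nat_lit 0))) (.slot (nat_lit 3))) (.slot (nat_lit 8))) (.col (nat_lit 0)) (.slot (nat_lit 3))) (.col (nat_lit 0)) (.col (nat_lit 2)) (.node (.col (nat_lit 0)) (.slot (nat_lit 3)) (.slot (nat_lit 1)))
def l3173 : Root := .mk (.node (.node (.node (.col (nat_lit 3)) (.slot (nat_lit 7)) (.slot (nat_lit 5))) (.node (.col (nat_lit 2)) (.node (.col (nat_lit 1)) (.slot (nat_lit 8)) (.slot (nat_lit 8))) (.slot (nat_lit 9))) (.slot (nat_lit 8))) (.col (nat_lit 0)) (.slot (nat_lit 7))) (.col (nat_lit 0)) (.col (nat_lit 2)) (.node (.col (nat_lit 0)) (.slot (nat_lit 3)) (.slot (nat_lit 3)))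
def w14173 : Root := .mk (.node (.node (.node (.col (nat_lit 3)) (.slot (nat_lit 7)) (.slot (nat_lit 5))) (.node (.col (nat_lit 2)) (.slot (nat_lit 9)) (.slot (nat_lit 9))) (.slot (nat_lit 8))) (.col (nat_lit 0)) (.slot (nat_lit 7))) (.col (nat_lit 0)) (.col (nat_lit 2)) (.node (.col (nat_lit 0)) (.slot (nat_lit 3)) (.slot (nat_lit 3)))
def w14174 : Root := .mk (.node (.node (.node (.col (nat_lit 3)) (.slot (nat_lit 7)) (.slot (nat_lit 5))) (.node (.col (nat_lit 2)) (.slot (nat_lit 9)) (.slot (nat_lit 9))) (.slot (nat_lit 8))) (.col (nat_lit 0)) (.slot (nat_lit 7))) (.col (nat_lit 0)) (.node (.node (.col (nat_lit 0)) (.col (nat_lit 1)) (.slot (nat_lit 2))) (.col (nat_lit 0)) (.slot (nat_lit 8))) (.node (.col (nat_lit 0)) (.slot (nat_lit 3)) (.slot (nat_lit 3)))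
def w14175 : Root := .mk (.node (.node (.node (.col (nat_lit 3)) (.slot (nat_lit 3)) (.slot (nat_lit 1))) (.node (.col (nat_lit 2)) (.slot (nat_lit 1)) (.slot (nat_lit 1))) (.slot (nat_lit 2))) (.col (nat_lit 0)) (.slot (nat_lit 3))) (.col (nat_lit 0)) (.node (.node (.col (nat_lit 0)) (.col (nat_lit 1)) (.slot (nat_lit 0))) (.col (nat_lit 0)) (.slot (nat_lit 1))) (.node (.col (nat_lit 1)) (.slot (nat_lit 7)) (.slot (nat_lit 5)))
def w14176 : Root := .mk (.node (.node (.node (.col (nat_lit 3)) (.slot (nat_lit 3)) (.slot (nat_lit 1))) (.node (.col (nat_lit 2)) (.slot (nat_lit 1)) (.slot (nat_lit 1))) (.slot (nat_lit 2))) (.col (nat_lit 0)) (.slot (nat_lit 3))) (.col (nat_lit 0)) (.node (.node (.col (nat_lit 0)) (.col (nat_lit 1)) (.slot (nat_lit 2))) (.col (nat_lit 0)) (.slot (nat_lit 2))) (.node (.col (nat_lit 2)) (.slot (nat_lit 1)) (.slot (nat_lit 1)))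
def w14177 : Root := .mk (.node (.node (.node (.col (nat_lit 3)) (.slot (nat_lit 1)) (.slot (nat_lit 1))) (.node (.col (nat_lit 2)) (.slot (nat_lit 3)) (.slot (nat_lit 1))) (.slot (nat_lit 2))) (.col (nat_lit 0)) (.slot (nat_lit 3))) (.col (nat_lit 0)) (.node (.node (.col (nat_lit 0)) (.col (nat_lit 1)) (.slot (nat_lit 2))) (.col (nat_lit 0)) (.slot (nat_lit 2))) (.node (.col (nat_lit 4)) (.slot (nat_lit 1)) (.slot (nat_lit 1)))
def w14178 : Root := .mk (.col (nat_lit 3)) (.node (.node (.node (.col (nat_lit 0)) (.node (.node (.col (nat_lit 0)) (.col (nat_lit 1)) (.slot (nat_lit 4))) (.col (nat_lit 0)) (.slot (nat_lit 8))) (.node (.slot (nat_lit 0)) (.slot (nat_lit 1)) (.slot (nat_lit 1)))) (.col (nat_lit 0)) (.slot (nat_lit 8))) (.node (.col (nat_lit 2)) (.slot (nat_lit 1)) (.slot (nat_lit 1))) (.slot (nat_lit 2))) (.node (.col (nat_lit 1)) (.slot (nat_lit 0)) (.slot (nat_lit 0))) (.col (nat_lit 1))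
def w14179 : Root := .mk (.col (nat_lit 3)) (.node (.node (.node (.col (nat_lit 0)) (.node (.node (.col (nat_lit 0)) (.col (nat_lit 1)) (.slot (nat_lit 4))) (.col (nat_lit 0)) (.slot (nat_lit 8))) (.node (.slot (nat_lit 0)) (.slot (nat_lit 1)) (.slot (nat_lit 1)))) (.col (nat_lit 0)) (.slot (nat_lit 2))) (.node (.col (nat_lit 2)) (.slot (nat_lit 1)) (.slot (nat_lit 1))) (.slot (nat_lit 2))) (.node (.col (nat_lit 1)) (.slot (nat_lit 0)) (.slot (nat_lit 0))) (.node (.col (nat_lit 4)) (.slot (nat_lit 4)) (.slot (nat_lit 4)))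
def w14180 : Root := .mk (.node (.node (.node (.col (nat_lit 3)) (.node (.col (nat_lit 1)) (.slot (nat_lit 1)) (.slot (nat_lit 1))) (.slot (nat_lit 2))) (.node (.col (nat_lit 2)) (.slot (nat_lit 0)) (.slot (nat_lit 0))) (.node (.col (nat_lit 3)) (.slot (nat_lit 1)) (.slot (nat_lit 0)))) (.col (nat_lit 0)) (.slot (nat_lit 3))) (.col (nat_lit 0)) (.node (.node (.col (nat_lit 0)) (.col (nat_lit 1)) (.slot (nat_lit 4))) (.col (nat_lit 0)) (.slot (nat_lit 8))) (.node (.slot (nat_lit 0)) (.slot (nat_lit 1)) (.slot (nat_lit 1)))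
def w14181 : Root := .mk (.node (.node (.node (.col (nat_lit 3)) (.node (.col (nat_lit 1)) (.slot (nat_lit 1)) (.slot (nat_lit 1))) (.slot (nat_lit 2))) (.node (.col (nat_lit 2)) (.slot (nat_lit 0)) (.slot (nat_lit 0))) (.node (.slot (nat_lit 0)) (.slot (nat_lit 1)) (.slot (nat_lit 0)))) (.col (nat_lit 0)) (.slot (nat_lit 2))) (.col (nat_lit 0)) (.node (.node (.col (nat_lit 0)) (.col (nat_lit 1)) (.slot (nat_lit 4))) (.col (nat_lit 0)) (.slot (nat_lit 8))) (.node (.slot (nat_lit 0)) (.slot (nat_lit 1)) (.slot (nat_lit 1)))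
def w14182 : Root := .mk (.node (.col (nat_lit 3)) (.node (.node (.node (.col (nat_lit 0)) (.node (.node (.col (nat_lit 0)) (.col (nat_lit 1)) (.slot (nat_lit 4))) (.col (nat_lit 0)) (.slot (nat_lit 8))) (.node (.slot (nat_lit 0)) (.slot (nat_lit 1)) (.slot (nat_lit 1)))) (.col (nat_lit 0)) (.slot (nat_lit 8))) (.node (.col (nat_lit 2)) (.slot (nat_lit 3)) (.slot (nat_lit 3))) (.slot (nat_lit 5))) (.slot (nat_lit 8))) (.col (nat_lit 1)) (.col (nat_lit 3)) (.slot (nat_lit 8))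
def w14183 : Root := .mk (.node (.node (.node (.col (nat_lit 3)) (.node (.col (nat_lit 1)) (.node (.col (nat_lit 1)) (.slot (nat_lit 0)) (.slot (nat_lit 0))) (.slot (nat_lit 2))) (.slot (nat_lit 2))) (.node (.col (nat_lit 2)) (.slot (nat_lit 0)) (.slot (nat_lit 0))) (.slot (nat_lit 2))) (.col (nat_lit 0)) (.slot (nat_lit 2))) (.col (nat_lit 0)) (.node (.node (.col (nat_lit 0)) (.col (nat_lit 1)) (.slot (nat_lit 4))) (.col (nat_lit 0)) (.slot (nat_lit 8))) (.node (.slot (nat_lit 0)) (.slot (nat_lit 1)) (.slot (nat_lit 1)))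
def w14184 : Root := .mk (.node (.node (.col (nat_lit 3)) (.node (.col (nat_lit 1)) (.slot (nat_lit 7)) (.slot (nat_lit 5))) (.slot (nat_lit 1))) (.node (.col (nat_lit 2)) (.slot (nat_lit 1)) (.slot (nat_lit 1))) (.slot (nat_lit 2))) (.node (.col (nat_lit 0)) (.slot (nat_lit 0)) (.slot (nat_lit 0))) (.col (nat_lit 0)) (.col (nat_lit 4))
def w14185 : Root := .mk (.node (.node (.col (nat_lit 3)) (.node (.col (nat_lit 1)) (.slot (nat_lit 1)) (.slot (nat_lit 1))) (.slot (nat_lit 2))) (.node (.col (nat_lit 2)) (.slot (nat_lit 1)) (.slot (nat_lit 1))) (.slot (nat_lit 2))) (.node (.col (nat_lit 0)) (.node (.node (.col (nat_lit 0)) (.col (nat_lit 1)) (.slot (nat_lit 4))) (.col (nat_lit 0)) (.slot (nat_lit 8))) (.node (.slot (nat_lit 0)) (.slot (nat_lit 1)) (.slot (nat_lit 1)))) (.col (nat_lit 0)) (.node (.col (nat_lit 0)) (.slot (nat_lit 0)) (.slot (nat_lit 0)))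
def w14186 : Root := .mk (.node (.node (.col (nat_lit 3)) (.node (.col (nat_lit 1)) (.slot (nat_lit 1)) (.slot (nat_lit 1))) (.slot (nat_lit 2))) (.node (.col (nat_lit 2)) (.slot (nat_lit 1)) (.slot (nat_lit 1))) (.slot (nat_lit 2))) (.node (.col (nat_lit 0)) (.node (.node (.col (nat_lit 0)) (.col (nat_lit 1)) (.slot (nat_lit 4))) (.col (nat_lit 0)) (.slot (nat_lit 8))) (.node (.slot (nat_lit 0)) (.slot (nat_lit 1)) (.slot (nat_lit 1)))) (.col (nat_lit 0)) (.node (.slot (nat_lit 0)) (.slot (nat_lit 0)) (.slot (nat_lit 0)))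
def w14187 : Root := .mk (.node (.node (.node (.col (nat_lit 3)) (.node (.col (nat_lit 1)) (.slot (nat_lit 8)) (.slot (nat_lit 8))) (.slot (nat_lit 9))) (.node (.col (nat_lit 2)) (.slot (nat_lit 3)) (.slot (nat_lit 3))) (.slot (nat_lit 8))) (.col (nat_lit 0)) (.slot (nat_lit 4))) (.col (nat_lit 0)) (.col (nat_lit 1)) (.node (.slot (nat_lit 0)) (.slot (nat_lit 0)) (.slot (nat_lit 0)))
def w14188 : Root := .mk (.node (.node (.col (nat_lit 3)) (.node (.col (nat_lit 1)) (.slot (nat_lit 1)) (.slot (nat_lit 1))) (.slot (nat_lit 2))) (.node (.node (.col (nat_lit 0)) (.col (nat_lit 2)) (.slot (nat_lit 0))) (.col (nat_lit 0)) (.slot (nat_lit 1))) (.slot (nat_lit 2))) (.col (nat_lit 2)) (.node (.col (nat_lit 1)) (.slot (nat_lit 0)) (.slot (nat_lit 0))) (.col (nat_lit 1))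
def l3174 : Root := .mk (.node (.col (nat_lit 2)) (.node (.col (nat_lit 2)) (.node (.col (nat_lit 1)) (.slot (nat_lit 2)) (.slot (nat_lit 1))) (.node (.slot (nat_lit 0)) (.slot (nat_lit 1)) (.slot (nat_lit 1)))) (.slot (nat_lit 2))) (.node (.col (nat_lit 0)) (.col (nat_lit 2)) (.node (.slot (nat_lit 0)) (.slot (nat_lit 1)) (.slot (nat_lit 1)))) (.col (nat_lit 0)) (.col (nat_lit 3))
def w14189 : Root := .mk (.node (.node (.col (nat_lit 2)) (.node (.col (nat_lit 2)) (.node (.col (nat_lit 1)) (.slot (nat_lit 2)) (.slot (nat_lit 1))) (.node (.slot (nat_lit 0)) (.slot (nat_lit 1)) (.slot (nat_lit 1)))) (.slot (nat_lit 2))) (.col (nat_lit 0)) (.slot (nat_lit 1))) (.col (nat_lit 0)) (.col (nat_lit 2)) (.node (.slot (nat_lit 0)) (.slot (nat_lit 1)) (.slot (nat_lit 1)))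
def w14190 : Root := .mk (.node (.node (.node (.col (nat_lit 3)) (.node (.col (nat_lit 1)) (.slot (nat_lit 1)) (.slot (nat_lit 1))) (.slot (nat_lit 2))) (.node (.col (nat_lit 2)) (.node (.col (nat_lit 1)) (.slot (nat_lit 2)) (.slot (nat_lit 1))) (.node (.slot (nat_lit 0)) (.slot (nat_lit 1)) (.slot (nat_lit 1)))) (.slot (nat_lit 2))) (.col (nat_lit 0)) (.slot (nat_lit 1))) (.col (nat_lit 0)) (.col (nat_lit 2)) (.node (.slot (nat_lit 0)) (.slot (nat_lit 1)) (.slot (nat_lit 1)))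
def w14191 : Root := .mk (.node (.node (.node (.col (nat_lit 3)) (.node (.col (nat_lit 1)) (.slot (nat_lit 1)) (.slot (nat_lit 1))) (.slot (nat_lit 2))) (.node (.col (nat_lit 2)) (.slot (nat_lit 0)) (.slot (nat_lit 0))) (.node (.col (nat_lit 0)) (.slot (nat_lit 1)) (.slot (nat_lit 1)))) (.col (nat_lit 0)) (.slot (nat_lit 1))) (.col (nat_lit 0)) (.col (nat_lit 2)) (.slot (nat_lit 0))
def w14192 : Root := .mk (.node (.col (nat_lit 3)) (.node (.col (nat_lit 1)) (.slot (nat_lit 1)) (.slot (nat_lit 1))) (.slot (nat_lit 2))) (.node (.slot (nat_lit 0)) (.col (nat_lit 0)) (.slot (nat_lit 1))) (.node (.col (nat_lit 2)) (.node (.col (nat_lit 1)) (.slot (nat_lit 1)) (.slot (nat_lit 1))) (.slot (nat_lit 2))) (.node (.col (nat_lit 4)) (.slot (nat_lit 1)) (.slot (nat_lit 1)))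
def l3175 : Root := .mk (.col (nat_lit 3)) (.node (.node (.slot (nat_lit 0)) (.col (nat_lit 0)) (.slot (nat_lit 0))) (.node (.col (nat_lit 2)) (.node (.col (nat_lit 1)) (.col (nat_lit 2)) (.slot (nat_lit 4))) (.col (nat_lit 0))) (.col (nat_lit 0))) (.node (.col (nat_lit 1)) (.slot (nat_lit 1)) (.slot (nat_lit 1))) (.col (nat_lit 2))
def w14193 : Root := .mk (.node (.node (.col (nat_lit 3)) (.node (.col (nat_lit 1)) (.slot (nat_lit 1)) (.slot (nat_lit 1))) (.slot (nat_lit 1))) (.node (.slot (nat_lit 0)) (.col (nat_lit 0)) (.slot (nat_lit 0))) (.col (nat_lit 0))) (.col (nat_lit 2)) (.node (.col (nat_lit 1)) (.col (nat_lit 2)) (.slot (nat_lit 4))) (.col (nat_lit 0))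
def w14194 : Root := .mk (.node (.node (.col (nat_lit 3)) (.slot (nat_lit 0)) (.slot (nat_lit 1))) (.node (.node .junk (.col (nat_lit 2)) .junk) (.col (nat_lit 0)) (.slot (nat_lit 1))) (.node (.col (nat_lit 2)) (.slot (nat_lit 0)) (.slot (nat_lit 0)))) (.col (nat_lit 2)) (.node (.col (nat_lit 1)) (.col (nat_lit 2)) (.slot (nat_lit 5))) (.col (nat_lit 0))
def w14195 : Root := .mk (.node (.node (.col (nat_lit 3)) (.slot (nat_lit 0)) (.slot (nat_lit 0))) (.node (.node .junk (.col (nat_lit 2)) .junk) (.col (nat_lit 0)) (.slot (nat_lit 1))) (.node (.col (nat_lit 3)) (.slot (nat_lit 1)) (.slot (nat_lit 0)))) (.col (nat_lit 2)) (.node (.col (nat_lit 1)) (.col (nat_lit 2)) (.slot (nat_lit 5))) (.col (nat_lit 0))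
def w14196 : Root := .mk (.node (.node (.node (.col (nat_lit 3)) (.node (.col (nat_lit 1)) (.slot (nat_lit 1)) (.slot (nat_lit 1))) (.slot (nat_lit 2))) (.node (.slot (nat_lit 0)) (.col (nat_lit 0)) (.slot (nat_lit 1))) (.slot (nat_lit 1))) (.col (nat_lit 2)) (.col (nat_lit 0))) (.col (nat_lit 1)) (.col (nat_lit 2)) (.col (nat_lit 0))
def w14199 : Root := .mk (.node (.node (.node (.col (nat_lit 3)) (.node (.col (nat_lit 1)) (.slot (nat_lit 1)) (.slot (nat_lit 1))) (.slot (nat_lit 2))) (.node (.slot (nat_lit 0)) (.col (nat_lit 0)) (.slot (nat_lit 1))) (.slot (nat_lit 1))) (.col (nat_lit 2)) (.col (nat_lit 0))) (.col (nat_lit 1)) (.col (nat_lit 2)) (.slot (nat_lit 0))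
def w14200 : Root := .mk (.node (.node (.col (nat_lit 3)) (.col (nat_lit 0)) (.slot (nat_lit 0))) (.node (.slot (nat_lit 0)) (.col (nat_lit 0)) (.slot (nat_lit 1))) (.slot (nat_lit 2))) (.col (nat_lit 2)) (.node (.col (nat_lit 1)) (.col (nat_lit 2)) (.slot (nat_lit 3))) (.col (nat_lit 0))
def w14201 : Root := .mk (.col (nat_lit 3)) (.node (.node (.node (.col (nat_lit 0)) (.col (nat_lit 2)) (.node (.slot (nat_lit 0)) (.slot (nat_lit 0)) (.slot (nat_lit 0)))) (.col (nat_lit 0)) (.slot (nat_lit 1))) (.node (.col (nat_lit 2)) (.node (.col (nat_lit 1)) .junk (.slot (nat_lit 1))) (.col (nat_lit 0))) (.slot (nat_lit 1))) (.node (.col (nat_lit 1)) (.slot (nat_lit 0)) (.slot (nat_lit 0))) (.col (nat_lit 1))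
def w14202 : Root := .mk (.node (.slot (nat_lit 0)) (.node (.col (nat_lit 2)) (.node (.col (nat_lit 1)) (.col (nat_lit 2)) (.slot (nat_lit 2))) (.col (nat_lit 0))) (.slot (nat_lit 1))) (.node .junk (.col (nat_lit 2)) (.node (.slot (nat_lit 0)) (.slot (nat_lit 0)) (.slot (nat_lit 0)))) (.col (nat_lit 0)) (.col (nat_lit 3))
def w14203 : Root := .mk (.node (.node (.col (nat_lit 3)) (.slot (nat_lit 0)) (.slot (nat_lit 0))) (.node (.slot (nat_lit 0)) (.col (nat_lit 0)) (.node (.col (nat_lit 0)) (.slot (nat_lit 0)) (.slot (nat_lit 0)))) (.slot (nat_lit 1))) (.col (nat_lit 2)) (.node (.col (nat_lit 1)) (.col (nat_lit 2)) (.slot (nat_lit 5))) (.col (nat_lit 0))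
def w14204 : Root := .mk (.node (.node (.col (nat_lit 3)) (.slot (nat_lit 0)) (.slot (nat_lit 0))) (.node (.slot (nat_lit 0)) (.col (nat_lit 0)) (.node (.col (nat_lit 1)) (.slot (nat_lit 0)) (.slot (nat_lit 0)))) (.slot (nat_lit 1))) (.col (nat_lit 2)) (.node (.col (nat_lit 1)) (.col (nat_lit 2)) (.slot (nat_lit 5))) (.col (nat_lit 0))
def l3176 : Root := .mk (.node (.node (.col (nat_lit 3)) (.node (.col (nat_lit 1)) (.slot (nat_lit 7)) (.slot (nat_lit 5))) (.slot (nat_lit 8))) (.node (.node (.col (nat_lit 0)) (.col (nat_lit 2)) (.node (.slot (nat_lit 0)) (.slot (nat_lit 1)) (.slot (nat_lit 1)))) (.col (nat_lit 0)) (.slot (nat_lit 8))) (.slot (nat_lit 9))) (.col (nat_lit 2)) (.node (.col (nat_lit 1)) (.col (nat_lit 2)) (.slot (nat_lit 5))) (.col (nat_lit 0))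
def w14205 : Root := .mk (.node (.node (.node (.col (nat_lit 3)) (.node (.col (nat_lit 1)) (.slot (nat_lit 7)) (.slot (nat_lit 5))) (.slot (nat_lit 8))) (.node (.col (nat_lit 2)) (.node (.col (nat_lit 1)) (.col (nat_lit 2)) (.slot (nat_lit 5))) (.slot (nat_lit 1))) (.slot (nat_lit 9))) (.col (nat_lit 0)) (.slot (nat_lit 8))) (.col (nat_lit 0)) (.col (nat_lit 2)) (.node (.slot (nat_lit 0)) (.slot (nat_lit 1)) (.slot (nat_lit 1)))
def w14206 : Root := .mk (.node (.node (.node (.col (nat_lit 3)) (.node (.col (nat_lit 1)) (.slot (nat_lit 1)) (.slot (nat_lit 1))) (.slot (nat_lit 2))) (.node (.col (nat_lit 2)) (.node (.col (nat_lit 1)) (.node (.col (nat_lit 1)) (.slot (nat_lit 0)) (.slot (nat_lit 0))) (.slot (nat_lit 2))) (.slot (nat_lit 2))) (.slot (nat_lit 1))) (.col (nat_lit 0)) (.slot (nat_lit 1))) (.col (nat_lit 0)) (.col (nat_lit 2)) (.node (.slot (nat_lit 0)) (.slot (nat_lit 0)) (.slot (nat_lit 0)))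
def w14207 : Root := .mk (.col (nat_lit 3)) (.node (.node (.node (.col (nat_lit 0)) (.col (nat_lit 2)) (.node (.slot (nat_lit 0)) (.slot (nat_lit 0)) (.slot (nat_lit 0)))) (.col (nat_lit 0)) (.slot (nat_lit 1))) (.node (.col (nat_lit 2)) (.node (.col (nat_lit 1)) (.slot (nat_lit 1)) (.slot (nat_lit 1))) (.slot (nat_lit 2))) (.slot (nat_lit 1))) (.node (.col (nat_lit 1)) (.slot (nat_lit 0)) (.slot (nat_lit 0))) (.col (nat_lit 1))
def l3177 : Root := .mk (.node (.node (.node (.col (nat_lit 3)) (.node (.col (nat_lit 1)) (.col (nat_lit 4)) (.slot (nat_lit 3))) (.node (.slot (nat_lit 0)) (.slot (nat_lit 0)) (.slot (nat_lit 0)))) (.col (nat_lit 4)) (.slot (nat_lit 3))) (.col (nat_lit 0)) (.slot (nat_lit 1))) (.col (nat_lit 0)) (.col (nat_lit 2)) (.slot (nat_lit 0))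
def w14208 : Root := .mk (.node (.node (.node (.col (nat_lit 3)) (.node (.col (nat_lit 1)) (.slot (nat_lit 1)) (.slot (nat_lit 3))) (.node (.slot (nat_lit 0)) (.slot (nat_lit 0)) (.slot (nat_lit 0)))) (.col (nat_lit 4)) (.slot (nat_lit 3))) (.col (nat_lit 0)) (.slot (nat_lit 1))) (.col (nat_lit 0)) (.col (nat_lit 2)) (.slot (nat_lit 0))
def w14209 : Root := .mk (.node (.node (.node (.col (nat_lit 3)) (.node (.col (nat_lit 1)) (.slot (nat_lit 3)) (.slot (nat_lit 1))) (.node (.slot (nat_lit 0)) (.slot (nat_lit 0)) (.slot (nat_lit 0)))) (.node (.col (nat_lit 2)) (.node (.col (nat_lit 1)) (.slot (nat_lit 1)) (.slot (nat_lit 1))) (.slot (nat_lit 2))) (.slot (nat_lit 3))) (.col (nat_lit 0)) (.slot (nat_lit 1))) (.col (nat_lit 0)) (.col (nat_lit 2)) (.slot (nat_lit 0))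
def w14210 : Root := .mk (.col (nat_lit 3)) (.node (.node (.slot (nat_lit 0)) (.col (nat_lit 0)) (.slot (nat_lit 0))) (.node (.col (nat_lit 2)) (.node (.col (nat_lit 1)) (.slot (nat_lit 1)) (.slot (nat_lit 0))) (.slot (nat_lit 1))) (.node (.col (nat_lit 2)) (.slot (nat_lit 2)) (.slot (nat_lit 2)))) (.node (.col (nat_lit 1)) .junk (.slot (nat_lit 1))) (.col (nat_lit 0))
def w14211 : Root := .mk (.col (nat_lit 3)) (.node (.node (.slot (nat_lit 0)) (.col (nat_lit 0)) (.slot (nat_lit 0))) (.node (.col (nat_lit 2)) (.node (.col (nat_lit 1)) (.slot (nat_lit 1)) (.slot (nat_lit 1))) (.slot (nat_lit 2))) (.node (.col (nat_lit 3)) (.slot (nat_lit 1)) (.slot (nat_lit 1)))) (.node (.col (nat_lit 1)) (.col (nat_lit 3)) (.slot (nat_lit 1))) (.col (nat_lit 0))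
def w14212 : Root := .mk (.col (nat_lit 3)) (.node (.node (.node (.col (nat_lit 0)) (.col (nat_lit 2)) (.slot (nat_lit 0))) (.col (nat_lit 0)) (.slot (nat_lit 1))) (.col (nat_lit 3)) (.node (.col (nat_lit 4)) (.slot (nat_lit 0)) (.slot (nat_lit 0)))) (.node (.col (nat_lit 1)) (.col (nat_lit 3)) (.slot (nat_lit 1))) (.col (nat_lit 0))
def w14213 : Root := .mk (.col (nat_lit 3)) (.node (.node (.node (.col (nat_lit 0)) (.col (nat_lit 2)) (.slot (nat_lit 0))) (.col (nat_lit 0)) (.slot (nat_lit 1))) (.node (.col (nat_lit 2)) (.node (.col (nat_lit 1)) (.slot (nat_lit 1)) (.slot (nat_lit 1))) (.slot (nat_lit 2))) (.node (.col (nat_lit 4)) (.slot (nat_lit 0)) (.slot (nat_lit 0)))) (.node (.col (nat_lit 1)) (.col (nat_lit 3)) (.slot (nat_lit 1))) (.col (nat_lit 0))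
def w14214 : Root := .mk (.node (.node (.node (.col (nat_lit 3)) (.node (.col (nat_lit 1)) (.col (nat_lit 3)) (.slot (nat_lit 2))) (.col (nat_lit 0))) (.slot (nat_lit 0)) (.slot (nat_lit 1))) (.col (nat_lit 0)) (.node (.col (nat_lit 3)) (.slot (nat_lit 1)) (.slot (nat_lit 1)))) (.col (nat_lit 0)) (.col (nat_lit 2)) (.node (.slot (nat_lit 0)) (.slot (nat_lit 0)) (.slot (nat_lit 0)))
def l3178 : Root := .mk (.col (nat_lit 3)) (.node (.node (.slot (nat_lit 0)) (.col (nat_lit 0)) (.slot (nat_lit 1))) (.node (.col (nat_lit 2)) (.slot (nat_lit 0)) (.col (nat_lit 1))) (.col (nat_lit 1))) (.node (.col (nat_lit 1)) (.col (nat_lit 3)) (.slot (nat_lit 5))) (.col (nat_lit 0))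
def w14215 : Root := .mk (.node (.node (.col (nat_lit 3)) (.node (.col (nat_lit 1)) (.col (nat_lit 3)) (.slot (nat_lit 5))) (.col (nat_lit 0))) (.node (.slot (nat_lit 0)) (.col (nat_lit 0)) (.slot (nat_lit 1))) (.slot (nat_lit 1))) (.col (nat_lit 2)) (.slot (nat_lit 0)) (.col (nat_lit 1))
def l3179 : Root := .mk (.col (nat_lit 3)) (.node (.node (.node (.col (nat_lit 0)) (.col (nat_lit 2)) (.node (.slot (nat_lit 0)) (.slot (nat_lit 0)) (.slot (nat_lit 0)))) (.col (nat_lit 0)) (.slot (nat_lit 2))) (.node (.col (nat_lit 2)) (.node (.col (nat_lit 1)) (.slot (nat_lit 2)) (.slot (nat_lit 1))) (.slot (nat_lit 3))) (.slot (nat_lit 3))) (.node (.col (nat_lit 1)) (.col (nat_lit 3)) (.slot (nat_lit 5))) (.col (nat_lit 0))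
def w14216 : Root := .mk (.node (.node (.node (.col (nat_lit 3)) (.node (.col (nat_lit 1)) (.col (nat_lit 3)) (.slot (nat_lit 5))) (.slot (nat_lit 1))) (.node (.col (nat_lit 2)) (.node (.col (nat_lit 1)) (.slot (nat_lit 2)) (.slot (nat_lit 1))) (.slot (nat_lit 3))) (.slot (nat_lit 3))) (.col (nat_lit 0)) (.slot (nat_lit 2))) (.col (nat_lit 0)) (.col (nat_lit 2)) (.node (.slot (nat_lit 0)) (.slot (nat_lit 0)) (.slot (nat_lit 0)))
def w14217 : Root := .mk (.node (.node (.node (.col (nat_lit 3)) (.node (.col (nat_lit 1)) (.node (.col (nat_lit 1)) (.slot (nat_lit 0)) (.slot (nat_lit 0))) (.slot (nat_lit 2))) (.slot (nat_lit 2))) (.node (.col (nat_lit 2)) (.node (.col (nat_lit 1)) (.slot (nat_lit 1)) (.slot (nat_lit 1))) (.slot (nat_lit 2))) (.slot (nat_lit 2))) (.col (nat_lit 0)) (.slot (nat_lit 1))) (.col (nat_lit 0)) (.col (nat_lit 2)) (.slot (nat_lit 0))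
def l3180 : Root := .mk (.node (.node (.node (.col (nat_lit 3)) (.node (.col (nat_lit 1)) (.slot (nat_lit 8)) (.slot (nat_lit 8))) (.slot (nat_lit 8))) (.node (.col (nat_lit 2)) (.node (.col (nat_lit 1)) (.slot (nat_lit 8)) (.slot (nat_lit 8))) (.slot (nat_lit 8))) (.slot (nat_lit 9))) (.col (nat_lit 0)) (.slot (nat_lit 8))) (.col (nat_lit 0)) (.col (nat_lit 2)) (.node (.slot (nat_lit 0)) (.slot (nat_lit 1)) (.slot (nat_lit 1)))
def w14218 : Root := .mk (.node (.node (.node (.col (nat_lit 3)) (.node (.col (nat_lit 1)) (.slot (nat_lit 8)) (.slot (nat_lit 8))) (.slot (nat_lit 8))) (.node (.col (nat_lit 2)) (.slot (nat_lit 9)) (.slot (nat_lit 8))) (.slot (nat_lit 9))) (.col (nat_lit 0)) (.slot (nat_lit 8))) (.col (nat_lit 0)) (.col (nat_lit 2)) (.node (.slot (nat_lit 0)) (.slot (nat_lit 1)) (.slot (nat_lit 1)))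
def w14219 : Root := .mk (.node (.node (.node (.col (nat_lit 3)) (.node (.col (nat_lit 1)) (.slot (nat_lit 8)) (.slot (nat_lit 8))) (.slot (nat_lit 9))) (.node (.col (nat_lit 2)) (.slot (nat_lit 3)) (.slot (nat_lit 3))) (.slot (nat_lit 8))) (.col (nat_lit 0)) (.slot (nat_lit 4))) (.col (nat_lit 0)) (.col (nat_lit 3)) (.node (.slot (nat_lit 0)) (.slot (nat_lit 0)) (.slot (nat_lit 0)))
def l3181 : Root := .mk (.node (.node (.node (.col (nat_lit 3)) (.node (.col (nat_lit 1)) (.slot (nat_lit 8)) (.slot (nat_lit 8))) (.slot (nat_lit 9))) (.node (.col (nat_lit 2)) (.slot (nat_lit 9)) (.slot (nat_lit 8))) (.slot (nat_lit 9))) (.col (nat_lit 0)) (.slot (nat_lit 8))) (.col (nat_lit 0)) (.node (.node (.col (nat_lit 0)) (.col (nat_lit 1)) (.slot (nat_lit 4))) (.col (nat_lit 0)) (.slot (nat_lit 8))) (.node (.slot (nat_lit 0)) (.slot (nat_lit 1)) (.slot (nat_lit 1)))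
def w14220 : Root := .mk (.node (.node (.node (.col (nat_lit 3)) (.slot (nat_lit 9)) (.slot (nat_lit 9))) (.node (.col (nat_lit 2)) (.slot (nat_lit 9)) (.slot (nat_lit 8))) (.slot (nat_lit 9))) (.col (nat_lit 0)) (.slot (nat_lit 8))) (.col (nat_lit 0)) (.node (.node (.col (nat_lit 0)) (.col (nat_lit 1)) (.slot (nat_lit 4))) (.col (nat_lit 0)) (.slot (nat_lit 8))) (.node (.slot (nat_lit 0)) (.slot (nat_lit 1)) (.slot (nat_lit 1)))
def w14221 : Root := .mk (.node (.node (.col (nat_lit 3)) (.slot (nat_lit 0)) (.slot (nat_lit 0))) (.node (.col (nat_lit 2)) (.node (.col (nat_lit 0)) (.slot (nat_lit 1)) (.slot (nat_lit 1))) (.slot (nat_lit 2))) (.slot (nat_lit 1))) (.node (.col (nat_lit 0)) (.col (nat_lit 2)) (.slot (nat_lit 1))) (.col (nat_lit 0)) (.col (nat_lit 1))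
def w14222 : Root := .mk (.node (.node (.col (nat_lit 3)) (.slot (nat_lit 0)) (.slot (nat_lit 0))) (.node (.col (nat_lit 2)) (.col (nat_lit 4)) (.slot (nat_lit 2))) (.slot (nat_lit 2))) (.node .junk (.col (nat_lit 2)) (.slot (nat_lit 1))) (.col (nat_lit 0)) (.col (nat_lit 1))
def w14223 : Root := .mk (.node (.node (.col (nat_lit 3)) (.slot (nat_lit 0)) (.slot (nat_lit 0))) (.node (.node (.col (nat_lit 0)) (.col (nat_lit 2)) (.slot (nat_lit 5))) (.col (nat_lit 0)) (.col (nat_lit 1))) (.slot (nat_lit 1))) (.col (nat_lit 2)) (.node (.col (nat_lit 0)) (.slot (nat_lit 0)) (.slot (nat_lit 0))) (.col (nat_lit 0))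
def w14224 : Root := .mk (.node (.node (.col (nat_lit 3)) (.slot (nat_lit 0)) (.slot (nat_lit 0))) (.node (.col (nat_lit 2)) (.node (.col (nat_lit 0)) (.slot (nat_lit 1)) (.slot (nat_lit 1))) (.node (.col (nat_lit 1)) (.slot (nat_lit 1)) (.slot (nat_lit 0)))) (.slot (nat_lit 1))) (.node (.col (nat_lit 0)) (.col (nat_lit 2)) (.slot (nat_lit 1))) (.col (nat_lit 0)) (.col (nat_lit 1))
def w14225 : Root := .mk (.node (.node (.col (nat_lit 3)) (.slot (nat_lit 0)) (.slot (nat_lit 0))) (.node (.col (nat_lit 2)) (.node (.col (nat_lit 0)) (.slot (nat_lit 2)) (.slot (nat_lit 2))) (.col (nat_lit 1))) (.node (.col (nat_lit 2)) (.slot (nat_lit 1)) (.slot (nat_lit 0)))) (.slot (nat_lit 0)) (.col (nat_lit 0)) (.col (nat_lit 1))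
def w14226 : Root := .mk (.node (.node (.col (nat_lit 3)) (.slot (nat_lit 0)) (.slot (nat_lit 0))) (.node (.col (nat_lit 2)) (.node (.col (nat_lit 0)) (.slot (nat_lit 3)) (.slot (nat_lit 3))) (.col (nat_lit 1))) (.node (.col (nat_lit 3)) (.slot (nat_lit 1)) (.slot (nat_lit 0)))) (.slot (nat_lit 0)) (.col (nat_lit 0)) (.col (nat_lit 1))
def w14227 : Root := .mk (.node (.node (.col (nat_lit 3)) (.slot (nat_lit 0)) (.slot (nat_lit 0))) (.node (.col (nat_lit 2)) (.node (.col (nat_lit 0)) (.slot (nat_lit 3)) (.slot (nat_lit 3))) (.col (nat_lit 1))) (.node (.col (nat_lit 4)) (.slot (nat_lit 1)) (.slot (nat_lit 0)))) (.slot (nat_lit 0)) (.col (nat_lit 0)) (.col (nat_lit 1))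
def w14228 : Root := .mk (.node (.node (.col (nat_lit 3)) (.slot (nat_lit 0)) (.slot (nat_lit 0))) (.node (.node (.col (nat_lit 0)) (.col (nat_lit 2)) (.slot (nat_lit 1))) (.col (nat_lit 0)) (.col (nat_lit 1))) (.slot (nat_lit 1))) (.col (nat_lit 2)) (.node (.col (nat_lit 0)) .junk (.slot (nat_lit 1))) (.col (nat_lit 1))
def w14229 : Root := .mk (.node (.node (.col (nat_lit 3)) (.col (nat_lit 2)) (.slot (nat_lit 0))) (.node (.col (nat_lit 2)) (.node (.col (nat_lit 0)) (.slot (nat_lit 1)) (.slot (nat_lit 1))) (.col (nat_lit 1))) (.slot (nat_lit 1))) (.slot (nat_lit 0)) (.col (nat_lit 0)) (.col (nat_lit 1))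
def l3182 : Root := .mk (.node (.node (.col (nat_lit 3)) (.slot (nat_lit 1)) (.slot (nat_lit 1))) (.node (.node (.col (nat_lit 0)) (.col (nat_lit 2)) (.slot (nat_lit 3))) (.col (nat_lit 0)) (.col (nat_lit 1))) (.slot (nat_lit 3))) (.col (nat_lit 2)) (.node (.col (nat_lit 0)) (.slot (nat_lit 7)) (.slot (nat_lit 5))) (.col (nat_lit 1))
def w14230 : Root := .mk (.node (.node (.col (nat_lit 3)) (.slot (nat_lit 1)) (.slot (nat_lit 1))) (.node (.col (nat_lit 2)) (.node (.col (nat_lit 0)) (.slot (nat_lit 7)) (.slot (nat_lit 5))) (.node (.col (nat_lit 2)) (.slot (nat_lit 0)) (.slot (nat_lit 0)))) (.slot (nat_lit 3))) (.node (.col (nat_lit 0)) (.col (nat_lit 2)) (.slot (nat_lit 3))) (.col (nat_lit 0)) (.col (nat_lit 1))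
def w14231 : Root := .mk (.node (.node (.col (nat_lit 3)) (.slot (nat_lit 1)) (.slot (nat_lit 1))) (.node (.col (nat_lit 2)) (.node (.col (nat_lit 0)) (.slot (nat_lit 7)) (.slot (nat_lit 5))) (.node (.col (nat_lit 3)) (.slot (nat_lit 0)) (.slot (nat_lit 0)))) (.slot (nat_lit 3))) (.node (.col (nat_lit 0)) (.col (nat_lit 2)) (.slot (nat_lit 3))) (.col (nat_lit 0)) (.col (nat_lit 1))
def w14232 : Root := .mk (.node (.node (.col (nat_lit 3)) (.slot (nat_lit 1)) (.slot (nat_lit 1))) (.node (.col (nat_lit 2)) (.node (.col (nat_lit 0)) (.slot (nat_lit 7)) (.slot (nat_lit 5))) (.node (.col (nat_lit 4)) (.slot (nat_lit 0)) (.slot (nat_lit 0)))) (.slot (nat_lit 3))) (.node (.col (nat_lit 0)) (.col (nat_lit 2)) (.slot (nat_lit 3))) (.col (nat_lit 0)) (.col (nat_lit 1))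
def w14233 : Root := .mk (.node (.col (nat_lit 1)) (.node (.col (nat_lit 2)) (.node (.col (nat_lit 0)) (.slot (nat_lit 1)) (.slot (nat_lit 1))) (.slot (nat_lit 2))) (.slot (nat_lit 1))) (.node .junk (.col (nat_lit 2)) (.slot (nat_lit 1))) (.col (nat_lit 0)) (.col (nat_lit 1))
def w14234 : Root := .mk (.node (.node (.col (nat_lit 3)) (.slot (nat_lit 0)) (.slot (nat_lit 0))) (.node (.col (nat_lit 2)) (.node (.col (nat_lit 0)) (.slot (nat_lit 7)) (.slot (nat_lit 5))) (.slot (nat_lit 8))) (.node (.col (nat_lit 2)) (.slot (nat_lit 7)) (.slot (nat_lit 5)))) (.slot (nat_lit 0)) (.col (nat_lit 0)) (.col (nat_lit 1))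
def w14235 : Root := .mk (.node (.node (.col (nat_lit 3)) (.slot (nat_lit 1)) (.slot (nat_lit 1))) (.node (.col (nat_lit 2)) (.slot (nat_lit 0)) (.slot (nat_lit 0))) (.node (.col (nat_lit 3)) (.slot (nat_lit 1)) (.slot (nat_lit 1)))) (.node .junk (.col (nat_lit 2)) (.slot (nat_lit 1))) (.col (nat_lit 0)) (.col (nat_lit 1))
def w14236 : Root := .mk (.node (.node (.col (nat_lit 3)) (.slot (nat_lit 0)) (.slot (nat_lit 0))) (.node (.col (nat_lit 2)) (.node (.col (nat_lit 0)) (.slot (nat_lit 1)) (.slot (nat_lit 1))) (.slot (nat_lit 2))) (.node (.col (nat_lit 4)) (.slot (nat_lit 0)) (.slot (nat_lit 0)))) (.node (.col (nat_lit 0)) (.col (nat_lit 2)) (.slot (nat_lit 1))) (.col (nat_lit 0)) (.col (nat_lit 1))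
def w14237 : Root := .mk (.node (.node (.col (nat_lit 3)) (.slot (nat_lit 2)) (.slot (nat_lit 1))) (.node (.col (nat_lit 2)) (.node (.col (nat_lit 0)) (.col (nat_lit 2)) (.slot (nat_lit 8))) (.slot (nat_lit 3))) (.slot (nat_lit 3))) (.node .junk (.col (nat_lit 2)) (.slot (nat_lit 1))) (.col (nat_lit 0)) (.col (nat_lit 1))
def w14238 : Root := .mk (.node (.node (.col (nat_lit 3)) (.slot (nat_lit 0)) (.slot (nat_lit 0))) (.node (.col (nat_lit 2)) (.node (.col (nat_lit 0)) (.node (.col (nat_lit 0)) (.slot (nat_lit 0)) (.slot (nat_lit 0))) (.slot (nat_lit 2))) (.slot (nat_lit 2))) (.slot (nat_lit 1))) (.node (.col (nat_lit 0)) (.col (nat_lit 2)) (.slot (nat_lit 1))) (.col (nat_lit 0)) (.col (nat_lit 1))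
def w14239 : Root := .mk (.node (.node (.col (nat_lit 3)) (.col (nat_lit 2)) (.slot (nat_lit 3))) (.node (.col (nat_lit 2)) (.slot (nat_lit 0)) (.slot (nat_lit 0))) (.slot (nat_lit 1))) (.node .junk (.col (nat_lit 2)) (.slot (nat_lit 1))) (.col (nat_lit 0)) (.col (nat_lit 1))
def w14240 : Root := .mk (.node (.node (.node (.col (nat_lit 3)) (.slot (nat_lit 0)) (.slot (nat_lit 0))) (.node (.col (nat_lit 2)) (.node (.col (nat_lit 0)) (.slot (nat_lit 1)) (.slot (nat_lit 1))) (.slot (nat_lit 2))) (.slot (nat_lit 1))) (.col (nat_lit 0)) (.col (nat_lit 1))) (.col (nat_lit 0)) (.col (nat_lit 2)) (.node (.col (nat_lit 0)) (.slot (nat_lit 0)) (.slot (nat_lit 0)))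
def w14241 : Root := .mk (.node (.node (.node (.col (nat_lit 3)) (.slot (nat_lit 0)) (.slot (nat_lit 0))) (.node (.col (nat_lit 2)) (.node (.col (nat_lit 0)) (.slot (nat_lit 1)) (.slot (nat_lit 1))) (.slot (nat_lit 2))) (.slot (nat_lit 1))) (.col (nat_lit 0)) (.col (nat_lit 1))) (.col (nat_lit 0)) (.col (nat_lit 2)) (.node (.col (nat_lit 2)) (.slot (nat_lit 0)) (.slot (nat_lit 0)))
def l3183 : Root := .mk (.node (.node (.col (nat_lit 3)) (.slot (nat_lit 3)) (.slot (nat_lit 3))) (.node (.col (nat_lit 2)) (.node (.col (nat_lit 0)) (.slot (nat_lit 8)) (.slot (nat_lit 8))) (.slot (nat_lit 8))) (.slot (nat_lit 8))) (.node (.col (nat_lit 0)) (.col (nat_lit 2)) (.slot (nat_lit 5))) (.col (nat_lit 0)) (.col (nat_lit 1))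
def w14242 : Root := .mk (.node (.node (.col (nat_lit 3)) (.slot (nat_lit 3)) (.slot (nat_lit 3))) (.node (.col (nat_lit 2)) (.slot (nat_lit 9)) (.slot (nat_lit 8))) (.slot (nat_lit 8))) (.node (.col (nat_lit 0)) (.col (nat_lit 2)) (.slot (nat_lit 5))) (.col (nat_lit 0)) (.col (nat_lit 1))
def w14243 : Root := .mk (.node (.node (.col (nat_lit 3)) (.slot (nat_lit 3)) (.slot (nat_lit 3))) (.node (.col (nat_lit 2)) (.slot (nat_lit 9)) (.slot (nat_lit 8))) (.slot (nat_lit 8))) (.node (.col (nat_lit 0)) (.node (.node (.col (nat_lit 0)) (.col (nat_lit 1)) (.slot (nat_lit 2))) (.col (nat_lit 0)) (.slot (nat_lit 8))) (.slot (nat_lit 5))) (.col (nat_lit 0)) (.col (nat_lit 1))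
def w14244 : Root := .mk (.node (.node (.col (nat_lit 3)) (.slot (nat_lit 0)) (.slot (nat_lit 0))) (.node (.col (nat_lit 2)) (.slot (nat_lit 1)) (.slot (nat_lit 1))) (.slot (nat_lit 2))) (.node (.col (nat_lit 0)) (.node (.node (.col (nat_lit 0)) (.col (nat_lit 1)) (.slot (nat_lit 3))) (.col (nat_lit 0)) (.slot (nat_lit 1))) (.slot (nat_lit 3))) (.col (nat_lit 0)) (.col (nat_lit 2))
def w14245 : Root := .mk (.node (.node (.node (.node (.col (nat_lit 3)) (.slot (nat_lit 0)) (.slot (nat_lit 0))) (.node (.col (nat_lit 2)) (.slot (nat_lit 0)) (.slot (nat_lit 0))) (.col (nat_lit 1))) (.col (nat_lit 0)) (.col (nat_lit 4))) (.col (nat_lit 0)) (.col (nat_lit 1))) (.col (nat_lit 4)) (.col (nat_lit 0)) (.col (nat_lit 1))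
def l3184 : Root := .mk (.node (.node (.node (.node (.col (nat_lit 3)) (.slot (nat_lit 6)) (.slot (nat_lit 6))) (.node (.col (nat_lit 2)) (.slot (nat_lit 6)) (.slot (nat_lit 6))) (.col (nat_lit 1))) (.col (nat_lit 0)) (.col (nat_lit 4))) (.col (nat_lit 0)) (.col (nat_lit 1))) (.col (nat_lit 4)) (.col (nat_lit 0)) (.col (nat_lit 1))
def w14246 : Root := .mk (.node (.node (.node (.node (.col (nat_lit 3)) (.slot (nat_lit 6)) (.slot (nat_lit 6))) (.node (.col (nat_lit 2)) (.slot (nat_lit 6)) (.slot (nat_lit 6))) (.slot (nat_lit 1))) (.col (nat_lit 0)) (.col (nat_lit 4))) (.col (nat_lit 0)) (.col (nat_lit 1))) (.col (nat_lit 4)) (.col (nat_lit 0)) (.col (nat_lit 1))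
def w14247 : Root := .mk (.node (.node (.node (.node (.col (nat_lit 3)) (.slot (nat_lit 0)) (.slot (nat_lit 0))) (.node (.col (nat_lit 2)) (.slot (nat_lit 3)) (.slot (nat_lit 3))) (.slot (nat_lit 8))) (.col (nat_lit 0)) (.col (nat_lit 4))) (.col (nat_lit 0)) (.col (nat_lit 1))) (.col (nat_lit 4)) (.col (nat_lit 0)) (.slot (nat_lit 0))
def l3185 : Root := .mk (.node (.node (.node (.col (nat_lit 3)) (.slot (nat_lit 6)) (.slot (nat_lit 6))) (.node (.col (nat_lit 2)) (.slot (nat_lit 6)) (.slot (nat_lit 6))) (.slot (nat_lit 8))) (.col (nat_lit 0)) (.col (nat_lit 4))) (.col (nat_lit 0)) (.node (.col (nat_lit 4)) (.col (nat_lit 0)) (.slot (nat_lit 3))) (.col (nat_lit 1))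
def w14248 : Root := .mk (.node (.node (.col (nat_lit 3)) (.slot (nat_lit 6)) (.slot (nat_lit 6))) (.node (.col (nat_lit 2)) (.slot (nat_lit 6)) (.slot (nat_lit 6))) (.slot (nat_lit 8))) (.node (.col (nat_lit 0)) (.node (.col (nat_lit 4)) (.col (nat_lit 0)) (.slot (nat_lit 3))) (.slot (nat_lit 1))) (.col (nat_lit 0)) (.col (nat_lit 4))
def w14263 : Root := .mk (.node (.node (.col (nat_lit 3)) (.slot (nat_lit 9)) (.slot (nat_lit 8))) (.node (.col (nat_lit 2)) (.slot (nat_lit 3)) (.slot (nat_lit 3))) (.slot (nat_lit 8))) (.node (.col (nat_lit 0)) (.node (.node .junk (.col (nat_lit 1)) (.col (nat_lit 2))) (.col (nat_lit 0)) (.slot (nat_lit 1))) (.slot (nat_lit 5))) (.col (nat_lit 0)) (.col (nat_lit 4))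
def w14264 : Root := .mk (.node (.node (.node (.node (.col (nat_lit 3)) (.slot (nat_lit 0)) (.slot (nat_lit 0))) (.node (.col (nat_lit 2)) (.slot (nat_lit 1)) (.slot (nat_lit 1))) (.slot (nat_lit 2))) (.col (nat_lit 0)) (.col (nat_lit 4))) (.col (nat_lit 0)) (.slot (nat_lit 1))) (.node (.col (nat_lit 0)) (.col (nat_lit 1)) (.node (.col (nat_lit 4)) (.slot (nat_lit 1)) .junk)) (.col (nat_lit 0)) (.col (nat_lit 1))
def w14265 : Root := .mk (.node (.node (.node (.node (.node (.col (nat_lit 3)) (.slot (nat_lit 0)) (.slot (nat_lit 0))) (.node (.col (nat_lit 2)) (.slot (nat_lit 1)) (.slot (nat_lit 1))) (.slot (nat_lit 2))) (.col (nat_lit 0)) (.col (nat_lit 4))) (.col (nat_lit 0)) (.slot (nat_lit 1))) (.col (nat_lit 0)) (.node (.col (nat_lit 4)) (.slot (nat_lit 1)) (.slot (nat_lit 1)))) (.col (nat_lit 0)) (.col (nat_lit 1)) (.node (.col (nat_lit 4)) (.slot (nat_lit 1)) .junk)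
def w14266 : Root := .mk (.node (.node (.node (.node (.node (.col (nat_lit 3)) (.slot (nat_lit 0)) (.slot (nat_lit 0))) (.node (.col (nat_lit 2)) (.slot (nat_lit 1)) (.slot (nat_lit 1))) (.slot (nat_lit 2))) (.col (nat_lit 0)) (.col (nat_lit 4))) (.col (nat_lit 0)) (.slot (nat_lit 8))) (.col (nat_lit 0)) (.slot (nat_lit 3))) (.col (nat_lit 0)) (.col (nat_lit 1)) (.node (.col (nat_lit 4)) (.node (.col (nat_lit 4)) (.slot (nat_lit 0)) (.slot (nat_lit 0))) (.slot (nat_lit 1)))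
def w14267 : Root := .mk (.node (.node (.node (.node (.node (.col (nat_lit 3)) (.slot (nat_lit 0)) (.slot (nat_lit 0))) (.node (.col (nat_lit 2)) (.slot (nat_lit 1)) (.slot (nat_lit 1))) (.slot (nat_lit 2))) (.col (nat_lit 0)) (.col (nat_lit 4))) (.col (nat_lit 0)) (.slot (nat_lit 2))) (.col (nat_lit 0)) (.slot (nat_lit 2))) (.col (nat_lit 0)) (.col (nat_lit 1)) (.node (.col (nat_lit 4)) (.node (.slot (nat_lit 0)) (.slot (nat_lit 0)) (.slot (nat_lit 0))) (.slot (nat_lit 1)))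
def l3186 : Root := .mk (.node (.node (.node (.node (.node (.col (nat_lit 3)) (.slot (nat_lit 9)) (.slot (nat_lit 8))) (.node (.col (nat_lit 2)) (.slot (nat_lit 9)) (.slot (nat_lit 8))) (.slot (nat_lit 8))) (.col (nat_lit 0)) (.col (nat_lit 4))) (.col (nat_lit 0)) (.slot (nat_lit 8))) (.col (nat_lit 0)) (.slot (nat_lit 3))) (.col (nat_lit 0)) (.col (nat_lit 1)) (.node (.col (nat_lit 4)) (.slot (nat_lit 7)) (.slot (nat_lit 5)))
def w14268 : Root := .mk (.node (.node (.col (nat_lit 3)) (.slot (nat_lit 9)) (.slot (nat_lit 8))) (.node (.col (nat_lit 2)) (.slot (nat_lit 9)) (.slot (nat_lit 8))) (.slot (nat_lit 8))) (.node (.col (nat_lit 0)) (.node (.node (.col (nat_lit 0)) (.col (nat_lit 1)) (.slot (nat_lit 8))) (.col (nat_lit 0)) (.slot (nat_lit 3))) (.slot (nat_lit 8))) (.col (nat_lit 0)) (.col (nat_lit 4))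
def w14269 : Root := .mk (.node (.node (.col (nat_lit 3)) (.slot (nat_lit 3)) (.slot (nat_lit 1))) (.node (.col (nat_lit 2)) (.node (.col (nat_lit 1)) (.slot (nat_lit 3)) (.slot (nat_lit 1))) (.slot (nat_lit 3))) (.slot (nat_lit 3))) (.node (.col (nat_lit 0)) (.col (nat_lit 2)) (.slot (nat_lit 5))) (.col (nat_lit 0)) (.node (.col (nat_lit 0)) (.slot (nat_lit 0)) (.slot (nat_lit 0)))
def w14270 : Root := .mk (.node (.node (.col (nat_lit 3)) (.slot (nat_lit 1)) (.slot (nat_lit 1))) (.node (.node (.col (nat_lit 0)) (.col (nat_lit 2)) (.slot (nat_lit 3))) (.col (nat_lit 0)) (.node (.col (nat_lit 0)) (.slot (nat_lit 3)) (.slot (nat_lit 1)))) (.slot (nat_lit 2))) (.col (nat_lit 2)) (.node (.col (nat_lit 1)) (.slot (nat_lit 0)) (.slot (nat_lit 0))) (.col (nat_lit 1))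
def w14271 : Root := .mk (.node (.node (.col (nat_lit 3)) (.slot (nat_lit 0)) (.slot (nat_lit 0))) (.node (.col (nat_lit 2)) (.node (.col (nat_lit 1)) (.slot (nat_lit 1)) (.slot (nat_lit 0))) (.node (.col (nat_lit 0)) (.slot (nat_lit 0)) (.slot (nat_lit 0)))) (.col (nat_lit 3))) (.node .junk (.col (nat_lit 2)) (.slot (nat_lit 1))) (.col (nat_lit 0)) (.col (nat_lit 3))
def w14272 : Root := .mk (.node (.node (.col (nat_lit 3)) (.slot (nat_lit 0)) (.slot (nat_lit 0))) (.node (.col (nat_lit 2)) (.node (.col (nat_lit 1)) (.slot (nat_lit 1)) (.slot (nat_lit 1))) (.node (.col (nat_lit 0)) (.slot (nat_lit 1)) (.slot (nat_lit 0)))) (.node (.col (nat_lit 2)) (.slot (nat_lit 0)) (.slot (nat_lit 0)))) (.node (.col (nat_lit 0)) (.col (nat_lit 2)) (.slot (nat_lit 1))) (.col (nat_lit 0)) (.col (nat_lit 3))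
def w14273 : Root := .mk (.node (.node (.node (.col (nat_lit 3)) (.slot (nat_lit 1)) (.slot (nat_lit 0))) (.node (.col (nat_lit 2)) (.node (.col (nat_lit 1)) (.slot (nat_lit 1)) (.slot (nat_lit 1))) (.node (.col (nat_lit 0)) (.slot (nat_lit 1)) (.slot (nat_lit 0)))) (.slot (nat_lit 1))) (.col (nat_lit 0)) (.col (nat_lit 3))) (.col (nat_lit 0)) (.col (nat_lit 2)) (.col (nat_lit 3))
def w14274 : Root := .mk (.node (.node (.col (nat_lit 3)) (.slot (nat_lit 0)) (.slot (nat_lit 1))) (.node (.col (nat_lit 2)) (.node (.col (nat_lit 1)) (.slot (nat_lit 1)) (.slot (nat_lit 1))) (.node (.col (nat_lit 0)) (.slot (nat_lit 1)) (.slot (nat_lit 0)))) (.slot (nat_lit 1))) (.node (.col (nat_lit 0)) (.col (nat_lit 2)) (.slot (nat_lit 0))) (.col (nat_lit 0)) (.col (nat_lit 3))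
def w14275 : Root := .mk (.node (.node (.col (nat_lit 3)) (.slot (nat_lit 0)) (.slot (nat_lit 0))) (.node (.node (.col (nat_lit 0)) (.col (nat_lit 2)) (.slot (nat_lit 5))) (.col (nat_lit 0)) (.col (nat_lit 3))) (.slot (nat_lit 1))) (.col (nat_lit 2)) (.col (nat_lit 0)) (.node (.col (nat_lit 0)) (.slot (nat_lit 0)) (.slot (nat_lit 0)))
def l3187 : Root := .mk (.node (.node (.col (nat_lit 3)) (.slot (nat_lit 3)) (.slot (nat_lit 3))) (.node (.col (nat_lit 2)) (.node (.col (nat_lit 1)) (.slot (nat_lit 5)) (.slot (nat_lit 1))) (.node (.col (nat_lit 0)) (.slot (nat_lit 7)) (.slot (nat_lit 5)))) (.slot (nat_lit 2))) (.node (.col (nat_lit 0)) (.col (nat_lit 2)) (.slot (nat_lit 5))) (.col (nat_lit 0)) (.col (nat_lit 3))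
def w14276 : Root := .mk (.node (.node (.col (nat_lit 3)) (.slot (nat_lit 3)) (.slot (nat_lit 3))) (.node (.node (.col (nat_lit 0)) (.col (nat_lit 2)) (.slot (nat_lit 5))) (.col (nat_lit 0)) (.node (.col (nat_lit 0)) (.slot (nat_lit 0)) (.slot (nat_lit 0)))) (.slot (nat_lit 2))) (.col (nat_lit 2)) (.node (.col (nat_lit 1)) (.slot (nat_lit 5)) (.slot (nat_lit 1))) (.node (.col (nat_lit 0)) (.slot (nat_lit 7)) (.slot (nat_lit 5)))
def w14277 : Root := .mk (.node (.node (.col (nat_lit 3)) (.slot (nat_lit 1)) (.slot (nat_lit 0))) (.node (.node (.col (nat_lit 0)) (.col (nat_lit 2)) (.slot (nat_lit 3))) (.col (nat_lit 0)) (.node (.col (nat_lit 0)) (.slot (nat_lit 3)) (.slot (nat_lit 1)))) (.slot (nat_lit 1))) (.col (nat_lit 2)) (.node (.col (nat_lit 1)) (.slot (nat_lit 2)) (.slot (nat_lit 2))) (.node (.col (nat_lit 2)) (.slot (nat_lit 0)) (.slot (nat_lit 0)))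
def w14278 : Root := .mk (.node (.node (.col (nat_lit 3)) (.slot (nat_lit 3)) (.slot (nat_lit 3))) (.node (.node (.col (nat_lit 0)) (.col (nat_lit 2)) (.slot (nat_lit 8))) (.col (nat_lit 0)) (.node (.col (nat_lit 0)) (.slot (nat_lit 3)) (.slot (nat_lit 3)))) (.slot (nat_lit 3))) (.col (nat_lit 2)) (.node (.col (nat_lit 1)) (.slot (nat_lit 1)) (.slot (nat_lit 1))) (.node (.col (nat_lit 3)) (.slot (nat_lit 1)) (.slot (nat_lit 0)))
def w14279 : Root := .mk (.node (.node (.col (nat_lit 3)) (.slot (nat_lit 1)) (.slot (nat_lit 0))) (.node (.node (.col (nat_lit 0)) (.col (nat_lit 2)) (.slot (nat_lit 3))) (.col (nat_lit 0)) (.node (.col (nat_lit 0)) (.slot (nat_lit 3)) (.slot (nat_lit 1)))) (.slot (nat_lit 1))) (.col (nat_lit 2)) (.node (.col (nat_lit 1)) (.slot (nat_lit 2)) (.slot (nat_lit 2))) (.node (.col (nat_lit 4)) (.slot (nat_lit 0)) (.slot (nat_lit 0)))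
def w14280 : Root := .mk (.node (.node (.col (nat_lit 3)) (.slot (nat_lit 1)) (.slot (nat_lit 0))) (.node (.node (.col (nat_lit 0)) (.col (nat_lit 2)) (.slot (nat_lit 3))) (.col (nat_lit 0)) (.node (.col (nat_lit 0)) (.slot (nat_lit 3)) (.slot (nat_lit 1)))) (.slot (nat_lit 1))) (.col (nat_lit 2)) (.node (.col (nat_lit 1)) (.slot (nat_lit 1)) (.slot (nat_lit 2))) (.node (.slot (nat_lit 0)) (.slot (nat_lit 0)) (.slot (nat_lit 0)))
def w14281 : Root := .mk (.node (.col (nat_lit 3)) (.slot (nat_lit 0)) (.slot (nat_lit 0))) (.node (.node (.col (nat_lit 0)) (.col (nat_lit 2)) (.slot (nat_lit 0))) (.col (nat_lit 0)) (.node (.col (nat_lit 0)) (.slot (nat_lit 0)) (.slot (nat_lit 0)))) (.node (.col (nat_lit 2)) (.node (.col (nat_lit 1)) (.slot (nat_lit 3)) (.slot (nat_lit 1))) (.slot (nat_lit 3))) (.col (nat_lit 3))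
def w14282 : Root := .mk (.node (.col (nat_lit 3)) (.slot (nat_lit 1)) (.slot (nat_lit 1))) (.node (.node (.col (nat_lit 0)) (.col (nat_lit 2)) (.slot (nat_lit 2))) (.col (nat_lit 0)) (.node (.col (nat_lit 0)) (.slot (nat_lit 1)) (.slot (nat_lit 1)))) (.node (.col (nat_lit 2)) (.node (.col (nat_lit 1)) (.slot (nat_lit 1)) (.slot (nat_lit 1))) (.slot (nat_lit 2))) (.col (nat_lit 4))
def w14283 : Root := .mk (.node (.node (.col (nat_lit 3)) (.slot (nat_lit 0)) (.slot (nat_lit 0))) (.node (.col (nat_lit 2)) (.node (.col (nat_lit 1)) (.slot (nat_lit 1)) (.slot (nat_lit 1))) (.slot (nat_lit 2))) (.node (.col (nat_lit 0)) (.slot (nat_lit 2)) (.slot (nat_lit 2)))) (.node (.col (nat_lit 0)) (.col (nat_lit 2)) (.slot (nat_lit 1))) (.col (nat_lit 0)) (.node (.col (nat_lit 0)) (.slot (nat_lit 0)) (.slot (nat_lit 0)))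
def w14284 : Root := .mk (.node (.node (.col (nat_lit 3)) (.slot (nat_lit 2)) (.slot (nat_lit 2))) (.node (.col (nat_lit 2)) (.node (.col (nat_lit 1)) (.slot (nat_lit 7)) (.slot (nat_lit 5))) (.slot (nat_lit 8))) (.node (.col (nat_lit 1)) (.slot (nat_lit 3)) (.slot (nat_lit 3)))) (.node (.col (nat_lit 0)) (.col (nat_lit 2)) (.slot (nat_lit 5))) (.col (nat_lit 0)) (.node (.col (nat_lit 0)) (.slot (nat_lit 0)) (.slot (nat_lit 0)))
def w14285 : Root := .mk (.node (.node (.col (nat_lit 3)) (.slot (nat_lit 0)) (.slot (nat_lit 0))) (.node (.col (nat_lit 2)) (.node (.col (nat_lit 1)) (.slot (nat_lit 1)) (.slot (nat_lit 0))) (.slot (nat_lit 1))) (.node (.col (nat_lit 2)) (.slot (nat_lit 2)) (.slot (nat_lit 2)))) (.node (.col (nat_lit 0)) (.col (nat_lit 2)) (.slot (nat_lit 3))) (.col (nat_lit 0)) (.node (.col (nat_lit 0)) (.slot (nat_lit 3)) (.slot (nat_lit 1)))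
def w14286 : Root := .mk (.node (.node (.col (nat_lit 3)) (.slot (nat_lit 0)) (.slot (nat_lit 0))) (.node (.col (nat_lit 2)) (.node (.col (nat_lit 1)) (.slot (nat_lit 1)) (.slot (nat_lit 1))) (.slot (nat_lit 2))) (.slot (nat_lit 0))) (.col (nat_lit 1)) (.col (nat_lit 0)) (.col (nat_lit 3))
def w14287 : Root := .mk (.node (.node (.node (.col (nat_lit 3)) (.slot (nat_lit 1)) (.slot (nat_lit 0))) (.node (.col (nat_lit 2)) (.node (.col (nat_lit 1)) (.slot (nat_lit 1)) (.slot (nat_lit 1))) (.slot (nat_lit 2))) (.node (.col (nat_lit 4)) (.slot (nat_lit 0)) (.slot (nat_lit 0)))) (.col (nat_lit 0)) (.col (nat_lit 3))) (.col (nat_lit 0)) (.col (nat_lit 2)) (.col (nat_lit 3))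
def w14289 : Root := .mk (.node (.node (.col (nat_lit 3)) (.col (nat_lit 1)) (.slot (nat_lit 1))) (.node (.col (nat_lit 2)) (.slot (nat_lit 0)) (.slot (nat_lit 0))) (.node (.col (nat_lit 4)) (.slot (nat_lit 0)) (.slot (nat_lit 0)))) (.node (.col (nat_lit 0)) (.col (nat_lit 2)) (.slot (nat_lit 3))) (.col (nat_lit 0)) (.col (nat_lit 3))
def w14290 : Root := .mk (.node (.node (.col (nat_lit 3)) (.col (nat_lit 2)) (.slot (nat_lit 3))) (.node (.col (nat_lit 2)) (.node (.col (nat_lit 1)) (.slot (nat_lit 1)) (.slot (nat_lit 1))) (.slot (nat_lit 3))) (.node (.col (nat_lit 4)) (.slot (nat_lit 0)) (.slot (nat_lit 0)))) (.slot (nat_lit 0)) (.col (nat_lit 0)) (.col (nat_lit 3))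
def w14291 : Root := .mk (.node (.node (.col (nat_lit 3)) (.slot (nat_lit 0)) (.slot (nat_lit 1))) (.node (.col (nat_lit 2)) (.node (.col (nat_lit 1)) (.slot (nat_lit 1)) (.slot (nat_lit 1))) (.slot (nat_lit 2))) (.node (.col (nat_lit 4)) (.slot (nat_lit 0)) (.slot (nat_lit 0)))) (.node (.col (nat_lit 0)) (.col (nat_lit 2)) (.slot (nat_lit 0))) (.col (nat_lit 0)) (.col (nat_lit 3))
def w14292 : Root := .mk (.node (.node (.col (nat_lit 3)) (.slot (nat_lit 1)) (.slot (nat_lit 0))) (.node (.col (nat_lit 2)) (.col (nat_lit 4)) (.slot (nat_lit 0))) (.node (.col (nat_lit 4)) (.slot (nat_lit 0)) (.slot (nat_lit 0)))) (.node (.col (nat_lit 0)) (.col (nat_lit 2)) (.slot (nat_lit 5))) (.col (nat_lit 0)) (.col (nat_lit 3))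
def w14293 : Root := .mk (.node (.node (.col (nat_lit 3)) (.slot (nat_lit 1)) (.slot (nat_lit 0))) (.node (.node (.col (nat_lit 0)) (.col (nat_lit 2)) (.slot (nat_lit 5))) (.col (nat_lit 0)) (.col (nat_lit 3))) (.node (.col (nat_lit 4)) (.slot (nat_lit 0)) (.slot (nat_lit 0)))) (.col (nat_lit 2)) (.slot (nat_lit 0)) (.col (nat_lit 1))
def l3188 : Root := .mk (.node (.node (.col (nat_lit 3)) (.slot (nat_lit 4)) (.slot (nat_lit 3))) (.node (.col (nat_lit 2)) (.node (.col (nat_lit 1)) (.slot (nat_lit 3)) (.slot (nat_lit 3))) (.slot (nat_lit 3))) (.node (.col (nat_lit 4)) (.slot (nat_lit 3)) (.slot (nat_lit 3)))) (.node (.col (nat_lit 0)) (.col (nat_lit 2)) (.slot (nat_lit 5))) (.col (nat_lit 0)) (.col (nat_lit 3))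
def w14294 : Root := .mk (.node (.node (.col (nat_lit 3)) (.slot (nat_lit 4)) (.slot (nat_lit 3))) (.node (.col (nat_lit 2)) (.node (.col (nat_lit 1)) (.slot (nat_lit 3)) (.slot (nat_lit 3))) (.slot (nat_lit 3))) (.node (.col (nat_lit 4)) (.slot (nat_lit 3)) (.slot (nat_lit 3)))) (.node (.col (nat_lit 0)) (.col (nat_lit 2)) (.slot (nat_lit 5))) (.col (nat_lit 0)) (.node (.col (nat_lit 0)) (.slot (nat_lit 0)) (.slot (nat_lit 0)))
def w14295 : Root := .mk (.node (.node (.node (.col (nat_lit 3)) (.slot (nat_lit 1)) (.slot (nat_lit 0))) (.node (.node (.col (nat_lit 0)) (.col (nat_lit 2)) (.slot (nat_lit 3))) (.col (nat_lit 0)) (.node (.col (nat_lit 0)) (.slot (nat_lit 3)) (.slot (nat_lit 1)))) (.slot (nat_lit 2))) (.col (nat_lit 2)) (.slot (nat_lit 1))) (.col (nat_lit 1)) (.col (nat_lit 2)) (.slot (nat_lit 3))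
def w14296 : Root := .mk (.node (.node (.col (nat_lit 3)) (.slot (nat_lit 0)) (.slot (nat_lit 0))) (.node (.col (nat_lit 2)) (.node (.col (nat_lit 1)) (.slot (nat_lit 0)) (.slot (nat_lit 1))) (.slot (nat_lit 1))) (.col (nat_lit 3))) (.node .junk (.col (nat_lit 2)) (.slot (nat_lit 1))) (.col (nat_lit 0)) (.col (nat_lit 3))
def w14297 : Root := .mk (.node (.node (.node (.col (nat_lit 3)) (.slot (nat_lit 1)) (.slot (nat_lit 0))) (.node (.col (nat_lit 2)) (.node (.col (nat_lit 1)) (.node (.col (nat_lit 1)) (.slot (nat_lit 0)) (.slot (nat_lit 0))) (.slot (nat_lit 2))) (.slot (nat_lit 2))) (.slot (nat_lit 1))) (.col (nat_lit 0)) (.col (nat_lit 3))) (.col (nat_lit 0)) (.col (nat_lit 2)) (.col (nat_lit 3))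
def w14301 : Root := .mk (.node (.node (.col (nat_lit 3)) (.slot (nat_lit 0)) (.slot (nat_lit 1))) (.node (.col (nat_lit 2)) (.node (.col (nat_lit 1)) (.node (.col (nat_lit 1)) (.slot (nat_lit 0)) (.slot (nat_lit 0))) (.slot (nat_lit 2))) (.slot (nat_lit 2))) (.slot (nat_lit 1))) (.node (.col (nat_lit 0)) (.col (nat_lit 2)) (.slot (nat_lit 0))) (.col (nat_lit 0)) (.col (nat_lit 3))
def l3189 : Root := .mk (.node (.node (.col (nat_lit 3)) (.slot (nat_lit 3)) (.slot (nat_lit 3))) (.node (.col (nat_lit 2)) (.node (.col (nat_lit 1)) (.node (.col (nat_lit 1)) (.slot (nat_lit 0)) (.slot (nat_lit 0))) (.slot (nat_lit 2))) (.slot (nat_lit 3))) (.slot (nat_lit 8))) (.node (.col (nat_lit 0)) (.col (nat_lit 2)) (.slot (nat_lit 5))) (.col (nat_lit 0)) (.col (nat_lit 3))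
def w14302 : Root := .mk (.node (.node (.col (nat_lit 3)) (.slot (nat_lit 3)) (.slot (nat_lit 3))) (.node (.col (nat_lit 2)) (.node (.col (nat_lit 1)) (.node (.col (nat_lit 1)) (.slot (nat_lit 0)) (.slot (nat_lit 0))) (.slot (nat_lit 2))) (.slot (nat_lit 3))) (.slot (nat_lit 8))) (.node (.col (nat_lit 0)) (.col (nat_lit 2)) (.slot (nat_lit 5))) (.col (nat_lit 0)) (.node (.col (nat_lit 0)) (.slot (nat_lit 0)) (.slot (nat_lit 0)))
def w14303 : Root := .mk (.col (nat_lit 3)) (.node (.node (.slot (nat_lit 0)) (.col (nat_lit 0)) (.node (.col (nat_lit 0)) (.slot (nat_lit 0)) (.slot (nat_lit 0)))) (.node (.col (nat_lit 2)) (.node (.col (nat_lit 1)) (.slot (nat_lit 1)) (.slot (nat_lit 1))) (.slot (nat_lit 2))) (.slot (nat_lit 1))) (.col (nat_lit 0)) (.slot (nat_lit 1))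
def w14304 : Root := .mk (.node (.node (.col (nat_lit 3)) (.slot (nat_lit 0)) (.slot (nat_lit 0))) (.node (.col (nat_lit 2)) (.node (.col (nat_lit 1)) (.slot (nat_lit 1)) (.slot (nat_lit 1))) (.slot (nat_lit 2))) (.slot (nat_lit 1))) (.node (.col (nat_lit 0)) (.col (nat_lit 2)) (.slot (nat_lit 1))) (.col (nat_lit 0)) (.col (nat_lit 1))
def w14305 : Root := .mk (.node (.node (.col (nat_lit 3)) (.slot (nat_lit 1)) (.slot (nat_lit 0))) (.node (.col (nat_lit 2)) (.node (.col (nat_lit 1)) (.slot (nat_lit 2)) (.slot (nat_lit 2))) (.slot (nat_lit 1))) (.slot (nat_lit 1))) (.node .junk (.col (nat_lit 2)) (.col (nat_lit 4))) (.col (nat_lit 0)) (.node (.col (nat_lit 0)) (.slot (nat_lit 0)) (.slot (nat_lit 0)))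
def w14306 : Root := .mk (.node (.node (.node (.col (nat_lit 3)) (.slot (nat_lit 4)) (.slot (nat_lit 4))) (.node (.col (nat_lit 2)) (.node (.col (nat_lit 1)) (.slot (nat_lit 8)) (.slot (nat_lit 8))) (.slot (nat_lit 9))) (.slot (nat_lit 8))) (.col (nat_lit 0)) (.node (.col (nat_lit 0)) (.slot (nat_lit 5)) (.slot (nat_lit 5)))) (.col (nat_lit 0)) (.col (nat_lit 2)) (.node (.col (nat_lit 2)) (.slot (nat_lit 0)) (.slot (nat_lit 0)))
def w14307 : Root := .mk (.node (.node (.node (.col (nat_lit 3)) (.slot (nat_lit 4)) (.slot (nat_lit 4))) (.node (.col (nat_lit 2)) (.node (.col (nat_lit 1)) (.slot (nat_lit 8)) (.slot (nat_lit 8))) (.slot (nat_lit 9))) (.slot (nat_lit 8))) (.col (nat_lit 0)) (.node (.col (nat_lit 0)) (.slot (nat_lit 5)) (.slot (nat_lit 5)))) (.col (nat_lit 0)) (.col (nat_lit 2)) (.node (.slot (nat_lit 0)) (.slot (nat_lit 0)) (.slot (nat_lit 0)))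
def w14308 : Root := .mk (.node (.node (.node (.col (nat_lit 3)) (.slot (nat_lit 3)) (.slot (nat_lit 1))) (.node (.col (nat_lit 2)) (.node (.col (nat_lit 1)) (.slot (nat_lit 3)) (.slot (nat_lit 1))) (.slot (nat_lit 3))) (.slot (nat_lit 3))) (.node (.col (nat_lit 0)) (.col (nat_lit 2)) (.slot (nat_lit 5))) (.col (nat_lit 0))) (.col (nat_lit 0)) (.col (nat_lit 1)) (.slot (nat_lit 0))
def w14309 : Root := .mk (.node (.node (.col (nat_lit 3)) (.slot (nat_lit 1)) (.slot (nat_lit 1))) (.col (nat_lit 0)) (.slot (nat_lit 2))) (.node (.col (nat_lit 0)) (.col (nat_lit 2)) (.slot (nat_lit 0))) (.col (nat_lit 0)) (.node .junk (.col (nat_lit 3)) (.col (nat_lit 4)))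
def w14310 : Root := .mk (.col (nat_lit 4)) (.node (.node .junk (.col (nat_lit 2)) (.slot (nat_lit 1))) (.col (nat_lit 0)) (.node (.col (nat_lit 0)) (.col (nat_lit 3)) (.node (.col (nat_lit 1)) (.slot (nat_lit 1)) .junk))) (.col (nat_lit 0)) (.node (.col (nat_lit 1)) (.slot (nat_lit 1)) .junk)
def w14311 : Root := .mk (.node (.node (.col (nat_lit 4)) (.col (nat_lit 0)) (.node (.col (nat_lit 1)) (.slot (nat_lit 1)) .junk)) (.col (nat_lit 0)) (.node (.col (nat_lit 0)) (.col (nat_lit 3)) (.node (.col (nat_lit 1)) (.slot (nat_lit 1)) (.slot (nat_lit 1))))) (.col (nat_lit 0)) (.col (nat_lit 2)) (.slot (nat_lit 0))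
def l3190 : Root := .mk (.col (nat_lit 4)) (.node (.node (.col (nat_lit 0)) (.col (nat_lit 2)) (.slot (nat_lit 2))) (.col (nat_lit 0)) (.node (.col (nat_lit 0)) (.col (nat_lit 3)) (.node (.col (nat_lit 1)) (.slot (nat_lit 1)) (.slot (nat_lit 1))))) (.col (nat_lit 0)) (.node (.col (nat_lit 1)) (.slot (nat_lit 1)) (.slot (nat_lit 1)))
def w14312 : Root := .mk (.node (.node (.col (nat_lit 4)) (.col (nat_lit 0)) (.slot (nat_lit 2))) (.node (.col (nat_lit 0)) (.col (nat_lit 2)) (.slot (nat_lit 2))) (.col (nat_lit 0))) (.col (nat_lit 0)) (.col (nat_lit 3)) (.node (.col (nat_lit 1)) (.slot (nat_lit 1)) (.slot (nat_lit 1)))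
def w14313 : Root := .mk (.node (.col (nat_lit 3)) (.col (nat_lit 0)) (.slot (nat_lit 3))) (.node (.node (.col (nat_lit 0)) (.col (nat_lit 2)) (.slot (nat_lit 0))) (.col (nat_lit 0)) (.node (.col (nat_lit 0)) (.col (nat_lit 3)) (.node (.col (nat_lit 1)) (.slot (nat_lit 1)) .junk))) (.col (nat_lit 0)) (.col (nat_lit 4))
def w14314 : Root := .mk (.node (.col (nat_lit 3)) .junk (.slot (nat_lit 1))) (.node (.node .junk (.col (nat_lit 2)) (.slot (nat_lit 1))) (.col (nat_lit 0)) (.node (.col (nat_lit 0)) (.col (nat_lit 3)) (.node (.col (nat_lit 1)) (.slot (nat_lit 1)) .junk))) (.col (nat_lit 0)) (.col (nat_lit 4))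
def l3191 : Root := .mk (.node (.col (nat_lit 3)) (.slot (nat_lit 7)) (.slot (nat_lit 5))) (.node (.node (.col (nat_lit 0)) (.col (nat_lit 2)) (.slot (nat_lit 2))) (.col (nat_lit 0)) (.node (.col (nat_lit 0)) (.col (nat_lit 3)) (.node (.col (nat_lit 1)) (.slot (nat_lit 1)) (.slot (nat_lit 1))))) (.col (nat_lit 0)) (.col (nat_lit 4))
def w14315 : Root := .mk (.node (.node (.node (.col (nat_lit 3)) (.slot (nat_lit 7)) (.slot (nat_lit 5))) (.col (nat_lit 0)) (.node (.col (nat_lit 0)) (.slot (nat_lit 0)) (.slot (nat_lit 0)))) (.node (.col (nat_lit 0)) (.col (nat_lit 2)) (.slot (nat_lit 2))) (.col (nat_lit 0))) (.col (nat_lit 0)) (.col (nat_lit 3)) (.node (.col (nat_lit 1)) (.slot (nat_lit 1)) (.slot (nat_lit 1)))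
def w14316 : Root := .mk (.node (.node (.node (.col (nat_lit 3)) (.slot (nat_lit 0)) (.slot (nat_lit 0))) (.col (nat_lit 0)) (.node (.col (nat_lit 1)) (.slot (nat_lit 1)) (.slot (nat_lit 1)))) (.node (.col (nat_lit 0)) (.col (nat_lit 2)) (.slot (nat_lit 2))) (.col (nat_lit 0))) (.col (nat_lit 0)) (.col (nat_lit 3)) (.node (.col (nat_lit 1)) (.slot (nat_lit 1)) (.slot (nat_lit 1)))
def w14317 : Root := .mk (.node (.node (.node (.col (nat_lit 3)) (.slot (nat_lit 1)) .junk) (.col (nat_lit 0)) (.node (.slot (nat_lit 0)) (.slot (nat_lit 0)) (.slot (nat_lit 0)))) (.node (.col (nat_lit 0)) (.col (nat_lit 2)) (.slot (nat_lit 3))) (.col (nat_lit 0))) (.col (nat_lit 0)) (.col (nat_lit 3)) (.node (.col (nat_lit 1)) (.slot (nat_lit 2)) (.slot (nat_lit 2)))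
def w14318 : Root := .mk (.node (.node (.node (.col (nat_lit 3)) (.slot (nat_lit 1)) (.slot (nat_lit 1))) (.col (nat_lit 0)) (.slot (nat_lit 1))) (.col (nat_lit 0)) (.node (.col (nat_lit 0)) (.col (nat_lit 3)) (.node (.col (nat_lit 1)) (.slot (nat_lit 1)) (.slot (nat_lit 0))))) (.col (nat_lit 0)) (.col (nat_lit 2)) (.col (nat_lit 4))
def l3192 : Root := .mk (.node (.node (.node (.col (nat_lit 3)) (.slot (nat_lit 7)) (.slot (nat_lit 5))) (.col (nat_lit 0)) (.slot (nat_lit 8))) (.node (.col (nat_lit 0)) (.col (nat_lit 2)) (.slot (nat_lit 3))) (.col (nat_lit 0))) (.col (nat_lit 0)) (.col (nat_lit 3)) (.node (.col (nat_lit 1)) (.slot (nat_lit 5)) (.slot (nat_lit 7)))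
def w14320 : Root := .mk (.node (.node (.col (nat_lit 3)) (.slot (nat_lit 7)) (.slot (nat_lit 5))) (.col (nat_lit 0)) (.slot (nat_lit 8))) (.node (.col (nat_lit 0)) (.col (nat_lit 2)) (.slot (nat_lit 3))) (.col (nat_lit 0)) (.node (.col (nat_lit 0)) (.col (nat_lit 3)) (.slot (nat_lit 8)))
def w14321 : Root := .mk (.node (.node (.node (.col (nat_lit 3)) (.slot (nat_lit 7)) (.slot (nat_lit 5))) (.node (.col (nat_lit 2)) (.node (.col (nat_lit 1)) (.slot (nat_lit 1)) (.slot (nat_lit 1))) (.slot (nat_lit 2))) (.slot (nat_lit 8))) (.node (.col (nat_lit 0)) (.col (nat_lit 2)) (.slot (nat_lit 3))) (.col (nat_lit 0))) (.col (nat_lit 0)) (.col (nat_lit 3)) (.slot (nat_lit 8))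
def w14322 : Root := .mk (.node (.node (.node (.col (nat_lit 3)) (.slot (nat_lit 3)) (.slot (nat_lit 1))) (.node (.col (nat_lit 2)) (.node (.col (nat_lit 1)) (.slot (nat_lit 3)) (.slot (nat_lit 1))) (.slot (nat_lit 3))) (.slot (nat_lit 3))) (.node (.col (nat_lit 0)) (.col (nat_lit 2)) (.slot (nat_lit 5))) (.col (nat_lit 0))) (.col (nat_lit 0)) (.col (nat_lit 4)) (.slot (nat_lit 0))
def l3193 : Root := .mk (.node (.node (.col (nat_lit 3)) (.slot (nat_lit 7)) (.slot (nat_lit 5))) (.node (.col (nat_lit 2)) (.node (.col (nat_lit 1)) (.slot (nat_lit 8)) (.slot (nat_lit 8))) (.slot (nat_lit 9))) (.slot (nat_lit 8))) (.node (.col (nat_lit 0)) (.col (nat_lit 2)) (.slot (nat_lit 8))) (.col (nat_lit 0)) (.node (.col (nat_lit 0)) (.slot (nat_lit 8)) (.slot (nat_lit 8)))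
def w14323 : Root := .mk (.node (.node (.node (.col (nat_lit 3)) (.slot (nat_lit 7)) (.slot (nat_lit 5))) (.node (.col (nat_lit 2)) (.slot (nat_lit 9)) (.slot (nat_lit 9))) (.slot (nat_lit 8))) (.col (nat_lit 0)) (.node (.col (nat_lit 0)) (.slot (nat_lit 8)) (.slot (nat_lit 8)))) (.col (nat_lit 0)) (.col (nat_lit 2)) (.slot (nat_lit 8))
def w14324 : Root := .mk (.node (.node (.col (nat_lit 3)) (.slot (nat_lit 7)) (.slot (nat_lit 5))) (.node (.col (nat_lit 2)) (.slot (nat_lit 9)) (.slot (nat_lit 9))) (.slot (nat_lit 8))) (.node (.col (nat_lit 0)) (.node (.node (.col (nat_lit 0)) (.col (nat_lit 1)) (.slot (nat_lit 2))) (.col (nat_lit 0)) (.slot (nat_lit 8))) (.slot (nat_lit 8))) (.col (nat_lit 0)) (.node (.col (nat_lit 0)) (.slot (nat_lit 8)) (.slot (nat_lit 8)))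
def w14325 : Root := .mk (.node (.node (.col (nat_lit 3)) (.slot (nat_lit 3)) (.slot (nat_lit 1))) (.node (.col (nat_lit 2)) (.slot (nat_lit 3)) (.slot (nat_lit 3))) (.slot (nat_lit 8))) (.node (.col (nat_lit 0)) (.slot (nat_lit 0)) (.slot (nat_lit 0))) (.col (nat_lit 0)) (.node (.col (nat_lit 1)) (.slot (nat_lit 3)) (.slot (nat_lit 3)))
def w14326 : Root := .mk (.node (.node (.col (nat_lit 3)) (.slot (nat_lit 0)) (.slot (nat_lit 0))) (.node (.col (nat_lit 2)) (.slot (nat_lit 0)) (.slot (nat_lit 0))) (.slot (nat_lit 2))) (.node (.col (nat_lit 0)) (.node (.node (.col (nat_lit 0)) (.col (nat_lit 1)) (.slot (nat_lit 3))) (.col (nat_lit 0)) (.slot (nat_lit 1))) (.slot (nat_lit 3))) (.col (nat_lit 0)) (.node (.col (nat_lit 2)) (.slot (nat_lit 1)) (.slot (nat_lit 1)))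
def w14328 : Root := .mk (.node (.node (.col (nat_lit 3)) (.slot (nat_lit 1)) (.slot (nat_lit 1))) (.col (nat_lit 1)) (.slot (nat_lit 2))) (.node (.col (nat_lit 0)) (.node (.node .junk (.col (nat_lit 1)) (.col (nat_lit 3))) (.col (nat_lit 0)) (.slot (nat_lit 1))) (.slot (nat_lit 8))) (.col (nat_lit 0)) (.node (.slot (nat_lit 0)) (.slot (nat_lit 1)) (.slot (nat_lit 1)))
def w14334 : Root := .mk (.node (.node (.col (nat_lit 3)) (.slot (nat_lit 1)) (.slot (nat_lit 1))) (.node (.col (nat_lit 2)) (.col (nat_lit 0)) (.slot (nat_lit 8))) (.slot (nat_lit 2))) (.col (nat_lit 1)) (.col (nat_lit 0)) (.node (.slot (nat_lit 0)) (.slot (nat_lit 0)) (.slot (nat_lit 0)))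
def w14336 : Root := .mk (.node (.node (.col (nat_lit 3)) (.slot (nat_lit 0)) (.slot (nat_lit 0))) (.node (.node (.col (nat_lit 0)) (.slot (nat_lit 0)) (.slot (nat_lit 0))) (.col (nat_lit 0)) (.node (.slot (nat_lit 0)) (.slot (nat_lit 1)) (.slot (nat_lit 0)))) (.slot (nat_lit 2))) (.col (nat_lit 2)) (.col (nat_lit 4)) (.col (nat_lit 0))
def w14339 : Root := .mk (.node (.node (.col (nat_lit 3)) (.slot (nat_lit 0)) (.slot (nat_lit 0))) (.node (.col (nat_lit 2)) (.node (.col (nat_lit 1)) (.slot (nat_lit 0)) (.slot (nat_lit 0))) (.col (nat_lit 1))) (.col (nat_lit 4))) (.col (nat_lit 1)) (.col (nat_lit 0)) (.node (.slot (nat_lit 0)) (.col (nat_lit 4)) (.col (nat_lit 0)))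
def w14355 : Root := .mk (.node (.node (.node (.col (nat_lit 3)) (.slot (nat_lit 1)) (.slot (nat_lit 1))) (.col (nat_lit 0)) (.slot (nat_lit 2))) (.col (nat_lit 0)) (.node (.slot (nat_lit 0)) (.slot (nat_lit 1)) (.slot (nat_lit 1)))) (.col (nat_lit 0)) (.col (nat_lit 1)) (.node (.node (.col (nat_lit 4)) (.slot (nat_lit 0)) (.slot (nat_lit 0))) (.slot (nat_lit 7)) (.slot (nat_lit 5)))
def w14359 : Root := .mk (.node (.node (.col (nat_lit 3)) (.col (nat_lit 0)) (.slot (nat_lit 2))) (.node (.col (nat_lit 2)) (.slot (nat_lit 0)) (.slot (nat_lit 0))) (.slot (nat_lit 0))) (.node (.col (nat_lit 0)) (.col (nat_lit 4)) (.slot (nat_lit 5))) (.col (nat_lit 0)) (.col (nat_lit 3))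
def w14362 : Root := .mk (.node (.col (nat_lit 3)) .junk (.col (nat_lit 1))) (.node (.node (.col (nat_lit 0)) (.col (nat_lit 4)) (.slot (nat_lit 2))) (.col (nat_lit 0)) (.node (.slot (nat_lit 0)) (.col (nat_lit 4)) (.slot (nat_lit 1)))) (.node (.col (nat_lit 2)) (.slot (nat_lit 0)) (.slot (nat_lit 0))) (.col (nat_lit 4))
def w14363 : Root := .mk (.node (.node (.col (nat_lit 3)) .junk (.col (nat_lit 1))) (.node (.node (.col (nat_lit 0)) (.col (nat_lit 4)) (.slot (nat_lit 2))) (.col (nat_lit 0)) (.node (.slot (nat_lit 0)) (.col (nat_lit 4)) (.slot (nat_lit 1)))) (.col (nat_lit 4))) (.col (nat_lit 2)) (.col (nat_lit 4)) (.slot (nat_lit 0))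
def w14364 : Root := .mk (.node (.node (.col (nat_lit 3)) .junk (.col (nat_lit 1))) (.node (.col (nat_lit 2)) (.slot (nat_lit 0)) (.slot (nat_lit 0))) (.col (nat_lit 4))) (.node .junk (.col (nat_lit 4)) (.col (nat_lit 1))) (.col (nat_lit 0)) (.node (.slot (nat_lit 0)) (.col (nat_lit 4)) (.slot (nat_lit 0)))
def w14365 : Root := .mk (.col (nat_lit 3)) (.node (.node (.node .junk (.col (nat_lit 4)) (.col (nat_lit 2))) (.col (nat_lit 0)) (.node (.slot (nat_lit 0)) (.col (nat_lit 4)) (.slot (nat_lit 0)))) (.slot (nat_lit 0)) (.col (nat_lit 4))) (.node (.col (nat_lit 1)) (.slot (nat_lit 0)) (.slot (nat_lit 0))) (.col (nat_lit 1))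
def w14366 : Root := .mk (.node (.node (.col (nat_lit 3)) (.node (.col (nat_lit 1)) (.slot (nat_lit 0)) (.slot (nat_lit 0))) (.col (nat_lit 1))) (.slot (nat_lit 0)) (.col (nat_lit 4))) (.col (nat_lit 1)) (.col (nat_lit 0)) (.node (.slot (nat_lit 0)) (.col (nat_lit 4)) (.node (.col (nat_lit 0)) (.slot (nat_lit 0)) (.slot (nat_lit 0))))
def w14367 : Root := .mk (.node (.node (.col (nat_lit 3)) (.node (.col (nat_lit 1)) (.slot (nat_lit 0)) (.slot (nat_lit 0))) (.col (nat_lit 1))) (.slot (nat_lit 0)) (.col (nat_lit 4))) (.col (nat_lit 1)) (.col (nat_lit 0)) (.node (.slot (nat_lit 0)) (.col (nat_lit 4)) (.node (.col (nat_lit 1)) (.slot (nat_lit 0)) (.slot (nat_lit 0))))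
def w14368 : Root := .mk (.node (.node (.col (nat_lit 3)) (.slot (nat_lit 0)) (.col (nat_lit 1))) (.node (.col (nat_lit 2)) (.slot (nat_lit 0)) (.slot (nat_lit 0))) (.col (nat_lit 4))) (.col (nat_lit 1)) (.col (nat_lit 0)) (.node (.slot (nat_lit 0)) (.col (nat_lit 4)) (.node (.col (nat_lit 2)) (.slot (nat_lit 0)) (.slot (nat_lit 0))))
def w14369 : Root := .mk (.node (.node (.col (nat_lit 3)) (.node (.col (nat_lit 1)) (.slot (nat_lit 0)) (.slot (nat_lit 0))) (.col (nat_lit 1))) (.slot (nat_lit 0)) (.col (nat_lit 4))) (.col (nat_lit 1)) (.col (nat_lit 0)) (.node (.slot (nat_lit 0)) (.col (nat_lit 4)) (.node (.col (nat_lit 3)) (.slot (nat_lit 0)) (.slot (nat_lit 0))))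
def w14370 : Root := .mk (.node (.node (.col (nat_lit 3)) (.node (.col (nat_lit 1)) (.slot (nat_lit 0)) (.slot (nat_lit 0))) (.col (nat_lit 1))) (.slot (nat_lit 0)) (.col (nat_lit 4))) (.col (nat_lit 1)) (.col (nat_lit 0)) (.node (.slot (nat_lit 0)) (.col (nat_lit 4)) (.node (.col (nat_lit 4)) (.slot (nat_lit 0)) (.slot (nat_lit 0))))
def l3199 : Root := .mk (.node (.node (.col (nat_lit 3)) (.node (.col (nat_lit 1)) (.slot (nat_lit 0)) (.slot (nat_lit 0))) (.col (nat_lit 1))) (.node (.col (nat_lit 2)) (.slot (nat_lit 1)) (.slot (nat_lit 0))) (.col (nat_lit 4))) (.col (nat_lit 1)) (.col (nat_lit 0)) (.node (.slot (nat_lit 0)) (.col (nat_lit 4)) (.slot (nat_lit 1)))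
def w14371 : Root := .mk (.node (.node (.node (.col (nat_lit 3)) (.node (.col (nat_lit 1)) (.slot (nat_lit 0)) (.slot (nat_lit 0))) (.col (nat_lit 1))) (.node (.col (nat_lit 2)) (.slot (nat_lit 1)) (.slot (nat_lit 0))) (.col (nat_lit 4))) (.col (nat_lit 0)) (.node (.slot (nat_lit 0)) (.col (nat_lit 4)) (.slot (nat_lit 1)))) (.col (nat_lit 0)) (.col (nat_lit 4)) (.slot (nat_lit 0))
def w14372 : Root := .mk (.col (nat_lit 3)) (.node (.node (.node (.col (nat_lit 0)) (.col (nat_lit 4)) (.slot (nat_lit 0))) (.col (nat_lit 0)) (.node .junk (.col (nat_lit 4)) (.col (nat_lit 2)))) (.slot (nat_lit 0)) (.col (nat_lit 4))) (.node (.col (nat_lit 1)) (.slot (nat_lit 0)) (.slot (nat_lit 0))) (.col (nat_lit 1))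
def w14374 : Root := .mk (.node (.col (nat_lit 3)) .junk (.col (nat_lit 1))) (.node (.node (.col (nat_lit 0)) (.col (nat_lit 4)) (.slot (nat_lit 3))) (.col (nat_lit 0)) (.node (.slot (nat_lit 0)) (.col (nat_lit 4)) (.col (nat_lit 0)))) (.node (.col (nat_lit 2)) (.slot (nat_lit 0)) (.slot (nat_lit 0))) (.col (nat_lit 4))
def l3205 : Root := .mk (.col (nat_lit 3)) (.node (.node (.col (nat_lit 3)) (.col (nat_lit 0)) (.node (.slot (nat_lit 0)) (.col (nat_lit 4)) (.slot (nat_lit 1)))) (.col (nat_lit 4)) (.slot (nat_lit 2))) (.node (.col (nat_lit 1)) (.slot (nat_lit 0)) (.slot (nat_lit 0))) (.col (nat_lit 1))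
def w14389 : Root := .mk (.node (.node (.col (nat_lit 3)) (.node (.col (nat_lit 1)) (.slot (nat_lit 0)) (.slot (nat_lit 0))) (.col (nat_lit 1))) (.node (.col (nat_lit 2)) (.slot (nat_lit 0)) (.slot (nat_lit 0))) (.slot (nat_lit 2))) (.col (nat_lit 3)) (.col (nat_lit 0)) (.node (.slot (nat_lit 0)) (.col (nat_lit 4)) (.slot (nat_lit 1)))
def w14398 : Root := .mk (.node (.node (.col (nat_lit 3)) (.node (.col (nat_lit 0)) (.slot (nat_lit 1)) (.slot (nat_lit 1))) (.slot (nat_lit 2))) (.col (nat_lit 3)) (.slot (nat_lit 2))) (.node (.col (nat_lit 0)) (.slot (nat_lit 0)) (.slot (nat_lit 0))) (.col (nat_lit 0)) (.node (.slot (nat_lit 0)) (.slot (nat_lit 1)) (.slot (nat_lit 0)))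
def w14399 : Root := .mk (.node (.node (.col (nat_lit 1)) (.node (.col (nat_lit 2)) (.slot (nat_lit 0)) (.slot (nat_lit 0))) (.col (nat_lit 2))) (.col (nat_lit 0)) (.node (.slot (nat_lit 0)) (.slot (nat_lit 0)) (.slot (nat_lit 0)))) (.col (nat_lit 0)) (.node (.col (nat_lit 4)) (.col (nat_lit 0)) (.node (.col (nat_lit 1)) (.slot (nat_lit 1)) .junk)) (.col (nat_lit 4))
def l3207 : Root := .mk (.node (.node (.node (.col (nat_lit 1)) (.node (.col (nat_lit 2)) (.slot (nat_lit 0)) (.slot (nat_lit 0))) (.col (nat_lit 2))) (.col (nat_lit 0)) (.node (.slot (nat_lit 0)) (.slot (nat_lit 0)) (.slot (nat_lit 0)))) (.col (nat_lit 0)) (.slot (nat_lit 2))) (.col (nat_lit 4)) (.col (nat_lit 0)) (.node (.col (nat_lit 1)) (.slot (nat_lit 7)) (.slot (nat_lit 5)))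
def w14400 : Root := .mk (.col (nat_lit 1)) (.node (.node (.col (nat_lit 0)) (.node (.col (nat_lit 4)) (.col (nat_lit 0)) (.slot (nat_lit 8))) (.slot (nat_lit 2))) (.col (nat_lit 0)) (.node (.slot (nat_lit 0)) (.slot (nat_lit 0)) (.slot (nat_lit 0)))) (.node (.col (nat_lit 2)) (.slot (nat_lit 0)) (.slot (nat_lit 0))) (.col (nat_lit 2))
def w14408 : Root := .mk (.node (.node (.col (nat_lit 3)) (.node (.col (nat_lit 0)) (.slot (nat_lit 1)) (.slot (nat_lit 1))) (.slot (nat_lit 2))) (.node (.slot (nat_lit 0)) (.col (nat_lit 0)) (.slot (nat_lit 0))) (.slot (nat_lit 1))) (.col (nat_lit 2)) (.col (nat_lit 0)) (.slot (nat_lit 3))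
def w14410 : Root := .mk (.node (.node (.col (nat_lit 3)) (.node (.col (nat_lit 0)) (.slot (nat_lit 1)) (.slot (nat_lit 1))) (.slot (nat_lit 2))) (.node (.slot (nat_lit 0)) (.col (nat_lit 0)) (.node (.slot (nat_lit 0)) (.slot (nat_lit 0)) (.slot (nat_lit 0)))) (.slot (nat_lit 1))) (.col (nat_lit 2)) (.node (.col (nat_lit 0)) (.slot (nat_lit 0)) (.slot (nat_lit 0))) (.col (nat_lit 0))
def w14414 : Root := .mk (.node (.col (nat_lit 3)) (.node (.col (nat_lit 0)) (.slot (nat_lit 1)) (.slot (nat_lit 1))) (.slot (nat_lit 2))) (.node (.slot (nat_lit 0)) (.col (nat_lit 0)) (.slot (nat_lit 0))) (.node (.col (nat_lit 2)) (.node (.col (nat_lit 0)) (.slot (nat_lit 3)) (.slot (nat_lit 1))) (.slot (nat_lit 2))) (.col (nat_lit 2))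
def l3208 : Root := .mk (.node (.node (.node (.col (nat_lit 3)) (.node (.col (nat_lit 0)) (.slot (nat_lit 7)) (.slot (nat_lit 5))) (.slot (nat_lit 8))) (.node (.slot (nat_lit 0)) (.col (nat_lit 0)) (.slot (nat_lit 0))) (.col (nat_lit 0))) (.col (nat_lit 2)) (.col (nat_lit 3))) (.col (nat_lit 0)) (.col (nat_lit 2)) (.col (nat_lit 3))
def w14415 : Root := .mk (.node (.node (.node (.col (nat_lit 3)) (.node (.col (nat_lit 0)) (.slot (nat_lit 7)) (.slot (nat_lit 5))) (.slot (nat_lit 8))) (.node (.slot (nat_lit 0)) (.col (nat_lit 0)) (.slot (nat_lit 0))) (.slot (nat_lit 1))) (.col (nat_lit 2)) (.col (nat_lit 3))) (.col (nat_lit 0)) (.col (nat_lit 2)) (.col (nat_lit 3))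
def w14439 : Root := .mk (.node (.col (nat_lit 4)) (.node (.col (nat_lit 2)) (.slot (nat_lit 0)) (.slot (nat_lit 0))) (.node (.col (nat_lit 3)) (.slot (nat_lit 0)) (.slot (nat_lit 0)))) (.node (.col (nat_lit 0)) (.node (.col (nat_lit 4)) (.col (nat_lit 0)) (.slot (nat_lit 0))) (.col (nat_lit 4))) (.col (nat_lit 0)) (.col (nat_lit 1))
def l3214 : Root := .mk (.node (.col (nat_lit 4)) (.node (.col (nat_lit 2)) (.slot (nat_lit 3)) (.slot (nat_lit 3))) (.slot (nat_lit 3))) (.node (.col (nat_lit 0)) (.node (.col (nat_lit 4)) (.col (nat_lit 0)) (.slot (nat_lit 0))) (.col (nat_lit 4))) (.col (nat_lit 0)) (.col (nat_lit 1))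
def w14440 : Root := .mk (.node (.node (.col (nat_lit 4)) (.node (.col (nat_lit 2)) (.slot (nat_lit 3)) (.slot (nat_lit 3))) (.slot (nat_lit 3))) (.col (nat_lit 0)) (.node (.slot (nat_lit 0)) (.slot (nat_lit 0)) (.slot (nat_lit 0)))) (.col (nat_lit 0)) (.node (.col (nat_lit 4)) (.col (nat_lit 0)) (.slot (nat_lit 0))) (.col (nat_lit 4))
def w14442 : Root := .mk (.node (.col (nat_lit 1)) (.node (.col (nat_lit 2)) (.slot (nat_lit 1)) (.slot (nat_lit 0))) (.slot (nat_lit 1))) (.node (.col (nat_lit 0)) (.node (.col (nat_lit 4)) (.col (nat_lit 0)) (.slot (nat_lit 1))) (.node (.col (nat_lit 1)) (.slot (nat_lit 1)) (.slot (nat_lit 1)))) (.col (nat_lit 0)) (.node (.slot (nat_lit 0)) (.slot (nat_lit 0)) (.slot (nat_lit 0)))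
def w14461 : Root := .mk (.node (.node (.node (.col (nat_lit 1)) (.slot (nat_lit 0)) (.slot (nat_lit 1))) (.col (nat_lit 0)) (.node (.slot (nat_lit 0)) (.col (nat_lit 0)) (.col (nat_lit 1)))) (.col (nat_lit 0)) (.node (.col (nat_lit 4)) (.slot (nat_lit 3)) (.slot (nat_lit 3)))) (.col (nat_lit 4)) (.col (nat_lit 0)) (.node (.col (nat_lit 4)) (.slot (nat_lit 1)) (.slot (nat_lit 1)))
def w14462 : Root := .mk (.node (.node (.col (nat_lit 1)) (.slot (nat_lit 0)) (.slot (nat_lit 1))) (.col (nat_lit 0)) (.node (.slot (nat_lit 0)) (.col (nat_lit 0)) (.col (nat_lit 1)))) (.col (nat_lit 0)) (.node (.col (nat_lit 4)) (.col (nat_lit 0)) (.slot (nat_lit 4))) (.node (.col (nat_lit 4)) (.node (.col (nat_lit 4)) (.slot (nat_lit 0)) (.slot (nat_lit 0))) (.slot (nat_lit 3)))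
def w14463 : Root := .mk (.node (.node (.col (nat_lit 1)) (.slot (nat_lit 0)) (.slot (nat_lit 1))) (.col (nat_lit 0)) (.node (.slot (nat_lit 0)) (.col (nat_lit 0)) (.col (nat_lit 1)))) (.col (nat_lit 0)) (.node (.col (nat_lit 4)) (.col (nat_lit 0)) (.slot (nat_lit 4))) (.node (.col (nat_lit 4)) (.node (.slot (nat_lit 0)) (.slot (nat_lit 0)) (.slot (nat_lit 0))) (.slot (nat_lit 3)))
def l3221 : Root := .mk (.node (.node (.col (nat_lit 4)) (.col (nat_lit 0)) (.node (.slot (nat_lit 0)) (.col (nat_lit 0)) (.slot (nat_lit 0)))) (.col (nat_lit 0)) (.node (.col (nat_lit 4)) (.slot (nat_lit 4)) (.slot (nat_lit 4)))) (.col (nat_lit 4)) (.col (nat_lit 0)) (.node (.col (nat_lit 4)) (.col (nat_lit 1)) (.slot (nat_lit 1)))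
def w14484 : Root := .mk (.node (.node (.col (nat_lit 4)) (.col (nat_lit 0)) (.node (.slot (nat_lit 0)) (.col (nat_lit 0)) (.slot (nat_lit 0)))) (.col (nat_lit 0)) (.node (.col (nat_lit 4)) (.slot (nat_lit 4)) (.slot (nat_lit 4)))) (.col (nat_lit 4)) (.col (nat_lit 0)) (.node (.col (nat_lit 4)) (.slot (nat_lit 1)) (.slot (nat_lit 1)))
def l3222 : Root := .mk (.col (nat_lit 1)) (.col (nat_lit 0)) (.node (.col (nat_lit 4)) (.col (nat_lit 0)) (.slot (nat_lit 1))) (.node (.col (nat_lit 4)) (.node (.slot (nat_lit 0)) (.col (nat_lit 1)) (.col (nat_lit 4))) (.col (nat_lit 2)))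
def l3225 : Root := .mk (.col (nat_lit 1)) (.col (nat_lit 0)) (.node (.col (nat_lit 4)) (.col (nat_lit 0)) (.slot (nat_lit 1))) (.node (.col (nat_lit 4)) (.node (.slot (nat_lit 0)) (.col (nat_lit 1)) (.slot (nat_lit 0))) (.col (nat_lit 2)))
def l3226 : Root := .mk (.col (nat_lit 1)) (.col (nat_lit 0)) (.node (.col (nat_lit 4)) (.col (nat_lit 0)) (.slot (nat_lit 5))) (.node (.col (nat_lit 4)) (.node (.slot (nat_lit 0)) (.col (nat_lit 1)) (.slot (nat_lit 0))) (.node (.col (nat_lit 1)) (.col (nat_lit 4)) (.slot (nat_lit 1))))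
def l3227 : Root := .mk (.col (nat_lit 1)) (.col (nat_lit 0)) (.node (.col (nat_lit 4)) (.col (nat_lit 0)) (.slot (nat_lit 5))) (.node (.col (nat_lit 4)) (.node (.slot (nat_lit 0)) (.col (nat_lit 1)) (.slot (nat_lit 0))) (.node (.col (nat_lit 1)) (.slot (nat_lit 0)) (.slot (nat_lit 1))))
def w14500 : Root := .mk (.node (.col (nat_lit 1)) (.col (nat_lit 0)) (.node (.col (nat_lit 4)) (.node (.slot (nat_lit 0)) (.col (nat_lit 1)) (.node (.col (nat_lit 1)) (.slot (nat_lit 0)) (.slot (nat_lit 0)))) (.slot (nat_lit 1)))) (.col (nat_lit 4)) (.col (nat_lit 0)) (.col (nat_lit 1))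
def l3230 : Root := .mk (.col (nat_lit 1)) (.col (nat_lit 0)) (.node (.col (nat_lit 4)) (.col (nat_lit 0)) (.slot (nat_lit 5))) (.node (.col (nat_lit 4)) (.node (.slot (nat_lit 0)) (.col (nat_lit 1)) (.node (.col (nat_lit 1)) (.slot (nat_lit 0)) (.slot (nat_lit 0)))) (.slot (nat_lit 1)))
def w14502 : Root := .mk (.node (.node (.col (nat_lit 4)) .junk (.col (nat_lit 1))) (.col (nat_lit 0)) (.node (.col (nat_lit 4)) (.col (nat_lit 0)) (.slot (nat_lit 0)))) (.col (nat_lit 4)) (.node (.slot (nat_lit 0)) (.col (nat_lit 1)) (.slot (nat_lit 1))) (.node (.col (nat_lit 1)) (.slot (nat_lit 1)) (.slot (nat_lit 1)))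
def w14503 : Root := .mk (.col (nat_lit 4)) (.node (.col (nat_lit 0)) (.node (.col (nat_lit 4)) (.col (nat_lit 0)) (.slot (nat_lit 5))) (.node (.col (nat_lit 4)) (.node (.slot (nat_lit 0)) (.col (nat_lit 1)) (.slot (nat_lit 0))) (.node (.col (nat_lit 2)) (.slot (nat_lit 1)) (.slot (nat_lit 1))))) (.col (nat_lit 0)) (.col (nat_lit 1))
def w14504 : Root := .mk (.col (nat_lit 4)) (.node (.col (nat_lit 0)) (.node (.col (nat_lit 4)) (.col (nat_lit 0)) (.slot (nat_lit 5))) (.node (.col (nat_lit 4)) (.node (.slot (nat_lit 0)) (.col (nat_lit 1)) (.col (nat_lit 2))) (.node (.col (nat_lit 2)) (.slot (nat_lit 1)) (.slot (nat_lit 0))))) (.col (nat_lit 0)) (.col (nat_lit 1))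
def w14505 : Root := .mk (.col (nat_lit 4)) (.node (.col (nat_lit 0)) (.node (.col (nat_lit 4)) (.col (nat_lit 0)) (.slot (nat_lit 5))) (.node (.col (nat_lit 4)) (.node (.slot (nat_lit 0)) (.col (nat_lit 1)) (.col (nat_lit 4))) (.node (.col (nat_lit 2)) (.slot (nat_lit 1)) (.slot (nat_lit 0))))) (.col (nat_lit 0)) (.col (nat_lit 1))
def l3231 : Root := .mk (.col (nat_lit 2)) (.col (nat_lit 0)) (.node (.col (nat_lit 4)) (.col (nat_lit 0)) (.slot (nat_lit 5))) (.node (.col (nat_lit 4)) (.node (.slot (nat_lit 0)) (.col (nat_lit 1)) (.slot (nat_lit 0))) (.node (.col (nat_lit 2)) (.col (nat_lit 4)) (.slot (nat_lit 1))))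
def w14506 : Root := .mk (.col (nat_lit 4)) (.node (.col (nat_lit 0)) (.node (.col (nat_lit 4)) (.col (nat_lit 0)) (.slot (nat_lit 5))) (.node (.col (nat_lit 4)) (.node (.slot (nat_lit 0)) (.col (nat_lit 1)) (.slot (nat_lit 0))) (.node (.col (nat_lit 2)) (.col (nat_lit 4)) (.slot (nat_lit 1))))) (.col (nat_lit 0)) (.col (nat_lit 1))
def w14507 : Root := .mk (.node (.node (.col (nat_lit 4)) .junk (.col (nat_lit 1))) (.col (nat_lit 0)) (.node (.col (nat_lit 4)) (.col (nat_lit 0)) (.slot (nat_lit 0)))) (.col (nat_lit 4)) (.node (.slot (nat_lit 0)) (.col (nat_lit 1)) (.slot (nat_lit 1))) (.node (.col (nat_lit 2)) (.node (.col (nat_lit 0)) (.slot (nat_lit 0)) (.slot (nat_lit 0))) (.slot (nat_lit 1)))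
def w14508 : Root := .mk (.node (.node (.col (nat_lit 4)) .junk (.col (nat_lit 1))) (.col (nat_lit 0)) (.node (.col (nat_lit 4)) (.col (nat_lit 0)) (.slot (nat_lit 0)))) (.col (nat_lit 4)) (.node (.slot (nat_lit 0)) (.col (nat_lit 1)) (.slot (nat_lit 1))) (.node (.col (nat_lit 2)) (.node (.col (nat_lit 2)) (.slot (nat_lit 0)) (.slot (nat_lit 0))) (.slot (nat_lit 1)))
def w14509 : Root := .mk (.node (.node (.col (nat_lit 4)) .junk (.col (nat_lit 1))) (.col (nat_lit 0)) (.node (.col (nat_lit 4)) (.node .junk (.col (nat_lit 1)) (.col (nat_lit 0))) (.node (.col (nat_lit 2)) (.slot (nat_lit 0)) (.slot (nat_lit 0))))) (.col (nat_lit 4)) (.col (nat_lit 0)) (.col (nat_lit 2))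
def w14510 : Root := .mk (.node (.node (.col (nat_lit 4)) .junk (.col (nat_lit 1))) (.col (nat_lit 0)) (.node (.col (nat_lit 4)) (.col (nat_lit 0)) (.node (.col (nat_lit 2)) (.col (nat_lit 0)) (.slot (nat_lit 1))))) (.col (nat_lit 4)) (.col (nat_lit 0)) (.col (nat_lit 2))
def l3232 : Root := .mk (.col (nat_lit 4)) (.node (.col (nat_lit 0)) (.node (.col (nat_lit 4)) (.col (nat_lit 0)) (.col (nat_lit 2))) (.node (.col (nat_lit 4)) (.node (.slot (nat_lit 0)) (.col (nat_lit 1)) (.slot (nat_lit 1))) (.node (.col (nat_lit 2)) (.col (nat_lit 0)) (.slot (nat_lit 1))))) (.col (nat_lit 0)) (.col (nat_lit 1))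
def w14511 : Root := .mk (.node (.node (.col (nat_lit 4)) (.col (nat_lit 0)) (.col (nat_lit 1))) (.col (nat_lit 0)) (.node (.col (nat_lit 4)) (.node (.slot (nat_lit 0)) (.col (nat_lit 1)) (.slot (nat_lit 1))) (.node (.col (nat_lit 2)) (.slot (nat_lit 1)) (.slot (nat_lit 1))))) (.col (nat_lit 4)) (.col (nat_lit 0)) (.col (nat_lit 2))
def w14512 : Root := .mk (.col (nat_lit 4)) (.node (.col (nat_lit 0)) (.node (.col (nat_lit 4)) .junk (.col (nat_lit 3))) (.node (.col (nat_lit 4)) (.node (.slot (nat_lit 0)) (.col (nat_lit 1)) (.slot (nat_lit 1))) (.node (.col (nat_lit 2)) (.slot (nat_lit 1)) (.slot (nat_lit 1))))) (.col (nat_lit 0)) (.col (nat_lit 1))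
def w14513 : Root := .mk (.node (.node (.col (nat_lit 4)) .junk (.col (nat_lit 1))) (.col (nat_lit 0)) (.node (.col (nat_lit 4)) (.node (.slot (nat_lit 0)) (.col (nat_lit 1)) (.slot (nat_lit 1))) (.node (.col (nat_lit 2)) (.slot (nat_lit 1)) (.slot (nat_lit 1))))) (.col (nat_lit 4)) (.col (nat_lit 0)) (.slot (nat_lit 0))
def l3233 : Root := .mk (.col (nat_lit 4)) (.node (.col (nat_lit 0)) (.node (.col (nat_lit 4)) (.col (nat_lit 0)) (.slot (nat_lit 5))) (.node (.col (nat_lit 4)) (.node (.slot (nat_lit 0)) (.col (nat_lit 1)) (.slot (nat_lit 1))) (.node (.col (nat_lit 2)) (.slot (nat_lit 4)) (.slot (nat_lit 4))))) (.col (nat_lit 0)) (.col (nat_lit 1))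
def w14514 : Root := .mk (.col (nat_lit 4)) (.node (.col (nat_lit 0)) (.node (.col (nat_lit 4)) (.col (nat_lit 0)) (.slot (nat_lit 5))) (.node (.col (nat_lit 4)) (.node (.slot (nat_lit 0)) (.col (nat_lit 1)) (.slot (nat_lit 1))) (.slot (nat_lit 5)))) (.col (nat_lit 0)) (.col (nat_lit 1))
def w14516 : Root := .mk (.node (.col (nat_lit 4)) (.col (nat_lit 0)) (.node (.slot (nat_lit 0)) (.col (nat_lit 0)) (.col (nat_lit 2)))) (.col (nat_lit 0)) (.col (nat_lit 2)) (.node (.col (nat_lit 4)) (.node (.slot (nat_lit 0)) (.col (nat_lit 1)) (.slot (nat_lit 0))) (.slot (nat_lit 1)))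
def l3234 : Root := .mk (.node (.node (.col (nat_lit 4)) (.col (nat_lit 0)) (.node (.slot (nat_lit 0)) (.col (nat_lit 0)) (.slot (nat_lit 0)))) (.col (nat_lit 0)) (.node (.col (nat_lit 4)) (.node (.slot (nat_lit 0)) (.slot (nat_lit 0)) (.slot (nat_lit 0))) (.slot (nat_lit 3)))) (.col (nat_lit 4)) (.col (nat_lit 0)) (.node (.col (nat_lit 1)) (.slot (nat_lit 2)) (.slot (nat_lit 2)))
def w14518 : Root := .mk (.col (nat_lit 4)) (.node (.col (nat_lit 0)) (.node (.col (nat_lit 4)) (.col (nat_lit 0)) (.slot (nat_lit 3))) (.node (.col (nat_lit 4)) (.node (.slot (nat_lit 0)) (.slot (nat_lit 0)) (.slot (nat_lit 0))) (.slot (nat_lit 3)))) (.col (nat_lit 0)) (.node (.slot (nat_lit 0)) (.col (nat_lit 0)) (.slot (nat_lit 0)))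
def l3235 : Root := .mk (.col (nat_lit 4)) (.node (.col (nat_lit 0)) (.node (.col (nat_lit 4)) (.col (nat_lit 0)) (.slot (nat_lit 4))) (.node (.col (nat_lit 4)) (.slot (nat_lit 9)) (.slot (nat_lit 9)))) (.col (nat_lit 0)) (.node (.slot (nat_lit 0)) (.col (nat_lit 0)) (.slot (nat_lit 0)))
def w14519 : Root := .mk (.col (nat_lit 4)) (.node (.col (nat_lit 0)) (.node (.col (nat_lit 4)) (.col (nat_lit 0)) (.slot (nat_lit 4))) (.slot (nat_lit 10))) (.col (nat_lit 0)) (.node (.slot (nat_lit 0)) (.col (nat_lit 0)) (.slot (nat_lit 0)))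
def w14535 : Root := .mk (.node (.col (nat_lit 1)) (.node (.col (nat_lit 2)) (.slot (nat_lit 1)) (.slot (nat_lit 1))) (.slot (nat_lit 2))) (.node (.col (nat_lit 0)) (.node (.col (nat_lit 4)) .junk (.col (nat_lit 2))) (.slot (nat_lit 1))) (.col (nat_lit 0)) (.node (.slot (nat_lit 0)) (.slot (nat_lit 0)) (.slot (nat_lit 0)))
def l3238 : Root := .mk (.node (.node (.col (nat_lit 2)) (.col (nat_lit 3)) (.slot (nat_lit 2))) (.col (nat_lit 0)) (.node (.slot (nat_lit 0)) (.slot (nat_lit 1)) (.slot (nat_lit 0)))) (.col (nat_lit 0)) (.node (.col (nat_lit 4)) (.col (nat_lit 0)) (.node (.slot (nat_lit 0)) (.col (nat_lit 3)) (.slot (nat_lit 1)))) (.col (nat_lit 3))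
def w14572 : Root := .mk (.node (.node (.col (nat_lit 3)) (.node (.col (nat_lit 0)) (.slot (nat_lit 1)) (.slot (nat_lit 1))) (.slot (nat_lit 2))) (.node (.node (.col (nat_lit 0)) (.slot (nat_lit 0)) (.slot (nat_lit 0))) (.col (nat_lit 0)) (.node (.slot (nat_lit 0)) (.slot (nat_lit 1)) (.slot (nat_lit 0)))) (.slot (nat_lit 2))) (.col (nat_lit 2)) (.col (nat_lit 1)) (.node (.slot (nat_lit 0)) (.slot (nat_lit 0)) (.slot (nat_lit 0)))
def l3240 : Root := .mk (.col (nat_lit 3)) (.node (.node (.node (.col (nat_lit 0)) (.slot (nat_lit 0)) (.slot (nat_lit 0))) (.col (nat_lit 0)) (.node (.slot (nat_lit 0)) (.slot (nat_lit 0)) (.slot (nat_lit 0)))) (.node (.col (nat_lit 2)) (.col (nat_lit 1)) (.slot (nat_lit 3))) (.slot (nat_lit 8))) (.col (nat_lit 1)) (.node (.col (nat_lit 4)) (.slot (nat_lit 7)) (.slot (nat_lit 5)))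
def w14575 : Root := .mk (.col (nat_lit 3)) (.node (.node (.node (.col (nat_lit 0)) (.slot (nat_lit 0)) (.slot (nat_lit 0))) (.col (nat_lit 0)) (.node (.slot (nat_lit 0)) (.slot (nat_lit 0)) (.slot (nat_lit 0)))) (.node (.col (nat_lit 2)) (.col (nat_lit 1)) (.slot (nat_lit 3))) (.slot (nat_lit 8))) (.col (nat_lit 1)) (.slot (nat_lit 8))
def l3244 : Root := .mk (.node (.col (nat_lit 1)) (.node (.col (nat_lit 2)) (.slot (nat_lit 3)) (.slot (nat_lit 3))) (.slot (nat_lit 8))) (.col (nat_lit 4)) (.col (nat_lit 0)) (.node (.slot (nat_lit 0)) (.col (nat_lit 1)) (.node (.col (nat_lit 0)) (.slot (nat_lit 0)) (.slot (nat_lit 0))))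
def w14618 : Root := .mk (.node (.col (nat_lit 1)) (.node (.col (nat_lit 2)) (.slot (nat_lit 3)) (.slot (nat_lit 3))) (.slot (nat_lit 8))) (.node (.col (nat_lit 0)) (.slot (nat_lit 0)) (.slot (nat_lit 0))) (.col (nat_lit 0)) (.node (.slot (nat_lit 0)) (.col (nat_lit 1)) (.node (.col (nat_lit 0)) (.slot (nat_lit 0)) (.slot (nat_lit 0))))
def w14620 : Root := .mk (.node (.col (nat_lit 1)) (.node (.col (nat_lit 2)) (.slot (nat_lit 3)) (.slot (nat_lit 3))) (.slot (nat_lit 2))) (.node (.col (nat_lit 0)) (.slot (nat_lit 0)) (.slot (nat_lit 0))) (.col (nat_lit 0)) (.node (.slot (nat_lit 0)) (.col (nat_lit 1)) (.node (.col (nat_lit 1)) (.slot (nat_lit 0)) (.slot (nat_lit 0))))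
def w14623 : Root := .mk (.node (.col (nat_lit 1)) (.node (.col (nat_lit 2)) (.slot (nat_lit 3)) (.slot (nat_lit 3))) (.slot (nat_lit 8))) (.node (.col (nat_lit 0)) (.slot (nat_lit 0)) (.slot (nat_lit 0))) (.col (nat_lit 0)) (.node (.slot (nat_lit 0)) (.col (nat_lit 1)) (.node (.col (nat_lit 3)) (.slot (nat_lit 0)) (.slot (nat_lit 0))))
def w14626 : Root := .mk (.node (.node (.col (nat_lit 2)) (.col (nat_lit 0)) (.node .junk (.col (nat_lit 1)) (.slot (nat_lit 1)))) (.col (nat_lit 0)) (.slot (nat_lit 2))) (.col (nat_lit 4)) (.col (nat_lit 0)) (.node (.slot (nat_lit 0)) (.col (nat_lit 3)) (.slot (nat_lit 1)))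
def w14630 : Root := .mk (.node (.node (.col (nat_lit 2)) (.col (nat_lit 0)) (.node .junk (.col (nat_lit 1)) (.slot (nat_lit 1)))) (.col (nat_lit 0)) (.slot (nat_lit 3))) (.col (nat_lit 4)) (.col (nat_lit 0)) (.node (.slot (nat_lit 0)) (.col (nat_lit 3)) (.node (.col (nat_lit 2)) (.slot (nat_lit 0)) (.slot (nat_lit 0))))
def w14681 : Root := .mk (.node (.node (.col (nat_lit 0)) (.node (.col (nat_lit 2)) (.slot (nat_lit 1)) (.slot (nat_lit 1))) (.slot (nat_lit 2))) (.col (nat_lit 0)) (.node (.slot (nat_lit 0)) (.slot (nat_lit 1)) (.slot (nat_lit 1)))) (.col (nat_lit 0)) (.col (nat_lit 2)) (.node (.node (.col (nat_lit 3)) (.slot (nat_lit 0)) (.slot (nat_lit 0))) (.slot (nat_lit 7)) (.slot (nat_lit 5)))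
def l3251 : Root := .mk (.node (.node (.node (.col (nat_lit 3)) (.slot (nat_lit 0)) (.slot (nat_lit 0))) (.col (nat_lit 3)) (.slot (nat_lit 3))) (.col (nat_lit 0)) (.node (.slot (nat_lit 0)) (.col (nat_lit 3)) (.slot (nat_lit 1)))) (.col (nat_lit 0)) (.col (nat_lit 3)) (.node (.col (nat_lit 1)) (.slot (nat_lit 2)) (.slot (nat_lit 2)))
def w14710 : Root := .mk (.node (.node (.col (nat_lit 3)) (.slot (nat_lit 0)) (.slot (nat_lit 0))) (.col (nat_lit 3)) (.slot (nat_lit 3))) (.node (.col (nat_lit 0)) (.col (nat_lit 3)) (.slot (nat_lit 3))) (.col (nat_lit 0)) (.node (.slot (nat_lit 0)) (.col (nat_lit 3)) (.slot (nat_lit 1)))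
def w14713 : Root := .mk (.col (nat_lit 3)) (.node (.node (.node (.col (nat_lit 0)) (.col (nat_lit 3)) (.slot (nat_lit 5))) (.col (nat_lit 0)) (.node (.slot (nat_lit 0)) (.col (nat_lit 3)) (.col (nat_lit 0)))) (.col (nat_lit 3)) (.slot (nat_lit 1))) (.col (nat_lit 1)) (.node (.col (nat_lit 1)) (.slot (nat_lit 0)) (.slot (nat_lit 0)))
def w14717 : Root := .mk (.node (.node (.col (nat_lit 3)) (.node (.col (nat_lit 1)) (.slot (nat_lit 1)) (.slot (nat_lit 1))) (.slot (nat_lit 2))) (.col (nat_lit 3)) (.slot (nat_lit 1))) (.node (.col (nat_lit 0)) (.col (nat_lit 3)) (.slot (nat_lit 1))) (.col (nat_lit 0)) (.node (.slot (nat_lit 0)) (.col (nat_lit 3)) (.col (nat_lit 0)))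
def w14718 : Root := .mk (.col (nat_lit 3)) (.node (.node (.node (.col (nat_lit 0)) (.col (nat_lit 3)) (.slot (nat_lit 1))) (.col (nat_lit 0)) (.node (.slot (nat_lit 0)) (.col (nat_lit 3)) (.col (nat_lit 0)))) (.col (nat_lit 3)) (.slot (nat_lit 1))) (.node (.col (nat_lit 1)) (.slot (nat_lit 1)) (.slot (nat_lit 1))) (.node (.col (nat_lit 0)) (.slot (nat_lit 1)) (.slot (nat_lit 0)))
def w14719 : Root := .mk (.col (nat_lit 3)) (.node (.node (.node (.col (nat_lit 0)) (.col (nat_lit 3)) (.slot (nat_lit 1))) (.col (nat_lit 0)) (.node (.slot (nat_lit 0)) (.col (nat_lit 3)) (.col (nat_lit 0)))) (.col (nat_lit 3)) (.slot (nat_lit 1))) (.node (.col (nat_lit 1)) (.slot (nat_lit 1)) (.slot (nat_lit 1))) (.node (.col (nat_lit 2)) (.slot (nat_lit 1)) (.slot (nat_lit 0)))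
def w14720 : Root := .mk (.col (nat_lit 3)) (.node (.node (.node (.col (nat_lit 0)) (.col (nat_lit 3)) (.slot (nat_lit 5))) (.col (nat_lit 0)) (.node (.slot (nat_lit 0)) (.col (nat_lit 3)) (.col (nat_lit 0)))) (.col (nat_lit 3)) (.slot (nat_lit 2))) (.node (.col (nat_lit 1)) (.slot (nat_lit 1)) (.slot (nat_lit 1))) (.node (.col (nat_lit 3)) (.slot (nat_lit 0)) (.slot (nat_lit 0)))
def w14721 : Root := .mk (.col (nat_lit 3)) (.node (.node (.node (.col (nat_lit 0)) (.col (nat_lit 3)) (.slot (nat_lit 5))) (.col (nat_lit 0)) (.node (.slot (nat_lit 0)) (.col (nat_lit 3)) (.col (nat_lit 0)))) (.col (nat_lit 3)) (.slot (nat_lit 2))) (.node (.col (nat_lit 1)) (.slot (nat_lit 1)) (.slot (nat_lit 1))) (.node (.slot (nat_lit 0)) (.slot (nat_lit 0)) (.slot (nat_lit 0)))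
def w14722 : Root := .mk (.node (.node (.col (nat_lit 3)) (.node (.col (nat_lit 1)) .junk (.col (nat_lit 2))) (.slot (nat_lit 1))) (.col (nat_lit 3)) (.slot (nat_lit 1))) (.node (.col (nat_lit 0)) (.col (nat_lit 3)) (.slot (nat_lit 1))) (.col (nat_lit 0)) (.node (.slot (nat_lit 0)) (.col (nat_lit 3)) (.col (nat_lit 0)))
def w14723 : Root := .mk (.col (nat_lit 3)) (.node (.node (.node (.col (nat_lit 0)) (.col (nat_lit 3)) (.slot (nat_lit 3))) (.col (nat_lit 0)) (.node (.slot (nat_lit 0)) (.col (nat_lit 3)) (.col (nat_lit 0)))) (.col (nat_lit 3)) (.slot (nat_lit 1))) (.node (.col (nat_lit 1)) (.col (nat_lit 3)) (.node (.col (nat_lit 0)) (.slot (nat_lit 1)) .junk)) (.col (nat_lit 1))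
def w14724 : Root := .mk (.node (.col (nat_lit 3)) (.node (.node (.node (.col (nat_lit 0)) (.col (nat_lit 3)) (.slot (nat_lit 1))) (.col (nat_lit 0)) (.node (.slot (nat_lit 0)) (.col (nat_lit 3)) (.col (nat_lit 0)))) (.col (nat_lit 3)) (.slot (nat_lit 1))) (.node (.col (nat_lit 0)) (.slot (nat_lit 1)) .junk)) (.col (nat_lit 1)) (.col (nat_lit 3)) (.node (.col (nat_lit 0)) (.slot (nat_lit 1)) .junk)
def w14725 : Root := .mk (.node (.col (nat_lit 3)) (.node (.node (.node (.col (nat_lit 0)) (.col (nat_lit 3)) (.slot (nat_lit 1))) (.col (nat_lit 0)) (.node (.slot (nat_lit 0)) (.col (nat_lit 3)) (.col (nat_lit 0)))) (.col (nat_lit 3)) (.slot (nat_lit 1))) (.slot (nat_lit 1))) (.col (nat_lit 1)) (.col (nat_lit 3)) (.node (.col (nat_lit 0)) (.node (.col (nat_lit 0)) (.slot (nat_lit 0)) (.slot (nat_lit 0))) (.slot (nat_lit 1)))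
def w14726 : Root := .mk (.node (.col (nat_lit 3)) (.node (.node (.node (.col (nat_lit 0)) (.col (nat_lit 3)) (.slot (nat_lit 1))) (.col (nat_lit 0)) (.node (.slot (nat_lit 0)) (.col (nat_lit 3)) (.col (nat_lit 0)))) (.col (nat_lit 3)) (.slot (nat_lit 1))) (.slot (nat_lit 1))) (.col (nat_lit 1)) (.col (nat_lit 3)) (.node (.col (nat_lit 0)) (.node (.slot (nat_lit 0)) (.slot (nat_lit 0)) (.slot (nat_lit 0))) (.slot (nat_lit 1)))
def l3252 : Root := .mk (.node (.col (nat_lit 3)) (.node (.node (.node (.col (nat_lit 0)) (.col (nat_lit 3)) (.slot (nat_lit 3))) (.col (nat_lit 0)) (.node (.slot (nat_lit 0)) (.col (nat_lit 3)) (.col (nat_lit 0)))) (.col (nat_lit 3)) (.slot (nat_lit 2))) (.slot (nat_lit 3))) (.col (nat_lit 1)) (.col (nat_lit 3)) (.node (.col (nat_lit 0)) (.slot (nat_lit 7)) (.slot (nat_lit 5)))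
def w14727 : Root := .mk (.node (.col (nat_lit 3)) (.node (.node (.node (.col (nat_lit 0)) (.col (nat_lit 3)) (.slot (nat_lit 3))) (.col (nat_lit 0)) (.node (.slot (nat_lit 0)) (.col (nat_lit 3)) (.col (nat_lit 0)))) (.col (nat_lit 3)) (.slot (nat_lit 2))) (.slot (nat_lit 3))) (.col (nat_lit 1)) (.col (nat_lit 3)) (.slot (nat_lit 8))
def w14728 : Root := .mk (.node (.node (.col (nat_lit 3)) (.node (.col (nat_lit 1)) (.node (.col (nat_lit 1)) (.slot (nat_lit 0)) (.slot (nat_lit 0))) (.slot (nat_lit 2))) (.slot (nat_lit 2))) (.col (nat_lit 3)) (.slot (nat_lit 1))) (.node (.col (nat_lit 0)) (.col (nat_lit 3)) (.slot (nat_lit 1))) (.col (nat_lit 0)) (.node (.slot (nat_lit 0)) (.col (nat_lit 3)) (.col (nat_lit 0)))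
def w14729 : Root := .mk (.node (.node (.node (.col (nat_lit 3)) (.node (.col (nat_lit 1)) (.slot (nat_lit 1)) (.slot (nat_lit 1))) (.slot (nat_lit 2))) (.col (nat_lit 3)) (.slot (nat_lit 6))) (.col (nat_lit 0)) (.node (.slot (nat_lit 0)) (.col (nat_lit 3)) (.col (nat_lit 0)))) (.col (nat_lit 0)) (.col (nat_lit 3)) (.slot (nat_lit 0))
def l3253 : Root := .mk (.node (.node (.col (nat_lit 3)) (.node (.col (nat_lit 1)) (.slot (nat_lit 8)) (.slot (nat_lit 8))) (.slot (nat_lit 3))) (.col (nat_lit 3)) (.slot (nat_lit 6))) (.node (.col (nat_lit 0)) (.col (nat_lit 3)) (.slot (nat_lit 5))) (.col (nat_lit 0)) (.node (.slot (nat_lit 0)) (.col (nat_lit 3)) (.col (nat_lit 0)))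
def w14730 : Root := .mk (.node (.node (.node (.col (nat_lit 3)) (.slot (nat_lit 9)) (.slot (nat_lit 3))) (.col (nat_lit 3)) (.slot (nat_lit 6))) (.node (.col (nat_lit 0)) (.col (nat_lit 3)) (.slot (nat_lit 5))) (.col (nat_lit 0))) (.slot (nat_lit 0)) (.col (nat_lit 3)) (.col (nat_lit 0))
def w14731 : Root := .mk (.col (nat_lit 1)) (.node (.col (nat_lit 0)) (.node (.node (.col (nat_lit 0)) (.col (nat_lit 1)) (.slot (nat_lit 2))) (.col (nat_lit 0)) (.slot (nat_lit 8))) (.slot (nat_lit 8))) (.col (nat_lit 0)) (.node (.slot (nat_lit 0)) (.slot (nat_lit 1)) (.slot (nat_lit 1)))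
def w14732 : Root := .mk (.node (.node (.col (nat_lit 3)) (.slot (nat_lit 3)) (.slot (nat_lit 1))) (.node (.col (nat_lit 2)) (.slot (nat_lit 3)) (.slot (nat_lit 1))) (.slot (nat_lit 8))) (.node (.col (nat_lit 0)) (.node (.node (.col (nat_lit 0)) (.col (nat_lit 1)) (.slot (nat_lit 2))) (.col (nat_lit 0)) (.slot (nat_lit 8))) (.slot (nat_lit 8))) (.col (nat_lit 0)) (.node (.slot (nat_lit 0)) (.slot (nat_lit 1)) (.slot (nat_lit 1)))
def l3254 : Root := .mk (.node (.node (.node (.node (.col (nat_lit 3)) (.slot (nat_lit 1)) (.slot (nat_lit 1))) (.node (.col (nat_lit 2)) (.slot (nat_lit 1)) (.slot (nat_lit 0))) (.col (nat_lit 1))) (.col (nat_lit 0)) (.slot (nat_lit 4))) (.col (nat_lit 0)) (.slot (nat_lit 5))) (.node (.col (nat_lit 0)) (.col (nat_lit 1)) (.slot (nat_lit 5))) (.col (nat_lit 0)) (.node (.col (nat_lit 1)) (.slot (nat_lit 7)) (.slot (nat_lit 5)))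
def w14733 : Root := .mk (.node (.col (nat_lit 3)) (.slot (nat_lit 1)) (.slot (nat_lit 1))) (.node (.node (.col (nat_lit 0)) (.node (.node (.col (nat_lit 0)) (.col (nat_lit 1)) (.slot (nat_lit 5))) (.col (nat_lit 0)) (.slot (nat_lit 8))) (.slot (nat_lit 5))) (.col (nat_lit 0)) (.slot (nat_lit 4))) (.node (.col (nat_lit 2)) (.slot (nat_lit 1)) (.slot (nat_lit 0))) (.col (nat_lit 1))
def w14734 : Root := .mk (.node (.node (.node (.node (.node (.col (nat_lit 3)) (.slot (nat_lit 0)) (.slot (nat_lit 0))) (.node (.col (nat_lit 2)) (.slot (nat_lit 3)) (.slot (nat_lit 1))) (.node (.col (nat_lit 0)) (.slot (nat_lit 7)) (.slot (nat_lit 5)))) (.col (nat_lit 0)) (.slot (nat_lit 3))) (.col (nat_lit 0)) (.slot (nat_lit 3))) (.col (nat_lit 0)) (.slot (nat_lit 1))) (.col (nat_lit 0)) (.col (nat_lit 1)) (.slot (nat_lit 3))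
def w14736 : Root := .mk (.col (nat_lit 3)) (.node (.node (.node (.col (nat_lit 0)) (.slot (nat_lit 0)) (.slot (nat_lit 0))) (.col (nat_lit 0)) (.slot (nat_lit 3))) (.node (.col (nat_lit 2)) (.col (nat_lit 3)) (.slot (nat_lit 0))) (.node (.col (nat_lit 2)) (.slot (nat_lit 7)) (.slot (nat_lit 5)))) (.col (nat_lit 2)) (.slot (nat_lit 3))
def w14737 : Root := .mk (.node (.node (.col (nat_lit 3)) (.slot (nat_lit 0)) (.slot (nat_lit 0))) (.node (.col (nat_lit 2)) (.col (nat_lit 3)) (.slot (nat_lit 0))) (.node (.col (nat_lit 2)) (.slot (nat_lit 1)) (.slot (nat_lit 0)))) (.col (nat_lit 1)) (.col (nat_lit 0)) (.node (.col (nat_lit 4)) (.slot (nat_lit 3)) (.slot (nat_lit 3)))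
def w14740 : Root := .mk (.node (.node (.col (nat_lit 3)) (.slot (nat_lit 3)) (.slot (nat_lit 1))) (.node (.col (nat_lit 1)) (.col (nat_lit 0)) (.slot (nat_lit 0))) (.node (.col (nat_lit 2)) (.slot (nat_lit 7)) (.slot (nat_lit 5)))) (.col (nat_lit 2)) (.col (nat_lit 0)) (.slot (nat_lit 3))
def w14741 : Root := .mk (.node (.node (.col (nat_lit 3)) (.slot (nat_lit 3)) (.slot (nat_lit 1))) (.node (.col (nat_lit 1)) (.col (nat_lit 0)) (.slot (nat_lit 0))) (.node (.col (nat_lit 2)) (.slot (nat_lit 7)) (.slot (nat_lit 5)))) (.col (nat_lit 2)) (.col (nat_lit 4)) (.slot (nat_lit 3))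
def l3255 : Root := .mk (.node (.col (nat_lit 4)) (.node (.col (nat_lit 2)) (.node (.col (nat_lit 3)) (.slot (nat_lit 0)) (.slot (nat_lit 0))) (.col (nat_lit 3))) (.node (.col (nat_lit 2)) (.slot (nat_lit 6)) (.slot (nat_lit 6)))) (.col (nat_lit 1)) (.col (nat_lit 0)) (.col (nat_lit 2))
def w14742 : Root := .mk (.node (.node (.col (nat_lit 3)) (.slot (nat_lit 0)) (.slot (nat_lit 0))) (.node (.col (nat_lit 2)) (.node (.col (nat_lit 3)) (.slot (nat_lit 0)) (.slot (nat_lit 0))) (.col (nat_lit 3))) (.node (.col (nat_lit 2)) (.slot (nat_lit 6)) (.slot (nat_lit 6)))) (.col (nat_lit 1)) (.col (nat_lit 0)) (.col (nat_lit 2))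
def l3256 : Root := .mk (.node (.node (.col (nat_lit 3)) (.slot (nat_lit 6)) (.slot (nat_lit 6))) (.node (.col (nat_lit 2)) (.node (.col (nat_lit 3)) (.slot (nat_lit 0)) (.slot (nat_lit 0))) (.col (nat_lit 3))) (.col (nat_lit 4))) (.col (nat_lit 1)) (.col (nat_lit 0)) (.col (nat_lit 3))
def w14743 : Root := .mk (.node (.node (.col (nat_lit 3)) (.slot (nat_lit 6)) (.slot (nat_lit 6))) (.node (.col (nat_lit 2)) (.node (.col (nat_lit 3)) (.slot (nat_lit 0)) (.slot (nat_lit 0))) (.col (nat_lit 3))) (.node (.col (nat_lit 2)) (.slot (nat_lit 0)) (.slot (nat_lit 0)))) (.col (nat_lit 1)) (.col (nat_lit 0)) (.col (nat_lit 3))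
def l3257 : Root := .mk (.node (.node (.node (.col (nat_lit 3)) (.slot (nat_lit 0)) (.slot (nat_lit 0))) (.node (.col (nat_lit 2)) (.node (.col (nat_lit 3)) (.slot (nat_lit 0)) (.slot (nat_lit 0))) (.col (nat_lit 3))) (.node (.col (nat_lit 2)) (.slot (nat_lit 1)) (.slot (nat_lit 0)))) (.col (nat_lit 1)) (.col (nat_lit 0))) (.col (nat_lit 4)) (.col (nat_lit 0)) (.node (.col (nat_lit 1)) (.slot (nat_lit 2)) (.slot (nat_lit 2)))
def w14744 : Root := .mk (.node (.node (.col (nat_lit 3)) (.slot (nat_lit 0)) (.slot (nat_lit 0))) (.node (.col (nat_lit 2)) (.node (.col (nat_lit 3)) (.slot (nat_lit 0)) (.slot (nat_lit 0))) (.col (nat_lit 3))) (.node (.col (nat_lit 2)) (.slot (nat_lit 1)) (.slot (nat_lit 0)))) (.col (nat_lit 1)) (.col (nat_lit 0)) (.node (.col (nat_lit 4)) (.col (nat_lit 0)) (.slot (nat_lit 3)))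
def w14745 : Root := .mk (.node (.node (.col (nat_lit 3)) (.slot (nat_lit 1)) (.slot (nat_lit 0))) (.node (.col (nat_lit 2)) (.slot (nat_lit 0)) (.col (nat_lit 3))) (.node (.col (nat_lit 2)) (.slot (nat_lit 1)) (.slot (nat_lit 0)))) (.col (nat_lit 1)) (.col (nat_lit 0)) (.node (.col (nat_lit 4)) (.node (.col (nat_lit 4)) (.slot (nat_lit 0)) (.slot (nat_lit 0))) (.slot (nat_lit 3)))
def w14746 : Root := .mk (.node (.node (.col (nat_lit 3)) (.slot (nat_lit 1)) (.slot (nat_lit 0))) (.node (.col (nat_lit 2)) (.slot (nat_lit 0)) (.col (nat_lit 3))) (.node (.col (nat_lit 2)) (.slot (nat_lit 1)) (.slot (nat_lit 0)))) (.col (nat_lit 1)) (.col (nat_lit 0)) (.node (.col (nat_lit 4)) (.node (.slot (nat_lit 0)) (.slot (nat_lit 0)) (.slot (nat_lit 0))) (.slot (nat_lit 3)))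
def w14747 : Root := .mk (.node (.node (.col (nat_lit 3)) (.col (nat_lit 0)) (.slot (nat_lit 0))) (.node (.col (nat_lit 2)) (.slot (nat_lit 0)) (.col (nat_lit 3))) (.node (.col (nat_lit 2)) (.slot (nat_lit 1)) (.slot (nat_lit 0)))) (.col (nat_lit 1)) (.col (nat_lit 0)) (.node (.col (nat_lit 4)) (.slot (nat_lit 1)) (.slot (nat_lit 1)))
def w14748 : Root := .mk (.node (.node (.col (nat_lit 3)) (.col (nat_lit 2)) (.slot (nat_lit 4))) (.node (.col (nat_lit 2)) (.node (.col (nat_lit 3)) (.slot (nat_lit 0)) (.slot (nat_lit 0))) (.col (nat_lit 3))) (.node (.col (nat_lit 2)) (.slot (nat_lit 9)) (.slot (nat_lit 9)))) (.col (nat_lit 1)) (.col (nat_lit 0)) (.slot (nat_lit 0))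
def w14749 : Root := .mk (.node (.node (.col (nat_lit 3)) (.col (nat_lit 4)) (.slot (nat_lit 0))) (.node (.col (nat_lit 2)) (.slot (nat_lit 0)) (.col (nat_lit 3))) (.node (.col (nat_lit 2)) (.slot (nat_lit 1)) (.slot (nat_lit 0)))) (.col (nat_lit 1)) (.col (nat_lit 0)) (.node (.col (nat_lit 4)) (.slot (nat_lit 3)) (.slot (nat_lit 3)))
def w14750 : Root := .mk (.node (.node (.col (nat_lit 3)) (.slot (nat_lit 1)) (.slot (nat_lit 0))) (.node (.col (nat_lit 1)) (.col (nat_lit 0)) (.slot (nat_lit 0))) (.node (.col (nat_lit 2)) (.slot (nat_lit 1)) (.slot (nat_lit 1)))) (.col (nat_lit 2)) (.col (nat_lit 0)) (.col (nat_lit 3))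
def w14751 : Root := .mk (.col (nat_lit 3)) (.node (.node (.col (nat_lit 1)) (.col (nat_lit 0)) (.slot (nat_lit 0))) (.node (.col (nat_lit 2)) (.col (nat_lit 4)) (.col (nat_lit 3))) (.node (.col (nat_lit 2)) (.slot (nat_lit 0)) (.slot (nat_lit 0)))) (.col (nat_lit 1)) (.col (nat_lit 2))
def w14752 : Root := .mk (.node (.node (.col (nat_lit 3)) (.node (.col (nat_lit 0)) (.slot (nat_lit 1)) (.slot (nat_lit 0))) (.col (nat_lit 2))) (.slot (nat_lit 0)) (.node (.col (nat_lit 2)) (.col (nat_lit 0)) (.slot (nat_lit 0)))) (.col (nat_lit 2)) (.col (nat_lit 4)) (.col (nat_lit 3))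
def w14753 : Root := .mk (.node (.node (.col (nat_lit 3)) (.node (.col (nat_lit 0)) (.slot (nat_lit 1)) .junk) (.col (nat_lit 2))) (.slot (nat_lit 0)) (.node (.col (nat_lit 2)) (.col (nat_lit 1)) (.slot (nat_lit 0)))) (.col (nat_lit 2)) (.col (nat_lit 4)) (.col (nat_lit 3))
def w14754 : Root := .mk (.node (.node (.col (nat_lit 3)) (.node (.col (nat_lit 0)) (.slot (nat_lit 1)) (.slot (nat_lit 0))) (.col (nat_lit 2))) (.slot (nat_lit 0)) (.node (.col (nat_lit 2)) (.col (nat_lit 3)) (.slot (nat_lit 0)))) (.col (nat_lit 2)) (.col (nat_lit 4)) (.col (nat_lit 3))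
def w14755 : Root := .mk (.node (.node (.col (nat_lit 3)) (.node (.col (nat_lit 0)) (.slot (nat_lit 1)) (.slot (nat_lit 0))) (.col (nat_lit 2))) (.slot (nat_lit 0)) (.node (.col (nat_lit 2)) (.col (nat_lit 4)) (.slot (nat_lit 0)))) (.col (nat_lit 2)) (.col (nat_lit 4)) (.col (nat_lit 3))
def l3258 : Root := .mk (.node (.node (.col (nat_lit 3)) (.node (.col (nat_lit 0)) (.slot (nat_lit 1)) (.slot (nat_lit 1))) (.col (nat_lit 2))) (.node (.col (nat_lit 1)) (.col (nat_lit 0)) (.node (.col (nat_lit 4)) (.slot (nat_lit 1)) (.slot (nat_lit 1)))) (.node (.col (nat_lit 2)) (.slot (nat_lit 0)) (.slot (nat_lit 0)))) (.col (nat_lit 2)) (.col (nat_lit 4)) (.col (nat_lit 3))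
def w14756 : Root := .mk (.node (.node (.col (nat_lit 3)) (.node (.col (nat_lit 0)) (.slot (nat_lit 1)) (.slot (nat_lit 1))) (.slot (nat_lit 1))) (.node (.col (nat_lit 1)) (.col (nat_lit 0)) (.node (.col (nat_lit 4)) (.slot (nat_lit 1)) (.slot (nat_lit 1)))) (.node (.col (nat_lit 2)) (.slot (nat_lit 0)) (.slot (nat_lit 0)))) (.col (nat_lit 2)) (.col (nat_lit 4)) (.col (nat_lit 3))
def w14757 : Root := .mk (.node (.node (.col (nat_lit 3)) (.col (nat_lit 1)) (.slot (nat_lit 1))) (.node (.col (nat_lit 1)) (.col (nat_lit 0)) (.node (.col (nat_lit 4)) (.slot (nat_lit 1)) (.slot (nat_lit 1)))) (.node (.col (nat_lit 2)) (.slot (nat_lit 1)) (.slot (nat_lit 0)))) (.col (nat_lit 2)) (.col (nat_lit 4)) (.col (nat_lit 3))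
def w14758 : Root := .mk (.node (.node (.col (nat_lit 3)) (.col (nat_lit 2)) (.slot (nat_lit 3))) (.node (.col (nat_lit 1)) (.col (nat_lit 0)) (.slot (nat_lit 0))) (.node (.col (nat_lit 2)) (.slot (nat_lit 0)) (.slot (nat_lit 0)))) (.col (nat_lit 2)) (.col (nat_lit 4)) (.col (nat_lit 3))
def w14759 : Root := .mk (.node (.node (.col (nat_lit 3)) (.col (nat_lit 4)) (.slot (nat_lit 3))) (.node (.col (nat_lit 1)) (.col (nat_lit 0)) (.slot (nat_lit 0))) (.node (.col (nat_lit 2)) (.slot (nat_lit 0)) (.slot (nat_lit 0)))) (.col (nat_lit 2)) (.col (nat_lit 4)) (.col (nat_lit 3))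
def w14760 : Root := .mk (.node (.node (.col (nat_lit 3)) (.node (.col (nat_lit 0)) (.slot (nat_lit 0)) (.slot (nat_lit 0))) (.col (nat_lit 0))) (.node (.col (nat_lit 1)) (.col (nat_lit 0)) (.node (.col (nat_lit 4)) (.slot (nat_lit 1)) (.slot (nat_lit 1)))) (.node (.col (nat_lit 2)) (.slot (nat_lit 1)) (.slot (nat_lit 0)))) (.col (nat_lit 2)) (.col (nat_lit 4)) (.col (nat_lit 3))
def w14761 : Root := .mk (.col (nat_lit 3)) (.node (.node (.col (nat_lit 1)) (.col (nat_lit 0)) (.node (.col (nat_lit 4)) (.slot (nat_lit 1)) .junk)) (.slot (nat_lit 0)) (.node (.col (nat_lit 2)) (.slot (nat_lit 0)) (.slot (nat_lit 0)))) (.node (.col (nat_lit 0)) (.slot (nat_lit 2)) (.slot (nat_lit 2))) (.col (nat_lit 1))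
def w14762 : Root := .mk (.node (.node (.col (nat_lit 3)) (.node (.col (nat_lit 0)) (.slot (nat_lit 0)) (.slot (nat_lit 0))) (.node (.col (nat_lit 1)) (.slot (nat_lit 1)) (.slot (nat_lit 1)))) (.node (.col (nat_lit 1)) (.col (nat_lit 0)) (.node (.col (nat_lit 4)) (.slot (nat_lit 1)) (.slot (nat_lit 1)))) (.node (.col (nat_lit 2)) (.slot (nat_lit 0)) (.slot (nat_lit 0)))) (.col (nat_lit 2)) (.col (nat_lit 4)) (.col (nat_lit 3))
def w14763 : Root := .mk (.node (.node (.col (nat_lit 3)) (.node (.col (nat_lit 0)) (.slot (nat_lit 1)) (.slot (nat_lit 1))) (.node (.col (nat_lit 2)) (.slot (nat_lit 1)) (.slot (nat_lit 0)))) (.slot (nat_lit 0)) (.node (.col (nat_lit 2)) (.slot (nat_lit 0)) (.slot (nat_lit 0)))) (.col (nat_lit 1)) (.col (nat_lit 0)) (.node (.col (nat_lit 4)) (.slot (nat_lit 1)) (.slot (nat_lit 1)))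
def w14764 : Root := .mk (.node (.node (.col (nat_lit 3)) (.node (.col (nat_lit 0)) (.slot (nat_lit 1)) (.slot (nat_lit 1))) (.node (.col (nat_lit 3)) (.slot (nat_lit 0)) (.slot (nat_lit 0)))) (.node (.col (nat_lit 1)) (.col (nat_lit 0)) (.node (.col (nat_lit 4)) (.slot (nat_lit 1)) (.slot (nat_lit 1)))) (.node (.col (nat_lit 2)) (.slot (nat_lit 0)) (.slot (nat_lit 0)))) (.col (nat_lit 2)) (.col (nat_lit 4)) (.col (nat_lit 3))
def w14765 : Root := .mk (.node (.node (.col (nat_lit 3)) (.node (.col (nat_lit 0)) (.slot (nat_lit 1)) (.slot (nat_lit 1))) (.node (.col (nat_lit 4)) (.slot (nat_lit 0)) (.slot (nat_lit 0)))) (.node (.col (nat_lit 1)) (.col (nat_lit 0)) (.node (.col (nat_lit 4)) (.slot (nat_lit 1)) (.slot (nat_lit 1)))) (.node (.col (nat_lit 2)) (.slot (nat_lit 0)) (.slot (nat_lit 0)))) (.col (nat_lit 2)) (.col (nat_lit 4)) (.col (nat_lit 3))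
def w14766 : Root := .mk (.node (.node (.col (nat_lit 3)) (.node (.col (nat_lit 0)) .junk (.col (nat_lit 1))) (.slot (nat_lit 1))) (.slot (nat_lit 0)) (.node (.col (nat_lit 2)) (.slot (nat_lit 0)) (.slot (nat_lit 0)))) (.col (nat_lit 1)) (.col (nat_lit 0)) (.node (.col (nat_lit 4)) (.slot (nat_lit 1)) (.slot (nat_lit 1)))
def w14767 : Root := .mk (.node (.node (.col (nat_lit 3)) (.node (.col (nat_lit 0)) (.col (nat_lit 3)) (.col (nat_lit 1))) (.col (nat_lit 0))) (.col (nat_lit 2)) (.node (.col (nat_lit 2)) (.slot (nat_lit 0)) (.slot (nat_lit 0)))) (.col (nat_lit 2)) (.col (nat_lit 4)) (.col (nat_lit 3))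
def w14768 : Root := .mk (.node (.col (nat_lit 3)) (.node (.node (.col (nat_lit 1)) (.col (nat_lit 0)) (.node (.col (nat_lit 4)) (.slot (nat_lit 1)) .junk)) (.node (.col (nat_lit 2)) (.col (nat_lit 4)) (.col (nat_lit 3))) (.node (.col (nat_lit 2)) (.slot (nat_lit 0)) (.slot (nat_lit 0)))) (.col (nat_lit 0))) (.col (nat_lit 0)) (.col (nat_lit 3)) (.col (nat_lit 1))
def w14769 : Root := .mk (.node (.node (.col (nat_lit 3)) (.node (.col (nat_lit 0)) .junk (.col (nat_lit 1))) (.node (.col (nat_lit 2)) (.slot (nat_lit 0)) (.slot (nat_lit 0)))) (.slot (nat_lit 0)) (.node (.col (nat_lit 2)) (.slot (nat_lit 0)) (.slot (nat_lit 0)))) (.col (nat_lit 1)) (.col (nat_lit 0)) (.node (.col (nat_lit 4)) (.slot (nat_lit 1)) (.slot (nat_lit 1)))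
def w14770 : Root := .mk (.node (.node (.col (nat_lit 3)) (.node (.col (nat_lit 0)) .junk (.col (nat_lit 1))) (.node (.col (nat_lit 3)) (.slot (nat_lit 0)) (.slot (nat_lit 0)))) (.slot (nat_lit 0)) (.node (.col (nat_lit 2)) (.slot (nat_lit 0)) (.slot (nat_lit 0)))) (.col (nat_lit 1)) (.col (nat_lit 0)) (.node (.col (nat_lit 4)) (.slot (nat_lit 1)) (.slot (nat_lit 1)))
def w14771 : Root := .mk (.node (.node (.col (nat_lit 3)) (.node (.col (nat_lit 0)) .junk (.col (nat_lit 1))) (.node (.col (nat_lit 4)) (.slot (nat_lit 0)) (.slot (nat_lit 0)))) (.slot (nat_lit 0)) (.node (.col (nat_lit 2)) (.slot (nat_lit 0)) (.slot (nat_lit 0)))) (.col (nat_lit 1)) (.col (nat_lit 0)) (.node (.col (nat_lit 4)) (.slot (nat_lit 1)) (.slot (nat_lit 1)))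
def w14772 : Root := .mk (.node (.node (.col (nat_lit 3)) (.node (.col (nat_lit 0)) .junk (.col (nat_lit 1))) (.slot (nat_lit 1))) (.slot (nat_lit 0)) (.node (.col (nat_lit 2)) (.slot (nat_lit 0)) (.slot (nat_lit 0)))) (.col (nat_lit 1)) (.col (nat_lit 0)) (.col (nat_lit 2))
def w14773 : Root := .mk (.node (.node (.col (nat_lit 3)) (.node (.col (nat_lit 0)) .junk (.col (nat_lit 1))) (.slot (nat_lit 1))) (.slot (nat_lit 0)) (.node (.col (nat_lit 2)) (.slot (nat_lit 0)) (.slot (nat_lit 0)))) (.col (nat_lit 1)) (.col (nat_lit 0)) (.col (nat_lit 3))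
def w14774 : Root := .mk (.node (.col (nat_lit 3)) (.node (.col (nat_lit 2)) (.node .junk (.col (nat_lit 4)) (.col (nat_lit 3))) (.node (.col (nat_lit 2)) (.slot (nat_lit 0)) (.slot (nat_lit 0)))) (.slot (nat_lit 1))) (.col (nat_lit 0)) (.col (nat_lit 3)) (.col (nat_lit 1))
def w14775 : Root := .mk (.node (.col (nat_lit 3)) (.node (.node (.col (nat_lit 1)) (.col (nat_lit 0)) (.node (.col (nat_lit 4)) .junk (.slot (nat_lit 1)))) (.node .junk (.col (nat_lit 4)) (.col (nat_lit 3))) (.node (.col (nat_lit 2)) (.slot (nat_lit 0)) (.slot (nat_lit 0)))) (.slot (nat_lit 1))) (.col (nat_lit 0)) (.col (nat_lit 3)) (.col (nat_lit 1))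
def l3259 : Root := .mk (.node (.col (nat_lit 3)) (.node (.node (.col (nat_lit 1)) (.col (nat_lit 0)) (.node (.col (nat_lit 4)) (.slot (nat_lit 1)) (.slot (nat_lit 1)))) (.node (.col (nat_lit 2)) (.col (nat_lit 4)) (.col (nat_lit 3))) (.node (.col (nat_lit 2)) (.slot (nat_lit 3)) (.slot (nat_lit 3)))) (.slot (nat_lit 4))) (.col (nat_lit 0)) (.col (nat_lit 3)) (.col (nat_lit 1))
def w14776 : Root := .mk (.node (.node (.col (nat_lit 3)) (.node (.col (nat_lit 0)) (.col (nat_lit 3)) (.slot (nat_lit 1))) (.slot (nat_lit 4))) (.node (.col (nat_lit 1)) (.col (nat_lit 0)) (.node (.col (nat_lit 4)) (.slot (nat_lit 1)) (.slot (nat_lit 1)))) (.node (.col (nat_lit 2)) (.slot (nat_lit 3)) (.slot (nat_lit 3)))) (.col (nat_lit 2)) (.col (nat_lit 4)) (.col (nat_lit 3))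
def w14777 : Root := .mk (.node (.node (.col (nat_lit 3)) (.node (.col (nat_lit 0)) (.node (.col (nat_lit 0)) (.slot (nat_lit 0)) (.slot (nat_lit 0))) (.slot (nat_lit 1))) (.col (nat_lit 2))) (.slot (nat_lit 0)) (.col (nat_lit 4))) (.col (nat_lit 2)) (.col (nat_lit 4)) (.col (nat_lit 3))
def l3260 : Root := .mk (.node (.node (.col (nat_lit 3)) (.node (.col (nat_lit 0)) (.node (.col (nat_lit 0)) (.slot (nat_lit 0)) (.slot (nat_lit 0))) (.slot (nat_lit 1))) (.col (nat_lit 2))) (.node (.col (nat_lit 1)) (.col (nat_lit 0)) (.node (.col (nat_lit 4)) (.slot (nat_lit 1)) (.slot (nat_lit 1)))) (.node (.col (nat_lit 2)) (.slot (nat_lit 1)) (.slot (nat_lit 0)))) (.col (nat_lit 2)) (.col (nat_lit 4)) (.col (nat_lit 3))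
def w14778 : Root := .mk (.node (.node (.col (nat_lit 3)) (.node (.col (nat_lit 0)) (.node (.col (nat_lit 0)) (.slot (nat_lit 0)) (.slot (nat_lit 0))) (.slot (nat_lit 1))) (.slot (nat_lit 1))) (.node (.col (nat_lit 1)) (.col (nat_lit 0)) (.node (.col (nat_lit 4)) (.slot (nat_lit 1)) (.slot (nat_lit 1)))) (.node (.col (nat_lit 2)) (.slot (nat_lit 1)) (.slot (nat_lit 0)))) (.col (nat_lit 2)) (.col (nat_lit 4)) (.col (nat_lit 3))
def w14779 : Root := .mk (.node (.node (.col (nat_lit 3)) (.node (.col (nat_lit 0)) (.slot (nat_lit 1)) (.slot (nat_lit 1))) (.slot (nat_lit 2))) (.slot (nat_lit 0)) (.node (.col (nat_lit 2)) (.slot (nat_lit 0)) (.slot (nat_lit 0)))) (.col (nat_lit 2)) (.col (nat_lit 4)) (.col (nat_lit 3))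
def l3261 : Root := .mk (.node (.node (.col (nat_lit 3)) (.node (.col (nat_lit 0)) (.slot (nat_lit 8)) (.slot (nat_lit 8))) (.slot (nat_lit 4))) (.node (.col (nat_lit 1)) (.col (nat_lit 0)) (.node (.col (nat_lit 4)) (.slot (nat_lit 1)) (.slot (nat_lit 1)))) (.node (.col (nat_lit 2)) (.slot (nat_lit 3)) (.slot (nat_lit 3)))) (.col (nat_lit 2)) (.col (nat_lit 4)) (.col (nat_lit 3))
def w14780 : Root := .mk (.node (.node (.col (nat_lit 3)) (.slot (nat_lit 9)) (.slot (nat_lit 4))) (.node (.col (nat_lit 1)) (.col (nat_lit 0)) (.node (.col (nat_lit 4)) (.slot (nat_lit 1)) (.slot (nat_lit 1)))) (.node (.col (nat_lit 2)) (.slot (nat_lit 3)) (.slot (nat_lit 3)))) (.col (nat_lit 2)) (.col (nat_lit 4)) (.col (nat_lit 3))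
def w14781 : Root := .mk (.node (.node (.col (nat_lit 3)) (.slot (nat_lit 7)) (.slot (nat_lit 5))) (.node (.col (nat_lit 2)) (.node (.col (nat_lit 3)) (.slot (nat_lit 2)) (.slot (nat_lit 1))) (.col (nat_lit 3))) (.node (.col (nat_lit 2)) (.col (nat_lit 3)) (.slot (nat_lit 4)))) (.col (nat_lit 1)) (.col (nat_lit 0)) (.slot (nat_lit 0))
def l3262 : Root := .mk (.node (.node (.col (nat_lit 3)) (.slot (nat_lit 7)) (.slot (nat_lit 6))) (.node (.col (nat_lit 2)) (.node (.col (nat_lit 3)) (.slot (nat_lit 2)) (.slot (nat_lit 1))) (.col (nat_lit 3))) (.node (.col (nat_lit 2)) (.slot (nat_lit 9)) (.slot (nat_lit 9)))) (.col (nat_lit 1)) (.col (nat_lit 0)) (.node (.col (nat_lit 4)) (.slot (nat_lit 3)) (.slot (nat_lit 3)))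
def w14782 : Root := .mk (.node (.node (.col (nat_lit 3)) (.slot (nat_lit 7)) (.slot (nat_lit 6))) (.node (.col (nat_lit 1)) (.col (nat_lit 0)) (.slot (nat_lit 4))) (.node (.col (nat_lit 2)) (.slot (nat_lit 9)) (.slot (nat_lit 9)))) (.col (nat_lit 2)) (.node (.col (nat_lit 3)) (.slot (nat_lit 2)) (.slot (nat_lit 1))) (.col (nat_lit 3))
def w14783 : Root := .mk (.node (.node (.col (nat_lit 3)) (.slot (nat_lit 0)) (.slot (nat_lit 0))) (.node (.col (nat_lit 1)) (.col (nat_lit 0)) (.slot (nat_lit 4))) (.node (.col (nat_lit 2)) (.slot (nat_lit 1)) (.slot (nat_lit 0)))) (.col (nat_lit 2)) (.node (.col (nat_lit 3)) (.slot (nat_lit 1)) (.slot (nat_lit 1))) (.node (.col (nat_lit 0)) (.slot (nat_lit 1)) (.slot (nat_lit 0)))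
def w14784 : Root := .mk (.node (.node (.col (nat_lit 3)) (.node (.col (nat_lit 2)) (.slot (nat_lit 1)) (.slot (nat_lit 1))) (.slot (nat_lit 2))) (.node (.col (nat_lit 2)) (.node (.col (nat_lit 3)) (.slot (nat_lit 1)) (.slot (nat_lit 0))) (.node (.col (nat_lit 2)) (.slot (nat_lit 0)) (.slot (nat_lit 0)))) (.node (.col (nat_lit 2)) (.slot (nat_lit 2)) (.slot (nat_lit 2)))) (.col (nat_lit 1)) (.col (nat_lit 0)) (.slot (nat_lit 0))
def l3263 : Root := .mk (.node (.col (nat_lit 1)) (.node (.col (nat_lit 1)) (.col (nat_lit 0)) (.slot (nat_lit 1))) (.node (.col (nat_lit 2)) (.slot (nat_lit 1)) (.slot (nat_lit 1)))) (.col (nat_lit 2)) (.col (nat_lit 4)) (.col (nat_lit 0))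
def w14785 : Root := .mk (.node (.node (.col (nat_lit 3)) (.col (nat_lit 0)) (.slot (nat_lit 0))) (.node (.col (nat_lit 1)) (.col (nat_lit 0)) (.slot (nat_lit 1))) (.node (.col (nat_lit 2)) (.slot (nat_lit 1)) (.slot (nat_lit 1)))) (.col (nat_lit 2)) (.col (nat_lit 4)) (.col (nat_lit 0))
def w14786 : Root := .mk (.col (nat_lit 3)) (.node (.node (.col (nat_lit 1)) (.col (nat_lit 0)) (.slot (nat_lit 2))) (.node (.col (nat_lit 2)) (.node (.col (nat_lit 3)) (.slot (nat_lit 1)) (.slot (nat_lit 1))) (.col (nat_lit 0))) (.node (.col (nat_lit 2)) (.slot (nat_lit 0)) (.slot (nat_lit 0)))) (.col (nat_lit 0)) (.col (nat_lit 1))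
def w14787 : Root := .mk (.col (nat_lit 3)) (.node (.node (.col (nat_lit 1)) (.col (nat_lit 0)) (.slot (nat_lit 0))) (.node (.col (nat_lit 2)) (.slot (nat_lit 0)) (.col (nat_lit 0))) (.node (.col (nat_lit 2)) (.slot (nat_lit 0)) (.slot (nat_lit 0)))) (.col (nat_lit 0)) (.col (nat_lit 2))
def w14788 : Root := .mk (.col (nat_lit 3)) (.node (.node (.col (nat_lit 1)) (.col (nat_lit 0)) (.slot (nat_lit 0))) (.node (.col (nat_lit 2)) (.node (.col (nat_lit 3)) (.slot (nat_lit 1)) (.slot (nat_lit 1))) (.col (nat_lit 0))) (.node (.col (nat_lit 2)) (.slot (nat_lit 0)) (.slot (nat_lit 0)))) (.col (nat_lit 0)) (.col (nat_lit 4))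
def w14789 : Root := .mk (.col (nat_lit 3)) (.node (.node (.col (nat_lit 1)) (.col (nat_lit 0)) (.slot (nat_lit 2))) (.node (.col (nat_lit 2)) (.node (.col (nat_lit 3)) (.slot (nat_lit 1)) (.slot (nat_lit 1))) (.col (nat_lit 0))) (.node (.col (nat_lit 2)) (.slot (nat_lit 0)) (.slot (nat_lit 0)))) (.col (nat_lit 0)) (.slot (nat_lit 0))
def w14790 : Root := .mk (.node (.node (.col (nat_lit 3)) (.col (nat_lit 0)) (.slot (nat_lit 0))) (.node (.col (nat_lit 2)) (.node (.col (nat_lit 3)) (.slot (nat_lit 1)) .junk) (.col (nat_lit 0))) (.slot (nat_lit 0))) (.col (nat_lit 1)) (.col (nat_lit 0)) (.col (nat_lit 3))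
def w14791 : Root := .mk (.node (.node (.col (nat_lit 3)) (.col (nat_lit 0)) (.slot (nat_lit 0))) (.node (.col (nat_lit 2)) (.node (.col (nat_lit 3)) (.slot (nat_lit 1)) (.slot (nat_lit 1))) (.col (nat_lit 0))) (.node (.col (nat_lit 2)) (.slot (nat_lit 0)) (.slot (nat_lit 0)))) (.col (nat_lit 1)) (.col (nat_lit 0)) (.col (nat_lit 4))
def w14792 : Root := .mk (.node (.node (.col (nat_lit 3)) (.col (nat_lit 0)) (.slot (nat_lit 0))) (.node (.col (nat_lit 2)) (.node (.col (nat_lit 3)) (.slot (nat_lit 2)) (.slot (nat_lit 2))) (.col (nat_lit 0))) (.node (.col (nat_lit 2)) (.slot (nat_lit 1)) (.slot (nat_lit 0)))) (.col (nat_lit 1)) (.col (nat_lit 0)) (.slot (nat_lit 0))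
def w14793 : Root := .mk (.node (.node (.col (nat_lit 3)) (.col (nat_lit 0)) (.slot (nat_lit 1))) (.node (.col (nat_lit 1)) (.col (nat_lit 0)) (.slot (nat_lit 1))) (.node (.col (nat_lit 2)) (.col (nat_lit 0)) (.slot (nat_lit 1)))) (.col (nat_lit 2)) (.slot (nat_lit 0)) (.col (nat_lit 0))
def w14794 : Root := .mk (.node (.node (.col (nat_lit 3)) (.col (nat_lit 0)) (.slot (nat_lit 0))) (.node (.col (nat_lit 1)) (.col (nat_lit 0)) (.slot (nat_lit 6))) (.node (.col (nat_lit 2)) (.col (nat_lit 1)) (.slot (nat_lit 0)))) (.col (nat_lit 2)) (.node (.col (nat_lit 3)) (.slot (nat_lit 1)) (.slot (nat_lit 1))) (.col (nat_lit 0))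
def w14795 : Root := .mk (.node (.node (.col (nat_lit 3)) (.col (nat_lit 0)) (.slot (nat_lit 0))) (.node (.col (nat_lit 1)) (.col (nat_lit 0)) (.slot (nat_lit 1))) (.node (.col (nat_lit 2)) (.col (nat_lit 3)) (.slot (nat_lit 1)))) (.col (nat_lit 2)) (.node (.col (nat_lit 3)) (.slot (nat_lit 1)) .junk) (.col (nat_lit 0))
def w14796 : Root := .mk (.node (.node (.col (nat_lit 3)) (.col (nat_lit 0)) (.slot (nat_lit 0))) (.node (.col (nat_lit 1)) (.col (nat_lit 0)) (.slot (nat_lit 1))) (.node (.col (nat_lit 2)) (.col (nat_lit 4)) (.slot (nat_lit 0)))) (.col (nat_lit 2)) (.node (.col (nat_lit 3)) (.slot (nat_lit 1)) (.slot (nat_lit 1))) (.col (nat_lit 0))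
def l3264 : Root := .mk (.node (.node (.col (nat_lit 3)) (.col (nat_lit 0)) (.slot (nat_lit 3))) (.node (.col (nat_lit 1)) (.col (nat_lit 0)) (.slot (nat_lit 6))) (.node (.col (nat_lit 2)) (.slot (nat_lit 1)) (.slot (nat_lit 1)))) (.col (nat_lit 2)) (.node (.col (nat_lit 3)) (.slot (nat_lit 7)) (.slot (nat_lit 5))) (.col (nat_lit 0))
def w14797 : Root := .mk (.col (nat_lit 3)) (.node (.node (.col (nat_lit 1)) (.col (nat_lit 0)) (.slot (nat_lit 6))) (.node (.col (nat_lit 2)) (.node (.col (nat_lit 3)) (.slot (nat_lit 7)) (.slot (nat_lit 5))) (.node (.col (nat_lit 2)) (.slot (nat_lit 0)) (.slot (nat_lit 0)))) (.node (.col (nat_lit 2)) (.slot (nat_lit 1)) (.slot (nat_lit 1)))) (.col (nat_lit 0)) (.slot (nat_lit 3))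
def w14798 : Root := .mk (.node (.node (.col (nat_lit 3)) (.col (nat_lit 4)) (.slot (nat_lit 0))) (.node (.col (nat_lit 1)) (.col (nat_lit 0)) (.slot (nat_lit 0))) (.node (.col (nat_lit 2)) (.slot (nat_lit 1)) (.slot (nat_lit 0)))) (.col (nat_lit 2)) (.node (.col (nat_lit 3)) (.slot (nat_lit 1)) (.slot (nat_lit 1))) (.col (nat_lit 0))
def w14799 : Root := .mk (.node (.node (.col (nat_lit 3)) (.col (nat_lit 4)) (.slot (nat_lit 0))) (.node (.col (nat_lit 1)) (.col (nat_lit 0)) (.slot (nat_lit 1))) (.node (.col (nat_lit 2)) (.slot (nat_lit 1)) (.slot (nat_lit 1)))) (.col (nat_lit 2)) (.col (nat_lit 4)) (.col (nat_lit 0))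
def w14800 : Root := .mk (.node (.node (.col (nat_lit 3)) (.col (nat_lit 4)) (.slot (nat_lit 0))) (.node (.col (nat_lit 1)) (.col (nat_lit 0)) (.slot (nat_lit 0))) (.node (.col (nat_lit 2)) (.slot (nat_lit 1)) (.slot (nat_lit 0)))) (.col (nat_lit 2)) (.node (.col (nat_lit 3)) (.col (nat_lit 0)) (.slot (nat_lit 5))) (.col (nat_lit 0))
def l3265 : Root := .mk (.node (.node (.col (nat_lit 3)) (.col (nat_lit 4)) (.slot (nat_lit 1))) (.node (.col (nat_lit 1)) (.col (nat_lit 0)) (.slot (nat_lit 6))) (.col (nat_lit 3))) (.col (nat_lit 2)) (.node (.col (nat_lit 3)) (.col (nat_lit 2)) (.slot (nat_lit 5))) (.col (nat_lit 0))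
def w14801 : Root := .mk (.node (.node (.col (nat_lit 3)) (.col (nat_lit 4)) (.slot (nat_lit 1))) (.node (.col (nat_lit 1)) (.col (nat_lit 0)) (.slot (nat_lit 6))) (.node (.col (nat_lit 2)) (.slot (nat_lit 0)) (.slot (nat_lit 0)))) (.col (nat_lit 2)) (.node (.col (nat_lit 3)) (.col (nat_lit 2)) (.slot (nat_lit 5))) (.col (nat_lit 0))
def w14802 : Root := .mk (.node (.node (.col (nat_lit 3)) (.col (nat_lit 4)) (.slot (nat_lit 1))) (.node (.col (nat_lit 1)) (.col (nat_lit 0)) (.slot (nat_lit 1))) (.node (.col (nat_lit 2)) (.slot (nat_lit 0)) (.slot (nat_lit 0)))) (.col (nat_lit 2)) (.node (.col (nat_lit 3)) (.slot (nat_lit 0)) (.slot (nat_lit 1))) (.col (nat_lit 0))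
def w14803 : Root := .mk (.col (nat_lit 3)) (.node (.node (.col (nat_lit 1)) (.col (nat_lit 0)) (.slot (nat_lit 2))) (.node (.col (nat_lit 2)) (.node (.col (nat_lit 3)) (.slot (nat_lit 1)) (.slot (nat_lit 1))) (.col (nat_lit 0))) (.node (.col (nat_lit 2)) (.slot (nat_lit 0)) (.slot (nat_lit 0)))) (.col (nat_lit 4)) (.col (nat_lit 1))
def w14804 : Root := .mk (.node (.node (.col (nat_lit 3)) (.col (nat_lit 4)) (.slot (nat_lit 1))) (.node (.col (nat_lit 2)) (.node (.col (nat_lit 3)) (.slot (nat_lit 1)) (.slot (nat_lit 1))) (.col (nat_lit 0))) (.node (.col (nat_lit 2)) (.slot (nat_lit 0)) (.slot (nat_lit 0)))) (.col (nat_lit 1)) (.col (nat_lit 0)) (.col (nat_lit 3))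
def w14805 : Root := .mk (.node (.node (.col (nat_lit 3)) (.col (nat_lit 4)) (.slot (nat_lit 0))) (.node (.col (nat_lit 2)) (.node (.col (nat_lit 3)) (.slot (nat_lit 1)) (.slot (nat_lit 1))) (.col (nat_lit 0))) (.node (.col (nat_lit 2)) (.slot (nat_lit 0)) (.slot (nat_lit 0)))) (.col (nat_lit 1)) (.col (nat_lit 0)) (.col (nat_lit 4))
def w14806 : Root := .mk (.node (.slot (nat_lit 0)) (.node (.col (nat_lit 1)) (.col (nat_lit 0)) (.slot (nat_lit 0))) (.node (.col (nat_lit 2)) (.col (nat_lit 0)) (.slot (nat_lit 0)))) (.col (nat_lit 2)) (.node (.col (nat_lit 3)) (.slot (nat_lit 5)) (.slot (nat_lit 5))) (.col (nat_lit 0))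
def w14807 : Root := .mk (.node (.node (.col (nat_lit 3)) (.col (nat_lit 4)) (.slot (nat_lit 0))) (.node (.col (nat_lit 1)) (.col (nat_lit 0)) (.slot (nat_lit 0))) (.node (.col (nat_lit 2)) (.col (nat_lit 1)) (.slot (nat_lit 6)))) (.col (nat_lit 2)) (.node (.col (nat_lit 3)) (.slot (nat_lit 1)) (.slot (nat_lit 1))) (.col (nat_lit 0))
def w14808 : Root := .mk (.node (.node (.col (nat_lit 3)) (.col (nat_lit 4)) (.slot (nat_lit 1))) (.node (.col (nat_lit 1)) (.col (nat_lit 0)) (.slot (nat_lit 0))) (.node (.col (nat_lit 2)) (.col (nat_lit 3)) (.slot (nat_lit 0)))) (.col (nat_lit 2)) (.node (.col (nat_lit 3)) (.slot (nat_lit 5)) (.slot (nat_lit 5))) (.col (nat_lit 0))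
def w14809 : Root := .mk (.node (.node (.col (nat_lit 3)) (.col (nat_lit 4)) (.slot (nat_lit 0))) (.node (.col (nat_lit 1)) (.col (nat_lit 0)) (.slot (nat_lit 0))) (.node (.col (nat_lit 2)) (.col (nat_lit 4)) (.slot (nat_lit 1)))) (.col (nat_lit 2)) (.node (.col (nat_lit 3)) (.slot (nat_lit 1)) (.slot (nat_lit 1))) (.col (nat_lit 0))
def l3266 : Root := .mk (.node (.node (.col (nat_lit 3)) (.col (nat_lit 4)) (.slot (nat_lit 3))) (.node (.col (nat_lit 1)) (.col (nat_lit 0)) (.slot (nat_lit 6))) (.node (.col (nat_lit 2)) (.slot (nat_lit 3)) (.slot (nat_lit 3)))) (.col (nat_lit 2)) (.node (.col (nat_lit 3)) (.slot (nat_lit 5)) (.slot (nat_lit 5))) (.col (nat_lit 0))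
def w14810 : Root := .mk (.col (nat_lit 3)) (.node (.node (.col (nat_lit 1)) (.col (nat_lit 0)) (.slot (nat_lit 6))) (.node (.col (nat_lit 2)) (.node (.col (nat_lit 3)) (.slot (nat_lit 5)) (.slot (nat_lit 5))) (.node (.col (nat_lit 2)) (.slot (nat_lit 0)) (.slot (nat_lit 0)))) (.node (.col (nat_lit 2)) (.slot (nat_lit 3)) (.slot (nat_lit 3)))) (.col (nat_lit 4)) (.slot (nat_lit 3))
def w14811 : Root := .mk (.col (nat_lit 3)) (.node (.node (.col (nat_lit 1)) (.col (nat_lit 0)) (.slot (nat_lit 0))) (.node (.col (nat_lit 2)) (.slot (nat_lit 0)) (.slot (nat_lit 0))) (.node (.col (nat_lit 2)) (.slot (nat_lit 0)) (.slot (nat_lit 0)))) (.node (.col (nat_lit 2)) (.slot (nat_lit 1)) (.slot (nat_lit 1))) (.col (nat_lit 0))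
def l3267 : Root := .mk (.col (nat_lit 3)) (.node (.col (nat_lit 4)) (.node (.col (nat_lit 2)) (.node (.col (nat_lit 3)) (.slot (nat_lit 1)) (.slot (nat_lit 0))) (.node (.col (nat_lit 2)) (.slot (nat_lit 0)) (.slot (nat_lit 0)))) (.node (.col (nat_lit 2)) (.slot (nat_lit 3)) (.slot (nat_lit 1)))) (.node (.col (nat_lit 2)) (.slot (nat_lit 4)) (.slot (nat_lit 4))) (.col (nat_lit 2))
def w14812 : Root := .mk (.col (nat_lit 3)) (.node (.node (.col (nat_lit 1)) (.col (nat_lit 0)) (.slot (nat_lit 0))) (.node (.col (nat_lit 2)) (.node (.col (nat_lit 3)) (.slot (nat_lit 1)) (.slot (nat_lit 0))) (.node (.col (nat_lit 2)) (.slot (nat_lit 0)) (.slot (nat_lit 0)))) (.node (.col (nat_lit 2)) (.slot (nat_lit 3)) (.slot (nat_lit 1)))) (.node (.col (nat_lit 2)) (.slot (nat_lit 4)) (.slot (nat_lit 4))) (.col (nat_lit 2))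
def w14813 : Root := .mk (.col (nat_lit 3)) (.node (.node (.col (nat_lit 1)) (.col (nat_lit 0)) (.slot (nat_lit 0))) (.node (.col (nat_lit 2)) (.slot (nat_lit 0)) (.slot (nat_lit 0))) (.node (.col (nat_lit 2)) (.slot (nat_lit 0)) (.slot (nat_lit 0)))) (.node (.col (nat_lit 2)) (.slot (nat_lit 1)) (.slot (nat_lit 1))) (.col (nat_lit 4))
def w14814 : Root := .mk (.col (nat_lit 3)) (.node (.node (.col (nat_lit 1)) (.col (nat_lit 0)) (.slot (nat_lit 0))) (.node (.col (nat_lit 2)) (.node (.col (nat_lit 3)) (.slot (nat_lit 1)) (.slot (nat_lit 0))) (.node (.col (nat_lit 2)) (.slot (nat_lit 0)) (.slot (nat_lit 0)))) (.node (.col (nat_lit 2)) (.slot (nat_lit 2)) (.slot (nat_lit 2)))) (.node (.col (nat_lit 2)) (.slot (nat_lit 1)) (.slot (nat_lit 1))) (.node (.col (nat_lit 0)) (.slot (nat_lit 1)) (.slot (nat_lit 0)))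
def w14815 : Root := .mk (.node (.node (.col (nat_lit 3)) (.slot (nat_lit 0)) (.slot (nat_lit 0))) (.node (.col (nat_lit 1)) (.col (nat_lit 0)) (.slot (nat_lit 0))) (.node (.col (nat_lit 2)) (.slot (nat_lit 0)) (.slot (nat_lit 0)))) (.col (nat_lit 2)) (.col (nat_lit 1)) (.col (nat_lit 0))
def w14816 : Root := .mk (.node (.node (.col (nat_lit 3)) (.slot (nat_lit 0)) (.slot (nat_lit 0))) (.node (.col (nat_lit 1)) (.col (nat_lit 0)) (.slot (nat_lit 1))) (.node (.col (nat_lit 2)) (.slot (nat_lit 1)) (.slot (nat_lit 1)))) (.col (nat_lit 2)) (.col (nat_lit 4)) (.col (nat_lit 0))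
def w14817 : Root := .mk (.node (.node (.col (nat_lit 3)) (.node (.col (nat_lit 2)) (.slot (nat_lit 1)) (.slot (nat_lit 1))) (.node (.col (nat_lit 3)) (.slot (nat_lit 0)) (.slot (nat_lit 0)))) (.col (nat_lit 2)) (.node (.col (nat_lit 2)) (.slot (nat_lit 0)) (.slot (nat_lit 0)))) (.col (nat_lit 2)) (.slot (nat_lit 0)) (.col (nat_lit 0))
def w14818 : Root := .mk (.node (.node (.col (nat_lit 3)) (.node (.col (nat_lit 2)) (.slot (nat_lit 0)) (.slot (nat_lit 0))) (.node (.col (nat_lit 3)) (.slot (nat_lit 0)) (.slot (nat_lit 0)))) (.node (.col (nat_lit 1)) (.col (nat_lit 0)) (.slot (nat_lit 1))) (.col (nat_lit 0))) (.col (nat_lit 2)) (.node (.col (nat_lit 3)) (.slot (nat_lit 1)) .junk) (.col (nat_lit 0))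
def w14819 : Root := .mk (.node (.node (.col (nat_lit 3)) (.slot (nat_lit 0)) (.slot (nat_lit 0))) (.node (.col (nat_lit 1)) (.col (nat_lit 0)) (.slot (nat_lit 0))) (.node (.col (nat_lit 2)) (.slot (nat_lit 1)) (.slot (nat_lit 1)))) (.col (nat_lit 2)) (.node (.col (nat_lit 3)) (.node (.col (nat_lit 3)) (.slot (nat_lit 0)) (.slot (nat_lit 0))) (.slot (nat_lit 1))) (.col (nat_lit 0))
def w14820 : Root := .mk (.col (nat_lit 3)) (.node (.node (.col (nat_lit 1)) (.col (nat_lit 0)) (.slot (nat_lit 0))) (.node (.col (nat_lit 2)) (.node (.col (nat_lit 3)) (.slot (nat_lit 1)) (.slot (nat_lit 1))) (.col (nat_lit 0))) (.node (.col (nat_lit 2)) (.slot (nat_lit 1)) (.slot (nat_lit 0)))) (.col (nat_lit 1)) (.slot (nat_lit 0))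
def w14821 : Root := .mk (.col (nat_lit 3)) (.node (.node (.col (nat_lit 1)) (.col (nat_lit 0)) (.slot (nat_lit 0))) (.node (.col (nat_lit 2)) (.node (.col (nat_lit 3)) (.slot (nat_lit 3)) (.slot (nat_lit 3))) (.col (nat_lit 0))) (.node (.col (nat_lit 2)) (.slot (nat_lit 1)) (.slot (nat_lit 0)))) (.slot (nat_lit 0)) (.col (nat_lit 2))
def w14822 : Root := .mk (.node (.node (.col (nat_lit 3)) (.slot (nat_lit 0)) (.slot (nat_lit 0))) (.node (.col (nat_lit 2)) (.node (.col (nat_lit 3)) (.slot (nat_lit 1)) (.slot (nat_lit 1))) (.col (nat_lit 0))) (.node (.col (nat_lit 2)) (.slot (nat_lit 0)) (.slot (nat_lit 0)))) (.col (nat_lit 1)) (.col (nat_lit 0)) (.col (nat_lit 3))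
def w14823 : Root := .mk (.node (.node (.col (nat_lit 3)) (.slot (nat_lit 0)) (.slot (nat_lit 0))) (.node (.col (nat_lit 2)) (.node (.col (nat_lit 3)) (.slot (nat_lit 1)) (.slot (nat_lit 1))) (.col (nat_lit 0))) (.node (.col (nat_lit 2)) (.slot (nat_lit 0)) (.slot (nat_lit 0)))) (.col (nat_lit 1)) (.col (nat_lit 0)) (.col (nat_lit 4))
def w14824 : Root := .mk (.node (.node (.col (nat_lit 3)) (.slot (nat_lit 0)) (.slot (nat_lit 0))) (.node (.col (nat_lit 2)) (.node (.col (nat_lit 3)) (.slot (nat_lit 4)) (.slot (nat_lit 4))) (.col (nat_lit 0))) (.node (.col (nat_lit 2)) (.slot (nat_lit 0)) (.slot (nat_lit 0)))) (.col (nat_lit 1)) (.col (nat_lit 0)) (.slot (nat_lit 0))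
def w14825 : Root := .mk (.node (.node (.col (nat_lit 3)) (.slot (nat_lit 0)) (.slot (nat_lit 0))) (.node (.col (nat_lit 1)) (.col (nat_lit 0)) (.slot (nat_lit 1))) (.node (.col (nat_lit 2)) (.col (nat_lit 1)) (.slot (nat_lit 0)))) (.col (nat_lit 2)) (.node (.col (nat_lit 3)) (.slot (nat_lit 1)) (.slot (nat_lit 1))) (.col (nat_lit 0))
def w14826 : Root := .mk (.node (.node (.col (nat_lit 3)) (.slot (nat_lit 0)) (.slot (nat_lit 0))) (.node (.col (nat_lit 1)) (.col (nat_lit 0)) (.slot (nat_lit 0))) (.node (.col (nat_lit 2)) (.col (nat_lit 3)) (.slot (nat_lit 0)))) (.col (nat_lit 2)) (.node (.col (nat_lit 3)) (.slot (nat_lit 1)) (.slot (nat_lit 2))) (.col (nat_lit 0))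
def w14827 : Root := .mk (.node (.node (.col (nat_lit 3)) (.slot (nat_lit 0)) (.slot (nat_lit 0))) (.node (.col (nat_lit 1)) (.col (nat_lit 0)) (.slot (nat_lit 1))) (.node (.col (nat_lit 2)) (.col (nat_lit 4)) (.slot (nat_lit 0)))) (.col (nat_lit 2)) (.node (.col (nat_lit 3)) (.slot (nat_lit 1)) (.slot (nat_lit 1))) (.col (nat_lit 0))
def l3268 : Root := .mk (.node (.node (.col (nat_lit 3)) (.node (.col (nat_lit 2)) (.slot (nat_lit 1)) (.slot (nat_lit 1))) (.node (.col (nat_lit 3)) (.slot (nat_lit 0)) (.slot (nat_lit 0)))) (.node (.col (nat_lit 1)) (.col (nat_lit 0)) (.slot (nat_lit 2))) (.node (.col (nat_lit 2)) (.slot (nat_lit 1)) (.slot (nat_lit 1)))) (.col (nat_lit 2)) (.node (.col (nat_lit 3)) (.slot (nat_lit 5)) (.slot (nat_lit 5))) (.col (nat_lit 0))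
def w14828 : Root := .mk (.col (nat_lit 3)) (.node (.node (.col (nat_lit 1)) (.col (nat_lit 0)) (.slot (nat_lit 2))) (.node (.col (nat_lit 2)) (.node (.col (nat_lit 3)) (.slot (nat_lit 5)) (.slot (nat_lit 5))) (.node (.col (nat_lit 2)) (.slot (nat_lit 0)) (.slot (nat_lit 0)))) (.node (.col (nat_lit 2)) (.slot (nat_lit 1)) (.slot (nat_lit 1)))) (.node (.col (nat_lit 2)) (.slot (nat_lit 1)) (.slot (nat_lit 1))) (.node (.col (nat_lit 3)) (.slot (nat_lit 0)) (.slot (nat_lit 0)))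
def w14829 : Root := .mk (.col (nat_lit 3)) (.node (.node (.col (nat_lit 1)) (.col (nat_lit 0)) (.slot (nat_lit 0))) (.node (.col (nat_lit 2)) (.node (.col (nat_lit 3)) (.slot (nat_lit 1)) (.slot (nat_lit 0))) (.node (.col (nat_lit 2)) (.slot (nat_lit 0)) (.slot (nat_lit 0)))) (.node (.col (nat_lit 2)) (.slot (nat_lit 2)) (.slot (nat_lit 2)))) (.node (.col (nat_lit 2)) (.slot (nat_lit 1)) (.slot (nat_lit 1))) (.node (.col (nat_lit 4)) (.slot (nat_lit 1)) (.slot (nat_lit 0)))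
def l3269 : Root := .mk (.node (.node (.col (nat_lit 3)) (.node (.col (nat_lit 2)) (.slot (nat_lit 1)) (.slot (nat_lit 2))) (.node (.slot (nat_lit 0)) (.slot (nat_lit 0)) (.slot (nat_lit 0)))) (.node (.col (nat_lit 1)) (.col (nat_lit 0)) (.slot (nat_lit 3))) (.node (.col (nat_lit 2)) (.slot (nat_lit 1)) (.slot (nat_lit 1)))) (.col (nat_lit 2)) (.node (.col (nat_lit 3)) (.slot (nat_lit 5)) (.slot (nat_lit 5))) (.col (nat_lit 0))
def w14830 : Root := .mk (.col (nat_lit 3)) (.node (.node (.col (nat_lit 1)) (.col (nat_lit 0)) (.slot (nat_lit 3))) (.node (.col (nat_lit 2)) (.node (.col (nat_lit 3)) (.slot (nat_lit 5)) (.slot (nat_lit 5))) (.node (.col (nat_lit 2)) (.slot (nat_lit 0)) (.slot (nat_lit 0)))) (.node (.col (nat_lit 2)) (.slot (nat_lit 1)) (.slot (nat_lit 1)))) (.node (.col (nat_lit 2)) (.slot (nat_lit 2)) (.slot (nat_lit 1))) (.node (.slot (nat_lit 0)) (.slot (nat_lit 0)) (.slot (nat_lit 0)))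
def w14831 : Root := .mk (.node (.col (nat_lit 3)) (.node (.col (nat_lit 2)) (.slot (nat_lit 1)) (.slot (nat_lit 1))) (.slot (nat_lit 2))) (.node (.col (nat_lit 1)) (.col (nat_lit 0)) (.slot (nat_lit 1))) (.node (.col (nat_lit 2)) (.node (.col (nat_lit 3)) (.slot (nat_lit 0)) (.slot (nat_lit 0))) (.node (.col (nat_lit 2)) (.slot (nat_lit 0)) (.slot (nat_lit 0)))) (.col (nat_lit 0))
def w14832 : Root := .mk (.node (.node (.col (nat_lit 3)) (.node (.col (nat_lit 2)) (.col (nat_lit 3)) (.slot (nat_lit 1))) (.slot (nat_lit 1))) (.col (nat_lit 2)) (.node (.col (nat_lit 2)) (.slot (nat_lit 0)) (.slot (nat_lit 0)))) (.col (nat_lit 2)) (.node (.col (nat_lit 3)) (.slot (nat_lit 1)) .junk) (.col (nat_lit 0))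
def w14833 : Root := .mk (.node (.node (.col (nat_lit 3)) (.node (.col (nat_lit 2)) (.col (nat_lit 3)) (.slot (nat_lit 0))) (.slot (nat_lit 1))) (.node (.col (nat_lit 1)) (.col (nat_lit 0)) (.slot (nat_lit 1))) (.col (nat_lit 0))) (.col (nat_lit 2)) (.node (.col (nat_lit 3)) (.slot (nat_lit 1)) .junk) (.col (nat_lit 0))
def l3270 : Root := .mk (.node (.node (.col (nat_lit 3)) (.node (.col (nat_lit 2)) (.col (nat_lit 3)) (.slot (nat_lit 1))) (.slot (nat_lit 1))) (.node (.col (nat_lit 1)) (.col (nat_lit 0)) (.slot (nat_lit 3))) (.node (.col (nat_lit 2)) (.slot (nat_lit 1)) (.slot (nat_lit 1)))) (.col (nat_lit 2)) (.node (.col (nat_lit 3)) (.slot (nat_lit 5)) (.slot (nat_lit 5))) (.col (nat_lit 0))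
def w14834 : Root := .mk (.node (.col (nat_lit 3)) (.node (.node (.col (nat_lit 1)) (.col (nat_lit 0)) (.slot (nat_lit 3))) (.node (.col (nat_lit 2)) (.node (.col (nat_lit 3)) (.slot (nat_lit 5)) (.slot (nat_lit 5))) (.node (.col (nat_lit 2)) (.slot (nat_lit 0)) (.slot (nat_lit 0)))) (.node (.col (nat_lit 2)) (.slot (nat_lit 1)) (.slot (nat_lit 1)))) (.slot (nat_lit 1))) (.col (nat_lit 2)) (.col (nat_lit 3)) (.slot (nat_lit 1))
def w14835 : Root := .mk (.node (.node (.col (nat_lit 3)) (.node (.col (nat_lit 2)) (.node (.col (nat_lit 2)) (.slot (nat_lit 0)) (.slot (nat_lit 0))) (.slot (nat_lit 2))) (.slot (nat_lit 2))) (.node (.col (nat_lit 2)) (.node (.col (nat_lit 3)) (.slot (nat_lit 1)) (.slot (nat_lit 0))) (.node (.col (nat_lit 2)) (.slot (nat_lit 0)) (.slot (nat_lit 0)))) (.node (.col (nat_lit 2)) (.slot (nat_lit 2)) (.slot (nat_lit 2)))) (.col (nat_lit 1)) (.col (nat_lit 0)) (.slot (nat_lit 0))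
def w14836 : Root := .mk (.node (.col (nat_lit 0)) (.node (.col (nat_lit 2)) (.node (.col (nat_lit 3)) (.slot (nat_lit 1)) (.slot (nat_lit 0))) (.node (.col (nat_lit 2)) (.slot (nat_lit 0)) (.slot (nat_lit 0)))) (.node (.col (nat_lit 2)) (.slot (nat_lit 2)) (.slot (nat_lit 2)))) (.col (nat_lit 1)) (.col (nat_lit 0)) (.col (nat_lit 3))
def w14837 : Root := .mk (.node (.node (.col (nat_lit 3)) (.node (.col (nat_lit 2)) (.slot (nat_lit 1)) (.slot (nat_lit 1))) (.slot (nat_lit 2))) (.node (.col (nat_lit 2)) (.node (.col (nat_lit 3)) (.slot (nat_lit 1)) (.slot (nat_lit 0))) (.node (.col (nat_lit 2)) (.slot (nat_lit 0)) (.slot (nat_lit 0)))) (.node (.col (nat_lit 2)) (.slot (nat_lit 2)) (.slot (nat_lit 2)))) (.col (nat_lit 1)) (.col (nat_lit 0)) (.col (nat_lit 3))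
def w14838 : Root := .mk (.node (.col (nat_lit 0)) (.node (.col (nat_lit 2)) (.node (.col (nat_lit 3)) (.slot (nat_lit 0)) (.slot (nat_lit 0))) (.node (.col (nat_lit 2)) (.slot (nat_lit 0)) (.slot (nat_lit 0)))) (.node (.col (nat_lit 2)) (.slot (nat_lit 4)) (.slot (nat_lit 4)))) (.col (nat_lit 1)) (.col (nat_lit 0)) (.col (nat_lit 4))
def w14839 : Root := .mk (.node (.node (.col (nat_lit 3)) (.node (.col (nat_lit 2)) (.slot (nat_lit 1)) (.slot (nat_lit 1))) (.slot (nat_lit 2))) (.node (.col (nat_lit 2)) (.node (.col (nat_lit 3)) (.slot (nat_lit 0)) (.slot (nat_lit 0))) (.node (.col (nat_lit 2)) (.slot (nat_lit 0)) (.slot (nat_lit 0)))) (.node (.col (nat_lit 2)) (.slot (nat_lit 4)) (.slot (nat_lit 4)))) (.col (nat_lit 1)) (.col (nat_lit 0)) (.col (nat_lit 4))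
def w14840 : Root := .mk (.node (.node (.col (nat_lit 3)) (.node (.col (nat_lit 2)) (.slot (nat_lit 1)) (.slot (nat_lit 1))) (.slot (nat_lit 2))) (.node (.col (nat_lit 1)) (.col (nat_lit 0)) (.slot (nat_lit 0))) (.node (.col (nat_lit 2)) (.slot (nat_lit 1)) (.slot (nat_lit 0)))) (.col (nat_lit 2)) (.col (nat_lit 0)) (.node (.col (nat_lit 2)) (.slot (nat_lit 0)) (.slot (nat_lit 0)))
def w14841 : Root := .mk (.node (.node (.col (nat_lit 3)) (.node (.col (nat_lit 2)) (.slot (nat_lit 1)) (.slot (nat_lit 1))) (.slot (nat_lit 2))) (.node (.col (nat_lit 1)) (.col (nat_lit 0)) (.slot (nat_lit 0))) (.node (.col (nat_lit 2)) (.slot (nat_lit 1)) (.slot (nat_lit 0)))) (.col (nat_lit 2)) (.col (nat_lit 4)) (.node (.col (nat_lit 2)) (.slot (nat_lit 0)) (.slot (nat_lit 0)))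
def w14842 : Root := .mk (.node (.node (.col (nat_lit 3)) (.node (.col (nat_lit 2)) (.slot (nat_lit 1)) (.slot (nat_lit 1))) (.slot (nat_lit 2))) (.node (.col (nat_lit 1)) (.col (nat_lit 0)) (.slot (nat_lit 0))) (.node (.col (nat_lit 2)) (.slot (nat_lit 1)) (.slot (nat_lit 0)))) (.col (nat_lit 2)) (.node (.col (nat_lit 3)) (.slot (nat_lit 0)) (.slot (nat_lit 0))) (.col (nat_lit 3))
def w14843 : Root := .mk (.node (.node (.col (nat_lit 3)) (.node (.col (nat_lit 2)) (.slot (nat_lit 1)) (.slot (nat_lit 1))) (.slot (nat_lit 2))) (.node (.col (nat_lit 1)) (.col (nat_lit 0)) (.slot (nat_lit 1))) (.node (.col (nat_lit 2)) (.slot (nat_lit 0)) (.slot (nat_lit 0)))) (.col (nat_lit 2)) (.col (nat_lit 0)) (.slot (nat_lit 1))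
def w14844 : Root := .mk (.node (.node (.col (nat_lit 3)) (.node (.col (nat_lit 2)) (.slot (nat_lit 1)) (.slot (nat_lit 1))) (.slot (nat_lit 2))) (.node (.col (nat_lit 1)) (.col (nat_lit 0)) (.slot (nat_lit 0))) (.node (.col (nat_lit 2)) (.slot (nat_lit 0)) (.node (.col (nat_lit 2)) (.slot (nat_lit 0)) (.slot (nat_lit 0))))) (.col (nat_lit 2)) (.col (nat_lit 3)) (.slot (nat_lit 1))
def w14845 : Root := .mk (.node (.node (.col (nat_lit 3)) (.node (.col (nat_lit 2)) (.slot (nat_lit 1)) (.slot (nat_lit 1))) (.slot (nat_lit 2))) (.node (.col (nat_lit 1)) (.col (nat_lit 0)) (.slot (nat_lit 0))) (.node (.col (nat_lit 2)) (.slot (nat_lit 0)) (.node (.col (nat_lit 2)) (.slot (nat_lit 0)) (.slot (nat_lit 0))))) (.col (nat_lit 2)) (.col (nat_lit 4)) (.slot (nat_lit 1))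
def w14846 : Root := .mk (.node (.node (.col (nat_lit 3)) (.node (.col (nat_lit 2)) (.slot (nat_lit 1)) (.slot (nat_lit 1))) (.slot (nat_lit 2))) (.slot (nat_lit 0)) (.node (.col (nat_lit 2)) (.node (.col (nat_lit 0)) (.slot (nat_lit 1)) (.slot (nat_lit 1))) (.slot (nat_lit 2)))) (.col (nat_lit 1)) (.col (nat_lit 0)) (.slot (nat_lit 3))
def w14847 : Root := .mk (.col (nat_lit 0)) (.node (.col (nat_lit 1)) (.col (nat_lit 0)) (.slot (nat_lit 0))) (.node (.col (nat_lit 2)) (.node (.col (nat_lit 3)) (.slot (nat_lit 1)) (.slot (nat_lit 0))) (.node (.col (nat_lit 2)) (.slot (nat_lit 0)) (.slot (nat_lit 0)))) (.node (.col (nat_lit 2)) (.node (.col (nat_lit 2)) (.slot (nat_lit 0)) (.slot (nat_lit 0))) (.slot (nat_lit 2)))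
def w14848 : Root := .mk (.node (.node (.col (nat_lit 3)) (.node (.col (nat_lit 2)) (.slot (nat_lit 1)) (.slot (nat_lit 1))) (.slot (nat_lit 2))) (.node (.col (nat_lit 2)) (.node (.col (nat_lit 3)) (.slot (nat_lit 1)) (.slot (nat_lit 0))) (.node (.col (nat_lit 2)) (.slot (nat_lit 0)) (.slot (nat_lit 0)))) (.node (.col (nat_lit 2)) (.node (.col (nat_lit 2)) (.slot (nat_lit 0)) (.slot (nat_lit 0))) (.slot (nat_lit 2)))) (.col (nat_lit 1)) (.col (nat_lit 0)) (.slot (nat_lit 0))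
def w14849 : Root := .mk (.node (.node (.col (nat_lit 3)) (.node (.col (nat_lit 2)) (.slot (nat_lit 1)) (.slot (nat_lit 1))) (.slot (nat_lit 2))) (.slot (nat_lit 0)) (.node (.col (nat_lit 2)) (.node (.col (nat_lit 4)) (.slot (nat_lit 1)) (.slot (nat_lit 1))) (.slot (nat_lit 2)))) (.col (nat_lit 1)) (.col (nat_lit 0)) (.slot (nat_lit 3))
def w14850 : Root := .mk (.node (.node (.col (nat_lit 3)) (.slot (nat_lit 0)) (.slot (nat_lit 0))) (.node (.col (nat_lit 1)) (.col (nat_lit 0)) (.slot (nat_lit 4))) (.node (.col (nat_lit 2)) (.slot (nat_lit 1)) (.slot (nat_lit 0)))) (.col (nat_lit 2)) (.node (.col (nat_lit 3)) (.col (nat_lit 0)) .junk) (.node (.col (nat_lit 2)) (.slot (nat_lit 0)) (.slot (nat_lit 0)))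
def w14851 : Root := .mk (.node (.node (.node (.col (nat_lit 3)) (.node (.col (nat_lit 2)) (.slot (nat_lit 1)) (.slot (nat_lit 1))) (.slot (nat_lit 2))) (.node (.col (nat_lit 1)) (.col (nat_lit 0)) (.slot (nat_lit 0))) (.node (.col (nat_lit 2)) (.slot (nat_lit 1)) (.slot (nat_lit 1)))) (.col (nat_lit 2)) (.node (.col (nat_lit 2)) (.slot (nat_lit 0)) (.slot (nat_lit 0)))) (.col (nat_lit 3)) (.col (nat_lit 2)) (.slot (nat_lit 0))
def l3271 : Root := .mk (.node (.node (.col (nat_lit 3)) (.slot (nat_lit 0)) (.slot (nat_lit 0))) (.node (.col (nat_lit 1)) (.col (nat_lit 0)) (.slot (nat_lit 0))) (.node (.col (nat_lit 2)) (.slot (nat_lit 0)) (.slot (nat_lit 0)))) (.col (nat_lit 2)) (.node (.col (nat_lit 3)) (.col (nat_lit 4)) (.slot (nat_lit 1))) (.col (nat_lit 0))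
def w14852 : Root := .mk (.node (.node (.node (.col (nat_lit 3)) (.slot (nat_lit 0)) (.slot (nat_lit 0))) (.node (.col (nat_lit 1)) (.col (nat_lit 0)) (.slot (nat_lit 0))) (.node (.col (nat_lit 2)) (.slot (nat_lit 0)) (.slot (nat_lit 0)))) (.col (nat_lit 2)) (.node (.col (nat_lit 2)) (.slot (nat_lit 0)) (.slot (nat_lit 0)))) (.col (nat_lit 3)) (.col (nat_lit 4)) (.slot (nat_lit 1))
def w14853 : Root := .mk (.node (.node (.node (.col (nat_lit 3)) (.slot (nat_lit 0)) (.slot (nat_lit 0))) (.node (.col (nat_lit 1)) (.col (nat_lit 0)) (.slot (nat_lit 4))) (.node (.col (nat_lit 2)) (.slot (nat_lit 1)) (.slot (nat_lit 0)))) (.col (nat_lit 2)) (.node (.col (nat_lit 3)) (.slot (nat_lit 1)) (.slot (nat_lit 1)))) (.col (nat_lit 2)) (.col (nat_lit 0)) (.slot (nat_lit 1))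
def w14854 : Root := .mk (.col (nat_lit 4)) (.node (.col (nat_lit 1)) (.col (nat_lit 0)) (.slot (nat_lit 0))) (.node (.col (nat_lit 2)) (.node (.col (nat_lit 3)) (.slot (nat_lit 1)) (.slot (nat_lit 0))) (.node (.col (nat_lit 2)) (.col (nat_lit 4)) (.slot (nat_lit 0)))) (.node (.col (nat_lit 2)) (.slot (nat_lit 2)) (.slot (nat_lit 2)))
def w14855 : Root := .mk (.node (.node (.node (.col (nat_lit 3)) (.node (.col (nat_lit 2)) (.slot (nat_lit 1)) (.slot (nat_lit 1))) (.slot (nat_lit 2))) (.node (.col (nat_lit 1)) (.col (nat_lit 0)) (.slot (nat_lit 0))) (.node (.col (nat_lit 2)) (.slot (nat_lit 2)) (.slot (nat_lit 2)))) (.col (nat_lit 2)) (.node (.col (nat_lit 3)) (.slot (nat_lit 1)) (.slot (nat_lit 0)))) (.col (nat_lit 2)) (.col (nat_lit 4)) (.slot (nat_lit 0))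
def l3272 : Root := .mk (.node (.node (.col (nat_lit 3)) (.node (.col (nat_lit 2)) (.slot (nat_lit 8)) (.slot (nat_lit 8))) (.slot (nat_lit 3))) (.node (.col (nat_lit 2)) (.node (.col (nat_lit 3)) (.slot (nat_lit 7)) (.slot (nat_lit 5))) (.node (.col (nat_lit 2)) (.slot (nat_lit 2)) (.slot (nat_lit 2)))) (.node (.col (nat_lit 2)) (.slot (nat_lit 4)) (.slot (nat_lit 4)))) (.col (nat_lit 1)) (.col (nat_lit 0)) (.slot (nat_lit 6))
def w14856 : Root := .mk (.node (.node (.col (nat_lit 3)) (.slot (nat_lit 9)) (.slot (nat_lit 3))) (.node (.col (nat_lit 1)) (.col (nat_lit 0)) (.slot (nat_lit 6))) (.node (.col (nat_lit 2)) (.slot (nat_lit 4)) (.slot (nat_lit 4)))) (.col (nat_lit 2)) (.node (.col (nat_lit 3)) (.slot (nat_lit 7)) (.slot (nat_lit 5))) (.node (.col (nat_lit 2)) (.slot (nat_lit 2)) (.slot (nat_lit 2)))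
def w14857 : Root := .mk (.node (.node (.col (nat_lit 3)) (.slot (nat_lit 0)) (.slot (nat_lit 0))) (.node (.col (nat_lit 1)) (.col (nat_lit 0)) (.slot (nat_lit 0))) (.node (.col (nat_lit 2)) (.slot (nat_lit 1)) (.slot (nat_lit 1)))) (.col (nat_lit 2)) (.col (nat_lit 0)) (.node (.col (nat_lit 4)) (.col (nat_lit 0)) (.slot (nat_lit 5)))
def w14858 : Root := .mk (.node (.node (.col (nat_lit 3)) (.slot (nat_lit 1)) (.slot (nat_lit 1))) (.node (.col (nat_lit 1)) (.col (nat_lit 0)) (.slot (nat_lit 0))) (.node (.col (nat_lit 2)) (.slot (nat_lit 1)) (.slot (nat_lit 1)))) (.col (nat_lit 2)) (.col (nat_lit 0)) (.node (.col (nat_lit 4)) (.col (nat_lit 2)) (.slot (nat_lit 5)))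
def w14859 : Root := .mk (.node (.node (.col (nat_lit 3)) (.slot (nat_lit 0)) (.slot (nat_lit 0))) (.node (.col (nat_lit 1)) (.col (nat_lit 0)) (.slot (nat_lit 0))) (.node (.col (nat_lit 2)) (.slot (nat_lit 0)) (.slot (nat_lit 0)))) (.col (nat_lit 2)) (.col (nat_lit 0)) (.node (.col (nat_lit 4)) (.node (.col (nat_lit 4)) (.slot (nat_lit 0)) (.slot (nat_lit 0))) (.slot (nat_lit 1)))
def w14860 : Root := .mk (.node (.node (.col (nat_lit 3)) (.slot (nat_lit 0)) (.slot (nat_lit 0))) (.node (.col (nat_lit 1)) (.col (nat_lit 0)) (.slot (nat_lit 0))) (.node (.col (nat_lit 2)) (.slot (nat_lit 0)) (.slot (nat_lit 0)))) (.col (nat_lit 2)) (.col (nat_lit 0)) (.node (.col (nat_lit 4)) (.node (.slot (nat_lit 0)) (.slot (nat_lit 0)) (.slot (nat_lit 0))) (.slot (nat_lit 1)))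
def w14861 : Root := .mk (.node (.node (.col (nat_lit 3)) (.col (nat_lit 0)) (.slot (nat_lit 0))) (.node (.col (nat_lit 1)) (.col (nat_lit 0)) (.slot (nat_lit 1))) (.node (.col (nat_lit 2)) (.slot (nat_lit 0)) (.slot (nat_lit 0)))) (.col (nat_lit 2)) (.col (nat_lit 0)) (.node (.col (nat_lit 4)) (.slot (nat_lit 1)) (.slot (nat_lit 1)))
def w14862 : Root := .mk (.node (.node (.col (nat_lit 3)) (.col (nat_lit 1)) (.slot (nat_lit 0))) (.node (.col (nat_lit 1)) (.col (nat_lit 0)) (.slot (nat_lit 2))) (.node (.col (nat_lit 2)) (.slot (nat_lit 0)) (.slot (nat_lit 0)))) (.col (nat_lit 2)) (.col (nat_lit 0)) (.node (.col (nat_lit 4)) (.slot (nat_lit 1)) (.slot (nat_lit 1)))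
def w14863 : Root := .mk (.node (.node (.col (nat_lit 3)) (.col (nat_lit 2)) (.slot (nat_lit 1))) (.node (.col (nat_lit 1)) (.col (nat_lit 0)) (.slot (nat_lit 0))) (.node (.col (nat_lit 2)) (.slot (nat_lit 0)) (.slot (nat_lit 0)))) (.col (nat_lit 2)) (.col (nat_lit 0)) (.node (.col (nat_lit 4)) (.slot (nat_lit 1)) (.slot (nat_lit 1)))
def w14864 : Root := .mk (.node (.node (.col (nat_lit 3)) (.slot (nat_lit 0)) (.slot (nat_lit 0))) (.node (.col (nat_lit 2)) (.col (nat_lit 0)) (.node (.col (nat_lit 4)) (.slot (nat_lit 1)) (.slot (nat_lit 1)))) (.node (.col (nat_lit 2)) (.slot (nat_lit 0)) (.slot (nat_lit 0)))) (.col (nat_lit 1)) (.col (nat_lit 0)) (.col (nat_lit 3))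
def w14865 : Root := .mk (.node (.node (.col (nat_lit 3)) (.slot (nat_lit 0)) (.slot (nat_lit 0))) (.node (.col (nat_lit 2)) (.col (nat_lit 0)) (.node (.col (nat_lit 4)) (.slot (nat_lit 3)) (.slot (nat_lit 1)))) (.node (.col (nat_lit 2)) (.slot (nat_lit 0)) (.slot (nat_lit 0)))) (.col (nat_lit 1)) (.col (nat_lit 0)) (.col (nat_lit 4))
def w14866 : Root := .mk (.node (.node (.col (nat_lit 3)) (.slot (nat_lit 1)) (.slot (nat_lit 0))) (.node (.col (nat_lit 1)) (.col (nat_lit 0)) (.slot (nat_lit 0))) (.node (.col (nat_lit 2)) (.col (nat_lit 1)) (.slot (nat_lit 0)))) (.col (nat_lit 2)) (.col (nat_lit 0)) (.node (.col (nat_lit 4)) (.slot (nat_lit 1)) (.slot (nat_lit 1)))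
def w14867 : Root := .mk (.node (.node (.col (nat_lit 3)) (.slot (nat_lit 1)) (.slot (nat_lit 0))) (.node (.col (nat_lit 1)) (.col (nat_lit 0)) (.slot (nat_lit 0))) (.node (.col (nat_lit 2)) (.col (nat_lit 3)) (.slot (nat_lit 0)))) (.col (nat_lit 2)) (.col (nat_lit 0)) (.node (.col (nat_lit 4)) (.slot (nat_lit 1)) (.slot (nat_lit 1)))
def w14868 : Root := .mk (.node (.node (.col (nat_lit 3)) (.slot (nat_lit 1)) (.slot (nat_lit 0))) (.node (.col (nat_lit 1)) (.col (nat_lit 0)) (.slot (nat_lit 0))) (.node (.col (nat_lit 2)) (.col (nat_lit 4)) (.slot (nat_lit 0)))) (.col (nat_lit 2)) (.col (nat_lit 0)) (.node (.col (nat_lit 4)) (.slot (nat_lit 3)) (.slot (nat_lit 3)))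
def l3273 : Root := .mk (.node (.node (.col (nat_lit 3)) (.slot (nat_lit 2)) (.slot (nat_lit 1))) (.node (.col (nat_lit 1)) (.col (nat_lit 0)) (.slot (nat_lit 4))) (.node (.col (nat_lit 2)) (.slot (nat_lit 1)) (.slot (nat_lit 1)))) (.col (nat_lit 2)) (.col (nat_lit 0)) (.node (.col (nat_lit 4)) (.slot (nat_lit 5)) (.slot (nat_lit 5)))
def w14869 : Root := .mk (.node (.node (.col (nat_lit 3)) (.slot (nat_lit 2)) (.slot (nat_lit 1))) (.node (.col (nat_lit 1)) (.col (nat_lit 0)) (.slot (nat_lit 4))) (.node (.col (nat_lit 2)) (.slot (nat_lit 1)) (.slot (nat_lit 1)))) (.col (nat_lit 2)) (.node (.col (nat_lit 3)) (.slot (nat_lit 0)) (.slot (nat_lit 0))) (.node (.col (nat_lit 4)) (.slot (nat_lit 5)) (.slot (nat_lit 5)))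
def w14870 : Root := .mk (.node (.node (.col (nat_lit 3)) (.slot (nat_lit 0)) (.slot (nat_lit 0))) (.node (.col (nat_lit 1)) (.col (nat_lit 0)) (.slot (nat_lit 4))) (.node (.col (nat_lit 2)) (.slot (nat_lit 1)) (.slot (nat_lit 0)))) (.col (nat_lit 2)) (.node (.col (nat_lit 3)) (.slot (nat_lit 1)) (.slot (nat_lit 1))) (.node (.slot (nat_lit 0)) (.col (nat_lit 3)) (.slot (nat_lit 1)))
def l3274 : Root := .mk (.node (.col (nat_lit 4)) (.node (.col (nat_lit 2)) (.node (.col (nat_lit 3)) (.slot (nat_lit 0)) (.slot (nat_lit 0))) (.slot (nat_lit 0))) (.node (.col (nat_lit 2)) (.slot (nat_lit 1)) (.slot (nat_lit 1)))) (.col (nat_lit 1)) (.col (nat_lit 0)) (.col (nat_lit 2))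
def w14871 : Root := .mk (.node (.node (.col (nat_lit 3)) (.slot (nat_lit 0)) (.slot (nat_lit 0))) (.node (.col (nat_lit 2)) (.node (.col (nat_lit 3)) (.slot (nat_lit 0)) (.slot (nat_lit 0))) (.slot (nat_lit 0))) (.node (.col (nat_lit 2)) (.slot (nat_lit 1)) (.slot (nat_lit 1)))) (.col (nat_lit 1)) (.col (nat_lit 0)) (.col (nat_lit 2))
def w14873 : Root := .mk (.col (nat_lit 3)) (.node (.node (.col (nat_lit 1)) (.col (nat_lit 0)) (.slot (nat_lit 6))) (.node (.col (nat_lit 2)) (.node (.col (nat_lit 3)) (.slot (nat_lit 7)) (.slot (nat_lit 5))) (.node (.slot (nat_lit 0)) (.slot (nat_lit 0)) (.slot (nat_lit 0)))) (.node (.col (nat_lit 2)) (.slot (nat_lit 1)) (.slot (nat_lit 1)))) (.col (nat_lit 1)) (.slot (nat_lit 3))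
def w14874 : Root := .mk (.col (nat_lit 3)) (.node (.node (.col (nat_lit 1)) (.col (nat_lit 0)) (.slot (nat_lit 0))) (.node (.col (nat_lit 2)) (.slot (nat_lit 0)) (.node (.slot (nat_lit 0)) (.slot (nat_lit 0)) (.slot (nat_lit 0)))) (.node (.col (nat_lit 2)) (.slot (nat_lit 3)) (.slot (nat_lit 1)))) (.col (nat_lit 2)) (.slot (nat_lit 5))
def w14875 : Root := .mk (.col (nat_lit 3)) (.node (.node (.col (nat_lit 1)) (.col (nat_lit 0)) (.slot (nat_lit 6))) (.node (.col (nat_lit 2)) (.node (.col (nat_lit 3)) (.slot (nat_lit 5)) (.slot (nat_lit 5))) (.node (.slot (nat_lit 0)) (.slot (nat_lit 0)) (.slot (nat_lit 0)))) (.node (.col (nat_lit 2)) (.slot (nat_lit 3)) (.slot (nat_lit 3)))) (.col (nat_lit 4)) (.slot (nat_lit 3))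
def w14878 : Root := .mk (.node (.node (.col (nat_lit 3)) (.node (.col (nat_lit 2)) (.slot (nat_lit 1)) (.slot (nat_lit 1))) (.slot (nat_lit 2))) (.node (.col (nat_lit 2)) (.node (.col (nat_lit 3)) (.slot (nat_lit 1)) (.slot (nat_lit 0))) (.node (.slot (nat_lit 0)) (.slot (nat_lit 0)) (.slot (nat_lit 0)))) (.node (.col (nat_lit 2)) (.slot (nat_lit 2)) (.slot (nat_lit 2)))) (.col (nat_lit 1)) (.col (nat_lit 0)) (.slot (nat_lit 0))
def l3275 : Root := .mk (.col (nat_lit 3)) (.node (.col (nat_lit 4)) (.node (.col (nat_lit 2)) (.node (.col (nat_lit 3)) (.slot (nat_lit 0)) (.slot (nat_lit 0))) (.node (.slot (nat_lit 0)) (.slot (nat_lit 0)) (.slot (nat_lit 0)))) (.node (.col (nat_lit 2)) (.slot (nat_lit 3)) (.slot (nat_lit 1)))) (.node (.col (nat_lit 2)) (.slot (nat_lit 4)) (.slot (nat_lit 4))) (.col (nat_lit 2))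
def w14879 : Root := .mk (.col (nat_lit 3)) (.node (.node (.col (nat_lit 1)) (.col (nat_lit 0)) (.slot (nat_lit 0))) (.node (.col (nat_lit 2)) (.node (.col (nat_lit 3)) (.slot (nat_lit 0)) (.slot (nat_lit 0))) (.node (.slot (nat_lit 0)) (.slot (nat_lit 0)) (.slot (nat_lit 0)))) (.node (.col (nat_lit 2)) (.slot (nat_lit 3)) (.slot (nat_lit 1)))) (.node (.col (nat_lit 2)) (.slot (nat_lit 4)) (.slot (nat_lit 4))) (.col (nat_lit 2))
def w14880 : Root := .mk (.col (nat_lit 3)) (.node (.node (.col (nat_lit 1)) (.col (nat_lit 0)) (.slot (nat_lit 0))) (.node (.col (nat_lit 2)) (.node (.col (nat_lit 3)) (.slot (nat_lit 1)) (.slot (nat_lit 0))) (.node (.slot (nat_lit 0)) (.slot (nat_lit 0)) (.slot (nat_lit 0)))) (.node (.col (nat_lit 2)) (.slot (nat_lit 2)) (.slot (nat_lit 2)))) (.node (.col (nat_lit 2)) (.slot (nat_lit 1)) (.slot (nat_lit 1))) (.node (.col (nat_lit 0)) (.slot (nat_lit 1)) (.slot (nat_lit 0)))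
def w14881 : Root := .mk (.col (nat_lit 3)) (.node (.node (.col (nat_lit 1)) (.col (nat_lit 0)) (.slot (nat_lit 2))) (.node (.col (nat_lit 2)) (.node (.col (nat_lit 3)) (.slot (nat_lit 5)) (.slot (nat_lit 5))) (.node (.slot (nat_lit 0)) (.slot (nat_lit 0)) (.slot (nat_lit 0)))) (.node (.col (nat_lit 2)) (.slot (nat_lit 1)) (.slot (nat_lit 1)))) (.node (.col (nat_lit 2)) (.slot (nat_lit 1)) (.slot (nat_lit 1))) (.node (.col (nat_lit 3)) (.slot (nat_lit 0)) (.slot (nat_lit 0)))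
def w14882 : Root := .mk (.col (nat_lit 3)) (.node (.node (.col (nat_lit 1)) (.col (nat_lit 0)) (.slot (nat_lit 0))) (.node (.col (nat_lit 2)) (.node (.col (nat_lit 3)) (.slot (nat_lit 1)) (.slot (nat_lit 0))) (.node (.slot (nat_lit 0)) (.slot (nat_lit 0)) (.slot (nat_lit 0)))) (.node (.col (nat_lit 2)) (.slot (nat_lit 2)) (.slot (nat_lit 2)))) (.node (.col (nat_lit 2)) (.slot (nat_lit 1)) (.slot (nat_lit 1))) (.node (.col (nat_lit 4)) (.slot (nat_lit 1)) (.slot (nat_lit 0)))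
def w14883 : Root := .mk (.col (nat_lit 3)) (.node (.node (.col (nat_lit 1)) (.col (nat_lit 0)) (.slot (nat_lit 3))) (.node (.col (nat_lit 2)) (.node (.col (nat_lit 3)) (.slot (nat_lit 5)) (.slot (nat_lit 5))) (.node (.slot (nat_lit 0)) (.slot (nat_lit 0)) (.slot (nat_lit 0)))) (.node (.col (nat_lit 2)) (.slot (nat_lit 1)) (.slot (nat_lit 1)))) (.node (.col (nat_lit 2)) (.slot (nat_lit 2)) (.slot (nat_lit 1))) (.node (.slot (nat_lit 0)) (.slot (nat_lit 0)) (.slot (nat_lit 0)))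
def w14884 : Root := .mk (.node (.col (nat_lit 3)) (.node (.col (nat_lit 2)) (.slot (nat_lit 1)) (.slot (nat_lit 1))) (.slot (nat_lit 2))) (.node (.col (nat_lit 1)) (.col (nat_lit 0)) (.slot (nat_lit 1))) (.node (.col (nat_lit 2)) (.node (.col (nat_lit 3)) (.slot (nat_lit 0)) (.slot (nat_lit 0))) (.node (.slot (nat_lit 0)) (.slot (nat_lit 0)) (.slot (nat_lit 0)))) (.col (nat_lit 0))
def w14885 : Root := .mk (.node (.col (nat_lit 3)) (.node (.node (.col (nat_lit 1)) (.col (nat_lit 0)) (.slot (nat_lit 3))) (.node (.col (nat_lit 2)) (.node (.col (nat_lit 3)) (.slot (nat_lit 5)) (.slot (nat_lit 5))) (.node (.slot (nat_lit 0)) (.slot (nat_lit 0)) (.slot (nat_lit 0)))) (.node (.col (nat_lit 2)) (.slot (nat_lit 1)) (.slot (nat_lit 1)))) (.slot (nat_lit 1))) (.col (nat_lit 2)) (.col (nat_lit 3)) (.slot (nat_lit 1))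
def w14886 : Root := .mk (.node (.node (.col (nat_lit 3)) (.node (.col (nat_lit 2)) (.node (.col (nat_lit 2)) (.slot (nat_lit 0)) (.slot (nat_lit 0))) (.slot (nat_lit 2))) (.slot (nat_lit 2))) (.node (.col (nat_lit 2)) (.node (.col (nat_lit 3)) (.slot (nat_lit 1)) (.slot (nat_lit 0))) (.node (.slot (nat_lit 0)) (.slot (nat_lit 0)) (.slot (nat_lit 0)))) (.node (.col (nat_lit 2)) (.slot (nat_lit 2)) (.slot (nat_lit 2)))) (.col (nat_lit 1)) (.col (nat_lit 0)) (.slot (nat_lit 0))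
def w14887 : Root := .mk (.node (.node (.col (nat_lit 3)) (.node (.col (nat_lit 2)) (.slot (nat_lit 1)) (.slot (nat_lit 1))) (.slot (nat_lit 2))) (.node (.col (nat_lit 2)) (.node (.col (nat_lit 3)) (.slot (nat_lit 0)) (.slot (nat_lit 0))) (.node (.slot (nat_lit 0)) (.slot (nat_lit 0)) (.slot (nat_lit 0)))) (.node (.col (nat_lit 2)) (.slot (nat_lit 2)) (.slot (nat_lit 2)))) (.col (nat_lit 1)) (.col (nat_lit 0)) (.col (nat_lit 3))
def w14888 : Root := .mk (.node (.node (.col (nat_lit 3)) (.node (.col (nat_lit 2)) (.slot (nat_lit 1)) (.slot (nat_lit 1))) (.slot (nat_lit 2))) (.node (.col (nat_lit 2)) (.node (.col (nat_lit 3)) (.slot (nat_lit 1)) (.slot (nat_lit 0))) (.node (.slot (nat_lit 0)) (.slot (nat_lit 0)) (.slot (nat_lit 0)))) (.node (.col (nat_lit 2)) (.slot (nat_lit 2)) (.slot (nat_lit 2)))) (.col (nat_lit 1)) (.col (nat_lit 0)) (.col (nat_lit 4))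
def w14889 : Root := .mk (.node (.node (.col (nat_lit 3)) (.node (.col (nat_lit 2)) (.slot (nat_lit 1)) (.slot (nat_lit 1))) (.slot (nat_lit 2))) (.node (.col (nat_lit 1)) (.col (nat_lit 0)) (.slot (nat_lit 0))) (.node (.col (nat_lit 2)) (.slot (nat_lit 1)) (.slot (nat_lit 0)))) (.col (nat_lit 2)) (.col (nat_lit 4)) (.node (.slot (nat_lit 0)) (.slot (nat_lit 0)) (.slot (nat_lit 0)))
def w14890 : Root := .mk (.node (.node (.col (nat_lit 3)) (.node (.col (nat_lit 2)) (.slot (nat_lit 1)) (.slot (nat_lit 1))) (.slot (nat_lit 2))) (.node (.col (nat_lit 1)) (.col (nat_lit 0)) (.slot (nat_lit 0))) (.node (.col (nat_lit 2)) (.slot (nat_lit 0)) (.node (.slot (nat_lit 0)) (.slot (nat_lit 0)) (.slot (nat_lit 0))))) (.col (nat_lit 2)) (.col (nat_lit 3)) (.slot (nat_lit 1))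
def w14891 : Root := .mk (.col (nat_lit 0)) (.node (.col (nat_lit 1)) (.col (nat_lit 0)) (.slot (nat_lit 0))) (.node (.col (nat_lit 2)) (.node (.col (nat_lit 3)) (.slot (nat_lit 0)) (.slot (nat_lit 0))) (.node (.slot (nat_lit 0)) (.slot (nat_lit 0)) (.slot (nat_lit 0)))) (.node (.col (nat_lit 2)) (.node (.col (nat_lit 2)) (.slot (nat_lit 0)) (.slot (nat_lit 0))) (.slot (nat_lit 2)))
def w14892 : Root := .mk (.node (.node (.col (nat_lit 3)) (.node (.col (nat_lit 2)) (.slot (nat_lit 1)) (.slot (nat_lit 1))) (.slot (nat_lit 2))) (.node (.col (nat_lit 2)) (.node (.col (nat_lit 3)) (.slot (nat_lit 0)) (.slot (nat_lit 0))) (.node (.slot (nat_lit 0)) (.slot (nat_lit 0)) (.slot (nat_lit 0)))) (.node (.col (nat_lit 2)) (.node (.col (nat_lit 2)) (.slot (nat_lit 0)) (.slot (nat_lit 0))) (.slot (nat_lit 2)))) (.col (nat_lit 1)) (.col (nat_lit 0)) (.slot (nat_lit 0))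
def w14893 : Root := .mk (.node (.node (.node (.col (nat_lit 3)) (.node (.col (nat_lit 2)) (.slot (nat_lit 1)) (.slot (nat_lit 1))) (.slot (nat_lit 2))) (.node (.col (nat_lit 1)) (.col (nat_lit 0)) (.slot (nat_lit 0))) (.node (.col (nat_lit 2)) (.slot (nat_lit 1)) (.slot (nat_lit 1)))) (.col (nat_lit 2)) (.node (.slot (nat_lit 0)) (.slot (nat_lit 0)) (.slot (nat_lit 0)))) (.col (nat_lit 3)) (.col (nat_lit 2)) (.slot (nat_lit 0))
def w14894 : Root := .mk (.node (.node (.col (nat_lit 3)) (.node (.col (nat_lit 2)) (.slot (nat_lit 1)) (.slot (nat_lit 1))) (.slot (nat_lit 2))) (.node (.col (nat_lit 1)) (.col (nat_lit 0)) (.slot (nat_lit 0))) (.node (.col (nat_lit 2)) (.slot (nat_lit 1)) (.slot (nat_lit 1)))) (.col (nat_lit 2)) (.node (.col (nat_lit 3)) (.slot (nat_lit 1)) (.slot (nat_lit 1))) (.node (.col (nat_lit 4)) (.slot (nat_lit 1)) (.slot (nat_lit 0)))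
def l3276 : Root := .mk (.node (.node (.col (nat_lit 3)) (.node (.col (nat_lit 2)) (.slot (nat_lit 8)) (.slot (nat_lit 8))) (.slot (nat_lit 3))) (.node (.col (nat_lit 2)) (.node (.col (nat_lit 3)) (.slot (nat_lit 7)) (.slot (nat_lit 5))) (.node (.slot (nat_lit 0)) (.slot (nat_lit 1)) (.slot (nat_lit 1)))) (.node (.col (nat_lit 2)) (.slot (nat_lit 3)) (.slot (nat_lit 3)))) (.col (nat_lit 1)) (.col (nat_lit 0)) (.slot (nat_lit 6))
def w14895 : Root := .mk (.node (.node (.col (nat_lit 3)) (.slot (nat_lit 9)) (.slot (nat_lit 3))) (.node (.col (nat_lit 1)) (.col (nat_lit 0)) (.slot (nat_lit 6))) (.node (.col (nat_lit 2)) (.slot (nat_lit 3)) (.slot (nat_lit 3)))) (.col (nat_lit 2)) (.node (.col (nat_lit 3)) (.slot (nat_lit 7)) (.slot (nat_lit 5))) (.node (.slot (nat_lit 0)) (.slot (nat_lit 1)) (.slot (nat_lit 1)))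
def w14896 : Root := .mk (.node (.node (.col (nat_lit 3)) (.slot (nat_lit 1)) (.slot (nat_lit 1))) (.col (nat_lit 2)) (.node (.col (nat_lit 2)) (.node (.col (nat_lit 3)) (.slot (nat_lit 1)) (.slot (nat_lit 1))) (.slot (nat_lit 2)))) (.col (nat_lit 2)) (.node (.col (nat_lit 3)) (.slot (nat_lit 0)) (.slot (nat_lit 0))) (.col (nat_lit 3))
def w14897 : Root := .mk (.node (.node (.col (nat_lit 3)) (.slot (nat_lit 1)) .junk) (.col (nat_lit 2)) (.node (.col (nat_lit 2)) (.node (.col (nat_lit 3)) (.slot (nat_lit 1)) (.slot (nat_lit 1))) (.slot (nat_lit 2)))) (.col (nat_lit 2)) (.node (.col (nat_lit 3)) (.slot (nat_lit 1)) (.slot (nat_lit 1))) (.node (.col (nat_lit 0)) (.slot (nat_lit 1)) (.slot (nat_lit 0)))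
def w14898 : Root := .mk (.node (.node (.col (nat_lit 3)) (.slot (nat_lit 1)) .junk) (.col (nat_lit 2)) (.node (.col (nat_lit 2)) (.node (.col (nat_lit 3)) (.slot (nat_lit 1)) (.slot (nat_lit 1))) (.slot (nat_lit 2)))) (.col (nat_lit 2)) (.node (.col (nat_lit 3)) (.slot (nat_lit 1)) (.slot (nat_lit 1))) (.node (.node (.col (nat_lit 0)) (.slot (nat_lit 0)) (.slot (nat_lit 0))) (.slot (nat_lit 1)) (.slot (nat_lit 1)))
def w14899 : Root := .mk (.node (.node (.col (nat_lit 3)) (.slot (nat_lit 1)) .junk) (.col (nat_lit 2)) (.node (.col (nat_lit 2)) (.node (.col (nat_lit 3)) (.slot (nat_lit 1)) (.slot (nat_lit 1))) (.slot (nat_lit 2)))) (.col (nat_lit 2)) (.node (.col (nat_lit 3)) (.slot (nat_lit 1)) (.slot (nat_lit 1))) (.node (.node (.col (nat_lit 3)) (.slot (nat_lit 0)) (.slot (nat_lit 0))) (.slot (nat_lit 2)) (.slot (nat_lit 1)))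
def w14900 : Root := .mk (.node (.col (nat_lit 3)) (.slot (nat_lit 1)) .junk) (.col (nat_lit 2)) (.node (.col (nat_lit 2)) (.node (.col (nat_lit 3)) (.slot (nat_lit 1)) (.slot (nat_lit 1))) (.slot (nat_lit 2))) (.node (.col (nat_lit 2)) (.node (.col (nat_lit 3)) (.node (.col (nat_lit 3)) (.slot (nat_lit 0)) (.slot (nat_lit 0))) (.slot (nat_lit 2))) (.slot (nat_lit 2)))
def l3277 : Root := .mk (.node (.col (nat_lit 3)) (.slot (nat_lit 1)) (.slot (nat_lit 1))) (.col (nat_lit 2)) (.node (.col (nat_lit 2)) (.node (.col (nat_lit 3)) (.slot (nat_lit 8)) (.slot (nat_lit 8))) (.slot (nat_lit 9))) (.node (.col (nat_lit 2)) (.node (.col (nat_lit 3)) (.slot (nat_lit 8)) (.slot (nat_lit 8))) (.slot (nat_lit 9)))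
def w14901 : Root := .mk (.node (.col (nat_lit 3)) (.slot (nat_lit 1)) (.slot (nat_lit 1))) (.col (nat_lit 2)) (.node (.col (nat_lit 2)) (.node (.col (nat_lit 3)) (.slot (nat_lit 8)) (.slot (nat_lit 8))) (.slot (nat_lit 9))) (.node (.col (nat_lit 2)) (.slot (nat_lit 9)) (.slot (nat_lit 9)))
def l3278 : Root := .mk (.node (.node (.col (nat_lit 3)) (.slot (nat_lit 1)) (.slot (nat_lit 1))) (.node (.col (nat_lit 2)) (.node (.col (nat_lit 3)) (.col (nat_lit 2)) (.slot (nat_lit 4))) (.col (nat_lit 0))) (.col (nat_lit 3))) (.col (nat_lit 1)) (.col (nat_lit 0)) (.col (nat_lit 3))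
def w14902 : Root := .mk (.node (.node (.col (nat_lit 3)) (.slot (nat_lit 1)) (.slot (nat_lit 1))) (.node (.col (nat_lit 2)) (.node (.col (nat_lit 3)) (.col (nat_lit 2)) (.slot (nat_lit 4))) (.slot (nat_lit 1))) (.col (nat_lit 3))) (.col (nat_lit 1)) (.col (nat_lit 0)) (.col (nat_lit 3))
def w14903 : Root := .mk (.node (.node (.col (nat_lit 3)) (.slot (nat_lit 1)) (.slot (nat_lit 1))) (.node (.col (nat_lit 2)) (.node (.col (nat_lit 3)) (.col (nat_lit 2)) (.slot (nat_lit 5))) (.slot (nat_lit 1))) (.col (nat_lit 3))) (.col (nat_lit 1)) (.col (nat_lit 0)) (.slot (nat_lit 0))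
def l3279 : Root := .mk (.node (.node (.col (nat_lit 3)) (.slot (nat_lit 3)) (.slot (nat_lit 3))) (.node (.col (nat_lit 1)) (.col (nat_lit 0)) (.slot (nat_lit 3))) (.col (nat_lit 3))) (.col (nat_lit 2)) (.col (nat_lit 4)) (.node (.col (nat_lit 3)) (.slot (nat_lit 2)) (.slot (nat_lit 2)))
def w14904 : Root := .mk (.node (.node (.col (nat_lit 3)) (.slot (nat_lit 3)) (.slot (nat_lit 3))) (.node (.col (nat_lit 1)) (.col (nat_lit 0)) (.slot (nat_lit 3))) (.col (nat_lit 3))) (.col (nat_lit 2)) (.col (nat_lit 4)) (.slot (nat_lit 3))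
def w14905 : Root := .mk (.node (.node (.col (nat_lit 3)) (.slot (nat_lit 1)) (.slot (nat_lit 1))) (.node (.col (nat_lit 1)) (.col (nat_lit 0)) (.slot (nat_lit 0))) (.col (nat_lit 3))) (.col (nat_lit 2)) (.node (.col (nat_lit 3)) (.col (nat_lit 2)) (.slot (nat_lit 5))) (.node (.col (nat_lit 0)) (.slot (nat_lit 0)) (.slot (nat_lit 0)))
def w14906 : Root := .mk (.node (.node (.col (nat_lit 3)) (.slot (nat_lit 1)) (.slot (nat_lit 1))) (.node (.col (nat_lit 1)) (.col (nat_lit 0)) (.slot (nat_lit 0))) (.col (nat_lit 3))) (.col (nat_lit 2)) (.node (.col (nat_lit 3)) (.col (nat_lit 2)) (.slot (nat_lit 5))) (.node (.col (nat_lit 2)) (.slot (nat_lit 0)) (.slot (nat_lit 0)))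
def w14907 : Root := .mk (.node (.node (.col (nat_lit 3)) (.slot (nat_lit 1)) (.slot (nat_lit 1))) (.node (.col (nat_lit 1)) (.col (nat_lit 0)) (.slot (nat_lit 0))) (.col (nat_lit 3))) (.col (nat_lit 2)) (.node (.col (nat_lit 3)) (.col (nat_lit 2)) (.slot (nat_lit 5))) (.node (.col (nat_lit 4)) (.slot (nat_lit 0)) (.slot (nat_lit 0)))
def l3280 : Root := .mk (.node (.col (nat_lit 3)) (.slot (nat_lit 3)) (.slot (nat_lit 3))) (.node (.col (nat_lit 1)) (.col (nat_lit 0)) (.slot (nat_lit 4))) (.node (.col (nat_lit 2)) (.node (.col (nat_lit 3)) (.col (nat_lit 2)) (.slot (nat_lit 5))) (.slot (nat_lit 8))) (.col (nat_lit 3))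
def w14908 : Root := .mk (.node (.node (.node (.col (nat_lit 3)) (.slot (nat_lit 3)) (.slot (nat_lit 3))) (.node (.col (nat_lit 1)) (.col (nat_lit 0)) (.slot (nat_lit 4))) (.node (.col (nat_lit 2)) (.slot (nat_lit 0)) (.slot (nat_lit 0)))) (.col (nat_lit 2)) (.slot (nat_lit 8))) (.col (nat_lit 3)) (.col (nat_lit 2)) (.slot (nat_lit 5))
def w14909 : Root := .mk (.node (.node (.col (nat_lit 3)) (.slot (nat_lit 0)) (.slot (nat_lit 0))) (.node (.col (nat_lit 2)) (.node (.col (nat_lit 3)) (.node (.col (nat_lit 3)) (.slot (nat_lit 0)) (.slot (nat_lit 0))) (.slot (nat_lit 2))) (.slot (nat_lit 2))) (.node (.col (nat_lit 2)) (.slot (nat_lit 1)) (.slot (nat_lit 0)))) (.col (nat_lit 1)) (.col (nat_lit 0)) (.slot (nat_lit 4))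
def w14910 : Root := .mk (.col (nat_lit 3)) (.node (.node (.col (nat_lit 1)) (.col (nat_lit 0)) (.slot (nat_lit 6))) (.node (.col (nat_lit 2)) (.node (.col (nat_lit 3)) (.slot (nat_lit 7)) (.slot (nat_lit 5))) (.slot (nat_lit 1))) (.node (.col (nat_lit 2)) (.slot (nat_lit 1)) (.slot (nat_lit 1)))) (.col (nat_lit 0)) (.slot (nat_lit 3))
def w14911 : Root := .mk (.col (nat_lit 3)) (.node (.node (.col (nat_lit 1)) (.col (nat_lit 0)) (.slot (nat_lit 6))) (.node (.col (nat_lit 2)) (.node (.col (nat_lit 3)) (.slot (nat_lit 5)) (.slot (nat_lit 5))) (.slot (nat_lit 1))) (.node (.col (nat_lit 2)) (.slot (nat_lit 3)) (.slot (nat_lit 3)))) (.col (nat_lit 4)) (.slot (nat_lit 3))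
def w14912 : Root := .mk (.node (.node (.col (nat_lit 3)) (.slot (nat_lit 0)) (.slot (nat_lit 0))) (.node (.col (nat_lit 2)) (.node (.col (nat_lit 3)) (.slot (nat_lit 7)) (.slot (nat_lit 5))) (.slot (nat_lit 8))) (.node (.col (nat_lit 2)) (.slot (nat_lit 7)) (.slot (nat_lit 5)))) (.col (nat_lit 1)) (.col (nat_lit 0)) (.col (nat_lit 4))
def w14913 : Root := .mk (.node (.node (.col (nat_lit 3)) (.slot (nat_lit 0)) (.slot (nat_lit 0))) (.node (.col (nat_lit 2)) (.node (.col (nat_lit 3)) (.slot (nat_lit 7)) (.slot (nat_lit 5))) (.slot (nat_lit 8))) (.node (.col (nat_lit 2)) (.slot (nat_lit 7)) (.slot (nat_lit 5)))) (.col (nat_lit 1)) (.col (nat_lit 0)) (.slot (nat_lit 0))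
def w14914 : Root := .mk (.node (.node (.col (nat_lit 3)) (.slot (nat_lit 0)) (.slot (nat_lit 0))) (.node (.col (nat_lit 1)) (.col (nat_lit 0)) (.slot (nat_lit 1))) (.node (.col (nat_lit 2)) (.node (.col (nat_lit 3)) (.slot (nat_lit 1)) (.slot (nat_lit 1))) (.slot (nat_lit 2)))) (.col (nat_lit 2)) (.col (nat_lit 0)) (.slot (nat_lit 1))
def w14915 : Root := .mk (.node (.node (.col (nat_lit 3)) (.slot (nat_lit 1)) (.slot (nat_lit 0))) (.node (.col (nat_lit 1)) (.col (nat_lit 0)) (.slot (nat_lit 0))) (.node (.col (nat_lit 2)) (.node (.col (nat_lit 3)) (.slot (nat_lit 1)) (.slot (nat_lit 1))) (.slot (nat_lit 2)))) (.col (nat_lit 2)) (.col (nat_lit 3)) (.slot (nat_lit 1))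
def w14916 : Root := .mk (.node (.node (.col (nat_lit 3)) (.slot (nat_lit 3)) (.slot (nat_lit 3))) (.node (.col (nat_lit 1)) (.col (nat_lit 0)) (.slot (nat_lit 3))) (.node (.col (nat_lit 2)) (.node (.col (nat_lit 3)) (.slot (nat_lit 1)) (.slot (nat_lit 1))) (.slot (nat_lit 2)))) (.col (nat_lit 2)) (.col (nat_lit 4)) (.slot (nat_lit 4))
def l3281 : Root := .mk (.node (.node (.col (nat_lit 3)) (.slot (nat_lit 9)) (.slot (nat_lit 6))) (.node (.col (nat_lit 2)) (.node (.col (nat_lit 3)) (.slot (nat_lit 8)) (.slot (nat_lit 8))) (.slot (nat_lit 9))) (.node (.col (nat_lit 2)) (.slot (nat_lit 9)) (.slot (nat_lit 9)))) (.col (nat_lit 1)) (.col (nat_lit 0)) (.slot (nat_lit 6))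
def w14917 : Root := .mk (.node (.node (.col (nat_lit 3)) (.slot (nat_lit 9)) (.slot (nat_lit 6))) (.node (.col (nat_lit 2)) (.slot (nat_lit 9)) (.slot (nat_lit 9))) (.node (.col (nat_lit 2)) (.slot (nat_lit 9)) (.slot (nat_lit 9)))) (.col (nat_lit 1)) (.col (nat_lit 0)) (.slot (nat_lit 6))
def w14918 : Root := .mk (.node (.node (.node (.node (.node (.col (nat_lit 3)) (.slot (nat_lit 9)) (.slot (nat_lit 6))) (.node (.col (nat_lit 2)) (.slot (nat_lit 9)) (.slot (nat_lit 9))) (.node (.col (nat_lit 2)) (.slot (nat_lit 9)) (.slot (nat_lit 9)))) (.col (nat_lit 0)) (.slot (nat_lit 6))) (.col (nat_lit 0)) (.slot (nat_lit 3))) (.col (nat_lit 0)) (.slot (nat_lit 1))) (.col (nat_lit 0)) (.col (nat_lit 1)) (.slot (nat_lit 3))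
def w14919 : Root := .mk (.node (.node (.node (.node (.node (.col (nat_lit 3)) (.slot (nat_lit 3)) (.slot (nat_lit 1))) (.node (.col (nat_lit 2)) (.slot (nat_lit 3)) (.slot (nat_lit 1))) (.node (.col (nat_lit 4)) (.slot (nat_lit 7)) (.slot (nat_lit 5)))) (.col (nat_lit 0)) (.slot (nat_lit 2))) (.col (nat_lit 0)) (.slot (nat_lit 8))) (.col (nat_lit 0)) (.slot (nat_lit 8))) (.col (nat_lit 0)) (.col (nat_lit 1)) (.slot (nat_lit 2))
def w14920 : Root := .mk (.node (.node (.slot (nat_lit 0)) (.col (nat_lit 1)) (.slot (nat_lit 0))) (.col (nat_lit 0)) (.col (nat_lit 2))) (.col (nat_lit 0)) (.node (.node (.col (nat_lit 0)) (.col (nat_lit 1)) (.slot (nat_lit 1))) (.col (nat_lit 0)) (.col (nat_lit 2))) (.col (nat_lit 3))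
def w14921 : Root := .mk (.node (.slot (nat_lit 0)) (.col (nat_lit 1)) (.node (.slot (nat_lit 0)) (.slot (nat_lit 0)) (.slot (nat_lit 0)))) (.node (.col (nat_lit 0)) (.node (.node (.col (nat_lit 0)) (.col (nat_lit 1)) (.slot (nat_lit 1))) (.col (nat_lit 0)) (.col (nat_lit 2))) (.node (.col (nat_lit 3)) (.slot (nat_lit 0)) (.slot (nat_lit 0)))) (.col (nat_lit 0)) (.col (nat_lit 2))
def l3282 : Root := .mk (.node (.node (.node (.node (.node (.col (nat_lit 3)) (.slot (nat_lit 0)) (.slot (nat_lit 0))) (.col (nat_lit 1)) (.node (.slot (nat_lit 0)) (.slot (nat_lit 0)) (.slot (nat_lit 0)))) (.col (nat_lit 0)) (.col (nat_lit 2))) (.col (nat_lit 0)) (.col (nat_lit 1))) (.col (nat_lit 0)) (.col (nat_lit 2))) (.col (nat_lit 0)) (.col (nat_lit 1)) (.col (nat_lit 2))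
def w14922 : Root := .mk (.node (.node (.node (.node (.node (.col (nat_lit 3)) (.slot (nat_lit 0)) (.slot (nat_lit 0))) (.col (nat_lit 1)) (.node (.slot (nat_lit 0)) (.slot (nat_lit 0)) (.slot (nat_lit 0)))) (.col (nat_lit 0)) (.col (nat_lit 2))) (.col (nat_lit 0)) (.slot (nat_lit 1))) (.col (nat_lit 0)) (.col (nat_lit 2))) (.col (nat_lit 0)) (.col (nat_lit 1)) (.col (nat_lit 2))
def w14923 : Root := .mk (.node (.node (.node (.node (.slot (nat_lit 0)) (.col (nat_lit 1)) (.node (.slot (nat_lit 0)) (.slot (nat_lit 0)) (.slot (nat_lit 0)))) (.col (nat_lit 0)) (.col (nat_lit 2))) (.col (nat_lit 0)) (.slot (nat_lit 1))) (.col (nat_lit 0)) (.col (nat_lit 2))) (.col (nat_lit 0)) (.col (nat_lit 1)) (.node (.col (nat_lit 0)) (.slot (nat_lit 0)) (.slot (nat_lit 0)))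
def l3283 : Root := .mk (.node (.node (.node (.node (.col (nat_lit 3)) (.slot (nat_lit 0)) (.slot (nat_lit 0))) (.col (nat_lit 1)) (.node (.slot (nat_lit 0)) (.slot (nat_lit 0)) (.slot (nat_lit 0)))) (.col (nat_lit 0)) (.col (nat_lit 2))) (.col (nat_lit 0)) (.slot (nat_lit 3))) (.node (.col (nat_lit 0)) (.col (nat_lit 1)) (.slot (nat_lit 8))) (.col (nat_lit 0)) (.col (nat_lit 2))
def w14924 : Root := .mk (.node (.node (.col (nat_lit 3)) (.slot (nat_lit 0)) (.slot (nat_lit 0))) (.col (nat_lit 1)) (.node (.slot (nat_lit 0)) (.slot (nat_lit 0)) (.slot (nat_lit 0)))) (.node (.col (nat_lit 0)) (.node (.node (.col (nat_lit 0)) (.col (nat_lit 1)) (.slot (nat_lit 8))) (.col (nat_lit 0)) (.slot (nat_lit 1))) (.slot (nat_lit 3))) (.col (nat_lit 0)) (.col (nat_lit 2))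
def w14925 : Root := .mk (.node (.col (nat_lit 3)) (.slot (nat_lit 1)) (.slot (nat_lit 0))) (.node (.node (.col (nat_lit 0)) (.slot (nat_lit 0)) (.slot (nat_lit 0))) (.col (nat_lit 0)) (.node (.col (nat_lit 1)) (.slot (nat_lit 1)) (.slot (nat_lit 1)))) (.col (nat_lit 1)) (.node (.slot (nat_lit 0)) (.col (nat_lit 3)) (.slot (nat_lit 1)))
def w14927 : Root := .mk (.node (.node (.col (nat_lit 3)) (.slot (nat_lit 1)) (.slot (nat_lit 1))) (.node (.col (nat_lit 2)) (.col (nat_lit 0)) (.slot (nat_lit 1))) (.node (.slot (nat_lit 0)) (.slot (nat_lit 0)) (.slot (nat_lit 0)))) (.col (nat_lit 1)) (.col (nat_lit 0)) (.col (nat_lit 3))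
def w14928 : Root := .mk (.node (.node (.col (nat_lit 3)) (.slot (nat_lit 0)) (.slot (nat_lit 0))) (.node (.col (nat_lit 1)) (.col (nat_lit 0)) (.node (.col (nat_lit 4)) (.slot (nat_lit 1)) (.slot (nat_lit 1)))) (.node (.slot (nat_lit 0)) (.slot (nat_lit 0)) (.slot (nat_lit 0)))) (.col (nat_lit 2)) (.col (nat_lit 0)) (.col (nat_lit 3))
def w14929 : Root := .mk (.node (.node (.col (nat_lit 3)) (.slot (nat_lit 0)) (.slot (nat_lit 0))) (.node (.col (nat_lit 2)) (.col (nat_lit 0)) (.slot (nat_lit 0))) (.node (.slot (nat_lit 0)) (.col (nat_lit 1)) (.slot (nat_lit 0)))) (.col (nat_lit 1)) (.col (nat_lit 0)) (.node (.col (nat_lit 4)) (.slot (nat_lit 1)) (.slot (nat_lit 1)))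
def l3285 : Root := .mk (.node (.node (.col (nat_lit 3)) (.slot (nat_lit 1)) (.slot (nat_lit 1))) (.node (.col (nat_lit 2)) (.col (nat_lit 0)) (.slot (nat_lit 3))) (.node (.slot (nat_lit 0)) (.slot (nat_lit 1)) (.slot (nat_lit 1)))) (.col (nat_lit 1)) (.col (nat_lit 0)) (.node (.col (nat_lit 4)) (.slot (nat_lit 4)) (.slot (nat_lit 4)))
def w14930 : Root := .mk (.node (.node (.col (nat_lit 3)) (.slot (nat_lit 1)) (.slot (nat_lit 1))) (.node (.col (nat_lit 2)) (.col (nat_lit 0)) (.slot (nat_lit 3))) (.node (.slot (nat_lit 0)) (.slot (nat_lit 1)) (.slot (nat_lit 1)))) (.col (nat_lit 1)) (.col (nat_lit 0)) (.slot (nat_lit 5))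
def w14932 : Root := .mk (.node (.node (.col (nat_lit 3)) (.slot (nat_lit 0)) (.slot (nat_lit 0))) (.node (.node (.col (nat_lit 0)) (.col (nat_lit 1)) (.slot (nat_lit 1))) (.col (nat_lit 0)) (.slot (nat_lit 1))) (.node (.slot (nat_lit 0)) (.slot (nat_lit 0)) (.slot (nat_lit 0)))) (.col (nat_lit 2)) (.col (nat_lit 4)) (.col (nat_lit 0))
def l3287 : Root := .mk (.node (.col (nat_lit 1)) (.node (.node (.col (nat_lit 0)) (.col (nat_lit 1)) (.slot (nat_lit 5))) (.col (nat_lit 0)) (.slot (nat_lit 8))) (.node (.slot (nat_lit 0)) (.slot (nat_lit 0)) (.slot (nat_lit 0)))) (.col (nat_lit 2)) (.col (nat_lit 4)) (.node (.col (nat_lit 1)) (.col (nat_lit 2)) (.slot (nat_lit 5)))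
def w14934 : Root := .mk (.node (.node (.col (nat_lit 3)) (.slot (nat_lit 0)) (.slot (nat_lit 0))) (.node (.node (.col (nat_lit 0)) (.col (nat_lit 1)) (.slot (nat_lit 5))) (.col (nat_lit 0)) (.slot (nat_lit 8))) (.node (.slot (nat_lit 0)) (.slot (nat_lit 0)) (.slot (nat_lit 0)))) (.col (nat_lit 2)) (.col (nat_lit 4)) (.node (.col (nat_lit 1)) (.col (nat_lit 2)) (.slot (nat_lit 5)))
def w14935 : Root := .mk (.node (.node (.col (nat_lit 3)) (.slot (nat_lit 0)) (.slot (nat_lit 0))) (.node (.slot (nat_lit 0)) (.col (nat_lit 0)) (.slot (nat_lit 1))) (.node (.slot (nat_lit 0)) (.slot (nat_lit 0)) (.slot (nat_lit 0)))) (.col (nat_lit 2)) (.col (nat_lit 4)) (.node (.col (nat_lit 1)) (.node (.slot (nat_lit 0)) (.slot (nat_lit 0)) (.slot (nat_lit 0))) (.slot (nat_lit 2)))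
def w14958 : Root := .mk (.node (.node (.col (nat_lit 3)) (.node (.col (nat_lit 2)) (.node (.col (nat_lit 2)) (.slot (nat_lit 0)) (.slot (nat_lit 0))) .junk) (.col (nat_lit 0))) (.slot (nat_lit 0)) (.node (.slot (nat_lit 0)) (.slot (nat_lit 0)) (.slot (nat_lit 0)))) (.col (nat_lit 3)) (.col (nat_lit 0)) (.col (nat_lit 1))
def w14975 : Root := .mk (.col (nat_lit 3)) (.node (.node (.node (.col (nat_lit 0)) (.node (.col (nat_lit 4)) .junk (.col (nat_lit 2))) (.slot (nat_lit 1))) (.col (nat_lit 0)) (.slot (nat_lit 2))) (.node (.col (nat_lit 2)) (.slot (nat_lit 1)) (.slot (nat_lit 0))) (.col (nat_lit 1))) (.col (nat_lit 4)) (.col (nat_lit 1))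
def w14976 : Root := .mk (.node (.node (.col (nat_lit 3)) (.col (nat_lit 4)) (.slot (nat_lit 1))) (.node (.node (.col (nat_lit 0)) (.node (.col (nat_lit 4)) .junk (.col (nat_lit 2))) (.slot (nat_lit 1))) (.col (nat_lit 0)) (.slot (nat_lit 0))) (.col (nat_lit 1))) (.col (nat_lit 2)) (.col (nat_lit 0)) (.slot (nat_lit 1))
def l3300 : Root := .mk (.node (.col (nat_lit 3)) (.col (nat_lit 4)) (.slot (nat_lit 4))) (.node (.node (.col (nat_lit 0)) (.node (.col (nat_lit 4)) .junk (.col (nat_lit 2))) (.slot (nat_lit 1))) (.col (nat_lit 0)) (.slot (nat_lit 6))) (.node (.col (nat_lit 2)) (.slot (nat_lit 7)) (.slot (nat_lit 5))) (.col (nat_lit 1))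
def w14981 : Root := .mk (.node (.node (.slot (nat_lit 0)) (.slot (nat_lit 0)) (.col (nat_lit 1))) (.node (.col (nat_lit 0)) (.node (.col (nat_lit 4)) .junk (.col (nat_lit 3))) (.slot (nat_lit 1))) (.col (nat_lit 0))) (.col (nat_lit 1)) (.col (nat_lit 0)) (.slot (nat_lit 5))
def w14985 : Root := .mk (.slot (nat_lit 0)) (.node (.node (.col (nat_lit 0)) (.node (.col (nat_lit 4)) .junk (.col (nat_lit 3))) (.slot (nat_lit 1))) (.col (nat_lit 0)) (.slot (nat_lit 6))) (.node (.col (nat_lit 2)) (.slot (nat_lit 6)) (.slot (nat_lit 1))) (.col (nat_lit 1))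
def w14986 : Root := .mk (.node (.node (.col (nat_lit 3)) (.col (nat_lit 4)) (.slot (nat_lit 1))) (.node (.col (nat_lit 2)) (.slot (nat_lit 6)) (.slot (nat_lit 6))) (.col (nat_lit 1))) (.node (.col (nat_lit 0)) (.slot (nat_lit 0)) (.slot (nat_lit 0))) (.col (nat_lit 0)) (.col (nat_lit 2))
def l3308 : Root := .mk (.node (.node (.col (nat_lit 3)) (.node (.col (nat_lit 4)) (.col (nat_lit 1)) (.slot (nat_lit 4))) (.col (nat_lit 4))) (.col (nat_lit 3)) (.slot (nat_lit 0))) (.col (nat_lit 2)) (.col (nat_lit 0)) (.col (nat_lit 4))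
def w15007 : Root := .mk (.col (nat_lit 3)) (.node (.node (.node .junk (.col (nat_lit 3)) (.col (nat_lit 2))) (.col (nat_lit 0)) (.slot (nat_lit 1))) (.slot (nat_lit 0)) (.node (.slot (nat_lit 0)) (.slot (nat_lit 0)) (.slot (nat_lit 0)))) (.node (.col (nat_lit 4)) (.col (nat_lit 1)) (.slot (nat_lit 2))) (.col (nat_lit 4))
def w15045 : Root := .mk (.col (nat_lit 3)) (.node (.node (.node (.col (nat_lit 0)) (.node (.col (nat_lit 4)) .junk (.col (nat_lit 2))) (.slot (nat_lit 1))) (.col (nat_lit 0)) (.slot (nat_lit 2))) (.col (nat_lit 3)) (.node (.slot (nat_lit 0)) (.slot (nat_lit 0)) (.slot (nat_lit 0)))) (.slot (nat_lit 0)) (.col (nat_lit 4))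
def w15053 : Root := .mk (.node (.node (.col (nat_lit 3)) (.node (.col (nat_lit 4)) (.col (nat_lit 1)) (.slot (nat_lit 2))) (.col (nat_lit 4))) (.node (.slot (nat_lit 0)) (.col (nat_lit 0)) (.slot (nat_lit 0))) (.node (.slot (nat_lit 0)) (.slot (nat_lit 0)) (.slot (nat_lit 0)))) (.col (nat_lit 2)) (.node (.col (nat_lit 3)) (.slot (nat_lit 0)) (.slot (nat_lit 0))) (.col (nat_lit 3))
def w15055 : Root := .mk (.node (.node (.col (nat_lit 3)) (.node (.col (nat_lit 4)) (.col (nat_lit 1)) (.slot (nat_lit 4))) (.col (nat_lit 4))) (.slot (nat_lit 0)) (.node (.slot (nat_lit 0)) (.slot (nat_lit 0)) (.slot (nat_lit 0)))) (.col (nat_lit 2)) (.col (nat_lit 0)) (.col (nat_lit 4))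
def w15061 : Root := .mk (.col (nat_lit 3)) (.node (.col (nat_lit 4)) (.node (.col (nat_lit 2)) (.node (.col (nat_lit 3)) (.slot (nat_lit 1)) (.slot (nat_lit 1))) (.slot (nat_lit 2))) (.node (.slot (nat_lit 0)) (.slot (nat_lit 0)) (.slot (nat_lit 0)))) (.node .junk (.col (nat_lit 1)) (.slot (nat_lit 1))) (.col (nat_lit 4))
def w15099 : Root := .mk (.node (.col (nat_lit 3)) (.node (.col (nat_lit 4)) (.node (.col (nat_lit 2)) (.slot (nat_lit 0)) (.slot (nat_lit 0))) (.col (nat_lit 2))) (.node (.slot (nat_lit 0)) (.col (nat_lit 0)) (.col (nat_lit 3)))) (.col (nat_lit 3)) (.col (nat_lit 2)) (.col (nat_lit 0))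
def l3335 : Root := .mk (.node (.node (.col (nat_lit 3)) (.node (.col (nat_lit 4)) (.col (nat_lit 1)) (.slot (nat_lit 0))) (.slot (nat_lit 0))) (.col (nat_lit 1)) (.slot (nat_lit 6))) (.col (nat_lit 3)) (.col (nat_lit 2)) (.col (nat_lit 0))
def w15119 : Root := .mk (.node (.node (.col (nat_lit 3)) (.node (.col (nat_lit 4)) (.col (nat_lit 1)) (.slot (nat_lit 0))) (.slot (nat_lit 0))) (.slot (nat_lit 1)) (.slot (nat_lit 6))) (.col (nat_lit 3)) (.col (nat_lit 2)) (.col (nat_lit 0))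
def w15122 : Root := .mk (.node (.col (nat_lit 3)) (.node (.node (.col (nat_lit 3)) (.col (nat_lit 2)) (.slot (nat_lit 2))) (.slot (nat_lit 1)) (.slot (nat_lit 1))) (.slot (nat_lit 0))) (.col (nat_lit 4)) (.col (nat_lit 0)) (.node (.slot (nat_lit 0)) (.slot (nat_lit 0)) (.slot (nat_lit 0)))
def w15126 : Root := .mk (.node (.col (nat_lit 3)) (.node (.col (nat_lit 0)) (.col (nat_lit 4)) (.slot (nat_lit 1))) (.slot (nat_lit 0))) (.slot (nat_lit 0)) (.node (.col (nat_lit 2)) (.col (nat_lit 3)) (.slot (nat_lit 1))) (.col (nat_lit 4))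
def l3339 : Root := .mk (.node (.col (nat_lit 3)) (.node (.col (nat_lit 0)) (.col (nat_lit 4)) (.slot (nat_lit 6))) (.slot (nat_lit 0))) (.node (.slot (nat_lit 0)) (.col (nat_lit 0)) (.slot (nat_lit 1))) (.node (.col (nat_lit 2)) (.col (nat_lit 3)) (.slot (nat_lit 5))) (.col (nat_lit 4))
def l3340 : Root := .mk (.node (.node (.col (nat_lit 3)) (.slot (nat_lit 0)) (.slot (nat_lit 0))) (.node (.col (nat_lit 2)) (.col (nat_lit 0)) (.slot (nat_lit 3))) (.node (.slot (nat_lit 0)) (.slot (nat_lit 1)) (.slot (nat_lit 0)))) (.col (nat_lit 2)) (.col (nat_lit 0)) (.slot (nat_lit 3))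
def w15147 : Root := .mk (.node (.node (.col (nat_lit 3)) (.slot (nat_lit 0)) (.slot (nat_lit 0))) (.node (.col (nat_lit 2)) (.slot (nat_lit 1)) (.slot (nat_lit 3))) (.node (.slot (nat_lit 0)) (.slot (nat_lit 1)) (.slot (nat_lit 0)))) (.col (nat_lit 2)) (.col (nat_lit 0)) (.slot (nat_lit 3))
def w15159 : Root := .mk (.node (.node (.col (nat_lit 3)) (.slot (nat_lit 0)) (.slot (nat_lit 0))) (.node (.node (.col (nat_lit 0)) (.slot (nat_lit 0)) (.slot (nat_lit 0))) (.col (nat_lit 0)) (.node (.col (nat_lit 1)) (.slot (nat_lit 3)) (.slot (nat_lit 3)))) (.col (nat_lit 1))) (.col (nat_lit 2)) (.col (nat_lit 1)) (.slot (nat_lit 1))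
def w15163 : Root := .mk (.col (nat_lit 3)) (.node (.node (.node (.col (nat_lit 0)) (.slot (nat_lit 0)) (.slot (nat_lit 0))) (.col (nat_lit 0)) (.node (.col (nat_lit 3)) (.slot (nat_lit 3)) (.slot (nat_lit 3)))) (.node (.col (nat_lit 2)) (.slot (nat_lit 1)) (.slot (nat_lit 0))) (.col (nat_lit 3))) (.col (nat_lit 2)) (.slot (nat_lit 0))
def w15166 : Root := .mk (.node (.node (.node (.col (nat_lit 3)) (.slot (nat_lit 0)) (.slot (nat_lit 0))) (.node (.col (nat_lit 2)) (.slot (nat_lit 1)) (.slot (nat_lit 0))) (.col (nat_lit 3))) (.col (nat_lit 0)) (.node (.col (nat_lit 3)) (.slot (nat_lit 1)) (.slot (nat_lit 1)))) (.col (nat_lit 0)) (.col (nat_lit 2)) (.slot (nat_lit 0))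
def w15168 : Root := .mk (.node (.node (.col (nat_lit 3)) (.slot (nat_lit 0)) (.slot (nat_lit 0))) (.node (.col (nat_lit 2)) (.slot (nat_lit 1)) (.slot (nat_lit 0))) (.col (nat_lit 3))) (.node (.col (nat_lit 0)) (.slot (nat_lit 0)) (.slot (nat_lit 0))) (.col (nat_lit 0)) (.node (.col (nat_lit 3)) (.node (.slot (nat_lit 0)) (.slot (nat_lit 0)) (.slot (nat_lit 0))) (.slot (nat_lit 1)))
def w15174 : Root := .mk (.col (nat_lit 3)) (.node (.node (.node (.col (nat_lit 0)) (.slot (nat_lit 0)) (.slot (nat_lit 0))) (.col (nat_lit 0)) (.slot (nat_lit 3))) (.col (nat_lit 1)) (.node (.slot (nat_lit 0)) (.slot (nat_lit 0)) (.slot (nat_lit 0)))) (.col (nat_lit 0)) (.slot (nat_lit 0))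
def l3346 : Root := .mk (.node (.node (.col (nat_lit 3)) (.col (nat_lit 4)) (.slot (nat_lit 0))) (.node (.col (nat_lit 2)) (.slot (nat_lit 0)) (.slot (nat_lit 0))) (.col (nat_lit 1))) (.node .junk (.col (nat_lit 2)) (.col (nat_lit 1))) (.col (nat_lit 0)) (.col (nat_lit 3))
def w15179 : Root := .mk (.col (nat_lit 3)) (.node (.node (.node .junk (.col (nat_lit 2)) (.col (nat_lit 1))) (.col (nat_lit 0)) (.slot (nat_lit 1))) (.node (.col (nat_lit 2)) (.slot (nat_lit 0)) (.slot (nat_lit 0))) (.col (nat_lit 1))) (.col (nat_lit 4)) (.slot (nat_lit 0))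
def w15197 : Root := .mk (.node (.node (.col (nat_lit 3)) (.slot (nat_lit 0)) (.slot (nat_lit 0))) (.node (.node (.col (nat_lit 0)) (.col (nat_lit 1)) (.slot (nat_lit 5))) (.col (nat_lit 0)) (.slot (nat_lit 1))) (.col (nat_lit 1))) (.col (nat_lit 2)) (.col (nat_lit 1)) (.slot (nat_lit 1))
def w15202 : Root := .mk (.node (.col (nat_lit 3)) (.node (.col (nat_lit 1)) (.col (nat_lit 2)) (.slot (nat_lit 6))) (.slot (nat_lit 0))) (.node (.node (.col (nat_lit 0)) (.col (nat_lit 2)) (.slot (nat_lit 0))) (.col (nat_lit 0)) (.slot (nat_lit 5))) (.node (.col (nat_lit 2)) (.slot (nat_lit 1)) (.slot (nat_lit 0))) (.col (nat_lit 1))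
def w15218 : Root := .mk (.node (.col (nat_lit 3)) (.slot (nat_lit 0)) (.slot (nat_lit 0))) (.node (.node (.col (nat_lit 0)) (.node (.col (nat_lit 4)) .junk (.col (nat_lit 2))) (.slot (nat_lit 1))) (.col (nat_lit 0)) (.slot (nat_lit 3))) (.col (nat_lit 1)) (.node (.slot (nat_lit 0)) (.slot (nat_lit 0)) (.slot (nat_lit 0)))
def w15249 : Root := .mk (.node (.node (.col (nat_lit 3)) (.slot (nat_lit 0)) (.slot (nat_lit 0))) (.col (nat_lit 1)) (.node (.slot (nat_lit 0)) (.slot (nat_lit 0)) (.slot (nat_lit 0)))) (.node (.col (nat_lit 0)) (.col (nat_lit 2)) (.slot (nat_lit 0))) (.col (nat_lit 0)) (.node (.col (nat_lit 1)) (.slot (nat_lit 1)) (.slot (nat_lit 2)))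
def w15262 : Root := .mk (.col (nat_lit 2)) (.node (.node (.col (nat_lit 0)) (.node (.node (.col (nat_lit 0)) (.col (nat_lit 1)) (.slot (nat_lit 3))) (.col (nat_lit 0)) (.slot (nat_lit 1))) (.slot (nat_lit 3))) (.col (nat_lit 0)) (.slot (nat_lit 3))) (.node (.col (nat_lit 2)) (.slot (nat_lit 3)) (.slot (nat_lit 1))) (.col (nat_lit 1))
def l3360 : Root := .mk (.node (.node (.node (.node (.col (nat_lit 3)) (.col (nat_lit 1)) (.slot (nat_lit 3))) (.node (.col (nat_lit 2)) (.slot (nat_lit 3)) (.slot (nat_lit 3))) (.col (nat_lit 1))) (.col (nat_lit 0)) (.slot (nat_lit 4))) (.col (nat_lit 0)) (.slot (nat_lit 5))) (.node (.col (nat_lit 0)) (.col (nat_lit 1)) (.slot (nat_lit 5))) (.col (nat_lit 0)) (.node (.col (nat_lit 1)) (.slot (nat_lit 7)) (.slot (nat_lit 5)))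
def w15263 : Root := .mk (.col (nat_lit 3)) (.node (.node (.node (.col (nat_lit 0)) (.node (.node (.col (nat_lit 0)) (.col (nat_lit 1)) (.slot (nat_lit 5))) (.col (nat_lit 0)) (.slot (nat_lit 8))) (.slot (nat_lit 5))) (.col (nat_lit 0)) (.slot (nat_lit 4))) (.node (.col (nat_lit 2)) (.slot (nat_lit 3)) (.slot (nat_lit 3))) (.col (nat_lit 1))) (.col (nat_lit 1)) (.slot (nat_lit 3))
def w15264 : Root := .mk (.node (.node (.col (nat_lit 3)) (.slot (nat_lit 1)) (.slot (nat_lit 0))) (.node (.col (nat_lit 2)) (.slot (nat_lit 1)) (.slot (nat_lit 1))) (.col (nat_lit 1))) (.node (.col (nat_lit 0)) (.node (.node (.col (nat_lit 0)) (.col (nat_lit 1)) (.slot (nat_lit 2))) (.col (nat_lit 0)) (.slot (nat_lit 8))) (.slot (nat_lit 1))) (.col (nat_lit 0)) (.col (nat_lit 1))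
def w15265 : Root := .mk (.node (.node (.col (nat_lit 3)) (.slot (nat_lit 0)) (.slot (nat_lit 0))) .junk (.col (nat_lit 1))) (.node (.col (nat_lit 0)) (.node (.col (nat_lit 2)) .junk (.col (nat_lit 1))) (.slot (nat_lit 1))) (.col (nat_lit 0)) (.col (nat_lit 4))
def w15266 : Root := .mk (.node (.node (.col (nat_lit 3)) (.slot (nat_lit 0)) (.slot (nat_lit 0))) .junk (.col (nat_lit 1))) (.node (.col (nat_lit 0)) (.node (.col (nat_lit 2)) (.col (nat_lit 0)) (.node (.col (nat_lit 3)) (.slot (nat_lit 1)) (.slot (nat_lit 1)))) (.node (.col (nat_lit 3)) (.slot (nat_lit 0)) (.slot (nat_lit 0)))) (.col (nat_lit 0)) (.col (nat_lit 4))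
def l3361 : Root := .mk (.node (.node (.node (.node (.col (nat_lit 3)) (.slot (nat_lit 0)) (.slot (nat_lit 0))) (.node (.col (nat_lit 2)) (.slot (nat_lit 0)) (.slot (nat_lit 0))) (.col (nat_lit 1))) (.col (nat_lit 0)) (.col (nat_lit 4))) (.col (nat_lit 0)) (.slot (nat_lit 7))) (.col (nat_lit 2)) (.col (nat_lit 0)) (.node (.col (nat_lit 3)) (.slot (nat_lit 7)) (.slot (nat_lit 5)))
def w15267 : Root := .mk (.node (.node (.col (nat_lit 3)) (.slot (nat_lit 0)) (.slot (nat_lit 0))) (.node (.col (nat_lit 2)) (.slot (nat_lit 0)) (.slot (nat_lit 0))) (.col (nat_lit 1))) (.node (.col (nat_lit 0)) (.node (.col (nat_lit 2)) (.col (nat_lit 0)) (.slot (nat_lit 8))) (.slot (nat_lit 7))) (.col (nat_lit 0)) (.col (nat_lit 4))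
def w15268 : Root := .mk (.node (.node (.col (nat_lit 3)) (.slot (nat_lit 0)) (.slot (nat_lit 0))) (.node (.col (nat_lit 2)) (.slot (nat_lit 0)) (.slot (nat_lit 0))) (.col (nat_lit 1))) (.node (.col (nat_lit 0)) (.node (.node .junk (.col (nat_lit 1)) (.col (nat_lit 4))) (.col (nat_lit 0)) (.slot (nat_lit 1))) (.slot (nat_lit 1))) (.col (nat_lit 0)) (.col (nat_lit 4))
def w15269 : Root := .mk (.node (.node (.node .junk (.node (.col (nat_lit 2)) (.slot (nat_lit 0)) (.slot (nat_lit 0))) (.col (nat_lit 1))) (.col (nat_lit 0)) (.col (nat_lit 4))) (.col (nat_lit 0)) (.slot (nat_lit 1))) (.node (.col (nat_lit 0)) (.col (nat_lit 1)) (.node (.col (nat_lit 2)) (.slot (nat_lit 1)) .junk)) (.col (nat_lit 0)) (.col (nat_lit 1))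
def w15270 : Root := .mk (.node (.node (.node (.node (.node (.col (nat_lit 3)) (.slot (nat_lit 0)) (.slot (nat_lit 0))) (.node (.col (nat_lit 2)) (.slot (nat_lit 0)) (.slot (nat_lit 0))) (.col (nat_lit 1))) (.col (nat_lit 0)) (.col (nat_lit 4))) (.col (nat_lit 0)) (.slot (nat_lit 7))) (.col (nat_lit 0)) (.node (.col (nat_lit 2)) (.slot (nat_lit 7)) (.slot (nat_lit 5)))) (.col (nat_lit 0)) (.col (nat_lit 1)) (.slot (nat_lit 0))
def w15272 : Root := .mk (.node (.node (.node (.node (.node (.col (nat_lit 3)) (.slot (nat_lit 0)) (.slot (nat_lit 0))) (.node (.col (nat_lit 2)) (.slot (nat_lit 0)) (.slot (nat_lit 0))) (.col (nat_lit 1))) (.col (nat_lit 0)) (.col (nat_lit 4))) (.col (nat_lit 0)) (.slot (nat_lit 1))) (.col (nat_lit 0)) (.slot (nat_lit 2))) (.col (nat_lit 0)) (.col (nat_lit 1)) (.node (.col (nat_lit 2)) (.node (.slot (nat_lit 0)) (.slot (nat_lit 0)) (.slot (nat_lit 0))) (.slot (nat_lit 0)))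
def l3362 : Root := .mk (.node (.node (.node (.node (.node (.col (nat_lit 3)) (.slot (nat_lit 0)) (.slot (nat_lit 0))) (.node (.col (nat_lit 2)) (.slot (nat_lit 0)) (.slot (nat_lit 0))) (.col (nat_lit 1))) (.col (nat_lit 0)) (.col (nat_lit 4))) (.col (nat_lit 0)) (.slot (nat_lit 7))) (.col (nat_lit 0)) (.slot (nat_lit 8))) (.col (nat_lit 0)) (.col (nat_lit 1)) (.node (.col (nat_lit 2)) (.slot (nat_lit 7)) (.slot (nat_lit 5)))
def w15273 : Root := .mk (.node (.node (.col (nat_lit 3)) (.slot (nat_lit 0)) (.slot (nat_lit 0))) (.node (.col (nat_lit 2)) (.slot (nat_lit 0)) (.slot (nat_lit 0))) (.col (nat_lit 1))) (.node (.col (nat_lit 0)) (.node (.node (.col (nat_lit 0)) (.col (nat_lit 1)) (.slot (nat_lit 8))) (.col (nat_lit 0)) (.slot (nat_lit 8))) (.slot (nat_lit 7))) (.col (nat_lit 0)) (.col (nat_lit 4))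
def w15274 : Root := .mk (.node (.node (.node (.col (nat_lit 3)) (.slot (nat_lit 1)) (.slot (nat_lit 1))) (.node (.col (nat_lit 2)) (.slot (nat_lit 1)) (.slot (nat_lit 0))) (.col (nat_lit 1))) (.col (nat_lit 0)) (.node (.col (nat_lit 0)) (.slot (nat_lit 3)) (.slot (nat_lit 1)))) (.col (nat_lit 0)) (.col (nat_lit 2)) (.slot (nat_lit 3))
def w15275 : Root := .mk (.node (.node (.col (nat_lit 3)) (.slot (nat_lit 1)) (.slot (nat_lit 1))) (.node (.col (nat_lit 2)) (.slot (nat_lit 1)) (.slot (nat_lit 0))) (.col (nat_lit 1))) (.node (.col (nat_lit 0)) (.node (.node (.col (nat_lit 0)) (.col (nat_lit 1)) (.slot (nat_lit 2))) (.col (nat_lit 0)) (.slot (nat_lit 8))) (.slot (nat_lit 3))) (.col (nat_lit 0)) (.node (.col (nat_lit 0)) (.slot (nat_lit 3)) (.slot (nat_lit 1)))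
def w15276 : Root := .mk (.node (.node (.col (nat_lit 3)) (.slot (nat_lit 1)) (.slot (nat_lit 1))) (.node (.col (nat_lit 2)) (.slot (nat_lit 1)) (.slot (nat_lit 0))) (.col (nat_lit 1))) (.node (.col (nat_lit 0)) (.node (.slot (nat_lit 0)) (.col (nat_lit 0)) (.slot (nat_lit 0))) (.slot (nat_lit 2))) (.col (nat_lit 0)) (.node (.col (nat_lit 2)) (.slot (nat_lit 7)) (.slot (nat_lit 5)))
def l3363 : Root := .mk (.node (.node (.node (.col (nat_lit 3)) (.slot (nat_lit 1)) (.slot (nat_lit 1))) (.node (.col (nat_lit 2)) (.slot (nat_lit 1)) (.slot (nat_lit 1))) (.col (nat_lit 1))) (.node (.col (nat_lit 0)) (.slot (nat_lit 0)) (.slot (nat_lit 0))) (.col (nat_lit 0))) (.col (nat_lit 4)) (.col (nat_lit 1)) (.slot (nat_lit 5))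
def w15277 : Root := .mk (.node (.node (.col (nat_lit 3)) (.slot (nat_lit 1)) (.slot (nat_lit 1))) (.node (.col (nat_lit 2)) (.slot (nat_lit 1)) (.slot (nat_lit 1))) (.col (nat_lit 1))) (.node (.col (nat_lit 0)) (.slot (nat_lit 0)) (.slot (nat_lit 0))) (.col (nat_lit 0)) (.node (.col (nat_lit 4)) (.slot (nat_lit 1)) (.slot (nat_lit 5)))
def l3364 : Root := .mk (.node (.node (.node (.col (nat_lit 3)) (.slot (nat_lit 1)) (.slot (nat_lit 1))) (.node (.col (nat_lit 2)) (.col (nat_lit 0)) (.slot (nat_lit 6))) (.col (nat_lit 1))) (.col (nat_lit 0)) (.node (.slot (nat_lit 0)) (.slot (nat_lit 0)) (.slot (nat_lit 0)))) (.col (nat_lit 0)) (.col (nat_lit 4)) (.col (nat_lit 3))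
def w15279 : Root := .mk (.node (.node (.node (.col (nat_lit 3)) (.slot (nat_lit 1)) (.slot (nat_lit 1))) (.node (.col (nat_lit 2)) (.slot (nat_lit 1)) (.slot (nat_lit 6))) (.col (nat_lit 1))) (.col (nat_lit 0)) (.node (.slot (nat_lit 0)) (.slot (nat_lit 0)) (.slot (nat_lit 0)))) (.col (nat_lit 0)) (.col (nat_lit 4)) (.col (nat_lit 3))
def w15280 : Root := .mk (.node (.col (nat_lit 3)) (.slot (nat_lit 0)) (.slot (nat_lit 0))) (.node (.node (.col (nat_lit 0)) (.col (nat_lit 4)) (.node (.col (nat_lit 2)) (.slot (nat_lit 1)) (.slot (nat_lit 1)))) (.col (nat_lit 0)) (.node (.slot (nat_lit 0)) (.slot (nat_lit 0)) (.slot (nat_lit 0)))) (.col (nat_lit 3)) (.col (nat_lit 1))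
def w15281 : Root := .mk (.node (.node (.node (.col (nat_lit 3)) (.slot (nat_lit 1)) (.slot (nat_lit 0))) (.node (.col (nat_lit 2)) (.slot (nat_lit 0)) (.slot (nat_lit 0))) (.col (nat_lit 1))) (.col (nat_lit 0)) (.node (.slot (nat_lit 0)) (.col (nat_lit 0)) (.slot (nat_lit 0)))) (.col (nat_lit 0)) (.col (nat_lit 4)) (.node (.col (nat_lit 2)) (.slot (nat_lit 1)) .junk)
def w15282 : Root := .mk (.node (.node (.node (.col (nat_lit 3)) (.slot (nat_lit 1)) (.slot (nat_lit 1))) (.node (.col (nat_lit 2)) (.slot (nat_lit 1)) (.slot (nat_lit 0))) (.col (nat_lit 1))) (.col (nat_lit 0)) (.node .junk (.col (nat_lit 1)) (.slot (nat_lit 1)))) (.col (nat_lit 0)) (.col (nat_lit 4)) (.node (.col (nat_lit 2)) (.slot (nat_lit 1)) .junk)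
def l3365 : Root := .mk (.node (.node (.node (.col (nat_lit 3)) (.slot (nat_lit 1)) (.slot (nat_lit 1))) (.node (.col (nat_lit 2)) (.slot (nat_lit 6)) (.slot (nat_lit 1))) (.col (nat_lit 1))) (.col (nat_lit 0)) (.node (.slot (nat_lit 0)) (.slot (nat_lit 1)) (.slot (nat_lit 1)))) (.col (nat_lit 0)) (.col (nat_lit 4)) (.node (.col (nat_lit 2)) (.slot (nat_lit 7)) (.slot (nat_lit 5)))
def w15283 : Root := .mk (.node (.node (.node (.col (nat_lit 3)) (.slot (nat_lit 1)) (.slot (nat_lit 1))) (.node (.col (nat_lit 2)) (.slot (nat_lit 6)) (.slot (nat_lit 1))) (.col (nat_lit 1))) (.col (nat_lit 0)) (.node (.slot (nat_lit 0)) (.slot (nat_lit 1)) (.slot (nat_lit 1)))) (.col (nat_lit 0)) (.col (nat_lit 4)) (.slot (nat_lit 8))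
def w15284 : Root := .mk (.node (.node (.col (nat_lit 3)) (.slot (nat_lit 1)) (.slot (nat_lit 1))) (.node (.col (nat_lit 2)) (.slot (nat_lit 6)) (.slot (nat_lit 1))) (.col (nat_lit 1))) (.node (.col (nat_lit 0)) (.node (.node .junk (.col (nat_lit 1)) (.col (nat_lit 2))) (.col (nat_lit 0)) (.slot (nat_lit 1))) (.slot (nat_lit 8))) (.col (nat_lit 0)) (.node (.slot (nat_lit 0)) (.slot (nat_lit 1)) (.slot (nat_lit 1)))
def w15288 : Root := .mk (.node (.node (.col (nat_lit 3)) (.slot (nat_lit 1)) (.slot (nat_lit 0))) (.node (.col (nat_lit 2)) (.slot (nat_lit 0)) (.slot (nat_lit 0))) (.col (nat_lit 1))) (.node (.col (nat_lit 0)) (.node (.col (nat_lit 2)) .junk (.col (nat_lit 4))) (.slot (nat_lit 1))) (.col (nat_lit 0)) (.node (.slot (nat_lit 0)) (.slot (nat_lit 0)) (.slot (nat_lit 0)))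
def w15289 : Root := .mk (.node (.node (.node (.col (nat_lit 3)) (.slot (nat_lit 1)) (.slot (nat_lit 1))) (.node (.col (nat_lit 2)) (.slot (nat_lit 1)) (.slot (nat_lit 0))) (.col (nat_lit 1))) (.col (nat_lit 0)) (.node (.slot (nat_lit 0)) (.slot (nat_lit 0)) (.slot (nat_lit 0)))) (.col (nat_lit 0)) (.node (.col (nat_lit 2)) (.col (nat_lit 0)) (.node (.col (nat_lit 1)) (.slot (nat_lit 1)) .junk)) (.col (nat_lit 2))
def w15290 : Root := .mk (.node (.node (.node (.node (.col (nat_lit 3)) (.slot (nat_lit 0)) (.slot (nat_lit 0))) (.node (.col (nat_lit 2)) (.slot (nat_lit 1)) (.slot (nat_lit 0))) (.col (nat_lit 1))) (.col (nat_lit 0)) (.node (.slot (nat_lit 0)) (.slot (nat_lit 0)) (.slot (nat_lit 0)))) (.col (nat_lit 0)) (.node (.col (nat_lit 1)) (.slot (nat_lit 1)) .junk)) (.col (nat_lit 2)) (.col (nat_lit 0)) (.node (.col (nat_lit 1)) (.slot (nat_lit 1)) .junk)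
def w15291 : Root := .mk (.node (.node (.node (.node (.col (nat_lit 3)) (.slot (nat_lit 1)) (.slot (nat_lit 0))) (.node (.col (nat_lit 2)) (.slot (nat_lit 0)) (.slot (nat_lit 0))) (.col (nat_lit 1))) (.col (nat_lit 0)) (.node (.slot (nat_lit 0)) (.slot (nat_lit 0)) (.slot (nat_lit 0)))) (.col (nat_lit 0)) (.slot (nat_lit 1))) (.col (nat_lit 2)) (.col (nat_lit 0)) (.node (.col (nat_lit 1)) (.node (.col (nat_lit 1)) (.slot (nat_lit 0)) (.slot (nat_lit 0))) (.slot (nat_lit 1)))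
def w15292 : Root := .mk (.node (.node (.node (.node (.col (nat_lit 3)) (.slot (nat_lit 1)) (.slot (nat_lit 0))) (.node (.col (nat_lit 2)) (.slot (nat_lit 0)) (.slot (nat_lit 0))) (.col (nat_lit 1))) (.col (nat_lit 0)) (.node (.slot (nat_lit 0)) (.slot (nat_lit 0)) (.slot (nat_lit 0)))) (.col (nat_lit 0)) (.slot (nat_lit 1))) (.col (nat_lit 2)) (.col (nat_lit 0)) (.node (.col (nat_lit 1)) (.node (.slot (nat_lit 0)) (.slot (nat_lit 0)) (.slot (nat_lit 0))) (.slot (nat_lit 1)))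
def l3366 : Root := .mk (.node (.node (.node (.node (.col (nat_lit 3)) (.slot (nat_lit 1)) (.slot (nat_lit 1))) (.node (.col (nat_lit 2)) (.slot (nat_lit 1)) (.slot (nat_lit 1))) (.col (nat_lit 1))) (.col (nat_lit 0)) (.node (.slot (nat_lit 0)) (.slot (nat_lit 0)) (.slot (nat_lit 0)))) (.col (nat_lit 0)) (.slot (nat_lit 5))) (.col (nat_lit 2)) (.col (nat_lit 0)) (.node (.col (nat_lit 1)) (.slot (nat_lit 7)) (.slot (nat_lit 5)))
def w15293 : Root := .mk (.node (.node (.node (.node (.col (nat_lit 3)) (.slot (nat_lit 1)) (.slot (nat_lit 1))) (.node (.col (nat_lit 2)) (.slot (nat_lit 1)) (.slot (nat_lit 1))) (.col (nat_lit 1))) (.col (nat_lit 0)) (.node (.slot (nat_lit 0)) (.slot (nat_lit 0)) (.slot (nat_lit 0)))) (.col (nat_lit 0)) (.slot (nat_lit 5))) (.col (nat_lit 2)) (.col (nat_lit 0)) (.slot (nat_lit 8))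
def w15294 : Root := .mk (.node (.node (.node (.col (nat_lit 3)) (.slot (nat_lit 1)) (.slot (nat_lit 1))) (.node (.col (nat_lit 2)) (.slot (nat_lit 1)) (.slot (nat_lit 0))) (.col (nat_lit 1))) (.col (nat_lit 0)) (.node (.slot (nat_lit 0)) (.slot (nat_lit 0)) (.slot (nat_lit 0)))) (.col (nat_lit 0)) (.node (.node .junk (.col (nat_lit 1)) (.col (nat_lit 4))) (.col (nat_lit 0)) (.slot (nat_lit 1))) (.col (nat_lit 1))
def w15295 : Root := .mk (.node (.col (nat_lit 3)) (.slot (nat_lit 0)) (.slot (nat_lit 0))) (.node (.node (.col (nat_lit 0)) (.node (.node .junk (.col (nat_lit 1)) (.col (nat_lit 4))) (.col (nat_lit 0)) (.slot (nat_lit 1))) (.col (nat_lit 4))) (.col (nat_lit 0)) (.col (nat_lit 3))) (.col (nat_lit 3)) (.col (nat_lit 1))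
def w15296 : Root := .mk (.node (.node (.col (nat_lit 3)) (.col (nat_lit 1)) (.slot (nat_lit 1))) (.node (.col (nat_lit 2)) (.slot (nat_lit 1)) (.slot (nat_lit 1))) (.col (nat_lit 1))) (.node (.col (nat_lit 0)) (.slot (nat_lit 0)) (.col (nat_lit 4))) (.col (nat_lit 0)) (.col (nat_lit 3))
def w15297 : Root := .mk (.node (.node (.col (nat_lit 3)) (.slot (nat_lit 0)) (.slot (nat_lit 0))) (.slot (nat_lit 0)) (.col (nat_lit 1))) (.node (.col (nat_lit 0)) (.node (.node .junk (.col (nat_lit 1)) (.col (nat_lit 4))) (.col (nat_lit 0)) (.slot (nat_lit 1))) (.col (nat_lit 4))) (.col (nat_lit 0)) (.col (nat_lit 3))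
def l3367 : Root := .mk (.node (.node (.col (nat_lit 3)) (.slot (nat_lit 2)) (.slot (nat_lit 2))) (.node (.col (nat_lit 2)) (.slot (nat_lit 1)) (.slot (nat_lit 1))) (.col (nat_lit 1))) (.node (.col (nat_lit 0)) (.node (.node .junk (.col (nat_lit 1)) (.col (nat_lit 4))) (.col (nat_lit 0)) (.slot (nat_lit 1))) (.col (nat_lit 4))) (.col (nat_lit 0)) (.col (nat_lit 3))
def w15298 : Root := .mk (.node (.node (.node (.col (nat_lit 3)) (.slot (nat_lit 2)) (.slot (nat_lit 2))) (.node (.col (nat_lit 2)) (.slot (nat_lit 1)) (.slot (nat_lit 1))) (.col (nat_lit 1))) (.col (nat_lit 0)) (.node (.slot (nat_lit 0)) (.slot (nat_lit 0)) (.slot (nat_lit 0)))) (.col (nat_lit 0)) (.node (.node .junk (.col (nat_lit 1)) (.col (nat_lit 4))) (.col (nat_lit 0)) (.slot (nat_lit 1))) (.col (nat_lit 4))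
def w15299 : Root := .mk (.node (.node (.col (nat_lit 3)) (.slot (nat_lit 0)) (.slot (nat_lit 0))) (.node (.col (nat_lit 2)) (.slot (nat_lit 0)) (.slot (nat_lit 0))) (.col (nat_lit 1))) (.node (.col (nat_lit 0)) (.node (.node .junk (.col (nat_lit 1)) (.col (nat_lit 4))) (.col (nat_lit 0)) (.slot (nat_lit 1))) (.node (.col (nat_lit 2)) (.slot (nat_lit 0)) (.slot (nat_lit 0)))) (.col (nat_lit 0)) (.col (nat_lit 4))
def w15300 : Root := .mk (.node (.node (.node (.node (.col (nat_lit 3)) (.slot (nat_lit 1)) (.slot (nat_lit 1))) (.node (.col (nat_lit 2)) (.slot (nat_lit 6)) (.slot (nat_lit 1))) (.col (nat_lit 1))) (.col (nat_lit 0)) (.node (.slot (nat_lit 0)) (.slot (nat_lit 1)) (.slot (nat_lit 1)))) (.col (nat_lit 0)) (.node (.col (nat_lit 2)) (.slot (nat_lit 7)) (.slot (nat_lit 5)))) (.col (nat_lit 3)) (.col (nat_lit 0)) (.slot (nat_lit 0))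
def w15301 : Root := .mk (.node (.node (.node (.node (.col (nat_lit 3)) (.slot (nat_lit 1)) (.slot (nat_lit 1))) (.node (.col (nat_lit 2)) (.slot (nat_lit 6)) (.slot (nat_lit 1))) (.col (nat_lit 1))) (.col (nat_lit 0)) (.node (.slot (nat_lit 0)) (.slot (nat_lit 1)) (.slot (nat_lit 1)))) (.col (nat_lit 0)) (.node (.col (nat_lit 2)) (.slot (nat_lit 7)) (.slot (nat_lit 5)))) (.slot (nat_lit 0)) (.col (nat_lit 0)) (.col (nat_lit 1))
def w15302 : Root := .mk (.node (.node (.node (.node (.node (.col (nat_lit 3)) (.slot (nat_lit 1)) (.slot (nat_lit 0))) (.node (.col (nat_lit 2)) (.slot (nat_lit 0)) (.slot (nat_lit 0))) (.col (nat_lit 1))) (.col (nat_lit 0)) (.node (.slot (nat_lit 0)) (.slot (nat_lit 0)) (.slot (nat_lit 0)))) (.col (nat_lit 0)) (.node (.col (nat_lit 2)) (.slot (nat_lit 1)) (.slot (nat_lit 1)))) (.col (nat_lit 0)) (.col (nat_lit 4))) (.col (nat_lit 0)) (.col (nat_lit 1)) (.col (nat_lit 4))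
def w15303 : Root := .mk (.node (.node (.node (.node (.col (nat_lit 3)) (.slot (nat_lit 1)) (.slot (nat_lit 1))) (.node (.col (nat_lit 2)) (.slot (nat_lit 6)) (.slot (nat_lit 1))) (.col (nat_lit 1))) (.col (nat_lit 0)) (.node (.slot (nat_lit 0)) (.slot (nat_lit 1)) (.slot (nat_lit 1)))) (.col (nat_lit 0)) (.node (.col (nat_lit 2)) (.slot (nat_lit 7)) (.slot (nat_lit 5)))) (.slot (nat_lit 0)) (.col (nat_lit 0)) (.slot (nat_lit 0))
def w15304 : Root := .mk (.node (.node (.node (.node (.node (.col (nat_lit 3)) (.slot (nat_lit 1)) (.slot (nat_lit 0))) (.node (.col (nat_lit 2)) (.slot (nat_lit 0)) (.slot (nat_lit 0))) (.col (nat_lit 1))) (.col (nat_lit 0)) (.node (.slot (nat_lit 0)) (.slot (nat_lit 0)) (.slot (nat_lit 0)))) (.col (nat_lit 0)) (.node (.col (nat_lit 2)) (.col (nat_lit 0)) (.slot (nat_lit 4)))) (.col (nat_lit 0)) (.slot (nat_lit 1))) (.col (nat_lit 0)) (.col (nat_lit 1)) (.col (nat_lit 4))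
def w15305 : Root := .mk (.node (.node (.node (.col (nat_lit 3)) (.slot (nat_lit 1)) (.slot (nat_lit 1))) (.node (.col (nat_lit 2)) (.slot (nat_lit 1)) (.slot (nat_lit 0))) (.col (nat_lit 1))) (.col (nat_lit 0)) (.node (.slot (nat_lit 0)) (.slot (nat_lit 0)) (.slot (nat_lit 0)))) (.col (nat_lit 0)) (.col (nat_lit 3)) (.node (.col (nat_lit 2)) (.node (.col (nat_lit 2)) (.slot (nat_lit 0)) (.slot (nat_lit 0))) (.slot (nat_lit 1)))
def w15306 : Root := .mk (.node (.node (.node (.col (nat_lit 3)) (.slot (nat_lit 1)) (.slot (nat_lit 1))) (.node (.col (nat_lit 2)) (.slot (nat_lit 1)) (.slot (nat_lit 0))) (.col (nat_lit 1))) (.col (nat_lit 0)) (.node (.slot (nat_lit 0)) (.slot (nat_lit 0)) (.slot (nat_lit 0)))) (.col (nat_lit 0)) (.node (.node .junk (.col (nat_lit 1)) (.col (nat_lit 4))) (.col (nat_lit 0)) (.slot (nat_lit 1))) (.node (.col (nat_lit 2)) (.node (.col (nat_lit 2)) (.slot (nat_lit 0)) (.slot (nat_lit 0))) (.slot (nat_lit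 1)))
def w15307 : Root := .mk (.node (.node (.col (nat_lit 3)) (.slot (nat_lit 0)) (.slot (nat_lit 0))) (.slot (nat_lit 0)) (.col (nat_lit 1))) (.node (.col (nat_lit 0)) (.node (.node .junk (.col (nat_lit 1)) (.col (nat_lit 4))) (.col (nat_lit 0)) (.slot (nat_lit 1))) (.node (.col (nat_lit 2)) (.slot (nat_lit 1)) .junk)) (.col (nat_lit 0)) (.node (.col (nat_lit 2)) (.slot (nat_lit 1)) (.slot (nat_lit 1)))
def w15308 : Root := .mk (.node (.slot (nat_lit 0)) (.node (.col (nat_lit 2)) (.slot (nat_lit 0)) (.slot (nat_lit 0))) (.col (nat_lit 1))) (.node (.col (nat_lit 0)) (.node (.node .junk (.col (nat_lit 1)) (.col (nat_lit 4))) (.col (nat_lit 0)) (.slot (nat_lit 1))) (.node (.col (nat_lit 2)) (.slot (nat_lit 1)) .junk)) (.col (nat_lit 0)) (.node (.col (nat_lit 3)) (.slot (nat_lit 1)) (.slot (nat_lit 1)))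
def w15309 : Root := .mk (.node (.node (.col (nat_lit 3)) (.slot (nat_lit 1)) (.slot (nat_lit 1))) (.node (.col (nat_lit 2)) (.slot (nat_lit 1)) (.slot (nat_lit 0))) (.col (nat_lit 1))) (.node (.col (nat_lit 0)) (.node (.node .junk (.col (nat_lit 1)) (.col (nat_lit 4))) (.col (nat_lit 0)) (.slot (nat_lit 1))) (.node (.col (nat_lit 2)) (.slot (nat_lit 1)) (.slot (nat_lit 1)))) (.col (nat_lit 0)) (.node (.slot (nat_lit 0)) (.col (nat_lit 0)) (.slot (nat_lit 0)))
def w15310 : Root := .mk (.node (.node (.col (nat_lit 3)) (.slot (nat_lit 0)) (.slot (nat_lit 0))) (.node (.col (nat_lit 2)) (.slot (nat_lit 0)) (.slot (nat_lit 0))) (.col (nat_lit 1))) (.node (.col (nat_lit 0)) (.node (.node .junk (.col (nat_lit 1)) (.col (nat_lit 4))) (.col (nat_lit 0)) (.slot (nat_lit 1))) (.node (.col (nat_lit 2)) (.slot (nat_lit 1)) .junk)) (.col (nat_lit 0)) (.node (.slot (nat_lit 0)) (.col (nat_lit 1)) (.slot (nat_lit 1)))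
def w15311 : Root := .mk (.node (.node (.col (nat_lit 3)) (.slot (nat_lit 0)) (.slot (nat_lit 0))) (.node (.col (nat_lit 2)) (.slot (nat_lit 0)) (.slot (nat_lit 0))) (.col (nat_lit 1))) (.col (nat_lit 4)) (.col (nat_lit 0)) (.node (.slot (nat_lit 0)) (.col (nat_lit 2)) (.slot (nat_lit 1)))
def w15312 : Root := .mk (.node (.node (.col (nat_lit 3)) (.slot (nat_lit 0)) (.slot (nat_lit 0))) (.node (.col (nat_lit 2)) (.slot (nat_lit 0)) (.slot (nat_lit 0))) (.col (nat_lit 1))) (.node (.col (nat_lit 0)) (.node (.node .junk (.col (nat_lit 1)) (.col (nat_lit 4))) (.col (nat_lit 0)) (.slot (nat_lit 1))) (.node (.col (nat_lit 2)) (.slot (nat_lit 1)) .junk)) (.col (nat_lit 0)) (.node (.slot (nat_lit 0)) (.col (nat_lit 2)) (.slot (nat_lit 1)))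
def w15313 : Root := .mk (.node (.node (.col (nat_lit 3)) (.slot (nat_lit 0)) (.slot (nat_lit 0))) (.node (.col (nat_lit 2)) (.slot (nat_lit 0)) (.slot (nat_lit 0))) (.col (nat_lit 1))) (.node (.col (nat_lit 0)) (.node (.node .junk (.col (nat_lit 1)) (.col (nat_lit 4))) (.col (nat_lit 0)) (.slot (nat_lit 1))) (.node (.col (nat_lit 2)) (.slot (nat_lit 1)) .junk)) (.col (nat_lit 0)) (.node (.slot (nat_lit 0)) (.col (nat_lit 3)) (.slot (nat_lit 1)))
def w15314 : Root := .mk (.node (.node (.col (nat_lit 3)) (.slot (nat_lit 1)) (.slot (nat_lit 1))) (.node (.col (nat_lit 2)) (.slot (nat_lit 1)) (.slot (nat_lit 0))) (.col (nat_lit 1))) (.node (.col (nat_lit 0)) (.node (.node .junk (.col (nat_lit 1)) (.col (nat_lit 4))) (.col (nat_lit 0)) (.slot (nat_lit 1))) (.node (.col (nat_lit 2)) (.slot (nat_lit 1)) (.slot (nat_lit 1)))) (.col (nat_lit 0)) (.node (.slot (nat_lit 0)) (.col (nat_lit 4)) (.slot (nat_lit 0)))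
def l3368 : Root := .mk (.node (.node (.node (.node (.node (.col (nat_lit 3)) (.slot (nat_lit 7)) (.slot (nat_lit 5))) (.node (.col (nat_lit 2)) (.slot (nat_lit 7)) (.slot (nat_lit 5))) (.col (nat_lit 1))) (.col (nat_lit 0)) (.node (.slot (nat_lit 0)) (.slot (nat_lit 5)) (.slot (nat_lit 3)))) (.col (nat_lit 0)) (.node (.col (nat_lit 2)) (.slot (nat_lit 7)) (.slot (nat_lit 5)))) (.col (nat_lit 0)) (.slot (nat_lit 4))) (.col (nat_lit 0)) (.col (nat_lit 1)) (.col (nat_lit 4))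
def w15315 : Root := .mk (.node (.node (.node (.node (.node (.col (nat_lit 3)) (.slot (nat_lit 7)) (.slot (nat_lit 5))) (.node (.col (nat_lit 2)) (.slot (nat_lit 7)) (.slot (nat_lit 5))) (.col (nat_lit 1))) (.col (nat_lit 0)) (.node (.slot (nat_lit 0)) (.slot (nat_lit 5)) (.slot (nat_lit 3)))) (.col (nat_lit 0)) (.slot (nat_lit 8))) (.col (nat_lit 0)) (.slot (nat_lit 4))) (.col (nat_lit 0)) (.col (nat_lit 1)) (.col (nat_lit 4))
def w15316 : Root := .mk (.node (.node (.node (.node (.col (nat_lit 3)) (.slot (nat_lit 0)) (.slot (nat_lit 0))) (.node (.col (nat_lit 2)) (.slot (nat_lit 1)) (.slot (nat_lit 0))) (.col (nat_lit 1))) (.col (nat_lit 0)) (.node (.slot (nat_lit 0)) (.slot (nat_lit 0)) (.slot (nat_lit 0)))) (.col (nat_lit 0)) (.slot (nat_lit 1))) (.node (.col (nat_lit 0)) (.col (nat_lit 1)) (.node (.col (nat_lit 2)) (.slot (nat_lit 1)) .junk)) (.col (nat_lit 0)) (.col (nat_lit 1))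
def w15317 : Root := .mk (.node (.node (.node (.node (.node (.col (nat_lit 3)) (.slot (nat_lit 1)) (.slot (nat_lit 0))) (.node (.col (nat_lit 2)) (.slot (nat_lit 0)) (.slot (nat_lit 0))) (.col (nat_lit 1))) (.col (nat_lit 0)) (.node (.slot (nat_lit 0)) (.slot (nat_lit 0)) (.slot (nat_lit 0)))) (.col (nat_lit 0)) (.slot (nat_lit 8))) (.col (nat_lit 0)) (.slot (nat_lit 3))) (.col (nat_lit 0)) (.col (nat_lit 1)) (.node (.col (nat_lit 2)) (.node (.col (nat_lit 2)) (.slot (nat_lit 0)) (.slot (nat_lit 0))) (.slot (nat_lit 1)))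
def w15318 : Root := .mk (.node (.node (.node (.node (.node (.col (nat_lit 3)) (.slot (nat_lit 1)) (.slot (nat_lit 0))) (.node (.col (nat_lit 2)) (.slot (nat_lit 0)) (.slot (nat_lit 0))) (.col (nat_lit 1))) (.col (nat_lit 0)) (.node (.slot (nat_lit 0)) (.slot (nat_lit 0)) (.slot (nat_lit 0)))) (.col (nat_lit 0)) (.slot (nat_lit 2))) (.col (nat_lit 0)) (.slot (nat_lit 2))) (.col (nat_lit 0)) (.col (nat_lit 1)) (.node (.col (nat_lit 2)) (.node (.slot (nat_lit 0)) (.slot (nat_lit 0)) (.slot (nat_lit 0))) (.slot (nat_lit 1)))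
def l3369 : Root := .mk (.node (.node (.node (.node (.node (.col (nat_lit 3)) (.slot (nat_lit 7)) (.slot (nat_lit 5))) (.node (.col (nat_lit 2)) (.slot (nat_lit 7)) (.slot (nat_lit 5))) (.col (nat_lit 1))) (.col (nat_lit 0)) (.node (.slot (nat_lit 0)) (.slot (nat_lit 5)) (.slot (nat_lit 3)))) (.col (nat_lit 0)) (.slot (nat_lit 8))) (.col (nat_lit 0)) (.slot (nat_lit 8))) (.col (nat_lit 0)) (.col (nat_lit 1)) (.node (.col (nat_lit 2)) (.slot (nat_lit 7)) (.slot (nat_lit 5)))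
def w15319 : Root := .mk (.node (.node (.col (nat_lit 3)) (.slot (nat_lit 7)) (.slot (nat_lit 5))) (.node (.col (nat_lit 2)) (.slot (nat_lit 7)) (.slot (nat_lit 5))) (.col (nat_lit 1))) (.node (.col (nat_lit 0)) (.node (.node (.col (nat_lit 0)) (.col (nat_lit 1)) (.slot (nat_lit 8))) (.col (nat_lit 0)) (.slot (nat_lit 8))) (.slot (nat_lit 8))) (.col (nat_lit 0)) (.node (.slot (nat_lit 0)) (.slot (nat_lit 5)) (.slot (nat_lit 3)))
def w15320 : Root := .mk (.node (.node (.node (.col (nat_lit 3)) (.col (nat_lit 1)) (.slot (nat_lit 0))) (.node (.col (nat_lit 2)) (.slot (nat_lit 0)) (.slot (nat_lit 0))) (.col (nat_lit 1))) (.col (nat_lit 0)) (.node (.col (nat_lit 3)) (.slot (nat_lit 1)) (.slot (nat_lit 0)))) (.col (nat_lit 0)) (.col (nat_lit 2)) (.node (.col (nat_lit 4)) (.slot (nat_lit 1)) (.slot (nat_lit 1)))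
def w15322 : Root := .mk (.node (.node (.node (.col (nat_lit 3)) (.col (nat_lit 1)) (.slot (nat_lit 1))) (.node (.col (nat_lit 2)) (.slot (nat_lit 0)) (.slot (nat_lit 0))) (.col (nat_lit 1))) (.col (nat_lit 0)) (.slot (nat_lit 1))) (.col (nat_lit 0)) (.col (nat_lit 2)) (.node (.col (nat_lit 4)) .junk (.slot (nat_lit 1)))
def l3370 : Root := .mk (.node (.node (.node (.col (nat_lit 3)) (.col (nat_lit 1)) (.slot (nat_lit 3))) (.node (.col (nat_lit 2)) (.slot (nat_lit 3)) (.slot (nat_lit 3))) (.col (nat_lit 1))) (.col (nat_lit 0)) (.slot (nat_lit 4))) (.col (nat_lit 0)) (.col (nat_lit 2)) (.node (.col (nat_lit 4)) (.slot (nat_lit 7)) (.slot (nat_lit 5)))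
def w15323 : Root := .mk (.col (nat_lit 3)) (.node (.node (.node (.col (nat_lit 0)) (.col (nat_lit 2)) (.slot (nat_lit 8))) (.col (nat_lit 0)) (.slot (nat_lit 4))) (.node (.col (nat_lit 2)) (.slot (nat_lit 3)) (.slot (nat_lit 3))) (.col (nat_lit 1))) (.col (nat_lit 1)) (.slot (nat_lit 3))
def w15324 : Root := .mk (.node (.col (nat_lit 3)) (.slot (nat_lit 0)) (.node (.col (nat_lit 3)) (.slot (nat_lit 0)) (.slot (nat_lit 0)))) (.node (.node .junk (.col (nat_lit 2)) (.col (nat_lit 1))) (.col (nat_lit 0)) (.slot (nat_lit 1))) (.node (.col (nat_lit 2)) (.slot (nat_lit 1)) (.slot (nat_lit 1))) (.col (nat_lit 1))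
def w15325 : Root := .mk (.node (.col (nat_lit 3)) (.slot (nat_lit 0)) (.node (.col (nat_lit 3)) (.slot (nat_lit 0)) (.slot (nat_lit 0)))) (.node (.node .junk (.col (nat_lit 2)) (.col (nat_lit 3))) (.col (nat_lit 0)) (.slot (nat_lit 1))) (.node (.col (nat_lit 2)) (.slot (nat_lit 1)) (.slot (nat_lit 1))) (.col (nat_lit 1))
def w15326 : Root := .mk (.node (.node (.node (.col (nat_lit 3)) (.slot (nat_lit 0)) (.slot (nat_lit 0))) (.node (.col (nat_lit 2)) (.slot (nat_lit 1)) (.slot (nat_lit 0))) (.col (nat_lit 1))) (.col (nat_lit 0)) (.node (.col (nat_lit 1)) (.slot (nat_lit 3)) (.slot (nat_lit 3)))) (.col (nat_lit 0)) (.col (nat_lit 2)) (.slot (nat_lit 0))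
def w15327 : Root := .mk (.node (.node (.node (.col (nat_lit 3)) (.slot (nat_lit 0)) (.slot (nat_lit 0))) (.node (.col (nat_lit 2)) (.slot (nat_lit 0)) (.slot (nat_lit 0))) (.col (nat_lit 1))) (.col (nat_lit 0)) (.node (.col (nat_lit 3)) (.slot (nat_lit 1)) (.slot (nat_lit 0)))) (.col (nat_lit 0)) (.col (nat_lit 2)) (.node (.col (nat_lit 4)) (.slot (nat_lit 1)) (.slot (nat_lit 1)))
def w15328 : Root := .mk (.node (.node (.node (.col (nat_lit 3)) (.node (.col (nat_lit 2)) (.slot (nat_lit 0)) (.slot (nat_lit 0))) (.slot (nat_lit 0))) (.node (.col (nat_lit 2)) (.slot (nat_lit 0)) (.slot (nat_lit 0))) (.col (nat_lit 1))) (.col (nat_lit 0)) (.slot (nat_lit 1))) (.col (nat_lit 0)) (.col (nat_lit 2)) (.node (.col (nat_lit 4)) .junk (.slot (nat_lit 1)))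
def l3371 : Root := .mk (.node (.node (.node (.col (nat_lit 3)) (.node (.col (nat_lit 2)) (.slot (nat_lit 1)) (.slot (nat_lit 0))) (.node (.col (nat_lit 3)) (.slot (nat_lit 0)) (.slot (nat_lit 0)))) (.node (.col (nat_lit 2)) (.slot (nat_lit 1)) (.slot (nat_lit 1))) (.col (nat_lit 1))) (.col (nat_lit 0)) (.slot (nat_lit 4))) (.col (nat_lit 0)) (.col (nat_lit 2)) (.node (.col (nat_lit 4)) (.slot (nat_lit 7)) (.slot (nat_lit 5)))
def w15329 : Root := .mk (.col (nat_lit 3)) (.node (.node (.node (.col (nat_lit 0)) (.col (nat_lit 2)) (.slot (nat_lit 8))) (.col (nat_lit 0)) (.slot (nat_lit 4))) (.node (.col (nat_lit 2)) (.slot (nat_lit 1)) (.slot (nat_lit 1))) (.col (nat_lit 1))) (.node (.col (nat_lit 2)) (.slot (nat_lit 1)) (.slot (nat_lit 0))) (.node (.col (nat_lit 3)) (.slot (nat_lit 0)) (.slot (nat_lit 0)))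
def w15330 : Root := .mk (.col (nat_lit 3)) (.node (.node (.node (.col (nat_lit 0)) (.col (nat_lit 2)) (.slot (nat_lit 1))) (.col (nat_lit 0)) (.slot (nat_lit 1))) (.node (.col (nat_lit 2)) (.slot (nat_lit 0)) (.slot (nat_lit 0))) (.col (nat_lit 1))) (.node (.col (nat_lit 2)) (.slot (nat_lit 0)) (.slot (nat_lit 0))) (.node (.col (nat_lit 4)) (.col (nat_lit 1)) .junk)
def w15331 : Root := .mk (.col (nat_lit 3)) (.node (.node (.node (.col (nat_lit 0)) (.col (nat_lit 2)) (.slot (nat_lit 1))) (.col (nat_lit 0)) (.slot (nat_lit 1))) (.node (.col (nat_lit 2)) (.slot (nat_lit 0)) (.slot (nat_lit 0))) (.col (nat_lit 1))) (.slot (nat_lit 0)) (.node (.col (nat_lit 4)) (.col (nat_lit 1)) (.slot (nat_lit 1)))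
def l3372 : Root := .mk (.node (.col (nat_lit 3)) (.node (.node (.node (.col (nat_lit 0)) (.col (nat_lit 2)) (.slot (nat_lit 1))) (.col (nat_lit 0)) (.slot (nat_lit 1))) (.node (.col (nat_lit 2)) (.slot (nat_lit 1)) (.slot (nat_lit 1))) (.col (nat_lit 1))) (.node (.col (nat_lit 2)) (.slot (nat_lit 1)) (.slot (nat_lit 1)))) (.col (nat_lit 4)) (.col (nat_lit 1)) (.slot (nat_lit 5))
def w15332 : Root := .mk (.col (nat_lit 3)) (.node (.node (.node (.col (nat_lit 0)) (.col (nat_lit 2)) (.slot (nat_lit 1))) (.col (nat_lit 0)) (.slot (nat_lit 1))) (.node (.col (nat_lit 2)) (.slot (nat_lit 1)) (.slot (nat_lit 1))) (.col (nat_lit 1))) (.node (.col (nat_lit 2)) (.slot (nat_lit 1)) (.slot (nat_lit 1))) (.node (.col (nat_lit 4)) (.slot (nat_lit 1)) (.slot (nat_lit 5)))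
def w15334 : Root := .mk (.col (nat_lit 3)) (.node (.node (.node .junk (.col (nat_lit 2)) (.col (nat_lit 4))) (.col (nat_lit 0)) (.slot (nat_lit 1))) (.node (.col (nat_lit 2)) (.slot (nat_lit 1)) (.slot (nat_lit 1))) (.col (nat_lit 1))) (.col (nat_lit 4)) (.node (.slot (nat_lit 0)) (.slot (nat_lit 0)) (.slot (nat_lit 0)))
def w15335 : Root := .mk (.node (.node (.node (.col (nat_lit 3)) (.col (nat_lit 4)) (.slot (nat_lit 0))) (.node (.col (nat_lit 2)) (.slot (nat_lit 1)) (.slot (nat_lit 0))) (.col (nat_lit 1))) (.col (nat_lit 0)) (.node (.col (nat_lit 1)) (.slot (nat_lit 1)) (.slot (nat_lit 1)))) (.col (nat_lit 0)) (.col (nat_lit 2)) (.slot (nat_lit 0))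
def w15336 : Root := .mk (.node (.node (.node (.col (nat_lit 3)) (.col (nat_lit 4)) (.slot (nat_lit 0))) (.node (.col (nat_lit 2)) (.slot (nat_lit 0)) (.slot (nat_lit 0))) (.col (nat_lit 1))) (.col (nat_lit 0)) (.node (.col (nat_lit 4)) (.slot (nat_lit 1)) (.slot (nat_lit 0)))) (.col (nat_lit 0)) (.col (nat_lit 2)) (.node (.col (nat_lit 3)) (.slot (nat_lit 1)) (.slot (nat_lit 1)))
def w15337 : Root := .mk (.node (.node (.node (.col (nat_lit 3)) (.col (nat_lit 4)) (.slot (nat_lit 0))) (.node (.col (nat_lit 2)) (.slot (nat_lit 1)) (.slot (nat_lit 1))) (.col (nat_lit 1))) (.col (nat_lit 0)) (.slot (nat_lit 6))) (.col (nat_lit 0)) (.col (nat_lit 2)) (.node (.col (nat_lit 3)) .junk (.slot (nat_lit 1)))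
def l3373 : Root := .mk (.node (.node (.node (.col (nat_lit 3)) (.col (nat_lit 4)) (.node (.slot (nat_lit 0)) (.slot (nat_lit 0)) (.slot (nat_lit 0)))) (.node (.col (nat_lit 2)) (.slot (nat_lit 1)) (.slot (nat_lit 1))) (.col (nat_lit 1))) (.col (nat_lit 0)) (.slot (nat_lit 6))) (.col (nat_lit 0)) (.col (nat_lit 2)) (.node (.col (nat_lit 3)) (.slot (nat_lit 7)) (.slot (nat_lit 5)))
def w15338 : Root := .mk (.col (nat_lit 3)) (.node (.node (.node (.col (nat_lit 0)) (.col (nat_lit 2)) (.slot (nat_lit 8))) (.col (nat_lit 0)) (.slot (nat_lit 6))) (.node (.col (nat_lit 2)) (.slot (nat_lit 1)) (.slot (nat_lit 1))) (.col (nat_lit 1))) (.col (nat_lit 4)) (.node (.slot (nat_lit 0)) (.slot (nat_lit 0)) (.slot (nat_lit 0)))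
def l3374 : Root := .mk (.node (.col (nat_lit 3)) (.node (.node (.node (.col (nat_lit 0)) (.col (nat_lit 2)) (.slot (nat_lit 8))) (.col (nat_lit 0)) (.slot (nat_lit 6))) (.node (.col (nat_lit 2)) (.slot (nat_lit 3)) (.slot (nat_lit 3))) (.col (nat_lit 1))) (.node (.slot (nat_lit 0)) (.slot (nat_lit 0)) (.slot (nat_lit 0)))) (.col (nat_lit 2)) (.col (nat_lit 1)) (.slot (nat_lit 6))
def w15339 : Root := .mk (.col (nat_lit 3)) (.node (.node (.node (.col (nat_lit 0)) (.col (nat_lit 2)) (.slot (nat_lit 8))) (.col (nat_lit 0)) (.slot (nat_lit 6))) (.node (.col (nat_lit 2)) (.slot (nat_lit 3)) (.slot (nat_lit 3))) (.col (nat_lit 1))) (.node (.col (nat_lit 2)) (.slot (nat_lit 1)) (.slot (nat_lit 6))) (.node (.slot (nat_lit 0)) (.slot (nat_lit 0)) (.slot (nat_lit 0)))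
def l3375 : Root := .mk (.node (.col (nat_lit 3)) (.node (.node (.node (.col (nat_lit 0)) (.col (nat_lit 2)) (.slot (nat_lit 1))) (.col (nat_lit 0)) (.slot (nat_lit 1))) (.node (.col (nat_lit 2)) (.slot (nat_lit 1)) (.slot (nat_lit 1))) (.col (nat_lit 1))) (.slot (nat_lit 4))) (.col (nat_lit 2)) (.col (nat_lit 3)) (.node (.col (nat_lit 4)) (.slot (nat_lit 7)) (.slot (nat_lit 5)))
def w15340 : Root := .mk (.node (.col (nat_lit 3)) (.node (.node (.node (.col (nat_lit 0)) (.col (nat_lit 2)) (.slot (nat_lit 1))) (.col (nat_lit 0)) (.slot (nat_lit 1))) (.node (.col (nat_lit 2)) (.slot (nat_lit 1)) (.slot (nat_lit 1))) (.col (nat_lit 1))) (.slot (nat_lit 4))) (.col (nat_lit 2)) (.col (nat_lit 3)) (.slot (nat_lit 8))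
def w15341 : Root := .mk (.node (.col (nat_lit 3)) (.node (.col (nat_lit 2)) (.node (.col (nat_lit 1)) (.slot (nat_lit 1)) (.slot (nat_lit 1))) (.slot (nat_lit 2))) (.slot (nat_lit 3))) (.node (.slot (nat_lit 0)) (.col (nat_lit 0)) (.slot (nat_lit 0))) (.node (.col (nat_lit 2)) (.slot (nat_lit 5)) (.slot (nat_lit 1))) (.col (nat_lit 1))
def w15342 : Root := .mk (.node (.node (.col (nat_lit 3)) (.node (.col (nat_lit 2)) (.slot (nat_lit 1)) (.slot (nat_lit 1))) (.slot (nat_lit 2))) (.node (.node (.col (nat_lit 0)) (.col (nat_lit 2)) (.slot (nat_lit 0))) (.col (nat_lit 0)) (.slot (nat_lit 1))) (.col (nat_lit 1))) (.col (nat_lit 2)) (.col (nat_lit 1)) (.slot (nat_lit 1))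
def l3376 : Root := .mk (.node (.col (nat_lit 3)) (.node (.col (nat_lit 2)) (.slot (nat_lit 8)) (.slot (nat_lit 8))) (.slot (nat_lit 6))) (.node (.node (.col (nat_lit 0)) (.col (nat_lit 2)) (.slot (nat_lit 8))) (.col (nat_lit 0)) (.slot (nat_lit 8))) (.node (.col (nat_lit 2)) (.slot (nat_lit 8)) (.slot (nat_lit 8))) (.col (nat_lit 1))
def w15343 : Root := .mk (.node (.node (.node (.col (nat_lit 3)) (.slot (nat_lit 9)) (.slot (nat_lit 6))) (.node (.col (nat_lit 2)) (.slot (nat_lit 8)) (.slot (nat_lit 8))) (.col (nat_lit 1))) (.col (nat_lit 0)) (.slot (nat_lit 8))) (.col (nat_lit 0)) (.col (nat_lit 2)) (.slot (nat_lit 8))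
def l3377 : Root := .mk (.node (.node (.node (.col (nat_lit 3)) (.slot (nat_lit 1)) (.slot (nat_lit 1))) (.node (.col (nat_lit 2)) (.col (nat_lit 0)) (.slot (nat_lit 6))) (.col (nat_lit 1))) (.col (nat_lit 0)) (.slot (nat_lit 1))) (.col (nat_lit 0)) (.col (nat_lit 4)) (.col (nat_lit 3))
def w15344 : Root := .mk (.node (.node (.node (.col (nat_lit 3)) (.slot (nat_lit 1)) (.slot (nat_lit 1))) (.node (.col (nat_lit 2)) (.slot (nat_lit 1)) (.slot (nat_lit 6))) (.col (nat_lit 1))) (.col (nat_lit 0)) (.slot (nat_lit 1))) (.col (nat_lit 0)) (.col (nat_lit 4)) (.col (nat_lit 3))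
def l3378 : Root := .mk (.node (.node (.node (.col (nat_lit 3)) (.slot (nat_lit 1)) (.slot (nat_lit 1))) (.node (.col (nat_lit 2)) (.slot (nat_lit 6)) (.slot (nat_lit 1))) (.col (nat_lit 1))) (.col (nat_lit 0)) (.slot (nat_lit 2))) (.col (nat_lit 0)) (.col (nat_lit 4)) (.node (.col (nat_lit 2)) (.slot (nat_lit 7)) (.slot (nat_lit 5)))
def w15345 : Root := .mk (.node (.node (.node (.col (nat_lit 3)) (.slot (nat_lit 1)) (.slot (nat_lit 1))) (.node (.col (nat_lit 2)) (.slot (nat_lit 6)) (.slot (nat_lit 1))) (.col (nat_lit 1))) (.col (nat_lit 0)) (.slot (nat_lit 2))) (.col (nat_lit 0)) (.col (nat_lit 4)) (.slot (nat_lit 8))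
def w15346 : Root := .mk (.node (.node (.node (.col (nat_lit 3)) (.slot (nat_lit 1)) (.slot (nat_lit 1))) (.node (.col (nat_lit 2)) (.slot (nat_lit 1)) (.slot (nat_lit 0))) (.col (nat_lit 1))) (.col (nat_lit 0)) (.slot (nat_lit 3))) (.col (nat_lit 0)) (.node (.node (.col (nat_lit 0)) (.col (nat_lit 1)) (.slot (nat_lit 0))) (.col (nat_lit 0)) (.slot (nat_lit 3))) (.col (nat_lit 2))
def l3379 : Root := .mk (.col (nat_lit 2)) (.node (.node (.col (nat_lit 0)) (.node (.node (.col (nat_lit 0)) (.col (nat_lit 1)) (.slot (nat_lit 0))) (.col (nat_lit 0)) (.slot (nat_lit 3))) (.col (nat_lit 4))) (.col (nat_lit 0)) (.slot (nat_lit 3))) (.col (nat_lit 4)) (.col (nat_lit 1))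
def w15347 : Root := .mk (.col (nat_lit 2)) (.node (.node (.col (nat_lit 0)) (.node (.node (.col (nat_lit 0)) (.col (nat_lit 1)) (.slot (nat_lit 0))) (.col (nat_lit 0)) (.slot (nat_lit 3))) (.col (nat_lit 4))) (.col (nat_lit 0)) (.slot (nat_lit 3))) (.node (.col (nat_lit 2)) (.slot (nat_lit 0)) (.slot (nat_lit 0))) (.col (nat_lit 1))
def w15348 : Root := .mk (.node (.node (.node (.col (nat_lit 3)) (.col (nat_lit 0)) .junk) (.node (.col (nat_lit 2)) (.slot (nat_lit 0)) (.slot (nat_lit 0))) (.col (nat_lit 1))) (.col (nat_lit 0)) (.slot (nat_lit 3))) (.col (nat_lit 0)) (.node (.node (.col (nat_lit 0)) (.col (nat_lit 1)) (.slot (nat_lit 0))) (.col (nat_lit 0)) (.slot (nat_lit 3))) (.col (nat_lit 4))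
def w15349 : Root := .mk (.node (.node (.node (.col (nat_lit 3)) (.col (nat_lit 0)) (.slot (nat_lit 1))) (.slot (nat_lit 0)) (.col (nat_lit 1))) (.col (nat_lit 0)) (.slot (nat_lit 3))) (.col (nat_lit 0)) (.node (.node (.col (nat_lit 0)) (.col (nat_lit 1)) (.slot (nat_lit 0))) (.col (nat_lit 0)) (.slot (nat_lit 3))) (.col (nat_lit 4))
def l3380 : Root := .mk (.node (.node (.node (.col (nat_lit 3)) (.col (nat_lit 0)) (.slot (nat_lit 3))) (.node (.col (nat_lit 2)) (.slot (nat_lit 1)) (.slot (nat_lit 1))) (.col (nat_lit 1))) (.col (nat_lit 0)) (.slot (nat_lit 3))) (.col (nat_lit 0)) (.node (.node (.col (nat_lit 0)) (.col (nat_lit 1)) (.slot (nat_lit 0))) (.col (nat_lit 0)) (.slot (nat_lit 3))) (.col (nat_lit 4))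
def w15350 : Root := .mk (.node (.node (.node (.col (nat_lit 3)) (.slot (nat_lit 1)) (.slot (nat_lit 3))) (.node (.col (nat_lit 2)) (.slot (nat_lit 1)) (.slot (nat_lit 1))) (.col (nat_lit 1))) (.col (nat_lit 0)) (.slot (nat_lit 3))) (.col (nat_lit 0)) (.node (.node (.col (nat_lit 0)) (.col (nat_lit 1)) (.slot (nat_lit 0))) (.col (nat_lit 0)) (.slot (nat_lit 3))) (.col (nat_lit 4))
def w15351 : Root := .mk (.node (.node (.node (.col (nat_lit 3)) (.slot (nat_lit 1)) (.slot (nat_lit 1))) (.node (.col (nat_lit 2)) (.slot (nat_lit 1)) (.slot (nat_lit 0))) (.col (nat_lit 1))) (.col (nat_lit 0)) (.slot (nat_lit 3))) (.col (nat_lit 0)) (.col (nat_lit 2)) (.node (.col (nat_lit 0)) (.slot (nat_lit 3)) (.slot (nat_lit 1)))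
def w15352 : Root := .mk (.node (.node (.node (.col (nat_lit 3)) (.slot (nat_lit 1)) (.slot (nat_lit 1))) (.node (.col (nat_lit 2)) (.slot (nat_lit 1)) (.slot (nat_lit 0))) (.col (nat_lit 1))) (.col (nat_lit 0)) (.slot (nat_lit 3))) (.col (nat_lit 0)) (.node (.node (.col (nat_lit 0)) (.col (nat_lit 1)) (.slot (nat_lit 2))) (.col (nat_lit 0)) (.slot (nat_lit 8))) (.node (.col (nat_lit 0)) (.slot (nat_lit 3)) (.slot (nat_lit 1)))
def w15353 : Root := .mk (.node (.node (.node (.col (nat_lit 3)) (.slot (nat_lit 0)) (.slot (nat_lit 0))) (.node (.col (nat_lit 2)) (.slot (nat_lit 1)) (.slot (nat_lit 0))) (.col (nat_lit 1))) (.col (nat_lit 0)) (.slot (nat_lit 1))) (.col (nat_lit 0)) (.node (.slot (nat_lit 0)) (.col (nat_lit 0)) (.slot (nat_lit 0))) (.node (.col (nat_lit 1)) (.col (nat_lit 4)) .junk)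
def l3381 : Root := .mk (.node (.node (.node (.node (.col (nat_lit 3)) (.slot (nat_lit 1)) (.slot (nat_lit 1))) (.node (.col (nat_lit 2)) (.slot (nat_lit 1)) (.slot (nat_lit 1))) (.col (nat_lit 1))) (.col (nat_lit 0)) (.slot (nat_lit 4))) (.col (nat_lit 0)) (.node (.node (.col (nat_lit 0)) (.col (nat_lit 1)) (.slot (nat_lit 0))) (.col (nat_lit 0)) (.slot (nat_lit 3)))) (.col (nat_lit 1)) (.col (nat_lit 4)) (.slot (nat_lit 3))
def w15354 : Root := .mk (.node (.node (.node (.col (nat_lit 3)) (.slot (nat_lit 1)) (.slot (nat_lit 1))) (.node (.col (nat_lit 2)) (.slot (nat_lit 1)) (.slot (nat_lit 1))) (.col (nat_lit 1))) (.col (nat_lit 0)) (.slot (nat_lit 4))) (.col (nat_lit 0)) (.node (.node (.col (nat_lit 0)) (.col (nat_lit 1)) (.slot (nat_lit 0))) (.col (nat_lit 0)) (.slot (nat_lit 3))) (.node (.col (nat_lit 1)) (.slot (nat_lit 1)) (.slot (nat_lit 3)))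
def w15355 : Root := .mk (.node (.node (.node (.col (nat_lit 3)) (.slot (nat_lit 1)) (.slot (nat_lit 1))) (.node (.col (nat_lit 2)) (.slot (nat_lit 1)) (.slot (nat_lit 1))) (.col (nat_lit 1))) (.col (nat_lit 0)) (.slot (nat_lit 4))) (.col (nat_lit 0)) (.node (.node (.col (nat_lit 0)) (.col (nat_lit 1)) (.slot (nat_lit 0))) (.col (nat_lit 0)) (.slot (nat_lit 3))) (.node (.col (nat_lit 4)) (.slot (nat_lit 1)) (.slot (nat_lit 3)))
def l3382 : Root := .mk (.node (.node (.col (nat_lit 3)) (.slot (nat_lit 1)) (.slot (nat_lit 1))) (.node (.col (nat_lit 2)) (.slot (nat_lit 4)) (.slot (nat_lit 4))) (.col (nat_lit 1))) (.node (.col (nat_lit 0)) (.node (.node (.col (nat_lit 0)) (.col (nat_lit 1)) (.slot (nat_lit 3))) (.col (nat_lit 0)) (.col (nat_lit 2))) (.node (.slot (nat_lit 0)) (.slot (nat_lit 0)) (.slot (nat_lit 0)))) (.col (nat_lit 0)) (.col (nat_lit 2))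
def w15356 : Root := .mk (.node (.node (.node (.node (.col (nat_lit 3)) (.slot (nat_lit 1)) (.slot (nat_lit 1))) (.node (.col (nat_lit 2)) (.slot (nat_lit 4)) (.slot (nat_lit 4))) (.col (nat_lit 1))) (.col (nat_lit 0)) (.slot (nat_lit 1))) (.col (nat_lit 0)) (.node (.slot (nat_lit 0)) (.slot (nat_lit 0)) (.slot (nat_lit 0)))) (.node (.col (nat_lit 0)) (.col (nat_lit 1)) (.slot (nat_lit 3))) (.col (nat_lit 0)) (.col (nat_lit 2))
def w15357 : Root := .mk (.node (.node (.node (.node (.col (nat_lit 3)) (.slot (nat_lit 0)) (.slot (nat_lit 0))) (.node (.col (nat_lit 2)) (.slot (nat_lit 1)) (.slot (nat_lit 0))) (.col (nat_lit 1))) (.col (nat_lit 0)) (.slot (nat_lit 1))) (.col (nat_lit 0)) (.node .junk (.col (nat_lit 4)) (.slot (nat_lit 1)))) (.node .junk (.col (nat_lit 1)) (.slot (nat_lit 1))) (.col (nat_lit 0)) (.col (nat_lit 4))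
def w15358 : Root := .mk (.node (.node (.node (.col (nat_lit 3)) (.slot (nat_lit 1)) (.slot (nat_lit 1))) (.node (.col (nat_lit 2)) (.slot (nat_lit 1)) (.slot (nat_lit 0))) (.col (nat_lit 1))) (.col (nat_lit 0)) (.slot (nat_lit 1))) (.col (nat_lit 0)) (.node (.node .junk (.col (nat_lit 1)) (.slot (nat_lit 1))) (.col (nat_lit 0)) (.col (nat_lit 4))) (.col (nat_lit 2))
def w15359 : Root := .mk (.node (.node (.node (.node (.col (nat_lit 3)) (.slot (nat_lit 1)) (.slot (nat_lit 1))) (.node (.col (nat_lit 2)) (.slot (nat_lit 1)) (.slot (nat_lit 0))) (.col (nat_lit 1))) (.col (nat_lit 0)) (.slot (nat_lit 2))) (.col (nat_lit 0)) (.node (.slot (nat_lit 0)) (.slot (nat_lit 0)) (.slot (nat_lit 0)))) (.node (.col (nat_lit 0)) (.col (nat_lit 1)) (.slot (nat_lit 2))) (.col (nat_lit 0)) (.col (nat_lit 4))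
def w15360 : Root := .mk (.node (.node (.node (.col (nat_lit 3)) (.slot (nat_lit 1)) (.slot (nat_lit 4))) (.node (.col (nat_lit 2)) (.slot (nat_lit 7)) (.slot (nat_lit 5))) (.col (nat_lit 1))) (.col (nat_lit 0)) (.slot (nat_lit 6))) (.col (nat_lit 0)) (.node (.col (nat_lit 2)) .junk (.col (nat_lit 3))) (.node (.slot (nat_lit 0)) (.slot (nat_lit 0)) (.slot (nat_lit 0)))
def w15361 : Root := .mk (.node (.node (.node (.col (nat_lit 3)) (.slot (nat_lit 1)) (.slot (nat_lit 1))) (.node (.col (nat_lit 2)) (.slot (nat_lit 1)) (.slot (nat_lit 0))) (.col (nat_lit 1))) (.col (nat_lit 0)) (.slot (nat_lit 1))) (.col (nat_lit 0)) (.node (.col (nat_lit 2)) (.col (nat_lit 0)) (.node (.col (nat_lit 1)) (.slot (nat_lit 1)) .junk)) (.col (nat_lit 2))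
def l3383 : Root := .mk (.node (.node .junk (.node (.col (nat_lit 2)) (.slot (nat_lit 0)) (.slot (nat_lit 0))) (.col (nat_lit 1))) (.col (nat_lit 0)) (.col (nat_lit 2))) (.col (nat_lit 0)) (.node (.col (nat_lit 2)) (.col (nat_lit 0)) (.node (.col (nat_lit 1)) (.col (nat_lit 2)) (.slot (nat_lit 4)))) (.col (nat_lit 1))
def w15362 : Root := .mk (.node .junk (.node (.col (nat_lit 2)) (.slot (nat_lit 0)) (.slot (nat_lit 0))) (.col (nat_lit 1))) (.node (.col (nat_lit 0)) (.node (.col (nat_lit 2)) (.col (nat_lit 0)) (.node (.col (nat_lit 1)) (.col (nat_lit 2)) (.slot (nat_lit 4)))) (.node (.slot (nat_lit 0)) (.slot (nat_lit 0)) (.slot (nat_lit 0)))) (.col (nat_lit 0)) (.col (nat_lit 2))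
def w15363 : Root := .mk (.node (.slot (nat_lit 0)) (.slot (nat_lit 0)) (.col (nat_lit 1))) (.node .junk (.node (.col (nat_lit 2)) (.col (nat_lit 0)) (.node (.col (nat_lit 1)) (.col (nat_lit 2)) (.slot (nat_lit 1)))) (.col (nat_lit 3))) (.col (nat_lit 0)) (.col (nat_lit 2))
def l3384 : Root := .mk (.node (.node (.col (nat_lit 3)) (.slot (nat_lit 1)) (.slot (nat_lit 1))) (.node (.col (nat_lit 2)) (.slot (nat_lit 1)) (.slot (nat_lit 1))) (.col (nat_lit 1))) (.node (.col (nat_lit 0)) (.node (.col (nat_lit 2)) (.col (nat_lit 0)) (.node (.col (nat_lit 1)) (.col (nat_lit 2)) (.slot (nat_lit 4)))) (.node (.slot (nat_lit 0)) (.slot (nat_lit 0)) (.slot (nat_lit 0)))) (.col (nat_lit 0)) (.col (nat_lit 2))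
def w15364 : Root := .mk (.node (.node (.node (.node (.col (nat_lit 3)) (.slot (nat_lit 1)) (.slot (nat_lit 1))) (.node (.col (nat_lit 2)) (.slot (nat_lit 1)) (.slot (nat_lit 1))) (.col (nat_lit 1))) (.col (nat_lit 0)) (.slot (nat_lit 1))) (.col (nat_lit 0)) (.node (.slot (nat_lit 0)) (.slot (nat_lit 0)) (.slot (nat_lit 0)))) (.col (nat_lit 2)) (.col (nat_lit 0)) (.node (.col (nat_lit 1)) (.col (nat_lit 2)) (.slot (nat_lit 4)))
def w15365 : Root := .mk (.node (.node (.node (.node (.col (nat_lit 3)) (.slot (nat_lit 0)) (.slot (nat_lit 0))) (.node (.col (nat_lit 2)) (.slot (nat_lit 1)) (.slot (nat_lit 0))) (.col (nat_lit 1))) (.col (nat_lit 0)) (.slot (nat_lit 1))) (.col (nat_lit 0)) (.node (.col (nat_lit 1)) (.slot (nat_lit 1)) .junk)) (.col (nat_lit 2)) (.col (nat_lit 0)) (.node (.col (nat_lit 1)) (.slot (nat_lit 1)) .junk)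
def w15366 : Root := .mk (.node (.node (.node (.node (.col (nat_lit 3)) (.slot (nat_lit 1)) (.slot (nat_lit 0))) (.node (.col (nat_lit 2)) (.slot (nat_lit 0)) (.slot (nat_lit 0))) (.col (nat_lit 1))) (.col (nat_lit 0)) (.slot (nat_lit 1))) (.col (nat_lit 0)) (.node (.slot (nat_lit 0)) (.col (nat_lit 0)) (.slot (nat_lit 0)))) (.col (nat_lit 2)) (.col (nat_lit 0)) (.node (.col (nat_lit 1)) (.slot (nat_lit 1)) (.slot (nat_lit 1)))
def w15367 : Root := .mk (.node (.node (.node (.node (.col (nat_lit 3)) (.slot (nat_lit 0)) (.slot (nat_lit 0))) (.node (.col (nat_lit 2)) (.slot (nat_lit 1)) (.slot (nat_lit 0))) (.col (nat_lit 1))) (.col (nat_lit 0)) (.slot (nat_lit 1))) (.col (nat_lit 0)) (.node .junk (.col (nat_lit 3)) (.slot (nat_lit 1)))) (.col (nat_lit 2)) (.col (nat_lit 0)) (.node (.col (nat_lit 1)) (.slot (nat_lit 1)) .junk)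
def w15368 : Root := .mk (.node (.node (.node (.node (.col (nat_lit 3)) (.slot (nat_lit 0)) (.slot (nat_lit 0))) (.node (.col (nat_lit 2)) (.slot (nat_lit 1)) (.slot (nat_lit 0))) (.col (nat_lit 1))) (.col (nat_lit 0)) (.slot (nat_lit 1))) (.col (nat_lit 0)) (.node .junk (.col (nat_lit 4)) (.slot (nat_lit 1)))) (.col (nat_lit 2)) (.col (nat_lit 0)) (.node (.col (nat_lit 1)) (.slot (nat_lit 1)) .junk)
def l3385 : Root := .mk (.node (.node (.node (.node (.col (nat_lit 3)) (.slot (nat_lit 4)) (.slot (nat_lit 1))) (.node (.col (nat_lit 2)) (.slot (nat_lit 7)) (.slot (nat_lit 5))) (.col (nat_lit 1))) (.col (nat_lit 0)) (.slot (nat_lit 8))) (.col (nat_lit 0)) (.node (.slot (nat_lit 0)) (.slot (nat_lit 2)) (.slot (nat_lit 1)))) (.col (nat_lit 2)) (.col (nat_lit 0)) (.node (.col (nat_lit 1)) (.slot (nat_lit 7)) (.slot (nat_lit 5)))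
def w15369 : Root := .mk (.node (.node (.node (.node (.node (.col (nat_lit 3)) (.slot (nat_lit 4)) (.slot (nat_lit 1))) (.node (.col (nat_lit 2)) (.slot (nat_lit 7)) (.slot (nat_lit 5))) (.col (nat_lit 1))) (.col (nat_lit 0)) (.slot (nat_lit 8))) (.col (nat_lit 0)) (.node (.slot (nat_lit 0)) (.slot (nat_lit 2)) (.slot (nat_lit 1)))) (.col (nat_lit 0)) (.node (.col (nat_lit 1)) (.slot (nat_lit 7)) (.slot (nat_lit 5)))) (.col (nat_lit 0)) (.col (nat_lit 1)) (.slot (nat_lit 0))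
def w15371 : Root := .mk (.node (.node (.col (nat_lit 4)) (.col (nat_lit 0)) (.slot (nat_lit 3))) (.col (nat_lit 0)) (.node (.node (.col (nat_lit 0)) (.col (nat_lit 1)) (.slot (nat_lit 1))) (.col (nat_lit 0)) (.node (.col (nat_lit 1)) (.node (.col (nat_lit 1)) (.slot (nat_lit 0)) (.slot (nat_lit 0))) (.slot (nat_lit 1))))) (.slot (nat_lit 0)) (.col (nat_lit 4)) (.col (nat_lit 0))
def w15372 : Root := .mk (.node (.col (nat_lit 4)) (.col (nat_lit 0)) (.slot (nat_lit 0))) (.col (nat_lit 0)) (.node (.node (.col (nat_lit 0)) (.col (nat_lit 1)) (.slot (nat_lit 1))) (.col (nat_lit 0)) (.node (.col (nat_lit 1)) (.node (.col (nat_lit 1)) (.slot (nat_lit 0)) (.slot (nat_lit 0))) (.slot (nat_lit 1)))) (.node .junk (.col (nat_lit 4)) (.col (nat_lit 2)))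
def w15373 : Root := .mk (.node (.col (nat_lit 4)) (.col (nat_lit 0)) (.slot (nat_lit 4))) (.col (nat_lit 0)) (.node (.node (.col (nat_lit 0)) (.col (nat_lit 1)) (.slot (nat_lit 1))) (.col (nat_lit 0)) (.node (.col (nat_lit 1)) (.node (.col (nat_lit 1)) (.slot (nat_lit 0)) (.slot (nat_lit 0))) (.slot (nat_lit 1)))) (.node (.slot (nat_lit 0)) (.col (nat_lit 4)) (.node (.col (nat_lit 0)) (.slot (nat_lit 0)) (.slot (nat_lit 0))))
def w15374 : Root := .mk (.node (.col (nat_lit 4)) (.col (nat_lit 0)) (.slot (nat_lit 3))) (.col (nat_lit 0)) (.node (.node (.col (nat_lit 0)) (.col (nat_lit 1)) (.slot (nat_lit 1))) (.col (nat_lit 0)) (.node (.col (nat_lit 1)) (.node (.col (nat_lit 1)) (.slot (nat_lit 0)) (.slot (nat_lit 0))) (.slot (nat_lit 1)))) (.node (.slot (nat_lit 0)) (.col (nat_lit 4)) (.node (.col (nat_lit 1)) (.slot (nat_lit 0)) (.slot (nat_lit 0))))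
def w15375 : Root := .mk (.node (.col (nat_lit 4)) (.col (nat_lit 0)) (.slot (nat_lit 3))) (.col (nat_lit 0)) (.node (.node (.col (nat_lit 0)) (.col (nat_lit 1)) (.slot (nat_lit 1))) (.col (nat_lit 0)) (.node (.col (nat_lit 1)) (.node (.col (nat_lit 1)) (.slot (nat_lit 0)) (.slot (nat_lit 0))) (.slot (nat_lit 1)))) (.node (.slot (nat_lit 0)) (.col (nat_lit 4)) (.node (.col (nat_lit 2)) (.slot (nat_lit 0)) (.slot (nat_lit 0))))
def w15377 : Root := .mk (.col (nat_lit 2)) (.col (nat_lit 0)) (.node (.node (.col (nat_lit 0)) (.col (nat_lit 1)) (.slot (nat_lit 2))) (.col (nat_lit 0)) (.node (.col (nat_lit 1)) (.node (.col (nat_lit 1)) (.slot (nat_lit 0)) (.slot (nat_lit 0))) (.slot (nat_lit 6)))) (.node (.slot (nat_lit 0)) (.col (nat_lit 4)) (.slot (nat_lit 1)))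
def w15378 : Root := .mk (.node (.col (nat_lit 4)) .junk (.col (nat_lit 1))) (.col (nat_lit 0)) (.node (.node (.col (nat_lit 0)) (.col (nat_lit 1)) (.slot (nat_lit 1))) (.col (nat_lit 0)) (.node (.col (nat_lit 1)) (.node (.col (nat_lit 1)) (.slot (nat_lit 0)) (.slot (nat_lit 0))) (.slot (nat_lit 1)))) (.node (.slot (nat_lit 0)) (.col (nat_lit 4)) (.slot (nat_lit 0)))
def w15379 : Root := .mk (.col (nat_lit 4)) (.node (.col (nat_lit 0)) (.node (.node (.col (nat_lit 0)) (.col (nat_lit 1)) (.slot (nat_lit 4))) (.col (nat_lit 0)) (.node (.col (nat_lit 1)) (.node (.col (nat_lit 1)) (.slot (nat_lit 0)) (.slot (nat_lit 0))) (.slot (nat_lit 3)))) (.node (.slot (nat_lit 0)) (.col (nat_lit 4)) (.slot (nat_lit 1)))) (.col (nat_lit 0)) (.col (nat_lit 2))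
def w15380 : Root := .mk (.node (.node (.col (nat_lit 4)) (.col (nat_lit 0)) (.slot (nat_lit 2))) (.col (nat_lit 0)) (.node (.slot (nat_lit 0)) (.col (nat_lit 4)) (.slot (nat_lit 1)))) (.node .junk (.col (nat_lit 1)) (.slot (nat_lit 1))) (.col (nat_lit 0)) (.col (nat_lit 2))
def w15381 : Root := .mk (.node (.node (.node (.col (nat_lit 4)) (.col (nat_lit 0)) (.slot (nat_lit 2))) (.col (nat_lit 0)) (.node (.slot (nat_lit 0)) (.col (nat_lit 4)) (.slot (nat_lit 1)))) (.col (nat_lit 0)) (.node (.col (nat_lit 1)) (.node (.col (nat_lit 1)) (.slot (nat_lit 0)) (.slot (nat_lit 0))) (.slot (nat_lit 1)))) (.col (nat_lit 0)) (.col (nat_lit 1)) (.node (.col (nat_lit 0)) (.slot (nat_lit 0)) (.slot (nat_lit 0)))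
def w15382 : Root := .mk (.node (.node (.node (.col (nat_lit 4)) (.col (nat_lit 0)) (.slot (nat_lit 2))) (.col (nat_lit 0)) (.node (.slot (nat_lit 0)) (.col (nat_lit 4)) (.slot (nat_lit 1)))) (.col (nat_lit 0)) (.node (.col (nat_lit 1)) (.node (.col (nat_lit 1)) (.slot (nat_lit 0)) (.slot (nat_lit 0))) (.slot (nat_lit 1)))) (.col (nat_lit 0)) (.col (nat_lit 1)) (.node (.col (nat_lit 1)) (.slot (nat_lit 0)) (.slot (nat_lit 0)))
def w15383 : Root := .mk (.node (.node (.node (.col (nat_lit 4)) (.col (nat_lit 0)) (.slot (nat_lit 2))) (.col (nat_lit 0)) (.node (.slot (nat_lit 0)) (.col (nat_lit 4)) (.slot (nat_lit 1)))) (.col (nat_lit 0)) (.node (.col (nat_lit 1)) (.node (.col (nat_lit 1)) (.slot (nat_lit 0)) (.slot (nat_lit 0))) (.slot (nat_lit 1)))) (.col (nat_lit 0)) (.col (nat_lit 1)) (.node (.slot (nat_lit 0)) (.slot (nat_lit 0)) (.slot (nat_lit 0)))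
def w15384 : Root := .mk (.node (.node (.node (.col (nat_lit 4)) (.col (nat_lit 0)) (.slot (nat_lit 2))) (.col (nat_lit 0)) (.node (.slot (nat_lit 0)) (.col (nat_lit 4)) (.slot (nat_lit 1)))) (.node (.col (nat_lit 0)) (.col (nat_lit 1)) (.slot (nat_lit 2))) (.col (nat_lit 0))) (.col (nat_lit 1)) (.node (.col (nat_lit 1)) (.slot (nat_lit 1)) (.slot (nat_lit 1))) (.col (nat_lit 0))
def w15385 : Root := .mk (.node (.node (.node (.col (nat_lit 4)) (.col (nat_lit 0)) (.slot (nat_lit 2))) (.col (nat_lit 0)) (.node (.slot (nat_lit 0)) (.col (nat_lit 4)) (.slot (nat_lit 1)))) (.node (.col (nat_lit 0)) (.col (nat_lit 1)) (.slot (nat_lit 2))) (.col (nat_lit 0))) (.col (nat_lit 1)) (.node (.col (nat_lit 1)) (.slot (nat_lit 0)) (.slot (nat_lit 0))) (.slot (nat_lit 0))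
def l3386 : Root := .mk (.node (.col (nat_lit 4)) (.col (nat_lit 0)) (.slot (nat_lit 5))) (.col (nat_lit 0)) (.node (.node (.col (nat_lit 0)) (.col (nat_lit 1)) (.slot (nat_lit 4))) (.col (nat_lit 0)) (.node (.col (nat_lit 1)) (.node (.col (nat_lit 1)) (.slot (nat_lit 1)) (.slot (nat_lit 1))) (.slot (nat_lit 6)))) (.node (.slot (nat_lit 0)) (.col (nat_lit 4)) (.slot (nat_lit 3)))
def w15386 : Root := .mk (.col (nat_lit 4)) (.node (.col (nat_lit 0)) (.node (.node (.col (nat_lit 0)) (.col (nat_lit 1)) (.slot (nat_lit 4))) (.col (nat_lit 0)) (.node (.col (nat_lit 1)) (.node (.col (nat_lit 1)) (.slot (nat_lit 1)) (.slot (nat_lit 1))) (.slot (nat_lit 6)))) (.node (.slot (nat_lit 0)) (.slot (nat_lit 1)) (.slot (nat_lit 3)))) (.col (nat_lit 0)) (.slot (nat_lit 5))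
def w15387 : Root := .mk (.node (.node (.node (.node (.col (nat_lit 3)) (.slot (nat_lit 1)) (.slot (nat_lit 1))) (.node (.col (nat_lit 2)) (.slot (nat_lit 1)) (.slot (nat_lit 0))) (.col (nat_lit 1))) (.col (nat_lit 0)) (.slot (nat_lit 5))) (.col (nat_lit 0)) (.node (.slot (nat_lit 0)) (.slot (nat_lit 3)) (.slot (nat_lit 1)))) (.node (.col (nat_lit 0)) (.col (nat_lit 1)) (.slot (nat_lit 4))) (.col (nat_lit 0)) (.node (.col (nat_lit 1)) (.node (.col (nat_lit 1)) (.slot (nat_lit 1)) (.slot (nat_lit 1))) (.slot (nat_lit 6)))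
def w15390 : Root := .mk (.node (.node (.node (.node (.col (nat_lit 3)) (.slot (nat_lit 1)) (.slot (nat_lit 0))) (.node (.col (nat_lit 2)) (.slot (nat_lit 0)) (.slot (nat_lit 0))) (.col (nat_lit 1))) (.col (nat_lit 0)) (.slot (nat_lit 1))) (.col (nat_lit 0)) (.node .junk (.col (nat_lit 2)) (.slot (nat_lit 1)))) (.col (nat_lit 2)) (.col (nat_lit 0)) (.node (.col (nat_lit 1)) (.node (.slot (nat_lit 0)) (.slot (nat_lit 0)) (.slot (nat_lit 0))) .junk)
def w15393 : Root := .mk (.col (nat_lit 4)) (.node (.col (nat_lit 0)) (.node (.node (.col (nat_lit 0)) (.col (nat_lit 1)) (.slot (nat_lit 4))) (.col (nat_lit 0)) (.node (.col (nat_lit 1)) (.node (.slot (nat_lit 0)) (.slot (nat_lit 0)) (.slot (nat_lit 0))) (.slot (nat_lit 3)))) (.node (.slot (nat_lit 0)) (.slot (nat_lit 0)) (.slot (nat_lit 0)))) (.col (nat_lit 0)) (.slot (nat_lit 2))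
def w15394 : Root := .mk (.node (.node (.node (.node (.col (nat_lit 3)) (.slot (nat_lit 1)) (.slot (nat_lit 1))) (.node (.col (nat_lit 2)) (.slot (nat_lit 1)) (.slot (nat_lit 0))) (.col (nat_lit 1))) (.col (nat_lit 0)) (.slot (nat_lit 2))) (.col (nat_lit 0)) (.node (.slot (nat_lit 0)) (.slot (nat_lit 0)) (.slot (nat_lit 0)))) (.node (.col (nat_lit 0)) (.col (nat_lit 1)) (.slot (nat_lit 4))) (.col (nat_lit 0)) (.node (.col (nat_lit 1)) (.node (.slot (nat_lit 0)) (.slot (nat_lit 0)) (.slot (nat_lit 0))) (.slot (nat_lit 3)))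
def l3388 : Root := .mk (.node (.node (.node (.node (.col (nat_lit 3)) (.slot (nat_lit 4)) (.slot (nat_lit 4))) (.node (.col (nat_lit 2)) (.slot (nat_lit 7)) (.slot (nat_lit 5))) (.col (nat_lit 1))) (.col (nat_lit 0)) (.slot (nat_lit 8))) (.col (nat_lit 0)) (.node (.slot (nat_lit 0)) (.slot (nat_lit 3)) (.slot (nat_lit 1)))) (.node (.col (nat_lit 0)) (.col (nat_lit 1)) (.slot (nat_lit 5))) (.col (nat_lit 0)) (.node (.col (nat_lit 1)) (.slot (nat_lit 7)) (.slot (nat_lit 6)))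
def w15395 : Root := .mk (.node (.node (.node (.col (nat_lit 3)) (.slot (nat_lit 4)) (.slot (nat_lit 4))) (.node (.col (nat_lit 2)) (.slot (nat_lit 7)) (.slot (nat_lit 5))) (.col (nat_lit 1))) (.col (nat_lit 0)) (.slot (nat_lit 8))) (.col (nat_lit 0)) (.node (.node (.col (nat_lit 0)) (.col (nat_lit 1)) (.slot (nat_lit 5))) (.col (nat_lit 0)) (.slot (nat_lit 8))) (.node (.slot (nat_lit 0)) (.slot (nat_lit 3)) (.slot (nat_lit 1)))
def w15396 : Root := .mk (.node (.node (.node (.node (.col (nat_lit 3)) (.slot (nat_lit 1)) (.slot (nat_lit 0))) (.node (.col (nat_lit 2)) (.slot (nat_lit 0)) (.slot (nat_lit 0))) (.col (nat_lit 1))) (.col (nat_lit 0)) (.slot (nat_lit 1))) (.col (nat_lit 0)) (.slot (nat_lit 1))) (.col (nat_lit 2)) (.col (nat_lit 0)) (.node (.col (nat_lit 1)) (.node (.col (nat_lit 1)) (.slot (nat_lit 0)) (.slot (nat_lit 0))) (.slot (nat_lit 1)))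
def w15397 : Root := .mk (.node (.node (.node (.node (.col (nat_lit 3)) (.slot (nat_lit 0)) (.slot (nat_lit 0))) (.node (.col (nat_lit 2)) (.slot (nat_lit 7)) (.slot (nat_lit 5))) (.col (nat_lit 1))) (.col (nat_lit 0)) (.slot (nat_lit 3))) (.col (nat_lit 0)) (.slot (nat_lit 2))) (.col (nat_lit 2)) (.col (nat_lit 0)) (.node (.col (nat_lit 1)) (.node (.slot (nat_lit 0)) (.slot (nat_lit 0)) (.slot (nat_lit 0))) (.slot (nat_lit 1)))
def l3389 : Root := .mk (.node (.node (.node (.node (.col (nat_lit 3)) (.slot (nat_lit 6)) (.slot (nat_lit 1))) (.node (.col (nat_lit 2)) (.slot (nat_lit 7)) (.slot (nat_lit 5))) (.col (nat_lit 1))) (.col (nat_lit 0)) (.slot (nat_lit 6))) (.col (nat_lit 0)) (.slot (nat_lit 5))) (.col (nat_lit 2)) (.col (nat_lit 0)) (.node (.col (nat_lit 1)) (.slot (nat_lit 7)) (.slot (nat_lit 5)))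
def w15398 : Root := .mk (.node (.node (.node (.node (.col (nat_lit 3)) (.slot (nat_lit 6)) (.slot (nat_lit 1))) (.node (.col (nat_lit 2)) (.slot (nat_lit 7)) (.slot (nat_lit 5))) (.col (nat_lit 1))) (.col (nat_lit 0)) (.slot (nat_lit 6))) (.col (nat_lit 0)) (.slot (nat_lit 5))) (.col (nat_lit 2)) (.col (nat_lit 0)) (.slot (nat_lit 8))
def w15399 : Root := .mk (.node (.node (.node (.node (.col (nat_lit 3)) (.slot (nat_lit 1)) (.slot (nat_lit 1))) (.node (.col (nat_lit 2)) (.slot (nat_lit 1)) (.slot (nat_lit 0))) (.col (nat_lit 1))) (.col (nat_lit 0)) (.slot (nat_lit 3))) (.col (nat_lit 0)) (.slot (nat_lit 1))) (.col (nat_lit 4)) (.col (nat_lit 0)) (.slot (nat_lit 3))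
def w15400 : Root := .mk (.node (.node (.node (.node (.col (nat_lit 3)) (.slot (nat_lit 0)) (.slot (nat_lit 0))) (.node (.col (nat_lit 2)) (.slot (nat_lit 1)) (.slot (nat_lit 0))) (.col (nat_lit 1))) (.col (nat_lit 0)) (.slot (nat_lit 1))) (.col (nat_lit 0)) (.slot (nat_lit 8))) (.node (.col (nat_lit 0)) (.col (nat_lit 1)) (.slot (nat_lit 0))) (.col (nat_lit 0)) (.col (nat_lit 1))
def w15401 : Root := .mk (.node (.node (.node (.node (.col (nat_lit 3)) (.slot (nat_lit 1)) (.slot (nat_lit 1))) (.node (.col (nat_lit 2)) (.slot (nat_lit 6)) (.slot (nat_lit 1))) (.col (nat_lit 1))) (.col (nat_lit 0)) (.slot (nat_lit 2))) (.col (nat_lit 0)) (.slot (nat_lit 8))) (.node (.col (nat_lit 0)) (.col (nat_lit 1)) (.slot (nat_lit 3))) (.col (nat_lit 0)) (.node (.col (nat_lit 0)) (.slot (nat_lit 3)) (.slot (nat_lit 1)))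
def w15402 : Root := .mk (.node (.node (.node (.node (.col (nat_lit 3)) (.slot (nat_lit 1)) (.slot (nat_lit 1))) (.node (.col (nat_lit 2)) (.slot (nat_lit 6)) (.slot (nat_lit 1))) (.col (nat_lit 1))) (.col (nat_lit 0)) (.slot (nat_lit 2))) (.col (nat_lit 0)) (.slot (nat_lit 8))) (.node (.col (nat_lit 0)) (.col (nat_lit 1)) (.slot (nat_lit 1))) (.col (nat_lit 0)) (.node (.col (nat_lit 2)) (.slot (nat_lit 1)) (.slot (nat_lit 1)))
def w15403 : Root := .mk (.node (.node (.node (.node (.col (nat_lit 3)) (.slot (nat_lit 1)) (.slot (nat_lit 1))) (.node (.col (nat_lit 2)) (.slot (nat_lit 6)) (.slot (nat_lit 1))) (.col (nat_lit 1))) (.col (nat_lit 0)) (.slot (nat_lit 2))) (.col (nat_lit 0)) (.slot (nat_lit 8))) (.node (.col (nat_lit 0)) (.col (nat_lit 1)) (.slot (nat_lit 3))) (.col (nat_lit 0)) (.node (.col (nat_lit 4)) (.slot (nat_lit 3)) (.slot (nat_lit 1)))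
def l3390 : Root := .mk (.node (.node (.col (nat_lit 2)) (.node (.col (nat_lit 2)) (.slot (nat_lit 0)) (.slot (nat_lit 0))) (.col (nat_lit 1))) (.col (nat_lit 0)) (.col (nat_lit 2))) (.col (nat_lit 0)) (.node (.col (nat_lit 2)) (.col (nat_lit 0)) (.node (.slot (nat_lit 0)) (.col (nat_lit 1)) (.slot (nat_lit 1)))) (.col (nat_lit 1))
def w15405 : Root := .mk (.col (nat_lit 2)) (.node (.node (.col (nat_lit 0)) (.node (.col (nat_lit 2)) (.col (nat_lit 0)) (.node (.slot (nat_lit 0)) (.col (nat_lit 1)) (.slot (nat_lit 1)))) (.slot (nat_lit 1))) (.col (nat_lit 0)) (.col (nat_lit 2))) (.node (.col (nat_lit 2)) (.slot (nat_lit 0)) (.slot (nat_lit 0))) (.col (nat_lit 1))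
def l3391 : Root := .mk (.node (.node (.col (nat_lit 3)) (.slot (nat_lit 1)) (.slot (nat_lit 1))) (.node (.col (nat_lit 2)) (.slot (nat_lit 6)) (.slot (nat_lit 6))) (.col (nat_lit 1))) (.node (.col (nat_lit 0)) (.node (.col (nat_lit 2)) (.col (nat_lit 0)) (.node (.slot (nat_lit 0)) (.col (nat_lit 1)) (.slot (nat_lit 1)))) (.slot (nat_lit 2))) (.col (nat_lit 0)) (.col (nat_lit 2))
def w15406 : Root := .mk (.node (.node (.node (.node (.col (nat_lit 3)) (.slot (nat_lit 1)) (.slot (nat_lit 1))) (.node (.col (nat_lit 2)) (.slot (nat_lit 6)) (.slot (nat_lit 6))) (.col (nat_lit 1))) (.col (nat_lit 0)) (.slot (nat_lit 1))) (.col (nat_lit 0)) (.slot (nat_lit 2))) (.col (nat_lit 2)) (.col (nat_lit 0)) (.node (.slot (nat_lit 0)) (.col (nat_lit 1)) (.slot (nat_lit 1)))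
def l3395 : Root := .mk (.node (.col (nat_lit 4)) (.col (nat_lit 0)) (.slot (nat_lit 5))) (.col (nat_lit 0)) (.node (.node (.col (nat_lit 0)) (.col (nat_lit 1)) (.slot (nat_lit 3))) (.col (nat_lit 0)) (.node (.slot (nat_lit 0)) (.col (nat_lit 1)) (.col (nat_lit 0)))) (.node (.col (nat_lit 4)) (.slot (nat_lit 7)) (.slot (nat_lit 5)))
def w15413 : Root := .mk (.col (nat_lit 4)) (.node (.col (nat_lit 0)) (.node (.node (.col (nat_lit 0)) (.col (nat_lit 1)) (.slot (nat_lit 3))) (.col (nat_lit 0)) (.node (.slot (nat_lit 0)) (.col (nat_lit 1)) (.col (nat_lit 0)))) (.slot (nat_lit 8))) (.col (nat_lit 0)) (.slot (nat_lit 5))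
def w15414 : Root := .mk (.node (.node (.node (.node (.node (.col (nat_lit 3)) (.slot (nat_lit 1)) (.slot (nat_lit 1))) (.node (.col (nat_lit 2)) (.slot (nat_lit 1)) (.slot (nat_lit 0))) (.col (nat_lit 1))) (.col (nat_lit 0)) (.slot (nat_lit 5))) (.col (nat_lit 0)) (.slot (nat_lit 8))) (.node (.col (nat_lit 0)) (.col (nat_lit 1)) (.slot (nat_lit 3))) (.col (nat_lit 0))) (.slot (nat_lit 0)) (.col (nat_lit 1)) (.col (nat_lit 0))
def w15418 : Root := .mk (.node (.node (.node (.node (.col (nat_lit 3)) (.slot (nat_lit 1)) (.slot (nat_lit 1))) (.node (.col (nat_lit 2)) (.slot (nat_lit 1)) (.slot (nat_lit 0))) (.col (nat_lit 1))) (.col (nat_lit 0)) (.slot (nat_lit 2))) (.col (nat_lit 0)) (.node (.col (nat_lit 0)) (.slot (nat_lit 0)) (.slot (nat_lit 0)))) (.node (.col (nat_lit 0)) (.col (nat_lit 1)) (.slot (nat_lit 2))) (.col (nat_lit 0)) (.col (nat_lit 4))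
def w15419 : Root := .mk (.node (.node (.node (.node (.col (nat_lit 3)) (.slot (nat_lit 1)) (.slot (nat_lit 0))) (.node (.col (nat_lit 2)) (.slot (nat_lit 0)) (.slot (nat_lit 0))) (.col (nat_lit 1))) (.col (nat_lit 0)) (.slot (nat_lit 1))) (.col (nat_lit 0)) (.node (.col (nat_lit 2)) (.slot (nat_lit 1)) (.slot (nat_lit 0)))) (.node (.col (nat_lit 0)) (.col (nat_lit 1)) (.slot (nat_lit 1))) (.col (nat_lit 0)) (.col (nat_lit 4))
def w15420 : Root := .mk (.node (.node (.node (.node (.node (.col (nat_lit 3)) (.slot (nat_lit 0)) (.slot (nat_lit 0))) (.node (.col (nat_lit 2)) (.slot (nat_lit 1)) (.slot (nat_lit 0))) (.col (nat_lit 1))) (.col (nat_lit 0)) (.slot (nat_lit 1))) (.col (nat_lit 0)) (.col (nat_lit 1))) .junk (.col (nat_lit 4))) (.col (nat_lit 0)) (.col (nat_lit 1)) (.col (nat_lit 4))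
def w15421 : Root := .mk (.node (.node (.node (.node (.node (.col (nat_lit 3)) (.slot (nat_lit 1)) (.slot (nat_lit 1))) (.node (.col (nat_lit 2)) (.slot (nat_lit 1)) (.slot (nat_lit 0))) (.col (nat_lit 1))) (.col (nat_lit 0)) (.slot (nat_lit 2))) (.col (nat_lit 0)) (.col (nat_lit 2))) (.col (nat_lit 0)) (.col (nat_lit 4))) (.col (nat_lit 0)) (.col (nat_lit 1)) (.col (nat_lit 4))
def w15422 : Root := .mk (.node (.node (.node (.col (nat_lit 2)) (.col (nat_lit 0)) (.slot (nat_lit 0))) (.col (nat_lit 0)) (.node (.col (nat_lit 4)) (.slot (nat_lit 2)) (.slot (nat_lit 2)))) (.col (nat_lit 0)) (.col (nat_lit 4))) (.col (nat_lit 0)) (.col (nat_lit 1)) (.col (nat_lit 4))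
def w15423 : Root := .mk (.node (.node (.col (nat_lit 3)) (.slot (nat_lit 1)) (.slot (nat_lit 1))) (.node (.col (nat_lit 2)) (.slot (nat_lit 1)) (.slot (nat_lit 0))) (.col (nat_lit 1))) (.node (.col (nat_lit 0)) (.node (.slot (nat_lit 0)) (.col (nat_lit 0)) (.col (nat_lit 4))) (.node (.col (nat_lit 4)) (.slot (nat_lit 3)) (.slot (nat_lit 1)))) (.col (nat_lit 0)) (.col (nat_lit 1))
def w15424 : Root := .mk (.node (.node (.node (.node (.node (.col (nat_lit 3)) (.slot (nat_lit 0)) (.slot (nat_lit 0))) (.node (.col (nat_lit 2)) (.slot (nat_lit 1)) (.slot (nat_lit 0))) (.col (nat_lit 1))) (.col (nat_lit 0)) (.slot (nat_lit 1))) (.col (nat_lit 0)) (.node (.col (nat_lit 4)) (.col (nat_lit 0)) (.slot (nat_lit 2)))) (.col (nat_lit 0)) (.col (nat_lit 4))) (.col (nat_lit 0)) (.col (nat_lit 1)) (.col (nat_lit 4))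
def w15425 : Root := .mk (.node (.node (.node (.node (.col (nat_lit 3)) (.slot (nat_lit 0)) (.slot (nat_lit 0))) (.node (.col (nat_lit 2)) (.slot (nat_lit 1)) (.slot (nat_lit 0))) (.col (nat_lit 1))) (.col (nat_lit 0)) (.slot (nat_lit 1))) (.col (nat_lit 0)) (.node (.col (nat_lit 4)) (.node (.col (nat_lit 1)) (.slot (nat_lit 1)) (.slot (nat_lit 1))) (.slot (nat_lit 2)))) (.slot (nat_lit 0)) (.col (nat_lit 0)) (.col (nat_lit 4))
def w15426 : Root := .mk (.node (.node (.node (.node (.col (nat_lit 3)) (.slot (nat_lit 0)) (.slot (nat_lit 0))) (.node (.col (nat_lit 2)) (.slot (nat_lit 1)) (.slot (nat_lit 0))) (.col (nat_lit 1))) (.col (nat_lit 0)) (.slot (nat_lit 1))) (.col (nat_lit 0)) (.node (.col (nat_lit 4)) (.node (.col (nat_lit 2)) (.slot (nat_lit 1)) (.slot (nat_lit 1))) (.slot (nat_lit 2)))) (.slot (nat_lit 0)) (.col (nat_lit 0)) (.col (nat_lit 4))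
def w15427 : Root := .mk (.node (.node (.node (.node (.node (.col (nat_lit 3)) (.slot (nat_lit 0)) (.slot (nat_lit 0))) (.node (.col (nat_lit 2)) (.slot (nat_lit 1)) (.slot (nat_lit 0))) (.col (nat_lit 1))) (.col (nat_lit 0)) (.slot (nat_lit 1))) (.col (nat_lit 0)) (.node (.col (nat_lit 4)) (.node (.col (nat_lit 4)) (.slot (nat_lit 0)) (.slot (nat_lit 0))) (.slot (nat_lit 1)))) (.col (nat_lit 0)) (.col (nat_lit 4))) (.col (nat_lit 0)) (.col (nat_lit 1)) (.col (nat_lit 4))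
def w15428 : Root := .mk (.node (.node (.node (.node (.node (.col (nat_lit 3)) (.slot (nat_lit 0)) (.slot (nat_lit 0))) (.node (.col (nat_lit 2)) (.slot (nat_lit 1)) (.slot (nat_lit 0))) (.col (nat_lit 1))) (.col (nat_lit 0)) (.slot (nat_lit 1))) (.col (nat_lit 0)) (.node (.col (nat_lit 4)) (.node (.slot (nat_lit 0)) (.slot (nat_lit 0)) (.slot (nat_lit 0))) (.slot (nat_lit 1)))) (.col (nat_lit 0)) (.col (nat_lit 4))) (.col (nat_lit 0)) (.col (nat_lit 1)) (.col (nat_lit 4))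
def l3397 : Root := .mk (.node (.node (.node (.node (.node (.col (nat_lit 3)) (.slot (nat_lit 1)) (.slot (nat_lit 1))) (.node (.col (nat_lit 2)) (.slot (nat_lit 1)) (.slot (nat_lit 1))) (.col (nat_lit 1))) (.col (nat_lit 0)) (.slot (nat_lit 4))) (.col (nat_lit 0)) (.node (.col (nat_lit 4)) (.slot (nat_lit 7)) (.slot (nat_lit 5)))) (.col (nat_lit 0)) (.col (nat_lit 4))) (.col (nat_lit 0)) (.col (nat_lit 1)) (.col (nat_lit 4))
def w15429 : Root := .mk (.node (.node (.node (.node (.node (.col (nat_lit 3)) (.slot (nat_lit 1)) (.slot (nat_lit 1))) (.node (.col (nat_lit 2)) (.slot (nat_lit 1)) (.slot (nat_lit 1))) (.col (nat_lit 1))) (.col (nat_lit 0)) (.slot (nat_lit 4))) (.col (nat_lit 0)) (.slot (nat_lit 8))) (.col (nat_lit 0)) (.col (nat_lit 4))) (.col (nat_lit 0)) (.col (nat_lit 1)) (.col (nat_lit 4))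
def w15430 : Root := .mk (.node (.node (.node (.node (.node (.col (nat_lit 3)) (.slot (nat_lit 1)) (.slot (nat_lit 1))) (.node (.col (nat_lit 2)) (.slot (nat_lit 1)) (.slot (nat_lit 0))) (.col (nat_lit 1))) (.col (nat_lit 0)) (.slot (nat_lit 3))) (.col (nat_lit 0)) (.slot (nat_lit 8))) (.col (nat_lit 0)) (.col (nat_lit 4))) (.col (nat_lit 0)) (.col (nat_lit 1)) (.node (.col (nat_lit 0)) (.slot (nat_lit 0)) (.slot (nat_lit 0)))
def w15431 : Root := .mk (.node (.node (.node (.node (.node (.col (nat_lit 3)) (.slot (nat_lit 1)) (.slot (nat_lit 1))) (.node (.col (nat_lit 2)) (.slot (nat_lit 1)) (.slot (nat_lit 0))) (.col (nat_lit 1))) (.col (nat_lit 0)) (.slot (nat_lit 4))) (.col (nat_lit 0)) (.slot (nat_lit 4))) (.col (nat_lit 0)) (.col (nat_lit 4))) (.col (nat_lit 0)) (.col (nat_lit 1)) (.node (.col (nat_lit 1)) (.slot (nat_lit 0)) (.slot (nat_lit 0)))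
def w15432 : Root := .mk (.node (.node (.node (.col (nat_lit 3)) (.slot (nat_lit 0)) (.slot (nat_lit 0))) (.slot (nat_lit 0)) (.col (nat_lit 1))) (.col (nat_lit 0)) (.slot (nat_lit 1))) (.col (nat_lit 0)) (.node (.node (.col (nat_lit 0)) (.col (nat_lit 1)) (.node (.slot (nat_lit 0)) (.slot (nat_lit 0)) (.slot (nat_lit 0)))) (.col (nat_lit 0)) (.col (nat_lit 4))) (.col (nat_lit 1))
def l3398 : Root := .mk (.node (.node (.node (.node (.col (nat_lit 3)) (.slot (nat_lit 1)) (.slot (nat_lit 1))) (.node (.col (nat_lit 2)) (.slot (nat_lit 1)) (.slot (nat_lit 1))) (.col (nat_lit 1))) (.col (nat_lit 0)) (.slot (nat_lit 4))) (.col (nat_lit 0)) (.node (.col (nat_lit 4)) (.slot (nat_lit 3)) (.slot (nat_lit 2)))) (.node (.col (nat_lit 0)) (.col (nat_lit 1)) (.node (.slot (nat_lit 0)) (.slot (nat_lit 0)) (.slot (nat_lit 0)))) (.col (nat_lit 0)) (.col (nat_lit 4))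
def w15433 : Root := .mk (.node (.node (.node (.node (.node (.col (nat_lit 3)) (.slot (nat_lit 1)) (.slot (nat_lit 1))) (.node (.col (nat_lit 2)) (.slot (nat_lit 1)) (.slot (nat_lit 1))) (.col (nat_lit 1))) (.col (nat_lit 0)) (.slot (nat_lit 4))) (.col (nat_lit 0)) (.slot (nat_lit 4))) (.col (nat_lit 0)) (.col (nat_lit 4))) (.col (nat_lit 0)) (.col (nat_lit 1)) (.node (.slot (nat_lit 0)) (.slot (nat_lit 0)) (.slot (nat_lit 0)))
def w15434 : Root := .mk (.node (.node (.col (nat_lit 3)) (.slot (nat_lit 1)) (.slot (nat_lit 1))) (.node (.col (nat_lit 2)) (.slot (nat_lit 1)) (.slot (nat_lit 0))) (.col (nat_lit 1))) (.node (.col (nat_lit 0)) (.node (.node .junk (.col (nat_lit 1)) (.slot (nat_lit 1))) (.col (nat_lit 0)) (.col (nat_lit 4))) (.slot (nat_lit 1))) (.col (nat_lit 0)) (.col (nat_lit 1))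
def l3399 : Root := .mk (.node (.node (.node (.node (.col (nat_lit 3)) (.slot (nat_lit 6)) (.slot (nat_lit 1))) (.node (.col (nat_lit 2)) (.slot (nat_lit 6)) (.slot (nat_lit 1))) (.col (nat_lit 1))) (.col (nat_lit 0)) (.slot (nat_lit 6))) (.col (nat_lit 0)) (.slot (nat_lit 8))) (.node (.col (nat_lit 0)) (.col (nat_lit 1)) (.slot (nat_lit 8))) (.col (nat_lit 0)) (.col (nat_lit 4))
def w15435 : Root := .mk (.node (.node (.node (.node (.col (nat_lit 3)) (.slot (nat_lit 6)) (.slot (nat_lit 1))) (.node (.col (nat_lit 2)) (.slot (nat_lit 6)) (.slot (nat_lit 1))) (.col (nat_lit 1))) (.col (nat_lit 0)) (.slot (nat_lit 6))) (.col (nat_lit 0)) (.slot (nat_lit 8))) (.node (.col (nat_lit 0)) (.col (nat_lit 1)) (.slot (nat_lit 8))) (.col (nat_lit 0)) (.node (.slot (nat_lit 0)) (.slot (nat_lit 0)) (.slot (nat_lit 0)))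
def w15436 : Root := .mk (.node (.node (.node (.col (nat_lit 3)) (.slot (nat_lit 0)) (.slot (nat_lit 0))) (.node (.col (nat_lit 2)) (.slot (nat_lit 1)) (.slot (nat_lit 0))) (.col (nat_lit 1))) (.col (nat_lit 0)) (.slot (nat_lit 1))) (.col (nat_lit 0)) (.node (.node .junk (.col (nat_lit 1)) (.col (nat_lit 2))) (.col (nat_lit 0)) (.slot (nat_lit 1))) (.col (nat_lit 1))
def w15437 : Root := .mk (.node (.node (.node (.col (nat_lit 3)) (.slot (nat_lit 1)) (.slot (nat_lit 1))) (.node (.col (nat_lit 2)) (.slot (nat_lit 1)) (.slot (nat_lit 0))) (.col (nat_lit 1))) (.col (nat_lit 0)) (.slot (nat_lit 1))) (.col (nat_lit 0)) (.node (.node .junk (.col (nat_lit 1)) (.col (nat_lit 2))) (.col (nat_lit 0)) (.slot (nat_lit 1))) (.col (nat_lit 2))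
def w15438 : Root := .mk (.node (.node (.node (.node (.node (.col (nat_lit 3)) (.slot (nat_lit 1)) (.slot (nat_lit 1))) (.node (.col (nat_lit 2)) (.slot (nat_lit 1)) (.slot (nat_lit 0))) (.col (nat_lit 1))) (.col (nat_lit 0)) (.slot (nat_lit 4))) (.col (nat_lit 0)) (.col (nat_lit 3))) (.col (nat_lit 0)) (.slot (nat_lit 1))) (.col (nat_lit 0)) (.col (nat_lit 1)) (.col (nat_lit 2))
def w15439 : Root := .mk (.node (.node (.col (nat_lit 3)) (.slot (nat_lit 0)) (.slot (nat_lit 0))) (.node (.col (nat_lit 2)) (.slot (nat_lit 1)) (.slot (nat_lit 0))) (.col (nat_lit 1))) (.node (.col (nat_lit 0)) (.node (.node .junk (.col (nat_lit 1)) (.col (nat_lit 2))) (.col (nat_lit 0)) (.slot (nat_lit 1))) (.node (.col (nat_lit 4)) (.slot (nat_lit 1)) .junk)) (.col (nat_lit 0)) (.node (.col (nat_lit 2)) (.slot (nat_lit 0)) (.slot (nat_lit 0)))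
def w15440 : Root := .mk (.node (.slot (nat_lit 0)) (.node (.col (nat_lit 2)) (.slot (nat_lit 0)) (.slot (nat_lit 0))) (.col (nat_lit 1))) (.node (.col (nat_lit 0)) (.node (.node .junk (.col (nat_lit 1)) (.col (nat_lit 2))) (.col (nat_lit 0)) (.slot (nat_lit 1))) (.node (.col (nat_lit 4)) (.slot (nat_lit 1)) .junk)) (.col (nat_lit 0)) (.node (.col (nat_lit 3)) (.slot (nat_lit 1)) (.slot (nat_lit 1)))
def w15441 : Root := .mk (.node (.node (.node (.node (.col (nat_lit 3)) (.slot (nat_lit 0)) (.slot (nat_lit 0))) (.node (.col (nat_lit 2)) (.slot (nat_lit 1)) (.slot (nat_lit 0))) (.col (nat_lit 1))) (.col (nat_lit 0)) (.slot (nat_lit 1))) (.col (nat_lit 0)) (.node (.col (nat_lit 4)) (.slot (nat_lit 1)) (.slot (nat_lit 1)))) (.col (nat_lit 3)) (.col (nat_lit 0)) (.slot (nat_lit 1))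
def w15442 : Root := .mk (.node (.node (.node (.node (.node (.col (nat_lit 3)) (.slot (nat_lit 0)) (.slot (nat_lit 0))) (.node (.col (nat_lit 2)) (.slot (nat_lit 1)) (.slot (nat_lit 0))) (.col (nat_lit 1))) (.col (nat_lit 0)) (.slot (nat_lit 1))) (.col (nat_lit 0)) (.node (.col (nat_lit 4)) (.slot (nat_lit 1)) (.slot (nat_lit 1)))) (.col (nat_lit 0)) (.col (nat_lit 1))) (.col (nat_lit 0)) (.col (nat_lit 1)) (.col (nat_lit 2))
def w15443 : Root := .mk (.node (.node (.node (.node (.node (.col (nat_lit 3)) (.slot (nat_lit 1)) (.slot (nat_lit 0))) (.node (.col (nat_lit 2)) (.slot (nat_lit 0)) (.slot (nat_lit 0))) (.col (nat_lit 1))) (.col (nat_lit 0)) (.slot (nat_lit 1))) (.col (nat_lit 0)) (.node (.col (nat_lit 4)) (.slot (nat_lit 1)) (.slot (nat_lit 1)))) (.col (nat_lit 0)) (.col (nat_lit 2))) (.col (nat_lit 0)) (.col (nat_lit 1)) (.col (nat_lit 2))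
def w15444 : Root := .mk (.node (.node (.node (.node (.col (nat_lit 3)) (.slot (nat_lit 0)) (.slot (nat_lit 0))) (.node (.col (nat_lit 2)) (.slot (nat_lit 1)) (.slot (nat_lit 0))) (.col (nat_lit 1))) (.col (nat_lit 0)) (.slot (nat_lit 1))) (.col (nat_lit 0)) (.node (.col (nat_lit 4)) (.slot (nat_lit 1)) .junk)) (.node .junk (.col (nat_lit 1)) (.col (nat_lit 2))) (.col (nat_lit 0)) (.node (.col (nat_lit 0)) (.slot (nat_lit 0)) (.slot (nat_lit 0)))
def w15445 : Root := .mk (.node (.node (.node (.node (.col (nat_lit 3)) (.slot (nat_lit 0)) (.slot (nat_lit 0))) (.node (.col (nat_lit 2)) (.slot (nat_lit 1)) (.slot (nat_lit 0))) (.col (nat_lit 1))) (.col (nat_lit 0)) (.slot (nat_lit 1))) (.col (nat_lit 0)) (.node (.col (nat_lit 4)) (.slot (nat_lit 1)) .junk)) (.node .junk (.col (nat_lit 1)) (.col (nat_lit 2))) (.col (nat_lit 0)) (.node (.col (nat_lit 3)) (.slot (nat_lit 0)) (.slot (nat_lit 0)))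
def w15446 : Root := .mk (.node (.node (.node (.node (.col (nat_lit 3)) (.slot (nat_lit 0)) (.slot (nat_lit 0))) (.node (.col (nat_lit 2)) (.slot (nat_lit 1)) (.slot (nat_lit 0))) (.col (nat_lit 1))) (.col (nat_lit 0)) (.slot (nat_lit 1))) (.col (nat_lit 0)) (.node (.col (nat_lit 4)) (.slot (nat_lit 1)) (.slot (nat_lit 0)))) (.node .junk (.col (nat_lit 1)) (.col (nat_lit 2))) (.col (nat_lit 0)) (.node (.col (nat_lit 4)) (.slot (nat_lit 0)) (.slot (nat_lit 0)))
def w15447 : Root := .mk (.node (.node (.node (.col (nat_lit 3)) (.slot (nat_lit 0)) (.slot (nat_lit 0))) (.node (.col (nat_lit 2)) (.slot (nat_lit 1)) (.slot (nat_lit 0))) (.col (nat_lit 1))) (.col (nat_lit 0)) (.slot (nat_lit 1))) (.col (nat_lit 0)) (.node (.node .junk (.col (nat_lit 1)) (.col (nat_lit 2))) (.col (nat_lit 0)) (.slot (nat_lit 1))) (.node (.col (nat_lit 4)) .junk (.slot (nat_lit 1)))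
def l3400 : Root := .mk (.node (.node (.node (.node (.node (.col (nat_lit 3)) (.slot (nat_lit 1)) (.slot (nat_lit 1))) (.node (.col (nat_lit 2)) (.slot (nat_lit 1)) (.slot (nat_lit 1))) (.col (nat_lit 1))) (.col (nat_lit 0)) (.slot (nat_lit 4))) (.col (nat_lit 0)) (.node (.col (nat_lit 4)) (.slot (nat_lit 7)) (.slot (nat_lit 5)))) (.col (nat_lit 0)) (.slot (nat_lit 4))) (.col (nat_lit 0)) (.col (nat_lit 1)) (.col (nat_lit 2))
def w15448 : Root := .mk (.node (.node (.node (.node (.node (.col (nat_lit 3)) (.slot (nat_lit 1)) (.slot (nat_lit 1))) (.node (.col (nat_lit 2)) (.slot (nat_lit 1)) (.slot (nat_lit 1))) (.col (nat_lit 1))) (.col (nat_lit 0)) (.slot (nat_lit 4))) (.col (nat_lit 0)) (.slot (nat_lit 8))) (.col (nat_lit 0)) (.slot (nat_lit 4))) (.col (nat_lit 0)) (.col (nat_lit 1)) (.col (nat_lit 2))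
def w15449 : Root := .mk (.node (.node (.node (.col (nat_lit 3)) (.slot (nat_lit 1)) (.slot (nat_lit 1))) (.node (.col (nat_lit 2)) (.slot (nat_lit 1)) (.slot (nat_lit 0))) (.col (nat_lit 1))) (.col (nat_lit 0)) (.slot (nat_lit 1))) (.col (nat_lit 0)) (.node (.node .junk (.col (nat_lit 1)) (.col (nat_lit 4))) (.col (nat_lit 0)) (.slot (nat_lit 1))) (.col (nat_lit 1))
def w15450 : Root := .mk (.node (.node (.node (.col (nat_lit 3)) (.slot (nat_lit 1)) (.slot (nat_lit 1))) (.node (.col (nat_lit 2)) (.slot (nat_lit 2)) (.slot (nat_lit 2))) (.col (nat_lit 1))) (.col (nat_lit 0)) (.slot (nat_lit 1))) (.col (nat_lit 0)) (.node (.node .junk (.col (nat_lit 1)) (.col (nat_lit 4))) (.col (nat_lit 0)) (.slot (nat_lit 1))) (.col (nat_lit 4))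
def w15451 : Root := .mk (.node (.node (.node (.node (.col (nat_lit 3)) (.slot (nat_lit 1)) (.slot (nat_lit 1))) (.node (.col (nat_lit 2)) (.slot (nat_lit 6)) (.slot (nat_lit 1))) (.col (nat_lit 1))) (.col (nat_lit 0)) (.slot (nat_lit 2))) (.col (nat_lit 0)) (.node (.col (nat_lit 2)) (.slot (nat_lit 7)) (.slot (nat_lit 5)))) (.col (nat_lit 3)) (.col (nat_lit 0)) (.slot (nat_lit 0))
def w15452 : Root := .mk (.node (.node (.node (.node (.node (.col (nat_lit 3)) (.slot (nat_lit 1)) (.slot (nat_lit 0))) (.node (.col (nat_lit 2)) (.slot (nat_lit 0)) (.slot (nat_lit 0))) (.col (nat_lit 1))) (.col (nat_lit 0)) (.slot (nat_lit 1))) (.col (nat_lit 0)) (.node (.col (nat_lit 2)) (.slot (nat_lit 1)) (.slot (nat_lit 1)))) (.col (nat_lit 0)) (.col (nat_lit 4))) (.col (nat_lit 0)) (.col (nat_lit 1)) (.col (nat_lit 4))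
def w15453 : Root := .mk (.node (.node (.node (.col (nat_lit 3)) (.slot (nat_lit 0)) (.slot (nat_lit 0))) (.node (.col (nat_lit 2)) (.slot (nat_lit 1)) (.slot (nat_lit 0))) (.col (nat_lit 1))) (.col (nat_lit 0)) (.slot (nat_lit 4))) (.col (nat_lit 0)) (.node (.node .junk (.col (nat_lit 1)) (.col (nat_lit 4))) (.col (nat_lit 0)) (.slot (nat_lit 1))) (.node (.col (nat_lit 2)) .junk (.slot (nat_lit 1)))
def l3401 : Root := .mk (.node (.node (.node (.node (.node (.col (nat_lit 3)) (.slot (nat_lit 1)) (.slot (nat_lit 1))) (.node (.col (nat_lit 2)) (.slot (nat_lit 7)) (.slot (nat_lit 5))) (.col (nat_lit 1))) (.col (nat_lit 0)) (.slot (nat_lit 6))) (.col (nat_lit 0)) (.node (.col (nat_lit 2)) (.slot (nat_lit 7)) (.slot (nat_lit 5)))) (.col (nat_lit 0)) (.slot (nat_lit 3))) (.col (nat_lit 0)) (.col (nat_lit 1)) (.col (nat_lit 4))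
def w15454 : Root := .mk (.node (.node (.node (.node (.node (.col (nat_lit 3)) (.slot (nat_lit 1)) (.slot (nat_lit 1))) (.node (.col (nat_lit 2)) (.slot (nat_lit 7)) (.slot (nat_lit 5))) (.col (nat_lit 1))) (.col (nat_lit 0)) (.slot (nat_lit 6))) (.col (nat_lit 0)) (.slot (nat_lit 8))) (.col (nat_lit 0)) (.slot (nat_lit 3))) (.col (nat_lit 0)) (.col (nat_lit 1)) (.col (nat_lit 4))
def w15455 : Root := .mk (.node (.node (.node (.node (.node (.col (nat_lit 3)) (.slot (nat_lit 1)) (.slot (nat_lit 1))) (.node (.col (nat_lit 2)) (.slot (nat_lit 6)) (.slot (nat_lit 1))) (.col (nat_lit 1))) (.col (nat_lit 0)) (.slot (nat_lit 2))) (.col (nat_lit 0)) (.slot (nat_lit 8))) (.col (nat_lit 0)) (.slot (nat_lit 3))) (.col (nat_lit 0)) (.col (nat_lit 1)) (.node (.col (nat_lit 0)) (.slot (nat_lit 3)) (.slot (nat_lit 1)))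
def w15456 : Root := .mk (.node (.node (.node (.node (.node (.col (nat_lit 3)) (.slot (nat_lit 1)) (.slot (nat_lit 1))) (.node (.col (nat_lit 2)) (.slot (nat_lit 6)) (.slot (nat_lit 1))) (.col (nat_lit 1))) (.col (nat_lit 0)) (.slot (nat_lit 2))) (.col (nat_lit 0)) (.slot (nat_lit 8))) (.col (nat_lit 0)) (.slot (nat_lit 3))) (.col (nat_lit 0)) (.col (nat_lit 1)) (.node (.col (nat_lit 1)) (.slot (nat_lit 3)) (.slot (nat_lit 1)))
def l3402 : Root := .mk (.node (.node (.col (nat_lit 3)) (.slot (nat_lit 1)) (.slot (nat_lit 1))) (.node (.col (nat_lit 2)) (.slot (nat_lit 6)) (.slot (nat_lit 6))) (.col (nat_lit 1))) (.node (.col (nat_lit 0)) (.node (.node (.col (nat_lit 0)) (.col (nat_lit 1)) (.node (.slot (nat_lit 0)) (.slot (nat_lit 0)) (.slot (nat_lit 0)))) (.col (nat_lit 0)) (.col (nat_lit 2))) (.slot (nat_lit 2))) (.col (nat_lit 0)) (.col (nat_lit 2))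
def w15457 : Root := .mk (.node (.node (.node (.node (.col (nat_lit 3)) (.slot (nat_lit 1)) (.slot (nat_lit 1))) (.node (.col (nat_lit 2)) (.slot (nat_lit 6)) (.slot (nat_lit 6))) (.col (nat_lit 1))) (.col (nat_lit 0)) (.slot (nat_lit 1))) (.col (nat_lit 0)) (.slot (nat_lit 2))) (.node (.col (nat_lit 0)) (.col (nat_lit 1)) (.node (.slot (nat_lit 0)) (.slot (nat_lit 0)) (.slot (nat_lit 0)))) (.col (nat_lit 0)) (.col (nat_lit 2))
def w15458 : Root := .mk (.col (nat_lit 2)) (.col (nat_lit 0)) (.node (.node (.col (nat_lit 0)) (.col (nat_lit 1)) (.slot (nat_lit 0))) (.col (nat_lit 0)) (.node (.col (nat_lit 1)) (.node (.col (nat_lit 1)) (.slot (nat_lit 0)) (.slot (nat_lit 0))) (.slot (nat_lit 6)))) (.node (.col (nat_lit 4)) (.slot (nat_lit 1)) (.slot (nat_lit 1)))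
def w15459 : Root := .mk (.node (.col (nat_lit 4)) .junk (.slot (nat_lit 1))) (.col (nat_lit 0)) (.node (.node (.col (nat_lit 0)) (.col (nat_lit 1)) (.node (.slot (nat_lit 0)) (.slot (nat_lit 0)) (.slot (nat_lit 0)))) (.col (nat_lit 0)) (.node (.col (nat_lit 1)) (.node (.col (nat_lit 1)) (.slot (nat_lit 0)) (.slot (nat_lit 0))) (.slot (nat_lit 1)))) (.col (nat_lit 2))
def l3403 : Root := .mk (.node (.node (.node (.col (nat_lit 4)) (.col (nat_lit 0)) (.slot (nat_lit 2))) (.col (nat_lit 0)) (.node (.col (nat_lit 4)) (.slot (nat_lit 7)) (.slot (nat_lit 5)))) (.col (nat_lit 0)) (.node (.col (nat_lit 1)) (.node (.col (nat_lit 1)) (.slot (nat_lit 0)) (.slot (nat_lit 0))) (.slot (nat_lit 6)))) (.col (nat_lit 0)) (.col (nat_lit 1)) (.node (.slot (nat_lit 0)) (.slot (nat_lit 0)) (.slot (nat_lit 0)))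
def w15460 : Root := .mk (.node (.node (.node (.col (nat_lit 4)) (.col (nat_lit 0)) (.slot (nat_lit 2))) (.col (nat_lit 0)) (.slot (nat_lit 8))) (.col (nat_lit 0)) (.node (.col (nat_lit 1)) (.node (.col (nat_lit 1)) (.slot (nat_lit 0)) (.slot (nat_lit 0))) (.slot (nat_lit 6)))) (.col (nat_lit 0)) (.col (nat_lit 1)) (.node (.slot (nat_lit 0)) (.slot (nat_lit 0)) (.slot (nat_lit 0)))
def w15461 : Root := .mk (.node (.node (.node (.node (.node (.col (nat_lit 3)) (.slot (nat_lit 1)) (.slot (nat_lit 1))) (.node (.col (nat_lit 2)) (.slot (nat_lit 1)) (.slot (nat_lit 0))) (.col (nat_lit 1))) (.col (nat_lit 0)) (.slot (nat_lit 2))) (.col (nat_lit 0)) (.slot (nat_lit 8))) (.col (nat_lit 0)) (.node (.col (nat_lit 1)) (.node (.col (nat_lit 1)) (.slot (nat_lit 0)) (.slot (nat_lit 0))) (.slot (nat_lit 6)))) (.col (nat_lit 0)) (.col (nat_lit 1)) (.node (.slot (nat_lit 0)) (.slot (nat_lit 0)) (.slot (nat_lit 0)))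
def l3404 : Root := .mk (.node (.node (.col (nat_lit 2)) (.node (.col (nat_lit 2)) (.slot (nat_lit 0)) (.slot (nat_lit 1))) (.col (nat_lit 1))) (.col (nat_lit 0)) (.col (nat_lit 2))) (.col (nat_lit 0)) (.node (.col (nat_lit 2)) (.col (nat_lit 0)) (.node (.col (nat_lit 1)) (.node (.slot (nat_lit 0)) (.slot (nat_lit 0)) (.slot (nat_lit 0))) (.col (nat_lit 2)))) (.col (nat_lit 1))
def w15462 : Root := .mk (.col (nat_lit 2)) (.node (.node (.col (nat_lit 0)) (.node (.col (nat_lit 2)) (.col (nat_lit 0)) (.node (.col (nat_lit 1)) (.node (.slot (nat_lit 0)) (.slot (nat_lit 0)) (.slot (nat_lit 0))) (.col (nat_lit 2)))) (.slot (nat_lit 1))) (.col (nat_lit 0)) (.col (nat_lit 2))) (.node (.col (nat_lit 2)) (.slot (nat_lit 1)) (.slot (nat_lit 0))) (.col (nat_lit 1))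
def l3405 : Root := .mk (.node (.node (.col (nat_lit 3)) (.slot (nat_lit 1)) (.slot (nat_lit 1))) (.node (.col (nat_lit 2)) (.slot (nat_lit 6)) (.slot (nat_lit 6))) (.col (nat_lit 1))) (.node (.col (nat_lit 0)) (.node (.col (nat_lit 2)) (.col (nat_lit 0)) (.node (.col (nat_lit 1)) (.node (.slot (nat_lit 0)) (.slot (nat_lit 0)) (.slot (nat_lit 0))) (.col (nat_lit 2)))) (.slot (nat_lit 2))) (.col (nat_lit 0)) (.col (nat_lit 2))
def w15463 : Root := .mk (.node (.node (.node (.node (.node (.col (nat_lit 3)) (.slot (nat_lit 1)) (.slot (nat_lit 1))) (.node (.col (nat_lit 2)) (.slot (nat_lit 6)) (.slot (nat_lit 6))) (.col (nat_lit 1))) (.col (nat_lit 0)) (.slot (nat_lit 1))) (.col (nat_lit 0)) (.slot (nat_lit 2))) (.col (nat_lit 2)) (.col (nat_lit 0))) (.col (nat_lit 1)) (.node (.slot (nat_lit 0)) (.slot (nat_lit 0)) (.slot (nat_lit 0))) (.col (nat_lit 2))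
def w15464 : Root := .mk (.node (.node (.col (nat_lit 3)) (.slot (nat_lit 1)) (.slot (nat_lit 1))) (.node (.col (nat_lit 2)) (.slot (nat_lit 1)) (.slot (nat_lit 0))) (.col (nat_lit 1))) (.node (.col (nat_lit 0)) (.node (.col (nat_lit 2)) (.col (nat_lit 0)) (.node (.col (nat_lit 1)) (.node (.slot (nat_lit 0)) (.slot (nat_lit 0)) (.slot (nat_lit 0))) .junk)) (.slot (nat_lit 1))) (.col (nat_lit 0)) (.col (nat_lit 1))
def w15465 : Root := .mk (.node (.node (.col (nat_lit 3)) (.slot (nat_lit 0)) (.slot (nat_lit 0))) .junk (.col (nat_lit 1))) (.node (.col (nat_lit 0)) (.node (.col (nat_lit 2)) (.col (nat_lit 0)) (.node (.col (nat_lit 1)) (.node (.slot (nat_lit 0)) (.slot (nat_lit 0)) (.slot (nat_lit 0))) (.slot (nat_lit 1)))) (.slot (nat_lit 1))) (.col (nat_lit 0)) (.col (nat_lit 4))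
def w15466 : Root := .mk (.node (.node (.node (.node (.col (nat_lit 3)) (.slot (nat_lit 1)) (.slot (nat_lit 1))) (.node (.col (nat_lit 2)) (.slot (nat_lit 6)) (.slot (nat_lit 6))) (.col (nat_lit 1))) (.col (nat_lit 0)) (.node (.col (nat_lit 0)) (.slot (nat_lit 0)) (.slot (nat_lit 0)))) (.col (nat_lit 0)) (.slot (nat_lit 2))) (.col (nat_lit 2)) (.col (nat_lit 0)) (.node (.col (nat_lit 1)) (.node (.slot (nat_lit 0)) (.slot (nat_lit 0)) (.slot (nat_lit 0))) (.slot (nat_lit 0)))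
def w15467 : Root := .mk (.node (.node (.node (.node (.col (nat_lit 3)) (.slot (nat_lit 0)) (.slot (nat_lit 0))) (.slot (nat_lit 0)) (.col (nat_lit 1))) (.col (nat_lit 0)) (.node (.col (nat_lit 2)) (.slot (nat_lit 1)) (.slot (nat_lit 1)))) (.col (nat_lit 0)) (.slot (nat_lit 1))) (.col (nat_lit 2)) (.col (nat_lit 0)) (.node (.col (nat_lit 1)) (.node (.slot (nat_lit 0)) (.slot (nat_lit 0)) (.slot (nat_lit 0))) (.slot (nat_lit 1)))
def w15468 : Root := .mk (.node (.node (.node (.node (.col (nat_lit 3)) (.col (nat_lit 1)) (.slot (nat_lit 0))) (.node (.col (nat_lit 2)) (.slot (nat_lit 7)) (.slot (nat_lit 5))) (.col (nat_lit 1))) (.col (nat_lit 0)) (.slot (nat_lit 3))) (.col (nat_lit 0)) (.slot (nat_lit 2))) (.col (nat_lit 2)) (.col (nat_lit 0)) (.node (.col (nat_lit 1)) (.node (.slot (nat_lit 0)) (.slot (nat_lit 0)) (.slot (nat_lit 0))) (.slot (nat_lit 1)))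
def w15469 : Root := .mk (.node (.node (.node (.node (.col (nat_lit 3)) (.slot (nat_lit 1)) (.slot (nat_lit 0))) (.node (.col (nat_lit 2)) (.col (nat_lit 1)) (.slot (nat_lit 0))) (.col (nat_lit 1))) (.col (nat_lit 0)) (.slot (nat_lit 1))) (.col (nat_lit 0)) (.slot (nat_lit 1))) (.col (nat_lit 2)) (.col (nat_lit 0)) (.node (.col (nat_lit 1)) (.node (.slot (nat_lit 0)) (.slot (nat_lit 0)) (.slot (nat_lit 0))) (.slot (nat_lit 1)))
def l3406 : Root := .mk (.node (.node (.node (.node (.col (nat_lit 3)) (.slot (nat_lit 7)) (.slot (nat_lit 5))) (.node (.col (nat_lit 2)) (.slot (nat_lit 7)) (.slot (nat_lit 6))) (.col (nat_lit 1))) (.col (nat_lit 0)) (.slot (nat_lit 6))) (.col (nat_lit 0)) (.slot (nat_lit 5))) (.col (nat_lit 2)) (.col (nat_lit 0)) (.node (.col (nat_lit 1)) (.node (.slot (nat_lit 0)) (.slot (nat_lit 0)) (.slot (nat_lit 0))) (.slot (nat_lit 3)))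
def w15470 : Root := .mk (.node (.node (.node (.node (.node (.col (nat_lit 3)) (.slot (nat_lit 7)) (.slot (nat_lit 5))) (.node (.col (nat_lit 2)) (.slot (nat_lit 7)) (.slot (nat_lit 6))) (.col (nat_lit 1))) (.col (nat_lit 0)) (.slot (nat_lit 6))) (.col (nat_lit 0)) (.slot (nat_lit 5))) (.col (nat_lit 0)) (.node (.col (nat_lit 1)) (.node (.slot (nat_lit 0)) (.slot (nat_lit 0)) (.slot (nat_lit 0))) (.slot (nat_lit 3)))) (.col (nat_lit 0)) (.col (nat_lit 1)) (.slot (nat_lit 0))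
def l3407 : Root := .mk (.node (.node (.node (.node (.node (.col (nat_lit 3)) (.slot (nat_lit 7)) (.slot (nat_lit 6))) (.node (.col (nat_lit 2)) (.slot (nat_lit 7)) (.slot (nat_lit 6))) (.col (nat_lit 1))) (.col (nat_lit 0)) (.slot (nat_lit 6))) (.col (nat_lit 0)) (.slot (nat_lit 8))) (.col (nat_lit 0)) (.node (.col (nat_lit 1)) (.slot (nat_lit 7)) (.slot (nat_lit 6)))) (.col (nat_lit 0)) (.col (nat_lit 1)) (.node (.slot (nat_lit 0)) (.slot (nat_lit 1)) (.slot (nat_lit 1)))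
def w15471 : Root := .mk (.node (.node (.node (.node (.node (.col (nat_lit 3)) (.slot (nat_lit 7)) (.slot (nat_lit 6))) (.node (.col (nat_lit 2)) (.slot (nat_lit 7)) (.slot (nat_lit 6))) (.col (nat_lit 1))) (.col (nat_lit 0)) (.slot (nat_lit 6))) (.col (nat_lit 0)) (.slot (nat_lit 8))) (.col (nat_lit 0)) (.slot (nat_lit 8))) (.col (nat_lit 0)) (.col (nat_lit 1)) (.node (.slot (nat_lit 0)) (.slot (nat_lit 1)) (.slot (nat_lit 1)))
def l3408 : Root := .mk (.node (.col (nat_lit 3)) (.slot (nat_lit 9)) (.slot (nat_lit 8))) (.node (.node (.col (nat_lit 0)) (.node (.node (.col (nat_lit 0)) (.col (nat_lit 1)) (.slot (nat_lit 8))) (.col (nat_lit 0)) (.slot (nat_lit 10))) (.slot (nat_lit 8))) (.col (nat_lit 0)) (.slot (nat_lit 8))) (.node (.col (nat_lit 2)) (.slot (nat_lit 9)) (.slot (nat_lit 8))) (.col (nat_lit 1))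
def w15472 : Root := .mk (.node (.node (.node (.node (.node (.col (nat_lit 3)) (.slot (nat_lit 9)) (.slot (nat_lit 8))) (.node (.col (nat_lit 2)) (.slot (nat_lit 9)) (.slot (nat_lit 8))) (.node (.slot (nat_lit 0)) (.slot (nat_lit 0)) (.slot (nat_lit 0)))) (.col (nat_lit 0)) (.slot (nat_lit 8))) (.col (nat_lit 0)) (.slot (nat_lit 8))) (.col (nat_lit 0)) (.slot (nat_lit 10))) (.col (nat_lit 0)) (.col (nat_lit 1)) (.slot (nat_lit 8))
def w15473 : Root := .mk (.node (.node (.node (.node (.node (.col (nat_lit 3)) (.node (.col (nat_lit 3)) (.slot (nat_lit 0)) (.slot (nat_lit 0))) (.slot (nat_lit 3))) (.node (.col (nat_lit 2)) (.slot (nat_lit 3)) (.slot (nat_lit 3))) (.slot (nat_lit 8))) (.col (nat_lit 0)) (.slot (nat_lit 4))) (.col (nat_lit 0)) (.slot (nat_lit 3))) (.col (nat_lit 0)) (.slot (nat_lit 1))) (.col (nat_lit 0)) (.col (nat_lit 1)) (.slot (nat_lit 3))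
def l3409 : Root := .mk (.node (.node (.node (.node (.node (.col (nat_lit 3)) (.slot (nat_lit 9)) (.slot (nat_lit 9))) (.node (.col (nat_lit 2)) (.slot (nat_lit 9)) (.slot (nat_lit 9))) (.slot (nat_lit 10))) (.col (nat_lit 0)) (.slot (nat_lit 9))) (.col (nat_lit 0)) (.slot (nat_lit 13))) (.col (nat_lit 0)) (.slot (nat_lit 10))) (.col (nat_lit 0)) (.col (nat_lit 1)) (.slot (nat_lit 8))
def w15474 : Root := .mk (.node (.node (.node (.node (.col (nat_lit 3)) (.slot (nat_lit 9)) (.slot (nat_lit 9))) (.node (.col (nat_lit 2)) (.slot (nat_lit 9)) (.slot (nat_lit 9))) (.slot (nat_lit 10))) (.col (nat_lit 0)) (.slot (nat_lit 9))) (.col (nat_lit 0)) (.slot (nat_lit 13))) (.node (.col (nat_lit 0)) (.slot (nat_lit 1)) (.slot (nat_lit 8))) (.col (nat_lit 0)) (.slot (nat_lit 10))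
def w15475 : Root := .mk (.node (.node (.node (.col (nat_lit 3)) (.slot (nat_lit 1)) (.slot (nat_lit 1))) (.node (.col (nat_lit 2)) (.slot (nat_lit 3)) (.slot (nat_lit 1))) (.slot (nat_lit 2))) (.col (nat_lit 0)) (.slot (nat_lit 3))) (.col (nat_lit 0)) (.node (.node (.col (nat_lit 0)) (.slot (nat_lit 3)) (.slot (nat_lit 1))) (.node (.col (nat_lit 1)) (.slot (nat_lit 1)) (.slot (nat_lit 1))) (.slot (nat_lit 2))) (.slot (nat_lit 3))
def w15476 : Root := .mk (.node (.node (.node (.col (nat_lit 3)) (.slot (nat_lit 1)) (.slot (nat_lit 1))) (.node (.col (nat_lit 2)) (.slot (nat_lit 3)) (.slot (nat_lit 1))) (.slot (nat_lit 2))) (.col (nat_lit 0)) (.slot (nat_lit 3))) (.col (nat_lit 0)) (.node (.node (.col (nat_lit 0)) (.slot (nat_lit 0)) (.slot (nat_lit 0))) (.node (.col (nat_lit 2)) (.slot (nat_lit 3)) (.slot (nat_lit 1))) (.slot (nat_lit 8))) (.slot (nat_lit 3))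
def w15477 : Root := .mk (.col (nat_lit 2)) (.node (.node (.col (nat_lit 0)) (.node (.node (.col (nat_lit 0)) (.slot (nat_lit 7)) (.slot (nat_lit 5))) (.slot (nat_lit 8)) (.slot (nat_lit 1))) (.slot (nat_lit 8))) (.col (nat_lit 0)) (.slot (nat_lit 4))) (.node (.col (nat_lit 2)) (.slot (nat_lit 4)) (.slot (nat_lit 1))) (.slot (nat_lit 8))
def w15478 : Root := .mk (.node (.col (nat_lit 3)) (.slot (nat_lit 0)) (.slot (nat_lit 0))) (.node (.node (.col (nat_lit 0)) (.node (.node (.col (nat_lit 0)) (.slot (nat_lit 9)) (.slot (nat_lit 9))) (.slot (nat_lit 8)) (.slot (nat_lit 8))) (.slot (nat_lit 9))) (.col (nat_lit 0)) (.slot (nat_lit 8))) (.node (.col (nat_lit 2)) (.slot (nat_lit 5)) (.slot (nat_lit 1))) (.col (nat_lit 1))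
def w15479 : Root := .mk (.node (.col (nat_lit 3)) (.slot (nat_lit 0)) (.slot (nat_lit 0))) (.node (.node (.col (nat_lit 0)) (.node (.node (.col (nat_lit 0)) (.slot (nat_lit 7)) (.slot (nat_lit 5))) (.slot (nat_lit 8)) (.slot (nat_lit 1))) (.slot (nat_lit 8))) (.col (nat_lit 0)) (.slot (nat_lit 4))) (.node (.col (nat_lit 2)) (.slot (nat_lit 4)) (.slot (nat_lit 1))) (.node (.col (nat_lit 0)) (.slot (nat_lit 7)) (.slot (nat_lit 5)))
def w15480 : Root := .mk (.node (.col (nat_lit 3)) (.slot (nat_lit 0)) (.slot (nat_lit 0))) (.node (.node (.col (nat_lit 0)) (.node (.node (.col (nat_lit 0)) (.slot (nat_lit 3)) (.slot (nat_lit 1))) (.slot (nat_lit 1)) (.slot (nat_lit 1))) (.slot (nat_lit 3))) (.col (nat_lit 0)) (.slot (nat_lit 3))) (.node (.col (nat_lit 2)) (.slot (nat_lit 3)) (.slot (nat_lit 1))) (.node (.col (nat_lit 1)) (.slot (nat_lit 7)) (.slot (nat_lit 5)))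
def w15481 : Root := .mk (.node (.col (nat_lit 3)) (.slot (nat_lit 3)) (.slot (nat_lit 1))) (.node (.node (.col (nat_lit 0)) (.node (.node (.col (nat_lit 0)) (.slot (nat_lit 3)) (.slot (nat_lit 1))) (.slot (nat_lit 1)) (.slot (nat_lit 1))) (.slot (nat_lit 3))) (.col (nat_lit 0)) (.slot (nat_lit 3))) (.node (.col (nat_lit 2)) (.slot (nat_lit 0)) (.slot (nat_lit 0))) (.node (.col (nat_lit 2)) (.slot (nat_lit 7)) (.slot (nat_lit 5)))
def w15482 : Root := .mk (.node (.col (nat_lit 3)) (.slot (nat_lit 3)) (.slot (nat_lit 1))) (.node (.node (.col (nat_lit 0)) (.node (.node (.col (nat_lit 0)) (.slot (nat_lit 3)) (.slot (nat_lit 1))) (.slot (nat_lit 1)) (.slot (nat_lit 1))) (.slot (nat_lit 3))) (.col (nat_lit 0)) (.slot (nat_lit 3))) (.node (.col (nat_lit 2)) (.slot (nat_lit 7)) (.slot (nat_lit 5))) (.node (.slot (nat_lit 0)) (.slot (nat_lit 0)) (.slot (nat_lit 0)))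
def w15483 : Root := .mk (.node (.node (.node (.node (.node (.col (nat_lit 3)) (.slot (nat_lit 1)) (.slot (nat_lit 1))) (.node (.col (nat_lit 2)) (.slot (nat_lit 3)) (.slot (nat_lit 1))) (.slot (nat_lit 2))) (.col (nat_lit 0)) (.slot (nat_lit 3))) (.col (nat_lit 0)) (.slot (nat_lit 3))) (.slot (nat_lit 1)) (.slot (nat_lit 1))) (.col (nat_lit 0)) (.node (.col (nat_lit 0)) (.slot (nat_lit 0)) (.slot (nat_lit 0))) (.slot (nat_lit 3))
def l3410 : Root := .mk (.node (.node (.node (.col (nat_lit 3)) (.slot (nat_lit 9)) (.slot (nat_lit 9))) (.node (.col (nat_lit 2)) (.slot (nat_lit 9)) (.slot (nat_lit 9))) (.slot (nat_lit 11))) (.col (nat_lit 0)) (.slot (nat_lit 11))) (.col (nat_lit 0)) (.node (.node (.col (nat_lit 0)) (.slot (nat_lit 14)) (.slot (nat_lit 10))) (.slot (nat_lit 10)) (.slot (nat_lit 10))) (.slot (nat_lit 13))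
def w15485 : Root := .mk (.node (.node (.col (nat_lit 3)) (.slot (nat_lit 9)) (.slot (nat_lit 9))) (.node (.col (nat_lit 2)) (.slot (nat_lit 9)) (.slot (nat_lit 9))) (.slot (nat_lit 11))) (.node (.col (nat_lit 0)) (.slot (nat_lit 16)) (.slot (nat_lit 13))) (.col (nat_lit 0)) (.slot (nat_lit 11))
def w15486 : Root := .mk (.col (nat_lit 0)) (.col (nat_lit 1)) (.node (.node (.node (.node (.col (nat_lit 0)) (.slot (nat_lit 0)) (.slot (nat_lit 0))) (.col (nat_lit 0)) (.slot (nat_lit 3))) (.node (.col (nat_lit 2)) (.slot (nat_lit 0)) (.slot (nat_lit 0))) (.slot (nat_lit 8))) (.col (nat_lit 0)) (.slot (nat_lit 8))) (.slot (nat_lit 5))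
def w15487 : Root := .mk (.node (.col (nat_lit 0)) (.col (nat_lit 1)) (.slot (nat_lit 5))) (.node (.node (.node (.col (nat_lit 0)) (.slot (nat_lit 5)) (.slot (nat_lit 4))) (.col (nat_lit 0)) (.slot (nat_lit 4))) (.node (.col (nat_lit 2)) (.slot (nat_lit 0)) (.slot (nat_lit 0))) (.slot (nat_lit 5))) (.col (nat_lit 1)) (.col (nat_lit 3))
def w15488 : Root := .mk (.col (nat_lit 0)) (.col (nat_lit 1)) (.node (.node (.node (.node (.col (nat_lit 0)) (.slot (nat_lit 0)) (.slot (nat_lit 0))) (.col (nat_lit 0)) (.slot (nat_lit 1))) (.node (.col (nat_lit 2)) (.slot (nat_lit 0)) (.slot (nat_lit 0))) (.slot (nat_lit 3))) (.col (nat_lit 1)) (.node (.col (nat_lit 0)) (.slot (nat_lit 7)) (.slot (nat_lit 5)))) (.node (.col (nat_lit 0)) (.slot (nat_lit 1)) (.slot (nat_lit 1)))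
def w15489 : Root := .mk (.node (.node (.node (.col (nat_lit 0)) (.col (nat_lit 1)) (.slot (nat_lit 1))) (.col (nat_lit 1)) (.node (.col (nat_lit 0)) (.node (.col (nat_lit 0)) (.slot (nat_lit 0)) (.slot (nat_lit 0))) (.slot (nat_lit 1)))) (.node (.slot (nat_lit 0)) (.col (nat_lit 0)) (.slot (nat_lit 0))) (.slot (nat_lit 1))) (.col (nat_lit 2)) (.col (nat_lit 1)) (.slot (nat_lit 3))
def w15490 : Root := .mk (.node (.col (nat_lit 0)) (.col (nat_lit 1)) (.slot (nat_lit 1))) (.node (.node (.node (.col (nat_lit 0)) (.slot (nat_lit 0)) (.slot (nat_lit 0))) (.col (nat_lit 0)) (.slot (nat_lit 2))) (.col (nat_lit 3)) (.slot (nat_lit 2))) (.col (nat_lit 1)) (.node (.col (nat_lit 0)) (.node (.col (nat_lit 0)) (.slot (nat_lit 0)) (.slot (nat_lit 0))) (.slot (nat_lit 1)))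
def w15491 : Root := .mk (.node (.node (.slot (nat_lit 0)) (.col (nat_lit 1)) (.slot (nat_lit 0))) (.node (.node (.col (nat_lit 0)) (.slot (nat_lit 0)) (.slot (nat_lit 0))) (.col (nat_lit 0)) (.slot (nat_lit 2))) (.slot (nat_lit 2))) (.col (nat_lit 2)) (.col (nat_lit 1)) (.col (nat_lit 0))
def w15492 : Root := .mk (.node (.node (.node (.col (nat_lit 0)) (.col (nat_lit 1)) (.slot (nat_lit 1))) (.col (nat_lit 1)) (.node (.col (nat_lit 0)) (.slot (nat_lit 0)) (.slot (nat_lit 0)))) (.node (.slot (nat_lit 0)) (.col (nat_lit 0)) (.slot (nat_lit 0))) (.slot (nat_lit 1))) (.col (nat_lit 2)) (.col (nat_lit 1)) (.col (nat_lit 3))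
def l3411 : Root := .mk (.node (.node (.node (.col (nat_lit 0)) (.col (nat_lit 1)) (.slot (nat_lit 5))) (.col (nat_lit 1)) (.node (.col (nat_lit 0)) (.node (.col (nat_lit 0)) (.slot (nat_lit 0)) (.slot (nat_lit 0))) (.slot (nat_lit 1)))) (.col (nat_lit 3)) (.slot (nat_lit 2))) (.col (nat_lit 2)) (.col (nat_lit 1)) (.node (.col (nat_lit 1)) (.slot (nat_lit 0)) (.slot (nat_lit 0)))
def w15493 : Root := .mk (.node (.node (.node (.col (nat_lit 0)) (.col (nat_lit 1)) (.slot (nat_lit 5))) (.col (nat_lit 1)) (.node (.col (nat_lit 0)) (.node (.col (nat_lit 0)) (.slot (nat_lit 0)) (.slot (nat_lit 0))) (.slot (nat_lit 1)))) (.node (.slot (nat_lit 0)) (.col (nat_lit 0)) (.slot (nat_lit 0))) (.slot (nat_lit 2))) (.col (nat_lit 2)) (.col (nat_lit 1)) (.node (.col (nat_lit 1)) (.slot (nat_lit 0)) (.slot (nat_lit 0)))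
def l3412 : Root := .mk (.node (.node (.node (.col (nat_lit 0)) (.col (nat_lit 1)) (.slot (nat_lit 5))) (.col (nat_lit 1)) (.node (.col (nat_lit 0)) (.node (.col (nat_lit 0)) (.slot (nat_lit 0)) (.slot (nat_lit 0))) (.slot (nat_lit 1)))) (.col (nat_lit 3)) (.slot (nat_lit 2))) (.col (nat_lit 2)) (.col (nat_lit 1)) (.node (.col (nat_lit 2)) (.slot (nat_lit 0)) (.slot (nat_lit 0)))
def w15494 : Root := .mk (.node (.node (.node (.col (nat_lit 0)) (.col (nat_lit 1)) (.slot (nat_lit 5))) (.col (nat_lit 1)) (.node (.col (nat_lit 0)) (.node (.col (nat_lit 0)) (.slot (nat_lit 0)) (.slot (nat_lit 0))) (.slot (nat_lit 1)))) (.node (.slot (nat_lit 0)) (.col (nat_lit 0)) (.slot (nat_lit 0))) (.slot (nat_lit 2))) (.col (nat_lit 2)) (.col (nat_lit 1)) (.node (.col (nat_lit 2)) (.slot (nat_lit 0)) (.slot (nat_lit 0)))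
def w15495 : Root := .mk (.node (.node (.node (.col (nat_lit 0)) (.col (nat_lit 1)) (.slot (nat_lit 1))) (.col (nat_lit 1)) (.node (.col (nat_lit 0)) (.node (.col (nat_lit 0)) (.slot (nat_lit 0)) (.slot (nat_lit 0))) (.slot (nat_lit 1)))) (.node (.node (.col (nat_lit 0)) (.slot (nat_lit 0)) (.slot (nat_lit 0))) (.col (nat_lit 0)) (.slot (nat_lit 2))) (.slot (nat_lit 2))) (.col (nat_lit 2)) (.col (nat_lit 1)) (.node (.slot (nat_lit 0)) (.slot (nat_lit 0)) (.slot (nat_lit 0)))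
def w15496 : Root := .mk (.node (.col (nat_lit 0)) (.col (nat_lit 1)) (.slot (nat_lit 1))) (.node (.col (nat_lit 2)) (.node (.col (nat_lit 2)) (.col (nat_lit 1)) (.slot (nat_lit 5))) (.slot (nat_lit 1))) (.col (nat_lit 1)) (.node (.col (nat_lit 0)) (.slot (nat_lit 0)) (.slot (nat_lit 0)))
def w15497 : Root := .mk (.node (.node (.col (nat_lit 0)) (.col (nat_lit 1)) (.slot (nat_lit 1))) (.col (nat_lit 1)) (.node (.col (nat_lit 0)) (.node (.col (nat_lit 0)) (.slot (nat_lit 0)) (.slot (nat_lit 0))) (.slot (nat_lit 1)))) (.node (.node (.col (nat_lit 0)) (.slot (nat_lit 0)) (.slot (nat_lit 0))) (.col (nat_lit 0)) (.slot (nat_lit 1))) (.node (.col (nat_lit 2)) (.col (nat_lit 1)) (.slot (nat_lit 1))) (.col (nat_lit 1))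
def w15498 : Root := .mk (.node (.node (.col (nat_lit 0)) (.col (nat_lit 1)) (.slot (nat_lit 1))) (.col (nat_lit 1)) (.node (.col (nat_lit 0)) (.node (.col (nat_lit 0)) (.slot (nat_lit 0)) (.slot (nat_lit 0))) (.slot (nat_lit 1)))) (.node (.node (.col (nat_lit 0)) (.slot (nat_lit 0)) (.slot (nat_lit 0))) (.col (nat_lit 0)) (.slot (nat_lit 1))) (.node (.col (nat_lit 2)) (.col (nat_lit 1)) (.slot (nat_lit 1))) (.col (nat_lit 2))
def w15499 : Root := .mk (.node (.col (nat_lit 0)) (.col (nat_lit 1)) (.slot (nat_lit 1))) (.node (.node (.node (.col (nat_lit 0)) (.slot (nat_lit 0)) (.slot (nat_lit 0))) (.col (nat_lit 0)) (.slot (nat_lit 2))) (.node (.col (nat_lit 2)) (.col (nat_lit 1)) (.slot (nat_lit 0))) (.node (.col (nat_lit 0)) (.slot (nat_lit 1)) (.slot (nat_lit 1)))) (.col (nat_lit 1)) (.node (.col (nat_lit 0)) (.node (.col (nat_lit 0)) (.slot (nat_lit 0)) (.slot (nat_lit 0))) (.slot (nat_lit 1)))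
def w15500 : Root := .mk (.slot (nat_lit 0)) (.node (.node (.slot (nat_lit 0)) (.col (nat_lit 0)) (.slot (nat_lit 0))) (.node (.col (nat_lit 2)) (.col (nat_lit 1)) (.slot (nat_lit 3))) (.node (.col (nat_lit 1)) (.slot (nat_lit 3)) (.slot (nat_lit 1)))) (.col (nat_lit 1)) (.node (.col (nat_lit 0)) (.slot (nat_lit 0)) (.slot (nat_lit 0)))
def w15501 : Root := .mk (.node (.col (nat_lit 0)) (.col (nat_lit 1)) (.slot (nat_lit 1))) (.node (.node (.slot (nat_lit 0)) (.col (nat_lit 0)) (.slot (nat_lit 1))) (.node (.col (nat_lit 2)) (.col (nat_lit 1)) (.slot (nat_lit 3))) (.node (.col (nat_lit 3)) (.slot (nat_lit 0)) (.slot (nat_lit 0)))) (.col (nat_lit 1)) (.node (.col (nat_lit 0)) (.node (.col (nat_lit 0)) (.slot (nat_lit 0)) (.slot (nat_lit 0))) (.slot (nat_lit 1)))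
def w15502 : Root := .mk (.col (nat_lit 3)) (.node (.node (.slot (nat_lit 0)) (.col (nat_lit 0)) (.slot (nat_lit 0))) (.node (.col (nat_lit 2)) (.col (nat_lit 1)) (.slot (nat_lit 0))) (.slot (nat_lit 1))) (.col (nat_lit 1)) (.node (.col (nat_lit 0)) (.node (.col (nat_lit 0)) (.slot (nat_lit 0)) (.slot (nat_lit 0))) (.slot (nat_lit 1)))
def w15503 : Root := .mk (.node (.node (.node (.col (nat_lit 0)) (.col (nat_lit 1)) (.slot (nat_lit 1))) (.col (nat_lit 1)) (.node (.col (nat_lit 0)) (.node (.col (nat_lit 0)) (.slot (nat_lit 0)) (.slot (nat_lit 0))) (.slot (nat_lit 1)))) (.node (.col (nat_lit 2)) (.col (nat_lit 1)) (.slot (nat_lit 1))) (.slot (nat_lit 1))) (.col (nat_lit 1)) (.col (nat_lit 0)) (.slot (nat_lit 1))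
def w15504 : Root := .mk (.node (.node (.node (.col (nat_lit 0)) (.col (nat_lit 1)) (.slot (nat_lit 1))) (.col (nat_lit 1)) (.node (.col (nat_lit 0)) (.node (.col (nat_lit 0)) (.slot (nat_lit 0)) (.slot (nat_lit 0))) (.slot (nat_lit 1)))) (.node (.col (nat_lit 2)) (.col (nat_lit 1)) (.slot (nat_lit 1))) (.slot (nat_lit 1))) (.col (nat_lit 2)) (.col (nat_lit 0)) (.slot (nat_lit 0))
def w15505 : Root := .mk (.node (.node (.node (.col (nat_lit 0)) (.col (nat_lit 1)) (.slot (nat_lit 1))) (.col (nat_lit 1)) (.node (.col (nat_lit 0)) (.node (.col (nat_lit 0)) (.slot (nat_lit 0)) (.slot (nat_lit 0))) (.slot (nat_lit 1)))) (.node (.col (nat_lit 2)) (.col (nat_lit 1)) (.slot (nat_lit 1))) (.slot (nat_lit 2))) (.col (nat_lit 3)) (.col (nat_lit 0)) (.slot (nat_lit 2))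
def w15506 : Root := .mk (.node (.node (.node (.col (nat_lit 0)) (.col (nat_lit 1)) (.slot (nat_lit 1))) (.col (nat_lit 1)) (.node (.col (nat_lit 0)) (.node (.col (nat_lit 0)) (.slot (nat_lit 0)) (.slot (nat_lit 0))) (.slot (nat_lit 1)))) (.node (.col (nat_lit 2)) (.col (nat_lit 1)) (.slot (nat_lit 1))) (.slot (nat_lit 1))) (.node (.col (nat_lit 0)) (.slot (nat_lit 0)) (.slot (nat_lit 0))) (.col (nat_lit 0)) (.col (nat_lit 1))
def w15507 : Root := .mk (.node (.node (.node (.col (nat_lit 0)) (.col (nat_lit 1)) (.slot (nat_lit 1))) (.col (nat_lit 1)) (.node (.col (nat_lit 0)) (.node (.col (nat_lit 0)) (.slot (nat_lit 0)) (.slot (nat_lit 0))) (.slot (nat_lit 1)))) (.node (.col (nat_lit 2)) (.col (nat_lit 1)) (.slot (nat_lit 2))) (.slot (nat_lit 1))) (.slot (nat_lit 0)) (.col (nat_lit 0)) (.col (nat_lit 3))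
def w15508 : Root := .mk (.col (nat_lit 0)) (.col (nat_lit 1)) (.node (.node (.node (.slot (nat_lit 0)) (.col (nat_lit 0)) (.slot (nat_lit 0))) (.node (.col (nat_lit 2)) (.col (nat_lit 1)) (.slot (nat_lit 3))) (.slot (nat_lit 1))) (.col (nat_lit 1)) (.node (.col (nat_lit 0)) (.node (.col (nat_lit 0)) (.slot (nat_lit 0)) (.slot (nat_lit 0))) (.slot (nat_lit 1)))) (.node (.col (nat_lit 0)) (.slot (nat_lit 0)) (.slot (nat_lit 0)))
def w15509 : Root := .mk (.col (nat_lit 0)) (.col (nat_lit 1)) (.node (.node (.node (.slot (nat_lit 0)) (.col (nat_lit 0)) (.slot (nat_lit 0))) (.node (.col (nat_lit 2)) (.col (nat_lit 1)) (.slot (nat_lit 3))) (.slot (nat_lit 1))) (.col (nat_lit 1)) (.node (.col (nat_lit 0)) (.node (.col (nat_lit 0)) (.slot (nat_lit 0)) (.slot (nat_lit 0))) (.slot (nat_lit 1)))) (.node (.col (nat_lit 1)) (.slot (nat_lit 0)) (.slot (nat_lit 0)))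
def w15510 : Root := .mk (.node (.node (.col (nat_lit 0)) (.col (nat_lit 1)) (.slot (nat_lit 2))) (.node (.node (.slot (nat_lit 0)) (.col (nat_lit 0)) (.slot (nat_lit 0))) (.node (.col (nat_lit 2)) (.col (nat_lit 1)) (.slot (nat_lit 3))) (.slot (nat_lit 1))) (.col (nat_lit 1))) (.col (nat_lit 0)) (.node (.col (nat_lit 0)) (.slot (nat_lit 1)) (.slot (nat_lit 1))) (.col (nat_lit 1))
def w15511 : Root := .mk (.node (.node (.col (nat_lit 0)) (.col (nat_lit 1)) (.slot (nat_lit 2))) (.node (.node (.slot (nat_lit 0)) (.col (nat_lit 0)) (.slot (nat_lit 0))) (.node (.col (nat_lit 2)) (.col (nat_lit 1)) (.slot (nat_lit 3))) (.slot (nat_lit 1))) (.col (nat_lit 1))) (.col (nat_lit 0)) (.node (.col (nat_lit 0)) (.slot (nat_lit 0)) (.slot (nat_lit 0))) (.slot (nat_lit 0))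
def l3413 : Root := .mk (.node (.node (.node (.col (nat_lit 0)) (.col (nat_lit 1)) (.slot (nat_lit 5))) (.col (nat_lit 1)) (.node (.col (nat_lit 0)) (.node (.col (nat_lit 0)) (.slot (nat_lit 1)) (.slot (nat_lit 1))) (.slot (nat_lit 3)))) (.node (.node (.col (nat_lit 0)) (.slot (nat_lit 0)) (.slot (nat_lit 0))) (.col (nat_lit 0)) (.slot (nat_lit 3))) (.slot (nat_lit 8))) (.col (nat_lit 2)) (.col (nat_lit 1)) (.slot (nat_lit 5))
def w15512 : Root := .mk (.node (.col (nat_lit 0)) (.col (nat_lit 1)) (.slot (nat_lit 5))) (.node (.node (.node (.col (nat_lit 0)) (.slot (nat_lit 0)) (.slot (nat_lit 0))) (.col (nat_lit 0)) (.slot (nat_lit 3))) (.node (.col (nat_lit 2)) (.slot (nat_lit 1)) (.slot (nat_lit 5))) (.slot (nat_lit 8))) (.col (nat_lit 1)) (.node (.col (nat_lit 0)) (.node (.col (nat_lit 0)) (.slot (nat_lit 1)) (.slot (nat_lit 1))) (.slot (nat_lit 3)))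
def w15513 : Root := .mk (.node (.node (.node (.col (nat_lit 0)) (.col (nat_lit 1)) (.slot (nat_lit 2))) (.col (nat_lit 1)) (.node (.col (nat_lit 0)) (.node (.slot (nat_lit 0)) (.slot (nat_lit 0)) (.slot (nat_lit 0))) (.slot (nat_lit 0)))) (.node (.slot (nat_lit 0)) (.col (nat_lit 0)) (.slot (nat_lit 0))) (.slot (nat_lit 1))) (.col (nat_lit 2)) (.col (nat_lit 1)) (.slot (nat_lit 3))
def w15514 : Root := .mk (.node (.col (nat_lit 0)) (.col (nat_lit 1)) (.slot (nat_lit 2))) (.node (.node (.node (.col (nat_lit 0)) (.slot (nat_lit 0)) (.slot (nat_lit 0))) (.col (nat_lit 0)) (.slot (nat_lit 2))) (.col (nat_lit 3)) (.slot (nat_lit 2))) (.col (nat_lit 1)) (.node (.col (nat_lit 0)) (.node (.slot (nat_lit 0)) (.slot (nat_lit 0)) (.slot (nat_lit 0))) (.slot (nat_lit 0)))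
def l3414 : Root := .mk (.node (.node (.node (.col (nat_lit 0)) (.col (nat_lit 1)) (.slot (nat_lit 5))) (.col (nat_lit 1)) (.node (.col (nat_lit 0)) (.node (.slot (nat_lit 0)) (.slot (nat_lit 0)) (.slot (nat_lit 0))) (.slot (nat_lit 0)))) (.col (nat_lit 3)) (.slot (nat_lit 2))) (.col (nat_lit 2)) (.col (nat_lit 1)) (.node (.col (nat_lit 1)) (.slot (nat_lit 0)) (.slot (nat_lit 0)))
def w15515 : Root := .mk (.node (.node (.node (.col (nat_lit 0)) (.col (nat_lit 1)) (.slot (nat_lit 5))) (.col (nat_lit 1)) (.node (.col (nat_lit 0)) (.node (.slot (nat_lit 0)) (.slot (nat_lit 0)) (.slot (nat_lit 0))) (.slot (nat_lit 0)))) (.node (.slot (nat_lit 0)) (.col (nat_lit 0)) (.slot (nat_lit 0))) (.slot (nat_lit 2))) (.col (nat_lit 2)) (.col (nat_lit 1)) (.node (.col (nat_lit 1)) (.slot (nat_lit 0)) (.slot (nat_lit 0)))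
def l3415 : Root := .mk (.node (.node (.node (.col (nat_lit 0)) (.col (nat_lit 1)) (.slot (nat_lit 5))) (.col (nat_lit 1)) (.node (.col (nat_lit 0)) (.node (.slot (nat_lit 0)) (.slot (nat_lit 0)) (.slot (nat_lit 0))) (.slot (nat_lit 0)))) (.col (nat_lit 3)) (.slot (nat_lit 2))) (.col (nat_lit 2)) (.col (nat_lit 1)) (.node (.col (nat_lit 2)) (.slot (nat_lit 0)) (.slot (nat_lit 0)))
def w15516 : Root := .mk (.node (.node (.node (.col (nat_lit 0)) (.col (nat_lit 1)) (.slot (nat_lit 5))) (.col (nat_lit 1)) (.node (.col (nat_lit 0)) (.node (.slot (nat_lit 0)) (.slot (nat_lit 0)) (.slot (nat_lit 0))) (.slot (nat_lit 0)))) (.node (.slot (nat_lit 0)) (.col (nat_lit 0)) (.slot (nat_lit 0))) (.slot (nat_lit 2))) (.col (nat_lit 2)) (.col (nat_lit 1)) (.node (.col (nat_lit 2)) (.slot (nat_lit 0)) (.slot (nat_lit 0)))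
def w15517 : Root := .mk (.node (.node (.node (.col (nat_lit 0)) (.col (nat_lit 1)) (.slot (nat_lit 2))) (.col (nat_lit 1)) (.node (.col (nat_lit 0)) (.node (.slot (nat_lit 0)) (.slot (nat_lit 0)) (.slot (nat_lit 0))) (.slot (nat_lit 0)))) (.node (.node (.col (nat_lit 0)) (.slot (nat_lit 0)) (.slot (nat_lit 0))) (.col (nat_lit 0)) (.slot (nat_lit 2))) (.slot (nat_lit 2))) (.col (nat_lit 2)) (.col (nat_lit 1)) (.node (.slot (nat_lit 0)) (.slot (nat_lit 0)) (.slot (nat_lit 0)))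
def w15518 : Root := .mk (.node (.node (.col (nat_lit 0)) (.col (nat_lit 1)) (.slot (nat_lit 2))) (.col (nat_lit 1)) (.node (.col (nat_lit 0)) (.node (.slot (nat_lit 0)) (.slot (nat_lit 0)) (.slot (nat_lit 0))) (.slot (nat_lit 0)))) (.node (.node (.col (nat_lit 0)) (.slot (nat_lit 0)) (.slot (nat_lit 0))) (.col (nat_lit 0)) (.slot (nat_lit 1))) (.node (.col (nat_lit 2)) (.col (nat_lit 1)) (.slot (nat_lit 1))) (.col (nat_lit 1))
def w15519 : Root := .mk (.node (.node (.col (nat_lit 0)) (.col (nat_lit 1)) (.slot (nat_lit 2))) (.col (nat_lit 1)) (.node (.col (nat_lit 0)) (.node (.slot (nat_lit 0)) (.slot (nat_lit 0)) (.slot (nat_lit 0))) (.slot (nat_lit 0)))) (.node (.node (.col (nat_lit 0)) (.slot (nat_lit 0)) (.slot (nat_lit 0))) (.col (nat_lit 0)) (.slot (nat_lit 1))) (.node (.col (nat_lit 2)) (.col (nat_lit 1)) (.slot (nat_lit 1))) (.col (nat_lit 2))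
def w15520 : Root := .mk (.node (.col (nat_lit 0)) (.col (nat_lit 1)) (.slot (nat_lit 2))) (.node (.node (.node (.col (nat_lit 0)) (.slot (nat_lit 0)) (.slot (nat_lit 0))) (.col (nat_lit 0)) (.slot (nat_lit 2))) (.node (.col (nat_lit 2)) (.col (nat_lit 1)) (.slot (nat_lit 0))) (.node (.col (nat_lit 0)) (.slot (nat_lit 1)) (.slot (nat_lit 1)))) (.col (nat_lit 1)) (.node (.col (nat_lit 0)) (.node (.slot (nat_lit 0)) (.slot (nat_lit 0)) (.slot (nat_lit 0))) (.slot (nat_lit 0)))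
def w15521 : Root := .mk (.node (.col (nat_lit 0)) (.col (nat_lit 1)) (.slot (nat_lit 2))) (.node (.node (.slot (nat_lit 0)) (.col (nat_lit 0)) (.slot (nat_lit 0))) (.node (.col (nat_lit 2)) (.col (nat_lit 1)) (.slot (nat_lit 4))) (.node (.col (nat_lit 3)) (.slot (nat_lit 1)) (.slot (nat_lit 0)))) (.col (nat_lit 1)) (.node (.col (nat_lit 0)) (.node (.slot (nat_lit 0)) (.slot (nat_lit 0)) (.slot (nat_lit 0))) (.slot (nat_lit 0)))
def w15522 : Root := .mk (.node (.node (.node (.col (nat_lit 0)) (.col (nat_lit 1)) (.slot (nat_lit 2))) (.col (nat_lit 1)) (.node (.col (nat_lit 0)) (.node (.slot (nat_lit 0)) (.slot (nat_lit 0)) (.slot (nat_lit 0))) (.slot (nat_lit 0)))) (.node (.col (nat_lit 2)) (.col (nat_lit 1)) (.slot (nat_lit 1))) (.slot (nat_lit 1))) (.col (nat_lit 1)) (.col (nat_lit 0)) (.slot (nat_lit 1))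
def w15523 : Root := .mk (.node (.node (.node (.col (nat_lit 0)) (.col (nat_lit 1)) (.slot (nat_lit 2))) (.col (nat_lit 1)) (.node (.col (nat_lit 0)) (.node (.slot (nat_lit 0)) (.slot (nat_lit 0)) (.slot (nat_lit 0))) (.slot (nat_lit 0)))) (.node (.col (nat_lit 2)) (.col (nat_lit 1)) (.slot (nat_lit 1))) (.slot (nat_lit 1))) (.col (nat_lit 2)) (.col (nat_lit 0)) (.slot (nat_lit 0))
def w15524 : Root := .mk (.node (.node (.node (.col (nat_lit 0)) (.col (nat_lit 1)) (.slot (nat_lit 2))) (.col (nat_lit 1)) (.node (.col (nat_lit 0)) (.node (.slot (nat_lit 0)) (.slot (nat_lit 0)) (.slot (nat_lit 0))) (.slot (nat_lit 0)))) (.node (.col (nat_lit 2)) (.col (nat_lit 1)) (.slot (nat_lit 1))) (.slot (nat_lit 2))) (.col (nat_lit 3)) (.col (nat_lit 0)) (.slot (nat_lit 2))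
def w15525 : Root := .mk (.node (.node (.node (.col (nat_lit 0)) (.col (nat_lit 1)) (.slot (nat_lit 2))) (.col (nat_lit 1)) (.node (.col (nat_lit 0)) (.node (.slot (nat_lit 0)) (.slot (nat_lit 0)) (.slot (nat_lit 0))) (.slot (nat_lit 0)))) (.node (.col (nat_lit 2)) (.col (nat_lit 1)) (.slot (nat_lit 1))) (.slot (nat_lit 1))) (.node (.col (nat_lit 0)) (.slot (nat_lit 0)) (.slot (nat_lit 0))) (.col (nat_lit 0)) (.col (nat_lit 1))
def w15526 : Root := .mk (.node (.node (.node (.col (nat_lit 0)) (.col (nat_lit 1)) (.slot (nat_lit 2))) (.col (nat_lit 1)) (.node (.col (nat_lit 0)) (.node (.slot (nat_lit 0)) (.slot (nat_lit 0)) (.slot (nat_lit 0))) (.slot (nat_lit 0)))) (.node (.col (nat_lit 2)) (.col (nat_lit 1)) (.slot (nat_lit 2))) (.slot (nat_lit 1))) (.slot (nat_lit 0)) (.col (nat_lit 0)) (.col (nat_lit 3))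
def w15527 : Root := .mk (.col (nat_lit 0)) (.col (nat_lit 1)) (.node (.node (.node (.slot (nat_lit 0)) (.col (nat_lit 0)) (.slot (nat_lit 0))) (.node (.col (nat_lit 2)) (.col (nat_lit 1)) (.slot (nat_lit 3))) (.slot (nat_lit 1))) (.col (nat_lit 1)) (.node (.col (nat_lit 0)) (.node (.slot (nat_lit 0)) (.slot (nat_lit 0)) (.slot (nat_lit 0))) (.slot (nat_lit 1)))) (.node (.col (nat_lit 0)) (.slot (nat_lit 0)) (.slot (nat_lit 0)))
def w15528 : Root := .mk (.col (nat_lit 0)) (.col (nat_lit 1)) (.node (.node (.node (.slot (nat_lit 0)) (.col (nat_lit 0)) (.slot (nat_lit 0))) (.node (.col (nat_lit 2)) (.col (nat_lit 1)) (.slot (nat_lit 3))) (.slot (nat_lit 1))) (.col (nat_lit 1)) (.node (.col (nat_lit 0)) (.node (.slot (nat_lit 0)) (.slot (nat_lit 0)) (.slot (nat_lit 0))) (.slot (nat_lit 1)))) (.node (.col (nat_lit 1)) (.slot (nat_lit 0)) (.slot (nat_lit 0)))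
def w15529 : Root := .mk (.col (nat_lit 0)) (.col (nat_lit 1)) (.node (.node (.node (.slot (nat_lit 0)) (.col (nat_lit 0)) (.slot (nat_lit 0))) (.node (.col (nat_lit 2)) (.col (nat_lit 1)) (.slot (nat_lit 3))) (.slot (nat_lit 1))) (.col (nat_lit 1)) (.node (.col (nat_lit 0)) (.node (.slot (nat_lit 0)) (.slot (nat_lit 0)) (.slot (nat_lit 0))) (.slot (nat_lit 1)))) (.node (.slot (nat_lit 0)) (.slot (nat_lit 0)) (.slot (nat_lit 0)))
def w15530 : Root := .mk (.node (.node (.col (nat_lit 0)) (.col (nat_lit 1)) (.slot (nat_lit 2))) (.node (.node (.slot (nat_lit 0)) (.col (nat_lit 0)) (.slot (nat_lit 0))) (.node (.col (nat_lit 2)) (.col (nat_lit 1)) (.slot (nat_lit 3))) (.slot (nat_lit 1))) (.col (nat_lit 1))) (.col (nat_lit 0)) (.node (.slot (nat_lit 0)) (.slot (nat_lit 0)) (.slot (nat_lit 0))) (.col (nat_lit 1))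
def l3416 : Root := .mk (.node (.node (.node (.col (nat_lit 0)) (.col (nat_lit 1)) (.slot (nat_lit 5))) (.col (nat_lit 1)) (.node (.col (nat_lit 0)) (.node (.slot (nat_lit 0)) (.slot (nat_lit 0)) (.slot (nat_lit 0))) (.slot (nat_lit 3)))) (.node (.node (.col (nat_lit 0)) (.slot (nat_lit 0)) (.slot (nat_lit 0))) (.col (nat_lit 0)) (.slot (nat_lit 3))) (.slot (nat_lit 8))) (.col (nat_lit 2)) (.col (nat_lit 1)) (.slot (nat_lit 5))
def w15531 : Root := .mk (.node (.col (nat_lit 0)) (.col (nat_lit 1)) (.slot (nat_lit 5))) (.node (.node (.node (.col (nat_lit 0)) (.slot (nat_lit 0)) (.slot (nat_lit 0))) (.col (nat_lit 0)) (.slot (nat_lit 3))) (.node (.col (nat_lit 2)) (.slot (nat_lit 1)) (.slot (nat_lit 5))) (.slot (nat_lit 8))) (.col (nat_lit 1)) (.node (.col (nat_lit 0)) (.node (.slot (nat_lit 0)) (.slot (nat_lit 0)) (.slot (nat_lit 0))) (.slot (nat_lit 3)))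
def l3417 : Root := .mk (.node (.col (nat_lit 0)) (.col (nat_lit 1)) (.slot (nat_lit 5))) (.node (.node (.node (.col (nat_lit 0)) (.slot (nat_lit 10)) (.slot (nat_lit 8))) (.col (nat_lit 0)) (.slot (nat_lit 8))) (.node (.col (nat_lit 2)) (.slot (nat_lit 7)) (.slot (nat_lit 5))) (.slot (nat_lit 10))) (.col (nat_lit 1)) (.node (.col (nat_lit 0)) (.slot (nat_lit 7)) (.slot (nat_lit 5)))
def w15532 : Root := .mk (.col (nat_lit 0)) (.col (nat_lit 1)) (.node (.node (.node (.node (.col (nat_lit 0)) (.slot (nat_lit 10)) (.slot (nat_lit 8))) (.col (nat_lit 0)) (.slot (nat_lit 8))) (.node (.col (nat_lit 2)) (.slot (nat_lit 7)) (.slot (nat_lit 5))) (.slot (nat_lit 10))) (.col (nat_lit 1)) (.slot (nat_lit 8))) (.slot (nat_lit 5))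
def w15533 : Root := .mk (.node (.node (.node (.col (nat_lit 0)) (.col (nat_lit 1)) (.slot (nat_lit 1))) (.node (.col (nat_lit 2)) (.slot (nat_lit 1)) (.slot (nat_lit 1))) (.slot (nat_lit 2))) (.node (.col (nat_lit 2)) (.slot (nat_lit 1)) (.slot (nat_lit 0))) (.slot (nat_lit 1))) (.col (nat_lit 2)) (.col (nat_lit 0)) (.node (.col (nat_lit 0)) (.slot (nat_lit 0)) (.slot (nat_lit 0)))
def w15534 : Root := .mk (.node (.node (.node (.col (nat_lit 0)) (.col (nat_lit 1)) (.slot (nat_lit 1))) (.node (.col (nat_lit 2)) (.slot (nat_lit 1)) (.slot (nat_lit 1))) (.slot (nat_lit 2))) (.node (.col (nat_lit 2)) (.slot (nat_lit 2)) (.slot (nat_lit 1))) (.slot (nat_lit 1))) (.col (nat_lit 2)) (.col (nat_lit 0)) (.node (.col (nat_lit 2)) (.slot (nat_lit 1)) (.slot (nat_lit 1)))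
def w15535 : Root := .mk (.node (.node (.node (.col (nat_lit 0)) (.col (nat_lit 1)) (.slot (nat_lit 1))) (.node (.col (nat_lit 2)) (.slot (nat_lit 1)) (.slot (nat_lit 1))) (.slot (nat_lit 2))) (.node (.col (nat_lit 2)) (.slot (nat_lit 1)) (.slot (nat_lit 0))) (.slot (nat_lit 1))) (.col (nat_lit 2)) (.col (nat_lit 0)) (.node (.slot (nat_lit 0)) (.slot (nat_lit 0)) (.slot (nat_lit 0)))
def w15536 : Root := .mk (.node (.node (.node (.col (nat_lit 0)) (.col (nat_lit 1)) (.slot (nat_lit 6))) (.node (.col (nat_lit 2)) (.slot (nat_lit 0)) (.slot (nat_lit 0))) (.slot (nat_lit 2))) (.col (nat_lit 0)) (.slot (nat_lit 6))) (.col (nat_lit 2)) (.col (nat_lit 0)) (.slot (nat_lit 0))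
def w15537 : Root := .mk (.node (.node (.node (.col (nat_lit 0)) (.col (nat_lit 1)) (.slot (nat_lit 1))) (.node (.col (nat_lit 2)) (.slot (nat_lit 1)) (.slot (nat_lit 1))) (.slot (nat_lit 2))) (.node (.col (nat_lit 2)) (.slot (nat_lit 0)) (.slot (nat_lit 0))) (.node (.col (nat_lit 0)) (.slot (nat_lit 1)) (.slot (nat_lit 0)))) (.col (nat_lit 2)) (.col (nat_lit 0)) (.slot (nat_lit 1))
def w15538 : Root := .mk (.node (.node (.node (.col (nat_lit 0)) (.col (nat_lit 1)) (.slot (nat_lit 1))) (.node (.col (nat_lit 2)) (.slot (nat_lit 1)) (.slot (nat_lit 1))) (.slot (nat_lit 2))) (.node (.col (nat_lit 2)) (.col (nat_lit 0)) (.slot (nat_lit 0))) (.slot (nat_lit 1))) (.col (nat_lit 2)) (.col (nat_lit 1)) (.slot (nat_lit 1))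
def w15539 : Root := .mk (.node (.node (.node (.col (nat_lit 0)) (.col (nat_lit 1)) (.slot (nat_lit 1))) (.node (.col (nat_lit 2)) (.slot (nat_lit 1)) (.slot (nat_lit 1))) (.slot (nat_lit 2))) (.node (.col (nat_lit 2)) (.col (nat_lit 0)) (.slot (nat_lit 1))) (.slot (nat_lit 1))) (.col (nat_lit 2)) (.col (nat_lit 3)) (.slot (nat_lit 1))
def l3418 : Root := .mk (.node (.node (.node (.col (nat_lit 0)) (.col (nat_lit 1)) (.slot (nat_lit 6))) (.node (.col (nat_lit 2)) (.slot (nat_lit 1)) (.slot (nat_lit 1))) (.slot (nat_lit 2))) (.node (.col (nat_lit 2)) (.slot (nat_lit 7)) (.slot (nat_lit 5))) (.slot (nat_lit 8))) (.col (nat_lit 2)) (.col (nat_lit 0)) (.slot (nat_lit 3))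
def w15540 : Root := .mk (.col (nat_lit 0)) (.col (nat_lit 1)) (.node (.node (.node (.node (.col (nat_lit 0)) (.slot (nat_lit 0)) (.slot (nat_lit 0))) (.col (nat_lit 0)) (.slot (nat_lit 3))) (.node (.col (nat_lit 2)) (.slot (nat_lit 7)) (.slot (nat_lit 5))) (.slot (nat_lit 8))) (.node (.col (nat_lit 2)) (.slot (nat_lit 1)) (.slot (nat_lit 1))) (.slot (nat_lit 2))) (.slot (nat_lit 6))
def w15541 : Root := .mk (.node (.node (.node (.col (nat_lit 0)) (.col (nat_lit 1)) (.slot (nat_lit 2))) (.node (.col (nat_lit 3)) (.slot (nat_lit 0)) (.slot (nat_lit 0))) (.slot (nat_lit 2))) (.node (.col (nat_lit 2)) (.slot (nat_lit 1)) (.slot (nat_lit 0))) (.slot (nat_lit 1))) (.col (nat_lit 2)) (.col (nat_lit 0)) (.node (.col (nat_lit 0)) (.slot (nat_lit 0)) (.slot (nat_lit 0)))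
def w15542 : Root := .mk (.node (.node (.node (.col (nat_lit 0)) (.col (nat_lit 1)) (.slot (nat_lit 2))) (.node (.col (nat_lit 3)) (.slot (nat_lit 0)) (.slot (nat_lit 0))) (.slot (nat_lit 2))) (.node (.col (nat_lit 2)) (.slot (nat_lit 2)) (.slot (nat_lit 1))) (.slot (nat_lit 1))) (.col (nat_lit 2)) (.col (nat_lit 0)) (.node (.col (nat_lit 2)) (.slot (nat_lit 1)) (.slot (nat_lit 1)))
def w15543 : Root := .mk (.node (.node (.node (.col (nat_lit 0)) (.col (nat_lit 1)) (.slot (nat_lit 2))) (.node (.col (nat_lit 3)) (.slot (nat_lit 0)) (.slot (nat_lit 0))) (.slot (nat_lit 2))) (.node (.col (nat_lit 2)) (.slot (nat_lit 1)) (.slot (nat_lit 0))) (.slot (nat_lit 1))) (.col (nat_lit 2)) (.col (nat_lit 0)) (.node (.slot (nat_lit 0)) (.slot (nat_lit 0)) (.slot (nat_lit 0)))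
def w15544 : Root := .mk (.node (.node (.node (.col (nat_lit 0)) (.col (nat_lit 1)) (.slot (nat_lit 1))) (.node (.col (nat_lit 3)) (.slot (nat_lit 1)) (.slot (nat_lit 1))) (.slot (nat_lit 2))) (.node (.col (nat_lit 2)) (.slot (nat_lit 0)) (.slot (nat_lit 0))) (.node (.col (nat_lit 0)) (.slot (nat_lit 1)) (.slot (nat_lit 0)))) (.col (nat_lit 2)) (.col (nat_lit 0)) (.slot (nat_lit 1))
def w15545 : Root := .mk (.node (.node (.node (.col (nat_lit 0)) (.col (nat_lit 1)) (.slot (nat_lit 2))) (.node (.col (nat_lit 3)) (.slot (nat_lit 0)) (.slot (nat_lit 0))) (.slot (nat_lit 2))) (.node (.col (nat_lit 2)) (.col (nat_lit 0)) (.slot (nat_lit 0))) (.slot (nat_lit 1))) (.col (nat_lit 2)) (.col (nat_lit 1)) (.slot (nat_lit 1))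
def w15546 : Root := .mk (.node (.node (.node (.col (nat_lit 0)) (.col (nat_lit 1)) (.slot (nat_lit 2))) (.node (.col (nat_lit 3)) (.slot (nat_lit 0)) (.slot (nat_lit 0))) (.slot (nat_lit 2))) (.node (.col (nat_lit 2)) (.col (nat_lit 0)) (.slot (nat_lit 1))) (.slot (nat_lit 1))) (.col (nat_lit 2)) (.col (nat_lit 3)) (.slot (nat_lit 1))
def w15547 : Root := .mk (.node (.node (.node (.col (nat_lit 0)) (.col (nat_lit 1)) (.slot (nat_lit 2))) (.node (.col (nat_lit 3)) (.slot (nat_lit 0)) (.slot (nat_lit 0))) (.slot (nat_lit 2))) (.node (.col (nat_lit 2)) (.col (nat_lit 0)) (.slot (nat_lit 0))) (.slot (nat_lit 1))) (.col (nat_lit 2)) (.col (nat_lit 4)) (.slot (nat_lit 1))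
def l3419 : Root := .mk (.node (.node (.node (.col (nat_lit 0)) (.col (nat_lit 1)) (.slot (nat_lit 6))) (.node (.col (nat_lit 3)) (.slot (nat_lit 7)) (.slot (nat_lit 5))) (.slot (nat_lit 8))) (.node (.col (nat_lit 2)) (.slot (nat_lit 7)) (.slot (nat_lit 5))) (.slot (nat_lit 8))) (.col (nat_lit 2)) (.col (nat_lit 0)) (.slot (nat_lit 3))
def w15548 : Root := .mk (.col (nat_lit 0)) (.col (nat_lit 1)) (.node (.node (.node (.node (.col (nat_lit 0)) (.slot (nat_lit 0)) (.slot (nat_lit 0))) (.col (nat_lit 0)) (.slot (nat_lit 3))) (.node (.col (nat_lit 2)) (.slot (nat_lit 7)) (.slot (nat_lit 5))) (.slot (nat_lit 8))) (.node (.col (nat_lit 3)) (.slot (nat_lit 7)) (.slot (nat_lit 5))) (.slot (nat_lit 8))) (.slot (nat_lit 6))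
def l3420 : Root := .mk (.node (.node (.node (.col (nat_lit 0)) (.col (nat_lit 1)) (.slot (nat_lit 3))) (.node (.slot (nat_lit 0)) (.slot (nat_lit 0)) (.slot (nat_lit 0))) (.slot (nat_lit 1))) (.node (.col (nat_lit 2)) (.slot (nat_lit 7)) (.slot (nat_lit 5))) (.slot (nat_lit 8))) (.col (nat_lit 2)) (.col (nat_lit 0)) (.slot (nat_lit 3))
def w15549 : Root := .mk (.col (nat_lit 0)) (.col (nat_lit 1)) (.node (.node (.node (.node (.col (nat_lit 0)) (.slot (nat_lit 0)) (.slot (nat_lit 0))) (.col (nat_lit 0)) (.slot (nat_lit 3))) (.node (.col (nat_lit 2)) (.slot (nat_lit 7)) (.slot (nat_lit 5))) (.slot (nat_lit 8))) (.node (.slot (nat_lit 0)) (.slot (nat_lit 0)) (.slot (nat_lit 0))) (.slot (nat_lit 1))) (.slot (nat_lit 3))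
def w15550 : Root := .mk (.node (.node (.node (.col (nat_lit 0)) (.col (nat_lit 1)) (.slot (nat_lit 2))) (.slot (nat_lit 1)) (.slot (nat_lit 1))) (.node (.col (nat_lit 2)) (.slot (nat_lit 0)) (.slot (nat_lit 0))) (.slot (nat_lit 2))) (.col (nat_lit 1)) (.col (nat_lit 0)) (.slot (nat_lit 2))
def w15551 : Root := .mk (.node (.node (.node (.col (nat_lit 0)) (.col (nat_lit 1)) (.slot (nat_lit 3))) (.slot (nat_lit 8)) (.slot (nat_lit 8))) (.node (.col (nat_lit 2)) (.slot (nat_lit 7)) (.slot (nat_lit 5))) (.slot (nat_lit 8))) (.col (nat_lit 3)) (.col (nat_lit 0)) (.slot (nat_lit 6))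
def w15552 : Root := .mk (.node (.node (.node (.col (nat_lit 0)) (.col (nat_lit 1)) (.slot (nat_lit 2))) (.slot (nat_lit 1)) (.slot (nat_lit 1))) (.node (.col (nat_lit 2)) (.slot (nat_lit 1)) (.slot (nat_lit 1))) (.slot (nat_lit 2))) (.node (.col (nat_lit 0)) (.slot (nat_lit 0)) (.slot (nat_lit 0))) (.col (nat_lit 0)) (.col (nat_lit 1))
def w15553 : Root := .mk (.node (.node (.node (.col (nat_lit 0)) (.col (nat_lit 1)) (.slot (nat_lit 9))) (.slot (nat_lit 8)) (.slot (nat_lit 8))) (.node (.col (nat_lit 2)) (.slot (nat_lit 8)) (.slot (nat_lit 5))) (.slot (nat_lit 8))) (.slot (nat_lit 0)) (.col (nat_lit 0)) (.col (nat_lit 3))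
def w15554 : Root := .mk (.node (.node (.node (.col (nat_lit 0)) (.col (nat_lit 1)) (.slot (nat_lit 2))) (.slot (nat_lit 1)) (.slot (nat_lit 1))) (.node (.slot (nat_lit 0)) (.col (nat_lit 0)) (.slot (nat_lit 0))) (.slot (nat_lit 1))) (.col (nat_lit 2)) (.col (nat_lit 1)) (.slot (nat_lit 3))
def w15555 : Root := .mk (.col (nat_lit 0)) (.col (nat_lit 1)) (.node (.node (.node (.slot (nat_lit 0)) (.col (nat_lit 0)) (.slot (nat_lit 0))) (.node (.col (nat_lit 2)) (.node (.col (nat_lit 0)) (.slot (nat_lit 7)) (.slot (nat_lit 5))) (.slot (nat_lit 8))) (.slot (nat_lit 8))) (.slot (nat_lit 8)) (.slot (nat_lit 8))) (.slot (nat_lit 8))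
def w15556 : Root := .mk (.col (nat_lit 0)) (.col (nat_lit 1)) (.node (.node (.col (nat_lit 3)) (.node (.col (nat_lit 2)) (.node (.col (nat_lit 2)) (.slot (nat_lit 0)) (.slot (nat_lit 0))) (.slot (nat_lit 2))) (.slot (nat_lit 2))) (.slot (nat_lit 1)) (.slot (nat_lit 1))) (.slot (nat_lit 2))
def w15557 : Root := .mk (.node (.node (.node (.col (nat_lit 0)) (.col (nat_lit 1)) (.slot (nat_lit 2))) (.slot (nat_lit 1)) (.slot (nat_lit 1))) (.node (.col (nat_lit 2)) (.slot (nat_lit 0)) (.slot (nat_lit 1))) (.slot (nat_lit 1))) (.col (nat_lit 2)) (.col (nat_lit 0)) (.node (.col (nat_lit 0)) (.slot (nat_lit 0)) (.slot (nat_lit 0)))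
def w15558 : Root := .mk (.node (.node (.node (.col (nat_lit 0)) (.col (nat_lit 1)) (.slot (nat_lit 2))) (.slot (nat_lit 1)) (.slot (nat_lit 1))) (.node (.col (nat_lit 2)) (.slot (nat_lit 0)) (.slot (nat_lit 1))) (.slot (nat_lit 1))) (.col (nat_lit 2)) (.col (nat_lit 0)) (.node (.col (nat_lit 2)) (.slot (nat_lit 0)) (.slot (nat_lit 0)))
def w15559 : Root := .mk (.node (.node (.node (.col (nat_lit 0)) (.col (nat_lit 1)) (.slot (nat_lit 2))) (.slot (nat_lit 1)) (.slot (nat_lit 1))) (.node (.col (nat_lit 2)) (.slot (nat_lit 0)) (.slot (nat_lit 1))) (.slot (nat_lit 1))) (.col (nat_lit 2)) (.col (nat_lit 0)) (.node (.slot (nat_lit 0)) (.slot (nat_lit 0)) (.slot (nat_lit 0)))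
def w15560 : Root := .mk (.node (.node (.col (nat_lit 0)) (.col (nat_lit 1)) (.slot (nat_lit 2))) (.slot (nat_lit 1)) (.slot (nat_lit 1))) (.node (.col (nat_lit 2)) (.col (nat_lit 0)) (.slot (nat_lit 3))) (.node (.col (nat_lit 2)) (.node (.col (nat_lit 2)) (.slot (nat_lit 0)) (.slot (nat_lit 0))) (.slot (nat_lit 3))) (.col (nat_lit 2))
def l3421 : Root := .mk (.node (.col (nat_lit 0)) (.col (nat_lit 1)) (.slot (nat_lit 5))) (.node (.node (.col (nat_lit 2)) (.col (nat_lit 0)) (.slot (nat_lit 3))) (.node (.col (nat_lit 2)) (.node (.col (nat_lit 2)) (.slot (nat_lit 0)) (.slot (nat_lit 0))) (.slot (nat_lit 1))) (.slot (nat_lit 3))) (.col (nat_lit 0)) (.col (nat_lit 2))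
def w15561 : Root := .mk (.col (nat_lit 0)) (.col (nat_lit 1)) (.node (.node (.node (.col (nat_lit 2)) (.col (nat_lit 0)) (.slot (nat_lit 3))) (.node (.col (nat_lit 2)) (.node (.col (nat_lit 2)) (.slot (nat_lit 0)) (.slot (nat_lit 0))) (.slot (nat_lit 1))) (.slot (nat_lit 3))) (.col (nat_lit 0)) (.slot (nat_lit 1))) (.slot (nat_lit 5))
def w15562 : Root := .mk (.node (.node (.node (.col (nat_lit 0)) (.col (nat_lit 1)) (.slot (nat_lit 2))) (.slot (nat_lit 1)) (.slot (nat_lit 1))) (.node (.col (nat_lit 2)) (.col (nat_lit 0)) (.slot (nat_lit 0))) (.slot (nat_lit 1))) (.col (nat_lit 2)) (.col (nat_lit 1)) (.slot (nat_lit 1))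
def w15563 : Root := .mk (.node (.node (.node (.col (nat_lit 0)) (.col (nat_lit 1)) (.slot (nat_lit 2))) (.slot (nat_lit 1)) (.slot (nat_lit 1))) (.node (.col (nat_lit 2)) (.col (nat_lit 0)) (.slot (nat_lit 2))) (.slot (nat_lit 1))) (.col (nat_lit 2)) (.slot (nat_lit 0)) (.col (nat_lit 3))
def w15564 : Root := .mk (.node (.node (.node (.col (nat_lit 0)) (.col (nat_lit 1)) (.slot (nat_lit 2))) (.slot (nat_lit 1)) (.slot (nat_lit 1))) (.node (.col (nat_lit 2)) (.col (nat_lit 0)) (.slot (nat_lit 1))) (.slot (nat_lit 1))) (.col (nat_lit 2)) (.node (.col (nat_lit 2)) (.slot (nat_lit 0)) (.slot (nat_lit 0))) (.slot (nat_lit 0))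
def l3422 : Root := .mk (.node (.node (.node (.col (nat_lit 0)) (.col (nat_lit 1)) (.slot (nat_lit 5))) (.slot (nat_lit 4)) (.slot (nat_lit 4))) (.node (.col (nat_lit 2)) (.node (.col (nat_lit 2)) (.slot (nat_lit 0)) (.slot (nat_lit 0))) (.slot (nat_lit 6))) (.slot (nat_lit 8))) (.col (nat_lit 2)) (.col (nat_lit 0)) (.slot (nat_lit 8))
def w15565 : Root := .mk (.col (nat_lit 0)) (.col (nat_lit 1)) (.node (.node (.node (.node (.col (nat_lit 0)) (.slot (nat_lit 0)) (.slot (nat_lit 0))) (.col (nat_lit 0)) (.slot (nat_lit 8))) (.node (.col (nat_lit 2)) (.node (.col (nat_lit 2)) (.slot (nat_lit 0)) (.slot (nat_lit 0))) (.slot (nat_lit 6))) (.slot (nat_lit 8))) (.slot (nat_lit 4)) (.slot (nat_lit 4))) (.slot (nat_lit 5))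
def w15566 : Root := .mk (.col (nat_lit 0)) (.col (nat_lit 1)) (.node (.node (.node (.slot (nat_lit 0)) (.col (nat_lit 0)) (.slot (nat_lit 0))) (.node (.col (nat_lit 2)) (.node (.col (nat_lit 3)) (.slot (nat_lit 2)) (.slot (nat_lit 1))) (.slot (nat_lit 1))) (.slot (nat_lit 1))) (.slot (nat_lit 1)) (.slot (nat_lit 1))) (.slot (nat_lit 2))
def l3423 : Root := .mk (.node (.node (.node (.col (nat_lit 0)) (.col (nat_lit 1)) (.slot (nat_lit 3))) (.slot (nat_lit 4)) (.slot (nat_lit 4))) (.node (.col (nat_lit 2)) (.node (.slot (nat_lit 0)) (.slot (nat_lit 1)) (.slot (nat_lit 1))) (.slot (nat_lit 3))) (.slot (nat_lit 8))) (.col (nat_lit 2)) (.col (nat_lit 0)) (.slot (nat_lit 8))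
def w15567 : Root := .mk (.col (nat_lit 0)) (.col (nat_lit 1)) (.node (.node (.node (.node (.col (nat_lit 0)) (.slot (nat_lit 0)) (.slot (nat_lit 0))) (.col (nat_lit 0)) (.slot (nat_lit 8))) (.node (.col (nat_lit 2)) (.node (.slot (nat_lit 0)) (.slot (nat_lit 1)) (.slot (nat_lit 1))) (.slot (nat_lit 3))) (.slot (nat_lit 8))) (.slot (nat_lit 4)) (.slot (nat_lit 4))) (.slot (nat_lit 3))
def w15568 : Root := .mk (.col (nat_lit 0)) (.col (nat_lit 1)) (.node (.node (.node (.node (.col (nat_lit 0)) (.slot (nat_lit 0)) (.slot (nat_lit 0))) (.col (nat_lit 0)) (.slot (nat_lit 2))) (.col (nat_lit 3)) (.slot (nat_lit 2))) (.slot (nat_lit 1)) (.slot (nat_lit 0))) (.col (nat_lit 2))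
def w15569 : Root := .mk (.col (nat_lit 0)) (.col (nat_lit 1)) (.node (.node (.node (.node (.col (nat_lit 0)) (.slot (nat_lit 0)) (.slot (nat_lit 0))) (.col (nat_lit 0)) (.slot (nat_lit 2))) (.node (.col (nat_lit 2)) (.node (.col (nat_lit 0)) (.slot (nat_lit 1)) (.slot (nat_lit 1))) (.slot (nat_lit 2))) (.slot (nat_lit 2))) (.slot (nat_lit 1)) (.slot (nat_lit 0))) (.col (nat_lit 2))
def w15570 : Root := .mk (.col (nat_lit 0)) (.col (nat_lit 1)) (.node (.node (.node (.slot (nat_lit 0)) (.col (nat_lit 0)) (.slot (nat_lit 0))) (.node (.col (nat_lit 2)) (.col (nat_lit 1)) (.slot (nat_lit 3))) (.slot (nat_lit 1))) (.slot (nat_lit 1)) (.slot (nat_lit 0))) (.col (nat_lit 2))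
def w15571 : Root := .mk (.col (nat_lit 0)) (.col (nat_lit 1)) (.node (.node (.node (.slot (nat_lit 0)) (.col (nat_lit 0)) (.slot (nat_lit 0))) (.node (.col (nat_lit 2)) (.col (nat_lit 3)) (.slot (nat_lit 3))) (.slot (nat_lit 1))) (.slot (nat_lit 1)) (.slot (nat_lit 0))) (.col (nat_lit 2))
def w15572 : Root := .mk (.col (nat_lit 0)) (.col (nat_lit 1)) (.node (.node (.node (.slot (nat_lit 0)) (.col (nat_lit 0)) (.slot (nat_lit 1))) (.node (.col (nat_lit 2)) (.node (.col (nat_lit 0)) (.slot (nat_lit 0)) (.slot (nat_lit 0))) (.col (nat_lit 0))) (.slot (nat_lit 1))) (.slot (nat_lit 1)) (.slot (nat_lit 0))) (.col (nat_lit 2))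
def w15573 : Root := .mk (.col (nat_lit 0)) (.col (nat_lit 1)) (.node (.node (.node (.node (.col (nat_lit 0)) (.slot (nat_lit 0)) (.slot (nat_lit 0))) (.col (nat_lit 0)) (.slot (nat_lit 2))) (.node (.col (nat_lit 2)) (.slot (nat_lit 0)) (.slot (nat_lit 0))) (.col (nat_lit 1))) (.col (nat_lit 0)) (.slot (nat_lit 1))) (.col (nat_lit 2))
def w15574 : Root := .mk (.col (nat_lit 0)) (.col (nat_lit 1)) (.node (.node (.node (.node (.col (nat_lit 0)) (.slot (nat_lit 0)) (.slot (nat_lit 0))) (.col (nat_lit 0)) (.slot (nat_lit 1))) (.node (.col (nat_lit 2)) (.col (nat_lit 1)) (.node (.col (nat_lit 1)) (.slot (nat_lit 0)) (.slot (nat_lit 0)))) (.col (nat_lit 1))) (.slot (nat_lit 1)) (.slot (nat_lit 0))) (.col (nat_lit 2))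
def w15575 : Root := .mk (.col (nat_lit 0)) (.col (nat_lit 1)) (.node (.node (.node .junk (.col (nat_lit 0)) (.slot (nat_lit 1))) (.node (.col (nat_lit 2)) (.node (.col (nat_lit 0)) (.slot (nat_lit 1)) (.slot (nat_lit 1))) (.node (.col (nat_lit 1)) (.col (nat_lit 2)) (.slot (nat_lit 1)))) (.col (nat_lit 1))) (.slot (nat_lit 1)) (.slot (nat_lit 0))) (.col (nat_lit 2))
def w15576 : Root := .mk (.node (.node (.slot (nat_lit 0)) (.slot (nat_lit 1)) (.slot (nat_lit 1))) (.node (.slot (nat_lit 0)) (.col (nat_lit 0)) (.slot (nat_lit 1))) (.col (nat_lit 1))) (.col (nat_lit 2)) (.node (.col (nat_lit 0)) (.slot (nat_lit 0)) (.slot (nat_lit 0))) (.node (.col (nat_lit 1)) (.node (.col (nat_lit 1)) (.slot (nat_lit 0)) (.slot (nat_lit 0))) (.slot (nat_lit 2)))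
def l3424 : Root := .mk (.col (nat_lit 0)) (.col (nat_lit 1)) (.node (.node (.node (.node (.col (nat_lit 0)) (.slot (nat_lit 0)) (.slot (nat_lit 0))) (.col (nat_lit 0)) (.slot (nat_lit 2))) (.node (.col (nat_lit 2)) (.node (.col (nat_lit 0)) (.slot (nat_lit 5)) (.slot (nat_lit 1))) (.node (.col (nat_lit 1)) (.slot (nat_lit 5)) (.slot (nat_lit 5)))) (.col (nat_lit 1))) (.slot (nat_lit 1)) (.slot (nat_lit 1))) (.col (nat_lit 2))
def w15577 : Root := .mk (.col (nat_lit 0)) (.col (nat_lit 1)) (.node (.node (.node (.node (.col (nat_lit 0)) (.slot (nat_lit 0)) (.slot (nat_lit 0))) (.col (nat_lit 0)) (.slot (nat_lit 2))) (.node (.col (nat_lit 2)) (.node (.col (nat_lit 0)) (.slot (nat_lit 5)) (.slot (nat_lit 1))) (.node (.col (nat_lit 1)) (.slot (nat_lit 5)) (.slot (nat_lit 5)))) (.slot (nat_lit 1))) (.slot (nat_lit 1)) (.slot (nat_lit 1))) (.col (nat_lit 2))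
def w15578 : Root := .mk (.col (nat_lit 0)) (.col (nat_lit 1)) (.node (.node (.node .junk (.col (nat_lit 0)) (.slot (nat_lit 1))) (.node (.col (nat_lit 2)) (.node (.col (nat_lit 0)) (.slot (nat_lit 1)) .junk) (.col (nat_lit 1))) (.col (nat_lit 1))) (.slot (nat_lit 1)) (.slot (nat_lit 0))) (.col (nat_lit 2))
def l3425 : Root := .mk (.col (nat_lit 0)) (.col (nat_lit 1)) (.node (.node (.node (.node (.col (nat_lit 0)) (.slot (nat_lit 0)) (.slot (nat_lit 0))) (.col (nat_lit 0)) (.slot (nat_lit 2))) (.node (.col (nat_lit 2)) (.node (.col (nat_lit 0)) (.slot (nat_lit 8)) (.slot (nat_lit 8))) (.col (nat_lit 1))) (.slot (nat_lit 2))) (.slot (nat_lit 2)) (.slot (nat_lit 1))) (.col (nat_lit 2))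
def w15579 : Root := .mk (.col (nat_lit 0)) (.col (nat_lit 1)) (.node (.node (.node (.node (.col (nat_lit 0)) (.slot (nat_lit 0)) (.slot (nat_lit 0))) (.col (nat_lit 0)) (.slot (nat_lit 2))) (.node (.col (nat_lit 2)) (.node (.col (nat_lit 0)) (.slot (nat_lit 8)) (.slot (nat_lit 8))) (.node (.col (nat_lit 2)) (.slot (nat_lit 0)) (.slot (nat_lit 0)))) (.slot (nat_lit 2))) (.slot (nat_lit 2)) (.slot (nat_lit 1))) (.col (nat_lit 2))
def w15580 : Root := .mk (.col (nat_lit 0)) (.col (nat_lit 1)) (.node (.node (.node (.node (.col (nat_lit 0)) (.slot (nat_lit 0)) (.slot (nat_lit 0))) (.col (nat_lit 0)) (.slot (nat_lit 2))) (.node (.col (nat_lit 2)) (.node (.col (nat_lit 0)) (.slot (nat_lit 8)) (.slot (nat_lit 8))) (.node (.col (nat_lit 3)) (.slot (nat_lit 0)) (.slot (nat_lit 0)))) (.slot (nat_lit 2))) (.slot (nat_lit 2)) (.slot (nat_lit 1))) (.col (nat_lit 2))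
def w15581 : Root := .mk (.col (nat_lit 0)) (.col (nat_lit 1)) (.node (.node (.node (.node (.col (nat_lit 0)) (.slot (nat_lit 0)) (.slot (nat_lit 0))) (.col (nat_lit 0)) (.slot (nat_lit 2))) (.node (.col (nat_lit 2)) (.node (.col (nat_lit 0)) (.slot (nat_lit 8)) (.slot (nat_lit 8))) (.node (.slot (nat_lit 0)) (.slot (nat_lit 0)) (.slot (nat_lit 0)))) (.slot (nat_lit 2))) (.slot (nat_lit 2)) (.slot (nat_lit 1))) (.col (nat_lit 2))
def w15582 : Root := .mk (.col (nat_lit 0)) (.col (nat_lit 1)) (.node (.node (.node (.node (.col (nat_lit 0)) (.slot (nat_lit 0)) (.slot (nat_lit 0))) (.col (nat_lit 0)) (.slot (nat_lit 2))) (.node (.col (nat_lit 2)) (.node (.col (nat_lit 0)) (.slot (nat_lit 5)) (.slot (nat_lit 1))) (.slot (nat_lit 6))) (.col (nat_lit 1))) (.slot (nat_lit 1)) (.slot (nat_lit 1))) (.col (nat_lit 2))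
def w15583 : Root := .mk (.col (nat_lit 0)) (.col (nat_lit 1)) (.node (.node (.node (.node (.col (nat_lit 0)) (.slot (nat_lit 0)) (.slot (nat_lit 0))) (.col (nat_lit 0)) (.slot (nat_lit 1))) (.node (.col (nat_lit 2)) (.slot (nat_lit 0)) (.slot (nat_lit 1))) (.col (nat_lit 3))) (.slot (nat_lit 1)) (.slot (nat_lit 0))) (.col (nat_lit 2))
def w15584 : Root := .mk (.node (.slot (nat_lit 0)) (.slot (nat_lit 0)) (.slot (nat_lit 0))) (.node (.node (.col (nat_lit 0)) (.slot (nat_lit 0)) (.slot (nat_lit 0))) (.col (nat_lit 0)) (.slot (nat_lit 2))) (.node (.col (nat_lit 2)) (.node (.col (nat_lit 0)) (.slot (nat_lit 1)) (.slot (nat_lit 1))) (.slot (nat_lit 2))) (.node (.col (nat_lit 0)) (.slot (nat_lit 1)) (.slot (nat_lit 1)))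
def w15585 : Root := .mk (.col (nat_lit 0)) (.col (nat_lit 1)) (.node (.node (.node (.node (.col (nat_lit 0)) (.slot (nat_lit 0)) (.slot (nat_lit 0))) (.col (nat_lit 0)) (.slot (nat_lit 1))) (.node (.col (nat_lit 2)) (.node (.col (nat_lit 0)) (.slot (nat_lit 1)) (.slot (nat_lit 1))) (.slot (nat_lit 2))) (.node (.col (nat_lit 1)) (.slot (nat_lit 1)) (.slot (nat_lit 0)))) (.slot (nat_lit 1)) (.slot (nat_lit 0))) (.col (nat_lit 2))
def w15586 : Root := .mk (.col (nat_lit 0)) (.col (nat_lit 1)) (.node (.node (.node (.slot (nat_lit 0)) (.col (nat_lit 0)) (.slot (nat_lit 1))) (.node (.col (nat_lit 2)) (.node (.col (nat_lit 0)) (.slot (nat_lit 1)) (.slot (nat_lit 1))) (.slot (nat_lit 2))) (.node (.col (nat_lit 3)) (.slot (nat_lit 1)) (.slot (nat_lit 1)))) (.slot (nat_lit 1)) (.slot (nat_lit 0))) (.col (nat_lit 2))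
def w15587 : Root := .mk (.col (nat_lit 0)) (.col (nat_lit 1)) (.node (.node (.node (.slot (nat_lit 0)) (.col (nat_lit 0)) (.slot (nat_lit 0))) (.node (.col (nat_lit 2)) (.node (.col (nat_lit 0)) (.slot (nat_lit 1)) (.slot (nat_lit 1))) (.slot (nat_lit 2))) (.node (.slot (nat_lit 0)) (.slot (nat_lit 0)) (.slot (nat_lit 0)))) (.slot (nat_lit 3)) (.slot (nat_lit 1))) (.col (nat_lit 2))
def w15588 : Root := .mk (.col (nat_lit 0)) (.col (nat_lit 1)) (.node (.node (.node (.node (.col (nat_lit 0)) (.slot (nat_lit 0)) (.slot (nat_lit 0))) (.col (nat_lit 0)) (.slot (nat_lit 2))) (.node (.col (nat_lit 2)) (.node (.col (nat_lit 0)) .junk (.col (nat_lit 3))) (.slot (nat_lit 1))) (.slot (nat_lit 2))) (.slot (nat_lit 1)) (.slot (nat_lit 0))) (.col (nat_lit 2))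
def w15589 : Root := .mk (.node (.node (.slot (nat_lit 0)) (.slot (nat_lit 0)) (.slot (nat_lit 0))) (.node (.node (.col (nat_lit 0)) (.slot (nat_lit 0)) (.slot (nat_lit 0))) (.col (nat_lit 0)) (.slot (nat_lit 2))) (.slot (nat_lit 2))) (.col (nat_lit 2)) (.node (.col (nat_lit 0)) (.col (nat_lit 2)) (.node (.col (nat_lit 1)) (.slot (nat_lit 1)) .junk)) (.col (nat_lit 0))
def l3426 : Root := .mk (.col (nat_lit 3)) (.node (.slot (nat_lit 0)) (.col (nat_lit 0)) (.slot (nat_lit 0))) (.node (.col (nat_lit 2)) (.node (.col (nat_lit 0)) (.col (nat_lit 2)) (.node (.col (nat_lit 1)) (.node (.slot (nat_lit 0)) (.slot (nat_lit 0)) (.slot (nat_lit 0))) (.slot (nat_lit 1)))) (.slot (nat_lit 2))) (.col (nat_lit 0))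
def w15590 : Root := .mk (.node (.node (.col (nat_lit 3)) (.node (.slot (nat_lit 0)) (.col (nat_lit 0)) (.slot (nat_lit 0))) (.slot (nat_lit 1))) (.col (nat_lit 2)) (.slot (nat_lit 2))) (.col (nat_lit 0)) (.col (nat_lit 2)) (.node (.col (nat_lit 1)) (.node (.slot (nat_lit 0)) (.slot (nat_lit 0)) (.slot (nat_lit 0))) (.slot (nat_lit 1)))
def w15591 : Root := .mk (.col (nat_lit 0)) (.col (nat_lit 1)) (.node (.node (.node (.slot (nat_lit 0)) (.col (nat_lit 0)) (.slot (nat_lit 0))) (.node (.col (nat_lit 2)) (.node (.col (nat_lit 0)) (.col (nat_lit 2)) (.node (.col (nat_lit 1)) (.node (.slot (nat_lit 0)) (.slot (nat_lit 0)) (.slot (nat_lit 0))) (.slot (nat_lit 1)))) (.slot (nat_lit 2))) (.slot (nat_lit 1))) (.slot (nat_lit 1)) (.slot (nat_lit 0))) (.col (nat_lit 2))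
def w15592 : Root := .mk (.node (.node (.col (nat_lit 1)) (.node (.node (.col (nat_lit 0)) (.slot (nat_lit 0)) (.slot (nat_lit 0))) (.col (nat_lit 0)) (.slot (nat_lit 2))) (.slot (nat_lit 2))) (.col (nat_lit 2)) (.slot (nat_lit 1))) (.col (nat_lit 0)) (.col (nat_lit 2)) (.node (.col (nat_lit 1)) (.slot (nat_lit 1)) (.slot (nat_lit 1)))
def w15593 : Root := .mk (.col (nat_lit 0)) (.col (nat_lit 1)) (.node (.node (.node .junk (.col (nat_lit 0)) (.slot (nat_lit 1))) (.node (.col (nat_lit 2)) (.node (.col (nat_lit 0)) (.col (nat_lit 2)) (.node (.col (nat_lit 1)) (.slot (nat_lit 1)) (.slot (nat_lit 1)))) (.slot (nat_lit 1))) (.col (nat_lit 1))) (.slot (nat_lit 1)) (.slot (nat_lit 0))) (.col (nat_lit 2))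
def l3427 : Root := .mk (.col (nat_lit 0)) (.col (nat_lit 1)) (.node (.node (.node (.node (.col (nat_lit 0)) (.slot (nat_lit 0)) (.slot (nat_lit 0))) (.col (nat_lit 0)) (.slot (nat_lit 2))) (.node (.col (nat_lit 2)) (.node (.col (nat_lit 0)) (.col (nat_lit 2)) (.node (.col (nat_lit 1)) (.slot (nat_lit 12)) (.slot (nat_lit 12)))) (.slot (nat_lit 5))) (.slot (nat_lit 2))) (.slot (nat_lit 2)) (.slot (nat_lit 1))) (.col (nat_lit 2))
def w15594 : Root := .mk (.col (nat_lit 0)) (.col (nat_lit 1)) (.node (.node (.node (.node (.col (nat_lit 0)) (.slot (nat_lit 0)) (.slot (nat_lit 0))) (.col (nat_lit 0)) (.slot (nat_lit 2))) (.node (.col (nat_lit 2)) (.node (.col (nat_lit 0)) (.col (nat_lit 2)) (.slot (nat_lit 13))) (.slot (nat_lit 5))) (.slot (nat_lit 2))) (.slot (nat_lit 2)) (.slot (nat_lit 1))) (.col (nat_lit 2))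
def w15595 : Root := .mk (.col (nat_lit 0)) (.col (nat_lit 1)) (.node (.node (.node (.slot (nat_lit 0)) (.col (nat_lit 0)) (.slot (nat_lit 1))) (.node (.col (nat_lit 2)) (.node (.col (nat_lit 0)) (.node (.col (nat_lit 0)) (.slot (nat_lit 0)) (.slot (nat_lit 0))) (.slot (nat_lit 2))) (.slot (nat_lit 2))) (.slot (nat_lit 1))) (.slot (nat_lit 3)) (.slot (nat_lit 1))) (.col (nat_lit 2))
def w15596 : Root := .mk (.col (nat_lit 0)) (.col (nat_lit 1)) (.node (.node (.node (.slot (nat_lit 0)) (.col (nat_lit 0)) (.slot (nat_lit 0))) (.node (.col (nat_lit 2)) (.node (.col (nat_lit 0)) (.slot (nat_lit 1)) (.slot (nat_lit 1))) (.slot (nat_lit 2))) (.slot (nat_lit 3))) (.col (nat_lit 0)) (.slot (nat_lit 1))) (.col (nat_lit 2))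
def w15597 : Root := .mk (.node (.col (nat_lit 0)) .junk (.col (nat_lit 2))) (.node (.node (.node (.col (nat_lit 0)) (.slot (nat_lit 3)) (.slot (nat_lit 1))) (.col (nat_lit 0)) (.slot (nat_lit 1))) (.node (.col (nat_lit 2)) (.node (.col (nat_lit 0)) (.slot (nat_lit 1)) (.slot (nat_lit 1))) (.slot (nat_lit 2))) (.slot (nat_lit 3))) (.col (nat_lit 1)) (.slot (nat_lit 1))
def w15598 : Root := .mk (.node (.col (nat_lit 0)) (.col (nat_lit 1)) .junk) (.node (.node (.node (.col (nat_lit 0)) (.slot (nat_lit 3)) (.slot (nat_lit 1))) (.col (nat_lit 0)) (.slot (nat_lit 1))) (.node (.col (nat_lit 2)) (.node (.col (nat_lit 0)) (.slot (nat_lit 1)) (.slot (nat_lit 1))) (.slot (nat_lit 2))) (.slot (nat_lit 3))) (.col (nat_lit 2)) (.slot (nat_lit 1))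
def w15599 : Root := .mk (.col (nat_lit 0)) (.col (nat_lit 1)) (.node (.node (.node .junk (.col (nat_lit 0)) (.col (nat_lit 1))) (.node (.col (nat_lit 2)) (.node (.col (nat_lit 0)) (.slot (nat_lit 1)) (.slot (nat_lit 1))) (.slot (nat_lit 2))) (.slot (nat_lit 1))) (.slot (nat_lit 1)) (.slot (nat_lit 0))) (.col (nat_lit 2))
def l3428 : Root := .mk (.col (nat_lit 0)) (.col (nat_lit 1)) (.node (.node (.node (.node (.col (nat_lit 0)) (.slot (nat_lit 3)) (.slot (nat_lit 1))) (.col (nat_lit 0)) (.slot (nat_lit 3))) (.node (.col (nat_lit 2)) (.node (.col (nat_lit 0)) (.slot (nat_lit 13)) (.slot (nat_lit 13))) (.slot (nat_lit 8))) (.slot (nat_lit 8))) (.slot (nat_lit 3)) (.slot (nat_lit 1))) (.col (nat_lit 2))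
def w15600 : Root := .mk (.col (nat_lit 0)) (.col (nat_lit 1)) (.node (.node (.node (.node (.col (nat_lit 0)) (.slot (nat_lit 3)) (.slot (nat_lit 1))) (.col (nat_lit 0)) (.slot (nat_lit 3))) (.node (.col (nat_lit 2)) (.slot (nat_lit 14)) (.slot (nat_lit 8))) (.slot (nat_lit 8))) (.slot (nat_lit 3)) (.slot (nat_lit 1))) (.col (nat_lit 2))
def l3429 : Root := .mk (.col (nat_lit 0)) (.col (nat_lit 1)) (.node (.node (.node (.slot (nat_lit 0)) (.col (nat_lit 0)) (.slot (nat_lit 0))) (.node (.col (nat_lit 2)) (.slot (nat_lit 3)) (.slot (nat_lit 1))) (.slot (nat_lit 8))) (.col (nat_lit 2)) (.slot (nat_lit 3))) (.col (nat_lit 3))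
def w15601 : Root := .mk (.col (nat_lit 0)) (.col (nat_lit 1)) (.node (.node (.node (.slot (nat_lit 0)) (.col (nat_lit 0)) (.slot (nat_lit 0))) (.node (.col (nat_lit 2)) (.slot (nat_lit 3)) (.slot (nat_lit 1))) (.slot (nat_lit 8))) (.slot (nat_lit 1)) (.slot (nat_lit 3))) (.col (nat_lit 3))
def w15602 : Root := .mk (.node (.col (nat_lit 0)) (.col (nat_lit 1)) (.slot (nat_lit 0))) (.node (.node (.slot (nat_lit 0)) (.col (nat_lit 0)) (.slot (nat_lit 0))) (.node (.col (nat_lit 2)) (.node (.col (nat_lit 1)) (.slot (nat_lit 3)) (.slot (nat_lit 1))) (.slot (nat_lit 1))) (.slot (nat_lit 3))) (.col (nat_lit 2)) (.col (nat_lit 0))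
def w15603 : Root := .mk (.node (.node (.node .junk (.col (nat_lit 1)) (.node (.col (nat_lit 0)) (.slot (nat_lit 0)) (.slot (nat_lit 0)))) (.col (nat_lit 2)) (.col (nat_lit 0))) (.node (.node (.col (nat_lit 0)) (.slot (nat_lit 0)) (.slot (nat_lit 0))) (.col (nat_lit 0)) (.slot (nat_lit 2))) (.slot (nat_lit 2))) (.col (nat_lit 2)) (.node (.col (nat_lit 1)) (.slot (nat_lit 0)) (.slot (nat_lit 0))) (.col (nat_lit 1))
def w15604 : Root := .mk (.slot (nat_lit 0)) (.node (.node (.node (.col (nat_lit 0)) (.slot (nat_lit 0)) (.slot (nat_lit 0))) (.col (nat_lit 0)) (.slot (nat_lit 3))) (.node (.col (nat_lit 2)) (.node (.col (nat_lit 1)) (.slot (nat_lit 1)) (.slot (nat_lit 1))) (.node (.col (nat_lit 0)) (.slot (nat_lit 1)) (.slot (nat_lit 0)))) (.slot (nat_lit 1))) (.col (nat_lit 2)) (.col (nat_lit 0))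
def l3430 : Root := .mk (.node (.col (nat_lit 0)) (.col (nat_lit 1)) (.node (.col (nat_lit 0)) (.slot (nat_lit 1)) (.slot (nat_lit 1)))) (.node (.col (nat_lit 1)) (.node (.col (nat_lit 2)) (.node (.col (nat_lit 1)) (.slot (nat_lit 5)) (.slot (nat_lit 5))) (.node (.col (nat_lit 2)) (.slot (nat_lit 0)) (.slot (nat_lit 0)))) (.slot (nat_lit 2))) (.col (nat_lit 2)) (.col (nat_lit 0))
def w15605 : Root := .mk (.node (.col (nat_lit 0)) (.col (nat_lit 1)) (.node (.col (nat_lit 0)) (.slot (nat_lit 1)) (.slot (nat_lit 1)))) (.node (.node (.slot (nat_lit 0)) (.col (nat_lit 0)) (.slot (nat_lit 0))) (.node (.col (nat_lit 2)) (.node (.col (nat_lit 1)) (.slot (nat_lit 5)) (.slot (nat_lit 5))) (.node (.col (nat_lit 2)) (.slot (nat_lit 0)) (.slot (nat_lit 0)))) (.slot (nat_lit 2))) (.col (nat_lit 2)) (.col (nat_lit 0))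
def w15606 : Root := .mk (.slot (nat_lit 0)) (.node (.node (.node (.col (nat_lit 0)) (.slot (nat_lit 0)) (.slot (nat_lit 0))) (.col (nat_lit 0)) (.slot (nat_lit 3))) (.node (.col (nat_lit 2)) (.node (.col (nat_lit 1)) (.slot (nat_lit 1)) (.slot (nat_lit 1))) (.node (.col (nat_lit 3)) (.slot (nat_lit 1)) (.slot (nat_lit 0)))) (.slot (nat_lit 1))) (.col (nat_lit 2)) (.col (nat_lit 0))
def l3431 : Root := .mk (.node (.col (nat_lit 0)) (.col (nat_lit 1)) (.node (.col (nat_lit 0)) (.slot (nat_lit 0)) (.slot (nat_lit 0)))) (.node (.node (.node (.col (nat_lit 0)) (.slot (nat_lit 0)) (.slot (nat_lit 0))) (.col (nat_lit 0)) (.slot (nat_lit 1))) (.col (nat_lit 1)) (.node (.col (nat_lit 0)) (.slot (nat_lit 1)) (.slot (nat_lit 0)))) (.col (nat_lit 2)) (.col (nat_lit 0))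
def w15607 : Root := .mk (.node (.col (nat_lit 0)) (.col (nat_lit 1)) (.node (.col (nat_lit 0)) (.slot (nat_lit 0)) (.slot (nat_lit 0)))) (.node (.node (.node (.col (nat_lit 0)) (.slot (nat_lit 0)) (.slot (nat_lit 0))) (.col (nat_lit 0)) (.slot (nat_lit 1))) (.node (.col (nat_lit 2)) (.slot (nat_lit 0)) (.slot (nat_lit 0))) (.node (.col (nat_lit 0)) (.slot (nat_lit 1)) (.slot (nat_lit 0)))) (.col (nat_lit 2)) (.col (nat_lit 0))
def w15608 : Root := .mk (.node (.col (nat_lit 0)) (.col (nat_lit 1)) (.node (.col (nat_lit 0)) (.slot (nat_lit 0)) (.slot (nat_lit 0)))) (.node (.node (.slot (nat_lit 0)) (.col (nat_lit 0)) (.slot (nat_lit 0))) (.col (nat_lit 3)) (.node (.col (nat_lit 1)) (.slot (nat_lit 0)) (.slot (nat_lit 0)))) (.col (nat_lit 2)) (.col (nat_lit 0))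
def w15609 : Root := .mk (.node (.col (nat_lit 0)) (.col (nat_lit 1)) (.node (.col (nat_lit 0)) (.slot (nat_lit 0)) (.slot (nat_lit 0)))) (.node (.node (.slot (nat_lit 0)) (.col (nat_lit 0)) (.slot (nat_lit 0))) (.node (.col (nat_lit 2)) (.node (.col (nat_lit 1)) (.slot (nat_lit 1)) (.slot (nat_lit 1))) (.slot (nat_lit 2))) (.node (.col (nat_lit 1)) (.slot (nat_lit 0)) (.slot (nat_lit 0)))) (.col (nat_lit 2)) (.col (nat_lit 0))
def w15610 : Root := .mk (.node (.col (nat_lit 0)) (.col (nat_lit 1)) (.node (.col (nat_lit 0)) (.slot (nat_lit 0)) (.slot (nat_lit 0)))) (.node (.node (.slot (nat_lit 0)) (.col (nat_lit 0)) (.slot (nat_lit 0))) (.node (.col (nat_lit 2)) (.slot (nat_lit 0)) (.slot (nat_lit 1))) (.node (.col (nat_lit 2)) (.slot (nat_lit 1)) (.slot (nat_lit 1)))) (.col (nat_lit 2)) (.col (nat_lit 0))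
def w15611 : Root := .mk (.node (.col (nat_lit 0)) (.col (nat_lit 1)) (.slot (nat_lit 0))) (.node (.node (.slot (nat_lit 0)) (.col (nat_lit 0)) (.slot (nat_lit 1))) (.node (.col (nat_lit 2)) (.node (.col (nat_lit 1)) (.slot (nat_lit 1)) (.slot (nat_lit 1))) (.slot (nat_lit 2))) (.node (.col (nat_lit 3)) (.slot (nat_lit 0)) (.slot (nat_lit 0)))) (.col (nat_lit 2)) (.col (nat_lit 0))
def w15612 : Root := .mk (.slot (nat_lit 0)) (.node (.node (.node (.col (nat_lit 0)) (.slot (nat_lit 0)) (.slot (nat_lit 0))) (.col (nat_lit 0)) (.slot (nat_lit 3))) (.node (.col (nat_lit 2)) (.node (.col (nat_lit 1)) (.slot (nat_lit 1)) (.slot (nat_lit 1))) (.slot (nat_lit 2))) (.node (.slot (nat_lit 0)) (.slot (nat_lit 0)) (.slot (nat_lit 0)))) (.col (nat_lit 2)) (.col (nat_lit 0))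
def l3432 : Root := .mk (.node (.col (nat_lit 0)) (.col (nat_lit 1)) (.node (.col (nat_lit 0)) (.slot (nat_lit 1)) (.slot (nat_lit 1)))) (.node (.col (nat_lit 1)) (.node (.col (nat_lit 2)) (.node (.col (nat_lit 1)) (.col (nat_lit 2)) (.slot (nat_lit 3))) (.slot (nat_lit 4))) (.slot (nat_lit 2))) (.col (nat_lit 2)) (.col (nat_lit 0))
def w15613 : Root := .mk (.node (.col (nat_lit 0)) (.col (nat_lit 1)) (.node (.col (nat_lit 0)) (.slot (nat_lit 1)) (.slot (nat_lit 1)))) (.node (.node (.slot (nat_lit 0)) (.col (nat_lit 0)) (.slot (nat_lit 0))) (.node (.col (nat_lit 2)) (.node (.col (nat_lit 1)) (.col (nat_lit 2)) (.slot (nat_lit 3))) (.slot (nat_lit 4))) (.slot (nat_lit 2))) (.col (nat_lit 2)) (.col (nat_lit 0))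
def w15614 : Root := .mk (.node (.col (nat_lit 0)) (.col (nat_lit 1)) (.slot (nat_lit 0))) (.node (.node (.slot (nat_lit 0)) (.col (nat_lit 0)) (.slot (nat_lit 0))) (.node (.col (nat_lit 2)) (.node (.col (nat_lit 1)) (.node (.col (nat_lit 1)) (.slot (nat_lit 0)) (.slot (nat_lit 0))) (.slot (nat_lit 1))) (.slot (nat_lit 1))) (.slot (nat_lit 3))) (.col (nat_lit 2)) (.col (nat_lit 0))
def w15615 : Root := .mk (.node (.node (.slot (nat_lit 0)) (.col (nat_lit 2)) (.col (nat_lit 0))) (.node (.col (nat_lit 2)) (.node (.col (nat_lit 1)) (.slot (nat_lit 2)) (.slot (nat_lit 2))) (.slot (nat_lit 3))) (.slot (nat_lit 1))) (.node (.col (nat_lit 0)) (.slot (nat_lit 0)) (.slot (nat_lit 0))) (.col (nat_lit 0)) (.col (nat_lit 2))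
def w15616 : Root := .mk (.node (.node (.node (.col (nat_lit 0)) (.col (nat_lit 1)) (.slot (nat_lit 0))) (.col (nat_lit 2)) (.col (nat_lit 0))) (.node (.col (nat_lit 2)) (.node (.col (nat_lit 1)) (.slot (nat_lit 3)) (.slot (nat_lit 1))) (.slot (nat_lit 1))) (.slot (nat_lit 3))) (.slot (nat_lit 0)) (.col (nat_lit 0)) (.col (nat_lit 3))
def l3433 : Root := .mk (.node (.col (nat_lit 0)) (.col (nat_lit 1)) (.node (.col (nat_lit 0)) (.slot (nat_lit 1)) (.slot (nat_lit 1)))) (.node (.node (.node (.col (nat_lit 0)) (.slot (nat_lit 0)) (.slot (nat_lit 0))) (.col (nat_lit 0)) (.slot (nat_lit 3))) (.node (.col (nat_lit 2)) (.node (.col (nat_lit 1)) (.slot (nat_lit 8)) (.slot (nat_lit 8))) (.slot (nat_lit 4))) (.slot (nat_lit 3))) (.col (nat_lit 2)) (.col (nat_lit 0))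
def w15617 : Root := .mk (.node (.col (nat_lit 0)) (.col (nat_lit 1)) (.node (.col (nat_lit 0)) (.slot (nat_lit 1)) (.slot (nat_lit 1)))) (.node (.node (.node (.col (nat_lit 0)) (.slot (nat_lit 0)) (.slot (nat_lit 0))) (.col (nat_lit 0)) (.slot (nat_lit 3))) (.node (.col (nat_lit 2)) (.slot (nat_lit 9)) (.slot (nat_lit 4))) (.slot (nat_lit 3))) (.col (nat_lit 2)) (.col (nat_lit 0))
def w15618 : Root := .mk (.node (.node (.node (.col (nat_lit 0)) .junk (.node (.col (nat_lit 0)) (.slot (nat_lit 0)) (.slot (nat_lit 0)))) (.col (nat_lit 2)) (.col (nat_lit 1))) (.node (.col (nat_lit 2)) (.slot (nat_lit 1)) (.slot (nat_lit 0))) (.slot (nat_lit 1))) (.col (nat_lit 2)) (.col (nat_lit 0)) (.node (.col (nat_lit 0)) (.slot (nat_lit 0)) (.slot (nat_lit 0)))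
def w15619 : Root := .mk (.node (.node (.node (.col (nat_lit 0)) .junk (.node (.col (nat_lit 0)) (.slot (nat_lit 0)) (.slot (nat_lit 0)))) (.col (nat_lit 2)) (.col (nat_lit 1))) (.node (.col (nat_lit 2)) (.slot (nat_lit 2)) (.slot (nat_lit 1))) (.slot (nat_lit 1))) (.col (nat_lit 2)) (.col (nat_lit 0)) (.node (.col (nat_lit 2)) (.slot (nat_lit 1)) (.slot (nat_lit 1)))
def w15620 : Root := .mk (.node (.node (.node (.col (nat_lit 0)) .junk (.node (.col (nat_lit 0)) (.slot (nat_lit 0)) (.slot (nat_lit 0)))) (.col (nat_lit 2)) (.col (nat_lit 1))) (.node (.col (nat_lit 2)) (.slot (nat_lit 1)) (.slot (nat_lit 0))) (.slot (nat_lit 1))) (.col (nat_lit 2)) (.col (nat_lit 0)) (.node (.slot (nat_lit 0)) (.slot (nat_lit 0)) (.slot (nat_lit 0)))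
def w15621 : Root := .mk (.node (.col (nat_lit 0)) .junk (.node (.col (nat_lit 0)) (.slot (nat_lit 0)) (.slot (nat_lit 0)))) (.node (.node (.col (nat_lit 2)) (.col (nat_lit 0)) (.slot (nat_lit 3))) (.node (.col (nat_lit 2)) (.slot (nat_lit 3)) (.slot (nat_lit 1))) (.col (nat_lit 2))) (.col (nat_lit 2)) (.col (nat_lit 1))
def w15622 : Root := .mk (.node (.col (nat_lit 0)) .junk (.node (.col (nat_lit 0)) (.slot (nat_lit 0)) (.slot (nat_lit 0)))) (.node (.node (.col (nat_lit 2)) (.col (nat_lit 0)) (.slot (nat_lit 1))) (.node (.col (nat_lit 2)) (.slot (nat_lit 0)) (.slot (nat_lit 0))) (.node (.col (nat_lit 0)) (.slot (nat_lit 1)) (.slot (nat_lit 0)))) (.col (nat_lit 2)) (.col (nat_lit 1))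
def w15623 : Root := .mk (.node (.col (nat_lit 0)) (.col (nat_lit 1)) (.node (.col (nat_lit 0)) (.slot (nat_lit 0)) (.slot (nat_lit 0)))) (.node (.node (.col (nat_lit 2)) (.col (nat_lit 0)) (.slot (nat_lit 2))) (.node (.col (nat_lit 2)) (.slot (nat_lit 0)) (.slot (nat_lit 0))) (.node (.col (nat_lit 2)) (.slot (nat_lit 1)) (.slot (nat_lit 0)))) (.col (nat_lit 2)) (.col (nat_lit 1))
def w15624 : Root := .mk (.slot (nat_lit 0)) (.node (.node (.col (nat_lit 2)) (.col (nat_lit 0)) (.slot (nat_lit 3))) (.node (.col (nat_lit 2)) (.slot (nat_lit 7)) (.slot (nat_lit 5))) (.node (.col (nat_lit 3)) (.slot (nat_lit 3)) (.slot (nat_lit 1)))) (.col (nat_lit 2)) (.col (nat_lit 1))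
def w15625 : Root := .mk (.node (.col (nat_lit 0)) .junk (.node (.col (nat_lit 0)) (.slot (nat_lit 0)) (.slot (nat_lit 0)))) (.node (.node (.col (nat_lit 2)) (.col (nat_lit 0)) (.slot (nat_lit 1))) (.node (.col (nat_lit 2)) (.col (nat_lit 3)) (.slot (nat_lit 1))) (.slot (nat_lit 1))) (.col (nat_lit 2)) (.col (nat_lit 1))
def l3434 : Root := .mk (.node (.col (nat_lit 0)) (.col (nat_lit 1)) (.node (.col (nat_lit 0)) (.slot (nat_lit 0)) (.slot (nat_lit 0)))) (.node (.node (.col (nat_lit 2)) (.col (nat_lit 0)) (.slot (nat_lit 3))) (.node (.col (nat_lit 2)) (.slot (nat_lit 7)) (.slot (nat_lit 5))) (.slot (nat_lit 8))) (.col (nat_lit 2)) (.col (nat_lit 1))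
def w15626 : Root := .mk (.node (.col (nat_lit 0)) (.col (nat_lit 1)) (.node (.col (nat_lit 0)) (.slot (nat_lit 0)) (.slot (nat_lit 0)))) (.node (.node (.node (.col (nat_lit 0)) (.slot (nat_lit 0)) (.slot (nat_lit 0))) (.col (nat_lit 0)) (.slot (nat_lit 3))) (.node (.col (nat_lit 2)) (.slot (nat_lit 7)) (.slot (nat_lit 5))) (.slot (nat_lit 8))) (.col (nat_lit 2)) (.col (nat_lit 1))
def w15627 : Root := .mk (.col (nat_lit 0)) (.col (nat_lit 1)) (.node (.node (.node (.slot (nat_lit 0)) (.col (nat_lit 0)) (.slot (nat_lit 0))) (.node (.col (nat_lit 2)) (.slot (nat_lit 7)) (.slot (nat_lit 5))) (.slot (nat_lit 8))) (.col (nat_lit 2)) (.node (.col (nat_lit 2)) (.slot (nat_lit 0)) (.slot (nat_lit 0)))) (.node (.col (nat_lit 0)) (.slot (nat_lit 0)) (.slot (nat_lit 0)))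
def w15628 : Root := .mk (.col (nat_lit 0)) (.col (nat_lit 1)) (.node (.node (.node (.slot (nat_lit 0)) (.col (nat_lit 0)) (.slot (nat_lit 0))) (.node (.col (nat_lit 2)) (.slot (nat_lit 7)) (.slot (nat_lit 5))) (.slot (nat_lit 8))) (.col (nat_lit 2)) (.node (.col (nat_lit 3)) (.slot (nat_lit 1)) (.slot (nat_lit 1)))) (.node (.col (nat_lit 0)) (.slot (nat_lit 0)) (.slot (nat_lit 0)))
def w15629 : Root := .mk (.node (.node (.node (.col (nat_lit 0)) (.col (nat_lit 1)) .junk) (.col (nat_lit 2)) (.slot (nat_lit 1))) (.node (.col (nat_lit 2)) (.slot (nat_lit 1)) (.slot (nat_lit 0))) (.slot (nat_lit 1))) (.col (nat_lit 2)) (.col (nat_lit 0)) (.node (.col (nat_lit 0)) (.slot (nat_lit 0)) (.slot (nat_lit 0)))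
def w15630 : Root := .mk (.node (.node (.node (.col (nat_lit 0)) (.col (nat_lit 1)) .junk) (.col (nat_lit 2)) (.slot (nat_lit 1))) (.node (.col (nat_lit 2)) (.slot (nat_lit 2)) (.slot (nat_lit 1))) (.slot (nat_lit 1))) (.col (nat_lit 2)) (.col (nat_lit 0)) (.node (.col (nat_lit 2)) (.slot (nat_lit 1)) (.slot (nat_lit 1)))
def w15631 : Root := .mk (.node (.node (.col (nat_lit 0)) (.col (nat_lit 1)) .junk) (.col (nat_lit 2)) (.slot (nat_lit 1))) (.node (.col (nat_lit 2)) (.col (nat_lit 0)) (.slot (nat_lit 3))) (.node (.col (nat_lit 2)) (.slot (nat_lit 3)) (.slot (nat_lit 1))) (.col (nat_lit 2))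
def w15632 : Root := .mk (.node (.node (.node (.col (nat_lit 0)) (.col (nat_lit 1)) .junk) (.col (nat_lit 2)) (.slot (nat_lit 1))) (.node (.col (nat_lit 2)) (.col (nat_lit 0)) (.slot (nat_lit 0))) (.slot (nat_lit 1))) (.col (nat_lit 2)) (.col (nat_lit 1)) (.slot (nat_lit 1))
def l3435 : Root := .mk (.col (nat_lit 0)) (.col (nat_lit 1)) (.node (.node (.node (.col (nat_lit 2)) (.col (nat_lit 0)) (.slot (nat_lit 5))) (.node (.col (nat_lit 2)) (.slot (nat_lit 7)) (.slot (nat_lit 5))) (.slot (nat_lit 8))) (.col (nat_lit 2)) (.slot (nat_lit 2))) (.col (nat_lit 2))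
def w15633 : Root := .mk (.col (nat_lit 0)) (.col (nat_lit 1)) (.node (.node (.node (.node (.col (nat_lit 0)) (.slot (nat_lit 0)) (.slot (nat_lit 0))) (.col (nat_lit 0)) (.slot (nat_lit 5))) (.node (.col (nat_lit 2)) (.slot (nat_lit 7)) (.slot (nat_lit 5))) (.slot (nat_lit 8))) (.col (nat_lit 2)) (.slot (nat_lit 2))) (.col (nat_lit 2))
def l3436 : Root := .mk (.node (.node (.col (nat_lit 0)) (.col (nat_lit 1)) (.node (.col (nat_lit 0)) (.slot (nat_lit 3)) (.slot (nat_lit 1)))) (.col (nat_lit 2)) (.slot (nat_lit 3))) (.node (.node (.col (nat_lit 0)) (.slot (nat_lit 0)) (.slot (nat_lit 0))) (.col (nat_lit 0)) (.slot (nat_lit 1))) (.col (nat_lit 1)) (.col (nat_lit 2))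
def w15634 : Root := .mk (.col (nat_lit 0)) (.col (nat_lit 1)) (.node (.node (.node (.node (.col (nat_lit 0)) (.slot (nat_lit 0)) (.slot (nat_lit 0))) (.col (nat_lit 0)) (.slot (nat_lit 1))) (.node (.col (nat_lit 2)) (.slot (nat_lit 0)) (.slot (nat_lit 0))) (.col (nat_lit 2))) (.col (nat_lit 2)) (.slot (nat_lit 3))) (.node (.col (nat_lit 0)) (.slot (nat_lit 3)) (.slot (nat_lit 1)))
def w15635 : Root := .mk (.node (.node (.col (nat_lit 0)) (.col (nat_lit 1)) .junk) (.col (nat_lit 2)) (.slot (nat_lit 1))) (.node (.node (.col (nat_lit 0)) (.slot (nat_lit 0)) (.slot (nat_lit 0))) (.col (nat_lit 0)) (.slot (nat_lit 2))) (.node (.col (nat_lit 2)) (.slot (nat_lit 0)) (.slot (nat_lit 0))) (.node (.col (nat_lit 0)) (.slot (nat_lit 1)) (.slot (nat_lit 1)))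
def w15636 : Root := .mk (.col (nat_lit 0)) (.col (nat_lit 1)) (.node (.node (.node (.slot (nat_lit 0)) (.col (nat_lit 0)) (.slot (nat_lit 0))) (.node (.col (nat_lit 2)) (.slot (nat_lit 2)) (.slot (nat_lit 2))) (.node (.col (nat_lit 1)) (.slot (nat_lit 0)) (.slot (nat_lit 0)))) (.col (nat_lit 2)) (.slot (nat_lit 3))) (.node (.col (nat_lit 0)) (.slot (nat_lit 3)) (.slot (nat_lit 2)))
def w15637 : Root := .mk (.col (nat_lit 0)) (.col (nat_lit 1)) (.node (.node (.node (.slot (nat_lit 0)) (.col (nat_lit 0)) (.slot (nat_lit 1))) (.node (.col (nat_lit 2)) (.slot (nat_lit 0)) (.slot (nat_lit 0))) (.node (.col (nat_lit 3)) (.slot (nat_lit 1)) (.slot (nat_lit 1)))) (.col (nat_lit 2)) (.slot (nat_lit 4))) (.node (.col (nat_lit 0)) (.slot (nat_lit 3)) (.slot (nat_lit 1)))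
def w15638 : Root := .mk (.col (nat_lit 0)) (.col (nat_lit 1)) (.node (.node (.node (.slot (nat_lit 0)) (.col (nat_lit 0)) (.slot (nat_lit 0))) (.node (.col (nat_lit 2)) (.slot (nat_lit 1)) (.slot (nat_lit 1))) (.slot (nat_lit 3))) (.col (nat_lit 2)) (.slot (nat_lit 1))) (.node (.col (nat_lit 0)) (.col (nat_lit 1)) (.slot (nat_lit 0)))
def w15639 : Root := .mk (.col (nat_lit 0)) (.col (nat_lit 1)) (.node (.node (.node (.col (nat_lit 1)) (.col (nat_lit 0)) (.slot (nat_lit 0))) (.node (.col (nat_lit 2)) (.slot (nat_lit 7)) (.slot (nat_lit 5))) (.slot (nat_lit 8))) (.col (nat_lit 2)) (.slot (nat_lit 3))) (.node (.col (nat_lit 0)) (.slot (nat_lit 2)) (.slot (nat_lit 0)))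
def w15640 : Root := .mk (.node (.node (.node (.col (nat_lit 0)) (.col (nat_lit 1)) (.node (.col (nat_lit 0)) (.slot (nat_lit 0)) (.slot (nat_lit 0)))) (.col (nat_lit 2)) (.slot (nat_lit 1))) (.node (.col (nat_lit 2)) (.slot (nat_lit 2)) (.slot (nat_lit 2))) (.slot (nat_lit 3))) (.slot (nat_lit 0)) (.col (nat_lit 0)) (.col (nat_lit 3))
def w15641 : Root := .mk (.col (nat_lit 0)) (.col (nat_lit 1)) (.node (.node (.node (.node (.col (nat_lit 0)) (.slot (nat_lit 0)) (.slot (nat_lit 0))) (.col (nat_lit 0)) (.slot (nat_lit 2))) (.node (.col (nat_lit 2)) (.slot (nat_lit 0)) (.slot (nat_lit 0))) (.slot (nat_lit 2))) (.col (nat_lit 2)) (.slot (nat_lit 3))) (.node (.col (nat_lit 0)) (.slot (nat_lit 3)) (.slot (nat_lit 1)))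
def l3437 : Root := .mk (.col (nat_lit 0)) (.col (nat_lit 1)) (.node (.node (.node (.node (.col (nat_lit 0)) (.slot (nat_lit 3)) (.slot (nat_lit 1))) (.col (nat_lit 0)) (.slot (nat_lit 5))) (.node (.col (nat_lit 2)) (.slot (nat_lit 9)) (.slot (nat_lit 5))) (.slot (nat_lit 8))) (.col (nat_lit 2)) (.slot (nat_lit 5))) (.node (.col (nat_lit 0)) (.slot (nat_lit 5)) (.slot (nat_lit 2)))
def w15642 : Root := .mk (.col (nat_lit 0)) (.col (nat_lit 1)) (.node (.node (.node (.node (.col (nat_lit 0)) (.slot (nat_lit 3)) (.slot (nat_lit 1))) (.col (nat_lit 0)) (.slot (nat_lit 5))) (.node (.col (nat_lit 2)) (.slot (nat_lit 9)) (.slot (nat_lit 5))) (.slot (nat_lit 8))) (.slot (nat_lit 1)) (.slot (nat_lit 5))) (.node (.col (nat_lit 0)) (.slot (nat_lit 5)) (.slot (nat_lit 2)))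
def l3438 : Root := .mk (.node (.node (.node (.col (nat_lit 0)) (.col (nat_lit 1)) (.node (.col (nat_lit 1)) (.slot (nat_lit 0)) (.slot (nat_lit 0)))) (.col (nat_lit 2)) (.col (nat_lit 0))) (.node (.slot (nat_lit 0)) (.col (nat_lit 0)) (.slot (nat_lit 1))) (.slot (nat_lit 1))) (.col (nat_lit 2)) (.col (nat_lit 3)) (.col (nat_lit 0))
def w15643 : Root := .mk (.node (.col (nat_lit 0)) (.col (nat_lit 1)) (.node (.col (nat_lit 1)) (.slot (nat_lit 0)) (.slot (nat_lit 0)))) (.node (.node (.slot (nat_lit 0)) (.col (nat_lit 0)) (.slot (nat_lit 1))) (.node (.col (nat_lit 2)) (.col (nat_lit 3)) (.slot (nat_lit 1))) (.slot (nat_lit 1))) (.col (nat_lit 2)) (.col (nat_lit 0))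
def w15644 : Root := .mk (.node (.node (.node .junk (.col (nat_lit 1)) (.node (.col (nat_lit 1)) (.slot (nat_lit 0)) (.slot (nat_lit 0)))) (.col (nat_lit 2)) (.col (nat_lit 0))) (.node (.node (.col (nat_lit 0)) (.slot (nat_lit 0)) (.slot (nat_lit 0))) (.col (nat_lit 0)) (.slot (nat_lit 2))) (.slot (nat_lit 2))) (.col (nat_lit 2)) (.node (.col (nat_lit 1)) (.slot (nat_lit 0)) (.slot (nat_lit 0))) (.col (nat_lit 1))
def l3439 : Root := .mk (.node (.col (nat_lit 0)) (.col (nat_lit 1)) (.node (.col (nat_lit 1)) (.slot (nat_lit 1)) (.slot (nat_lit 1)))) (.node (.col (nat_lit 1)) (.node (.col (nat_lit 2)) (.node (.col (nat_lit 1)) (.slot (nat_lit 5)) (.slot (nat_lit 5))) (.node (.col (nat_lit 2)) (.slot (nat_lit 0)) (.slot (nat_lit 0)))) (.slot (nat_lit 2))) (.col (nat_lit 2)) (.col (nat_lit 0))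
def w15645 : Root := .mk (.node (.col (nat_lit 0)) (.col (nat_lit 1)) (.node (.col (nat_lit 1)) (.slot (nat_lit 1)) (.slot (nat_lit 1)))) (.node (.node (.slot (nat_lit 0)) (.col (nat_lit 0)) (.slot (nat_lit 0))) (.node (.col (nat_lit 2)) (.node (.col (nat_lit 1)) (.slot (nat_lit 5)) (.slot (nat_lit 5))) (.node (.col (nat_lit 2)) (.slot (nat_lit 0)) (.slot (nat_lit 0)))) (.slot (nat_lit 2))) (.col (nat_lit 2)) (.col (nat_lit 0))
def w15646 : Root := .mk (.node (.col (nat_lit 0)) (.col (nat_lit 1)) (.node (.col (nat_lit 1)) (.slot (nat_lit 1)) (.slot (nat_lit 1)))) (.node (.node (.node (.col (nat_lit 0)) (.slot (nat_lit 0)) (.slot (nat_lit 0))) (.col (nat_lit 0)) (.slot (nat_lit 1))) (.node (.col (nat_lit 2)) (.slot (nat_lit 0)) (.slot (nat_lit 0))) (.col (nat_lit 2))) (.col (nat_lit 2)) (.col (nat_lit 0))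
def l3440 : Root := .mk (.node (.col (nat_lit 0)) (.col (nat_lit 1)) (.node (.col (nat_lit 1)) (.slot (nat_lit 0)) (.slot (nat_lit 0)))) (.node (.node (.slot (nat_lit 0)) (.col (nat_lit 0)) (.slot (nat_lit 6))) (.col (nat_lit 1)) (.node (.col (nat_lit 0)) (.slot (nat_lit 1)) (.slot (nat_lit 0)))) (.col (nat_lit 2)) (.col (nat_lit 0))
def w15647 : Root := .mk (.node (.col (nat_lit 0)) (.col (nat_lit 1)) (.node (.col (nat_lit 1)) (.slot (nat_lit 0)) (.slot (nat_lit 0)))) (.node (.node (.slot (nat_lit 0)) (.col (nat_lit 0)) (.slot (nat_lit 6))) (.node (.col (nat_lit 2)) (.slot (nat_lit 0)) (.slot (nat_lit 0))) (.node (.col (nat_lit 0)) (.slot (nat_lit 1)) (.slot (nat_lit 0)))) (.col (nat_lit 2)) (.col (nat_lit 0))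
def w15648 : Root := .mk (.node (.col (nat_lit 0)) (.col (nat_lit 1)) (.node (.col (nat_lit 1)) (.slot (nat_lit 0)) (.slot (nat_lit 0)))) (.node (.node (.slot (nat_lit 0)) (.col (nat_lit 0)) (.slot (nat_lit 0))) (.col (nat_lit 3)) (.node (.col (nat_lit 1)) (.slot (nat_lit 0)) (.slot (nat_lit 0)))) (.col (nat_lit 2)) (.col (nat_lit 0))
def w15649 : Root := .mk (.node (.col (nat_lit 0)) (.col (nat_lit 1)) (.node (.col (nat_lit 1)) (.slot (nat_lit 0)) (.slot (nat_lit 0)))) (.node (.node (.slot (nat_lit 0)) (.col (nat_lit 0)) (.slot (nat_lit 0))) (.node (.col (nat_lit 2)) (.node (.col (nat_lit 1)) (.slot (nat_lit 1)) (.slot (nat_lit 1))) (.slot (nat_lit 2))) (.node (.col (nat_lit 1)) (.slot (nat_lit 0)) (.slot (nat_lit 0)))) (.col (nat_lit 2)) (.col (nat_lit 0))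
def w15650 : Root := .mk (.node (.col (nat_lit 0)) (.col (nat_lit 1)) (.node (.col (nat_lit 1)) (.slot (nat_lit 0)) (.slot (nat_lit 0)))) (.node (.node (.slot (nat_lit 0)) (.col (nat_lit 0)) (.slot (nat_lit 0))) (.node (.col (nat_lit 2)) (.slot (nat_lit 0)) (.slot (nat_lit 1))) (.node (.col (nat_lit 2)) (.slot (nat_lit 1)) (.slot (nat_lit 0)))) (.col (nat_lit 2)) (.col (nat_lit 0))
def l3441 : Root := .mk (.node (.col (nat_lit 0)) (.col (nat_lit 1)) (.node (.col (nat_lit 1)) (.slot (nat_lit 1)) (.slot (nat_lit 1)))) (.node (.col (nat_lit 1)) (.node (.col (nat_lit 2)) (.node (.col (nat_lit 1)) (.col (nat_lit 2)) (.slot (nat_lit 3))) (.slot (nat_lit 1))) (.slot (nat_lit 2))) (.col (nat_lit 2)) (.col (nat_lit 0))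
def w15651 : Root := .mk (.node (.col (nat_lit 0)) (.col (nat_lit 1)) (.node (.col (nat_lit 1)) (.slot (nat_lit 1)) (.slot (nat_lit 1)))) (.node (.node (.slot (nat_lit 0)) (.col (nat_lit 0)) (.slot (nat_lit 0))) (.node (.col (nat_lit 2)) (.node (.col (nat_lit 1)) (.col (nat_lit 2)) (.slot (nat_lit 3))) (.slot (nat_lit 1))) (.slot (nat_lit 2))) (.col (nat_lit 2)) (.col (nat_lit 0))
def l3442 : Root := .mk (.node (.col (nat_lit 0)) (.col (nat_lit 1)) (.node (.col (nat_lit 1)) (.slot (nat_lit 1)) (.slot (nat_lit 1)))) (.node (.node (.node (.col (nat_lit 0)) (.slot (nat_lit 0)) (.slot (nat_lit 0))) (.col (nat_lit 0)) (.slot (nat_lit 6))) (.node (.col (nat_lit 2)) (.node (.col (nat_lit 1)) (.slot (nat_lit 8)) (.slot (nat_lit 8))) (.slot (nat_lit 8))) (.slot (nat_lit 3))) (.col (nat_lit 2)) (.col (nat_lit 0))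
def w15652 : Root := .mk (.node (.col (nat_lit 0)) (.col (nat_lit 1)) (.node (.col (nat_lit 1)) (.slot (nat_lit 1)) (.slot (nat_lit 1)))) (.node (.node (.node (.col (nat_lit 0)) (.slot (nat_lit 0)) (.slot (nat_lit 0))) (.col (nat_lit 0)) (.slot (nat_lit 6))) (.node (.col (nat_lit 2)) (.slot (nat_lit 9)) (.slot (nat_lit 8))) (.slot (nat_lit 3))) (.col (nat_lit 2)) (.col (nat_lit 0))
def w15653 : Root := .mk (.node (.node (.node (.col (nat_lit 0)) (.col (nat_lit 1)) (.node (.col (nat_lit 1)) (.slot (nat_lit 0)) (.slot (nat_lit 0)))) (.col (nat_lit 2)) (.col (nat_lit 1))) (.node (.col (nat_lit 2)) (.slot (nat_lit 1)) (.slot (nat_lit 1))) (.slot (nat_lit 1))) (.col (nat_lit 2)) (.col (nat_lit 0)) (.node (.col (nat_lit 0)) (.slot (nat_lit 0)) (.slot (nat_lit 0)))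
def w15654 : Root := .mk (.node (.node (.node (.col (nat_lit 0)) .junk (.node (.col (nat_lit 1)) (.slot (nat_lit 0)) (.slot (nat_lit 0)))) (.col (nat_lit 2)) (.col (nat_lit 1))) (.node (.col (nat_lit 2)) (.slot (nat_lit 2)) (.slot (nat_lit 1))) (.slot (nat_lit 1))) (.col (nat_lit 2)) (.col (nat_lit 0)) (.node (.col (nat_lit 2)) (.slot (nat_lit 1)) (.slot (nat_lit 1)))
def w15655 : Root := .mk (.node (.node (.node (.col (nat_lit 0)) (.col (nat_lit 1)) (.node (.col (nat_lit 1)) (.slot (nat_lit 0)) (.slot (nat_lit 0)))) (.col (nat_lit 2)) (.col (nat_lit 1))) (.node (.col (nat_lit 2)) (.slot (nat_lit 1)) (.slot (nat_lit 0))) (.slot (nat_lit 1))) (.col (nat_lit 2)) (.col (nat_lit 0)) (.node (.slot (nat_lit 0)) (.slot (nat_lit 0)) (.slot (nat_lit 0)))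
def w15656 : Root := .mk (.node (.col (nat_lit 0)) .junk (.node (.col (nat_lit 1)) (.slot (nat_lit 0)) (.slot (nat_lit 0)))) (.node (.node (.col (nat_lit 2)) (.col (nat_lit 0)) (.slot (nat_lit 3))) (.node (.col (nat_lit 2)) (.slot (nat_lit 3)) (.slot (nat_lit 1))) (.col (nat_lit 2))) (.col (nat_lit 2)) (.col (nat_lit 1))
def w15657 : Root := .mk (.node (.col (nat_lit 0)) .junk (.node (.col (nat_lit 1)) (.slot (nat_lit 0)) (.slot (nat_lit 0)))) (.node (.node (.col (nat_lit 2)) (.col (nat_lit 0)) (.slot (nat_lit 1))) (.node (.col (nat_lit 2)) (.slot (nat_lit 0)) (.slot (nat_lit 0))) (.node (.col (nat_lit 0)) (.slot (nat_lit 1)) (.slot (nat_lit 0)))) (.col (nat_lit 2)) (.col (nat_lit 1))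
def w15658 : Root := .mk (.node (.col (nat_lit 0)) (.col (nat_lit 1)) (.node (.col (nat_lit 1)) (.slot (nat_lit 0)) (.slot (nat_lit 0)))) (.node (.node (.col (nat_lit 2)) (.col (nat_lit 0)) (.slot (nat_lit 2))) (.node (.col (nat_lit 2)) (.slot (nat_lit 0)) (.slot (nat_lit 0))) (.node (.col (nat_lit 2)) (.slot (nat_lit 1)) (.slot (nat_lit 0)))) (.col (nat_lit 2)) (.col (nat_lit 1))
def w15659 : Root := .mk (.node (.col (nat_lit 0)) .junk (.node (.col (nat_lit 1)) (.slot (nat_lit 0)) (.slot (nat_lit 0)))) (.node (.node (.col (nat_lit 2)) (.col (nat_lit 0)) (.slot (nat_lit 1))) (.node (.col (nat_lit 2)) (.col (nat_lit 3)) (.slot (nat_lit 1))) (.slot (nat_lit 1))) (.col (nat_lit 2)) (.col (nat_lit 1))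
def l3443 : Root := .mk (.node (.col (nat_lit 0)) (.col (nat_lit 1)) (.node (.col (nat_lit 1)) (.slot (nat_lit 0)) (.slot (nat_lit 0)))) (.node (.node (.col (nat_lit 2)) (.col (nat_lit 0)) (.slot (nat_lit 3))) (.node (.col (nat_lit 2)) (.slot (nat_lit 7)) (.slot (nat_lit 5))) (.slot (nat_lit 8))) (.col (nat_lit 2)) (.col (nat_lit 1))
def w15660 : Root := .mk (.node (.col (nat_lit 0)) (.col (nat_lit 1)) (.node (.col (nat_lit 1)) (.slot (nat_lit 0)) (.slot (nat_lit 0)))) (.node (.node (.node (.col (nat_lit 0)) (.slot (nat_lit 0)) (.slot (nat_lit 0))) (.col (nat_lit 0)) (.slot (nat_lit 3))) (.node (.col (nat_lit 2)) (.slot (nat_lit 7)) (.slot (nat_lit 5))) (.slot (nat_lit 8))) (.col (nat_lit 2)) (.col (nat_lit 1))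
def w15661 : Root := .mk (.col (nat_lit 0)) (.col (nat_lit 1)) (.node (.node (.node (.slot (nat_lit 0)) (.col (nat_lit 0)) (.slot (nat_lit 0))) (.node (.col (nat_lit 2)) (.slot (nat_lit 3)) (.slot (nat_lit 1))) (.slot (nat_lit 2))) (.col (nat_lit 2)) (.node (.col (nat_lit 2)) (.slot (nat_lit 1)) (.slot (nat_lit 0)))) (.node (.col (nat_lit 1)) (.slot (nat_lit 0)) (.slot (nat_lit 0)))
def w15662 : Root := .mk (.node (.node (.col (nat_lit 0)) (.col (nat_lit 1)) (.node (.col (nat_lit 1)) (.slot (nat_lit 0)) (.slot (nat_lit 0)))) (.col (nat_lit 2)) (.node (.col (nat_lit 3)) (.slot (nat_lit 0)) (.slot (nat_lit 0)))) (.col (nat_lit 1)) (.node (.col (nat_lit 2)) (.slot (nat_lit 0)) (.slot (nat_lit 0))) (.col (nat_lit 2))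
def l3444 : Root := .mk (.col (nat_lit 0)) (.col (nat_lit 1)) (.node (.node (.col (nat_lit 1)) (.node (.col (nat_lit 2)) (.slot (nat_lit 5)) (.slot (nat_lit 5))) (.slot (nat_lit 6))) (.col (nat_lit 2)) (.node (.col (nat_lit 3)) (.slot (nat_lit 1)) (.slot (nat_lit 1)))) (.node (.col (nat_lit 1)) (.slot (nat_lit 0)) (.slot (nat_lit 0)))
def w15663 : Root := .mk (.col (nat_lit 0)) (.col (nat_lit 1)) (.node (.node (.node (.slot (nat_lit 0)) (.col (nat_lit 0)) (.slot (nat_lit 0))) (.node (.col (nat_lit 2)) (.slot (nat_lit 5)) (.slot (nat_lit 5))) (.slot (nat_lit 6))) (.col (nat_lit 2)) (.node (.col (nat_lit 3)) (.slot (nat_lit 1)) (.slot (nat_lit 1)))) (.node (.col (nat_lit 1)) (.slot (nat_lit 0)) (.slot (nat_lit 0)))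
def l3445 : Root := .mk (.node (.node (.col (nat_lit 0)) (.col (nat_lit 1)) (.node (.col (nat_lit 1)) (.slot (nat_lit 3)) (.slot (nat_lit 1)))) (.col (nat_lit 2)) (.slot (nat_lit 3))) (.node (.node (.col (nat_lit 0)) (.slot (nat_lit 0)) (.slot (nat_lit 0))) (.col (nat_lit 0)) (.slot (nat_lit 1))) (.col (nat_lit 1)) (.col (nat_lit 2))
def w15664 : Root := .mk (.col (nat_lit 0)) (.col (nat_lit 1)) (.node (.node (.node (.node (.col (nat_lit 0)) (.slot (nat_lit 0)) (.slot (nat_lit 0))) (.col (nat_lit 0)) (.slot (nat_lit 1))) (.node (.col (nat_lit 2)) (.slot (nat_lit 0)) (.slot (nat_lit 0))) (.col (nat_lit 2))) (.col (nat_lit 2)) (.slot (nat_lit 3))) (.node (.col (nat_lit 1)) (.slot (nat_lit 3)) (.slot (nat_lit 1)))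
def w15665 : Root := .mk (.col (nat_lit 0)) (.col (nat_lit 1)) (.node (.node (.node (.slot (nat_lit 0)) (.col (nat_lit 0)) (.slot (nat_lit 0))) (.node (.col (nat_lit 2)) (.slot (nat_lit 2)) (.slot (nat_lit 2))) (.node (.col (nat_lit 3)) (.slot (nat_lit 0)) (.slot (nat_lit 0)))) (.col (nat_lit 2)) (.slot (nat_lit 3))) (.node (.col (nat_lit 1)) (.slot (nat_lit 3)) (.slot (nat_lit 2)))
def w15666 : Root := .mk (.node (.node (.node (.col (nat_lit 0)) (.col (nat_lit 1)) (.node (.col (nat_lit 1)) (.slot (nat_lit 0)) (.slot (nat_lit 0)))) (.col (nat_lit 2)) (.slot (nat_lit 1))) (.node (.col (nat_lit 2)) (.slot (nat_lit 2)) (.slot (nat_lit 2))) (.slot (nat_lit 3))) (.slot (nat_lit 0)) (.col (nat_lit 0)) (.col (nat_lit 3))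
def w15667 : Root := .mk (.col (nat_lit 0)) (.col (nat_lit 1)) (.node (.node (.node (.slot (nat_lit 0)) (.col (nat_lit 0)) (.slot (nat_lit 0))) (.node (.col (nat_lit 2)) (.col (nat_lit 3)) (.slot (nat_lit 3))) (.slot (nat_lit 2))) (.col (nat_lit 2)) (.slot (nat_lit 3))) (.slot (nat_lit 0))
def w15668 : Root := .mk (.col (nat_lit 0)) (.col (nat_lit 1)) (.node (.node (.node (.slot (nat_lit 0)) (.col (nat_lit 0)) (.slot (nat_lit 0))) (.node (.col (nat_lit 2)) (.node (.col (nat_lit 1)) (.slot (nat_lit 3)) (.slot (nat_lit 1))) (.slot (nat_lit 2))) (.slot (nat_lit 1))) (.col (nat_lit 2)) (.slot (nat_lit 2))) (.node (.col (nat_lit 1)) (.slot (nat_lit 0)) (.slot (nat_lit 0)))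
def w15669 : Root := .mk (.col (nat_lit 0)) (.col (nat_lit 1)) (.node (.node (.node (.slot (nat_lit 0)) (.col (nat_lit 0)) (.slot (nat_lit 0))) (.node (.col (nat_lit 2)) (.node (.col (nat_lit 2)) (.slot (nat_lit 0)) (.slot (nat_lit 0))) (.slot (nat_lit 2))) (.slot (nat_lit 1))) (.col (nat_lit 2)) (.slot (nat_lit 3))) (.node (.col (nat_lit 1)) (.slot (nat_lit 3)) (.slot (nat_lit 2)))
def w15670 : Root := .mk (.col (nat_lit 0)) (.col (nat_lit 1)) (.node (.node (.node (.slot (nat_lit 0)) (.col (nat_lit 0)) (.slot (nat_lit 0))) (.node (.col (nat_lit 2)) (.node (.col (nat_lit 3)) (.slot (nat_lit 3)) (.slot (nat_lit 3))) (.slot (nat_lit 8))) (.slot (nat_lit 1))) (.col (nat_lit 2)) (.slot (nat_lit 3))) (.slot (nat_lit 0))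
def l3446 : Root := .mk (.col (nat_lit 0)) (.col (nat_lit 1)) (.node (.node (.node (.node (.col (nat_lit 0)) (.slot (nat_lit 3)) (.slot (nat_lit 1))) (.col (nat_lit 0)) (.slot (nat_lit 6))) (.node (.col (nat_lit 2)) (.slot (nat_lit 9)) (.slot (nat_lit 8))) (.slot (nat_lit 8))) (.col (nat_lit 2)) (.slot (nat_lit 5))) (.node (.col (nat_lit 1)) (.slot (nat_lit 5)) (.slot (nat_lit 2)))
def w15671 : Root := .mk (.col (nat_lit 0)) (.col (nat_lit 1)) (.node (.node (.node (.node (.col (nat_lit 0)) (.slot (nat_lit 3)) (.slot (nat_lit 1))) (.col (nat_lit 0)) (.slot (nat_lit 6))) (.node (.col (nat_lit 2)) (.slot (nat_lit 9)) (.slot (nat_lit 8))) (.slot (nat_lit 8))) (.slot (nat_lit 1)) (.slot (nat_lit 5))) (.node (.col (nat_lit 1)) (.slot (nat_lit 5)) (.slot (nat_lit 2)))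
def w15672 : Root := .mk (.node (.node (.node (.col (nat_lit 0)) (.col (nat_lit 1)) (.node (.node (.col (nat_lit 2)) (.slot (nat_lit 0)) (.slot (nat_lit 0))) (.slot (nat_lit 1)) (.slot (nat_lit 1)))) (.slot (nat_lit 1)) (.slot (nat_lit 1))) (.node (.col (nat_lit 2)) (.slot (nat_lit 1)) (.slot (nat_lit 0))) (.slot (nat_lit 1))) (.col (nat_lit 2)) (.col (nat_lit 0)) (.node (.col (nat_lit 0)) (.slot (nat_lit 0)) (.slot (nat_lit 0)))

end Pool.Agent.W319.GCI.K5
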