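import Pool.Agent.W319.GCI.K5Base
set_option autoImplicit false
set_option maxRecDepth 100000
set_option linter.all false
namespace Pool.Agent.W319.GCI.K5
open Pool.Agent.W319.GCI

def w15673 : Root := .mk (.node (.node (.node (.col (nat_lit 0)) (.col (nat_lit 1)) (.node (.node (.col (nat_lit 2)) (.slot (nat_lit 0)) (.slot (nat_lit 0))) (.slot (nat_lit 1)) (.slot (nat_lit 1)))) (.slot (nat_lit 1)) (.slot (nat_lit 1))) (.node (.col (nat_lit 2)) (.slot (nat_lit 2)) (.slot (nat_lit 1))) (.slot (nat_lit 1))) (.col (nat_lit 2)) (.col (nat_lit 0)) (.node (.col (nat_lit 2)) (.slot (nat_lit 1)) (.slot (nat_lit 1)))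
def w15674 : Root := .mk (.node (.node (.node (.col (nat_lit 0)) (.col (nat_lit 1)) (.node (.node (.col (nat_lit 2)) (.slot (nat_lit 0)) (.slot (nat_lit 0))) (.slot (nat_lit 1)) (.slot (nat_lit 1)))) (.slot (nat_lit 1)) (.slot (nat_lit 1))) (.node (.col (nat_lit 2)) (.slot (nat_lit 1)) (.slot (nat_lit 0))) (.slot (nat_lit 1))) (.col (nat_lit 2)) (.col (nat_lit 0)) (.node (.slot (nat_lit 0)) (.slot (nat_lit 0)) (.slot (nat_lit 0)))
def w15675 : Root := .mk (.col (nat_lit 0)) (.col (nat_lit 1)) (.node (.node (.node (.col (nat_lit 2)) (.col (nat_lit 0)) (.slot (nat_lit 0))) (.col (nat_lit 0)) (.slot (nat_lit 4))) (.slot (nat_lit 8)) (.slot (nat_lit 8))) (.node (.node (.col (nat_lit 2)) (.slot (nat_lit 0)) (.slot (nat_lit 0))) (.slot (nat_lit 2)) (.slot (nat_lit 1)))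
def w15676 : Root := .mk (.col (nat_lit 0)) (.col (nat_lit 1)) (.node (.node (.node (.col (nat_lit 2)) (.col (nat_lit 0)) (.slot (nat_lit 3))) (.node (.col (nat_lit 2)) (.slot (nat_lit 3)) (.slot (nat_lit 1))) (.col (nat_lit 2))) (.slot (nat_lit 1)) (.slot (nat_lit 1))) (.node (.node (.col (nat_lit 2)) (.slot (nat_lit 0)) (.slot (nat_lit 0))) (.slot (nat_lit 1)) (.slot (nat_lit 1)))
def w15677 : Root := .mk (.col (nat_lit 0)) (.col (nat_lit 1)) (.node (.node (.node (.col (nat_lit 2)) (.col (nat_lit 0)) (.slot (nat_lit 1))) (.node (.col (nat_lit 2)) (.slot (nat_lit 0)) (.slot (nat_lit 0))) (.node (.col (nat_lit 0)) (.slot (nat_lit 1)) (.slot (nat_lit 0)))) (.slot (nat_lit 1)) (.slot (nat_lit 1))) (.node (.node (.col (nat_lit 2)) (.slot (nat_lit 0)) (.slot (nat_lit 0))) (.slot (nat_lit 1)) (.slot (nat_lit 1)))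
def w15678 : Root := .mk (.col (nat_lit 0)) (.col (nat_lit 1)) (.node (.node (.node (.col (nat_lit 2)) (.col (nat_lit 0)) (.slot (nat_lit 0))) (.node (.col (nat_lit 2)) (.col (nat_lit 1)) (.slot (nat_lit 1))) (.slot (nat_lit 1))) (.slot (nat_lit 1)) (.slot (nat_lit 1))) (.node (.node (.col (nat_lit 2)) (.slot (nat_lit 0)) (.slot (nat_lit 0))) (.slot (nat_lit 1)) (.slot (nat_lit 1)))
def l3447 : Root := .mk (.col (nat_lit 0)) (.col (nat_lit 1)) (.node (.node (.node (.col (nat_lit 2)) (.col (nat_lit 0)) (.slot (nat_lit 8))) (.node (.col (nat_lit 2)) (.slot (nat_lit 7)) (.slot (nat_lit 5))) (.slot (nat_lit 8))) (.slot (nat_lit 8)) (.slot (nat_lit 8))) (.node (.node (.col (nat_lit 2)) (.slot (nat_lit 0)) (.slot (nat_lit 0))) (.slot (nat_lit 2)) (.slot (nat_lit 1)))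
def w15679 : Root := .mk (.col (nat_lit 0)) (.col (nat_lit 1)) (.node (.node (.node (.node (.col (nat_lit 0)) (.slot (nat_lit 0)) (.slot (nat_lit 0))) (.col (nat_lit 0)) (.slot (nat_lit 8))) (.node (.col (nat_lit 2)) (.slot (nat_lit 7)) (.slot (nat_lit 5))) (.slot (nat_lit 8))) (.slot (nat_lit 8)) (.slot (nat_lit 8))) (.node (.node (.col (nat_lit 2)) (.slot (nat_lit 0)) (.slot (nat_lit 0))) (.slot (nat_lit 2)) (.slot (nat_lit 1)))
def w15680 : Root := .mk (.col (nat_lit 0)) (.col (nat_lit 1)) (.node (.node (.col (nat_lit 3)) (.node (.col (nat_lit 2)) (.slot (nat_lit 7)) (.slot (nat_lit 5))) (.slot (nat_lit 1))) (.slot (nat_lit 7)) (.slot (nat_lit 5))) (.node (.node (.col (nat_lit 3)) (.slot (nat_lit 2)) (.slot (nat_lit 2))) (.slot (nat_lit 8)) (.slot (nat_lit 1)))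
def w15681 : Root := .mk (.node (.node (.node (.col (nat_lit 0)) (.col (nat_lit 1)) (.node (.node (.col (nat_lit 3)) (.slot (nat_lit 0)) (.slot (nat_lit 0))) (.slot (nat_lit 2)) (.slot (nat_lit 1)))) (.slot (nat_lit 1)) (.slot (nat_lit 1))) (.node (.col (nat_lit 2)) (.slot (nat_lit 1)) (.slot (nat_lit 0))) (.slot (nat_lit 1))) (.col (nat_lit 2)) (.col (nat_lit 0)) (.node (.col (nat_lit 0)) (.slot (nat_lit 0)) (.slot (nat_lit 0)))
def w15682 : Root := .mk (.node (.node (.node (.col (nat_lit 0)) (.col (nat_lit 1)) (.node (.node (.col (nat_lit 3)) (.slot (nat_lit 0)) (.slot (nat_lit 0))) (.slot (nat_lit 2)) (.slot (nat_lit 1)))) (.slot (nat_lit 1)) (.slot (nat_lit 1))) (.node (.col (nat_lit 2)) (.slot (nat_lit 2)) (.slot (nat_lit 1))) (.slot (nat_lit 1))) (.col (nat_lit 2)) (.col (nat_lit 0)) (.node (.col (nat_lit 2)) (.slot (nat_lit 1)) (.slot (nat_lit 1)))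
def w15683 : Root := .mk (.node (.node (.node (.col (nat_lit 0)) (.col (nat_lit 1)) (.node (.node (.col (nat_lit 3)) (.slot (nat_lit 0)) (.slot (nat_lit 0))) (.slot (nat_lit 2)) (.slot (nat_lit 1)))) (.slot (nat_lit 1)) (.slot (nat_lit 1))) (.node (.col (nat_lit 2)) (.slot (nat_lit 1)) (.slot (nat_lit 0))) (.slot (nat_lit 1))) (.col (nat_lit 2)) (.col (nat_lit 0)) (.node (.slot (nat_lit 0)) (.slot (nat_lit 0)) (.slot (nat_lit 0)))
def w15684 : Root := .mk (.col (nat_lit 0)) (.col (nat_lit 1)) (.node (.node (.node (.col (nat_lit 2)) (.col (nat_lit 0)) (.slot (nat_lit 0))) (.col (nat_lit 0)) (.slot (nat_lit 4))) (.slot (nat_lit 8)) (.slot (nat_lit 8))) (.node (.node (.col (nat_lit 3)) (.slot (nat_lit 0)) (.slot (nat_lit 0))) (.slot (nat_lit 2)) (.slot (nat_lit 1)))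
def w15685 : Root := .mk (.col (nat_lit 0)) (.col (nat_lit 1)) (.node (.node (.node (.col (nat_lit 2)) (.col (nat_lit 0)) (.slot (nat_lit 3))) (.node (.col (nat_lit 2)) (.slot (nat_lit 3)) (.slot (nat_lit 1))) (.col (nat_lit 2))) (.slot (nat_lit 1)) (.slot (nat_lit 1))) (.node (.node (.col (nat_lit 3)) (.slot (nat_lit 0)) (.slot (nat_lit 0))) (.slot (nat_lit 2)) (.slot (nat_lit 1)))
def w15686 : Root := .mk (.col (nat_lit 0)) (.col (nat_lit 1)) (.node (.node (.node (.col (nat_lit 2)) (.col (nat_lit 0)) (.slot (nat_lit 1))) (.node (.col (nat_lit 2)) (.slot (nat_lit 0)) (.slot (nat_lit 0))) (.node (.col (nat_lit 0)) (.slot (nat_lit 1)) (.slot (nat_lit 0)))) (.slot (nat_lit 1)) (.slot (nat_lit 1))) (.node (.node (.col (nat_lit 3)) (.slot (nat_lit 0)) (.slot (nat_lit 0))) (.slot (nat_lit 2)) (.slot (nat_lit 1)))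
def w15687 : Root := .mk (.col (nat_lit 0)) (.col (nat_lit 1)) (.node (.node (.node (.col (nat_lit 2)) (.col (nat_lit 0)) (.slot (nat_lit 0))) (.node (.col (nat_lit 2)) (.col (nat_lit 1)) (.slot (nat_lit 1))) (.slot (nat_lit 1))) (.slot (nat_lit 1)) (.slot (nat_lit 1))) (.node (.node (.col (nat_lit 3)) (.slot (nat_lit 0)) (.slot (nat_lit 0))) (.slot (nat_lit 2)) (.slot (nat_lit 1)))
def l3448 : Root := .mk (.col (nat_lit 0)) (.col (nat_lit 1)) (.node (.node (.node (.col (nat_lit 2)) (.col (nat_lit 0)) (.slot (nat_lit 8))) (.node (.col (nat_lit 2)) (.slot (nat_lit 7)) (.slot (nat_lit 5))) (.slot (nat_lit 8))) (.slot (nat_lit 8)) (.slot (nat_lit 8))) (.node (.node (.col (nat_lit 3)) (.slot (nat_lit 2)) (.slot (nat_lit 2))) (.slot (nat_lit 8)) (.slot (nat_lit 1)))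
def w15688 : Root := .mk (.col (nat_lit 0)) (.col (nat_lit 1)) (.node (.node (.node (.node (.col (nat_lit 0)) (.slot (nat_lit 0)) (.slot (nat_lit 0))) (.col (nat_lit 0)) (.slot (nat_lit 8))) (.node (.col (nat_lit 2)) (.slot (nat_lit 7)) (.slot (nat_lit 5))) (.slot (nat_lit 8))) (.slot (nat_lit 8)) (.slot (nat_lit 8))) (.node (.node (.col (nat_lit 3)) (.slot (nat_lit 2)) (.slot (nat_lit 2))) (.slot (nat_lit 8)) (.slot (nat_lit 1)))
def l3449 : Root := .mk (.col (nat_lit 0)) (.col (nat_lit 1)) (.node (.node (.node (.col (nat_lit 2)) (.col (nat_lit 0)) (.slot (nat_lit 3))) (.node (.col (nat_lit 2)) (.slot (nat_lit 7)) (.slot (nat_lit 5))) (.slot (nat_lit 8))) (.slot (nat_lit 8)) (.slot (nat_lit 8))) (.node (.node (.slot (nat_lit 0)) (.slot (nat_lit 0)) (.slot (nat_lit 0))) (.slot (nat_lit 1)) (.slot (nat_lit 1)))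
def w15689 : Root := .mk (.col (nat_lit 0)) (.col (nat_lit 1)) (.node (.node (.node (.node (.col (nat_lit 0)) (.slot (nat_lit 0)) (.slot (nat_lit 0))) (.col (nat_lit 0)) (.slot (nat_lit 3))) (.node (.col (nat_lit 2)) (.slot (nat_lit 7)) (.slot (nat_lit 5))) (.slot (nat_lit 8))) (.slot (nat_lit 8)) (.slot (nat_lit 8))) (.node (.node (.slot (nat_lit 0)) (.slot (nat_lit 0)) (.slot (nat_lit 0))) (.slot (nat_lit 1)) (.slot (nat_lit 1)))
def l3450 : Root := .mk (.col (nat_lit 0)) (.col (nat_lit 1)) (.node (.node (.node (.node (.col (nat_lit 0)) (.slot (nat_lit 16)) (.slot (nat_lit 13))) (.col (nat_lit 0)) (.slot (nat_lit 11))) (.node (.col (nat_lit 2)) (.slot (nat_lit 16)) (.slot (nat_lit 13))) (.slot (nat_lit 11))) (.slot (nat_lit 10)) (.slot (nat_lit 9))) (.slot (nat_lit 9))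
def w15690 : Root := .mk (.col (nat_lit 0)) (.col (nat_lit 1)) (.node (.node (.node (.node (.col (nat_lit 0)) (.slot (nat_lit 16)) (.slot (nat_lit 13))) (.col (nat_lit 0)) (.slot (nat_lit 11))) (.slot (nat_lit 17)) (.slot (nat_lit 11))) (.slot (nat_lit 10)) (.slot (nat_lit 9))) (.slot (nat_lit 9))
def w15691 : Root := .mk (.col (nat_lit 0)) (.col (nat_lit 1)) (.node (.node (.node (.node (.col (nat_lit 0)) (.slot (nat_lit 8)) (.slot (nat_lit 8))) (.col (nat_lit 2)) (.slot (nat_lit 1))) (.slot (nat_lit 3)) (.slot (nat_lit 2))) (.slot (nat_lit 1)) (.slot (nat_lit 1))) (.slot (nat_lit 3))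
def w15692 : Root := .mk (.col (nat_lit 0)) (.col (nat_lit 1)) (.node (.node (.node (.node (.col (nat_lit 0)) (.slot (nat_lit 1)) (.slot (nat_lit 1))) (.node (.col (nat_lit 0)) (.slot (nat_lit 1)) (.slot (nat_lit 1))) (.slot (nat_lit 1))) (.slot (nat_lit 3)) (.slot (nat_lit 1))) (.slot (nat_lit 1)) (.slot (nat_lit 1))) (.slot (nat_lit 3))
def l3451 : Root := .mk (.node (.node (.node (.node (.col (nat_lit 0)) (.col (nat_lit 1)) (.slot (nat_lit 3))) (.slot (nat_lit 1)) (.slot (nat_lit 1))) (.col (nat_lit 0)) (.slot (nat_lit 3))) (.col (nat_lit 2)) (.node (.col (nat_lit 2)) (.slot (nat_lit 0)) (.slot (nat_lit 0)))) (.col (nat_lit 0)) (.col (nat_lit 1)) (.node (.col (nat_lit 0)) (.slot (nat_lit 0)) (.slot (nat_lit 0)))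
def w15693 : Root := .mk (.node (.node (.node (.node (.col (nat_lit 0)) (.col (nat_lit 1)) (.slot (nat_lit 3))) (.slot (nat_lit 1)) (.slot (nat_lit 1))) (.slot (nat_lit 1)) (.slot (nat_lit 3))) (.col (nat_lit 2)) (.node (.col (nat_lit 2)) (.slot (nat_lit 0)) (.slot (nat_lit 0)))) (.col (nat_lit 0)) (.col (nat_lit 1)) (.node (.col (nat_lit 0)) (.slot (nat_lit 0)) (.slot (nat_lit 0)))
def w15694 : Root := .mk (.node (.node (.node (.node (.col (nat_lit 0)) (.col (nat_lit 1)) (.slot (nat_lit 2))) (.slot (nat_lit 2)) (.slot (nat_lit 1))) (.slot (nat_lit 1)) (.slot (nat_lit 3))) (.col (nat_lit 2)) (.node (.slot (nat_lit 0)) (.slot (nat_lit 0)) (.slot (nat_lit 0)))) (.col (nat_lit 0)) (.col (nat_lit 1)) (.node (.col (nat_lit 0)) (.slot (nat_lit 1)) (.slot (nat_lit 1)))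
def l3452 : Root := .mk (.col (nat_lit 0)) (.col (nat_lit 1)) (.node (.node (.node (.node (.col (nat_lit 0)) (.col (nat_lit 1)) (.node (.col (nat_lit 0)) (.slot (nat_lit 0)) (.slot (nat_lit 0)))) (.col (nat_lit 2)) (.col (nat_lit 3))) (.col (nat_lit 2)) (.slot (nat_lit 1))) (.col (nat_lit 3)) (.slot (nat_lit 1))) (.col (nat_lit 3))
def w15695 : Root := .mk (.col (nat_lit 0)) (.col (nat_lit 1)) (.node (.node (.node (.node (.col (nat_lit 0)) (.col (nat_lit 1)) (.node (.col (nat_lit 0)) (.slot (nat_lit 0)) (.slot (nat_lit 0)))) (.col (nat_lit 2)) (.slot (nat_lit 1))) (.col (nat_lit 2)) (.slot (nat_lit 1))) (.col (nat_lit 3)) (.slot (nat_lit 1))) (.col (nat_lit 3))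
def l3453 : Root := .mk (.node (.node (.node (.node (.col (nat_lit 0)) (.col (nat_lit 1)) (.slot (nat_lit 4))) (.col (nat_lit 3)) (.slot (nat_lit 8))) (.col (nat_lit 2)) (.slot (nat_lit 3))) (.col (nat_lit 2)) (.slot (nat_lit 2))) (.col (nat_lit 0)) (.col (nat_lit 1)) (.node (.col (nat_lit 0)) (.slot (nat_lit 0)) (.slot (nat_lit 0)))
def w15696 : Root := .mk (.node (.node (.node (.node (.col (nat_lit 0)) (.col (nat_lit 1)) (.slot (nat_lit 4))) (.slot (nat_lit 1)) (.slot (nat_lit 8))) (.col (nat_lit 2)) (.slot (nat_lit 3))) (.col (nat_lit 2)) (.slot (nat_lit 2))) (.col (nat_lit 0)) (.col (nat_lit 1)) (.node (.col (nat_lit 0)) (.slot (nat_lit 0)) (.slot (nat_lit 0)))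
def l3454 : Root := .mk (.col (nat_lit 0)) (.col (nat_lit 1)) (.node (.node (.node (.node (.col (nat_lit 0)) (.col (nat_lit 1)) (.node (.col (nat_lit 0)) (.slot (nat_lit 0)) (.slot (nat_lit 0)))) (.col (nat_lit 2)) (.slot (nat_lit 1))) (.col (nat_lit 1)) (.slot (nat_lit 3))) (.col (nat_lit 0)) (.col (nat_lit 2))) (.col (nat_lit 2))
def w15697 : Root := .mk (.col (nat_lit 0)) (.col (nat_lit 1)) (.node (.node (.node (.node (.col (nat_lit 0)) (.col (nat_lit 1)) (.node (.col (nat_lit 0)) (.slot (nat_lit 0)) (.slot (nat_lit 0)))) (.col (nat_lit 2)) (.slot (nat_lit 1))) (.slot (nat_lit 1)) (.slot (nat_lit 3))) (.col (nat_lit 0)) (.col (nat_lit 2))) (.col (nat_lit 2))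
def l3455 : Root := .mk (.node (.col (nat_lit 0)) (.col (nat_lit 1)) (.slot (nat_lit 8))) (.node (.node (.node (.col (nat_lit 0)) (.col (nat_lit 1)) (.node (.col (nat_lit 0)) (.slot (nat_lit 0)) (.slot (nat_lit 0)))) (.col (nat_lit 2)) (.slot (nat_lit 1))) (.slot (nat_lit 3)) (.slot (nat_lit 3))) (.col (nat_lit 0)) (.col (nat_lit 2))
def w15698 : Root := .mk (.node (.node (.node (.node (.col (nat_lit 0)) (.col (nat_lit 1)) (.slot (nat_lit 8))) (.col (nat_lit 0)) (.slot (nat_lit 1))) (.slot (nat_lit 3)) (.slot (nat_lit 3))) (.col (nat_lit 2)) (.slot (nat_lit 1))) (.col (nat_lit 0)) (.col (nat_lit 1)) (.node (.col (nat_lit 0)) (.slot (nat_lit 0)) (.slot (nat_lit 0)))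
def l3456 : Root := .mk (.col (nat_lit 0)) (.col (nat_lit 1)) (.node (.node (.node (.node (.col (nat_lit 0)) (.col (nat_lit 1)) (.node (.col (nat_lit 0)) (.slot (nat_lit 0)) (.slot (nat_lit 0)))) (.col (nat_lit 2)) (.slot (nat_lit 1))) (.col (nat_lit 0)) (.slot (nat_lit 3))) (.col (nat_lit 1)) (.col (nat_lit 2))) (.col (nat_lit 2))
def w15699 : Root := .mk (.col (nat_lit 0)) (.col (nat_lit 1)) (.node (.node (.node (.node (.col (nat_lit 0)) (.col (nat_lit 1)) (.node (.col (nat_lit 0)) (.slot (nat_lit 0)) (.slot (nat_lit 0)))) (.col (nat_lit 2)) (.slot (nat_lit 1))) (.slot (nat_lit 1)) (.slot (nat_lit 3))) (.col (nat_lit 1)) (.col (nat_lit 2))) (.col (nat_lit 2))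
def l3457 : Root := .mk (.node (.col (nat_lit 0)) (.col (nat_lit 1)) (.slot (nat_lit 8))) (.node (.node (.node (.col (nat_lit 0)) (.col (nat_lit 1)) (.node (.col (nat_lit 0)) (.slot (nat_lit 1)) (.slot (nat_lit 1)))) (.col (nat_lit 2)) (.slot (nat_lit 1))) (.slot (nat_lit 3)) (.slot (nat_lit 3))) (.col (nat_lit 1)) (.col (nat_lit 2))
def w15700 : Root := .mk (.node (.node (.node (.node (.col (nat_lit 0)) (.col (nat_lit 1)) (.slot (nat_lit 8))) (.col (nat_lit 1)) (.slot (nat_lit 1))) (.slot (nat_lit 3)) (.slot (nat_lit 3))) (.col (nat_lit 2)) (.slot (nat_lit 1))) (.col (nat_lit 0)) (.col (nat_lit 1)) (.node (.col (nat_lit 0)) (.slot (nat_lit 1)) (.slot (nat_lit 1)))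
def w15701 : Root := .mk (.node (.node (.node (.node (.col (nat_lit 0)) (.col (nat_lit 1)) (.slot (nat_lit 1))) (.node (.col (nat_lit 2)) (.slot (nat_lit 1)) (.slot (nat_lit 1))) (.slot (nat_lit 2))) (.slot (nat_lit 1)) (.slot (nat_lit 1))) (.col (nat_lit 2)) (.slot (nat_lit 2))) (.col (nat_lit 0)) (.col (nat_lit 1)) (.node (.col (nat_lit 0)) (.slot (nat_lit 0)) (.slot (nat_lit 0)))
def w15702 : Root := .mk (.node (.node (.node (.node (.col (nat_lit 0)) (.col (nat_lit 1)) (.slot (nat_lit 2))) (.node (.col (nat_lit 3)) (.slot (nat_lit 0)) (.slot (nat_lit 0))) (.slot (nat_lit 2))) (.slot (nat_lit 1)) (.slot (nat_lit 1))) (.col (nat_lit 2)) (.slot (nat_lit 2))) (.col (nat_lit 0)) (.col (nat_lit 1)) (.node (.col (nat_lit 0)) (.slot (nat_lit 0)) (.slot (nat_lit 0)))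
def w15703 : Root := .mk (.node (.node (.node (.node (.col (nat_lit 0)) (.col (nat_lit 1)) (.slot (nat_lit 2))) (.slot (nat_lit 1)) (.slot (nat_lit 1))) (.slot (nat_lit 1)) (.slot (nat_lit 1))) (.col (nat_lit 2)) (.slot (nat_lit 2))) (.col (nat_lit 0)) (.col (nat_lit 1)) (.node (.col (nat_lit 0)) (.col (nat_lit 1)) (.slot (nat_lit 0)))
def w15704 : Root := .mk (.node (.node (.node (.node (.col (nat_lit 0)) (.col (nat_lit 1)) (.slot (nat_lit 2))) (.slot (nat_lit 1)) (.slot (nat_lit 1))) (.slot (nat_lit 1)) (.slot (nat_lit 1))) (.col (nat_lit 2)) (.slot (nat_lit 2))) (.col (nat_lit 0)) (.col (nat_lit 1)) (.node (.col (nat_lit 0)) (.slot (nat_lit 0)) (.slot (nat_lit 0)))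
def w15705 : Root := .mk (.col (nat_lit 0)) (.col (nat_lit 1)) (.node (.node (.node (.node (.col (nat_lit 0)) (.col (nat_lit 1)) (.node (.col (nat_lit 0)) (.slot (nat_lit 0)) (.slot (nat_lit 0)))) (.col (nat_lit 2)) (.slot (nat_lit 1))) (.slot (nat_lit 1)) (.slot (nat_lit 1))) (.slot (nat_lit 1)) (.slot (nat_lit 1))) (.col (nat_lit 2))
def l3458 : Root := .mk (.node (.node (.node (.node (.col (nat_lit 0)) (.col (nat_lit 1)) (.slot (nat_lit 8))) (.slot (nat_lit 12)) (.slot (nat_lit 10))) (.slot (nat_lit 8)) (.slot (nat_lit 8))) (.col (nat_lit 2)) (.slot (nat_lit 9))) (.col (nat_lit 0)) (.col (nat_lit 1)) (.node (.col (nat_lit 0)) (.slot (nat_lit 5)) (.slot (nat_lit 1)))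
def w15706 : Root := .mk (.node (.node (.node (.node (.col (nat_lit 0)) (.col (nat_lit 1)) (.slot (nat_lit 8))) (.slot (nat_lit 12)) (.slot (nat_lit 10))) (.slot (nat_lit 8)) (.slot (nat_lit 8))) (.node (.col (nat_lit 1)) (.slot (nat_lit 0)) (.slot (nat_lit 0))) (.slot (nat_lit 9))) (.col (nat_lit 0)) (.col (nat_lit 1)) (.node (.col (nat_lit 0)) (.slot (nat_lit 5)) (.slot (nat_lit 1)))
def w15707 : Root := .mk (.node (.node (.node (.node (.col (nat_lit 0)) (.col (nat_lit 1)) (.slot (nat_lit 8))) (.slot (nat_lit 12)) (.slot (nat_lit 10))) (.slot (nat_lit 8)) (.slot (nat_lit 8))) (.node (.col (nat_lit 1)) (.slot (nat_lit 0)) (.slot (nat_lit 0))) (.slot (nat_lit 9))) (.col (nat_lit 0)) (.col (nat_lit 1)) (.node (.col (nat_lit 1)) (.slot (nat_lit 5)) (.slot (nat_lit 1)))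
def l3459 : Root := .mk (.node (.node (.node (.node (.col (nat_lit 0)) (.col (nat_lit 1)) (.slot (nat_lit 3))) (.slot (nat_lit 1)) (.slot (nat_lit 1))) (.slot (nat_lit 7)) (.slot (nat_lit 5))) (.node (.col (nat_lit 1)) (.slot (nat_lit 3)) (.slot (nat_lit 1))) (.col (nat_lit 2))) (.col (nat_lit 0)) (.col (nat_lit 1)) (.node (.slot (nat_lit 0)) (.slot (nat_lit 1)) (.slot (nat_lit 1)))
def w15708 : Root := .mk (.node (.node (.node (.node (.col (nat_lit 0)) (.col (nat_lit 1)) (.slot (nat_lit 3))) (.slot (nat_lit 1)) (.slot (nat_lit 1))) (.slot (nat_lit 7)) (.slot (nat_lit 5))) (.node (.col (nat_lit 1)) (.slot (nat_lit 3)) (.slot (nat_lit 1))) (.slot (nat_lit 1))) (.col (nat_lit 0)) (.col (nat_lit 1)) (.node (.slot (nat_lit 0)) (.slot (nat_lit 1)) (.slot (nat_lit 1)))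
def w15709 : Root := .mk (.node (.node (.node (.node (.col (nat_lit 0)) (.col (nat_lit 1)) (.slot (nat_lit 2))) (.slot (nat_lit 1)) (.slot (nat_lit 1))) (.slot (nat_lit 3)) (.slot (nat_lit 1))) (.node (.col (nat_lit 0)) (.col (nat_lit 1)) (.slot (nat_lit 0))) (.col (nat_lit 1))) (.col (nat_lit 1)) (.col (nat_lit 0)) (.col (nat_lit 2))
def w15710 : Root := .mk (.node (.node (.node (.slot (nat_lit 0)) (.slot (nat_lit 0)) (.slot (nat_lit 0))) (.slot (nat_lit 7)) (.slot (nat_lit 5))) (.node (.col (nat_lit 0)) (.col (nat_lit 1)) (.slot (nat_lit 4))) (.col (nat_lit 1))) (.col (nat_lit 1)) (.col (nat_lit 0)) (.node (.col (nat_lit 0)) (.slot (nat_lit 2)) (.slot (nat_lit 1)))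
def w15711 : Root := .mk (.node (.node (.node (.slot (nat_lit 0)) (.slot (nat_lit 0)) (.slot (nat_lit 0))) (.slot (nat_lit 7)) (.slot (nat_lit 5))) (.node (.col (nat_lit 0)) (.col (nat_lit 1)) (.slot (nat_lit 4))) (.col (nat_lit 1))) (.col (nat_lit 1)) (.col (nat_lit 0)) (.node (.slot (nat_lit 0)) (.slot (nat_lit 1)) (.slot (nat_lit 1)))
def l3460 : Root := .mk (.node (.node (.node (.node (.col (nat_lit 0)) (.col (nat_lit 1)) (.slot (nat_lit 3))) (.slot (nat_lit 1)) (.slot (nat_lit 1))) (.slot (nat_lit 7)) (.slot (nat_lit 5))) (.node (.col (nat_lit 0)) (.col (nat_lit 1)) (.slot (nat_lit 8))) (.col (nat_lit 1))) (.col (nat_lit 1)) (.col (nat_lit 0)) (.slot (nat_lit 8))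
def w15712 : Root := .mk (.node (.node (.node (.col (nat_lit 0)) (.col (nat_lit 1)) (.slot (nat_lit 3))) (.slot (nat_lit 1)) (.slot (nat_lit 1))) (.slot (nat_lit 7)) (.slot (nat_lit 5))) (.node (.col (nat_lit 0)) (.col (nat_lit 1)) (.slot (nat_lit 8))) (.node (.col (nat_lit 1)) (.slot (nat_lit 1)) (.slot (nat_lit 8))) (.col (nat_lit 1))
def l3461 : Root := .mk (.col (nat_lit 2)) (.node (.col (nat_lit 0)) (.col (nat_lit 1)) (.slot (nat_lit 3))) (.node (.col (nat_lit 1)) (.slot (nat_lit 3)) (.slot (nat_lit 1))) (.node (.col (nat_lit 0)) (.slot (nat_lit 3)) (.slot (nat_lit 1)))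
def w15713 : Root := .mk (.node (.node (.slot (nat_lit 0)) (.slot (nat_lit 0)) (.slot (nat_lit 0))) (.node (.col (nat_lit 1)) (.slot (nat_lit 3)) (.slot (nat_lit 1))) (.node (.col (nat_lit 0)) (.slot (nat_lit 3)) (.slot (nat_lit 1)))) (.col (nat_lit 0)) (.col (nat_lit 1)) (.slot (nat_lit 3))
def l3462 : Root := .mk (.node (.node (.node (.node (.col (nat_lit 0)) (.col (nat_lit 1)) (.slot (nat_lit 8))) (.slot (nat_lit 12)) (.slot (nat_lit 10))) (.slot (nat_lit 8)) (.slot (nat_lit 8))) (.node (.col (nat_lit 1)) (.slot (nat_lit 8)) (.slot (nat_lit 8))) (.slot (nat_lit 9))) (.col (nat_lit 0)) (.col (nat_lit 1)) (.slot (nat_lit 8))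
def w15714 : Root := .mk (.col (nat_lit 0)) (.col (nat_lit 1)) (.node (.node (.node (.node (.col (nat_lit 0)) (.slot (nat_lit 1)) (.slot (nat_lit 8))) (.node (.col (nat_lit 1)) (.slot (nat_lit 8)) (.slot (nat_lit 8))) (.slot (nat_lit 9))) (.slot (nat_lit 8)) (.slot (nat_lit 8))) (.slot (nat_lit 12)) (.slot (nat_lit 10))) (.slot (nat_lit 8))
def w15715 : Root := .mk (.node (.node (.node (.node (.col (nat_lit 0)) (.col (nat_lit 1)) (.slot (nat_lit 3))) (.slot (nat_lit 1)) (.slot (nat_lit 1))) (.slot (nat_lit 3)) (.slot (nat_lit 1))) (.node (.col (nat_lit 0)) (.slot (nat_lit 2)) (.slot (nat_lit 1))) (.slot (nat_lit 1))) (.col (nat_lit 2)) (.col (nat_lit 0)) (.node (.col (nat_lit 0)) (.slot (nat_lit 1)) (.slot (nat_lit 1)))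
def w15716 : Root := .mk (.node (.node (.node (.node (.col (nat_lit 0)) (.col (nat_lit 1)) (.slot (nat_lit 3))) (.slot (nat_lit 1)) (.slot (nat_lit 1))) (.slot (nat_lit 3)) (.slot (nat_lit 1))) (.node (.col (nat_lit 0)) (.slot (nat_lit 1)) (.slot (nat_lit 0))) (.slot (nat_lit 1))) (.col (nat_lit 2)) (.col (nat_lit 0)) (.node (.col (nat_lit 2)) (.slot (nat_lit 0)) (.slot (nat_lit 0)))
def l3463 : Root := .mk (.node (.node (.node (.node (.col (nat_lit 0)) (.col (nat_lit 1)) (.slot (nat_lit 3))) (.slot (nat_lit 1)) (.slot (nat_lit 1))) (.slot (nat_lit 7)) (.slot (nat_lit 5))) (.node (.col (nat_lit 0)) (.slot (nat_lit 3)) (.slot (nat_lit 1))) (.col (nat_lit 1))) (.col (nat_lit 2)) (.col (nat_lit 0)) (.node (.slot (nat_lit 0)) (.slot (nat_lit 1)) (.slot (nat_lit 1)))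
def w15717 : Root := .mk (.node (.node (.node (.node (.col (nat_lit 0)) (.col (nat_lit 1)) (.slot (nat_lit 3))) (.slot (nat_lit 1)) (.slot (nat_lit 1))) (.slot (nat_lit 7)) (.slot (nat_lit 5))) (.node (.col (nat_lit 0)) (.slot (nat_lit 3)) (.slot (nat_lit 1))) (.slot (nat_lit 1))) (.col (nat_lit 2)) (.col (nat_lit 0)) (.node (.slot (nat_lit 0)) (.slot (nat_lit 1)) (.slot (nat_lit 1)))
def w15718 : Root := .mk (.node (.node (.node (.col (nat_lit 0)) (.col (nat_lit 1)) (.slot (nat_lit 2))) (.slot (nat_lit 1)) (.slot (nat_lit 1))) (.slot (nat_lit 1)) (.slot (nat_lit 0))) (.col (nat_lit 2)) (.node (.col (nat_lit 2)) (.col (nat_lit 0)) (.node (.col (nat_lit 1)) (.slot (nat_lit 1)) .junk)) (.col (nat_lit 0))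
def w15719 : Root := .mk (.node (.node (.node (.node (.col (nat_lit 0)) (.col (nat_lit 1)) (.slot (nat_lit 2))) (.slot (nat_lit 1)) (.slot (nat_lit 1))) (.slot (nat_lit 1)) (.slot (nat_lit 1))) (.col (nat_lit 2)) (.slot (nat_lit 2))) (.col (nat_lit 2)) (.col (nat_lit 0)) (.node (.col (nat_lit 1)) (.node (.slot (nat_lit 0)) (.slot (nat_lit 0)) (.slot (nat_lit 0))) .junk)
def l3464 : Root := .mk (.node (.node (.node (.node (.col (nat_lit 0)) (.col (nat_lit 1)) (.slot (nat_lit 3))) (.slot (nat_lit 1)) (.slot (nat_lit 1))) (.slot (nat_lit 3)) (.slot (nat_lit 1))) (.col (nat_lit 2)) (.slot (nat_lit 5))) (.col (nat_lit 2)) (.col (nat_lit 0)) (.node (.col (nat_lit 1)) (.slot (nat_lit 12)) (.slot (nat_lit 12)))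
def w15720 : Root := .mk (.node (.node (.node (.node (.col (nat_lit 0)) (.col (nat_lit 1)) (.slot (nat_lit 3))) (.slot (nat_lit 1)) (.slot (nat_lit 1))) (.slot (nat_lit 3)) (.slot (nat_lit 1))) (.col (nat_lit 2)) (.slot (nat_lit 5))) (.col (nat_lit 2)) (.col (nat_lit 0)) (.slot (nat_lit 13))
def w15721 : Root := .mk (.node (.node (.node (.col (nat_lit 0)) (.col (nat_lit 1)) (.slot (nat_lit 3))) (.slot (nat_lit 1)) (.slot (nat_lit 1))) (.slot (nat_lit 3)) (.slot (nat_lit 1))) (.node (.col (nat_lit 0)) (.slot (nat_lit 3)) (.slot (nat_lit 1))) (.node (.col (nat_lit 2)) (.col (nat_lit 0)) (.slot (nat_lit 3))) (.col (nat_lit 0))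
def l3465 : Root := .mk (.node (.node (.node (.node (.col (nat_lit 0)) (.col (nat_lit 1)) (.slot (nat_lit 3))) (.slot (nat_lit 1)) (.slot (nat_lit 1))) (.slot (nat_lit 7)) (.slot (nat_lit 5))) (.node (.col (nat_lit 0)) (.slot (nat_lit 8)) (.slot (nat_lit 8))) (.slot (nat_lit 8))) (.col (nat_lit 2)) (.col (nat_lit 0)) (.slot (nat_lit 13))
def w15722 : Root := .mk (.col (nat_lit 0)) (.col (nat_lit 1)) (.node (.node (.node (.node (.col (nat_lit 0)) (.slot (nat_lit 8)) (.slot (nat_lit 8))) (.node (.col (nat_lit 2)) (.slot (nat_lit 1)) (.slot (nat_lit 13))) (.slot (nat_lit 8))) (.slot (nat_lit 7)) (.slot (nat_lit 5))) (.slot (nat_lit 1)) (.slot (nat_lit 1))) (.slot (nat_lit 3))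
def w15723 : Root := .mk (.node (.node (.node (.col (nat_lit 0)) (.col (nat_lit 1)) (.slot (nat_lit 2))) (.slot (nat_lit 1)) (.slot (nat_lit 1))) (.slot (nat_lit 7)) (.slot (nat_lit 5))) (.node (.col (nat_lit 0)) (.slot (nat_lit 2)) (.slot (nat_lit 1))) (.col (nat_lit 2)) (.col (nat_lit 0))
def w15724 : Root := .mk (.node (.node (.node (.col (nat_lit 0)) (.col (nat_lit 1)) (.slot (nat_lit 3))) (.slot (nat_lit 1)) (.slot (nat_lit 1))) (.slot (nat_lit 3)) (.slot (nat_lit 2))) (.node (.col (nat_lit 0)) (.slot (nat_lit 0)) (.slot (nat_lit 0))) (.col (nat_lit 2)) (.node (.col (nat_lit 1)) (.slot (nat_lit 8)) (.slot (nat_lit 8)))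
def w15725 : Root := .mk (.node (.node (.node (.col (nat_lit 0)) (.col (nat_lit 1)) (.slot (nat_lit 3))) (.slot (nat_lit 1)) (.slot (nat_lit 1))) (.slot (nat_lit 3)) (.slot (nat_lit 2))) (.node (.col (nat_lit 0)) (.slot (nat_lit 8)) (.slot (nat_lit 8))) (.col (nat_lit 2)) (.node (.col (nat_lit 2)) (.slot (nat_lit 0)) (.slot (nat_lit 0)))
def w15726 : Root := .mk (.col (nat_lit 0)) (.col (nat_lit 1)) (.node (.node (.node (.slot (nat_lit 0)) (.col (nat_lit 2)) (.slot (nat_lit 0))) (.node (.col (nat_lit 3)) (.slot (nat_lit 8)) (.slot (nat_lit 5))) (.slot (nat_lit 8))) (.slot (nat_lit 8)) (.slot (nat_lit 8))) (.slot (nat_lit 9))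
def w15727 : Root := .mk (.col (nat_lit 0)) (.col (nat_lit 1)) (.node (.node (.node (.node (.col (nat_lit 0)) (.node (.col (nat_lit 0)) (.slot (nat_lit 5)) (.slot (nat_lit 1))) (.slot (nat_lit 1))) (.col (nat_lit 2)) (.slot (nat_lit 9))) (.slot (nat_lit 8)) (.slot (nat_lit 8))) (.slot (nat_lit 12)) (.slot (nat_lit 10))) (.slot (nat_lit 8))
def w15728 : Root := .mk (.col (nat_lit 0)) (.col (nat_lit 1)) (.node (.node (.node (.node (.col (nat_lit 0)) (.node (.slot (nat_lit 0)) (.slot (nat_lit 0)) (.slot (nat_lit 0))) (.slot (nat_lit 1))) (.col (nat_lit 2)) (.slot (nat_lit 2))) (.slot (nat_lit 3)) (.slot (nat_lit 1))) (.slot (nat_lit 1)) (.slot (nat_lit 1))) (.slot (nat_lit 3))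
def w15729 : Root := .mk (.col (nat_lit 0)) (.col (nat_lit 1)) (.node (.node (.node (.node (.col (nat_lit 0)) (.slot (nat_lit 3)) (.slot (nat_lit 2))) (.col (nat_lit 2)) (.slot (nat_lit 3))) (.slot (nat_lit 3)) (.slot (nat_lit 3))) (.col (nat_lit 1)) (.slot (nat_lit 1))) (.slot (nat_lit 8))
def w15730 : Root := .mk (.col (nat_lit 0)) (.col (nat_lit 1)) (.node (.node (.node (.node (.col (nat_lit 0)) (.slot (nat_lit 8)) (.slot (nat_lit 8))) (.col (nat_lit 2)) (.slot (nat_lit 8))) (.slot (nat_lit 8)) (.slot (nat_lit 8))) (.node (.col (nat_lit 2)) (.slot (nat_lit 0)) (.slot (nat_lit 0))) (.slot (nat_lit 8))) (.col (nat_lit 4))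
def l3466 : Root := .mk (.col (nat_lit 0)) (.col (nat_lit 1)) (.node (.node (.node (.node (.col (nat_lit 0)) (.slot (nat_lit 8)) (.slot (nat_lit 8))) (.col (nat_lit 2)) (.slot (nat_lit 10))) (.slot (nat_lit 8)) (.slot (nat_lit 8))) (.node (.col (nat_lit 2)) (.slot (nat_lit 8)) (.slot (nat_lit 8))) (.slot (nat_lit 8))) (.node (.col (nat_lit 3)) (.slot (nat_lit 8)) (.slot (nat_lit 8)))
def w15731 : Root := .mk (.col (nat_lit 0)) (.col (nat_lit 1)) (.node (.node (.node (.node (.col (nat_lit 0)) (.slot (nat_lit 8)) (.slot (nat_lit 8))) (.col (nat_lit 2)) (.slot (nat_lit 10))) (.slot (nat_lit 8)) (.slot (nat_lit 8))) (.node (.col (nat_lit 2)) (.slot (nat_lit 8)) (.slot (nat_lit 8))) (.slot (nat_lit 8))) (.slot (nat_lit 9))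
def l3467 : Root := .mk (.node (.col (nat_lit 0)) (.col (nat_lit 1)) (.slot (nat_lit 8))) (.node (.node (.node (.col (nat_lit 0)) (.slot (nat_lit 2)) (.slot (nat_lit 2))) (.col (nat_lit 2)) (.slot (nat_lit 3))) (.slot (nat_lit 1)) (.slot (nat_lit 1))) (.node (.col (nat_lit 3)) (.slot (nat_lit 1)) (.slot (nat_lit 1))) (.col (nat_lit 2))
def w15732 : Root := .mk (.col (nat_lit 0)) (.col (nat_lit 1)) (.node (.node (.node (.node (.col (nat_lit 0)) (.slot (nat_lit 2)) (.slot (nat_lit 2))) (.col (nat_lit 2)) (.slot (nat_lit 3))) (.slot (nat_lit 1)) (.slot (nat_lit 1))) (.node (.col (nat_lit 3)) (.slot (nat_lit 1)) (.slot (nat_lit 1))) (.slot (nat_lit 1))) (.slot (nat_lit 8))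
def w15733 : Root := .mk (.col (nat_lit 0)) (.col (nat_lit 1)) (.node (.node (.node (.node (.col (nat_lit 0)) (.slot (nat_lit 1)) (.slot (nat_lit 1))) (.col (nat_lit 2)) (.slot (nat_lit 2))) (.slot (nat_lit 1)) (.slot (nat_lit 1))) (.slot (nat_lit 2)) (.slot (nat_lit 1))) (.col (nat_lit 2))
def w15734 : Root := .mk (.col (nat_lit 0)) (.col (nat_lit 1)) (.node (.node (.node (.node (.col (nat_lit 0)) (.slot (nat_lit 8)) (.slot (nat_lit 5))) (.col (nat_lit 2)) (.slot (nat_lit 8))) (.slot (nat_lit 1)) (.slot (nat_lit 9))) (.slot (nat_lit 7)) (.slot (nat_lit 5))) (.node (.col (nat_lit 0)) (.slot (nat_lit 3)) (.slot (nat_lit 2)))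
def w15735 : Root := .mk (.col (nat_lit 0)) (.col (nat_lit 1)) (.node (.node (.node (.node (.col (nat_lit 0)) (.slot (nat_lit 7)) (.slot (nat_lit 5))) (.col (nat_lit 2)) (.slot (nat_lit 8))) (.slot (nat_lit 1)) (.slot (nat_lit 3))) (.slot (nat_lit 3)) (.slot (nat_lit 1))) (.node (.col (nat_lit 1)) (.slot (nat_lit 3)) (.slot (nat_lit 1)))
def l3468 : Root := .mk (.col (nat_lit 0)) (.col (nat_lit 1)) (.node (.node (.node (.node (.col (nat_lit 0)) (.slot (nat_lit 13)) (.slot (nat_lit 13))) (.col (nat_lit 2)) (.slot (nat_lit 10))) (.slot (nat_lit 9)) (.slot (nat_lit 9))) (.slot (nat_lit 12)) (.slot (nat_lit 10))) (.slot (nat_lit 9))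
def w15736 : Root := .mk (.col (nat_lit 0)) (.col (nat_lit 1)) (.node (.node (.node (.node (.col (nat_lit 0)) (.slot (nat_lit 13)) (.slot (nat_lit 13))) (.node (.slot (nat_lit 0)) (.slot (nat_lit 0)) (.slot (nat_lit 0))) (.slot (nat_lit 10))) (.slot (nat_lit 9)) (.slot (nat_lit 9))) (.slot (nat_lit 12)) (.slot (nat_lit 10))) (.slot (nat_lit 9))
def w15737 : Root := .mk (.node (.node (.node (.node (.col (nat_lit 0)) (.col (nat_lit 1)) (.slot (nat_lit 8))) (.slot (nat_lit 12)) (.slot (nat_lit 10))) (.slot (nat_lit 8)) (.slot (nat_lit 8))) (.slot (nat_lit 9)) (.slot (nat_lit 9))) (.col (nat_lit 0)) (.col (nat_lit 1)) (.slot (nat_lit 8))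
def w15738 : Root := .mk (.node (.node (.node (.node (.col (nat_lit 0)) (.col (nat_lit 1)) (.slot (nat_lit 3))) (.slot (nat_lit 1)) (.slot (nat_lit 1))) (.slot (nat_lit 7)) (.slot (nat_lit 5))) (.slot (nat_lit 9)) (.slot (nat_lit 8))) (.col (nat_lit 0)) (.col (nat_lit 2)) (.slot (nat_lit 13))
def w15739 : Root := .mk (.node (.node (.node (.node (.col (nat_lit 0)) (.col (nat_lit 1)) (.slot (nat_lit 8))) (.slot (nat_lit 12)) (.slot (nat_lit 10))) (.slot (nat_lit 8)) (.slot (nat_lit 8))) (.slot (nat_lit 1)) (.slot (nat_lit 9))) (.col (nat_lit 0)) (.col (nat_lit 1)) (.node (.col (nat_lit 0)) (.slot (nat_lit 5)) (.slot (nat_lit 1)))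
def l3469 : Root := .mk (.node (.node (.node (.node (.col (nat_lit 0)) (.col (nat_lit 1)) (.slot (nat_lit 3))) (.slot (nat_lit 12)) (.slot (nat_lit 10))) (.slot (nat_lit 8)) (.slot (nat_lit 8))) (.col (nat_lit 2)) (.slot (nat_lit 9))) (.col (nat_lit 0)) (.col (nat_lit 1)) (.node (.node (.col (nat_lit 2)) (.slot (nat_lit 0)) (.slot (nat_lit 0))) (.slot (nat_lit 1)) (.slot (nat_lit 5)))
def w15740 : Root := .mk (.node (.node (.node (.node (.col (nat_lit 0)) (.col (nat_lit 1)) (.slot (nat_lit 3))) (.slot (nat_lit 12)) (.slot (nat_lit 10))) (.slot (nat_lit 8)) (.slot (nat_lit 8))) (.slot (nat_lit 1)) (.slot (nat_lit 9))) (.col (nat_lit 0)) (.col (nat_lit 1)) (.node (.node (.col (nat_lit 2)) (.slot (nat_lit 0)) (.slot (nat_lit 0))) (.slot (nat_lit 5)) (.slot (nat_lit 1)))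
def l3470 : Root := .mk (.node (.node (.node (.node (.col (nat_lit 0)) (.col (nat_lit 1)) (.slot (nat_lit 3))) (.slot (nat_lit 12)) (.slot (nat_lit 10))) (.slot (nat_lit 8)) (.slot (nat_lit 8))) (.col (nat_lit 2)) (.slot (nat_lit 9))) (.col (nat_lit 0)) (.col (nat_lit 1)) (.node (.node (.slot (nat_lit 0)) (.slot (nat_lit 0)) (.slot (nat_lit 0))) (.slot (nat_lit 5)) (.slot (nat_lit 1)))
def w15741 : Root := .mk (.node (.node (.node (.node (.col (nat_lit 0)) (.col (nat_lit 1)) (.slot (nat_lit 3))) (.slot (nat_lit 12)) (.slot (nat_lit 10))) (.slot (nat_lit 8)) (.slot (nat_lit 8))) (.slot (nat_lit 1)) (.slot (nat_lit 9))) (.col (nat_lit 0)) (.col (nat_lit 1)) (.node (.node (.slot (nat_lit 0)) (.slot (nat_lit 0)) (.slot (nat_lit 0))) (.slot (nat_lit 5)) (.slot (nat_lit 1)))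
def w15742 : Root := .mk (.col (nat_lit 0)) (.col (nat_lit 1)) (.node (.node (.node (.col (nat_lit 3)) (.node (.col (nat_lit 2)) (.slot (nat_lit 1)) (.slot (nat_lit 1))) (.slot (nat_lit 1))) (.slot (nat_lit 1)) (.slot (nat_lit 1))) (.slot (nat_lit 1)) (.slot (nat_lit 1))) (.slot (nat_lit 2))
def w15743 : Root := .mk (.node (.node (.node (.node (.col (nat_lit 0)) (.col (nat_lit 1)) (.slot (nat_lit 2))) (.slot (nat_lit 1)) (.slot (nat_lit 1))) (.slot (nat_lit 1)) (.slot (nat_lit 1))) (.node (.col (nat_lit 2)) (.slot (nat_lit 0)) (.slot (nat_lit 0))) (.slot (nat_lit 2))) (.col (nat_lit 0)) (.col (nat_lit 1)) (.col (nat_lit 4))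
def l3471 : Root := .mk (.node (.node (.node (.node (.col (nat_lit 0)) (.col (nat_lit 1)) (.slot (nat_lit 2))) (.slot (nat_lit 1)) (.slot (nat_lit 1))) (.slot (nat_lit 1)) (.slot (nat_lit 1))) (.node (.col (nat_lit 2)) (.slot (nat_lit 3)) (.slot (nat_lit 3))) (.slot (nat_lit 5))) (.col (nat_lit 0)) (.col (nat_lit 1)) (.node (.col (nat_lit 3)) (.slot (nat_lit 8)) (.slot (nat_lit 8)))
def w15744 : Root := .mk (.node (.node (.node (.node (.col (nat_lit 0)) (.col (nat_lit 1)) (.slot (nat_lit 2))) (.slot (nat_lit 1)) (.slot (nat_lit 1))) (.slot (nat_lit 1)) (.slot (nat_lit 1))) (.node (.col (nat_lit 2)) (.slot (nat_lit 3)) (.slot (nat_lit 3))) (.slot (nat_lit 5))) (.col (nat_lit 0)) (.col (nat_lit 1)) (.slot (nat_lit 9))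
def w15746 : Root := .mk (.col (nat_lit 0)) (.col (nat_lit 1)) (.node (.node (.node (.node (.col (nat_lit 0)) (.col (nat_lit 1)) (.slot (nat_lit 1))) (.slot (nat_lit 1)) (.slot (nat_lit 1))) (.col (nat_lit 2)) (.col (nat_lit 0))) (.col (nat_lit 3)) (.col (nat_lit 0))) (.col (nat_lit 3))
def w15747 : Root := .mk (.col (nat_lit 0)) (.col (nat_lit 1)) (.node (.node (.node (.node (.col (nat_lit 0)) (.col (nat_lit 1)) (.slot (nat_lit 0))) (.slot (nat_lit 1)) (.slot (nat_lit 1))) (.col (nat_lit 2)) (.col (nat_lit 0))) (.col (nat_lit 3)) (.node (.col (nat_lit 4)) (.slot (nat_lit 0)) (.slot (nat_lit 0)))) (.col (nat_lit 3))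
def l3473 : Root := .mk (.col (nat_lit 0)) (.col (nat_lit 1)) (.node (.node (.node (.node (.col (nat_lit 0)) (.col (nat_lit 1)) (.slot (nat_lit 2))) (.slot (nat_lit 1)) (.slot (nat_lit 1))) (.col (nat_lit 2)) (.col (nat_lit 0))) (.col (nat_lit 3)) (.slot (nat_lit 2))) (.col (nat_lit 3))
def w15748 : Root := .mk (.col (nat_lit 0)) (.col (nat_lit 1)) (.node (.node (.node (.node (.col (nat_lit 0)) (.col (nat_lit 1)) (.slot (nat_lit 2))) (.slot (nat_lit 1)) (.slot (nat_lit 1))) (.col (nat_lit 2)) (.slot (nat_lit 1))) (.col (nat_lit 3)) (.slot (nat_lit 2))) (.col (nat_lit 3))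
def w15749 : Root := .mk (.node (.node (.col (nat_lit 0)) (.col (nat_lit 1)) (.slot (nat_lit 3))) (.col (nat_lit 3)) (.slot (nat_lit 1))) (.node (.node (.col (nat_lit 0)) (.col (nat_lit 1)) (.slot (nat_lit 0))) (.slot (nat_lit 5)) (.slot (nat_lit 5))) (.col (nat_lit 2)) (.col (nat_lit 4))
def l3474 : Root := .mk (.col (nat_lit 0)) (.col (nat_lit 1)) (.node (.node (.node (.node (.col (nat_lit 0)) (.col (nat_lit 1)) (.slot (nat_lit 8))) (.slot (nat_lit 8)) (.slot (nat_lit 8))) (.col (nat_lit 2)) (.slot (nat_lit 1))) (.col (nat_lit 3)) (.slot (nat_lit 8))) (.slot (nat_lit 4))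
def w15750 : Root := .mk (.col (nat_lit 0)) (.col (nat_lit 1)) (.node (.node (.node (.node (.col (nat_lit 0)) (.col (nat_lit 1)) (.slot (nat_lit 8))) (.slot (nat_lit 8)) (.slot (nat_lit 8))) (.col (nat_lit 2)) (.slot (nat_lit 1))) (.slot (nat_lit 1)) (.slot (nat_lit 8))) (.slot (nat_lit 4))
def w15751 : Root := .mk (.col (nat_lit 0)) (.col (nat_lit 1)) (.node (.node (.node (.node (.col (nat_lit 0)) (.col (nat_lit 1)) (.slot (nat_lit 2))) (.slot (nat_lit 1)) (.slot (nat_lit 1))) (.node (.col (nat_lit 0)) (.slot (nat_lit 1)) (.slot (nat_lit 1))) (.slot (nat_lit 2))) (.slot (nat_lit 1)) (.slot (nat_lit 1))) (.slot (nat_lit 2))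
def w15752 : Root := .mk (.node (.node (.col (nat_lit 0)) (.col (nat_lit 1)) (.slot (nat_lit 1))) (.slot (nat_lit 2)) (.slot (nat_lit 2))) (.node (.node (.col (nat_lit 0)) (.col (nat_lit 1)) (.slot (nat_lit 0))) (.slot (nat_lit 1)) (.slot (nat_lit 1))) (.col (nat_lit 0)) (.col (nat_lit 2))
def l3475 : Root := .mk (.col (nat_lit 0)) (.col (nat_lit 1)) (.node (.node (.node (.node (.col (nat_lit 0)) (.col (nat_lit 1)) (.slot (nat_lit 3))) (.slot (nat_lit 8)) (.slot (nat_lit 8))) (.col (nat_lit 0)) (.slot (nat_lit 3))) (.slot (nat_lit 8)) (.slot (nat_lit 8))) (.slot (nat_lit 5))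
def w15753 : Root := .mk (.col (nat_lit 0)) (.col (nat_lit 1)) (.node (.node (.node (.node (.col (nat_lit 0)) (.col (nat_lit 1)) (.slot (nat_lit 3))) (.slot (nat_lit 8)) (.slot (nat_lit 8))) (.node (.slot (nat_lit 0)) (.slot (nat_lit 0)) (.slot (nat_lit 0))) (.slot (nat_lit 3))) (.slot (nat_lit 8)) (.slot (nat_lit 8))) (.slot (nat_lit 5))
def l3476 : Root := .mk (.node (.node (.node (.node (.col (nat_lit 0)) (.col (nat_lit 1)) (.slot (nat_lit 9))) (.slot (nat_lit 12)) (.slot (nat_lit 10))) (.slot (nat_lit 9)) (.slot (nat_lit 9))) (.slot (nat_lit 12)) (.slot (nat_lit 10))) (.col (nat_lit 0)) (.col (nat_lit 1)) (.slot (nat_lit 9))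
def w15754 : Root := .mk (.col (nat_lit 0)) (.col (nat_lit 1)) (.node (.node (.node (.node (.col (nat_lit 0)) (.node (.col (nat_lit 0)) (.slot (nat_lit 0)) (.slot (nat_lit 0))) (.slot (nat_lit 9))) (.slot (nat_lit 12)) (.slot (nat_lit 10))) (.slot (nat_lit 9)) (.slot (nat_lit 9))) (.slot (nat_lit 12)) (.slot (nat_lit 10))) (.slot (nat_lit 9))
def w15755 : Root := .mk (.col (nat_lit 0)) (.col (nat_lit 1)) (.node (.node (.node (.node (.col (nat_lit 0)) (.node (.col (nat_lit 1)) (.slot (nat_lit 1)) (.slot (nat_lit 1))) (.slot (nat_lit 1))) (.slot (nat_lit 1)) (.slot (nat_lit 1))) (.slot (nat_lit 3)) (.slot (nat_lit 1))) (.slot (nat_lit 1)) (.slot (nat_lit 1))) (.slot (nat_lit 3))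
def w15756 : Root := .mk (.col (nat_lit 0)) (.col (nat_lit 1)) (.node (.node (.node (.node (.col (nat_lit 0)) (.node (.col (nat_lit 2)) (.slot (nat_lit 0)) (.slot (nat_lit 0))) (.slot (nat_lit 9))) (.slot (nat_lit 12)) (.slot (nat_lit 10))) (.slot (nat_lit 9)) (.slot (nat_lit 9))) (.slot (nat_lit 12)) (.slot (nat_lit 10))) (.slot (nat_lit 9))
def w15757 : Root := .mk (.col (nat_lit 0)) (.col (nat_lit 1)) (.node (.node (.node (.node (.col (nat_lit 0)) (.node (.slot (nat_lit 0)) (.slot (nat_lit 0)) (.slot (nat_lit 0))) (.slot (nat_lit 9))) (.slot (nat_lit 12)) (.slot (nat_lit 10))) (.slot (nat_lit 9)) (.slot (nat_lit 9))) (.slot (nat_lit 12)) (.slot (nat_lit 10))) (.slot (nat_lit 9))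
def l3477 : Root := .mk (.col (nat_lit 0)) (.col (nat_lit 1)) (.node (.node (.node (.node (.col (nat_lit 0)) (.slot (nat_lit 16)) (.slot (nat_lit 16))) (.slot (nat_lit 16)) (.slot (nat_lit 15))) (.slot (nat_lit 17)) (.slot (nat_lit 15))) (.slot (nat_lit 17)) (.slot (nat_lit 16))) (.slot (nat_lit 9))
def w15758 : Root := .mk (.col (nat_lit 0)) (.col (nat_lit 1)) (.slot (nat_lit 20)) (.slot (nat_lit 9))
def l3478 : Root := .mk (.col (nat_lit 0)) (.col (nat_lit 1)) (.col (nat_lit 2)) (.node (.col (nat_lit 3)) (.slot (nat_lit 20)) (.slot (nat_lit 9)))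
def w15759 : Root := .mk (.col (nat_lit 0)) (.col (nat_lit 1)) (.col (nat_lit 2)) (.slot (nat_lit 21))
def w15760 : Root := .mk (.col (nat_lit 0)) (.col (nat_lit 1)) (.node (.col (nat_lit 0)) (.col (nat_lit 1)) (.slot (nat_lit 0))) (.node (.col (nat_lit 2)) (.slot (nat_lit 20)) (.slot (nat_lit 9)))
def w15761 : Root := .mk (.node .junk (.col (nat_lit 1)) (.node (.col (nat_lit 2)) (.node (.node .junk (.col (nat_lit 2)) (.col (nat_lit 1))) (.col (nat_lit 0)) (.node (.col (nat_lit 2)) (.slot (nat_lit 0)) (.slot (nat_lit 0)))) (.col (nat_lit 0)))) (.col (nat_lit 0)) (.col (nat_lit 2)) (.col (nat_lit 1))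
def w15762 : Root := .mk (.node (.col (nat_lit 0)) (.col (nat_lit 1)) (.node (.col (nat_lit 2)) (.node (.node (.slot (nat_lit 0)) (.col (nat_lit 2)) (.slot (nat_lit 0))) (.col (nat_lit 0)) (.node (.col (nat_lit 2)) (.node (.col (nat_lit 2)) (.slot (nat_lit 0)) (.slot (nat_lit 0))) (.slot (nat_lit 1)))) (.col (nat_lit 0)))) (.col (nat_lit 0)) (.col (nat_lit 2)) (.col (nat_lit 1))
def l3479 : Root := .mk (.node (.col (nat_lit 0)) (.col (nat_lit 1)) (.node (.col (nat_lit 2)) (.node (.node (.slot (nat_lit 0)) (.col (nat_lit 2)) (.slot (nat_lit 1))) (.col (nat_lit 0)) (.node (.col (nat_lit 2)) (.slot (nat_lit 5)) (.slot (nat_lit 5)))) (.col (nat_lit 0)))) (.col (nat_lit 0)) (.col (nat_lit 2)) (.col (nat_lit 1))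
def w15763 : Root := .mk (.node (.col (nat_lit 0)) (.col (nat_lit 1)) (.node (.col (nat_lit 2)) (.node (.node (.slot (nat_lit 0)) (.col (nat_lit 2)) (.slot (nat_lit 1))) (.col (nat_lit 0)) (.slot (nat_lit 6))) (.col (nat_lit 0)))) (.col (nat_lit 0)) (.col (nat_lit 2)) (.col (nat_lit 1))
def l3480 : Root := .mk (.node (.col (nat_lit 0)) (.col (nat_lit 1)) (.node (.col (nat_lit 2)) (.node (.node (.slot (nat_lit 0)) (.col (nat_lit 2)) (.slot (nat_lit 1))) (.col (nat_lit 0)) (.slot (nat_lit 6))) (.slot (nat_lit 3)))) (.col (nat_lit 0)) (.col (nat_lit 2)) (.col (nat_lit 1))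
def w15764 : Root := .mk (.node (.col (nat_lit 0)) (.col (nat_lit 1)) (.node (.col (nat_lit 2)) (.node (.node (.slot (nat_lit 0)) (.col (nat_lit 2)) (.slot (nat_lit 1))) (.slot (nat_lit 1)) (.slot (nat_lit 6))) (.slot (nat_lit 3)))) (.col (nat_lit 0)) (.col (nat_lit 2)) (.col (nat_lit 1))
def w15770 : Root := .mk (.node (.col (nat_lit 0)) (.col (nat_lit 1)) (.node (.col (nat_lit 2)) (.node (.node (.slot (nat_lit 0)) (.slot (nat_lit 0)) (.slot (nat_lit 0))) (.slot (nat_lit 2)) (.slot (nat_lit 2))) (.node (.node (.col (nat_lit 2)) (.node (.col (nat_lit 0)) (.col (nat_lit 2)) (.slot (nat_lit 3))) (.slot (nat_lit 1))) (.col (nat_lit 2)) (.slot (nat_lit 3))))) (.col (nat_lit 0)) (.col (nat_lit 2)) (.col (nat_lit 1))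
def l3482 : Root := .mk (.node (.col (nat_lit 0)) (.col (nat_lit 1)) (.node (.col (nat_lit 2)) (.node (.node (.slot (nat_lit 0)) (.slot (nat_lit 0)) (.slot (nat_lit 0))) (.slot (nat_lit 2)) (.slot (nat_lit 2))) (.node (.node (.col (nat_lit 2)) (.node (.col (nat_lit 0)) (.slot (nat_lit 3)) (.slot (nat_lit 3))) (.slot (nat_lit 2))) (.col (nat_lit 2)) (.slot (nat_lit 8))))) (.col (nat_lit 0)) (.col (nat_lit 2)) (.col (nat_lit 1))
def w15771 : Root := .mk (.node (.col (nat_lit 0)) (.col (nat_lit 1)) (.node (.col (nat_lit 2)) (.node (.node (.slot (nat_lit 0)) (.slot (nat_lit 0)) (.slot (nat_lit 0))) (.slot (nat_lit 2)) (.slot (nat_lit 2))) (.node (.node (.col (nat_lit 2)) (.slot (nat_lit 4)) (.slot (nat_lit 2))) (.col (nat_lit 2)) (.slot (nat_lit 8))))) (.col (nat_lit 0)) (.col (nat_lit 2)) (.col (nat_lit 1))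
def l3483 : Root := .mk (.node (.col (nat_lit 0)) (.col (nat_lit 1)) (.node (.col (nat_lit 2)) (.node (.node (.slot (nat_lit 0)) (.slot (nat_lit 0)) (.slot (nat_lit 0))) (.slot (nat_lit 2)) (.slot (nat_lit 2))) (.node (.node (.col (nat_lit 2)) (.slot (nat_lit 4)) (.slot (nat_lit 2))) (.slot (nat_lit 8)) (.slot (nat_lit 8))))) (.col (nat_lit 0)) (.col (nat_lit 2)) (.col (nat_lit 1))
def w15772 : Root := .mk (.node (.col (nat_lit 0)) (.col (nat_lit 1)) (.node (.col (nat_lit 2)) (.node (.node (.slot (nat_lit 0)) (.slot (nat_lit 0)) (.slot (nat_lit 0))) (.slot (nat_lit 2)) (.slot (nat_lit 2))) (.slot (nat_lit 9)))) (.col (nat_lit 0)) (.col (nat_lit 2)) (.col (nat_lit 1))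
def l3484 : Root := .mk (.col (nat_lit 0)) (.col (nat_lit 1)) (.node (.col (nat_lit 0)) (.col (nat_lit 2)) (.slot (nat_lit 2))) (.node (.col (nat_lit 2)) (.node (.node (.slot (nat_lit 0)) (.slot (nat_lit 0)) (.slot (nat_lit 0))) (.slot (nat_lit 2)) (.slot (nat_lit 2))) (.slot (nat_lit 9)))
def w15773 : Root := .mk (.col (nat_lit 0)) (.col (nat_lit 1)) (.node (.col (nat_lit 0)) (.slot (nat_lit 1)) (.slot (nat_lit 2))) (.node (.col (nat_lit 2)) (.node (.node (.slot (nat_lit 0)) (.slot (nat_lit 0)) (.slot (nat_lit 0))) (.slot (nat_lit 2)) (.slot (nat_lit 2))) (.slot (nat_lit 9)))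
def l3485 : Root := .mk (.col (nat_lit 0)) (.col (nat_lit 1)) (.node (.col (nat_lit 0)) (.slot (nat_lit 20)) (.slot (nat_lit 9))) (.node (.col (nat_lit 2)) (.slot (nat_lit 20)) (.slot (nat_lit 12)))
def w15774 : Root := .mk (.col (nat_lit 0)) (.col (nat_lit 1)) (.node (.col (nat_lit 0)) (.slot (nat_lit 20)) (.slot (nat_lit 9))) (.slot (nat_lit 21))
def l3486 : Root := .mk (.col (nat_lit 0)) (.col (nat_lit 1)) (.node (.slot (nat_lit 0)) (.node (.col (nat_lit 1)) (.col (nat_lit 0)) (.slot (nat_lit 6))) (.col (nat_lit 2))) (.slot (nat_lit 6))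
def w15775 : Root := .mk (.node (.node (.col (nat_lit 0)) (.col (nat_lit 1)) (.slot (nat_lit 6))) (.slot (nat_lit 0)) (.slot (nat_lit 1))) (.col (nat_lit 1)) (.col (nat_lit 0)) (.slot (nat_lit 6))
def l3488 : Root := .mk (.node (.node (.node (.col (nat_lit 0)) (.col (nat_lit 1)) (.slot (nat_lit 6))) (.slot (nat_lit 0)) (.slot (nat_lit 1))) (.col (nat_lit 1)) (.slot (nat_lit 6))) (.col (nat_lit 1)) (.node (.col (nat_lit 0)) (.slot (nat_lit 6)) (.slot (nat_lit 9))) (.node (.col (nat_lit 0)) (.slot (nat_lit 6)) (.slot (nat_lit 9)))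
def w15777 : Root := .mk (.col (nat_lit 0)) (.col (nat_lit 1)) (.node (.slot (nat_lit 0)) (.node (.node (.col (nat_lit 1)) (.node (.col (nat_lit 0)) (.slot (nat_lit 9)) (.slot (nat_lit 6))) (.slot (nat_lit 10))) (.col (nat_lit 1)) (.slot (nat_lit 6))) (.slot (nat_lit 1))) (.slot (nat_lit 6))
def w15784 : Root := .mk (.col (nat_lit 0)) (.col (nat_lit 1)) (.node (.slot (nat_lit 0)) (.slot (nat_lit 0)) (.slot (nat_lit 0))) (.node (.col (nat_lit 3)) (.slot (nat_lit 20)) (.slot (nat_lit 9)))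
def w15786 : Root := .mk (.col (nat_lit 0)) (.col (nat_lit 1)) (.node (.slot (nat_lit 0)) (.slot (nat_lit 0)) (.col (nat_lit 0))) (.node (.col (nat_lit 4)) (.slot (nat_lit 20)) (.slot (nat_lit 9)))
def w15790 : Root := .mk (.col (nat_lit 0)) (.col (nat_lit 1)) (.node (.slot (nat_lit 0)) (.node (.node (.node (.col (nat_lit 0)) (.slot (nat_lit 0)) (.col (nat_lit 2))) (.col (nat_lit 2)) .junk) (.col (nat_lit 0)) (.col (nat_lit 3))) (.slot (nat_lit 1))) (.col (nat_lit 3))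
def w15791 : Root := .mk (.col (nat_lit 0)) (.col (nat_lit 1)) (.node (.slot (nat_lit 0)) (.node (.node (.node (.col (nat_lit 0)) (.slot (nat_lit 0)) (.col (nat_lit 2))) (.col (nat_lit 2)) .junk) (.col (nat_lit 0)) (.col (nat_lit 3))) (.slot (nat_lit 1))) (.col (nat_lit 2))
def w15806 : Root := .mk (.node (.node (.slot (nat_lit 0)) (.slot (nat_lit 0)) (.slot (nat_lit 0))) (.slot (nat_lit 20)) (.slot (nat_lit 9))) (.col (nat_lit 0)) (.col (nat_lit 1)) (.col (nat_lit 2))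
def w15807 : Root := .mk (.node (.node (.col (nat_lit 0)) (.col (nat_lit 1)) (.slot (nat_lit 0))) (.slot (nat_lit 20)) (.slot (nat_lit 12))) (.col (nat_lit 0)) (.col (nat_lit 1)) (.node (.col (nat_lit 0)) (.slot (nat_lit 20)) (.slot (nat_lit 9)))
def l3495 : Root := .mk (.node (.node (.col (nat_lit 0)) (.col (nat_lit 1)) (.node (.slot (nat_lit 0)) (.node (.col (nat_lit 2)) (.slot (nat_lit 0)) (.slot (nat_lit 0))) (.col (nat_lit 2)))) (.slot (nat_lit 1)) (.slot (nat_lit 1))) (.col (nat_lit 0)) (.col (nat_lit 1)) (.col (nat_lit 3))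
def l3497 : Root := .mk (.col (nat_lit 0)) (.col (nat_lit 1)) (.node (.slot (nat_lit 0)) (.node (.slot (nat_lit 0)) (.slot (nat_lit 0)) (.slot (nat_lit 0))) (.slot (nat_lit 1))) (.node (.node (.col (nat_lit 0)) (.col (nat_lit 1)) (.slot (nat_lit 21))) (.slot (nat_lit 20)) (.slot (nat_lit 12)))
def w15810 : Root := .mk (.col (nat_lit 0)) (.col (nat_lit 1)) (.node (.slot (nat_lit 0)) (.node (.slot (nat_lit 0)) (.slot (nat_lit 0)) (.slot (nat_lit 0))) (.slot (nat_lit 1))) (.node (.node (.col (nat_lit 0)) (.slot (nat_lit 1)) (.slot (nat_lit 21))) (.slot (nat_lit 20)) (.slot (nat_lit 12)))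
def w15824 : Root := .mk (.node (.node (.slot (nat_lit 0)) (.slot (nat_lit 0)) (.slot (nat_lit 0))) (.slot (nat_lit 20)) (.slot (nat_lit 9))) (.node (.col (nat_lit 0)) (.node (.col (nat_lit 2)) (.slot (nat_lit 1)) (.slot (nat_lit 1))) (.slot (nat_lit 2))) (.col (nat_lit 0)) (.col (nat_lit 3))
def w15825 : Root := .mk (.node (.slot (nat_lit 0)) (.slot (nat_lit 0)) (.col (nat_lit 3))) (.col (nat_lit 0)) (.node (.col (nat_lit 2)) (.slot (nat_lit 20)) (.slot (nat_lit 12))) (.node (.col (nat_lit 0)) (.slot (nat_lit 20)) (.slot (nat_lit 9)))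
def w15827 : Root := .mk (.node (.node (.slot (nat_lit 0)) (.slot (nat_lit 0)) (.col (nat_lit 2))) (.col (nat_lit 1)) (.slot (nat_lit 1))) (.node (.col (nat_lit 0)) (.slot (nat_lit 0)) (.slot (nat_lit 0))) (.node (.col (nat_lit 1)) (.slot (nat_lit 1)) (.slot (nat_lit 2))) (.col (nat_lit 3))
def l3500 : Root := .mk (.node (.node (.node (.slot (nat_lit 0)) (.slot (nat_lit 0)) (.slot (nat_lit 0))) (.slot (nat_lit 1)) (.slot (nat_lit 1))) (.node (.col (nat_lit 1)) (.slot (nat_lit 3)) (.slot (nat_lit 1))) (.col (nat_lit 3))) (.col (nat_lit 0)) (.node (.col (nat_lit 2)) (.slot (nat_lit 1)) (.slot (nat_lit 1))) (.col (nat_lit 1))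
def w15828 : Root := .mk (.node (.node (.node (.slot (nat_lit 0)) (.slot (nat_lit 0)) (.slot (nat_lit 0))) (.slot (nat_lit 1)) (.slot (nat_lit 1))) (.node (.col (nat_lit 1)) (.slot (nat_lit 3)) (.slot (nat_lit 1))) (.col (nat_lit 3))) (.col (nat_lit 0)) (.node (.col (nat_lit 2)) (.slot (nat_lit 1)) (.slot (nat_lit 1))) (.node (.slot (nat_lit 0)) (.slot (nat_lit 0)) (.slot (nat_lit 0)))
def w15829 : Root := .mk (.node (.slot (nat_lit 0)) (.slot (nat_lit 0)) (.slot (nat_lit 0))) (.node (.col (nat_lit 0)) (.node (.col (nat_lit 2)) (.slot (nat_lit 1)) (.slot (nat_lit 1))) (.slot (nat_lit 3))) (.node (.col (nat_lit 1)) (.node (.col (nat_lit 0)) (.slot (nat_lit 0)) (.slot (nat_lit 0))) (.slot (nat_lit 1))) (.col (nat_lit 3))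
def w15834 : Root := .mk (.node (.node (.col (nat_lit 3)) (.slot (nat_lit 0)) (.slot (nat_lit 1))) (.col (nat_lit 1)) (.slot (nat_lit 1))) (.node (.col (nat_lit 0)) (.node (.col (nat_lit 2)) (.slot (nat_lit 1)) (.slot (nat_lit 1))) (.slot (nat_lit 2))) (.col (nat_lit 0)) (.slot (nat_lit 1))
def w15854 : Root := .mk (.node (.col (nat_lit 3)) (.slot (nat_lit 0)) (.node (.col (nat_lit 0)) (.slot (nat_lit 0)) (.slot (nat_lit 0)))) (.node (.node (.col (nat_lit 0)) (.slot (nat_lit 0)) (.slot (nat_lit 0))) (.node (.col (nat_lit 1)) (.slot (nat_lit 3)) (.slot (nat_lit 3))) (.slot (nat_lit 8))) (.col (nat_lit 4)) (.col (nat_lit 0))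
def w15858 : Root := .mk (.node (.col (nat_lit 3)) (.slot (nat_lit 0)) (.node (.col (nat_lit 4)) (.slot (nat_lit 0)) (.slot (nat_lit 0)))) (.node (.node (.col (nat_lit 0)) (.slot (nat_lit 0)) (.slot (nat_lit 0))) (.node (.col (nat_lit 1)) (.slot (nat_lit 3)) (.slot (nat_lit 3))) (.slot (nat_lit 8))) (.col (nat_lit 4)) (.col (nat_lit 0))
def w15866 : Root := .mk (.node (.node (.node (.col (nat_lit 3)) .junk (.col (nat_lit 0))) (.col (nat_lit 1)) (.slot (nat_lit 1))) (.node (.col (nat_lit 1)) (.slot (nat_lit 1)) (.slot (nat_lit 1))) (.slot (nat_lit 2))) (.col (nat_lit 0)) (.col (nat_lit 3)) (.slot (nat_lit 1))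
def w15870 : Root := .mk (.node (.col (nat_lit 3)) (.slot (nat_lit 0)) (.col (nat_lit 0))) (.node (.col (nat_lit 1)) (.node (.col (nat_lit 1)) (.slot (nat_lit 0)) (.slot (nat_lit 0))) (.slot (nat_lit 2))) (.col (nat_lit 2)) (.node (.col (nat_lit 1)) (.slot (nat_lit 1)) (.slot (nat_lit 1)))
def w15877 : Root := .mk (.node (.slot (nat_lit 0)) (.col (nat_lit 2)) (.slot (nat_lit 0))) (.node (.col (nat_lit 0)) (.node (.col (nat_lit 2)) (.slot (nat_lit 1)) (.slot (nat_lit 1))) (.slot (nat_lit 2))) (.node (.col (nat_lit 1)) (.slot (nat_lit 20)) (.slot (nat_lit 9))) (.node (.col (nat_lit 3)) (.slot (nat_lit 20)) (.slot (nat_lit 12)))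
def w15883 : Root := .mk (.node (.slot (nat_lit 0)) (.slot (nat_lit 0)) (.slot (nat_lit 0))) (.col (nat_lit 0)) (.node (.col (nat_lit 2)) (.slot (nat_lit 20)) (.slot (nat_lit 12))) (.node (.col (nat_lit 0)) (.slot (nat_lit 20)) (.slot (nat_lit 9)))
def w15884 : Root := .mk (.node (.slot (nat_lit 0)) (.slot (nat_lit 0)) (.slot (nat_lit 0))) (.col (nat_lit 0)) (.node (.col (nat_lit 2)) (.slot (nat_lit 20)) (.slot (nat_lit 12))) (.node (.col (nat_lit 1)) (.slot (nat_lit 20)) (.slot (nat_lit 9)))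
def w15887 : Root := .mk (.node (.col (nat_lit 3)) .junk (.col (nat_lit 0))) (.node (.node (.col (nat_lit 0)) (.node (.col (nat_lit 2)) (.slot (nat_lit 2)) (.slot (nat_lit 2))) (.slot (nat_lit 1))) (.node (.col (nat_lit 1)) (.slot (nat_lit 1)) (.slot (nat_lit 0))) (.slot (nat_lit 1))) (.col (nat_lit 4)) (.node (.col (nat_lit 2)) (.slot (nat_lit 0)) (.slot (nat_lit 0)))
def w15893 : Root := .mk (.node (.node (.col (nat_lit 3)) (.slot (nat_lit 0)) (.slot (nat_lit 0))) (.slot (nat_lit 20)) (.slot (nat_lit 9))) (.col (nat_lit 1)) (.col (nat_lit 0)) (.col (nat_lit 4))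
def w15905 : Root := .mk (.node (.node (.col (nat_lit 3)) (.slot (nat_lit 0)) (.slot (nat_lit 0))) (.slot (nat_lit 20)) (.slot (nat_lit 9))) (.col (nat_lit 3)) (.col (nat_lit 4)) (.col (nat_lit 0))
def l3515 : Root := .mk (.node (.node (.col (nat_lit 3)) (.slot (nat_lit 0)) (.slot (nat_lit 0))) (.slot (nat_lit 20)) (.slot (nat_lit 9))) (.col (nat_lit 3)) (.node (.col (nat_lit 1)) (.node (.col (nat_lit 2)) (.slot (nat_lit 0)) (.slot (nat_lit 0))) (.col (nat_lit 2))) (.col (nat_lit 0))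
def w15906 : Root := .mk (.node (.node (.node (.col (nat_lit 3)) (.slot (nat_lit 0)) (.slot (nat_lit 0))) (.slot (nat_lit 20)) (.slot (nat_lit 9))) (.col (nat_lit 3)) (.slot (nat_lit 1))) (.col (nat_lit 1)) (.node (.col (nat_lit 2)) (.slot (nat_lit 0)) (.slot (nat_lit 0))) (.col (nat_lit 2))
def w15921 : Root := .mk (.node (.node (.node (.slot (nat_lit 0)) (.slot (nat_lit 0)) (.slot (nat_lit 0))) (.node (.col (nat_lit 1)) (.node (.col (nat_lit 3)) (.slot (nat_lit 1)) (.slot (nat_lit 1))) (.slot (nat_lit 1))) (.slot (nat_lit 1))) (.col (nat_lit 0)) (.slot (nat_lit 2))) (.col (nat_lit 2)) (.node (.col (nat_lit 2)) (.slot (nat_lit 0)) (.slot (nat_lit 0))) (.slot (nat_lit 2))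
def w15927 : Root := .mk (.node (.node (.slot (nat_lit 0)) (.slot (nat_lit 0)) (.col (nat_lit 2))) (.col (nat_lit 1)) (.node (.col (nat_lit 2)) (.node (.slot (nat_lit 0)) (.slot (nat_lit 0)) (.slot (nat_lit 0))) (.slot (nat_lit 1)))) (.node (.col (nat_lit 0)) (.node (.col (nat_lit 2)) (.slot (nat_lit 0)) (.slot (nat_lit 0))) (.col (nat_lit 2))) (.col (nat_lit 2)) (.col (nat_lit 1))
def w15931 : Root := .mk (.node (.slot (nat_lit 0)) (.col (nat_lit 1)) (.slot (nat_lit 1))) (.node (.col (nat_lit 0)) (.node (.col (nat_lit 2)) (.slot (nat_lit 1)) (.slot (nat_lit 1))) (.slot (nat_lit 2))) (.node (.col (nat_lit 1)) (.slot (nat_lit 3)) (.slot (nat_lit 1))) (.node (.col (nat_lit 2)) (.slot (nat_lit 5)) (.slot (nat_lit 1)))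
def w15935 : Root := .mk (.node (.node (.slot (nat_lit 0)) (.col (nat_lit 1)) (.col (nat_lit 0))) (.node (.col (nat_lit 1)) (.slot (nat_lit 0)) (.slot (nat_lit 0))) (.node (.col (nat_lit 1)) (.slot (nat_lit 0)) (.slot (nat_lit 0)))) (.col (nat_lit 0)) (.col (nat_lit 3)) (.col (nat_lit 1))
def w15936 : Root := .mk (.node (.node (.slot (nat_lit 0)) (.col (nat_lit 1)) (.col (nat_lit 0))) (.node (.col (nat_lit 1)) (.slot (nat_lit 0)) (.slot (nat_lit 0))) (.node (.col (nat_lit 2)) (.slot (nat_lit 0)) (.slot (nat_lit 0)))) (.col (nat_lit 0)) (.col (nat_lit 3)) (.col (nat_lit 1))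
def l3524 : Root := .mk (.node (.node (.slot (nat_lit 0)) (.slot (nat_lit 0)) (.slot (nat_lit 0))) (.node (.col (nat_lit 0)) (.node (.col (nat_lit 2)) (.slot (nat_lit 20)) (.slot (nat_lit 12))) (.slot (nat_lit 21))) (.slot (nat_lit 3))) (.col (nat_lit 1)) (.node (.col (nat_lit 3)) (.slot (nat_lit 20)) (.slot (nat_lit 12))) (.slot (nat_lit 21))
def l3530 : Root := .mk (.node (.node (.slot (nat_lit 0)) (.slot (nat_lit 0)) (.col (nat_lit 0))) (.col (nat_lit 1)) (.col (nat_lit 0))) (.node (.col (nat_lit 0)) (.node (.col (nat_lit 2)) (.slot (nat_lit 3)) (.slot (nat_lit 3))) (.slot (nat_lit 4))) (.col (nat_lit 3)) (.col (nat_lit 1))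
def w15954 : Root := .mk (.node (.node (.col (nat_lit 0)) (.col (nat_lit 1)) (.node (.col (nat_lit 1)) (.slot (nat_lit 0)) (.slot (nat_lit 0)))) (.slot (nat_lit 0)) (.col (nat_lit 2))) (.node (.col (nat_lit 2)) (.node (.col (nat_lit 1)) (.slot (nat_lit 1)) (.slot (nat_lit 3))) (.col (nat_lit 1))) (.col (nat_lit 1)) (.col (nat_lit 0))
def w15967 : Root := .mk (.node (.slot (nat_lit 0)) (.slot (nat_lit 0)) (.slot (nat_lit 0))) (.node (.node (.col (nat_lit 0)) (.col (nat_lit 3)) (.slot (nat_lit 0))) (.node (.col (nat_lit 1)) (.slot (nat_lit 2)) (.slot (nat_lit 3))) (.slot (nat_lit 8))) (.col (nat_lit 1)) (.node (.col (nat_lit 2)) (.slot (nat_lit 7)) (.slot (nat_lit 5)))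
def w15968 : Root := .mk (.node (.node (.slot (nat_lit 0)) (.slot (nat_lit 0)) (.slot (nat_lit 0))) (.node (.col (nat_lit 1)) (.slot (nat_lit 21)) (.slot (nat_lit 21))) (.slot (nat_lit 3))) (.col (nat_lit 0)) (.node (.col (nat_lit 2)) (.slot (nat_lit 20)) (.slot (nat_lit 12))) (.slot (nat_lit 21))
def w15971 : Root := .mk (.col (nat_lit 0)) (.col (nat_lit 1)) (.node (.slot (nat_lit 0)) (.node (.node (.col (nat_lit 3)) (.slot (nat_lit 1)) (.slot (nat_lit 1))) (.col (nat_lit 2)) (.slot (nat_lit 2))) (.col (nat_lit 3))) (.slot (nat_lit 1))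
def l3540 : Root := .mk (.col (nat_lit 1)) (.node (.col (nat_lit 3)) (.col (nat_lit 0)) (.slot (nat_lit 1))) (.node (.col (nat_lit 3)) (.slot (nat_lit 1)) (.slot (nat_lit 1))) (.node (.col (nat_lit 3)) (.slot (nat_lit 1)) (.slot (nat_lit 1)))
def w15981 : Root := .mk (.node (.node (.col (nat_lit 2)) (.slot (nat_lit 0)) (.col (nat_lit 3))) (.node (.col (nat_lit 3)) (.slot (nat_lit 1)) (.slot (nat_lit 1))) (.node (.col (nat_lit 3)) (.slot (nat_lit 1)) (.slot (nat_lit 1)))) (.col (nat_lit 3)) (.col (nat_lit 0)) (.slot (nat_lit 1))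
def w15982 : Root := .mk (.node (.node (.col (nat_lit 2)) (.slot (nat_lit 0)) (.col (nat_lit 3))) (.node (.col (nat_lit 3)) (.slot (nat_lit 1)) (.slot (nat_lit 1))) (.node (.col (nat_lit 3)) (.slot (nat_lit 1)) (.slot (nat_lit 1)))) (.col (nat_lit 3)) (.col (nat_lit 2)) (.slot (nat_lit 1))
def w15983 : Root := .mk (.col (nat_lit 2)) (.slot (nat_lit 0)) (.node (.node (.col (nat_lit 3)) (.slot (nat_lit 0)) (.slot (nat_lit 1))) (.node (.col (nat_lit 3)) (.slot (nat_lit 7)) (.slot (nat_lit 5))) (.node (.col (nat_lit 3)) (.slot (nat_lit 7)) (.slot (nat_lit 5)))) (.col (nat_lit 3))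
def w15984 : Root := .mk (.col (nat_lit 2)) (.col (nat_lit 0)) (.node (.node (.col (nat_lit 3)) (.slot (nat_lit 0)) (.slot (nat_lit 0))) (.node (.col (nat_lit 3)) (.slot (nat_lit 1)) (.slot (nat_lit 0))) (.node (.col (nat_lit 3)) (.slot (nat_lit 1)) (.slot (nat_lit 1)))) (.col (nat_lit 3))
def w15989 : Root := .mk (.node (.node (.col (nat_lit 2)) (.slot (nat_lit 0)) (.col (nat_lit 3))) (.node (.col (nat_lit 3)) (.slot (nat_lit 1)) (.slot (nat_lit 1))) (.node (.col (nat_lit 3)) (.slot (nat_lit 1)) (.slot (nat_lit 1)))) (.node (.col (nat_lit 2)) (.slot (nat_lit 0)) (.slot (nat_lit 0))) (.col (nat_lit 2)) (.col (nat_lit 3))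
def w15992 : Root := .mk (.node (.node (.col (nat_lit 2)) (.slot (nat_lit 0)) (.col (nat_lit 3))) (.node (.col (nat_lit 3)) (.slot (nat_lit 1)) (.slot (nat_lit 0))) (.node (.col (nat_lit 3)) (.slot (nat_lit 1)) (.slot (nat_lit 1)))) (.col (nat_lit 0)) (.col (nat_lit 1)) (.col (nat_lit 3))
def w15993 : Root := .mk (.node (.node (.col (nat_lit 2)) (.slot (nat_lit 0)) (.col (nat_lit 3))) (.node (.col (nat_lit 3)) (.slot (nat_lit 1)) (.slot (nat_lit 1))) (.node (.col (nat_lit 3)) (.slot (nat_lit 1)) (.slot (nat_lit 1)))) (.col (nat_lit 0)) (.node (.col (nat_lit 0)) (.slot (nat_lit 0)) (.slot (nat_lit 0))) (.col (nat_lit 3))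
def w15994 : Root := .mk (.node (.node (.col (nat_lit 2)) (.slot (nat_lit 0)) (.col (nat_lit 3))) (.node (.col (nat_lit 3)) (.slot (nat_lit 1)) (.slot (nat_lit 1))) (.node (.col (nat_lit 3)) (.slot (nat_lit 1)) (.slot (nat_lit 1)))) (.col (nat_lit 0)) (.node (.col (nat_lit 3)) (.slot (nat_lit 0)) (.slot (nat_lit 0))) (.col (nat_lit 3))
def w15997 : Root := .mk (.node (.node (.col (nat_lit 2)) (.slot (nat_lit 0)) (.col (nat_lit 3))) (.node (.col (nat_lit 3)) (.col (nat_lit 0)) (.slot (nat_lit 2))) (.node (.col (nat_lit 3)) (.slot (nat_lit 0)) (.slot (nat_lit 0)))) (.col (nat_lit 0)) (.node (.slot (nat_lit 0)) (.slot (nat_lit 0)) (.slot (nat_lit 0))) (.col (nat_lit 3))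
def w15998 : Root := .mk (.node (.node (.col (nat_lit 2)) (.slot (nat_lit 0)) (.col (nat_lit 3))) (.node (.col (nat_lit 3)) (.col (nat_lit 1)) (.slot (nat_lit 1))) (.node (.col (nat_lit 3)) (.slot (nat_lit 1)) (.slot (nat_lit 1)))) (.col (nat_lit 0)) (.node (.slot (nat_lit 0)) (.slot (nat_lit 0)) (.slot (nat_lit 0))) (.col (nat_lit 3))
def w15999 : Root := .mk (.col (nat_lit 2)) (.slot (nat_lit 0)) (.node (.node (.col (nat_lit 3)) (.node (.slot (nat_lit 0)) (.slot (nat_lit 0)) (.slot (nat_lit 0))) (.slot (nat_lit 1))) (.node (.col (nat_lit 3)) (.node (.col (nat_lit 0)) (.slot (nat_lit 1)) (.slot (nat_lit 1))) (.slot (nat_lit 2))) (.node (.col (nat_lit 3)) (.slot (nat_lit 1)) (.slot (nat_lit 1)))) (.col (nat_lit 3))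
def w16000 : Root := .mk (.col (nat_lit 2)) (.slot (nat_lit 0)) (.node (.node (.col (nat_lit 3)) (.node (.slot (nat_lit 0)) (.slot (nat_lit 0)) (.slot (nat_lit 0))) (.slot (nat_lit 1))) (.node (.col (nat_lit 3)) (.node (.col (nat_lit 2)) (.slot (nat_lit 1)) (.slot (nat_lit 1))) (.slot (nat_lit 2))) (.node (.col (nat_lit 3)) (.slot (nat_lit 1)) (.slot (nat_lit 1)))) (.col (nat_lit 3))
def w16001 : Root := .mk (.col (nat_lit 2)) (.slot (nat_lit 0)) (.node (.node (.col (nat_lit 3)) (.node (.slot (nat_lit 0)) (.slot (nat_lit 0)) (.slot (nat_lit 0))) (.slot (nat_lit 1))) (.node (.col (nat_lit 3)) (.node (.col (nat_lit 3)) (.slot (nat_lit 0)) (.slot (nat_lit 0))) (.slot (nat_lit 2))) (.node (.col (nat_lit 3)) (.slot (nat_lit 1)) (.slot (nat_lit 1)))) (.col (nat_lit 3))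
def l3544 : Root := .mk (.col (nat_lit 2)) (.slot (nat_lit 0)) (.node (.node (.col (nat_lit 3)) (.node (.slot (nat_lit 0)) (.slot (nat_lit 0)) (.slot (nat_lit 0))) (.slot (nat_lit 1))) (.node (.col (nat_lit 3)) (.slot (nat_lit 7)) (.slot (nat_lit 5))) (.node (.col (nat_lit 3)) (.slot (nat_lit 7)) (.slot (nat_lit 5)))) (.col (nat_lit 3))
def w16005 : Root := .mk (.col (nat_lit 2)) (.slot (nat_lit 0)) (.node (.node (.slot (nat_lit 0)) (.slot (nat_lit 0)) (.slot (nat_lit 0))) (.node (.col (nat_lit 3)) (.node (.col (nat_lit 2)) (.slot (nat_lit 1)) (.slot (nat_lit 1))) (.slot (nat_lit 2))) (.node (.col (nat_lit 3)) (.slot (nat_lit 3)) (.slot (nat_lit 1)))) (.col (nat_lit 3))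
def w16006 : Root := .mk (.node (.col (nat_lit 2)) (.slot (nat_lit 0)) (.col (nat_lit 3))) (.col (nat_lit 0)) (.node (.col (nat_lit 3)) (.node (.col (nat_lit 3)) (.slot (nat_lit 0)) (.slot (nat_lit 0))) (.slot (nat_lit 2))) (.node (.col (nat_lit 3)) (.slot (nat_lit 1)) (.slot (nat_lit 1)))
def w16007 : Root := .mk (.node (.node (.col (nat_lit 2)) (.slot (nat_lit 0)) (.col (nat_lit 3))) (.node (.col (nat_lit 3)) (.slot (nat_lit 0)) (.slot (nat_lit 1))) (.node (.col (nat_lit 3)) (.slot (nat_lit 3)) (.slot (nat_lit 1)))) (.col (nat_lit 0)) (.col (nat_lit 3)) (.slot (nat_lit 5))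
def w16009 : Root := .mk (.node (.node (.col (nat_lit 2)) (.slot (nat_lit 0)) (.col (nat_lit 3))) (.node (.col (nat_lit 3)) (.slot (nat_lit 0)) (.slot (nat_lit 1))) (.node (.col (nat_lit 3)) (.slot (nat_lit 3)) (.slot (nat_lit 1)))) (.col (nat_lit 3)) (.col (nat_lit 2)) (.slot (nat_lit 5))
def w16010 : Root := .mk (.col (nat_lit 2)) (.slot (nat_lit 0)) (.node (.node (.col (nat_lit 3)) (.node (.col (nat_lit 0)) (.slot (nat_lit 1)) (.slot (nat_lit 1))) (.slot (nat_lit 2))) (.node (.col (nat_lit 3)) (.node (.col (nat_lit 3)) (.slot (nat_lit 0)) (.slot (nat_lit 0))) (.slot (nat_lit 2))) (.node (.col (nat_lit 3)) (.slot (nat_lit 1)) (.slot (nat_lit 1)))) (.col (nat_lit 3))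
def w16011 : Root := .mk (.col (nat_lit 2)) (.slot (nat_lit 0)) (.node (.node (.col (nat_lit 3)) (.node (.col (nat_lit 2)) (.slot (nat_lit 1)) (.slot (nat_lit 1))) (.slot (nat_lit 2))) (.node (.col (nat_lit 3)) (.node (.col (nat_lit 3)) (.slot (nat_lit 0)) (.slot (nat_lit 0))) (.slot (nat_lit 2))) (.node (.col (nat_lit 3)) (.slot (nat_lit 1)) (.slot (nat_lit 1)))) (.col (nat_lit 3))
def w16012 : Root := .mk (.col (nat_lit 0)) (.node (.col (nat_lit 3)) (.node (.col (nat_lit 3)) (.slot (nat_lit 0)) (.slot (nat_lit 0))) (.slot (nat_lit 2))) (.node (.col (nat_lit 3)) (.node (.col (nat_lit 3)) (.slot (nat_lit 0)) (.slot (nat_lit 0))) (.slot (nat_lit 2))) (.node (.col (nat_lit 3)) (.slot (nat_lit 0)) (.slot (nat_lit 0)))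
def l3545 : Root := .mk (.col (nat_lit 0)) (.node (.col (nat_lit 3)) (.node (.col (nat_lit 3)) (.slot (nat_lit 0)) (.slot (nat_lit 0))) (.slot (nat_lit 2))) (.node (.col (nat_lit 3)) (.node (.col (nat_lit 3)) (.slot (nat_lit 0)) (.slot (nat_lit 0))) (.slot (nat_lit 2))) (.node (.col (nat_lit 3)) (.slot (nat_lit 2)) (.slot (nat_lit 1)))
def w16013 : Root := .mk (.col (nat_lit 2)) (.slot (nat_lit 0)) (.node (.node (.col (nat_lit 3)) (.node (.col (nat_lit 3)) (.slot (nat_lit 0)) (.slot (nat_lit 0))) (.slot (nat_lit 2))) (.node (.col (nat_lit 3)) (.node (.col (nat_lit 3)) (.slot (nat_lit 0)) (.slot (nat_lit 0))) (.slot (nat_lit 2))) (.node (.col (nat_lit 3)) (.slot (nat_lit 2)) (.slot (nat_lit 1)))) (.col (nat_lit 3))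
def w16014 : Root := .mk (.node (.node (.col (nat_lit 2)) (.slot (nat_lit 0)) (.col (nat_lit 3))) (.node (.col (nat_lit 3)) (.slot (nat_lit 1)) (.slot (nat_lit 1))) (.node (.col (nat_lit 3)) (.slot (nat_lit 1)) (.slot (nat_lit 1)))) (.col (nat_lit 3)) (.node (.col (nat_lit 3)) (.slot (nat_lit 0)) (.slot (nat_lit 0))) (.col (nat_lit 2))
def w16015 : Root := .mk (.node (.node (.col (nat_lit 2)) (.slot (nat_lit 0)) (.col (nat_lit 3))) (.node (.col (nat_lit 3)) (.slot (nat_lit 7)) (.slot (nat_lit 5))) (.node (.col (nat_lit 3)) (.slot (nat_lit 7)) (.slot (nat_lit 5)))) (.col (nat_lit 3)) (.node (.col (nat_lit 3)) (.slot (nat_lit 0)) (.slot (nat_lit 0))) (.slot (nat_lit 0))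
def l3546 : Root := .mk (.col (nat_lit 2)) (.slot (nat_lit 0)) (.node (.node (.col (nat_lit 3)) (.slot (nat_lit 7)) (.slot (nat_lit 5))) (.node (.col (nat_lit 3)) (.node (.col (nat_lit 3)) (.slot (nat_lit 20)) (.slot (nat_lit 9))) (.slot (nat_lit 21))) (.node (.col (nat_lit 3)) (.slot (nat_lit 7)) (.slot (nat_lit 5)))) (.col (nat_lit 3))
def w16019 : Root := .mk (.node (.node (.slot (nat_lit 0)) (.slot (nat_lit 0)) (.slot (nat_lit 0))) (.slot (nat_lit 20)) (.slot (nat_lit 12))) (.col (nat_lit 2)) (.node (.col (nat_lit 3)) (.slot (nat_lit 20)) (.slot (nat_lit 9))) (.col (nat_lit 3))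
def w16041 : Root := .mk (.node (.node (.slot (nat_lit 0)) (.slot (nat_lit 0)) (.col (nat_lit 3))) (.col (nat_lit 1)) (.node (.col (nat_lit 3)) (.node (.col (nat_lit 3)) (.slot (nat_lit 0)) (.slot (nat_lit 0))) (.slot (nat_lit 1)))) (.col (nat_lit 3)) (.col (nat_lit 1)) (.node (.col (nat_lit 0)) (.col (nat_lit 1)) (.slot (nat_lit 1)))
def w16042 : Root := .mk (.node (.node (.slot (nat_lit 0)) (.slot (nat_lit 0)) (.col (nat_lit 3))) (.col (nat_lit 1)) (.node (.col (nat_lit 3)) (.node (.col (nat_lit 3)) (.slot (nat_lit 0)) (.slot (nat_lit 0))) (.slot (nat_lit 1)))) (.col (nat_lit 3)) (.col (nat_lit 1)) (.node (.col (nat_lit 0)) (.col (nat_lit 3)) (.slot (nat_lit 1)))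
def w16071 : Root := .mk (.col (nat_lit 1)) (.node (.node (.col (nat_lit 2)) (.slot (nat_lit 0)) (.slot (nat_lit 0))) (.slot (nat_lit 2)) (.slot (nat_lit 2))) (.node (.col (nat_lit 3)) (.node (.col (nat_lit 4)) (.slot (nat_lit 0)) (.slot (nat_lit 0))) (.node (.slot (nat_lit 0)) (.slot (nat_lit 0)) (.slot (nat_lit 0)))) (.col (nat_lit 0))
def w16077 : Root := .mk (.col (nat_lit 0)) (.col (nat_lit 1)) (.node .junk (.col (nat_lit 2)) (.slot (nat_lit 1))) (.node (.node (.node (.node (.col (nat_lit 2)) (.col (nat_lit 0)) (.slot (nat_lit 2))) (.slot (nat_lit 1)) (.slot (nat_lit 1))) (.slot (nat_lit 1)) (.slot (nat_lit 1))) (.col (nat_lit 1)) (.slot (nat_lit 2)))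
def w16078 : Root := .mk (.col (nat_lit 0)) (.col (nat_lit 1)) (.slot (nat_lit 0)) (.node (.node (.node (.node (.col (nat_lit 2)) (.col (nat_lit 0)) (.slot (nat_lit 2))) (.slot (nat_lit 1)) (.slot (nat_lit 1))) (.col (nat_lit 3)) (.slot (nat_lit 2))) (.col (nat_lit 1)) (.slot (nat_lit 1)))
def w16080 : Root := .mk (.node (.col (nat_lit 0)) (.col (nat_lit 1)) (.node (.slot (nat_lit 0)) (.slot (nat_lit 0)) (.slot (nat_lit 0)))) (.node (.node (.col (nat_lit 3)) (.slot (nat_lit 1)) (.slot (nat_lit 0))) (.node (.col (nat_lit 3)) (.slot (nat_lit 1)) (.slot (nat_lit 1))) (.slot (nat_lit 1))) (.col (nat_lit 3)) (.col (nat_lit 0))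
def w16091 : Root := .mk (.node (.slot (nat_lit 0)) (.col (nat_lit 4)) (.slot (nat_lit 0))) (.node (.node (.col (nat_lit 2)) (.node (.col (nat_lit 3)) (.slot (nat_lit 7)) (.slot (nat_lit 5))) (.slot (nat_lit 8))) (.slot (nat_lit 8)) (.slot (nat_lit 8))) (.node (.col (nat_lit 3)) (.node (.col (nat_lit 3)) (.slot (nat_lit 0)) (.slot (nat_lit 0))) (.slot (nat_lit 3))) (.col (nat_lit 0))
def l3567 : Root := .mk (.node (.col (nat_lit 2)) (.node (.col (nat_lit 0)) (.slot (nat_lit 7)) (.slot (nat_lit 5))) (.slot (nat_lit 8))) (.slot (nat_lit 0)) (.node (.node (.col (nat_lit 0)) (.slot (nat_lit 7)) (.slot (nat_lit 5))) (.col (nat_lit 2)) (.slot (nat_lit 8))) (.col (nat_lit 0))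
def w16111 : Root := .mk (.col (nat_lit 2)) (.node (.slot (nat_lit 0)) (.node (.node (.col (nat_lit 0)) (.slot (nat_lit 7)) (.slot (nat_lit 5))) (.col (nat_lit 2)) (.slot (nat_lit 8))) (.slot (nat_lit 1))) (.node (.col (nat_lit 0)) (.slot (nat_lit 7)) (.slot (nat_lit 5))) (.slot (nat_lit 8))
def l3568 : Root := .mk (.node (.col (nat_lit 3)) (.node (.col (nat_lit 0)) (.slot (nat_lit 7)) (.slot (nat_lit 5))) (.slot (nat_lit 8))) (.slot (nat_lit 0)) (.node (.node (.col (nat_lit 0)) (.slot (nat_lit 7)) (.slot (nat_lit 5))) (.col (nat_lit 2)) (.slot (nat_lit 8))) (.col (nat_lit 0))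
def w16112 : Root := .mk (.col (nat_lit 3)) (.node (.slot (nat_lit 0)) (.node (.node (.col (nat_lit 0)) (.slot (nat_lit 7)) (.slot (nat_lit 5))) (.col (nat_lit 2)) (.slot (nat_lit 8))) (.slot (nat_lit 1))) (.node (.col (nat_lit 0)) (.slot (nat_lit 7)) (.slot (nat_lit 5))) (.slot (nat_lit 8))
def w16135 : Root := .mk (.node (.node (.slot (nat_lit 0)) (.col (nat_lit 0)) (.slot (nat_lit 0))) (.slot (nat_lit 0)) (.col (nat_lit 0))) (.node (.col (nat_lit 0)) (.node (.col (nat_lit 1)) (.slot (nat_lit 3)) (.slot (nat_lit 3))) (.slot (nat_lit 2))) (.col (nat_lit 2)) (.node (.slot (nat_lit 0)) (.slot (nat_lit 0)) (.slot (nat_lit 0)))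
def w16149 : Root := .mk (.node (.node (.col (nat_lit 4)) (.slot (nat_lit 0)) (.col (nat_lit 0))) (.col (nat_lit 2)) (.node (.slot (nat_lit 0)) (.col (nat_lit 0)) (.col (nat_lit 2)))) (.col (nat_lit 0)) (.node (.col (nat_lit 1)) (.slot (nat_lit 0)) (.slot (nat_lit 0))) (.col (nat_lit 1))
def w16152 : Root := .mk (.col (nat_lit 3)) (.node (.slot (nat_lit 0)) (.node (.node (.col (nat_lit 0)) .junk (.col (nat_lit 1))) (.col (nat_lit 2)) (.node (.slot (nat_lit 0)) (.col (nat_lit 0)) (.col (nat_lit 2)))) (.col (nat_lit 0))) (.col (nat_lit 2)) (.node (.col (nat_lit 3)) (.slot (nat_lit 0)) (.slot (nat_lit 0)))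
def w16163 : Root := .mk (.col (nat_lit 3)) (.node (.slot (nat_lit 0)) (.node (.node (.col (nat_lit 0)) (.node (.col (nat_lit 3)) (.slot (nat_lit 0)) (.slot (nat_lit 0))) (.node (.col (nat_lit 4)) (.slot (nat_lit 0)) (.slot (nat_lit 0)))) (.col (nat_lit 2)) (.col (nat_lit 1))) (.col (nat_lit 0))) (.col (nat_lit 2)) (.col (nat_lit 0))
def l3577 : Root := .mk (.col (nat_lit 3)) (.node (.slot (nat_lit 0)) (.node (.node (.col (nat_lit 0)) (.node (.col (nat_lit 3)) (.slot (nat_lit 3)) (.slot (nat_lit 3))) (.slot (nat_lit 8))) (.col (nat_lit 2)) (.col (nat_lit 1))) (.col (nat_lit 0))) (.col (nat_lit 2)) (.col (nat_lit 0))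
def l3578 : Root := .mk (.node (.node (.col (nat_lit 3)) (.col (nat_lit 2)) (.node (.col (nat_lit 2)) (.slot (nat_lit 0)) (.slot (nat_lit 0)))) (.slot (nat_lit 0)) (.col (nat_lit 0))) (.node (.col (nat_lit 0)) (.node (.col (nat_lit 3)) (.slot (nat_lit 3)) (.slot (nat_lit 1))) (.slot (nat_lit 5))) (.col (nat_lit 2)) (.col (nat_lit 3))
def l3579 : Root := .mk (.node (.node (.col (nat_lit 3)) (.col (nat_lit 2)) (.node (.col (nat_lit 3)) (.slot (nat_lit 0)) (.slot (nat_lit 0)))) (.slot (nat_lit 0)) (.col (nat_lit 0))) (.node (.col (nat_lit 0)) (.node (.col (nat_lit 3)) (.slot (nat_lit 3)) (.slot (nat_lit 1))) (.slot (nat_lit 5))) (.col (nat_lit 2)) (.col (nat_lit 3))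
def l3580 : Root := .mk (.node (.node (.col (nat_lit 3)) (.col (nat_lit 2)) (.node (.slot (nat_lit 0)) (.slot (nat_lit 0)) (.slot (nat_lit 0)))) (.slot (nat_lit 0)) (.col (nat_lit 0))) (.node (.col (nat_lit 0)) (.node (.col (nat_lit 3)) (.slot (nat_lit 3)) (.slot (nat_lit 1))) (.slot (nat_lit 5))) (.col (nat_lit 2)) (.col (nat_lit 3))
def l3582 : Root := .mk (.node (.node (.col (nat_lit 4)) .junk (.col (nat_lit 1))) (.col (nat_lit 2)) (.node (.slot (nat_lit 0)) (.slot (nat_lit 0)) (.slot (nat_lit 0)))) (.col (nat_lit 0)) (.node (.col (nat_lit 3)) (.slot (nat_lit 20)) (.slot (nat_lit 9))) (.node (.col (nat_lit 3)) (.slot (nat_lit 20)) (.slot (nat_lit 9)))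
def w16169 : Root := .mk (.node (.col (nat_lit 4)) .junk (.col (nat_lit 1))) (.node (.col (nat_lit 0)) (.node (.col (nat_lit 3)) (.slot (nat_lit 20)) (.slot (nat_lit 9))) (.slot (nat_lit 21))) (.col (nat_lit 2)) (.node (.slot (nat_lit 0)) (.slot (nat_lit 0)) (.slot (nat_lit 0)))
def w16170 : Root := .mk (.node (.col (nat_lit 3)) .junk (.slot (nat_lit 1))) (.col (nat_lit 2)) (.node (.node (.col (nat_lit 0)) (.node (.col (nat_lit 3)) (.slot (nat_lit 1)) (.slot (nat_lit 1))) (.slot (nat_lit 2))) (.col (nat_lit 2)) (.node (.slot (nat_lit 0)) (.slot (nat_lit 0)) (.slot (nat_lit 0)))) (.col (nat_lit 1))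
def w16173 : Root := .mk (.col (nat_lit 3)) (.node (.slot (nat_lit 0)) (.node (.node (.col (nat_lit 0)) (.node (.col (nat_lit 3)) (.slot (nat_lit 1)) (.slot (nat_lit 0))) (.slot (nat_lit 5))) (.col (nat_lit 2)) (.node (.slot (nat_lit 0)) (.col (nat_lit 0)) (.col (nat_lit 2)))) (.col (nat_lit 0))) (.col (nat_lit 2)) (.slot (nat_lit 3))
def w16174 : Root := .mk (.col (nat_lit 3)) (.node (.slot (nat_lit 0)) (.node (.node (.col (nat_lit 0)) (.node (.col (nat_lit 3)) (.slot (nat_lit 3)) (.slot (nat_lit 3))) (.slot (nat_lit 8))) (.col (nat_lit 2)) (.node (.slot (nat_lit 0)) (.col (nat_lit 0)) (.col (nat_lit 2)))) (.col (nat_lit 0))) (.col (nat_lit 2)) (.col (nat_lit 0))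
def w16175 : Root := .mk (.col (nat_lit 3)) (.node (.slot (nat_lit 0)) (.node (.node (.col (nat_lit 0)) (.node (.col (nat_lit 3)) (.slot (nat_lit 3)) (.slot (nat_lit 1))) (.slot (nat_lit 5))) (.col (nat_lit 2)) (.node (.slot (nat_lit 0)) (.col (nat_lit 0)) (.col (nat_lit 2)))) (.col (nat_lit 0))) (.col (nat_lit 2)) (.node (.col (nat_lit 2)) (.slot (nat_lit 0)) (.slot (nat_lit 0)))
def w16176 : Root := .mk (.col (nat_lit 3)) (.node (.slot (nat_lit 0)) (.node (.node (.col (nat_lit 0)) (.node (.col (nat_lit 3)) (.slot (nat_lit 3)) (.slot (nat_lit 1))) (.slot (nat_lit 5))) (.col (nat_lit 2)) (.node (.slot (nat_lit 0)) (.col (nat_lit 0)) (.col (nat_lit 2)))) (.col (nat_lit 0))) (.col (nat_lit 2)) (.node (.col (nat_lit 3)) (.slot (nat_lit 0)) (.slot (nat_lit 0)))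
def w16177 : Root := .mk (.col (nat_lit 3)) (.node (.slot (nat_lit 0)) (.node (.node (.col (nat_lit 0)) (.node (.col (nat_lit 3)) (.slot (nat_lit 3)) (.slot (nat_lit 1))) (.slot (nat_lit 5))) (.col (nat_lit 2)) (.node (.slot (nat_lit 0)) (.col (nat_lit 0)) (.col (nat_lit 2)))) (.col (nat_lit 0))) (.col (nat_lit 2)) (.node (.slot (nat_lit 0)) (.slot (nat_lit 0)) (.slot (nat_lit 0)))
def w16178 : Root := .mk (.node (.slot (nat_lit 0)) (.col (nat_lit 2)) (.slot (nat_lit 0))) (.col (nat_lit 0)) (.node (.col (nat_lit 3)) (.slot (nat_lit 20)) (.slot (nat_lit 12))) (.node (.col (nat_lit 1)) (.slot (nat_lit 20)) (.slot (nat_lit 9)))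
def w16179 : Root := .mk (.node (.slot (nat_lit 0)) (.col (nat_lit 2)) (.slot (nat_lit 0))) (.col (nat_lit 0)) (.node (.col (nat_lit 3)) (.slot (nat_lit 20)) (.slot (nat_lit 9))) (.node (.col (nat_lit 2)) (.slot (nat_lit 20)) (.slot (nat_lit 12)))
def l3584 : Root := .mk (.node (.node (.node (.col (nat_lit 3)) (.col (nat_lit 2)) (.slot (nat_lit 6))) (.slot (nat_lit 0)) (.col (nat_lit 0))) (.col (nat_lit 2)) (.node (.slot (nat_lit 0)) (.col (nat_lit 0)) (.col (nat_lit 2)))) (.col (nat_lit 0)) (.node (.col (nat_lit 3)) (.slot (nat_lit 1)) (.slot (nat_lit 1))) (.col (nat_lit 1))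
def w16180 : Root := .mk (.node (.node (.node (.col (nat_lit 3)) (.col (nat_lit 2)) (.slot (nat_lit 6))) (.slot (nat_lit 0)) (.col (nat_lit 0))) (.col (nat_lit 2)) (.node (.slot (nat_lit 0)) (.col (nat_lit 0)) (.col (nat_lit 2)))) (.col (nat_lit 0)) (.node (.col (nat_lit 3)) (.slot (nat_lit 1)) (.slot (nat_lit 1))) (.node (.slot (nat_lit 0)) (.slot (nat_lit 0)) (.slot (nat_lit 0)))
def w16181 : Root := .mk (.node (.node (.col (nat_lit 3)) (.col (nat_lit 2)) (.slot (nat_lit 1))) (.slot (nat_lit 0)) (.col (nat_lit 0))) (.node (.col (nat_lit 0)) (.slot (nat_lit 0)) (.slot (nat_lit 0))) (.col (nat_lit 2)) (.node (.col (nat_lit 3)) (.col (nat_lit 0)) .junk)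
def w16182 : Root := .mk (.node (.node (.node (.node (.col (nat_lit 3)) (.col (nat_lit 2)) (.slot (nat_lit 6))) (.slot (nat_lit 0)) (.col (nat_lit 0))) (.col (nat_lit 2)) (.node (.slot (nat_lit 0)) (.col (nat_lit 0)) (.col (nat_lit 2)))) (.col (nat_lit 0)) (.slot (nat_lit 1))) (.col (nat_lit 3)) (.col (nat_lit 0)) (.slot (nat_lit 1))
def l3585 : Root := .mk (.col (nat_lit 3)) (.node (.slot (nat_lit 0)) (.node (.node (.col (nat_lit 0)) (.node (.col (nat_lit 3)) (.slot (nat_lit 20)) (.slot (nat_lit 12))) (.slot (nat_lit 21))) (.col (nat_lit 2)) (.node (.slot (nat_lit 0)) (.col (nat_lit 0)) (.col (nat_lit 2)))) (.col (nat_lit 0))) (.col (nat_lit 2)) (.slot (nat_lit 6))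
def w16183 : Root := .mk (.node (.node (.node (.col (nat_lit 3)) (.col (nat_lit 2)) (.slot (nat_lit 6))) (.slot (nat_lit 0)) (.slot (nat_lit 1))) (.node (.col (nat_lit 0)) (.node (.col (nat_lit 3)) (.slot (nat_lit 20)) (.slot (nat_lit 12))) (.slot (nat_lit 21))) (.col (nat_lit 2))) (.slot (nat_lit 0)) (.col (nat_lit 0)) (.col (nat_lit 2))
def w16208 : Root := .mk (.node (.node (.node (.col (nat_lit 3)) (.col (nat_lit 2)) (.slot (nat_lit 6))) (.slot (nat_lit 0)) (.col (nat_lit 1))) (.col (nat_lit 2)) (.slot (nat_lit 6))) (.col (nat_lit 0)) (.col (nat_lit 2)) (.col (nat_lit 4))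
def w16213 : Root := .mk (.node (.node (.node (.col (nat_lit 0)) (.col (nat_lit 1)) (.slot (nat_lit 2))) (.slot (nat_lit 1)) (.slot (nat_lit 1))) (.slot (nat_lit 0)) (.col (nat_lit 1))) (.col (nat_lit 4)) (.col (nat_lit 3)) (.node (.col (nat_lit 4)) (.slot (nat_lit 0)) (.slot (nat_lit 0)))
def l3597 : Root := .mk (.node (.node (.node (.col (nat_lit 2)) (.node (.slot (nat_lit 0)) (.slot (nat_lit 0)) (.slot (nat_lit 0))) (.slot (nat_lit 8))) (.col (nat_lit 0)) (.slot (nat_lit 8))) (.slot (nat_lit 8)) (.slot (nat_lit 5))) (.col (nat_lit 1)) (.col (nat_lit 0)) (.slot (nat_lit 9))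
def w16233 : Root := .mk (.node (.node (.node (.col (nat_lit 2)) (.node (.slot (nat_lit 0)) (.slot (nat_lit 0)) (.slot (nat_lit 0))) (.slot (nat_lit 8))) (.slot (nat_lit 1)) (.slot (nat_lit 8))) (.slot (nat_lit 8)) (.slot (nat_lit 5))) (.col (nat_lit 1)) (.col (nat_lit 0)) (.slot (nat_lit 9))
def w16240 : Root := .mk (.node (.node (.slot (nat_lit 0)) (.col (nat_lit 1)) (.slot (nat_lit 0))) (.slot (nat_lit 20)) (.slot (nat_lit 12))) (.col (nat_lit 1)) (.node (.col (nat_lit 2)) (.slot (nat_lit 20)) (.slot (nat_lit 9))) (.col (nat_lit 2))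
def l3612 : Root := .mk (.node (.node (.col (nat_lit 2)) (.node (.slot (nat_lit 0)) (.slot (nat_lit 1)) (.slot (nat_lit 1))) (.slot (nat_lit 3))) (.col (nat_lit 1)) (.node (.col (nat_lit 2)) (.slot (nat_lit 7)) (.slot (nat_lit 5)))) (.node (.col (nat_lit 2)) (.node (.slot (nat_lit 0)) (.col (nat_lit 0)) (.col (nat_lit 2))) (.node (.slot (nat_lit 0)) (.slot (nat_lit 1)) (.slot (nat_lit 1)))) (.col (nat_lit 2)) (.col (nat_lit 1))
def w16269 : Root := .mk (.node (.slot (nat_lit 0)) (.col (nat_lit 1)) (.slot (nat_lit 0))) (.node (.col (nat_lit 2)) (.node (.node .junk (.col (nat_lit 3)) (.slot (nat_lit 1))) (.col (nat_lit 0)) (.col (nat_lit 2))) (.node (.col (nat_lit 1)) (.slot (nat_lit 1)) (.slot (nat_lit 1)))) (.col (nat_lit 2)) (.col (nat_lit 1))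
def w16271 : Root := .mk (.slot (nat_lit 0)) (.node (.col (nat_lit 2)) (.node (.node .junk (.col (nat_lit 3)) (.slot (nat_lit 1))) (.col (nat_lit 0)) (.col (nat_lit 2))) (.node (.col (nat_lit 4)) (.slot (nat_lit 20)) (.slot (nat_lit 9)))) (.col (nat_lit 2)) (.col (nat_lit 1))
def l3615 : Root := .mk (.node (.col (nat_lit 2)) (.node (.slot (nat_lit 0)) (.col (nat_lit 1)) (.slot (nat_lit 2))) (.node (.col (nat_lit 1)) (.slot (nat_lit 7)) (.slot (nat_lit 5)))) (.col (nat_lit 1)) (.node (.node .junk (.col (nat_lit 4)) (.node (.slot (nat_lit 0)) (.slot (nat_lit 0)) (.slot (nat_lit 0)))) (.col (nat_lit 2)) (.col (nat_lit 1))) (.col (nat_lit 2))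
def w16278 : Root := .mk (.node (.node (.col (nat_lit 2)) (.node (.slot (nat_lit 0)) (.col (nat_lit 1)) (.slot (nat_lit 2))) (.slot (nat_lit 8))) (.col (nat_lit 1)) (.col (nat_lit 2))) (.node .junk (.col (nat_lit 4)) (.node (.slot (nat_lit 0)) (.slot (nat_lit 0)) (.slot (nat_lit 0)))) (.col (nat_lit 2)) (.col (nat_lit 1))
def w16280 : Root := .mk (.node (.node (.col (nat_lit 2)) (.node (.slot (nat_lit 0)) (.slot (nat_lit 1)) (.slot (nat_lit 1))) (.slot (nat_lit 3))) (.col (nat_lit 1)) (.slot (nat_lit 8))) (.node (.col (nat_lit 2)) (.node (.slot (nat_lit 0)) (.col (nat_lit 0)) (.col (nat_lit 2))) (.node (.slot (nat_lit 0)) (.slot (nat_lit 1)) (.slot (nat_lit 1)))) (.col (nat_lit 2)) (.col (nat_lit 1))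
def w16282 : Root := .mk (.node (.node (.node (.col (nat_lit 2)) (.node (.slot (nat_lit 0)) (.slot (nat_lit 0)) (.slot (nat_lit 0))) (.slot (nat_lit 1))) (.col (nat_lit 1)) (.slot (nat_lit 2))) (.node (.col (nat_lit 1)) (.slot (nat_lit 0)) (.slot (nat_lit 0))) (.node (.col (nat_lit 0)) (.slot (nat_lit 1)) (.slot (nat_lit 0)))) (.col (nat_lit 2)) (.node (.slot (nat_lit 0)) (.slot (nat_lit 0)) (.slot (nat_lit 0))) (.col (nat_lit 0))
def w16287 : Root := .mk (.node (.node (.node (.col (nat_lit 2)) (.node (.slot (nat_lit 0)) (.slot (nat_lit 0)) (.slot (nat_lit 0))) (.slot (nat_lit 1))) (.col (nat_lit 1)) (.slot (nat_lit 2))) (.node (.col (nat_lit 1)) (.col (nat_lit 2)) (.slot (nat_lit 2))) (.slot (nat_lit 1))) (.col (nat_lit 2)) (.slot (nat_lit 0)) (.col (nat_lit 0))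
def w16319 : Root := .mk (.col (nat_lit 2)) (.node (.slot (nat_lit 0)) (.col (nat_lit 1)) (.col (nat_lit 2))) (.node (.col (nat_lit 1)) (.node (.col (nat_lit 0)) (.node (.col (nat_lit 0)) (.slot (nat_lit 0)) (.slot (nat_lit 0))) (.slot (nat_lit 2))) (.slot (nat_lit 2))) (.col (nat_lit 3))
def w16366 : Root := .mk (.node (.node (.col (nat_lit 3)) (.col (nat_lit 1)) (.slot (nat_lit 3))) (.node (.col (nat_lit 1)) (.slot (nat_lit 3)) (.slot (nat_lit 1))) (.node (.col (nat_lit 3)) (.slot (nat_lit 3)) (.slot (nat_lit 1)))) (.col (nat_lit 2)) (.slot (nat_lit 0)) (.col (nat_lit 3))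
def w16375 : Root := .mk (.node (.node (.col (nat_lit 4)) (.col (nat_lit 1)) (.slot (nat_lit 0))) (.node (.col (nat_lit 1)) (.slot (nat_lit 0)) (.slot (nat_lit 0))) (.node (.col (nat_lit 3)) (.col (nat_lit 1)) (.slot (nat_lit 0)))) (.col (nat_lit 2)) (.col (nat_lit 1)) (.col (nat_lit 3))
def w16379 : Root := .mk (.node (.node (.col (nat_lit 4)) (.col (nat_lit 1)) (.slot (nat_lit 0))) (.slot (nat_lit 0)) (.node (.col (nat_lit 3)) (.col (nat_lit 1)) (.slot (nat_lit 6)))) (.col (nat_lit 1)) (.col (nat_lit 3)) (.slot (nat_lit 6))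
def w16414 : Root := .mk (.node (.node (.slot (nat_lit 0)) (.col (nat_lit 3)) (.slot (nat_lit 0))) (.col (nat_lit 2)) (.node (.col (nat_lit 0)) (.slot (nat_lit 7)) (.slot (nat_lit 5)))) (.node (.col (nat_lit 2)) (.col (nat_lit 0)) (.slot (nat_lit 0))) (.col (nat_lit 0)) (.col (nat_lit 2))
def w16420 : Root := .mk (.node (.col (nat_lit 2)) (.node (.slot (nat_lit 0)) (.col (nat_lit 0)) (.slot (nat_lit 0))) (.slot (nat_lit 1))) (.col (nat_lit 1)) (.node (.node (.col (nat_lit 2)) (.slot (nat_lit 0)) (.slot (nat_lit 0))) (.col (nat_lit 2)) (.slot (nat_lit 2))) (.node (.col (nat_lit 1)) (.slot (nat_lit 0)) (.slot (nat_lit 0)))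
def w16441 : Root := .mk (.node (.node (.slot (nat_lit 0)) (.col (nat_lit 0)) (.col (nat_lit 2))) (.slot (nat_lit 20)) (.slot (nat_lit 12))) (.col (nat_lit 0)) (.node (.col (nat_lit 1)) (.slot (nat_lit 20)) (.slot (nat_lit 9))) (.col (nat_lit 1))
def w16447 : Root := .mk (.node (.node (.col (nat_lit 1)) (.slot (nat_lit 0)) (.slot (nat_lit 1))) (.col (nat_lit 0)) (.col (nat_lit 2))) (.node (.col (nat_lit 0)) (.node (.col (nat_lit 3)) (.slot (nat_lit 1)) (.slot (nat_lit 2))) (.node (.slot (nat_lit 0)) (.slot (nat_lit 1)) (.slot (nat_lit 0)))) (.col (nat_lit 1)) (.col (nat_lit 0))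
def l3664 : Root := .mk (.node (.col (nat_lit 1)) (.slot (nat_lit 0)) (.slot (nat_lit 1))) (.col (nat_lit 0)) (.node (.node (.col (nat_lit 0)) (.node (.col (nat_lit 3)) (.slot (nat_lit 2)) (.slot (nat_lit 1))) (.node (.slot (nat_lit 0)) (.slot (nat_lit 1)) (.slot (nat_lit 0)))) (.col (nat_lit 1)) (.slot (nat_lit 2))) (.col (nat_lit 2))
def w16448 : Root := .mk (.node (.col (nat_lit 1)) (.slot (nat_lit 0)) (.slot (nat_lit 1))) (.col (nat_lit 0)) (.node (.node (.col (nat_lit 0)) (.node (.col (nat_lit 3)) (.slot (nat_lit 2)) (.slot (nat_lit 1))) (.node (.slot (nat_lit 0)) (.slot (nat_lit 1)) (.slot (nat_lit 0)))) (.slot (nat_lit 1)) (.slot (nat_lit 2))) (.col (nat_lit 2))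
def w16457 : Root := .mk (.col (nat_lit 2)) (.node (.slot (nat_lit 0)) (.node (.col (nat_lit 0)) (.node (.col (nat_lit 2)) (.slot (nat_lit 1)) (.slot (nat_lit 1))) (.slot (nat_lit 2))) (.col (nat_lit 1))) (.col (nat_lit 3)) (.slot (nat_lit 1))
def w16463 : Root := .mk (.node (.node (.node (.slot (nat_lit 0)) (.slot (nat_lit 0)) (.col (nat_lit 1))) (.col (nat_lit 0)) (.slot (nat_lit 1))) (.col (nat_lit 3)) (.node (.col (nat_lit 0)) (.node (.col (nat_lit 0)) (.slot (nat_lit 0)) (.slot (nat_lit 0))) (.slot (nat_lit 2)))) (.col (nat_lit 0)) (.slot (nat_lit 0)) (.col (nat_lit 3))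
def w16464 : Root := .mk (.node (.node (.node (.slot (nat_lit 0)) (.slot (nat_lit 0)) (.col (nat_lit 1))) (.col (nat_lit 0)) (.slot (nat_lit 1))) (.col (nat_lit 3)) (.node (.col (nat_lit 0)) (.node (.slot (nat_lit 0)) (.slot (nat_lit 0)) (.slot (nat_lit 0))) (.slot (nat_lit 2)))) (.col (nat_lit 0)) (.slot (nat_lit 0)) (.col (nat_lit 3))
def w16473 : Root := .mk (.node (.node (.col (nat_lit 2)) (.node (.col (nat_lit 1)) (.slot (nat_lit 7)) (.slot (nat_lit 5))) (.slot (nat_lit 8))) (.slot (nat_lit 0)) (.node (.col (nat_lit 0)) (.slot (nat_lit 0)) (.slot (nat_lit 0)))) (.node (.col (nat_lit 3)) (.slot (nat_lit 1)) (.slot (nat_lit 1))) (.col (nat_lit 4)) (.slot (nat_lit 2))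
def w16477 : Root := .mk (.node (.node (.col (nat_lit 2)) (.node (.col (nat_lit 1)) (.slot (nat_lit 3)) (.slot (nat_lit 1))) (.slot (nat_lit 1))) (.slot (nat_lit 0)) (.col (nat_lit 4))) (.node (.col (nat_lit 3)) (.slot (nat_lit 1)) (.slot (nat_lit 1))) (.col (nat_lit 0)) (.slot (nat_lit 2))
def l3671 : Root := .mk (.node (.node (.node (.slot (nat_lit 0)) (.slot (nat_lit 0)) (.col (nat_lit 0))) (.col (nat_lit 0)) (.col (nat_lit 2))) (.slot (nat_lit 20)) (.slot (nat_lit 9))) (.node (.col (nat_lit 1)) (.slot (nat_lit 20)) (.slot (nat_lit 9))) (.col (nat_lit 0)) (.col (nat_lit 2))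
def l3678 : Root := .mk (.node (.node (.node (.col (nat_lit 4)) (.slot (nat_lit 0)) (.slot (nat_lit 1))) (.col (nat_lit 0)) (.col (nat_lit 1))) (.slot (nat_lit 5)) (.slot (nat_lit 1))) (.col (nat_lit 3)) (.col (nat_lit 2)) (.node (.col (nat_lit 4)) (.slot (nat_lit 20)) (.slot (nat_lit 9)))
def w16497 : Root := .mk (.node (.col (nat_lit 4)) (.slot (nat_lit 0)) (.slot (nat_lit 1))) (.col (nat_lit 0)) (.node (.node (.col (nat_lit 3)) (.col (nat_lit 2)) (.slot (nat_lit 21))) (.slot (nat_lit 5)) (.slot (nat_lit 1))) (.col (nat_lit 1))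
def w16499 : Root := .mk (.node (.col (nat_lit 4)) (.slot (nat_lit 0)) (.slot (nat_lit 0))) (.col (nat_lit 0)) (.node (.col (nat_lit 0)) (.slot (nat_lit 20)) (.slot (nat_lit 9))) (.node (.col (nat_lit 4)) (.slot (nat_lit 20)) (.slot (nat_lit 12)))
def l3683 : Root := .mk (.node (.node (.col (nat_lit 2)) (.col (nat_lit 0)) (.node (.node (.col (nat_lit 2)) (.slot (nat_lit 0)) (.slot (nat_lit 0))) (.col (nat_lit 1)) (.col (nat_lit 2)))) .junk (.col (nat_lit 4))) (.col (nat_lit 0)) (.col (nat_lit 2)) (.col (nat_lit 3))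
def l3684 : Root := .mk (.node (.col (nat_lit 2)) (.node (.slot (nat_lit 0)) (.slot (nat_lit 0)) (.slot (nat_lit 0))) (.node (.node (.col (nat_lit 3)) (.slot (nat_lit 1)) (.slot (nat_lit 1))) (.col (nat_lit 4)) (.slot (nat_lit 2)))) (.col (nat_lit 2)) (.col (nat_lit 1)) (.node (.col (nat_lit 0)) (.slot (nat_lit 20)) (.slot (nat_lit 9)))
def w16535 : Root := .mk (.col (nat_lit 2)) (.node (.slot (nat_lit 0)) (.slot (nat_lit 0)) (.slot (nat_lit 0))) (.node (.col (nat_lit 2)) (.col (nat_lit 1)) (.slot (nat_lit 21))) (.node (.node (.col (nat_lit 3)) (.slot (nat_lit 1)) (.slot (nat_lit 1))) (.col (nat_lit 4)) (.slot (nat_lit 2)))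
def w16560 : Root := .mk (.node (.col (nat_lit 2)) (.node (.node (.col (nat_lit 2)) (.col (nat_lit 4)) .junk) (.col (nat_lit 0)) (.slot (nat_lit 1))) (.slot (nat_lit 1))) (.slot (nat_lit 0)) (.col (nat_lit 3)) (.col (nat_lit 1))
def l3691 : Root := .mk (.node (.node (.col (nat_lit 2)) (.node (.slot (nat_lit 0)) (.col (nat_lit 3)) (.col (nat_lit 1))) (.slot (nat_lit 1))) (.col (nat_lit 3)) (.slot (nat_lit 1))) (.col (nat_lit 2)) (.node (.slot (nat_lit 0)) (.slot (nat_lit 0)) (.slot (nat_lit 0))) (.col (nat_lit 0))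
def w16562 : Root := .mk (.node (.node (.col (nat_lit 2)) (.node (.slot (nat_lit 0)) (.col (nat_lit 3)) (.col (nat_lit 1))) (.slot (nat_lit 1))) (.node (.col (nat_lit 1)) (.slot (nat_lit 0)) (.slot (nat_lit 0))) (.slot (nat_lit 1))) (.col (nat_lit 2)) (.node (.slot (nat_lit 0)) (.slot (nat_lit 0)) (.slot (nat_lit 0))) (.col (nat_lit 0))
def w16564 : Root := .mk (.node (.node (.col (nat_lit 2)) (.node (.slot (nat_lit 0)) (.col (nat_lit 3)) (.col (nat_lit 1))) (.slot (nat_lit 1))) (.node (.col (nat_lit 4)) (.slot (nat_lit 0)) (.slot (nat_lit 0))) (.slot (nat_lit 1))) (.col (nat_lit 2)) (.node (.slot (nat_lit 0)) (.slot (nat_lit 0)) (.slot (nat_lit 0))) (.col (nat_lit 0))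
def w16566 : Root := .mk (.node (.node (.col (nat_lit 2)) (.node (.slot (nat_lit 0)) (.col (nat_lit 3)) (.col (nat_lit 1))) (.slot (nat_lit 1))) (.slot (nat_lit 1)) (.slot (nat_lit 1))) (.col (nat_lit 2)) (.node (.slot (nat_lit 0)) (.slot (nat_lit 0)) (.slot (nat_lit 0))) (.col (nat_lit 0))
def w16580 : Root := .mk (.col (nat_lit 2)) (.node (.slot (nat_lit 0)) (.node (.col (nat_lit 0)) (.node (.col (nat_lit 3)) (.slot (nat_lit 3)) (.slot (nat_lit 1))) (.slot (nat_lit 1))) (.col (nat_lit 1))) (.node (.col (nat_lit 0)) (.slot (nat_lit 1)) (.slot (nat_lit 1))) (.slot (nat_lit 2))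
def w16604 : Root := .mk (.col (nat_lit 2)) (.node (.slot (nat_lit 0)) (.slot (nat_lit 0)) (.col (nat_lit 1))) (.col (nat_lit 4)) (.node (.col (nat_lit 1)) (.slot (nat_lit 20)) (.slot (nat_lit 9)))
def w16669 : Root := .mk (.node (.col (nat_lit 2)) (.slot (nat_lit 0)) (.col (nat_lit 3))) (.node (.col (nat_lit 2)) (.node (.node (.col (nat_lit 2)) (.col (nat_lit 3)) .junk) (.col (nat_lit 0)) (.slot (nat_lit 1))) (.slot (nat_lit 0))) (.col (nat_lit 0)) (.col (nat_lit 3))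
def l3715 : Root := .mk (.node (.col (nat_lit 2)) (.col (nat_lit 0)) (.slot (nat_lit 5))) (.node (.col (nat_lit 2)) (.node (.node (.col (nat_lit 2)) (.node (.col (nat_lit 0)) (.slot (nat_lit 0)) (.slot (nat_lit 0))) .junk) (.col (nat_lit 0)) (.col (nat_lit 1))) (.slot (nat_lit 0))) (.col (nat_lit 0)) (.col (nat_lit 1))
def w16714 : Root := .mk (.node (.node (.col (nat_lit 2)) (.node (.node (.col (nat_lit 2)) (.col (nat_lit 1)) (.slot (nat_lit 0))) (.slot (nat_lit 5)) (.slot (nat_lit 5))) (.col (nat_lit 0))) (.slot (nat_lit 0)) (.col (nat_lit 3))) (.col (nat_lit 0)) (.col (nat_lit 2)) (.col (nat_lit 3))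
def w16734 : Root := .mk (.col (nat_lit 2)) (.node (.slot (nat_lit 0)) (.col (nat_lit 1)) (.slot (nat_lit 1))) (.node (.node (.col (nat_lit 2)) (.slot (nat_lit 0)) (.slot (nat_lit 0))) (.col (nat_lit 0)) (.node (.col (nat_lit 2)) (.node (.slot (nat_lit 0)) (.slot (nat_lit 0)) (.slot (nat_lit 0))) (.slot (nat_lit 1)))) (.col (nat_lit 0))
def l3723 : Root := .mk (.col (nat_lit 2)) (.node (.slot (nat_lit 0)) (.col (nat_lit 1)) (.slot (nat_lit 1))) (.node (.node (.col (nat_lit 2)) (.node (.slot (nat_lit 0)) (.slot (nat_lit 0)) (.slot (nat_lit 0))) (.slot (nat_lit 0))) (.col (nat_lit 0)) (.node (.col (nat_lit 2)) (.slot (nat_lit 4)) (.slot (nat_lit 4)))) (.col (nat_lit 0))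
def w16746 : Root := .mk (.node (.col (nat_lit 2)) (.node (.slot (nat_lit 0)) (.slot (nat_lit 0)) (.col (nat_lit 1))) (.slot (nat_lit 1))) (.node (.col (nat_lit 2)) (.slot (nat_lit 0)) (.slot (nat_lit 0))) (.col (nat_lit 0)) (.node (.col (nat_lit 2)) (.slot (nat_lit 1)) (.slot (nat_lit 2)))
def w16750 : Root := .mk (.col (nat_lit 2)) (.node (.slot (nat_lit 0)) (.slot (nat_lit 0)) (.col (nat_lit 1))) (.node (.node (.col (nat_lit 2)) (.slot (nat_lit 0)) (.slot (nat_lit 0))) (.col (nat_lit 0)) (.node (.col (nat_lit 2)) (.slot (nat_lit 3)) (.slot (nat_lit 3)))) (.node (.col (nat_lit 3)) (.slot (nat_lit 1)) (.slot (nat_lit 0)))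
def w16751 : Root := .mk (.node (.node (.col (nat_lit 2)) (.node (.slot (nat_lit 0)) (.slot (nat_lit 0)) (.col (nat_lit 1))) (.slot (nat_lit 1))) (.col (nat_lit 0)) (.node (.col (nat_lit 2)) (.slot (nat_lit 2)) (.slot (nat_lit 2)))) (.col (nat_lit 2)) (.col (nat_lit 1)) (.slot (nat_lit 0))
def w16754 : Root := .mk (.node (.node (.col (nat_lit 2)) (.node (.slot (nat_lit 0)) (.col (nat_lit 1)) (.slot (nat_lit 0))) (.slot (nat_lit 1))) (.col (nat_lit 0)) (.node (.col (nat_lit 2)) (.slot (nat_lit 2)) (.slot (nat_lit 2)))) (.col (nat_lit 2)) (.col (nat_lit 3)) (.slot (nat_lit 0))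
def l3725 : Root := .mk (.node (.col (nat_lit 2)) (.node (.slot (nat_lit 0)) (.col (nat_lit 1)) (.slot (nat_lit 1))) (.slot (nat_lit 3))) (.node (.col (nat_lit 2)) (.node (.slot (nat_lit 0)) (.slot (nat_lit 0)) (.slot (nat_lit 0))) (.slot (nat_lit 0))) (.col (nat_lit 0)) (.node (.col (nat_lit 2)) (.slot (nat_lit 4)) (.slot (nat_lit 4)))
def w16755 : Root := .mk (.node (.col (nat_lit 2)) (.node (.slot (nat_lit 0)) (.col (nat_lit 1)) (.slot (nat_lit 1))) (.slot (nat_lit 3))) (.node (.col (nat_lit 2)) (.node (.slot (nat_lit 0)) (.slot (nat_lit 0)) (.slot (nat_lit 0))) (.slot (nat_lit 0))) (.col (nat_lit 0)) (.slot (nat_lit 5))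
def w16792 : Root := .mk (.node (.node (.col (nat_lit 2)) (.node (.col (nat_lit 1)) (.slot (nat_lit 1)) (.slot (nat_lit 1))) (.slot (nat_lit 2))) (.slot (nat_lit 0)) (.node (.col (nat_lit 0)) (.node (.col (nat_lit 1)) (.slot (nat_lit 1)) (.slot (nat_lit 1))) (.slot (nat_lit 2)))) (.col (nat_lit 0)) (.col (nat_lit 1)) (.slot (nat_lit 1))
def w16860 : Root := .mk (.col (nat_lit 2)) (.node (.slot (nat_lit 0)) (.col (nat_lit 3)) (.slot (nat_lit 1))) (.node (.node (.col (nat_lit 2)) (.slot (nat_lit 0)) (.slot (nat_lit 0))) (.node (.col (nat_lit 2)) (.col (nat_lit 1)) (.slot (nat_lit 0))) (.col (nat_lit 1))) (.col (nat_lit 0))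
def l3753 : Root := .mk (.col (nat_lit 2)) (.col (nat_lit 0)) (.node (.node (.col (nat_lit 2)) (.col (nat_lit 0)) (.slot (nat_lit 0))) (.col (nat_lit 1)) (.slot (nat_lit 1))) (.node (.col (nat_lit 1)) (.node (.slot (nat_lit 0)) (.slot (nat_lit 0)) (.slot (nat_lit 0))) (.slot (nat_lit 1)))
def w16920 : Root := .mk (.node (.node (.col (nat_lit 2)) (.node (.slot (nat_lit 0)) (.slot (nat_lit 0)) (.col (nat_lit 0))) (.col (nat_lit 0))) (.slot (nat_lit 20)) (.slot (nat_lit 9))) (.col (nat_lit 2)) (.col (nat_lit 0)) (.node (.node (.slot (nat_lit 0)) (.slot (nat_lit 0)) (.slot (nat_lit 0))) (.slot (nat_lit 20)) (.slot (nat_lit 9)))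
def w16932 : Root := .mk (.node (.node (.slot (nat_lit 0)) (.col (nat_lit 0)) (.col (nat_lit 2))) (.slot (nat_lit 20)) (.slot (nat_lit 9))) (.col (nat_lit 0)) (.col (nat_lit 3)) (.col (nat_lit 4))
def l3766 : Root := .mk (.col (nat_lit 2)) (.node (.slot (nat_lit 0)) (.node (.col (nat_lit 0)) (.node (.col (nat_lit 2)) (.col (nat_lit 3)) (.slot (nat_lit 5))) (.col (nat_lit 2))) (.col (nat_lit 3))) (.node (.col (nat_lit 1)) (.col (nat_lit 3)) (.slot (nat_lit 5))) (.col (nat_lit 1))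
def w16972 : Root := .mk (.col (nat_lit 2)) (.node (.slot (nat_lit 0)) (.slot (nat_lit 0)) (.col (nat_lit 3))) (.node (.col (nat_lit 0)) (.slot (nat_lit 20)) (.slot (nat_lit 9))) (.col (nat_lit 1))
def w16977 : Root := .mk (.node (.node (.col (nat_lit 2)) (.node (.col (nat_lit 0)) (.col (nat_lit 1)) (.slot (nat_lit 5))) (.col (nat_lit 0))) (.slot (nat_lit 0)) (.node (.col (nat_lit 0)) (.slot (nat_lit 0)) (.slot (nat_lit 0)))) (.col (nat_lit 0)) (.node (.node (.col (nat_lit 0)) (.slot (nat_lit 0)) (.slot (nat_lit 0))) (.col (nat_lit 1)) .junk) (.col (nat_lit 2))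
def w17031 : Root := .mk (.node (.node (.slot (nat_lit 0)) (.slot (nat_lit 0)) (.slot (nat_lit 0))) (.col (nat_lit 0)) (.node (.col (nat_lit 3)) (.slot (nat_lit 20)) (.slot (nat_lit 9)))) (.node .junk (.col (nat_lit 2)) (.slot (nat_lit 1))) (.col (nat_lit 1)) (.col (nat_lit 0))
def w17032 : Root := .mk (.node (.node (.node (.col (nat_lit 2)) (.node (.col (nat_lit 3)) (.slot (nat_lit 7)) (.slot (nat_lit 5))) (.slot (nat_lit 8))) (.slot (nat_lit 0)) (.node (.col (nat_lit 2)) (.slot (nat_lit 0)) (.slot (nat_lit 0)))) (.col (nat_lit 0)) (.slot (nat_lit 3))) (.node (.col (nat_lit 0)) (.slot (nat_lit 3)) (.slot (nat_lit 1))) (.col (nat_lit 1)) (.col (nat_lit 0))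
def l3780 : Root := .mk (.col (nat_lit 2)) (.node (.slot (nat_lit 0)) (.node (.col (nat_lit 0)) (.node (.col (nat_lit 4)) (.col (nat_lit 1)) .junk) (.col (nat_lit 3))) (.node (.col (nat_lit 2)) (.slot (nat_lit 0)) (.slot (nat_lit 0)))) (.col (nat_lit 0)) (.col (nat_lit 3))
def w17053 : Root := .mk (.col (nat_lit 2)) (.node (.slot (nat_lit 0)) (.node (.col (nat_lit 0)) (.node (.col (nat_lit 4)) (.col (nat_lit 1)) .junk) (.slot (nat_lit 1))) (.node (.col (nat_lit 2)) (.slot (nat_lit 0)) (.slot (nat_lit 0)))) (.col (nat_lit 0)) (.col (nat_lit 3))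
def w17065 : Root := .mk (.col (nat_lit 2)) (.node (.slot (nat_lit 0)) (.node (.col (nat_lit 0)) (.slot (nat_lit 0)) (.col (nat_lit 3))) (.node (.col (nat_lit 2)) (.col (nat_lit 3)) (.slot (nat_lit 2)))) (.node (.col (nat_lit 3)) (.col (nat_lit 1)) (.slot (nat_lit 5))) (.col (nat_lit 3))
def w17073 : Root := .mk (.node (.node (.col (nat_lit 2)) (.node (.col (nat_lit 3)) (.col (nat_lit 1)) (.slot (nat_lit 3))) (.col (nat_lit 3))) (.slot (nat_lit 0)) (.node (.col (nat_lit 0)) (.slot (nat_lit 0)) (.slot (nat_lit 0)))) (.col (nat_lit 2)) (.col (nat_lit 0)) (.col (nat_lit 4))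
def l3784 : Root := .mk (.col (nat_lit 2)) (.node (.slot (nat_lit 0)) (.col (nat_lit 1)) (.node (.col (nat_lit 2)) (.col (nat_lit 0)) (.node (.col (nat_lit 1)) (.col (nat_lit 0)) (.slot (nat_lit 5))))) (.node (.col (nat_lit 3)) (.col (nat_lit 1)) (.slot (nat_lit 5))) (.col (nat_lit 3))
def w17082 : Root := .mk (.node (.node (.col (nat_lit 2)) (.node (.col (nat_lit 3)) (.col (nat_lit 1)) (.slot (nat_lit 5))) (.col (nat_lit 3))) (.slot (nat_lit 0)) (.node (.col (nat_lit 0)) (.slot (nat_lit 0)) (.slot (nat_lit 0)))) (.col (nat_lit 2)) (.col (nat_lit 4)) (.node (.col (nat_lit 1)) (.col (nat_lit 2)) (.slot (nat_lit 5)))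
def w17083 : Root := .mk (.node (.node (.col (nat_lit 2)) (.node (.col (nat_lit 3)) (.col (nat_lit 1)) (.slot (nat_lit 5))) (.col (nat_lit 3))) (.slot (nat_lit 0)) (.node (.col (nat_lit 0)) (.slot (nat_lit 0)) (.slot (nat_lit 0)))) (.col (nat_lit 2)) (.col (nat_lit 4)) (.node (.col (nat_lit 1)) (.col (nat_lit 4)) (.slot (nat_lit 5)))
def w17084 : Root := .mk (.node (.node (.col (nat_lit 2)) (.node .junk (.col (nat_lit 1)) (.slot (nat_lit 1))) (.col (nat_lit 3))) (.slot (nat_lit 0)) (.node (.col (nat_lit 0)) (.slot (nat_lit 0)) (.slot (nat_lit 0)))) (.col (nat_lit 2)) (.col (nat_lit 4)) (.node (.col (nat_lit 1)) (.node (.col (nat_lit 1)) (.slot (nat_lit 0)) (.slot (nat_lit 0))) (.slot (nat_lit 1)))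
def w17085 : Root := .mk (.node (.node (.col (nat_lit 2)) (.node .junk (.col (nat_lit 1)) (.slot (nat_lit 1))) (.col (nat_lit 3))) (.slot (nat_lit 0)) (.node (.col (nat_lit 0)) (.slot (nat_lit 0)) (.slot (nat_lit 0)))) (.col (nat_lit 2)) (.col (nat_lit 4)) (.node (.col (nat_lit 1)) (.node (.slot (nat_lit 0)) (.slot (nat_lit 0)) (.slot (nat_lit 0))) (.slot (nat_lit 1)))
def l3786 : Root := .mk (.node (.node (.col (nat_lit 2)) (.node (.col (nat_lit 3)) (.col (nat_lit 1)) (.slot (nat_lit 5))) (.col (nat_lit 3))) (.slot (nat_lit 0)) (.node (.col (nat_lit 0)) (.slot (nat_lit 0)) (.slot (nat_lit 0)))) (.col (nat_lit 2)) (.col (nat_lit 4)) (.node (.col (nat_lit 1)) (.slot (nat_lit 20)) (.slot (nat_lit 9)))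
def w17086 : Root := .mk (.col (nat_lit 2)) (.node (.slot (nat_lit 0)) (.node (.col (nat_lit 0)) (.slot (nat_lit 0)) (.slot (nat_lit 0))) (.node (.col (nat_lit 2)) (.col (nat_lit 4)) (.slot (nat_lit 21)))) (.node (.col (nat_lit 3)) (.col (nat_lit 1)) (.slot (nat_lit 5))) (.col (nat_lit 3))
def w17120 : Root := .mk (.col (nat_lit 2)) (.node (.slot (nat_lit 0)) (.col (nat_lit 1)) (.node (.col (nat_lit 0)) (.slot (nat_lit 0)) (.slot (nat_lit 0)))) (.node (.col (nat_lit 3)) (.node (.col (nat_lit 3)) (.slot (nat_lit 0)) (.slot (nat_lit 0))) (.slot (nat_lit 3))) (.node (.col (nat_lit 1)) (.slot (nat_lit 3)) (.slot (nat_lit 1)))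
def w17121 : Root := .mk (.col (nat_lit 2)) (.node (.slot (nat_lit 0)) (.col (nat_lit 1)) (.node (.col (nat_lit 0)) (.slot (nat_lit 0)) (.slot (nat_lit 0)))) (.node (.col (nat_lit 4)) (.node (.col (nat_lit 3)) (.slot (nat_lit 0)) (.slot (nat_lit 0))) (.slot (nat_lit 3))) (.node (.col (nat_lit 1)) (.slot (nat_lit 3)) (.slot (nat_lit 1)))
def w17132 : Root := .mk (.col (nat_lit 2)) (.node (.slot (nat_lit 0)) (.node (.col (nat_lit 0)) (.node (.col (nat_lit 1)) (.slot (nat_lit 1)) (.slot (nat_lit 1))) (.slot (nat_lit 2))) (.node (.col (nat_lit 0)) (.slot (nat_lit 0)) (.slot (nat_lit 0)))) (.col (nat_lit 0)) (.col (nat_lit 3))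
def w17133 : Root := .mk (.col (nat_lit 2)) (.node (.slot (nat_lit 0)) (.node (.col (nat_lit 0)) (.node (.col (nat_lit 1)) (.slot (nat_lit 3)) (.slot (nat_lit 1))) (.slot (nat_lit 1))) (.node (.col (nat_lit 0)) (.slot (nat_lit 0)) (.slot (nat_lit 0)))) (.col (nat_lit 0)) (.node (.col (nat_lit 1)) (.col (nat_lit 0)) (.slot (nat_lit 5)))
def w17134 : Root := .mk (.col (nat_lit 2)) (.node (.slot (nat_lit 0)) (.node (.col (nat_lit 0)) (.node (.col (nat_lit 1)) (.slot (nat_lit 3)) (.slot (nat_lit 1))) (.slot (nat_lit 1))) (.node (.col (nat_lit 0)) (.slot (nat_lit 0)) (.slot (nat_lit 0)))) (.col (nat_lit 0)) (.node (.col (nat_lit 1)) (.col (nat_lit 2)) (.slot (nat_lit 5)))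
def w17135 : Root := .mk (.col (nat_lit 2)) (.node (.slot (nat_lit 0)) (.node (.col (nat_lit 0)) (.node (.col (nat_lit 1)) (.slot (nat_lit 5)) (.slot (nat_lit 5))) (.slot (nat_lit 2))) (.node (.col (nat_lit 0)) (.slot (nat_lit 0)) (.slot (nat_lit 0)))) (.col (nat_lit 0)) (.node (.col (nat_lit 1)) (.node (.col (nat_lit 1)) (.slot (nat_lit 0)) (.slot (nat_lit 0))) (.slot (nat_lit 1)))
def w17136 : Root := .mk (.col (nat_lit 2)) (.node (.slot (nat_lit 0)) (.node (.col (nat_lit 0)) (.node (.col (nat_lit 1)) (.slot (nat_lit 5)) (.slot (nat_lit 5))) (.slot (nat_lit 2))) (.node (.col (nat_lit 0)) (.slot (nat_lit 0)) (.slot (nat_lit 0)))) (.col (nat_lit 0)) (.node (.col (nat_lit 1)) (.node (.slot (nat_lit 0)) (.slot (nat_lit 0)) (.slot (nat_lit 0))) (.slot (nat_lit 5)))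
def l3797 : Root := .mk (.col (nat_lit 2)) (.node (.slot (nat_lit 0)) (.node (.col (nat_lit 0)) (.node (.col (nat_lit 1)) (.slot (nat_lit 7)) (.slot (nat_lit 5))) (.slot (nat_lit 8))) (.node (.col (nat_lit 0)) (.slot (nat_lit 0)) (.slot (nat_lit 0)))) (.col (nat_lit 0)) (.node (.col (nat_lit 1)) (.slot (nat_lit 20)) (.slot (nat_lit 9)))
def w17137 : Root := .mk (.col (nat_lit 2)) (.node (.slot (nat_lit 0)) (.node (.col (nat_lit 0)) (.node (.col (nat_lit 1)) (.slot (nat_lit 7)) (.slot (nat_lit 5))) (.slot (nat_lit 8))) (.node (.col (nat_lit 0)) (.slot (nat_lit 0)) (.slot (nat_lit 0)))) (.col (nat_lit 0)) (.slot (nat_lit 21))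
def w17141 : Root := .mk (.node (.node (.col (nat_lit 2)) (.node (.node (.col (nat_lit 2)) (.slot (nat_lit 3)) (.slot (nat_lit 1))) (.slot (nat_lit 1)) (.slot (nat_lit 1))) (.slot (nat_lit 3))) (.slot (nat_lit 0)) (.node (.col (nat_lit 0)) (.slot (nat_lit 0)) (.slot (nat_lit 0)))) (.col (nat_lit 0)) (.node (.col (nat_lit 1)) (.slot (nat_lit 7)) (.slot (nat_lit 5))) (.slot (nat_lit 8))
def w17142 : Root := .mk (.node (.node (.col (nat_lit 2)) (.node (.col (nat_lit 1)) (.slot (nat_lit 3)) (.slot (nat_lit 1))) (.slot (nat_lit 1))) (.slot (nat_lit 0)) (.node (.col (nat_lit 0)) (.slot (nat_lit 0)) (.slot (nat_lit 0)))) (.col (nat_lit 0)) (.col (nat_lit 2)) (.node (.col (nat_lit 1)) (.col (nat_lit 2)) (.slot (nat_lit 5)))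
def l3798 : Root := .mk (.node (.node (.col (nat_lit 2)) (.node (.col (nat_lit 1)) (.slot (nat_lit 7)) (.slot (nat_lit 5))) (.slot (nat_lit 8))) (.slot (nat_lit 0)) (.node (.col (nat_lit 0)) (.slot (nat_lit 0)) (.slot (nat_lit 0)))) (.col (nat_lit 0)) (.col (nat_lit 2)) (.node (.col (nat_lit 1)) (.slot (nat_lit 20)) (.slot (nat_lit 9)))
def w17153 : Root := .mk (.node (.slot (nat_lit 0)) (.col (nat_lit 0)) (.col (nat_lit 1))) (.col (nat_lit 2)) (.col (nat_lit 0)) (.node (.col (nat_lit 3)) (.slot (nat_lit 20)) (.slot (nat_lit 9)))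
def w17178 : Root := .mk (.node (.node (.col (nat_lit 2)) (.node (.col (nat_lit 3)) (.slot (nat_lit 7)) (.slot (nat_lit 5))) (.slot (nat_lit 8))) (.slot (nat_lit 0)) (.node (.col (nat_lit 0)) (.slot (nat_lit 0)) (.slot (nat_lit 0)))) (.col (nat_lit 0)) (.node (.col (nat_lit 2)) .junk (.slot (nat_lit 1))) (.col (nat_lit 1))
def w17192 : Root := .mk (.col (nat_lit 2)) (.node (.slot (nat_lit 0)) (.node (.col (nat_lit 0)) (.node (.col (nat_lit 3)) (.slot (nat_lit 1)) (.slot (nat_lit 1))) (.slot (nat_lit 2))) (.node (.col (nat_lit 1)) (.slot (nat_lit 0)) (.slot (nat_lit 0)))) (.col (nat_lit 0)) (.col (nat_lit 4))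
def w17193 : Root := .mk (.col (nat_lit 2)) (.node (.slot (nat_lit 0)) (.node (.col (nat_lit 0)) (.node (.col (nat_lit 3)) (.slot (nat_lit 5)) (.slot (nat_lit 5))) (.slot (nat_lit 2))) (.node (.col (nat_lit 1)) (.slot (nat_lit 0)) (.slot (nat_lit 0)))) (.col (nat_lit 0)) (.node (.col (nat_lit 3)) (.node (.col (nat_lit 3)) (.slot (nat_lit 0)) (.slot (nat_lit 0))) (.slot (nat_lit 1)))
def l3808 : Root := .mk (.col (nat_lit 2)) (.node (.slot (nat_lit 0)) (.node (.col (nat_lit 0)) (.node (.col (nat_lit 3)) (.slot (nat_lit 20)) (.slot (nat_lit 9))) (.node (.col (nat_lit 3)) (.slot (nat_lit 20)) (.slot (nat_lit 9)))) (.node (.col (nat_lit 1)) (.slot (nat_lit 0)) (.slot (nat_lit 0)))) (.col (nat_lit 4)) (.col (nat_lit 1))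
def w17197 : Root := .mk (.col (nat_lit 2)) (.node (.slot (nat_lit 0)) (.node (.col (nat_lit 0)) (.node (.col (nat_lit 3)) (.slot (nat_lit 20)) (.slot (nat_lit 9))) (.slot (nat_lit 21))) (.node (.col (nat_lit 1)) (.slot (nat_lit 0)) (.slot (nat_lit 0)))) (.col (nat_lit 4)) (.col (nat_lit 1))
def w17201 : Root := .mk (.col (nat_lit 2)) (.node (.col (nat_lit 2)) (.node (.col (nat_lit 0)) (.node (.col (nat_lit 3)) (.slot (nat_lit 3)) (.slot (nat_lit 3))) (.slot (nat_lit 2))) (.node (.col (nat_lit 1)) (.slot (nat_lit 0)) (.slot (nat_lit 0)))) (.node (.slot (nat_lit 0)) (.slot (nat_lit 0)) (.slot (nat_lit 0))) (.col (nat_lit 0))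
def w17212 : Root := .mk (.node (.node (.col (nat_lit 2)) (.node (.node (.col (nat_lit 2)) (.slot (nat_lit 3)) (.slot (nat_lit 1))) (.slot (nat_lit 1)) (.slot (nat_lit 1))) (.slot (nat_lit 3))) (.slot (nat_lit 0)) (.node (.col (nat_lit 1)) (.slot (nat_lit 0)) (.slot (nat_lit 0)))) (.col (nat_lit 0)) (.node (.col (nat_lit 3)) (.slot (nat_lit 7)) (.slot (nat_lit 5))) (.slot (nat_lit 8))
def w17218 : Root := .mk (.col (nat_lit 2)) (.node (.slot (nat_lit 0)) (.node (.col (nat_lit 0)) (.node (.col (nat_lit 2)) (.slot (nat_lit 1)) (.slot (nat_lit 1))) (.slot (nat_lit 2))) (.node (.col (nat_lit 1)) (.slot (nat_lit 0)) (.slot (nat_lit 0)))) (.node (.col (nat_lit 3)) (.col (nat_lit 1)) (.slot (nat_lit 4))) (.col (nat_lit 1))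
def w17266 : Root := .mk (.col (nat_lit 2)) (.node (.slot (nat_lit 0)) (.slot (nat_lit 0)) (.slot (nat_lit 0))) (.node (.node (.col (nat_lit 2)) (.node (.col (nat_lit 0)) (.slot (nat_lit 1)) (.slot (nat_lit 1))) (.slot (nat_lit 2))) (.slot (nat_lit 20)) (.slot (nat_lit 9))) (.col (nat_lit 0))
def l3815 : Root := .mk (.col (nat_lit 2)) (.node (.slot (nat_lit 0)) (.node (.col (nat_lit 0)) (.node (.col (nat_lit 4)) (.col (nat_lit 3)) .junk) (.slot (nat_lit 1))) (.col (nat_lit 3))) (.node (.col (nat_lit 3)) (.col (nat_lit 2)) (.slot (nat_lit 5))) (.col (nat_lit 0))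
def w17299 : Root := .mk (.col (nat_lit 2)) (.node (.slot (nat_lit 0)) (.node (.col (nat_lit 0)) (.slot (nat_lit 0)) (.col (nat_lit 2))) (.node (.col (nat_lit 1)) (.col (nat_lit 2)) (.slot (nat_lit 2)))) (.node (.col (nat_lit 1)) (.col (nat_lit 3)) (.slot (nat_lit 5))) (.col (nat_lit 1))
def w17300 : Root := .mk (.col (nat_lit 2)) (.node (.slot (nat_lit 0)) (.slot (nat_lit 0)) (.node (.col (nat_lit 1)) (.node (.col (nat_lit 0)) (.slot (nat_lit 1)) (.slot (nat_lit 1))) (.slot (nat_lit 2)))) (.node (.col (nat_lit 1)) (.col (nat_lit 3)) (.slot (nat_lit 5))) (.col (nat_lit 1))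
def w17303 : Root := .mk (.node (.node (.col (nat_lit 2)) (.node (.col (nat_lit 1)) (.col (nat_lit 3)) (.slot (nat_lit 4))) (.col (nat_lit 1))) (.slot (nat_lit 0)) (.node (.col (nat_lit 0)) (.slot (nat_lit 0)) (.slot (nat_lit 0)))) (.col (nat_lit 1)) (.col (nat_lit 0)) (.col (nat_lit 4))
def l3818 : Root := .mk (.col (nat_lit 2)) (.node (.slot (nat_lit 0)) (.col (nat_lit 3)) (.node (.col (nat_lit 1)) (.col (nat_lit 0)) (.node (.col (nat_lit 3)) (.col (nat_lit 1)) (.slot (nat_lit 5))))) (.node (.col (nat_lit 1)) (.col (nat_lit 3)) (.slot (nat_lit 5))) (.col (nat_lit 1))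
def w17307 : Root := .mk (.node (.node (.col (nat_lit 2)) (.node (.col (nat_lit 1)) (.col (nat_lit 3)) (.slot (nat_lit 5))) (.col (nat_lit 1))) (.slot (nat_lit 0)) (.node (.col (nat_lit 0)) (.slot (nat_lit 0)) (.slot (nat_lit 0)))) (.col (nat_lit 1)) (.col (nat_lit 4)) (.node (.col (nat_lit 3)) (.col (nat_lit 1)) (.slot (nat_lit 5)))
def l3820 : Root := .mk (.node (.node (.col (nat_lit 2)) (.node (.col (nat_lit 1)) (.col (nat_lit 3)) (.slot (nat_lit 5))) (.col (nat_lit 1))) (.slot (nat_lit 0)) (.node (.col (nat_lit 0)) (.slot (nat_lit 0)) (.slot (nat_lit 0)))) (.col (nat_lit 1)) (.col (nat_lit 4)) (.node (.col (nat_lit 3)) (.slot (nat_lit 20)) (.slot (nat_lit 9)))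
def w17308 : Root := .mk (.col (nat_lit 2)) (.node (.slot (nat_lit 0)) (.node (.col (nat_lit 0)) (.slot (nat_lit 0)) (.slot (nat_lit 0))) (.node (.col (nat_lit 1)) (.col (nat_lit 4)) (.slot (nat_lit 21)))) (.node (.col (nat_lit 1)) (.col (nat_lit 3)) (.slot (nat_lit 5))) (.col (nat_lit 1))
def w17396 : Root := .mk (.node (.node (.col (nat_lit 2)) (.slot (nat_lit 0)) (.slot (nat_lit 0))) (.slot (nat_lit 0)) (.node (.node (.col (nat_lit 3)) (.slot (nat_lit 20)) (.slot (nat_lit 9))) (.col (nat_lit 4)) (.slot (nat_lit 1)))) (.col (nat_lit 0)) (.col (nat_lit 1)) (.node (.col (nat_lit 3)) (.col (nat_lit 0)) (.slot (nat_lit 5)))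
def w17403 : Root := .mk (.node (.col (nat_lit 2)) (.node (.slot (nat_lit 0)) (.node (.col (nat_lit 0)) (.slot (nat_lit 0)) (.slot (nat_lit 0))) (.node (.node (.col (nat_lit 3)) (.slot (nat_lit 7)) (.slot (nat_lit 5))) (.col (nat_lit 0)) (.slot (nat_lit 8)))) (.slot (nat_lit 1))) .junk (.col (nat_lit 1)) (.col (nat_lit 4))
def l3835 : Root := .mk (.node (.col (nat_lit 2)) (.node (.slot (nat_lit 0)) (.node (.col (nat_lit 0)) (.slot (nat_lit 0)) (.slot (nat_lit 0))) (.col (nat_lit 3))) (.node (.col (nat_lit 3)) (.node (.col (nat_lit 3)) (.slot (nat_lit 0)) (.slot (nat_lit 0))) (.slot (nat_lit 3)))) (.col (nat_lit 2)) (.col (nat_lit 3)) (.node (.col (nat_lit 0)) (.slot (nat_lit 20)) (.slot (nat_lit 9)))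
def w17406 : Root := .mk (.col (nat_lit 2)) (.node (.slot (nat_lit 0)) (.node (.col (nat_lit 0)) (.slot (nat_lit 0)) (.slot (nat_lit 0))) (.col (nat_lit 3))) (.node (.col (nat_lit 2)) (.col (nat_lit 3)) (.slot (nat_lit 21))) (.node (.col (nat_lit 3)) (.node (.col (nat_lit 3)) (.slot (nat_lit 0)) (.slot (nat_lit 0))) (.slot (nat_lit 3)))
def l3836 : Root := .mk (.col (nat_lit 2)) (.node (.slot (nat_lit 0)) (.col (nat_lit 3)) (.node (.node (.col (nat_lit 3)) (.col (nat_lit 0)) (.slot (nat_lit 5))) (.col (nat_lit 0)) (.col (nat_lit 2)))) (.node (.col (nat_lit 2)) (.col (nat_lit 3)) (.slot (nat_lit 5))) (.col (nat_lit 0))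
def w17409 : Root := .mk (.col (nat_lit 2)) (.node (.slot (nat_lit 0)) (.node (.col (nat_lit 0)) (.slot (nat_lit 0)) (.slot (nat_lit 0))) (.node (.node (.col (nat_lit 3)) (.col (nat_lit 0)) (.slot (nat_lit 5))) (.col (nat_lit 0)) (.col (nat_lit 2)))) (.node (.col (nat_lit 2)) (.col (nat_lit 3)) (.slot (nat_lit 5))) (.col (nat_lit 0))
def w17411 : Root := .mk (.node (.node (.node (.col (nat_lit 2)) (.node (.col (nat_lit 2)) (.col (nat_lit 3)) (.slot (nat_lit 1))) (.node (.col (nat_lit 3)) (.node (.col (nat_lit 3)) (.slot (nat_lit 0)) (.slot (nat_lit 0))) (.slot (nat_lit 1)))) (.slot (nat_lit 0)) (.col (nat_lit 3))) (.col (nat_lit 0)) (.col (nat_lit 2))) (.col (nat_lit 3)) (.col (nat_lit 0)) (.col (nat_lit 2))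
def w17412 : Root := .mk (.node (.node (.node (.col (nat_lit 2)) (.node (.col (nat_lit 2)) (.col (nat_lit 3)) (.slot (nat_lit 1))) (.node (.col (nat_lit 3)) (.node (.col (nat_lit 3)) (.slot (nat_lit 0)) (.slot (nat_lit 0))) (.slot (nat_lit 1)))) (.slot (nat_lit 0)) (.col (nat_lit 3))) (.col (nat_lit 0)) (.col (nat_lit 2))) (.col (nat_lit 3)) (.col (nat_lit 0)) (.slot (nat_lit 0))
def l3837 : Root := .mk (.node (.node (.col (nat_lit 2)) (.node (.col (nat_lit 2)) (.col (nat_lit 3)) (.slot (nat_lit 1))) (.node (.col (nat_lit 3)) (.node (.col (nat_lit 3)) (.slot (nat_lit 0)) (.slot (nat_lit 0))) (.slot (nat_lit 1)))) (.slot (nat_lit 0)) (.col (nat_lit 3))) (.node (.col (nat_lit 3)) (.col (nat_lit 0)) (.slot (nat_lit 5))) (.col (nat_lit 0)) (.col (nat_lit 2))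
def w17413 : Root := .mk (.node (.node (.col (nat_lit 2)) (.node (.col (nat_lit 2)) (.col (nat_lit 3)) (.slot (nat_lit 1))) (.node (.col (nat_lit 3)) (.node (.col (nat_lit 3)) (.slot (nat_lit 0)) (.slot (nat_lit 0))) (.slot (nat_lit 1)))) (.slot (nat_lit 0)) (.node (.col (nat_lit 0)) (.slot (nat_lit 0)) (.slot (nat_lit 0)))) (.node (.col (nat_lit 3)) (.col (nat_lit 0)) (.slot (nat_lit 5))) (.col (nat_lit 0)) (.col (nat_lit 2))
def w17425 : Root := .mk (.node (.node (.node (.col (nat_lit 2)) (.node (.col (nat_lit 2)) (.col (nat_lit 3)) (.slot (nat_lit 0))) (.node (.col (nat_lit 3)) (.col (nat_lit 1)) .junk)) (.slot (nat_lit 0)) (.col (nat_lit 3))) (.col (nat_lit 0)) (.col (nat_lit 2))) (.col (nat_lit 3)) (.col (nat_lit 0)) (.col (nat_lit 2))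
def w17426 : Root := .mk (.node (.node (.node (.col (nat_lit 2)) (.node (.col (nat_lit 2)) (.col (nat_lit 3)) (.slot (nat_lit 0))) (.node (.col (nat_lit 3)) (.col (nat_lit 1)) .junk)) (.slot (nat_lit 0)) (.col (nat_lit 3))) (.col (nat_lit 0)) (.col (nat_lit 2))) (.col (nat_lit 3)) (.col (nat_lit 0)) (.slot (nat_lit 0))
def l3843 : Root := .mk (.node (.node (.col (nat_lit 2)) (.node (.col (nat_lit 2)) (.col (nat_lit 3)) (.slot (nat_lit 0))) (.node (.col (nat_lit 3)) (.col (nat_lit 1)) .junk)) (.slot (nat_lit 0)) (.col (nat_lit 3))) (.node (.col (nat_lit 3)) (.col (nat_lit 0)) (.slot (nat_lit 5))) (.col (nat_lit 0)) (.col (nat_lit 2))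
def w17427 : Root := .mk (.col (nat_lit 2)) (.node (.slot (nat_lit 0)) (.col (nat_lit 3)) (.node (.node (.col (nat_lit 3)) (.col (nat_lit 0)) (.slot (nat_lit 5))) (.col (nat_lit 0)) (.slot (nat_lit 1)))) (.node (.col (nat_lit 2)) (.col (nat_lit 3)) (.slot (nat_lit 0))) (.node (.col (nat_lit 3)) (.col (nat_lit 1)) .junk)
def l3844 : Root := .mk (.node (.col (nat_lit 2)) (.node (.slot (nat_lit 0)) (.col (nat_lit 3)) (.node (.node (.col (nat_lit 3)) (.col (nat_lit 0)) (.slot (nat_lit 5))) (.col (nat_lit 0)) (.slot (nat_lit 1)))) (.node (.col (nat_lit 2)) (.col (nat_lit 3)) (.slot (nat_lit 5)))) (.col (nat_lit 3)) (.col (nat_lit 1)) (.slot (nat_lit 5))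
def w17428 : Root := .mk (.node (.node (.node (.col (nat_lit 2)) (.node (.col (nat_lit 2)) (.col (nat_lit 3)) (.slot (nat_lit 5))) (.node (.col (nat_lit 3)) (.node (.slot (nat_lit 0)) (.slot (nat_lit 0)) (.slot (nat_lit 0))) (.slot (nat_lit 5)))) (.slot (nat_lit 0)) (.col (nat_lit 3))) (.col (nat_lit 0)) (.slot (nat_lit 1))) (.col (nat_lit 3)) (.col (nat_lit 0)) (.slot (nat_lit 5))
def w17429 : Root := .mk (.col (nat_lit 1)) (.slot (nat_lit 0)) (.col (nat_lit 3)) (.node (.node (.col (nat_lit 3)) (.node (.col (nat_lit 3)) (.slot (nat_lit 0)) (.slot (nat_lit 0))) (.slot (nat_lit 3))) (.col (nat_lit 0)) (.slot (nat_lit 1)))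
def l3848 : Root := .mk (.node (.node (.col (nat_lit 2)) (.node (.slot (nat_lit 0)) (.col (nat_lit 2)) (.slot (nat_lit 0))) (.col (nat_lit 0))) (.slot (nat_lit 20)) (.slot (nat_lit 9))) (.col (nat_lit 0)) (.col (nat_lit 1)) (.node (.col (nat_lit 3)) (.slot (nat_lit 20)) (.slot (nat_lit 9)))
def w17438 : Root := .mk (.col (nat_lit 2)) (.node (.slot (nat_lit 0)) (.col (nat_lit 2)) (.slot (nat_lit 0))) (.node (.node (.col (nat_lit 0)) (.col (nat_lit 1)) (.slot (nat_lit 21))) (.slot (nat_lit 20)) (.slot (nat_lit 9))) (.col (nat_lit 0))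
def w17459 : Root := .mk (.node (.node (.col (nat_lit 4)) (.slot (nat_lit 0)) (.slot (nat_lit 0))) (.node (.col (nat_lit 3)) (.node (.col (nat_lit 0)) (.slot (nat_lit 1)) (.slot (nat_lit 1))) (.slot (nat_lit 2))) (.slot (nat_lit 3))) (.col (nat_lit 0)) (.col (nat_lit 3)) (.node (.col (nat_lit 0)) (.slot (nat_lit 3)) (.slot (nat_lit 1)))
def w17472 : Root := .mk (.node (.node (.col (nat_lit 2)) (.node (.col (nat_lit 4)) (.col (nat_lit 1)) .junk) (.slot (nat_lit 1))) (.slot (nat_lit 0)) (.node (.slot (nat_lit 0)) (.slot (nat_lit 0)) (.slot (nat_lit 0)))) (.col (nat_lit 0)) (.node (.col (nat_lit 3)) (.slot (nat_lit 7)) (.slot (nat_lit 5))) (.slot (nat_lit 8))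
def w17476 : Root := .mk (.node (.col (nat_lit 2)) (.node (.slot (nat_lit 0)) (.node (.col (nat_lit 0)) (.node (.col (nat_lit 3)) (.slot (nat_lit 7)) (.slot (nat_lit 5))) (.slot (nat_lit 8))) (.node (.slot (nat_lit 0)) (.slot (nat_lit 0)) (.slot (nat_lit 0)))) (.slot (nat_lit 3))) (.node (.col (nat_lit 2)) (.slot (nat_lit 3)) (.slot (nat_lit 1))) (.col (nat_lit 1)) (.col (nat_lit 2))
def w17481 : Root := .mk (.node (.node (.col (nat_lit 2)) (.slot (nat_lit 0)) (.slot (nat_lit 0))) (.slot (nat_lit 0)) (.node (.node (.col (nat_lit 3)) (.slot (nat_lit 1)) (.slot (nat_lit 1))) (.col (nat_lit 1)) (.slot (nat_lit 2)))) (.col (nat_lit 0)) (.col (nat_lit 4)) (.node (.col (nat_lit 3)) (.node (.col (nat_lit 3)) (.slot (nat_lit 0)) (.slot (nat_lit 0))) (.slot (nat_lit 1)))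
def w17482 : Root := .mk (.node (.node (.col (nat_lit 2)) (.slot (nat_lit 0)) (.slot (nat_lit 0))) (.slot (nat_lit 0)) (.node (.node (.col (nat_lit 3)) (.slot (nat_lit 1)) (.slot (nat_lit 1))) (.col (nat_lit 1)) (.slot (nat_lit 2)))) (.col (nat_lit 0)) (.col (nat_lit 4)) (.node (.col (nat_lit 3)) (.node (.slot (nat_lit 0)) (.slot (nat_lit 0)) (.slot (nat_lit 0))) (.slot (nat_lit 1)))
def l3852 : Root := .mk (.node (.node (.col (nat_lit 2)) (.slot (nat_lit 0)) (.slot (nat_lit 0))) (.slot (nat_lit 0)) (.node (.node (.col (nat_lit 3)) (.slot (nat_lit 20)) (.slot (nat_lit 9))) (.col (nat_lit 1)) (.slot (nat_lit 21)))) (.col (nat_lit 0)) (.col (nat_lit 4)) (.node (.col (nat_lit 3)) (.slot (nat_lit 20)) (.slot (nat_lit 9)))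
def w17524 : Root := .mk (.col (nat_lit 2)) (.node (.slot (nat_lit 0)) (.node (.col (nat_lit 0)) (.slot (nat_lit 0)) (.slot (nat_lit 0))) (.node (.node (.col (nat_lit 3)) (.col (nat_lit 2)) (.slot (nat_lit 2))) (.slot (nat_lit 1)) (.slot (nat_lit 1)))) (.col (nat_lit 3)) (.col (nat_lit 0))
def w17530 : Root := .mk (.node (.slot (nat_lit 0)) (.slot (nat_lit 0)) (.slot (nat_lit 0))) (.node (.col (nat_lit 3)) (.node (.col (nat_lit 0)) (.slot (nat_lit 1)) (.slot (nat_lit 1))) (.slot (nat_lit 2))) (.col (nat_lit 2)) (.node (.col (nat_lit 0)) (.slot (nat_lit 20)) (.slot (nat_lit 9)))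
def l3856 : Root := .mk (.node (.node (.col (nat_lit 2)) (.node (.col (nat_lit 0)) (.col (nat_lit 3)) (.slot (nat_lit 5))) (.col (nat_lit 0))) (.slot (nat_lit 0)) (.node (.col (nat_lit 0)) (.slot (nat_lit 0)) (.slot (nat_lit 0)))) (.node (.col (nat_lit 3)) (.node (.col (nat_lit 0)) (.slot (nat_lit 3)) (.slot (nat_lit 1))) (.slot (nat_lit 5))) (.col (nat_lit 2)) (.col (nat_lit 0))
def w17531 : Root := .mk (.col (nat_lit 2)) (.node (.slot (nat_lit 0)) (.node (.col (nat_lit 0)) (.slot (nat_lit 0)) (.slot (nat_lit 0))) (.node (.node (.col (nat_lit 3)) (.node (.col (nat_lit 0)) (.slot (nat_lit 3)) (.slot (nat_lit 1))) (.slot (nat_lit 5))) (.col (nat_lit 2)) (.node (.col (nat_lit 2)) (.slot (nat_lit 0)) (.slot (nat_lit 0))))) (.node (.col (nat_lit 0)) (.col (nat_lit 3)) (.slot (nat_lit 5))) (.col (nat_lit 0))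
def w17540 : Root := .mk (.slot (nat_lit 0)) (.node (.col (nat_lit 3)) (.node (.col (nat_lit 0)) (.slot (nat_lit 20)) (.slot (nat_lit 12))) (.node (.col (nat_lit 3)) (.slot (nat_lit 20)) (.slot (nat_lit 9)))) (.col (nat_lit 1)) (.col (nat_lit 2))
def l3861 : Root := .mk (.col (nat_lit 2)) (.node (.slot (nat_lit 0)) (.node (.col (nat_lit 0)) (.node (.node (.col (nat_lit 0)) (.slot (nat_lit 0)) (.slot (nat_lit 0))) (.slot (nat_lit 5)) (.slot (nat_lit 5))) (.col (nat_lit 2))) (.col (nat_lit 1))) (.node (.node (.slot (nat_lit 0)) (.slot (nat_lit 0)) (.slot (nat_lit 0))) (.slot (nat_lit 5)) (.slot (nat_lit 5))) (.col (nat_lit 0))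
def w17547 : Root := .mk (.node (.node (.col (nat_lit 2)) (.node (.node (.slot (nat_lit 0)) (.slot (nat_lit 0)) (.slot (nat_lit 0))) (.slot (nat_lit 5)) (.slot (nat_lit 5))) (.col (nat_lit 0))) (.slot (nat_lit 0)) (.slot (nat_lit 1))) (.col (nat_lit 0)) (.node (.node (.col (nat_lit 0)) (.slot (nat_lit 0)) (.slot (nat_lit 0))) (.slot (nat_lit 5)) (.slot (nat_lit 5))) (.col (nat_lit 2))
def w17562 : Root := .mk (.node (.node (.slot (nat_lit 0)) (.col (nat_lit 1)) (.slot (nat_lit 0))) (.slot (nat_lit 20)) (.slot (nat_lit 12))) (.col (nat_lit 1)) (.col (nat_lit 3)) (.node (.col (nat_lit 1)) (.slot (nat_lit 20)) (.slot (nat_lit 9)))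
def w17571 : Root := .mk (.node (.slot (nat_lit 0)) (.slot (nat_lit 0)) (.col (nat_lit 1))) (.col (nat_lit 1)) (.node (.col (nat_lit 3)) (.slot (nat_lit 20)) (.slot (nat_lit 12))) (.node (.col (nat_lit 0)) (.slot (nat_lit 20)) (.slot (nat_lit 9)))
def w17572 : Root := .mk (.node (.slot (nat_lit 0)) (.slot (nat_lit 0)) (.col (nat_lit 1))) (.col (nat_lit 1)) (.node (.col (nat_lit 3)) (.slot (nat_lit 20)) (.slot (nat_lit 12))) (.node (.col (nat_lit 1)) (.slot (nat_lit 20)) (.slot (nat_lit 9)))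
def w17584 : Root := .mk (.node (.node (.col (nat_lit 2)) (.node (.slot (nat_lit 0)) (.col (nat_lit 3)) (.slot (nat_lit 0))) (.slot (nat_lit 1))) (.col (nat_lit 1)) (.col (nat_lit 0))) (.col (nat_lit 2)) (.node (.slot (nat_lit 0)) (.slot (nat_lit 0)) (.slot (nat_lit 0))) (.col (nat_lit 0))
def l3874 : Root := .mk (.node (.col (nat_lit 2)) (.node (.slot (nat_lit 0)) (.col (nat_lit 3)) (.slot (nat_lit 1))) (.slot (nat_lit 2))) (.node (.col (nat_lit 2)) (.node (.slot (nat_lit 0)) (.slot (nat_lit 0)) (.slot (nat_lit 0))) (.slot (nat_lit 2))) (.col (nat_lit 1)) (.col (nat_lit 0))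
def l3892 : Root := .mk (.node (.node (.col (nat_lit 2)) (.node (.col (nat_lit 0)) (.col (nat_lit 1)) .junk) (.slot (nat_lit 1))) (.slot (nat_lit 0)) (.col (nat_lit 1))) (.col (nat_lit 0)) (.node (.col (nat_lit 1)) (.col (nat_lit 0)) (.slot (nat_lit 5))) (.col (nat_lit 2))
def w17641 : Root := .mk (.node (.node (.col (nat_lit 2)) (.node (.col (nat_lit 0)) (.col (nat_lit 1)) .junk) (.slot (nat_lit 1))) (.slot (nat_lit 0)) (.slot (nat_lit 1))) (.col (nat_lit 0)) (.node (.col (nat_lit 1)) (.col (nat_lit 0)) (.slot (nat_lit 5))) (.col (nat_lit 2))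
def w17718 : Root := .mk (.col (nat_lit 2)) (.node (.slot (nat_lit 0)) (.node (.col (nat_lit 0)) (.col (nat_lit 4)) (.slot (nat_lit 1))) (.col (nat_lit 1))) (.node (.node (.col (nat_lit 0)) (.slot (nat_lit 0)) (.slot (nat_lit 0))) (.col (nat_lit 1)) (.slot (nat_lit 0))) (.col (nat_lit 0))
def w17722 : Root := .mk (.col (nat_lit 2)) (.node (.slot (nat_lit 0)) (.col (nat_lit 1)) (.node (.col (nat_lit 2)) (.slot (nat_lit 0)) (.slot (nat_lit 0)))) (.node (.node (.col (nat_lit 3)) (.col (nat_lit 0)) (.slot (nat_lit 1))) (.col (nat_lit 1)) (.slot (nat_lit 0))) (.col (nat_lit 0))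
def w17786 : Root := .mk (.node (.node (.node (.col (nat_lit 2)) (.node (.col (nat_lit 2)) (.col (nat_lit 1)) (.slot (nat_lit 5))) (.slot (nat_lit 8))) (.slot (nat_lit 0)) (.slot (nat_lit 1))) (.col (nat_lit 0)) (.slot (nat_lit 3))) (.node (.col (nat_lit 0)) (.slot (nat_lit 3)) (.slot (nat_lit 1))) (.col (nat_lit 3)) (.col (nat_lit 0))
def w17790 : Root := .mk (.node (.col (nat_lit 2)) (.node (.slot (nat_lit 0)) (.slot (nat_lit 0)) (.slot (nat_lit 0))) (.slot (nat_lit 8))) (.col (nat_lit 0)) (.node (.node (.col (nat_lit 1)) (.slot (nat_lit 1)) (.slot (nat_lit 9))) (.slot (nat_lit 8)) (.slot (nat_lit 5))) (.slot (nat_lit 8))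
def w17798 : Root := .mk (.node (.node (.col (nat_lit 2)) (.slot (nat_lit 0)) (.slot (nat_lit 0))) (.slot (nat_lit 0)) (.node (.col (nat_lit 1)) (.node (.node (.col (nat_lit 1)) (.slot (nat_lit 0)) (.slot (nat_lit 0))) (.col (nat_lit 2)) (.col (nat_lit 1))) (.col (nat_lit 0)))) (.col (nat_lit 0)) (.col (nat_lit 3)) (.col (nat_lit 1))
def l3926 : Root := .mk (.node (.slot (nat_lit 0)) (.slot (nat_lit 0)) (.col (nat_lit 0))) (.col (nat_lit 1)) (.node (.node (.col (nat_lit 1)) (.node (.col (nat_lit 0)) (.slot (nat_lit 5)) (.slot (nat_lit 5))) (.node (.slot (nat_lit 0)) (.slot (nat_lit 0)) (.slot (nat_lit 0)))) (.col (nat_lit 0)) (.slot (nat_lit 5))) (.col (nat_lit 2))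
def w17839 : Root := .mk (.node (.slot (nat_lit 0)) (.slot (nat_lit 0)) (.col (nat_lit 0))) (.col (nat_lit 1)) (.node (.node (.col (nat_lit 1)) (.node (.col (nat_lit 0)) (.slot (nat_lit 5)) (.slot (nat_lit 5))) (.node (.slot (nat_lit 0)) (.slot (nat_lit 0)) (.slot (nat_lit 0)))) (.slot (nat_lit 1)) (.slot (nat_lit 5))) (.col (nat_lit 2))
def w17862 : Root := .mk (.col (nat_lit 2)) (.node (.slot (nat_lit 0)) (.col (nat_lit 3)) (.node (.slot (nat_lit 0)) (.slot (nat_lit 0)) (.slot (nat_lit 0)))) (.node (.node (.col (nat_lit 0)) (.col (nat_lit 1)) (.slot (nat_lit 0))) (.col (nat_lit 0)) (.slot (nat_lit 5))) (.node (.col (nat_lit 3)) (.slot (nat_lit 3)) (.slot (nat_lit 1)))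
def w17873 : Root := .mk (.col (nat_lit 2)) (.node (.slot (nat_lit 0)) (.slot (nat_lit 0)) (.slot (nat_lit 0))) (.node (.node (.col (nat_lit 0)) (.col (nat_lit 1)) (.slot (nat_lit 2))) (.slot (nat_lit 1)) (.slot (nat_lit 1))) (.node (.col (nat_lit 0)) (.slot (nat_lit 20)) (.slot (nat_lit 9)))
def w17875 : Root := .mk (.node (.node (.col (nat_lit 2)) (.node (.slot (nat_lit 0)) (.slot (nat_lit 0)) (.slot (nat_lit 0))) (.slot (nat_lit 6))) (.slot (nat_lit 0)) (.node (.node (.col (nat_lit 0)) (.col (nat_lit 1)) (.slot (nat_lit 2))) (.slot (nat_lit 1)) (.slot (nat_lit 1)))) (.col (nat_lit 1)) (.col (nat_lit 2)) (.slot (nat_lit 6))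
def w17892 : Root := .mk (.node (.node (.node (.col (nat_lit 2)) (.node (.col (nat_lit 3)) (.slot (nat_lit 7)) (.slot (nat_lit 5))) (.slot (nat_lit 8))) (.slot (nat_lit 0)) (.node (.col (nat_lit 1)) (.slot (nat_lit 0)) (.slot (nat_lit 0)))) (.slot (nat_lit 1)) (.slot (nat_lit 1))) (.col (nat_lit 2)) (.col (nat_lit 1)) (.slot (nat_lit 2))
def l3940 : Root := .mk (.col (nat_lit 2)) (.node (.slot (nat_lit 0)) (.node (.col (nat_lit 1)) (.node (.node (.col (nat_lit 1)) (.slot (nat_lit 0)) (.slot (nat_lit 0))) (.slot (nat_lit 5)) (.slot (nat_lit 5))) (.col (nat_lit 2))) (.col (nat_lit 3))) (.node (.node (.col (nat_lit 0)) (.slot (nat_lit 0)) (.slot (nat_lit 0))) (.slot (nat_lit 5)) (.slot (nat_lit 5))) (.col (nat_lit 1))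
def w17908 : Root := .mk (.node (.node (.col (nat_lit 2)) (.node (.node (.col (nat_lit 0)) (.slot (nat_lit 0)) (.slot (nat_lit 0))) (.slot (nat_lit 5)) (.slot (nat_lit 5))) (.col (nat_lit 1))) (.slot (nat_lit 0)) (.slot (nat_lit 1))) (.col (nat_lit 1)) (.node (.node (.col (nat_lit 1)) (.slot (nat_lit 0)) (.slot (nat_lit 0))) (.slot (nat_lit 5)) (.slot (nat_lit 5))) (.col (nat_lit 2))
def w17935 : Root := .mk (.node (.col (nat_lit 2)) (.node (.slot (nat_lit 0)) (.node (.col (nat_lit 1)) (.slot (nat_lit 0)) (.slot (nat_lit 0))) (.col (nat_lit 0))) (.node (.col (nat_lit 0)) (.slot (nat_lit 4)) (.slot (nat_lit 4)))) (.node (.col (nat_lit 0)) (.slot (nat_lit 1)) (.slot (nat_lit 1))) (.col (nat_lit 0)) (.col (nat_lit 2))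
def w17950 : Root := .mk (.col (nat_lit 3)) (.slot (nat_lit 0)) (.node (.col (nat_lit 1)) (.node (.col (nat_lit 4)) (.col (nat_lit 3)) .junk) (.slot (nat_lit 1))) (.node (.col (nat_lit 2)) (.node (.col (nat_lit 0)) (.slot (nat_lit 3)) (.slot (nat_lit 1))) (.slot (nat_lit 1)))
def w17951 : Root := .mk (.node (.col (nat_lit 2)) (.node (.node (.col (nat_lit 0)) (.slot (nat_lit 0)) (.slot (nat_lit 0))) (.col (nat_lit 0)) (.slot (nat_lit 2))) (.slot (nat_lit 2))) (.col (nat_lit 2)) (.node (.col (nat_lit 1)) .junk (.slot (nat_lit 1))) (.node (.col (nat_lit 2)) (.node (.col (nat_lit 0)) (.slot (nat_lit 20)) (.slot (nat_lit 9))) (.slot (nat_lit 1)))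
def w17979 : Root := .mk (.node (.node (.col (nat_lit 2)) (.node (.slot (nat_lit 0)) (.slot (nat_lit 0)) (.slot (nat_lit 0))) (.slot (nat_lit 6))) (.slot (nat_lit 0)) (.node (.col (nat_lit 1)) (.node (.node (.col (nat_lit 1)) (.slot (nat_lit 3)) (.slot (nat_lit 1))) (.slot (nat_lit 1)) (.slot (nat_lit 1))) (.slot (nat_lit 3)))) (.col (nat_lit 2)) (.col (nat_lit 3)) (.slot (nat_lit 6))
def w17986 : Root := .mk (.node (.node (.col (nat_lit 2)) (.slot (nat_lit 0)) (.slot (nat_lit 0))) (.node (.node (.col (nat_lit 1)) (.slot (nat_lit 3)) (.slot (nat_lit 1))) (.slot (nat_lit 1)) (.slot (nat_lit 1))) (.slot (nat_lit 3))) (.col (nat_lit 0)) (.col (nat_lit 4)) (.col (nat_lit 2))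
def w18041 : Root := .mk (.node (.node (.col (nat_lit 2)) (.slot (nat_lit 0)) (.slot (nat_lit 0))) (.col (nat_lit 1)) (.slot (nat_lit 0))) (.col (nat_lit 2)) (.node (.node (.col (nat_lit 2)) (.col (nat_lit 0)) (.slot (nat_lit 5))) (.col (nat_lit 0)) (.slot (nat_lit 1))) (.node (.col (nat_lit 2)) (.slot (nat_lit 1)) (.slot (nat_lit 1)))
def w18058 : Root := .mk (.col (nat_lit 2)) (.node (.slot (nat_lit 0)) (.col (nat_lit 1)) (.node (.col (nat_lit 0)) (.slot (nat_lit 0)) (.slot (nat_lit 0)))) (.node (.node (.slot (nat_lit 0)) (.slot (nat_lit 0)) (.slot (nat_lit 0))) (.slot (nat_lit 7)) (.slot (nat_lit 5))) (.node (.col (nat_lit 1)) (.slot (nat_lit 7)) (.slot (nat_lit 5)))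
def w18059 : Root := .mk (.col (nat_lit 2)) (.node (.slot (nat_lit 0)) (.col (nat_lit 1)) (.node (.col (nat_lit 1)) (.slot (nat_lit 0)) (.slot (nat_lit 0)))) (.node (.node (.slot (nat_lit 0)) (.slot (nat_lit 0)) (.slot (nat_lit 0))) (.slot (nat_lit 7)) (.slot (nat_lit 5))) (.node (.col (nat_lit 1)) (.slot (nat_lit 7)) (.slot (nat_lit 5)))
def w18060 : Root := .mk (.col (nat_lit 2)) (.node (.slot (nat_lit 0)) (.col (nat_lit 1)) (.node (.col (nat_lit 2)) (.slot (nat_lit 0)) (.slot (nat_lit 0)))) (.node (.node (.slot (nat_lit 0)) (.slot (nat_lit 0)) (.slot (nat_lit 0))) (.slot (nat_lit 7)) (.slot (nat_lit 5))) (.node (.col (nat_lit 1)) (.slot (nat_lit 7)) (.slot (nat_lit 5)))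
def w18075 : Root := .mk (.node (.node (.col (nat_lit 2)) (.col (nat_lit 0)) .junk) (.col (nat_lit 1)) (.slot (nat_lit 1))) (.node (.col (nat_lit 1)) (.col (nat_lit 2)) (.slot (nat_lit 8))) (.node (.slot (nat_lit 0)) (.slot (nat_lit 1)) (.slot (nat_lit 1))) (.col (nat_lit 1))
def w18076 : Root := .mk (.node (.node (.node (.col (nat_lit 2)) (.col (nat_lit 0)) .junk) (.col (nat_lit 1)) (.slot (nat_lit 1))) (.node (.slot (nat_lit 0)) (.slot (nat_lit 0)) (.slot (nat_lit 0))) (.node (.col (nat_lit 3)) (.slot (nat_lit 0)) (.slot (nat_lit 0)))) (.col (nat_lit 1)) (.col (nat_lit 2)) (.slot (nat_lit 3))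
def w18077 : Root := .mk (.node (.slot (nat_lit 0)) (.col (nat_lit 1)) (.slot (nat_lit 1))) (.col (nat_lit 4)) (.node (.node (.col (nat_lit 2)) (.node (.col (nat_lit 1)) (.slot (nat_lit 20)) (.slot (nat_lit 9))) (.node (.slot (nat_lit 0)) (.slot (nat_lit 0)) (.slot (nat_lit 0)))) (.slot (nat_lit 5)) (.slot (nat_lit 1))) (.col (nat_lit 3))
def w18080 : Root := .mk (.node (.node (.col (nat_lit 3)) (.slot (nat_lit 0)) (.slot (nat_lit 1))) (.slot (nat_lit 1)) (.slot (nat_lit 3))) (.col (nat_lit 2)) (.node (.col (nat_lit 1)) (.slot (nat_lit 4)) (.slot (nat_lit 4))) (.node (.slot (nat_lit 0)) (.col (nat_lit 1)) (.slot (nat_lit 1)))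
def w18086 : Root := .mk (.node (.node (.col (nat_lit 3)) (.slot (nat_lit 0)) (.slot (nat_lit 1))) (.node (.col (nat_lit 0)) (.slot (nat_lit 0)) (.slot (nat_lit 0))) (.slot (nat_lit 3))) (.col (nat_lit 2)) (.node (.col (nat_lit 1)) (.slot (nat_lit 4)) (.slot (nat_lit 4))) (.node (.slot (nat_lit 0)) (.col (nat_lit 1)) (.slot (nat_lit 1)))
def w18098 : Root := .mk (.col (nat_lit 2)) (.node (.slot (nat_lit 0)) (.col (nat_lit 1)) (.col (nat_lit 0))) (.node (.node (.node (.col (nat_lit 1)) (.col (nat_lit 2)) (.slot (nat_lit 0))) (.col (nat_lit 2)) (.col (nat_lit 1))) (.col (nat_lit 1)) (.slot (nat_lit 1))) (.col (nat_lit 0))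
def w18102 : Root := .mk (.node (.node (.col (nat_lit 2)) (.slot (nat_lit 0)) (.slot (nat_lit 1))) (.col (nat_lit 1)) (.slot (nat_lit 1))) (.node (.col (nat_lit 1)) (.col (nat_lit 2)) (.slot (nat_lit 5))) (.col (nat_lit 2)) (.node (.col (nat_lit 0)) (.slot (nat_lit 0)) (.slot (nat_lit 0)))
def l3995 : Root := .mk (.node (.node (.slot (nat_lit 0)) (.slot (nat_lit 0)) (.slot (nat_lit 0))) (.node (.col (nat_lit 1)) (.col (nat_lit 2)) (.slot (nat_lit 2))) (.slot (nat_lit 8))) (.col (nat_lit 1)) (.col (nat_lit 0)) (.node (.col (nat_lit 3)) (.slot (nat_lit 20)) (.slot (nat_lit 9)))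
def w18112 : Root := .mk (.node (.node (.slot (nat_lit 0)) (.slot (nat_lit 0)) (.slot (nat_lit 0))) (.node (.col (nat_lit 1)) (.col (nat_lit 2)) (.slot (nat_lit 2))) (.slot (nat_lit 8))) (.col (nat_lit 1)) (.col (nat_lit 0)) (.slot (nat_lit 21))
def w18136 : Root := .mk (.node (.node (.slot (nat_lit 0)) (.slot (nat_lit 0)) (.slot (nat_lit 0))) (.node (.col (nat_lit 1)) (.col (nat_lit 2)) (.slot (nat_lit 2))) (.slot (nat_lit 1))) (.node (.col (nat_lit 2)) (.slot (nat_lit 1)) (.slot (nat_lit 1))) (.col (nat_lit 1)) (.node (.node (.col (nat_lit 2)) (.slot (nat_lit 0)) (.slot (nat_lit 0))) (.slot (nat_lit 2)) (.slot (nat_lit 1)))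
def w18137 : Root := .mk (.node (.node (.col (nat_lit 2)) (.slot (nat_lit 0)) (.slot (nat_lit 0))) (.slot (nat_lit 2)) (.slot (nat_lit 2))) (.col (nat_lit 4)) (.node (.node (.col (nat_lit 2)) (.slot (nat_lit 0)) (.slot (nat_lit 0))) (.col (nat_lit 1)) (.node (.slot (nat_lit 0)) (.slot (nat_lit 0)) (.slot (nat_lit 0)))) (.col (nat_lit 0))
def w18146 : Root := .mk (.node (.node (.slot (nat_lit 0)) (.col (nat_lit 4)) (.col (nat_lit 0))) (.slot (nat_lit 20)) (.slot (nat_lit 12))) (.col (nat_lit 2)) (.node (.col (nat_lit 3)) (.slot (nat_lit 20)) (.slot (nat_lit 9))) (.col (nat_lit 3))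
def w18157 : Root := .mk (.col (nat_lit 2)) (.node (.slot (nat_lit 0)) (.col (nat_lit 1)) (.slot (nat_lit 1))) (.node (.node (.node (.col (nat_lit 1)) (.col (nat_lit 2)) (.slot (nat_lit 2))) (.node (.slot (nat_lit 0)) (.slot (nat_lit 0)) (.slot (nat_lit 0))) (.slot (nat_lit 1))) (.node (.col (nat_lit 1)) (.slot (nat_lit 1)) (.slot (nat_lit 1))) (.slot (nat_lit 2))) (.node (.col (nat_lit 1)) (.slot (nat_lit 1)) (.slot (nat_lit 1)))
def w18159 : Root := .mk (.node (.node (.col (nat_lit 2)) (.node (.slot (nat_lit 0)) (.col (nat_lit 1)) (.slot (nat_lit 0))) (.slot (nat_lit 9))) (.slot (nat_lit 8)) (.slot (nat_lit 8))) (.col (nat_lit 0)) (.node (.col (nat_lit 3)) (.slot (nat_lit 8)) (.slot (nat_lit 5))) (.slot (nat_lit 8))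
def w18165 : Root := .mk (.node (.node (.node (.col (nat_lit 2)) (.slot (nat_lit 0)) (.slot (nat_lit 0))) (.slot (nat_lit 20)) (.slot (nat_lit 9))) (.col (nat_lit 4)) (.slot (nat_lit 1))) (.col (nat_lit 3)) (.node (.col (nat_lit 0)) (.slot (nat_lit 0)) (.slot (nat_lit 0))) (.col (nat_lit 0))
def l4003 : Root := .mk (.node (.node (.node (.col (nat_lit 2)) (.slot (nat_lit 0)) (.slot (nat_lit 0))) (.slot (nat_lit 20)) (.slot (nat_lit 9))) (.node (.col (nat_lit 3)) (.node (.col (nat_lit 0)) (.slot (nat_lit 3)) (.slot (nat_lit 1))) (.col (nat_lit 0))) (.slot (nat_lit 3))) (.col (nat_lit 1)) (.col (nat_lit 2)) (.node (.col (nat_lit 4)) (.slot (nat_lit 20)) (.slot (nat_lit 9)))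
def w18179 : Root := .mk (.node (.node (.node (.col (nat_lit 2)) (.slot (nat_lit 0)) (.slot (nat_lit 0))) (.slot (nat_lit 20)) (.slot (nat_lit 9))) (.node (.col (nat_lit 1)) (.col (nat_lit 2)) (.slot (nat_lit 21))) (.slot (nat_lit 3))) (.col (nat_lit 3)) (.node (.col (nat_lit 0)) (.slot (nat_lit 3)) (.slot (nat_lit 1))) (.col (nat_lit 0))
def w18180 : Root := .mk (.node (.node (.slot (nat_lit 0)) (.slot (nat_lit 0)) (.slot (nat_lit 0))) (.node (.col (nat_lit 1)) (.col (nat_lit 2)) (.slot (nat_lit 2))) (.slot (nat_lit 8))) (.col (nat_lit 3)) (.node (.col (nat_lit 0)) (.slot (nat_lit 20)) (.slot (nat_lit 9))) (.node (.slot (nat_lit 0)) (.slot (nat_lit 0)) (.slot (nat_lit 0)))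
def l4004 : Root := .mk (.node (.node (.slot (nat_lit 0)) (.slot (nat_lit 0)) (.slot (nat_lit 0))) (.node (.col (nat_lit 3)) (.node (.col (nat_lit 0)) (.slot (nat_lit 3)) (.slot (nat_lit 1))) (.slot (nat_lit 8))) (.slot (nat_lit 8))) (.col (nat_lit 1)) (.col (nat_lit 2)) (.col (nat_lit 3))
def w18184 : Root := .mk (.node (.node (.slot (nat_lit 0)) (.slot (nat_lit 0)) (.slot (nat_lit 0))) (.node (.col (nat_lit 3)) (.node (.col (nat_lit 0)) (.slot (nat_lit 3)) (.slot (nat_lit 1))) (.slot (nat_lit 8))) (.slot (nat_lit 8))) (.col (nat_lit 1)) (.col (nat_lit 2)) (.node (.slot (nat_lit 0)) (.slot (nat_lit 0)) (.slot (nat_lit 0)))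
def l4006 : Root := .mk (.col (nat_lit 2)) (.node (.slot (nat_lit 0)) (.col (nat_lit 1)) (.slot (nat_lit 5))) (.node (.node (.col (nat_lit 3)) (.node (.node (.col (nat_lit 2)) (.col (nat_lit 0)) (.slot (nat_lit 21))) (.slot (nat_lit 5)) (.slot (nat_lit 1))) (.slot (nat_lit 1))) (.col (nat_lit 1)) (.slot (nat_lit 2))) (.col (nat_lit 0))
def w18189 : Root := .mk (.col (nat_lit 2)) (.node (.slot (nat_lit 0)) (.col (nat_lit 1)) (.slot (nat_lit 5))) (.node (.node (.col (nat_lit 3)) (.node (.node (.col (nat_lit 2)) (.col (nat_lit 0)) (.slot (nat_lit 21))) (.slot (nat_lit 5)) (.slot (nat_lit 1))) (.slot (nat_lit 1))) (.slot (nat_lit 1)) (.slot (nat_lit 2))) (.col (nat_lit 0))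
def w18192 : Root := .mk (.col (nat_lit 1)) (.node (.node (.col (nat_lit 1)) (.slot (nat_lit 1)) (.slot (nat_lit 1))) (.node (.col (nat_lit 1)) (.slot (nat_lit 1)) (.slot (nat_lit 1))) (.slot (nat_lit 1))) (.slot (nat_lit 1)) (.slot (nat_lit 1))
def w18206 : Root := .mk (.node (.node (.node (.node (.slot (nat_lit 0)) (.slot (nat_lit 0)) (.slot (nat_lit 0))) (.node (.col (nat_lit 1)) (.slot (nat_lit 7)) (.slot (nat_lit 5))) (.slot (nat_lit 8))) (.slot (nat_lit 1)) (.slot (nat_lit 3))) (.col (nat_lit 2)) (.slot (nat_lit 8))) (.col (nat_lit 1)) (.col (nat_lit 3)) (.node (.slot (nat_lit 0)) (.slot (nat_lit 1)) (.slot (nat_lit 1)))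
def w18211 : Root := .mk (.node (.node (.col (nat_lit 3)) (.col (nat_lit 0)) (.slot (nat_lit 3))) (.node (.node (.col (nat_lit 2)) (.slot (nat_lit 12)) (.slot (nat_lit 10))) (.slot (nat_lit 7)) (.slot (nat_lit 5))) (.slot (nat_lit 8))) (.col (nat_lit 1)) (.col (nat_lit 0)) (.slot (nat_lit 0))
def l4017 : Root := .mk (.node (.col (nat_lit 2)) (.node (.slot (nat_lit 0)) (.col (nat_lit 3)) (.node (.col (nat_lit 4)) (.slot (nat_lit 0)) (.slot (nat_lit 0)))) (.col (nat_lit 4))) (.node (.col (nat_lit 4)) (.node (.slot (nat_lit 0)) (.slot (nat_lit 0)) (.slot (nat_lit 0))) (.slot (nat_lit 1))) (.col (nat_lit 3)) (.col (nat_lit 2))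
def w18246 : Root := .mk (.node (.node (.node (.col (nat_lit 2)) (.node (.slot (nat_lit 0)) (.slot (nat_lit 0)) (.slot (nat_lit 0))) (.slot (nat_lit 1))) (.slot (nat_lit 1)) (.slot (nat_lit 2))) (.col (nat_lit 4)) (.slot (nat_lit 1))) (.col (nat_lit 1)) (.col (nat_lit 0)) (.node (.slot (nat_lit 0)) (.col (nat_lit 4)) (.col (nat_lit 0)))
def w18252 : Root := .mk (.node (.node (.slot (nat_lit 0)) (.slot (nat_lit 0)) (.slot (nat_lit 0))) (.node (.col (nat_lit 3)) (.col (nat_lit 0)) (.slot (nat_lit 1))) (.slot (nat_lit 1))) (.col (nat_lit 1)) (.col (nat_lit 0)) (.node (.slot (nat_lit 0)) (.col (nat_lit 4)) (.node (.col (nat_lit 4)) (.slot (nat_lit 0)) (.slot (nat_lit 0))))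
def l4023 : Root := .mk (.node (.node (.node (.col (nat_lit 2)) (.node (.slot (nat_lit 0)) (.slot (nat_lit 0)) (.slot (nat_lit 0))) (.slot (nat_lit 1))) (.slot (nat_lit 2)) (.slot (nat_lit 1))) (.col (nat_lit 4)) (.slot (nat_lit 2))) (.col (nat_lit 1)) (.col (nat_lit 0)) (.node (.slot (nat_lit 0)) (.col (nat_lit 4)) (.slot (nat_lit 5)))
def w18253 : Root := .mk (.node (.node (.node (.col (nat_lit 2)) (.node (.slot (nat_lit 0)) (.slot (nat_lit 0)) (.slot (nat_lit 0))) (.slot (nat_lit 1))) (.slot (nat_lit 2)) (.slot (nat_lit 1))) (.col (nat_lit 4)) (.slot (nat_lit 2))) (.col (nat_lit 1)) (.col (nat_lit 0)) (.node (.slot (nat_lit 0)) (.slot (nat_lit 1)) (.slot (nat_lit 5)))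
def w18271 : Root := .mk (.node (.col (nat_lit 4)) (.node (.node (.col (nat_lit 2)) (.slot (nat_lit 1)) (.slot (nat_lit 1))) (.col (nat_lit 3)) (.col (nat_lit 2))) (.node (.col (nat_lit 3)) (.slot (nat_lit 7)) (.slot (nat_lit 5)))) (.col (nat_lit 1)) (.col (nat_lit 0)) (.slot (nat_lit 0))
def l4034 : Root := .mk (.col (nat_lit 1)) (.node (.node (.col (nat_lit 1)) (.col (nat_lit 0)) (.node (.node (.col (nat_lit 2)) (.slot (nat_lit 1)) (.slot (nat_lit 1))) (.col (nat_lit 3)) (.slot (nat_lit 2)))) (.col (nat_lit 0)) (.slot (nat_lit 2))) (.col (nat_lit 0)) (.col (nat_lit 2))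
def w18296 : Root := .mk (.col (nat_lit 1)) (.node (.node (.col (nat_lit 1)) (.col (nat_lit 0)) (.node (.node (.col (nat_lit 2)) (.slot (nat_lit 1)) (.slot (nat_lit 1))) (.slot (nat_lit 1)) (.slot (nat_lit 2)))) (.col (nat_lit 0)) (.slot (nat_lit 2))) (.col (nat_lit 0)) (.col (nat_lit 2))
def l4035 : Root := .mk (.col (nat_lit 1)) (.node (.node (.col (nat_lit 1)) (.col (nat_lit 0)) (.node (.node (.col (nat_lit 2)) (.slot (nat_lit 1)) (.slot (nat_lit 1))) (.col (nat_lit 3)) (.slot (nat_lit 2)))) (.node (.slot (nat_lit 0)) (.slot (nat_lit 0)) (.slot (nat_lit 0))) (.col (nat_lit 0))) (.col (nat_lit 0)) (.col (nat_lit 2))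
def w18297 : Root := .mk (.col (nat_lit 1)) (.node (.node (.col (nat_lit 1)) (.col (nat_lit 0)) (.node (.node (.col (nat_lit 2)) (.slot (nat_lit 1)) (.slot (nat_lit 1))) (.slot (nat_lit 1)) (.slot (nat_lit 2)))) (.node (.slot (nat_lit 0)) (.slot (nat_lit 0)) (.slot (nat_lit 0))) (.col (nat_lit 0))) (.col (nat_lit 0)) (.col (nat_lit 2))
def l4036 : Root := .mk (.col (nat_lit 1)) (.node (.node (.col (nat_lit 1)) (.col (nat_lit 0)) (.node (.node (.col (nat_lit 2)) (.slot (nat_lit 1)) (.slot (nat_lit 1))) (.slot (nat_lit 2)) (.slot (nat_lit 1)))) (.node (.slot (nat_lit 0)) (.slot (nat_lit 0)) (.slot (nat_lit 0))) (.slot (nat_lit 2))) (.col (nat_lit 0)) (.col (nat_lit 2))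
def w18309 : Root := .mk (.node (.node (.col (nat_lit 2)) (.slot (nat_lit 0)) (.slot (nat_lit 0))) .junk (.col (nat_lit 2))) (.node (.col (nat_lit 1)) (.col (nat_lit 0)) (.node (.node (.col (nat_lit 3)) (.slot (nat_lit 1)) (.slot (nat_lit 1))) (.slot (nat_lit 2)) (.slot (nat_lit 1)))) (.col (nat_lit 4)) (.col (nat_lit 0))
def w18319 : Root := .mk (.node (.node (.node (.col (nat_lit 2)) (.col (nat_lit 0)) (.slot (nat_lit 0))) (.col (nat_lit 0)) (.slot (nat_lit 3))) (.node (.slot (nat_lit 0)) (.slot (nat_lit 0)) (.slot (nat_lit 0))) (.slot (nat_lit 1))) (.col (nat_lit 1)) (.col (nat_lit 0)) (.node (.node (.slot (nat_lit 0)) (.slot (nat_lit 0)) (.slot (nat_lit 0))) (.slot (nat_lit 2)) (.slot (nat_lit 2)))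
def l4046 : Root := .mk (.col (nat_lit 4)) (.node (.col (nat_lit 2)) (.node (.col (nat_lit 1)) (.slot (nat_lit 1)) (.slot (nat_lit 1))) (.node (.col (nat_lit 2)) (.node (.col (nat_lit 1)) (.slot (nat_lit 0)) (.slot (nat_lit 0))) (.col (nat_lit 1)))) (.col (nat_lit 0)) (.col (nat_lit 1))
def w18330 : Root := .mk (.node (.node (.col (nat_lit 4)) (.col (nat_lit 0)) (.slot (nat_lit 1))) (.col (nat_lit 2)) (.node (.col (nat_lit 1)) (.slot (nat_lit 1)) (.slot (nat_lit 1)))) (.col (nat_lit 2)) (.node (.col (nat_lit 1)) (.slot (nat_lit 0)) (.slot (nat_lit 0))) (.col (nat_lit 1))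
def w18331 : Root := .mk (.node (.node (.node .junk (.col (nat_lit 3)) (.col (nat_lit 1))) (.col (nat_lit 0)) (.slot (nat_lit 1))) (.col (nat_lit 2)) (.node (.col (nat_lit 1)) (.slot (nat_lit 1)) (.slot (nat_lit 1)))) (.col (nat_lit 2)) (.node (.col (nat_lit 1)) (.slot (nat_lit 0)) (.slot (nat_lit 0))) (.col (nat_lit 1))
def w18346 : Root := .mk (.col (nat_lit 0)) (.node (.col (nat_lit 1)) (.col (nat_lit 0)) (.slot (nat_lit 5))) (.node (.node (.col (nat_lit 2)) (.slot (nat_lit 0)) (.slot (nat_lit 0))) (.node (.col (nat_lit 2)) (.slot (nat_lit 1)) (.slot (nat_lit 0))) (.node (.col (nat_lit 0)) (.slot (nat_lit 0)) (.slot (nat_lit 0)))) (.col (nat_lit 2))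
def w18348 : Root := .mk (.col (nat_lit 0)) (.node (.col (nat_lit 1)) (.col (nat_lit 0)) (.slot (nat_lit 5))) (.node (.node (.col (nat_lit 2)) (.slot (nat_lit 0)) (.slot (nat_lit 0))) (.node (.col (nat_lit 2)) (.slot (nat_lit 0)) (.slot (nat_lit 1))) (.slot (nat_lit 1))) (.col (nat_lit 2))
def w18360 : Root := .mk (.node (.slot (nat_lit 0)) (.node (.slot (nat_lit 0)) (.slot (nat_lit 0)) (.slot (nat_lit 0))) (.slot (nat_lit 1))) (.col (nat_lit 2)) (.node (.node (.col (nat_lit 2)) (.slot (nat_lit 21)) (.slot (nat_lit 1))) (.slot (nat_lit 20)) (.slot (nat_lit 12))) (.node (.col (nat_lit 2)) (.node (.col (nat_lit 1)) (.slot (nat_lit 1)) (.slot (nat_lit 1))) (.slot (nat_lit 2)))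
def w18364 : Root := .mk (.col (nat_lit 0)) (.node (.col (nat_lit 1)) (.col (nat_lit 0)) (.slot (nat_lit 5))) (.node (.node (.col (nat_lit 2)) (.node (.slot (nat_lit 0)) (.col (nat_lit 2)) (.slot (nat_lit 0))) (.slot (nat_lit 0))) (.col (nat_lit 1)) (.slot (nat_lit 1))) (.node (.col (nat_lit 0)) (.slot (nat_lit 0)) (.slot (nat_lit 0)))
def w18366 : Root := .mk (.col (nat_lit 0)) (.node (.col (nat_lit 1)) (.col (nat_lit 0)) (.slot (nat_lit 5))) (.node (.node (.col (nat_lit 2)) (.node (.slot (nat_lit 0)) (.col (nat_lit 2)) (.slot (nat_lit 0))) (.slot (nat_lit 0))) (.col (nat_lit 1)) (.slot (nat_lit 1))) (.node (.col (nat_lit 3)) (.slot (nat_lit 0)) (.slot (nat_lit 0)))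
def w18375 : Root := .mk (.node (.col (nat_lit 0)) (.node (.node (.col (nat_lit 2)) (.node (.node (.col (nat_lit 2)) (.slot (nat_lit 3)) (.slot (nat_lit 1))) (.node (.col (nat_lit 0)) (.slot (nat_lit 1)) (.slot (nat_lit 1))) (.slot (nat_lit 2))) (.slot (nat_lit 3))) (.slot (nat_lit 7)) (.slot (nat_lit 5))) (.slot (nat_lit 1))) (.col (nat_lit 1)) (.col (nat_lit 0)) (.slot (nat_lit 2))
def w18378 : Root := .mk (.col (nat_lit 0)) (.node (.col (nat_lit 1)) (.col (nat_lit 0)) (.slot (nat_lit 0))) (.node (.node (.col (nat_lit 2)) (.node (.node (.col (nat_lit 2)) (.slot (nat_lit 7)) (.slot (nat_lit 5))) (.slot (nat_lit 8)) (.slot (nat_lit 1))) (.slot (nat_lit 8))) (.slot (nat_lit 8)) (.slot (nat_lit 5))) (.col (nat_lit 1))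
def w18379 : Root := .mk (.col (nat_lit 0)) (.node (.col (nat_lit 1)) (.col (nat_lit 0)) (.slot (nat_lit 2))) (.node (.node (.col (nat_lit 2)) (.node (.node (.col (nat_lit 2)) (.slot (nat_lit 3)) (.slot (nat_lit 1))) (.slot (nat_lit 1)) (.slot (nat_lit 1))) (.slot (nat_lit 3))) (.slot (nat_lit 7)) (.slot (nat_lit 5))) (.node (.col (nat_lit 0)) (.slot (nat_lit 0)) (.slot (nat_lit 0)))
def w18392 : Root := .mk (.col (nat_lit 0)) (.node (.col (nat_lit 1)) (.col (nat_lit 0)) (.slot (nat_lit 2))) (.node (.node (.col (nat_lit 2)) (.node (.node (.col (nat_lit 2)) (.slot (nat_lit 3)) (.slot (nat_lit 1))) (.slot (nat_lit 1)) (.slot (nat_lit 1))) (.slot (nat_lit 3))) (.slot (nat_lit 7)) (.slot (nat_lit 5))) (.node (.slot (nat_lit 0)) (.slot (nat_lit 0)) (.slot (nat_lit 0)))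
def w18406 : Root := .mk (.node (.col (nat_lit 2)) (.node (.slot (nat_lit 0)) (.col (nat_lit 1)) (.slot (nat_lit 0))) (.slot (nat_lit 1))) (.node (.node (.col (nat_lit 1)) .junk (.col (nat_lit 3))) (.col (nat_lit 0)) (.slot (nat_lit 1))) (.col (nat_lit 0)) (.slot (nat_lit 3))
def l4060 : Root := .mk (.node (.node (.node (.col (nat_lit 2)) (.col (nat_lit 0)) (.node (.col (nat_lit 1)) (.slot (nat_lit 1)) (.slot (nat_lit 1)))) (.col (nat_lit 4)) (.slot (nat_lit 1))) (.col (nat_lit 0)) (.slot (nat_lit 1))) (.col (nat_lit 1)) (.col (nat_lit 0)) (.col (nat_lit 3))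
def w18434 : Root := .mk (.node (.node (.col (nat_lit 4)) (.node (.node (.col (nat_lit 3)) (.slot (nat_lit 1)) (.slot (nat_lit 1))) (.col (nat_lit 4)) (.slot (nat_lit 2))) (.slot (nat_lit 1))) (.col (nat_lit 0)) (.slot (nat_lit 1))) (.col (nat_lit 1)) (.col (nat_lit 0)) (.slot (nat_lit 1))
def w18453 : Root := .mk (.col (nat_lit 2)) (.col (nat_lit 1)) (.node (.node (.node (.col (nat_lit 1)) (.slot (nat_lit 1)) (.slot (nat_lit 1))) (.node (.slot (nat_lit 0)) (.col (nat_lit 0)) (.slot (nat_lit 0))) (.col (nat_lit 3))) (.col (nat_lit 1)) (.slot (nat_lit 1))) (.slot (nat_lit 0))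
def w18458 : Root := .mk (.col (nat_lit 2)) (.col (nat_lit 1)) (.node (.node (.col (nat_lit 0)) (.node (.node (.col (nat_lit 2)) (.slot (nat_lit 1)) (.slot (nat_lit 1))) (.col (nat_lit 0)) (.slot (nat_lit 2))) (.slot (nat_lit 2))) (.col (nat_lit 1)) (.slot (nat_lit 1))) (.slot (nat_lit 0))
def w18468 : Root := .mk (.col (nat_lit 0)) (.node (.node (.col (nat_lit 1)) (.node (.col (nat_lit 2)) (.slot (nat_lit 1)) (.slot (nat_lit 1))) (.slot (nat_lit 2))) (.node .junk (.col (nat_lit 0)) (.col (nat_lit 2))) (.slot (nat_lit 1))) (.col (nat_lit 2)) (.slot (nat_lit 0))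
def w18469 : Root := .mk (.col (nat_lit 0)) (.node (.node (.col (nat_lit 1)) (.node (.col (nat_lit 2)) (.slot (nat_lit 1)) (.slot (nat_lit 1))) (.slot (nat_lit 2))) (.node (.node (.col (nat_lit 2)) (.slot (nat_lit 3)) (.slot (nat_lit 1))) (.col (nat_lit 0)) (.slot (nat_lit 2))) (.col (nat_lit 0))) (.col (nat_lit 2)) (.slot (nat_lit 0))
def w18475 : Root := .mk (.col (nat_lit 0)) (.node (.node (.col (nat_lit 1)) (.node (.col (nat_lit 2)) (.slot (nat_lit 1)) (.slot (nat_lit 1))) (.slot (nat_lit 2))) (.node (.col (nat_lit 1)) (.col (nat_lit 0)) (.slot (nat_lit 1))) (.slot (nat_lit 1))) (.col (nat_lit 2)) (.slot (nat_lit 0))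
def w18483 : Root := .mk (.col (nat_lit 0)) (.node (.node (.col (nat_lit 1)) (.slot (nat_lit 0)) (.slot (nat_lit 0))) (.node (.node (.col (nat_lit 2)) (.slot (nat_lit 12)) (.slot (nat_lit 10))) (.slot (nat_lit 7)) (.slot (nat_lit 5))) (.slot (nat_lit 8))) (.col (nat_lit 4)) (.slot (nat_lit 3))
def w18484 : Root := .mk (.col (nat_lit 0)) (.node (.node (.col (nat_lit 1)) (.slot (nat_lit 0)) (.slot (nat_lit 0))) (.node (.node (.col (nat_lit 2)) (.slot (nat_lit 12)) (.slot (nat_lit 10))) (.slot (nat_lit 8)) (.slot (nat_lit 8))) (.slot (nat_lit 5))) (.node (.col (nat_lit 3)) (.slot (nat_lit 5)) (.slot (nat_lit 1))) (.col (nat_lit 3))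
def w18497 : Root := .mk (.node (.col (nat_lit 0)) (.node (.col (nat_lit 3)) (.slot (nat_lit 0)) (.slot (nat_lit 0))) (.node (.node (.col (nat_lit 2)) (.slot (nat_lit 0)) (.slot (nat_lit 0))) (.slot (nat_lit 20)) (.slot (nat_lit 9)))) (.node (.col (nat_lit 1)) (.slot (nat_lit 0)) (.slot (nat_lit 0))) (.col (nat_lit 1)) (.col (nat_lit 4))
def w18528 : Root := .mk (.node (.col (nat_lit 0)) (.node (.col (nat_lit 3)) (.slot (nat_lit 0)) (.slot (nat_lit 1))) (.slot (nat_lit 1))) (.node (.col (nat_lit 1)) (.slot (nat_lit 0)) (.slot (nat_lit 0))) (.node (.node (.col (nat_lit 2)) (.slot (nat_lit 1)) (.slot (nat_lit 1))) (.col (nat_lit 1)) (.slot (nat_lit 2))) (.col (nat_lit 1))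
def w18533 : Root := .mk (.col (nat_lit 1)) (.node (.node (.col (nat_lit 1)) (.slot (nat_lit 0)) (.slot (nat_lit 0))) (.node (.node (.col (nat_lit 2)) (.slot (nat_lit 12)) (.slot (nat_lit 10))) (.slot (nat_lit 8)) (.slot (nat_lit 8))) (.slot (nat_lit 5))) (.node (.col (nat_lit 0)) (.slot (nat_lit 5)) (.slot (nat_lit 1))) (.col (nat_lit 0))
def w18534 : Root := .mk (.node (.node (.col (nat_lit 1)) (.node (.col (nat_lit 0)) (.slot (nat_lit 1)) (.slot (nat_lit 1))) (.slot (nat_lit 2))) (.node (.node (.col (nat_lit 2)) (.slot (nat_lit 4)) (.slot (nat_lit 1))) (.slot (nat_lit 8)) (.slot (nat_lit 8))) (.col (nat_lit 1))) (.col (nat_lit 1)) (.node (.col (nat_lit 3)) (.slot (nat_lit 0)) (.slot (nat_lit 0))) (.col (nat_lit 3))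
def l4090 : Root := .mk (.node (.col (nat_lit 1)) (.node (.col (nat_lit 0)) (.slot (nat_lit 8)) (.slot (nat_lit 8))) (.slot (nat_lit 8))) (.node (.col (nat_lit 1)) (.node (.col (nat_lit 3)) (.slot (nat_lit 8)) (.slot (nat_lit 8))) (.slot (nat_lit 8))) (.node (.node (.col (nat_lit 2)) (.slot (nat_lit 4)) (.slot (nat_lit 1))) (.slot (nat_lit 9)) (.slot (nat_lit 8))) (.col (nat_lit 1))
def w18537 : Root := .mk (.node (.col (nat_lit 1)) (.node (.node (.col (nat_lit 1)) (.slot (nat_lit 7)) (.slot (nat_lit 5))) (.node (.slot (nat_lit 0)) (.slot (nat_lit 0)) (.slot (nat_lit 0))) (.slot (nat_lit 1))) (.slot (nat_lit 8))) (.col (nat_lit 0)) (.node (.slot (nat_lit 0)) (.slot (nat_lit 1)) (.slot (nat_lit 1))) (.slot (nat_lit 3))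
def w18544 : Root := .mk (.node (.node (.node (.col (nat_lit 2)) (.slot (nat_lit 0)) (.col (nat_lit 1))) (.slot (nat_lit 1)) (.slot (nat_lit 1))) (.node (.col (nat_lit 1)) (.slot (nat_lit 0)) (.slot (nat_lit 0))) (.col (nat_lit 2))) (.col (nat_lit 3)) (.col (nat_lit 0)) (.node (.col (nat_lit 0)) (.slot (nat_lit 0)) (.slot (nat_lit 0)))
def l4095 : Root := .mk (.node (.node (.col (nat_lit 2)) (.slot (nat_lit 0)) (.col (nat_lit 1))) (.slot (nat_lit 1)) (.slot (nat_lit 1))) (.col (nat_lit 4)) (.node (.col (nat_lit 3)) (.col (nat_lit 0)) (.node (.slot (nat_lit 0)) (.slot (nat_lit 0)) (.slot (nat_lit 0)))) (.col (nat_lit 2))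
def w18545 : Root := .mk (.node (.node (.node (.col (nat_lit 2)) (.slot (nat_lit 0)) (.col (nat_lit 1))) (.slot (nat_lit 1)) (.slot (nat_lit 1))) (.node (.col (nat_lit 1)) (.slot (nat_lit 0)) (.slot (nat_lit 0))) (.col (nat_lit 2))) (.col (nat_lit 3)) (.col (nat_lit 0)) (.node (.slot (nat_lit 0)) (.slot (nat_lit 0)) (.slot (nat_lit 0)))
def l4096 : Root := .mk (.col (nat_lit 2)) (.node (.slot (nat_lit 0)) (.slot (nat_lit 0)) (.slot (nat_lit 0))) (.node (.node (.node (.col (nat_lit 1)) (.slot (nat_lit 20)) (.slot (nat_lit 9))) (.node (.col (nat_lit 3)) (.col (nat_lit 0)) (.slot (nat_lit 8))) (.col (nat_lit 2))) (.slot (nat_lit 20)) (.slot (nat_lit 12))) (.col (nat_lit 1))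
def l4097 : Root := .mk (.col (nat_lit 2)) (.node (.slot (nat_lit 0)) (.node (.col (nat_lit 2)) (.slot (nat_lit 0)) (.slot (nat_lit 0))) (.col (nat_lit 0))) (.node (.node (.node (.col (nat_lit 1)) (.slot (nat_lit 0)) (.slot (nat_lit 0))) (.col (nat_lit 1)) (.slot (nat_lit 1))) (.col (nat_lit 0)) (.col (nat_lit 2))) (.col (nat_lit 1))
def w18547 : Root := .mk (.node (.col (nat_lit 2)) (.node (.slot (nat_lit 0)) (.node (.col (nat_lit 2)) (.slot (nat_lit 0)) (.slot (nat_lit 0))) (.col (nat_lit 0))) (.slot (nat_lit 1))) (.node (.node (.col (nat_lit 1)) (.slot (nat_lit 0)) (.slot (nat_lit 0))) (.col (nat_lit 1)) (.slot (nat_lit 1))) (.col (nat_lit 0)) (.col (nat_lit 2))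
def w18561 : Root := .mk (.node (.node (.col (nat_lit 2)) (.slot (nat_lit 0)) (.slot (nat_lit 0))) (.slot (nat_lit 20)) (.slot (nat_lit 12))) (.node (.col (nat_lit 1)) (.slot (nat_lit 20)) (.slot (nat_lit 9))) (.col (nat_lit 3)) (.col (nat_lit 1))
def w18567 : Root := .mk (.node (.node (.node (.col (nat_lit 2)) (.node (.slot (nat_lit 0)) (.slot (nat_lit 0)) (.slot (nat_lit 0))) (.slot (nat_lit 3))) (.node (.col (nat_lit 1)) (.slot (nat_lit 3)) (.slot (nat_lit 1))) (.slot (nat_lit 8))) (.slot (nat_lit 0)) (.slot (nat_lit 1))) (.col (nat_lit 4)) (.col (nat_lit 0)) (.col (nat_lit 2))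
def w18615 : Root := .mk (.node (.node (.col (nat_lit 2)) (.node (.slot (nat_lit 0)) (.slot (nat_lit 0)) (.col (nat_lit 0))) (.slot (nat_lit 21))) (.slot (nat_lit 20)) (.slot (nat_lit 12))) (.col (nat_lit 2)) (.node (.slot (nat_lit 0)) (.slot (nat_lit 1)) (.slot (nat_lit 1))) (.col (nat_lit 3))
def w18616 : Root := .mk (.node (.node (.node (.col (nat_lit 2)) (.slot (nat_lit 0)) (.slot (nat_lit 0))) (.slot (nat_lit 20)) (.slot (nat_lit 12))) (.col (nat_lit 2)) (.node (.col (nat_lit 2)) (.slot (nat_lit 20)) (.slot (nat_lit 9)))) (.node .junk (.col (nat_lit 1)) (.node (.slot (nat_lit 0)) (.slot (nat_lit 0)) (.slot (nat_lit 0)))) (.col (nat_lit 0)) (.col (nat_lit 2))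
def l4109 : Root := .mk (.node (.node (.node (.node (.col (nat_lit 2)) (.slot (nat_lit 0)) (.slot (nat_lit 0))) (.slot (nat_lit 20)) (.slot (nat_lit 12))) (.col (nat_lit 2)) (.node (.col (nat_lit 2)) (.slot (nat_lit 20)) (.slot (nat_lit 9)))) (.col (nat_lit 0)) (.slot (nat_lit 2))) (.col (nat_lit 2)) (.col (nat_lit 1)) (.node (.slot (nat_lit 0)) (.slot (nat_lit 1)) (.slot (nat_lit 1)))
def w18617 : Root := .mk (.node (.node (.node (.node (.col (nat_lit 2)) (.slot (nat_lit 0)) (.slot (nat_lit 0))) (.slot (nat_lit 20)) (.slot (nat_lit 12))) (.col (nat_lit 2)) (.node (.col (nat_lit 2)) (.slot (nat_lit 20)) (.slot (nat_lit 9)))) (.slot (nat_lit 1)) (.slot (nat_lit 2))) (.col (nat_lit 2)) (.col (nat_lit 1)) (.node (.slot (nat_lit 0)) (.slot (nat_lit 1)) (.slot (nat_lit 1)))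
def w18630 : Root := .mk (.slot (nat_lit 0)) (.node (.col (nat_lit 2)) (.node (.col (nat_lit 3)) (.slot (nat_lit 20)) (.slot (nat_lit 12))) (.node (.col (nat_lit 2)) (.slot (nat_lit 20)) (.slot (nat_lit 9)))) (.col (nat_lit 1)) (.col (nat_lit 2))
def w18663 : Root := .mk (.node (.node (.col (nat_lit 2)) (.node (.slot (nat_lit 0)) (.col (nat_lit 2)) (.slot (nat_lit 0))) (.node (.col (nat_lit 0)) (.slot (nat_lit 5)) (.slot (nat_lit 5)))) (.slot (nat_lit 0)) (.col (nat_lit 0))) (.col (nat_lit 2)) (.col (nat_lit 1)) (.col (nat_lit 0))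
def l4122 : Root := .mk (.node (.col (nat_lit 2)) (.node (.slot (nat_lit 0)) (.slot (nat_lit 0)) (.col (nat_lit 0))) (.slot (nat_lit 1))) (.node (.col (nat_lit 2)) (.node (.slot (nat_lit 0)) (.slot (nat_lit 0)) (.slot (nat_lit 0))) (.node (.col (nat_lit 2)) (.slot (nat_lit 0)) (.slot (nat_lit 0)))) (.col (nat_lit 0)) (.col (nat_lit 1))
def w18664 : Root := .mk (.node (.node (.col (nat_lit 2)) (.node (.slot (nat_lit 0)) (.slot (nat_lit 0)) (.col (nat_lit 0))) (.slot (nat_lit 1))) (.col (nat_lit 0)) (.slot (nat_lit 1))) (.col (nat_lit 2)) (.node (.slot (nat_lit 0)) (.slot (nat_lit 0)) (.slot (nat_lit 0))) (.node (.col (nat_lit 2)) (.slot (nat_lit 0)) (.slot (nat_lit 0)))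
def w18669 : Root := .mk (.node (.node (.col (nat_lit 2)) (.node (.slot (nat_lit 0)) (.slot (nat_lit 0)) (.slot (nat_lit 0))) (.slot (nat_lit 1))) (.node (.col (nat_lit 2)) (.slot (nat_lit 7)) (.slot (nat_lit 5))) (.slot (nat_lit 8))) (.col (nat_lit 2)) (.col (nat_lit 0)) (.slot (nat_lit 0))
def w18670 : Root := .mk (.col (nat_lit 2)) (.node .junk (.node (.col (nat_lit 2)) (.slot (nat_lit 0)) (.slot (nat_lit 0))) (.col (nat_lit 0))) (.node (.node (.col (nat_lit 2)) (.node (.col (nat_lit 1)) (.slot (nat_lit 0)) (.slot (nat_lit 0))) .junk) (.col (nat_lit 1)) (.col (nat_lit 3))) (.col (nat_lit 1))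
def w18671 : Root := .mk (.col (nat_lit 2)) (.node .junk (.node (.col (nat_lit 2)) (.slot (nat_lit 0)) (.slot (nat_lit 0))) (.col (nat_lit 0))) (.node (.node (.col (nat_lit 2)) (.node (.col (nat_lit 1)) (.slot (nat_lit 0)) (.slot (nat_lit 0))) .junk) (.col (nat_lit 1)) (.col (nat_lit 3))) (.col (nat_lit 3))
def l4124 : Root := .mk (.node (.node (.col (nat_lit 0)) (.slot (nat_lit 1)) (.slot (nat_lit 1))) (.node (.node (.col (nat_lit 2)) (.slot (nat_lit 0)) (.slot (nat_lit 0))) (.col (nat_lit 0)) (.col (nat_lit 2))) (.col (nat_lit 3))) (.col (nat_lit 1)) (.col (nat_lit 0)) (.node (.slot (nat_lit 0)) (.slot (nat_lit 0)) (.slot (nat_lit 0)))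
def w18693 : Root := .mk (.node (.node (.col (nat_lit 0)) (.slot (nat_lit 1)) (.slot (nat_lit 1))) (.node (.col (nat_lit 1)) (.col (nat_lit 0)) (.node (.slot (nat_lit 0)) (.slot (nat_lit 0)) (.slot (nat_lit 0)))) (.slot (nat_lit 1))) (.node (.col (nat_lit 2)) (.slot (nat_lit 0)) (.slot (nat_lit 0))) (.col (nat_lit 0)) (.col (nat_lit 2))
def l4125 : Root := .mk (.node (.node (.col (nat_lit 0)) (.slot (nat_lit 3)) (.slot (nat_lit 1))) (.node (.col (nat_lit 1)) (.col (nat_lit 0)) (.node (.slot (nat_lit 0)) (.slot (nat_lit 0)) (.slot (nat_lit 0)))) (.slot (nat_lit 1))) (.node (.col (nat_lit 2)) (.slot (nat_lit 5)) (.slot (nat_lit 5))) (.col (nat_lit 0)) (.col (nat_lit 1))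
def w18716 : Root := .mk (.node (.col (nat_lit 2)) (.node (.slot (nat_lit 0)) (.node (.col (nat_lit 2)) (.col (nat_lit 3)) (.slot (nat_lit 1))) (.col (nat_lit 1))) (.node (.col (nat_lit 0)) (.slot (nat_lit 1)) (.slot (nat_lit 1)))) (.node (.slot (nat_lit 0)) (.slot (nat_lit 0)) (.slot (nat_lit 0))) (.col (nat_lit 0)) (.col (nat_lit 2))
def w18736 : Root := .mk (.col (nat_lit 2)) (.node (.slot (nat_lit 0)) (.col (nat_lit 0)) (.slot (nat_lit 1))) (.node (.node (.node (.col (nat_lit 1)) (.col (nat_lit 0)) (.slot (nat_lit 0))) (.node (.slot (nat_lit 0)) (.slot (nat_lit 0)) (.slot (nat_lit 0))) (.slot (nat_lit 1))) (.col (nat_lit 0)) (.col (nat_lit 2))) (.col (nat_lit 3))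
def l4143 : Root := .mk (.col (nat_lit 2)) (.node (.slot (nat_lit 0)) (.col (nat_lit 0)) (.slot (nat_lit 1))) (.node (.node (.node (.col (nat_lit 1)) (.col (nat_lit 0)) (.node (.slot (nat_lit 0)) (.slot (nat_lit 0)) (.slot (nat_lit 0)))) (.node (.slot (nat_lit 0)) (.slot (nat_lit 0)) (.slot (nat_lit 0))) (.slot (nat_lit 1))) (.col (nat_lit 0)) (.slot (nat_lit 2))) (.col (nat_lit 3))
def w18756 : Root := .mk (.col (nat_lit 2)) (.node (.slot (nat_lit 0)) (.col (nat_lit 0)) (.slot (nat_lit 1))) (.node (.node (.node (.col (nat_lit 1)) (.col (nat_lit 0)) (.node (.slot (nat_lit 0)) (.slot (nat_lit 0)) (.slot (nat_lit 0)))) (.node (.slot (nat_lit 0)) (.slot (nat_lit 0)) (.slot (nat_lit 0))) (.slot (nat_lit 1))) (.slot (nat_lit 1)) (.slot (nat_lit 2))) (.col (nat_lit 3))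
def w18765 : Root := .mk (.node (.node (.node (.col (nat_lit 2)) (.slot (nat_lit 0)) (.slot (nat_lit 1))) (.slot (nat_lit 1)) (.slot (nat_lit 5))) (.col (nat_lit 2)) (.slot (nat_lit 4))) (.col (nat_lit 1)) (.col (nat_lit 0)) (.node (.slot (nat_lit 0)) (.col (nat_lit 2)) (.col (nat_lit 0)))
def l4148 : Root := .mk (.node (.node (.node (.col (nat_lit 2)) (.slot (nat_lit 0)) (.slot (nat_lit 1))) (.slot (nat_lit 5)) (.slot (nat_lit 1))) (.col (nat_lit 2)) (.slot (nat_lit 4))) (.col (nat_lit 1)) (.col (nat_lit 0)) (.node (.slot (nat_lit 0)) (.col (nat_lit 2)) (.slot (nat_lit 1)))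
def w18766 : Root := .mk (.node (.node (.node (.col (nat_lit 2)) (.slot (nat_lit 0)) (.slot (nat_lit 1))) (.slot (nat_lit 5)) (.slot (nat_lit 1))) (.col (nat_lit 2)) (.slot (nat_lit 4))) (.col (nat_lit 1)) (.col (nat_lit 0)) (.node (.slot (nat_lit 0)) (.slot (nat_lit 1)) (.slot (nat_lit 1)))
def w18774 : Root := .mk (.node (.col (nat_lit 3)) (.node (.node (.col (nat_lit 2)) (.slot (nat_lit 3)) (.slot (nat_lit 1))) (.col (nat_lit 3)) (.col (nat_lit 2))) (.slot (nat_lit 3))) (.col (nat_lit 1)) (.col (nat_lit 0)) (.node (.slot (nat_lit 0)) (.slot (nat_lit 0)) (.slot (nat_lit 0)))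
def w18782 : Root := .mk (.col (nat_lit 2)) (.col (nat_lit 1)) (.node (.node (.node (.col (nat_lit 1)) (.slot (nat_lit 1)) (.slot (nat_lit 1))) (.node (.col (nat_lit 1)) (.slot (nat_lit 1)) (.slot (nat_lit 1))) (.slot (nat_lit 1))) (.slot (nat_lit 1)) (.slot (nat_lit 1))) (.slot (nat_lit 2))
def w18786 : Root := .mk (.node (.node (.node (.node (.col (nat_lit 2)) (.node (.slot (nat_lit 0)) (.slot (nat_lit 0)) (.slot (nat_lit 0))) (.slot (nat_lit 9))) (.slot (nat_lit 8)) (.slot (nat_lit 5))) (.node (.col (nat_lit 1)) (.slot (nat_lit 1)) (.slot (nat_lit 8))) (.slot (nat_lit 8))) (.slot (nat_lit 1)) (.slot (nat_lit 1))) (.col (nat_lit 2)) (.col (nat_lit 1)) (.slot (nat_lit 2))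
def w18831 : Root := .mk (.node (.node (.node (.col (nat_lit 2)) (.node (.slot (nat_lit 0)) (.slot (nat_lit 0)) (.slot (nat_lit 0))) (.slot (nat_lit 1))) (.col (nat_lit 1)) (.slot (nat_lit 2))) (.node (.col (nat_lit 1)) (.slot (nat_lit 3)) (.slot (nat_lit 1))) (.slot (nat_lit 1))) (.col (nat_lit 0)) (.col (nat_lit 1)) (.slot (nat_lit 0))
def w18840 : Root := .mk (.node (.col (nat_lit 2)) .junk (.col (nat_lit 0))) (.node (.node (.col (nat_lit 1)) (.slot (nat_lit 3)) (.slot (nat_lit 1))) (.node (.col (nat_lit 0)) (.col (nat_lit 1)) (.slot (nat_lit 0))) (.slot (nat_lit 1))) (.col (nat_lit 1)) (.node (.slot (nat_lit 0)) (.slot (nat_lit 0)) (.slot (nat_lit 0)))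
def w18844 : Root := .mk (.col (nat_lit 2)) (.node (.slot (nat_lit 0)) (.slot (nat_lit 0)) (.slot (nat_lit 0))) (.node (.node (.node (.col (nat_lit 1)) (.slot (nat_lit 3)) (.slot (nat_lit 1))) (.node (.col (nat_lit 0)) (.col (nat_lit 1)) (.slot (nat_lit 0))) (.slot (nat_lit 1))) (.slot (nat_lit 20)) (.slot (nat_lit 9))) (.col (nat_lit 0))
def w18845 : Root := .mk (.col (nat_lit 2)) (.node (.slot (nat_lit 0)) (.node (.col (nat_lit 2)) (.node (.col (nat_lit 1)) (.slot (nat_lit 3)) (.slot (nat_lit 1))) (.slot (nat_lit 1))) (.col (nat_lit 0))) (.node (.node (.slot (nat_lit 0)) (.slot (nat_lit 0)) (.slot (nat_lit 0))) (.slot (nat_lit 20)) (.slot (nat_lit 9))) (.col (nat_lit 0))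
def w18863 : Root := .mk (.col (nat_lit 2)) (.slot (nat_lit 0)) (.node (.node (.node (.col (nat_lit 1)) (.slot (nat_lit 2)) (.slot (nat_lit 2))) (.node (.col (nat_lit 0)) (.col (nat_lit 1)) (.slot (nat_lit 0))) (.col (nat_lit 0))) (.col (nat_lit 1)) (.slot (nat_lit 1))) (.col (nat_lit 3))
def w18891 : Root := .mk (.node (.col (nat_lit 2)) (.node (.slot (nat_lit 0)) (.col (nat_lit 0)) (.slot (nat_lit 0))) (.node (.col (nat_lit 0)) (.slot (nat_lit 7)) (.slot (nat_lit 5)))) (.col (nat_lit 0)) (.col (nat_lit 2)) (.slot (nat_lit 2))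
def w18904 : Root := .mk (.node (.node (.slot (nat_lit 0)) (.col (nat_lit 0)) (.node (.col (nat_lit 0)) (.slot (nat_lit 0)) (.slot (nat_lit 0)))) (.node (.col (nat_lit 1)) (.node (.col (nat_lit 2)) (.slot (nat_lit 1)) (.slot (nat_lit 1))) (.slot (nat_lit 2))) (.slot (nat_lit 1))) (.col (nat_lit 0)) (.col (nat_lit 2)) (.node (.col (nat_lit 0)) (.slot (nat_lit 0)) (.slot (nat_lit 0)))
def w18916 : Root := .mk (.node (.node (.node (.col (nat_lit 2)) (.node (.slot (nat_lit 0)) (.slot (nat_lit 0)) (.slot (nat_lit 0))) (.slot (nat_lit 3))) (.slot (nat_lit 1)) (.slot (nat_lit 1))) (.node (.col (nat_lit 1)) (.slot (nat_lit 0)) (.slot (nat_lit 0))) (.slot (nat_lit 3))) (.col (nat_lit 0)) (.col (nat_lit 4)) (.col (nat_lit 3))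
def w19011 : Root := .mk (.col (nat_lit 2)) (.slot (nat_lit 0)) (.node (.node (.col (nat_lit 2)) (.node (.col (nat_lit 0)) .junk (.col (nat_lit 3))) (.slot (nat_lit 1))) (.col (nat_lit 2)) (.node (.col (nat_lit 0)) (.slot (nat_lit 20)) (.slot (nat_lit 9)))) (.slot (nat_lit 0))
def w19049 : Root := .mk (.node (.node (.col (nat_lit 2)) (.col (nat_lit 0)) (.slot (nat_lit 1))) (.slot (nat_lit 1)) (.slot (nat_lit 1))) (.col (nat_lit 0)) (.node (.col (nat_lit 0)) (.node (.col (nat_lit 3)) (.slot (nat_lit 0)) (.slot (nat_lit 0))) (.col (nat_lit 3))) (.col (nat_lit 4))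
def w19060 : Root := .mk (.node (.col (nat_lit 2)) (.slot (nat_lit 0)) (.slot (nat_lit 0))) (.node (.node (.col (nat_lit 1)) (.slot (nat_lit 0)) (.slot (nat_lit 0))) (.node (.col (nat_lit 0)) (.node (.col (nat_lit 3)) (.slot (nat_lit 0)) (.slot (nat_lit 0))) (.col (nat_lit 3))) (.col (nat_lit 4))) (.col (nat_lit 0)) (.col (nat_lit 2))
def w19138 : Root := .mk (.node (.col (nat_lit 2)) (.node (.slot (nat_lit 0)) (.slot (nat_lit 0)) (.slot (nat_lit 0))) (.slot (nat_lit 2))) (.node (.node (.col (nat_lit 1)) (.slot (nat_lit 0)) (.slot (nat_lit 0))) (.node (.col (nat_lit 0)) (.slot (nat_lit 0)) (.col (nat_lit 3))) (.slot (nat_lit 1))) (.col (nat_lit 3)) (.col (nat_lit 1))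
def w19142 : Root := .mk (.node (.col (nat_lit 2)) (.slot (nat_lit 0)) (.slot (nat_lit 0))) (.node (.node (.col (nat_lit 1)) (.slot (nat_lit 0)) (.slot (nat_lit 0))) (.node (.col (nat_lit 0)) (.node (.col (nat_lit 3)) (.slot (nat_lit 0)) (.slot (nat_lit 0))) (.col (nat_lit 3))) (.col (nat_lit 4))) (.col (nat_lit 3)) (.col (nat_lit 2))
def l4229 : Root := .mk (.node (.node (.node (.col (nat_lit 2)) (.node (.slot (nat_lit 0)) (.slot (nat_lit 0)) (.slot (nat_lit 0))) (.slot (nat_lit 1))) (.col (nat_lit 4)) (.col (nat_lit 0))) (.node (.col (nat_lit 1)) (.slot (nat_lit 0)) (.slot (nat_lit 0))) (.slot (nat_lit 1))) (.col (nat_lit 0)) (.col (nat_lit 4)) (.col (nat_lit 3))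
def l4231 : Root := .mk (.node (.node (.node (.col (nat_lit 2)) (.node (.slot (nat_lit 0)) (.slot (nat_lit 0)) (.col (nat_lit 0))) (.slot (nat_lit 3))) (.col (nat_lit 4)) (.col (nat_lit 2))) (.col (nat_lit 4)) (.slot (nat_lit 3))) (.col (nat_lit 0)) (.col (nat_lit 2)) (.col (nat_lit 3))
def l4232 : Root := .mk (.node (.node (.node (.col (nat_lit 2)) (.node (.slot (nat_lit 0)) (.slot (nat_lit 0)) (.col (nat_lit 0))) (.slot (nat_lit 3))) (.col (nat_lit 4)) (.col (nat_lit 2))) (.col (nat_lit 2)) (.slot (nat_lit 3))) (.col (nat_lit 0)) (.col (nat_lit 4)) (.col (nat_lit 3))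
def w19220 : Root := .mk (.node (.col (nat_lit 2)) (.node (.slot (nat_lit 0)) (.node (.col (nat_lit 2)) (.slot (nat_lit 0)) (.slot (nat_lit 0))) (.col (nat_lit 1))) (.node (.col (nat_lit 4)) (.slot (nat_lit 1)) (.slot (nat_lit 1)))) (.node .junk (.col (nat_lit 1)) (.slot (nat_lit 1))) (.col (nat_lit 4)) (.col (nat_lit 2))
def w19264 : Root := .mk (.node (.col (nat_lit 2)) (.node (.slot (nat_lit 0)) (.slot (nat_lit 0)) (.col (nat_lit 3))) (.slot (nat_lit 3))) (.node (.col (nat_lit 2)) (.node (.col (nat_lit 0)) (.node (.col (nat_lit 3)) (.slot (nat_lit 0)) (.slot (nat_lit 0))) (.col (nat_lit 3))) (.slot (nat_lit 3))) (.col (nat_lit 4)) (.col (nat_lit 2))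
def w19273 : Root := .mk (.node (.col (nat_lit 2)) (.slot (nat_lit 0)) (.col (nat_lit 0))) (.node (.col (nat_lit 0)) (.node (.col (nat_lit 0)) (.node (.col (nat_lit 3)) (.slot (nat_lit 0)) (.slot (nat_lit 0))) (.col (nat_lit 3))) (.node (.col (nat_lit 3)) (.slot (nat_lit 1)) (.slot (nat_lit 1)))) (.col (nat_lit 4)) (.col (nat_lit 2))
def w19310 : Root := .mk (.node (.col (nat_lit 2)) (.col (nat_lit 4)) (.node (.node (.node (.col (nat_lit 1)) (.slot (nat_lit 0)) (.slot (nat_lit 0))) (.col (nat_lit 1)) (.slot (nat_lit 1))) (.col (nat_lit 0)) (.col (nat_lit 2)))) (.col (nat_lit 4)) (.col (nat_lit 0)) (.col (nat_lit 2))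
def w19343 : Root := .mk (.node (.col (nat_lit 2)) (.node (.slot (nat_lit 0)) (.col (nat_lit 1)) (.slot (nat_lit 1))) (.node (.node (.col (nat_lit 2)) (.col (nat_lit 4)) (.slot (nat_lit 5))) (.col (nat_lit 4)) (.slot (nat_lit 1)))) (.slot (nat_lit 0)) (.col (nat_lit 3)) (.col (nat_lit 2))
def w19354 : Root := .mk (.node (.col (nat_lit 2)) (.slot (nat_lit 0)) (.slot (nat_lit 0))) (.node (.node (.col (nat_lit 1)) (.slot (nat_lit 1)) (.slot (nat_lit 1))) (.col (nat_lit 4)) (.slot (nat_lit 2))) (.node .junk (.col (nat_lit 4)) (.col (nat_lit 1))) (.col (nat_lit 2))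
def w19358 : Root := .mk (.node (.col (nat_lit 2)) (.node (.slot (nat_lit 0)) (.slot (nat_lit 0)) (.slot (nat_lit 0))) (.slot (nat_lit 0))) (.node (.node (.col (nat_lit 1)) (.slot (nat_lit 3)) (.slot (nat_lit 3))) (.node (.col (nat_lit 0)) (.slot (nat_lit 0)) (.col (nat_lit 3))) (.slot (nat_lit 5))) (.col (nat_lit 3)) (.col (nat_lit 0))
def w19366 : Root := .mk (.node (.node (.col (nat_lit 2)) (.node (.slot (nat_lit 0)) (.slot (nat_lit 0)) (.slot (nat_lit 0))) (.node (.slot (nat_lit 0)) (.slot (nat_lit 0)) (.slot (nat_lit 0)))) (.col (nat_lit 4)) (.slot (nat_lit 2))) (.node (.col (nat_lit 1)) (.slot (nat_lit 0)) (.slot (nat_lit 0))) (.node .junk (.col (nat_lit 4)) (.col (nat_lit 3))) (.col (nat_lit 0))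
def w19384 : Root := .mk (.col (nat_lit 2)) (.col (nat_lit 0)) (.node (.node (.node (.col (nat_lit 1)) (.col (nat_lit 3)) (.slot (nat_lit 0))) (.node (.col (nat_lit 0)) (.slot (nat_lit 0)) (.slot (nat_lit 0))) (.node (.col (nat_lit 2)) (.slot (nat_lit 0)) (.slot (nat_lit 0)))) (.col (nat_lit 1)) (.slot (nat_lit 1))) (.node (.slot (nat_lit 0)) (.col (nat_lit 2)) (.slot (nat_lit 0)))
def l4263 : Root := .mk (.node (.node (.col (nat_lit 2)) (.col (nat_lit 3)) (.node (.node (.col (nat_lit 3)) (.node (.col (nat_lit 0)) (.slot (nat_lit 3)) (.slot (nat_lit 1))) (.slot (nat_lit 1))) (.col (nat_lit 0)) (.col (nat_lit 2)))) (.col (nat_lit 0)) (.col (nat_lit 2))) (.col (nat_lit 2)) (.col (nat_lit 3)) (.col (nat_lit 0))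
def w19398 : Root := .mk (.node (.node (.col (nat_lit 2)) (.col (nat_lit 3)) (.node (.node (.col (nat_lit 3)) (.node (.col (nat_lit 0)) (.slot (nat_lit 3)) (.slot (nat_lit 1))) (.slot (nat_lit 1))) (.node (.col (nat_lit 2)) (.slot (nat_lit 0)) (.slot (nat_lit 0))) (.col (nat_lit 2)))) (.col (nat_lit 0)) (.col (nat_lit 2))) (.col (nat_lit 2)) (.col (nat_lit 3)) (.col (nat_lit 0))
def w19444 : Root := .mk (.node (.slot (nat_lit 0)) (.col (nat_lit 4)) (.slot (nat_lit 0))) (.col (nat_lit 2)) (.node (.col (nat_lit 0)) (.node (.col (nat_lit 0)) (.col (nat_lit 3)) (.slot (nat_lit 2))) (.slot (nat_lit 8))) (.col (nat_lit 1))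
def w19452 : Root := .mk (.col (nat_lit 2)) (.node (.slot (nat_lit 0)) (.col (nat_lit 0)) (.node (.col (nat_lit 2)) (.slot (nat_lit 0)) (.slot (nat_lit 0)))) (.node (.node (.col (nat_lit 2)) (.slot (nat_lit 0)) (.slot (nat_lit 2))) (.col (nat_lit 4)) (.slot (nat_lit 5))) (.col (nat_lit 4))
def l4288 : Root := .mk (.node (.node (.slot (nat_lit 0)) (.col (nat_lit 4)) (.slot (nat_lit 0))) (.node (.col (nat_lit 1)) (.slot (nat_lit 0)) (.slot (nat_lit 1))) (.col (nat_lit 3))) (.col (nat_lit 0)) (.node (.col (nat_lit 0)) (.col (nat_lit 3)) (.slot (nat_lit 5))) (.col (nat_lit 1))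
def w19479 : Root := .mk (.node (.slot (nat_lit 0)) (.col (nat_lit 4)) (.slot (nat_lit 0))) (.node (.col (nat_lit 1)) (.slot (nat_lit 0)) (.slot (nat_lit 1))) (.node (.col (nat_lit 0)) (.node (.col (nat_lit 0)) (.col (nat_lit 3)) (.slot (nat_lit 5))) (.slot (nat_lit 1))) (.col (nat_lit 3))
def l4289 : Root := .mk (.node (.node (.node (.col (nat_lit 0)) (.col (nat_lit 4)) (.slot (nat_lit 5))) (.col (nat_lit 3)) (.node (.col (nat_lit 3)) (.slot (nat_lit 0)) (.slot (nat_lit 0)))) (.col (nat_lit 0)) (.slot (nat_lit 1))) (.col (nat_lit 0)) (.col (nat_lit 3)) (.col (nat_lit 2))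
def l4290 : Root := .mk (.node (.node (.node (.col (nat_lit 0)) (.col (nat_lit 4)) (.slot (nat_lit 3))) (.col (nat_lit 3)) (.node (.slot (nat_lit 0)) (.slot (nat_lit 0)) (.slot (nat_lit 0)))) (.col (nat_lit 0)) (.slot (nat_lit 3))) (.col (nat_lit 0)) (.col (nat_lit 3)) (.col (nat_lit 2))
def w19490 : Root := .mk (.node (.node (.node (.node (.col (nat_lit 2)) (.slot (nat_lit 0)) (.col (nat_lit 4))) (.col (nat_lit 4)) (.slot (nat_lit 3))) (.col (nat_lit 3)) (.node (.slot (nat_lit 0)) (.slot (nat_lit 0)) (.slot (nat_lit 0)))) (.col (nat_lit 0)) (.slot (nat_lit 3))) (.col (nat_lit 0)) (.col (nat_lit 3)) (.col (nat_lit 2))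
def w19536 : Root := .mk (.node (.node (.slot (nat_lit 0)) (.col (nat_lit 4)) (.slot (nat_lit 0))) (.node (.col (nat_lit 1)) (.slot (nat_lit 0)) (.slot (nat_lit 0))) (.col (nat_lit 2))) (.col (nat_lit 0)) (.col (nat_lit 1)) (.node (.col (nat_lit 1)) (.col (nat_lit 4)) (.slot (nat_lit 1)))
def w19538 : Root := .mk (.node (.node (.slot (nat_lit 0)) (.col (nat_lit 4)) (.slot (nat_lit 0))) (.node (.col (nat_lit 1)) (.slot (nat_lit 0)) (.slot (nat_lit 0))) (.col (nat_lit 2))) (.col (nat_lit 0)) (.col (nat_lit 1)) (.node (.slot (nat_lit 0)) (.col (nat_lit 4)) (.slot (nat_lit 1)))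
def w19580 : Root := .mk (.node (.node (.node (.node (.col (nat_lit 2)) (.node (.slot (nat_lit 0)) (.slot (nat_lit 0)) (.slot (nat_lit 0))) (.slot (nat_lit 1))) (.col (nat_lit 1)) (.slot (nat_lit 2))) (.node (.col (nat_lit 1)) (.slot (nat_lit 0)) (.slot (nat_lit 0))) (.col (nat_lit 1))) (.col (nat_lit 0)) (.slot (nat_lit 1))) (.col (nat_lit 0)) (.col (nat_lit 3)) (.col (nat_lit 2))
def w19582 : Root := .mk (.node (.node (.col (nat_lit 2)) (.node (.slot (nat_lit 0)) (.slot (nat_lit 0)) (.slot (nat_lit 0))) (.slot (nat_lit 1))) (.col (nat_lit 1)) (.slot (nat_lit 2))) (.node (.col (nat_lit 1)) (.slot (nat_lit 1)) (.slot (nat_lit 0))) (.node (.col (nat_lit 0)) (.node .junk (.col (nat_lit 3)) (.col (nat_lit 2))) (.slot (nat_lit 1))) (.node (.col (nat_lit 2)) (.slot (nat_lit 1)) (.slot (nat_lit 1)))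
def w19585 : Root := .mk (.node (.node (.col (nat_lit 2)) (.node (.slot (nat_lit 0)) (.slot (nat_lit 1)) (.slot (nat_lit 1))) (.slot (nat_lit 3))) (.col (nat_lit 1)) (.slot (nat_lit 8))) (.node (.col (nat_lit 1)) (.slot (nat_lit 7)) (.slot (nat_lit 5))) (.node (.col (nat_lit 0)) (.slot (nat_lit 0)) (.slot (nat_lit 0))) (.node (.slot (nat_lit 0)) (.slot (nat_lit 0)) (.slot (nat_lit 0)))
def w19586 : Root := .mk (.node (.node (.node (.node (.col (nat_lit 2)) (.node (.slot (nat_lit 0)) (.slot (nat_lit 0)) (.slot (nat_lit 0))) (.slot (nat_lit 1))) (.col (nat_lit 1)) (.slot (nat_lit 2))) (.node (.col (nat_lit 1)) (.slot (nat_lit 0)) (.slot (nat_lit 0))) (.slot (nat_lit 3))) (.col (nat_lit 0)) (.slot (nat_lit 1))) (.col (nat_lit 0)) (.col (nat_lit 3)) (.col (nat_lit 2))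
def w19627 : Root := .mk (.node (.node (.node (.node (.slot (nat_lit 0)) (.slot (nat_lit 0)) (.slot (nat_lit 0))) (.col (nat_lit 0)) (.slot (nat_lit 8))) (.col (nat_lit 3)) (.slot (nat_lit 8))) (.slot (nat_lit 8)) (.slot (nat_lit 5))) (.col (nat_lit 3)) (.node (.col (nat_lit 3)) (.slot (nat_lit 0)) (.slot (nat_lit 0))) (.slot (nat_lit 9))
def w19636 : Root := .mk (.node (.node (.slot (nat_lit 0)) (.col (nat_lit 3)) (.slot (nat_lit 0))) (.node (.col (nat_lit 1)) (.slot (nat_lit 1)) (.slot (nat_lit 0))) (.col (nat_lit 4))) (.col (nat_lit 0)) (.node (.node (.slot (nat_lit 0)) (.slot (nat_lit 0)) (.slot (nat_lit 0))) (.slot (nat_lit 3)) (.slot (nat_lit 3))) (.col (nat_lit 2))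
def w19643 : Root := .mk (.node (.node (.node (.col (nat_lit 2)) (.col (nat_lit 4)) (.slot (nat_lit 0))) (.col (nat_lit 2)) (.slot (nat_lit 6))) (.node (.col (nat_lit 1)) (.slot (nat_lit 1)) (.slot (nat_lit 1))) (.slot (nat_lit 8))) (.col (nat_lit 0)) (.node (.node (.slot (nat_lit 0)) (.slot (nat_lit 0)) (.slot (nat_lit 0))) (.slot (nat_lit 2)) (.slot (nat_lit 2))) (.col (nat_lit 2))
def w19648 : Root := .mk (.node (.node (.node (.col (nat_lit 2)) (.col (nat_lit 4)) (.slot (nat_lit 2))) (.slot (nat_lit 2)) (.slot (nat_lit 2))) (.node (.col (nat_lit 1)) (.slot (nat_lit 2)) (.slot (nat_lit 2))) (.col (nat_lit 2))) (.col (nat_lit 0)) (.slot (nat_lit 0)) (.col (nat_lit 2))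
def w19693 : Root := .mk (.col (nat_lit 2)) (.node (.slot (nat_lit 0)) (.slot (nat_lit 1)) (.slot (nat_lit 1))) (.node (.node (.node (.col (nat_lit 1)) (.slot (nat_lit 0)) (.slot (nat_lit 0))) (.node (.col (nat_lit 0)) (.node (.col (nat_lit 4)) (.slot (nat_lit 2)) (.slot (nat_lit 1))) (.node (.slot (nat_lit 0)) (.slot (nat_lit 1)) (.slot (nat_lit 1)))) (.slot (nat_lit 2))) (.col (nat_lit 1)) (.col (nat_lit 2))) (.col (nat_lit 0))
def w19696 : Root := .mk (.node (.col (nat_lit 2)) (.node (.slot (nat_lit 0)) (.col (nat_lit 1)) (.slot (nat_lit 1))) (.col (nat_lit 0))) (.node (.node (.col (nat_lit 1)) (.slot (nat_lit 0)) (.slot (nat_lit 0))) (.node (.col (nat_lit 0)) (.slot (nat_lit 0)) (.slot (nat_lit 0))) (.slot (nat_lit 1))) (.col (nat_lit 1)) (.col (nat_lit 2))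
def w19729 : Root := .mk (.node (.col (nat_lit 2)) (.node (.node (.node (.col (nat_lit 1)) (.slot (nat_lit 8)) (.slot (nat_lit 5))) (.col (nat_lit 3)) (.slot (nat_lit 8))) (.slot (nat_lit 8)) (.slot (nat_lit 8))) (.slot (nat_lit 9))) (.slot (nat_lit 0)) (.col (nat_lit 1)) (.col (nat_lit 2))
def w19771 : Root := .mk (.node (.col (nat_lit 2)) .junk (.slot (nat_lit 1))) (.node (.node (.col (nat_lit 1)) (.col (nat_lit 2)) (.slot (nat_lit 3))) (.node (.col (nat_lit 0)) (.slot (nat_lit 0)) (.slot (nat_lit 0))) (.slot (nat_lit 1))) (.col (nat_lit 0)) (.col (nat_lit 3))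
def l4371 : Root := .mk (.node (.node (.slot (nat_lit 0)) (.col (nat_lit 1)) (.col (nat_lit 2))) (.node (.col (nat_lit 1)) (.slot (nat_lit 3)) (.slot (nat_lit 1))) (.slot (nat_lit 2))) (.col (nat_lit 0)) (.node (.col (nat_lit 4)) (.slot (nat_lit 20)) (.slot (nat_lit 9))) (.col (nat_lit 1))
def w19782 : Root := .mk (.node (.node (.col (nat_lit 2)) (.slot (nat_lit 0)) (.col (nat_lit 1))) (.col (nat_lit 1)) (.slot (nat_lit 1))) (.col (nat_lit 3)) (.node (.col (nat_lit 0)) (.node (.col (nat_lit 4)) (.slot (nat_lit 0)) (.slot (nat_lit 0))) (.slot (nat_lit 0))) (.col (nat_lit 2))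
def w19806 : Root := .mk (.node (.col (nat_lit 2)) (.node (.slot (nat_lit 0)) (.slot (nat_lit 0)) (.slot (nat_lit 0))) (.slot (nat_lit 0))) (.node (.node (.col (nat_lit 1)) (.slot (nat_lit 3)) (.slot (nat_lit 3))) (.node (.col (nat_lit 0)) (.slot (nat_lit 0)) (.slot (nat_lit 0))) (.slot (nat_lit 5))) (.col (nat_lit 3)) (.node (.col (nat_lit 3)) (.node (.col (nat_lit 1)) (.slot (nat_lit 1)) (.slot (nat_lit 1))) (.slot (nat_lit 2)))
def w19813 : Root := .mk (.node (.col (nat_lit 2)) (.node (.slot (nat_lit 0)) (.slot (nat_lit 0)) (.slot (nat_lit 0))) (.slot (nat_lit 1))) (.node (.node (.col (nat_lit 1)) (.col (nat_lit 3)) (.slot (nat_lit 1))) (.node (.col (nat_lit 0)) (.slot (nat_lit 0)) (.slot (nat_lit 0))) (.col (nat_lit 3))) (.col (nat_lit 3)) (.col (nat_lit 1))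
def w19815 : Root := .mk (.node (.node (.slot (nat_lit 0)) (.col (nat_lit 3)) (.node (.slot (nat_lit 0)) (.slot (nat_lit 0)) (.slot (nat_lit 0)))) (.col (nat_lit 0)) (.slot (nat_lit 1))) (.col (nat_lit 0)) (.node (.col (nat_lit 1)) (.slot (nat_lit 4)) (.slot (nat_lit 4))) (.node (.slot (nat_lit 0)) (.col (nat_lit 1)) (.slot (nat_lit 1)))
def w19845 : Root := .mk (.node (.slot (nat_lit 0)) (.slot (nat_lit 0)) (.slot (nat_lit 0))) (.col (nat_lit 0)) (.node (.node (.node (.col (nat_lit 3)) (.col (nat_lit 2)) (.slot (nat_lit 2))) (.slot (nat_lit 1)) (.slot (nat_lit 1))) (.slot (nat_lit 20)) (.slot (nat_lit 9))) (.col (nat_lit 1))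
def w19846 : Root := .mk (.node (.node (.slot (nat_lit 0)) (.slot (nat_lit 0)) (.slot (nat_lit 0))) (.slot (nat_lit 0)) (.slot (nat_lit 1))) (.col (nat_lit 0)) (.node (.node (.node (.col (nat_lit 3)) (.col (nat_lit 2)) (.slot (nat_lit 2))) (.slot (nat_lit 1)) (.slot (nat_lit 1))) (.col (nat_lit 0)) (.slot (nat_lit 8))) (.col (nat_lit 1))
def w19874 : Root := .mk (.node (.slot (nat_lit 0)) (.node (.col (nat_lit 1)) (.node (.col (nat_lit 2)) (.slot (nat_lit 7)) (.slot (nat_lit 5))) (.slot (nat_lit 8))) (.slot (nat_lit 1))) (.col (nat_lit 0)) (.col (nat_lit 4)) (.node .junk (.col (nat_lit 3)) (.slot (nat_lit 1)))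
def w19927 : Root := .mk (.node (.node (.col (nat_lit 0)) (.col (nat_lit 3)) (.slot (nat_lit 3))) (.node (.col (nat_lit 1)) (.slot (nat_lit 3)) (.slot (nat_lit 1))) (.node (.col (nat_lit 0)) (.slot (nat_lit 7)) (.slot (nat_lit 5)))) (.col (nat_lit 0)) (.col (nat_lit 3)) (.slot (nat_lit 0))
def l4404 : Root := .mk (.node (.node (.col (nat_lit 0)) (.col (nat_lit 3)) (.slot (nat_lit 1))) (.col (nat_lit 2)) (.node (.col (nat_lit 1)) (.slot (nat_lit 0)) (.slot (nat_lit 0)))) (.col (nat_lit 0)) (.col (nat_lit 3)) (.node (.slot (nat_lit 0)) (.col (nat_lit 2)) (.slot (nat_lit 1)))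
def w19928 : Root := .mk (.node (.node (.col (nat_lit 0)) (.col (nat_lit 3)) (.slot (nat_lit 1))) (.node (.col (nat_lit 1)) (.slot (nat_lit 0)) (.slot (nat_lit 0))) (.node (.col (nat_lit 1)) (.slot (nat_lit 0)) (.slot (nat_lit 0)))) (.col (nat_lit 0)) (.col (nat_lit 3)) (.node (.slot (nat_lit 0)) (.col (nat_lit 2)) (.slot (nat_lit 1)))
def l4405 : Root := .mk (.node (.node (.col (nat_lit 0)) (.col (nat_lit 3)) (.slot (nat_lit 1))) (.col (nat_lit 2)) (.node (.col (nat_lit 2)) (.slot (nat_lit 0)) (.slot (nat_lit 0)))) (.col (nat_lit 0)) (.col (nat_lit 3)) (.node .junk (.col (nat_lit 2)) (.slot (nat_lit 1)))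
def w19929 : Root := .mk (.node (.node (.col (nat_lit 0)) (.col (nat_lit 3)) (.slot (nat_lit 1))) (.node (.col (nat_lit 1)) (.slot (nat_lit 0)) (.slot (nat_lit 0))) (.node (.col (nat_lit 2)) (.slot (nat_lit 0)) (.slot (nat_lit 0)))) (.col (nat_lit 0)) (.col (nat_lit 3)) (.node .junk (.col (nat_lit 2)) (.slot (nat_lit 1)))
def w19930 : Root := .mk (.node (.node (.col (nat_lit 0)) (.col (nat_lit 3)) (.slot (nat_lit 1))) (.node (.col (nat_lit 1)) (.slot (nat_lit 0)) (.slot (nat_lit 0))) (.node (.col (nat_lit 4)) (.slot (nat_lit 0)) (.slot (nat_lit 0)))) (.col (nat_lit 0)) (.col (nat_lit 3)) (.node (.slot (nat_lit 0)) (.col (nat_lit 2)) (.slot (nat_lit 1)))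
def l4406 : Root := .mk (.node (.node (.col (nat_lit 0)) (.col (nat_lit 3)) (.slot (nat_lit 3))) (.node (.col (nat_lit 1)) (.slot (nat_lit 3)) (.slot (nat_lit 3))) (.slot (nat_lit 8))) (.col (nat_lit 0)) (.col (nat_lit 3)) (.node (.slot (nat_lit 0)) (.col (nat_lit 2)) (.slot (nat_lit 1)))
def l4408 : Root := .mk (.node (.node (.col (nat_lit 0)) (.col (nat_lit 3)) (.slot (nat_lit 1))) (.col (nat_lit 2)) (.node (.col (nat_lit 2)) (.slot (nat_lit 0)) (.slot (nat_lit 0)))) (.col (nat_lit 0)) (.node (.node (.col (nat_lit 0)) (.slot (nat_lit 0)) (.slot (nat_lit 0))) (.col (nat_lit 2)) .junk) (.col (nat_lit 3))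
def w19934 : Root := .mk (.node (.node (.col (nat_lit 0)) (.col (nat_lit 3)) (.slot (nat_lit 1))) (.node (.col (nat_lit 1)) (.slot (nat_lit 0)) (.slot (nat_lit 0))) (.node (.col (nat_lit 2)) (.slot (nat_lit 0)) (.slot (nat_lit 0)))) (.col (nat_lit 0)) (.node (.node (.col (nat_lit 0)) (.slot (nat_lit 0)) (.slot (nat_lit 0))) (.col (nat_lit 2)) .junk) (.col (nat_lit 3))
def w19944 : Root := .mk (.slot (nat_lit 0)) (.node (.node (.col (nat_lit 1)) (.slot (nat_lit 20)) (.slot (nat_lit 12))) (.col (nat_lit 3)) (.node (.col (nat_lit 0)) (.slot (nat_lit 20)) (.slot (nat_lit 9)))) (.col (nat_lit 3)) (.col (nat_lit 2))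
def w19954 : Root := .mk (.node (.col (nat_lit 2)) (.slot (nat_lit 0)) (.slot (nat_lit 0))) (.node (.node (.col (nat_lit 1)) (.slot (nat_lit 1)) (.slot (nat_lit 1))) (.node (.col (nat_lit 0)) (.node (.col (nat_lit 1)) (.col (nat_lit 2)) .junk) (.node (.slot (nat_lit 0)) (.slot (nat_lit 0)) (.slot (nat_lit 0)))) (.slot (nat_lit 2))) (.col (nat_lit 3)) (.col (nat_lit 2))
def w20000 : Root := .mk (.node (.col (nat_lit 2)) (.node (.slot (nat_lit 0)) (.col (nat_lit 3)) (.slot (nat_lit 1))) (.col (nat_lit 4))) (.node (.node (.col (nat_lit 1)) (.slot (nat_lit 0)) (.slot (nat_lit 0))) (.node (.col (nat_lit 0)) (.col (nat_lit 1)) (.slot (nat_lit 0))) (.node (.slot (nat_lit 0)) (.slot (nat_lit 0)) (.slot (nat_lit 0)))) (.col (nat_lit 3)) (.col (nat_lit 2))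
def l4423 : Root := .mk (.node (.col (nat_lit 2)) (.node (.slot (nat_lit 0)) (.slot (nat_lit 0)) (.slot (nat_lit 0))) (.slot (nat_lit 5))) (.node (.node (.col (nat_lit 1)) (.slot (nat_lit 1)) (.slot (nat_lit 0))) (.node (.col (nat_lit 0)) (.slot (nat_lit 0)) (.slot (nat_lit 0))) (.col (nat_lit 2))) (.col (nat_lit 3)) (.col (nat_lit 1))
def w20041 : Root := .mk (.node (.node (.node (.col (nat_lit 2)) (.node (.slot (nat_lit 0)) (.slot (nat_lit 0)) (.slot (nat_lit 0))) (.slot (nat_lit 5))) (.col (nat_lit 3)) (.slot (nat_lit 1))) (.node (.col (nat_lit 1)) (.slot (nat_lit 1)) (.slot (nat_lit 0))) (.col (nat_lit 2))) (.col (nat_lit 0)) (.slot (nat_lit 0)) (.slot (nat_lit 0))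
def w20044 : Root := .mk (.node (.col (nat_lit 2)) (.node (.slot (nat_lit 0)) (.slot (nat_lit 0)) (.slot (nat_lit 0))) (.slot (nat_lit 5))) (.node (.node (.col (nat_lit 1)) (.slot (nat_lit 1)) (.slot (nat_lit 0))) (.node (.col (nat_lit 0)) (.slot (nat_lit 0)) (.slot (nat_lit 0))) (.col (nat_lit 2))) (.col (nat_lit 3)) (.node (.col (nat_lit 3)) (.slot (nat_lit 0)) (.slot (nat_lit 0)))
def l4435 : Root := .mk (.node (.col (nat_lit 2)) (.node (.slot (nat_lit 0)) (.slot (nat_lit 0)) (.slot (nat_lit 0))) (.node (.col (nat_lit 2)) (.slot (nat_lit 0)) (.slot (nat_lit 0)))) (.node (.col (nat_lit 2)) (.node (.col (nat_lit 0)) (.slot (nat_lit 0)) (.col (nat_lit 2))) (.slot (nat_lit 1))) (.col (nat_lit 3)) (.col (nat_lit 0))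
def w20086 : Root := .mk (.node (.col (nat_lit 2)) (.slot (nat_lit 0)) (.slot (nat_lit 0))) (.node (.node (.col (nat_lit 1)) (.slot (nat_lit 0)) (.slot (nat_lit 0))) (.col (nat_lit 1)) (.node (.col (nat_lit 3)) (.slot (nat_lit 1)) (.slot (nat_lit 0)))) (.col (nat_lit 3)) (.col (nat_lit 0))
def l4439 : Root := .mk (.node (.col (nat_lit 2)) (.node (.slot (nat_lit 0)) (.col (nat_lit 1)) (.slot (nat_lit 1))) (.slot (nat_lit 2))) (.node (.col (nat_lit 2)) (.node (.col (nat_lit 0)) (.slot (nat_lit 0)) (.col (nat_lit 2))) (.slot (nat_lit 2))) (.col (nat_lit 3)) (.col (nat_lit 0))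
def w20098 : Root := .mk (.col (nat_lit 2)) (.node (.slot (nat_lit 0)) (.col (nat_lit 2)) (.slot (nat_lit 0))) (.node (.node (.node (.col (nat_lit 1)) (.slot (nat_lit 3)) (.slot (nat_lit 3))) (.node (.col (nat_lit 0)) (.slot (nat_lit 0)) (.slot (nat_lit 0))) (.slot (nat_lit 4))) (.col (nat_lit 3)) (.col (nat_lit 0))) (.col (nat_lit 3))
def w20104 : Root := .mk (.node (.node (.node (.slot (nat_lit 0)) (.col (nat_lit 3)) (.slot (nat_lit 0))) (.node (.col (nat_lit 1)) (.col (nat_lit 0)) (.slot (nat_lit 5))) (.node (.col (nat_lit 2)) (.slot (nat_lit 0)) (.slot (nat_lit 0)))) (.col (nat_lit 0)) (.node (.slot (nat_lit 0)) (.slot (nat_lit 0)) (.slot (nat_lit 0)))) (.col (nat_lit 2)) (.col (nat_lit 3)) (.col (nat_lit 0))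
def w20105 : Root := .mk (.node (.node (.node (.slot (nat_lit 0)) (.col (nat_lit 3)) (.slot (nat_lit 0))) (.node (.col (nat_lit 1)) (.col (nat_lit 0)) (.slot (nat_lit 6))) (.node (.col (nat_lit 3)) (.slot (nat_lit 1)) (.slot (nat_lit 1)))) (.col (nat_lit 0)) (.node (.slot (nat_lit 0)) (.slot (nat_lit 0)) (.slot (nat_lit 0)))) (.col (nat_lit 2)) (.col (nat_lit 3)) (.col (nat_lit 0))
def w20107 : Root := .mk (.node (.node (.node (.slot (nat_lit 0)) (.col (nat_lit 3)) (.slot (nat_lit 0))) (.node (.col (nat_lit 1)) (.col (nat_lit 0)) (.slot (nat_lit 4))) (.node (.slot (nat_lit 0)) (.slot (nat_lit 0)) (.slot (nat_lit 0)))) (.col (nat_lit 0)) (.node (.slot (nat_lit 0)) (.slot (nat_lit 0)) (.slot (nat_lit 0)))) (.col (nat_lit 2)) (.col (nat_lit 3)) (.col (nat_lit 0))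
def w20108 : Root := .mk (.node (.node (.node (.slot (nat_lit 0)) (.col (nat_lit 3)) (.col (nat_lit 2))) (.node (.col (nat_lit 1)) (.col (nat_lit 0)) (.slot (nat_lit 4))) (.slot (nat_lit 1))) (.col (nat_lit 0)) (.node (.slot (nat_lit 0)) (.slot (nat_lit 0)) (.slot (nat_lit 0)))) (.col (nat_lit 2)) (.col (nat_lit 3)) (.col (nat_lit 0))
def l4449 : Root := .mk (.node (.node (.col (nat_lit 3)) (.node (.col (nat_lit 1)) (.node (.col (nat_lit 1)) (.slot (nat_lit 0)) (.slot (nat_lit 0))) (.slot (nat_lit 1))) (.col (nat_lit 2))) (.col (nat_lit 0)) (.node (.slot (nat_lit 0)) (.slot (nat_lit 0)) (.slot (nat_lit 0)))) (.col (nat_lit 2)) (.col (nat_lit 3)) (.col (nat_lit 0))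
def w20136 : Root := .mk (.node (.node (.node (.slot (nat_lit 0)) (.slot (nat_lit 0)) (.slot (nat_lit 0))) (.node (.col (nat_lit 1)) (.node (.col (nat_lit 1)) (.slot (nat_lit 0)) (.slot (nat_lit 0))) (.slot (nat_lit 1))) (.col (nat_lit 2))) (.col (nat_lit 0)) (.node (.slot (nat_lit 0)) (.slot (nat_lit 0)) (.slot (nat_lit 0)))) (.col (nat_lit 2)) (.col (nat_lit 3)) (.col (nat_lit 0))
def l4460 : Root := .mk (.col (nat_lit 2)) (.node (.slot (nat_lit 0)) (.slot (nat_lit 0)) (.slot (nat_lit 0))) (.node (.node (.node (.col (nat_lit 1)) (.slot (nat_lit 20)) (.slot (nat_lit 9))) (.node (.col (nat_lit 0)) (.slot (nat_lit 0)) (.slot (nat_lit 0))) (.col (nat_lit 0))) (.col (nat_lit 1)) (.slot (nat_lit 1))) (.col (nat_lit 0))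
def w20207 : Root := .mk (.col (nat_lit 2)) (.node (.slot (nat_lit 0)) (.slot (nat_lit 0)) (.slot (nat_lit 0))) (.node (.node (.node (.col (nat_lit 1)) (.slot (nat_lit 20)) (.slot (nat_lit 9))) (.node (.col (nat_lit 0)) (.slot (nat_lit 0)) (.slot (nat_lit 0))) (.col (nat_lit 0))) (.slot (nat_lit 1)) (.slot (nat_lit 1))) (.col (nat_lit 0))
def l4461 : Root := .mk (.node (.node (.node (.col (nat_lit 2)) (.slot (nat_lit 0)) (.slot (nat_lit 0))) (.slot (nat_lit 2)) (.slot (nat_lit 1))) (.col (nat_lit 3)) (.node (.col (nat_lit 2)) (.slot (nat_lit 1)) (.slot (nat_lit 1)))) (.col (nat_lit 0)) (.col (nat_lit 2)) (.col (nat_lit 4))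
def l4468 : Root := .mk (.node (.node (.col (nat_lit 2)) (.node (.slot (nat_lit 0)) (.col (nat_lit 1)) (.slot (nat_lit 1))) (.col (nat_lit 4))) (.slot (nat_lit 5)) (.slot (nat_lit 1))) (.node (.col (nat_lit 1)) (.slot (nat_lit 8)) (.slot (nat_lit 8))) (.col (nat_lit 2)) (.col (nat_lit 3))
def w20252 : Root := .mk (.node (.col (nat_lit 2)) (.node (.slot (nat_lit 0)) (.col (nat_lit 1)) (.slot (nat_lit 1))) (.slot (nat_lit 5))) (.node (.col (nat_lit 4)) (.slot (nat_lit 0)) (.slot (nat_lit 1))) (.col (nat_lit 1)) (.col (nat_lit 2))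
def w20263 : Root := .mk (.node (.node (.node (.col (nat_lit 2)) (.slot (nat_lit 0)) (.slot (nat_lit 1))) (.col (nat_lit 3)) (.node (.col (nat_lit 1)) (.slot (nat_lit 1)) (.slot (nat_lit 1)))) (.node (.col (nat_lit 1)) (.slot (nat_lit 1)) (.slot (nat_lit 0))) (.slot (nat_lit 1))) (.col (nat_lit 0)) (.node (.slot (nat_lit 0)) (.col (nat_lit 3)) (.col (nat_lit 0))) (.col (nat_lit 1))
def w20277 : Root := .mk (.node (.node (.slot (nat_lit 0)) (.slot (nat_lit 0)) (.slot (nat_lit 0))) (.node (.col (nat_lit 1)) (.slot (nat_lit 20)) (.slot (nat_lit 9))) (.col (nat_lit 0))) (.col (nat_lit 0)) (.node (.col (nat_lit 2)) (.col (nat_lit 3)) .junk) (.node (.slot (nat_lit 0)) (.slot (nat_lit 0)) (.slot (nat_lit 0)))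
def w20278 : Root := .mk (.col (nat_lit 2)) (.node (.slot (nat_lit 0)) (.col (nat_lit 1)) (.slot (nat_lit 1))) (.node (.node (.node (.col (nat_lit 1)) (.slot (nat_lit 8)) (.slot (nat_lit 8))) (.node (.col (nat_lit 0)) (.slot (nat_lit 0)) (.slot (nat_lit 0))) (.col (nat_lit 2))) (.slot (nat_lit 5)) (.slot (nat_lit 1))) (.col (nat_lit 3))
def w20314 : Root := .mk (.node (.col (nat_lit 2)) (.node (.slot (nat_lit 0)) (.slot (nat_lit 0)) (.slot (nat_lit 0))) .junk) (.node (.node (.col (nat_lit 1)) (.col (nat_lit 0)) (.slot (nat_lit 3))) (.node (.col (nat_lit 0)) (.slot (nat_lit 0)) (.slot (nat_lit 0))) (.slot (nat_lit 1))) (.col (nat_lit 1)) (.col (nat_lit 3))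
def l4479 : Root := .mk (.node (.node (.node (.col (nat_lit 2)) (.node (.slot (nat_lit 0)) (.slot (nat_lit 0)) (.slot (nat_lit 0))) (.col (nat_lit 1))) (.col (nat_lit 1)) (.col (nat_lit 3))) (.node (.col (nat_lit 0)) (.slot (nat_lit 0)) (.slot (nat_lit 0))) (.slot (nat_lit 1))) (.col (nat_lit 1)) (.col (nat_lit 4)) (.col (nat_lit 3))
def w20315 : Root := .mk (.node (.col (nat_lit 2)) (.node (.slot (nat_lit 0)) (.slot (nat_lit 0)) (.slot (nat_lit 0))) (.col (nat_lit 1))) (.node (.node (.col (nat_lit 1)) (.col (nat_lit 4)) (.slot (nat_lit 1))) (.node (.col (nat_lit 0)) (.slot (nat_lit 0)) (.slot (nat_lit 0))) (.slot (nat_lit 1))) (.col (nat_lit 1)) (.col (nat_lit 3))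
def w20319 : Root := .mk (.node (.col (nat_lit 2)) (.node (.slot (nat_lit 0)) (.slot (nat_lit 0)) (.slot (nat_lit 0))) .junk) (.node (.node (.col (nat_lit 1)) (.node (.col (nat_lit 2)) (.slot (nat_lit 1)) (.slot (nat_lit 1))) (.slot (nat_lit 2))) (.node (.col (nat_lit 0)) (.col (nat_lit 2)) .junk) (.slot (nat_lit 1))) (.col (nat_lit 1)) (.col (nat_lit 3))
def w20338 : Root := .mk (.node (.node (.node (.col (nat_lit 2)) (.slot (nat_lit 0)) (.col (nat_lit 1))) (.col (nat_lit 1)) (.slot (nat_lit 1))) (.col (nat_lit 4)) (.slot (nat_lit 2))) (.col (nat_lit 0)) (.node (.node (.col (nat_lit 0)) (.slot (nat_lit 0)) (.slot (nat_lit 0))) (.col (nat_lit 3)) .junk) (.col (nat_lit 4))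
def w20339 : Root := .mk (.node (.node (.slot (nat_lit 0)) (.col (nat_lit 1)) (.slot (nat_lit 1))) (.node (.col (nat_lit 1)) (.node (.col (nat_lit 4)) (.slot (nat_lit 3)) (.slot (nat_lit 3))) (.slot (nat_lit 5))) (.col (nat_lit 0))) (.col (nat_lit 0)) (.slot (nat_lit 0)) (.col (nat_lit 4))
def w20340 : Root := .mk (.node (.node (.node (.col (nat_lit 2)) (.slot (nat_lit 0)) (.col (nat_lit 1))) (.col (nat_lit 1)) (.slot (nat_lit 2))) (.node (.col (nat_lit 1)) (.node (.col (nat_lit 4)) (.slot (nat_lit 1)) (.slot (nat_lit 0))) (.slot (nat_lit 2))) (.col (nat_lit 2))) (.col (nat_lit 0)) (.slot (nat_lit 0)) (.col (nat_lit 4))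
def w20362 : Root := .mk (.node (.node (.slot (nat_lit 0)) (.col (nat_lit 1)) (.node (.col (nat_lit 3)) (.slot (nat_lit 0)) (.slot (nat_lit 0)))) (.node (.col (nat_lit 1)) (.col (nat_lit 2)) (.slot (nat_lit 1))) (.col (nat_lit 0))) (.col (nat_lit 0)) (.slot (nat_lit 0)) (.col (nat_lit 4))
def w20367 : Root := .mk (.node (.node (.slot (nat_lit 0)) (.col (nat_lit 1)) (.slot (nat_lit 1))) (.node (.col (nat_lit 1)) (.node (.col (nat_lit 4)) (.slot (nat_lit 3)) (.slot (nat_lit 1))) (.node (.slot (nat_lit 0)) (.slot (nat_lit 1)) (.slot (nat_lit 1)))) (.slot (nat_lit 8))) (.col (nat_lit 0)) (.node (.node (.col (nat_lit 0)) (.slot (nat_lit 0)) (.slot (nat_lit 0))) (.col (nat_lit 3)) .junk) (.col (nat_lit 4))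
def l4483 : Root := .mk (.node (.node (.col (nat_lit 2)) (.node (.slot (nat_lit 0)) (.slot (nat_lit 0)) (.slot (nat_lit 0))) (.col (nat_lit 0))) (.col (nat_lit 0)) (.slot (nat_lit 1))) (.col (nat_lit 2)) (.node (.col (nat_lit 0)) (.node (.slot (nat_lit 0)) (.col (nat_lit 3)) (.col (nat_lit 0))) (.node (.slot (nat_lit 0)) (.slot (nat_lit 0)) (.slot (nat_lit 0)))) (.col (nat_lit 1))
def w20377 : Root := .mk (.col (nat_lit 2)) (.node (.slot (nat_lit 0)) (.slot (nat_lit 0)) (.slot (nat_lit 0))) (.node (.node (.col (nat_lit 2)) (.node (.col (nat_lit 0)) (.node (.slot (nat_lit 0)) (.col (nat_lit 3)) (.col (nat_lit 0))) (.node (.slot (nat_lit 0)) (.slot (nat_lit 0)) (.slot (nat_lit 0)))) (.slot (nat_lit 1))) (.col (nat_lit 0)) (.slot (nat_lit 1))) (.col (nat_lit 0))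
def w20380 : Root := .mk (.col (nat_lit 2)) (.node (.slot (nat_lit 0)) (.slot (nat_lit 1)) (.slot (nat_lit 0))) (.node (.node (.node (.col (nat_lit 1)) (.node (.col (nat_lit 4)) (.slot (nat_lit 7)) (.slot (nat_lit 5))) (.slot (nat_lit 8))) (.slot (nat_lit 0)) (.slot (nat_lit 1))) (.col (nat_lit 0)) (.slot (nat_lit 2))) (.node (.col (nat_lit 2)) (.slot (nat_lit 0)) (.slot (nat_lit 0)))
def w20381 : Root := .mk (.col (nat_lit 2)) (.node (.slot (nat_lit 0)) (.slot (nat_lit 0)) (.slot (nat_lit 0))) (.node (.node (.node (.col (nat_lit 1)) (.node (.col (nat_lit 4)) (.slot (nat_lit 7)) (.slot (nat_lit 5))) (.slot (nat_lit 8))) (.slot (nat_lit 0)) (.slot (nat_lit 1))) (.col (nat_lit 0)) (.slot (nat_lit 3))) (.node (.col (nat_lit 3)) (.slot (nat_lit 1)) (.slot (nat_lit 0)))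
def w20386 : Root := .mk (.node (.node (.node (.node (.col (nat_lit 2)) (.col (nat_lit 0)) (.slot (nat_lit 1))) (.col (nat_lit 0)) (.slot (nat_lit 1))) (.col (nat_lit 4)) (.slot (nat_lit 1))) (.col (nat_lit 0)) (.node (.slot (nat_lit 0)) (.slot (nat_lit 0)) (.slot (nat_lit 0)))) (.slot (nat_lit 0)) (.col (nat_lit 3)) (.col (nat_lit 0))
def l4495 : Root := .mk (.node (.col (nat_lit 2)) (.node (.slot (nat_lit 0)) (.col (nat_lit 0)) (.slot (nat_lit 1))) (.node (.col (nat_lit 0)) (.slot (nat_lit 8)) (.slot (nat_lit 8)))) (.node (.col (nat_lit 3)) (.node (.col (nat_lit 0)) (.slot (nat_lit 0)) (.slot (nat_lit 0))) (.col (nat_lit 0))) (.col (nat_lit 0)) (.col (nat_lit 2))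
def w20419 : Root := .mk (.node (.node (.col (nat_lit 2)) (.node (.slot (nat_lit 0)) (.col (nat_lit 0)) (.slot (nat_lit 1))) (.slot (nat_lit 9))) (.col (nat_lit 0)) (.col (nat_lit 2))) (.col (nat_lit 3)) (.node (.col (nat_lit 0)) (.slot (nat_lit 0)) (.slot (nat_lit 0))) (.col (nat_lit 0))
def l4507 : Root := .mk (.node (.col (nat_lit 2)) (.slot (nat_lit 0)) (.slot (nat_lit 0))) (.node (.node (.col (nat_lit 1)) (.col (nat_lit 0)) (.slot (nat_lit 1))) (.node (.col (nat_lit 0)) (.node (.slot (nat_lit 0)) (.col (nat_lit 2)) (.col (nat_lit 0))) (.node (.slot (nat_lit 0)) (.slot (nat_lit 0)) (.slot (nat_lit 0)))) (.col (nat_lit 3))) (.col (nat_lit 0)) (.col (nat_lit 2))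
def w20457 : Root := .mk (.node (.col (nat_lit 2)) (.slot (nat_lit 0)) (.slot (nat_lit 0))) (.node (.node (.col (nat_lit 1)) (.col (nat_lit 0)) (.slot (nat_lit 1))) (.node (.col (nat_lit 0)) (.node (.slot (nat_lit 0)) (.col (nat_lit 2)) (.col (nat_lit 0))) (.node (.slot (nat_lit 0)) (.slot (nat_lit 0)) (.slot (nat_lit 0)))) (.slot (nat_lit 1))) (.col (nat_lit 0)) (.col (nat_lit 2))
def w20458 : Root := .mk (.node (.node (.node (.col (nat_lit 2)) (.slot (nat_lit 0)) (.slot (nat_lit 0))) (.col (nat_lit 0)) (.col (nat_lit 2))) (.node (.col (nat_lit 1)) (.slot (nat_lit 0)) (.slot (nat_lit 0))) (.slot (nat_lit 1))) (.col (nat_lit 0)) (.node (.node (.col (nat_lit 0)) (.slot (nat_lit 0)) (.slot (nat_lit 0))) (.col (nat_lit 1)) (.col (nat_lit 0))) (.col (nat_lit 2))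
def w20469 : Root := .mk (.node (.node (.col (nat_lit 3)) (.col (nat_lit 0)) (.col (nat_lit 2))) (.node (.col (nat_lit 1)) (.slot (nat_lit 0)) (.slot (nat_lit 0))) (.node (.col (nat_lit 3)) (.slot (nat_lit 0)) (.slot (nat_lit 0)))) (.col (nat_lit 0)) (.col (nat_lit 4)) (.col (nat_lit 3))
def w20472 : Root := .mk (.node (.col (nat_lit 2)) (.node (.slot (nat_lit 0)) (.slot (nat_lit 4)) (.slot (nat_lit 1))) (.node (.col (nat_lit 0)) (.slot (nat_lit 10)) (.slot (nat_lit 10)))) (.node (.col (nat_lit 2)) (.node (.col (nat_lit 0)) (.slot (nat_lit 0)) (.col (nat_lit 2))) (.slot (nat_lit 9))) (.col (nat_lit 0)) (.col (nat_lit 2))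
def w20476 : Root := .mk (.node (.col (nat_lit 2)) (.node (.slot (nat_lit 0)) (.slot (nat_lit 0)) (.slot (nat_lit 0))) (.node (.node (.node (.col (nat_lit 1)) (.slot (nat_lit 1)) (.slot (nat_lit 1))) (.node (.col (nat_lit 0)) (.slot (nat_lit 0)) (.slot (nat_lit 0))) (.slot (nat_lit 2))) (.col (nat_lit 0)) (.col (nat_lit 2)))) (.col (nat_lit 0)) (.col (nat_lit 1)) (.col (nat_lit 2))
def l4509 : Root := .mk (.node (.col (nat_lit 2)) (.node (.slot (nat_lit 0)) (.slot (nat_lit 0)) (.slot (nat_lit 0))) (.node (.col (nat_lit 0)) (.col (nat_lit 1)) (.slot (nat_lit 8)))) (.node (.node (.col (nat_lit 1)) (.slot (nat_lit 3)) (.slot (nat_lit 3))) (.node (.col (nat_lit 0)) (.slot (nat_lit 0)) (.slot (nat_lit 0))) (.slot (nat_lit 2))) (.col (nat_lit 0)) (.col (nat_lit 2))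
def w20478 : Root := .mk (.node (.col (nat_lit 2)) (.node (.slot (nat_lit 0)) (.slot (nat_lit 0)) (.slot (nat_lit 0))) (.node (.col (nat_lit 1)) (.slot (nat_lit 1)) (.slot (nat_lit 8)))) (.node (.node (.col (nat_lit 1)) (.slot (nat_lit 3)) (.slot (nat_lit 3))) (.node (.col (nat_lit 0)) (.slot (nat_lit 0)) (.slot (nat_lit 0))) (.slot (nat_lit 2))) (.col (nat_lit 0)) (.col (nat_lit 2))
def l4523 : Root := .mk (.col (nat_lit 0)) (.node (.node (.col (nat_lit 1)) (.slot (nat_lit 0)) (.slot (nat_lit 0))) (.node (.col (nat_lit 0)) (.node (.node (.col (nat_lit 0)) (.slot (nat_lit 0)) (.slot (nat_lit 0))) (.col (nat_lit 1)) (.col (nat_lit 0))) (.col (nat_lit 2))) (.node (.col (nat_lit 0)) (.slot (nat_lit 1)) (.slot (nat_lit 0)))) (.col (nat_lit 3)) (.col (nat_lit 2))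
def w20596 : Root := .mk (.node (.node (.slot (nat_lit 0)) (.col (nat_lit 3)) (.col (nat_lit 2))) (.node (.col (nat_lit 1)) (.slot (nat_lit 0)) (.slot (nat_lit 0))) (.node (.col (nat_lit 4)) (.slot (nat_lit 1)) (.slot (nat_lit 0)))) (.col (nat_lit 0)) (.node (.col (nat_lit 1)) (.node (.col (nat_lit 1)) (.slot (nat_lit 0)) (.slot (nat_lit 0))) (.slot (nat_lit 2))) (.col (nat_lit 3))
def w20597 : Root := .mk (.node (.node (.slot (nat_lit 0)) (.col (nat_lit 3)) (.col (nat_lit 2))) (.node (.col (nat_lit 1)) (.slot (nat_lit 0)) (.slot (nat_lit 0))) (.node (.col (nat_lit 4)) (.slot (nat_lit 1)) (.slot (nat_lit 0)))) (.col (nat_lit 0)) (.node (.col (nat_lit 1)) (.node (.slot (nat_lit 0)) (.slot (nat_lit 0)) (.slot (nat_lit 0))) (.slot (nat_lit 1))) (.col (nat_lit 3))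
def w20614 : Root := .mk (.node (.col (nat_lit 2)) (.slot (nat_lit 0)) (.slot (nat_lit 0))) (.node (.node (.col (nat_lit 1)) (.slot (nat_lit 0)) (.slot (nat_lit 0))) (.node (.col (nat_lit 0)) (.col (nat_lit 2)) (.node (.slot (nat_lit 0)) (.slot (nat_lit 0)) (.slot (nat_lit 0)))) (.col (nat_lit 3))) (.col (nat_lit 3)) (.col (nat_lit 2))
def w20652 : Root := .mk (.col (nat_lit 2)) (.node (.slot (nat_lit 0)) (.col (nat_lit 3)) (.col (nat_lit 4))) (.node (.node (.node (.col (nat_lit 1)) (.slot (nat_lit 3)) (.slot (nat_lit 3))) (.node (.col (nat_lit 0)) (.slot (nat_lit 0)) (.slot (nat_lit 0))) (.slot (nat_lit 8))) (.col (nat_lit 3)) (.col (nat_lit 2))) (.col (nat_lit 4))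
def w20725 : Root := .mk (.node (.col (nat_lit 2)) (.slot (nat_lit 0)) (.slot (nat_lit 0))) (.node (.node (.col (nat_lit 1)) (.slot (nat_lit 0)) (.slot (nat_lit 0))) (.node (.col (nat_lit 0)) (.slot (nat_lit 0)) (.col (nat_lit 2))) (.col (nat_lit 1))) (.col (nat_lit 3)) (.col (nat_lit 2))
def l4584 : Root := .mk (.node (.node (.node (.node (.col (nat_lit 2)) (.node (.slot (nat_lit 0)) (.slot (nat_lit 0)) (.slot (nat_lit 0))) (.col (nat_lit 0))) (.col (nat_lit 3)) (.slot (nat_lit 2))) (.node (.col (nat_lit 1)) (.slot (nat_lit 1)) (.slot (nat_lit 1))) (.col (nat_lit 2))) (.col (nat_lit 0)) (.col (nat_lit 3))) (.col (nat_lit 3)) (.col (nat_lit 2)) (.col (nat_lit 0))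
def w20778 : Root := .mk (.node (.node (.node (.node (.col (nat_lit 2)) (.node (.slot (nat_lit 0)) (.slot (nat_lit 0)) (.slot (nat_lit 0))) (.col (nat_lit 0))) (.slot (nat_lit 1)) (.slot (nat_lit 2))) (.node (.col (nat_lit 1)) (.slot (nat_lit 1)) (.slot (nat_lit 1))) (.col (nat_lit 2))) (.col (nat_lit 0)) (.col (nat_lit 3))) (.col (nat_lit 3)) (.col (nat_lit 2)) (.col (nat_lit 0))
def l4588 : Root := .mk (.col (nat_lit 2)) (.col (nat_lit 3)) (.node (.node (.node (.col (nat_lit 1)) (.slot (nat_lit 3)) (.slot (nat_lit 1))) (.node (.col (nat_lit 0)) (.slot (nat_lit 0)) (.slot (nat_lit 0))) (.slot (nat_lit 2))) (.col (nat_lit 4)) (.slot (nat_lit 3))) (.col (nat_lit 0))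
def l4592 : Root := .mk (.node (.node (.col (nat_lit 4)) (.col (nat_lit 3)) (.node (.slot (nat_lit 0)) (.slot (nat_lit 0)) (.slot (nat_lit 0)))) (.node (.col (nat_lit 1)) (.slot (nat_lit 1)) (.slot (nat_lit 0))) (.col (nat_lit 2))) (.col (nat_lit 0)) (.col (nat_lit 4)) (.node (.slot (nat_lit 0)) (.col (nat_lit 2)) (.slot (nat_lit 1)))
def w20825 : Root := .mk (.node (.node (.col (nat_lit 2)) .junk (.col (nat_lit 0))) (.col (nat_lit 3)) (.slot (nat_lit 1))) (.node (.col (nat_lit 1)) (.slot (nat_lit 20)) (.slot (nat_lit 9))) (.node (.col (nat_lit 0)) (.slot (nat_lit 0)) (.slot (nat_lit 0))) (.col (nat_lit 3))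
def w20829 : Root := .mk (.node (.node (.slot (nat_lit 0)) (.slot (nat_lit 1)) (.slot (nat_lit 1))) (.node (.col (nat_lit 1)) (.col (nat_lit 0)) (.slot (nat_lit 8))) (.col (nat_lit 0))) (.col (nat_lit 0)) (.col (nat_lit 1)) (.node .junk (.col (nat_lit 2)) (.slot (nat_lit 1)))
def l4597 : Root := .mk (.node (.node (.slot (nat_lit 0)) (.slot (nat_lit 1)) (.slot (nat_lit 1))) (.node (.col (nat_lit 1)) (.col (nat_lit 0)) (.slot (nat_lit 8))) (.slot (nat_lit 4))) (.col (nat_lit 0)) (.col (nat_lit 1)) (.node (.slot (nat_lit 0)) (.col (nat_lit 2)) (.slot (nat_lit 1)))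
def w20849 : Root := .mk (.col (nat_lit 2)) (.node (.slot (nat_lit 0)) (.slot (nat_lit 1)) (.slot (nat_lit 1))) (.node (.node (.node (.col (nat_lit 1)) (.node (.col (nat_lit 2)) (.slot (nat_lit 7)) (.slot (nat_lit 5))) (.slot (nat_lit 8))) (.node (.col (nat_lit 0)) (.slot (nat_lit 0)) (.slot (nat_lit 0))) (.slot (nat_lit 3))) (.slot (nat_lit 2)) (.slot (nat_lit 1))) (.col (nat_lit 0))
def w20864 : Root := .mk (.node (.node (.node (.slot (nat_lit 0)) (.slot (nat_lit 0)) (.slot (nat_lit 0))) (.node (.col (nat_lit 1)) (.node (.col (nat_lit 3)) (.slot (nat_lit 1)) (.slot (nat_lit 1))) (.slot (nat_lit 2))) (.col (nat_lit 2))) (.col (nat_lit 0)) (.node (.slot (nat_lit 0)) (.slot (nat_lit 0)) (.slot (nat_lit 0)))) (.slot (nat_lit 0)) (.col (nat_lit 2)) (.col (nat_lit 0))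
def l4602 : Root := .mk (.node (.node (.node (.col (nat_lit 2)) (.slot (nat_lit 0)) (.slot (nat_lit 1))) (.slot (nat_lit 6)) (.slot (nat_lit 1))) (.col (nat_lit 2)) (.slot (nat_lit 4))) (.col (nat_lit 0)) (.node (.node (.col (nat_lit 0)) (.slot (nat_lit 1)) (.slot (nat_lit 1))) (.col (nat_lit 2)) (.col (nat_lit 0))) (.col (nat_lit 1))
def w20884 : Root := .mk (.node (.node (.slot (nat_lit 0)) (.slot (nat_lit 0)) (.slot (nat_lit 0))) (.node (.col (nat_lit 1)) (.slot (nat_lit 20)) (.slot (nat_lit 9))) (.col (nat_lit 3))) (.col (nat_lit 0)) (.node (.node (.col (nat_lit 0)) (.slot (nat_lit 0)) (.slot (nat_lit 0))) (.col (nat_lit 2)) .junk) (.col (nat_lit 3))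
def w20902 : Root := .mk (.node (.col (nat_lit 2)) (.slot (nat_lit 0)) (.slot (nat_lit 0))) (.node (.col (nat_lit 2)) (.node (.col (nat_lit 0)) (.node (.slot (nat_lit 0)) (.col (nat_lit 2)) (.col (nat_lit 0))) (.col (nat_lit 1))) (.node (.col (nat_lit 3)) (.slot (nat_lit 1)) (.slot (nat_lit 1)))) (.col (nat_lit 3)) (.col (nat_lit 2))
def w20905 : Root := .mk (.node (.node (.node (.col (nat_lit 2)) (.slot (nat_lit 0)) (.slot (nat_lit 0))) (.col (nat_lit 3)) (.slot (nat_lit 1))) (.col (nat_lit 0)) (.slot (nat_lit 3))) (.col (nat_lit 0)) (.node (.node (.col (nat_lit 0)) (.slot (nat_lit 0)) (.slot (nat_lit 0))) (.col (nat_lit 2)) .junk) (.col (nat_lit 1))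
def w20911 : Root := .mk (.node (.node (.node (.col (nat_lit 2)) (.slot (nat_lit 0)) (.slot (nat_lit 0))) (.col (nat_lit 3)) (.slot (nat_lit 1))) (.col (nat_lit 4)) (.slot (nat_lit 3))) (.col (nat_lit 0)) (.node (.node (.col (nat_lit 0)) (.slot (nat_lit 0)) (.slot (nat_lit 0))) (.col (nat_lit 2)) .junk) (.col (nat_lit 4))
def w20932 : Root := .mk (.node (.node (.col (nat_lit 2)) (.node (.slot (nat_lit 0)) (.col (nat_lit 1)) (.slot (nat_lit 0))) (.slot (nat_lit 1))) (.col (nat_lit 3)) (.col (nat_lit 4))) (.col (nat_lit 0)) (.node (.col (nat_lit 0)) (.col (nat_lit 4)) (.slot (nat_lit 0))) (.col (nat_lit 4))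
def w20934 : Root := .mk (.node (.node (.col (nat_lit 2)) .junk (.col (nat_lit 0))) (.col (nat_lit 3)) (.slot (nat_lit 1))) (.col (nat_lit 3)) (.node (.col (nat_lit 0)) (.col (nat_lit 4)) (.node (.slot (nat_lit 0)) (.col (nat_lit 2)) (.slot (nat_lit 1)))) (.col (nat_lit 0))
def w20957 : Root := .mk (.slot (nat_lit 0)) (.node (.node (.col (nat_lit 1)) (.slot (nat_lit 3)) (.slot (nat_lit 1))) (.node (.col (nat_lit 0)) (.node (.col (nat_lit 3)) (.col (nat_lit 2)) .junk) (.node (.col (nat_lit 0)) (.slot (nat_lit 0)) (.slot (nat_lit 0)))) (.slot (nat_lit 1))) (.col (nat_lit 3)) (.col (nat_lit 1))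
def l4631 : Root := .mk (.node (.col (nat_lit 2)) (.node (.slot (nat_lit 0)) (.col (nat_lit 1)) (.slot (nat_lit 1))) (.node (.slot (nat_lit 0)) (.slot (nat_lit 0)) (.slot (nat_lit 0)))) (.node (.col (nat_lit 2)) (.node (.col (nat_lit 0)) (.slot (nat_lit 0)) (.col (nat_lit 2))) (.slot (nat_lit 1))) (.col (nat_lit 3)) (.col (nat_lit 0))
def w21031 : Root := .mk (.col (nat_lit 2)) (.slot (nat_lit 0)) (.node (.node (.node (.col (nat_lit 1)) (.slot (nat_lit 20)) (.slot (nat_lit 9))) (.node (.col (nat_lit 0)) (.slot (nat_lit 0)) (.slot (nat_lit 0))) (.col (nat_lit 2))) (.node (.col (nat_lit 2)) (.slot (nat_lit 3)) (.slot (nat_lit 1))) (.slot (nat_lit 2))) (.col (nat_lit 3))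
def w21035 : Root := .mk (.node (.node (.node (.col (nat_lit 2)) (.node (.slot (nat_lit 0)) (.col (nat_lit 1)) (.slot (nat_lit 1))) (.slot (nat_lit 3))) (.col (nat_lit 0)) (.slot (nat_lit 5))) (.slot (nat_lit 0)) (.slot (nat_lit 1))) (.col (nat_lit 0)) (.node (.col (nat_lit 3)) (.col (nat_lit 1)) .junk) (.node (.slot (nat_lit 0)) (.slot (nat_lit 0)) (.slot (nat_lit 0)))
def w21042 : Root := .mk (.node (.node (.node (.col (nat_lit 2)) (.slot (nat_lit 0)) (.slot (nat_lit 0))) (.col (nat_lit 3)) (.slot (nat_lit 6))) (.node (.col (nat_lit 0)) (.slot (nat_lit 0)) (.slot (nat_lit 0))) (.slot (nat_lit 2))) (.col (nat_lit 1)) (.col (nat_lit 3)) (.slot (nat_lit 6))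
def l4645 : Root := .mk (.node (.node (.col (nat_lit 2)) (.slot (nat_lit 0)) (.slot (nat_lit 0))) (.slot (nat_lit 20)) (.slot (nat_lit 9))) (.col (nat_lit 3)) (.node (.col (nat_lit 0)) (.node (.col (nat_lit 2)) (.slot (nat_lit 0)) (.slot (nat_lit 0))) (.col (nat_lit 2))) (.col (nat_lit 1))
def w21077 : Root := .mk (.node (.node (.node (.col (nat_lit 2)) (.slot (nat_lit 0)) (.slot (nat_lit 0))) (.slot (nat_lit 20)) (.slot (nat_lit 9))) (.col (nat_lit 3)) (.slot (nat_lit 1))) (.col (nat_lit 0)) (.node (.col (nat_lit 2)) (.slot (nat_lit 0)) (.slot (nat_lit 0))) (.col (nat_lit 2))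
def w21081 : Root := .mk (.node (.node (.col (nat_lit 0)) (.node (.col (nat_lit 3)) (.slot (nat_lit 2)) (.slot (nat_lit 2))) (.slot (nat_lit 3))) (.node (.col (nat_lit 1)) (.slot (nat_lit 0)) (.slot (nat_lit 0))) (.slot (nat_lit 1))) (.col (nat_lit 0)) (.node (.col (nat_lit 2)) (.slot (nat_lit 0)) (.slot (nat_lit 0))) (.col (nat_lit 2))
def l4648 : Root := .mk (.node (.node (.col (nat_lit 1)) (.col (nat_lit 3)) (.slot (nat_lit 1))) (.col (nat_lit 2)) (.node (.col (nat_lit 3)) (.slot (nat_lit 1)) (.slot (nat_lit 1)))) (.col (nat_lit 0)) (.node (.col (nat_lit 3)) (.slot (nat_lit 0)) (.slot (nat_lit 0))) (.col (nat_lit 3))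
def w21112 : Root := .mk (.col (nat_lit 2)) (.node (.slot (nat_lit 0)) (.slot (nat_lit 0)) (.slot (nat_lit 0))) (.node (.node (.node (.col (nat_lit 1)) (.slot (nat_lit 0)) (.slot (nat_lit 0))) (.node (.col (nat_lit 0)) .junk (.col (nat_lit 3))) (.col (nat_lit 2))) (.node (.col (nat_lit 4)) (.slot (nat_lit 1)) (.slot (nat_lit 0))) (.slot (nat_lit 1))) (.node (.col (nat_lit 1)) (.slot (nat_lit 1)) (.slot (nat_lit 2)))
def w21133 : Root := .mk (.col (nat_lit 2)) (.col (nat_lit 1)) (.node (.node (.node (.col (nat_lit 1)) (.slot (nat_lit 1)) (.slot (nat_lit 3))) (.node (.col (nat_lit 0)) (.node (.node (.slot (nat_lit 0)) (.slot (nat_lit 0)) (.slot (nat_lit 0))) (.slot (nat_lit 2)) (.slot (nat_lit 2))) (.node (.slot (nat_lit 0)) (.slot (nat_lit 0)) (.slot (nat_lit 0)))) (.slot (nat_lit 8))) (.slot (nat_lit 1)) (.slot (nat_lit 1))) (.slot (nat_lit 2))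
def l4669 : Root := .mk (.node (.col (nat_lit 2)) (.node (.col (nat_lit 1)) (.col (nat_lit 0)) (.slot (nat_lit 3))) (.node (.col (nat_lit 1)) (.slot (nat_lit 0)) (.slot (nat_lit 0)))) (.col (nat_lit 0)) (.col (nat_lit 1)) (.slot (nat_lit 0))
def l4694 : Root := .mk (.col (nat_lit 0)) (.node (.node (.col (nat_lit 1)) (.col (nat_lit 3)) (.slot (nat_lit 3))) (.node (.col (nat_lit 0)) (.slot (nat_lit 0)) (.node (.slot (nat_lit 0)) (.slot (nat_lit 0)) (.slot (nat_lit 0)))) (.slot (nat_lit 8))) (.col (nat_lit 4)) (.node (.col (nat_lit 2)) (.slot (nat_lit 20)) (.slot (nat_lit 9)))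
def w21208 : Root := .mk (.node (.node (.col (nat_lit 0)) (.col (nat_lit 4)) (.slot (nat_lit 21))) (.node (.col (nat_lit 1)) (.col (nat_lit 3)) (.slot (nat_lit 3))) (.slot (nat_lit 8))) (.col (nat_lit 0)) (.slot (nat_lit 0)) (.node (.slot (nat_lit 0)) (.slot (nat_lit 0)) (.slot (nat_lit 0)))
def w21212 : Root := .mk (.node (.node (.col (nat_lit 0)) (.slot (nat_lit 1)) (.slot (nat_lit 1))) (.node (.col (nat_lit 1)) (.slot (nat_lit 0)) (.slot (nat_lit 0))) (.node (.col (nat_lit 0)) (.slot (nat_lit 1)) (.slot (nat_lit 1)))) (.col (nat_lit 0)) (.node (.slot (nat_lit 0)) (.slot (nat_lit 0)) (.slot (nat_lit 0))) (.col (nat_lit 1))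
def w21227 : Root := .mk (.node (.node (.node (.node (.col (nat_lit 0)) (.slot (nat_lit 0)) (.slot (nat_lit 0))) (.node (.col (nat_lit 1)) (.slot (nat_lit 1)) (.slot (nat_lit 1))) (.slot (nat_lit 2))) (.col (nat_lit 0)) (.col (nat_lit 1))) (.slot (nat_lit 2)) (.slot (nat_lit 2))) (.node (.col (nat_lit 3)) (.slot (nat_lit 0)) (.col (nat_lit 0))) (.col (nat_lit 0)) (.col (nat_lit 3))
def l4700 : Root := .mk (.node (.col (nat_lit 2)) (.node (.col (nat_lit 0)) (.node (.node (.slot (nat_lit 0)) (.slot (nat_lit 0)) (.slot (nat_lit 0))) (.col (nat_lit 3)) (.slot (nat_lit 6))) (.slot (nat_lit 0))) (.slot (nat_lit 6))) (.col (nat_lit 1)) (.col (nat_lit 0)) (.col (nat_lit 4))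
def w21238 : Root := .mk (.node (.node (.slot (nat_lit 0)) (.col (nat_lit 3)) (.slot (nat_lit 0))) (.node (.col (nat_lit 0)) (.node (.node (.slot (nat_lit 0)) (.slot (nat_lit 0)) (.slot (nat_lit 0))) (.col (nat_lit 3)) (.slot (nat_lit 6))) (.slot (nat_lit 0))) (.slot (nat_lit 6))) (.col (nat_lit 1)) (.col (nat_lit 0)) (.col (nat_lit 4))
def w21248 : Root := .mk (.node (.node (.node (.col (nat_lit 2)) (.node (.slot (nat_lit 0)) (.slot (nat_lit 0)) (.slot (nat_lit 0))) (.slot (nat_lit 1))) (.col (nat_lit 3)) (.slot (nat_lit 2))) (.node (.col (nat_lit 0)) (.slot (nat_lit 0)) (.slot (nat_lit 0))) (.slot (nat_lit 1))) (.col (nat_lit 1)) (.col (nat_lit 0)) (.slot (nat_lit 3))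
def w21260 : Root := .mk (.node (.node (.col (nat_lit 2)) (.node (.col (nat_lit 1)) (.node (.col (nat_lit 0)) (.slot (nat_lit 1)) (.slot (nat_lit 1))) (.slot (nat_lit 2))) (.slot (nat_lit 6))) (.col (nat_lit 0)) (.slot (nat_lit 0))) (.col (nat_lit 0)) (.col (nat_lit 3)) (.col (nat_lit 2))
def w21266 : Root := .mk (.node (.node (.node (.col (nat_lit 2)) (.slot (nat_lit 0)) (.slot (nat_lit 1))) (.col (nat_lit 1)) (.slot (nat_lit 2))) (.node (.col (nat_lit 1)) (.slot (nat_lit 1)) (.slot (nat_lit 2))) (.col (nat_lit 3))) (.col (nat_lit 0)) (.col (nat_lit 2)) (.slot (nat_lit 0))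
def w21275 : Root := .mk (.node (.col (nat_lit 2)) (.node (.node (.col (nat_lit 2)) (.slot (nat_lit 0)) (.slot (nat_lit 2))) (.node (.col (nat_lit 2)) (.slot (nat_lit 5)) (.slot (nat_lit 5))) (.slot (nat_lit 1))) (.slot (nat_lit 5))) (.slot (nat_lit 0)) (.col (nat_lit 1)) (.col (nat_lit 3))
def w21280 : Root := .mk (.node (.node (.col (nat_lit 0)) (.node (.col (nat_lit 2)) (.slot (nat_lit 1)) (.slot (nat_lit 1))) (.slot (nat_lit 3))) (.node (.col (nat_lit 0)) (.slot (nat_lit 0)) (.slot (nat_lit 0))) (.slot (nat_lit 1))) (.col (nat_lit 1)) (.col (nat_lit 0)) (.node (.slot (nat_lit 0)) (.slot (nat_lit 0)) (.slot (nat_lit 0)))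
def w21281 : Root := .mk (.node (.node (.col (nat_lit 0)) (.node (.col (nat_lit 2)) (.slot (nat_lit 1)) (.slot (nat_lit 1))) (.slot (nat_lit 2))) (.node (.col (nat_lit 0)) (.slot (nat_lit 0)) (.slot (nat_lit 0))) (.slot (nat_lit 1))) (.col (nat_lit 1)) (.col (nat_lit 3)) (.slot (nat_lit 3))
def w21284 : Root := .mk (.node (.node (.node (.col (nat_lit 0)) (.node (.col (nat_lit 2)) (.slot (nat_lit 3)) (.slot (nat_lit 1))) (.slot (nat_lit 8))) (.node (.col (nat_lit 0)) (.slot (nat_lit 0)) (.slot (nat_lit 0))) (.slot (nat_lit 3))) (.col (nat_lit 1)) (.slot (nat_lit 2))) (.col (nat_lit 2)) (.node (.col (nat_lit 2)) (.slot (nat_lit 0)) (.slot (nat_lit 0))) (.slot (nat_lit 2))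
def w21286 : Root := .mk (.col (nat_lit 0)) (.node (.node (.col (nat_lit 1)) (.node (.col (nat_lit 2)) (.slot (nat_lit 7)) (.slot (nat_lit 5))) (.slot (nat_lit 8))) (.node (.col (nat_lit 0)) (.slot (nat_lit 0)) (.slot (nat_lit 0))) (.slot (nat_lit 0))) (.node (.col (nat_lit 2)) (.slot (nat_lit 20)) (.slot (nat_lit 9))) (.node (.slot (nat_lit 0)) (.slot (nat_lit 0)) (.slot (nat_lit 0)))
def w21288 : Root := .mk (.node (.node (.col (nat_lit 0)) (.node (.col (nat_lit 2)) (.col (nat_lit 0)) (.slot (nat_lit 0))) (.slot (nat_lit 1))) (.node (.col (nat_lit 0)) (.slot (nat_lit 0)) (.slot (nat_lit 0))) (.slot (nat_lit 2))) (.col (nat_lit 1)) (.col (nat_lit 3)) (.col (nat_lit 0))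
def w21290 : Root := .mk (.node (.node (.col (nat_lit 0)) (.slot (nat_lit 0)) (.slot (nat_lit 0))) (.node (.col (nat_lit 0)) (.slot (nat_lit 0)) (.slot (nat_lit 0))) (.slot (nat_lit 1))) (.col (nat_lit 1)) (.node (.col (nat_lit 2)) (.node (.col (nat_lit 2)) (.slot (nat_lit 0)) (.slot (nat_lit 0))) (.slot (nat_lit 1))) (.col (nat_lit 0))
def w21296 : Root := .mk (.node (.node (.col (nat_lit 3)) (.node (.col (nat_lit 2)) (.slot (nat_lit 7)) (.slot (nat_lit 5))) (.slot (nat_lit 8))) (.node (.col (nat_lit 0)) (.slot (nat_lit 0)) (.slot (nat_lit 0))) (.slot (nat_lit 3))) (.col (nat_lit 1)) (.col (nat_lit 0)) (.node (.col (nat_lit 1)) (.slot (nat_lit 2)) (.slot (nat_lit 0)))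
def w21302 : Root := .mk (.node (.node (.col (nat_lit 3)) (.node (.col (nat_lit 2)) (.slot (nat_lit 20)) (.slot (nat_lit 9))) (.slot (nat_lit 21))) (.node (.col (nat_lit 0)) (.slot (nat_lit 0)) (.slot (nat_lit 0))) (.slot (nat_lit 0))) (.col (nat_lit 1)) (.node (.col (nat_lit 2)) (.slot (nat_lit 20)) (.slot (nat_lit 9))) (.node (.slot (nat_lit 0)) (.slot (nat_lit 0)) (.slot (nat_lit 0)))
def w21304 : Root := .mk (.node (.node (.col (nat_lit 3)) (.node (.col (nat_lit 2)) (.slot (nat_lit 1)) (.slot (nat_lit 1))) (.slot (nat_lit 2))) (.node (.col (nat_lit 0)) (.slot (nat_lit 0)) (.slot (nat_lit 0))) (.slot (nat_lit 1))) (.col (nat_lit 1)) (.node (.col (nat_lit 4)) (.slot (nat_lit 2)) (.slot (nat_lit 1))) (.node (.slot (nat_lit 0)) (.slot (nat_lit 0)) (.slot (nat_lit 0)))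
def l4716 : Root := .mk (.node (.node (.col (nat_lit 3)) (.node (.col (nat_lit 2)) (.slot (nat_lit 20)) (.slot (nat_lit 12))) (.slot (nat_lit 21))) (.node (.col (nat_lit 0)) (.slot (nat_lit 0)) (.slot (nat_lit 0))) (.slot (nat_lit 3))) (.col (nat_lit 1)) (.node (.col (nat_lit 4)) (.slot (nat_lit 12)) (.slot (nat_lit 20))) (.slot (nat_lit 21))
def w21319 : Root := .mk (.col (nat_lit 2)) (.node (.slot (nat_lit 0)) (.col (nat_lit 0)) (.slot (nat_lit 1))) (.node (.node (.node (.col (nat_lit 1)) (.slot (nat_lit 20)) (.slot (nat_lit 9))) (.node (.col (nat_lit 0)) (.slot (nat_lit 0)) (.slot (nat_lit 0))) (.col (nat_lit 4))) (.slot (nat_lit 1)) (.slot (nat_lit 1))) (.col (nat_lit 4))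
def w21320 : Root := .mk (.col (nat_lit 2)) (.node (.slot (nat_lit 0)) (.col (nat_lit 2)) (.slot (nat_lit 0))) (.node (.node (.node (.col (nat_lit 1)) (.slot (nat_lit 20)) (.slot (nat_lit 9))) (.node (.col (nat_lit 0)) (.slot (nat_lit 0)) (.slot (nat_lit 0))) (.col (nat_lit 4))) (.slot (nat_lit 20)) (.slot (nat_lit 9))) (.col (nat_lit 4))
def w21321 : Root := .mk (.col (nat_lit 2)) (.node (.slot (nat_lit 0)) (.col (nat_lit 3)) (.slot (nat_lit 1))) (.node (.node (.node (.col (nat_lit 1)) (.slot (nat_lit 20)) (.slot (nat_lit 9))) (.node (.col (nat_lit 0)) (.slot (nat_lit 0)) (.slot (nat_lit 0))) (.col (nat_lit 4))) (.slot (nat_lit 1)) (.slot (nat_lit 1))) (.col (nat_lit 4))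
def w21322 : Root := .mk (.col (nat_lit 2)) (.node (.slot (nat_lit 0)) (.col (nat_lit 4)) (.slot (nat_lit 0))) (.node (.node (.node (.col (nat_lit 1)) (.slot (nat_lit 20)) (.slot (nat_lit 9))) (.node (.col (nat_lit 0)) (.slot (nat_lit 0)) (.slot (nat_lit 0))) (.col (nat_lit 4))) (.slot (nat_lit 20)) (.slot (nat_lit 9))) (.col (nat_lit 4))
def w21323 : Root := .mk (.col (nat_lit 2)) (.node (.slot (nat_lit 0)) (.slot (nat_lit 0)) (.slot (nat_lit 0))) (.node (.node (.node (.col (nat_lit 1)) (.slot (nat_lit 20)) (.slot (nat_lit 9))) (.node (.col (nat_lit 0)) (.slot (nat_lit 0)) (.slot (nat_lit 0))) (.col (nat_lit 4))) (.slot (nat_lit 20)) (.slot (nat_lit 9))) (.col (nat_lit 4))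
def w21399 : Root := .mk (.col (nat_lit 2)) (.col (nat_lit 3)) (.node (.node (.node (.col (nat_lit 1)) (.node (.col (nat_lit 4)) (.slot (nat_lit 7)) (.slot (nat_lit 5))) (.slot (nat_lit 8))) (.slot (nat_lit 0)) (.slot (nat_lit 1))) (.col (nat_lit 1)) (.slot (nat_lit 1))) .junk
def w21400 : Root := .mk (.col (nat_lit 2)) (.col (nat_lit 3)) (.node (.node (.node (.col (nat_lit 1)) (.node (.col (nat_lit 4)) (.slot (nat_lit 5)) (.slot (nat_lit 5))) (.slot (nat_lit 3))) (.node (.col (nat_lit 0)) (.slot (nat_lit 0)) (.slot (nat_lit 0))) (.slot (nat_lit 3))) (.col (nat_lit 1)) (.col (nat_lit 2))) (.col (nat_lit 1))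
def w21401 : Root := .mk (.col (nat_lit 2)) (.col (nat_lit 3)) (.node (.node (.node (.col (nat_lit 1)) (.node (.col (nat_lit 4)) (.slot (nat_lit 1)) (.slot (nat_lit 1))) (.slot (nat_lit 2))) (.node (.col (nat_lit 0)) (.slot (nat_lit 0)) (.slot (nat_lit 0))) (.slot (nat_lit 2))) (.col (nat_lit 1)) (.node (.col (nat_lit 0)) (.slot (nat_lit 1)) (.slot (nat_lit 1)))) (.col (nat_lit 1))
def w21402 : Root := .mk (.node (.col (nat_lit 2)) (.col (nat_lit 3)) .junk) (.node (.node (.col (nat_lit 1)) (.node (.col (nat_lit 4)) (.slot (nat_lit 7)) (.slot (nat_lit 5))) (.slot (nat_lit 8))) (.slot (nat_lit 0)) (.slot (nat_lit 1))) (.col (nat_lit 1)) (.node (.col (nat_lit 1)) (.slot (nat_lit 0)) (.slot (nat_lit 0)))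
def w21420 : Root := .mk (.node (.node (.node (.col (nat_lit 2)) (.node (.slot (nat_lit 0)) (.slot (nat_lit 0)) (.slot (nat_lit 0))) (.slot (nat_lit 1))) (.col (nat_lit 0)) (.slot (nat_lit 2))) (.node (.col (nat_lit 0)) (.slot (nat_lit 0)) (.slot (nat_lit 0))) (.slot (nat_lit 1))) (.col (nat_lit 1)) (.col (nat_lit 2)) (.slot (nat_lit 3))
def w21421 : Root := .mk (.node (.node (.node (.col (nat_lit 2)) (.node (.slot (nat_lit 0)) (.slot (nat_lit 0)) (.slot (nat_lit 0))) (.slot (nat_lit 3))) (.col (nat_lit 0)) (.col (nat_lit 2))) (.node (.col (nat_lit 0)) (.slot (nat_lit 0)) (.slot (nat_lit 0))) (.slot (nat_lit 3))) (.col (nat_lit 1)) (.col (nat_lit 0)) (.col (nat_lit 4))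
def w21422 : Root := .mk (.node (.node (.node (.col (nat_lit 2)) (.node (.slot (nat_lit 0)) (.slot (nat_lit 0)) (.slot (nat_lit 0))) (.slot (nat_lit 6))) (.col (nat_lit 0)) (.slot (nat_lit 0))) (.node (.col (nat_lit 0)) (.slot (nat_lit 0)) (.slot (nat_lit 0))) (.slot (nat_lit 6))) (.col (nat_lit 1)) (.col (nat_lit 0)) (.col (nat_lit 4))
def w21423 : Root := .mk (.node (.node (.node (.col (nat_lit 2)) (.slot (nat_lit 0)) (.col (nat_lit 3))) (.col (nat_lit 0)) (.slot (nat_lit 0))) (.node (.col (nat_lit 0)) (.slot (nat_lit 0)) (.slot (nat_lit 0))) (.slot (nat_lit 6))) (.col (nat_lit 1)) (.col (nat_lit 0)) (.col (nat_lit 4))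
def l4745 : Root := .mk (.node (.node (.node (.col (nat_lit 2)) (.node (.slot (nat_lit 0)) (.slot (nat_lit 0)) (.slot (nat_lit 0))) (.slot (nat_lit 6))) (.col (nat_lit 0)) (.slot (nat_lit 8))) (.node (.col (nat_lit 0)) (.slot (nat_lit 0)) (.slot (nat_lit 0))) (.slot (nat_lit 8))) (.col (nat_lit 1)) (.col (nat_lit 0)) (.col (nat_lit 4))
def w21424 : Root := .mk (.node (.node (.node (.col (nat_lit 2)) (.node (.slot (nat_lit 0)) (.slot (nat_lit 0)) (.slot (nat_lit 0))) (.slot (nat_lit 6))) (.col (nat_lit 0)) (.slot (nat_lit 8))) (.node (.col (nat_lit 0)) (.slot (nat_lit 0)) (.slot (nat_lit 0))) (.slot (nat_lit 8))) (.col (nat_lit 1)) (.node (.col (nat_lit 4)) (.slot (nat_lit 0)) (.slot (nat_lit 0))) (.col (nat_lit 4))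
def w21440 : Root := .mk (.col (nat_lit 2)) (.col (nat_lit 0)) (.node (.node (.node (.col (nat_lit 1)) (.slot (nat_lit 20)) (.slot (nat_lit 9))) (.node (.col (nat_lit 0)) (.slot (nat_lit 0)) (.slot (nat_lit 0))) (.col (nat_lit 2))) (.node (.slot (nat_lit 0)) (.slot (nat_lit 0)) (.slot (nat_lit 0))) (.slot (nat_lit 8))) (.slot (nat_lit 2))
def w21441 : Root := .mk (.col (nat_lit 2)) (.col (nat_lit 3)) (.node (.node (.node (.col (nat_lit 1)) (.slot (nat_lit 4)) (.slot (nat_lit 4))) (.node (.col (nat_lit 0)) (.slot (nat_lit 0)) (.slot (nat_lit 0))) (.col (nat_lit 2))) (.node (.col (nat_lit 0)) (.slot (nat_lit 1)) (.slot (nat_lit 1))) (.slot (nat_lit 2))) (.slot (nat_lit 2))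
def w21442 : Root := .mk (.col (nat_lit 2)) (.col (nat_lit 3)) (.node (.node (.node (.col (nat_lit 1)) (.slot (nat_lit 1)) (.slot (nat_lit 0))) (.node (.col (nat_lit 0)) (.slot (nat_lit 0)) (.slot (nat_lit 0))) (.col (nat_lit 2))) (.node (.col (nat_lit 4)) (.slot (nat_lit 3)) (.slot (nat_lit 3))) (.slot (nat_lit 8))) (.slot (nat_lit 3))
def w21443 : Root := .mk (.col (nat_lit 2)) (.col (nat_lit 3)) (.node (.node (.node (.col (nat_lit 1)) (.slot (nat_lit 1)) (.slot (nat_lit 0))) (.node (.col (nat_lit 0)) (.slot (nat_lit 0)) (.slot (nat_lit 0))) (.col (nat_lit 2))) (.node (.slot (nat_lit 0)) (.slot (nat_lit 1)) (.slot (nat_lit 1))) (.slot (nat_lit 4))) (.slot (nat_lit 8))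
def w21444 : Root := .mk (.node (.node (.node (.col (nat_lit 2)) (.col (nat_lit 3)) (.slot (nat_lit 2))) (.slot (nat_lit 8)) (.slot (nat_lit 2))) (.node (.col (nat_lit 1)) (.slot (nat_lit 7)) (.slot (nat_lit 5))) (.col (nat_lit 2))) (.col (nat_lit 0)) (.col (nat_lit 3)) (.slot (nat_lit 0))
def w21445 : Root := .mk (.node (.node (.node (.col (nat_lit 2)) (.col (nat_lit 3)) (.slot (nat_lit 2))) (.slot (nat_lit 2)) (.slot (nat_lit 2))) (.node (.col (nat_lit 1)) (.slot (nat_lit 2)) (.slot (nat_lit 2))) (.col (nat_lit 2))) (.col (nat_lit 0)) (.col (nat_lit 4)) (.slot (nat_lit 0))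
def l4755 : Root := .mk (.col (nat_lit 2)) (.col (nat_lit 3)) (.node (.node (.node (.col (nat_lit 1)) (.slot (nat_lit 20)) (.slot (nat_lit 9))) (.node (.col (nat_lit 0)) (.node (.slot (nat_lit 0)) (.slot (nat_lit 0)) (.slot (nat_lit 0))) (.slot (nat_lit 0))) (.col (nat_lit 2))) (.slot (nat_lit 20)) (.slot (nat_lit 12))) (.slot (nat_lit 21))
def w21446 : Root := .mk (.node (.node (.col (nat_lit 2)) (.node (.slot (nat_lit 0)) (.slot (nat_lit 0)) (.slot (nat_lit 0))) (.slot (nat_lit 21))) (.slot (nat_lit 20)) (.slot (nat_lit 12))) (.node (.col (nat_lit 1)) (.slot (nat_lit 20)) (.slot (nat_lit 9))) (.node (.col (nat_lit 0)) (.node (.slot (nat_lit 0)) (.slot (nat_lit 0)) (.slot (nat_lit 0))) (.slot (nat_lit 0))) (.col (nat_lit 2))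
def w21465 : Root := .mk (.node (.node (.node (.col (nat_lit 3)) (.node (.col (nat_lit 1)) (.slot (nat_lit 3)) (.slot (nat_lit 1))) (.slot (nat_lit 1))) (.col (nat_lit 0)) (.slot (nat_lit 0))) (.slot (nat_lit 1)) (.slot (nat_lit 1))) (.col (nat_lit 0)) (.col (nat_lit 4)) (.slot (nat_lit 2))
def w21466 : Root := .mk (.node (.node (.node (.col (nat_lit 3)) (.node (.col (nat_lit 1)) (.slot (nat_lit 3)) (.slot (nat_lit 1))) (.slot (nat_lit 1))) (.col (nat_lit 0)) (.slot (nat_lit 0))) (.slot (nat_lit 1)) (.slot (nat_lit 1))) (.col (nat_lit 2)) (.col (nat_lit 4)) (.slot (nat_lit 2))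
def w21469 : Root := .mk (.node (.slot (nat_lit 0)) (.col (nat_lit 3)) (.slot (nat_lit 0))) (.col (nat_lit 2)) (.node (.col (nat_lit 0)) (.col (nat_lit 3)) (.slot (nat_lit 0))) (.node (.col (nat_lit 0)) (.slot (nat_lit 1)) (.slot (nat_lit 3)))
def w21474 : Root := .mk (.col (nat_lit 4)) (.node (.node (.col (nat_lit 1)) (.node (.col (nat_lit 0)) (.slot (nat_lit 1)) (.slot (nat_lit 1))) (.slot (nat_lit 2))) (.node (.col (nat_lit 0)) (.col (nat_lit 3)) (.slot (nat_lit 0))) (.slot (nat_lit 1))) (.col (nat_lit 3)) (.slot (nat_lit 1))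
def w21487 : Root := .mk (.col (nat_lit 1)) (.node (.col (nat_lit 1)) (.slot (nat_lit 0)) (.slot (nat_lit 0))) (.node (.col (nat_lit 0)) (.node (.node (.col (nat_lit 1)) (.col (nat_lit 4)) (.slot (nat_lit 2))) (.slot (nat_lit 1)) (.slot (nat_lit 1))) (.slot (nat_lit 0))) (.col (nat_lit 2))
def w21495 : Root := .mk (.node (.col (nat_lit 2)) (.node (.slot (nat_lit 0)) (.slot (nat_lit 0)) (.slot (nat_lit 0))) (.slot (nat_lit 1))) (.node (.node (.col (nat_lit 1)) (.slot (nat_lit 0)) (.node (.slot (nat_lit 0)) (.slot (nat_lit 0)) (.slot (nat_lit 0)))) (.node (.col (nat_lit 0)) (.col (nat_lit 3)) (.slot (nat_lit 0))) (.slot (nat_lit 1))) (.col (nat_lit 4)) (.col (nat_lit 0))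
def w21513 : Root := .mk (.node .junk (.col (nat_lit 1)) (.slot (nat_lit 1))) (.node (.node (.col (nat_lit 1)) (.slot (nat_lit 1)) (.slot (nat_lit 1))) (.node (.col (nat_lit 0)) (.node (.col (nat_lit 2)) (.slot (nat_lit 0)) (.slot (nat_lit 0))) (.slot (nat_lit 0))) (.col (nat_lit 2))) (.col (nat_lit 2)) (.col (nat_lit 0))
def w21522 : Root := .mk (.node (.col (nat_lit 0)) (.slot (nat_lit 1)) (.slot (nat_lit 3))) (.node (.col (nat_lit 1)) (.col (nat_lit 0)) (.slot (nat_lit 0))) (.node (.col (nat_lit 0)) (.slot (nat_lit 0)) (.slot (nat_lit 0))) (.col (nat_lit 2))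
def l4768 : Root := .mk (.node (.col (nat_lit 3)) (.col (nat_lit 0)) (.slot (nat_lit 5))) (.node (.col (nat_lit 1)) (.col (nat_lit 0)) (.slot (nat_lit 6))) (.node (.col (nat_lit 0)) (.node .junk (.col (nat_lit 3)) .junk) (.slot (nat_lit 0))) (.col (nat_lit 2))
def w21541 : Root := .mk (.col (nat_lit 3)) (.node (.node (.col (nat_lit 1)) (.col (nat_lit 0)) (.slot (nat_lit 6))) (.node (.col (nat_lit 0)) (.node .junk (.col (nat_lit 3)) .junk) (.slot (nat_lit 0))) (.slot (nat_lit 1))) (.col (nat_lit 0)) (.slot (nat_lit 5))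
def w21542 : Root := .mk (.node .junk (.node (.slot (nat_lit 0)) (.slot (nat_lit 0)) (.slot (nat_lit 0))) (.col (nat_lit 4))) (.node (.node (.col (nat_lit 1)) (.col (nat_lit 0)) (.slot (nat_lit 3))) (.node (.col (nat_lit 0)) (.slot (nat_lit 0)) (.slot (nat_lit 0))) (.slot (nat_lit 1))) (.col (nat_lit 0)) (.col (nat_lit 2))
def w21556 : Root := .mk (.node (.slot (nat_lit 0)) (.col (nat_lit 0)) (.slot (nat_lit 0))) (.node (.node (.col (nat_lit 3)) (.slot (nat_lit 1)) (.slot (nat_lit 1))) (.col (nat_lit 4)) (.slot (nat_lit 2))) (.col (nat_lit 2)) (.node (.col (nat_lit 1)) (.slot (nat_lit 20)) (.slot (nat_lit 9)))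
def w21558 : Root := .mk (.node (.slot (nat_lit 0)) (.col (nat_lit 0)) (.slot (nat_lit 0))) (.node (.node (.col (nat_lit 3)) (.slot (nat_lit 1)) (.slot (nat_lit 1))) (.col (nat_lit 4)) (.slot (nat_lit 2))) (.col (nat_lit 2)) (.node (.col (nat_lit 3)) (.slot (nat_lit 20)) (.slot (nat_lit 9)))
def w21638 : Root := .mk (.col (nat_lit 2)) (.node (.slot (nat_lit 0)) (.slot (nat_lit 0)) (.slot (nat_lit 0))) (.node (.node (.node (.col (nat_lit 1)) (.col (nat_lit 3)) (.node (.col (nat_lit 1)) (.slot (nat_lit 0)) (.slot (nat_lit 0)))) (.node (.col (nat_lit 0)) (.slot (nat_lit 0)) (.slot (nat_lit 0))) (.slot (nat_lit 1))) (.col (nat_lit 4)) (.col (nat_lit 3))) (.col (nat_lit 3))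
def w21639 : Root := .mk (.col (nat_lit 2)) (.node (.slot (nat_lit 0)) (.slot (nat_lit 0)) (.slot (nat_lit 0))) (.node (.node (.node (.col (nat_lit 1)) (.col (nat_lit 3)) (.node (.col (nat_lit 1)) (.slot (nat_lit 0)) (.slot (nat_lit 0)))) (.node (.col (nat_lit 0)) (.slot (nat_lit 0)) (.slot (nat_lit 0))) (.slot (nat_lit 1))) (.col (nat_lit 4)) (.col (nat_lit 3))) (.col (nat_lit 4))
def w21643 : Root := .mk (.col (nat_lit 4)) (.node (.node (.col (nat_lit 1)) (.col (nat_lit 3)) (.slot (nat_lit 1))) (.node (.col (nat_lit 0)) (.col (nat_lit 3)) (.slot (nat_lit 0))) (.col (nat_lit 2))) (.col (nat_lit 3)) (.node (.col (nat_lit 3)) (.slot (nat_lit 0)) (.slot (nat_lit 0)))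
def l4790 : Root := .mk (.node (.col (nat_lit 4)) (.col (nat_lit 3)) (.slot (nat_lit 2))) (.node (.col (nat_lit 1)) (.col (nat_lit 3)) (.slot (nat_lit 2))) (.node (.col (nat_lit 0)) (.col (nat_lit 3)) (.slot (nat_lit 0))) (.col (nat_lit 2))
def l4791 : Root := .mk (.node (.node (.col (nat_lit 4)) (.col (nat_lit 3)) (.slot (nat_lit 3))) (.node (.col (nat_lit 0)) (.slot (nat_lit 0)) (.slot (nat_lit 0))) (.slot (nat_lit 8))) (.col (nat_lit 1)) (.col (nat_lit 4)) (.node (.col (nat_lit 2)) (.slot (nat_lit 20)) (.slot (nat_lit 9)))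
def w21648 : Root := .mk (.node (.node (.col (nat_lit 4)) (.col (nat_lit 3)) (.slot (nat_lit 3))) (.node (.col (nat_lit 0)) (.slot (nat_lit 0)) (.slot (nat_lit 0))) (.slot (nat_lit 8))) (.col (nat_lit 1)) (.col (nat_lit 4)) (.slot (nat_lit 21))
def w21706 : Root := .mk (.node (.node (.node (.col (nat_lit 2)) (.col (nat_lit 1)) (.slot (nat_lit 2))) (.slot (nat_lit 1)) (.slot (nat_lit 1))) (.node (.col (nat_lit 0)) (.slot (nat_lit 0)) (.slot (nat_lit 0))) (.slot (nat_lit 2))) (.col (nat_lit 1)) (.col (nat_lit 4)) (.slot (nat_lit 2))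
def w21728 : Root := .mk (.node (.node (.col (nat_lit 0)) (.slot (nat_lit 1)) (.slot (nat_lit 1))) (.node (.col (nat_lit 0)) (.slot (nat_lit 0)) (.slot (nat_lit 0))) (.node (.col (nat_lit 0)) (.slot (nat_lit 1)) (.slot (nat_lit 1)))) (.col (nat_lit 1)) (.col (nat_lit 0)) (.node (.col (nat_lit 0)) (.slot (nat_lit 0)) (.slot (nat_lit 0)))
def w21729 : Root := .mk (.node (.node (.col (nat_lit 0)) (.col (nat_lit 1)) (.slot (nat_lit 3))) (.node (.col (nat_lit 0)) (.slot (nat_lit 0)) (.slot (nat_lit 0))) (.node (.col (nat_lit 0)) (.slot (nat_lit 0)) (.slot (nat_lit 0)))) (.col (nat_lit 1)) (.col (nat_lit 0)) (.slot (nat_lit 0))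
def w21730 : Root := .mk (.node (.node (.col (nat_lit 0)) (.col (nat_lit 2)) (.slot (nat_lit 1))) (.node (.col (nat_lit 0)) (.slot (nat_lit 0)) (.slot (nat_lit 0))) (.node (.col (nat_lit 0)) (.slot (nat_lit 1)) (.slot (nat_lit 1)))) (.col (nat_lit 1)) (.col (nat_lit 0)) (.node (.col (nat_lit 0)) (.slot (nat_lit 0)) (.slot (nat_lit 0)))
def w21737 : Root := .mk (.node (.node (.col (nat_lit 0)) (.col (nat_lit 2)) (.slot (nat_lit 4))) (.node (.col (nat_lit 0)) (.slot (nat_lit 0)) (.slot (nat_lit 0))) (.node (.col (nat_lit 0)) (.slot (nat_lit 3)) (.slot (nat_lit 1)))) (.col (nat_lit 1)) (.col (nat_lit 0)) (.node (.col (nat_lit 1)) (.slot (nat_lit 0)) (.slot (nat_lit 0)))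
def w21738 : Root := .mk (.node (.node (.col (nat_lit 0)) (.node (.col (nat_lit 0)) (.slot (nat_lit 0)) (.slot (nat_lit 0))) (.slot (nat_lit 2))) (.node (.col (nat_lit 0)) (.slot (nat_lit 0)) (.slot (nat_lit 0))) (.node (.col (nat_lit 0)) (.slot (nat_lit 1)) (.slot (nat_lit 1)))) (.col (nat_lit 1)) (.col (nat_lit 0)) (.node (.col (nat_lit 1)) (.slot (nat_lit 3)) (.slot (nat_lit 3)))
def w21739 : Root := .mk (.node (.node (.col (nat_lit 0)) (.node (.slot (nat_lit 0)) (.slot (nat_lit 0)) (.slot (nat_lit 0))) (.slot (nat_lit 1))) (.node (.col (nat_lit 0)) (.slot (nat_lit 0)) (.slot (nat_lit 0))) (.node (.col (nat_lit 0)) (.slot (nat_lit 1)) (.slot (nat_lit 1)))) (.col (nat_lit 1)) (.col (nat_lit 0)) (.node (.col (nat_lit 1)) (.slot (nat_lit 0)) (.slot (nat_lit 0)))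
def w21770 : Root := .mk (.node (.node (.col (nat_lit 0)) (.col (nat_lit 2)) (.slot (nat_lit 1))) (.node (.col (nat_lit 0)) (.slot (nat_lit 0)) (.slot (nat_lit 0))) (.node (.col (nat_lit 0)) (.slot (nat_lit 1)) (.slot (nat_lit 1)))) (.col (nat_lit 1)) (.col (nat_lit 0)) (.node (.slot (nat_lit 0)) (.slot (nat_lit 0)) (.slot (nat_lit 0)))
def w21771 : Root := .mk (.node (.node (.col (nat_lit 0)) (.node (.col (nat_lit 0)) (.slot (nat_lit 0)) (.slot (nat_lit 0))) (.slot (nat_lit 2))) (.node (.col (nat_lit 0)) (.slot (nat_lit 0)) (.slot (nat_lit 0))) (.node (.col (nat_lit 0)) (.slot (nat_lit 1)) (.slot (nat_lit 1)))) (.col (nat_lit 1)) (.col (nat_lit 0)) (.node (.slot (nat_lit 0)) (.slot (nat_lit 0)) (.slot (nat_lit 0)))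
def w21786 : Root := .mk (.node (.node (.col (nat_lit 0)) (.node (.col (nat_lit 1)) (.slot (nat_lit 1)) (.slot (nat_lit 1))) (.slot (nat_lit 2))) (.node (.col (nat_lit 0)) (.slot (nat_lit 0)) (.slot (nat_lit 0))) (.node (.col (nat_lit 0)) (.slot (nat_lit 3)) (.slot (nat_lit 1)))) (.col (nat_lit 1)) (.col (nat_lit 0)) (.slot (nat_lit 0))
def w21830 : Root := .mk (.node (.node (.col (nat_lit 0)) (.node (.col (nat_lit 2)) (.slot (nat_lit 1)) (.slot (nat_lit 0))) (.slot (nat_lit 3))) (.node (.col (nat_lit 0)) (.node (.slot (nat_lit 0)) (.slot (nat_lit 0)) (.slot (nat_lit 0))) (.slot (nat_lit 0))) (.node (.col (nat_lit 0)) (.slot (nat_lit 4)) (.slot (nat_lit 4)))) (.col (nat_lit 1)) (.col (nat_lit 0)) (.slot (nat_lit 0))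
def l4822 : Root := .mk (.node (.node (.col (nat_lit 0)) (.slot (nat_lit 7)) (.slot (nat_lit 5))) (.node (.col (nat_lit 0)) (.node (.slot (nat_lit 0)) (.slot (nat_lit 0)) (.slot (nat_lit 0))) (.slot (nat_lit 0))) (.node (.col (nat_lit 0)) (.slot (nat_lit 7)) (.slot (nat_lit 5)))) (.col (nat_lit 1)) (.col (nat_lit 0)) (.node (.col (nat_lit 1)) (.slot (nat_lit 3)) (.slot (nat_lit 3)))
def w21832 : Root := .mk (.node (.node (.col (nat_lit 0)) (.slot (nat_lit 7)) (.slot (nat_lit 5))) (.node (.col (nat_lit 0)) (.node (.slot (nat_lit 0)) (.slot (nat_lit 0)) (.slot (nat_lit 0))) (.slot (nat_lit 0))) (.slot (nat_lit 8))) (.col (nat_lit 1)) (.col (nat_lit 0)) (.node (.col (nat_lit 1)) (.slot (nat_lit 3)) (.slot (nat_lit 3)))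
def l4823 : Root := .mk (.node (.node (.col (nat_lit 0)) (.slot (nat_lit 7)) (.slot (nat_lit 5))) (.node (.col (nat_lit 0)) (.node (.slot (nat_lit 0)) (.slot (nat_lit 0)) (.slot (nat_lit 0))) (.slot (nat_lit 0))) (.node (.col (nat_lit 0)) (.slot (nat_lit 7)) (.slot (nat_lit 5)))) (.col (nat_lit 1)) (.col (nat_lit 0)) (.node (.slot (nat_lit 0)) (.slot (nat_lit 1)) (.slot (nat_lit 1)))
def w21833 : Root := .mk (.node (.node (.col (nat_lit 0)) (.slot (nat_lit 7)) (.slot (nat_lit 5))) (.node (.col (nat_lit 0)) (.node (.slot (nat_lit 0)) (.slot (nat_lit 0)) (.slot (nat_lit 0))) (.slot (nat_lit 0))) (.slot (nat_lit 8))) (.col (nat_lit 1)) (.col (nat_lit 0)) (.node (.slot (nat_lit 0)) (.slot (nat_lit 1)) (.slot (nat_lit 1)))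
def w21834 : Root := .mk (.node (.col (nat_lit 3)) (.col (nat_lit 0)) .junk) (.node (.node (.col (nat_lit 3)) (.node (.col (nat_lit 0)) (.slot (nat_lit 1)) (.slot (nat_lit 1))) (.slot (nat_lit 2))) (.node (.col (nat_lit 0)) (.slot (nat_lit 1)) (.slot (nat_lit 1))) (.slot (nat_lit 2))) (.col (nat_lit 1)) (.slot (nat_lit 1))
def w21853 : Root := .mk (.node (.node (.node (.col (nat_lit 3)) (.col (nat_lit 0)) (.slot (nat_lit 0))) (.col (nat_lit 1)) (.slot (nat_lit 1))) (.node (.col (nat_lit 0)) (.col (nat_lit 1)) (.slot (nat_lit 0))) (.slot (nat_lit 3))) (.col (nat_lit 3)) (.col (nat_lit 2)) (.node (.col (nat_lit 4)) .junk (.slot (nat_lit 1)))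
def l4825 : Root := .mk (.node (.node (.node (.col (nat_lit 3)) (.col (nat_lit 0)) (.slot (nat_lit 0))) (.col (nat_lit 1)) (.slot (nat_lit 1))) (.node (.col (nat_lit 0)) (.col (nat_lit 1)) (.slot (nat_lit 0))) (.slot (nat_lit 3))) (.col (nat_lit 3)) (.col (nat_lit 2)) (.node (.col (nat_lit 4)) (.slot (nat_lit 20)) (.slot (nat_lit 9)))
def w21854 : Root := .mk (.node (.node (.node (.col (nat_lit 3)) (.col (nat_lit 0)) (.slot (nat_lit 0))) (.col (nat_lit 1)) (.slot (nat_lit 1))) (.node (.col (nat_lit 3)) (.col (nat_lit 2)) (.slot (nat_lit 21))) (.slot (nat_lit 3))) (.col (nat_lit 0)) (.col (nat_lit 1)) (.slot (nat_lit 0))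
def w21858 : Root := .mk (.slot (nat_lit 0)) (.node (.node (.col (nat_lit 3)) (.node (.col (nat_lit 0)) .junk (.slot (nat_lit 1))) (.col (nat_lit 1))) (.node (.col (nat_lit 0)) (.col (nat_lit 1)) .junk) (.slot (nat_lit 1))) (.col (nat_lit 1)) (.col (nat_lit 0))
def w21859 : Root := .mk (.node (.col (nat_lit 3)) (.col (nat_lit 0)) (.slot (nat_lit 0))) (.node (.node (.col (nat_lit 3)) (.node (.col (nat_lit 0)) (.col (nat_lit 3)) (.slot (nat_lit 1))) (.col (nat_lit 1))) (.node (.col (nat_lit 0)) (.col (nat_lit 1)) (.slot (nat_lit 0))) (.slot (nat_lit 1))) (.col (nat_lit 1)) (.col (nat_lit 3))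
def w21863 : Root := .mk (.node (.node (.slot (nat_lit 0)) (.col (nat_lit 1)) (.node (.col (nat_lit 2)) (.slot (nat_lit 0)) (.slot (nat_lit 0)))) (.node (.col (nat_lit 3)) (.col (nat_lit 2)) (.slot (nat_lit 0))) (.col (nat_lit 3))) (.col (nat_lit 0)) (.col (nat_lit 1)) (.node (.col (nat_lit 1)) (.slot (nat_lit 0)) (.slot (nat_lit 0)))
def w21864 : Root := .mk (.node (.node (.slot (nat_lit 0)) (.col (nat_lit 1)) (.node (.col (nat_lit 2)) (.slot (nat_lit 0)) (.slot (nat_lit 0)))) (.node (.col (nat_lit 3)) (.col (nat_lit 4)) (.slot (nat_lit 0))) (.col (nat_lit 3))) (.col (nat_lit 0)) (.col (nat_lit 1)) (.node (.col (nat_lit 1)) (.slot (nat_lit 0)) (.slot (nat_lit 0)))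
def w21865 : Root := .mk (.node (.node (.slot (nat_lit 0)) (.col (nat_lit 1)) (.node (.col (nat_lit 2)) (.slot (nat_lit 0)) (.slot (nat_lit 0)))) (.node (.col (nat_lit 0)) (.col (nat_lit 1)) (.node (.col (nat_lit 1)) (.slot (nat_lit 0)) (.slot (nat_lit 0)))) (.col (nat_lit 3))) (.col (nat_lit 3)) (.slot (nat_lit 0)) (.col (nat_lit 0))
def l4828 : Root := .mk (.node (.node (.node (.col (nat_lit 3)) (.col (nat_lit 0)) .junk) (.col (nat_lit 1)) (.node (.col (nat_lit 2)) (.slot (nat_lit 1)) (.slot (nat_lit 1)))) (.node (.col (nat_lit 3)) (.node (.col (nat_lit 0)) (.slot (nat_lit 3)) (.slot (nat_lit 3))) (.slot (nat_lit 2))) (.col (nat_lit 3))) (.col (nat_lit 0)) (.col (nat_lit 1)) (.node (.col (nat_lit 1)) (.slot (nat_lit 0)) (.slot (nat_lit 0)))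
def w21866 : Root := .mk (.node (.node (.node (.col (nat_lit 3)) (.col (nat_lit 0)) .junk) (.col (nat_lit 1)) (.node (.col (nat_lit 2)) (.slot (nat_lit 1)) (.slot (nat_lit 1)))) (.node (.col (nat_lit 3)) (.node (.col (nat_lit 0)) (.slot (nat_lit 3)) (.slot (nat_lit 3))) (.slot (nat_lit 2))) (.slot (nat_lit 1))) (.col (nat_lit 0)) (.col (nat_lit 1)) (.node (.col (nat_lit 1)) (.slot (nat_lit 0)) (.slot (nat_lit 0)))
def w21867 : Root := .mk (.node (.node (.node (.col (nat_lit 3)) (.col (nat_lit 0)) .junk) (.col (nat_lit 1)) (.slot (nat_lit 1))) (.node (.col (nat_lit 3)) (.slot (nat_lit 0)) (.slot (nat_lit 0))) (.node (.col (nat_lit 0)) (.slot (nat_lit 1)) (.slot (nat_lit 0)))) (.col (nat_lit 0)) (.col (nat_lit 1)) (.node (.col (nat_lit 1)) (.slot (nat_lit 0)) (.slot (nat_lit 0)))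
def w21868 : Root := .mk (.node (.node (.node (.col (nat_lit 3)) (.col (nat_lit 0)) .junk) (.col (nat_lit 1)) (.slot (nat_lit 1))) (.node (.col (nat_lit 3)) (.slot (nat_lit 0)) (.slot (nat_lit 0))) (.node (.col (nat_lit 1)) (.slot (nat_lit 1)) (.slot (nat_lit 0)))) (.col (nat_lit 0)) (.col (nat_lit 1)) (.node (.col (nat_lit 1)) (.slot (nat_lit 0)) (.slot (nat_lit 0)))
def w21869 : Root := .mk (.node (.node (.node (.col (nat_lit 3)) (.col (nat_lit 0)) .junk) (.col (nat_lit 1)) (.slot (nat_lit 1))) (.node (.col (nat_lit 0)) .junk (.node (.col (nat_lit 1)) (.slot (nat_lit 0)) (.slot (nat_lit 0)))) (.col (nat_lit 1))) (.col (nat_lit 3)) (.node (.col (nat_lit 0)) .junk (.slot (nat_lit 1))) (.col (nat_lit 1))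
def w21870 : Root := .mk (.node (.node (.node (.col (nat_lit 3)) (.col (nat_lit 0)) .junk) (.col (nat_lit 1)) (.slot (nat_lit 1))) (.node (.col (nat_lit 0)) (.col (nat_lit 1)) (.node (.col (nat_lit 1)) (.slot (nat_lit 0)) (.slot (nat_lit 0)))) (.slot (nat_lit 0))) (.col (nat_lit 3)) (.node (.col (nat_lit 0)) .junk (.slot (nat_lit 1))) (.col (nat_lit 1))
def w21871 : Root := .mk (.node (.node (.node (.col (nat_lit 3)) (.col (nat_lit 0)) .junk) (.col (nat_lit 1)) (.slot (nat_lit 1))) (.node (.col (nat_lit 0)) (.col (nat_lit 1)) (.node (.col (nat_lit 1)) (.slot (nat_lit 0)) (.slot (nat_lit 0)))) (.slot (nat_lit 1))) (.col (nat_lit 3)) (.slot (nat_lit 0)) (.col (nat_lit 1))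
def w21872 : Root := .mk (.node (.node (.slot (nat_lit 0)) (.col (nat_lit 1)) (.slot (nat_lit 0))) (.node (.col (nat_lit 0)) (.col (nat_lit 1)) (.node (.col (nat_lit 1)) (.slot (nat_lit 0)) (.slot (nat_lit 0)))) (.slot (nat_lit 1))) (.col (nat_lit 3)) (.node (.col (nat_lit 0)) (.col (nat_lit 3)) (.slot (nat_lit 5))) (.col (nat_lit 1))
def l4829 : Root := .mk (.node (.node (.node (.col (nat_lit 3)) (.col (nat_lit 0)) (.slot (nat_lit 0))) (.col (nat_lit 1)) (.slot (nat_lit 4))) (.node (.col (nat_lit 0)) (.col (nat_lit 1)) (.node (.col (nat_lit 1)) (.slot (nat_lit 0)) (.slot (nat_lit 0)))) (.slot (nat_lit 3))) (.col (nat_lit 3)) (.node (.col (nat_lit 0)) (.col (nat_lit 3)) (.slot (nat_lit 5))) (.col (nat_lit 1))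
def w21873 : Root := .mk (.node (.node (.node (.col (nat_lit 3)) (.col (nat_lit 0)) (.slot (nat_lit 0))) (.col (nat_lit 1)) (.slot (nat_lit 4))) (.node (.col (nat_lit 3)) (.node (.col (nat_lit 0)) (.col (nat_lit 3)) (.slot (nat_lit 5))) (.slot (nat_lit 1))) (.slot (nat_lit 3))) (.col (nat_lit 0)) (.col (nat_lit 1)) (.node (.col (nat_lit 1)) (.slot (nat_lit 0)) (.slot (nat_lit 0)))
def l4830 : Root := .mk (.node (.node (.node (.col (nat_lit 3)) (.col (nat_lit 0)) (.slot (nat_lit 0))) (.col (nat_lit 1)) (.slot (nat_lit 4))) (.node (.col (nat_lit 3)) (.node (.col (nat_lit 0)) (.slot (nat_lit 20)) (.slot (nat_lit 12))) (.slot (nat_lit 21))) (.slot (nat_lit 8))) (.col (nat_lit 0)) (.col (nat_lit 1)) (.node (.col (nat_lit 1)) (.slot (nat_lit 4)) (.slot (nat_lit 4)))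
def w21874 : Root := .mk (.node (.node (.node (.col (nat_lit 3)) (.col (nat_lit 0)) (.slot (nat_lit 0))) (.slot (nat_lit 1)) (.slot (nat_lit 4))) (.node (.col (nat_lit 3)) (.node (.col (nat_lit 0)) (.slot (nat_lit 20)) (.slot (nat_lit 12))) (.slot (nat_lit 21))) (.slot (nat_lit 8))) (.col (nat_lit 0)) (.col (nat_lit 1)) (.node (.col (nat_lit 1)) (.slot (nat_lit 4)) (.slot (nat_lit 4)))
def w21880 : Root := .mk (.node (.node (.node (.col (nat_lit 3)) (.col (nat_lit 0)) (.slot (nat_lit 0))) (.col (nat_lit 1)) (.slot (nat_lit 1))) (.node (.col (nat_lit 3)) (.slot (nat_lit 0)) (.slot (nat_lit 0))) (.slot (nat_lit 3))) (.col (nat_lit 0)) (.col (nat_lit 1)) (.node .junk (.col (nat_lit 2)) (.slot (nat_lit 1)))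
def w21883 : Root := .mk (.col (nat_lit 3)) (.col (nat_lit 0)) (.node (.node (.col (nat_lit 0)) (.node (.col (nat_lit 0)) (.node (.col (nat_lit 1)) (.slot (nat_lit 1)) (.slot (nat_lit 1))) (.slot (nat_lit 2))) (.slot (nat_lit 3))) (.slot (nat_lit 1)) (.slot (nat_lit 1))) (.slot (nat_lit 0))
def w21884 : Root := .mk (.node (.node (.node (.slot (nat_lit 0)) (.slot (nat_lit 0)) (.slot (nat_lit 0))) (.node (.col (nat_lit 3)) (.node (.col (nat_lit 0)) (.slot (nat_lit 1)) (.slot (nat_lit 1))) (.slot (nat_lit 2))) (.slot (nat_lit 1))) (.col (nat_lit 0)) (.slot (nat_lit 1))) (.col (nat_lit 1)) (.node (.col (nat_lit 1)) (.slot (nat_lit 0)) (.slot (nat_lit 0))) (.slot (nat_lit 2))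
def l4835 : Root := .mk (.node (.node (.node (.col (nat_lit 3)) (.col (nat_lit 0)) (.slot (nat_lit 0))) (.col (nat_lit 1)) (.slot (nat_lit 1))) (.col (nat_lit 2)) (.slot (nat_lit 1))) (.col (nat_lit 3)) (.node (.col (nat_lit 0)) (.slot (nat_lit 20)) (.slot (nat_lit 9))) (.col (nat_lit 1))
def w21887 : Root := .mk (.node (.node (.node (.col (nat_lit 3)) (.col (nat_lit 0)) (.slot (nat_lit 0))) (.col (nat_lit 1)) (.slot (nat_lit 1))) (.col (nat_lit 2)) (.slot (nat_lit 1))) (.col (nat_lit 3)) (.node (.col (nat_lit 0)) (.slot (nat_lit 20)) (.slot (nat_lit 9))) (.node (.slot (nat_lit 0)) (.slot (nat_lit 0)) (.slot (nat_lit 0)))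
def w21889 : Root := .mk (.node (.col (nat_lit 3)) (.col (nat_lit 0)) (.slot (nat_lit 0))) (.node (.node (.col (nat_lit 3)) (.slot (nat_lit 0)) (.slot (nat_lit 0))) (.node (.col (nat_lit 0)) (.node (.col (nat_lit 1)) (.slot (nat_lit 4)) (.slot (nat_lit 4))) (.slot (nat_lit 3))) (.slot (nat_lit 2))) (.col (nat_lit 2)) (.col (nat_lit 0))
def w21890 : Root := .mk (.node (.col (nat_lit 3)) (.col (nat_lit 0)) (.slot (nat_lit 0))) (.node (.node (.col (nat_lit 3)) (.slot (nat_lit 0)) (.node (.slot (nat_lit 0)) (.slot (nat_lit 0)) (.slot (nat_lit 0)))) (.node (.col (nat_lit 0)) (.node (.col (nat_lit 1)) (.slot (nat_lit 1)) (.slot (nat_lit 1))) (.slot (nat_lit 2))) (.slot (nat_lit 1))) (.col (nat_lit 2)) (.col (nat_lit 3))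
def w21891 : Root := .mk (.node (.col (nat_lit 3)) (.col (nat_lit 0)) (.slot (nat_lit 0))) (.node (.node (.col (nat_lit 3)) (.slot (nat_lit 0)) (.node (.slot (nat_lit 0)) (.slot (nat_lit 0)) (.slot (nat_lit 0)))) (.node (.col (nat_lit 0)) (.node (.col (nat_lit 1)) (.slot (nat_lit 1)) (.slot (nat_lit 1))) (.slot (nat_lit 2))) (.slot (nat_lit 2))) (.col (nat_lit 2)) (.node (.col (nat_lit 4)) (.slot (nat_lit 2)) (.slot (nat_lit 1)))
def w21892 : Root := .mk (.node (.node (.node (.col (nat_lit 3)) (.col (nat_lit 0)) .junk) (.col (nat_lit 2)) (.slot (nat_lit 1))) (.col (nat_lit 2)) (.slot (nat_lit 3))) (.col (nat_lit 3)) (.node (.col (nat_lit 0)) (.slot (nat_lit 1)) (.slot (nat_lit 0))) (.node (.slot (nat_lit 0)) (.slot (nat_lit 0)) (.slot (nat_lit 0)))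
def w21893 : Root := .mk (.node (.node (.node (.col (nat_lit 3)) (.col (nat_lit 0)) .junk) (.col (nat_lit 2)) (.slot (nat_lit 1))) (.node (.col (nat_lit 0)) (.node (.col (nat_lit 1)) (.node (.col (nat_lit 1)) (.slot (nat_lit 0)) (.slot (nat_lit 0))) (.slot (nat_lit 2))) (.slot (nat_lit 2))) (.slot (nat_lit 3))) (.col (nat_lit 3)) (.node (.col (nat_lit 0)) (.slot (nat_lit 1)) (.slot (nat_lit 0))) (.node (.slot (nat_lit 0)) (.slot (nat_lit 0)) (.slot (nat_lit 0)))
def l4836 : Root := .mk (.col (nat_lit 3)) (.col (nat_lit 0)) (.node (.node (.node (.col (nat_lit 3)) (.node (.col (nat_lit 0)) (.slot (nat_lit 20)) (.slot (nat_lit 9))) (.node (.slot (nat_lit 0)) (.slot (nat_lit 0)) (.slot (nat_lit 0)))) (.node (.col (nat_lit 0)) (.node (.col (nat_lit 1)) (.slot (nat_lit 20)) (.slot (nat_lit 12))) (.slot (nat_lit 21))) (.slot (nat_lit 3))) (.col (nat_lit 2)) (.slot (nat_lit 4))) (.slot (nat_lit 0))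
def w21894 : Root := .mk (.node (.node (.node (.col (nat_lit 3)) (.col (nat_lit 0)) (.slot (nat_lit 0))) (.slot (nat_lit 1)) (.slot (nat_lit 4))) (.node (.col (nat_lit 0)) (.node (.col (nat_lit 1)) (.slot (nat_lit 20)) (.slot (nat_lit 12))) (.slot (nat_lit 21))) (.slot (nat_lit 3))) (.col (nat_lit 3)) (.node (.col (nat_lit 0)) (.slot (nat_lit 20)) (.slot (nat_lit 9))) (.node (.slot (nat_lit 0)) (.slot (nat_lit 0)) (.slot (nat_lit 0)))
def w21895 : Root := .mk (.node (.node (.node (.slot (nat_lit 0)) (.slot (nat_lit 0)) (.slot (nat_lit 0))) (.node (.col (nat_lit 0)) (.node (.col (nat_lit 1)) (.slot (nat_lit 1)) (.slot (nat_lit 1))) (.slot (nat_lit 1))) (.slot (nat_lit 1))) (.col (nat_lit 3)) (.slot (nat_lit 2))) (.col (nat_lit 0)) (.node (.col (nat_lit 0)) (.slot (nat_lit 0)) (.slot (nat_lit 0))) (.slot (nat_lit 2))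
def l4837 : Root := .mk (.col (nat_lit 3)) (.col (nat_lit 0)) (.node (.node (.node (.col (nat_lit 3)) (.node (.col (nat_lit 0)) (.slot (nat_lit 20)) (.slot (nat_lit 12))) (.slot (nat_lit 21))) (.node (.col (nat_lit 0)) (.node (.col (nat_lit 1)) (.slot (nat_lit 20)) (.slot (nat_lit 12))) (.slot (nat_lit 21))) (.slot (nat_lit 8))) (.slot (nat_lit 4)) (.slot (nat_lit 1))) (.slot (nat_lit 0))
def w21896 : Root := .mk (.col (nat_lit 3)) (.col (nat_lit 0)) (.node (.node (.node (.col (nat_lit 3)) (.node (.col (nat_lit 0)) (.slot (nat_lit 20)) (.slot (nat_lit 12))) (.slot (nat_lit 21))) (.node (.col (nat_lit 0)) (.slot (nat_lit 21)) (.slot (nat_lit 21))) (.slot (nat_lit 8))) (.slot (nat_lit 4)) (.slot (nat_lit 1))) (.slot (nat_lit 0))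
def w21914 : Root := .mk (.node (.node (.node (.node (.slot (nat_lit 0)) (.col (nat_lit 0)) (.slot (nat_lit 0))) (.col (nat_lit 1)) (.slot (nat_lit 9))) (.slot (nat_lit 8)) (.slot (nat_lit 5))) (.col (nat_lit 3)) (.slot (nat_lit 8))) (.col (nat_lit 0)) (.node (.slot (nat_lit 0)) (.slot (nat_lit 0)) (.slot (nat_lit 0))) (.slot (nat_lit 8))
def w21925 : Root := .mk (.col (nat_lit 1)) (.node (.col (nat_lit 1)) (.slot (nat_lit 0)) (.slot (nat_lit 0))) (.node (.col (nat_lit 0)) (.node (.col (nat_lit 0)) (.node (.col (nat_lit 2)) (.slot (nat_lit 1)) (.slot (nat_lit 1))) (.slot (nat_lit 2))) (.slot (nat_lit 0))) (.col (nat_lit 3))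
def w21932 : Root := .mk (.slot (nat_lit 0)) (.node (.node (.col (nat_lit 1)) (.slot (nat_lit 0)) (.slot (nat_lit 0))) (.node (.col (nat_lit 1)) (.col (nat_lit 0)) (.slot (nat_lit 3))) (.node (.col (nat_lit 0)) (.slot (nat_lit 0)) (.slot (nat_lit 0)))) (.col (nat_lit 1)) (.col (nat_lit 0))
def w21985 : Root := .mk (.node .junk (.node (.slot (nat_lit 0)) (.slot (nat_lit 0)) (.slot (nat_lit 0))) (.col (nat_lit 3))) (.node (.node (.col (nat_lit 1)) (.slot (nat_lit 0)) (.slot (nat_lit 0))) (.node (.node (.col (nat_lit 2)) (.slot (nat_lit 3)) (.slot (nat_lit 1))) (.col (nat_lit 1)) (.slot (nat_lit 8))) (.slot (nat_lit 3))) (.col (nat_lit 0)) (.col (nat_lit 2))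
def w21989 : Root := .mk (.slot (nat_lit 0)) (.node (.node (.col (nat_lit 1)) (.node (.col (nat_lit 0)) (.slot (nat_lit 1)) (.slot (nat_lit 1))) (.node (.slot (nat_lit 0)) (.slot (nat_lit 0)) (.slot (nat_lit 0)))) (.node (.node (.col (nat_lit 2)) (.col (nat_lit 1)) (.slot (nat_lit 2))) (.slot (nat_lit 1)) (.slot (nat_lit 1))) (.slot (nat_lit 1))) (.col (nat_lit 0)) (.col (nat_lit 2))
def w21992 : Root := .mk (.node (.col (nat_lit 2)) (.slot (nat_lit 0)) (.slot (nat_lit 0))) (.node (.node (.col (nat_lit 1)) (.slot (nat_lit 0)) (.slot (nat_lit 0))) (.node (.node (.col (nat_lit 2)) (.slot (nat_lit 0)) (.slot (nat_lit 0))) (.slot (nat_lit 20)) (.slot (nat_lit 9))) (.col (nat_lit 1))) (.col (nat_lit 0)) (.col (nat_lit 2))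
def w22001 : Root := .mk (.col (nat_lit 2)) (.node (.slot (nat_lit 0)) (.slot (nat_lit 0)) (.slot (nat_lit 0))) (.node (.node (.node (.col (nat_lit 1)) (.slot (nat_lit 0)) (.slot (nat_lit 0))) (.node (.col (nat_lit 1)) (.slot (nat_lit 3)) (.slot (nat_lit 3))) (.slot (nat_lit 2))) (.col (nat_lit 0)) (.col (nat_lit 2))) (.col (nat_lit 3))
def w22007 : Root := .mk (.node (.col (nat_lit 2)) (.node (.node (.node (.col (nat_lit 1)) (.slot (nat_lit 0)) (.slot (nat_lit 0))) (.node (.col (nat_lit 1)) (.slot (nat_lit 0)) (.slot (nat_lit 0))) (.col (nat_lit 1))) (.col (nat_lit 0)) (.col (nat_lit 2))) (.col (nat_lit 1))) (.col (nat_lit 2)) (.col (nat_lit 0)) (.col (nat_lit 1))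
def l4861 : Root := .mk (.node (.col (nat_lit 2)) (.node (.col (nat_lit 2)) (.col (nat_lit 0)) (.node (.col (nat_lit 0)) (.slot (nat_lit 1)) (.slot (nat_lit 1)))) (.col (nat_lit 1))) (.node (.node (.col (nat_lit 1)) (.slot (nat_lit 0)) (.slot (nat_lit 0))) (.node (.col (nat_lit 1)) (.slot (nat_lit 0)) (.slot (nat_lit 0))) (.col (nat_lit 1))) (.col (nat_lit 0)) (.col (nat_lit 2))
def w22024 : Root := .mk (.node .junk (.node (.slot (nat_lit 0)) (.slot (nat_lit 0)) (.slot (nat_lit 0))) (.col (nat_lit 0))) (.node (.node (.col (nat_lit 1)) (.slot (nat_lit 0)) (.node (.slot (nat_lit 0)) (.slot (nat_lit 0)) (.slot (nat_lit 0)))) (.node (.col (nat_lit 0)) (.col (nat_lit 1)) (.slot (nat_lit 1))) (.slot (nat_lit 1))) (.col (nat_lit 1)) (.col (nat_lit 2))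
def w22033 : Root := .mk (.node (.node (.node (.col (nat_lit 2)) .junk (.col (nat_lit 0))) (.col (nat_lit 3)) (.slot (nat_lit 1))) (.node (.col (nat_lit 1)) (.slot (nat_lit 0)) (.node (.slot (nat_lit 0)) (.slot (nat_lit 0)) (.slot (nat_lit 0)))) (.slot (nat_lit 1))) (.col (nat_lit 0)) (.col (nat_lit 1)) (.node (.col (nat_lit 0)) (.slot (nat_lit 0)) (.slot (nat_lit 0)))
def w22034 : Root := .mk (.node (.node (.node (.col (nat_lit 2)) .junk (.col (nat_lit 0))) (.col (nat_lit 3)) (.slot (nat_lit 1))) (.node (.col (nat_lit 1)) (.slot (nat_lit 0)) (.node (.slot (nat_lit 0)) (.slot (nat_lit 0)) (.slot (nat_lit 0)))) (.slot (nat_lit 1))) (.col (nat_lit 0)) (.col (nat_lit 1)) (.node (.col (nat_lit 1)) (.slot (nat_lit 0)) (.slot (nat_lit 0)))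
def w22036 : Root := .mk (.node (.node (.node (.col (nat_lit 2)) .junk (.col (nat_lit 0))) (.col (nat_lit 3)) (.slot (nat_lit 1))) (.node (.col (nat_lit 0)) (.col (nat_lit 1)) (.slot (nat_lit 3))) (.slot (nat_lit 1))) (.col (nat_lit 1)) (.slot (nat_lit 0)) (.slot (nat_lit 0))
def w22084 : Root := .mk (.node (.node (.node (.col (nat_lit 2)) (.slot (nat_lit 0)) (.slot (nat_lit 1))) (.col (nat_lit 1)) (.slot (nat_lit 3))) (.node (.col (nat_lit 0)) (.slot (nat_lit 0)) (.slot (nat_lit 0))) (.node (.col (nat_lit 1)) (.slot (nat_lit 4)) (.slot (nat_lit 4)))) (.col (nat_lit 1)) (.slot (nat_lit 0)) (.node (.slot (nat_lit 0)) (.slot (nat_lit 0)) (.slot (nat_lit 0)))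
def w22095 : Root := .mk (.node (.node (.col (nat_lit 2)) (.node .junk (.col (nat_lit 1)) (.slot (nat_lit 1))) (.col (nat_lit 3))) (.col (nat_lit 2)) (.slot (nat_lit 1))) (.node (.col (nat_lit 1)) (.node (.col (nat_lit 0)) (.slot (nat_lit 0)) (.slot (nat_lit 0))) (.node (.slot (nat_lit 0)) (.slot (nat_lit 0)) (.slot (nat_lit 0)))) (.col (nat_lit 2)) (.col (nat_lit 3))
def w22137 : Root := .mk (.node (.node (.slot (nat_lit 0)) (.col (nat_lit 2)) (.slot (nat_lit 0))) (.node (.slot (nat_lit 0)) (.col (nat_lit 0)) (.col (nat_lit 2))) (.slot (nat_lit 1))) (.col (nat_lit 1)) (.node (.col (nat_lit 0)) (.node (.col (nat_lit 0)) (.slot (nat_lit 0)) (.slot (nat_lit 0))) (.slot (nat_lit 1))) (.col (nat_lit 2))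
def w22139 : Root := .mk (.col (nat_lit 2)) (.col (nat_lit 0)) (.node (.node (.node (.col (nat_lit 1)) (.node (.col (nat_lit 0)) (.slot (nat_lit 1)) (.slot (nat_lit 1))) (.node (.slot (nat_lit 0)) (.slot (nat_lit 0)) (.slot (nat_lit 0)))) (.col (nat_lit 4)) (.slot (nat_lit 1))) (.col (nat_lit 2)) (.slot (nat_lit 1))) (.col (nat_lit 3))
def w22140 : Root := .mk (.node (.node (.slot (nat_lit 0)) (.col (nat_lit 2)) (.slot (nat_lit 0))) (.node (.col (nat_lit 1)) (.node (.col (nat_lit 0)) (.slot (nat_lit 0)) (.slot (nat_lit 0))) (.node (.slot (nat_lit 0)) (.slot (nat_lit 0)) (.slot (nat_lit 0)))) (.slot (nat_lit 3))) (.col (nat_lit 1)) (.col (nat_lit 0)) (.col (nat_lit 2))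
def w22142 : Root := .mk (.col (nat_lit 2)) (.col (nat_lit 4)) (.node (.node (.node (.col (nat_lit 1)) (.slot (nat_lit 0)) (.slot (nat_lit 0))) (.node (.node (.col (nat_lit 2)) (.slot (nat_lit 2)) (.slot (nat_lit 0))) (.col (nat_lit 0)) (.col (nat_lit 2))) (.slot (nat_lit 3))) (.col (nat_lit 2)) (.slot (nat_lit 1))) (.col (nat_lit 3))
def w22165 : Root := .mk (.col (nat_lit 2)) (.node (.slot (nat_lit 0)) (.slot (nat_lit 0)) (.slot (nat_lit 0))) (.node (.node (.col (nat_lit 3)) (.node (.node (.col (nat_lit 2)) (.slot (nat_lit 1)) (.slot (nat_lit 1))) (.col (nat_lit 3)) (.slot (nat_lit 2))) (.slot (nat_lit 2))) (.slot (nat_lit 8)) (.slot (nat_lit 2))) (.node (.col (nat_lit 1)) (.slot (nat_lit 7)) (.slot (nat_lit 5)))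
def w22192 : Root := .mk (.node (.slot (nat_lit 0)) (.slot (nat_lit 1)) (.slot (nat_lit 1))) (.node (.col (nat_lit 1)) (.node (.col (nat_lit 0)) (.slot (nat_lit 1)) (.slot (nat_lit 1))) (.slot (nat_lit 2))) (.node (.node (.col (nat_lit 2)) (.slot (nat_lit 21)) (.slot (nat_lit 1))) (.slot (nat_lit 20)) (.slot (nat_lit 12))) (.col (nat_lit 1))
def w22196 : Root := .mk (.node (.node (.node (.col (nat_lit 2)) (.node (.slot (nat_lit 0)) (.slot (nat_lit 0)) (.slot (nat_lit 0))) (.slot (nat_lit 1))) (.col (nat_lit 1)) (.slot (nat_lit 2))) (.node (.slot (nat_lit 0)) (.slot (nat_lit 1)) (.slot (nat_lit 0))) (.node (.col (nat_lit 0)) (.slot (nat_lit 0)) (.slot (nat_lit 0)))) (.col (nat_lit 1)) (.col (nat_lit 2)) (.slot (nat_lit 2))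
def w22204 : Root := .mk (.node (.node (.col (nat_lit 2)) (.col (nat_lit 0)) (.slot (nat_lit 0))) (.slot (nat_lit 2)) (.slot (nat_lit 2))) (.node (.col (nat_lit 1)) (.node (.col (nat_lit 0)) (.slot (nat_lit 0)) (.slot (nat_lit 0))) (.node (.slot (nat_lit 0)) (.slot (nat_lit 0)) (.slot (nat_lit 0)))) (.col (nat_lit 3)) (.col (nat_lit 4))
def w22205 : Root := .mk (.node (.node (.slot (nat_lit 0)) (.slot (nat_lit 0)) (.slot (nat_lit 0))) (.node (.slot (nat_lit 0)) (.col (nat_lit 0)) (.slot (nat_lit 0))) (.node (.col (nat_lit 2)) (.slot (nat_lit 0)) (.slot (nat_lit 0)))) (.col (nat_lit 1)) (.node (.col (nat_lit 0)) (.node (.col (nat_lit 0)) (.slot (nat_lit 0)) (.slot (nat_lit 0))) (.slot (nat_lit 1))) (.col (nat_lit 2))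
def w22221 : Root := .mk (.node (.node (.slot (nat_lit 0)) (.slot (nat_lit 1)) (.slot (nat_lit 0))) (.node (.col (nat_lit 1)) (.node (.col (nat_lit 0)) .junk (.col (nat_lit 3))) (.slot (nat_lit 1))) (.node (.col (nat_lit 2)) (.slot (nat_lit 0)) (.slot (nat_lit 0)))) (.col (nat_lit 4)) (.col (nat_lit 0)) (.slot (nat_lit 2))
def w22227 : Root := .mk (.node (.node (.slot (nat_lit 0)) (.slot (nat_lit 0)) (.slot (nat_lit 0))) (.node (.node (.col (nat_lit 2)) (.slot (nat_lit 1)) (.slot (nat_lit 1))) (.col (nat_lit 0)) (.slot (nat_lit 2))) (.node (.col (nat_lit 2)) (.slot (nat_lit 3)) (.slot (nat_lit 1)))) (.col (nat_lit 1)) (.slot (nat_lit 0)) (.col (nat_lit 2))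
def w22229 : Root := .mk (.node (.col (nat_lit 1)) (.node (.col (nat_lit 1)) (.col (nat_lit 0)) (.slot (nat_lit 1))) (.node (.col (nat_lit 2)) (.slot (nat_lit 1)) (.slot (nat_lit 1)))) (.col (nat_lit 1)) (.node (.col (nat_lit 0)) .junk (.slot (nat_lit 1))) (.col (nat_lit 2))
def w22230 : Root := .mk (.node (.node (.slot (nat_lit 0)) (.slot (nat_lit 0)) (.slot (nat_lit 0))) (.node (.col (nat_lit 1)) (.col (nat_lit 0)) (.slot (nat_lit 3))) (.node (.col (nat_lit 2)) (.slot (nat_lit 0)) (.slot (nat_lit 0)))) (.col (nat_lit 1)) (.node (.col (nat_lit 0)) .junk (.slot (nat_lit 1))) (.col (nat_lit 2))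
def l4912 : Root := .mk (.node (.col (nat_lit 3)) (.node (.col (nat_lit 1)) (.node (.col (nat_lit 0)) (.col (nat_lit 3)) (.slot (nat_lit 3))) (.node (.slot (nat_lit 0)) (.slot (nat_lit 1)) (.slot (nat_lit 1)))) (.node (.col (nat_lit 2)) (.slot (nat_lit 1)) (.slot (nat_lit 1)))) (.node (.col (nat_lit 2)) (.slot (nat_lit 0)) (.slot (nat_lit 0))) (.col (nat_lit 2)) (.col (nat_lit 3))
def w22245 : Root := .mk (.node (.slot (nat_lit 0)) (.slot (nat_lit 7)) (.slot (nat_lit 5))) (.node (.col (nat_lit 1)) (.node (.col (nat_lit 0)) (.slot (nat_lit 8)) (.slot (nat_lit 8))) (.slot (nat_lit 8))) (.node (.col (nat_lit 0)) (.slot (nat_lit 8)) (.slot (nat_lit 8))) (.node (.col (nat_lit 2)) (.slot (nat_lit 9)) (.slot (nat_lit 8)))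
def w22246 : Root := .mk (.col (nat_lit 1)) (.node (.col (nat_lit 1)) (.node (.col (nat_lit 0)) (.slot (nat_lit 1)) (.slot (nat_lit 1))) (.slot (nat_lit 2))) (.node (.node (.col (nat_lit 2)) (.slot (nat_lit 0)) (.slot (nat_lit 0))) (.node (.col (nat_lit 0)) (.slot (nat_lit 0)) (.slot (nat_lit 0))) (.slot (nat_lit 2))) (.node (.col (nat_lit 2)) (.slot (nat_lit 1)) (.slot (nat_lit 1)))
def w22263 : Root := .mk (.node (.node (.col (nat_lit 2)) (.node (.slot (nat_lit 0)) (.slot (nat_lit 0)) (.slot (nat_lit 0))) (.slot (nat_lit 1))) (.col (nat_lit 1)) (.slot (nat_lit 2))) (.node (.col (nat_lit 1)) (.node (.col (nat_lit 0)) (.slot (nat_lit 7)) (.slot (nat_lit 5))) (.slot (nat_lit 8))) (.node (.slot (nat_lit 0)) (.slot (nat_lit 0)) (.slot (nat_lit 0))) (.slot (nat_lit 0))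
def w22268 : Root := .mk (.node (.node (.col (nat_lit 2)) (.node (.node (.col (nat_lit 2)) (.slot (nat_lit 1)) (.slot (nat_lit 1))) (.slot (nat_lit 2)) (.slot (nat_lit 1))) (.slot (nat_lit 1))) (.col (nat_lit 1)) (.col (nat_lit 3))) (.col (nat_lit 0)) (.col (nat_lit 1)) (.col (nat_lit 3))
def w22271 : Root := .mk (.node (.col (nat_lit 2)) (.node (.slot (nat_lit 0)) (.slot (nat_lit 0)) (.slot (nat_lit 0))) (.slot (nat_lit 1))) (.node (.node (.col (nat_lit 1)) (.slot (nat_lit 0)) (.col (nat_lit 3))) (.node (.slot (nat_lit 0)) (.slot (nat_lit 0)) (.slot (nat_lit 0))) (.node (.col (nat_lit 0)) (.slot (nat_lit 0)) (.slot (nat_lit 0)))) (.col (nat_lit 1)) (.col (nat_lit 3))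
def w22280 : Root := .mk (.node (.node (.node (.node (.col (nat_lit 2)) .junk (.col (nat_lit 4))) (.col (nat_lit 1)) (.slot (nat_lit 1))) (.slot (nat_lit 0)) (.slot (nat_lit 1))) (.col (nat_lit 1)) (.slot (nat_lit 8))) (.col (nat_lit 0)) (.col (nat_lit 1)) (.slot (nat_lit 5))
def l4924 : Root := .mk (.col (nat_lit 2)) (.col (nat_lit 1)) (.node (.node (.node (.col (nat_lit 1)) (.slot (nat_lit 0)) (.slot (nat_lit 2))) (.col (nat_lit 2)) (.slot (nat_lit 8))) (.col (nat_lit 1)) (.slot (nat_lit 5))) (.node (.col (nat_lit 3)) (.node (.slot (nat_lit 0)) (.slot (nat_lit 0)) (.slot (nat_lit 0))) (.slot (nat_lit 3)))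
def w22289 : Root := .mk (.col (nat_lit 2)) (.col (nat_lit 1)) (.node (.node (.node (.col (nat_lit 1)) (.slot (nat_lit 0)) (.slot (nat_lit 2))) (.node (.slot (nat_lit 0)) (.slot (nat_lit 0)) (.slot (nat_lit 0))) (.slot (nat_lit 8))) (.col (nat_lit 1)) (.slot (nat_lit 5))) (.node (.col (nat_lit 3)) (.node (.slot (nat_lit 0)) (.slot (nat_lit 0)) (.slot (nat_lit 0))) (.slot (nat_lit 3)))
def w22300 : Root := .mk (.node (.node (.slot (nat_lit 0)) (.node (.col (nat_lit 1)) (.node (.col (nat_lit 0)) (.col (nat_lit 1)) (.slot (nat_lit 5))) (.slot (nat_lit 8))) (.slot (nat_lit 1))) (.slot (nat_lit 1)) (.slot (nat_lit 1))) (.col (nat_lit 2)) (.col (nat_lit 1)) (.slot (nat_lit 2))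
def l4929 : Root := .mk (.node (.col (nat_lit 2)) (.node (.slot (nat_lit 0)) (.slot (nat_lit 1)) (.slot (nat_lit 0))) (.col (nat_lit 1))) (.node (.col (nat_lit 2)) (.node (.node (.col (nat_lit 2)) (.slot (nat_lit 1)) (.slot (nat_lit 1))) (.slot (nat_lit 3)) (.slot (nat_lit 3))) (.slot (nat_lit 2))) (.col (nat_lit 1)) (.col (nat_lit 0))
def w22315 : Root := .mk (.col (nat_lit 2)) (.node (.slot (nat_lit 0)) (.col (nat_lit 1)) (.slot (nat_lit 0))) (.node (.node (.node (.col (nat_lit 1)) (.slot (nat_lit 0)) (.slot (nat_lit 1))) (.col (nat_lit 0)) (.node (.col (nat_lit 3)) (.slot (nat_lit 0)) (.slot (nat_lit 0)))) (.col (nat_lit 1)) (.node (.col (nat_lit 2)) (.slot (nat_lit 1)) (.slot (nat_lit 0)))) (.col (nat_lit 1))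
def w22317 : Root := .mk (.node (.node (.slot (nat_lit 0)) (.col (nat_lit 1)) (.node (.col (nat_lit 2)) (.slot (nat_lit 0)) (.slot (nat_lit 0)))) (.col (nat_lit 0)) (.slot (nat_lit 1))) (.col (nat_lit 1)) (.node (.col (nat_lit 0)) (.col (nat_lit 1)) (.slot (nat_lit 5))) (.node (.col (nat_lit 2)) (.slot (nat_lit 0)) (.slot (nat_lit 0)))
def w22318 : Root := .mk (.node (.node (.slot (nat_lit 0)) (.col (nat_lit 1)) (.node (.col (nat_lit 2)) (.slot (nat_lit 0)) (.slot (nat_lit 0)))) (.col (nat_lit 0)) (.slot (nat_lit 1))) (.col (nat_lit 1)) (.node (.col (nat_lit 0)) (.col (nat_lit 1)) (.slot (nat_lit 5))) (.node (.col (nat_lit 3)) (.slot (nat_lit 0)) (.slot (nat_lit 0)))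
def w22320 : Root := .mk (.col (nat_lit 2)) (.slot (nat_lit 0)) (.node (.node (.node (.col (nat_lit 1)) (.node (.col (nat_lit 0)) (.col (nat_lit 1)) (.slot (nat_lit 0))) (.slot (nat_lit 4))) (.col (nat_lit 0)) (.node (.col (nat_lit 0)) (.slot (nat_lit 0)) (.slot (nat_lit 0)))) (.col (nat_lit 1)) (.node (.col (nat_lit 2)) (.slot (nat_lit 1)) (.slot (nat_lit 0)))) (.col (nat_lit 1))
def w22321 : Root := .mk (.col (nat_lit 2)) (.node (.slot (nat_lit 0)) (.col (nat_lit 2)) (.slot (nat_lit 0))) (.node (.node (.node (.col (nat_lit 1)) (.slot (nat_lit 0)) (.slot (nat_lit 1))) (.col (nat_lit 0)) (.node (.col (nat_lit 2)) (.slot (nat_lit 1)) (.slot (nat_lit 1)))) (.col (nat_lit 1)) (.node (.col (nat_lit 2)) (.slot (nat_lit 1)) (.slot (nat_lit 1)))) (.col (nat_lit 1))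
def w22322 : Root := .mk (.col (nat_lit 2)) (.slot (nat_lit 0)) (.node (.node (.node (.col (nat_lit 1)) (.node (.col (nat_lit 0)) (.col (nat_lit 1)) (.slot (nat_lit 0))) (.slot (nat_lit 4))) (.col (nat_lit 0)) (.node (.col (nat_lit 3)) (.slot (nat_lit 0)) (.slot (nat_lit 0)))) (.col (nat_lit 1)) (.node (.col (nat_lit 2)) (.slot (nat_lit 1)) (.slot (nat_lit 0)))) (.col (nat_lit 1))
def l4936 : Root := .mk (.node (.node (.col (nat_lit 2)) (.node (.slot (nat_lit 0)) (.col (nat_lit 2)) (.slot (nat_lit 0))) (.col (nat_lit 1))) (.col (nat_lit 1)) (.node (.col (nat_lit 2)) (.slot (nat_lit 1)) (.slot (nat_lit 1)))) (.node (.col (nat_lit 1)) (.node (.col (nat_lit 0)) (.col (nat_lit 1)) (.slot (nat_lit 0))) (.col (nat_lit 0))) (.col (nat_lit 0)) (.col (nat_lit 2))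
def w22323 : Root := .mk (.node (.node (.node (.col (nat_lit 2)) (.node (.slot (nat_lit 0)) (.col (nat_lit 2)) (.slot (nat_lit 0))) (.col (nat_lit 1))) (.col (nat_lit 1)) (.node (.col (nat_lit 2)) (.slot (nat_lit 1)) (.slot (nat_lit 1)))) (.col (nat_lit 0)) (.slot (nat_lit 1))) (.col (nat_lit 1)) (.node (.col (nat_lit 0)) (.col (nat_lit 1)) (.slot (nat_lit 0))) (.col (nat_lit 0))
def l4937 : Root := .mk (.col (nat_lit 2)) (.node (.slot (nat_lit 0)) (.col (nat_lit 2)) (.slot (nat_lit 0))) (.node (.node (.node (.col (nat_lit 1)) (.node (.col (nat_lit 0)) (.col (nat_lit 1)) (.slot (nat_lit 5))) (.slot (nat_lit 10))) (.col (nat_lit 0)) (.slot (nat_lit 3))) (.col (nat_lit 1)) (.node (.col (nat_lit 2)) (.slot (nat_lit 1)) (.slot (nat_lit 1)))) (.col (nat_lit 1))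
def w22335 : Root := .mk (.col (nat_lit 2)) (.node (.slot (nat_lit 0)) (.slot (nat_lit 1)) (.slot (nat_lit 0))) (.node (.node (.node (.col (nat_lit 1)) (.node (.col (nat_lit 0)) (.col (nat_lit 1)) (.slot (nat_lit 5))) (.slot (nat_lit 8))) (.slot (nat_lit 0)) (.slot (nat_lit 1))) (.col (nat_lit 1)) (.slot (nat_lit 2))) (.node (.col (nat_lit 2)) (.slot (nat_lit 0)) (.slot (nat_lit 0)))
def w22337 : Root := .mk (.node (.node (.col (nat_lit 2)) (.node (.slot (nat_lit 0)) (.slot (nat_lit 0)) (.slot (nat_lit 0))) (.slot (nat_lit 0))) (.col (nat_lit 1)) (.slot (nat_lit 1))) (.node (.col (nat_lit 1)) (.node (.col (nat_lit 0)) (.col (nat_lit 1)) (.slot (nat_lit 0))) (.slot (nat_lit 1))) (.node (.slot (nat_lit 0)) (.col (nat_lit 3)) (.slot (nat_lit 0))) (.col (nat_lit 3))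
def w22338 : Root := .mk (.node (.node (.col (nat_lit 2)) (.node (.slot (nat_lit 0)) (.slot (nat_lit 0)) (.slot (nat_lit 0))) (.slot (nat_lit 0))) (.col (nat_lit 1)) (.slot (nat_lit 1))) (.node (.col (nat_lit 1)) (.node (.col (nat_lit 0)) (.col (nat_lit 1)) (.slot (nat_lit 0))) (.slot (nat_lit 1))) (.node (.slot (nat_lit 0)) (.col (nat_lit 3)) (.slot (nat_lit 0))) (.col (nat_lit 4))
def w22343 : Root := .mk (.node (.node (.slot (nat_lit 0)) (.col (nat_lit 1)) (.slot (nat_lit 0))) (.node (.node (.col (nat_lit 2)) (.slot (nat_lit 7)) (.slot (nat_lit 5))) (.col (nat_lit 3)) (.slot (nat_lit 8))) (.slot (nat_lit 0))) (.col (nat_lit 1)) (.node (.col (nat_lit 0)) (.col (nat_lit 1)) (.slot (nat_lit 1))) (.node (.col (nat_lit 4)) (.slot (nat_lit 1)) (.slot (nat_lit 1)))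
def w22351 : Root := .mk (.node (.node (.node (.node (.col (nat_lit 2)) (.node (.slot (nat_lit 0)) (.col (nat_lit 0)) (.slot (nat_lit 1))) (.slot (nat_lit 1))) (.col (nat_lit 1)) (.slot (nat_lit 1))) (.node (.slot (nat_lit 0)) (.slot (nat_lit 0)) (.slot (nat_lit 0))) (.slot (nat_lit 0))) (.col (nat_lit 1)) (.slot (nat_lit 8))) (.col (nat_lit 0)) (.col (nat_lit 1)) (.slot (nat_lit 5))
def w22356 : Root := .mk (.col (nat_lit 2)) (.node (.slot (nat_lit 0)) (.col (nat_lit 0)) (.slot (nat_lit 0))) (.node (.node (.node (.col (nat_lit 1)) (.slot (nat_lit 0)) (.slot (nat_lit 1))) (.node (.node (.col (nat_lit 2)) (.col (nat_lit 0)) (.slot (nat_lit 2))) (.slot (nat_lit 1)) (.slot (nat_lit 1))) (.slot (nat_lit 1))) (.col (nat_lit 1)) (.slot (nat_lit 1))) (.col (nat_lit 0))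
def w22368 : Root := .mk (.node (.col (nat_lit 2)) (.node (.slot (nat_lit 0)) (.slot (nat_lit 0)) (.slot (nat_lit 0))) (.slot (nat_lit 1))) (.node (.node (.col (nat_lit 1)) (.slot (nat_lit 0)) (.node (.col (nat_lit 2)) (.slot (nat_lit 0)) (.slot (nat_lit 0)))) (.node (.slot (nat_lit 0)) (.slot (nat_lit 0)) (.slot (nat_lit 0))) (.col (nat_lit 3))) (.col (nat_lit 1)) (.col (nat_lit 3))
def w22387 : Root := .mk (.node (.node (.node (.col (nat_lit 2)) (.node (.slot (nat_lit 0)) (.slot (nat_lit 0)) (.slot (nat_lit 0))) (.slot (nat_lit 1))) (.col (nat_lit 1)) (.slot (nat_lit 2))) (.node (.col (nat_lit 1)) (.node (.col (nat_lit 0)) (.slot (nat_lit 0)) (.slot (nat_lit 0))) (.slot (nat_lit 3))) (.col (nat_lit 1))) (.col (nat_lit 1)) (.col (nat_lit 3)) (.slot (nat_lit 3))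
def w22388 : Root := .mk (.node (.node (.col (nat_lit 2)) (.node (.slot (nat_lit 0)) (.slot (nat_lit 0)) (.slot (nat_lit 0))) (.slot (nat_lit 1))) (.col (nat_lit 1)) (.slot (nat_lit 2))) (.node (.col (nat_lit 1)) (.node (.col (nat_lit 0)) (.slot (nat_lit 0)) (.slot (nat_lit 1))) (.slot (nat_lit 5))) (.node (.slot (nat_lit 0)) (.col (nat_lit 3)) (.slot (nat_lit 1))) (.col (nat_lit 1))
def l4957 : Root := .mk (.col (nat_lit 1)) (.node (.node (.col (nat_lit 1)) (.node (.col (nat_lit 0)) (.slot (nat_lit 3)) (.slot (nat_lit 1))) (.col (nat_lit 0))) (.node (.node (.col (nat_lit 2)) (.slot (nat_lit 1)) (.slot (nat_lit 1))) (.slot (nat_lit 3)) (.slot (nat_lit 1))) (.slot (nat_lit 3))) (.col (nat_lit 2)) (.node (.col (nat_lit 3)) (.slot (nat_lit 20)) (.slot (nat_lit 9)))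
def w22403 : Root := .mk (.node (.node (.col (nat_lit 1)) (.col (nat_lit 2)) (.slot (nat_lit 21))) (.node (.node (.col (nat_lit 2)) (.slot (nat_lit 1)) (.slot (nat_lit 1))) (.slot (nat_lit 3)) (.slot (nat_lit 1))) (.slot (nat_lit 3))) (.col (nat_lit 1)) (.node (.col (nat_lit 0)) (.slot (nat_lit 3)) (.slot (nat_lit 1))) (.col (nat_lit 0))
def l4962 : Root := .mk (.node (.node (.col (nat_lit 1)) (.col (nat_lit 2)) (.slot (nat_lit 5))) (.col (nat_lit 1)) (.node (.col (nat_lit 2)) (.slot (nat_lit 7)) (.slot (nat_lit 5)))) (.col (nat_lit 2)) (.node (.node (.col (nat_lit 2)) (.slot (nat_lit 0)) (.slot (nat_lit 0))) (.col (nat_lit 2)) (.slot (nat_lit 2))) (.col (nat_lit 1))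
def w22414 : Root := .mk (.node (.node (.col (nat_lit 1)) (.col (nat_lit 2)) (.slot (nat_lit 5))) (.col (nat_lit 1)) (.slot (nat_lit 8))) (.col (nat_lit 2)) (.node (.node (.col (nat_lit 2)) (.slot (nat_lit 0)) (.slot (nat_lit 0))) (.col (nat_lit 2)) (.slot (nat_lit 2))) (.col (nat_lit 1))
def l4963 : Root := .mk (.node (.node (.col (nat_lit 1)) (.col (nat_lit 2)) (.slot (nat_lit 21))) (.slot (nat_lit 20)) (.slot (nat_lit 12))) (.col (nat_lit 2)) (.node (.node (.col (nat_lit 2)) (.slot (nat_lit 0)) (.slot (nat_lit 0))) (.col (nat_lit 2)) (.slot (nat_lit 2))) (.col (nat_lit 1))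
def w22415 : Root := .mk (.node (.node (.col (nat_lit 1)) (.node (.col (nat_lit 1)) (.slot (nat_lit 0)) (.slot (nat_lit 0))) (.slot (nat_lit 21))) (.slot (nat_lit 20)) (.slot (nat_lit 12))) (.col (nat_lit 2)) (.node (.node (.col (nat_lit 2)) (.slot (nat_lit 0)) (.slot (nat_lit 0))) (.col (nat_lit 2)) (.slot (nat_lit 2))) (.col (nat_lit 1))
def l4964 : Root := .mk (.node (.node (.col (nat_lit 1)) (.node (.col (nat_lit 1)) (.slot (nat_lit 9)) (.slot (nat_lit 8))) (.slot (nat_lit 21))) (.slot (nat_lit 20)) (.slot (nat_lit 12))) (.col (nat_lit 2)) (.node (.node (.col (nat_lit 2)) (.slot (nat_lit 7)) (.slot (nat_lit 5))) (.slot (nat_lit 20)) (.slot (nat_lit 12))) (.col (nat_lit 1))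
def w22416 : Root := .mk (.node (.node (.col (nat_lit 1)) (.node (.col (nat_lit 1)) (.slot (nat_lit 9)) (.slot (nat_lit 8))) (.slot (nat_lit 21))) (.slot (nat_lit 20)) (.slot (nat_lit 12))) (.col (nat_lit 2)) (.node (.node (.col (nat_lit 2)) (.slot (nat_lit 7)) (.slot (nat_lit 5))) (.slot (nat_lit 20)) (.slot (nat_lit 12))) (.node (.col (nat_lit 2)) (.slot (nat_lit 0)) (.slot (nat_lit 0)))
def w22417 : Root := .mk (.node (.node (.col (nat_lit 1)) (.node (.col (nat_lit 1)) (.slot (nat_lit 9)) (.slot (nat_lit 8))) (.slot (nat_lit 21))) (.slot (nat_lit 20)) (.slot (nat_lit 12))) (.col (nat_lit 2)) (.node (.node (.col (nat_lit 2)) (.slot (nat_lit 7)) (.slot (nat_lit 5))) (.slot (nat_lit 20)) (.slot (nat_lit 12))) (.node (.slot (nat_lit 0)) (.slot (nat_lit 0)) (.slot (nat_lit 0)))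
def l4965 : Root := .mk (.col (nat_lit 1)) (.col (nat_lit 0)) (.node (.node (.col (nat_lit 2)) (.node (.node (.col (nat_lit 2)) (.slot (nat_lit 7)) (.slot (nat_lit 5))) (.slot (nat_lit 8)) (.slot (nat_lit 1))) (.slot (nat_lit 3))) (.node (.col (nat_lit 0)) (.slot (nat_lit 7)) (.slot (nat_lit 5))) (.col (nat_lit 2))) (.node (.slot (nat_lit 0)) (.slot (nat_lit 1)) (.slot (nat_lit 1)))
def w22418 : Root := .mk (.col (nat_lit 1)) (.col (nat_lit 0)) (.node (.node (.col (nat_lit 2)) (.node (.node (.col (nat_lit 2)) (.slot (nat_lit 7)) (.slot (nat_lit 5))) (.slot (nat_lit 8)) (.slot (nat_lit 1))) (.slot (nat_lit 3))) (.node (.col (nat_lit 0)) (.slot (nat_lit 7)) (.slot (nat_lit 5))) (.slot (nat_lit 1))) (.node (.slot (nat_lit 0)) (.slot (nat_lit 1)) (.slot (nat_lit 1)))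
def w22419 : Root := .mk (.node (.col (nat_lit 1)) (.col (nat_lit 0)) (.slot (nat_lit 0))) (.node (.col (nat_lit 2)) (.node (.node (.col (nat_lit 2)) (.slot (nat_lit 12)) (.slot (nat_lit 10))) (.slot (nat_lit 8)) (.slot (nat_lit 8))) (.slot (nat_lit 5))) (.node (.col (nat_lit 0)) (.slot (nat_lit 5)) (.slot (nat_lit 1))) (.col (nat_lit 0))
def l4966 : Root := .mk (.col (nat_lit 1)) (.col (nat_lit 0)) (.node (.node (.col (nat_lit 2)) (.node (.node (.col (nat_lit 2)) (.slot (nat_lit 12)) (.slot (nat_lit 10))) (.slot (nat_lit 8)) (.slot (nat_lit 8))) (.slot (nat_lit 8))) (.node (.col (nat_lit 0)) (.slot (nat_lit 8)) (.slot (nat_lit 8))) (.slot (nat_lit 8))) (.slot (nat_lit 6))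
def w22420 : Root := .mk (.col (nat_lit 1)) (.node (.col (nat_lit 1)) (.slot (nat_lit 0)) (.slot (nat_lit 0))) (.node (.node (.col (nat_lit 2)) (.node (.node (.col (nat_lit 2)) (.slot (nat_lit 12)) (.slot (nat_lit 10))) (.slot (nat_lit 8)) (.slot (nat_lit 8))) (.slot (nat_lit 8))) (.node (.col (nat_lit 0)) (.slot (nat_lit 8)) (.slot (nat_lit 8))) (.slot (nat_lit 8))) (.slot (nat_lit 6))
def w22421 : Root := .mk (.node (.col (nat_lit 1)) (.col (nat_lit 2)) (.slot (nat_lit 3))) (.node (.col (nat_lit 2)) (.node (.node (.col (nat_lit 2)) (.slot (nat_lit 3)) (.slot (nat_lit 1))) (.slot (nat_lit 1)) (.slot (nat_lit 1))) (.slot (nat_lit 3))) (.node (.col (nat_lit 2)) (.slot (nat_lit 3)) (.slot (nat_lit 1))) (.col (nat_lit 2))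
def l4967 : Root := .mk (.col (nat_lit 1)) (.col (nat_lit 2)) (.node (.node (.col (nat_lit 2)) (.node (.node (.col (nat_lit 2)) (.slot (nat_lit 3)) (.slot (nat_lit 1))) (.slot (nat_lit 1)) (.slot (nat_lit 1))) (.slot (nat_lit 3))) (.node (.col (nat_lit 2)) (.slot (nat_lit 7)) (.slot (nat_lit 5))) (.slot (nat_lit 8))) (.slot (nat_lit 5))
def w22422 : Root := .mk (.col (nat_lit 1)) (.node (.col (nat_lit 1)) (.slot (nat_lit 0)) (.slot (nat_lit 0))) (.node (.node (.col (nat_lit 2)) (.node (.node (.col (nat_lit 2)) (.slot (nat_lit 3)) (.slot (nat_lit 1))) (.slot (nat_lit 1)) (.slot (nat_lit 1))) (.slot (nat_lit 3))) (.node (.col (nat_lit 2)) (.slot (nat_lit 7)) (.slot (nat_lit 5))) (.slot (nat_lit 8))) (.slot (nat_lit 5))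
def w22423 : Root := .mk (.node (.col (nat_lit 1)) (.node (.node (.col (nat_lit 2)) (.node (.node (.col (nat_lit 2)) (.slot (nat_lit 12)) (.slot (nat_lit 10))) (.slot (nat_lit 7)) (.slot (nat_lit 5))) (.slot (nat_lit 8))) (.node (.slot (nat_lit 0)) (.slot (nat_lit 0)) (.slot (nat_lit 0))) (.slot (nat_lit 3))) (.slot (nat_lit 3))) (.col (nat_lit 1)) (.node (.col (nat_lit 2)) (.slot (nat_lit 3)) (.slot (nat_lit 1))) (.col (nat_lit 2))
def l4970 : Root := .mk (.node (.col (nat_lit 1)) (.node (.col (nat_lit 3)) (.node (.slot (nat_lit 0)) (.slot (nat_lit 1)) (.slot (nat_lit 1))) (.slot (nat_lit 3))) (.node (.col (nat_lit 3)) (.slot (nat_lit 7)) (.slot (nat_lit 5)))) (.col (nat_lit 1)) (.col (nat_lit 3)) (.node (.slot (nat_lit 0)) (.slot (nat_lit 1)) (.slot (nat_lit 1)))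
def w22427 : Root := .mk (.node (.col (nat_lit 1)) (.node (.col (nat_lit 3)) (.node (.slot (nat_lit 0)) (.slot (nat_lit 1)) (.slot (nat_lit 1))) (.slot (nat_lit 3))) (.slot (nat_lit 8))) (.col (nat_lit 1)) (.col (nat_lit 3)) (.node (.slot (nat_lit 0)) (.slot (nat_lit 1)) (.slot (nat_lit 1)))
def w22428 : Root := .mk (.node (.col (nat_lit 1)) (.node (.node (.col (nat_lit 2)) (.node (.node (.col (nat_lit 2)) (.slot (nat_lit 3)) (.slot (nat_lit 1))) (.slot (nat_lit 1)) (.slot (nat_lit 1))) (.slot (nat_lit 3))) (.node (.slot (nat_lit 0)) (.slot (nat_lit 1)) (.slot (nat_lit 1))) (.slot (nat_lit 3))) (.slot (nat_lit 8))) (.col (nat_lit 1)) (.col (nat_lit 3)) (.node (.slot (nat_lit 0)) (.slot (nat_lit 1)) (.slot (nat_lit 1)))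
def l4971 : Root := .mk (.node (.node (.col (nat_lit 1)) (.node (.node (.col (nat_lit 2)) (.node (.node (.col (nat_lit 2)) (.slot (nat_lit 3)) (.slot (nat_lit 1))) (.slot (nat_lit 1)) (.slot (nat_lit 1))) (.slot (nat_lit 3))) (.node (.slot (nat_lit 0)) (.slot (nat_lit 1)) (.slot (nat_lit 1))) (.slot (nat_lit 3))) (.slot (nat_lit 8))) (.col (nat_lit 1)) (.node (.slot (nat_lit 0)) (.slot (nat_lit 1)) (.slot (nat_lit 1)))) (.col (nat_lit 2)) (.col (nat_lit 0)) (.slot (nat_lit 3))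
def w22429 : Root := .mk (.node (.col (nat_lit 1)) (.node (.node (.col (nat_lit 2)) (.node (.node (.col (nat_lit 2)) (.slot (nat_lit 3)) (.slot (nat_lit 1))) (.slot (nat_lit 1)) (.slot (nat_lit 1))) (.slot (nat_lit 3))) (.node (.slot (nat_lit 0)) (.slot (nat_lit 1)) (.slot (nat_lit 1))) (.slot (nat_lit 3))) (.slot (nat_lit 8))) (.col (nat_lit 1)) (.node (.col (nat_lit 2)) (.slot (nat_lit 1)) (.slot (nat_lit 3))) (.node (.slot (nat_lit 0)) (.slot (nat_lit 1)) (.slot (nat_lit 1)))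
def w22430 : Root := .mk (.node (.col (nat_lit 1)) (.node (.col (nat_lit 1)) (.node (.col (nat_lit 2)) (.slot (nat_lit 1)) (.slot (nat_lit 1))) (.slot (nat_lit 2))) (.node (.col (nat_lit 0)) (.node (.slot (nat_lit 0)) (.slot (nat_lit 0)) (.slot (nat_lit 0))) (.slot (nat_lit 1)))) (.col (nat_lit 1)) (.node (.col (nat_lit 3)) (.slot (nat_lit 0)) (.slot (nat_lit 0))) (.col (nat_lit 3))
def l4972 : Root := .mk (.col (nat_lit 1)) (.node (.col (nat_lit 1)) (.node (.col (nat_lit 2)) (.slot (nat_lit 20)) (.slot (nat_lit 12))) (.slot (nat_lit 21))) (.node (.col (nat_lit 0)) (.node (.slot (nat_lit 0)) (.slot (nat_lit 0)) (.slot (nat_lit 0))) (.slot (nat_lit 1))) (.node (.col (nat_lit 1)) (.node (.col (nat_lit 3)) (.slot (nat_lit 20)) (.slot (nat_lit 12))) (.slot (nat_lit 21)))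
def w22431 : Root := .mk (.col (nat_lit 1)) (.node (.col (nat_lit 1)) (.node (.col (nat_lit 2)) (.slot (nat_lit 20)) (.slot (nat_lit 12))) (.slot (nat_lit 21))) (.node (.col (nat_lit 0)) (.node (.slot (nat_lit 0)) (.slot (nat_lit 0)) (.slot (nat_lit 0))) (.slot (nat_lit 1))) (.node (.col (nat_lit 1)) (.slot (nat_lit 21)) (.slot (nat_lit 21)))
def w22432 : Root := .mk (.col (nat_lit 1)) (.node (.col (nat_lit 1)) (.node (.col (nat_lit 2)) (.slot (nat_lit 20)) (.slot (nat_lit 12))) (.slot (nat_lit 21))) (.node (.node (.col (nat_lit 2)) (.node (.node (.col (nat_lit 2)) (.slot (nat_lit 3)) (.slot (nat_lit 1))) (.slot (nat_lit 1)) (.slot (nat_lit 1))) (.slot (nat_lit 3))) (.node (.slot (nat_lit 0)) (.slot (nat_lit 0)) (.slot (nat_lit 0))) (.slot (nat_lit 1))) (.node (.col (nat_lit 1)) (.slot (nat_lit 21)) (.slot (nat_lit 21)))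
def w22433 : Root := .mk (.col (nat_lit 1)) (.node (.col (nat_lit 1)) (.node (.col (nat_lit 2)) (.slot (nat_lit 1)) (.slot (nat_lit 1))) (.slot (nat_lit 2))) (.node (.slot (nat_lit 0)) (.slot (nat_lit 0)) (.slot (nat_lit 0))) (.node (.col (nat_lit 2)) (.slot (nat_lit 20)) (.slot (nat_lit 9)))
def w22435 : Root := .mk (.node (.col (nat_lit 1)) (.node (.col (nat_lit 1)) (.node (.col (nat_lit 2)) (.slot (nat_lit 1)) (.slot (nat_lit 1))) (.slot (nat_lit 2))) (.slot (nat_lit 2))) (.node (.col (nat_lit 2)) (.node (.node (.col (nat_lit 2)) (.slot (nat_lit 3)) (.slot (nat_lit 1))) (.slot (nat_lit 1)) (.slot (nat_lit 1))) (.slot (nat_lit 3))) (.node (.slot (nat_lit 0)) (.slot (nat_lit 1)) (.slot (nat_lit 0))) (.node (.col (nat_lit 0)) (.slot (nat_lit 0)) (.slot (nat_lit 0)))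
def w22436 : Root := .mk (.node (.col (nat_lit 1)) (.node (.col (nat_lit 1)) (.slot (nat_lit 0)) (.slot (nat_lit 0))) (.slot (nat_lit 2))) (.node (.col (nat_lit 2)) (.node (.node (.col (nat_lit 2)) (.slot (nat_lit 3)) (.slot (nat_lit 1))) (.slot (nat_lit 1)) (.slot (nat_lit 1))) (.slot (nat_lit 3))) (.node (.slot (nat_lit 0)) (.slot (nat_lit 0)) (.slot (nat_lit 0))) (.node (.col (nat_lit 1)) (.slot (nat_lit 1)) (.slot (nat_lit 1)))
def w22443 : Root := .mk (.node (.node (.col (nat_lit 1)) (.node (.col (nat_lit 1)) (.node (.col (nat_lit 2)) (.slot (nat_lit 1)) (.slot (nat_lit 1))) (.slot (nat_lit 2))) (.slot (nat_lit 1))) (.col (nat_lit 4)) (.slot (nat_lit 1))) (.slot (nat_lit 0)) (.col (nat_lit 2)) (.col (nat_lit 3))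
def l4983 : Root := .mk (.col (nat_lit 1)) (.node .junk (.col (nat_lit 4)) (.col (nat_lit 3))) (.node (.node (.col (nat_lit 2)) (.col (nat_lit 0)) (.node (.col (nat_lit 1)) (.col (nat_lit 0)) (.slot (nat_lit 1)))) (.node (.slot (nat_lit 0)) (.col (nat_lit 2)) (.slot (nat_lit 0))) (.slot (nat_lit 1))) (.col (nat_lit 0))
def w22453 : Root := .mk (.node (.node (.col (nat_lit 1)) (.node .junk (.col (nat_lit 4)) (.col (nat_lit 3))) (.slot (nat_lit 1))) (.node (.slot (nat_lit 0)) (.col (nat_lit 2)) (.slot (nat_lit 0))) (.slot (nat_lit 1))) (.col (nat_lit 2)) (.col (nat_lit 0)) (.node (.col (nat_lit 1)) (.col (nat_lit 0)) (.slot (nat_lit 1)))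
def l4991 : Root := .mk (.node (.col (nat_lit 1)) (.node (.col (nat_lit 1)) (.node (.col (nat_lit 2)) (.slot (nat_lit 8)) (.slot (nat_lit 8))) (.node (.col (nat_lit 2)) (.slot (nat_lit 8)) (.slot (nat_lit 8)))) (.slot (nat_lit 5))) (.col (nat_lit 3)) (.node (.slot (nat_lit 0)) (.col (nat_lit 2)) (.slot (nat_lit 0))) (.col (nat_lit 1))
def w22462 : Root := .mk (.node (.col (nat_lit 1)) (.node (.col (nat_lit 1)) (.node (.col (nat_lit 2)) (.slot (nat_lit 8)) (.slot (nat_lit 8))) (.slot (nat_lit 9))) (.slot (nat_lit 5))) (.col (nat_lit 3)) (.node (.slot (nat_lit 0)) (.col (nat_lit 2)) (.slot (nat_lit 0))) (.col (nat_lit 1))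
def w22463 : Root := .mk (.col (nat_lit 1)) (.col (nat_lit 2)) (.node (.node (.col (nat_lit 2)) (.col (nat_lit 0)) (.slot (nat_lit 1))) (.node (.slot (nat_lit 0)) (.col (nat_lit 2)) (.slot (nat_lit 0))) (.col (nat_lit 1))) (.slot (nat_lit 1))
def l4992 : Root := .mk (.node (.node .junk (.col (nat_lit 3)) (.slot (nat_lit 1))) (.node (.slot (nat_lit 0)) (.col (nat_lit 2)) (.slot (nat_lit 0))) (.col (nat_lit 1))) (.col (nat_lit 2)) (.col (nat_lit 0)) (.node (.col (nat_lit 1)) (.slot (nat_lit 20)) (.slot (nat_lit 9)))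
def w22464 : Root := .mk (.node .junk (.col (nat_lit 3)) (.slot (nat_lit 1))) (.node (.col (nat_lit 2)) (.col (nat_lit 0)) (.slot (nat_lit 21))) (.node (.slot (nat_lit 0)) (.col (nat_lit 2)) (.slot (nat_lit 0))) (.col (nat_lit 1))
def l4997 : Root := .mk (.node (.node (.col (nat_lit 1)) (.node (.col (nat_lit 1)) (.node (.col (nat_lit 2)) (.slot (nat_lit 1)) (.slot (nat_lit 1))) (.slot (nat_lit 2))) (.slot (nat_lit 1))) (.node (.slot (nat_lit 0)) (.col (nat_lit 2)) (.slot (nat_lit 0))) (.col (nat_lit 3))) (.col (nat_lit 2)) (.col (nat_lit 0)) (.col (nat_lit 1))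
def w22471 : Root := .mk (.node (.node (.col (nat_lit 1)) (.node (.col (nat_lit 1)) (.node (.col (nat_lit 2)) (.slot (nat_lit 1)) (.slot (nat_lit 1))) (.slot (nat_lit 2))) (.slot (nat_lit 1))) (.node (.slot (nat_lit 0)) (.col (nat_lit 2)) (.slot (nat_lit 0))) (.col (nat_lit 3))) (.col (nat_lit 2)) (.col (nat_lit 0)) (.node (.slot (nat_lit 0)) (.slot (nat_lit 0)) (.slot (nat_lit 0)))
def l4999 : Root := .mk (.node (.col (nat_lit 1)) (.col (nat_lit 2)) (.slot (nat_lit 2))) (.node (.col (nat_lit 2)) (.col (nat_lit 0)) (.slot (nat_lit 2))) (.node (.slot (nat_lit 0)) (.col (nat_lit 2)) (.slot (nat_lit 1))) (.col (nat_lit 3))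
def w22476 : Root := .mk (.col (nat_lit 1)) (.col (nat_lit 2)) (.node (.node (.col (nat_lit 2)) (.col (nat_lit 0)) (.slot (nat_lit 2))) (.node (.slot (nat_lit 0)) (.col (nat_lit 2)) (.slot (nat_lit 1))) (.slot (nat_lit 1))) (.slot (nat_lit 2))
def w22478 : Root := .mk (.col (nat_lit 1)) (.node .junk (.col (nat_lit 0)) (.slot (nat_lit 1))) (.node (.node (.col (nat_lit 2)) (.col (nat_lit 0)) (.slot (nat_lit 1))) (.node (.slot (nat_lit 0)) (.col (nat_lit 2)) (.slot (nat_lit 1))) (.slot (nat_lit 1))) (.col (nat_lit 3))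
def l5000 : Root := .mk (.node (.col (nat_lit 1)) (.node (.node (.col (nat_lit 2)) (.col (nat_lit 0)) (.slot (nat_lit 1))) (.node (.slot (nat_lit 0)) (.col (nat_lit 2)) (.slot (nat_lit 1))) (.slot (nat_lit 1))) (.col (nat_lit 3))) (.col (nat_lit 1)) (.col (nat_lit 4)) (.node (.col (nat_lit 3)) (.slot (nat_lit 2)) (.slot (nat_lit 2)))
def w22479 : Root := .mk (.col (nat_lit 1)) (.node (.col (nat_lit 1)) (.col (nat_lit 4)) (.slot (nat_lit 3))) (.node (.node (.col (nat_lit 2)) (.col (nat_lit 0)) (.slot (nat_lit 1))) (.node (.slot (nat_lit 0)) (.col (nat_lit 2)) (.slot (nat_lit 1))) (.slot (nat_lit 1))) (.col (nat_lit 3))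
def l5001 : Root := .mk (.node (.col (nat_lit 1)) (.node (.node (.col (nat_lit 2)) (.col (nat_lit 0)) (.slot (nat_lit 2))) (.node (.slot (nat_lit 0)) (.col (nat_lit 2)) (.slot (nat_lit 1))) (.slot (nat_lit 8))) (.col (nat_lit 3))) (.col (nat_lit 1)) (.node (.col (nat_lit 2)) (.col (nat_lit 3)) .junk) (.col (nat_lit 0))
def w22480 : Root := .mk (.col (nat_lit 1)) (.node (.col (nat_lit 1)) (.node (.col (nat_lit 2)) (.col (nat_lit 3)) .junk) (.slot (nat_lit 1))) (.node (.node (.col (nat_lit 2)) (.col (nat_lit 0)) (.slot (nat_lit 2))) (.node (.slot (nat_lit 0)) (.col (nat_lit 2)) (.slot (nat_lit 1))) (.slot (nat_lit 8))) (.col (nat_lit 3))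
def l5002 : Root := .mk (.col (nat_lit 1)) (.node (.col (nat_lit 1)) (.node (.col (nat_lit 2)) (.col (nat_lit 3)) (.slot (nat_lit 8))) (.slot (nat_lit 3))) (.node (.node (.col (nat_lit 2)) (.col (nat_lit 0)) (.slot (nat_lit 2))) (.node (.slot (nat_lit 0)) (.col (nat_lit 2)) (.slot (nat_lit 1))) (.slot (nat_lit 8))) (.col (nat_lit 3))
def w22481 : Root := .mk (.col (nat_lit 1)) (.node (.col (nat_lit 1)) (.node (.col (nat_lit 2)) (.slot (nat_lit 1)) (.slot (nat_lit 8))) (.slot (nat_lit 3))) (.node (.node (.col (nat_lit 2)) (.col (nat_lit 0)) (.slot (nat_lit 2))) (.node (.slot (nat_lit 0)) (.col (nat_lit 2)) (.slot (nat_lit 1))) (.slot (nat_lit 8))) (.col (nat_lit 3))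
def l5006 : Root := .mk (.col (nat_lit 1)) (.col (nat_lit 0)) (.node (.node (.col (nat_lit 2)) (.col (nat_lit 0)) .junk) (.node (.slot (nat_lit 0)) (.col (nat_lit 2)) (.slot (nat_lit 0))) (.col (nat_lit 3))) (.node .junk (.col (nat_lit 3)) (.col (nat_lit 4)))
def w22509 : Root := .mk (.col (nat_lit 1)) (.node (.col (nat_lit 1)) (.node (.col (nat_lit 2)) (.slot (nat_lit 1)) (.slot (nat_lit 1))) (.slot (nat_lit 2))) (.node (.col (nat_lit 1)) (.node (.slot (nat_lit 0)) (.col (nat_lit 2)) (.slot (nat_lit 0))) (.slot (nat_lit 3))) (.node (.col (nat_lit 1)) (.col (nat_lit 3)) (.slot (nat_lit 3)))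
def w22521 : Root := .mk (.node (.col (nat_lit 1)) (.node (.node (.col (nat_lit 2)) (.col (nat_lit 0)) (.slot (nat_lit 1))) (.node (.slot (nat_lit 0)) (.col (nat_lit 2)) (.slot (nat_lit 1))) (.slot (nat_lit 1))) (.node (.col (nat_lit 1)) (.col (nat_lit 3)) (.slot (nat_lit 3)))) (.col (nat_lit 1)) (.slot (nat_lit 0)) (.col (nat_lit 3))
def w22532 : Root := .mk (.col (nat_lit 1)) (.col (nat_lit 0)) (.node (.node (.col (nat_lit 2)) (.col (nat_lit 0)) (.node (.col (nat_lit 0)) (.slot (nat_lit 0)) (.slot (nat_lit 0)))) (.node (.slot (nat_lit 0)) (.col (nat_lit 2)) (.slot (nat_lit 1))) (.slot (nat_lit 1))) (.node .junk (.col (nat_lit 3)) (.slot (nat_lit 1)))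
def w22534 : Root := .mk (.col (nat_lit 1)) (.col (nat_lit 0)) (.node (.node (.col (nat_lit 2)) (.col (nat_lit 0)) (.node (.col (nat_lit 2)) (.slot (nat_lit 0)) (.slot (nat_lit 0)))) (.node (.slot (nat_lit 0)) (.col (nat_lit 2)) (.slot (nat_lit 1))) (.slot (nat_lit 1))) (.node .junk (.col (nat_lit 3)) (.slot (nat_lit 1)))
def w22536 : Root := .mk (.col (nat_lit 1)) (.col (nat_lit 0)) (.node (.node (.col (nat_lit 2)) (.col (nat_lit 0)) (.node (.slot (nat_lit 0)) (.slot (nat_lit 0)) (.slot (nat_lit 0)))) (.node (.slot (nat_lit 0)) (.col (nat_lit 2)) (.slot (nat_lit 1))) (.slot (nat_lit 1))) (.node .junk (.col (nat_lit 3)) (.slot (nat_lit 1)))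
def l5012 : Root := .mk (.col (nat_lit 1)) (.col (nat_lit 4)) (.node (.col (nat_lit 3)) (.node (.slot (nat_lit 0)) (.col (nat_lit 2)) (.col (nat_lit 1))) (.slot (nat_lit 1))) (.node (.col (nat_lit 1)) (.col (nat_lit 3)) (.slot (nat_lit 5)))
def l5013 : Root := .mk (.col (nat_lit 1)) (.col (nat_lit 4)) (.node (.col (nat_lit 3)) (.node (.slot (nat_lit 0)) (.col (nat_lit 2)) (.col (nat_lit 4))) (.slot (nat_lit 1))) (.node (.col (nat_lit 1)) (.col (nat_lit 3)) (.slot (nat_lit 5)))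
def w22548 : Root := .mk (.col (nat_lit 1)) (.node (.col (nat_lit 1)) (.node (.col (nat_lit 2)) (.slot (nat_lit 3)) (.slot (nat_lit 1))) (.slot (nat_lit 2))) (.node (.col (nat_lit 3)) (.node (.slot (nat_lit 0)) (.col (nat_lit 2)) (.slot (nat_lit 1))) (.col (nat_lit 1))) (.col (nat_lit 4))
def w22550 : Root := .mk (.node (.node (.col (nat_lit 1)) (.col (nat_lit 2)) (.node (.slot (nat_lit 0)) (.slot (nat_lit 0)) (.slot (nat_lit 0)))) (.node (.slot (nat_lit 0)) (.col (nat_lit 2)) (.slot (nat_lit 0))) (.node (.col (nat_lit 2)) (.slot (nat_lit 1)) (.slot (nat_lit 1)))) (.col (nat_lit 2)) (.col (nat_lit 0)) (.node (.col (nat_lit 0)) (.slot (nat_lit 0)) (.slot (nat_lit 0)))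
def w22551 : Root := .mk (.col (nat_lit 1)) (.col (nat_lit 2)) (.node (.node (.col (nat_lit 2)) (.col (nat_lit 0)) (.slot (nat_lit 2))) (.node (.slot (nat_lit 0)) (.col (nat_lit 2)) (.slot (nat_lit 0))) (.node (.col (nat_lit 2)) (.col (nat_lit 3)) (.slot (nat_lit 2)))) (.slot (nat_lit 0))
def l5015 : Root := .mk (.col (nat_lit 1)) (.col (nat_lit 2)) (.node (.node (.col (nat_lit 2)) (.col (nat_lit 0)) (.slot (nat_lit 21))) (.col (nat_lit 3)) (.node (.col (nat_lit 2)) (.node (.col (nat_lit 0)) (.slot (nat_lit 1)) (.slot (nat_lit 1))) (.slot (nat_lit 2)))) (.node (.slot (nat_lit 0)) (.slot (nat_lit 0)) (.slot (nat_lit 0)))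
def w22552 : Root := .mk (.col (nat_lit 1)) (.col (nat_lit 2)) (.node (.node (.col (nat_lit 2)) (.col (nat_lit 0)) (.slot (nat_lit 21))) (.node (.slot (nat_lit 0)) (.col (nat_lit 2)) (.slot (nat_lit 0))) (.node (.col (nat_lit 2)) (.node (.col (nat_lit 0)) (.slot (nat_lit 1)) (.slot (nat_lit 1))) (.slot (nat_lit 2)))) (.node (.slot (nat_lit 0)) (.slot (nat_lit 0)) (.slot (nat_lit 0)))
def w22553 : Root := .mk (.col (nat_lit 1)) (.col (nat_lit 2)) (.node (.node (.col (nat_lit 2)) (.col (nat_lit 0)) (.slot (nat_lit 2))) (.node (.slot (nat_lit 0)) (.col (nat_lit 2)) (.slot (nat_lit 0))) (.node (.col (nat_lit 2)) (.node (.col (nat_lit 2)) (.slot (nat_lit 0)) (.slot (nat_lit 0))) (.slot (nat_lit 3)))) (.node (.slot (nat_lit 0)) (.slot (nat_lit 0)) (.slot (nat_lit 0)))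
def l5016 : Root := .mk (.col (nat_lit 1)) (.col (nat_lit 2)) (.node (.node (.col (nat_lit 2)) (.col (nat_lit 0)) (.slot (nat_lit 21))) (.node (.slot (nat_lit 0)) (.col (nat_lit 2)) (.slot (nat_lit 1))) (.node (.col (nat_lit 2)) (.slot (nat_lit 8)) (.slot (nat_lit 8)))) (.node (.slot (nat_lit 0)) (.slot (nat_lit 1)) (.slot (nat_lit 1)))
def w22554 : Root := .mk (.col (nat_lit 1)) (.col (nat_lit 2)) (.node (.node (.col (nat_lit 2)) (.col (nat_lit 0)) (.slot (nat_lit 21))) (.node (.slot (nat_lit 0)) (.col (nat_lit 2)) (.slot (nat_lit 1))) (.slot (nat_lit 9))) (.node (.slot (nat_lit 0)) (.slot (nat_lit 1)) (.slot (nat_lit 1)))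
def l5017 : Root := .mk (.node (.node (.col (nat_lit 1)) (.node (.node (.col (nat_lit 2)) (.col (nat_lit 0)) (.slot (nat_lit 21))) (.node (.slot (nat_lit 0)) (.col (nat_lit 2)) (.slot (nat_lit 1))) (.slot (nat_lit 9))) (.node (.slot (nat_lit 0)) (.slot (nat_lit 1)) (.slot (nat_lit 1)))) (.col (nat_lit 1)) (.col (nat_lit 0))) (.col (nat_lit 2)) (.col (nat_lit 0)) (.node (.col (nat_lit 1)) (.slot (nat_lit 2)) (.slot (nat_lit 2)))
def w22555 : Root := .mk (.node (.col (nat_lit 1)) (.node (.node (.col (nat_lit 2)) (.col (nat_lit 0)) (.slot (nat_lit 21))) (.node (.slot (nat_lit 0)) (.col (nat_lit 2)) (.slot (nat_lit 1))) (.slot (nat_lit 9))) (.node (.slot (nat_lit 0)) (.slot (nat_lit 1)) (.slot (nat_lit 1)))) (.col (nat_lit 1)) (.node (.col (nat_lit 2)) (.col (nat_lit 0)) (.slot (nat_lit 3))) (.col (nat_lit 0))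
def w22556 : Root := .mk (.node (.col (nat_lit 1)) (.node (.node (.col (nat_lit 2)) (.col (nat_lit 0)) (.slot (nat_lit 1))) (.node (.slot (nat_lit 0)) (.col (nat_lit 2)) (.slot (nat_lit 1))) (.slot (nat_lit 1))) (.node (.slot (nat_lit 0)) (.slot (nat_lit 0)) (.slot (nat_lit 0)))) (.col (nat_lit 1)) (.node (.col (nat_lit 2)) (.node (.col (nat_lit 2)) (.slot (nat_lit 0)) (.slot (nat_lit 0))) (.slot (nat_lit 1))) (.col (nat_lit 0))
def w22557 : Root := .mk (.node (.col (nat_lit 1)) (.node (.node (.col (nat_lit 2)) (.col (nat_lit 0)) (.slot (nat_lit 1))) (.node (.slot (nat_lit 0)) (.col (nat_lit 2)) (.slot (nat_lit 1))) (.slot (nat_lit 1))) (.node (.slot (nat_lit 0)) (.slot (nat_lit 0)) (.slot (nat_lit 0)))) (.col (nat_lit 1)) (.node (.col (nat_lit 2)) (.node (.slot (nat_lit 0)) (.slot (nat_lit 0)) (.slot (nat_lit 0))) (.slot (nat_lit 1))) (.col (nat_lit 0))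
def l5018 : Root := .mk (.node (.col (nat_lit 1)) (.node (.node (.col (nat_lit 2)) (.col (nat_lit 0)) (.slot (nat_lit 21))) (.node (.slot (nat_lit 0)) (.col (nat_lit 2)) (.slot (nat_lit 1))) (.slot (nat_lit 9))) (.node (.slot (nat_lit 0)) (.slot (nat_lit 1)) (.slot (nat_lit 1)))) (.col (nat_lit 1)) (.node (.col (nat_lit 2)) (.slot (nat_lit 20)) (.slot (nat_lit 9))) (.col (nat_lit 0))
def w22558 : Root := .mk (.col (nat_lit 1)) (.node (.col (nat_lit 1)) (.node (.col (nat_lit 2)) (.slot (nat_lit 20)) (.slot (nat_lit 9))) (.slot (nat_lit 1))) (.node (.node (.col (nat_lit 2)) (.col (nat_lit 0)) (.slot (nat_lit 21))) (.node (.slot (nat_lit 0)) (.col (nat_lit 2)) (.slot (nat_lit 1))) (.slot (nat_lit 9))) (.node (.slot (nat_lit 0)) (.slot (nat_lit 1)) (.slot (nat_lit 1)))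
def l5022 : Root := .mk (.node (.col (nat_lit 1)) (.node (.node (.col (nat_lit 2)) (.col (nat_lit 0)) (.node (.col (nat_lit 0)) (.slot (nat_lit 0)) (.slot (nat_lit 0)))) (.node (.slot (nat_lit 0)) (.col (nat_lit 2)) (.slot (nat_lit 1))) (.slot (nat_lit 1))) (.col (nat_lit 4))) (.col (nat_lit 1)) (.col (nat_lit 3)) (.node (.col (nat_lit 4)) (.slot (nat_lit 2)) (.slot (nat_lit 2)))
def w22566 : Root := .mk (.col (nat_lit 1)) (.node (.col (nat_lit 1)) (.col (nat_lit 3)) (.slot (nat_lit 3))) (.node (.node (.col (nat_lit 2)) (.col (nat_lit 0)) (.node (.col (nat_lit 0)) (.slot (nat_lit 0)) (.slot (nat_lit 0)))) (.node (.slot (nat_lit 0)) (.col (nat_lit 2)) (.slot (nat_lit 1))) (.slot (nat_lit 1))) (.col (nat_lit 4))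
def l5025 : Root := .mk (.node (.col (nat_lit 1)) (.node (.node (.col (nat_lit 2)) (.col (nat_lit 0)) (.node (.col (nat_lit 0)) (.slot (nat_lit 0)) (.slot (nat_lit 0)))) (.node (.slot (nat_lit 0)) (.col (nat_lit 2)) (.slot (nat_lit 1))) (.slot (nat_lit 1))) (.node (.col (nat_lit 3)) (.col (nat_lit 4)) .junk)) (.col (nat_lit 1)) (.col (nat_lit 4)) (.col (nat_lit 3))
def w22573 : Root := .mk (.node (.node (.col (nat_lit 1)) (.node (.col (nat_lit 1)) (.col (nat_lit 4)) (.slot (nat_lit 1))) (.node (.col (nat_lit 3)) (.col (nat_lit 4)) .junk)) (.node (.slot (nat_lit 0)) (.col (nat_lit 2)) (.slot (nat_lit 1))) (.slot (nat_lit 1))) (.col (nat_lit 2)) (.col (nat_lit 0)) (.node (.col (nat_lit 0)) (.slot (nat_lit 0)) (.slot (nat_lit 0)))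
def l5026 : Root := .mk (.node (.node (.col (nat_lit 1)) (.node (.col (nat_lit 1)) (.col (nat_lit 4)) (.slot (nat_lit 3))) (.node (.col (nat_lit 3)) (.col (nat_lit 4)) (.slot (nat_lit 3)))) (.node (.slot (nat_lit 0)) (.col (nat_lit 2)) (.slot (nat_lit 1))) (.slot (nat_lit 2))) (.col (nat_lit 2)) (.col (nat_lit 0)) (.node (.col (nat_lit 0)) (.slot (nat_lit 0)) (.slot (nat_lit 0)))
def w22574 : Root := .mk (.node (.node (.col (nat_lit 1)) (.node (.col (nat_lit 1)) (.col (nat_lit 4)) (.slot (nat_lit 3))) (.node (.col (nat_lit 3)) (.slot (nat_lit 1)) (.slot (nat_lit 3)))) (.node (.slot (nat_lit 0)) (.col (nat_lit 2)) (.slot (nat_lit 1))) (.slot (nat_lit 2))) (.col (nat_lit 2)) (.col (nat_lit 0)) (.node (.col (nat_lit 0)) (.slot (nat_lit 0)) (.slot (nat_lit 0)))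
def w22577 : Root := .mk (.col (nat_lit 1)) (.node (.col (nat_lit 1)) (.node (.col (nat_lit 2)) (.slot (nat_lit 1)) (.slot (nat_lit 1))) (.slot (nat_lit 2))) (.node (.col (nat_lit 1)) (.node (.slot (nat_lit 0)) (.col (nat_lit 2)) (.slot (nat_lit 0))) (.slot (nat_lit 2))) (.node (.col (nat_lit 3)) (.slot (nat_lit 7)) (.slot (nat_lit 5)))
def w22585 : Root := .mk (.node (.node (.col (nat_lit 1)) (.slot (nat_lit 0)) (.node (.col (nat_lit 3)) (.slot (nat_lit 1)) (.slot (nat_lit 6)))) (.node (.slot (nat_lit 0)) (.col (nat_lit 2)) (.slot (nat_lit 0))) (.slot (nat_lit 6))) (.col (nat_lit 2)) (.col (nat_lit 0)) (.col (nat_lit 1))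
def w22586 : Root := .mk (.col (nat_lit 1)) (.node (.col (nat_lit 1)) (.node (.col (nat_lit 2)) (.slot (nat_lit 1)) (.slot (nat_lit 1))) (.slot (nat_lit 2))) (.node (.slot (nat_lit 0)) (.slot (nat_lit 0)) (.slot (nat_lit 0))) (.node (.col (nat_lit 3)) (.slot (nat_lit 20)) (.slot (nat_lit 9)))
def l5030 : Root := .mk (.node (.col (nat_lit 1)) (.node (.node (.col (nat_lit 2)) (.col (nat_lit 0)) (.node (.col (nat_lit 2)) (.slot (nat_lit 0)) (.slot (nat_lit 0)))) (.node (.slot (nat_lit 0)) (.col (nat_lit 2)) (.slot (nat_lit 1))) (.slot (nat_lit 1))) (.col (nat_lit 4))) (.col (nat_lit 1)) (.col (nat_lit 3)) (.node (.col (nat_lit 4)) (.slot (nat_lit 2)) (.slot (nat_lit 2)))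
def w22592 : Root := .mk (.col (nat_lit 1)) (.node (.col (nat_lit 1)) (.col (nat_lit 3)) (.slot (nat_lit 3))) (.node (.node (.col (nat_lit 2)) (.col (nat_lit 0)) (.node (.col (nat_lit 2)) (.slot (nat_lit 0)) (.slot (nat_lit 0)))) (.node (.slot (nat_lit 0)) (.col (nat_lit 2)) (.slot (nat_lit 1))) (.slot (nat_lit 1))) (.col (nat_lit 4))
def w22596 : Root := .mk (.node (.node (.col (nat_lit 1)) (.node (.col (nat_lit 1)) (.col (nat_lit 0)) (.slot (nat_lit 1))) (.node (.col (nat_lit 3)) (.slot (nat_lit 1)) (.slot (nat_lit 1)))) (.node (.slot (nat_lit 0)) (.col (nat_lit 2)) (.slot (nat_lit 1))) (.slot (nat_lit 1))) (.col (nat_lit 2)) (.col (nat_lit 0)) (.node (.col (nat_lit 2)) (.slot (nat_lit 0)) (.slot (nat_lit 0)))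
def l5033 : Root := .mk (.node (.col (nat_lit 1)) (.node (.node (.col (nat_lit 2)) (.col (nat_lit 0)) (.node (.col (nat_lit 2)) (.slot (nat_lit 0)) (.slot (nat_lit 0)))) (.node (.slot (nat_lit 0)) (.col (nat_lit 2)) (.slot (nat_lit 1))) (.slot (nat_lit 1))) (.node (.col (nat_lit 3)) (.col (nat_lit 4)) .junk)) (.col (nat_lit 1)) (.col (nat_lit 4)) (.col (nat_lit 3))
def w22597 : Root := .mk (.node (.node (.col (nat_lit 1)) (.node (.col (nat_lit 1)) (.col (nat_lit 4)) (.slot (nat_lit 1))) (.node (.col (nat_lit 3)) (.col (nat_lit 4)) .junk)) (.node (.slot (nat_lit 0)) (.col (nat_lit 2)) (.slot (nat_lit 1))) (.slot (nat_lit 1))) (.col (nat_lit 2)) (.col (nat_lit 0)) (.node (.col (nat_lit 2)) (.slot (nat_lit 0)) (.slot (nat_lit 0)))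
def l5034 : Root := .mk (.node (.node (.col (nat_lit 1)) (.node (.col (nat_lit 1)) (.col (nat_lit 4)) (.slot (nat_lit 3))) (.node (.col (nat_lit 3)) (.col (nat_lit 4)) (.slot (nat_lit 3)))) (.node (.slot (nat_lit 0)) (.col (nat_lit 2)) (.slot (nat_lit 1))) (.slot (nat_lit 2))) (.col (nat_lit 2)) (.col (nat_lit 0)) (.node (.col (nat_lit 2)) (.slot (nat_lit 0)) (.slot (nat_lit 0)))
def w22598 : Root := .mk (.node (.node (.col (nat_lit 1)) (.node (.col (nat_lit 1)) (.col (nat_lit 4)) (.slot (nat_lit 3))) (.node (.col (nat_lit 3)) (.slot (nat_lit 1)) (.slot (nat_lit 3)))) (.node (.slot (nat_lit 0)) (.col (nat_lit 2)) (.slot (nat_lit 1))) (.slot (nat_lit 2))) (.col (nat_lit 2)) (.col (nat_lit 0)) (.node (.col (nat_lit 2)) (.slot (nat_lit 0)) (.slot (nat_lit 0)))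
def w22612 : Root := .mk (.col (nat_lit 1)) (.col (nat_lit 2)) (.node (.node (.col (nat_lit 2)) (.col (nat_lit 0)) (.slot (nat_lit 0))) (.node (.slot (nat_lit 0)) (.col (nat_lit 2)) (.slot (nat_lit 0))) (.slot (nat_lit 1))) (.node (.col (nat_lit 3)) (.node (.slot (nat_lit 0)) (.slot (nat_lit 0)) (.slot (nat_lit 0))) (.slot (nat_lit 2)))
def l5038 : Root := .mk (.col (nat_lit 1)) (.node .junk (.col (nat_lit 4)) (.col (nat_lit 3))) (.node (.node (.col (nat_lit 2)) (.col (nat_lit 0)) (.node (.slot (nat_lit 0)) (.col (nat_lit 3)) (.slot (nat_lit 1)))) (.node (.slot (nat_lit 0)) (.col (nat_lit 2)) (.slot (nat_lit 1))) (.slot (nat_lit 1))) (.col (nat_lit 2))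
def w22616 : Root := .mk (.node (.node (.col (nat_lit 1)) (.node .junk (.col (nat_lit 4)) (.col (nat_lit 3))) (.slot (nat_lit 1))) (.node (.slot (nat_lit 0)) (.col (nat_lit 2)) (.slot (nat_lit 1))) (.slot (nat_lit 1))) (.col (nat_lit 2)) (.col (nat_lit 0)) (.node (.slot (nat_lit 0)) (.col (nat_lit 3)) (.slot (nat_lit 1)))
def l5039 : Root := .mk (.node (.node (.col (nat_lit 1)) (.node .junk (.col (nat_lit 4)) (.col (nat_lit 3))) (.slot (nat_lit 1))) (.node (.slot (nat_lit 0)) (.col (nat_lit 2)) (.slot (nat_lit 1))) (.col (nat_lit 1))) (.col (nat_lit 2)) (.col (nat_lit 0)) (.col (nat_lit 4))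
def w22617 : Root := .mk (.node (.node (.col (nat_lit 1)) (.node .junk (.col (nat_lit 4)) (.col (nat_lit 3))) (.slot (nat_lit 1))) (.node (.slot (nat_lit 0)) (.col (nat_lit 2)) (.slot (nat_lit 1))) (.slot (nat_lit 1))) (.col (nat_lit 2)) (.col (nat_lit 0)) (.col (nat_lit 4))
def w22622 : Root := .mk (.node (.col (nat_lit 1)) (.node .junk (.col (nat_lit 4)) (.col (nat_lit 3))) (.slot (nat_lit 1))) (.node (.col (nat_lit 2)) (.col (nat_lit 0)) .junk) (.node (.slot (nat_lit 0)) (.col (nat_lit 2)) (.slot (nat_lit 0))) (.col (nat_lit 3))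
def w22623 : Root := .mk (.node (.col (nat_lit 1)) (.node (.node (.col (nat_lit 2)) (.col (nat_lit 0)) (.node (.slot (nat_lit 0)) (.slot (nat_lit 0)) (.slot (nat_lit 0)))) (.node (.slot (nat_lit 0)) (.col (nat_lit 2)) (.slot (nat_lit 1))) (.slot (nat_lit 1))) (.node (.col (nat_lit 3)) (.slot (nat_lit 1)) (.slot (nat_lit 1)))) (.col (nat_lit 1)) (.col (nat_lit 3)) (.node (.col (nat_lit 3)) (.slot (nat_lit 0)) (.slot (nat_lit 0)))
def l5042 : Root := .mk (.node (.node (.col (nat_lit 1)) (.node (.col (nat_lit 1)) (.col (nat_lit 3)) (.slot (nat_lit 3))) (.node (.col (nat_lit 3)) (.slot (nat_lit 20)) (.slot (nat_lit 9)))) (.node (.slot (nat_lit 0)) (.col (nat_lit 2)) (.slot (nat_lit 1))) (.slot (nat_lit 2))) (.col (nat_lit 2)) (.col (nat_lit 0)) (.node (.slot (nat_lit 0)) (.slot (nat_lit 0)) (.slot (nat_lit 0)))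
def w22624 : Root := .mk (.node (.node (.col (nat_lit 1)) (.node (.col (nat_lit 1)) (.col (nat_lit 3)) (.slot (nat_lit 3))) (.slot (nat_lit 21))) (.node (.slot (nat_lit 0)) (.col (nat_lit 2)) (.slot (nat_lit 1))) (.slot (nat_lit 2))) (.col (nat_lit 2)) (.col (nat_lit 0)) (.node (.slot (nat_lit 0)) (.slot (nat_lit 0)) (.slot (nat_lit 0)))
def l5048 : Root := .mk (.col (nat_lit 1)) (.node (.col (nat_lit 1)) (.node (.col (nat_lit 2)) (.slot (nat_lit 20)) (.slot (nat_lit 9))) (.node (.col (nat_lit 2)) (.slot (nat_lit 20)) (.slot (nat_lit 9)))) (.node .junk (.node (.slot (nat_lit 0)) (.col (nat_lit 2)) (.slot (nat_lit 0))) (.col (nat_lit 3))) (.col (nat_lit 4))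
def w22653 : Root := .mk (.col (nat_lit 1)) (.node (.col (nat_lit 1)) (.node (.col (nat_lit 2)) (.slot (nat_lit 20)) (.slot (nat_lit 9))) (.slot (nat_lit 21))) (.node .junk (.node (.slot (nat_lit 0)) (.col (nat_lit 2)) (.slot (nat_lit 0))) (.col (nat_lit 3))) (.col (nat_lit 4))
def w22683 : Root := .mk (.node (.node (.col (nat_lit 1)) (.slot (nat_lit 0)) (.slot (nat_lit 1))) (.node (.slot (nat_lit 0)) (.col (nat_lit 2)) (.col (nat_lit 3))) (.col (nat_lit 3))) (.col (nat_lit 2)) (.col (nat_lit 0)) (.node (.node (.slot (nat_lit 0)) (.slot (nat_lit 0)) (.slot (nat_lit 0))) (.slot (nat_lit 3)) (.slot (nat_lit 3)))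
def l5059 : Root := .mk (.node (.node (.col (nat_lit 1)) (.node (.col (nat_lit 1)) (.node (.col (nat_lit 2)) (.slot (nat_lit 20)) (.slot (nat_lit 9))) (.slot (nat_lit 21))) (.slot (nat_lit 2))) (.node (.slot (nat_lit 0)) (.col (nat_lit 2)) (.slot (nat_lit 1))) (.col (nat_lit 3))) (.col (nat_lit 2)) (.col (nat_lit 0)) (.node (.node (.slot (nat_lit 0)) (.slot (nat_lit 0)) (.slot (nat_lit 0))) (.slot (nat_lit 3)) (.slot (nat_lit 3)))
def w22684 : Root := .mk (.node (.node (.col (nat_lit 1)) (.node (.col (nat_lit 1)) (.node (.col (nat_lit 2)) (.slot (nat_lit 20)) (.slot (nat_lit 9))) (.slot (nat_lit 21))) (.slot (nat_lit 2))) (.node (.slot (nat_lit 0)) (.col (nat_lit 2)) (.slot (nat_lit 1))) (.slot (nat_lit 1))) (.col (nat_lit 2)) (.col (nat_lit 0)) (.node (.node (.slot (nat_lit 0)) (.slot (nat_lit 0)) (.slot (nat_lit 0))) (.slot (nat_lit 3)) (.slot (nat_lit 3)))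
def w22689 : Root := .mk (.col (nat_lit 1)) (.node (.col (nat_lit 1)) (.col (nat_lit 3)) (.slot (nat_lit 2))) (.node (.node (.col (nat_lit 2)) (.col (nat_lit 0)) (.slot (nat_lit 1))) (.node (.slot (nat_lit 0)) (.col (nat_lit 2)) (.slot (nat_lit 1))) (.slot (nat_lit 1))) (.node (.col (nat_lit 3)) (.node (.slot (nat_lit 0)) (.slot (nat_lit 0)) (.slot (nat_lit 0))) (.slot (nat_lit 0)))
def l5062 : Root := .mk (.node (.col (nat_lit 1)) (.node (.node (.col (nat_lit 2)) (.col (nat_lit 0)) (.node (.col (nat_lit 3)) (.slot (nat_lit 20)) (.slot (nat_lit 9)))) (.node (.slot (nat_lit 0)) (.col (nat_lit 2)) (.slot (nat_lit 1))) (.slot (nat_lit 3))) (.slot (nat_lit 1))) (.col (nat_lit 1)) (.col (nat_lit 4)) (.col (nat_lit 3))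
def l5066 : Root := .mk (.node (.col (nat_lit 1)) (.node (.col (nat_lit 3)) (.node (.slot (nat_lit 0)) (.col (nat_lit 2)) (.slot (nat_lit 1))) (.col (nat_lit 1))) (.col (nat_lit 2))) (.col (nat_lit 1)) (.node (.col (nat_lit 2)) (.slot (nat_lit 0)) (.slot (nat_lit 1))) (.col (nat_lit 3))
def w22705 : Root := .mk (.col (nat_lit 1)) (.node (.col (nat_lit 1)) (.node (.col (nat_lit 2)) (.slot (nat_lit 0)) (.slot (nat_lit 1))) (.slot (nat_lit 1))) (.node (.col (nat_lit 3)) (.node (.slot (nat_lit 0)) (.col (nat_lit 2)) (.slot (nat_lit 1))) (.col (nat_lit 1))) (.col (nat_lit 2))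
def w22718 : Root := .mk (.col (nat_lit 1)) (.slot (nat_lit 0)) (.node (.node (.col (nat_lit 2)) (.node (.node (.col (nat_lit 2)) (.slot (nat_lit 12)) (.slot (nat_lit 10))) (.slot (nat_lit 8)) (.slot (nat_lit 8))) (.slot (nat_lit 8))) (.node (.node (.col (nat_lit 0)) (.slot (nat_lit 12)) (.slot (nat_lit 10))) (.slot (nat_lit 8)) (.slot (nat_lit 8))) (.slot (nat_lit 8))) (.slot (nat_lit 0))
def w22719 : Root := .mk (.node (.node (.col (nat_lit 1)) (.slot (nat_lit 0)) (.slot (nat_lit 0))) (.node (.col (nat_lit 2)) (.node (.node (.col (nat_lit 2)) (.slot (nat_lit 9)) (.slot (nat_lit 9))) (.slot (nat_lit 8)) (.slot (nat_lit 8))) (.slot (nat_lit 9))) (.slot (nat_lit 8))) (.node (.col (nat_lit 1)) (.slot (nat_lit 5)) (.slot (nat_lit 1))) (.col (nat_lit 0)) (.col (nat_lit 1))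
def w22720 : Root := .mk (.node (.col (nat_lit 1)) (.node (.col (nat_lit 1)) (.slot (nat_lit 0)) (.slot (nat_lit 0))) (.slot (nat_lit 1))) (.col (nat_lit 3)) (.node (.node (.col (nat_lit 1)) (.slot (nat_lit 1)) (.slot (nat_lit 1))) (.col (nat_lit 0)) (.slot (nat_lit 2))) (.node (.slot (nat_lit 0)) (.col (nat_lit 1)) (.slot (nat_lit 1)))
def w22721 : Root := .mk (.node (.node (.col (nat_lit 1)) (.node (.col (nat_lit 1)) (.slot (nat_lit 0)) (.slot (nat_lit 0))) (.slot (nat_lit 1))) (.node (.node (.col (nat_lit 1)) (.slot (nat_lit 1)) (.slot (nat_lit 1))) (.col (nat_lit 0)) (.slot (nat_lit 2))) (.node (.slot (nat_lit 0)) (.col (nat_lit 1)) (.slot (nat_lit 1)))) (.col (nat_lit 2)) (.node (.col (nat_lit 1)) .junk (.slot (nat_lit 1))) (.col (nat_lit 0))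
def l5071 : Root := .mk (.node (.node (.col (nat_lit 1)) (.slot (nat_lit 0)) (.slot (nat_lit 0))) (.node (.node (.col (nat_lit 1)) (.col (nat_lit 0)) (.slot (nat_lit 1))) (.col (nat_lit 0)) (.slot (nat_lit 1))) (.col (nat_lit 1))) (.col (nat_lit 2)) (.node (.col (nat_lit 1)) (.col (nat_lit 2)) (.slot (nat_lit 5))) (.col (nat_lit 0))
def w22722 : Root := .mk (.node (.node (.col (nat_lit 1)) (.slot (nat_lit 0)) (.slot (nat_lit 0))) (.node (.node (.col (nat_lit 1)) (.col (nat_lit 0)) (.slot (nat_lit 1))) (.col (nat_lit 0)) (.slot (nat_lit 1))) (.node (.slot (nat_lit 0)) (.slot (nat_lit 0)) (.slot (nat_lit 0)))) (.col (nat_lit 2)) (.node (.col (nat_lit 1)) (.col (nat_lit 2)) (.slot (nat_lit 5))) (.col (nat_lit 0))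
def w22723 : Root := .mk (.node (.node (.col (nat_lit 1)) (.slot (nat_lit 0)) (.slot (nat_lit 0))) (.node (.node (.col (nat_lit 1)) (.node (.col (nat_lit 1)) (.slot (nat_lit 0)) (.slot (nat_lit 0))) (.slot (nat_lit 2))) (.col (nat_lit 0)) (.slot (nat_lit 2))) (.node (.slot (nat_lit 0)) (.slot (nat_lit 0)) (.slot (nat_lit 0)))) (.col (nat_lit 2)) (.node (.col (nat_lit 1)) (.col (nat_lit 2)) (.slot (nat_lit 1))) (.col (nat_lit 0))
def l5072 : Root := .mk (.node (.node (.col (nat_lit 1)) (.node (.col (nat_lit 1)) (.slot (nat_lit 0)) (.slot (nat_lit 0))) (.slot (nat_lit 1))) (.node (.node (.col (nat_lit 1)) (.slot (nat_lit 8)) (.slot (nat_lit 8))) (.col (nat_lit 0)) (.slot (nat_lit 8))) (.node (.slot (nat_lit 0)) (.slot (nat_lit 1)) (.slot (nat_lit 1)))) (.col (nat_lit 2)) (.node (.col (nat_lit 1)) (.col (nat_lit 2)) (.slot (nat_lit 5))) (.col (nat_lit 0))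
def w22724 : Root := .mk (.node (.node (.node (.col (nat_lit 1)) (.node (.col (nat_lit 1)) (.slot (nat_lit 0)) (.slot (nat_lit 0))) (.slot (nat_lit 1))) (.node (.node (.col (nat_lit 1)) (.slot (nat_lit 8)) (.slot (nat_lit 8))) (.col (nat_lit 0)) (.slot (nat_lit 8))) (.node (.slot (nat_lit 0)) (.slot (nat_lit 1)) (.slot (nat_lit 1)))) (.col (nat_lit 2)) (.slot (nat_lit 1))) (.col (nat_lit 1)) (.col (nat_lit 2)) (.slot (nat_lit 5))
def w22725 : Root := .mk (.col (nat_lit 1)) (.node (.col (nat_lit 1)) (.slot (nat_lit 0)) (.slot (nat_lit 0))) (.node (.node (.col (nat_lit 2)) (.node (.col (nat_lit 1)) (.node (.col (nat_lit 1)) (.slot (nat_lit 0)) (.slot (nat_lit 0))) (.slot (nat_lit 2))) (.slot (nat_lit 2))) (.node (.node (.col (nat_lit 1)) (.slot (nat_lit 0)) (.slot (nat_lit 0))) (.col (nat_lit 0)) (.slot (nat_lit 1))) (.col (nat_lit 3))) (.col (nat_lit 3))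
def w22726 : Root := .mk (.col (nat_lit 1)) (.node (.col (nat_lit 1)) (.slot (nat_lit 0)) (.slot (nat_lit 0))) (.node (.node (.col (nat_lit 2)) (.node (.col (nat_lit 1)) (.node (.col (nat_lit 1)) (.slot (nat_lit 0)) (.slot (nat_lit 0))) (.slot (nat_lit 2))) (.slot (nat_lit 2))) (.node (.node (.col (nat_lit 1)) (.slot (nat_lit 0)) (.slot (nat_lit 0))) (.col (nat_lit 0)) (.slot (nat_lit 1))) (.col (nat_lit 3))) (.slot (nat_lit 0))
def w22727 : Root := .mk (.node (.node (.col (nat_lit 1)) (.node (.col (nat_lit 1)) (.slot (nat_lit 0)) (.slot (nat_lit 0))) (.slot (nat_lit 1))) (.node (.node (.col (nat_lit 1)) (.slot (nat_lit 1)) (.slot (nat_lit 1))) (.col (nat_lit 0)) (.slot (nat_lit 2))) (.col (nat_lit 3))) (.col (nat_lit 2)) (.col (nat_lit 3)) (.slot (nat_lit 1))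
def w22728 : Root := .mk (.node (.node (.col (nat_lit 1)) (.node (.col (nat_lit 1)) (.slot (nat_lit 0)) (.slot (nat_lit 0))) (.slot (nat_lit 1))) (.node (.slot (nat_lit 0)) (.col (nat_lit 0)) (.slot (nat_lit 1))) (.col (nat_lit 3))) (.col (nat_lit 2)) (.node (.col (nat_lit 1)) .junk (.slot (nat_lit 1))) (.col (nat_lit 3))
def w22729 : Root := .mk (.node (.node (.col (nat_lit 1)) (.node (.col (nat_lit 1)) (.slot (nat_lit 0)) (.slot (nat_lit 0))) (.slot (nat_lit 1))) (.node (.slot (nat_lit 0)) (.col (nat_lit 0)) (.slot (nat_lit 1))) (.col (nat_lit 3))) (.col (nat_lit 2)) (.node (.col (nat_lit 1)) (.slot (nat_lit 0)) (.slot (nat_lit 1))) (.node (.col (nat_lit 0)) (.slot (nat_lit 1)) (.slot (nat_lit 1)))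
def w22730 : Root := .mk (.node (.node (.col (nat_lit 1)) (.node (.col (nat_lit 1)) (.slot (nat_lit 0)) (.slot (nat_lit 0))) (.slot (nat_lit 1))) (.node (.node (.col (nat_lit 1)) (.slot (nat_lit 1)) (.slot (nat_lit 1))) (.col (nat_lit 0)) (.slot (nat_lit 2))) (.col (nat_lit 3))) (.col (nat_lit 2)) (.slot (nat_lit 0)) (.node (.col (nat_lit 2)) (.slot (nat_lit 0)) (.slot (nat_lit 0)))
def w22731 : Root := .mk (.node (.node (.col (nat_lit 1)) .junk (.slot (nat_lit 1))) (.node (.node (.col (nat_lit 1)) (.slot (nat_lit 1)) (.slot (nat_lit 1))) (.col (nat_lit 0)) (.slot (nat_lit 2))) (.col (nat_lit 3))) (.col (nat_lit 2)) (.node (.col (nat_lit 1)) (.node (.col (nat_lit 1)) (.slot (nat_lit 0)) (.slot (nat_lit 0))) (.slot (nat_lit 1))) (.node (.col (nat_lit 4)) (.slot (nat_lit 1)) (.slot (nat_lit 0)))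
def w22732 : Root := .mk (.node (.node (.col (nat_lit 1)) (.node (.col (nat_lit 1)) (.slot (nat_lit 0)) (.slot (nat_lit 0))) (.slot (nat_lit 1))) (.node (.col (nat_lit 2)) (.node (.col (nat_lit 1)) (.node (.col (nat_lit 1)) (.slot (nat_lit 0)) (.slot (nat_lit 0))) (.slot (nat_lit 2))) (.slot (nat_lit 2))) (.col (nat_lit 3))) (.col (nat_lit 3)) (.col (nat_lit 0)) (.slot (nat_lit 1))
def w22733 : Root := .mk (.node (.col (nat_lit 1)) (.node (.node (.col (nat_lit 2)) (.slot (nat_lit 0)) (.slot (nat_lit 0))) (.node (.node (.col (nat_lit 1)) (.slot (nat_lit 1)) (.slot (nat_lit 1))) (.col (nat_lit 0)) (.slot (nat_lit 2))) (.col (nat_lit 3))) (.slot (nat_lit 8))) (.col (nat_lit 1)) (.col (nat_lit 0)) (.slot (nat_lit 2))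
def w22734 : Root := .mk (.node (.col (nat_lit 1)) (.slot (nat_lit 0)) (.slot (nat_lit 1))) (.node (.col (nat_lit 2)) (.node (.col (nat_lit 1)) (.slot (nat_lit 0)) (.slot (nat_lit 0))) (.slot (nat_lit 1))) (.node (.node (.col (nat_lit 1)) (.slot (nat_lit 1)) (.slot (nat_lit 1))) (.col (nat_lit 0)) (.slot (nat_lit 2))) (.col (nat_lit 3))
def w22735 : Root := .mk (.node (.col (nat_lit 1)) (.node (.col (nat_lit 1)) (.slot (nat_lit 0)) (.slot (nat_lit 0))) (.slot (nat_lit 1))) (.node (.col (nat_lit 2)) (.node (.col (nat_lit 1)) (.node (.col (nat_lit 1)) (.slot (nat_lit 0)) (.slot (nat_lit 0))) (.slot (nat_lit 2))) (.slot (nat_lit 2))) (.node (.slot (nat_lit 0)) (.col (nat_lit 0)) (.slot (nat_lit 1))) (.col (nat_lit 3))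
def l5073 : Root := .mk (.node (.col (nat_lit 1)) (.node (.col (nat_lit 1)) (.slot (nat_lit 20)) (.slot (nat_lit 9))) (.slot (nat_lit 21))) (.node (.col (nat_lit 2)) (.node (.col (nat_lit 1)) (.node (.col (nat_lit 1)) (.slot (nat_lit 0)) (.slot (nat_lit 0))) (.slot (nat_lit 3))) (.slot (nat_lit 4))) (.node (.node (.col (nat_lit 1)) (.slot (nat_lit 20)) (.slot (nat_lit 12))) (.col (nat_lit 0)) (.slot (nat_lit 21))) (.col (nat_lit 3))
def w22736 : Root := .mk (.node (.node (.node (.col (nat_lit 1)) (.node (.col (nat_lit 1)) (.slot (nat_lit 20)) (.slot (nat_lit 9))) (.slot (nat_lit 21))) (.node (.node (.col (nat_lit 1)) (.slot (nat_lit 20)) (.slot (nat_lit 12))) (.col (nat_lit 0)) (.slot (nat_lit 21))) (.node (.slot (nat_lit 0)) (.slot (nat_lit 0)) (.slot (nat_lit 0)))) (.col (nat_lit 2)) (.slot (nat_lit 4))) (.col (nat_lit 1)) (.node (.col (nat_lit 1)) (.slot (nat_lit 0)) (.slot (nat_lit 0))) (.slot (nat_lit 3))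
def w22737 : Root := .mk (.node (.node (.col (nat_lit 1)) (.col (nat_lit 2)) (.slot (nat_lit 2))) (.node (.col (nat_lit 2)) (.node (.col (nat_lit 1)) (.node (.slot (nat_lit 0)) (.slot (nat_lit 0)) (.slot (nat_lit 0))) (.slot (nat_lit 1))) (.slot (nat_lit 2))) (.node (.slot (nat_lit 0)) (.slot (nat_lit 0)) (.slot (nat_lit 0)))) (.col (nat_lit 3)) (.col (nat_lit 0)) (.slot (nat_lit 0))
def l5074 : Root := .mk (.col (nat_lit 1)) (.col (nat_lit 2)) (.node (.node (.col (nat_lit 2)) (.node (.col (nat_lit 1)) (.node (.slot (nat_lit 0)) (.slot (nat_lit 0)) (.slot (nat_lit 0))) (.slot (nat_lit 3))) (.slot (nat_lit 2))) (.node (.node (.col (nat_lit 1)) (.slot (nat_lit 7)) (.slot (nat_lit 5))) (.col (nat_lit 0)) (.slot (nat_lit 8))) (.node (.slot (nat_lit 0)) (.slot (nat_lit 1)) (.slot (nat_lit 0)))) (.slot (nat_lit 3))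
def w22738 : Root := .mk (.node (.node (.node (.col (nat_lit 1)) (.node (.col (nat_lit 1)) (.slot (nat_lit 0)) (.slot (nat_lit 0))) (.slot (nat_lit 3))) (.node (.node (.col (nat_lit 1)) (.slot (nat_lit 7)) (.slot (nat_lit 5))) (.col (nat_lit 0)) (.slot (nat_lit 8))) (.node (.slot (nat_lit 0)) (.slot (nat_lit 1)) (.slot (nat_lit 0)))) (.col (nat_lit 2)) (.slot (nat_lit 2))) (.col (nat_lit 1)) (.node (.slot (nat_lit 0)) (.slot (nat_lit 0)) (.slot (nat_lit 0))) (.slot (nat_lit 3))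
def w22739 : Root := .mk (.node (.col (nat_lit 1)) (.node (.col (nat_lit 1)) (.slot (nat_lit 0)) (.slot (nat_lit 0))) (.slot (nat_lit 1))) (.col (nat_lit 0)) (.node (.node (.col (nat_lit 1)) (.slot (nat_lit 1)) (.slot (nat_lit 1))) (.col (nat_lit 0)) (.slot (nat_lit 2))) (.node (.slot (nat_lit 0)) (.col (nat_lit 1)) (.slot (nat_lit 1)))
def w22740 : Root := .mk (.node (.col (nat_lit 1)) (.node (.col (nat_lit 1)) (.slot (nat_lit 0)) (.slot (nat_lit 0))) (.slot (nat_lit 1))) (.node (.col (nat_lit 2)) (.node (.col (nat_lit 1)) (.slot (nat_lit 1)) (.slot (nat_lit 1))) (.slot (nat_lit 2))) (.node (.node (.col (nat_lit 1)) (.slot (nat_lit 1)) (.slot (nat_lit 1))) (.col (nat_lit 0)) (.slot (nat_lit 2))) (.node (.slot (nat_lit 0)) (.col (nat_lit 1)) (.slot (nat_lit 1)))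
def l5075 : Root := .mk (.node (.node (.col (nat_lit 1)) (.node (.col (nat_lit 1)) (.slot (nat_lit 20)) (.slot (nat_lit 9))) (.slot (nat_lit 21))) (.node (.node (.col (nat_lit 1)) (.slot (nat_lit 20)) (.slot (nat_lit 12))) (.col (nat_lit 0)) (.slot (nat_lit 21))) (.node (.slot (nat_lit 0)) (.slot (nat_lit 1)) (.slot (nat_lit 1)))) (.col (nat_lit 2)) (.node (.col (nat_lit 1)) (.slot (nat_lit 12)) (.slot (nat_lit 20))) (.slot (nat_lit 21))
def w22741 : Root := .mk (.node (.col (nat_lit 1)) (.node (.col (nat_lit 1)) (.slot (nat_lit 20)) (.slot (nat_lit 9))) (.slot (nat_lit 21))) (.node (.col (nat_lit 2)) (.node (.node (.col (nat_lit 2)) (.slot (nat_lit 0)) (.slot (nat_lit 0))) (.slot (nat_lit 20)) (.slot (nat_lit 12))) (.slot (nat_lit 21))) (.node (.node (.col (nat_lit 1)) (.slot (nat_lit 20)) (.slot (nat_lit 12))) (.col (nat_lit 0)) (.slot (nat_lit 21))) (.node (.slot (nat_lit 0)) (.slot (nat_lit 1)) (.slot (nat_lit 1)))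
def w22742 : Root := .mk (.node (.node (.node (.col (nat_lit 1)) (.node (.col (nat_lit 1)) (.slot (nat_lit 0)) (.slot (nat_lit 0))) (.slot (nat_lit 3))) (.node (.col (nat_lit 2)) (.node (.slot (nat_lit 0)) (.slot (nat_lit 0)) (.slot (nat_lit 0))) (.slot (nat_lit 3))) (.slot (nat_lit 8))) (.col (nat_lit 0)) (.slot (nat_lit 2))) (.col (nat_lit 1)) (.node (.col (nat_lit 1)) (.slot (nat_lit 0)) (.slot (nat_lit 0))) (.slot (nat_lit 2))
def w22743 : Root := .mk (.node (.node (.col (nat_lit 1)) (.node (.col (nat_lit 1)) (.slot (nat_lit 0)) (.slot (nat_lit 0))) (.slot (nat_lit 3))) (.node (.node (.col (nat_lit 1)) (.slot (nat_lit 1)) (.slot (nat_lit 1))) (.col (nat_lit 0)) (.slot (nat_lit 2))) (.slot (nat_lit 2))) (.col (nat_lit 2)) (.node (.node (.col (nat_lit 2)) (.slot (nat_lit 3)) (.slot (nat_lit 1))) (.slot (nat_lit 8)) (.slot (nat_lit 8))) (.node (.col (nat_lit 2)) (.slot (nat_lit 0)) (.slot (nat_lit 0)))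
def w22747 : Root := .mk (.node (.node (.node (.col (nat_lit 1)) (.slot (nat_lit 0)) (.slot (nat_lit 0))) (.node (.node (.col (nat_lit 1)) (.slot (nat_lit 1)) (.slot (nat_lit 1))) (.col (nat_lit 0)) (.slot (nat_lit 2))) (.slot (nat_lit 1))) (.col (nat_lit 2)) (.col (nat_lit 0))) (.col (nat_lit 1)) (.node (.col (nat_lit 1)) (.slot (nat_lit 0)) (.slot (nat_lit 0))) (.col (nat_lit 0))
def w22748 : Root := .mk (.node (.node (.col (nat_lit 1)) (.slot (nat_lit 0)) (.slot (nat_lit 0))) (.node (.slot (nat_lit 0)) (.col (nat_lit 0)) (.slot (nat_lit 0))) (.slot (nat_lit 1))) (.col (nat_lit 2)) (.node (.col (nat_lit 1)) (.node (.col (nat_lit 1)) (.slot (nat_lit 0)) (.slot (nat_lit 0))) (.node (.col (nat_lit 1)) (.slot (nat_lit 0)) (.slot (nat_lit 0)))) (.col (nat_lit 0))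
def l5076 : Root := .mk (.node (.node (.col (nat_lit 1)) (.slot (nat_lit 0)) (.slot (nat_lit 1))) (.node (.node (.col (nat_lit 1)) (.slot (nat_lit 5)) (.slot (nat_lit 5))) (.col (nat_lit 0)) (.slot (nat_lit 3))) (.slot (nat_lit 2))) (.col (nat_lit 2)) (.node (.col (nat_lit 1)) (.node (.col (nat_lit 1)) (.slot (nat_lit 20)) (.slot (nat_lit 9))) (.slot (nat_lit 21))) (.col (nat_lit 0))
def w22749 : Root := .mk (.node (.node (.col (nat_lit 1)) (.slot (nat_lit 0)) (.slot (nat_lit 1))) (.node (.node (.col (nat_lit 1)) (.slot (nat_lit 5)) (.slot (nat_lit 5))) (.col (nat_lit 0)) (.slot (nat_lit 3))) (.slot (nat_lit 2))) (.col (nat_lit 2)) (.node (.col (nat_lit 1)) (.node (.col (nat_lit 1)) (.slot (nat_lit 20)) (.slot (nat_lit 9))) (.slot (nat_lit 21))) (.node (.slot (nat_lit 0)) (.slot (nat_lit 0)) (.slot (nat_lit 0)))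
def w22753 : Root := .mk (.node (.col (nat_lit 1)) (.slot (nat_lit 0)) (.slot (nat_lit 1))) (.node (.col (nat_lit 2)) (.node (.col (nat_lit 1)) (.slot (nat_lit 0)) (.slot (nat_lit 0))) (.node (.slot (nat_lit 0)) (.slot (nat_lit 0)) (.slot (nat_lit 0)))) (.node (.node (.col (nat_lit 1)) (.slot (nat_lit 1)) (.slot (nat_lit 1))) (.col (nat_lit 0)) (.slot (nat_lit 2))) (.col (nat_lit 0))
def l5081 : Root := .mk (.node (.node (.col (nat_lit 1)) (.slot (nat_lit 0)) (.slot (nat_lit 0))) (.node (.node (.col (nat_lit 1)) (.slot (nat_lit 3)) (.slot (nat_lit 2))) (.col (nat_lit 0)) (.slot (nat_lit 2))) (.slot (nat_lit 2))) (.col (nat_lit 2)) (.node (.col (nat_lit 1)) (.slot (nat_lit 20)) (.slot (nat_lit 9))) (.col (nat_lit 0))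
def w22762 : Root := .mk (.col (nat_lit 1)) (.slot (nat_lit 0)) (.node (.node (.col (nat_lit 2)) (.node (.col (nat_lit 1)) (.slot (nat_lit 20)) (.slot (nat_lit 9))) (.node (.slot (nat_lit 0)) (.slot (nat_lit 0)) (.slot (nat_lit 0)))) (.node (.node (.col (nat_lit 1)) (.slot (nat_lit 3)) (.slot (nat_lit 2))) (.col (nat_lit 0)) (.slot (nat_lit 2))) (.slot (nat_lit 2))) (.slot (nat_lit 0))
def l5082 : Root := .mk (.node (.node (.col (nat_lit 1)) (.slot (nat_lit 0)) (.slot (nat_lit 0))) (.node (.col (nat_lit 2)) (.col (nat_lit 0)) (.slot (nat_lit 3))) (.slot (nat_lit 2))) (.col (nat_lit 2)) (.node (.col (nat_lit 1)) (.slot (nat_lit 20)) (.slot (nat_lit 9))) (.col (nat_lit 0))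
def w22763 : Root := .mk (.node (.node (.col (nat_lit 1)) (.slot (nat_lit 0)) (.slot (nat_lit 0))) (.node (.col (nat_lit 2)) (.node (.col (nat_lit 1)) (.slot (nat_lit 20)) (.slot (nat_lit 9))) (.node (.slot (nat_lit 0)) (.slot (nat_lit 0)) (.slot (nat_lit 0)))) (.slot (nat_lit 2))) (.col (nat_lit 2)) (.col (nat_lit 0)) (.slot (nat_lit 3))
def w22764 : Root := .mk (.node (.node (.col (nat_lit 1)) (.node (.col (nat_lit 1)) (.slot (nat_lit 0)) (.slot (nat_lit 0))) (.slot (nat_lit 3))) (.node (.node (.col (nat_lit 1)) (.slot (nat_lit 1)) (.slot (nat_lit 1))) (.col (nat_lit 0)) (.slot (nat_lit 2))) (.slot (nat_lit 2))) (.col (nat_lit 2)) (.node (.node (.col (nat_lit 2)) (.slot (nat_lit 3)) (.slot (nat_lit 1))) (.slot (nat_lit 8)) (.slot (nat_lit 8))) (.node (.slot (nat_lit 0)) (.slot (nat_lit 0)) (.slot (nat_lit 0)))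
def w22765 : Root := .mk (.node (.col (nat_lit 1)) (.col (nat_lit 2)) (.slot (nat_lit 3))) (.node (.col (nat_lit 2)) (.node (.slot (nat_lit 0)) (.col (nat_lit 2)) (.slot (nat_lit 0))) (.slot (nat_lit 3))) (.node (.node (.col (nat_lit 1)) (.slot (nat_lit 1)) (.slot (nat_lit 1))) (.col (nat_lit 0)) (.slot (nat_lit 2))) (.col (nat_lit 2))
def w22766 : Root := .mk (.node (.node (.col (nat_lit 1)) (.col (nat_lit 2)) (.slot (nat_lit 1))) (.node (.node (.col (nat_lit 1)) (.slot (nat_lit 1)) (.slot (nat_lit 1))) (.col (nat_lit 0)) (.slot (nat_lit 2))) (.slot (nat_lit 1))) (.col (nat_lit 2)) (.slot (nat_lit 0)) (.col (nat_lit 3))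
def l5083 : Root := .mk (.node (.node (.col (nat_lit 1)) (.col (nat_lit 2)) (.slot (nat_lit 6))) (.node (.col (nat_lit 2)) (.col (nat_lit 1)) (.slot (nat_lit 6))) (.slot (nat_lit 1))) (.node (.col (nat_lit 1)) (.slot (nat_lit 0)) (.slot (nat_lit 0))) (.col (nat_lit 0)) (.col (nat_lit 1))
def w22767 : Root := .mk (.node (.node (.col (nat_lit 1)) (.col (nat_lit 2)) (.slot (nat_lit 6))) (.node (.col (nat_lit 2)) (.node (.slot (nat_lit 0)) (.col (nat_lit 2)) (.slot (nat_lit 0))) (.slot (nat_lit 6))) (.slot (nat_lit 1))) (.node (.col (nat_lit 1)) (.slot (nat_lit 0)) (.slot (nat_lit 0))) (.col (nat_lit 0)) (.col (nat_lit 1))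
def l5084 : Root := .mk (.col (nat_lit 1)) (.col (nat_lit 2)) (.node (.node (.col (nat_lit 2)) (.node (.slot (nat_lit 0)) (.col (nat_lit 2)) (.slot (nat_lit 0))) (.slot (nat_lit 6))) (.node (.node (.col (nat_lit 1)) (.slot (nat_lit 7)) (.slot (nat_lit 5))) (.col (nat_lit 0)) (.slot (nat_lit 8))) (.slot (nat_lit 8))) (.slot (nat_lit 21))
def w22768 : Root := .mk (.node (.node (.node (.col (nat_lit 1)) (.node (.col (nat_lit 1)) (.slot (nat_lit 0)) (.slot (nat_lit 0))) (.slot (nat_lit 21))) (.node (.node (.col (nat_lit 1)) (.slot (nat_lit 7)) (.slot (nat_lit 5))) (.col (nat_lit 0)) (.slot (nat_lit 8))) (.slot (nat_lit 8))) (.col (nat_lit 2)) (.slot (nat_lit 6))) (.slot (nat_lit 0)) (.col (nat_lit 2)) (.slot (nat_lit 0))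
def l5085 : Root := .mk (.node (.node (.col (nat_lit 1)) (.node (.col (nat_lit 1)) (.slot (nat_lit 20)) (.slot (nat_lit 9))) (.slot (nat_lit 21))) (.node (.col (nat_lit 2)) (.node (.node (.col (nat_lit 2)) (.slot (nat_lit 12)) (.slot (nat_lit 10))) (.slot (nat_lit 20)) (.slot (nat_lit 12))) (.slot (nat_lit 21))) (.slot (nat_lit 8))) (.node (.col (nat_lit 1)) (.slot (nat_lit 20)) (.slot (nat_lit 12))) (.col (nat_lit 0)) (.slot (nat_lit 21))
def w22769 : Root := .mk (.col (nat_lit 1)) (.node (.col (nat_lit 1)) (.slot (nat_lit 20)) (.slot (nat_lit 9))) (.node (.node (.col (nat_lit 2)) (.node (.node (.col (nat_lit 2)) (.slot (nat_lit 12)) (.slot (nat_lit 10))) (.slot (nat_lit 20)) (.slot (nat_lit 12))) (.slot (nat_lit 21))) (.node (.node (.col (nat_lit 1)) (.slot (nat_lit 20)) (.slot (nat_lit 12))) (.slot (nat_lit 1)) (.slot (nat_lit 21))) (.slot (nat_lit 8))) (.slot (nat_lit 21))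
def w22770 : Root := .mk (.col (nat_lit 1)) (.slot (nat_lit 0)) (.node (.node (.col (nat_lit 2)) (.node (.node (.col (nat_lit 2)) (.slot (nat_lit 14)) (.slot (nat_lit 10))) (.slot (nat_lit 9)) (.slot (nat_lit 8))) (.slot (nat_lit 10))) (.node (.node (.col (nat_lit 2)) (.slot (nat_lit 14)) (.slot (nat_lit 10))) (.slot (nat_lit 9)) (.slot (nat_lit 8))) (.slot (nat_lit 10))) (.slot (nat_lit 0))
def w22771 : Root := .mk (.node (.node (.col (nat_lit 1)) (.node (.col (nat_lit 1)) (.node (.col (nat_lit 2)) (.slot (nat_lit 7)) (.slot (nat_lit 5))) (.slot (nat_lit 10))) (.slot (nat_lit 8))) (.node (.node (.slot (nat_lit 0)) (.slot (nat_lit 0)) (.slot (nat_lit 0))) (.slot (nat_lit 8)) (.slot (nat_lit 8))) (.slot (nat_lit 10))) (.col (nat_lit 2)) (.col (nat_lit 0)) (.slot (nat_lit 5))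
def w22772 : Root := .mk (.node (.col (nat_lit 1)) (.node (.col (nat_lit 1)) (.slot (nat_lit 0)) (.slot (nat_lit 0))) (.col (nat_lit 0))) (.node (.col (nat_lit 2)) (.node (.node (.col (nat_lit 2)) (.slot (nat_lit 0)) (.slot (nat_lit 0))) (.col (nat_lit 0)) (.col (nat_lit 2))) (.col (nat_lit 3))) (.col (nat_lit 0)) (.col (nat_lit 3))
def w22773 : Root := .mk (.node (.node (.node (.col (nat_lit 1)) (.node (.col (nat_lit 1)) (.node (.col (nat_lit 2)) (.slot (nat_lit 0)) (.slot (nat_lit 0))) (.slot (nat_lit 3))) (.col (nat_lit 0))) (.col (nat_lit 0)) (.slot (nat_lit 3))) (.col (nat_lit 2)) (.col (nat_lit 3))) (.col (nat_lit 3)) (.col (nat_lit 0)) (.col (nat_lit 2))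
def l5086 : Root := .mk (.node (.node (.col (nat_lit 1)) (.node (.col (nat_lit 1)) (.node (.col (nat_lit 2)) (.slot (nat_lit 1)) (.slot (nat_lit 1))) (.slot (nat_lit 3))) (.col (nat_lit 0))) (.col (nat_lit 0)) (.slot (nat_lit 3))) (.col (nat_lit 2)) (.node (.node (.col (nat_lit 2)) (.slot (nat_lit 1)) (.slot (nat_lit 1))) (.col (nat_lit 0)) (.col (nat_lit 2))) (.col (nat_lit 3))
def w22774 : Root := .mk (.node (.node (.node (.col (nat_lit 1)) (.node (.col (nat_lit 1)) (.node (.col (nat_lit 2)) (.slot (nat_lit 1)) (.slot (nat_lit 1))) (.slot (nat_lit 3))) (.col (nat_lit 0))) (.col (nat_lit 0)) (.slot (nat_lit 3))) (.col (nat_lit 2)) (.node (.col (nat_lit 2)) (.slot (nat_lit 0)) (.slot (nat_lit 0)))) (.node (.col (nat_lit 2)) (.slot (nat_lit 1)) (.slot (nat_lit 1))) (.col (nat_lit 0)) (.col (nat_lit 2))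
def l5087 : Root := .mk (.col (nat_lit 1)) (.node (.col (nat_lit 1)) (.node (.col (nat_lit 2)) (.slot (nat_lit 1)) (.slot (nat_lit 1))) (.slot (nat_lit 3))) (.node (.node (.col (nat_lit 2)) (.node (.node (.col (nat_lit 2)) (.slot (nat_lit 7)) (.slot (nat_lit 5))) (.col (nat_lit 0)) (.slot (nat_lit 8))) (.node (.col (nat_lit 2)) (.slot (nat_lit 1)) (.slot (nat_lit 1)))) (.col (nat_lit 0)) (.slot (nat_lit 3))) (.col (nat_lit 0))
def w22775 : Root := .mk (.col (nat_lit 1)) (.node (.col (nat_lit 1)) (.node (.col (nat_lit 2)) (.slot (nat_lit 1)) (.slot (nat_lit 1))) (.slot (nat_lit 3))) (.node (.node (.col (nat_lit 2)) (.node (.node (.col (nat_lit 2)) (.slot (nat_lit 7)) (.slot (nat_lit 5))) (.slot (nat_lit 1)) (.slot (nat_lit 8))) (.node (.col (nat_lit 2)) (.slot (nat_lit 1)) (.slot (nat_lit 1)))) (.col (nat_lit 0)) (.slot (nat_lit 3))) (.col (nat_lit 0))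
def w22776 : Root := .mk (.col (nat_lit 1)) (.node (.col (nat_lit 1)) (.node (.col (nat_lit 2)) (.slot (nat_lit 1)) (.slot (nat_lit 1))) (.slot (nat_lit 2))) (.node (.node (.col (nat_lit 2)) (.node (.slot (nat_lit 0)) (.slot (nat_lit 1)) (.slot (nat_lit 0))) (.node (.col (nat_lit 2)) (.slot (nat_lit 0)) (.slot (nat_lit 0)))) (.col (nat_lit 0)) (.slot (nat_lit 2))) (.node (.col (nat_lit 1)) (.slot (nat_lit 0)) (.slot (nat_lit 0)))
def w22777 : Root := .mk (.node (.node (.col (nat_lit 1)) (.node .junk (.col (nat_lit 3)) (.col (nat_lit 2))) (.slot (nat_lit 1))) (.col (nat_lit 0)) (.slot (nat_lit 2))) (.col (nat_lit 2)) (.node (.node (.col (nat_lit 2)) .junk .junk) (.slot (nat_lit 1)) (.slot (nat_lit 0))) (.node (.col (nat_lit 2)) (.slot (nat_lit 0)) (.slot (nat_lit 0)))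
def l5088 : Root := .mk (.node (.col (nat_lit 1)) (.node (.node (.col (nat_lit 2)) (.node (.node (.col (nat_lit 2)) .junk .junk) (.slot (nat_lit 1)) (.slot (nat_lit 0))) (.node (.col (nat_lit 2)) (.slot (nat_lit 0)) (.slot (nat_lit 0)))) (.col (nat_lit 0)) (.slot (nat_lit 3))) (.slot (nat_lit 3))) (.col (nat_lit 1)) (.col (nat_lit 3)) (.node (.col (nat_lit 4)) (.slot (nat_lit 20)) (.slot (nat_lit 9)))
def w22778 : Root := .mk (.node (.col (nat_lit 1)) (.node (.node (.col (nat_lit 2)) (.node (.node (.col (nat_lit 2)) .junk .junk) (.slot (nat_lit 1)) (.slot (nat_lit 0))) (.node (.col (nat_lit 2)) (.slot (nat_lit 0)) (.slot (nat_lit 0)))) (.col (nat_lit 0)) (.slot (nat_lit 3))) (.slot (nat_lit 3))) (.col (nat_lit 1)) (.col (nat_lit 3)) (.slot (nat_lit 21))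
def w22779 : Root := .mk (.node (.col (nat_lit 1)) (.node (.node (.col (nat_lit 2)) (.node (.node (.col (nat_lit 2)) .junk .junk) (.slot (nat_lit 1)) (.slot (nat_lit 0))) (.node (.col (nat_lit 2)) (.slot (nat_lit 0)) (.slot (nat_lit 0)))) (.col (nat_lit 0)) (.slot (nat_lit 2))) (.slot (nat_lit 3))) (.col (nat_lit 1)) (.node (.col (nat_lit 2)) (.slot (nat_lit 3)) (.slot (nat_lit 1))) (.col (nat_lit 2))
def l5089 : Root := .mk (.node (.node (.col (nat_lit 1)) (.node (.col (nat_lit 1)) (.node (.col (nat_lit 2)) (.slot (nat_lit 7)) (.slot (nat_lit 5))) (.slot (nat_lit 21))) (.slot (nat_lit 5))) (.col (nat_lit 0)) (.slot (nat_lit 5))) (.col (nat_lit 2)) (.node (.node (.col (nat_lit 2)) (.slot (nat_lit 7)) (.slot (nat_lit 5))) (.slot (nat_lit 8)) (.slot (nat_lit 8))) (.node (.col (nat_lit 2)) (.slot (nat_lit 1)) (.slot (nat_lit 1)))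
def w22780 : Root := .mk (.node (.node (.col (nat_lit 1)) (.node (.col (nat_lit 1)) (.node (.col (nat_lit 2)) (.slot (nat_lit 7)) (.slot (nat_lit 5))) (.slot (nat_lit 21))) (.slot (nat_lit 5))) (.node (.slot (nat_lit 0)) (.slot (nat_lit 0)) (.slot (nat_lit 0))) (.slot (nat_lit 5))) (.col (nat_lit 2)) (.node (.node (.col (nat_lit 2)) (.slot (nat_lit 7)) (.slot (nat_lit 5))) (.slot (nat_lit 8)) (.slot (nat_lit 8))) (.node (.col (nat_lit 2)) (.slot (nat_lit 1)) (.slot (nat_lit 1)))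
def w22786 : Root := .mk (.node (.node (.col (nat_lit 1)) (.node (.col (nat_lit 1)) (.node (.col (nat_lit 2)) (.slot (nat_lit 1)) (.slot (nat_lit 1))) (.slot (nat_lit 2))) (.slot (nat_lit 3))) (.node (.col (nat_lit 2)) (.slot (nat_lit 0)) (.slot (nat_lit 0))) (.slot (nat_lit 1))) (.slot (nat_lit 0)) (.col (nat_lit 1)) (.col (nat_lit 0))
def l5091 : Root := .mk (.col (nat_lit 1)) (.slot (nat_lit 0)) (.node (.node (.col (nat_lit 2)) (.col (nat_lit 1)) .junk) (.node (.slot (nat_lit 0)) (.col (nat_lit 1)) (.col (nat_lit 2))) (.col (nat_lit 0))) (.col (nat_lit 2))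
def w22789 : Root := .mk (.col (nat_lit 1)) (.slot (nat_lit 0)) (.node (.node (.col (nat_lit 2)) (.col (nat_lit 1)) .junk) (.node (.slot (nat_lit 0)) (.col (nat_lit 1)) (.col (nat_lit 2))) (.slot (nat_lit 1))) (.col (nat_lit 2))
def l5093 : Root := .mk (.node (.col (nat_lit 0)) (.node (.col (nat_lit 2)) (.node (.slot (nat_lit 0)) (.slot (nat_lit 0)) (.slot (nat_lit 0))) (.node (.slot (nat_lit 0)) (.slot (nat_lit 0)) (.slot (nat_lit 0)))) (.node (.col (nat_lit 2)) (.slot (nat_lit 3)) (.slot (nat_lit 1)))) (.node (.slot (nat_lit 0)) (.col (nat_lit 0)) (.col (nat_lit 1))) (.col (nat_lit 1)) (.col (nat_lit 2))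
def w22807 : Root := .mk (.node (.node (.col (nat_lit 1)) (.col (nat_lit 2)) (.slot (nat_lit 0))) (.node (.col (nat_lit 2)) (.node (.slot (nat_lit 0)) (.slot (nat_lit 0)) (.slot (nat_lit 0))) (.node (.slot (nat_lit 0)) (.slot (nat_lit 0)) (.slot (nat_lit 0)))) (.node (.col (nat_lit 2)) (.slot (nat_lit 3)) (.slot (nat_lit 1)))) (.node (.slot (nat_lit 0)) (.col (nat_lit 0)) (.col (nat_lit 1))) (.col (nat_lit 1)) (.col (nat_lit 2))
def w22814 : Root := .mk (.node (.node (.col (nat_lit 1)) (.slot (nat_lit 0)) (.slot (nat_lit 0))) (.node (.node (.slot (nat_lit 0)) (.slot (nat_lit 0)) (.slot (nat_lit 0))) (.col (nat_lit 1)) (.col (nat_lit 2))) (.slot (nat_lit 1))) (.col (nat_lit 2)) (.col (nat_lit 1)) (.node .junk (.col (nat_lit 0)) (.slot (nat_lit 1)))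
def w22819 : Root := .mk (.node (.node (.col (nat_lit 1)) (.slot (nat_lit 0)) (.slot (nat_lit 0))) (.node (.slot (nat_lit 0)) (.col (nat_lit 1)) (.col (nat_lit 2))) (.node (.col (nat_lit 2)) (.slot (nat_lit 3)) (.slot (nat_lit 1)))) (.col (nat_lit 2)) (.col (nat_lit 1)) (.node .junk (.col (nat_lit 0)) (.slot (nat_lit 1)))
def w22821 : Root := .mk (.node (.node (.col (nat_lit 1)) (.col (nat_lit 0)) (.slot (nat_lit 0))) (.node (.node (.slot (nat_lit 0)) (.slot (nat_lit 0)) (.slot (nat_lit 0))) (.col (nat_lit 1)) (.col (nat_lit 2))) (.slot (nat_lit 1))) (.col (nat_lit 2)) (.col (nat_lit 1)) (.node .junk (.col (nat_lit 0)) (.slot (nat_lit 1)))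
def w22822 : Root := .mk (.col (nat_lit 1)) (.slot (nat_lit 0)) (.node (.node (.col (nat_lit 2)) (.col (nat_lit 1)) (.node .junk (.col (nat_lit 0)) (.slot (nat_lit 1)))) (.node (.node (.slot (nat_lit 0)) (.slot (nat_lit 0)) (.slot (nat_lit 0))) (.col (nat_lit 1)) (.col (nat_lit 2))) (.slot (nat_lit 1))) (.col (nat_lit 3))
def w22829 : Root := .mk (.col (nat_lit 1)) (.node (.col (nat_lit 1)) (.node (.col (nat_lit 2)) (.slot (nat_lit 1)) (.slot (nat_lit 1))) (.slot (nat_lit 2))) (.node (.slot (nat_lit 0)) (.slot (nat_lit 0)) (.col (nat_lit 1))) (.node (.col (nat_lit 0)) (.slot (nat_lit 20)) (.slot (nat_lit 9)))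
def w22843 : Root := .mk (.col (nat_lit 1)) (.col (nat_lit 2)) (.node (.node (.col (nat_lit 2)) (.node (.col (nat_lit 0)) (.node (.slot (nat_lit 0)) (.slot (nat_lit 0)) (.slot (nat_lit 0))) (.slot (nat_lit 1))) (.node (.slot (nat_lit 0)) (.col (nat_lit 0)) (.slot (nat_lit 1)))) (.node (.col (nat_lit 2)) (.col (nat_lit 1)) .junk) (.slot (nat_lit 1))) (.slot (nat_lit 0))
def w22850 : Root := .mk (.node (.node (.col (nat_lit 1)) (.node (.col (nat_lit 1)) (.node (.col (nat_lit 2)) (.slot (nat_lit 1)) (.slot (nat_lit 1))) (.slot (nat_lit 2))) (.slot (nat_lit 3))) (.node (.node (.slot (nat_lit 0)) (.slot (nat_lit 0)) (.slot (nat_lit 0))) (.slot (nat_lit 0)) (.slot (nat_lit 0))) (.node (.col (nat_lit 1)) (.slot (nat_lit 3)) (.slot (nat_lit 1)))) (.col (nat_lit 2)) (.slot (nat_lit 0)) (.slot (nat_lit 0))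

end Pool.Agent.W319.GCI.K5
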