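import Pool.Agent.W319.GCI.K5Base
set_option autoImplicit false
set_option maxRecDepth 100000
set_option linter.all false
namespace Pool.Agent.W319.GCI.K5
open Pool.Agent.W319.GCI

def w22851 : Root := .mk (.col (nat_lit 1)) (.col (nat_lit 2)) (.node (.node (.col (nat_lit 2)) (.node (.node (.col (nat_lit 2)) (.slot (nat_lit 1)) (.slot (nat_lit 0))) (.slot (nat_lit 5)) (.slot (nat_lit 5))) (.node (.slot (nat_lit 0)) (.slot (nat_lit 0)) (.slot (nat_lit 0)))) (.node (.slot (nat_lit 0)) (.slot (nat_lit 0)) (.slot (nat_lit 0))) (.slot (nat_lit 8))) (.slot (nat_lit 6))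
def l5106 : Root := .mk (.node (.col (nat_lit 1)) (.node (.node (.col (nat_lit 2)) (.node (.node (.col (nat_lit 2)) (.slot (nat_lit 1)) (.slot (nat_lit 0))) (.slot (nat_lit 5)) (.slot (nat_lit 5))) (.node (.slot (nat_lit 0)) (.slot (nat_lit 0)) (.slot (nat_lit 0)))) (.node (.slot (nat_lit 0)) (.slot (nat_lit 0)) (.slot (nat_lit 0))) (.slot (nat_lit 8))) (.slot (nat_lit 6))) (.col (nat_lit 1)) (.node (.col (nat_lit 2)) (.slot (nat_lit 8)) (.slot (nat_lit 8))) (.node (.col (nat_lit 2)) (.slot (nat_lit 8)) (.slot (nat_lit 8)))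
def w22852 : Root := .mk (.node (.node (.col (nat_lit 1)) (.node (.col (nat_lit 1)) (.node (.col (nat_lit 2)) (.slot (nat_lit 8)) (.slot (nat_lit 8))) (.slot (nat_lit 9))) (.slot (nat_lit 6))) (.node (.slot (nat_lit 0)) (.slot (nat_lit 0)) (.slot (nat_lit 0))) (.slot (nat_lit 8))) (.col (nat_lit 2)) (.node (.node (.col (nat_lit 2)) (.slot (nat_lit 1)) (.slot (nat_lit 0))) (.slot (nat_lit 5)) (.slot (nat_lit 5))) (.node (.slot (nat_lit 0)) (.slot (nat_lit 0)) (.slot (nat_lit 0)))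
def w22853 : Root := .mk (.node (.node (.col (nat_lit 1)) (.node (.col (nat_lit 1)) (.node (.col (nat_lit 2)) (.slot (nat_lit 8)) (.slot (nat_lit 8))) (.slot (nat_lit 10))) (.slot (nat_lit 5))) (.node (.col (nat_lit 2)) (.node (.slot (nat_lit 0)) (.slot (nat_lit 5)) (.slot (nat_lit 5))) (.slot (nat_lit 10))) (.slot (nat_lit 10))) (.slot (nat_lit 0)) (.col (nat_lit 2)) (.slot (nat_lit 0))
def l5107 : Root := .mk (.node (.node (.col (nat_lit 1)) (.node (.col (nat_lit 1)) (.node (.col (nat_lit 2)) (.slot (nat_lit 9)) (.slot (nat_lit 6))) (.slot (nat_lit 10))) (.slot (nat_lit 6))) (.node (.node (.slot (nat_lit 0)) (.slot (nat_lit 0)) (.slot (nat_lit 0))) (.slot (nat_lit 7)) (.slot (nat_lit 5))) (.slot (nat_lit 8))) (.col (nat_lit 2)) (.col (nat_lit 1)) (.slot (nat_lit 6))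
def w22854 : Root := .mk (.node (.node (.node (.col (nat_lit 1)) (.node (.col (nat_lit 1)) (.node (.col (nat_lit 2)) (.slot (nat_lit 9)) (.slot (nat_lit 6))) (.slot (nat_lit 10))) (.slot (nat_lit 6))) (.node (.node (.slot (nat_lit 0)) (.slot (nat_lit 0)) (.slot (nat_lit 0))) (.slot (nat_lit 7)) (.slot (nat_lit 5))) (.slot (nat_lit 8))) (.col (nat_lit 2)) (.slot (nat_lit 6))) (.slot (nat_lit 0)) (.col (nat_lit 2)) (.slot (nat_lit 0))
def w22855 : Root := .mk (.node (.node (.col (nat_lit 1)) (.node (.col (nat_lit 1)) (.node (.col (nat_lit 2)) (.slot (nat_lit 9)) (.slot (nat_lit 6))) (.slot (nat_lit 10))) (.slot (nat_lit 6))) (.node (.node (.slot (nat_lit 0)) (.slot (nat_lit 0)) (.slot (nat_lit 0))) (.slot (nat_lit 7)) (.slot (nat_lit 5))) (.slot (nat_lit 8))) (.col (nat_lit 2)) (.node (.slot (nat_lit 0)) (.slot (nat_lit 0)) (.slot (nat_lit 0))) (.slot (nat_lit 6))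
def l5108 : Root := .mk (.node (.col (nat_lit 1)) (.node (.node (.col (nat_lit 2)) (.node (.node (.col (nat_lit 2)) (.slot (nat_lit 12)) (.slot (nat_lit 10))) (.slot (nat_lit 8)) (.slot (nat_lit 8))) (.slot (nat_lit 10))) (.node (.node (.slot (nat_lit 0)) (.slot (nat_lit 0)) (.slot (nat_lit 0))) (.slot (nat_lit 8)) (.slot (nat_lit 8))) (.slot (nat_lit 10))) (.slot (nat_lit 22))) (.col (nat_lit 1)) (.node (.col (nat_lit 2)) (.slot (nat_lit 20)) (.slot (nat_lit 12))) (.slot (nat_lit 21))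
def w22856 : Root := .mk (.col (nat_lit 1)) (.node (.col (nat_lit 1)) (.slot (nat_lit 21)) (.slot (nat_lit 21))) (.node (.node (.col (nat_lit 2)) (.node (.node (.col (nat_lit 2)) (.slot (nat_lit 12)) (.slot (nat_lit 10))) (.slot (nat_lit 8)) (.slot (nat_lit 8))) (.slot (nat_lit 10))) (.node (.node (.slot (nat_lit 0)) (.slot (nat_lit 0)) (.slot (nat_lit 0))) (.slot (nat_lit 8)) (.slot (nat_lit 8))) (.slot (nat_lit 10))) (.slot (nat_lit 22))
def w22857 : Root := .mk (.node (.node (.col (nat_lit 1)) (.node (.col (nat_lit 1)) (.node (.col (nat_lit 2)) (.slot (nat_lit 3)) (.slot (nat_lit 1))) (.col (nat_lit 2))) (.slot (nat_lit 3))) (.col (nat_lit 1)) (.slot (nat_lit 3))) (.col (nat_lit 2)) (.node (.col (nat_lit 1)) (.slot (nat_lit 3)) (.slot (nat_lit 1))) (.col (nat_lit 1))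
def l5109 : Root := .mk (.node (.col (nat_lit 1)) (.node (.node (.col (nat_lit 2)) (.node (.col (nat_lit 1)) (.slot (nat_lit 8)) (.slot (nat_lit 8))) (.slot (nat_lit 8))) (.col (nat_lit 1)) (.slot (nat_lit 3))) (.slot (nat_lit 3))) (.col (nat_lit 1)) (.node (.col (nat_lit 2)) (.slot (nat_lit 3)) (.slot (nat_lit 1))) (.col (nat_lit 2))
def w22858 : Root := .mk (.node (.col (nat_lit 1)) (.node (.node (.col (nat_lit 2)) (.node (.col (nat_lit 1)) (.slot (nat_lit 8)) (.slot (nat_lit 8))) (.slot (nat_lit 8))) (.slot (nat_lit 1)) (.slot (nat_lit 3))) (.slot (nat_lit 3))) (.col (nat_lit 1)) (.node (.col (nat_lit 2)) (.slot (nat_lit 3)) (.slot (nat_lit 1))) (.col (nat_lit 2))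
def w22860 : Root := .mk (.node (.col (nat_lit 1)) (.node (.node (.col (nat_lit 2)) (.node (.col (nat_lit 1)) (.slot (nat_lit 1)) (.slot (nat_lit 1))) (.slot (nat_lit 2))) (.slot (nat_lit 1)) (.slot (nat_lit 1))) (.slot (nat_lit 2))) (.col (nat_lit 1)) (.node (.col (nat_lit 2)) (.slot (nat_lit 1)) (.slot (nat_lit 1))) (.node (.node (.col (nat_lit 0)) (.slot (nat_lit 0)) (.slot (nat_lit 0))) (.slot (nat_lit 1)) (.slot (nat_lit 1)))
def w22861 : Root := .mk (.node (.col (nat_lit 1)) (.node (.node (.col (nat_lit 2)) (.node (.col (nat_lit 1)) (.slot (nat_lit 1)) (.slot (nat_lit 1))) (.slot (nat_lit 2))) (.slot (nat_lit 1)) (.slot (nat_lit 1))) (.slot (nat_lit 2))) (.col (nat_lit 1)) (.node (.col (nat_lit 2)) (.slot (nat_lit 1)) (.slot (nat_lit 1))) (.node (.node (.col (nat_lit 2)) (.slot (nat_lit 0)) (.slot (nat_lit 0))) (.slot (nat_lit 2)) (.slot (nat_lit 1)))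
def w22862 : Root := .mk (.col (nat_lit 1)) (.node (.col (nat_lit 1)) (.node (.col (nat_lit 2)) (.slot (nat_lit 1)) (.slot (nat_lit 1))) (.slot (nat_lit 2))) (.node (.node (.col (nat_lit 2)) (.node (.col (nat_lit 1)) (.slot (nat_lit 1)) (.slot (nat_lit 1))) (.slot (nat_lit 2))) (.slot (nat_lit 1)) (.slot (nat_lit 1))) (.col (nat_lit 0))
def l5110 : Root := .mk (.node (.col (nat_lit 1)) (.node (.node (.col (nat_lit 2)) (.node (.col (nat_lit 1)) (.slot (nat_lit 1)) (.slot (nat_lit 1))) (.slot (nat_lit 2))) (.slot (nat_lit 3)) (.slot (nat_lit 1))) (.node (.col (nat_lit 1)) (.slot (nat_lit 3)) (.slot (nat_lit 1)))) (.col (nat_lit 1)) (.node (.col (nat_lit 2)) (.slot (nat_lit 8)) (.slot (nat_lit 8))) (.node (.col (nat_lit 2)) (.slot (nat_lit 8)) (.slot (nat_lit 8)))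
def w22863 : Root := .mk (.col (nat_lit 1)) (.node (.col (nat_lit 1)) (.node (.col (nat_lit 2)) (.slot (nat_lit 8)) (.slot (nat_lit 8))) (.slot (nat_lit 9))) (.node (.node (.col (nat_lit 2)) (.node (.col (nat_lit 1)) (.slot (nat_lit 1)) (.slot (nat_lit 1))) (.slot (nat_lit 2))) (.slot (nat_lit 3)) (.slot (nat_lit 1))) (.node (.col (nat_lit 1)) (.slot (nat_lit 3)) (.slot (nat_lit 1)))
def w22864 : Root := .mk (.col (nat_lit 1)) (.col (nat_lit 0)) (.node (.node (.col (nat_lit 2)) (.node (.col (nat_lit 1)) (.slot (nat_lit 1)) (.slot (nat_lit 1))) (.slot (nat_lit 2))) (.slot (nat_lit 1)) (.slot (nat_lit 1))) (.node (.node (.col (nat_lit 2)) (.slot (nat_lit 0)) (.slot (nat_lit 0))) (.slot (nat_lit 1)) (.slot (nat_lit 1)))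
def w22865 : Root := .mk (.col (nat_lit 1)) (.node (.col (nat_lit 1)) (.node (.col (nat_lit 2)) (.slot (nat_lit 1)) (.slot (nat_lit 1))) (.slot (nat_lit 2))) (.node (.node (.col (nat_lit 2)) (.node (.col (nat_lit 1)) (.slot (nat_lit 1)) (.slot (nat_lit 1))) (.slot (nat_lit 2))) (.slot (nat_lit 1)) (.slot (nat_lit 1))) (.node (.node (.col (nat_lit 2)) (.slot (nat_lit 0)) (.slot (nat_lit 0))) (.slot (nat_lit 1)) (.slot (nat_lit 1)))
def w22866 : Root := .mk (.node (.node (.col (nat_lit 1)) (.node (.node (.col (nat_lit 2)) (.node (.col (nat_lit 1)) (.slot (nat_lit 1)) (.slot (nat_lit 1))) (.slot (nat_lit 2))) (.slot (nat_lit 3)) (.slot (nat_lit 3))) (.slot (nat_lit 5))) (.col (nat_lit 1)) (.slot (nat_lit 4))) (.col (nat_lit 2)) (.col (nat_lit 1)) (.slot (nat_lit 5))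
def w22867 : Root := .mk (.node (.node (.col (nat_lit 1)) (.node (.node (.col (nat_lit 2)) (.node (.col (nat_lit 1)) (.slot (nat_lit 1)) (.slot (nat_lit 1))) (.slot (nat_lit 2))) (.slot (nat_lit 1)) (.slot (nat_lit 1))) (.slot (nat_lit 2))) (.col (nat_lit 1)) (.slot (nat_lit 2))) (.col (nat_lit 2)) (.node (.col (nat_lit 2)) (.slot (nat_lit 0)) (.slot (nat_lit 0))) (.slot (nat_lit 2))
def w22868 : Root := .mk (.node (.node (.col (nat_lit 1)) (.node (.col (nat_lit 1)) (.node (.col (nat_lit 2)) (.slot (nat_lit 1)) (.slot (nat_lit 1))) (.slot (nat_lit 2))) (.slot (nat_lit 2))) (.slot (nat_lit 1)) (.slot (nat_lit 1))) (.col (nat_lit 2)) (.node (.col (nat_lit 1)) (.slot (nat_lit 1)) (.slot (nat_lit 1))) (.node (.node (.col (nat_lit 0)) (.slot (nat_lit 0)) (.slot (nat_lit 0))) (.slot (nat_lit 1)) (.slot (nat_lit 1)))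
def w22869 : Root := .mk (.node (.node (.col (nat_lit 1)) (.node (.col (nat_lit 1)) (.node (.col (nat_lit 2)) (.slot (nat_lit 1)) (.slot (nat_lit 1))) (.slot (nat_lit 2))) (.slot (nat_lit 2))) (.slot (nat_lit 1)) (.slot (nat_lit 1))) (.col (nat_lit 2)) (.node (.col (nat_lit 1)) (.slot (nat_lit 1)) (.slot (nat_lit 1))) (.node (.node (.col (nat_lit 1)) (.slot (nat_lit 0)) (.slot (nat_lit 0))) (.slot (nat_lit 2)) (.slot (nat_lit 1)))
def w22870 : Root := .mk (.node (.node (.col (nat_lit 1)) (.node (.col (nat_lit 1)) (.slot (nat_lit 0)) (.slot (nat_lit 0))) (.slot (nat_lit 0))) (.node (.col (nat_lit 1)) (.slot (nat_lit 7)) (.slot (nat_lit 5))) (.slot (nat_lit 8))) (.col (nat_lit 2)) (.node (.col (nat_lit 1)) .junk (.slot (nat_lit 1))) (.col (nat_lit 0))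
def w22871 : Root := .mk (.node (.node (.col (nat_lit 1)) (.node (.col (nat_lit 1)) (.node (.col (nat_lit 2)) (.slot (nat_lit 1)) (.slot (nat_lit 1))) (.slot (nat_lit 2))) (.slot (nat_lit 3))) (.node (.col (nat_lit 3)) (.slot (nat_lit 3)) (.slot (nat_lit 1))) (.slot (nat_lit 8))) (.col (nat_lit 2)) (.slot (nat_lit 0)) (.col (nat_lit 0))
def w22872 : Root := .mk (.node (.node (.node (.col (nat_lit 1)) (.node (.col (nat_lit 1)) (.node (.col (nat_lit 2)) (.slot (nat_lit 3)) (.slot (nat_lit 3))) (.slot (nat_lit 5))) (.slot (nat_lit 4))) (.slot (nat_lit 1)) (.slot (nat_lit 5))) (.col (nat_lit 2)) (.col (nat_lit 0))) (.col (nat_lit 1)) (.col (nat_lit 2)) (.col (nat_lit 0))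
def w22873 : Root := .mk (.node (.node (.col (nat_lit 1)) (.node (.col (nat_lit 1)) (.node (.col (nat_lit 2)) (.slot (nat_lit 1)) (.slot (nat_lit 1))) (.slot (nat_lit 2))) (.slot (nat_lit 2))) (.slot (nat_lit 1)) (.slot (nat_lit 1))) (.col (nat_lit 2)) (.node (.col (nat_lit 1)) .junk (.node (.col (nat_lit 1)) (.slot (nat_lit 0)) (.slot (nat_lit 0)))) (.col (nat_lit 0))
def w22874 : Root := .mk (.node (.node (.node (.col (nat_lit 1)) (.node (.col (nat_lit 1)) (.node (.col (nat_lit 2)) (.slot (nat_lit 1)) (.slot (nat_lit 1))) (.slot (nat_lit 2))) (.slot (nat_lit 1))) (.slot (nat_lit 1)) (.slot (nat_lit 3))) (.col (nat_lit 2)) (.col (nat_lit 0))) (.col (nat_lit 1)) (.col (nat_lit 2)) (.node (.col (nat_lit 2)) (.slot (nat_lit 1)) (.slot (nat_lit 1)))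
def w22875 : Root := .mk (.node (.node (.col (nat_lit 1)) (.node (.col (nat_lit 1)) (.node (.col (nat_lit 2)) (.slot (nat_lit 1)) (.slot (nat_lit 1))) (.slot (nat_lit 2))) (.slot (nat_lit 2))) (.slot (nat_lit 1)) (.slot (nat_lit 1))) (.col (nat_lit 2)) (.node (.col (nat_lit 1)) .junk (.node (.slot (nat_lit 0)) (.slot (nat_lit 0)) (.slot (nat_lit 0)))) (.col (nat_lit 0))
def l5111 : Root := .mk (.node (.node (.col (nat_lit 1)) (.node (.col (nat_lit 1)) (.node (.col (nat_lit 2)) (.slot (nat_lit 7)) (.slot (nat_lit 5))) (.slot (nat_lit 10))) (.slot (nat_lit 8))) (.slot (nat_lit 20)) (.slot (nat_lit 9))) (.col (nat_lit 2)) (.node (.col (nat_lit 1)) (.col (nat_lit 2)) (.slot (nat_lit 8))) (.col (nat_lit 0))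
def w22876 : Root := .mk (.node (.node (.node (.col (nat_lit 1)) (.node (.col (nat_lit 1)) (.node (.col (nat_lit 2)) (.slot (nat_lit 7)) (.slot (nat_lit 5))) (.slot (nat_lit 10))) (.slot (nat_lit 8))) (.slot (nat_lit 20)) (.slot (nat_lit 9))) (.col (nat_lit 2)) (.slot (nat_lit 1))) (.col (nat_lit 1)) (.col (nat_lit 2)) (.slot (nat_lit 8))
def w22877 : Root := .mk (.node (.node (.node (.col (nat_lit 1)) (.node (.col (nat_lit 1)) (.node (.col (nat_lit 2)) (.slot (nat_lit 1)) (.slot (nat_lit 1))) (.slot (nat_lit 2))) (.slot (nat_lit 2))) (.slot (nat_lit 1)) (.slot (nat_lit 1))) (.col (nat_lit 2)) (.slot (nat_lit 2))) (.col (nat_lit 1)) (.node (.col (nat_lit 1)) (.slot (nat_lit 0)) (.slot (nat_lit 0))) (.slot (nat_lit 2))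
def l5112 : Root := .mk (.node (.col (nat_lit 1)) (.node (.node (.col (nat_lit 2)) (.node (.col (nat_lit 1)) (.slot (nat_lit 20)) (.slot (nat_lit 12))) (.slot (nat_lit 21))) (.slot (nat_lit 20)) (.slot (nat_lit 9))) (.slot (nat_lit 23))) (.col (nat_lit 1)) (.node (.col (nat_lit 2)) (.slot (nat_lit 20)) (.slot (nat_lit 12))) (.slot (nat_lit 21))
def w22878 : Root := .mk (.node (.node (.col (nat_lit 1)) (.node (.col (nat_lit 1)) (.slot (nat_lit 21)) (.slot (nat_lit 21))) (.slot (nat_lit 23))) (.slot (nat_lit 20)) (.slot (nat_lit 9))) (.col (nat_lit 2)) (.node (.col (nat_lit 1)) (.slot (nat_lit 20)) (.slot (nat_lit 12))) (.slot (nat_lit 21))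
def w22879 : Root := .mk (.node (.node (.node (.node (.col (nat_lit 1)) (.slot (nat_lit 0)) (.slot (nat_lit 0))) (.slot (nat_lit 7)) (.slot (nat_lit 5))) (.col (nat_lit 2)) (.slot (nat_lit 10))) (.col (nat_lit 2)) (.slot (nat_lit 8))) (.col (nat_lit 2)) (.node (.col (nat_lit 0)) (.slot (nat_lit 7)) (.slot (nat_lit 5))) (.slot (nat_lit 10))
def w22880 : Root := .mk (.node (.node (.node (.col (nat_lit 1)) (.node (.col (nat_lit 1)) (.slot (nat_lit 0)) (.slot (nat_lit 0))) (.slot (nat_lit 3))) (.node (.node (.col (nat_lit 3)) (.slot (nat_lit 12)) (.slot (nat_lit 10))) (.slot (nat_lit 7)) (.slot (nat_lit 5))) (.slot (nat_lit 8))) (.col (nat_lit 2)) (.slot (nat_lit 8))) (.col (nat_lit 0)) (.col (nat_lit 2)) (.slot (nat_lit 2))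
def l5113 : Root := .mk (.node (.node (.node (.col (nat_lit 1)) (.node (.col (nat_lit 1)) (.slot (nat_lit 0)) (.slot (nat_lit 0))) (.slot (nat_lit 2))) (.col (nat_lit 0)) (.slot (nat_lit 2))) (.slot (nat_lit 5)) (.slot (nat_lit 5))) (.col (nat_lit 3)) (.node (.col (nat_lit 1)) (.slot (nat_lit 20)) (.slot (nat_lit 9))) (.col (nat_lit 0))
def w22881 : Root := .mk (.node (.node (.node (.col (nat_lit 1)) (.node (.col (nat_lit 1)) (.slot (nat_lit 0)) (.slot (nat_lit 0))) (.slot (nat_lit 2))) (.col (nat_lit 0)) (.slot (nat_lit 2))) (.slot (nat_lit 5)) (.slot (nat_lit 5))) (.col (nat_lit 3)) (.node (.col (nat_lit 1)) (.slot (nat_lit 20)) (.slot (nat_lit 9))) (.node (.slot (nat_lit 0)) (.slot (nat_lit 0)) (.slot (nat_lit 0)))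
def w22882 : Root := .mk (.node (.col (nat_lit 1)) (.node (.col (nat_lit 1)) (.slot (nat_lit 3)) (.slot (nat_lit 1))) (.slot (nat_lit 2))) (.col (nat_lit 0)) (.node (.node (.col (nat_lit 3)) (.node (.col (nat_lit 1)) (.slot (nat_lit 3)) (.slot (nat_lit 1))) (.slot (nat_lit 4))) (.node (.col (nat_lit 1)) (.slot (nat_lit 4)) (.slot (nat_lit 4))) (.slot (nat_lit 1))) (.slot (nat_lit 4))
def w22883 : Root := .mk (.node (.node (.node (.node (.col (nat_lit 1)) (.node (.col (nat_lit 1)) (.slot (nat_lit 0)) (.slot (nat_lit 0))) (.slot (nat_lit 2))) (.col (nat_lit 0)) (.slot (nat_lit 2))) (.slot (nat_lit 7)) (.slot (nat_lit 5))) (.col (nat_lit 3)) (.slot (nat_lit 1))) (.col (nat_lit 1)) (.col (nat_lit 3)) (.slot (nat_lit 8))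
def w22884 : Root := .mk (.node (.node (.node (.col (nat_lit 1)) (.node (.col (nat_lit 1)) (.slot (nat_lit 0)) (.slot (nat_lit 0))) (.slot (nat_lit 2))) (.col (nat_lit 0)) (.slot (nat_lit 2))) (.col (nat_lit 0)) (.slot (nat_lit 1))) (.col (nat_lit 3)) (.node (.col (nat_lit 1)) (.node (.col (nat_lit 1)) (.slot (nat_lit 0)) (.slot (nat_lit 0))) (.slot (nat_lit 1))) (.col (nat_lit 0))
def l5114 : Root := .mk (.node (.node (.node (.col (nat_lit 1)) (.node (.col (nat_lit 1)) (.slot (nat_lit 0)) (.slot (nat_lit 0))) (.slot (nat_lit 2))) (.col (nat_lit 0)) (.slot (nat_lit 2))) (.slot (nat_lit 3)) (.slot (nat_lit 3))) (.col (nat_lit 3)) (.node (.col (nat_lit 1)) (.node (.col (nat_lit 1)) (.slot (nat_lit 4)) (.slot (nat_lit 1))) (.slot (nat_lit 8))) (.col (nat_lit 0))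
def w22885 : Root := .mk (.node (.node (.node (.node (.col (nat_lit 1)) (.node (.col (nat_lit 1)) (.slot (nat_lit 0)) (.slot (nat_lit 0))) (.slot (nat_lit 2))) (.col (nat_lit 0)) (.slot (nat_lit 2))) (.slot (nat_lit 3)) (.slot (nat_lit 3))) (.col (nat_lit 3)) (.slot (nat_lit 1))) (.col (nat_lit 1)) (.node (.col (nat_lit 1)) (.slot (nat_lit 4)) (.slot (nat_lit 1))) (.slot (nat_lit 8))
def w22886 : Root := .mk (.node (.col (nat_lit 1)) (.node (.col (nat_lit 1)) (.col (nat_lit 3)) (.slot (nat_lit 2))) (.slot (nat_lit 2))) (.col (nat_lit 0)) (.node (.node (.col (nat_lit 3)) (.node (.col (nat_lit 1)) (.slot (nat_lit 1)) (.slot (nat_lit 1))) (.slot (nat_lit 2))) (.slot (nat_lit 1)) (.slot (nat_lit 1))) (.col (nat_lit 1))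
def w22887 : Root := .mk (.node (.col (nat_lit 1)) (.node (.col (nat_lit 1)) (.col (nat_lit 4)) (.slot (nat_lit 2))) (.slot (nat_lit 2))) (.col (nat_lit 0)) (.node (.node (.col (nat_lit 3)) (.node (.col (nat_lit 1)) (.slot (nat_lit 1)) (.slot (nat_lit 1))) (.slot (nat_lit 2))) (.slot (nat_lit 1)) (.slot (nat_lit 1))) (.col (nat_lit 1))
def w22888 : Root := .mk (.node (.col (nat_lit 1)) (.node (.col (nat_lit 0)) (.node (.node (.col (nat_lit 3)) (.node (.col (nat_lit 1)) (.slot (nat_lit 1)) (.slot (nat_lit 1))) (.slot (nat_lit 2))) (.slot (nat_lit 1)) (.slot (nat_lit 0))) (.col (nat_lit 1))) (.slot (nat_lit 3))) (.col (nat_lit 1)) (.node (.col (nat_lit 2)) (.slot (nat_lit 3)) (.slot (nat_lit 1))) (.col (nat_lit 2))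
def w22889 : Root := .mk (.node (.col (nat_lit 1)) (.node (.col (nat_lit 1)) (.node (.col (nat_lit 2)) (.slot (nat_lit 1)) (.slot (nat_lit 1))) (.node (.slot (nat_lit 0)) (.slot (nat_lit 0)) (.slot (nat_lit 0)))) (.slot (nat_lit 2))) (.col (nat_lit 0)) (.node (.node (.col (nat_lit 3)) (.node (.col (nat_lit 1)) (.slot (nat_lit 1)) (.slot (nat_lit 1))) (.slot (nat_lit 2))) (.slot (nat_lit 1)) (.slot (nat_lit 1))) (.col (nat_lit 1))
def w22890 : Root := .mk (.col (nat_lit 1)) (.node (.col (nat_lit 1)) (.node (.col (nat_lit 2)) (.slot (nat_lit 3)) (.slot (nat_lit 1))) (.slot (nat_lit 1))) (.node (.col (nat_lit 0)) (.node (.node (.col (nat_lit 3)) (.node (.col (nat_lit 1)) (.slot (nat_lit 1)) (.slot (nat_lit 1))) (.slot (nat_lit 2))) (.slot (nat_lit 1)) (.slot (nat_lit 0))) (.col (nat_lit 1))) (.col (nat_lit 0))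
def w22891 : Root := .mk (.col (nat_lit 1)) (.col (nat_lit 3)) (.node (.col (nat_lit 0)) (.node (.node (.col (nat_lit 3)) (.node (.col (nat_lit 1)) (.slot (nat_lit 13)) (.slot (nat_lit 13))) (.slot (nat_lit 8))) (.slot (nat_lit 9)) (.slot (nat_lit 8))) (.col (nat_lit 1))) (.node (.col (nat_lit 1)) (.slot (nat_lit 0)) (.slot (nat_lit 0)))
def w22892 : Root := .mk (.node (.col (nat_lit 1)) (.node (.col (nat_lit 1)) (.node (.col (nat_lit 2)) (.slot (nat_lit 1)) (.slot (nat_lit 1))) (.slot (nat_lit 2))) (.node (.col (nat_lit 1)) (.slot (nat_lit 0)) (.slot (nat_lit 0)))) (.col (nat_lit 0)) (.node (.node (.col (nat_lit 3)) (.node (.col (nat_lit 1)) (.slot (nat_lit 13)) (.slot (nat_lit 13))) (.slot (nat_lit 8))) (.slot (nat_lit 9)) (.slot (nat_lit 8))) (.col (nat_lit 1))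
def w22893 : Root := .mk (.node (.col (nat_lit 1)) (.node (.col (nat_lit 1)) (.node (.col (nat_lit 2)) (.col (nat_lit 1)) (.slot (nat_lit 3))) (.slot (nat_lit 1))) (.slot (nat_lit 3))) (.col (nat_lit 0)) (.node (.node (.col (nat_lit 3)) (.node (.col (nat_lit 1)) (.slot (nat_lit 1)) (.slot (nat_lit 1))) (.slot (nat_lit 2))) (.slot (nat_lit 1)) (.slot (nat_lit 0))) (.col (nat_lit 1))
def w22894 : Root := .mk (.node (.col (nat_lit 1)) (.node (.col (nat_lit 1)) (.node (.col (nat_lit 2)) (.node (.col (nat_lit 2)) (.slot (nat_lit 0)) (.slot (nat_lit 0))) (.slot (nat_lit 2))) (.slot (nat_lit 2))) (.slot (nat_lit 8))) (.col (nat_lit 0)) (.node (.slot (nat_lit 0)) (.slot (nat_lit 1)) (.slot (nat_lit 1))) (.col (nat_lit 1))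
def w22895 : Root := .mk (.node (.col (nat_lit 1)) (.node (.col (nat_lit 1)) (.node (.col (nat_lit 2)) (.slot (nat_lit 1)) (.slot (nat_lit 1))) (.slot (nat_lit 2))) (.slot (nat_lit 1))) (.col (nat_lit 0)) (.node (.node (.col (nat_lit 3)) (.node (.col (nat_lit 1)) (.slot (nat_lit 1)) (.slot (nat_lit 1))) (.slot (nat_lit 2))) (.col (nat_lit 0)) (.slot (nat_lit 1))) (.col (nat_lit 1))
def l5115 : Root := .mk (.node (.col (nat_lit 1)) (.node (.col (nat_lit 1)) (.node (.col (nat_lit 2)) (.slot (nat_lit 20)) (.slot (nat_lit 12))) (.slot (nat_lit 21))) (.slot (nat_lit 8))) (.col (nat_lit 0)) (.node (.node (.col (nat_lit 3)) (.node (.col (nat_lit 1)) (.slot (nat_lit 13)) (.slot (nat_lit 13))) (.slot (nat_lit 8))) (.slot (nat_lit 9)) (.slot (nat_lit 8))) (.col (nat_lit 1))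
def w22896 : Root := .mk (.node (.col (nat_lit 1)) (.node (.col (nat_lit 1)) (.slot (nat_lit 21)) (.slot (nat_lit 21))) (.slot (nat_lit 8))) (.col (nat_lit 0)) (.node (.node (.col (nat_lit 3)) (.node (.col (nat_lit 1)) (.slot (nat_lit 13)) (.slot (nat_lit 13))) (.slot (nat_lit 8))) (.slot (nat_lit 9)) (.slot (nat_lit 8))) (.col (nat_lit 1))
def w22897 : Root := .mk (.node (.col (nat_lit 1)) (.node (.col (nat_lit 1)) (.slot (nat_lit 0)) (.slot (nat_lit 0))) (.slot (nat_lit 3))) (.col (nat_lit 0)) (.node (.node (.col (nat_lit 3)) (.node (.col (nat_lit 1)) (.slot (nat_lit 7)) (.slot (nat_lit 5))) (.slot (nat_lit 8))) (.slot (nat_lit 8)) (.slot (nat_lit 8))) (.node (.col (nat_lit 0)) (.slot (nat_lit 0)) (.slot (nat_lit 0)))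
def l5116 : Root := .mk (.col (nat_lit 1)) (.col (nat_lit 3)) (.node (.col (nat_lit 0)) (.node (.node (.col (nat_lit 3)) (.slot (nat_lit 0)) (.slot (nat_lit 0))) (.slot (nat_lit 2)) (.slot (nat_lit 1))) (.node (.col (nat_lit 3)) (.slot (nat_lit 3)) (.slot (nat_lit 1)))) (.slot (nat_lit 8))
def w22898 : Root := .mk (.node (.col (nat_lit 1)) (.node (.col (nat_lit 1)) (.slot (nat_lit 0)) (.slot (nat_lit 0))) (.slot (nat_lit 8))) (.col (nat_lit 0)) (.node (.node (.col (nat_lit 3)) (.slot (nat_lit 0)) (.slot (nat_lit 0))) (.slot (nat_lit 2)) (.slot (nat_lit 1))) (.node (.col (nat_lit 3)) (.slot (nat_lit 3)) (.slot (nat_lit 1)))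
def w22899 : Root := .mk (.node (.col (nat_lit 1)) (.node (.col (nat_lit 1)) (.slot (nat_lit 0)) (.slot (nat_lit 0))) (.slot (nat_lit 3))) (.col (nat_lit 0)) (.node (.node (.col (nat_lit 3)) (.node (.col (nat_lit 1)) (.slot (nat_lit 7)) (.slot (nat_lit 5))) (.slot (nat_lit 8))) (.slot (nat_lit 8)) (.slot (nat_lit 8))) (.node (.slot (nat_lit 0)) (.slot (nat_lit 0)) (.slot (nat_lit 0)))
def l5117 : Root := .mk (.node (.node (.node (.col (nat_lit 1)) (.node (.col (nat_lit 1)) (.slot (nat_lit 21)) (.slot (nat_lit 21))) (.slot (nat_lit 8))) (.col (nat_lit 0)) (.slot (nat_lit 9))) (.slot (nat_lit 20)) (.slot (nat_lit 12))) (.col (nat_lit 3)) (.node (.col (nat_lit 1)) (.slot (nat_lit 13)) (.slot (nat_lit 20))) (.slot (nat_lit 21))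
def w22900 : Root := .mk (.node (.col (nat_lit 1)) (.node (.col (nat_lit 1)) (.slot (nat_lit 21)) (.slot (nat_lit 21))) (.slot (nat_lit 8))) (.col (nat_lit 0)) (.node (.node (.col (nat_lit 3)) (.slot (nat_lit 21)) (.slot (nat_lit 21))) (.slot (nat_lit 20)) (.slot (nat_lit 12))) (.slot (nat_lit 9))
def w22901 : Root := .mk (.node (.col (nat_lit 1)) (.node (.node (.col (nat_lit 2)) (.node (.col (nat_lit 0)) (.col (nat_lit 2)) (.slot (nat_lit 1))) (.slot (nat_lit 1))) (.col (nat_lit 1)) (.slot (nat_lit 1))) (.slot (nat_lit 3))) (.col (nat_lit 1)) (.node (.col (nat_lit 2)) (.slot (nat_lit 3)) (.slot (nat_lit 1))) (.col (nat_lit 2))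
def w22902 : Root := .mk (.node (.col (nat_lit 1)) (.node (.node (.col (nat_lit 2)) (.node (.col (nat_lit 0)) (.col (nat_lit 2)) (.slot (nat_lit 8))) (.slot (nat_lit 8))) (.col (nat_lit 1)) (.slot (nat_lit 8))) (.slot (nat_lit 5))) (.col (nat_lit 1)) (.node (.col (nat_lit 2)) (.slot (nat_lit 7)) (.slot (nat_lit 5))) (.node (.slot (nat_lit 0)) (.slot (nat_lit 0)) (.slot (nat_lit 0)))
def w22903 : Root := .mk (.col (nat_lit 1)) (.node (.col (nat_lit 1)) (.node (.col (nat_lit 2)) (.slot (nat_lit 0)) (.slot (nat_lit 0))) (.slot (nat_lit 3))) (.node (.node (.col (nat_lit 2)) (.node (.col (nat_lit 0)) (.col (nat_lit 2)) (.slot (nat_lit 2))) (.slot (nat_lit 8))) (.col (nat_lit 1)) (.slot (nat_lit 3))) (.col (nat_lit 0))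
def w22904 : Root := .mk (.col (nat_lit 1)) (.node (.col (nat_lit 1)) (.node (.col (nat_lit 2)) (.slot (nat_lit 1)) (.slot (nat_lit 1))) (.slot (nat_lit 2))) (.node (.node (.col (nat_lit 2)) (.node (.col (nat_lit 0)) (.col (nat_lit 2)) (.slot (nat_lit 0))) (.slot (nat_lit 1))) (.col (nat_lit 1)) (.slot (nat_lit 2))) (.node .junk (.col (nat_lit 2)) (.slot (nat_lit 1)))
def w22905 : Root := .mk (.col (nat_lit 1)) (.col (nat_lit 4)) (.node (.node (.col (nat_lit 2)) (.node (.col (nat_lit 0)) (.col (nat_lit 2)) (.slot (nat_lit 1))) (.slot (nat_lit 1))) (.col (nat_lit 1)) (.slot (nat_lit 1))) (.node .junk (.node (.col (nat_lit 3)) (.slot (nat_lit 0)) (.slot (nat_lit 0))) (.col (nat_lit 3)))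
def w22906 : Root := .mk (.col (nat_lit 1)) (.node (.col (nat_lit 1)) (.node (.col (nat_lit 2)) (.slot (nat_lit 1)) (.slot (nat_lit 1))) (.slot (nat_lit 2))) (.node (.node (.col (nat_lit 2)) (.node (.col (nat_lit 0)) (.col (nat_lit 2)) (.slot (nat_lit 1))) (.slot (nat_lit 1))) (.col (nat_lit 1)) (.slot (nat_lit 1))) (.node .junk (.node (.col (nat_lit 3)) (.slot (nat_lit 0)) (.slot (nat_lit 0))) (.col (nat_lit 3)))
def l5118 : Root := .mk (.node (.col (nat_lit 1)) (.col (nat_lit 3)) (.node (.node (.col (nat_lit 2)) (.node (.col (nat_lit 0)) (.col (nat_lit 2)) (.slot (nat_lit 1))) (.slot (nat_lit 1))) (.col (nat_lit 1)) (.slot (nat_lit 1)))) (.col (nat_lit 1)) (.node (.col (nat_lit 3)) (.slot (nat_lit 3)) (.slot (nat_lit 3))) (.col (nat_lit 0))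
def w22907 : Root := .mk (.col (nat_lit 1)) (.col (nat_lit 3)) (.node (.node (.col (nat_lit 2)) (.node (.col (nat_lit 0)) (.col (nat_lit 2)) (.slot (nat_lit 1))) (.slot (nat_lit 1))) (.col (nat_lit 1)) (.slot (nat_lit 1))) (.node (.col (nat_lit 1)) (.node (.col (nat_lit 3)) (.slot (nat_lit 3)) (.slot (nat_lit 3))) (.node (.slot (nat_lit 0)) (.slot (nat_lit 0)) (.slot (nat_lit 0))))
def w22908 : Root := .mk (.node (.col (nat_lit 1)) (.node (.col (nat_lit 1)) (.node (.col (nat_lit 2)) (.slot (nat_lit 1)) (.slot (nat_lit 1))) (.slot (nat_lit 2))) (.node (.node (.col (nat_lit 2)) (.node (.col (nat_lit 0)) (.col (nat_lit 2)) (.slot (nat_lit 1))) (.slot (nat_lit 1))) (.col (nat_lit 1)) (.slot (nat_lit 1)))) (.col (nat_lit 1)) (.node (.col (nat_lit 3)) (.slot (nat_lit 3)) (.slot (nat_lit 3))) (.node (.slot (nat_lit 0)) (.slot (nat_lit 0)) (.slot (nat_lit 0)))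
def w22909 : Root := .mk (.node (.node (.col (nat_lit 1)) (.node (.col (nat_lit 1)) (.node (.col (nat_lit 2)) (.slot (nat_lit 1)) (.slot (nat_lit 1))) (.slot (nat_lit 2))) (.node (.slot (nat_lit 0)) (.col (nat_lit 1)) (.slot (nat_lit 0)))) (.col (nat_lit 1)) (.slot (nat_lit 10))) (.col (nat_lit 3)) (.col (nat_lit 1)) (.slot (nat_lit 4))
def w22910 : Root := .mk (.node (.col (nat_lit 1)) (.node (.node (.col (nat_lit 2)) (.slot (nat_lit 0)) (.slot (nat_lit 1))) (.col (nat_lit 1)) (.slot (nat_lit 5))) (.node (.col (nat_lit 1)) (.node (.col (nat_lit 3)) (.slot (nat_lit 1)) (.slot (nat_lit 1))) (.slot (nat_lit 2)))) (.col (nat_lit 1)) (.col (nat_lit 3)) (.slot (nat_lit 1))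
def w22911 : Root := .mk (.node (.col (nat_lit 1)) (.node (.node (.col (nat_lit 2)) (.node (.col (nat_lit 0)) (.col (nat_lit 2)) (.slot (nat_lit 1))) (.slot (nat_lit 2))) (.col (nat_lit 1)) (.slot (nat_lit 2))) (.node (.col (nat_lit 1)) (.node (.col (nat_lit 3)) (.slot (nat_lit 1)) (.slot (nat_lit 1))) (.slot (nat_lit 1)))) (.col (nat_lit 1)) (.node (.col (nat_lit 2)) (.slot (nat_lit 0)) (.slot (nat_lit 0))) (.col (nat_lit 2))
def w22912 : Root := .mk (.node (.col (nat_lit 1)) (.node (.node (.col (nat_lit 2)) (.node (.col (nat_lit 0)) (.col (nat_lit 2)) (.slot (nat_lit 1))) (.slot (nat_lit 2))) (.col (nat_lit 1)) (.slot (nat_lit 2))) (.node (.col (nat_lit 1)) (.node (.col (nat_lit 3)) (.slot (nat_lit 7)) (.slot (nat_lit 5))) (.slot (nat_lit 8)))) (.col (nat_lit 1)) (.slot (nat_lit 0)) (.slot (nat_lit 0))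
def l5119 : Root := .mk (.col (nat_lit 1)) (.node (.col (nat_lit 1)) (.node (.col (nat_lit 2)) (.slot (nat_lit 20)) (.slot (nat_lit 12))) (.slot (nat_lit 21))) (.node (.node (.col (nat_lit 2)) (.node (.col (nat_lit 0)) (.col (nat_lit 2)) (.slot (nat_lit 3))) (.slot (nat_lit 8))) (.col (nat_lit 1)) (.slot (nat_lit 8))) (.node (.col (nat_lit 1)) (.node (.col (nat_lit 3)) (.slot (nat_lit 20)) (.slot (nat_lit 12))) (.slot (nat_lit 21)))
def w22913 : Root := .mk (.col (nat_lit 1)) (.node (.col (nat_lit 1)) (.node (.col (nat_lit 2)) (.slot (nat_lit 20)) (.slot (nat_lit 12))) (.slot (nat_lit 21))) (.node (.node (.col (nat_lit 2)) (.node (.col (nat_lit 0)) (.col (nat_lit 2)) (.slot (nat_lit 3))) (.slot (nat_lit 8))) (.col (nat_lit 1)) (.slot (nat_lit 8))) (.node (.col (nat_lit 1)) (.slot (nat_lit 21)) (.slot (nat_lit 21)))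
def l5120 : Root := .mk (.node (.col (nat_lit 1)) (.node (.col (nat_lit 1)) (.node (.col (nat_lit 2)) (.col (nat_lit 1)) (.slot (nat_lit 3))) (.slot (nat_lit 1))) (.slot (nat_lit 3))) (.node (.col (nat_lit 2)) (.node (.col (nat_lit 0)) (.col (nat_lit 2)) (.slot (nat_lit 2))) (.slot (nat_lit 8))) (.col (nat_lit 1)) (.node (.col (nat_lit 2)) (.slot (nat_lit 8)) (.slot (nat_lit 8)))
def w22914 : Root := .mk (.node (.node (.col (nat_lit 1)) (.node (.node (.col (nat_lit 2)) (.node (.col (nat_lit 0)) (.col (nat_lit 2)) (.slot (nat_lit 2))) (.slot (nat_lit 8))) (.col (nat_lit 1)) (.slot (nat_lit 9))) (.slot (nat_lit 3))) (.col (nat_lit 1)) (.slot (nat_lit 1))) (.col (nat_lit 2)) (.col (nat_lit 1)) (.slot (nat_lit 3))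
def w22915 : Root := .mk (.col (nat_lit 1)) (.node (.col (nat_lit 1)) (.node (.col (nat_lit 2)) (.node (.col (nat_lit 2)) (.slot (nat_lit 0)) (.slot (nat_lit 0))) (.slot (nat_lit 2))) (.slot (nat_lit 2))) (.node (.node (.col (nat_lit 2)) (.node (.col (nat_lit 0)) .junk (.col (nat_lit 3))) (.slot (nat_lit 1))) (.col (nat_lit 1)) (.slot (nat_lit 1))) (.col (nat_lit 3))
def l5121 : Root := .mk (.node (.node (.node (.col (nat_lit 1)) (.node (.col (nat_lit 1)) (.node (.col (nat_lit 2)) (.node (.col (nat_lit 2)) (.slot (nat_lit 0)) (.slot (nat_lit 0))) (.slot (nat_lit 2))) (.slot (nat_lit 2))) (.col (nat_lit 3))) (.col (nat_lit 1)) (.slot (nat_lit 3))) (.col (nat_lit 2)) (.slot (nat_lit 2))) (.col (nat_lit 0)) (.col (nat_lit 2)) (.node (.col (nat_lit 4)) (.slot (nat_lit 20)) (.slot (nat_lit 9)))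
def w22916 : Root := .mk (.col (nat_lit 1)) (.node (.col (nat_lit 1)) (.node (.col (nat_lit 2)) (.node (.col (nat_lit 2)) (.slot (nat_lit 0)) (.slot (nat_lit 0))) (.slot (nat_lit 2))) (.slot (nat_lit 2))) (.node (.node (.col (nat_lit 2)) (.node (.col (nat_lit 0)) (.col (nat_lit 2)) (.slot (nat_lit 21))) (.slot (nat_lit 2))) (.col (nat_lit 1)) (.slot (nat_lit 3))) (.col (nat_lit 3))
def w22917 : Root := .mk (.node (.col (nat_lit 1)) (.node (.node (.col (nat_lit 2)) (.slot (nat_lit 0)) (.slot (nat_lit 0))) (.col (nat_lit 1)) (.slot (nat_lit 2))) (.node (.col (nat_lit 0)) (.slot (nat_lit 7)) (.slot (nat_lit 5)))) (.col (nat_lit 1)) (.node (.col (nat_lit 2)) (.slot (nat_lit 0)) (.slot (nat_lit 1))) (.node (.col (nat_lit 0)) (.slot (nat_lit 1)) (.slot (nat_lit 1)))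
def w22919 : Root := .mk (.node (.col (nat_lit 1)) (.node (.node (.col (nat_lit 2)) (.slot (nat_lit 0)) (.slot (nat_lit 0))) (.col (nat_lit 1)) (.slot (nat_lit 2))) (.node (.col (nat_lit 0)) (.slot (nat_lit 7)) (.slot (nat_lit 5)))) (.col (nat_lit 1)) (.node (.col (nat_lit 2)) (.slot (nat_lit 0)) (.slot (nat_lit 1))) (.node (.col (nat_lit 3)) (.slot (nat_lit 1)) (.slot (nat_lit 1)))
def w22920 : Root := .mk (.node (.col (nat_lit 1)) (.node (.node (.col (nat_lit 2)) (.node (.col (nat_lit 0)) (.col (nat_lit 2)) (.slot (nat_lit 1))) (.slot (nat_lit 2))) (.col (nat_lit 1)) (.slot (nat_lit 2))) (.node (.col (nat_lit 0)) (.slot (nat_lit 20)) (.slot (nat_lit 9)))) (.col (nat_lit 1)) (.slot (nat_lit 0)) (.slot (nat_lit 0))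
def w22921 : Root := .mk (.node (.col (nat_lit 1)) (.node (.col (nat_lit 1)) (.node (.col (nat_lit 2)) (.node (.col (nat_lit 2)) (.slot (nat_lit 0)) (.slot (nat_lit 0))) (.slot (nat_lit 2))) (.slot (nat_lit 2))) (.node (.col (nat_lit 0)) (.slot (nat_lit 1)) (.slot (nat_lit 1)))) (.col (nat_lit 3)) (.col (nat_lit 1)) (.slot (nat_lit 1))
def w22922 : Root := .mk (.node (.col (nat_lit 1)) (.node (.col (nat_lit 1)) (.node (.col (nat_lit 2)) (.node (.col (nat_lit 2)) (.slot (nat_lit 0)) (.slot (nat_lit 0))) (.slot (nat_lit 2))) (.slot (nat_lit 2))) (.node (.col (nat_lit 0)) (.slot (nat_lit 1)) (.slot (nat_lit 1)))) (.node (.col (nat_lit 2)) (.slot (nat_lit 0)) (.slot (nat_lit 0))) (.col (nat_lit 1)) (.col (nat_lit 2))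
def w22923 : Root := .mk (.node (.col (nat_lit 1)) (.node (.col (nat_lit 1)) (.node (.col (nat_lit 2)) (.node (.col (nat_lit 2)) (.slot (nat_lit 0)) (.slot (nat_lit 0))) (.slot (nat_lit 2))) (.slot (nat_lit 2))) (.node (.col (nat_lit 0)) (.slot (nat_lit 1)) (.slot (nat_lit 1)))) (.node (.col (nat_lit 2)) (.node (.col (nat_lit 0)) (.col (nat_lit 2)) (.slot (nat_lit 0))) (.slot (nat_lit 2))) (.col (nat_lit 1)) (.node (.col (nat_lit 1)) (.slot (nat_lit 0)) (.slot (nat_lit 0)))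
def w22924 : Root := .mk (.col (nat_lit 1)) (.node (.col (nat_lit 1)) (.node (.col (nat_lit 2)) (.node (.col (nat_lit 2)) (.slot (nat_lit 0)) (.slot (nat_lit 0))) (.slot (nat_lit 2))) (.slot (nat_lit 2))) (.node (.node (.col (nat_lit 2)) (.node (.col (nat_lit 0)) (.col (nat_lit 2)) (.slot (nat_lit 1))) (.slot (nat_lit 2))) (.col (nat_lit 1)) (.slot (nat_lit 2))) (.node (.col (nat_lit 0)) .junk (.slot (nat_lit 1)))
def l5122 : Root := .mk (.col (nat_lit 1)) (.node (.col (nat_lit 1)) (.node (.col (nat_lit 2)) (.node (.col (nat_lit 2)) (.slot (nat_lit 0)) (.slot (nat_lit 0))) (.slot (nat_lit 2))) (.slot (nat_lit 3))) (.node (.node (.col (nat_lit 2)) (.node (.col (nat_lit 0)) (.col (nat_lit 2)) (.slot (nat_lit 21))) (.slot (nat_lit 2))) (.col (nat_lit 1)) (.slot (nat_lit 3))) (.node (.col (nat_lit 0)) (.slot (nat_lit 20)) (.slot (nat_lit 9)))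
def w22925 : Root := .mk (.node (.node (.node (.col (nat_lit 1)) (.node (.col (nat_lit 1)) (.node (.col (nat_lit 2)) (.node (.col (nat_lit 2)) (.slot (nat_lit 0)) (.slot (nat_lit 0))) (.slot (nat_lit 2))) (.slot (nat_lit 3))) (.slot (nat_lit 21))) (.col (nat_lit 1)) (.slot (nat_lit 3))) (.col (nat_lit 2)) (.slot (nat_lit 2))) (.col (nat_lit 0)) (.col (nat_lit 2)) (.slot (nat_lit 21))
def l5123 : Root := .mk (.col (nat_lit 1)) (.node (.col (nat_lit 1)) (.node (.col (nat_lit 2)) (.node (.slot (nat_lit 0)) (.slot (nat_lit 0)) (.slot (nat_lit 0))) (.slot (nat_lit 3))) (.slot (nat_lit 2))) (.node (.node (.col (nat_lit 2)) (.node (.col (nat_lit 0)) (.col (nat_lit 2)) (.slot (nat_lit 1))) (.slot (nat_lit 3))) (.col (nat_lit 1)) (.slot (nat_lit 2))) (.node (.col (nat_lit 0)) (.slot (nat_lit 20)) (.slot (nat_lit 9)))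
def w22926 : Root := .mk (.node (.node (.node (.col (nat_lit 1)) (.node (.col (nat_lit 1)) (.node (.col (nat_lit 2)) (.node (.slot (nat_lit 0)) (.slot (nat_lit 0)) (.slot (nat_lit 0))) (.slot (nat_lit 3))) (.slot (nat_lit 2))) (.slot (nat_lit 21))) (.col (nat_lit 1)) (.slot (nat_lit 2))) (.col (nat_lit 2)) (.slot (nat_lit 3))) (.col (nat_lit 0)) (.col (nat_lit 2)) (.slot (nat_lit 1))
def w22927 : Root := .mk (.node (.col (nat_lit 1)) (.node (.col (nat_lit 1)) (.node (.col (nat_lit 2)) (.slot (nat_lit 1)) (.slot (nat_lit 1))) (.slot (nat_lit 2))) (.slot (nat_lit 3))) (.node (.col (nat_lit 2)) (.node (.col (nat_lit 0)) (.col (nat_lit 2)) (.slot (nat_lit 0))) (.slot (nat_lit 3))) (.col (nat_lit 1)) (.col (nat_lit 2))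
def w22928 : Root := .mk (.node (.col (nat_lit 1)) (.node (.col (nat_lit 1)) (.node (.col (nat_lit 2)) (.slot (nat_lit 1)) (.slot (nat_lit 1))) (.slot (nat_lit 2))) (.slot (nat_lit 3))) (.node (.col (nat_lit 2)) (.node (.col (nat_lit 0)) (.col (nat_lit 2)) (.slot (nat_lit 8))) (.slot (nat_lit 4))) (.col (nat_lit 1)) (.node (.col (nat_lit 0)) (.slot (nat_lit 3)) (.slot (nat_lit 3)))
def w22929 : Root := .mk (.node (.col (nat_lit 1)) (.col (nat_lit 3)) (.slot (nat_lit 3))) (.node (.col (nat_lit 2)) (.node (.col (nat_lit 0)) .junk (.col (nat_lit 1))) (.slot (nat_lit 1))) (.col (nat_lit 1)) (.node (.col (nat_lit 1)) (.slot (nat_lit 3)) (.slot (nat_lit 1)))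
def w22930 : Root := .mk (.node (.node (.node (.col (nat_lit 1)) (.col (nat_lit 3)) (.slot (nat_lit 0))) (.col (nat_lit 1)) (.node (.col (nat_lit 1)) (.slot (nat_lit 0)) (.slot (nat_lit 0)))) (.col (nat_lit 2)) (.slot (nat_lit 1))) (.col (nat_lit 0)) (.col (nat_lit 2)) (.node (.col (nat_lit 4)) (.node (.col (nat_lit 4)) (.slot (nat_lit 0)) (.slot (nat_lit 0))) (.slot (nat_lit 1)))
def w22931 : Root := .mk (.node (.node (.node (.col (nat_lit 1)) (.col (nat_lit 3)) (.slot (nat_lit 0))) (.col (nat_lit 1)) (.node (.col (nat_lit 1)) (.slot (nat_lit 0)) (.slot (nat_lit 0)))) (.col (nat_lit 2)) (.slot (nat_lit 1))) (.col (nat_lit 0)) (.col (nat_lit 2)) (.node (.col (nat_lit 4)) (.node (.slot (nat_lit 0)) (.slot (nat_lit 0)) (.slot (nat_lit 0))) (.slot (nat_lit 1)))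
def l5124 : Root := .mk (.node (.node (.node (.col (nat_lit 1)) (.col (nat_lit 3)) (.slot (nat_lit 3))) (.col (nat_lit 1)) (.node (.col (nat_lit 1)) (.slot (nat_lit 3)) (.slot (nat_lit 3)))) (.col (nat_lit 2)) (.slot (nat_lit 3))) (.col (nat_lit 0)) (.col (nat_lit 2)) (.node (.col (nat_lit 4)) (.slot (nat_lit 20)) (.slot (nat_lit 9)))
def w22932 : Root := .mk (.col (nat_lit 1)) (.col (nat_lit 3)) (.node (.node (.col (nat_lit 2)) (.node (.col (nat_lit 0)) (.col (nat_lit 2)) (.slot (nat_lit 21))) (.slot (nat_lit 3))) (.col (nat_lit 1)) (.node (.col (nat_lit 1)) (.slot (nat_lit 3)) (.slot (nat_lit 3)))) (.slot (nat_lit 3))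
def w22933 : Root := .mk (.node (.col (nat_lit 1)) (.node (.col (nat_lit 1)) (.node (.col (nat_lit 2)) (.slot (nat_lit 1)) (.slot (nat_lit 1))) (.slot (nat_lit 2))) (.slot (nat_lit 3))) (.node (.col (nat_lit 2)) (.node (.col (nat_lit 0)) (.col (nat_lit 2)) (.slot (nat_lit 21))) (.slot (nat_lit 3))) (.col (nat_lit 1)) (.node (.col (nat_lit 1)) (.slot (nat_lit 3)) (.slot (nat_lit 3)))
def w22945 : Root := .mk (.col (nat_lit 1)) (.node .junk (.col (nat_lit 3)) (.slot (nat_lit 1))) (.node (.node (.col (nat_lit 2)) (.node (.col (nat_lit 0)) (.col (nat_lit 2)) (.slot (nat_lit 1))) (.slot (nat_lit 1))) (.col (nat_lit 1)) (.node (.slot (nat_lit 0)) (.slot (nat_lit 0)) (.slot (nat_lit 0)))) (.col (nat_lit 4))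
def w22948 : Root := .mk (.node (.col (nat_lit 1)) (.node .junk (.col (nat_lit 3)) (.col (nat_lit 0))) (.slot (nat_lit 1))) (.node (.col (nat_lit 2)) (.node (.col (nat_lit 0)) (.col (nat_lit 2)) (.slot (nat_lit 0))) (.slot (nat_lit 1))) (.col (nat_lit 1)) (.node (.slot (nat_lit 0)) (.col (nat_lit 2)) (.slot (nat_lit 1)))
def w22951 : Root := .mk (.node (.col (nat_lit 1)) (.node (.col (nat_lit 1)) (.node (.col (nat_lit 2)) (.slot (nat_lit 8)) (.slot (nat_lit 8))) (.slot (nat_lit 11))) (.slot (nat_lit 8))) (.node (.col (nat_lit 2)) (.slot (nat_lit 0)) (.slot (nat_lit 0))) (.col (nat_lit 1)) (.node (.node (.col (nat_lit 1)) (.slot (nat_lit 9)) (.slot (nat_lit 8))) (.slot (nat_lit 8)) (.slot (nat_lit 8)))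
def w22952 : Root := .mk (.node (.col (nat_lit 1)) (.slot (nat_lit 0)) (.slot (nat_lit 0))) (.node (.col (nat_lit 2)) (.node (.col (nat_lit 0)) (.col (nat_lit 2)) (.slot (nat_lit 1))) (.slot (nat_lit 1))) (.col (nat_lit 1)) (.node (.node (.col (nat_lit 2)) (.slot (nat_lit 1)) (.slot (nat_lit 1))) (.col (nat_lit 3)) (.slot (nat_lit 2)))
def w22953 : Root := .mk (.node (.node (.col (nat_lit 1)) (.node (.col (nat_lit 1)) (.node (.col (nat_lit 2)) (.slot (nat_lit 1)) (.slot (nat_lit 1))) (.slot (nat_lit 2))) (.slot (nat_lit 21))) (.slot (nat_lit 0)) (.col (nat_lit 1))) (.node (.col (nat_lit 2)) (.slot (nat_lit 3)) (.slot (nat_lit 1))) (.col (nat_lit 3)) (.node (.slot (nat_lit 0)) (.slot (nat_lit 0)) (.slot (nat_lit 0)))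
def w22954 : Root := .mk (.node (.col (nat_lit 1)) (.node (.col (nat_lit 1)) (.node (.col (nat_lit 2)) (.slot (nat_lit 1)) (.slot (nat_lit 1))) (.slot (nat_lit 2))) (.slot (nat_lit 1))) (.col (nat_lit 3)) (.col (nat_lit 1)) (.node (.node (.col (nat_lit 2)) (.slot (nat_lit 1)) (.slot (nat_lit 1))) (.col (nat_lit 3)) (.slot (nat_lit 2)))
def w22955 : Root := .mk (.node (.col (nat_lit 1)) (.col (nat_lit 3)) (.slot (nat_lit 1))) (.node (.col (nat_lit 2)) (.node (.col (nat_lit 0)) .junk (.col (nat_lit 3))) (.slot (nat_lit 1))) (.col (nat_lit 1)) (.node (.node (.col (nat_lit 2)) (.col (nat_lit 3)) (.slot (nat_lit 0))) (.col (nat_lit 3)) (.slot (nat_lit 1)))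
def w22956 : Root := .mk (.node (.node (.node (.col (nat_lit 1)) (.col (nat_lit 3)) (.slot (nat_lit 0))) (.col (nat_lit 1)) (.node (.slot (nat_lit 0)) (.col (nat_lit 3)) (.slot (nat_lit 1)))) (.col (nat_lit 2)) (.slot (nat_lit 1))) (.col (nat_lit 0)) (.col (nat_lit 2)) (.node (.col (nat_lit 4)) .junk (.slot (nat_lit 1)))
def l5127 : Root := .mk (.node (.node (.node (.col (nat_lit 1)) (.col (nat_lit 3)) (.slot (nat_lit 2))) (.col (nat_lit 1)) (.node (.node (.col (nat_lit 2)) (.col (nat_lit 3)) (.slot (nat_lit 0))) (.col (nat_lit 3)) (.slot (nat_lit 1)))) (.col (nat_lit 2)) (.slot (nat_lit 3))) (.col (nat_lit 0)) (.col (nat_lit 2)) (.node (.col (nat_lit 4)) (.slot (nat_lit 20)) (.slot (nat_lit 9)))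
def w22957 : Root := .mk (.col (nat_lit 1)) (.col (nat_lit 3)) (.node (.node (.col (nat_lit 2)) (.node (.col (nat_lit 0)) (.col (nat_lit 2)) (.slot (nat_lit 21))) (.slot (nat_lit 3))) (.col (nat_lit 1)) (.node (.node (.col (nat_lit 2)) (.col (nat_lit 3)) (.slot (nat_lit 0))) (.col (nat_lit 3)) (.slot (nat_lit 1)))) (.slot (nat_lit 2))
def w22958 : Root := .mk (.node (.node (.node (.col (nat_lit 1)) (.node (.col (nat_lit 1)) (.node (.col (nat_lit 2)) (.slot (nat_lit 1)) (.slot (nat_lit 1))) (.slot (nat_lit 2))) (.slot (nat_lit 2))) (.node (.col (nat_lit 2)) (.node (.col (nat_lit 0)) (.col (nat_lit 2)) (.slot (nat_lit 21))) (.slot (nat_lit 3))) (.col (nat_lit 1))) (.col (nat_lit 3)) (.slot (nat_lit 1))) (.col (nat_lit 2)) (.col (nat_lit 3)) (.slot (nat_lit 0))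
def w22959 : Root := .mk (.node (.col (nat_lit 1)) (.node (.col (nat_lit 1)) (.node (.col (nat_lit 2)) (.slot (nat_lit 7)) (.slot (nat_lit 5))) (.slot (nat_lit 1))) (.slot (nat_lit 2))) (.node (.col (nat_lit 2)) (.slot (nat_lit 0)) (.slot (nat_lit 0))) (.col (nat_lit 1)) (.node (.node (.col (nat_lit 2)) (.node (.col (nat_lit 1)) (.slot (nat_lit 1)) (.slot (nat_lit 1))) (.slot (nat_lit 2))) (.col (nat_lit 3)) (.slot (nat_lit 0)))
def w22960 : Root := .mk (.node (.col (nat_lit 1)) (.slot (nat_lit 0)) (.slot (nat_lit 0))) (.node (.col (nat_lit 2)) (.node (.col (nat_lit 0)) (.col (nat_lit 2)) (.slot (nat_lit 1))) (.slot (nat_lit 1))) (.col (nat_lit 1)) (.node (.node (.col (nat_lit 2)) (.node (.col (nat_lit 2)) (.slot (nat_lit 0)) (.slot (nat_lit 0))) (.slot (nat_lit 2))) (.col (nat_lit 3)) (.slot (nat_lit 2)))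
def w22961 : Root := .mk (.col (nat_lit 1)) (.slot (nat_lit 0)) (.node (.node (.col (nat_lit 2)) (.node (.col (nat_lit 0)) (.col (nat_lit 2)) (.slot (nat_lit 1))) (.slot (nat_lit 1))) (.col (nat_lit 1)) (.node (.node (.col (nat_lit 2)) (.slot (nat_lit 1)) (.slot (nat_lit 1))) (.col (nat_lit 3)) (.slot (nat_lit 2)))) (.col (nat_lit 0))
def w22962 : Root := .mk (.col (nat_lit 1)) (.node (.col (nat_lit 1)) (.slot (nat_lit 0)) (.slot (nat_lit 0))) (.node (.node (.col (nat_lit 2)) (.node (.col (nat_lit 0)) (.col (nat_lit 2)) (.slot (nat_lit 0))) (.slot (nat_lit 1))) (.col (nat_lit 1)) (.node (.node (.col (nat_lit 2)) (.slot (nat_lit 1)) (.slot (nat_lit 1))) (.col (nat_lit 3)) (.slot (nat_lit 2)))) (.col (nat_lit 4))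
def l5128 : Root := .mk (.node (.col (nat_lit 1)) (.node (.col (nat_lit 1)) (.node (.col (nat_lit 2)) (.slot (nat_lit 7)) (.slot (nat_lit 5))) (.slot (nat_lit 8))) (.slot (nat_lit 21))) (.node (.col (nat_lit 2)) (.node (.col (nat_lit 0)) (.col (nat_lit 2)) (.slot (nat_lit 21))) (.slot (nat_lit 3))) (.col (nat_lit 1)) (.node (.node (.col (nat_lit 2)) (.slot (nat_lit 20)) (.slot (nat_lit 12))) (.col (nat_lit 3)) (.slot (nat_lit 21)))
def w22963 : Root := .mk (.node (.col (nat_lit 1)) (.node (.col (nat_lit 1)) (.node (.col (nat_lit 2)) (.slot (nat_lit 7)) (.slot (nat_lit 5))) (.slot (nat_lit 8))) (.slot (nat_lit 21))) (.node (.col (nat_lit 2)) (.node (.col (nat_lit 0)) (.col (nat_lit 2)) (.slot (nat_lit 21))) (.slot (nat_lit 3))) (.col (nat_lit 1)) (.node (.node (.col (nat_lit 2)) (.slot (nat_lit 20)) (.slot (nat_lit 12))) (.slot (nat_lit 1)) (.slot (nat_lit 21)))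
def w22964 : Root := .mk (.node (.node (.col (nat_lit 1)) (.node (.col (nat_lit 1)) (.node (.col (nat_lit 2)) (.slot (nat_lit 3)) (.slot (nat_lit 3))) (.slot (nat_lit 5))) (.slot (nat_lit 4))) (.col (nat_lit 1)) (.slot (nat_lit 5))) (.col (nat_lit 2)) (.node (.col (nat_lit 0)) (.col (nat_lit 2)) (.slot (nat_lit 1))) (.col (nat_lit 0))
def w22965 : Root := .mk (.node (.node (.col (nat_lit 1)) (.node .junk (.col (nat_lit 3)) (.col (nat_lit 0))) (.slot (nat_lit 1))) (.col (nat_lit 1)) (.slot (nat_lit 3))) (.col (nat_lit 2)) (.node (.col (nat_lit 0)) (.col (nat_lit 2)) (.slot (nat_lit 3))) (.node (.col (nat_lit 2)) (.slot (nat_lit 3)) (.slot (nat_lit 3)))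
def w22966 : Root := .mk (.node (.col (nat_lit 1)) (.node (.node (.col (nat_lit 2)) (.node (.col (nat_lit 0)) (.col (nat_lit 2)) (.slot (nat_lit 3))) (.node (.col (nat_lit 2)) (.slot (nat_lit 3)) (.slot (nat_lit 3)))) (.col (nat_lit 1)) (.slot (nat_lit 3))) (.slot (nat_lit 1))) (.col (nat_lit 1)) (.node (.col (nat_lit 2)) (.node (.col (nat_lit 2)) (.slot (nat_lit 0)) (.slot (nat_lit 0))) (.slot (nat_lit 1))) (.col (nat_lit 0))
def w22967 : Root := .mk (.node (.col (nat_lit 1)) (.node (.node (.col (nat_lit 2)) (.node (.col (nat_lit 0)) (.col (nat_lit 2)) (.slot (nat_lit 3))) (.node (.col (nat_lit 2)) (.slot (nat_lit 3)) (.slot (nat_lit 3)))) (.col (nat_lit 1)) (.slot (nat_lit 3))) (.slot (nat_lit 1))) (.col (nat_lit 1)) (.node (.col (nat_lit 2)) (.node (.slot (nat_lit 0)) (.slot (nat_lit 0)) (.slot (nat_lit 0))) (.slot (nat_lit 1))) (.col (nat_lit 0))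
def l5129 : Root := .mk (.node (.col (nat_lit 1)) (.node (.node (.col (nat_lit 2)) (.node (.col (nat_lit 0)) (.col (nat_lit 2)) (.slot (nat_lit 3))) (.node (.col (nat_lit 2)) (.slot (nat_lit 3)) (.slot (nat_lit 3)))) (.col (nat_lit 1)) (.slot (nat_lit 3))) (.slot (nat_lit 3))) (.col (nat_lit 1)) (.node (.col (nat_lit 2)) (.slot (nat_lit 20)) (.slot (nat_lit 9))) (.col (nat_lit 0))
def w22968 : Root := .mk (.node (.node (.col (nat_lit 1)) (.node (.col (nat_lit 1)) (.node (.col (nat_lit 2)) (.slot (nat_lit 20)) (.slot (nat_lit 9))) (.slot (nat_lit 1))) (.slot (nat_lit 3))) (.col (nat_lit 1)) (.slot (nat_lit 3))) (.col (nat_lit 2)) (.node (.col (nat_lit 0)) (.col (nat_lit 2)) (.slot (nat_lit 3))) (.node (.col (nat_lit 2)) (.slot (nat_lit 3)) (.slot (nat_lit 3)))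
def w22969 : Root := .mk (.col (nat_lit 1)) (.slot (nat_lit 0)) (.node (.node (.col (nat_lit 2)) (.node (.col (nat_lit 0)) (.col (nat_lit 2)) (.slot (nat_lit 1))) (.node (.col (nat_lit 3)) (.slot (nat_lit 0)) (.slot (nat_lit 0)))) (.col (nat_lit 1)) (.col (nat_lit 0))) (.col (nat_lit 0))
def w22970 : Root := .mk (.node (.col (nat_lit 1)) (.node (.node (.col (nat_lit 2)) (.node (.col (nat_lit 0)) (.col (nat_lit 2)) (.slot (nat_lit 0))) (.node (.col (nat_lit 3)) (.slot (nat_lit 0)) (.slot (nat_lit 0)))) (.col (nat_lit 1)) (.col (nat_lit 0))) (.col (nat_lit 3))) (.col (nat_lit 1)) (.col (nat_lit 3)) (.col (nat_lit 0))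
def l5130 : Root := .mk (.node (.col (nat_lit 1)) (.node (.node (.col (nat_lit 2)) (.node (.col (nat_lit 0)) (.col (nat_lit 2)) (.slot (nat_lit 1))) (.node (.col (nat_lit 3)) (.slot (nat_lit 1)) (.slot (nat_lit 1)))) (.col (nat_lit 1)) (.col (nat_lit 0))) (.slot (nat_lit 1))) (.col (nat_lit 1)) (.col (nat_lit 3)) (.col (nat_lit 0))
def w22971 : Root := .mk (.node (.col (nat_lit 1)) (.node (.node (.col (nat_lit 2)) (.node (.col (nat_lit 0)) (.col (nat_lit 2)) (.slot (nat_lit 1))) (.node (.col (nat_lit 3)) (.slot (nat_lit 1)) (.slot (nat_lit 1)))) (.col (nat_lit 1)) (.slot (nat_lit 1))) (.slot (nat_lit 1))) (.col (nat_lit 1)) (.col (nat_lit 3)) (.col (nat_lit 0))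
def w22972 : Root := .mk (.node (.col (nat_lit 1)) (.node (.node (.col (nat_lit 2)) (.node (.col (nat_lit 0)) (.col (nat_lit 2)) (.slot (nat_lit 0))) (.node (.col (nat_lit 3)) (.slot (nat_lit 1)) (.slot (nat_lit 0)))) (.col (nat_lit 1)) (.slot (nat_lit 1))) (.slot (nat_lit 1))) (.col (nat_lit 1)) (.node (.col (nat_lit 2)) (.node (.col (nat_lit 2)) (.slot (nat_lit 0)) (.slot (nat_lit 0))) (.slot (nat_lit 1))) (.col (nat_lit 0))
def l5131 : Root := .mk (.node (.col (nat_lit 1)) (.node (.node (.col (nat_lit 2)) (.node (.col (nat_lit 0)) (.col (nat_lit 2)) (.slot (nat_lit 1))) (.node (.col (nat_lit 3)) (.slot (nat_lit 6)) (.slot (nat_lit 1)))) (.col (nat_lit 1)) (.slot (nat_lit 6))) (.slot (nat_lit 5))) (.col (nat_lit 1)) (.node (.col (nat_lit 2)) (.slot (nat_lit 20)) (.slot (nat_lit 9))) (.col (nat_lit 0))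
def w22973 : Root := .mk (.node (.node (.col (nat_lit 1)) (.node (.col (nat_lit 1)) (.node (.col (nat_lit 2)) (.slot (nat_lit 20)) (.slot (nat_lit 9))) (.slot (nat_lit 1))) (.slot (nat_lit 5))) (.col (nat_lit 1)) (.slot (nat_lit 6))) (.col (nat_lit 2)) (.node (.col (nat_lit 0)) (.col (nat_lit 2)) (.slot (nat_lit 1))) (.node (.col (nat_lit 3)) (.slot (nat_lit 6)) (.slot (nat_lit 1)))
def l5132 : Root := .mk (.node (.node (.node (.col (nat_lit 1)) (.node (.col (nat_lit 1)) (.node (.col (nat_lit 2)) (.slot (nat_lit 20)) (.slot (nat_lit 12))) (.slot (nat_lit 21))) (.slot (nat_lit 22))) (.col (nat_lit 1)) (.slot (nat_lit 22))) (.col (nat_lit 2)) (.slot (nat_lit 8))) (.col (nat_lit 0)) (.col (nat_lit 2)) (.slot (nat_lit 21))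
def w22974 : Root := .mk (.node (.node (.node (.col (nat_lit 1)) (.node (.col (nat_lit 1)) (.slot (nat_lit 21)) (.slot (nat_lit 21))) (.slot (nat_lit 22))) (.col (nat_lit 1)) (.slot (nat_lit 22))) (.col (nat_lit 2)) (.slot (nat_lit 8))) (.col (nat_lit 0)) (.col (nat_lit 2)) (.slot (nat_lit 21))
def w22975 : Root := .mk (.node (.node (.col (nat_lit 1)) (.node (.col (nat_lit 1)) (.slot (nat_lit 0)) (.slot (nat_lit 0))) (.slot (nat_lit 3))) (.col (nat_lit 2)) (.slot (nat_lit 1))) (.col (nat_lit 2)) (.node (.col (nat_lit 0)) (.col (nat_lit 2)) (.node (.node (.col (nat_lit 0)) (.slot (nat_lit 1)) (.slot (nat_lit 1))) (.slot (nat_lit 2)) (.slot (nat_lit 1)))) (.col (nat_lit 0))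
def w22976 : Root := .mk (.node (.node (.node (.col (nat_lit 1)) (.node (.col (nat_lit 1)) (.slot (nat_lit 0)) (.slot (nat_lit 0))) (.slot (nat_lit 2))) (.col (nat_lit 2)) (.slot (nat_lit 2))) (.col (nat_lit 2)) (.node (.col (nat_lit 1)) (.slot (nat_lit 1)) (.slot (nat_lit 1)))) (.col (nat_lit 0)) (.col (nat_lit 2)) (.node (.slot (nat_lit 0)) (.slot (nat_lit 0)) (.slot (nat_lit 0)))
def w22977 : Root := .mk (.node (.node (.node (.col (nat_lit 1)) (.node (.col (nat_lit 1)) (.slot (nat_lit 0)) (.slot (nat_lit 0))) (.slot (nat_lit 2))) (.col (nat_lit 2)) (.slot (nat_lit 2))) (.col (nat_lit 2)) (.node (.col (nat_lit 2)) (.slot (nat_lit 3)) (.slot (nat_lit 1)))) (.col (nat_lit 0)) (.col (nat_lit 2)) (.node (.node (.col (nat_lit 0)) (.slot (nat_lit 1)) (.slot (nat_lit 0))) (.slot (nat_lit 2)) (.slot (nat_lit 2)))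
def w22978 : Root := .mk (.node (.node (.node (.col (nat_lit 1)) (.node (.col (nat_lit 1)) (.slot (nat_lit 0)) (.slot (nat_lit 0))) (.slot (nat_lit 2))) (.col (nat_lit 2)) (.slot (nat_lit 2))) (.col (nat_lit 2)) (.slot (nat_lit 3))) (.col (nat_lit 0)) (.col (nat_lit 2)) (.node (.col (nat_lit 2)) (.slot (nat_lit 3)) (.slot (nat_lit 1)))
def w22979 : Root := .mk (.node (.node (.node (.col (nat_lit 1)) (.node (.col (nat_lit 1)) (.slot (nat_lit 0)) (.slot (nat_lit 0))) (.slot (nat_lit 2))) (.col (nat_lit 2)) (.slot (nat_lit 2))) (.col (nat_lit 2)) (.slot (nat_lit 3))) (.col (nat_lit 0)) (.col (nat_lit 2)) (.node (.node (.col (nat_lit 0)) (.slot (nat_lit 0)) (.slot (nat_lit 0))) (.col (nat_lit 0)) (.slot (nat_lit 3)))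
def w22980 : Root := .mk (.node (.node (.node (.col (nat_lit 1)) (.node (.col (nat_lit 1)) (.slot (nat_lit 0)) (.slot (nat_lit 0))) (.slot (nat_lit 2))) (.col (nat_lit 2)) (.slot (nat_lit 2))) (.col (nat_lit 2)) (.slot (nat_lit 3))) (.col (nat_lit 0)) (.col (nat_lit 2)) (.node (.node (.col (nat_lit 0)) (.slot (nat_lit 1)) (.slot (nat_lit 1))) (.node (.col (nat_lit 1)) (.slot (nat_lit 0)) (.slot (nat_lit 0))) (.slot (nat_lit 2)))
def w22981 : Root := .mk (.node (.node (.node (.col (nat_lit 1)) (.node (.col (nat_lit 1)) (.slot (nat_lit 0)) (.slot (nat_lit 0))) (.slot (nat_lit 2))) (.col (nat_lit 2)) (.slot (nat_lit 2))) (.col (nat_lit 2)) (.slot (nat_lit 3))) (.col (nat_lit 0)) (.col (nat_lit 2)) (.node (.node (.col (nat_lit 0)) (.slot (nat_lit 1)) (.slot (nat_lit 1))) (.node (.col (nat_lit 2)) (.slot (nat_lit 0)) (.slot (nat_lit 0))) (.slot (nat_lit 2)))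
def w22982 : Root := .mk (.node (.node (.node (.col (nat_lit 1)) (.node (.col (nat_lit 1)) (.slot (nat_lit 0)) (.slot (nat_lit 0))) (.slot (nat_lit 2))) (.col (nat_lit 2)) (.slot (nat_lit 2))) (.col (nat_lit 2)) (.slot (nat_lit 3))) (.col (nat_lit 0)) (.col (nat_lit 2)) (.node (.node (.col (nat_lit 0)) (.slot (nat_lit 1)) (.slot (nat_lit 1))) (.node (.col (nat_lit 3)) (.slot (nat_lit 1)) (.slot (nat_lit 1))) (.slot (nat_lit 1)))
def w22983 : Root := .mk (.node (.col (nat_lit 1)) (.node (.col (nat_lit 1)) (.slot (nat_lit 0)) (.slot (nat_lit 0))) (.slot (nat_lit 1))) (.node (.col (nat_lit 2)) (.node (.col (nat_lit 0)) (.col (nat_lit 2)) (.node (.node (.col (nat_lit 0)) (.slot (nat_lit 0)) (.slot (nat_lit 0))) (.slot (nat_lit 7)) (.slot (nat_lit 5)))) (.slot (nat_lit 3))) (.col (nat_lit 2)) (.col (nat_lit 3))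
def w22984 : Root := .mk (.node (.node (.slot (nat_lit 0)) (.col (nat_lit 2)) (.slot (nat_lit 0))) (.col (nat_lit 2)) (.slot (nat_lit 2))) (.col (nat_lit 0)) (.col (nat_lit 2)) (.node (.node (.col (nat_lit 0)) (.slot (nat_lit 1)) (.slot (nat_lit 21))) (.slot (nat_lit 20)) (.slot (nat_lit 12)))
def l5133 : Root := .mk (.node (.node (.node (.col (nat_lit 1)) (.node (.col (nat_lit 1)) (.slot (nat_lit 0)) (.slot (nat_lit 0))) (.slot (nat_lit 3))) (.col (nat_lit 2)) (.slot (nat_lit 5))) (.col (nat_lit 2)) (.slot (nat_lit 8))) (.col (nat_lit 0)) (.col (nat_lit 2)) (.node (.node (.col (nat_lit 0)) (.slot (nat_lit 21)) (.slot (nat_lit 5))) (.slot (nat_lit 20)) (.slot (nat_lit 12)))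
def w22985 : Root := .mk (.node (.node (.node (.col (nat_lit 1)) (.node (.col (nat_lit 1)) (.slot (nat_lit 0)) (.slot (nat_lit 0))) (.slot (nat_lit 3))) (.col (nat_lit 2)) (.slot (nat_lit 5))) (.col (nat_lit 2)) (.slot (nat_lit 8))) (.col (nat_lit 0)) (.col (nat_lit 2)) (.slot (nat_lit 23))
def w22986 : Root := .mk (.node (.node (.node (.col (nat_lit 1)) (.node (.col (nat_lit 1)) (.slot (nat_lit 0)) (.slot (nat_lit 0))) (.slot (nat_lit 2))) (.col (nat_lit 3)) (.slot (nat_lit 2))) (.col (nat_lit 2)) (.slot (nat_lit 1))) (.col (nat_lit 0)) .junk (.col (nat_lit 1))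
def l5134 : Root := .mk (.node (.node (.node (.col (nat_lit 1)) (.node (.col (nat_lit 1)) (.slot (nat_lit 0)) (.slot (nat_lit 0))) (.slot (nat_lit 2))) (.col (nat_lit 3)) (.slot (nat_lit 3))) (.col (nat_lit 2)) (.slot (nat_lit 3))) (.col (nat_lit 0)) (.col (nat_lit 2)) (.node (.col (nat_lit 4)) (.slot (nat_lit 20)) (.slot (nat_lit 9)))
def w22987 : Root := .mk (.node (.node (.node (.col (nat_lit 1)) (.node (.col (nat_lit 1)) (.slot (nat_lit 0)) (.slot (nat_lit 0))) (.slot (nat_lit 2))) (.col (nat_lit 3)) (.slot (nat_lit 3))) (.col (nat_lit 2)) (.slot (nat_lit 3))) (.col (nat_lit 0)) (.col (nat_lit 2)) (.slot (nat_lit 21))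
def w22988 : Root := .mk (.node (.col (nat_lit 1)) (.node (.col (nat_lit 1)) (.slot (nat_lit 5)) (.slot (nat_lit 4))) (.slot (nat_lit 4))) (.node (.col (nat_lit 2)) (.node (.col (nat_lit 0)) (.col (nat_lit 2)) (.slot (nat_lit 2))) (.slot (nat_lit 8))) (.node (.node (.col (nat_lit 3)) (.slot (nat_lit 3)) (.slot (nat_lit 3))) (.slot (nat_lit 3)) (.slot (nat_lit 3))) (.col (nat_lit 1))
def w22989 : Root := .mk (.node (.col (nat_lit 1)) (.node .junk (.col (nat_lit 0)) (.col (nat_lit 4))) (.slot (nat_lit 1))) (.node (.col (nat_lit 2)) (.col (nat_lit 4)) (.slot (nat_lit 3))) (.node (.node (.col (nat_lit 3)) (.slot (nat_lit 1)) (.slot (nat_lit 1))) (.slot (nat_lit 2)) (.slot (nat_lit 1))) (.col (nat_lit 2))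
def l5135 : Root := .mk (.node (.col (nat_lit 1)) (.node (.node (.col (nat_lit 2)) (.col (nat_lit 4)) (.slot (nat_lit 8))) (.node (.node (.col (nat_lit 3)) (.slot (nat_lit 1)) (.slot (nat_lit 1))) (.slot (nat_lit 7)) (.slot (nat_lit 5))) (.col (nat_lit 2))) (.slot (nat_lit 2))) (.col (nat_lit 1)) (.col (nat_lit 0)) (.node (.col (nat_lit 3)) (.slot (nat_lit 20)) (.slot (nat_lit 9)))
def w22990 : Root := .mk (.node (.col (nat_lit 1)) (.node (.node (.col (nat_lit 2)) (.col (nat_lit 4)) (.slot (nat_lit 8))) (.node (.node (.col (nat_lit 3)) (.slot (nat_lit 1)) (.slot (nat_lit 1))) (.slot (nat_lit 7)) (.slot (nat_lit 5))) (.col (nat_lit 2))) (.slot (nat_lit 2))) (.col (nat_lit 1)) (.col (nat_lit 0)) (.slot (nat_lit 21))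
def w22991 : Root := .mk (.node (.col (nat_lit 1)) (.node .junk (.col (nat_lit 3)) (.col (nat_lit 4))) (.slot (nat_lit 1))) (.node (.col (nat_lit 2)) (.col (nat_lit 4)) (.slot (nat_lit 2))) (.node (.node (.col (nat_lit 3)) (.slot (nat_lit 0)) (.slot (nat_lit 0))) (.slot (nat_lit 7)) (.slot (nat_lit 5))) (.col (nat_lit 2))
def l5136 : Root := .mk (.node (.col (nat_lit 1)) (.node (.node (.col (nat_lit 2)) (.col (nat_lit 4)) (.slot (nat_lit 8))) (.node (.node (.col (nat_lit 3)) (.slot (nat_lit 1)) (.slot (nat_lit 1))) (.slot (nat_lit 7)) (.slot (nat_lit 5))) (.col (nat_lit 2))) (.slot (nat_lit 2))) (.col (nat_lit 1)) (.col (nat_lit 3)) (.node (.col (nat_lit 0)) (.slot (nat_lit 20)) (.slot (nat_lit 9)))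
def w22992 : Root := .mk (.node (.col (nat_lit 1)) (.node (.node (.col (nat_lit 2)) (.col (nat_lit 4)) (.slot (nat_lit 8))) (.node (.node (.col (nat_lit 3)) (.slot (nat_lit 1)) (.slot (nat_lit 1))) (.slot (nat_lit 7)) (.slot (nat_lit 5))) (.col (nat_lit 2))) (.slot (nat_lit 2))) (.col (nat_lit 1)) (.col (nat_lit 3)) (.slot (nat_lit 21))
def w22993 : Root := .mk (.node (.col (nat_lit 1)) (.node (.node (.col (nat_lit 2)) (.col (nat_lit 4)) (.slot (nat_lit 2))) (.node (.node (.col (nat_lit 3)) (.slot (nat_lit 0)) (.slot (nat_lit 0))) (.slot (nat_lit 7)) (.slot (nat_lit 5))) (.col (nat_lit 2))) (.slot (nat_lit 3))) (.col (nat_lit 1)) (.node (.col (nat_lit 4)) (.slot (nat_lit 3)) (.slot (nat_lit 1))) (.col (nat_lit 4))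
def w22994 : Root := .mk (.node (.col (nat_lit 1)) (.node (.node (.col (nat_lit 2)) (.col (nat_lit 4)) (.slot (nat_lit 1))) (.node (.slot (nat_lit 0)) (.slot (nat_lit 0)) (.slot (nat_lit 0))) (.col (nat_lit 2))) (.slot (nat_lit 1))) (.col (nat_lit 1)) (.node (.col (nat_lit 4)) (.slot (nat_lit 3)) (.slot (nat_lit 3))) (.node (.node (.col (nat_lit 0)) (.slot (nat_lit 0)) (.slot (nat_lit 0))) (.slot (nat_lit 3)) (.slot (nat_lit 3)))
def w22995 : Root := .mk (.node (.col (nat_lit 1)) (.node (.node (.col (nat_lit 2)) (.col (nat_lit 4)) (.slot (nat_lit 1))) (.node (.slot (nat_lit 0)) (.slot (nat_lit 0)) (.slot (nat_lit 0))) (.col (nat_lit 2))) (.slot (nat_lit 1))) (.col (nat_lit 1)) (.node (.col (nat_lit 4)) (.slot (nat_lit 3)) (.slot (nat_lit 3))) (.node (.node (.col (nat_lit 2)) (.slot (nat_lit 0)) (.slot (nat_lit 0))) (.slot (nat_lit 3)) (.slot (nat_lit 3)))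
def w22996 : Root := .mk (.node (.col (nat_lit 1)) (.node (.node (.col (nat_lit 2)) (.col (nat_lit 4)) (.slot (nat_lit 0))) (.node (.slot (nat_lit 0)) (.slot (nat_lit 0)) (.slot (nat_lit 0))) (.col (nat_lit 2))) (.slot (nat_lit 2))) (.col (nat_lit 1)) (.node (.col (nat_lit 4)) (.slot (nat_lit 1)) (.slot (nat_lit 1))) (.node (.node (.col (nat_lit 4)) (.slot (nat_lit 0)) (.slot (nat_lit 0))) (.slot (nat_lit 2)) (.slot (nat_lit 1)))
def w22997 : Root := .mk (.col (nat_lit 1)) (.node .junk (.col (nat_lit 0)) (.slot (nat_lit 1))) (.node (.node (.col (nat_lit 2)) (.col (nat_lit 4)) (.slot (nat_lit 3))) (.node (.node (.col (nat_lit 3)) (.slot (nat_lit 1)) (.slot (nat_lit 1))) (.slot (nat_lit 2)) (.slot (nat_lit 1))) (.col (nat_lit 2))) (.col (nat_lit 2))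
def w22998 : Root := .mk (.col (nat_lit 1)) (.node (.col (nat_lit 1)) (.col (nat_lit 3)) (.slot (nat_lit 4))) (.node (.node (.col (nat_lit 2)) (.col (nat_lit 4)) (.slot (nat_lit 0))) (.node (.node (.col (nat_lit 3)) (.slot (nat_lit 0)) (.slot (nat_lit 0))) (.slot (nat_lit 3)) (.slot (nat_lit 3))) (.col (nat_lit 2))) (.col (nat_lit 2))
def w22999 : Root := .mk (.col (nat_lit 1)) (.slot (nat_lit 0)) (.node (.node (.col (nat_lit 2)) (.col (nat_lit 4)) (.slot (nat_lit 2))) (.node (.node (.col (nat_lit 3)) (.col (nat_lit 4)) (.slot (nat_lit 1))) (.col (nat_lit 4)) (.slot (nat_lit 2))) (.col (nat_lit 2))) (.col (nat_lit 2))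
def w23000 : Root := .mk (.col (nat_lit 1)) (.slot (nat_lit 0)) (.node (.node .junk (.col (nat_lit 4)) (.col (nat_lit 3))) (.node (.node (.col (nat_lit 3)) (.slot (nat_lit 1)) (.slot (nat_lit 1))) (.col (nat_lit 4)) (.slot (nat_lit 2))) (.col (nat_lit 2))) (.col (nat_lit 2))
def w23001 : Root := .mk (.node (.node (.col (nat_lit 1)) (.slot (nat_lit 0)) (.col (nat_lit 2))) (.node (.node (.col (nat_lit 3)) (.slot (nat_lit 3)) (.slot (nat_lit 3))) (.col (nat_lit 4)) (.slot (nat_lit 4))) (.col (nat_lit 2))) (.col (nat_lit 2)) (.col (nat_lit 4)) (.node (.col (nat_lit 2)) (.slot (nat_lit 0)) (.slot (nat_lit 0)))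
def w23002 : Root := .mk (.node (.node (.col (nat_lit 1)) (.slot (nat_lit 0)) (.col (nat_lit 2))) (.node (.node (.col (nat_lit 3)) (.slot (nat_lit 3)) (.slot (nat_lit 3))) (.col (nat_lit 4)) (.slot (nat_lit 4))) (.col (nat_lit 2))) (.col (nat_lit 2)) (.col (nat_lit 4)) (.node (.col (nat_lit 4)) (.slot (nat_lit 0)) (.slot (nat_lit 0)))
def w23003 : Root := .mk (.node (.node (.col (nat_lit 1)) (.slot (nat_lit 0)) (.col (nat_lit 2))) (.node (.node (.col (nat_lit 3)) (.slot (nat_lit 3)) (.slot (nat_lit 3))) (.col (nat_lit 4)) (.slot (nat_lit 2))) (.col (nat_lit 2))) (.col (nat_lit 2)) (.col (nat_lit 4)) (.node (.slot (nat_lit 0)) (.slot (nat_lit 0)) (.slot (nat_lit 0)))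
def l5137 : Root := .mk (.col (nat_lit 1)) (.node (.col (nat_lit 1)) (.node (.col (nat_lit 4)) (.col (nat_lit 2)) .junk) (.slot (nat_lit 1))) (.node (.node (.col (nat_lit 2)) (.col (nat_lit 4)) (.slot (nat_lit 21))) (.node (.node (.col (nat_lit 3)) (.slot (nat_lit 20)) (.slot (nat_lit 12))) (.col (nat_lit 4)) (.slot (nat_lit 21))) (.col (nat_lit 2))) (.col (nat_lit 2))
def w23004 : Root := .mk (.col (nat_lit 1)) (.node (.col (nat_lit 1)) (.node (.col (nat_lit 4)) (.col (nat_lit 2)) .junk) (.slot (nat_lit 1))) (.node (.node (.col (nat_lit 2)) (.col (nat_lit 4)) (.slot (nat_lit 21))) (.node (.node (.col (nat_lit 3)) (.slot (nat_lit 20)) (.slot (nat_lit 12))) (.slot (nat_lit 1)) (.slot (nat_lit 21))) (.col (nat_lit 2))) (.col (nat_lit 2))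
def w23005 : Root := .mk (.col (nat_lit 1)) (.col (nat_lit 4)) (.node (.node (.col (nat_lit 2)) (.col (nat_lit 4)) (.slot (nat_lit 3))) (.node (.node (.col (nat_lit 3)) (.slot (nat_lit 1)) (.slot (nat_lit 1))) (.slot (nat_lit 1)) (.slot (nat_lit 6))) (.col (nat_lit 2))) (.col (nat_lit 2))
def l5138 : Root := .mk (.col (nat_lit 1)) (.node (.col (nat_lit 1)) (.node (.col (nat_lit 4)) (.col (nat_lit 2)) (.slot (nat_lit 8))) (.slot (nat_lit 4))) (.node (.node (.col (nat_lit 2)) (.col (nat_lit 4)) (.slot (nat_lit 21))) (.node (.node (.col (nat_lit 3)) (.slot (nat_lit 20)) (.slot (nat_lit 12))) (.slot (nat_lit 21)) (.slot (nat_lit 3))) (.col (nat_lit 2))) (.col (nat_lit 2))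
def w23006 : Root := .mk (.col (nat_lit 1)) (.node (.col (nat_lit 1)) (.node (.col (nat_lit 4)) (.slot (nat_lit 1)) (.slot (nat_lit 8))) (.slot (nat_lit 4))) (.node (.node (.col (nat_lit 2)) (.col (nat_lit 4)) (.slot (nat_lit 21))) (.node (.node (.col (nat_lit 3)) (.slot (nat_lit 20)) (.slot (nat_lit 12))) (.slot (nat_lit 21)) (.slot (nat_lit 3))) (.col (nat_lit 2))) (.col (nat_lit 2))
def w23007 : Root := .mk (.node (.col (nat_lit 1)) (.node (.col (nat_lit 3)) (.node (.node (.col (nat_lit 3)) (.slot (nat_lit 0)) (.slot (nat_lit 0))) (.slot (nat_lit 1)) (.slot (nat_lit 1))) (.col (nat_lit 2))) (.node (.col (nat_lit 1)) (.slot (nat_lit 0)) (.slot (nat_lit 0)))) (.col (nat_lit 1)) (.slot (nat_lit 0)) (.col (nat_lit 4))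
def l5139 : Root := .mk (.node (.col (nat_lit 1)) (.node (.col (nat_lit 1)) (.node (.col (nat_lit 4)) (.slot (nat_lit 20)) (.slot (nat_lit 9))) (.slot (nat_lit 3))) (.node (.col (nat_lit 1)) (.slot (nat_lit 3)) (.slot (nat_lit 3)))) (.col (nat_lit 3)) (.node (.node (.col (nat_lit 3)) (.slot (nat_lit 1)) (.slot (nat_lit 1))) (.slot (nat_lit 2)) (.slot (nat_lit 2))) (.col (nat_lit 2))
def w23008 : Root := .mk (.col (nat_lit 1)) (.node (.col (nat_lit 1)) (.node (.col (nat_lit 4)) (.slot (nat_lit 20)) (.slot (nat_lit 9))) (.slot (nat_lit 3))) (.node (.node (.col (nat_lit 2)) (.col (nat_lit 4)) (.slot (nat_lit 0))) (.node (.node (.col (nat_lit 3)) (.slot (nat_lit 1)) (.slot (nat_lit 1))) (.slot (nat_lit 2)) (.slot (nat_lit 2))) (.col (nat_lit 2))) (.node (.col (nat_lit 1)) (.slot (nat_lit 3)) (.slot (nat_lit 3)))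
def w23009 : Root := .mk (.node (.col (nat_lit 1)) (.slot (nat_lit 0)) (.slot (nat_lit 0))) (.node .junk (.col (nat_lit 4)) (.col (nat_lit 3))) (.node (.node (.col (nat_lit 3)) (.slot (nat_lit 1)) (.slot (nat_lit 1))) (.col (nat_lit 4)) (.slot (nat_lit 2))) (.col (nat_lit 2))
def w23010 : Root := .mk (.node (.node (.col (nat_lit 1)) (.slot (nat_lit 0)) (.slot (nat_lit 0))) (.node (.node (.col (nat_lit 3)) (.slot (nat_lit 3)) (.slot (nat_lit 3))) (.col (nat_lit 4)) (.slot (nat_lit 4))) (.col (nat_lit 2))) (.col (nat_lit 2)) (.col (nat_lit 4)) (.node (.col (nat_lit 4)) (.slot (nat_lit 0)) (.slot (nat_lit 0)))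
def l5140 : Root := .mk (.node (.col (nat_lit 1)) (.node (.col (nat_lit 1)) (.node (.col (nat_lit 4)) (.col (nat_lit 1)) (.slot (nat_lit 3))) (.slot (nat_lit 1))) (.slot (nat_lit 3))) (.node (.col (nat_lit 2)) (.col (nat_lit 4)) (.slot (nat_lit 21))) (.node (.node (.col (nat_lit 3)) (.slot (nat_lit 3)) (.slot (nat_lit 3))) (.col (nat_lit 4)) (.slot (nat_lit 4))) (.col (nat_lit 2))
def w23011 : Root := .mk (.node (.node (.col (nat_lit 1)) (.node (.node (.col (nat_lit 2)) (.col (nat_lit 4)) (.slot (nat_lit 21))) (.node (.node (.col (nat_lit 3)) (.slot (nat_lit 3)) (.slot (nat_lit 3))) (.slot (nat_lit 1)) (.slot (nat_lit 4))) (.col (nat_lit 2))) (.slot (nat_lit 3))) (.col (nat_lit 1)) (.slot (nat_lit 1))) (.col (nat_lit 4)) (.col (nat_lit 1)) (.slot (nat_lit 3))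
def w23012 : Root := .mk (.node (.col (nat_lit 1)) (.node (.col (nat_lit 1)) (.node (.col (nat_lit 4)) (.node (.col (nat_lit 4)) (.slot (nat_lit 0)) (.slot (nat_lit 0))) (.slot (nat_lit 2))) (.slot (nat_lit 2))) (.slot (nat_lit 2))) (.node (.col (nat_lit 2)) (.col (nat_lit 4)) (.slot (nat_lit 0))) (.node (.slot (nat_lit 0)) (.slot (nat_lit 0)) (.slot (nat_lit 0))) (.col (nat_lit 2))
def w23013 : Root := .mk (.node (.col (nat_lit 1)) (.node (.col (nat_lit 1)) (.node (.col (nat_lit 4)) (.slot (nat_lit 1)) (.slot (nat_lit 1))) (.slot (nat_lit 2))) (.slot (nat_lit 1))) (.node (.col (nat_lit 2)) (.col (nat_lit 4)) (.slot (nat_lit 0))) (.node (.col (nat_lit 0)) (.slot (nat_lit 1)) (.slot (nat_lit 0))) (.col (nat_lit 2))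
def w23014 : Root := .mk (.node (.col (nat_lit 1)) (.node (.col (nat_lit 1)) (.node (.col (nat_lit 4)) (.slot (nat_lit 1)) (.slot (nat_lit 1))) (.slot (nat_lit 2))) (.slot (nat_lit 3))) (.node (.col (nat_lit 2)) (.col (nat_lit 4)) (.slot (nat_lit 3))) (.node (.col (nat_lit 2)) (.slot (nat_lit 3)) (.slot (nat_lit 3))) (.col (nat_lit 2))
def w23015 : Root := .mk (.node (.col (nat_lit 1)) (.node (.col (nat_lit 1)) (.slot (nat_lit 0)) (.slot (nat_lit 0))) (.slot (nat_lit 1))) (.node (.col (nat_lit 2)) (.col (nat_lit 4)) (.slot (nat_lit 1))) (.node (.node (.col (nat_lit 3)) (.slot (nat_lit 1)) (.slot (nat_lit 1))) (.col (nat_lit 2)) (.slot (nat_lit 2))) (.col (nat_lit 2))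
def l5141 : Root := .mk (.node (.col (nat_lit 1)) (.node (.col (nat_lit 1)) (.node (.col (nat_lit 4)) (.slot (nat_lit 20)) (.slot (nat_lit 12))) (.slot (nat_lit 21))) (.slot (nat_lit 8))) (.node (.col (nat_lit 2)) (.col (nat_lit 4)) (.slot (nat_lit 21))) (.node (.node (.col (nat_lit 3)) (.slot (nat_lit 20)) (.slot (nat_lit 12))) (.slot (nat_lit 21)) (.slot (nat_lit 5))) (.col (nat_lit 2))
def w23016 : Root := .mk (.node (.node (.col (nat_lit 1)) (.node (.col (nat_lit 1)) (.slot (nat_lit 21)) (.slot (nat_lit 21))) (.slot (nat_lit 8))) (.node (.node (.col (nat_lit 3)) (.slot (nat_lit 20)) (.slot (nat_lit 12))) (.slot (nat_lit 21)) (.slot (nat_lit 5))) (.col (nat_lit 2))) (.col (nat_lit 2)) (.col (nat_lit 4)) (.slot (nat_lit 21))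
def w23017 : Root := .mk (.node (.col (nat_lit 1)) (.node (.col (nat_lit 1)) (.slot (nat_lit 0)) (.slot (nat_lit 0))) (.slot (nat_lit 2))) (.node (.col (nat_lit 2)) (.node (.col (nat_lit 0)) .junk (.col (nat_lit 1))) (.slot (nat_lit 1))) (.node (.node (.col (nat_lit 3)) (.slot (nat_lit 0)) (.slot (nat_lit 0))) (.slot (nat_lit 1)) (.slot (nat_lit 1))) (.col (nat_lit 2))
def w23018 : Root := .mk (.node (.col (nat_lit 1)) (.slot (nat_lit 0)) (.slot (nat_lit 1))) (.node (.col (nat_lit 2)) (.node (.col (nat_lit 0)) .junk (.col (nat_lit 3))) (.slot (nat_lit 1))) (.node (.node (.col (nat_lit 3)) (.slot (nat_lit 3)) (.slot (nat_lit 3))) (.slot (nat_lit 5)) (.slot (nat_lit 1))) (.col (nat_lit 2))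
def w23019 : Root := .mk (.node (.node (.node (.col (nat_lit 1)) (.node (.col (nat_lit 1)) (.slot (nat_lit 0)) (.slot (nat_lit 0))) (.slot (nat_lit 2))) (.node (.node (.col (nat_lit 3)) (.slot (nat_lit 0)) (.slot (nat_lit 0))) (.slot (nat_lit 1)) (.slot (nat_lit 1))) (.col (nat_lit 2))) (.col (nat_lit 2)) (.slot (nat_lit 1))) (.col (nat_lit 0)) (.col (nat_lit 2)) (.node (.col (nat_lit 4)) (.node (.col (nat_lit 4)) (.slot (nat_lit 0)) (.slot (nat_lit 0))) (.slot (nat_lit 1)))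
def w23020 : Root := .mk (.node (.node (.node (.col (nat_lit 1)) (.node (.col (nat_lit 1)) (.slot (nat_lit 0)) (.slot (nat_lit 0))) (.slot (nat_lit 2))) (.node (.node (.col (nat_lit 3)) (.slot (nat_lit 0)) (.slot (nat_lit 0))) (.slot (nat_lit 1)) (.slot (nat_lit 1))) (.col (nat_lit 2))) (.col (nat_lit 2)) (.slot (nat_lit 1))) (.col (nat_lit 0)) (.col (nat_lit 2)) (.node (.col (nat_lit 4)) (.node (.slot (nat_lit 0)) (.slot (nat_lit 0)) (.slot (nat_lit 0))) (.slot (nat_lit 1)))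
def l5142 : Root := .mk (.node (.node (.node (.col (nat_lit 1)) (.node (.col (nat_lit 1)) (.slot (nat_lit 21)) (.slot (nat_lit 21))) (.slot (nat_lit 8))) (.node (.node (.col (nat_lit 3)) (.slot (nat_lit 20)) (.slot (nat_lit 12))) (.slot (nat_lit 21)) (.slot (nat_lit 5))) (.col (nat_lit 2))) (.col (nat_lit 2)) (.slot (nat_lit 21))) (.col (nat_lit 0)) (.col (nat_lit 2)) (.node (.col (nat_lit 4)) (.slot (nat_lit 20)) (.slot (nat_lit 9)))
def w23021 : Root := .mk (.node (.col (nat_lit 1)) (.node (.col (nat_lit 1)) (.slot (nat_lit 21)) (.slot (nat_lit 21))) (.slot (nat_lit 8))) (.node (.col (nat_lit 2)) (.node (.col (nat_lit 0)) (.col (nat_lit 2)) (.slot (nat_lit 21))) (.slot (nat_lit 21))) (.node (.node (.col (nat_lit 3)) (.slot (nat_lit 20)) (.slot (nat_lit 12))) (.slot (nat_lit 21)) (.slot (nat_lit 5))) (.col (nat_lit 2))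
def l5143 : Root := .mk (.node (.node (.node (.col (nat_lit 1)) (.node (.col (nat_lit 1)) (.slot (nat_lit 0)) (.slot (nat_lit 0))) (.slot (nat_lit 2))) (.node (.node (.col (nat_lit 3)) (.slot (nat_lit 3)) (.slot (nat_lit 1))) (.slot (nat_lit 4)) (.slot (nat_lit 4))) (.col (nat_lit 3))) (.col (nat_lit 2)) (.slot (nat_lit 3))) (.col (nat_lit 0)) (.col (nat_lit 2)) (.node (.col (nat_lit 4)) (.slot (nat_lit 20)) (.slot (nat_lit 9)))
def w23022 : Root := .mk (.node (.col (nat_lit 1)) (.node (.col (nat_lit 1)) (.slot (nat_lit 0)) (.slot (nat_lit 0))) (.slot (nat_lit 2))) (.node (.col (nat_lit 2)) (.node (.col (nat_lit 0)) (.col (nat_lit 2)) (.slot (nat_lit 21))) (.slot (nat_lit 3))) (.node (.node (.col (nat_lit 3)) (.slot (nat_lit 3)) (.slot (nat_lit 1))) (.slot (nat_lit 4)) (.slot (nat_lit 4))) (.col (nat_lit 3))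
def w23023 : Root := .mk (.node (.col (nat_lit 1)) (.node (.col (nat_lit 1)) (.slot (nat_lit 0)) (.slot (nat_lit 0))) (.slot (nat_lit 2))) (.node (.col (nat_lit 2)) (.node (.col (nat_lit 0)) .junk (.col (nat_lit 1))) (.slot (nat_lit 1))) (.node (.node (.col (nat_lit 3)) (.slot (nat_lit 0)) (.slot (nat_lit 0))) (.slot (nat_lit 1)) (.slot (nat_lit 1))) (.col (nat_lit 4))
def l5144 : Root := .mk (.node (.node (.node (.col (nat_lit 1)) (.node (.col (nat_lit 1)) (.slot (nat_lit 0)) (.slot (nat_lit 0))) (.slot (nat_lit 2))) (.node (.node (.col (nat_lit 3)) (.slot (nat_lit 3)) (.slot (nat_lit 3))) (.slot (nat_lit 5)) (.slot (nat_lit 1))) (.col (nat_lit 4))) (.col (nat_lit 2)) (.slot (nat_lit 3))) (.col (nat_lit 0)) (.col (nat_lit 2)) (.node (.col (nat_lit 3)) (.slot (nat_lit 20)) (.slot (nat_lit 9)))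
def w23024 : Root := .mk (.node (.col (nat_lit 1)) (.node (.col (nat_lit 1)) (.slot (nat_lit 0)) (.slot (nat_lit 0))) (.slot (nat_lit 2))) (.node (.col (nat_lit 2)) (.node (.col (nat_lit 0)) (.col (nat_lit 2)) (.slot (nat_lit 21))) (.slot (nat_lit 3))) (.node (.node (.col (nat_lit 3)) (.slot (nat_lit 3)) (.slot (nat_lit 3))) (.slot (nat_lit 5)) (.slot (nat_lit 1))) (.col (nat_lit 4))
def w23025 : Root := .mk (.node (.col (nat_lit 1)) (.node (.col (nat_lit 1)) (.slot (nat_lit 0)) (.slot (nat_lit 0))) (.slot (nat_lit 8))) (.col (nat_lit 3)) (.node (.node (.col (nat_lit 3)) (.slot (nat_lit 0)) (.slot (nat_lit 0))) (.slot (nat_lit 1)) (.slot (nat_lit 1))) (.node (.col (nat_lit 0)) (.slot (nat_lit 3)) (.slot (nat_lit 1)))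
def w23026 : Root := .mk (.node (.node (.node (.col (nat_lit 1)) (.node (.col (nat_lit 1)) (.slot (nat_lit 0)) (.slot (nat_lit 0))) (.slot (nat_lit 8))) (.node (.node (.col (nat_lit 3)) (.slot (nat_lit 0)) (.slot (nat_lit 0))) (.slot (nat_lit 1)) (.slot (nat_lit 1))) (.node (.col (nat_lit 0)) (.slot (nat_lit 3)) (.slot (nat_lit 1)))) (.col (nat_lit 2)) (.slot (nat_lit 8))) (.col (nat_lit 0)) (.col (nat_lit 2)) (.slot (nat_lit 2))
def w23027 : Root := .mk (.node (.node (.node (.col (nat_lit 1)) (.node (.col (nat_lit 1)) (.slot (nat_lit 0)) (.slot (nat_lit 0))) (.slot (nat_lit 2))) (.node (.slot (nat_lit 0)) (.slot (nat_lit 0)) (.slot (nat_lit 0))) (.node (.col (nat_lit 1)) (.slot (nat_lit 1)) (.slot (nat_lit 1)))) (.col (nat_lit 2)) (.slot (nat_lit 8))) (.col (nat_lit 0)) (.col (nat_lit 2)) (.slot (nat_lit 2))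
def l5145 : Root := .mk (.col (nat_lit 0)) (.node (.col (nat_lit 2)) (.node (.col (nat_lit 0)) (.col (nat_lit 2)) (.slot (nat_lit 5))) (.slot (nat_lit 8))) (.node (.node (.col (nat_lit 3)) (.slot (nat_lit 0)) (.slot (nat_lit 0))) (.slot (nat_lit 1)) (.slot (nat_lit 1))) (.node (.col (nat_lit 2)) (.slot (nat_lit 7)) (.slot (nat_lit 5)))
def w23028 : Root := .mk (.node (.node (.node (.col (nat_lit 1)) (.slot (nat_lit 0)) (.slot (nat_lit 0))) (.node (.node (.col (nat_lit 3)) (.slot (nat_lit 0)) (.slot (nat_lit 0))) (.slot (nat_lit 1)) (.slot (nat_lit 1))) (.node (.col (nat_lit 2)) (.slot (nat_lit 7)) (.slot (nat_lit 5)))) (.col (nat_lit 2)) (.slot (nat_lit 8))) (.col (nat_lit 0)) (.col (nat_lit 2)) (.slot (nat_lit 5))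
def w23029 : Root := .mk (.node (.node (.node (.col (nat_lit 1)) (.node (.col (nat_lit 1)) (.slot (nat_lit 0)) (.slot (nat_lit 0))) (.slot (nat_lit 8))) (.node (.node (.col (nat_lit 3)) (.slot (nat_lit 0)) (.slot (nat_lit 0))) (.slot (nat_lit 2)) (.slot (nat_lit 1))) (.node (.col (nat_lit 3)) (.slot (nat_lit 3)) (.slot (nat_lit 1)))) (.col (nat_lit 2)) (.slot (nat_lit 8))) (.col (nat_lit 0)) (.col (nat_lit 2)) (.slot (nat_lit 2))
def w23030 : Root := .mk (.node (.node (.node (.col (nat_lit 1)) (.node (.col (nat_lit 1)) (.slot (nat_lit 0)) (.slot (nat_lit 0))) (.slot (nat_lit 8))) (.node (.node (.col (nat_lit 3)) (.slot (nat_lit 0)) (.slot (nat_lit 0))) (.slot (nat_lit 1)) (.slot (nat_lit 1))) (.node (.col (nat_lit 4)) (.slot (nat_lit 3)) (.slot (nat_lit 1)))) (.col (nat_lit 2)) (.slot (nat_lit 8))) (.col (nat_lit 0)) (.col (nat_lit 2)) (.slot (nat_lit 2))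
def w23033 : Root := .mk (.node (.col (nat_lit 1)) (.node (.col (nat_lit 1)) (.col (nat_lit 0)) (.slot (nat_lit 5))) (.slot (nat_lit 1))) (.node (.col (nat_lit 2)) (.node (.col (nat_lit 0)) (.col (nat_lit 2)) (.slot (nat_lit 1))) (.slot (nat_lit 1))) (.col (nat_lit 0)) (.node (.slot (nat_lit 0)) (.col (nat_lit 0)) (.slot (nat_lit 0)))
def w23034 : Root := .mk (.node (.col (nat_lit 1)) (.slot (nat_lit 0)) (.slot (nat_lit 0))) (.node (.col (nat_lit 2)) (.node (.col (nat_lit 0)) (.col (nat_lit 2)) (.slot (nat_lit 5))) (.slot (nat_lit 1))) (.col (nat_lit 0)) (.node (.slot (nat_lit 0)) (.col (nat_lit 1)) (.slot (nat_lit 1)))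
def l5146 : Root := .mk (.node (.col (nat_lit 1)) (.node (.col (nat_lit 1)) (.col (nat_lit 0)) (.slot (nat_lit 5))) (.slot (nat_lit 8))) (.node (.col (nat_lit 2)) (.node (.col (nat_lit 0)) (.col (nat_lit 2)) (.slot (nat_lit 5))) (.slot (nat_lit 8))) (.col (nat_lit 0)) (.node (.slot (nat_lit 0)) (.slot (nat_lit 1)) (.slot (nat_lit 1)))
def w23035 : Root := .mk (.node (.col (nat_lit 1)) (.node (.node (.col (nat_lit 2)) (.node (.col (nat_lit 0)) (.col (nat_lit 2)) (.slot (nat_lit 5))) (.slot (nat_lit 8))) (.node (.slot (nat_lit 0)) (.slot (nat_lit 0)) (.slot (nat_lit 0))) (.node (.slot (nat_lit 0)) (.slot (nat_lit 1)) (.slot (nat_lit 1)))) (.slot (nat_lit 8))) (.col (nat_lit 1)) (.col (nat_lit 0)) (.slot (nat_lit 5))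
def l5147 : Root := .mk (.node (.col (nat_lit 1)) (.node (.col (nat_lit 0)) (.node (.node (.col (nat_lit 3)) (.slot (nat_lit 0)) (.slot (nat_lit 0))) (.slot (nat_lit 5)) (.slot (nat_lit 5))) (.col (nat_lit 2))) (.slot (nat_lit 1))) (.col (nat_lit 1)) (.col (nat_lit 0)) (.col (nat_lit 2))
def w23036 : Root := .mk (.node (.col (nat_lit 1)) (.node (.col (nat_lit 0)) (.node (.node (.col (nat_lit 3)) (.slot (nat_lit 0)) (.slot (nat_lit 0))) (.slot (nat_lit 5)) (.slot (nat_lit 5))) (.node (.slot (nat_lit 0)) (.slot (nat_lit 0)) (.slot (nat_lit 0)))) (.slot (nat_lit 1))) (.col (nat_lit 1)) (.col (nat_lit 0)) (.col (nat_lit 2))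
def l5148 : Root := .mk (.node (.node (.col (nat_lit 1)) (.node .junk (.col (nat_lit 0)) (.col (nat_lit 2))) (.slot (nat_lit 1))) (.node (.node (.col (nat_lit 3)) (.slot (nat_lit 1)) (.slot (nat_lit 1))) (.slot (nat_lit 2)) (.slot (nat_lit 1))) (.col (nat_lit 1))) (.col (nat_lit 2)) (.col (nat_lit 3)) (.col (nat_lit 4))
def w23037 : Root := .mk (.node (.node (.col (nat_lit 1)) (.node .junk (.col (nat_lit 0)) (.col (nat_lit 2))) (.slot (nat_lit 1))) (.node (.node (.col (nat_lit 3)) (.slot (nat_lit 1)) (.slot (nat_lit 1))) (.slot (nat_lit 2)) (.slot (nat_lit 1))) (.node (.slot (nat_lit 0)) (.slot (nat_lit 0)) (.slot (nat_lit 0)))) (.col (nat_lit 2)) (.col (nat_lit 3)) (.col (nat_lit 4))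
def l5149 : Root := .mk (.node (.col (nat_lit 1)) (.node (.node (.col (nat_lit 2)) (.node (.col (nat_lit 0)) (.col (nat_lit 2)) (.node (.col (nat_lit 4)) (.slot (nat_lit 4)) (.slot (nat_lit 4)))) (.col (nat_lit 4))) (.col (nat_lit 4)) (.node (.slot (nat_lit 0)) (.slot (nat_lit 0)) (.slot (nat_lit 0)))) (.slot (nat_lit 1))) (.col (nat_lit 1)) (.col (nat_lit 0)) (.col (nat_lit 2))
def w23038 : Root := .mk (.node (.col (nat_lit 1)) (.node (.node (.col (nat_lit 2)) (.node (.col (nat_lit 0)) (.col (nat_lit 2)) (.slot (nat_lit 5))) (.col (nat_lit 4))) (.col (nat_lit 4)) (.node (.slot (nat_lit 0)) (.slot (nat_lit 0)) (.slot (nat_lit 0)))) (.slot (nat_lit 1))) (.col (nat_lit 1)) (.col (nat_lit 0)) (.col (nat_lit 2))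
def w23039 : Root := .mk (.node (.node (.node (.col (nat_lit 1)) (.node .junk (.col (nat_lit 0)) (.col (nat_lit 2))) (.slot (nat_lit 1))) (.node (.node (.col (nat_lit 3)) (.slot (nat_lit 1)) (.slot (nat_lit 1))) (.slot (nat_lit 2)) (.slot (nat_lit 1))) (.node (.slot (nat_lit 0)) (.slot (nat_lit 0)) (.slot (nat_lit 0)))) (.col (nat_lit 2)) (.col (nat_lit 4))) (.col (nat_lit 0)) (.col (nat_lit 2)) (.col (nat_lit 4))
def w23040 : Root := .mk (.node (.node (.node (.col (nat_lit 1)) (.node .junk (.col (nat_lit 0)) (.col (nat_lit 2))) (.slot (nat_lit 1))) (.node (.slot (nat_lit 0)) (.slot (nat_lit 0)) (.slot (nat_lit 0))) (.node (.slot (nat_lit 0)) (.slot (nat_lit 0)) (.slot (nat_lit 0)))) (.col (nat_lit 2)) (.col (nat_lit 4))) (.col (nat_lit 0)) (.col (nat_lit 2)) (.node (.col (nat_lit 0)) (.slot (nat_lit 0)) (.slot (nat_lit 0)))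
def w23041 : Root := .mk (.node (.node (.node (.col (nat_lit 1)) (.node .junk (.col (nat_lit 0)) (.col (nat_lit 2))) (.slot (nat_lit 1))) (.node (.slot (nat_lit 0)) (.slot (nat_lit 0)) (.slot (nat_lit 0))) (.node (.slot (nat_lit 0)) (.slot (nat_lit 0)) (.slot (nat_lit 0)))) (.col (nat_lit 2)) (.col (nat_lit 4))) (.col (nat_lit 0)) (.col (nat_lit 2)) (.node (.col (nat_lit 2)) (.slot (nat_lit 0)) (.slot (nat_lit 0)))
def w23042 : Root := .mk (.node (.node (.node (.col (nat_lit 1)) (.node .junk (.col (nat_lit 0)) (.col (nat_lit 2))) (.slot (nat_lit 1))) (.node (.slot (nat_lit 0)) (.slot (nat_lit 0)) (.slot (nat_lit 0))) (.node (.slot (nat_lit 0)) (.slot (nat_lit 0)) (.slot (nat_lit 0)))) (.col (nat_lit 2)) (.col (nat_lit 4))) (.col (nat_lit 0)) (.col (nat_lit 2)) (.node (.slot (nat_lit 0)) (.slot (nat_lit 0)) (.slot (nat_lit 0)))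
def w23043 : Root := .mk (.node (.node (.col (nat_lit 1)) (.node .junk (.col (nat_lit 0)) (.col (nat_lit 2))) (.slot (nat_lit 1))) (.node (.col (nat_lit 0)) (.slot (nat_lit 0)) (.slot (nat_lit 0))) (.node (.slot (nat_lit 0)) (.slot (nat_lit 0)) (.slot (nat_lit 0)))) (.col (nat_lit 2)) (.node (.col (nat_lit 0)) (.col (nat_lit 2)) (.slot (nat_lit 1))) (.col (nat_lit 4))
def w23044 : Root := .mk (.node (.node (.col (nat_lit 1)) (.node .junk (.col (nat_lit 0)) (.col (nat_lit 2))) (.slot (nat_lit 1))) (.node (.col (nat_lit 1)) (.slot (nat_lit 0)) (.slot (nat_lit 0))) (.node (.slot (nat_lit 0)) (.slot (nat_lit 0)) (.slot (nat_lit 0)))) (.col (nat_lit 2)) (.node (.col (nat_lit 0)) (.col (nat_lit 2)) (.slot (nat_lit 1))) (.col (nat_lit 4))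
def w23045 : Root := .mk (.node (.node (.col (nat_lit 1)) (.node .junk (.col (nat_lit 0)) (.col (nat_lit 2))) (.slot (nat_lit 1))) (.node (.slot (nat_lit 0)) (.col (nat_lit 3)) (.slot (nat_lit 0))) (.node (.slot (nat_lit 0)) (.slot (nat_lit 0)) (.slot (nat_lit 0)))) (.col (nat_lit 2)) (.node (.col (nat_lit 0)) (.col (nat_lit 2)) (.slot (nat_lit 1))) (.col (nat_lit 4))
def l5150 : Root := .mk (.node (.col (nat_lit 1)) (.node (.node (.col (nat_lit 2)) (.node (.col (nat_lit 0)) (.col (nat_lit 2)) (.slot (nat_lit 8))) (.col (nat_lit 4))) (.node (.node (.col (nat_lit 3)) (.slot (nat_lit 1)) (.slot (nat_lit 1))) (.slot (nat_lit 5)) (.slot (nat_lit 5))) (.node (.slot (nat_lit 0)) (.slot (nat_lit 1)) (.slot (nat_lit 1)))) (.slot (nat_lit 1))) (.col (nat_lit 1)) (.col (nat_lit 0)) (.col (nat_lit 2))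
def w23046 : Root := .mk (.node (.col (nat_lit 1)) (.node (.node (.col (nat_lit 2)) (.node (.col (nat_lit 0)) (.col (nat_lit 2)) (.slot (nat_lit 8))) (.slot (nat_lit 1))) (.node (.node (.col (nat_lit 3)) (.slot (nat_lit 1)) (.slot (nat_lit 1))) (.slot (nat_lit 5)) (.slot (nat_lit 5))) (.node (.slot (nat_lit 0)) (.slot (nat_lit 1)) (.slot (nat_lit 1)))) (.slot (nat_lit 1))) (.col (nat_lit 1)) (.col (nat_lit 0)) (.col (nat_lit 2))
def w23048 : Root := .mk (.node (.node (.col (nat_lit 1)) (.slot (nat_lit 0)) (.slot (nat_lit 0))) (.node (.col (nat_lit 2)) (.node (.col (nat_lit 0)) (.col (nat_lit 2)) (.slot (nat_lit 0))) (.slot (nat_lit 3))) (.node (.slot (nat_lit 0)) (.slot (nat_lit 1)) (.slot (nat_lit 0)))) (.col (nat_lit 4)) (.col (nat_lit 2)) (.slot (nat_lit 3))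
def w23049 : Root := .mk (.node (.node (.col (nat_lit 1)) (.node .junk (.col (nat_lit 0)) (.col (nat_lit 3))) (.slot (nat_lit 1))) (.node (.col (nat_lit 2)) (.node (.col (nat_lit 0)) (.col (nat_lit 2)) (.slot (nat_lit 0))) (.slot (nat_lit 1))) (.node (.slot (nat_lit 0)) (.slot (nat_lit 0)) (.slot (nat_lit 0)))) (.node (.col (nat_lit 3)) (.slot (nat_lit 1)) (.slot (nat_lit 0))) (.col (nat_lit 2)) (.node (.slot (nat_lit 0)) (.slot (nat_lit 0)) (.slot (nat_lit 0)))
def w23050 : Root := .mk (.node (.node (.node (.col (nat_lit 1)) (.node .junk (.col (nat_lit 0)) (.col (nat_lit 3))) (.slot (nat_lit 1))) (.node (.col (nat_lit 2)) (.node (.col (nat_lit 0)) (.col (nat_lit 2)) (.slot (nat_lit 0))) (.slot (nat_lit 1))) (.node (.slot (nat_lit 0)) (.slot (nat_lit 0)) (.slot (nat_lit 0)))) (.col (nat_lit 2)) (.slot (nat_lit 1))) (.col (nat_lit 3)) (.col (nat_lit 2)) (.slot (nat_lit 1))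
def w23051 : Root := .mk (.node (.col (nat_lit 1)) (.node (.node (.col (nat_lit 2)) (.node (.col (nat_lit 0)) (.col (nat_lit 2)) (.slot (nat_lit 1))) (.node (.col (nat_lit 1)) (.slot (nat_lit 1)) (.slot (nat_lit 1)))) (.node (.node (.col (nat_lit 3)) (.slot (nat_lit 1)) (.slot (nat_lit 1))) (.col (nat_lit 2)) (.slot (nat_lit 1))) (.node (.slot (nat_lit 0)) (.slot (nat_lit 0)) (.slot (nat_lit 0)))) (.slot (nat_lit 1))) (.col (nat_lit 1)) (.col (nat_lit 0)) (.col (nat_lit 3))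
def w23052 : Root := .mk (.node (.node (.col (nat_lit 1)) (.node .junk (.col (nat_lit 0)) (.col (nat_lit 3))) (.slot (nat_lit 1))) (.node (.node (.col (nat_lit 3)) (.slot (nat_lit 3)) (.slot (nat_lit 3))) (.col (nat_lit 2)) (.slot (nat_lit 2))) (.node (.slot (nat_lit 0)) (.slot (nat_lit 0)) (.slot (nat_lit 0)))) (.col (nat_lit 2)) (.slot (nat_lit 0)) (.node (.col (nat_lit 2)) (.slot (nat_lit 0)) (.slot (nat_lit 0)))
def w23053 : Root := .mk (.node (.node (.col (nat_lit 1)) (.slot (nat_lit 0)) (.slot (nat_lit 0))) (.node (.node (.col (nat_lit 3)) (.slot (nat_lit 7)) (.slot (nat_lit 5))) (.col (nat_lit 2)) (.slot (nat_lit 8))) (.slot (nat_lit 0))) (.col (nat_lit 2)) (.node (.col (nat_lit 0)) (.col (nat_lit 2)) (.slot (nat_lit 0))) (.node (.col (nat_lit 3)) (.slot (nat_lit 20)) (.slot (nat_lit 9)))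
def w23054 : Root := .mk (.node (.slot (nat_lit 0)) (.node (.node (.col (nat_lit 3)) (.slot (nat_lit 7)) (.slot (nat_lit 5))) (.col (nat_lit 2)) (.slot (nat_lit 8))) (.node (.slot (nat_lit 0)) (.slot (nat_lit 0)) (.slot (nat_lit 0)))) (.col (nat_lit 2)) (.node (.col (nat_lit 0)) (.col (nat_lit 2)) (.slot (nat_lit 1))) (.node (.col (nat_lit 4)) (.slot (nat_lit 1)) (.slot (nat_lit 1)))
def w23055 : Root := .mk (.node (.col (nat_lit 1)) (.node (.node (.col (nat_lit 2)) (.slot (nat_lit 0)) (.slot (nat_lit 0))) (.node (.node (.col (nat_lit 3)) (.slot (nat_lit 3)) (.slot (nat_lit 3))) (.col (nat_lit 2)) (.slot (nat_lit 4))) (.node (.col (nat_lit 0)) (.slot (nat_lit 4)) (.slot (nat_lit 4)))) (.slot (nat_lit 4))) (.col (nat_lit 1)) (.col (nat_lit 0)) (.col (nat_lit 3))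
def w23056 : Root := .mk (.node (.node (.node (.col (nat_lit 1)) (.slot (nat_lit 0)) (.slot (nat_lit 1))) (.node (.node (.col (nat_lit 3)) (.slot (nat_lit 1)) (.slot (nat_lit 1))) (.col (nat_lit 2)) (.slot (nat_lit 2))) (.node (.col (nat_lit 1)) (.slot (nat_lit 3)) (.slot (nat_lit 1)))) (.col (nat_lit 2)) (.slot (nat_lit 5))) (.col (nat_lit 0)) (.col (nat_lit 2)) (.slot (nat_lit 0))
def w23057 : Root := .mk (.node (.col (nat_lit 1)) (.node .junk (.col (nat_lit 0)) (.col (nat_lit 3))) (.slot (nat_lit 1))) (.node (.col (nat_lit 2)) (.node (.col (nat_lit 0)) (.col (nat_lit 2)) (.slot (nat_lit 0))) (.slot (nat_lit 1))) (.col (nat_lit 1)) (.node (.slot (nat_lit 0)) (.col (nat_lit 0)) (.slot (nat_lit 1)))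
def w23058 : Root := .mk (.node (.node (.node (.col (nat_lit 1)) (.node .junk (.col (nat_lit 0)) (.col (nat_lit 3))) (.slot (nat_lit 1))) (.node (.node (.col (nat_lit 3)) (.slot (nat_lit 1)) (.slot (nat_lit 1))) (.col (nat_lit 2)) (.slot (nat_lit 2))) (.node (.slot (nat_lit 0)) (.col (nat_lit 0)) (.slot (nat_lit 1)))) (.col (nat_lit 2)) (.slot (nat_lit 1))) (.col (nat_lit 0)) (.col (nat_lit 2)) (.slot (nat_lit 0))
def w23059 : Root := .mk (.node (.col (nat_lit 1)) (.node (.node (.col (nat_lit 2)) .junk (.col (nat_lit 1))) (.col (nat_lit 4)) (.node (.slot (nat_lit 0)) (.col (nat_lit 1)) (.slot (nat_lit 0)))) (.slot (nat_lit 1))) (.col (nat_lit 1)) (.col (nat_lit 0)) (.col (nat_lit 3))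
def w23060 : Root := .mk (.col (nat_lit 1)) (.slot (nat_lit 0)) (.node (.node (.col (nat_lit 2)) (.node (.col (nat_lit 0)) (.col (nat_lit 2)) (.slot (nat_lit 1))) (.col (nat_lit 1))) (.col (nat_lit 4)) (.node (.slot (nat_lit 0)) (.col (nat_lit 1)) (.slot (nat_lit 0)))) (.col (nat_lit 0))
def l5151 : Root := .mk (.node (.col (nat_lit 1)) (.node (.node (.col (nat_lit 2)) (.node (.col (nat_lit 0)) (.col (nat_lit 2)) (.slot (nat_lit 1))) (.col (nat_lit 1))) (.col (nat_lit 4)) (.node (.slot (nat_lit 0)) (.col (nat_lit 1)) (.slot (nat_lit 1)))) (.slot (nat_lit 1))) (.col (nat_lit 1)) (.col (nat_lit 0)) (.col (nat_lit 3))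
def w23061 : Root := .mk (.node (.col (nat_lit 1)) (.node (.node (.col (nat_lit 2)) (.node (.col (nat_lit 0)) (.col (nat_lit 2)) (.slot (nat_lit 1))) (.slot (nat_lit 1))) (.col (nat_lit 4)) (.node (.slot (nat_lit 0)) (.col (nat_lit 1)) (.slot (nat_lit 1)))) (.slot (nat_lit 1))) (.col (nat_lit 1)) (.col (nat_lit 0)) (.col (nat_lit 3))
def w23062 : Root := .mk (.node (.col (nat_lit 1)) (.node (.node (.col (nat_lit 2)) (.node (.col (nat_lit 0)) (.col (nat_lit 2)) (.slot (nat_lit 1))) (.slot (nat_lit 1))) (.node (.node (.col (nat_lit 3)) (.slot (nat_lit 1)) (.slot (nat_lit 1))) (.col (nat_lit 2)) (.slot (nat_lit 2))) (.node (.slot (nat_lit 0)) (.col (nat_lit 1)) (.slot (nat_lit 1)))) (.slot (nat_lit 1))) (.col (nat_lit 1)) (.col (nat_lit 0)) (.col (nat_lit 3))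
def w23063 : Root := .mk (.node (.node (.col (nat_lit 1)) (.node .junk (.col (nat_lit 0)) (.col (nat_lit 3))) (.slot (nat_lit 1))) (.col (nat_lit 4)) (.node (.slot (nat_lit 0)) (.col (nat_lit 2)) (.slot (nat_lit 1)))) (.col (nat_lit 2)) (.node (.col (nat_lit 0)) .junk (.slot (nat_lit 1))) (.col (nat_lit 4))
def w23064 : Root := .mk (.node (.node (.node (.col (nat_lit 1)) (.slot (nat_lit 0)) (.slot (nat_lit 0))) (.col (nat_lit 4)) (.node (.slot (nat_lit 0)) (.col (nat_lit 2)) (.slot (nat_lit 4)))) (.col (nat_lit 2)) (.node (.col (nat_lit 0)) (.slot (nat_lit 1)) (.slot (nat_lit 1)))) (.col (nat_lit 0)) (.col (nat_lit 2)) (.col (nat_lit 1))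
def w23065 : Root := .mk (.node (.node (.node (.col (nat_lit 1)) (.slot (nat_lit 0)) (.slot (nat_lit 0))) (.col (nat_lit 4)) (.node (.slot (nat_lit 0)) (.col (nat_lit 2)) (.slot (nat_lit 4)))) (.col (nat_lit 2)) (.node (.col (nat_lit 0)) (.slot (nat_lit 1)) (.slot (nat_lit 1)))) (.col (nat_lit 0)) (.col (nat_lit 2)) (.col (nat_lit 3))
def w23066 : Root := .mk (.node (.node (.node (.col (nat_lit 1)) (.node .junk (.col (nat_lit 0)) (.col (nat_lit 3))) (.slot (nat_lit 1))) (.col (nat_lit 4)) (.node (.slot (nat_lit 0)) (.col (nat_lit 2)) (.slot (nat_lit 1)))) (.col (nat_lit 2)) (.node (.col (nat_lit 0)) (.slot (nat_lit 1)) (.slot (nat_lit 1)))) (.col (nat_lit 0)) (.col (nat_lit 2)) (.node (.col (nat_lit 0)) (.slot (nat_lit 0)) (.slot (nat_lit 0)))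
def w23068 : Root := .mk (.node (.node (.col (nat_lit 1)) (.node .junk (.col (nat_lit 0)) (.col (nat_lit 3))) (.slot (nat_lit 1))) (.col (nat_lit 4)) (.node (.slot (nat_lit 0)) (.col (nat_lit 2)) (.slot (nat_lit 1)))) (.col (nat_lit 2)) (.node (.col (nat_lit 0)) (.col (nat_lit 2)) (.slot (nat_lit 2))) (.node (.col (nat_lit 0)) (.node (.slot (nat_lit 0)) (.slot (nat_lit 0)) (.slot (nat_lit 0))) (.slot (nat_lit 0)))
def l5152 : Root := .mk (.node (.node (.col (nat_lit 1)) (.node .junk (.col (nat_lit 0)) (.col (nat_lit 3))) (.slot (nat_lit 1))) (.col (nat_lit 4)) (.node (.slot (nat_lit 0)) (.col (nat_lit 2)) (.slot (nat_lit 4)))) (.col (nat_lit 2)) (.node (.col (nat_lit 0)) (.col (nat_lit 2)) (.slot (nat_lit 5))) (.node (.col (nat_lit 0)) (.slot (nat_lit 20)) (.slot (nat_lit 9)))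
def w23069 : Root := .mk (.node (.col (nat_lit 1)) (.node .junk (.col (nat_lit 0)) (.col (nat_lit 3))) (.slot (nat_lit 1))) (.node (.col (nat_lit 2)) (.node (.col (nat_lit 0)) (.col (nat_lit 2)) (.slot (nat_lit 5))) (.slot (nat_lit 21))) (.col (nat_lit 4)) (.node (.slot (nat_lit 0)) (.col (nat_lit 2)) (.slot (nat_lit 4)))
def w23070 : Root := .mk (.node (.node (.node (.col (nat_lit 1)) (.node .junk (.col (nat_lit 0)) (.col (nat_lit 3))) (.slot (nat_lit 1))) (.node (.node (.col (nat_lit 3)) (.slot (nat_lit 1)) (.slot (nat_lit 1))) (.col (nat_lit 2)) (.slot (nat_lit 2))) (.node (.slot (nat_lit 0)) (.col (nat_lit 2)) (.slot (nat_lit 4)))) (.col (nat_lit 2)) (.slot (nat_lit 21))) (.col (nat_lit 0)) (.col (nat_lit 2)) (.slot (nat_lit 5))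
def w23071 : Root := .mk (.node (.col (nat_lit 1)) (.node .junk (.col (nat_lit 0)) (.col (nat_lit 3))) (.slot (nat_lit 1))) (.node (.col (nat_lit 2)) (.slot (nat_lit 0)) (.slot (nat_lit 1))) (.node (.node (.col (nat_lit 3)) (.slot (nat_lit 3)) (.slot (nat_lit 3))) (.col (nat_lit 2)) (.slot (nat_lit 5))) (.node (.slot (nat_lit 0)) (.col (nat_lit 3)) (.slot (nat_lit 0)))
def w23072 : Root := .mk (.node (.col (nat_lit 1)) (.node .junk (.col (nat_lit 0)) (.col (nat_lit 3))) (.slot (nat_lit 1))) (.node (.col (nat_lit 2)) (.slot (nat_lit 0)) (.slot (nat_lit 1))) (.node (.node (.col (nat_lit 3)) (.slot (nat_lit 3)) (.slot (nat_lit 3))) (.col (nat_lit 2)) (.slot (nat_lit 5))) (.node (.slot (nat_lit 0)) (.col (nat_lit 4)) (.slot (nat_lit 0)))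
def w23073 : Root := .mk (.node (.col (nat_lit 1)) (.node (.node (.col (nat_lit 2)) (.node (.col (nat_lit 0)) .junk (.col (nat_lit 3))) (.slot (nat_lit 1))) (.node (.node (.col (nat_lit 3)) (.slot (nat_lit 1)) (.slot (nat_lit 1))) (.col (nat_lit 2)) (.slot (nat_lit 1))) (.node (.slot (nat_lit 0)) (.slot (nat_lit 0)) (.slot (nat_lit 0)))) (.slot (nat_lit 1))) (.col (nat_lit 1)) (.col (nat_lit 0)) (.col (nat_lit 3))
def l5153 : Root := .mk (.node (.col (nat_lit 1)) (.node (.node (.col (nat_lit 2)) (.node (.col (nat_lit 0)) (.col (nat_lit 2)) (.slot (nat_lit 5))) (.slot (nat_lit 21))) (.node (.node (.col (nat_lit 3)) (.slot (nat_lit 12)) (.slot (nat_lit 20))) (.col (nat_lit 2)) (.slot (nat_lit 21))) (.node (.slot (nat_lit 0)) (.slot (nat_lit 4)) (.slot (nat_lit 4)))) (.slot (nat_lit 4))) (.col (nat_lit 1)) (.col (nat_lit 0)) (.col (nat_lit 3))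
def w23074 : Root := .mk (.node (.col (nat_lit 1)) (.node (.node (.col (nat_lit 2)) (.node (.col (nat_lit 0)) (.col (nat_lit 2)) (.slot (nat_lit 5))) (.slot (nat_lit 21))) (.node (.node (.col (nat_lit 3)) (.slot (nat_lit 20)) (.slot (nat_lit 12))) (.slot (nat_lit 1)) (.slot (nat_lit 21))) (.node (.slot (nat_lit 0)) (.slot (nat_lit 4)) (.slot (nat_lit 4)))) (.slot (nat_lit 4))) (.col (nat_lit 1)) (.col (nat_lit 0)) (.col (nat_lit 3))
def w23075 : Root := .mk (.node (.col (nat_lit 1)) (.node (.node (.col (nat_lit 2)) (.node (.col (nat_lit 0)) (.col (nat_lit 2)) (.slot (nat_lit 0))) (.slot (nat_lit 4))) (.col (nat_lit 3)) (.node (.slot (nat_lit 0)) (.slot (nat_lit 0)) (.slot (nat_lit 0)))) (.slot (nat_lit 1))) (.col (nat_lit 1)) (.col (nat_lit 0)) (.col (nat_lit 4))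
def l5154 : Root := .mk (.col (nat_lit 1)) (.col (nat_lit 2)) (.node (.node (.col (nat_lit 2)) (.node (.col (nat_lit 0)) (.col (nat_lit 2)) (.slot (nat_lit 1))) (.slot (nat_lit 6))) (.node (.node (.col (nat_lit 3)) (.slot (nat_lit 0)) (.slot (nat_lit 0))) (.col (nat_lit 2)) (.col (nat_lit 3))) (.col (nat_lit 0))) (.col (nat_lit 4))
def w23076 : Root := .mk (.node (.col (nat_lit 1)) (.node (.node (.col (nat_lit 2)) (.node (.col (nat_lit 0)) (.col (nat_lit 2)) (.slot (nat_lit 1))) (.slot (nat_lit 6))) (.node (.node (.col (nat_lit 3)) (.slot (nat_lit 0)) (.slot (nat_lit 0))) (.col (nat_lit 2)) (.col (nat_lit 3))) (.col (nat_lit 0))) (.col (nat_lit 4))) (.col (nat_lit 1)) (.col (nat_lit 0)) (.col (nat_lit 4))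
def l5155 : Root := .mk (.node (.col (nat_lit 1)) (.node (.node (.col (nat_lit 2)) (.node (.col (nat_lit 0)) (.col (nat_lit 2)) (.slot (nat_lit 1))) (.slot (nat_lit 6))) (.node (.node (.col (nat_lit 3)) (.slot (nat_lit 0)) (.slot (nat_lit 0))) (.col (nat_lit 2)) (.col (nat_lit 3))) (.col (nat_lit 0))) (.slot (nat_lit 1))) (.col (nat_lit 1)) (.col (nat_lit 0)) (.col (nat_lit 4))
def w23077 : Root := .mk (.node (.col (nat_lit 1)) (.node (.node (.col (nat_lit 2)) (.node (.col (nat_lit 0)) (.col (nat_lit 2)) (.slot (nat_lit 1))) (.slot (nat_lit 6))) (.node (.node (.col (nat_lit 3)) (.slot (nat_lit 0)) (.slot (nat_lit 0))) (.col (nat_lit 2)) (.col (nat_lit 3))) (.node (.slot (nat_lit 0)) (.slot (nat_lit 0)) (.slot (nat_lit 0)))) (.slot (nat_lit 1))) (.col (nat_lit 1)) (.col (nat_lit 0)) (.col (nat_lit 4))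
def w23078 : Root := .mk (.node (.node (.col (nat_lit 1)) (.node .junk (.col (nat_lit 0)) (.col (nat_lit 4))) (.slot (nat_lit 1))) (.node (.col (nat_lit 2)) (.slot (nat_lit 0)) (.slot (nat_lit 0))) (.node (.slot (nat_lit 0)) (.slot (nat_lit 0)) (.slot (nat_lit 0)))) (.node (.col (nat_lit 3)) (.slot (nat_lit 2)) (.slot (nat_lit 1))) (.col (nat_lit 2)) (.node (.slot (nat_lit 0)) (.slot (nat_lit 0)) (.slot (nat_lit 0)))
def w23079 : Root := .mk (.node (.col (nat_lit 1)) (.node (.node (.col (nat_lit 2)) (.slot (nat_lit 0)) (.slot (nat_lit 0))) (.node (.node (.col (nat_lit 3)) (.slot (nat_lit 1)) (.slot (nat_lit 1))) (.col (nat_lit 2)) (.slot (nat_lit 2))) (.col (nat_lit 2))) (.slot (nat_lit 1))) (.col (nat_lit 1)) (.col (nat_lit 0)) (.col (nat_lit 4))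
def w23080 : Root := .mk (.node (.node (.node (.col (nat_lit 1)) (.node .junk (.col (nat_lit 0)) (.col (nat_lit 4))) (.slot (nat_lit 1))) (.slot (nat_lit 0)) (.node (.slot (nat_lit 0)) (.slot (nat_lit 0)) (.slot (nat_lit 0)))) (.col (nat_lit 2)) (.slot (nat_lit 8))) (.col (nat_lit 3)) (.col (nat_lit 2)) (.slot (nat_lit 5))
def l5156 : Root := .mk (.node (.col (nat_lit 1)) (.node (.node (.col (nat_lit 2)) (.node (.col (nat_lit 0)) (.col (nat_lit 2)) (.slot (nat_lit 5))) (.slot (nat_lit 8))) (.node (.node (.col (nat_lit 3)) (.slot (nat_lit 12)) (.slot (nat_lit 20))) (.col (nat_lit 2)) (.slot (nat_lit 21))) (.node (.slot (nat_lit 0)) (.slot (nat_lit 0)) (.slot (nat_lit 0)))) (.slot (nat_lit 1))) (.col (nat_lit 1)) (.col (nat_lit 0)) (.col (nat_lit 4))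
def w23081 : Root := .mk (.node (.col (nat_lit 1)) (.node (.node (.col (nat_lit 2)) (.node (.col (nat_lit 0)) (.col (nat_lit 2)) (.slot (nat_lit 5))) (.slot (nat_lit 8))) (.node (.node (.col (nat_lit 3)) (.slot (nat_lit 20)) (.slot (nat_lit 12))) (.slot (nat_lit 1)) (.slot (nat_lit 21))) (.node (.slot (nat_lit 0)) (.slot (nat_lit 0)) (.slot (nat_lit 0)))) (.slot (nat_lit 1))) (.col (nat_lit 1)) (.col (nat_lit 0)) (.col (nat_lit 4))
def w23086 : Root := .mk (.node (.col (nat_lit 1)) (.node (.node (.col (nat_lit 2)) (.node (.col (nat_lit 0)) .junk (.col (nat_lit 1))) (.slot (nat_lit 1))) (.col (nat_lit 4)) (.node (.slot (nat_lit 0)) (.slot (nat_lit 0)) (.slot (nat_lit 0)))) (.slot (nat_lit 3))) (.col (nat_lit 1)) (.col (nat_lit 0)) (.node (.col (nat_lit 0)) (.slot (nat_lit 3)) (.slot (nat_lit 1)))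
def l5159 : Root := .mk (.node (.node (.node (.col (nat_lit 1)) (.node (.col (nat_lit 1)) (.col (nat_lit 0)) (.node (.col (nat_lit 0)) (.slot (nat_lit 3)) (.slot (nat_lit 1)))) (.slot (nat_lit 3))) (.col (nat_lit 4)) (.node (.slot (nat_lit 0)) (.slot (nat_lit 0)) (.slot (nat_lit 0)))) (.col (nat_lit 2)) (.slot (nat_lit 3))) (.col (nat_lit 0)) (.col (nat_lit 2)) (.node (.col (nat_lit 3)) (.slot (nat_lit 20)) (.slot (nat_lit 9)))
def w23087 : Root := .mk (.node (.col (nat_lit 1)) (.node (.node (.col (nat_lit 2)) (.node (.col (nat_lit 0)) (.col (nat_lit 2)) (.slot (nat_lit 21))) (.slot (nat_lit 3))) (.col (nat_lit 4)) (.node (.slot (nat_lit 0)) (.slot (nat_lit 0)) (.slot (nat_lit 0)))) (.slot (nat_lit 3))) (.col (nat_lit 1)) (.col (nat_lit 0)) (.node (.col (nat_lit 0)) (.slot (nat_lit 3)) (.slot (nat_lit 1)))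
def w23090 : Root := .mk (.node (.col (nat_lit 1)) (.node (.node (.col (nat_lit 2)) (.slot (nat_lit 0)) (.slot (nat_lit 0))) (.node (.col (nat_lit 2)) (.col (nat_lit 0)) (.slot (nat_lit 3))) (.node (.slot (nat_lit 0)) (.slot (nat_lit 0)) (.slot (nat_lit 0)))) (.slot (nat_lit 3))) (.col (nat_lit 1)) (.col (nat_lit 0)) (.node (.col (nat_lit 0)) (.slot (nat_lit 3)) (.slot (nat_lit 1)))
def w23105 : Root := .mk (.node (.slot (nat_lit 0)) (.node (.node (.col (nat_lit 3)) (.slot (nat_lit 7)) (.slot (nat_lit 5))) (.col (nat_lit 0)) (.slot (nat_lit 8))) (.node (.slot (nat_lit 0)) (.slot (nat_lit 0)) (.slot (nat_lit 0)))) (.col (nat_lit 2)) (.node (.col (nat_lit 0)) (.col (nat_lit 2)) (.slot (nat_lit 1))) (.node (.col (nat_lit 1)) (.slot (nat_lit 1)) (.slot (nat_lit 1)))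
def l5164 : Root := .mk (.node (.node (.col (nat_lit 1)) (.node .junk (.col (nat_lit 0)) .junk) (.slot (nat_lit 1))) (.node (.col (nat_lit 1)) (.col (nat_lit 2)) (.slot (nat_lit 6))) (.node (.slot (nat_lit 0)) (.slot (nat_lit 0)) (.slot (nat_lit 0)))) (.col (nat_lit 2)) (.node (.col (nat_lit 0)) (.col (nat_lit 2)) (.slot (nat_lit 5))) (.col (nat_lit 1))
def w23121 : Root := .mk (.node (.node (.col (nat_lit 1)) (.node .junk (.col (nat_lit 0)) .junk) (.slot (nat_lit 1))) (.node (.col (nat_lit 2)) (.node (.col (nat_lit 0)) (.col (nat_lit 2)) (.slot (nat_lit 5))) (.slot (nat_lit 1))) (.node (.slot (nat_lit 0)) (.slot (nat_lit 0)) (.slot (nat_lit 0)))) (.col (nat_lit 1)) (.col (nat_lit 2)) (.slot (nat_lit 6))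
def w23122 : Root := .mk (.node (.node (.col (nat_lit 1)) (.node (.col (nat_lit 1)) (.col (nat_lit 0)) (.node (.col (nat_lit 0)) (.slot (nat_lit 3)) (.slot (nat_lit 1)))) (.slot (nat_lit 3))) (.node (.col (nat_lit 2)) (.slot (nat_lit 0)) (.slot (nat_lit 1))) (.node (.slot (nat_lit 0)) (.slot (nat_lit 0)) (.slot (nat_lit 0)))) (.node (.col (nat_lit 3)) (.slot (nat_lit 0)) (.slot (nat_lit 0))) (.col (nat_lit 2)) (.col (nat_lit 3))
def l5165 : Root := .mk (.node (.node (.col (nat_lit 1)) (.node (.col (nat_lit 1)) (.col (nat_lit 0)) (.node (.col (nat_lit 0)) (.slot (nat_lit 0)) (.slot (nat_lit 0)))) (.slot (nat_lit 1))) (.col (nat_lit 0)) (.node (.slot (nat_lit 0)) (.slot (nat_lit 0)) (.slot (nat_lit 0)))) (.col (nat_lit 4)) (.col (nat_lit 2)) (.col (nat_lit 1))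
def w23133 : Root := .mk (.col (nat_lit 1)) (.node (.col (nat_lit 1)) (.col (nat_lit 0)) (.node (.col (nat_lit 0)) (.slot (nat_lit 0)) (.slot (nat_lit 0)))) (.node (.node (.col (nat_lit 2)) (.slot (nat_lit 0)) (.slot (nat_lit 1))) (.node (.slot (nat_lit 0)) (.col (nat_lit 2)) (.node (.slot (nat_lit 0)) (.slot (nat_lit 0)) (.slot (nat_lit 0)))) (.node (.slot (nat_lit 0)) (.slot (nat_lit 0)) (.slot (nat_lit 0)))) (.col (nat_lit 2))
def w23134 : Root := .mk (.col (nat_lit 1)) (.col (nat_lit 3)) (.node (.node (.col (nat_lit 2)) (.node (.col (nat_lit 0)) (.col (nat_lit 2)) (.slot (nat_lit 1))) (.slot (nat_lit 1))) (.node (.slot (nat_lit 0)) (.col (nat_lit 2)) (.slot (nat_lit 0))) (.node (.slot (nat_lit 0)) (.slot (nat_lit 0)) (.slot (nat_lit 0)))) (.col (nat_lit 2))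
def w23137 : Root := .mk (.node (.col (nat_lit 1)) (.node (.node (.col (nat_lit 2)) (.slot (nat_lit 0)) (.slot (nat_lit 0))) (.node (.node (.col (nat_lit 3)) (.slot (nat_lit 2)) (.slot (nat_lit 1))) (.col (nat_lit 2)) (.node (.slot (nat_lit 0)) (.slot (nat_lit 0)) (.slot (nat_lit 0)))) (.node (.slot (nat_lit 0)) (.slot (nat_lit 0)) (.slot (nat_lit 0)))) (.slot (nat_lit 3))) (.col (nat_lit 1)) (.col (nat_lit 0)) (.node (.col (nat_lit 0)) (.slot (nat_lit 3)) (.slot (nat_lit 1)))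
def w23138 : Root := .mk (.node (.col (nat_lit 1)) (.node (.col (nat_lit 1)) (.node (.node (.col (nat_lit 3)) (.slot (nat_lit 1)) (.slot (nat_lit 0))) (.col (nat_lit 2)) (.slot (nat_lit 1))) (.node (.slot (nat_lit 0)) (.slot (nat_lit 0)) (.slot (nat_lit 0)))) (.slot (nat_lit 3))) (.col (nat_lit 1)) (.col (nat_lit 0)) (.node (.col (nat_lit 0)) (.slot (nat_lit 3)) (.slot (nat_lit 1)))
def w23139 : Root := .mk (.node (.col (nat_lit 1)) (.node (.col (nat_lit 4)) (.node (.node (.col (nat_lit 3)) (.slot (nat_lit 1)) (.slot (nat_lit 1))) (.col (nat_lit 2)) (.slot (nat_lit 3))) (.node (.slot (nat_lit 0)) (.slot (nat_lit 0)) (.slot (nat_lit 0)))) (.slot (nat_lit 3))) (.col (nat_lit 1)) (.col (nat_lit 0)) (.slot (nat_lit 0))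
def w23140 : Root := .mk (.node (.col (nat_lit 1)) .junk (.slot (nat_lit 1))) (.node (.col (nat_lit 2)) (.node (.col (nat_lit 0)) (.col (nat_lit 2)) (.slot (nat_lit 8))) (.slot (nat_lit 2))) (.node (.node (.col (nat_lit 3)) (.slot (nat_lit 1)) (.slot (nat_lit 1))) (.col (nat_lit 2)) (.slot (nat_lit 2))) (.col (nat_lit 2))
def w23141 : Root := .mk (.node (.col (nat_lit 1)) (.node (.slot (nat_lit 0)) (.node (.node (.col (nat_lit 3)) (.col (nat_lit 2)) (.slot (nat_lit 5))) (.col (nat_lit 2)) (.slot (nat_lit 8))) (.node (.slot (nat_lit 0)) (.slot (nat_lit 0)) (.slot (nat_lit 0)))) (.slot (nat_lit 3))) (.col (nat_lit 1)) (.col (nat_lit 0)) (.node (.col (nat_lit 0)) (.slot (nat_lit 3)) (.slot (nat_lit 1)))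
def w23142 : Root := .mk (.node (.node (.node (.col (nat_lit 1)) (.slot (nat_lit 0)) (.slot (nat_lit 1))) (.node (.node (.col (nat_lit 3)) (.slot (nat_lit 1)) (.slot (nat_lit 1))) (.col (nat_lit 2)) (.slot (nat_lit 2))) (.node (.col (nat_lit 0)) (.slot (nat_lit 1)) (.slot (nat_lit 1)))) (.col (nat_lit 2)) (.slot (nat_lit 1))) (.col (nat_lit 0)) (.col (nat_lit 2)) (.slot (nat_lit 3))
def w23143 : Root := .mk (.node (.node (.node (.col (nat_lit 1)) (.slot (nat_lit 0)) (.slot (nat_lit 0))) (.node (.node (.col (nat_lit 3)) (.slot (nat_lit 1)) (.slot (nat_lit 1))) (.col (nat_lit 2)) (.slot (nat_lit 2))) (.node (.col (nat_lit 3)) (.slot (nat_lit 1)) (.slot (nat_lit 0)))) (.col (nat_lit 2)) (.slot (nat_lit 1))) (.col (nat_lit 0)) (.col (nat_lit 2)) (.slot (nat_lit 5))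
def l5170 : Root := .mk (.node (.node (.col (nat_lit 1)) (.slot (nat_lit 0)) (.slot (nat_lit 1))) (.col (nat_lit 0)) (.node (.slot (nat_lit 0)) (.col (nat_lit 0)) (.slot (nat_lit 0)))) (.col (nat_lit 2)) (.node (.col (nat_lit 0)) (.col (nat_lit 2)) (.slot (nat_lit 5))) (.col (nat_lit 1))
def w23144 : Root := .mk (.node (.col (nat_lit 1)) (.slot (nat_lit 0)) (.slot (nat_lit 1))) (.node (.col (nat_lit 2)) (.node (.col (nat_lit 0)) (.col (nat_lit 2)) (.slot (nat_lit 5))) (.slot (nat_lit 1))) (.col (nat_lit 0)) (.node (.slot (nat_lit 0)) (.col (nat_lit 0)) (.slot (nat_lit 0)))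
def w23145 : Root := .mk (.node (.node (.node (.col (nat_lit 1)) (.slot (nat_lit 0)) (.slot (nat_lit 1))) (.node (.node (.col (nat_lit 3)) (.slot (nat_lit 1)) (.slot (nat_lit 1))) (.col (nat_lit 2)) (.slot (nat_lit 2))) (.node (.slot (nat_lit 0)) (.col (nat_lit 0)) (.slot (nat_lit 0)))) (.col (nat_lit 2)) (.slot (nat_lit 1))) (.col (nat_lit 0)) (.col (nat_lit 2)) (.slot (nat_lit 5))
def w23146 : Root := .mk (.node (.node (.node (.col (nat_lit 1)) (.slot (nat_lit 0)) (.slot (nat_lit 0))) (.node (.node (.col (nat_lit 3)) (.slot (nat_lit 1)) (.slot (nat_lit 1))) (.col (nat_lit 2)) (.slot (nat_lit 2))) (.node (.slot (nat_lit 0)) (.col (nat_lit 1)) (.slot (nat_lit 1)))) (.col (nat_lit 2)) (.slot (nat_lit 1))) (.col (nat_lit 0)) (.col (nat_lit 2)) (.slot (nat_lit 5))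
def w23147 : Root := .mk (.node (.col (nat_lit 1)) (.node (.node (.col (nat_lit 2)) (.slot (nat_lit 0)) (.slot (nat_lit 1))) (.col (nat_lit 0)) (.node (.slot (nat_lit 0)) (.col (nat_lit 2)) (.slot (nat_lit 1)))) (.slot (nat_lit 1))) (.col (nat_lit 1)) (.col (nat_lit 0)) (.node (.col (nat_lit 0)) (.slot (nat_lit 0)) (.slot (nat_lit 0)))
def w23148 : Root := .mk (.node (.col (nat_lit 1)) (.node (.node (.col (nat_lit 2)) (.slot (nat_lit 0)) (.slot (nat_lit 1))) (.node (.node (.col (nat_lit 3)) (.slot (nat_lit 1)) (.slot (nat_lit 1))) (.col (nat_lit 2)) (.slot (nat_lit 2))) (.node (.slot (nat_lit 0)) (.col (nat_lit 2)) (.slot (nat_lit 1)))) (.slot (nat_lit 1))) (.col (nat_lit 1)) (.col (nat_lit 0)) (.node (.col (nat_lit 0)) (.slot (nat_lit 0)) (.slot (nat_lit 0)))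
def w23149 : Root := .mk (.node (.node (.node (.col (nat_lit 1)) (.slot (nat_lit 0)) (.slot (nat_lit 0))) (.node (.node (.col (nat_lit 3)) (.slot (nat_lit 1)) (.slot (nat_lit 1))) (.col (nat_lit 2)) (.slot (nat_lit 2))) (.node (.slot (nat_lit 0)) (.col (nat_lit 4)) (.slot (nat_lit 1)))) (.col (nat_lit 2)) (.slot (nat_lit 1))) (.col (nat_lit 0)) (.col (nat_lit 2)) (.slot (nat_lit 5))
def l5171 : Root := .mk (.node (.col (nat_lit 1)) (.node (.node (.col (nat_lit 2)) (.node (.col (nat_lit 0)) (.col (nat_lit 2)) (.slot (nat_lit 21))) (.slot (nat_lit 8))) (.node (.node (.col (nat_lit 3)) (.slot (nat_lit 12)) (.slot (nat_lit 20))) (.col (nat_lit 2)) (.slot (nat_lit 21))) (.node (.slot (nat_lit 0)) (.slot (nat_lit 4)) (.slot (nat_lit 4)))) (.slot (nat_lit 3))) (.col (nat_lit 1)) (.col (nat_lit 0)) (.node (.col (nat_lit 0)) (.slot (nat_lit 3)) (.slot (nat_lit 1)))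
def w23150 : Root := .mk (.node (.col (nat_lit 1)) (.node (.node (.col (nat_lit 2)) (.node (.col (nat_lit 0)) (.col (nat_lit 2)) (.slot (nat_lit 21))) (.slot (nat_lit 8))) (.node (.node (.col (nat_lit 3)) (.slot (nat_lit 20)) (.slot (nat_lit 12))) (.slot (nat_lit 1)) (.slot (nat_lit 21))) (.node (.slot (nat_lit 0)) (.slot (nat_lit 4)) (.slot (nat_lit 4)))) (.slot (nat_lit 3))) (.col (nat_lit 1)) (.col (nat_lit 0)) (.node (.col (nat_lit 0)) (.slot (nat_lit 3)) (.slot (nat_lit 1)))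
def w23153 : Root := .mk (.node (.col (nat_lit 1)) (.node (.node (.col (nat_lit 2)) (.node (.col (nat_lit 0)) .junk (.col (nat_lit 1))) (.slot (nat_lit 1))) (.col (nat_lit 3)) (.node (.slot (nat_lit 0)) (.slot (nat_lit 0)) (.slot (nat_lit 0)))) (.slot (nat_lit 3))) (.col (nat_lit 1)) (.col (nat_lit 0)) (.node (.col (nat_lit 1)) (.slot (nat_lit 3)) (.slot (nat_lit 1)))
def l5173 : Root := .mk (.node (.node (.node (.col (nat_lit 1)) (.node (.col (nat_lit 1)) (.col (nat_lit 0)) (.node (.col (nat_lit 1)) (.slot (nat_lit 3)) (.slot (nat_lit 1)))) (.slot (nat_lit 3))) (.col (nat_lit 3)) (.node (.slot (nat_lit 0)) (.slot (nat_lit 0)) (.slot (nat_lit 0)))) (.col (nat_lit 2)) (.slot (nat_lit 3))) (.col (nat_lit 0)) (.col (nat_lit 2)) (.node (.col (nat_lit 4)) (.slot (nat_lit 20)) (.slot (nat_lit 9)))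
def w23154 : Root := .mk (.node (.col (nat_lit 1)) (.node (.node (.col (nat_lit 2)) (.node (.col (nat_lit 0)) (.col (nat_lit 2)) (.slot (nat_lit 21))) (.slot (nat_lit 3))) (.col (nat_lit 3)) (.node (.slot (nat_lit 0)) (.slot (nat_lit 0)) (.slot (nat_lit 0)))) (.slot (nat_lit 3))) (.col (nat_lit 1)) (.col (nat_lit 0)) (.node (.col (nat_lit 1)) (.slot (nat_lit 3)) (.slot (nat_lit 1)))
def w23156 : Root := .mk (.node (.col (nat_lit 1)) (.node (.node (.col (nat_lit 2)) (.slot (nat_lit 0)) (.slot (nat_lit 0))) (.node (.col (nat_lit 2)) (.col (nat_lit 0)) (.slot (nat_lit 3))) (.node (.slot (nat_lit 0)) (.slot (nat_lit 0)) (.slot (nat_lit 0)))) (.slot (nat_lit 3))) (.col (nat_lit 1)) (.col (nat_lit 0)) (.node (.col (nat_lit 1)) (.slot (nat_lit 3)) (.slot (nat_lit 1)))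
def w23169 : Root := .mk (.node (.node (.col (nat_lit 1)) (.node (.col (nat_lit 1)) (.col (nat_lit 0)) (.node (.col (nat_lit 1)) (.slot (nat_lit 3)) (.slot (nat_lit 1)))) (.slot (nat_lit 3))) (.node (.col (nat_lit 2)) (.slot (nat_lit 0)) (.slot (nat_lit 1))) (.node (.slot (nat_lit 0)) (.slot (nat_lit 0)) (.slot (nat_lit 0)))) (.node (.col (nat_lit 3)) (.slot (nat_lit 0)) (.slot (nat_lit 0))) (.col (nat_lit 2)) (.col (nat_lit 3))
def w23170 : Root := .mk (.node (.node (.col (nat_lit 1)) (.node (.col (nat_lit 1)) (.col (nat_lit 0)) (.node (.col (nat_lit 1)) (.slot (nat_lit 0)) (.slot (nat_lit 0)))) (.slot (nat_lit 1))) (.col (nat_lit 0)) (.node (.slot (nat_lit 0)) (.slot (nat_lit 0)) (.slot (nat_lit 0)))) (.col (nat_lit 4)) (.col (nat_lit 2)) (.node (.slot (nat_lit 0)) (.slot (nat_lit 0)) (.slot (nat_lit 0)))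
def w23179 : Root := .mk (.col (nat_lit 1)) (.slot (nat_lit 0)) (.node (.node (.col (nat_lit 2)) (.node (.col (nat_lit 0)) (.col (nat_lit 2)) (.slot (nat_lit 0))) (.slot (nat_lit 1))) (.node (.node (.col (nat_lit 3)) (.slot (nat_lit 1)) (.slot (nat_lit 0))) (.col (nat_lit 2)) (.node (.slot (nat_lit 0)) (.slot (nat_lit 0)) (.slot (nat_lit 0)))) (.col (nat_lit 1))) (.col (nat_lit 2))
def w23180 : Root := .mk (.node (.col (nat_lit 1)) (.node (.node (.col (nat_lit 2)) (.slot (nat_lit 0)) (.slot (nat_lit 0))) (.node (.node (.col (nat_lit 3)) (.slot (nat_lit 2)) (.slot (nat_lit 1))) (.col (nat_lit 2)) (.node (.slot (nat_lit 0)) (.slot (nat_lit 0)) (.slot (nat_lit 0)))) (.node (.slot (nat_lit 0)) (.slot (nat_lit 0)) (.slot (nat_lit 0)))) (.slot (nat_lit 3))) (.col (nat_lit 1)) (.col (nat_lit 0)) (.node (.col (nat_lit 1)) (.slot (nat_lit 3)) (.slot (nat_lit 1)))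
def w23181 : Root := .mk (.node (.col (nat_lit 1)) (.node (.col (nat_lit 1)) (.node (.node (.col (nat_lit 3)) (.slot (nat_lit 1)) (.slot (nat_lit 0))) (.col (nat_lit 2)) (.slot (nat_lit 1))) (.node (.slot (nat_lit 0)) (.slot (nat_lit 0)) (.slot (nat_lit 0)))) (.slot (nat_lit 3))) (.col (nat_lit 1)) (.col (nat_lit 0)) (.node (.col (nat_lit 1)) (.slot (nat_lit 3)) (.slot (nat_lit 1)))
def l5178 : Root := .mk (.node (.col (nat_lit 1)) (.node (.node (.col (nat_lit 2)) (.node (.col (nat_lit 0)) (.col (nat_lit 2)) (.slot (nat_lit 21))) (.slot (nat_lit 8))) (.node (.node (.col (nat_lit 3)) (.slot (nat_lit 12)) (.slot (nat_lit 20))) (.col (nat_lit 2)) (.slot (nat_lit 21))) (.node (.slot (nat_lit 0)) (.slot (nat_lit 1)) (.slot (nat_lit 0)))) (.slot (nat_lit 3))) (.col (nat_lit 1)) (.col (nat_lit 0)) (.node (.col (nat_lit 1)) (.slot (nat_lit 3)) (.slot (nat_lit 1)))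
def w23182 : Root := .mk (.node (.col (nat_lit 1)) (.node (.node (.col (nat_lit 2)) (.node (.col (nat_lit 0)) (.col (nat_lit 2)) (.slot (nat_lit 21))) (.slot (nat_lit 8))) (.node (.node (.col (nat_lit 3)) (.slot (nat_lit 20)) (.slot (nat_lit 12))) (.slot (nat_lit 1)) (.slot (nat_lit 21))) (.node (.slot (nat_lit 0)) (.slot (nat_lit 1)) (.slot (nat_lit 0)))) (.slot (nat_lit 3))) (.col (nat_lit 1)) (.col (nat_lit 0)) (.node (.col (nat_lit 1)) (.slot (nat_lit 3)) (.slot (nat_lit 1)))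
def l5187 : Root := .mk (.col (nat_lit 1)) (.node (.col (nat_lit 1)) (.col (nat_lit 0)) (.node (.slot (nat_lit 0)) (.slot (nat_lit 0)) (.slot (nat_lit 0)))) (.node (.node (.col (nat_lit 2)) (.node (.col (nat_lit 0)) (.col (nat_lit 2)) (.slot (nat_lit 5))) (.slot (nat_lit 8))) (.node (.node (.col (nat_lit 3)) (.slot (nat_lit 0)) (.slot (nat_lit 0))) (.slot (nat_lit 2)) (.slot (nat_lit 2))) (.col (nat_lit 0))) (.col (nat_lit 2))
def w23218 : Root := .mk (.col (nat_lit 1)) (.node (.col (nat_lit 1)) (.col (nat_lit 0)) (.node (.slot (nat_lit 0)) (.slot (nat_lit 0)) (.slot (nat_lit 0)))) (.node (.node (.col (nat_lit 2)) (.node (.col (nat_lit 0)) (.col (nat_lit 2)) (.slot (nat_lit 5))) (.slot (nat_lit 8))) (.node (.node (.col (nat_lit 3)) (.slot (nat_lit 0)) (.slot (nat_lit 0))) (.slot (nat_lit 2)) (.slot (nat_lit 2))) (.node (.slot (nat_lit 0)) (.slot (nat_lit 0)) (.slot (nat_lit 0)))) (.col (nat_lit 2))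
def l5189 : Root := .mk (.node (.col (nat_lit 1)) (.node (.col (nat_lit 1)) (.col (nat_lit 0)) (.node (.slot (nat_lit 0)) (.col (nat_lit 2)) (.slot (nat_lit 1)))) (.slot (nat_lit 2))) (.node (.col (nat_lit 2)) (.node (.col (nat_lit 0)) (.col (nat_lit 2)) (.slot (nat_lit 2))) (.slot (nat_lit 8))) (.col (nat_lit 3)) (.col (nat_lit 0))
def w23220 : Root := .mk (.node (.col (nat_lit 1)) (.node (.node (.col (nat_lit 2)) (.node (.col (nat_lit 0)) (.col (nat_lit 2)) (.slot (nat_lit 2))) (.slot (nat_lit 8))) (.col (nat_lit 3)) (.node (.slot (nat_lit 0)) (.slot (nat_lit 0)) (.slot (nat_lit 0)))) (.slot (nat_lit 2))) (.col (nat_lit 1)) (.col (nat_lit 0)) (.node (.slot (nat_lit 0)) (.col (nat_lit 2)) (.slot (nat_lit 1)))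
def l5199 : Root := .mk (.col (nat_lit 0)) (.node (.col (nat_lit 2)) (.node (.col (nat_lit 0)) (.col (nat_lit 2)) (.node (.col (nat_lit 1)) (.node (.col (nat_lit 1)) (.slot (nat_lit 0)) (.slot (nat_lit 0))) (.slot (nat_lit 1)))) (.slot (nat_lit 1))) (.col (nat_lit 3)) (.node (.slot (nat_lit 0)) (.slot (nat_lit 0)) (.slot (nat_lit 0)))
def w23249 : Root := .mk (.node (.node (.node (.col (nat_lit 1)) (.slot (nat_lit 0)) (.slot (nat_lit 0))) (.col (nat_lit 3)) (.node (.slot (nat_lit 0)) (.slot (nat_lit 0)) (.slot (nat_lit 0)))) (.col (nat_lit 2)) (.slot (nat_lit 1))) (.col (nat_lit 0)) (.col (nat_lit 2)) (.node (.col (nat_lit 1)) (.node (.col (nat_lit 1)) (.slot (nat_lit 0)) (.slot (nat_lit 0))) (.slot (nat_lit 1)))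
def w23264 : Root := .mk (.node (.node (.col (nat_lit 1)) (.node .junk (.col (nat_lit 0)) (.col (nat_lit 2))) (.slot (nat_lit 1))) (.node (.col (nat_lit 2)) (.slot (nat_lit 0)) (.slot (nat_lit 0))) (.node (.slot (nat_lit 0)) (.slot (nat_lit 0)) (.slot (nat_lit 0)))) (.node (.col (nat_lit 3)) (.slot (nat_lit 2)) (.slot (nat_lit 1))) (.col (nat_lit 1)) (.node (.slot (nat_lit 0)) (.slot (nat_lit 0)) (.slot (nat_lit 0)))
def w23267 : Root := .mk (.node (.node (.col (nat_lit 1)) (.node .junk (.col (nat_lit 0)) (.col (nat_lit 4))) (.slot (nat_lit 1))) (.node (.col (nat_lit 2)) (.slot (nat_lit 0)) (.slot (nat_lit 0))) (.node (.slot (nat_lit 0)) (.slot (nat_lit 0)) (.slot (nat_lit 0)))) (.node (.col (nat_lit 3)) (.slot (nat_lit 2)) (.slot (nat_lit 1))) (.col (nat_lit 1)) (.node (.slot (nat_lit 0)) (.slot (nat_lit 0)) (.slot (nat_lit 0)))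
def w23280 : Root := .mk (.col (nat_lit 1)) (.col (nat_lit 3)) (.node (.node (.col (nat_lit 2)) (.node (.col (nat_lit 0)) (.col (nat_lit 2)) (.slot (nat_lit 1))) (.slot (nat_lit 1))) (.node (.slot (nat_lit 0)) (.col (nat_lit 1)) (.slot (nat_lit 0))) (.node (.slot (nat_lit 0)) (.slot (nat_lit 0)) (.slot (nat_lit 0)))) (.col (nat_lit 2))
def l5210 : Root := .mk (.col (nat_lit 1)) (.col (nat_lit 3)) (.node (.node (.col (nat_lit 2)) (.node (.col (nat_lit 0)) (.col (nat_lit 2)) (.slot (nat_lit 1))) (.slot (nat_lit 4))) (.node (.slot (nat_lit 0)) (.col (nat_lit 1)) (.node (.slot (nat_lit 0)) (.slot (nat_lit 0)) (.slot (nat_lit 0)))) (.col (nat_lit 2))) (.col (nat_lit 4))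
def w23281 : Root := .mk (.col (nat_lit 1)) (.col (nat_lit 3)) (.node (.node (.col (nat_lit 2)) (.node (.col (nat_lit 0)) (.col (nat_lit 2)) (.slot (nat_lit 1))) (.slot (nat_lit 4))) (.node (.slot (nat_lit 0)) (.col (nat_lit 1)) (.node (.slot (nat_lit 0)) (.slot (nat_lit 0)) (.slot (nat_lit 0)))) (.node (.slot (nat_lit 0)) (.slot (nat_lit 0)) (.slot (nat_lit 0)))) (.col (nat_lit 4))
def l5211 : Root := .mk (.col (nat_lit 1)) (.col (nat_lit 3)) (.node (.node (.col (nat_lit 2)) (.node (.col (nat_lit 0)) (.col (nat_lit 2)) (.slot (nat_lit 5))) (.slot (nat_lit 8))) (.node (.slot (nat_lit 0)) (.col (nat_lit 1)) (.node (.slot (nat_lit 0)) (.slot (nat_lit 0)) (.slot (nat_lit 0)))) (.node (.slot (nat_lit 0)) (.slot (nat_lit 1)) (.slot (nat_lit 1)))) (.node (.col (nat_lit 0)) (.slot (nat_lit 20)) (.slot (nat_lit 9)))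
def l5213 : Root := .mk (.node (.col (nat_lit 1)) (.node (.node (.col (nat_lit 2)) (.slot (nat_lit 0)) (.slot (nat_lit 1))) (.node (.node (.col (nat_lit 3)) (.slot (nat_lit 20)) (.slot (nat_lit 9))) (.col (nat_lit 1)) (.col (nat_lit 2))) (.node (.slot (nat_lit 0)) (.slot (nat_lit 0)) (.slot (nat_lit 0)))) (.col (nat_lit 2))) (.col (nat_lit 1)) (.col (nat_lit 0)) (.col (nat_lit 2))
def w23305 : Root := .mk (.node (.node (.col (nat_lit 1)) (.slot (nat_lit 0)) (.col (nat_lit 3))) (.node (.slot (nat_lit 0)) (.col (nat_lit 1)) (.slot (nat_lit 0))) (.node (.slot (nat_lit 0)) (.slot (nat_lit 0)) (.slot (nat_lit 0)))) (.col (nat_lit 2)) (.node (.col (nat_lit 0)) (.col (nat_lit 2)) (.slot (nat_lit 5))) (.col (nat_lit 1))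
def w23316 : Root := .mk (.col (nat_lit 1)) (.slot (nat_lit 0)) (.node (.node (.col (nat_lit 2)) (.node (.col (nat_lit 0)) .junk (.slot (nat_lit 1))) (.col (nat_lit 1))) (.node (.node (.col (nat_lit 3)) (.slot (nat_lit 5)) (.slot (nat_lit 5))) (.col (nat_lit 1)) (.node (.slot (nat_lit 0)) (.slot (nat_lit 0)) (.slot (nat_lit 0)))) (.slot (nat_lit 0))) (.col (nat_lit 0))
def w23317 : Root := .mk (.node (.node (.col (nat_lit 1)) (.slot (nat_lit 0)) (.slot (nat_lit 0))) (.node (.slot (nat_lit 0)) (.col (nat_lit 1)) (.slot (nat_lit 0))) (.node (.col (nat_lit 1)) (.slot (nat_lit 1)) (.slot (nat_lit 0)))) (.col (nat_lit 2)) (.node (.col (nat_lit 0)) (.col (nat_lit 2)) (.slot (nat_lit 5))) (.col (nat_lit 1))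
def w23318 : Root := .mk (.node (.node (.col (nat_lit 1)) (.slot (nat_lit 0)) (.slot (nat_lit 1))) (.node (.slot (nat_lit 0)) (.col (nat_lit 1)) (.slot (nat_lit 0))) (.node (.col (nat_lit 3)) (.slot (nat_lit 0)) (.slot (nat_lit 0)))) (.col (nat_lit 2)) (.node (.col (nat_lit 0)) (.col (nat_lit 2)) (.slot (nat_lit 5))) (.col (nat_lit 1))
def w23319 : Root := .mk (.node (.node (.col (nat_lit 1)) (.slot (nat_lit 0)) (.slot (nat_lit 1))) (.node (.slot (nat_lit 0)) (.col (nat_lit 1)) (.slot (nat_lit 0))) (.node (.slot (nat_lit 0)) (.col (nat_lit 0)) (.slot (nat_lit 0)))) (.col (nat_lit 2)) (.node (.col (nat_lit 0)) (.col (nat_lit 2)) (.slot (nat_lit 5))) (.col (nat_lit 1))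
def w23321 : Root := .mk (.node (.col (nat_lit 1)) (.node (.node (.col (nat_lit 2)) (.slot (nat_lit 0)) (.slot (nat_lit 0))) (.node (.col (nat_lit 0)) (.col (nat_lit 2)) (.slot (nat_lit 3))) (.node (.slot (nat_lit 0)) (.slot (nat_lit 0)) (.slot (nat_lit 0)))) (.node (.col (nat_lit 0)) (.col (nat_lit 1)) (.slot (nat_lit 2)))) (.col (nat_lit 1)) (.col (nat_lit 0)) (.node (.slot (nat_lit 0)) (.slot (nat_lit 0)) (.slot (nat_lit 0)))
def w23322 : Root := .mk (.node (.col (nat_lit 1)) (.node (.node (.col (nat_lit 2)) (.slot (nat_lit 0)) (.slot (nat_lit 0))) (.node (.col (nat_lit 0)) (.col (nat_lit 2)) (.slot (nat_lit 3))) (.node (.slot (nat_lit 0)) (.slot (nat_lit 0)) (.slot (nat_lit 0)))) (.node (.col (nat_lit 0)) (.node (.slot (nat_lit 0)) (.slot (nat_lit 0)) (.slot (nat_lit 0))) (.slot (nat_lit 1)))) (.col (nat_lit 1)) (.col (nat_lit 0)) (.node (.slot (nat_lit 0)) (.slot (nat_lit 0)) (.slot (nat_lit 0)))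
def w23343 : Root := .mk (.col (nat_lit 1)) (.col (nat_lit 4)) (.node (.node (.col (nat_lit 2)) (.node (.col (nat_lit 0)) .junk (.col (nat_lit 4))) (.slot (nat_lit 1))) (.node (.slot (nat_lit 0)) (.col (nat_lit 2)) (.slot (nat_lit 0))) (.node (.slot (nat_lit 0)) (.slot (nat_lit 0)) (.slot (nat_lit 0)))) (.slot (nat_lit 3))
def l5237 : Root := .mk (.node (.node (.col (nat_lit 1)) (.slot (nat_lit 0)) (.slot (nat_lit 0))) (.node (.col (nat_lit 2)) (.col (nat_lit 4)) (.slot (nat_lit 3))) (.node (.slot (nat_lit 0)) (.slot (nat_lit 0)) (.slot (nat_lit 0)))) (.node (.col (nat_lit 3)) (.slot (nat_lit 20)) (.slot (nat_lit 9))) (.col (nat_lit 2)) (.col (nat_lit 4))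
def w23368 : Root := .mk (.node (.node (.col (nat_lit 1)) (.slot (nat_lit 0)) (.slot (nat_lit 0))) (.node (.node (.col (nat_lit 3)) (.slot (nat_lit 20)) (.slot (nat_lit 9))) (.col (nat_lit 2)) (.node (.slot (nat_lit 0)) (.slot (nat_lit 0)) (.slot (nat_lit 0)))) (.node (.slot (nat_lit 0)) (.slot (nat_lit 0)) (.slot (nat_lit 0)))) (.col (nat_lit 2)) (.col (nat_lit 4)) (.slot (nat_lit 3))
def w23374 : Root := .mk (.node (.col (nat_lit 1)) (.node (.node (.col (nat_lit 2)) (.slot (nat_lit 0)) (.slot (nat_lit 0))) (.node (.node (.col (nat_lit 3)) (.slot (nat_lit 2)) (.slot (nat_lit 1))) (.col (nat_lit 2)) (.node (.slot (nat_lit 0)) (.slot (nat_lit 0)) (.slot (nat_lit 0)))) (.node (.slot (nat_lit 0)) (.slot (nat_lit 0)) (.slot (nat_lit 0)))) (.node (.col (nat_lit 0)) (.col (nat_lit 1)) (.slot (nat_lit 2)))) (.col (nat_lit 1)) (.col (nat_lit 0)) (.node (.slot (nat_lit 0)) (.slot (nat_lit 0)) (.slot (nat_lit 0)))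
def w23376 : Root := .mk (.node (.col (nat_lit 1)) (.node (.node (.col (nat_lit 2)) (.node (.col (nat_lit 0)) (.col (nat_lit 2)) (.slot (nat_lit 0))) (.slot (nat_lit 1))) (.node (.node (.col (nat_lit 3)) (.slot (nat_lit 1)) (.slot (nat_lit 0))) (.col (nat_lit 2)) (.node (.slot (nat_lit 0)) (.slot (nat_lit 0)) (.slot (nat_lit 0)))) (.node (.slot (nat_lit 0)) (.slot (nat_lit 0)) (.slot (nat_lit 0)))) (.node (.col (nat_lit 0)) (.node (.slot (nat_lit 0)) (.slot (nat_lit 0)) (.slot (nat_lit 0))) (.slot (nat_lit 1)))) (.col (nat_lit 1)) (.col (nat_lit 0)) (.node (.slot (nat_lit 0)) (.slot (nat_lit 0)) (.slot (nat_lit 0)))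
def l5240 : Root := .mk (.node (.node (.col (nat_lit 1)) (.slot (nat_lit 0)) (.col (nat_lit 0))) (.node (.col (nat_lit 0)) (.col (nat_lit 4)) (.slot (nat_lit 1))) (.col (nat_lit 0))) (.col (nat_lit 2)) (.node (.col (nat_lit 0)) (.col (nat_lit 2)) (.slot (nat_lit 5))) (.col (nat_lit 4))
def w23380 : Root := .mk (.col (nat_lit 1)) (.slot (nat_lit 0)) (.node (.node (.col (nat_lit 2)) (.node (.col (nat_lit 0)) (.col (nat_lit 2)) (.slot (nat_lit 5))) (.slot (nat_lit 1))) (.node (.col (nat_lit 0)) (.col (nat_lit 4)) (.slot (nat_lit 1))) (.col (nat_lit 0))) (.col (nat_lit 0))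
def w23387 : Root := .mk (.node (.node (.col (nat_lit 1)) (.slot (nat_lit 0)) (.slot (nat_lit 0))) (.node (.col (nat_lit 0)) (.col (nat_lit 4)) (.slot (nat_lit 1))) (.col (nat_lit 0))) (.col (nat_lit 2)) (.node (.col (nat_lit 0)) (.col (nat_lit 2)) (.slot (nat_lit 5))) (.node (.col (nat_lit 1)) (.slot (nat_lit 0)) (.slot (nat_lit 0)))
def w23388 : Root := .mk (.node (.node (.col (nat_lit 1)) (.slot (nat_lit 0)) (.slot (nat_lit 1))) (.node (.col (nat_lit 0)) (.col (nat_lit 4)) (.slot (nat_lit 0))) (.col (nat_lit 0))) (.col (nat_lit 2)) (.node (.col (nat_lit 0)) (.col (nat_lit 2)) (.slot (nat_lit 5))) (.node (.col (nat_lit 2)) (.slot (nat_lit 0)) (.slot (nat_lit 0)))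
def w23389 : Root := .mk (.node (.node (.col (nat_lit 1)) (.slot (nat_lit 0)) (.slot (nat_lit 1))) (.node (.col (nat_lit 0)) (.col (nat_lit 4)) (.slot (nat_lit 0))) (.col (nat_lit 0))) (.col (nat_lit 2)) (.node (.col (nat_lit 0)) (.col (nat_lit 2)) (.slot (nat_lit 5))) (.node (.col (nat_lit 3)) (.slot (nat_lit 0)) (.slot (nat_lit 0)))
def w23390 : Root := .mk (.node (.node (.col (nat_lit 1)) (.slot (nat_lit 0)) (.slot (nat_lit 1))) (.node (.col (nat_lit 0)) (.col (nat_lit 4)) (.slot (nat_lit 0))) (.col (nat_lit 0))) (.col (nat_lit 2)) (.node (.col (nat_lit 0)) (.col (nat_lit 2)) (.slot (nat_lit 5))) (.node (.col (nat_lit 4)) (.slot (nat_lit 0)) (.slot (nat_lit 0)))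
def w23407 : Root := .mk (.node (.node (.col (nat_lit 1)) (.slot (nat_lit 0)) (.slot (nat_lit 0))) (.node (.col (nat_lit 0)) (.col (nat_lit 4)) (.slot (nat_lit 0))) (.col (nat_lit 0))) (.col (nat_lit 2)) (.node (.col (nat_lit 0)) (.col (nat_lit 2)) (.node (.col (nat_lit 2)) (.slot (nat_lit 0)) (.slot (nat_lit 0)))) (.col (nat_lit 1))
def w23420 : Root := .mk (.node (.node (.col (nat_lit 1)) (.slot (nat_lit 0)) (.slot (nat_lit 1))) (.node (.slot (nat_lit 0)) (.col (nat_lit 4)) (.col (nat_lit 3))) (.node (.slot (nat_lit 0)) (.slot (nat_lit 1)) (.slot (nat_lit 1)))) (.col (nat_lit 2)) (.node (.col (nat_lit 0)) (.col (nat_lit 2)) (.slot (nat_lit 3))) (.col (nat_lit 1))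
def w23435 : Root := .mk (.node (.node (.col (nat_lit 1)) (.slot (nat_lit 0)) (.slot (nat_lit 0))) (.node (.slot (nat_lit 0)) (.col (nat_lit 4)) (.node (.slot (nat_lit 0)) (.slot (nat_lit 0)) (.slot (nat_lit 0)))) (.col (nat_lit 0))) (.col (nat_lit 2)) (.node (.col (nat_lit 0)) (.col (nat_lit 2)) (.slot (nat_lit 5))) (.node (.col (nat_lit 1)) (.slot (nat_lit 0)) (.slot (nat_lit 0)))
def w23436 : Root := .mk (.node (.node (.col (nat_lit 1)) (.slot (nat_lit 0)) (.slot (nat_lit 1))) (.node (.slot (nat_lit 0)) (.col (nat_lit 4)) (.slot (nat_lit 0))) (.col (nat_lit 0))) (.col (nat_lit 2)) (.node (.col (nat_lit 0)) (.col (nat_lit 2)) (.slot (nat_lit 5))) (.node (.col (nat_lit 2)) (.slot (nat_lit 0)) (.slot (nat_lit 0)))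
def w23437 : Root := .mk (.node (.node (.col (nat_lit 1)) (.slot (nat_lit 0)) (.slot (nat_lit 1))) (.node (.slot (nat_lit 0)) (.col (nat_lit 4)) (.slot (nat_lit 0))) (.col (nat_lit 0))) (.col (nat_lit 2)) (.node (.col (nat_lit 0)) (.col (nat_lit 2)) (.slot (nat_lit 5))) (.node (.col (nat_lit 3)) (.slot (nat_lit 0)) (.slot (nat_lit 0)))
def l5261 : Root := .mk (.col (nat_lit 1)) (.node (.col (nat_lit 1)) (.col (nat_lit 0)) (.node (.slot (nat_lit 0)) (.slot (nat_lit 0)) (.slot (nat_lit 0)))) (.node (.node (.col (nat_lit 2)) (.node (.col (nat_lit 0)) (.col (nat_lit 2)) (.slot (nat_lit 5))) (.slot (nat_lit 8))) (.node (.node (.col (nat_lit 3)) (.slot (nat_lit 1)) (.slot (nat_lit 0))) (.slot (nat_lit 3)) (.slot (nat_lit 3))) (.col (nat_lit 0))) (.col (nat_lit 3))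
def w23440 : Root := .mk (.col (nat_lit 1)) (.node (.col (nat_lit 1)) (.col (nat_lit 0)) (.node (.slot (nat_lit 0)) (.slot (nat_lit 0)) (.slot (nat_lit 0)))) (.node (.node (.col (nat_lit 2)) (.node (.col (nat_lit 0)) (.col (nat_lit 2)) (.slot (nat_lit 5))) (.slot (nat_lit 8))) (.node (.node (.col (nat_lit 3)) (.slot (nat_lit 1)) (.slot (nat_lit 0))) (.slot (nat_lit 3)) (.slot (nat_lit 3))) (.node (.slot (nat_lit 0)) (.slot (nat_lit 0)) (.slot (nat_lit 0)))) (.col (nat_lit 3))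
def w23441 : Root := .mk (.col (nat_lit 1)) (.node (.col (nat_lit 1)) (.col (nat_lit 0)) (.node (.slot (nat_lit 0)) (.slot (nat_lit 0)) (.slot (nat_lit 0)))) (.node (.slot (nat_lit 0)) (.node (.node (.col (nat_lit 3)) (.slot (nat_lit 3)) (.slot (nat_lit 1))) (.col (nat_lit 2)) (.slot (nat_lit 1))) (.col (nat_lit 0))) (.col (nat_lit 4))
def l5262 : Root := .mk (.col (nat_lit 1)) (.node (.col (nat_lit 1)) (.col (nat_lit 0)) (.node (.slot (nat_lit 0)) (.slot (nat_lit 0)) (.slot (nat_lit 0)))) (.node (.node (.col (nat_lit 2)) (.node (.col (nat_lit 0)) (.col (nat_lit 2)) (.slot (nat_lit 5))) (.slot (nat_lit 8))) (.node (.node (.col (nat_lit 3)) (.slot (nat_lit 3)) (.slot (nat_lit 1))) (.slot (nat_lit 3)) (.slot (nat_lit 3))) (.col (nat_lit 0))) (.col (nat_lit 4))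
def w23442 : Root := .mk (.col (nat_lit 1)) (.node (.col (nat_lit 1)) (.col (nat_lit 0)) (.node (.slot (nat_lit 0)) (.slot (nat_lit 0)) (.slot (nat_lit 0)))) (.node (.node (.col (nat_lit 2)) (.node (.col (nat_lit 0)) (.col (nat_lit 2)) (.slot (nat_lit 5))) (.slot (nat_lit 8))) (.node (.node (.col (nat_lit 3)) (.slot (nat_lit 3)) (.slot (nat_lit 1))) (.slot (nat_lit 3)) (.slot (nat_lit 3))) (.node (.slot (nat_lit 0)) (.slot (nat_lit 0)) (.slot (nat_lit 0)))) (.col (nat_lit 4))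
def l5263 : Root := .mk (.node (.col (nat_lit 1)) (.node (.col (nat_lit 1)) (.col (nat_lit 0)) (.node (.slot (nat_lit 0)) (.slot (nat_lit 0)) (.slot (nat_lit 0)))) (.node (.col (nat_lit 0)) (.col (nat_lit 1)) (.slot (nat_lit 2)))) (.col (nat_lit 4)) (.col (nat_lit 3)) (.col (nat_lit 0))
def w23443 : Root := .mk (.node (.col (nat_lit 1)) (.node (.col (nat_lit 1)) (.col (nat_lit 0)) (.node (.slot (nat_lit 0)) (.slot (nat_lit 0)) (.slot (nat_lit 0)))) (.node (.col (nat_lit 0)) (.col (nat_lit 1)) (.slot (nat_lit 2)))) (.col (nat_lit 4)) (.col (nat_lit 3)) (.node (.slot (nat_lit 0)) (.slot (nat_lit 0)) (.slot (nat_lit 0)))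
def w23444 : Root := .mk (.node (.col (nat_lit 1)) (.node (.node (.col (nat_lit 2)) (.col (nat_lit 1)) .junk) (.col (nat_lit 3)) (.node (.slot (nat_lit 0)) (.slot (nat_lit 0)) (.slot (nat_lit 0)))) (.node (.col (nat_lit 0)) (.col (nat_lit 1)) (.slot (nat_lit 2)))) (.col (nat_lit 1)) (.col (nat_lit 0)) (.node (.slot (nat_lit 0)) (.slot (nat_lit 0)) (.slot (nat_lit 0)))
def l5264 : Root := .mk (.node (.col (nat_lit 1)) (.node (.node (.col (nat_lit 2)) (.col (nat_lit 1)) (.slot (nat_lit 6))) (.col (nat_lit 3)) (.node (.slot (nat_lit 0)) (.slot (nat_lit 1)) (.slot (nat_lit 1)))) (.node (.col (nat_lit 0)) (.col (nat_lit 1)) (.slot (nat_lit 2)))) (.col (nat_lit 1)) (.col (nat_lit 0)) (.node (.slot (nat_lit 0)) (.slot (nat_lit 0)) (.slot (nat_lit 0)))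
def w23445 : Root := .mk (.node (.col (nat_lit 1)) (.node (.node (.col (nat_lit 2)) (.node (.col (nat_lit 0)) (.col (nat_lit 2)) (.slot (nat_lit 0))) (.slot (nat_lit 6))) (.col (nat_lit 3)) (.node (.slot (nat_lit 0)) (.slot (nat_lit 1)) (.slot (nat_lit 1)))) (.node (.col (nat_lit 0)) (.col (nat_lit 1)) (.slot (nat_lit 2)))) (.col (nat_lit 1)) (.col (nat_lit 0)) (.node (.slot (nat_lit 0)) (.slot (nat_lit 0)) (.slot (nat_lit 0)))
def w23446 : Root := .mk (.node (.col (nat_lit 1)) (.node (.node (.col (nat_lit 2)) (.slot (nat_lit 0)) (.slot (nat_lit 0))) (.node (.col (nat_lit 1)) (.col (nat_lit 2)) (.slot (nat_lit 6))) (.node (.slot (nat_lit 0)) (.slot (nat_lit 1)) (.slot (nat_lit 1)))) (.node (.col (nat_lit 0)) (.col (nat_lit 1)) (.slot (nat_lit 2)))) (.col (nat_lit 1)) (.col (nat_lit 0)) (.node (.slot (nat_lit 0)) (.slot (nat_lit 0)) (.slot (nat_lit 0)))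
def w23447 : Root := .mk (.node (.node (.col (nat_lit 1)) (.node (.col (nat_lit 1)) (.col (nat_lit 0)) (.node (.slot (nat_lit 0)) (.slot (nat_lit 0)) (.slot (nat_lit 0)))) (.node (.col (nat_lit 0)) (.col (nat_lit 1)) (.slot (nat_lit 2)))) (.node (.col (nat_lit 2)) (.slot (nat_lit 0)) (.slot (nat_lit 1))) (.node (.slot (nat_lit 0)) (.slot (nat_lit 0)) (.slot (nat_lit 0)))) (.node (.col (nat_lit 3)) (.slot (nat_lit 0)) (.slot (nat_lit 0))) (.col (nat_lit 2)) (.col (nat_lit 3))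
def w23448 : Root := .mk (.node (.col (nat_lit 1)) (.node (.col (nat_lit 1)) (.node (.node (.col (nat_lit 3)) (.slot (nat_lit 1)) (.slot (nat_lit 0))) (.col (nat_lit 2)) (.slot (nat_lit 1))) (.node (.slot (nat_lit 0)) (.slot (nat_lit 0)) (.slot (nat_lit 0)))) (.node (.col (nat_lit 0)) (.col (nat_lit 1)) (.slot (nat_lit 2)))) (.col (nat_lit 1)) (.col (nat_lit 0)) (.node (.slot (nat_lit 0)) (.slot (nat_lit 0)) (.slot (nat_lit 0)))
def w23449 : Root := .mk (.node (.col (nat_lit 1)) (.node (.col (nat_lit 4)) (.node (.node (.col (nat_lit 3)) (.slot (nat_lit 0)) (.slot (nat_lit 0))) (.col (nat_lit 2)) (.slot (nat_lit 6))) (.node (.slot (nat_lit 0)) (.slot (nat_lit 1)) (.slot (nat_lit 1)))) (.node (.col (nat_lit 0)) (.col (nat_lit 1)) (.slot (nat_lit 2)))) (.col (nat_lit 1)) (.col (nat_lit 0)) (.node (.slot (nat_lit 0)) (.slot (nat_lit 0)) (.slot (nat_lit 0)))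
def w23450 : Root := .mk (.node (.col (nat_lit 1)) (.node (.node (.col (nat_lit 2)) (.slot (nat_lit 0)) (.slot (nat_lit 0))) (.node (.node (.col (nat_lit 3)) (.slot (nat_lit 1)) (.slot (nat_lit 1))) (.col (nat_lit 2)) (.slot (nat_lit 2))) (.col (nat_lit 2))) (.node (.col (nat_lit 0)) (.col (nat_lit 1)) (.slot (nat_lit 0)))) (.col (nat_lit 1)) (.col (nat_lit 0)) (.node (.slot (nat_lit 0)) (.slot (nat_lit 0)) (.slot (nat_lit 0)))
def w23451 : Root := .mk (.node (.col (nat_lit 1)) (.node (.slot (nat_lit 0)) (.node (.node (.col (nat_lit 3)) (.col (nat_lit 2)) (.slot (nat_lit 5))) (.col (nat_lit 2)) (.slot (nat_lit 8))) (.node (.slot (nat_lit 0)) (.slot (nat_lit 0)) (.slot (nat_lit 0)))) (.node (.col (nat_lit 0)) (.col (nat_lit 1)) (.slot (nat_lit 2)))) (.col (nat_lit 1)) (.col (nat_lit 0)) (.node (.slot (nat_lit 0)) (.slot (nat_lit 0)) (.slot (nat_lit 0)))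
def w23452 : Root := .mk (.node (.col (nat_lit 1)) (.node (.slot (nat_lit 0)) (.node (.node (.col (nat_lit 3)) (.slot (nat_lit 7)) (.slot (nat_lit 5))) (.col (nat_lit 2)) (.slot (nat_lit 8))) (.node (.col (nat_lit 0)) (.slot (nat_lit 0)) (.slot (nat_lit 0)))) (.node (.col (nat_lit 0)) (.col (nat_lit 1)) (.slot (nat_lit 2)))) (.col (nat_lit 1)) (.col (nat_lit 0)) (.node (.slot (nat_lit 0)) (.slot (nat_lit 0)) (.slot (nat_lit 0)))
def w23453 : Root := .mk (.node (.col (nat_lit 1)) (.node (.node (.col (nat_lit 2)) (.node (.col (nat_lit 0)) (.col (nat_lit 2)) (.slot (nat_lit 0))) (.slot (nat_lit 1))) (.col (nat_lit 1)) (.node (.slot (nat_lit 0)) (.col (nat_lit 2)) (.slot (nat_lit 1)))) (.node (.col (nat_lit 0)) (.col (nat_lit 1)) (.slot (nat_lit 2)))) (.col (nat_lit 1)) (.col (nat_lit 0)) (.node (.slot (nat_lit 0)) (.slot (nat_lit 0)) (.slot (nat_lit 0)))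
def w23454 : Root := .mk (.node (.col (nat_lit 1)) (.node (.node (.col (nat_lit 2)) (.node (.col (nat_lit 0)) (.col (nat_lit 2)) (.slot (nat_lit 0))) (.slot (nat_lit 1))) (.node (.node (.col (nat_lit 3)) (.slot (nat_lit 1)) (.slot (nat_lit 1))) (.col (nat_lit 2)) (.slot (nat_lit 2))) (.node (.slot (nat_lit 0)) (.col (nat_lit 2)) (.slot (nat_lit 1)))) (.node (.col (nat_lit 0)) (.col (nat_lit 1)) (.slot (nat_lit 2)))) (.col (nat_lit 1)) (.col (nat_lit 0)) (.node (.slot (nat_lit 0)) (.slot (nat_lit 0)) (.slot (nat_lit 0)))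
def l5265 : Root := .mk (.node (.col (nat_lit 1)) (.node (.node (.col (nat_lit 2)) (.node (.col (nat_lit 0)) (.col (nat_lit 2)) (.slot (nat_lit 5))) (.slot (nat_lit 8))) (.node (.node (.col (nat_lit 3)) (.slot (nat_lit 20)) (.slot (nat_lit 12))) (.col (nat_lit 2)) (.slot (nat_lit 21))) (.node (.slot (nat_lit 0)) (.slot (nat_lit 4)) (.slot (nat_lit 4)))) (.node (.col (nat_lit 0)) (.col (nat_lit 1)) (.slot (nat_lit 2)))) (.col (nat_lit 1)) (.col (nat_lit 0)) (.node (.slot (nat_lit 0)) (.slot (nat_lit 0)) (.slot (nat_lit 0)))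
def w23455 : Root := .mk (.node (.col (nat_lit 1)) (.node (.node (.col (nat_lit 2)) (.node (.col (nat_lit 0)) (.col (nat_lit 2)) (.slot (nat_lit 5))) (.slot (nat_lit 8))) (.node (.node (.col (nat_lit 3)) (.slot (nat_lit 20)) (.slot (nat_lit 12))) (.slot (nat_lit 1)) (.slot (nat_lit 21))) (.node (.slot (nat_lit 0)) (.slot (nat_lit 4)) (.slot (nat_lit 4)))) (.node (.col (nat_lit 0)) (.col (nat_lit 1)) (.slot (nat_lit 2)))) (.col (nat_lit 1)) (.col (nat_lit 0)) (.node (.slot (nat_lit 0)) (.slot (nat_lit 0)) (.slot (nat_lit 0)))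
def w23456 : Root := .mk (.node (.col (nat_lit 1)) (.node (.node (.col (nat_lit 2)) (.col (nat_lit 1)) (.slot (nat_lit 3))) (.node (.slot (nat_lit 0)) (.slot (nat_lit 0)) (.slot (nat_lit 0))) (.node (.slot (nat_lit 0)) (.slot (nat_lit 0)) (.slot (nat_lit 0)))) (.node (.col (nat_lit 0)) (.node (.col (nat_lit 0)) (.slot (nat_lit 0)) (.slot (nat_lit 0))) (.slot (nat_lit 2)))) (.col (nat_lit 1)) (.col (nat_lit 0)) (.slot (nat_lit 0))
def w23467 : Root := .mk (.col (nat_lit 1)) (.node .junk (.col (nat_lit 0)) (.col (nat_lit 2))) (.node (.col (nat_lit 4)) (.node (.node (.col (nat_lit 3)) (.slot (nat_lit 1)) (.slot (nat_lit 0))) (.col (nat_lit 2)) (.slot (nat_lit 1))) (.node (.slot (nat_lit 0)) (.slot (nat_lit 0)) (.slot (nat_lit 0)))) (.node (.col (nat_lit 0)) (.slot (nat_lit 0)) (.slot (nat_lit 0)))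
def w23468 : Root := .mk (.node (.col (nat_lit 1)) (.node (.col (nat_lit 4)) (.node (.node (.col (nat_lit 3)) (.slot (nat_lit 1)) (.slot (nat_lit 1))) (.col (nat_lit 2)) (.slot (nat_lit 2))) (.node (.slot (nat_lit 0)) (.slot (nat_lit 0)) (.slot (nat_lit 0)))) (.node (.col (nat_lit 0)) (.slot (nat_lit 0)) (.slot (nat_lit 0)))) (.col (nat_lit 1)) (.col (nat_lit 0)) (.col (nat_lit 3))
def w23470 : Root := .mk (.node (.col (nat_lit 1)) (.node (.col (nat_lit 1)) (.col (nat_lit 0)) (.node (.slot (nat_lit 0)) (.slot (nat_lit 0)) (.slot (nat_lit 0)))) (.node (.col (nat_lit 4)) (.node (.node (.col (nat_lit 3)) (.slot (nat_lit 1)) (.slot (nat_lit 1))) (.col (nat_lit 2)) (.slot (nat_lit 2))) (.node (.slot (nat_lit 0)) (.slot (nat_lit 0)) (.slot (nat_lit 0))))) (.col (nat_lit 0)) (.slot (nat_lit 0)) (.col (nat_lit 1))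
def w23472 : Root := .mk (.node (.col (nat_lit 1)) (.node (.col (nat_lit 4)) (.node (.node (.col (nat_lit 3)) (.slot (nat_lit 1)) (.slot (nat_lit 0))) (.col (nat_lit 2)) (.slot (nat_lit 1))) (.node (.slot (nat_lit 0)) (.slot (nat_lit 0)) (.slot (nat_lit 0)))) (.node (.col (nat_lit 0)) (.node (.col (nat_lit 0)) (.slot (nat_lit 0)) (.slot (nat_lit 0))) (.slot (nat_lit 1)))) (.col (nat_lit 1)) (.col (nat_lit 0)) (.node (.col (nat_lit 0)) (.slot (nat_lit 0)) (.slot (nat_lit 0)))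
def w23475 : Root := .mk (.node (.col (nat_lit 1)) (.node (.col (nat_lit 4)) (.node (.slot (nat_lit 0)) (.col (nat_lit 2)) (.slot (nat_lit 1))) (.node (.slot (nat_lit 0)) (.slot (nat_lit 0)) (.slot (nat_lit 0)))) (.node (.col (nat_lit 0)) (.slot (nat_lit 0)) (.slot (nat_lit 0)))) (.col (nat_lit 1)) (.col (nat_lit 0)) (.node .junk (.col (nat_lit 4)) (.slot (nat_lit 1)))
def w23491 : Root := .mk (.node (.node (.node (.col (nat_lit 1)) (.node (.col (nat_lit 1)) (.col (nat_lit 0)) (.slot (nat_lit 0))) (.node (.col (nat_lit 0)) (.node (.col (nat_lit 0)) (.slot (nat_lit 0)) (.slot (nat_lit 0))) (.slot (nat_lit 1)))) (.col (nat_lit 1)) (.col (nat_lit 0))) (.col (nat_lit 2)) (.col (nat_lit 1))) (.col (nat_lit 0)) (.col (nat_lit 2)) (.col (nat_lit 1))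
def w23493 : Root := .mk (.node (.node (.node (.col (nat_lit 1)) (.node (.col (nat_lit 1)) (.col (nat_lit 0)) (.slot (nat_lit 0))) (.node (.col (nat_lit 0)) (.node (.col (nat_lit 0)) (.slot (nat_lit 0)) (.slot (nat_lit 0))) (.slot (nat_lit 1)))) (.col (nat_lit 1)) (.col (nat_lit 0))) (.col (nat_lit 2)) (.col (nat_lit 1))) (.col (nat_lit 0)) (.col (nat_lit 2)) (.slot (nat_lit 0))
def l5273 : Root := .mk (.node (.col (nat_lit 1)) (.node (.col (nat_lit 1)) (.col (nat_lit 0)) (.node (.slot (nat_lit 0)) (.slot (nat_lit 0)) (.slot (nat_lit 0)))) (.node (.col (nat_lit 0)) (.node (.col (nat_lit 0)) (.slot (nat_lit 0)) (.slot (nat_lit 0))) (.slot (nat_lit 1)))) (.node (.col (nat_lit 2)) (.node (.col (nat_lit 0)) (.col (nat_lit 2)) (.slot (nat_lit 4))) (.col (nat_lit 1))) (.col (nat_lit 1)) (.col (nat_lit 0))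
def w23494 : Root := .mk (.node (.node (.col (nat_lit 1)) (.node (.col (nat_lit 1)) (.col (nat_lit 0)) (.node (.slot (nat_lit 0)) (.slot (nat_lit 0)) (.slot (nat_lit 0)))) (.node (.col (nat_lit 0)) (.node (.col (nat_lit 0)) (.slot (nat_lit 0)) (.slot (nat_lit 0))) (.slot (nat_lit 1)))) (.col (nat_lit 1)) (.node (.slot (nat_lit 0)) (.slot (nat_lit 0)) (.slot (nat_lit 0)))) (.col (nat_lit 2)) (.node (.col (nat_lit 0)) (.col (nat_lit 2)) (.slot (nat_lit 4))) (.col (nat_lit 1))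
def l5274 : Root := .mk (.node (.col (nat_lit 1)) (.node (.col (nat_lit 1)) (.col (nat_lit 0)) (.slot (nat_lit 0))) (.node (.col (nat_lit 0)) (.slot (nat_lit 0)) (.slot (nat_lit 1)))) (.node (.col (nat_lit 2)) (.node (.col (nat_lit 0)) (.col (nat_lit 2)) (.slot (nat_lit 3))) (.col (nat_lit 1))) (.col (nat_lit 2)) (.col (nat_lit 0))
def w23495 : Root := .mk (.node (.node (.col (nat_lit 1)) (.node (.col (nat_lit 1)) (.col (nat_lit 0)) (.slot (nat_lit 0))) (.node (.col (nat_lit 0)) (.slot (nat_lit 0)) (.slot (nat_lit 1)))) (.col (nat_lit 2)) (.node (.slot (nat_lit 0)) (.slot (nat_lit 0)) (.slot (nat_lit 0)))) (.col (nat_lit 2)) (.node (.col (nat_lit 0)) (.col (nat_lit 2)) (.slot (nat_lit 3))) (.col (nat_lit 1))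
def l5275 : Root := .mk (.node (.node (.node (.col (nat_lit 1)) (.node (.col (nat_lit 1)) (.col (nat_lit 0)) (.node (.slot (nat_lit 0)) (.slot (nat_lit 0)) (.slot (nat_lit 0)))) (.node (.col (nat_lit 0)) (.node (.col (nat_lit 0)) (.slot (nat_lit 0)) (.slot (nat_lit 0))) (.slot (nat_lit 1)))) (.col (nat_lit 0)) (.node (.slot (nat_lit 0)) (.slot (nat_lit 0)) (.slot (nat_lit 0)))) (.col (nat_lit 2)) (.col (nat_lit 1))) (.col (nat_lit 0)) (.col (nat_lit 2)) (.col (nat_lit 1))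
def w23496 : Root := .mk (.node (.node (.node (.col (nat_lit 1)) (.node (.col (nat_lit 1)) (.col (nat_lit 0)) (.node (.slot (nat_lit 0)) (.slot (nat_lit 0)) (.slot (nat_lit 0)))) (.node (.col (nat_lit 0)) (.node (.col (nat_lit 0)) (.slot (nat_lit 0)) (.slot (nat_lit 0))) (.slot (nat_lit 1)))) (.node (.slot (nat_lit 0)) (.slot (nat_lit 0)) (.slot (nat_lit 0))) (.node (.slot (nat_lit 0)) (.slot (nat_lit 0)) (.slot (nat_lit 0)))) (.col (nat_lit 2)) (.col (nat_lit 1))) (.col (nat_lit 0)) (.col (nat_lit 2)) (.col (nat_lit 1))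
def w23497 : Root := .mk (.node (.node (.node (.col (nat_lit 1)) (.node (.col (nat_lit 1)) (.col (nat_lit 0)) (.node (.slot (nat_lit 0)) (.slot (nat_lit 0)) (.slot (nat_lit 0)))) (.node (.col (nat_lit 0)) (.node (.col (nat_lit 0)) (.slot (nat_lit 0)) (.slot (nat_lit 0))) (.slot (nat_lit 1)))) (.node (.slot (nat_lit 0)) (.slot (nat_lit 0)) (.slot (nat_lit 0))) (.node (.slot (nat_lit 0)) (.slot (nat_lit 0)) (.slot (nat_lit 0)))) (.col (nat_lit 2)) (.col (nat_lit 1))) (.col (nat_lit 0)) (.col (nat_lit 2)) (.node (.col (nat_lit 0)) (.slot (nat_lit 0)) (.slot (nat_lit 0)))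
def w23498 : Root := .mk (.node (.node (.node (.col (nat_lit 1)) (.node (.col (nat_lit 1)) (.col (nat_lit 0)) (.node (.slot (nat_lit 0)) (.slot (nat_lit 0)) (.slot (nat_lit 0)))) (.node (.col (nat_lit 0)) (.node (.col (nat_lit 0)) (.slot (nat_lit 0)) (.slot (nat_lit 0))) (.slot (nat_lit 1)))) (.node (.slot (nat_lit 0)) (.slot (nat_lit 0)) (.slot (nat_lit 0))) (.node (.slot (nat_lit 0)) (.slot (nat_lit 0)) (.slot (nat_lit 0)))) (.col (nat_lit 2)) (.col (nat_lit 1))) (.col (nat_lit 0)) (.col (nat_lit 2)) (.node (.col (nat_lit 2)) (.slot (nat_lit 0)) (.slot (nat_lit 0)))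
def w23499 : Root := .mk (.node (.node (.node (.col (nat_lit 1)) (.node (.col (nat_lit 1)) (.col (nat_lit 0)) (.node (.slot (nat_lit 0)) (.slot (nat_lit 0)) (.slot (nat_lit 0)))) (.node (.col (nat_lit 0)) (.node (.col (nat_lit 0)) (.slot (nat_lit 0)) (.slot (nat_lit 0))) (.slot (nat_lit 1)))) (.node (.slot (nat_lit 0)) (.slot (nat_lit 0)) (.slot (nat_lit 0))) (.node (.slot (nat_lit 0)) (.slot (nat_lit 0)) (.slot (nat_lit 0)))) (.col (nat_lit 2)) (.col (nat_lit 1))) (.col (nat_lit 0)) (.col (nat_lit 2)) (.node (.slot (nat_lit 0)) (.slot (nat_lit 0)) (.slot (nat_lit 0)))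
def w23500 : Root := .mk (.node (.node (.col (nat_lit 1)) (.node (.col (nat_lit 1)) (.col (nat_lit 0)) (.node (.slot (nat_lit 0)) (.slot (nat_lit 0)) (.slot (nat_lit 0)))) (.node (.col (nat_lit 0)) (.node (.col (nat_lit 0)) (.slot (nat_lit 0)) (.slot (nat_lit 0))) (.slot (nat_lit 1)))) (.node (.slot (nat_lit 0)) (.slot (nat_lit 0)) (.slot (nat_lit 0))) (.slot (nat_lit 0))) (.col (nat_lit 2)) (.node (.col (nat_lit 0)) (.col (nat_lit 2)) (.slot (nat_lit 5))) (.col (nat_lit 1))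
def l5276 : Root := .mk (.node (.node (.col (nat_lit 1)) (.node (.col (nat_lit 1)) (.col (nat_lit 0)) (.node (.slot (nat_lit 0)) (.slot (nat_lit 0)) (.slot (nat_lit 0)))) (.node (.col (nat_lit 0)) (.node (.col (nat_lit 0)) (.slot (nat_lit 0)) (.slot (nat_lit 0))) (.slot (nat_lit 2)))) (.node (.node (.col (nat_lit 3)) (.slot (nat_lit 7)) (.slot (nat_lit 5))) (.slot (nat_lit 1)) (.slot (nat_lit 8))) (.node (.slot (nat_lit 0)) (.slot (nat_lit 1)) (.slot (nat_lit 1)))) (.col (nat_lit 2)) (.node (.col (nat_lit 0)) (.col (nat_lit 2)) (.slot (nat_lit 8))) (.col (nat_lit 1))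
def w23501 : Root := .mk (.node (.col (nat_lit 1)) (.node (.node (.col (nat_lit 2)) (.node (.col (nat_lit 0)) (.col (nat_lit 2)) (.slot (nat_lit 8))) (.slot (nat_lit 1))) (.node (.node (.col (nat_lit 3)) (.slot (nat_lit 7)) (.slot (nat_lit 5))) (.slot (nat_lit 8)) (.slot (nat_lit 1))) (.node (.slot (nat_lit 0)) (.slot (nat_lit 1)) (.slot (nat_lit 1)))) (.node (.col (nat_lit 0)) (.node (.col (nat_lit 0)) (.slot (nat_lit 0)) (.slot (nat_lit 0))) (.slot (nat_lit 2)))) (.col (nat_lit 1)) (.col (nat_lit 0)) (.node (.slot (nat_lit 0)) (.slot (nat_lit 0)) (.slot (nat_lit 0)))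
def l5277 : Root := .mk (.node (.col (nat_lit 1)) (.node (.node (.col (nat_lit 2)) (.col (nat_lit 1)) (.slot (nat_lit 3))) (.col (nat_lit 3)) (.node (.slot (nat_lit 0)) (.slot (nat_lit 1)) (.slot (nat_lit 0)))) (.node (.col (nat_lit 0)) (.node (.slot (nat_lit 0)) (.slot (nat_lit 0)) (.slot (nat_lit 0))) (.slot (nat_lit 1)))) (.col (nat_lit 1)) (.col (nat_lit 0)) (.node (.slot (nat_lit 0)) (.slot (nat_lit 0)) (.slot (nat_lit 0)))
def w23502 : Root := .mk (.node (.col (nat_lit 1)) (.node (.node (.col (nat_lit 2)) (.node (.col (nat_lit 0)) (.col (nat_lit 2)) (.slot (nat_lit 0))) (.slot (nat_lit 3))) (.col (nat_lit 3)) (.node (.slot (nat_lit 0)) (.slot (nat_lit 1)) (.slot (nat_lit 0)))) (.node (.col (nat_lit 0)) (.node (.slot (nat_lit 0)) (.slot (nat_lit 0)) (.slot (nat_lit 0))) (.slot (nat_lit 1)))) (.col (nat_lit 1)) (.col (nat_lit 0)) (.node (.slot (nat_lit 0)) (.slot (nat_lit 0)) (.slot (nat_lit 0)))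
def w23503 : Root := .mk (.node (.col (nat_lit 1)) (.node (.node (.col (nat_lit 2)) (.slot (nat_lit 0)) (.slot (nat_lit 0))) (.node (.col (nat_lit 1)) (.col (nat_lit 2)) (.slot (nat_lit 3))) (.node (.slot (nat_lit 0)) (.slot (nat_lit 1)) (.slot (nat_lit 0)))) (.node (.col (nat_lit 0)) (.node (.slot (nat_lit 0)) (.slot (nat_lit 0)) (.slot (nat_lit 0))) (.slot (nat_lit 1)))) (.col (nat_lit 1)) (.col (nat_lit 0)) (.node (.slot (nat_lit 0)) (.slot (nat_lit 0)) (.slot (nat_lit 0)))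
def w23504 : Root := .mk (.node (.node (.col (nat_lit 1)) (.node (.col (nat_lit 1)) (.col (nat_lit 0)) (.node (.slot (nat_lit 0)) (.slot (nat_lit 0)) (.slot (nat_lit 0)))) (.node (.col (nat_lit 0)) (.node (.slot (nat_lit 0)) (.slot (nat_lit 0)) (.slot (nat_lit 0))) (.slot (nat_lit 1)))) (.node (.col (nat_lit 2)) (.slot (nat_lit 0)) (.slot (nat_lit 1))) (.node (.slot (nat_lit 0)) (.slot (nat_lit 0)) (.slot (nat_lit 0)))) (.node (.col (nat_lit 3)) (.slot (nat_lit 0)) (.slot (nat_lit 0))) (.col (nat_lit 2)) (.col (nat_lit 3))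
def w23505 : Root := .mk (.node (.col (nat_lit 1)) (.node (.col (nat_lit 1)) (.node (.node (.col (nat_lit 3)) (.slot (nat_lit 1)) (.slot (nat_lit 0))) (.col (nat_lit 2)) (.slot (nat_lit 1))) (.node (.slot (nat_lit 0)) (.slot (nat_lit 0)) (.slot (nat_lit 0)))) (.node (.col (nat_lit 0)) (.node (.slot (nat_lit 0)) (.slot (nat_lit 0)) (.slot (nat_lit 0))) (.slot (nat_lit 1)))) (.col (nat_lit 1)) (.col (nat_lit 0)) (.node (.slot (nat_lit 0)) (.slot (nat_lit 0)) (.slot (nat_lit 0)))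
def w23506 : Root := .mk (.node (.col (nat_lit 1)) (.node (.col (nat_lit 4)) (.node (.node (.col (nat_lit 3)) (.slot (nat_lit 0)) (.slot (nat_lit 0))) (.col (nat_lit 2)) (.slot (nat_lit 3))) (.node (.slot (nat_lit 0)) (.slot (nat_lit 1)) (.slot (nat_lit 0)))) (.node (.col (nat_lit 0)) (.node (.slot (nat_lit 0)) (.slot (nat_lit 0)) (.slot (nat_lit 0))) (.slot (nat_lit 1)))) (.col (nat_lit 1)) (.col (nat_lit 0)) (.node (.slot (nat_lit 0)) (.slot (nat_lit 0)) (.slot (nat_lit 0)))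
def w23507 : Root := .mk (.node (.col (nat_lit 1)) (.node (.node (.col (nat_lit 2)) (.slot (nat_lit 0)) (.slot (nat_lit 0))) (.node (.node (.col (nat_lit 3)) (.slot (nat_lit 1)) (.slot (nat_lit 1))) (.col (nat_lit 2)) (.slot (nat_lit 2))) (.col (nat_lit 2))) (.node (.col (nat_lit 0)) (.node (.slot (nat_lit 0)) (.slot (nat_lit 0)) (.slot (nat_lit 0))) (.slot (nat_lit 0)))) (.col (nat_lit 1)) (.col (nat_lit 0)) (.slot (nat_lit 0))
def w23508 : Root := .mk (.node (.col (nat_lit 1)) (.node (.slot (nat_lit 0)) (.node (.node (.col (nat_lit 3)) (.col (nat_lit 2)) (.slot (nat_lit 5))) (.col (nat_lit 2)) (.slot (nat_lit 8))) (.node (.slot (nat_lit 0)) (.slot (nat_lit 0)) (.slot (nat_lit 0)))) (.node (.col (nat_lit 0)) (.node (.slot (nat_lit 0)) (.slot (nat_lit 0)) (.slot (nat_lit 0))) (.slot (nat_lit 1)))) (.col (nat_lit 1)) (.col (nat_lit 0)) (.node (.slot (nat_lit 0)) (.slot (nat_lit 0)) (.slot (nat_lit 0)))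
def w23509 : Root := .mk (.node (.col (nat_lit 1)) (.node (.node (.col (nat_lit 2)) (.slot (nat_lit 0)) (.slot (nat_lit 0))) (.node (.node (.col (nat_lit 3)) (.slot (nat_lit 1)) (.slot (nat_lit 1))) (.col (nat_lit 2)) (.slot (nat_lit 2))) (.node (.slot (nat_lit 0)) (.slot (nat_lit 0)) (.slot (nat_lit 0)))) (.node (.col (nat_lit 0)) (.node (.slot (nat_lit 0)) (.slot (nat_lit 0)) (.slot (nat_lit 0))) (.slot (nat_lit 2)))) (.col (nat_lit 1)) (.col (nat_lit 0)) (.slot (nat_lit 0))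
def w23510 : Root := .mk (.node (.col (nat_lit 1)) (.node (.node (.col (nat_lit 2)) (.slot (nat_lit 0)) (.slot (nat_lit 1))) (.col (nat_lit 4)) (.node (.col (nat_lit 0)) (.slot (nat_lit 1)) (.slot (nat_lit 1)))) (.node (.col (nat_lit 0)) (.node (.slot (nat_lit 0)) (.slot (nat_lit 0)) (.slot (nat_lit 0))) (.slot (nat_lit 1)))) (.col (nat_lit 1)) (.col (nat_lit 0)) (.node (.slot (nat_lit 0)) (.slot (nat_lit 0)) (.slot (nat_lit 0)))
def w23511 : Root := .mk (.node (.col (nat_lit 1)) (.node (.node (.col (nat_lit 2)) (.slot (nat_lit 0)) (.slot (nat_lit 1))) (.node (.node (.col (nat_lit 3)) (.slot (nat_lit 1)) (.slot (nat_lit 1))) (.col (nat_lit 2)) (.slot (nat_lit 2))) (.node (.col (nat_lit 0)) (.slot (nat_lit 1)) (.slot (nat_lit 1)))) (.node (.col (nat_lit 0)) (.node (.slot (nat_lit 0)) (.slot (nat_lit 0)) (.slot (nat_lit 0))) (.slot (nat_lit 1)))) (.col (nat_lit 1)) (.col (nat_lit 0)) (.node (.slot (nat_lit 0)) (.slot (nat_lit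 0)) (.slot (nat_lit 0)))
def w23512 : Root := .mk (.node (.col (nat_lit 1)) (.node (.node (.col (nat_lit 2)) (.node (.col (nat_lit 0)) (.col (nat_lit 2)) (.slot (nat_lit 0))) (.slot (nat_lit 1))) (.col (nat_lit 4)) (.node (.slot (nat_lit 0)) (.col (nat_lit 0)) (.slot (nat_lit 1)))) (.node (.col (nat_lit 0)) (.node (.slot (nat_lit 0)) (.slot (nat_lit 0)) (.slot (nat_lit 0))) (.slot (nat_lit 1)))) (.col (nat_lit 1)) (.col (nat_lit 0)) (.node (.slot (nat_lit 0)) (.slot (nat_lit 0)) (.slot (nat_lit 0)))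
def w23513 : Root := .mk (.node (.col (nat_lit 1)) (.node (.node (.col (nat_lit 2)) (.node (.col (nat_lit 0)) (.col (nat_lit 2)) (.slot (nat_lit 0))) (.slot (nat_lit 1))) (.node (.node (.col (nat_lit 3)) (.slot (nat_lit 1)) (.slot (nat_lit 1))) (.col (nat_lit 2)) (.slot (nat_lit 2))) (.node (.slot (nat_lit 0)) (.col (nat_lit 0)) (.slot (nat_lit 1)))) (.node (.col (nat_lit 0)) (.node (.slot (nat_lit 0)) (.slot (nat_lit 0)) (.slot (nat_lit 0))) (.slot (nat_lit 1)))) (.col (nat_lit 1)) (.col (nat_lit 0)) (.node (.slot (nat_lit 0)) (.slot (nat_lit 0)) (.slot (nat_lit 0)))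
def w23514 : Root := .mk (.node (.col (nat_lit 1)) (.node (.node (.col (nat_lit 2)) (.node (.col (nat_lit 0)) (.col (nat_lit 2)) (.slot (nat_lit 0))) (.slot (nat_lit 1))) (.col (nat_lit 4)) (.node (.slot (nat_lit 0)) (.col (nat_lit 2)) (.slot (nat_lit 1)))) (.node (.col (nat_lit 0)) (.node (.slot (nat_lit 0)) (.slot (nat_lit 0)) (.slot (nat_lit 0))) (.slot (nat_lit 1)))) (.col (nat_lit 1)) (.col (nat_lit 0)) (.node (.slot (nat_lit 0)) (.slot (nat_lit 0)) (.slot (nat_lit 0)))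
def w23515 : Root := .mk (.node (.col (nat_lit 1)) (.node (.node (.col (nat_lit 2)) (.node (.col (nat_lit 0)) (.col (nat_lit 2)) (.slot (nat_lit 0))) (.slot (nat_lit 1))) (.node (.node (.col (nat_lit 3)) (.slot (nat_lit 1)) (.slot (nat_lit 1))) (.col (nat_lit 2)) (.slot (nat_lit 2))) (.node (.slot (nat_lit 0)) (.col (nat_lit 2)) (.slot (nat_lit 1)))) (.node (.col (nat_lit 0)) (.node (.slot (nat_lit 0)) (.slot (nat_lit 0)) (.slot (nat_lit 0))) (.slot (nat_lit 1)))) (.col (nat_lit 1)) (.col (nat_lit 0)) (.node (.slot (nat_lit 0)) (.slot (nat_lit 0)) (.slot (nat_lit 0)))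
def l5278 : Root := .mk (.node (.col (nat_lit 1)) (.node (.node (.col (nat_lit 2)) (.node (.col (nat_lit 0)) (.col (nat_lit 2)) (.slot (nat_lit 5))) (.slot (nat_lit 8))) (.node (.node (.col (nat_lit 3)) (.slot (nat_lit 12)) (.slot (nat_lit 20))) (.col (nat_lit 2)) (.slot (nat_lit 21))) (.node (.slot (nat_lit 0)) (.slot (nat_lit 4)) (.slot (nat_lit 4)))) (.node (.col (nat_lit 0)) (.node (.slot (nat_lit 0)) (.slot (nat_lit 0)) (.slot (nat_lit 0))) (.slot (nat_lit 2)))) (.col (nat_lit 1)) (.col (nat_lit 0)) (.node (.slot (nat_lit 0)) (.slot (nat_lit 0)) (.slot (nat_lit 0)))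
def w23516 : Root := .mk (.node (.col (nat_lit 1)) (.node (.node (.col (nat_lit 2)) (.node (.col (nat_lit 0)) (.col (nat_lit 2)) (.slot (nat_lit 5))) (.slot (nat_lit 8))) (.node (.node (.col (nat_lit 3)) (.slot (nat_lit 20)) (.slot (nat_lit 12))) (.slot (nat_lit 1)) (.slot (nat_lit 21))) (.node (.slot (nat_lit 0)) (.slot (nat_lit 4)) (.slot (nat_lit 4)))) (.node (.col (nat_lit 0)) (.node (.slot (nat_lit 0)) (.slot (nat_lit 0)) (.slot (nat_lit 0))) (.slot (nat_lit 2)))) (.col (nat_lit 1)) (.col (nat_lit 0)) (.node (.slot (nat_lit 0)) (.slot (nat_lit 0)) (.slot (nat_lit 0)))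
def w23517 : Root := .mk (.node (.col (nat_lit 1)) (.node (.node (.col (nat_lit 2)) (.col (nat_lit 1)) (.slot (nat_lit 3))) (.node (.slot (nat_lit 0)) (.slot (nat_lit 0)) (.slot (nat_lit 0))) (.node (.slot (nat_lit 0)) (.slot (nat_lit 0)) (.slot (nat_lit 0)))) (.node (.col (nat_lit 0)) (.slot (nat_lit 1)) (.slot (nat_lit 1)))) (.col (nat_lit 1)) (.col (nat_lit 0)) (.slot (nat_lit 0))
def l5279 : Root := .mk (.node (.col (nat_lit 1)) (.node (.col (nat_lit 1)) (.col (nat_lit 0)) (.node (.col (nat_lit 0)) (.slot (nat_lit 0)) (.slot (nat_lit 0)))) (.node (.col (nat_lit 0)) (.slot (nat_lit 1)) (.slot (nat_lit 1)))) (.col (nat_lit 3)) (.node (.node (.col (nat_lit 3)) (.slot (nat_lit 0)) (.slot (nat_lit 0))) (.col (nat_lit 1)) (.col (nat_lit 3))) (.col (nat_lit 0))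
def w23518 : Root := .mk (.node (.node (.col (nat_lit 1)) (.node (.col (nat_lit 1)) (.col (nat_lit 0)) (.node (.col (nat_lit 0)) (.slot (nat_lit 0)) (.slot (nat_lit 0)))) (.node (.col (nat_lit 0)) (.slot (nat_lit 1)) (.slot (nat_lit 1)))) (.col (nat_lit 3)) (.node (.slot (nat_lit 0)) (.slot (nat_lit 0)) (.slot (nat_lit 0)))) (.node (.col (nat_lit 3)) (.slot (nat_lit 0)) (.slot (nat_lit 0))) (.col (nat_lit 1)) (.col (nat_lit 3))
def l5280 : Root := .mk (.node (.col (nat_lit 1)) (.node (.col (nat_lit 3)) (.node (.node (.col (nat_lit 3)) (.slot (nat_lit 7)) (.slot (nat_lit 5))) (.col (nat_lit 1)) (.slot (nat_lit 8))) (.node (.slot (nat_lit 0)) (.slot (nat_lit 0)) (.slot (nat_lit 0)))) (.node (.col (nat_lit 0)) (.slot (nat_lit 1)) (.slot (nat_lit 1)))) (.col (nat_lit 1)) (.col (nat_lit 0)) (.node (.col (nat_lit 0)) (.slot (nat_lit 0)) (.slot (nat_lit 0)))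
def w23519 : Root := .mk (.node (.col (nat_lit 1)) (.node (.col (nat_lit 3)) (.node (.node (.col (nat_lit 3)) (.slot (nat_lit 7)) (.slot (nat_lit 5))) (.slot (nat_lit 1)) (.slot (nat_lit 8))) (.node (.slot (nat_lit 0)) (.slot (nat_lit 0)) (.slot (nat_lit 0)))) (.node (.col (nat_lit 0)) (.slot (nat_lit 1)) (.slot (nat_lit 1)))) (.col (nat_lit 1)) (.col (nat_lit 0)) (.node (.col (nat_lit 0)) (.slot (nat_lit 0)) (.slot (nat_lit 0)))
def w23520 : Root := .mk (.node (.col (nat_lit 1)) (.node (.col (nat_lit 4)) (.node (.node (.col (nat_lit 3)) (.slot (nat_lit 0)) (.slot (nat_lit 0))) (.col (nat_lit 2)) (.slot (nat_lit 3))) (.node (.slot (nat_lit 0)) (.slot (nat_lit 1)) (.slot (nat_lit 1)))) (.node (.col (nat_lit 0)) (.slot (nat_lit 1)) (.slot (nat_lit 1)))) (.col (nat_lit 1)) (.col (nat_lit 0)) (.node (.col (nat_lit 0)) (.slot (nat_lit 0)) (.slot (nat_lit 0)))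
def l5281 : Root := .mk (.node (.node (.col (nat_lit 1)) (.node (.col (nat_lit 1)) (.col (nat_lit 0)) (.node (.col (nat_lit 0)) (.slot (nat_lit 0)) (.slot (nat_lit 0)))) (.node (.col (nat_lit 0)) (.slot (nat_lit 1)) (.slot (nat_lit 1)))) (.col (nat_lit 4)) (.node (.slot (nat_lit 0)) (.slot (nat_lit 0)) (.slot (nat_lit 0)))) (.col (nat_lit 4)) (.col (nat_lit 2)) (.node (.col (nat_lit 3)) (.slot (nat_lit 20)) (.slot (nat_lit 9)))
def w23521 : Root := .mk (.node (.col (nat_lit 1)) (.node (.col (nat_lit 4)) (.node (.col (nat_lit 4)) (.col (nat_lit 2)) (.slot (nat_lit 21))) (.node (.slot (nat_lit 0)) (.slot (nat_lit 0)) (.slot (nat_lit 0)))) (.node (.col (nat_lit 0)) (.slot (nat_lit 1)) (.slot (nat_lit 1)))) (.col (nat_lit 1)) (.col (nat_lit 0)) (.node (.col (nat_lit 0)) (.slot (nat_lit 0)) (.slot (nat_lit 0)))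
def l5282 : Root := .mk (.col (nat_lit 1)) (.col (nat_lit 2)) (.node (.col (nat_lit 4)) (.node (.node (.col (nat_lit 3)) (.slot (nat_lit 0)) (.slot (nat_lit 0))) (.col (nat_lit 2)) (.col (nat_lit 3))) (.node (.slot (nat_lit 0)) (.slot (nat_lit 0)) (.slot (nat_lit 0)))) (.node (.col (nat_lit 0)) (.slot (nat_lit 20)) (.slot (nat_lit 9)))
def w23522 : Root := .mk (.node (.node (.col (nat_lit 1)) (.node (.col (nat_lit 1)) (.col (nat_lit 0)) (.slot (nat_lit 0))) (.node (.col (nat_lit 0)) (.slot (nat_lit 20)) (.slot (nat_lit 9)))) (.col (nat_lit 4)) (.node (.slot (nat_lit 0)) (.slot (nat_lit 0)) (.slot (nat_lit 0)))) (.node (.col (nat_lit 3)) (.slot (nat_lit 0)) (.slot (nat_lit 0))) (.col (nat_lit 2)) (.col (nat_lit 3))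
def w23523 : Root := .mk (.node (.col (nat_lit 1)) (.node (.col (nat_lit 4)) (.node (.node (.col (nat_lit 3)) (.slot (nat_lit 20)) (.slot (nat_lit 9))) (.col (nat_lit 2)) (.node (.slot (nat_lit 0)) (.slot (nat_lit 0)) (.slot (nat_lit 0)))) (.node (.slot (nat_lit 0)) (.slot (nat_lit 0)) (.slot (nat_lit 0)))) (.node (.col (nat_lit 0)) (.slot (nat_lit 1)) (.slot (nat_lit 1)))) (.col (nat_lit 1)) (.col (nat_lit 0)) (.node (.col (nat_lit 0)) (.slot (nat_lit 0)) (.slot (nat_lit 0)))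
def w23524 : Root := .mk (.node (.col (nat_lit 1)) (.node (.col (nat_lit 4)) (.node (.node (.col (nat_lit 3)) (.col (nat_lit 2)) (.slot (nat_lit 0))) (.col (nat_lit 2)) (.slot (nat_lit 3))) (.node (.slot (nat_lit 0)) (.slot (nat_lit 1)) (.slot (nat_lit 1)))) (.node (.col (nat_lit 0)) (.slot (nat_lit 1)) (.slot (nat_lit 1)))) (.col (nat_lit 1)) (.col (nat_lit 0)) (.node (.col (nat_lit 0)) (.slot (nat_lit 0)) (.slot (nat_lit 0)))
def w23525 : Root := .mk (.node (.col (nat_lit 1)) (.node (.col (nat_lit 4)) (.node (.node (.col (nat_lit 3)) (.slot (nat_lit 3)) (.slot (nat_lit 3))) (.col (nat_lit 2)) (.slot (nat_lit 3))) (.node (.col (nat_lit 4)) (.slot (nat_lit 3)) (.slot (nat_lit 3)))) (.node (.col (nat_lit 0)) (.slot (nat_lit 7)) (.slot (nat_lit 5)))) (.col (nat_lit 1)) (.col (nat_lit 0)) (.slot (nat_lit 0))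
def w23526 : Root := .mk (.node (.col (nat_lit 1)) (.node (.col (nat_lit 4)) (.node (.node (.col (nat_lit 3)) (.slot (nat_lit 3)) (.slot (nat_lit 1))) (.col (nat_lit 2)) (.slot (nat_lit 1))) (.slot (nat_lit 0))) (.node (.col (nat_lit 0)) (.slot (nat_lit 1)) (.slot (nat_lit 1)))) (.col (nat_lit 1)) (.col (nat_lit 0)) (.node (.col (nat_lit 0)) (.slot (nat_lit 0)) (.slot (nat_lit 0)))
def w23527 : Root := .mk (.node (.col (nat_lit 1)) (.node (.col (nat_lit 4)) (.slot (nat_lit 0)) (.slot (nat_lit 0))) (.node (.col (nat_lit 0)) (.node (.col (nat_lit 4)) (.slot (nat_lit 3)) (.slot (nat_lit 3))) (.slot (nat_lit 4)))) (.col (nat_lit 1)) (.col (nat_lit 0)) (.node (.col (nat_lit 0)) (.slot (nat_lit 0)) (.slot (nat_lit 0)))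
def l5283 : Root := .mk (.node (.col (nat_lit 1)) (.node (.col (nat_lit 4)) (.node (.node (.col (nat_lit 3)) (.slot (nat_lit 20)) (.slot (nat_lit 12))) (.col (nat_lit 2)) (.slot (nat_lit 21))) (.node (.slot (nat_lit 0)) (.slot (nat_lit 20)) (.slot (nat_lit 9)))) (.node (.col (nat_lit 0)) (.slot (nat_lit 20)) (.slot (nat_lit 9)))) (.col (nat_lit 1)) (.col (nat_lit 0)) (.node (.col (nat_lit 0)) (.slot (nat_lit 1)) (.slot (nat_lit 1)))
def w23528 : Root := .mk (.node (.col (nat_lit 1)) (.node (.col (nat_lit 4)) (.node (.node (.col (nat_lit 3)) (.slot (nat_lit 20)) (.slot (nat_lit 12))) (.slot (nat_lit 1)) (.slot (nat_lit 21))) (.node (.slot (nat_lit 0)) (.slot (nat_lit 20)) (.slot (nat_lit 9)))) (.node (.col (nat_lit 0)) (.slot (nat_lit 20)) (.slot (nat_lit 9)))) (.col (nat_lit 1)) (.col (nat_lit 0)) (.node (.col (nat_lit 0)) (.slot (nat_lit 1)) (.slot (nat_lit 1)))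
def w23529 : Root := .mk (.node (.node (.col (nat_lit 1)) (.node (.col (nat_lit 1)) (.col (nat_lit 0)) (.node (.col (nat_lit 0)) (.slot (nat_lit 0)) (.slot (nat_lit 0)))) (.node (.col (nat_lit 0)) (.slot (nat_lit 1)) (.slot (nat_lit 1)))) (.node (.slot (nat_lit 0)) (.slot (nat_lit 0)) (.slot (nat_lit 0))) (.slot (nat_lit 0))) (.col (nat_lit 2)) (.col (nat_lit 1)) (.col (nat_lit 0))
def l5284 : Root := .mk (.node (.node (.col (nat_lit 1)) (.node (.col (nat_lit 1)) (.col (nat_lit 0)) (.node (.col (nat_lit 0)) (.slot (nat_lit 0)) (.slot (nat_lit 0)))) (.node (.col (nat_lit 0)) (.slot (nat_lit 5)) (.slot (nat_lit 5)))) (.col (nat_lit 0)) (.node (.slot (nat_lit 0)) (.slot (nat_lit 0)) (.slot (nat_lit 0)))) (.col (nat_lit 2)) (.col (nat_lit 1)) (.node (.col (nat_lit 1)) (.slot (nat_lit 0)) (.slot (nat_lit 0)))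
def w23530 : Root := .mk (.node (.node (.col (nat_lit 1)) (.node (.col (nat_lit 1)) (.col (nat_lit 0)) (.node (.col (nat_lit 0)) (.slot (nat_lit 0)) (.slot (nat_lit 0)))) (.node (.col (nat_lit 0)) (.slot (nat_lit 5)) (.slot (nat_lit 5)))) (.node (.slot (nat_lit 0)) (.slot (nat_lit 0)) (.slot (nat_lit 0))) (.node (.slot (nat_lit 0)) (.slot (nat_lit 0)) (.slot (nat_lit 0)))) (.col (nat_lit 2)) (.col (nat_lit 1)) (.node (.col (nat_lit 1)) (.slot (nat_lit 0)) (.slot (nat_lit 0)))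
def l5285 : Root := .mk (.node (.node (.col (nat_lit 1)) (.node (.col (nat_lit 1)) (.col (nat_lit 0)) (.node (.col (nat_lit 0)) (.slot (nat_lit 0)) (.slot (nat_lit 0)))) (.node (.col (nat_lit 0)) (.slot (nat_lit 5)) (.slot (nat_lit 5)))) (.col (nat_lit 0)) (.node (.slot (nat_lit 0)) (.slot (nat_lit 0)) (.slot (nat_lit 0)))) (.col (nat_lit 2)) (.col (nat_lit 1)) (.node (.col (nat_lit 2)) (.slot (nat_lit 0)) (.slot (nat_lit 0)))
def w23531 : Root := .mk (.node (.node (.col (nat_lit 1)) (.node (.col (nat_lit 1)) (.col (nat_lit 0)) (.node (.col (nat_lit 0)) (.slot (nat_lit 0)) (.slot (nat_lit 0)))) (.node (.col (nat_lit 0)) (.slot (nat_lit 5)) (.slot (nat_lit 5)))) (.node (.slot (nat_lit 0)) (.slot (nat_lit 0)) (.slot (nat_lit 0))) (.node (.slot (nat_lit 0)) (.slot (nat_lit 0)) (.slot (nat_lit 0)))) (.col (nat_lit 2)) (.col (nat_lit 1)) (.node (.col (nat_lit 2)) (.slot (nat_lit 0)) (.slot (nat_lit 0)))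
def w23532 : Root := .mk (.node (.node (.col (nat_lit 1)) (.node (.col (nat_lit 1)) (.col (nat_lit 0)) (.node (.col (nat_lit 0)) (.slot (nat_lit 0)) (.slot (nat_lit 0)))) (.node (.col (nat_lit 0)) (.slot (nat_lit 1)) (.slot (nat_lit 1)))) (.node (.node (.col (nat_lit 3)) (.slot (nat_lit 1)) (.slot (nat_lit 1))) (.slot (nat_lit 3)) (.slot (nat_lit 1))) (.node (.slot (nat_lit 0)) (.slot (nat_lit 0)) (.slot (nat_lit 0)))) (.col (nat_lit 2)) (.col (nat_lit 1)) (.node (.slot (nat_lit 0)) (.slot (nat_lit 0)) (.slot (nat_lit 0)))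
def w23533 : Root := .mk (.node (.col (nat_lit 1)) (.node (.node (.col (nat_lit 2)) (.col (nat_lit 1)) (.slot (nat_lit 3))) (.col (nat_lit 2)) (.node (.slot (nat_lit 0)) (.slot (nat_lit 0)) (.slot (nat_lit 0)))) (.node (.col (nat_lit 0)) (.slot (nat_lit 1)) (.slot (nat_lit 1)))) (.col (nat_lit 1)) (.col (nat_lit 0)) (.slot (nat_lit 0))
def w23534 : Root := .mk (.col (nat_lit 1)) (.slot (nat_lit 0)) (.node (.node (.col (nat_lit 2)) (.col (nat_lit 1)) (.slot (nat_lit 3))) (.node (.col (nat_lit 1)) (.slot (nat_lit 3)) (.slot (nat_lit 1))) (.node (.slot (nat_lit 0)) (.slot (nat_lit 0)) (.slot (nat_lit 0)))) (.node (.col (nat_lit 0)) (.slot (nat_lit 0)) (.slot (nat_lit 0)))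
def w23535 : Root := .mk (.node (.col (nat_lit 1)) (.node (.node (.col (nat_lit 2)) (.col (nat_lit 1)) (.slot (nat_lit 1))) (.node (.col (nat_lit 2)) (.slot (nat_lit 3)) (.slot (nat_lit 1))) (.node (.slot (nat_lit 0)) (.slot (nat_lit 0)) (.slot (nat_lit 0)))) (.node (.col (nat_lit 0)) (.slot (nat_lit 5)) (.slot (nat_lit 5)))) (.col (nat_lit 1)) (.col (nat_lit 0)) (.slot (nat_lit 0))
def w23536 : Root := .mk (.node (.col (nat_lit 1)) (.node (.node (.col (nat_lit 2)) (.col (nat_lit 1)) (.slot (nat_lit 3))) (.node (.col (nat_lit 4)) (.slot (nat_lit 1)) (.slot (nat_lit 1))) (.node (.slot (nat_lit 0)) (.slot (nat_lit 1)) (.slot (nat_lit 1)))) (.node (.col (nat_lit 0)) (.slot (nat_lit 4)) (.slot (nat_lit 4)))) (.col (nat_lit 1)) (.col (nat_lit 0)) (.slot (nat_lit 0))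
def w23537 : Root := .mk (.node (.col (nat_lit 1)) (.node (.node (.col (nat_lit 2)) (.col (nat_lit 1)) (.slot (nat_lit 3))) (.node (.slot (nat_lit 0)) (.col (nat_lit 3)) (.slot (nat_lit 0))) (.node (.slot (nat_lit 0)) (.slot (nat_lit 1)) (.slot (nat_lit 1)))) (.node (.col (nat_lit 0)) (.slot (nat_lit 1)) (.slot (nat_lit 1)))) (.col (nat_lit 1)) (.col (nat_lit 0)) (.node (.col (nat_lit 0)) (.slot (nat_lit 0)) (.slot (nat_lit 0)))
def w23538 : Root := .mk (.node (.col (nat_lit 1)) (.node (.node (.col (nat_lit 2)) (.col (nat_lit 1)) (.slot (nat_lit 3))) (.node (.slot (nat_lit 0)) (.slot (nat_lit 1)) (.slot (nat_lit 1))) (.node (.slot (nat_lit 0)) (.col (nat_lit 1)) (.slot (nat_lit 0)))) (.node (.col (nat_lit 0)) (.slot (nat_lit 1)) (.slot (nat_lit 1)))) (.col (nat_lit 1)) (.col (nat_lit 0)) (.node (.col (nat_lit 0)) (.slot (nat_lit 0)) (.slot (nat_lit 0)))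
def w23539 : Root := .mk (.node (.col (nat_lit 1)) (.node (.node (.col (nat_lit 2)) (.col (nat_lit 1)) (.slot (nat_lit 3))) (.node (.slot (nat_lit 0)) (.slot (nat_lit 1)) (.slot (nat_lit 1))) (.node (.slot (nat_lit 0)) (.col (nat_lit 2)) (.slot (nat_lit 0)))) (.node (.col (nat_lit 0)) (.slot (nat_lit 1)) (.slot (nat_lit 1)))) (.col (nat_lit 1)) (.col (nat_lit 0)) (.node (.col (nat_lit 0)) (.slot (nat_lit 0)) (.slot (nat_lit 0)))
def w23540 : Root := .mk (.node (.col (nat_lit 1)) (.node (.node (.col (nat_lit 2)) (.col (nat_lit 1)) (.slot (nat_lit 2))) (.node (.slot (nat_lit 0)) (.slot (nat_lit 0)) (.slot (nat_lit 0))) (.node (.slot (nat_lit 0)) (.slot (nat_lit 0)) (.slot (nat_lit 0)))) (.node (.col (nat_lit 0)) (.col (nat_lit 1)) (.slot (nat_lit 2)))) (.col (nat_lit 1)) (.col (nat_lit 0)) (.node (.col (nat_lit 0)) (.slot (nat_lit 1)) (.slot (nat_lit 1)))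
def l5286 : Root := .mk (.node (.col (nat_lit 1)) (.node (.node (.col (nat_lit 2)) (.col (nat_lit 1)) (.slot (nat_lit 3))) (.node (.node (.col (nat_lit 3)) (.slot (nat_lit 20)) (.slot (nat_lit 12))) (.slot (nat_lit 21)) (.slot (nat_lit 3))) (.node (.slot (nat_lit 0)) (.slot (nat_lit 20)) (.slot (nat_lit 9)))) (.node (.col (nat_lit 0)) (.slot (nat_lit 20)) (.slot (nat_lit 9)))) (.col (nat_lit 1)) (.col (nat_lit 0)) (.node (.col (nat_lit 0)) (.slot (nat_lit 1)) (.slot (nat_lit 1)))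
def w23541 : Root := .mk (.node (.col (nat_lit 1)) (.node (.node (.col (nat_lit 2)) (.node (.col (nat_lit 0)) (.col (nat_lit 2)) (.slot (nat_lit 0))) (.slot (nat_lit 3))) (.node (.node (.col (nat_lit 3)) (.slot (nat_lit 20)) (.slot (nat_lit 12))) (.slot (nat_lit 21)) (.slot (nat_lit 3))) (.node (.slot (nat_lit 0)) (.slot (nat_lit 20)) (.slot (nat_lit 9)))) (.node (.col (nat_lit 0)) (.slot (nat_lit 20)) (.slot (nat_lit 9)))) (.col (nat_lit 1)) (.col (nat_lit 0)) (.node (.col (nat_lit 0)) (.slot (nat_lit 1)) (.slot (nat_lit 1)))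
def w23542 : Root := .mk (.node (.col (nat_lit 1)) (.node (.col (nat_lit 4)) (.node (.node (.col (nat_lit 3)) (.slot (nat_lit 1)) (.slot (nat_lit 1))) (.col (nat_lit 2)) (.slot (nat_lit 2))) (.node (.slot (nat_lit 0)) (.slot (nat_lit 0)) (.slot (nat_lit 0)))) (.node (.col (nat_lit 0)) (.slot (nat_lit 20)) (.slot (nat_lit 9)))) (.col (nat_lit 1)) (.col (nat_lit 0)) (.slot (nat_lit 0))
def l5287 : Root := .mk (.node (.col (nat_lit 1)) (.node (.col (nat_lit 4)) (.node (.node (.col (nat_lit 3)) (.slot (nat_lit 20)) (.slot (nat_lit 12))) (.col (nat_lit 2)) (.slot (nat_lit 21))) (.node (.slot (nat_lit 0)) (.slot (nat_lit 1)) (.slot (nat_lit 1)))) (.node (.col (nat_lit 0)) (.slot (nat_lit 20)) (.slot (nat_lit 9)))) (.col (nat_lit 1)) (.col (nat_lit 0)) (.node (.slot (nat_lit 0)) (.col (nat_lit 0)) (.slot (nat_lit 1)))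
def w23543 : Root := .mk (.node (.col (nat_lit 1)) (.node (.col (nat_lit 4)) (.node (.node (.col (nat_lit 3)) (.slot (nat_lit 20)) (.slot (nat_lit 12))) (.slot (nat_lit 1)) (.slot (nat_lit 21))) (.node (.slot (nat_lit 0)) (.slot (nat_lit 1)) (.slot (nat_lit 1)))) (.node (.col (nat_lit 0)) (.slot (nat_lit 20)) (.slot (nat_lit 9)))) (.col (nat_lit 1)) (.col (nat_lit 0)) (.node (.slot (nat_lit 0)) (.col (nat_lit 0)) (.slot (nat_lit 1)))
def w23544 : Root := .mk (.node (.col (nat_lit 1)) (.node (.node (.col (nat_lit 2)) (.col (nat_lit 1)) (.slot (nat_lit 2))) (.node (.slot (nat_lit 0)) (.slot (nat_lit 0)) (.slot (nat_lit 0))) (.node (.slot (nat_lit 0)) (.slot (nat_lit 0)) (.slot (nat_lit 0)))) (.node (.col (nat_lit 0)) (.col (nat_lit 1)) (.slot (nat_lit 3)))) (.col (nat_lit 1)) (.col (nat_lit 0)) (.slot (nat_lit 0))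
def l5288 : Root := .mk (.node (.col (nat_lit 1)) (.node (.node (.col (nat_lit 2)) (.col (nat_lit 1)) (.slot (nat_lit 6))) (.node (.node (.col (nat_lit 3)) (.slot (nat_lit 20)) (.slot (nat_lit 12))) (.slot (nat_lit 21)) (.slot (nat_lit 1))) (.node (.slot (nat_lit 0)) (.slot (nat_lit 1)) (.slot (nat_lit 1)))) (.node (.col (nat_lit 0)) (.slot (nat_lit 21)) (.slot (nat_lit 21)))) (.col (nat_lit 1)) (.col (nat_lit 0)) (.node (.slot (nat_lit 0)) (.col (nat_lit 0)) (.slot (nat_lit 1)))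
def w23545 : Root := .mk (.node (.col (nat_lit 1)) (.node (.node (.col (nat_lit 2)) (.node (.col (nat_lit 0)) (.col (nat_lit 2)) (.slot (nat_lit 0))) (.slot (nat_lit 6))) (.node (.node (.col (nat_lit 3)) (.slot (nat_lit 20)) (.slot (nat_lit 12))) (.slot (nat_lit 21)) (.slot (nat_lit 1))) (.node (.slot (nat_lit 0)) (.slot (nat_lit 1)) (.slot (nat_lit 1)))) (.node (.col (nat_lit 0)) (.slot (nat_lit 21)) (.slot (nat_lit 21)))) (.col (nat_lit 1)) (.col (nat_lit 0)) (.node (.slot (nat_lit 0)) (.col (nat_lit 0)) (.slot (nat_lit 1)))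
def l5293 : Root := .mk (.node (.col (nat_lit 1)) (.node (.col (nat_lit 1)) (.col (nat_lit 0)) (.node (.slot (nat_lit 0)) (.col (nat_lit 1)) (.slot (nat_lit 0)))) (.node (.col (nat_lit 0)) (.slot (nat_lit 3)) (.slot (nat_lit 2)))) (.node (.col (nat_lit 2)) (.node (.col (nat_lit 0)) (.col (nat_lit 2)) (.slot (nat_lit 4))) (.col (nat_lit 1))) (.col (nat_lit 1)) (.col (nat_lit 0))
def w23571 : Root := .mk (.node (.node (.col (nat_lit 1)) (.node (.col (nat_lit 1)) (.col (nat_lit 0)) (.node (.slot (nat_lit 0)) (.col (nat_lit 1)) (.slot (nat_lit 0)))) (.node (.col (nat_lit 0)) (.slot (nat_lit 3)) (.slot (nat_lit 2)))) (.col (nat_lit 1)) (.node (.slot (nat_lit 0)) (.slot (nat_lit 0)) (.slot (nat_lit 0)))) (.col (nat_lit 2)) (.node (.col (nat_lit 0)) (.col (nat_lit 2)) (.slot (nat_lit 4))) (.col (nat_lit 1))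
def l5294 : Root := .mk (.node (.node (.node (.col (nat_lit 1)) (.node (.col (nat_lit 1)) (.col (nat_lit 0)) (.node (.slot (nat_lit 0)) (.col (nat_lit 1)) (.slot (nat_lit 0)))) (.node (.col (nat_lit 0)) (.slot (nat_lit 5)) (.slot (nat_lit 5)))) (.col (nat_lit 0)) (.node (.slot (nat_lit 0)) (.slot (nat_lit 0)) (.slot (nat_lit 0)))) (.col (nat_lit 2)) (.col (nat_lit 1))) (.col (nat_lit 0)) (.col (nat_lit 2)) (.col (nat_lit 1))
def w23572 : Root := .mk (.node (.node (.node (.col (nat_lit 1)) (.node (.col (nat_lit 1)) (.col (nat_lit 0)) (.node (.slot (nat_lit 0)) (.col (nat_lit 1)) (.slot (nat_lit 0)))) (.node (.col (nat_lit 0)) (.slot (nat_lit 5)) (.slot (nat_lit 5)))) (.node (.slot (nat_lit 0)) (.slot (nat_lit 0)) (.slot (nat_lit 0))) (.node (.slot (nat_lit 0)) (.slot (nat_lit 0)) (.slot (nat_lit 0)))) (.col (nat_lit 2)) (.col (nat_lit 1))) (.col (nat_lit 0)) (.col (nat_lit 2)) (.col (nat_lit 1))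
def w23573 : Root := .mk (.node (.node (.node (.col (nat_lit 1)) (.node (.col (nat_lit 1)) (.col (nat_lit 0)) (.node (.slot (nat_lit 0)) (.col (nat_lit 1)) (.slot (nat_lit 0)))) (.node (.col (nat_lit 0)) (.slot (nat_lit 1)) (.slot (nat_lit 1)))) (.node (.slot (nat_lit 0)) (.slot (nat_lit 0)) (.slot (nat_lit 0))) (.node (.slot (nat_lit 0)) (.slot (nat_lit 0)) (.slot (nat_lit 0)))) (.col (nat_lit 2)) (.col (nat_lit 1))) (.col (nat_lit 0)) (.col (nat_lit 2)) (.node (.col (nat_lit 0)) (.slot (nat_lit 0)) (.slot (nat_lit 0)))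
def w23574 : Root := .mk (.node (.node (.node (.col (nat_lit 1)) (.node (.col (nat_lit 1)) (.col (nat_lit 0)) (.node (.slot (nat_lit 0)) (.col (nat_lit 1)) (.slot (nat_lit 0)))) (.node (.col (nat_lit 0)) (.slot (nat_lit 1)) (.slot (nat_lit 1)))) (.node (.slot (nat_lit 0)) (.slot (nat_lit 0)) (.slot (nat_lit 0))) (.node (.slot (nat_lit 0)) (.slot (nat_lit 0)) (.slot (nat_lit 0)))) (.col (nat_lit 2)) (.col (nat_lit 1))) (.col (nat_lit 0)) (.col (nat_lit 2)) (.node (.col (nat_lit 2)) (.slot (nat_lit 0)) (.slot (nat_lit 0)))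
def w23575 : Root := .mk (.node (.node (.node (.col (nat_lit 1)) (.node (.col (nat_lit 1)) (.col (nat_lit 0)) (.node (.slot (nat_lit 0)) (.col (nat_lit 1)) (.slot (nat_lit 0)))) (.node (.col (nat_lit 0)) (.slot (nat_lit 1)) (.slot (nat_lit 1)))) (.node (.slot (nat_lit 0)) (.slot (nat_lit 0)) (.slot (nat_lit 0))) (.node (.slot (nat_lit 0)) (.slot (nat_lit 0)) (.slot (nat_lit 0)))) (.col (nat_lit 2)) (.col (nat_lit 1))) (.col (nat_lit 0)) (.col (nat_lit 2)) (.node (.slot (nat_lit 0)) (.slot (nat_lit 0)) (.slot (nat_lit 0)))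
def w23576 : Root := .mk (.node (.node (.col (nat_lit 1)) (.slot (nat_lit 0)) (.slot (nat_lit 0))) (.node (.col (nat_lit 2)) (.slot (nat_lit 1)) (.slot (nat_lit 0))) (.node (.slot (nat_lit 0)) (.slot (nat_lit 0)) (.slot (nat_lit 0)))) (.col (nat_lit 2)) (.node (.col (nat_lit 0)) (.col (nat_lit 2)) (.slot (nat_lit 5))) (.col (nat_lit 1))
def w23577 : Root := .mk (.node (.node (.col (nat_lit 1)) (.node (.col (nat_lit 1)) (.col (nat_lit 0)) (.slot (nat_lit 0))) (.node (.col (nat_lit 0)) (.slot (nat_lit 2)) (.slot (nat_lit 2)))) (.node (.slot (nat_lit 0)) (.slot (nat_lit 1)) (.slot (nat_lit 1))) (.node (.slot (nat_lit 0)) (.col (nat_lit 0)) (.slot (nat_lit 1)))) (.col (nat_lit 2)) (.node (.col (nat_lit 0)) (.col (nat_lit 2)) (.slot (nat_lit 1))) (.col (nat_lit 1))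
def l5295 : Root := .mk (.node (.node (.col (nat_lit 1)) (.node (.col (nat_lit 1)) (.col (nat_lit 0)) (.node (.slot (nat_lit 0)) (.col (nat_lit 1)) (.slot (nat_lit 0)))) (.node (.col (nat_lit 0)) (.slot (nat_lit 5)) (.slot (nat_lit 5)))) (.node (.node (.col (nat_lit 3)) (.slot (nat_lit 7)) (.slot (nat_lit 5))) (.slot (nat_lit 1)) (.slot (nat_lit 8))) (.node (.slot (nat_lit 0)) (.slot (nat_lit 1)) (.slot (nat_lit 1)))) (.col (nat_lit 2)) (.node (.col (nat_lit 0)) (.col (nat_lit 2)) (.slot (nat_lit 8))) (.col (nat_lit 1))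
def w23578 : Root := .mk (.node (.col (nat_lit 1)) (.node (.node (.col (nat_lit 2)) (.node (.col (nat_lit 0)) (.col (nat_lit 2)) (.slot (nat_lit 8))) (.slot (nat_lit 1))) (.node (.node (.col (nat_lit 3)) (.slot (nat_lit 7)) (.slot (nat_lit 5))) (.slot (nat_lit 8)) (.slot (nat_lit 1))) (.node (.slot (nat_lit 0)) (.slot (nat_lit 1)) (.slot (nat_lit 1)))) (.node (.col (nat_lit 0)) (.slot (nat_lit 5)) (.slot (nat_lit 5)))) (.col (nat_lit 1)) (.col (nat_lit 0)) (.node (.slot (nat_lit 0)) (.col (nat_lit 1)) (.slot (nat_lit 0)))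
def l5296 : Root := .mk (.node (.col (nat_lit 1)) (.node (.node (.col (nat_lit 2)) (.node (.col (nat_lit 0)) (.col (nat_lit 2)) (.slot (nat_lit 8))) (.slot (nat_lit 8))) (.node (.node (.col (nat_lit 3)) (.slot (nat_lit 20)) (.slot (nat_lit 12))) (.slot (nat_lit 21)) (.slot (nat_lit 3))) (.node (.slot (nat_lit 0)) (.slot (nat_lit 20)) (.slot (nat_lit 9)))) (.node (.col (nat_lit 0)) (.slot (nat_lit 21)) (.slot (nat_lit 21)))) (.col (nat_lit 1)) (.col (nat_lit 0)) (.node (.slot (nat_lit 0)) (.slot (nat_lit 1)) (.slot (nat_lit 1)))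
def w23579 : Root := .mk (.node (.col (nat_lit 1)) (.node (.node (.col (nat_lit 2)) (.node (.col (nat_lit 0)) (.col (nat_lit 2)) (.slot (nat_lit 8))) (.slot (nat_lit 8))) (.node (.node (.col (nat_lit 3)) (.slot (nat_lit 20)) (.slot (nat_lit 12))) (.slot (nat_lit 21)) (.slot (nat_lit 3))) (.node (.slot (nat_lit 0)) (.slot (nat_lit 20)) (.slot (nat_lit 9)))) (.slot (nat_lit 22))) (.col (nat_lit 1)) (.col (nat_lit 0)) (.node (.slot (nat_lit 0)) (.slot (nat_lit 1)) (.slot (nat_lit 1)))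
def w23580 : Root := .mk (.col (nat_lit 1)) (.node (.col (nat_lit 1)) (.col (nat_lit 0)) (.slot (nat_lit 0))) (.node (.node (.col (nat_lit 2)) (.node (.col (nat_lit 0)) (.col (nat_lit 2)) (.slot (nat_lit 2))) (.slot (nat_lit 8))) (.node (.node (.col (nat_lit 3)) (.slot (nat_lit 1)) (.slot (nat_lit 1))) (.slot (nat_lit 3)) (.slot (nat_lit 1))) (.node (.slot (nat_lit 0)) (.slot (nat_lit 0)) (.slot (nat_lit 0)))) (.col (nat_lit 0))
def w23581 : Root := .mk (.node (.col (nat_lit 1)) (.node (.col (nat_lit 1)) (.col (nat_lit 0)) (.slot (nat_lit 3))) (.node (.col (nat_lit 1)) (.slot (nat_lit 0)) (.slot (nat_lit 0)))) (.col (nat_lit 1)) (.node (.node (.col (nat_lit 3)) (.slot (nat_lit 0)) (.slot (nat_lit 0))) (.slot (nat_lit 2)) (.slot (nat_lit 2))) (.col (nat_lit 0))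
def l5297 : Root := .mk (.col (nat_lit 1)) (.node (.col (nat_lit 1)) (.col (nat_lit 0)) (.slot (nat_lit 5))) (.node (.node (.col (nat_lit 2)) (.node (.col (nat_lit 0)) (.col (nat_lit 2)) (.slot (nat_lit 0))) (.col (nat_lit 0))) (.node (.slot (nat_lit 0)) (.slot (nat_lit 0)) (.slot (nat_lit 0))) (.col (nat_lit 0))) (.col (nat_lit 2))
def w23582 : Root := .mk (.node (.node (.col (nat_lit 1)) (.node (.col (nat_lit 1)) (.col (nat_lit 0)) (.slot (nat_lit 5))) (.node (.col (nat_lit 1)) (.slot (nat_lit 0)) (.slot (nat_lit 0)))) (.node (.slot (nat_lit 0)) (.slot (nat_lit 0)) (.slot (nat_lit 0))) (.col (nat_lit 0))) (.col (nat_lit 2)) (.node (.col (nat_lit 0)) (.col (nat_lit 2)) (.slot (nat_lit 0))) (.col (nat_lit 0))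
def w23583 : Root := .mk (.node (.node (.col (nat_lit 1)) (.node (.col (nat_lit 1)) (.col (nat_lit 0)) (.slot (nat_lit 1))) (.node (.col (nat_lit 1)) (.slot (nat_lit 0)) (.slot (nat_lit 0)))) (.node (.slot (nat_lit 0)) (.slot (nat_lit 0)) (.slot (nat_lit 0))) (.col (nat_lit 0))) (.col (nat_lit 2)) (.node (.col (nat_lit 0)) (.col (nat_lit 2)) (.slot (nat_lit 1))) (.node (.col (nat_lit 1)) (.slot (nat_lit 1)) (.slot (nat_lit 1)))
def w23584 : Root := .mk (.node (.col (nat_lit 1)) (.node (.col (nat_lit 1)) (.col (nat_lit 0)) (.slot (nat_lit 5))) (.node (.col (nat_lit 1)) (.slot (nat_lit 0)) (.slot (nat_lit 0)))) (.node (.col (nat_lit 2)) (.slot (nat_lit 0)) (.slot (nat_lit 1))) (.node (.col (nat_lit 0)) (.slot (nat_lit 0)) (.slot (nat_lit 0))) (.col (nat_lit 0))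
def l5298 : Root := .mk (.node (.col (nat_lit 1)) (.node (.col (nat_lit 1)) (.col (nat_lit 0)) (.slot (nat_lit 5))) (.node (.col (nat_lit 1)) (.slot (nat_lit 0)) (.slot (nat_lit 0)))) (.node (.col (nat_lit 2)) (.node (.col (nat_lit 0)) (.col (nat_lit 2)) (.slot (nat_lit 5))) (.slot (nat_lit 8))) (.node (.node (.col (nat_lit 3)) (.slot (nat_lit 3)) (.slot (nat_lit 3))) (.slot (nat_lit 5)) (.slot (nat_lit 5))) (.col (nat_lit 0))
def w23585 : Root := .mk (.col (nat_lit 1)) (.node (.col (nat_lit 1)) (.col (nat_lit 0)) (.slot (nat_lit 5))) (.node (.node (.col (nat_lit 2)) (.node (.col (nat_lit 0)) (.col (nat_lit 2)) (.slot (nat_lit 5))) (.slot (nat_lit 8))) (.node (.node (.col (nat_lit 3)) (.slot (nat_lit 3)) (.slot (nat_lit 3))) (.slot (nat_lit 5)) (.slot (nat_lit 5))) (.node (.slot (nat_lit 0)) (.slot (nat_lit 0)) (.slot (nat_lit 0)))) (.node (.col (nat_lit 1)) (.slot (nat_lit 0)) (.slot (nat_lit 0)))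
def w23586 : Root := .mk (.node (.node (.node (.col (nat_lit 1)) (.node (.col (nat_lit 1)) (.col (nat_lit 0)) (.slot (nat_lit 1))) (.node (.col (nat_lit 2)) (.slot (nat_lit 1)) (.slot (nat_lit 1)))) (.col (nat_lit 3)) (.node (.slot (nat_lit 0)) (.slot (nat_lit 0)) (.slot (nat_lit 0)))) (.col (nat_lit 2)) (.slot (nat_lit 1))) (.col (nat_lit 0)) (.col (nat_lit 2)) (.col (nat_lit 3))
def w23587 : Root := .mk (.node (.node (.node (.col (nat_lit 1)) (.node (.col (nat_lit 1)) (.col (nat_lit 0)) (.slot (nat_lit 1))) (.node (.col (nat_lit 2)) (.slot (nat_lit 1)) (.slot (nat_lit 1)))) (.col (nat_lit 3)) (.node (.slot (nat_lit 0)) (.slot (nat_lit 0)) (.slot (nat_lit 0)))) (.col (nat_lit 2)) (.slot (nat_lit 1))) (.col (nat_lit 0)) (.col (nat_lit 2)) (.col (nat_lit 4))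
def l5299 : Root := .mk (.node (.node (.node (.col (nat_lit 1)) (.node (.col (nat_lit 1)) (.col (nat_lit 0)) (.slot (nat_lit 1))) (.node (.col (nat_lit 2)) (.slot (nat_lit 1)) (.slot (nat_lit 1)))) (.col (nat_lit 3)) (.node (.slot (nat_lit 0)) (.slot (nat_lit 0)) (.slot (nat_lit 0)))) (.col (nat_lit 2)) (.slot (nat_lit 3))) (.col (nat_lit 0)) (.col (nat_lit 2)) (.node (.col (nat_lit 1)) (.slot (nat_lit 20)) (.slot (nat_lit 9)))
def w23588 : Root := .mk (.node (.col (nat_lit 1)) (.node (.col (nat_lit 1)) (.col (nat_lit 0)) (.slot (nat_lit 1))) (.node (.col (nat_lit 2)) (.slot (nat_lit 1)) (.slot (nat_lit 1)))) (.node (.col (nat_lit 2)) (.node (.col (nat_lit 0)) (.col (nat_lit 2)) (.slot (nat_lit 21))) (.slot (nat_lit 3))) (.col (nat_lit 3)) (.node (.slot (nat_lit 0)) (.slot (nat_lit 0)) (.slot (nat_lit 0)))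
def w23589 : Root := .mk (.node (.node (.col (nat_lit 1)) (.node (.col (nat_lit 1)) (.col (nat_lit 0)) (.slot (nat_lit 1))) (.node (.col (nat_lit 2)) (.slot (nat_lit 1)) (.slot (nat_lit 1)))) (.node (.col (nat_lit 2)) (.slot (nat_lit 0)) (.slot (nat_lit 1))) (.node (.slot (nat_lit 0)) (.slot (nat_lit 0)) (.slot (nat_lit 0)))) (.node (.col (nat_lit 3)) (.slot (nat_lit 0)) (.slot (nat_lit 0))) (.col (nat_lit 2)) (.col (nat_lit 3))
def w23590 : Root := .mk (.node (.node (.col (nat_lit 1)) (.node (.col (nat_lit 1)) (.col (nat_lit 0)) (.slot (nat_lit 1))) (.node (.col (nat_lit 2)) (.slot (nat_lit 1)) (.slot (nat_lit 1)))) (.node (.col (nat_lit 2)) (.slot (nat_lit 0)) (.slot (nat_lit 0))) (.node (.slot (nat_lit 0)) (.slot (nat_lit 0)) (.slot (nat_lit 0)))) (.node (.col (nat_lit 3)) (.slot (nat_lit 2)) (.slot (nat_lit 1))) (.col (nat_lit 2)) (.node (.slot (nat_lit 0)) (.slot (nat_lit 0)) (.slot (nat_lit 0)))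
def w23591 : Root := .mk (.node (.col (nat_lit 1)) (.node (.col (nat_lit 1)) (.col (nat_lit 0)) (.slot (nat_lit 0))) (.node (.col (nat_lit 2)) (.slot (nat_lit 0)) (.slot (nat_lit 0)))) (.col (nat_lit 0)) (.node (.node (.col (nat_lit 3)) (.slot (nat_lit 1)) (.slot (nat_lit 1))) (.col (nat_lit 2)) (.slot (nat_lit 3))) (.node (.slot (nat_lit 0)) (.slot (nat_lit 0)) (.slot (nat_lit 0)))
def w23592 : Root := .mk (.node (.col (nat_lit 1)) (.node (.col (nat_lit 1)) (.col (nat_lit 0)) (.slot (nat_lit 0))) (.node (.col (nat_lit 2)) (.slot (nat_lit 0)) (.slot (nat_lit 0)))) (.col (nat_lit 4)) (.node (.node (.col (nat_lit 3)) (.slot (nat_lit 1)) (.slot (nat_lit 1))) (.col (nat_lit 2)) (.slot (nat_lit 3))) (.node (.slot (nat_lit 0)) (.slot (nat_lit 0)) (.slot (nat_lit 0)))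
def w23593 : Root := .mk (.node (.node (.node (.col (nat_lit 1)) (.node (.col (nat_lit 1)) (.col (nat_lit 0)) (.slot (nat_lit 1))) (.node (.col (nat_lit 2)) (.slot (nat_lit 1)) (.slot (nat_lit 1)))) (.slot (nat_lit 0)) (.node (.slot (nat_lit 0)) (.slot (nat_lit 0)) (.slot (nat_lit 0)))) (.col (nat_lit 2)) (.slot (nat_lit 8))) (.col (nat_lit 3)) (.col (nat_lit 2)) (.slot (nat_lit 5))
def w23594 : Root := .mk (.col (nat_lit 1)) (.node (.col (nat_lit 1)) (.col (nat_lit 0)) (.slot (nat_lit 1))) (.node (.slot (nat_lit 0)) (.node (.node (.col (nat_lit 3)) (.slot (nat_lit 7)) (.slot (nat_lit 5))) (.col (nat_lit 2)) (.slot (nat_lit 8))) (.node (.col (nat_lit 0)) (.slot (nat_lit 0)) (.slot (nat_lit 0)))) (.node (.col (nat_lit 2)) (.slot (nat_lit 1)) (.slot (nat_lit 1)))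
def w23595 : Root := .mk (.col (nat_lit 1)) (.node (.col (nat_lit 1)) (.col (nat_lit 0)) (.slot (nat_lit 1))) (.node (.node (.col (nat_lit 2)) (.slot (nat_lit 0)) (.slot (nat_lit 0))) (.node (.node (.col (nat_lit 3)) (.slot (nat_lit 7)) (.slot (nat_lit 5))) (.col (nat_lit 2)) (.slot (nat_lit 8))) (.slot (nat_lit 0))) (.node (.col (nat_lit 2)) (.slot (nat_lit 1)) (.slot (nat_lit 1)))
def l5300 : Root := .mk (.col (nat_lit 1)) (.node (.col (nat_lit 1)) (.col (nat_lit 0)) (.slot (nat_lit 3))) (.node (.node (.col (nat_lit 2)) (.node (.col (nat_lit 0)) (.col (nat_lit 2)) (.slot (nat_lit 21))) (.slot (nat_lit 8))) (.node (.node (.col (nat_lit 3)) (.slot (nat_lit 12)) (.slot (nat_lit 20))) (.col (nat_lit 2)) (.slot (nat_lit 21))) (.node (.slot (nat_lit 0)) (.slot (nat_lit 4)) (.slot (nat_lit 4)))) (.node (.col (nat_lit 2)) (.slot (nat_lit 3)) (.slot (nat_lit 2)))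
def w23596 : Root := .mk (.col (nat_lit 1)) (.node (.col (nat_lit 1)) (.col (nat_lit 0)) (.slot (nat_lit 3))) (.node (.node (.col (nat_lit 2)) (.node (.col (nat_lit 0)) (.col (nat_lit 2)) (.slot (nat_lit 21))) (.slot (nat_lit 8))) (.node (.node (.col (nat_lit 3)) (.slot (nat_lit 20)) (.slot (nat_lit 12))) (.slot (nat_lit 1)) (.slot (nat_lit 21))) (.node (.slot (nat_lit 0)) (.slot (nat_lit 4)) (.slot (nat_lit 4)))) (.node (.col (nat_lit 2)) (.slot (nat_lit 3)) (.slot (nat_lit 2)))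
def w23598 : Root := .mk (.node (.col (nat_lit 1)) (.node (.col (nat_lit 1)) (.col (nat_lit 0)) (.slot (nat_lit 3))) (.node (.col (nat_lit 3)) (.slot (nat_lit 0)) (.slot (nat_lit 0)))) (.col (nat_lit 1)) (.node (.node (.col (nat_lit 3)) (.slot (nat_lit 0)) (.slot (nat_lit 0))) (.slot (nat_lit 2)) (.slot (nat_lit 2))) (.col (nat_lit 0))
def w23599 : Root := .mk (.node (.node (.col (nat_lit 1)) (.node (.col (nat_lit 1)) (.col (nat_lit 0)) (.slot (nat_lit 5))) (.node (.col (nat_lit 3)) (.slot (nat_lit 0)) (.slot (nat_lit 0)))) (.node (.slot (nat_lit 0)) (.slot (nat_lit 0)) (.slot (nat_lit 0))) (.col (nat_lit 0))) (.col (nat_lit 2)) (.node (.col (nat_lit 0)) (.col (nat_lit 2)) (.slot (nat_lit 0))) (.col (nat_lit 0))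
def w23600 : Root := .mk (.node (.node (.col (nat_lit 1)) (.node (.col (nat_lit 1)) (.col (nat_lit 0)) (.slot (nat_lit 0))) (.node (.col (nat_lit 3)) (.slot (nat_lit 1)) (.slot (nat_lit 0)))) (.node (.slot (nat_lit 0)) (.slot (nat_lit 0)) (.slot (nat_lit 0))) (.col (nat_lit 0))) (.col (nat_lit 2)) (.node (.col (nat_lit 0)) (.col (nat_lit 2)) (.slot (nat_lit 1))) (.node (.col (nat_lit 1)) (.slot (nat_lit 1)) (.slot (nat_lit 1)))
def w23601 : Root := .mk (.node (.node (.col (nat_lit 1)) (.slot (nat_lit 0)) (.node (.col (nat_lit 3)) (.slot (nat_lit 0)) (.slot (nat_lit 0)))) (.node (.slot (nat_lit 0)) (.slot (nat_lit 0)) (.slot (nat_lit 0))) (.col (nat_lit 0))) (.col (nat_lit 2)) (.node (.col (nat_lit 0)) (.col (nat_lit 2)) (.slot (nat_lit 5))) (.node (.col (nat_lit 3)) (.slot (nat_lit 0)) (.slot (nat_lit 0)))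
def w23602 : Root := .mk (.node (.node (.col (nat_lit 1)) (.slot (nat_lit 0)) (.node (.col (nat_lit 3)) (.slot (nat_lit 0)) (.slot (nat_lit 0)))) (.node (.slot (nat_lit 0)) (.slot (nat_lit 0)) (.slot (nat_lit 0))) (.col (nat_lit 0))) (.col (nat_lit 2)) (.node (.col (nat_lit 0)) (.col (nat_lit 2)) (.slot (nat_lit 5))) (.node (.col (nat_lit 4)) (.slot (nat_lit 0)) (.slot (nat_lit 0)))
def w23603 : Root := .mk (.node (.col (nat_lit 1)) (.node (.col (nat_lit 1)) (.col (nat_lit 0)) (.slot (nat_lit 5))) (.node (.col (nat_lit 3)) (.slot (nat_lit 0)) (.slot (nat_lit 0)))) (.node (.col (nat_lit 2)) (.slot (nat_lit 0)) (.slot (nat_lit 1))) (.node (.col (nat_lit 0)) (.slot (nat_lit 0)) (.slot (nat_lit 0))) (.col (nat_lit 0))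
def w23604 : Root := .mk (.node (.col (nat_lit 1)) (.node (.col (nat_lit 1)) (.col (nat_lit 0)) (.slot (nat_lit 5))) (.node (.col (nat_lit 3)) (.slot (nat_lit 0)) (.slot (nat_lit 0)))) (.node (.col (nat_lit 2)) (.node (.col (nat_lit 0)) .junk (.col (nat_lit 1))) (.slot (nat_lit 1))) (.slot (nat_lit 0)) (.col (nat_lit 0))
def w23605 : Root := .mk (.node (.node (.node (.col (nat_lit 1)) (.slot (nat_lit 0)) (.slot (nat_lit 0))) (.node (.node (.col (nat_lit 3)) (.slot (nat_lit 0)) (.slot (nat_lit 0))) (.slot (nat_lit 2)) (.slot (nat_lit 2))) (.col (nat_lit 0))) (.col (nat_lit 2)) (.slot (nat_lit 1))) (.col (nat_lit 0)) (.col (nat_lit 2)) (.col (nat_lit 3))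
def w23606 : Root := .mk (.node (.col (nat_lit 1)) (.node (.col (nat_lit 1)) (.col (nat_lit 0)) (.slot (nat_lit 5))) (.node (.col (nat_lit 3)) (.slot (nat_lit 0)) (.slot (nat_lit 0)))) (.node (.col (nat_lit 2)) (.node (.col (nat_lit 0)) .junk (.col (nat_lit 4))) (.slot (nat_lit 1))) (.slot (nat_lit 0)) (.col (nat_lit 0))
def w23607 : Root := .mk (.node (.col (nat_lit 1)) (.node (.col (nat_lit 1)) (.col (nat_lit 0)) (.slot (nat_lit 3))) (.node (.col (nat_lit 3)) (.slot (nat_lit 0)) (.slot (nat_lit 0)))) (.node (.col (nat_lit 2)) (.slot (nat_lit 0)) (.slot (nat_lit 1))) (.node (.slot (nat_lit 0)) (.slot (nat_lit 1)) (.slot (nat_lit 1))) (.col (nat_lit 0))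
def l5301 : Root := .mk (.node (.col (nat_lit 1)) (.node (.col (nat_lit 1)) (.col (nat_lit 0)) (.slot (nat_lit 5))) (.node (.col (nat_lit 3)) (.slot (nat_lit 1)) (.slot (nat_lit 1)))) (.node (.col (nat_lit 2)) (.node (.col (nat_lit 0)) (.col (nat_lit 2)) (.slot (nat_lit 5))) (.slot (nat_lit 8))) (.node (.node (.col (nat_lit 3)) (.slot (nat_lit 3)) (.slot (nat_lit 3))) (.slot (nat_lit 5)) (.slot (nat_lit 5))) (.col (nat_lit 0))
def w23608 : Root := .mk (.col (nat_lit 1)) (.node (.col (nat_lit 1)) (.col (nat_lit 0)) (.slot (nat_lit 5))) (.node (.node (.col (nat_lit 2)) (.node (.col (nat_lit 0)) (.col (nat_lit 2)) (.slot (nat_lit 5))) (.slot (nat_lit 8))) (.node (.node (.col (nat_lit 3)) (.slot (nat_lit 3)) (.slot (nat_lit 3))) (.slot (nat_lit 5)) (.slot (nat_lit 5))) (.node (.slot (nat_lit 0)) (.slot (nat_lit 0)) (.slot (nat_lit 0)))) (.node (.col (nat_lit 3)) (.slot (nat_lit 1)) (.slot (nat_lit 1)))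
def w23609 : Root := .mk (.node (.col (nat_lit 1)) (.node (.col (nat_lit 1)) (.col (nat_lit 0)) (.slot (nat_lit 3))) (.node (.col (nat_lit 4)) (.slot (nat_lit 0)) (.slot (nat_lit 0)))) (.col (nat_lit 1)) (.node (.node (.col (nat_lit 3)) (.slot (nat_lit 0)) (.slot (nat_lit 0))) (.slot (nat_lit 2)) (.slot (nat_lit 2))) (.col (nat_lit 0))
def l5302 : Root := .mk (.node (.col (nat_lit 1)) (.node (.col (nat_lit 1)) (.col (nat_lit 0)) (.slot (nat_lit 5))) (.node (.col (nat_lit 4)) (.slot (nat_lit 1)) (.slot (nat_lit 1)))) (.node (.col (nat_lit 2)) (.node (.col (nat_lit 0)) (.col (nat_lit 2)) (.slot (nat_lit 5))) (.slot (nat_lit 8))) (.node (.node (.col (nat_lit 3)) (.slot (nat_lit 3)) (.slot (nat_lit 3))) (.slot (nat_lit 5)) (.slot (nat_lit 5))) (.col (nat_lit 0))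
def w23610 : Root := .mk (.col (nat_lit 1)) (.node (.col (nat_lit 1)) (.col (nat_lit 0)) (.slot (nat_lit 5))) (.node (.node (.col (nat_lit 2)) (.node (.col (nat_lit 0)) (.col (nat_lit 2)) (.slot (nat_lit 5))) (.slot (nat_lit 8))) (.node (.node (.col (nat_lit 3)) (.slot (nat_lit 3)) (.slot (nat_lit 3))) (.slot (nat_lit 5)) (.slot (nat_lit 5))) (.node (.slot (nat_lit 0)) (.slot (nat_lit 0)) (.slot (nat_lit 0)))) (.node (.col (nat_lit 4)) (.slot (nat_lit 1)) (.slot (nat_lit 1)))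
def w23611 : Root := .mk (.node (.col (nat_lit 1)) (.node (.col (nat_lit 1)) (.col (nat_lit 0)) (.slot (nat_lit 3))) (.node (.slot (nat_lit 0)) (.slot (nat_lit 0)) (.slot (nat_lit 0)))) (.col (nat_lit 1)) (.node (.node (.col (nat_lit 3)) (.slot (nat_lit 0)) (.slot (nat_lit 0))) (.slot (nat_lit 2)) (.slot (nat_lit 2))) (.col (nat_lit 0))
def w23612 : Root := .mk (.node (.node (.col (nat_lit 1)) (.node (.col (nat_lit 1)) (.col (nat_lit 0)) (.slot (nat_lit 5))) (.node (.slot (nat_lit 0)) (.slot (nat_lit 0)) (.slot (nat_lit 0)))) (.node (.slot (nat_lit 0)) (.slot (nat_lit 0)) (.slot (nat_lit 0))) (.col (nat_lit 0))) (.col (nat_lit 2)) (.node (.col (nat_lit 0)) (.col (nat_lit 2)) (.slot (nat_lit 0))) (.col (nat_lit 0))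
def w23613 : Root := .mk (.node (.node (.col (nat_lit 1)) (.node (.col (nat_lit 1)) (.col (nat_lit 0)) (.slot (nat_lit 1))) (.node (.slot (nat_lit 0)) (.slot (nat_lit 0)) (.slot (nat_lit 0)))) (.node (.slot (nat_lit 0)) (.slot (nat_lit 0)) (.slot (nat_lit 0))) (.col (nat_lit 0))) (.col (nat_lit 2)) (.node (.col (nat_lit 0)) (.col (nat_lit 2)) (.slot (nat_lit 1))) (.node (.col (nat_lit 1)) (.slot (nat_lit 1)) (.slot (nat_lit 1)))
def l5303 : Root := .mk (.node (.col (nat_lit 1)) (.node (.col (nat_lit 1)) (.col (nat_lit 0)) (.slot (nat_lit 5))) (.node (.slot (nat_lit 0)) (.slot (nat_lit 0)) (.slot (nat_lit 0)))) (.node (.col (nat_lit 2)) (.node (.col (nat_lit 0)) (.col (nat_lit 2)) (.slot (nat_lit 5))) (.slot (nat_lit 8))) (.node (.node (.col (nat_lit 3)) (.slot (nat_lit 0)) (.slot (nat_lit 0))) (.slot (nat_lit 2)) (.slot (nat_lit 2))) (.col (nat_lit 0))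
def w23614 : Root := .mk (.col (nat_lit 1)) (.node (.col (nat_lit 1)) (.col (nat_lit 0)) (.slot (nat_lit 5))) (.node (.node (.col (nat_lit 2)) (.node (.col (nat_lit 0)) (.col (nat_lit 2)) (.slot (nat_lit 5))) (.slot (nat_lit 8))) (.node (.node (.col (nat_lit 3)) (.slot (nat_lit 0)) (.slot (nat_lit 0))) (.slot (nat_lit 2)) (.slot (nat_lit 2))) (.node (.slot (nat_lit 0)) (.slot (nat_lit 0)) (.slot (nat_lit 0)))) (.node (.slot (nat_lit 0)) (.slot (nat_lit 0)) (.slot (nat_lit 0)))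
def l5304 : Root := .mk (.node (.node (.node (.col (nat_lit 1)) (.col (nat_lit 2)) (.slot (nat_lit 5))) (.col (nat_lit 1)) (.col (nat_lit 0))) (.col (nat_lit 2)) (.slot (nat_lit 1))) (.col (nat_lit 0)) (.col (nat_lit 2)) (.col (nat_lit 4))
def w23615 : Root := .mk (.node (.node (.node (.col (nat_lit 1)) (.col (nat_lit 2)) (.slot (nat_lit 5))) (.col (nat_lit 1)) (.node (.slot (nat_lit 0)) (.slot (nat_lit 0)) (.slot (nat_lit 0)))) (.col (nat_lit 2)) (.slot (nat_lit 1))) (.col (nat_lit 0)) (.col (nat_lit 2)) (.col (nat_lit 4))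
def l5305 : Root := .mk (.node (.node (.node (.col (nat_lit 1)) (.node (.col (nat_lit 1)) (.col (nat_lit 0)) (.node (.col (nat_lit 2)) (.slot (nat_lit 20)) (.slot (nat_lit 9)))) (.slot (nat_lit 5))) (.col (nat_lit 1)) (.node (.slot (nat_lit 0)) (.slot (nat_lit 0)) (.slot (nat_lit 0)))) (.col (nat_lit 2)) (.slot (nat_lit 1))) (.col (nat_lit 0)) (.col (nat_lit 2)) (.col (nat_lit 4))
def w23616 : Root := .mk (.node (.node (.node (.col (nat_lit 1)) (.node (.col (nat_lit 1)) (.col (nat_lit 0)) (.slot (nat_lit 21))) (.slot (nat_lit 5))) (.col (nat_lit 1)) (.node (.slot (nat_lit 0)) (.slot (nat_lit 0)) (.slot (nat_lit 0)))) (.col (nat_lit 2)) (.slot (nat_lit 1))) (.col (nat_lit 0)) (.col (nat_lit 2)) (.col (nat_lit 4))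
def l5306 : Root := .mk (.node (.node (.node (.col (nat_lit 1)) (.node (.col (nat_lit 1)) (.col (nat_lit 0)) (.slot (nat_lit 21))) (.slot (nat_lit 8))) (.col (nat_lit 1)) (.node (.slot (nat_lit 0)) (.slot (nat_lit 1)) (.slot (nat_lit 1)))) (.col (nat_lit 2)) (.slot (nat_lit 3))) (.col (nat_lit 0)) (.col (nat_lit 2)) (.node (.col (nat_lit 3)) (.slot (nat_lit 20)) (.slot (nat_lit 9)))
def w23617 : Root := .mk (.node (.col (nat_lit 1)) (.node (.col (nat_lit 1)) (.col (nat_lit 0)) (.slot (nat_lit 21))) (.slot (nat_lit 8))) (.node (.col (nat_lit 2)) (.node (.col (nat_lit 0)) (.col (nat_lit 2)) (.slot (nat_lit 21))) (.slot (nat_lit 3))) (.col (nat_lit 1)) (.node (.slot (nat_lit 0)) (.slot (nat_lit 1)) (.slot (nat_lit 1)))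
def l5307 : Root := .mk (.node (.col (nat_lit 1)) (.node (.node (.col (nat_lit 2)) (.node (.col (nat_lit 0)) (.col (nat_lit 2)) (.slot (nat_lit 2))) (.slot (nat_lit 8))) (.col (nat_lit 3)) (.node (.slot (nat_lit 0)) (.slot (nat_lit 0)) (.slot (nat_lit 0)))) (.slot (nat_lit 3))) (.col (nat_lit 1)) (.col (nat_lit 0)) (.node (.col (nat_lit 2)) (.slot (nat_lit 20)) (.slot (nat_lit 9)))
def w23618 : Root := .mk (.node (.col (nat_lit 1)) (.node (.col (nat_lit 1)) (.col (nat_lit 0)) (.slot (nat_lit 21))) (.slot (nat_lit 3))) (.node (.col (nat_lit 2)) (.node (.col (nat_lit 0)) (.col (nat_lit 2)) (.slot (nat_lit 2))) (.slot (nat_lit 8))) (.col (nat_lit 3)) (.node (.slot (nat_lit 0)) (.slot (nat_lit 0)) (.slot (nat_lit 0)))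
def w23619 : Root := .mk (.node (.node (.node (.col (nat_lit 1)) (.node (.col (nat_lit 1)) (.col (nat_lit 0)) (.slot (nat_lit 0))) (.col (nat_lit 0))) (.node (.col (nat_lit 0)) (.slot (nat_lit 0)) (.slot (nat_lit 0))) (.col (nat_lit 0))) (.col (nat_lit 2)) (.col (nat_lit 1))) (.col (nat_lit 0)) (.col (nat_lit 2)) (.col (nat_lit 1))
def l5308 : Root := .mk (.node (.node (.col (nat_lit 1)) (.node (.col (nat_lit 1)) (.col (nat_lit 0)) (.slot (nat_lit 0))) (.col (nat_lit 0))) (.node (.col (nat_lit 0)) (.slot (nat_lit 1)) (.slot (nat_lit 1))) (.col (nat_lit 0))) (.col (nat_lit 2)) (.node (.col (nat_lit 0)) (.col (nat_lit 2)) (.slot (nat_lit 5))) (.col (nat_lit 1))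
def w23620 : Root := .mk (.col (nat_lit 1)) (.node (.col (nat_lit 1)) (.col (nat_lit 0)) (.slot (nat_lit 0))) (.node (.node (.col (nat_lit 2)) (.node (.col (nat_lit 0)) (.col (nat_lit 2)) (.slot (nat_lit 5))) (.slot (nat_lit 1))) (.node (.col (nat_lit 0)) (.slot (nat_lit 1)) (.slot (nat_lit 1))) (.col (nat_lit 0))) (.col (nat_lit 0))
def w23621 : Root := .mk (.col (nat_lit 1)) (.node (.col (nat_lit 1)) (.col (nat_lit 0)) (.slot (nat_lit 1))) (.node (.node (.col (nat_lit 2)) (.node (.col (nat_lit 0)) (.col (nat_lit 2)) (.slot (nat_lit 1))) (.slot (nat_lit 1))) (.node (.col (nat_lit 0)) (.slot (nat_lit 0)) (.slot (nat_lit 0))) (.col (nat_lit 0))) (.node (.col (nat_lit 2)) (.slot (nat_lit 1)) (.slot (nat_lit 1)))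
def l5309 : Root := .mk (.node (.col (nat_lit 1)) (.node (.col (nat_lit 1)) (.col (nat_lit 0)) (.slot (nat_lit 5))) (.slot (nat_lit 8))) (.node (.col (nat_lit 2)) (.node (.col (nat_lit 0)) (.col (nat_lit 2)) (.slot (nat_lit 5))) (.slot (nat_lit 8))) (.node (.col (nat_lit 0)) (.slot (nat_lit 2)) (.slot (nat_lit 1))) (.col (nat_lit 0))
def w23622 : Root := .mk (.node (.col (nat_lit 1)) (.node (.node (.col (nat_lit 2)) (.node (.col (nat_lit 0)) (.col (nat_lit 2)) (.slot (nat_lit 5))) (.slot (nat_lit 8))) (.node (.col (nat_lit 0)) (.slot (nat_lit 2)) (.slot (nat_lit 1))) (.node (.slot (nat_lit 0)) (.slot (nat_lit 0)) (.slot (nat_lit 0)))) (.slot (nat_lit 8))) (.col (nat_lit 1)) (.col (nat_lit 0)) (.slot (nat_lit 5))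
def w23623 : Root := .mk (.node (.col (nat_lit 1)) (.node (.node (.col (nat_lit 2)) (.node (.col (nat_lit 0)) (.col (nat_lit 2)) (.slot (nat_lit 5))) (.slot (nat_lit 8))) (.node (.col (nat_lit 1)) (.slot (nat_lit 0)) (.slot (nat_lit 0))) (.node (.slot (nat_lit 0)) (.slot (nat_lit 1)) (.slot (nat_lit 1)))) (.slot (nat_lit 8))) (.col (nat_lit 1)) (.col (nat_lit 0)) (.slot (nat_lit 5))
def w23624 : Root := .mk (.node (.col (nat_lit 1)) (.node (.node (.col (nat_lit 2)) (.node (.col (nat_lit 0)) (.col (nat_lit 2)) (.slot (nat_lit 5))) (.slot (nat_lit 8))) (.node (.col (nat_lit 4)) (.slot (nat_lit 0)) (.slot (nat_lit 0))) (.node (.slot (nat_lit 0)) (.slot (nat_lit 1)) (.slot (nat_lit 1)))) (.slot (nat_lit 8))) (.col (nat_lit 1)) (.col (nat_lit 0)) (.slot (nat_lit 5))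
def l5310 : Root := .mk (.col (nat_lit 1)) (.node (.col (nat_lit 1)) (.col (nat_lit 0)) (.slot (nat_lit 5))) (.node (.node (.col (nat_lit 2)) (.node (.col (nat_lit 0)) (.col (nat_lit 2)) (.slot (nat_lit 5))) (.slot (nat_lit 8))) (.node (.node (.col (nat_lit 3)) (.slot (nat_lit 20)) (.slot (nat_lit 9))) (.col (nat_lit 0)) (.slot (nat_lit 21))) (.node (.slot (nat_lit 0)) (.slot (nat_lit 0)) (.slot (nat_lit 0)))) (.col (nat_lit 2))
def w23626 : Root := .mk (.node (.col (nat_lit 1)) (.node (.node (.col (nat_lit 2)) (.node (.col (nat_lit 0)) (.col (nat_lit 2)) (.slot (nat_lit 5))) (.slot (nat_lit 8))) (.node (.node (.col (nat_lit 3)) (.slot (nat_lit 20)) (.slot (nat_lit 9))) (.col (nat_lit 0)) (.slot (nat_lit 21))) (.node (.slot (nat_lit 0)) (.slot (nat_lit 0)) (.slot (nat_lit 0)))) (.slot (nat_lit 1))) (.col (nat_lit 1)) (.col (nat_lit 0)) (.slot (nat_lit 5))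
def l5311 : Root := .mk (.node (.node (.col (nat_lit 2)) (.col (nat_lit 0)) (.node (.slot (nat_lit 0)) (.col (nat_lit 0)) (.slot (nat_lit 0)))) (.col (nat_lit 2)) (.node (.col (nat_lit 0)) (.slot (nat_lit 4)) (.slot (nat_lit 4)))) (.col (nat_lit 0)) (.col (nat_lit 2)) (.node (.col (nat_lit 0)) (.col (nat_lit 1)) (.slot (nat_lit 1)))
def w23627 : Root := .mk (.node (.node (.col (nat_lit 2)) (.col (nat_lit 0)) (.node (.slot (nat_lit 0)) (.col (nat_lit 0)) (.slot (nat_lit 0)))) (.col (nat_lit 2)) (.node (.col (nat_lit 0)) (.slot (nat_lit 4)) (.slot (nat_lit 4)))) (.col (nat_lit 0)) (.col (nat_lit 2)) (.node (.col (nat_lit 0)) (.slot (nat_lit 1)) (.slot (nat_lit 1)))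
def l5316 : Root := .mk (.node (.node (.col (nat_lit 2)) (.col (nat_lit 0)) (.node (.slot (nat_lit 0)) (.col (nat_lit 0)) (.slot (nat_lit 0)))) (.col (nat_lit 2)) (.node (.col (nat_lit 0)) (.node (.slot (nat_lit 0)) (.slot (nat_lit 0)) (.slot (nat_lit 0))) (.slot (nat_lit 3)))) (.col (nat_lit 0)) (.col (nat_lit 2)) (.node (.col (nat_lit 1)) (.slot (nat_lit 20)) (.slot (nat_lit 9)))
def w23638 : Root := .mk (.col (nat_lit 2)) (.node (.col (nat_lit 2)) (.node (.col (nat_lit 0)) (.col (nat_lit 2)) (.slot (nat_lit 21))) (.node (.col (nat_lit 0)) (.node (.slot (nat_lit 0)) (.slot (nat_lit 0)) (.slot (nat_lit 0))) (.slot (nat_lit 3)))) (.col (nat_lit 0)) (.node (.slot (nat_lit 0)) (.col (nat_lit 0)) (.slot (nat_lit 0)))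
def l5317 : Root := .mk (.col (nat_lit 2)) (.node (.col (nat_lit 2)) (.node (.col (nat_lit 0)) (.col (nat_lit 2)) (.slot (nat_lit 21))) (.node (.col (nat_lit 0)) (.slot (nat_lit 7)) (.slot (nat_lit 5)))) (.col (nat_lit 0)) (.node (.slot (nat_lit 0)) (.col (nat_lit 0)) (.slot (nat_lit 0)))
def w23639 : Root := .mk (.col (nat_lit 2)) (.node (.col (nat_lit 2)) (.node (.col (nat_lit 0)) (.col (nat_lit 2)) (.slot (nat_lit 21))) (.slot (nat_lit 8))) (.col (nat_lit 0)) (.node (.slot (nat_lit 0)) (.col (nat_lit 0)) (.slot (nat_lit 0)))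
def l5318 : Root := .mk (.node (.node (.col (nat_lit 1)) (.node (.col (nat_lit 1)) (.col (nat_lit 0)) (.slot (nat_lit 0))) (.col (nat_lit 0))) (.col (nat_lit 0)) (.node (.slot (nat_lit 0)) (.col (nat_lit 0)) (.slot (nat_lit 0)))) (.col (nat_lit 2)) (.node (.col (nat_lit 0)) (.col (nat_lit 2)) (.slot (nat_lit 5))) (.col (nat_lit 1))
def w23640 : Root := .mk (.col (nat_lit 1)) (.node (.col (nat_lit 1)) (.col (nat_lit 0)) (.slot (nat_lit 0))) (.node (.node (.col (nat_lit 2)) (.node (.col (nat_lit 0)) (.col (nat_lit 2)) (.slot (nat_lit 5))) (.slot (nat_lit 1))) (.col (nat_lit 0)) (.node (.slot (nat_lit 0)) (.col (nat_lit 0)) (.slot (nat_lit 0)))) (.col (nat_lit 0))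
def l5319 : Root := .mk (.node (.node (.col (nat_lit 1)) (.slot (nat_lit 0)) (.slot (nat_lit 1))) (.col (nat_lit 0)) (.node (.slot (nat_lit 0)) (.col (nat_lit 0)) (.col (nat_lit 1)))) (.col (nat_lit 2)) (.node (.col (nat_lit 0)) (.col (nat_lit 2)) (.slot (nat_lit 5))) (.col (nat_lit 1))
def w23641 : Root := .mk (.node (.node (.col (nat_lit 1)) (.slot (nat_lit 0)) (.slot (nat_lit 1))) (.node (.col (nat_lit 2)) (.node (.col (nat_lit 0)) (.col (nat_lit 2)) (.slot (nat_lit 5))) (.slot (nat_lit 1))) (.col (nat_lit 0))) (.slot (nat_lit 0)) (.col (nat_lit 0)) (.col (nat_lit 1))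
def l5320 : Root := .mk (.node (.col (nat_lit 1)) (.node (.col (nat_lit 1)) (.col (nat_lit 0)) (.slot (nat_lit 21))) (.slot (nat_lit 8))) (.node (.col (nat_lit 2)) (.node (.col (nat_lit 0)) (.col (nat_lit 2)) (.slot (nat_lit 21))) (.slot (nat_lit 8))) (.col (nat_lit 0)) (.node (.slot (nat_lit 0)) (.col (nat_lit 0)) (.slot (nat_lit 1)))
def w23642 : Root := .mk (.node (.col (nat_lit 1)) (.node (.node (.col (nat_lit 2)) (.node (.col (nat_lit 0)) (.col (nat_lit 2)) (.slot (nat_lit 21))) (.slot (nat_lit 8))) (.node (.slot (nat_lit 0)) (.slot (nat_lit 0)) (.slot (nat_lit 0))) (.node (.slot (nat_lit 0)) (.col (nat_lit 0)) (.slot (nat_lit 1)))) (.slot (nat_lit 8))) (.col (nat_lit 1)) (.col (nat_lit 0)) (.slot (nat_lit 21))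
def l5321 : Root := .mk (.node (.col (nat_lit 1)) (.node (.node (.col (nat_lit 2)) (.node (.col (nat_lit 0)) (.col (nat_lit 2)) (.slot (nat_lit 21))) (.slot (nat_lit 22))) (.node (.node (.col (nat_lit 3)) (.slot (nat_lit 20)) (.slot (nat_lit 12))) (.slot (nat_lit 21)) (.slot (nat_lit 21))) (.node (.slot (nat_lit 0)) (.slot (nat_lit 20)) (.slot (nat_lit 9)))) (.slot (nat_lit 22))) (.col (nat_lit 1)) (.col (nat_lit 0)) (.slot (nat_lit 21))
def w23643 : Root := .mk (.node (.node (.node (.col (nat_lit 1)) (.node (.col (nat_lit 1)) (.slot (nat_lit 1)) (.slot (nat_lit 21))) (.slot (nat_lit 22))) (.node (.node (.col (nat_lit 3)) (.slot (nat_lit 20)) (.slot (nat_lit 12))) (.slot (nat_lit 21)) (.slot (nat_lit 21))) (.node (.slot (nat_lit 0)) (.slot (nat_lit 20)) (.slot (nat_lit 9)))) (.col (nat_lit 2)) (.slot (nat_lit 22))) (.col (nat_lit 0)) (.col (nat_lit 2)) (.slot (nat_lit 21))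
def w23645 : Root := .mk (.col (nat_lit 1)) (.slot (nat_lit 0)) (.node (.node (.col (nat_lit 2)) (.node (.col (nat_lit 0)) (.col (nat_lit 2)) (.slot (nat_lit 5))) (.node (.col (nat_lit 0)) (.slot (nat_lit 0)) (.slot (nat_lit 0)))) (.col (nat_lit 0)) (.slot (nat_lit 1))) (.col (nat_lit 3))
def w23648 : Root := .mk (.node (.col (nat_lit 4)) (.node .junk (.col (nat_lit 1)) (.col (nat_lit 0))) (.slot (nat_lit 1))) (.col (nat_lit 2)) (.node (.col (nat_lit 0)) (.col (nat_lit 2)) (.slot (nat_lit 2))) (.node (.col (nat_lit 0)) (.slot (nat_lit 0)) (.slot (nat_lit 1)))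
def l5322 : Root := .mk (.node (.col (nat_lit 4)) (.node (.col (nat_lit 2)) (.node (.col (nat_lit 0)) (.col (nat_lit 2)) (.slot (nat_lit 2))) (.node (.col (nat_lit 0)) (.slot (nat_lit 0)) (.slot (nat_lit 1)))) (.slot (nat_lit 1))) (.col (nat_lit 4)) (.col (nat_lit 1)) (.node (.col (nat_lit 3)) (.slot (nat_lit 20)) (.slot (nat_lit 9)))
def w23649 : Root := .mk (.node (.col (nat_lit 4)) (.node (.col (nat_lit 2)) (.node (.col (nat_lit 0)) (.col (nat_lit 2)) (.slot (nat_lit 2))) (.node (.col (nat_lit 0)) (.slot (nat_lit 0)) (.slot (nat_lit 1)))) (.slot (nat_lit 1))) (.col (nat_lit 4)) (.col (nat_lit 1)) (.slot (nat_lit 21))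
def l5323 : Root := .mk (.node (.col (nat_lit 4)) (.node (.col (nat_lit 2)) (.node (.col (nat_lit 0)) (.col (nat_lit 2)) (.slot (nat_lit 0))) (.node (.col (nat_lit 0)) (.slot (nat_lit 0)) (.slot (nat_lit 1)))) (.slot (nat_lit 1))) (.col (nat_lit 2)) (.col (nat_lit 1)) (.col (nat_lit 3))
def w23650 : Root := .mk (.node (.col (nat_lit 4)) (.node (.col (nat_lit 2)) (.node (.col (nat_lit 0)) (.col (nat_lit 2)) (.slot (nat_lit 0))) (.node (.col (nat_lit 0)) (.slot (nat_lit 0)) (.slot (nat_lit 1)))) (.slot (nat_lit 1))) (.node (.col (nat_lit 3)) (.slot (nat_lit 0)) (.slot (nat_lit 0))) (.col (nat_lit 1)) (.col (nat_lit 3))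
def w23652 : Root := .mk (.col (nat_lit 4)) (.node (.col (nat_lit 2)) (.node (.col (nat_lit 0)) (.col (nat_lit 2)) (.slot (nat_lit 2))) (.node (.col (nat_lit 0)) (.slot (nat_lit 0)) (.slot (nat_lit 1)))) (.node (.node (.col (nat_lit 3)) (.slot (nat_lit 1)) (.slot (nat_lit 0))) (.col (nat_lit 1)) (.slot (nat_lit 1))) (.node (.col (nat_lit 4)) (.slot (nat_lit 0)) (.slot (nat_lit 0)))
def w23653 : Root := .mk (.node (.node (.col (nat_lit 4)) (.node (.col (nat_lit 2)) (.node (.col (nat_lit 0)) (.col (nat_lit 2)) (.slot (nat_lit 2))) (.node (.col (nat_lit 0)) (.slot (nat_lit 0)) (.slot (nat_lit 1)))) (.slot (nat_lit 1))) (.col (nat_lit 1)) (.slot (nat_lit 1))) (.col (nat_lit 3)) (.col (nat_lit 1)) (.slot (nat_lit 1))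
def w23654 : Root := .mk (.node (.col (nat_lit 4)) (.node (.node (.col (nat_lit 3)) (.slot (nat_lit 0)) (.slot (nat_lit 1))) (.col (nat_lit 1)) (.slot (nat_lit 1))) (.slot (nat_lit 1))) (.col (nat_lit 2)) (.node (.col (nat_lit 0)) (.col (nat_lit 2)) (.slot (nat_lit 2))) (.node (.col (nat_lit 0)) (.slot (nat_lit 0)) (.slot (nat_lit 1)))
def l5324 : Root := .mk (.node (.col (nat_lit 4)) (.node (.node (.col (nat_lit 3)) (.slot (nat_lit 20)) (.slot (nat_lit 12))) (.col (nat_lit 1)) (.slot (nat_lit 21))) (.slot (nat_lit 21))) (.col (nat_lit 2)) (.node (.col (nat_lit 0)) (.col (nat_lit 2)) (.slot (nat_lit 2))) (.node (.col (nat_lit 0)) (.slot (nat_lit 0)) (.slot (nat_lit 1)))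
def w23655 : Root := .mk (.node (.col (nat_lit 4)) (.node (.node (.col (nat_lit 3)) (.slot (nat_lit 20)) (.slot (nat_lit 12))) (.slot (nat_lit 1)) (.slot (nat_lit 21))) (.slot (nat_lit 21))) (.col (nat_lit 2)) (.node (.col (nat_lit 0)) (.col (nat_lit 2)) (.slot (nat_lit 2))) (.node (.col (nat_lit 0)) (.slot (nat_lit 0)) (.slot (nat_lit 1)))
def w23656 : Root := .mk (.col (nat_lit 1)) (.col (nat_lit 2)) (.node (.node (.col (nat_lit 2)) (.slot (nat_lit 0)) (.slot (nat_lit 0))) (.node (.node (.col (nat_lit 3)) (.slot (nat_lit 0)) (.slot (nat_lit 0))) (.slot (nat_lit 1)) (.slot (nat_lit 1))) (.node (.col (nat_lit 1)) (.slot (nat_lit 1)) (.slot (nat_lit 1)))) (.col (nat_lit 3))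
def w23657 : Root := .mk (.col (nat_lit 1)) (.col (nat_lit 2)) (.node (.node (.col (nat_lit 2)) (.slot (nat_lit 0)) (.slot (nat_lit 0))) (.node (.node (.col (nat_lit 3)) (.slot (nat_lit 0)) (.slot (nat_lit 0))) (.slot (nat_lit 1)) (.slot (nat_lit 1))) (.node (.col (nat_lit 2)) (.slot (nat_lit 1)) (.slot (nat_lit 1)))) (.col (nat_lit 3))
def w23658 : Root := .mk (.col (nat_lit 1)) (.col (nat_lit 2)) (.node (.node (.col (nat_lit 2)) (.slot (nat_lit 0)) (.slot (nat_lit 0))) (.node (.node (.col (nat_lit 3)) (.slot (nat_lit 0)) (.slot (nat_lit 0))) (.slot (nat_lit 2)) (.slot (nat_lit 1))) (.node (.col (nat_lit 3)) (.slot (nat_lit 1)) (.slot (nat_lit 1)))) (.col (nat_lit 3))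
def w23659 : Root := .mk (.col (nat_lit 1)) (.col (nat_lit 2)) (.node (.node (.col (nat_lit 2)) (.node (.col (nat_lit 0)) (.col (nat_lit 2)) (.slot (nat_lit 1))) (.node (.col (nat_lit 0)) (.slot (nat_lit 0)) (.slot (nat_lit 0)))) (.node (.slot (nat_lit 0)) (.slot (nat_lit 0)) (.slot (nat_lit 0))) (.node (.col (nat_lit 4)) (.slot (nat_lit 0)) (.slot (nat_lit 0)))) (.col (nat_lit 3))
def w23661 : Root := .mk (.col (nat_lit 1)) (.col (nat_lit 2)) (.node (.node (.col (nat_lit 2)) (.node (.col (nat_lit 0)) (.col (nat_lit 2)) (.slot (nat_lit 1))) (.node (.col (nat_lit 0)) (.slot (nat_lit 0)) (.col (nat_lit 1)))) (.node (.slot (nat_lit 0)) (.slot (nat_lit 0)) (.slot (nat_lit 0))) (.slot (nat_lit 1))) (.col (nat_lit 3))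
def w23662 : Root := .mk (.col (nat_lit 1)) (.col (nat_lit 2)) (.node (.node (.col (nat_lit 2)) (.node (.col (nat_lit 0)) (.col (nat_lit 2)) (.slot (nat_lit 1))) (.node (.col (nat_lit 0)) (.slot (nat_lit 0)) (.slot (nat_lit 0)))) (.node (.slot (nat_lit 0)) (.slot (nat_lit 0)) (.slot (nat_lit 0))) (.slot (nat_lit 1))) (.col (nat_lit 3))
def l5325 : Root := .mk (.col (nat_lit 1)) (.col (nat_lit 2)) (.node (.node (.col (nat_lit 2)) (.node (.col (nat_lit 0)) (.col (nat_lit 2)) (.slot (nat_lit 5))) (.node (.col (nat_lit 0)) (.slot (nat_lit 0)) (.slot (nat_lit 1)))) (.node (.node (.col (nat_lit 3)) (.slot (nat_lit 20)) (.slot (nat_lit 12))) (.slot (nat_lit 21)) (.slot (nat_lit 2))) (.slot (nat_lit 21))) (.col (nat_lit 3))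
def w23663 : Root := .mk (.col (nat_lit 1)) (.node (.col (nat_lit 1)) (.slot (nat_lit 0)) (.slot (nat_lit 0))) (.node (.node (.col (nat_lit 2)) (.node (.col (nat_lit 0)) (.col (nat_lit 2)) (.slot (nat_lit 5))) (.node (.col (nat_lit 0)) (.slot (nat_lit 0)) (.slot (nat_lit 1)))) (.node (.node (.col (nat_lit 3)) (.slot (nat_lit 20)) (.slot (nat_lit 12))) (.slot (nat_lit 21)) (.slot (nat_lit 2))) (.slot (nat_lit 21))) (.col (nat_lit 3))
def l5326 : Root := .mk (.col (nat_lit 1)) (.node (.col (nat_lit 1)) (.slot (nat_lit 5)) (.slot (nat_lit 1))) (.node (.node (.col (nat_lit 2)) (.node (.col (nat_lit 0)) (.col (nat_lit 2)) (.slot (nat_lit 10))) (.node (.col (nat_lit 0)) (.slot (nat_lit 7)) (.slot (nat_lit 5)))) (.node (.node (.col (nat_lit 3)) (.slot (nat_lit 20)) (.slot (nat_lit 12))) (.slot (nat_lit 21)) (.slot (nat_lit 2))) (.slot (nat_lit 21))) (.col (nat_lit 3))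
def w23664 : Root := .mk (.col (nat_lit 1)) (.node (.col (nat_lit 1)) (.slot (nat_lit 5)) (.slot (nat_lit 1))) (.node (.node (.col (nat_lit 2)) (.node (.col (nat_lit 0)) (.col (nat_lit 2)) (.slot (nat_lit 10))) (.slot (nat_lit 8))) (.node (.node (.col (nat_lit 3)) (.slot (nat_lit 20)) (.slot (nat_lit 12))) (.slot (nat_lit 21)) (.slot (nat_lit 2))) (.slot (nat_lit 21))) (.col (nat_lit 3))
def w23665 : Root := .mk (.col (nat_lit 1)) (.col (nat_lit 4)) (.node (.node (.col (nat_lit 2)) (.node (.col (nat_lit 0)) (.col (nat_lit 2)) (.slot (nat_lit 3))) (.slot (nat_lit 1))) (.node (.slot (nat_lit 0)) (.slot (nat_lit 0)) (.slot (nat_lit 0))) (.slot (nat_lit 3))) (.col (nat_lit 3))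
def w23666 : Root := .mk (.node (.node (.node (.col (nat_lit 1)) (.col (nat_lit 4)) (.slot (nat_lit 0))) (.node (.node (.col (nat_lit 3)) (.slot (nat_lit 0)) (.slot (nat_lit 0))) (.slot (nat_lit 5)) (.slot (nat_lit 5))) (.col (nat_lit 1))) (.col (nat_lit 2)) (.slot (nat_lit 1))) (.col (nat_lit 0)) (.col (nat_lit 2)) (.col (nat_lit 1))
def w23667 : Root := .mk (.col (nat_lit 1)) (.col (nat_lit 4)) (.node (.node (.col (nat_lit 2)) (.node (.col (nat_lit 0)) .junk (.col (nat_lit 4))) (.slot (nat_lit 1))) (.node (.node (.col (nat_lit 3)) (.slot (nat_lit 1)) (.slot (nat_lit 0))) (.slot (nat_lit 2)) (.slot (nat_lit 2))) (.col (nat_lit 1))) (.node (.col (nat_lit 1)) (.slot (nat_lit 3)) (.slot (nat_lit 1)))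
def l5327 : Root := .mk (.node (.node (.node (.col (nat_lit 1)) (.col (nat_lit 4)) (.node (.col (nat_lit 1)) (.slot (nat_lit 3)) (.slot (nat_lit 1)))) (.node (.node (.col (nat_lit 3)) (.slot (nat_lit 1)) (.slot (nat_lit 0))) (.slot (nat_lit 5)) (.slot (nat_lit 5))) (.col (nat_lit 1))) (.col (nat_lit 2)) (.slot (nat_lit 2))) (.col (nat_lit 0)) (.col (nat_lit 2)) (.node (.col (nat_lit 3)) (.slot (nat_lit 20)) (.slot (nat_lit 9)))
def w23668 : Root := .mk (.col (nat_lit 1)) (.col (nat_lit 4)) (.node (.node (.col (nat_lit 2)) (.node (.col (nat_lit 0)) (.col (nat_lit 2)) (.slot (nat_lit 21))) (.slot (nat_lit 2))) (.node (.node (.col (nat_lit 3)) (.slot (nat_lit 1)) (.slot (nat_lit 0))) (.slot (nat_lit 5)) (.slot (nat_lit 5))) (.col (nat_lit 1))) (.node (.col (nat_lit 1)) (.slot (nat_lit 3)) (.slot (nat_lit 1)))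
def w23669 : Root := .mk (.col (nat_lit 1)) (.col (nat_lit 4)) (.node (.node (.col (nat_lit 2)) (.node (.col (nat_lit 0)) .junk (.col (nat_lit 1))) (.slot (nat_lit 1))) (.node (.node (.col (nat_lit 3)) (.slot (nat_lit 4)) (.slot (nat_lit 1))) (.slot (nat_lit 8)) (.slot (nat_lit 8))) (.col (nat_lit 4))) (.node (.col (nat_lit 1)) (.slot (nat_lit 0)) (.slot (nat_lit 0)))
def w23670 : Root := .mk (.node (.col (nat_lit 1)) (.col (nat_lit 4)) (.node (.col (nat_lit 1)) (.slot (nat_lit 0)) (.slot (nat_lit 0)))) (.col (nat_lit 0)) (.node (.node (.col (nat_lit 3)) (.slot (nat_lit 3)) (.slot (nat_lit 3))) (.slot (nat_lit 1)) (.slot (nat_lit 4))) (.col (nat_lit 4))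
def w23671 : Root := .mk (.node (.node (.node (.col (nat_lit 1)) (.col (nat_lit 4)) (.slot (nat_lit 0))) (.node (.slot (nat_lit 0)) (.slot (nat_lit 0)) (.slot (nat_lit 0))) (.col (nat_lit 4))) (.col (nat_lit 2)) (.slot (nat_lit 1))) (.col (nat_lit 0)) (.col (nat_lit 2)) (.node (.col (nat_lit 3)) (.node (.col (nat_lit 3)) (.slot (nat_lit 0)) (.slot (nat_lit 0))) (.slot (nat_lit 1)))
def l5328 : Root := .mk (.node (.node (.node (.col (nat_lit 1)) (.col (nat_lit 4)) (.node (.col (nat_lit 1)) (.slot (nat_lit 0)) (.slot (nat_lit 0)))) (.node (.node (.col (nat_lit 3)) (.slot (nat_lit 4)) (.slot (nat_lit 3))) (.slot (nat_lit 8)) (.slot (nat_lit 8))) (.col (nat_lit 4))) (.col (nat_lit 2)) (.slot (nat_lit 3))) (.col (nat_lit 0)) (.col (nat_lit 2)) (.node (.col (nat_lit 3)) (.slot (nat_lit 20)) (.slot (nat_lit 9)))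
def w23672 : Root := .mk (.col (nat_lit 1)) (.col (nat_lit 4)) (.node (.node (.col (nat_lit 2)) (.node (.col (nat_lit 0)) (.col (nat_lit 2)) (.slot (nat_lit 21))) (.slot (nat_lit 3))) (.node (.node (.col (nat_lit 3)) (.slot (nat_lit 4)) (.slot (nat_lit 3))) (.slot (nat_lit 8)) (.slot (nat_lit 8))) (.col (nat_lit 4))) (.node (.col (nat_lit 1)) (.slot (nat_lit 0)) (.slot (nat_lit 0)))
def w23673 : Root := .mk (.col (nat_lit 1)) (.col (nat_lit 4)) (.node (.node (.col (nat_lit 2)) (.node (.col (nat_lit 0)) (.col (nat_lit 2)) (.slot (nat_lit 2))) (.slot (nat_lit 8))) (.node (.node (.col (nat_lit 3)) (.slot (nat_lit 0)) (.slot (nat_lit 0))) (.slot (nat_lit 1)) (.slot (nat_lit 1))) (.node (.col (nat_lit 0)) (.slot (nat_lit 1)) (.slot (nat_lit 1)))) (.node (.col (nat_lit 1)) (.slot (nat_lit 0)) (.slot (nat_lit 0)))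
def w23674 : Root := .mk (.node (.node (.col (nat_lit 1)) (.col (nat_lit 4)) (.node (.col (nat_lit 1)) (.slot (nat_lit 0)) (.slot (nat_lit 0)))) (.node (.node (.col (nat_lit 3)) (.slot (nat_lit 0)) (.slot (nat_lit 0))) (.slot (nat_lit 20)) (.slot (nat_lit 9))) (.col (nat_lit 0))) (.col (nat_lit 2)) (.slot (nat_lit 0)) (.col (nat_lit 0))
def w23675 : Root := .mk (.col (nat_lit 1)) (.col (nat_lit 4)) (.node (.node (.col (nat_lit 2)) (.node (.col (nat_lit 0)) (.col (nat_lit 2)) (.slot (nat_lit 1))) (.slot (nat_lit 2))) (.node (.node (.col (nat_lit 3)) (.slot (nat_lit 1)) (.slot (nat_lit 1))) (.col (nat_lit 2)) (.slot (nat_lit 2))) (.col (nat_lit 0))) (.slot (nat_lit 0))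
def l5329 : Root := .mk (.col (nat_lit 1)) (.col (nat_lit 4)) (.node (.node (.col (nat_lit 2)) (.node (.col (nat_lit 0)) (.col (nat_lit 2)) (.slot (nat_lit 5))) (.slot (nat_lit 8))) (.node (.node (.col (nat_lit 3)) (.slot (nat_lit 3)) (.slot (nat_lit 3))) (.slot (nat_lit 20)) (.slot (nat_lit 9))) (.col (nat_lit 0))) (.node (.col (nat_lit 1)) (.slot (nat_lit 3)) (.slot (nat_lit 1)))
def w23676 : Root := .mk (.col (nat_lit 1)) (.col (nat_lit 4)) (.node (.node (.col (nat_lit 2)) (.node (.col (nat_lit 0)) (.col (nat_lit 2)) (.slot (nat_lit 5))) (.slot (nat_lit 8))) (.node (.node (.col (nat_lit 3)) (.slot (nat_lit 3)) (.slot (nat_lit 3))) (.slot (nat_lit 20)) (.slot (nat_lit 9))) (.node (.col (nat_lit 1)) (.slot (nat_lit 0)) (.slot (nat_lit 0)))) (.node (.col (nat_lit 1)) (.slot (nat_lit 3)) (.slot (nat_lit 1)))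
def w23677 : Root := .mk (.col (nat_lit 1)) (.col (nat_lit 4)) (.node (.node (.col (nat_lit 2)) (.node (.col (nat_lit 0)) (.col (nat_lit 2)) (.slot (nat_lit 5))) (.slot (nat_lit 8))) (.node (.node (.col (nat_lit 3)) (.slot (nat_lit 0)) (.slot (nat_lit 0))) (.slot (nat_lit 1)) (.slot (nat_lit 1))) (.node (.col (nat_lit 2)) (.slot (nat_lit 7)) (.slot (nat_lit 5)))) (.slot (nat_lit 0))
def w23678 : Root := .mk (.col (nat_lit 1)) (.col (nat_lit 4)) (.node (.node (.col (nat_lit 2)) (.node (.col (nat_lit 0)) (.col (nat_lit 2)) (.slot (nat_lit 5))) (.slot (nat_lit 8))) (.node (.node (.col (nat_lit 3)) (.slot (nat_lit 3)) (.slot (nat_lit 3))) (.slot (nat_lit 20)) (.slot (nat_lit 9))) (.node (.col (nat_lit 3)) (.slot (nat_lit 0)) (.slot (nat_lit 0)))) (.node (.col (nat_lit 1)) (.slot (nat_lit 3)) (.slot (nat_lit 1)))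
def w23679 : Root := .mk (.col (nat_lit 1)) (.col (nat_lit 4)) (.node (.node (.col (nat_lit 2)) (.node (.col (nat_lit 0)) (.col (nat_lit 2)) (.slot (nat_lit 5))) (.slot (nat_lit 8))) (.node (.node (.col (nat_lit 3)) (.slot (nat_lit 3)) (.slot (nat_lit 3))) (.slot (nat_lit 20)) (.slot (nat_lit 9))) (.node (.col (nat_lit 4)) (.slot (nat_lit 0)) (.slot (nat_lit 0)))) (.node (.col (nat_lit 1)) (.slot (nat_lit 3)) (.slot (nat_lit 1)))
def w23682 : Root := .mk (.col (nat_lit 1)) (.col (nat_lit 4)) (.node (.node (.col (nat_lit 2)) (.node (.col (nat_lit 0)) (.col (nat_lit 2)) (.slot (nat_lit 2))) (.node (.col (nat_lit 0)) (.node (.slot (nat_lit 0)) (.slot (nat_lit 0)) (.slot (nat_lit 0))) (.slot (nat_lit 0)))) (.node (.node (.col (nat_lit 3)) (.slot (nat_lit 1)) (.slot (nat_lit 1))) (.slot (nat_lit 3)) (.slot (nat_lit 1))) (.slot (nat_lit 1))) (.node (.col (nat_lit 1)) (.col (nat_lit 4)) (.slot (nat_lit 0)))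
def l5330 : Root := .mk (.col (nat_lit 1)) (.col (nat_lit 4)) (.node (.node (.col (nat_lit 2)) (.node (.col (nat_lit 0)) (.col (nat_lit 2)) (.slot (nat_lit 10))) (.node (.col (nat_lit 0)) (.slot (nat_lit 7)) (.slot (nat_lit 5)))) (.node (.node (.col (nat_lit 3)) (.slot (nat_lit 1)) (.slot (nat_lit 1))) (.slot (nat_lit 3)) (.slot (nat_lit 1))) (.slot (nat_lit 2))) (.node (.col (nat_lit 1)) (.col (nat_lit 4)) (.slot (nat_lit 0)))
def w23683 : Root := .mk (.col (nat_lit 1)) (.col (nat_lit 4)) (.node (.node (.col (nat_lit 2)) (.node (.col (nat_lit 0)) (.col (nat_lit 2)) (.slot (nat_lit 10))) (.slot (nat_lit 8))) (.node (.node (.col (nat_lit 3)) (.slot (nat_lit 1)) (.slot (nat_lit 1))) (.slot (nat_lit 3)) (.slot (nat_lit 1))) (.slot (nat_lit 2))) (.node (.col (nat_lit 1)) (.col (nat_lit 4)) (.slot (nat_lit 0)))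
def w23685 : Root := .mk (.node (.col (nat_lit 1)) (.col (nat_lit 4)) (.node (.node (.col (nat_lit 2)) (.slot (nat_lit 0)) (.slot (nat_lit 0))) (.node (.node (.col (nat_lit 3)) (.slot (nat_lit 5)) (.slot (nat_lit 5))) (.slot (nat_lit 4)) (.slot (nat_lit 4))) (.slot (nat_lit 5)))) (.col (nat_lit 1)) (.col (nat_lit 3)) (.col (nat_lit 4))
def w23686 : Root := .mk (.node (.col (nat_lit 1)) (.col (nat_lit 4)) (.node (.node (.col (nat_lit 2)) (.slot (nat_lit 0)) (.slot (nat_lit 0))) (.node (.node (.col (nat_lit 3)) (.slot (nat_lit 1)) (.slot (nat_lit 0))) (.slot (nat_lit 6)) (.slot (nat_lit 1))) (.slot (nat_lit 4)))) (.col (nat_lit 1)) (.col (nat_lit 3)) (.node (.col (nat_lit 1)) (.slot (nat_lit 1)) (.slot (nat_lit 1)))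
def w23687 : Root := .mk (.node (.col (nat_lit 1)) (.col (nat_lit 4)) (.node (.node (.col (nat_lit 2)) (.slot (nat_lit 0)) (.slot (nat_lit 0))) (.node (.node (.col (nat_lit 3)) (.slot (nat_lit 1)) (.slot (nat_lit 1))) (.slot (nat_lit 3)) (.slot (nat_lit 3))) (.slot (nat_lit 2)))) (.col (nat_lit 1)) (.col (nat_lit 3)) (.node (.col (nat_lit 3)) (.slot (nat_lit 1)) (.slot (nat_lit 1)))
def w23688 : Root := .mk (.node (.col (nat_lit 1)) (.col (nat_lit 4)) (.node (.node (.col (nat_lit 2)) (.slot (nat_lit 0)) (.slot (nat_lit 0))) (.node (.node (.col (nat_lit 3)) (.slot (nat_lit 1)) (.slot (nat_lit 1))) (.slot (nat_lit 3)) (.slot (nat_lit 3))) (.slot (nat_lit 2)))) (.col (nat_lit 1)) (.col (nat_lit 3)) (.node (.slot (nat_lit 0)) (.slot (nat_lit 1)) (.slot (nat_lit 0)))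
def w23689 : Root := .mk (.col (nat_lit 1)) (.col (nat_lit 4)) (.node (.node (.col (nat_lit 2)) (.slot (nat_lit 0)) (.slot (nat_lit 0))) (.node (.node (.col (nat_lit 3)) (.slot (nat_lit 2)) (.slot (nat_lit 1))) (.slot (nat_lit 3)) (.slot (nat_lit 3))) (.node (.col (nat_lit 3)) (.slot (nat_lit 1)) (.slot (nat_lit 1)))) (.node (.col (nat_lit 1)) (.col (nat_lit 3)) (.slot (nat_lit 2)))
def l5331 : Root := .mk (.col (nat_lit 1)) (.col (nat_lit 4)) (.node (.node (.col (nat_lit 2)) (.node (.col (nat_lit 0)) (.col (nat_lit 2)) (.slot (nat_lit 5))) (.slot (nat_lit 8))) (.node (.node (.col (nat_lit 3)) (.slot (nat_lit 12)) (.slot (nat_lit 10))) (.slot (nat_lit 7)) (.slot (nat_lit 5))) (.slot (nat_lit 8))) (.node (.col (nat_lit 1)) (.col (nat_lit 3)) (.slot (nat_lit 8)))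
def w23693 : Root := .mk (.node (.node (.col (nat_lit 1)) (.col (nat_lit 4)) (.node (.col (nat_lit 1)) (.slot (nat_lit 5)) (.slot (nat_lit 1)))) (.node (.node (.col (nat_lit 3)) (.slot (nat_lit 12)) (.slot (nat_lit 10))) (.slot (nat_lit 8)) (.slot (nat_lit 8))) (.slot (nat_lit 5))) (.col (nat_lit 2)) (.slot (nat_lit 0)) (.col (nat_lit 0))
def w23694 : Root := .mk (.col (nat_lit 1)) (.col (nat_lit 4)) (.node (.node (.col (nat_lit 2)) (.node (.col (nat_lit 0)) (.col (nat_lit 2)) (.slot (nat_lit 2))) (.slot (nat_lit 8))) (.node (.col (nat_lit 0)) (.slot (nat_lit 1)) (.slot (nat_lit 1))) (.slot (nat_lit 2))) (.node (.col (nat_lit 1)) (.slot (nat_lit 0)) (.slot (nat_lit 0)))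
def w23695 : Root := .mk (.col (nat_lit 1)) (.col (nat_lit 4)) (.node (.node (.col (nat_lit 2)) (.node (.col (nat_lit 0)) (.col (nat_lit 2)) (.slot (nat_lit 4))) (.slot (nat_lit 8))) (.node (.col (nat_lit 2)) (.slot (nat_lit 7)) (.slot (nat_lit 5))) (.slot (nat_lit 8))) (.slot (nat_lit 0))
def l5332 : Root := .mk (.node (.node (.col (nat_lit 1)) (.col (nat_lit 4)) (.node (.col (nat_lit 1)) (.slot (nat_lit 0)) (.slot (nat_lit 0)))) (.node (.node (.col (nat_lit 3)) (.slot (nat_lit 0)) (.slot (nat_lit 0))) (.col (nat_lit 3)) (.slot (nat_lit 2))) (.slot (nat_lit 2))) (.col (nat_lit 2)) (.col (nat_lit 4)) (.node (.col (nat_lit 0)) (.slot (nat_lit 20)) (.slot (nat_lit 9)))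
def w23697 : Root := .mk (.col (nat_lit 1)) (.col (nat_lit 4)) (.node (.node (.col (nat_lit 2)) (.node (.col (nat_lit 0)) (.col (nat_lit 2)) (.slot (nat_lit 0))) (.node (.col (nat_lit 0)) (.slot (nat_lit 20)) (.slot (nat_lit 9)))) (.node (.node (.col (nat_lit 3)) (.slot (nat_lit 0)) (.slot (nat_lit 0))) (.col (nat_lit 3)) (.slot (nat_lit 2))) (.slot (nat_lit 2))) (.node (.col (nat_lit 1)) (.slot (nat_lit 0)) (.slot (nat_lit 0)))
def w23698 : Root := .mk (.node (.node (.col (nat_lit 1)) (.col (nat_lit 4)) (.slot (nat_lit 0))) (.node (.node (.col (nat_lit 3)) (.slot (nat_lit 0)) (.slot (nat_lit 0))) (.col (nat_lit 3)) (.slot (nat_lit 1))) (.col (nat_lit 0))) (.col (nat_lit 2)) (.col (nat_lit 3)) (.node (.col (nat_lit 0)) (.slot (nat_lit 0)) (.slot (nat_lit 1)))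
def w23699 : Root := .mk (.node (.node (.col (nat_lit 1)) (.col (nat_lit 4)) (.slot (nat_lit 0))) (.node (.col (nat_lit 2)) (.node (.col (nat_lit 0)) (.col (nat_lit 2)) (.slot (nat_lit 2))) (.node (.col (nat_lit 0)) (.slot (nat_lit 0)) (.slot (nat_lit 1)))) (.col (nat_lit 0))) (.node (.col (nat_lit 3)) (.slot (nat_lit 0)) (.slot (nat_lit 0))) (.col (nat_lit 3)) (.col (nat_lit 2))
def l5333 : Root := .mk (.col (nat_lit 1)) (.col (nat_lit 4)) (.node (.node (.col (nat_lit 2)) (.node (.col (nat_lit 0)) (.col (nat_lit 2)) (.slot (nat_lit 5))) (.node (.col (nat_lit 0)) (.slot (nat_lit 0)) (.slot (nat_lit 1)))) (.node (.node (.col (nat_lit 3)) (.slot (nat_lit 0)) (.slot (nat_lit 0))) (.col (nat_lit 3)) (.slot (nat_lit 2))) (.col (nat_lit 0))) (.node (.col (nat_lit 1)) (.slot (nat_lit 0)) (.slot (nat_lit 0)))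
def w23700 : Root := .mk (.col (nat_lit 1)) (.col (nat_lit 4)) (.node (.node (.col (nat_lit 2)) (.node (.col (nat_lit 0)) (.col (nat_lit 2)) (.slot (nat_lit 5))) (.node (.col (nat_lit 0)) (.slot (nat_lit 0)) (.slot (nat_lit 1)))) (.node (.node (.col (nat_lit 3)) (.slot (nat_lit 0)) (.slot (nat_lit 0))) (.col (nat_lit 3)) (.slot (nat_lit 2))) (.slot (nat_lit 1))) (.node (.col (nat_lit 1)) (.slot (nat_lit 0)) (.slot (nat_lit 0)))
def l5334 : Root := .mk (.col (nat_lit 1)) (.col (nat_lit 4)) (.node (.node (.col (nat_lit 2)) (.node (.col (nat_lit 0)) (.col (nat_lit 2)) (.slot (nat_lit 5))) (.node (.col (nat_lit 0)) (.slot (nat_lit 20)) (.slot (nat_lit 9)))) (.node (.node (.col (nat_lit 3)) (.slot (nat_lit 0)) (.slot (nat_lit 0))) (.col (nat_lit 3)) (.slot (nat_lit 2))) (.slot (nat_lit 2))) (.node (.col (nat_lit 1)) (.slot (nat_lit 0)) (.slot (nat_lit 0)))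
def w23701 : Root := .mk (.col (nat_lit 1)) (.col (nat_lit 4)) (.node (.node (.col (nat_lit 2)) (.node (.col (nat_lit 0)) (.col (nat_lit 2)) (.slot (nat_lit 5))) (.slot (nat_lit 21))) (.node (.node (.col (nat_lit 3)) (.slot (nat_lit 0)) (.slot (nat_lit 0))) (.col (nat_lit 3)) (.slot (nat_lit 2))) (.slot (nat_lit 2))) (.node (.col (nat_lit 1)) (.slot (nat_lit 0)) (.slot (nat_lit 0)))
def l5335 : Root := .mk (.col (nat_lit 2)) (.node (.col (nat_lit 2)) (.node (.col (nat_lit 0)) (.col (nat_lit 2)) (.slot (nat_lit 3))) (.slot (nat_lit 8))) (.node (.col (nat_lit 1)) (.node (.col (nat_lit 0)) (.slot (nat_lit 3)) (.slot (nat_lit 1))) (.slot (nat_lit 3))) (.col (nat_lit 0))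
def w23702 : Root := .mk (.col (nat_lit 2)) (.node (.col (nat_lit 2)) (.node (.col (nat_lit 0)) (.col (nat_lit 2)) (.slot (nat_lit 3))) (.slot (nat_lit 8))) (.node (.node (.col (nat_lit 3)) (.slot (nat_lit 0)) (.slot (nat_lit 0))) (.node (.col (nat_lit 0)) (.slot (nat_lit 3)) (.slot (nat_lit 1))) (.slot (nat_lit 3))) (.col (nat_lit 0))
def l5336 : Root := .mk (.node (.col (nat_lit 1)) (.col (nat_lit 4)) (.node (.col (nat_lit 1)) (.slot (nat_lit 0)) (.slot (nat_lit 0)))) (.col (nat_lit 3)) (.node (.node (.col (nat_lit 3)) (.slot (nat_lit 0)) (.slot (nat_lit 0))) (.node (.col (nat_lit 0)) (.slot (nat_lit 1)) (.slot (nat_lit 1))) (.slot (nat_lit 2))) (.col (nat_lit 0))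
def w23703 : Root := .mk (.node (.node (.col (nat_lit 1)) (.col (nat_lit 4)) (.node (.col (nat_lit 1)) (.slot (nat_lit 0)) (.slot (nat_lit 0)))) (.node (.node (.col (nat_lit 3)) (.slot (nat_lit 1)) (.slot (nat_lit 1))) (.node (.col (nat_lit 0)) (.slot (nat_lit 0)) (.slot (nat_lit 0))) (.slot (nat_lit 2))) (.col (nat_lit 0))) (.col (nat_lit 2)) (.slot (nat_lit 0)) (.col (nat_lit 0))
def w23704 : Root := .mk (.col (nat_lit 1)) (.col (nat_lit 4)) (.node (.node (.col (nat_lit 2)) (.node (.col (nat_lit 0)) (.col (nat_lit 2)) (.slot (nat_lit 5))) (.node (.col (nat_lit 1)) (.slot (nat_lit 0)) (.slot (nat_lit 0)))) (.node (.slot (nat_lit 0)) (.slot (nat_lit 0)) (.slot (nat_lit 0))) (.col (nat_lit 0))) (.slot (nat_lit 0))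
def w23705 : Root := .mk (.col (nat_lit 1)) (.col (nat_lit 4)) (.node (.node (.col (nat_lit 2)) (.node (.col (nat_lit 0)) (.col (nat_lit 2)) (.slot (nat_lit 5))) (.node (.col (nat_lit 2)) (.slot (nat_lit 0)) (.slot (nat_lit 0)))) (.node (.slot (nat_lit 0)) (.slot (nat_lit 0)) (.slot (nat_lit 0))) (.col (nat_lit 0))) (.slot (nat_lit 0))
def w23706 : Root := .mk (.col (nat_lit 1)) (.col (nat_lit 4)) (.node (.node (.col (nat_lit 2)) (.node (.col (nat_lit 0)) (.col (nat_lit 2)) (.slot (nat_lit 5))) (.node (.col (nat_lit 3)) (.slot (nat_lit 0)) (.slot (nat_lit 0)))) (.node (.slot (nat_lit 0)) (.slot (nat_lit 0)) (.slot (nat_lit 0))) (.col (nat_lit 0))) (.slot (nat_lit 0))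
def w23707 : Root := .mk (.node (.node (.node (.col (nat_lit 1)) (.col (nat_lit 4)) (.node (.col (nat_lit 1)) (.slot (nat_lit 0)) (.slot (nat_lit 0)))) (.node (.slot (nat_lit 0)) (.slot (nat_lit 0)) (.slot (nat_lit 0))) (.col (nat_lit 0))) (.col (nat_lit 2)) (.slot (nat_lit 1))) (.col (nat_lit 0)) (.col (nat_lit 2)) (.node (.col (nat_lit 0)) (.slot (nat_lit 0)) (.slot (nat_lit 0)))
def w23708 : Root := .mk (.node (.node (.node (.col (nat_lit 1)) (.col (nat_lit 4)) (.node (.col (nat_lit 1)) (.slot (nat_lit 0)) (.slot (nat_lit 0)))) (.node (.slot (nat_lit 0)) (.slot (nat_lit 0)) (.slot (nat_lit 0))) (.col (nat_lit 0))) (.col (nat_lit 2)) (.slot (nat_lit 1))) (.col (nat_lit 0)) (.col (nat_lit 2)) (.node (.col (nat_lit 2)) (.slot (nat_lit 0)) (.slot (nat_lit 0)))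
def l5337 : Root := .mk (.col (nat_lit 1)) (.col (nat_lit 4)) (.node (.node (.col (nat_lit 2)) (.node (.col (nat_lit 0)) (.col (nat_lit 2)) (.slot (nat_lit 5))) (.slot (nat_lit 8))) (.node (.node (.col (nat_lit 3)) (.slot (nat_lit 20)) (.slot (nat_lit 9))) (.node (.col (nat_lit 0)) (.slot (nat_lit 20)) (.slot (nat_lit 12))) (.slot (nat_lit 8))) (.col (nat_lit 0))) (.node (.col (nat_lit 1)) (.slot (nat_lit 0)) (.slot (nat_lit 0)))
def w23709 : Root := .mk (.col (nat_lit 1)) (.col (nat_lit 4)) (.node (.node (.col (nat_lit 2)) (.node (.col (nat_lit 0)) (.col (nat_lit 2)) (.slot (nat_lit 5))) (.slot (nat_lit 8))) (.node (.node (.col (nat_lit 3)) (.slot (nat_lit 20)) (.slot (nat_lit 9))) (.node (.col (nat_lit 0)) (.slot (nat_lit 20)) (.slot (nat_lit 12))) (.slot (nat_lit 8))) (.slot (nat_lit 1))) (.node (.col (nat_lit 1)) (.slot (nat_lit 0)) (.slot (nat_lit 0)))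
def w23710 : Root := .mk (.node (.node (.col (nat_lit 1)) (.col (nat_lit 4)) (.slot (nat_lit 0))) (.node (.col (nat_lit 2)) (.node (.col (nat_lit 0)) (.col (nat_lit 2)) (.slot (nat_lit 4))) (.slot (nat_lit 4))) (.slot (nat_lit 3))) (.col (nat_lit 1)) (.node (.col (nat_lit 1)) (.slot (nat_lit 3)) (.slot (nat_lit 1))) (.col (nat_lit 2))
def w23711 : Root := .mk (.node (.node (.col (nat_lit 1)) (.col (nat_lit 4)) (.slot (nat_lit 0))) (.node (.col (nat_lit 2)) (.node (.col (nat_lit 0)) (.col (nat_lit 2)) (.slot (nat_lit 4))) (.slot (nat_lit 4))) (.slot (nat_lit 3))) (.node (.col (nat_lit 3)) (.slot (nat_lit 3)) (.slot (nat_lit 1))) (.col (nat_lit 3)) (.col (nat_lit 2))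
def w23712 : Root := .mk (.node (.node (.slot (nat_lit 0)) (.node (.col (nat_lit 2)) (.node (.col (nat_lit 0)) (.col (nat_lit 2)) (.slot (nat_lit 5))) (.slot (nat_lit 8))) (.slot (nat_lit 1))) (.node (.col (nat_lit 1)) (.slot (nat_lit 1)) (.slot (nat_lit 1))) (.col (nat_lit 2))) (.col (nat_lit 3)) (.col (nat_lit 2)) (.slot (nat_lit 1))
def w23713 : Root := .mk (.node (.slot (nat_lit 0)) (.node (.col (nat_lit 2)) (.node (.col (nat_lit 0)) (.col (nat_lit 2)) (.slot (nat_lit 5))) (.slot (nat_lit 8))) (.slot (nat_lit 1))) (.node (.col (nat_lit 3)) (.slot (nat_lit 0)) (.slot (nat_lit 1))) (.node (.col (nat_lit 1)) (.slot (nat_lit 1)) (.slot (nat_lit 1))) (.col (nat_lit 2))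
def l5338 : Root := .mk (.col (nat_lit 1)) (.col (nat_lit 4)) (.node (.node (.col (nat_lit 2)) (.node (.col (nat_lit 0)) (.col (nat_lit 2)) (.slot (nat_lit 8))) (.slot (nat_lit 8))) (.node (.node (.col (nat_lit 3)) (.slot (nat_lit 20)) (.slot (nat_lit 12))) (.node (.col (nat_lit 1)) (.slot (nat_lit 20)) (.slot (nat_lit 9))) (.col (nat_lit 2))) (.slot (nat_lit 3))) (.node (.col (nat_lit 1)) (.slot (nat_lit 3)) (.slot (nat_lit 1)))
def w23714 : Root := .mk (.col (nat_lit 1)) (.col (nat_lit 4)) (.node (.node (.col (nat_lit 2)) (.node (.col (nat_lit 0)) (.col (nat_lit 2)) (.slot (nat_lit 8))) (.slot (nat_lit 8))) (.node (.node (.col (nat_lit 3)) (.slot (nat_lit 20)) (.slot (nat_lit 12))) (.node (.col (nat_lit 1)) (.slot (nat_lit 20)) (.slot (nat_lit 9))) (.slot (nat_lit 1))) (.slot (nat_lit 3))) (.node (.col (nat_lit 1)) (.slot (nat_lit 3)) (.slot (nat_lit 1)))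
def w23715 : Root := .mk (.node (.col (nat_lit 1)) (.col (nat_lit 4)) (.node (.col (nat_lit 1)) (.slot (nat_lit 0)) (.slot (nat_lit 0)))) (.col (nat_lit 0)) (.node (.node (.col (nat_lit 3)) (.slot (nat_lit 0)) (.slot (nat_lit 0))) (.node (.col (nat_lit 2)) (.slot (nat_lit 3)) (.slot (nat_lit 3))) (.slot (nat_lit 4))) (.col (nat_lit 4))
def l5339 : Root := .mk (.node (.col (nat_lit 1)) (.col (nat_lit 4)) (.node (.col (nat_lit 1)) (.slot (nat_lit 0)) (.slot (nat_lit 0)))) (.col (nat_lit 0)) (.node (.node (.col (nat_lit 3)) (.slot (nat_lit 0)) (.slot (nat_lit 0))) (.node (.col (nat_lit 2)) (.slot (nat_lit 1)) (.slot (nat_lit 1))) (.slot (nat_lit 2))) (.col (nat_lit 2))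
def w23716 : Root := .mk (.col (nat_lit 1)) (.col (nat_lit 4)) (.node (.col (nat_lit 0)) (.node (.node (.col (nat_lit 3)) (.slot (nat_lit 0)) (.slot (nat_lit 0))) (.node (.col (nat_lit 2)) (.slot (nat_lit 1)) (.slot (nat_lit 1))) (.slot (nat_lit 2))) (.node (.col (nat_lit 0)) (.slot (nat_lit 0)) (.slot (nat_lit 0)))) (.node (.col (nat_lit 1)) (.slot (nat_lit 0)) (.slot (nat_lit 0)))
def w23717 : Root := .mk (.col (nat_lit 1)) (.col (nat_lit 4)) (.node (.col (nat_lit 0)) (.node (.node (.col (nat_lit 3)) (.slot (nat_lit 1)) (.slot (nat_lit 1))) (.node (.col (nat_lit 2)) (.slot (nat_lit 0)) (.slot (nat_lit 0))) (.slot (nat_lit 2))) (.node (.col (nat_lit 2)) (.slot (nat_lit 0)) (.slot (nat_lit 0)))) (.node (.col (nat_lit 1)) (.slot (nat_lit 0)) (.slot (nat_lit 0)))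
def w23718 : Root := .mk (.col (nat_lit 1)) (.col (nat_lit 4)) (.node (.col (nat_lit 0)) (.node (.node (.col (nat_lit 3)) (.node (.col (nat_lit 0)) (.slot (nat_lit 1)) (.slot (nat_lit 1))) (.slot (nat_lit 2))) (.col (nat_lit 3)) (.slot (nat_lit 1))) (.slot (nat_lit 1))) (.col (nat_lit 0))
def w23719 : Root := .mk (.col (nat_lit 1)) (.col (nat_lit 4)) (.node (.col (nat_lit 0)) (.node (.node (.col (nat_lit 3)) (.node (.col (nat_lit 0)) (.slot (nat_lit 8)) (.slot (nat_lit 8))) (.slot (nat_lit 3))) (.node (.col (nat_lit 2)) (.slot (nat_lit 3)) (.slot (nat_lit 1))) (.col (nat_lit 2))) (.slot (nat_lit 3))) (.col (nat_lit 0))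
def w23720 : Root := .mk (.col (nat_lit 1)) (.col (nat_lit 4)) (.node (.col (nat_lit 0)) (.node (.node (.col (nat_lit 3)) (.node (.col (nat_lit 0)) (.slot (nat_lit 1)) (.slot (nat_lit 1))) (.slot (nat_lit 2))) (.node (.col (nat_lit 2)) (.slot (nat_lit 1)) (.slot (nat_lit 1))) (.node (.slot (nat_lit 0)) (.slot (nat_lit 0)) (.slot (nat_lit 0)))) (.slot (nat_lit 1))) (.col (nat_lit 0))
def w23721 : Root := .mk (.col (nat_lit 1)) (.col (nat_lit 4)) (.node (.col (nat_lit 0)) (.node (.node (.col (nat_lit 3)) (.node (.col (nat_lit 0)) .junk (.slot (nat_lit 1))) (.col (nat_lit 2))) (.col (nat_lit 3)) (.slot (nat_lit 1))) (.slot (nat_lit 1))) (.col (nat_lit 0))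
def w23722 : Root := .mk (.col (nat_lit 1)) (.col (nat_lit 4)) (.node (.col (nat_lit 0)) (.node (.node (.col (nat_lit 3)) (.node (.col (nat_lit 0)) .junk (.slot (nat_lit 1))) (.col (nat_lit 2))) (.node (.col (nat_lit 2)) (.slot (nat_lit 0)) (.slot (nat_lit 0))) (.col (nat_lit 2))) (.slot (nat_lit 1))) (.col (nat_lit 0))
def w23723 : Root := .mk (.node (.node (.node (.node (.col (nat_lit 1)) (.col (nat_lit 4)) .junk) (.col (nat_lit 0)) (.slot (nat_lit 1))) (.node (.col (nat_lit 2)) (.slot (nat_lit 2)) (.slot (nat_lit 2))) (.slot (nat_lit 1))) (.col (nat_lit 3)) (.col (nat_lit 2))) (.col (nat_lit 0)) (.col (nat_lit 3)) (.col (nat_lit 2))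
def w23724 : Root := .mk (.col (nat_lit 1)) (.col (nat_lit 4)) (.node (.col (nat_lit 0)) (.node (.node (.col (nat_lit 3)) (.node (.col (nat_lit 0)) (.col (nat_lit 3)) (.node (.col (nat_lit 0)) (.slot (nat_lit 0)) (.slot (nat_lit 0)))) (.col (nat_lit 2))) (.node (.col (nat_lit 2)) (.slot (nat_lit 7)) (.slot (nat_lit 5))) (.slot (nat_lit 8))) (.slot (nat_lit 3))) (.col (nat_lit 0))
def w23725 : Root := .mk (.col (nat_lit 1)) (.col (nat_lit 4)) (.node (.col (nat_lit 0)) (.node (.node (.col (nat_lit 3)) (.node (.col (nat_lit 0)) (.col (nat_lit 3)) (.node (.col (nat_lit 3)) (.slot (nat_lit 0)) (.slot (nat_lit 0)))) (.col (nat_lit 2))) (.node (.col (nat_lit 2)) (.slot (nat_lit 7)) (.slot (nat_lit 5))) (.slot (nat_lit 8))) (.slot (nat_lit 3))) (.col (nat_lit 0))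
def l5340 : Root := .mk (.col (nat_lit 1)) (.col (nat_lit 4)) (.node (.col (nat_lit 0)) (.node (.node (.col (nat_lit 3)) (.node (.col (nat_lit 0)) (.col (nat_lit 3)) (.slot (nat_lit 5))) (.col (nat_lit 2))) (.node (.col (nat_lit 2)) (.slot (nat_lit 7)) (.slot (nat_lit 5))) (.slot (nat_lit 8))) (.slot (nat_lit 3))) (.col (nat_lit 0))
def w23726 : Root := .mk (.col (nat_lit 1)) (.col (nat_lit 4)) (.node (.col (nat_lit 0)) (.node (.node (.col (nat_lit 3)) (.node (.col (nat_lit 0)) (.col (nat_lit 3)) (.slot (nat_lit 5))) (.slot (nat_lit 1))) (.node (.col (nat_lit 2)) (.slot (nat_lit 7)) (.slot (nat_lit 5))) (.slot (nat_lit 8))) (.slot (nat_lit 3))) (.col (nat_lit 0))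
def w23727 : Root := .mk (.col (nat_lit 1)) (.col (nat_lit 4)) (.node (.col (nat_lit 0)) (.node (.node (.col (nat_lit 3)) (.node (.col (nat_lit 0)) (.node (.col (nat_lit 0)) (.slot (nat_lit 0)) (.slot (nat_lit 0))) (.slot (nat_lit 2))) (.slot (nat_lit 2))) (.node (.col (nat_lit 2)) (.slot (nat_lit 0)) (.slot (nat_lit 0))) (.slot (nat_lit 3))) (.slot (nat_lit 1))) (.col (nat_lit 0))
def w23728 : Root := .mk (.col (nat_lit 1)) (.col (nat_lit 4)) (.node (.col (nat_lit 0)) (.node (.node (.col (nat_lit 3)) (.node (.col (nat_lit 0)) (.slot (nat_lit 1)) (.slot (nat_lit 1))) (.slot (nat_lit 2))) (.node (.col (nat_lit 2)) (.slot (nat_lit 1)) (.slot (nat_lit 1))) (.slot (nat_lit 2))) (.col (nat_lit 1))) (.col (nat_lit 0))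
def w23729 : Root := .mk (.col (nat_lit 1)) (.col (nat_lit 4)) (.node (.col (nat_lit 0)) (.node (.node (.col (nat_lit 3)) (.node (.col (nat_lit 0)) (.slot (nat_lit 1)) (.slot (nat_lit 1))) (.slot (nat_lit 2))) (.node (.col (nat_lit 2)) (.slot (nat_lit 0)) (.slot (nat_lit 0))) (.slot (nat_lit 2))) (.node (.col (nat_lit 2)) (.slot (nat_lit 1)) (.slot (nat_lit 1)))) (.col (nat_lit 0))
def w23730 : Root := .mk (.node (.col (nat_lit 1)) (.col (nat_lit 4)) .junk) (.col (nat_lit 0)) (.node (.node (.col (nat_lit 3)) (.node (.col (nat_lit 0)) (.slot (nat_lit 1)) (.slot (nat_lit 1))) (.slot (nat_lit 2))) (.node (.col (nat_lit 2)) (.slot (nat_lit 1)) (.slot (nat_lit 1))) (.slot (nat_lit 2))) (.node (.col (nat_lit 3)) (.slot (nat_lit 0)) (.slot (nat_lit 0)))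
def w23731 : Root := .mk (.col (nat_lit 1)) (.col (nat_lit 4)) (.node (.col (nat_lit 0)) (.node (.node (.col (nat_lit 3)) (.node (.col (nat_lit 0)) (.slot (nat_lit 7)) (.slot (nat_lit 5))) (.slot (nat_lit 8))) (.node (.col (nat_lit 2)) (.node (.col (nat_lit 2)) (.slot (nat_lit 0)) (.slot (nat_lit 0))) (.slot (nat_lit 6))) (.slot (nat_lit 8))) (.slot (nat_lit 21))) (.col (nat_lit 0))
def l5341 : Root := .mk (.col (nat_lit 1)) (.col (nat_lit 4)) (.node (.col (nat_lit 0)) (.node (.node (.col (nat_lit 3)) (.node (.col (nat_lit 0)) (.slot (nat_lit 20)) (.slot (nat_lit 12))) (.slot (nat_lit 21))) (.node (.col (nat_lit 2)) (.slot (nat_lit 20)) (.slot (nat_lit 9))) (.slot (nat_lit 21))) (.slot (nat_lit 21))) (.col (nat_lit 0))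
def w23732 : Root := .mk (.col (nat_lit 1)) (.col (nat_lit 4)) (.node (.col (nat_lit 0)) (.node (.node (.col (nat_lit 3)) (.slot (nat_lit 21)) (.slot (nat_lit 21))) (.node (.col (nat_lit 2)) (.slot (nat_lit 20)) (.slot (nat_lit 9))) (.slot (nat_lit 21))) (.slot (nat_lit 21))) (.col (nat_lit 0))
def l5342 : Root := .mk (.col (nat_lit 1)) (.col (nat_lit 4)) (.node (.col (nat_lit 0)) (.node (.col (nat_lit 1)) (.node (.col (nat_lit 2)) (.slot (nat_lit 1)) (.slot (nat_lit 1))) (.node (.col (nat_lit 0)) (.slot (nat_lit 5)) (.slot (nat_lit 5)))) (.slot (nat_lit 1))) (.node (.col (nat_lit 1)) (.slot (nat_lit 0)) (.slot (nat_lit 0)))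
def w23733 : Root := .mk (.col (nat_lit 1)) (.col (nat_lit 4)) (.node (.col (nat_lit 0)) (.node (.node (.col (nat_lit 3)) (.slot (nat_lit 0)) (.slot (nat_lit 0))) (.node (.col (nat_lit 2)) (.slot (nat_lit 1)) (.slot (nat_lit 1))) (.node (.col (nat_lit 0)) (.slot (nat_lit 5)) (.slot (nat_lit 5)))) (.slot (nat_lit 1))) (.node (.col (nat_lit 1)) (.slot (nat_lit 0)) (.slot (nat_lit 0)))
def l5343 : Root := .mk (.node (.col (nat_lit 1)) (.col (nat_lit 4)) (.node (.col (nat_lit 1)) (.slot (nat_lit 0)) (.slot (nat_lit 0)))) (.col (nat_lit 0)) (.node (.node (.col (nat_lit 3)) (.slot (nat_lit 1)) (.slot (nat_lit 0))) (.node (.col (nat_lit 2)) (.slot (nat_lit 1)) (.slot (nat_lit 1))) (.node (.col (nat_lit 1)) (.slot (nat_lit 0)) (.slot (nat_lit 0)))) (.col (nat_lit 2))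
def w23734 : Root := .mk (.col (nat_lit 1)) (.col (nat_lit 4)) (.node (.col (nat_lit 0)) (.node (.node (.col (nat_lit 3)) (.slot (nat_lit 1)) (.slot (nat_lit 0))) (.node (.col (nat_lit 2)) (.slot (nat_lit 1)) (.slot (nat_lit 1))) (.node (.col (nat_lit 1)) (.slot (nat_lit 0)) (.slot (nat_lit 0)))) (.slot (nat_lit 1))) (.node (.col (nat_lit 1)) (.slot (nat_lit 0)) (.slot (nat_lit 0)))
def l5344 : Root := .mk (.node (.col (nat_lit 1)) (.col (nat_lit 4)) (.node (.col (nat_lit 1)) (.slot (nat_lit 0)) (.slot (nat_lit 0)))) (.col (nat_lit 0)) (.node (.node (.col (nat_lit 3)) (.slot (nat_lit 1)) (.slot (nat_lit 0))) (.node (.col (nat_lit 2)) (.slot (nat_lit 1)) (.slot (nat_lit 1))) (.node (.col (nat_lit 4)) (.slot (nat_lit 0)) (.slot (nat_lit 0)))) (.col (nat_lit 2))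
def w23735 : Root := .mk (.col (nat_lit 1)) (.col (nat_lit 4)) (.node (.col (nat_lit 0)) (.node (.node (.col (nat_lit 3)) (.slot (nat_lit 1)) (.slot (nat_lit 0))) (.node (.col (nat_lit 2)) (.slot (nat_lit 1)) (.slot (nat_lit 1))) (.node (.col (nat_lit 4)) (.slot (nat_lit 0)) (.slot (nat_lit 0)))) (.slot (nat_lit 1))) (.node (.col (nat_lit 1)) (.slot (nat_lit 0)) (.slot (nat_lit 0)))
def l5345 : Root := .mk (.node (.col (nat_lit 1)) (.col (nat_lit 4)) (.node (.col (nat_lit 1)) (.slot (nat_lit 0)) (.slot (nat_lit 0)))) (.col (nat_lit 0)) (.node (.node (.col (nat_lit 3)) (.slot (nat_lit 1)) (.slot (nat_lit 1))) (.node (.col (nat_lit 2)) (.slot (nat_lit 1)) (.slot (nat_lit 0))) (.node (.slot (nat_lit 0)) (.slot (nat_lit 0)) (.slot (nat_lit 0)))) (.col (nat_lit 2))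
def w23736 : Root := .mk (.col (nat_lit 1)) (.col (nat_lit 4)) (.node (.col (nat_lit 0)) (.node (.node (.col (nat_lit 3)) (.slot (nat_lit 1)) (.slot (nat_lit 1))) (.node (.col (nat_lit 2)) (.slot (nat_lit 1)) (.slot (nat_lit 0))) (.node (.slot (nat_lit 0)) (.slot (nat_lit 0)) (.slot (nat_lit 0)))) (.slot (nat_lit 1))) (.node (.col (nat_lit 1)) (.slot (nat_lit 0)) (.slot (nat_lit 0)))
def w23737 : Root := .mk (.col (nat_lit 1)) (.col (nat_lit 4)) (.node (.col (nat_lit 0)) (.node (.node (.col (nat_lit 3)) (.slot (nat_lit 3)) (.slot (nat_lit 1))) (.node (.col (nat_lit 2)) (.slot (nat_lit 0)) (.slot (nat_lit 0))) (.slot (nat_lit 2))) (.slot (nat_lit 3))) (.node (.col (nat_lit 1)) (.col (nat_lit 4)) (.slot (nat_lit 0)))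
def l5346 : Root := .mk (.col (nat_lit 1)) (.col (nat_lit 4)) (.node (.col (nat_lit 0)) (.node (.node (.col (nat_lit 3)) (.slot (nat_lit 21)) (.slot (nat_lit 21))) (.node (.col (nat_lit 2)) (.slot (nat_lit 20)) (.slot (nat_lit 12))) (.slot (nat_lit 21))) (.slot (nat_lit 21))) (.node (.col (nat_lit 1)) (.slot (nat_lit 3)) (.slot (nat_lit 1)))
def w23738 : Root := .mk (.col (nat_lit 1)) (.col (nat_lit 4)) (.node (.node (.col (nat_lit 2)) (.slot (nat_lit 0)) (.slot (nat_lit 0))) (.node (.node (.col (nat_lit 3)) (.slot (nat_lit 21)) (.slot (nat_lit 21))) (.node (.col (nat_lit 2)) (.slot (nat_lit 20)) (.slot (nat_lit 12))) (.slot (nat_lit 21))) (.slot (nat_lit 21))) (.node (.col (nat_lit 1)) (.slot (nat_lit 3)) (.slot (nat_lit 1)))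
def w23739 : Root := .mk (.node (.node (.slot (nat_lit 0)) (.node (.node (.col (nat_lit 3)) (.slot (nat_lit 1)) (.slot (nat_lit 1))) (.node (.col (nat_lit 3)) (.slot (nat_lit 1)) (.slot (nat_lit 1))) (.slot (nat_lit 1))) (.slot (nat_lit 1))) (.col (nat_lit 2)) (.slot (nat_lit 8))) (.col (nat_lit 0)) (.col (nat_lit 2)) (.slot (nat_lit 5))
def l5347 : Root := .mk (.col (nat_lit 1)) (.col (nat_lit 4)) (.node (.node (.col (nat_lit 2)) (.node (.col (nat_lit 0)) (.col (nat_lit 2)) (.slot (nat_lit 8))) (.slot (nat_lit 8))) (.node (.node (.col (nat_lit 3)) (.slot (nat_lit 20)) (.slot (nat_lit 12))) (.node (.col (nat_lit 4)) (.slot (nat_lit 20)) (.slot (nat_lit 9))) (.col (nat_lit 2))) (.slot (nat_lit 3))) (.node (.col (nat_lit 1)) (.slot (nat_lit 3)) (.slot (nat_lit 1)))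
def w23740 : Root := .mk (.col (nat_lit 1)) (.col (nat_lit 4)) (.node (.node (.col (nat_lit 2)) (.node (.col (nat_lit 0)) (.col (nat_lit 2)) (.slot (nat_lit 8))) (.slot (nat_lit 8))) (.node (.node (.col (nat_lit 3)) (.slot (nat_lit 20)) (.slot (nat_lit 12))) (.node (.col (nat_lit 4)) (.slot (nat_lit 20)) (.slot (nat_lit 9))) (.slot (nat_lit 1))) (.slot (nat_lit 3))) (.node (.col (nat_lit 1)) (.slot (nat_lit 3)) (.slot (nat_lit 1)))
def l5348 : Root := .mk (.node (.col (nat_lit 1)) (.col (nat_lit 4)) (.node (.col (nat_lit 1)) (.slot (nat_lit 0)) (.slot (nat_lit 0)))) (.col (nat_lit 3)) (.node (.node (.col (nat_lit 3)) (.slot (nat_lit 1)) (.slot (nat_lit 1))) (.node (.slot (nat_lit 0)) (.slot (nat_lit 0)) (.slot (nat_lit 0))) (.slot (nat_lit 2))) (.col (nat_lit 0))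
def w23741 : Root := .mk (.node (.node (.col (nat_lit 1)) (.col (nat_lit 4)) (.node (.col (nat_lit 1)) (.slot (nat_lit 0)) (.slot (nat_lit 0)))) (.node (.node (.col (nat_lit 3)) (.slot (nat_lit 1)) (.slot (nat_lit 1))) (.node (.slot (nat_lit 0)) (.slot (nat_lit 0)) (.slot (nat_lit 0))) (.slot (nat_lit 2))) (.col (nat_lit 0))) (.col (nat_lit 2)) (.slot (nat_lit 0)) (.col (nat_lit 0))
def l5349 : Root := .mk (.col (nat_lit 3)) (.node (.col (nat_lit 2)) (.node (.col (nat_lit 0)) (.col (nat_lit 2)) (.slot (nat_lit 1))) (.slot (nat_lit 1))) (.node (.node (.col (nat_lit 3)) (.slot (nat_lit 1)) (.slot (nat_lit 1))) (.node (.slot (nat_lit 0)) (.slot (nat_lit 1)) (.slot (nat_lit 1))) (.col (nat_lit 2))) (.col (nat_lit 0))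
def w23742 : Root := .mk (.col (nat_lit 1)) (.col (nat_lit 4)) (.node (.node (.col (nat_lit 2)) (.node (.col (nat_lit 0)) (.col (nat_lit 2)) (.slot (nat_lit 1))) (.slot (nat_lit 1))) (.node (.node (.col (nat_lit 3)) (.slot (nat_lit 1)) (.slot (nat_lit 1))) (.node (.slot (nat_lit 0)) (.slot (nat_lit 1)) (.slot (nat_lit 1))) (.col (nat_lit 2))) (.col (nat_lit 0))) (.slot (nat_lit 0))
def l5350 : Root := .mk (.col (nat_lit 1)) (.col (nat_lit 4)) (.node (.node (.col (nat_lit 2)) (.node (.col (nat_lit 0)) (.col (nat_lit 2)) (.slot (nat_lit 5))) (.slot (nat_lit 8))) (.node (.node (.col (nat_lit 3)) (.slot (nat_lit 3)) (.slot (nat_lit 3))) (.node (.slot (nat_lit 0)) (.slot (nat_lit 1)) (.slot (nat_lit 1))) (.slot (nat_lit 4))) (.col (nat_lit 0))) (.node (.col (nat_lit 1)) (.slot (nat_lit 0)) (.slot (nat_lit 0)))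
def w23743 : Root := .mk (.col (nat_lit 1)) (.col (nat_lit 4)) (.node (.node (.col (nat_lit 2)) (.node (.col (nat_lit 0)) (.col (nat_lit 2)) (.slot (nat_lit 5))) (.slot (nat_lit 8))) (.node (.node (.col (nat_lit 3)) (.slot (nat_lit 3)) (.slot (nat_lit 3))) (.node (.slot (nat_lit 0)) (.slot (nat_lit 1)) (.slot (nat_lit 1))) (.slot (nat_lit 4))) (.slot (nat_lit 1))) (.node (.col (nat_lit 1)) (.slot (nat_lit 0)) (.slot (nat_lit 0)))
def l5351 : Root := .mk (.col (nat_lit 1)) (.col (nat_lit 4)) (.node (.node (.col (nat_lit 2)) (.node (.col (nat_lit 0)) (.col (nat_lit 2)) (.slot (nat_lit 5))) (.slot (nat_lit 8))) (.node (.node (.col (nat_lit 3)) (.col (nat_lit 0)) (.slot (nat_lit 21))) (.slot (nat_lit 20)) (.slot (nat_lit 9))) (.col (nat_lit 0))) (.node (.col (nat_lit 1)) (.slot (nat_lit 0)) (.slot (nat_lit 0)))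
def w23744 : Root := .mk (.col (nat_lit 1)) (.col (nat_lit 4)) (.node (.node (.col (nat_lit 2)) (.node (.col (nat_lit 0)) (.col (nat_lit 2)) (.slot (nat_lit 5))) (.slot (nat_lit 8))) (.node (.node (.col (nat_lit 3)) (.col (nat_lit 0)) (.slot (nat_lit 21))) (.slot (nat_lit 20)) (.slot (nat_lit 9))) (.slot (nat_lit 1))) (.node (.col (nat_lit 1)) (.slot (nat_lit 0)) (.slot (nat_lit 0)))
def w23745 : Root := .mk (.node (.node (.slot (nat_lit 0)) (.node (.col (nat_lit 2)) (.node (.col (nat_lit 0)) (.col (nat_lit 2)) (.slot (nat_lit 5))) (.slot (nat_lit 8))) (.slot (nat_lit 1))) (.slot (nat_lit 1)) (.slot (nat_lit 1))) (.col (nat_lit 3)) (.col (nat_lit 1)) (.slot (nat_lit 2))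
def w23746 : Root := .mk (.node (.node (.slot (nat_lit 0)) (.node (.node (.col (nat_lit 3)) (.node (.col (nat_lit 0)) (.slot (nat_lit 1)) (.slot (nat_lit 1))) (.slot (nat_lit 1))) (.slot (nat_lit 1)) (.slot (nat_lit 1))) (.slot (nat_lit 1))) (.col (nat_lit 2)) (.slot (nat_lit 8))) (.col (nat_lit 0)) (.col (nat_lit 2)) (.slot (nat_lit 5))
def w23747 : Root := .mk (.col (nat_lit 1)) (.col (nat_lit 4)) (.node (.node (.col (nat_lit 2)) (.slot (nat_lit 0)) (.slot (nat_lit 0))) (.node (.node (.col (nat_lit 3)) (.node (.col (nat_lit 1)) (.slot (nat_lit 8)) (.slot (nat_lit 8))) (.slot (nat_lit 8))) (.slot (nat_lit 8)) (.slot (nat_lit 8))) (.slot (nat_lit 9))) (.node (.col (nat_lit 1)) (.slot (nat_lit 5)) (.slot (nat_lit 1)))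
def l5352 : Root := .mk (.col (nat_lit 1)) (.col (nat_lit 4)) (.node (.node (.col (nat_lit 2)) (.node (.col (nat_lit 0)) (.col (nat_lit 2)) (.slot (nat_lit 5))) (.slot (nat_lit 8))) (.node (.node (.col (nat_lit 3)) (.node (.col (nat_lit 2)) (.slot (nat_lit 7)) (.slot (nat_lit 5))) (.slot (nat_lit 8))) (.slot (nat_lit 2)) (.slot (nat_lit 2))) (.col (nat_lit 0))) (.node (.col (nat_lit 1)) (.slot (nat_lit 3)) (.slot (nat_lit 1)))
def w23748 : Root := .mk (.col (nat_lit 1)) (.col (nat_lit 4)) (.node (.node (.col (nat_lit 2)) (.node (.col (nat_lit 0)) (.col (nat_lit 2)) (.slot (nat_lit 5))) (.slot (nat_lit 8))) (.node (.node (.col (nat_lit 3)) (.node (.col (nat_lit 2)) (.slot (nat_lit 7)) (.slot (nat_lit 5))) (.slot (nat_lit 8))) (.slot (nat_lit 2)) (.slot (nat_lit 2))) (.slot (nat_lit 1))) (.node (.col (nat_lit 1)) (.slot (nat_lit 3)) (.slot (nat_lit 1)))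
def w23749 : Root := .mk (.col (nat_lit 1)) (.col (nat_lit 4)) (.node (.node (.col (nat_lit 2)) (.node (.col (nat_lit 0)) (.col (nat_lit 2)) (.slot (nat_lit 2))) (.slot (nat_lit 8))) (.node (.node (.col (nat_lit 3)) (.node (.col (nat_lit 3)) (.slot (nat_lit 0)) (.slot (nat_lit 0))) (.slot (nat_lit 2))) (.slot (nat_lit 3)) (.slot (nat_lit 1))) (.slot (nat_lit 1))) (.node (.col (nat_lit 1)) (.slot (nat_lit 0)) (.slot (nat_lit 0)))
def w23750 : Root := .mk (.col (nat_lit 1)) (.col (nat_lit 4)) (.node (.node (.col (nat_lit 2)) (.slot (nat_lit 0)) (.slot (nat_lit 0))) (.node (.node (.col (nat_lit 3)) (.node (.col (nat_lit 4)) (.slot (nat_lit 8)) (.slot (nat_lit 8))) (.slot (nat_lit 8))) (.slot (nat_lit 8)) (.slot (nat_lit 8))) (.slot (nat_lit 9))) (.node (.col (nat_lit 1)) (.slot (nat_lit 3)) (.slot (nat_lit 1)))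
def l5353 : Root := .mk (.col (nat_lit 1)) (.col (nat_lit 4)) (.node (.col (nat_lit 4)) (.node (.node (.col (nat_lit 3)) (.slot (nat_lit 0)) (.slot (nat_lit 0))) (.slot (nat_lit 3)) (.slot (nat_lit 3))) (.col (nat_lit 0))) (.node (.col (nat_lit 1)) (.col (nat_lit 0)) (.slot (nat_lit 4)))
def w23755 : Root := .mk (.node (.col (nat_lit 1)) (.col (nat_lit 4)) (.node (.col (nat_lit 1)) (.slot (nat_lit 1)) (.slot (nat_lit 4)))) (.col (nat_lit 4)) (.node (.node (.col (nat_lit 3)) (.slot (nat_lit 0)) (.slot (nat_lit 0))) (.slot (nat_lit 3)) (.slot (nat_lit 3))) (.col (nat_lit 0))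
def l5354 : Root := .mk (.col (nat_lit 1)) (.col (nat_lit 4)) (.node (.node (.col (nat_lit 2)) (.node (.col (nat_lit 0)) (.col (nat_lit 2)) (.slot (nat_lit 5))) (.slot (nat_lit 8))) (.node (.node (.col (nat_lit 3)) (.node (.slot (nat_lit 0)) (.slot (nat_lit 0)) (.slot (nat_lit 0))) (.slot (nat_lit 1))) (.slot (nat_lit 20)) (.slot (nat_lit 9))) (.col (nat_lit 0))) (.node (.col (nat_lit 1)) (.slot (nat_lit 4)) (.slot (nat_lit 1)))
def w23756 : Root := .mk (.col (nat_lit 1)) (.col (nat_lit 4)) (.node (.node (.col (nat_lit 2)) (.node (.col (nat_lit 0)) (.col (nat_lit 2)) (.slot (nat_lit 5))) (.slot (nat_lit 8))) (.node (.node (.col (nat_lit 3)) (.node (.slot (nat_lit 0)) (.slot (nat_lit 0)) (.slot (nat_lit 0))) (.slot (nat_lit 1))) (.slot (nat_lit 20)) (.slot (nat_lit 9))) (.slot (nat_lit 1))) (.node (.col (nat_lit 1)) (.slot (nat_lit 4)) (.slot (nat_lit 1)))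
def l5355 : Root := .mk (.col (nat_lit 1)) (.col (nat_lit 4)) (.node (.node (.col (nat_lit 2)) (.node (.col (nat_lit 0)) (.col (nat_lit 2)) (.slot (nat_lit 21))) (.slot (nat_lit 21))) (.node (.node (.col (nat_lit 3)) (.slot (nat_lit 21)) (.slot (nat_lit 21))) (.slot (nat_lit 21)) (.slot (nat_lit 21))) (.slot (nat_lit 21))) (.node (.col (nat_lit 1)) (.slot (nat_lit 8)) (.slot (nat_lit 8)))
def w23757 : Root := .mk (.col (nat_lit 1)) (.node (.col (nat_lit 1)) (.slot (nat_lit 0)) (.slot (nat_lit 0))) (.node (.node (.col (nat_lit 2)) (.node (.col (nat_lit 0)) (.col (nat_lit 2)) (.slot (nat_lit 21))) (.slot (nat_lit 21))) (.node (.node (.col (nat_lit 3)) (.slot (nat_lit 21)) (.slot (nat_lit 21))) (.slot (nat_lit 21)) (.slot (nat_lit 21))) (.slot (nat_lit 21))) (.node (.col (nat_lit 1)) (.slot (nat_lit 8)) (.slot (nat_lit 8)))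
def w23758 : Root := .mk (.col (nat_lit 1)) (.node (.col (nat_lit 1)) (.slot (nat_lit 8)) (.slot (nat_lit 8))) (.node (.node (.col (nat_lit 2)) (.node (.col (nat_lit 0)) (.col (nat_lit 2)) (.slot (nat_lit 21))) (.slot (nat_lit 21))) (.node (.node (.col (nat_lit 3)) (.slot (nat_lit 21)) (.slot (nat_lit 21))) (.slot (nat_lit 21)) (.slot (nat_lit 21))) (.slot (nat_lit 21))) (.node (.slot (nat_lit 0)) (.slot (nat_lit 0)) (.slot (nat_lit 0)))
def l5356 : Root := .mk (.node (.node (.col (nat_lit 1)) (.node (.col (nat_lit 1)) (.slot (nat_lit 5)) (.slot (nat_lit 1))) (.col (nat_lit 3))) (.node (.node (.col (nat_lit 3)) (.slot (nat_lit 1)) (.slot (nat_lit 1))) (.slot (nat_lit 2)) (.slot (nat_lit 1))) (.slot (nat_lit 3))) (.col (nat_lit 2)) (.col (nat_lit 3)) (.node (.col (nat_lit 0)) (.slot (nat_lit 20)) (.slot (nat_lit 9)))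
def w23759 : Root := .mk (.col (nat_lit 1)) (.node (.col (nat_lit 1)) (.slot (nat_lit 5)) (.slot (nat_lit 1))) (.node (.node (.col (nat_lit 2)) (.col (nat_lit 3)) (.slot (nat_lit 21))) (.node (.node (.col (nat_lit 3)) (.slot (nat_lit 1)) (.slot (nat_lit 1))) (.slot (nat_lit 2)) (.slot (nat_lit 1))) (.slot (nat_lit 3))) (.col (nat_lit 3))
def w23760 : Root := .mk (.node (.col (nat_lit 1)) (.node (.node (.col (nat_lit 2)) (.col (nat_lit 3)) (.slot (nat_lit 2))) (.node (.slot (nat_lit 0)) (.slot (nat_lit 0)) (.slot (nat_lit 0))) (.slot (nat_lit 8))) (.node (.col (nat_lit 0)) (.slot (nat_lit 20)) (.slot (nat_lit 9)))) (.col (nat_lit 1)) (.col (nat_lit 2)) (.slot (nat_lit 0))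
def w23761 : Root := .mk (.node (.col (nat_lit 1)) (.node (.node (.col (nat_lit 2)) (.col (nat_lit 3)) (.slot (nat_lit 2))) (.node (.slot (nat_lit 0)) (.slot (nat_lit 0)) (.slot (nat_lit 0))) (.slot (nat_lit 8))) (.node (.col (nat_lit 0)) (.slot (nat_lit 20)) (.slot (nat_lit 9)))) (.col (nat_lit 1)) (.col (nat_lit 4)) (.slot (nat_lit 0))
def w23763 : Root := .mk (.node (.col (nat_lit 1)) (.node (.col (nat_lit 1)) (.slot (nat_lit 3)) (.slot (nat_lit 1))) (.node (.node (.col (nat_lit 2)) (.col (nat_lit 3)) (.slot (nat_lit 2))) (.node (.slot (nat_lit 0)) (.slot (nat_lit 0)) (.slot (nat_lit 0))) (.slot (nat_lit 1)))) (.col (nat_lit 0)) (.col (nat_lit 1)) (.slot (nat_lit 3))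
def l5357 : Root := .mk (.node (.node (.col (nat_lit 1)) (.col (nat_lit 2)) (.node (.col (nat_lit 0)) (.node (.col (nat_lit 0)) (.slot (nat_lit 0)) (.slot (nat_lit 0))) (.slot (nat_lit 1)))) (.node (.slot (nat_lit 0)) (.slot (nat_lit 0)) (.slot (nat_lit 0))) (.col (nat_lit 2))) (.col (nat_lit 2)) (.col (nat_lit 3)) (.node (.col (nat_lit 4)) (.slot (nat_lit 20)) (.slot (nat_lit 9)))
def w23764 : Root := .mk (.col (nat_lit 1)) (.col (nat_lit 2)) (.node (.node (.col (nat_lit 2)) (.col (nat_lit 3)) (.slot (nat_lit 21))) (.node (.slot (nat_lit 0)) (.slot (nat_lit 0)) (.slot (nat_lit 0))) (.col (nat_lit 2))) (.node (.col (nat_lit 0)) (.node (.col (nat_lit 0)) (.slot (nat_lit 0)) (.slot (nat_lit 0))) (.slot (nat_lit 1)))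
def l5358 : Root := .mk (.col (nat_lit 1)) (.col (nat_lit 2)) (.node (.node (.col (nat_lit 2)) (.col (nat_lit 3)) (.slot (nat_lit 21))) (.node (.node (.col (nat_lit 3)) (.slot (nat_lit 3)) (.slot (nat_lit 1))) (.slot (nat_lit 1)) (.slot (nat_lit 1))) (.slot (nat_lit 8))) (.node (.col (nat_lit 0)) (.node (.col (nat_lit 0)) (.slot (nat_lit 0)) (.slot (nat_lit 0))) (.slot (nat_lit 2)))
def w23765 : Root := .mk (.col (nat_lit 1)) (.node (.col (nat_lit 1)) (.slot (nat_lit 0)) (.slot (nat_lit 0))) (.node (.node (.col (nat_lit 2)) (.col (nat_lit 3)) (.slot (nat_lit 21))) (.node (.node (.col (nat_lit 3)) (.slot (nat_lit 3)) (.slot (nat_lit 1))) (.slot (nat_lit 1)) (.slot (nat_lit 1))) (.slot (nat_lit 8))) (.node (.col (nat_lit 0)) (.node (.col (nat_lit 0)) (.slot (nat_lit 0)) (.slot (nat_lit 0))) (.slot (nat_lit 2)))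
def l5359 : Root := .mk (.col (nat_lit 1)) (.col (nat_lit 2)) (.node (.col (nat_lit 1)) (.node (.node (.col (nat_lit 3)) (.slot (nat_lit 7)) (.slot (nat_lit 5))) (.col (nat_lit 4)) (.slot (nat_lit 4))) (.slot (nat_lit 3))) (.node (.col (nat_lit 0)) (.node (.slot (nat_lit 0)) (.slot (nat_lit 0)) (.slot (nat_lit 0))) (.slot (nat_lit 1)))
def w23766 : Root := .mk (.col (nat_lit 1)) (.col (nat_lit 2)) (.node (.col (nat_lit 1)) (.node (.node (.col (nat_lit 3)) (.slot (nat_lit 7)) (.slot (nat_lit 5))) (.slot (nat_lit 1)) (.slot (nat_lit 4))) (.slot (nat_lit 3))) (.node (.col (nat_lit 0)) (.node (.slot (nat_lit 0)) (.slot (nat_lit 0)) (.slot (nat_lit 0))) (.slot (nat_lit 1)))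
def l5360 : Root := .mk (.col (nat_lit 1)) (.col (nat_lit 2)) (.node (.node (.col (nat_lit 2)) (.col (nat_lit 3)) (.slot (nat_lit 3))) (.node (.node (.col (nat_lit 3)) (.slot (nat_lit 7)) (.slot (nat_lit 5))) (.slot (nat_lit 4)) (.slot (nat_lit 1))) (.slot (nat_lit 8))) (.node (.col (nat_lit 0)) (.node (.slot (nat_lit 0)) (.slot (nat_lit 0)) (.slot (nat_lit 0))) (.slot (nat_lit 1)))
def w23767 : Root := .mk (.col (nat_lit 1)) (.node (.col (nat_lit 1)) (.slot (nat_lit 0)) (.slot (nat_lit 0))) (.node (.node (.col (nat_lit 2)) (.col (nat_lit 3)) (.slot (nat_lit 3))) (.node (.node (.col (nat_lit 3)) (.slot (nat_lit 7)) (.slot (nat_lit 5))) (.slot (nat_lit 4)) (.slot (nat_lit 1))) (.slot (nat_lit 8))) (.node (.col (nat_lit 0)) (.node (.slot (nat_lit 0)) (.slot (nat_lit 0)) (.slot (nat_lit 0))) (.slot (nat_lit 1)))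
def l5361 : Root := .mk (.col (nat_lit 1)) (.node (.col (nat_lit 1)) (.slot (nat_lit 20)) (.slot (nat_lit 10))) (.node (.node (.col (nat_lit 2)) (.col (nat_lit 3)) (.slot (nat_lit 21))) (.node (.node (.col (nat_lit 3)) (.slot (nat_lit 7)) (.slot (nat_lit 5))) (.slot (nat_lit 20)) (.slot (nat_lit 9))) (.slot (nat_lit 8))) (.node (.col (nat_lit 0)) (.slot (nat_lit 20)) (.slot (nat_lit 12)))
def w23768 : Root := .mk (.node (.node (.col (nat_lit 1)) (.node (.col (nat_lit 1)) (.slot (nat_lit 20)) (.slot (nat_lit 10))) (.slot (nat_lit 21))) (.node (.node (.col (nat_lit 3)) (.slot (nat_lit 7)) (.slot (nat_lit 5))) (.slot (nat_lit 20)) (.slot (nat_lit 9))) (.slot (nat_lit 8))) (.col (nat_lit 2)) (.col (nat_lit 3)) (.slot (nat_lit 21))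
def w23769 : Root := .mk (.node (.col (nat_lit 3)) (.node (.col (nat_lit 1)) (.col (nat_lit 3)) (.slot (nat_lit 2))) (.slot (nat_lit 8))) (.col (nat_lit 2)) (.node (.col (nat_lit 0)) (.col (nat_lit 2)) (.slot (nat_lit 0))) (.col (nat_lit 0))
def w23770 : Root := .mk (.node (.col (nat_lit 3)) (.node (.node (.col (nat_lit 3)) (.col (nat_lit 4)) (.slot (nat_lit 3))) (.col (nat_lit 3)) (.slot (nat_lit 1))) (.slot (nat_lit 3))) (.col (nat_lit 2)) (.node (.col (nat_lit 0)) (.col (nat_lit 2)) (.slot (nat_lit 0))) (.col (nat_lit 0))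
def w23771 : Root := .mk (.node (.col (nat_lit 3)) (.node (.node (.col (nat_lit 3)) (.node (.col (nat_lit 1)) (.slot (nat_lit 1)) (.slot (nat_lit 1))) (.slot (nat_lit 2))) (.col (nat_lit 3)) (.node (.col (nat_lit 3)) (.slot (nat_lit 0)) (.slot (nat_lit 0)))) (.slot (nat_lit 1))) (.col (nat_lit 2)) (.node (.col (nat_lit 0)) (.col (nat_lit 2)) (.slot (nat_lit 0))) (.col (nat_lit 0))
def w23772 : Root := .mk (.col (nat_lit 3)) (.node (.col (nat_lit 2)) (.node (.col (nat_lit 0)) (.col (nat_lit 2)) (.slot (nat_lit 0))) (.col (nat_lit 0))) (.node (.node (.col (nat_lit 3)) (.node (.col (nat_lit 1)) (.slot (nat_lit 1)) (.slot (nat_lit 1))) (.slot (nat_lit 2))) (.col (nat_lit 3)) (.slot (nat_lit 2))) (.col (nat_lit 0))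
def w23773 : Root := .mk (.node (.col (nat_lit 3)) (.node (.node (.col (nat_lit 3)) (.node (.col (nat_lit 1)) (.slot (nat_lit 1)) (.slot (nat_lit 1))) (.slot (nat_lit 2))) (.col (nat_lit 3)) (.slot (nat_lit 1))) (.node (.col (nat_lit 4)) (.slot (nat_lit 0)) (.slot (nat_lit 0)))) (.col (nat_lit 2)) (.node (.col (nat_lit 0)) (.col (nat_lit 2)) (.slot (nat_lit 0))) (.col (nat_lit 0))
def l5362 : Root := .mk (.node (.col (nat_lit 3)) (.node (.node (.col (nat_lit 3)) (.node (.col (nat_lit 1)) (.slot (nat_lit 8)) (.slot (nat_lit 8))) (.slot (nat_lit 8))) (.col (nat_lit 3)) (.slot (nat_lit 8))) (.slot (nat_lit 8))) (.col (nat_lit 2)) (.node (.col (nat_lit 0)) (.col (nat_lit 2)) (.slot (nat_lit 0))) (.col (nat_lit 0))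
def w23774 : Root := .mk (.node (.col (nat_lit 3)) (.node (.node (.col (nat_lit 3)) (.slot (nat_lit 9)) (.slot (nat_lit 8))) (.col (nat_lit 3)) (.slot (nat_lit 8))) (.slot (nat_lit 8))) (.col (nat_lit 2)) (.node (.col (nat_lit 0)) (.col (nat_lit 2)) (.slot (nat_lit 0))) (.col (nat_lit 0))
def w23775 : Root := .mk (.node (.col (nat_lit 3)) (.node (.node (.col (nat_lit 3)) (.slot (nat_lit 1)) (.slot (nat_lit 1))) (.node (.col (nat_lit 1)) (.slot (nat_lit 0)) (.slot (nat_lit 0))) (.slot (nat_lit 3))) (.slot (nat_lit 1))) (.col (nat_lit 2)) (.node (.col (nat_lit 0)) (.col (nat_lit 2)) (.slot (nat_lit 0))) (.col (nat_lit 0))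
def l5363 : Root := .mk (.node (.col (nat_lit 3)) (.node (.col (nat_lit 2)) (.node (.col (nat_lit 0)) (.col (nat_lit 2)) (.slot (nat_lit 0))) (.col (nat_lit 0))) (.col (nat_lit 0))) (.node (.col (nat_lit 3)) (.node (.col (nat_lit 3)) (.slot (nat_lit 0)) (.slot (nat_lit 0))) (.slot (nat_lit 1))) (.col (nat_lit 0)) (.col (nat_lit 2))
def w23776 : Root := .mk (.col (nat_lit 3)) (.node (.col (nat_lit 2)) (.node (.col (nat_lit 0)) (.col (nat_lit 2)) (.slot (nat_lit 0))) (.col (nat_lit 0))) (.node (.node (.col (nat_lit 3)) (.node (.col (nat_lit 3)) (.slot (nat_lit 0)) (.slot (nat_lit 0))) (.slot (nat_lit 1))) (.col (nat_lit 0)) (.slot (nat_lit 1))) (.col (nat_lit 0))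
def l5364 : Root := .mk (.node (.col (nat_lit 3)) (.node (.node (.col (nat_lit 3)) (.node (.col (nat_lit 3)) (.slot (nat_lit 0)) (.slot (nat_lit 0))) (.slot (nat_lit 2))) (.col (nat_lit 0)) (.slot (nat_lit 3))) (.slot (nat_lit 1))) (.col (nat_lit 2)) (.node (.col (nat_lit 0)) (.col (nat_lit 2)) (.slot (nat_lit 0))) (.col (nat_lit 0))
def w23777 : Root := .mk (.node (.col (nat_lit 3)) (.node (.node (.col (nat_lit 3)) (.node (.col (nat_lit 3)) (.slot (nat_lit 0)) (.slot (nat_lit 0))) (.slot (nat_lit 2))) (.slot (nat_lit 1)) (.slot (nat_lit 3))) (.slot (nat_lit 1))) (.col (nat_lit 2)) (.node (.col (nat_lit 0)) (.col (nat_lit 2)) (.slot (nat_lit 0))) (.col (nat_lit 0))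
def l5365 : Root := .mk (.node (.col (nat_lit 3)) (.node (.node (.col (nat_lit 3)) (.slot (nat_lit 12)) (.slot (nat_lit 10))) (.slot (nat_lit 8)) (.slot (nat_lit 8))) (.slot (nat_lit 8))) (.col (nat_lit 2)) (.node (.col (nat_lit 0)) (.col (nat_lit 2)) (.slot (nat_lit 0))) (.col (nat_lit 0))
def w23778 : Root := .mk (.node (.node (.col (nat_lit 1)) (.slot (nat_lit 0)) (.slot (nat_lit 0))) (.node (.node (.col (nat_lit 3)) (.slot (nat_lit 12)) (.slot (nat_lit 10))) (.slot (nat_lit 8)) (.slot (nat_lit 8))) (.slot (nat_lit 8))) (.col (nat_lit 2)) (.node (.col (nat_lit 0)) (.col (nat_lit 2)) (.slot (nat_lit 0))) (.col (nat_lit 0))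
def w23779 : Root := .mk (.node (.node (.col (nat_lit 1)) (.slot (nat_lit 0)) (.slot (nat_lit 0))) (.node (.col (nat_lit 2)) (.node (.col (nat_lit 0)) (.col (nat_lit 2)) (.slot (nat_lit 1))) (.node (.col (nat_lit 1)) (.slot (nat_lit 1)) (.slot (nat_lit 1)))) (.slot (nat_lit 1))) (.col (nat_lit 2)) (.col (nat_lit 0)) (.slot (nat_lit 3))
def w23780 : Root := .mk (.node (.node (.col (nat_lit 1)) (.slot (nat_lit 0)) (.slot (nat_lit 0))) (.node (.col (nat_lit 2)) (.node (.col (nat_lit 0)) (.col (nat_lit 2)) (.slot (nat_lit 1))) (.node (.col (nat_lit 1)) (.slot (nat_lit 1)) (.slot (nat_lit 1)))) (.slot (nat_lit 1))) (.col (nat_lit 4)) (.col (nat_lit 0)) (.slot (nat_lit 3))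
def w23781 : Root := .mk (.node (.node (.col (nat_lit 1)) (.node (.col (nat_lit 1)) (.slot (nat_lit 0)) (.slot (nat_lit 0))) (.slot (nat_lit 2))) (.node (.col (nat_lit 2)) (.node (.col (nat_lit 0)) (.col (nat_lit 2)) (.slot (nat_lit 1))) (.node (.col (nat_lit 1)) (.slot (nat_lit 1)) (.slot (nat_lit 1)))) (.slot (nat_lit 2))) (.node (.col (nat_lit 3)) (.slot (nat_lit 0)) (.slot (nat_lit 0))) (.col (nat_lit 0)) (.col (nat_lit 3))
def w23782 : Root := .mk (.node (.node (.col (nat_lit 1)) (.slot (nat_lit 0)) (.slot (nat_lit 0))) (.node (.col (nat_lit 2)) (.node (.col (nat_lit 0)) (.col (nat_lit 2)) (.slot (nat_lit 1))) (.node (.col (nat_lit 1)) (.slot (nat_lit 1)) (.slot (nat_lit 1)))) (.slot (nat_lit 1))) (.node (.col (nat_lit 3)) (.slot (nat_lit 2)) (.slot (nat_lit 1))) (.col (nat_lit 0)) (.node (.slot (nat_lit 0)) (.slot (nat_lit 0)) (.slot (nat_lit 0)))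
def w23783 : Root := .mk (.node (.col (nat_lit 1)) .junk (.slot (nat_lit 1))) (.node (.col (nat_lit 2)) (.node (.col (nat_lit 0)) (.col (nat_lit 2)) (.slot (nat_lit 1))) (.node (.col (nat_lit 1)) (.slot (nat_lit 1)) (.slot (nat_lit 1)))) (.node (.node (.col (nat_lit 3)) (.slot (nat_lit 1)) (.slot (nat_lit 1))) (.col (nat_lit 0)) (.slot (nat_lit 2))) (.col (nat_lit 0))
def w23784 : Root := .mk (.slot (nat_lit 0)) (.node (.col (nat_lit 2)) (.node (.col (nat_lit 0)) (.col (nat_lit 2)) (.slot (nat_lit 1))) (.node (.col (nat_lit 1)) (.slot (nat_lit 1)) (.slot (nat_lit 1)))) (.node (.node (.col (nat_lit 3)) (.slot (nat_lit 3)) (.slot (nat_lit 1))) (.col (nat_lit 0)) (.slot (nat_lit 1))) (.col (nat_lit 4))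
def w23785 : Root := .mk (.node (.node (.col (nat_lit 1)) (.slot (nat_lit 0)) (.slot (nat_lit 0))) (.node (.node (.col (nat_lit 3)) (.slot (nat_lit 7)) (.slot (nat_lit 5))) (.col (nat_lit 0)) (.slot (nat_lit 8))) (.slot (nat_lit 0))) (.col (nat_lit 2)) (.node (.col (nat_lit 0)) (.col (nat_lit 2)) (.slot (nat_lit 1))) (.node (.col (nat_lit 1)) (.slot (nat_lit 1)) (.slot (nat_lit 1)))
def w23786 : Root := .mk (.node (.node (.slot (nat_lit 0)) (.node (.col (nat_lit 2)) (.node (.col (nat_lit 0)) (.col (nat_lit 2)) (.slot (nat_lit 1))) (.node (.col (nat_lit 1)) (.slot (nat_lit 1)) (.slot (nat_lit 1)))) (.slot (nat_lit 1))) (.col (nat_lit 0)) (.slot (nat_lit 8))) (.col (nat_lit 3)) (.col (nat_lit 0)) (.slot (nat_lit 5))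
def w23787 : Root := .mk (.node (.node (.col (nat_lit 1)) (.slot (nat_lit 0)) (.slot (nat_lit 0))) (.node (.node (.col (nat_lit 3)) (.node (.col (nat_lit 3)) (.slot (nat_lit 0)) (.slot (nat_lit 0))) (.slot (nat_lit 2))) (.col (nat_lit 0)) (.slot (nat_lit 2))) (.slot (nat_lit 2))) (.col (nat_lit 2)) (.node (.col (nat_lit 0)) (.col (nat_lit 2)) (.slot (nat_lit 0))) (.node (.col (nat_lit 1)) (.slot (nat_lit 1)) (.slot (nat_lit 1)))
def w23788 : Root := .mk (.node (.node (.node (.col (nat_lit 1)) (.slot (nat_lit 0)) (.slot (nat_lit 0))) (.node (.node (.col (nat_lit 3)) (.slot (nat_lit 1)) (.slot (nat_lit 1))) (.col (nat_lit 0)) (.slot (nat_lit 2))) (.slot (nat_lit 2))) (.col (nat_lit 2)) (.node (.col (nat_lit 1)) (.slot (nat_lit 1)) (.slot (nat_lit 1)))) (.col (nat_lit 0)) (.col (nat_lit 2)) (.col (nat_lit 4))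
def w23789 : Root := .mk (.node (.node (.node (.col (nat_lit 1)) (.slot (nat_lit 0)) (.slot (nat_lit 0))) (.node (.node (.col (nat_lit 3)) (.slot (nat_lit 2)) (.slot (nat_lit 1))) (.col (nat_lit 0)) (.slot (nat_lit 1))) (.slot (nat_lit 1))) (.col (nat_lit 2)) (.node (.col (nat_lit 1)) (.slot (nat_lit 1)) (.slot (nat_lit 1)))) (.col (nat_lit 0)) (.col (nat_lit 2)) (.node (.col (nat_lit 0)) (.slot (nat_lit 0)) (.slot (nat_lit 0)))
def w23790 : Root := .mk (.node (.node (.col (nat_lit 1)) (.node (.col (nat_lit 1)) (.slot (nat_lit 0)) (.slot (nat_lit 0))) (.slot (nat_lit 2))) (.col (nat_lit 4)) (.slot (nat_lit 2))) (.col (nat_lit 2)) (.node (.col (nat_lit 0)) .junk (.col (nat_lit 1))) (.node (.col (nat_lit 1)) (.col (nat_lit 2)) (.slot (nat_lit 0)))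
def w23791 : Root := .mk (.node (.node (.node (.col (nat_lit 1)) (.node (.col (nat_lit 1)) (.slot (nat_lit 0)) (.slot (nat_lit 0))) (.slot (nat_lit 1))) (.col (nat_lit 4)) (.slot (nat_lit 2))) (.col (nat_lit 2)) (.node (.col (nat_lit 1)) (.col (nat_lit 2)) (.slot (nat_lit 1)))) (.col (nat_lit 0)) (.col (nat_lit 2)) (.col (nat_lit 4))
def w23792 : Root := .mk (.node (.node (.node (.col (nat_lit 1)) (.slot (nat_lit 0)) (.slot (nat_lit 1))) (.col (nat_lit 4)) (.slot (nat_lit 1))) (.col (nat_lit 2)) (.node (.col (nat_lit 1)) (.col (nat_lit 2)) (.slot (nat_lit 0)))) (.col (nat_lit 0)) (.col (nat_lit 2)) (.node (.col (nat_lit 3)) .junk (.slot (nat_lit 1)))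
def l5366 : Root := .mk (.node (.node (.node (.col (nat_lit 1)) (.node (.col (nat_lit 1)) (.slot (nat_lit 0)) (.slot (nat_lit 0))) (.slot (nat_lit 2))) (.col (nat_lit 4)) (.slot (nat_lit 2))) (.col (nat_lit 2)) (.node (.col (nat_lit 1)) (.col (nat_lit 2)) (.slot (nat_lit 1)))) (.col (nat_lit 0)) (.col (nat_lit 2)) (.node (.col (nat_lit 3)) (.slot (nat_lit 20)) (.slot (nat_lit 9)))
def w23793 : Root := .mk (.node (.node (.col (nat_lit 1)) (.node (.col (nat_lit 1)) (.slot (nat_lit 0)) (.slot (nat_lit 0))) (.slot (nat_lit 2))) (.col (nat_lit 4)) (.slot (nat_lit 2))) (.col (nat_lit 2)) (.node (.col (nat_lit 0)) (.col (nat_lit 2)) (.slot (nat_lit 21))) (.node (.col (nat_lit 1)) (.col (nat_lit 2)) (.slot (nat_lit 1)))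
def w23794 : Root := .mk (.node (.node (.node (.col (nat_lit 1)) (.node (.col (nat_lit 1)) (.slot (nat_lit 0)) (.slot (nat_lit 0))) (.slot (nat_lit 2))) (.node (.node (.col (nat_lit 3)) (.slot (nat_lit 1)) (.slot (nat_lit 1))) (.col (nat_lit 0)) (.slot (nat_lit 2))) (.slot (nat_lit 2))) (.col (nat_lit 2)) (.node (.col (nat_lit 0)) (.col (nat_lit 2)) (.slot (nat_lit 21)))) (.col (nat_lit 1)) (.col (nat_lit 2)) (.slot (nat_lit 1))
def w23795 : Root := .mk (.node (.node (.col (nat_lit 1)) (.slot (nat_lit 0)) (.slot (nat_lit 0))) (.node (.node (.col (nat_lit 3)) (.slot (nat_lit 2)) (.slot (nat_lit 1))) (.col (nat_lit 0)) (.slot (nat_lit 1))) (.slot (nat_lit 1))) (.col (nat_lit 2)) (.node (.col (nat_lit 0)) (.col (nat_lit 2)) (.slot (nat_lit 1))) (.node (.col (nat_lit 1)) (.node (.col (nat_lit 0)) (.slot (nat_lit 0)) (.slot (nat_lit 0))) (.slot (nat_lit 1)))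
def w23796 : Root := .mk (.node (.node (.col (nat_lit 1)) (.slot (nat_lit 0)) (.slot (nat_lit 0))) (.node (.node (.col (nat_lit 3)) (.slot (nat_lit 2)) (.slot (nat_lit 1))) (.col (nat_lit 0)) (.slot (nat_lit 1))) (.slot (nat_lit 1))) (.col (nat_lit 2)) (.node (.col (nat_lit 0)) (.col (nat_lit 2)) (.slot (nat_lit 1))) (.node (.col (nat_lit 1)) (.node (.col (nat_lit 1)) (.slot (nat_lit 0)) (.slot (nat_lit 0))) (.slot (nat_lit 1)))
def l5367 : Root := .mk (.node (.node (.col (nat_lit 1)) (.node (.col (nat_lit 1)) (.slot (nat_lit 0)) (.slot (nat_lit 0))) (.slot (nat_lit 3))) (.node (.node (.col (nat_lit 3)) (.slot (nat_lit 20)) (.slot (nat_lit 12))) (.col (nat_lit 0)) (.slot (nat_lit 21))) (.slot (nat_lit 3))) (.col (nat_lit 2)) (.node (.col (nat_lit 0)) (.col (nat_lit 2)) (.slot (nat_lit 21))) (.node (.col (nat_lit 1)) (.slot (nat_lit 3)) (.slot (nat_lit 2)))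
def w23797 : Root := .mk (.node (.node (.col (nat_lit 1)) (.node (.col (nat_lit 1)) (.slot (nat_lit 0)) (.slot (nat_lit 0))) (.slot (nat_lit 3))) (.node (.node (.col (nat_lit 3)) (.slot (nat_lit 20)) (.slot (nat_lit 12))) (.slot (nat_lit 1)) (.slot (nat_lit 21))) (.slot (nat_lit 3))) (.col (nat_lit 2)) (.node (.col (nat_lit 0)) (.col (nat_lit 2)) (.slot (nat_lit 21))) (.node (.col (nat_lit 1)) (.slot (nat_lit 3)) (.slot (nat_lit 2)))
def w23798 : Root := .mk (.node (.node (.col (nat_lit 1)) (.node (.col (nat_lit 1)) (.slot (nat_lit 0)) (.slot (nat_lit 0))) (.slot (nat_lit 2))) (.col (nat_lit 3)) (.slot (nat_lit 2))) (.col (nat_lit 2)) (.node (.col (nat_lit 0)) .junk (.col (nat_lit 1))) (.node (.col (nat_lit 2)) (.slot (nat_lit 0)) (.slot (nat_lit 0)))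
def l5368 : Root := .mk (.node (.node (.node (.col (nat_lit 1)) (.node (.col (nat_lit 1)) (.slot (nat_lit 0)) (.slot (nat_lit 0))) (.slot (nat_lit 2))) (.col (nat_lit 3)) (.slot (nat_lit 3))) (.col (nat_lit 2)) (.node (.col (nat_lit 2)) (.slot (nat_lit 0)) (.slot (nat_lit 0)))) (.col (nat_lit 0)) (.col (nat_lit 2)) (.node (.col (nat_lit 4)) (.slot (nat_lit 20)) (.slot (nat_lit 9)))
def w23799 : Root := .mk (.node (.node (.col (nat_lit 1)) (.node (.col (nat_lit 1)) (.slot (nat_lit 0)) (.slot (nat_lit 0))) (.slot (nat_lit 2))) (.col (nat_lit 3)) (.slot (nat_lit 3))) (.col (nat_lit 2)) (.node (.col (nat_lit 0)) (.col (nat_lit 2)) (.slot (nat_lit 21))) (.node (.col (nat_lit 2)) (.slot (nat_lit 0)) (.slot (nat_lit 0)))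
def w23800 : Root := .mk (.node (.node (.col (nat_lit 1)) (.node (.col (nat_lit 1)) (.slot (nat_lit 0)) (.slot (nat_lit 0))) (.slot (nat_lit 1))) (.node (.col (nat_lit 2)) (.node (.col (nat_lit 0)) (.col (nat_lit 2)) (.slot (nat_lit 5))) (.node (.col (nat_lit 2)) (.slot (nat_lit 0)) (.slot (nat_lit 0)))) (.slot (nat_lit 3))) (.col (nat_lit 2)) (.col (nat_lit 1)) (.slot (nat_lit 3))
def w23801 : Root := .mk (.node (.node (.col (nat_lit 1)) (.slot (nat_lit 0)) (.slot (nat_lit 1))) (.node (.col (nat_lit 2)) (.node (.col (nat_lit 0)) (.col (nat_lit 2)) (.slot (nat_lit 3))) (.node (.col (nat_lit 2)) (.slot (nat_lit 3)) (.slot (nat_lit 1)))) (.slot (nat_lit 1))) (.node (.col (nat_lit 3)) (.slot (nat_lit 0)) (.slot (nat_lit 0))) (.col (nat_lit 1)) (.col (nat_lit 3))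
def w23802 : Root := .mk (.node (.node (.col (nat_lit 1)) (.node (.col (nat_lit 1)) (.slot (nat_lit 0)) (.slot (nat_lit 0))) (.slot (nat_lit 2))) (.node (.slot (nat_lit 0)) (.col (nat_lit 1)) (.slot (nat_lit 0))) (.slot (nat_lit 2))) (.col (nat_lit 2)) (.col (nat_lit 3)) (.col (nat_lit 1))
def w23803 : Root := .mk (.node (.node (.node (.col (nat_lit 1)) (.slot (nat_lit 0)) (.slot (nat_lit 1))) (.node (.node (.col (nat_lit 3)) (.slot (nat_lit 20)) (.slot (nat_lit 9))) (.col (nat_lit 1)) (.node (.slot (nat_lit 0)) (.slot (nat_lit 0)) (.slot (nat_lit 0)))) (.slot (nat_lit 1))) (.col (nat_lit 2)) (.col (nat_lit 1))) (.col (nat_lit 0)) (.col (nat_lit 2)) (.col (nat_lit 1))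
def l5369 : Root := .mk (.node (.node (.col (nat_lit 1)) (.slot (nat_lit 0)) (.slot (nat_lit 1))) (.node (.slot (nat_lit 0)) (.col (nat_lit 1)) (.node (.slot (nat_lit 0)) (.slot (nat_lit 0)) (.slot (nat_lit 0)))) (.col (nat_lit 0))) (.col (nat_lit 2)) (.node (.col (nat_lit 0)) (.col (nat_lit 2)) (.node (.col (nat_lit 2)) (.slot (nat_lit 0)) (.slot (nat_lit 0)))) (.col (nat_lit 1))
def w23804 : Root := .mk (.node (.node (.node (.col (nat_lit 1)) (.slot (nat_lit 0)) (.slot (nat_lit 1))) (.node (.slot (nat_lit 0)) (.col (nat_lit 1)) (.node (.slot (nat_lit 0)) (.slot (nat_lit 0)) (.slot (nat_lit 0)))) (.slot (nat_lit 1))) (.col (nat_lit 2)) (.col (nat_lit 1))) (.col (nat_lit 0)) (.col (nat_lit 2)) (.node (.col (nat_lit 2)) (.slot (nat_lit 0)) (.slot (nat_lit 0)))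
def l5370 : Root := .mk (.node (.node (.col (nat_lit 1)) (.slot (nat_lit 0)) (.slot (nat_lit 1))) (.node (.slot (nat_lit 0)) (.col (nat_lit 1)) (.node (.slot (nat_lit 0)) (.slot (nat_lit 0)) (.slot (nat_lit 0)))) (.col (nat_lit 0))) (.col (nat_lit 2)) (.node (.col (nat_lit 0)) (.col (nat_lit 2)) (.node (.slot (nat_lit 0)) (.slot (nat_lit 0)) (.slot (nat_lit 0)))) (.col (nat_lit 1))
def w23805 : Root := .mk (.node (.node (.node (.col (nat_lit 1)) (.slot (nat_lit 0)) (.slot (nat_lit 1))) (.node (.slot (nat_lit 0)) (.col (nat_lit 1)) (.node (.slot (nat_lit 0)) (.slot (nat_lit 0)) (.slot (nat_lit 0)))) (.slot (nat_lit 1))) (.col (nat_lit 2)) (.col (nat_lit 1))) (.col (nat_lit 0)) (.col (nat_lit 2)) (.node (.slot (nat_lit 0)) (.slot (nat_lit 0)) (.slot (nat_lit 0)))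
def l5371 : Root := .mk (.node (.node (.col (nat_lit 1)) (.node (.col (nat_lit 1)) (.slot (nat_lit 0)) (.slot (nat_lit 0))) (.slot (nat_lit 2))) (.node (.node (.col (nat_lit 3)) (.slot (nat_lit 20)) (.slot (nat_lit 9))) (.col (nat_lit 1)) (.node (.slot (nat_lit 0)) (.slot (nat_lit 0)) (.slot (nat_lit 0)))) (.slot (nat_lit 3))) (.col (nat_lit 2)) (.node (.col (nat_lit 0)) (.col (nat_lit 2)) (.slot (nat_lit 8))) (.col (nat_lit 1))
def w23806 : Root := .mk (.node (.node (.col (nat_lit 1)) (.node (.col (nat_lit 1)) (.slot (nat_lit 0)) (.slot (nat_lit 0))) (.slot (nat_lit 2))) (.node (.col (nat_lit 2)) (.node (.col (nat_lit 0)) (.col (nat_lit 2)) (.slot (nat_lit 8))) (.node (.col (nat_lit 2)) (.slot (nat_lit 0)) (.slot (nat_lit 0)))) (.slot (nat_lit 3))) (.node (.col (nat_lit 3)) (.slot (nat_lit 20)) (.slot (nat_lit 9))) (.col (nat_lit 1)) (.node (.slot (nat_lit 0)) (.slot (nat_lit 0)) (.slot (nat_lit 0)))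
def w23807 : Root := .mk (.node (.col (nat_lit 1)) (.slot (nat_lit 0)) (.slot (nat_lit 0))) (.node (.col (nat_lit 2)) (.node (.col (nat_lit 0)) (.col (nat_lit 2)) (.slot (nat_lit 1))) (.node (.col (nat_lit 2)) (.slot (nat_lit 0)) (.slot (nat_lit 0)))) (.node (.node (.col (nat_lit 3)) (.slot (nat_lit 1)) (.slot (nat_lit 1))) (.col (nat_lit 1)) (.slot (nat_lit 2))) (.col (nat_lit 1))
def w23808 : Root := .mk (.node (.node (.col (nat_lit 1)) (.slot (nat_lit 0)) (.slot (nat_lit 1))) (.node (.node (.col (nat_lit 3)) (.slot (nat_lit 1)) (.slot (nat_lit 1))) (.col (nat_lit 1)) (.slot (nat_lit 2))) (.node (.col (nat_lit 0)) (.slot (nat_lit 0)) (.slot (nat_lit 0)))) (.col (nat_lit 2)) (.node (.col (nat_lit 0)) (.col (nat_lit 2)) (.slot (nat_lit 5))) (.node (.col (nat_lit 2)) (.slot (nat_lit 0)) (.slot (nat_lit 0)))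
def w23809 : Root := .mk (.node (.node (.col (nat_lit 1)) (.slot (nat_lit 0)) (.slot (nat_lit 0))) (.node (.node (.col (nat_lit 3)) (.slot (nat_lit 1)) (.slot (nat_lit 1))) (.col (nat_lit 1)) (.slot (nat_lit 2))) (.node (.col (nat_lit 2)) (.slot (nat_lit 2)) (.slot (nat_lit 2)))) (.col (nat_lit 2)) (.node (.col (nat_lit 0)) (.col (nat_lit 2)) (.slot (nat_lit 1))) (.node (.col (nat_lit 2)) (.slot (nat_lit 0)) (.slot (nat_lit 0)))
def w23810 : Root := .mk (.node (.node (.col (nat_lit 1)) (.slot (nat_lit 0)) (.slot (nat_lit 1))) (.node (.node (.col (nat_lit 3)) (.slot (nat_lit 1)) (.slot (nat_lit 1))) (.col (nat_lit 1)) (.slot (nat_lit 2))) (.node (.col (nat_lit 3)) (.slot (nat_lit 0)) (.slot (nat_lit 0)))) (.col (nat_lit 2)) (.node (.col (nat_lit 0)) (.col (nat_lit 2)) (.slot (nat_lit 5))) (.node (.col (nat_lit 2)) (.slot (nat_lit 0)) (.slot (nat_lit 0)))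
def w23811 : Root := .mk (.node (.node (.col (nat_lit 1)) (.slot (nat_lit 0)) (.slot (nat_lit 1))) (.node (.node (.col (nat_lit 3)) (.slot (nat_lit 1)) (.slot (nat_lit 1))) (.col (nat_lit 1)) (.slot (nat_lit 2))) (.node (.col (nat_lit 4)) (.slot (nat_lit 0)) (.slot (nat_lit 0)))) (.col (nat_lit 2)) (.node (.col (nat_lit 0)) (.col (nat_lit 2)) (.slot (nat_lit 5))) (.node (.col (nat_lit 2)) (.slot (nat_lit 0)) (.slot (nat_lit 0)))
def w23812 : Root := .mk (.node (.node (.col (nat_lit 1)) (.slot (nat_lit 0)) (.slot (nat_lit 1))) (.node (.node (.col (nat_lit 3)) (.slot (nat_lit 1)) (.slot (nat_lit 1))) (.col (nat_lit 1)) (.slot (nat_lit 2))) (.node (.slot (nat_lit 0)) (.slot (nat_lit 1)) (.slot (nat_lit 1)))) (.col (nat_lit 2)) (.node (.col (nat_lit 0)) (.col (nat_lit 2)) (.slot (nat_lit 3))) (.node (.col (nat_lit 2)) (.slot (nat_lit 0)) (.slot (nat_lit 0)))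
def w23813 : Root := .mk (.node (.node (.col (nat_lit 1)) (.slot (nat_lit 0)) (.slot (nat_lit 1))) (.node (.node (.col (nat_lit 3)) (.node (.col (nat_lit 3)) (.slot (nat_lit 0)) (.slot (nat_lit 0))) (.slot (nat_lit 2))) (.col (nat_lit 1)) (.slot (nat_lit 2))) (.slot (nat_lit 2))) (.col (nat_lit 2)) (.node (.col (nat_lit 0)) (.col (nat_lit 2)) (.slot (nat_lit 3))) (.node (.col (nat_lit 2)) (.slot (nat_lit 0)) (.slot (nat_lit 0)))
def w23814 : Root := .mk (.col (nat_lit 1)) (.node (.col (nat_lit 1)) (.slot (nat_lit 0)) (.slot (nat_lit 0))) (.node (.node (.col (nat_lit 2)) (.node (.col (nat_lit 0)) (.col (nat_lit 2)) (.slot (nat_lit 5))) (.node (.col (nat_lit 2)) (.slot (nat_lit 0)) (.slot (nat_lit 0)))) (.node (.node (.col (nat_lit 3)) (.slot (nat_lit 1)) (.slot (nat_lit 1))) (.col (nat_lit 1)) (.slot (nat_lit 2))) (.slot (nat_lit 1))) (.slot (nat_lit 0))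
def w23815 : Root := .mk (.node (.node (.col (nat_lit 1)) (.slot (nat_lit 0)) (.slot (nat_lit 0))) (.node (.node (.col (nat_lit 3)) (.slot (nat_lit 1)) (.slot (nat_lit 6))) (.col (nat_lit 1)) (.slot (nat_lit 8))) (.slot (nat_lit 8))) (.col (nat_lit 2)) (.node (.col (nat_lit 0)) (.col (nat_lit 2)) (.slot (nat_lit 0))) (.col (nat_lit 0))
def l5372 : Root := .mk (.node (.node (.col (nat_lit 1)) (.node (.col (nat_lit 1)) (.slot (nat_lit 5)) (.slot (nat_lit 1))) (.slot (nat_lit 6))) (.node (.node (.col (nat_lit 3)) (.slot (nat_lit 20)) (.slot (nat_lit 12))) (.col (nat_lit 1)) (.slot (nat_lit 21))) (.slot (nat_lit 8))) (.col (nat_lit 2)) (.node (.col (nat_lit 0)) (.col (nat_lit 2)) (.slot (nat_lit 21))) (.node (.col (nat_lit 2)) (.slot (nat_lit 3)) (.slot (nat_lit 1)))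
def w23816 : Root := .mk (.node (.node (.col (nat_lit 1)) (.node (.col (nat_lit 1)) (.slot (nat_lit 5)) (.slot (nat_lit 1))) (.slot (nat_lit 6))) (.node (.node (.col (nat_lit 3)) (.slot (nat_lit 20)) (.slot (nat_lit 12))) (.slot (nat_lit 1)) (.slot (nat_lit 21))) (.slot (nat_lit 8))) (.col (nat_lit 2)) (.node (.col (nat_lit 0)) (.col (nat_lit 2)) (.slot (nat_lit 21))) (.node (.col (nat_lit 2)) (.slot (nat_lit 3)) (.slot (nat_lit 1)))
def w23817 : Root := .mk (.node (.node (.col (nat_lit 1)) (.slot (nat_lit 0)) (.slot (nat_lit 0))) (.node (.node (.col (nat_lit 3)) (.slot (nat_lit 20)) (.slot (nat_lit 9))) (.col (nat_lit 0)) (.slot (nat_lit 21))) (.slot (nat_lit 0))) (.col (nat_lit 2)) (.node (.col (nat_lit 0)) (.col (nat_lit 2)) (.slot (nat_lit 0))) (.node (.col (nat_lit 3)) (.slot (nat_lit 20)) (.slot (nat_lit 9)))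
def w23818 : Root := .mk (.node (.node (.col (nat_lit 1)) (.slot (nat_lit 0)) (.slot (nat_lit 0))) (.node (.col (nat_lit 2)) (.node (.col (nat_lit 0)) (.col (nat_lit 2)) (.slot (nat_lit 0))) (.node (.col (nat_lit 3)) (.slot (nat_lit 20)) (.slot (nat_lit 9)))) (.slot (nat_lit 8))) (.col (nat_lit 2)) (.col (nat_lit 0)) (.slot (nat_lit 3))
def w23819 : Root := .mk (.node (.node (.col (nat_lit 1)) (.slot (nat_lit 0)) (.slot (nat_lit 0))) (.node (.col (nat_lit 2)) (.node (.col (nat_lit 0)) (.col (nat_lit 2)) (.slot (nat_lit 0))) (.node (.col (nat_lit 3)) (.slot (nat_lit 20)) (.slot (nat_lit 9)))) (.slot (nat_lit 8))) (.col (nat_lit 4)) (.col (nat_lit 0)) (.slot (nat_lit 3))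
def w23820 : Root := .mk (.node (.node (.col (nat_lit 1)) (.node (.col (nat_lit 1)) (.slot (nat_lit 0)) (.slot (nat_lit 0))) (.slot (nat_lit 2))) (.node (.col (nat_lit 2)) (.node (.col (nat_lit 0)) (.col (nat_lit 2)) (.slot (nat_lit 1))) (.node (.col (nat_lit 3)) (.slot (nat_lit 1)) (.slot (nat_lit 1)))) (.slot (nat_lit 2))) (.node (.col (nat_lit 3)) (.slot (nat_lit 0)) (.slot (nat_lit 0))) (.col (nat_lit 0)) (.col (nat_lit 3))
def w23821 : Root := .mk (.node (.node (.col (nat_lit 1)) (.slot (nat_lit 0)) (.slot (nat_lit 0))) (.node (.col (nat_lit 2)) (.node (.col (nat_lit 0)) (.col (nat_lit 2)) (.slot (nat_lit 0))) (.node (.col (nat_lit 3)) (.slot (nat_lit 1)) (.slot (nat_lit 1)))) (.slot (nat_lit 1))) (.col (nat_lit 4)) (.col (nat_lit 0)) (.col (nat_lit 2))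
def w23822 : Root := .mk (.node (.node (.col (nat_lit 1)) (.slot (nat_lit 0)) (.slot (nat_lit 0))) (.node (.col (nat_lit 2)) (.slot (nat_lit 0)) (.node (.col (nat_lit 3)) (.slot (nat_lit 0)) (.slot (nat_lit 0)))) (.slot (nat_lit 2))) (.node (.col (nat_lit 3)) (.col (nat_lit 2)) (.slot (nat_lit 4))) (.col (nat_lit 0)) (.col (nat_lit 2))
def w23824 : Root := .mk (.node (.col (nat_lit 1)) (.slot (nat_lit 0)) (.slot (nat_lit 0))) (.node (.col (nat_lit 2)) (.node (.col (nat_lit 0)) (.col (nat_lit 2)) (.slot (nat_lit 0))) (.node (.col (nat_lit 3)) (.slot (nat_lit 0)) (.slot (nat_lit 0)))) (.node (.node (.col (nat_lit 3)) (.slot (nat_lit 3)) (.slot (nat_lit 1))) (.col (nat_lit 0)) (.slot (nat_lit 3))) (.col (nat_lit 1))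
def w23825 : Root := .mk (.node (.col (nat_lit 1)) .junk (.slot (nat_lit 1))) (.node (.col (nat_lit 2)) (.node (.col (nat_lit 0)) (.col (nat_lit 2)) (.slot (nat_lit 0))) (.node (.col (nat_lit 3)) (.slot (nat_lit 20)) (.slot (nat_lit 9)))) (.node (.node (.col (nat_lit 3)) (.slot (nat_lit 1)) (.slot (nat_lit 1))) (.col (nat_lit 0)) (.slot (nat_lit 2))) (.col (nat_lit 4))
def l5374 : Root := .mk (.node (.node (.col (nat_lit 1)) (.node (.col (nat_lit 1)) (.slot (nat_lit 0)) (.slot (nat_lit 0))) (.slot (nat_lit 2))) (.node (.node (.col (nat_lit 3)) (.col (nat_lit 0)) (.slot (nat_lit 5))) (.col (nat_lit 0)) (.slot (nat_lit 8))) (.slot (nat_lit 2))) (.col (nat_lit 2)) (.col (nat_lit 4)) (.node (.col (nat_lit 3)) (.slot (nat_lit 20)) (.slot (nat_lit 9)))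
def w23826 : Root := .mk (.node (.node (.node (.col (nat_lit 1)) (.node (.col (nat_lit 1)) (.slot (nat_lit 0)) (.slot (nat_lit 0))) (.slot (nat_lit 2))) (.node (.col (nat_lit 2)) (.node (.col (nat_lit 0)) (.col (nat_lit 2)) (.slot (nat_lit 0))) (.node (.col (nat_lit 3)) (.slot (nat_lit 20)) (.slot (nat_lit 9)))) (.slot (nat_lit 2))) (.col (nat_lit 0)) (.slot (nat_lit 8))) (.col (nat_lit 3)) (.col (nat_lit 0)) (.slot (nat_lit 5))
def w23827 : Root := .mk (.node (.node (.col (nat_lit 1)) (.node (.col (nat_lit 1)) (.slot (nat_lit 0)) (.slot (nat_lit 0))) (.slot (nat_lit 2))) (.node (.node (.col (nat_lit 3)) (.node (.col (nat_lit 3)) (.slot (nat_lit 0)) (.slot (nat_lit 0))) (.slot (nat_lit 2))) (.col (nat_lit 0)) (.slot (nat_lit 2))) (.slot (nat_lit 2))) (.col (nat_lit 2)) (.node (.col (nat_lit 0)) (.col (nat_lit 2)) (.slot (nat_lit 1))) (.node (.col (nat_lit 3)) (.slot (nat_lit 1)) (.slot (nat_lit 1)))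
def w23828 : Root := .mk (.node (.col (nat_lit 2)) (.node (.col (nat_lit 2)) (.node (.col (nat_lit 0)) (.col (nat_lit 2)) (.slot (nat_lit 1))) (.node (.col (nat_lit 3)) (.slot (nat_lit 1)) (.slot (nat_lit 1)))) (.slot (nat_lit 1))) (.node (.col (nat_lit 3)) (.node (.slot (nat_lit 0)) (.slot (nat_lit 0)) (.slot (nat_lit 0))) (.slot (nat_lit 1))) (.col (nat_lit 0)) (.col (nat_lit 2))
def w23829 : Root := .mk (.node (.node (.col (nat_lit 1)) (.slot (nat_lit 0)) (.slot (nat_lit 0))) (.node (.col (nat_lit 2)) (.slot (nat_lit 0)) (.node (.col (nat_lit 3)) (.slot (nat_lit 0)) (.slot (nat_lit 0)))) (.col (nat_lit 0))) (.node (.col (nat_lit 3)) (.node (.slot (nat_lit 0)) (.slot (nat_lit 0)) (.slot (nat_lit 0))) (.slot (nat_lit 1))) (.col (nat_lit 0)) (.col (nat_lit 2))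
def w23830 : Root := .mk (.node (.node (.col (nat_lit 1)) (.slot (nat_lit 0)) (.slot (nat_lit 0))) (.node (.col (nat_lit 2)) (.node (.col (nat_lit 0)) (.col (nat_lit 2)) (.slot (nat_lit 1))) (.node (.col (nat_lit 3)) (.slot (nat_lit 1)) (.slot (nat_lit 1)))) (.slot (nat_lit 0))) (.node (.col (nat_lit 3)) (.node (.slot (nat_lit 0)) (.slot (nat_lit 0)) (.slot (nat_lit 0))) (.slot (nat_lit 1))) (.col (nat_lit 0)) (.col (nat_lit 2))
def w23831 : Root := .mk (.node (.node (.node (.col (nat_lit 1)) (.slot (nat_lit 0)) (.slot (nat_lit 0))) (.node (.col (nat_lit 2)) (.node (.col (nat_lit 0)) (.col (nat_lit 2)) (.slot (nat_lit 1))) (.node (.col (nat_lit 3)) (.slot (nat_lit 1)) (.slot (nat_lit 1)))) (.slot (nat_lit 1))) (.col (nat_lit 0)) (.col (nat_lit 2))) (.col (nat_lit 3)) (.node (.slot (nat_lit 0)) (.slot (nat_lit 0)) (.slot (nat_lit 0))) (.col (nat_lit 0))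
def w23832 : Root := .mk (.node (.node (.node (.col (nat_lit 1)) (.slot (nat_lit 0)) (.slot (nat_lit 0))) (.node (.col (nat_lit 2)) (.node (.col (nat_lit 0)) (.col (nat_lit 2)) (.slot (nat_lit 1))) (.node (.col (nat_lit 3)) (.slot (nat_lit 1)) (.slot (nat_lit 1)))) (.slot (nat_lit 1))) (.col (nat_lit 0)) (.col (nat_lit 2))) (.col (nat_lit 3)) (.node (.slot (nat_lit 0)) (.slot (nat_lit 0)) (.slot (nat_lit 0))) (.col (nat_lit 2))
def w23833 : Root := .mk (.node (.slot (nat_lit 0)) (.node (.col (nat_lit 2)) (.node (.col (nat_lit 0)) (.col (nat_lit 2)) (.slot (nat_lit 1))) (.node (.col (nat_lit 3)) (.slot (nat_lit 1)) (.slot (nat_lit 1)))) (.slot (nat_lit 1))) (.node (.col (nat_lit 3)) (.node (.slot (nat_lit 0)) (.slot (nat_lit 0)) (.slot (nat_lit 0))) (.node (.col (nat_lit 1)) (.slot (nat_lit 0)) (.slot (nat_lit 0)))) (.col (nat_lit 0)) (.col (nat_lit 2))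
def w23834 : Root := .mk (.node (.node (.col (nat_lit 1)) (.slot (nat_lit 0)) (.slot (nat_lit 0))) (.node (.col (nat_lit 2)) (.slot (nat_lit 0)) (.slot (nat_lit 0))) (.slot (nat_lit 1))) (.node (.col (nat_lit 3)) (.node (.slot (nat_lit 0)) (.slot (nat_lit 0)) (.slot (nat_lit 0))) (.node (.col (nat_lit 3)) (.slot (nat_lit 0)) (.slot (nat_lit 0)))) (.col (nat_lit 0)) (.col (nat_lit 2))
def l5375 : Root := .mk (.node (.node (.col (nat_lit 1)) (.node (.col (nat_lit 1)) (.slot (nat_lit 0)) (.slot (nat_lit 0))) (.slot (nat_lit 1))) (.node (.col (nat_lit 2)) (.node (.col (nat_lit 0)) (.col (nat_lit 2)) (.slot (nat_lit 1))) (.node (.col (nat_lit 3)) (.slot (nat_lit 6)) (.slot (nat_lit 2)))) (.slot (nat_lit 6))) (.node (.col (nat_lit 3)) (.node (.slot (nat_lit 0)) (.slot (nat_lit 1)) (.slot (nat_lit 1))) (.slot (nat_lit 5))) (.col (nat_lit 0)) (.col (nat_lit 2))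
def w23835 : Root := .mk (.node (.node (.col (nat_lit 1)) (.node (.col (nat_lit 1)) (.slot (nat_lit 0)) (.slot (nat_lit 0))) (.slot (nat_lit 1))) (.node (.node (.col (nat_lit 3)) (.node (.slot (nat_lit 0)) (.slot (nat_lit 1)) (.slot (nat_lit 1))) (.slot (nat_lit 5))) (.col (nat_lit 0)) (.slot (nat_lit 1))) (.slot (nat_lit 6))) (.col (nat_lit 2)) (.node (.col (nat_lit 0)) (.col (nat_lit 2)) (.slot (nat_lit 1))) (.node (.col (nat_lit 3)) (.slot (nat_lit 6)) (.slot (nat_lit 2)))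
def w23836 : Root := .mk (.node (.node (.col (nat_lit 1)) .junk (.col (nat_lit 3))) (.node (.node (.col (nat_lit 3)) (.slot (nat_lit 1)) (.slot (nat_lit 1))) (.col (nat_lit 0)) (.slot (nat_lit 2))) (.slot (nat_lit 1))) (.col (nat_lit 2)) (.node (.col (nat_lit 0)) (.col (nat_lit 2)) (.slot (nat_lit 1))) (.node (.col (nat_lit 3)) (.slot (nat_lit 1)) (.slot (nat_lit 1)))
def w23837 : Root := .mk (.node (.node (.col (nat_lit 1)) (.node (.col (nat_lit 1)) (.slot (nat_lit 0)) (.slot (nat_lit 0))) (.slot (nat_lit 2))) (.node (.node (.col (nat_lit 3)) (.slot (nat_lit 1)) (.slot (nat_lit 1))) (.col (nat_lit 0)) (.slot (nat_lit 2))) (.slot (nat_lit 2))) (.col (nat_lit 2)) (.col (nat_lit 3)) (.node (.col (nat_lit 3)) (.slot (nat_lit 0)) (.slot (nat_lit 0)))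
def w23838 : Root := .mk (.col (nat_lit 1)) (.node (.col (nat_lit 1)) (.slot (nat_lit 0)) (.slot (nat_lit 0))) (.node (.node (.col (nat_lit 2)) (.slot (nat_lit 0)) (.col (nat_lit 1))) (.node (.node (.col (nat_lit 3)) (.slot (nat_lit 2)) (.slot (nat_lit 2))) (.col (nat_lit 0)) (.slot (nat_lit 3))) (.slot (nat_lit 1))) (.col (nat_lit 0))
def l5376 : Root := .mk (.node (.node (.col (nat_lit 1)) (.node (.col (nat_lit 1)) (.slot (nat_lit 0)) (.slot (nat_lit 0))) (.slot (nat_lit 3))) (.node (.node (.col (nat_lit 3)) (.slot (nat_lit 20)) (.slot (nat_lit 12))) (.col (nat_lit 0)) (.slot (nat_lit 21))) (.slot (nat_lit 4))) (.col (nat_lit 2)) (.node (.col (nat_lit 0)) (.col (nat_lit 2)) (.slot (nat_lit 5))) (.col (nat_lit 1))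
def w23839 : Root := .mk (.node (.node (.node (.col (nat_lit 1)) (.node (.col (nat_lit 1)) (.slot (nat_lit 0)) (.slot (nat_lit 0))) (.slot (nat_lit 3))) (.node (.node (.col (nat_lit 3)) (.slot (nat_lit 20)) (.slot (nat_lit 12))) (.col (nat_lit 0)) (.slot (nat_lit 21))) (.slot (nat_lit 4))) (.col (nat_lit 2)) (.node (.col (nat_lit 0)) (.col (nat_lit 2)) (.slot (nat_lit 5)))) (.col (nat_lit 3)) (.col (nat_lit 2)) (.slot (nat_lit 0))
def w23840 : Root := .mk (.node (.node (.col (nat_lit 1)) (.node (.col (nat_lit 1)) (.slot (nat_lit 0)) (.slot (nat_lit 0))) (.slot (nat_lit 3))) (.node (.node (.col (nat_lit 3)) (.slot (nat_lit 20)) (.slot (nat_lit 12))) (.col (nat_lit 0)) (.slot (nat_lit 21))) (.slot (nat_lit 4))) (.col (nat_lit 2)) (.node (.col (nat_lit 0)) (.col (nat_lit 2)) (.slot (nat_lit 5))) (.node (.col (nat_lit 3)) (.slot (nat_lit 0)) (.slot (nat_lit 0)))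
def l5377 : Root := .mk (.node (.node (.col (nat_lit 1)) (.node (.col (nat_lit 1)) (.slot (nat_lit 2)) (.slot (nat_lit 0))) (.slot (nat_lit 6))) (.node (.node (.col (nat_lit 3)) (.slot (nat_lit 20)) (.slot (nat_lit 12))) (.col (nat_lit 0)) (.slot (nat_lit 21))) (.slot (nat_lit 8))) (.col (nat_lit 2)) (.node (.col (nat_lit 0)) (.col (nat_lit 2)) (.slot (nat_lit 5))) (.node (.col (nat_lit 3)) (.slot (nat_lit 20)) (.slot (nat_lit 9)))
def w23841 : Root := .mk (.node (.node (.col (nat_lit 1)) (.node (.col (nat_lit 1)) (.slot (nat_lit 2)) (.slot (nat_lit 0))) (.slot (nat_lit 6))) (.node (.node (.col (nat_lit 3)) (.slot (nat_lit 20)) (.slot (nat_lit 12))) (.slot (nat_lit 1)) (.slot (nat_lit 21))) (.slot (nat_lit 8))) (.col (nat_lit 2)) (.node (.col (nat_lit 0)) (.col (nat_lit 2)) (.slot (nat_lit 5))) (.node (.col (nat_lit 3)) (.slot (nat_lit 20)) (.slot (nat_lit 9)))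
def w23842 : Root := .mk (.node (.node (.col (nat_lit 1)) (.node (.col (nat_lit 1)) (.slot (nat_lit 0)) (.slot (nat_lit 0))) (.slot (nat_lit 3))) (.col (nat_lit 3)) (.slot (nat_lit 2))) (.col (nat_lit 2)) (.node (.col (nat_lit 0)) (.col (nat_lit 2)) (.slot (nat_lit 2))) (.node (.col (nat_lit 4)) (.slot (nat_lit 6)) (.slot (nat_lit 1)))
def w23843 : Root := .mk (.node (.node (.col (nat_lit 1)) (.slot (nat_lit 0)) (.slot (nat_lit 0))) (.node (.col (nat_lit 2)) (.node (.col (nat_lit 0)) (.col (nat_lit 2)) (.slot (nat_lit 2))) (.node (.col (nat_lit 4)) (.slot (nat_lit 6)) (.slot (nat_lit 1)))) (.slot (nat_lit 2))) (.col (nat_lit 2)) (.col (nat_lit 1)) (.slot (nat_lit 3))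
def w23845 : Root := .mk (.node (.col (nat_lit 1)) (.slot (nat_lit 0)) (.slot (nat_lit 0))) (.node (.col (nat_lit 2)) (.node (.col (nat_lit 0)) (.col (nat_lit 2)) (.slot (nat_lit 1))) (.node (.col (nat_lit 4)) (.slot (nat_lit 0)) (.slot (nat_lit 0)))) (.node (.node (.col (nat_lit 3)) (.slot (nat_lit 1)) (.slot (nat_lit 1))) (.col (nat_lit 1)) (.slot (nat_lit 2))) (.col (nat_lit 1))
def w23846 : Root := .mk (.node (.node (.col (nat_lit 1)) (.node (.col (nat_lit 1)) (.slot (nat_lit 0)) (.slot (nat_lit 0))) (.slot (nat_lit 2))) (.node (.node (.col (nat_lit 3)) (.slot (nat_lit 1)) (.slot (nat_lit 1))) (.col (nat_lit 1)) (.slot (nat_lit 2))) (.node (.col (nat_lit 0)) (.slot (nat_lit 0)) (.slot (nat_lit 0)))) (.col (nat_lit 2)) (.node (.col (nat_lit 0)) (.col (nat_lit 2)) (.slot (nat_lit 1))) (.node (.col (nat_lit 4)) (.slot (nat_lit 1)) (.slot (nat_lit 1)))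
def w23847 : Root := .mk (.node (.node (.col (nat_lit 1)) (.slot (nat_lit 0)) (.slot (nat_lit 1))) (.node (.node (.col (nat_lit 3)) (.slot (nat_lit 2)) (.slot (nat_lit 2))) (.col (nat_lit 1)) (.slot (nat_lit 1))) (.node (.col (nat_lit 3)) (.slot (nat_lit 0)) (.slot (nat_lit 0)))) (.col (nat_lit 2)) (.node (.col (nat_lit 0)) (.col (nat_lit 2)) (.slot (nat_lit 1))) (.node (.col (nat_lit 4)) (.slot (nat_lit 1)) (.slot (nat_lit 1)))
def w23848 : Root := .mk (.node (.node (.col (nat_lit 1)) (.node (.col (nat_lit 1)) (.slot (nat_lit 0)) (.slot (nat_lit 0))) (.slot (nat_lit 2))) (.node (.node (.col (nat_lit 3)) (.slot (nat_lit 1)) (.slot (nat_lit 1))) (.col (nat_lit 1)) (.slot (nat_lit 2))) (.node (.col (nat_lit 4)) (.slot (nat_lit 0)) (.slot (nat_lit 0)))) (.col (nat_lit 2)) (.node (.col (nat_lit 0)) (.col (nat_lit 2)) (.slot (nat_lit 1))) (.node (.col (nat_lit 4)) (.slot (nat_lit 1)) (.slot (nat_lit 1)))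
def w23849 : Root := .mk (.node (.node (.col (nat_lit 1)) (.slot (nat_lit 0)) (.slot (nat_lit 1))) (.node (.node (.col (nat_lit 3)) (.slot (nat_lit 1)) (.slot (nat_lit 2))) (.col (nat_lit 1)) (.slot (nat_lit 1))) (.node (.slot (nat_lit 0)) (.slot (nat_lit 0)) (.slot (nat_lit 0)))) (.col (nat_lit 2)) (.node (.col (nat_lit 0)) (.col (nat_lit 2)) (.slot (nat_lit 1))) (.node (.col (nat_lit 4)) (.slot (nat_lit 1)) (.slot (nat_lit 1)))
def w23850 : Root := .mk (.node (.node (.col (nat_lit 1)) (.slot (nat_lit 0)) (.slot (nat_lit 0))) (.node (.node (.col (nat_lit 3)) (.node (.col (nat_lit 3)) (.slot (nat_lit 0)) (.slot (nat_lit 0))) (.slot (nat_lit 2))) (.col (nat_lit 1)) (.slot (nat_lit 2))) (.slot (nat_lit 1))) (.col (nat_lit 2)) (.node (.col (nat_lit 0)) (.col (nat_lit 2)) (.slot (nat_lit 0))) (.node (.col (nat_lit 4)) (.slot (nat_lit 2)) (.slot (nat_lit 1)))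
def w23851 : Root := .mk (.col (nat_lit 1)) (.node (.col (nat_lit 1)) (.slot (nat_lit 0)) (.slot (nat_lit 0))) (.node (.node (.col (nat_lit 2)) (.node (.col (nat_lit 0)) (.col (nat_lit 2)) (.slot (nat_lit 1))) (.node (.col (nat_lit 4)) (.slot (nat_lit 1)) (.slot (nat_lit 1)))) (.node (.node (.col (nat_lit 3)) (.slot (nat_lit 2)) (.slot (nat_lit 2))) (.col (nat_lit 1)) (.slot (nat_lit 3))) (.slot (nat_lit 1))) (.node (.col (nat_lit 1)) (.slot (nat_lit 0)) (.slot (nat_lit 0)))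
def l5378 : Root := .mk (.node (.node (.col (nat_lit 1)) (.node (.col (nat_lit 1)) (.slot (nat_lit 20)) (.slot (nat_lit 9))) (.slot (nat_lit 21))) (.node (.node (.col (nat_lit 3)) (.slot (nat_lit 20)) (.slot (nat_lit 12))) (.col (nat_lit 1)) (.slot (nat_lit 21))) (.slot (nat_lit 8))) (.col (nat_lit 2)) (.node (.col (nat_lit 0)) (.col (nat_lit 2)) (.slot (nat_lit 8))) (.node (.col (nat_lit 4)) (.slot (nat_lit 6)) (.slot (nat_lit 2)))
def w23852 : Root := .mk (.node (.node (.col (nat_lit 1)) (.node (.col (nat_lit 1)) (.slot (nat_lit 20)) (.slot (nat_lit 9))) (.slot (nat_lit 21))) (.node (.node (.col (nat_lit 3)) (.slot (nat_lit 20)) (.slot (nat_lit 12))) (.slot (nat_lit 1)) (.slot (nat_lit 21))) (.slot (nat_lit 8))) (.col (nat_lit 2)) (.node (.col (nat_lit 0)) (.col (nat_lit 2)) (.slot (nat_lit 8))) (.node (.col (nat_lit 4)) (.slot (nat_lit 6)) (.slot (nat_lit 2)))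
def w23853 : Root := .mk (.node (.node (.col (nat_lit 1)) (.node (.col (nat_lit 1)) (.slot (nat_lit 0)) (.slot (nat_lit 0))) (.slot (nat_lit 3))) (.node (.node (.col (nat_lit 3)) (.slot (nat_lit 12)) (.slot (nat_lit 10))) (.slot (nat_lit 7)) (.slot (nat_lit 5))) (.slot (nat_lit 8))) (.col (nat_lit 2)) (.node (.col (nat_lit 0)) (.col (nat_lit 2)) (.slot (nat_lit 8))) (.node (.slot (nat_lit 0)) (.slot (nat_lit 1)) (.slot (nat_lit 1)))
def w23854 : Root := .mk (.node (.node (.node (.col (nat_lit 1)) (.node (.col (nat_lit 1)) (.slot (nat_lit 10)) (.slot (nat_lit 8))) (.slot (nat_lit 8))) (.node (.col (nat_lit 0)) (.slot (nat_lit 7)) (.slot (nat_lit 5))) (.slot (nat_lit 10))) (.col (nat_lit 2)) (.slot (nat_lit 8))) (.col (nat_lit 0)) (.col (nat_lit 2)) (.slot (nat_lit 2))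
def w23855 : Root := .mk (.node (.node (.node (.col (nat_lit 1)) (.node (.col (nat_lit 1)) (.slot (nat_lit 0)) (.slot (nat_lit 0))) (.slot (nat_lit 2))) (.node (.col (nat_lit 1)) (.slot (nat_lit 1)) (.slot (nat_lit 1))) (.slot (nat_lit 1))) (.col (nat_lit 2)) (.node (.col (nat_lit 0)) (.slot (nat_lit 1)) (.slot (nat_lit 1)))) (.col (nat_lit 0)) (.col (nat_lit 2)) (.node (.col (nat_lit 0)) (.slot (nat_lit 0)) (.slot (nat_lit 0)))
def w23856 : Root := .mk (.node (.node (.col (nat_lit 1)) (.node (.col (nat_lit 1)) (.slot (nat_lit 0)) (.slot (nat_lit 0))) (.slot (nat_lit 2))) (.node (.col (nat_lit 1)) (.slot (nat_lit 1)) (.slot (nat_lit 1))) (.slot (nat_lit 1))) (.col (nat_lit 2)) (.node (.col (nat_lit 0)) (.col (nat_lit 2)) (.slot (nat_lit 1))) (.node (.col (nat_lit 0)) (.node (.col (nat_lit 0)) (.slot (nat_lit 0)) (.slot (nat_lit 0))) (.slot (nat_lit 1)))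
def w23857 : Root := .mk (.node (.node (.col (nat_lit 1)) (.node (.col (nat_lit 1)) (.slot (nat_lit 0)) (.slot (nat_lit 0))) (.slot (nat_lit 8))) (.node (.col (nat_lit 1)) (.slot (nat_lit 7)) (.slot (nat_lit 5))) (.slot (nat_lit 8))) (.col (nat_lit 2)) (.node (.col (nat_lit 0)) (.col (nat_lit 2)) (.slot (nat_lit 2))) (.node (.col (nat_lit 0)) (.node (.slot (nat_lit 0)) (.slot (nat_lit 0)) (.slot (nat_lit 0))) (.slot (nat_lit 3)))
def l5379 : Root := .mk (.node (.node (.col (nat_lit 1)) (.node (.col (nat_lit 1)) (.slot (nat_lit 0)) (.slot (nat_lit 0))) (.slot (nat_lit 8))) (.node (.col (nat_lit 1)) (.slot (nat_lit 7)) (.slot (nat_lit 5))) (.slot (nat_lit 8))) (.col (nat_lit 2)) (.node (.col (nat_lit 0)) (.col (nat_lit 2)) (.slot (nat_lit 3))) (.node (.col (nat_lit 0)) (.slot (nat_lit 7)) (.slot (nat_lit 5)))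
def w23858 : Root := .mk (.node (.node (.node (.col (nat_lit 1)) (.node (.col (nat_lit 1)) (.slot (nat_lit 0)) (.slot (nat_lit 0))) (.slot (nat_lit 8))) (.node (.col (nat_lit 1)) (.slot (nat_lit 7)) (.slot (nat_lit 5))) (.slot (nat_lit 8))) (.col (nat_lit 2)) (.slot (nat_lit 8))) (.col (nat_lit 0)) (.col (nat_lit 2)) (.slot (nat_lit 3))
def l5380 : Root := .mk (.node (.col (nat_lit 1)) (.node (.col (nat_lit 1)) (.col (nat_lit 0)) (.slot (nat_lit 5))) (.slot (nat_lit 9))) (.node (.col (nat_lit 2)) (.node (.col (nat_lit 0)) (.col (nat_lit 2)) (.slot (nat_lit 5))) (.slot (nat_lit 9))) (.node (.col (nat_lit 4)) (.slot (nat_lit 4)) (.slot (nat_lit 4))) (.col (nat_lit 0))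
def w23859 : Root := .mk (.node (.col (nat_lit 1)) (.node (.node (.col (nat_lit 2)) (.node (.col (nat_lit 0)) (.col (nat_lit 2)) (.slot (nat_lit 5))) (.slot (nat_lit 9))) (.node (.col (nat_lit 4)) (.slot (nat_lit 4)) (.slot (nat_lit 4))) (.slot (nat_lit 1))) (.slot (nat_lit 9))) (.col (nat_lit 1)) (.col (nat_lit 0)) (.slot (nat_lit 5))
def w23860 : Root := .mk (.node (.col (nat_lit 1)) (.node (.node (.col (nat_lit 2)) (.node (.col (nat_lit 0)) (.col (nat_lit 2)) (.slot (nat_lit 8))) (.slot (nat_lit 9))) (.node (.col (nat_lit 4)) (.slot (nat_lit 7)) (.slot (nat_lit 5))) (.slot (nat_lit 8))) (.slot (nat_lit 5))) (.col (nat_lit 1)) (.node (.col (nat_lit 4)) (.slot (nat_lit 12)) (.slot (nat_lit 12))) (.node (.slot (nat_lit 0)) (.slot (nat_lit 0)) (.slot (nat_lit 0)))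
def w23861 : Root := .mk (.col (nat_lit 1)) (.node (.col (nat_lit 1)) (.node (.col (nat_lit 4)) (.slot (nat_lit 3)) (.slot (nat_lit 1))) (.slot (nat_lit 2))) (.node (.node (.col (nat_lit 2)) (.slot (nat_lit 0)) (.slot (nat_lit 0))) (.node (.col (nat_lit 4)) (.slot (nat_lit 1)) (.slot (nat_lit 1))) (.slot (nat_lit 2))) (.col (nat_lit 0))
def w23862 : Root := .mk (.node (.col (nat_lit 1)) (.node (.col (nat_lit 1)) (.node (.col (nat_lit 4)) (.slot (nat_lit 1)) (.slot (nat_lit 1))) (.slot (nat_lit 2))) (.node (.col (nat_lit 1)) (.slot (nat_lit 0)) (.slot (nat_lit 0)))) (.node (.col (nat_lit 2)) (.slot (nat_lit 0)) (.slot (nat_lit 1))) (.col (nat_lit 0)) (.node (.col (nat_lit 0)) (.slot (nat_lit 0)) (.slot (nat_lit 0)))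
def w23863 : Root := .mk (.node (.node (.col (nat_lit 1)) (.node (.col (nat_lit 1)) (.node (.col (nat_lit 4)) (.slot (nat_lit 1)) (.slot (nat_lit 1))) (.slot (nat_lit 2))) (.node (.col (nat_lit 1)) (.slot (nat_lit 0)) (.slot (nat_lit 0)))) (.col (nat_lit 0)) (.slot (nat_lit 1))) (.col (nat_lit 2)) (.node (.col (nat_lit 0)) (.col (nat_lit 2)) (.slot (nat_lit 0))) (.col (nat_lit 0))
def w23864 : Root := .mk (.node (.node (.col (nat_lit 1)) (.node (.col (nat_lit 1)) (.slot (nat_lit 0)) (.slot (nat_lit 0))) (.node (.col (nat_lit 1)) (.slot (nat_lit 0)) (.slot (nat_lit 0)))) (.col (nat_lit 0)) (.slot (nat_lit 3))) (.col (nat_lit 2)) (.node (.col (nat_lit 0)) (.col (nat_lit 2)) (.slot (nat_lit 1))) (.node (.col (nat_lit 1)) (.slot (nat_lit 1)) (.slot (nat_lit 1)))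
def l5381 : Root := .mk (.col (nat_lit 1)) (.node (.col (nat_lit 1)) (.node (.col (nat_lit 4)) (.slot (nat_lit 1)) (.slot (nat_lit 1))) (.slot (nat_lit 2))) (.node (.node (.col (nat_lit 2)) (.node (.col (nat_lit 0)) (.col (nat_lit 2)) (.slot (nat_lit 5))) (.slot (nat_lit 8))) (.col (nat_lit 0)) (.slot (nat_lit 3))) (.node (.col (nat_lit 1)) (.slot (nat_lit 3)) (.slot (nat_lit 1)))
def w23865 : Root := .mk (.col (nat_lit 1)) (.node (.col (nat_lit 1)) (.node (.col (nat_lit 4)) (.slot (nat_lit 1)) (.slot (nat_lit 1))) (.slot (nat_lit 2))) (.node (.node (.col (nat_lit 2)) (.node (.col (nat_lit 0)) (.col (nat_lit 2)) (.slot (nat_lit 5))) (.slot (nat_lit 8))) (.node (.col (nat_lit 4)) (.slot (nat_lit 0)) (.slot (nat_lit 0))) (.slot (nat_lit 3))) (.node (.col (nat_lit 1)) (.slot (nat_lit 3)) (.slot (nat_lit 1)))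
def w23866 : Root := .mk (.node (.node (.col (nat_lit 1)) (.node (.col (nat_lit 1)) (.node (.col (nat_lit 4)) (.slot (nat_lit 1)) (.slot (nat_lit 1))) (.slot (nat_lit 2))) (.node (.slot (nat_lit 0)) (.slot (nat_lit 0)) (.slot (nat_lit 0)))) (.node (.col (nat_lit 4)) (.slot (nat_lit 0)) (.slot (nat_lit 0))) (.col (nat_lit 0))) (.col (nat_lit 2)) (.node (.col (nat_lit 0)) (.col (nat_lit 2)) (.slot (nat_lit 0))) (.col (nat_lit 0))
def l5382 : Root := .mk (.node (.col (nat_lit 1)) (.node (.col (nat_lit 1)) (.node (.col (nat_lit 4)) (.slot (nat_lit 1)) (.slot (nat_lit 1))) (.slot (nat_lit 2))) (.node (.slot (nat_lit 0)) (.slot (nat_lit 0)) (.slot (nat_lit 0)))) (.node (.col (nat_lit 2)) (.node (.col (nat_lit 0)) (.col (nat_lit 2)) (.slot (nat_lit 5))) (.slot (nat_lit 4))) (.node (.col (nat_lit 4)) (.slot (nat_lit 4)) (.slot (nat_lit 4))) (.col (nat_lit 0))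
def w23867 : Root := .mk (.col (nat_lit 1)) (.node (.col (nat_lit 1)) (.node (.col (nat_lit 4)) (.slot (nat_lit 1)) (.slot (nat_lit 1))) (.slot (nat_lit 2))) (.node (.node (.col (nat_lit 2)) (.node (.col (nat_lit 0)) (.col (nat_lit 2)) (.slot (nat_lit 5))) (.slot (nat_lit 4))) (.node (.col (nat_lit 4)) (.slot (nat_lit 4)) (.slot (nat_lit 4))) (.slot (nat_lit 1))) (.node (.slot (nat_lit 0)) (.slot (nat_lit 0)) (.slot (nat_lit 0)))
def w23868 : Root := .mk (.node (.node (.node (.col (nat_lit 1)) (.node (.col (nat_lit 1)) (.node (.col (nat_lit 4)) .junk (.col (nat_lit 3))) (.slot (nat_lit 1))) (.slot (nat_lit 6))) (.node (.col (nat_lit 4)) (.slot (nat_lit 0)) (.slot (nat_lit 0))) (.slot (nat_lit 2))) (.col (nat_lit 2)) (.slot (nat_lit 6))) (.col (nat_lit 0)) (.col (nat_lit 2)) (.slot (nat_lit 0))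
def w23869 : Root := .mk (.node (.node (.col (nat_lit 1)) (.node (.node (.col (nat_lit 2)) (.node (.col (nat_lit 0)) (.col (nat_lit 2)) (.slot (nat_lit 0))) (.slot (nat_lit 6))) (.node (.col (nat_lit 4)) (.slot (nat_lit 0)) (.slot (nat_lit 0))) (.slot (nat_lit 2))) (.slot (nat_lit 6))) (.col (nat_lit 1)) (.slot (nat_lit 1))) (.col (nat_lit 4)) (.col (nat_lit 1)) (.node (.col (nat_lit 0)) (.node (.col (nat_lit 0)) (.slot (nat_lit 0)) (.slot (nat_lit 0))) (.slot (nat_lit 1)))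
def w23870 : Root := .mk (.node (.node (.col (nat_lit 1)) (.node (.node (.col (nat_lit 2)) (.node (.col (nat_lit 0)) (.col (nat_lit 2)) (.slot (nat_lit 0))) (.slot (nat_lit 6))) (.node (.col (nat_lit 4)) (.slot (nat_lit 0)) (.slot (nat_lit 0))) (.slot (nat_lit 2))) (.slot (nat_lit 6))) (.col (nat_lit 1)) (.slot (nat_lit 1))) (.col (nat_lit 4)) (.col (nat_lit 1)) (.node (.col (nat_lit 0)) (.node (.slot (nat_lit 0)) (.slot (nat_lit 0)) (.slot (nat_lit 0))) (.slot (nat_lit 1)))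
def l5383 : Root := .mk (.node (.node (.col (nat_lit 1)) (.node (.node (.col (nat_lit 2)) (.node (.col (nat_lit 0)) (.col (nat_lit 2)) (.slot (nat_lit 5))) (.slot (nat_lit 9))) (.node (.col (nat_lit 4)) (.slot (nat_lit 4)) (.slot (nat_lit 4))) (.slot (nat_lit 8))) (.slot (nat_lit 9))) (.col (nat_lit 1)) (.slot (nat_lit 5))) (.col (nat_lit 4)) (.col (nat_lit 1)) (.node (.col (nat_lit 0)) (.slot (nat_lit 20)) (.slot (nat_lit 9)))
def w23871 : Root := .mk (.node (.node (.col (nat_lit 1)) (.node (.node (.col (nat_lit 2)) (.node (.col (nat_lit 0)) (.col (nat_lit 2)) (.slot (nat_lit 5))) (.slot (nat_lit 9))) (.node (.col (nat_lit 4)) (.slot (nat_lit 4)) (.slot (nat_lit 4))) (.slot (nat_lit 8))) (.slot (nat_lit 9))) (.col (nat_lit 1)) (.slot (nat_lit 5))) (.col (nat_lit 4)) (.col (nat_lit 1)) (.slot (nat_lit 21))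
def w23872 : Root := .mk (.node (.node (.node (.col (nat_lit 1)) (.node (.col (nat_lit 1)) (.node (.col (nat_lit 4)) (.node (.col (nat_lit 4)) (.slot (nat_lit 0)) (.slot (nat_lit 0))) (.slot (nat_lit 2))) (.slot (nat_lit 2))) (.slot (nat_lit 6))) (.node (.col (nat_lit 4)) (.slot (nat_lit 0)) (.slot (nat_lit 0))) (.slot (nat_lit 2))) (.col (nat_lit 2)) (.slot (nat_lit 6))) (.col (nat_lit 0)) (.col (nat_lit 2)) (.slot (nat_lit 0))
def w23873 : Root := .mk (.node (.node (.node (.col (nat_lit 1)) (.node (.col (nat_lit 1)) (.node (.col (nat_lit 4)) (.slot (nat_lit 8)) (.slot (nat_lit 8))) (.slot (nat_lit 8))) (.slot (nat_lit 8))) (.col (nat_lit 1)) (.slot (nat_lit 8))) (.col (nat_lit 2)) (.slot (nat_lit 1))) (.col (nat_lit 0)) (.col (nat_lit 2)) (.slot (nat_lit 0))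
def w23874 : Root := .mk (.node (.col (nat_lit 1)) (.node (.col (nat_lit 1)) (.node (.col (nat_lit 4)) (.slot (nat_lit 1)) (.slot (nat_lit 1))) (.slot (nat_lit 2))) (.slot (nat_lit 3))) (.node (.col (nat_lit 2)) (.slot (nat_lit 0)) (.slot (nat_lit 1))) (.node (.col (nat_lit 4)) (.slot (nat_lit 0)) (.slot (nat_lit 0))) (.col (nat_lit 4))
def l5384 : Root := .mk (.node (.node (.node (.col (nat_lit 1)) (.col (nat_lit 2)) (.slot (nat_lit 2))) (.col (nat_lit 0)) (.node (.col (nat_lit 0)) (.slot (nat_lit 0)) (.slot (nat_lit 0)))) (.col (nat_lit 2)) (.col (nat_lit 1))) (.col (nat_lit 0)) (.col (nat_lit 2)) (.col (nat_lit 1))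
def w23875 : Root := .mk (.node (.node (.node (.col (nat_lit 1)) (.col (nat_lit 2)) (.slot (nat_lit 2))) (.node (.col (nat_lit 4)) (.slot (nat_lit 0)) (.slot (nat_lit 0))) (.node (.col (nat_lit 0)) (.slot (nat_lit 0)) (.slot (nat_lit 0)))) (.col (nat_lit 2)) (.col (nat_lit 1))) (.col (nat_lit 0)) (.col (nat_lit 2)) (.col (nat_lit 1))
def l5385 : Root := .mk (.node (.node (.col (nat_lit 1)) (.col (nat_lit 2)) (.slot (nat_lit 6))) (.col (nat_lit 0)) (.node (.col (nat_lit 0)) (.slot (nat_lit 0)) (.slot (nat_lit 0)))) (.col (nat_lit 2)) (.slot (nat_lit 0)) (.col (nat_lit 1))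
def w23876 : Root := .mk (.node (.node (.col (nat_lit 1)) (.col (nat_lit 2)) (.slot (nat_lit 6))) (.node (.col (nat_lit 4)) (.slot (nat_lit 0)) (.slot (nat_lit 0))) (.node (.col (nat_lit 0)) (.slot (nat_lit 0)) (.slot (nat_lit 0)))) (.col (nat_lit 2)) (.slot (nat_lit 0)) (.col (nat_lit 1))
def w23877 : Root := .mk (.node (.node (.col (nat_lit 1)) (.col (nat_lit 2)) (.slot (nat_lit 0))) (.node (.col (nat_lit 4)) (.col (nat_lit 0)) (.slot (nat_lit 2))) (.node (.col (nat_lit 0)) (.slot (nat_lit 7)) (.slot (nat_lit 5)))) (.col (nat_lit 2)) (.node (.col (nat_lit 0)) .junk (.slot (nat_lit 1))) (.col (nat_lit 1))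
def w23878 : Root := .mk (.node (.node (.col (nat_lit 1)) (.col (nat_lit 2)) (.slot (nat_lit 6))) (.node (.col (nat_lit 4)) (.col (nat_lit 3)) (.slot (nat_lit 0))) (.node (.col (nat_lit 0)) (.slot (nat_lit 0)) (.slot (nat_lit 0)))) (.col (nat_lit 2)) (.slot (nat_lit 0)) (.col (nat_lit 1))
def l5386 : Root := .mk (.node (.node (.col (nat_lit 1)) (.col (nat_lit 2)) (.slot (nat_lit 6))) (.node (.col (nat_lit 4)) (.slot (nat_lit 2)) (.slot (nat_lit 2))) (.node (.col (nat_lit 0)) (.slot (nat_lit 7)) (.slot (nat_lit 5)))) (.col (nat_lit 2)) (.node (.col (nat_lit 0)) (.col (nat_lit 2)) (.slot (nat_lit 5))) (.col (nat_lit 1))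
def w23879 : Root := .mk (.col (nat_lit 1)) (.col (nat_lit 2)) (.node (.node (.col (nat_lit 2)) (.node (.col (nat_lit 0)) (.col (nat_lit 2)) (.slot (nat_lit 5))) (.slot (nat_lit 1))) (.node (.col (nat_lit 4)) (.slot (nat_lit 2)) (.slot (nat_lit 2))) (.node (.col (nat_lit 0)) (.slot (nat_lit 7)) (.slot (nat_lit 5)))) (.slot (nat_lit 6))
def w23880 : Root := .mk (.node (.node (.node (.col (nat_lit 1)) (.node (.col (nat_lit 1)) (.node (.col (nat_lit 4)) (.slot (nat_lit 1)) (.slot (nat_lit 1))) (.slot (nat_lit 2))) (.slot (nat_lit 6))) (.node (.col (nat_lit 4)) (.slot (nat_lit 2)) (.slot (nat_lit 2))) (.node (.col (nat_lit 0)) (.slot (nat_lit 7)) (.slot (nat_lit 5)))) (.col (nat_lit 2)) (.slot (nat_lit 1))) (.col (nat_lit 0)) (.col (nat_lit 2)) (.slot (nat_lit 5))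
def w23881 : Root := .mk (.node (.col (nat_lit 1)) (.node (.col (nat_lit 1)) (.node (.col (nat_lit 4)) (.slot (nat_lit 10)) (.slot (nat_lit 10))) (.slot (nat_lit 9))) (.slot (nat_lit 10))) (.node (.col (nat_lit 2)) (.slot (nat_lit 0)) (.slot (nat_lit 0))) (.node (.col (nat_lit 4)) (.slot (nat_lit 10)) (.slot (nat_lit 10))) (.node (.col (nat_lit 1)) (.slot (nat_lit 9)) (.slot (nat_lit 8)))
def w23882 : Root := .mk (.node (.col (nat_lit 1)) (.node (.col (nat_lit 1)) (.node (.col (nat_lit 4)) (.slot (nat_lit 1)) (.slot (nat_lit 1))) (.slot (nat_lit 2))) (.slot (nat_lit 5))) (.node (.col (nat_lit 2)) (.slot (nat_lit 0)) (.slot (nat_lit 1))) (.node (.col (nat_lit 4)) (.slot (nat_lit 0)) (.slot (nat_lit 0))) (.node (.col (nat_lit 2)) (.slot (nat_lit 3)) (.slot (nat_lit 1)))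
def w23883 : Root := .mk (.node (.node (.col (nat_lit 1)) (.node (.col (nat_lit 1)) (.node (.col (nat_lit 4)) (.slot (nat_lit 1)) (.slot (nat_lit 1))) (.slot (nat_lit 2))) (.slot (nat_lit 4))) (.col (nat_lit 0)) (.node (.col (nat_lit 3)) (.slot (nat_lit 1)) (.slot (nat_lit 0)))) (.col (nat_lit 2)) (.slot (nat_lit 0)) (.col (nat_lit 0))
def l5387 : Root := .mk (.node (.col (nat_lit 1)) (.node (.col (nat_lit 1)) (.node (.col (nat_lit 4)) (.slot (nat_lit 1)) (.slot (nat_lit 1))) (.slot (nat_lit 2))) (.slot (nat_lit 4))) (.node (.col (nat_lit 2)) (.node (.col (nat_lit 0)) (.col (nat_lit 2)) (.slot (nat_lit 5))) (.slot (nat_lit 9))) (.col (nat_lit 0)) (.node (.col (nat_lit 3)) (.slot (nat_lit 4)) (.slot (nat_lit 4)))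
def w23884 : Root := .mk (.node (.node (.node (.col (nat_lit 1)) (.node (.col (nat_lit 1)) (.node (.col (nat_lit 4)) (.slot (nat_lit 1)) (.slot (nat_lit 1))) (.slot (nat_lit 2))) (.slot (nat_lit 4))) (.node (.col (nat_lit 4)) (.slot (nat_lit 0)) (.slot (nat_lit 0))) (.node (.col (nat_lit 3)) (.slot (nat_lit 4)) (.slot (nat_lit 4)))) (.col (nat_lit 2)) (.slot (nat_lit 9))) (.col (nat_lit 0)) (.col (nat_lit 2)) (.slot (nat_lit 5))
def w23885 : Root := .mk (.node (.node (.col (nat_lit 1)) (.node (.col (nat_lit 1)) (.node (.col (nat_lit 4)) (.slot (nat_lit 7)) (.slot (nat_lit 5))) (.slot (nat_lit 10))) (.slot (nat_lit 8))) (.node (.col (nat_lit 4)) (.slot (nat_lit 7)) (.slot (nat_lit 5))) (.slot (nat_lit 10))) (.col (nat_lit 2)) (.slot (nat_lit 0)) (.col (nat_lit 0))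
def w23886 : Root := .mk (.node (.node (.col (nat_lit 1)) (.node (.col (nat_lit 1)) (.node (.col (nat_lit 4)) (.slot (nat_lit 1)) (.slot (nat_lit 1))) (.slot (nat_lit 2))) (.slot (nat_lit 1))) (.node (.col (nat_lit 4)) (.col (nat_lit 0)) (.slot (nat_lit 0))) (.col (nat_lit 0))) (.col (nat_lit 2)) (.node (.col (nat_lit 0)) (.col (nat_lit 2)) (.slot (nat_lit 0))) (.col (nat_lit 0))
def w23887 : Root := .mk (.node (.node (.col (nat_lit 1)) (.node (.col (nat_lit 1)) (.node (.col (nat_lit 4)) (.slot (nat_lit 1)) (.slot (nat_lit 1))) (.slot (nat_lit 2))) (.slot (nat_lit 1))) (.node (.col (nat_lit 2)) (.slot (nat_lit 0)) (.slot (nat_lit 0))) (.col (nat_lit 0))) (.col (nat_lit 4)) (.col (nat_lit 0)) (.col (nat_lit 2))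
def w23888 : Root := .mk (.node (.node (.col (nat_lit 1)) (.node (.col (nat_lit 1)) (.node (.col (nat_lit 4)) (.slot (nat_lit 1)) (.slot (nat_lit 1))) (.slot (nat_lit 2))) (.slot (nat_lit 4))) (.node (.col (nat_lit 2)) (.slot (nat_lit 0)) (.slot (nat_lit 0))) (.col (nat_lit 0))) (.col (nat_lit 4)) (.col (nat_lit 0)) (.col (nat_lit 3))
def l5388 : Root := .mk (.node (.col (nat_lit 1)) (.node (.col (nat_lit 1)) (.node (.col (nat_lit 4)) (.slot (nat_lit 1)) (.slot (nat_lit 1))) (.slot (nat_lit 2))) (.slot (nat_lit 4))) (.node (.col (nat_lit 2)) (.node (.col (nat_lit 0)) (.col (nat_lit 2)) (.slot (nat_lit 5))) (.slot (nat_lit 8))) (.node (.col (nat_lit 4)) (.col (nat_lit 0)) (.slot (nat_lit 3))) (.col (nat_lit 0))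
def w23889 : Root := .mk (.node (.node (.col (nat_lit 1)) (.node (.col (nat_lit 1)) (.node (.col (nat_lit 4)) (.slot (nat_lit 1)) (.slot (nat_lit 1))) (.slot (nat_lit 2))) (.slot (nat_lit 4))) (.node (.col (nat_lit 2)) (.node (.col (nat_lit 0)) (.col (nat_lit 2)) (.slot (nat_lit 5))) (.slot (nat_lit 8))) (.slot (nat_lit 1))) (.col (nat_lit 4)) (.col (nat_lit 0)) (.slot (nat_lit 3))
def w23890 : Root := .mk (.node (.node (.col (nat_lit 1)) (.node (.col (nat_lit 1)) (.slot (nat_lit 0)) (.slot (nat_lit 0))) (.slot (nat_lit 2))) (.node (.col (nat_lit 2)) (.node (.col (nat_lit 0)) (.col (nat_lit 2)) (.slot (nat_lit 5))) (.slot (nat_lit 8))) (.slot (nat_lit 2))) (.col (nat_lit 4)) (.col (nat_lit 3)) (.slot (nat_lit 21))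
def w23891 : Root := .mk (.node (.node (.node (.col (nat_lit 1)) (.slot (nat_lit 0)) (.slot (nat_lit 1))) (.node (.col (nat_lit 4)) (.node (.col (nat_lit 0)) (.slot (nat_lit 20)) (.slot (nat_lit 9))) (.slot (nat_lit 1))) (.slot (nat_lit 2))) (.col (nat_lit 2)) (.slot (nat_lit 8))) (.col (nat_lit 0)) (.col (nat_lit 2)) (.slot (nat_lit 5))
def w23892 : Root := .mk (.node (.node (.node (.col (nat_lit 1)) (.node (.col (nat_lit 1)) (.node (.col (nat_lit 4)) (.slot (nat_lit 1)) (.slot (nat_lit 1))) (.slot (nat_lit 2))) (.slot (nat_lit 3))) (.node (.col (nat_lit 4)) (.slot (nat_lit 0)) (.slot (nat_lit 0))) (.slot (nat_lit 2))) (.col (nat_lit 2)) (.slot (nat_lit 3))) (.col (nat_lit 0)) (.col (nat_lit 2)) (.slot (nat_lit 0))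
def l5389 : Root := .mk (.node (.node (.node (.col (nat_lit 1)) (.node (.col (nat_lit 1)) (.node (.col (nat_lit 4)) (.slot (nat_lit 21)) (.slot (nat_lit 21))) (.slot (nat_lit 21))) (.slot (nat_lit 21))) (.node (.col (nat_lit 4)) (.slot (nat_lit 21)) (.slot (nat_lit 21))) (.slot (nat_lit 10))) (.col (nat_lit 2)) (.slot (nat_lit 9))) (.col (nat_lit 0)) (.col (nat_lit 2)) (.slot (nat_lit 8))
def w23893 : Root := .mk (.node (.node (.node (.col (nat_lit 1)) (.node (.col (nat_lit 1)) (.slot (nat_lit 22)) (.slot (nat_lit 21))) (.slot (nat_lit 21))) (.node (.col (nat_lit 4)) (.slot (nat_lit 21)) (.slot (nat_lit 21))) (.slot (nat_lit 10))) (.col (nat_lit 2)) (.slot (nat_lit 9))) (.col (nat_lit 0)) (.col (nat_lit 2)) (.slot (nat_lit 8))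
def w23894 : Root := .mk (.node (.node (.node (.col (nat_lit 1)) (.node (.col (nat_lit 1)) (.slot (nat_lit 0)) (.slot (nat_lit 0))) (.slot (nat_lit 3))) (.node (.node (.col (nat_lit 3)) (.slot (nat_lit 20)) (.slot (nat_lit 12))) (.col (nat_lit 0)) (.slot (nat_lit 21))) (.slot (nat_lit 4))) (.col (nat_lit 2)) (.slot (nat_lit 1))) (.col (nat_lit 0)) (.col (nat_lit 2)) (.slot (nat_lit 5))
def w23895 : Root := .mk (.node (.col (nat_lit 1)) (.node (.col (nat_lit 0)) (.node (.node (.col (nat_lit 3)) (.slot (nat_lit 0)) (.slot (nat_lit 0))) (.col (nat_lit 3)) (.slot (nat_lit 2))) (.slot (nat_lit 2))) (.slot (nat_lit 3))) (.col (nat_lit 1)) (.node (.col (nat_lit 3)) (.slot (nat_lit 3)) (.slot (nat_lit 1))) (.col (nat_lit 3))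
def w23896 : Root := .mk (.node (.node (.col (nat_lit 1)) (.slot (nat_lit 0)) (.slot (nat_lit 0))) (.col (nat_lit 1)) (.node (.col (nat_lit 3)) (.slot (nat_lit 1)) (.slot (nat_lit 6)))) (.slot (nat_lit 0)) (.col (nat_lit 3)) (.col (nat_lit 0))
def w23897 : Root := .mk (.node (.col (nat_lit 1)) (.node (.col (nat_lit 0)) (.node (.slot (nat_lit 0)) (.col (nat_lit 3)) (.slot (nat_lit 0))) (.slot (nat_lit 1))) (.slot (nat_lit 3))) (.col (nat_lit 1)) (.node (.col (nat_lit 3)) (.slot (nat_lit 1)) (.slot (nat_lit 1))) (.node (.node (.col (nat_lit 0)) (.slot (nat_lit 0)) (.slot (nat_lit 0))) (.slot (nat_lit 1)) (.slot (nat_lit 1)))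
def w23898 : Root := .mk (.node (.col (nat_lit 1)) (.node (.col (nat_lit 0)) (.node (.slot (nat_lit 0)) (.col (nat_lit 3)) (.slot (nat_lit 0))) (.slot (nat_lit 1))) (.slot (nat_lit 3))) (.col (nat_lit 1)) (.node (.col (nat_lit 3)) (.slot (nat_lit 1)) (.slot (nat_lit 1))) (.node (.node (.col (nat_lit 2)) (.slot (nat_lit 0)) (.slot (nat_lit 0))) (.slot (nat_lit 1)) (.slot (nat_lit 1)))
def w23899 : Root := .mk (.node (.col (nat_lit 1)) (.node (.col (nat_lit 0)) (.node (.slot (nat_lit 0)) (.col (nat_lit 3)) (.slot (nat_lit 0))) (.slot (nat_lit 1))) (.slot (nat_lit 3))) (.col (nat_lit 1)) (.node (.col (nat_lit 3)) (.slot (nat_lit 1)) (.slot (nat_lit 1))) (.node (.node (.col (nat_lit 3)) (.slot (nat_lit 0)) (.slot (nat_lit 0))) (.slot (nat_lit 2)) (.slot (nat_lit 1)))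
def l5390 : Root := .mk (.node (.col (nat_lit 1)) (.node (.col (nat_lit 1)) (.node (.col (nat_lit 3)) (.slot (nat_lit 3)) (.slot (nat_lit 1))) (.slot (nat_lit 2))) (.col (nat_lit 0))) (.col (nat_lit 0)) (.node (.col (nat_lit 1)) (.col (nat_lit 3)) .junk) (.col (nat_lit 2))
def w23900 : Root := .mk (.col (nat_lit 1)) (.node (.col (nat_lit 1)) (.node (.col (nat_lit 3)) (.slot (nat_lit 3)) (.slot (nat_lit 1))) (.slot (nat_lit 2))) (.node (.col (nat_lit 0)) (.node (.col (nat_lit 1)) (.col (nat_lit 3)) .junk) (.slot (nat_lit 1))) (.col (nat_lit 0))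
def l5391 : Root := .mk (.col (nat_lit 1)) (.node (.col (nat_lit 1)) (.node (.col (nat_lit 3)) (.slot (nat_lit 3)) (.slot (nat_lit 1))) (.slot (nat_lit 3))) (.node (.col (nat_lit 0)) (.node (.col (nat_lit 1)) (.col (nat_lit 3)) (.slot (nat_lit 8))) (.slot (nat_lit 3))) (.col (nat_lit 0))
def w23901 : Root := .mk (.col (nat_lit 1)) (.node (.col (nat_lit 1)) (.node (.col (nat_lit 3)) (.slot (nat_lit 3)) (.slot (nat_lit 1))) (.slot (nat_lit 3))) (.node (.col (nat_lit 0)) (.node (.node (.col (nat_lit 3)) (.slot (nat_lit 0)) (.slot (nat_lit 0))) (.col (nat_lit 3)) (.slot (nat_lit 8))) (.slot (nat_lit 3))) (.col (nat_lit 0))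
def w23902 : Root := .mk (.col (nat_lit 1)) (.node (.col (nat_lit 1)) (.node (.col (nat_lit 3)) (.slot (nat_lit 1)) (.slot (nat_lit 1))) (.slot (nat_lit 2))) (.node (.col (nat_lit 0)) (.node (.node (.col (nat_lit 3)) (.slot (nat_lit 0)) (.slot (nat_lit 0))) (.col (nat_lit 3)) (.slot (nat_lit 2))) (.slot (nat_lit 2))) (.node (.col (nat_lit 1)) (.slot (nat_lit 0)) (.slot (nat_lit 0)))
def w23903 : Root := .mk (.col (nat_lit 1)) (.node (.col (nat_lit 1)) (.node (.col (nat_lit 3)) (.slot (nat_lit 1)) (.slot (nat_lit 1))) (.slot (nat_lit 2))) (.node (.col (nat_lit 0)) (.node (.node (.col (nat_lit 3)) (.slot (nat_lit 0)) (.slot (nat_lit 0))) (.col (nat_lit 3)) (.slot (nat_lit 2))) (.slot (nat_lit 2))) (.node (.slot (nat_lit 0)) (.slot (nat_lit 0)) (.slot (nat_lit 0)))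
def w23904 : Root := .mk (.node (.node (.col (nat_lit 1)) (.node (.col (nat_lit 0)) (.node (.slot (nat_lit 0)) (.col (nat_lit 3)) (.slot (nat_lit 0))) (.slot (nat_lit 1))) (.slot (nat_lit 3))) (.col (nat_lit 1)) (.slot (nat_lit 2))) (.col (nat_lit 3)) (.node (.col (nat_lit 3)) (.slot (nat_lit 0)) (.slot (nat_lit 0))) (.slot (nat_lit 2))
def l5392 : Root := .mk (.node (.col (nat_lit 1)) (.node (.col (nat_lit 0)) (.node (.node (.col (nat_lit 3)) (.slot (nat_lit 0)) (.slot (nat_lit 0))) (.col (nat_lit 3)) (.slot (nat_lit 8))) (.slot (nat_lit 5))) (.slot (nat_lit 8))) (.col (nat_lit 1)) (.node (.col (nat_lit 3)) (.slot (nat_lit 20)) (.slot (nat_lit 12))) (.slot (nat_lit 21))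
def w23905 : Root := .mk (.node (.col (nat_lit 1)) (.node (.col (nat_lit 1)) (.slot (nat_lit 21)) (.slot (nat_lit 21))) (.slot (nat_lit 8))) (.col (nat_lit 0)) (.node (.node (.col (nat_lit 3)) (.slot (nat_lit 0)) (.slot (nat_lit 0))) (.col (nat_lit 3)) (.slot (nat_lit 8))) (.slot (nat_lit 5))
def w23906 : Root := .mk (.node (.node (.col (nat_lit 0)) (.node (.node (.col (nat_lit 3)) (.slot (nat_lit 0)) (.slot (nat_lit 0))) (.col (nat_lit 3)) (.slot (nat_lit 2))) (.slot (nat_lit 2))) (.col (nat_lit 2)) (.col (nat_lit 4))) (.col (nat_lit 0)) (.col (nat_lit 2)) (.col (nat_lit 4))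
def l5393 : Root := .mk (.node (.col (nat_lit 0)) (.node (.node (.col (nat_lit 3)) (.slot (nat_lit 0)) (.slot (nat_lit 0))) (.col (nat_lit 3)) (.slot (nat_lit 2))) (.slot (nat_lit 2))) (.col (nat_lit 2)) (.node (.col (nat_lit 0)) (.col (nat_lit 2)) (.slot (nat_lit 5))) (.col (nat_lit 4))
def w23907 : Root := .mk (.node (.node (.col (nat_lit 1)) (.slot (nat_lit 0)) (.slot (nat_lit 0))) (.node (.node (.col (nat_lit 3)) (.slot (nat_lit 0)) (.slot (nat_lit 0))) (.col (nat_lit 3)) (.slot (nat_lit 2))) (.slot (nat_lit 2))) (.col (nat_lit 2)) (.node (.col (nat_lit 0)) (.col (nat_lit 2)) (.slot (nat_lit 5))) (.col (nat_lit 4))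
def l5394 : Root := .mk (.node (.node (.col (nat_lit 0)) (.node (.node (.col (nat_lit 3)) (.slot (nat_lit 0)) (.slot (nat_lit 0))) (.col (nat_lit 3)) (.slot (nat_lit 1))) (.slot (nat_lit 2))) (.col (nat_lit 2)) (.node (.col (nat_lit 0)) (.slot (nat_lit 9)) (.slot (nat_lit 20)))) (.col (nat_lit 0)) (.col (nat_lit 2)) (.node (.col (nat_lit 0)) (.slot (nat_lit 1)) (.slot (nat_lit 1)))
def w23908 : Root := .mk (.node (.node (.node (.col (nat_lit 1)) (.slot (nat_lit 0)) (.slot (nat_lit 0))) (.node (.node (.col (nat_lit 3)) (.slot (nat_lit 0)) (.slot (nat_lit 0))) (.col (nat_lit 3)) (.slot (nat_lit 1))) (.slot (nat_lit 2))) (.col (nat_lit 2)) (.node (.col (nat_lit 0)) (.slot (nat_lit 20)) (.slot (nat_lit 9)))) (.col (nat_lit 0)) (.col (nat_lit 2)) (.node (.col (nat_lit 0)) (.slot (nat_lit 1)) (.slot (nat_lit 1)))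
def l5395 : Root := .mk (.node (.col (nat_lit 0)) (.node (.slot (nat_lit 0)) (.col (nat_lit 3)) (.slot (nat_lit 1))) (.slot (nat_lit 3))) (.col (nat_lit 2)) (.node (.col (nat_lit 0)) (.col (nat_lit 2)) (.slot (nat_lit 21))) (.node (.col (nat_lit 0)) (.node (.col (nat_lit 0)) (.slot (nat_lit 0)) (.slot (nat_lit 0))) (.slot (nat_lit 3)))
def w23909 : Root := .mk (.node (.node (.col (nat_lit 1)) (.slot (nat_lit 0)) (.slot (nat_lit 0))) (.node (.slot (nat_lit 0)) (.col (nat_lit 3)) (.slot (nat_lit 1))) (.slot (nat_lit 3))) (.col (nat_lit 2)) (.node (.col (nat_lit 0)) (.col (nat_lit 2)) (.slot (nat_lit 21))) (.node (.col (nat_lit 0)) (.node (.col (nat_lit 0)) (.slot (nat_lit 0)) (.slot (nat_lit 0))) (.slot (nat_lit 3)))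
def w23910 : Root := .mk (.node (.col (nat_lit 1)) (.slot (nat_lit 0)) (.slot (nat_lit 1))) (.node (.col (nat_lit 2)) (.node (.col (nat_lit 0)) (.col (nat_lit 2)) (.slot (nat_lit 5))) (.node (.col (nat_lit 0)) (.slot (nat_lit 0)) (.slot (nat_lit 0)))) (.node (.slot (nat_lit 0)) (.col (nat_lit 3)) (.slot (nat_lit 0))) (.col (nat_lit 0))
def w23911 : Root := .mk (.node (.node (.node (.col (nat_lit 1)) (.slot (nat_lit 0)) (.slot (nat_lit 1))) (.node (.slot (nat_lit 0)) (.col (nat_lit 3)) (.slot (nat_lit 1))) (.col (nat_lit 0))) (.col (nat_lit 2)) (.node (.col (nat_lit 0)) (.node (.slot (nat_lit 0)) (.slot (nat_lit 0)) (.slot (nat_lit 0))) (.slot (nat_lit 3)))) (.col (nat_lit 0)) (.col (nat_lit 2)) (.slot (nat_lit 0))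
def w23912 : Root := .mk (.node (.node (.node (.col (nat_lit 1)) (.slot (nat_lit 0)) (.slot (nat_lit 1))) (.node (.slot (nat_lit 0)) (.col (nat_lit 3)) (.slot (nat_lit 0))) (.col (nat_lit 0))) (.col (nat_lit 2)) (.node (.col (nat_lit 0)) (.col (nat_lit 2)) (.slot (nat_lit 5)))) (.col (nat_lit 0)) (.slot (nat_lit 0)) (.col (nat_lit 2))
def l5396 : Root := .mk (.node (.col (nat_lit 1)) (.node (.col (nat_lit 1)) (.slot (nat_lit 0)) (.slot (nat_lit 0))) (.slot (nat_lit 1))) (.node (.col (nat_lit 2)) (.node (.col (nat_lit 0)) (.col (nat_lit 2)) (.slot (nat_lit 5))) (.node (.col (nat_lit 0)) (.node (.slot (nat_lit 0)) (.slot (nat_lit 0)) (.slot (nat_lit 0))) (.slot (nat_lit 3)))) (.node (.node (.col (nat_lit 3)) (.slot (nat_lit 0)) (.slot (nat_lit 0))) (.col (nat_lit 3)) (.slot (nat_lit 1))) (.col (nat_lit 0))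
def w23913 : Root := .mk (.node (.node (.col (nat_lit 1)) (.node (.col (nat_lit 1)) (.slot (nat_lit 0)) (.slot (nat_lit 0))) (.slot (nat_lit 1))) (.node (.node (.col (nat_lit 3)) (.slot (nat_lit 0)) (.slot (nat_lit 0))) (.col (nat_lit 3)) (.slot (nat_lit 1))) (.slot (nat_lit 1))) (.col (nat_lit 2)) (.node (.col (nat_lit 0)) (.col (nat_lit 2)) (.slot (nat_lit 5))) (.node (.col (nat_lit 0)) (.node (.slot (nat_lit 0)) (.slot (nat_lit 0)) (.slot (nat_lit 0))) (.slot (nat_lit 3)))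
def l5397 : Root := .mk (.node (.node (.col (nat_lit 1)) (.node (.col (nat_lit 1)) (.slot (nat_lit 21)) (.slot (nat_lit 21))) (.slot (nat_lit 8))) (.node (.node (.col (nat_lit 3)) (.slot (nat_lit 0)) (.slot (nat_lit 0))) (.col (nat_lit 3)) (.slot (nat_lit 8))) (.slot (nat_lit 5))) (.col (nat_lit 2)) (.node (.col (nat_lit 0)) (.col (nat_lit 2)) (.slot (nat_lit 21))) (.node (.col (nat_lit 0)) (.slot (nat_lit 20)) (.slot (nat_lit 9)))
def w23914 : Root := .mk (.node (.node (.node (.col (nat_lit 1)) (.node (.col (nat_lit 1)) (.slot (nat_lit 21)) (.slot (nat_lit 21))) (.slot (nat_lit 8))) (.node (.node (.col (nat_lit 3)) (.slot (nat_lit 0)) (.slot (nat_lit 0))) (.col (nat_lit 3)) (.slot (nat_lit 8))) (.slot (nat_lit 5))) (.col (nat_lit 2)) (.slot (nat_lit 21))) (.col (nat_lit 0)) (.col (nat_lit 2)) (.slot (nat_lit 21))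
def w23915 : Root := .mk (.node (.node (.node (.col (nat_lit 1)) (.node (.col (nat_lit 1)) (.slot (nat_lit 0)) (.slot (nat_lit 0))) (.slot (nat_lit 2))) (.node (.col (nat_lit 2)) (.node (.col (nat_lit 0)) (.col (nat_lit 2)) (.slot (nat_lit 21))) (.slot (nat_lit 3))) (.slot (nat_lit 3))) (.node (.col (nat_lit 0)) (.slot (nat_lit 2)) (.slot (nat_lit 1))) (.slot (nat_lit 1))) (.col (nat_lit 3)) (.col (nat_lit 0)) (.node (.col (nat_lit 0)) (.slot (nat_lit 1)) (.slot (nat_lit 1)))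
def w23916 : Root := .mk (.node (.node (.node (.col (nat_lit 1)) (.node (.col (nat_lit 1)) (.slot (nat_lit 0)) (.slot (nat_lit 0))) (.slot (nat_lit 2))) (.node (.col (nat_lit 2)) (.node (.col (nat_lit 0)) (.col (nat_lit 2)) (.slot (nat_lit 21))) (.slot (nat_lit 3))) (.slot (nat_lit 3))) (.node (.col (nat_lit 0)) (.slot (nat_lit 1)) (.slot (nat_lit 0))) (.slot (nat_lit 1))) (.col (nat_lit 3)) (.col (nat_lit 0)) (.node (.col (nat_lit 3)) (.slot (nat_lit 0)) (.slot (nat_lit 0)))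
def w23917 : Root := .mk (.node (.node (.col (nat_lit 1)) (.slot (nat_lit 0)) (.slot (nat_lit 0))) (.node (.col (nat_lit 2)) (.node (.col (nat_lit 0)) (.col (nat_lit 2)) (.slot (nat_lit 2))) (.slot (nat_lit 1))) (.slot (nat_lit 2))) (.node (.col (nat_lit 3)) (.col (nat_lit 0)) (.node (.slot (nat_lit 0)) (.slot (nat_lit 1)) (.slot (nat_lit 1)))) (.col (nat_lit 3)) (.col (nat_lit 2))
def l5398 : Root := .mk (.node (.node (.node (.col (nat_lit 1)) (.slot (nat_lit 0)) (.slot (nat_lit 0))) (.node (.col (nat_lit 2)) (.node (.col (nat_lit 0)) (.col (nat_lit 2)) (.slot (nat_lit 5))) (.slot (nat_lit 8))) (.slot (nat_lit 2))) (.node (.col (nat_lit 0)) (.slot (nat_lit 3)) (.slot (nat_lit 2))) (.col (nat_lit 2))) (.col (nat_lit 3)) (.col (nat_lit 0)) (.node (.slot (nat_lit 0)) (.slot (nat_lit 1)) (.slot (nat_lit 1)))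
def w23918 : Root := .mk (.node (.node (.node (.col (nat_lit 1)) (.slot (nat_lit 0)) (.slot (nat_lit 0))) (.node (.col (nat_lit 2)) (.node (.col (nat_lit 0)) (.col (nat_lit 2)) (.slot (nat_lit 5))) (.slot (nat_lit 8))) (.slot (nat_lit 2))) (.node (.col (nat_lit 0)) (.slot (nat_lit 3)) (.slot (nat_lit 2))) (.slot (nat_lit 1))) (.col (nat_lit 3)) (.col (nat_lit 0)) (.node (.slot (nat_lit 0)) (.slot (nat_lit 1)) (.slot (nat_lit 1)))
def w23919 : Root := .mk (.node (.node (.col (nat_lit 1)) (.node (.col (nat_lit 1)) (.slot (nat_lit 0)) (.slot (nat_lit 0))) (.slot (nat_lit 2))) (.node (.col (nat_lit 2)) (.node (.col (nat_lit 0)) (.col (nat_lit 2)) (.slot (nat_lit 21))) (.slot (nat_lit 3))) (.slot (nat_lit 3))) (.node (.col (nat_lit 3)) (.col (nat_lit 0)) (.slot (nat_lit 3))) (.node (.col (nat_lit 0)) (.slot (nat_lit 3)) (.slot (nat_lit 1))) (.col (nat_lit 0))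
def l5399 : Root := .mk (.node (.node (.node (.col (nat_lit 1)) (.node (.col (nat_lit 1)) (.slot (nat_lit 2)) (.slot (nat_lit 1))) (.slot (nat_lit 3))) (.node (.col (nat_lit 2)) (.node (.col (nat_lit 0)) (.col (nat_lit 2)) (.slot (nat_lit 21))) (.slot (nat_lit 8))) (.slot (nat_lit 8))) (.node (.col (nat_lit 0)) (.slot (nat_lit 21)) (.slot (nat_lit 21))) (.slot (nat_lit 8))) (.col (nat_lit 3)) (.col (nat_lit 0)) (.slot (nat_lit 5))
def w23920 : Root := .mk (.node (.node (.node (.col (nat_lit 1)) (.node (.col (nat_lit 1)) (.slot (nat_lit 2)) (.slot (nat_lit 1))) (.slot (nat_lit 3))) (.node (.node (.col (nat_lit 3)) (.slot (nat_lit 1)) (.slot (nat_lit 5))) (.node (.col (nat_lit 0)) (.slot (nat_lit 21)) (.slot (nat_lit 21))) (.slot (nat_lit 8))) (.slot (nat_lit 8))) (.col (nat_lit 2)) (.slot (nat_lit 8))) (.col (nat_lit 0)) (.col (nat_lit 2)) (.slot (nat_lit 21))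
def w23921 : Root := .mk (.node (.node (.node (.col (nat_lit 1)) (.node (.col (nat_lit 1)) (.slot (nat_lit 0)) (.slot (nat_lit 0))) (.slot (nat_lit 2))) (.col (nat_lit 0)) (.slot (nat_lit 2))) (.node (.col (nat_lit 1)) (.slot (nat_lit 1)) (.slot (nat_lit 1))) (.slot (nat_lit 2))) (.col (nat_lit 3)) (.col (nat_lit 2)) (.slot (nat_lit 1))
def w23922 : Root := .mk (.node (.node (.node (.col (nat_lit 1)) (.node (.col (nat_lit 1)) (.slot (nat_lit 0)) (.slot (nat_lit 0))) (.slot (nat_lit 2))) (.col (nat_lit 0)) (.slot (nat_lit 2))) (.node (.col (nat_lit 1)) (.slot (nat_lit 2)) (.slot (nat_lit 1))) (.slot (nat_lit 1))) (.col (nat_lit 3)) (.node (.col (nat_lit 1)) (.slot (nat_lit 1)) (.slot (nat_lit 1))) (.col (nat_lit 1))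
def l5400 : Root := .mk (.node (.node (.node (.col (nat_lit 1)) (.node (.col (nat_lit 1)) (.slot (nat_lit 0)) (.slot (nat_lit 0))) (.slot (nat_lit 2))) (.col (nat_lit 0)) (.slot (nat_lit 2))) (.node (.col (nat_lit 1)) (.slot (nat_lit 1)) (.slot (nat_lit 1))) (.slot (nat_lit 5))) (.col (nat_lit 3)) (.node (.col (nat_lit 1)) (.slot (nat_lit 20)) (.slot (nat_lit 9))) (.col (nat_lit 0))
def w23923 : Root := .mk (.node (.node (.node (.col (nat_lit 1)) (.node (.col (nat_lit 1)) (.slot (nat_lit 0)) (.slot (nat_lit 0))) (.slot (nat_lit 2))) (.col (nat_lit 0)) (.slot (nat_lit 2))) (.node (.col (nat_lit 1)) (.slot (nat_lit 1)) (.slot (nat_lit 1))) (.slot (nat_lit 5))) (.col (nat_lit 3)) (.node (.col (nat_lit 1)) (.slot (nat_lit 20)) (.slot (nat_lit 9))) (.node (.slot (nat_lit 0)) (.slot (nat_lit 0)) (.slot (nat_lit 0)))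
def w23924 : Root := .mk (.node (.node (.col (nat_lit 1)) (.node (.col (nat_lit 1)) (.slot (nat_lit 0)) (.slot (nat_lit 0))) (.slot (nat_lit 2))) (.col (nat_lit 0)) (.slot (nat_lit 2))) (.node (.col (nat_lit 3)) (.slot (nat_lit 0)) (.slot (nat_lit 1))) (.node (.col (nat_lit 1)) (.slot (nat_lit 1)) (.slot (nat_lit 1))) (.col (nat_lit 0))
def w23925 : Root := .mk (.node (.node (.col (nat_lit 1)) (.node (.col (nat_lit 1)) (.slot (nat_lit 3)) (.slot (nat_lit 1))) (.slot (nat_lit 2))) (.col (nat_lit 0)) (.slot (nat_lit 4))) (.node (.col (nat_lit 3)) (.node (.col (nat_lit 1)) (.slot (nat_lit 3)) (.slot (nat_lit 1))) (.slot (nat_lit 4))) (.node (.col (nat_lit 1)) (.slot (nat_lit 4)) (.slot (nat_lit 4))) (.node (.col (nat_lit 2)) (.slot (nat_lit 0)) (.slot (nat_lit 0)))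
def w23926 : Root := .mk (.node (.node (.node (.col (nat_lit 1)) (.node (.col (nat_lit 1)) (.slot (nat_lit 0)) (.slot (nat_lit 0))) (.slot (nat_lit 2))) (.col (nat_lit 0)) (.slot (nat_lit 2))) (.node (.col (nat_lit 1)) (.slot (nat_lit 1)) .junk) (.col (nat_lit 0))) (.col (nat_lit 3)) (.node (.col (nat_lit 1)) .junk (.slot (nat_lit 1))) (.col (nat_lit 0))
def l5401 : Root := .mk (.node (.node (.node (.node (.col (nat_lit 1)) (.node (.col (nat_lit 1)) (.slot (nat_lit 0)) (.slot (nat_lit 0))) (.slot (nat_lit 2))) (.col (nat_lit 0)) (.slot (nat_lit 2))) (.node (.col (nat_lit 1)) (.slot (nat_lit 0)) (.slot (nat_lit 0))) (.col (nat_lit 1))) (.col (nat_lit 3)) (.col (nat_lit 0))) (.col (nat_lit 1)) (.col (nat_lit 3)) (.col (nat_lit 0))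
def w23927 : Root := .mk (.node (.node (.node (.node (.col (nat_lit 1)) (.node (.col (nat_lit 1)) (.slot (nat_lit 0)) (.slot (nat_lit 0))) (.slot (nat_lit 2))) (.col (nat_lit 0)) (.slot (nat_lit 2))) (.node (.col (nat_lit 1)) (.slot (nat_lit 0)) (.slot (nat_lit 0))) (.slot (nat_lit 1))) (.col (nat_lit 3)) (.col (nat_lit 0))) (.col (nat_lit 1)) (.col (nat_lit 3)) (.col (nat_lit 0))
def w23928 : Root := .mk (.node (.node (.node (.node (.col (nat_lit 1)) (.node (.col (nat_lit 1)) (.slot (nat_lit 0)) (.slot (nat_lit 0))) (.slot (nat_lit 2))) (.col (nat_lit 0)) (.slot (nat_lit 2))) (.node (.col (nat_lit 1)) (.slot (nat_lit 0)) (.slot (nat_lit 0))) (.slot (nat_lit 1))) (.col (nat_lit 3)) (.col (nat_lit 0))) (.col (nat_lit 1)) (.col (nat_lit 3)) (.node (.col (nat_lit 1)) (.slot (nat_lit 0)) (.slot (nat_lit 0)))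
def w23929 : Root := .mk (.node (.node (.node (.node (.col (nat_lit 1)) (.node (.col (nat_lit 1)) (.slot (nat_lit 0)) (.slot (nat_lit 0))) (.slot (nat_lit 2))) (.col (nat_lit 0)) (.slot (nat_lit 2))) (.node (.col (nat_lit 1)) (.slot (nat_lit 0)) (.slot (nat_lit 0))) (.slot (nat_lit 1))) (.col (nat_lit 3)) (.col (nat_lit 0))) (.col (nat_lit 1)) (.col (nat_lit 3)) (.node (.col (nat_lit 3)) (.slot (nat_lit 0)) (.slot (nat_lit 0)))
def l5402 : Root := .mk (.node (.node (.node (.col (nat_lit 1)) (.node (.col (nat_lit 1)) (.slot (nat_lit 0)) (.slot (nat_lit 0))) (.slot (nat_lit 2))) (.col (nat_lit 0)) (.slot (nat_lit 3))) (.node (.col (nat_lit 1)) (.slot (nat_lit 1)) (.slot (nat_lit 1))) (.slot (nat_lit 3))) (.col (nat_lit 3)) (.node (.col (nat_lit 1)) (.col (nat_lit 3)) (.slot (nat_lit 5))) (.col (nat_lit 0))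
def w23930 : Root := .mk (.node (.node (.node (.node (.col (nat_lit 1)) (.node (.col (nat_lit 1)) (.slot (nat_lit 0)) (.slot (nat_lit 0))) (.slot (nat_lit 2))) (.col (nat_lit 0)) (.slot (nat_lit 3))) (.node (.col (nat_lit 1)) (.slot (nat_lit 1)) (.slot (nat_lit 1))) (.slot (nat_lit 3))) (.col (nat_lit 3)) (.slot (nat_lit 1))) (.col (nat_lit 1)) (.col (nat_lit 3)) (.slot (nat_lit 5))
def w23931 : Root := .mk (.node (.node (.node (.node (.col (nat_lit 1)) (.node (.col (nat_lit 1)) (.slot (nat_lit 0)) (.slot (nat_lit 0))) (.slot (nat_lit 2))) (.col (nat_lit 0)) (.slot (nat_lit 2))) (.node (.col (nat_lit 1)) (.slot (nat_lit 1)) (.slot (nat_lit 1))) (.slot (nat_lit 2))) (.col (nat_lit 3)) (.slot (nat_lit 2))) (.col (nat_lit 1)) (.node (.col (nat_lit 1)) (.slot (nat_lit 0)) (.slot (nat_lit 0))) (.slot (nat_lit 2))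
def w23932 : Root := .mk (.node (.col (nat_lit 1)) (.node (.col (nat_lit 1)) (.slot (nat_lit 20)) (.slot (nat_lit 9))) (.slot (nat_lit 21))) (.col (nat_lit 0)) (.node (.node (.col (nat_lit 3)) (.node (.col (nat_lit 1)) (.slot (nat_lit 5)) (.slot (nat_lit 5))) (.slot (nat_lit 3))) (.node (.col (nat_lit 1)) (.slot (nat_lit 1)) (.slot (nat_lit 0))) (.slot (nat_lit 2))) (.node (.col (nat_lit 0)) (.slot (nat_lit 0)) (.slot (nat_lit 0)))
def w23933 : Root := .mk (.node (.col (nat_lit 1)) (.slot (nat_lit 0)) (.slot (nat_lit 1))) (.col (nat_lit 0)) (.node (.node (.col (nat_lit 3)) (.node (.col (nat_lit 1)) (.slot (nat_lit 1)) (.slot (nat_lit 1))) (.slot (nat_lit 2))) (.node (.col (nat_lit 1)) (.slot (nat_lit 1)) (.slot (nat_lit 1))) (.slot (nat_lit 2))) (.node (.col (nat_lit 3)) (.slot (nat_lit 1)) (.slot (nat_lit 1)))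
def w23934 : Root := .mk (.col (nat_lit 1)) (.node (.col (nat_lit 1)) (.slot (nat_lit 3)) (.slot (nat_lit 1))) (.node (.col (nat_lit 0)) (.node (.node (.col (nat_lit 3)) (.node (.col (nat_lit 1)) (.slot (nat_lit 1)) (.slot (nat_lit 1))) (.slot (nat_lit 2))) (.node (.col (nat_lit 1)) (.slot (nat_lit 1)) (.slot (nat_lit 1))) (.slot (nat_lit 2))) (.slot (nat_lit 3))) (.col (nat_lit 0))
def w23935 : Root := .mk (.col (nat_lit 1)) (.node (.col (nat_lit 1)) (.slot (nat_lit 0)) (.slot (nat_lit 0))) (.node (.col (nat_lit 0)) (.node (.node (.col (nat_lit 3)) (.node (.col (nat_lit 1)) (.slot (nat_lit 1)) (.slot (nat_lit 1))) (.slot (nat_lit 2))) (.node (.col (nat_lit 1)) (.slot (nat_lit 1)) (.slot (nat_lit 1))) (.slot (nat_lit 2))) (.slot (nat_lit 3))) (.node (.col (nat_lit 1)) (.slot (nat_lit 0)) (.slot (nat_lit 0)))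
def w23936 : Root := .mk (.col (nat_lit 1)) (.node (.col (nat_lit 1)) (.slot (nat_lit 0)) (.slot (nat_lit 0))) (.node (.col (nat_lit 0)) (.node (.node (.col (nat_lit 3)) (.node (.col (nat_lit 1)) (.slot (nat_lit 1)) (.slot (nat_lit 1))) (.slot (nat_lit 2))) (.node (.col (nat_lit 1)) (.slot (nat_lit 1)) (.slot (nat_lit 1))) (.slot (nat_lit 2))) (.slot (nat_lit 2))) (.node (.slot (nat_lit 0)) (.slot (nat_lit 1)) (.slot (nat_lit 0)))
def l5403 : Root := .mk (.node (.node (.node (.col (nat_lit 1)) (.node (.col (nat_lit 1)) (.slot (nat_lit 21)) (.slot (nat_lit 21))) (.slot (nat_lit 21))) (.col (nat_lit 0)) (.slot (nat_lit 4))) (.node (.col (nat_lit 1)) (.slot (nat_lit 5)) (.slot (nat_lit 4))) (.slot (nat_lit 8))) (.col (nat_lit 3)) (.node (.col (nat_lit 1)) (.slot (nat_lit 20)) (.slot (nat_lit 12))) (.slot (nat_lit 21))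
def w23937 : Root := .mk (.node (.col (nat_lit 1)) (.node (.col (nat_lit 1)) (.slot (nat_lit 21)) (.slot (nat_lit 21))) (.slot (nat_lit 21))) (.col (nat_lit 0)) (.node (.node (.col (nat_lit 3)) (.slot (nat_lit 21)) (.slot (nat_lit 21))) (.node (.col (nat_lit 1)) (.slot (nat_lit 5)) (.slot (nat_lit 4))) (.slot (nat_lit 8))) (.slot (nat_lit 4))
def w23938 : Root := .mk (.node (.node (.col (nat_lit 1)) (.slot (nat_lit 0)) (.slot (nat_lit 0))) (.node (.node (.col (nat_lit 3)) (.slot (nat_lit 6)) (.slot (nat_lit 6))) (.node (.col (nat_lit 1)) (.slot (nat_lit 6)) (.slot (nat_lit 6))) (.slot (nat_lit 8))) (.col (nat_lit 2))) (.col (nat_lit 2)) (.node (.col (nat_lit 0)) (.col (nat_lit 2)) (.slot (nat_lit 3))) (.col (nat_lit 4))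
def w23939 : Root := .mk (.node (.node (.col (nat_lit 1)) .junk (.slot (nat_lit 1))) (.node (.node (.col (nat_lit 3)) (.slot (nat_lit 1)) (.slot (nat_lit 3))) (.node (.col (nat_lit 1)) (.slot (nat_lit 3)) (.slot (nat_lit 1))) (.slot (nat_lit 8))) (.col (nat_lit 4))) (.col (nat_lit 2)) (.node (.col (nat_lit 0)) .junk (.slot (nat_lit 1))) (.col (nat_lit 4))
def l5404 : Root := .mk (.node (.node (.col (nat_lit 0)) (.node (.node (.col (nat_lit 3)) (.slot (nat_lit 0)) (.slot (nat_lit 0))) (.node (.col (nat_lit 1)) (.slot (nat_lit 1)) (.slot (nat_lit 1))) (.slot (nat_lit 2))) (.col (nat_lit 1))) (.col (nat_lit 2)) (.col (nat_lit 4))) (.col (nat_lit 0)) (.col (nat_lit 2)) (.col (nat_lit 4))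
def w23940 : Root := .mk (.node (.node (.col (nat_lit 0)) (.node (.node (.col (nat_lit 3)) (.slot (nat_lit 0)) (.slot (nat_lit 0))) (.node (.col (nat_lit 1)) (.slot (nat_lit 1)) (.slot (nat_lit 1))) (.slot (nat_lit 2))) (.node (.col (nat_lit 0)) (.slot (nat_lit 0)) (.slot (nat_lit 0)))) (.col (nat_lit 2)) (.col (nat_lit 4))) (.col (nat_lit 0)) (.col (nat_lit 2)) (.col (nat_lit 4))
def l5405 : Root := .mk (.node (.col (nat_lit 0)) (.node (.node (.col (nat_lit 3)) (.slot (nat_lit 0)) (.slot (nat_lit 0))) (.node (.col (nat_lit 1)) (.slot (nat_lit 1)) (.slot (nat_lit 1))) (.slot (nat_lit 2))) (.node (.col (nat_lit 0)) (.slot (nat_lit 1)) (.slot (nat_lit 1)))) (.col (nat_lit 2)) (.node (.col (nat_lit 0)) (.col (nat_lit 2)) (.slot (nat_lit 5))) (.col (nat_lit 4))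
def w23941 : Root := .mk (.node (.node (.col (nat_lit 1)) (.slot (nat_lit 0)) (.slot (nat_lit 0))) (.node (.node (.col (nat_lit 3)) (.slot (nat_lit 0)) (.slot (nat_lit 0))) (.node (.col (nat_lit 1)) (.slot (nat_lit 1)) (.slot (nat_lit 1))) (.slot (nat_lit 2))) (.node (.col (nat_lit 0)) (.slot (nat_lit 1)) (.slot (nat_lit 1)))) (.col (nat_lit 2)) (.node (.col (nat_lit 0)) (.col (nat_lit 2)) (.slot (nat_lit 5))) (.col (nat_lit 4))
def w23942 : Root := .mk (.node (.node (.col (nat_lit 1)) (.node (.col (nat_lit 1)) (.slot (nat_lit 0)) (.slot (nat_lit 0))) (.slot (nat_lit 2))) (.node (.slot (nat_lit 0)) (.slot (nat_lit 0)) (.slot (nat_lit 0))) (.node (.col (nat_lit 1)) (.slot (nat_lit 1)) (.slot (nat_lit 1)))) (.col (nat_lit 2)) (.node (.col (nat_lit 0)) .junk (.slot (nat_lit 1))) (.col (nat_lit 4))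
def w23943 : Root := .mk (.node (.node (.col (nat_lit 0)) (.node (.node (.col (nat_lit 3)) (.slot (nat_lit 0)) (.slot (nat_lit 0))) (.node (.col (nat_lit 1)) (.slot (nat_lit 1)) (.slot (nat_lit 1))) (.slot (nat_lit 2))) (.node (.col (nat_lit 3)) (.slot (nat_lit 0)) (.slot (nat_lit 0)))) (.col (nat_lit 2)) (.col (nat_lit 4))) (.col (nat_lit 0)) (.col (nat_lit 2)) (.col (nat_lit 4))
def l5406 : Root := .mk (.node (.col (nat_lit 0)) (.node (.node (.col (nat_lit 3)) (.slot (nat_lit 0)) (.slot (nat_lit 0))) (.node (.col (nat_lit 1)) (.slot (nat_lit 1)) (.slot (nat_lit 1))) (.slot (nat_lit 2))) (.node (.col (nat_lit 3)) (.slot (nat_lit 1)) (.slot (nat_lit 0)))) (.col (nat_lit 2)) (.node (.col (nat_lit 0)) (.col (nat_lit 2)) (.slot (nat_lit 5))) (.col (nat_lit 4))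
def w23944 : Root := .mk (.node (.node (.col (nat_lit 1)) (.slot (nat_lit 0)) (.slot (nat_lit 0))) (.node (.node (.col (nat_lit 3)) (.slot (nat_lit 0)) (.slot (nat_lit 0))) (.node (.col (nat_lit 1)) (.slot (nat_lit 1)) (.slot (nat_lit 1))) (.slot (nat_lit 2))) (.node (.col (nat_lit 3)) (.slot (nat_lit 1)) (.slot (nat_lit 0)))) (.col (nat_lit 2)) (.node (.col (nat_lit 0)) (.col (nat_lit 2)) (.slot (nat_lit 5))) (.col (nat_lit 4))
def w23945 : Root := .mk (.node (.node (.col (nat_lit 1)) (.slot (nat_lit 0)) (.slot (nat_lit 0))) (.node (.slot (nat_lit 0)) (.slot (nat_lit 0)) (.slot (nat_lit 0))) (.node (.col (nat_lit 4)) (.slot (nat_lit 1)) (.slot (nat_lit 0)))) (.col (nat_lit 2)) (.node (.col (nat_lit 0)) (.col (nat_lit 2)) (.slot (nat_lit 5))) (.col (nat_lit 4))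
def w23946 : Root := .mk (.node (.node (.col (nat_lit 0)) (.node (.node (.col (nat_lit 3)) (.slot (nat_lit 0)) (.slot (nat_lit 0))) (.node (.col (nat_lit 1)) (.slot (nat_lit 1)) (.slot (nat_lit 1))) (.slot (nat_lit 2))) (.slot (nat_lit 1))) (.col (nat_lit 2)) (.col (nat_lit 4))) (.col (nat_lit 0)) (.col (nat_lit 2)) (.col (nat_lit 4))
def l5407 : Root := .mk (.node (.node (.col (nat_lit 0)) (.node (.col (nat_lit 2)) (.node (.col (nat_lit 1)) (.slot (nat_lit 1)) (.slot (nat_lit 1))) (.node (.col (nat_lit 0)) (.slot (nat_lit 5)) (.slot (nat_lit 5)))) (.slot (nat_lit 1))) (.col (nat_lit 2)) (.col (nat_lit 4))) (.col (nat_lit 0)) (.col (nat_lit 2)) (.col (nat_lit 4))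
def w23947 : Root := .mk (.node (.node (.col (nat_lit 0)) (.node (.node (.col (nat_lit 3)) (.slot (nat_lit 0)) (.slot (nat_lit 0))) (.node (.col (nat_lit 1)) (.slot (nat_lit 1)) (.slot (nat_lit 1))) (.node (.col (nat_lit 0)) (.slot (nat_lit 5)) (.slot (nat_lit 5)))) (.slot (nat_lit 1))) (.col (nat_lit 2)) (.col (nat_lit 4))) (.col (nat_lit 0)) (.col (nat_lit 2)) (.col (nat_lit 4))
def l5408 : Root := .mk (.node (.node (.col (nat_lit 0)) (.node (.node (.col (nat_lit 3)) (.slot (nat_lit 1)) (.slot (nat_lit 0))) (.node (.col (nat_lit 1)) (.slot (nat_lit 1)) (.slot (nat_lit 1))) (.node (.col (nat_lit 2)) (.slot (nat_lit 0)) (.slot (nat_lit 0)))) (.col (nat_lit 1))) (.col (nat_lit 2)) (.col (nat_lit 4))) (.col (nat_lit 0)) (.col (nat_lit 2)) (.col (nat_lit 4))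
def w23948 : Root := .mk (.node (.node (.col (nat_lit 0)) (.node (.node (.col (nat_lit 3)) (.slot (nat_lit 1)) (.slot (nat_lit 0))) (.node (.col (nat_lit 1)) (.slot (nat_lit 1)) (.slot (nat_lit 1))) (.node (.col (nat_lit 2)) (.slot (nat_lit 0)) (.slot (nat_lit 0)))) (.slot (nat_lit 1))) (.col (nat_lit 2)) (.col (nat_lit 4))) (.col (nat_lit 0)) (.col (nat_lit 2)) (.col (nat_lit 4))
def l5409 : Root := .mk (.node (.node (.col (nat_lit 0)) (.node (.node (.col (nat_lit 3)) (.slot (nat_lit 1)) (.slot (nat_lit 1))) (.node (.col (nat_lit 1)) (.slot (nat_lit 1)) (.slot (nat_lit 0))) (.node (.slot (nat_lit 0)) (.slot (nat_lit 0)) (.slot (nat_lit 0)))) (.col (nat_lit 1))) (.col (nat_lit 2)) (.col (nat_lit 4))) (.col (nat_lit 0)) (.col (nat_lit 2)) (.col (nat_lit 4))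
def w23949 : Root := .mk (.node (.node (.col (nat_lit 0)) (.node (.node (.col (nat_lit 3)) (.slot (nat_lit 1)) (.slot (nat_lit 1))) (.node (.col (nat_lit 1)) (.slot (nat_lit 1)) (.slot (nat_lit 0))) (.node (.slot (nat_lit 0)) (.slot (nat_lit 0)) (.slot (nat_lit 0)))) (.slot (nat_lit 1))) (.col (nat_lit 2)) (.col (nat_lit 4))) (.col (nat_lit 0)) (.col (nat_lit 2)) (.col (nat_lit 4))
def l5410 : Root := .mk (.node (.node (.col (nat_lit 0)) (.node (.node (.col (nat_lit 3)) (.slot (nat_lit 20)) (.slot (nat_lit 12))) (.node (.col (nat_lit 1)) (.slot (nat_lit 20)) (.slot (nat_lit 12))) (.slot (nat_lit 6))) (.slot (nat_lit 3))) (.col (nat_lit 2)) (.col (nat_lit 4))) (.col (nat_lit 0)) (.col (nat_lit 2)) (.col (nat_lit 4))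
def w23950 : Root := .mk (.node (.node (.node (.col (nat_lit 1)) (.slot (nat_lit 0)) (.slot (nat_lit 0))) (.node (.node (.col (nat_lit 3)) (.slot (nat_lit 20)) (.slot (nat_lit 12))) (.node (.col (nat_lit 1)) (.slot (nat_lit 20)) (.slot (nat_lit 12))) (.slot (nat_lit 6))) (.slot (nat_lit 3))) (.col (nat_lit 2)) (.col (nat_lit 4))) (.col (nat_lit 0)) (.col (nat_lit 2)) (.col (nat_lit 4))
def l5411 : Root := .mk (.node (.col (nat_lit 0)) (.node (.node (.col (nat_lit 3)) (.slot (nat_lit 0)) (.slot (nat_lit 0))) (.node (.col (nat_lit 1)) (.slot (nat_lit 3)) (.slot (nat_lit 3))) (.slot (nat_lit 8))) (.slot (nat_lit 2))) (.col (nat_lit 2)) (.node (.col (nat_lit 0)) (.col (nat_lit 2)) (.node (.col (nat_lit 0)) (.slot (nat_lit 1)) (.slot (nat_lit 1)))) (.col (nat_lit 4))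
def w23951 : Root := .mk (.node (.node (.node (.col (nat_lit 1)) (.slot (nat_lit 0)) (.slot (nat_lit 0))) (.node (.node (.col (nat_lit 3)) (.slot (nat_lit 0)) (.slot (nat_lit 0))) (.node (.col (nat_lit 1)) (.slot (nat_lit 3)) (.slot (nat_lit 3))) (.slot (nat_lit 8))) (.slot (nat_lit 2))) (.col (nat_lit 2)) (.col (nat_lit 4))) (.col (nat_lit 0)) (.col (nat_lit 2)) (.node (.col (nat_lit 0)) (.slot (nat_lit 1)) (.slot (nat_lit 1)))
def l5412 : Root := .mk (.node (.col (nat_lit 0)) (.node (.node (.col (nat_lit 3)) (.slot (nat_lit 0)) (.slot (nat_lit 0))) (.node (.col (nat_lit 1)) (.slot (nat_lit 3)) (.slot (nat_lit 3))) (.slot (nat_lit 8))) (.slot (nat_lit 3))) (.col (nat_lit 2)) (.node (.col (nat_lit 0)) (.col (nat_lit 2)) (.node (.col (nat_lit 2)) (.slot (nat_lit 1)) (.slot (nat_lit 1)))) (.col (nat_lit 4))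
def w23952 : Root := .mk (.node (.node (.node (.col (nat_lit 1)) (.slot (nat_lit 0)) (.slot (nat_lit 0))) (.node (.node (.col (nat_lit 3)) (.slot (nat_lit 0)) (.slot (nat_lit 0))) (.node (.col (nat_lit 1)) (.slot (nat_lit 3)) (.slot (nat_lit 3))) (.slot (nat_lit 8))) (.slot (nat_lit 3))) (.col (nat_lit 2)) (.col (nat_lit 4))) (.col (nat_lit 0)) (.col (nat_lit 2)) (.node (.col (nat_lit 2)) (.slot (nat_lit 1)) (.slot (nat_lit 1)))
def l5413 : Root := .mk (.node (.col (nat_lit 0)) (.node (.node (.col (nat_lit 3)) (.slot (nat_lit 0)) (.slot (nat_lit 0))) (.node (.col (nat_lit 1)) (.slot (nat_lit 3)) (.slot (nat_lit 3))) (.slot (nat_lit 8))) (.slot (nat_lit 2))) (.col (nat_lit 2)) (.node (.col (nat_lit 0)) (.col (nat_lit 2)) (.node (.slot (nat_lit 0)) (.slot (nat_lit 1)) (.slot (nat_lit 0)))) (.col (nat_lit 4))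
def w23953 : Root := .mk (.node (.node (.node (.col (nat_lit 1)) (.slot (nat_lit 0)) (.slot (nat_lit 0))) (.node (.node (.col (nat_lit 3)) (.slot (nat_lit 0)) (.slot (nat_lit 0))) (.node (.col (nat_lit 1)) (.slot (nat_lit 3)) (.slot (nat_lit 3))) (.slot (nat_lit 8))) (.slot (nat_lit 2))) (.col (nat_lit 2)) (.col (nat_lit 4))) (.col (nat_lit 0)) (.col (nat_lit 2)) (.node (.slot (nat_lit 0)) (.slot (nat_lit 1)) (.slot (nat_lit 0)))
def w23954 : Root := .mk (.node (.node (.col (nat_lit 1)) (.node (.col (nat_lit 1)) (.slot (nat_lit 0)) (.slot (nat_lit 0))) (.slot (nat_lit 2))) (.node (.col (nat_lit 1)) (.slot (nat_lit 0)) (.slot (nat_lit 0))) (.slot (nat_lit 2))) (.col (nat_lit 2)) (.node (.col (nat_lit 0)) (.col (nat_lit 2)) (.slot (nat_lit 5))) (.col (nat_lit 4))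
def l5414 : Root := .mk (.node (.node (.col (nat_lit 1)) (.node (.col (nat_lit 1)) (.slot (nat_lit 21)) (.slot (nat_lit 21))) (.slot (nat_lit 21))) (.node (.node (.col (nat_lit 3)) (.slot (nat_lit 21)) (.slot (nat_lit 21))) (.node (.col (nat_lit 1)) (.slot (nat_lit 20)) (.slot (nat_lit 12))) (.slot (nat_lit 8))) (.slot (nat_lit 4))) (.col (nat_lit 2)) (.node (.col (nat_lit 0)) (.col (nat_lit 2)) (.slot (nat_lit 8))) (.col (nat_lit 4))
def w23955 : Root := .mk (.node (.node (.node (.col (nat_lit 1)) (.node (.col (nat_lit 1)) (.slot (nat_lit 21)) (.slot (nat_lit 21))) (.slot (nat_lit 21))) (.node (.node (.col (nat_lit 3)) (.slot (nat_lit 21)) (.slot (nat_lit 21))) (.node (.col (nat_lit 1)) (.slot (nat_lit 20)) (.slot (nat_lit 12))) (.slot (nat_lit 8))) (.slot (nat_lit 4))) (.col (nat_lit 2)) (.slot (nat_lit 1))) (.col (nat_lit 0)) (.col (nat_lit 2)) (.slot (nat_lit 8))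
def w23956 : Root := .mk (.node (.node (.slot (nat_lit 0)) (.node (.col (nat_lit 2)) (.node (.col (nat_lit 0)) (.col (nat_lit 2)) (.slot (nat_lit 5))) (.slot (nat_lit 8))) (.slot (nat_lit 1))) (.node (.col (nat_lit 3)) (.slot (nat_lit 1)) (.slot (nat_lit 0))) (.slot (nat_lit 1))) (.col (nat_lit 2)) (.col (nat_lit 3)) (.node (.col (nat_lit 2)) (.slot (nat_lit 0)) (.slot (nat_lit 0)))
def w23957 : Root := .mk (.node (.node (.slot (nat_lit 0)) (.node (.col (nat_lit 2)) (.node (.col (nat_lit 0)) (.col (nat_lit 2)) (.slot (nat_lit 5))) (.slot (nat_lit 8))) (.slot (nat_lit 1))) (.node (.col (nat_lit 3)) (.slot (nat_lit 2)) (.slot (nat_lit 1))) (.slot (nat_lit 1))) (.col (nat_lit 2)) (.col (nat_lit 3)) (.node (.col (nat_lit 3)) (.slot (nat_lit 1)) (.slot (nat_lit 1)))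
def w23958 : Root := .mk (.node (.node (.slot (nat_lit 0)) (.node (.col (nat_lit 2)) (.node (.col (nat_lit 0)) (.col (nat_lit 2)) (.slot (nat_lit 5))) (.slot (nat_lit 8))) (.slot (nat_lit 1))) (.node (.col (nat_lit 3)) (.slot (nat_lit 1)) (.slot (nat_lit 0))) (.slot (nat_lit 1))) (.col (nat_lit 2)) (.col (nat_lit 3)) (.node (.slot (nat_lit 0)) (.slot (nat_lit 0)) (.slot (nat_lit 0)))
def w23959 : Root := .mk (.node (.node (.node (.col (nat_lit 1)) (.slot (nat_lit 0)) (.slot (nat_lit 0))) (.node (.col (nat_lit 2)) (.node (.col (nat_lit 0)) (.col (nat_lit 2)) (.slot (nat_lit 5))) (.slot (nat_lit 10))) (.slot (nat_lit 3))) (.col (nat_lit 2)) (.node (.col (nat_lit 3)) (.slot (nat_lit 1)) (.slot (nat_lit 1)))) (.col (nat_lit 2)) (.col (nat_lit 3)) (.node (.col (nat_lit 3)) (.slot (nat_lit 0)) (.slot (nat_lit 0)))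
def w23961 : Root := .mk (.node (.slot (nat_lit 0)) (.node (.col (nat_lit 2)) (.node (.col (nat_lit 0)) (.col (nat_lit 2)) (.slot (nat_lit 5))) (.slot (nat_lit 8))) (.slot (nat_lit 1))) (.col (nat_lit 2)) (.node (.col (nat_lit 2)) (.col (nat_lit 3)) (.slot (nat_lit 2))) (.node (.col (nat_lit 3)) (.node (.slot (nat_lit 0)) (.slot (nat_lit 0)) (.slot (nat_lit 0))) (.slot (nat_lit 0)))
def l5415 : Root := .mk (.node (.node (.col (nat_lit 1)) (.node (.col (nat_lit 1)) (.slot (nat_lit 0)) (.slot (nat_lit 0))) (.slot (nat_lit 2))) (.node (.col (nat_lit 2)) (.node (.col (nat_lit 0)) (.col (nat_lit 2)) (.slot (nat_lit 21))) (.slot (nat_lit 10))) (.slot (nat_lit 3))) (.col (nat_lit 2)) (.node (.col (nat_lit 2)) (.col (nat_lit 3)) (.slot (nat_lit 21))) (.node (.col (nat_lit 3)) (.slot (nat_lit 7)) (.slot (nat_lit 5)))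
def w23962 : Root := .mk (.node (.node (.node (.col (nat_lit 1)) (.node (.col (nat_lit 1)) (.slot (nat_lit 0)) (.slot (nat_lit 0))) (.slot (nat_lit 2))) (.node (.col (nat_lit 2)) (.node (.col (nat_lit 0)) (.col (nat_lit 2)) (.slot (nat_lit 21))) (.slot (nat_lit 10))) (.slot (nat_lit 3))) (.col (nat_lit 2)) (.slot (nat_lit 8))) (.col (nat_lit 2)) (.col (nat_lit 3)) (.slot (nat_lit 21))
def l5416 : Root := .mk (.node (.node (.node (.col (nat_lit 1)) (.node (.col (nat_lit 1)) (.slot (nat_lit 0)) (.slot (nat_lit 0))) (.slot (nat_lit 3))) (.node (.col (nat_lit 2)) (.node (.col (nat_lit 0)) (.col (nat_lit 2)) (.slot (nat_lit 21))) (.slot (nat_lit 8))) (.slot (nat_lit 4))) (.node (.col (nat_lit 3)) (.slot (nat_lit 20)) (.slot (nat_lit 12))) (.slot (nat_lit 21))) (.col (nat_lit 2)) (.col (nat_lit 3)) (.slot (nat_lit 21))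
def w23963 : Root := .mk (.node (.node (.node (.col (nat_lit 1)) (.node (.col (nat_lit 1)) (.slot (nat_lit 0)) (.slot (nat_lit 0))) (.slot (nat_lit 3))) (.node (.node (.col (nat_lit 3)) (.slot (nat_lit 20)) (.slot (nat_lit 12))) (.node (.col (nat_lit 2)) (.slot (nat_lit 1)) (.slot (nat_lit 21))) (.slot (nat_lit 21))) (.slot (nat_lit 4))) (.col (nat_lit 2)) (.slot (nat_lit 8))) (.col (nat_lit 0)) (.col (nat_lit 2)) (.slot (nat_lit 21))
def w23964 : Root := .mk (.node (.col (nat_lit 1)) (.node (.col (nat_lit 1)) (.slot (nat_lit 3)) (.slot (nat_lit 1))) (.slot (nat_lit 1))) (.col (nat_lit 0)) (.node (.node (.col (nat_lit 3)) (.slot (nat_lit 21)) (.slot (nat_lit 21))) (.node (.col (nat_lit 4)) (.slot (nat_lit 20)) (.slot (nat_lit 12))) (.slot (nat_lit 21))) (.slot (nat_lit 21))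
def l5417 : Root := .mk (.col (nat_lit 0)) (.node (.col (nat_lit 2)) (.node (.col (nat_lit 0)) (.col (nat_lit 2)) (.slot (nat_lit 4))) (.col (nat_lit 1))) (.node (.node (.col (nat_lit 3)) (.slot (nat_lit 6)) (.slot (nat_lit 6))) (.node (.col (nat_lit 4)) (.slot (nat_lit 6)) (.slot (nat_lit 6))) (.slot (nat_lit 8))) (.col (nat_lit 1))
def w23965 : Root := .mk (.node (.node (.col (nat_lit 1)) (.slot (nat_lit 0)) (.slot (nat_lit 0))) (.node (.node (.col (nat_lit 3)) (.slot (nat_lit 6)) (.slot (nat_lit 6))) (.node (.col (nat_lit 4)) (.slot (nat_lit 6)) (.slot (nat_lit 6))) (.slot (nat_lit 8))) (.col (nat_lit 1))) (.col (nat_lit 2)) (.node (.col (nat_lit 0)) (.col (nat_lit 2)) (.slot (nat_lit 4))) (.col (nat_lit 1))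
def w23966 : Root := .mk (.node (.node (.node (.col (nat_lit 1)) (.slot (nat_lit 0)) (.slot (nat_lit 0))) (.node (.node (.col (nat_lit 3)) (.slot (nat_lit 20)) (.slot (nat_lit 12))) (.node (.col (nat_lit 4)) (.slot (nat_lit 20)) (.slot (nat_lit 12))) (.slot (nat_lit 6))) (.slot (nat_lit 3))) (.col (nat_lit 2)) (.col (nat_lit 1))) (.col (nat_lit 0)) (.col (nat_lit 2)) (.col (nat_lit 1))
def w23967 : Root := .mk (.node (.node (.node (.col (nat_lit 1)) (.slot (nat_lit 0)) (.slot (nat_lit 0))) (.node (.node (.col (nat_lit 3)) (.slot (nat_lit 0)) (.slot (nat_lit 0))) (.node (.col (nat_lit 4)) (.slot (nat_lit 3)) (.slot (nat_lit 3))) (.slot (nat_lit 8))) (.slot (nat_lit 2))) (.col (nat_lit 2)) (.col (nat_lit 1))) (.col (nat_lit 0)) (.col (nat_lit 2)) (.node (.col (nat_lit 0)) (.slot (nat_lit 1)) (.slot (nat_lit 1)))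
def w23968 : Root := .mk (.node (.node (.node (.col (nat_lit 1)) (.slot (nat_lit 0)) (.slot (nat_lit 0))) (.node (.node (.col (nat_lit 3)) (.slot (nat_lit 0)) (.slot (nat_lit 0))) (.node (.col (nat_lit 4)) (.slot (nat_lit 3)) (.slot (nat_lit 3))) (.slot (nat_lit 8))) (.slot (nat_lit 3))) (.col (nat_lit 2)) (.col (nat_lit 1))) (.col (nat_lit 0)) (.col (nat_lit 2)) (.node (.col (nat_lit 2)) (.slot (nat_lit 1)) (.slot (nat_lit 1)))
def w23969 : Root := .mk (.node (.node (.node (.col (nat_lit 1)) (.slot (nat_lit 0)) (.slot (nat_lit 0))) (.node (.node (.col (nat_lit 3)) (.slot (nat_lit 0)) (.slot (nat_lit 0))) (.node (.col (nat_lit 4)) (.slot (nat_lit 3)) (.slot (nat_lit 3))) (.slot (nat_lit 8))) (.slot (nat_lit 2))) (.col (nat_lit 2)) (.col (nat_lit 1))) (.col (nat_lit 0)) (.col (nat_lit 2)) (.node (.slot (nat_lit 0)) (.slot (nat_lit 1)) (.slot (nat_lit 0)))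
def l5418 : Root := .mk (.node (.node (.col (nat_lit 1)) (.node (.col (nat_lit 1)) (.slot (nat_lit 3)) (.slot (nat_lit 1))) (.slot (nat_lit 1))) (.node (.node (.col (nat_lit 3)) (.slot (nat_lit 21)) (.slot (nat_lit 21))) (.node (.col (nat_lit 4)) (.slot (nat_lit 20)) (.slot (nat_lit 12))) (.slot (nat_lit 21))) (.slot (nat_lit 21))) (.col (nat_lit 2)) (.node (.col (nat_lit 0)) (.col (nat_lit 2)) (.slot (nat_lit 8))) (.col (nat_lit 1))
def w23970 : Root := .mk (.node (.node (.node (.col (nat_lit 1)) (.node (.col (nat_lit 1)) (.slot (nat_lit 3)) (.slot (nat_lit 1))) (.slot (nat_lit 1))) (.node (.node (.col (nat_lit 3)) (.slot (nat_lit 21)) (.slot (nat_lit 21))) (.node (.col (nat_lit 4)) (.slot (nat_lit 20)) (.slot (nat_lit 12))) (.slot (nat_lit 21))) (.slot (nat_lit 21))) (.col (nat_lit 2)) (.slot (nat_lit 1))) (.col (nat_lit 0)) (.col (nat_lit 2)) (.slot (nat_lit 8))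
def w23972 : Root := .mk (.node (.col (nat_lit 1)) (.node (.node (.col (nat_lit 2)) (.node (.col (nat_lit 0)) (.col (nat_lit 2)) (.slot (nat_lit 2))) (.slot (nat_lit 8))) (.node (.node (.col (nat_lit 3)) (.slot (nat_lit 12)) (.slot (nat_lit 10))) (.slot (nat_lit 7)) (.slot (nat_lit 5))) (.slot (nat_lit 8))) (.slot (nat_lit 3))) (.col (nat_lit 1)) (.col (nat_lit 2)) (.slot (nat_lit 0))
def w23973 : Root := .mk (.node (.col (nat_lit 1)) (.node (.node (.col (nat_lit 2)) (.node (.col (nat_lit 0)) (.col (nat_lit 2)) (.slot (nat_lit 5))) (.slot (nat_lit 8))) (.node (.node (.col (nat_lit 3)) (.slot (nat_lit 12)) (.slot (nat_lit 10))) (.slot (nat_lit 7)) (.slot (nat_lit 5))) (.slot (nat_lit 8))) (.slot (nat_lit 1))) (.col (nat_lit 1)) (.col (nat_lit 3)) (.slot (nat_lit 8))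
def w23974 : Root := .mk (.node (.node (.node (.col (nat_lit 1)) (.node .junk (.col (nat_lit 4)) (.col (nat_lit 2))) (.slot (nat_lit 1))) (.col (nat_lit 3)) (.slot (nat_lit 1))) (.col (nat_lit 2)) (.slot (nat_lit 1))) (.col (nat_lit 0)) (.col (nat_lit 2)) (.slot (nat_lit 1))
def l5419 : Root := .mk (.node (.col (nat_lit 1)) (.node (.node (.col (nat_lit 2)) (.node (.col (nat_lit 0)) (.col (nat_lit 2)) (.slot (nat_lit 1))) (.slot (nat_lit 2))) (.col (nat_lit 3)) (.slot (nat_lit 3))) (.slot (nat_lit 3))) (.col (nat_lit 1)) (.col (nat_lit 4)) (.node (.col (nat_lit 0)) (.slot (nat_lit 20)) (.slot (nat_lit 9)))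
def w23975 : Root := .mk (.node (.col (nat_lit 1)) (.node (.node (.col (nat_lit 2)) (.node (.col (nat_lit 0)) (.col (nat_lit 2)) (.slot (nat_lit 1))) (.slot (nat_lit 2))) (.col (nat_lit 3)) (.slot (nat_lit 3))) (.slot (nat_lit 3))) (.col (nat_lit 1)) (.col (nat_lit 4)) (.slot (nat_lit 21))
def l5420 : Root := .mk (.col (nat_lit 1)) (.node (.col (nat_lit 1)) (.col (nat_lit 4)) (.slot (nat_lit 5))) (.node (.node (.col (nat_lit 2)) (.node (.col (nat_lit 0)) .junk .junk) (.slot (nat_lit 1))) (.node (.col (nat_lit 2)) (.col (nat_lit 1)) (.slot (nat_lit 3))) (.slot (nat_lit 3))) (.col (nat_lit 2))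
def w23976 : Root := .mk (.node (.node (.col (nat_lit 1)) (.node (.col (nat_lit 1)) (.col (nat_lit 4)) (.slot (nat_lit 5))) (.slot (nat_lit 1))) (.node (.col (nat_lit 2)) (.node (.col (nat_lit 0)) .junk .junk) (.slot (nat_lit 1))) (.slot (nat_lit 3))) (.col (nat_lit 2)) (.col (nat_lit 1)) (.slot (nat_lit 3))
def w23977 : Root := .mk (.node (.node (.col (nat_lit 1)) (.node (.col (nat_lit 1)) (.col (nat_lit 4)) (.slot (nat_lit 4))) (.slot (nat_lit 4))) (.node (.col (nat_lit 2)) (.slot (nat_lit 0)) (.slot (nat_lit 0))) (.slot (nat_lit 3))) (.node (.col (nat_lit 3)) (.slot (nat_lit 3)) (.slot (nat_lit 1))) (.col (nat_lit 1)) (.col (nat_lit 3))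
def l5421 : Root := .mk (.node (.node (.col (nat_lit 1)) (.node (.col (nat_lit 1)) (.col (nat_lit 4)) (.slot (nat_lit 1))) (.slot (nat_lit 2))) (.node (.node (.col (nat_lit 3)) (.slot (nat_lit 20)) (.slot (nat_lit 9))) (.col (nat_lit 1)) (.node (.slot (nat_lit 0)) (.slot (nat_lit 0)) (.slot (nat_lit 0)))) (.slot (nat_lit 5))) (.col (nat_lit 2)) (.node (.col (nat_lit 0)) (.col (nat_lit 2)) (.slot (nat_lit 8))) (.col (nat_lit 1))
def w23978 : Root := .mk (.node (.node (.col (nat_lit 1)) (.node (.col (nat_lit 1)) (.col (nat_lit 4)) (.slot (nat_lit 1))) (.slot (nat_lit 2))) (.node (.col (nat_lit 2)) (.node (.col (nat_lit 0)) (.col (nat_lit 2)) (.slot (nat_lit 8))) (.slot (nat_lit 1))) (.slot (nat_lit 5))) (.node (.col (nat_lit 3)) (.slot (nat_lit 20)) (.slot (nat_lit 9))) (.col (nat_lit 1)) (.node (.slot (nat_lit 0)) (.slot (nat_lit 0)) (.slot (nat_lit 0)))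
def w23979 : Root := .mk (.node (.node (.node (.col (nat_lit 1)) (.slot (nat_lit 0)) (.slot (nat_lit 2))) (.node (.col (nat_lit 2)) (.slot (nat_lit 0)) (.slot (nat_lit 0))) (.slot (nat_lit 8))) (.col (nat_lit 1)) (.slot (nat_lit 5))) (.col (nat_lit 3)) (.col (nat_lit 1)) (.node (.col (nat_lit 2)) (.node (.slot (nat_lit 0)) (.slot (nat_lit 0)) (.slot (nat_lit 0))) (.slot (nat_lit 3)))
def l5422 : Root := .mk (.node (.node (.node (.col (nat_lit 1)) (.node (.col (nat_lit 1)) (.col (nat_lit 4)) (.slot (nat_lit 21))) (.slot (nat_lit 8))) (.node (.col (nat_lit 2)) (.node (.col (nat_lit 0)) (.col (nat_lit 2)) (.slot (nat_lit 5))) (.slot (nat_lit 8))) (.slot (nat_lit 8))) (.col (nat_lit 1)) (.slot (nat_lit 5))) (.col (nat_lit 3)) (.col (nat_lit 1)) (.node (.col (nat_lit 2)) (.slot (nat_lit 20)) (.slot (nat_lit 12)))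
def w23980 : Root := .mk (.node (.node (.node (.col (nat_lit 1)) (.node (.col (nat_lit 1)) (.col (nat_lit 4)) (.slot (nat_lit 21))) (.slot (nat_lit 8))) (.node (.col (nat_lit 2)) (.node (.col (nat_lit 0)) (.col (nat_lit 2)) (.slot (nat_lit 5))) (.slot (nat_lit 8))) (.slot (nat_lit 8))) (.col (nat_lit 1)) (.slot (nat_lit 5))) (.col (nat_lit 3)) (.col (nat_lit 1)) (.slot (nat_lit 21))
def l5423 : Root := .mk (.node (.col (nat_lit 1)) (.node (.node (.col (nat_lit 2)) (.node (.col (nat_lit 0)) (.col (nat_lit 2)) (.slot (nat_lit 21))) (.slot (nat_lit 21))) (.node (.node (.col (nat_lit 3)) (.slot (nat_lit 21)) (.slot (nat_lit 21))) (.col (nat_lit 1)) (.slot (nat_lit 21))) (.slot (nat_lit 8))) (.slot (nat_lit 8))) (.col (nat_lit 1)) (.col (nat_lit 4)) (.slot (nat_lit 21))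
def w23981 : Root := .mk (.node (.col (nat_lit 1)) (.node (.node (.col (nat_lit 2)) (.node (.col (nat_lit 0)) (.col (nat_lit 2)) (.slot (nat_lit 21))) (.slot (nat_lit 21))) (.node (.node (.col (nat_lit 3)) (.slot (nat_lit 21)) (.slot (nat_lit 21))) (.slot (nat_lit 1)) (.slot (nat_lit 21))) (.slot (nat_lit 8))) (.slot (nat_lit 8))) (.col (nat_lit 1)) (.col (nat_lit 4)) (.slot (nat_lit 21))
def w23982 : Root := .mk (.node (.node (.node (.col (nat_lit 1)) (.node (.col (nat_lit 1)) (.slot (nat_lit 0)) (.slot (nat_lit 0))) (.slot (nat_lit 3))) (.node (.node (.col (nat_lit 3)) (.slot (nat_lit 12)) (.slot (nat_lit 10))) (.slot (nat_lit 7)) (.slot (nat_lit 5))) (.slot (nat_lit 8))) (.col (nat_lit 2)) (.slot (nat_lit 1))) (.col (nat_lit 0)) .junk (.col (nat_lit 1))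
def w23983 : Root := .mk (.node (.node (.node (.col (nat_lit 1)) (.slot (nat_lit 0)) (.slot (nat_lit 0))) (.node (.col (nat_lit 2)) (.col (nat_lit 1)) (.slot (nat_lit 3))) (.slot (nat_lit 3))) (.col (nat_lit 2)) (.slot (nat_lit 1))) (.col (nat_lit 0)) (.col (nat_lit 2)) (.col (nat_lit 3))
def w23984 : Root := .mk (.node (.node (.node (.col (nat_lit 1)) (.slot (nat_lit 0)) (.slot (nat_lit 1))) (.node (.node (.col (nat_lit 3)) (.slot (nat_lit 20)) (.slot (nat_lit 9))) (.col (nat_lit 1)) (.node (.slot (nat_lit 0)) (.slot (nat_lit 0)) (.slot (nat_lit 0)))) (.slot (nat_lit 3))) (.col (nat_lit 2)) (.slot (nat_lit 1))) (.col (nat_lit 0)) (.col (nat_lit 2)) (.col (nat_lit 3))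
def w23985 : Root := .mk (.node (.col (nat_lit 1)) (.slot (nat_lit 0)) (.slot (nat_lit 1))) (.node (.col (nat_lit 2)) (.node (.col (nat_lit 0)) .junk (.col (nat_lit 3))) (.slot (nat_lit 1))) (.node (.node (.col (nat_lit 3)) (.slot (nat_lit 3)) (.slot (nat_lit 3))) (.col (nat_lit 1)) (.slot (nat_lit 5))) (.node (.col (nat_lit 2)) (.slot (nat_lit 0)) (.slot (nat_lit 0)))
def w23986 : Root := .mk (.node (.node (.node (.col (nat_lit 1)) (.slot (nat_lit 0)) (.slot (nat_lit 0))) (.node (.node (.col (nat_lit 3)) (.node (.col (nat_lit 3)) (.slot (nat_lit 0)) (.slot (nat_lit 0))) (.slot (nat_lit 2))) (.col (nat_lit 1)) (.slot (nat_lit 2))) (.slot (nat_lit 3))) (.col (nat_lit 2)) (.slot (nat_lit 1))) (.col (nat_lit 0)) (.col (nat_lit 2)) (.col (nat_lit 3))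
def w23987 : Root := .mk (.node (.node (.node (.col (nat_lit 1)) (.slot (nat_lit 0)) (.slot (nat_lit 0))) (.node (.node (.col (nat_lit 3)) (.slot (nat_lit 1)) (.slot (nat_lit 6))) (.col (nat_lit 1)) (.slot (nat_lit 8))) (.slot (nat_lit 8))) (.col (nat_lit 2)) (.col (nat_lit 0))) (.col (nat_lit 0)) (.col (nat_lit 2)) (.col (nat_lit 3))
def w23988 : Root := .mk (.node (.node (.node (.col (nat_lit 1)) (.node (.col (nat_lit 1)) (.slot (nat_lit 0)) (.slot (nat_lit 0))) (.slot (nat_lit 2))) (.node (.node (.col (nat_lit 3)) (.slot (nat_lit 1)) (.slot (nat_lit 1))) (.col (nat_lit 1)) (.slot (nat_lit 2))) (.slot (nat_lit 2))) (.col (nat_lit 2)) (.col (nat_lit 3))) (.col (nat_lit 0)) (.col (nat_lit 2)) (.col (nat_lit 3))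
def l5424 : Root := .mk (.node (.node (.node (.col (nat_lit 1)) (.node (.col (nat_lit 1)) (.slot (nat_lit 2)) (.slot (nat_lit 1))) (.slot (nat_lit 6))) (.node (.node (.col (nat_lit 3)) (.slot (nat_lit 20)) (.slot (nat_lit 12))) (.col (nat_lit 1)) (.slot (nat_lit 21))) (.slot (nat_lit 8))) (.col (nat_lit 2)) (.slot (nat_lit 4))) (.col (nat_lit 0)) (.col (nat_lit 2)) (.col (nat_lit 3))
def w23989 : Root := .mk (.node (.node (.node (.col (nat_lit 1)) (.node (.col (nat_lit 1)) (.slot (nat_lit 2)) (.slot (nat_lit 1))) (.slot (nat_lit 6))) (.node (.node (.col (nat_lit 3)) (.slot (nat_lit 20)) (.slot (nat_lit 12))) (.slot (nat_lit 1)) (.slot (nat_lit 21))) (.slot (nat_lit 8))) (.col (nat_lit 2)) (.slot (nat_lit 4))) (.col (nat_lit 0)) (.col (nat_lit 2)) (.col (nat_lit 3))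
def l5425 : Root := .mk (.node (.node (.node (.col (nat_lit 1)) (.col (nat_lit 2)) (.slot (nat_lit 6))) (.col (nat_lit 3)) (.slot (nat_lit 1))) (.col (nat_lit 2)) (.slot (nat_lit 6))) (.col (nat_lit 0)) (.col (nat_lit 2)) (.col (nat_lit 4))
def w23990 : Root := .mk (.node (.node (.node (.col (nat_lit 1)) (.node (.col (nat_lit 1)) (.slot (nat_lit 0)) (.slot (nat_lit 0))) (.slot (nat_lit 6))) (.col (nat_lit 3)) (.slot (nat_lit 1))) (.col (nat_lit 2)) (.slot (nat_lit 6))) (.col (nat_lit 0)) (.col (nat_lit 2)) (.col (nat_lit 4))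
def w23991 : Root := .mk (.node (.node (.node (.col (nat_lit 1)) (.slot (nat_lit 0)) (.slot (nat_lit 0))) (.node (.node (.col (nat_lit 3)) (.slot (nat_lit 0)) (.slot (nat_lit 0))) (.col (nat_lit 2)) (.col (nat_lit 3))) (.slot (nat_lit 3))) (.col (nat_lit 2)) (.slot (nat_lit 1))) (.col (nat_lit 0)) (.col (nat_lit 2)) (.col (nat_lit 4))
def w23993 : Root := .mk (.node (.col (nat_lit 1)) (.slot (nat_lit 0)) (.slot (nat_lit 0))) (.node (.col (nat_lit 2)) (.node (.col (nat_lit 0)) .junk (.col (nat_lit 4))) (.slot (nat_lit 1))) (.node (.node (.col (nat_lit 3)) (.slot (nat_lit 7)) (.slot (nat_lit 5))) (.col (nat_lit 2)) (.slot (nat_lit 8))) (.slot (nat_lit 0))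
def w23994 : Root := .mk (.node (.node (.node (.col (nat_lit 1)) (.slot (nat_lit 0)) (.slot (nat_lit 0))) (.node (.node (.col (nat_lit 3)) (.node (.col (nat_lit 3)) (.slot (nat_lit 0)) (.slot (nat_lit 0))) (.slot (nat_lit 2))) (.col (nat_lit 2)) (.slot (nat_lit 2))) (.slot (nat_lit 3))) (.col (nat_lit 2)) (.slot (nat_lit 1))) (.col (nat_lit 0)) (.col (nat_lit 2)) (.col (nat_lit 4))
def l5426 : Root := .mk (.node (.node (.node (.col (nat_lit 1)) (.node (.col (nat_lit 1)) (.slot (nat_lit 0)) (.slot (nat_lit 0))) (.slot (nat_lit 6))) (.node (.node (.col (nat_lit 3)) (.slot (nat_lit 20)) (.slot (nat_lit 12))) (.col (nat_lit 2)) (.slot (nat_lit 21))) (.slot (nat_lit 8))) (.col (nat_lit 2)) (.slot (nat_lit 6))) (.col (nat_lit 0)) (.col (nat_lit 2)) (.col (nat_lit 4))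
def w23995 : Root := .mk (.node (.node (.node (.col (nat_lit 1)) (.node (.col (nat_lit 1)) (.slot (nat_lit 0)) (.slot (nat_lit 0))) (.slot (nat_lit 6))) (.node (.node (.col (nat_lit 3)) (.slot (nat_lit 20)) (.slot (nat_lit 12))) (.slot (nat_lit 1)) (.slot (nat_lit 21))) (.slot (nat_lit 8))) (.col (nat_lit 2)) (.slot (nat_lit 6))) (.col (nat_lit 0)) (.col (nat_lit 2)) (.col (nat_lit 4))
def w23996 : Root := .mk (.node (.node (.node (.col (nat_lit 1)) (.node (.col (nat_lit 1)) (.slot (nat_lit 0)) (.slot (nat_lit 0))) (.slot (nat_lit 2))) (.col (nat_lit 3)) (.slot (nat_lit 2))) (.col (nat_lit 2)) (.slot (nat_lit 3))) (.col (nat_lit 0)) (.col (nat_lit 2)) (.node (.col (nat_lit 0)) (.slot (nat_lit 3)) (.slot (nat_lit 1)))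
def w23997 : Root := .mk (.node (.node (.node (.col (nat_lit 1)) (.slot (nat_lit 0)) (.slot (nat_lit 1))) (.node (.col (nat_lit 2)) (.col (nat_lit 1)) (.slot (nat_lit 1))) (.slot (nat_lit 1))) (.col (nat_lit 2)) (.slot (nat_lit 3))) (.col (nat_lit 0)) (.col (nat_lit 2)) (.node (.col (nat_lit 0)) (.slot (nat_lit 3)) (.slot (nat_lit 1)))
def w23998 : Root := .mk (.node (.node (.node (.col (nat_lit 1)) (.slot (nat_lit 0)) (.slot (nat_lit 0))) (.node (.node (.col (nat_lit 3)) (.slot (nat_lit 1)) (.slot (nat_lit 1))) (.col (nat_lit 1)) (.slot (nat_lit 2))) (.col (nat_lit 1))) (.col (nat_lit 2)) (.slot (nat_lit 1))) (.col (nat_lit 0)) (.col (nat_lit 2)) (.node (.col (nat_lit 0)) (.slot (nat_lit 0)) (.slot (nat_lit 0)))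
def w23999 : Root := .mk (.node (.node (.node (.col (nat_lit 1)) (.node (.col (nat_lit 1)) (.slot (nat_lit 0)) (.slot (nat_lit 0))) (.slot (nat_lit 2))) (.node (.node (.col (nat_lit 3)) (.slot (nat_lit 1)) (.slot (nat_lit 1))) (.col (nat_lit 1)) (.slot (nat_lit 2))) (.node (.col (nat_lit 0)) (.slot (nat_lit 0)) (.slot (nat_lit 0)))) (.col (nat_lit 2)) (.slot (nat_lit 3))) (.col (nat_lit 0)) (.col (nat_lit 2)) (.node (.col (nat_lit 0)) (.slot (nat_lit 3)) (.slot (nat_lit 1)))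
def w24000 : Root := .mk (.node (.node (.node (.col (nat_lit 1)) (.slot (nat_lit 0)) (.slot (nat_lit 0))) (.node (.node (.col (nat_lit 3)) (.slot (nat_lit 1)) (.slot (nat_lit 1))) (.col (nat_lit 1)) (.slot (nat_lit 2))) (.node (.col (nat_lit 2)) (.slot (nat_lit 1)) (.slot (nat_lit 1)))) (.col (nat_lit 2)) (.slot (nat_lit 1))) (.col (nat_lit 0)) (.col (nat_lit 2)) (.slot (nat_lit 0))
def w24001 : Root := .mk (.node (.node (.node (.col (nat_lit 1)) (.slot (nat_lit 0)) (.slot (nat_lit 1))) (.node (.node (.col (nat_lit 3)) (.slot (nat_lit 2)) (.slot (nat_lit 2))) (.col (nat_lit 1)) (.slot (nat_lit 1))) (.node (.col (nat_lit 3)) (.slot (nat_lit 0)) (.slot (nat_lit 0)))) (.col (nat_lit 2)) (.slot (nat_lit 3))) (.col (nat_lit 0)) (.col (nat_lit 2)) (.node (.col (nat_lit 0)) (.slot (nat_lit 3)) (.slot (nat_lit 1)))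
def w24002 : Root := .mk (.node (.node (.node (.col (nat_lit 1)) (.node (.col (nat_lit 1)) (.slot (nat_lit 0)) (.slot (nat_lit 0))) (.slot (nat_lit 2))) (.node (.node (.col (nat_lit 3)) (.slot (nat_lit 1)) (.slot (nat_lit 1))) (.col (nat_lit 1)) (.slot (nat_lit 2))) (.node (.col (nat_lit 4)) (.slot (nat_lit 0)) (.slot (nat_lit 0)))) (.col (nat_lit 2)) (.slot (nat_lit 3))) (.col (nat_lit 0)) (.col (nat_lit 2)) (.node (.col (nat_lit 0)) (.slot (nat_lit 3)) (.slot (nat_lit 1)))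
def w24003 : Root := .mk (.node (.node (.node (.col (nat_lit 1)) (.node (.col (nat_lit 1)) (.slot (nat_lit 0)) (.slot (nat_lit 0))) (.slot (nat_lit 2))) (.node (.node (.col (nat_lit 3)) (.slot (nat_lit 0)) (.slot (nat_lit 1))) (.col (nat_lit 1)) (.slot (nat_lit 1))) (.slot (nat_lit 1))) (.col (nat_lit 2)) (.slot (nat_lit 3))) (.col (nat_lit 0)) (.col (nat_lit 2)) (.node (.col (nat_lit 0)) (.slot (nat_lit 3)) (.slot (nat_lit 1)))
def w24004 : Root := .mk (.node (.node (.col (nat_lit 1)) (.slot (nat_lit 0)) (.slot (nat_lit 0))) (.node (.node (.col (nat_lit 3)) (.slot (nat_lit 1)) (.slot (nat_lit 1))) (.col (nat_lit 1)) (.slot (nat_lit 2))) (.slot (nat_lit 1))) (.col (nat_lit 2)) (.node (.col (nat_lit 0)) (.col (nat_lit 2)) (.node (.col (nat_lit 0)) (.slot (nat_lit 0)) (.slot (nat_lit 0)))) (.col (nat_lit 3))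
def w24005 : Root := .mk (.node (.node (.col (nat_lit 1)) (.slot (nat_lit 0)) (.slot (nat_lit 0))) (.node (.node (.col (nat_lit 3)) (.slot (nat_lit 1)) (.slot (nat_lit 6))) (.col (nat_lit 1)) (.slot (nat_lit 8))) (.slot (nat_lit 8))) (.col (nat_lit 2)) (.node (.col (nat_lit 0)) (.col (nat_lit 2)) (.slot (nat_lit 0))) (.col (nat_lit 4))
def l5427 : Root := .mk (.node (.node (.node (.col (nat_lit 1)) (.node (.col (nat_lit 1)) (.slot (nat_lit 5)) (.slot (nat_lit 5))) (.slot (nat_lit 8))) (.node (.node (.col (nat_lit 3)) (.slot (nat_lit 20)) (.slot (nat_lit 12))) (.col (nat_lit 1)) (.slot (nat_lit 21))) (.slot (nat_lit 8))) (.col (nat_lit 2)) (.slot (nat_lit 3))) (.col (nat_lit 0)) (.col (nat_lit 2)) (.node (.col (nat_lit 0)) (.slot (nat_lit 3)) (.slot (nat_lit 1)))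
def w24006 : Root := .mk (.node (.node (.node (.col (nat_lit 1)) (.node (.col (nat_lit 1)) (.slot (nat_lit 5)) (.slot (nat_lit 5))) (.slot (nat_lit 8))) (.node (.node (.col (nat_lit 3)) (.slot (nat_lit 20)) (.slot (nat_lit 12))) (.slot (nat_lit 1)) (.slot (nat_lit 21))) (.slot (nat_lit 8))) (.col (nat_lit 2)) (.slot (nat_lit 3))) (.col (nat_lit 0)) (.col (nat_lit 2)) (.node (.col (nat_lit 0)) (.slot (nat_lit 3)) (.slot (nat_lit 1)))
def w24007 : Root := .mk (.node (.node (.node (.col (nat_lit 1)) (.node (.col (nat_lit 1)) (.slot (nat_lit 0)) (.slot (nat_lit 0))) (.slot (nat_lit 2))) (.col (nat_lit 3)) (.slot (nat_lit 2))) (.col (nat_lit 2)) (.slot (nat_lit 3))) (.col (nat_lit 0)) (.col (nat_lit 2)) (.node (.col (nat_lit 2)) (.slot (nat_lit 3)) (.slot (nat_lit 1)))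
def w24008 : Root := .mk (.node (.node (.node (.col (nat_lit 1)) (.slot (nat_lit 0)) (.slot (nat_lit 1))) (.node (.col (nat_lit 2)) (.col (nat_lit 1)) (.slot (nat_lit 1))) (.slot (nat_lit 1))) (.col (nat_lit 2)) (.slot (nat_lit 3))) (.col (nat_lit 0)) (.col (nat_lit 2)) (.node (.col (nat_lit 2)) (.slot (nat_lit 3)) (.slot (nat_lit 1)))
def w24009 : Root := .mk (.node (.node (.node (.col (nat_lit 1)) (.slot (nat_lit 0)) (.slot (nat_lit 0))) (.node (.node (.col (nat_lit 3)) (.slot (nat_lit 1)) (.slot (nat_lit 1))) (.col (nat_lit 1)) (.slot (nat_lit 2))) (.col (nat_lit 1))) (.col (nat_lit 2)) (.slot (nat_lit 1))) (.col (nat_lit 0)) (.col (nat_lit 2)) (.node (.col (nat_lit 2)) (.slot (nat_lit 0)) (.slot (nat_lit 0)))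
def w24010 : Root := .mk (.node (.node (.node (.col (nat_lit 1)) (.node (.col (nat_lit 1)) (.slot (nat_lit 0)) (.slot (nat_lit 0))) (.slot (nat_lit 2))) (.node (.node (.col (nat_lit 3)) (.slot (nat_lit 0)) (.slot (nat_lit 1))) (.col (nat_lit 1)) (.slot (nat_lit 1))) (.slot (nat_lit 1))) (.col (nat_lit 2)) (.slot (nat_lit 3))) (.col (nat_lit 0)) (.col (nat_lit 2)) (.node (.col (nat_lit 2)) (.slot (nat_lit 3)) (.slot (nat_lit 1)))
def l5428 : Root := .mk (.node (.node (.node (.col (nat_lit 1)) (.node (.col (nat_lit 1)) (.slot (nat_lit 2)) (.slot (nat_lit 1))) (.slot (nat_lit 6))) (.node (.node (.col (nat_lit 3)) (.slot (nat_lit 20)) (.slot (nat_lit 12))) (.col (nat_lit 1)) (.slot (nat_lit 21))) (.slot (nat_lit 8))) (.col (nat_lit 2)) (.slot (nat_lit 3))) (.col (nat_lit 0)) (.col (nat_lit 2)) (.node (.col (nat_lit 2)) (.slot (nat_lit 3)) (.slot (nat_lit 1)))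
def w24011 : Root := .mk (.node (.node (.node (.col (nat_lit 1)) (.node (.col (nat_lit 1)) (.slot (nat_lit 2)) (.slot (nat_lit 1))) (.slot (nat_lit 6))) (.node (.node (.col (nat_lit 3)) (.slot (nat_lit 20)) (.slot (nat_lit 12))) (.slot (nat_lit 1)) (.slot (nat_lit 21))) (.slot (nat_lit 8))) (.col (nat_lit 2)) (.slot (nat_lit 3))) (.col (nat_lit 0)) (.col (nat_lit 2)) (.node (.col (nat_lit 2)) (.slot (nat_lit 3)) (.slot (nat_lit 1)))
def w24012 : Root := .mk (.node (.node (.node (.col (nat_lit 1)) (.node (.col (nat_lit 1)) (.slot (nat_lit 0)) (.slot (nat_lit 0))) (.slot (nat_lit 3))) (.node (.node (.col (nat_lit 3)) (.slot (nat_lit 12)) (.slot (nat_lit 10))) (.slot (nat_lit 7)) (.slot (nat_lit 5))) (.slot (nat_lit 8))) (.col (nat_lit 2)) (.slot (nat_lit 8))) (.col (nat_lit 0)) (.col (nat_lit 2)) (.node (.slot (nat_lit 0)) (.slot (nat_lit 1)) (.slot (nat_lit 1)))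
def w24013 : Root := .mk (.node (.node (.node (.col (nat_lit 1)) (.node (.col (nat_lit 1)) (.slot (nat_lit 2)) (.slot (nat_lit 1))) (.slot (nat_lit 3))) (.node (.col (nat_lit 2)) (.node (.col (nat_lit 0)) (.col (nat_lit 2)) (.slot (nat_lit 21))) (.slot (nat_lit 8))) (.slot (nat_lit 8))) (.slot (nat_lit 22)) (.slot (nat_lit 8))) (.col (nat_lit 3)) (.col (nat_lit 0)) (.slot (nat_lit 5))
def w24014 : Root := .mk (.node (.node (.node (.col (nat_lit 1)) (.node (.col (nat_lit 1)) (.slot (nat_lit 21)) (.slot (nat_lit 21))) (.slot (nat_lit 8))) (.node (.col (nat_lit 2)) (.slot (nat_lit 0)) (.slot (nat_lit 0))) (.slot (nat_lit 9))) (.slot (nat_lit 20)) (.slot (nat_lit 12))) (.col (nat_lit 3)) (.node (.col (nat_lit 1)) (.slot (nat_lit 20)) (.slot (nat_lit 13))) (.slot (nat_lit 21))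
def w24015 : Root := .mk (.node (.node (.col (nat_lit 1)) (.slot (nat_lit 0)) (.slot (nat_lit 0))) (.node (.node (.col (nat_lit 3)) (.slot (nat_lit 0)) (.slot (nat_lit 0))) (.slot (nat_lit 3)) (.slot (nat_lit 3))) (.col (nat_lit 1))) (.col (nat_lit 2)) (.node (.col (nat_lit 0)) (.col (nat_lit 2)) (.slot (nat_lit 4))) (.col (nat_lit 1))
def w24016 : Root := .mk (.node (.node (.col (nat_lit 1)) (.node (.col (nat_lit 1)) (.slot (nat_lit 20)) (.slot (nat_lit 9))) (.slot (nat_lit 21))) (.node (.col (nat_lit 1)) (.slot (nat_lit 7)) (.slot (nat_lit 5))) (.slot (nat_lit 8))) (.col (nat_lit 2)) (.slot (nat_lit 0)) (.col (nat_lit 1))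
def w24017 : Root := .mk (.node (.node (.col (nat_lit 1)) (.node (.col (nat_lit 1)) (.slot (nat_lit 20)) (.slot (nat_lit 9))) (.slot (nat_lit 21))) (.node (.node (.col (nat_lit 3)) (.node (.col (nat_lit 2)) (.slot (nat_lit 1)) (.slot (nat_lit 1))) (.slot (nat_lit 2))) (.slot (nat_lit 7)) (.slot (nat_lit 5))) (.slot (nat_lit 8))) (.col (nat_lit 2)) (.slot (nat_lit 0)) (.col (nat_lit 1))
def l5429 : Root := .mk (.node (.node (.col (nat_lit 1)) (.node (.col (nat_lit 1)) (.slot (nat_lit 20)) (.slot (nat_lit 9))) (.slot (nat_lit 21))) (.node (.node (.col (nat_lit 3)) (.node (.col (nat_lit 2)) (.slot (nat_lit 8)) (.slot (nat_lit 5))) (.slot (nat_lit 8))) (.slot (nat_lit 8)) (.slot (nat_lit 8))) (.slot (nat_lit 9))) (.col (nat_lit 2)) (.node (.col (nat_lit 0)) (.col (nat_lit 2)) (.slot (nat_lit 8))) (.col (nat_lit 1))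
def w24018 : Root := .mk (.node (.node (.node (.col (nat_lit 1)) (.node (.col (nat_lit 1)) (.slot (nat_lit 20)) (.slot (nat_lit 9))) (.slot (nat_lit 21))) (.node (.node (.col (nat_lit 3)) (.node (.col (nat_lit 2)) (.slot (nat_lit 8)) (.slot (nat_lit 5))) (.slot (nat_lit 8))) (.slot (nat_lit 8)) (.slot (nat_lit 8))) (.slot (nat_lit 9))) (.col (nat_lit 2)) (.slot (nat_lit 1))) (.col (nat_lit 0)) (.col (nat_lit 2)) (.slot (nat_lit 8))
def l5430 : Root := .mk (.node (.node (.col (nat_lit 1)) (.node (.col (nat_lit 1)) (.slot (nat_lit 1)) (.slot (nat_lit 1))) (.slot (nat_lit 3))) (.col (nat_lit 3)) (.node (.col (nat_lit 1)) (.slot (nat_lit 8)) (.slot (nat_lit 8)))) (.node (.col (nat_lit 3)) (.slot (nat_lit 0)) (.slot (nat_lit 0))) (.col (nat_lit 1)) (.col (nat_lit 3))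
def w24019 : Root := .mk (.node (.node (.col (nat_lit 1)) (.node (.col (nat_lit 1)) (.slot (nat_lit 1)) (.slot (nat_lit 1))) (.slot (nat_lit 3))) (.col (nat_lit 3)) (.slot (nat_lit 9))) (.node (.col (nat_lit 3)) (.slot (nat_lit 0)) (.slot (nat_lit 0))) (.col (nat_lit 1)) (.col (nat_lit 3))
def l5431 : Root := .mk (.node (.node (.col (nat_lit 1)) (.node (.col (nat_lit 1)) (.slot (nat_lit 1)) (.slot (nat_lit 1))) (.slot (nat_lit 3))) (.col (nat_lit 3)) (.slot (nat_lit 9))) (.node (.col (nat_lit 3)) (.node (.col (nat_lit 3)) (.slot (nat_lit 1)) (.slot (nat_lit 1))) (.slot (nat_lit 3))) (.col (nat_lit 1)) (.slot (nat_lit 9))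
def w24020 : Root := .mk (.node (.col (nat_lit 1)) (.node (.col (nat_lit 1)) (.slot (nat_lit 1)) (.slot (nat_lit 1))) (.slot (nat_lit 3))) (.col (nat_lit 3)) (.node (.node (.col (nat_lit 3)) (.node (.col (nat_lit 3)) (.slot (nat_lit 1)) (.slot (nat_lit 1))) (.slot (nat_lit 3))) (.slot (nat_lit 1)) (.slot (nat_lit 9))) (.slot (nat_lit 9))
def w24021 : Root := .mk (.node (.node (.node (.col (nat_lit 1)) (.node (.col (nat_lit 1)) (.slot (nat_lit 1)) (.slot (nat_lit 1))) (.slot (nat_lit 3))) (.node (.node (.col (nat_lit 3)) (.node (.col (nat_lit 3)) (.slot (nat_lit 1)) (.slot (nat_lit 1))) (.slot (nat_lit 3))) (.slot (nat_lit 9)) (.slot (nat_lit 1))) (.slot (nat_lit 9))) (.col (nat_lit 2)) (.slot (nat_lit 8))) (.col (nat_lit 0)) (.col (nat_lit 2)) (.slot (nat_lit 2))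
def w24022 : Root := .mk (.node (.node (.node (.col (nat_lit 1)) (.node (.col (nat_lit 1)) (.slot (nat_lit 0)) (.slot (nat_lit 0))) (.slot (nat_lit 2))) (.node (.node (.col (nat_lit 3)) (.node (.col (nat_lit 4)) (.slot (nat_lit 1)) (.slot (nat_lit 1))) (.slot (nat_lit 1))) (.slot (nat_lit 1)) (.slot (nat_lit 1))) (.slot (nat_lit 3))) (.col (nat_lit 2)) (.slot (nat_lit 3))) (.col (nat_lit 0)) (.col (nat_lit 2)) (.slot (nat_lit 21))
def l5432 : Root := .mk (.node (.col (nat_lit 1)) (.slot (nat_lit 0)) (.slot (nat_lit 0))) (.col (nat_lit 3)) (.node (.node (.col (nat_lit 3)) (.node (.slot (nat_lit 0)) (.slot (nat_lit 1)) (.slot (nat_lit 1))) (.slot (nat_lit 3))) (.col (nat_lit 1)) (.node (.col (nat_lit 3)) (.slot (nat_lit 8)) (.slot (nat_lit 8)))) (.col (nat_lit 1))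
def w24023 : Root := .mk (.node (.col (nat_lit 1)) (.slot (nat_lit 0)) (.slot (nat_lit 0))) (.col (nat_lit 3)) (.node (.node (.col (nat_lit 3)) (.node (.slot (nat_lit 0)) (.slot (nat_lit 1)) (.slot (nat_lit 1))) (.slot (nat_lit 3))) (.col (nat_lit 1)) (.slot (nat_lit 9))) (.col (nat_lit 1))
def l5433 : Root := .mk (.node (.node (.col (nat_lit 1)) (.node (.col (nat_lit 1)) (.slot (nat_lit 1)) (.slot (nat_lit 1))) (.slot (nat_lit 3))) (.col (nat_lit 3)) (.slot (nat_lit 9))) (.node (.col (nat_lit 3)) (.node (.slot (nat_lit 0)) (.slot (nat_lit 1)) (.slot (nat_lit 1))) (.slot (nat_lit 3))) (.col (nat_lit 1)) (.slot (nat_lit 9))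
def w24024 : Root := .mk (.node (.col (nat_lit 1)) (.node (.col (nat_lit 1)) (.slot (nat_lit 1)) (.slot (nat_lit 1))) (.slot (nat_lit 3))) (.col (nat_lit 3)) (.node (.node (.col (nat_lit 3)) (.node (.slot (nat_lit 0)) (.slot (nat_lit 1)) (.slot (nat_lit 1))) (.slot (nat_lit 3))) (.slot (nat_lit 1)) (.slot (nat_lit 9))) (.slot (nat_lit 9))
def w24025 : Root := .mk (.node (.node (.node (.col (nat_lit 1)) (.node (.col (nat_lit 1)) (.slot (nat_lit 1)) (.slot (nat_lit 1))) (.slot (nat_lit 3))) (.node (.node (.col (nat_lit 3)) (.node (.slot (nat_lit 0)) (.slot (nat_lit 1)) (.slot (nat_lit 1))) (.slot (nat_lit 3))) (.slot (nat_lit 9)) (.slot (nat_lit 1))) (.slot (nat_lit 9))) (.col (nat_lit 2)) (.slot (nat_lit 8))) (.col (nat_lit 0)) (.col (nat_lit 2)) (.slot (nat_lit 2))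
def l5434 : Root := .mk (.node (.node (.node (.col (nat_lit 1)) (.node (.col (nat_lit 1)) (.slot (nat_lit 22)) (.slot (nat_lit 21))) (.slot (nat_lit 22))) (.node (.node (.col (nat_lit 3)) (.slot (nat_lit 21)) (.slot (nat_lit 21))) (.slot (nat_lit 22)) (.slot (nat_lit 22))) (.slot (nat_lit 22))) (.col (nat_lit 2)) (.slot (nat_lit 22))) (.col (nat_lit 0)) (.col (nat_lit 2)) (.slot (nat_lit 23))
def w24026 : Root := .mk (.node (.node (.node (.col (nat_lit 1)) (.node (.col (nat_lit 1)) (.slot (nat_lit 22)) (.slot (nat_lit 21))) (.slot (nat_lit 22))) (.slot (nat_lit 23)) (.slot (nat_lit 22))) (.col (nat_lit 2)) (.slot (nat_lit 22))) (.col (nat_lit 0)) (.col (nat_lit 2)) (.slot (nat_lit 23))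
def l5435 : Root := .mk (.node (.node (.node (.col (nat_lit 1)) (.node (.col (nat_lit 1)) (.slot (nat_lit 0)) (.slot (nat_lit 0))) (.slot (nat_lit 3))) (.slot (nat_lit 1)) (.slot (nat_lit 1))) (.col (nat_lit 2)) (.slot (nat_lit 4))) (.node (.col (nat_lit 2)) (.col (nat_lit 1)) (.slot (nat_lit 5))) (.col (nat_lit 2)) (.node (.col (nat_lit 1)) (.slot (nat_lit 7)) (.slot (nat_lit 5)))
def w24027 : Root := .mk (.node (.node (.node (.node (.col (nat_lit 1)) (.node (.col (nat_lit 1)) (.slot (nat_lit 0)) (.slot (nat_lit 0))) (.slot (nat_lit 3))) (.slot (nat_lit 1)) (.slot (nat_lit 1))) (.col (nat_lit 2)) (.slot (nat_lit 4))) (.col (nat_lit 2)) (.slot (nat_lit 8))) (.col (nat_lit 2)) (.col (nat_lit 1)) (.slot (nat_lit 5))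
def w24028 : Root := .mk (.node (.node (.node (.node (.col (nat_lit 1)) (.node (.col (nat_lit 1)) (.slot (nat_lit 0)) (.slot (nat_lit 0))) (.slot (nat_lit 3))) (.slot (nat_lit 1)) (.slot (nat_lit 1))) (.col (nat_lit 2)) (.slot (nat_lit 3))) (.col (nat_lit 2)) (.slot (nat_lit 8))) (.col (nat_lit 2)) (.col (nat_lit 3)) (.slot (nat_lit 2))
def w24029 : Root := .mk (.node (.node (.node (.node (.col (nat_lit 1)) (.node (.col (nat_lit 1)) (.slot (nat_lit 0)) (.slot (nat_lit 0))) (.slot (nat_lit 3))) (.slot (nat_lit 1)) (.slot (nat_lit 1))) (.col (nat_lit 2)) (.slot (nat_lit 3))) (.col (nat_lit 2)) (.slot (nat_lit 3))) (.col (nat_lit 2)) (.node (.col (nat_lit 0)) (.slot (nat_lit 3)) (.slot (nat_lit 1))) (.col (nat_lit 0))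
def w24030 : Root := .mk (.node (.node (.col (nat_lit 1)) (.node (.col (nat_lit 1)) (.col (nat_lit 0)) (.slot (nat_lit 0))) (.slot (nat_lit 21))) (.slot (nat_lit 20)) (.slot (nat_lit 12))) (.col (nat_lit 2)) (.node (.node (.col (nat_lit 2)) (.slot (nat_lit 0)) (.slot (nat_lit 0))) (.col (nat_lit 2)) (.slot (nat_lit 2))) (.col (nat_lit 1))
def w24100 : Root := .mk (.node (.col (nat_lit 2)) (.slot (nat_lit 3)) (.slot (nat_lit 1))) (.col (nat_lit 2)) (.node (.node (.col (nat_lit 2)) (.node (.col (nat_lit 0)) (.slot (nat_lit 1)) (.slot (nat_lit 1))) (.node (.node (.col (nat_lit 0)) (.slot (nat_lit 0)) (.slot (nat_lit 0))) (.slot (nat_lit 2)) (.slot (nat_lit 1)))) (.col (nat_lit 2)) (.slot (nat_lit 3))) (.col (nat_lit 1))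
def w24101 : Root := .mk (.node (.node (.col (nat_lit 1)) (.slot (nat_lit 0)) (.slot (nat_lit 0))) (.col (nat_lit 1)) (.slot (nat_lit 3))) (.col (nat_lit 2)) (.node (.node (.col (nat_lit 2)) (.node (.col (nat_lit 0)) (.slot (nat_lit 1)) (.slot (nat_lit 1))) (.node (.node (.col (nat_lit 0)) (.slot (nat_lit 0)) (.slot (nat_lit 0))) (.slot (nat_lit 2)) (.slot (nat_lit 1)))) (.col (nat_lit 2)) (.slot (nat_lit 3))) (.col (nat_lit 1))
def w24102 : Root := .mk (.node (.node (.col (nat_lit 1)) (.slot (nat_lit 0)) (.slot (nat_lit 1))) (.node (.col (nat_lit 0)) (.slot (nat_lit 0)) (.slot (nat_lit 0))) (.slot (nat_lit 1))) (.col (nat_lit 2)) (.node (.node (.col (nat_lit 2)) (.node (.col (nat_lit 0)) (.slot (nat_lit 1)) (.slot (nat_lit 1))) (.node (.node (.col (nat_lit 0)) (.slot (nat_lit 0)) (.slot (nat_lit 0))) (.slot (nat_lit 2)) (.slot (nat_lit 1)))) (.col (nat_lit 2)) (.slot (nat_lit 5))) (.col (nat_lit 1))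
def w24103 : Root := .mk (.node (.node (.col (nat_lit 1)) (.slot (nat_lit 0)) (.slot (nat_lit 0))) (.node (.col (nat_lit 2)) (.slot (nat_lit 1)) (.slot (nat_lit 0))) (.slot (nat_lit 1))) (.col (nat_lit 2)) (.node (.node (.col (nat_lit 2)) (.node (.col (nat_lit 0)) (.slot (nat_lit 1)) (.slot (nat_lit 1))) (.node (.node (.col (nat_lit 0)) (.slot (nat_lit 0)) (.slot (nat_lit 0))) (.slot (nat_lit 2)) (.slot (nat_lit 1)))) (.col (nat_lit 2)) (.slot (nat_lit 5))) (.col (nat_lit 1))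
def w24104 : Root := .mk (.node (.node (.col (nat_lit 1)) (.slot (nat_lit 0)) (.slot (nat_lit 1))) (.node (.col (nat_lit 3)) (.slot (nat_lit 1)) (.slot (nat_lit 1))) (.slot (nat_lit 1))) (.col (nat_lit 2)) (.node (.node (.col (nat_lit 2)) (.node (.col (nat_lit 0)) (.slot (nat_lit 1)) (.slot (nat_lit 1))) (.node (.node (.col (nat_lit 0)) (.slot (nat_lit 0)) (.slot (nat_lit 0))) (.slot (nat_lit 2)) (.slot (nat_lit 1)))) (.col (nat_lit 2)) (.slot (nat_lit 3))) (.col (nat_lit 1))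
def w24105 : Root := .mk (.node (.slot (nat_lit 0)) (.node (.slot (nat_lit 0)) (.slot (nat_lit 0)) (.slot (nat_lit 0))) (.slot (nat_lit 1))) (.col (nat_lit 2)) (.node (.node (.col (nat_lit 2)) (.node (.col (nat_lit 0)) (.slot (nat_lit 1)) (.slot (nat_lit 1))) (.node (.node (.col (nat_lit 0)) (.slot (nat_lit 0)) (.slot (nat_lit 0))) (.slot (nat_lit 2)) (.slot (nat_lit 1)))) (.col (nat_lit 2)) (.slot (nat_lit 8))) (.col (nat_lit 1))

end Pool.Agent.W319.GCI.K5
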