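import Pool.Agent.W319.GCI.K5Base
set_option autoImplicit false
set_option maxRecDepth 100000
set_option linter.all false
namespace Pool.Agent.W319.GCI.K5
open Pool.Agent.W319.GCI

def w24106 : Root := .mk (.node (.node (.node (.col (nat_lit 1)) (.node (.col (nat_lit 1)) (.slot (nat_lit 0)) (.slot (nat_lit 0))) (.slot (nat_lit 2))) (.slot (nat_lit 2)) (.slot (nat_lit 1))) (.col (nat_lit 2)) (.col (nat_lit 1))) (.node (.col (nat_lit 2)) (.node (.col (nat_lit 0)) (.slot (nat_lit 3)) (.slot (nat_lit 1))) (.node (.slot (nat_lit 0)) (.slot (nat_lit 0)) (.slot (nat_lit 0)))) (.col (nat_lit 2)) (.col (nat_lit 1))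
def w24107 : Root := .mk (.slot (nat_lit 0)) (.col (nat_lit 2)) (.node (.node (.col (nat_lit 2)) (.node (.col (nat_lit 0)) (.slot (nat_lit 1)) (.slot (nat_lit 1))) (.node (.node (.col (nat_lit 0)) (.slot (nat_lit 0)) (.slot (nat_lit 0))) (.slot (nat_lit 2)) (.slot (nat_lit 1)))) (.col (nat_lit 2)) (.node (.col (nat_lit 0)) (.slot (nat_lit 20)) (.slot (nat_lit 9)))) (.col (nat_lit 1))
def w24108 : Root := .mk (.node (.node (.col (nat_lit 1)) (.slot (nat_lit 0)) (.slot (nat_lit 0))) (.slot (nat_lit 2)) (.slot (nat_lit 2))) (.col (nat_lit 2)) (.node (.node (.col (nat_lit 2)) (.node (.col (nat_lit 0)) (.slot (nat_lit 1)) (.slot (nat_lit 1))) (.node (.node (.col (nat_lit 0)) (.slot (nat_lit 0)) (.slot (nat_lit 0))) (.slot (nat_lit 2)) (.slot (nat_lit 1)))) (.col (nat_lit 2)) (.node (.col (nat_lit 2)) (.slot (nat_lit 3)) (.slot (nat_lit 1)))) (.col (nat_lit 1))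
def w24109 : Root := .mk (.slot (nat_lit 0)) (.col (nat_lit 2)) (.node (.node (.col (nat_lit 2)) (.node (.col (nat_lit 0)) (.slot (nat_lit 1)) (.slot (nat_lit 1))) (.node (.node (.col (nat_lit 0)) (.slot (nat_lit 0)) (.slot (nat_lit 0))) (.slot (nat_lit 2)) (.slot (nat_lit 1)))) (.col (nat_lit 2)) (.node (.col (nat_lit 3)) (.slot (nat_lit 20)) (.slot (nat_lit 9)))) (.col (nat_lit 1))
def w24110 : Root := .mk (.node (.node (.col (nat_lit 1)) (.slot (nat_lit 0)) (.slot (nat_lit 0))) (.slot (nat_lit 7)) (.slot (nat_lit 5))) (.col (nat_lit 2)) (.node (.node (.col (nat_lit 2)) (.node (.col (nat_lit 0)) (.slot (nat_lit 1)) (.slot (nat_lit 1))) (.node (.node (.col (nat_lit 0)) (.slot (nat_lit 0)) (.slot (nat_lit 0))) (.slot (nat_lit 2)) (.slot (nat_lit 1)))) (.col (nat_lit 2)) (.node (.slot (nat_lit 0)) (.slot (nat_lit 1)) (.slot (nat_lit 1)))) (.col (nat_lit 1))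
def w24111 : Root := .mk (.node (.node (.node (.node (.col (nat_lit 1)) (.slot (nat_lit 0)) (.slot (nat_lit 1))) (.slot (nat_lit 2)) (.slot (nat_lit 1))) (.col (nat_lit 2)) (.col (nat_lit 1))) (.col (nat_lit 2)) (.slot (nat_lit 3))) (.col (nat_lit 2)) (.col (nat_lit 1)) (.node (.node (.col (nat_lit 0)) (.slot (nat_lit 1)) (.slot (nat_lit 1))) (.slot (nat_lit 2)) (.slot (nat_lit 1)))
def w24112 : Root := .mk (.node (.node (.node (.node (.col (nat_lit 1)) (.slot (nat_lit 0)) (.slot (nat_lit 1))) (.slot (nat_lit 2)) (.slot (nat_lit 1))) (.col (nat_lit 2)) (.col (nat_lit 1))) (.col (nat_lit 2)) (.slot (nat_lit 3))) (.col (nat_lit 2)) (.col (nat_lit 3)) (.node (.node (.col (nat_lit 0)) (.slot (nat_lit 1)) (.slot (nat_lit 1))) (.slot (nat_lit 2)) (.slot (nat_lit 1)))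
def w24113 : Root := .mk (.node (.node (.node (.node (.col (nat_lit 1)) (.node (.col (nat_lit 1)) (.slot (nat_lit 0)) (.slot (nat_lit 0))) (.slot (nat_lit 2))) (.slot (nat_lit 2)) (.slot (nat_lit 1))) (.col (nat_lit 2)) (.col (nat_lit 1))) (.col (nat_lit 2)) (.slot (nat_lit 3))) (.col (nat_lit 2)) (.node (.col (nat_lit 0)) (.slot (nat_lit 3)) (.slot (nat_lit 1))) (.col (nat_lit 0))
def l5448 : Root := .mk (.node (.node (.col (nat_lit 1)) (.node (.col (nat_lit 1)) (.slot (nat_lit 20)) (.slot (nat_lit 9))) (.slot (nat_lit 21))) (.slot (nat_lit 20)) (.slot (nat_lit 12))) (.col (nat_lit 2)) (.node (.node (.col (nat_lit 2)) (.node (.col (nat_lit 0)) (.slot (nat_lit 20)) (.slot (nat_lit 9))) (.node (.node (.col (nat_lit 0)) (.slot (nat_lit 1)) (.slot (nat_lit 1))) (.slot (nat_lit 2)) (.slot (nat_lit 1)))) (.col (nat_lit 2)) (.slot (nat_lit 21))) (.col (nat_lit 1))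
def w24114 : Root := .mk (.node (.node (.node (.node (.col (nat_lit 1)) (.node (.col (nat_lit 1)) (.slot (nat_lit 20)) (.slot (nat_lit 9))) (.slot (nat_lit 21))) (.slot (nat_lit 20)) (.slot (nat_lit 12))) (.col (nat_lit 2)) (.slot (nat_lit 1))) (.col (nat_lit 2)) (.slot (nat_lit 21))) (.col (nat_lit 2)) (.node (.col (nat_lit 0)) (.slot (nat_lit 20)) (.slot (nat_lit 9))) (.node (.node (.col (nat_lit 0)) (.slot (nat_lit 1)) (.slot (nat_lit 1))) (.slot (nat_lit 2)) (.slot (nat_lit 1)))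
def w24115 : Root := .mk (.node (.col (nat_lit 2)) (.slot (nat_lit 3)) (.slot (nat_lit 1))) (.col (nat_lit 2)) (.node (.node (.col (nat_lit 2)) (.node (.col (nat_lit 0)) (.slot (nat_lit 1)) (.slot (nat_lit 1))) (.node (.node (.col (nat_lit 1)) (.slot (nat_lit 0)) (.slot (nat_lit 0))) (.slot (nat_lit 1)) (.slot (nat_lit 1)))) (.col (nat_lit 2)) (.slot (nat_lit 3))) (.col (nat_lit 1))
def w24116 : Root := .mk (.node (.node (.col (nat_lit 1)) (.slot (nat_lit 0)) (.slot (nat_lit 0))) (.col (nat_lit 1)) (.slot (nat_lit 3))) (.col (nat_lit 2)) (.node (.node (.col (nat_lit 2)) (.node (.col (nat_lit 0)) (.slot (nat_lit 1)) (.slot (nat_lit 1))) (.node (.node (.col (nat_lit 1)) (.slot (nat_lit 0)) (.slot (nat_lit 0))) (.slot (nat_lit 1)) (.slot (nat_lit 1)))) (.col (nat_lit 2)) (.slot (nat_lit 3))) (.col (nat_lit 1))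
def w24117 : Root := .mk (.node (.node (.col (nat_lit 1)) (.slot (nat_lit 0)) (.slot (nat_lit 1))) (.node (.col (nat_lit 0)) (.slot (nat_lit 0)) (.slot (nat_lit 0))) (.slot (nat_lit 1))) (.col (nat_lit 2)) (.node (.node (.col (nat_lit 2)) (.node (.col (nat_lit 0)) (.slot (nat_lit 1)) (.slot (nat_lit 1))) (.node (.node (.col (nat_lit 1)) (.slot (nat_lit 0)) (.slot (nat_lit 0))) (.slot (nat_lit 1)) (.slot (nat_lit 1)))) (.col (nat_lit 2)) (.slot (nat_lit 5))) (.col (nat_lit 1))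
def w24118 : Root := .mk (.node (.node (.col (nat_lit 1)) (.slot (nat_lit 0)) (.slot (nat_lit 0))) (.node (.col (nat_lit 2)) (.slot (nat_lit 1)) (.slot (nat_lit 0))) (.slot (nat_lit 1))) (.col (nat_lit 2)) (.node (.node (.col (nat_lit 2)) (.node (.col (nat_lit 0)) (.slot (nat_lit 1)) (.slot (nat_lit 1))) (.node (.node (.col (nat_lit 1)) (.slot (nat_lit 0)) (.slot (nat_lit 0))) (.slot (nat_lit 1)) (.slot (nat_lit 1)))) (.col (nat_lit 2)) (.slot (nat_lit 5))) (.col (nat_lit 1))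
def w24119 : Root := .mk (.node (.node (.col (nat_lit 1)) (.slot (nat_lit 0)) (.slot (nat_lit 1))) (.node (.col (nat_lit 3)) (.slot (nat_lit 1)) (.slot (nat_lit 1))) (.slot (nat_lit 1))) (.col (nat_lit 2)) (.node (.node (.col (nat_lit 2)) (.node (.col (nat_lit 0)) (.slot (nat_lit 1)) (.slot (nat_lit 1))) (.node (.node (.col (nat_lit 1)) (.slot (nat_lit 0)) (.slot (nat_lit 0))) (.slot (nat_lit 1)) (.slot (nat_lit 1)))) (.col (nat_lit 2)) (.slot (nat_lit 3))) (.col (nat_lit 1))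
def w24120 : Root := .mk (.node (.slot (nat_lit 0)) (.node (.slot (nat_lit 0)) (.slot (nat_lit 0)) (.slot (nat_lit 0))) (.slot (nat_lit 1))) (.col (nat_lit 2)) (.node (.node (.col (nat_lit 2)) (.node (.col (nat_lit 0)) (.slot (nat_lit 1)) (.slot (nat_lit 1))) (.node (.node (.col (nat_lit 1)) (.slot (nat_lit 0)) (.slot (nat_lit 0))) (.slot (nat_lit 1)) (.slot (nat_lit 1)))) (.col (nat_lit 2)) (.slot (nat_lit 8))) (.col (nat_lit 1))
def w24121 : Root := .mk (.slot (nat_lit 0)) (.col (nat_lit 2)) (.node (.node (.col (nat_lit 2)) (.node (.col (nat_lit 0)) (.slot (nat_lit 1)) (.slot (nat_lit 1))) (.node (.node (.col (nat_lit 1)) (.slot (nat_lit 0)) (.slot (nat_lit 0))) (.slot (nat_lit 1)) (.slot (nat_lit 1)))) (.col (nat_lit 2)) (.node (.col (nat_lit 0)) (.slot (nat_lit 20)) (.slot (nat_lit 9)))) (.col (nat_lit 1))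
def w24122 : Root := .mk (.node (.node (.col (nat_lit 1)) (.slot (nat_lit 0)) (.slot (nat_lit 0))) (.slot (nat_lit 2)) (.slot (nat_lit 2))) (.col (nat_lit 2)) (.node (.node (.col (nat_lit 2)) (.node (.col (nat_lit 0)) (.slot (nat_lit 1)) (.slot (nat_lit 1))) (.node (.node (.col (nat_lit 1)) (.slot (nat_lit 0)) (.slot (nat_lit 0))) (.slot (nat_lit 1)) (.slot (nat_lit 1)))) (.col (nat_lit 2)) (.node (.col (nat_lit 2)) (.slot (nat_lit 3)) (.slot (nat_lit 1)))) (.col (nat_lit 1))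
def w24123 : Root := .mk (.slot (nat_lit 0)) (.col (nat_lit 2)) (.node (.node (.col (nat_lit 2)) (.node (.col (nat_lit 0)) (.slot (nat_lit 1)) (.slot (nat_lit 1))) (.node (.node (.col (nat_lit 1)) (.slot (nat_lit 0)) (.slot (nat_lit 0))) (.slot (nat_lit 1)) (.slot (nat_lit 1)))) (.col (nat_lit 2)) (.node (.col (nat_lit 3)) (.slot (nat_lit 20)) (.slot (nat_lit 9)))) (.col (nat_lit 1))
def w24124 : Root := .mk (.node (.node (.col (nat_lit 1)) (.slot (nat_lit 0)) (.slot (nat_lit 0))) (.slot (nat_lit 7)) (.slot (nat_lit 5))) (.col (nat_lit 2)) (.node (.node (.col (nat_lit 2)) (.node (.col (nat_lit 0)) (.slot (nat_lit 1)) (.slot (nat_lit 1))) (.node (.node (.col (nat_lit 1)) (.slot (nat_lit 0)) (.slot (nat_lit 0))) (.slot (nat_lit 1)) (.slot (nat_lit 1)))) (.col (nat_lit 2)) (.node (.slot (nat_lit 0)) (.slot (nat_lit 1)) (.slot (nat_lit 1)))) (.col (nat_lit 1))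
def w24125 : Root := .mk (.node (.node (.node (.node (.col (nat_lit 1)) (.slot (nat_lit 0)) (.slot (nat_lit 1))) (.slot (nat_lit 2)) (.slot (nat_lit 1))) (.col (nat_lit 2)) (.col (nat_lit 1))) (.col (nat_lit 2)) (.slot (nat_lit 3))) (.col (nat_lit 2)) (.col (nat_lit 1)) (.node (.node (.col (nat_lit 1)) (.slot (nat_lit 1)) (.slot (nat_lit 1))) (.slot (nat_lit 2)) (.slot (nat_lit 1)))
def w24126 : Root := .mk (.node (.node (.node (.node (.col (nat_lit 1)) (.node (.col (nat_lit 1)) (.slot (nat_lit 0)) (.slot (nat_lit 0))) (.slot (nat_lit 2))) (.slot (nat_lit 2)) (.slot (nat_lit 1))) (.col (nat_lit 2)) (.col (nat_lit 1))) (.col (nat_lit 2)) (.slot (nat_lit 2))) (.col (nat_lit 2)) (.col (nat_lit 3)) (.node (.node (.col (nat_lit 1)) (.slot (nat_lit 0)) (.slot (nat_lit 0))) (.slot (nat_lit 7)) (.slot (nat_lit 5)))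
def l5449 : Root := .mk (.node (.node (.col (nat_lit 1)) (.node (.col (nat_lit 1)) (.slot (nat_lit 20)) (.slot (nat_lit 9))) (.slot (nat_lit 21))) (.slot (nat_lit 20)) (.slot (nat_lit 12))) (.col (nat_lit 2)) (.node (.node (.col (nat_lit 2)) (.node (.col (nat_lit 0)) (.slot (nat_lit 20)) (.slot (nat_lit 9))) (.node (.node (.col (nat_lit 1)) (.slot (nat_lit 3)) (.slot (nat_lit 3))) (.slot (nat_lit 7)) (.slot (nat_lit 5)))) (.col (nat_lit 2)) (.slot (nat_lit 21))) (.col (nat_lit 1))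
def w24127 : Root := .mk (.node (.node (.node (.node (.col (nat_lit 1)) (.node (.col (nat_lit 1)) (.slot (nat_lit 20)) (.slot (nat_lit 9))) (.slot (nat_lit 21))) (.slot (nat_lit 20)) (.slot (nat_lit 12))) (.col (nat_lit 2)) (.slot (nat_lit 1))) (.col (nat_lit 2)) (.slot (nat_lit 21))) (.col (nat_lit 2)) (.node (.col (nat_lit 0)) (.slot (nat_lit 20)) (.slot (nat_lit 9))) (.node (.node (.col (nat_lit 1)) (.slot (nat_lit 3)) (.slot (nat_lit 3))) (.slot (nat_lit 7)) (.slot (nat_lit 5)))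
def w24128 : Root := .mk (.node (.col (nat_lit 2)) (.slot (nat_lit 3)) (.slot (nat_lit 3))) (.col (nat_lit 2)) (.node (.node (.col (nat_lit 2)) (.node (.col (nat_lit 0)) (.slot (nat_lit 8)) (.slot (nat_lit 8))) (.node (.node (.col (nat_lit 3)) (.slot (nat_lit 8)) (.slot (nat_lit 8))) (.slot (nat_lit 1)) (.slot (nat_lit 8)))) (.col (nat_lit 2)) (.slot (nat_lit 4))) (.col (nat_lit 1))
def w24129 : Root := .mk (.node (.node (.col (nat_lit 1)) (.slot (nat_lit 0)) (.slot (nat_lit 0))) (.col (nat_lit 1)) (.slot (nat_lit 3))) (.col (nat_lit 2)) (.node (.node (.col (nat_lit 2)) (.node (.col (nat_lit 0)) (.slot (nat_lit 1)) (.slot (nat_lit 1))) (.node (.node (.col (nat_lit 3)) (.slot (nat_lit 0)) (.slot (nat_lit 0))) (.slot (nat_lit 1)) (.slot (nat_lit 1)))) (.col (nat_lit 2)) (.slot (nat_lit 3))) (.col (nat_lit 1))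
def w24130 : Root := .mk (.node (.node (.col (nat_lit 1)) (.slot (nat_lit 0)) (.slot (nat_lit 1))) (.node (.col (nat_lit 0)) (.slot (nat_lit 0)) (.slot (nat_lit 0))) (.slot (nat_lit 1))) (.col (nat_lit 2)) (.node (.node (.col (nat_lit 2)) (.node (.col (nat_lit 0)) (.slot (nat_lit 1)) (.slot (nat_lit 1))) (.node (.node (.col (nat_lit 3)) (.slot (nat_lit 0)) (.slot (nat_lit 0))) (.slot (nat_lit 1)) (.slot (nat_lit 1)))) (.col (nat_lit 2)) (.slot (nat_lit 5))) (.col (nat_lit 1))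
def w24131 : Root := .mk (.node (.node (.col (nat_lit 1)) (.slot (nat_lit 0)) (.slot (nat_lit 0))) (.node (.col (nat_lit 2)) (.slot (nat_lit 1)) (.slot (nat_lit 0))) (.slot (nat_lit 1))) (.col (nat_lit 2)) (.node (.node (.col (nat_lit 2)) (.node (.col (nat_lit 0)) (.slot (nat_lit 1)) (.slot (nat_lit 1))) (.node (.node (.col (nat_lit 3)) (.slot (nat_lit 0)) (.slot (nat_lit 0))) (.slot (nat_lit 1)) (.slot (nat_lit 1)))) (.col (nat_lit 2)) (.slot (nat_lit 5))) (.col (nat_lit 1))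
def w24132 : Root := .mk (.node (.node (.col (nat_lit 1)) (.slot (nat_lit 0)) (.slot (nat_lit 1))) (.node (.col (nat_lit 3)) (.slot (nat_lit 1)) (.slot (nat_lit 1))) (.slot (nat_lit 1))) (.col (nat_lit 2)) (.node (.node (.col (nat_lit 2)) (.node (.col (nat_lit 0)) (.slot (nat_lit 1)) (.slot (nat_lit 1))) (.node (.node (.col (nat_lit 3)) (.slot (nat_lit 0)) (.slot (nat_lit 0))) (.slot (nat_lit 1)) (.slot (nat_lit 1)))) (.col (nat_lit 2)) (.slot (nat_lit 3))) (.col (nat_lit 1))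
def w24133 : Root := .mk (.node (.node (.col (nat_lit 1)) (.slot (nat_lit 0)) (.slot (nat_lit 1))) (.node (.col (nat_lit 4)) (.slot (nat_lit 0)) (.slot (nat_lit 0))) (.slot (nat_lit 1))) (.col (nat_lit 2)) (.node (.node (.col (nat_lit 2)) (.node (.col (nat_lit 0)) (.slot (nat_lit 1)) (.slot (nat_lit 1))) (.node (.node (.col (nat_lit 3)) (.slot (nat_lit 0)) (.slot (nat_lit 0))) (.slot (nat_lit 1)) (.slot (nat_lit 1)))) (.col (nat_lit 2)) (.slot (nat_lit 5))) (.col (nat_lit 1))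
def w24134 : Root := .mk (.node (.slot (nat_lit 0)) (.node (.slot (nat_lit 0)) (.slot (nat_lit 0)) (.slot (nat_lit 0))) (.slot (nat_lit 1))) (.col (nat_lit 2)) (.node (.node (.col (nat_lit 2)) (.node (.col (nat_lit 0)) (.slot (nat_lit 1)) (.slot (nat_lit 1))) (.node (.node (.col (nat_lit 3)) (.slot (nat_lit 0)) (.slot (nat_lit 0))) (.slot (nat_lit 1)) (.slot (nat_lit 1)))) (.col (nat_lit 2)) (.slot (nat_lit 8))) (.col (nat_lit 1))
def w24135 : Root := .mk (.slot (nat_lit 0)) (.col (nat_lit 2)) (.node (.node (.col (nat_lit 2)) (.node (.col (nat_lit 0)) (.slot (nat_lit 1)) (.slot (nat_lit 1))) (.node (.node (.col (nat_lit 3)) (.slot (nat_lit 0)) (.slot (nat_lit 0))) (.slot (nat_lit 1)) (.slot (nat_lit 1)))) (.col (nat_lit 2)) (.node (.col (nat_lit 0)) (.slot (nat_lit 20)) (.slot (nat_lit 9)))) (.col (nat_lit 1))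
def w24136 : Root := .mk (.node (.node (.col (nat_lit 1)) (.slot (nat_lit 0)) (.slot (nat_lit 0))) (.slot (nat_lit 2)) (.slot (nat_lit 2))) (.col (nat_lit 2)) (.node (.node (.col (nat_lit 2)) (.node (.col (nat_lit 0)) (.slot (nat_lit 1)) (.slot (nat_lit 1))) (.node (.node (.col (nat_lit 3)) (.slot (nat_lit 0)) (.slot (nat_lit 0))) (.slot (nat_lit 1)) (.slot (nat_lit 1)))) (.col (nat_lit 2)) (.node (.col (nat_lit 2)) (.slot (nat_lit 3)) (.slot (nat_lit 1)))) (.col (nat_lit 1))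
def w24137 : Root := .mk (.slot (nat_lit 0)) (.col (nat_lit 2)) (.node (.node (.col (nat_lit 2)) (.node (.col (nat_lit 0)) (.slot (nat_lit 1)) (.slot (nat_lit 1))) (.node (.node (.col (nat_lit 3)) (.slot (nat_lit 0)) (.slot (nat_lit 0))) (.slot (nat_lit 1)) (.slot (nat_lit 1)))) (.col (nat_lit 2)) (.node (.col (nat_lit 3)) (.slot (nat_lit 20)) (.slot (nat_lit 9)))) (.col (nat_lit 1))
def w24138 : Root := .mk (.slot (nat_lit 0)) (.col (nat_lit 2)) (.node (.node (.col (nat_lit 2)) (.node (.col (nat_lit 0)) (.slot (nat_lit 1)) (.slot (nat_lit 1))) (.node (.node (.col (nat_lit 3)) (.slot (nat_lit 0)) (.slot (nat_lit 0))) (.slot (nat_lit 1)) (.slot (nat_lit 1)))) (.col (nat_lit 2)) (.node (.col (nat_lit 4)) (.slot (nat_lit 20)) (.slot (nat_lit 9)))) (.col (nat_lit 1))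
def w24139 : Root := .mk (.node (.node (.col (nat_lit 1)) (.slot (nat_lit 0)) (.slot (nat_lit 0))) (.slot (nat_lit 7)) (.slot (nat_lit 5))) (.col (nat_lit 2)) (.node (.node (.col (nat_lit 2)) (.node (.col (nat_lit 0)) (.slot (nat_lit 1)) (.slot (nat_lit 1))) (.node (.node (.col (nat_lit 3)) (.slot (nat_lit 0)) (.slot (nat_lit 0))) (.slot (nat_lit 1)) (.slot (nat_lit 1)))) (.col (nat_lit 2)) (.node (.slot (nat_lit 0)) (.slot (nat_lit 1)) (.slot (nat_lit 1)))) (.col (nat_lit 1))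
def l5450 : Root := .mk (.node (.node (.col (nat_lit 1)) (.node (.col (nat_lit 1)) (.slot (nat_lit 20)) (.slot (nat_lit 9))) (.slot (nat_lit 21))) (.slot (nat_lit 20)) (.slot (nat_lit 12))) (.col (nat_lit 2)) (.node (.node (.col (nat_lit 2)) (.node (.col (nat_lit 0)) (.slot (nat_lit 20)) (.slot (nat_lit 9))) (.node (.node (.col (nat_lit 3)) (.slot (nat_lit 8)) (.slot (nat_lit 8))) (.slot (nat_lit 8)) (.slot (nat_lit 1)))) (.col (nat_lit 2)) (.slot (nat_lit 21))) (.col (nat_lit 1))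
def w24140 : Root := .mk (.node (.node (.node (.node (.col (nat_lit 1)) (.node (.col (nat_lit 1)) (.slot (nat_lit 20)) (.slot (nat_lit 9))) (.slot (nat_lit 21))) (.slot (nat_lit 20)) (.slot (nat_lit 12))) (.col (nat_lit 2)) (.slot (nat_lit 1))) (.col (nat_lit 2)) (.slot (nat_lit 21))) (.col (nat_lit 2)) (.node (.col (nat_lit 0)) (.slot (nat_lit 20)) (.slot (nat_lit 9))) (.node (.node (.col (nat_lit 3)) (.slot (nat_lit 8)) (.slot (nat_lit 8))) (.slot (nat_lit 8)) (.slot (nat_lit 1)))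
def w24141 : Root := .mk (.node (.node (.node (.node (.col (nat_lit 1)) (.slot (nat_lit 0)) (.slot (nat_lit 0))) (.slot (nat_lit 10)) (.slot (nat_lit 10))) (.col (nat_lit 2)) (.slot (nat_lit 9))) (.col (nat_lit 2)) (.slot (nat_lit 10))) (.col (nat_lit 2)) (.node (.col (nat_lit 0)) (.slot (nat_lit 10)) (.slot (nat_lit 10))) (.node (.node (.slot (nat_lit 0)) (.slot (nat_lit 8)) (.slot (nat_lit 8))) (.slot (nat_lit 9)) (.slot (nat_lit 8)))
def w24142 : Root := .mk (.node (.node (.node (.col (nat_lit 1)) (.slot (nat_lit 0)) (.slot (nat_lit 0))) (.node (.col (nat_lit 0)) (.slot (nat_lit 3)) (.slot (nat_lit 1))) (.slot (nat_lit 8))) (.col (nat_lit 2)) (.slot (nat_lit 3))) (.node (.col (nat_lit 2)) (.node (.col (nat_lit 0)) (.slot (nat_lit 3)) (.slot (nat_lit 1))) (.slot (nat_lit 1))) (.col (nat_lit 2)) (.col (nat_lit 1))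
def w24143 : Root := .mk (.node (.node (.col (nat_lit 0)) (.node (.col (nat_lit 0)) (.slot (nat_lit 0)) (.slot (nat_lit 0))) (.slot (nat_lit 3))) (.col (nat_lit 2)) (.slot (nat_lit 3))) (.node (.col (nat_lit 2)) (.node (.col (nat_lit 0)) (.slot (nat_lit 3)) (.slot (nat_lit 1))) (.slot (nat_lit 3))) (.col (nat_lit 2)) (.col (nat_lit 1))
def w24144 : Root := .mk (.node (.node (.node (.col (nat_lit 1)) (.slot (nat_lit 0)) (.slot (nat_lit 0))) (.col (nat_lit 1)) (.slot (nat_lit 3))) (.col (nat_lit 2)) (.slot (nat_lit 3))) (.node (.col (nat_lit 2)) (.node (.col (nat_lit 0)) (.slot (nat_lit 3)) (.slot (nat_lit 1))) (.slot (nat_lit 3))) (.col (nat_lit 2)) (.col (nat_lit 1))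
def w24145 : Root := .mk (.node (.node (.node (.col (nat_lit 1)) (.node (.col (nat_lit 1)) (.slot (nat_lit 0)) (.slot (nat_lit 0))) (.slot (nat_lit 2))) (.col (nat_lit 2)) (.slot (nat_lit 2))) (.col (nat_lit 2)) (.slot (nat_lit 1))) (.node (.col (nat_lit 2)) (.node (.col (nat_lit 0)) (.slot (nat_lit 1)) (.slot (nat_lit 1))) (.slot (nat_lit 2))) (.col (nat_lit 2)) (.col (nat_lit 1))
def w24146 : Root := .mk (.node (.node (.node (.col (nat_lit 1)) (.node (.col (nat_lit 1)) (.slot (nat_lit 0)) (.slot (nat_lit 0))) (.slot (nat_lit 2))) (.col (nat_lit 3)) (.slot (nat_lit 2))) (.col (nat_lit 2)) (.slot (nat_lit 1))) (.node (.col (nat_lit 2)) (.node (.col (nat_lit 0)) (.slot (nat_lit 1)) (.slot (nat_lit 1))) (.slot (nat_lit 2))) (.col (nat_lit 2)) (.col (nat_lit 1))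
def w24147 : Root := .mk (.node (.node (.node (.col (nat_lit 1)) (.col (nat_lit 2)) .junk) (.node (.col (nat_lit 0)) (.slot (nat_lit 0)) (.slot (nat_lit 0))) (.col (nat_lit 0))) (.col (nat_lit 2)) (.slot (nat_lit 1))) (.node (.col (nat_lit 2)) (.node (.col (nat_lit 0)) (.slot (nat_lit 1)) (.slot (nat_lit 1))) (.slot (nat_lit 2))) (.col (nat_lit 2)) (.col (nat_lit 1))
def l5451 : Root := .mk (.node (.node (.node (.col (nat_lit 1)) (.col (nat_lit 2)) (.slot (nat_lit 5))) (.node (.col (nat_lit 0)) (.slot (nat_lit 3)) (.slot (nat_lit 1))) (.col (nat_lit 0))) (.col (nat_lit 2)) (.slot (nat_lit 3))) (.node (.col (nat_lit 2)) (.node (.col (nat_lit 0)) (.slot (nat_lit 1)) (.slot (nat_lit 1))) (.slot (nat_lit 3))) (.col (nat_lit 2)) (.col (nat_lit 1))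
def w24148 : Root := .mk (.node (.node (.node (.col (nat_lit 1)) (.node (.col (nat_lit 1)) (.slot (nat_lit 0)) (.slot (nat_lit 0))) (.slot (nat_lit 5))) (.node (.col (nat_lit 0)) (.slot (nat_lit 3)) (.slot (nat_lit 1))) (.col (nat_lit 0))) (.col (nat_lit 2)) (.slot (nat_lit 3))) (.node (.col (nat_lit 2)) (.node (.col (nat_lit 0)) (.slot (nat_lit 1)) (.slot (nat_lit 1))) (.slot (nat_lit 3))) (.col (nat_lit 2)) (.col (nat_lit 1))
def w24149 : Root := .mk (.node (.node (.node (.col (nat_lit 1)) (.node (.col (nat_lit 1)) (.slot (nat_lit 0)) (.slot (nat_lit 0))) (.slot (nat_lit 3))) (.node (.col (nat_lit 0)) (.slot (nat_lit 7)) (.slot (nat_lit 5))) (.col (nat_lit 1))) (.col (nat_lit 2)) (.slot (nat_lit 3))) (.slot (nat_lit 0)) (.col (nat_lit 2)) (.col (nat_lit 1))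
def w24150 : Root := .mk (.node (.node (.node (.col (nat_lit 1)) (.slot (nat_lit 0)) (.slot (nat_lit 0))) (.node (.col (nat_lit 0)) (.slot (nat_lit 20)) (.slot (nat_lit 9))) (.col (nat_lit 2))) (.col (nat_lit 2)) (.slot (nat_lit 1))) (.node (.col (nat_lit 2)) (.node (.col (nat_lit 0)) (.slot (nat_lit 1)) (.slot (nat_lit 1))) (.slot (nat_lit 2))) (.col (nat_lit 2)) (.col (nat_lit 1))
def w24151 : Root := .mk (.node (.node (.node (.col (nat_lit 1)) (.slot (nat_lit 0)) (.slot (nat_lit 1))) (.node (.col (nat_lit 0)) (.slot (nat_lit 1)) (.slot (nat_lit 1))) (.col (nat_lit 3))) (.col (nat_lit 2)) (.slot (nat_lit 1))) (.node (.col (nat_lit 2)) (.node (.col (nat_lit 0)) (.slot (nat_lit 1)) (.slot (nat_lit 1))) (.slot (nat_lit 2))) (.col (nat_lit 2)) (.col (nat_lit 1))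
def w24152 : Root := .mk (.node (.node (.node (.col (nat_lit 1)) (.slot (nat_lit 0)) (.slot (nat_lit 0))) (.node (.col (nat_lit 0)) (.slot (nat_lit 1)) (.slot (nat_lit 1))) (.node (.col (nat_lit 0)) (.slot (nat_lit 1)) (.slot (nat_lit 1)))) (.col (nat_lit 2)) (.slot (nat_lit 3))) (.node (.col (nat_lit 2)) (.node (.col (nat_lit 0)) (.slot (nat_lit 0)) (.slot (nat_lit 0))) (.slot (nat_lit 3))) (.col (nat_lit 2)) (.col (nat_lit 1))
def w24153 : Root := .mk (.node (.node (.node (.col (nat_lit 1)) (.node (.col (nat_lit 1)) (.slot (nat_lit 0)) (.slot (nat_lit 0))) (.slot (nat_lit 2))) (.node (.col (nat_lit 0)) (.slot (nat_lit 0)) (.slot (nat_lit 0))) (.node (.col (nat_lit 1)) (.slot (nat_lit 1)) (.slot (nat_lit 1)))) (.col (nat_lit 2)) (.slot (nat_lit 1))) (.node (.col (nat_lit 2)) (.node (.col (nat_lit 0)) (.slot (nat_lit 1)) (.slot (nat_lit 1))) (.slot (nat_lit 2))) (.col (nat_lit 2)) (.col (nat_lit 1))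
def w24154 : Root := .mk (.node (.node (.node (.col (nat_lit 1)) (.node (.col (nat_lit 1)) (.slot (nat_lit 0)) (.slot (nat_lit 0))) (.slot (nat_lit 3))) (.node (.col (nat_lit 0)) (.slot (nat_lit 0)) (.slot (nat_lit 0))) (.node (.col (nat_lit 2)) (.slot (nat_lit 7)) (.slot (nat_lit 5)))) (.col (nat_lit 2)) (.slot (nat_lit 3))) (.node (.col (nat_lit 2)) (.node (.col (nat_lit 0)) (.slot (nat_lit 3)) (.slot (nat_lit 1))) (.slot (nat_lit 1))) (.col (nat_lit 2)) (.col (nat_lit 1))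
def w24155 : Root := .mk (.node (.node (.node (.col (nat_lit 1)) (.slot (nat_lit 0)) (.slot (nat_lit 0))) (.node (.col (nat_lit 0)) (.slot (nat_lit 7)) (.slot (nat_lit 5))) (.node (.col (nat_lit 3)) (.slot (nat_lit 3)) (.slot (nat_lit 1)))) (.col (nat_lit 2)) (.slot (nat_lit 3))) (.node (.col (nat_lit 2)) (.node (.col (nat_lit 0)) (.slot (nat_lit 3)) (.slot (nat_lit 1))) (.slot (nat_lit 1))) (.col (nat_lit 2)) (.col (nat_lit 1))
def w24156 : Root := .mk (.node (.node (.node (.col (nat_lit 1)) (.slot (nat_lit 0)) (.slot (nat_lit 0))) (.node (.col (nat_lit 0)) (.slot (nat_lit 3)) (.slot (nat_lit 1))) (.node (.slot (nat_lit 0)) (.slot (nat_lit 1)) (.slot (nat_lit 0)))) (.col (nat_lit 2)) (.slot (nat_lit 3))) (.node (.col (nat_lit 2)) (.node (.col (nat_lit 0)) (.slot (nat_lit 3)) (.slot (nat_lit 1))) (.slot (nat_lit 1))) (.col (nat_lit 2)) (.col (nat_lit 1))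
def w24157 : Root := .mk (.node (.node (.node (.col (nat_lit 1)) (.col (nat_lit 2)) (.slot (nat_lit 5))) (.node (.col (nat_lit 0)) (.slot (nat_lit 3)) (.slot (nat_lit 1))) (.slot (nat_lit 1))) (.col (nat_lit 2)) (.slot (nat_lit 3))) (.node (.col (nat_lit 2)) (.node (.col (nat_lit 0)) (.slot (nat_lit 1)) (.slot (nat_lit 1))) (.slot (nat_lit 3))) (.col (nat_lit 2)) (.col (nat_lit 1))
def w24158 : Root := .mk (.node (.node (.node (.col (nat_lit 1)) (.col (nat_lit 3)) (.slot (nat_lit 2))) (.node (.col (nat_lit 0)) (.slot (nat_lit 0)) (.slot (nat_lit 0))) (.slot (nat_lit 2))) (.col (nat_lit 2)) (.slot (nat_lit 1))) (.node (.col (nat_lit 2)) (.node (.col (nat_lit 0)) (.slot (nat_lit 1)) (.slot (nat_lit 1))) (.slot (nat_lit 2))) (.col (nat_lit 2)) (.col (nat_lit 1))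
def w24159 : Root := .mk (.col (nat_lit 1)) (.slot (nat_lit 0)) (.node (.node (.col (nat_lit 2)) (.node (.node (.col (nat_lit 2)) (.node (.col (nat_lit 0)) (.slot (nat_lit 1)) (.slot (nat_lit 1))) (.slot (nat_lit 2))) (.col (nat_lit 2)) (.col (nat_lit 1))) (.slot (nat_lit 1))) (.node (.col (nat_lit 0)) (.slot (nat_lit 3)) (.slot (nat_lit 1))) (.slot (nat_lit 1))) (.col (nat_lit 0))
def w24160 : Root := .mk (.col (nat_lit 1)) (.node (.col (nat_lit 1)) (.slot (nat_lit 0)) (.slot (nat_lit 0))) (.node (.node (.col (nat_lit 2)) (.node (.node (.col (nat_lit 2)) (.node (.col (nat_lit 0)) (.slot (nat_lit 0)) (.slot (nat_lit 0))) (.slot (nat_lit 3))) (.col (nat_lit 2)) (.col (nat_lit 1))) (.slot (nat_lit 3))) (.node (.col (nat_lit 0)) (.slot (nat_lit 1)) (.slot (nat_lit 1))) (.slot (nat_lit 2))) (.col (nat_lit 2))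
def w24161 : Root := .mk (.col (nat_lit 1)) (.node (.col (nat_lit 1)) (.slot (nat_lit 0)) (.slot (nat_lit 0))) (.node (.node (.col (nat_lit 2)) (.node (.node (.col (nat_lit 2)) (.node (.col (nat_lit 0)) (.slot (nat_lit 0)) (.slot (nat_lit 0))) (.slot (nat_lit 3))) (.col (nat_lit 2)) (.col (nat_lit 1))) (.slot (nat_lit 3))) (.node (.col (nat_lit 0)) (.slot (nat_lit 1)) (.slot (nat_lit 1))) (.slot (nat_lit 2))) (.col (nat_lit 3))
def w24162 : Root := .mk (.node (.node (.col (nat_lit 1)) (.node (.col (nat_lit 1)) (.slot (nat_lit 0)) (.slot (nat_lit 0))) (.slot (nat_lit 2))) (.node (.col (nat_lit 0)) (.slot (nat_lit 0)) (.slot (nat_lit 0))) (.slot (nat_lit 2))) (.col (nat_lit 2)) (.node (.node (.col (nat_lit 2)) (.node (.col (nat_lit 0)) (.slot (nat_lit 3)) (.slot (nat_lit 1))) (.slot (nat_lit 1))) (.col (nat_lit 2)) (.col (nat_lit 1))) (.col (nat_lit 1))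
def w24163 : Root := .mk (.node (.node (.col (nat_lit 3)) (.node (.col (nat_lit 0)) (.slot (nat_lit 1)) (.slot (nat_lit 1))) (.slot (nat_lit 2))) (.col (nat_lit 2)) (.node (.col (nat_lit 0)) (.slot (nat_lit 1)) (.slot (nat_lit 1)))) (.node (.col (nat_lit 2)) (.slot (nat_lit 0)) (.slot (nat_lit 0))) (.col (nat_lit 2)) (.col (nat_lit 1))
def w24164 : Root := .mk (.node (.node (.col (nat_lit 3)) (.col (nat_lit 2)) (.slot (nat_lit 3))) (.col (nat_lit 2)) (.node (.col (nat_lit 0)) (.slot (nat_lit 3)) (.slot (nat_lit 1)))) (.node (.col (nat_lit 2)) (.node (.col (nat_lit 0)) (.slot (nat_lit 3)) (.slot (nat_lit 1))) (.slot (nat_lit 1))) (.col (nat_lit 2)) (.col (nat_lit 1))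
def w24169 : Root := .mk (.node (.node (.col (nat_lit 3)) (.node (.col (nat_lit 0)) (.slot (nat_lit 1)) (.slot (nat_lit 1))) (.node (.node (.col (nat_lit 0)) (.slot (nat_lit 0)) (.slot (nat_lit 0))) (.slot (nat_lit 2)) (.slot (nat_lit 1)))) (.col (nat_lit 2)) (.node (.col (nat_lit 0)) (.slot (nat_lit 1)) (.slot (nat_lit 1)))) (.node (.col (nat_lit 2)) (.slot (nat_lit 0)) (.slot (nat_lit 0))) (.col (nat_lit 2)) (.col (nat_lit 1))
def w24170 : Root := .mk (.node (.node (.col (nat_lit 3)) (.node (.col (nat_lit 0)) (.slot (nat_lit 1)) (.slot (nat_lit 1))) (.node (.node (.col (nat_lit 1)) (.slot (nat_lit 0)) (.slot (nat_lit 0))) (.slot (nat_lit 1)) (.slot (nat_lit 1)))) (.col (nat_lit 2)) (.node (.col (nat_lit 0)) (.slot (nat_lit 1)) (.slot (nat_lit 1)))) (.node (.col (nat_lit 2)) (.slot (nat_lit 0)) (.slot (nat_lit 0))) (.col (nat_lit 2)) (.col (nat_lit 1))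
def w24171 : Root := .mk (.node (.node (.col (nat_lit 3)) (.node (.col (nat_lit 0)) (.slot (nat_lit 1)) (.slot (nat_lit 1))) (.node (.node (.col (nat_lit 2)) (.slot (nat_lit 0)) (.slot (nat_lit 0))) (.slot (nat_lit 1)) (.slot (nat_lit 1)))) (.col (nat_lit 2)) (.node (.col (nat_lit 0)) (.slot (nat_lit 1)) (.slot (nat_lit 1)))) (.node (.col (nat_lit 2)) (.slot (nat_lit 0)) (.slot (nat_lit 0))) (.col (nat_lit 2)) (.col (nat_lit 1))
def w24172 : Root := .mk (.node (.node (.col (nat_lit 3)) (.node (.col (nat_lit 0)) (.slot (nat_lit 1)) (.slot (nat_lit 1))) (.node (.node (.col (nat_lit 3)) (.slot (nat_lit 0)) (.slot (nat_lit 0))) (.slot (nat_lit 1)) (.slot (nat_lit 1)))) (.col (nat_lit 2)) (.node (.col (nat_lit 0)) (.slot (nat_lit 1)) (.slot (nat_lit 1)))) (.node (.col (nat_lit 2)) (.slot (nat_lit 0)) (.slot (nat_lit 0))) (.col (nat_lit 2)) (.col (nat_lit 1))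
def w24173 : Root := .mk (.node (.node (.col (nat_lit 3)) (.node (.col (nat_lit 0)) (.slot (nat_lit 1)) (.slot (nat_lit 1))) (.node (.node (.col (nat_lit 4)) (.slot (nat_lit 0)) (.slot (nat_lit 0))) (.slot (nat_lit 1)) (.slot (nat_lit 1)))) (.col (nat_lit 2)) (.node (.col (nat_lit 0)) (.slot (nat_lit 1)) (.slot (nat_lit 1)))) (.node (.col (nat_lit 2)) (.slot (nat_lit 0)) (.slot (nat_lit 0))) (.col (nat_lit 2)) (.col (nat_lit 1))
def w24174 : Root := .mk (.node (.col (nat_lit 3)) (.node (.col (nat_lit 2)) (.node (.node (.col (nat_lit 2)) (.node (.col (nat_lit 0)) (.slot (nat_lit 1)) (.slot (nat_lit 1))) (.slot (nat_lit 2))) (.col (nat_lit 2)) (.col (nat_lit 1))) (.node (.col (nat_lit 0)) (.slot (nat_lit 0)) (.slot (nat_lit 0)))) (.slot (nat_lit 1))) (.col (nat_lit 0)) (.col (nat_lit 3)) (.col (nat_lit 4))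
def w24175 : Root := .mk (.node (.col (nat_lit 3)) (.node (.col (nat_lit 2)) (.node (.node (.col (nat_lit 2)) (.slot (nat_lit 0)) (.slot (nat_lit 0))) (.col (nat_lit 2)) (.col (nat_lit 1))) (.node (.col (nat_lit 0)) (.slot (nat_lit 1)) (.slot (nat_lit 1)))) (.slot (nat_lit 1))) (.col (nat_lit 0)) (.col (nat_lit 3)) (.node (.col (nat_lit 1)) (.node (.col (nat_lit 1)) (.slot (nat_lit 0)) (.slot (nat_lit 0))) (.slot (nat_lit 1)))
def w24176 : Root := .mk (.node (.col (nat_lit 3)) (.node (.col (nat_lit 2)) (.node (.slot (nat_lit 0)) (.col (nat_lit 2)) (.col (nat_lit 1))) (.node (.col (nat_lit 0)) (.slot (nat_lit 0)) (.slot (nat_lit 0)))) (.slot (nat_lit 2))) (.col (nat_lit 0)) (.col (nat_lit 3)) (.node (.col (nat_lit 1)) (.node (.slot (nat_lit 0)) (.slot (nat_lit 0)) (.slot (nat_lit 0))) (.slot (nat_lit 1)))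
def l5452 : Root := .mk (.node (.col (nat_lit 3)) (.node (.col (nat_lit 2)) (.node (.node (.col (nat_lit 2)) (.node (.col (nat_lit 0)) (.slot (nat_lit 1)) (.slot (nat_lit 1))) (.slot (nat_lit 2))) (.col (nat_lit 2)) (.col (nat_lit 1))) (.node (.col (nat_lit 0)) (.slot (nat_lit 1)) (.slot (nat_lit 1)))) (.slot (nat_lit 3))) (.col (nat_lit 0)) (.col (nat_lit 3)) (.node (.col (nat_lit 1)) (.slot (nat_lit 20)) (.slot (nat_lit 9)))
def w24177 : Root := .mk (.node (.node (.col (nat_lit 3)) (.node (.col (nat_lit 0)) (.col (nat_lit 3)) (.slot (nat_lit 21))) (.slot (nat_lit 3))) (.col (nat_lit 2)) (.node (.col (nat_lit 0)) (.slot (nat_lit 1)) (.slot (nat_lit 1)))) (.node (.col (nat_lit 2)) (.node (.col (nat_lit 0)) (.slot (nat_lit 1)) (.slot (nat_lit 1))) (.slot (nat_lit 2))) (.col (nat_lit 2)) (.col (nat_lit 1))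
def w24178 : Root := .mk (.node (.node (.col (nat_lit 3)) (.node (.col (nat_lit 0)) (.node (.col (nat_lit 0)) (.slot (nat_lit 0)) (.slot (nat_lit 0))) (.slot (nat_lit 2))) (.slot (nat_lit 2))) (.col (nat_lit 2)) (.node (.col (nat_lit 0)) (.slot (nat_lit 1)) (.slot (nat_lit 1)))) (.node (.col (nat_lit 2)) (.slot (nat_lit 0)) (.slot (nat_lit 0))) (.col (nat_lit 2)) (.col (nat_lit 1))
def w24179 : Root := .mk (.node (.node (.col (nat_lit 3)) (.node (.col (nat_lit 0)) (.node (.col (nat_lit 2)) (.slot (nat_lit 1)) (.slot (nat_lit 1))) (.slot (nat_lit 2))) (.slot (nat_lit 3))) (.col (nat_lit 2)) (.node (.col (nat_lit 0)) (.slot (nat_lit 5)) (.slot (nat_lit 1)))) (.slot (nat_lit 0)) (.col (nat_lit 2)) (.col (nat_lit 1))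
def w24180 : Root := .mk (.node (.col (nat_lit 3)) (.node (.col (nat_lit 0)) (.slot (nat_lit 1)) (.slot (nat_lit 1))) (.slot (nat_lit 2))) (.col (nat_lit 2)) (.node (.col (nat_lit 0)) .junk (.col (nat_lit 1))) (.node (.col (nat_lit 0)) (.slot (nat_lit 0)) (.slot (nat_lit 0)))
def w24181 : Root := .mk (.node (.node (.col (nat_lit 3)) (.node (.col (nat_lit 0)) (.slot (nat_lit 1)) (.slot (nat_lit 1))) (.slot (nat_lit 2))) (.col (nat_lit 2)) (.node (.col (nat_lit 0)) (.col (nat_lit 2)) (.slot (nat_lit 1)))) (.node (.col (nat_lit 2)) (.node (.col (nat_lit 0)) (.slot (nat_lit 1)) (.slot (nat_lit 1))) (.slot (nat_lit 2))) (.col (nat_lit 2)) (.col (nat_lit 1))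
def w24182 : Root := .mk (.node (.node (.col (nat_lit 3)) (.node (.col (nat_lit 0)) (.slot (nat_lit 1)) (.slot (nat_lit 1))) (.slot (nat_lit 2))) (.col (nat_lit 2)) (.node (.col (nat_lit 0)) (.slot (nat_lit 0)) (.slot (nat_lit 0)))) (.node (.col (nat_lit 2)) (.node (.col (nat_lit 0)) (.slot (nat_lit 20)) (.slot (nat_lit 9))) (.slot (nat_lit 21))) (.col (nat_lit 2)) (.col (nat_lit 1))
def w24183 : Root := .mk (.node (.node (.col (nat_lit 3)) (.node (.col (nat_lit 0)) (.slot (nat_lit 1)) (.slot (nat_lit 1))) (.slot (nat_lit 2))) (.col (nat_lit 2)) (.node (.col (nat_lit 0)) (.slot (nat_lit 1)) (.slot (nat_lit 1)))) (.node (.col (nat_lit 2)) (.col (nat_lit 1)) (.slot (nat_lit 0))) (.col (nat_lit 2)) (.col (nat_lit 1))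
def l5453 : Root := .mk (.node (.node (.col (nat_lit 3)) (.node (.col (nat_lit 0)) (.slot (nat_lit 21)) (.slot (nat_lit 21))) (.slot (nat_lit 21))) (.col (nat_lit 2)) (.node (.col (nat_lit 0)) (.slot (nat_lit 5)) (.slot (nat_lit 1)))) (.node (.col (nat_lit 2)) (.node (.col (nat_lit 0)) (.slot (nat_lit 20)) (.slot (nat_lit 9))) (.slot (nat_lit 21))) (.col (nat_lit 2)) (.col (nat_lit 1))
def w24184 : Root := .mk (.node (.node (.node (.col (nat_lit 1)) (.slot (nat_lit 0)) (.slot (nat_lit 0))) (.node (.col (nat_lit 0)) (.slot (nat_lit 21)) (.slot (nat_lit 21))) (.slot (nat_lit 21))) (.col (nat_lit 2)) (.node (.col (nat_lit 0)) (.slot (nat_lit 5)) (.slot (nat_lit 1)))) (.node (.col (nat_lit 2)) (.node (.col (nat_lit 0)) (.slot (nat_lit 20)) (.slot (nat_lit 9))) (.slot (nat_lit 21))) (.col (nat_lit 2)) (.col (nat_lit 1))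
def w24185 : Root := .mk (.node (.node (.col (nat_lit 2)) (.node (.col (nat_lit 0)) (.slot (nat_lit 1)) (.slot (nat_lit 1))) (.slot (nat_lit 2))) (.col (nat_lit 2)) (.node (.col (nat_lit 2)) (.slot (nat_lit 0)) (.slot (nat_lit 0)))) (.node (.col (nat_lit 2)) (.node (.col (nat_lit 0)) (.slot (nat_lit 1)) (.slot (nat_lit 1))) (.slot (nat_lit 2))) (.col (nat_lit 2)) (.col (nat_lit 1))
def w24186 : Root := .mk (.node (.node (.col (nat_lit 3)) (.node (.col (nat_lit 0)) (.slot (nat_lit 0)) (.slot (nat_lit 0))) (.slot (nat_lit 3))) (.col (nat_lit 2)) (.node (.col (nat_lit 2)) (.slot (nat_lit 0)) (.slot (nat_lit 0)))) (.node (.col (nat_lit 2)) (.node (.col (nat_lit 0)) (.slot (nat_lit 1)) (.slot (nat_lit 1))) (.slot (nat_lit 2))) (.col (nat_lit 2)) (.col (nat_lit 1))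
def w24187 : Root := .mk (.col (nat_lit 1)) (.col (nat_lit 0)) (.node (.node (.col (nat_lit 2)) (.node (.node (.col (nat_lit 2)) (.node (.col (nat_lit 0)) (.slot (nat_lit 1)) (.slot (nat_lit 1))) (.slot (nat_lit 2))) (.col (nat_lit 2)) (.col (nat_lit 1))) (.node (.col (nat_lit 2)) (.slot (nat_lit 0)) (.slot (nat_lit 0)))) (.node (.col (nat_lit 0)) (.slot (nat_lit 3)) (.slot (nat_lit 1))) (.slot (nat_lit 1))) (.slot (nat_lit 0))
def l5454 : Root := .mk (.node (.node (.col (nat_lit 1)) (.col (nat_lit 0)) (.slot (nat_lit 0))) (.col (nat_lit 1)) (.slot (nat_lit 3))) (.col (nat_lit 2)) (.node (.node (.col (nat_lit 2)) (.node (.col (nat_lit 0)) (.slot (nat_lit 20)) (.slot (nat_lit 9))) (.slot (nat_lit 2))) (.col (nat_lit 2)) (.col (nat_lit 1))) (.col (nat_lit 3))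
def w24188 : Root := .mk (.node (.node (.node (.col (nat_lit 1)) (.col (nat_lit 0)) (.slot (nat_lit 0))) (.col (nat_lit 1)) (.slot (nat_lit 3))) (.col (nat_lit 2)) (.node (.col (nat_lit 2)) (.slot (nat_lit 0)) (.slot (nat_lit 0)))) (.node (.col (nat_lit 2)) (.node (.col (nat_lit 0)) (.slot (nat_lit 20)) (.slot (nat_lit 9))) (.slot (nat_lit 2))) (.col (nat_lit 2)) (.col (nat_lit 1))
def w24189 : Root := .mk (.node (.node (.node (.col (nat_lit 1)) (.col (nat_lit 0)) (.slot (nat_lit 3))) (.node (.col (nat_lit 0)) (.slot (nat_lit 3)) (.slot (nat_lit 1))) (.col (nat_lit 0))) (.col (nat_lit 2)) (.node (.col (nat_lit 2)) (.slot (nat_lit 0)) (.slot (nat_lit 0)))) (.node (.col (nat_lit 2)) (.node (.col (nat_lit 0)) (.slot (nat_lit 1)) (.slot (nat_lit 1))) (.slot (nat_lit 2))) (.col (nat_lit 2)) (.col (nat_lit 1))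
def w24190 : Root := .mk (.col (nat_lit 1)) (.col (nat_lit 0)) (.node (.node (.col (nat_lit 2)) (.slot (nat_lit 0)) (.slot (nat_lit 0))) (.node (.col (nat_lit 0)) (.slot (nat_lit 3)) (.slot (nat_lit 1))) (.node (.col (nat_lit 1)) (.slot (nat_lit 3)) (.slot (nat_lit 1)))) (.slot (nat_lit 3))
def w24191 : Root := .mk (.node (.node (.col (nat_lit 1)) (.col (nat_lit 0)) (.slot (nat_lit 1))) (.node (.col (nat_lit 0)) (.slot (nat_lit 1)) (.slot (nat_lit 0))) (.node (.col (nat_lit 2)) (.slot (nat_lit 0)) (.slot (nat_lit 0)))) (.col (nat_lit 2)) (.node (.col (nat_lit 3)) .junk (.col (nat_lit 1))) (.node (.col (nat_lit 2)) (.slot (nat_lit 0)) (.slot (nat_lit 0)))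
def w24192 : Root := .mk (.node (.node (.node (.col (nat_lit 1)) (.col (nat_lit 0)) (.slot (nat_lit 1))) (.node (.col (nat_lit 0)) (.slot (nat_lit 1)) (.slot (nat_lit 0))) (.node (.col (nat_lit 2)) (.slot (nat_lit 0)) (.slot (nat_lit 0)))) (.col (nat_lit 2)) (.node (.col (nat_lit 2)) (.slot (nat_lit 0)) (.slot (nat_lit 0)))) (.node (.col (nat_lit 2)) (.node (.col (nat_lit 0)) (.slot (nat_lit 1)) (.slot (nat_lit 1))) (.slot (nat_lit 2))) (.col (nat_lit 2)) (.col (nat_lit 1))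
def w24193 : Root := .mk (.node (.node (.col (nat_lit 1)) (.col (nat_lit 0)) (.slot (nat_lit 0))) (.node (.col (nat_lit 0)) (.col (nat_lit 2)) (.slot (nat_lit 1))) (.slot (nat_lit 1))) (.col (nat_lit 2)) (.node (.col (nat_lit 3)) .junk (.col (nat_lit 1))) (.node (.col (nat_lit 2)) (.slot (nat_lit 0)) (.slot (nat_lit 0)))
def w24194 : Root := .mk (.node (.node (.node (.col (nat_lit 1)) (.col (nat_lit 0)) (.slot (nat_lit 0))) (.node (.col (nat_lit 0)) (.col (nat_lit 2)) (.slot (nat_lit 1))) (.slot (nat_lit 1))) (.col (nat_lit 2)) (.node (.col (nat_lit 2)) (.slot (nat_lit 0)) (.slot (nat_lit 0)))) (.node (.col (nat_lit 2)) (.node (.col (nat_lit 0)) (.slot (nat_lit 1)) (.slot (nat_lit 1))) (.slot (nat_lit 2))) (.col (nat_lit 2)) (.col (nat_lit 1))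
def l5455 : Root := .mk (.node (.node (.node (.col (nat_lit 1)) (.col (nat_lit 0)) (.slot (nat_lit 6))) (.node (.col (nat_lit 0)) (.slot (nat_lit 21)) (.slot (nat_lit 21))) (.slot (nat_lit 8))) (.col (nat_lit 2)) (.node (.col (nat_lit 2)) (.slot (nat_lit 0)) (.slot (nat_lit 0)))) (.node (.col (nat_lit 2)) (.node (.col (nat_lit 0)) (.slot (nat_lit 20)) (.slot (nat_lit 9))) (.slot (nat_lit 2))) (.col (nat_lit 2)) (.col (nat_lit 1))
def w24195 : Root := .mk (.node (.node (.node (.col (nat_lit 1)) (.node (.col (nat_lit 1)) (.slot (nat_lit 0)) (.slot (nat_lit 0))) (.slot (nat_lit 6))) (.node (.col (nat_lit 0)) (.slot (nat_lit 21)) (.slot (nat_lit 21))) (.slot (nat_lit 8))) (.col (nat_lit 2)) (.node (.col (nat_lit 2)) (.slot (nat_lit 0)) (.slot (nat_lit 0)))) (.node (.col (nat_lit 2)) (.node (.col (nat_lit 0)) (.slot (nat_lit 20)) (.slot (nat_lit 9))) (.slot (nat_lit 2))) (.col (nat_lit 2)) (.col (nat_lit 1))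
def w24196 : Root := .mk (.node (.node (.node (.col (nat_lit 1)) (.slot (nat_lit 0)) (.slot (nat_lit 0))) (.node (.col (nat_lit 0)) (.col (nat_lit 2)) (.slot (nat_lit 4))) (.slot (nat_lit 1))) (.col (nat_lit 2)) (.node (.slot (nat_lit 0)) (.slot (nat_lit 0)) (.slot (nat_lit 0)))) (.node (.col (nat_lit 2)) (.node (.col (nat_lit 0)) (.slot (nat_lit 1)) (.slot (nat_lit 1))) (.slot (nat_lit 2))) (.col (nat_lit 2)) (.col (nat_lit 1))
def w24197 : Root := .mk (.node (.node (.node (.col (nat_lit 1)) (.slot (nat_lit 0)) (.slot (nat_lit 0))) (.col (nat_lit 1)) (.slot (nat_lit 3))) (.col (nat_lit 2)) (.node (.slot (nat_lit 0)) (.slot (nat_lit 1)) (.slot (nat_lit 1)))) (.node (.col (nat_lit 2)) (.node (.col (nat_lit 0)) (.slot (nat_lit 3)) (.slot (nat_lit 1))) (.slot (nat_lit 2))) (.col (nat_lit 2)) (.col (nat_lit 1))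
def w24198 : Root := .mk (.node (.node (.col (nat_lit 1)) (.slot (nat_lit 0)) (.slot (nat_lit 0))) (.node (.col (nat_lit 2)) (.node (.node (.col (nat_lit 2)) (.node (.col (nat_lit 0)) (.slot (nat_lit 1)) (.slot (nat_lit 1))) (.slot (nat_lit 2))) (.col (nat_lit 2)) (.col (nat_lit 1))) (.node (.slot (nat_lit 0)) (.slot (nat_lit 0)) (.slot (nat_lit 0)))) (.slot (nat_lit 3))) (.col (nat_lit 0)) (.col (nat_lit 2)) (.node (.col (nat_lit 0)) (.slot (nat_lit 0)) (.slot (nat_lit 0)))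
def w24199 : Root := .mk (.node (.node (.col (nat_lit 1)) (.slot (nat_lit 0)) (.slot (nat_lit 0))) (.node (.col (nat_lit 2)) (.node (.node (.col (nat_lit 2)) (.node (.col (nat_lit 0)) (.slot (nat_lit 1)) (.slot (nat_lit 1))) (.slot (nat_lit 2))) (.col (nat_lit 2)) (.col (nat_lit 1))) (.node (.slot (nat_lit 0)) (.slot (nat_lit 0)) (.slot (nat_lit 0)))) (.slot (nat_lit 3))) (.col (nat_lit 0)) (.col (nat_lit 2)) (.node (.col (nat_lit 2)) (.slot (nat_lit 2)) (.slot (nat_lit 0)))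
def w24200 : Root := .mk (.node (.node (.col (nat_lit 1)) (.slot (nat_lit 0)) (.slot (nat_lit 0))) (.node (.col (nat_lit 2)) (.node (.node (.col (nat_lit 2)) (.node (.col (nat_lit 0)) (.slot (nat_lit 1)) (.slot (nat_lit 1))) (.slot (nat_lit 2))) (.col (nat_lit 2)) (.col (nat_lit 1))) (.node (.slot (nat_lit 0)) (.slot (nat_lit 0)) (.slot (nat_lit 0)))) (.slot (nat_lit 3))) (.col (nat_lit 0)) (.col (nat_lit 2)) (.node (.slot (nat_lit 0)) (.slot (nat_lit 0)) (.slot (nat_lit 0)))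
def w24201 : Root := .mk (.node (.node (.col (nat_lit 2)) (.node (.col (nat_lit 0)) (.col (nat_lit 2)) (.slot (nat_lit 4))) (.slot (nat_lit 8))) (.col (nat_lit 2)) (.node (.slot (nat_lit 0)) (.slot (nat_lit 1)) (.slot (nat_lit 1)))) (.node (.col (nat_lit 2)) (.node (.col (nat_lit 0)) (.slot (nat_lit 3)) (.slot (nat_lit 1))) (.slot (nat_lit 1))) (.col (nat_lit 2)) (.col (nat_lit 1))
def w24202 : Root := .mk (.node (.node (.node (.col (nat_lit 1)) (.slot (nat_lit 0)) (.slot (nat_lit 0))) (.node (.col (nat_lit 0)) (.col (nat_lit 2)) (.slot (nat_lit 5))) (.col (nat_lit 0))) (.col (nat_lit 2)) (.node (.slot (nat_lit 0)) (.slot (nat_lit 0)) (.slot (nat_lit 0)))) (.col (nat_lit 3)) (.col (nat_lit 2)) (.col (nat_lit 1))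
def w24203 : Root := .mk (.node (.node (.node (.col (nat_lit 1)) (.slot (nat_lit 0)) (.slot (nat_lit 0))) (.node (.col (nat_lit 0)) (.col (nat_lit 2)) (.slot (nat_lit 5))) (.col (nat_lit 0))) (.col (nat_lit 2)) (.node (.slot (nat_lit 0)) (.slot (nat_lit 0)) (.slot (nat_lit 0)))) (.node (.col (nat_lit 2)) (.node (.col (nat_lit 0)) (.slot (nat_lit 1)) (.slot (nat_lit 1))) (.slot (nat_lit 2))) (.col (nat_lit 2)) (.col (nat_lit 1))
def w24204 : Root := .mk (.node (.node (.col (nat_lit 1)) (.node (.col (nat_lit 1)) (.slot (nat_lit 0)) (.slot (nat_lit 0))) (.slot (nat_lit 1))) (.node (.col (nat_lit 0)) (.col (nat_lit 2)) (.slot (nat_lit 1))) (.col (nat_lit 2))) (.col (nat_lit 2)) (.node (.col (nat_lit 3)) .junk (.col (nat_lit 1))) (.node (.slot (nat_lit 0)) (.slot (nat_lit 0)) (.slot (nat_lit 0)))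
def w24205 : Root := .mk (.node (.node (.node (.col (nat_lit 1)) (.node (.col (nat_lit 1)) (.slot (nat_lit 0)) (.slot (nat_lit 0))) (.slot (nat_lit 1))) (.node (.col (nat_lit 0)) (.col (nat_lit 2)) (.slot (nat_lit 1))) (.col (nat_lit 2))) (.col (nat_lit 2)) (.node (.slot (nat_lit 0)) (.slot (nat_lit 0)) (.slot (nat_lit 0)))) (.node (.col (nat_lit 2)) (.node (.col (nat_lit 0)) (.slot (nat_lit 1)) (.slot (nat_lit 1))) (.slot (nat_lit 2))) (.col (nat_lit 2)) (.col (nat_lit 1))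
def w24206 : Root := .mk (.node (.node (.node (.col (nat_lit 1)) (.slot (nat_lit 0)) (.slot (nat_lit 0))) (.node (.col (nat_lit 0)) (.col (nat_lit 2)) (.slot (nat_lit 6))) (.node (.col (nat_lit 1)) (.slot (nat_lit 1)) (.slot (nat_lit 1)))) (.col (nat_lit 2)) (.node (.slot (nat_lit 0)) (.slot (nat_lit 0)) (.slot (nat_lit 0)))) (.node (.col (nat_lit 2)) (.node (.col (nat_lit 0)) (.slot (nat_lit 1)) (.slot (nat_lit 1))) (.slot (nat_lit 2))) (.col (nat_lit 2)) (.col (nat_lit 1))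
def w24207 : Root := .mk (.node (.node (.node (.col (nat_lit 1)) (.slot (nat_lit 0)) (.slot (nat_lit 0))) (.node (.col (nat_lit 0)) (.col (nat_lit 2)) (.slot (nat_lit 5))) (.node (.col (nat_lit 3)) (.slot (nat_lit 0)) (.slot (nat_lit 0)))) (.col (nat_lit 2)) (.node (.slot (nat_lit 0)) (.slot (nat_lit 0)) (.slot (nat_lit 0)))) (.node (.col (nat_lit 2)) (.node (.col (nat_lit 0)) (.slot (nat_lit 1)) (.slot (nat_lit 1))) (.slot (nat_lit 2))) (.col (nat_lit 2)) (.col (nat_lit 1))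
def w24208 : Root := .mk (.node (.node (.node (.col (nat_lit 1)) (.col (nat_lit 0)) (.slot (nat_lit 0))) (.node (.col (nat_lit 0)) (.col (nat_lit 2)) (.slot (nat_lit 1))) (.slot (nat_lit 3))) (.col (nat_lit 2)) (.node (.slot (nat_lit 0)) (.slot (nat_lit 0)) (.slot (nat_lit 0)))) (.node (.col (nat_lit 2)) (.node (.col (nat_lit 0)) (.slot (nat_lit 1)) (.slot (nat_lit 1))) (.slot (nat_lit 2))) (.col (nat_lit 2)) (.col (nat_lit 1))
def w24209 : Root := .mk (.col (nat_lit 1)) (.slot (nat_lit 0)) (.node (.node (.col (nat_lit 2)) (.node (.node (.col (nat_lit 2)) (.node (.col (nat_lit 0)) (.slot (nat_lit 1)) (.slot (nat_lit 1))) (.slot (nat_lit 2))) (.col (nat_lit 2)) (.col (nat_lit 1))) (.node (.slot (nat_lit 0)) (.slot (nat_lit 0)) (.slot (nat_lit 0)))) (.node (.col (nat_lit 0)) (.col (nat_lit 2)) (.slot (nat_lit 4))) (.slot (nat_lit 1))) (.col (nat_lit 3))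
def w24210 : Root := .mk (.node (.node (.col (nat_lit 1)) (.slot (nat_lit 0)) (.slot (nat_lit 0))) (.node (.col (nat_lit 2)) (.col (nat_lit 3)) (.slot (nat_lit 0))) (.slot (nat_lit 1))) (.col (nat_lit 0)) (.col (nat_lit 2)) (.node (.col (nat_lit 4)) (.col (nat_lit 0)) (.slot (nat_lit 5)))
def w24211 : Root := .mk (.node (.node (.col (nat_lit 1)) (.slot (nat_lit 0)) (.slot (nat_lit 0))) (.node (.col (nat_lit 2)) (.col (nat_lit 3)) (.slot (nat_lit 0))) (.slot (nat_lit 1))) (.col (nat_lit 0)) (.col (nat_lit 2)) (.node (.col (nat_lit 4)) (.col (nat_lit 2)) (.slot (nat_lit 5)))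
def l5461 : Root := .mk (.node (.node (.col (nat_lit 1)) (.node (.col (nat_lit 1)) (.slot (nat_lit 0)) (.slot (nat_lit 0))) (.slot (nat_lit 2))) (.node (.col (nat_lit 2)) (.col (nat_lit 3)) (.node (.slot (nat_lit 0)) (.slot (nat_lit 0)) (.slot (nat_lit 0)))) (.slot (nat_lit 2))) (.col (nat_lit 0)) (.col (nat_lit 2)) (.node (.col (nat_lit 4)) (.slot (nat_lit 20)) (.slot (nat_lit 9)))
def w24220 : Root := .mk (.node (.node (.col (nat_lit 1)) (.node (.col (nat_lit 1)) (.slot (nat_lit 0)) (.slot (nat_lit 0))) (.slot (nat_lit 2))) (.node (.col (nat_lit 0)) (.col (nat_lit 2)) (.slot (nat_lit 21))) (.slot (nat_lit 2))) (.col (nat_lit 2)) (.col (nat_lit 3)) (.node (.slot (nat_lit 0)) (.slot (nat_lit 0)) (.slot (nat_lit 0)))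
def w24221 : Root := .mk (.node (.node (.col (nat_lit 1)) (.slot (nat_lit 0)) (.slot (nat_lit 0))) (.node (.col (nat_lit 0)) (.col (nat_lit 2)) (.slot (nat_lit 0))) (.slot (nat_lit 1))) (.col (nat_lit 2)) (.node (.node (.col (nat_lit 2)) (.node (.col (nat_lit 0)) (.slot (nat_lit 3)) (.slot (nat_lit 1))) (.slot (nat_lit 1))) (.col (nat_lit 2)) (.col (nat_lit 1))) (.col (nat_lit 1))
def w24222 : Root := .mk (.node (.node (.node (.col (nat_lit 1)) (.slot (nat_lit 0)) (.slot (nat_lit 0))) (.node (.col (nat_lit 0)) (.col (nat_lit 2)) (.slot (nat_lit 3))) (.slot (nat_lit 1))) (.col (nat_lit 2)) (.node (.col (nat_lit 0)) (.slot (nat_lit 1)) (.slot (nat_lit 1)))) (.node (.col (nat_lit 2)) (.slot (nat_lit 0)) (.slot (nat_lit 0))) (.col (nat_lit 2)) (.col (nat_lit 1))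
def w24223 : Root := .mk (.node (.node (.node (.col (nat_lit 1)) (.slot (nat_lit 0)) (.slot (nat_lit 0))) (.node (.col (nat_lit 0)) (.col (nat_lit 2)) (.slot (nat_lit 1))) (.slot (nat_lit 2))) (.col (nat_lit 2)) (.node (.col (nat_lit 2)) (.slot (nat_lit 0)) (.slot (nat_lit 0)))) (.node (.col (nat_lit 2)) (.node (.col (nat_lit 0)) (.slot (nat_lit 1)) (.slot (nat_lit 1))) (.slot (nat_lit 2))) (.col (nat_lit 2)) (.col (nat_lit 1))
def w24224 : Root := .mk (.node (.node (.node (.col (nat_lit 1)) (.slot (nat_lit 0)) (.slot (nat_lit 0))) (.node (.col (nat_lit 0)) (.col (nat_lit 2)) (.slot (nat_lit 3))) (.slot (nat_lit 1))) (.col (nat_lit 2)) (.node (.slot (nat_lit 0)) (.col (nat_lit 0)) (.slot (nat_lit 1)))) (.node (.col (nat_lit 2)) (.node (.col (nat_lit 0)) (.slot (nat_lit 3)) (.slot (nat_lit 1))) (.slot (nat_lit 2))) (.col (nat_lit 2)) (.col (nat_lit 1))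
def w24225 : Root := .mk (.node (.node (.node (.col (nat_lit 1)) (.slot (nat_lit 0)) (.slot (nat_lit 0))) (.node (.col (nat_lit 0)) (.col (nat_lit 2)) (.slot (nat_lit 3))) (.slot (nat_lit 1))) (.col (nat_lit 2)) (.node (.slot (nat_lit 0)) (.col (nat_lit 1)) (.slot (nat_lit 1)))) (.node (.col (nat_lit 2)) (.node (.col (nat_lit 0)) (.slot (nat_lit 3)) (.slot (nat_lit 1))) (.slot (nat_lit 2))) (.col (nat_lit 2)) (.col (nat_lit 1))
def w24226 : Root := .mk (.node (.node (.node (.col (nat_lit 1)) (.slot (nat_lit 0)) (.slot (nat_lit 0))) (.node (.col (nat_lit 0)) (.col (nat_lit 2)) (.slot (nat_lit 3))) (.slot (nat_lit 1))) (.col (nat_lit 2)) (.node (.slot (nat_lit 0)) (.col (nat_lit 3)) (.slot (nat_lit 0)))) (.node (.col (nat_lit 2)) (.node (.col (nat_lit 0)) (.slot (nat_lit 1)) (.slot (nat_lit 1))) (.slot (nat_lit 2))) (.col (nat_lit 2)) (.col (nat_lit 1))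
def w24227 : Root := .mk (.node (.node (.col (nat_lit 1)) (.node (.col (nat_lit 1)) (.slot (nat_lit 0)) (.slot (nat_lit 0))) (.slot (nat_lit 1))) (.node (.col (nat_lit 0)) (.col (nat_lit 2)) (.slot (nat_lit 1))) (.col (nat_lit 0))) (.col (nat_lit 2)) (.col (nat_lit 0)) (.node .junk (.col (nat_lit 1)) (.slot (nat_lit 1)))
def l5462 : Root := .mk (.node (.col (nat_lit 3)) (.node (.col (nat_lit 0)) (.col (nat_lit 2)) (.node (.col (nat_lit 0)) (.slot (nat_lit 0)) (.slot (nat_lit 0)))) (.slot (nat_lit 1))) (.col (nat_lit 2)) (.col (nat_lit 0)) (.node .junk (.col (nat_lit 1)) (.slot (nat_lit 1)))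
def w24228 : Root := .mk (.node (.node (.col (nat_lit 1)) (.slot (nat_lit 0)) (.slot (nat_lit 0))) (.node (.col (nat_lit 2)) (.col (nat_lit 0)) (.node .junk (.col (nat_lit 1)) (.slot (nat_lit 1)))) (.slot (nat_lit 1))) (.col (nat_lit 0)) (.col (nat_lit 2)) (.node (.col (nat_lit 0)) (.slot (nat_lit 0)) (.slot (nat_lit 0)))
def w24229 : Root := .mk (.node (.node (.col (nat_lit 1)) (.slot (nat_lit 0)) (.slot (nat_lit 0))) (.node (.col (nat_lit 2)) (.col (nat_lit 0)) (.node .junk (.col (nat_lit 1)) (.slot (nat_lit 1)))) (.slot (nat_lit 1))) (.col (nat_lit 0)) (.col (nat_lit 2)) (.node (.slot (nat_lit 0)) (.slot (nat_lit 0)) (.slot (nat_lit 0)))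
def l5463 : Root := .mk (.node (.node (.col (nat_lit 1)) (.node (.col (nat_lit 1)) (.slot (nat_lit 0)) (.slot (nat_lit 0))) (.slot (nat_lit 1))) (.node (.col (nat_lit 0)) (.col (nat_lit 2)) (.slot (nat_lit 3))) (.slot (nat_lit 4))) (.col (nat_lit 2)) (.col (nat_lit 0)) (.node (.slot (nat_lit 0)) (.col (nat_lit 1)) (.slot (nat_lit 1)))
def w24230 : Root := .mk (.node (.node (.node (.col (nat_lit 1)) (.node (.col (nat_lit 1)) (.slot (nat_lit 0)) (.slot (nat_lit 0))) (.slot (nat_lit 1))) (.node (.col (nat_lit 0)) (.col (nat_lit 2)) (.slot (nat_lit 3))) (.slot (nat_lit 4))) (.col (nat_lit 2)) (.node (.slot (nat_lit 0)) (.col (nat_lit 1)) (.slot (nat_lit 1)))) (.slot (nat_lit 0)) (.col (nat_lit 2)) (.col (nat_lit 1))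
def l5464 : Root := .mk (.col (nat_lit 4)) (.node (.col (nat_lit 2)) (.node (.node (.col (nat_lit 2)) (.col (nat_lit 1)) (.slot (nat_lit 0))) (.col (nat_lit 2)) (.col (nat_lit 1))) (.col (nat_lit 3))) (.node (.col (nat_lit 0)) .junk (.col (nat_lit 3))) (.col (nat_lit 2))
def w24231 : Root := .mk (.node (.node (.col (nat_lit 1)) (.slot (nat_lit 0)) (.slot (nat_lit 0))) (.node (.col (nat_lit 0)) .junk (.col (nat_lit 3))) (.col (nat_lit 2))) (.col (nat_lit 2)) (.node (.node (.col (nat_lit 2)) (.col (nat_lit 1)) (.slot (nat_lit 0))) (.col (nat_lit 2)) (.col (nat_lit 1))) (.col (nat_lit 3))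
def l5465 : Root := .mk (.col (nat_lit 4)) (.node (.col (nat_lit 2)) (.node (.node (.col (nat_lit 2)) (.col (nat_lit 1)) (.slot (nat_lit 0))) (.col (nat_lit 2)) (.col (nat_lit 1))) (.col (nat_lit 3))) (.node (.col (nat_lit 0)) (.col (nat_lit 2)) .junk) (.col (nat_lit 3))
def w24232 : Root := .mk (.node (.node (.col (nat_lit 1)) (.slot (nat_lit 0)) (.slot (nat_lit 0))) (.node (.col (nat_lit 0)) (.col (nat_lit 2)) .junk) (.col (nat_lit 3))) (.col (nat_lit 2)) (.node (.node (.col (nat_lit 2)) (.col (nat_lit 1)) (.slot (nat_lit 0))) (.col (nat_lit 2)) (.col (nat_lit 1))) (.col (nat_lit 3))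
def l5466 : Root := .mk (.node (.col (nat_lit 4)) (.node (.col (nat_lit 2)) (.node (.node (.col (nat_lit 2)) (.col (nat_lit 1)) (.slot (nat_lit 0))) (.col (nat_lit 2)) (.col (nat_lit 1))) (.col (nat_lit 3))) .junk) (.col (nat_lit 0)) (.col (nat_lit 2)) (.col (nat_lit 3))
def w24233 : Root := .mk (.node (.node (.col (nat_lit 1)) (.slot (nat_lit 0)) (.slot (nat_lit 0))) (.node (.col (nat_lit 2)) (.node (.node (.col (nat_lit 2)) (.col (nat_lit 1)) (.slot (nat_lit 0))) (.col (nat_lit 2)) (.col (nat_lit 1))) (.col (nat_lit 3))) (.slot (nat_lit 0))) (.col (nat_lit 0)) (.col (nat_lit 2)) (.col (nat_lit 3))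
def l5467 : Root := .mk (.node (.node (.col (nat_lit 1)) (.slot (nat_lit 0)) (.slot (nat_lit 0))) (.node (.col (nat_lit 2)) (.node (.node (.col (nat_lit 2)) (.col (nat_lit 1)) (.slot (nat_lit 0))) (.col (nat_lit 2)) (.col (nat_lit 1))) (.col (nat_lit 3))) (.slot (nat_lit 1))) (.col (nat_lit 0)) (.col (nat_lit 2)) (.col (nat_lit 3))
def w24234 : Root := .mk (.node (.node (.col (nat_lit 1)) (.slot (nat_lit 0)) (.slot (nat_lit 0))) (.node (.col (nat_lit 0)) (.col (nat_lit 2)) (.slot (nat_lit 1))) (.slot (nat_lit 1))) (.col (nat_lit 2)) (.node (.node (.col (nat_lit 2)) (.col (nat_lit 1)) (.slot (nat_lit 0))) (.col (nat_lit 2)) (.col (nat_lit 1))) (.col (nat_lit 3))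
def w24235 : Root := .mk (.node (.node (.node (.col (nat_lit 1)) (.slot (nat_lit 0)) (.slot (nat_lit 0))) (.node (.col (nat_lit 0)) (.col (nat_lit 2)) (.slot (nat_lit 3))) (.slot (nat_lit 1))) (.col (nat_lit 2)) (.node (.col (nat_lit 2)) (.col (nat_lit 1)) (.slot (nat_lit 3)))) (.slot (nat_lit 0)) (.col (nat_lit 2)) (.col (nat_lit 1))
def w24236 : Root := .mk (.node (.node (.col (nat_lit 1)) (.node (.col (nat_lit 1)) (.slot (nat_lit 0)) (.slot (nat_lit 0))) (.slot (nat_lit 1))) (.node (.col (nat_lit 0)) (.col (nat_lit 2)) (.slot (nat_lit 1))) (.col (nat_lit 0))) (.col (nat_lit 2)) (.node (.node (.col (nat_lit 2)) (.col (nat_lit 1)) (.slot (nat_lit 0))) .junk (.col (nat_lit 1))) (.col (nat_lit 0))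
def w24237 : Root := .mk (.node (.node (.col (nat_lit 1)) (.node (.col (nat_lit 1)) (.slot (nat_lit 0)) (.slot (nat_lit 0))) (.slot (nat_lit 1))) (.node (.col (nat_lit 0)) (.col (nat_lit 2)) (.slot (nat_lit 1))) (.col (nat_lit 2))) (.col (nat_lit 2)) (.node (.node (.col (nat_lit 2)) (.col (nat_lit 1)) (.slot (nat_lit 0))) .junk (.col (nat_lit 1))) (.col (nat_lit 0))
def w24238 : Root := .mk (.node (.node (.col (nat_lit 1)) (.node (.col (nat_lit 1)) (.slot (nat_lit 0)) (.slot (nat_lit 0))) (.slot (nat_lit 2))) (.node (.col (nat_lit 0)) (.col (nat_lit 2)) (.slot (nat_lit 0))) (.node (.col (nat_lit 1)) (.slot (nat_lit 1)) (.slot (nat_lit 1)))) (.col (nat_lit 2)) (.node (.node (.col (nat_lit 2)) (.col (nat_lit 1)) (.slot (nat_lit 0))) .junk (.col (nat_lit 1))) (.col (nat_lit 0))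
def w24239 : Root := .mk (.node (.node (.col (nat_lit 1)) (.slot (nat_lit 0)) (.slot (nat_lit 0))) (.node (.col (nat_lit 2)) (.node (.node (.col (nat_lit 2)) (.col (nat_lit 1)) (.slot (nat_lit 0))) (.col (nat_lit 2)) (.col (nat_lit 1))) (.col (nat_lit 0))) (.slot (nat_lit 1))) (.col (nat_lit 0)) (.col (nat_lit 2)) (.node (.col (nat_lit 0)) (.slot (nat_lit 0)) (.slot (nat_lit 0)))
def w24240 : Root := .mk (.node (.node (.col (nat_lit 1)) (.slot (nat_lit 0)) (.slot (nat_lit 0))) (.node (.col (nat_lit 2)) (.node (.node (.col (nat_lit 2)) (.col (nat_lit 1)) (.slot (nat_lit 0))) (.col (nat_lit 2)) (.col (nat_lit 1))) (.col (nat_lit 0))) (.slot (nat_lit 1))) (.col (nat_lit 0)) (.col (nat_lit 2)) (.node (.col (nat_lit 2)) (.slot (nat_lit 0)) (.slot (nat_lit 0)))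
def w24241 : Root := .mk (.node (.node (.col (nat_lit 1)) (.slot (nat_lit 0)) (.slot (nat_lit 0))) (.node (.col (nat_lit 2)) (.node (.node (.col (nat_lit 2)) (.col (nat_lit 1)) (.slot (nat_lit 0))) (.col (nat_lit 2)) (.col (nat_lit 1))) (.col (nat_lit 0))) (.slot (nat_lit 1))) (.col (nat_lit 0)) (.col (nat_lit 2)) (.node (.slot (nat_lit 0)) (.slot (nat_lit 0)) (.slot (nat_lit 0)))
def l5468 : Root := .mk (.node (.node (.col (nat_lit 1)) (.node (.col (nat_lit 1)) (.slot (nat_lit 0)) (.slot (nat_lit 0))) (.slot (nat_lit 3))) (.node (.col (nat_lit 0)) (.col (nat_lit 2)) (.slot (nat_lit 6))) (.slot (nat_lit 8))) (.col (nat_lit 2)) (.node (.node (.col (nat_lit 2)) (.col (nat_lit 1)) (.slot (nat_lit 0))) (.col (nat_lit 2)) (.col (nat_lit 1))) (.col (nat_lit 0))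
def w24242 : Root := .mk (.node (.node (.node (.col (nat_lit 1)) (.node (.col (nat_lit 1)) (.slot (nat_lit 0)) (.slot (nat_lit 0))) (.slot (nat_lit 3))) (.node (.col (nat_lit 0)) (.col (nat_lit 2)) (.slot (nat_lit 6))) (.slot (nat_lit 8))) (.col (nat_lit 2)) (.node (.slot (nat_lit 0)) (.slot (nat_lit 0)) (.slot (nat_lit 0)))) (.node (.col (nat_lit 2)) (.col (nat_lit 1)) (.slot (nat_lit 0))) (.col (nat_lit 2)) (.col (nat_lit 1))
def w24243 : Root := .mk (.node (.node (.col (nat_lit 1)) (.node (.col (nat_lit 1)) (.slot (nat_lit 0)) (.slot (nat_lit 0))) (.slot (nat_lit 1))) (.node (.col (nat_lit 0)) (.col (nat_lit 2)) (.slot (nat_lit 1))) (.col (nat_lit 0))) (.col (nat_lit 2)) (.node (.node (.col (nat_lit 2)) (.slot (nat_lit 0)) (.col (nat_lit 0))) .junk (.col (nat_lit 1))) (.col (nat_lit 0))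
def w24244 : Root := .mk (.node (.node (.col (nat_lit 1)) (.slot (nat_lit 0)) (.slot (nat_lit 0))) (.node (.col (nat_lit 0)) (.col (nat_lit 2)) (.slot (nat_lit 0))) (.node (.col (nat_lit 1)) (.slot (nat_lit 0)) (.slot (nat_lit 0)))) (.col (nat_lit 2)) (.node (.node (.col (nat_lit 2)) (.node (.col (nat_lit 0)) (.slot (nat_lit 1)) (.slot (nat_lit 1))) (.col (nat_lit 0))) (.col (nat_lit 2)) (.col (nat_lit 1))) (.col (nat_lit 0))
def w24245 : Root := .mk (.node (.node (.col (nat_lit 1)) (.slot (nat_lit 0)) (.slot (nat_lit 0))) (.node (.col (nat_lit 2)) (.node (.node (.col (nat_lit 2)) (.node (.col (nat_lit 0)) (.slot (nat_lit 0)) (.slot (nat_lit 0))) (.col (nat_lit 0))) (.col (nat_lit 2)) (.col (nat_lit 1))) (.col (nat_lit 0))) (.slot (nat_lit 1))) (.col (nat_lit 0)) (.col (nat_lit 2)) (.slot (nat_lit 0))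
def l5469 : Root := .mk (.node (.node (.col (nat_lit 1)) (.node (.col (nat_lit 1)) (.slot (nat_lit 0)) (.slot (nat_lit 0))) (.slot (nat_lit 3))) (.node (.col (nat_lit 0)) (.col (nat_lit 2)) (.slot (nat_lit 6))) (.slot (nat_lit 8))) (.col (nat_lit 2)) (.node (.node (.col (nat_lit 2)) (.node (.col (nat_lit 0)) (.slot (nat_lit 1)) (.slot (nat_lit 1))) (.col (nat_lit 0))) (.col (nat_lit 2)) (.col (nat_lit 1))) (.col (nat_lit 0))
def w24246 : Root := .mk (.node (.node (.node (.node (.col (nat_lit 1)) (.node (.col (nat_lit 1)) (.slot (nat_lit 0)) (.slot (nat_lit 0))) (.slot (nat_lit 3))) (.node (.col (nat_lit 0)) (.col (nat_lit 2)) (.slot (nat_lit 6))) (.slot (nat_lit 8))) (.col (nat_lit 2)) (.node (.slot (nat_lit 0)) (.slot (nat_lit 0)) (.slot (nat_lit 0)))) (.col (nat_lit 2)) (.col (nat_lit 1))) (.col (nat_lit 2)) (.node (.col (nat_lit 0)) (.slot (nat_lit 1)) (.slot (nat_lit 1))) (.col (nat_lit 0))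
def w24260 : Root := .mk (.node (.node (.col (nat_lit 1)) (.node (.col (nat_lit 1)) (.slot (nat_lit 0)) (.slot (nat_lit 0))) (.slot (nat_lit 1))) (.node (.col (nat_lit 0)) (.col (nat_lit 2)) (.slot (nat_lit 1))) (.col (nat_lit 0))) (.col (nat_lit 2)) (.node (.node (.col (nat_lit 2)) (.slot (nat_lit 0)) (.slot (nat_lit 0))) .junk (.col (nat_lit 1))) (.col (nat_lit 0))
def w24261 : Root := .mk (.node (.node (.col (nat_lit 1)) (.node (.col (nat_lit 1)) (.slot (nat_lit 0)) (.slot (nat_lit 0))) (.slot (nat_lit 1))) (.node (.col (nat_lit 0)) (.col (nat_lit 2)) (.slot (nat_lit 1))) (.col (nat_lit 2))) (.col (nat_lit 2)) (.node (.node (.col (nat_lit 2)) (.slot (nat_lit 0)) (.slot (nat_lit 0))) .junk (.col (nat_lit 1))) (.col (nat_lit 0))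
def w24262 : Root := .mk (.node (.node (.col (nat_lit 1)) (.node (.col (nat_lit 1)) (.slot (nat_lit 0)) (.slot (nat_lit 0))) (.slot (nat_lit 2))) (.node (.col (nat_lit 0)) (.col (nat_lit 2)) (.slot (nat_lit 0))) (.node (.col (nat_lit 1)) (.slot (nat_lit 1)) (.slot (nat_lit 1)))) (.col (nat_lit 2)) (.node (.node (.col (nat_lit 2)) (.slot (nat_lit 0)) (.slot (nat_lit 0))) .junk (.col (nat_lit 1))) (.col (nat_lit 0))
def w24263 : Root := .mk (.node (.node (.col (nat_lit 1)) (.slot (nat_lit 0)) (.slot (nat_lit 0))) (.node (.col (nat_lit 2)) (.node (.node (.col (nat_lit 2)) (.slot (nat_lit 0)) (.slot (nat_lit 0))) (.col (nat_lit 2)) (.col (nat_lit 1))) (.col (nat_lit 0))) (.slot (nat_lit 1))) (.col (nat_lit 0)) (.col (nat_lit 2)) (.node (.col (nat_lit 2)) (.slot (nat_lit 0)) (.slot (nat_lit 0)))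
def l5470 : Root := .mk (.node (.node (.col (nat_lit 1)) (.node (.col (nat_lit 1)) (.slot (nat_lit 0)) (.slot (nat_lit 0))) (.slot (nat_lit 3))) (.node (.col (nat_lit 0)) (.col (nat_lit 2)) (.slot (nat_lit 3))) (.slot (nat_lit 8))) (.col (nat_lit 2)) (.node (.node (.col (nat_lit 2)) (.slot (nat_lit 0)) (.slot (nat_lit 0))) (.col (nat_lit 2)) (.col (nat_lit 1))) (.col (nat_lit 0))
def w24264 : Root := .mk (.node (.node (.node (.col (nat_lit 1)) (.node (.col (nat_lit 1)) (.slot (nat_lit 0)) (.slot (nat_lit 0))) (.slot (nat_lit 3))) (.node (.col (nat_lit 0)) (.col (nat_lit 2)) (.slot (nat_lit 3))) (.slot (nat_lit 8))) (.col (nat_lit 2)) (.node (.slot (nat_lit 0)) (.slot (nat_lit 0)) (.slot (nat_lit 0)))) (.node (.col (nat_lit 2)) (.slot (nat_lit 0)) (.slot (nat_lit 0))) (.col (nat_lit 2)) (.col (nat_lit 1))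
def l5471 : Root := .mk (.node (.node (.node (.col (nat_lit 1)) (.node (.col (nat_lit 1)) (.slot (nat_lit 0)) (.slot (nat_lit 0))) (.slot (nat_lit 3))) (.node (.col (nat_lit 0)) (.col (nat_lit 2)) (.slot (nat_lit 21))) (.slot (nat_lit 8))) (.col (nat_lit 2)) (.node (.slot (nat_lit 0)) (.slot (nat_lit 3)) (.slot (nat_lit 1)))) (.node (.col (nat_lit 2)) (.node (.col (nat_lit 0)) (.slot (nat_lit 20)) (.slot (nat_lit 12))) (.slot (nat_lit 21))) (.col (nat_lit 2)) (.col (nat_lit 1))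
def w24265 : Root := .mk (.node (.node (.node (.col (nat_lit 1)) (.node (.col (nat_lit 1)) (.slot (nat_lit 0)) (.slot (nat_lit 0))) (.slot (nat_lit 3))) (.node (.col (nat_lit 0)) (.slot (nat_lit 1)) (.slot (nat_lit 21))) (.slot (nat_lit 8))) (.col (nat_lit 2)) (.node (.slot (nat_lit 0)) (.slot (nat_lit 3)) (.slot (nat_lit 1)))) (.node (.col (nat_lit 2)) (.node (.col (nat_lit 0)) (.slot (nat_lit 20)) (.slot (nat_lit 12))) (.slot (nat_lit 21))) (.col (nat_lit 2)) (.col (nat_lit 1))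
def w24266 : Root := .mk (.node (.node (.node (.col (nat_lit 1)) (.slot (nat_lit 0)) (.slot (nat_lit 0))) (.node (.col (nat_lit 0)) (.col (nat_lit 3)) (.slot (nat_lit 3))) (.slot (nat_lit 1))) (.col (nat_lit 2)) (.slot (nat_lit 3))) (.node (.col (nat_lit 2)) (.node (.col (nat_lit 0)) (.slot (nat_lit 0)) (.slot (nat_lit 0))) (.slot (nat_lit 3))) (.col (nat_lit 2)) (.col (nat_lit 1))
def w24267 : Root := .mk (.node (.node (.node (.col (nat_lit 1)) (.slot (nat_lit 0)) (.slot (nat_lit 0))) (.node (.col (nat_lit 0)) (.node (.col (nat_lit 0)) (.slot (nat_lit 0)) (.slot (nat_lit 0))) (.slot (nat_lit 6))) (.slot (nat_lit 2))) (.col (nat_lit 2)) (.slot (nat_lit 6))) (.node (.col (nat_lit 2)) (.node (.col (nat_lit 0)) (.slot (nat_lit 3)) (.slot (nat_lit 1))) (.slot (nat_lit 1))) (.col (nat_lit 2)) (.col (nat_lit 1))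
def w24268 : Root := .mk (.node (.node (.node (.col (nat_lit 1)) (.node (.col (nat_lit 1)) (.slot (nat_lit 0)) (.slot (nat_lit 0))) (.slot (nat_lit 2))) (.node (.col (nat_lit 0)) (.node (.col (nat_lit 1)) (.slot (nat_lit 1)) (.slot (nat_lit 1))) (.slot (nat_lit 2))) (.slot (nat_lit 2))) (.col (nat_lit 2)) (.slot (nat_lit 1))) (.node (.col (nat_lit 2)) (.node (.col (nat_lit 0)) (.slot (nat_lit 1)) (.slot (nat_lit 1))) (.slot (nat_lit 2))) (.col (nat_lit 2)) (.col (nat_lit 1))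
def w24269 : Root := .mk (.node (.node (.node (.col (nat_lit 1)) (.slot (nat_lit 0)) (.slot (nat_lit 0))) (.node (.col (nat_lit 0)) (.node (.col (nat_lit 2)) (.slot (nat_lit 1)) (.slot (nat_lit 1))) (.slot (nat_lit 2))) (.slot (nat_lit 3))) (.col (nat_lit 2)) (.slot (nat_lit 3))) (.node (.col (nat_lit 2)) (.node (.col (nat_lit 0)) (.slot (nat_lit 3)) (.slot (nat_lit 1))) (.slot (nat_lit 3))) (.col (nat_lit 2)) (.col (nat_lit 1))
def w24270 : Root := .mk (.node (.node (.node (.col (nat_lit 1)) (.slot (nat_lit 0)) (.slot (nat_lit 0))) (.node (.col (nat_lit 0)) (.node (.col (nat_lit 3)) (.slot (nat_lit 1)) (.slot (nat_lit 1))) (.slot (nat_lit 2))) (.slot (nat_lit 3))) (.col (nat_lit 2)) (.slot (nat_lit 3))) (.node (.col (nat_lit 2)) (.node (.col (nat_lit 0)) (.slot (nat_lit 3)) (.slot (nat_lit 1))) (.slot (nat_lit 3))) (.col (nat_lit 2)) (.col (nat_lit 1))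
def w24271 : Root := .mk (.node (.col (nat_lit 1)) (.node (.node (.col (nat_lit 2)) (.slot (nat_lit 0)) (.slot (nat_lit 0))) (.node (.col (nat_lit 0)) (.slot (nat_lit 3)) (.slot (nat_lit 1))) (.slot (nat_lit 2))) (.slot (nat_lit 3))) (.col (nat_lit 1)) (.node (.col (nat_lit 2)) (.slot (nat_lit 1)) (.slot (nat_lit 1))) (.slot (nat_lit 2))
def w24272 : Root := .mk (.node (.col (nat_lit 1)) (.node (.node (.col (nat_lit 2)) (.node (.col (nat_lit 0)) .junk (.col (nat_lit 1))) (.slot (nat_lit 1))) (.node (.col (nat_lit 0)) (.slot (nat_lit 1)) (.slot (nat_lit 1))) (.slot (nat_lit 2))) (.slot (nat_lit 1))) .junk (.col (nat_lit 0)) (.col (nat_lit 3))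
def w24273 : Root := .mk (.node (.col (nat_lit 1)) (.node (.node (.col (nat_lit 2)) (.node (.col (nat_lit 0)) .junk (.col (nat_lit 1))) (.slot (nat_lit 1))) (.node (.col (nat_lit 0)) (.slot (nat_lit 1)) (.slot (nat_lit 1))) (.slot (nat_lit 2))) (.slot (nat_lit 1))) (.col (nat_lit 1)) (.col (nat_lit 0)) (.node (.col (nat_lit 2)) (.node (.slot (nat_lit 0)) (.slot (nat_lit 0)) (.slot (nat_lit 0))) .junk)
def l5472 : Root := .mk (.node (.node (.node (.col (nat_lit 1)) (.node (.col (nat_lit 1)) (.col (nat_lit 0)) (.node (.col (nat_lit 2)) (.slot (nat_lit 20)) (.slot (nat_lit 12)))) (.slot (nat_lit 5))) (.node (.col (nat_lit 0)) (.slot (nat_lit 1)) (.slot (nat_lit 1))) (.slot (nat_lit 3))) (.col (nat_lit 2)) (.slot (nat_lit 1))) (.col (nat_lit 0)) (.col (nat_lit 2)) (.col (nat_lit 1))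
def w24274 : Root := .mk (.node (.node (.node (.col (nat_lit 1)) (.node (.col (nat_lit 1)) (.col (nat_lit 0)) (.slot (nat_lit 21))) (.slot (nat_lit 5))) (.node (.col (nat_lit 0)) (.slot (nat_lit 1)) (.slot (nat_lit 1))) (.slot (nat_lit 3))) (.col (nat_lit 2)) (.slot (nat_lit 1))) (.col (nat_lit 0)) (.col (nat_lit 2)) (.col (nat_lit 1))
def w24275 : Root := .mk (.node (.node (.node (.col (nat_lit 1)) (.node (.col (nat_lit 1)) (.node (.col (nat_lit 2)) (.slot (nat_lit 3)) (.slot (nat_lit 1))) (.col (nat_lit 2))) (.slot (nat_lit 3))) (.node (.col (nat_lit 0)) (.slot (nat_lit 0)) (.slot (nat_lit 0))) (.slot (nat_lit 3))) (.col (nat_lit 2)) (.slot (nat_lit 1))) (.col (nat_lit 0)) (.col (nat_lit 2)) (.col (nat_lit 1))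
def w24276 : Root := .mk (.node (.node (.node (.col (nat_lit 1)) (.node (.col (nat_lit 1)) (.node (.col (nat_lit 2)) (.slot (nat_lit 20)) (.slot (nat_lit 12))) (.node (.slot (nat_lit 0)) (.slot (nat_lit 0)) (.slot (nat_lit 0)))) (.slot (nat_lit 5))) (.node (.col (nat_lit 0)) (.slot (nat_lit 1)) (.slot (nat_lit 1))) (.slot (nat_lit 3))) (.col (nat_lit 2)) (.slot (nat_lit 1))) (.col (nat_lit 0)) (.col (nat_lit 2)) (.col (nat_lit 1))
def w24277 : Root := .mk (.col (nat_lit 1)) (.node (.col (nat_lit 1)) (.node (.col (nat_lit 2)) (.slot (nat_lit 1)) (.slot (nat_lit 1))) (.slot (nat_lit 2))) (.node (.node (.col (nat_lit 2)) (.node (.col (nat_lit 0)) .junk (.col (nat_lit 1))) (.slot (nat_lit 1))) (.node (.col (nat_lit 0)) (.slot (nat_lit 3)) (.slot (nat_lit 1))) (.slot (nat_lit 1))) (.slot (nat_lit 0))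
def w24278 : Root := .mk (.node (.node (.col (nat_lit 1)) (.node (.node (.col (nat_lit 2)) (.node (.col (nat_lit 0)) .junk (.col (nat_lit 1))) (.slot (nat_lit 1))) (.node (.col (nat_lit 0)) (.slot (nat_lit 1)) (.slot (nat_lit 1))) (.slot (nat_lit 2))) (.slot (nat_lit 3))) (.col (nat_lit 1)) (.slot (nat_lit 1))) (.col (nat_lit 2)) (.col (nat_lit 1)) (.slot (nat_lit 3))
def w24279 : Root := .mk (.node (.node (.col (nat_lit 1)) (.node (.node (.col (nat_lit 2)) (.slot (nat_lit 0)) (.slot (nat_lit 0))) (.node (.col (nat_lit 0)) (.slot (nat_lit 3)) (.slot (nat_lit 1))) (.slot (nat_lit 2))) (.slot (nat_lit 3))) (.col (nat_lit 1)) (.slot (nat_lit 2))) (.col (nat_lit 2)) (.node (.col (nat_lit 2)) (.slot (nat_lit 0)) (.slot (nat_lit 0))) (.slot (nat_lit 2))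
def w24280 : Root := .mk (.node (.col (nat_lit 1)) (.node (.col (nat_lit 1)) (.node (.col (nat_lit 2)) (.slot (nat_lit 1)) (.slot (nat_lit 1))) (.slot (nat_lit 2))) (.slot (nat_lit 2))) (.node (.col (nat_lit 2)) (.slot (nat_lit 0)) (.slot (nat_lit 0))) (.node (.col (nat_lit 0)) (.slot (nat_lit 7)) (.slot (nat_lit 5))) (.col (nat_lit 1))
def w24281 : Root := .mk (.node (.col (nat_lit 1)) (.node (.col (nat_lit 1)) (.slot (nat_lit 0)) (.slot (nat_lit 0))) (.slot (nat_lit 2))) (.node (.col (nat_lit 2)) (.node (.col (nat_lit 0)) .junk (.col (nat_lit 1))) (.slot (nat_lit 1))) (.node (.col (nat_lit 0)) (.slot (nat_lit 0)) (.slot (nat_lit 0))) (.node (.col (nat_lit 1)) (.slot (nat_lit 1)) (.slot (nat_lit 1)))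
def w24282 : Root := .mk (.col (nat_lit 1)) (.col (nat_lit 0)) (.node (.node (.col (nat_lit 2)) (.node (.col (nat_lit 0)) .junk (.col (nat_lit 1))) (.slot (nat_lit 1))) (.node (.col (nat_lit 0)) (.slot (nat_lit 1)) (.slot (nat_lit 0))) (.node (.col (nat_lit 2)) (.slot (nat_lit 0)) (.slot (nat_lit 0)))) (.slot (nat_lit 1))
def w24283 : Root := .mk (.node (.col (nat_lit 1)) (.node (.col (nat_lit 1)) (.node (.col (nat_lit 2)) (.slot (nat_lit 1)) (.slot (nat_lit 1))) (.slot (nat_lit 2))) (.slot (nat_lit 1))) (.node (.col (nat_lit 2)) (.node (.col (nat_lit 0)) .junk (.col (nat_lit 1))) (.slot (nat_lit 1))) (.node (.col (nat_lit 0)) (.slot (nat_lit 1)) (.slot (nat_lit 0))) (.node (.col (nat_lit 2)) (.slot (nat_lit 0)) (.slot (nat_lit 0)))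
def w24284 : Root := .mk (.node (.col (nat_lit 1)) (.node (.col (nat_lit 1)) (.node (.col (nat_lit 2)) (.slot (nat_lit 1)) (.slot (nat_lit 1))) (.slot (nat_lit 2))) (.slot (nat_lit 3))) (.node (.col (nat_lit 2)) (.slot (nat_lit 0)) (.slot (nat_lit 0))) (.node (.col (nat_lit 0)) (.slot (nat_lit 7)) (.slot (nat_lit 5))) (.node (.col (nat_lit 3)) (.slot (nat_lit 3)) (.slot (nat_lit 1)))
def w24285 : Root := .mk (.node (.node (.node (.col (nat_lit 1)) (.node (.col (nat_lit 1)) (.node (.col (nat_lit 2)) (.slot (nat_lit 3)) (.slot (nat_lit 3))) (.slot (nat_lit 5))) (.slot (nat_lit 4))) (.node (.col (nat_lit 0)) (.slot (nat_lit 0)) (.slot (nat_lit 0))) (.slot (nat_lit 5))) (.col (nat_lit 2)) (.col (nat_lit 0))) (.col (nat_lit 0)) (.col (nat_lit 2)) (.col (nat_lit 1))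
def w24286 : Root := .mk (.node (.node (.col (nat_lit 1)) (.node (.col (nat_lit 1)) (.node (.col (nat_lit 2)) (.slot (nat_lit 1)) (.slot (nat_lit 1))) (.slot (nat_lit 2))) (.slot (nat_lit 3))) (.node (.col (nat_lit 0)) (.slot (nat_lit 3)) (.slot (nat_lit 1))) (.slot (nat_lit 8))) (.col (nat_lit 2)) (.slot (nat_lit 0)) (.col (nat_lit 1))
def w24287 : Root := .mk (.node (.node (.col (nat_lit 1)) (.node (.col (nat_lit 1)) (.node (.col (nat_lit 2)) (.slot (nat_lit 1)) (.slot (nat_lit 1))) (.slot (nat_lit 2))) (.slot (nat_lit 6))) (.node (.col (nat_lit 2)) (.slot (nat_lit 0)) (.slot (nat_lit 0))) (.slot (nat_lit 2))) (.col (nat_lit 0)) (.node (.col (nat_lit 0)) (.slot (nat_lit 0)) (.slot (nat_lit 0))) (.slot (nat_lit 6))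
def w24288 : Root := .mk (.node (.node (.col (nat_lit 1)) (.node (.col (nat_lit 1)) (.node (.col (nat_lit 2)) (.slot (nat_lit 1)) (.slot (nat_lit 1))) (.slot (nat_lit 2))) (.slot (nat_lit 4))) (.node (.col (nat_lit 2)) (.slot (nat_lit 0)) (.slot (nat_lit 0))) (.slot (nat_lit 8))) (.col (nat_lit 0)) (.node (.col (nat_lit 1)) (.slot (nat_lit 7)) (.slot (nat_lit 5))) (.slot (nat_lit 8))
def w24289 : Root := .mk (.node (.node (.col (nat_lit 1)) (.node (.col (nat_lit 1)) (.node (.col (nat_lit 2)) (.slot (nat_lit 1)) (.slot (nat_lit 1))) (.slot (nat_lit 2))) (.slot (nat_lit 3))) (.node (.col (nat_lit 2)) (.slot (nat_lit 0)) (.slot (nat_lit 0))) (.slot (nat_lit 2))) (.col (nat_lit 0)) (.node (.col (nat_lit 2)) (.slot (nat_lit 20)) (.slot (nat_lit 9))) (.slot (nat_lit 1))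
def l5473 : Root := .mk (.node (.node (.node (.col (nat_lit 1)) (.node (.col (nat_lit 1)) (.node (.col (nat_lit 2)) (.slot (nat_lit 20)) (.slot (nat_lit 12))) (.slot (nat_lit 21))) (.slot (nat_lit 10))) (.node (.col (nat_lit 0)) (.slot (nat_lit 21)) (.slot (nat_lit 21))) (.slot (nat_lit 8))) (.col (nat_lit 2)) (.slot (nat_lit 1))) (.col (nat_lit 0)) (.col (nat_lit 2)) (.col (nat_lit 1))
def w24290 : Root := .mk (.node (.node (.node (.col (nat_lit 1)) (.node (.col (nat_lit 1)) (.slot (nat_lit 21)) (.slot (nat_lit 21))) (.slot (nat_lit 10))) (.node (.col (nat_lit 0)) (.slot (nat_lit 21)) (.slot (nat_lit 21))) (.slot (nat_lit 8))) (.col (nat_lit 2)) (.slot (nat_lit 1))) (.col (nat_lit 0)) (.col (nat_lit 2)) (.col (nat_lit 1))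
def w24291 : Root := .mk (.node (.node (.col (nat_lit 1)) (.node (.col (nat_lit 1)) (.slot (nat_lit 0)) (.slot (nat_lit 0))) (.slot (nat_lit 3))) (.node (.col (nat_lit 0)) (.slot (nat_lit 1)) (.slot (nat_lit 6))) (.slot (nat_lit 8))) (.col (nat_lit 2)) (.node (.node (.col (nat_lit 2)) (.col (nat_lit 1)) (.slot (nat_lit 0))) (.col (nat_lit 2)) (.col (nat_lit 1))) (.col (nat_lit 0))
def w24292 : Root := .mk (.node (.node (.col (nat_lit 1)) (.node (.col (nat_lit 1)) (.col (nat_lit 2)) (.slot (nat_lit 8))) (.slot (nat_lit 3))) (.node (.col (nat_lit 0)) (.slot (nat_lit 2)) (.slot (nat_lit 1))) (.slot (nat_lit 3))) (.col (nat_lit 2)) (.node (.node (.col (nat_lit 2)) (.col (nat_lit 1)) (.slot (nat_lit 0))) .junk (.col (nat_lit 1))) (.col (nat_lit 3))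
def w24293 : Root := .mk (.node (.node (.col (nat_lit 1)) (.node (.col (nat_lit 1)) (.col (nat_lit 3)) (.slot (nat_lit 8))) (.slot (nat_lit 3))) (.node (.col (nat_lit 0)) (.slot (nat_lit 2)) (.slot (nat_lit 1))) (.slot (nat_lit 3))) (.col (nat_lit 2)) (.node (.node (.col (nat_lit 2)) (.col (nat_lit 1)) (.slot (nat_lit 0))) .junk (.col (nat_lit 1))) (.col (nat_lit 3))
def w24294 : Root := .mk (.node (.node (.col (nat_lit 1)) (.node (.col (nat_lit 1)) (.col (nat_lit 4)) (.slot (nat_lit 3))) (.slot (nat_lit 1))) (.node (.col (nat_lit 0)) (.slot (nat_lit 1)) (.slot (nat_lit 0))) (.slot (nat_lit 2))) (.col (nat_lit 2)) (.node (.node (.col (nat_lit 2)) (.col (nat_lit 1)) (.slot (nat_lit 0))) .junk (.col (nat_lit 1))) (.col (nat_lit 3))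
def w24295 : Root := .mk (.node (.col (nat_lit 1)) (.node (.node (.col (nat_lit 2)) (.node (.node (.col (nat_lit 2)) (.col (nat_lit 1)) (.slot (nat_lit 0))) .junk (.col (nat_lit 1))) (.col (nat_lit 3))) (.node (.col (nat_lit 0)) (.slot (nat_lit 1)) (.slot (nat_lit 1))) (.slot (nat_lit 2))) (.slot (nat_lit 3))) (.col (nat_lit 1)) (.node (.col (nat_lit 0)) (.slot (nat_lit 3)) (.slot (nat_lit 1))) (.col (nat_lit 0))
def w24296 : Root := .mk (.node (.node (.col (nat_lit 1)) (.node (.col (nat_lit 1)) (.slot (nat_lit 0)) (.slot (nat_lit 0))) (.slot (nat_lit 3))) (.node (.col (nat_lit 0)) (.slot (nat_lit 3)) (.slot (nat_lit 1))) (.slot (nat_lit 8))) (.col (nat_lit 2)) (.node (.node (.col (nat_lit 2)) (.col (nat_lit 1)) (.slot (nat_lit 0))) .junk (.col (nat_lit 1))) (.col (nat_lit 3))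
def w24297 : Root := .mk (.col (nat_lit 1)) (.node (.col (nat_lit 1)) (.node (.col (nat_lit 0)) (.slot (nat_lit 3)) (.slot (nat_lit 1))) (.slot (nat_lit 2))) (.node (.node (.col (nat_lit 2)) (.slot (nat_lit 0)) (.col (nat_lit 3))) (.node (.col (nat_lit 0)) (.slot (nat_lit 1)) (.slot (nat_lit 1))) (.slot (nat_lit 2))) (.col (nat_lit 2))
def w24298 : Root := .mk (.col (nat_lit 1)) (.node (.col (nat_lit 1)) (.node (.col (nat_lit 0)) (.slot (nat_lit 1)) (.slot (nat_lit 1))) (.slot (nat_lit 2))) (.node (.node (.col (nat_lit 2)) (.node (.node (.col (nat_lit 2)) (.col (nat_lit 1)) (.slot (nat_lit 0))) .junk (.col (nat_lit 1))) (.col (nat_lit 3))) (.slot (nat_lit 0)) (.slot (nat_lit 1))) (.col (nat_lit 4))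
def w24299 : Root := .mk (.node (.col (nat_lit 1)) (.node (.col (nat_lit 1)) (.node (.col (nat_lit 0)) (.slot (nat_lit 1)) (.slot (nat_lit 1))) (.slot (nat_lit 2))) (.node (.col (nat_lit 1)) (.slot (nat_lit 0)) (.slot (nat_lit 0)))) (.node (.col (nat_lit 2)) (.node (.node (.col (nat_lit 2)) (.col (nat_lit 1)) (.slot (nat_lit 0))) .junk (.col (nat_lit 1))) (.col (nat_lit 3))) (.col (nat_lit 1)) (.col (nat_lit 2))
def w24300 : Root := .mk (.node (.col (nat_lit 1)) (.node (.col (nat_lit 1)) (.node (.col (nat_lit 0)) (.slot (nat_lit 1)) (.slot (nat_lit 1))) (.slot (nat_lit 2))) (.node (.col (nat_lit 1)) (.slot (nat_lit 0)) (.slot (nat_lit 0)))) (.node (.col (nat_lit 2)) (.node (.node (.col (nat_lit 2)) (.col (nat_lit 1)) (.slot (nat_lit 0))) .junk (.col (nat_lit 1))) (.col (nat_lit 3))) (.col (nat_lit 1)) (.col (nat_lit 3))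
def w24301 : Root := .mk (.node (.node (.node (.col (nat_lit 1)) (.node (.col (nat_lit 1)) (.node (.col (nat_lit 0)) (.slot (nat_lit 1)) (.slot (nat_lit 1))) (.slot (nat_lit 2))) (.node (.col (nat_lit 1)) (.slot (nat_lit 0)) (.slot (nat_lit 0)))) (.col (nat_lit 1)) (.slot (nat_lit 1))) (.col (nat_lit 2)) (.col (nat_lit 3))) (.col (nat_lit 3)) (.col (nat_lit 2)) (.col (nat_lit 1))
def l5474 : Root := .mk (.node (.node (.col (nat_lit 1)) (.node (.col (nat_lit 1)) (.node (.col (nat_lit 0)) (.slot (nat_lit 1)) (.slot (nat_lit 1))) (.slot (nat_lit 2))) (.node (.col (nat_lit 1)) (.slot (nat_lit 0)) (.slot (nat_lit 0)))) (.col (nat_lit 1)) (.slot (nat_lit 3))) (.col (nat_lit 2)) (.node (.node (.col (nat_lit 2)) (.col (nat_lit 1)) (.slot (nat_lit 0))) (.col (nat_lit 2)) (.col (nat_lit 1))) (.col (nat_lit 3))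
def w24302 : Root := .mk (.node (.node (.col (nat_lit 1)) (.node (.col (nat_lit 1)) (.node (.col (nat_lit 0)) (.slot (nat_lit 1)) (.slot (nat_lit 1))) (.slot (nat_lit 2))) (.node (.col (nat_lit 1)) (.slot (nat_lit 0)) (.slot (nat_lit 0)))) (.node (.col (nat_lit 0)) (.slot (nat_lit 0)) (.slot (nat_lit 0))) (.slot (nat_lit 3))) (.col (nat_lit 2)) (.node (.node (.col (nat_lit 2)) (.col (nat_lit 1)) (.slot (nat_lit 0))) (.col (nat_lit 2)) (.col (nat_lit 1))) (.col (nat_lit 3))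
def w24303 : Root := .mk (.col (nat_lit 1)) (.col (nat_lit 2)) (.node (.node (.col (nat_lit 2)) (.node (.node (.col (nat_lit 2)) (.col (nat_lit 1)) (.slot (nat_lit 0))) .junk (.col (nat_lit 1))) (.col (nat_lit 3))) (.node (.col (nat_lit 0)) (.slot (nat_lit 1)) (.slot (nat_lit 1))) (.slot (nat_lit 2))) (.node (.slot (nat_lit 0)) (.slot (nat_lit 0)) (.slot (nat_lit 0)))
def w24304 : Root := .mk (.node (.node (.col (nat_lit 1)) (.node (.col (nat_lit 1)) (.node (.col (nat_lit 0)) (.slot (nat_lit 1)) (.slot (nat_lit 1))) (.slot (nat_lit 2))) (.node (.slot (nat_lit 0)) (.slot (nat_lit 0)) (.slot (nat_lit 0)))) (.node (.col (nat_lit 0)) (.slot (nat_lit 1)) (.slot (nat_lit 1))) (.slot (nat_lit 2))) (.col (nat_lit 2)) (.node (.node (.col (nat_lit 2)) (.col (nat_lit 1)) (.slot (nat_lit 0))) .junk (.col (nat_lit 1))) (.col (nat_lit 3))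
def w24305 : Root := .mk (.node (.node (.col (nat_lit 1)) (.slot (nat_lit 0)) (.slot (nat_lit 0))) (.node (.col (nat_lit 0)) (.slot (nat_lit 0)) (.slot (nat_lit 0))) (.col (nat_lit 0))) (.col (nat_lit 2)) (.node (.node (.col (nat_lit 2)) (.col (nat_lit 1)) (.slot (nat_lit 0))) (.col (nat_lit 2)) (.col (nat_lit 1))) (.col (nat_lit 3))
def w24306 : Root := .mk (.node (.node (.col (nat_lit 1)) (.slot (nat_lit 0)) (.slot (nat_lit 1))) (.node (.col (nat_lit 0)) (.slot (nat_lit 1)) (.slot (nat_lit 1))) (.col (nat_lit 2))) (.col (nat_lit 2)) (.node (.node (.col (nat_lit 2)) (.col (nat_lit 1)) (.slot (nat_lit 0))) .junk (.col (nat_lit 1))) (.col (nat_lit 3))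
def w24307 : Root := .mk (.node (.node (.col (nat_lit 1)) (.slot (nat_lit 0)) (.slot (nat_lit 1))) (.node (.col (nat_lit 0)) (.slot (nat_lit 1)) (.slot (nat_lit 1))) (.col (nat_lit 3))) (.col (nat_lit 2)) (.node (.node (.col (nat_lit 2)) (.col (nat_lit 1)) (.slot (nat_lit 0))) .junk (.col (nat_lit 1))) (.col (nat_lit 3))
def w24308 : Root := .mk (.node (.node (.col (nat_lit 1)) (.slot (nat_lit 0)) (.slot (nat_lit 0))) (.node (.col (nat_lit 0)) (.slot (nat_lit 0)) (.slot (nat_lit 0))) (.col (nat_lit 4))) (.col (nat_lit 2)) (.node (.node (.col (nat_lit 2)) (.col (nat_lit 1)) (.slot (nat_lit 0))) (.col (nat_lit 2)) (.col (nat_lit 1))) (.col (nat_lit 3))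
def w24309 : Root := .mk (.node (.node (.col (nat_lit 1)) (.node (.col (nat_lit 1)) (.node (.col (nat_lit 0)) (.slot (nat_lit 1)) (.slot (nat_lit 0))) (.slot (nat_lit 8))) (.slot (nat_lit 5))) (.node (.col (nat_lit 0)) (.slot (nat_lit 7)) (.slot (nat_lit 5))) (.node (.col (nat_lit 0)) (.slot (nat_lit 7)) (.slot (nat_lit 5)))) (.col (nat_lit 2)) (.slot (nat_lit 0)) (.col (nat_lit 3))
def w24310 : Root := .mk (.node (.node (.col (nat_lit 1)) (.node (.col (nat_lit 1)) (.node (.col (nat_lit 0)) (.slot (nat_lit 10)) (.slot (nat_lit 10))) (.slot (nat_lit 9))) (.slot (nat_lit 10))) (.node (.col (nat_lit 0)) (.slot (nat_lit 10)) (.slot (nat_lit 10))) (.node (.col (nat_lit 1)) (.slot (nat_lit 9)) (.slot (nat_lit 8)))) (.col (nat_lit 2)) (.slot (nat_lit 0)) (.col (nat_lit 3))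
def w24311 : Root := .mk (.node (.node (.col (nat_lit 1)) (.node (.col (nat_lit 1)) (.node (.col (nat_lit 0)) (.slot (nat_lit 1)) (.slot (nat_lit 1))) (.slot (nat_lit 2))) (.slot (nat_lit 3))) (.node (.col (nat_lit 0)) (.slot (nat_lit 3)) (.slot (nat_lit 1))) (.node (.col (nat_lit 2)) (.slot (nat_lit 7)) (.slot (nat_lit 5)))) (.col (nat_lit 2)) (.slot (nat_lit 0)) (.col (nat_lit 3))
def w24312 : Root := .mk (.node (.node (.col (nat_lit 1)) (.node (.col (nat_lit 1)) (.node (.col (nat_lit 0)) (.slot (nat_lit 1)) (.slot (nat_lit 1))) (.slot (nat_lit 2))) (.slot (nat_lit 3))) (.node (.col (nat_lit 0)) (.slot (nat_lit 3)) (.slot (nat_lit 1))) (.node (.col (nat_lit 4)) (.slot (nat_lit 7)) (.slot (nat_lit 5)))) (.col (nat_lit 2)) (.slot (nat_lit 0)) (.col (nat_lit 3))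
def w24313 : Root := .mk (.node (.node (.col (nat_lit 1)) (.node (.col (nat_lit 1)) (.node (.col (nat_lit 0)) (.slot (nat_lit 1)) (.slot (nat_lit 1))) (.slot (nat_lit 2))) (.slot (nat_lit 2))) (.node (.col (nat_lit 0)) (.slot (nat_lit 0)) (.slot (nat_lit 0))) (.node (.slot (nat_lit 0)) (.slot (nat_lit 1)) (.slot (nat_lit 0)))) (.col (nat_lit 2)) (.node (.node (.col (nat_lit 2)) (.col (nat_lit 1)) (.slot (nat_lit 0))) .junk (.col (nat_lit 1))) (.col (nat_lit 3))
def w24314 : Root := .mk (.node (.node (.col (nat_lit 1)) (.node (.col (nat_lit 1)) (.node (.col (nat_lit 0)) (.slot (nat_lit 7)) (.slot (nat_lit 5))) (.slot (nat_lit 10))) (.slot (nat_lit 8))) (.node (.col (nat_lit 0)) (.slot (nat_lit 7)) (.slot (nat_lit 5))) (.slot (nat_lit 10))) (.col (nat_lit 2)) (.col (nat_lit 4)) (.col (nat_lit 3))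
def w24315 : Root := .mk (.node (.node (.col (nat_lit 1)) (.slot (nat_lit 0)) (.slot (nat_lit 0))) (.node (.col (nat_lit 0)) (.col (nat_lit 3)) (.slot (nat_lit 1))) (.slot (nat_lit 1))) (.col (nat_lit 2)) (.node (.node (.col (nat_lit 2)) (.col (nat_lit 1)) (.slot (nat_lit 0))) (.col (nat_lit 2)) (.col (nat_lit 1))) (.col (nat_lit 3))
def w24316 : Root := .mk (.node (.node (.col (nat_lit 1)) (.col (nat_lit 4)) (.slot (nat_lit 1))) (.node (.col (nat_lit 0)) (.col (nat_lit 4)) (.slot (nat_lit 1))) (.slot (nat_lit 1))) (.col (nat_lit 2)) (.node (.node (.col (nat_lit 2)) (.col (nat_lit 1)) (.slot (nat_lit 0))) .junk (.col (nat_lit 1))) (.col (nat_lit 3))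
def w24317 : Root := .mk (.node (.node (.col (nat_lit 1)) (.node (.col (nat_lit 1)) (.node (.col (nat_lit 0)) (.slot (nat_lit 1)) (.slot (nat_lit 1))) (.slot (nat_lit 2))) (.slot (nat_lit 1))) (.node (.col (nat_lit 0)) (.col (nat_lit 4)) (.slot (nat_lit 1))) (.slot (nat_lit 1))) (.col (nat_lit 2)) (.node (.node (.col (nat_lit 2)) (.col (nat_lit 1)) (.slot (nat_lit 0))) .junk (.col (nat_lit 1))) (.col (nat_lit 3))
def l5475 : Root := .mk (.node (.node (.col (nat_lit 1)) (.node (.col (nat_lit 1)) (.node (.col (nat_lit 0)) (.slot (nat_lit 20)) (.slot (nat_lit 12))) (.slot (nat_lit 21))) (.slot (nat_lit 21))) (.node (.col (nat_lit 0)) (.slot (nat_lit 10)) (.slot (nat_lit 10))) (.slot (nat_lit 10))) (.col (nat_lit 2)) (.node (.node (.col (nat_lit 2)) (.col (nat_lit 1)) (.slot (nat_lit 0))) (.col (nat_lit 2)) (.col (nat_lit 1))) (.col (nat_lit 3))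
def w24318 : Root := .mk (.node (.node (.col (nat_lit 1)) (.node (.col (nat_lit 1)) (.slot (nat_lit 21)) (.slot (nat_lit 21))) (.slot (nat_lit 21))) (.node (.col (nat_lit 0)) (.slot (nat_lit 10)) (.slot (nat_lit 10))) (.slot (nat_lit 10))) (.col (nat_lit 2)) (.node (.node (.col (nat_lit 2)) (.col (nat_lit 1)) (.slot (nat_lit 0))) (.col (nat_lit 2)) (.col (nat_lit 1))) (.col (nat_lit 3))
def w24319 : Root := .mk (.col (nat_lit 1)) (.col (nat_lit 0)) (.node (.node (.col (nat_lit 2)) (.node (.slot (nat_lit 0)) (.col (nat_lit 2)) (.col (nat_lit 1))) (.node (.col (nat_lit 1)) (.col (nat_lit 2)) (.slot (nat_lit 3)))) (.node (.col (nat_lit 0)) (.slot (nat_lit 2)) (.slot (nat_lit 1))) (.slot (nat_lit 1))) (.node (.col (nat_lit 0)) (.slot (nat_lit 1)) (.slot (nat_lit 1)))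
def w24320 : Root := .mk (.col (nat_lit 1)) (.col (nat_lit 0)) (.node (.node (.col (nat_lit 2)) (.node (.slot (nat_lit 0)) (.col (nat_lit 2)) (.col (nat_lit 1))) (.node (.col (nat_lit 1)) (.col (nat_lit 2)) (.slot (nat_lit 3)))) (.node (.col (nat_lit 0)) (.slot (nat_lit 1)) (.slot (nat_lit 0))) (.slot (nat_lit 1))) (.node (.col (nat_lit 1)) (.slot (nat_lit 0)) (.slot (nat_lit 0)))
def w24321 : Root := .mk (.col (nat_lit 1)) (.col (nat_lit 0)) (.node (.node (.col (nat_lit 2)) (.node (.slot (nat_lit 0)) (.col (nat_lit 2)) (.col (nat_lit 1))) (.node (.col (nat_lit 1)) (.col (nat_lit 2)) (.slot (nat_lit 3)))) (.node (.col (nat_lit 0)) (.slot (nat_lit 1)) (.slot (nat_lit 0))) (.slot (nat_lit 1))) (.node (.slot (nat_lit 0)) (.slot (nat_lit 0)) (.slot (nat_lit 0)))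
def w24322 : Root := .mk (.node (.node (.node (.col (nat_lit 1)) (.col (nat_lit 0)) (.slot (nat_lit 3))) (.node (.col (nat_lit 0)) (.slot (nat_lit 3)) (.slot (nat_lit 1))) (.col (nat_lit 0))) (.col (nat_lit 2)) (.node (.col (nat_lit 1)) (.col (nat_lit 2)) (.slot (nat_lit 3)))) (.slot (nat_lit 0)) (.col (nat_lit 2)) (.col (nat_lit 1))
def w24323 : Root := .mk (.node (.node (.node (.col (nat_lit 1)) (.col (nat_lit 0)) (.slot (nat_lit 6))) (.node (.col (nat_lit 0)) (.slot (nat_lit 7)) (.slot (nat_lit 6))) (.node (.col (nat_lit 2)) (.slot (nat_lit 1)) (.slot (nat_lit 1)))) (.col (nat_lit 2)) (.node (.col (nat_lit 1)) (.col (nat_lit 2)) (.slot (nat_lit 5)))) (.slot (nat_lit 0)) (.col (nat_lit 2)) (.col (nat_lit 1))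
def w24324 : Root := .mk (.node (.node (.node (.col (nat_lit 1)) (.col (nat_lit 0)) (.slot (nat_lit 0))) (.node (.col (nat_lit 0)) (.col (nat_lit 2)) (.slot (nat_lit 1))) (.slot (nat_lit 1))) (.col (nat_lit 2)) (.node (.col (nat_lit 1)) (.col (nat_lit 2)) (.slot (nat_lit 3)))) (.slot (nat_lit 0)) (.col (nat_lit 2)) (.col (nat_lit 1))
def l5476 : Root := .mk (.node (.node (.node (.col (nat_lit 1)) (.col (nat_lit 0)) (.slot (nat_lit 6))) (.node (.col (nat_lit 0)) (.slot (nat_lit 21)) (.slot (nat_lit 21))) (.slot (nat_lit 8))) (.col (nat_lit 2)) (.node (.col (nat_lit 1)) (.col (nat_lit 2)) (.slot (nat_lit 5)))) (.slot (nat_lit 0)) (.col (nat_lit 2)) (.col (nat_lit 1))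
def w24325 : Root := .mk (.node (.node (.node (.col (nat_lit 1)) (.node (.col (nat_lit 1)) (.slot (nat_lit 0)) (.slot (nat_lit 0))) (.slot (nat_lit 6))) (.node (.col (nat_lit 0)) (.slot (nat_lit 21)) (.slot (nat_lit 21))) (.slot (nat_lit 8))) (.col (nat_lit 2)) (.node (.col (nat_lit 1)) (.col (nat_lit 2)) (.slot (nat_lit 5)))) (.slot (nat_lit 0)) (.col (nat_lit 2)) (.col (nat_lit 1))
def w24326 : Root := .mk (.node (.node (.col (nat_lit 2)) (.node (.col (nat_lit 0)) (.slot (nat_lit 3)) (.slot (nat_lit 3))) (.slot (nat_lit 1))) (.col (nat_lit 2)) (.node (.col (nat_lit 1)) (.node (.col (nat_lit 1)) (.slot (nat_lit 0)) (.slot (nat_lit 0))) (.slot (nat_lit 3)))) (.node (.col (nat_lit 2)) (.col (nat_lit 1)) (.slot (nat_lit 0))) (.col (nat_lit 2)) (.col (nat_lit 1))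
def w24327 : Root := .mk (.node (.node (.col (nat_lit 3)) (.node (.col (nat_lit 0)) (.slot (nat_lit 1)) (.slot (nat_lit 1))) (.slot (nat_lit 2))) (.col (nat_lit 2)) (.node (.col (nat_lit 1)) (.node (.col (nat_lit 1)) (.slot (nat_lit 0)) (.slot (nat_lit 0))) (.slot (nat_lit 1)))) (.node (.col (nat_lit 2)) (.col (nat_lit 1)) (.slot (nat_lit 0))) (.col (nat_lit 2)) (.col (nat_lit 1))
def w24328 : Root := .mk (.col (nat_lit 1)) (.col (nat_lit 0)) (.node (.node (.col (nat_lit 2)) (.node (.node (.col (nat_lit 2)) (.col (nat_lit 1)) (.slot (nat_lit 0))) (.col (nat_lit 2)) (.col (nat_lit 1))) (.node (.col (nat_lit 1)) (.node (.col (nat_lit 1)) (.slot (nat_lit 0)) (.slot (nat_lit 0))) (.slot (nat_lit 1)))) (.node (.col (nat_lit 0)) (.slot (nat_lit 2)) (.slot (nat_lit 1))) (.slot (nat_lit 1))) (.node (.col (nat_lit 0)) (.slot (nat_lit 1)) (.slot (nat_lit 1)))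
def w24329 : Root := .mk (.col (nat_lit 1)) (.col (nat_lit 0)) (.node (.node (.col (nat_lit 2)) (.node (.node (.col (nat_lit 2)) (.col (nat_lit 1)) (.slot (nat_lit 0))) (.col (nat_lit 2)) (.col (nat_lit 1))) (.node (.col (nat_lit 1)) (.node (.col (nat_lit 1)) (.slot (nat_lit 0)) (.slot (nat_lit 0))) (.slot (nat_lit 1)))) (.node (.col (nat_lit 0)) (.slot (nat_lit 1)) (.slot (nat_lit 0))) (.slot (nat_lit 1))) (.node (.col (nat_lit 1)) (.slot (nat_lit 0)) (.slot (nat_lit 0)))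
def w24330 : Root := .mk (.col (nat_lit 1)) (.col (nat_lit 0)) (.node (.node (.col (nat_lit 2)) (.node (.node (.col (nat_lit 2)) (.col (nat_lit 1)) (.slot (nat_lit 0))) (.col (nat_lit 2)) (.col (nat_lit 1))) (.node (.col (nat_lit 1)) (.node (.col (nat_lit 1)) (.slot (nat_lit 0)) (.slot (nat_lit 0))) (.slot (nat_lit 1)))) (.node (.col (nat_lit 0)) (.slot (nat_lit 1)) (.slot (nat_lit 0))) (.slot (nat_lit 1))) (.node (.slot (nat_lit 0)) (.slot (nat_lit 0)) (.slot (nat_lit 0)))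
def w24331 : Root := .mk (.node (.node (.node (.col (nat_lit 1)) (.col (nat_lit 0)) (.slot (nat_lit 3))) (.node (.col (nat_lit 0)) (.slot (nat_lit 3)) (.slot (nat_lit 1))) (.col (nat_lit 0))) (.col (nat_lit 2)) (.node (.col (nat_lit 1)) (.node (.col (nat_lit 1)) (.slot (nat_lit 0)) (.slot (nat_lit 0))) (.slot (nat_lit 1)))) (.node (.col (nat_lit 2)) (.col (nat_lit 1)) (.slot (nat_lit 0))) (.col (nat_lit 2)) (.col (nat_lit 1))
def w24332 : Root := .mk (.node (.node (.node (.col (nat_lit 1)) (.col (nat_lit 0)) (.slot (nat_lit 1))) (.node (.col (nat_lit 0)) (.slot (nat_lit 1)) (.slot (nat_lit 0))) (.node (.col (nat_lit 2)) (.slot (nat_lit 0)) (.slot (nat_lit 0)))) (.col (nat_lit 2)) (.node (.col (nat_lit 1)) (.node (.col (nat_lit 1)) (.slot (nat_lit 0)) (.slot (nat_lit 0))) (.slot (nat_lit 1)))) (.node (.col (nat_lit 2)) (.col (nat_lit 1)) (.slot (nat_lit 0))) (.col (nat_lit 2)) (.col (nat_lit 1))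
def w24333 : Root := .mk (.node (.node (.node (.col (nat_lit 1)) (.col (nat_lit 0)) (.slot (nat_lit 0))) (.node (.col (nat_lit 0)) (.col (nat_lit 2)) (.slot (nat_lit 1))) (.slot (nat_lit 1))) (.col (nat_lit 2)) (.node (.col (nat_lit 1)) (.node (.col (nat_lit 1)) (.slot (nat_lit 0)) (.slot (nat_lit 0))) (.slot (nat_lit 1)))) (.node (.col (nat_lit 2)) (.col (nat_lit 1)) (.slot (nat_lit 0))) (.col (nat_lit 2)) (.col (nat_lit 1))
def l5477 : Root := .mk (.node (.node (.node (.col (nat_lit 1)) (.col (nat_lit 0)) (.slot (nat_lit 5))) (.node (.col (nat_lit 0)) (.slot (nat_lit 21)) (.slot (nat_lit 21))) (.slot (nat_lit 8))) (.col (nat_lit 2)) (.node (.col (nat_lit 1)) (.node (.col (nat_lit 1)) (.slot (nat_lit 0)) (.slot (nat_lit 0))) (.slot (nat_lit 3)))) (.node (.col (nat_lit 2)) (.col (nat_lit 1)) (.slot (nat_lit 0))) (.col (nat_lit 2)) (.col (nat_lit 1))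
def w24334 : Root := .mk (.node (.node (.node (.col (nat_lit 1)) (.node (.col (nat_lit 1)) (.slot (nat_lit 0)) (.slot (nat_lit 0))) (.slot (nat_lit 5))) (.node (.col (nat_lit 0)) (.slot (nat_lit 21)) (.slot (nat_lit 21))) (.slot (nat_lit 8))) (.col (nat_lit 2)) (.node (.col (nat_lit 1)) (.node (.col (nat_lit 1)) (.slot (nat_lit 0)) (.slot (nat_lit 0))) (.slot (nat_lit 3)))) (.node (.col (nat_lit 2)) (.col (nat_lit 1)) (.slot (nat_lit 0))) (.col (nat_lit 2)) (.col (nat_lit 1))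
def w24335 : Root := .mk (.node (.node (.node (.col (nat_lit 1)) (.node (.col (nat_lit 1)) (.slot (nat_lit 0)) (.slot (nat_lit 0))) (.slot (nat_lit 2))) (.col (nat_lit 3)) (.slot (nat_lit 2))) (.col (nat_lit 2)) (.node (.col (nat_lit 1)) (.node (.slot (nat_lit 0)) (.slot (nat_lit 0)) (.slot (nat_lit 0))) (.slot (nat_lit 1)))) (.node (.col (nat_lit 2)) (.col (nat_lit 1)) (.slot (nat_lit 0))) (.col (nat_lit 2)) (.col (nat_lit 1))
def l5478 : Root := .mk (.col (nat_lit 3)) (.node (.col (nat_lit 2)) (.node (.node (.col (nat_lit 2)) (.col (nat_lit 1)) (.slot (nat_lit 0))) (.col (nat_lit 2)) (.col (nat_lit 1))) (.node (.col (nat_lit 1)) (.node (.slot (nat_lit 0)) (.slot (nat_lit 0)) (.slot (nat_lit 0))) (.slot (nat_lit 1)))) (.col (nat_lit 4)) (.col (nat_lit 1))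
def w24336 : Root := .mk (.node (.node (.col (nat_lit 3)) (.col (nat_lit 4)) (.slot (nat_lit 1))) (.col (nat_lit 2)) (.node (.col (nat_lit 1)) (.node (.slot (nat_lit 0)) (.slot (nat_lit 0)) (.slot (nat_lit 0))) (.slot (nat_lit 1)))) (.node (.col (nat_lit 2)) (.col (nat_lit 1)) (.slot (nat_lit 0))) (.col (nat_lit 2)) (.col (nat_lit 1))
def w24337 : Root := .mk (.col (nat_lit 3)) (.node (.col (nat_lit 2)) (.node (.node (.col (nat_lit 2)) (.col (nat_lit 1)) (.slot (nat_lit 0))) (.col (nat_lit 2)) (.col (nat_lit 1))) (.node (.col (nat_lit 1)) (.node (.slot (nat_lit 0)) (.slot (nat_lit 0)) (.slot (nat_lit 0))) (.slot (nat_lit 1)))) (.node (.col (nat_lit 0)) (.col (nat_lit 2)) (.slot (nat_lit 0))) (.col (nat_lit 0))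
def w24338 : Root := .mk (.col (nat_lit 3)) (.node (.col (nat_lit 2)) (.node (.node (.col (nat_lit 2)) (.col (nat_lit 1)) (.slot (nat_lit 0))) (.col (nat_lit 2)) (.col (nat_lit 1))) (.node (.col (nat_lit 1)) (.node (.slot (nat_lit 0)) (.slot (nat_lit 0)) (.slot (nat_lit 0))) (.slot (nat_lit 1)))) (.node (.col (nat_lit 0)) .junk (.node (.col (nat_lit 0)) (.slot (nat_lit 0)) (.slot (nat_lit 0)))) (.col (nat_lit 2))
def l5479 : Root := .mk (.node (.col (nat_lit 3)) (.node (.col (nat_lit 2)) (.node (.node (.col (nat_lit 2)) (.col (nat_lit 1)) (.slot (nat_lit 0))) (.col (nat_lit 2)) (.col (nat_lit 1))) (.node (.col (nat_lit 1)) (.node (.slot (nat_lit 0)) (.slot (nat_lit 0)) (.slot (nat_lit 0))) (.slot (nat_lit 1)))) (.slot (nat_lit 2))) (.col (nat_lit 0)) (.col (nat_lit 2)) (.node (.col (nat_lit 0)) (.slot (nat_lit 0)) (.slot (nat_lit 0)))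
def w24339 : Root := .mk (.node (.node (.col (nat_lit 1)) (.slot (nat_lit 0)) (.slot (nat_lit 0))) (.node (.col (nat_lit 2)) (.node (.node (.col (nat_lit 2)) (.col (nat_lit 1)) (.slot (nat_lit 0))) (.col (nat_lit 2)) (.col (nat_lit 1))) (.node (.col (nat_lit 1)) (.node (.slot (nat_lit 0)) (.slot (nat_lit 0)) (.slot (nat_lit 0))) (.slot (nat_lit 1)))) (.slot (nat_lit 2))) (.col (nat_lit 0)) (.col (nat_lit 2)) (.node (.col (nat_lit 0)) (.slot (nat_lit 0)) (.slot (nat_lit 0)))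
def w24340 : Root := .mk (.col (nat_lit 3)) (.node (.col (nat_lit 2)) (.node (.node (.col (nat_lit 2)) (.col (nat_lit 1)) (.slot (nat_lit 0))) (.col (nat_lit 2)) (.col (nat_lit 1))) (.node (.col (nat_lit 1)) (.node (.slot (nat_lit 0)) (.slot (nat_lit 0)) (.slot (nat_lit 0))) (.slot (nat_lit 1)))) (.node (.col (nat_lit 0)) .junk (.node (.col (nat_lit 2)) (.slot (nat_lit 0)) (.slot (nat_lit 0)))) (.col (nat_lit 2))
def l5480 : Root := .mk (.node (.col (nat_lit 3)) (.node (.col (nat_lit 2)) (.node (.node (.col (nat_lit 2)) (.col (nat_lit 1)) (.slot (nat_lit 0))) (.col (nat_lit 2)) (.col (nat_lit 1))) (.node (.col (nat_lit 1)) (.node (.slot (nat_lit 0)) (.slot (nat_lit 0)) (.slot (nat_lit 0))) (.slot (nat_lit 1)))) (.slot (nat_lit 2))) (.col (nat_lit 0)) (.col (nat_lit 2)) (.node (.col (nat_lit 2)) (.slot (nat_lit 0)) (.slot (nat_lit 0)))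
def w24341 : Root := .mk (.node (.node (.col (nat_lit 1)) (.slot (nat_lit 0)) (.slot (nat_lit 0))) (.node (.col (nat_lit 2)) (.node (.node (.col (nat_lit 2)) (.col (nat_lit 1)) (.slot (nat_lit 0))) (.col (nat_lit 2)) (.col (nat_lit 1))) (.node (.col (nat_lit 1)) (.node (.slot (nat_lit 0)) (.slot (nat_lit 0)) (.slot (nat_lit 0))) (.slot (nat_lit 1)))) (.slot (nat_lit 2))) (.col (nat_lit 0)) (.col (nat_lit 2)) (.node (.col (nat_lit 2)) (.slot (nat_lit 0)) (.slot (nat_lit 0)))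
def w24342 : Root := .mk (.node (.node (.col (nat_lit 1)) (.node (.col (nat_lit 1)) (.slot (nat_lit 0)) (.slot (nat_lit 0))) (.slot (nat_lit 2))) (.node (.col (nat_lit 2)) (.node (.node (.col (nat_lit 2)) (.col (nat_lit 1)) (.slot (nat_lit 0))) (.col (nat_lit 2)) (.col (nat_lit 1))) (.node (.col (nat_lit 1)) (.node (.slot (nat_lit 0)) (.slot (nat_lit 0)) (.slot (nat_lit 0))) (.slot (nat_lit 1)))) (.slot (nat_lit 2))) (.col (nat_lit 0)) (.col (nat_lit 2)) (.node (.slot (nat_lit 0)) (.slot (nat_lit 0)) (.slot (nat_lit 0)))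
def w24343 : Root := .mk (.col (nat_lit 2)) (.node (.col (nat_lit 2)) (.node (.node (.col (nat_lit 2)) (.col (nat_lit 1)) (.slot (nat_lit 0))) (.col (nat_lit 2)) (.col (nat_lit 1))) (.node (.col (nat_lit 1)) (.node (.slot (nat_lit 0)) (.slot (nat_lit 0)) (.slot (nat_lit 0))) (.slot (nat_lit 1)))) (.node (.col (nat_lit 0)) .junk (.slot (nat_lit 1))) (.col (nat_lit 3))
def l5481 : Root := .mk (.node (.node (.col (nat_lit 2)) (.node (.col (nat_lit 0)) (.col (nat_lit 2)) (.slot (nat_lit 5))) (.node (.col (nat_lit 0)) (.slot (nat_lit 7)) (.slot (nat_lit 5)))) (.col (nat_lit 2)) (.node (.col (nat_lit 1)) (.node (.slot (nat_lit 0)) (.slot (nat_lit 0)) (.slot (nat_lit 0))) (.slot (nat_lit 6)))) (.node (.col (nat_lit 2)) (.col (nat_lit 1)) (.slot (nat_lit 0))) (.col (nat_lit 2)) (.col (nat_lit 1))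
def w24344 : Root := .mk (.node (.node (.col (nat_lit 2)) (.node (.col (nat_lit 0)) (.col (nat_lit 2)) (.slot (nat_lit 5))) (.slot (nat_lit 8))) (.col (nat_lit 2)) (.node (.col (nat_lit 1)) (.node (.slot (nat_lit 0)) (.slot (nat_lit 0)) (.slot (nat_lit 0))) (.slot (nat_lit 6)))) (.node (.col (nat_lit 2)) (.col (nat_lit 1)) (.slot (nat_lit 0))) (.col (nat_lit 2)) (.col (nat_lit 1))
def w24345 : Root := .mk (.node (.node (.node (.col (nat_lit 1)) (.node (.col (nat_lit 1)) (.slot (nat_lit 0)) (.slot (nat_lit 0))) (.slot (nat_lit 1))) (.node (.col (nat_lit 0)) (.col (nat_lit 2)) (.slot (nat_lit 1))) (.col (nat_lit 0))) (.col (nat_lit 2)) (.node (.col (nat_lit 1)) (.node (.slot (nat_lit 0)) (.slot (nat_lit 0)) (.slot (nat_lit 0))) (.slot (nat_lit 1)))) (.node (.col (nat_lit 2)) (.col (nat_lit 1)) (.slot (nat_lit 0))) (.col (nat_lit 2)) (.col (nat_lit 1))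
def w24346 : Root := .mk (.node (.node (.node (.col (nat_lit 1)) (.node (.col (nat_lit 1)) (.slot (nat_lit 0)) (.slot (nat_lit 0))) (.slot (nat_lit 1))) (.node (.col (nat_lit 0)) (.col (nat_lit 2)) (.slot (nat_lit 1))) (.col (nat_lit 2))) (.col (nat_lit 2)) (.node (.col (nat_lit 1)) (.node (.slot (nat_lit 0)) (.slot (nat_lit 0)) (.slot (nat_lit 0))) (.slot (nat_lit 1)))) (.node (.col (nat_lit 2)) (.col (nat_lit 1)) (.slot (nat_lit 0))) (.col (nat_lit 2)) (.col (nat_lit 1))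
def w24347 : Root := .mk (.node (.node (.node (.col (nat_lit 1)) (.node (.col (nat_lit 1)) (.slot (nat_lit 0)) (.slot (nat_lit 0))) (.slot (nat_lit 2))) (.node (.col (nat_lit 0)) (.col (nat_lit 2)) (.slot (nat_lit 0))) (.node (.col (nat_lit 1)) (.slot (nat_lit 1)) (.slot (nat_lit 1)))) (.col (nat_lit 2)) (.node (.col (nat_lit 1)) (.node (.slot (nat_lit 0)) (.slot (nat_lit 0)) (.slot (nat_lit 0))) (.slot (nat_lit 1)))) (.node (.col (nat_lit 2)) (.col (nat_lit 1)) (.slot (nat_lit 0))) (.col (nat_lit 2)) (.col (nat_lit 1))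
def w24348 : Root := .mk (.node (.node (.node (.col (nat_lit 1)) (.slot (nat_lit 0)) (.slot (nat_lit 1))) (.node (.col (nat_lit 0)) (.col (nat_lit 2)) (.slot (nat_lit 3))) (.node (.col (nat_lit 3)) (.slot (nat_lit 0)) (.slot (nat_lit 0)))) (.col (nat_lit 2)) (.node (.col (nat_lit 1)) (.node (.slot (nat_lit 0)) (.slot (nat_lit 0)) (.slot (nat_lit 0))) (.slot (nat_lit 1)))) (.node (.col (nat_lit 2)) (.col (nat_lit 1)) (.slot (nat_lit 0))) (.col (nat_lit 2)) (.col (nat_lit 1))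
def w24349 : Root := .mk (.node (.node (.node (.col (nat_lit 1)) (.slot (nat_lit 0)) (.slot (nat_lit 1))) (.node (.col (nat_lit 0)) (.col (nat_lit 2)) (.slot (nat_lit 3))) (.node (.slot (nat_lit 0)) (.slot (nat_lit 0)) (.slot (nat_lit 0)))) (.col (nat_lit 2)) (.node (.col (nat_lit 1)) (.node (.slot (nat_lit 0)) (.slot (nat_lit 0)) (.slot (nat_lit 0))) (.slot (nat_lit 1)))) (.node (.col (nat_lit 2)) (.col (nat_lit 1)) (.slot (nat_lit 0))) (.col (nat_lit 2)) (.col (nat_lit 1))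
def w24350 : Root := .mk (.node (.node (.node (.col (nat_lit 1)) (.col (nat_lit 0)) (.slot (nat_lit 0))) (.node (.col (nat_lit 0)) (.col (nat_lit 2)) (.slot (nat_lit 1))) (.slot (nat_lit 1))) (.col (nat_lit 2)) (.node (.col (nat_lit 1)) (.node (.slot (nat_lit 0)) (.slot (nat_lit 0)) (.slot (nat_lit 0))) (.slot (nat_lit 1)))) (.node (.col (nat_lit 2)) (.col (nat_lit 1)) (.slot (nat_lit 0))) (.col (nat_lit 2)) (.col (nat_lit 1))
def w24351 : Root := .mk (.node (.node (.node (.col (nat_lit 1)) (.col (nat_lit 3)) (.slot (nat_lit 2))) (.node (.col (nat_lit 0)) (.col (nat_lit 2)) (.slot (nat_lit 1))) (.slot (nat_lit 2))) (.col (nat_lit 2)) (.node (.col (nat_lit 1)) (.node (.slot (nat_lit 0)) (.slot (nat_lit 0)) (.slot (nat_lit 0))) (.slot (nat_lit 1)))) (.node (.col (nat_lit 2)) (.col (nat_lit 1)) (.slot (nat_lit 0))) (.col (nat_lit 2)) (.col (nat_lit 1))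
def w24352 : Root := .mk (.col (nat_lit 1)) (.node (.col (nat_lit 1)) (.slot (nat_lit 0)) (.slot (nat_lit 0))) (.node (.node (.col (nat_lit 2)) (.node (.node (.col (nat_lit 2)) (.col (nat_lit 1)) (.slot (nat_lit 0))) (.col (nat_lit 2)) (.col (nat_lit 1))) (.node (.col (nat_lit 1)) (.node (.slot (nat_lit 0)) (.slot (nat_lit 0)) (.slot (nat_lit 0))) (.slot (nat_lit 1)))) (.node (.col (nat_lit 0)) (.col (nat_lit 2)) (.slot (nat_lit 1))) (.slot (nat_lit 1))) (.col (nat_lit 2))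
def w24353 : Root := .mk (.col (nat_lit 1)) (.slot (nat_lit 0)) (.node (.node (.col (nat_lit 2)) (.node (.node (.col (nat_lit 2)) (.col (nat_lit 1)) (.slot (nat_lit 0))) (.col (nat_lit 2)) (.col (nat_lit 1))) (.node (.col (nat_lit 1)) (.node (.slot (nat_lit 0)) (.slot (nat_lit 0)) (.slot (nat_lit 0))) (.slot (nat_lit 1)))) (.node (.col (nat_lit 0)) (.col (nat_lit 2)) (.slot (nat_lit 2))) (.slot (nat_lit 1))) (.col (nat_lit 3))
def w24354 : Root := .mk (.node (.node (.node (.col (nat_lit 1)) (.slot (nat_lit 0)) (.slot (nat_lit 0))) (.node (.col (nat_lit 0)) (.col (nat_lit 2)) (.slot (nat_lit 3))) (.slot (nat_lit 1))) (.col (nat_lit 2)) (.node (.col (nat_lit 1)) (.node (.slot (nat_lit 0)) (.slot (nat_lit 0)) (.slot (nat_lit 0))) (.slot (nat_lit 1)))) (.node (.col (nat_lit 2)) (.col (nat_lit 1)) (.slot (nat_lit 0))) (.col (nat_lit 2)) (.col (nat_lit 1))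
def w24355 : Root := .mk (.node (.node (.node (.col (nat_lit 1)) (.node (.col (nat_lit 1)) (.slot (nat_lit 0)) (.slot (nat_lit 0))) (.slot (nat_lit 3))) (.node (.col (nat_lit 0)) (.col (nat_lit 2)) (.slot (nat_lit 6))) (.slot (nat_lit 8))) (.col (nat_lit 2)) (.node (.node (.col (nat_lit 2)) (.col (nat_lit 1)) (.slot (nat_lit 0))) (.col (nat_lit 2)) (.col (nat_lit 1)))) (.col (nat_lit 1)) (.slot (nat_lit 0)) (.col (nat_lit 2))
def l5482 : Root := .mk (.node (.node (.node (.col (nat_lit 1)) (.node (.col (nat_lit 1)) (.slot (nat_lit 20)) (.slot (nat_lit 9))) (.slot (nat_lit 21))) (.node (.col (nat_lit 0)) (.col (nat_lit 2)) (.slot (nat_lit 6))) (.slot (nat_lit 8))) (.col (nat_lit 2)) (.node (.col (nat_lit 1)) (.node (.slot (nat_lit 0)) (.slot (nat_lit 0)) (.slot (nat_lit 0))) (.slot (nat_lit 6)))) (.node (.col (nat_lit 2)) (.col (nat_lit 1)) (.slot (nat_lit 0))) (.col (nat_lit 2)) (.col (nat_lit 1))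
def w24356 : Root := .mk (.node (.node (.node (.col (nat_lit 1)) (.node (.col (nat_lit 1)) (.slot (nat_lit 20)) (.slot (nat_lit 9))) (.slot (nat_lit 21))) (.node (.col (nat_lit 0)) (.slot (nat_lit 1)) (.slot (nat_lit 6))) (.slot (nat_lit 8))) (.col (nat_lit 2)) (.node (.col (nat_lit 1)) (.node (.slot (nat_lit 0)) (.slot (nat_lit 0)) (.slot (nat_lit 0))) (.slot (nat_lit 6)))) (.node (.col (nat_lit 2)) (.col (nat_lit 1)) (.slot (nat_lit 0))) (.col (nat_lit 2)) (.col (nat_lit 1))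
def l5483 : Root := .mk (.node (.node (.node (.col (nat_lit 1)) (.node (.col (nat_lit 1)) (.slot (nat_lit 21)) (.slot (nat_lit 21))) (.slot (nat_lit 21))) (.node (.col (nat_lit 0)) (.slot (nat_lit 21)) (.slot (nat_lit 21))) (.slot (nat_lit 10))) (.col (nat_lit 2)) (.node (.col (nat_lit 1)) (.slot (nat_lit 7)) (.slot (nat_lit 6)))) (.node (.col (nat_lit 2)) (.col (nat_lit 1)) (.slot (nat_lit 0))) (.col (nat_lit 2)) (.col (nat_lit 1))
def w24357 : Root := .mk (.node (.node (.node (.col (nat_lit 1)) (.node (.col (nat_lit 1)) (.slot (nat_lit 21)) (.slot (nat_lit 21))) (.slot (nat_lit 21))) (.node (.col (nat_lit 0)) (.slot (nat_lit 21)) (.slot (nat_lit 21))) (.slot (nat_lit 10))) (.col (nat_lit 2)) (.slot (nat_lit 8))) (.node (.col (nat_lit 2)) (.col (nat_lit 1)) (.slot (nat_lit 0))) (.col (nat_lit 2)) (.col (nat_lit 1))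
def w24358 : Root := .mk (.node (.node (.node (.col (nat_lit 1)) (.node (.col (nat_lit 1)) (.slot (nat_lit 0)) (.slot (nat_lit 0))) (.slot (nat_lit 3))) (.node (.col (nat_lit 0)) (.slot (nat_lit 3)) (.slot (nat_lit 3))) (.slot (nat_lit 8))) (.col (nat_lit 2)) (.slot (nat_lit 4))) (.node .junk (.node (.col (nat_lit 0)) (.slot (nat_lit 0)) (.slot (nat_lit 0))) (.col (nat_lit 0))) (.col (nat_lit 2)) (.col (nat_lit 1))
def w24359 : Root := .mk (.node (.node (.node (.col (nat_lit 1)) (.node (.col (nat_lit 1)) (.slot (nat_lit 0)) (.slot (nat_lit 0))) (.slot (nat_lit 3))) (.node (.col (nat_lit 0)) (.slot (nat_lit 3)) (.slot (nat_lit 1))) (.slot (nat_lit 8))) (.col (nat_lit 2)) (.slot (nat_lit 3))) (.node (.col (nat_lit 2)) (.node (.col (nat_lit 0)) (.col (nat_lit 2)) (.slot (nat_lit 0))) (.slot (nat_lit 3))) (.col (nat_lit 2)) (.col (nat_lit 1))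
def w24360 : Root := .mk (.node (.node (.node (.col (nat_lit 1)) (.slot (nat_lit 0)) (.slot (nat_lit 0))) (.node (.col (nat_lit 0)) (.slot (nat_lit 3)) (.slot (nat_lit 1))) (.slot (nat_lit 8))) (.col (nat_lit 2)) (.slot (nat_lit 3))) (.node (.col (nat_lit 2)) (.node (.col (nat_lit 0)) (.node (.col (nat_lit 0)) (.slot (nat_lit 0)) (.slot (nat_lit 0))) (.slot (nat_lit 3))) (.slot (nat_lit 1))) (.col (nat_lit 2)) (.col (nat_lit 1))
def l5484 : Root := .mk (.node (.node (.node (.col (nat_lit 1)) (.node (.col (nat_lit 1)) (.slot (nat_lit 21)) (.slot (nat_lit 21))) (.slot (nat_lit 21))) (.node (.col (nat_lit 0)) (.slot (nat_lit 21)) (.slot (nat_lit 21))) (.slot (nat_lit 21))) (.col (nat_lit 2)) (.slot (nat_lit 8))) (.node (.col (nat_lit 2)) (.node (.col (nat_lit 0)) (.slot (nat_lit 20)) (.slot (nat_lit 12))) (.slot (nat_lit 21))) (.col (nat_lit 2)) (.col (nat_lit 1))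
def w24361 : Root := .mk (.node (.node (.node (.col (nat_lit 1)) (.node (.col (nat_lit 1)) (.slot (nat_lit 21)) (.slot (nat_lit 21))) (.slot (nat_lit 21))) (.slot (nat_lit 22)) (.slot (nat_lit 21))) (.col (nat_lit 2)) (.slot (nat_lit 8))) (.node (.col (nat_lit 2)) (.node (.col (nat_lit 0)) (.slot (nat_lit 20)) (.slot (nat_lit 12))) (.slot (nat_lit 21))) (.col (nat_lit 2)) (.col (nat_lit 1))
def w24371 : Root := .mk (.col (nat_lit 1)) (.node (.col (nat_lit 1)) (.node (.col (nat_lit 2)) (.slot (nat_lit 1)) (.slot (nat_lit 1))) (.slot (nat_lit 2))) (.node (.node (.col (nat_lit 2)) (.slot (nat_lit 0)) (.slot (nat_lit 0))) (.slot (nat_lit 20)) (.slot (nat_lit 9))) (.col (nat_lit 0))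
def w24387 : Root := .mk (.node (.node (.node (.col (nat_lit 1)) (.node (.col (nat_lit 1)) (.col (nat_lit 2)) (.slot (nat_lit 0))) (.col (nat_lit 2))) (.col (nat_lit 3)) (.slot (nat_lit 3))) (.col (nat_lit 2)) (.col (nat_lit 3))) (.col (nat_lit 4)) (.col (nat_lit 2)) (.col (nat_lit 3))
def l5488 : Root := .mk (.node (.node (.node (.col (nat_lit 1)) (.node (.col (nat_lit 1)) (.col (nat_lit 2)) (.slot (nat_lit 0))) (.col (nat_lit 2))) (.col (nat_lit 3)) (.slot (nat_lit 6))) (.col (nat_lit 2)) (.slot (nat_lit 1))) (.col (nat_lit 4)) (.col (nat_lit 2)) (.col (nat_lit 3))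
def w24388 : Root := .mk (.node (.node (.node (.col (nat_lit 1)) (.node (.col (nat_lit 1)) (.col (nat_lit 2)) (.slot (nat_lit 0))) (.col (nat_lit 2))) (.slot (nat_lit 1)) (.slot (nat_lit 6))) (.col (nat_lit 2)) (.slot (nat_lit 1))) (.col (nat_lit 4)) (.col (nat_lit 2)) (.col (nat_lit 3))
def w24389 : Root := .mk (.col (nat_lit 1)) (.node (.col (nat_lit 1)) (.col (nat_lit 2)) (.slot (nat_lit 0))) (.node (.node (.col (nat_lit 2)) (.node (.node (.col (nat_lit 2)) (.node (.col (nat_lit 0)) (.slot (nat_lit 1)) (.slot (nat_lit 1))) (.slot (nat_lit 2))) (.col (nat_lit 2)) (.col (nat_lit 3))) (.slot (nat_lit 1))) (.slot (nat_lit 6)) (.slot (nat_lit 1))) (.col (nat_lit 2))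
def l5489 : Root := .mk (.node (.col (nat_lit 1)) (.node (.col (nat_lit 1)) (.slot (nat_lit 1)) (.slot (nat_lit 1))) (.col (nat_lit 2))) (.node (.col (nat_lit 2)) (.node (.node (.col (nat_lit 2)) (.node (.col (nat_lit 0)) (.slot (nat_lit 1)) (.slot (nat_lit 1))) (.slot (nat_lit 2))) (.col (nat_lit 2)) (.col (nat_lit 3))) (.slot (nat_lit 3))) (.col (nat_lit 1)) (.col (nat_lit 0))
def w24393 : Root := .mk (.col (nat_lit 1)) (.node (.col (nat_lit 1)) (.slot (nat_lit 1)) (.slot (nat_lit 1))) (.node (.node (.col (nat_lit 2)) (.node (.node (.col (nat_lit 2)) (.node (.col (nat_lit 0)) (.slot (nat_lit 1)) (.slot (nat_lit 1))) (.slot (nat_lit 2))) (.col (nat_lit 2)) (.col (nat_lit 3))) (.slot (nat_lit 3))) (.col (nat_lit 1)) (.slot (nat_lit 1))) (.col (nat_lit 2))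
def w24394 : Root := .mk (.col (nat_lit 1)) (.node (.col (nat_lit 1)) (.slot (nat_lit 3)) (.slot (nat_lit 1))) (.node (.node (.col (nat_lit 2)) (.node (.node (.col (nat_lit 2)) (.node (.col (nat_lit 0)) (.slot (nat_lit 1)) (.slot (nat_lit 1))) (.slot (nat_lit 2))) (.col (nat_lit 2)) (.col (nat_lit 3))) (.slot (nat_lit 1))) (.col (nat_lit 2)) (.slot (nat_lit 3))) (.col (nat_lit 2))
def w24395 : Root := .mk (.col (nat_lit 1)) (.node (.col (nat_lit 1)) (.slot (nat_lit 0)) (.slot (nat_lit 0))) (.node (.node (.col (nat_lit 2)) (.node (.node (.col (nat_lit 2)) (.node (.col (nat_lit 0)) (.slot (nat_lit 1)) (.slot (nat_lit 1))) (.slot (nat_lit 2))) (.col (nat_lit 2)) (.col (nat_lit 3))) (.slot (nat_lit 1))) (.node (.col (nat_lit 0)) (.slot (nat_lit 0)) (.slot (nat_lit 0))) (.slot (nat_lit 3))) (.col (nat_lit 2))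
def w24396 : Root := .mk (.col (nat_lit 1)) (.node (.col (nat_lit 1)) (.slot (nat_lit 1)) (.slot (nat_lit 1))) (.node (.node (.col (nat_lit 2)) (.node (.col (nat_lit 1)) .junk (.col (nat_lit 3))) (.slot (nat_lit 1))) (.node (.col (nat_lit 1)) (.slot (nat_lit 2)) (.slot (nat_lit 1))) (.slot (nat_lit 1))) (.col (nat_lit 2))
def w24397 : Root := .mk (.col (nat_lit 1)) (.node (.col (nat_lit 1)) (.slot (nat_lit 1)) (.slot (nat_lit 1))) (.node (.node (.col (nat_lit 2)) (.node (.node (.col (nat_lit 2)) (.node (.col (nat_lit 0)) (.slot (nat_lit 1)) (.slot (nat_lit 1))) (.slot (nat_lit 2))) (.col (nat_lit 2)) (.col (nat_lit 3))) (.slot (nat_lit 1))) (.node (.col (nat_lit 1)) (.slot (nat_lit 2)) (.slot (nat_lit 1))) (.slot (nat_lit 1))) (.col (nat_lit 2))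
def w24398 : Root := .mk (.col (nat_lit 1)) (.node (.col (nat_lit 1)) (.slot (nat_lit 0)) (.slot (nat_lit 0))) (.node (.node (.col (nat_lit 2)) (.node (.node (.col (nat_lit 2)) (.node (.col (nat_lit 0)) (.slot (nat_lit 1)) (.slot (nat_lit 1))) (.slot (nat_lit 2))) (.col (nat_lit 2)) (.col (nat_lit 3))) (.slot (nat_lit 1))) (.node (.col (nat_lit 3)) (.slot (nat_lit 0)) (.slot (nat_lit 0))) (.slot (nat_lit 3))) (.col (nat_lit 2))
def w24399 : Root := .mk (.col (nat_lit 1)) (.node (.col (nat_lit 1)) (.slot (nat_lit 0)) (.slot (nat_lit 0))) (.node (.node (.col (nat_lit 2)) (.node (.node (.col (nat_lit 2)) (.node (.col (nat_lit 0)) (.slot (nat_lit 1)) (.slot (nat_lit 1))) (.slot (nat_lit 2))) (.col (nat_lit 2)) (.col (nat_lit 3))) (.slot (nat_lit 1))) (.node (.col (nat_lit 4)) (.slot (nat_lit 0)) (.slot (nat_lit 0))) (.slot (nat_lit 3))) (.col (nat_lit 2))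
def w24400 : Root := .mk (.col (nat_lit 1)) (.node (.col (nat_lit 1)) (.slot (nat_lit 0)) (.slot (nat_lit 0))) (.node (.node (.col (nat_lit 2)) (.node (.node (.col (nat_lit 2)) (.node (.col (nat_lit 0)) (.slot (nat_lit 1)) (.slot (nat_lit 1))) (.slot (nat_lit 2))) (.col (nat_lit 2)) (.col (nat_lit 3))) (.slot (nat_lit 1))) (.node (.slot (nat_lit 0)) (.slot (nat_lit 0)) (.slot (nat_lit 0))) (.slot (nat_lit 3))) (.col (nat_lit 2))
def l5490 : Root := .mk (.col (nat_lit 1)) (.node (.col (nat_lit 1)) (.slot (nat_lit 20)) (.slot (nat_lit 9))) (.node (.node (.col (nat_lit 2)) (.node (.node (.col (nat_lit 2)) (.node (.col (nat_lit 0)) (.slot (nat_lit 3)) (.slot (nat_lit 1))) (.slot (nat_lit 3))) (.col (nat_lit 2)) (.col (nat_lit 3))) (.slot (nat_lit 21))) (.slot (nat_lit 20)) (.slot (nat_lit 12))) (.col (nat_lit 2))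
def w24401 : Root := .mk (.node (.node (.node (.col (nat_lit 1)) (.node (.col (nat_lit 1)) (.slot (nat_lit 20)) (.slot (nat_lit 9))) (.slot (nat_lit 1))) (.slot (nat_lit 20)) (.slot (nat_lit 12))) (.col (nat_lit 2)) (.slot (nat_lit 21))) (.node (.col (nat_lit 2)) (.node (.col (nat_lit 0)) (.slot (nat_lit 3)) (.slot (nat_lit 1))) (.slot (nat_lit 3))) (.col (nat_lit 2)) (.col (nat_lit 3))
def w24416 : Root := .mk (.node (.node (.col (nat_lit 1)) (.node (.col (nat_lit 1)) (.slot (nat_lit 0)) (.slot (nat_lit 0))) (.slot (nat_lit 2))) (.col (nat_lit 0)) (.slot (nat_lit 2))) (.col (nat_lit 2)) (.node (.slot (nat_lit 0)) (.col (nat_lit 2)) (.slot (nat_lit 0))) (.node (.col (nat_lit 1)) (.slot (nat_lit 20)) (.slot (nat_lit 9)))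
def w24422 : Root := .mk (.node (.col (nat_lit 1)) (.node (.col (nat_lit 1)) (.slot (nat_lit 0)) (.slot (nat_lit 0))) (.slot (nat_lit 1))) (.node (.col (nat_lit 2)) (.node (.slot (nat_lit 0)) (.col (nat_lit 2)) (.col (nat_lit 3))) (.slot (nat_lit 0))) (.col (nat_lit 0)) (.col (nat_lit 3))
def w24433 : Root := .mk (.col (nat_lit 1)) (.col (nat_lit 2)) (.node (.node (.col (nat_lit 2)) (.node (.node (.col (nat_lit 2)) (.node (.col (nat_lit 0)) (.slot (nat_lit 1)) (.slot (nat_lit 1))) (.slot (nat_lit 2))) (.col (nat_lit 2)) (.node (.col (nat_lit 2)) (.slot (nat_lit 3)) (.slot (nat_lit 1)))) (.slot (nat_lit 3))) (.slot (nat_lit 2)) (.slot (nat_lit 1))) (.node (.slot (nat_lit 0)) (.slot (nat_lit 1)) (.slot (nat_lit 1)))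
def w24434 : Root := .mk (.col (nat_lit 1)) (.col (nat_lit 2)) (.node (.node (.col (nat_lit 2)) (.node (.node (.col (nat_lit 2)) (.node (.col (nat_lit 0)) (.slot (nat_lit 1)) (.slot (nat_lit 1))) (.slot (nat_lit 2))) (.col (nat_lit 2)) (.node (.col (nat_lit 2)) (.slot (nat_lit 3)) (.slot (nat_lit 1)))) (.slot (nat_lit 3))) (.col (nat_lit 2)) (.slot (nat_lit 8))) (.slot (nat_lit 2))
def w24435 : Root := .mk (.node (.node (.col (nat_lit 1)) (.col (nat_lit 2)) (.slot (nat_lit 1))) (.slot (nat_lit 1)) (.slot (nat_lit 1))) (.col (nat_lit 2)) (.node (.node (.col (nat_lit 2)) (.node (.col (nat_lit 0)) (.slot (nat_lit 1)) (.slot (nat_lit 1))) (.slot (nat_lit 2))) (.col (nat_lit 2)) (.node (.col (nat_lit 2)) (.slot (nat_lit 0)) (.slot (nat_lit 0)))) (.col (nat_lit 0))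
def w24436 : Root := .mk (.node (.node (.col (nat_lit 1)) (.col (nat_lit 2)) (.slot (nat_lit 1))) (.slot (nat_lit 1)) (.slot (nat_lit 1))) (.col (nat_lit 2)) (.node (.node (.col (nat_lit 2)) (.node (.col (nat_lit 0)) (.slot (nat_lit 1)) (.slot (nat_lit 1))) (.slot (nat_lit 2))) (.col (nat_lit 2)) (.node (.col (nat_lit 2)) (.slot (nat_lit 0)) (.slot (nat_lit 0)))) (.col (nat_lit 3))
def w24437 : Root := .mk (.node (.node (.col (nat_lit 1)) (.col (nat_lit 2)) (.slot (nat_lit 3))) (.slot (nat_lit 8)) (.slot (nat_lit 8))) (.col (nat_lit 2)) (.node (.node (.col (nat_lit 2)) (.node (.col (nat_lit 0)) (.slot (nat_lit 1)) (.slot (nat_lit 1))) (.slot (nat_lit 2))) (.col (nat_lit 2)) (.node (.col (nat_lit 2)) (.slot (nat_lit 0)) (.slot (nat_lit 0)))) (.node (.col (nat_lit 2)) (.slot (nat_lit 0)) (.slot (nat_lit 0)))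
def w24438 : Root := .mk (.node (.node (.col (nat_lit 1)) (.col (nat_lit 2)) (.slot (nat_lit 3))) (.slot (nat_lit 8)) (.slot (nat_lit 8))) (.col (nat_lit 2)) (.node (.node (.col (nat_lit 2)) (.node (.col (nat_lit 0)) (.slot (nat_lit 1)) (.slot (nat_lit 1))) (.slot (nat_lit 2))) (.col (nat_lit 2)) (.node (.col (nat_lit 2)) (.slot (nat_lit 0)) (.slot (nat_lit 0)))) (.node (.slot (nat_lit 0)) (.slot (nat_lit 0)) (.slot (nat_lit 0)))
def w24439 : Root := .mk (.node (.node (.node (.col (nat_lit 1)) (.col (nat_lit 2)) (.slot (nat_lit 2))) (.slot (nat_lit 1)) (.slot (nat_lit 1))) (.col (nat_lit 2)) (.slot (nat_lit 1))) (.node (.col (nat_lit 2)) (.node (.col (nat_lit 0)) (.slot (nat_lit 1)) (.slot (nat_lit 1))) (.slot (nat_lit 2))) (.col (nat_lit 2)) (.col (nat_lit 1))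
def l5499 : Root := .mk (.col (nat_lit 1)) (.col (nat_lit 2)) (.node (.node (.col (nat_lit 2)) (.node (.node (.col (nat_lit 2)) (.node (.col (nat_lit 0)) (.slot (nat_lit 7)) (.slot (nat_lit 5))) (.slot (nat_lit 8))) (.col (nat_lit 2)) (.node (.col (nat_lit 2)) (.slot (nat_lit 3)) (.slot (nat_lit 1)))) (.slot (nat_lit 8))) (.slot (nat_lit 20)) (.slot (nat_lit 12))) (.slot (nat_lit 21))
def w24440 : Root := .mk (.node (.node (.node (.col (nat_lit 1)) (.node (.col (nat_lit 1)) (.slot (nat_lit 0)) (.slot (nat_lit 0))) (.slot (nat_lit 21))) (.slot (nat_lit 20)) (.slot (nat_lit 12))) (.col (nat_lit 2)) (.slot (nat_lit 8))) (.node (.col (nat_lit 2)) (.node (.col (nat_lit 0)) (.slot (nat_lit 7)) (.slot (nat_lit 5))) (.slot (nat_lit 8))) (.col (nat_lit 2)) (.node (.col (nat_lit 2)) (.slot (nat_lit 3)) (.slot (nat_lit 1)))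
def w24454 : Root := .mk (.node (.node (.col (nat_lit 1)) (.node (.col (nat_lit 1)) (.slot (nat_lit 0)) (.slot (nat_lit 0))) (.node (.col (nat_lit 3)) (.slot (nat_lit 1)) (.slot (nat_lit 0)))) (.col (nat_lit 0)) (.slot (nat_lit 3))) (.col (nat_lit 2)) (.node (.col (nat_lit 3)) .junk (.node (.slot (nat_lit 0)) (.slot (nat_lit 0)) (.slot (nat_lit 0)))) (.col (nat_lit 0))
def l5506 : Root := .mk (.node (.node (.col (nat_lit 1)) (.node (.col (nat_lit 1)) (.node (.col (nat_lit 2)) (.node (.slot (nat_lit 0)) (.slot (nat_lit 0)) (.slot (nat_lit 0))) (.slot (nat_lit 1))) (.col (nat_lit 0))) (.slot (nat_lit 2))) (.slot (nat_lit 4)) (.slot (nat_lit 4))) (.col (nat_lit 2)) (.col (nat_lit 4)) (.col (nat_lit 1))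
def w24476 : Root := .mk (.node (.node (.node (.col (nat_lit 1)) (.node (.col (nat_lit 1)) (.node (.col (nat_lit 2)) (.slot (nat_lit 1)) (.slot (nat_lit 1))) (.slot (nat_lit 2))) (.node (.col (nat_lit 1)) (.slot (nat_lit 0)) (.slot (nat_lit 0)))) (.col (nat_lit 3)) (.slot (nat_lit 2))) (.col (nat_lit 2)) (.slot (nat_lit 1))) (.col (nat_lit 3)) (.col (nat_lit 2)) (.slot (nat_lit 0))
def w24480 : Root := .mk (.col (nat_lit 1)) (.node (.col (nat_lit 1)) (.node (.col (nat_lit 2)) (.slot (nat_lit 3)) (.slot (nat_lit 1))) (.slot (nat_lit 3))) (.node (.node (.col (nat_lit 2)) (.node (.col (nat_lit 3)) (.col (nat_lit 2)) (.slot (nat_lit 0))) (.slot (nat_lit 8))) (.col (nat_lit 3)) (.slot (nat_lit 3))) (.col (nat_lit 3))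
def l5509 : Root := .mk (.node (.col (nat_lit 1)) (.node (.col (nat_lit 1)) (.slot (nat_lit 0)) (.col (nat_lit 2))) (.col (nat_lit 2))) (.node (.col (nat_lit 2)) (.node (.col (nat_lit 3)) (.col (nat_lit 2)) (.slot (nat_lit 0))) (.col (nat_lit 3))) (.col (nat_lit 3)) (.col (nat_lit 0))
def w24481 : Root := .mk (.node (.col (nat_lit 1)) (.node (.node (.col (nat_lit 2)) (.node (.col (nat_lit 3)) (.col (nat_lit 2)) (.slot (nat_lit 0))) (.col (nat_lit 3))) (.col (nat_lit 3)) (.slot (nat_lit 1))) (.col (nat_lit 2))) (.col (nat_lit 1)) (.slot (nat_lit 0)) (.col (nat_lit 2))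
def l5510 : Root := .mk (.col (nat_lit 1)) (.node (.col (nat_lit 1)) (.node (.col (nat_lit 2)) (.slot (nat_lit 4)) (.slot (nat_lit 4))) (.slot (nat_lit 2))) (.node (.node (.col (nat_lit 2)) (.node (.col (nat_lit 3)) (.col (nat_lit 2)) (.slot (nat_lit 0))) (.col (nat_lit 3))) (.col (nat_lit 3)) (.slot (nat_lit 1))) (.col (nat_lit 2))
def w24496 : Root := .mk (.node (.col (nat_lit 1)) (.node (.col (nat_lit 1)) (.node (.col (nat_lit 2)) (.slot (nat_lit 1)) (.slot (nat_lit 1))) (.slot (nat_lit 2))) (.node (.slot (nat_lit 0)) (.col (nat_lit 3)) (.slot (nat_lit 1)))) (.node (.col (nat_lit 2)) (.slot (nat_lit 0)) (.slot (nat_lit 0))) (.col (nat_lit 3)) (.node (.slot (nat_lit 0)) (.slot (nat_lit 0)) (.slot (nat_lit 0)))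
def w24514 : Root := .mk (.node (.node (.col (nat_lit 1)) (.col (nat_lit 0)) (.slot (nat_lit 0))) (.slot (nat_lit 7)) (.slot (nat_lit 5))) (.col (nat_lit 2)) (.node (.col (nat_lit 3)) (.col (nat_lit 2)) (.node (.slot (nat_lit 0)) (.slot (nat_lit 1)) (.slot (nat_lit 1)))) (.col (nat_lit 0))
def l5544 : Root := .mk (.node (.node (.col (nat_lit 1)) (.node (.col (nat_lit 1)) (.node (.col (nat_lit 2)) (.slot (nat_lit 7)) (.slot (nat_lit 5))) (.slot (nat_lit 8))) (.node (.slot (nat_lit 0)) (.slot (nat_lit 0)) (.slot (nat_lit 0)))) (.node (.col (nat_lit 2)) (.slot (nat_lit 7)) (.slot (nat_lit 5))) (.col (nat_lit 3))) (.col (nat_lit 2)) (.col (nat_lit 0)) (.node (.col (nat_lit 0)) (.slot (nat_lit 1)) (.slot (nat_lit 1)))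
def w24608 : Root := .mk (.node (.node (.col (nat_lit 1)) (.node (.col (nat_lit 1)) (.node (.col (nat_lit 2)) (.slot (nat_lit 7)) (.slot (nat_lit 5))) (.slot (nat_lit 8))) (.node (.slot (nat_lit 0)) (.slot (nat_lit 0)) (.slot (nat_lit 0)))) (.node (.col (nat_lit 2)) (.slot (nat_lit 7)) (.slot (nat_lit 5))) (.slot (nat_lit 1))) (.col (nat_lit 2)) (.col (nat_lit 0)) (.node (.col (nat_lit 0)) (.slot (nat_lit 1)) (.slot (nat_lit 1)))
def l5545 : Root := .mk (.node (.node (.col (nat_lit 1)) (.node (.col (nat_lit 1)) (.node (.col (nat_lit 2)) (.slot (nat_lit 20)) (.slot (nat_lit 9))) (.slot (nat_lit 21))) (.node (.slot (nat_lit 0)) (.slot (nat_lit 0)) (.slot (nat_lit 0)))) (.node (.col (nat_lit 2)) (.slot (nat_lit 1)) (.slot (nat_lit 1))) (.col (nat_lit 3))) (.col (nat_lit 2)) (.col (nat_lit 0)) (.node (.col (nat_lit 2)) (.slot (nat_lit 1)) (.slot (nat_lit 1)))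
def w24609 : Root := .mk (.node (.node (.col (nat_lit 1)) (.node (.col (nat_lit 1)) (.node (.col (nat_lit 2)) (.slot (nat_lit 20)) (.slot (nat_lit 9))) (.slot (nat_lit 21))) (.node (.slot (nat_lit 0)) (.slot (nat_lit 0)) (.slot (nat_lit 0)))) (.node (.col (nat_lit 2)) (.slot (nat_lit 1)) (.slot (nat_lit 1))) (.slot (nat_lit 1))) (.col (nat_lit 2)) (.col (nat_lit 0)) (.node (.col (nat_lit 2)) (.slot (nat_lit 1)) (.slot (nat_lit 1)))
def l5546 : Root := .mk (.node (.node (.col (nat_lit 1)) (.node (.col (nat_lit 1)) (.node (.col (nat_lit 2)) (.slot (nat_lit 7)) (.slot (nat_lit 5))) (.slot (nat_lit 8))) (.node (.slot (nat_lit 0)) (.slot (nat_lit 0)) (.slot (nat_lit 0)))) (.node (.col (nat_lit 2)) (.slot (nat_lit 7)) (.slot (nat_lit 5))) (.col (nat_lit 3))) (.col (nat_lit 2)) (.col (nat_lit 0)) (.node (.slot (nat_lit 0)) (.slot (nat_lit 1)) (.slot (nat_lit 1)))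
def w24610 : Root := .mk (.node (.node (.col (nat_lit 1)) (.node (.col (nat_lit 1)) (.node (.col (nat_lit 2)) (.slot (nat_lit 7)) (.slot (nat_lit 5))) (.slot (nat_lit 8))) (.node (.slot (nat_lit 0)) (.slot (nat_lit 0)) (.slot (nat_lit 0)))) (.node (.col (nat_lit 2)) (.slot (nat_lit 7)) (.slot (nat_lit 5))) (.slot (nat_lit 1))) (.col (nat_lit 2)) (.col (nat_lit 0)) (.node (.slot (nat_lit 0)) (.slot (nat_lit 1)) (.slot (nat_lit 1)))
def l5547 : Root := .mk (.col (nat_lit 1)) (.node (.col (nat_lit 1)) (.node (.col (nat_lit 2)) (.slot (nat_lit 20)) (.slot (nat_lit 9))) (.slot (nat_lit 21))) (.node (.node (.col (nat_lit 2)) (.col (nat_lit 0)) (.slot (nat_lit 21))) (.node (.col (nat_lit 2)) (.slot (nat_lit 7)) (.slot (nat_lit 5))) (.slot (nat_lit 9))) (.node (.slot (nat_lit 0)) (.slot (nat_lit 1)) (.slot (nat_lit 1)))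
def w24611 : Root := .mk (.node (.node (.col (nat_lit 1)) (.node (.col (nat_lit 1)) (.node (.col (nat_lit 2)) (.slot (nat_lit 20)) (.slot (nat_lit 9))) (.slot (nat_lit 21))) (.node (.slot (nat_lit 0)) (.slot (nat_lit 1)) (.slot (nat_lit 1)))) (.slot (nat_lit 8)) (.slot (nat_lit 9))) (.col (nat_lit 2)) (.col (nat_lit 0)) (.slot (nat_lit 21))
def l5549 : Root := .mk (.col (nat_lit 1)) (.node (.col (nat_lit 1)) (.node (.col (nat_lit 2)) (.slot (nat_lit 0)) (.slot (nat_lit 2))) (.slot (nat_lit 9))) (.node (.node (.col (nat_lit 2)) (.node (.col (nat_lit 3)) (.col (nat_lit 2)) (.slot (nat_lit 0))) (.slot (nat_lit 3))) (.col (nat_lit 3)) (.slot (nat_lit 3))) (.col (nat_lit 2))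
def w24625 : Root := .mk (.node (.node (.node (.col (nat_lit 1)) (.node (.col (nat_lit 1)) (.node (.col (nat_lit 2)) (.slot (nat_lit 0)) (.slot (nat_lit 2))) (.slot (nat_lit 9))) (.slot (nat_lit 1))) (.col (nat_lit 3)) (.slot (nat_lit 3))) (.col (nat_lit 2)) (.slot (nat_lit 3))) (.col (nat_lit 3)) (.col (nat_lit 2)) (.slot (nat_lit 0))
def w24648 : Root := .mk (.col (nat_lit 1)) (.slot (nat_lit 0)) (.node (.node (.col (nat_lit 2)) (.node (.col (nat_lit 3)) (.col (nat_lit 2)) (.node .junk (.col (nat_lit 1)) (.slot (nat_lit 1)))) (.slot (nat_lit 2))) (.col (nat_lit 4)) (.slot (nat_lit 1))) (.col (nat_lit 4))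
def w24673 : Root := .mk (.node (.col (nat_lit 1)) (.node (.node (.col (nat_lit 2)) (.slot (nat_lit 0)) (.slot (nat_lit 0))) (.col (nat_lit 3)) (.slot (nat_lit 1))) (.slot (nat_lit 3))) (.col (nat_lit 1)) (.node (.col (nat_lit 2)) .junk (.slot (nat_lit 1))) (.col (nat_lit 0))
def w24733 : Root := .mk (.node (.col (nat_lit 1)) (.node (.node (.col (nat_lit 2)) (.slot (nat_lit 0)) (.slot (nat_lit 0))) (.col (nat_lit 3)) (.node (.col (nat_lit 0)) (.slot (nat_lit 20)) (.slot (nat_lit 9)))) (.slot (nat_lit 2))) (.col (nat_lit 1)) (.node (.col (nat_lit 2)) (.slot (nat_lit 0)) (.slot (nat_lit 1))) (.col (nat_lit 0))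
def w24764 : Root := .mk (.node (.node (.col (nat_lit 1)) (.slot (nat_lit 0)) (.slot (nat_lit 0))) (.slot (nat_lit 20)) (.slot (nat_lit 9))) (.col (nat_lit 2)) (.node (.col (nat_lit 0)) (.col (nat_lit 2)) (.node .junk (.col (nat_lit 1)) (.slot (nat_lit 1)))) (.col (nat_lit 0))
def w24809 : Root := .mk (.node (.col (nat_lit 1)) (.slot (nat_lit 0)) (.slot (nat_lit 0))) (.node (.col (nat_lit 2)) (.node (.col (nat_lit 3)) (.col (nat_lit 2)) (.node (.slot (nat_lit 0)) (.slot (nat_lit 0)) (.slot (nat_lit 0)))) (.slot (nat_lit 1))) (.col (nat_lit 3)) (.col (nat_lit 0))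
def l5596 : Root := .mk (.node (.node (.col (nat_lit 1)) (.col (nat_lit 4)) (.slot (nat_lit 0))) (.node (.col (nat_lit 4)) (.slot (nat_lit 1)) (.slot (nat_lit 1))) (.col (nat_lit 3))) (.col (nat_lit 2)) (.node (.col (nat_lit 3)) (.col (nat_lit 2)) (.node (.slot (nat_lit 0)) (.slot (nat_lit 0)) (.slot (nat_lit 0)))) (.col (nat_lit 4))
def w24815 : Root := .mk (.node (.node (.node (.col (nat_lit 1)) (.col (nat_lit 4)) (.slot (nat_lit 0))) (.node (.col (nat_lit 4)) (.slot (nat_lit 1)) (.slot (nat_lit 1))) (.col (nat_lit 3))) (.col (nat_lit 2)) (.slot (nat_lit 1))) (.col (nat_lit 3)) (.col (nat_lit 2)) (.node (.slot (nat_lit 0)) (.slot (nat_lit 0)) (.slot (nat_lit 0)))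
def l5601 : Root := .mk (.node (.col (nat_lit 1)) (.col (nat_lit 2)) .junk) (.node (.col (nat_lit 2)) (.node (.col (nat_lit 0)) (.col (nat_lit 2)) (.node (.slot (nat_lit 0)) (.col (nat_lit 1)) (.slot (nat_lit 1)))) (.slot (nat_lit 2))) (.col (nat_lit 3)) (.col (nat_lit 4))
def w24880 : Root := .mk (.node (.node (.col (nat_lit 1)) (.slot (nat_lit 0)) (.slot (nat_lit 0))) (.slot (nat_lit 2)) (.slot (nat_lit 2))) (.col (nat_lit 2)) (.node (.node (.col (nat_lit 2)) (.col (nat_lit 1)) (.slot (nat_lit 3))) (.col (nat_lit 2)) (.node (.slot (nat_lit 0)) (.slot (nat_lit 0)) (.slot (nat_lit 0)))) (.col (nat_lit 1))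
def w24896 : Root := .mk (.node (.col (nat_lit 1)) (.node (.node (.col (nat_lit 2)) (.col (nat_lit 0)) (.slot (nat_lit 1))) (.slot (nat_lit 1)) (.slot (nat_lit 1))) (.node (.slot (nat_lit 0)) (.col (nat_lit 3)) (.slot (nat_lit 1)))) (.col (nat_lit 1)) (.node (.col (nat_lit 2)) .junk (.slot (nat_lit 1))) (.col (nat_lit 3))
def w24974 : Root := .mk (.node (.col (nat_lit 1)) (.node (.col (nat_lit 1)) (.slot (nat_lit 0)) (.slot (nat_lit 0))) (.slot (nat_lit 2))) (.col (nat_lit 1)) (.col (nat_lit 0)) (.node (.node (.col (nat_lit 1)) (.slot (nat_lit 1)) (.slot (nat_lit 21))) (.slot (nat_lit 20)) (.slot (nat_lit 12)))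
def w25016 : Root := .mk (.node (.col (nat_lit 1)) (.node (.slot (nat_lit 0)) (.col (nat_lit 1)) (.slot (nat_lit 0))) (.node (.col (nat_lit 0)) (.slot (nat_lit 20)) (.slot (nat_lit 9)))) (.col (nat_lit 1)) (.node (.col (nat_lit 2)) .junk (.slot (nat_lit 1))) (.col (nat_lit 3))
def w25021 : Root := .mk (.node (.node (.node (.col (nat_lit 1)) (.node (.col (nat_lit 1)) (.slot (nat_lit 0)) (.slot (nat_lit 0))) (.slot (nat_lit 3))) (.slot (nat_lit 1)) (.slot (nat_lit 1))) (.col (nat_lit 2)) (.slot (nat_lit 3))) (.node (.col (nat_lit 2)) (.node (.col (nat_lit 0)) (.slot (nat_lit 3)) (.slot (nat_lit 1))) (.slot (nat_lit 2))) (.col (nat_lit 2)) (.node (.node (.col (nat_lit 0)) (.slot (nat_lit 1)) (.slot (nat_lit 1))) (.slot (nat_lit 2)) (.slot (nat_lit 1)))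
def w25022 : Root := .mk (.node (.node (.node (.col (nat_lit 1)) (.slot (nat_lit 0)) (.slot (nat_lit 0))) (.slot (nat_lit 8)) (.slot (nat_lit 8))) (.col (nat_lit 2)) (.slot (nat_lit 8))) (.node (.col (nat_lit 2)) (.node (.col (nat_lit 0)) (.slot (nat_lit 8)) (.slot (nat_lit 8))) (.slot (nat_lit 8))) (.col (nat_lit 2)) (.node (.node (.col (nat_lit 1)) (.slot (nat_lit 4)) (.slot (nat_lit 1))) (.slot (nat_lit 9)) (.slot (nat_lit 8)))
def w25023 : Root := .mk (.node (.node (.node (.col (nat_lit 1)) (.slot (nat_lit 0)) (.slot (nat_lit 0))) (.slot (nat_lit 8)) (.slot (nat_lit 8))) (.col (nat_lit 2)) (.slot (nat_lit 8))) (.node (.col (nat_lit 2)) (.node (.col (nat_lit 0)) (.slot (nat_lit 8)) (.slot (nat_lit 8))) (.slot (nat_lit 8))) (.col (nat_lit 2)) (.node (.node (.col (nat_lit 2)) (.slot (nat_lit 8)) (.slot (nat_lit 8))) (.slot (nat_lit 9)) (.slot (nat_lit 8)))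
def w25024 : Root := .mk (.node (.node (.node (.col (nat_lit 1)) (.slot (nat_lit 0)) (.slot (nat_lit 0))) (.slot (nat_lit 8)) (.slot (nat_lit 8))) (.col (nat_lit 2)) (.slot (nat_lit 8))) (.node (.col (nat_lit 2)) (.node (.col (nat_lit 0)) (.slot (nat_lit 8)) (.slot (nat_lit 8))) (.slot (nat_lit 8))) (.col (nat_lit 2)) (.node (.node (.col (nat_lit 3)) (.slot (nat_lit 4)) (.slot (nat_lit 1))) (.slot (nat_lit 9)) (.slot (nat_lit 8)))
def l5625 : Root := .mk (.node (.node (.col (nat_lit 0)) (.node (.col (nat_lit 0)) (.slot (nat_lit 0)) (.slot (nat_lit 0))) (.slot (nat_lit 3))) (.col (nat_lit 2)) (.slot (nat_lit 3))) (.node (.col (nat_lit 2)) (.node (.col (nat_lit 0)) (.slot (nat_lit 12)) (.slot (nat_lit 20))) (.slot (nat_lit 21))) (.col (nat_lit 2)) (.node (.col (nat_lit 1)) (.slot (nat_lit 20)) (.slot (nat_lit 9)))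
def w25025 : Root := .mk (.node (.node (.col (nat_lit 0)) (.node (.col (nat_lit 0)) (.slot (nat_lit 0)) (.slot (nat_lit 0))) (.slot (nat_lit 3))) (.col (nat_lit 2)) (.slot (nat_lit 3))) (.node (.col (nat_lit 2)) (.node (.col (nat_lit 0)) (.slot (nat_lit 20)) (.slot (nat_lit 12))) (.slot (nat_lit 21))) (.col (nat_lit 2)) (.node (.node (.slot (nat_lit 0)) (.slot (nat_lit 0)) (.slot (nat_lit 0))) (.slot (nat_lit 20)) (.slot (nat_lit 9)))
def w25026 : Root := .mk (.node (.col (nat_lit 0)) (.slot (nat_lit 4)) (.slot (nat_lit 1))) (.col (nat_lit 2)) (.node (.node (.col (nat_lit 2)) (.node (.col (nat_lit 0)) (.slot (nat_lit 1)) (.slot (nat_lit 1))) (.slot (nat_lit 2))) (.col (nat_lit 2)) (.node (.node (.slot (nat_lit 0)) (.slot (nat_lit 0)) (.slot (nat_lit 0))) (.slot (nat_lit 3)) (.slot (nat_lit 3)))) (.col (nat_lit 0))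
def w25027 : Root := .mk (.node (.node (.slot (nat_lit 0)) (.col (nat_lit 2)) (.slot (nat_lit 0))) (.col (nat_lit 2)) (.node (.node (.slot (nat_lit 0)) (.slot (nat_lit 0)) (.slot (nat_lit 0))) (.slot (nat_lit 3)) (.slot (nat_lit 3)))) (.col (nat_lit 2)) (.node (.col (nat_lit 0)) (.col (nat_lit 1)) (.slot (nat_lit 4))) (.col (nat_lit 1))
def w25030 : Root := .mk (.node (.node (.slot (nat_lit 0)) (.col (nat_lit 2)) (.slot (nat_lit 0))) (.col (nat_lit 2)) (.node (.node (.slot (nat_lit 0)) (.slot (nat_lit 0)) (.slot (nat_lit 0))) (.slot (nat_lit 2)) (.slot (nat_lit 2)))) (.col (nat_lit 2)) (.node (.col (nat_lit 0)) (.col (nat_lit 2)) (.slot (nat_lit 3))) (.col (nat_lit 1))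
def w25038 : Root := .mk (.node (.node (.col (nat_lit 0)) (.col (nat_lit 2)) (.slot (nat_lit 3))) (.col (nat_lit 2)) (.node (.slot (nat_lit 0)) (.col (nat_lit 0)) (.slot (nat_lit 0)))) (.col (nat_lit 0)) (.col (nat_lit 2)) (.node (.node (.slot (nat_lit 0)) (.slot (nat_lit 0)) (.slot (nat_lit 0))) (.slot (nat_lit 2)) (.slot (nat_lit 2)))
def w25040 : Root := .mk (.node (.node (.col (nat_lit 0)) (.node (.col (nat_lit 0)) (.slot (nat_lit 0)) (.slot (nat_lit 0))) (.slot (nat_lit 3))) (.col (nat_lit 2)) (.node (.slot (nat_lit 0)) (.col (nat_lit 0)) (.slot (nat_lit 1)))) (.col (nat_lit 0)) (.col (nat_lit 2)) (.node (.node (.slot (nat_lit 0)) (.slot (nat_lit 0)) (.slot (nat_lit 0))) (.slot (nat_lit 2)) (.slot (nat_lit 2)))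
def w25045 : Root := .mk (.node (.node (.col (nat_lit 0)) (.node (.slot (nat_lit 0)) (.slot (nat_lit 0)) (.slot (nat_lit 0))) (.slot (nat_lit 3))) (.col (nat_lit 2)) (.node (.slot (nat_lit 0)) (.col (nat_lit 0)) (.slot (nat_lit 1)))) (.col (nat_lit 0)) (.col (nat_lit 2)) (.node (.node (.slot (nat_lit 0)) (.slot (nat_lit 0)) (.slot (nat_lit 0))) (.slot (nat_lit 2)) (.slot (nat_lit 2)))
def l5632 : Root := .mk (.node (.node (.node (.col (nat_lit 0)) (.node (.slot (nat_lit 0)) (.slot (nat_lit 0)) (.slot (nat_lit 0))) (.slot (nat_lit 3))) (.col (nat_lit 2)) (.node (.slot (nat_lit 0)) (.col (nat_lit 0)) (.slot (nat_lit 1)))) (.col (nat_lit 2)) (.node (.node (.slot (nat_lit 0)) (.slot (nat_lit 0)) (.slot (nat_lit 0))) (.slot (nat_lit 3)) (.slot (nat_lit 3)))) (.col (nat_lit 2)) (.node (.col (nat_lit 0)) (.slot (nat_lit 20)) (.slot (nat_lit 9))) (.col (nat_lit 1))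
def w25046 : Root := .mk (.node (.col (nat_lit 0)) (.node (.slot (nat_lit 0)) (.slot (nat_lit 0)) (.slot (nat_lit 0))) (.slot (nat_lit 3))) (.col (nat_lit 2)) (.node (.node (.col (nat_lit 2)) (.node (.col (nat_lit 0)) (.slot (nat_lit 20)) (.slot (nat_lit 9))) (.slot (nat_lit 1))) (.col (nat_lit 2)) (.node (.node (.slot (nat_lit 0)) (.slot (nat_lit 0)) (.slot (nat_lit 0))) (.slot (nat_lit 3)) (.slot (nat_lit 3)))) (.node (.slot (nat_lit 0)) (.col (nat_lit 0)) (.slot (nat_lit 1)))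
def l5634 : Root := .mk (.node (.node (.node (.col (nat_lit 0)) (.slot (nat_lit 20)) (.slot (nat_lit 9))) (.col (nat_lit 2)) (.node (.slot (nat_lit 0)) (.slot (nat_lit 0)) (.slot (nat_lit 0)))) (.col (nat_lit 2)) (.node (.node (.slot (nat_lit 0)) (.slot (nat_lit 0)) (.slot (nat_lit 0))) (.slot (nat_lit 3)) (.slot (nat_lit 3)))) (.col (nat_lit 2)) (.node (.col (nat_lit 0)) (.slot (nat_lit 5)) (.slot (nat_lit 7))) (.node (.col (nat_lit 0)) (.slot (nat_lit 7)) (.slot (nat_lit 5)))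
def w25048 : Root := .mk (.node (.col (nat_lit 0)) (.slot (nat_lit 20)) (.slot (nat_lit 9))) (.col (nat_lit 2)) (.node (.node (.col (nat_lit 2)) (.node (.col (nat_lit 0)) (.slot (nat_lit 7)) (.slot (nat_lit 5))) (.slot (nat_lit 8))) (.col (nat_lit 2)) (.node (.node (.slot (nat_lit 0)) (.slot (nat_lit 0)) (.slot (nat_lit 0))) (.slot (nat_lit 3)) (.slot (nat_lit 3)))) (.node (.slot (nat_lit 0)) (.slot (nat_lit 0)) (.slot (nat_lit 0)))
def l5635 : Root := .mk (.node (.node (.col (nat_lit 0)) (.slot (nat_lit 20)) (.slot (nat_lit 12))) (.col (nat_lit 2)) (.slot (nat_lit 21))) (.node (.col (nat_lit 2)) (.node (.col (nat_lit 0)) (.slot (nat_lit 20)) (.slot (nat_lit 12))) (.slot (nat_lit 21))) (.col (nat_lit 2)) (.node (.node (.slot (nat_lit 0)) (.slot (nat_lit 0)) (.slot (nat_lit 0))) (.slot (nat_lit 20)) (.slot (nat_lit 9)))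
def w25049 : Root := .mk (.node (.node (.node (.col (nat_lit 1)) (.slot (nat_lit 0)) (.slot (nat_lit 0))) (.slot (nat_lit 20)) (.slot (nat_lit 12))) (.col (nat_lit 2)) (.slot (nat_lit 21))) (.node (.col (nat_lit 2)) (.node (.col (nat_lit 0)) (.slot (nat_lit 20)) (.slot (nat_lit 12))) (.slot (nat_lit 21))) (.col (nat_lit 2)) (.node (.node (.slot (nat_lit 0)) (.slot (nat_lit 0)) (.slot (nat_lit 0))) (.slot (nat_lit 20)) (.slot (nat_lit 9)))
def w25050 : Root := .mk (.node (.col (nat_lit 1)) (.node (.col (nat_lit 1)) (.slot (nat_lit 0)) (.slot (nat_lit 0))) (.slot (nat_lit 3))) (.node (.col (nat_lit 2)) (.node (.node (.col (nat_lit 2)) (.node (.col (nat_lit 0)) (.col (nat_lit 2)) (.slot (nat_lit 3))) (.slot (nat_lit 1))) (.col (nat_lit 2)) (.slot (nat_lit 3))) (.slot (nat_lit 3))) (.col (nat_lit 0)) (.col (nat_lit 1))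
def w25051 : Root := .mk (.node (.col (nat_lit 1)) (.node (.col (nat_lit 1)) (.slot (nat_lit 0)) (.slot (nat_lit 0))) (.slot (nat_lit 1))) (.node (.col (nat_lit 2)) (.node (.slot (nat_lit 0)) (.col (nat_lit 2)) (.slot (nat_lit 0))) (.node (.col (nat_lit 0)) (.col (nat_lit 2)) (.slot (nat_lit 1)))) (.col (nat_lit 0)) (.col (nat_lit 2))
def l5636 : Root := .mk (.node (.col (nat_lit 1)) (.node (.col (nat_lit 1)) (.slot (nat_lit 0)) (.slot (nat_lit 0))) (.slot (nat_lit 1))) (.node (.col (nat_lit 2)) (.node (.node (.col (nat_lit 2)) (.node (.col (nat_lit 0)) (.col (nat_lit 2)) (.slot (nat_lit 3))) (.slot (nat_lit 1))) (.col (nat_lit 2)) (.slot (nat_lit 3))) (.node (.col (nat_lit 0)) (.slot (nat_lit 7)) (.slot (nat_lit 5)))) (.col (nat_lit 0)) (.col (nat_lit 2))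
def w25052 : Root := .mk (.node (.col (nat_lit 1)) (.node (.col (nat_lit 1)) (.slot (nat_lit 0)) (.slot (nat_lit 0))) (.slot (nat_lit 1))) (.node (.col (nat_lit 2)) (.node (.node (.col (nat_lit 2)) (.node (.col (nat_lit 0)) (.col (nat_lit 2)) (.slot (nat_lit 3))) (.slot (nat_lit 1))) (.col (nat_lit 2)) (.slot (nat_lit 3))) (.slot (nat_lit 8))) (.col (nat_lit 0)) (.col (nat_lit 2))
def w25053 : Root := .mk (.col (nat_lit 3)) (.node (.col (nat_lit 2)) (.node (.node (.col (nat_lit 2)) (.node (.col (nat_lit 0)) (.col (nat_lit 2)) (.slot (nat_lit 3))) (.slot (nat_lit 1))) (.col (nat_lit 2)) (.slot (nat_lit 3))) (.slot (nat_lit 3))) (.col (nat_lit 0)) (.node (.col (nat_lit 0)) (.slot (nat_lit 3)) (.slot (nat_lit 1)))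
def l5637 : Root := .mk (.col (nat_lit 1)) (.col (nat_lit 2)) (.node (.node (.col (nat_lit 2)) (.node (.node (.col (nat_lit 2)) (.node (.col (nat_lit 0)) (.col (nat_lit 2)) (.slot (nat_lit 3))) (.slot (nat_lit 1))) (.col (nat_lit 2)) (.slot (nat_lit 3))) (.slot (nat_lit 3))) (.col (nat_lit 0)) (.node (.col (nat_lit 0)) (.slot (nat_lit 3)) (.slot (nat_lit 1)))) (.slot (nat_lit 5))
def w25054 : Root := .mk (.node (.col (nat_lit 1)) (.node (.col (nat_lit 1)) (.slot (nat_lit 0)) (.slot (nat_lit 0))) (.slot (nat_lit 5))) (.node (.col (nat_lit 2)) (.node (.node (.col (nat_lit 2)) (.node (.col (nat_lit 0)) (.col (nat_lit 2)) (.slot (nat_lit 3))) (.slot (nat_lit 1))) (.col (nat_lit 2)) (.slot (nat_lit 3))) (.slot (nat_lit 3))) (.col (nat_lit 0)) (.node (.col (nat_lit 0)) (.slot (nat_lit 3)) (.slot (nat_lit 1)))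
def l5638 : Root := .mk (.node (.node (.col (nat_lit 1)) (.slot (nat_lit 0)) (.slot (nat_lit 1))) (.col (nat_lit 0)) (.node (.slot (nat_lit 0)) (.slot (nat_lit 2)) (.slot (nat_lit 2)))) (.col (nat_lit 2)) (.node (.node (.col (nat_lit 2)) (.node (.col (nat_lit 0)) (.col (nat_lit 2)) (.slot (nat_lit 8))) (.slot (nat_lit 1))) (.col (nat_lit 2)) (.slot (nat_lit 4))) (.node (.col (nat_lit 0)) (.slot (nat_lit 8)) (.slot (nat_lit 8)))
def w25055 : Root := .mk (.node (.col (nat_lit 1)) (.slot (nat_lit 0)) (.slot (nat_lit 1))) (.node (.col (nat_lit 2)) (.node (.node (.col (nat_lit 2)) (.node (.col (nat_lit 0)) (.col (nat_lit 2)) (.slot (nat_lit 8))) (.slot (nat_lit 1))) (.col (nat_lit 2)) (.slot (nat_lit 4))) (.slot (nat_lit 9))) (.col (nat_lit 0)) (.node (.slot (nat_lit 0)) (.slot (nat_lit 2)) (.slot (nat_lit 2)))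
def l5639 : Root := .mk (.col (nat_lit 1)) (.node (.col (nat_lit 1)) (.slot (nat_lit 3)) (.slot (nat_lit 1))) (.node (.node (.col (nat_lit 2)) (.node (.node (.col (nat_lit 2)) (.node (.col (nat_lit 0)) (.col (nat_lit 2)) (.slot (nat_lit 3))) (.slot (nat_lit 1))) (.col (nat_lit 2)) (.slot (nat_lit 3))) (.node (.col (nat_lit 0)) (.slot (nat_lit 8)) (.slot (nat_lit 8)))) (.col (nat_lit 0)) (.slot (nat_lit 3))) (.col (nat_lit 0))
def w25056 : Root := .mk (.col (nat_lit 1)) (.node (.col (nat_lit 1)) (.slot (nat_lit 3)) (.slot (nat_lit 1))) (.node (.node (.col (nat_lit 2)) (.node (.node (.col (nat_lit 2)) (.node (.col (nat_lit 0)) (.col (nat_lit 2)) (.slot (nat_lit 3))) (.slot (nat_lit 1))) (.col (nat_lit 2)) (.slot (nat_lit 3))) (.slot (nat_lit 9))) (.col (nat_lit 0)) (.slot (nat_lit 3))) (.col (nat_lit 0))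
def w25057 : Root := .mk (.node (.node (.node (.col (nat_lit 1)) (.node (.col (nat_lit 1)) (.slot (nat_lit 0)) (.slot (nat_lit 0))) (.node (.col (nat_lit 1)) (.slot (nat_lit 0)) (.slot (nat_lit 0)))) (.col (nat_lit 0)) (.slot (nat_lit 3))) (.col (nat_lit 2)) (.slot (nat_lit 1))) (.node (.col (nat_lit 2)) (.node (.col (nat_lit 0)) .junk (.slot (nat_lit 1))) (.col (nat_lit 3))) (.col (nat_lit 2)) (.col (nat_lit 1))
def w25058 : Root := .mk (.node (.node (.node (.col (nat_lit 1)) (.node (.col (nat_lit 1)) (.slot (nat_lit 0)) (.slot (nat_lit 0))) (.node (.col (nat_lit 1)) (.slot (nat_lit 0)) (.slot (nat_lit 0)))) (.col (nat_lit 0)) (.slot (nat_lit 3))) (.col (nat_lit 2)) (.slot (nat_lit 1))) (.node (.col (nat_lit 2)) (.node (.col (nat_lit 0)) .junk (.slot (nat_lit 1))) (.col (nat_lit 3))) (.col (nat_lit 2)) (.col (nat_lit 4))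
def w25059 : Root := .mk (.node (.node (.node (.node (.col (nat_lit 1)) (.slot (nat_lit 0)) (.slot (nat_lit 0))) (.col (nat_lit 0)) (.slot (nat_lit 1))) (.col (nat_lit 2)) (.slot (nat_lit 3))) (.col (nat_lit 2)) (.node (.col (nat_lit 0)) (.slot (nat_lit 1)) .junk)) (.col (nat_lit 2)) (.node (.col (nat_lit 0)) .junk (.slot (nat_lit 1))) (.col (nat_lit 3))
def w25060 : Root := .mk (.node (.node (.node (.node (.col (nat_lit 1)) (.node (.col (nat_lit 1)) (.slot (nat_lit 0)) (.slot (nat_lit 0))) (.node (.col (nat_lit 1)) (.slot (nat_lit 0)) (.slot (nat_lit 0)))) (.col (nat_lit 0)) (.slot (nat_lit 3))) (.col (nat_lit 2)) (.slot (nat_lit 2))) (.col (nat_lit 2)) (.node (.col (nat_lit 2)) (.slot (nat_lit 0)) (.slot (nat_lit 0)))) (.col (nat_lit 2)) (.node (.col (nat_lit 0)) (.col (nat_lit 2)) (.slot (nat_lit 2))) (.col (nat_lit 3))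
def w25061 : Root := .mk (.node (.node (.node (.node (.col (nat_lit 1)) (.node (.col (nat_lit 1)) (.slot (nat_lit 0)) (.slot (nat_lit 0))) (.node (.col (nat_lit 1)) (.slot (nat_lit 0)) (.slot (nat_lit 0)))) (.col (nat_lit 0)) (.slot (nat_lit 3))) (.col (nat_lit 2)) (.slot (nat_lit 2))) (.col (nat_lit 2)) (.node (.slot (nat_lit 0)) (.slot (nat_lit 0)) (.slot (nat_lit 0)))) (.col (nat_lit 2)) (.node (.col (nat_lit 0)) (.col (nat_lit 2)) (.slot (nat_lit 2))) (.col (nat_lit 3))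
def l5640 : Root := .mk (.node (.node (.node (.col (nat_lit 3)) (.col (nat_lit 2)) (.slot (nat_lit 5))) (.col (nat_lit 2)) (.node (.col (nat_lit 3)) (.slot (nat_lit 10)) (.slot (nat_lit 10)))) (.col (nat_lit 2)) (.col (nat_lit 3))) (.col (nat_lit 0)) (.col (nat_lit 2)) (.col (nat_lit 3))
def w25062 : Root := .mk (.node (.node (.node (.col (nat_lit 3)) (.col (nat_lit 2)) (.slot (nat_lit 5))) (.col (nat_lit 2)) (.slot (nat_lit 11))) (.col (nat_lit 2)) (.col (nat_lit 3))) (.col (nat_lit 0)) (.col (nat_lit 2)) (.col (nat_lit 3))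
def w25063 : Root := .mk (.node (.node (.node (.node (.node (.col (nat_lit 1)) (.node (.col (nat_lit 1)) (.slot (nat_lit 0)) (.slot (nat_lit 0))) (.node (.col (nat_lit 1)) (.slot (nat_lit 0)) (.slot (nat_lit 0)))) (.col (nat_lit 0)) (.slot (nat_lit 3))) (.col (nat_lit 2)) (.slot (nat_lit 5))) (.col (nat_lit 2)) (.slot (nat_lit 11))) (.col (nat_lit 2)) (.col (nat_lit 3))) (.col (nat_lit 0)) (.col (nat_lit 2)) (.col (nat_lit 3))
def w25064 : Root := .mk (.col (nat_lit 1)) (.node (.col (nat_lit 1)) (.slot (nat_lit 0)) (.slot (nat_lit 0))) (.node (.node (.col (nat_lit 2)) (.node (.col (nat_lit 4)) .junk (.col (nat_lit 1))) (.slot (nat_lit 1))) (.col (nat_lit 0)) (.slot (nat_lit 3))) (.node (.col (nat_lit 1)) (.slot (nat_lit 0)) (.slot (nat_lit 0)))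
def l5641 : Root := .mk (.node (.node (.node (.col (nat_lit 1)) (.node (.col (nat_lit 1)) (.slot (nat_lit 0)) (.slot (nat_lit 0))) (.node (.col (nat_lit 1)) (.slot (nat_lit 0)) (.slot (nat_lit 0)))) (.col (nat_lit 0)) (.slot (nat_lit 3))) (.col (nat_lit 2)) (.slot (nat_lit 3))) (.col (nat_lit 4)) (.col (nat_lit 2)) (.node (.col (nat_lit 3)) (.slot (nat_lit 20)) (.slot (nat_lit 9)))
def w25065 : Root := .mk (.node (.node (.node (.col (nat_lit 1)) (.node (.col (nat_lit 1)) (.slot (nat_lit 0)) (.slot (nat_lit 0))) (.node (.col (nat_lit 1)) (.slot (nat_lit 0)) (.slot (nat_lit 0)))) (.col (nat_lit 0)) (.slot (nat_lit 3))) (.col (nat_lit 2)) (.slot (nat_lit 3))) (.col (nat_lit 4)) (.col (nat_lit 2)) (.slot (nat_lit 21))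
def w25066 : Root := .mk (.node (.node (.node (.node (.col (nat_lit 1)) (.node (.col (nat_lit 1)) (.slot (nat_lit 0)) (.slot (nat_lit 0))) (.node (.col (nat_lit 1)) (.slot (nat_lit 0)) (.slot (nat_lit 0)))) (.col (nat_lit 0)) (.slot (nat_lit 3))) (.col (nat_lit 2)) (.slot (nat_lit 3))) (.col (nat_lit 2)) (.slot (nat_lit 21))) (.col (nat_lit 2)) (.node (.col (nat_lit 0)) .junk (.node (.col (nat_lit 0)) (.slot (nat_lit 0)) (.slot (nat_lit 0)))) (.col (nat_lit 3))
def w25067 : Root := .mk (.node (.node (.node (.node (.col (nat_lit 1)) (.node (.col (nat_lit 1)) (.slot (nat_lit 0)) (.slot (nat_lit 0))) (.node (.col (nat_lit 1)) (.slot (nat_lit 0)) (.slot (nat_lit 0)))) (.col (nat_lit 0)) (.slot (nat_lit 3))) (.col (nat_lit 2)) (.slot (nat_lit 3))) (.col (nat_lit 2)) (.slot (nat_lit 21))) (.col (nat_lit 2)) (.node (.col (nat_lit 0)) .junk (.node (.col (nat_lit 2)) (.slot (nat_lit 0)) (.slot (nat_lit 0)))) (.col (nat_lit 3))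
def w25068 : Root := .mk (.node (.node (.node (.node (.node (.col (nat_lit 1)) (.node (.col (nat_lit 1)) (.slot (nat_lit 0)) (.slot (nat_lit 0))) (.node (.col (nat_lit 1)) (.slot (nat_lit 0)) (.slot (nat_lit 0)))) (.col (nat_lit 0)) (.slot (nat_lit 3))) (.col (nat_lit 2)) (.slot (nat_lit 1))) (.col (nat_lit 2)) (.slot (nat_lit 4))) (.col (nat_lit 2)) (.col (nat_lit 3))) (.col (nat_lit 0)) (.col (nat_lit 2)) (.node (.slot (nat_lit 0)) (.slot (nat_lit 0)) (.slot (nat_lit 0)))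
def w25069 : Root := .mk (.node (.node (.col (nat_lit 1)) (.node (.col (nat_lit 1)) (.slot (nat_lit 0)) (.slot (nat_lit 0))) (.node (.col (nat_lit 1)) (.slot (nat_lit 0)) (.slot (nat_lit 0)))) (.col (nat_lit 0)) (.slot (nat_lit 3))) (.col (nat_lit 2)) (.node (.node (.col (nat_lit 2)) (.node (.col (nat_lit 0)) .junk (.slot (nat_lit 1))) (.col (nat_lit 3))) (.col (nat_lit 2)) (.slot (nat_lit 1))) (.col (nat_lit 0))
def l5642 : Root := .mk (.node (.node (.node (.node (.col (nat_lit 1)) (.node (.col (nat_lit 1)) (.slot (nat_lit 0)) (.slot (nat_lit 0))) (.node (.col (nat_lit 1)) (.slot (nat_lit 0)) (.slot (nat_lit 0)))) (.col (nat_lit 0)) (.slot (nat_lit 3))) (.col (nat_lit 2)) (.slot (nat_lit 8))) (.col (nat_lit 2)) (.slot (nat_lit 21))) (.col (nat_lit 2)) (.node (.col (nat_lit 0)) (.col (nat_lit 2)) (.slot (nat_lit 8))) (.col (nat_lit 3))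
def w25070 : Root := .mk (.col (nat_lit 1)) (.node (.col (nat_lit 1)) (.slot (nat_lit 0)) (.slot (nat_lit 0))) (.node (.node (.col (nat_lit 2)) (.node (.node (.col (nat_lit 2)) (.node (.col (nat_lit 0)) (.col (nat_lit 2)) (.slot (nat_lit 8))) (.slot (nat_lit 1))) (.col (nat_lit 2)) (.slot (nat_lit 21))) (.slot (nat_lit 8))) (.col (nat_lit 0)) (.slot (nat_lit 3))) (.node (.col (nat_lit 1)) (.slot (nat_lit 0)) (.slot (nat_lit 0)))
def w25071 : Root := .mk (.node (.node (.col (nat_lit 1)) (.node (.col (nat_lit 1)) (.slot (nat_lit 0)) (.slot (nat_lit 0))) (.slot (nat_lit 2))) (.col (nat_lit 0)) (.slot (nat_lit 2))) (.col (nat_lit 2)) (.node (.node (.col (nat_lit 2)) (.node (.col (nat_lit 0)) (.col (nat_lit 2)) (.slot (nat_lit 2))) (.slot (nat_lit 8))) (.col (nat_lit 2)) (.slot (nat_lit 1))) (.col (nat_lit 0))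
def w25073 : Root := .mk (.node (.node (.node (.col (nat_lit 1)) (.node (.col (nat_lit 1)) (.slot (nat_lit 0)) (.slot (nat_lit 0))) (.slot (nat_lit 2))) (.col (nat_lit 0)) (.slot (nat_lit 2))) (.col (nat_lit 2)) (.node (.col (nat_lit 2)) (.slot (nat_lit 3)) (.slot (nat_lit 1)))) (.col (nat_lit 1)) (.col (nat_lit 2)) (.slot (nat_lit 3))
def w25074 : Root := .mk (.node (.node (.col (nat_lit 1)) (.node (.col (nat_lit 1)) (.slot (nat_lit 0)) (.slot (nat_lit 0))) (.slot (nat_lit 2))) (.col (nat_lit 0)) (.slot (nat_lit 2))) (.col (nat_lit 2)) (.node (.node (.col (nat_lit 2)) (.node (.col (nat_lit 0)) (.col (nat_lit 2)) (.slot (nat_lit 2))) (.slot (nat_lit 8))) (.col (nat_lit 2)) (.slot (nat_lit 3))) (.node (.col (nat_lit 2)) (.slot (nat_lit 3)) (.slot (nat_lit 1)))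
def w25075 : Root := .mk (.node (.node (.col (nat_lit 1)) (.slot (nat_lit 0)) (.slot (nat_lit 0))) (.col (nat_lit 0)) (.slot (nat_lit 3))) (.col (nat_lit 2)) (.node (.node (.col (nat_lit 2)) (.slot (nat_lit 0)) (.slot (nat_lit 0))) (.col (nat_lit 2)) (.slot (nat_lit 3))) (.node (.col (nat_lit 3)) (.slot (nat_lit 7)) (.slot (nat_lit 5)))
def w25076 : Root := .mk (.node (.col (nat_lit 1)) (.col (nat_lit 2)) (.slot (nat_lit 3))) (.node (.col (nat_lit 2)) (.node (.node (.col (nat_lit 2)) (.col (nat_lit 1)) (.slot (nat_lit 4))) (.col (nat_lit 2)) (.slot (nat_lit 4))) (.node (.slot (nat_lit 0)) (.slot (nat_lit 0)) (.slot (nat_lit 0)))) (.col (nat_lit 0)) (.col (nat_lit 2))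
def l5643 : Root := .mk (.col (nat_lit 1)) (.col (nat_lit 2)) (.node (.node (.col (nat_lit 2)) (.node (.node (.col (nat_lit 2)) (.col (nat_lit 1)) (.slot (nat_lit 4))) (.col (nat_lit 2)) (.slot (nat_lit 8))) (.node (.slot (nat_lit 0)) (.slot (nat_lit 1)) (.slot (nat_lit 1)))) (.col (nat_lit 0)) (.slot (nat_lit 2))) (.slot (nat_lit 3))
def w25077 : Root := .mk (.node (.node (.node (.node (.col (nat_lit 1)) (.node (.col (nat_lit 1)) (.slot (nat_lit 0)) (.slot (nat_lit 0))) (.slot (nat_lit 3))) (.col (nat_lit 0)) (.slot (nat_lit 2))) (.col (nat_lit 2)) (.node (.slot (nat_lit 0)) (.slot (nat_lit 1)) (.slot (nat_lit 1)))) (.col (nat_lit 2)) (.slot (nat_lit 8))) (.col (nat_lit 2)) (.col (nat_lit 1)) (.slot (nat_lit 4))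
def w25078 : Root := .mk (.node (.node (.col (nat_lit 1)) (.node (.col (nat_lit 1)) (.slot (nat_lit 0)) (.slot (nat_lit 0))) (.slot (nat_lit 2))) (.col (nat_lit 0)) (.slot (nat_lit 2))) (.col (nat_lit 2)) (.node (.node (.col (nat_lit 2)) (.node (.col (nat_lit 0)) .junk (.col (nat_lit 3))) (.slot (nat_lit 1))) (.col (nat_lit 2)) (.slot (nat_lit 8))) (.node (.slot (nat_lit 0)) (.slot (nat_lit 1)) (.slot (nat_lit 1)))
def w25079 : Root := .mk (.node (.node (.node (.node (.node (.col (nat_lit 1)) (.node (.col (nat_lit 1)) (.slot (nat_lit 0)) (.slot (nat_lit 0))) (.slot (nat_lit 2))) (.col (nat_lit 0)) (.slot (nat_lit 2))) (.col (nat_lit 2)) (.node (.slot (nat_lit 0)) (.slot (nat_lit 0)) (.slot (nat_lit 0)))) (.col (nat_lit 2)) (.slot (nat_lit 8))) (.col (nat_lit 2)) (.slot (nat_lit 3))) (.col (nat_lit 0)) (.col (nat_lit 2)) (.node (.col (nat_lit 1)) (.node (.col (nat_lit 1)) (.slot (nat_lit 0)) (.slot (nat_lit 0))) (.slot (nat_lit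 1)))
def w25080 : Root := .mk (.node (.node (.node (.node (.node (.col (nat_lit 1)) (.node (.col (nat_lit 1)) (.slot (nat_lit 0)) (.slot (nat_lit 0))) (.slot (nat_lit 2))) (.col (nat_lit 0)) (.slot (nat_lit 2))) (.col (nat_lit 2)) (.node (.slot (nat_lit 0)) (.slot (nat_lit 0)) (.slot (nat_lit 0)))) (.col (nat_lit 2)) (.slot (nat_lit 2))) (.col (nat_lit 2)) (.slot (nat_lit 2))) (.col (nat_lit 0)) (.col (nat_lit 2)) (.node (.col (nat_lit 1)) (.node (.slot (nat_lit 0)) (.slot (nat_lit 0)) (.slot (nat_lit 0))) (.slot (nat_lit 1)))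
def l5644 : Root := .mk (.node (.node (.node (.node (.node (.col (nat_lit 1)) (.node (.col (nat_lit 1)) (.slot (nat_lit 0)) (.slot (nat_lit 0))) (.slot (nat_lit 3))) (.col (nat_lit 0)) (.slot (nat_lit 2))) (.col (nat_lit 2)) (.node (.slot (nat_lit 0)) (.slot (nat_lit 1)) (.slot (nat_lit 1)))) (.col (nat_lit 2)) (.slot (nat_lit 8))) (.col (nat_lit 2)) (.slot (nat_lit 4))) (.col (nat_lit 0)) (.col (nat_lit 2)) (.node (.col (nat_lit 1)) (.slot (nat_lit 20)) (.slot (nat_lit 9)))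
def w25081 : Root := .mk (.node (.node (.col (nat_lit 1)) (.node (.col (nat_lit 1)) (.slot (nat_lit 0)) (.slot (nat_lit 0))) (.slot (nat_lit 3))) (.col (nat_lit 0)) (.slot (nat_lit 2))) (.col (nat_lit 2)) (.node (.node (.col (nat_lit 2)) (.node (.col (nat_lit 0)) (.col (nat_lit 2)) (.slot (nat_lit 21))) (.slot (nat_lit 4))) (.col (nat_lit 2)) (.slot (nat_lit 8))) (.node (.slot (nat_lit 0)) (.slot (nat_lit 1)) (.slot (nat_lit 1)))
def w25082 : Root := .mk (.node (.node (.node (.col (nat_lit 1)) (.node (.col (nat_lit 1)) (.slot (nat_lit 0)) (.slot (nat_lit 0))) (.slot (nat_lit 2))) (.col (nat_lit 0)) (.slot (nat_lit 2))) (.col (nat_lit 2)) (.slot (nat_lit 3))) (.node (.col (nat_lit 2)) (.node (.col (nat_lit 0)) (.col (nat_lit 2)) (.slot (nat_lit 0))) (.slot (nat_lit 3))) (.col (nat_lit 2)) (.col (nat_lit 1))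
def w25083 : Root := .mk (.node (.node (.node (.col (nat_lit 1)) (.node (.col (nat_lit 1)) (.slot (nat_lit 0)) (.slot (nat_lit 0))) (.slot (nat_lit 2))) (.col (nat_lit 0)) (.slot (nat_lit 2))) (.col (nat_lit 2)) (.slot (nat_lit 1))) (.node (.col (nat_lit 2)) (.node (.col (nat_lit 0)) .junk (.col (nat_lit 4))) (.slot (nat_lit 1))) (.col (nat_lit 2)) (.col (nat_lit 3))
def w25085 : Root := .mk (.node (.node (.node (.node (.node (.col (nat_lit 1)) (.slot (nat_lit 0)) (.slot (nat_lit 1))) (.col (nat_lit 0)) (.slot (nat_lit 1))) (.col (nat_lit 2)) (.slot (nat_lit 1))) (.col (nat_lit 2)) (.col (nat_lit 3))) (.col (nat_lit 2)) (.slot (nat_lit 1))) (.col (nat_lit 0)) (.col (nat_lit 2)) (.node (.col (nat_lit 1)) (.node (.slot (nat_lit 0)) (.slot (nat_lit 0)) (.slot (nat_lit 0))) .junk)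
def l5645 : Root := .mk (.node (.node (.node (.node (.node (.col (nat_lit 1)) (.node (.col (nat_lit 1)) (.slot (nat_lit 0)) (.slot (nat_lit 0))) (.slot (nat_lit 2))) (.col (nat_lit 0)) (.slot (nat_lit 3))) (.col (nat_lit 2)) (.slot (nat_lit 3))) (.col (nat_lit 2)) (.col (nat_lit 3))) (.col (nat_lit 2)) (.slot (nat_lit 3))) (.col (nat_lit 0)) (.col (nat_lit 2)) (.node (.col (nat_lit 1)) (.slot (nat_lit 20)) (.slot (nat_lit 9)))
def w25086 : Root := .mk (.node (.node (.node (.col (nat_lit 1)) (.node (.col (nat_lit 1)) (.slot (nat_lit 0)) (.slot (nat_lit 0))) (.slot (nat_lit 2))) (.col (nat_lit 0)) (.slot (nat_lit 3))) (.col (nat_lit 2)) (.slot (nat_lit 3))) (.node (.col (nat_lit 2)) (.node (.col (nat_lit 0)) (.col (nat_lit 2)) (.slot (nat_lit 21))) (.slot (nat_lit 3))) (.col (nat_lit 2)) (.col (nat_lit 3))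
def l5646 : Root := .mk (.node (.node (.node (.node (.node (.col (nat_lit 1)) (.node (.col (nat_lit 1)) (.slot (nat_lit 21)) (.slot (nat_lit 21))) (.slot (nat_lit 21))) (.col (nat_lit 0)) (.slot (nat_lit 8))) (.col (nat_lit 2)) (.slot (nat_lit 21))) (.col (nat_lit 2)) (.slot (nat_lit 21))) (.col (nat_lit 2)) (.slot (nat_lit 10))) (.col (nat_lit 0)) (.col (nat_lit 2)) (.slot (nat_lit 21))
def w25087 : Root := .mk (.node (.node (.node (.node (.node (.col (nat_lit 1)) (.node (.col (nat_lit 1)) (.slot (nat_lit 21)) (.slot (nat_lit 21))) (.slot (nat_lit 21))) (.slot (nat_lit 1)) (.slot (nat_lit 8))) (.col (nat_lit 2)) (.slot (nat_lit 21))) (.col (nat_lit 2)) (.slot (nat_lit 21))) (.col (nat_lit 2)) (.slot (nat_lit 10))) (.col (nat_lit 0)) (.col (nat_lit 2)) (.slot (nat_lit 21))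
def w25088 : Root := .mk (.node (.node (.col (nat_lit 1)) (.slot (nat_lit 0)) (.slot (nat_lit 1))) (.node (.col (nat_lit 0)) (.slot (nat_lit 0)) (.slot (nat_lit 0))) (.slot (nat_lit 1))) (.col (nat_lit 2)) (.node (.node (.col (nat_lit 2)) (.node (.col (nat_lit 0)) (.node (.col (nat_lit 0)) (.slot (nat_lit 0)) (.slot (nat_lit 0))) (.slot (nat_lit 2))) (.slot (nat_lit 2))) (.col (nat_lit 2)) (.slot (nat_lit 5))) (.col (nat_lit 1))
def w25089 : Root := .mk (.node (.node (.col (nat_lit 1)) (.slot (nat_lit 0)) (.slot (nat_lit 0))) (.node (.col (nat_lit 2)) (.slot (nat_lit 1)) (.slot (nat_lit 0))) (.slot (nat_lit 1))) (.col (nat_lit 2)) (.node (.node (.col (nat_lit 2)) (.node (.col (nat_lit 0)) (.node (.col (nat_lit 0)) (.slot (nat_lit 0)) (.slot (nat_lit 0))) (.slot (nat_lit 2))) (.slot (nat_lit 2))) (.col (nat_lit 2)) (.slot (nat_lit 5))) (.col (nat_lit 1))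
def w25090 : Root := .mk (.node (.node (.col (nat_lit 1)) (.slot (nat_lit 0)) (.slot (nat_lit 1))) (.node (.col (nat_lit 3)) (.slot (nat_lit 1)) (.slot (nat_lit 1))) (.slot (nat_lit 1))) (.col (nat_lit 2)) (.node (.node (.col (nat_lit 2)) (.node (.col (nat_lit 0)) (.node (.col (nat_lit 0)) (.slot (nat_lit 0)) (.slot (nat_lit 0))) (.slot (nat_lit 2))) (.slot (nat_lit 2))) (.col (nat_lit 2)) (.slot (nat_lit 3))) (.col (nat_lit 1))
def w25091 : Root := .mk (.node (.node (.node (.col (nat_lit 1)) (.node (.col (nat_lit 1)) (.slot (nat_lit 0)) (.slot (nat_lit 0))) (.slot (nat_lit 2))) (.slot (nat_lit 2)) (.slot (nat_lit 1))) (.col (nat_lit 2)) (.col (nat_lit 1))) (.node (.col (nat_lit 2)) (.node (.col (nat_lit 0)) (.node (.col (nat_lit 0)) (.slot (nat_lit 0)) (.slot (nat_lit 0))) (.slot (nat_lit 3))) (.slot (nat_lit 1))) (.col (nat_lit 2)) (.col (nat_lit 1))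
def w25092 : Root := .mk (.node (.node (.col (nat_lit 1)) (.node (.col (nat_lit 1)) (.slot (nat_lit 0)) (.slot (nat_lit 0))) (.slot (nat_lit 4))) (.slot (nat_lit 8)) (.slot (nat_lit 8))) (.col (nat_lit 2)) (.node (.node (.col (nat_lit 2)) (.node (.col (nat_lit 0)) (.node (.col (nat_lit 0)) (.slot (nat_lit 0)) (.slot (nat_lit 0))) (.slot (nat_lit 2))) (.slot (nat_lit 2))) (.col (nat_lit 2)) (.node (.slot (nat_lit 0)) (.slot (nat_lit 1)) (.slot (nat_lit 1)))) (.col (nat_lit 1))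
def w25093 : Root := .mk (.node (.node (.node (.node (.col (nat_lit 1)) (.slot (nat_lit 0)) (.slot (nat_lit 1))) (.slot (nat_lit 2)) (.slot (nat_lit 1))) (.col (nat_lit 2)) (.col (nat_lit 1))) (.col (nat_lit 2)) (.slot (nat_lit 3))) (.col (nat_lit 2)) (.col (nat_lit 3)) (.node (.node (.col (nat_lit 2)) (.slot (nat_lit 1)) (.slot (nat_lit 1))) (.slot (nat_lit 2)) (.slot (nat_lit 1)))
def w25094 : Root := .mk (.node (.node (.col (nat_lit 1)) (.node (.col (nat_lit 1)) (.slot (nat_lit 0)) (.slot (nat_lit 0))) (.slot (nat_lit 2))) (.slot (nat_lit 2)) (.slot (nat_lit 1))) (.col (nat_lit 2)) (.node (.node .junk (.col (nat_lit 3)) (.col (nat_lit 0))) (.col (nat_lit 2)) (.slot (nat_lit 1))) (.col (nat_lit 1))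
def w25095 : Root := .mk (.node (.node (.col (nat_lit 1)) (.node (.col (nat_lit 1)) (.slot (nat_lit 0)) (.slot (nat_lit 0))) (.slot (nat_lit 2))) (.slot (nat_lit 2)) (.slot (nat_lit 1))) (.col (nat_lit 2)) (.node (.node (.col (nat_lit 2)) (.col (nat_lit 3)) (.node (.node (.col (nat_lit 2)) (.slot (nat_lit 0)) (.slot (nat_lit 0))) (.slot (nat_lit 2)) (.slot (nat_lit 2)))) (.col (nat_lit 2)) (.node (.col (nat_lit 2)) (.slot (nat_lit 3)) (.slot (nat_lit 1)))) (.col (nat_lit 1))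
def w25096 : Root := .mk (.node (.node (.col (nat_lit 1)) (.slot (nat_lit 0)) (.slot (nat_lit 0))) (.slot (nat_lit 7)) (.slot (nat_lit 5))) (.col (nat_lit 2)) (.node (.node (.col (nat_lit 2)) (.col (nat_lit 3)) (.node (.node (.col (nat_lit 2)) (.slot (nat_lit 1)) (.slot (nat_lit 1))) (.slot (nat_lit 2)) (.slot (nat_lit 1)))) (.col (nat_lit 2)) (.node (.slot (nat_lit 0)) (.slot (nat_lit 1)) (.slot (nat_lit 1)))) (.col (nat_lit 1))
def w25097 : Root := .mk (.node (.node (.node (.node (.col (nat_lit 1)) (.node (.col (nat_lit 1)) (.slot (nat_lit 0)) (.slot (nat_lit 0))) (.slot (nat_lit 2))) (.slot (nat_lit 2)) (.slot (nat_lit 1))) (.col (nat_lit 2)) (.col (nat_lit 1))) (.col (nat_lit 2)) (.slot (nat_lit 3))) (.col (nat_lit 2)) (.col (nat_lit 3)) (.node (.node (.col (nat_lit 2)) (.slot (nat_lit 0)) (.slot (nat_lit 0))) (.col (nat_lit 2)) (.slot (nat_lit 3)))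
def w25098 : Root := .mk (.node (.node (.node (.node (.col (nat_lit 1)) (.slot (nat_lit 0)) (.slot (nat_lit 1))) (.slot (nat_lit 2)) (.slot (nat_lit 1))) (.col (nat_lit 2)) (.col (nat_lit 1))) (.col (nat_lit 2)) (.slot (nat_lit 3))) (.col (nat_lit 2)) (.col (nat_lit 3)) (.node (.node (.col (nat_lit 2)) (.slot (nat_lit 0)) (.slot (nat_lit 0))) (.node (.col (nat_lit 0)) (.slot (nat_lit 1)) (.slot (nat_lit 1))) (.slot (nat_lit 2)))
def w25099 : Root := .mk (.node (.node (.node (.node (.col (nat_lit 1)) (.slot (nat_lit 0)) (.slot (nat_lit 1))) (.slot (nat_lit 2)) (.slot (nat_lit 1))) (.col (nat_lit 2)) (.col (nat_lit 1))) (.col (nat_lit 2)) (.slot (nat_lit 3))) (.col (nat_lit 2)) (.col (nat_lit 3)) (.node (.node (.col (nat_lit 2)) (.slot (nat_lit 1)) (.slot (nat_lit 1))) (.node (.col (nat_lit 1)) (.slot (nat_lit 0)) (.slot (nat_lit 0))) (.slot (nat_lit 2)))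
def w25100 : Root := .mk (.node (.node (.node (.node (.col (nat_lit 1)) (.slot (nat_lit 0)) (.slot (nat_lit 1))) (.slot (nat_lit 2)) (.slot (nat_lit 1))) (.col (nat_lit 2)) (.col (nat_lit 1))) (.col (nat_lit 2)) (.slot (nat_lit 3))) (.col (nat_lit 2)) (.col (nat_lit 3)) (.node (.node (.col (nat_lit 2)) (.slot (nat_lit 1)) (.slot (nat_lit 1))) (.node (.col (nat_lit 3)) (.slot (nat_lit 0)) (.slot (nat_lit 0))) (.slot (nat_lit 2)))
def w25101 : Root := .mk (.node (.node (.node (.node (.col (nat_lit 1)) (.node (.col (nat_lit 1)) (.slot (nat_lit 0)) (.slot (nat_lit 0))) (.slot (nat_lit 2))) (.slot (nat_lit 2)) (.slot (nat_lit 1))) (.col (nat_lit 2)) (.col (nat_lit 1))) (.col (nat_lit 2)) (.slot (nat_lit 2))) (.col (nat_lit 2)) (.col (nat_lit 3)) (.node (.node (.col (nat_lit 2)) (.col (nat_lit 0)) (.slot (nat_lit 2))) (.slot (nat_lit 1)) (.slot (nat_lit 1)))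
def w25102 : Root := .mk (.node (.node (.node (.node (.col (nat_lit 1)) (.node (.col (nat_lit 1)) (.slot (nat_lit 0)) (.slot (nat_lit 0))) (.slot (nat_lit 2))) (.slot (nat_lit 2)) (.slot (nat_lit 1))) (.col (nat_lit 2)) (.col (nat_lit 1))) (.col (nat_lit 2)) (.slot (nat_lit 1))) (.col (nat_lit 2)) (.col (nat_lit 3)) (.node (.node (.col (nat_lit 2)) (.col (nat_lit 1)) (.slot (nat_lit 1))) (.slot (nat_lit 1)) (.slot (nat_lit 1)))
def w25103 : Root := .mk (.node (.node (.node (.node (.col (nat_lit 1)) (.slot (nat_lit 0)) (.slot (nat_lit 1))) (.slot (nat_lit 2)) (.slot (nat_lit 1))) (.col (nat_lit 2)) (.col (nat_lit 1))) (.col (nat_lit 2)) (.slot (nat_lit 3))) (.col (nat_lit 2)) (.col (nat_lit 3)) (.node (.node (.col (nat_lit 2)) (.node (.col (nat_lit 2)) (.slot (nat_lit 0)) (.slot (nat_lit 0))) (.slot (nat_lit 2))) (.slot (nat_lit 2)) (.slot (nat_lit 1)))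
def w25104 : Root := .mk (.node (.col (nat_lit 2)) (.slot (nat_lit 3)) (.slot (nat_lit 1))) (.col (nat_lit 2)) (.node (.node (.col (nat_lit 2)) (.col (nat_lit 3)) (.node (.node (.col (nat_lit 2)) (.slot (nat_lit 1)) (.slot (nat_lit 1))) (.slot (nat_lit 2)) (.slot (nat_lit 1)))) (.col (nat_lit 2)) (.slot (nat_lit 3))) (.col (nat_lit 1))
def w25105 : Root := .mk (.node (.node (.col (nat_lit 1)) (.slot (nat_lit 0)) (.slot (nat_lit 0))) (.col (nat_lit 1)) (.slot (nat_lit 3))) (.col (nat_lit 2)) (.node (.node (.col (nat_lit 2)) (.col (nat_lit 3)) (.node (.node (.col (nat_lit 2)) (.slot (nat_lit 1)) (.slot (nat_lit 1))) (.slot (nat_lit 2)) (.slot (nat_lit 1)))) (.col (nat_lit 2)) (.slot (nat_lit 3))) (.col (nat_lit 1))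
def w25106 : Root := .mk (.node (.node (.col (nat_lit 1)) (.node (.col (nat_lit 1)) (.slot (nat_lit 0)) (.slot (nat_lit 0))) (.slot (nat_lit 2))) (.node (.col (nat_lit 0)) (.slot (nat_lit 0)) (.slot (nat_lit 0))) (.slot (nat_lit 2))) (.col (nat_lit 2)) (.node (.node (.col (nat_lit 2)) (.col (nat_lit 3)) (.node (.node (.col (nat_lit 2)) (.slot (nat_lit 0)) (.slot (nat_lit 0))) (.slot (nat_lit 7)) (.slot (nat_lit 5)))) (.col (nat_lit 2)) (.slot (nat_lit 2))) (.col (nat_lit 1))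
def w25107 : Root := .mk (.node (.node (.col (nat_lit 1)) (.node (.col (nat_lit 1)) (.slot (nat_lit 0)) (.slot (nat_lit 0))) (.slot (nat_lit 2))) (.node (.col (nat_lit 3)) (.slot (nat_lit 0)) (.slot (nat_lit 0))) (.slot (nat_lit 2))) (.col (nat_lit 2)) (.node (.node (.col (nat_lit 2)) (.col (nat_lit 3)) (.node (.node (.col (nat_lit 2)) (.slot (nat_lit 0)) (.slot (nat_lit 0))) (.slot (nat_lit 7)) (.slot (nat_lit 5)))) (.col (nat_lit 2)) (.slot (nat_lit 2))) (.col (nat_lit 1))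
def w25108 : Root := .mk (.col (nat_lit 1)) (.node (.col (nat_lit 1)) (.slot (nat_lit 20)) (.slot (nat_lit 9))) (.node (.node (.col (nat_lit 2)) (.slot (nat_lit 0)) (.col (nat_lit 1))) (.slot (nat_lit 20)) (.slot (nat_lit 12))) (.col (nat_lit 0))
def l5647 : Root := .mk (.node (.node (.node (.node (.col (nat_lit 1)) (.node (.col (nat_lit 1)) (.slot (nat_lit 20)) (.slot (nat_lit 9))) (.slot (nat_lit 21))) (.slot (nat_lit 20)) (.slot (nat_lit 12))) (.col (nat_lit 2)) (.col (nat_lit 1))) (.col (nat_lit 2)) (.slot (nat_lit 8))) (.col (nat_lit 2)) (.col (nat_lit 3)) (.node (.node (.col (nat_lit 2)) (.slot (nat_lit 3)) (.slot (nat_lit 3))) (.slot (nat_lit 8)) (.slot (nat_lit 8)))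
def w25109 : Root := .mk (.node (.node (.col (nat_lit 1)) (.node (.col (nat_lit 1)) (.slot (nat_lit 20)) (.slot (nat_lit 9))) (.slot (nat_lit 21))) (.slot (nat_lit 20)) (.slot (nat_lit 12))) (.col (nat_lit 2)) (.node (.node (.col (nat_lit 2)) (.col (nat_lit 3)) (.slot (nat_lit 9))) (.col (nat_lit 2)) (.slot (nat_lit 8))) (.col (nat_lit 1))
def w25110 : Root := .mk (.node (.node (.node (.node (.col (nat_lit 1)) (.node (.col (nat_lit 1)) (.slot (nat_lit 0)) (.slot (nat_lit 0))) (.slot (nat_lit 2))) (.slot (nat_lit 2)) (.slot (nat_lit 1))) (.col (nat_lit 2)) (.col (nat_lit 1))) (.col (nat_lit 2)) (.slot (nat_lit 3))) (.col (nat_lit 2)) (.node (.col (nat_lit 0)) (.node (.col (nat_lit 0)) (.slot (nat_lit 0)) (.slot (nat_lit 0))) (.slot (nat_lit 3))) (.col (nat_lit 0))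
def l5648 : Root := .mk (.node (.node (.col (nat_lit 1)) (.node (.col (nat_lit 1)) (.slot (nat_lit 20)) (.slot (nat_lit 9))) (.slot (nat_lit 21))) (.slot (nat_lit 20)) (.slot (nat_lit 12))) (.col (nat_lit 2)) (.node (.node (.col (nat_lit 2)) (.node (.col (nat_lit 0)) (.node (.col (nat_lit 0)) (.slot (nat_lit 0)) (.slot (nat_lit 0))) (.slot (nat_lit 3))) (.slot (nat_lit 9))) (.col (nat_lit 2)) (.slot (nat_lit 8))) (.col (nat_lit 1))
def w25111 : Root := .mk (.node (.node (.node (.node (.node (.col (nat_lit 1)) (.node (.col (nat_lit 1)) (.slot (nat_lit 20)) (.slot (nat_lit 9))) (.slot (nat_lit 21))) (.slot (nat_lit 20)) (.slot (nat_lit 12))) (.col (nat_lit 2)) (.slot (nat_lit 1))) (.col (nat_lit 2)) (.slot (nat_lit 8))) (.col (nat_lit 2)) (.slot (nat_lit 9))) (.col (nat_lit 0)) (.node (.col (nat_lit 0)) (.slot (nat_lit 0)) (.slot (nat_lit 0))) (.slot (nat_lit 3))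
def w25112 : Root := .mk (.node (.node (.node (.node (.node (.col (nat_lit 1)) (.slot (nat_lit 0)) (.slot (nat_lit 0))) (.slot (nat_lit 8)) (.slot (nat_lit 8))) (.col (nat_lit 2)) (.slot (nat_lit 10))) (.col (nat_lit 2)) (.slot (nat_lit 5))) (.col (nat_lit 2)) (.slot (nat_lit 10))) (.col (nat_lit 0)) (.node (.slot (nat_lit 0)) (.slot (nat_lit 5)) (.slot (nat_lit 5))) (.slot (nat_lit 10))
def w25113 : Root := .mk (.node (.node (.col (nat_lit 1)) (.slot (nat_lit 0)) (.slot (nat_lit 0))) (.slot (nat_lit 10)) (.slot (nat_lit 10))) (.col (nat_lit 2)) (.node (.node (.col (nat_lit 2)) (.node (.col (nat_lit 0)) (.slot (nat_lit 10)) (.slot (nat_lit 10))) (.slot (nat_lit 9))) (.col (nat_lit 2)) (.slot (nat_lit 10))) (.node (.col (nat_lit 2)) (.slot (nat_lit 9)) (.slot (nat_lit 8)))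
def l5653 : Root := .mk (.node (.node (.col (nat_lit 1)) (.node (.col (nat_lit 1)) (.node (.col (nat_lit 2)) (.slot (nat_lit 7)) (.slot (nat_lit 5))) (.node (.slot (nat_lit 0)) (.col (nat_lit 2)) (.slot (nat_lit 1)))) (.slot (nat_lit 2))) (.col (nat_lit 0)) (.slot (nat_lit 2))) (.col (nat_lit 2)) (.col (nat_lit 1)) (.node (.slot (nat_lit 0)) (.slot (nat_lit 0)) (.slot (nat_lit 0)))
def w25126 : Root := .mk (.node (.node (.col (nat_lit 1)) (.node (.col (nat_lit 1)) (.node (.col (nat_lit 2)) (.slot (nat_lit 7)) (.slot (nat_lit 5))) (.node (.slot (nat_lit 0)) (.col (nat_lit 2)) (.slot (nat_lit 1)))) (.slot (nat_lit 2))) (.slot (nat_lit 1)) (.slot (nat_lit 2))) (.col (nat_lit 2)) (.col (nat_lit 1)) (.node (.slot (nat_lit 0)) (.slot (nat_lit 0)) (.slot (nat_lit 0)))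
def l5655 : Root := .mk (.node (.node (.slot (nat_lit 0)) (.slot (nat_lit 0)) (.slot (nat_lit 0))) (.col (nat_lit 2)) (.node (.slot (nat_lit 0)) (.slot (nat_lit 0)) (.slot (nat_lit 0)))) (.col (nat_lit 3)) (.col (nat_lit 2)) (.node (.node (.col (nat_lit 2)) (.col (nat_lit 3)) (.slot (nat_lit 21))) (.slot (nat_lit 20)) (.slot (nat_lit 12)))
def w25132 : Root := .mk (.node (.node (.slot (nat_lit 0)) (.slot (nat_lit 0)) (.slot (nat_lit 0))) (.col (nat_lit 2)) (.node (.slot (nat_lit 0)) (.slot (nat_lit 0)) (.slot (nat_lit 0)))) (.col (nat_lit 3)) (.col (nat_lit 2)) (.node (.node (.col (nat_lit 2)) (.slot (nat_lit 1)) (.slot (nat_lit 21))) (.slot (nat_lit 20)) (.slot (nat_lit 12)))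
def w25134 : Root := .mk (.node (.node (.slot (nat_lit 0)) (.slot (nat_lit 0)) (.slot (nat_lit 0))) (.col (nat_lit 2)) (.node (.slot (nat_lit 0)) (.slot (nat_lit 0)) (.slot (nat_lit 0)))) (.col (nat_lit 3)) (.col (nat_lit 2)) (.node (.node (.col (nat_lit 3)) (.slot (nat_lit 1)) (.slot (nat_lit 21))) (.slot (nat_lit 20)) (.slot (nat_lit 12)))
def w25137 : Root := .mk (.node (.node (.col (nat_lit 1)) (.col (nat_lit 0)) (.slot (nat_lit 1))) (.node (.col (nat_lit 2)) (.col (nat_lit 0)) (.slot (nat_lit 0))) (.slot (nat_lit 1))) (.col (nat_lit 2)) (.col (nat_lit 0)) (.node .junk (.col (nat_lit 1)) (.slot (nat_lit 1)))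
def w25158 : Root := .mk (.node (.node (.col (nat_lit 1)) (.slot (nat_lit 0)) (.slot (nat_lit 0))) (.slot (nat_lit 1)) (.slot (nat_lit 2))) (.col (nat_lit 2)) (.node (.node (.col (nat_lit 2)) (.node (.col (nat_lit 0)) (.slot (nat_lit 7)) (.slot (nat_lit 5))) (.slot (nat_lit 1))) (.col (nat_lit 2)) (.slot (nat_lit 2))) (.node (.node (.col (nat_lit 0)) (.slot (nat_lit 4)) (.slot (nat_lit 1))) (.slot (nat_lit 8)) (.slot (nat_lit 8)))
def w25159 : Root := .mk (.node (.node (.col (nat_lit 1)) (.slot (nat_lit 0)) (.slot (nat_lit 0))) (.slot (nat_lit 10)) (.slot (nat_lit 10))) (.col (nat_lit 2)) (.node (.node (.col (nat_lit 2)) (.node (.col (nat_lit 0)) (.slot (nat_lit 10)) (.slot (nat_lit 10))) (.slot (nat_lit 9))) (.col (nat_lit 2)) (.slot (nat_lit 10))) (.node (.node (.slot (nat_lit 0)) (.slot (nat_lit 8)) (.slot (nat_lit 8))) (.slot (nat_lit 9)) (.slot (nat_lit 8)))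
def w25160 : Root := .mk (.node (.col (nat_lit 1)) (.node (.col (nat_lit 1)) (.slot (nat_lit 0)) (.slot (nat_lit 0))) (.slot (nat_lit 2))) (.node (.col (nat_lit 2)) (.node (.node (.col (nat_lit 2)) (.node (.col (nat_lit 0)) (.slot (nat_lit 3)) (.slot (nat_lit 3))) (.slot (nat_lit 5))) (.col (nat_lit 2)) (.slot (nat_lit 4))) (.slot (nat_lit 5))) (.col (nat_lit 2)) (.slot (nat_lit 2))
def w25161 : Root := .mk (.col (nat_lit 1)) (.node (.col (nat_lit 1)) (.slot (nat_lit 21)) (.slot (nat_lit 21))) (.node (.node (.col (nat_lit 2)) (.node (.node (.col (nat_lit 2)) (.node (.col (nat_lit 0)) (.slot (nat_lit 20)) (.slot (nat_lit 12))) (.slot (nat_lit 21))) (.col (nat_lit 2)) (.slot (nat_lit 1))) (.slot (nat_lit 8))) (.node (.col (nat_lit 0)) (.slot (nat_lit 21)) (.slot (nat_lit 21))) (.slot (nat_lit 21))) (.slot (nat_lit 21))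
def w25162 : Root := .mk (.col (nat_lit 1)) (.node (.col (nat_lit 1)) (.slot (nat_lit 0)) (.slot (nat_lit 0))) (.node (.node (.col (nat_lit 2)) (.node (.node (.col (nat_lit 2)) (.node (.col (nat_lit 0)) (.slot (nat_lit 1)) (.slot (nat_lit 1))) (.slot (nat_lit 2))) (.col (nat_lit 2)) (.slot (nat_lit 3))) (.slot (nat_lit 8))) (.node (.col (nat_lit 1)) (.slot (nat_lit 7)) (.slot (nat_lit 5))) (.slot (nat_lit 8))) (.slot (nat_lit 8))
def w25163 : Root := .mk (.col (nat_lit 0)) (.node (.col (nat_lit 2)) (.node (.node (.col (nat_lit 2)) (.node (.col (nat_lit 0)) (.slot (nat_lit 7)) (.slot (nat_lit 5))) (.slot (nat_lit 1))) (.col (nat_lit 2)) (.slot (nat_lit 3))) (.slot (nat_lit 3))) (.node (.col (nat_lit 3)) (.slot (nat_lit 3)) (.slot (nat_lit 1))) (.col (nat_lit 3))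
def w25164 : Root := .mk (.node (.col (nat_lit 0)) (.node (.col (nat_lit 3)) (.slot (nat_lit 1)) (.slot (nat_lit 1))) (.slot (nat_lit 2))) (.col (nat_lit 2)) (.node (.node (.col (nat_lit 2)) (.node (.col (nat_lit 0)) (.slot (nat_lit 1)) (.slot (nat_lit 1))) (.slot (nat_lit 2))) (.col (nat_lit 2)) (.slot (nat_lit 1))) (.col (nat_lit 0))
def w25165 : Root := .mk (.node (.node (.col (nat_lit 0)) (.node (.col (nat_lit 3)) (.slot (nat_lit 1)) (.slot (nat_lit 1))) (.slot (nat_lit 2))) (.col (nat_lit 2)) (.slot (nat_lit 1))) (.node (.col (nat_lit 2)) (.node (.col (nat_lit 0)) (.slot (nat_lit 1)) (.slot (nat_lit 1))) (.slot (nat_lit 2))) (.col (nat_lit 2)) (.col (nat_lit 3))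
def l5660 : Root := .mk (.col (nat_lit 0)) (.node (.col (nat_lit 2)) (.node (.node (.col (nat_lit 2)) (.node (.col (nat_lit 0)) (.slot (nat_lit 7)) (.slot (nat_lit 5))) (.slot (nat_lit 8))) (.col (nat_lit 2)) (.slot (nat_lit 8))) (.slot (nat_lit 8))) (.node (.col (nat_lit 3)) (.slot (nat_lit 20)) (.slot (nat_lit 12))) (.slot (nat_lit 21))
def w25166 : Root := .mk (.col (nat_lit 1)) (.slot (nat_lit 0)) (.node (.node (.col (nat_lit 2)) (.node (.node (.col (nat_lit 2)) (.node (.col (nat_lit 0)) (.slot (nat_lit 7)) (.slot (nat_lit 5))) (.slot (nat_lit 8))) (.col (nat_lit 2)) (.slot (nat_lit 8))) (.slot (nat_lit 8))) (.node (.col (nat_lit 3)) (.slot (nat_lit 20)) (.slot (nat_lit 12))) (.slot (nat_lit 21))) (.slot (nat_lit 0))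
def w25167 : Root := .mk (.col (nat_lit 1)) (.slot (nat_lit 0)) (.node (.node (.col (nat_lit 2)) (.node (.node (.col (nat_lit 2)) (.node (.col (nat_lit 0)) (.slot (nat_lit 8)) (.slot (nat_lit 8))) (.slot (nat_lit 10))) (.col (nat_lit 2)) (.slot (nat_lit 5))) (.slot (nat_lit 10))) (.node (.slot (nat_lit 0)) (.slot (nat_lit 5)) (.slot (nat_lit 5))) (.slot (nat_lit 10))) (.slot (nat_lit 0))
def w25168 : Root := .mk (.col (nat_lit 1)) (.col (nat_lit 3)) (.node (.node (.col (nat_lit 2)) (.node (.node (.col (nat_lit 2)) (.node (.col (nat_lit 0)) (.slot (nat_lit 7)) (.slot (nat_lit 5))) (.slot (nat_lit 10))) (.col (nat_lit 2)) (.slot (nat_lit 8))) (.slot (nat_lit 10))) (.slot (nat_lit 7)) (.slot (nat_lit 5))) (.slot (nat_lit 0))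
def l5661 : Root := .mk (.node (.node (.node (.node (.col (nat_lit 1)) (.node (.col (nat_lit 1)) (.slot (nat_lit 22)) (.slot (nat_lit 21))) (.slot (nat_lit 22))) (.slot (nat_lit 23)) (.slot (nat_lit 22))) (.col (nat_lit 2)) (.slot (nat_lit 22))) (.col (nat_lit 2)) (.slot (nat_lit 23))) (.col (nat_lit 2)) (.node (.col (nat_lit 0)) (.slot (nat_lit 21)) (.slot (nat_lit 21))) (.slot (nat_lit 21))
def w25169 : Root := .mk (.node (.node (.node (.col (nat_lit 1)) (.node (.col (nat_lit 1)) (.slot (nat_lit 22)) (.slot (nat_lit 21))) (.slot (nat_lit 22))) (.slot (nat_lit 23)) (.slot (nat_lit 22))) (.col (nat_lit 2)) (.slot (nat_lit 22))) (.node (.col (nat_lit 2)) (.slot (nat_lit 22)) (.slot (nat_lit 21))) (.col (nat_lit 2)) (.slot (nat_lit 23))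
def w25170 : Root := .mk (.node (.node (.node (.col (nat_lit 1)) (.node (.col (nat_lit 1)) (.slot (nat_lit 0)) (.slot (nat_lit 0))) (.slot (nat_lit 3))) (.slot (nat_lit 1)) (.slot (nat_lit 1))) (.col (nat_lit 2)) (.slot (nat_lit 3))) (.node (.col (nat_lit 2)) (.slot (nat_lit 3)) (.slot (nat_lit 1))) (.node (.col (nat_lit 0)) (.col (nat_lit 2)) (.slot (nat_lit 3))) (.col (nat_lit 2))
def l5662 : Root := .mk (.node (.node (.node (.node (.col (nat_lit 1)) (.node (.col (nat_lit 1)) (.slot (nat_lit 0)) (.slot (nat_lit 0))) (.slot (nat_lit 3))) (.slot (nat_lit 1)) (.slot (nat_lit 1))) (.col (nat_lit 2)) (.slot (nat_lit 3))) (.node (.col (nat_lit 2)) (.slot (nat_lit 7)) (.slot (nat_lit 5))) (.slot (nat_lit 8))) (.col (nat_lit 0)) (.col (nat_lit 2)) (.slot (nat_lit 5))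
def w25171 : Root := .mk (.node (.node (.col (nat_lit 1)) (.node (.col (nat_lit 1)) (.slot (nat_lit 0)) (.slot (nat_lit 0))) (.slot (nat_lit 3))) (.slot (nat_lit 1)) (.slot (nat_lit 1))) (.col (nat_lit 2)) (.node (.node (.col (nat_lit 2)) (.slot (nat_lit 7)) (.slot (nat_lit 5))) (.node (.col (nat_lit 0)) (.slot (nat_lit 1)) (.slot (nat_lit 5))) (.slot (nat_lit 8))) (.slot (nat_lit 3))
def w25172 : Root := .mk (.node (.col (nat_lit 1)) (.node (.node (.col (nat_lit 2)) (.node (.node (.col (nat_lit 2)) (.slot (nat_lit 7)) (.slot (nat_lit 5))) (.node (.col (nat_lit 1)) (.slot (nat_lit 0)) (.slot (nat_lit 0))) (.slot (nat_lit 8))) (.slot (nat_lit 8))) (.slot (nat_lit 7)) (.slot (nat_lit 5))) (.slot (nat_lit 3))) (.col (nat_lit 1)) (.node (.col (nat_lit 2)) (.slot (nat_lit 3)) (.slot (nat_lit 1))) (.col (nat_lit 2))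
def w25182 : Root := .mk (.col (nat_lit 1)) (.node (.col (nat_lit 1)) (.node (.col (nat_lit 2)) (.slot (nat_lit 4)) (.slot (nat_lit 4))) (.node (.slot (nat_lit 0)) (.col (nat_lit 2)) (.col (nat_lit 1)))) (.node (.slot (nat_lit 0)) (.col (nat_lit 0)) (.slot (nat_lit 0))) (.col (nat_lit 2))
def w25196 : Root := .mk (.node (.col (nat_lit 1)) (.node (.node (.col (nat_lit 2)) (.node (.node (.col (nat_lit 2)) (.slot (nat_lit 1)) (.slot (nat_lit 1))) (.node (.col (nat_lit 1)) (.slot (nat_lit 1)) (.slot (nat_lit 1))) (.slot (nat_lit 2))) (.slot (nat_lit 1))) (.slot (nat_lit 3)) (.slot (nat_lit 3))) (.slot (nat_lit 4))) (.col (nat_lit 1)) (.col (nat_lit 3)) (.col (nat_lit 0))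
def w25197 : Root := .mk (.node (.node (.col (nat_lit 1)) (.node (.col (nat_lit 1)) (.node (.col (nat_lit 2)) (.node (.slot (nat_lit 0)) (.slot (nat_lit 0)) (.slot (nat_lit 0))) (.slot (nat_lit 1))) (.col (nat_lit 0))) (.slot (nat_lit 1))) (.col (nat_lit 1)) (.slot (nat_lit 1))) (.col (nat_lit 2)) (.node (.node (.col (nat_lit 2)) (.slot (nat_lit 0)) (.slot (nat_lit 0))) (.node (.col (nat_lit 1)) (.slot (nat_lit 1)) (.slot (nat_lit 1))) (.slot (nat_lit 2))) (.col (nat_lit 1))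
def w25199 : Root := .mk (.node (.node (.col (nat_lit 1)) (.node (.col (nat_lit 1)) (.node (.col (nat_lit 2)) (.node (.slot (nat_lit 0)) (.slot (nat_lit 0)) (.slot (nat_lit 0))) (.slot (nat_lit 0))) (.col (nat_lit 0))) (.slot (nat_lit 5))) (.node (.slot (nat_lit 0)) (.slot (nat_lit 0)) (.slot (nat_lit 0))) (.slot (nat_lit 0))) (.col (nat_lit 2)) (.node (.node (.col (nat_lit 2)) (.slot (nat_lit 0)) (.slot (nat_lit 0))) (.node (.col (nat_lit 1)) (.slot (nat_lit 1)) (.slot (nat_lit 1))) (.slot (nat_lit 2))) (.col (nat_lit 1))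
def w25200 : Root := .mk (.node (.node (.col (nat_lit 1)) (.node (.col (nat_lit 1)) (.node (.col (nat_lit 2)) (.node (.slot (nat_lit 0)) (.slot (nat_lit 0)) (.slot (nat_lit 0))) (.slot (nat_lit 1))) (.col (nat_lit 0))) (.slot (nat_lit 2))) (.slot (nat_lit 4)) (.slot (nat_lit 4))) (.col (nat_lit 2)) (.node (.col (nat_lit 1)) (.slot (nat_lit 0)) (.slot (nat_lit 0))) (.col (nat_lit 1))
def w25201 : Root := .mk (.node (.node (.col (nat_lit 1)) (.node (.col (nat_lit 1)) (.node (.col (nat_lit 2)) (.node (.slot (nat_lit 0)) (.slot (nat_lit 0)) (.slot (nat_lit 0))) (.slot (nat_lit 1))) (.col (nat_lit 0))) (.slot (nat_lit 2))) (.slot (nat_lit 4)) (.slot (nat_lit 4))) (.col (nat_lit 2)) (.node (.slot (nat_lit 0)) (.slot (nat_lit 0)) (.slot (nat_lit 0))) (.col (nat_lit 1))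
def w25202 : Root := .mk (.node (.col (nat_lit 1)) (.node (.node (.col (nat_lit 2)) (.node (.node (.col (nat_lit 2)) (.slot (nat_lit 1)) (.slot (nat_lit 1))) (.node (.col (nat_lit 1)) (.slot (nat_lit 1)) (.slot (nat_lit 1))) (.slot (nat_lit 2))) (.col (nat_lit 1))) (.slot (nat_lit 3)) (.slot (nat_lit 3))) (.node (.col (nat_lit 1)) (.slot (nat_lit 3)) (.slot (nat_lit 3)))) (.col (nat_lit 1)) (.node (.col (nat_lit 2)) (.slot (nat_lit 0)) (.slot (nat_lit 0))) (.col (nat_lit 0))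
def l5671 : Root := .mk (.node (.node (.col (nat_lit 1)) (.node (.col (nat_lit 1)) (.node (.col (nat_lit 2)) (.node (.slot (nat_lit 0)) (.slot (nat_lit 0)) (.slot (nat_lit 0))) (.slot (nat_lit 1))) (.col (nat_lit 0))) (.slot (nat_lit 21))) (.slot (nat_lit 20)) (.slot (nat_lit 12))) (.col (nat_lit 2)) (.node (.node (.col (nat_lit 2)) (.slot (nat_lit 3)) (.slot (nat_lit 1))) (.node (.col (nat_lit 1)) (.slot (nat_lit 7)) (.slot (nat_lit 5))) (.slot (nat_lit 2))) (.col (nat_lit 1))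
def w25203 : Root := .mk (.node (.col (nat_lit 1)) (.node (.node (.col (nat_lit 2)) (.node (.node (.col (nat_lit 2)) (.slot (nat_lit 3)) (.slot (nat_lit 1))) (.node (.col (nat_lit 1)) (.slot (nat_lit 7)) (.slot (nat_lit 5))) (.slot (nat_lit 2))) (.slot (nat_lit 1))) (.slot (nat_lit 20)) (.slot (nat_lit 12))) (.slot (nat_lit 21))) (.col (nat_lit 1)) (.node (.col (nat_lit 2)) (.node (.slot (nat_lit 0)) (.slot (nat_lit 0)) (.slot (nat_lit 0))) (.slot (nat_lit 1))) (.col (nat_lit 0))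
def l5672 : Root := .mk (.node (.col (nat_lit 1)) (.node (.node (.col (nat_lit 2)) (.node (.node (.col (nat_lit 2)) (.slot (nat_lit 7)) (.slot (nat_lit 5))) (.node (.col (nat_lit 1)) (.slot (nat_lit 7)) (.slot (nat_lit 5))) (.slot (nat_lit 8))) (.slot (nat_lit 8))) (.slot (nat_lit 20)) (.slot (nat_lit 12))) (.slot (nat_lit 21))) (.col (nat_lit 1)) (.node (.col (nat_lit 2)) (.slot (nat_lit 20)) (.slot (nat_lit 12))) (.col (nat_lit 0))
def w25204 : Root := .mk (.node (.col (nat_lit 1)) (.node (.node (.col (nat_lit 2)) (.node (.node (.col (nat_lit 2)) (.slot (nat_lit 7)) (.slot (nat_lit 5))) (.node (.col (nat_lit 1)) (.slot (nat_lit 7)) (.slot (nat_lit 5))) (.slot (nat_lit 8))) (.slot (nat_lit 8))) (.slot (nat_lit 20)) (.slot (nat_lit 12))) (.slot (nat_lit 21))) (.col (nat_lit 1)) (.node (.col (nat_lit 2)) (.slot (nat_lit 20)) (.slot (nat_lit 12))) (.node (.slot (nat_lit 0)) (.slot (nat_lit 0)) (.slot (nat_lit 0)))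
def w25205 : Root := .mk (.col (nat_lit 1)) (.node (.col (nat_lit 1)) (.node (.col (nat_lit 2)) (.slot (nat_lit 8)) (.slot (nat_lit 8))) (.slot (nat_lit 4))) (.node (.node (.col (nat_lit 2)) (.node (.node (.col (nat_lit 2)) (.slot (nat_lit 3)) (.slot (nat_lit 1))) (.node (.col (nat_lit 1)) (.slot (nat_lit 1)) (.slot (nat_lit 1))) (.slot (nat_lit 2))) (.slot (nat_lit 3))) (.slot (nat_lit 8)) (.slot (nat_lit 8))) (.node (.col (nat_lit 1)) (.slot (nat_lit 9)) (.slot (nat_lit 8)))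
def w25206 : Root := .mk (.node (.node (.node (.col (nat_lit 1)) (.node (.col (nat_lit 1)) (.node (.col (nat_lit 2)) (.slot (nat_lit 1)) (.slot (nat_lit 1))) (.slot (nat_lit 2))) (.node (.slot (nat_lit 0)) (.slot (nat_lit 0)) (.slot (nat_lit 0)))) (.col (nat_lit 0)) (.node (.slot (nat_lit 0)) (.slot (nat_lit 0)) (.slot (nat_lit 0)))) (.col (nat_lit 2)) (.slot (nat_lit 1))) (.node (.col (nat_lit 2)) (.slot (nat_lit 0)) (.slot (nat_lit 0))) (.col (nat_lit 0)) (.col (nat_lit 2))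
def w25207 : Root := .mk (.node (.node (.col (nat_lit 1)) (.node (.col (nat_lit 1)) (.node (.col (nat_lit 2)) (.slot (nat_lit 4)) (.slot (nat_lit 4))) (.slot (nat_lit 2))) (.node (.slot (nat_lit 0)) (.slot (nat_lit 0)) (.slot (nat_lit 0)))) (.col (nat_lit 0)) (.slot (nat_lit 1))) (.col (nat_lit 2)) (.node (.slot (nat_lit 0)) (.col (nat_lit 0)) (.col (nat_lit 2))) (.col (nat_lit 0))
def w25208 : Root := .mk (.node (.node (.node (.col (nat_lit 1)) (.node (.col (nat_lit 1)) (.slot (nat_lit 0)) (.slot (nat_lit 0))) (.node (.slot (nat_lit 0)) (.slot (nat_lit 1)) (.slot (nat_lit 0)))) (.col (nat_lit 0)) (.slot (nat_lit 2))) (.col (nat_lit 2)) (.node (.col (nat_lit 1)) (.slot (nat_lit 1)) (.slot (nat_lit 1)))) (.node (.col (nat_lit 2)) (.slot (nat_lit 0)) (.slot (nat_lit 0))) (.col (nat_lit 0)) (.col (nat_lit 2))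
def w25209 : Root := .mk (.col (nat_lit 1)) (.col (nat_lit 3)) (.node (.node (.col (nat_lit 2)) (.node (.slot (nat_lit 0)) (.col (nat_lit 0)) (.col (nat_lit 2))) (.node (.col (nat_lit 2)) (.slot (nat_lit 0)) (.slot (nat_lit 0)))) (.col (nat_lit 0)) (.slot (nat_lit 3))) (.node (.slot (nat_lit 0)) (.slot (nat_lit 0)) (.slot (nat_lit 0)))
def w25210 : Root := .mk (.node (.node (.node (.col (nat_lit 1)) (.node (.col (nat_lit 1)) (.node (.col (nat_lit 2)) (.slot (nat_lit 1)) (.slot (nat_lit 1))) (.slot (nat_lit 2))) (.node (.slot (nat_lit 0)) (.slot (nat_lit 0)) (.slot (nat_lit 0)))) (.col (nat_lit 0)) (.slot (nat_lit 3))) (.col (nat_lit 2)) (.node (.col (nat_lit 2)) (.slot (nat_lit 0)) (.slot (nat_lit 0)))) (.slot (nat_lit 0)) (.col (nat_lit 0)) (.col (nat_lit 2))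
def w25211 : Root := .mk (.node (.node (.node (.col (nat_lit 1)) (.node (.col (nat_lit 1)) (.slot (nat_lit 0)) (.slot (nat_lit 0))) (.node (.slot (nat_lit 0)) (.slot (nat_lit 1)) (.slot (nat_lit 0)))) (.col (nat_lit 0)) (.slot (nat_lit 2))) (.col (nat_lit 2)) (.node (.col (nat_lit 3)) (.slot (nat_lit 1)) (.slot (nat_lit 1)))) (.node (.col (nat_lit 2)) (.slot (nat_lit 0)) (.slot (nat_lit 0))) (.col (nat_lit 0)) (.col (nat_lit 2))
def w25212 : Root := .mk (.node (.node (.node (.col (nat_lit 1)) (.node (.col (nat_lit 1)) (.col (nat_lit 3)) (.slot (nat_lit 0))) (.node (.slot (nat_lit 0)) (.slot (nat_lit 1)) (.slot (nat_lit 1)))) (.col (nat_lit 0)) (.slot (nat_lit 2))) (.col (nat_lit 2)) (.slot (nat_lit 3))) (.node (.col (nat_lit 2)) (.slot (nat_lit 3)) (.slot (nat_lit 1))) (.col (nat_lit 0)) (.col (nat_lit 2))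
def w25216 : Root := .mk (.node (.col (nat_lit 1)) (.node (.node (.col (nat_lit 2)) (.node (.node (.col (nat_lit 2)) (.slot (nat_lit 3)) (.slot (nat_lit 1))) (.col (nat_lit 0)) (.col (nat_lit 2))) (.slot (nat_lit 3))) (.col (nat_lit 0)) (.slot (nat_lit 2))) (.node (.slot (nat_lit 0)) (.slot (nat_lit 0)) (.slot (nat_lit 0)))) (.col (nat_lit 1)) (.slot (nat_lit 0)) (.col (nat_lit 2))
def w25217 : Root := .mk (.node (.node (.node (.col (nat_lit 1)) (.node (.col (nat_lit 1)) (.slot (nat_lit 0)) (.slot (nat_lit 0))) (.node (.slot (nat_lit 0)) (.slot (nat_lit 1)) (.slot (nat_lit 1)))) (.col (nat_lit 0)) (.slot (nat_lit 2))) (.col (nat_lit 2)) (.slot (nat_lit 3))) (.node (.col (nat_lit 2)) (.slot (nat_lit 3)) (.slot (nat_lit 1))) (.col (nat_lit 0)) (.col (nat_lit 2))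
def w25218 : Root := .mk (.node (.node (.node (.col (nat_lit 1)) (.node (.col (nat_lit 1)) (.node (.col (nat_lit 2)) (.slot (nat_lit 2)) (.slot (nat_lit 0))) (.slot (nat_lit 9))) (.node (.slot (nat_lit 0)) (.col (nat_lit 3)) (.slot (nat_lit 0)))) (.col (nat_lit 0)) (.slot (nat_lit 3))) (.col (nat_lit 2)) (.slot (nat_lit 3))) (.slot (nat_lit 0)) (.col (nat_lit 0)) (.col (nat_lit 2))
def w25219 : Root := .mk (.col (nat_lit 1)) (.node (.col (nat_lit 1)) (.slot (nat_lit 0)) (.slot (nat_lit 0))) (.node (.node (.col (nat_lit 2)) (.node (.col (nat_lit 1)) (.col (nat_lit 0)) .junk) (.slot (nat_lit 1))) (.col (nat_lit 0)) (.slot (nat_lit 2))) (.node (.slot (nat_lit 0)) (.slot (nat_lit 1)) (.slot (nat_lit 0)))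
def l5673 : Root := .mk (.node (.node (.node (.col (nat_lit 1)) (.node (.col (nat_lit 1)) (.node (.col (nat_lit 2)) (.slot (nat_lit 20)) (.slot (nat_lit 12))) (.slot (nat_lit 21))) (.node (.slot (nat_lit 0)) (.slot (nat_lit 2)) (.slot (nat_lit 1)))) (.col (nat_lit 0)) (.slot (nat_lit 3))) (.col (nat_lit 2)) (.slot (nat_lit 8))) (.node (.col (nat_lit 2)) (.slot (nat_lit 3)) (.slot (nat_lit 1))) (.col (nat_lit 0)) (.col (nat_lit 2))
def w25220 : Root := .mk (.node (.node (.node (.col (nat_lit 1)) (.node (.col (nat_lit 1)) (.node (.col (nat_lit 2)) (.slot (nat_lit 20)) (.slot (nat_lit 12))) (.slot (nat_lit 21))) (.node (.slot (nat_lit 0)) (.slot (nat_lit 2)) (.slot (nat_lit 1)))) (.slot (nat_lit 1)) (.slot (nat_lit 3))) (.col (nat_lit 2)) (.slot (nat_lit 8))) (.node (.col (nat_lit 2)) (.slot (nat_lit 3)) (.slot (nat_lit 1))) (.col (nat_lit 0)) (.col (nat_lit 2))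
def l5674 : Root := .mk (.col (nat_lit 1)) (.node (.col (nat_lit 1)) (.node (.col (nat_lit 2)) (.slot (nat_lit 20)) (.slot (nat_lit 12))) (.slot (nat_lit 21))) (.node (.node (.col (nat_lit 2)) (.node (.node (.col (nat_lit 2)) (.slot (nat_lit 8)) (.slot (nat_lit 8))) (.col (nat_lit 0)) (.slot (nat_lit 8))) (.slot (nat_lit 8))) (.slot (nat_lit 3)) (.slot (nat_lit 1))) (.node (.slot (nat_lit 0)) (.slot (nat_lit 2)) (.slot (nat_lit 1)))
def w25221 : Root := .mk (.col (nat_lit 1)) (.node (.col (nat_lit 1)) (.node (.col (nat_lit 2)) (.slot (nat_lit 20)) (.slot (nat_lit 12))) (.slot (nat_lit 21))) (.node (.node (.col (nat_lit 2)) (.node (.node (.col (nat_lit 2)) (.slot (nat_lit 8)) (.slot (nat_lit 8))) (.node (.col (nat_lit 1)) (.slot (nat_lit 0)) (.slot (nat_lit 0))) (.slot (nat_lit 8))) (.slot (nat_lit 8))) (.slot (nat_lit 3)) (.slot (nat_lit 1))) (.node (.slot (nat_lit 0)) (.slot (nat_lit 2)) (.slot (nat_lit 1)))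
def w25222 : Root := .mk (.node (.node (.col (nat_lit 1)) (.node (.node (.col (nat_lit 2)) (.node (.node (.col (nat_lit 2)) (.slot (nat_lit 3)) (.slot (nat_lit 1))) (.node (.col (nat_lit 1)) (.slot (nat_lit 1)) (.slot (nat_lit 1))) (.slot (nat_lit 2))) (.slot (nat_lit 3))) (.slot (nat_lit 1)) (.slot (nat_lit 1))) (.slot (nat_lit 2))) (.col (nat_lit 1)) (.slot (nat_lit 2))) (.col (nat_lit 2)) (.node (.col (nat_lit 2)) (.slot (nat_lit 0)) (.slot (nat_lit 0))) (.slot (nat_lit 2))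
def w25223 : Root := .mk (.node (.node (.col (nat_lit 1)) (.node (.node (.col (nat_lit 2)) (.node (.node (.col (nat_lit 2)) (.slot (nat_lit 3)) (.slot (nat_lit 1))) (.node (.col (nat_lit 1)) (.slot (nat_lit 1)) (.slot (nat_lit 1))) (.slot (nat_lit 2))) (.slot (nat_lit 3))) (.slot (nat_lit 1)) (.slot (nat_lit 1))) (.slot (nat_lit 2))) (.col (nat_lit 1)) (.slot (nat_lit 2))) (.col (nat_lit 2)) (.node (.slot (nat_lit 0)) (.slot (nat_lit 0)) (.slot (nat_lit 0))) (.slot (nat_lit 1))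
def w25224 : Root := .mk (.node (.node (.col (nat_lit 1)) (.node (.col (nat_lit 1)) (.node (.col (nat_lit 2)) (.slot (nat_lit 1)) (.slot (nat_lit 1))) (.slot (nat_lit 2))) (.slot (nat_lit 2))) (.slot (nat_lit 1)) (.slot (nat_lit 1))) (.col (nat_lit 2)) (.node (.node (.col (nat_lit 2)) (.slot (nat_lit 0)) (.slot (nat_lit 0))) (.node (.col (nat_lit 1)) (.slot (nat_lit 0)) (.slot (nat_lit 0))) (.slot (nat_lit 2))) (.node (.col (nat_lit 1)) (.slot (nat_lit 1)) (.slot (nat_lit 1)))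
def w25225 : Root := .mk (.node (.node (.col (nat_lit 1)) (.node (.col (nat_lit 1)) (.node (.col (nat_lit 2)) (.slot (nat_lit 1)) (.slot (nat_lit 1))) (.slot (nat_lit 2))) (.slot (nat_lit 2))) (.slot (nat_lit 1)) (.slot (nat_lit 1))) (.col (nat_lit 2)) (.node (.col (nat_lit 0)) (.node (.col (nat_lit 1)) (.slot (nat_lit 1)) (.slot (nat_lit 1))) (.slot (nat_lit 2))) (.node (.col (nat_lit 2)) (.slot (nat_lit 0)) (.slot (nat_lit 0)))
def w25226 : Root := .mk (.node (.node (.node (.col (nat_lit 1)) (.node (.col (nat_lit 1)) (.node (.col (nat_lit 2)) (.slot (nat_lit 7)) (.slot (nat_lit 5))) (.slot (nat_lit 8))) (.slot (nat_lit 3))) (.slot (nat_lit 3)) (.slot (nat_lit 3))) (.col (nat_lit 2)) (.node (.col (nat_lit 2)) (.slot (nat_lit 0)) (.slot (nat_lit 0)))) (.col (nat_lit 0)) (.col (nat_lit 2)) (.slot (nat_lit 8))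
def w25227 : Root := .mk (.node (.node (.node (.col (nat_lit 1)) (.col (nat_lit 3)) (.slot (nat_lit 2))) (.slot (nat_lit 1)) (.slot (nat_lit 1))) (.col (nat_lit 2)) (.node (.col (nat_lit 0)) (.node (.col (nat_lit 1)) (.slot (nat_lit 0)) (.slot (nat_lit 0))) (.node (.slot (nat_lit 0)) (.slot (nat_lit 0)) (.slot (nat_lit 0))))) (.col (nat_lit 2)) (.col (nat_lit 0)) (.node (.col (nat_lit 0)) (.slot (nat_lit 0)) (.slot (nat_lit 0)))
def w25228 : Root := .mk (.node (.node (.node (.col (nat_lit 1)) (.col (nat_lit 3)) (.slot (nat_lit 2))) (.slot (nat_lit 1)) (.slot (nat_lit 1))) (.col (nat_lit 2)) (.node (.col (nat_lit 0)) (.node (.col (nat_lit 1)) (.slot (nat_lit 0)) (.slot (nat_lit 0))) (.node (.slot (nat_lit 0)) (.slot (nat_lit 0)) (.slot (nat_lit 0))))) (.col (nat_lit 2)) (.col (nat_lit 0)) (.node (.col (nat_lit 2)) (.slot (nat_lit 0)) (.slot (nat_lit 0)))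
def w25229 : Root := .mk (.node (.node (.node (.col (nat_lit 1)) (.col (nat_lit 3)) (.slot (nat_lit 2))) (.slot (nat_lit 1)) (.slot (nat_lit 1))) (.col (nat_lit 2)) (.node (.col (nat_lit 0)) (.node (.col (nat_lit 1)) (.slot (nat_lit 0)) (.slot (nat_lit 0))) (.node (.slot (nat_lit 0)) (.slot (nat_lit 0)) (.slot (nat_lit 0))))) (.col (nat_lit 2)) (.col (nat_lit 0)) (.node (.slot (nat_lit 0)) (.slot (nat_lit 0)) (.slot (nat_lit 0)))
def l5675 : Root := .mk (.node (.node (.node (.col (nat_lit 1)) (.col (nat_lit 3)) (.slot (nat_lit 8))) (.slot (nat_lit 8)) (.slot (nat_lit 8))) (.col (nat_lit 2)) (.node (.col (nat_lit 0)) (.node (.col (nat_lit 1)) (.slot (nat_lit 3)) (.slot (nat_lit 1))) (.node (.slot (nat_lit 0)) (.slot (nat_lit 1)) (.slot (nat_lit 1))))) (.col (nat_lit 2)) (.col (nat_lit 0)) (.slot (nat_lit 21))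
def w25230 : Root := .mk (.col (nat_lit 1)) (.col (nat_lit 3)) (.node (.node (.col (nat_lit 2)) (.node (.col (nat_lit 0)) (.node (.col (nat_lit 1)) (.slot (nat_lit 3)) (.slot (nat_lit 1))) (.node (.slot (nat_lit 0)) (.slot (nat_lit 1)) (.slot (nat_lit 1)))) (.node (.col (nat_lit 2)) (.slot (nat_lit 1)) (.slot (nat_lit 21)))) (.slot (nat_lit 8)) (.slot (nat_lit 8))) (.slot (nat_lit 8))
def w25231 : Root := .mk (.node (.node (.node (.col (nat_lit 1)) (.node (.col (nat_lit 1)) (.node (.col (nat_lit 2)) (.slot (nat_lit 1)) (.slot (nat_lit 1))) (.slot (nat_lit 2))) (.slot (nat_lit 8))) (.slot (nat_lit 8)) (.slot (nat_lit 8))) (.col (nat_lit 2)) (.node (.col (nat_lit 2)) (.slot (nat_lit 21)) (.slot (nat_lit 1)))) (.col (nat_lit 0)) (.node (.col (nat_lit 1)) (.slot (nat_lit 3)) (.slot (nat_lit 1))) (.node (.slot (nat_lit 0)) (.slot (nat_lit 1)) (.slot (nat_lit 1)))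
def w25232 : Root := .mk (.node (.node (.node (.node (.col (nat_lit 1)) (.node (.col (nat_lit 1)) (.slot (nat_lit 0)) (.slot (nat_lit 0))) (.slot (nat_lit 8))) (.slot (nat_lit 8)) (.slot (nat_lit 8))) (.col (nat_lit 2)) (.node (.col (nat_lit 2)) (.slot (nat_lit 3)) (.slot (nat_lit 3)))) (.col (nat_lit 0)) (.slot (nat_lit 8))) (.col (nat_lit 1)) (.col (nat_lit 0)) (.slot (nat_lit 8))
def w25233 : Root := .mk (.node (.node (.col (nat_lit 1)) (.node (.col (nat_lit 1)) (.node (.col (nat_lit 2)) (.slot (nat_lit 1)) (.slot (nat_lit 1))) (.slot (nat_lit 2))) (.slot (nat_lit 2))) (.slot (nat_lit 1)) (.slot (nat_lit 1))) (.col (nat_lit 2)) (.node (.col (nat_lit 0)) (.node (.col (nat_lit 1)) (.node (.col (nat_lit 1)) (.slot (nat_lit 0)) (.slot (nat_lit 0))) (.slot (nat_lit 2))) (.slot (nat_lit 2))) (.node (.col (nat_lit 2)) (.slot (nat_lit 0)) (.slot (nat_lit 0)))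
def w25235 : Root := .mk (.col (nat_lit 1)) (.col (nat_lit 3)) (.node (.node (.col (nat_lit 2)) (.node (.col (nat_lit 0)) (.slot (nat_lit 0)) (.slot (nat_lit 1))) (.node (.col (nat_lit 2)) (.slot (nat_lit 0)) (.slot (nat_lit 0)))) (.col (nat_lit 0)) (.slot (nat_lit 2))) (.node (.slot (nat_lit 0)) (.slot (nat_lit 0)) (.slot (nat_lit 0)))
def l5676 : Root := .mk (.col (nat_lit 1)) (.col (nat_lit 3)) (.node (.node (.col (nat_lit 2)) (.node (.col (nat_lit 0)) (.node (.col (nat_lit 1)) (.slot (nat_lit 3)) (.slot (nat_lit 3))) (.slot (nat_lit 8))) (.node (.col (nat_lit 2)) (.slot (nat_lit 0)) (.slot (nat_lit 0)))) (.col (nat_lit 0)) (.slot (nat_lit 3))) (.node (.slot (nat_lit 0)) (.slot (nat_lit 0)) (.slot (nat_lit 0)))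
def w25236 : Root := .mk (.col (nat_lit 1)) (.col (nat_lit 3)) (.node (.node (.col (nat_lit 2)) (.node (.col (nat_lit 0)) (.node (.col (nat_lit 1)) (.slot (nat_lit 3)) (.slot (nat_lit 3))) (.slot (nat_lit 8))) (.node (.col (nat_lit 2)) (.slot (nat_lit 0)) (.slot (nat_lit 0)))) (.slot (nat_lit 1)) (.slot (nat_lit 3))) (.node (.slot (nat_lit 0)) (.slot (nat_lit 0)) (.slot (nat_lit 0)))
def l5677 : Root := .mk (.node (.col (nat_lit 1)) (.node (.node (.col (nat_lit 2)) (.node (.col (nat_lit 0)) (.node (.col (nat_lit 1)) (.slot (nat_lit 3)) (.slot (nat_lit 3))) (.slot (nat_lit 5))) (.node (.col (nat_lit 2)) (.slot (nat_lit 0)) (.slot (nat_lit 0)))) (.col (nat_lit 0)) (.slot (nat_lit 2))) (.col (nat_lit 2))) (.col (nat_lit 1)) (.col (nat_lit 0)) (.col (nat_lit 2))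
def w25238 : Root := .mk (.node (.col (nat_lit 1)) (.node (.node (.col (nat_lit 2)) (.node (.col (nat_lit 0)) (.node (.col (nat_lit 1)) (.slot (nat_lit 3)) (.slot (nat_lit 3))) (.slot (nat_lit 5))) (.node (.col (nat_lit 2)) (.slot (nat_lit 0)) (.slot (nat_lit 0)))) (.slot (nat_lit 1)) (.slot (nat_lit 2))) (.col (nat_lit 2))) (.col (nat_lit 1)) (.col (nat_lit 0)) (.col (nat_lit 2))
def l5678 : Root := .mk (.col (nat_lit 1)) (.node (.col (nat_lit 1)) (.col (nat_lit 0)) (.slot (nat_lit 8))) (.node (.node (.col (nat_lit 2)) (.node (.col (nat_lit 0)) (.node (.col (nat_lit 1)) (.slot (nat_lit 3)) (.slot (nat_lit 3))) (.slot (nat_lit 5))) (.node (.col (nat_lit 2)) (.slot (nat_lit 0)) (.slot (nat_lit 0)))) (.slot (nat_lit 20)) (.slot (nat_lit 9))) (.col (nat_lit 2))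
def w25239 : Root := .mk (.node (.col (nat_lit 1)) (.node (.node (.col (nat_lit 2)) (.node (.col (nat_lit 0)) (.node (.col (nat_lit 1)) (.slot (nat_lit 3)) (.slot (nat_lit 3))) (.slot (nat_lit 5))) (.node (.col (nat_lit 2)) (.slot (nat_lit 0)) (.slot (nat_lit 0)))) (.slot (nat_lit 20)) (.slot (nat_lit 9))) (.slot (nat_lit 1))) (.col (nat_lit 1)) (.col (nat_lit 0)) (.slot (nat_lit 8))
def l5679 : Root := .mk (.node (.node (.col (nat_lit 1)) (.slot (nat_lit 0)) (.slot (nat_lit 0))) (.slot (nat_lit 5)) (.slot (nat_lit 5))) (.col (nat_lit 2)) (.node (.col (nat_lit 0)) (.node (.col (nat_lit 1)) (.slot (nat_lit 6)) (.slot (nat_lit 1))) (.slot (nat_lit 8))) (.col (nat_lit 1))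
def w25240 : Root := .mk (.node (.node (.col (nat_lit 1)) (.slot (nat_lit 0)) (.slot (nat_lit 0))) (.slot (nat_lit 5)) (.slot (nat_lit 5))) (.col (nat_lit 2)) (.node (.col (nat_lit 0)) (.node (.col (nat_lit 1)) (.slot (nat_lit 6)) (.slot (nat_lit 1))) (.slot (nat_lit 8))) (.node (.col (nat_lit 2)) (.slot (nat_lit 0)) (.slot (nat_lit 0)))
def l5680 : Root := .mk (.node (.node (.col (nat_lit 1)) (.node (.col (nat_lit 1)) (.node (.col (nat_lit 2)) (.slot (nat_lit 8)) (.slot (nat_lit 8))) (.slot (nat_lit 10))) (.slot (nat_lit 21))) (.slot (nat_lit 20)) (.slot (nat_lit 12))) (.col (nat_lit 2)) (.node (.col (nat_lit 0)) (.node (.col (nat_lit 1)) (.slot (nat_lit 20)) (.slot (nat_lit 12))) (.slot (nat_lit 21))) (.node (.col (nat_lit 2)) (.slot (nat_lit 21)) (.slot (nat_lit 8)))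
def w25241 : Root := .mk (.node (.node (.col (nat_lit 1)) (.node (.col (nat_lit 1)) (.node (.col (nat_lit 2)) (.slot (nat_lit 8)) (.slot (nat_lit 8))) (.slot (nat_lit 10))) (.slot (nat_lit 21))) (.slot (nat_lit 20)) (.slot (nat_lit 12))) (.col (nat_lit 2)) (.node (.node (.col (nat_lit 2)) (.slot (nat_lit 0)) (.slot (nat_lit 0))) (.node (.col (nat_lit 1)) (.slot (nat_lit 20)) (.slot (nat_lit 12))) (.slot (nat_lit 21))) (.node (.col (nat_lit 2)) (.slot (nat_lit 21)) (.slot (nat_lit 8)))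
def l5681 : Root := .mk (.node (.node (.node (.col (nat_lit 1)) (.node (.col (nat_lit 1)) (.node (.col (nat_lit 2)) (.slot (nat_lit 8)) (.slot (nat_lit 8))) (.node (.col (nat_lit 2)) (.slot (nat_lit 8)) (.slot (nat_lit 8)))) (.slot (nat_lit 3))) (.slot (nat_lit 8)) (.slot (nat_lit 8))) (.col (nat_lit 2)) (.node (.slot (nat_lit 0)) (.slot (nat_lit 0)) (.slot (nat_lit 0)))) (.node (.col (nat_lit 2)) (.slot (nat_lit 0)) (.slot (nat_lit 0))) (.col (nat_lit 0)) (.col (nat_lit 2))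
def w25242 : Root := .mk (.node (.node (.node (.col (nat_lit 1)) (.node (.col (nat_lit 1)) (.node (.col (nat_lit 2)) (.slot (nat_lit 8)) (.slot (nat_lit 8))) (.slot (nat_lit 9))) (.slot (nat_lit 3))) (.slot (nat_lit 8)) (.slot (nat_lit 8))) (.col (nat_lit 2)) (.node (.slot (nat_lit 0)) (.slot (nat_lit 0)) (.slot (nat_lit 0)))) (.node (.col (nat_lit 2)) (.slot (nat_lit 0)) (.slot (nat_lit 0))) (.col (nat_lit 0)) (.col (nat_lit 2))
def l5682 : Root := .mk (.node (.node (.col (nat_lit 1)) (.node (.col (nat_lit 1)) (.node (.col (nat_lit 2)) (.slot (nat_lit 8)) (.slot (nat_lit 8))) (.slot (nat_lit 9))) (.slot (nat_lit 3))) (.slot (nat_lit 8)) (.slot (nat_lit 8))) (.col (nat_lit 2)) (.node (.node (.col (nat_lit 2)) (.slot (nat_lit 8)) (.slot (nat_lit 8))) (.col (nat_lit 0)) (.slot (nat_lit 8))) (.node (.slot (nat_lit 0)) (.slot (nat_lit 0)) (.slot (nat_lit 0)))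
def w25243 : Root := .mk (.node (.node (.col (nat_lit 1)) (.node (.col (nat_lit 1)) (.node (.col (nat_lit 2)) (.slot (nat_lit 8)) (.slot (nat_lit 8))) (.slot (nat_lit 9))) (.slot (nat_lit 3))) (.slot (nat_lit 8)) (.slot (nat_lit 8))) (.col (nat_lit 2)) (.node (.node (.col (nat_lit 2)) (.slot (nat_lit 8)) (.slot (nat_lit 8))) (.node (.col (nat_lit 1)) (.slot (nat_lit 0)) (.slot (nat_lit 0))) (.slot (nat_lit 8))) (.node (.slot (nat_lit 0)) (.slot (nat_lit 0)) (.slot (nat_lit 0)))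
def l5683 : Root := .mk (.node (.col (nat_lit 1)) (.node (.node (.col (nat_lit 2)) (.node (.node (.col (nat_lit 2)) (.slot (nat_lit 8)) (.slot (nat_lit 8))) (.node (.col (nat_lit 1)) (.slot (nat_lit 20)) (.slot (nat_lit 12))) (.slot (nat_lit 21))) (.slot (nat_lit 22))) (.slot (nat_lit 20)) (.slot (nat_lit 12))) (.slot (nat_lit 21))) (.col (nat_lit 1)) (.node (.col (nat_lit 2)) (.slot (nat_lit 20)) (.slot (nat_lit 12))) (.slot (nat_lit 21))
def w25244 : Root := .mk (.node (.node (.col (nat_lit 1)) (.node (.col (nat_lit 1)) (.slot (nat_lit 21)) (.slot (nat_lit 21))) (.slot (nat_lit 21))) (.slot (nat_lit 20)) (.slot (nat_lit 12))) (.col (nat_lit 2)) (.node (.node (.col (nat_lit 2)) (.slot (nat_lit 8)) (.slot (nat_lit 8))) (.node (.col (nat_lit 1)) (.slot (nat_lit 20)) (.slot (nat_lit 12))) (.slot (nat_lit 21))) (.slot (nat_lit 22))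
def w25245 : Root := .mk (.col (nat_lit 1)) (.node (.col (nat_lit 1)) (.node (.col (nat_lit 2)) (.slot (nat_lit 20)) (.slot (nat_lit 12))) (.slot (nat_lit 21))) (.node (.node (.col (nat_lit 2)) (.node (.node (.col (nat_lit 2)) (.slot (nat_lit 8)) (.slot (nat_lit 8))) (.node (.slot (nat_lit 0)) (.slot (nat_lit 0)) (.slot (nat_lit 0))) (.slot (nat_lit 8))) (.slot (nat_lit 8))) (.slot (nat_lit 3)) (.slot (nat_lit 1))) (.node (.slot (nat_lit 0)) (.slot (nat_lit 2)) (.slot (nat_lit 1)))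
def w25246 : Root := .mk (.node (.node (.col (nat_lit 1)) (.node (.col (nat_lit 1)) (.slot (nat_lit 0)) (.slot (nat_lit 0))) (.slot (nat_lit 3))) (.node (.col (nat_lit 2)) (.slot (nat_lit 1)) (.slot (nat_lit 3))) (.slot (nat_lit 8))) (.col (nat_lit 2)) (.node (.node (.col (nat_lit 2)) (.slot (nat_lit 1)) (.slot (nat_lit 1))) (.node (.slot (nat_lit 0)) (.slot (nat_lit 0)) (.slot (nat_lit 0))) (.slot (nat_lit 2))) (.col (nat_lit 1))
def w25247 : Root := .mk (.node (.col (nat_lit 1)) (.node (.node (.col (nat_lit 2)) (.node (.node (.col (nat_lit 2)) (.slot (nat_lit 1)) (.slot (nat_lit 1))) (.node (.slot (nat_lit 0)) (.slot (nat_lit 0)) (.slot (nat_lit 0))) (.slot (nat_lit 2))) (.col (nat_lit 1))) (.slot (nat_lit 2)) (.slot (nat_lit 2))) (.col (nat_lit 2))) (.col (nat_lit 1)) (.slot (nat_lit 0)) (.col (nat_lit 2))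
def l5684 : Root := .mk (.col (nat_lit 1)) (.node (.col (nat_lit 1)) (.node (.col (nat_lit 2)) (.slot (nat_lit 7)) (.slot (nat_lit 5))) (.slot (nat_lit 8))) (.node (.node (.col (nat_lit 2)) (.node (.node (.col (nat_lit 2)) (.slot (nat_lit 1)) (.slot (nat_lit 1))) (.node (.slot (nat_lit 0)) (.slot (nat_lit 0)) (.slot (nat_lit 0))) (.slot (nat_lit 2))) (.col (nat_lit 1))) (.slot (nat_lit 2)) (.slot (nat_lit 2))) (.col (nat_lit 2))
def w25248 : Root := .mk (.node (.node (.col (nat_lit 1)) (.node (.col (nat_lit 1)) (.node (.col (nat_lit 2)) (.slot (nat_lit 7)) (.slot (nat_lit 5))) (.slot (nat_lit 8))) (.node (.col (nat_lit 1)) (.slot (nat_lit 0)) (.slot (nat_lit 0)))) (.slot (nat_lit 2)) (.slot (nat_lit 2))) (.col (nat_lit 2)) (.node (.node (.col (nat_lit 2)) (.slot (nat_lit 1)) (.slot (nat_lit 1))) (.node (.slot (nat_lit 0)) (.slot (nat_lit 0)) (.slot (nat_lit 0))) (.slot (nat_lit 2))) (.col (nat_lit 1))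
def l5685 : Root := .mk (.node (.node (.col (nat_lit 1)) (.node (.col (nat_lit 1)) (.node (.col (nat_lit 2)) (.slot (nat_lit 7)) (.slot (nat_lit 5))) (.slot (nat_lit 8))) (.slot (nat_lit 4))) (.slot (nat_lit 8)) (.slot (nat_lit 8))) (.col (nat_lit 2)) (.node (.node (.col (nat_lit 2)) (.slot (nat_lit 3)) (.slot (nat_lit 1))) (.node (.slot (nat_lit 0)) (.slot (nat_lit 0)) (.slot (nat_lit 0))) (.slot (nat_lit 3))) (.col (nat_lit 1))
def w25249 : Root := .mk (.node (.node (.col (nat_lit 1)) (.node (.col (nat_lit 1)) (.node (.col (nat_lit 2)) (.slot (nat_lit 7)) (.slot (nat_lit 5))) (.slot (nat_lit 8))) (.slot (nat_lit 4))) (.slot (nat_lit 8)) (.slot (nat_lit 8))) (.col (nat_lit 2)) (.node (.node (.col (nat_lit 2)) (.slot (nat_lit 3)) (.slot (nat_lit 1))) (.node (.slot (nat_lit 0)) (.slot (nat_lit 0)) (.slot (nat_lit 0))) (.slot (nat_lit 3))) (.node (.col (nat_lit 2)) (.slot (nat_lit 0)) (.slot (nat_lit 0)))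
def w25250 : Root := .mk (.node (.node (.col (nat_lit 1)) (.node (.col (nat_lit 1)) (.node (.col (nat_lit 2)) (.slot (nat_lit 7)) (.slot (nat_lit 5))) (.slot (nat_lit 8))) (.slot (nat_lit 4))) (.slot (nat_lit 8)) (.slot (nat_lit 8))) (.col (nat_lit 2)) (.node (.node (.col (nat_lit 2)) (.slot (nat_lit 3)) (.slot (nat_lit 1))) (.node (.slot (nat_lit 0)) (.slot (nat_lit 0)) (.slot (nat_lit 0))) (.slot (nat_lit 3))) (.node (.slot (nat_lit 0)) (.slot (nat_lit 0)) (.slot (nat_lit 0)))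
def w25251 : Root := .mk (.node (.node (.node (.col (nat_lit 1)) (.node (.col (nat_lit 1)) (.slot (nat_lit 0)) (.slot (nat_lit 0))) (.slot (nat_lit 9))) (.slot (nat_lit 8)) (.slot (nat_lit 5))) (.col (nat_lit 2)) (.slot (nat_lit 8))) (.col (nat_lit 0)) (.node (.slot (nat_lit 0)) (.slot (nat_lit 0)) (.slot (nat_lit 0))) (.slot (nat_lit 8))
def l5686 : Root := .mk (.node (.col (nat_lit 1)) (.node (.node (.col (nat_lit 2)) (.node (.node (.col (nat_lit 2)) (.slot (nat_lit 8)) (.slot (nat_lit 8))) (.node (.slot (nat_lit 0)) (.slot (nat_lit 0)) (.slot (nat_lit 0))) (.slot (nat_lit 8))) (.slot (nat_lit 8))) (.slot (nat_lit 10)) (.slot (nat_lit 9))) (.slot (nat_lit 10))) (.col (nat_lit 1)) (.node (.col (nat_lit 2)) (.slot (nat_lit 20)) (.slot (nat_lit 12))) (.slot (nat_lit 21))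
def w25252 : Root := .mk (.node (.node (.col (nat_lit 1)) (.node (.col (nat_lit 1)) (.slot (nat_lit 21)) (.slot (nat_lit 21))) (.slot (nat_lit 10))) (.slot (nat_lit 10)) (.slot (nat_lit 9))) (.col (nat_lit 2)) (.node (.node (.col (nat_lit 2)) (.slot (nat_lit 8)) (.slot (nat_lit 8))) (.node (.slot (nat_lit 0)) (.slot (nat_lit 0)) (.slot (nat_lit 0))) (.slot (nat_lit 8))) (.slot (nat_lit 8))
def w25253 : Root := .mk (.node (.col (nat_lit 1)) (.node (.node (.col (nat_lit 2)) (.node (.node (.col (nat_lit 2)) (.slot (nat_lit 3)) (.slot (nat_lit 1))) (.slot (nat_lit 1)) (.slot (nat_lit 1))) (.slot (nat_lit 3))) (.slot (nat_lit 3)) (.slot (nat_lit 1))) (.node (.col (nat_lit 1)) (.slot (nat_lit 0)) (.slot (nat_lit 0)))) (.col (nat_lit 1)) (.col (nat_lit 0)) (.col (nat_lit 2))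
def l5687 : Root := .mk (.node (.col (nat_lit 1)) (.node (.node (.col (nat_lit 2)) (.node (.node (.col (nat_lit 2)) (.slot (nat_lit 0)) (.slot (nat_lit 0))) (.slot (nat_lit 4)) (.slot (nat_lit 4))) (.col (nat_lit 1))) (.col (nat_lit 2)) (.col (nat_lit 0))) (.node (.col (nat_lit 1)) (.slot (nat_lit 0)) (.slot (nat_lit 0)))) (.col (nat_lit 1)) (.col (nat_lit 0)) (.col (nat_lit 3))
def w25254 : Root := .mk (.node (.col (nat_lit 1)) (.node (.node (.col (nat_lit 2)) (.node (.node (.col (nat_lit 2)) (.slot (nat_lit 0)) (.slot (nat_lit 0))) (.slot (nat_lit 4)) (.slot (nat_lit 4))) (.col (nat_lit 1))) (.col (nat_lit 2)) (.slot (nat_lit 1))) (.node (.col (nat_lit 1)) (.slot (nat_lit 0)) (.slot (nat_lit 0)))) (.col (nat_lit 1)) (.col (nat_lit 0)) (.col (nat_lit 3))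
def l5688 : Root := .mk (.node (.col (nat_lit 1)) (.node (.node (.col (nat_lit 2)) (.node (.node (.col (nat_lit 2)) (.slot (nat_lit 21)) (.slot (nat_lit 1))) (.slot (nat_lit 20)) (.slot (nat_lit 12))) (.col (nat_lit 1))) (.slot (nat_lit 2)) (.slot (nat_lit 2))) (.node (.col (nat_lit 1)) (.slot (nat_lit 0)) (.slot (nat_lit 0)))) (.col (nat_lit 1)) (.col (nat_lit 0)) (.col (nat_lit 3))
def w25255 : Root := .mk (.node (.col (nat_lit 1)) (.node (.node (.col (nat_lit 2)) (.node (.node (.col (nat_lit 2)) (.slot (nat_lit 21)) (.slot (nat_lit 1))) (.slot (nat_lit 20)) (.slot (nat_lit 12))) (.slot (nat_lit 1))) (.slot (nat_lit 2)) (.slot (nat_lit 2))) (.node (.col (nat_lit 1)) (.slot (nat_lit 0)) (.slot (nat_lit 0)))) (.col (nat_lit 1)) (.col (nat_lit 0)) (.col (nat_lit 3))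
def w25256 : Root := .mk (.node (.col (nat_lit 1)) (.node (.node (.col (nat_lit 2)) (.node (.node (.col (nat_lit 2)) (.slot (nat_lit 3)) (.slot (nat_lit 1))) (.slot (nat_lit 1)) (.slot (nat_lit 1))) (.slot (nat_lit 3))) (.slot (nat_lit 7)) (.slot (nat_lit 5))) (.node (.col (nat_lit 1)) (.slot (nat_lit 4)) (.slot (nat_lit 1)))) (.col (nat_lit 1)) (.col (nat_lit 0)) (.node (.col (nat_lit 0)) (.slot (nat_lit 2)) (.slot (nat_lit 1)))
def w25257 : Root := .mk (.node (.col (nat_lit 1)) (.node (.node (.col (nat_lit 2)) (.node (.node (.col (nat_lit 2)) (.slot (nat_lit 3)) (.slot (nat_lit 1))) (.slot (nat_lit 1)) (.slot (nat_lit 1))) (.slot (nat_lit 3))) (.slot (nat_lit 7)) (.slot (nat_lit 5))) (.node (.col (nat_lit 1)) (.slot (nat_lit 4)) (.slot (nat_lit 1)))) (.col (nat_lit 1)) (.col (nat_lit 0)) (.node (.col (nat_lit 1)) (.slot (nat_lit 2)) (.slot (nat_lit 1)))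
def w25258 : Root := .mk (.node (.col (nat_lit 1)) (.node (.node (.col (nat_lit 2)) (.node (.node (.col (nat_lit 2)) (.slot (nat_lit 3)) (.slot (nat_lit 1))) (.slot (nat_lit 1)) (.slot (nat_lit 1))) (.slot (nat_lit 3))) (.slot (nat_lit 7)) (.slot (nat_lit 5))) (.node (.col (nat_lit 1)) (.slot (nat_lit 4)) (.slot (nat_lit 1)))) (.col (nat_lit 1)) (.col (nat_lit 0)) (.node (.slot (nat_lit 0)) (.slot (nat_lit 1)) (.slot (nat_lit 1)))
def w25259 : Root := .mk (.col (nat_lit 1)) (.node (.col (nat_lit 1)) (.col (nat_lit 0)) (.slot (nat_lit 0))) (.node (.node (.col (nat_lit 2)) (.node (.node (.col (nat_lit 2)) (.slot (nat_lit 9)) (.slot (nat_lit 9))) (.slot (nat_lit 8)) (.slot (nat_lit 8))) (.slot (nat_lit 9))) (.col (nat_lit 2)) (.slot (nat_lit 8))) (.node (.col (nat_lit 1)) (.slot (nat_lit 5)) (.slot (nat_lit 1)))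
def w25260 : Root := .mk (.col (nat_lit 1)) (.node (.col (nat_lit 1)) (.col (nat_lit 0)) (.slot (nat_lit 3))) (.node (.node (.col (nat_lit 2)) (.node (.slot (nat_lit 0)) (.slot (nat_lit 0)) (.slot (nat_lit 0))) (.slot (nat_lit 3))) (.node (.col (nat_lit 0)) (.slot (nat_lit 3)) (.slot (nat_lit 1))) (.slot (nat_lit 8))) (.node (.col (nat_lit 1)) (.slot (nat_lit 3)) (.slot (nat_lit 1)))
def w25261 : Root := .mk (.col (nat_lit 1)) (.node (.col (nat_lit 1)) (.col (nat_lit 0)) (.slot (nat_lit 3))) (.node (.node (.col (nat_lit 2)) (.node (.slot (nat_lit 0)) (.slot (nat_lit 0)) (.slot (nat_lit 0))) (.slot (nat_lit 1))) (.node (.col (nat_lit 2)) (.slot (nat_lit 1)) (.slot (nat_lit 1))) (.slot (nat_lit 1))) (.node (.col (nat_lit 1)) (.slot (nat_lit 3)) (.slot (nat_lit 1)))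
def w25262 : Root := .mk (.col (nat_lit 1)) (.node (.col (nat_lit 1)) (.col (nat_lit 0)) (.slot (nat_lit 8))) (.node (.node (.col (nat_lit 2)) (.node (.node (.col (nat_lit 2)) (.slot (nat_lit 0)) (.slot (nat_lit 0))) (.slot (nat_lit 8)) (.slot (nat_lit 8))) (.slot (nat_lit 8))) (.node (.col (nat_lit 3)) (.slot (nat_lit 8)) (.slot (nat_lit 8))) (.slot (nat_lit 8))) (.node (.col (nat_lit 1)) (.slot (nat_lit 3)) (.slot (nat_lit 3)))
def w25263 : Root := .mk (.col (nat_lit 1)) (.node (.col (nat_lit 1)) (.col (nat_lit 0)) (.slot (nat_lit 4))) (.node (.node (.col (nat_lit 2)) (.node (.node (.col (nat_lit 2)) (.slot (nat_lit 3)) (.slot (nat_lit 1))) (.slot (nat_lit 1)) (.slot (nat_lit 1))) (.slot (nat_lit 3))) (.node (.slot (nat_lit 0)) (.slot (nat_lit 0)) (.slot (nat_lit 0))) (.slot (nat_lit 3))) (.node (.col (nat_lit 1)) (.slot (nat_lit 4)) (.slot (nat_lit 1)))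
def w25264 : Root := .mk (.node (.col (nat_lit 1)) (.node (.col (nat_lit 1)) (.col (nat_lit 0)) (.slot (nat_lit 3))) (.node (.node (.col (nat_lit 2)) (.node (.node (.col (nat_lit 2)) (.slot (nat_lit 0)) (.slot (nat_lit 0))) (.slot (nat_lit 7)) (.slot (nat_lit 5))) (.col (nat_lit 0))) (.col (nat_lit 0)) (.slot (nat_lit 3)))) (.col (nat_lit 1)) (.col (nat_lit 2)) (.col (nat_lit 0))
def l5689 : Root := .mk (.node (.col (nat_lit 1)) (.node (.col (nat_lit 1)) (.col (nat_lit 0)) (.slot (nat_lit 21))) (.node (.node (.col (nat_lit 2)) (.node (.node (.col (nat_lit 2)) (.slot (nat_lit 0)) (.slot (nat_lit 0))) (.slot (nat_lit 7)) (.slot (nat_lit 5))) (.slot (nat_lit 8))) (.col (nat_lit 0)) (.slot (nat_lit 5)))) (.col (nat_lit 1)) (.col (nat_lit 2)) (.col (nat_lit 0))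
def w25265 : Root := .mk (.node (.col (nat_lit 1)) (.node (.col (nat_lit 1)) (.col (nat_lit 0)) (.slot (nat_lit 21))) (.node (.node (.col (nat_lit 2)) (.node (.node (.col (nat_lit 2)) (.slot (nat_lit 0)) (.slot (nat_lit 0))) (.slot (nat_lit 7)) (.slot (nat_lit 5))) (.slot (nat_lit 8))) (.slot (nat_lit 1)) (.slot (nat_lit 5)))) (.col (nat_lit 1)) (.col (nat_lit 2)) (.col (nat_lit 0))
def w25266 : Root := .mk (.node (.col (nat_lit 1)) (.node (.node (.col (nat_lit 2)) (.node (.node (.col (nat_lit 2)) (.slot (nat_lit 1)) (.slot (nat_lit 1))) (.slot (nat_lit 3)) (.slot (nat_lit 1))) (.slot (nat_lit 1))) (.col (nat_lit 0)) (.node (.slot (nat_lit 0)) (.slot (nat_lit 0)) (.slot (nat_lit 0)))) (.node .junk (.col (nat_lit 2)) (.col (nat_lit 0)))) (.col (nat_lit 1)) (.col (nat_lit 0)) (.col (nat_lit 3))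
def w25267 : Root := .mk (.node (.node (.col (nat_lit 1)) (.node .junk (.col (nat_lit 0)) (.col (nat_lit 3))) (.node (.col (nat_lit 1)) (.col (nat_lit 2)) (.col (nat_lit 0)))) (.col (nat_lit 0)) (.slot (nat_lit 1))) (.col (nat_lit 2)) (.col (nat_lit 0)) (.col (nat_lit 4))
def w25268 : Root := .mk (.node (.col (nat_lit 1)) (.node .junk (.col (nat_lit 0)) (.col (nat_lit 3))) (.node (.node (.col (nat_lit 2)) (.col (nat_lit 0)) (.node (.col (nat_lit 3)) (.slot (nat_lit 0)) (.slot (nat_lit 1)))) (.col (nat_lit 0)) (.slot (nat_lit 2)))) (.col (nat_lit 1)) (.col (nat_lit 2)) (.col (nat_lit 0))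
def l5690 : Root := .mk (.node (.col (nat_lit 1)) (.node (.node (.col (nat_lit 2)) (.col (nat_lit 0)) (.node (.col (nat_lit 3)) (.slot (nat_lit 20)) (.slot (nat_lit 9)))) (.col (nat_lit 0)) (.slot (nat_lit 3))) (.node (.col (nat_lit 1)) (.col (nat_lit 2)) (.col (nat_lit 0)))) (.col (nat_lit 1)) (.col (nat_lit 0)) (.col (nat_lit 3))
def w25269 : Root := .mk (.node (.col (nat_lit 1)) (.node (.node (.col (nat_lit 2)) (.col (nat_lit 0)) (.slot (nat_lit 21))) (.col (nat_lit 0)) (.slot (nat_lit 3))) (.node (.col (nat_lit 1)) (.col (nat_lit 2)) (.col (nat_lit 0)))) (.col (nat_lit 1)) (.col (nat_lit 0)) (.col (nat_lit 3))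
def w25270 : Root := .mk (.node (.col (nat_lit 1)) (.node (.node (.col (nat_lit 2)) (.node (.node (.col (nat_lit 2)) (.slot (nat_lit 0)) (.slot (nat_lit 0))) (.slot (nat_lit 20)) (.slot (nat_lit 9))) (.col (nat_lit 0))) (.col (nat_lit 0)) (.slot (nat_lit 3))) (.node (.col (nat_lit 1)) (.col (nat_lit 2)) (.col (nat_lit 0)))) (.col (nat_lit 1)) (.col (nat_lit 0)) (.col (nat_lit 3))
def w25271 : Root := .mk (.node (.col (nat_lit 1)) (.node (.node (.col (nat_lit 2)) (.node (.node (.col (nat_lit 2)) .junk .junk) (.slot (nat_lit 1)) (.slot (nat_lit 0))) (.node (.col (nat_lit 2)) (.slot (nat_lit 0)) (.slot (nat_lit 0)))) (.col (nat_lit 0)) (.slot (nat_lit 2))) (.node .junk (.col (nat_lit 2)) (.col (nat_lit 0)))) (.col (nat_lit 1)) (.col (nat_lit 0)) (.col (nat_lit 3))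
def w25272 : Root := .mk (.node (.col (nat_lit 1)) (.node (.node (.col (nat_lit 2)) (.node (.slot (nat_lit 0)) (.col (nat_lit 2)) (.slot (nat_lit 0))) (.slot (nat_lit 2))) (.col (nat_lit 0)) (.slot (nat_lit 2))) (.node .junk (.col (nat_lit 2)) (.col (nat_lit 0)))) (.col (nat_lit 1)) (.col (nat_lit 0)) (.col (nat_lit 3))
def l5691 : Root := .mk (.node (.col (nat_lit 1)) (.node (.node (.col (nat_lit 2)) (.node (.node (.col (nat_lit 2)) (.slot (nat_lit 12)) (.slot (nat_lit 21))) (.slot (nat_lit 20)) (.slot (nat_lit 12))) (.slot (nat_lit 21))) (.col (nat_lit 0)) (.slot (nat_lit 8))) (.node (.col (nat_lit 1)) (.col (nat_lit 2)) (.col (nat_lit 0)))) (.col (nat_lit 1)) (.col (nat_lit 0)) (.col (nat_lit 3))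
def w25273 : Root := .mk (.node (.col (nat_lit 1)) (.node (.node (.col (nat_lit 2)) (.node (.node (.col (nat_lit 2)) (.slot (nat_lit 21)) (.slot (nat_lit 12))) (.slot (nat_lit 20)) (.slot (nat_lit 12))) (.slot (nat_lit 21))) (.slot (nat_lit 1)) (.slot (nat_lit 8))) (.node (.col (nat_lit 1)) (.col (nat_lit 2)) (.col (nat_lit 0)))) (.col (nat_lit 1)) (.col (nat_lit 0)) (.col (nat_lit 3))
def w25274 : Root := .mk (.node (.col (nat_lit 1)) (.node (.col (nat_lit 1)) (.col (nat_lit 0)) (.slot (nat_lit 0))) (.node (.node (.col (nat_lit 2)) (.node (.node (.col (nat_lit 2)) (.slot (nat_lit 3)) (.slot (nat_lit 1))) (.slot (nat_lit 1)) (.slot (nat_lit 1))) (.slot (nat_lit 3))) (.slot (nat_lit 3)) (.slot (nat_lit 1)))) (.col (nat_lit 1)) (.col (nat_lit 2)) (.col (nat_lit 0))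
def w25275 : Root := .mk (.node (.col (nat_lit 1)) (.node (.col (nat_lit 1)) (.col (nat_lit 0)) (.slot (nat_lit 0))) (.node (.node (.col (nat_lit 2)) (.slot (nat_lit 0)) (.slot (nat_lit 0))) (.col (nat_lit 2)) (.slot (nat_lit 3)))) (.col (nat_lit 1)) (.col (nat_lit 2)) (.col (nat_lit 0))
def w25276 : Root := .mk (.node (.col (nat_lit 1)) (.node (.col (nat_lit 1)) (.col (nat_lit 0)) (.slot (nat_lit 3))) (.node (.node (.col (nat_lit 2)) (.node (.slot (nat_lit 0)) (.slot (nat_lit 0)) (.slot (nat_lit 0))) (.slot (nat_lit 3))) (.node (.col (nat_lit 0)) (.slot (nat_lit 1)) (.slot (nat_lit 1))) (.slot (nat_lit 8)))) (.col (nat_lit 1)) (.col (nat_lit 2)) (.col (nat_lit 0))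
def w25277 : Root := .mk (.node (.col (nat_lit 1)) (.node (.col (nat_lit 1)) (.col (nat_lit 0)) (.slot (nat_lit 21))) (.node (.node (.col (nat_lit 2)) (.node (.node (.col (nat_lit 2)) (.slot (nat_lit 0)) (.slot (nat_lit 0))) (.slot (nat_lit 7)) (.slot (nat_lit 5))) (.slot (nat_lit 8))) (.node (.col (nat_lit 1)) (.slot (nat_lit 0)) (.slot (nat_lit 0))) (.slot (nat_lit 5)))) (.col (nat_lit 1)) (.col (nat_lit 2)) (.col (nat_lit 0))
def w25278 : Root := .mk (.node (.col (nat_lit 1)) (.node (.col (nat_lit 1)) (.col (nat_lit 0)) (.slot (nat_lit 3))) (.node (.node (.col (nat_lit 2)) (.slot (nat_lit 0)) (.slot (nat_lit 0))) (.node (.col (nat_lit 2)) (.slot (nat_lit 8)) (.slot (nat_lit 8))) (.slot (nat_lit 3)))) (.col (nat_lit 1)) (.col (nat_lit 2)) (.col (nat_lit 0))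
def w25279 : Root := .mk (.node (.node (.col (nat_lit 1)) (.node (.col (nat_lit 1)) (.col (nat_lit 0)) (.slot (nat_lit 0))) (.node .junk (.col (nat_lit 2)) (.col (nat_lit 0)))) (.slot (nat_lit 1)) (.slot (nat_lit 1))) (.col (nat_lit 2)) (.col (nat_lit 0)) (.slot (nat_lit 2))
def l5692 : Root := .mk (.node (.col (nat_lit 1)) (.node (.col (nat_lit 1)) (.col (nat_lit 0)) (.slot (nat_lit 3))) (.node (.node (.col (nat_lit 2)) (.node (.node (.col (nat_lit 2)) (.slot (nat_lit 21)) (.slot (nat_lit 1))) (.slot (nat_lit 20)) (.slot (nat_lit 12))) (.col (nat_lit 1))) (.slot (nat_lit 3)) (.slot (nat_lit 3)))) (.col (nat_lit 1)) (.col (nat_lit 2)) (.col (nat_lit 0))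
def w25280 : Root := .mk (.node (.col (nat_lit 1)) (.node (.col (nat_lit 1)) (.col (nat_lit 0)) (.slot (nat_lit 3))) (.node (.node (.col (nat_lit 2)) (.node (.node (.col (nat_lit 2)) (.slot (nat_lit 21)) (.slot (nat_lit 1))) (.slot (nat_lit 20)) (.slot (nat_lit 12))) (.node (.col (nat_lit 2)) (.slot (nat_lit 0)) (.slot (nat_lit 0)))) (.slot (nat_lit 3)) (.slot (nat_lit 3)))) (.col (nat_lit 1)) (.col (nat_lit 2)) (.col (nat_lit 0))
def w25281 : Root := .mk (.node (.col (nat_lit 1)) (.node (.col (nat_lit 1)) (.col (nat_lit 0)) (.slot (nat_lit 3))) (.node (.node (.col (nat_lit 2)) (.node (.node (.col (nat_lit 2)) (.slot (nat_lit 21)) (.slot (nat_lit 1))) (.slot (nat_lit 20)) (.slot (nat_lit 12))) (.node (.slot (nat_lit 0)) (.slot (nat_lit 0)) (.slot (nat_lit 0)))) (.slot (nat_lit 3)) (.slot (nat_lit 3)))) (.col (nat_lit 1)) (.col (nat_lit 2)) (.col (nat_lit 0))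
def w25282 : Root := .mk (.node (.col (nat_lit 1)) (.node (.col (nat_lit 1)) (.col (nat_lit 0)) (.slot (nat_lit 0))) (.node (.node (.col (nat_lit 2)) (.node (.col (nat_lit 0)) (.slot (nat_lit 1)) (.slot (nat_lit 1))) (.slot (nat_lit 2))) (.node (.col (nat_lit 2)) (.slot (nat_lit 0)) (.slot (nat_lit 0))) (.col (nat_lit 2)))) (.col (nat_lit 1)) (.col (nat_lit 2)) (.col (nat_lit 0))
def w25283 : Root := .mk (.col (nat_lit 1)) (.node (.col (nat_lit 1)) (.col (nat_lit 0)) (.slot (nat_lit 0))) (.node (.node (.col (nat_lit 2)) (.node (.col (nat_lit 0)) (.slot (nat_lit 1)) (.slot (nat_lit 0))) (.slot (nat_lit 1))) (.node (.col (nat_lit 2)) (.slot (nat_lit 2)) (.slot (nat_lit 2))) (.node (.col (nat_lit 1)) (.slot (nat_lit 0)) (.slot (nat_lit 0)))) (.node .junk (.col (nat_lit 2)) (.col (nat_lit 0)))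
def w25284 : Root := .mk (.node (.col (nat_lit 1)) (.node (.col (nat_lit 1)) (.col (nat_lit 0)) (.slot (nat_lit 5))) (.node (.node (.col (nat_lit 2)) (.slot (nat_lit 0)) (.slot (nat_lit 0))) (.node (.col (nat_lit 2)) (.slot (nat_lit 1)) (.slot (nat_lit 0))) (.node (.col (nat_lit 3)) (.slot (nat_lit 4)) (.slot (nat_lit 4))))) (.col (nat_lit 1)) (.col (nat_lit 2)) (.col (nat_lit 0))
def w25285 : Root := .mk (.node (.node (.col (nat_lit 1)) (.node (.col (nat_lit 1)) (.col (nat_lit 0)) (.slot (nat_lit 0))) (.node .junk (.col (nat_lit 2)) (.col (nat_lit 0)))) (.node (.col (nat_lit 2)) (.slot (nat_lit 1)) (.slot (nat_lit 0))) (.slot (nat_lit 1))) (.col (nat_lit 2)) (.node (.col (nat_lit 0)) (.slot (nat_lit 0)) (.slot (nat_lit 0))) (.col (nat_lit 0))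
def l5693 : Root := .mk (.node (.col (nat_lit 1)) (.node (.col (nat_lit 1)) (.col (nat_lit 0)) (.slot (nat_lit 5))) (.node (.node (.col (nat_lit 2)) (.node (.col (nat_lit 0)) (.slot (nat_lit 7)) (.slot (nat_lit 5))) (.slot (nat_lit 8))) (.node (.col (nat_lit 2)) (.slot (nat_lit 8)) (.slot (nat_lit 8))) (.slot (nat_lit 8)))) (.col (nat_lit 1)) (.col (nat_lit 2)) (.col (nat_lit 0))
def w25286 : Root := .mk (.node (.col (nat_lit 1)) (.node (.col (nat_lit 1)) (.col (nat_lit 0)) (.slot (nat_lit 5))) (.node (.node (.col (nat_lit 2)) (.node (.col (nat_lit 0)) (.slot (nat_lit 7)) (.slot (nat_lit 5))) (.slot (nat_lit 8))) (.slot (nat_lit 9)) (.slot (nat_lit 8)))) (.col (nat_lit 1)) (.col (nat_lit 2)) (.col (nat_lit 0))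
def w25287 : Root := .mk (.col (nat_lit 1)) (.node (.col (nat_lit 1)) (.col (nat_lit 0)) (.slot (nat_lit 0))) (.node (.node (.col (nat_lit 2)) (.node (.col (nat_lit 1)) (.slot (nat_lit 1)) (.slot (nat_lit 1))) (.slot (nat_lit 2))) (.col (nat_lit 3)) (.slot (nat_lit 1))) (.node .junk (.col (nat_lit 2)) (.col (nat_lit 0)))
def w25288 : Root := .mk (.node (.col (nat_lit 1)) (.node (.col (nat_lit 1)) (.col (nat_lit 0)) (.slot (nat_lit 0))) (.node .junk (.col (nat_lit 2)) (.col (nat_lit 0)))) (.node (.col (nat_lit 2)) (.node (.col (nat_lit 1)) (.slot (nat_lit 1)) (.slot (nat_lit 1))) (.slot (nat_lit 2))) (.slot (nat_lit 0)) (.col (nat_lit 2))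
def w25289 : Root := .mk (.col (nat_lit 1)) (.node (.col (nat_lit 1)) (.col (nat_lit 0)) (.slot (nat_lit 0))) (.node (.node (.col (nat_lit 2)) (.node (.col (nat_lit 1)) (.slot (nat_lit 1)) (.slot (nat_lit 0))) (.slot (nat_lit 1))) (.node (.col (nat_lit 2)) (.slot (nat_lit 2)) (.slot (nat_lit 2))) (.node (.col (nat_lit 1)) (.slot (nat_lit 0)) (.slot (nat_lit 0)))) (.node .junk (.col (nat_lit 2)) (.col (nat_lit 0)))
def w25290 : Root := .mk (.node (.col (nat_lit 1)) (.node (.col (nat_lit 1)) (.col (nat_lit 0)) (.slot (nat_lit 3))) (.node (.node (.col (nat_lit 2)) (.node (.col (nat_lit 1)) (.slot (nat_lit 0)) (.slot (nat_lit 0))) (.col (nat_lit 1))) (.node (.col (nat_lit 2)) (.slot (nat_lit 0)) (.slot (nat_lit 0))) (.slot (nat_lit 2)))) (.col (nat_lit 1)) (.col (nat_lit 2)) (.col (nat_lit 0))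
def w25291 : Root := .mk (.col (nat_lit 1)) (.node (.col (nat_lit 1)) (.col (nat_lit 0)) (.slot (nat_lit 0))) (.node (.node (.col (nat_lit 2)) (.node (.col (nat_lit 1)) (.slot (nat_lit 3)) (.slot (nat_lit 1))) (.slot (nat_lit 8))) (.node (.col (nat_lit 2)) (.slot (nat_lit 0)) (.slot (nat_lit 0))) (.slot (nat_lit 3))) (.node .junk (.col (nat_lit 2)) (.col (nat_lit 0)))
def l5694 : Root := .mk (.node (.col (nat_lit 1)) (.node (.col (nat_lit 1)) (.col (nat_lit 0)) (.slot (nat_lit 3))) (.node (.node (.col (nat_lit 2)) (.node (.col (nat_lit 1)) (.slot (nat_lit 7)) (.slot (nat_lit 5))) (.slot (nat_lit 8))) (.node (.col (nat_lit 2)) (.slot (nat_lit 8)) (.slot (nat_lit 8))) (.slot (nat_lit 8)))) (.col (nat_lit 1)) (.col (nat_lit 2)) (.col (nat_lit 0))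
def w25292 : Root := .mk (.node (.col (nat_lit 1)) (.node (.col (nat_lit 1)) (.col (nat_lit 0)) (.slot (nat_lit 3))) (.node (.node (.col (nat_lit 2)) (.node (.col (nat_lit 1)) (.slot (nat_lit 7)) (.slot (nat_lit 5))) (.slot (nat_lit 8))) (.slot (nat_lit 9)) (.slot (nat_lit 8)))) (.col (nat_lit 1)) (.col (nat_lit 2)) (.col (nat_lit 0))
def w25293 : Root := .mk (.col (nat_lit 1)) (.node (.col (nat_lit 1)) (.col (nat_lit 0)) (.slot (nat_lit 0))) (.node (.node (.col (nat_lit 2)) (.node (.col (nat_lit 3)) (.slot (nat_lit 1)) (.slot (nat_lit 1))) (.slot (nat_lit 1))) (.slot (nat_lit 1)) (.slot (nat_lit 1))) (.node .junk (.col (nat_lit 2)) (.col (nat_lit 0)))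
def w25294 : Root := .mk (.node (.col (nat_lit 1)) (.node (.col (nat_lit 1)) (.col (nat_lit 0)) (.slot (nat_lit 3))) (.node (.node (.col (nat_lit 2)) (.node (.slot (nat_lit 0)) (.col (nat_lit 2)) (.slot (nat_lit 0))) (.slot (nat_lit 1))) (.col (nat_lit 0)) (.node (.col (nat_lit 0)) (.slot (nat_lit 0)) (.slot (nat_lit 0))))) (.col (nat_lit 1)) (.col (nat_lit 2)) (.col (nat_lit 0))
def w25295 : Root := .mk (.node (.col (nat_lit 1)) (.node (.col (nat_lit 1)) (.col (nat_lit 0)) (.slot (nat_lit 0))) (.node .junk (.col (nat_lit 2)) (.col (nat_lit 0)))) (.node (.col (nat_lit 2)) (.node (.slot (nat_lit 0)) (.col (nat_lit 2)) (.slot (nat_lit 0))) (.slot (nat_lit 1))) (.col (nat_lit 0)) (.node (.col (nat_lit 1)) (.slot (nat_lit 1)) (.slot (nat_lit 0)))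
def w25296 : Root := .mk (.node (.col (nat_lit 1)) (.node (.col (nat_lit 1)) (.col (nat_lit 0)) (.slot (nat_lit 3))) (.node (.node (.col (nat_lit 2)) (.node (.slot (nat_lit 0)) (.col (nat_lit 2)) (.slot (nat_lit 0))) (.slot (nat_lit 1))) (.col (nat_lit 0)) (.node (.slot (nat_lit 0)) (.slot (nat_lit 0)) (.slot (nat_lit 0))))) (.col (nat_lit 1)) (.col (nat_lit 2)) (.col (nat_lit 0))
def w25297 : Root := .mk (.node (.node (.col (nat_lit 1)) (.node (.col (nat_lit 1)) (.col (nat_lit 0)) (.slot (nat_lit 0))) (.node .junk (.col (nat_lit 2)) (.col (nat_lit 0)))) (.col (nat_lit 0)) (.slot (nat_lit 3))) (.col (nat_lit 2)) (.node (.node (.col (nat_lit 2)) (.slot (nat_lit 0)) (.slot (nat_lit 0))) (.col (nat_lit 2)) (.slot (nat_lit 3))) (.col (nat_lit 0))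
def w25298 : Root := .mk (.node (.col (nat_lit 1)) (.node (.col (nat_lit 1)) (.col (nat_lit 0)) (.slot (nat_lit 3))) (.node (.node (.col (nat_lit 2)) (.node (.slot (nat_lit 0)) (.col (nat_lit 2)) (.slot (nat_lit 0))) (.node (.col (nat_lit 1)) (.slot (nat_lit 0)) (.slot (nat_lit 0)))) (.col (nat_lit 0)) (.slot (nat_lit 2)))) (.col (nat_lit 1)) (.col (nat_lit 2)) (.col (nat_lit 0))
def w25299 : Root := .mk (.node (.col (nat_lit 1)) (.node (.col (nat_lit 1)) (.col (nat_lit 0)) (.slot (nat_lit 3))) (.node (.node (.col (nat_lit 2)) (.node (.slot (nat_lit 0)) (.col (nat_lit 2)) (.slot (nat_lit 0))) (.node (.col (nat_lit 2)) (.slot (nat_lit 0)) (.slot (nat_lit 0)))) (.col (nat_lit 0)) (.slot (nat_lit 2)))) (.col (nat_lit 1)) (.col (nat_lit 2)) (.col (nat_lit 0))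
def w25300 : Root := .mk (.node (.col (nat_lit 1)) (.node (.node (.col (nat_lit 2)) (.node (.slot (nat_lit 0)) (.col (nat_lit 2)) (.slot (nat_lit 0))) (.slot (nat_lit 2))) (.col (nat_lit 0)) (.slot (nat_lit 2))) (.node .junk (.col (nat_lit 2)) (.col (nat_lit 0)))) (.col (nat_lit 1)) (.col (nat_lit 0)) (.slot (nat_lit 0))
def l5695 : Root := .mk (.node (.col (nat_lit 1)) (.node (.col (nat_lit 1)) (.col (nat_lit 0)) (.slot (nat_lit 5))) (.node (.node (.col (nat_lit 2)) (.node (.node (.col (nat_lit 2)) (.slot (nat_lit 0)) (.slot (nat_lit 0))) (.col (nat_lit 2)) (.slot (nat_lit 3))) (.slot (nat_lit 8))) (.col (nat_lit 0)) (.slot (nat_lit 5)))) (.col (nat_lit 1)) (.col (nat_lit 2)) (.col (nat_lit 0))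
def w25301 : Root := .mk (.node (.col (nat_lit 1)) (.node (.col (nat_lit 1)) (.col (nat_lit 0)) (.slot (nat_lit 5))) (.node (.node (.col (nat_lit 2)) (.node (.node (.col (nat_lit 2)) (.slot (nat_lit 0)) (.slot (nat_lit 0))) (.col (nat_lit 2)) (.slot (nat_lit 3))) (.slot (nat_lit 8))) (.slot (nat_lit 1)) (.slot (nat_lit 5)))) (.col (nat_lit 1)) (.col (nat_lit 2)) (.col (nat_lit 0))
def w25302 : Root := .mk (.node (.node (.col (nat_lit 1)) (.node (.col (nat_lit 1)) (.col (nat_lit 0)) (.slot (nat_lit 0))) (.node .junk (.col (nat_lit 2)) (.col (nat_lit 0)))) (.col (nat_lit 1)) (.slot (nat_lit 3))) (.col (nat_lit 2)) (.node (.node (.col (nat_lit 2)) (.slot (nat_lit 1)) (.slot (nat_lit 1))) (.node (.col (nat_lit 0)) (.slot (nat_lit 0)) (.slot (nat_lit 0))) (.slot (nat_lit 2))) (.col (nat_lit 1))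
def w25303 : Root := .mk (.node (.col (nat_lit 1)) (.node (.node (.col (nat_lit 2)) (.node (.node (.col (nat_lit 2)) (.slot (nat_lit 0)) (.slot (nat_lit 0))) (.node (.col (nat_lit 0)) (.slot (nat_lit 1)) (.slot (nat_lit 0))) (.slot (nat_lit 1))) (.col (nat_lit 1))) (.slot (nat_lit 2)) (.slot (nat_lit 2))) (.node .junk (.col (nat_lit 2)) (.col (nat_lit 0)))) (.col (nat_lit 1)) (.col (nat_lit 0)) (.col (nat_lit 3))
def w25304 : Root := .mk (.node (.col (nat_lit 1)) (.node (.node (.col (nat_lit 2)) (.node (.node (.col (nat_lit 2)) (.slot (nat_lit 0)) (.slot (nat_lit 0))) (.node (.col (nat_lit 0)) (.slot (nat_lit 1)) (.slot (nat_lit 0))) (.slot (nat_lit 1))) (.col (nat_lit 1))) (.slot (nat_lit 2)) (.slot (nat_lit 2))) (.node .junk (.col (nat_lit 2)) (.col (nat_lit 0)))) (.col (nat_lit 1)) (.col (nat_lit 0)) (.slot (nat_lit 0))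
def l5696 : Root := .mk (.node (.col (nat_lit 1)) (.node (.col (nat_lit 1)) (.col (nat_lit 0)) (.slot (nat_lit 8))) (.node (.node (.col (nat_lit 2)) (.node (.node (.col (nat_lit 2)) (.slot (nat_lit 1)) (.slot (nat_lit 1))) (.node (.col (nat_lit 0)) (.slot (nat_lit 1)) (.slot (nat_lit 1))) (.slot (nat_lit 2))) (.col (nat_lit 1))) (.slot (nat_lit 3)) (.slot (nat_lit 3)))) (.col (nat_lit 1)) (.col (nat_lit 2)) (.col (nat_lit 0))
def w25305 : Root := .mk (.node (.col (nat_lit 1)) (.node (.col (nat_lit 1)) (.col (nat_lit 0)) (.slot (nat_lit 8))) (.node (.node (.col (nat_lit 2)) (.node (.node (.col (nat_lit 2)) (.slot (nat_lit 1)) (.slot (nat_lit 1))) (.node (.col (nat_lit 0)) (.slot (nat_lit 1)) (.slot (nat_lit 1))) (.slot (nat_lit 2))) (.slot (nat_lit 1))) (.slot (nat_lit 3)) (.slot (nat_lit 3)))) (.col (nat_lit 1)) (.col (nat_lit 2)) (.col (nat_lit 0))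
def w25306 : Root := .mk (.node (.col (nat_lit 1)) (.node (.col (nat_lit 1)) (.col (nat_lit 0)) (.slot (nat_lit 3))) (.node (.node (.col (nat_lit 2)) (.node (.node (.col (nat_lit 2)) (.slot (nat_lit 1)) (.slot (nat_lit 1))) (.node (.col (nat_lit 1)) (.slot (nat_lit 1)) (.slot (nat_lit 1))) (.slot (nat_lit 2))) (.slot (nat_lit 1))) (.slot (nat_lit 3)) (.slot (nat_lit 3)))) (.col (nat_lit 1)) (.col (nat_lit 2)) (.col (nat_lit 0))
def w25307 : Root := .mk (.node (.node (.col (nat_lit 1)) (.node (.col (nat_lit 1)) (.col (nat_lit 0)) (.slot (nat_lit 0))) (.node .junk (.col (nat_lit 2)) (.col (nat_lit 0)))) (.col (nat_lit 1)) (.slot (nat_lit 3))) (.col (nat_lit 2)) (.node (.node (.col (nat_lit 2)) (.slot (nat_lit 1)) (.slot (nat_lit 1))) (.node (.col (nat_lit 3)) (.slot (nat_lit 1)) (.slot (nat_lit 1))) (.slot (nat_lit 1))) (.col (nat_lit 1))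
def w25308 : Root := .mk (.node (.col (nat_lit 1)) (.node (.node (.col (nat_lit 2)) (.node (.node (.col (nat_lit 2)) (.slot (nat_lit 0)) (.slot (nat_lit 0))) (.node (.col (nat_lit 3)) (.slot (nat_lit 0)) (.slot (nat_lit 0))) (.slot (nat_lit 2))) (.col (nat_lit 1))) (.slot (nat_lit 1)) (.slot (nat_lit 1))) (.node .junk (.col (nat_lit 2)) (.col (nat_lit 0)))) (.col (nat_lit 1)) (.col (nat_lit 0)) (.col (nat_lit 3))
def w25309 : Root := .mk (.node (.col (nat_lit 1)) (.node (.node (.col (nat_lit 2)) (.node (.node (.col (nat_lit 2)) (.slot (nat_lit 0)) (.slot (nat_lit 0))) (.node (.col (nat_lit 3)) (.slot (nat_lit 1)) (.slot (nat_lit 0))) (.slot (nat_lit 1))) (.col (nat_lit 1))) (.slot (nat_lit 2)) (.slot (nat_lit 2))) (.node .junk (.col (nat_lit 2)) (.col (nat_lit 0)))) (.col (nat_lit 1)) (.col (nat_lit 0)) (.col (nat_lit 4))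
def w25310 : Root := .mk (.node (.col (nat_lit 1)) (.node (.node (.col (nat_lit 2)) (.node (.node (.col (nat_lit 2)) (.slot (nat_lit 0)) (.slot (nat_lit 0))) (.node (.col (nat_lit 3)) (.slot (nat_lit 0)) (.slot (nat_lit 0))) (.slot (nat_lit 2))) (.col (nat_lit 1))) (.slot (nat_lit 1)) (.slot (nat_lit 1))) (.node .junk (.col (nat_lit 2)) (.col (nat_lit 0)))) (.col (nat_lit 1)) (.col (nat_lit 0)) (.slot (nat_lit 0))
def l5697 : Root := .mk (.node (.col (nat_lit 1)) (.node (.col (nat_lit 1)) (.col (nat_lit 0)) (.slot (nat_lit 8))) (.node (.node (.col (nat_lit 2)) (.node (.node (.col (nat_lit 2)) (.slot (nat_lit 1)) (.slot (nat_lit 1))) (.node (.col (nat_lit 3)) (.slot (nat_lit 1)) (.slot (nat_lit 1))) (.slot (nat_lit 2))) (.col (nat_lit 1))) (.slot (nat_lit 3)) (.slot (nat_lit 3)))) (.col (nat_lit 1)) (.col (nat_lit 2)) (.col (nat_lit 0))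
def w25311 : Root := .mk (.node (.col (nat_lit 1)) (.node (.col (nat_lit 1)) (.col (nat_lit 0)) (.slot (nat_lit 8))) (.node (.node (.col (nat_lit 2)) (.node (.node (.col (nat_lit 2)) (.slot (nat_lit 1)) (.slot (nat_lit 1))) (.node (.col (nat_lit 3)) (.slot (nat_lit 1)) (.slot (nat_lit 1))) (.slot (nat_lit 2))) (.slot (nat_lit 1))) (.slot (nat_lit 3)) (.slot (nat_lit 3)))) (.col (nat_lit 1)) (.col (nat_lit 2)) (.col (nat_lit 0))
def l5698 : Root := .mk (.node (.col (nat_lit 1)) (.node (.col (nat_lit 1)) (.col (nat_lit 0)) (.slot (nat_lit 21))) (.node (.node (.col (nat_lit 2)) (.node (.node (.col (nat_lit 2)) (.slot (nat_lit 21)) (.slot (nat_lit 12))) (.slot (nat_lit 20)) (.slot (nat_lit 12))) (.slot (nat_lit 21))) (.slot (nat_lit 9)) (.slot (nat_lit 9)))) (.col (nat_lit 1)) (.col (nat_lit 2)) (.col (nat_lit 0))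
def w25312 : Root := .mk (.node (.col (nat_lit 1)) (.node (.col (nat_lit 1)) (.col (nat_lit 0)) (.slot (nat_lit 21))) (.node (.node (.col (nat_lit 2)) (.node (.node (.col (nat_lit 2)) (.slot (nat_lit 21)) (.slot (nat_lit 12))) (.slot (nat_lit 20)) (.slot (nat_lit 12))) (.slot (nat_lit 21))) (.slot (nat_lit 9)) (.slot (nat_lit 9)))) (.col (nat_lit 1)) (.col (nat_lit 2)) (.slot (nat_lit 1))
def l5699 : Root := .mk (.col (nat_lit 1)) (.node (.col (nat_lit 1)) (.col (nat_lit 0)) (.slot (nat_lit 8))) (.node (.node (.col (nat_lit 2)) (.node (.node (.col (nat_lit 2)) (.slot (nat_lit 7)) (.slot (nat_lit 5))) (.slot (nat_lit 8)) (.slot (nat_lit 2))) (.slot (nat_lit 8))) (.slot (nat_lit 8)) (.slot (nat_lit 8))) (.col (nat_lit 2))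
def w25313 : Root := .mk (.node (.col (nat_lit 1)) (.node (.col (nat_lit 1)) (.col (nat_lit 0)) (.slot (nat_lit 8))) (.node (.node (.col (nat_lit 2)) (.node (.node (.col (nat_lit 2)) (.slot (nat_lit 7)) (.slot (nat_lit 5))) (.slot (nat_lit 8)) (.slot (nat_lit 2))) (.slot (nat_lit 8))) (.slot (nat_lit 8)) (.slot (nat_lit 8)))) (.col (nat_lit 1)) (.col (nat_lit 3)) (.slot (nat_lit 0))
def l5700 : Root := .mk (.node (.col (nat_lit 1)) (.node (.col (nat_lit 1)) (.col (nat_lit 0)) (.slot (nat_lit 1))) (.node (.col (nat_lit 1)) (.slot (nat_lit 0)) (.slot (nat_lit 0)))) (.node (.col (nat_lit 2)) (.node (.node (.col (nat_lit 2)) (.slot (nat_lit 0)) (.slot (nat_lit 0))) (.slot (nat_lit 4)) (.slot (nat_lit 4))) (.col (nat_lit 1))) (.col (nat_lit 2)) (.col (nat_lit 0))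
def w25314 : Root := .mk (.node (.node (.col (nat_lit 1)) (.node (.col (nat_lit 1)) (.col (nat_lit 0)) (.slot (nat_lit 1))) (.node (.col (nat_lit 1)) (.slot (nat_lit 0)) (.slot (nat_lit 0)))) (.col (nat_lit 2)) (.slot (nat_lit 1))) (.col (nat_lit 2)) (.node (.node (.col (nat_lit 2)) (.slot (nat_lit 0)) (.slot (nat_lit 0))) (.slot (nat_lit 4)) (.slot (nat_lit 4))) (.col (nat_lit 1))
def w25315 : Root := .mk (.node (.node (.col (nat_lit 1)) (.node (.col (nat_lit 1)) (.col (nat_lit 0)) (.slot (nat_lit 3))) (.node (.col (nat_lit 1)) (.slot (nat_lit 0)) (.slot (nat_lit 0)))) (.node (.col (nat_lit 0)) (.slot (nat_lit 1)) (.slot (nat_lit 1))) (.slot (nat_lit 4))) (.col (nat_lit 2)) (.node (.node (.col (nat_lit 2)) (.slot (nat_lit 1)) (.slot (nat_lit 0))) (.slot (nat_lit 2)) (.slot (nat_lit 2))) (.col (nat_lit 1))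
def w25316 : Root := .mk (.node (.node (.col (nat_lit 1)) (.node (.col (nat_lit 1)) (.col (nat_lit 0)) (.slot (nat_lit 3))) (.node (.col (nat_lit 1)) (.slot (nat_lit 0)) (.slot (nat_lit 0)))) (.node (.col (nat_lit 3)) (.slot (nat_lit 1)) (.slot (nat_lit 0))) (.slot (nat_lit 2))) (.col (nat_lit 2)) (.node (.node (.col (nat_lit 2)) (.slot (nat_lit 1)) (.slot (nat_lit 1))) (.slot (nat_lit 2)) (.slot (nat_lit 1))) (.col (nat_lit 1))
def l5701 : Root := .mk (.node (.node (.col (nat_lit 1)) (.node (.col (nat_lit 1)) (.col (nat_lit 0)) (.slot (nat_lit 5))) (.node (.col (nat_lit 1)) (.slot (nat_lit 3)) (.slot (nat_lit 1)))) (.col (nat_lit 0)) (.slot (nat_lit 3))) (.col (nat_lit 2)) (.node (.node (.col (nat_lit 2)) (.slot (nat_lit 0)) (.slot (nat_lit 0))) (.col (nat_lit 2)) (.slot (nat_lit 3))) (.col (nat_lit 1))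
def w25317 : Root := .mk (.node (.node (.col (nat_lit 1)) (.node (.col (nat_lit 1)) (.col (nat_lit 0)) (.slot (nat_lit 5))) (.node (.col (nat_lit 1)) (.slot (nat_lit 3)) (.slot (nat_lit 1)))) (.slot (nat_lit 1)) (.slot (nat_lit 3))) (.col (nat_lit 2)) (.node (.node (.col (nat_lit 2)) (.slot (nat_lit 0)) (.slot (nat_lit 0))) (.col (nat_lit 2)) (.slot (nat_lit 3))) (.col (nat_lit 1))
def l5702 : Root := .mk (.col (nat_lit 1)) (.node (.col (nat_lit 1)) (.col (nat_lit 0)) (.slot (nat_lit 8))) (.node (.node (.col (nat_lit 2)) (.node (.node (.col (nat_lit 2)) (.slot (nat_lit 1)) (.slot (nat_lit 1))) (.node (.col (nat_lit 0)) (.slot (nat_lit 1)) (.slot (nat_lit 0))) (.slot (nat_lit 2))) (.col (nat_lit 1))) (.slot (nat_lit 3)) (.slot (nat_lit 3))) (.col (nat_lit 2))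
def w25318 : Root := .mk (.node (.node (.col (nat_lit 1)) (.node (.col (nat_lit 1)) (.col (nat_lit 0)) (.slot (nat_lit 8))) (.node (.col (nat_lit 1)) (.slot (nat_lit 0)) (.slot (nat_lit 0)))) (.slot (nat_lit 3)) (.slot (nat_lit 3))) (.col (nat_lit 2)) (.node (.node (.col (nat_lit 2)) (.slot (nat_lit 1)) (.slot (nat_lit 1))) (.node (.col (nat_lit 0)) (.slot (nat_lit 1)) (.slot (nat_lit 0))) (.slot (nat_lit 2))) (.col (nat_lit 1))
def l5703 : Root := .mk (.col (nat_lit 1)) (.node (.col (nat_lit 1)) (.col (nat_lit 0)) (.slot (nat_lit 3))) (.node (.node (.col (nat_lit 2)) (.node (.node (.col (nat_lit 2)) (.slot (nat_lit 1)) (.slot (nat_lit 1))) (.node (.col (nat_lit 3)) (.slot (nat_lit 1)) (.slot (nat_lit 0))) (.slot (nat_lit 2))) (.col (nat_lit 1))) (.slot (nat_lit 3)) (.slot (nat_lit 3))) (.col (nat_lit 2))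
def w25319 : Root := .mk (.node (.node (.col (nat_lit 1)) (.node (.col (nat_lit 1)) (.col (nat_lit 0)) (.slot (nat_lit 3))) (.node (.col (nat_lit 1)) (.slot (nat_lit 0)) (.slot (nat_lit 0)))) (.slot (nat_lit 3)) (.slot (nat_lit 3))) (.col (nat_lit 2)) (.node (.node (.col (nat_lit 2)) (.slot (nat_lit 1)) (.slot (nat_lit 1))) (.node (.col (nat_lit 3)) (.slot (nat_lit 1)) (.slot (nat_lit 0))) (.slot (nat_lit 2))) (.col (nat_lit 1))
def l5704 : Root := .mk (.col (nat_lit 1)) (.node (.col (nat_lit 1)) (.col (nat_lit 0)) (.slot (nat_lit 8))) (.node (.node (.col (nat_lit 2)) (.node (.node (.col (nat_lit 2)) (.slot (nat_lit 1)) (.slot (nat_lit 1))) (.node (.slot (nat_lit 0)) (.slot (nat_lit 0)) (.slot (nat_lit 0))) (.slot (nat_lit 2))) (.col (nat_lit 1))) (.slot (nat_lit 3)) (.slot (nat_lit 3))) (.col (nat_lit 2))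
def w25320 : Root := .mk (.node (.node (.col (nat_lit 1)) (.node (.col (nat_lit 1)) (.col (nat_lit 0)) (.slot (nat_lit 8))) (.node (.col (nat_lit 1)) (.slot (nat_lit 0)) (.slot (nat_lit 0)))) (.slot (nat_lit 3)) (.slot (nat_lit 3))) (.col (nat_lit 2)) (.node (.node (.col (nat_lit 2)) (.slot (nat_lit 1)) (.slot (nat_lit 1))) (.node (.slot (nat_lit 0)) (.slot (nat_lit 0)) (.slot (nat_lit 0))) (.slot (nat_lit 2))) (.col (nat_lit 1))
def l5705 : Root := .mk (.node (.node (.col (nat_lit 1)) (.node (.col (nat_lit 1)) (.col (nat_lit 0)) (.slot (nat_lit 8))) (.node (.col (nat_lit 1)) (.slot (nat_lit 3)) (.slot (nat_lit 3)))) (.slot (nat_lit 7)) (.slot (nat_lit 7))) (.col (nat_lit 2)) (.node (.node (.col (nat_lit 2)) (.slot (nat_lit 21)) (.slot (nat_lit 4))) (.slot (nat_lit 20)) (.slot (nat_lit 12))) (.col (nat_lit 1))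
def w25321 : Root := .mk (.node (.node (.col (nat_lit 1)) (.node (.col (nat_lit 1)) (.col (nat_lit 0)) (.slot (nat_lit 8))) (.node (.col (nat_lit 1)) (.slot (nat_lit 3)) (.slot (nat_lit 3)))) (.slot (nat_lit 7)) (.slot (nat_lit 7))) (.col (nat_lit 2)) (.node (.node (.col (nat_lit 2)) (.slot (nat_lit 21)) (.slot (nat_lit 4))) (.slot (nat_lit 20)) (.slot (nat_lit 12))) (.node (.col (nat_lit 2)) (.slot (nat_lit 0)) (.slot (nat_lit 0)))
def w25322 : Root := .mk (.node (.node (.col (nat_lit 1)) (.node (.col (nat_lit 1)) (.col (nat_lit 0)) (.slot (nat_lit 8))) (.node (.col (nat_lit 1)) (.slot (nat_lit 3)) (.slot (nat_lit 3)))) (.slot (nat_lit 7)) (.slot (nat_lit 7))) (.col (nat_lit 2)) (.node (.node (.col (nat_lit 2)) (.slot (nat_lit 21)) (.slot (nat_lit 4))) (.slot (nat_lit 20)) (.slot (nat_lit 12))) (.node (.slot (nat_lit 0)) (.slot (nat_lit 0)) (.slot (nat_lit 0)))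
def w25323 : Root := .mk (.col (nat_lit 1)) (.node (.col (nat_lit 1)) (.col (nat_lit 0)) (.slot (nat_lit 8))) (.node (.node (.col (nat_lit 2)) (.node (.col (nat_lit 1)) (.slot (nat_lit 8)) (.slot (nat_lit 8))) (.slot (nat_lit 8))) (.slot (nat_lit 9)) (.slot (nat_lit 8))) (.node (.col (nat_lit 1)) (.slot (nat_lit 3)) (.slot (nat_lit 3)))
def w25324 : Root := .mk (.col (nat_lit 1)) (.node (.col (nat_lit 1)) (.col (nat_lit 0)) (.slot (nat_lit 3))) (.node (.node (.col (nat_lit 2)) (.node (.col (nat_lit 3)) (.slot (nat_lit 1)) (.slot (nat_lit 1))) (.slot (nat_lit 1))) (.slot (nat_lit 1)) (.slot (nat_lit 1))) (.node (.col (nat_lit 1)) (.slot (nat_lit 3)) (.slot (nat_lit 1)))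
def w25325 : Root := .mk (.col (nat_lit 1)) (.node (.col (nat_lit 1)) (.col (nat_lit 0)) (.slot (nat_lit 3))) (.node (.node (.col (nat_lit 2)) (.node (.node (.col (nat_lit 2)) (.slot (nat_lit 10)) (.slot (nat_lit 8))) (.col (nat_lit 2)) (.slot (nat_lit 8))) (.slot (nat_lit 10))) (.slot (nat_lit 7)) (.slot (nat_lit 5))) (.node (.col (nat_lit 1)) (.slot (nat_lit 3)) (.slot (nat_lit 1)))
def w25326 : Root := .mk (.col (nat_lit 1)) (.node (.col (nat_lit 1)) (.col (nat_lit 0)) (.slot (nat_lit 3))) (.node (.node (.col (nat_lit 2)) (.node (.node (.col (nat_lit 2)) (.slot (nat_lit 7)) (.slot (nat_lit 5))) (.node (.col (nat_lit 0)) (.slot (nat_lit 0)) (.slot (nat_lit 0))) (.slot (nat_lit 8))) (.slot (nat_lit 8))) (.slot (nat_lit 7)) (.slot (nat_lit 5))) (.node (.col (nat_lit 1)) (.slot (nat_lit 3)) (.slot (nat_lit 1)))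
def w25327 : Root := .mk (.col (nat_lit 1)) (.node (.col (nat_lit 1)) (.col (nat_lit 0)) (.slot (nat_lit 3))) (.node (.node (.col (nat_lit 2)) (.node (.node (.col (nat_lit 2)) (.slot (nat_lit 7)) (.slot (nat_lit 5))) (.node (.col (nat_lit 1)) (.slot (nat_lit 0)) (.slot (nat_lit 0))) (.slot (nat_lit 8))) (.slot (nat_lit 8))) (.slot (nat_lit 7)) (.slot (nat_lit 5))) (.node (.col (nat_lit 1)) (.slot (nat_lit 3)) (.slot (nat_lit 1)))
def w25328 : Root := .mk (.col (nat_lit 1)) (.node (.col (nat_lit 1)) (.col (nat_lit 0)) (.slot (nat_lit 3))) (.node (.node (.col (nat_lit 2)) (.node (.node (.col (nat_lit 2)) (.slot (nat_lit 7)) (.slot (nat_lit 5))) (.node (.col (nat_lit 3)) (.slot (nat_lit 4)) (.slot (nat_lit 1))) (.slot (nat_lit 1))) (.slot (nat_lit 8))) (.slot (nat_lit 7)) (.slot (nat_lit 5))) (.node (.col (nat_lit 1)) (.slot (nat_lit 3)) (.slot (nat_lit 1)))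
def w25329 : Root := .mk (.col (nat_lit 1)) (.node (.col (nat_lit 1)) (.col (nat_lit 0)) (.slot (nat_lit 2))) (.node (.node (.col (nat_lit 2)) (.node (.node (.col (nat_lit 2)) (.node (.col (nat_lit 2)) (.slot (nat_lit 0)) (.slot (nat_lit 0))) (.slot (nat_lit 3))) (.slot (nat_lit 1)) (.slot (nat_lit 1))) (.slot (nat_lit 3))) (.slot (nat_lit 7)) (.slot (nat_lit 5))) (.node (.col (nat_lit 1)) (.slot (nat_lit 0)) (.slot (nat_lit 0)))
def l5706 : Root := .mk (.node (.col (nat_lit 1)) (.node (.node (.col (nat_lit 2)) (.node (.node (.col (nat_lit 2)) (.slot (nat_lit 21)) (.slot (nat_lit 12))) (.slot (nat_lit 20)) (.slot (nat_lit 12))) (.slot (nat_lit 21))) (.slot (nat_lit 9)) (.slot (nat_lit 9))) (.node (.col (nat_lit 1)) (.slot (nat_lit 5)) (.slot (nat_lit 3)))) (.col (nat_lit 1)) (.col (nat_lit 0)) (.slot (nat_lit 21))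
def w25330 : Root := .mk (.col (nat_lit 1)) (.node (.col (nat_lit 1)) (.slot (nat_lit 1)) (.slot (nat_lit 21))) (.node (.node (.col (nat_lit 2)) (.node (.node (.col (nat_lit 2)) (.slot (nat_lit 21)) (.slot (nat_lit 12))) (.slot (nat_lit 20)) (.slot (nat_lit 12))) (.slot (nat_lit 21))) (.slot (nat_lit 9)) (.slot (nat_lit 9))) (.node (.col (nat_lit 1)) (.slot (nat_lit 5)) (.slot (nat_lit 3)))
def w25388 : Root := .mk (.col (nat_lit 1)) (.node .junk (.node (.col (nat_lit 2)) (.slot (nat_lit 0)) (.slot (nat_lit 0))) (.col (nat_lit 2))) (.node (.node (.col (nat_lit 2)) (.col (nat_lit 1)) (.node (.slot (nat_lit 0)) (.slot (nat_lit 0)) (.slot (nat_lit 0)))) (.col (nat_lit 3)) (.slot (nat_lit 0))) (.col (nat_lit 3))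
def w25500 : Root := .mk (.col (nat_lit 1)) (.col (nat_lit 0)) (.node (.node (.col (nat_lit 2)) (.node (.slot (nat_lit 0)) (.slot (nat_lit 0)) (.slot (nat_lit 0))) (.col (nat_lit 1))) (.node (.col (nat_lit 0)) (.slot (nat_lit 0)) (.slot (nat_lit 0))) (.node (.col (nat_lit 3)) (.slot (nat_lit 1)) (.slot (nat_lit 0)))) (.node (.slot (nat_lit 0)) (.col (nat_lit 4)) (.slot (nat_lit 1)))
def w25648 : Root := .mk (.node (.node (.col (nat_lit 1)) (.node (.col (nat_lit 1)) (.node (.col (nat_lit 2)) (.slot (nat_lit 0)) (.slot (nat_lit 0))) (.col (nat_lit 2))) (.col (nat_lit 0))) (.node (.col (nat_lit 2)) (.col (nat_lit 0)) (.slot (nat_lit 0))) (.slot (nat_lit 0))) (.col (nat_lit 0)) (.col (nat_lit 1)) (.col (nat_lit 3))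
def w25790 : Root := .mk (.node (.node (.col (nat_lit 1)) (.slot (nat_lit 0)) (.slot (nat_lit 0))) (.node (.col (nat_lit 0)) (.slot (nat_lit 0)) (.slot (nat_lit 1))) (.slot (nat_lit 1))) (.col (nat_lit 2)) (.node (.col (nat_lit 1)) (.col (nat_lit 2)) (.slot (nat_lit 5))) (.col (nat_lit 0))
def w25872 : Root := .mk (.node (.node (.col (nat_lit 1)) (.slot (nat_lit 0)) (.slot (nat_lit 0))) (.node (.col (nat_lit 0)) (.col (nat_lit 4)) (.slot (nat_lit 1))) (.node (.col (nat_lit 2)) (.slot (nat_lit 1)) (.slot (nat_lit 0)))) (.col (nat_lit 2)) (.node (.node (.col (nat_lit 2)) (.slot (nat_lit 0)) (.slot (nat_lit 0))) (.col (nat_lit 2)) (.col (nat_lit 1))) (.col (nat_lit 0))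
def l5852 : Root := .mk (.node (.node (.node (.slot (nat_lit 0)) (.slot (nat_lit 0)) (.slot (nat_lit 0))) (.col (nat_lit 2)) (.col (nat_lit 1))) (.slot (nat_lit 20)) (.slot (nat_lit 9))) (.col (nat_lit 2)) (.node (.col (nat_lit 4)) (.slot (nat_lit 2)) (.slot (nat_lit 5))) (.col (nat_lit 1))
def w26019 : Root := .mk (.node (.slot (nat_lit 0)) (.slot (nat_lit 0)) (.slot (nat_lit 0))) (.col (nat_lit 2)) (.node (.node (.col (nat_lit 2)) (.node (.col (nat_lit 4)) (.slot (nat_lit 5)) (.slot (nat_lit 2))) (.node (.slot (nat_lit 0)) (.slot (nat_lit 0)) (.slot (nat_lit 0)))) (.slot (nat_lit 20)) (.slot (nat_lit 9))) (.col (nat_lit 1))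
def w26113 : Root := .mk (.col (nat_lit 1)) (.col (nat_lit 3)) (.node (.node (.col (nat_lit 2)) (.node (.col (nat_lit 3)) (.col (nat_lit 4)) (.slot (nat_lit 5))) (.col (nat_lit 3))) (.node (.col (nat_lit 0)) (.slot (nat_lit 0)) (.slot (nat_lit 0))) (.node (.slot (nat_lit 0)) (.col (nat_lit 2)) (.slot (nat_lit 1)))) (.slot (nat_lit 0))
def w26256 : Root := .mk (.node (.node (.node (.col (nat_lit 1)) (.slot (nat_lit 0)) (.node (.slot (nat_lit 0)) (.slot (nat_lit 0)) (.slot (nat_lit 0)))) (.col (nat_lit 3)) (.node (.col (nat_lit 0)) (.slot (nat_lit 1)) (.slot (nat_lit 1)))) (.slot (nat_lit 1)) (.slot (nat_lit 1))) (.col (nat_lit 0)) (.col (nat_lit 4)) (.slot (nat_lit 2))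
def w26264 : Root := .mk (.node (.node (.col (nat_lit 1)) (.slot (nat_lit 0)) (.node (.slot (nat_lit 0)) (.slot (nat_lit 0)) (.slot (nat_lit 0)))) (.node (.col (nat_lit 2)) (.col (nat_lit 1)) (.slot (nat_lit 2))) (.node (.col (nat_lit 0)) (.slot (nat_lit 0)) (.slot (nat_lit 0)))) (.col (nat_lit 3)) (.col (nat_lit 1)) (.slot (nat_lit 2))
def l5893 : Root := .mk (.node (.node (.col (nat_lit 1)) (.slot (nat_lit 0)) (.node (.slot (nat_lit 0)) (.slot (nat_lit 0)) (.slot (nat_lit 0)))) (.node (.col (nat_lit 0)) (.slot (nat_lit 1)) (.slot (nat_lit 1))) (.node (.col (nat_lit 3)) (.col (nat_lit 2)) (.slot (nat_lit 21)))) (.col (nat_lit 2)) (.col (nat_lit 1)) (.node (.col (nat_lit 4)) (.slot (nat_lit 20)) (.slot (nat_lit 9)))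
def w26268 : Root := .mk (.node (.node (.col (nat_lit 1)) (.slot (nat_lit 0)) (.node (.slot (nat_lit 0)) (.slot (nat_lit 0)) (.slot (nat_lit 0)))) (.node (.col (nat_lit 2)) (.col (nat_lit 1)) (.slot (nat_lit 21))) (.node (.col (nat_lit 0)) (.slot (nat_lit 1)) (.slot (nat_lit 1)))) (.col (nat_lit 3)) (.col (nat_lit 2)) (.slot (nat_lit 21))
def w26430 : Root := .mk (.col (nat_lit 1)) (.node (.col (nat_lit 1)) (.slot (nat_lit 0)) (.slot (nat_lit 0))) (.node (.node (.col (nat_lit 2)) (.node (.node (.col (nat_lit 2)) (.slot (nat_lit 12)) (.slot (nat_lit 10))) (.slot (nat_lit 8)) (.slot (nat_lit 5))) (.slot (nat_lit 8))) (.slot (nat_lit 8)) (.slot (nat_lit 8))) (.node (.node (.col (nat_lit 0)) (.slot (nat_lit 1)) (.slot (nat_lit 1))) (.slot (nat_lit 7)) (.slot (nat_lit 5)))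
def l5908 : Root := .mk (.col (nat_lit 1)) (.col (nat_lit 2)) (.node (.node (.col (nat_lit 2)) (.node (.node (.col (nat_lit 2)) (.slot (nat_lit 7)) (.slot (nat_lit 5))) (.slot (nat_lit 8)) (.slot (nat_lit 1))) (.slot (nat_lit 21))) (.slot (nat_lit 12)) (.slot (nat_lit 20))) (.node (.node (.col (nat_lit 2)) (.slot (nat_lit 21)) (.slot (nat_lit 8))) (.slot (nat_lit 20)) (.slot (nat_lit 12)))
def w26431 : Root := .mk (.col (nat_lit 1)) (.node (.col (nat_lit 1)) (.slot (nat_lit 0)) (.slot (nat_lit 0))) (.node (.node (.col (nat_lit 2)) (.node (.node (.col (nat_lit 2)) (.slot (nat_lit 7)) (.slot (nat_lit 5))) (.slot (nat_lit 8)) (.slot (nat_lit 1))) (.slot (nat_lit 21))) (.slot (nat_lit 20)) (.slot (nat_lit 12))) (.node (.node (.col (nat_lit 2)) (.slot (nat_lit 21)) (.slot (nat_lit 8))) (.slot (nat_lit 20)) (.slot (nat_lit 12)))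
def w26432 : Root := .mk (.node (.col (nat_lit 1)) (.node (.node (.col (nat_lit 2)) (.node (.node (.col (nat_lit 2)) (.slot (nat_lit 7)) (.slot (nat_lit 5))) (.slot (nat_lit 8)) (.slot (nat_lit 1))) (.slot (nat_lit 8))) (.slot (nat_lit 7)) (.slot (nat_lit 5))) (.node (.node (.slot (nat_lit 0)) (.slot (nat_lit 0)) (.slot (nat_lit 0))) (.slot (nat_lit 3)) (.slot (nat_lit 3)))) (.col (nat_lit 1)) (.node (.col (nat_lit 2)) (.slot (nat_lit 4)) (.slot (nat_lit 1))) (.col (nat_lit 2))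
def w26433 : Root := .mk (.node (.col (nat_lit 1)) (.node (.node (.col (nat_lit 2)) (.node (.node (.col (nat_lit 2)) (.slot (nat_lit 3)) (.slot (nat_lit 1))) (.slot (nat_lit 1)) (.slot (nat_lit 1))) (.slot (nat_lit 3))) (.slot (nat_lit 1)) (.slot (nat_lit 1))) (.node (.node (.slot (nat_lit 0)) (.slot (nat_lit 0)) (.slot (nat_lit 0))) (.slot (nat_lit 1)) (.slot (nat_lit 1)))) (.col (nat_lit 1)) (.node (.col (nat_lit 2)) (.slot (nat_lit 20)) (.slot (nat_lit 9))) (.node (.slot (nat_lit 0)) (.slot (nat_lit 0)) (.slot (nat_lit 0)))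
def w26434 : Root := .mk (.node (.node (.col (nat_lit 1)) (.node (.col (nat_lit 1)) (.node (.col (nat_lit 2)) (.col (nat_lit 1)) (.slot (nat_lit 21))) (.slot (nat_lit 8))) (.node (.node (.slot (nat_lit 0)) (.slot (nat_lit 0)) (.slot (nat_lit 0))) (.slot (nat_lit 1)) (.slot (nat_lit 0)))) (.col (nat_lit 0)) (.slot (nat_lit 3))) (.col (nat_lit 2)) (.node (.node (.col (nat_lit 2)) (.slot (nat_lit 0)) (.slot (nat_lit 0))) (.slot (nat_lit 20)) (.slot (nat_lit 9))) (.col (nat_lit 0))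
def w26435 : Root := .mk (.node (.node (.col (nat_lit 1)) (.node (.col (nat_lit 1)) (.slot (nat_lit 0)) (.slot (nat_lit 0))) (.node (.node (.slot (nat_lit 0)) (.slot (nat_lit 0)) (.slot (nat_lit 0))) (.slot (nat_lit 5)) (.slot (nat_lit 5)))) (.col (nat_lit 0)) (.slot (nat_lit 2))) (.col (nat_lit 2)) (.node (.node (.col (nat_lit 2)) (.slot (nat_lit 3)) (.slot (nat_lit 1))) (.slot (nat_lit 8)) (.slot (nat_lit 8))) (.node (.col (nat_lit 2)) (.slot (nat_lit 0)) (.slot (nat_lit 0)))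
def l5909 : Root := .mk (.col (nat_lit 1)) (.node (.col (nat_lit 1)) (.node (.col (nat_lit 2)) (.col (nat_lit 1)) (.slot (nat_lit 21))) (.slot (nat_lit 8))) (.node (.node (.col (nat_lit 2)) (.node (.node (.col (nat_lit 2)) (.slot (nat_lit 12)) (.slot (nat_lit 10))) (.slot (nat_lit 20)) (.slot (nat_lit 9))) (.slot (nat_lit 21))) (.col (nat_lit 0)) (.slot (nat_lit 8))) (.node (.node (.slot (nat_lit 0)) (.slot (nat_lit 0)) (.slot (nat_lit 0))) (.slot (nat_lit 5)) (.slot (nat_lit 5)))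
def w26436 : Root := .mk (.node (.node (.col (nat_lit 1)) (.node (.node (.col (nat_lit 2)) (.node (.node (.col (nat_lit 2)) (.slot (nat_lit 12)) (.slot (nat_lit 10))) (.slot (nat_lit 20)) (.slot (nat_lit 9))) (.slot (nat_lit 21))) (.slot (nat_lit 1)) (.slot (nat_lit 8))) (.node (.node (.slot (nat_lit 0)) (.slot (nat_lit 0)) (.slot (nat_lit 0))) (.slot (nat_lit 5)) (.slot (nat_lit 5)))) (.col (nat_lit 1)) (.slot (nat_lit 8))) (.col (nat_lit 2)) (.col (nat_lit 1)) (.slot (nat_lit 21))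
def w26437 : Root := .mk (.col (nat_lit 1)) (.node (.col (nat_lit 1)) (.node (.col (nat_lit 2)) (.slot (nat_lit 7)) (.slot (nat_lit 5))) (.slot (nat_lit 8))) (.node (.node (.col (nat_lit 2)) (.node (.node (.col (nat_lit 2)) (.slot (nat_lit 12)) (.slot (nat_lit 10))) (.slot (nat_lit 8)) (.slot (nat_lit 8))) (.slot (nat_lit 8))) (.node (.col (nat_lit 2)) (.slot (nat_lit 0)) (.slot (nat_lit 0))) (.slot (nat_lit 8))) (.node (.node (.slot (nat_lit 0)) (.slot (nat_lit 0)) (.slot (nat_lit 0))) (.slot (nat_lit 0)) (.slot (nat_lit 0)))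
def w26438 : Root := .mk (.col (nat_lit 1)) (.node (.col (nat_lit 1)) (.node (.col (nat_lit 2)) (.slot (nat_lit 1)) (.slot (nat_lit 1))) (.slot (nat_lit 2))) (.node (.node (.col (nat_lit 2)) (.node (.node (.col (nat_lit 2)) (.slot (nat_lit 3)) (.slot (nat_lit 1))) (.slot (nat_lit 1)) (.slot (nat_lit 1))) (.slot (nat_lit 3))) (.slot (nat_lit 20)) (.slot (nat_lit 9))) (.node (.slot (nat_lit 0)) (.col (nat_lit 1)) (.slot (nat_lit 0)))
def w26439 : Root := .mk (.col (nat_lit 1)) (.node (.col (nat_lit 1)) (.node (.col (nat_lit 2)) (.slot (nat_lit 1)) (.slot (nat_lit 1))) (.slot (nat_lit 2))) (.node (.node (.col (nat_lit 2)) (.slot (nat_lit 0)) (.slot (nat_lit 0))) (.slot (nat_lit 1)) (.slot (nat_lit 2))) (.node (.node (.slot (nat_lit 0)) (.slot (nat_lit 0)) (.slot (nat_lit 0))) (.col (nat_lit 2)) (.slot (nat_lit 1)))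
def w26440 : Root := .mk (.node (.node (.col (nat_lit 1)) (.node (.col (nat_lit 1)) (.slot (nat_lit 0)) (.slot (nat_lit 0))) (.node (.node (.slot (nat_lit 0)) (.slot (nat_lit 0)) (.slot (nat_lit 0))) (.slot (nat_lit 5)) (.slot (nat_lit 5)))) (.node (.col (nat_lit 0)) (.slot (nat_lit 0)) (.slot (nat_lit 0))) (.slot (nat_lit 2))) (.col (nat_lit 2)) (.node (.node (.col (nat_lit 2)) (.slot (nat_lit 3)) (.slot (nat_lit 1))) (.slot (nat_lit 8)) (.slot (nat_lit 8))) (.col (nat_lit 1))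
def l5910 : Root := .mk (.node (.node (.node (.col (nat_lit 1)) (.node (.col (nat_lit 1)) (.node (.col (nat_lit 2)) (.slot (nat_lit 8)) (.slot (nat_lit 8))) (.node (.col (nat_lit 2)) (.slot (nat_lit 8)) (.slot (nat_lit 8)))) (.node (.node (.slot (nat_lit 0)) (.slot (nat_lit 0)) (.slot (nat_lit 0))) (.slot (nat_lit 1)) (.slot (nat_lit 1)))) (.slot (nat_lit 1)) (.slot (nat_lit 1))) (.col (nat_lit 2)) (.col (nat_lit 1))) (.col (nat_lit 0)) (.col (nat_lit 2)) (.col (nat_lit 1))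
def w26441 : Root := .mk (.node (.node (.node (.col (nat_lit 1)) (.node (.col (nat_lit 1)) (.node (.col (nat_lit 2)) (.slot (nat_lit 8)) (.slot (nat_lit 8))) (.slot (nat_lit 9))) (.node (.node (.slot (nat_lit 0)) (.slot (nat_lit 0)) (.slot (nat_lit 0))) (.slot (nat_lit 1)) (.slot (nat_lit 1)))) (.slot (nat_lit 1)) (.slot (nat_lit 1))) (.col (nat_lit 2)) (.col (nat_lit 1))) (.col (nat_lit 0)) (.col (nat_lit 2)) (.col (nat_lit 1))
def l5911 : Root := .mk (.node (.node (.col (nat_lit 1)) (.node (.col (nat_lit 1)) (.node (.col (nat_lit 2)) (.slot (nat_lit 20)) (.slot (nat_lit 9))) (.slot (nat_lit 9))) (.node (.node (.slot (nat_lit 0)) (.slot (nat_lit 0)) (.slot (nat_lit 0))) (.slot (nat_lit 1)) (.slot (nat_lit 1)))) (.slot (nat_lit 7)) (.slot (nat_lit 5))) (.col (nat_lit 2)) (.node (.col (nat_lit 0)) (.col (nat_lit 2)) (.slot (nat_lit 8))) (.col (nat_lit 1))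
def w26442 : Root := .mk (.node (.node (.col (nat_lit 1)) (.node (.col (nat_lit 1)) (.node (.col (nat_lit 2)) (.slot (nat_lit 20)) (.slot (nat_lit 9))) (.slot (nat_lit 9))) (.node (.node (.slot (nat_lit 0)) (.slot (nat_lit 0)) (.slot (nat_lit 0))) (.slot (nat_lit 1)) (.slot (nat_lit 1)))) (.slot (nat_lit 7)) (.slot (nat_lit 5))) (.col (nat_lit 2)) (.node (.node (.col (nat_lit 2)) (.slot (nat_lit 0)) (.slot (nat_lit 0))) (.col (nat_lit 2)) (.slot (nat_lit 8))) (.col (nat_lit 1))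
def l5912 : Root := .mk (.node (.node (.col (nat_lit 1)) (.node (.col (nat_lit 1)) (.node (.col (nat_lit 2)) (.slot (nat_lit 20)) (.slot (nat_lit 9))) (.slot (nat_lit 9))) (.node (.node (.slot (nat_lit 0)) (.slot (nat_lit 0)) (.slot (nat_lit 0))) (.slot (nat_lit 5)) (.slot (nat_lit 5)))) (.slot (nat_lit 20)) (.slot (nat_lit 12))) (.col (nat_lit 2)) (.node (.node (.col (nat_lit 2)) (.slot (nat_lit 21)) (.slot (nat_lit 4))) (.slot (nat_lit 20)) (.slot (nat_lit 12))) (.col (nat_lit 1))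
def w26443 : Root := .mk (.node (.node (.col (nat_lit 1)) (.node (.col (nat_lit 1)) (.node (.col (nat_lit 2)) (.slot (nat_lit 20)) (.slot (nat_lit 9))) (.slot (nat_lit 9))) (.node (.node (.slot (nat_lit 0)) (.slot (nat_lit 0)) (.slot (nat_lit 0))) (.slot (nat_lit 5)) (.slot (nat_lit 5)))) (.slot (nat_lit 20)) (.slot (nat_lit 12))) (.col (nat_lit 2)) (.node (.node (.col (nat_lit 2)) (.slot (nat_lit 21)) (.slot (nat_lit 4))) (.slot (nat_lit 20)) (.slot (nat_lit 12))) (.node (.col (nat_lit 2)) (.slot (nat_lit 0)) (.slot (nat_lit 0)))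
def w26444 : Root := .mk (.node (.node (.col (nat_lit 1)) (.node (.col (nat_lit 1)) (.node (.col (nat_lit 2)) (.slot (nat_lit 20)) (.slot (nat_lit 9))) (.slot (nat_lit 9))) (.node (.node (.slot (nat_lit 0)) (.slot (nat_lit 0)) (.slot (nat_lit 0))) (.slot (nat_lit 5)) (.slot (nat_lit 5)))) (.slot (nat_lit 20)) (.slot (nat_lit 12))) (.col (nat_lit 2)) (.node (.node (.col (nat_lit 2)) (.slot (nat_lit 21)) (.slot (nat_lit 4))) (.slot (nat_lit 20)) (.slot (nat_lit 12))) (.node (.slot (nat_lit 0)) (.slot (nat_lit 0)) (.slot (nat_lit 0)))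
def l5913 : Root := .mk (.node (.node (.col (nat_lit 1)) (.node (.col (nat_lit 1)) (.node (.col (nat_lit 2)) (.slot (nat_lit 7)) (.slot (nat_lit 5))) (.node (.col (nat_lit 2)) (.slot (nat_lit 7)) (.slot (nat_lit 5)))) (.node (.node (.slot (nat_lit 0)) (.slot (nat_lit 0)) (.slot (nat_lit 0))) (.slot (nat_lit 1)) (.slot (nat_lit 1)))) (.slot (nat_lit 2)) (.slot (nat_lit 1))) (.col (nat_lit 2)) (.col (nat_lit 1)) (.node (.slot (nat_lit 0)) (.slot (nat_lit 0)) (.slot (nat_lit 0)))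
def w26447 : Root := .mk (.node (.node (.col (nat_lit 1)) (.node (.col (nat_lit 1)) (.node (.col (nat_lit 2)) (.slot (nat_lit 7)) (.slot (nat_lit 5))) (.slot (nat_lit 8))) (.node (.node (.slot (nat_lit 0)) (.slot (nat_lit 0)) (.slot (nat_lit 0))) (.slot (nat_lit 1)) (.slot (nat_lit 1)))) (.slot (nat_lit 2)) (.slot (nat_lit 1))) (.col (nat_lit 2)) (.col (nat_lit 1)) (.node (.slot (nat_lit 0)) (.slot (nat_lit 0)) (.slot (nat_lit 0)))
def w26448 : Root := .mk (.node (.col (nat_lit 1)) (.node (.node (.col (nat_lit 2)) (.col (nat_lit 1)) (.slot (nat_lit 2))) (.slot (nat_lit 1)) (.slot (nat_lit 1))) (.node (.node (.slot (nat_lit 0)) (.slot (nat_lit 0)) (.slot (nat_lit 0))) (.slot (nat_lit 3)) (.slot (nat_lit 3)))) (.col (nat_lit 1)) (.node (.col (nat_lit 2)) (.slot (nat_lit 4)) (.slot (nat_lit 1))) (.col (nat_lit 2))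
def l5914 : Root := .mk (.node (.node (.col (nat_lit 1)) (.node (.col (nat_lit 1)) (.node (.col (nat_lit 2)) (.slot (nat_lit 20)) (.slot (nat_lit 9))) (.slot (nat_lit 8))) (.node (.node (.slot (nat_lit 0)) (.slot (nat_lit 0)) (.slot (nat_lit 0))) (.slot (nat_lit 3)) (.slot (nat_lit 3)))) (.slot (nat_lit 20)) (.slot (nat_lit 12))) (.col (nat_lit 2)) (.col (nat_lit 1)) (.slot (nat_lit 21))
def w26449 : Root := .mk (.col (nat_lit 1)) (.node (.col (nat_lit 1)) (.node (.col (nat_lit 2)) (.slot (nat_lit 20)) (.slot (nat_lit 9))) (.slot (nat_lit 8))) (.node (.node (.col (nat_lit 2)) (.node (.slot (nat_lit 0)) (.col (nat_lit 2)) (.slot (nat_lit 0))) (.slot (nat_lit 21))) (.slot (nat_lit 20)) (.slot (nat_lit 12))) (.node (.node (.slot (nat_lit 0)) (.slot (nat_lit 0)) (.slot (nat_lit 0))) (.slot (nat_lit 3)) (.slot (nat_lit 3)))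
def w26450 : Root := .mk (.col (nat_lit 1)) (.node (.col (nat_lit 1)) (.node (.col (nat_lit 2)) (.slot (nat_lit 20)) (.slot (nat_lit 9))) (.slot (nat_lit 8))) (.node (.node (.col (nat_lit 2)) (.node (.slot (nat_lit 0)) (.slot (nat_lit 0)) (.slot (nat_lit 0))) (.slot (nat_lit 21))) (.slot (nat_lit 20)) (.slot (nat_lit 12))) (.node (.node (.slot (nat_lit 0)) (.slot (nat_lit 0)) (.slot (nat_lit 0))) (.slot (nat_lit 3)) (.slot (nat_lit 3)))
def l5915 : Root := .mk (.col (nat_lit 1)) (.node (.col (nat_lit 1)) (.node (.col (nat_lit 2)) (.slot (nat_lit 21)) (.slot (nat_lit 21))) (.slot (nat_lit 21))) (.node (.node (.col (nat_lit 2)) (.node (.node (.col (nat_lit 2)) (.slot (nat_lit 21)) (.slot (nat_lit 10))) (.slot (nat_lit 12)) (.slot (nat_lit 20))) (.slot (nat_lit 21))) (.slot (nat_lit 20)) (.slot (nat_lit 12))) (.node (.node (.slot (nat_lit 0)) (.slot (nat_lit 0)) (.slot (nat_lit 0))) (.slot (nat_lit 9)) (.slot (nat_lit 8)))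
def w26451 : Root := .mk (.col (nat_lit 1)) (.node (.col (nat_lit 1)) (.slot (nat_lit 22)) (.slot (nat_lit 21))) (.node (.node (.col (nat_lit 2)) (.node (.node (.col (nat_lit 2)) (.slot (nat_lit 21)) (.slot (nat_lit 10))) (.slot (nat_lit 20)) (.slot (nat_lit 12))) (.slot (nat_lit 21))) (.slot (nat_lit 20)) (.slot (nat_lit 12))) (.node (.node (.slot (nat_lit 0)) (.slot (nat_lit 0)) (.slot (nat_lit 0))) (.slot (nat_lit 9)) (.slot (nat_lit 8)))
def w26453 : Root := .mk (.node (.node (.node (.col (nat_lit 1)) (.col (nat_lit 0)) (.slot (nat_lit 2))) (.slot (nat_lit 1)) (.slot (nat_lit 1))) (.col (nat_lit 2)) (.slot (nat_lit 3))) (.node (.col (nat_lit 2)) (.node (.col (nat_lit 2)) (.slot (nat_lit 0)) (.slot (nat_lit 0))) (.slot (nat_lit 3))) (.col (nat_lit 0)) (.col (nat_lit 2))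
def w26454 : Root := .mk (.node (.node (.node (.col (nat_lit 1)) (.col (nat_lit 3)) (.slot (nat_lit 2))) (.slot (nat_lit 1)) (.slot (nat_lit 1))) (.col (nat_lit 2)) (.slot (nat_lit 3))) (.node (.col (nat_lit 2)) (.node (.col (nat_lit 2)) (.slot (nat_lit 0)) (.slot (nat_lit 0))) (.slot (nat_lit 3))) (.col (nat_lit 0)) (.col (nat_lit 2))
def l5917 : Root := .mk (.node (.col (nat_lit 1)) (.node (.col (nat_lit 1)) (.slot (nat_lit 0)) (.slot (nat_lit 0))) (.slot (nat_lit 1))) (.node (.col (nat_lit 2)) (.node (.node (.col (nat_lit 2)) (.slot (nat_lit 0)) (.slot (nat_lit 2))) (.col (nat_lit 0)) (.slot (nat_lit 8))) (.slot (nat_lit 9))) (.col (nat_lit 0)) (.col (nat_lit 2))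
def w26459 : Root := .mk (.node (.col (nat_lit 1)) (.node (.col (nat_lit 1)) (.slot (nat_lit 0)) (.slot (nat_lit 0))) (.slot (nat_lit 1))) (.node (.col (nat_lit 2)) (.node (.node (.col (nat_lit 2)) (.slot (nat_lit 0)) (.slot (nat_lit 2))) (.slot (nat_lit 1)) (.slot (nat_lit 8))) (.slot (nat_lit 9))) (.col (nat_lit 0)) (.col (nat_lit 2))
def l5925 : Root := .mk (.node (.node (.node (.node (.col (nat_lit 1)) (.node (.col (nat_lit 1)) (.slot (nat_lit 0)) (.slot (nat_lit 0))) (.slot (nat_lit 9))) (.slot (nat_lit 8)) (.slot (nat_lit 8))) (.col (nat_lit 2)) (.slot (nat_lit 21))) (.slot (nat_lit 20)) (.slot (nat_lit 12))) (.col (nat_lit 2)) (.col (nat_lit 1)) (.slot (nat_lit 5))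
def w26484 : Root := .mk (.node (.node (.node (.node (.col (nat_lit 1)) (.node (.col (nat_lit 1)) (.slot (nat_lit 0)) (.slot (nat_lit 0))) (.slot (nat_lit 9))) (.slot (nat_lit 8)) (.slot (nat_lit 8))) (.col (nat_lit 2)) (.slot (nat_lit 21))) (.slot (nat_lit 20)) (.slot (nat_lit 12))) (.col (nat_lit 2)) (.node (.col (nat_lit 2)) (.slot (nat_lit 0)) (.slot (nat_lit 0))) (.slot (nat_lit 5))
def w26485 : Root := .mk (.node (.node (.node (.node (.col (nat_lit 1)) (.node (.col (nat_lit 1)) (.slot (nat_lit 0)) (.slot (nat_lit 0))) (.slot (nat_lit 9))) (.slot (nat_lit 8)) (.slot (nat_lit 8))) (.col (nat_lit 2)) (.slot (nat_lit 21))) (.slot (nat_lit 20)) (.slot (nat_lit 12))) (.col (nat_lit 2)) (.node (.slot (nat_lit 0)) (.slot (nat_lit 0)) (.slot (nat_lit 0))) (.slot (nat_lit 5))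
def l5926 : Root := .mk (.node (.node (.col (nat_lit 1)) (.node (.col (nat_lit 1)) (.slot (nat_lit 22)) (.slot (nat_lit 21))) (.slot (nat_lit 23))) (.slot (nat_lit 23)) (.slot (nat_lit 22))) (.col (nat_lit 2)) (.node (.node (.col (nat_lit 2)) (.slot (nat_lit 22)) (.slot (nat_lit 21))) (.slot (nat_lit 23)) (.slot (nat_lit 23))) (.slot (nat_lit 22))
def w26496 : Root := .mk (.node (.node (.col (nat_lit 2)) (.node .junk (.col (nat_lit 1)) (.col (nat_lit 0))) (.slot (nat_lit 1))) (.col (nat_lit 2)) (.slot (nat_lit 8))) (.col (nat_lit 0)) (.node (.slot (nat_lit 0)) (.slot (nat_lit 1)) (.slot (nat_lit 1))) (.col (nat_lit 2))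
def w26519 : Root := .mk (.node (.node (.col (nat_lit 2)) (.node .junk (.col (nat_lit 1)) (.col (nat_lit 3))) (.slot (nat_lit 1))) (.col (nat_lit 2)) (.slot (nat_lit 8))) (.col (nat_lit 0)) (.node (.slot (nat_lit 0)) (.slot (nat_lit 1)) (.slot (nat_lit 1))) (.col (nat_lit 2))
def w26549 : Root := .mk (.slot (nat_lit 0)) (.node (.node (.col (nat_lit 1)) (.slot (nat_lit 3)) (.slot (nat_lit 1))) (.node (.node (.col (nat_lit 1)) (.col (nat_lit 0)) (.slot (nat_lit 2))) (.slot (nat_lit 1)) (.slot (nat_lit 1))) (.slot (nat_lit 1))) (.col (nat_lit 1)) (.col (nat_lit 0))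
def w26559 : Root := .mk (.node (.node (.slot (nat_lit 0)) (.col (nat_lit 1)) (.slot (nat_lit 1))) (.node (.col (nat_lit 1)) (.slot (nat_lit 7)) (.slot (nat_lit 5))) (.slot (nat_lit 8))) (.node (.col (nat_lit 1)) (.slot (nat_lit 1)) (.slot (nat_lit 1))) (.col (nat_lit 2)) (.slot (nat_lit 2))
def w26716 : Root := .mk (.node (.node (.col (nat_lit 2)) (.node (.slot (nat_lit 0)) (.slot (nat_lit 0)) (.slot (nat_lit 0))) (.node (.node (.slot (nat_lit 0)) (.slot (nat_lit 0)) (.slot (nat_lit 0))) (.slot (nat_lit 2)) (.slot (nat_lit 2)))) (.slot (nat_lit 1)) (.slot (nat_lit 1))) (.col (nat_lit 2)) (.col (nat_lit 1)) (.node (.node (.slot (nat_lit 0)) (.slot (nat_lit 0)) (.slot (nat_lit 0))) (.slot (nat_lit 2)) (.slot (nat_lit 2)))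
def w26755 : Root := .mk (.node (.node (.col (nat_lit 2)) (.col (nat_lit 0)) (.slot (nat_lit 21))) (.slot (nat_lit 20)) (.slot (nat_lit 12))) (.col (nat_lit 0)) (.node (.slot (nat_lit 0)) (.slot (nat_lit 1)) (.slot (nat_lit 1))) (.node (.col (nat_lit 0)) (.slot (nat_lit 0)) (.slot (nat_lit 0)))
def w26756 : Root := .mk (.node (.node (.col (nat_lit 2)) (.col (nat_lit 0)) (.slot (nat_lit 21))) (.slot (nat_lit 20)) (.slot (nat_lit 12))) (.col (nat_lit 0)) (.node (.slot (nat_lit 0)) (.slot (nat_lit 1)) (.slot (nat_lit 1))) (.node (.slot (nat_lit 0)) (.slot (nat_lit 0)) (.slot (nat_lit 0)))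
def w26772 : Root := .mk (.col (nat_lit 2)) (.node (.slot (nat_lit 0)) (.col (nat_lit 3)) (.slot (nat_lit 1))) (.node (.node (.col (nat_lit 0)) (.node (.slot (nat_lit 0)) (.slot (nat_lit 0)) (.slot (nat_lit 0))) (.slot (nat_lit 8))) (.node (.slot (nat_lit 0)) (.slot (nat_lit 1)) (.slot (nat_lit 1))) (.slot (nat_lit 4))) (.col (nat_lit 0))
def w26818 : Root := .mk (.col (nat_lit 2)) (.col (nat_lit 0)) (.node (.node (.col (nat_lit 0)) (.node (.node (.col (nat_lit 1)) (.col (nat_lit 2)) (.slot (nat_lit 0))) (.slot (nat_lit 2)) (.slot (nat_lit 2))) (.col (nat_lit 2))) (.col (nat_lit 3)) (.col (nat_lit 0))) (.col (nat_lit 3))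
def l5996 : Root := .mk (.col (nat_lit 2)) (.col (nat_lit 0)) (.node (.node (.col (nat_lit 0)) (.node (.node (.col (nat_lit 1)) (.col (nat_lit 2)) (.slot (nat_lit 0))) (.slot (nat_lit 5)) (.slot (nat_lit 5))) (.col (nat_lit 2))) (.col (nat_lit 3)) (.node (.col (nat_lit 4)) (.slot (nat_lit 0)) (.slot (nat_lit 0)))) (.col (nat_lit 3))
def w26819 : Root := .mk (.col (nat_lit 2)) (.col (nat_lit 0)) (.node (.node (.col (nat_lit 0)) (.node (.node (.col (nat_lit 1)) (.col (nat_lit 2)) (.slot (nat_lit 0))) (.slot (nat_lit 5)) (.slot (nat_lit 5))) (.slot (nat_lit 1))) (.col (nat_lit 3)) (.node (.col (nat_lit 4)) (.slot (nat_lit 0)) (.slot (nat_lit 0)))) (.col (nat_lit 3))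
def l5997 : Root := .mk (.node (.node (.node (.node (.col (nat_lit 2)) (.col (nat_lit 0)) (.slot (nat_lit 6))) (.col (nat_lit 3)) (.node (.col (nat_lit 4)) (.slot (nat_lit 1)) (.slot (nat_lit 1)))) (.col (nat_lit 0)) (.slot (nat_lit 6))) (.slot (nat_lit 5)) (.slot (nat_lit 5))) (.col (nat_lit 1)) (.col (nat_lit 2)) (.slot (nat_lit 0))
def w26820 : Root := .mk (.node (.node (.node (.node (.col (nat_lit 2)) (.node (.slot (nat_lit 0)) (.slot (nat_lit 0)) (.slot (nat_lit 0))) (.slot (nat_lit 6))) (.col (nat_lit 3)) (.node (.col (nat_lit 4)) (.slot (nat_lit 1)) (.slot (nat_lit 1)))) (.col (nat_lit 0)) (.slot (nat_lit 6))) (.slot (nat_lit 5)) (.slot (nat_lit 5))) (.col (nat_lit 1)) (.col (nat_lit 2)) (.slot (nat_lit 0))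
def w26826 : Root := .mk (.node (.node (.node (.slot (nat_lit 0)) (.col (nat_lit 3)) (.slot (nat_lit 0))) (.col (nat_lit 0)) (.slot (nat_lit 21))) (.slot (nat_lit 20)) (.slot (nat_lit 12))) (.col (nat_lit 1)) (.node (.node (.col (nat_lit 1)) (.slot (nat_lit 0)) (.slot (nat_lit 0))) (.col (nat_lit 1)) (.slot (nat_lit 2))) (.col (nat_lit 0))
def l6018 : Root := .mk (.node (.col (nat_lit 2)) (.slot (nat_lit 0)) (.slot (nat_lit 0))) (.col (nat_lit 2)) (.node (.node (.col (nat_lit 1)) (.col (nat_lit 2)) (.slot (nat_lit 21))) (.slot (nat_lit 20)) (.slot (nat_lit 12))) (.col (nat_lit 1))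
def w26937 : Root := .mk (.node (.col (nat_lit 2)) (.slot (nat_lit 0)) (.slot (nat_lit 0))) (.col (nat_lit 2)) (.node (.node (.col (nat_lit 1)) (.slot (nat_lit 1)) (.slot (nat_lit 21))) (.slot (nat_lit 20)) (.slot (nat_lit 12))) (.col (nat_lit 1))
def w27026 : Root := .mk (.col (nat_lit 2)) (.node (.slot (nat_lit 0)) (.slot (nat_lit 0)) (.slot (nat_lit 0))) (.node (.col (nat_lit 2)) (.node (.node (.col (nat_lit 1)) (.col (nat_lit 0)) (.slot (nat_lit 2))) (.slot (nat_lit 1)) (.slot (nat_lit 1))) (.slot (nat_lit 2))) (.node (.col (nat_lit 3)) (.slot (nat_lit 7)) (.slot (nat_lit 5)))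
def w27037 : Root := .mk (.node (.slot (nat_lit 0)) (.col (nat_lit 0)) (.slot (nat_lit 0))) (.col (nat_lit 0)) (.node (.node (.col (nat_lit 0)) (.slot (nat_lit 1)) (.slot (nat_lit 21))) (.slot (nat_lit 20)) (.slot (nat_lit 12))) (.col (nat_lit 1))
def w27093 : Root := .mk (.col (nat_lit 2)) (.col (nat_lit 3)) (.node (.col (nat_lit 2)) (.node (.node (.col (nat_lit 1)) (.col (nat_lit 0)) (.slot (nat_lit 2))) (.slot (nat_lit 1)) (.slot (nat_lit 1))) (.node (.col (nat_lit 2)) (.slot (nat_lit 3)) (.slot (nat_lit 1)))) (.node (.node (.slot (nat_lit 0)) (.slot (nat_lit 0)) (.slot (nat_lit 0))) (.slot (nat_lit 2)) (.slot (nat_lit 2)))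
def w27100 : Root := .mk (.col (nat_lit 2)) (.node (.slot (nat_lit 0)) (.slot (nat_lit 1)) (.slot (nat_lit 1))) (.node (.col (nat_lit 2)) (.node (.node (.col (nat_lit 1)) (.col (nat_lit 0)) (.slot (nat_lit 2))) (.slot (nat_lit 1)) (.slot (nat_lit 1))) (.slot (nat_lit 8))) (.col (nat_lit 0))
def l6066 : Root := .mk (.col (nat_lit 2)) (.col (nat_lit 1)) (.node (.col (nat_lit 2)) (.col (nat_lit 0)) (.node (.slot (nat_lit 0)) (.slot (nat_lit 1)) (.slot (nat_lit 1)))) (.node (.node (.node (.col (nat_lit 0)) (.slot (nat_lit 20)) (.slot (nat_lit 9))) (.col (nat_lit 2)) (.slot (nat_lit 8))) (.slot (nat_lit 20)) (.slot (nat_lit 12)))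
def w27119 : Root := .mk (.node (.col (nat_lit 2)) (.node (.slot (nat_lit 0)) (.slot (nat_lit 0)) (.slot (nat_lit 0))) (.node (.node (.node (.col (nat_lit 0)) (.slot (nat_lit 20)) (.slot (nat_lit 9))) (.col (nat_lit 2)) (.slot (nat_lit 8))) (.slot (nat_lit 20)) (.slot (nat_lit 12)))) (.col (nat_lit 2)) (.col (nat_lit 0)) (.node (.slot (nat_lit 0)) (.slot (nat_lit 1)) (.slot (nat_lit 1)))
def w27245 : Root := .mk (.node (.node (.col (nat_lit 2)) (.slot (nat_lit 0)) (.slot (nat_lit 0))) (.node (.slot (nat_lit 0)) (.col (nat_lit 1)) (.slot (nat_lit 0))) (.node (.col (nat_lit 0)) (.col (nat_lit 2)) (.slot (nat_lit 3)))) (.slot (nat_lit 0)) (.col (nat_lit 2)) (.col (nat_lit 0))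
def w27252 : Root := .mk (.node (.node (.col (nat_lit 2)) (.col (nat_lit 3)) (.node (.col (nat_lit 2)) (.col (nat_lit 1)) (.node (.col (nat_lit 1)) (.slot (nat_lit 0)) (.slot (nat_lit 0))))) (.node (.col (nat_lit 4)) (.col (nat_lit 1)) (.slot (nat_lit 0))) (.slot (nat_lit 0))) (.col (nat_lit 4)) (.col (nat_lit 3)) (.col (nat_lit 2))
def w27523 : Root := .mk (.node (.node (.slot (nat_lit 0)) (.col (nat_lit 0)) (.slot (nat_lit 0))) (.slot (nat_lit 5)) (.slot (nat_lit 5))) (.col (nat_lit 1)) (.node (.node (.col (nat_lit 1)) (.col (nat_lit 2)) (.slot (nat_lit 0))) (.node (.col (nat_lit 0)) (.slot (nat_lit 6)) (.slot (nat_lit 1))) (.slot (nat_lit 8))) (.col (nat_lit 0))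
def w27679 : Root := .mk (.col (nat_lit 2)) (.node (.slot (nat_lit 0)) (.col (nat_lit 1)) (.slot (nat_lit 1))) (.node (.node (.node (.col (nat_lit 1)) (.col (nat_lit 0)) .junk) (.col (nat_lit 2)) (.node (.slot (nat_lit 0)) (.slot (nat_lit 0)) (.slot (nat_lit 0)))) (.slot (nat_lit 1)) (.slot (nat_lit 1))) (.col (nat_lit 0))
def w27887 : Root := .mk (.node (.node (.col (nat_lit 2)) (.node (.slot (nat_lit 0)) (.slot (nat_lit 0)) (.col (nat_lit 1))) (.slot (nat_lit 1))) (.slot (nat_lit 20)) (.slot (nat_lit 12))) (.col (nat_lit 2)) (.col (nat_lit 1)) (.slot (nat_lit 21))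
def w28003 : Root := .mk (.node (.col (nat_lit 2)) (.node (.slot (nat_lit 0)) (.col (nat_lit 2)) (.col (nat_lit 0))) (.node (.col (nat_lit 0)) (.slot (nat_lit 7)) (.slot (nat_lit 5)))) (.node (.col (nat_lit 2)) (.slot (nat_lit 1)) (.slot (nat_lit 1))) (.col (nat_lit 0)) (.col (nat_lit 2))
def w28212 : Root := .mk (.node (.node (.node (.col (nat_lit 2)) (.node (.slot (nat_lit 0)) (.slot (nat_lit 0)) (.col (nat_lit 1))) (.slot (nat_lit 1))) (.col (nat_lit 0)) (.slot (nat_lit 3))) (.slot (nat_lit 1)) (.slot (nat_lit 1))) (.col (nat_lit 1)) (.col (nat_lit 2)) (.slot (nat_lit 2))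
def w28214 : Root := .mk (.col (nat_lit 2)) (.node (.slot (nat_lit 0)) (.col (nat_lit 1)) (.col (nat_lit 2))) (.node (.node (.slot (nat_lit 0)) (.slot (nat_lit 0)) (.slot (nat_lit 0))) (.slot (nat_lit 2)) (.slot (nat_lit 2))) (.node (.col (nat_lit 1)) (.node (.col (nat_lit 0)) (.slot (nat_lit 3)) (.slot (nat_lit 1))) (.slot (nat_lit 8)))
def w28215 : Root := .mk (.node (.node (.col (nat_lit 2)) (.node (.slot (nat_lit 0)) (.col (nat_lit 1)) (.slot (nat_lit 0))) (.slot (nat_lit 1))) (.col (nat_lit 3)) (.slot (nat_lit 3))) (.col (nat_lit 1)) (.col (nat_lit 0)) (.node (.col (nat_lit 0)) (.slot (nat_lit 0)) (.slot (nat_lit 0)))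
def w28216 : Root := .mk (.node (.node (.col (nat_lit 2)) (.node (.slot (nat_lit 0)) (.col (nat_lit 1)) (.slot (nat_lit 0))) (.slot (nat_lit 1))) (.node (.node (.col (nat_lit 1)) (.col (nat_lit 2)) (.slot (nat_lit 2))) (.slot (nat_lit 1)) (.slot (nat_lit 1))) (.slot (nat_lit 3))) (.col (nat_lit 1)) (.col (nat_lit 0)) (.node (.col (nat_lit 0)) (.slot (nat_lit 0)) (.slot (nat_lit 0)))
def w28220 : Root := .mk (.node (.node (.col (nat_lit 2)) (.slot (nat_lit 0)) (.slot (nat_lit 1))) (.node (.node (.col (nat_lit 1)) (.col (nat_lit 2)) (.slot (nat_lit 2))) (.slot (nat_lit 1)) (.slot (nat_lit 1))) (.slot (nat_lit 1))) (.col (nat_lit 1)) (.col (nat_lit 2)) (.slot (nat_lit 1))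
def w28223 : Root := .mk (.node (.node (.node (.col (nat_lit 2)) (.slot (nat_lit 0)) (.slot (nat_lit 1))) (.node (.col (nat_lit 1)) (.node (.col (nat_lit 0)) (.slot (nat_lit 0)) (.slot (nat_lit 1))) (.slot (nat_lit 5))) (.slot (nat_lit 3))) (.slot (nat_lit 1)) (.slot (nat_lit 1))) (.col (nat_lit 1)) (.col (nat_lit 2)) (.slot (nat_lit 2))
def w28225 : Root := .mk (.node (.node (.node (.col (nat_lit 2)) (.node (.slot (nat_lit 0)) (.col (nat_lit 1)) (.slot (nat_lit 1))) (.slot (nat_lit 1))) (.node (.col (nat_lit 1)) (.node (.col (nat_lit 0)) (.slot (nat_lit 1)) (.slot (nat_lit 1))) (.slot (nat_lit 2))) (.slot (nat_lit 1))) (.col (nat_lit 2)) (.slot (nat_lit 2))) (.col (nat_lit 1)) (.col (nat_lit 2)) (.slot (nat_lit 0))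
def w28226 : Root := .mk (.node (.node (.slot (nat_lit 0)) (.node (.col (nat_lit 1)) (.node (.col (nat_lit 0)) (.slot (nat_lit 7)) (.slot (nat_lit 5))) (.slot (nat_lit 8))) (.slot (nat_lit 1))) (.node (.col (nat_lit 0)) (.slot (nat_lit 0)) (.slot (nat_lit 0))) (.slot (nat_lit 2))) (.col (nat_lit 1)) (.col (nat_lit 2)) (.slot (nat_lit 2))
def w28227 : Root := .mk (.node (.node (.node (.col (nat_lit 2)) (.slot (nat_lit 0)) (.slot (nat_lit 0))) (.node (.col (nat_lit 1)) (.node (.col (nat_lit 0)) (.slot (nat_lit 20)) (.slot (nat_lit 12))) (.slot (nat_lit 21))) (.slot (nat_lit 3))) (.node (.col (nat_lit 3)) (.slot (nat_lit 20)) (.slot (nat_lit 12))) (.slot (nat_lit 21))) (.col (nat_lit 1)) (.col (nat_lit 2)) (.slot (nat_lit 0))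
def w28279 : Root := .mk (.node (.node (.slot (nat_lit 0)) (.slot (nat_lit 0)) (.col (nat_lit 1))) (.col (nat_lit 2)) (.node (.col (nat_lit 1)) (.col (nat_lit 2)) (.slot (nat_lit 5)))) (.col (nat_lit 1)) (.node .junk (.col (nat_lit 3)) (.node (.slot (nat_lit 0)) (.slot (nat_lit 0)) (.slot (nat_lit 0)))) (.col (nat_lit 2))
def w28371 : Root := .mk (.col (nat_lit 2)) (.node (.slot (nat_lit 0)) (.col (nat_lit 0)) (.col (nat_lit 1))) (.node (.node (.node (.col (nat_lit 1)) (.slot (nat_lit 0)) (.slot (nat_lit 0))) (.col (nat_lit 0)) (.col (nat_lit 1))) (.col (nat_lit 0)) (.slot (nat_lit 1))) (.col (nat_lit 1))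
def w28387 : Root := .mk (.node (.col (nat_lit 2)) (.node (.node (.slot (nat_lit 0)) (.slot (nat_lit 0)) (.slot (nat_lit 0))) (.node (.col (nat_lit 3)) (.col (nat_lit 1)) (.slot (nat_lit 2))) (.slot (nat_lit 8))) (.node (.col (nat_lit 0)) (.slot (nat_lit 20)) (.slot (nat_lit 9)))) (.slot (nat_lit 0)) (.col (nat_lit 0)) (.col (nat_lit 2))
def w28441 : Root := .mk (.node (.node (.col (nat_lit 2)) (.node (.slot (nat_lit 0)) (.col (nat_lit 3)) (.slot (nat_lit 1))) (.node (.col (nat_lit 3)) (.slot (nat_lit 1)) (.slot (nat_lit 1)))) (.node (.col (nat_lit 3)) (.col (nat_lit 1)) (.slot (nat_lit 1))) (.slot (nat_lit 1))) (.slot (nat_lit 0)) (.col (nat_lit 2)) (.col (nat_lit 1))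
def l6327 : Root := .mk (.node (.node (.col (nat_lit 2)) (.slot (nat_lit 0)) (.slot (nat_lit 1))) (.node (.col (nat_lit 3)) (.col (nat_lit 2)) (.node (.slot (nat_lit 0)) (.slot (nat_lit 0)) (.slot (nat_lit 0)))) (.slot (nat_lit 1))) (.node (.col (nat_lit 1)) (.slot (nat_lit 5)) (.slot (nat_lit 5))) (.col (nat_lit 2)) (.col (nat_lit 3))
def w28453 : Root := .mk (.node (.node (.col (nat_lit 2)) (.slot (nat_lit 0)) (.slot (nat_lit 1))) (.node (.node (.col (nat_lit 1)) (.slot (nat_lit 5)) (.slot (nat_lit 5))) (.col (nat_lit 2)) (.node (.slot (nat_lit 0)) (.slot (nat_lit 0)) (.slot (nat_lit 0)))) (.slot (nat_lit 1))) (.col (nat_lit 3)) (.col (nat_lit 2)) (.node (.slot (nat_lit 0)) (.slot (nat_lit 0)) (.slot (nat_lit 0)))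
def w28454 : Root := .mk (.node (.node (.col (nat_lit 2)) (.node (.slot (nat_lit 0)) (.col (nat_lit 1)) (.slot (nat_lit 1))) (.node (.col (nat_lit 1)) (.slot (nat_lit 1)) (.slot (nat_lit 1)))) (.node (.col (nat_lit 3)) (.col (nat_lit 0)) (.slot (nat_lit 0))) (.slot (nat_lit 2))) (.col (nat_lit 3)) (.col (nat_lit 2)) (.node (.slot (nat_lit 0)) (.slot (nat_lit 1)) (.slot (nat_lit 1)))
def w28468 : Root := .mk (.node (.node (.col (nat_lit 2)) (.node (.slot (nat_lit 0)) (.col (nat_lit 1)) (.slot (nat_lit 1))) (.node (.col (nat_lit 1)) (.slot (nat_lit 1)) (.slot (nat_lit 1)))) (.node (.col (nat_lit 3)) (.slot (nat_lit 0)) (.slot (nat_lit 0))) (.slot (nat_lit 2))) (.col (nat_lit 3)) (.col (nat_lit 2)) (.node (.slot (nat_lit 0)) (.slot (nat_lit 1)) (.slot (nat_lit 1)))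
def w28469 : Root := .mk (.node (.node (.col (nat_lit 2)) (.node (.slot (nat_lit 0)) (.col (nat_lit 1)) (.slot (nat_lit 0))) (.node (.col (nat_lit 1)) (.slot (nat_lit 5)) (.slot (nat_lit 5)))) (.node (.col (nat_lit 3)) (.slot (nat_lit 1)) (.slot (nat_lit 0))) (.slot (nat_lit 1))) (.col (nat_lit 3)) (.col (nat_lit 2)) (.node (.slot (nat_lit 0)) (.slot (nat_lit 0)) (.slot (nat_lit 0)))
def w28470 : Root := .mk (.node (.node (.col (nat_lit 2)) (.node (.slot (nat_lit 0)) (.col (nat_lit 1)) (.slot (nat_lit 1))) (.node (.col (nat_lit 1)) (.slot (nat_lit 1)) (.slot (nat_lit 1)))) (.node (.col (nat_lit 3)) (.slot (nat_lit 0)) (.slot (nat_lit 0))) (.col (nat_lit 3))) (.col (nat_lit 3)) (.col (nat_lit 2)) (.node (.slot (nat_lit 0)) (.slot (nat_lit 0)) (.slot (nat_lit 0)))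
def w28471 : Root := .mk (.node (.node (.col (nat_lit 2)) (.node (.slot (nat_lit 0)) (.col (nat_lit 1)) (.slot (nat_lit 1))) (.node (.col (nat_lit 1)) (.slot (nat_lit 1)) (.slot (nat_lit 1)))) (.node (.col (nat_lit 3)) (.slot (nat_lit 1)) (.slot (nat_lit 0))) (.node (.col (nat_lit 0)) (.slot (nat_lit 0)) (.slot (nat_lit 0)))) (.col (nat_lit 3)) (.col (nat_lit 2)) (.node (.slot (nat_lit 0)) (.slot (nat_lit 0)) (.slot (nat_lit 0)))
def w28472 : Root := .mk (.node (.node (.col (nat_lit 2)) (.node (.slot (nat_lit 0)) (.col (nat_lit 1)) (.slot (nat_lit 1))) (.node (.col (nat_lit 1)) (.slot (nat_lit 1)) (.slot (nat_lit 1)))) (.node (.col (nat_lit 3)) (.slot (nat_lit 1)) (.slot (nat_lit 0))) (.node (.col (nat_lit 1)) (.slot (nat_lit 0)) (.slot (nat_lit 0)))) (.col (nat_lit 3)) (.col (nat_lit 2)) (.node (.slot (nat_lit 0)) (.slot (nat_lit 0)) (.slot (nat_lit 0)))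
def w28473 : Root := .mk (.node (.node (.col (nat_lit 2)) (.node (.slot (nat_lit 0)) (.col (nat_lit 1)) (.slot (nat_lit 1))) (.node (.col (nat_lit 1)) (.slot (nat_lit 1)) (.slot (nat_lit 1)))) (.node (.col (nat_lit 3)) (.slot (nat_lit 0)) (.slot (nat_lit 0))) (.node (.col (nat_lit 2)) (.slot (nat_lit 1)) (.slot (nat_lit 0)))) (.col (nat_lit 3)) (.col (nat_lit 2)) (.node (.slot (nat_lit 0)) (.slot (nat_lit 0)) (.slot (nat_lit 0)))
def w28474 : Root := .mk (.node (.node (.col (nat_lit 2)) (.node (.slot (nat_lit 0)) (.col (nat_lit 1)) (.slot (nat_lit 1))) (.node (.col (nat_lit 1)) (.col (nat_lit 2)) (.slot (nat_lit 2)))) (.node (.col (nat_lit 3)) (.slot (nat_lit 1)) (.slot (nat_lit 0))) (.slot (nat_lit 1))) (.col (nat_lit 3)) (.col (nat_lit 2)) (.node (.slot (nat_lit 0)) (.slot (nat_lit 0)) (.slot (nat_lit 0)))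
def w28475 : Root := .mk (.node (.node (.col (nat_lit 2)) (.node (.slot (nat_lit 0)) (.col (nat_lit 1)) (.slot (nat_lit 1))) (.node (.col (nat_lit 1)) (.node (.col (nat_lit 1)) (.slot (nat_lit 0)) (.slot (nat_lit 0))) (.slot (nat_lit 1)))) (.node (.col (nat_lit 3)) (.slot (nat_lit 1)) (.slot (nat_lit 0))) (.slot (nat_lit 1))) (.col (nat_lit 3)) (.col (nat_lit 2)) (.node (.slot (nat_lit 0)) (.slot (nat_lit 0)) (.slot (nat_lit 0)))
def w28476 : Root := .mk (.node (.node (.col (nat_lit 2)) (.node (.slot (nat_lit 0)) (.col (nat_lit 1)) (.slot (nat_lit 2))) (.node (.col (nat_lit 1)) (.slot (nat_lit 5)) (.slot (nat_lit 5)))) (.node (.col (nat_lit 3)) (.slot (nat_lit 0)) (.slot (nat_lit 0))) (.slot (nat_lit 5))) (.col (nat_lit 3)) (.col (nat_lit 2)) (.slot (nat_lit 0))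
def l6329 : Root := .mk (.node (.node (.col (nat_lit 2)) (.node (.slot (nat_lit 0)) (.col (nat_lit 1)) (.slot (nat_lit 2))) (.node (.col (nat_lit 1)) (.slot (nat_lit 8)) (.slot (nat_lit 8)))) (.node (.col (nat_lit 3)) (.slot (nat_lit 3)) (.slot (nat_lit 1))) (.slot (nat_lit 5))) (.col (nat_lit 3)) (.col (nat_lit 2)) (.node (.slot (nat_lit 0)) (.slot (nat_lit 1)) (.slot (nat_lit 2)))
def w28477 : Root := .mk (.node (.node (.col (nat_lit 2)) (.node (.slot (nat_lit 0)) (.col (nat_lit 1)) (.slot (nat_lit 2))) (.slot (nat_lit 9))) (.node (.col (nat_lit 3)) (.slot (nat_lit 3)) (.slot (nat_lit 1))) (.slot (nat_lit 5))) (.col (nat_lit 3)) (.col (nat_lit 2)) (.node (.slot (nat_lit 0)) (.slot (nat_lit 2)) (.slot (nat_lit 1)))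
def l6334 : Root := .mk (.node (.node (.col (nat_lit 2)) (.node (.slot (nat_lit 0)) (.col (nat_lit 1)) (.slot (nat_lit 1))) (.node (.col (nat_lit 1)) (.col (nat_lit 2)) (.slot (nat_lit 2)))) (.col (nat_lit 0)) (.slot (nat_lit 2))) (.col (nat_lit 3)) (.col (nat_lit 2)) (.node (.slot (nat_lit 0)) (.slot (nat_lit 0)) (.slot (nat_lit 0)))
def w28494 : Root := .mk (.node (.node (.col (nat_lit 2)) (.node (.slot (nat_lit 0)) (.col (nat_lit 1)) (.slot (nat_lit 1))) (.node (.col (nat_lit 1)) (.col (nat_lit 2)) (.slot (nat_lit 2)))) (.node (.slot (nat_lit 0)) (.slot (nat_lit 0)) (.slot (nat_lit 0))) (.slot (nat_lit 2))) (.col (nat_lit 3)) (.col (nat_lit 2)) (.node (.slot (nat_lit 0)) (.slot (nat_lit 0)) (.slot (nat_lit 0)))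
def w28651 : Root := .mk (.col (nat_lit 2)) (.node (.slot (nat_lit 0)) (.node (.node (.col (nat_lit 0)) (.node (.col (nat_lit 2)) (.slot (nat_lit 1)) (.slot (nat_lit 1))) (.slot (nat_lit 2))) (.slot (nat_lit 6)) (.slot (nat_lit 1))) (.col (nat_lit 0))) (.node (.node (.slot (nat_lit 0)) (.slot (nat_lit 0)) (.slot (nat_lit 0))) (.slot (nat_lit 5)) (.slot (nat_lit 5))) (.col (nat_lit 3))
def w28667 : Root := .mk (.col (nat_lit 0)) (.col (nat_lit 1)) (.node (.node (.slot (nat_lit 0)) (.slot (nat_lit 0)) (.slot (nat_lit 0))) (.node (.col (nat_lit 2)) (.slot (nat_lit 1)) (.slot (nat_lit 1))) (.slot (nat_lit 2))) (.node (.node (.col (nat_lit 2)) (.col (nat_lit 0)) (.slot (nat_lit 1))) (.slot (nat_lit 1)) (.slot (nat_lit 2)))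
def w28668 : Root := .mk (.col (nat_lit 0)) (.col (nat_lit 1)) (.node (.node (.slot (nat_lit 0)) (.slot (nat_lit 0)) (.slot (nat_lit 0))) (.node (.col (nat_lit 2)) (.slot (nat_lit 1)) (.slot (nat_lit 1))) (.slot (nat_lit 2))) (.node (.node (.col (nat_lit 3)) (.col (nat_lit 0)) (.slot (nat_lit 2))) (.slot (nat_lit 1)) (.slot (nat_lit 1)))
def w28669 : Root := .mk (.col (nat_lit 0)) (.col (nat_lit 1)) (.node (.node (.slot (nat_lit 0)) (.slot (nat_lit 0)) (.slot (nat_lit 0))) (.slot (nat_lit 0)) (.slot (nat_lit 1))) (.node (.node (.node (.node (.col (nat_lit 0)) (.slot (nat_lit 3)) (.slot (nat_lit 1))) (.slot (nat_lit 1)) (.slot (nat_lit 1))) (.col (nat_lit 0)) (.slot (nat_lit 3))) (.col (nat_lit 0)) (.slot (nat_lit 8)))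
def l6363 : Root := .mk (.col (nat_lit 0)) (.col (nat_lit 1)) (.node (.node (.slot (nat_lit 0)) (.slot (nat_lit 0)) (.slot (nat_lit 0))) (.node (.col (nat_lit 2)) (.slot (nat_lit 1)) (.slot (nat_lit 1))) (.slot (nat_lit 3))) (.node (.node (.node (.node (.col (nat_lit 0)) (.slot (nat_lit 7)) (.slot (nat_lit 5))) (.slot (nat_lit 8)) (.slot (nat_lit 5))) (.col (nat_lit 0)) (.slot (nat_lit 21))) (.slot (nat_lit 20)) (.slot (nat_lit 12)))
def w28670 : Root := .mk (.col (nat_lit 0)) (.col (nat_lit 1)) (.node (.node (.slot (nat_lit 0)) (.slot (nat_lit 0)) (.slot (nat_lit 0))) (.node (.col (nat_lit 2)) (.slot (nat_lit 1)) (.slot (nat_lit 1))) (.slot (nat_lit 3))) (.node (.node (.node (.node (.col (nat_lit 0)) (.slot (nat_lit 7)) (.slot (nat_lit 5))) (.slot (nat_lit 8)) (.slot (nat_lit 5))) (.slot (nat_lit 1)) (.slot (nat_lit 21))) (.slot (nat_lit 20)) (.slot (nat_lit 12)))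
def l6364 : Root := .mk (.col (nat_lit 0)) (.col (nat_lit 1)) (.node (.node (.slot (nat_lit 0)) (.slot (nat_lit 0)) (.slot (nat_lit 0))) (.node (.slot (nat_lit 0)) (.slot (nat_lit 0)) (.slot (nat_lit 0))) (.slot (nat_lit 1))) (.node (.node (.node (.node (.col (nat_lit 0)) (.slot (nat_lit 12)) (.slot (nat_lit 10))) (.slot (nat_lit 8)) (.slot (nat_lit 8))) (.slot (nat_lit 8)) (.slot (nat_lit 8))) (.col (nat_lit 2)) (.slot (nat_lit 8)))
def w28671 : Root := .mk (.col (nat_lit 0)) (.col (nat_lit 1)) (.node (.node (.slot (nat_lit 0)) (.slot (nat_lit 0)) (.slot (nat_lit 0))) (.node (.slot (nat_lit 0)) (.slot (nat_lit 0)) (.slot (nat_lit 0))) (.slot (nat_lit 1))) (.node (.node (.node (.node (.col (nat_lit 0)) (.slot (nat_lit 12)) (.slot (nat_lit 10))) (.slot (nat_lit 8)) (.slot (nat_lit 8))) (.slot (nat_lit 8)) (.slot (nat_lit 8))) (.slot (nat_lit 1)) (.slot (nat_lit 8)))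
def l6365 : Root := .mk (.col (nat_lit 0)) (.col (nat_lit 1)) (.node (.node (.slot (nat_lit 0)) (.slot (nat_lit 0)) (.slot (nat_lit 0))) (.slot (nat_lit 2)) (.slot (nat_lit 2))) (.node (.node (.node (.node (.col (nat_lit 0)) (.col (nat_lit 1)) (.slot (nat_lit 21))) (.slot (nat_lit 20)) (.slot (nat_lit 12))) (.col (nat_lit 1)) (.slot (nat_lit 3))) (.col (nat_lit 0)) (.node (.col (nat_lit 1)) (.node (.col (nat_lit 1)) (.slot (nat_lit 0)) (.slot (nat_lit 0))) (.slot (nat_lit 3))))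
def w28672 : Root := .mk (.col (nat_lit 0)) (.col (nat_lit 1)) (.node (.node (.slot (nat_lit 0)) (.slot (nat_lit 0)) (.slot (nat_lit 0))) (.slot (nat_lit 2)) (.slot (nat_lit 2))) (.node (.node (.node (.node (.col (nat_lit 0)) (.col (nat_lit 1)) (.slot (nat_lit 21))) (.slot (nat_lit 20)) (.slot (nat_lit 12))) (.slot (nat_lit 1)) (.slot (nat_lit 3))) (.col (nat_lit 0)) (.node (.col (nat_lit 1)) (.node (.col (nat_lit 1)) (.slot (nat_lit 0)) (.slot (nat_lit 0))) (.slot (nat_lit 3))))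
def w28673 : Root := .mk (.col (nat_lit 0)) (.col (nat_lit 1)) (.node (.node (.slot (nat_lit 0)) (.slot (nat_lit 0)) (.slot (nat_lit 0))) (.slot (nat_lit 1)) (.slot (nat_lit 0))) (.node (.node (.node (.slot (nat_lit 0)) (.slot (nat_lit 0)) (.slot (nat_lit 0))) (.slot (nat_lit 7)) (.slot (nat_lit 5))) (.col (nat_lit 0)) (.node (.col (nat_lit 1)) (.node (.slot (nat_lit 0)) (.slot (nat_lit 1)) (.slot (nat_lit 1))) (.slot (nat_lit 3))))
def l6366 : Root := .mk (.col (nat_lit 0)) (.col (nat_lit 1)) (.node (.node (.slot (nat_lit 0)) (.slot (nat_lit 0)) (.slot (nat_lit 0))) (.slot (nat_lit 2)) (.slot (nat_lit 2))) (.node (.node (.node (.node (.col (nat_lit 0)) (.col (nat_lit 1)) (.slot (nat_lit 21))) (.slot (nat_lit 20)) (.slot (nat_lit 12))) (.slot (nat_lit 7)) (.slot (nat_lit 5))) (.col (nat_lit 0)) (.node (.col (nat_lit 1)) (.slot (nat_lit 7)) (.slot (nat_lit 5))))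
def w28674 : Root := .mk (.col (nat_lit 0)) (.col (nat_lit 1)) (.node (.node (.slot (nat_lit 0)) (.slot (nat_lit 0)) (.slot (nat_lit 0))) (.slot (nat_lit 2)) (.slot (nat_lit 2))) (.node (.node (.node (.node (.col (nat_lit 0)) (.col (nat_lit 1)) (.slot (nat_lit 21))) (.slot (nat_lit 20)) (.slot (nat_lit 12))) (.slot (nat_lit 7)) (.slot (nat_lit 5))) (.col (nat_lit 0)) (.slot (nat_lit 8)))
def w28675 : Root := .mk (.node (.node (.node (.node (.col (nat_lit 0)) (.col (nat_lit 1)) (.node (.node (.slot (nat_lit 0)) (.slot (nat_lit 0)) (.slot (nat_lit 0))) (.slot (nat_lit 1)) (.slot (nat_lit 0)))) (.col (nat_lit 0)) (.slot (nat_lit 1))) (.slot (nat_lit 7)) (.slot (nat_lit 5))) (.col (nat_lit 2)) (.slot (nat_lit 3))) (.col (nat_lit 0)) (.node (.col (nat_lit 2)) (.slot (nat_lit 3)) (.slot (nat_lit 1))) (.col (nat_lit 2))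
def l6367 : Root := .mk (.col (nat_lit 0)) (.col (nat_lit 1)) (.node (.node (.slot (nat_lit 0)) (.slot (nat_lit 0)) (.slot (nat_lit 0))) (.slot (nat_lit 1)) (.slot (nat_lit 0))) (.node (.node (.node (.node (.col (nat_lit 0)) (.node (.col (nat_lit 2)) (.slot (nat_lit 8)) (.slot (nat_lit 8))) (.slot (nat_lit 8))) (.col (nat_lit 2)) (.slot (nat_lit 3))) (.slot (nat_lit 7)) (.slot (nat_lit 5))) (.col (nat_lit 0)) (.slot (nat_lit 1)))
def w28676 : Root := .mk (.col (nat_lit 0)) (.col (nat_lit 1)) (.node (.node (.slot (nat_lit 0)) (.slot (nat_lit 0)) (.slot (nat_lit 0))) (.slot (nat_lit 1)) (.slot (nat_lit 0))) (.node (.node (.node (.node (.col (nat_lit 0)) (.node (.col (nat_lit 2)) (.slot (nat_lit 8)) (.slot (nat_lit 8))) (.slot (nat_lit 8))) (.slot (nat_lit 1)) (.slot (nat_lit 3))) (.slot (nat_lit 7)) (.slot (nat_lit 5))) (.col (nat_lit 0)) (.slot (nat_lit 1)))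
def w28677 : Root := .mk (.slot (nat_lit 0)) (.node (.node (.node (.col (nat_lit 0)) (.node (.node (.col (nat_lit 0)) (.slot (nat_lit 22)) (.slot (nat_lit 21))) (.slot (nat_lit 23)) (.slot (nat_lit 23))) (.slot (nat_lit 22))) (.slot (nat_lit 23)) (.slot (nat_lit 22))) (.node (.col (nat_lit 1)) (.slot (nat_lit 22)) (.slot (nat_lit 21))) (.slot (nat_lit 23))) (.col (nat_lit 0)) (.slot (nat_lit 0))
def w28678 : Root := .mk (.col (nat_lit 0)) (.col (nat_lit 1)) (.node (.node (.slot (nat_lit 0)) (.slot (nat_lit 0)) (.slot (nat_lit 0))) (.slot (nat_lit 1)) (.slot (nat_lit 0))) (.node (.node (.node (.node (.col (nat_lit 0)) (.node (.node (.col (nat_lit 0)) (.slot (nat_lit 7)) (.slot (nat_lit 5))) (.slot (nat_lit 8)) (.slot (nat_lit 1))) (.slot (nat_lit 8))) (.slot (nat_lit 7)) (.slot (nat_lit 5))) (.node (.slot (nat_lit 0)) (.slot (nat_lit 1)) (.slot (nat_lit 1))) (.slot (nat_lit 3))) (.col (nat_lit 0)) (.slot (nat_lit 8)))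
def l6368 : Root := .mk (.col (nat_lit 0)) (.col (nat_lit 1)) (.node (.node (.slot (nat_lit 0)) (.slot (nat_lit 0)) (.slot (nat_lit 0))) (.slot (nat_lit 3)) (.slot (nat_lit 3))) (.node (.node (.node (.node (.col (nat_lit 0)) (.node (.node (.col (nat_lit 0)) (.slot (nat_lit 21)) (.slot (nat_lit 22))) (.slot (nat_lit 23)) (.slot (nat_lit 23))) (.slot (nat_lit 22))) (.slot (nat_lit 23)) (.slot (nat_lit 22))) (.slot (nat_lit 23)) (.slot (nat_lit 23))) (.col (nat_lit 0)) (.slot (nat_lit 8)))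
def w28679 : Root := .mk (.col (nat_lit 0)) (.col (nat_lit 1)) (.node (.node (.slot (nat_lit 0)) (.slot (nat_lit 0)) (.slot (nat_lit 0))) (.slot (nat_lit 3)) (.slot (nat_lit 3))) (.node (.node (.node (.node (.col (nat_lit 0)) (.slot (nat_lit 24)) (.slot (nat_lit 22))) (.slot (nat_lit 23)) (.slot (nat_lit 22))) (.slot (nat_lit 23)) (.slot (nat_lit 23))) (.col (nat_lit 0)) (.slot (nat_lit 8)))
def l6369 : Root := .mk (.node (.col (nat_lit 0)) (.col (nat_lit 1)) (.node (.node (.slot (nat_lit 0)) (.slot (nat_lit 0)) (.slot (nat_lit 0))) (.slot (nat_lit 4)) (.slot (nat_lit 4)))) (.node (.node (.node (.col (nat_lit 0)) (.slot (nat_lit 0)) (.slot (nat_lit 0))) (.col (nat_lit 1)) (.col (nat_lit 0))) (.col (nat_lit 0)) (.slot (nat_lit 1))) (.col (nat_lit 1)) (.col (nat_lit 2))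
def w28680 : Root := .mk (.node (.node (.node (.col (nat_lit 0)) (.col (nat_lit 1)) (.node (.node (.slot (nat_lit 0)) (.slot (nat_lit 0)) (.slot (nat_lit 0))) (.slot (nat_lit 4)) (.slot (nat_lit 4)))) (.col (nat_lit 1)) (.slot (nat_lit 1))) (.col (nat_lit 0)) (.slot (nat_lit 1))) (.node (.col (nat_lit 0)) (.slot (nat_lit 0)) (.slot (nat_lit 0))) (.col (nat_lit 1)) (.col (nat_lit 0))
def l6370 : Root := .mk (.col (nat_lit 0)) (.col (nat_lit 1)) (.node (.node (.slot (nat_lit 0)) (.slot (nat_lit 0)) (.slot (nat_lit 0))) (.slot (nat_lit 4)) (.slot (nat_lit 4))) (.node (.node (.node (.node (.col (nat_lit 0)) (.slot (nat_lit 10)) (.slot (nat_lit 10))) (.col (nat_lit 1)) (.node (.slot (nat_lit 0)) (.slot (nat_lit 4)) (.slot (nat_lit 1)))) (.col (nat_lit 0)) (.slot (nat_lit 2))) (.col (nat_lit 1)) (.slot (nat_lit 9)))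
def w28681 : Root := .mk (.col (nat_lit 0)) (.col (nat_lit 1)) (.node (.node (.slot (nat_lit 0)) (.slot (nat_lit 0)) (.slot (nat_lit 0))) (.slot (nat_lit 4)) (.slot (nat_lit 4))) (.node (.node (.node (.node (.col (nat_lit 0)) (.slot (nat_lit 10)) (.slot (nat_lit 10))) (.col (nat_lit 1)) (.node (.slot (nat_lit 0)) (.slot (nat_lit 4)) (.slot (nat_lit 1)))) (.slot (nat_lit 1)) (.slot (nat_lit 2))) (.col (nat_lit 1)) (.slot (nat_lit 9)))
def l6371 : Root := .mk (.node (.col (nat_lit 0)) (.col (nat_lit 1)) (.node (.node (.slot (nat_lit 0)) (.slot (nat_lit 0)) (.slot (nat_lit 0))) (.slot (nat_lit 4)) (.slot (nat_lit 4)))) (.node (.node (.node (.col (nat_lit 0)) (.slot (nat_lit 0)) (.slot (nat_lit 0))) (.col (nat_lit 1)) (.col (nat_lit 0))) (.node (.col (nat_lit 0)) (.slot (nat_lit 0)) (.slot (nat_lit 0))) (.col (nat_lit 0))) (.col (nat_lit 1)) (.col (nat_lit 2))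
def w28682 : Root := .mk (.node (.node (.node (.col (nat_lit 0)) (.col (nat_lit 1)) (.node (.node (.slot (nat_lit 0)) (.slot (nat_lit 0)) (.slot (nat_lit 0))) (.slot (nat_lit 4)) (.slot (nat_lit 4)))) (.col (nat_lit 1)) (.slot (nat_lit 1))) (.node (.col (nat_lit 0)) (.slot (nat_lit 0)) (.slot (nat_lit 0))) (.col (nat_lit 0))) (.node (.col (nat_lit 0)) (.slot (nat_lit 0)) (.slot (nat_lit 0))) (.col (nat_lit 1)) (.col (nat_lit 0))
def w28683 : Root := .mk (.col (nat_lit 0)) (.col (nat_lit 1)) (.slot (nat_lit 0)) (.node (.node (.node (.node (.col (nat_lit 0)) (.slot (nat_lit 0)) (.slot (nat_lit 1))) (.col (nat_lit 1)) (.slot (nat_lit 1))) (.node (.col (nat_lit 0)) (.slot (nat_lit 0)) (.slot (nat_lit 0))) (.col (nat_lit 0))) (.col (nat_lit 1)) (.slot (nat_lit 2)))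
def l6372 : Root := .mk (.col (nat_lit 0)) (.col (nat_lit 1)) (.node (.node (.slot (nat_lit 0)) (.slot (nat_lit 0)) (.slot (nat_lit 0))) (.slot (nat_lit 4)) (.slot (nat_lit 4))) (.node (.node (.node (.node (.col (nat_lit 0)) (.slot (nat_lit 7)) (.slot (nat_lit 5))) (.col (nat_lit 1)) (.slot (nat_lit 8))) (.node (.col (nat_lit 0)) (.slot (nat_lit 1)) (.slot (nat_lit 1))) (.col (nat_lit 0))) (.col (nat_lit 1)) (.slot (nat_lit 2)))
def w28684 : Root := .mk (.col (nat_lit 0)) (.col (nat_lit 1)) (.node (.node (.slot (nat_lit 0)) (.slot (nat_lit 0)) (.slot (nat_lit 0))) (.slot (nat_lit 4)) (.slot (nat_lit 4))) (.node (.node (.node (.node (.col (nat_lit 0)) (.slot (nat_lit 7)) (.slot (nat_lit 5))) (.col (nat_lit 1)) (.slot (nat_lit 8))) (.node (.col (nat_lit 0)) (.slot (nat_lit 1)) (.slot (nat_lit 1))) (.slot (nat_lit 1))) (.col (nat_lit 1)) (.slot (nat_lit 2)))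
def l6373 : Root := .mk (.col (nat_lit 0)) (.col (nat_lit 1)) (.col (nat_lit 3)) (.node (.node (.node (.node (.col (nat_lit 0)) (.col (nat_lit 1)) (.node (.col (nat_lit 2)) (.slot (nat_lit 20)) (.slot (nat_lit 9)))) (.col (nat_lit 1)) (.slot (nat_lit 3))) (.slot (nat_lit 3)) (.slot (nat_lit 1))) (.col (nat_lit 1)) (.slot (nat_lit 3)))
def w28685 : Root := .mk (.col (nat_lit 0)) (.col (nat_lit 1)) (.col (nat_lit 3)) (.node (.node (.node (.node (.col (nat_lit 0)) (.col (nat_lit 1)) (.slot (nat_lit 21))) (.col (nat_lit 1)) (.slot (nat_lit 3))) (.slot (nat_lit 3)) (.slot (nat_lit 1))) (.col (nat_lit 1)) (.slot (nat_lit 3)))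
def l6374 : Root := .mk (.col (nat_lit 0)) (.col (nat_lit 1)) (.node (.col (nat_lit 2)) (.slot (nat_lit 20)) (.slot (nat_lit 9))) (.node (.node (.node (.node (.col (nat_lit 0)) (.col (nat_lit 1)) (.slot (nat_lit 21))) (.col (nat_lit 1)) (.slot (nat_lit 3))) (.slot (nat_lit 8)) (.slot (nat_lit 8))) (.col (nat_lit 1)) (.slot (nat_lit 9)))
def w28686 : Root := .mk (.col (nat_lit 0)) (.col (nat_lit 1)) (.node (.node (.slot (nat_lit 0)) (.slot (nat_lit 0)) (.slot (nat_lit 0))) (.slot (nat_lit 20)) (.slot (nat_lit 9))) (.node (.node (.node (.node (.col (nat_lit 0)) (.col (nat_lit 1)) (.slot (nat_lit 21))) (.col (nat_lit 1)) (.slot (nat_lit 3))) (.slot (nat_lit 8)) (.slot (nat_lit 8))) (.col (nat_lit 1)) (.slot (nat_lit 9)))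
def l6375 : Root := .mk (.col (nat_lit 0)) (.col (nat_lit 1)) (.node (.node (.slot (nat_lit 0)) (.slot (nat_lit 0)) (.slot (nat_lit 0))) (.slot (nat_lit 4)) (.slot (nat_lit 4))) (.node (.node (.node (.node (.col (nat_lit 0)) (.node (.col (nat_lit 0)) (.slot (nat_lit 4)) (.slot (nat_lit 4))) (.slot (nat_lit 8))) (.col (nat_lit 1)) (.slot (nat_lit 9))) (.col (nat_lit 0)) (.slot (nat_lit 2))) (.col (nat_lit 1)) (.slot (nat_lit 2)))
def w28687 : Root := .mk (.col (nat_lit 0)) (.col (nat_lit 1)) (.node (.node (.slot (nat_lit 0)) (.slot (nat_lit 0)) (.slot (nat_lit 0))) (.slot (nat_lit 4)) (.slot (nat_lit 4))) (.node (.node (.node (.node (.col (nat_lit 0)) (.node (.col (nat_lit 0)) (.slot (nat_lit 4)) (.slot (nat_lit 4))) (.slot (nat_lit 8))) (.col (nat_lit 1)) (.slot (nat_lit 9))) (.slot (nat_lit 1)) (.slot (nat_lit 2))) (.col (nat_lit 1)) (.slot (nat_lit 2)))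
def w28688 : Root := .mk (.col (nat_lit 0)) (.col (nat_lit 1)) (.node (.node (.slot (nat_lit 0)) (.slot (nat_lit 0)) (.slot (nat_lit 0))) (.slot (nat_lit 1)) (.slot (nat_lit 0))) (.node (.node (.node (.node (.col (nat_lit 0)) (.slot (nat_lit 20)) (.slot (nat_lit 9))) (.col (nat_lit 1)) (.slot (nat_lit 8))) (.slot (nat_lit 20)) (.slot (nat_lit 12))) (.col (nat_lit 1)) (.node (.col (nat_lit 1)) (.slot (nat_lit 0)) (.slot (nat_lit 0))))
def l6376 : Root := .mk (.col (nat_lit 0)) (.col (nat_lit 1)) (.node (.node (.slot (nat_lit 0)) (.slot (nat_lit 0)) (.slot (nat_lit 0))) (.slot (nat_lit 20)) (.slot (nat_lit 9))) (.node (.node (.node (.node (.col (nat_lit 0)) (.slot (nat_lit 21)) (.slot (nat_lit 21))) (.col (nat_lit 1)) (.slot (nat_lit 21))) (.slot (nat_lit 20)) (.slot (nat_lit 12))) (.col (nat_lit 1)) (.slot (nat_lit 9)))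
def w28689 : Root := .mk (.col (nat_lit 0)) (.col (nat_lit 1)) (.node (.node (.slot (nat_lit 0)) (.slot (nat_lit 0)) (.slot (nat_lit 0))) (.slot (nat_lit 20)) (.slot (nat_lit 9))) (.node (.node (.node (.node (.col (nat_lit 0)) (.slot (nat_lit 21)) (.slot (nat_lit 21))) (.slot (nat_lit 1)) (.slot (nat_lit 21))) (.slot (nat_lit 20)) (.slot (nat_lit 12))) (.col (nat_lit 1)) (.slot (nat_lit 9)))
def w28690 : Root := .mk (.col (nat_lit 0)) (.col (nat_lit 1)) (.node (.node (.slot (nat_lit 0)) (.slot (nat_lit 0)) (.slot (nat_lit 0))) (.slot (nat_lit 3)) (.slot (nat_lit 2))) (.node (.node (.node (.node (.col (nat_lit 0)) (.slot (nat_lit 12)) (.slot (nat_lit 10))) (.slot (nat_lit 8)) (.slot (nat_lit 5))) (.slot (nat_lit 8)) (.slot (nat_lit 8))) (.node (.col (nat_lit 2)) (.slot (nat_lit 0)) (.slot (nat_lit 0))) (.slot (nat_lit 8)))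
def l6377 : Root := .mk (.col (nat_lit 0)) (.col (nat_lit 1)) (.node (.node (.slot (nat_lit 0)) (.col (nat_lit 0)) (.slot (nat_lit 0))) (.slot (nat_lit 20)) (.slot (nat_lit 9))) (.node (.node (.node (.col (nat_lit 3)) (.slot (nat_lit 8)) (.slot (nat_lit 5))) (.col (nat_lit 0)) (.slot (nat_lit 21))) (.slot (nat_lit 20)) (.slot (nat_lit 12)))
def w28691 : Root := .mk (.col (nat_lit 0)) (.col (nat_lit 1)) (.node (.node (.slot (nat_lit 0)) (.col (nat_lit 0)) (.slot (nat_lit 0))) (.slot (nat_lit 20)) (.slot (nat_lit 9))) (.node (.node (.node (.col (nat_lit 3)) (.slot (nat_lit 8)) (.slot (nat_lit 5))) (.slot (nat_lit 1)) (.slot (nat_lit 21))) (.slot (nat_lit 20)) (.slot (nat_lit 12)))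
def w28692 : Root := .mk (.node (.node (.node (.node (.col (nat_lit 0)) (.col (nat_lit 1)) (.slot (nat_lit 0))) (.slot (nat_lit 2)) (.slot (nat_lit 2))) (.col (nat_lit 0)) (.node (.col (nat_lit 0)) (.slot (nat_lit 0)) (.slot (nat_lit 0)))) (.col (nat_lit 2)) (.slot (nat_lit 1))) (.col (nat_lit 0)) (.col (nat_lit 1)) (.col (nat_lit 2))
def w28693 : Root := .mk (.node (.node (.node (.node (.col (nat_lit 0)) (.col (nat_lit 1)) (.node (.slot (nat_lit 0)) (.slot (nat_lit 0)) (.slot (nat_lit 0)))) (.slot (nat_lit 20)) (.slot (nat_lit 12))) (.col (nat_lit 0)) (.node (.col (nat_lit 1)) (.slot (nat_lit 20)) (.slot (nat_lit 9)))) (.col (nat_lit 2)) (.slot (nat_lit 8))) (.col (nat_lit 0)) (.col (nat_lit 1)) (.col (nat_lit 2))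
def l6378 : Root := .mk (.node (.node (.node (.node (.col (nat_lit 0)) (.col (nat_lit 1)) (.node (.node (.slot (nat_lit 0)) (.col (nat_lit 0)) (.slot (nat_lit 0))) (.slot (nat_lit 4)) (.slot (nat_lit 4)))) (.slot (nat_lit 20)) (.slot (nat_lit 12))) (.col (nat_lit 0)) (.slot (nat_lit 21))) (.col (nat_lit 2)) (.slot (nat_lit 8))) (.col (nat_lit 0)) (.col (nat_lit 1)) (.col (nat_lit 2))
def w28694 : Root := .mk (.node (.node (.node (.node (.col (nat_lit 0)) (.col (nat_lit 1)) (.node (.node (.slot (nat_lit 0)) (.col (nat_lit 0)) (.slot (nat_lit 0))) (.slot (nat_lit 4)) (.slot (nat_lit 4)))) (.slot (nat_lit 20)) (.slot (nat_lit 12))) (.slot (nat_lit 1)) (.slot (nat_lit 21))) (.col (nat_lit 2)) (.slot (nat_lit 8))) (.col (nat_lit 0)) (.col (nat_lit 1)) (.col (nat_lit 2))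
def w28695 : Root := .mk (.node (.node (.node (.node (.col (nat_lit 0)) (.col (nat_lit 1)) (.node (.slot (nat_lit 0)) (.slot (nat_lit 1)) (.slot (nat_lit 0)))) (.slot (nat_lit 2)) (.slot (nat_lit 1))) (.slot (nat_lit 1)) (.slot (nat_lit 3))) (.col (nat_lit 2)) (.slot (nat_lit 1))) (.col (nat_lit 0)) (.col (nat_lit 1)) (.node (.slot (nat_lit 0)) (.slot (nat_lit 0)) (.slot (nat_lit 0)))
def l6379 : Root := .mk (.col (nat_lit 0)) (.col (nat_lit 1)) (.node (.node (.slot (nat_lit 0)) (.col (nat_lit 0)) (.slot (nat_lit 0))) (.slot (nat_lit 4)) (.slot (nat_lit 4))) (.node (.node (.node (.node (.col (nat_lit 0)) (.col (nat_lit 1)) (.slot (nat_lit 3))) (.col (nat_lit 2)) (.slot (nat_lit 9))) (.slot (nat_lit 21)) (.slot (nat_lit 5))) (.slot (nat_lit 20)) (.slot (nat_lit 12)))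
def w28696 : Root := .mk (.col (nat_lit 0)) (.col (nat_lit 1)) (.node (.node (.slot (nat_lit 0)) (.col (nat_lit 0)) (.slot (nat_lit 0))) (.slot (nat_lit 4)) (.slot (nat_lit 4))) (.node (.node (.node (.node (.col (nat_lit 0)) (.col (nat_lit 1)) (.slot (nat_lit 3))) (.slot (nat_lit 1)) (.slot (nat_lit 9))) (.slot (nat_lit 21)) (.slot (nat_lit 5))) (.slot (nat_lit 20)) (.slot (nat_lit 12)))
def w28697 : Root := .mk (.node (.node (.node (.node (.col (nat_lit 0)) (.col (nat_lit 1)) (.node (.node (.slot (nat_lit 0)) (.col (nat_lit 0)) (.slot (nat_lit 0))) (.slot (nat_lit 20)) (.slot (nat_lit 9)))) (.slot (nat_lit 7)) (.slot (nat_lit 5))) (.slot (nat_lit 8)) (.slot (nat_lit 1))) (.col (nat_lit 2)) (.node (.col (nat_lit 2)) (.slot (nat_lit 1)) (.slot (nat_lit 1)))) (.col (nat_lit 0)) (.col (nat_lit 1)) (.node (.slot (nat_lit 0)) (.slot (nat_lit 0)) (.slot (nat_lit 0)))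
def l6380 : Root := .mk (.col (nat_lit 0)) (.col (nat_lit 1)) (.node (.col (nat_lit 3)) (.slot (nat_lit 20)) (.slot (nat_lit 9))) (.node (.node (.node (.node (.col (nat_lit 0)) (.col (nat_lit 1)) (.node (.slot (nat_lit 0)) (.slot (nat_lit 0)) (.slot (nat_lit 0)))) (.col (nat_lit 2)) (.slot (nat_lit 8))) (.col (nat_lit 2)) (.slot (nat_lit 2))) (.slot (nat_lit 2)) (.slot (nat_lit 2)))
def w28698 : Root := .mk (.col (nat_lit 0)) (.col (nat_lit 1)) (.node (.node (.slot (nat_lit 0)) (.col (nat_lit 0)) (.slot (nat_lit 0))) (.slot (nat_lit 20)) (.slot (nat_lit 9))) (.node (.node (.node (.node (.col (nat_lit 0)) (.col (nat_lit 1)) (.node (.slot (nat_lit 0)) (.slot (nat_lit 0)) (.slot (nat_lit 0)))) (.col (nat_lit 2)) (.slot (nat_lit 8))) (.col (nat_lit 2)) (.slot (nat_lit 2))) (.slot (nat_lit 2)) (.slot (nat_lit 2)))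
def w28699 : Root := .mk (.col (nat_lit 0)) (.col (nat_lit 1)) (.node (.slot (nat_lit 0)) (.slot (nat_lit 1)) (.slot (nat_lit 0))) (.node (.node (.node (.node (.col (nat_lit 0)) (.col (nat_lit 1)) (.node (.slot (nat_lit 0)) (.slot (nat_lit 0)) (.slot (nat_lit 0)))) (.col (nat_lit 2)) (.slot (nat_lit 1))) (.node (.col (nat_lit 0)) (.slot (nat_lit 0)) (.slot (nat_lit 0))) (.slot (nat_lit 3))) (.slot (nat_lit 2)) (.slot (nat_lit 1)))
def w28700 : Root := .mk (.col (nat_lit 0)) (.col (nat_lit 1)) (.node (.node (.slot (nat_lit 0)) (.col (nat_lit 0)) (.slot (nat_lit 0))) (.slot (nat_lit 20)) (.slot (nat_lit 9))) (.node (.node (.node (.node (.col (nat_lit 0)) (.col (nat_lit 1)) .junk) (.col (nat_lit 2)) (.slot (nat_lit 1))) (.slot (nat_lit 1)) (.slot (nat_lit 1))) (.col (nat_lit 0)) (.slot (nat_lit 2)))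
def w28701 : Root := .mk (.col (nat_lit 0)) (.col (nat_lit 1)) (.node (.node (.slot (nat_lit 0)) (.col (nat_lit 0)) (.slot (nat_lit 0))) (.slot (nat_lit 20)) (.slot (nat_lit 9))) (.node (.node (.node (.node (.col (nat_lit 0)) (.col (nat_lit 1)) .junk) (.col (nat_lit 2)) (.slot (nat_lit 1))) (.slot (nat_lit 1)) (.slot (nat_lit 1))) (.col (nat_lit 1)) (.slot (nat_lit 2)))
def w28702 : Root := .mk (.col (nat_lit 0)) (.col (nat_lit 1)) (.node (.node (.slot (nat_lit 0)) (.col (nat_lit 0)) (.slot (nat_lit 0))) (.slot (nat_lit 5)) (.slot (nat_lit 5))) (.node (.node (.slot (nat_lit 0)) (.slot (nat_lit 0)) (.slot (nat_lit 0))) (.node (.col (nat_lit 0)) (.slot (nat_lit 6)) (.slot (nat_lit 1))) (.slot (nat_lit 8)))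
def w28703 : Root := .mk (.col (nat_lit 0)) (.col (nat_lit 1)) (.node (.slot (nat_lit 0)) (.slot (nat_lit 0)) (.slot (nat_lit 0))) (.node (.node (.node (.node (.col (nat_lit 0)) (.col (nat_lit 1)) (.node (.slot (nat_lit 0)) (.slot (nat_lit 0)) (.slot (nat_lit 0)))) (.col (nat_lit 2)) (.slot (nat_lit 2))) (.slot (nat_lit 1)) (.slot (nat_lit 1))) (.node (.col (nat_lit 2)) (.slot (nat_lit 1)) (.slot (nat_lit 1))) (.slot (nat_lit 2)))
def w28704 : Root := .mk (.col (nat_lit 0)) (.col (nat_lit 1)) (.node (.node (.slot (nat_lit 0)) (.col (nat_lit 0)) (.slot (nat_lit 0))) (.slot (nat_lit 1)) (.slot (nat_lit 1))) (.node (.node (.node (.node (.col (nat_lit 0)) (.col (nat_lit 1)) (.node (.slot (nat_lit 0)) (.slot (nat_lit 0)) (.slot (nat_lit 0)))) (.col (nat_lit 2)) (.slot (nat_lit 2))) (.slot (nat_lit 1)) (.slot (nat_lit 1))) (.node (.col (nat_lit 3)) (.slot (nat_lit 0)) (.slot (nat_lit 0))) (.slot (nat_lit 2)))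
def w28705 : Root := .mk (.node (.node (.node (.node (.col (nat_lit 0)) (.col (nat_lit 1)) (.node (.slot (nat_lit 0)) (.slot (nat_lit 0)) (.slot (nat_lit 0)))) (.slot (nat_lit 20)) (.slot (nat_lit 9))) (.slot (nat_lit 1)) (.slot (nat_lit 1))) (.col (nat_lit 2)) (.slot (nat_lit 2))) (.col (nat_lit 0)) (.col (nat_lit 1)) (.node (.slot (nat_lit 0)) (.col (nat_lit 0)) (.slot (nat_lit 0)))
def w28706 : Root := .mk (.col (nat_lit 0)) (.col (nat_lit 1)) (.node (.slot (nat_lit 0)) (.col (nat_lit 0)) (.slot (nat_lit 0))) (.node (.node (.node (.node (.col (nat_lit 0)) (.col (nat_lit 1)) (.node (.slot (nat_lit 0)) (.slot (nat_lit 0)) (.slot (nat_lit 0)))) (.col (nat_lit 2)) (.slot (nat_lit 1))) (.slot (nat_lit 1)) (.slot (nat_lit 3))) (.slot (nat_lit 2)) (.slot (nat_lit 1)))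
def l6381 : Root := .mk (.node (.node (.node (.node (.col (nat_lit 0)) (.col (nat_lit 1)) (.node (.node (.slot (nat_lit 0)) (.col (nat_lit 0)) (.slot (nat_lit 1))) (.slot (nat_lit 20)) (.slot (nat_lit 9)))) (.slot (nat_lit 20)) (.slot (nat_lit 12))) (.slot (nat_lit 21)) (.slot (nat_lit 5))) (.col (nat_lit 2)) (.slot (nat_lit 9))) (.col (nat_lit 0)) (.col (nat_lit 1)) (.node (.slot (nat_lit 0)) (.slot (nat_lit 5)) (.slot (nat_lit 1)))
def w28707 : Root := .mk (.node (.node (.node (.node (.col (nat_lit 0)) (.col (nat_lit 1)) (.node (.node (.slot (nat_lit 0)) (.col (nat_lit 0)) (.slot (nat_lit 1))) (.slot (nat_lit 20)) (.slot (nat_lit 9)))) (.slot (nat_lit 20)) (.slot (nat_lit 12))) (.slot (nat_lit 21)) (.slot (nat_lit 5))) (.slot (nat_lit 1)) (.slot (nat_lit 9))) (.col (nat_lit 0)) (.col (nat_lit 1)) (.node (.slot (nat_lit 0)) (.slot (nat_lit 5)) (.slot (nat_lit 1)))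
def w28708 : Root := .mk (.node (.node (.node (.node (.col (nat_lit 0)) (.col (nat_lit 1)) (.node (.slot (nat_lit 0)) (.slot (nat_lit 0)) (.slot (nat_lit 0)))) (.slot (nat_lit 20)) (.slot (nat_lit 9))) (.col (nat_lit 1)) (.col (nat_lit 2))) (.col (nat_lit 0)) .junk) (.col (nat_lit 0)) (.col (nat_lit 1)) (.col (nat_lit 2))
def w28709 : Root := .mk (.node (.node (.node (.node (.col (nat_lit 0)) (.col (nat_lit 1)) (.node (.slot (nat_lit 0)) (.col (nat_lit 0)) (.slot (nat_lit 0)))) (.slot (nat_lit 1)) (.slot (nat_lit 1))) (.col (nat_lit 1)) (.slot (nat_lit 3))) (.col (nat_lit 0)) (.col (nat_lit 2))) (.col (nat_lit 0)) (.col (nat_lit 1)) (.col (nat_lit 2))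
def w28710 : Root := .mk (.node (.node (.node (.node (.col (nat_lit 0)) (.col (nat_lit 1)) (.node (.slot (nat_lit 0)) (.col (nat_lit 1)) (.slot (nat_lit 0)))) (.slot (nat_lit 1)) (.slot (nat_lit 1))) (.col (nat_lit 1)) (.slot (nat_lit 3))) (.col (nat_lit 0)) (.col (nat_lit 2))) (.col (nat_lit 0)) (.col (nat_lit 1)) (.col (nat_lit 2))
def w28712 : Root := .mk (.col (nat_lit 0)) (.col (nat_lit 1)) (.node (.slot (nat_lit 0)) (.slot (nat_lit 0)) (.slot (nat_lit 0))) (.node (.node (.node .junk (.col (nat_lit 0)) (.col (nat_lit 2))) (.col (nat_lit 1)) (.slot (nat_lit 1))) (.slot (nat_lit 20)) (.slot (nat_lit 9)))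
def l6382 : Root := .mk (.node (.node (.node (.node (.col (nat_lit 0)) (.col (nat_lit 1)) (.node (.node (.slot (nat_lit 0)) (.col (nat_lit 0)) (.slot (nat_lit 1))) (.slot (nat_lit 20)) (.slot (nat_lit 9)))) (.slot (nat_lit 20)) (.slot (nat_lit 12))) (.col (nat_lit 1)) (.slot (nat_lit 3))) (.col (nat_lit 0)) (.col (nat_lit 2))) (.col (nat_lit 0)) (.col (nat_lit 1)) (.col (nat_lit 2))
def w28713 : Root := .mk (.node (.node (.node (.node (.col (nat_lit 0)) (.col (nat_lit 1)) (.node (.node (.slot (nat_lit 0)) (.col (nat_lit 0)) (.slot (nat_lit 1))) (.slot (nat_lit 20)) (.slot (nat_lit 9)))) (.slot (nat_lit 20)) (.slot (nat_lit 12))) (.slot (nat_lit 1)) (.slot (nat_lit 3))) (.col (nat_lit 0)) (.col (nat_lit 2))) (.col (nat_lit 0)) (.col (nat_lit 1)) (.col (nat_lit 2))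
def l6383 : Root := .mk (.node (.node (.node (.col (nat_lit 0)) (.col (nat_lit 1)) (.node (.node (.slot (nat_lit 0)) (.col (nat_lit 0)) (.slot (nat_lit 1))) (.slot (nat_lit 20)) (.slot (nat_lit 9)))) (.slot (nat_lit 20)) (.slot (nat_lit 12))) (.slot (nat_lit 21)) (.slot (nat_lit 9))) (.node (.col (nat_lit 0)) (.col (nat_lit 1)) (.slot (nat_lit 8))) (.col (nat_lit 0)) (.col (nat_lit 2))
def w28714 : Root := .mk (.col (nat_lit 0)) (.col (nat_lit 1)) (.node (.node (.slot (nat_lit 0)) (.col (nat_lit 0)) (.slot (nat_lit 1))) (.slot (nat_lit 20)) (.slot (nat_lit 9))) (.node (.node (.node (.node (.col (nat_lit 0)) (.col (nat_lit 1)) (.slot (nat_lit 8))) (.col (nat_lit 0)) (.slot (nat_lit 1))) (.slot (nat_lit 21)) (.slot (nat_lit 9))) (.slot (nat_lit 20)) (.slot (nat_lit 12)))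
def l6384 : Root := .mk (.node (.node (.node (.node (.col (nat_lit 0)) (.col (nat_lit 1)) (.node (.node (.slot (nat_lit 0)) (.col (nat_lit 0)) (.slot (nat_lit 0))) (.slot (nat_lit 20)) (.slot (nat_lit 9)))) (.slot (nat_lit 20)) (.slot (nat_lit 9))) (.col (nat_lit 0)) (.slot (nat_lit 3))) (.col (nat_lit 1)) (.col (nat_lit 2))) (.col (nat_lit 0)) (.col (nat_lit 1)) (.col (nat_lit 2))
def w28715 : Root := .mk (.node (.node (.node (.node (.col (nat_lit 0)) (.col (nat_lit 1)) (.node (.node (.slot (nat_lit 0)) (.col (nat_lit 0)) (.slot (nat_lit 0))) (.slot (nat_lit 20)) (.slot (nat_lit 9)))) (.slot (nat_lit 20)) (.slot (nat_lit 9))) (.slot (nat_lit 1)) (.slot (nat_lit 3))) (.col (nat_lit 1)) (.col (nat_lit 2))) (.col (nat_lit 0)) (.col (nat_lit 1)) (.col (nat_lit 2))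
def l6385 : Root := .mk (.node (.node (.node (.col (nat_lit 0)) (.col (nat_lit 1)) (.node (.node (.slot (nat_lit 0)) (.col (nat_lit 0)) (.slot (nat_lit 0))) (.slot (nat_lit 20)) (.slot (nat_lit 9)))) (.slot (nat_lit 20)) (.slot (nat_lit 12))) (.slot (nat_lit 21)) (.slot (nat_lit 9))) (.node (.col (nat_lit 0)) (.col (nat_lit 1)) (.slot (nat_lit 8))) (.col (nat_lit 1)) (.col (nat_lit 2))
def w28716 : Root := .mk (.col (nat_lit 0)) (.col (nat_lit 1)) (.node (.node (.slot (nat_lit 0)) (.col (nat_lit 0)) (.slot (nat_lit 0))) (.slot (nat_lit 20)) (.slot (nat_lit 9))) (.node (.node (.node (.node (.col (nat_lit 0)) (.col (nat_lit 1)) (.slot (nat_lit 8))) (.col (nat_lit 1)) (.slot (nat_lit 1))) (.slot (nat_lit 21)) (.slot (nat_lit 9))) (.slot (nat_lit 20)) (.slot (nat_lit 12)))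
def w28717 : Root := .mk (.col (nat_lit 0)) (.col (nat_lit 1)) (.node (.node (.slot (nat_lit 0)) (.col (nat_lit 0)) (.slot (nat_lit 0))) (.slot (nat_lit 4)) (.slot (nat_lit 4))) (.node (.node (.node (.node (.col (nat_lit 0)) (.col (nat_lit 1)) (.slot (nat_lit 3))) (.node (.col (nat_lit 2)) (.slot (nat_lit 0)) (.slot (nat_lit 0))) (.slot (nat_lit 9))) (.slot (nat_lit 21)) (.slot (nat_lit 5))) (.slot (nat_lit 20)) (.slot (nat_lit 12)))
def w28718 : Root := .mk (.col (nat_lit 0)) (.col (nat_lit 1)) (.node (.node (.slot (nat_lit 0)) (.col (nat_lit 0)) (.slot (nat_lit 0))) (.slot (nat_lit 20)) (.slot (nat_lit 9))) (.node (.node (.node (.node (.col (nat_lit 0)) (.col (nat_lit 1)) (.slot (nat_lit 2))) (.slot (nat_lit 1)) (.slot (nat_lit 1))) (.col (nat_lit 2)) (.slot (nat_lit 2))) (.slot (nat_lit 1)) (.slot (nat_lit 1)))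
def w28719 : Root := .mk (.col (nat_lit 0)) (.col (nat_lit 1)) (.node (.slot (nat_lit 0)) (.slot (nat_lit 0)) (.slot (nat_lit 0))) (.node (.node (.node (.node (.col (nat_lit 0)) (.col (nat_lit 1)) (.slot (nat_lit 2))) (.slot (nat_lit 1)) (.slot (nat_lit 1))) (.node (.col (nat_lit 0)) (.slot (nat_lit 1)) (.slot (nat_lit 1))) (.slot (nat_lit 2))) (.slot (nat_lit 20)) (.slot (nat_lit 9)))
def l6386 : Root := .mk (.col (nat_lit 0)) (.col (nat_lit 1)) (.node (.node (.slot (nat_lit 0)) (.col (nat_lit 0)) (.slot (nat_lit 0))) (.slot (nat_lit 2)) (.slot (nat_lit 2))) (.node (.node (.node (.node (.col (nat_lit 0)) (.col (nat_lit 1)) (.slot (nat_lit 21))) (.slot (nat_lit 20)) (.slot (nat_lit 12))) (.col (nat_lit 0)) (.slot (nat_lit 4))) (.slot (nat_lit 20)) (.slot (nat_lit 9)))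
def w28720 : Root := .mk (.col (nat_lit 0)) (.col (nat_lit 1)) (.node (.node (.slot (nat_lit 0)) (.col (nat_lit 0)) (.slot (nat_lit 0))) (.slot (nat_lit 2)) (.slot (nat_lit 2))) (.node (.node (.node (.node (.col (nat_lit 0)) (.col (nat_lit 1)) (.slot (nat_lit 21))) (.slot (nat_lit 20)) (.slot (nat_lit 12))) (.node (.slot (nat_lit 0)) (.slot (nat_lit 0)) (.slot (nat_lit 0))) (.slot (nat_lit 4))) (.slot (nat_lit 20)) (.slot (nat_lit 9)))
def w28721 : Root := .mk (.col (nat_lit 0)) (.col (nat_lit 1)) (.node (.node (.slot (nat_lit 0)) (.col (nat_lit 0)) (.slot (nat_lit 0))) (.slot (nat_lit 20)) (.slot (nat_lit 9))) (.node (.node (.node (.node (.col (nat_lit 0)) (.col (nat_lit 1)) (.slot (nat_lit 2))) (.slot (nat_lit 1)) (.slot (nat_lit 1))) (.slot (nat_lit 1)) (.slot (nat_lit 1))) (.col (nat_lit 0)) (.slot (nat_lit 2)))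
def w28722 : Root := .mk (.col (nat_lit 0)) (.col (nat_lit 1)) (.node (.node (.slot (nat_lit 0)) (.col (nat_lit 0)) (.slot (nat_lit 0))) (.slot (nat_lit 20)) (.slot (nat_lit 9))) (.node (.node (.node (.node (.col (nat_lit 0)) (.col (nat_lit 1)) (.slot (nat_lit 2))) (.slot (nat_lit 1)) (.slot (nat_lit 1))) (.slot (nat_lit 1)) (.slot (nat_lit 1))) (.col (nat_lit 1)) (.slot (nat_lit 2)))
def w28723 : Root := .mk (.col (nat_lit 0)) (.col (nat_lit 1)) (.node (.node (.slot (nat_lit 0)) (.col (nat_lit 0)) (.slot (nat_lit 0))) (.slot (nat_lit 8)) (.slot (nat_lit 8))) (.node (.node (.node (.node (.col (nat_lit 0)) (.col (nat_lit 1)) (.slot (nat_lit 2))) (.slot (nat_lit 1)) (.slot (nat_lit 1))) (.slot (nat_lit 1)) (.slot (nat_lit 1))) (.node (.col (nat_lit 2)) (.slot (nat_lit 3)) (.slot (nat_lit 3))) (.slot (nat_lit 5)))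
def l6387 : Root := .mk (.col (nat_lit 0)) (.col (nat_lit 1)) (.node (.node (.slot (nat_lit 0)) (.col (nat_lit 0)) (.col (nat_lit 1))) (.col (nat_lit 2)) (.slot (nat_lit 1))) (.node (.node (.node (.slot (nat_lit 0)) (.slot (nat_lit 0)) (.slot (nat_lit 0))) (.slot (nat_lit 1)) (.slot (nat_lit 1))) (.node (.slot (nat_lit 0)) (.slot (nat_lit 0)) (.slot (nat_lit 0))) (.slot (nat_lit 2)))
def w28724 : Root := .mk (.col (nat_lit 0)) (.col (nat_lit 1)) (.node (.node (.slot (nat_lit 0)) (.col (nat_lit 0)) (.col (nat_lit 1))) (.slot (nat_lit 1)) (.slot (nat_lit 1))) (.node (.node (.node (.slot (nat_lit 0)) (.slot (nat_lit 0)) (.slot (nat_lit 0))) (.slot (nat_lit 1)) (.slot (nat_lit 1))) (.node (.slot (nat_lit 0)) (.slot (nat_lit 0)) (.slot (nat_lit 0))) (.slot (nat_lit 2)))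
def l6393 : Root := .mk (.col (nat_lit 0)) (.col (nat_lit 1)) (.node (.node (.slot (nat_lit 0)) (.col (nat_lit 0)) (.slot (nat_lit 0))) (.slot (nat_lit 5)) (.slot (nat_lit 1))) (.node (.node (.node (.node (.col (nat_lit 0)) (.col (nat_lit 1)) (.slot (nat_lit 3))) (.slot (nat_lit 12)) (.slot (nat_lit 10))) (.slot (nat_lit 8)) (.slot (nat_lit 8))) (.col (nat_lit 2)) (.slot (nat_lit 9)))
def w28737 : Root := .mk (.col (nat_lit 0)) (.col (nat_lit 1)) (.node (.node (.slot (nat_lit 0)) (.col (nat_lit 0)) (.slot (nat_lit 0))) (.slot (nat_lit 5)) (.slot (nat_lit 1))) (.node (.node (.node (.node (.col (nat_lit 0)) (.col (nat_lit 1)) (.slot (nat_lit 3))) (.slot (nat_lit 12)) (.slot (nat_lit 10))) (.slot (nat_lit 8)) (.slot (nat_lit 8))) (.node (.slot (nat_lit 0)) (.slot (nat_lit 0)) (.slot (nat_lit 0))) (.slot (nat_lit 9)))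
def w28738 : Root := .mk (.node (.col (nat_lit 0)) (.col (nat_lit 1)) (.node (.node (.slot (nat_lit 0)) (.col (nat_lit 0)) (.slot (nat_lit 0))) (.col (nat_lit 0)) (.slot (nat_lit 3)))) (.node (.node (.slot (nat_lit 0)) (.slot (nat_lit 0)) (.slot (nat_lit 0))) (.slot (nat_lit 2)) (.slot (nat_lit 2))) (.col (nat_lit 2)) (.col (nat_lit 0))
def w28739 : Root := .mk (.node (.col (nat_lit 0)) (.col (nat_lit 1)) (.node (.node (.slot (nat_lit 0)) (.col (nat_lit 0)) (.slot (nat_lit 0))) (.col (nat_lit 0)) (.slot (nat_lit 4)))) (.node (.node (.slot (nat_lit 0)) (.slot (nat_lit 0)) (.slot (nat_lit 0))) (.slot (nat_lit 3)) (.slot (nat_lit 3))) (.col (nat_lit 2)) (.col (nat_lit 1))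
def l6394 : Root := .mk (.col (nat_lit 0)) (.col (nat_lit 1)) (.node (.slot (nat_lit 0)) (.col (nat_lit 0)) (.slot (nat_lit 0))) (.node (.node (.node (.node (.col (nat_lit 0)) (.col (nat_lit 1)) (.slot (nat_lit 8))) (.col (nat_lit 2)) (.slot (nat_lit 2))) (.slot (nat_lit 20)) (.slot (nat_lit 9))) (.col (nat_lit 2)) (.node (.slot (nat_lit 0)) (.slot (nat_lit 0)) (.slot (nat_lit 0))))
def w28740 : Root := .mk (.col (nat_lit 0)) (.col (nat_lit 1)) (.node (.slot (nat_lit 0)) (.col (nat_lit 0)) (.slot (nat_lit 0))) (.node (.node (.node (.node (.col (nat_lit 0)) (.col (nat_lit 1)) (.slot (nat_lit 8))) (.slot (nat_lit 1)) (.slot (nat_lit 2))) (.slot (nat_lit 20)) (.slot (nat_lit 9))) (.col (nat_lit 2)) (.node (.slot (nat_lit 0)) (.slot (nat_lit 0)) (.slot (nat_lit 0))))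
def w28741 : Root := .mk (.node (.node (.node (.node (.col (nat_lit 0)) (.col (nat_lit 1)) .junk) (.col (nat_lit 2)) (.slot (nat_lit 1))) (.node (.col (nat_lit 0)) (.slot (nat_lit 1)) (.slot (nat_lit 1))) (.slot (nat_lit 2))) (.slot (nat_lit 1)) (.slot (nat_lit 1))) (.col (nat_lit 0)) (.col (nat_lit 1)) (.slot (nat_lit 2))
def l6395 : Root := .mk (.node (.col (nat_lit 0)) (.col (nat_lit 1)) (.node (.node (.node (.node (.col (nat_lit 0)) (.col (nat_lit 1)) (.slot (nat_lit 5))) (.col (nat_lit 1)) (.slot (nat_lit 8))) (.col (nat_lit 0)) (.slot (nat_lit 2))) (.col (nat_lit 2)) (.slot (nat_lit 3)))) (.col (nat_lit 2)) (.col (nat_lit 0)) (.col (nat_lit 1))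
def w28742 : Root := .mk (.node (.col (nat_lit 0)) (.col (nat_lit 1)) (.node (.node (.node (.node (.col (nat_lit 0)) (.col (nat_lit 1)) (.slot (nat_lit 5))) (.col (nat_lit 1)) (.slot (nat_lit 8))) (.slot (nat_lit 1)) (.slot (nat_lit 2))) (.col (nat_lit 2)) (.slot (nat_lit 3)))) (.col (nat_lit 2)) (.col (nat_lit 0)) (.col (nat_lit 1))
def l6396 : Root := .mk (.col (nat_lit 0)) (.col (nat_lit 1)) (.node (.col (nat_lit 2)) (.col (nat_lit 0)) (.slot (nat_lit 5))) (.node (.node (.node (.node (.col (nat_lit 0)) (.col (nat_lit 1)) (.slot (nat_lit 5))) (.col (nat_lit 1)) (.slot (nat_lit 8))) (.slot (nat_lit 2)) (.slot (nat_lit 1))) (.col (nat_lit 2)) (.slot (nat_lit 3)))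
def w28743 : Root := .mk (.col (nat_lit 0)) (.col (nat_lit 1)) (.node (.node (.slot (nat_lit 0)) (.col (nat_lit 0)) (.slot (nat_lit 0))) (.col (nat_lit 0)) (.slot (nat_lit 5))) (.node (.node (.node (.node (.col (nat_lit 0)) (.col (nat_lit 1)) (.slot (nat_lit 5))) (.col (nat_lit 1)) (.slot (nat_lit 8))) (.slot (nat_lit 2)) (.slot (nat_lit 1))) (.col (nat_lit 2)) (.slot (nat_lit 3)))
def l6397 : Root := .mk (.col (nat_lit 0)) (.col (nat_lit 1)) (.node (.node (.slot (nat_lit 0)) (.col (nat_lit 0)) (.slot (nat_lit 0))) (.col (nat_lit 0)) (.slot (nat_lit 5))) (.node (.node (.node (.node (.col (nat_lit 0)) (.col (nat_lit 1)) (.slot (nat_lit 21))) (.slot (nat_lit 20)) (.slot (nat_lit 12))) (.slot (nat_lit 20)) (.slot (nat_lit 9))) (.col (nat_lit 2)) (.slot (nat_lit 9)))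
def w28744 : Root := .mk (.col (nat_lit 0)) (.col (nat_lit 1)) (.node (.node (.slot (nat_lit 0)) (.col (nat_lit 0)) (.slot (nat_lit 0))) (.col (nat_lit 0)) (.slot (nat_lit 5))) (.node (.node (.node (.node (.col (nat_lit 0)) (.col (nat_lit 1)) (.slot (nat_lit 21))) (.slot (nat_lit 20)) (.slot (nat_lit 12))) (.slot (nat_lit 20)) (.slot (nat_lit 9))) (.slot (nat_lit 1)) (.slot (nat_lit 9)))
def w28748 : Root := .mk (.node (.col (nat_lit 0)) (.col (nat_lit 1)) (.node (.node (.slot (nat_lit 0)) (.col (nat_lit 0)) (.slot (nat_lit 1))) (.col (nat_lit 1)) (.slot (nat_lit 5)))) (.node (.slot (nat_lit 0)) (.slot (nat_lit 0)) (.slot (nat_lit 0))) (.col (nat_lit 2)) (.col (nat_lit 0))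
def l6398 : Root := .mk (.col (nat_lit 0)) (.col (nat_lit 1)) (.node (.node (.slot (nat_lit 0)) (.col (nat_lit 0)) (.slot (nat_lit 1))) (.col (nat_lit 1)) (.slot (nat_lit 5))) (.node (.node (.node (.node (.col (nat_lit 0)) (.col (nat_lit 1)) (.slot (nat_lit 9))) (.slot (nat_lit 3)) (.slot (nat_lit 2))) (.slot (nat_lit 20)) (.slot (nat_lit 9))) (.col (nat_lit 2)) (.slot (nat_lit 3)))
def w28749 : Root := .mk (.col (nat_lit 0)) (.col (nat_lit 1)) (.node (.node (.slot (nat_lit 0)) (.col (nat_lit 0)) (.slot (nat_lit 1))) (.col (nat_lit 1)) (.slot (nat_lit 5))) (.node (.node (.node (.node (.col (nat_lit 0)) (.col (nat_lit 1)) (.slot (nat_lit 9))) (.slot (nat_lit 3)) (.slot (nat_lit 2))) (.slot (nat_lit 20)) (.slot (nat_lit 9))) (.slot (nat_lit 1)) (.slot (nat_lit 3)))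
def w28757 : Root := .mk (.col (nat_lit 0)) (.col (nat_lit 1)) (.node (.node (.slot (nat_lit 0)) (.col (nat_lit 0)) (.slot (nat_lit 1))) (.node (.col (nat_lit 2)) (.col (nat_lit 3)) (.slot (nat_lit 0))) (.slot (nat_lit 1))) (.node (.col (nat_lit 0)) (.col (nat_lit 4)) (.slot (nat_lit 5)))
def l6405 : Root := .mk (.col (nat_lit 0)) (.col (nat_lit 1)) (.node (.node (.slot (nat_lit 0)) (.col (nat_lit 0)) (.col (nat_lit 1))) (.col (nat_lit 3)) (.slot (nat_lit 1))) (.node (.node (.slot (nat_lit 0)) (.slot (nat_lit 0)) (.slot (nat_lit 0))) (.slot (nat_lit 5)) (.slot (nat_lit 5)))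
def w28767 : Root := .mk (.col (nat_lit 0)) (.col (nat_lit 1)) (.node (.node (.slot (nat_lit 0)) (.col (nat_lit 0)) (.col (nat_lit 1))) (.node (.col (nat_lit 2)) (.slot (nat_lit 0)) (.slot (nat_lit 0))) (.slot (nat_lit 1))) (.node (.node (.slot (nat_lit 0)) (.slot (nat_lit 0)) (.slot (nat_lit 0))) (.slot (nat_lit 5)) (.slot (nat_lit 5)))
def l6406 : Root := .mk (.col (nat_lit 0)) (.col (nat_lit 1)) (.node (.node (.slot (nat_lit 0)) (.col (nat_lit 0)) (.slot (nat_lit 0))) (.node (.col (nat_lit 2)) (.slot (nat_lit 3)) (.slot (nat_lit 3))) (.slot (nat_lit 8))) (.node (.node (.col (nat_lit 0)) (.slot (nat_lit 3)) (.slot (nat_lit 1))) (.col (nat_lit 3)) (.slot (nat_lit 3)))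
def w28769 : Root := .mk (.col (nat_lit 0)) (.col (nat_lit 1)) (.node (.node (.slot (nat_lit 0)) (.col (nat_lit 0)) (.slot (nat_lit 0))) (.node (.col (nat_lit 2)) (.slot (nat_lit 3)) (.slot (nat_lit 3))) (.slot (nat_lit 8))) (.node (.node (.col (nat_lit 0)) (.slot (nat_lit 3)) (.slot (nat_lit 1))) (.slot (nat_lit 1)) (.slot (nat_lit 3)))
def l6407 : Root := .mk (.col (nat_lit 0)) (.col (nat_lit 1)) (.node (.node (.slot (nat_lit 0)) (.col (nat_lit 0)) (.slot (nat_lit 1))) (.node (.col (nat_lit 2)) (.slot (nat_lit 3)) (.slot (nat_lit 3))) (.slot (nat_lit 8))) (.node (.node (.col (nat_lit 1)) (.slot (nat_lit 3)) (.slot (nat_lit 1))) (.col (nat_lit 3)) (.slot (nat_lit 5)))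
def w28770 : Root := .mk (.col (nat_lit 0)) (.col (nat_lit 1)) (.node (.node (.slot (nat_lit 0)) (.col (nat_lit 0)) (.slot (nat_lit 1))) (.node (.col (nat_lit 2)) (.slot (nat_lit 3)) (.slot (nat_lit 3))) (.slot (nat_lit 8))) (.node (.node (.col (nat_lit 1)) (.slot (nat_lit 3)) (.slot (nat_lit 1))) (.slot (nat_lit 1)) (.slot (nat_lit 5)))
def w28772 : Root := .mk (.col (nat_lit 0)) (.col (nat_lit 1)) (.node (.slot (nat_lit 0)) (.slot (nat_lit 0)) (.slot (nat_lit 0))) (.node (.node (.node (.node (.col (nat_lit 0)) (.col (nat_lit 1)) .junk) (.col (nat_lit 3)) (.slot (nat_lit 1))) (.col (nat_lit 0)) (.slot (nat_lit 1))) (.col (nat_lit 1)) (.slot (nat_lit 1)))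
def w28773 : Root := .mk (.node (.node (.node (.node (.col (nat_lit 0)) (.col (nat_lit 1)) (.node (.slot (nat_lit 0)) (.slot (nat_lit 0)) (.slot (nat_lit 0)))) (.slot (nat_lit 20)) (.slot (nat_lit 9))) (.col (nat_lit 0)) (.slot (nat_lit 1))) (.col (nat_lit 3)) (.node (.col (nat_lit 2)) (.slot (nat_lit 1)) (.slot (nat_lit 0)))) (.col (nat_lit 0)) (.col (nat_lit 1)) (.col (nat_lit 3))
def l6409 : Root := .mk (.node (.node (.node (.node (.col (nat_lit 0)) (.col (nat_lit 1)) (.node (.slot (nat_lit 0)) (.slot (nat_lit 0)) (.slot (nat_lit 1)))) (.slot (nat_lit 20)) (.slot (nat_lit 12))) (.col (nat_lit 0)) (.slot (nat_lit 21))) (.col (nat_lit 3)) (.slot (nat_lit 8))) (.col (nat_lit 0)) (.col (nat_lit 1)) (.col (nat_lit 3))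
def w28774 : Root := .mk (.node (.node (.node (.node (.col (nat_lit 0)) (.col (nat_lit 1)) (.node (.slot (nat_lit 0)) (.slot (nat_lit 0)) (.slot (nat_lit 1)))) (.slot (nat_lit 20)) (.slot (nat_lit 12))) (.slot (nat_lit 1)) (.slot (nat_lit 21))) (.col (nat_lit 3)) (.slot (nat_lit 8))) (.col (nat_lit 0)) (.col (nat_lit 1)) (.col (nat_lit 3))
def l6410 : Root := .mk (.col (nat_lit 0)) (.col (nat_lit 1)) (.node (.node (.slot (nat_lit 0)) (.col (nat_lit 0)) (.slot (nat_lit 1))) (.node (.col (nat_lit 2)) (.slot (nat_lit 3)) (.slot (nat_lit 3))) (.slot (nat_lit 8))) (.node (.node (.node (.node (.col (nat_lit 0)) (.col (nat_lit 1)) (.slot (nat_lit 8))) (.col (nat_lit 3)) (.slot (nat_lit 8))) (.slot (nat_lit 21)) (.slot (nat_lit 1))) (.slot (nat_lit 20)) (.slot (nat_lit 12)))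
def w28775 : Root := .mk (.col (nat_lit 0)) (.col (nat_lit 1)) (.node (.node (.slot (nat_lit 0)) (.col (nat_lit 0)) (.slot (nat_lit 1))) (.node (.col (nat_lit 2)) (.slot (nat_lit 3)) (.slot (nat_lit 3))) (.slot (nat_lit 8))) (.node (.node (.node (.node (.col (nat_lit 0)) (.col (nat_lit 1)) (.slot (nat_lit 8))) (.slot (nat_lit 1)) (.slot (nat_lit 8))) (.slot (nat_lit 21)) (.slot (nat_lit 1))) (.slot (nat_lit 20)) (.slot (nat_lit 12)))
def l6412 : Root := .mk (.col (nat_lit 0)) (.col (nat_lit 1)) (.node (.node (.slot (nat_lit 0)) (.col (nat_lit 0)) (.col (nat_lit 2))) (.slot (nat_lit 5)) (.slot (nat_lit 1))) (.node (.node (.node (.node (.col (nat_lit 0)) (.col (nat_lit 1)) (.slot (nat_lit 3))) (.slot (nat_lit 12)) (.slot (nat_lit 10))) (.slot (nat_lit 8)) (.slot (nat_lit 8))) (.col (nat_lit 3)) (.slot (nat_lit 9)))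
def w28779 : Root := .mk (.col (nat_lit 0)) (.col (nat_lit 1)) (.node (.node (.slot (nat_lit 0)) (.col (nat_lit 0)) (.col (nat_lit 2))) (.slot (nat_lit 5)) (.slot (nat_lit 1))) (.node (.node (.node (.node (.col (nat_lit 0)) (.col (nat_lit 1)) (.slot (nat_lit 3))) (.slot (nat_lit 12)) (.slot (nat_lit 10))) (.slot (nat_lit 8)) (.slot (nat_lit 8))) (.slot (nat_lit 1)) (.slot (nat_lit 9)))
def l6413 : Root := .mk (.col (nat_lit 0)) (.col (nat_lit 1)) (.node (.node (.slot (nat_lit 0)) (.col (nat_lit 0)) (.slot (nat_lit 8))) (.slot (nat_lit 20)) (.slot (nat_lit 9))) (.node (.node (.node (.node (.col (nat_lit 0)) (.col (nat_lit 1)) (.slot (nat_lit 21))) (.slot (nat_lit 20)) (.slot (nat_lit 12))) (.slot (nat_lit 21)) (.slot (nat_lit 9))) (.slot (nat_lit 20)) (.slot (nat_lit 12)))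
def w28780 : Root := .mk (.col (nat_lit 0)) (.col (nat_lit 1)) (.node (.node (.slot (nat_lit 0)) (.col (nat_lit 0)) (.slot (nat_lit 8))) (.slot (nat_lit 20)) (.slot (nat_lit 9))) (.node (.node (.node (.node (.col (nat_lit 0)) (.slot (nat_lit 1)) (.slot (nat_lit 21))) (.slot (nat_lit 20)) (.slot (nat_lit 12))) (.slot (nat_lit 21)) (.slot (nat_lit 9))) (.slot (nat_lit 20)) (.slot (nat_lit 12)))
def w28781 : Root := .mk (.col (nat_lit 0)) (.col (nat_lit 1)) (.node (.node (.slot (nat_lit 0)) (.col (nat_lit 1)) (.slot (nat_lit 8))) (.slot (nat_lit 20)) (.slot (nat_lit 9))) (.node (.node (.node (.node (.col (nat_lit 0)) (.slot (nat_lit 1)) (.slot (nat_lit 21))) (.slot (nat_lit 20)) (.slot (nat_lit 12))) (.slot (nat_lit 21)) (.slot (nat_lit 9))) (.slot (nat_lit 20)) (.slot (nat_lit 12)))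
def l6414 : Root := .mk (.node (.node (.col (nat_lit 0)) (.col (nat_lit 1)) (.node (.node (.slot (nat_lit 0)) (.col (nat_lit 2)) (.slot (nat_lit 0))) (.slot (nat_lit 5)) (.slot (nat_lit 5)))) (.slot (nat_lit 2)) (.slot (nat_lit 2))) (.node (.node (.col (nat_lit 0)) (.slot (nat_lit 21)) (.slot (nat_lit 1))) (.slot (nat_lit 20)) (.slot (nat_lit 12))) (.col (nat_lit 0)) (.col (nat_lit 1))
def w28782 : Root := .mk (.col (nat_lit 0)) (.col (nat_lit 1)) (.node (.node (.slot (nat_lit 0)) (.col (nat_lit 2)) (.slot (nat_lit 0))) (.slot (nat_lit 5)) (.slot (nat_lit 5))) (.node (.node (.node (.node (.col (nat_lit 0)) (.slot (nat_lit 21)) (.slot (nat_lit 1))) (.slot (nat_lit 20)) (.slot (nat_lit 12))) (.col (nat_lit 0)) (.node (.slot (nat_lit 0)) (.slot (nat_lit 0)) (.slot (nat_lit 0)))) (.slot (nat_lit 2)) (.slot (nat_lit 2)))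
def l6415 : Root := .mk (.col (nat_lit 0)) (.col (nat_lit 1)) (.node (.node (.slot (nat_lit 0)) (.col (nat_lit 2)) (.slot (nat_lit 0))) (.slot (nat_lit 20)) (.slot (nat_lit 9))) (.node (.node (.node (.node (.col (nat_lit 0)) (.slot (nat_lit 21)) (.slot (nat_lit 5))) (.slot (nat_lit 20)) (.slot (nat_lit 12))) (.col (nat_lit 0)) (.slot (nat_lit 21))) (.slot (nat_lit 20)) (.slot (nat_lit 12)))
def w28783 : Root := .mk (.col (nat_lit 0)) (.col (nat_lit 1)) (.node (.node (.slot (nat_lit 0)) (.col (nat_lit 2)) (.slot (nat_lit 0))) (.slot (nat_lit 20)) (.slot (nat_lit 9))) (.node (.node (.node (.node (.col (nat_lit 0)) (.slot (nat_lit 21)) (.slot (nat_lit 5))) (.slot (nat_lit 20)) (.slot (nat_lit 12))) (.slot (nat_lit 1)) (.slot (nat_lit 21))) (.slot (nat_lit 20)) (.slot (nat_lit 12)))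
def w28784 : Root := .mk (.col (nat_lit 0)) (.col (nat_lit 1)) (.slot (nat_lit 0)) (.node (.node (.col (nat_lit 2)) (.node (.node (.col (nat_lit 2)) (.slot (nat_lit 0)) (.slot (nat_lit 0))) (.slot (nat_lit 5)) (.slot (nat_lit 5))) (.node (.col (nat_lit 2)) (.node (.col (nat_lit 3)) (.slot (nat_lit 1)) (.slot (nat_lit 1))) (.slot (nat_lit 2)))) (.node (.col (nat_lit 2)) (.slot (nat_lit 6)) (.slot (nat_lit 1))) (.slot (nat_lit 8)))
def l6416 : Root := .mk (.col (nat_lit 0)) (.col (nat_lit 1)) (.node (.node (.slot (nat_lit 0)) (.slot (nat_lit 0)) (.slot (nat_lit 0))) (.slot (nat_lit 2)) (.slot (nat_lit 2))) (.node (.node (.col (nat_lit 2)) (.node (.node (.col (nat_lit 2)) (.slot (nat_lit 21)) (.slot (nat_lit 8))) (.slot (nat_lit 20)) (.slot (nat_lit 12))) (.node (.col (nat_lit 2)) (.node (.col (nat_lit 3)) (.slot (nat_lit 8)) (.slot (nat_lit 8))) (.slot (nat_lit 8)))) (.slot (nat_lit 9)) (.slot (nat_lit 9)))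
def w28785 : Root := .mk (.col (nat_lit 0)) (.col (nat_lit 1)) (.node (.node (.slot (nat_lit 0)) (.slot (nat_lit 0)) (.slot (nat_lit 0))) (.slot (nat_lit 2)) (.slot (nat_lit 2))) (.node (.node (.col (nat_lit 2)) (.node (.node (.col (nat_lit 2)) (.slot (nat_lit 21)) (.slot (nat_lit 8))) (.slot (nat_lit 20)) (.slot (nat_lit 12))) (.node (.col (nat_lit 2)) (.slot (nat_lit 9)) (.slot (nat_lit 8)))) (.slot (nat_lit 9)) (.slot (nat_lit 9)))
def w28786 : Root := .mk (.node (.node (.col (nat_lit 0)) (.col (nat_lit 1)) (.node (.node (.slot (nat_lit 0)) (.slot (nat_lit 0)) (.slot (nat_lit 0))) (.slot (nat_lit 20)) (.slot (nat_lit 9)))) (.slot (nat_lit 20)) (.slot (nat_lit 9))) (.col (nat_lit 2)) (.node (.slot (nat_lit 0)) (.col (nat_lit 2)) (.slot (nat_lit 0))) (.col (nat_lit 0))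
def w28787 : Root := .mk (.node (.node (.node (.col (nat_lit 0)) (.col (nat_lit 1)) (.node (.node (.slot (nat_lit 0)) (.slot (nat_lit 0)) (.slot (nat_lit 0))) (.slot (nat_lit 7)) (.slot (nat_lit 5)))) (.slot (nat_lit 7)) (.slot (nat_lit 5))) (.col (nat_lit 2)) (.col (nat_lit 4))) (.col (nat_lit 3)) (.col (nat_lit 2)) (.col (nat_lit 4))
def l6417 : Root := .mk (.node (.node (.col (nat_lit 0)) (.col (nat_lit 1)) (.node (.node (.slot (nat_lit 0)) (.slot (nat_lit 0)) (.slot (nat_lit 0))) (.slot (nat_lit 7)) (.slot (nat_lit 5)))) (.slot (nat_lit 8)) (.slot (nat_lit 5))) (.col (nat_lit 2)) (.node (.col (nat_lit 3)) (.col (nat_lit 2)) (.slot (nat_lit 8))) (.col (nat_lit 4))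
def w28788 : Root := .mk (.node (.node (.col (nat_lit 0)) (.col (nat_lit 1)) (.node (.node (.slot (nat_lit 0)) (.slot (nat_lit 0)) (.slot (nat_lit 0))) (.slot (nat_lit 7)) (.slot (nat_lit 5)))) (.slot (nat_lit 8)) (.slot (nat_lit 5))) (.col (nat_lit 2)) (.node (.node (.col (nat_lit 2)) (.slot (nat_lit 0)) (.slot (nat_lit 0))) (.col (nat_lit 2)) (.slot (nat_lit 8))) (.col (nat_lit 4))
def w28789 : Root := .mk (.col (nat_lit 0)) (.col (nat_lit 1)) (.node (.node (.slot (nat_lit 0)) (.slot (nat_lit 0)) (.slot (nat_lit 0))) (.slot (nat_lit 7)) (.slot (nat_lit 5))) (.node (.node (.col (nat_lit 2)) (.node (.slot (nat_lit 0)) (.col (nat_lit 2)) (.slot (nat_lit 0))) (.node (.col (nat_lit 3)) (.col (nat_lit 2)) (.slot (nat_lit 8)))) (.slot (nat_lit 8)) (.slot (nat_lit 5)))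
def w28790 : Root := .mk (.col (nat_lit 0)) (.col (nat_lit 1)) (.node (.node (.slot (nat_lit 0)) (.slot (nat_lit 0)) (.slot (nat_lit 0))) (.slot (nat_lit 7)) (.slot (nat_lit 5))) (.node (.node (.col (nat_lit 2)) (.node (.col (nat_lit 3)) (.col (nat_lit 2)) (.slot (nat_lit 8))) (.node (.col (nat_lit 3)) (.slot (nat_lit 0)) (.slot (nat_lit 0)))) (.slot (nat_lit 8)) (.slot (nat_lit 5)))
def l6418 : Root := .mk (.col (nat_lit 0)) (.col (nat_lit 1)) (.node (.node (.slot (nat_lit 0)) (.slot (nat_lit 0)) (.slot (nat_lit 0))) (.slot (nat_lit 7)) (.slot (nat_lit 5))) (.node (.node (.col (nat_lit 2)) (.node (.col (nat_lit 3)) (.col (nat_lit 2)) (.slot (nat_lit 8))) (.node (.col (nat_lit 3)) (.node (.col (nat_lit 3)) (.slot (nat_lit 2)) (.slot (nat_lit 1))) (.slot (nat_lit 3)))) (.slot (nat_lit 8)) (.slot (nat_lit 5)))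
def w28791 : Root := .mk (.col (nat_lit 0)) (.col (nat_lit 1)) (.node (.node (.slot (nat_lit 0)) (.slot (nat_lit 0)) (.slot (nat_lit 0))) (.slot (nat_lit 7)) (.slot (nat_lit 5))) (.node (.node (.col (nat_lit 2)) (.node (.node (.col (nat_lit 2)) (.slot (nat_lit 0)) (.slot (nat_lit 0))) (.col (nat_lit 2)) (.slot (nat_lit 8))) (.node (.col (nat_lit 3)) (.node (.col (nat_lit 3)) (.slot (nat_lit 2)) (.slot (nat_lit 1))) (.slot (nat_lit 3)))) (.slot (nat_lit 8)) (.slot (nat_lit 5)))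
def l6419 : Root := .mk (.col (nat_lit 0)) (.col (nat_lit 1)) (.node (.node (.slot (nat_lit 0)) (.slot (nat_lit 0)) (.slot (nat_lit 0))) (.slot (nat_lit 7)) (.slot (nat_lit 5))) (.node (.node (.col (nat_lit 2)) (.node (.col (nat_lit 3)) (.col (nat_lit 2)) (.slot (nat_lit 8))) (.node (.col (nat_lit 3)) (.node (.slot (nat_lit 0)) (.slot (nat_lit 1)) (.slot (nat_lit 1))) (.slot (nat_lit 3)))) (.slot (nat_lit 8)) (.slot (nat_lit 5)))
def w28792 : Root := .mk (.col (nat_lit 0)) (.col (nat_lit 1)) (.node (.node (.slot (nat_lit 0)) (.slot (nat_lit 0)) (.slot (nat_lit 0))) (.slot (nat_lit 7)) (.slot (nat_lit 5))) (.node (.node (.col (nat_lit 2)) (.node (.node (.col (nat_lit 2)) (.slot (nat_lit 0)) (.slot (nat_lit 0))) (.col (nat_lit 2)) (.slot (nat_lit 8))) (.node (.col (nat_lit 3)) (.node (.slot (nat_lit 0)) (.slot (nat_lit 1)) (.slot (nat_lit 1))) (.slot (nat_lit 3)))) (.slot (nat_lit 8)) (.slot (nat_lit 5)))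
def l6420 : Root := .mk (.col (nat_lit 0)) (.col (nat_lit 1)) (.node (.node (.slot (nat_lit 0)) (.slot (nat_lit 0)) (.slot (nat_lit 0))) (.node (.col (nat_lit 4)) (.slot (nat_lit 1)) (.slot (nat_lit 1))) (.slot (nat_lit 2))) (.node (.node (.col (nat_lit 2)) (.node (.node (.col (nat_lit 2)) (.slot (nat_lit 0)) (.slot (nat_lit 0))) (.col (nat_lit 2)) (.slot (nat_lit 3))) (.col (nat_lit 0))) (.col (nat_lit 3)) (.slot (nat_lit 8)))
def w28793 : Root := .mk (.node (.node (.col (nat_lit 0)) (.col (nat_lit 1)) (.node (.node (.slot (nat_lit 0)) (.slot (nat_lit 0)) (.slot (nat_lit 0))) (.node (.col (nat_lit 4)) (.slot (nat_lit 1)) (.slot (nat_lit 1))) (.slot (nat_lit 2)))) (.slot (nat_lit 1)) (.slot (nat_lit 8))) (.col (nat_lit 2)) (.node (.node (.col (nat_lit 2)) (.slot (nat_lit 0)) (.slot (nat_lit 0))) (.col (nat_lit 2)) (.slot (nat_lit 3))) (.col (nat_lit 0))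
def l6421 : Root := .mk (.col (nat_lit 0)) (.col (nat_lit 1)) (.node (.node (.slot (nat_lit 0)) (.slot (nat_lit 0)) (.slot (nat_lit 0))) (.node (.col (nat_lit 4)) (.slot (nat_lit 1)) (.slot (nat_lit 1))) (.slot (nat_lit 2))) (.node (.node (.col (nat_lit 2)) (.node (.node (.col (nat_lit 2)) (.slot (nat_lit 0)) (.slot (nat_lit 0))) (.col (nat_lit 2)) (.slot (nat_lit 3))) (.node (.col (nat_lit 3)) (.col (nat_lit 4)) (.slot (nat_lit 3)))) (.slot (nat_lit 8)) (.slot (nat_lit 5)))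
def w28794 : Root := .mk (.col (nat_lit 0)) (.col (nat_lit 1)) (.node (.node (.slot (nat_lit 0)) (.slot (nat_lit 0)) (.slot (nat_lit 0))) (.node (.col (nat_lit 4)) (.slot (nat_lit 1)) (.slot (nat_lit 1))) (.slot (nat_lit 2))) (.node (.node (.col (nat_lit 2)) (.node (.node (.col (nat_lit 2)) (.slot (nat_lit 0)) (.slot (nat_lit 0))) (.col (nat_lit 2)) (.slot (nat_lit 3))) (.node (.col (nat_lit 3)) (.slot (nat_lit 1)) (.slot (nat_lit 3)))) (.slot (nat_lit 8)) (.slot (nat_lit 5)))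
def w28795 : Root := .mk (.col (nat_lit 0)) (.col (nat_lit 1)) (.node (.node (.slot (nat_lit 0)) (.col (nat_lit 0)) (.slot (nat_lit 0))) (.slot (nat_lit 20)) (.slot (nat_lit 9))) (.node (.node (.col (nat_lit 2)) (.node (.slot (nat_lit 0)) (.col (nat_lit 2)) (.slot (nat_lit 0))) (.node (.col (nat_lit 3)) (.slot (nat_lit 1)) (.slot (nat_lit 1)))) (.slot (nat_lit 1)) (.slot (nat_lit 1)))
def l6422 : Root := .mk (.node (.node (.col (nat_lit 0)) (.col (nat_lit 1)) (.node (.node (.slot (nat_lit 0)) (.col (nat_lit 2)) (.slot (nat_lit 0))) (.slot (nat_lit 20)) (.slot (nat_lit 9)))) (.slot (nat_lit 20)) (.slot (nat_lit 9))) (.col (nat_lit 2)) (.col (nat_lit 0)) (.node (.col (nat_lit 3)) (.slot (nat_lit 20)) (.slot (nat_lit 9)))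
def w28796 : Root := .mk (.col (nat_lit 0)) (.col (nat_lit 1)) (.node (.node (.slot (nat_lit 0)) (.col (nat_lit 2)) (.slot (nat_lit 0))) (.slot (nat_lit 20)) (.slot (nat_lit 9))) (.node (.node (.col (nat_lit 2)) (.node (.slot (nat_lit 0)) (.col (nat_lit 2)) (.slot (nat_lit 0))) (.node (.col (nat_lit 3)) (.slot (nat_lit 20)) (.slot (nat_lit 9)))) (.slot (nat_lit 20)) (.slot (nat_lit 9)))
def w28797 : Root := .mk (.col (nat_lit 0)) (.col (nat_lit 1)) (.node (.node (.slot (nat_lit 0)) (.col (nat_lit 3)) (.slot (nat_lit 0))) (.slot (nat_lit 20)) (.slot (nat_lit 9))) (.node (.node (.col (nat_lit 2)) (.node (.slot (nat_lit 0)) (.col (nat_lit 2)) (.slot (nat_lit 0))) (.node (.col (nat_lit 3)) (.slot (nat_lit 1)) (.slot (nat_lit 1)))) (.slot (nat_lit 1)) (.slot (nat_lit 1)))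
def w28798 : Root := .mk (.node (.node (.node (.col (nat_lit 0)) (.col (nat_lit 1)) (.node (.node (.slot (nat_lit 0)) (.col (nat_lit 4)) (.slot (nat_lit 0))) (.slot (nat_lit 20)) (.slot (nat_lit 9)))) (.slot (nat_lit 3)) (.slot (nat_lit 1))) (.col (nat_lit 2)) (.node (.slot (nat_lit 0)) (.col (nat_lit 2)) (.slot (nat_lit 0)))) (.col (nat_lit 3)) (.col (nat_lit 4)) (.col (nat_lit 2))
def w28799 : Root := .mk (.node (.node (.node (.col (nat_lit 0)) (.col (nat_lit 1)) (.slot (nat_lit 0))) (.slot (nat_lit 1)) (.slot (nat_lit 1))) (.col (nat_lit 2)) (.node (.slot (nat_lit 0)) (.col (nat_lit 2)) (.slot (nat_lit 0)))) (.col (nat_lit 3)) (.col (nat_lit 4)) (.node (.col (nat_lit 3)) (.slot (nat_lit 0)) (.slot (nat_lit 0)))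
def w28800 : Root := .mk (.node (.node (.node (.col (nat_lit 0)) (.col (nat_lit 1)) (.slot (nat_lit 0))) (.slot (nat_lit 1)) (.slot (nat_lit 1))) (.col (nat_lit 2)) (.node (.slot (nat_lit 0)) (.col (nat_lit 2)) (.slot (nat_lit 0)))) (.col (nat_lit 3)) (.col (nat_lit 4)) (.node (.slot (nat_lit 0)) (.slot (nat_lit 0)) (.slot (nat_lit 0)))
def l6423 : Root := .mk (.col (nat_lit 0)) (.col (nat_lit 1)) (.node (.node (.slot (nat_lit 0)) (.col (nat_lit 4)) (.slot (nat_lit 0))) (.slot (nat_lit 20)) (.slot (nat_lit 9))) (.node (.node (.col (nat_lit 2)) (.node (.node (.col (nat_lit 2)) (.slot (nat_lit 0)) (.slot (nat_lit 0))) (.col (nat_lit 2)) (.slot (nat_lit 8))) (.node (.col (nat_lit 3)) (.col (nat_lit 4)) (.slot (nat_lit 3)))) (.slot (nat_lit 7)) (.slot (nat_lit 5)))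
def w28801 : Root := .mk (.col (nat_lit 0)) (.col (nat_lit 1)) (.node (.node (.slot (nat_lit 0)) (.col (nat_lit 4)) (.slot (nat_lit 0))) (.slot (nat_lit 20)) (.slot (nat_lit 9))) (.node (.node (.col (nat_lit 2)) (.node (.node (.col (nat_lit 2)) (.slot (nat_lit 0)) (.slot (nat_lit 0))) (.col (nat_lit 2)) (.slot (nat_lit 8))) (.node (.col (nat_lit 3)) (.slot (nat_lit 1)) (.slot (nat_lit 3)))) (.slot (nat_lit 7)) (.slot (nat_lit 5)))
def l6424 : Root := .mk (.col (nat_lit 0)) (.col (nat_lit 1)) (.node (.node (.slot (nat_lit 0)) (.slot (nat_lit 3)) (.slot (nat_lit 2))) (.slot (nat_lit 20)) (.slot (nat_lit 9))) (.node (.node (.col (nat_lit 2)) (.node (.node (.col (nat_lit 2)) (.slot (nat_lit 11)) (.slot (nat_lit 9))) (.col (nat_lit 2)) (.slot (nat_lit 10))) (.node (.col (nat_lit 3)) (.slot (nat_lit 20)) (.slot (nat_lit 10)))) (.slot (nat_lit 12)) (.slot (nat_lit 20)))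
def w28802 : Root := .mk (.col (nat_lit 0)) (.col (nat_lit 1)) (.node (.node (.slot (nat_lit 0)) (.slot (nat_lit 3)) (.slot (nat_lit 2))) (.slot (nat_lit 20)) (.slot (nat_lit 9))) (.node (.node (.col (nat_lit 2)) (.node (.node (.col (nat_lit 2)) (.slot (nat_lit 11)) (.slot (nat_lit 9))) (.col (nat_lit 2)) (.slot (nat_lit 10))) (.slot (nat_lit 21))) (.slot (nat_lit 20)) (.slot (nat_lit 12)))
def l6425 : Root := .mk (.col (nat_lit 0)) (.col (nat_lit 1)) (.node (.node (.slot (nat_lit 0)) (.slot (nat_lit 3)) (.slot (nat_lit 2))) (.slot (nat_lit 20)) (.slot (nat_lit 9))) (.node (.node (.col (nat_lit 2)) (.node (.node (.col (nat_lit 2)) (.slot (nat_lit 21)) (.slot (nat_lit 10))) (.slot (nat_lit 20)) (.slot (nat_lit 12))) (.slot (nat_lit 21))) (.slot (nat_lit 20)) (.slot (nat_lit 12)))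
def w28803 : Root := .mk (.col (nat_lit 0)) (.col (nat_lit 1)) (.node (.node (.slot (nat_lit 0)) (.slot (nat_lit 3)) (.slot (nat_lit 2))) (.slot (nat_lit 20)) (.slot (nat_lit 9))) (.node (.node (.col (nat_lit 2)) (.slot (nat_lit 23)) (.slot (nat_lit 21))) (.slot (nat_lit 20)) (.slot (nat_lit 12)))
def w28804 : Root := .mk (.node (.node (.col (nat_lit 0)) (.col (nat_lit 1)) (.node (.node (.slot (nat_lit 0)) (.slot (nat_lit 0)) (.slot (nat_lit 0))) (.slot (nat_lit 7)) (.slot (nat_lit 5)))) (.slot (nat_lit 8)) (.slot (nat_lit 5))) (.node (.node (.col (nat_lit 0)) (.slot (nat_lit 0)) (.slot (nat_lit 0))) (.col (nat_lit 3)) (.slot (nat_lit 8))) (.col (nat_lit 2)) (.col (nat_lit 3))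
def l6426 : Root := .mk (.col (nat_lit 0)) (.col (nat_lit 1)) (.node (.node (.slot (nat_lit 0)) (.slot (nat_lit 0)) (.slot (nat_lit 0))) (.slot (nat_lit 7)) (.slot (nat_lit 5))) (.node (.node (.node (.node (.col (nat_lit 0)) (.slot (nat_lit 5)) (.slot (nat_lit 9))) (.col (nat_lit 3)) (.slot (nat_lit 8))) (.col (nat_lit 2)) (.slot (nat_lit 8))) (.slot (nat_lit 8)) (.slot (nat_lit 5)))
def w28805 : Root := .mk (.col (nat_lit 0)) (.col (nat_lit 1)) (.node (.node (.slot (nat_lit 0)) (.slot (nat_lit 0)) (.slot (nat_lit 0))) (.slot (nat_lit 7)) (.slot (nat_lit 5))) (.node (.node (.node (.node (.col (nat_lit 0)) (.slot (nat_lit 9)) (.slot (nat_lit 5))) (.slot (nat_lit 1)) (.slot (nat_lit 8))) (.col (nat_lit 2)) (.slot (nat_lit 8))) (.slot (nat_lit 8)) (.slot (nat_lit 5)))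
def w28806 : Root := .mk (.col (nat_lit 0)) (.col (nat_lit 1)) (.node (.node (.slot (nat_lit 0)) (.slot (nat_lit 0)) (.slot (nat_lit 0))) (.slot (nat_lit 1)) (.slot (nat_lit 1))) (.node (.node (.slot (nat_lit 0)) (.node (.col (nat_lit 0)) (.node (.col (nat_lit 2)) (.slot (nat_lit 3)) (.slot (nat_lit 1))) (.slot (nat_lit 1))) (.col (nat_lit 1))) (.slot (nat_lit 1)) (.slot (nat_lit 1)))
def w28808 : Root := .mk (.col (nat_lit 0)) (.col (nat_lit 1)) (.node (.col (nat_lit 2)) (.node (.slot (nat_lit 0)) (.slot (nat_lit 0)) (.slot (nat_lit 0))) (.slot (nat_lit 0))) (.node (.node (.slot (nat_lit 0)) (.node (.col (nat_lit 0)) (.node (.col (nat_lit 2)) (.slot (nat_lit 7)) (.slot (nat_lit 5))) (.slot (nat_lit 8))) (.slot (nat_lit 1))) (.col (nat_lit 0)) (.slot (nat_lit 2)))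
def l6427 : Root := .mk (.col (nat_lit 0)) (.col (nat_lit 1)) (.node (.col (nat_lit 2)) (.slot (nat_lit 20)) (.slot (nat_lit 9))) (.node (.node (.node (.slot (nat_lit 0)) (.col (nat_lit 1)) (.slot (nat_lit 0))) (.node (.col (nat_lit 0)) (.node (.col (nat_lit 2)) (.slot (nat_lit 7)) (.slot (nat_lit 5))) (.slot (nat_lit 8))) (.slot (nat_lit 3))) (.col (nat_lit 0)) (.slot (nat_lit 5)))
def w28809 : Root := .mk (.col (nat_lit 0)) (.col (nat_lit 1)) (.node (.node (.slot (nat_lit 0)) (.slot (nat_lit 0)) (.slot (nat_lit 0))) (.slot (nat_lit 20)) (.slot (nat_lit 9))) (.node (.node (.node (.slot (nat_lit 0)) (.col (nat_lit 1)) (.slot (nat_lit 0))) (.node (.col (nat_lit 0)) (.node (.col (nat_lit 2)) (.slot (nat_lit 7)) (.slot (nat_lit 5))) (.slot (nat_lit 8))) (.slot (nat_lit 3))) (.col (nat_lit 0)) (.slot (nat_lit 5)))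
def l6428 : Root := .mk (.col (nat_lit 0)) (.col (nat_lit 1)) (.node (.node (.slot (nat_lit 0)) (.slot (nat_lit 0)) (.slot (nat_lit 0))) (.slot (nat_lit 20)) (.slot (nat_lit 9))) (.node (.node (.node (.node (.col (nat_lit 0)) (.slot (nat_lit 20)) (.slot (nat_lit 9))) (.col (nat_lit 1)) (.node (.slot (nat_lit 0)) (.slot (nat_lit 0)) (.slot (nat_lit 0)))) (.node (.col (nat_lit 0)) (.node (.col (nat_lit 2)) (.slot (nat_lit 20)) (.slot (nat_lit 12))) (.slot (nat_lit 21))) (.slot (nat_lit 8))) (.slot (nat_lit 21)) (.slot (nat_lit 21)))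
def w28810 : Root := .mk (.col (nat_lit 0)) (.col (nat_lit 1)) (.node (.node (.slot (nat_lit 0)) (.slot (nat_lit 0)) (.slot (nat_lit 0))) (.slot (nat_lit 20)) (.slot (nat_lit 9))) (.node (.node (.node (.node (.col (nat_lit 0)) (.slot (nat_lit 20)) (.slot (nat_lit 9))) (.col (nat_lit 1)) (.node (.slot (nat_lit 0)) (.slot (nat_lit 0)) (.slot (nat_lit 0)))) (.node (.col (nat_lit 0)) (.slot (nat_lit 21)) (.slot (nat_lit 21))) (.slot (nat_lit 8))) (.slot (nat_lit 21)) (.slot (nat_lit 21)))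
def w28811 : Root := .mk (.col (nat_lit 0)) (.col (nat_lit 1)) (.node (.node (.slot (nat_lit 0)) (.slot (nat_lit 0)) (.slot (nat_lit 0))) (.slot (nat_lit 1)) (.slot (nat_lit 1))) (.node (.node (.node (.node (.col (nat_lit 0)) (.slot (nat_lit 1)) (.slot (nat_lit 1))) (.col (nat_lit 1)) (.slot (nat_lit 2))) (.node (.col (nat_lit 0)) (.slot (nat_lit 20)) (.slot (nat_lit 9))) (.node (.slot (nat_lit 0)) (.slot (nat_lit 0)) (.slot (nat_lit 0)))) (.slot (nat_lit 1)) (.slot (nat_lit 1)))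
def w28812 : Root := .mk (.col (nat_lit 0)) (.col (nat_lit 1)) (.node (.node (.slot (nat_lit 0)) (.slot (nat_lit 0)) (.slot (nat_lit 0))) (.slot (nat_lit 1)) (.slot (nat_lit 1))) (.node (.node (.node (.node (.col (nat_lit 0)) .junk (.col (nat_lit 3))) (.col (nat_lit 1)) (.slot (nat_lit 1))) (.node (.col (nat_lit 0)) (.slot (nat_lit 20)) (.slot (nat_lit 9))) (.slot (nat_lit 1))) (.slot (nat_lit 1)) (.slot (nat_lit 1)))
def w28813 : Root := .mk (.node (.node (.node (.node (.col (nat_lit 0)) (.col (nat_lit 1)) (.node (.node (.slot (nat_lit 0)) (.slot (nat_lit 0)) (.slot (nat_lit 0))) (.slot (nat_lit 1)) (.slot (nat_lit 1)))) (.slot (nat_lit 1)) (.slot (nat_lit 1))) (.node (.col (nat_lit 0)) (.slot (nat_lit 1)) (.slot (nat_lit 1))) (.slot (nat_lit 2))) (.col (nat_lit 1)) (.slot (nat_lit 1))) (.col (nat_lit 0)) (.col (nat_lit 1)) (.node (.col (nat_lit 2)) (.node (.slot (nat_lit 0)) (.slot (nat_lit 0)) (.slot (nat_lit 0))) .junk)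
def l6429 : Root := .mk (.node (.node (.node (.node (.col (nat_lit 0)) (.col (nat_lit 1)) (.node (.node (.slot (nat_lit 0)) (.slot (nat_lit 0)) (.slot (nat_lit 0))) (.slot (nat_lit 1)) (.slot (nat_lit 1)))) (.slot (nat_lit 8)) (.slot (nat_lit 8))) (.node (.col (nat_lit 0)) (.slot (nat_lit 20)) (.slot (nat_lit 9))) (.slot (nat_lit 4))) (.col (nat_lit 1)) (.slot (nat_lit 5))) (.col (nat_lit 0)) (.col (nat_lit 1)) (.node (.col (nat_lit 2)) (.slot (nat_lit 20)) (.slot (nat_lit 12)))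
def w28814 : Root := .mk (.col (nat_lit 0)) (.col (nat_lit 1)) (.node (.node (.slot (nat_lit 0)) (.slot (nat_lit 0)) (.slot (nat_lit 0))) (.slot (nat_lit 1)) (.slot (nat_lit 1))) (.node (.node (.node (.node (.col (nat_lit 0)) (.col (nat_lit 1)) (.slot (nat_lit 21))) (.col (nat_lit 1)) (.slot (nat_lit 5))) (.node (.col (nat_lit 0)) (.slot (nat_lit 20)) (.slot (nat_lit 9))) (.slot (nat_lit 4))) (.slot (nat_lit 8)) (.slot (nat_lit 8)))
def w28815 : Root := .mk (.col (nat_lit 0)) (.col (nat_lit 1)) (.node (.node (.slot (nat_lit 0)) (.slot (nat_lit 0)) (.slot (nat_lit 0))) (.slot (nat_lit 1)) (.slot (nat_lit 1))) (.node (.node (.node (.node (.col (nat_lit 0)) (.node (.col (nat_lit 0)) (.slot (nat_lit 0)) (.slot (nat_lit 0))) (.slot (nat_lit 2))) (.col (nat_lit 1)) (.slot (nat_lit 2))) (.node (.col (nat_lit 0)) (.slot (nat_lit 20)) (.slot (nat_lit 9))) (.slot (nat_lit 1))) (.slot (nat_lit 1)) (.slot (nat_lit 1)))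
def w28816 : Root := .mk (.col (nat_lit 0)) (.col (nat_lit 1)) (.node (.slot (nat_lit 0)) (.slot (nat_lit 0)) (.slot (nat_lit 0))) (.node (.node (.node (.node (.col (nat_lit 0)) (.slot (nat_lit 1)) (.slot (nat_lit 1))) (.col (nat_lit 1)) (.slot (nat_lit 2))) (.node (.col (nat_lit 0)) (.slot (nat_lit 1)) (.slot (nat_lit 1))) (.slot (nat_lit 2))) (.node (.col (nat_lit 2)) (.slot (nat_lit 1)) (.slot (nat_lit 1))) (.slot (nat_lit 2)))
def w28817 : Root := .mk (.col (nat_lit 0)) (.col (nat_lit 1)) (.node (.slot (nat_lit 0)) (.slot (nat_lit 0)) (.slot (nat_lit 0))) (.node (.node (.node (.node (.col (nat_lit 0)) (.slot (nat_lit 13)) (.slot (nat_lit 13))) (.col (nat_lit 1)) (.slot (nat_lit 8))) (.node (.col (nat_lit 0)) (.node (.col (nat_lit 0)) (.slot (nat_lit 3)) (.slot (nat_lit 1))) (.slot (nat_lit 3))) (.slot (nat_lit 8))) (.slot (nat_lit 3)) (.slot (nat_lit 1)))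
def w28818 : Root := .mk (.col (nat_lit 0)) (.col (nat_lit 1)) (.node (.node (.slot (nat_lit 0)) (.slot (nat_lit 0)) (.slot (nat_lit 0))) (.slot (nat_lit 1)) (.slot (nat_lit 1))) (.node (.node (.node (.node (.col (nat_lit 0)) (.slot (nat_lit 20)) (.slot (nat_lit 9))) (.col (nat_lit 1)) (.slot (nat_lit 1))) (.node (.col (nat_lit 0)) (.node (.slot (nat_lit 0)) (.slot (nat_lit 0)) (.slot (nat_lit 0))) (.slot (nat_lit 1))) (.slot (nat_lit 2))) (.slot (nat_lit 1)) (.slot (nat_lit 1)))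
def l6430 : Root := .mk (.col (nat_lit 0)) (.col (nat_lit 1)) (.node (.node (.slot (nat_lit 0)) (.slot (nat_lit 0)) (.slot (nat_lit 0))) (.slot (nat_lit 20)) (.slot (nat_lit 9))) (.node (.node (.node (.node (.col (nat_lit 0)) (.slot (nat_lit 21)) (.slot (nat_lit 21))) (.col (nat_lit 1)) (.slot (nat_lit 21))) (.node (.col (nat_lit 0)) (.slot (nat_lit 21)) (.slot (nat_lit 21))) (.slot (nat_lit 10))) (.slot (nat_lit 21)) (.slot (nat_lit 21)))
def w28819 : Root := .mk (.col (nat_lit 0)) (.col (nat_lit 1)) (.node (.node (.slot (nat_lit 0)) (.slot (nat_lit 0)) (.slot (nat_lit 0))) (.slot (nat_lit 20)) (.slot (nat_lit 9))) (.node (.node (.node (.node (.col (nat_lit 0)) (.slot (nat_lit 21)) (.slot (nat_lit 21))) (.slot (nat_lit 1)) (.slot (nat_lit 21))) (.node (.col (nat_lit 0)) (.slot (nat_lit 21)) (.slot (nat_lit 21))) (.slot (nat_lit 10))) (.slot (nat_lit 21)) (.slot (nat_lit 21)))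
def w28820 : Root := .mk (.col (nat_lit 0)) (.col (nat_lit 1)) (.node (.node (.slot (nat_lit 0)) (.slot (nat_lit 0)) (.slot (nat_lit 0))) (.slot (nat_lit 1)) (.slot (nat_lit 1))) (.node (.node (.node (.node (.col (nat_lit 0)) (.slot (nat_lit 3)) (.slot (nat_lit 1))) (.col (nat_lit 1)) (.node (.slot (nat_lit 0)) (.slot (nat_lit 0)) (.slot (nat_lit 0)))) (.node (.col (nat_lit 2)) (.slot (nat_lit 1)) (.slot (nat_lit 1))) (.slot (nat_lit 3))) (.slot (nat_lit 1)) (.slot (nat_lit 1)))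
def w28821 : Root := .mk (.col (nat_lit 0)) (.col (nat_lit 1)) (.node (.node (.slot (nat_lit 0)) (.slot (nat_lit 0)) (.slot (nat_lit 0))) (.slot (nat_lit 1)) (.slot (nat_lit 1))) (.node (.node (.node (.node (.col (nat_lit 0)) (.slot (nat_lit 1)) (.slot (nat_lit 1))) (.col (nat_lit 1)) (.slot (nat_lit 2))) (.node (.col (nat_lit 2)) (.slot (nat_lit 0)) (.slot (nat_lit 0))) (.col (nat_lit 2))) (.slot (nat_lit 1)) (.slot (nat_lit 1)))
def l6431 : Root := .mk (.col (nat_lit 0)) (.col (nat_lit 1)) (.node (.col (nat_lit 3)) (.slot (nat_lit 20)) (.slot (nat_lit 9))) (.node (.node (.node (.node (.col (nat_lit 0)) (.slot (nat_lit 3)) (.slot (nat_lit 3))) (.col (nat_lit 1)) (.slot (nat_lit 2))) (.node (.col (nat_lit 2)) (.slot (nat_lit 1)) (.slot (nat_lit 0))) (.node (.col (nat_lit 3)) (.slot (nat_lit 1)) (.slot (nat_lit 1)))) (.slot (nat_lit 20)) (.slot (nat_lit 9)))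
def w28822 : Root := .mk (.col (nat_lit 0)) (.col (nat_lit 1)) (.node (.node (.slot (nat_lit 0)) (.slot (nat_lit 0)) (.slot (nat_lit 0))) (.slot (nat_lit 20)) (.slot (nat_lit 9))) (.node (.node (.node (.node (.col (nat_lit 0)) (.slot (nat_lit 3)) (.slot (nat_lit 3))) (.col (nat_lit 1)) (.slot (nat_lit 2))) (.node (.col (nat_lit 2)) (.slot (nat_lit 1)) (.slot (nat_lit 0))) (.node (.col (nat_lit 3)) (.slot (nat_lit 1)) (.slot (nat_lit 1)))) (.slot (nat_lit 20)) (.slot (nat_lit 9)))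
def w28823 : Root := .mk (.col (nat_lit 0)) (.col (nat_lit 1)) (.node (.node (.slot (nat_lit 0)) (.slot (nat_lit 0)) (.slot (nat_lit 0))) (.slot (nat_lit 1)) (.slot (nat_lit 1))) (.node (.node (.node (.node (.col (nat_lit 0)) (.col (nat_lit 1)) (.slot (nat_lit 0))) (.col (nat_lit 1)) (.slot (nat_lit 3))) (.node (.col (nat_lit 2)) (.slot (nat_lit 7)) (.slot (nat_lit 5))) (.slot (nat_lit 8))) (.slot (nat_lit 8)) (.slot (nat_lit 8)))
def w28824 : Root := .mk (.col (nat_lit 0)) (.col (nat_lit 1)) (.node (.node (.slot (nat_lit 0)) (.slot (nat_lit 0)) (.slot (nat_lit 0))) (.slot (nat_lit 1)) (.slot (nat_lit 1))) (.node (.node (.node (.node (.col (nat_lit 0)) (.slot (nat_lit 0)) (.slot (nat_lit 0))) (.col (nat_lit 1)) (.slot (nat_lit 3))) (.node (.col (nat_lit 2)) (.slot (nat_lit 7)) (.slot (nat_lit 5))) (.slot (nat_lit 8))) (.slot (nat_lit 8)) (.slot (nat_lit 8)))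
def l6432 : Root := .mk (.col (nat_lit 0)) (.col (nat_lit 1)) (.node (.node (.slot (nat_lit 0)) (.slot (nat_lit 0)) (.slot (nat_lit 0))) (.slot (nat_lit 20)) (.slot (nat_lit 9))) (.node (.node (.node (.node (.col (nat_lit 0)) (.slot (nat_lit 20)) (.slot (nat_lit 12))) (.col (nat_lit 1)) (.slot (nat_lit 21))) (.node (.col (nat_lit 2)) (.slot (nat_lit 21)) (.slot (nat_lit 21))) (.slot (nat_lit 9))) (.slot (nat_lit 20)) (.slot (nat_lit 9)))
def w28825 : Root := .mk (.col (nat_lit 0)) (.col (nat_lit 1)) (.node (.node (.slot (nat_lit 0)) (.slot (nat_lit 0)) (.slot (nat_lit 0))) (.slot (nat_lit 20)) (.slot (nat_lit 9))) (.node (.node (.node (.node (.col (nat_lit 0)) (.slot (nat_lit 20)) (.slot (nat_lit 12))) (.slot (nat_lit 1)) (.slot (nat_lit 21))) (.node (.col (nat_lit 2)) (.slot (nat_lit 21)) (.slot (nat_lit 21))) (.slot (nat_lit 9))) (.slot (nat_lit 20)) (.slot (nat_lit 9)))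
def l6433 : Root := .mk (.node (.node (.col (nat_lit 0)) (.col (nat_lit 1)) (.node (.node (.slot (nat_lit 0)) (.slot (nat_lit 0)) (.slot (nat_lit 0))) (.slot (nat_lit 5)) (.slot (nat_lit 5)))) (.slot (nat_lit 1)) (.slot (nat_lit 1))) (.node (.node (.col (nat_lit 0)) (.slot (nat_lit 21)) (.slot (nat_lit 1))) (.slot (nat_lit 20)) (.slot (nat_lit 12))) (.col (nat_lit 0)) (.col (nat_lit 1))
def w28826 : Root := .mk (.col (nat_lit 0)) (.col (nat_lit 1)) (.node (.node (.slot (nat_lit 0)) (.slot (nat_lit 0)) (.slot (nat_lit 0))) (.slot (nat_lit 5)) (.slot (nat_lit 5))) (.node (.node (.node (.node (.col (nat_lit 0)) (.slot (nat_lit 21)) (.slot (nat_lit 1))) (.slot (nat_lit 20)) (.slot (nat_lit 12))) (.col (nat_lit 0)) (.node (.slot (nat_lit 0)) (.slot (nat_lit 0)) (.slot (nat_lit 0)))) (.slot (nat_lit 1)) (.slot (nat_lit 1)))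
def l6434 : Root := .mk (.col (nat_lit 0)) (.col (nat_lit 1)) (.node (.node (.slot (nat_lit 0)) (.slot (nat_lit 0)) (.slot (nat_lit 0))) (.slot (nat_lit 5)) (.slot (nat_lit 5))) (.node (.node (.node (.node (.col (nat_lit 0)) (.slot (nat_lit 21)) (.slot (nat_lit 5))) (.slot (nat_lit 20)) (.slot (nat_lit 12))) (.col (nat_lit 0)) (.slot (nat_lit 21))) (.slot (nat_lit 8)) (.slot (nat_lit 8)))
def w28827 : Root := .mk (.col (nat_lit 0)) (.col (nat_lit 1)) (.node (.node (.slot (nat_lit 0)) (.slot (nat_lit 0)) (.slot (nat_lit 0))) (.slot (nat_lit 5)) (.slot (nat_lit 5))) (.node (.node (.node (.node (.col (nat_lit 0)) (.slot (nat_lit 21)) (.slot (nat_lit 5))) (.slot (nat_lit 20)) (.slot (nat_lit 12))) (.node (.slot (nat_lit 0)) (.slot (nat_lit 0)) (.slot (nat_lit 0))) (.slot (nat_lit 21))) (.slot (nat_lit 8)) (.slot (nat_lit 8)))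
def w28828 : Root := .mk (.col (nat_lit 0)) (.col (nat_lit 1)) (.node (.node (.slot (nat_lit 0)) (.slot (nat_lit 0)) (.slot (nat_lit 0))) (.slot (nat_lit 2)) (.slot (nat_lit 2))) (.node (.node (.node (.col (nat_lit 1)) (.node (.node (.col (nat_lit 1)) (.slot (nat_lit 3)) (.slot (nat_lit 1))) (.slot (nat_lit 8)) (.slot (nat_lit 1))) (.node (.node (.slot (nat_lit 0)) (.slot (nat_lit 0)) (.slot (nat_lit 0))) (.slot (nat_lit 2)) (.slot (nat_lit 2)))) (.slot (nat_lit 3)) (.slot (nat_lit 1))) (.slot (nat_lit 8)) (.slot (nat_lit 1)))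
def w28829 : Root := .mk (.col (nat_lit 0)) (.col (nat_lit 1)) (.slot (nat_lit 0)) (.node (.node (.node (.col (nat_lit 1)) (.node (.node (.col (nat_lit 1)) (.slot (nat_lit 22)) (.slot (nat_lit 21))) (.slot (nat_lit 23)) (.slot (nat_lit 23))) (.slot (nat_lit 22))) (.slot (nat_lit 23)) (.slot (nat_lit 22))) (.node (.col (nat_lit 2)) (.slot (nat_lit 22)) (.slot (nat_lit 21))) (.slot (nat_lit 23)))
def w28830 : Root := .mk (.col (nat_lit 0)) (.col (nat_lit 1)) (.node (.node (.slot (nat_lit 0)) (.slot (nat_lit 0)) (.slot (nat_lit 0))) (.slot (nat_lit 2)) (.slot (nat_lit 2))) (.node (.node (.node (.col (nat_lit 1)) (.node (.node (.col (nat_lit 1)) (.node (.col (nat_lit 1)) (.slot (nat_lit 0)) (.slot (nat_lit 0))) (.slot (nat_lit 3))) (.slot (nat_lit 1)) (.slot (nat_lit 1))) (.slot (nat_lit 3))) (.slot (nat_lit 3)) (.slot (nat_lit 1))) (.slot (nat_lit 8)) (.slot (nat_lit 1)))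
def l6435 : Root := .mk (.col (nat_lit 0)) (.col (nat_lit 1)) (.node (.node (.slot (nat_lit 0)) (.slot (nat_lit 0)) (.slot (nat_lit 0))) (.slot (nat_lit 5)) (.slot (nat_lit 2))) (.node (.node (.node (.col (nat_lit 1)) (.node (.node (.col (nat_lit 1)) (.slot (nat_lit 22)) (.slot (nat_lit 21))) (.slot (nat_lit 23)) (.slot (nat_lit 23))) (.slot (nat_lit 22))) (.slot (nat_lit 23)) (.slot (nat_lit 22))) (.slot (nat_lit 23)) (.slot (nat_lit 23)))
def w28831 : Root := .mk (.col (nat_lit 0)) (.col (nat_lit 1)) (.node (.node (.slot (nat_lit 0)) (.slot (nat_lit 0)) (.slot (nat_lit 0))) (.slot (nat_lit 5)) (.slot (nat_lit 2))) (.node (.node (.node (.col (nat_lit 1)) (.slot (nat_lit 24)) (.slot (nat_lit 22))) (.slot (nat_lit 23)) (.slot (nat_lit 22))) (.slot (nat_lit 23)) (.slot (nat_lit 23)))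
def l6436 : Root := .mk (.col (nat_lit 0)) (.col (nat_lit 1)) (.node (.node (.slot (nat_lit 0)) (.slot (nat_lit 0)) (.slot (nat_lit 0))) (.slot (nat_lit 7)) (.slot (nat_lit 5))) (.node (.node (.node (.col (nat_lit 2)) (.slot (nat_lit 12)) (.slot (nat_lit 10))) (.slot (nat_lit 7)) (.slot (nat_lit 5))) (.col (nat_lit 2)) (.slot (nat_lit 8)))
def w28832 : Root := .mk (.col (nat_lit 0)) (.col (nat_lit 1)) (.node (.node (.slot (nat_lit 0)) (.slot (nat_lit 0)) (.slot (nat_lit 0))) (.slot (nat_lit 7)) (.slot (nat_lit 5))) (.node (.node (.node (.col (nat_lit 2)) (.slot (nat_lit 12)) (.slot (nat_lit 10))) (.slot (nat_lit 7)) (.slot (nat_lit 5))) (.slot (nat_lit 1)) (.slot (nat_lit 8)))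
def w28833 : Root := .mk (.node (.node (.col (nat_lit 0)) (.col (nat_lit 1)) (.node (.node (.slot (nat_lit 0)) (.slot (nat_lit 0)) (.slot (nat_lit 0))) (.slot (nat_lit 7)) (.slot (nat_lit 5)))) (.slot (nat_lit 8)) (.slot (nat_lit 5))) (.col (nat_lit 2)) (.node (.col (nat_lit 2)) (.node (.slot (nat_lit 0)) (.slot (nat_lit 0)) (.slot (nat_lit 0))) (.slot (nat_lit 8))) (.col (nat_lit 3))
def l6437 : Root := .mk (.col (nat_lit 0)) (.col (nat_lit 1)) (.node (.node (.slot (nat_lit 0)) (.slot (nat_lit 0)) (.slot (nat_lit 0))) (.slot (nat_lit 7)) (.slot (nat_lit 5))) (.node (.node (.col (nat_lit 2)) (.node (.col (nat_lit 2)) (.node (.node (.col (nat_lit 2)) (.slot (nat_lit 3)) (.slot (nat_lit 1))) (.slot (nat_lit 7)) (.slot (nat_lit 5))) (.slot (nat_lit 8))) (.node (.col (nat_lit 2)) (.node (.col (nat_lit 3)) (.slot (nat_lit 8)) (.slot (nat_lit 8))) (.slot (nat_lit 8)))) (.slot (nat_lit 8)) (.slot (nat_lit 5)))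
def w28834 : Root := .mk (.col (nat_lit 0)) (.col (nat_lit 1)) (.node (.node (.slot (nat_lit 0)) (.slot (nat_lit 0)) (.slot (nat_lit 0))) (.slot (nat_lit 7)) (.slot (nat_lit 5))) (.node (.node (.col (nat_lit 2)) (.node (.col (nat_lit 2)) (.node (.node (.col (nat_lit 2)) (.slot (nat_lit 3)) (.slot (nat_lit 1))) (.slot (nat_lit 7)) (.slot (nat_lit 5))) (.slot (nat_lit 8))) (.node (.col (nat_lit 2)) (.slot (nat_lit 9)) (.slot (nat_lit 8)))) (.slot (nat_lit 8)) (.slot (nat_lit 5)))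
def w28840 : Root := .mk (.col (nat_lit 0)) (.col (nat_lit 1)) (.node (.node (.slot (nat_lit 0)) (.slot (nat_lit 0)) (.slot (nat_lit 0))) (.slot (nat_lit 2)) (.slot (nat_lit 2))) (.node (.node (.col (nat_lit 2)) (.node (.col (nat_lit 2)) (.node (.node (.col (nat_lit 2)) (.slot (nat_lit 0)) (.slot (nat_lit 0))) (.slot (nat_lit 8)) (.slot (nat_lit 8))) (.slot (nat_lit 8))) (.node (.node (.col (nat_lit 2)) (.slot (nat_lit 21)) (.slot (nat_lit 8))) (.slot (nat_lit 20)) (.slot (nat_lit 12)))) (.slot (nat_lit 9)) (.slot (nat_lit 9)))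
def w28841 : Root := .mk (.col (nat_lit 0)) (.col (nat_lit 1)) (.node (.node (.slot (nat_lit 0)) (.slot (nat_lit 0)) (.slot (nat_lit 0))) (.slot (nat_lit 7)) (.slot (nat_lit 5))) (.node (.node (.col (nat_lit 2)) (.node (.col (nat_lit 2)) (.node (.node (.col (nat_lit 2)) (.slot (nat_lit 3)) (.slot (nat_lit 1))) (.slot (nat_lit 7)) (.slot (nat_lit 5))) (.slot (nat_lit 8))) (.node (.node (.col (nat_lit 3)) (.slot (nat_lit 8)) (.slot (nat_lit 8))) (.slot (nat_lit 1)) (.slot (nat_lit 8)))) (.slot (nat_lit 8)) (.slot (nat_lit 5)))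
def w28842 : Root := .mk (.col (nat_lit 0)) (.col (nat_lit 1)) (.node (.node (.slot (nat_lit 0)) (.slot (nat_lit 0)) (.slot (nat_lit 0))) (.slot (nat_lit 1)) (.slot (nat_lit 0))) (.node (.node (.col (nat_lit 2)) (.node (.col (nat_lit 2)) (.node (.col (nat_lit 0)) (.slot (nat_lit 7)) (.slot (nat_lit 5))) (.slot (nat_lit 8))) (.slot (nat_lit 1))) (.node (.col (nat_lit 0)) (.slot (nat_lit 7)) (.slot (nat_lit 5))) (.node (.col (nat_lit 1)) (.slot (nat_lit 0)) (.slot (nat_lit 0))))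
def w28843 : Root := .mk (.col (nat_lit 0)) (.col (nat_lit 1)) (.node (.node (.slot (nat_lit 0)) (.slot (nat_lit 0)) (.slot (nat_lit 0))) (.slot (nat_lit 1)) (.slot (nat_lit 0))) (.node (.node (.col (nat_lit 2)) (.node (.col (nat_lit 2)) (.node (.col (nat_lit 0)) (.slot (nat_lit 7)) (.slot (nat_lit 5))) (.slot (nat_lit 8))) (.slot (nat_lit 1))) (.node (.col (nat_lit 0)) (.slot (nat_lit 7)) (.slot (nat_lit 5))) (.node (.col (nat_lit 2)) (.slot (nat_lit 0)) (.slot (nat_lit 0))))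
def w28844 : Root := .mk (.col (nat_lit 0)) (.col (nat_lit 1)) (.node (.node (.slot (nat_lit 0)) (.slot (nat_lit 0)) (.slot (nat_lit 0))) (.slot (nat_lit 1)) (.slot (nat_lit 0))) (.node (.node (.col (nat_lit 2)) (.node (.col (nat_lit 2)) (.node (.col (nat_lit 0)) (.slot (nat_lit 7)) (.slot (nat_lit 5))) (.slot (nat_lit 8))) (.slot (nat_lit 1))) (.node (.col (nat_lit 0)) (.slot (nat_lit 7)) (.slot (nat_lit 5))) (.node (.col (nat_lit 3)) (.slot (nat_lit 0)) (.slot (nat_lit 0))))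
def l6438 : Root := .mk (.col (nat_lit 0)) (.col (nat_lit 1)) (.node (.node (.slot (nat_lit 0)) (.slot (nat_lit 0)) (.slot (nat_lit 0))) (.slot (nat_lit 3)) (.slot (nat_lit 3))) (.node (.node (.col (nat_lit 2)) (.node (.col (nat_lit 2)) (.node (.col (nat_lit 0)) (.slot (nat_lit 20)) (.slot (nat_lit 9))) (.slot (nat_lit 21))) (.slot (nat_lit 8))) (.node (.col (nat_lit 0)) (.slot (nat_lit 21)) (.slot (nat_lit 21))) (.slot (nat_lit 10)))
def w28845 : Root := .mk (.col (nat_lit 0)) (.col (nat_lit 1)) (.node (.node (.slot (nat_lit 0)) (.slot (nat_lit 0)) (.slot (nat_lit 0))) (.slot (nat_lit 3)) (.slot (nat_lit 3))) (.node (.node (.col (nat_lit 2)) (.node (.col (nat_lit 2)) (.node (.col (nat_lit 0)) (.slot (nat_lit 20)) (.slot (nat_lit 9))) (.slot (nat_lit 21))) (.slot (nat_lit 8))) (.slot (nat_lit 22)) (.slot (nat_lit 10)))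
def w28846 : Root := .mk (.col (nat_lit 0)) (.col (nat_lit 1)) (.node (.node (.slot (nat_lit 0)) (.slot (nat_lit 0)) (.slot (nat_lit 0))) (.slot (nat_lit 5)) (.slot (nat_lit 5))) (.node (.node (.col (nat_lit 2)) (.col (nat_lit 4)) (.slot (nat_lit 3))) (.col (nat_lit 3)) (.slot (nat_lit 1)))
def w28847 : Root := .mk (.node (.node (.col (nat_lit 0)) (.col (nat_lit 1)) (.node (.node (.slot (nat_lit 0)) (.slot (nat_lit 0)) (.slot (nat_lit 0))) (.slot (nat_lit 2)) (.slot (nat_lit 2)))) (.col (nat_lit 3)) (.slot (nat_lit 1))) (.col (nat_lit 2)) (.node (.col (nat_lit 2)) (.slot (nat_lit 0)) (.slot (nat_lit 0))) (.col (nat_lit 4))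
def l6439 : Root := .mk (.col (nat_lit 0)) (.col (nat_lit 1)) (.node (.node (.slot (nat_lit 0)) (.slot (nat_lit 0)) (.slot (nat_lit 0))) (.slot (nat_lit 5)) (.slot (nat_lit 5))) (.node (.node (.col (nat_lit 2)) (.node (.col (nat_lit 2)) (.node (.col (nat_lit 0)) (.col (nat_lit 2)) (.slot (nat_lit 8))) (.slot (nat_lit 8))) (.slot (nat_lit 8))) (.col (nat_lit 3)) (.slot (nat_lit 8)))
def w28848 : Root := .mk (.col (nat_lit 0)) (.col (nat_lit 1)) (.node (.node (.slot (nat_lit 0)) (.slot (nat_lit 0)) (.slot (nat_lit 0))) (.slot (nat_lit 5)) (.slot (nat_lit 5))) (.node (.node (.col (nat_lit 2)) (.node (.col (nat_lit 2)) (.node (.col (nat_lit 0)) (.col (nat_lit 2)) (.slot (nat_lit 8))) (.slot (nat_lit 8))) (.slot (nat_lit 8))) (.slot (nat_lit 1)) (.slot (nat_lit 8)))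
def w28849 : Root := .mk (.col (nat_lit 0)) (.col (nat_lit 1)) (.node (.node (.slot (nat_lit 0)) (.slot (nat_lit 0)) (.slot (nat_lit 0))) (.slot (nat_lit 1)) (.slot (nat_lit 1))) (.node (.node (.col (nat_lit 2)) (.node (.col (nat_lit 2)) (.node (.node (.col (nat_lit 2)) (.col (nat_lit 1)) (.slot (nat_lit 2))) (.col (nat_lit 2)) (.slot (nat_lit 8))) (.slot (nat_lit 2))) (.slot (nat_lit 8))) (.slot (nat_lit 1)) (.slot (nat_lit 1)))
def w28850 : Root := .mk (.col (nat_lit 0)) (.col (nat_lit 1)) (.node (.node (.slot (nat_lit 0)) (.slot (nat_lit 0)) (.slot (nat_lit 0))) (.slot (nat_lit 1)) (.slot (nat_lit 1))) (.node (.node (.col (nat_lit 2)) (.node (.col (nat_lit 2)) (.node (.node (.col (nat_lit 2)) (.col (nat_lit 3)) (.slot (nat_lit 2))) (.col (nat_lit 2)) (.slot (nat_lit 8))) (.slot (nat_lit 2))) (.slot (nat_lit 8))) (.slot (nat_lit 1)) (.slot (nat_lit 1)))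
def w28851 : Root := .mk (.node (.node (.node (.node (.node (.col (nat_lit 0)) (.col (nat_lit 1)) (.node (.node (.slot (nat_lit 0)) (.slot (nat_lit 0)) (.slot (nat_lit 0))) (.slot (nat_lit 1)) (.slot (nat_lit 1)))) (.slot (nat_lit 1)) (.slot (nat_lit 1))) (.col (nat_lit 2)) (.slot (nat_lit 8))) (.col (nat_lit 2)) (.slot (nat_lit 2))) (.col (nat_lit 2)) (.slot (nat_lit 3))) (.col (nat_lit 2)) (.node (.col (nat_lit 0)) (.slot (nat_lit 3)) (.slot (nat_lit 1))) (.col (nat_lit 0))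
def w28852 : Root := .mk (.node (.node (.col (nat_lit 0)) (.col (nat_lit 1)) (.node (.node (.slot (nat_lit 0)) (.slot (nat_lit 0)) (.slot (nat_lit 0))) (.slot (nat_lit 7)) (.slot (nat_lit 5)))) (.slot (nat_lit 8)) (.slot (nat_lit 5))) (.col (nat_lit 2)) (.node (.col (nat_lit 2)) (.node (.slot (nat_lit 0)) (.col (nat_lit 2)) (.col (nat_lit 1))) (.slot (nat_lit 8))) (.col (nat_lit 4))
def l6440 : Root := .mk (.col (nat_lit 0)) (.col (nat_lit 1)) (.node (.node (.slot (nat_lit 0)) (.slot (nat_lit 0)) (.slot (nat_lit 0))) (.slot (nat_lit 7)) (.slot (nat_lit 5))) (.node (.node (.col (nat_lit 2)) (.node (.col (nat_lit 2)) (.node (.node (.col (nat_lit 2)) (.node (.col (nat_lit 0)) (.slot (nat_lit 3)) (.slot (nat_lit 1))) (.slot (nat_lit 3))) (.col (nat_lit 2)) (.col (nat_lit 1))) (.slot (nat_lit 10))) (.node (.col (nat_lit 3)) (.slot (nat_lit 20)) (.slot (nat_lit 9)))) (.slot (nat_lit 9)) (.slot (nat_lit 8)))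
def w28853 : Root := .mk (.node (.node (.node (.node (.col (nat_lit 0)) (.col (nat_lit 1)) (.node (.node (.slot (nat_lit 0)) (.slot (nat_lit 0)) (.slot (nat_lit 0))) (.slot (nat_lit 7)) (.slot (nat_lit 5)))) (.slot (nat_lit 9)) (.slot (nat_lit 8))) (.col (nat_lit 2)) (.slot (nat_lit 21))) (.col (nat_lit 2)) (.slot (nat_lit 10))) (.node (.col (nat_lit 2)) (.node (.col (nat_lit 0)) (.slot (nat_lit 3)) (.slot (nat_lit 1))) (.slot (nat_lit 3))) (.col (nat_lit 2)) (.col (nat_lit 1))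
def l6441 : Root := .mk (.node (.node (.node (.node (.col (nat_lit 0)) (.col (nat_lit 1)) (.node (.slot (nat_lit 0)) (.slot (nat_lit 0)) (.slot (nat_lit 0)))) (.col (nat_lit 1)) (.slot (nat_lit 1))) (.col (nat_lit 2)) (.slot (nat_lit 8))) (.col (nat_lit 2)) (.slot (nat_lit 5))) (.col (nat_lit 3)) (.col (nat_lit 2)) (.node (.col (nat_lit 1)) (.slot (nat_lit 20)) (.slot (nat_lit 9)))
def w28854 : Root := .mk (.col (nat_lit 0)) (.col (nat_lit 1)) (.node (.slot (nat_lit 0)) (.slot (nat_lit 0)) (.slot (nat_lit 0))) (.node (.node (.col (nat_lit 2)) (.node (.col (nat_lit 2)) (.node (.col (nat_lit 3)) (.col (nat_lit 2)) (.slot (nat_lit 21))) (.slot (nat_lit 5))) (.slot (nat_lit 8))) (.col (nat_lit 1)) (.slot (nat_lit 1)))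
def w28855 : Root := .mk (.col (nat_lit 0)) (.col (nat_lit 1)) (.node (.slot (nat_lit 0)) (.slot (nat_lit 0)) (.slot (nat_lit 0))) (.node (.node (.col (nat_lit 2)) (.node (.col (nat_lit 2)) (.node (.node (.col (nat_lit 2)) (.node (.col (nat_lit 0)) (.slot (nat_lit 1)) (.slot (nat_lit 1))) (.slot (nat_lit 2))) (.col (nat_lit 2)) (.slot (nat_lit 21))) (.slot (nat_lit 5))) (.slot (nat_lit 8))) (.col (nat_lit 1)) (.slot (nat_lit 1)))
def l6442 : Root := .mk (.col (nat_lit 0)) (.col (nat_lit 1)) (.node (.node (.slot (nat_lit 0)) (.slot (nat_lit 0)) (.slot (nat_lit 0))) (.slot (nat_lit 7)) (.slot (nat_lit 5))) (.node (.node (.col (nat_lit 2)) (.node (.col (nat_lit 2)) (.node (.node (.col (nat_lit 2)) (.node (.col (nat_lit 0)) (.slot (nat_lit 8)) (.slot (nat_lit 8))) (.slot (nat_lit 9))) (.col (nat_lit 2)) (.slot (nat_lit 21))) (.slot (nat_lit 10))) (.slot (nat_lit 21))) (.slot (nat_lit 9)) (.slot (nat_lit 8)))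
def w28856 : Root := .mk (.col (nat_lit 0)) (.col (nat_lit 1)) (.node (.node (.slot (nat_lit 0)) (.slot (nat_lit 0)) (.slot (nat_lit 0))) (.slot (nat_lit 7)) (.slot (nat_lit 5))) (.node (.node (.col (nat_lit 2)) (.node (.col (nat_lit 2)) (.node (.node (.col (nat_lit 2)) (.slot (nat_lit 9)) (.slot (nat_lit 9))) (.col (nat_lit 2)) (.slot (nat_lit 21))) (.slot (nat_lit 10))) (.slot (nat_lit 21))) (.slot (nat_lit 9)) (.slot (nat_lit 8)))
def l6443 : Root := .mk (.col (nat_lit 0)) (.col (nat_lit 1)) (.node (.node (.slot (nat_lit 0)) (.slot (nat_lit 0)) (.slot (nat_lit 0))) (.slot (nat_lit 7)) (.slot (nat_lit 5))) (.node (.node (.col (nat_lit 2)) (.node (.col (nat_lit 2)) (.node (.node (.col (nat_lit 2)) (.slot (nat_lit 14)) (.slot (nat_lit 10))) (.slot (nat_lit 21)) (.slot (nat_lit 21))) (.slot (nat_lit 21))) (.slot (nat_lit 23))) (.slot (nat_lit 22)) (.slot (nat_lit 10)))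
def w28857 : Root := .mk (.col (nat_lit 0)) (.col (nat_lit 1)) (.node (.node (.slot (nat_lit 0)) (.slot (nat_lit 0)) (.slot (nat_lit 0))) (.slot (nat_lit 7)) (.slot (nat_lit 5))) (.node (.node (.col (nat_lit 2)) (.node (.col (nat_lit 2)) (.slot (nat_lit 22)) (.slot (nat_lit 21))) (.slot (nat_lit 23))) (.slot (nat_lit 22)) (.slot (nat_lit 10)))
def w28858 : Root := .mk (.col (nat_lit 0)) (.col (nat_lit 1)) (.node (.node (.slot (nat_lit 0)) (.slot (nat_lit 0)) (.slot (nat_lit 0))) (.slot (nat_lit 7)) (.slot (nat_lit 5))) (.node (.node (.node (.node (.col (nat_lit 0)) (.slot (nat_lit 9)) (.slot (nat_lit 8))) (.col (nat_lit 0)) (.slot (nat_lit 8))) (.node (.col (nat_lit 2)) (.slot (nat_lit 8)) (.slot (nat_lit 1))) (.col (nat_lit 2))) (.slot (nat_lit 7)) (.slot (nat_lit 5)))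
def w28859 : Root := .mk (.node (.node (.node (.col (nat_lit 0)) .junk (.col (nat_lit 3))) (.col (nat_lit 1)) (.slot (nat_lit 1))) (.node (.col (nat_lit 2)) (.slot (nat_lit 1)) (.slot (nat_lit 0))) (.node (.col (nat_lit 1)) (.slot (nat_lit 0)) (.slot (nat_lit 0)))) (.col (nat_lit 2)) (.col (nat_lit 0)) (.slot (nat_lit 1))
def w28860 : Root := .mk (.col (nat_lit 0)) (.col (nat_lit 1)) (.node (.col (nat_lit 2)) (.node (.slot (nat_lit 0)) (.slot (nat_lit 0)) (.slot (nat_lit 0))) (.slot (nat_lit 1))) (.node (.node (.node (.col (nat_lit 2)) (.col (nat_lit 0)) (.slot (nat_lit 1))) (.node (.col (nat_lit 2)) (.slot (nat_lit 1)) (.slot (nat_lit 0))) (.node (.col (nat_lit 1)) (.slot (nat_lit 0)) (.slot (nat_lit 0)))) (.col (nat_lit 1)) (.slot (nat_lit 1)))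
def l6444 : Root := .mk (.col (nat_lit 0)) (.col (nat_lit 1)) (.node (.col (nat_lit 2)) (.slot (nat_lit 20)) (.slot (nat_lit 12))) (.node (.node (.node (.col (nat_lit 2)) (.col (nat_lit 0)) (.slot (nat_lit 2))) (.node (.col (nat_lit 2)) (.slot (nat_lit 7)) (.slot (nat_lit 5))) (.node (.col (nat_lit 1)) (.slot (nat_lit 3)) (.slot (nat_lit 1)))) (.col (nat_lit 1)) (.slot (nat_lit 5)))
def w28861 : Root := .mk (.col (nat_lit 0)) (.col (nat_lit 1)) (.node (.node (.slot (nat_lit 0)) (.slot (nat_lit 0)) (.slot (nat_lit 0))) (.slot (nat_lit 20)) (.slot (nat_lit 12))) (.node (.node (.node (.col (nat_lit 2)) (.col (nat_lit 0)) (.slot (nat_lit 2))) (.node (.col (nat_lit 2)) (.slot (nat_lit 7)) (.slot (nat_lit 5))) (.node (.col (nat_lit 1)) (.slot (nat_lit 3)) (.slot (nat_lit 1)))) (.col (nat_lit 1)) (.slot (nat_lit 5)))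
def l6445 : Root := .mk (.col (nat_lit 0)) (.col (nat_lit 1)) (.node (.node (.slot (nat_lit 0)) (.slot (nat_lit 0)) (.slot (nat_lit 0))) (.slot (nat_lit 20)) (.slot (nat_lit 12))) (.node (.node (.node (.col (nat_lit 2)) (.col (nat_lit 0)) (.slot (nat_lit 3))) (.node (.col (nat_lit 2)) (.slot (nat_lit 7)) (.slot (nat_lit 5))) (.node (.col (nat_lit 1)) (.slot (nat_lit 3)) (.slot (nat_lit 3)))) (.slot (nat_lit 5)) (.slot (nat_lit 5)))
def w28862 : Root := .mk (.col (nat_lit 0)) (.col (nat_lit 1)) (.node (.node (.slot (nat_lit 0)) (.slot (nat_lit 0)) (.slot (nat_lit 0))) (.slot (nat_lit 20)) (.slot (nat_lit 12))) (.node (.node (.node (.node (.col (nat_lit 0)) (.slot (nat_lit 0)) (.slot (nat_lit 0))) (.col (nat_lit 0)) (.slot (nat_lit 3))) (.node (.col (nat_lit 2)) (.slot (nat_lit 7)) (.slot (nat_lit 5))) (.node (.col (nat_lit 1)) (.slot (nat_lit 3)) (.slot (nat_lit 3)))) (.slot (nat_lit 5)) (.slot (nat_lit 5)))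
def l6446 : Root := .mk (.node (.node (.node (.col (nat_lit 0)) (.col (nat_lit 1)) (.node (.slot (nat_lit 0)) (.slot (nat_lit 0)) (.slot (nat_lit 0)))) (.slot (nat_lit 1)) (.slot (nat_lit 1))) (.col (nat_lit 1)) (.node (.col (nat_lit 3)) (.slot (nat_lit 1)) (.slot (nat_lit 0)))) (.col (nat_lit 2)) (.col (nat_lit 3)) (.col (nat_lit 4))
def w28863 : Root := .mk (.node (.node (.node (.col (nat_lit 0)) (.col (nat_lit 1)) (.node (.slot (nat_lit 0)) (.slot (nat_lit 0)) (.slot (nat_lit 0)))) (.slot (nat_lit 1)) (.slot (nat_lit 1))) (.node (.slot (nat_lit 0)) (.col (nat_lit 0)) (.slot (nat_lit 0))) (.node (.col (nat_lit 3)) (.slot (nat_lit 1)) (.slot (nat_lit 0)))) (.col (nat_lit 2)) (.col (nat_lit 3)) (.col (nat_lit 4))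
def w28864 : Root := .mk (.col (nat_lit 0)) (.col (nat_lit 1)) (.node (.node (.slot (nat_lit 0)) (.slot (nat_lit 0)) (.slot (nat_lit 0))) (.slot (nat_lit 7)) (.slot (nat_lit 5))) (.node (.node (.node (.slot (nat_lit 0)) (.col (nat_lit 0)) (.slot (nat_lit 0))) (.node (.col (nat_lit 2)) (.col (nat_lit 3)) (.slot (nat_lit 8))) (.col (nat_lit 2))) (.slot (nat_lit 8)) (.slot (nat_lit 5)))
def l6447 : Root := .mk (.col (nat_lit 0)) (.col (nat_lit 1)) (.node (.slot (nat_lit 0)) (.slot (nat_lit 0)) (.slot (nat_lit 0))) (.node (.node (.col (nat_lit 1)) (.node (.col (nat_lit 2)) (.col (nat_lit 3)) (.slot (nat_lit 6))) (.node (.col (nat_lit 3)) (.slot (nat_lit 7)) (.slot (nat_lit 5)))) (.col (nat_lit 0)) (.slot (nat_lit 1)))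
def w28865 : Root := .mk (.col (nat_lit 0)) (.col (nat_lit 1)) (.node (.slot (nat_lit 0)) (.slot (nat_lit 0)) (.slot (nat_lit 0))) (.node (.node (.node (.slot (nat_lit 0)) (.col (nat_lit 0)) (.slot (nat_lit 0))) (.node (.col (nat_lit 2)) (.col (nat_lit 3)) (.slot (nat_lit 6))) (.node (.col (nat_lit 3)) (.slot (nat_lit 7)) (.slot (nat_lit 5)))) (.col (nat_lit 0)) (.slot (nat_lit 1)))
def l6448 : Root := .mk (.col (nat_lit 0)) (.col (nat_lit 1)) (.node (.node (.slot (nat_lit 0)) (.slot (nat_lit 0)) (.slot (nat_lit 0))) (.slot (nat_lit 7)) (.slot (nat_lit 5))) (.node (.node (.node (.node (.col (nat_lit 0)) (.slot (nat_lit 0)) (.slot (nat_lit 0))) (.col (nat_lit 0)) (.slot (nat_lit 3))) (.node (.col (nat_lit 2)) (.col (nat_lit 3)) (.slot (nat_lit 8))) (.node (.col (nat_lit 3)) (.slot (nat_lit 20)) (.slot (nat_lit 9)))) (.slot (nat_lit 5)) (.slot (nat_lit 8)))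
def w28866 : Root := .mk (.col (nat_lit 0)) (.col (nat_lit 1)) (.node (.node (.slot (nat_lit 0)) (.slot (nat_lit 0)) (.slot (nat_lit 0))) (.slot (nat_lit 7)) (.slot (nat_lit 5))) (.node (.node (.node (.node (.col (nat_lit 0)) (.slot (nat_lit 0)) (.slot (nat_lit 0))) (.col (nat_lit 0)) (.slot (nat_lit 3))) (.node (.col (nat_lit 2)) (.slot (nat_lit 1)) (.slot (nat_lit 8))) (.node (.col (nat_lit 3)) (.slot (nat_lit 20)) (.slot (nat_lit 9)))) (.slot (nat_lit 8)) (.slot (nat_lit 5)))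
def l6449 : Root := .mk (.node (.node (.col (nat_lit 0)) (.col (nat_lit 1)) (.node (.node (.slot (nat_lit 0)) (.slot (nat_lit 0)) (.slot (nat_lit 0))) (.slot (nat_lit 2)) (.slot (nat_lit 2)))) (.slot (nat_lit 3)) (.slot (nat_lit 3))) (.node (.col (nat_lit 2)) (.col (nat_lit 0)) (.slot (nat_lit 8))) (.col (nat_lit 0)) (.col (nat_lit 1))
def w28867 : Root := .mk (.col (nat_lit 0)) (.col (nat_lit 1)) (.node (.node (.slot (nat_lit 0)) (.slot (nat_lit 0)) (.slot (nat_lit 0))) (.slot (nat_lit 2)) (.slot (nat_lit 2))) (.node (.node (.node (.col (nat_lit 2)) (.col (nat_lit 0)) (.slot (nat_lit 8))) (.col (nat_lit 0)) (.node (.slot (nat_lit 0)) (.slot (nat_lit 0)) (.slot (nat_lit 0)))) (.slot (nat_lit 3)) (.slot (nat_lit 3)))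
def l6450 : Root := .mk (.node (.col (nat_lit 0)) (.col (nat_lit 1)) (.node (.node (.slot (nat_lit 0)) (.slot (nat_lit 0)) (.slot (nat_lit 0))) (.slot (nat_lit 1)) (.slot (nat_lit 1)))) (.node (.node (.col (nat_lit 2)) (.col (nat_lit 0)) (.slot (nat_lit 8))) (.node (.col (nat_lit 2)) (.slot (nat_lit 3)) (.slot (nat_lit 1))) (.node (.slot (nat_lit 0)) (.slot (nat_lit 1)) (.slot (nat_lit 1)))) (.col (nat_lit 0)) (.col (nat_lit 2))
def w28868 : Root := .mk (.col (nat_lit 0)) (.col (nat_lit 1)) (.node (.node (.slot (nat_lit 0)) (.slot (nat_lit 0)) (.slot (nat_lit 0))) (.slot (nat_lit 1)) (.slot (nat_lit 1))) (.node (.node (.node (.col (nat_lit 2)) (.col (nat_lit 0)) (.slot (nat_lit 8))) (.node (.col (nat_lit 2)) (.slot (nat_lit 3)) (.slot (nat_lit 1))) (.node (.slot (nat_lit 0)) (.slot (nat_lit 1)) (.slot (nat_lit 1)))) (.col (nat_lit 0)) (.slot (nat_lit 1)))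
def l6451 : Root := .mk (.col (nat_lit 0)) (.col (nat_lit 1)) (.node (.node (.slot (nat_lit 0)) (.slot (nat_lit 0)) (.slot (nat_lit 0))) (.slot (nat_lit 2)) (.slot (nat_lit 2))) (.node (.node (.node (.col (nat_lit 2)) (.col (nat_lit 0)) (.slot (nat_lit 8))) (.node (.col (nat_lit 2)) (.slot (nat_lit 7)) (.slot (nat_lit 5))) (.node (.slot (nat_lit 0)) (.slot (nat_lit 1)) (.slot (nat_lit 1)))) (.slot (nat_lit 8)) (.slot (nat_lit 5)))
def w28869 : Root := .mk (.col (nat_lit 0)) (.col (nat_lit 1)) (.node (.node (.slot (nat_lit 0)) (.slot (nat_lit 0)) (.slot (nat_lit 0))) (.slot (nat_lit 2)) (.slot (nat_lit 2))) (.node (.node (.node (.node (.col (nat_lit 0)) (.slot (nat_lit 0)) (.slot (nat_lit 0))) (.col (nat_lit 0)) (.slot (nat_lit 8))) (.node (.col (nat_lit 2)) (.slot (nat_lit 7)) (.slot (nat_lit 5))) (.node (.slot (nat_lit 0)) (.slot (nat_lit 1)) (.slot (nat_lit 1)))) (.slot (nat_lit 8)) (.slot (nat_lit 5)))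
def w28870 : Root := .mk (.col (nat_lit 0)) (.col (nat_lit 1)) (.node (.node (.slot (nat_lit 0)) (.slot (nat_lit 0)) (.slot (nat_lit 0))) (.slot (nat_lit 2)) (.slot (nat_lit 2))) (.node (.node (.node (.slot (nat_lit 0)) (.col (nat_lit 0)) (.slot (nat_lit 0))) (.col (nat_lit 1)) (.col (nat_lit 0))) (.col (nat_lit 0)) (.node (.col (nat_lit 1)) (.node (.slot (nat_lit 0)) (.slot (nat_lit 0)) (.slot (nat_lit 0))) (.slot (nat_lit 3))))
def l6452 : Root := .mk (.col (nat_lit 0)) (.col (nat_lit 1)) (.node (.node (.slot (nat_lit 0)) (.slot (nat_lit 0)) (.slot (nat_lit 0))) (.slot (nat_lit 3)) (.slot (nat_lit 3))) (.node (.node (.node (.slot (nat_lit 0)) (.col (nat_lit 0)) (.slot (nat_lit 0))) (.col (nat_lit 1)) (.col (nat_lit 0))) (.col (nat_lit 0)) (.node (.col (nat_lit 1)) (.slot (nat_lit 9)) (.slot (nat_lit 9))))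
def w28871 : Root := .mk (.node (.node (.col (nat_lit 0)) (.col (nat_lit 1)) (.node (.node (.slot (nat_lit 0)) (.slot (nat_lit 0)) (.slot (nat_lit 0))) (.slot (nat_lit 3)) (.slot (nat_lit 3)))) (.col (nat_lit 0)) (.slot (nat_lit 10))) (.node (.slot (nat_lit 0)) (.col (nat_lit 0)) (.slot (nat_lit 0))) (.col (nat_lit 1)) (.col (nat_lit 0))
def w28872 : Root := .mk (.col (nat_lit 0)) (.col (nat_lit 1)) (.slot (nat_lit 0)) (.node (.node (.node (.node (.col (nat_lit 0)) (.slot (nat_lit 3)) (.slot (nat_lit 1))) (.col (nat_lit 0)) (.slot (nat_lit 8))) (.col (nat_lit 1)) (.slot (nat_lit 4))) (.col (nat_lit 0)) (.node (.col (nat_lit 2)) (.slot (nat_lit 4)) (.slot (nat_lit 2))))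
def l6453 : Root := .mk (.node (.col (nat_lit 0)) (.col (nat_lit 1)) (.node (.node (.slot (nat_lit 0)) (.slot (nat_lit 0)) (.slot (nat_lit 0))) (.slot (nat_lit 4)) (.slot (nat_lit 4)))) (.node (.node (.node (.col (nat_lit 0)) (.slot (nat_lit 0)) (.slot (nat_lit 0))) (.col (nat_lit 0)) (.col (nat_lit 1))) (.col (nat_lit 1)) (.slot (nat_lit 1))) (.col (nat_lit 0)) (.col (nat_lit 2))
def w28873 : Root := .mk (.node (.node (.node (.col (nat_lit 0)) (.col (nat_lit 1)) (.node (.node (.slot (nat_lit 0)) (.slot (nat_lit 0)) (.slot (nat_lit 0))) (.slot (nat_lit 4)) (.slot (nat_lit 4)))) (.col (nat_lit 0)) (.slot (nat_lit 1))) (.col (nat_lit 1)) (.slot (nat_lit 1))) (.node (.col (nat_lit 0)) (.slot (nat_lit 0)) (.slot (nat_lit 0))) (.col (nat_lit 0)) (.col (nat_lit 1))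
def w28874 : Root := .mk (.col (nat_lit 0)) (.col (nat_lit 1)) (.slot (nat_lit 0)) (.node (.node (.node (.node (.col (nat_lit 0)) (.slot (nat_lit 0)) (.slot (nat_lit 0))) (.col (nat_lit 0)) (.node (.slot (nat_lit 0)) (.slot (nat_lit 0)) (.slot (nat_lit 0)))) (.col (nat_lit 1)) (.slot (nat_lit 1))) (.col (nat_lit 0)) (.slot (nat_lit 1)))
def l6454 : Root := .mk (.col (nat_lit 0)) (.col (nat_lit 1)) (.node (.node (.slot (nat_lit 0)) (.slot (nat_lit 0)) (.slot (nat_lit 0))) (.slot (nat_lit 4)) (.slot (nat_lit 4))) (.node (.node (.node (.node (.col (nat_lit 0)) (.slot (nat_lit 3)) (.slot (nat_lit 1))) (.col (nat_lit 0)) (.slot (nat_lit 8))) (.col (nat_lit 1)) (.slot (nat_lit 8))) (.col (nat_lit 0)) (.slot (nat_lit 10)))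
def w28875 : Root := .mk (.col (nat_lit 0)) (.col (nat_lit 1)) (.node (.node (.slot (nat_lit 0)) (.slot (nat_lit 0)) (.slot (nat_lit 0))) (.slot (nat_lit 4)) (.slot (nat_lit 4))) (.node (.node (.node (.node (.col (nat_lit 0)) (.slot (nat_lit 3)) (.slot (nat_lit 1))) (.col (nat_lit 0)) (.slot (nat_lit 8))) (.node (.col (nat_lit 2)) (.slot (nat_lit 0)) (.slot (nat_lit 0))) (.slot (nat_lit 8))) (.col (nat_lit 0)) (.slot (nat_lit 10)))
def w28876 : Root := .mk (.node (.node (.node (.node (.col (nat_lit 0)) .junk (.col (nat_lit 3))) (.col (nat_lit 1)) (.slot (nat_lit 1))) (.node (.col (nat_lit 2)) (.slot (nat_lit 2)) (.slot (nat_lit 1))) (.slot (nat_lit 3))) (.col (nat_lit 0)) (.slot (nat_lit 3))) (.col (nat_lit 0)) (.col (nat_lit 1)) (.slot (nat_lit 8))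
def w28877 : Root := .mk (.node (.node (.node (.node (.col (nat_lit 0)) .junk (.col (nat_lit 3))) (.col (nat_lit 1)) (.slot (nat_lit 1))) (.node (.col (nat_lit 2)) (.slot (nat_lit 1)) (.slot (nat_lit 1))) (.slot (nat_lit 2))) (.col (nat_lit 0)) (.slot (nat_lit 3))) (.col (nat_lit 0)) (.node (.col (nat_lit 2)) (.slot (nat_lit 3)) (.slot (nat_lit 1))) (.col (nat_lit 2))
def w28878 : Root := .mk (.node (.node (.node (.node (.col (nat_lit 0)) .junk (.col (nat_lit 3))) (.col (nat_lit 1)) (.slot (nat_lit 1))) (.node (.col (nat_lit 2)) (.slot (nat_lit 3)) (.slot (nat_lit 1))) (.slot (nat_lit 8))) (.col (nat_lit 0)) (.slot (nat_lit 3))) (.col (nat_lit 0)) (.slot (nat_lit 0)) (.slot (nat_lit 0))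
def w28879 : Root := .mk (.col (nat_lit 0)) (.col (nat_lit 1)) (.col (nat_lit 3)) (.node (.node (.node (.node (.col (nat_lit 0)) (.node (.col (nat_lit 2)) (.slot (nat_lit 1)) (.slot (nat_lit 1))) (.slot (nat_lit 2))) (.col (nat_lit 0)) (.node (.col (nat_lit 0)) (.slot (nat_lit 0)) (.slot (nat_lit 0)))) (.node (.col (nat_lit 2)) (.slot (nat_lit 1)) (.slot (nat_lit 1))) (.slot (nat_lit 1))) (.col (nat_lit 1)) (.slot (nat_lit 4)))
def w28880 : Root := .mk (.col (nat_lit 0)) (.col (nat_lit 1)) (.col (nat_lit 3)) (.node (.node (.node (.node (.col (nat_lit 0)) (.node (.col (nat_lit 2)) (.slot (nat_lit 20)) (.slot (nat_lit 9))) (.slot (nat_lit 21))) (.col (nat_lit 0)) (.node (.slot (nat_lit 0)) (.slot (nat_lit 1)) (.slot (nat_lit 1)))) (.node (.col (nat_lit 2)) (.slot (nat_lit 7)) (.slot (nat_lit 5))) (.slot (nat_lit 9))) (.col (nat_lit 1)) (.slot (nat_lit 21)))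
def w28881 : Root := .mk (.node (.slot (nat_lit 0)) (.col (nat_lit 1)) (.slot (nat_lit 0))) (.node (.node (.col (nat_lit 0)) (.node (.col (nat_lit 2)) (.slot (nat_lit 1)) (.slot (nat_lit 1))) (.slot (nat_lit 2))) (.col (nat_lit 0)) (.slot (nat_lit 3))) (.node (.col (nat_lit 2)) (.slot (nat_lit 3)) (.slot (nat_lit 1))) (.node (.col (nat_lit 3)) (.slot (nat_lit 7)) (.slot (nat_lit 5)))
def w28882 : Root := .mk (.node (.node (.col (nat_lit 0)) .junk (.col (nat_lit 3))) (.col (nat_lit 1)) (.slot (nat_lit 1))) (.node (.node (.col (nat_lit 0)) (.node (.col (nat_lit 2)) (.slot (nat_lit 1)) (.slot (nat_lit 1))) (.slot (nat_lit 2))) (.col (nat_lit 0)) (.slot (nat_lit 2))) (.node (.col (nat_lit 2)) (.slot (nat_lit 0)) (.slot (nat_lit 0))) (.node (.slot (nat_lit 0)) (.slot (nat_lit 1)) (.slot (nat_lit 0)))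
def w28883 : Root := .mk (.node (.node (.slot (nat_lit 0)) (.col (nat_lit 1)) (.slot (nat_lit 0))) (.node (.node (.col (nat_lit 0)) (.node (.col (nat_lit 2)) (.slot (nat_lit 1)) (.slot (nat_lit 1))) (.slot (nat_lit 2))) (.col (nat_lit 0)) (.slot (nat_lit 21))) (.slot (nat_lit 8))) (.col (nat_lit 2)) (.col (nat_lit 4)) (.slot (nat_lit 3))
def l6455 : Root := .mk (.col (nat_lit 0)) (.col (nat_lit 1)) (.col (nat_lit 3)) (.node (.node (.node (.node (.col (nat_lit 0)) (.node (.col (nat_lit 2)) (.slot (nat_lit 20)) (.slot (nat_lit 12))) (.slot (nat_lit 21))) (.col (nat_lit 0)) (.slot (nat_lit 21))) (.node (.col (nat_lit 2)) (.slot (nat_lit 10)) (.slot (nat_lit 10))) (.slot (nat_lit 10))) (.col (nat_lit 1)) (.slot (nat_lit 21)))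
def w28884 : Root := .mk (.col (nat_lit 0)) (.col (nat_lit 1)) (.col (nat_lit 3)) (.node (.node (.node (.node (.col (nat_lit 0)) (.slot (nat_lit 21)) (.slot (nat_lit 21))) (.col (nat_lit 0)) (.slot (nat_lit 21))) (.node (.col (nat_lit 2)) (.slot (nat_lit 10)) (.slot (nat_lit 10))) (.slot (nat_lit 10))) (.col (nat_lit 1)) (.slot (nat_lit 21)))
def w28885 : Root := .mk (.col (nat_lit 0)) (.col (nat_lit 1)) (.node (.col (nat_lit 2)) (.node (.slot (nat_lit 0)) (.slot (nat_lit 0)) (.slot (nat_lit 0))) (.slot (nat_lit 1))) (.node (.node (.col (nat_lit 3)) (.node (.col (nat_lit 2)) (.slot (nat_lit 0)) (.slot (nat_lit 0))) (.slot (nat_lit 2))) (.col (nat_lit 1)) (.node (.col (nat_lit 1)) (.slot (nat_lit 0)) (.slot (nat_lit 0))))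
def l6456 : Root := .mk (.col (nat_lit 0)) (.col (nat_lit 1)) (.node (.col (nat_lit 2)) (.node (.slot (nat_lit 0)) (.slot (nat_lit 0)) (.slot (nat_lit 0))) (.slot (nat_lit 1))) (.node (.node (.col (nat_lit 3)) (.node (.col (nat_lit 2)) (.slot (nat_lit 7)) (.slot (nat_lit 5))) (.slot (nat_lit 21))) (.col (nat_lit 1)) (.slot (nat_lit 3)))
def w28886 : Root := .mk (.col (nat_lit 0)) (.col (nat_lit 1)) (.node (.col (nat_lit 2)) (.node (.slot (nat_lit 0)) (.slot (nat_lit 0)) (.slot (nat_lit 0))) (.slot (nat_lit 1))) (.node (.node (.node (.slot (nat_lit 0)) (.col (nat_lit 0)) (.slot (nat_lit 0))) (.node (.col (nat_lit 2)) (.slot (nat_lit 7)) (.slot (nat_lit 5))) (.slot (nat_lit 21))) (.col (nat_lit 1)) (.slot (nat_lit 3)))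
def l6457 : Root := .mk (.col (nat_lit 0)) (.col (nat_lit 1)) (.node (.col (nat_lit 2)) (.slot (nat_lit 20)) (.slot (nat_lit 9))) (.node (.node (.node (.node (.col (nat_lit 0)) (.slot (nat_lit 21)) (.slot (nat_lit 21))) (.col (nat_lit 0)) (.slot (nat_lit 21))) (.node (.col (nat_lit 2)) (.slot (nat_lit 10)) (.slot (nat_lit 10))) (.slot (nat_lit 21))) (.col (nat_lit 1)) (.slot (nat_lit 21)))
def w28887 : Root := .mk (.col (nat_lit 0)) (.col (nat_lit 1)) (.node (.node (.slot (nat_lit 0)) (.slot (nat_lit 0)) (.slot (nat_lit 0))) (.slot (nat_lit 20)) (.slot (nat_lit 9))) (.node (.node (.node (.node (.col (nat_lit 0)) (.slot (nat_lit 21)) (.slot (nat_lit 21))) (.col (nat_lit 0)) (.slot (nat_lit 21))) (.node (.col (nat_lit 2)) (.slot (nat_lit 10)) (.slot (nat_lit 10))) (.slot (nat_lit 21))) (.col (nat_lit 1)) (.slot (nat_lit 21)))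
def w28888 : Root := .mk (.col (nat_lit 0)) (.col (nat_lit 1)) (.node (.node (.slot (nat_lit 0)) (.slot (nat_lit 0)) (.slot (nat_lit 0))) (.slot (nat_lit 2)) (.slot (nat_lit 2))) (.node (.node (.node (.col (nat_lit 2)) (.col (nat_lit 0)) (.slot (nat_lit 0))) (.col (nat_lit 0)) (.slot (nat_lit 6))) (.node (.col (nat_lit 2)) (.slot (nat_lit 1)) (.slot (nat_lit 1))) (.slot (nat_lit 8)))
def l6458 : Root := .mk (.col (nat_lit 0)) (.col (nat_lit 1)) (.node (.node (.slot (nat_lit 0)) (.slot (nat_lit 0)) (.slot (nat_lit 0))) (.slot (nat_lit 2)) (.slot (nat_lit 2))) (.node (.node (.node (.col (nat_lit 2)) (.col (nat_lit 0)) (.slot (nat_lit 3))) (.node (.col (nat_lit 2)) (.slot (nat_lit 7)) (.slot (nat_lit 5))) (.slot (nat_lit 8))) (.node (.col (nat_lit 2)) (.slot (nat_lit 1)) (.slot (nat_lit 1))) (.slot (nat_lit 8)))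
def w28889 : Root := .mk (.col (nat_lit 0)) (.col (nat_lit 1)) (.node (.node (.slot (nat_lit 0)) (.slot (nat_lit 0)) (.slot (nat_lit 0))) (.slot (nat_lit 2)) (.slot (nat_lit 2))) (.node (.node (.node (.node (.col (nat_lit 0)) (.slot (nat_lit 0)) (.slot (nat_lit 0))) (.col (nat_lit 0)) (.slot (nat_lit 3))) (.node (.col (nat_lit 2)) (.slot (nat_lit 7)) (.slot (nat_lit 5))) (.slot (nat_lit 8))) (.node (.col (nat_lit 2)) (.slot (nat_lit 1)) (.slot (nat_lit 1))) (.slot (nat_lit 8)))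
def l6459 : Root := .mk (.col (nat_lit 0)) (.col (nat_lit 1)) (.node (.node (.slot (nat_lit 0)) (.slot (nat_lit 0)) (.slot (nat_lit 0))) (.slot (nat_lit 2)) (.slot (nat_lit 2))) (.node (.node (.node (.col (nat_lit 2)) (.col (nat_lit 0)) (.slot (nat_lit 3))) (.node (.col (nat_lit 2)) (.slot (nat_lit 5)) (.slot (nat_lit 7))) (.slot (nat_lit 8))) (.node (.col (nat_lit 3)) (.slot (nat_lit 3)) (.slot (nat_lit 2))) (.slot (nat_lit 8)))
def w28890 : Root := .mk (.col (nat_lit 0)) (.col (nat_lit 1)) (.node (.node (.slot (nat_lit 0)) (.slot (nat_lit 0)) (.slot (nat_lit 0))) (.slot (nat_lit 2)) (.slot (nat_lit 2))) (.node (.node (.node (.node (.col (nat_lit 0)) (.slot (nat_lit 0)) (.slot (nat_lit 0))) (.col (nat_lit 0)) (.slot (nat_lit 3))) (.node (.col (nat_lit 2)) (.slot (nat_lit 7)) (.slot (nat_lit 5))) (.slot (nat_lit 8))) (.node (.col (nat_lit 3)) (.slot (nat_lit 3)) (.slot (nat_lit 2))) (.slot (nat_lit 8)))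
def l6460 : Root := .mk (.col (nat_lit 0)) (.col (nat_lit 1)) (.node (.node (.slot (nat_lit 0)) (.slot (nat_lit 0)) (.slot (nat_lit 0))) (.slot (nat_lit 2)) (.slot (nat_lit 2))) (.node (.node (.node (.col (nat_lit 2)) (.col (nat_lit 0)) (.slot (nat_lit 6))) (.node (.col (nat_lit 2)) (.slot (nat_lit 5)) (.slot (nat_lit 7))) (.slot (nat_lit 8))) (.node (.slot (nat_lit 0)) (.slot (nat_lit 0)) (.slot (nat_lit 0))) (.slot (nat_lit 1)))
def w28891 : Root := .mk (.col (nat_lit 0)) (.col (nat_lit 1)) (.node (.node (.slot (nat_lit 0)) (.slot (nat_lit 0)) (.slot (nat_lit 0))) (.slot (nat_lit 2)) (.slot (nat_lit 2))) (.node (.node (.node (.node (.col (nat_lit 0)) (.slot (nat_lit 0)) (.slot (nat_lit 0))) (.col (nat_lit 0)) (.slot (nat_lit 6))) (.node (.col (nat_lit 2)) (.slot (nat_lit 7)) (.slot (nat_lit 5))) (.slot (nat_lit 8))) (.node (.slot (nat_lit 0)) (.slot (nat_lit 0)) (.slot (nat_lit 0))) (.slot (nat_lit 1)))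
def w28892 : Root := .mk (.node (.node (.node (.col (nat_lit 0)) (.col (nat_lit 1)) (.node (.node (.slot (nat_lit 0)) (.slot (nat_lit 0)) (.slot (nat_lit 0))) (.slot (nat_lit 1)) (.slot (nat_lit 1)))) (.slot (nat_lit 1)) (.slot (nat_lit 1))) (.node (.col (nat_lit 2)) (.slot (nat_lit 1)) (.slot (nat_lit 1))) (.slot (nat_lit 2))) (.node (.col (nat_lit 0)) (.slot (nat_lit 0)) (.slot (nat_lit 0))) (.col (nat_lit 0)) (.col (nat_lit 3))
def w28893 : Root := .mk (.col (nat_lit 0)) (.col (nat_lit 1)) (.node (.node (.slot (nat_lit 0)) (.slot (nat_lit 0)) (.slot (nat_lit 0))) (.slot (nat_lit 1)) (.slot (nat_lit 1))) (.node (.node (.node (.node (.col (nat_lit 0)) (.col (nat_lit 3)) (.slot (nat_lit 3))) (.col (nat_lit 0)) (.node (.col (nat_lit 0)) (.slot (nat_lit 0)) (.slot (nat_lit 0)))) (.node (.col (nat_lit 2)) (.slot (nat_lit 1)) (.slot (nat_lit 0))) (.slot (nat_lit 2))) (.slot (nat_lit 1)) (.slot (nat_lit 1)))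
def w28894 : Root := .mk (.node (.node (.node (.node (.col (nat_lit 0)) (.col (nat_lit 1)) (.node (.node (.slot (nat_lit 0)) (.slot (nat_lit 0)) (.slot (nat_lit 0))) (.slot (nat_lit 1)) (.slot (nat_lit 1)))) (.slot (nat_lit 1)) (.slot (nat_lit 1))) (.node (.col (nat_lit 2)) (.slot (nat_lit 0)) (.slot (nat_lit 0))) (.slot (nat_lit 3))) (.col (nat_lit 0)) (.node (.col (nat_lit 0)) (.slot (nat_lit 0)) (.slot (nat_lit 0)))) (.col (nat_lit 0)) (.col (nat_lit 3)) (.col (nat_lit 1))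
def w28895 : Root := .mk (.col (nat_lit 0)) (.col (nat_lit 1)) (.node (.slot (nat_lit 0)) (.slot (nat_lit 0)) (.slot (nat_lit 0))) (.node (.node (.node (.node .junk (.col (nat_lit 3)) (.col (nat_lit 2))) (.col (nat_lit 0)) (.node (.col (nat_lit 0)) (.slot (nat_lit 0)) (.slot (nat_lit 0)))) (.node (.col (nat_lit 2)) (.slot (nat_lit 1)) (.slot (nat_lit 1))) (.slot (nat_lit 3))) (.slot (nat_lit 1)) (.slot (nat_lit 1)))
def w28896 : Root := .mk (.node (.node (.node (.node (.col (nat_lit 0)) (.col (nat_lit 1)) (.node (.node (.slot (nat_lit 0)) (.slot (nat_lit 0)) (.slot (nat_lit 0))) (.slot (nat_lit 1)) (.slot (nat_lit 1)))) (.slot (nat_lit 1)) (.slot (nat_lit 1))) (.node (.col (nat_lit 2)) (.slot (nat_lit 0)) (.slot (nat_lit 0))) (.slot (nat_lit 3))) (.col (nat_lit 0)) (.node (.col (nat_lit 0)) (.slot (nat_lit 0)) (.slot (nat_lit 0)))) (.col (nat_lit 0)) (.col (nat_lit 3)) (.col (nat_lit 4))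
def w28897 : Root := .mk (.node (.node (.node (.node (.col (nat_lit 0)) (.col (nat_lit 1)) (.node (.node (.slot (nat_lit 0)) (.slot (nat_lit 0)) (.slot (nat_lit 0))) (.slot (nat_lit 1)) (.slot (nat_lit 1)))) (.slot (nat_lit 1)) (.slot (nat_lit 1))) (.node (.col (nat_lit 2)) (.slot (nat_lit 3)) (.slot (nat_lit 3))) (.slot (nat_lit 4))) (.col (nat_lit 0)) (.node (.col (nat_lit 0)) (.slot (nat_lit 0)) (.slot (nat_lit 0)))) (.col (nat_lit 0)) (.col (nat_lit 3)) (.node (.col (nat_lit 0)) (.slot (nat_lit 0)) (.slot (nat_lit 0)))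
def w28898 : Root := .mk (.node (.node (.node (.node (.col (nat_lit 0)) (.col (nat_lit 1)) (.node (.node (.slot (nat_lit 0)) (.slot (nat_lit 0)) (.slot (nat_lit 0))) (.slot (nat_lit 1)) (.slot (nat_lit 1)))) (.slot (nat_lit 1)) (.slot (nat_lit 1))) (.node (.col (nat_lit 2)) (.slot (nat_lit 3)) (.slot (nat_lit 3))) (.slot (nat_lit 2))) (.col (nat_lit 0)) (.node (.col (nat_lit 0)) (.slot (nat_lit 0)) (.slot (nat_lit 0)))) (.col (nat_lit 0)) (.col (nat_lit 3)) (.node (.col (nat_lit 3)) (.slot (nat_lit 1)) (.slot (nat_lit 1)))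
def w28899 : Root := .mk (.node (.node (.node (.node (.col (nat_lit 0)) (.col (nat_lit 1)) (.node (.node (.slot (nat_lit 0)) (.slot (nat_lit 0)) (.slot (nat_lit 0))) (.slot (nat_lit 1)) (.slot (nat_lit 1)))) (.slot (nat_lit 1)) (.slot (nat_lit 1))) (.node (.col (nat_lit 2)) (.slot (nat_lit 3)) (.slot (nat_lit 3))) (.slot (nat_lit 2))) (.col (nat_lit 0)) (.node (.col (nat_lit 0)) (.slot (nat_lit 0)) (.slot (nat_lit 0)))) (.col (nat_lit 0)) (.col (nat_lit 3)) (.node (.slot (nat_lit 0)) (.slot (nat_lit 0)) (.slot (nat_lit 0)))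
def w28900 : Root := .mk (.node (.node (.node (.col (nat_lit 0)) (.col (nat_lit 1)) (.node (.node (.slot (nat_lit 0)) (.slot (nat_lit 0)) (.slot (nat_lit 0))) (.slot (nat_lit 1)) (.slot (nat_lit 1)))) (.slot (nat_lit 1)) (.slot (nat_lit 1))) (.node (.col (nat_lit 2)) (.slot (nat_lit 1)) (.slot (nat_lit 1))) (.slot (nat_lit 2))) (.node (.col (nat_lit 0)) (.col (nat_lit 3)) (.slot (nat_lit 0))) (.col (nat_lit 0)) (.col (nat_lit 3))
def w28901 : Root := .mk (.col (nat_lit 0)) (.col (nat_lit 1)) (.node (.node (.slot (nat_lit 0)) (.slot (nat_lit 0)) (.slot (nat_lit 0))) (.slot (nat_lit 1)) (.slot (nat_lit 1))) (.node (.node (.node (.node (.col (nat_lit 0)) (.col (nat_lit 3)) (.slot (nat_lit 3))) (.col (nat_lit 0)) (.node (.col (nat_lit 0)) (.slot (nat_lit 3)) (.slot (nat_lit 3)))) (.col (nat_lit 1)) (.slot (nat_lit 3))) (.slot (nat_lit 1)) (.slot (nat_lit 1)))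
def w28902 : Root := .mk (.col (nat_lit 0)) (.col (nat_lit 1)) (.node (.node (.slot (nat_lit 0)) (.slot (nat_lit 0)) (.slot (nat_lit 0))) (.slot (nat_lit 1)) (.slot (nat_lit 1))) (.node (.node (.node (.node (.col (nat_lit 0)) (.col (nat_lit 3)) (.slot (nat_lit 3))) (.col (nat_lit 0)) (.node (.col (nat_lit 0)) (.slot (nat_lit 3)) (.slot (nat_lit 3)))) (.col (nat_lit 4)) (.slot (nat_lit 3))) (.slot (nat_lit 1)) (.slot (nat_lit 1)))
def w28903 : Root := .mk (.col (nat_lit 0)) (.col (nat_lit 1)) (.node (.node (.slot (nat_lit 0)) (.slot (nat_lit 0)) (.slot (nat_lit 0))) (.slot (nat_lit 1)) (.slot (nat_lit 1))) (.node (.node (.node (.node (.col (nat_lit 0)) (.col (nat_lit 3)) (.slot (nat_lit 1))) (.col (nat_lit 0)) (.node (.col (nat_lit 0)) (.slot (nat_lit 0)) (.slot (nat_lit 0)))) (.node (.col (nat_lit 2)) (.slot (nat_lit 0)) (.slot (nat_lit 0))) (.col (nat_lit 2))) (.slot (nat_lit 1)) (.slot (nat_lit 1)))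
def w28904 : Root := .mk (.col (nat_lit 0)) (.col (nat_lit 1)) (.node (.node (.slot (nat_lit 0)) (.slot (nat_lit 0)) (.slot (nat_lit 0))) (.slot (nat_lit 1)) (.slot (nat_lit 1))) (.node (.node (.node (.node (.col (nat_lit 0)) (.col (nat_lit 3)) (.slot (nat_lit 1))) (.col (nat_lit 0)) (.node (.col (nat_lit 0)) (.slot (nat_lit 0)) (.slot (nat_lit 0)))) (.node (.col (nat_lit 2)) (.slot (nat_lit 0)) (.slot (nat_lit 0))) (.node (.col (nat_lit 0)) (.slot (nat_lit 2)) (.slot (nat_lit 2)))) (.slot (nat_lit 1)) (.slot (nat_lit 1)))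
def w28905 : Root := .mk (.col (nat_lit 0)) (.col (nat_lit 1)) (.node (.node (.slot (nat_lit 0)) (.slot (nat_lit 0)) (.slot (nat_lit 0))) (.slot (nat_lit 1)) (.slot (nat_lit 1))) (.node (.node (.node (.node (.col (nat_lit 0)) (.col (nat_lit 3)) (.slot (nat_lit 5))) (.col (nat_lit 0)) (.node (.col (nat_lit 0)) (.slot (nat_lit 0)) (.slot (nat_lit 0)))) (.node (.col (nat_lit 2)) (.slot (nat_lit 1)) (.slot (nat_lit 0))) (.node (.col (nat_lit 1)) (.slot (nat_lit 1)) (.slot (nat_lit 1)))) (.slot (nat_lit 1)) (.slot (nat_lit 1)))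
def w28906 : Root := .mk (.col (nat_lit 0)) (.col (nat_lit 1)) (.node (.node (.slot (nat_lit 0)) (.slot (nat_lit 0)) (.slot (nat_lit 0))) (.slot (nat_lit 1)) (.slot (nat_lit 1))) (.node (.node (.node (.node (.col (nat_lit 0)) (.col (nat_lit 3)) (.slot (nat_lit 5))) (.col (nat_lit 0)) (.node (.col (nat_lit 0)) (.slot (nat_lit 0)) (.slot (nat_lit 0)))) (.node (.col (nat_lit 2)) (.slot (nat_lit 1)) (.slot (nat_lit 1))) (.node (.col (nat_lit 3)) (.slot (nat_lit 0)) (.slot (nat_lit 0)))) (.slot (nat_lit 1)) (.slot (nat_lit 1)))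
def w28907 : Root := .mk (.col (nat_lit 0)) (.col (nat_lit 1)) (.node (.node (.slot (nat_lit 0)) (.slot (nat_lit 0)) (.slot (nat_lit 0))) (.slot (nat_lit 1)) (.slot (nat_lit 1))) (.node (.node (.node (.node (.col (nat_lit 0)) (.col (nat_lit 3)) (.slot (nat_lit 5))) (.col (nat_lit 0)) (.node (.col (nat_lit 0)) (.slot (nat_lit 0)) (.slot (nat_lit 0)))) (.node (.col (nat_lit 2)) (.slot (nat_lit 1)) (.slot (nat_lit 0))) (.node (.col (nat_lit 4)) (.slot (nat_lit 1)) (.slot (nat_lit 1)))) (.slot (nat_lit 1)) (.slot (nat_lit 1)))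
def w28908 : Root := .mk (.col (nat_lit 0)) (.col (nat_lit 1)) (.node (.node (.slot (nat_lit 0)) (.slot (nat_lit 0)) (.slot (nat_lit 0))) (.slot (nat_lit 1)) (.slot (nat_lit 1))) (.node (.node (.node (.node (.col (nat_lit 0)) (.col (nat_lit 3)) (.slot (nat_lit 3))) (.col (nat_lit 0)) (.node (.col (nat_lit 0)) (.slot (nat_lit 0)) (.slot (nat_lit 0)))) (.node (.col (nat_lit 2)) (.slot (nat_lit 1)) (.slot (nat_lit 0))) (.node (.slot (nat_lit 0)) (.slot (nat_lit 1)) (.slot (nat_lit 1)))) (.slot (nat_lit 1)) (.slot (nat_lit 1)))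
def w28909 : Root := .mk (.col (nat_lit 0)) (.col (nat_lit 1)) (.node (.node (.slot (nat_lit 0)) (.slot (nat_lit 0)) (.slot (nat_lit 0))) (.slot (nat_lit 1)) (.slot (nat_lit 1))) (.node (.node (.node (.node (.col (nat_lit 0)) (.col (nat_lit 3)) (.slot (nat_lit 3))) (.col (nat_lit 0)) (.node (.col (nat_lit 0)) (.col (nat_lit 1)) (.slot (nat_lit 0)))) (.node (.col (nat_lit 2)) (.slot (nat_lit 1)) (.slot (nat_lit 0))) (.slot (nat_lit 2))) (.slot (nat_lit 1)) (.slot (nat_lit 1)))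
def w28910 : Root := .mk (.col (nat_lit 0)) (.col (nat_lit 1)) (.node (.node (.slot (nat_lit 0)) (.slot (nat_lit 0)) (.slot (nat_lit 0))) (.slot (nat_lit 1)) (.slot (nat_lit 1))) (.node (.node (.node (.node (.col (nat_lit 0)) (.col (nat_lit 3)) (.slot (nat_lit 3))) (.col (nat_lit 0)) (.node (.col (nat_lit 0)) (.col (nat_lit 2)) (.slot (nat_lit 0)))) (.node (.col (nat_lit 2)) (.slot (nat_lit 1)) (.slot (nat_lit 1))) (.slot (nat_lit 2))) (.slot (nat_lit 1)) (.slot (nat_lit 1)))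
def w28911 : Root := .mk (.col (nat_lit 0)) (.col (nat_lit 1)) (.node (.node (.slot (nat_lit 0)) (.slot (nat_lit 0)) (.slot (nat_lit 0))) (.slot (nat_lit 1)) (.slot (nat_lit 1))) (.node (.node (.node (.node (.col (nat_lit 0)) (.col (nat_lit 3)) (.slot (nat_lit 3))) (.col (nat_lit 0)) (.node (.col (nat_lit 0)) (.col (nat_lit 4)) (.slot (nat_lit 0)))) (.node (.col (nat_lit 2)) (.slot (nat_lit 1)) (.slot (nat_lit 0))) (.slot (nat_lit 2))) (.slot (nat_lit 1)) (.slot (nat_lit 1)))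
def w28914 : Root := .mk (.col (nat_lit 0)) (.col (nat_lit 1)) (.slot (nat_lit 0)) (.node (.node (.node (.node (.col (nat_lit 0)) (.col (nat_lit 3)) (.slot (nat_lit 3))) (.col (nat_lit 0)) (.node (.col (nat_lit 0)) (.slot (nat_lit 3)) (.slot (nat_lit 1)))) (.node (.col (nat_lit 2)) (.slot (nat_lit 3)) (.slot (nat_lit 1))) (.slot (nat_lit 8))) (.col (nat_lit 0)) (.slot (nat_lit 3)))
def w28915 : Root := .mk (.col (nat_lit 0)) (.col (nat_lit 1)) (.slot (nat_lit 0)) (.node (.node (.node (.node (.col (nat_lit 0)) (.col (nat_lit 3)) (.slot (nat_lit 3))) (.col (nat_lit 0)) (.node (.col (nat_lit 0)) (.slot (nat_lit 3)) (.slot (nat_lit 1)))) (.node (.col (nat_lit 2)) (.slot (nat_lit 3)) (.slot (nat_lit 1))) (.slot (nat_lit 8))) (.col (nat_lit 1)) (.slot (nat_lit 3)))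
def w28916 : Root := .mk (.col (nat_lit 0)) (.col (nat_lit 1)) (.node (.slot (nat_lit 0)) (.slot (nat_lit 0)) (.slot (nat_lit 0))) (.node (.node (.node (.node (.col (nat_lit 0)) (.col (nat_lit 3)) (.slot (nat_lit 3))) (.col (nat_lit 0)) (.node (.col (nat_lit 0)) (.slot (nat_lit 0)) (.slot (nat_lit 0)))) (.node (.col (nat_lit 2)) (.slot (nat_lit 1)) (.slot (nat_lit 0))) (.slot (nat_lit 2))) (.node (.col (nat_lit 2)) (.slot (nat_lit 1)) (.slot (nat_lit 1))) (.slot (nat_lit 2)))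

end Pool.Agent.W319.GCI.K5
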