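import Pool.Agent.W319.GCI.K5Base
set_option autoImplicit false
set_option maxRecDepth 100000
set_option linter.all false
namespace Pool.Agent.W319.GCI.K5
open Pool.Agent.W319.GCI

def w28917 : Root := .mk (.col (nat_lit 0)) (.col (nat_lit 1)) (.node (.node (.slot (nat_lit 0)) (.slot (nat_lit 0)) (.slot (nat_lit 0))) (.slot (nat_lit 1)) (.slot (nat_lit 1))) (.node (.node (.node (.node (.col (nat_lit 0)) (.col (nat_lit 3)) (.slot (nat_lit 3))) (.col (nat_lit 0)) (.node (.col (nat_lit 0)) (.slot (nat_lit 0)) (.slot (nat_lit 0)))) (.node (.col (nat_lit 2)) (.slot (nat_lit 1)) (.slot (nat_lit 0))) (.slot (nat_lit 2))) (.node (.col (nat_lit 3)) (.slot (nat_lit 0)) (.slot (nat_lit 0))) (.slot (nat_lit 2)))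
def w28918 : Root := .mk (.col (nat_lit 0)) (.col (nat_lit 1)) (.slot (nat_lit 0)) (.node (.node (.node (.node (.col (nat_lit 0)) (.col (nat_lit 3)) (.slot (nat_lit 8))) (.col (nat_lit 0)) (.node (.col (nat_lit 0)) (.slot (nat_lit 8)) (.slot (nat_lit 8)))) (.node (.col (nat_lit 2)) (.slot (nat_lit 7)) (.slot (nat_lit 5))) (.slot (nat_lit 8))) (.node (.col (nat_lit 4)) (.slot (nat_lit 8)) (.slot (nat_lit 8))) (.slot (nat_lit 9)))
def w28919 : Root := .mk (.col (nat_lit 0)) (.col (nat_lit 1)) (.node (.node (.slot (nat_lit 0)) (.slot (nat_lit 0)) (.slot (nat_lit 0))) (.col (nat_lit 0)) (.slot (nat_lit 0))) (.node (.node (.node (.node (.col (nat_lit 0)) (.col (nat_lit 3)) (.slot (nat_lit 3))) (.col (nat_lit 0)) (.node (.col (nat_lit 0)) (.slot (nat_lit 3)) (.slot (nat_lit 1)))) (.node (.col (nat_lit 2)) (.slot (nat_lit 1)) (.slot (nat_lit 1))) (.slot (nat_lit 3))) (.slot (nat_lit 2)) (.slot (nat_lit 1)))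
def w28920 : Root := .mk (.col (nat_lit 0)) (.col (nat_lit 1)) (.node (.slot (nat_lit 0)) (.col (nat_lit 1)) (.slot (nat_lit 0))) (.node (.node (.node (.node (.col (nat_lit 0)) (.col (nat_lit 3)) (.slot (nat_lit 3))) (.col (nat_lit 0)) (.node (.col (nat_lit 0)) (.slot (nat_lit 3)) (.slot (nat_lit 1)))) (.node (.col (nat_lit 2)) (.slot (nat_lit 1)) (.slot (nat_lit 1))) (.slot (nat_lit 3))) (.slot (nat_lit 1)) (.slot (nat_lit 1)))
def w28921 : Root := .mk (.col (nat_lit 0)) (.col (nat_lit 1)) (.node (.node (.slot (nat_lit 0)) (.slot (nat_lit 0)) (.slot (nat_lit 0))) (.node (.col (nat_lit 2)) (.slot (nat_lit 0)) (.slot (nat_lit 0))) (.slot (nat_lit 1))) (.node (.node (.node (.node (.col (nat_lit 0)) (.col (nat_lit 3)) (.slot (nat_lit 3))) (.col (nat_lit 0)) (.node (.col (nat_lit 0)) (.slot (nat_lit 0)) (.slot (nat_lit 0)))) (.node (.col (nat_lit 2)) (.slot (nat_lit 1)) (.slot (nat_lit 0))) (.slot (nat_lit 2))) (.slot (nat_lit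 1)) (.slot (nat_lit 1)))
def w28922 : Root := .mk (.col (nat_lit 0)) (.col (nat_lit 1)) (.node (.node (.slot (nat_lit 0)) (.slot (nat_lit 0)) (.slot (nat_lit 0))) (.node (.col (nat_lit 3)) (.slot (nat_lit 0)) (.slot (nat_lit 0))) (.slot (nat_lit 2))) (.node (.node (.node (.node (.col (nat_lit 0)) (.col (nat_lit 3)) (.slot (nat_lit 3))) (.col (nat_lit 0)) (.node (.col (nat_lit 0)) (.slot (nat_lit 0)) (.slot (nat_lit 0)))) (.node (.col (nat_lit 2)) (.slot (nat_lit 1)) (.slot (nat_lit 0))) (.slot (nat_lit 2))) (.slot (nat_lit 1)) (.slot (nat_lit 1)))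
def w28923 : Root := .mk (.col (nat_lit 0)) (.col (nat_lit 1)) (.node (.node (.slot (nat_lit 0)) (.slot (nat_lit 0)) (.slot (nat_lit 0))) (.node (.col (nat_lit 4)) (.slot (nat_lit 0)) (.slot (nat_lit 0))) (.slot (nat_lit 1))) (.node (.node (.node (.node (.col (nat_lit 0)) (.col (nat_lit 3)) (.slot (nat_lit 3))) (.col (nat_lit 0)) (.node (.col (nat_lit 0)) (.slot (nat_lit 0)) (.slot (nat_lit 0)))) (.node (.col (nat_lit 2)) (.slot (nat_lit 1)) (.slot (nat_lit 0))) (.slot (nat_lit 2))) (.slot (nat_lit 1)) (.slot (nat_lit 1)))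
def w28927 : Root := .mk (.col (nat_lit 0)) (.col (nat_lit 1)) (.node (.slot (nat_lit 0)) (.slot (nat_lit 0)) (.slot (nat_lit 0))) (.node (.node (.node (.node (.col (nat_lit 0)) (.col (nat_lit 3)) (.slot (nat_lit 3))) (.col (nat_lit 0)) (.node (.col (nat_lit 0)) (.slot (nat_lit 0)) (.slot (nat_lit 0)))) (.node (.col (nat_lit 2)) (.slot (nat_lit 1)) (.slot (nat_lit 0))) (.slot (nat_lit 2))) (.slot (nat_lit 20)) (.slot (nat_lit 9)))
def l6461 : Root := .mk (.col (nat_lit 0)) (.col (nat_lit 1)) (.node (.node (.slot (nat_lit 0)) (.slot (nat_lit 3)) (.slot (nat_lit 1))) (.slot (nat_lit 20)) (.slot (nat_lit 9))) (.node (.node (.node (.node (.col (nat_lit 0)) (.col (nat_lit 3)) (.slot (nat_lit 8))) (.col (nat_lit 0)) (.node (.col (nat_lit 0)) (.slot (nat_lit 8)) (.slot (nat_lit 8)))) (.node (.col (nat_lit 2)) (.slot (nat_lit 8)) (.slot (nat_lit 8))) (.slot (nat_lit 8))) (.slot (nat_lit 20)) (.slot (nat_lit 12)))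
def w28928 : Root := .mk (.col (nat_lit 0)) (.col (nat_lit 1)) (.node (.node (.slot (nat_lit 0)) (.slot (nat_lit 3)) (.slot (nat_lit 1))) (.slot (nat_lit 20)) (.slot (nat_lit 9))) (.node (.node (.node (.node (.col (nat_lit 0)) (.slot (nat_lit 1)) (.slot (nat_lit 8))) (.col (nat_lit 0)) (.node (.col (nat_lit 0)) (.slot (nat_lit 8)) (.slot (nat_lit 8)))) (.node (.col (nat_lit 2)) (.slot (nat_lit 8)) (.slot (nat_lit 8))) (.slot (nat_lit 8))) (.slot (nat_lit 20)) (.slot (nat_lit 12)))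
def w28929 : Root := .mk (.col (nat_lit 0)) (.col (nat_lit 1)) (.node (.node (.slot (nat_lit 0)) (.slot (nat_lit 0)) (.slot (nat_lit 0))) (.slot (nat_lit 1)) (.slot (nat_lit 1))) (.node (.node (.node (.node (.col (nat_lit 0)) (.slot (nat_lit 0)) (.slot (nat_lit 0))) (.col (nat_lit 0)) (.node (.node (.col (nat_lit 0)) (.slot (nat_lit 1)) (.slot (nat_lit 0))) (.slot (nat_lit 7)) (.slot (nat_lit 5)))) (.node (.col (nat_lit 2)) (.slot (nat_lit 3)) (.slot (nat_lit 1))) (.slot (nat_lit 2))) (.slot (nat_lit 1)) (.slot (nat_lit 1)))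
def w28930 : Root := .mk (.col (nat_lit 0)) (.col (nat_lit 1)) (.node (.node (.slot (nat_lit 0)) (.slot (nat_lit 0)) (.slot (nat_lit 0))) (.slot (nat_lit 1)) (.slot (nat_lit 1))) (.node (.node (.node (.node (.col (nat_lit 0)) (.slot (nat_lit 0)) (.slot (nat_lit 0))) (.col (nat_lit 0)) (.node (.node (.col (nat_lit 1)) (.slot (nat_lit 0)) (.slot (nat_lit 0))) (.slot (nat_lit 7)) (.slot (nat_lit 5)))) (.node (.col (nat_lit 2)) (.slot (nat_lit 3)) (.slot (nat_lit 1))) (.slot (nat_lit 2))) (.slot (nat_lit 1)) (.slot (nat_lit 1)))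
def w28931 : Root := .mk (.col (nat_lit 0)) (.col (nat_lit 1)) (.node (.node (.slot (nat_lit 0)) (.slot (nat_lit 0)) (.slot (nat_lit 0))) (.slot (nat_lit 1)) (.slot (nat_lit 1))) (.node (.node (.node (.node (.col (nat_lit 0)) (.slot (nat_lit 0)) (.slot (nat_lit 0))) (.col (nat_lit 0)) (.node (.node (.col (nat_lit 2)) (.slot (nat_lit 3)) (.slot (nat_lit 1))) (.slot (nat_lit 5)) (.slot (nat_lit 5)))) (.node (.col (nat_lit 2)) (.slot (nat_lit 6)) (.slot (nat_lit 1))) (.slot (nat_lit 3))) (.slot (nat_lit 1)) (.slot (nat_lit 1)))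
def w28932 : Root := .mk (.col (nat_lit 0)) (.col (nat_lit 1)) (.node (.node (.slot (nat_lit 0)) (.slot (nat_lit 0)) (.slot (nat_lit 0))) (.slot (nat_lit 1)) (.slot (nat_lit 1))) (.node (.node (.node (.node (.col (nat_lit 0)) (.slot (nat_lit 0)) (.slot (nat_lit 0))) (.col (nat_lit 0)) (.node (.node (.col (nat_lit 3)) (.slot (nat_lit 0)) (.slot (nat_lit 0))) (.slot (nat_lit 7)) (.slot (nat_lit 5)))) (.node (.col (nat_lit 2)) (.slot (nat_lit 3)) (.slot (nat_lit 1))) (.slot (nat_lit 2))) (.slot (nat_lit 1)) (.slot (nat_lit 1)))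
def w28933 : Root := .mk (.node (.node (.node (.col (nat_lit 0)) (.col (nat_lit 1)) (.node (.node (.slot (nat_lit 0)) (.slot (nat_lit 0)) (.slot (nat_lit 0))) (.slot (nat_lit 1)) (.slot (nat_lit 1)))) (.slot (nat_lit 1)) (.slot (nat_lit 1))) (.node (.col (nat_lit 2)) (.slot (nat_lit 3)) (.slot (nat_lit 1))) (.col (nat_lit 2))) (.col (nat_lit 2)) (.col (nat_lit 0)) (.node (.node (.slot (nat_lit 0)) (.slot (nat_lit 0)) (.slot (nat_lit 0))) (.slot (nat_lit 2)) (.slot (nat_lit 2)))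
def l6462 : Root := .mk (.node (.node (.node (.col (nat_lit 0)) (.col (nat_lit 1)) (.node (.node (.slot (nat_lit 0)) (.slot (nat_lit 0)) (.slot (nat_lit 0))) (.slot (nat_lit 2)) (.slot (nat_lit 2)))) (.slot (nat_lit 20)) (.slot (nat_lit 9))) (.node (.col (nat_lit 2)) (.slot (nat_lit 7)) (.slot (nat_lit 5))) (.slot (nat_lit 8))) (.col (nat_lit 2)) (.col (nat_lit 0)) (.node (.node (.slot (nat_lit 0)) (.slot (nat_lit 0)) (.slot (nat_lit 0))) (.slot (nat_lit 2)) (.slot (nat_lit 2)))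
def w28934 : Root := .mk (.col (nat_lit 0)) (.col (nat_lit 1)) (.node (.node (.slot (nat_lit 0)) (.slot (nat_lit 0)) (.slot (nat_lit 0))) (.slot (nat_lit 2)) (.slot (nat_lit 2))) (.node (.node (.node (.node (.col (nat_lit 0)) (.slot (nat_lit 0)) (.slot (nat_lit 0))) (.col (nat_lit 0)) (.node (.node (.slot (nat_lit 0)) (.slot (nat_lit 0)) (.slot (nat_lit 0))) (.slot (nat_lit 2)) (.slot (nat_lit 2)))) (.node (.col (nat_lit 2)) (.slot (nat_lit 7)) (.slot (nat_lit 5))) (.slot (nat_lit 8))) (.slot (nat_lit 20)) (.slot (nat_lit 9)))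
def w28935 : Root := .mk (.col (nat_lit 0)) (.col (nat_lit 1)) (.node (.node (.slot (nat_lit 0)) (.slot (nat_lit 0)) (.slot (nat_lit 0))) (.slot (nat_lit 7)) (.slot (nat_lit 5))) (.node (.node (.node (.slot (nat_lit 0)) (.col (nat_lit 0)) (.slot (nat_lit 0))) (.node (.col (nat_lit 2)) (.node (.col (nat_lit 0)) (.slot (nat_lit 9)) (.slot (nat_lit 5))) (.slot (nat_lit 8))) (.slot (nat_lit 8))) (.slot (nat_lit 8)) (.slot (nat_lit 5)))
def l6463 : Root := .mk (.node (.col (nat_lit 0)) (.col (nat_lit 1)) (.node (.node (.slot (nat_lit 0)) (.slot (nat_lit 0)) (.slot (nat_lit 0))) (.slot (nat_lit 1)) (.slot (nat_lit 1)))) (.node (.node (.col (nat_lit 2)) (.col (nat_lit 0)) (.slot (nat_lit 6))) (.node (.col (nat_lit 2)) (.slot (nat_lit 0)) (.slot (nat_lit 1))) (.slot (nat_lit 4))) (.col (nat_lit 0)) (.col (nat_lit 2))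
def w28936 : Root := .mk (.col (nat_lit 0)) (.col (nat_lit 1)) (.node (.node (.slot (nat_lit 0)) (.slot (nat_lit 0)) (.slot (nat_lit 0))) (.slot (nat_lit 1)) (.slot (nat_lit 1))) (.node (.node (.node (.col (nat_lit 2)) (.col (nat_lit 0)) (.slot (nat_lit 6))) (.node (.col (nat_lit 2)) (.slot (nat_lit 0)) (.slot (nat_lit 1))) (.slot (nat_lit 4))) (.col (nat_lit 0)) (.slot (nat_lit 1)))
def l6464 : Root := .mk (.col (nat_lit 0)) (.col (nat_lit 1)) (.node (.node (.slot (nat_lit 0)) (.slot (nat_lit 0)) (.slot (nat_lit 0))) (.slot (nat_lit 1)) (.slot (nat_lit 1))) (.node (.node (.node (.col (nat_lit 2)) (.col (nat_lit 0)) (.slot (nat_lit 6))) (.node (.col (nat_lit 2)) (.node (.col (nat_lit 2)) (.slot (nat_lit 0)) (.slot (nat_lit 0))) (.slot (nat_lit 6))) (.slot (nat_lit 8))) (.slot (nat_lit 8)) (.slot (nat_lit 8)))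
def w28937 : Root := .mk (.col (nat_lit 0)) (.col (nat_lit 1)) (.node (.node (.slot (nat_lit 0)) (.slot (nat_lit 0)) (.slot (nat_lit 0))) (.slot (nat_lit 1)) (.slot (nat_lit 1))) (.node (.node (.node (.node (.col (nat_lit 0)) (.slot (nat_lit 0)) (.slot (nat_lit 0))) (.col (nat_lit 0)) (.slot (nat_lit 6))) (.node (.col (nat_lit 2)) (.node (.col (nat_lit 2)) (.slot (nat_lit 0)) (.slot (nat_lit 0))) (.slot (nat_lit 6))) (.slot (nat_lit 8))) (.slot (nat_lit 8)) (.slot (nat_lit 8)))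
def l6465 : Root := .mk (.col (nat_lit 0)) (.col (nat_lit 1)) (.node (.node (.slot (nat_lit 0)) (.slot (nat_lit 0)) (.slot (nat_lit 0))) (.slot (nat_lit 1)) (.slot (nat_lit 1))) (.node (.node (.node (.col (nat_lit 2)) (.col (nat_lit 0)) (.slot (nat_lit 6))) (.node (.col (nat_lit 2)) (.node (.slot (nat_lit 0)) (.slot (nat_lit 1)) (.slot (nat_lit 1))) (.slot (nat_lit 6))) (.slot (nat_lit 8))) (.slot (nat_lit 8)) (.slot (nat_lit 8)))
def w28938 : Root := .mk (.col (nat_lit 0)) (.col (nat_lit 1)) (.node (.node (.slot (nat_lit 0)) (.slot (nat_lit 0)) (.slot (nat_lit 0))) (.slot (nat_lit 1)) (.slot (nat_lit 1))) (.node (.node (.node (.node (.col (nat_lit 0)) (.slot (nat_lit 0)) (.slot (nat_lit 0))) (.col (nat_lit 0)) (.slot (nat_lit 6))) (.node (.col (nat_lit 2)) (.node (.slot (nat_lit 0)) (.slot (nat_lit 1)) (.slot (nat_lit 1))) (.slot (nat_lit 6))) (.slot (nat_lit 8))) (.slot (nat_lit 8)) (.slot (nat_lit 8)))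
def w28939 : Root := .mk (.node (.node (.node (.col (nat_lit 0)) (.col (nat_lit 1)) (.node (.slot (nat_lit 0)) (.col (nat_lit 0)) (.slot (nat_lit 0)))) (.col (nat_lit 2)) (.slot (nat_lit 2))) (.node (.slot (nat_lit 0)) (.col (nat_lit 0)) (.slot (nat_lit 0))) (.node (.col (nat_lit 1)) (.slot (nat_lit 0)) (.slot (nat_lit 0)))) (.col (nat_lit 2)) (.col (nat_lit 3)) (.col (nat_lit 0))
def l6466 : Root := .mk (.node (.node (.node (.col (nat_lit 0)) (.col (nat_lit 1)) .junk) (.col (nat_lit 2)) (.slot (nat_lit 1))) (.col (nat_lit 1)) (.node (.col (nat_lit 1)) (.slot (nat_lit 0)) (.slot (nat_lit 0)))) (.col (nat_lit 2)) (.col (nat_lit 3)) (.col (nat_lit 4))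
def w28940 : Root := .mk (.node (.node (.node (.col (nat_lit 0)) (.col (nat_lit 1)) .junk) (.col (nat_lit 2)) (.slot (nat_lit 1))) (.node (.slot (nat_lit 0)) (.col (nat_lit 0)) (.slot (nat_lit 0))) (.node (.col (nat_lit 1)) (.slot (nat_lit 0)) (.slot (nat_lit 0)))) (.col (nat_lit 2)) (.col (nat_lit 3)) (.col (nat_lit 4))
def l6467 : Root := .mk (.col (nat_lit 4)) (.node (.node (.slot (nat_lit 0)) (.col (nat_lit 0)) (.slot (nat_lit 0))) (.node (.col (nat_lit 2)) (.col (nat_lit 3)) (.slot (nat_lit 21))) (.node (.col (nat_lit 1)) (.slot (nat_lit 1)) (.slot (nat_lit 1)))) (.col (nat_lit 2)) (.node (.col (nat_lit 0)) (.slot (nat_lit 20)) (.slot (nat_lit 9)))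
def w28941 : Root := .mk (.col (nat_lit 4)) (.node (.node (.slot (nat_lit 0)) (.col (nat_lit 0)) (.slot (nat_lit 0))) (.node (.col (nat_lit 2)) (.col (nat_lit 3)) (.slot (nat_lit 21))) (.node (.col (nat_lit 1)) (.slot (nat_lit 1)) (.slot (nat_lit 1)))) (.col (nat_lit 2)) (.slot (nat_lit 21))
def l6468 : Root := .mk (.node (.node (.node (.col (nat_lit 0)) (.col (nat_lit 1)) (.node (.slot (nat_lit 0)) (.col (nat_lit 0)) (.slot (nat_lit 0)))) (.col (nat_lit 2)) (.col (nat_lit 1))) (.node (.slot (nat_lit 0)) (.col (nat_lit 0)) (.slot (nat_lit 0))) (.node (.col (nat_lit 1)) (.slot (nat_lit 6)) (.slot (nat_lit 1)))) (.col (nat_lit 2)) (.col (nat_lit 3)) (.col (nat_lit 1))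
def w28942 : Root := .mk (.node (.col (nat_lit 0)) (.col (nat_lit 1)) (.node (.slot (nat_lit 0)) (.col (nat_lit 0)) (.slot (nat_lit 0)))) (.node (.node (.slot (nat_lit 0)) (.col (nat_lit 0)) (.slot (nat_lit 0))) (.node (.col (nat_lit 2)) (.col (nat_lit 3)) (.slot (nat_lit 1))) (.node (.col (nat_lit 1)) (.slot (nat_lit 6)) (.slot (nat_lit 1)))) (.col (nat_lit 2)) (.col (nat_lit 1))
def l6469 : Root := .mk (.col (nat_lit 0)) (.col (nat_lit 1)) (.slot (nat_lit 0)) (.node (.node (.col (nat_lit 1)) (.node (.col (nat_lit 2)) (.col (nat_lit 3)) (.slot (nat_lit 5))) (.node (.col (nat_lit 1)) (.slot (nat_lit 0)) (.slot (nat_lit 0)))) (.col (nat_lit 2)) (.node (.col (nat_lit 2)) (.slot (nat_lit 0)) (.slot (nat_lit 0))))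
def w28943 : Root := .mk (.col (nat_lit 0)) (.col (nat_lit 1)) (.slot (nat_lit 0)) (.node (.node (.node (.slot (nat_lit 0)) (.col (nat_lit 0)) (.slot (nat_lit 0))) (.node (.col (nat_lit 2)) (.col (nat_lit 3)) (.slot (nat_lit 5))) (.node (.col (nat_lit 1)) (.slot (nat_lit 0)) (.slot (nat_lit 0)))) (.col (nat_lit 2)) (.node (.col (nat_lit 2)) (.slot (nat_lit 0)) (.slot (nat_lit 0))))
def l6470 : Root := .mk (.col (nat_lit 0)) (.col (nat_lit 1)) (.node (.slot (nat_lit 0)) (.col (nat_lit 0)) (.slot (nat_lit 0))) (.node (.node (.col (nat_lit 1)) (.node (.col (nat_lit 2)) (.col (nat_lit 3)) (.slot (nat_lit 5))) (.node (.col (nat_lit 1)) (.slot (nat_lit 0)) (.slot (nat_lit 0)))) (.col (nat_lit 2)) (.node (.col (nat_lit 3)) (.slot (nat_lit 0)) (.slot (nat_lit 0))))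
def w28944 : Root := .mk (.col (nat_lit 0)) (.col (nat_lit 1)) (.node (.slot (nat_lit 0)) (.col (nat_lit 0)) (.slot (nat_lit 0))) (.node (.node (.node (.slot (nat_lit 0)) (.col (nat_lit 0)) (.slot (nat_lit 0))) (.node (.col (nat_lit 2)) (.col (nat_lit 3)) (.slot (nat_lit 5))) (.node (.col (nat_lit 1)) (.slot (nat_lit 0)) (.slot (nat_lit 0)))) (.col (nat_lit 2)) (.node (.col (nat_lit 3)) (.slot (nat_lit 0)) (.slot (nat_lit 0))))
def l6471 : Root := .mk (.col (nat_lit 0)) (.col (nat_lit 1)) (.node (.slot (nat_lit 0)) (.col (nat_lit 0)) (.slot (nat_lit 0))) (.node (.node (.col (nat_lit 1)) (.node (.col (nat_lit 2)) (.col (nat_lit 3)) (.slot (nat_lit 5))) (.node (.col (nat_lit 1)) (.slot (nat_lit 0)) (.slot (nat_lit 0)))) (.col (nat_lit 2)) (.node (.col (nat_lit 4)) (.slot (nat_lit 0)) (.slot (nat_lit 0))))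
def w28945 : Root := .mk (.col (nat_lit 0)) (.col (nat_lit 1)) (.node (.slot (nat_lit 0)) (.col (nat_lit 0)) (.slot (nat_lit 0))) (.node (.node (.node (.slot (nat_lit 0)) (.col (nat_lit 0)) (.slot (nat_lit 0))) (.node (.col (nat_lit 2)) (.col (nat_lit 3)) (.slot (nat_lit 5))) (.node (.col (nat_lit 1)) (.slot (nat_lit 0)) (.slot (nat_lit 0)))) (.col (nat_lit 2)) (.node (.col (nat_lit 4)) (.slot (nat_lit 0)) (.slot (nat_lit 0))))
def w28946 : Root := .mk (.node (.node (.node (.col (nat_lit 0)) (.col (nat_lit 1)) .junk) (.col (nat_lit 2)) (.slot (nat_lit 1))) (.node (.col (nat_lit 2)) (.col (nat_lit 3)) (.slot (nat_lit 0))) (.node (.col (nat_lit 1)) (.slot (nat_lit 1)) (.slot (nat_lit 0)))) (.col (nat_lit 1)) (.col (nat_lit 0)) (.slot (nat_lit 1))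
def w28947 : Root := .mk (.col (nat_lit 0)) (.col (nat_lit 1)) (.node (.slot (nat_lit 0)) (.col (nat_lit 0)) (.slot (nat_lit 0))) (.node (.node (.node (.col (nat_lit 4)) (.col (nat_lit 0)) (.slot (nat_lit 0))) (.node (.col (nat_lit 2)) (.col (nat_lit 3)) (.slot (nat_lit 0))) (.node (.col (nat_lit 1)) (.slot (nat_lit 0)) (.slot (nat_lit 0)))) (.col (nat_lit 2)) (.slot (nat_lit 1)))
def w28948 : Root := .mk (.node (.node (.node (.col (nat_lit 0)) (.col (nat_lit 1)) .junk) (.col (nat_lit 2)) (.slot (nat_lit 1))) (.node (.col (nat_lit 2)) (.col (nat_lit 3)) (.slot (nat_lit 0))) (.node (.col (nat_lit 1)) (.slot (nat_lit 1)) (.slot (nat_lit 0)))) (.node (.col (nat_lit 0)) (.slot (nat_lit 0)) (.slot (nat_lit 0))) (.col (nat_lit 0)) (.col (nat_lit 1))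
def w28949 : Root := .mk (.node (.node (.node (.col (nat_lit 0)) (.col (nat_lit 1)) (.node (.slot (nat_lit 0)) (.col (nat_lit 0)) (.slot (nat_lit 0)))) (.col (nat_lit 2)) (.slot (nat_lit 1))) (.node (.col (nat_lit 2)) (.col (nat_lit 3)) (.slot (nat_lit 0))) (.node (.col (nat_lit 1)) (.slot (nat_lit 0)) (.slot (nat_lit 0)))) (.slot (nat_lit 0)) (.col (nat_lit 0)) (.col (nat_lit 2))
def w28950 : Root := .mk (.node (.node (.node (.col (nat_lit 0)) (.col (nat_lit 1)) (.node (.slot (nat_lit 0)) (.col (nat_lit 0)) (.slot (nat_lit 0)))) (.col (nat_lit 2)) (.slot (nat_lit 1))) (.node (.col (nat_lit 2)) (.col (nat_lit 3)) (.slot (nat_lit 0))) (.node (.col (nat_lit 1)) (.slot (nat_lit 0)) (.slot (nat_lit 0)))) (.slot (nat_lit 0)) (.col (nat_lit 0)) (.col (nat_lit 3))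
def w28951 : Root := .mk (.col (nat_lit 0)) (.col (nat_lit 1)) (.node (.slot (nat_lit 0)) (.col (nat_lit 0)) (.slot (nat_lit 0))) (.node (.node (.node (.slot (nat_lit 0)) (.col (nat_lit 0)) (.slot (nat_lit 0))) (.node (.col (nat_lit 2)) (.col (nat_lit 3)) (.slot (nat_lit 0))) (.node (.col (nat_lit 1)) (.col (nat_lit 3)) (.slot (nat_lit 0)))) (.col (nat_lit 2)) (.slot (nat_lit 1)))
def w28952 : Root := .mk (.col (nat_lit 0)) (.col (nat_lit 1)) (.node (.slot (nat_lit 0)) (.col (nat_lit 0)) (.slot (nat_lit 0))) (.node (.node (.node (.slot (nat_lit 0)) (.col (nat_lit 0)) (.slot (nat_lit 0))) (.node (.col (nat_lit 2)) (.col (nat_lit 3)) (.slot (nat_lit 0))) (.node (.col (nat_lit 1)) (.col (nat_lit 4)) (.slot (nat_lit 0)))) (.col (nat_lit 2)) (.slot (nat_lit 1)))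
def l6472 : Root := .mk (.col (nat_lit 0)) (.col (nat_lit 1)) (.slot (nat_lit 0)) (.node (.node (.col (nat_lit 1)) (.node (.col (nat_lit 2)) (.col (nat_lit 3)) (.slot (nat_lit 5))) (.node (.col (nat_lit 1)) (.slot (nat_lit 0)) (.slot (nat_lit 0)))) (.col (nat_lit 2)) (.slot (nat_lit 1)))
def w28953 : Root := .mk (.col (nat_lit 0)) (.col (nat_lit 1)) (.slot (nat_lit 0)) (.node (.node (.node (.slot (nat_lit 0)) (.col (nat_lit 0)) (.slot (nat_lit 0))) (.node (.col (nat_lit 2)) (.col (nat_lit 3)) (.slot (nat_lit 5))) (.node (.col (nat_lit 1)) (.slot (nat_lit 0)) (.slot (nat_lit 0)))) (.col (nat_lit 2)) (.slot (nat_lit 1)))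
def l6473 : Root := .mk (.col (nat_lit 0)) (.col (nat_lit 1)) (.node (.slot (nat_lit 0)) (.col (nat_lit 0)) (.slot (nat_lit 0))) (.node (.node (.node (.node (.col (nat_lit 0)) (.slot (nat_lit 0)) (.slot (nat_lit 0))) (.col (nat_lit 0)) (.slot (nat_lit 21))) (.node (.col (nat_lit 2)) (.col (nat_lit 3)) (.slot (nat_lit 21))) (.node (.col (nat_lit 1)) (.slot (nat_lit 6)) (.slot (nat_lit 2)))) (.col (nat_lit 2)) (.slot (nat_lit 21)))
def w28954 : Root := .mk (.col (nat_lit 0)) (.col (nat_lit 1)) (.node (.slot (nat_lit 0)) (.col (nat_lit 0)) (.slot (nat_lit 0))) (.node (.node (.node (.node (.col (nat_lit 0)) (.slot (nat_lit 0)) (.slot (nat_lit 0))) (.col (nat_lit 0)) (.slot (nat_lit 21))) (.node (.col (nat_lit 2)) (.slot (nat_lit 1)) (.slot (nat_lit 21))) (.node (.col (nat_lit 1)) (.slot (nat_lit 6)) (.slot (nat_lit 2)))) (.col (nat_lit 2)) (.slot (nat_lit 21)))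
def l6474 : Root := .mk (.col (nat_lit 0)) (.col (nat_lit 1)) (.node (.node (.slot (nat_lit 0)) (.slot (nat_lit 0)) (.slot (nat_lit 0))) (.col (nat_lit 0)) (.slot (nat_lit 5))) (.node (.node (.node (.node (.col (nat_lit 0)) (.slot (nat_lit 0)) (.slot (nat_lit 0))) (.col (nat_lit 0)) (.slot (nat_lit 21))) (.node (.col (nat_lit 2)) (.slot (nat_lit 21)) (.slot (nat_lit 5))) (.slot (nat_lit 8))) (.col (nat_lit 2)) (.slot (nat_lit 21)))
def w28955 : Root := .mk (.col (nat_lit 0)) (.col (nat_lit 1)) (.node (.node (.slot (nat_lit 0)) (.slot (nat_lit 0)) (.slot (nat_lit 0))) (.col (nat_lit 0)) (.slot (nat_lit 5))) (.node (.node (.node (.node (.col (nat_lit 0)) (.slot (nat_lit 0)) (.slot (nat_lit 0))) (.col (nat_lit 0)) (.slot (nat_lit 21))) (.node (.col (nat_lit 2)) (.slot (nat_lit 21)) (.slot (nat_lit 5))) (.slot (nat_lit 8))) (.slot (nat_lit 1)) (.slot (nat_lit 21)))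
def w28956 : Root := .mk (.node (.node (.node (.col (nat_lit 0)) (.col (nat_lit 1)) (.node (.slot (nat_lit 0)) (.col (nat_lit 1)) (.slot (nat_lit 0)))) (.col (nat_lit 2)) (.slot (nat_lit 2))) (.node (.slot (nat_lit 0)) (.col (nat_lit 0)) (.slot (nat_lit 0))) (.node (.col (nat_lit 1)) (.slot (nat_lit 0)) (.slot (nat_lit 0)))) (.col (nat_lit 2)) (.col (nat_lit 3)) (.col (nat_lit 0))
def l6475 : Root := .mk (.node (.node (.node (.col (nat_lit 0)) (.col (nat_lit 1)) (.node (.slot (nat_lit 0)) (.col (nat_lit 1)) (.slot (nat_lit 0)))) (.col (nat_lit 2)) (.col (nat_lit 0))) (.node (.slot (nat_lit 0)) (.col (nat_lit 0)) (.slot (nat_lit 1))) (.node (.col (nat_lit 1)) (.slot (nat_lit 0)) (.slot (nat_lit 0)))) (.col (nat_lit 2)) (.col (nat_lit 3)) (.col (nat_lit 0))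
def w28957 : Root := .mk (.node (.col (nat_lit 0)) (.col (nat_lit 1)) (.node (.slot (nat_lit 0)) (.col (nat_lit 1)) (.slot (nat_lit 0)))) (.node (.node (.slot (nat_lit 0)) (.col (nat_lit 0)) (.slot (nat_lit 1))) (.node (.col (nat_lit 2)) (.col (nat_lit 3)) (.slot (nat_lit 1))) (.node (.col (nat_lit 1)) (.slot (nat_lit 0)) (.slot (nat_lit 0)))) (.col (nat_lit 2)) (.col (nat_lit 0))
def w28958 : Root := .mk (.node (.node (.node (.col (nat_lit 0)) (.col (nat_lit 1)) (.slot (nat_lit 0))) (.col (nat_lit 2)) (.slot (nat_lit 1))) (.node (.col (nat_lit 2)) (.col (nat_lit 3)) (.slot (nat_lit 5))) (.node (.col (nat_lit 1)) (.slot (nat_lit 0)) (.slot (nat_lit 0)))) (.slot (nat_lit 0)) (.col (nat_lit 0)) (.col (nat_lit 2))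
def l6476 : Root := .mk (.col (nat_lit 0)) (.col (nat_lit 1)) (.node (.slot (nat_lit 0)) (.col (nat_lit 1)) (.slot (nat_lit 0))) (.node (.node (.node (.node (.col (nat_lit 0)) (.slot (nat_lit 0)) (.slot (nat_lit 0))) (.col (nat_lit 0)) (.slot (nat_lit 2))) (.node (.col (nat_lit 2)) (.col (nat_lit 3)) (.slot (nat_lit 21))) (.node (.col (nat_lit 1)) (.slot (nat_lit 1)) (.slot (nat_lit 1)))) (.col (nat_lit 2)) (.slot (nat_lit 21)))
def w28959 : Root := .mk (.col (nat_lit 0)) (.col (nat_lit 1)) (.node (.slot (nat_lit 0)) (.col (nat_lit 1)) (.slot (nat_lit 0))) (.node (.node (.node (.node (.col (nat_lit 0)) (.slot (nat_lit 0)) (.slot (nat_lit 0))) (.col (nat_lit 0)) (.slot (nat_lit 2))) (.node (.col (nat_lit 2)) (.slot (nat_lit 1)) (.slot (nat_lit 21))) (.node (.col (nat_lit 1)) (.slot (nat_lit 1)) (.slot (nat_lit 1)))) (.col (nat_lit 2)) (.slot (nat_lit 21)))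
def w28960 : Root := .mk (.col (nat_lit 0)) (.col (nat_lit 1)) (.node (.slot (nat_lit 0)) (.col (nat_lit 1)) (.slot (nat_lit 0))) (.node (.node (.node (.slot (nat_lit 0)) (.col (nat_lit 0)) (.slot (nat_lit 0))) (.node (.col (nat_lit 2)) (.slot (nat_lit 1)) (.slot (nat_lit 1))) (.node (.col (nat_lit 3)) (.slot (nat_lit 1)) (.slot (nat_lit 0)))) (.col (nat_lit 2)) (.slot (nat_lit 1)))
def w28961 : Root := .mk (.node (.col (nat_lit 0)) (.col (nat_lit 1)) (.node (.node (.node (.slot (nat_lit 0)) (.col (nat_lit 0)) (.slot (nat_lit 0))) (.node (.col (nat_lit 2)) (.slot (nat_lit 1)) (.slot (nat_lit 1))) (.node (.slot (nat_lit 0)) (.slot (nat_lit 0)) (.slot (nat_lit 0)))) (.col (nat_lit 2)) (.slot (nat_lit 3)))) (.col (nat_lit 2)) (.col (nat_lit 1)) (.col (nat_lit 0))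
def l6477 : Root := .mk (.col (nat_lit 0)) (.col (nat_lit 1)) (.node (.col (nat_lit 2)) (.col (nat_lit 1)) (.slot (nat_lit 5))) (.node (.node (.node (.slot (nat_lit 0)) (.col (nat_lit 0)) (.slot (nat_lit 0))) (.node (.col (nat_lit 2)) (.slot (nat_lit 3)) (.slot (nat_lit 1))) (.node (.slot (nat_lit 0)) (.slot (nat_lit 0)) (.slot (nat_lit 0)))) (.col (nat_lit 2)) (.slot (nat_lit 4)))
def w28962 : Root := .mk (.col (nat_lit 0)) (.col (nat_lit 1)) (.node (.node (.slot (nat_lit 0)) (.slot (nat_lit 0)) (.slot (nat_lit 0))) (.col (nat_lit 1)) (.slot (nat_lit 5))) (.node (.node (.node (.slot (nat_lit 0)) (.col (nat_lit 0)) (.slot (nat_lit 0))) (.node (.col (nat_lit 2)) (.slot (nat_lit 3)) (.slot (nat_lit 1))) (.node (.slot (nat_lit 0)) (.slot (nat_lit 0)) (.slot (nat_lit 0)))) (.col (nat_lit 2)) (.slot (nat_lit 4)))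
def w28963 : Root := .mk (.col (nat_lit 0)) (.col (nat_lit 1)) (.node (.node (.slot (nat_lit 0)) (.slot (nat_lit 0)) (.slot (nat_lit 0))) (.col (nat_lit 1)) (.slot (nat_lit 5))) (.node (.node (.node (.node (.col (nat_lit 0)) (.slot (nat_lit 0)) (.slot (nat_lit 0))) (.col (nat_lit 0)) (.slot (nat_lit 2))) (.node (.col (nat_lit 2)) (.slot (nat_lit 0)) (.slot (nat_lit 0))) (.slot (nat_lit 2))) (.col (nat_lit 2)) (.slot (nat_lit 3)))
def l6478 : Root := .mk (.col (nat_lit 0)) (.col (nat_lit 1)) (.node (.node (.slot (nat_lit 0)) (.slot (nat_lit 0)) (.slot (nat_lit 0))) (.col (nat_lit 1)) (.slot (nat_lit 5))) (.node (.node (.node (.node (.col (nat_lit 0)) (.slot (nat_lit 3)) (.slot (nat_lit 1))) (.col (nat_lit 0)) (.slot (nat_lit 6))) (.node (.col (nat_lit 2)) (.slot (nat_lit 21)) (.slot (nat_lit 8))) (.slot (nat_lit 8))) (.col (nat_lit 2)) (.slot (nat_lit 21)))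
def w28964 : Root := .mk (.col (nat_lit 0)) (.col (nat_lit 1)) (.node (.node (.slot (nat_lit 0)) (.slot (nat_lit 0)) (.slot (nat_lit 0))) (.col (nat_lit 1)) (.slot (nat_lit 5))) (.node (.node (.node (.node (.col (nat_lit 0)) (.slot (nat_lit 3)) (.slot (nat_lit 1))) (.col (nat_lit 0)) (.slot (nat_lit 6))) (.node (.col (nat_lit 2)) (.slot (nat_lit 21)) (.slot (nat_lit 8))) (.slot (nat_lit 8))) (.slot (nat_lit 1)) (.slot (nat_lit 21)))
def l6479 : Root := .mk (.col (nat_lit 0)) (.col (nat_lit 1)) (.node (.node (.slot (nat_lit 0)) (.col (nat_lit 0)) (.slot (nat_lit 0))) (.slot (nat_lit 20)) (.slot (nat_lit 9))) (.node (.node (.col (nat_lit 1)) (.node (.col (nat_lit 2)) (.slot (nat_lit 8)) (.slot (nat_lit 5))) (.slot (nat_lit 21))) (.slot (nat_lit 20)) (.slot (nat_lit 12)))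
def w28965 : Root := .mk (.col (nat_lit 0)) (.col (nat_lit 1)) (.node (.node (.slot (nat_lit 0)) (.col (nat_lit 0)) (.slot (nat_lit 0))) (.slot (nat_lit 20)) (.slot (nat_lit 9))) (.node (.node (.node (.slot (nat_lit 0)) (.col (nat_lit 0)) (.slot (nat_lit 0))) (.node (.col (nat_lit 2)) (.slot (nat_lit 8)) (.slot (nat_lit 5))) (.slot (nat_lit 21))) (.slot (nat_lit 20)) (.slot (nat_lit 12)))
def w28966 : Root := .mk (.col (nat_lit 0)) (.col (nat_lit 1)) (.node (.node (.slot (nat_lit 0)) (.col (nat_lit 1)) (.slot (nat_lit 0))) (.slot (nat_lit 20)) (.slot (nat_lit 9))) (.node (.node (.node (.slot (nat_lit 0)) (.col (nat_lit 0)) (.slot (nat_lit 0))) (.node (.col (nat_lit 2)) (.slot (nat_lit 8)) (.slot (nat_lit 5))) (.slot (nat_lit 21))) (.slot (nat_lit 20)) (.slot (nat_lit 12)))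
def l6480 : Root := .mk (.col (nat_lit 0)) (.col (nat_lit 1)) (.node (.node (.slot (nat_lit 0)) (.col (nat_lit 3)) (.slot (nat_lit 0))) (.slot (nat_lit 20)) (.slot (nat_lit 9))) (.node (.node (.node (.col (nat_lit 2)) (.col (nat_lit 0)) (.slot (nat_lit 8))) (.node (.col (nat_lit 2)) (.slot (nat_lit 7)) (.slot (nat_lit 5))) (.slot (nat_lit 8))) (.slot (nat_lit 9)) (.slot (nat_lit 20)))
def w28967 : Root := .mk (.col (nat_lit 0)) (.col (nat_lit 1)) (.node (.node (.slot (nat_lit 0)) (.col (nat_lit 3)) (.slot (nat_lit 0))) (.slot (nat_lit 20)) (.slot (nat_lit 9))) (.node (.node (.node (.node (.col (nat_lit 0)) (.slot (nat_lit 0)) (.slot (nat_lit 0))) (.col (nat_lit 0)) (.slot (nat_lit 8))) (.node (.col (nat_lit 2)) (.slot (nat_lit 7)) (.slot (nat_lit 5))) (.slot (nat_lit 8))) (.slot (nat_lit 20)) (.slot (nat_lit 9)))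
def l6481 : Root := .mk (.col (nat_lit 0)) (.col (nat_lit 1)) (.node (.node (.slot (nat_lit 0)) (.slot (nat_lit 3)) (.slot (nat_lit 2))) (.slot (nat_lit 20)) (.slot (nat_lit 12))) (.node (.node (.node (.node (.col (nat_lit 0)) (.slot (nat_lit 21)) (.slot (nat_lit 21))) (.col (nat_lit 0)) (.slot (nat_lit 21))) (.node (.col (nat_lit 2)) (.slot (nat_lit 22)) (.slot (nat_lit 21))) (.slot (nat_lit 23))) (.slot (nat_lit 22)) (.slot (nat_lit 21)))
def w28968 : Root := .mk (.col (nat_lit 0)) (.col (nat_lit 1)) (.node (.node (.slot (nat_lit 0)) (.slot (nat_lit 3)) (.slot (nat_lit 2))) (.slot (nat_lit 20)) (.slot (nat_lit 12))) (.node (.node (.node (.node (.col (nat_lit 0)) (.slot (nat_lit 21)) (.slot (nat_lit 21))) (.col (nat_lit 0)) (.slot (nat_lit 21))) (.slot (nat_lit 23)) (.slot (nat_lit 23))) (.slot (nat_lit 22)) (.slot (nat_lit 21)))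
def w28969 : Root := .mk (.col (nat_lit 0)) (.col (nat_lit 1)) (.node (.node (.slot (nat_lit 0)) (.slot (nat_lit 0)) (.slot (nat_lit 0))) (.slot (nat_lit 2)) (.slot (nat_lit 2))) (.node (.node (.node (.node (.col (nat_lit 0)) (.slot (nat_lit 1)) (.slot (nat_lit 1))) (.node (.col (nat_lit 0)) (.slot (nat_lit 1)) (.slot (nat_lit 1))) (.slot (nat_lit 1))) (.slot (nat_lit 3)) (.slot (nat_lit 1))) (.slot (nat_lit 8)) (.slot (nat_lit 1)))
def l6482 : Root := .mk (.col (nat_lit 0)) (.col (nat_lit 1)) (.node (.node (.slot (nat_lit 0)) (.slot (nat_lit 0)) (.slot (nat_lit 0))) (.slot (nat_lit 1)) (.slot (nat_lit 1))) (.node (.node (.node (.node (.col (nat_lit 0)) (.col (nat_lit 1)) (.node (.col (nat_lit 0)) (.slot (nat_lit 0)) (.slot (nat_lit 0)))) (.col (nat_lit 2)) (.node (.col (nat_lit 2)) (.slot (nat_lit 0)) (.slot (nat_lit 0)))) (.col (nat_lit 0)) (.slot (nat_lit 21))) (.slot (nat_lit 20)) (.slot (nat_lit 12)))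
def w28970 : Root := .mk (.node (.node (.node (.node (.col (nat_lit 0)) (.col (nat_lit 1)) (.node (.node (.slot (nat_lit 0)) (.slot (nat_lit 0)) (.slot (nat_lit 0))) (.slot (nat_lit 1)) (.slot (nat_lit 1)))) (.slot (nat_lit 20)) (.slot (nat_lit 12))) (.slot (nat_lit 1)) (.slot (nat_lit 21))) (.col (nat_lit 2)) (.node (.col (nat_lit 2)) (.slot (nat_lit 0)) (.slot (nat_lit 0)))) (.col (nat_lit 0)) (.col (nat_lit 1)) (.node (.col (nat_lit 0)) (.slot (nat_lit 0)) (.slot (nat_lit 0)))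
def l6483 : Root := .mk (.col (nat_lit 0)) (.col (nat_lit 1)) (.node (.col (nat_lit 3)) (.slot (nat_lit 20)) (.slot (nat_lit 9))) (.node (.node (.node (.node (.col (nat_lit 0)) (.col (nat_lit 1)) (.node (.col (nat_lit 0)) (.slot (nat_lit 0)) (.slot (nat_lit 0)))) (.col (nat_lit 2)) (.slot (nat_lit 1))) (.col (nat_lit 2)) (.slot (nat_lit 2))) (.slot (nat_lit 20)) (.slot (nat_lit 9)))
def w28971 : Root := .mk (.col (nat_lit 0)) (.col (nat_lit 1)) (.node (.node (.slot (nat_lit 0)) (.slot (nat_lit 0)) (.slot (nat_lit 0))) (.slot (nat_lit 20)) (.slot (nat_lit 9))) (.node (.node (.node (.node (.col (nat_lit 0)) (.col (nat_lit 1)) (.node (.col (nat_lit 0)) (.slot (nat_lit 0)) (.slot (nat_lit 0)))) (.col (nat_lit 2)) (.slot (nat_lit 1))) (.col (nat_lit 2)) (.slot (nat_lit 2))) (.slot (nat_lit 20)) (.slot (nat_lit 9)))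
def w28972 : Root := .mk (.node (.node (.node (.node (.col (nat_lit 0)) .junk (.col (nat_lit 2))) (.col (nat_lit 1)) (.slot (nat_lit 1))) (.slot (nat_lit 1)) (.slot (nat_lit 1))) (.col (nat_lit 2)) (.slot (nat_lit 2))) (.col (nat_lit 0)) (.col (nat_lit 1)) (.node (.col (nat_lit 0)) (.slot (nat_lit 0)) (.slot (nat_lit 0)))
def w28973 : Root := .mk (.node (.node (.node (.node (.col (nat_lit 0)) .junk (.col (nat_lit 4))) (.col (nat_lit 1)) (.slot (nat_lit 1))) (.slot (nat_lit 1)) (.slot (nat_lit 1))) (.col (nat_lit 2)) (.slot (nat_lit 2))) (.col (nat_lit 0)) (.col (nat_lit 1)) (.node (.col (nat_lit 0)) (.slot (nat_lit 0)) (.slot (nat_lit 0)))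
def w28974 : Root := .mk (.col (nat_lit 0)) (.col (nat_lit 1)) (.node (.col (nat_lit 3)) (.node (.slot (nat_lit 0)) (.slot (nat_lit 0)) (.slot (nat_lit 0))) .junk) (.node (.node (.node (.node (.col (nat_lit 0)) (.col (nat_lit 1)) .junk) (.col (nat_lit 2)) (.slot (nat_lit 1))) (.slot (nat_lit 1)) (.slot (nat_lit 1))) (.col (nat_lit 1)) (.slot (nat_lit 2)))
def l6484 : Root := .mk (.col (nat_lit 0)) (.col (nat_lit 1)) (.node (.col (nat_lit 3)) (.slot (nat_lit 20)) (.slot (nat_lit 9))) (.node (.node (.node (.node (.col (nat_lit 0)) (.col (nat_lit 1)) (.node (.col (nat_lit 0)) (.slot (nat_lit 0)) (.slot (nat_lit 0)))) (.col (nat_lit 2)) (.slot (nat_lit 2))) (.slot (nat_lit 1)) (.slot (nat_lit 1))) (.col (nat_lit 1)) (.slot (nat_lit 5)))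
def w28975 : Root := .mk (.col (nat_lit 0)) (.col (nat_lit 1)) (.node (.node (.slot (nat_lit 0)) (.slot (nat_lit 0)) (.slot (nat_lit 0))) (.slot (nat_lit 20)) (.slot (nat_lit 9))) (.node (.node (.node (.node (.col (nat_lit 0)) (.col (nat_lit 1)) (.node (.col (nat_lit 0)) (.slot (nat_lit 0)) (.slot (nat_lit 0)))) (.col (nat_lit 2)) (.slot (nat_lit 2))) (.slot (nat_lit 1)) (.slot (nat_lit 1))) (.col (nat_lit 1)) (.slot (nat_lit 5)))
def l6485 : Root := .mk (.node (.node (.node (.node (.col (nat_lit 0)) (.col (nat_lit 1)) (.node (.node (.slot (nat_lit 0)) (.slot (nat_lit 0)) (.slot (nat_lit 0))) (.slot (nat_lit 20)) (.slot (nat_lit 9)))) (.slot (nat_lit 20)) (.slot (nat_lit 12))) (.slot (nat_lit 21)) (.slot (nat_lit 9))) (.col (nat_lit 2)) (.slot (nat_lit 9))) (.col (nat_lit 0)) (.col (nat_lit 1)) (.node (.col (nat_lit 0)) (.slot (nat_lit 4)) (.slot (nat_lit 1)))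
def w28976 : Root := .mk (.node (.node (.node (.node (.col (nat_lit 0)) (.col (nat_lit 1)) (.node (.node (.slot (nat_lit 0)) (.slot (nat_lit 0)) (.slot (nat_lit 0))) (.slot (nat_lit 20)) (.slot (nat_lit 9)))) (.slot (nat_lit 20)) (.slot (nat_lit 12))) (.slot (nat_lit 21)) (.slot (nat_lit 9))) (.node (.col (nat_lit 1)) (.slot (nat_lit 0)) (.slot (nat_lit 0))) (.slot (nat_lit 9))) (.col (nat_lit 0)) (.col (nat_lit 1)) (.node (.col (nat_lit 0)) (.slot (nat_lit 4)) (.slot (nat_lit 1)))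
def w28977 : Root := .mk (.node (.node (.node (.node (.col (nat_lit 0)) (.col (nat_lit 1)) (.node (.node (.slot (nat_lit 0)) (.slot (nat_lit 0)) (.slot (nat_lit 0))) (.slot (nat_lit 20)) (.slot (nat_lit 9)))) (.slot (nat_lit 20)) (.slot (nat_lit 12))) (.slot (nat_lit 21)) (.slot (nat_lit 9))) (.node (.col (nat_lit 1)) (.slot (nat_lit 0)) (.slot (nat_lit 0))) (.slot (nat_lit 9))) (.col (nat_lit 0)) (.col (nat_lit 1)) (.node (.col (nat_lit 1)) (.slot (nat_lit 4)) (.slot (nat_lit 1)))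
def l6486 : Root := .mk (.node (.node (.node (.node (.col (nat_lit 0)) (.col (nat_lit 1)) (.node (.node (.slot (nat_lit 0)) (.slot (nat_lit 0)) (.slot (nat_lit 0))) (.slot (nat_lit 2)) (.slot (nat_lit 2)))) (.slot (nat_lit 8)) (.slot (nat_lit 1))) (.slot (nat_lit 3)) (.slot (nat_lit 1))) (.node (.col (nat_lit 1)) (.slot (nat_lit 3)) (.slot (nat_lit 1))) (.col (nat_lit 2))) (.col (nat_lit 0)) (.col (nat_lit 1)) (.node (.slot (nat_lit 0)) (.slot (nat_lit 0)) (.slot (nat_lit 0)))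
def w28978 : Root := .mk (.node (.node (.node (.node (.col (nat_lit 0)) (.col (nat_lit 1)) (.node (.node (.slot (nat_lit 0)) (.slot (nat_lit 0)) (.slot (nat_lit 0))) (.slot (nat_lit 2)) (.slot (nat_lit 2)))) (.slot (nat_lit 8)) (.slot (nat_lit 1))) (.slot (nat_lit 3)) (.slot (nat_lit 1))) (.node (.col (nat_lit 1)) (.slot (nat_lit 3)) (.slot (nat_lit 1))) (.slot (nat_lit 1))) (.col (nat_lit 0)) (.col (nat_lit 1)) (.node (.slot (nat_lit 0)) (.slot (nat_lit 0)) (.slot (nat_lit 0)))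
def l6487 : Root := .mk (.col (nat_lit 0)) (.col (nat_lit 1)) (.node (.node (.slot (nat_lit 0)) (.slot (nat_lit 0)) (.slot (nat_lit 0))) (.slot (nat_lit 2)) (.slot (nat_lit 2))) (.node (.node (.node (.node (.col (nat_lit 0)) (.col (nat_lit 1)) (.slot (nat_lit 8))) (.col (nat_lit 0)) (.node (.col (nat_lit 1)) (.slot (nat_lit 7)) (.slot (nat_lit 5)))) (.slot (nat_lit 7)) (.slot (nat_lit 5))) (.slot (nat_lit 8)) (.slot (nat_lit 1)))
def w28979 : Root := .mk (.col (nat_lit 0)) (.col (nat_lit 1)) (.node (.node (.slot (nat_lit 0)) (.slot (nat_lit 0)) (.slot (nat_lit 0))) (.slot (nat_lit 2)) (.slot (nat_lit 2))) (.node (.node (.node (.node (.col (nat_lit 0)) (.col (nat_lit 1)) (.slot (nat_lit 8))) (.col (nat_lit 0)) (.slot (nat_lit 8))) (.slot (nat_lit 7)) (.slot (nat_lit 5))) (.slot (nat_lit 8)) (.slot (nat_lit 1)))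
def l6488 : Root := .mk (.col (nat_lit 0)) (.col (nat_lit 1)) (.node (.node (.slot (nat_lit 0)) (.slot (nat_lit 0)) (.slot (nat_lit 0))) (.slot (nat_lit 2)) (.slot (nat_lit 2))) (.node (.node (.node (.node (.col (nat_lit 0)) (.col (nat_lit 1)) (.slot (nat_lit 8))) (.node (.col (nat_lit 1)) (.col (nat_lit 0)) (.slot (nat_lit 8))) (.col (nat_lit 1))) (.slot (nat_lit 7)) (.slot (nat_lit 5))) (.slot (nat_lit 8)) (.slot (nat_lit 1)))
def w28980 : Root := .mk (.col (nat_lit 0)) (.col (nat_lit 1)) (.node (.node (.slot (nat_lit 0)) (.slot (nat_lit 0)) (.slot (nat_lit 0))) (.slot (nat_lit 2)) (.slot (nat_lit 2))) (.node (.node (.node (.node (.col (nat_lit 0)) (.col (nat_lit 1)) (.slot (nat_lit 8))) (.node (.col (nat_lit 1)) (.slot (nat_lit 1)) (.slot (nat_lit 8))) (.col (nat_lit 1))) (.slot (nat_lit 7)) (.slot (nat_lit 5))) (.slot (nat_lit 8)) (.slot (nat_lit 1)))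
def l6489 : Root := .mk (.col (nat_lit 0)) (.col (nat_lit 1)) (.node (.node (.slot (nat_lit 0)) (.slot (nat_lit 0)) (.slot (nat_lit 0))) (.slot (nat_lit 20)) (.slot (nat_lit 9))) (.node (.node (.node (.node (.col (nat_lit 0)) (.col (nat_lit 1)) (.slot (nat_lit 8))) (.node (.col (nat_lit 1)) (.slot (nat_lit 5)) (.slot (nat_lit 8))) (.slot (nat_lit 9))) (.slot (nat_lit 21)) (.slot (nat_lit 9))) (.slot (nat_lit 20)) (.slot (nat_lit 12)))
def w28981 : Root := .mk (.col (nat_lit 0)) (.col (nat_lit 1)) (.node (.node (.slot (nat_lit 0)) (.slot (nat_lit 0)) (.slot (nat_lit 0))) (.slot (nat_lit 20)) (.slot (nat_lit 9))) (.node (.node (.node (.node (.col (nat_lit 0)) (.slot (nat_lit 1)) (.slot (nat_lit 8))) (.node (.col (nat_lit 1)) (.slot (nat_lit 8)) (.slot (nat_lit 5))) (.slot (nat_lit 9))) (.slot (nat_lit 21)) (.slot (nat_lit 9))) (.slot (nat_lit 20)) (.slot (nat_lit 12)))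
def w28982 : Root := .mk (.node (.node (.node (.node (.col (nat_lit 0)) (.col (nat_lit 1)) (.node (.node (.slot (nat_lit 0)) (.slot (nat_lit 0)) (.slot (nat_lit 0))) (.slot (nat_lit 2)) (.slot (nat_lit 2)))) (.slot (nat_lit 8)) (.slot (nat_lit 1))) (.slot (nat_lit 3)) (.slot (nat_lit 1))) (.node (.col (nat_lit 0)) (.slot (nat_lit 2)) (.slot (nat_lit 1))) (.slot (nat_lit 1))) (.col (nat_lit 2)) (.col (nat_lit 0)) (.node (.col (nat_lit 0)) (.slot (nat_lit 1)) (.slot (nat_lit 1)))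
def w28983 : Root := .mk (.node (.node (.node (.node (.col (nat_lit 0)) (.col (nat_lit 1)) (.node (.node (.slot (nat_lit 0)) (.slot (nat_lit 0)) (.slot (nat_lit 0))) (.slot (nat_lit 2)) (.slot (nat_lit 2)))) (.slot (nat_lit 8)) (.slot (nat_lit 1))) (.slot (nat_lit 3)) (.slot (nat_lit 1))) (.node (.col (nat_lit 0)) (.slot (nat_lit 1)) (.slot (nat_lit 0))) (.slot (nat_lit 1))) (.col (nat_lit 2)) (.col (nat_lit 0)) (.node (.col (nat_lit 2)) (.slot (nat_lit 0)) (.slot (nat_lit 0)))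
def l6490 : Root := .mk (.node (.node (.node (.node (.col (nat_lit 0)) (.col (nat_lit 1)) (.node (.node (.slot (nat_lit 0)) (.slot (nat_lit 0)) (.slot (nat_lit 0))) (.slot (nat_lit 2)) (.slot (nat_lit 2)))) (.slot (nat_lit 8)) (.slot (nat_lit 1))) (.slot (nat_lit 7)) (.slot (nat_lit 5))) (.node (.col (nat_lit 0)) (.slot (nat_lit 3)) (.slot (nat_lit 1))) (.col (nat_lit 1))) (.col (nat_lit 2)) (.col (nat_lit 0)) (.node (.slot (nat_lit 0)) (.slot (nat_lit 1)) (.slot (nat_lit 1)))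
def w28984 : Root := .mk (.node (.node (.node (.node (.col (nat_lit 0)) (.col (nat_lit 1)) (.node (.node (.slot (nat_lit 0)) (.slot (nat_lit 0)) (.slot (nat_lit 0))) (.slot (nat_lit 2)) (.slot (nat_lit 2)))) (.slot (nat_lit 8)) (.slot (nat_lit 1))) (.slot (nat_lit 7)) (.slot (nat_lit 5))) (.node (.col (nat_lit 0)) (.slot (nat_lit 3)) (.slot (nat_lit 1))) (.slot (nat_lit 1))) (.col (nat_lit 2)) (.col (nat_lit 0)) (.node (.slot (nat_lit 0)) (.slot (nat_lit 1)) (.slot (nat_lit 1)))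
def l6491 : Root := .mk (.node (.node (.node (.node (.col (nat_lit 0)) (.col (nat_lit 1)) (.node (.node (.slot (nat_lit 0)) (.slot (nat_lit 0)) (.slot (nat_lit 0))) (.slot (nat_lit 2)) (.slot (nat_lit 2)))) (.slot (nat_lit 8)) (.slot (nat_lit 1))) (.slot (nat_lit 3)) (.slot (nat_lit 1))) (.col (nat_lit 2)) (.slot (nat_lit 2))) (.col (nat_lit 2)) (.col (nat_lit 0)) (.node (.col (nat_lit 1)) (.slot (nat_lit 20)) (.slot (nat_lit 9)))
def w28985 : Root := .mk (.col (nat_lit 0)) (.col (nat_lit 1)) (.node (.node (.slot (nat_lit 0)) (.slot (nat_lit 0)) (.slot (nat_lit 0))) (.slot (nat_lit 2)) (.slot (nat_lit 2))) (.node (.node (.node (.col (nat_lit 2)) (.node (.col (nat_lit 2)) (.col (nat_lit 0)) (.slot (nat_lit 21))) (.slot (nat_lit 2))) (.slot (nat_lit 3)) (.slot (nat_lit 1))) (.slot (nat_lit 8)) (.slot (nat_lit 1)))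
def w28986 : Root := .mk (.col (nat_lit 0)) (.col (nat_lit 1)) (.node (.node (.slot (nat_lit 0)) (.slot (nat_lit 3)) (.slot (nat_lit 1))) (.slot (nat_lit 20)) (.slot (nat_lit 9))) (.node (.node (.node (.node (.col (nat_lit 0)) (.slot (nat_lit 8)) (.slot (nat_lit 8))) (.node (.col (nat_lit 2)) (.col (nat_lit 0)) (.slot (nat_lit 8))) (.col (nat_lit 0))) (.slot (nat_lit 9)) (.slot (nat_lit 8))) (.slot (nat_lit 20)) (.slot (nat_lit 12)))
def l6492 : Root := .mk (.col (nat_lit 0)) (.col (nat_lit 1)) (.node (.node (.slot (nat_lit 0)) (.slot (nat_lit 3)) (.slot (nat_lit 1))) (.slot (nat_lit 20)) (.slot (nat_lit 9))) (.node (.node (.node (.node (.col (nat_lit 0)) (.slot (nat_lit 8)) (.slot (nat_lit 8))) (.node (.col (nat_lit 2)) (.col (nat_lit 0)) (.slot (nat_lit 21))) (.slot (nat_lit 8))) (.slot (nat_lit 9)) (.slot (nat_lit 8))) (.slot (nat_lit 20)) (.slot (nat_lit 12)))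
def w28987 : Root := .mk (.col (nat_lit 0)) (.col (nat_lit 1)) (.node (.node (.slot (nat_lit 0)) (.slot (nat_lit 3)) (.slot (nat_lit 1))) (.slot (nat_lit 20)) (.slot (nat_lit 9))) (.node (.node (.node (.node (.col (nat_lit 0)) (.slot (nat_lit 8)) (.slot (nat_lit 8))) (.node (.col (nat_lit 2)) (.slot (nat_lit 1)) (.slot (nat_lit 21))) (.slot (nat_lit 8))) (.slot (nat_lit 9)) (.slot (nat_lit 8))) (.slot (nat_lit 20)) (.slot (nat_lit 12)))
def l6493 : Root := .mk (.node (.node (.node (.col (nat_lit 0)) (.col (nat_lit 1)) (.node (.node (.slot (nat_lit 0)) (.slot (nat_lit 0)) (.slot (nat_lit 0))) (.slot (nat_lit 2)) (.slot (nat_lit 2)))) (.slot (nat_lit 8)) (.slot (nat_lit 1))) (.slot (nat_lit 3)) (.slot (nat_lit 2))) (.node (.col (nat_lit 0)) (.slot (nat_lit 9)) (.slot (nat_lit 20))) (.col (nat_lit 2)) (.col (nat_lit 3))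
def w28988 : Root := .mk (.col (nat_lit 0)) (.col (nat_lit 1)) (.node (.node (.slot (nat_lit 0)) (.slot (nat_lit 0)) (.slot (nat_lit 0))) (.slot (nat_lit 2)) (.slot (nat_lit 2))) (.node (.node (.node (.node (.col (nat_lit 0)) (.slot (nat_lit 20)) (.slot (nat_lit 9))) (.col (nat_lit 2)) (.node (.slot (nat_lit 0)) (.slot (nat_lit 0)) (.slot (nat_lit 0)))) (.slot (nat_lit 3)) (.slot (nat_lit 2))) (.slot (nat_lit 8)) (.slot (nat_lit 1)))
def w28989 : Root := .mk (.col (nat_lit 0)) (.col (nat_lit 1)) (.node (.node (.slot (nat_lit 0)) (.slot (nat_lit 0)) (.slot (nat_lit 0))) (.slot (nat_lit 20)) (.slot (nat_lit 9))) (.node (.node (.node (.node (.col (nat_lit 0)) (.node (.col (nat_lit 0)) (.slot (nat_lit 4)) (.slot (nat_lit 1))) (.slot (nat_lit 1))) (.col (nat_lit 2)) (.slot (nat_lit 9))) (.slot (nat_lit 21)) (.slot (nat_lit 9))) (.slot (nat_lit 20)) (.slot (nat_lit 12)))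
def w28990 : Root := .mk (.col (nat_lit 0)) (.col (nat_lit 1)) (.node (.node (.slot (nat_lit 0)) (.slot (nat_lit 0)) (.slot (nat_lit 0))) (.slot (nat_lit 2)) (.slot (nat_lit 2))) (.node (.node (.node (.node (.col (nat_lit 0)) (.node (.slot (nat_lit 0)) (.slot (nat_lit 0)) (.slot (nat_lit 0))) (.slot (nat_lit 1))) (.col (nat_lit 2)) (.slot (nat_lit 2))) (.slot (nat_lit 3)) (.slot (nat_lit 1))) (.slot (nat_lit 8)) (.slot (nat_lit 1)))
def w28991 : Root := .mk (.col (nat_lit 0)) (.col (nat_lit 1)) (.node (.node (.slot (nat_lit 0)) (.slot (nat_lit 0)) (.slot (nat_lit 0))) (.slot (nat_lit 1)) (.slot (nat_lit 0))) (.node (.node (.node (.node (.col (nat_lit 0)) (.slot (nat_lit 9)) (.slot (nat_lit 8))) (.col (nat_lit 2)) (.slot (nat_lit 3))) (.slot (nat_lit 7)) (.slot (nat_lit 5))) (.col (nat_lit 0)) (.slot (nat_lit 1)))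
def w28992 : Root := .mk (.col (nat_lit 0)) (.col (nat_lit 1)) (.node (.node (.slot (nat_lit 0)) (.slot (nat_lit 0)) (.slot (nat_lit 0))) (.slot (nat_lit 8)) (.slot (nat_lit 8))) (.node (.node (.node (.node (.col (nat_lit 0)) (.slot (nat_lit 8)) (.slot (nat_lit 8))) (.col (nat_lit 2)) (.slot (nat_lit 10))) (.slot (nat_lit 8)) (.slot (nat_lit 8))) (.node (.col (nat_lit 2)) (.slot (nat_lit 8)) (.slot (nat_lit 8))) (.slot (nat_lit 8)))
def l6494 : Root := .mk (.col (nat_lit 0)) (.col (nat_lit 1)) (.node (.node (.slot (nat_lit 0)) (.slot (nat_lit 0)) (.slot (nat_lit 0))) (.slot (nat_lit 7)) (.slot (nat_lit 5))) (.node (.node (.node (.node (.col (nat_lit 0)) (.slot (nat_lit 2)) (.slot (nat_lit 2))) (.col (nat_lit 2)) (.slot (nat_lit 3))) (.slot (nat_lit 6)) (.slot (nat_lit 1))) (.node (.col (nat_lit 3)) (.slot (nat_lit 1)) (.slot (nat_lit 1))) (.col (nat_lit 2)))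
def w28993 : Root := .mk (.col (nat_lit 0)) (.col (nat_lit 1)) (.node (.node (.slot (nat_lit 0)) (.slot (nat_lit 0)) (.slot (nat_lit 0))) (.slot (nat_lit 7)) (.slot (nat_lit 5))) (.node (.node (.node (.node (.col (nat_lit 0)) (.slot (nat_lit 2)) (.slot (nat_lit 2))) (.col (nat_lit 2)) (.slot (nat_lit 3))) (.slot (nat_lit 6)) (.slot (nat_lit 1))) (.node (.col (nat_lit 3)) (.slot (nat_lit 1)) (.slot (nat_lit 1))) (.slot (nat_lit 1)))
def w28994 : Root := .mk (.col (nat_lit 0)) (.col (nat_lit 1)) (.node (.node (.slot (nat_lit 0)) (.slot (nat_lit 0)) (.slot (nat_lit 0))) (.col (nat_lit 0)) (.slot (nat_lit 5))) (.node (.node (.node (.node (.col (nat_lit 0)) (.slot (nat_lit 8)) (.slot (nat_lit 8))) (.col (nat_lit 2)) (.slot (nat_lit 8))) (.slot (nat_lit 8)) (.slot (nat_lit 8))) (.slot (nat_lit 1)) (.slot (nat_lit 9)))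
def l6495 : Root := .mk (.col (nat_lit 0)) (.col (nat_lit 1)) (.node (.node (.slot (nat_lit 0)) (.slot (nat_lit 0)) (.slot (nat_lit 0))) (.slot (nat_lit 20)) (.slot (nat_lit 9))) (.node (.node (.node (.node (.col (nat_lit 0)) (.slot (nat_lit 21)) (.slot (nat_lit 21))) (.col (nat_lit 2)) (.slot (nat_lit 21))) (.slot (nat_lit 22)) (.slot (nat_lit 22))) (.slot (nat_lit 22)) (.slot (nat_lit 12)))
def w28995 : Root := .mk (.col (nat_lit 0)) (.col (nat_lit 1)) (.node (.node (.slot (nat_lit 0)) (.slot (nat_lit 0)) (.slot (nat_lit 0))) (.slot (nat_lit 20)) (.slot (nat_lit 9))) (.node (.node (.node (.node (.col (nat_lit 0)) (.slot (nat_lit 21)) (.slot (nat_lit 21))) (.node (.slot (nat_lit 0)) (.slot (nat_lit 0)) (.slot (nat_lit 0))) (.slot (nat_lit 21))) (.slot (nat_lit 22)) (.slot (nat_lit 22))) (.slot (nat_lit 22)) (.slot (nat_lit 12)))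
def w28996 : Root := .mk (.col (nat_lit 0)) (.col (nat_lit 1)) (.node (.node (.slot (nat_lit 0)) (.slot (nat_lit 3)) (.slot (nat_lit 1))) (.slot (nat_lit 20)) (.slot (nat_lit 9))) (.node (.node (.node (.node (.col (nat_lit 0)) (.col (nat_lit 2)) (.slot (nat_lit 21))) (.slot (nat_lit 9)) (.slot (nat_lit 8))) (.slot (nat_lit 9)) (.slot (nat_lit 8))) (.slot (nat_lit 20)) (.slot (nat_lit 12)))
def w29009 : Root := .mk (.col (nat_lit 0)) (.col (nat_lit 1)) (.node (.slot (nat_lit 0)) (.slot (nat_lit 1)) (.slot (nat_lit 1))) (.node (.node (.node (.slot (nat_lit 0)) (.col (nat_lit 0)) (.slot (nat_lit 0))) (.col (nat_lit 0)) (.slot (nat_lit 21))) (.slot (nat_lit 20)) (.slot (nat_lit 12)))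
def l6500 : Root := .mk (.node (.node (.node (.node (.col (nat_lit 0)) (.col (nat_lit 1)) (.node (.node (.slot (nat_lit 0)) (.slot (nat_lit 0)) (.slot (nat_lit 0))) (.slot (nat_lit 2)) (.slot (nat_lit 2)))) (.slot (nat_lit 20)) (.slot (nat_lit 12))) (.slot (nat_lit 21)) (.slot (nat_lit 2))) (.col (nat_lit 2)) (.slot (nat_lit 9))) (.col (nat_lit 0)) (.col (nat_lit 1)) (.node (.node (.slot (nat_lit 0)) (.slot (nat_lit 0)) (.slot (nat_lit 0))) (.slot (nat_lit 2)) (.slot (nat_lit 2)))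
def w29012 : Root := .mk (.node (.node (.node (.node (.col (nat_lit 0)) (.col (nat_lit 1)) (.node (.node (.slot (nat_lit 0)) (.slot (nat_lit 0)) (.slot (nat_lit 0))) (.slot (nat_lit 2)) (.slot (nat_lit 2)))) (.slot (nat_lit 20)) (.slot (nat_lit 12))) (.slot (nat_lit 21)) (.slot (nat_lit 2))) (.slot (nat_lit 1)) (.slot (nat_lit 9))) (.col (nat_lit 0)) (.col (nat_lit 1)) (.node (.node (.slot (nat_lit 0)) (.slot (nat_lit 0)) (.slot (nat_lit 0))) (.slot (nat_lit 2)) (.slot (nat_lit 2)))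
def l6502 : Root := .mk (.col (nat_lit 0)) (.col (nat_lit 1)) (.node (.col (nat_lit 3)) (.slot (nat_lit 9)) (.slot (nat_lit 20))) (.node (.node (.node (.node (.col (nat_lit 0)) (.col (nat_lit 1)) (.slot (nat_lit 21))) (.slot (nat_lit 5)) (.slot (nat_lit 1))) (.col (nat_lit 2)) (.slot (nat_lit 2))) (.slot (nat_lit 20)) (.slot (nat_lit 9)))
def w29014 : Root := .mk (.col (nat_lit 0)) (.col (nat_lit 1)) (.node (.node (.slot (nat_lit 0)) (.slot (nat_lit 0)) (.slot (nat_lit 0))) (.slot (nat_lit 20)) (.slot (nat_lit 9))) (.node (.node (.node (.node (.col (nat_lit 0)) (.col (nat_lit 1)) (.slot (nat_lit 21))) (.slot (nat_lit 5)) (.slot (nat_lit 1))) (.col (nat_lit 2)) (.slot (nat_lit 2))) (.slot (nat_lit 20)) (.slot (nat_lit 9)))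
def l6503 : Root := .mk (.col (nat_lit 0)) (.col (nat_lit 1)) (.node (.node (.slot (nat_lit 0)) (.slot (nat_lit 0)) (.slot (nat_lit 0))) (.slot (nat_lit 1)) (.slot (nat_lit 1))) (.node (.node (.node (.node (.col (nat_lit 0)) (.col (nat_lit 1)) (.slot (nat_lit 21))) (.slot (nat_lit 20)) (.slot (nat_lit 12))) (.col (nat_lit 0)) (.slot (nat_lit 21))) (.slot (nat_lit 20)) (.slot (nat_lit 12)))
def w29015 : Root := .mk (.col (nat_lit 0)) (.col (nat_lit 1)) (.node (.node (.slot (nat_lit 0)) (.slot (nat_lit 0)) (.slot (nat_lit 0))) (.slot (nat_lit 1)) (.slot (nat_lit 1))) (.node (.node (.node (.node (.col (nat_lit 0)) (.col (nat_lit 1)) (.slot (nat_lit 21))) (.slot (nat_lit 20)) (.slot (nat_lit 12))) (.node (.slot (nat_lit 0)) (.slot (nat_lit 0)) (.slot (nat_lit 0))) (.slot (nat_lit 21))) (.slot (nat_lit 20)) (.slot (nat_lit 12)))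
def w29016 : Root := .mk (.col (nat_lit 0)) (.col (nat_lit 1)) (.node (.node (.slot (nat_lit 0)) (.slot (nat_lit 0)) (.slot (nat_lit 0))) (.slot (nat_lit 8)) (.slot (nat_lit 8))) (.node (.node (.node (.node (.col (nat_lit 0)) (.col (nat_lit 1)) (.slot (nat_lit 2))) (.slot (nat_lit 1)) (.slot (nat_lit 1))) (.slot (nat_lit 1)) (.slot (nat_lit 1))) (.node (.col (nat_lit 2)) (.slot (nat_lit 3)) (.slot (nat_lit 3))) (.slot (nat_lit 5)))
def l6504 : Root := .mk (.col (nat_lit 0)) (.col (nat_lit 1)) (.node (.node (.slot (nat_lit 0)) (.slot (nat_lit 3)) (.slot (nat_lit 1))) (.slot (nat_lit 20)) (.slot (nat_lit 9))) (.node (.node (.node (.node (.col (nat_lit 0)) (.col (nat_lit 1)) (.slot (nat_lit 25))) (.slot (nat_lit 20)) (.slot (nat_lit 12))) (.slot (nat_lit 21)) (.slot (nat_lit 21))) (.slot (nat_lit 20)) (.slot (nat_lit 12)))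
def w29017 : Root := .mk (.col (nat_lit 0)) (.col (nat_lit 1)) (.node (.node (.slot (nat_lit 0)) (.slot (nat_lit 3)) (.slot (nat_lit 1))) (.slot (nat_lit 20)) (.slot (nat_lit 9))) (.node (.node (.node (.node (.col (nat_lit 0)) (.node (.col (nat_lit 0)) (.slot (nat_lit 0)) (.slot (nat_lit 0))) (.slot (nat_lit 25))) (.slot (nat_lit 20)) (.slot (nat_lit 12))) (.slot (nat_lit 21)) (.slot (nat_lit 21))) (.slot (nat_lit 20)) (.slot (nat_lit 12)))
def w29018 : Root := .mk (.col (nat_lit 0)) (.col (nat_lit 1)) (.node (.node (.slot (nat_lit 0)) (.slot (nat_lit 0)) (.slot (nat_lit 0))) (.slot (nat_lit 2)) (.slot (nat_lit 2))) (.node (.node (.node (.node (.col (nat_lit 0)) (.node (.col (nat_lit 1)) (.slot (nat_lit 1)) (.slot (nat_lit 1))) (.slot (nat_lit 1))) (.slot (nat_lit 1)) (.slot (nat_lit 1))) (.slot (nat_lit 3)) (.slot (nat_lit 1))) (.slot (nat_lit 8)) (.slot (nat_lit 1)))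
def w29019 : Root := .mk (.col (nat_lit 0)) (.col (nat_lit 1)) (.node (.node (.slot (nat_lit 0)) (.slot (nat_lit 3)) (.slot (nat_lit 1))) (.slot (nat_lit 20)) (.slot (nat_lit 9))) (.node (.node (.node (.node (.col (nat_lit 0)) (.node (.col (nat_lit 2)) (.slot (nat_lit 0)) (.slot (nat_lit 0))) (.slot (nat_lit 25))) (.slot (nat_lit 20)) (.slot (nat_lit 12))) (.slot (nat_lit 21)) (.slot (nat_lit 21))) (.slot (nat_lit 20)) (.slot (nat_lit 12)))
def w29020 : Root := .mk (.col (nat_lit 0)) (.col (nat_lit 1)) (.node (.node (.slot (nat_lit 0)) (.slot (nat_lit 3)) (.slot (nat_lit 1))) (.slot (nat_lit 20)) (.slot (nat_lit 9))) (.node (.node (.node (.node (.col (nat_lit 0)) (.node (.slot (nat_lit 0)) (.slot (nat_lit 0)) (.slot (nat_lit 0))) (.slot (nat_lit 25))) (.slot (nat_lit 20)) (.slot (nat_lit 12))) (.slot (nat_lit 21)) (.slot (nat_lit 21))) (.slot (nat_lit 20)) (.slot (nat_lit 12)))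
def l6505 : Root := .mk (.col (nat_lit 0)) (.col (nat_lit 1)) (.node (.node (.slot (nat_lit 0)) (.slot (nat_lit 8)) (.slot (nat_lit 8))) (.slot (nat_lit 20)) (.slot (nat_lit 12))) (.node (.node (.node (.node (.col (nat_lit 0)) (.slot (nat_lit 25)) (.slot (nat_lit 25))) (.slot (nat_lit 24)) (.slot (nat_lit 22))) (.slot (nat_lit 23)) (.slot (nat_lit 23))) (.slot (nat_lit 23)) (.slot (nat_lit 23)))
def w29021 : Root := .mk (.col (nat_lit 0)) (.col (nat_lit 1)) (.node (.node (.slot (nat_lit 0)) (.slot (nat_lit 8)) (.slot (nat_lit 8))) (.slot (nat_lit 20)) (.slot (nat_lit 12))) (.slot (nat_lit 29))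
def l6506 : Root := .mk (.col (nat_lit 0)) (.col (nat_lit 1)) (.slot (nat_lit 29)) (.slot (nat_lit 29))
def t1 : Root := .mk (.col (nat_lit 0)) (.slot (nat_lit 29)) (.slot (nat_lit 29)) (.slot (nat_lit 29))
def t0 : Root := .mk (.slot (nat_lit 30)) (.slot (nat_lit 30)) (.slot (nat_lit 30)) (.slot (nat_lit 30))

end Pool.Agent.W319.GCI.K5
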