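import Pool.Agent.W319.GCI.K5D0
import Pool.Agent.W319.GCI.K5D1
import Pool.Agent.W319.GCI.K5D2
import Pool.Agent.W319.GCI.K5D3
import Pool.Agent.W319.GCI.K5D4
import Pool.Agent.W319.GCI.K5D5
import Pool.Agent.W319.GCI.K5D6
import Pool.Agent.W319.GCI.K5D7
import Pool.Agent.W319.GCI.K5D8
import Pool.Agent.W319.GCI.K5D9
import Pool.Agent.W319.GCI.K5D10
import Pool.Agent.W319.GCI.K5D11
import Pool.Agent.W319.GCI.K5D12
import Pool.Agent.W319.GCI.K5D13
import Pool.Agent.W319.GCI.K5D14
import Pool.Agent.W319.GCI.K5D15
set_option autoImplicit false
set_option maxRecDepth 100000
set_option linter.all false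
namespace Pool.Agent.W319.GCI.K5
open Pool.Agent.W319.GCI

theorem cw248 : wchk (nat_lit 5) [] [] (nat_lit 0) (nat_lit 0) (nat_lit 4) (nat_lit 2) (nat_lit 25165869) (nat_lit 16777281) w248 = true := by decide +kernel
theorem cw249 : wchk (nat_lit 5) [w204, w16] [] (nat_lit 3) (nat_lit 1) (nat_lit 2) (nat_lit 2) (nat_lit 90391552) (nat_lit 22114308) w249 = true := by decide +kernel
theorem cw250 : wchk (nat_lit 5) [w69, w16] [] (nat_lit 3) (nat_lit 1) (nat_lit 2) (nat_lit 2) (nat_lit 90391552) (nat_lit 22114308) w250 = true := by decide +kernel
theorem cw251 : wchk (nat_lit 5) [w1, w16] [] (nat_lit 3) (nat_lit 1) (nat_lit 2) (nat_lit 2) (nat_lit 88821760) (nat_lit 22114308) w251 = true := by decide +kernel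
theorem cw254 : wchk (nat_lit 5) [] [l24] (nat_lit 0) (nat_lit 2) (nat_lit 2) (nat_lit 0) (nat_lit 5428224) (nat_lit 0) w254 = true := by decide +kernel
theorem cl64 : lchk (nat_lit 5) [] (nat_lit 17) (.nod (nat_lit 33554586) .nil .nil (.nod (nat_lit 3885341721382492210589568215060528108685098682395005828643176206545997453228005916932) (.opn (nat_lit 3885371364157336963746223052929307968322766774369639759248867814795580098600788557858)) .nil .dup)) (.nod (nat_lit 618973008015230078396924164) .nil (.opn (nat_lit 3885371364157336963535596649232690332789509206623366164387816962022142004332448448922)) (.dwn (nat_lit 3885371364157336963535596649232690332789509206623366164388435924958234970165732180130) (nat_lit 16777361))) .nil .nil l64 = true := by decide +kernel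
theorem cw255 : wchk (nat_lit 5) [] [l64] (nat_lit 4) (nat_lit 3) (nat_lit 2) (nat_lit 0) (nat_lit 5788416) (nat_lit 0) w255 = true := by decide +kernel
theorem cw256 : wchk (nat_lit 5) [] [l64] (nat_lit 4) (nat_lit 1) (nat_lit 2) (nat_lit 0) (nat_lit 5788416) (nat_lit 0) w256 = true := by decide +kernel
theorem cw257 : wchk (nat_lit 5) [] [l64] (nat_lit 4) (nat_lit 3) (nat_lit 4) (nat_lit 0) (nat_lit 3691776) (nat_lit 0) w257 = true := by decide +kernel
theorem cw258 : wchk (nat_lit 5) [] [l44] (nat_lit 4) (nat_lit 1) (nat_lit 2) (nat_lit 0) (nat_lit 22205440) (nat_lit 0) w258 = true := by decide +kernel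
theorem cw259 : wchk (nat_lit 5) [] [l48] (nat_lit 20) (nat_lit 2) (nat_lit 3) (nat_lit 0) (nat_lit 156426752) (nat_lit 0) w259 = true := by decide +kernel
theorem cl65 : lchk (nat_lit 5) [] (nat_lit 17) (.nod (nat_lit 33554522) .nil .nil (.nod (nat_lit 3885341721382492210589568215060528108685098682395005828643176206545997453228005916932) (.opn (nat_lit 3885371364157336963746223052929307968322766774369639759248867814795580098600788557858)) .nil .dup)) (.nod (nat_lit 618973008015230078396924164) .nil (.nod (nat_lit 11418080223534086121239662781064104947719602338) .nil (.opn (nat_lit 1895623070393532622802707943241716030477294116598302694793063432482)) .dup) .nil) .nil .nil l65 = true := by decide +kernel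
theorem cw260 : wchk (nat_lit 5) [] [l65] (nat_lit 1) (nat_lit 3) (nat_lit 2) (nat_lit 0) (nat_lit 5820672) (nat_lit 0) w260 = true := by decide +kernel
theorem cw261 : wchk (nat_lit 5) [] [l7] (nat_lit 0) (nat_lit 0) (nat_lit 2) (nat_lit 0) (nat_lit 5790208) (nat_lit 0) w261 = true := by decide +kernel
theorem cl66 : lchk (nat_lit 5) [] (nat_lit 17) (.nod (nat_lit 33554522) .nil .nil (.nod (nat_lit 3885341721382492210589568215060528108685098682395005828643176206545997453228005916932) (.opn (nat_lit 3885371364157336963746223052929307968322766774369639759248867814795580098600788557858)) .nil .dup)) (.nod (nat_lit 618973008015230078396924164) .nil (.nod (nat_lit 11418080223534086121239662781064104947719602338) .nil (.opn (nat_lit 1895623070393532622802707943241716030477294116598302694793063432482)) .dup) (.opn (nat_lit 3885371364157336963535596649232690332789509206623366164387816962022142004332448448922))) .nil .nil l66 = true := by decide +kernel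
theorem cw262 : wchk (nat_lit 5) [] [l66] (nat_lit 4) (nat_lit 3) (nat_lit 2) (nat_lit 0) (nat_lit 5820672) (nat_lit 0) w262 = true := by decide +kernel
theorem cw263 : wchk (nat_lit 5) [] [l42] (nat_lit 33) (nat_lit 3) (nat_lit 2) (nat_lit 0) (nat_lit 22307584) (nat_lit 0) w263 = true := by decide +kernel
theorem cw264 : wchk (nat_lit 5) [] [l1] (nat_lit 33) (nat_lit 1) (nat_lit 2) (nat_lit 0) (nat_lit 22205440) (nat_lit 0) w264 = true := by decide +kernel
theorem cw265 : wchk (nat_lit 5) [] [l29] (nat_lit 33) (nat_lit 1) (nat_lit 2) (nat_lit 0) (nat_lit 18436864) (nat_lit 0) w265 = true := by decide +kernel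
theorem cw266 : wchk (nat_lit 5) [] [l29] (nat_lit 33) (nat_lit 1) (nat_lit 2) (nat_lit 0) (nat_lit 20533504) (nat_lit 0) w266 = true := by decide +kernel
theorem cw267 : wchk (nat_lit 5) [] [l64] (nat_lit 4) (nat_lit 3) (nat_lit 2) (nat_lit 0) (nat_lit 5788416) (nat_lit 0) w267 = true := by decide +kernel
theorem cl67 : lchk (nat_lit 5) [w254, w259, w168, w263, w264, w265, w266, w42, w16, w39, w3, w267, w260, w15, w262, w245, w255, w256, w257, w258] (nat_lit 23282688) .nil .nil (.nod (nat_lit 5391903099497895769317625568187795765366968466282560303882773884306662495187711819794) (.nod (nat_lit 20903375246596931265898518318953280135197093873261972222370128947840111969629496838176) .nil (.opn (nat_lit 145264062413413674984864100073547927711931133519057751822757560901203188568066527496192)) .dup) .nil (.nod (nat_lit 5391906804844751363728174875608290987813348257772005114733435982962961564088557799472) (.opn (nat_lit 145264062413413674984864100073547927711931133519057751822780702801484093470000502179840)) .dup .dup)) (.nod (nat_lit 14825833563393054390774632116487662444517740601) (.nod (nat_lit 142238029372953113172188841705944278630802) .nil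 (.nod (nat_lit 425873174166945003950472859138472252371017224264) .nil (.dwn (nat_lit 61794674489320883040786841954784600516728396729747473919120265138232) (nat_lit 4922229760)) .dup) (.dwn (nat_lit 5391913289201748653142822842434476529895786060243317632691230854240582938772232163432) (nat_lit 627262520))) .nil (.nod (nat_lit 290676562202128479363926219714096895780556849394331736705922498898) (.dwn (nat_lit 145264077234801097361337115144319844836571922668283811417630671183505035499368247625872) (nat_lit 627262464)) .nil .nil)) l67 = true := by decide +kernel
theorem cw268 : wchk (nat_lit 5) [] [l67] (nat_lit 4) (nat_lit 2) (nat_lit 0) (nat_lit 0) (nat_lit 22597888) (nat_lit 0) w268 = true := by decide +kernel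
theorem cw269 : wchk (nat_lit 5) [w208, w16] [] (nat_lit 3) (nat_lit 1) (nat_lit 4) (nat_lit 2) (nat_lit 73747456) (nat_lit 13742084) w269 = true := by decide +kernel
theorem cw270 : wchk (nat_lit 5) [] [l54] (nat_lit 161) (nat_lit 2) (nat_lit 3) (nat_lit 0) (nat_lit 5820672) (nat_lit 0) w270 = true := by decide +kernel
theorem cw274 : wchk (nat_lit 5) [w69, w220] [] (nat_lit 33) (nat_lit 1) (nat_lit 4) (nat_lit 2) (nat_lit 73618432) (nat_lit 18179076) w274 = true := by decide +kernel
theorem cw275 : wchk (nat_lit 5) [w274, w16] [] (nat_lit 3) (nat_lit 1) (nat_lit 2) (nat_lit 2) (nat_lit 23282688) (nat_lit 22114308) w275 = true := by decide +kernel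
theorem cw276 : wchk (nat_lit 5) [w1, w220] [] (nat_lit 33) (nat_lit 1) (nat_lit 2) (nat_lit 2) (nat_lit 88821760) (nat_lit 22250500) w276 = true := by decide +kernel
theorem cl68 : lchk (nat_lit 5) [] (nat_lit 167772429) .nil .nil .nil (.nod (nat_lit 11418164953843449434298094514509366814161502299) (.nod (nat_lit 9536966686107888517275) .nil (.nod (nat_lit 618970646831988643574317056) .nil .nil (.dwn (nat_lit 210624746541759493460953905486855087029983352061828992055038181376) (nat_lit 16777229))) .nil) .nil .nil) l68 = true := by decide +kernel
theorem cw278 : wchk (nat_lit 5) [] [l68] (nat_lit 212) (nat_lit 2) (nat_lit 4) (nat_lit 0) (nat_lit 1230557440) (nat_lit 0) w278 = true := by decide +kernel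
theorem cw279 : wchk (nat_lit 5) [] [l40] (nat_lit 4) (nat_lit 0) (nat_lit 4) (nat_lit 0) (nat_lit 5431808) (nat_lit 0) w279 = true := by decide +kernel
theorem cw280 : wchk (nat_lit 5) [] [l40] (nat_lit 4) (nat_lit 0) (nat_lit 4) (nat_lit 0) (nat_lit 5415680) (nat_lit 0) w280 = true := by decide +kernel
theorem cw281 : wchk (nat_lit 5) [] [l57] (nat_lit 35) (nat_lit 1) (nat_lit 2) (nat_lit 0) (nat_lit 22334464) (nat_lit 0) w281 = true := by decide +kernel
theorem cl69 : lchk (nat_lit 5) [w15, w1, w281, w154, w152, w153, w278, w53, w279, w280, w149] (nat_lit 694242304) .nil .nil .nil (.nod (nat_lit 61429496406756265977725826125969439438028145051) (.nod (nat_lit 928456855691698503419953554) .nil (.nod (nat_lit 618970646831988643607871642) .nil (.nod (nat_lit 1134794036280618554991695461259336962784619244063247019590811648410) (.dwn (nat_lit 144903846192510378880295730868889640886189586200198641698285011954676063649740067655720) (nat_lit 627133440)) .nil .nil) .dup) .nil) .nil (.nod (nat_lit 1134794237147874087304001742795701775279743449161694025686947201114) (.dwn (nat_lit 207082534412211014063677031662623533357738805055301387048969792498073452447713512083536)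 (nat_lit 895568896)) .nil .nil)) l69 = true := by decide +kernel
theorem cw282 : wchk (nat_lit 5) [] [l69] (nat_lit 20) (nat_lit 3) (nat_lit 2) (nat_lit 0) (nat_lit 156815616) (nat_lit 0) w282 = true := by decide +kernel
theorem cw284 : wchk (nat_lit 5) [] [l7] (nat_lit 0) (nat_lit 3) (nat_lit 2) (nat_lit 0) (nat_lit 5790208) (nat_lit 0) w284 = true := by decide +kernel
theorem cw287 : wchk (nat_lit 5) [w42] [] (nat_lit 0) (nat_lit 3) (nat_lit 0) (nat_lit 2) (nat_lit 33554513) (nat_lit 21727232) w287 = true := by decide +kernel
theorem cw289 : wchk (nat_lit 5) [] [l17] (nat_lit 28) (nat_lit 0) (nat_lit 3) (nat_lit 1) (nat_lit 22354176) (nat_lit 0) w289 = true := by decide +kernel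
theorem cw290 : wchk (nat_lit 5) [] [l17] (nat_lit 28) (nat_lit 0) (nat_lit 3) (nat_lit 1) (nat_lit 22354176) (nat_lit 0) w290 = true := by decide +kernel
theorem cw291 : wchk (nat_lit 5) [] [] (nat_lit 1) (nat_lit 0) (nat_lit 4) (nat_lit 2) (nat_lit 169) (nat_lit 25165869) w291 = true := by decide +kernel
theorem cw292 : wchk (nat_lit 5) [] [l17] (nat_lit 28) (nat_lit 0) (nat_lit 3) (nat_lit 1) (nat_lit 22354176) (nat_lit 0) w292 = true := by decide +kernel
theorem cl71 : lchk (nat_lit 5) [w53, w158, w278, w289, w290, w291, w292] (nat_lit 692873216) .nil .nil .nil (.nod (nat_lit 15142905950631049483522096868695724609771667803) (.nod (nat_lit 928456855691698503419953490) .nil (.nod (nat_lit 618970646831988643607871578) .nil (.dwn (nat_lit 1115986332976983566618879574222979460290766908559531874268634677658) (nat_lit 88893440)) .dup) .nil) (.nod (nat_lit 1134794036280618554930217300050440232634418133886319802837842788442) .nil (.opn (nat_lit 7874780753285092387117309784781901045764716403239593988306111989808)) .dup) .nil) l71 = true := by decide +kernel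
theorem cw293 : wchk (nat_lit 5) [] [l71] (nat_lit 20) (nat_lit 3) (nat_lit 2) (nat_lit 0) (nat_lit 156815616) (nat_lit 0) w293 = true := by decide +kernel
theorem cw294 : wchk (nat_lit 5) [] [l29] (nat_lit 4) (nat_lit 2) (nat_lit 3) (nat_lit 0) (nat_lit 2706176) (nat_lit 0) w294 = true := by decide +kernel
theorem cw295 : wchk (nat_lit 5) [] [l65] (nat_lit 1) (nat_lit 2) (nat_lit 2) (nat_lit 0) (nat_lit 5820672) (nat_lit 0) w295 = true := by decide +kernel
theorem cw296 : wchk (nat_lit 5) [] [l66] (nat_lit 4) (nat_lit 2) (nat_lit 2) (nat_lit 0) (nat_lit 5820672) (nat_lit 0) w296 = true := by decide +kernel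
theorem cw297 : wchk (nat_lit 5) [] [l66] (nat_lit 28) (nat_lit 0) (nat_lit 2) (nat_lit 1) (nat_lit 5820672) (nat_lit 0) w297 = true := by decide +kernel
theorem cw298 : wchk (nat_lit 5) [] [l66] (nat_lit 28) (nat_lit 0) (nat_lit 4) (nat_lit 1) (nat_lit 3756288) (nat_lit 0) w298 = true := by decide +kernel
theorem cw299 : wchk (nat_lit 5) [] [l66] (nat_lit 28) (nat_lit 0) (nat_lit 2) (nat_lit 1) (nat_lit 5820672) (nat_lit 0) w299 = true := by decide +kernel
theorem cw300 : wchk (nat_lit 5) [] [l22] (nat_lit 0) (nat_lit 3) (nat_lit 1) (nat_lit 0) (nat_lit 5446144) (nat_lit 0) w300 = true := by decide +kernel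
theorem cw301 : wchk (nat_lit 5) [] [l42] (nat_lit 33) (nat_lit 2) (nat_lit 2) (nat_lit 0) (nat_lit 22307584) (nat_lit 0) w301 = true := by decide +kernel
theorem cl72 : lchk (nat_lit 5) [] (nat_lit 49) (.nod (nat_lit 67108995) .nil .nil (.nod (nat_lit 3885349132076203398826075323603568664699783298562776275278900686321041345897121710340) .nil .nil (.nod (nat_lit 3885341721382492210800194618757145744206938257030031269143853021519841956535757439074) (.opn (nat_lit 34968073639769002100142610228802525461859308494475780448773488934597942123294411981090)) .dup .dup))) .nil (.nod (nat_lit 210625600227595506038119796765227424280368572390695455760609968388) .nil (.opn (nat_lit 210626403696617635544675647969807680982290527987607704895995510946)) .dup) .nil l72 = true := by decide +kernel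
theorem cw302 : wchk (nat_lit 5) [] [l72] (nat_lit 33) (nat_lit 1) (nat_lit 2) (nat_lit 0) (nat_lit 5820672) (nat_lit 0) w302 = true := by decide +kernel
theorem cw303 : wchk (nat_lit 5) [] [l22] (nat_lit 0) (nat_lit 1) (nat_lit 1) (nat_lit 0) (nat_lit 5446144) (nat_lit 0) w303 = true := by decide +kernel
theorem cw304 : wchk (nat_lit 5) [] [l65] (nat_lit 33) (nat_lit 1) (nat_lit 2) (nat_lit 0) (nat_lit 22191104) (nat_lit 0) w304 = true := by decide +kernel
theorem cl73 : lchk (nat_lit 5) [w255, w293, w300, w301, w302, w303, w304, w56, w16, w294, w12, w295, w53, w296, w245, w174, w297, w298, w299] (nat_lit 23282688) .nil .nil (.nod (nat_lit 5391903099497895769317625568187795765366968466282560303882773884306662495187711819794) (.nod (nat_lit 5391904025834609668139484709904650779303559773847855268624883620566951655265155057696) .nil (.opn (nat_lit 145264062413413674984864100073547927711931133519057751822757560901203188568066527496192)) .dup) .nil (.nod (nat_lit 5391906804844751363728174875608290987813348257772005114733435982962961564088557799472) (.opn (nat_lit 145264062413413674984864100073547927711931133519057751822780702801484093470000502179840))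 .dup .dup)) (.nod (nat_lit 14825833563393054390774632116487662444517740601) (.nod (nat_lit 120459957890013051510532866830311113097554) .nil (.nod (nat_lit 426892736361490325879701354241866736598684174408) .nil (.dwn (nat_lit 61794673936935930330094004890534986331140902900445162754919889274880) (nat_lit 4922229760)) (.dwn (nat_lit 61794673936935930330094004890534986331140902900445162754919889274880) (nat_lit 4922229760))) (.dwn (nat_lit 5391912362865034754613259453866596460391586600062843086029742739689079626779850264672) (nat_lit 627262516))) (.nod (nat_lit 290676511985314596270480109027781510119223141978520340589222822226) .nil (.dwn (nat_lit 7874781406103672867332109259093367219129720359679697726936179181704) (nat_lit 627262464)) .dup) .nil) l73 = true := by decide +kernel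
theorem cw305 : wchk (nat_lit 5) [] [l73] (nat_lit 4) (nat_lit 3) (nat_lit 0) (nat_lit 0) (nat_lit 22597888) (nat_lit 0) w305 = true := by decide +kernel
theorem cw306 : wchk (nat_lit 5) [] [l67] (nat_lit 4) (nat_lit 2) (nat_lit 0) (nat_lit 0) (nat_lit 22597888) (nat_lit 0) w306 = true := by decide +kernel
theorem cw307 : wchk (nat_lit 5) [] [l67] (nat_lit 4) (nat_lit 2) (nat_lit 0) (nat_lit 0) (nat_lit 22597888) (nat_lit 0) w307 = true := by decide +kernel
theorem cw308 : wchk (nat_lit 5) [] [l67] (nat_lit 4) (nat_lit 2) (nat_lit 0) (nat_lit 0) (nat_lit 22597888) (nat_lit 0) w308 = true := by decide +kernel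
theorem cw309 : wchk (nat_lit 5) [w208, w16] [] (nat_lit 3) (nat_lit 1) (nat_lit 2) (nat_lit 2) (nat_lit 90391552) (nat_lit 22114308) w309 = true := by decide +kernel
theorem cw310 : wchk (nat_lit 5) [w270, w16] [] (nat_lit 273) (nat_lit 1) (nat_lit 4) (nat_lit 2) (nat_lit 6638592) (nat_lit 13742084) w310 = true := by decide +kernel
theorem cw311 : wchk (nat_lit 5) [w128, w179] [] (nat_lit 4) (nat_lit 0) (nat_lit 2) (nat_lit 2) (nat_lit 89402368) (nat_lit 23225348) w311 = true := by decide +kernel
theorem cw312 : wchk (nat_lit 5) [w276, w16] [] (nat_lit 3) (nat_lit 1) (nat_lit 4) (nat_lit 2) (nat_lit 6638592) (nat_lit 13742084) w312 = true := by decide +kernel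
theorem cw313 : wchk (nat_lit 5) [w274, w16] [] (nat_lit 3) (nat_lit 1) (nat_lit 4) (nat_lit 2) (nat_lit 6638592) (nat_lit 13742084) w313 = true := by decide +kernel
theorem cl74 : lchk (nat_lit 5) [w267, w282, w264, w263, w168, w266, w265, w42, w229, w39, w3, w15, w260, w262, w245, w257, w256, w296, w258] (nat_lit 23153664) .nil .nil (.nod (nat_lit 7770679505833950352428492028707565921974251937287919899649349192153684397509320900610) (.nod (nat_lit 5362024108791098698541203270816515819905764789222366876646152440333528477174076184592) .nil (.nod (nat_lit 7873160809086037675639137334860620041045683987113586568169737328640) .nil (.dwn (nat_lit 61793054143387317267896170783561687224908935962791316414216100026368) (nat_lit 4922100736)) .dup) (.dwn (nat_lit 145234182496370164015265818634459792752487578799081453500256344773056682992687787448320) (nat_lit 627133440))) .nil (.nod (nat_lit 5362026887801240394129893436520156028369793537795706792232219854816455988709801236520) (.opn (nat_lit 145234182496370164015265818634459792752487578799081453500279481913192173162019386726400)) .dup .dup)) (.nod (nat_lit 5284009072875367674267700936495565450997626199348082583667043329380416537345112887353)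 (.nod (nat_lit 48401093301198169687052671733631545482666853590237759103354103045745941189493122) .nil (.nod (nat_lit 145156171050009199340211889581353701859569536410151898098406798488392246860371906351176) .nil (.dwn (nat_lit 1139880655315943448379950208262402752542307105665139209035399980006486172097022938748928) (nat_lit 4922100736)) .dup) (.nod (nat_lit 5390252367473728589635667140225511910545533874573002570499295106087255221940558188632) (.opn (nat_lit 1139880667358320729060834532966603773929414130056867826965041118115396530467595660466280)) .dup .dup)) .nil (.nod (nat_lit 40990399590010225476249662620733987606343931475148770017572050554307961140805954) (.dwn (nat_lit 145234196391420872493209270266447015924531659008739061448976098942879028760325980330104) (nat_lit 627133440)) .nil .nil)) l74 = true := by decide +kernel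
theorem cw314 : wchk (nat_lit 5) [] [l74] (nat_lit 4) (nat_lit 2) (nat_lit 2) (nat_lit 0) (nat_lit 22597888) (nat_lit 0) w314 = true := by decide +kernel
theorem cl75 : lchk (nat_lit 5) [w210, w5, w192] (nat_lit 55847936) (.nod (nat_lit 22835996430967316348901994921903450495475777618) .nil .nil (.nod (nat_lit 11418036667391120240497368822282365037545783442) (.nod (nat_lit 286446398234244453661872098529929820896903191188921689132972900370) .nil (.opn (nat_lit 7862362185428617260986909955038625999499269470390709180826978375680)) .nil) .nil .nil)) .nil .nil (.nod (nat_lit 11418036667391120240497368822282365037545783442) .nil (.dwn (nat_lit 144995145012695504055538693999324100981706456625998294736159338276525175230091694702994) (nat_lit 626101256)) .dup) l75 = true := by decide +kernel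
theorem cw315 : wchk (nat_lit 5) [] [l75] (nat_lit 2321) (nat_lit 1) (nat_lit 3) (nat_lit 0) (nat_lit 22597888) (nat_lit 0) w315 = true := by decide +kernel
theorem cw316 : wchk (nat_lit 5) [w220] [] (nat_lit 2) (nat_lit 0) (nat_lit 2) (nat_lit 2) (nat_lit 23282688) (nat_lit 16777297) w316 = true := by decide +kernel
theorem cw317 : wchk (nat_lit 5) [] [l52] (nat_lit 2) (nat_lit 3) (nat_lit 1) (nat_lit 0) (nat_lit 5530368) (nat_lit 0) w317 = true := by decide +kernel
theorem cw318 : wchk (nat_lit 5) [] [l52] (nat_lit 2) (nat_lit 3) (nat_lit 1) (nat_lit 0) (nat_lit 5530368) (nat_lit 0) w318 = true := by decide +kernel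
theorem cw319 : wchk (nat_lit 5) [] [] (nat_lit 2) (nat_lit 0) (nat_lit 2) (nat_lit 2) (nat_lit 337) (nat_lit 16777297) w319 = true := by decide +kernel
theorem cl76 : lchk (nat_lit 5) [w192, w25, w193] (nat_lit 56765440) (.nod (nat_lit 17127027438214959764730512700080345583093547154) (.nod (nat_lit 11418014889319637300435707166307489404380250194) .nil .nil (.nod (nat_lit 11417993111248154360374045510332613771214716946) .nil .nil (.dwn (nat_lit 11417993111248154361211075672262245235728318482) (nat_lit 627190784)))) .nil .nil) .nil (.nod (nat_lit 11417993111248154360374045510332613771214716946) .nil .nil (.dwn (nat_lit 284826604685631391464125800740849928993560810571188633954989113362) (nat_lit 627190792))) .nil l76 = true := by decide +kernel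
theorem cw320 : wchk (nat_lit 5) [] [l76] (nat_lit 2) (nat_lit 3) (nat_lit 1) (nat_lit 0) (nat_lit 5820672) (nat_lit 0) w320 = true := by decide +kernel
theorem cl77 : lchk (nat_lit 5) [w236, w226, w4, w33, w234, w235, w198] (nat_lit 23153664) (.nod (nat_lit 22836018549321166209902120041252933560409522323) .nil .nil (.nod (nat_lit 11417993111248154360374045510332613771214716946) .nil .nil (.dwn (nat_lit 11417993111248154383515945938811468294865813522) (nat_lit 627133440)))) (.nod (nat_lit 4237043671386020933625825251785415328237912207378260841988242) .nil (.nod (nat_lit 1127324988250902768129498139785280618845678857084092465930703233048) .nil .nil (.dwn (nat_lit 210624796758573376542982025784181253721585479006969313976133877770) (nat_lit 627133456))) (.dwn (nat_lit 5362026887801240393839222912889896990992059775097239197613347582734769973647414133578) (nat_lit 90262528))) .nil .nil l77 = true := by decide +kernel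
theorem cw321 : wchk (nat_lit 5) [] [l77] (nat_lit 26) (nat_lit 2) (nat_lit 2) (nat_lit 0) (nat_lit 156815616) (nat_lit 0) w321 = true := by decide +kernel
theorem cw322 : wchk (nat_lit 5) [] [l77] (nat_lit 26) (nat_lit 2) (nat_lit 2) (nat_lit 0) (nat_lit 156815616) (nat_lit 0) w322 = true := by decide +kernel
theorem cw323 : wchk (nat_lit 5) [] [l77] (nat_lit 26) (nat_lit 2) (nat_lit 4) (nat_lit 0) (nat_lit 154751232) (nat_lit 0) w323 = true := by decide +kernel
theorem cw324 : wchk (nat_lit 5) [] [l77] (nat_lit 26) (nat_lit 2) (nat_lit 2) (nat_lit 0) (nat_lit 156815616) (nat_lit 0) w324 = true := by decide +kernel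
theorem cl78 : lchk (nat_lit 5) [w197, w43, w16, w4, w33, w319, w236, w320, w321, w322, w323, w324, w315, w8, w198, w219, w316, w317, w318] (nat_lit 22121472) (.nod (nat_lit 22836018549321166209902120041252933560409522323) .nil .nil (.nod (nat_lit 11417993111248154360374045510332613771214716946) .nil .nil (.dwn (nat_lit 11417993111248154361172994508944384416725073938) (nat_lit 626101248)))) (.nod (nat_lit 284106752935718982300809919801728862896751931863122694207415779474) .nil (.nod (nat_lit 1127325038467716651284056665984055102368526960692332213121513185312) .nil (.nod (nat_lit 7874780853718720153304114202414830473483871159381441128695668582448) (.opn (nat_lit 1139910542643680670537784997261985253008967586195132700313171928986693577752660679493712)) .nil .nil) .dup) (.nod (nat_lit 5391913289201748654269428474826503984409041269521191695129526587163865241414665447536) (.dwn (nat_lit 145264076308464383462807551705535150883975213728715359771477319831170949068307112298632) (nat_lit 626101248)) .nil .nil)) .nil .nil l78 = true := by decide +kernel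
theorem cw325 : wchk (nat_lit 5) [] [l78] (nat_lit 3) (nat_lit 3) (nat_lit 0) (nat_lit 0) (nat_lit 5820672) (nat_lit 0) w325 = true := by decide +kernel
theorem cw326 : wchk (nat_lit 5) [w325, w16] [] (nat_lit 4) (nat_lit 1) (nat_lit 0) (nat_lit 2) (nat_lit 90391552) (nat_lit 23275524) w326 = true := by decide +kernel
theorem cw327 : wchk (nat_lit 5) [w287, w16] [] (nat_lit 3) (nat_lit 1) (nat_lit 4) (nat_lit 2) (nat_lit 73747456) (nat_lit 13742084) w327 = true := by decide +kernel
theorem cw328 : wchk (nat_lit 5) [] [l72] (nat_lit 4) (nat_lit 1) (nat_lit 0) (nat_lit 0) (nat_lit 5820672) (nat_lit 0) w328 = true := by decide +kernel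
theorem cw329 : wchk (nat_lit 5) [] [l5] (nat_lit 4) (nat_lit 1) (nat_lit 3) (nat_lit 0) (nat_lit 5413888) (nat_lit 0) w329 = true := by decide +kernel
theorem cl79 : lchk (nat_lit 5) [] (nat_lit 81) (.nod (nat_lit 67108995) .nil .nil (.nod (nat_lit 3885356542769914587062582432146609220725885907841794876274999211606417852337418666244) .nil .nil (.nod (nat_lit 3885341721382492210800194618757145744206938257030031269143853021519841956535757439138) (.opn (nat_lit 34968073639769002100142610228802525461859308494475780448773488934597942123294411981090)) .dup .dup))) .nil .nil (.nod (nat_lit 210625600227595506038119796765227424280368572390695455760609968388) .nil (.opn (nat_lit 3885371364157336963746223052929307968311348694146105673128866098030546453810164793506)) .dup) l79 = true := by decide +kernel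
theorem cw330 : wchk (nat_lit 5) [] [l79] (nat_lit 4) (nat_lit 1) (nat_lit 0) (nat_lit 0) (nat_lit 5820672) (nat_lit 0) w330 = true := by decide +kernel
theorem cw331 : wchk (nat_lit 5) [] [l32] (nat_lit 33) (nat_lit 1) (nat_lit 0) (nat_lit 0) (nat_lit 22583552) (nat_lit 0) w331 = true := by decide +kernel
theorem cl80 : lchk (nat_lit 5) [w168, w38, w33, w4, w331, w265, w10, w39, w3, w281, w173, w320, w328, w329, w330, w172] (nat_lit 23282688) .nil .nil (.nod (nat_lit 7770679505833950352428492028707565921958494367388036716786426980513473409867308859394) .nil .nil (.nod (nat_lit 3885356542769914587349028830380853674376340013260476542811528357285006927699210403970) (.opn (nat_lit 20556436209813942786403795704896446426423664592245261304766662957668190180445307330576)) (.dwn (nat_lit 20556436209813942786403795704896446426423664592245261304766662957668190180445307330576) (nat_lit 627262464)) .dup)) (.nod (nat_lit 7770694327221372728901506245793647034010699585946073918778624031084226422747902771330) (.nod (nat_lit 48401093301198169687052671733631545482666853590237759043323085167601831880163714) .nil (.nod (nat_lit 145156169197335771543152762804217941720563010757832143448157773856775754828582479286328)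 .nil .nil (.dwn (nat_lit 1139910535232986959287753815764554957175006463671919267556589466748209597993993034434560) (nat_lit 4922229760))) (.dwn (nat_lit 5362030593148095987957471031191314424551407226989433116445476928435186098793692698696) (nat_lit 627262464))) .nil (.nod (nat_lit 40990399590010210897957074661524927551331770809964653410744483294978875917861186) (.dwn (nat_lit 145264073529454241767218861389181069026185086910010004833017265774168689775123689285728) (nat_lit 627262464)) .nil .nil)) l80 = true := by decide +kernel
theorem cw332 : wchk (nat_lit 5) [] [l80] (nat_lit 33) (nat_lit 2) (nat_lit 2) (nat_lit 0) (nat_lit 22597888) (nat_lit 0) w332 = true := by decide +kernel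
theorem cw333 : wchk (nat_lit 5) [w332, w16] [] (nat_lit 3) (nat_lit 1) (nat_lit 2) (nat_lit 2) (nat_lit 23282688) (nat_lit 22114308) w333 = true := by decide +kernel
theorem cw334 : wchk (nat_lit 5) [w69, w42] [] (nat_lit 33) (nat_lit 1) (nat_lit 0) (nat_lit 2) (nat_lit 82134016) (nat_lit 21777412) w334 = true := by decide +kernel
theorem cw335 : wchk (nat_lit 5) [w334, w16] [] (nat_lit 3) (nat_lit 1) (nat_lit 4) (nat_lit 2) (nat_lit 23282688) (nat_lit 13742084) w335 = true := by decide +kernel
theorem cw336 : wchk (nat_lit 5) [w162, w250] [] (nat_lit 20) (nat_lit 0) (nat_lit 0) (nat_lit 2) (nat_lit 22121472) (nat_lit 90391556) w336 = true := by decide +kernel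
theorem cl81 : lchk (nat_lit 5) [w15, w281, w153, w1, w33, w149] (nat_lit 23282688) (.nod (nat_lit 928456837244954429760733338) .nil (.dwn (nat_lit 20916654283390666688030571878880293129652567190160201474285264544581951074651240137114) (nat_lit 89753608)) .dup) .nil (.nod (nat_lit 618971827423609361019175002) .nil (.nod (nat_lit 20933256089977156134867151697878661092058145796766161913915249602323698934919662141850) .nil (.dwn (nat_lit 145264062413413674984864100073547927711931133519057751822757560901203188568066527496192) (nat_lit 627262464)) (.opn (nat_lit 145264062413413674984864100073547927711931133519057751822757560901203188568066527496192))) (.dwn (nat_lit 5378625915377588145376343223110413843869494373689804329435016008121197481678870675482) (nat_lit 89753620))) .nil l81 = true := by decide +kernel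
theorem cw337 : wchk (nat_lit 5) [] [l81] (nat_lit 0) (nat_lit 3) (nat_lit 0) (nat_lit 0) (nat_lit 5818880) (nat_lit 0) w337 = true := by decide +kernel
theorem cw338 : wchk (nat_lit 5) [w337, w179] [] (nat_lit 4) (nat_lit 0) (nat_lit 2) (nat_lit 2) (nat_lit 90391552) (nat_lit 23225348) w338 = true := by decide +kernel
theorem cw339 : wchk (nat_lit 5) [w1, w42] [] (nat_lit 33) (nat_lit 1) (nat_lit 4) (nat_lit 2) (nat_lit 80564224) (nat_lit 19483652) w339 = true := by decide +kernel
theorem cw340 : wchk (nat_lit 5) [w339, w16] [] (nat_lit 3) (nat_lit 1) (nat_lit 4) (nat_lit 2) (nat_lit 23282688) (nat_lit 13742084) w340 = true := by decide +kernel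
theorem cw341 : wchk (nat_lit 5) [] [l24] (nat_lit 4) (nat_lit 2) (nat_lit 2) (nat_lit 0) (nat_lit 22483200) (nat_lit 0) w341 = true := by decide +kernel
theorem cw342 : wchk (nat_lit 5) [w16] [] (nat_lit 4) (nat_lit 1) (nat_lit 0) (nat_lit 2) (nat_lit 177) (nat_lit 23275520) w342 = true := by decide +kernel
theorem cw343 : wchk (nat_lit 5) [w1, w16] [] (nat_lit 33) (nat_lit 1) (nat_lit 0) (nat_lit 2) (nat_lit 89739264) (nat_lit 23275524) w343 = true := by decide +kernel
theorem cw344 : wchk (nat_lit 5) [] [l58] (nat_lit 2) (nat_lit 3) (nat_lit 3) (nat_lit 0) (nat_lit 5528576) (nat_lit 0) w344 = true := by decide +kernel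
theorem cw345 : wchk (nat_lit 5) [] [l42] (nat_lit 4) (nat_lit 3) (nat_lit 4) (nat_lit 0) (nat_lit 18146560) (nat_lit 0) w345 = true := by decide +kernel
theorem cw346 : wchk (nat_lit 5) [] [l42] (nat_lit 4) (nat_lit 1) (nat_lit 0) (nat_lit 0) (nat_lit 22339840) (nat_lit 0) w346 = true := by decide +kernel
theorem cw347 : wchk (nat_lit 5) [] [l42] (nat_lit 4) (nat_lit 1) (nat_lit 0) (nat_lit 0) (nat_lit 22597888) (nat_lit 0) w347 = true := by decide +kernel
theorem cl82 : lchk (nat_lit 5) [] (nat_lit 17) (.nod (nat_lit 33554522) .nil .nil (.nod (nat_lit 3885341721382492210589568215060528108685098682395005828643176206545997453228005916932) (.opn (nat_lit 3885371364157336963535596649232690332789509206623366164387816954311402981522157862946)) .nil .nil)) (.nod (nat_lit 618973008015230078396924164) .nil (.nod (nat_lit 3885371364157336963535596649232690332778091126399832078267815232824002853861888884898) .nil (.opn (nat_lit 34968073639769002100142610228802525461756546561919064930265137940418942318262072901922)) .dup) .nil) .nil .nil l82 = true := by decide +kernel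
theorem cw348 : wchk (nat_lit 5) [] [l82] (nat_lit 1) (nat_lit 3) (nat_lit 0) (nat_lit 0) (nat_lit 5820672) (nat_lit 0) w348 = true := by decide +kernel
theorem cl83 : lchk (nat_lit 5) [] (nat_lit 17) (.nod (nat_lit 33554522) .nil .nil (.nod (nat_lit 3885341721382492210589568215060528108685098682395005828643176206545997453228005916932) (.opn (nat_lit 3885371364157336963535596649232690332789509206623366164387816954311402981522157862946)) .nil .nil)) (.nod (nat_lit 618973008015230078396924164) .nil (.nod (nat_lit 3885371364157336963535596649232690332778091126399832078267815232824002853861888884898) .nil (.opn (nat_lit 34968073639769002100142610228802525461756546561919064930265137940418942318262072901922)) .dup) (.opn (nat_lit 3885371364157336963535596649232690332789509206623366164387816962022142004332448448922))) .nil .nil l83 = true := by decide +kernel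
theorem cw349 : wchk (nat_lit 5) [] [l83] (nat_lit 4) (nat_lit 3) (nat_lit 0) (nat_lit 0) (nat_lit 5788416) (nat_lit 0) w349 = true := by decide +kernel
theorem cw350 : wchk (nat_lit 5) [] [l83] (nat_lit 4) (nat_lit 3) (nat_lit 0) (nat_lit 0) (nat_lit 5820672) (nat_lit 0) w350 = true := by decide +kernel
theorem cw351 : wchk (nat_lit 5) [] [l17] (nat_lit 33) (nat_lit 3) (nat_lit 0) (nat_lit 0) (nat_lit 156441088) (nat_lit 0) w351 = true := by decide +kernel
theorem cl84 : lchk (nat_lit 5) [w263, w259, w351, w38, w42, w16, w39, w3, w15, w348, w350, w344, w174, w345, w346, w301, w347] (nat_lit 123816960) .nil .nil (.nod (nat_lit 7770679505833950352428492028707565921974251937287919899649349192153684397509320900610) (.opn (nat_lit 5391904025834609667847188956755675834862923613597370456227209579652120024214021777424)) .nil .nil) (.nod (nat_lit 5284006293865225978679010770791925242487837720868450608293506382398400347430001528865) (.nod (nat_lit 48401093301198169687052671733631545482666853590237756570087402700039767434723714) .nil (.nod (nat_lit 145156168270999057644623199415650061651059747931672266123033261540967508812687765753904) .nil (.dwn (nat_lit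 17054224220429115998214900442309490109186248413964894348689171163309344854696537329145856) (nat_lit 73641577472)) .dup) (.dwn (nat_lit 5390249588463586894046976974521871702035833197110813003351854832432225148817410314304) (nat_lit 627262504))) .nil (.nod (nat_lit 40990399590010225476099012179084707268011872528991786025966552174722663558676802) (.opn (nat_lit 145264074455790955665748424827965762984627714589717848937656698579313891871066121742440)) .nil .nil)) l84 = true := by decide +kernel
theorem cw352 : wchk (nat_lit 5) [] [l84] (nat_lit 33) (nat_lit 2) (nat_lit 2) (nat_lit 0) (nat_lit 22597888) (nat_lit 0) w352 = true := by decide +kernel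
theorem cw353 : wchk (nat_lit 5) [] [l51] (nat_lit 3) (nat_lit 3) (nat_lit 0) (nat_lit 0) (nat_lit 5788416) (nat_lit 0) w353 = true := by decide +kernel
theorem cl85 : lchk (nat_lit 5) [w211, w5, w7] (nat_lit 55804928) (.nod (nat_lit 5828018024301932469745537230427087571342190137614915796530713096059945631102380539970) (.nod (nat_lit 3885349132076203398826075323603568664699783298562776275278900686321041345897155264578) .nil .nil (.nod (nat_lit 3885341721382492210589568215060528108688467479869217320957094395939819603112063139842) (.opn (nat_lit 145025023077065587228077848560842848036382695759247365242747831876031143965036607113216)) .nil .dup)) .nil .nil) .nil (.nod (nat_lit 3885341721382492210589568215060528108673680689283757674282802161035664839456858308610) .nil (.dwn (nat_lit 48401093301206024940244626176885314067694852850440864491359102557791643219526018) (nat_lit 625707016)) .dup) .nil l85 = true := by decide +kernel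
theorem cw354 : wchk (nat_lit 5) [] [l85] (nat_lit 2) (nat_lit 3) (nat_lit 3) (nat_lit 0) (nat_lit 5820672) (nat_lit 0) w354 = true := by decide +kernel
theorem cw355 : wchk (nat_lit 5) [] [l24] (nat_lit 0) (nat_lit 0) (nat_lit 0) (nat_lit 1) (nat_lit 5657600) (nat_lit 0) w355 = true := by decide +kernel
theorem cl86 : lchk (nat_lit 5) [w267, w259, w264, w263, w103, w355, w42, w16, w39, w3, w15, w260, w262, w354, w265, w257, w256, w296, w258] (nat_lit 23153664) .nil .nil (.nod (nat_lit 7770679505833950352428492028707565921974251937287919899649349192153684397509320900610) (.nod (nat_lit 5362024108791098698541203270816515819844247475804896957158222157659244513881949378576) .nil .nil (.dwn (nat_lit 145234182496370164015265818634459792752060773896404512807039281050057504434553289349120) (nat_lit 627133440))) .nil (.nod (nat_lit 5375305924594975815421068557080952357642494346099122731077376939734185159886192859168) (.opn (nat_lit 145234182496370164015265818634459792752487578799081453500279481913192173162019386726400)) .dup .dup)) (.nod (nat_lit 5284008146538653775738137547927685381494363373188205258542531013719744474040075767857) (.nod (nat_lit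 48401093301198169687052671733631545482666853590237756570087697847944946787549570) .nil (.nod (nat_lit 145156170123672485441682326192785821790066273583992020773282286172584000844477192818752) .nil (.dwn (nat_lit 1139880655315943448379950208262402752542307105665139209035399980006486172097022938748928) (nat_lit 4922100736)) .dup) (.dwn (nat_lit 5390251441137014691106103751657631841042271045690866310007275082572012346591698964560) (nat_lit 627133488))) .nil (.nod (nat_lit 40990399590010225476199445806850894160233245159763108686244412302372966276006210) (.dwn (nat_lit 145234196391420872493209270266447015924531659008739061448976098942879028760325980330104) (nat_lit 627133440)) .nil .nil)) l86 = true := by decide +kernel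
theorem cw356 : wchk (nat_lit 5) [] [l86] (nat_lit 4) (nat_lit 2) (nat_lit 2) (nat_lit 0) (nat_lit 22597888) (nat_lit 0) w356 = true := by decide +kernel
theorem cw357 : wchk (nat_lit 5) [] [l24] (nat_lit 0) (nat_lit 0) (nat_lit 4) (nat_lit 1) (nat_lit 1528832) (nat_lit 0) w357 = true := by decide +kernel
theorem cl87 : lchk (nat_lit 5) [w267, w259, w264, w263, w168, w357, w355, w42, w16, w39, w3, w15, w260, w262, w354, w265, w257, w256, w296, w258] (nat_lit 23153664) .nil .nil (.nod (nat_lit 7770679505833950352428492028707565921974251937287919899649349192153684397509320900610) (.opn (nat_lit 5362024108791098698541203270816515819905764789222366876646152440333528477174076184592)) .nil (.nod (nat_lit 5391906804844751363726555082059677925615601959982925222830093602345228508910556981288) (.opn (nat_lit 145234182496370164015265818634459792752487578799081453500279481913192173162019386726400)) .dup .dup)) (.nod (nat_lit 5284009072875367674267700936495565450997626199348082583667043329380416537345112887353) (.nod (nat_lit 48401093301198169687052671733631545482666853590237756570087845421897536463962498) .nil (.nod (nat_lit 145156171050009199340211889581353701859569536410151898098406798488392246860371906351176)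 .nil (.dwn (nat_lit 1139880655315943448379950208262402752542307105665139209035399980006486172097022938748928) (nat_lit 4922100736)) .dup) (.dwn (nat_lit 5390252367473728589635667140225511910545533874573002570499295106087255221940558188632) (nat_lit 627133492))) .nil (.nod (nat_lit 40990399590010225476249662620733987606343931475148770017573378719881268228522306) (.dwn (nat_lit 145234197317757586391738833705231709877128367948307513095129450295213115191387115657344) (nat_lit 627133440)) .nil .nil)) l87 = true := by decide +kernel
theorem cw358 : wchk (nat_lit 5) [] [l87] (nat_lit 4) (nat_lit 2) (nat_lit 2) (nat_lit 0) (nat_lit 22597888) (nat_lit 0) w358 = true := by decide +kernel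
theorem cw359 : wchk (nat_lit 5) [] [l55] (nat_lit 33) (nat_lit 2) (nat_lit 0) (nat_lit 0) (nat_lit 20468992) (nat_lit 0) w359 = true := by decide +kernel
theorem cw360 : wchk (nat_lit 5) [w78, w16] [] (nat_lit 3) (nat_lit 1) (nat_lit 1) (nat_lit 2) (nat_lit 14767104) (nat_lit 22630404) w360 = true := by decide +kernel
theorem cw361 : wchk (nat_lit 5) [w360, w16] [] (nat_lit 4) (nat_lit 1) (nat_lit 4) (nat_lit 2) (nat_lit 90391552) (nat_lit 17541124) w361 = true := by decide +kernel
theorem cw362 : wchk (nat_lit 5) [w230] [] (nat_lit 0) (nat_lit 2) (nat_lit 0) (nat_lit 2) (nat_lit 33554473) (nat_lit 23225344) w362 = true := by decide +kernel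
theorem cw363 : wchk (nat_lit 5) [w362, w16] [] (nat_lit 4) (nat_lit 1) (nat_lit 4) (nat_lit 2) (nat_lit 90391552) (nat_lit 17541124) w363 = true := by decide +kernel
theorem cw364 : wchk (nat_lit 5) [w352, w16] [] (nat_lit 3) (nat_lit 1) (nat_lit 1) (nat_lit 2) (nat_lit 23282688) (nat_lit 22630404) w364 = true := by decide +kernel
theorem cl88 : lchk (nat_lit 5) [w268, w341, w342, w343, w352, w16, w353, w356, w358, w241, w183, w184, w213, w186, w196, w361, w363, w364, w178, w179, w251, w309, w249, w269, w333, w335, w284, w336, w338, w340, w209, w310, w24, w275, w311, w312, w313, w314, w267, w326, w327, w307, w306, w305, w308] (nat_lit 23153664) .nil .nil (.nod (nat_lit 5028364108801845639224908880790279348870377081899535338423726867848740385137534345224) (.nod (nat_lit 5391904952171323566669048148689344731899473552810604174167783053262179623028417538072) .nil (.nod (nat_lit 7874780903935534036397648125007624008818188091484057526723827632192) .nil (.dwn (nat_lit 61793054143387317267896170783561687224908935962791316414216100026368) (nat_lit 4922100736)) .dup) (.dwn (nat_lit 145264069824107386173100607583825479332704805035605364991984371718695288395838198810688)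 (nat_lit 627133440))) .nil (.nod (nat_lit 5391910510191606957846428480096625148919845683986865542362847405252480810837565147216) (.opn (nat_lit 145264072603117527868689297950396375073588377970441553186863914421834603344062570989672)) (.dwn (nat_lit 145264076308464383462807551504667895351601429283247839293464486808041004033414202296456) (nat_lit 627133440)) (.dwn (nat_lit 145264076308464383462807551504667895351601429283247839293464486808041004033414202296456) (nat_lit 627133440)))) (.nod (nat_lit 5391918847222032044320203173841756946915406938128244802806825977022034872618491136152) (.nod (nat_lit 5390246925245534435774482232389216502259624528012604698855332389335487185470028941472) .nil (.nod (nat_lit 145264081866484666846110150630838758433662681426581256503117815268982815580109249611960) .nil (.nod (nat_lit 5375306850931689775454631128187934065874154571751097382567151629811519564166968203304) (.dwn (nat_lit 9097082340947991081238242136264351417737050977228948226235247964102647387696032018499816) (nat_lit 39281839104)) .nil .nil) .dup) (.nod (nat_lit 5391929963262598826674963836656317780954599911017977357302365014134627706887838542064) (.dwn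 (nat_lit 1139910565802098518001024083231602601820596843166664910268411232755032857494362797017376) (nat_lit 4922229908)) .nil .nil)) (.nod (nat_lit 20933288511762142583401962094090241819553264643736447789844757144670016545569137404208) (.dwn (nat_lit 145234220476175433854977919674849058692046091437518804248963234103565275967915498838344) (nat_lit 627133440)) .nil .nil) .dup) l88 = true := by decide +kernel
theorem cw365 : wchk (nat_lit 5) [] [l88] (nat_lit 212) (nat_lit 1) (nat_lit 2) (nat_lit 0) (nat_lit 1230557440) (nat_lit 0) w365 = true := by decide +kernel
theorem cw366 : wchk (nat_lit 5) [w69, w16] [] (nat_lit 3) (nat_lit 1) (nat_lit 2) (nat_lit 2) (nat_lit 90391552) (nat_lit 22114308) w366 = true := by decide +kernel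
theorem cw367 : wchk (nat_lit 5) [] [l30] (nat_lit 19) (nat_lit 3) (nat_lit 4) (nat_lit 0) (nat_lit 5788416) (nat_lit 0) w367 = true := by decide +kernel
theorem cw368 : wchk (nat_lit 5) [] [l15] (nat_lit 4) (nat_lit 2) (nat_lit 2) (nat_lit 0) (nat_lit 22191104) (nat_lit 0) w368 = true := by decide +kernel
theorem cw369 : wchk (nat_lit 5) [w368, w16] [] (nat_lit 3) (nat_lit 1) (nat_lit 2) (nat_lit 2) (nat_lit 90391552) (nat_lit 22114308) w369 = true := by decide +kernel
theorem cw370 : wchk (nat_lit 5) [] [l37] (nat_lit 4) (nat_lit 1) (nat_lit 2) (nat_lit 0) (nat_lit 22305792) (nat_lit 0) w370 = true := by decide +kernel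
theorem cw371 : wchk (nat_lit 5) [w370, w16] [] (nat_lit 3) (nat_lit 1) (nat_lit 2) (nat_lit 2) (nat_lit 90391552) (nat_lit 22114308) w371 = true := by decide +kernel
theorem cw372 : wchk (nat_lit 5) [w241, w16] [] (nat_lit 3) (nat_lit 1) (nat_lit 2) (nat_lit 2) (nat_lit 90269696) (nat_lit 22114308) w372 = true := by decide +kernel
theorem cw373 : wchk (nat_lit 5) [] [l47] (nat_lit 4) (nat_lit 2) (nat_lit 2) (nat_lit 0) (nat_lit 22597888) (nat_lit 0) w373 = true := by decide +kernel
theorem cw374 : wchk (nat_lit 5) [w373, w16] [] (nat_lit 3) (nat_lit 1) (nat_lit 2) (nat_lit 2) (nat_lit 90391552) (nat_lit 22114308) w374 = true := by decide +kernel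
theorem cw375 : wchk (nat_lit 5) [] [l47] (nat_lit 4) (nat_lit 1) (nat_lit 2) (nat_lit 0) (nat_lit 22597888) (nat_lit 0) w375 = true := by decide +kernel
theorem cw376 : wchk (nat_lit 5) [w375, w16] [] (nat_lit 3) (nat_lit 1) (nat_lit 2) (nat_lit 2) (nat_lit 90391552) (nat_lit 22114308) w376 = true := by decide +kernel
theorem cl89 : lchk (nat_lit 5) [] (nat_lit 49) (.nod (nat_lit 67108995) .nil .nil (.nod (nat_lit 3885349132076203398826075323603568664699783298562776275278900686321041345897121710340) .nil .nil (.dwn (nat_lit 3885341721382492210800194618757145744206938257030031269143853021519841956535757439074) (nat_lit 16777361)))) .nil (.nod (nat_lit 210625600227595506038119796765227424280368572390695455760609968388) .nil (.opn (nat_lit 3885371364157336963746223052929307968311348694146105673128866098030546453810164793506)) .dup) .nil l89 = true := by decide +kernel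
theorem cw377 : wchk (nat_lit 5) [] [l89] (nat_lit 20) (nat_lit 0) (nat_lit 0) (nat_lit 1) (nat_lit 5820672) (nat_lit 0) w377 = true := by decide +kernel
theorem cw378 : wchk (nat_lit 5) [] [l5] (nat_lit 28) (nat_lit 0) (nat_lit 3) (nat_lit 1) (nat_lit 5413888) (nat_lit 0) w378 = true := by decide +kernel
theorem cw379 : wchk (nat_lit 5) [] [l5] (nat_lit 28) (nat_lit 0) (nat_lit 3) (nat_lit 1) (nat_lit 5413888) (nat_lit 0) w379 = true := by decide +kernel
theorem cl90 : lchk (nat_lit 5) [] (nat_lit 17) (.nod (nat_lit 33554522) .nil .nil (.nod (nat_lit 3885341721382492210589568215060528108673680689283757674282802161035664839456824754436) .nil .nil (.opn (nat_lit 3885341721382492210800194618757145744206938257030031269143853021519841956535757439010)))) (.nod (nat_lit 618973008015230078396924164) .nil (.dwn (nat_lit 3885371364157336963535596649232690332789509206623366164388435924958234970165732180130) (nat_lit 16777361)) (.opn (nat_lit 3885371364157336963535596649232690332789509206623366164387816962022142004332448448922))) .nil .nil l90 = true := by decide +kernel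
theorem cw380 : wchk (nat_lit 5) [] [l90] (nat_lit 28) (nat_lit 0) (nat_lit 0) (nat_lit 1) (nat_lit 5820672) (nat_lit 0) w380 = true := by decide +kernel
theorem cw381 : wchk (nat_lit 5) [] [l90] (nat_lit 33) (nat_lit 2) (nat_lit 0) (nat_lit 0) (nat_lit 5820672) (nat_lit 0) w381 = true := by decide +kernel
theorem cl91 : lchk (nat_lit 5) [w171, w47, w381, w22, w53, w377, w12, w124, w4, w378, w379, w380] (nat_lit 23282688) .nil .nil (.nod (nat_lit 7770679505833950352428492028707565921958494367388036716786426980513473409867308859394) .nil .nil (.dwn (nat_lit 3885356542769914587349028830380853674376340013260476542811528357285006927699210403970) (nat_lit 23282696))) (.nod (nat_lit 7770694327221372728901506245793647034010699585946073918778624031084226422747902771330) (.nod (nat_lit 40990399590009933179944128693075519380057574571636762945061809592278322685935938) .nil (.dwn (nat_lit 145116326528934281888101857111128272316152487520820967102167400582858460530061898092576) (nat_lit 9217197064)) .dup) (.nod (nat_lit 40990399590010223946093126788993591167621215358662340565718255306796797842686274) .nil (.dwn (nat_lit 145264070750444100071630171072826987167968067349498641697945806272216523794965477107784)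 (nat_lit 627262464)) .dup) .nil) l91 = true := by decide +kernel
theorem cw382 : wchk (nat_lit 5) [] [l91] (nat_lit 4) (nat_lit 3) (nat_lit 2) (nat_lit 0) (nat_lit 22597888) (nat_lit 0) w382 = true := by decide +kernel
theorem cw383 : wchk (nat_lit 5) [w382, w16] [] (nat_lit 3) (nat_lit 1) (nat_lit 2) (nat_lit 2) (nat_lit 90391552) (nat_lit 22114308) w383 = true := by decide +kernel
theorem cw384 : wchk (nat_lit 5) [] [l47] (nat_lit 4) (nat_lit 2) (nat_lit 2) (nat_lit 0) (nat_lit 22597888) (nat_lit 0) w384 = true := by decide +kernel
theorem cw385 : wchk (nat_lit 5) [w384, w16] [] (nat_lit 3) (nat_lit 1) (nat_lit 2) (nat_lit 2) (nat_lit 90391552) (nat_lit 22114308) w385 = true := by decide +kernel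
theorem cw386 : wchk (nat_lit 5) [] [l51] (nat_lit 3) (nat_lit 3) (nat_lit 0) (nat_lit 0) (nat_lit 5788416) (nat_lit 0) w386 = true := by decide +kernel
theorem cw387 : wchk (nat_lit 5) [w177, w175] [] (nat_lit 0) (nat_lit 0) (nat_lit 0) (nat_lit 2) (nat_lit 21655552) (nat_lit 90262532) w387 = true := by decide +kernel
theorem cw388 : wchk (nat_lit 5) [w177] [] (nat_lit 3) (nat_lit 0) (nat_lit 4) (nat_lit 2) (nat_lit 197) (nat_lit 15290368) w388 = true := by decide +kernel
theorem cw389 : wchk (nat_lit 5) [] [] (nat_lit 0) (nat_lit 2) (nat_lit 4) (nat_lit 2) (nat_lit 33554441) (nat_lit 193) w389 = true := by decide +kernel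
theorem cw390 : wchk (nat_lit 5) [] [l1] (nat_lit 4) (nat_lit 1) (nat_lit 4) (nat_lit 0) (nat_lit 20141056) (nat_lit 0) w390 = true := by decide +kernel
theorem cw391 : wchk (nat_lit 5) [] [l90] (nat_lit 33) (nat_lit 3) (nat_lit 2) (nat_lit 0) (nat_lit 5820672) (nat_lit 0) w391 = true := by decide +kernel
theorem cl92 : lchk (nat_lit 5) [w267, w168, w390, w263, w391, w16, w86, w389] (nat_lit 23282688) .nil .nil (.nod (nat_lit 48516885390435485882476242718640256226494776470736805172865993627890463629377554) (.nod (nat_lit 20903374320260217367076659177236425121237666591043781424219178878313894234689924139024) .nil .nil .nil) .nil (.dwn (nat_lit 70633174434763171504131449830244079954950748959513770501822991790498643766673986) (nat_lit 90391552))) (.nod (nat_lit 15806364009323076992013615315294451181194397737) (.nod (nat_lit 142238029372955307938921825553000733606290) .nil (.dwn (nat_lit 143351753280649256313980354487791155967808892742395830587759772946830915646812861401136) (nat_lit 627262464)) .dup) .nil (.dwn (nat_lit 1134794287364687970397447853482017160944409627413380182099670073682) (nat_lit 90391580))) l92 = true := by decide +kernel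
theorem cw392 : wchk (nat_lit 5) [] [l92] (nat_lit 4) (nat_lit 2) (nat_lit 0) (nat_lit 0) (nat_lit 22597888) (nat_lit 0) w392 = true := by decide +kernel
theorem cl93 : lchk (nat_lit 5) [w233, w38, w174, w16, w33] (nat_lit 115430400) .nil .nil (.nod (nat_lit 22835974652895833408840333265928574862310244370) (.nod (nat_lit 273488049845339956068483723106042531309790100736724633937921441938) .nil .nil (.nod (nat_lit 20903375246596931265816847362562878567283911442987840003042139532255749632280756394000) (.opn (nat_lit 145234184349043591812324945512029180657680996678218356792586184617860346024141657380880)) .dup .dup)) .nil .nil) (.nod (nat_lit 22835974652895833408840333265928574862280181785) (.nod (nat_lit 142238029372995204719630940325059225452946) .nil (.dwn (nat_lit 2134419232140428687499496403580258140022904599229909178518937299381344283666738606006304) (nat_lit 9208681472)) .dup) .nil (.dwn (nat_lit 14507860895213848581025576968108351932552365326808122039830872850770) (nat_lit 1155617792))) l93 = true := by decide +kernel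
theorem cw393 : wchk (nat_lit 5) [] [l93] (nat_lit 33) (nat_lit 2) (nat_lit 0) (nat_lit 0) (nat_lit 22597888) (nat_lit 0) w393 = true := by decide +kernel
theorem cw394 : wchk (nat_lit 5) [] [] (nat_lit 0) (nat_lit 2) (nat_lit 4) (nat_lit 2) (nat_lit 33554441) (nat_lit 16777281) w394 = true := by decide +kernel
theorem cl94 : lchk (nat_lit 5) [w263, w38, w351, w16, w78, w394] (nat_lit 123945984) .nil .nil (.nod (nat_lit 3885356658562003824378777855717594229436629735764675375324403584329930435112858550290) (.nod (nat_lit 5044964062714907289000832017201124847324376485094840237125373790854208411383143507984) .nil .nil (.nod (nat_lit 3885341721382492211724362150907518897417005647501609245585676419649511432596913913858) (.opn (nat_lit 145264062413413674984864100073547927711931133519057751822780702801484093470000502179840)) .dup .dup)) .nil .nil) (.nod (nat_lit 15806358564805206256998199901300732272903014425) (.nod (nat_lit 142238029372955607827787805801771031331218) .nil (.dwn (nat_lit 145234186201717019601510911379645275355288297682426319194442078883274226822712437938208) (nat_lit 9217197056)) .dup) .nil (.dwn (nat_lit 1134794186931060204210555632109386389621746969480545165495765041490)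 (nat_lit 90391572))) l94 = true := by decide +kernel
theorem cw395 : wchk (nat_lit 5) [] [l94] (nat_lit 33) (nat_lit 2) (nat_lit 0) (nat_lit 0) (nat_lit 22597888) (nat_lit 0) w395 = true := by decide +kernel
theorem cw396 : wchk (nat_lit 5) [] [] (nat_lit 0) (nat_lit 0) (nat_lit 4) (nat_lit 2) (nat_lit 33554433) (nat_lit 33554469) w396 = true := by decide +kernel
theorem cl95 : lchk (nat_lit 5) [w263, w38, w351, w16, w78, w396] (nat_lit 56715264) (.nod (nat_lit 7770679505833950352849741816814866472031562097865871343620982556248858856823969546242) .nil .nil (.nod (nat_lit 279877235509313701404038564385190993817418379840005018251059062800) .nil (.dwn (nat_lit 210624796758573376604416397416408395964870568134600574300367880202) (nat_lit 90269696)) .nil)) .nil .nil (.nod (nat_lit 5390245072572106638715355455253456363191581518719237163237452557895324612222122414105) (.nod (nat_lit 48401093301198169687052671733631545482666853590237759082197310906679571926483330) .nil (.dwn (nat_lit 145131266487456037380767769654961659257697890284394344499810362980406098898004775077920) (nat_lit 4922107904)) .dup) .nil (.dwn (nat_lit 40990399590009933179944128693075580897373714300491618442818756228204478135796034)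 (nat_lit 90391572))) l95 = true := by decide +kernel
theorem cw397 : wchk (nat_lit 5) [] [l95] (nat_lit 34) (nat_lit 2) (nat_lit 1) (nat_lit 0) (nat_lit 22597888) (nat_lit 0) w397 = true := by decide +kernel
theorem cw398 : wchk (nat_lit 5) [w397, w177] [] (nat_lit 3) (nat_lit 0) (nat_lit 2) (nat_lit 2) (nat_lit 23282688) (nat_lit 22630404) w398 = true := by decide +kernel
theorem cw399 : wchk (nat_lit 5) [] [l5] (nat_lit 3) (nat_lit 1) (nat_lit 0) (nat_lit 0) (nat_lit 5671936) (nat_lit 0) w399 = true := by decide +kernel
theorem cw400 : wchk (nat_lit 5) [] [l35] (nat_lit 33) (nat_lit 1) (nat_lit 0) (nat_lit 0) (nat_lit 5818880) (nat_lit 0) w400 = true := by decide +kernel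
theorem cw401 : wchk (nat_lit 5) [] [l72] (nat_lit 4) (nat_lit 3) (nat_lit 2) (nat_lit 0) (nat_lit 22191104) (nat_lit 0) w401 = true := by decide +kernel
theorem cl96 : lchk (nat_lit 5) [w267, w69, w4, w263, w391, w233, w16, w399, w401, w39, w3, w400, w91, w255, w256, w257, w258] (nat_lit 23282688) .nil .nil (.nod (nat_lit 5390243219898678841656228678117696224207891841052378346397268259839909060474323337234) (.nod (nat_lit 5254124408356197974999322677694633141988002671083146345867036383195043798336271976480) .nil .nil (.nod (nat_lit 145264062413413674984864100073547927711504240807196591915188740241177821287677000321024) (.opn (nat_lit 1139910535232986959349548489701490887505100468562454253887548771423345327171782016665600)) .dup .dup)) .nil (.nod (nat_lit 3419832279973027370056210516850870825155468725322104700495287203222440452169929492512) .nil (.dwn (nat_lit 145264062413413674976989319470913276974521054789084992583071877296887442574120132708352) (nat_lit 627262464)) .dup)) (.nod (nat_lit 15806366731582012359521323022291310635340089393) (.nod (nat_lit 142238029372955612588375942392142435975570) .nil (.dwn (nat_lit 145264069824107386165225826579456317530546137860669796280426486121005019150606690504776)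 (nat_lit 627262464)) .dup) .nil (.nod (nat_lit 292296154883486009187888074757915245037953774603177795353074205010) (.dwn (nat_lit 145264074455790955665748424827965762978781795849578456479170617126502776206184841644152) (nat_lit 627262464)) .nil .nil)) l96 = true := by decide +kernel
theorem cw402 : wchk (nat_lit 5) [] [l96] (nat_lit 4) (nat_lit 2) (nat_lit 0) (nat_lit 0) (nat_lit 22597888) (nat_lit 0) w402 = true := by decide +kernel
theorem cw403 : wchk (nat_lit 5) [w195, w177] [] (nat_lit 3) (nat_lit 0) (nat_lit 0) (nat_lit 2) (nat_lit 23160832) (nat_lit 21712900) w403 = true := by decide +kernel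
theorem cw404 : wchk (nat_lit 5) [] [] (nat_lit 0) (nat_lit 2) (nat_lit 2) (nat_lit 2) (nat_lit 33554465) (nat_lit 433) w404 = true := by decide +kernel
theorem cw405 : wchk (nat_lit 5) [] [l26] (nat_lit 3) (nat_lit 1) (nat_lit 4) (nat_lit 0) (nat_lit 18404608) (nat_lit 0) w405 = true := by decide +kernel
theorem cw407 : wchk (nat_lit 5) [] [] (nat_lit 273) (nat_lit 0) (nat_lit 0) (nat_lit 2) (nat_lit 33554513) (nat_lit 16777233) w407 = true := by decide +kernel
theorem cl97 : lchk (nat_lit 5) [w211, w5, w407] (nat_lit 593650688) (.nod (nat_lit 271868262573828629257418189152752062614114136221347023223972167811) (.nod (nat_lit 7770694443013461966217701669364632042698607439216058584419188070541810430661032411267) .nil .nil (.nod (nat_lit 3885341721382492210589568215060528108673680689283757674282802161035664839456891863107) .nil .nil (.nod (nat_lit 3885341721382492210589568215060528108673680689283757674282802161035664839456858308610) .nil (.dwn (nat_lit 48401093301198169687052671733658279404856115520545175180383435381544589912441218) (nat_lit 39281968136)) .dup))) .nil .nil) .nil .nil .nil l97 = true := by decide +kernel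
theorem cw408 : wchk (nat_lit 5) [] [l97] (nat_lit 2321) (nat_lit 1) (nat_lit 1) (nat_lit 0) (nat_lit 9820492032) (nat_lit 0) w408 = true := by decide +kernel
theorem cw409 : wchk (nat_lit 5) [] [] (nat_lit 161) (nat_lit 0) (nat_lit 4) (nat_lit 2) (nat_lit 33554437) (nat_lit 16777217) w409 = true := by decide +kernel
theorem cl98 : lchk (nat_lit 5) [w263, w38, w351, w16, w135, w409] (nat_lit 1130521600) (.nod (nat_lit 7770679621626039589744687452278550930646402220658021382426991019971057417780438499331) .nil .nil (.nod (nat_lit 5043304183115690361339435127131025306165299859864658279639868166387454976669746653201) (.nod (nat_lit 3885341721382492211010817601433317593999179534271069215826707106220301840715310170114) .nil .nil (.nod (nat_lit 292295759426076679826999832643223692940039038316000997170878040089) (.nod (nat_lit 2623828525391632559283359978902253808112387304167941578162570) .nil (.dwn (nat_lit 72754439981993697227551165973646807137676849147388440810146368168821814700639069069924384) (nat_lit 4922172416)) .dup) .nil (.dwn (nat_lit 2222094014353618912595298162929035846313962806013301406826826) (nat_lit 39281968148)))) .nil .nil)) .nil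 .nil .nil l98 = true := by decide +kernel
theorem cw410 : wchk (nat_lit 5) [] [l98] (nat_lit 2209) (nat_lit 2) (nat_lit 0) (nat_lit 0) (nat_lit 9820492032) (nat_lit 0) w410 = true := by decide +kernel
theorem cw411 : wchk (nat_lit 5) [] [l56] (nat_lit 4) (nat_lit 2) (nat_lit 1) (nat_lit 0) (nat_lit 22583552) (nat_lit 0) w411 = true := by decide +kernel
theorem cw412 : wchk (nat_lit 5) [] [] (nat_lit 0) (nat_lit 0) (nat_lit 4) (nat_lit 2) (nat_lit 33554501) (nat_lit 16777281) w412 = true := by decide +kernel
theorem cw413 : wchk (nat_lit 5) [] [] (nat_lit 0) (nat_lit 0) (nat_lit 4) (nat_lit 2) (nat_lit 33554437) (nat_lit 16777281) w413 = true := by decide +kernel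
theorem cl99 : lchk (nat_lit 5) [w263, w38, w351, w16, w412, w413] (nat_lit 56779776) (.nod (nat_lit 3885356658562003824800027235813281979352611842263301660251801780146283417045032763402) (.nod (nat_lit 5043304067323601124023239703560040297477392006594673613999304126929870968756617013264) .nil .nil (.nod (nat_lit 3885341721382492210589568215060528108673680689283757674282802161035664839456858308610) .nil .nil (.opn (nat_lit 3885341721382492218463628909451350818440316620239148073145697718691101044147012763650)))) .nil .nil) .nil .nil (.nod (nat_lit 292295759426076679826999832643223692940039038316000997170878040089) (.nod (nat_lit 2623828525391632559283359978900807896791027210413860720738698) .nil (.dwn (nat_lit 145264066118760530578982353828686703521891076554581362758355256719967084476038933547040) (nat_lit 4922172416)) .dup) .nil (.dwn (nat_lit 2222094014326946507714009184670372684151005316743498460823882) (nat_lit 90391572))) l99 = true := by decide +kernel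
theorem cw414 : wchk (nat_lit 5) [] [l99] (nat_lit 2209) (nat_lit 2) (nat_lit 0) (nat_lit 0) (nat_lit 22597888) (nat_lit 0) w414 = true := by decide +kernel
theorem cl100 : lchk (nat_lit 5) [w217, w410, w414, w32, w408, w26] (nat_lit 90262528) (.nod (nat_lit 7770694443013461966217701669364632042698607439216058584419188070541810430661032411267) .nil .nil (.nod (nat_lit 3885341721382492210589568215060528108673680689283757674282802161035664839456858308610) .nil .nil (.dwn (nat_lit 3885341721382492210881863867775875286927107536718561172692512125611623280739113500674) (nat_lit 23282696)))) (.nod (nat_lit 3885356542769914587334450788876963880783515554531388287004109589363096542521908527234) .nil .nil (.nod (nat_lit 5391905878508037465178904099299246427741885637188889468745173480358330603039749482528) (.nod (nat_lit 20903373393923503469680269930966922778279982425312675778494193680503920976744583174144) .nil (.dwn (nat_lit 145234182496370164015265818634459792752060773896404512807039281050057504434553289349120) (nat_lit 627133440)) .dup) (.dwn (nat_lit 20903373393923503469680269930966922778341411918656890742183473335459518949296697415680) (nat_lit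 90262528)) (.dwn (nat_lit 20903373393923503469680269930966922778341411918656890742183473335459518949296697415680) (nat_lit 90262528)))) .nil .nil l100 = true := by decide +kernel
theorem cw416 : wchk (nat_lit 5) [w16, w392] [] (nat_lit 4) (nat_lit 0) (nat_lit 2) (nat_lit 2) (nat_lit 88821760) (nat_lit 694313988) w416 = true := by decide +kernel
theorem cl101 : lchk (nat_lit 5) [w84, w69, w86, w85, w87, w88, w89, w90, w92] (nat_lit 15025152) (.nod (nat_lit 7770684137517519845497558552509909551787411022084207003390552403174489506036113377289) (.nod (nat_lit 17991742403909203996379741050774124689649727298522774144362828813411297925704200486995) .nil .nil (.nod (nat_lit 418248390948097345508598292643925678170292021272) .nil (.dwn (nat_lit 61691007149824694346088345987748936878302773293836356923744776618386) (nat_lit 4913972224)) .dup)) .nil (.nod (nat_lit 3479591187723335410895641137444496782524129414162340277181457401561236341367733676064) (.opn (nat_lit 143351753280649256321751468654832267906396994357492755529663402923925508109349970700336)) (.dwn (nat_lit 143351753280649256321751468654832267906396994357492755529663402923925508109349970700336)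 (nat_lit 619004928)) .dup)) .nil .nil (.nod (nat_lit 143351750501639114626162778238044558281819039216355791738838774645425875151875569876992) .nil (.dwn (nat_lit 45622083159502580999309929363285635720689154060931903550319898404135950253817856) (nat_lit 4909528064)) .dup) l101 = true := by decide +kernel
theorem cw417 : wchk (nat_lit 5) [] [l101] (nat_lit 275) (nat_lit 1) (nat_lit 4) (nat_lit 0) (nat_lit 22597888) (nat_lit 0) w417 = true := by decide +kernel
theorem cw418 : wchk (nat_lit 5) [] [l14] (nat_lit 1) (nat_lit 3) (nat_lit 2) (nat_lit 0) (nat_lit 22205440) (nat_lit 0) w418 = true := by decide +kernel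
theorem cw419 : wchk (nat_lit 5) [w69] [] (nat_lit 0) (nat_lit 0) (nat_lit 4) (nat_lit 2) (nat_lit 33554501) (nat_lit 73747456) w419 = true := by decide +kernel
theorem cw420 : wchk (nat_lit 5) [w69] [] (nat_lit 0) (nat_lit 0) (nat_lit 4) (nat_lit 2) (nat_lit 33554437) (nat_lit 73747456) w420 = true := by decide +kernel
theorem cl102 : lchk (nat_lit 5) [w267, w69, w174, w263, w391, w16, w419, w420] (nat_lit 23225344) (.nod (nat_lit 20903374436052306604814103980903097879864392525465288208195981446853759799397357453322) (.nod (nat_lit 5363684104182404863228119624857238487464465541511232041791321316425595583820750047264) .nil .nil (.nod (nat_lit 145250782450283225657168580961784600575318286249222499690471357425186470850784485754880) .nil (.dwn (nat_lit 48401093301259963641081363835930646148771848241984074549005695945726105571295618) (nat_lit 4922172416)) .dup)) .nil (.nod (nat_lit 5363684104182404863519695519979199287354787921987612856339095320516870001049618532384) (.opn (nat_lit 145250782450283225665042641656175423285511775865734952568335715740021017777564450867200)) .dup .dup)) .nil .nil (.nod (nat_lit 292295859859704446013892054015854464262701695953688108595430246441)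 (.nod (nat_lit 2623828525391632559283359978900807896791322358319040073564554) .nil (.dwn (nat_lit 145264067971433958376041480706256091427084494428273748179926944009221263619252912818224) (nat_lit 627205120)) .dup) .nil (.dwn (nat_lit 2222094014326946507719453702541107699566714458367586105033034) (nat_lit 90391580))) l102 = true := by decide +kernel
theorem cw421 : wchk (nat_lit 5) [] [l102] (nat_lit 275) (nat_lit 2) (nat_lit 0) (nat_lit 0) (nat_lit 22597888) (nat_lit 0) w421 = true := by decide +kernel
theorem cw425 : wchk (nat_lit 5) [w208, w177] [] (nat_lit 3) (nat_lit 1) (nat_lit 0) (nat_lit 2) (nat_lit 90262528) (nat_lit 21655556) w425 = true := by decide +kernel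
theorem cw426 : wchk (nat_lit 5) [w16, w392] [] (nat_lit 4) (nat_lit 0) (nat_lit 2) (nat_lit 2) (nat_lit 84628480) (nat_lit 694313988) w426 = true := by decide +kernel
theorem cw427 : wchk (nat_lit 5) [w270, w177] [] (nat_lit 273) (nat_lit 1) (nat_lit 4) (nat_lit 2) (nat_lit 15025152) (nat_lit 11104260) w427 = true := by decide +kernel
theorem cw428 : wchk (nat_lit 5) [] [l89] (nat_lit 2) (nat_lit 2) (nat_lit 3) (nat_lit 0) (nat_lit 1485824) (nat_lit 0) w428 = true := by decide +kernel
theorem cw429 : wchk (nat_lit 5) [] [l23] (nat_lit 0) (nat_lit 1) (nat_lit 0) (nat_lit 0) (nat_lit 4541184) (nat_lit 0) w429 = true := by decide +kernel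
theorem cw430 : wchk (nat_lit 5) [] [l41] (nat_lit 4) (nat_lit 2) (nat_lit 3) (nat_lit 0) (nat_lit 21286144) (nat_lit 0) w430 = true := by decide +kernel
theorem cw431 : wchk (nat_lit 5) [] [l40] (nat_lit 4) (nat_lit 3) (nat_lit 0) (nat_lit 0) (nat_lit 1401600) (nat_lit 0) w431 = true := by decide +kernel
theorem cl103 : lchk (nat_lit 5) [] (nat_lit 429) .nil (.nod (nat_lit 7770693400884658830371942857225766964507436759786196593654111729664440784346572390400) .nil (.opn (nat_lit 47474756587299640123664103853562053638092419559926904862462404920718750094721818)) (.nod (nat_lit 3885355616433200688533019043578729151234041333407764565434615666795504370635350475546) .nil (.opn (nat_lit 34968131998981977705609480638185437217864920703365364347807378029165280373124936762138)) .dup)) .nil (.nod (nat_lit 928457427540764788416053248) .nil .nil (.dwn (nat_lit 11418012167060701932928004255464089114717978714) (nat_lit 16777261))) l103 = true := by decide +kernel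
theorem cw432 : wchk (nat_lit 5) [] [l103] (nat_lit 4) (nat_lit 2) (nat_lit 0) (nat_lit 0) (nat_lit 22597888) (nat_lit 0) w432 = true := by decide +kernel
theorem cl104 : lchk (nat_lit 5) [w149, w158, w150, w53, w432, w33, w428, w429, w430, w431] (nat_lit 18035712) .nil (.nod (nat_lit 7770685990190947642135435748682726408481334150507177992659251131394948342142231117824) .nil (.nod (nat_lit 13342817333854788825877804266443994699616899080) .nil (.dwn (nat_lit 7808909098758013974645208358426992571259474341105134529952878880792) (nat_lit 622015488)) (.opn (nat_lit 7808909098758013974645208358426992571259474341105134529952878880792))) (.nod (nat_lit 47474756587299640123664103853562054230896289278692277050191825556164828468783144) .nil (.opn (nat_lit 144048945786977562213391745885639386486524845620138109738758151318137160960126111606784)) .dup)) .nil (.nod (nat_lit 5828017097965218571215973841859207501838927311455038471407129237826814332585709142016) .nil (.nod (nat_lit 47474756587299640123664103853562103737159555700702854201882818164139035621754928) (.dwn (nat_lit 145264068897770672274571044195257599263201542212167746602250451096952989848720099674184)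 (nat_lit 622015488)) .nil .nil) .dup) l104 = true := by decide +kernel
theorem cw433 : wchk (nat_lit 5) [] [l104] (nat_lit 4) (nat_lit 1) (nat_lit 1) (nat_lit 0) (nat_lit 22597888) (nat_lit 0) w433 = true := by decide +kernel
theorem cl105 : lchk (nat_lit 5) [w433] (nat_lit 33554449) .nil .nil .nil (.nod (nat_lit 46565377) (.nod (nat_lit 48401093301198169687052671733631545482666853590237755768500980854330498782068996) .nil (.nod (nat_lit 11418080223534086121239667503430587817096380834) .nil (.dwn (nat_lit 1895623070393532622802707943241716030477294116598302694793063432482) (nat_lit 150995089)) (.opn (nat_lit 1895623070393532622802707943241716030477294116598302694793063432482))) (.nod (nat_lit 3885371364157336963535596649232690332789509206623366164388435929680601453035108958626) .nil (.opn (nat_lit 34968073639769002098246987158408992839159362483790779936810116547704979226146805645602)) .dup)) .nil (.dwn (nat_lit 40990399590009933182166222707402404370455444027452273581274748713543609291374852) (nat_lit 177))) l105 = true := by decide +kernel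
theorem cw434 : wchk (nat_lit 5) [] [l105] (nat_lit 4) (nat_lit 2) (nat_lit 2) (nat_lit 0) (nat_lit 22597888) (nat_lit 0) w434 = true := by decide +kernel
theorem cl106 : lchk (nat_lit 5) [w17, w15, w220, w203, w202, w86, w3, w201, w200, w199] (nat_lit 13469696) .nil .nil .nil (.nod (nat_lit 20782194772486956561028615705008237991157176039234715231592388672634788364391859355648) (.nod (nat_lit 39137726162212874053166992932936512854514825739135052830571870018267667232718931) .nil (.nod (nat_lit 10049978370152122237650829158798766527394045984) .nil (.dwn (nat_lit 61671479638710859096271377915276025851764962414678155300573659791378) (nat_lit 4912416768)) (.opn (nat_lit 61671479638710859096259960064402807070356866096858408593281557463442))) .nil) (.nod (nat_lit 39137726162214417138172209317389933111754897210228712440752015569786185501577264) (.opn (nat_lit 143291994372898948281084469215440691939921310900497509729403209887354350421058271750216)) .nil .nil) .dup) l106 = true := by decide +kernel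
theorem cw435 : wchk (nat_lit 5) [] [l106] (nat_lit 20) (nat_lit 3) (nat_lit 3) (nat_lit 0) (nat_lit 156815616) (nat_lit 0) w435 = true := by decide +kernel
theorem cw436 : wchk (nat_lit 5) [] [l52] (nat_lit 4) (nat_lit 3) (nat_lit 0) (nat_lit 0) (nat_lit 30954240) (nat_lit 0) w436 = true := by decide +kernel
theorem cw437 : wchk (nat_lit 5) [] [l59] (nat_lit 4) (nat_lit 3) (nat_lit 0) (nat_lit 0) (nat_lit 30986496) (nat_lit 0) w437 = true := by decide +kernel
theorem cw438 : wchk (nat_lit 5) [] [l45] (nat_lit 4) (nat_lit 0) (nat_lit 0) (nat_lit 0) (nat_lit 22583552) (nat_lit 0) w438 = true := by decide +kernel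
theorem cw439 : wchk (nat_lit 5) [w220] [] (nat_lit 4) (nat_lit 0) (nat_lit 2) (nat_lit 2) (nat_lit 90334208) (nat_lit 33554513) w439 = true := by decide +kernel
theorem cw440 : wchk (nat_lit 5) [] [l54] (nat_lit 3) (nat_lit 0) (nat_lit 2) (nat_lit 1) (nat_lit 5788416) (nat_lit 0) w440 = true := by decide +kernel
theorem cw441 : wchk (nat_lit 5) [] [l54] (nat_lit 3) (nat_lit 0) (nat_lit 2) (nat_lit 1) (nat_lit 5788416) (nat_lit 0) w441 = true := by decide +kernel
theorem cw442 : wchk (nat_lit 5) [] [l45] (nat_lit 1) (nat_lit 1) (nat_lit 0) (nat_lit 0) (nat_lit 22583552) (nat_lit 0) w442 = true := by decide +kernel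
theorem cl107 : lchk (nat_lit 5) [w24, w1, w15, w17, w436, w3, w437, w439, w440, w441, w442, w42, w164] (nat_lit 22644736) (.nod (nat_lit 20782194772486956561028615705008237991112834519461746078481326302338950400816978067538) (.nod (nat_lit 20782195583031581222241983670005133051933898505240816427350507847539185919819367055507) .nil .nil (.nod (nat_lit 14786796029977517409307650318148482563523153944) .nil .nil (.nod (nat_lit 61786664957723343519222225758055040386932517735467115032367662628882) (.opn (nat_lit 9096934578199746985584009881831765454106539795016410128699992839339458479707683061698560)) .dup .dup))) (.dwn (nat_lit 20782195583031581223798026973393608119880302726030376208703811840668605388914515709992) (nat_lit 123946012)) (.dwn (nat_lit 20782195583031581223798026973393608119880302726030376208703811840668605388914515709992) (nat_lit 123946012))) .nil (.nod (nat_lit 14786796029977517409307650318148482563523153944) .nil (.nod (nat_lit 1134794337581501853490893985946404029545802618183346518624464535954) (.dwn (nat_lit 145264071676780813970146776163222776623409659622256364976893326336756527431765576730720) (nat_lit 626624512)) .nil .nil)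 .dup) .nil l107 = true := by decide +kernel
theorem cw443 : wchk (nat_lit 5) [] [l107] (nat_lit 161) (nat_lit 3) (nat_lit 3) (nat_lit 0) (nat_lit 5820672) (nat_lit 0) w443 = true := by decide +kernel
theorem cw444 : wchk (nat_lit 5) [w443, w177] [] (nat_lit 3) (nat_lit 1) (nat_lit 0) (nat_lit 2) (nat_lit 23282688) (nat_lit 21655556) w444 = true := by decide +kernel
theorem cw445 : wchk (nat_lit 5) [w220, w417] [] (nat_lit 20) (nat_lit 0) (nat_lit 4) (nat_lit 2) (nat_lit 18179072) (nat_lit 73618436) w445 = true := by decide +kernel
theorem cw446 : wchk (nat_lit 5) [w220, w421] [] (nat_lit 20) (nat_lit 0) (nat_lit 2) (nat_lit 2) (nat_lit 22250496) (nat_lit 90391556) w446 = true := by decide +kernel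
theorem cw447 : wchk (nat_lit 5) [w220, w421] [] (nat_lit 20) (nat_lit 0) (nat_lit 2) (nat_lit 2) (nat_lit 18064384) (nat_lit 90391556) w447 = true := by decide +kernel
theorem cw448 : wchk (nat_lit 5) [] [l81] (nat_lit 4) (nat_lit 1) (nat_lit 1) (nat_lit 0) (nat_lit 21146368) (nat_lit 0) w448 = true := by decide +kernel
theorem cl108 : lchk (nat_lit 5) [w448] (nat_lit 33554449) .nil .nil .nil (.nod (nat_lit 46565377) (.nod (nat_lit 48401093301198169687052671733631545482666853590237755768500980854330498782068996) .nil (.nod (nat_lit 11418080223534086121239667503430587817096380834) .nil (.dwn (nat_lit 1895623070393532622802707943241716030477294116598302694793063432482) (nat_lit 150995089)) (.opn (nat_lit 1895623070393532622802707943241716030477294116598302694793063432482))) (.nod (nat_lit 3885371364157336963535596649232690332789509206623366164388435929680601453035108958626) (.opn (nat_lit 34968073639769002100142610228802525461859308494475780448773488934597942123294411981090)) .dup .dup)) .nil (.dwn (nat_lit 40990399590009933182166222707402404370455444027452273581274748713543609291374852) (nat_lit 177))) l108 = true := by decide +kernel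
theorem cw449 : wchk (nat_lit 5) [] [l108] (nat_lit 4) (nat_lit 2) (nat_lit 2) (nat_lit 0) (nat_lit 22597888) (nat_lit 0) w449 = true := by decide +kernel
theorem cw450 : wchk (nat_lit 5) [] [l107] (nat_lit 161) (nat_lit 3) (nat_lit 3) (nat_lit 0) (nat_lit 5820672) (nat_lit 0) w450 = true := by decide +kernel
theorem cw451 : wchk (nat_lit 5) [w450, w177] [] (nat_lit 3) (nat_lit 1) (nat_lit 0) (nat_lit 2) (nat_lit 23282688) (nat_lit 21655556) w451 = true := by decide +kernel
theorem cw452 : wchk (nat_lit 5) [w109, w16] [] (nat_lit 33) (nat_lit 1) (nat_lit 4) (nat_lit 2) (nat_lit 81015808) (nat_lit 18458628) w452 = true := by decide +kernel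
theorem cw453 : wchk (nat_lit 5) [w452, w177] [] (nat_lit 3) (nat_lit 1) (nat_lit 4) (nat_lit 2) (nat_lit 23282688) (nat_lit 11104260) w453 = true := by decide +kernel
theorem cw454 : wchk (nat_lit 5) [w164, w392] [] (nat_lit 4) (nat_lit 0) (nat_lit 2) (nat_lit 2) (nat_lit 23275520) (nat_lit 694313988) w454 = true := by decide +kernel
theorem cw455 : wchk (nat_lit 5) [w16] [] (nat_lit 0) (nat_lit 1) (nat_lit 3) (nat_lit 2) (nat_lit 22121472) (nat_lit 22644736) w455 = true := by decide +kernel
theorem cw456 : wchk (nat_lit 5) [w455, w392] [] (nat_lit 4) (nat_lit 0) (nat_lit 2) (nat_lit 2) (nat_lit 23282688) (nat_lit 694313988) w456 = true := by decide +kernel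
theorem cw457 : wchk (nat_lit 5) [] [l87] (nat_lit 4) (nat_lit 2) (nat_lit 0) (nat_lit 0) (nat_lit 22565632) (nat_lit 0) w457 = true := by decide +kernel
theorem cw458 : wchk (nat_lit 5) [] [l87] (nat_lit 4) (nat_lit 2) (nat_lit 0) (nat_lit 0) (nat_lit 22565632) (nat_lit 0) w458 = true := by decide +kernel
theorem cw459 : wchk (nat_lit 5) [] [l87] (nat_lit 4) (nat_lit 2) (nat_lit 0) (nat_lit 0) (nat_lit 22565632) (nat_lit 0) w459 = true := by decide +kernel
theorem cl109 : lchk (nat_lit 5) [w155] (nat_lit 33554449) .nil .nil .nil (.nod (nat_lit 1780901889) (.nod (nat_lit 48401093301198169687052671733631545482666853590237755768500980854330498782068996) .nil (.nod (nat_lit 11418080223534086121239667503430587817096380834) .nil .nil (.dwn (nat_lit 102761932556715518513921729705339797645457096994) (nat_lit 150995089))) (.dwn (nat_lit 3885371364157336963535596649232690332789509206623366164388435929680601453035108958626) (nat_lit 16777361))) .nil (.dwn (nat_lit 40990399590009933182166222707402404370455444027452273581274748713543609291374852) (nat_lit 177))) l109 = true := by decide +kernel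
theorem cw460 : wchk (nat_lit 5) [] [l109] (nat_lit 4) (nat_lit 2) (nat_lit 2) (nat_lit 0) (nat_lit 22597888) (nat_lit 0) w460 = true := by decide +kernel
theorem cw461 : wchk (nat_lit 5) [] [l1] (nat_lit 2) (nat_lit 3) (nat_lit 3) (nat_lit 0) (nat_lit 5661184) (nat_lit 0) w461 = true := by decide +kernel
theorem cl110 : lchk (nat_lit 5) [w461] (nat_lit 33554441) .nil .nil .nil (.nod (nat_lit 15845376702125828744972764287287288543064358912) (.nod (nat_lit 88473415399444000507892989049890974728594) .nil (.nod (nat_lit 11418118335159181266347575106238714995783237906) .nil .nil (.dwn (nat_lit 102761927112197647778906313996198173557812887826) (nat_lit 150995081))) (.dwn (nat_lit 3885369511483909166476469872096930193782983592415236609284519205962065453603721576722) (nat_lit 16777353))) .nil (.dwn (nat_lit 2121660386560698098264970240443635249149308537658017228783954) (nat_lit 169))) l110 = true := by decide +kernel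
theorem cw462 : wchk (nat_lit 5) [] [l110] (nat_lit 4) (nat_lit 2) (nat_lit 0) (nat_lit 0) (nat_lit 22597888) (nat_lit 0) w462 = true := by decide +kernel
theorem cw463 : wchk (nat_lit 5) [w332, w177] [] (nat_lit 3) (nat_lit 1) (nat_lit 0) (nat_lit 2) (nat_lit 23153664) (nat_lit 21655556) w463 = true := by decide +kernel
theorem cw464 : wchk (nat_lit 5) [w162, w421] [] (nat_lit 20) (nat_lit 0) (nat_lit 2) (nat_lit 2) (nat_lit 22250496) (nat_lit 90391556) w464 = true := by decide +kernel
theorem cw465 : wchk (nat_lit 5) [w164, w417] [] (nat_lit 20) (nat_lit 0) (nat_lit 4) (nat_lit 2) (nat_lit 18179072) (nat_lit 73618436) w465 = true := by decide +kernel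
theorem cw466 : wchk (nat_lit 5) [w164, w421] [] (nat_lit 20) (nat_lit 0) (nat_lit 2) (nat_lit 2) (nat_lit 22250496) (nat_lit 90391556) w466 = true := by decide +kernel
theorem cw467 : wchk (nat_lit 5) [w42, w417] [] (nat_lit 20) (nat_lit 0) (nat_lit 4) (nat_lit 2) (nat_lit 19612672) (nat_lit 73618436) w467 = true := by decide +kernel
theorem cw468 : wchk (nat_lit 5) [w69, w341] [] (nat_lit 3) (nat_lit 0) (nat_lit 4) (nat_lit 2) (nat_lit 10724352) (nat_lit 15290372) w468 = true := by decide +kernel
theorem cw469 : wchk (nat_lit 5) [] [l57] (nat_lit 3) (nat_lit 1) (nat_lit 4) (nat_lit 0) (nat_lit 3713280) (nat_lit 0) w469 = true := by decide +kernel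
theorem cw470 : wchk (nat_lit 5) [w469, w16] [] (nat_lit 4) (nat_lit 1) (nat_lit 4) (nat_lit 2) (nat_lit 90391552) (nat_lit 18458628) w470 = true := by decide +kernel
theorem cw471 : wchk (nat_lit 5) [w69] [] (nat_lit 0) (nat_lit 2) (nat_lit 0) (nat_lit 2) (nat_lit 33554481) (nat_lit 10695680) w471 = true := by decide +kernel
theorem cw472 : wchk (nat_lit 5) [w471, w16] [] (nat_lit 4) (nat_lit 1) (nat_lit 2) (nat_lit 2) (nat_lit 90391552) (nat_lit 23160836) w472 = true := by decide +kernel
theorem cl111 : lchk (nat_lit 5) [] (nat_lit 393) (.nod (nat_lit 7770687032319750777981194560821591486672505092635027246387583338981630861545727590400) .nil .nil (.nod (nat_lit 3885428797033598672368526740441254641980386348312226235986959833138838790130347541266) .nil (.dwn (nat_lit 34968131072645263808975543433453550522752500646383012998987443907298495757895161872386) (nat_lit 150995337)) (.opn (nat_lit 48401093301200065313236507727006039087540090144660727254011607303712169667854722)))) .nil .nil (.nod (nat_lit 11418025778355378770466537994294927220929462272) .nil .nil .nil) l111 = true := by decide +kernel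
theorem cw473 : wchk (nat_lit 5) [] [l111] (nat_lit 3) (nat_lit 1) (nat_lit 4) (nat_lit 0) (nat_lit 5820672) (nat_lit 0) w473 = true := by decide +kernel
theorem cw476 : wchk (nat_lit 5) [w78] [] (nat_lit 0) (nat_lit 0) (nat_lit 1) (nat_lit 2) (nat_lit 33554513) (nat_lit 23153664) w476 = true := by decide +kernel
theorem cw477 : wchk (nat_lit 5) [w78] [] (nat_lit 0) (nat_lit 0) (nat_lit 1) (nat_lit 2) (nat_lit 33554449) (nat_lit 23153664) w477 = true := by decide +kernel
theorem cl112 : lchk (nat_lit 5) [w267, w105, w263, w391, w16, w476, w477] (nat_lit 23225344) (.nod (nat_lit 5375303261376923357279147235443623025501013641049505023190039480337225058767834447882) (.nod (nat_lit 7770687032319750777981194560821591486688311185439303887391641573987363189607642089496) .nil .nil (.nod (nat_lit 145250782450283225657168580961784600575318286249222499690471357425186470850784485754880) .nil (.dwn (nat_lit 48401093301259963641081363835930646148771848241984074549005695945726105571295618) (nat_lit 4922172416)) .dup)) .nil (.nod (nat_lit 291575844905146916812682625292329332854994704003360126903566125080) (.opn (nat_lit 7874060694390822710193489616512452877864358314834546926781219522560))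 .nil (.dwn (nat_lit 7874060694390822710193489616512452877864358314834546926781219522560) (nat_lit 627205120)))) .nil .nil (.nod (nat_lit 292295809642890562920445943329539078601370367134844552883154143265) (.nod (nat_lit 2623828525391632559283359978900807896791174784366450397151626) .nil (.dwn (nat_lit 145264067045097244477511917267471397474487785491427555469141100364594174047645923182632) (nat_lit 627205120)) .dup) .nil (.dwn (nat_lit 2222094014326946507716731443605740191858859887555542282928458) (nat_lit 90391576))) l112 = true := by decide +kernel
theorem cw478 : wchk (nat_lit 5) [] [l112] (nat_lit 275) (nat_lit 2) (nat_lit 0) (nat_lit 0) (nat_lit 22597888) (nat_lit 0) w478 = true := by decide +kernel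
theorem cw479 : wchk (nat_lit 5) [w478, w16] [] (nat_lit 4) (nat_lit 1) (nat_lit 2) (nat_lit 2) (nat_lit 90391552) (nat_lit 23160836) w479 = true := by decide +kernel
theorem cw480 : wchk (nat_lit 5) [] [l57] (nat_lit 3) (nat_lit 1) (nat_lit 4) (nat_lit 0) (nat_lit 20533504) (nat_lit 0) w480 = true := by decide +kernel
theorem cw481 : wchk (nat_lit 5) [w480, w16] [] (nat_lit 4) (nat_lit 1) (nat_lit 4) (nat_lit 2) (nat_lit 90391552) (nat_lit 18458628) w481 = true := by decide +kernel
theorem cw482 : wchk (nat_lit 5) [w212, w341] [] (nat_lit 3) (nat_lit 0) (nat_lit 4) (nat_lit 2) (nat_lit 10839040) (nat_lit 15290372) w482 = true := by decide +kernel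
theorem cw483 : wchk (nat_lit 5) [w80, w16] [] (nat_lit 33) (nat_lit 1) (nat_lit 2) (nat_lit 2) (nat_lit 610618368) (nat_lit 23160836) w483 = true := by decide +kernel
theorem cw484 : wchk (nat_lit 5) [w483, w177] [] (nat_lit 3) (nat_lit 1) (nat_lit 0) (nat_lit 2) (nat_lit 23282688) (nat_lit 21655556) w484 = true := by decide +kernel
theorem cw485 : wchk (nat_lit 5) [w478, w16] [] (nat_lit 4) (nat_lit 1) (nat_lit 2) (nat_lit 2) (nat_lit 73618432) (nat_lit 23160836) w485 = true := by decide +kernel
theorem cl113 : lchk (nat_lit 5) [w358, w342, w341, w207, w352, w343, w393, w397, w468, w470, w402, w403, w472, w479, w481, w482, w484, w485, w388, w392, w417, w16, w425, w416, w426, w463, w464, w284, w465, w466, w467, w427, w209, w24, w444, w445, w446, w447, w451, w267, w453, w454, w456, w457, w458, w459] (nat_lit 23153664) .nil .nil (.nod (nat_lit 5362023182454384799720963922648273868113813336223918336546818121248701446621465059344) (.nod (nat_lit 20903376172933645164426461964189361025580211125068205837958565080049994414540946843688) .nil .nil (.nod (nat_lit 145234182496370164015265818634459792752060773896404512807016143909922014265221690071040)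 (.nod (nat_lit 1139880655315943448379950208262402752542307105665139209035399980006486172097022938748928) .nil (.dwn (nat_lit 9097052437872529723297425325285946430864277759815016778862285571657915513396780133947392) (nat_lit 39281839104)) .dup) (.dwn (nat_lit 1139880655315943448379950208262402752545656913842477955565047550535053406863800901212160) (nat_lit 4922100736)) (.dwn (nat_lit 1139880655315943448379950208262402752545656913842477955565047550535053406863800901212160) (nat_lit 4922100736)))) .nil (.nod (nat_lit 5378627768051015942435380011715695479436430193262031705401075432198669304540791367728) (.opn (nat_lit 145264069824107386173100607634042293215980899830098463684598724686109001010301674883168)) (.dwn (nat_lit 145264074455790955665748424827965762978781795849578456479170617126502776206184858159240) (nat_lit 627133440)) (.dwn (nat_lit 145264074455790955665748424827965762978781795849578456479170617126502776206184858159240) (nat_lit 627133440)))) (.nod (nat_lit 160777210303628152913258086387824832131365937189462481071747285979644479608028167590032) (.nod (nat_lit 20933271837701292408735025205565668339061143404057806253562829313103349513879655196832)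 .nil (.nod (nat_lit 426892771750856485677132133254403999878519097536) .nil (.nod (nat_lit 61794675192356277404096068078395088904468433871783732151268687562920) (.dwn (nat_lit 9097082341874327795136773139519623767744934571766551415563093175348863903509473583859952) (nat_lit 39281839104)) .nil .nil) .dup) (.nod (nat_lit 5391930889599312725204527225224197850457774930715894403465799090682121238930176256256) (.dwn (nat_lit 20933278322058289760236644569848431180839393433352363275214690891472837871158727977256) (nat_lit 4922229912)) .nil .nil)) (.nod (nat_lit 20933289438098856481931525532874935772149973583304899435998108497004102976630272731448) (.dwn (nat_lit 145264101319555658723105764552721887604086355097063554217617806344191282706957766134112) (nat_lit 627133440)) .nil .nil) .dup) l113 = true := by decide +kernel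
theorem cw486 : wchk (nat_lit 5) [] [l113] (nat_lit 212) (nat_lit 1) (nat_lit 0) (nat_lit 0) (nat_lit 1230557440) (nat_lit 0) w486 = true := by decide +kernel
theorem cw487 : wchk (nat_lit 5) [] [l30] (nat_lit 273) (nat_lit 1) (nat_lit 4) (nat_lit 0) (nat_lit 19486976) (nat_lit 0) w487 = true := by decide +kernel
theorem cw488 : wchk (nat_lit 5) [] [l14] (nat_lit 3) (nat_lit 3) (nat_lit 1) (nat_lit 0) (nat_lit 22191104) (nat_lit 0) w488 = true := by decide +kernel
theorem cw489 : wchk (nat_lit 5) [] [l15] (nat_lit 3) (nat_lit 1) (nat_lit 0) (nat_lit 0) (nat_lit 22449152) (nat_lit 0) w489 = true := by decide +kernel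
theorem cw490 : wchk (nat_lit 5) [w69] [] (nat_lit 0) (nat_lit 2) (nat_lit 4) (nat_lit 2) (nat_lit 33554441) (nat_lit 73754624) w490 = true := by decide +kernel
theorem cl114 : lchk (nat_lit 5) [w267, w69, w174, w263, w391, w16, w489, w419, w490] (nat_lit 23282688) .nil .nil (.nod (nat_lit 20905034431443612769370446914448494679795394897466828546394652914961744260091701362706) (.nod (nat_lit 5362024108791098698542823064365128882041993773593976849061564538276977569059949938720) .nil .nil (.nod (nat_lit 145264062413413674976989319470913276974094162077223832675479914736581170391796630849536) .nil (.dwn (nat_lit 48401093301198169687052671733634895378653376555981913557044037482204510644339074) (nat_lit 4922229760)) .dup)) .nil (.dwn (nat_lit 5362024108791098698542823064365128882057839160844856052355629669928877687987828852768) (nat_lit 90391552))) (.nod (nat_lit 15806364009323076992013615315294451181194397737) (.nod (nat_lit 142238029372955612588228368439552759562642) .nil (.dwn (nat_lit 145250788934640222946875524681759761062267979736954515992916960346972281700316310980664) (nat_lit 627262464)) .dup) .nil (.dwn (nat_lit 1134794337581501853490893964168332546605740956379797690401622589778)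 (nat_lit 90391584))) l114 = true := by decide +kernel
theorem cw491 : wchk (nat_lit 5) [] [l114] (nat_lit 273) (nat_lit 2) (nat_lit 0) (nat_lit 0) (nat_lit 22597888) (nat_lit 0) w491 = true := by decide +kernel
theorem cw492 : wchk (nat_lit 5) [w368, w177] [] (nat_lit 1) (nat_lit 1) (nat_lit 0) (nat_lit 2) (nat_lit 90269696) (nat_lit 21712900) w492 = true := by decide +kernel
theorem cw493 : wchk (nat_lit 5) [w370, w177] [] (nat_lit 1) (nat_lit 1) (nat_lit 0) (nat_lit 2) (nat_lit 90269696) (nat_lit 21712900) w493 = true := by decide +kernel
theorem cw494 : wchk (nat_lit 5) [w16, w392] [] (nat_lit 4) (nat_lit 0) (nat_lit 1) (nat_lit 2) (nat_lit 21712896) (nat_lit 627262468) w494 = true := by decide +kernel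
theorem cw495 : wchk (nat_lit 5) [] [l23] (nat_lit 4) (nat_lit 1) (nat_lit 1) (nat_lit 0) (nat_lit 22350592) (nat_lit 0) w495 = true := by decide +kernel
theorem cw496 : wchk (nat_lit 5) [w495, w175] [] (nat_lit 0) (nat_lit 0) (nat_lit 0) (nat_lit 2) (nat_lit 23282688) (nat_lit 90262532) w496 = true := by decide +kernel
theorem cw497 : wchk (nat_lit 5) [] [l23] (nat_lit 4) (nat_lit 2) (nat_lit 4) (nat_lit 0) (nat_lit 19553280) (nat_lit 0) w497 = true := by decide +kernel
theorem cw498 : wchk (nat_lit 5) [w497, w175] [] (nat_lit 0) (nat_lit 0) (nat_lit 0) (nat_lit 2) (nat_lit 23282688) (nat_lit 90262532) w498 = true := by decide +kernel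
theorem cw499 : wchk (nat_lit 5) [] [l7] (nat_lit 0) (nat_lit 3) (nat_lit 0) (nat_lit 1) (nat_lit 5818880) (nat_lit 0) w499 = true := by decide +kernel
theorem cw500 : wchk (nat_lit 5) [] [l0] (nat_lit 4) (nat_lit 0) (nat_lit 4) (nat_lit 0) (nat_lit 4379904) (nat_lit 0) w500 = true := by decide +kernel
theorem cw501 : wchk (nat_lit 5) [] [l64] (nat_lit 20) (nat_lit 0) (nat_lit 0) (nat_lit 1) (nat_lit 5806336) (nat_lit 0) w501 = true := by decide +kernel
theorem cl115 : lchk (nat_lit 5) [w256, w499, w170, w15, w91, w500, w501, w11] (nat_lit 23160832) (.nod (nat_lit 7770679505833950352720787681422913100211921214822840215196136945089431851149564051458) (.opn (nat_lit 20919975200509992916516219830251941216559026864447293102543077122629234029850146424848)) .nil .dup) .nil .nil (.nod (nat_lit 5390245072572106638715355455253456363191581518719237163237452557895324612222122414105) (.nod (nat_lit 40990399590009933179944128693075519380057574571636762541507407006122510980743490) .nil (.dwn (nat_lit 145264067045097244477511917317688211357581231602113870854782564886809392225909308041256) (nat_lit 627140608)) .dup) .dup .nil) l115 = true := by decide +kernel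
theorem cw502 : wchk (nat_lit 5) [] [l115] (nat_lit 4) (nat_lit 3) (nat_lit 1) (nat_lit 0) (nat_lit 22597888) (nat_lit 0) w502 = true := by decide +kernel
theorem cw503 : wchk (nat_lit 5) [w495, w175] [] (nat_lit 0) (nat_lit 0) (nat_lit 0) (nat_lit 2) (nat_lit 21777408) (nat_lit 90262532) w503 = true := by decide +kernel
theorem cw504 : wchk (nat_lit 5) [w16, w392] [] (nat_lit 4) (nat_lit 0) (nat_lit 1) (nat_lit 2) (nat_lit 90334208) (nat_lit 627262468) w504 = true := by decide +kernel
theorem cl116 : lchk (nat_lit 5) [w17, w1, w69, w202, w203, w3, w86, w201, w199, w200] (nat_lit 21662720) (.nod (nat_lit 20662675104312912682641969122850150402112825061789605736579641648742549061757900613649) (.nod (nat_lit 40990399590010143805550633390316944180618175588484247085983469774471394140094786) (.nod (nat_lit 290675959600361882242572771018354377829030241595912497528868900896) .nil .nil (.dwn (nat_lit 210624796758573379891775519216394639993078991667012600615269302282) (nat_lit 4920609792))) .nil .nil) (.nod (nat_lit 40990399590011468795901315361742214451595060105293509698756205400373235011289410) (.opn (nat_lit 145235848976118467469950445058341027357060407198856798186554892466159988890392226091064))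 .nil .nil) .dup) .nil .nil .nil l116 = true := by decide +kernel
theorem cw505 : wchk (nat_lit 5) [] [l116] (nat_lit 20) (nat_lit 3) (nat_lit 3) (nat_lit 0) (nat_lit 5820672) (nat_lit 0) w505 = true := by decide +kernel
theorem cw506 : wchk (nat_lit 5) [w505, w177] [] (nat_lit 1) (nat_lit 1) (nat_lit 0) (nat_lit 2) (nat_lit 90391552) (nat_lit 21712900) w506 = true := by decide +kernel
theorem cw507 : wchk (nat_lit 5) [w16, w392] [] (nat_lit 4) (nat_lit 0) (nat_lit 1) (nat_lit 2) (nat_lit 88764416) (nat_lit 627262468) w507 = true := by decide +kernel
theorem cl117 : lchk (nat_lit 5) [w162] (nat_lit 33554449) .nil .nil .nil (.nod (nat_lit 36329473) (.nod (nat_lit 48401093301198169687052671733631545482666853590237755768500980854330498782068996) .nil (.nod (nat_lit 3885371364157336963746223052929307968311348694146105673128866098030546453809896358306) .nil (.opn (nat_lit 34968073639769002100142610228802525461756546561919064930265137940418942318262072901922)) .dup) (.dwn (nat_lit 3885371364157336963746223052929307968311348694146105673128866098030546453809896358306) (nat_lit 16777361))) .nil (.dwn (nat_lit 40990399590009933179944128693075519380178034529526771886040549497234187020665092)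 (nat_lit 177))) l117 = true := by decide +kernel
theorem cw508 : wchk (nat_lit 5) [] [l117] (nat_lit 4) (nat_lit 2) (nat_lit 1) (nat_lit 0) (nat_lit 22597888) (nat_lit 0) w508 = true := by decide +kernel
theorem cw509 : wchk (nat_lit 5) [w508, w175] [] (nat_lit 0) (nat_lit 0) (nat_lit 0) (nat_lit 2) (nat_lit 23282688) (nat_lit 90262532) w509 = true := by decide +kernel
theorem cw510 : wchk (nat_lit 5) [w16, w487] [] (nat_lit 20) (nat_lit 0) (nat_lit 0) (nat_lit 2) (nat_lit 22293504) (nat_lit 90391556) w510 = true := by decide +kernel
theorem cl118 : lchk (nat_lit 5) [w387, w177, w388, w392, w487, w491, w492, w504, w506, w507, w358, w509, w510, w267, w493, w494, w496, w502, w498, w503, w393, w395, w398, w402, w403, w486] (nat_lit 23282688) (.nod (nat_lit 5015084145671396319681797893908954065096935689547754387030007135864843552387434209288) (.nod (nat_lit 5028364224593934876541104304361264357557841008578435185400810467670837234582074597385) .nil .nil (.nod (nat_lit 145235844344434897969429376916150599766128805288764594017666601176828158717875192516624) (.nod (nat_lit 20919977053183420712441272479350910828278778144360711057121685512331186746456411531296)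 .nil (.nod (nat_lit 145250788934640222946875524681759761062267979739676774928284468054974426464949775951928) (.dwn (nat_lit 1139880664579310587365246742585771290989271840656804717677628430262600709959216385394768) (nat_lit 4922172416)) .nil .nil) .dup) (.nod (nat_lit 20933265353344295120162156216229064976992098355507787795165041273756456752249483470952) (.dwn (nat_lit 145250797271670648041515656726947340410152565014961012163185684122041959806932179282048) (nat_lit 627205120)) .nil .nil) .dup)) .nil (.nod (nat_lit 5378640736765010521850888098900465527268405829052295550418645253315502732652472232096) (.dwn (nat_lit 145250802829690931436063750601293162127709638334544285779788857527950693832583335438512) (nat_lit 627205220)) .nil .nil)) .nil .nil (.nod (nat_lit 145234184349043591812326565355794607602545384178572293506152504908317622114146543376400) (.nod (nat_lit 20933257016313870033396805175410647431203731194175841115471500679527492479121822754848) .nil (.nod (nat_lit 145264068897770672274571044195257599262774649475806256276374118982962344651751497836600) (.dwn (nat_lit 1139882324574701893530224334849195561656025379027340827850460678421033385031185820469328)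 (nat_lit 4922229760)) .nil .nil) .dup) (.nod (nat_lit 20919985390213845800340607760109268164023991079832077628239611063451926865914693347432) (.dwn (nat_lit 145264077234801097361337115194536658719665368776247867867924494804616882195626361006208) (nat_lit 627262464)) .nil .nil) .dup) l118 = true := by decide +kernel

end Pool.Agent.W319.GCI.K5
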