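import Pool.Agent.W319.GCI.K5D0
import Pool.Agent.W319.GCI.K5D1
import Pool.Agent.W319.GCI.K5D2
import Pool.Agent.W319.GCI.K5D3
import Pool.Agent.W319.GCI.K5D4
import Pool.Agent.W319.GCI.K5D5
import Pool.Agent.W319.GCI.K5D6
import Pool.Agent.W319.GCI.K5D7
import Pool.Agent.W319.GCI.K5D8
import Pool.Agent.W319.GCI.K5D9
import Pool.Agent.W319.GCI.K5D10
import Pool.Agent.W319.GCI.K5D11
import Pool.Agent.W319.GCI.K5D12
import Pool.Agent.W319.GCI.K5D13
import Pool.Agent.W319.GCI.K5D14
import Pool.Agent.W319.GCI.K5D15
set_option autoImplicit false
set_option maxRecDepth 100000
set_option linter.all false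
namespace Pool.Agent.W319.GCI.K5
open Pool.Agent.W319.GCI

theorem cw3036 : wchk (nat_lit 5) [w3035, w16] [] (nat_lit 17) (nat_lit 2) (nat_lit 1) (nat_lit 2) (nat_lit 23282688) (nat_lit 23282692) w3036 = true := by decide +kernel
theorem cl694 : lchk (nat_lit 5) [w6, w30, w193, w18, w19, w1091] (nat_lit 56779776) (.nod (nat_lit 928456837244954429760733274) .nil .nil (.nod (nat_lit 618971827423609361019175002) (.nod (nat_lit 291575744471519150609984048417434657564398988281575738735648047130) .nil (.opn (nat_lit 7855073214893486247284578021968757277978141745608982946784986056736)) .dup) .nil .nil)) .nil (.nod (nat_lit 618973008015230078430478490) .nil (.nod (nat_lit 145250782450283225657168580961784600575745139934779562169449680405415600019350715629978) .nil (.opn (nat_lit 1139897255269856509967933077255426280779580444804136802886966599959145670312448590399488)) .dup) (.dwn (nat_lit 20933257942650583930791574377047467296557955824826018795841920089686676300744083112346) (nat_lit 90391572))) .nil l694 = true := by decide +kernel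
theorem cw3037 : wchk (nat_lit 5) [] [l694] (nat_lit 33) (nat_lit 3) (nat_lit 2) (nat_lit 0) (nat_lit 5820672) (nat_lit 0) w3037 = true := by decide +kernel
theorem cl695 : lchk (nat_lit 5) [w1528, w16, w1636, w3, w1409, w39, w721, w3037, w158, w746, w258, w747, w748, w162] (nat_lit 22121472) .nil .nil (.nod (nat_lit 816138431056160227833632777) (.nod (nat_lit 1134704047750140051474786829713311237516460820942282073440834814362) .nil (.dwn (nat_lit 292205764618496441410761879485913491761851528396502201109583317032) (nat_lit 627262488)) (.dwn (nat_lit 292205764618496441410761879485913491761851528396502201109583317032) (nat_lit 627262488))) .nil (.nod (nat_lit 5391908657518179161622601154738297759420175302123614669351898011635023011649331134810) (.dwn (nat_lit 145264070750444100071611273481426501442754586617098717822351550609959544838197165328480) (nat_lit 626101248)) .nil .nil)) (.nod (nat_lit 14786823592849238006561131517966363317812330522) .nil (.nod (nat_lit 60727019870461249063613298173615773279064365056) .nil (.nod (nat_lit 144995143160022076250619364661057579899308778989400026707690970727819757298891947710464) .nil (.opn (nat_lit 1139641615979595360561383860954699260103144083858757267425184750504599846038466241697792))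 .dup) (.dwn (nat_lit 144995143160022076250619364661057579899308778989400026707690970727819757298891947710464) (nat_lit 626101248))) (.dwn (nat_lit 1120215793909473229024335297986593793233071271575526052281677191168) (nat_lit 89230336))) l695 = true := by decide +kernel
theorem cw3038 : wchk (nat_lit 5) [] [l695] (nat_lit 3) (nat_lit 2) (nat_lit 2) (nat_lit 0) (nat_lit 22597888) (nat_lit 0) w3038 = true := by decide +kernel
theorem cw3039 : wchk (nat_lit 5) [w3038, w16] [] (nat_lit 0) (nat_lit 1) (nat_lit 1) (nat_lit 2) (nat_lit 23282688) (nat_lit 23282692) w3039 = true := by decide +kernel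
theorem cw3040 : wchk (nat_lit 5) [w2218, w16] [] (nat_lit 1) (nat_lit 2) (nat_lit 1) (nat_lit 2) (nat_lit 22823936) (nat_lit 23282692) w3040 = true := by decide +kernel
theorem cl696 : lchk (nat_lit 5) [w3022, w721, w16, w3008, w3027, w2380, w3023, w3025, w548, w716, w3004, w3021, w3006, w2885, w3040, w549, w432, w261, w3003, w1138] (nat_lit 23282688) .nil (.nod (nat_lit 286536386764722957121066387210298882796172608682584008991051433992) .nil (.nod (nat_lit 279337404760070446858348686494795134506490441815660653026408204312) .nil (.dwn (nat_lit 145131267413792751279297333093746353210294599221240537210596206625033188469611764713512) (nat_lit 626689044)) .dup) (.dwn (nat_lit 292295903799416593736502796284036436113811727986946458877413509168) (nat_lit 89818132))) (.nod (nat_lit 284106752935718982304442104334996334604852359787462218481305608209) (.nod (nat_lit 272768493119209110093906603942043977175715745935198336106141919296) .nil (.nod (nat_lit 286536788499234021868635294478893451026884902051452206966127544392) (.dwn (nat_lit 1139910545422690812233366488495901054590322582547468354193176196335101687642500115400800) (nat_lit 4922229760)) .nil .nil) .dup) .nil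 (.nod (nat_lit 5391915141875176451316316912250815419709325426390462295174481613364415348776520667264) (.dwn (nat_lit 20800469427386657516066545705886624550828575981044669397166460382836319866539263854736) (nat_lit 627262464)) .nil .nil)) (.nod (nat_lit 286536386764722957121066387210298882796189533644058613799497320456) .nil (.nod (nat_lit 15455121487645982022439529039195780491905402904) .nil (.nod (nat_lit 145264062413413674976989319470913276974521054789084992583071877296887442574120132708352) (.opn (nat_lit 1139910535232986959349548489701490887505100468562454253887548771423345327171782016665600)) .dup .dup) (.dwn (nat_lit 145264062413413674976989319470913276974521054789084992583071877296887442574120132708352) (nat_lit 627262464))) (.dwn (nat_lit 291576045772402449186467078926626616971209830270785654913757431856) (nat_lit 90391552))) l696 = true := by decide +kernel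
theorem cw3041 : wchk (nat_lit 5) [] [l696] (nat_lit 3) (nat_lit 2) (nat_lit 3) (nat_lit 0) (nat_lit 22597888) (nat_lit 0) w3041 = true := by decide +kernel
theorem cw3042 : wchk (nat_lit 5) [] [l687] (nat_lit 27) (nat_lit 1) (nat_lit 0) (nat_lit 0) (nat_lit 156815616) (nat_lit 0) w3042 = true := by decide +kernel
theorem cw3043 : wchk (nat_lit 5) [w230, w16] [] (nat_lit 0) (nat_lit 1) (nat_lit 1) (nat_lit 2) (nat_lit 21727232) (nat_lit 23282692) w3043 = true := by decide +kernel
theorem cw3044 : wchk (nat_lit 5) [w16, w3002] [] (nat_lit 19) (nat_lit 0) (nat_lit 2) (nat_lit 2) (nat_lit 23225344) (nat_lit 23225348) w3044 = true := by decide +kernel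
theorem cw3045 : wchk (nat_lit 5) [w799, w16] [] (nat_lit 0) (nat_lit 3) (nat_lit 2) (nat_lit 2) (nat_lit 23282688) (nat_lit 23225348) w3045 = true := by decide +kernel
theorem cw3046 : wchk (nat_lit 5) [w179, w16] [] (nat_lit 0) (nat_lit 3) (nat_lit 3) (nat_lit 2) (nat_lit 21727232) (nat_lit 22709252) w3046 = true := by decide +kernel
theorem cw3047 : wchk (nat_lit 5) [w178, w16] [] (nat_lit 0) (nat_lit 1) (nat_lit 3) (nat_lit 2) (nat_lit 21727232) (nat_lit 22250500) w3047 = true := by decide +kernel
theorem cw3048 : wchk (nat_lit 5) [w111, w16] [] (nat_lit 1) (nat_lit 3) (nat_lit 2) (nat_lit 2) (nat_lit 21727232) (nat_lit 23225348) w3048 = true := by decide +kernel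
theorem cw3049 : wchk (nat_lit 5) [w111, w16] [] (nat_lit 1) (nat_lit 3) (nat_lit 2) (nat_lit 2) (nat_lit 21712896) (nat_lit 23225348) w3049 = true := by decide +kernel
theorem cw3050 : wchk (nat_lit 5) [w91, w16] [] (nat_lit 1) (nat_lit 3) (nat_lit 2) (nat_lit 2) (nat_lit 9154560) (nat_lit 23225348) w3050 = true := by decide +kernel
theorem cw3051 : wchk (nat_lit 5) [w22, w16] [] (nat_lit 3) (nat_lit 1) (nat_lit 2) (nat_lit 2) (nat_lit 89402368) (nat_lit 23225348) w3051 = true := by decide +kernel
theorem cw3052 : wchk (nat_lit 5) [w3051, w16] [] (nat_lit 1) (nat_lit 3) (nat_lit 3) (nat_lit 2) (nat_lit 23282688) (nat_lit 22709252) w3052 = true := by decide +kernel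
theorem cw3053 : wchk (nat_lit 5) [w91, w16] [] (nat_lit 1) (nat_lit 3) (nat_lit 2) (nat_lit 2) (nat_lit 17541120) (nat_lit 23225348) w3053 = true := by decide +kernel
theorem cw3054 : wchk (nat_lit 5) [w3019, w16] [] (nat_lit 3) (nat_lit 1) (nat_lit 3) (nat_lit 2) (nat_lit 90334208) (nat_lit 22709252) w3054 = true := by decide +kernel
theorem cw3055 : wchk (nat_lit 5) [w3054, w16] [] (nat_lit 1) (nat_lit 3) (nat_lit 2) (nat_lit 2) (nat_lit 23282688) (nat_lit 23225348) w3055 = true := by decide +kernel
theorem cw3056 : wchk (nat_lit 5) [w1519, w16] [] (nat_lit 3) (nat_lit 1) (nat_lit 3) (nat_lit 2) (nat_lit 90334208) (nat_lit 22709252) w3056 = true := by decide +kernel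
theorem cw3057 : wchk (nat_lit 5) [w3056, w16] [] (nat_lit 1) (nat_lit 3) (nat_lit 2) (nat_lit 2) (nat_lit 23282688) (nat_lit 23225348) w3057 = true := by decide +kernel
theorem cw3058 : wchk (nat_lit 5) [w220, w799] [] (nat_lit 0) (nat_lit 0) (nat_lit 1) (nat_lit 2) (nat_lit 21662720) (nat_lit 23225348) w3058 = true := by decide +kernel
theorem cw3059 : wchk (nat_lit 5) [w372, w16] [] (nat_lit 1) (nat_lit 3) (nat_lit 2) (nat_lit 2) (nat_lit 21784576) (nat_lit 23225348) w3059 = true := by decide +kernel
theorem cl697 : lchk (nat_lit 5) [w128, w219, w22, w15, w1501, w437, w1065, w581, w2795, w1192, w1209, w1064] (nat_lit 659318784) .nil .nil (.nod (nat_lit 273488056122441691478000483372799270866358511760983528897398177874) (.nod (nat_lit 1128944781799515830343050796139165717006857261436219656199397001241) .nil (.nod (nat_lit 12206184393793987253240286447557147388377491488) .nil (.nod (nat_lit 5391907731181465261965442511027196112875272455652161783567132892406493185048225206328) (.dwn (nat_lit 145234189907063875196763959321715111369885776766978291363725303383450078405927821281360) (nat_lit 625764352)) .nil .nil) (.nod (nat_lit 5391907731181465261965442511027196112875272455652161783567132892406493185048225206328)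 (.dwn (nat_lit 145234189907063875196763959321715111369885776766978291363725303383450078405927821281360) (nat_lit 625764352)) .nil .nil)) .dup) .nil (.dwn (nat_lit 273488049845339956084329129412734282177251242573209699708609136728) (nat_lit 122447872))) (.nod (nat_lit 471545075833205301835933724927973482477559271424) .nil (.nod (nat_lit 11418036667391120441847364182966520229413257362) .nil (.dwn (nat_lit 10091381851572363529604317488856343408094853327913928030202734307947804711312315599343616) (nat_lit 43575437312)) .dup) .nil) l697 = true := by decide +kernel
theorem cw3060 : wchk (nat_lit 5) [] [l697] (nat_lit 275) (nat_lit 1) (nat_lit 1) (nat_lit 0) (nat_lit 1230557440) (nat_lit 0) w3060 = true := by decide +kernel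
theorem cw3061 : wchk (nat_lit 5) [w3060, w16] [] (nat_lit 1) (nat_lit 2) (nat_lit 3) (nat_lit 2) (nat_lit 23282688) (nat_lit 22250500) w3061 = true := by decide +kernel
theorem cw3062 : wchk (nat_lit 5) [w3019, w16] [] (nat_lit 3) (nat_lit 1) (nat_lit 2) (nat_lit 2) (nat_lit 89932800) (nat_lit 23225348) w3062 = true := by decide +kernel
theorem cw3063 : wchk (nat_lit 5) [w3062, w16] [] (nat_lit 1) (nat_lit 2) (nat_lit 1) (nat_lit 2) (nat_lit 23282688) (nat_lit 23282692) w3063 = true := by decide +kernel
theorem cw3064 : wchk (nat_lit 5) [w2527, w16] [] (nat_lit 3) (nat_lit 1) (nat_lit 2) (nat_lit 2) (nat_lit 88821760) (nat_lit 23225348) w3064 = true := by decide +kernel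
theorem cw3065 : wchk (nat_lit 5) [w3064, w16] [] (nat_lit 1) (nat_lit 2) (nat_lit 1) (nat_lit 2) (nat_lit 23282688) (nat_lit 23282692) w3065 = true := by decide +kernel
theorem cw3066 : wchk (nat_lit 5) [w2118, w16] [] (nat_lit 3) (nat_lit 1) (nat_lit 3) (nat_lit 2) (nat_lit 89359360) (nat_lit 22709252) w3066 = true := by decide +kernel
theorem cw3067 : wchk (nat_lit 5) [w3066, w16] [] (nat_lit 17) (nat_lit 3) (nat_lit 2) (nat_lit 2) (nat_lit 23282688) (nat_lit 23225348) w3067 = true := by decide +kernel
theorem cw3068 : wchk (nat_lit 5) [w162, w799] [] (nat_lit 2) (nat_lit 0) (nat_lit 1) (nat_lit 2) (nat_lit 21662720) (nat_lit 23225348) w3068 = true := by decide +kernel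
theorem cw3069 : wchk (nat_lit 5) [w2118, w16] [] (nat_lit 3) (nat_lit 1) (nat_lit 2) (nat_lit 2) (nat_lit 90334208) (nat_lit 23225348) w3069 = true := by decide +kernel
theorem cw3070 : wchk (nat_lit 5) [w3069, w16] [] (nat_lit 17) (nat_lit 2) (nat_lit 1) (nat_lit 2) (nat_lit 23282688) (nat_lit 23282692) w3070 = true := by decide +kernel
theorem cl698 : lchk (nat_lit 5) [w3044, w799, w3046, w3048, w3049, w3067, w2015, w2037, w2709, w3068, w3050, w3052, w3053, w3055, w3057, w128, w3058, w3059, w3034, w3002, w16, w3045, w3040, w3047, w3070, w3061, w3063, w3065] (nat_lit 23282688) .nil (.nod (nat_lit 291575744471519150625829430223795990123671788780091507468362483728) .nil (.nod (nat_lit 292295753148974944440319068807434269733231602377709420051342723104) .nil (.nod (nat_lit 5391906804844751363728175026258732637077841197135554197689170321649492305094067570736) (.dwn (nat_lit 144915469865596377683196551664931123387591835175833822929615956342471168578965637384256) (nat_lit 4922229760)) .nil .nil) .dup) (.nod (nat_lit 292296104666672126110287249918333720229169990891084065861585504352) (.dwn (nat_lit 20933265353344295120162876124472893004634604528671336220574027326750497604547032811648)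 (nat_lit 90391620)) .nil .nil)) (.nod (nat_lit 291575744471519150625829427501537054756181008395752494257487120528) (.nod (nat_lit 292296556617997073951263241569146245530694769406868917053161818273) .nil (.nod (nat_lit 426892769028597550309624425252259235245020580008) .nil (.dwn (nat_lit 1139910554686057951156874646924480438634590789387667991029462047835590562965984770345008) (nat_lit 4922229844)) (.dwn (nat_lit 1139910554686057951156874646924480438634590789387667991029462047835590562965984770345008) (nat_lit 4922229844))) (.dwn (nat_lit 7874781657187742282799339823413979888906407835044624801083188218024) (nat_lit 627262548))) .nil (.dwn (nat_lit 291575744471519150625790450198100462780822060205014640158179756208) (nat_lit 90391552))) (.nod (nat_lit 292296757485252606325086661617844380151379033463276804360279247009) .nil (.nod (nat_lit 15806358224522839336916600981805666584577230880) .nil (.nod (nat_lit 5391924405242315435497583505249037363934983859698142593777137495052476596058118768688) (.dwn (nat_lit 144917129860987683848173424120545193792888783936976579733599438918020635496835882240064) (nat_lit 56461837380)) .nil .nil) .dup) (.nod (nat_lit 292296857918880372511939881186708141191132412339579081857890044000)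 (.dwn (nat_lit 20933277395721575801028392623202140569086548728256960590664736644279297343027350784128) (nat_lit 627262464)) .nil .nil)) l698 = true := by decide +kernel
theorem cw3071 : wchk (nat_lit 5) [] [l698] (nat_lit 211) (nat_lit 1) (nat_lit 1) (nat_lit 0) (nat_lit 1230557440) (nat_lit 0) w3071 = true := by decide +kernel
theorem cw3072 : wchk (nat_lit 5) [] [l687] (nat_lit 3) (nat_lit 1) (nat_lit 1) (nat_lit 0) (nat_lit 22597888) (nat_lit 0) w3072 = true := by decide +kernel
theorem cw3073 : wchk (nat_lit 5) [] [l687] (nat_lit 3) (nat_lit 2) (nat_lit 2) (nat_lit 0) (nat_lit 22583552) (nat_lit 0) w3073 = true := by decide +kernel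
theorem cw3074 : wchk (nat_lit 5) [] [l687] (nat_lit 3) (nat_lit 2) (nat_lit 1) (nat_lit 0) (nat_lit 22597888) (nat_lit 0) w3074 = true := by decide +kernel
theorem cw3075 : wchk (nat_lit 5) [w16, w799] [] (nat_lit 1) (nat_lit 1) (nat_lit 2) (nat_lit 2) (nat_lit 90384384) (nat_lit 23282692) w3075 = true := by decide +kernel
theorem cw3076 : wchk (nat_lit 5) [] [l45] (nat_lit 0) (nat_lit 0) (nat_lit 2) (nat_lit 0) (nat_lit 5562624) (nat_lit 0) w3076 = true := by decide +kernel
theorem cw3077 : wchk (nat_lit 5) [] [l684] (nat_lit 0) (nat_lit 3) (nat_lit 2) (nat_lit 0) (nat_lit 5820672) (nat_lit 0) w3077 = true := by decide +kernel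
theorem cw3078 : wchk (nat_lit 5) [] [l684] (nat_lit 0) (nat_lit 3) (nat_lit 3) (nat_lit 0) (nat_lit 5705984) (nat_lit 0) w3078 = true := by decide +kernel
theorem cw3079 : wchk (nat_lit 5) [] [l249] (nat_lit 2) (nat_lit 3) (nat_lit 4) (nat_lit 0) (nat_lit 3870976) (nat_lit 0) w3079 = true := by decide +kernel
theorem cl699 : lchk (nat_lit 5) [w1919, w7, w1072, w1459, w412, w218, w239, w141, w140, w3079, w1830] (nat_lit 23160832) .nil (.nod (nat_lit 17126983882071993884607201839682844070709821458) .nil (.nod (nat_lit 33028231328764251216041103376) .nil .nil (.dwn (nat_lit 9594377337056717812820221655094314441743872079570807263426526447337526725283837422600218) (nat_lit 41429329932))) (.nod (nat_lit 277717661428271267768835300866526016407945607179914181121488716634) (.dwn (nat_lit 144915468939259663730728197300444664117096694872875814526916302831788272809351157291088) (nat_lit 627140608)) .nil .nil)) (.nod (nat_lit 11418015229602004221374170629682096836148461651) (.nod (nat_lit 11418014889319637300435707166307489404380250194) .nil (.nod (nat_lit 11417993111248154383511450098345823802945962002) .nil (.opn (nat_lit 61793144131917795771351606011726870508588489681549863433144088317952))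 .dup) .nil) .nil .nil) .nil l699 = true := by decide +kernel
theorem cw3080 : wchk (nat_lit 5) [] [l699] (nat_lit 1745) (nat_lit 2) (nat_lit 1) (nat_lit 0) (nat_lit 156815616) (nat_lit 0) w3080 = true := by decide +kernel
theorem cw3081 : wchk (nat_lit 5) [] [] (nat_lit 2) (nat_lit 0) (nat_lit 4) (nat_lit 2) (nat_lit 333) (nat_lit 25165833) w3081 = true := by decide +kernel
theorem cl700 : lchk (nat_lit 5) [w1919, w7, w1072, w3081, w235, w1101, w239, w141, w140, w3079, w1830] (nat_lit 23160832) .nil (.nod (nat_lit 17126983882071993884607201839682844070709821458) .nil (.nod (nat_lit 33028231328764251216041103376) .nil .nil (.dwn (nat_lit 145264065192423816672578009636616917182603950555703464650854070654210018570354095554586) (nat_lit 627262476))) (.nod (nat_lit 277717661428271267769889011077156588351383169868296816202646291290) (.dwn (nat_lit 144915468939259663730728197300444664117096694872875814526916302831788272809351157291088) (nat_lit 627140608)) .nil .nil)) (.nod (nat_lit 11418015229602004221374170629682096836148461651) (.nod (nat_lit 11418014889319637300435707166307489404380250194) .nil (.nod (nat_lit 7873250797616516178679180775172098607271598412856902290872377278482)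 .nil (.opn (nat_lit 61793144131917795771351606011726870508588489681549863433144088317952)) .dup) .nil) .nil .nil) .nil l700 = true := by decide +kernel
theorem cw3082 : wchk (nat_lit 5) [] [l700] (nat_lit 1745) (nat_lit 2) (nat_lit 1) (nat_lit 0) (nat_lit 156815616) (nat_lit 0) w3082 = true := by decide +kernel
theorem cl701 : lchk (nat_lit 5) [w3031, w16, w922, w833, w1115, w1075, w831, w1101, w3080, w3082] (nat_lit 55804928) (.nod (nat_lit 11418014889319637300435707166307489404380250194) .nil (.nod (nat_lit 11417993111248154361194944086803506601387884562) .nil (.nod (nat_lit 1129034770329994333782674787451531615877887192379106471702963048480) .nil (.dwn (nat_lit 1139908879869279222677218624593242794211431702431784913969269988149278329390390145601576) (nat_lit 4922222612)) (.dwn (nat_lit 1139908879869279222677218624593242794211431702431784913969269988149278329390390145601576) (nat_lit 4922222612))) (.dwn (nat_lit 1129034770329994334209562631913715086342926472294089048079993557024) (nat_lit 627255316))) .nil) (.nod (nat_lit 11418014889319637300435707166307489404380250194) .nil (.nod (nat_lit 1128944982666771362701029022557651426349942216391667531291616608658)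 .nil (.opn (nat_lit 61781715588547025832511332034748593481285167399214392029289575286784)) .dup) (.dwn (nat_lit 292296004233044359907549764477040570992165974900382868040178467218) (nat_lit 626230272))) .nil .nil l701 = true := by decide +kernel
theorem cw3083 : wchk (nat_lit 5) [] [l701] (nat_lit 3) (nat_lit 3) (nat_lit 3) (nat_lit 0) (nat_lit 5820672) (nat_lit 0) w3083 = true := by decide +kernel
theorem cw3084 : wchk (nat_lit 5) [] [l180] (nat_lit 17) (nat_lit 3) (nat_lit 3) (nat_lit 0) (nat_lit 5820672) (nat_lit 0) w3084 = true := by decide +kernel
theorem cw3085 : wchk (nat_lit 5) [] [l534] (nat_lit 2) (nat_lit 2) (nat_lit 3) (nat_lit 0) (nat_lit 22454528) (nat_lit 0) w3085 = true := by decide +kernel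
theorem cw3086 : wchk (nat_lit 5) [] [l538] (nat_lit 2) (nat_lit 2) (nat_lit 3) (nat_lit 0) (nat_lit 22454528) (nat_lit 0) w3086 = true := by decide +kernel
theorem cl702 : lchk (nat_lit 5) [w1401, w1075, w1546, w922, w833, w914, w913, w1120, w3084, w2772, w3085, w160, w3086] (nat_lit 23275520) (.nod (nat_lit 618971827423609361019175002) .nil (.nod (nat_lit 60844101505012470199322057768676835327320523162) .nil .nil (.dwn (nat_lit 426102434647704849369356962690394236680151439376) (nat_lit 627255296))) (.nod (nat_lit 292295753148974944501787599344782403482180803214947120518732448154) .nil (.nod (nat_lit 426892725472454584429501099579126242543866906664) .nil .nil .dup) (.opn (nat_lit 7874780853718720153304202008876790752444983248269994916985616893992)))) (.nod (nat_lit 618971827423609361019175002) .nil (.nod (nat_lit 1134794237147874087364845740174309967671895675885227101930318201242) .nil (.opn (nat_lit 7874690614104172234381536213668735863621234346144376059277137563648)) .dup) (.nod (nat_lit 292296004233044359968984018371568758609690509275544203547285389722) (.dwn (nat_lit 145264071676780813970152535429173400844556538564503400482254797517108210765668034185312)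 (nat_lit 627255296)) .nil .nil)) .nil .nil l702 = true := by decide +kernel
theorem cw3087 : wchk (nat_lit 5) [] [l702] (nat_lit 25) (nat_lit 3) (nat_lit 2) (nat_lit 0) (nat_lit 5820672) (nat_lit 0) w3087 = true := by decide +kernel
theorem cw3088 : wchk (nat_lit 5) [] [l241] (nat_lit 17) (nat_lit 2) (nat_lit 4) (nat_lit 0) (nat_lit 5704192) (nat_lit 0) w3088 = true := by decide +kernel
theorem cl703 : lchk (nat_lit 5) [] (nat_lit 305) .nil (.nod (nat_lit 315937088427130563258027037349923679901950623069863039856818520580) .nil .nil (.opn (nat_lit 210628010634661894534951277044185953904520721445302518708407631906))) (.nod (nat_lit 33554523) (.nod (nat_lit 618971827423609360985620740) .nil (.nod (nat_lit 210626403696617635544675647969807680982290523265241222026350297186) .nil (.opn (nat_lit 1895623070393532622802707943241716030477294116598302694793063432482)) .dup) (.opn (nat_lit 210626403696617635544675647969807680981671560329148256193066566042))) .nil .nil) .nil l703 = true := by decide +kernel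
theorem cw3089 : wchk (nat_lit 5) [] [l703] (nat_lit 1) (nat_lit 3) (nat_lit 3) (nat_lit 0) (nat_lit 5820672) (nat_lit 0) w3089 = true := by decide +kernel
theorem cw3090 : wchk (nat_lit 5) [] [l688] (nat_lit 2) (nat_lit 2) (nat_lit 4) (nat_lit 0) (nat_lit 22354176) (nat_lit 0) w3090 = true := by decide +kernel
theorem cl704 : lchk (nat_lit 5) [w1546, w1932, w1075, w1115, w914, w1375, w1376, w3090, w1120, w150, w3088, w3089] (nat_lit 22121472) (.nod (nat_lit 618971827423609361019175002) .nil (.nod (nat_lit 284286673502760370780969812593846549565569062619879673761986773402) .nil .nil (.dwn (nat_lit 7860202460697133178056464479074227191189986567046133703358426585088) (nat_lit 626101248))) (.nod (nat_lit 1128944832016329713481534655210206237344690039703339631056443670554) .nil (.nod (nat_lit 426853696446098220471495439912629207756946427952) .nil (.dwn (nat_lit 1139641615979595360561383860954699260103144083858757267425184750504599846038466241697792) (nat_lit 4921068544)) .dup) (.dwn (nat_lit 7874780803501906270210716869164119002825646524532325272365905104944) (nat_lit 626101248)))) (.nod (nat_lit 618971827423609361019175066) .nil (.nod (nat_lit 1128945083100399128948765222253077842488885222332541706888519090586)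 .nil (.opn (nat_lit 7855253543472140435848541950666315478097182424358949280636550451272)) .dup) (.dwn (nat_lit 292296104666672126110248220891977356270305622043193606523450294682) (nat_lit 90391596))) .nil .nil l704 = true := by decide +kernel
theorem cw3091 : wchk (nat_lit 5) [] [l704] (nat_lit 25) (nat_lit 3) (nat_lit 2) (nat_lit 0) (nat_lit 5820672) (nat_lit 0) w3091 = true := by decide +kernel
theorem cw3092 : wchk (nat_lit 5) [] [l241] (nat_lit 17) (nat_lit 2) (nat_lit 3) (nat_lit 0) (nat_lit 4672000) (nat_lit 0) w3092 = true := by decide +kernel
theorem cw3093 : wchk (nat_lit 5) [] [l241] (nat_lit 17) (nat_lit 2) (nat_lit 3) (nat_lit 0) (nat_lit 4541184) (nat_lit 0) w3093 = true := by decide +kernel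
theorem cl705 : lchk (nat_lit 5) [w1401, w1932, w1546, w7, w16, w914, w377, w913, w3092, w3093, w3085, w160, w3086] (nat_lit 23211008) (.nod (nat_lit 618971827423609361019175002) .nil (.nod (nat_lit 284286673502760370720125708366575143998739312565684024601705709978) .nil (.nod (nat_lit 7860202561130760943817254271243670983924505795942060724396268656656) .nil (.opn (nat_lit 1139893935279073897699771666679775256968726424292157910861254469380442270654826354595840)) .dup) .nil) (.nod (nat_lit 290765948130840385713809482182589624559277400282600948465204724122) .nil (.nod (nat_lit 426853699168357155839001296451964782310175590440) .nil (.dwn (nat_lit 1139893935279073897637977892628144111679886466090560445283566835680515205062137131325440) (nat_lit 4922158080)) .dup) (.dwn (nat_lit 7874780853718720153304162982572693323854483445142833456751925577768) (nat_lit 627190784)))) (.nod (nat_lit 618971827423609361019175002) .nil (.nod (nat_lit 1120126106679878024130332887637003050031660428946356206710013559194) .nil (.opn (nat_lit 7873880717329865703282619160182086310505250877317452888925242939392)) .dup) (.nod (nat_lit 292296004233044359923395023101185078170632944205486770277387862426)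 (.dwn (nat_lit 145250791713650364650331796920044724445780662736502067497246238090093326899054833354848) (nat_lit 627190784)) .nil .nil)) .nil .nil l705 = true := by decide +kernel
theorem cw3094 : wchk (nat_lit 5) [] [l705] (nat_lit 25) (nat_lit 3) (nat_lit 2) (nat_lit 0) (nat_lit 5820672) (nat_lit 0) w3094 = true := by decide +kernel
theorem cw3095 : wchk (nat_lit 5) [] [l702] (nat_lit 33) (nat_lit 3) (nat_lit 2) (nat_lit 0) (nat_lit 5806336) (nat_lit 0) w3095 = true := by decide +kernel
theorem cw3096 : wchk (nat_lit 5) [] [l704] (nat_lit 33) (nat_lit 3) (nat_lit 2) (nat_lit 0) (nat_lit 5806336) (nat_lit 0) w3096 = true := by decide +kernel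
theorem cw3097 : wchk (nat_lit 5) [] [l705] (nat_lit 33) (nat_lit 3) (nat_lit 2) (nat_lit 0) (nat_lit 5806336) (nat_lit 0) w3097 = true := by decide +kernel
theorem cw3098 : wchk (nat_lit 5) [w3031] [] (nat_lit 0) (nat_lit 0) (nat_lit 3) (nat_lit 2) (nat_lit 25165873) (nat_lit 23282688) w3098 = true := by decide +kernel
theorem cw3099 : wchk (nat_lit 5) [w3031] [] (nat_lit 0) (nat_lit 0) (nat_lit 4) (nat_lit 2) (nat_lit 25165865) (nat_lit 19612672) w3099 = true := by decide +kernel
theorem cl706 : lchk (nat_lit 5) [w3005, w16, w721, w3087, w3091, w2478, w3094, w360, w162, w549, w3032, w3002, w3076, w3077, w3078, w3083, w3095, w3096, w3021, w3097, w3098, w3099] (nat_lit 23282688) .nil (.nod (nat_lit 292295658992448913655913966772856825586766233076315857287864731664) .nil (.nod (nat_lit 292295753148974944440319068807434269733231602377709420051342723104) .nil (.dwn (nat_lit 145264062413413674984864100073547927711504240807196591915211882141458726189610975004672) (nat_lit 627262464)) (.dwn (nat_lit 145264062413413674984864100073547927711504240807196591915211882141458726189610975004672) (nat_lit 627262464))) (.dwn (nat_lit 292205865052124207187626332998291009978871528652317672201642397752)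 (nat_lit 90391552))) (.nod (nat_lit 15142925006443597056899066047346627347791661121) (.nod (nat_lit 60414833938012238647183979394938359103792408648) .nil (.nod (nat_lit 7874061196558961541127950750598196088152748681568690604342201600080) .nil (.opn (nat_lit 61793954530860241133384984199299263271992863517110930281056965019728)) .dup) (.dwn (nat_lit 7874061196558961541127950750598196088152748681568690604342201600080) (nat_lit 627205160))) .nil (.nod (nat_lit 5391912362865034754613259453866596460437175587166449960366240687042392912479565178952) (.dwn (nat_lit 20933264427007581221633312685688199052038920029585442074921240271326987005002902046832) (nat_lit 627262464)) .nil .nil)) (.nod (nat_lit 292296355750741541577478752545482801637738420437770192795695663120) .nil (.nod (nat_lit 15845419917986427705016606218387683387955906696) .nil (.dwn (nat_lit 145025039751126437393748167300818943047202270968743792027703065415934201068909748734016) (nat_lit 626230344)) .dup) (.dwn (nat_lit 292296556617997073951302270595502609488721320951813375666469374120) (nat_lit 89359432))) l706 = true := by decide +kernel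
theorem cw3100 : wchk (nat_lit 5) [] [l706] (nat_lit 3) (nat_lit 2) (nat_lit 1) (nat_lit 0) (nat_lit 22597888) (nat_lit 0) w3100 = true := by decide +kernel
theorem cw3101 : wchk (nat_lit 5) [] [l698] (nat_lit 3) (nat_lit 2) (nat_lit 0) (nat_lit 0) (nat_lit 22597888) (nat_lit 0) w3101 = true := by decide +kernel
theorem cw3102 : wchk (nat_lit 5) [w16, w3042] [] (nat_lit 19) (nat_lit 0) (nat_lit 2) (nat_lit 2) (nat_lit 22307840) (nat_lit 90334212) w3102 = true := by decide +kernel
theorem cw3103 : wchk (nat_lit 5) [] [l685] (nat_lit 0) (nat_lit 3) (nat_lit 2) (nat_lit 0) (nat_lit 5820672) (nat_lit 0) w3103 = true := by decide +kernel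
theorem cw3104 : wchk (nat_lit 5) [] [l685] (nat_lit 0) (nat_lit 3) (nat_lit 3) (nat_lit 0) (nat_lit 5705984) (nat_lit 0) w3104 = true := by decide +kernel
theorem cw3105 : wchk (nat_lit 5) [] [l249] (nat_lit 3) (nat_lit 2) (nat_lit 1) (nat_lit 0) (nat_lit 20648192) (nat_lit 0) w3105 = true := by decide +kernel
theorem cw3106 : wchk (nat_lit 5) [] [l478] (nat_lit 19) (nat_lit 2) (nat_lit 2) (nat_lit 0) (nat_lit 21391872) (nat_lit 0) w3106 = true := by decide +kernel
theorem cl707 : lchk (nat_lit 5) [w1919, w192, w3106, w1459, w412, w218, w239, w141, w140, w3079, w1830] (nat_lit 23160832) .nil (.nod (nat_lit 17126983882071993884607201839682844070709821458) .nil (.nod (nat_lit 33002579434029303301646223376) .nil .nil (.dwn (nat_lit 9594377337056717812820221655094314441743872079570807263426526447337526725283837422600218) (nat_lit 41429329932))) (.nod (nat_lit 277717661428271267768835300866526016407945607179914181121488716634) (.dwn (nat_lit 144915468939259663730728197300444664117096694872875814526916302831788272809351157291088) (nat_lit 627140608)) .nil .nil)) (.nod (nat_lit 11418015229602004221374170629682096836148461651) (.nod (nat_lit 11418014889319637300435707166307489404380250194)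 .nil (.nod (nat_lit 11417993111248154360374045510332613771214716946) (.opn (nat_lit 61793144131917795768013210949211359954545887257938047253079597776914)) .nil .nil) .nil) .nil .nil) .nil l707 = true := by decide +kernel
theorem cw3107 : wchk (nat_lit 5) [] [l707] (nat_lit 1745) (nat_lit 2) (nat_lit 1) (nat_lit 0) (nat_lit 156815616) (nat_lit 0) w3107 = true := by decide +kernel
theorem cw3108 : wchk (nat_lit 5) [] [l478] (nat_lit 19) (nat_lit 2) (nat_lit 2) (nat_lit 0) (nat_lit 21391872) (nat_lit 0) w3108 = true := by decide +kernel
theorem cl708 : lchk (nat_lit 5) [w1919, w1101, w3108, w1459, w412, w218, w239, w141, w140, w3079, w1830] (nat_lit 23160832) .nil (.nod (nat_lit 17126983882071993884607201839682844070709821458) .nil (.nod (nat_lit 3310794620316066413436897296) .nil .nil (.dwn (nat_lit 9594377337056717812820221655094314441743872079570807263426526447337526725283837422600218) (nat_lit 41429329932))) (.nod (nat_lit 277717661428271267768835300866526016407945607179914181121488716634) (.dwn (nat_lit 144915468939259663730728197300444664117096694872875814526916302831788272809351157291088) (nat_lit 627140608)) .nil .nil)) (.nod (nat_lit 11418015229602004221374170629682096836148461651)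 (.nod (nat_lit 11418014889319637300435707166307489404380250194) .nil (.nod (nat_lit 11417993111248154360374045510332613771214716946) (.opn (nat_lit 1139882315311334754483134746432656519827619145530527683117625058281696760505982534025234)) .nil .nil) .nil) .nil .nil) .nil l708 = true := by decide +kernel
theorem cw3109 : wchk (nat_lit 5) [] [l708] (nat_lit 1745) (nat_lit 2) (nat_lit 1) (nat_lit 0) (nat_lit 156815616) (nat_lit 0) w3109 = true := by decide +kernel
theorem cw3110 : wchk (nat_lit 5) [] [] (nat_lit 0) (nat_lit 0) (nat_lit 2) (nat_lit 2) (nat_lit 25165905) (nat_lit 16777265) w3110 = true := by decide +kernel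
theorem cw3111 : wchk (nat_lit 5) [] [] (nat_lit 0) (nat_lit 0) (nat_lit 2) (nat_lit 2) (nat_lit 25165905) (nat_lit 16777265) w3111 = true := by decide +kernel
theorem cw3112 : wchk (nat_lit 5) [] [] (nat_lit 0) (nat_lit 0) (nat_lit 2) (nat_lit 2) (nat_lit 25165905) (nat_lit 16777265) w3112 = true := by decide +kernel
theorem cl709 : lchk (nat_lit 5) [w7, w16, w18, w1101, w233, w21, w359, w3107, w3109, w3110, w1091, w3111, w3112] (nat_lit 56371200) (.nod (nat_lit 17127027438214959764730512700080345583093547154) (.nod (nat_lit 11418014889319637300435707166307489404380250194) .nil (.nod (nat_lit 11417993111248154361194944086803506601387884562) .nil (.nod (nat_lit 7868931448587175778993998209329268179161618138252432612977212069920) .nil (.dwn (nat_lit 1139802635532552058625999140060339289037093608731404335808504854934494093069927870648320) (nat_lit 4921763840)) (.dwn (nat_lit 1139802635532552058625999140060339289037093608731404335808504854934494093069927870648320) (nat_lit 4921763840))) (.dwn (nat_lit 7868931448587175779420578724368943334843657866875242956577819887656) (nat_lit 626796544))) .nil) .nil .nil) .nil (.nod (nat_lit 11417993111248154360374045510332613771214716946)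 (.opn (nat_lit 145156162712978774261314750432396329246847277104907668953073308994889104057510683214226)) .nil (.nod (nat_lit 20933259795324011728985495491764729289005275997825667402186070797938589416871182729234) (.opn (nat_lit 145264070750444100125544215152647164033126017523327789409958319743350206078227023824984)) .nil .nil)) .nil l709 = true := by decide +kernel
theorem cw3113 : wchk (nat_lit 5) [] [l709] (nat_lit 3) (nat_lit 2) (nat_lit 3) (nat_lit 0) (nat_lit 22597888) (nat_lit 0) w3113 = true := by decide +kernel
theorem cw3114 : wchk (nat_lit 5) [] [l478] (nat_lit 19) (nat_lit 2) (nat_lit 2) (nat_lit 0) (nat_lit 21391872) (nat_lit 0) w3114 = true := by decide +kernel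
theorem cl710 : lchk (nat_lit 5) [w1919, w18, w3114, w3081, w235, w1101, w239, w141, w140, w3079, w1830] (nat_lit 23160832) .nil (.nod (nat_lit 17126983882071993884607201839682844070709821458) .nil (.nod (nat_lit 33028231328764251214447020048) .nil .nil (.dwn (nat_lit 145264065192423816672578009636616917182603950555703464650854070654210018570354095554586) (nat_lit 627262476))) (.nod (nat_lit 277717661428271267769889011077156588351383169868296816202646291290) (.dwn (nat_lit 144915468939259663730728197300444664117096694872875814526916302831788272809351157291088) (nat_lit 627140608)) .nil .nil)) (.nod (nat_lit 11418015229602004221374170629682096836148461651) (.nod (nat_lit 11418014889319637300435707166307489404380250194) .nil (.nod (nat_lit 11417993111248154360374045510332613771214716946) (.opn (nat_lit 11417993111248154541967775126874498990033862674)) .nil .nil) .nil) .nil .nil) .nil l710 = true := by decide +kernel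
theorem cw3115 : wchk (nat_lit 5) [] [l710] (nat_lit 1745) (nat_lit 2) (nat_lit 1) (nat_lit 0) (nat_lit 156815616) (nat_lit 0) w3115 = true := by decide +kernel
theorem cw3116 : wchk (nat_lit 5) [] [l478] (nat_lit 19) (nat_lit 2) (nat_lit 2) (nat_lit 0) (nat_lit 21391872) (nat_lit 0) w3116 = true := by decide +kernel
theorem cl711 : lchk (nat_lit 5) [w1919, w193, w3116, w3081, w235, w1101, w239, w141, w140, w3079, w1830] (nat_lit 23160832) .nil (.nod (nat_lit 17126983882071993884607201839682844070709821458) .nil (.nod (nat_lit 33002579434029303301646223376) .nil .nil (.dwn (nat_lit 145264065192423816672578009636616917182603950555703464650854070654210018570354095554586) (nat_lit 627262476))) (.nod (nat_lit 277717661428271267769889011077156588351383169868296816202646291290) (.dwn (nat_lit 144915468939259663730728197300444664117096694872875814526916302831788272809351157291088) (nat_lit 627140608)) .nil .nil)) (.nod (nat_lit 11418015229602004221374170629682096836148461651) (.nod (nat_lit 11418014889319637300435707166307489404380250194) .nil (.nod (nat_lit 11417993111248154360374045510332613771214716946) (.opn (nat_lit 1139882315311334754483134746432656519827619145530527683117625058281696760505982534025234))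 .nil .nil) .nil) .nil .nil) .nil l711 = true := by decide +kernel
theorem cw3117 : wchk (nat_lit 5) [] [l711] (nat_lit 1745) (nat_lit 2) (nat_lit 1) (nat_lit 0) (nat_lit 156815616) (nat_lit 0) w3117 = true := by decide +kernel
theorem cl712 : lchk (nat_lit 5) [w7, w16, w192, w6, w812, w21, w359, w3115, w3117, w3110, w3112, w3111, w1091] (nat_lit 56242176) (.nod (nat_lit 17127027438214959764730512700080345583093547154) (.nod (nat_lit 11418014889319637300435707166307489404380250194) .nil (.nod (nat_lit 11417993111248154361194944086803506601387884562) .nil (.nod (nat_lit 7873160909519665441399224653556310119151270492926234066322601955360) .nil (.dwn (nat_lit 1139772755615508547656400858621251154077650141820612256700332253843092871314870184992768) (nat_lit 4921634816)) (.dwn (nat_lit 1139772755615508547656400858621251154077650141820612256700332253843092871314870184992768) (nat_lit 4921634816))) (.dwn (nat_lit 7873160909519665441825727115987790417632500930140924998055061948456) (nat_lit 626667520))) .nil) .nil .nil) .nil (.nod (nat_lit 11417993111248154360374045510332613771214716946) (.opn (nat_lit 145126282795935263283849157438703259336794450503948032328991530309273241084096505971090))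 .nil (.nod (nat_lit 20933259795324011727850701154183227435514382154117292745599215629259263633821506994194) (.opn (nat_lit 145025031414096012314843919560121907492846522331494263314705917067463502175986514593880)) .nil .nil)) .nil l712 = true := by decide +kernel
theorem cw3118 : wchk (nat_lit 5) [] [l712] (nat_lit 3) (nat_lit 2) (nat_lit 1) (nat_lit 0) (nat_lit 22597888) (nat_lit 0) w3118 = true := by decide +kernel
theorem cl713 : lchk (nat_lit 5) [w3031, w16, w802, w1101, w33, w158, w1928, w359, w831, w3113, w3118] (nat_lit 55804928) (.nod (nat_lit 11418014889319637300435707166307489404380250194) .nil (.nod (nat_lit 11417993111248154361194944086803506601387884562) .nil (.nod (nat_lit 1126785057068031747396916040522253988214542191793645419130651168800) .nil (.dwn (nat_lit 145250787081966795157690458850098893048068466864408853643286610990638075489842507335720) (nat_lit 627205140)) (.dwn (nat_lit 145250787081966795157690458850098893048068466864408853643286610990638075489842507335720) (nat_lit 627205140))) (.dwn (nat_lit 1126785057068031747454794156527156562373240560122155092427868923952) (nat_lit 90334228))) .nil) (.nod (nat_lit 11418014889319637300435707166307489404380250194)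 .nil (.nod (nat_lit 1128945083100399128887921243930282197672604873439058832357463163282) (.opn (nat_lit 1139671495896638871592762238188785807829552030802643867307539004317009964707933093038080)) (.dwn (nat_lit 1139671495896638871592762238188785807829552030802643867307539004317009964707933093038080) (nat_lit 4921197568)) .dup) (.dwn (nat_lit 292296054449858243000995875163355956653497303866800376342130983314) (nat_lit 626230272))) .nil .nil l713 = true := by decide +kernel
theorem cw3119 : wchk (nat_lit 5) [] [l713] (nat_lit 3) (nat_lit 3) (nat_lit 3) (nat_lit 0) (nat_lit 5820672) (nat_lit 0) w3119 = true := by decide +kernel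
theorem cw3120 : wchk (nat_lit 5) [] [l278] (nat_lit 1) (nat_lit 3) (nat_lit 2) (nat_lit 0) (nat_lit 2824448) (nat_lit 0) w3120 = true := by decide +kernel
theorem cw3121 : wchk (nat_lit 5) [] [l89] (nat_lit 17) (nat_lit 2) (nat_lit 4) (nat_lit 0) (nat_lit 4480256) (nat_lit 0) w3121 = true := by decide +kernel
theorem cl714 : lchk (nat_lit 5) [w432, w1932, w158, w33, w3024, w1120, w150, w3121] (nat_lit 11218944) (.nod (nat_lit 618971827423609361019175002) .nil (.nod (nat_lit 284286673502760370735268616699182761928830645967262978423262282138) .nil .nil (.dwn (nat_lit 7723329905839329422339482439830452714589182567583662818788956856320) (nat_lit 615198720))) (.nod (nat_lit 292205764618496441000685320578761646815066701117914580301595541530) .nil (.nod (nat_lit 791604684913265092552135026034744516491875108896) .nil (.dwn (nat_lit 1137116762989418683630465951906609659785873272183937310039664016606131023176601615884288) (nat_lit 4910166016)) .dup) (.dwn (nat_lit 14602529030144489749303694046090923248934762853541263005263596275744) (nat_lit 615198720)))) (.nod (nat_lit 618971827423609361019175066) .nil (.nod (nat_lit 1128944932449957479668426882027354879402368112755020461389253706138)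 (.opn (nat_lit 144903848971520520575884421135026908860886310810087531922880536873302683899039422287920)) .dup .dup) (.dwn (nat_lit 292295954016230476829909880666254393183788512465672361024184910234) (nat_lit 88836120))) .nil .nil l714 = true := by decide +kernel
theorem cw3122 : wchk (nat_lit 5) [] [l714] (nat_lit 25) (nat_lit 3) (nat_lit 2) (nat_lit 0) (nat_lit 5820672) (nat_lit 0) w3122 = true := by decide +kernel
theorem cl715 : lchk (nat_lit 5) [w1401, w210, w802, w915, w158, w432, w1120, w377, w913] (nat_lit 23211008) (.nod (nat_lit 618971827423609361019175002) .nil (.nod (nat_lit 277627522247351115034037390078055484404317222706655978188374540698) .nil (.opn (nat_lit 7874780753285092387117270755755544681796805371796004721239729162264)) .dup) (.nod (nat_lit 285096720927508551099337189320061246934404489331081219327525912986) .nil .nil (.opn (nat_lit 7723330156923398837388030440125366275075666388355325181861752627240)))) (.nod (nat_lit 618971827423609361019175002) .nil (.nod (nat_lit 1128944982666771362761872995435929200431207149280860876555675500954) (.opn (nat_lit 145247462459500613335087277051832297178906936452404252754724468974655248854455438039040))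 .dup .dup) (.dwn (nat_lit 1120126156896691907223779001045577371060499465472196621876435354010) (nat_lit 90319872))) .nil .nil l715 = true := by decide +kernel
theorem cw3123 : wchk (nat_lit 5) [] [l715] (nat_lit 33) (nat_lit 3) (nat_lit 2) (nat_lit 0) (nat_lit 5820672) (nat_lit 0) w3123 = true := by decide +kernel
theorem cl716 : lchk (nat_lit 5) [w3007, w16, w721, w3120, w3122, w2478, w3009, w3023, w549, w3032, w3002, w261, w3103, w3104, w3119, w3123, w3022, w3010] (nat_lit 23282688) .nil (.nod (nat_lit 292295658992448913655913966772856825586766233076315857287864731664) .nil (.nod (nat_lit 292295753148974944440319068807434269733231602377709420051342723104) .nil (.dwn (nat_lit 145264062413413674984864100073547927711504240807196591915211882141458726189610975004672) (nat_lit 627262464)) (.dwn (nat_lit 145264062413413674984864100073547927711504240807196591915211882141458726189610975004672) (nat_lit 627262464))) (.dwn (nat_lit 292205865052124207187626332998291009979195482993042529863311247416) (nat_lit 90391552))) (.nod (nat_lit 15762448528177728358508329507195868240327954441) (.nod (nat_lit 60414831215753303279676271540367547059970304064) .nil (.nod (nat_lit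 7874061146342147658034504637189621767123909644895276236586103392328) (.opn (nat_lit 1139897263606886935116493102233180628652051491365247519448483946532889029358896183298120)) (.dwn (nat_lit 1139897263606886935116493102233180628652051491365247519448483946532889029358896183298120) (nat_lit 4922229760)) .dup) (.dwn (nat_lit 7874061146342147658034504637189621767123909644895276236586103392328) (nat_lit 627205156))) .nil (.nod (nat_lit 5391911436528320856083696065298716390933912758284313699874220663527150037130705954880) (.dwn (nat_lit 20933263500670867323103749246903505099442211090016990428767888918992900573941766719592) (nat_lit 627262464)) .nil .nil)) (.nod (nat_lit 292296305533927658484032641859167415976407091618926637083419559952) .nil (.nod (nat_lit 15845417195727492337491973254768313946009667704) .nil (.dwn (nat_lit 145025037898453009596689040523683182908606792673701425306161169611737830557276826962048) (nat_lit 626230336)) .dup) (.dwn (nat_lit 292296456184369307764410035611577161328503198932223646624682510456) (nat_lit 89359424))) l716 = true := by decide +kernel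
theorem cw3124 : wchk (nat_lit 5) [] [l716] (nat_lit 3) (nat_lit 2) (nat_lit 1) (nat_lit 0) (nat_lit 22597888) (nat_lit 0) w3124 = true := by decide +kernel
theorem cl717 : lchk (nat_lit 5) [w3012, w16, w3013, w3014, w3015, w3036, w2015, w2037, w2709, w3039, w3041, w3018, w3017, w251, w3028, w3029, w128, w3030, w3033, w799, w3034, w3042, w3043, w3075, w3100, w3101, w3102, w3124, w3071, w2380, w3072, w3073, w3074] (nat_lit 23282688) .nil (.nod (nat_lit 292295658992448913655913966772856825586766233076315857287864731664) .nil (.nod (nat_lit 291575844905146916796876269790065428887299539816310403260071856160) .nil (.nod (nat_lit 5378626841714302043907436517130056238301965369134221212680613010254792764081922590768) (.dwn (nat_lit 144915469865596377683196551664931123387591796149529725501025458654964191444333001918528) (nat_lit 4922172456)) .nil .nil) .dup) (.nod (nat_lit 291576246639657981560251538005441771821524006918806775866192253032) (.dwn (nat_lit 20919986316550559698870981145885082530811994841221086040872887189508301152203696326792) (nat_lit 90334280)) .nil .nil)) (.nod (nat_lit 291576648374169046307859468855874833275283666156027872432432253088) (.nod (nat_lit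 1134794990400082333767171616022249062335895793242441659450876397744) .nil (.nod (nat_lit 292296757485252606325047695203443529646033990973031086605721880760) (.dwn (nat_lit 1139910557465068092914258012282540356250514890199201570287667545228677412702962396334288) (nat_lit 4922229868)) .nil .nil) .dup) (.nod (nat_lit 20933279248395003598106327706243302293586224033654312049416873437239278891985322543280) (.dwn (nat_lit 145264090203515091940751003287305560172925808793215778099819584720820697587547693811968) (nat_lit 627262464)) .nil .nil) (.nod (nat_lit 20933279248395003598106327706243302293586224033654312049416873437239278891985322543280) (.dwn (nat_lit 145264090203515091940751003287305560172925808793215778099819584720820697587547693811968) (nat_lit 627262464)) .nil .nil)) (.nod (nat_lit 292295702932161061362679311241406219593844976587707111705282037776) .nil (.nod (nat_lit 15845384528620267927416404108967126818268547104) .nil (.nod (nat_lit 5391906804844751363435879122459316043372990162660473416411403497499707393262413498416) (.dwn (nat_lit 144917129860987683848174144028789021820532226735993948574445368864961850188026097256512) (nat_lit 4922229800)) .nil .nil)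 .dup) (.nod (nat_lit 292296205100299892297179471290964491551772882406137931645985314920) (.dwn (nat_lit 20933266279681009018673632010604393618140840892357640850421825577213503452618053601416) (nat_lit 90391624)) .nil .nil)) l717 = true := by decide +kernel
theorem cw3125 : wchk (nat_lit 5) [] [l717] (nat_lit 28) (nat_lit 1) (nat_lit 1) (nat_lit 0) (nat_lit 156801280) (nat_lit 0) w3125 = true := by decide +kernel
theorem cw3126 : wchk (nat_lit 5) [w37, w1065] [] (nat_lit 19) (nat_lit 0) (nat_lit 2) (nat_lit 2) (nat_lit 23225344) (nat_lit 895640580) w3126 = true := by decide +kernel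
theorem cl718 : lchk (nat_lit 5) [w618, w17, w1408, w16, w1, w69, w2309, w2118, w2119, w3, w2303, w2304, w1449] (nat_lit 21712896) .nil (.nod (nat_lit 842054759867404767058364424) .nil .nil (.dwn (nat_lit 1122555596135542084991689596295212048242011930425968746156383010906) (nat_lit 89416712))) (.nod (nat_lit 61512432747481172468477285510126144587841929370) (.nod (nat_lit 61517313417469919491207227961946630447366055976) .nil .nil (.dwn (nat_lit 15845379084102397192384063290776945332500203528) (nat_lit 23225368))) (.nod (nat_lit 20919979832193562409164037074392224862636056704724482018299996251320640617494865414216) (.dwn (nat_lit 145250791713650364650338276094239176694572311377550302286265556967308208337566213425248) (nat_lit 625692672)) .nil .nil) .dup) .nil l718 = true := by decide +kernel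
theorem cw3127 : wchk (nat_lit 5) [] [l718] (nat_lit 17) (nat_lit 3) (nat_lit 1) (nat_lit 0) (nat_lit 5820672) (nat_lit 0) w3127 = true := by decide +kernel
theorem cw3128 : wchk (nat_lit 5) [w16, w368] [] (nat_lit 1) (nat_lit 1) (nat_lit 1) (nat_lit 2) (nat_lit 90319872) (nat_lit 21712900) w3128 = true := by decide +kernel
theorem cw3129 : wchk (nat_lit 5) [] [l294] (nat_lit 209) (nat_lit 3) (nat_lit 3) (nat_lit 0) (nat_lit 5820672) (nat_lit 0) w3129 = true := by decide +kernel
theorem cw3130 : wchk (nat_lit 5) [w50, w368] [] (nat_lit 1) (nat_lit 1) (nat_lit 1) (nat_lit 2) (nat_lit 80564224) (nat_lit 21712900) w3130 = true := by decide +kernel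
theorem cl719 : lchk (nat_lit 5) [w2433] (nat_lit 8388625) (.nod (nat_lit 21190657) (.nod (nat_lit 2623828525391632559425598008273756839658475161692445538779396) .nil (.nod (nat_lit 210626403696617635533257567746273594861669835853375588591883780514) .nil .nil (.dwn (nat_lit 1895623070393532622699946010685000511968943122419302889760724353314) (nat_lit 150995089))) (.nod (nat_lit 210626403696617635544675647969807680982290527987607704895727075746) .nil (.dwn (nat_lit 1895623070393532622802707943241716030477294116598302694793063432482) (nat_lit 150995089)) .dup)) .nil (.dwn (nat_lit 40990399590009933182166222707402404370575903985342285797334253177172362056958212) (nat_lit 177))) .nil .nil .nil l719 = true := by decide +kernel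
theorem cw3131 : wchk (nat_lit 5) [] [l719] (nat_lit 1) (nat_lit 2) (nat_lit 3) (nat_lit 0) (nat_lit 22597888) (nat_lit 0) w3131 = true := by decide +kernel
theorem cw3132 : wchk (nat_lit 5) [] [l116] (nat_lit 17) (nat_lit 3) (nat_lit 1) (nat_lit 0) (nat_lit 156410624) (nat_lit 0) w3132 = true := by decide +kernel
theorem cw3133 : wchk (nat_lit 5) [w726, w368] [] (nat_lit 1) (nat_lit 1) (nat_lit 3) (nat_lit 2) (nat_lit 86721536) (nat_lit 21727236) w3133 = true := by decide +kernel
theorem cw3134 : wchk (nat_lit 5) [] [l181] (nat_lit 33) (nat_lit 0) (nat_lit 3) (nat_lit 1) (nat_lit 5806336) (nat_lit 0) w3134 = true := by decide +kernel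
theorem cw3135 : wchk (nat_lit 5) [] [l181] (nat_lit 33) (nat_lit 0) (nat_lit 4) (nat_lit 1) (nat_lit 4888832) (nat_lit 0) w3135 = true := by decide +kernel
theorem cl720 : lchk (nat_lit 5) [w2772, w187, w12, w53, w377, w4, w2047, w3134, w842, w3135, w696] (nat_lit 23153664) (.nod (nat_lit 618971827423609361019175002) .nil (.nod (nat_lit 279067338735007170305165415490651047865747197241877513472646840730) .nil .nil (.dwn (nat_lit 1133174242732005492732470881801402450741946041675250044527569442840) (nat_lit 626094096))) (.nod (nat_lit 292205865052124207187587306694193581387876903753336553746710135194) .nil (.dwn (nat_lit 7874780954152347919491055212112100901279671342111991282498669021256) (nat_lit 627133440)) .dup)) (.nod (nat_lit 618971827423609361019175002) .nil (.nod (nat_lit 14786815085790064982480574913958487386123927578) (.nod (nat_lit 7873160809086037675639137334860620041068821127249076737501336606720) .nil (.opn (nat_lit 61793054143387317267896170783561687224908935962791316414216100026368)) .dup) (.dwn (nat_lit 145234182496370164015265818634459792752487578799081453500279481913192173162019386726400) (nat_lit 627133440)) .dup) .nil) .nil .nil l720 =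 true := by decide +kernel
theorem cw3136 : wchk (nat_lit 5) [] [l720] (nat_lit 1) (nat_lit 3) (nat_lit 2) (nat_lit 0) (nat_lit 5820672) (nat_lit 0) w3136 = true := by decide +kernel
theorem cw3137 : wchk (nat_lit 5) [] [l1] (nat_lit 1) (nat_lit 1) (nat_lit 1) (nat_lit 0) (nat_lit 5661184) (nat_lit 0) w3137 = true := by decide +kernel
theorem cl721 : lchk (nat_lit 5) [w1554, w432, w1, w11, w141, w500, w3121, w3137, w1960, w2922, w256, w2648, w1489, w746] (nat_lit 22630400) (.nod (nat_lit 10532923779122297230982760107021696129752911881) (.nod (nat_lit 284286723719574253813571939512848419672286699708399588349336093010) .nil (.nod (nat_lit 1129034820546808216876120898137847001516952525599861739863969828904) .nil .nil (.opn (nat_lit 61786484980662386512299947065189450022542235363351315619217790902272))) (.nod (nat_lit 1129034820546808216891532120477901247109238591443638095457924878376) .nil (.opn (nat_lit 61786484980662386515649399127503307516301514493417384032472954740736)) .dup)) (.nod (nat_lit 1129034971197249866156459350656751048512303862379462611202350252370) .nil (.dwn (nat_lit 1129034820546808216891927267251405582323026432947119548772041181240) (nat_lit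 626610176)) (.dwn (nat_lit 1129034820546808216891927267251405582323026432947119548772041181240) (nat_lit 626610176))) .nil) .nil (.nod (nat_lit 11417993111248154361216101450791639255646994450) (.nod (nat_lit 1121566124034789611790324857272345194082297077249432156506918903896) .nil .nil .dup) (.opn (nat_lit 20827025648300700561583739536595886274105859351226989855996419202971868790037274058840)) .dup) .nil l721 = true := by decide +kernel
theorem cw3138 : wchk (nat_lit 5) [] [l721] (nat_lit 1) (nat_lit 3) (nat_lit 3) (nat_lit 0) (nat_lit 22597888) (nat_lit 0) w3138 = true := by decide +kernel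
theorem cw3139 : wchk (nat_lit 5) [] [l497] (nat_lit 17) (nat_lit 3) (nat_lit 1) (nat_lit 0) (nat_lit 5806336) (nat_lit 0) w3139 = true := by decide +kernel
theorem cw3140 : wchk (nat_lit 5) [w1125, w177] [] (nat_lit 1) (nat_lit 0) (nat_lit 2) (nat_lit 2) (nat_lit 89416704) (nat_lit 22816772) w3140 = true := by decide +kernel
theorem cl722 : lchk (nat_lit 5) [w831, w1033] (nat_lit 23225344) .nil (.nod (nat_lit 928455656653333712349429786) .nil .nil (.dwn (nat_lit 11146866465084682835328681060174366104528946074055291619222373793882) (nat_lit 887899140))) (.nod (nat_lit 928458017836575147172036762) (.nod (nat_lit 618971827423609361019175002) .nil (.nod (nat_lit 426853685557062478978941943165222134400499580954) (.nod (nat_lit 61793954028692102302450523065213520061704473150376786603495982942208) .nil (.opn (nat_lit 493153100703102339040506790654822057532425391834714704017214090299392)) .dup) (.dwn (nat_lit 1139897255269856510029727031284118383078681110909131454633103784361882251479345965352960) (nat_lit 4922172416)) .dup) .nil) .nil .nil) .nil l722 = true := by decide +kernel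
theorem cw3141 : wchk (nat_lit 5) [] [l722] (nat_lit 1) (nat_lit 3) (nat_lit 1) (nat_lit 0) (nat_lit 5820672) (nat_lit 0) w3141 = true := by decide +kernel
theorem cl723 : lchk (nat_lit 5) [w281, w67, w26, w27, w2766] (nat_lit 593636352) (.nod (nat_lit 7729185766884302127515) (.nod (nat_lit 7710739022810592575898) .nil (.nod (nat_lit 618970646831988643607871514) .nil .nil (.dwn (nat_lit 61579151456656728434081867058873539244394786783617323227372853395482) (nat_lit 4905062404))) .nil) .nil (.dwn (nat_lit 20933255163640442236337588309310781022554882970606284588790737293193174273707806294362) (nat_lit 123946000))) .nil .nil .nil l723 = true := by decide +kernel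
theorem cw3142 : wchk (nat_lit 5) [] [l723] (nat_lit 17) (nat_lit 3) (nat_lit 1) (nat_lit 0) (nat_lit 156815616) (nat_lit 0) w3142 = true := by decide +kernel
theorem cl724 : lchk (nat_lit 5) [w716, w1616, w175, w3, w39, w1172, w851, w3141, w2772, w1554, w1325, w765, w766, w3142, w2359, w152, w871, w2353, w722] (nat_lit 23282688) (.nod (nat_lit 858979739788753649215637513) (.nod (nat_lit 1121565722300278546981955747646329892078239289265113959219410764186) .nil (.nod (nat_lit 292205764618496440984888718930263164627473434048582978844118124576) .nil .nil (.dwn (nat_lit 61794673936935930326744108904012020587164712574987229435218497013760) (nat_lit 4922229760))) (.nod (nat_lit 292205764618496441000646299719182088960426476516781404302712932384) .nil (.opn (nat_lit 61793954329992985601011199745664965987877507370417272810032572188720)) .dup)) .nil (.nod (nat_lit 5391908657518179160785682110279507480073512773038859727356694337225043978339009691994) (.dwn (nat_lit 145234190833400589095292622875195020287928182207775031958821259227216695030399311972448) (nat_lit 627262464)) .nil .nil)) .nil (.nod (nat_lit 15845411751209621602253471661703842658798010394) (.nod (nat_lit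 708833394651586679762121843622412916076162049042749089680356546898048) .nil (.dwn (nat_lit 7874780602634650737836971441833919147300788064902923078205125855232) (nat_lit 627262464)) .dup) (.dwn (nat_lit 13075668224815590508000763743545495760529631394475395316730822098548803536408697737218192) (nat_lit 90391552)) .dup) .nil l724 = true := by decide +kernel
theorem cw3143 : wchk (nat_lit 5) [] [l724] (nat_lit 1) (nat_lit 2) (nat_lit 2) (nat_lit 0) (nat_lit 22597888) (nat_lit 0) w3143 = true := by decide +kernel
theorem cw3144 : wchk (nat_lit 5) [w368] [] (nat_lit 0) (nat_lit 0) (nat_lit 3) (nat_lit 2) (nat_lit 16777265) (nat_lit 21727232) w3144 = true := by decide +kernel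
theorem cw3145 : wchk (nat_lit 5) [] [l538] (nat_lit 1) (nat_lit 3) (nat_lit 3) (nat_lit 0) (nat_lit 5820672) (nat_lit 0) w3145 = true := by decide +kernel
theorem cw3146 : wchk (nat_lit 5) [] [l538] (nat_lit 1) (nat_lit 3) (nat_lit 4) (nat_lit 0) (nat_lit 4903168) (nat_lit 0) w3146 = true := by decide +kernel
theorem cw3147 : wchk (nat_lit 5) [] [] (nat_lit 0) (nat_lit 2) (nat_lit 3) (nat_lit 2) (nat_lit 337) (nat_lit 209) w3147 = true := by decide +kernel
theorem cw3148 : wchk (nat_lit 5) [] [l703] (nat_lit 1) (nat_lit 3) (nat_lit 3) (nat_lit 0) (nat_lit 22339840) (nat_lit 0) w3148 = true := by decide +kernel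
theorem cl725 : lchk (nat_lit 5) [w2359, w1616, w368, w3, w750, w3147, w742, w2357, w281, w3144, w2772, w256, w258, w3145, w3146, w3142, w3148, w390] (nat_lit 7036158976) (.nod (nat_lit 858979739788753649215637513) (.nod (nat_lit 1121565722300278546981955747646329892078239289265113959219410764186) .nil (.nod (nat_lit 292205764618496440984888718930263164649735198553876567782951700512) .nil .nil (.dwn (nat_lit 1134794186931060204210555511649428499787794269250602846834805606448) (nat_lit 23282688))) (.nod (nat_lit 292205764618496441000734114347919174024042119925064474683373148224) .nil (.dwn (nat_lit 14614767269422310686092677878089510369985094851965177683602257119232) (nat_lit 1164133376)) (.dwn (nat_lit 14614767269422310686092677878089510369985094851965177683602257119232) (nat_lit 1164133376)))) .nil (.nod (nat_lit 5391910510191606957844808987848895385266930646731245148928381626184075216373636137306) (.dwn (nat_lit 145034993239117277101769140250720673717855131654368946690874009215540082838571870226544) (nat_lit 7338148864)) .nil .nil)) .nil (.nod (nat_lit 15845417195727492337268887075697561567089393690) .nil (.dwn (nat_lit 20933268132354436814616771651294148061093759111567226963988604923533266951393948227720)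 (nat_lit 56461837312)) (.dwn (nat_lit 20933268132354436814616771651294148061093759111567226963988604923533266951393948227720) (nat_lit 56461837312))) .nil l725 = true := by decide +kernel
theorem cw3149 : wchk (nat_lit 5) [] [l725] (nat_lit 1) (nat_lit 2) (nat_lit 2) (nat_lit 0) (nat_lit 22597888) (nat_lit 0) w3149 = true := by decide +kernel
theorem cw3150 : wchk (nat_lit 5) [w368] [] (nat_lit 0) (nat_lit 0) (nat_lit 3) (nat_lit 2) (nat_lit 16777265) (nat_lit 21727232) w3150 = true := by decide +kernel
theorem cw3151 : wchk (nat_lit 5) [] [l534] (nat_lit 1) (nat_lit 3) (nat_lit 3) (nat_lit 0) (nat_lit 5820672) (nat_lit 0) w3151 = true := by decide +kernel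
theorem cw3152 : wchk (nat_lit 5) [] [l534] (nat_lit 1) (nat_lit 3) (nat_lit 4) (nat_lit 0) (nat_lit 4903168) (nat_lit 0) w3152 = true := by decide +kernel
theorem cw3153 : wchk (nat_lit 5) [] [l29] (nat_lit 17) (nat_lit 1) (nat_lit 3) (nat_lit 0) (nat_lit 20141056) (nat_lit 0) w3153 = true := by decide +kernel
theorem cw3154 : wchk (nat_lit 5) [] [l29] (nat_lit 17) (nat_lit 1) (nat_lit 3) (nat_lit 0) (nat_lit 21189376) (nat_lit 0) w3154 = true := by decide +kernel
theorem cl726 : lchk (nat_lit 5) [w2353, w1616, w370, w3, w750, w3147, w742, w2351, w3150, w2772, w746, w1272, w3151, w3152, w3142, w3148, w281, w761, w3153, w3154] (nat_lit 7036158976) (.nod (nat_lit 858979739788753649215637513) (.nod (nat_lit 1121565722300278546981955747646329892078239289265113959219410764186) .nil (.nod (nat_lit 292205764618496440984888718930263164627490359010057583652565846048) .nil .nil (.dwn (nat_lit 1134794186931060204210555511649428499787794269250602846834805606448) (nat_lit 23282688))) (.nod (nat_lit 292205764618496441000734114347919174024078613782948280942881835040) .nil (.dwn (nat_lit 14614767269422310686092677878089510369985094851965177683602257119232) (nat_lit 1164133376))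 (.dwn (nat_lit 14614767269422310686092677878089510369985094851965177683602257119232) (nat_lit 1164133376)))) .nil (.nod (nat_lit 5391909583854893059315245549064201432670221709885052438142537981704559597356322914650) (.dwn (nat_lit 145264071676780813970159734511611681120991669030873101540710563069500516913001444837480) (nat_lit 7338148864)) .nil .nil)) .nil (.nod (nat_lit 15845414473468556969761179368700702112943702042) (.nod (nat_lit 1134794689099199035206485181717037714382575609565035933215497947272) .nil (.opn (nat_lit 5669463580704269007924825483555445973450512845796838089133255284918272)) .dup) .nil (.dwn (nat_lit 1134794689099199035160862043875086654659541353171690418764208572568) (nat_lit 56461837312))) .nil l726 = true := by decide +kernel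
theorem cw3155 : wchk (nat_lit 5) [] [l726] (nat_lit 1) (nat_lit 2) (nat_lit 2) (nat_lit 0) (nat_lit 22597888) (nat_lit 0) w3155 = true := by decide +kernel
theorem cw3156 : wchk (nat_lit 5) [] [l571] (nat_lit 3) (nat_lit 3) (nat_lit 1) (nat_lit 0) (nat_lit 22565632) (nat_lit 0) w3156 = true := by decide +kernel
theorem cw3157 : wchk (nat_lit 5) [] [l276] (nat_lit 0) (nat_lit 0) (nat_lit 3) (nat_lit 1) (nat_lit 5704192) (nat_lit 0) w3157 = true := by decide +kernel
theorem cw3158 : wchk (nat_lit 5) [] [l276] (nat_lit 0) (nat_lit 0) (nat_lit 3) (nat_lit 1) (nat_lit 5704192) (nat_lit 0) w3158 = true := by decide +kernel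
theorem cl727 : lchk (nat_lit 5) [w2309, w17, w3157, w3158, w946, w1, w69, w2118, w2119, w281, w3, w2303, w2304, w2107, w2305] (nat_lit 660759552) .nil (.nod (nat_lit 842054759867404767058364424) .nil .nil (.dwn (nat_lit 292205714401682557891442608243947778965919021854573769956773593178) (nat_lit 23282700))) (.nod (nat_lit 61517313757752286409797204155495145871067054234) (.nod (nat_lit 61517316139728854858714935816517442491188160560) .nil (.nod (nat_lit 15845379084102397192384063290776945332500203528) (.nod (nat_lit 1134074027603162761161360435424819479884343960391766967191874095104) .nil (.dwn (nat_lit 7874060694390822710193489616512452877864358314834546926781219522560) (nat_lit 627205120)) .dup) (.nod (nat_lit 20919973347836565118323018925079390550265726826109907079786097710268070480427509663744) .nil (.dwn (nat_lit 145250782450283225657168580961784600575745139934779562169472820182365581572874296412160) (nat_lit 627205120)) .dup) (.dwn (nat_lit 20919973347836565119457092952682553311365608985310389810239707162288363564841761556480) (nat_lit 90334208))) .nil) (.nod (nat_lit 20919979832193562409164037074392224862636007921844360232561874142084493151793747494992)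 (.dwn (nat_lit 145250792639987078548867839533023870647169020317118753932418927360371527651626528852080) (nat_lit 895640576)) .nil .nil) .dup) .nil l727 = true := by decide +kernel
theorem cw3159 : wchk (nat_lit 5) [] [l727] (nat_lit 17) (nat_lit 3) (nat_lit 1) (nat_lit 0) (nat_lit 5820672) (nat_lit 0) w3159 = true := by decide +kernel
theorem cw3160 : wchk (nat_lit 5) [] [l280] (nat_lit 0) (nat_lit 0) (nat_lit 3) (nat_lit 1) (nat_lit 5820672) (nat_lit 0) w3160 = true := by decide +kernel
theorem cw3161 : wchk (nat_lit 5) [] [l280] (nat_lit 0) (nat_lit 0) (nat_lit 3) (nat_lit 1) (nat_lit 5820672) (nat_lit 0) w3161 = true := by decide +kernel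
theorem cl728 : lchk (nat_lit 5) [w2309, w17, w3160, w3161, w1226, w1, w69, w2118, w2119, w281, w3, w2303, w2304, w2107, w2305] (nat_lit 660759552) .nil (.nod (nat_lit 842054759867404767058364424) .nil .nil (.dwn (nat_lit 292295702932161061346872958121118884071660265222225606355550470234) (nat_lit 23282700))) (.nod (nat_lit 61517313757752286409797204155495145871067054234) (.nod (nat_lit 61517316139728854858714935816517442491188160560) .nil (.nod (nat_lit 15845379084102397192384063290776945332500203528) (.nod (nat_lit 1134074027603162761161360435424819479884343960391766967191874095104) .nil (.dwn (nat_lit 7874060694390822710193489616512452877864358314834546926781219522560) (nat_lit 627205120)) .dup) (.nod (nat_lit 20919973347836565119457092952682553311304130709086053060812305397949044173998852982784) .nil (.dwn (nat_lit 145250782450283225665042641656175423285084922180177890089357392767502627631807559157760) (nat_lit 627205120)) (.opn (nat_lit 145250782450283225665042641656175423285084922180177890089357392767502627631807559157760))) (.dwn (nat_lit 20919973347836565119457092952682553311365608985310389810239707162288363564841761556480) (nat_lit 90334208)))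 .nil) (.nod (nat_lit 20919979832193562409164037074392224862636007921844360232561874142084493151793747494992) (.dwn (nat_lit 145250792639987078548867839533023870647169020317118753932418927360371527651626528852080) (nat_lit 895640576)) .nil .nil) .dup) .nil l728 = true := by decide +kernel
theorem cw3162 : wchk (nat_lit 5) [] [l728] (nat_lit 17) (nat_lit 3) (nat_lit 1) (nat_lit 0) (nat_lit 5820672) (nat_lit 0) w3162 = true := by decide +kernel
theorem cw3163 : wchk (nat_lit 5) [] [l280] (nat_lit 0) (nat_lit 0) (nat_lit 4) (nat_lit 1) (nat_lit 3870976) (nat_lit 0) w3163 = true := by decide +kernel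
theorem cw3164 : wchk (nat_lit 5) [] [l280] (nat_lit 0) (nat_lit 0) (nat_lit 4) (nat_lit 1) (nat_lit 3870976) (nat_lit 0) w3164 = true := by decide +kernel
theorem cl729 : lchk (nat_lit 5) [w2309, w17, w3163, w3164, w1227, w1, w69, w2118, w2119, w281, w3, w2303, w2304, w2107, w2305] (nat_lit 660759552) .nil (.nod (nat_lit 842054759867404767058364424) .nil .nil (.dwn (nat_lit 292295702932161061346872958121118884071660265222225606355550470234) (nat_lit 23282700))) (.nod (nat_lit 61205103324972857685815704099678068809983328410) (.nod (nat_lit 61517316139728854858714935816517442491188160560) .nil (.nod (nat_lit 15845379084102397192384063290776945332500203528) (.nod (nat_lit 1134074027603162761161360435424819479884343960391766967191874095104) .nil (.dwn (nat_lit 7874060694390822710193489616512452877864358314834546926781219522560) (nat_lit 627205120)) .dup) (.nod (nat_lit 20919973347836565119457092952682553311365608985310389810236374418256209072907228596224) .nil (.dwn (nat_lit 145250782450283225665042641656175423285511775865734952568312575955360297201231531919360) (nat_lit 627205120)) (.opn (nat_lit 145250782450283225665042641656175423285511775865734952568312575955360297201231531919360)))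 (.dwn (nat_lit 20919973347836565119457092952682553311365608985310389810239707162288363564841761556480) (nat_lit 90334208))) .nil) (.nod (nat_lit 20919979832193562409164037074392224862636007921844360232561874142084493151793747494992) (.dwn (nat_lit 145250792639987078548867839533023870647169020317118753932418927360371527651626528852080) (nat_lit 895640576)) .nil .nil) .dup) .nil l729 = true := by decide +kernel
theorem cw3165 : wchk (nat_lit 5) [] [l729] (nat_lit 17) (nat_lit 3) (nat_lit 1) (nat_lit 0) (nat_lit 5820672) (nat_lit 0) w3165 = true := by decide +kernel
theorem cw3166 : wchk (nat_lit 5) [] [l159] (nat_lit 0) (nat_lit 0) (nat_lit 3) (nat_lit 1) (nat_lit 5705984) (nat_lit 0) w3166 = true := by decide +kernel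
theorem cw3167 : wchk (nat_lit 5) [] [l159] (nat_lit 0) (nat_lit 0) (nat_lit 3) (nat_lit 1) (nat_lit 5705984) (nat_lit 0) w3167 = true := by decide +kernel
theorem cl730 : lchk (nat_lit 5) [w2309, w17, w3166, w3167, w50, w1, w69, w2118, w2119, w281, w3, w2303, w2304, w2107, w2305] (nat_lit 660759552) .nil (.nod (nat_lit 842054759867404767058364424) .nil .nil (.dwn (nat_lit 292295702932161061346872958121118884071660265222225606355550470234) (nat_lit 23282700))) (.nod (nat_lit 51980260693943174606924819637957870020775116954) (.nod (nat_lit 61517316139728854858714935816517442491188160560) .nil (.nod (nat_lit 15845379084102397192384063290776945332500203528) (.nod (nat_lit 1134074027603162761161360435424819479884343960391766967191874095104) .nil (.dwn (nat_lit 7874060694390822710193489616512452877864358314834546926781219522560) (nat_lit 627205120)) .dup) (.nod (nat_lit 20919973347836565119457092952682553311365608985310389810239707162288363564841761556480) (.opn (nat_lit 145250782450283225665042641656175423285511775865734952568335715740021017777564450867200)) .dup .dup) (.dwn (nat_lit 20919973347836565119457092952682553311365608985310389810239707162288363564841761556480)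 (nat_lit 90334208))) .nil) (.nod (nat_lit 20919979832193562409164037074392224862636007921844360232561874142084493151793747494992) (.dwn (nat_lit 145250792639987078548867839533023870647169020317118753932418927360371527651626528852080) (nat_lit 895640576)) .nil .nil) .dup) .nil l730 = true := by decide +kernel
theorem cw3168 : wchk (nat_lit 5) [] [l730] (nat_lit 17) (nat_lit 3) (nat_lit 1) (nat_lit 0) (nat_lit 5820672) (nat_lit 0) w3168 = true := by decide +kernel
theorem cw3169 : wchk (nat_lit 5) [] [l159] (nat_lit 0) (nat_lit 1) (nat_lit 1) (nat_lit 0) (nat_lit 5820672) (nat_lit 0) w3169 = true := by decide +kernel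
theorem cw3170 : wchk (nat_lit 5) [w16, w3132] [] (nat_lit 3) (nat_lit 0) (nat_lit 3) (nat_lit 2) (nat_lit 89402368) (nat_lit 23282692) w3170 = true := by decide +kernel
theorem cw3171 : wchk (nat_lit 5) [w16, w3132] [] (nat_lit 3) (nat_lit 0) (nat_lit 4) (nat_lit 2) (nat_lit 81080320) (nat_lit 19612676) w3171 = true := by decide +kernel
theorem cw3172 : wchk (nat_lit 5) [] [l520] (nat_lit 17) (nat_lit 3) (nat_lit 1) (nat_lit 0) (nat_lit 5806336) (nat_lit 0) w3172 = true := by decide +kernel
theorem cw3173 : wchk (nat_lit 5) [w50] [] (nat_lit 17) (nat_lit 0) (nat_lit 3) (nat_lit 2) (nat_lit 337) (nat_lit 76385280) w3173 = true := by decide +kernel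
theorem cw3174 : wchk (nat_lit 5) [] [l294] (nat_lit 0) (nat_lit 3) (nat_lit 3) (nat_lit 0) (nat_lit 5820672) (nat_lit 0) w3174 = true := by decide +kernel
theorem cw3175 : wchk (nat_lit 5) [] [l294] (nat_lit 0) (nat_lit 3) (nat_lit 3) (nat_lit 0) (nat_lit 5820672) (nat_lit 0) w3175 = true := by decide +kernel
theorem cw3176 : wchk (nat_lit 5) [] [l294] (nat_lit 0) (nat_lit 3) (nat_lit 3) (nat_lit 0) (nat_lit 5820672) (nat_lit 0) w3176 = true := by decide +kernel
theorem cw3177 : wchk (nat_lit 5) [] [l294] (nat_lit 0) (nat_lit 3) (nat_lit 4) (nat_lit 0) (nat_lit 4903168) (nat_lit 0) w3177 = true := by decide +kernel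
theorem cw3178 : wchk (nat_lit 5) [w177] [] (nat_lit 3) (nat_lit 1) (nat_lit 2) (nat_lit 2) (nat_lit 165) (nat_lit 22816768) w3178 = true := by decide +kernel
theorem cw3179 : wchk (nat_lit 5) [] [l159] (nat_lit 0) (nat_lit 0) (nat_lit 1) (nat_lit 1) (nat_lit 5705984) (nat_lit 0) w3179 = true := by decide +kernel
theorem cw3180 : wchk (nat_lit 5) [] [l278] (nat_lit 3) (nat_lit 1) (nat_lit 2) (nat_lit 0) (nat_lit 20619520) (nat_lit 0) w3180 = true := by decide +kernel
theorem cw3181 : wchk (nat_lit 5) [] [l481] (nat_lit 19) (nat_lit 2) (nat_lit 3) (nat_lit 0) (nat_lit 5528576) (nat_lit 0) w3181 = true := by decide +kernel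
theorem cw3182 : wchk (nat_lit 5) [] [l134] (nat_lit 3) (nat_lit 1) (nat_lit 2) (nat_lit 0) (nat_lit 22209024) (nat_lit 0) w3182 = true := by decide +kernel
theorem cl731 : lchk (nat_lit 5) [w201, w281, w112, w1000, w999, w86, w3, w2088, w1825, w1797, w2085] (nat_lit 15017984) (.nod (nat_lit 60844101845294837120260513521312419948648785937) (.nod (nat_lit 315937898173254428122718730522716652758588838576170687879670923602) .nil (.nod (nat_lit 221654756723349731927494415228116761725496578606953979666995267616) .nil .nil (.dwn (nat_lit 210624796758573376542982025784181253879741649831550984154733608970) (nat_lit 4913965056))) .nil) (.nod (nat_lit 25460302516941253849802885471046155079719640738925961533753745954438589601560316084224) .nil (.opn (nat_lit 145038309524553033837606251049708210130979015989549326020289382222950411716014324580352)) .dup) (.dwn (nat_lit 26856361420039880291026475009351760811058656992481772369545087792355884495996863906130) (nat_lit 89416744))) .nil .nil .nil l731 = true := by decide +kernel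
theorem cw3183 : wchk (nat_lit 5) [] [l731] (nat_lit 19) (nat_lit 2) (nat_lit 3) (nat_lit 0) (nat_lit 5820672) (nat_lit 0) w3183 = true := by decide +kernel
theorem cw3184 : wchk (nat_lit 5) [] [l143] (nat_lit 0) (nat_lit 0) (nat_lit 2) (nat_lit 1) (nat_lit 22434816) (nat_lit 0) w3184 = true := by decide +kernel
theorem cw3185 : wchk (nat_lit 5) [] [l116] (nat_lit 3) (nat_lit 0) (nat_lit 3) (nat_lit 1) (nat_lit 5444352) (nat_lit 0) w3185 = true := by decide +kernel
theorem cl732 : lchk (nat_lit 5) [w1640, w17, w3178, w764, w3179, w50, w1, w177, w69, w659, w3184, w2268, w209, w2930, w3185, w42, w489, w1746, w39, w86, w3180, w2158, w3181, w3182, w3183] (nat_lit 22250496) .nil (.nod (nat_lit 286446398234244453650454105418681666536529145678589075361804748816) .nil .nil (.dwn (nat_lit 210625198493084441290550911274704338989941023886947089930411573322) (nat_lit 23282704))) (.nod (nat_lit 315937891896152692788018087865099966572148764110347491264323125386) (.nod (nat_lit 60814845388234075594846039135398687300235241536) .nil (.nod (nat_lit 10220734784131984526961488405734518734581041232) (.nod (nat_lit 61788915223370258819685986186330068326526054246013883465162629468256)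 .nil (.dwn (nat_lit 493140862262957262570567599624357130952006086083552309443007682643968) (nat_lit 39280935936)) .dup) (.dwn (nat_lit 20933266279681009079346560097528646741710770576427485677630640040852564292566510905464) (nat_lit 4921197568)) (.dwn (nat_lit 20933266279681009079346560097528646741710770576427485677630640040852564292566510905464) (nat_lit 4921197568))) .nil) (.nod (nat_lit 20558109173919243530768099625318738269084296351365297803381359698843435984209053255824) (.dwn (nat_lit 145264080940147952955448169817020340370524330436383929593784777123429234311710655285440) (nat_lit 626230272)) .nil .nil) (.nod (nat_lit 20558109173919243530768099625318738269084296351365297803381359698843435984209053255824) (.dwn (nat_lit 145264080940147952955448169817020340370524330436383929593784777123429234311710655285440) (nat_lit 626230272)) .nil .nil)) .nil l732 = true := by decide +kernel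
theorem cw3186 : wchk (nat_lit 5) [] [l732] (nat_lit 273) (nat_lit 0) (nat_lit 3) (nat_lit 1) (nat_lit 5820672) (nat_lit 0) w3186 = true := by decide +kernel
theorem cw3187 : wchk (nat_lit 5) [] [l732] (nat_lit 273) (nat_lit 0) (nat_lit 4) (nat_lit 1) (nat_lit 4903168) (nat_lit 0) w3187 = true := by decide +kernel
theorem cl733 : lchk (nat_lit 5) [w3129, w177, w368, w50, w1275, w1276, w3173, w772, w3174, w3175, w3176, w3177, w618, w3169, w1640, w3186, w34, w3187, w3143, w3133, w3136, w716, w3138, w2159, w3139, w3140, w3131, w3132, w3149, w1408, w3170, w3171, w3172, w2165, w1502, w3155, w2520, w1528, w3156, w3159, w3162, w3165, w3168] (nat_lit 23282688) (.nod (nat_lit 15528290363310789894607012805539290550652784648) (.nod (nat_lit 272588221034470540046287356487838161441743722296194245361026029592) .nil (.nod (nat_lit 292295803365788827533765179493749655394427531652330089885735487528) .nil .nil (.nod (nat_lit 61794674238236813625304785568129912900951961303197642917474811152440) (.dwn (nat_lit 20933260721660725627515058930549423241652084271311635490307851787099689838156484872280) (nat_lit 39281968128)) .nil .nil)) (.nod (nat_lit 272588716925507635557932853635010344129477685558842769222639503472)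 .nil (.dwn (nat_lit 61794674690188138573161606957920640371198325521446050657863674267784) (nat_lit 4922229832)) .dup)) (.nod (nat_lit 20933270911364578511340256757181056720215882606564603597994699737665592022430849337512) (.dwn (nat_lit 145264082792821380752513775868784180524508733506677152453704849350568339394544853747912) (nat_lit 627262536)) .nil .nil) (.nod (nat_lit 20933270911364578511340256757181056720215882606564603597994699737665592022430849337512) (.dwn (nat_lit 145264082792821380752513775868784180524508733506677152453704849350568339394544853747912) (nat_lit 627262536)) .nil .nil)) .nil (.nod (nat_lit 15845447140575781380093684764095803826176952536) (.nod (nat_lit 1134795341917779515411796315066084242137184916203916310782794094616) .nil (.nod (nat_lit 7862543618777176877608381150109563098123818738433434757531809777912) (.dwn (nat_lit 1139910564875761804102494519792817907871287898271301786106223367101895356186932871350544) (nat_lit 4922229760)) .nil .nil) (.nod (nat_lit 7862543618777176877608381150109563098123818738433434757531809777912) (.dwn (nat_lit 1139910564875761804102494519792817907871287898271301786106223367101895356186932871350544) (nat_lit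 4922229760)) .nil .nil)) (.nod (nat_lit 20933285732752000887811651984187546899564689059212777115587374641577173858607096326440) (.dwn (nat_lit 145264097614208803128987510797583111793699519338789747633004400934854936982713234000200) (nat_lit 627262632)) .nil .nil) .dup) .nil l733 = true := by decide +kernel
theorem cw3188 : wchk (nat_lit 5) [] [l733] (nat_lit 0) (nat_lit 3) (nat_lit 1) (nat_lit 0) (nat_lit 5820672) (nat_lit 0) w3188 = true := by decide +kernel
theorem cw3190 : wchk (nat_lit 5) [] [l733] (nat_lit 0) (nat_lit 3) (nat_lit 1) (nat_lit 0) (nat_lit 5820672) (nat_lit 0) w3190 = true := by decide +kernel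
theorem cw3191 : wchk (nat_lit 5) [] [l733] (nat_lit 0) (nat_lit 3) (nat_lit 1) (nat_lit 0) (nat_lit 5820672) (nat_lit 0) w3191 = true := by decide +kernel
theorem cw3192 : wchk (nat_lit 5) [w1109, w37] [] (nat_lit 3) (nat_lit 1) (nat_lit 2) (nat_lit 2) (nat_lit 23225344) (nat_lit 23225348) w3192 = true := by decide +kernel
theorem cw3193 : wchk (nat_lit 5) [] [l268] (nat_lit 1) (nat_lit 1) (nat_lit 2) (nat_lit 0) (nat_lit 5818880) (nat_lit 0) w3193 = true := by decide +kernel
theorem cw3194 : wchk (nat_lit 5) [] [l715] (nat_lit 0) (nat_lit 0) (nat_lit 2) (nat_lit 1) (nat_lit 5820672) (nat_lit 0) w3194 = true := by decide +kernel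
theorem cw3195 : wchk (nat_lit 5) [] [l222] (nat_lit 0) (nat_lit 0) (nat_lit 2) (nat_lit 0) (nat_lit 5820672) (nat_lit 0) w3195 = true := by decide +kernel
theorem cl734 : lchk (nat_lit 5) [w261, w15, w219, w746, w170, w432, w2785, w1554, w3193, w1348, w2631, w3194, w3195] (nat_lit 23282688) (.nod (nat_lit 15762448187895361437569866025374516734850191368) .nil (.nod (nat_lit 280057262787084591408345374825848589691070019208798905505175390232) .nil .nil (.dwn (nat_lit 7874780602634650737410078729972759239731967404877555797815598680064) (nat_lit 627262464))) (.nod (nat_lit 280057262787084591423785864171716971358740154799998054218377484320) .nil (.opn (nat_lit 7874780602634650737836971441833919147300788064902923078205125855232)) .dup)) (.nod (nat_lit 10445125143656457452176266675546548056424208424) .nil (.nod (nat_lit 290676110250803531538673567598749508455640341205242553663434739768) (.opn (nat_lit 20933260721660725634254955608806604687228778224234085604608295497674874221419717873744)) (.dwn (nat_lit 20933260721660725634254955608806604687228778224234085604608295497674874221419717873744) (nat_lit 627262464)) .dup) (.nod (nat_lit 290676110250803531538673567598749508455640341205242553663434739768)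 (.dwn (nat_lit 20933260721660725634254955608806604687228778224234085604608295497674874221419717873744) (nat_lit 627262464)) .nil .nil)) (.nod (nat_lit 10445125143656457452176266675546548056424208424) .nil (.nod (nat_lit 292296154883486009203650418819406328665639365917193387402799042616) (.dwn (nat_lit 20933260721660725634254955608806604687228783107966615653917123388774911028036573497440) (nat_lit 627262464)) .nil .nil) .dup) .nil l734 = true := by decide +kernel
theorem cw3196 : wchk (nat_lit 5) [] [l734] (nat_lit 3) (nat_lit 3) (nat_lit 1) (nat_lit 0) (nat_lit 5820672) (nat_lit 0) w3196 = true := by decide +kernel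
theorem cw3197 : wchk (nat_lit 5) [w1125, w37] [] (nat_lit 3) (nat_lit 1) (nat_lit 2) (nat_lit 2) (nat_lit 90334208) (nat_lit 23225348) w3197 = true := by decide +kernel
theorem cw3198 : wchk (nat_lit 5) [w2027, w368] [] (nat_lit 3) (nat_lit 0) (nat_lit 1) (nat_lit 2) (nat_lit 23282688) (nat_lit 21712900) w3198 = true := by decide +kernel
theorem cl735 : lchk (nat_lit 5) [w1110, w281, w808, w908, w576, w1105, w1951, w10, w604, w603] (nat_lit 23225344) (.nod (nat_lit 291395773687663879085804112498881870560786432293404658789522233353) .nil (.nod (nat_lit 291395767410562143699123348663092447353120016172602470251778168840) .nil .nil (.nod (nat_lit 291575794688333033703430159103750043225934360779369732751548401680) (.dwn (nat_lit 20919976126846706815027695624627269857707681594835185878842060131670469055752346855456) (nat_lit 90262552)) .nil .nil)) (.nod (nat_lit 291576045772402449170660712535326971532591005611457274261310982200) .nil (.nod (nat_lit 5043310551680598421586066886720690743610952041657480528349118828652795942452046682184) (.opn (nat_lit 1139897255269856510029727031284118383078681110909131454633103784361882251479345965352960)) .dup .dup) (.dwn (nat_lit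 5043310551680598421586066886720690743610952041657480528349118828652795942452046682184) (nat_lit 627205120)))) .nil .nil (.nod (nat_lit 291575794688333033703430159103750043225934360779369732751548401680) (.dwn (nat_lit 20919976126846706815027695624627269857707681594835185878842060131670469055752346855456) (nat_lit 90262552)) .nil .nil) l735 = true := by decide +kernel
theorem cw3199 : wchk (nat_lit 5) [] [l735] (nat_lit 4) (nat_lit 2) (nat_lit 2) (nat_lit 0) (nat_lit 5820672) (nat_lit 0) w3199 = true := by decide +kernel
theorem cw3200 : wchk (nat_lit 5) [w3199, w37] [] (nat_lit 3) (nat_lit 1) (nat_lit 2) (nat_lit 2) (nat_lit 90391552) (nat_lit 23225348) w3200 = true := by decide +kernel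
theorem cw3201 : wchk (nat_lit 5) [w284, w368] [] (nat_lit 3) (nat_lit 0) (nat_lit 1) (nat_lit 2) (nat_lit 90384384) (nat_lit 21712900) w3201 = true := by decide +kernel
theorem cw3202 : wchk (nat_lit 5) [] [l381] (nat_lit 0) (nat_lit 3) (nat_lit 1) (nat_lit 0) (nat_lit 5820672) (nat_lit 0) w3202 = true := by decide +kernel
theorem cl736 : lchk (nat_lit 5) [w602, w808, w1, w25, w685, w604, w603, w1947, w889, w1114] (nat_lit 21777408) (.nod (nat_lit 928455675100077786058981403) .nil (.nod (nat_lit 823014196655218431265261577) (.nod (nat_lit 292295709209262796733553721956908307279326680143989430102173679642) .nil (.nod (nat_lit 61793954179342543948381004437053597903302719228895341389595167641632) .nil .nil (.dwn (nat_lit 291575744471519150609984048417434657564603031812952224449595885576) (nat_lit 39280462848))) (.nod (nat_lit 61793954179342543948381004437053597903302719228895341389595167641632) .nil (.nod (nat_lit 144915468012922949832198633861659970164074117642872947926122081395972635762406089644080) (.dwn (nat_lit 1139880661800300445669658052269417209131481674817239783181312860083434944088102073452608) (nat_lit 314158369792)) .nil .nil) .dup)) .nil .nil)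 .nil) .nil .nil .nil l736 = true := by decide +kernel
theorem cw3203 : wchk (nat_lit 5) [] [l736] (nat_lit 2201) (nat_lit 1) (nat_lit 2) (nat_lit 0) (nat_lit 9820492032) (nat_lit 0) w3203 = true := by decide +kernel
theorem cl737 : lchk (nat_lit 5) [] (nat_lit 8388881) (.nod (nat_lit 928455675100077786008650245) .nil (.nod (nat_lit 33554507) (.nod (nat_lit 210624796758573376542982025784181253698448338281183334285795393796) .nil (.nod (nat_lit 210624796758573376542982025784181253699067313650381805799316914210) .nil .nil (.opn (nat_lit 1895623070393532622699946010685000511968943122419302889760724353314))) .nil) .nil .nil) .nil) .nil .nil .nil l737 = true := by decide +kernel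
theorem cw3204 : wchk (nat_lit 5) [] [l737] (nat_lit 25) (nat_lit 3) (nat_lit 3) (nat_lit 0) (nat_lit 156815616) (nat_lit 0) w3204 = true := by decide +kernel
theorem cl738 : lchk (nat_lit 5) [] (nat_lit 8388881) (.nod (nat_lit 928455675100077786008650245) .nil (.nod (nat_lit 33554507) (.nod (nat_lit 210624796758573376542982025784181253698448338281183334285795393796) .nil (.nod (nat_lit 210624796758573376542982025784181253699067313650381805799316914210) .nil .nil (.opn (nat_lit 1895623070393532622699946010685000511968943122419302889760724353314))) (.opn (nat_lit 2623828525391643977363583512986925801598288006373783489216906))) .nil .nil) .nil) .nil .nil .nil l738 = true := by decide +kernel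
theorem cw3205 : wchk (nat_lit 5) [] [l738] (nat_lit 25) (nat_lit 3) (nat_lit 3) (nat_lit 0) (nat_lit 156815616) (nat_lit 0) w3205 = true := by decide +kernel
theorem cl739 : lchk (nat_lit 5) [w38, w461, w32, w3, w39, w3204, w281, w3205, w3203, w852, w44, w46, w47, w2007] (nat_lit 22709248) (.nod (nat_lit 928455675100077786058981403) .nil (.nod (nat_lit 822485291609137031001298953) (.nod (nat_lit 7873250898050143944854655003433481224233887032694995811336307343770) .nil (.nod (nat_lit 292205764618496440984888718930263164649752123515351172591398504480) .nil .nil (.dwn (nat_lit 493146621528907886764981922306152422958167353310250628366528975013888) (nat_lit 39281394688))) (.dwn (nat_lit 292205764618496444334784719064523585441182728849943489185825052720) (nat_lit 4922229788))) .nil (.nod (nat_lit 145264069824107386166360530978724154763249174291020370213621793383360142240945029513562) (.dwn (nat_lit 1139777744865049605136628730069055290118868554392147071115077106546931078726941769125992) (nat_lit 4921656320)) .nil .nil)) .nil) .nil .nil .nil l739 = true := by decide +kernel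
theorem cw3206 : wchk (nat_lit 5) [] [l739] (nat_lit 25) (nat_lit 2) (nat_lit 2) (nat_lit 0) (nat_lit 156815616) (nat_lit 0) w3206 = true := by decide +kernel
theorem cw3207 : wchk (nat_lit 5) [] [l542] (nat_lit 4) (nat_lit 2) (nat_lit 1) (nat_lit 0) (nat_lit 156813824) (nat_lit 0) w3207 = true := by decide +kernel
theorem cl740 : lchk (nat_lit 5) [w815, w38, w109, w3, w39, w1027, w281, w1994, w227, w852, w1529, w172, w1530, w976] (nat_lit 22307840) .nil (.nod (nat_lit 928455656653333712349429786) .nil .nil (.nod (nat_lit 285096570277066901818998857261115089951029466991235138741124202586) (.opn (nat_lit 145038303040196036547899306978215352462802053412570164497215922756611806698587629864960)) .dup .dup)) (.nod (nat_lit 928458017836575147172036762) (.nod (nat_lit 1120215894343100995150500499488763315492120638750336413237757608346) .nil (.nod (nat_lit 292205764618496440984888718930263164649752123515351172591398504480) .nil .nil (.dwn (nat_lit 61782435496790853856805581320716750292783867511443446149766892275712) (nat_lit 4921254912))) (.dwn (nat_lit 292205764618496441406473867045467460726127562468487139835536627760) (nat_lit 627133468))) .nil (.nod (nat_lit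 5043310551680598414864887822803038017129141394231333827016670458048170754601211920730) (.dwn (nat_lit 145025032340432726213366733859120713686285955030274882077769798627136060529442594408552) (nat_lit 626287616)) .nil .nil)) .nil l740 = true := by decide +kernel
theorem cw3208 : wchk (nat_lit 5) [] [l740] (nat_lit 25) (nat_lit 2) (nat_lit 2) (nat_lit 0) (nat_lit 22597888) (nat_lit 0) w3208 = true := by decide +kernel
theorem cl741 : lchk (nat_lit 5) [w2766, w47, w1530, w125, w227, w1101] (nat_lit 23282688) .nil (.nod (nat_lit 928455656653333712349429786) .nil .nil (.dwn (nat_lit 285096570277066901818998857261115089951029466991235138741124202586) (nat_lit 89359368))) (.nod (nat_lit 928458017836575147172036762) (.nod (nat_lit 273488150278967722255375944478673302632452764904559147455621366106) .nil (.nod (nat_lit 7874780602634650737410078729972759239731967404877555797815598680064) .nil .nil (.dwn (nat_lit 61794673936935930326744108904012020587164712574987229435218497013760) (nat_lit 4922229760))) (.dwn (nat_lit 7874780602634650737836971441833919147300788064902923078205125855232) (nat_lit 627262464))) (.nod (nat_lit 5043306846333742820745104262646127647999989698934654197075694742880027059752752120154)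 .nil (.dwn (nat_lit 145264062413413674984864100073547927711504240807196591915211882141458726189610975004672) (nat_lit 627262464)) .dup) .nil) .nil l741 = true := by decide +kernel
theorem cw3209 : wchk (nat_lit 5) [] [l741] (nat_lit 3) (nat_lit 3) (nat_lit 2) (nat_lit 0) (nat_lit 22597888) (nat_lit 0) w3209 = true := by decide +kernel
theorem cw3210 : wchk (nat_lit 5) [] [l585] (nat_lit 3) (nat_lit 2) (nat_lit 2) (nat_lit 0) (nat_lit 22596096) (nat_lit 0) w3210 = true := by decide +kernel
theorem cl742 : lchk (nat_lit 5) [w2766, w3204, w1613, w4, w1444, w33, w1027, w109, w831, w1101] (nat_lit 23282688) .nil (.nod (nat_lit 928455656653333712349429786) .nil .nil (.nod (nat_lit 292295652715347178253426847434803498410328936403382050643274367066) (.dwn (nat_lit 9594136636798641705001075280406042906356997766140496027126459583560604446886137309743144) (nat_lit 619463704)) .nil .nil)) (.nod (nat_lit 928458017836575147172036762) (.nod (nat_lit 1114456879476546189470188660781389517031337707314836662277417992602) .nil (.nod (nat_lit 7874780602634650737410078729972759239731967404877555797815598680064) .nil .nil (.opn (nat_lit 61794673936935930326744108904012020587164712574987229435218497013760)))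 .nil) .nil (.dwn (nat_lit 20919980758530276307692700627872133780616944815770199081699640711425487228020333740378) (nat_lit 90391552))) .nil l742 = true := by decide +kernel
theorem cw3211 : wchk (nat_lit 5) [] [l742] (nat_lit 1) (nat_lit 2) (nat_lit 2) (nat_lit 0) (nat_lit 30986496) (nat_lit 0) w3211 = true := by decide +kernel
theorem cw3212 : wchk (nat_lit 5) [] [l143] (nat_lit 0) (nat_lit 0) (nat_lit 2) (nat_lit 1) (nat_lit 22438400) (nat_lit 0) w3212 = true := by decide +kernel
theorem cl743 : lchk (nat_lit 5) [w726, w462, w3206, w3207, w1028, w3016, w69, w3208, w1063, w126, w1, w618, w1640, w2309, w3211, w3212, w111, w1636, w1473, w762, w2832, w2575, w3209, w3210] (nat_lit 15483904) .nil (.nod (nat_lit 399361236297272746130823176) .nil .nil (.nod (nat_lit 292295702932161061346872958121118884071660265222225606355550470234) (.dwn (nat_lit 20933256089977156134769334215465341719525030869270284348007022731261788908210785413168) (nat_lit 90391580)) .nil .nil)) (.nod (nat_lit 609541412341779193615712159745111581425989058714) (.nod (nat_lit 1115986784928308514460914159816952606847854968843367709432501151792) .nil (.nod (nat_lit 7855073666844811194698739324421756463849279726139970170394609354848)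 .nil .nil (.dwn (nat_lit 61696766415775318567235888237649858232117952066636963151605659109376) (nat_lit 4914430976))) (.dwn (nat_lit 291576347073285747747182791126687842469757153970112477939665111160) (nat_lit 619463680))) (.nod (nat_lit 20558109173919243530815703557941866597007263646821591833072629119814968379651661400216) (.dwn (nat_lit 145235861018495748150836209579029704796104591942177614303995151062759992862563213150392) (nat_lit 7069713436)) .nil .nil) (.nod (nat_lit 20558109173919243530815703557941866597007263646821591833072629119814968379651661400216) (.dwn (nat_lit 145235861018495748150836209579029704796104591942177614303995151062759992862563213150392) (nat_lit 7069713436)) .nil .nil)) .nil l743 = true := by decide +kernel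
theorem cw3213 : wchk (nat_lit 5) [] [l743] (nat_lit 145) (nat_lit 3) (nat_lit 1) (nat_lit 0) (nat_lit 5820672) (nat_lit 0) w3213 = true := by decide +kernel
theorem cw3214 : wchk (nat_lit 5) [w682, w368] [] (nat_lit 145) (nat_lit 1) (nat_lit 3) (nat_lit 2) (nat_lit 4920659968) (nat_lit 21727236) w3214 = true := by decide +kernel
theorem cw3215 : wchk (nat_lit 5) [w126, w3127] [] (nat_lit 1) (nat_lit 1) (nat_lit 1) (nat_lit 2) (nat_lit 88886272) (nat_lit 23282692) w3215 = true := by decide +kernel
theorem cw3216 : wchk (nat_lit 5) [w1065, w3128] [] (nat_lit 1) (nat_lit 1) (nat_lit 2) (nat_lit 2) (nat_lit 23225344) (nat_lit 23282692) w3216 = true := by decide +kernel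
theorem cw3217 : wchk (nat_lit 5) [w901, w3127] [] (nat_lit 1) (nat_lit 1) (nat_lit 1) (nat_lit 2) (nat_lit 23211008) (nat_lit 23282692) w3217 = true := by decide +kernel
theorem cw3218 : wchk (nat_lit 5) [w1063, w3128] [] (nat_lit 1) (nat_lit 1) (nat_lit 2) (nat_lit 2) (nat_lit 23225344) (nat_lit 23282692) w3218 = true := by decide +kernel
theorem cw3219 : wchk (nat_lit 5) [w799, w368] [] (nat_lit 17) (nat_lit 1) (nat_lit 1) (nat_lit 2) (nat_lit 627205120) (nat_lit 21712900) w3219 = true := by decide +kernel
theorem cw3220 : wchk (nat_lit 5) [w799, w3128] [] (nat_lit 0) (nat_lit 0) (nat_lit 2) (nat_lit 2) (nat_lit 23282688) (nat_lit 23282692) w3220 = true := by decide +kernel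
theorem cw3221 : wchk (nat_lit 5) [w2914, w16] [] (nat_lit 0) (nat_lit 1) (nat_lit 3) (nat_lit 2) (nat_lit 17655808) (nat_lit 22250500) w3221 = true := by decide +kernel
theorem cw3222 : wchk (nat_lit 5) [w2914, w16] [] (nat_lit 0) (nat_lit 1) (nat_lit 1) (nat_lit 2) (nat_lit 9276416) (nat_lit 23282692) w3222 = true := by decide +kernel
theorem cw3223 : wchk (nat_lit 5) [w2520, w3128] [] (nat_lit 0) (nat_lit 0) (nat_lit 2) (nat_lit 2) (nat_lit 23275520) (nat_lit 23282692) w3223 = true := by decide +kernel
theorem cw3224 : wchk (nat_lit 5) [w34, w3128] [] (nat_lit 17) (nat_lit 1) (nat_lit 2) (nat_lit 2) (nat_lit 23225344) (nat_lit 23282692) w3224 = true := by decide +kernel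
theorem cw3225 : wchk (nat_lit 5) [w1063, w368] [] (nat_lit 17) (nat_lit 1) (nat_lit 1) (nat_lit 2) (nat_lit 627262464) (nat_lit 21712900) w3225 = true := by decide +kernel
theorem cw3226 : wchk (nat_lit 5) [w162, w3225] [] (nat_lit 1235) (nat_lit 0) (nat_lit 1) (nat_lit 2) (nat_lit 21662720) (nat_lit 23282692) w3226 = true := by decide +kernel
theorem cl744 : lchk (nat_lit 5) [w219, w15, w499, w1, w795, w141, w796, w2799, w2797, w1110, w1997] (nat_lit 55331840) (.nod (nat_lit 292295652715347178253426847434803498410530863133982590038754936840) .nil .nil (.dwn (nat_lit 279067388951821053398611526176966433527937233766374967839380885520) (nat_lit 21777408))) .nil (.nod (nat_lit 292295753148974944440319068807434269733193521066817606642659969048) .nil (.nod (nat_lit 5391905878508037472762288984740148904546287129184871646786114653170429403291538745384) (.opn (nat_lit 1139910540791007242740724340579397730545031769437187681198312774452766593721363993913400)) (.dwn (nat_lit 1139910540791007242740724340579397730545031769437187681198312774452766593721363993913400) (nat_lit 4920724480)) .dup) (.nod (nat_lit 5391905878508037472762288984740148904546287129184871646786114653170429403291538745384)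 (.dwn (nat_lit 1139910540791007242740724340579397730545031769437187681198312774452766593721363993913400) (nat_lit 4920724480)) .nil .nil)) (.nod (nat_lit 292295753148974944440319068807434269733193521066817606642659969048) .nil (.nod (nat_lit 5378630547061157645589367418450872853286725431982925287400118920079090178804579362856) (.dwn (nat_lit 1139880664579310587365245932488129728925799100128824191282541569764771208007306816186424) (nat_lit 4920724480)) .nil .nil) (.nod (nat_lit 5378630547061157645589367418450872853286725431982925287400118920079090178804579362856) (.dwn (nat_lit 1139880664579310587365245932488129728925799100128824191282541569764771208007306816186424) (nat_lit 4920724480)) .nil .nil)) l744 = true := by decide +kernel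
theorem cw3227 : wchk (nat_lit 5) [] [l744] (nat_lit 34) (nat_lit 1) (nat_lit 2) (nat_lit 0) (nat_lit 22597888) (nat_lit 0) w3227 = true := by decide +kernel
theorem cw3228 : wchk (nat_lit 5) [w3227, w3128] [] (nat_lit 211) (nat_lit 0) (nat_lit 2) (nat_lit 2) (nat_lit 23282688) (nat_lit 23282692) w3228 = true := by decide +kernel
theorem cw3229 : wchk (nat_lit 5) [w726, w16] [] (nat_lit 3) (nat_lit 1) (nat_lit 1) (nat_lit 2) (nat_lit 78406656) (nat_lit 23282692) w3229 = true := by decide +kernel
theorem cw3230 : wchk (nat_lit 5) [] [l534] (nat_lit 1) (nat_lit 3) (nat_lit 2) (nat_lit 0) (nat_lit 5820672) (nat_lit 0) w3230 = true := by decide +kernel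
theorem cw3231 : wchk (nat_lit 5) [] [l726] (nat_lit 1) (nat_lit 2) (nat_lit 2) (nat_lit 0) (nat_lit 22597888) (nat_lit 0) w3231 = true := by decide +kernel
theorem cw3232 : wchk (nat_lit 5) [] [l32] (nat_lit 17) (nat_lit 1) (nat_lit 2) (nat_lit 0) (nat_lit 22192896) (nat_lit 0) w3232 = true := by decide +kernel
theorem cl745 : lchk (nat_lit 5) [w2766, w109, w831, w1101, w2902, w3153, w4, w33, w3232, w1994] (nat_lit 22823936) (.nod (nat_lit 17127027438214959764730512700080345583093547154) (.nod (nat_lit 1114366589645184387454081789024355470909886211013970375273504309650) .nil (.opn (nat_lit 7869021336684026516689116839262188991809350064355913866813875193856)) (.nod (nat_lit 7869021336684026516689116839262188991809350064355913866813875193856) .nil (.opn (nat_lit 61788914670985306108946150287963256175649464899898153543528638613504)) .dup)) .nil (.dwn (nat_lit 20800455532335949038122104250280951723807393322107513169200668335661977216449203142994) (nat_lit 89932800))) .nil (.nod (nat_lit 11417993111248154360374045510332613771214716946) .nil .nil (.nod (nat_lit 284286824153202020011882033536769455343107336821808282699156160530) (.dwn (nat_lit 20827018237606989373353261458727649917220132575380953977415062894457915958647405742136)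 (nat_lit 626610212)) .nil .nil)) .nil l745 = true := by decide +kernel
theorem cw3233 : wchk (nat_lit 5) [] [l745] (nat_lit 1) (nat_lit 2) (nat_lit 3) (nat_lit 0) (nat_lit 22597888) (nat_lit 0) w3233 = true := by decide +kernel
theorem cw3234 : wchk (nat_lit 5) [w3233, w16] [] (nat_lit 3) (nat_lit 1) (nat_lit 3) (nat_lit 2) (nat_lit 90391552) (nat_lit 22250500) w3234 = true := by decide +kernel
theorem cw3235 : wchk (nat_lit 5) [] [l726] (nat_lit 1) (nat_lit 2) (nat_lit 2) (nat_lit 0) (nat_lit 22597888) (nat_lit 0) w3235 = true := by decide +kernel
theorem cw3236 : wchk (nat_lit 5) [w181, w3131] [] (nat_lit 0) (nat_lit 0) (nat_lit 2) (nat_lit 2) (nat_lit 21777408) (nat_lit 23282692) w3236 = true := by decide +kernel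
theorem cw3237 : wchk (nat_lit 5) [w3207, w16] [] (nat_lit 3) (nat_lit 1) (nat_lit 3) (nat_lit 2) (nat_lit 22823936) (nat_lit 22250500) w3237 = true := by decide +kernel
theorem cw3238 : wchk (nat_lit 5) [] [] (nat_lit 1) (nat_lit 0) (nat_lit 4) (nat_lit 2) (nat_lit 333) (nat_lit 16777257) w3238 = true := by decide +kernel
theorem cw3239 : wchk (nat_lit 5) [] [] (nat_lit 1) (nat_lit 0) (nat_lit 4) (nat_lit 2) (nat_lit 325) (nat_lit 16777257) w3239 = true := by decide +kernel
theorem cw3240 : wchk (nat_lit 5) [w6] [] (nat_lit 0) (nat_lit 0) (nat_lit 1) (nat_lit 2) (nat_lit 33554509) (nat_lit 123487232) w3240 = true := by decide +kernel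
theorem cw3241 : wchk (nat_lit 5) [] [l176] (nat_lit 1) (nat_lit 2) (nat_lit 4) (nat_lit 0) (nat_lit 21293312) (nat_lit 0) w3241 = true := by decide +kernel
theorem cw3242 : wchk (nat_lit 5) [] [l60] (nat_lit 1) (nat_lit 0) (nat_lit 1) (nat_lit 0) (nat_lit 5428224) (nat_lit 0) w3242 = true := by decide +kernel
theorem cw3243 : wchk (nat_lit 5) [w91] [] (nat_lit 17) (nat_lit 1) (nat_lit 4) (nat_lit 2) (nat_lit 16777225) (nat_lit 13469696) w3243 = true := by decide +kernel
theorem cl746 : lchk (nat_lit 5) [w2205, w1053, w80, w3243, w19, w2203, w539, w2204, w2206, w3241, w3242, w2208, w3238, w3239, w3240] (nat_lit 862086144) (.nod (nat_lit 421249731613384931592940855955729817966795772218530888511068129289) .nil (.nod (nat_lit 115558229072380274893083814586670460616613489956277406632893218899) (.nod (nat_lit 17127027778497326685668976163454953014861758611) .nil (.nod (nat_lit 11417993111248154360374045510332613771214716946) .nil .nil (.nod (nat_lit 292295753148974944451737061918682424092746667723978166478022115346) (.opn (nat_lit 1139897255269856510029727031284118383078681110909131454633103784361882251479345965352960)) .dup .dup)) .nil) .nil .nil) (.nod (nat_lit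 1971533204112079593568717593962566555802626738579094918405195876408) .nil (.dwn (nat_lit 14614047762912993723607851324562311478462364224986311213974171207768) (nat_lit 1164076032)) .dup)) .nil .nil (.nod (nat_lit 11244774538630247308864808944085997701882489925753994452364595036160) .nil (.dwn (nat_lit 20933266279681009017557647447770099430626434457438908655413330901518706978061849460736) (nat_lit 90391608)) .dup) l746 = true := by decide +kernel
theorem cw3244 : wchk (nat_lit 5) [] [l746] (nat_lit 281) (nat_lit 1) (nat_lit 4) (nat_lit 0) (nat_lit 22597888) (nat_lit 0) w3244 = true := by decide +kernel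
theorem cw3245 : wchk (nat_lit 5) [] [l90] (nat_lit 1) (nat_lit 1) (nat_lit 2) (nat_lit 0) (nat_lit 5444352) (nat_lit 0) w3245 = true := by decide +kernel
theorem cw3246 : wchk (nat_lit 5) [] [l240] (nat_lit 1) (nat_lit 1) (nat_lit 2) (nat_lit 0) (nat_lit 22339840) (nat_lit 0) w3246 = true := by decide +kernel
theorem cw3247 : wchk (nat_lit 5) [] [l89] (nat_lit 1) (nat_lit 1) (nat_lit 2) (nat_lit 0) (nat_lit 5444352) (nat_lit 0) w3247 = true := by decide +kernel
theorem cl747 : lchk (nat_lit 5) [w1994, w109, w3, w1027, w750, w2213, w2214, w3244, w7, w1529, w3245, w3246, w3247, w2902, w3153, w4, w33, w3232] (nat_lit 22630400) (.nod (nat_lit 17127027438214959764730512700080345583093547154) (.nod (nat_lit 1120125855595808608601624181163306197677325786543687904795224441234) .nil (.nod (nat_lit 286446448451058336743900216104997052220866975529262552310706948128) .nil .nil (.dwn (nat_lit 61786484980662386512299947065189450022542235363351315619217790902272) (nat_lit 4921577472))) (.nod (nat_lit 286446448451058336759706579774037762291942127381182396058906708016) .nil (.dwn (nat_lit 61786484980662386515649399127503307516301514493417384032472954740736) (nat_lit 4921577472))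 .dup)) .nil (.nod (nat_lit 5391908657518179160781452649347017817668286449271775677399071958449871296349262053714) (.dwn (nat_lit 145038311377226461634677616417639488389205071015281989149411737423456538284733835675736) (nat_lit 626610176)) .nil .nil)) .nil (.nod (nat_lit 11417993111248154360374045510332613771214716946) .nil .nil (.nod (nat_lit 284287276104526967852897029713607926295089296191400284109641089042) (.opn (nat_lit 20827026574637414460119332407789895490590513031497018792795225065464693838197623687296)) (.dwn (nat_lit 20827026574637414460119332407789895490590513031497018792795225065464693838197623687296) (nat_lit 626610176)) .dup)) .nil l747 = true := by decide +kernel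
theorem cw3248 : wchk (nat_lit 5) [] [l747] (nat_lit 17) (nat_lit 2) (nat_lit 3) (nat_lit 0) (nat_lit 22597888) (nat_lit 0) w3248 = true := by decide +kernel
theorem cw3249 : wchk (nat_lit 5) [w3248, w16] [] (nat_lit 3) (nat_lit 1) (nat_lit 3) (nat_lit 2) (nat_lit 23282688) (nat_lit 22250500) w3249 = true := by decide +kernel
theorem cw3250 : wchk (nat_lit 5) [w2309, w16] [] (nat_lit 211) (nat_lit 1) (nat_lit 3) (nat_lit 2) (nat_lit 4921656320) (nat_lit 22250500) w3250 = true := by decide +kernel
theorem cw3251 : wchk (nat_lit 5) [w3212, w16] [] (nat_lit 211) (nat_lit 1) (nat_lit 4) (nat_lit 2) (nat_lit 4913972224) (nat_lit 18064388) w3251 = true := by decide +kernel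
theorem cw3252 : wchk (nat_lit 5) [w3212, w16] [] (nat_lit 211) (nat_lit 1) (nat_lit 3) (nat_lit 2) (nat_lit 4921771008) (nat_lit 22250500) w3252 = true := by decide +kernel
theorem cw3253 : wchk (nat_lit 5) [w93, w368] [] (nat_lit 1) (nat_lit 1) (nat_lit 4) (nat_lit 2) (nat_lit 84628480) (nat_lit 17541124) w3253 = true := by decide +kernel
theorem cw3254 : wchk (nat_lit 5) [w126, w3132] [] (nat_lit 1) (nat_lit 1) (nat_lit 3) (nat_lit 2) (nat_lit 88771584) (nat_lit 23282692) w3254 = true := by decide +kernel
theorem cl748 : lchk (nat_lit 5) [w3155, w178, w179, w368, w366, w3250, w3251, w2046, w3252, w2265, w2266, w2353, w3230, w3231, w385, w3234, w3235, w3131, w3132, w16, w726, w3035, w3253, w83, w3254, w1501, w3236, w241, w2517, w3237, w535, w184, w537, w3249] (nat_lit 23282688) (.nod (nat_lit 14820938601544896691776925071468520394114553872) (.nod (nat_lit 272588271251284423148246082477664093770874320253819831924079153177) .nil (.nod (nat_lit 292295853582602710627211290180065041055894260310544436655247755312) .nil .nil (.dwn (nat_lit 61793954380209799480754788879798859445948099815190752976540893759544) (nat_lit 4922172444))) (.nod (nat_lit 292295853582602710643056688319979985819990222790431993399709435952)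 .nil (.dwn (nat_lit 61793954380209799484104645859073540308906346407090687177788670396472) (nat_lit 4922172444)) .dup)) (.nod (nat_lit 20919981684866990206223163951961612768400373660943769263030030268877660091568358852704) (.dwn (nat_lit 145264074455790955665729527236565277253141422375372524406964956019295890562441706637440) (nat_lit 627262464)) .nil .nil) (.nod (nat_lit 20919981684866990206223163951961612768400373660943769263030030268877660091568358852704) (.dwn (nat_lit 145264074455790955665729527236565277253141422375372524406964956019295890562441706637440) (nat_lit 627262464)) .nil .nil)) .nil (.nod (nat_lit 15845422640245363072524314072958495431778011280) (.nod (nat_lit 292296562895098809378347383240632460584907867366862323949024741536) .nil (.nod (nat_lit 7874781657187742282372447054385382338619925313319897424746270591152) .nil (.dwn (nat_lit 1139910535232986959349548489701490887501750572575931288143572581097887393852080624404480) (nat_lit 4922229760)) (.dwn (nat_lit 1139910535232986959349548489701490887501750572575931288143572581097887393852080624404480) (nat_lit 4922229760))) (.dwn (nat_lit 273399166084766880684713250023867821397928974438621192604483791048)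 (nat_lit 627262464))) .nil (.nod (nat_lit 292296908135694255604400623972965356190030016155041125152343871712) (.dwn (nat_lit 145264089277178378042201912337407030970499728518844995509177303420086647600561624918272) (nat_lit 627262596)) .nil .nil)) .nil l748 = true := by decide +kernel
theorem cw3255 : wchk (nat_lit 5) [] [l748] (nat_lit 0) (nat_lit 3) (nat_lit 1) (nat_lit 0) (nat_lit 5820672) (nat_lit 0) w3255 = true := by decide +kernel
theorem cw3256 : wchk (nat_lit 5) [] [l748] (nat_lit 0) (nat_lit 3) (nat_lit 3) (nat_lit 0) (nat_lit 5562624) (nat_lit 0) w3256 = true := by decide +kernel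
theorem cw3257 : wchk (nat_lit 5) [] [l748] (nat_lit 0) (nat_lit 3) (nat_lit 1) (nat_lit 0) (nat_lit 5820672) (nat_lit 0) w3257 = true := by decide +kernel
theorem cw3258 : wchk (nat_lit 5) [w2272, w368] [] (nat_lit 3) (nat_lit 0) (nat_lit 1) (nat_lit 2) (nat_lit 23225344) (nat_lit 21712900) w3258 = true := by decide +kernel
theorem cl749 : lchk (nat_lit 5) [w1401, w1075, w1546, w4, w922, w914, w377, w913, w2772, w3084, w3085, w160, w3086] (nat_lit 23211008) (.nod (nat_lit 618971827423609361019175002) .nil (.nod (nat_lit 1128944731582701947233798326888045125087689916593720988206838579610) .nil .nil (.dwn (nat_lit 7860202561130760943817254271243670983924505795942060724396268656656) (nat_lit 627190784))) (.nod (nat_lit 292205764618496441000695079877044939330198830701655723413866545562) .nil (.opn (nat_lit 7874780853718720153304162982572693323854483445142833456751925577768)) .dup)) (.nod (nat_lit 618971827423609361019175002) .nil (.nod (nat_lit 1120126106679878024130332887637003050031660428946356206710013559194) (.opn (nat_lit 7873880717329865703282619160182086310505250877317452888925242939392)) .nil .dup) (.nod (nat_lit 1133174544032888791308953920477371216227953639285169470501256429978)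 (.dwn (nat_lit 145250791713650364650331796920044724445780662736502067497246238090093326899054833354848) (nat_lit 627190784)) .nil .nil)) .nil .nil l749 = true := by decide +kernel
theorem cw3259 : wchk (nat_lit 5) [] [l749] (nat_lit 3) (nat_lit 3) (nat_lit 2) (nat_lit 0) (nat_lit 5820672) (nat_lit 0) w3259 = true := by decide +kernel
theorem cw3260 : wchk (nat_lit 5) [] [l749] (nat_lit 3) (nat_lit 3) (nat_lit 1) (nat_lit 0) (nat_lit 5820672) (nat_lit 0) w3260 = true := by decide +kernel
theorem cw3261 : wchk (nat_lit 5) [] [l209] (nat_lit 17) (nat_lit 1) (nat_lit 1) (nat_lit 0) (nat_lit 156815616) (nat_lit 0) w3261 = true := by decide +kernel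
theorem cw3262 : wchk (nat_lit 5) [w3261, w16] [] (nat_lit 211) (nat_lit 1) (nat_lit 1) (nat_lit 2) (nat_lit 23282688) (nat_lit 23282692) w3262 = true := by decide +kernel
theorem cw3263 : wchk (nat_lit 5) [w2276, w368] [] (nat_lit 3) (nat_lit 0) (nat_lit 3) (nat_lit 2) (nat_lit 23225344) (nat_lit 21727236) w3263 = true := by decide +kernel
theorem cw3264 : wchk (nat_lit 5) [w2274, w368] [] (nat_lit 3) (nat_lit 0) (nat_lit 1) (nat_lit 2) (nat_lit 23225344) (nat_lit 21712900) w3264 = true := by decide +kernel
theorem cw3265 : wchk (nat_lit 5) [] [l274] (nat_lit 0) (nat_lit 2) (nat_lit 2) (nat_lit 1) (nat_lit 22583552) (nat_lit 0) w3265 = true := by decide +kernel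
theorem cw3266 : wchk (nat_lit 5) [w1408, w1063] [] (nat_lit 19) (nat_lit 2) (nat_lit 2) (nat_lit 2) (nat_lit 626803712) (nat_lit 23225348) w3266 = true := by decide +kernel
theorem cl750 : lchk (nat_lit 5) [w2062, w3265, w368, w1068, w682, w1065, w3127, w1063, w16, w3213, w3214, w3224, w2015, w2037, w2709, w3226, w3228, w1166, w3215, w3216, w3217, w128, w3218, w3219, w799, w3220, w3221, w3222, w3223, w3155, w3229, w3255, w3256, w1134, w3257, w3258, w3259, w3260, w3262, w3263, w3264, w3266] (nat_lit 7103210496) .nil (.nod (nat_lit 292295652715347178253426847434803498410530863133982590038754936840) .nil .nil (.dwn (nat_lit 712202667373701287345442405079343241749726269126873768669599687297024) (nat_lit 56730215424))) (.nod (nat_lit 272588214757368804669104619752042788365373940474150532536050602000) (.nod (nat_lit 273398218242404837889613872958327026987830588983172142813001635873) .nil (.nod (nat_lit 292295903799416593736463770320221374444216538695358301637966252080) (.nod (nat_lit 292296010510146095310075786936974501379120252206591752888773986369) .nil (.nod (nat_lit 292296104666672126094441843611641969362512823831740164756327581776) .nil (.nod (nat_lit 5391912362865034754905555658966896352658094818212710462404232189412029734736005384288)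 (.dwn (nat_lit 144915475423616661074373932297639288810206001215739141268439949069094254123461659543664) (nat_lit 2513183130688)) .nil .nil) .dup) (.nod (nat_lit 291576547940541280120967244760985126585077334825488508566754740360) (.dwn (nat_lit 20933270911364578511340256757181056720214858166082046097494114284258025029723933329568) (nat_lit 90391640)) .nil .nil)) .nil (.nod (nat_lit 292296757485252606325086724229799893604039386187005080692503038136) (.dwn (nat_lit 20933276469384861902517637389889220435796136243975313474914786695320693400197426268368) (nat_lit 90391664)) .nil .nil)) (.nod (nat_lit 292297058786135904885763404681245819777073606227491287229092284648) (.dwn (nat_lit 20933282027405145293695018022597384151376350855081925923244397121818234851931602766080) (nat_lit 90391688)) .nil .nil)) (.nod (nat_lit 20933285732752000887813271777736159961763225639659829936448300218661557710808779540768) (.dwn (nat_lit 145264097614208803128987510797583111793699519338789747633004362853396471216714874833208) (nat_lit 627262528)) .nil .nil) .dup) (.nod (nat_lit 292295652715347178269272335409263310302381179944766508770024441864) .nil (.dwn (nat_lit 715572660707095117358567053630713959665765865531326442683662489405440)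 (nat_lit 56998650880)) .dup) l750 = true := by decide +kernel
theorem cw3267 : wchk (nat_lit 5) [] [l750] (nat_lit 13523) (nat_lit 1) (nat_lit 2) (nat_lit 0) (nat_lit 78539968768) (nat_lit 0) w3267 = true := by decide +kernel
theorem cw3268 : wchk (nat_lit 5) [w2042, w368] [] (nat_lit 3) (nat_lit 0) (nat_lit 1) (nat_lit 2) (nat_lit 90391552) (nat_lit 21712900) w3268 = true := by decide +kernel
theorem cw3269 : wchk (nat_lit 5) [w1153, w368] [] (nat_lit 3) (nat_lit 0) (nat_lit 1) (nat_lit 2) (nat_lit 7338077184) (nat_lit 21712900) w3269 = true := by decide +kernel
theorem cw3270 : wchk (nat_lit 5) [w37] [] (nat_lit 0) (nat_lit 1) (nat_lit 3) (nat_lit 2) (nat_lit 16777265) (nat_lit 22709248) w3270 = true := by decide +kernel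
theorem cl751 : lchk (nat_lit 5) [w1528, w181, w2, w37, w2489, w3, w39, w263, w3270, w802, w170, w301, w347, w345] (nat_lit 22644736) .nil (.nod (nat_lit 280057212570270708314899264139533204029829322231962024760949342234) .nil .nil (.opn (nat_lit 1126784956634403981210023819149623216891880062618282531337347993600))) (.nod (nat_lit 834914707766002526880704529) (.nod (nat_lit 15806358564805206256998207612039755083458544026) .nil (.nod (nat_lit 88753900896709997626157262241852560315366208690530734187595593893936) (.nod (nat_lit 708827545045587879894229239238070899345253162464360383219470498811960) .nil (.dwn (nat_lit 493145811632133580260616537173442211554381540615272395484047038681088) (nat_lit 39281330176)) (.dwn (nat_lit 493145811632133580260616537173442211554381540615272395484047038681088) (nat_lit 39281330176))) (.dwn (nat_lit 13075560315851788468291918759667147664226652170726943696245473534477631246609545220870200) (nat_lit 4921591808)) .dup) (.dwn (nat_lit 88753900896709997626157262241852560315366208690530734187595593893936) (nat_lit 7069247516))) .nil (.nod (nat_lit 5391909583854893059024569288162956251928401792593351128342368791514155473193268150618)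 (.dwn (nat_lit 145126292059302402357893563226372480143089624936497031188658597955060557102466225956968) (nat_lit 626624512)) .nil .nil)) .nil l751 = true := by decide +kernel
theorem cw3271 : wchk (nat_lit 5) [] [l751] (nat_lit 3) (nat_lit 2) (nat_lit 1) (nat_lit 0) (nat_lit 22597888) (nat_lit 0) w3271 = true := by decide +kernel
theorem cw3272 : wchk (nat_lit 5) [w1291, w1065] [] (nat_lit 19) (nat_lit 0) (nat_lit 2) (nat_lit 2) (nat_lit 23282688) (nat_lit 895640580) w3272 = true := by decide +kernel
theorem cw3273 : wchk (nat_lit 5) [w1319, w37] [] (nat_lit 25) (nat_lit 1) (nat_lit 2) (nat_lit 2) (nat_lit 627205120) (nat_lit 23225348) w3273 = true := by decide +kernel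
theorem cw3274 : wchk (nat_lit 5) [] [l715] (nat_lit 281) (nat_lit 1) (nat_lit 0) (nat_lit 0) (nat_lit 22597888) (nat_lit 0) w3274 = true := by decide +kernel
theorem cw3275 : wchk (nat_lit 5) [] [l751] (nat_lit 1) (nat_lit 0) (nat_lit 1) (nat_lit 0) (nat_lit 5806336) (nat_lit 0) w3275 = true := by decide +kernel
theorem cw3276 : wchk (nat_lit 5) [] [l715] (nat_lit 25) (nat_lit 3) (nat_lit 1) (nat_lit 0) (nat_lit 5820672) (nat_lit 0) w3276 = true := by decide +kernel
theorem cl752 : lchk (nat_lit 5) [w2478, w721, w91, w80, w3274, w716, w1355, w2448, w1401, w4, w2368, w1528, w3275, w848, w1940, w3276] (nat_lit 23211008) (.nod (nat_lit 292295658992448913640107611270592921618614322525380185244791996506) .nil (.nod (nat_lit 166761702914648741021534879467427261562658180306393185852056981528) (.nod (nat_lit 7874780803501906269783863172718020782377254639579907970204395063328) .nil (.nod (nat_lit 292295853582602713976443845866928111198632063080955810918028494888) (.nod (nat_lit 493152920726041382033595920198491690965066284397197609979358113716224) .nil (.dwn (nat_lit 3944026094121323275938046060915359990730833633871900949289102972573696) (nat_lit 314159803392))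 (.dwn (nat_lit 3944026094121323275938046060915359990730833633871900949289102972573696) (nat_lit 314159803392))) (.dwn (nat_lit 9097065717835660172617246783703318935317430951842972771337637086571406352170489068410880) (nat_lit 39281896448)) (.dwn (nat_lit 9097065717835660172617246783703318935317430951842972771337637086571406352170489068410880) (nat_lit 39281896448))) (.dwn (nat_lit 292295853582602713976443845866928111198632063080955810918028494888) (nat_lit 4922158080))) .nil (.dwn (nat_lit 145247468943857610617211736173405851287500403198808607867073243625900025437030900717632) (nat_lit 627190784))) (.nod (nat_lit 292296054449858243016802110205661970609828506565277830870476167256) .nil (.opn (nat_lit 7874781205236417334958285779154972506423828444020597355280800893024)) .dup)) .nil .nil (.nod (nat_lit 816140331070799819917449328) .nil (.dwn (nat_lit 20933267206017722916087208262726267991590584113647381400762120323363365528335911223706) (nat_lit 90391612)) (.dwn (nat_lit 20933267206017722916087208262726267991590584113647381400762120323363365528335911223706) (nat_lit 90391612))) l752 = true := by decide +kernel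
theorem cw3277 : wchk (nat_lit 5) [] [l752] (nat_lit 25) (nat_lit 2) (nat_lit 2) (nat_lit 0) (nat_lit 156815616) (nat_lit 0) w3277 = true := by decide +kernel

end Pool.Agent.W319.GCI.K5
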