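import Pool.Agent.W319.GCI.K5D0
import Pool.Agent.W319.GCI.K5D1
import Pool.Agent.W319.GCI.K5D2
import Pool.Agent.W319.GCI.K5D3
import Pool.Agent.W319.GCI.K5D4
import Pool.Agent.W319.GCI.K5D5
import Pool.Agent.W319.GCI.K5D6
import Pool.Agent.W319.GCI.K5D7
import Pool.Agent.W319.GCI.K5D8
import Pool.Agent.W319.GCI.K5D9
import Pool.Agent.W319.GCI.K5D10
import Pool.Agent.W319.GCI.K5D11
import Pool.Agent.W319.GCI.K5D12
import Pool.Agent.W319.GCI.K5D13
import Pool.Agent.W319.GCI.K5D14
import Pool.Agent.W319.GCI.K5D15
set_option autoImplicit false
set_option maxRecDepth 100000
set_option linter.all false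
namespace Pool.Agent.W319.GCI.K5
open Pool.Agent.W319.GCI

theorem cw3558 : wchk (nat_lit 5) [] [l173] (nat_lit 209) (nat_lit 1) (nat_lit 3) (nat_lit 0) (nat_lit 22354176) (nat_lit 0) w3558 = true := by decide +kernel
theorem cl829 : lchk (nat_lit 5) [w632, w158, w1072, w7, w2572, w142, w1074, w816, w821, w1076, w1093, w33, w4, w808, w809, w830] (nat_lit 21662720) .nil (.nod (nat_lit 315937891896152692736037824448897856604450674534744879082971857034) .nil (.nod (nat_lit 280057262787084591408345374825848589691055209867508626297770788880) .nil (.nod (nat_lit 145034986754760279812055806993563842303915721507915923185519018598140141511908718602280) (.dwn (nat_lit 1139684782344126318202290640727867983807241797149076661341453797589487204550186666346560) (nat_lit 4920609792)) .nil .nil) .dup) (.nod (nat_lit 1134074579988115475127789376749951972729074969208909824492349081688) .nil .nil (.nod (nat_lit 291576347073285747731337376653219285500578979409962324073026078824) .nil (.opn (nat_lit 1139535376274551766064592289410717637455404821362652961563183256283627609594134126729216)) .dup))) (.nod (nat_lit 291576347073285747731337376653219285499755963460866418639389771880)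 .nil .nil (.dwn (nat_lit 210625198493084441305732878578516609919780489935189204698570686538) (nat_lit 89416764))) .nil l829 = true := by decide +kernel
theorem cw3559 : wchk (nat_lit 5) [] [l829] (nat_lit 209) (nat_lit 1) (nat_lit 3) (nat_lit 0) (nat_lit 22597888) (nat_lit 0) w3559 = true := by decide +kernel
theorem cl830 : lchk (nat_lit 5) [w848, w817, w4, w33, w844, w6, w812, w2572, w814, w845, w846, w1739, w818] (nat_lit 23225344) (.nod (nat_lit 280057218847372443701580027975322627237805224524730435011136716890) (.nod (nat_lit 292295702932161061346872958121118884074340187946729137081372297240) .nil (.nod (nat_lit 280057363220712357595237596198479361013751717575718899928907696160) (.opn (nat_lit 61793954028692102302450523065213520061704473150376786603495982942208)) .nil .dup) .nil) .nil (.nod (nat_lit 291575945338774682983768491162696200209962197749145419863976888368) .nil (.nod (nat_lit 145247468943857610624794401150602925736661361891787221204267456431087048046488501012544) .nil (.opn (nat_lit 1139897255269856510029727031284118383075331253948912586317718091723931295294277208557568)) .dup) (.dwn (nat_lit 5378630547061157638024970364025004021045358317501623215000378643839965017677741066328)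 (nat_lit 627205120)))) .nil .nil (.nod (nat_lit 856864543879541743479474208) .nil (.dwn (nat_lit 20919984463877131900677779587893951384304880772695542205687005254358682084413582344602) (nat_lit 90334256)) .dup) l830 = true := by decide +kernel
theorem cw3560 : wchk (nat_lit 5) [] [l830] (nat_lit 290) (nat_lit 1) (nat_lit 1) (nat_lit 0) (nat_lit 22597888) (nat_lit 0) w3560 = true := by decide +kernel
theorem cl831 : lchk (nat_lit 5) [w795, w1, w619, w604, w603, w1947, w850, w3560, w2798, w91, w808, w3558, w576, w3559, w2796] (nat_lit 23282688) .nil (.nod (nat_lit 292295658992448913640107611270592921618197279254784778576499001353) .nil (.nod (nat_lit 273488100062153839161929833792357916971920378701753912885385685008) .nil (.nod (nat_lit 144915466160249522035139506984090582258880699769180562504550394106718456619192110372896) (.dwn (nat_lit 1139880659947627017872598925391847821226288295964406977317596655066273748360612438263856) (nat_lit 4922107936)) .nil .nil) (.nod (nat_lit 144915466160249522035139506984090582258880699769180562504550394106718456619192110372896) (.dwn (nat_lit 1139880659947627017872598925391847821226288295964406977317596655066273748360612438263856)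 (nat_lit 4922107936)) .nil .nil)) (.nod (nat_lit 957426994225185425931120346490441878838653715198879025062875697224) .nil .nil (.nod (nat_lit 291576196422844098450999044594273128516584992510709799167168530512) (.dwn (nat_lit 20933263500670867323084941644033497877257267965688229461667925949244837179886209919072) (nat_lit 90269752)) .nil .nil))) (.nod (nat_lit 291576196422844098450999044594273128516584992510709799167168530512) (.nod (nat_lit 61517302528434178021234311498635343011313518592) .nil .nil (.opn (nat_lit 426892711861159907591962560306272182324756383744))) .nil (.dwn (nat_lit 1134793935846990788804842260746285749320773710460143118615780427776) (nat_lit 90391552))) .nil l831 = true := by decide +kernel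
theorem cw3561 : wchk (nat_lit 5) [] [l831] (nat_lit 34) (nat_lit 2) (nat_lit 2) (nat_lit 0) (nat_lit 156815616) (nat_lit 0) w3561 = true := by decide +kernel
theorem cw3562 : wchk (nat_lit 5) [w3561, w37] [] (nat_lit 26) (nat_lit 1) (nat_lit 2) (nat_lit 2) (nat_lit 627262464) (nat_lit 23225348) w3562 = true := by decide +kernel
theorem cw3563 : wchk (nat_lit 5) [w1064, w37] [] (nat_lit 26) (nat_lit 1) (nat_lit 1) (nat_lit 2) (nat_lit 627262464) (nat_lit 23282692) w3563 = true := by decide +kernel
theorem cw3565 : wchk (nat_lit 5) [] [l823] (nat_lit 1) (nat_lit 3) (nat_lit 2) (nat_lit 0) (nat_lit 22583552) (nat_lit 0) w3565 = true := by decide +kernel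
theorem cw3566 : wchk (nat_lit 5) [] [l823] (nat_lit 2) (nat_lit 3) (nat_lit 1) (nat_lit 0) (nat_lit 5806336) (nat_lit 0) w3566 = true := by decide +kernel
theorem cw3570 : wchk (nat_lit 5) [w619, w37] [] (nat_lit 3) (nat_lit 1) (nat_lit 2) (nat_lit 2) (nat_lit 88893440) (nat_lit 23225348) w3570 = true := by decide +kernel
theorem cw3571 : wchk (nat_lit 5) [w16, w1528] [] (nat_lit 19) (nat_lit 0) (nat_lit 2) (nat_lit 2) (nat_lit 22307840) (nat_lit 88771588) w3571 = true := by decide +kernel
theorem cw3572 : wchk (nat_lit 5) [w164] [] (nat_lit 3) (nat_lit 0) (nat_lit 3) (nat_lit 2) (nat_lit 89739264) (nat_lit 16777265) w3572 = true := by decide +kernel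
theorem cw3573 : wchk (nat_lit 5) [w1312] [] (nat_lit 3) (nat_lit 0) (nat_lit 3) (nat_lit 2) (nat_lit 895102976) (nat_lit 16777265) w3573 = true := by decide +kernel
theorem cw3574 : wchk (nat_lit 5) [w162, w1528] [] (nat_lit 19) (nat_lit 0) (nat_lit 2) (nat_lit 2) (nat_lit 21712896) (nat_lit 88771588) w3574 = true := by decide +kernel
theorem cw3575 : wchk (nat_lit 5) [] [l212] (nat_lit 0) (nat_lit 2) (nat_lit 1) (nat_lit 0) (nat_lit 4903168) (nat_lit 0) w3575 = true := by decide +kernel
theorem cw3576 : wchk (nat_lit 5) [w1067] [] (nat_lit 3) (nat_lit 0) (nat_lit 3) (nat_lit 2) (nat_lit 89818112) (nat_lit 16777265) w3576 = true := by decide +kernel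
theorem cw3577 : wchk (nat_lit 5) [w220, w1528] [] (nat_lit 19) (nat_lit 0) (nat_lit 2) (nat_lit 2) (nat_lit 21712896) (nat_lit 88771588) w3577 = true := by decide +kernel
theorem cw3578 : wchk (nat_lit 5) [w220, w1528] [] (nat_lit 19) (nat_lit 0) (nat_lit 4) (nat_lit 2) (nat_lit 9269248) (nat_lit 84571140) w3578 = true := by decide +kernel
theorem cw3579 : wchk (nat_lit 5) [w1019] [] (nat_lit 3) (nat_lit 0) (nat_lit 3) (nat_lit 2) (nat_lit 22687744) (nat_lit 16777265) w3579 = true := by decide +kernel
theorem cw3580 : wchk (nat_lit 5) [w619, w16] [] (nat_lit 3) (nat_lit 1) (nat_lit 2) (nat_lit 2) (nat_lit 88893440) (nat_lit 22307844) w3580 = true := by decide +kernel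
theorem cw3581 : wchk (nat_lit 5) [w267] [] (nat_lit 3) (nat_lit 0) (nat_lit 3) (nat_lit 2) (nat_lit 22250496) (nat_lit 16777265) w3581 = true := by decide +kernel
theorem cw3582 : wchk (nat_lit 5) [] [l90] (nat_lit 3) (nat_lit 1) (nat_lit 2) (nat_lit 0) (nat_lit 5428224) (nat_lit 0) w3582 = true := by decide +kernel
theorem cw3583 : wchk (nat_lit 5) [] [l64] (nat_lit 1) (nat_lit 1) (nat_lit 4) (nat_lit 0) (nat_lit 2673920) (nat_lit 0) w3583 = true := by decide +kernel
theorem cl832 : lchk (nat_lit 5) [w1529, w44, w8, w11, w918, w500, w3583, w871] (nat_lit 22250496) (.nod (nat_lit 928455656653333712349429786) .nil (.nod (nat_lit 285096570277066901818998857261115089951029466991235138741124202586) (.opn (nat_lit 7861822254245746240254298586047526297445052563672152352574811867136)) .nil .dup) .nil) .nil (.nod (nat_lit 618971827423609361019175002) (.nod (nat_lit 1133264231262483996187901231678573555824600927059852691060404781466) .nil (.nod (nat_lit 1134794086497432438450507230146871591584262766887671742657854629928) .nil (.dwn (nat_lit 1139671495896638871592762238188785807829552030802643867307357444172863848991631033698304) (nat_lit 4921197568)) .dup)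 (.dwn (nat_lit 1134794086497432438450507230146871591585121747346883515180481962040) (nat_lit 626230272))) .nil (.nod (nat_lit 1133264231262483996187901231678573555824600925879261070342993477978) .nil (.dwn (nat_lit 1134794086497432438450507230146871591607361562145190773418700761128) (nat_lit 626230272)) .dup)) .nil l832 = true := by decide +kernel
theorem cw3584 : wchk (nat_lit 5) [] [l832] (nat_lit 3) (nat_lit 2) (nat_lit 2) (nat_lit 0) (nat_lit 22597888) (nat_lit 0) w3584 = true := by decide +kernel
theorem cl833 : lchk (nat_lit 5) [w170, w6, w11, w860, w500, w870] (nat_lit 21712896) (.nod (nat_lit 928456837244954429760733274) .nil (.nod (nat_lit 1115086447672198532004078335117379553142826073273179213633350008922) (.opn (nat_lit 7855073114459858481096656473658780021478523656781125932975689998336)) .nil .dup) .nil) .nil (.nod (nat_lit 618971827423609361019175002) .nil (.nod (nat_lit 20919974274173279016852582313647270619707511376045447655479875525268007683765517156762) .nil (.dwn (nat_lit 20931595168249136070225291897702742541489522520092136463998173111908720059440749144096) (nat_lit 4922172436)) .dup) .dup) .nil l833 = true := by decide +kernel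
theorem cw3585 : wchk (nat_lit 5) [] [l833] (nat_lit 3) (nat_lit 1) (nat_lit 2) (nat_lit 0) (nat_lit 22597888) (nat_lit 0) w3585 = true := by decide +kernel
theorem cw3586 : wchk (nat_lit 5) [w2938] [] (nat_lit 3) (nat_lit 0) (nat_lit 3) (nat_lit 2) (nat_lit 21655552) (nat_lit 16777265) w3586 = true := by decide +kernel
theorem cw3587 : wchk (nat_lit 5) [w2381] [] (nat_lit 3) (nat_lit 0) (nat_lit 3) (nat_lit 2) (nat_lit 22687744) (nat_lit 16777265) w3587 = true := by decide +kernel
theorem cw3588 : wchk (nat_lit 5) [w2938] [] (nat_lit 3) (nat_lit 0) (nat_lit 3) (nat_lit 2) (nat_lit 13283328) (nat_lit 16777265) w3588 = true := by decide +kernel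
theorem cw3589 : wchk (nat_lit 5) [w448] [] (nat_lit 3) (nat_lit 0) (nat_lit 3) (nat_lit 2) (nat_lit 111903744) (nat_lit 16777265) w3589 = true := by decide +kernel
theorem cw3590 : wchk (nat_lit 5) [w448] [] (nat_lit 3) (nat_lit 0) (nat_lit 3) (nat_lit 2) (nat_lit 110986240) (nat_lit 16777265) w3590 = true := by decide +kernel
theorem cl834 : lchk (nat_lit 5) [w3571, w342, w495, w1599, w16, w1528, w1448, w3572, w958, w3573, w284, w2934, w3574, w1334, w2554, w3575, w3576, w3577, w3578, w3579, w3580, w815, w762, w3589, w2116, w3590, w3019, w3581, w3245, w3582, w3584, w3585, w3586, w3587, w3588] (nat_lit 23282688) (.nod (nat_lit 822485273162392957294399504) .nil (.nod (nat_lit 1134793935846990788743324958217851571300158370788931384965486084186) (.opn (nat_lit 7874780602634650737836971441833919147300788064902923078205125855232)) .nil .dup) .nil) .nil (.nod (nat_lit 15181937699246348809654171617090187511717691482) (.nod (nat_lit 286536543692266341833318374239564849011083939581782134289901873192) .nil (.nod (nat_lit 7873251098917399477655332177095715222020586954233976307953210656832) .nil (.nod (nat_lit 1139910543570017384374803993108758122813640482674334236669062404917119625983525807939616)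 (.dwn (nat_lit 20800462943029660226366800716832047159086704841408852570016889948344643504563015731288) (nat_lit 39281968128)) .nil .nil) .dup) (.nod (nat_lit 284287276104526968261990985855215200103130893001006816482283772016) (.dwn (nat_lit 1139910550054374381726021504772262804629740945501247534053496472988765779413085164439696) (nat_lit 4922229836)) .nil .nil)) (.nod (nat_lit 20933271837701292408735025205565668339106234813610665352574409356106888548928678430896) .nil (.dwn (nat_lit 145250788008303509048345961293191880992764755980654879062263050004057634786525237905608) (nat_lit 627262540)) .dup) (.nod (nat_lit 20827037690677981242481292755644503198185526349100321812275736137899832192098677197032) (.dwn (nat_lit 145264090203515091940751003287305560172925847822242134463777590116182245534224158722320) (nat_lit 627262464)) .nil .nil)) .nil l834 = true := by decide +kernel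
theorem cw3591 : wchk (nat_lit 5) [] [l834] (nat_lit 211) (nat_lit 1) (nat_lit 3) (nat_lit 0) (nat_lit 1230557440) (nat_lit 0) w3591 = true := by decide +kernel
theorem cw3592 : wchk (nat_lit 5) [w2027] [] (nat_lit 3) (nat_lit 0) (nat_lit 3) (nat_lit 2) (nat_lit 22250496) (nat_lit 16777265) w3592 = true := by decide +kernel
theorem cl835 : lchk (nat_lit 5) [w15, w1, w149, w432, w638, w281, w153, w154, w152] (nat_lit 9147392) (.nod (nat_lit 7770684137517519845497558552509909551787411022084207003390552403174489506035949109248) (.nod (nat_lit 2813623876999550165310711816) (.nod (nat_lit 618973008015230078430478490) .nil (.opn (nat_lit 61617216554832321512635458946230601318462001399315206468343196287002)) .nil) .nil .nil) .nil (.nod (nat_lit 3885353763759772891684517665803308985880432783382128782536815004388360998967765368858) (.opn (nat_lit 142257812612431638007288024416617180068476499540225691696337737100008619210735836878880)) .nil .nil)) .nil .nil (.nod (nat_lit 3885353763759772891684517665803308985880432783382128782535886548731707665255415939072) .nil (.nod (nat_lit 45622083159502580999309929363282294469028988675620544286281957487733316660058152)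 (.dwn (nat_lit 142257816317778493601406278171755955878857974059974114028331486458078324488904000432192) (nat_lit 613127168)) .nil .nil) .dup) l835 = true := by decide +kernel
theorem cw3593 : wchk (nat_lit 5) [] [l835] (nat_lit 283) (nat_lit 1) (nat_lit 2) (nat_lit 0) (nat_lit 22597888) (nat_lit 0) w3593 = true := by decide +kernel
theorem cl836 : lchk (nat_lit 5) [w819, w61, w619, w1101, w39, w866, w3593, w878, w812, w359, w976, w888, w979, w1099, w983] (nat_lit 22307840) (.nod (nat_lit 928456837244954429760733338) .nil (.nod (nat_lit 285096570277066901818998857261115089951029466991235138741124202586) (.opn (nat_lit 7862542162489574267897780411368992566881482313740528503998718199808)) .nil .dup) .nil) .nil (.nod (nat_lit 618971827423609361019175002) .nil (.nod (nat_lit 20586316126857453756019984861549803573436253815176920409490506336167634835083345527194) .nil (.dwn (nat_lit 145131266487456037380766959758187352727025246413802602852203469556369615203039106730032) (nat_lit 626287644)) .dup) (.nod (nat_lit 20707501348443087190498432441661230002134268752992124378178300833140511731792306241562) (.dwn (nat_lit 142488559382516906127624666195474485749182021682020776257662102386565743476834151614576)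 (nat_lit 626287644)) .nil .nil)) .nil l836 = true := by decide +kernel
theorem cw3594 : wchk (nat_lit 5) [] [l836] (nat_lit 3) (nat_lit 1) (nat_lit 2) (nat_lit 0) (nat_lit 22597888) (nat_lit 0) w3594 = true := by decide +kernel
theorem cw3597 : wchk (nat_lit 5) [w91, w37] [] (nat_lit 3) (nat_lit 1) (nat_lit 2) (nat_lit 2) (nat_lit 613134336) (nat_lit 23225348) w3597 = true := by decide +kernel
theorem cw3598 : wchk (nat_lit 5) [] [l823] (nat_lit 26) (nat_lit 1) (nat_lit 2) (nat_lit 0) (nat_lit 22583552) (nat_lit 0) w3598 = true := by decide +kernel
theorem cl837 : lchk (nat_lit 5) [w1528, w2, w33, w812] (nat_lit 22121472) (.nod (nat_lit 928455656653333712349429786) .nil (.nod (nat_lit 1120215793909473228963608278116132544169457973401910279002646380634) .nil .nil (.dwn (nat_lit 210624796758573376969084454987368232309690826290263638365706590208) (nat_lit 626101248))) .nil) .nil (.nod (nat_lit 618971827423609361021462537) (.nod (nat_lit 7874060794824450475953528152328021170185558223003862338925299237274) .nil (.nod (nat_lit 61793954129125730068637415292030668703762151223723615339008179357712) (.opn (nat_lit 9097069039679116212744261275185231449329229209135440374443555036041440293955720351893520))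 .dup .dup) (.dwn (nat_lit 61793954129125730068637415292030668703762151223723615339008179357712) (nat_lit 4922172424))) .nil (.dwn (nat_lit 20707496716759517697902448591076564346385159487325401979494707460510956225971500351834) (nat_lit 89416716))) .nil l837 = true := by decide +kernel
theorem cw3599 : wchk (nat_lit 5) [] [l837] (nat_lit 26) (nat_lit 2) (nat_lit 2) (nat_lit 0) (nat_lit 22597888) (nat_lit 0) w3599 = true := by decide +kernel
theorem cw3600 : wchk (nat_lit 5) [w16] [] (nat_lit 3) (nat_lit 0) (nat_lit 3) (nat_lit 2) (nat_lit 89402368) (nat_lit 16777265) w3600 = true := by decide +kernel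
theorem cw3601 : wchk (nat_lit 5) [w50] [] (nat_lit 1) (nat_lit 1) (nat_lit 3) (nat_lit 2) (nat_lit 80578560) (nat_lit 16777265) w3601 = true := by decide +kernel
theorem cw3602 : wchk (nat_lit 5) [] [l824] (nat_lit 19) (nat_lit 3) (nat_lit 1) (nat_lit 0) (nat_lit 5820672) (nat_lit 0) w3602 = true := by decide +kernel
theorem cw3603 : wchk (nat_lit 5) [w50, w91] [] (nat_lit 19) (nat_lit 0) (nat_lit 2) (nat_lit 2) (nat_lit 13455360) (nat_lit 613134340) w3603 = true := by decide +kernel
theorem cw3604 : wchk (nat_lit 5) [] [l824] (nat_lit 19) (nat_lit 3) (nat_lit 1) (nat_lit 0) (nat_lit 5820672) (nat_lit 0) w3604 = true := by decide +kernel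
theorem cw3605 : wchk (nat_lit 5) [w16, w91] [] (nat_lit 19) (nat_lit 0) (nat_lit 2) (nat_lit 2) (nat_lit 23225344) (nat_lit 613134340) w3605 = true := by decide +kernel
theorem cw3606 : wchk (nat_lit 5) [] [l804] (nat_lit 211) (nat_lit 0) (nat_lit 1) (nat_lit 1) (nat_lit 156815616) (nat_lit 0) w3606 = true := by decide +kernel
theorem cw3607 : wchk (nat_lit 5) [] [l804] (nat_lit 211) (nat_lit 0) (nat_lit 1) (nat_lit 1) (nat_lit 156815616) (nat_lit 0) w3607 = true := by decide +kernel
theorem cw3608 : wchk (nat_lit 5) [] [l804] (nat_lit 211) (nat_lit 0) (nat_lit 1) (nat_lit 1) (nat_lit 156815616) (nat_lit 0) w3608 = true := by decide +kernel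
theorem cl838 : lchk (nat_lit 5) [w3536, w177, w1254, w3598, w3599, w1033, w103, w804, w37, w1408, w3600, w759, w3605, w1533, w3606, w3608, w3607, w284, w3335, w3601, w3602, w3603, w3604, w3570, w2368, w1528, w3416, w3591, w3592, w3594, w3597] (nat_lit 23282688) (.nod (nat_lit 858715268818968875374104584) .nil (.nod (nat_lit 285096620493880784912444967947430475612360795810078694453400305754) (.nod (nat_lit 61517310695210984123757435209921731732448905248) .nil .nil (.dwn (nat_lit 1139910535232986959287753815764554957178356359658442233300565657073667531313694426695680) (nat_lit 4922229760))) .nil (.dwn (nat_lit 1036886665770448444763852155982477128680947428279526596729833476144) (nat_lit 627262464))) .nil) .nil (.nod (nat_lit 61517321924529092512010841086072758447351267418) (.nod (nat_lit 292296010510146095310036758250900504342070245417466971042207844417) .nil (.nod (nat_lit 7862542614440899215739458881938076677705358930301879239137963706456) (.nod (nat_lit 61794674539537696927214655780686383404225520673402691509239120562288) .nil (.dwn (nat_lit 292296004233044359923355994074828714213465365833290175072695568448) (nat_lit 39281968188)) (.dwn (nat_lit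 292296004233044359923355994074828714213465365833290175072695568448) (nat_lit 39281968188))) (.dwn (nat_lit 1139910550054374381664519126437825407594823039905229302362053842670859723833006901069936) (nat_lit 4922229820)) .dup) (.nod (nat_lit 7862543066392224163169426567115929121220123899832988376357528832088) (.dwn (nat_lit 1139910553759721237320139758527401580440127390971980035934075617470066480814329886574768) (nat_lit 4922229760)) .nil .nil)) (.nod (nat_lit 20933274616711434105458510512319832530601928082180437253650500794185869741051456186568) (.dwn (nat_lit 145025047161820148589859456367850609184573247159944334149010153101741308071761000433896) (nat_lit 627262584)) .nil .nil) .dup) .nil l838 = true := by decide +kernel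
theorem cw3609 : wchk (nat_lit 5) [] [l838] (nat_lit 2) (nat_lit 3) (nat_lit 1) (nat_lit 0) (nat_lit 5820672) (nat_lit 0) w3609 = true := by decide +kernel
theorem cw3610 : wchk (nat_lit 5) [w1291, w799] [] (nat_lit 154) (nat_lit 0) (nat_lit 2) (nat_lit 2) (nat_lit 23282688) (nat_lit 627262468) w3610 = true := by decide +kernel
theorem cw3611 : wchk (nat_lit 5) [] [l295] (nat_lit 3) (nat_lit 0) (nat_lit 1) (nat_lit 1) (nat_lit 5562624) (nat_lit 0) w3611 = true := by decide +kernel
theorem cw3612 : wchk (nat_lit 5) [] [l295] (nat_lit 0) (nat_lit 0) (nat_lit 1) (nat_lit 1) (nat_lit 5562624) (nat_lit 0) w3612 = true := by decide +kernel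
theorem cl839 : lchk (nat_lit 5) [w3521, w37, w804, w1309, w3522, w3549, w3552, w3527, w3610, w2893, w3541, w3554, w284, w1213, w3555, w3556, w3557, w3523, w3524, w3525, w3526, w3538, w3539, w3540, w3542, w2346, w1690, w3543, w3544, w3545, w3546, w3547, w3536, w3271, w3562, w3563, w2004, w3609, w788, w3611, w1317, w3270, w3612] (nat_lit 23282688) .nil (.nod (nat_lit 292295658992448913640107611270592921618214204216259383384945805321) .nil (.nod (nat_lit 1134074134313892262734972452722137340661109791488459354098819041297) (.nod (nat_lit 292295658992448913655913964390880257140196988703566396749520390153) .nil (.nod (nat_lit 61794674087586371979374343233482968229594889637009084856823315908632) (.nod (nat_lit 493153820862430236483617503049908654342373524476152296772051978848312) .nil (.nod (nat_lit 292295652715347178269233200214808467011592109119389600780008114184) (.dwn (nat_lit 582013450669274478707963590952747637550800462515838451613829318784455290103600062508910664) (nat_lit 2513183130664)) .nil .nil) (.nod (nat_lit 292295652715347178269233200214808467011592109119389600780008114184) (.dwn (nat_lit 582013450669274478707963590952747637550800462515838451613829318784455290103600062508910664)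 (nat_lit 2513183130664)) .nil .nil)) (.nod (nat_lit 9097082327979277086657987279593035379439137907964950523178529955798246456959848632633440) (.dwn (nat_lit 5391914215538466495699380940665811935291945193002315369368506619885164071587568584832) (nat_lit 314159875112)) .nil .nil) .dup) (.nod (nat_lit 292296456184369307764371014751997603473016695894019484877579438216) (.nod (nat_lit 9097082334463634084440555748673375870880289355937989233292849991482858276341268688046136) (.dwn (nat_lit 72754456597695334425475945375178079379500916925534070720376466399259587062118726131730608) (nat_lit 314159875112)) .nil .nil) .nil .nil)) (.nod (nat_lit 145264084645494808549560664306208491959763535993334566237302123160050016048330686499016) (.dwn (nat_lit 1139910560244078234609846702598894438108305056046933281590085604681041219942822259886320) (nat_lit 4922229884)) .nil .nil) .dup) (.nod (nat_lit 292297209436577554166101744906968782863590716247734390497386907904) (.dwn (nat_lit 145264093908861947534869257042444335983312595771331721834062337647169426939546903726360) (nat_lit 627262612)) .nil .nil)) (.nod (nat_lit 279339162348556355128962560515833632653089071112883816606134077744)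 (.nod (nat_lit 61517408696532657353996836811153104491038329152) .nil .nil (.dwn (nat_lit 426892711861159907591962560306272182324756383744) (nat_lit 627262464))) .nil (.dwn (nat_lit 1134076086492531967992690106035946199919752971783926978557037152592) (nat_lit 90391552))) .nil l839 = true := by decide +kernel
theorem cw3613 : wchk (nat_lit 5) [] [l839] (nat_lit 9882) (nat_lit 1) (nat_lit 0) (nat_lit 0) (nat_lit 78539968768) (nat_lit 0) w3613 = true := by decide +kernel
theorem cw3614 : wchk (nat_lit 5) [w909, w37] [] (nat_lit 0) (nat_lit 1) (nat_lit 1) (nat_lit 2) (nat_lit 23282688) (nat_lit 23282692) w3614 = true := by decide +kernel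
theorem cw3615 : wchk (nat_lit 5) [w3515, w37] [] (nat_lit 0) (nat_lit 1) (nat_lit 1) (nat_lit 2) (nat_lit 23282688) (nat_lit 23282692) w3615 = true := by decide +kernel
theorem cw3616 : wchk (nat_lit 5) [w83, w37] [] (nat_lit 0) (nat_lit 1) (nat_lit 1) (nat_lit 2) (nat_lit 21777408) (nat_lit 23282692) w3616 = true := by decide +kernel
theorem cw3617 : wchk (nat_lit 5) [w3035, w37] [] (nat_lit 0) (nat_lit 1) (nat_lit 1) (nat_lit 2) (nat_lit 23282688) (nat_lit 23282692) w3617 = true := by decide +kernel
theorem cw3618 : wchk (nat_lit 5) [w710] [] (nat_lit 1) (nat_lit 2) (nat_lit 2) (nat_lit 2) (nat_lit 22121472) (nat_lit 22121472) w3618 = true := by decide +kernel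
theorem cw3619 : wchk (nat_lit 5) [w710] [] (nat_lit 1) (nat_lit 2) (nat_lit 3) (nat_lit 2) (nat_lit 22630400) (nat_lit 22114304) w3619 = true := by decide +kernel
theorem cw3620 : wchk (nat_lit 5) [w726, w710] [] (nat_lit 1) (nat_lit 2) (nat_lit 2) (nat_lit 2) (nat_lit 82592768) (nat_lit 22121476) w3620 = true := by decide +kernel
theorem cw3621 : wchk (nat_lit 5) [w177, w34] [] (nat_lit 0) (nat_lit 0) (nat_lit 1) (nat_lit 2) (nat_lit 22293504) (nat_lit 23282692) w3621 = true := by decide +kernel
theorem cl840 : lchk (nat_lit 5) [w128, w34, w15, w219, w1064, w1166, w1065, w581, w2795, w1192, w1067] (nat_lit 21784576) (.nod (nat_lit 292295658992448913655913966772856825586766233076315857287864731664) .nil (.nod (nat_lit 273488150278967722271221331729552505927359945228901126826406610976) (.nod (nat_lit 425873149666614585665155203609179033719570747392) .nil .nil (.dwn (nat_lit 3348876424328420422230981194070273748227113668608) (nat_lit 4920731648))) .nil (.dwn (nat_lit 7855972999764643515651008755310612858274060844366596122255572914176) (nat_lit 625764352))) (.dwn (nat_lit 273488150278967722271221331729552505927359945228901126826406610976) (nat_lit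 88893440))) .nil (.nod (nat_lit 15845389973138138662414894709060193507788621864) .nil (.nod (nat_lit 5391907731181465261965442511027196112875272455652161783567132892406493185048225206328) (.dwn (nat_lit 145234189907063875196763959321715111369885776766978291363725303383450078405927821281360) (nat_lit 625764352)) .nil .nil) (.nod (nat_lit 5391907731181465261965442511027196112875272455652161783567132892406493185048225206328) (.dwn (nat_lit 145234189907063875196763959321715111369885776766978291363725303383450078405927821281360) (nat_lit 625764352)) .nil .nil)) .dup l840 = true := by decide +kernel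
theorem cw3622 : wchk (nat_lit 5) [] [l840] (nat_lit 3) (nat_lit 1) (nat_lit 1) (nat_lit 0) (nat_lit 22597888) (nat_lit 0) w3622 = true := by decide +kernel
theorem cw3623 : wchk (nat_lit 5) [w50, w34] [] (nat_lit 0) (nat_lit 0) (nat_lit 1) (nat_lit 2) (nat_lit 9269248) (nat_lit 23282692) w3623 = true := by decide +kernel
theorem cw3624 : wchk (nat_lit 5) [w2994, w34] [] (nat_lit 0) (nat_lit 0) (nat_lit 1) (nat_lit 2) (nat_lit 23225344) (nat_lit 23282692) w3624 = true := by decide +kernel
theorem cw3625 : wchk (nat_lit 5) [w2997, w34] [] (nat_lit 0) (nat_lit 0) (nat_lit 1) (nat_lit 2) (nat_lit 23160832) (nat_lit 23282692) w3625 = true := by decide +kernel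
theorem cw3626 : wchk (nat_lit 5) [w2326, w34] [] (nat_lit 0) (nat_lit 0) (nat_lit 1) (nat_lit 2) (nat_lit 23211008) (nat_lit 23282692) w3626 = true := by decide +kernel
theorem cw3627 : wchk (nat_lit 5) [w1318, w34] [] (nat_lit 0) (nat_lit 0) (nat_lit 1) (nat_lit 2) (nat_lit 23282688) (nat_lit 23282692) w3627 = true := by decide +kernel
theorem cw3628 : wchk (nat_lit 5) [] [l735] (nat_lit 1) (nat_lit 2) (nat_lit 1) (nat_lit 0) (nat_lit 5806336) (nat_lit 0) w3628 = true := by decide +kernel
theorem cl841 : lchk (nat_lit 5) [w1065, w1188, w1, w795, w1108, w1166, w1070, w1071, w1106, w519, w1952, w111, w1109, w3274, w3120, w1124, w1125, w3628] (nat_lit 90391552) (.nod (nat_lit 292295658992448913655913966772856825586766233076315857287864731664) .nil (.nod (nat_lit 291575844905146916812721657040944632181349862126920242980558899232) .nil (.nod (nat_lit 61794673936935930330094004890534986331140902900445162754919889274880) (.nod (nat_lit 493153820611346167068150272480143523801861821584783080168637996632064) .nil (.nod (nat_lit 213806131762172985976897259863966186341375389632512) .nil (.dwn (nat_lit 582013450661863784996774219651251296196218174403363070812316933046713239355225082115295232)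 (nat_lit 2513183130624)) (.dwn (nat_lit 582013450661863784996774219651251296196218174403363070812316933046713239355225082115295232) (nat_lit 2513183130624))) (.dwn (nat_lit 3944026994006628060972600413197011823567629171059486419478382855489536) (nat_lit 314159875072))) .nil (.dwn (nat_lit 493153820611346167068150272480143523801861821584783080168637996632064) (nat_lit 39281968128))) (.dwn (nat_lit 61794673936935930330094004890534986331140902900445162754919889274880) (nat_lit 4922229760))) (.dwn (nat_lit 291575844905146916812721657040944632181349862126920242980558899232) (nat_lit 627262464))) (.nod (nat_lit 15845389973138138662414894709060193507788621864) .nil .nil (.nod (nat_lit 15845392695397074029922602563631005551610726448) (.dwn (nat_lit 20933259795324011728985495491764729289054316743244541093637195390413959171267851112520) (nat_lit 90269736)) .nil .nil)) .nil (.nod (nat_lit 14786817808049000350173022593889387341346951256) .nil (.nod (nat_lit 5391913289201748653142822842434476530489565005001106550407977066418817384588772722792) (.dwn (nat_lit 1637233784611487596030424732707212977232746957181190060446715882233206305117447988611200) (nat_lit 627262532))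 .nil .nil) (.nod (nat_lit 5391913289201748653142822842434476530489565005001106550407977066418817384588772722792) (.dwn (nat_lit 1637233784611487596030424732707212977232746957181190060446715882233206305117447988611200) (nat_lit 627262532)) .nil .nil)) l841 = true := by decide +kernel
theorem cw3629 : wchk (nat_lit 5) [] [l841] (nat_lit 33) (nat_lit 1) (nat_lit 1) (nat_lit 0) (nat_lit 22597888) (nat_lit 0) w3629 = true := by decide +kernel
theorem cl842 : lchk (nat_lit 5) [w1065, w34, w1, w795, w1108, w1166, w1070, w1071, w1106, w519, w1952, w111, w1109, w3274, w3120, w1124, w1125, w3628] (nat_lit 123945984) (.nod (nat_lit 292295658992448913655913966772856825586766233076315857287864731664) .nil (.nod (nat_lit 291575844905146916812721657040944632181349862126920242980558899232) (.nod (nat_lit 4811397623853868662440701545997914254086070765568) .nil .nil (.dwn (nat_lit 38425935282464635782947700436300503470922814359552) (nat_lit 56461837312))) .nil (.dwn (nat_lit 88754620604086570126222521614885519923060960318216282593277270984704) (nat_lit 7069713408))) (.dwn (nat_lit 291575844905146916812721657040944632181349862126920242980558899232) (nat_lit 895697920)))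 .nil (.nod (nat_lit 15845389973138138662414894709060193507788621864) .nil .nil (.nod (nat_lit 15845392695397074029922602563631005551610726448) (.dwn (nat_lit 20933259795324011728985495491764729289054316743244541093637195390413959171267851112520) (nat_lit 90269736)) .nil .nil)) (.nod (nat_lit 14786817808049000350173022593889387341346951256) .nil (.nod (nat_lit 5391913289201748653142822842434476530672252709667469415193341190822635804245494155368) (.dwn (nat_lit 2134557021021274238185806980854033817333203107978537777887179859126365802129981364144256) (nat_lit 627262532)) .nil .nil) (.nod (nat_lit 5391913289201748653142822842434476530672252709667469415193341190822635804245494155368) (.dwn (nat_lit 2134557021021274238185806980854033817333203107978537777887179859126365802129981364144256) (nat_lit 627262532)) .nil .nil)) l842 = true := by decide +kernel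
theorem cw3630 : wchk (nat_lit 5) [] [l842] (nat_lit 33) (nat_lit 1) (nat_lit 1) (nat_lit 0) (nat_lit 22597888) (nat_lit 0) w3630 = true := by decide +kernel
theorem cw3631 : wchk (nat_lit 5) [w3619, w710] [] (nat_lit 145) (nat_lit 2) (nat_lit 3) (nat_lit 2) (nat_lit 22307840) (nat_lit 22114308) w3631 = true := by decide +kernel
theorem cw3632 : wchk (nat_lit 5) [w3515, w34] [] (nat_lit 17) (nat_lit 1) (nat_lit 1) (nat_lit 2) (nat_lit 627262464) (nat_lit 23282692) w3632 = true := by decide +kernel
theorem cw3633 : wchk (nat_lit 5) [w710, w34] [] (nat_lit 1) (nat_lit 1) (nat_lit 1) (nat_lit 2) (nat_lit 22644736) (nat_lit 23282692) w3633 = true := by decide +kernel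
theorem cw3634 : wchk (nat_lit 5) [w2914, w3633] [] (nat_lit 0) (nat_lit 0) (nat_lit 2) (nat_lit 2) (nat_lit 13469696) (nat_lit 23282692) w3634 = true := by decide +kernel
theorem cl843 : lchk (nat_lit 5) [w581, w93, w1, w368, w141, w1128, w140, w2119, w3274, w12, w1129, w1070, w160, w255, w747, w871] (nat_lit 21777408) (.nod (nat_lit 342239509767225591331379209) (.nod (nat_lit 292205714401682557906883094867557225265443973797904671066487259546) (.nod (nat_lit 14825825056333881368172025843760296584489109544) .nil .nil (.dwn (nat_lit 3348871546040408243657168718679378565697902254080) (nat_lit 4920724480))) .nil (.dwn (nat_lit 273398312398930868095109751716782235878877527307050872684980635688) (nat_lit 625757184))) .nil (.nod (nat_lit 290766148998095918071787563640787025580096806769085958869886173530) .nil (.dwn (nat_lit 5391909583854893060157743882412658926253565931354415896694557719428312668180223264848) (nat_lit 625757184)) (.dwn (nat_lit 5391909583854893060157743882412658926253565931354415896694557719428312668180223264848) (nat_lit 625757184)))) .nil .nil (.nod (nat_lit 5378632399734585434792520944737920061600884925227104736711118366899587001007235661850)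 (.dwn (nat_lit 20694225090659493464847781081226947404134539733081958836057757821919208538105929164920) (nat_lit 88886272)) .nil .nil) l843 = true := by decide +kernel
theorem cw3635 : wchk (nat_lit 5) [] [l843] (nat_lit 211) (nat_lit 2) (nat_lit 2) (nat_lit 0) (nat_lit 5820672) (nat_lit 0) w3635 = true := by decide +kernel
theorem cw3636 : wchk (nat_lit 5) [w3635, w34] [] (nat_lit 17) (nat_lit 1) (nat_lit 1) (nat_lit 2) (nat_lit 23282688) (nat_lit 23282692) w3636 = true := by decide +kernel
theorem cw3638 : wchk (nat_lit 5) [w111, w177] [] (nat_lit 1) (nat_lit 2) (nat_lit 1) (nat_lit 2) (nat_lit 88893440) (nat_lit 22293508) w3638 = true := by decide +kernel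
theorem cw3639 : wchk (nat_lit 5) [w177, w726] [] (nat_lit 0) (nat_lit 0) (nat_lit 3) (nat_lit 2) (nat_lit 23275520) (nat_lit 120218628) w3639 = true := by decide +kernel
theorem cw3640 : wchk (nat_lit 5) [w177] [] (nat_lit 1) (nat_lit 0) (nat_lit 4) (nat_lit 2) (nat_lit 329) (nat_lit 19540992) w3640 = true := by decide +kernel
theorem cw3641 : wchk (nat_lit 5) [w3207, w177] [] (nat_lit 1) (nat_lit 0) (nat_lit 3) (nat_lit 2) (nat_lit 22307840) (nat_lit 23275524) w3641 = true := by decide +kernel
theorem cw3642 : wchk (nat_lit 5) [] [l178] (nat_lit 1) (nat_lit 2) (nat_lit 3) (nat_lit 0) (nat_lit 5705984) (nat_lit 0) w3642 = true := by decide +kernel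
theorem cl844 : lchk (nat_lit 5) [w1528, w69, w16, w3642, w3, w39, w1409, w721, w2207, w746, w258, w748, w747] (nat_lit 22114304) (.nod (nat_lit 22835974652895833409641926808217496582849822738) .nil (.nod (nat_lit 1120125805378994725508177928238961439067008483925341626018092474368) .nil .nil (.nod (nat_lit 7860112472166654674174931699993869107496101630189050830693454766080) (.opn (nat_lit 1139639955984204054458186274447526109816806056376002219078232160046035159938397471170560)) .dup .dup)) (.nod (nat_lit 60722141582449070489800822782720590749852950528) .nil (.dwn (nat_lit 144993483164630770085641772347416495349461789632611847905991088588504524673736218173440) (nat_lit 626094080)) .dup)) .nil .nil (.nod (nat_lit 15050221200658591948597796746621889311435612177) (.nod (nat_lit 1134794086497432438023663432514827101235811113108624349220407607698) .nil (.dwn (nat_lit 286446548884686103357646136645984979359469158157342971070840653864) (nat_lit 626803740)) (.dwn (nat_lit 286446548884686103357646136645984979359469158157342971070840653864) (nat_lit 626803740))) .nil (.nod (nat_lit 20707501348443087190562503974061041163840001321880016789510294196319429921483106812242)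 (.dwn (nat_lit 145157831045400505513044555511622783721448394633760734567607422503475790300641475725400) (nat_lit 626094080)) .nil .nil)) l844 = true := by decide +kernel
theorem cw3643 : wchk (nat_lit 5) [] [l844] (nat_lit 4) (nat_lit 2) (nat_lit 3) (nat_lit 0) (nat_lit 22597888) (nat_lit 0) w3643 = true := by decide +kernel
theorem cw3644 : wchk (nat_lit 5) [w69, w177] [] (nat_lit 1) (nat_lit 0) (nat_lit 4) (nat_lit 2) (nat_lit 9154560) (nat_lit 19605508) w3644 = true := by decide +kernel
theorem cw3646 : wchk (nat_lit 5) [] [] (nat_lit 0) (nat_lit 0) (nat_lit 4) (nat_lit 2) (nat_lit 33554437) (nat_lit 25165901) w3646 = true := by decide +kernel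
theorem cl845 : lchk (nat_lit 5) [w1528, w16, w235, w3646] (nat_lit 22630400) (.nod (nat_lit 421249380095687749938818081151522118337166987118564876015315714058) .nil (.nod (nat_lit 3310794472742113823759179776) .nil .nil (.nod (nat_lit 145113002832804813964028418929574582938018574533708669971008194290113295101425835048986) .nil .nil (.opn (nat_lit 1139759475652378098274792915223216263138930876128404104852117103265915294011267874988032)))) .nil) .nil .nil (.nod (nat_lit 284106702718905099195945772448022356994923234221996773457621377033) (.nod (nat_lit 2623828525391693008246258263841892602602541366969781865939338) .nil (.dwn (nat_lit 7855073214893486247283548700475928663536201730127954668487886413840) (nat_lit 625692680)) (.dwn (nat_lit 7855073214893486247283548700475928663536201730127954668487886413840) (nat_lit 625692680))) .nil (.dwn (nat_lit 20933256089977156133732449822005721484436420564931202090371791335474426772683342479690) (nat_lit 90391564))) l845 = true := by decide +kernel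
theorem cw3647 : wchk (nat_lit 5) [] [l845] (nat_lit 2257) (nat_lit 2) (nat_lit 3) (nat_lit 0) (nat_lit 22597888) (nat_lit 0) w3647 = true := by decide +kernel
theorem cl846 : lchk (nat_lit 5) [w1101, w410, w3647, w32] (nat_lit 90319872) .nil (.nod (nat_lit 1237943046104664289623146651) .nil .nil (.nod (nat_lit 618971827423609361019175002) .nil .nil (.dwn (nat_lit 5240843518889034756356725026849101729268544948114501766002213104572858629955860299802) (nat_lit 23282696)))) (.nod (nat_lit 290765948130840385698003120895525482935699942981400909074772525210) .nil .nil (.nod (nat_lit 11243874050723695677189152117078502022889098899807661629164191242240) (.nod (nat_lit 88753720718781785091668169333233687086265423130630812403997388068864) .nil (.dwn (nat_lit 708832494063246500402624053993295959700426743739366568686217167394816) (nat_lit 56461765632)) (.dwn (nat_lit 708832494063246500402624053993295959700426743739366568686217167394816) (nat_lit 56461765632))) (.dwn (nat_lit 1637217171688860539882113861493746736868660939017499005851876571907447099407127709767680) (nat_lit 7069641728)) (.dwn (nat_lit 1637217171688860539882113861493746736868660939017499005851876571907447099407127709767680)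 (nat_lit 7069641728)))) .nil l846 = true := by decide +kernel
theorem cw3650 : wchk (nat_lit 5) [] [l101] (nat_lit 281) (nat_lit 1) (nat_lit 4) (nat_lit 0) (nat_lit 22205440) (nat_lit 0) w3650 = true := by decide +kernel
theorem cw3654 : wchk (nat_lit 5) [w1026, w177] [] (nat_lit 1) (nat_lit 2) (nat_lit 3) (nat_lit 2) (nat_lit 86721536) (nat_lit 23211012) w3654 = true := by decide +kernel
theorem cl847 : lchk (nat_lit 5) [w1528, w16, w86, w745] (nat_lit 22630400) (.nod (nat_lit 421249380095687749938818081151522118336238541533833806548431798282) .nil (.nod (nat_lit 3310794472742113823759179776) .nil .nil .nil) (.nod (nat_lit 1126604979573446974360236497714606934478074524934502650177558414170) (.opn (nat_lit 145113002832804813971895010575935689861410940212510910303468974977341607468540418498560)) .dup .dup)) .nil .nil (.nod (nat_lit 284106702718905099195945772448022356994923234221996773457621377033) (.nod (nat_lit 2623828525391684539538269121837754604413527328754499969876362) .nil (.dwn (nat_lit 7698853125982804248647992605717748195830945965290329809500212224016) (nat_lit 613249032)) (.dwn (nat_lit 7698853125982804248647992605717748195830945965290329809500212224016)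 (nat_lit 613249032))) .nil (.dwn (nat_lit 20694216753629068376959156657689546306469953187433454645588801355244246611077294457162) (nat_lit 89359372))) l847 = true := by decide +kernel
theorem cw3655 : wchk (nat_lit 5) [] [l847] (nat_lit 4) (nat_lit 2) (nat_lit 3) (nat_lit 0) (nat_lit 22597888) (nat_lit 0) w3655 = true := by decide +kernel
theorem cw3656 : wchk (nat_lit 5) [w16, w3655] [] (nat_lit 4) (nat_lit 0) (nat_lit 2) (nat_lit 2) (nat_lit 85144576) (nat_lit 895697924) w3656 = true := by decide +kernel
theorem cw3657 : wchk (nat_lit 5) [w2194, w177] [] (nat_lit 145) (nat_lit 2) (nat_lit 4) (nat_lit 2) (nat_lit 15369216) (nat_lit 19540996) w3657 = true := by decide +kernel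
theorem cw3658 : wchk (nat_lit 5) [] [l107] (nat_lit 162) (nat_lit 3) (nat_lit 1) (nat_lit 0) (nat_lit 5428224) (nat_lit 0) w3658 = true := by decide +kernel
theorem cw3659 : wchk (nat_lit 5) [w3658, w177] [] (nat_lit 1) (nat_lit 2) (nat_lit 3) (nat_lit 2) (nat_lit 23282688) (nat_lit 23211012) w3659 = true := by decide +kernel
theorem cw3660 : wchk (nat_lit 5) [w220, w3565] [] (nat_lit 20) (nat_lit 0) (nat_lit 2) (nat_lit 2) (nat_lit 21712896) (nat_lit 90391556) w3660 = true := by decide +kernel
theorem cw3661 : wchk (nat_lit 5) [w220, w3650] [] (nat_lit 20) (nat_lit 0) (nat_lit 4) (nat_lit 2) (nat_lit 9269248) (nat_lit 86721540) w3661 = true := by decide +kernel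
theorem cw3662 : wchk (nat_lit 5) [w220, w3565] [] (nat_lit 20) (nat_lit 0) (nat_lit 2) (nat_lit 2) (nat_lit 9154560) (nat_lit 90391556) w3662 = true := by decide +kernel
theorem cw3663 : wchk (nat_lit 5) [w1533, w177] [] (nat_lit 1) (nat_lit 2) (nat_lit 3) (nat_lit 2) (nat_lit 89416704) (nat_lit 23211012) w3663 = true := by decide +kernel
theorem cw3664 : wchk (nat_lit 5) [w10, w16] [] (nat_lit 34) (nat_lit 1) (nat_lit 4) (nat_lit 2) (nat_lit 85632000) (nat_lit 13935620) w3664 = true := by decide +kernel
theorem cw3665 : wchk (nat_lit 5) [w3664, w177] [] (nat_lit 1) (nat_lit 2) (nat_lit 4) (nat_lit 2) (nat_lit 23282688) (nat_lit 19540996) w3665 = true := by decide +kernel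
theorem cw3666 : wchk (nat_lit 5) [] [l671] (nat_lit 4) (nat_lit 0) (nat_lit 3) (nat_lit 0) (nat_lit 5428224) (nat_lit 0) w3666 = true := by decide +kernel
theorem cw3667 : wchk (nat_lit 5) [w3208, w177] [] (nat_lit 1) (nat_lit 2) (nat_lit 3) (nat_lit 2) (nat_lit 22823936) (nat_lit 23211012) w3667 = true := by decide +kernel
theorem cw3668 : wchk (nat_lit 5) [w162, w3565] [] (nat_lit 20) (nat_lit 0) (nat_lit 2) (nat_lit 2) (nat_lit 21712896) (nat_lit 90391556) w3668 = true := by decide +kernel
theorem cw3669 : wchk (nat_lit 5) [w69, w16] [] (nat_lit 34) (nat_lit 1) (nat_lit 2) (nat_lit 2) (nat_lit 84757504) (nat_lit 22307844) w3669 = true := by decide +kernel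
theorem cl848 : lchk (nat_lit 5) [w2219, w341, w342, w352, w1025, w3669, w3598, w1533, w3599, w3655, w3640, w16, w3650, w1408, w3654, w3656, w3667, w284, w2934, w3668, w24, w3430, w3657, w3659, w3660, w3661, w3662, w3663, w3665, w3666, w721, w2278, w2157, w2192, w2280] (nat_lit 22709248) (.nod (nat_lit 15528290363310789894570782957456667222241464328) .nil (.nod (nat_lit 279877335942941467590930785757821765143280498028529919102372186152) .nil .nil (.nod (nat_lit 7867581520196370460975650739799070831272646779263565629902890010624) (.nod (nat_lit 61787474854497650053659186637320323636776605399761401240680825948160) .nil (.dwn (nat_lit 493146621528907886791715454226928861107497524084099318654398933305344) (nat_lit 39281394688)) .dup) (.dwn (nat_lit 1139777735601682466151333905527765843240906892029226261343098900808714570247421503539200) (nat_lit 4921656320)) (.dwn (nat_lit 1139777735601682466151333905527765843240906892029226261343098900808714570247421503539200) (nat_lit 4921656320)))) (.nod (nat_lit 279877335942941467606776178453218839172460479685808917957181098048) (.opn (nat_lit 145131262782109181786649515899822883447737556985829759278330832186853336545639989053440))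 (.dwn (nat_lit 145131262782109181786649515899822883447737556985829759278330832186853336545639989053440) (nat_lit 626689024)) .dup)) .nil .nil (.nod (nat_lit 609580441027853190684857974385484002146539489360) (.nod (nat_lit 286536895209963523442208285472113883215681816205899615743073749088) .nil (.nod (nat_lit 7862542815308154748113243335572373961639252249164290682655124916344) .nil (.nod (nat_lit 1139910550054374381664510937180250980481817445251313398192135864382425213332826020339800) (.dwn (nat_lit 20800469427386657516073744788324904827263667418388014093090349414683248521990963021968) (nat_lit 39281394688)) .nil .nil) .dup) (.nod (nat_lit 286447352353708232441736615683857670053881851220881242869425588392) (.dwn (nat_lit 1139910556538731379015728448843755662297918220288659475005293913955160201507574203713744) (nat_lit 4922229868)) .nil .nil)) (.nod (nat_lit 20933279248395003598106327706243302293586263062680668413374861908672369901981067282672) (.dwn (nat_lit 145131291498547312641065982552365209861328980228582593565481070853885575040924766243080) (nat_lit 626689024)) .nil .nil) (.nod (nat_lit 20933279248395003598106327706243302293586263062680668413374861908672369901981067282672)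 (.dwn (nat_lit 145131291498547312641065982552365209861328980228582593565481070853885575040924766243080) (nat_lit 626689024)) .nil .nil)) l848 = true := by decide +kernel
theorem cw3670 : wchk (nat_lit 5) [] [l848] (nat_lit 212) (nat_lit 1) (nat_lit 3) (nat_lit 0) (nat_lit 1230557440) (nat_lit 0) w3670 = true := by decide +kernel
theorem cw3671 : wchk (nat_lit 5) [w126, w177] [] (nat_lit 1) (nat_lit 2) (nat_lit 3) (nat_lit 2) (nat_lit 88836096) (nat_lit 23211012) w3671 = true := by decide +kernel
theorem cw3672 : wchk (nat_lit 5) [w495, w726] [] (nat_lit 0) (nat_lit 0) (nat_lit 3) (nat_lit 2) (nat_lit 23225344) (nat_lit 120218628) w3672 = true := by decide +kernel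
theorem cw3673 : wchk (nat_lit 5) [w497, w726] [] (nat_lit 0) (nat_lit 0) (nat_lit 3) (nat_lit 2) (nat_lit 22114304) (nat_lit 120218628) w3673 = true := by decide +kernel
theorem cw3674 : wchk (nat_lit 5) [w495, w726] [] (nat_lit 0) (nat_lit 0) (nat_lit 3) (nat_lit 2) (nat_lit 22307840) (nat_lit 120218628) w3674 = true := by decide +kernel
theorem cw3675 : wchk (nat_lit 5) [w1640, w177] [] (nat_lit 1) (nat_lit 2) (nat_lit 3) (nat_lit 2) (nat_lit 89932800) (nat_lit 23211012) w3675 = true := by decide +kernel
theorem cw3676 : wchk (nat_lit 5) [w16, w763] [] (nat_lit 4) (nat_lit 0) (nat_lit 2) (nat_lit 2) (nat_lit 89337856) (nat_lit 895640580) w3676 = true := by decide +kernel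
theorem cl849 : lchk (nat_lit 5) [w3639, w177, w763, w3640, w3565, w3671, w1501, w3675, w1408, w3676, w3638, w1528, w2378, w1144, w3673, w3672, w3674, w3598, w3599, w3641, w3643, w3644, w3670] (nat_lit 23282688) (.nod (nat_lit 15528290363310789894607012805539290550652784648) .nil (.nod (nat_lit 279877241786415436790719328220980417025941131156918809362976495625) .nil .nil (.nod (nat_lit 7874780703068278503596970951345390011054608906756121510998613248024) (.nod (nat_lit 1134074228470418293535144891781375699366741849741971489217215404080) .nil (.dwn (nat_lit 7874061045908519891846626998916271988523672669999419616233352644680) (nat_lit 39281968128)) (.dwn (nat_lit 7874061045908519891846626998916271988523672669999419616233352644680) (nat_lit 39281968128))) (.nod (nat_lit 20800462943029660226358791737619460351553403705062883149527488965118132107142164031576) (.dwn (nat_lit 145247474501877894015971781783311089452668469239255323978473490737191025628495763261568) (nat_lit 627205120)) .nil .nil) .dup)) (.nod (nat_lit 291576547940541280120967242038726191217588667847724532111788116112) (.dwn (nat_lit 145264080013811239056925805460673926694727385867295535721683641053324817600789188348072)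 (nat_lit 627262552)) .nil .nil)) .nil .nil (.nod (nat_lit 609541395667943214521806331896511183207149291544) (.nod (nat_lit 1134794186931060204272072825066898419097147810027988820875405365296) .nil (.dwn (nat_lit 7862542564224085332646012763084984485783183552730165363155779618888) (nat_lit 56461779968)) (.dwn (nat_lit 7862542564224085332646012763084984485783183552730165363155779618888) (nat_lit 56461779968))) (.nod (nat_lit 20694223237986065667800892694019449851972393071730628573796725229702427142706541291608) (.dwn (nat_lit 145262414460399649500770832564541492312028257479042346306338371083690285459816463108224) (nat_lit 627262464)) .nil .nil) .dup) l849 = true := by decide +kernel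
theorem cw3677 : wchk (nat_lit 5) [] [l849] (nat_lit 1305) (nat_lit 1) (nat_lit 0) (nat_lit 0) (nat_lit 156815616) (nat_lit 0) w3677 = true := by decide +kernel
theorem cw3679 : wchk (nat_lit 5) [w281] [] (nat_lit 2) (nat_lit 0) (nat_lit 2) (nat_lit 2) (nat_lit 23275520) (nat_lit 16777297) w3679 = true := by decide +kernel
theorem cw3680 : wchk (nat_lit 5) [w154] [] (nat_lit 2) (nat_lit 0) (nat_lit 2) (nat_lit 2) (nat_lit 22121472) (nat_lit 16777297) w3680 = true := by decide +kernel
theorem cw3681 : wchk (nat_lit 5) [w431] [] (nat_lit 2) (nat_lit 0) (nat_lit 2) (nat_lit 2) (nat_lit 7032832) (nat_lit 16777297) w3681 = true := by decide +kernel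
theorem cw3682 : wchk (nat_lit 5) [w429] [] (nat_lit 2) (nat_lit 0) (nat_lit 2) (nat_lit 2) (nat_lit 15290368) (nat_lit 16777297) w3682 = true := by decide +kernel
theorem cw3683 : wchk (nat_lit 5) [] [l59] (nat_lit 2) (nat_lit 3) (nat_lit 3) (nat_lit 0) (nat_lit 5431808) (nat_lit 0) w3683 = true := by decide +kernel
theorem cw3684 : wchk (nat_lit 5) [] [l176] (nat_lit 34) (nat_lit 0) (nat_lit 3) (nat_lit 1) (nat_lit 5705984) (nat_lit 0) w3684 = true := by decide +kernel
theorem cw3685 : wchk (nat_lit 5) [] [] (nat_lit 2) (nat_lit 0) (nat_lit 2) (nat_lit 2) (nat_lit 465) (nat_lit 16777297) w3685 = true := by decide +kernel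
theorem cl850 : lchk (nat_lit 5) [w1330, w15, w218, w193, w3679, w141, w1707, w3680, w3681, w3682, w3683, w830, w3684, w3685] (nat_lit 22823936) (.nod (nat_lit 22835974993178200329778796729303182294078455827) .nil .nil (.nod (nat_lit 11417993111248154360374045510332613771214716946) (.nod (nat_lit 11417993111248154383499020829762910896743514130) .nil (.opn (nat_lit 61788914670985306108946150287963256175649464899898153543528638613504)) .dup) .nil .nil)) (.nod (nat_lit 11418036667391120241335192360227862676164837522) .nil (.nod (nat_lit 14786793307718582045079267676373751386282332176) .nil (.nod (nat_lit 145264066118760530571107573025184797252533081666853239059906842886642289190123798439976) (.dwn (nat_lit 1139897260827876793420905131875287188704998292487994464035856668970630705349526263859264) (nat_lit 4922229800)) .nil .nil) .dup) (.nod (nat_lit 14786793307718582045079267676373751386282332176) (.opn (nat_lit 145157832898073933302248608672130546548848914825961716455709970605109397305161898436648)) .nil (.dwn (nat_lit 145157832898073933302248608672130546548849939285500086503783146772399662639493906335840) (nat_lit 626803712)))) .nil .nil l850 = true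 := by decide +kernel
theorem cw3686 : wchk (nat_lit 5) [] [l850] (nat_lit 3) (nat_lit 3) (nat_lit 1) (nat_lit 0) (nat_lit 5820672) (nat_lit 0) w3686 = true := by decide +kernel
theorem cw3688 : wchk (nat_lit 5) [] [l176] (nat_lit 1) (nat_lit 3) (nat_lit 1) (nat_lit 0) (nat_lit 22483200) (nat_lit 0) w3688 = true := by decide +kernel
theorem cl852 : lchk (nat_lit 5) [w915, w802, w2766, w290, w278, w1475, w891] (nat_lit 895697920) .nil (.nod (nat_lit 290765853974314354897791663358684134819775255879784916721030135808) .nil (.nod (nat_lit 1237941865513043572211843163) .nil .nil (.nod (nat_lit 618973008015230078430478362) .nil (.dwn (nat_lit 1133264231262483996249330730467306390248895997429444382520810406298) (nat_lit 4918502412)) .dup)) (.nod (nat_lit 58980603651137061106818537748428132386668020570) (.opn (nat_lit 426804916288235370078293732822321910708679772208)) .nil .nil)) .nil .nil l852 = true := by decide +kernel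
theorem cw3694 : wchk (nat_lit 5) [] [l852] (nat_lit 282) (nat_lit 1) (nat_lit 0) (nat_lit 0) (nat_lit 1230557440) (nat_lit 0) w3694 = true := by decide +kernel
theorem cl853 : lchk (nat_lit 5) [w142, w2204, w2445, w1049, w78, w861, w3694] (nat_lit 21784576) .nil (.nod (nat_lit 421249781830198814686386966642045203626889172084582252246640623690) .nil (.nod (nat_lit 670689524937031081671544848) .nil .nil (.dwn (nat_lit 142488552898159908830043661228723549838445902503424870784065592572717814498815794741274) (nat_lit 615277580))) (.nod (nat_lit 14738015872114667038693264616304291559319274330) (.opn (nat_lit 425873149666614585665155203609179033719570747392)) .nil .nil)) .nil (.nod (nat_lit 11665123468481993839448054781244760680438293149434118315609222973488) .nil (.dwn (nat_lit 20586314274184025957826966507049921422653425395045946838911070049615865298884113727882) (nat_lit 88893440)) .dup) l853 = true := by decide +kernel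
theorem cw3695 : wchk (nat_lit 5) [] [l853] (nat_lit 26) (nat_lit 2) (nat_lit 2) (nat_lit 0) (nat_lit 156815616) (nat_lit 0) w3695 = true := by decide +kernel
theorem cw3696 : wchk (nat_lit 5) [] [l450] (nat_lit 19) (nat_lit 3) (nat_lit 3) (nat_lit 0) (nat_lit 5657600) (nat_lit 0) w3696 = true := by decide +kernel
theorem cw3699 : wchk (nat_lit 5) [w726] [] (nat_lit 1) (nat_lit 1) (nat_lit 3) (nat_lit 2) (nat_lit 15369216) (nat_lit 337) w3699 = true := by decide +kernel
theorem cw3701 : wchk (nat_lit 5) [] [] (nat_lit 0) (nat_lit 2) (nat_lit 1) (nat_lit 2) (nat_lit 33554449) (nat_lit 209) w3701 = true := by decide +kernel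
theorem cw3707 : wchk (nat_lit 5) [w2448] [] (nat_lit 17) (nat_lit 1) (nat_lit 3) (nat_lit 2) (nat_lit 626667520) (nat_lit 337) w3707 = true := by decide +kernel
theorem cw3709 : wchk (nat_lit 5) [w3688] [] (nat_lit 17) (nat_lit 1) (nat_lit 3) (nat_lit 2) (nat_lit 627262464) (nat_lit 337) w3709 = true := by decide +kernel
theorem cl856 : lchk (nat_lit 5) [w3, w67, w3019, w2452, w11, w12, w13] (nat_lit 23275520) .nil .nil (.nod (nat_lit 7010799494047000018865942166618608318501879962) (.nod (nat_lit 1134703947316512285349407032581102465641219991701596099687792136192) .nil (.opn (nat_lit 7874690614104172234381536213668735863621234346144376059277137563648)) .dup) .nil (.nod (nat_lit 61512424240421999447421836107740160482102104064) .nil (.dwn (nat_lit 145262402418022368812011727157272192424674065432296813781371995157572209948964403171328) (nat_lit 627255296)) .dup)) (.nod (nat_lit 7729185766884302127515) (.nod (nat_lit 7710739022810592575898) .nil .nil .nil) .nil (.nod (nat_lit 20827015458596847677770870339507063301249003197701080762770607616449077900891299775066) (.opn (nat_lit 20933257016313870033396715136663355044716367171464071300986053622331382727227857063984))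 .nil .nil)) l856 = true := by decide +kernel
theorem cw3716 : wchk (nat_lit 5) [] [l856] (nat_lit 4) (nat_lit 2) (nat_lit 2) (nat_lit 0) (nat_lit 22597888) (nat_lit 0) w3716 = true := by decide +kernel
theorem cw3719 : wchk (nat_lit 5) [] [l823] (nat_lit 2) (nat_lit 3) (nat_lit 2) (nat_lit 0) (nat_lit 5820672) (nat_lit 0) w3719 = true := by decide +kernel
theorem cw3721 : wchk (nat_lit 5) [] [l111] (nat_lit 3) (nat_lit 0) (nat_lit 4) (nat_lit 0) (nat_lit 5413888) (nat_lit 0) w3721 = true := by decide +kernel
theorem cw3727 : wchk (nat_lit 5) [w177] [] (nat_lit 0) (nat_lit 0) (nat_lit 3) (nat_lit 2) (nat_lit 21727232) (nat_lit 337) w3727 = true := by decide +kernel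
theorem cw3732 : wchk (nat_lit 5) [w1063, w3618] [] (nat_lit 1) (nat_lit 1) (nat_lit 1) (nat_lit 2) (nat_lit 23282688) (nat_lit 23282692) w3732 = true := by decide +kernel
theorem cw3733 : wchk (nat_lit 5) [w1184, w34] [] (nat_lit 1) (nat_lit 1) (nat_lit 1) (nat_lit 2) (nat_lit 90391552) (nat_lit 23282692) w3733 = true := by decide +kernel
theorem cw3734 : wchk (nat_lit 5) [w368, w34] [] (nat_lit 1) (nat_lit 1) (nat_lit 1) (nat_lit 2) (nat_lit 88764416) (nat_lit 23282692) w3734 = true := by decide +kernel
theorem cw3735 : wchk (nat_lit 5) [w3734, w16] [] (nat_lit 0) (nat_lit 1) (nat_lit 2) (nat_lit 2) (nat_lit 23282688) (nat_lit 23225348) w3735 = true := by decide +kernel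
theorem cw3736 : wchk (nat_lit 5) [w1065, w34] [] (nat_lit 1) (nat_lit 1) (nat_lit 1) (nat_lit 2) (nat_lit 23282688) (nat_lit 23282692) w3736 = true := by decide +kernel
theorem cw3737 : wchk (nat_lit 5) [w536, w34] [] (nat_lit 1) (nat_lit 1) (nat_lit 1) (nat_lit 2) (nat_lit 21662720) (nat_lit 23282692) w3737 = true := by decide +kernel
theorem cw3738 : wchk (nat_lit 5) [w80, w69] [] (nat_lit 2) (nat_lit 2) (nat_lit 3) (nat_lit 2) (nat_lit 17648640) (nat_lit 88893444) w3738 = true := by decide +kernel
theorem cw3739 : wchk (nat_lit 5) [w75, w1] [] (nat_lit 2) (nat_lit 2) (nat_lit 1) (nat_lit 2) (nat_lit 21777408) (nat_lit 90334212) w3739 = true := by decide +kernel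
theorem cw3740 : wchk (nat_lit 5) [w69] [] (nat_lit 2) (nat_lit 2) (nat_lit 3) (nat_lit 2) (nat_lit 88886272) (nat_lit 88893440) w3740 = true := by decide +kernel
theorem cw3741 : wchk (nat_lit 5) [w112, w69] [] (nat_lit 2) (nat_lit 2) (nat_lit 3) (nat_lit 2) (nat_lit 88771584) (nat_lit 88893444) w3741 = true := by decide +kernel
theorem cl857 : lchk (nat_lit 5) [w1166, w83, w1, w69, w3688, w3565, w80, w3738, w1355, w3739, w521, w3740, w627, w111, w370, w721, w267, w3741, w114] (nat_lit 23225344) .nil (.nod (nat_lit 448709115812451246028685262434219326678465773658) .nil (.nod (nat_lit 1134074134313892262734972452381854973740132718085848012963748419608) (.nod (nat_lit 7855883061450978894863151366453142553165733668074121851421713236059) .nil .nil (.nod (nat_lit 181596109689249251529851193344) .nil (.dwn (nat_lit 9097069037826442784454049047604559722410262883758994728625467591471179640598758260998554) (nat_lit 39281910784)) (.dwn (nat_lit 9097069037826442784454049047604559722410262883758994728625467591471179640598758260998554) (nat_lit 39281910784)))) .nil (.nod (nat_lit 7862542363356829800272228314895205072380352305660351769076372656176) (.opn (nat_lit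 1139897255269856510029727031284118383078681110909131454633103784361882251479345965352960)) .dup .dup)) (.nod (nat_lit 8716559278823349619289463144340337722230099227550070141015463335984) (.dwn (nat_lit 145264068897770672274565284929306975042053999820028795875483011521865994176967413770320) (nat_lit 627262508)) .nil .nil)) .nil (.nod (nat_lit 192684416856573924354127745120) .nil (.nod (nat_lit 20558106394909101835213784927607444731207358052809766235505051805071007555801143312794) (.dwn (nat_lit 145264076308464383462788654114134665158334840254509427699271598957693856226334148483216) (nat_lit 627262508)) .nil .nil) (.nod (nat_lit 20558106394909101835213784927607444731207358052809766235505051805071007555801143312794) (.dwn (nat_lit 145264076308464383462788654114134665158334840254509427699271598957693856226334148483216) (nat_lit 627262508)) .nil .nil)) l857 = true := by decide +kernel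
theorem cw3742 : wchk (nat_lit 5) [] [l857] (nat_lit 2193) (nat_lit 1) (nat_lit 2) (nat_lit 0) (nat_lit 22597888) (nat_lit 0) w3742 = true := by decide +kernel
theorem cl858 : lchk (nat_lit 5) [w128, w3035, w15, w219, w1064, w3742, w1065, w581, w2795, w1192, w1067] (nat_lit 21784576) (.nod (nat_lit 292295658992448913655913966772856825586766233076315857287864731664) (.nod (nat_lit 273488150278967722271221331729552505927359945228901126826406610976) (.nod (nat_lit 425873149666614585665155203609179033719570747392) .nil .nil (.dwn (nat_lit 3348876424328420422230981194070273748227113668608) (nat_lit 4920731648))) .nil (.dwn (nat_lit 7855972999764643515651008755310612858274060844366596122255572914176) (nat_lit 625764352))) .nil (.nod (nat_lit 273488150278967722271221331729552505927359945228901126826406610976) (.opn (nat_lit 144917123376630686504528498919691249571725414825999621300405415820761241005108661637120)) (.dwn (nat_lit 144917123376630686504528498919691249571725414825999621300405415820761241005108661637120) (nat_lit 625764352)) .dup)) .nil (.nod (nat_lit 15845389973138138662414894709060193507788621864) .nil (.nod (nat_lit 5391907731181465261965442511027196112875272455652161783567132892406493185048225206328)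 (.dwn (nat_lit 145234189907063875196763959321715111369885776766978291363725303383450078405927821281360) (nat_lit 625764352)) .nil .nil) (.nod (nat_lit 5391907731181465261965442511027196112875272455652161783567132892406493185048225206328) (.dwn (nat_lit 145234189907063875196763959321715111369885776766978291363725303383450078405927821281360) (nat_lit 625764352)) .nil .nil)) .dup l858 = true := by decide +kernel
theorem cw3743 : wchk (nat_lit 5) [] [l858] (nat_lit 2202) (nat_lit 1) (nat_lit 1) (nat_lit 0) (nat_lit 22597888) (nat_lit 0) w3743 = true := by decide +kernel
theorem cw3744 : wchk (nat_lit 5) [] [l506] (nat_lit 212) (nat_lit 1) (nat_lit 1) (nat_lit 0) (nat_lit 1230557440) (nat_lit 0) w3744 = true := by decide +kernel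
theorem cw3745 : wchk (nat_lit 5) [w3036, w710] [] (nat_lit 17) (nat_lit 2) (nat_lit 2) (nat_lit 2) (nat_lit 23225344) (nat_lit 22121476) w3745 = true := by decide +kernel
theorem cw3746 : wchk (nat_lit 5) [w710, w3633] [] (nat_lit 1) (nat_lit 1) (nat_lit 2) (nat_lit 2) (nat_lit 22121472) (nat_lit 23282692) w3746 = true := by decide +kernel
theorem cw3747 : wchk (nat_lit 5) [w34, w162] [] (nat_lit 26) (nat_lit 1) (nat_lit 2) (nat_lit 2) (nat_lit 23225344) (nat_lit 21727236) w3747 = true := by decide +kernel
theorem cw3748 : wchk (nat_lit 5) [w3747, w710] [] (nat_lit 17) (nat_lit 0) (nat_lit 2) (nat_lit 2) (nat_lit 23282688) (nat_lit 22121476) w3748 = true := by decide +kernel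
theorem cw3749 : wchk (nat_lit 5) [w111, w16] [] (nat_lit 3) (nat_lit 1) (nat_lit 2) (nat_lit 2) (nat_lit 88771584) (nat_lit 23225348) w3749 = true := by decide +kernel
theorem cw3750 : wchk (nat_lit 5) [w368, w16] [] (nat_lit 3) (nat_lit 1) (nat_lit 2) (nat_lit 2) (nat_lit 88821760) (nat_lit 23225348) w3750 = true := by decide +kernel
theorem cw3751 : wchk (nat_lit 5) [w3750, w34] [] (nat_lit 0) (nat_lit 0) (nat_lit 1) (nat_lit 2) (nat_lit 23282688) (nat_lit 23282692) w3751 = true := by decide +kernel
theorem cw3752 : wchk (nat_lit 5) [] [l842] (nat_lit 3) (nat_lit 1) (nat_lit 1) (nat_lit 0) (nat_lit 22597888) (nat_lit 0) w3752 = true := by decide +kernel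
theorem cw3753 : wchk (nat_lit 5) [w1166, w34] [] (nat_lit 0) (nat_lit 0) (nat_lit 1) (nat_lit 2) (nat_lit 23225344) (nat_lit 23282692) w3753 = true := by decide +kernel
theorem cw3757 : wchk (nat_lit 5) [] [] (nat_lit 225) (nat_lit 0) (nat_lit 1) (nat_lit 2) (nat_lit 33554481) (nat_lit 16777233) w3757 = true := by decide +kernel
theorem cl859 : lchk (nat_lit 5) [w3757, w25] (nat_lit 23282688) (.nod (nat_lit 421249788107300550073067730477834626834555575735385446956727795787) .nil .nil (.nod (nat_lit 315937898173254428122718588284687279806311110885584781400608866443) (.opn (nat_lit 145025024003402301118745591917258996192942752829154617999943056943087155220682826056010)) (.nod (nat_lit 210624796758573376542982025784181253698448338281183334285828947978) .nil .nil (.nod (nat_lit 210624796758573376542982025784181253698448338281183334285828947978) .nil (.dwn (nat_lit 9097082317789573233773869788737516924200671357896660137939871208393155154037558875259274) (nat_lit 39281968128)) .dup)) .nil)) .nil .nil .nil l859 = true := by decide +kernel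
theorem cw3758 : wchk (nat_lit 5) [] [l859] (nat_lit 2273) (nat_lit 1) (nat_lit 3) (nat_lit 0) (nat_lit 9820492032) (nat_lit 0) w3758 = true := by decide +kernel
theorem cw3759 : wchk (nat_lit 5) [] [] (nat_lit 0) (nat_lit 3) (nat_lit 1) (nat_lit 2) (nat_lit 33554513) (nat_lit 25165905) w3759 = true := by decide +kernel
theorem cw3760 : wchk (nat_lit 5) [] [l629] (nat_lit 4) (nat_lit 2) (nat_lit 2) (nat_lit 0) (nat_lit 22354176) (nat_lit 0) w3760 = true := by decide +kernel
theorem cw3761 : wchk (nat_lit 5) [] [] (nat_lit 0) (nat_lit 3) (nat_lit 1) (nat_lit 2) (nat_lit 33554513) (nat_lit 25165905) w3761 = true := by decide +kernel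
theorem cw3762 : wchk (nat_lit 5) [] [] (nat_lit 0) (nat_lit 3) (nat_lit 1) (nat_lit 2) (nat_lit 33554513) (nat_lit 25165905) w3762 = true := by decide +kernel
theorem cl860 : lchk (nat_lit 5) [w2766, w3758, w3759, w3760, w3761, w3762, w4] (nat_lit 22307840) .nil .nil (.nod (nat_lit 421249781830198814686386966642045203626889159633030002492693282890) .nil .nil (.nod (nat_lit 210625600227595506053877366665110607142671811022891213324258640010) (.dwn (nat_lit 145264064266087102775183240334546469551551155927941843618010830932740416119813970544664) (nat_lit 627262484)) .nil .nil)) (.nod (nat_lit 421250183564709879433955852132568288917539790183778448190902108298) (.opn (nat_lit 5152868394833377505192151568805035261794727226311937326527877199522936700425497215306)) (.nod (nat_lit 210625600227595506038119796765227424279749599382680225682246598794) .nil .nil (.dwn (nat_lit 210624796758573376542982025784181253721554273018954701001856122890) (nat_lit 626287616))) .nil) l860 = true := by decide +kernel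
theorem cw3763 : wchk (nat_lit 5) [] [l860] (nat_lit 4) (nat_lit 3) (nat_lit 3) (nat_lit 0) (nat_lit 22597888) (nat_lit 0) w3763 = true := by decide +kernel
theorem cw3764 : wchk (nat_lit 5) [w220] [] (nat_lit 1) (nat_lit 1) (nat_lit 1) (nat_lit 2) (nat_lit 89739264) (nat_lit 33554513) w3764 = true := by decide +kernel
theorem cw3765 : wchk (nat_lit 5) [] [l859] (nat_lit 225) (nat_lit 3) (nat_lit 2) (nat_lit 0) (nat_lit 1230557440) (nat_lit 0) w3765 = true := by decide +kernel
theorem cw3766 : wchk (nat_lit 5) [] [l330] (nat_lit 27) (nat_lit 2) (nat_lit 1) (nat_lit 0) (nat_lit 156813824) (nat_lit 0) w3766 = true := by decide +kernel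
theorem cw3767 : wchk (nat_lit 5) [w3766] [] (nat_lit 0) (nat_lit 3) (nat_lit 1) (nat_lit 2) (nat_lit 33554513) (nat_lit 23282688) w3767 = true := by decide +kernel
theorem cw3768 : wchk (nat_lit 5) [w3766] [] (nat_lit 0) (nat_lit 3) (nat_lit 1) (nat_lit 2) (nat_lit 33554513) (nat_lit 23282688) w3768 = true := by decide +kernel
theorem cw3769 : wchk (nat_lit 5) [w3766] [] (nat_lit 0) (nat_lit 3) (nat_lit 1) (nat_lit 2) (nat_lit 33554513) (nat_lit 23282688) w3769 = true := by decide +kernel
theorem cl861 : lchk (nat_lit 5) [w2766, w3765, w3767, w812, w6, w3768, w3769, w194, w1101] (nat_lit 22307840) .nil .nil (.nod (nat_lit 421249781830198814686386966642045203626889159633030002492693282890) .nil .nil (.nod (nat_lit 210625600227595506053965175849329821471291607913589766247688437898) (.dwn (nat_lit 145264064266087102781916027918895849223782867050678046248395494406290090129222755092504) (nat_lit 627262488)) .nil .nil)) (.nod (nat_lit 421250183564709879433955852132568288917539790183778448190902108298) (.opn (nat_lit 5031689657604741360357476061573743192513790175282747571804372404204980873438171234634)) (.nod (nat_lit 210625600227595506098841960125747977706320329930292508651008557194)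 .nil (.nod (nat_lit 7862542162489574267897780411368992566858376379002757137282691024896) .nil (.dwn (nat_lit 1139684775859769320912583696606158312255971388455966666561802429118706740358466029275136) (nat_lit 4921254912)) (.dwn (nat_lit 1139684775859769320912583696606158312255971388455966666561802429118706740358466029275136) (nat_lit 4921254912))) (.dwn (nat_lit 7862542162489574267897780411368992566881482313740528503998718199808) (nat_lit 626287616))) .nil) l861 = true := by decide +kernel
theorem cw3770 : wchk (nat_lit 5) [] [l861] (nat_lit 4) (nat_lit 3) (nat_lit 3) (nat_lit 0) (nat_lit 22597888) (nat_lit 0) w3770 = true := by decide +kernel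
theorem cw3773 : wchk (nat_lit 5) [w281, w16] [] (nat_lit 3) (nat_lit 1) (nat_lit 3) (nat_lit 2) (nat_lit 89337856) (nat_lit 22709252) w3773 = true := by decide +kernel
theorem cw3774 : wchk (nat_lit 5) [] [l489] (nat_lit 4) (nat_lit 3) (nat_lit 3) (nat_lit 0) (nat_lit 22192896) (nat_lit 0) w3774 = true := by decide +kernel
theorem cw3775 : wchk (nat_lit 5) [] [l861] (nat_lit 3) (nat_lit 1) (nat_lit 1) (nat_lit 0) (nat_lit 22339840) (nat_lit 0) w3775 = true := by decide +kernel
theorem cl862 : lchk (nat_lit 5) [w1249, w5, w2766, w431, w1822, w429] (nat_lit 23153664) .nil .nil .nil (.nod (nat_lit 928456855691698503470284891) (.opn (nat_lit 20919974274173279016852582313647270619768979898416018983127160574256988029687001252186)) (.nod (nat_lit 928456855691698503470284891) .nil (.nod (nat_lit 618970646831988643607871514) .nil (.nod (nat_lit 20919975200509992915382145702215150689272242727298155243619180598805248573163595366810) (.dwn (nat_lit 143413170331117443215715680830777238649778782609176011819124200859593806870460322195496) (nat_lit 39281839104)) .nil .nil) .dup) .nil) .nil) l862 = true := by decide +kernel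
theorem cw3776 : wchk (nat_lit 5) [] [l862] (nat_lit 28) (nat_lit 3) (nat_lit 2) (nat_lit 0) (nat_lit 156815616) (nat_lit 0) w3776 = true := by decide +kernel
theorem cw3778 : wchk (nat_lit 5) [] [] (nat_lit 0) (nat_lit 0) (nat_lit 4) (nat_lit 2) (nat_lit 33554473) (nat_lit 16777293) w3778 = true := by decide +kernel
theorem cl863 : lchk (nat_lit 5) [] (nat_lit 33554481) .nil .nil .nil (.nod (nat_lit 50331795) .nil (.nod (nat_lit 22835988604472877167317335264287479564739805444) .nil .nil (.nod (nat_lit 210626403696617635544675560857521749221424905994509730849811857408) .nil (.dwn (nat_lit 34968073639769002100142610228802525461859308494475780448773488934597942123294109990912) (nat_lit 150995089)) (.opn (nat_lit 34968073639769002098246989681803890464502267747292665114633419431242463423772714074112)))) .nil) l863 = true := by decide +kernel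
theorem cw3779 : wchk (nat_lit 5) [] [l863] (nat_lit 17) (nat_lit 3) (nat_lit 3) (nat_lit 0) (nat_lit 5428224) (nat_lit 0) w3779 = true := by decide +kernel
theorem cw3780 : wchk (nat_lit 5) [w16, w3773] [] (nat_lit 28) (nat_lit 0) (nat_lit 3) (nat_lit 2) (nat_lit 22709248) (nat_lit 90391556) w3780 = true := by decide +kernel
theorem cw3781 : wchk (nat_lit 5) [] [] (nat_lit 4) (nat_lit 2) (nat_lit 4) (nat_lit 2) (nat_lit 16777285) (nat_lit 33554473) w3781 = true := by decide +kernel
theorem cw3783 : wchk (nat_lit 5) [w220] [] (nat_lit 0) (nat_lit 3) (nat_lit 1) (nat_lit 2) (nat_lit 33554513) (nat_lit 115430400) w3783 = true := by decide +kernel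
theorem cw3785 : wchk (nat_lit 5) [w659, w16] [] (nat_lit 273) (nat_lit 1) (nat_lit 3) (nat_lit 2) (nat_lit 4917635072) (nat_lit 22709252) w3785 = true := by decide +kernel
theorem cw3788 : wchk (nat_lit 5) [] [l630] (nat_lit 3) (nat_lit 1) (nat_lit 1) (nat_lit 0) (nat_lit 5806336) (nat_lit 0) w3788 = true := by decide +kernel
theorem cw3790 : wchk (nat_lit 5) [w3766] [] (nat_lit 0) (nat_lit 3) (nat_lit 1) (nat_lit 2) (nat_lit 33554513) (nat_lit 23153664) w3790 = true := by decide +kernel
theorem cl864 : lchk (nat_lit 5) [w2766, w3765, w3790, w233, w3767, w3768, w3769, w831, w197] (nat_lit 22307840) .nil .nil (.nod (nat_lit 421249781830198814686386966642045203626889159633030002492693282890) .nil .nil (.nod (nat_lit 210625600227595506053877366665110607142671811022891213324258640010) (.dwn (nat_lit 145264064266087102775006502860686688765085948774622311061070039614088362371511798517784) (nat_lit 627133464)) .nil .nil)) (.nod (nat_lit 421250183564709879433955852132568288917539790183778448190902108298) (.opn (nat_lit 20694220458975923971077410211961066584437015490796876299432730294405346098313760342346)) (.nod (nat_lit 20694220458975923971288033590094647763575319053747278285361224717194089069260929237130)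 .nil (.nod (nat_lit 145038303040196036547899306978215352462375824147878660875662456849467279340236878432256) .nil (.dwn (nat_lit 1139684775859769320912583696606158312255971388455966666561802429118706740358466029275136) (nat_lit 4921254912)) (.dwn (nat_lit 1139684775859769320912583696606158312255971388455966666561802429118706740358466029275136) (nat_lit 4921254912))) (.dwn (nat_lit 145038303040196036547899306978215352462375824147878660875685562784205050706952905607168) (nat_lit 626287616))) .nil) l864 = true := by decide +kernel
theorem cw3791 : wchk (nat_lit 5) [] [l864] (nat_lit 4) (nat_lit 3) (nat_lit 3) (nat_lit 0) (nat_lit 22597888) (nat_lit 0) w3791 = true := by decide +kernel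
theorem cw3792 : wchk (nat_lit 5) [w281] [] (nat_lit 0) (nat_lit 0) (nat_lit 3) (nat_lit 2) (nat_lit 33554465) (nat_lit 89337856) w3792 = true := by decide +kernel
theorem cw3794 : wchk (nat_lit 5) [] [] (nat_lit 0) (nat_lit 0) (nat_lit 4) (nat_lit 2) (nat_lit 33554465) (nat_lit 16777293) w3794 = true := by decide +kernel
theorem cw3795 : wchk (nat_lit 5) [] [l863] (nat_lit 17) (nat_lit 3) (nat_lit 3) (nat_lit 0) (nat_lit 5657600) (nat_lit 0) w3795 = true := by decide +kernel
theorem cw3797 : wchk (nat_lit 5) [] [] (nat_lit 4) (nat_lit 2) (nat_lit 4) (nat_lit 2) (nat_lit 16777285) (nat_lit 33554465) w3797 = true := by decide +kernel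
theorem cw3803 : wchk (nat_lit 5) [w2272, w710] [] (nat_lit 1) (nat_lit 2) (nat_lit 2) (nat_lit 2) (nat_lit 23282688) (nat_lit 22121476) w3803 = true := by decide +kernel
theorem cw3804 : wchk (nat_lit 5) [] [l173] (nat_lit 209) (nat_lit 2) (nat_lit 2) (nat_lit 0) (nat_lit 22597888) (nat_lit 0) w3804 = true := by decide +kernel
theorem cw3805 : wchk (nat_lit 5) [] [l829] (nat_lit 209) (nat_lit 2) (nat_lit 2) (nat_lit 0) (nat_lit 22454528) (nat_lit 0) w3805 = true := by decide +kernel
theorem cw3806 : wchk (nat_lit 5) [] [l640] (nat_lit 209) (nat_lit 2) (nat_lit 2) (nat_lit 0) (nat_lit 22434816) (nat_lit 0) w3806 = true := by decide +kernel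
theorem cw3807 : wchk (nat_lit 5) [] [l198] (nat_lit 2) (nat_lit 2) (nat_lit 2) (nat_lit 0) (nat_lit 22597888) (nat_lit 0) w3807 = true := by decide +kernel
theorem cl865 : lchk (nat_lit 5) [w795, w808, w1, w91, w3804, w3805, w576, w3806, w619, w604, w603, w1947, w3560, w850, w3807] (nat_lit 23225344) .nil (.nod (nat_lit 15845379084102397192384063290776945332500203528) .nil (.nod (nat_lit 1134074027603162761161360435424819479884343960391766967191874095104) (.opn (nat_lit 7874060694390822710193489616512452877864358314834546926781219522560)) .nil .dup) (.dwn (nat_lit 1134074027603162761161360435424819479884343960391766967191874095104) (nat_lit 90334208))) (.nod (nat_lit 15806355842546270890328315879823323047052789777) (.nod (nat_lit 54712098918221873655508969489546960470074005528) .nil .nil (.nod (nat_lit 15845379084102397192384063290776945332500203528) (.dwn (nat_lit 20933257016313870033396805175410647431264224072555271405193824165455074463886681221168) (nat_lit 90391580)) .nil .nil)) .nil (.nod (nat_lit 14820957657357444264332731073551537012116727872) .nil (.nod (nat_lit 144917131713661111583438596417037526682029644683017108307592195983875396281155150368848)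 (.dwn (nat_lit 1139882325501038607428753898338197069491715534080317853817642851884931837272604947417192) (nat_lit 4922229816)) .nil .nil) (.nod (nat_lit 144917131713661111583438596417037526682029644683017108307592195983875396281155150368848) (.dwn (nat_lit 1139882325501038607428753898338197069491715534080317853817642851884931837272604947417192) (nat_lit 4922229816)) .nil .nil))) .nil l865 = true := by decide +kernel
theorem cw3808 : wchk (nat_lit 5) [] [l865] (nat_lit 35) (nat_lit 1) (nat_lit 1) (nat_lit 0) (nat_lit 156815616) (nat_lit 0) w3808 = true := by decide +kernel
theorem cw3809 : wchk (nat_lit 5) [] [l831] (nat_lit 34) (nat_lit 1) (nat_lit 2) (nat_lit 0) (nat_lit 156815616) (nat_lit 0) w3809 = true := by decide +kernel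
theorem cw3810 : wchk (nat_lit 5) [w3809, w16] [] (nat_lit 26) (nat_lit 1) (nat_lit 2) (nat_lit 2) (nat_lit 627262464) (nat_lit 23225348) w3810 = true := by decide +kernel
theorem cw3811 : wchk (nat_lit 5) [w368, w1063] [] (nat_lit 2) (nat_lit 2) (nat_lit 1) (nat_lit 2) (nat_lit 88764416) (nat_lit 23282692) w3811 = true := by decide +kernel
theorem cw3812 : wchk (nat_lit 5) [w3811, w710] [] (nat_lit 0) (nat_lit 2) (nat_lit 2) (nat_lit 2) (nat_lit 23282688) (nat_lit 22121476) w3812 = true := by decide +kernel
theorem cw3813 : wchk (nat_lit 5) [w1065, w1063] [] (nat_lit 2) (nat_lit 2) (nat_lit 1) (nat_lit 2) (nat_lit 23282688) (nat_lit 23282692) w3813 = true := by decide +kernel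
theorem cw3814 : wchk (nat_lit 5) [w93, w682] [] (nat_lit 0) (nat_lit 1) (nat_lit 3) (nat_lit 2) (nat_lit 9276416) (nat_lit 21727236) w3814 = true := by decide +kernel
theorem cl866 : lchk (nat_lit 5) [w128, w219, w1064, w3035, w15, w1166, w1065, w581, w2795, w1192, w1067] (nat_lit 5189167104) .nil (.nod (nat_lit 448709113090192310684264182641477687682138689537) .nil (.nod (nat_lit 273488056122441691471009869088475653998286751466249187283722471441) (.nod (nat_lit 7874780753285092386706223423318769538318163222642146510151894779937) .nil (.nod (nat_lit 15845389973138138662414894709060193507788621864) .nil (.nod (nat_lit 5391907731181465261965442511027196112875272455652161783567132892406493185048225206328) (.dwn (nat_lit 145234189907063875196763959321715111369885776766978291363725303383450078405927821281360) (nat_lit 625764352)) .nil .nil) (.nod (nat_lit 5391907731181465261965442511027196112875272455652161783567132892406493185048225206328) (.dwn (nat_lit 145234189907063875196763959321715111369885776766978291363725303383450078405927821281360) (nat_lit 625764352)) .nil .nil)) .dup) .nil (.dwn (nat_lit 273488049845339956084329104912403863869681871882072391314210195472)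 (nat_lit 122447872))) (.dwn (nat_lit 8698471333113101009280024902946567033021562638671943617204241092608) (nat_lit 692873216))) .nil (.nod (nat_lit 3554400092078078645114515834024569470340925280256) (.opn (nat_lit 9656224019713800218241822974736895802593907181178478672294750072017309288278394393907200)) (.dwn (nat_lit 9656224019713800218241822974736895802593907181178478672294750072017309288278394393907200) (nat_lit 41696389120)) .dup) l866 = true := by decide +kernel
theorem cw3815 : wchk (nat_lit 5) [] [l866] (nat_lit 2202) (nat_lit 1) (nat_lit 1) (nat_lit 0) (nat_lit 9820492032) (nat_lit 0) w3815 = true := by decide +kernel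
theorem cw3816 : wchk (nat_lit 5) [w85] [] (nat_lit 0) (nat_lit 2) (nat_lit 1) (nat_lit 2) (nat_lit 890071040) (nat_lit 33554481) w3816 = true := by decide +kernel
theorem cw3817 : wchk (nat_lit 5) [w80, w1] [] (nat_lit 1) (nat_lit 1) (nat_lit 1) (nat_lit 2) (nat_lit 9276416) (nat_lit 123888644) w3817 = true := by decide +kernel
theorem cw3818 : wchk (nat_lit 5) [w75, w69] [] (nat_lit 1) (nat_lit 1) (nat_lit 3) (nat_lit 2) (nat_lit 21662720) (nat_lit 122447876) w3818 = true := by decide +kernel
theorem cw3819 : wchk (nat_lit 5) [w69, w1] [] (nat_lit 1) (nat_lit 1) (nat_lit 1) (nat_lit 2) (nat_lit 88771584) (nat_lit 123888644) w3819 = true := by decide +kernel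
theorem cw3820 : wchk (nat_lit 5) [w112, w1] [] (nat_lit 1) (nat_lit 1) (nat_lit 1) (nat_lit 2) (nat_lit 88886272) (nat_lit 123888644) w3820 = true := by decide +kernel
theorem cl867 : lchk (nat_lit 5) [w1166, w83, w69, w1, w1501, w3565, w80, w3688, w3816, w3817, w521, w3818, w1355, w3819, w627, w1054, w111, w370, w721, w114, w3820, w267] (nat_lit 22307840) (.nod (nat_lit 421249781830198815294947824037563956332864508798526484947524386890) (.nod (nat_lit 1114456628392476774063772944571269858220662784779481882092109502480) .nil (.nod (nat_lit 7708931941830024401425728349091674072496121427447962292078769250336) .nil .nil (.nod (nat_lit 181562259766300041912957585408) .nil (.dwn (nat_lit 9096856558416355595336917231458500900029848246090107842007882711488752813788441773867418) (nat_lit 39280993280)) .dup)) (.nod (nat_lit 7708931941830024401851918601090374942251091501953078612978014789664) (.opn (nat_lit 1139684775859769320912583696606158312255971388455966666561983991378473040400369144350720)) .dup .dup)) .nil (.nod (nat_lit 116458315244420842441857929107892299388622342552103093483441821744) (.dwn (nat_lit 145264070750444100071610643561713151918566574167958520086611340750184138727395148900432)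 (nat_lit 627262516)) .nil .nil)) .nil .nil (.nod (nat_lit 88735813704251957262534426416311305692778977511842944311818720954488) .nil (.nod (nat_lit 20584669100180142169322388410494917984798148394769928561689384668244334956800202768778) (.dwn (nat_lit 145025039751126437401604051266172571838159202169190788907577621409591523781298928310424) (nat_lit 627262516)) .nil .nil) (.nod (nat_lit 20584669100180142169322388410494917984798148394769928561689384668244334956800202768778) (.dwn (nat_lit 145025039751126437401604051266172571838159202169190788907577621409591523781298928310424) (nat_lit 627262516)) .nil .nil)) l867 = true := by decide +kernel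
theorem cw3821 : wchk (nat_lit 5) [] [l867] (nat_lit 2265) (nat_lit 1) (nat_lit 2) (nat_lit 0) (nat_lit 22597888) (nat_lit 0) w3821 = true := by decide +kernel
theorem cw3822 : wchk (nat_lit 5) [w3821, w16] [] (nat_lit 217) (nat_lit 1) (nat_lit 3) (nat_lit 2) (nat_lit 4922229760) (nat_lit 22709252) w3822 = true := by decide +kernel
theorem cl868 : lchk (nat_lit 5) [w128, w219, w10, w15, w437, w621, w1065, w581, w2795, w1192, w1067, w1064] (nat_lit 659318784) (.nod (nat_lit 24324569742874775882611347456) .nil .nil (.nod (nat_lit 3531564128994783286825517815255114664241801461850) (.opn (nat_lit 9594058615162576887969030200385149367606834097738266390915702067728442961172033049251840)) .dup .dup)) .nil (.nod (nat_lit 273488056122441691455164486941831954518075489847095308480352878746) (.nod (nat_lit 1134794036280618554946023538155287548880038080333589022119894009881) .nil (.nod (nat_lit 425873160555650327135183919554851908883471355944) .nil (.nod (nat_lit 5391907731181465261965442511027196112875272455652161783567132892406493185048225206328) (.dwn (nat_lit 145234189907063875196763959321715111369885776766978291363725303383450078405927821281360) (nat_lit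 625764352)) .nil .nil) (.nod (nat_lit 5391907731181465261965442511027196112875272455652161783567132892406493185048225206328) (.dwn (nat_lit 145234189907063875196763959321715111369885776766978291363725303383450078405927821281360) (nat_lit 625764352)) .nil .nil)) .dup) .nil (.dwn (nat_lit 273488049845339956084329129412734282177251242573209699708609136728) (nat_lit 122447872))) .nil l868 = true := by decide +kernel
theorem cw3824 : wchk (nat_lit 5) [] [l868] (nat_lit 2202) (nat_lit 1) (nat_lit 1) (nat_lit 0) (nat_lit 1230557440) (nat_lit 0) w3824 = true := by decide +kernel
theorem cw3827 : wchk (nat_lit 5) [w3518, w16] [] (nat_lit 26) (nat_lit 1) (nat_lit 2) (nat_lit 2) (nat_lit 89359360) (nat_lit 23225348) w3827 = true := by decide +kernel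
theorem cw3830 : wchk (nat_lit 5) [w1166, w16] [] (nat_lit 0) (nat_lit 1) (nat_lit 3) (nat_lit 2) (nat_lit 22307840) (nat_lit 22709252) w3830 = true := by decide +kernel
theorem cl870 : lchk (nat_lit 5) [w4, w26, w827] (nat_lit 23282688) .nil (.nod (nat_lit 928455656653333712349429786) .nil .nil (.dwn (nat_lit 291575744471519150609984048417434657564398989462167359453059350618) (nat_lit 895697928))) (.nod (nat_lit 928458017836575147172036762) (.nod (nat_lit 618971827423609361019175002) .nil .nil (.dwn (nat_lit 15845379084102397192160979177741529209049710618) (nat_lit 627205128))) .nil .nil) .nil l870 = true := by decide +kernel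
theorem cw3831 : wchk (nat_lit 5) [] [l870] (nat_lit 1) (nat_lit 3) (nat_lit 1) (nat_lit 0) (nat_lit 5820672) (nat_lit 0) w3831 = true := by decide +kernel
theorem cw3837 : wchk (nat_lit 5) [w80, w16] [] (nat_lit 3) (nat_lit 1) (nat_lit 3) (nat_lit 2) (nat_lit 76385280) (nat_lit 22709252) w3837 = true := by decide +kernel
theorem cw3843 : wchk (nat_lit 5) [w3035, w16] [] (nat_lit 26) (nat_lit 1) (nat_lit 2) (nat_lit 2) (nat_lit 627205120) (nat_lit 23225348) w3843 = true := by decide +kernel
theorem cw3844 : wchk (nat_lit 5) [w3843, w710] [] (nat_lit 0) (nat_lit 2) (nat_lit 2) (nat_lit 2) (nat_lit 23282688) (nat_lit 22121476) w3844 = true := by decide +kernel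
theorem cw3845 : wchk (nat_lit 5) [w682] [] (nat_lit 1) (nat_lit 2) (nat_lit 4) (nat_lit 2) (nat_lit 197) (nat_lit 17541120) w3845 = true := by decide +kernel
theorem cl871 : lchk (nat_lit 5) [w831, w135, w412] (nat_lit 22307840) (.nod (nat_lit 315937891896152692736037824448897856598644694783229336936574353546) .nil (.nod (nat_lit 210625198493084441290550911274704338990336910697444823556182507594) .nil .nil (.nod (nat_lit 23105934737771366717279750144) .nil (.dwn (nat_lit 1139684775859769320850801261109367458399165807135249916269200742837676426239245859946522) (nat_lit 4921254912)) .nil)) .nil) .nil (.nod (nat_lit 210625198493084441290550911274704338989098968831931779984037773386) .nil .nil (.dwn (nat_lit 210624796758573376542982025784181253699290393041050739052849922058) (nat_lit 7069075464))) .nil l871 = true := by decide +kernel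
theorem cw3846 : wchk (nat_lit 5) [] [l871] (nat_lit 2) (nat_lit 3) (nat_lit 3) (nat_lit 0) (nat_lit 5820672) (nat_lit 0) w3846 = true := by decide +kernel
theorem cw3847 : wchk (nat_lit 5) [w3846, w16] [] (nat_lit 26) (nat_lit 1) (nat_lit 2) (nat_lit 2) (nat_lit 627262464) (nat_lit 23225348) w3847 = true := by decide +kernel
theorem cw3848 : wchk (nat_lit 5) [] [l823] (nat_lit 1) (nat_lit 3) (nat_lit 1) (nat_lit 0) (nat_lit 22597888) (nat_lit 0) w3848 = true := by decide +kernel
theorem cw3849 : wchk (nat_lit 5) [w3848, w1063] [] (nat_lit 25) (nat_lit 2) (nat_lit 1) (nat_lit 2) (nat_lit 627262464) (nat_lit 23282692) w3849 = true := by decide +kernel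
theorem cw3850 : wchk (nat_lit 5) [w1166] [] (nat_lit 1) (nat_lit 0) (nat_lit 3) (nat_lit 2) (nat_lit 22823936) (nat_lit 33554481) w3850 = true := by decide +kernel
theorem cw3851 : wchk (nat_lit 5) [w281] [] (nat_lit 25) (nat_lit 0) (nat_lit 1) (nat_lit 2) (nat_lit 329) (nat_lit 90384384) w3851 = true := by decide +kernel
theorem cl872 : lchk (nat_lit 5) [w1166, w83, w69, w1, w93, w91, w3565, w80, w3816, w3817, w521, w3818, w1355, w3819, w627, w3851, w111, w370, w721, w114, w3820, w267] (nat_lit 22307840) (.nod (nat_lit 421249781830198815294947824037563956332864508798526484947524386890) (.nod (nat_lit 1114456628392476774063772944571269858220662784779481882092109502480) .nil (.nod (nat_lit 7698943214946910517872959512725681405758843413638608451814533961760) .nil .nil (.nod (nat_lit 181562259766300041912957585408) .nil (.nod (nat_lit 9096856558416355595336917231458500900029848246090107842007882711488752813788441773867418) (.opn (nat_lit 72754230818869045795169859749818051417364163511580514815225284932152481866928638187325440)) .dup .dup) (.dwn (nat_lit 9096856558416355595336917231458500900029848246090107842007882711488752813788441773867418) (nat_lit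 39280993280)))) (.dwn (nat_lit 166761853565090390728063466247333223691560698494979677074553884728) (nat_lit 626287616))) .nil (.nod (nat_lit 116458365461234724915137732835739536798159255574502503338537719864) (.dwn (nat_lit 145264070750444100071610643561713151918566574167958520086611340750184138727395148900432) (nat_lit 627262516)) .nil .nil)) .nil .nil (.nod (nat_lit 88735813704251957262534426416311305692778977511842944311832830445688) .nil (.nod (nat_lit 20584669100180142169322388410494917984798148394769928561689384668244334956800202768778) (.dwn (nat_lit 145025039751126437401604051266172571838159202169190788907577621409591523781298928310424) (nat_lit 627262516)) .nil .nil) (.nod (nat_lit 20584669100180142169322388410494917984798148394769928561689384668244334956800202768778) (.dwn (nat_lit 145025039751126437401604051266172571838159202169190788907577621409591523781298928310424) (nat_lit 627262516)) .nil .nil)) l872 = true := by decide +kernel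
theorem cw3852 : wchk (nat_lit 5) [] [l872] (nat_lit 2265) (nat_lit 1) (nat_lit 2) (nat_lit 0) (nat_lit 22597888) (nat_lit 0) w3852 = true := by decide +kernel
theorem cw3853 : wchk (nat_lit 5) [w3852, w16] [] (nat_lit 217) (nat_lit 1) (nat_lit 3) (nat_lit 2) (nat_lit 4922229760) (nat_lit 22709252) w3853 = true := by decide +kernel
theorem cl873 : lchk (nat_lit 5) [w1166, w1188, w1, w682, w3565, w83, w93, w3688, w1501, w91, w3847, w80, w3849, w3850, w1355, w521, w3822, w3845, w111, w370, w721, w2245, w267, w114, w3853] (nat_lit 23282688) (.nod (nat_lit 292295658992448913640107611270592921618614322525380185244791996506) .nil (.nod (nat_lit 1134074128036790527301600203247470814697817504783917247366631477273) .nil (.nod (nat_lit 7874060895258078242566293536978561204010762291307146030791603572784) (.nod (nat_lit 61794673936935930330094004890534986331140902900445162754919889274880) .nil (.nod (nat_lit 26733922183817412436684396474456124612892642674688) .nil (.dwn (nat_lit 72754456578242263429662797548906755931854498310252163564960117801001833920563043593783296) (nat_lit 314159875072)) (.dwn (nat_lit 72754456578242263429662797548906755931854498310252163564960117801001833920563043593783296)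 (nat_lit 314159875072))) (.dwn (nat_lit 493153820611346167041432195672687954827002301465763161689034032056320) (nat_lit 39281968128))) .nil (.dwn (nat_lit 61794673936935930330094004890534986331140902900445162754919889274880) (nat_lit 4922229760))) (.dwn (nat_lit 7874060895258078242567000894184844967948558606728646807400912984128) (nat_lit 627262464))) (.nod (nat_lit 166762054432345922691503057856067776691088861112770972208154071128) (.dwn (nat_lit 145264073529454241767218861389181069026184423462840348546978745055827348247438951770232) (nat_lit 627262528)) .nil .nil)) .nil .nil (.nod (nat_lit 842057121050646201880971400) .nil (.nod (nat_lit 20573050985114426811538366368314560883304335870574881077622157521707256334299579810202) (.dwn (nat_lit 145250800977017503635634630390329944248181863036361739695308709809129404208394410610872) (nat_lit 627262560)) .nil .nil) (.nod (nat_lit 20573050985114426811538366368314560883304335870574881077622157521707256334299579810202) (.dwn (nat_lit 145250800977017503635634630390329944248181863036361739695308709809129404208394410610872) (nat_lit 627262560)) .nil .nil)) l873 = true := by decide +kernel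
theorem cw3854 : wchk (nat_lit 5) [] [l873] (nat_lit 4) (nat_lit 1) (nat_lit 1) (nat_lit 0) (nat_lit 22597888) (nat_lit 0) w3854 = true := by decide +kernel
theorem cw3855 : wchk (nat_lit 5) [] [l823] (nat_lit 0) (nat_lit 0) (nat_lit 2) (nat_lit 1) (nat_lit 5820672) (nat_lit 0) w3855 = true := by decide +kernel
theorem cw3856 : wchk (nat_lit 5) [] [l340] (nat_lit 1) (nat_lit 2) (nat_lit 2) (nat_lit 0) (nat_lit 22597888) (nat_lit 0) w3856 = true := by decide +kernel
theorem cw3857 : wchk (nat_lit 5) [w922] [] (nat_lit 0) (nat_lit 0) (nat_lit 3) (nat_lit 2) (nat_lit 33554513) (nat_lit 123480064) w3857 = true := by decide +kernel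
theorem cl874 : lchk (nat_lit 5) [w848, w922, w4, w33, w844, w18, w411, w2572, w846, w142, w845, w3781, w3856, w3857] (nat_lit 23282688) (.nod (nat_lit 84348390386258659830703929436554072213004746842) .nil (.nod (nat_lit 15806355502263903971869963864515335883295721496) (.nod (nat_lit 15533176818099774570942611760146909211330512928) .nil .nil (.opn (nat_lit 3349895986522965744157788550767366896832299304960))) .nil .nil) (.nod (nat_lit 15845389973138138664847933626472313226016413744) .nil (.nod (nat_lit 145262408902379366101718670877247352910785862779982722273012611231267949510961984350280) .nil (.opn (nat_lit 1139910535232986959287753815764554957178356359658442233300565657073667531313694426695680)) .dup) (.dwn (nat_lit 5391911436528320856083696065298716390889343325208475341359444065086436075959882535000) (nat_lit 627262464)))) .nil .nil (.nod (nat_lit 858980164063867344535324704) .nil (.dwn (nat_lit 20933264427007581221633312685688199051977402688945382801754914982536573920997126701466) (nat_lit 90391604)) .dup) l874 = true := by decide +kernel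
theorem cw3858 : wchk (nat_lit 5) [] [l874] (nat_lit 281) (nat_lit 1) (nat_lit 2) (nat_lit 0) (nat_lit 22597888) (nat_lit 0) w3858 = true := by decide +kernel
theorem cw3860 : wchk (nat_lit 5) [] [l871] (nat_lit 17) (nat_lit 3) (nat_lit 2) (nat_lit 0) (nat_lit 5677312) (nat_lit 0) w3860 = true := by decide +kernel
theorem cw3861 : wchk (nat_lit 5) [] [l871] (nat_lit 17) (nat_lit 3) (nat_lit 3) (nat_lit 0) (nat_lit 5806336) (nat_lit 0) w3861 = true := by decide +kernel
theorem cw3864 : wchk (nat_lit 5) [] [l256] (nat_lit 0) (nat_lit 0) (nat_lit 3) (nat_lit 1) (nat_lit 5820672) (nat_lit 0) w3864 = true := by decide +kernel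
theorem cl876 : lchk (nat_lit 5) [w3860, w808, w281, w802, w3864, w831, w3861, w603, w906] (nat_lit 22823936) (.nod (nat_lit 15845379424384764113718413841350447495712342106) (.nod (nat_lit 15840503858631520907017759236273926352588656657) .nil (.nod (nat_lit 61478284391113555533238591353527388499577489432) .nil .nil (.dwn (nat_lit 15845379084102397192384063290776945332500203528) (nat_lit 23282704))) (.nod (nat_lit 15845389973138138662414894709060193507788621864) .nil (.nod (nat_lit 1139910540791007242678931196095962237592451913797600958640392649459835187189117611364408) (.opn (nat_lit 9096976078084529639708451939386054530439100287683043876370133423906530591246545722050560)) .dup .dup) (.dwn (nat_lit 1139910540791007242678931196095962237592451913797600958640392649459835187189117611364408) (nat_lit 4921771008)))) .nil .nil) .nil .nil (.nod (nat_lit 842055792885072894793254976) .nil (.dwn (nat_lit 20827013605923419880706884031075022326368900319955140279827561853276229079458211955098) (nat_lit 89932800)) .dup) l876 = true := by decide +kernel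
theorem cw3865 : wchk (nat_lit 5) [] [l876] (nat_lit 34) (nat_lit 1) (nat_lit 2) (nat_lit 0) (nat_lit 22597888) (nat_lit 0) w3865 = true := by decide +kernel
theorem cl877 : lchk (nat_lit 5) [w795, w1, w802, w808, w3855, w831, w604, w603, w1947, w3858, w850, w3865] (nat_lit 23225344) (.nod (nat_lit 15806353120287335522820608025252511003230685193) .nil (.nod (nat_lit 61478281668854620165730883498956576455755384848) .nil .nil (.dwn (nat_lit 15845384528620267927399478999918569420144412696) (nat_lit 23282704))) (.nod (nat_lit 15845389973138138662414894709060193507788621864) .nil (.nod (nat_lit 144917128934650969887849906251333886473519856196370699526116135913329667655108572696632) (.dwn (nat_lit 1139882322722028465733165927930086815661568850060629867720028727774870792670611756451920) (nat_lit 4922229804)) .nil .nil) (.nod (nat_lit 144917128934650969887849906251333886473519856196370699526116135913329667655108572696632) (.dwn (nat_lit 1139882322722028465733165927930086815661568850060629867720028727774870792670611756451920) (nat_lit 4922229804)) .nil .nil))) (.nod (nat_lit 15845384528620267927399478999918569420144412696) .nil .nil (.dwn (nat_lit 61478276224336749430734508371473882777622202368)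 (nat_lit 90334208))) .nil .nil l877 = true := by decide +kernel
theorem cw3866 : wchk (nat_lit 5) [] [l877] (nat_lit 33) (nat_lit 1) (nat_lit 1) (nat_lit 0) (nat_lit 156815616) (nat_lit 0) w3866 = true := by decide +kernel
theorem cw3867 : wchk (nat_lit 5) [w3866, w1063] [] (nat_lit 25) (nat_lit 2) (nat_lit 1) (nat_lit 2) (nat_lit 627262464) (nat_lit 23282692) w3867 = true := by decide +kernel
theorem cw3868 : wchk (nat_lit 5) [w126, w2272] [] (nat_lit 0) (nat_lit 0) (nat_lit 2) (nat_lit 2) (nat_lit 21777408) (nat_lit 23282692) w3868 = true := by decide +kernel
theorem cw3871 : wchk (nat_lit 5) [w831] [] (nat_lit 0) (nat_lit 2) (nat_lit 3) (nat_lit 2) (nat_lit 25165873) (nat_lit 22823936) w3871 = true := by decide +kernel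
theorem cl878 : lchk (nat_lit 5) [w1, w709, w91, w4, w158, w33, w10, w109, w815, w174, w161, w819] (nat_lit 23282688) (.nod (nat_lit 1237941847066299498502291546) .nil .nil (.nod (nat_lit 285096570277066901818998857261115089951029468171826759458535506074) (.opn (nat_lit 17661404247375991065502508203019783750021190428397169662100925843648385841820314421288)) (.dwn (nat_lit 17661404247375991065502508203019783750021190428397169662100925843648385841820314421288) (nat_lit 627262464)) .dup)) .nil .nil (.nod (nat_lit 618973008015230078430478490) .nil (.nod (nat_lit 20919978905856848510620615401913841377841556559765174524901214378705183169279248302490) (.dwn (nat_lit 145038310450889747790048238824981281769202355343994353903417728481128424133018975389784) (nat_lit 627262464)) .nil .nil) (.nod (nat_lit 20919978905856848510620615401913841377841556559765174524901214378705183169279248302490) (.dwn (nat_lit 145038310450889747790048238824981281769202355343994353903417728481128424133018975389784) (nat_lit 627262464)) .nil .nil)) l878 = true := by decide +kernel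
theorem cw3878 : wchk (nat_lit 5) [] [l878] (nat_lit 34) (nat_lit 1) (nat_lit 2) (nat_lit 0) (nat_lit 22597888) (nat_lit 0) w3878 = true := by decide +kernel
theorem cw3879 : wchk (nat_lit 5) [w3878, w2272] [] (nat_lit 0) (nat_lit 0) (nat_lit 2) (nat_lit 2) (nat_lit 23282688) (nat_lit 23282692) w3879 = true := by decide +kernel
theorem cw3880 : wchk (nat_lit 5) [w2272] [] (nat_lit 1) (nat_lit 1) (nat_lit 3) (nat_lit 2) (nat_lit 209) (nat_lit 22823936) w3880 = true := by decide +kernel
theorem cw3881 : wchk (nat_lit 5) [w368, w2272] [] (nat_lit 1) (nat_lit 1) (nat_lit 2) (nat_lit 2) (nat_lit 88821760) (nat_lit 23282692) w3881 = true := by decide +kernel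
theorem cw3882 : wchk (nat_lit 5) [w126, w2272] [] (nat_lit 1) (nat_lit 1) (nat_lit 2) (nat_lit 2) (nat_lit 88893440) (nat_lit 23282692) w3882 = true := by decide +kernel
theorem cw3884 : wchk (nat_lit 5) [w80] [] (nat_lit 1) (nat_lit 2) (nat_lit 3) (nat_lit 2) (nat_lit 80578560) (nat_lit 16777297) w3884 = true := by decide +kernel
theorem cw3888 : wchk (nat_lit 5) [] [l640] (nat_lit 33) (nat_lit 1) (nat_lit 2) (nat_lit 0) (nat_lit 156523520) (nat_lit 0) w3888 = true := by decide +kernel
theorem cw3894 : wchk (nat_lit 5) [w3878, w2272] [] (nat_lit 1) (nat_lit 1) (nat_lit 2) (nat_lit 2) (nat_lit 90334208) (nat_lit 23282692) w3894 = true := by decide +kernel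
theorem cl879 : lchk (nat_lit 5) [w3629, w3854, w1188, w2272, w34, w682, w1063, w3619, w3630, w16, w3631, w3746, w2015, w2037, w3748, w2709, w3745, w3632, w1166, w3634, w128, w3636, w3732, w799, w3733, w3735, w3736, w3737, w3749, w2265, w3751, w3752, w3753, w3803, w3808, w3810, w3812, w3813, w3814, w3844, w3867, w111, w3258, w1065, w3868, w3879, w3880, w3881, w3882, w3894] (nat_lit 23282688) (.nod (nat_lit 15845379424384764113322526772598296837977966601) (.nod (nat_lit 292295709209262796749399106825810942127045651978897362384187983897) .nil (.nod (nat_lit 292295803365788827548591007612624839050264761867567784034555088937) .nil (.nod (nat_lit 292295910076518329123183560119825859321463335190733481903103051832) (.nod (nat_lit 292296004233044359923355997137370016501911537169682338621995436105) .nil (.nod (nat_lit 15845403584432815499953433981914253726899144784) .nil (.nod (nat_lit 5391912362865034754613259453866596460392567135953290979363523638591164645355568842848) (.dwn (nat_lit 144917135419008219584452329141268849736280248769183707244743448337760519160516387883128) (nat_lit 4922229824)) .nil .nil) .dup) (.nod (nat_lit 292296456184369307764410043778353967431026322495936082756148824208)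 (.dwn (nat_lit 20933270911364578511321449154311049498030939482235842630894779873826358215086482032808) (nat_lit 90391640)) .nil .nil)) .nil (.nod (nat_lit 291576849241424578681643925212431052758130595595207598102523054272) (.dwn (nat_lit 20933276469384861902517637389889220435796136243975313474914807851670110608797661300952) (nat_lit 90391616)) .nil .nil)) (.nod (nat_lit 292297008569322021792317291272671498748255725903494128073229109480) (.dwn (nat_lit 20933281101068431395165454583812690198779680941817571705681564613340542764103337937152) (nat_lit 90391684)) .nil .nil)) (.nod (nat_lit 292297309870205320352993971724117424921289945943980334609818355992) (.dwn (nat_lit 20933286659088714786342835216520853914359934579228281582601672727345061350470149900592) (nat_lit 90391708)) .nil .nil)) .nil (.nod (nat_lit 292297611171088618912612063676920600577036046741870862717033304392) (.dwn (nat_lit 20920012253978548864439464006888001179831066160392566142922509635590023516100719446368) (nat_lit 90391732)) .nil .nil)) .nil .nil (.nod (nat_lit 15845501585754488730230916746463487304494909808) (.dwn (nat_lit 20933296848792567670168033043152487392923693803787125265305296740780971132949405976720)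 (nat_lit 90391748)) .nil .nil) l879 = true := by decide +kernel
theorem cw3895 : wchk (nat_lit 5) [] [l879] (nat_lit 108241) (nat_lit 1) (nat_lit 1) (nat_lit 0) (nat_lit 628295782656) (nat_lit 0) w3895 = true := by decide +kernel
theorem cl880 : lchk (nat_lit 5) [w261, w15, w219, w170, w2797, w1554, w3193] (nat_lit 23282688) (.nod (nat_lit 15762448187895361437569866025374516734850191368) (.nod (nat_lit 280057262787084591423785861449458035991232446945427242174555379736) .nil (.opn (nat_lit 7874780602634650737836971441833919147300788064902923078205125855232)) .dup) .nil (.dwn (nat_lit 280057262787084591423785861449458035991232446945427242174555379736) (nat_lit 90391552))) (.nod (nat_lit 15762448187895361437569866025374516734850191368) .nil (.dwn (nat_lit 291395918061003792995224139798969707243892214799628509341453340712) (nat_lit 627262488)) .dup) .dup .nil l880 = true := by decide +kernel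
theorem cw3896 : wchk (nat_lit 5) [] [l880] (nat_lit 3) (nat_lit 3) (nat_lit 1) (nat_lit 0) (nat_lit 5820672) (nat_lit 0) w3896 = true := by decide +kernel
theorem cw3897 : wchk (nat_lit 5) [w3305, w34] [] (nat_lit 209) (nat_lit 0) (nat_lit 1) (nat_lit 2) (nat_lit 660816896) (nat_lit 23282692) w3897 = true := by decide +kernel
theorem cw3898 : wchk (nat_lit 5) [] [l786] (nat_lit 19) (nat_lit 2) (nat_lit 1) (nat_lit 0) (nat_lit 5820672) (nat_lit 0) w3898 = true := by decide +kernel
theorem cw3899 : wchk (nat_lit 5) [w3898, w34] [] (nat_lit 209) (nat_lit 0) (nat_lit 1) (nat_lit 2) (nat_lit 23282688) (nat_lit 23282692) w3899 = true := by decide +kernel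
theorem cw3900 : wchk (nat_lit 5) [w1291, w34] [] (nat_lit 209) (nat_lit 0) (nat_lit 1) (nat_lit 2) (nat_lit 23225344) (nat_lit 23282692) w3900 = true := by decide +kernel
theorem cw3901 : wchk (nat_lit 5) [w1310, w34] [] (nat_lit 209) (nat_lit 0) (nat_lit 1) (nat_lit 2) (nat_lit 7103267840) (nat_lit 23282692) w3901 = true := by decide +kernel
theorem cl881 : lchk (nat_lit 5) [w3512, w3513, w933, w34, w37, w3618, w3619, w1188, w2272, w3504, w3900, w2221, w3901, w3895, w2037, w3896, w3897, w3899, w3620, w3621, w3397, w3622, w3623, w3624, w3625, w3626, w3627, w909, w3613, w3614, w3615, w3616, w3617, w3519, w111, w3192, w1065, w3520, w934, w3514, w3516, w1166, w3517] (nat_lit 23282688) (.nod (nat_lit 15845379424384764113322526772598296837977966601) (.nod (nat_lit 292295709209262796749360077799454578169036025376980764505618597905) .nil (.nod (nat_lit 292295753148974944456125430094498411357716353802610499841504397345) .nil (.nod (nat_lit 292295853582602710643056682875462115084957882414963669682970331184) (.nod (nat_lit 493153820962863864249804356250421705555840683705642731164331303848000) .nil (.nod (nat_lit 7874781054585975685677947436206990607969820551254831997366807382088)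 (.dwn (nat_lit 582013450671127152167310527666858243160125052669417826809430030689933213183897789294872672) (nat_lit 2513183130624)) .nil .nil) (.nod (nat_lit 7874781054585975685677947436206990607969820551254831997366807382088) (.dwn (nat_lit 582013450671127152167310527666858243160125052669417826809430030689933213183897789294872672) (nat_lit 2513183130624)) .nil .nil)) (.nod (nat_lit 9097082329831950514455870097201083217615774413453216159606574137064928868202782813235312) (.dwn (nat_lit 145264076308464387398959765109528561118738655483893264191805685900645396911086726973576) (nat_lit 314159875072)) .nil .nil) .dup) (.nod (nat_lit 292296506401183190857856157186928288459865359169350450512247031960) (.nod (nat_lit 9097082336316307511745595848875446082506137343597728898532615629390160498932226088143024) (.dwn (nat_lit 145264083719158094651044059215812702504748885245262972940704113724734591959398079957192) (nat_lit 627262568)) .nil .nil) .nil .nil)) (.nod (nat_lit 292296958352508138698871177864097177719416689230079760317130901728) (.dwn (nat_lit 20933280174731717496635891145027996246182972002249120059528213261006456333042202609912) (nat_lit 90391680))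 .nil .nil)) .nil (.nod (nat_lit 292297259653391437258489269816900353375162790027970288424345850128) (.dwn (nat_lit 20920005769621551574732519935395143511654103583413404619849050169251418498672772155688) (nat_lit 627262464)) .nil .nil)) .nil .nil (.nod (nat_lit 426502552266025165652276468090007368062578510128) (.dwn (nat_lit 20933289438098856481931525532874935772150022371629539092471224865599974857818808600904) (nat_lit 90391720)) .nil .nil) l881 = true := by decide +kernel
theorem cw3902 : wchk (nat_lit 5) [] [l881] (nat_lit 2) (nat_lit 2) (nat_lit 1) (nat_lit 0) (nat_lit 5820672) (nat_lit 0) w3902 = true := by decide +kernel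
theorem cw3903 : wchk (nat_lit 5) [] [l552] (nat_lit 3) (nat_lit 2) (nat_lit 2) (nat_lit 0) (nat_lit 22583552) (nat_lit 0) w3903 = true := by decide +kernel
theorem cw3904 : wchk (nat_lit 5) [w1291, w37] [] (nat_lit 17) (nat_lit 2) (nat_lit 1) (nat_lit 2) (nat_lit 23225344) (nat_lit 23282692) w3904 = true := by decide +kernel
theorem cl882 : lchk (nat_lit 5) [w3000, w37, w933, w3511, w3504, w3904, w2888, w3902, w2037, w3896, w3903, w3001, w3507, w1322, w3508, w3509, w3510] (nat_lit 23282688) .nil (.nod (nat_lit 292295652715347178269233200214808467011592109119389600780008114184) .nil (.nod (nat_lit 292295702932161061362679313623382788040431145792803968536106321936) (.nod (nat_lit 1134794086497432438085141574667911283816771976771565831240872708120) .nil (.nod (nat_lit 7874780803501906270210716869164119002825625367887760158586316343328) (.dwn (nat_lit 20933257942650583931926368614195341383861918423579924187889771178386465389696385370160) (nat_lit 39281968128)) .nil .nil) (.nod (nat_lit 7874780803501906270210716869164119002825625367887760158586316343328) (.dwn (nat_lit 20933257942650583931926368614195341383861918423579924187889771178386465389696385370160)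 (nat_lit 39281968128)) .nil .nil)) (.nod (nat_lit 5391908657518179161610992634306570813730153051792490271171951372852294856040229808192) (.dwn (nat_lit 145264070750444100071630171072826987168394921062278293530599185165455465326663615989840) (nat_lit 627262464)) .nil .nil) (.nod (nat_lit 5391908657518179161610992634306570813730153051792490271171951372852294856040229808192) (.dwn (nat_lit 145264070750444100071630171072826987168394921062278293530599185165455465326663615989840) (nat_lit 627262464)) .nil .nil)) (.nod (nat_lit 292296154883486009203694334300551677299982475853533278340990191704) (.nod (nat_lit 20933264427007581221633312685688199052038881000559085710963230644725070407124332660840) (.dwn (nat_lit 145264075382127669564277988266750456931378465760120551761365941927125897481969292626040) (nat_lit 627262528)) .nil .nil) .nil .nil)) (.nod (nat_lit 292295702932161061362679313623382788040431145792803968536106321936) (.nod (nat_lit 1134794086497432438085141574667911283816771976771565831240872708120) .nil (.nod (nat_lit 7874780803501906270210716869164119002825625367887760158586316343328) (.dwn (nat_lit 20933257942650583931926368614195341383861918423579924187889771178386465389696385370160)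 (nat_lit 56461837312)) .nil .nil) (.nod (nat_lit 7874780803501906270210716869164119002825625367887760158586316343328) (.dwn (nat_lit 20933257942650583931926368614195341383861918423579924187889771178386465389696385370160) (nat_lit 56461837312)) .nil .nil)) (.nod (nat_lit 5391908657518179161610992634306570813730153051792490271171951372852294856040229808192) (.dwn (nat_lit 145264070750444100071630171072826987168394921062278293530599185165455465326663615989840) (nat_lit 627262464)) .nil .nil) (.nod (nat_lit 5391908657518179161610992634306570813730153051792490271171951372852294856040229808192) (.dwn (nat_lit 145264070750444100071630171072826987168394921062278293530599185165455465326663615989840) (nat_lit 627262464)) .nil .nil)) (.nod (nat_lit 292296154883486009203694334300551677299982475853533278340990191704) (.nod (nat_lit 20933264427007581221633312685688199052038881000559085710963230644725070407124332660840) (.dwn (nat_lit 145264075382127669564277988266750456931378465760120551761365941927125897481969292626040) (nat_lit 627262528)) .nil .nil) .nil .nil) l882 = true := by decide +kernel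
theorem cw3905 : wchk (nat_lit 5) [] [l882] (nat_lit 153) (nat_lit 1) (nat_lit 0) (nat_lit 0) (nat_lit 156815616) (nat_lit 0) w3905 = true := by decide +kernel
theorem cw3906 : wchk (nat_lit 5) [w284, w16] [] (nat_lit 18) (nat_lit 0) (nat_lit 1) (nat_lit 2) (nat_lit 23282688) (nat_lit 90334212) w3906 = true := by decide +kernel
theorem cw3907 : wchk (nat_lit 5) [w1310, w37] [] (nat_lit 18) (nat_lit 1) (nat_lit 2) (nat_lit 2) (nat_lit 123874304) (nat_lit 23225348) w3907 = true := by decide +kernel
theorem cw3908 : wchk (nat_lit 5) [w2027, w16] [] (nat_lit 18) (nat_lit 0) (nat_lit 1) (nat_lit 2) (nat_lit 23282688) (nat_lit 90334212) w3908 = true := by decide +kernel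

end Pool.Agent.W319.GCI.K5
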