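import Pool.Agent.W319.GCI.K5D0
import Pool.Agent.W319.GCI.K5D1
import Pool.Agent.W319.GCI.K5D2
import Pool.Agent.W319.GCI.K5D3
import Pool.Agent.W319.GCI.K5D4
import Pool.Agent.W319.GCI.K5D5
import Pool.Agent.W319.GCI.K5D6
import Pool.Agent.W319.GCI.K5D7
import Pool.Agent.W319.GCI.K5D8
import Pool.Agent.W319.GCI.K5D9
import Pool.Agent.W319.GCI.K5D10
import Pool.Agent.W319.GCI.K5D11
import Pool.Agent.W319.GCI.K5D12
import Pool.Agent.W319.GCI.K5D13
import Pool.Agent.W319.GCI.K5D14
import Pool.Agent.W319.GCI.K5D15
set_option autoImplicit false
set_option maxRecDepth 100000
set_option linter.all false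
namespace Pool.Agent.W319.GCI.K5
open Pool.Agent.W319.GCI

theorem cw3909 : wchk (nat_lit 5) [w284, w16] [] (nat_lit 18) (nat_lit 0) (nat_lit 1) (nat_lit 2) (nat_lit 90384384) (nat_lit 90334212) w3909 = true := by decide +kernel
theorem cl883 : lchk (nat_lit 5) [w284, w1019, w1063, w16, w3227, w42, w1346, w2037, w15, w3505, w128, w1139, w261, w2520] (nat_lit 4922158080) .nil (.nod (nat_lit 1133894107036121372669148333968245329114423075576368309373942519817) (.nod (nat_lit 5378624178496249586476720049451588855139647834317622363671354927793041342169344559128) (.nod (nat_lit 292295759426076679826999832643223692940859937187619795180404033561) .nil (.nod (nat_lit 292295753148974944440319068807434269733193521066817606642659969048) .nil (.nod (nat_lit 5391905878508037465192852321523414463333589868150410760135904026454159808773804607528) (.dwn (nat_lit 20916658915074236180679108729963521504873529231128424237623526333206977677656752543752) (nat_lit 627190784)) .nil .nil) (.nod (nat_lit 5391905878508037465192852321523414463333589868150410760135904026454159808773804607528) (.dwn (nat_lit 20916658915074236180679108729963521504873529231128424237623526333206977677656752543752)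 (nat_lit 627190784)) .nil .nil)) (.nod (nat_lit 292296004233044359923346240221063292433331726702068146060235589696) (.dwn (nat_lit 20584663542159858779278270138472921120236396934621517353604158714966793572339081734232) (nat_lit 90319872)) .nil .nil)) .nil (.nod (nat_lit 5390254220147156386981330504993250539015970825089140063130445203475870935892620560424) (.dwn (nat_lit 20916658915074236180679108729963521504873529231128424237623526333206977677656752543752) (nat_lit 895626240)) .nil .nil)) (.dwn (nat_lit 153021463577206425333578952187919205003065671317492222016372660420453817704338300753928) (nat_lit 660745216)) .dup) .nil (.dwn (nat_lit 62215023218305374038981477515974991265384115818426962489521618573312) (nat_lit 4955712512)) l883 = true := by decide +kernel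
theorem cw3910 : wchk (nat_lit 5) [] [l883] (nat_lit 18) (nat_lit 2) (nat_lit 2) (nat_lit 0) (nat_lit 156815616) (nat_lit 0) w3910 = true := by decide +kernel
theorem cw3911 : wchk (nat_lit 5) [w1211, w16] [] (nat_lit 18) (nat_lit 0) (nat_lit 1) (nat_lit 2) (nat_lit 90391552) (nat_lit 90334212) w3911 = true := by decide +kernel
theorem cw3912 : wchk (nat_lit 5) [w16, w284] [] (nat_lit 0) (nat_lit 0) (nat_lit 3) (nat_lit 2) (nat_lit 21727232) (nat_lit 22709252) w3912 = true := by decide +kernel
theorem cw3913 : wchk (nat_lit 5) [w164, w2990] [] (nat_lit 1) (nat_lit 1) (nat_lit 2) (nat_lit 2) (nat_lit 90319872) (nat_lit 23153668) w3913 = true := by decide +kernel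
theorem cw3914 : wchk (nat_lit 5) [w114, w2989] [] (nat_lit 1) (nat_lit 1) (nat_lit 3) (nat_lit 2) (nat_lit 89796608) (nat_lit 22250500) w3914 = true := by decide +kernel
theorem cw3915 : wchk (nat_lit 5) [w220, w284] [] (nat_lit 0) (nat_lit 0) (nat_lit 3) (nat_lit 2) (nat_lit 22293504) (nat_lit 22709252) w3915 = true := by decide +kernel
theorem cw3916 : wchk (nat_lit 5) [w1067, w2990] [] (nat_lit 1) (nat_lit 1) (nat_lit 2) (nat_lit 2) (nat_lit 90269696) (nat_lit 23153668) w3916 = true := by decide +kernel
theorem cw3917 : wchk (nat_lit 5) [w220, w284] [] (nat_lit 0) (nat_lit 0) (nat_lit 4) (nat_lit 2) (nat_lit 5606400) (nat_lit 18523140) w3917 = true := by decide +kernel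
theorem cw3918 : wchk (nat_lit 5) [w1019, w2990] [] (nat_lit 1) (nat_lit 1) (nat_lit 2) (nat_lit 2) (nat_lit 23153664) (nat_lit 23153668) w3918 = true := by decide +kernel
theorem cw3919 : wchk (nat_lit 5) [w267, w2990] [] (nat_lit 0) (nat_lit 0) (nat_lit 2) (nat_lit 2) (nat_lit 21784576) (nat_lit 23153668) w3919 = true := by decide +kernel
theorem cw3920 : wchk (nat_lit 5) [w1139, w16] [] (nat_lit 0) (nat_lit 2) (nat_lit 3) (nat_lit 2) (nat_lit 22816768) (nat_lit 21727236) w3920 = true := by decide +kernel
theorem cw3921 : wchk (nat_lit 5) [w1139, w16] [] (nat_lit 0) (nat_lit 2) (nat_lit 3) (nat_lit 2) (nat_lit 22293504) (nat_lit 21727236) w3921 = true := by decide +kernel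
theorem cw3922 : wchk (nat_lit 5) [w128, w16] [] (nat_lit 0) (nat_lit 2) (nat_lit 3) (nat_lit 2) (nat_lit 23282688) (nat_lit 21727236) w3922 = true := by decide +kernel
theorem cw3923 : wchk (nat_lit 5) [w1312, w2990] [] (nat_lit 17) (nat_lit 1) (nat_lit 2) (nat_lit 2) (nat_lit 627133440) (nat_lit 23153668) w3923 = true := by decide +kernel
theorem cw3924 : wchk (nat_lit 5) [w162, w284] [] (nat_lit 1) (nat_lit 1) (nat_lit 3) (nat_lit 2) (nat_lit 22293504) (nat_lit 22709252) w3924 = true := by decide +kernel
theorem cw3925 : wchk (nat_lit 5) [w2037, w16] [] (nat_lit 3) (nat_lit 2) (nat_lit 3) (nat_lit 2) (nat_lit 88821760) (nat_lit 21727236) w3925 = true := by decide +kernel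
theorem cw3926 : wchk (nat_lit 5) [w1019, w16] [] (nat_lit 3) (nat_lit 2) (nat_lit 3) (nat_lit 2) (nat_lit 89359360) (nat_lit 21727236) w3926 = true := by decide +kernel
theorem cw3927 : wchk (nat_lit 5) [w167, w16] [] (nat_lit 3) (nat_lit 2) (nat_lit 3) (nat_lit 2) (nat_lit 21712896) (nat_lit 21727236) w3927 = true := by decide +kernel
theorem cw3928 : wchk (nat_lit 5) [w16] [] (nat_lit 18) (nat_lit 0) (nat_lit 3) (nat_lit 2) (nat_lit 22644736) (nat_lit 89416704) w3928 = true := by decide +kernel
theorem cl884 : lchk (nat_lit 5) [w3912, w3925, w16, w3926, w3571, w2868, w2861, w2839, w337, w1599, w3918, w284, w3304, w3913, w3923, w2934, w3924, w2834, w3914, w2828, w3915, w3916, w3917, w3919, w128, w1139, w2848, w3920, w3921, w3922, w3909, w3928] (nat_lit 468778697728) .nil (.nod (nat_lit 735793340621979026928806166843338576853281693617478952091292470249473) (.nod (nat_lit 20933254353095817575123590374383722554519586748925372158949928910902547304485917214736) (.nod (nat_lit 286446555161787838333235660730630716556747749892187186377417478193) .nil (.nod (nat_lit 290766155275197653541753270131992727099522768037513413832931233865) (.nod (nat_lit 290766148998095918155072505955920936970917888453336617863418957896)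 .nil (.dwn (nat_lit 286446548884686102946554896554558926428142870308010390407905202224) (nat_lit 895697960)) .dup) (.nod (nat_lit 5390244146235392740185792066685576293704125072561954160389899465323791828853024180312) .nil (.nod (nat_lit 145264073529454241759344080133727837808133315991142360576974883424838146731288438458472) .nil (.nod (nat_lit 5375304071921548018363562125878757994845776819144779076345565680277664986842455693328) (.dwn (nat_lit 20825367505582822193676972559269581195565509241714221859714994072587792747985244475512) (nat_lit 627262464)) .nil .nil) .dup) (.nod (nat_lit 5363697999233113341171570453375439530013447001047373377762935231064024081909273520280) (.dwn (nat_lit 20933271837701292409869820195965750672812503707003987740776846508332014446572952258736) (nat_lit 90391592)) .nil .nil)) (.nod (nat_lit 5391923478905601537248078484238147313895915043202057364891482501393811037322187788488) (.dwn (nat_lit 20905057474069370996428131496775477040994109049040932527924991842399509072606112680168) (nat_lit 1164133376)) .nil .nil)) (.nod (nat_lit 286446548884686102946554896554558926428142870308010390407905202224) (.dwn (nat_lit 20933254237303728829827142940626530552764638131657564561075431127613081228486296160496)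 (nat_lit 7606584320)) .nil .nil)) (.dwn (nat_lit 28703929806206644628225950609425903758444275995282381262946238140059245063165121612024) (nat_lit 7371703296)) (.dwn (nat_lit 28703929806206644628225950609425903758444275995282381262946238140059245063165121612024) (nat_lit 7371703296))) (.dwn (nat_lit 13580762121046555930192202456844746189293101292034937064869530629732719039332346115819520) (nat_lit 58642875392)) .dup) .nil (.dwn (nat_lit 5885564403208148354721611039810986927839178009268473464100023727196160) (nat_lit 468812252160)) l884 = true := by decide +kernel
theorem cw3929 : wchk (nat_lit 5) [] [l884] (nat_lit 112274) (nat_lit 1) (nat_lit 2) (nat_lit 0) (nat_lit 628295782656) (nat_lit 0) w3929 = true := by decide +kernel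
theorem cw3930 : wchk (nat_lit 5) [w164, w2989] [] (nat_lit 1) (nat_lit 1) (nat_lit 1) (nat_lit 2) (nat_lit 90384384) (nat_lit 23282692) w3930 = true := by decide +kernel
theorem cw3931 : wchk (nat_lit 5) [w114, w2989] [] (nat_lit 1) (nat_lit 1) (nat_lit 3) (nat_lit 2) (nat_lit 89337856) (nat_lit 22250500) w3931 = true := by decide +kernel
theorem cw3932 : wchk (nat_lit 5) [w1067, w2989] [] (nat_lit 1) (nat_lit 1) (nat_lit 1) (nat_lit 2) (nat_lit 90262528) (nat_lit 23282692) w3932 = true := by decide +kernel
theorem cw3933 : wchk (nat_lit 5) [w1019, w2989] [] (nat_lit 1) (nat_lit 1) (nat_lit 1) (nat_lit 2) (nat_lit 23160832) (nat_lit 23282692) w3933 = true := by decide +kernel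
theorem cw3934 : wchk (nat_lit 5) [w267, w2989] [] (nat_lit 0) (nat_lit 0) (nat_lit 1) (nat_lit 2) (nat_lit 21777408) (nat_lit 23282692) w3934 = true := by decide +kernel
theorem cw3935 : wchk (nat_lit 5) [w1312, w2989] [] (nat_lit 17) (nat_lit 1) (nat_lit 1) (nat_lit 2) (nat_lit 627140608) (nat_lit 23282692) w3935 = true := by decide +kernel
theorem cw3936 : wchk (nat_lit 5) [w16, w337] [] (nat_lit 0) (nat_lit 2) (nat_lit 1) (nat_lit 2) (nat_lit 23282688) (nat_lit 122318852) w3936 = true := by decide +kernel
theorem cw3937 : wchk (nat_lit 5) [w16, w337] [] (nat_lit 0) (nat_lit 2) (nat_lit 1) (nat_lit 2) (nat_lit 23282688) (nat_lit 122318852) w3937 = true := by decide +kernel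
theorem cl885 : lchk (nat_lit 5) [w3912, w3927, w16, w3936, w2868, w3571, w2861, w337, w2839, w1599, w2050, w3933, w284, w3304, w3930, w3935, w2934, w3924, w2834, w3931, w2828, w3915, w3932, w3917, w3934, w1139, w128, w2848, w3921, w3920, w3922, w3926, w3909, w2874] (nat_lit 468778640384) .nil (.nod (nat_lit 735792620713735198901162724044321208012435761554917553074501199382529) (.nod (nat_lit 20919974389965368255302851865255046155743710920924039173941371599507847763473772234768) (.nod (nat_lit 290676016094277500737871832108199049095308400176271295101187299377) .nil (.nod (nat_lit 1535616063897398168208868774770667661766057097643734479938925189193) (.nod (nat_lit 1535616057620296432822188010594595871637452218059557683969412913224) .nil (.dwn (nat_lit 290676009817175765351776476104883364661707371731735815891935467568) (nat_lit 895697964)) (.dwn (nat_lit 290676009817175765351776476104883364661707371731735815891935467568) (nat_lit 895697964))) (.nod (nat_lit 5375304187713637255679757449016115237346792451042132970663505673641665351447066527840) .nil (.nod (nat_lit 145250794492660506338052905013167041478860702989300904917090876510415011066990013352048) .nil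 (.nod (nat_lit 5390244030443303502869596643114591285016256256485102664809827712877350244163943616528) (.dwn (nat_lit 20704188768354186048843107250113478955898367130301113000757410152388465352157136377984) (nat_lit 627205120)) .nil .nil) .dup) (.nod (nat_lit 5362038930178521075015838084920232123589336763133060221635897767294877878404278036640) (.dwn (nat_lit 20919992800907556988577114818435494836956647600202852326514403957211892777775358724280) (nat_lit 90391596)) .nil .nil)) (.nod (nat_lit 5391924405242315435788980477863132701876540735149301004218041923752827995697894283464) (.dwn (nat_lit 20903398405014778729979382713675258416100351684787751281515843780740881909616823552240) (nat_lit 1164076032)) .nil .nil)) (.nod (nat_lit 290676009817175765351191067932127258966703520592094499131675023408) (.dwn (nat_lit 20919974274173279017986657897971663756765740277216918327004389487025710677034678044928) (nat_lit 7606526976)) .nil .nil)) (.dwn (nat_lit 28690649843076195302085754691939968130149875707243453497939509378414154484975592970504) (nat_lit 7371645952)) .dup) (.dwn (nat_lit 13580748841083425480872380998427373684866681934381614265615085642671255963639910064506880)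 (nat_lit 58642818048)) .dup) .nil (.dwn (nat_lit 5885563683299904526693967597011969558998332077205912065083232456329216) (nat_lit 468812194816)) l885 = true := by decide +kernel
theorem cw3938 : wchk (nat_lit 5) [] [l885] (nat_lit 112274) (nat_lit 1) (nat_lit 1) (nat_lit 0) (nat_lit 628295782656) (nat_lit 0) w3938 = true := by decide +kernel
theorem cw3939 : wchk (nat_lit 5) [w710, w804] [] (nat_lit 2) (nat_lit 1) (nat_lit 1) (nat_lit 2) (nat_lit 21727232) (nat_lit 90334212) w3939 = true := by decide +kernel
theorem cw3940 : wchk (nat_lit 5) [w3898, w37] [] (nat_lit 18) (nat_lit 1) (nat_lit 2) (nat_lit 2) (nat_lit 627190784) (nat_lit 23225348) w3940 = true := by decide +kernel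
theorem cw3941 : wchk (nat_lit 5) [w1291, w37] [] (nat_lit 146) (nat_lit 0) (nat_lit 2) (nat_lit 2) (nat_lit 23282688) (nat_lit 627190788) w3941 = true := by decide +kernel
theorem cw3942 : wchk (nat_lit 5) [] [l295] (nat_lit 2) (nat_lit 2) (nat_lit 0) (nat_lit 0) (nat_lit 22454528) (nat_lit 0) w3942 = true := by decide +kernel
theorem cw3943 : wchk (nat_lit 5) [] [l753] (nat_lit 18) (nat_lit 2) (nat_lit 2) (nat_lit 0) (nat_lit 156797696) (nat_lit 0) w3943 = true := by decide +kernel
theorem cw3944 : wchk (nat_lit 5) [w105, w37] [] (nat_lit 2) (nat_lit 1) (nat_lit 3) (nat_lit 2) (nat_lit 626667520) (nat_lit 22709252) w3944 = true := by decide +kernel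
theorem cw3945 : wchk (nat_lit 5) [w255, w37] [] (nat_lit 18) (nat_lit 1) (nat_lit 2) (nat_lit 2) (nat_lit 625764352) (nat_lit 23225348) w3945 = true := by decide +kernel
theorem cw3946 : wchk (nat_lit 5) [] [l660] (nat_lit 0) (nat_lit 3) (nat_lit 3) (nat_lit 0) (nat_lit 5820672) (nat_lit 0) w3946 = true := by decide +kernel
theorem cw3947 : wchk (nat_lit 5) [w3766, w37] [] (nat_lit 18) (nat_lit 1) (nat_lit 2) (nat_lit 2) (nat_lit 626796544) (nat_lit 23225348) w3947 = true := by decide +kernel
theorem cw3948 : wchk (nat_lit 5) [w181, w37] [] (nat_lit 18) (nat_lit 1) (nat_lit 2) (nat_lit 2) (nat_lit 626273280) (nat_lit 23225348) w3948 = true := by decide +kernel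
theorem cw3949 : wchk (nat_lit 5) [] [l753] (nat_lit 18) (nat_lit 1) (nat_lit 2) (nat_lit 0) (nat_lit 156797696) (nat_lit 0) w3949 = true := by decide +kernel
theorem cw3950 : wchk (nat_lit 5) [] [l385] (nat_lit 18) (nat_lit 1) (nat_lit 2) (nat_lit 0) (nat_lit 156797696) (nat_lit 0) w3950 = true := by decide +kernel
theorem cw3951 : wchk (nat_lit 5) [w16, w267] [] (nat_lit 146) (nat_lit 0) (nat_lit 2) (nat_lit 2) (nat_lit 22307840) (nat_lit 625764356) w3951 = true := by decide +kernel
theorem cw3952 : wchk (nat_lit 5) [w164] [] (nat_lit 1) (nat_lit 1) (nat_lit 3) (nat_lit 2) (nat_lit 89223168) (nat_lit 209) w3952 = true := by decide +kernel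
theorem cw3953 : wchk (nat_lit 5) [] [l671] (nat_lit 1) (nat_lit 1) (nat_lit 3) (nat_lit 0) (nat_lit 22579968) (nat_lit 0) w3953 = true := by decide +kernel
theorem cw3954 : wchk (nat_lit 5) [w164] [] (nat_lit 1) (nat_lit 1) (nat_lit 3) (nat_lit 2) (nat_lit 78213120) (nat_lit 209) w3954 = true := by decide +kernel
theorem cw3955 : wchk (nat_lit 5) [w1312] [] (nat_lit 17) (nat_lit 1) (nat_lit 3) (nat_lit 2) (nat_lit 626208768) (nat_lit 209) w3955 = true := by decide +kernel
theorem cw3956 : wchk (nat_lit 5) [w162, w267] [] (nat_lit 146) (nat_lit 0) (nat_lit 2) (nat_lit 2) (nat_lit 21712896) (nat_lit 625764356) w3956 = true := by decide +kernel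
theorem cw3957 : wchk (nat_lit 5) [w114] [] (nat_lit 1) (nat_lit 1) (nat_lit 4) (nat_lit 2) (nat_lit 77689856) (nat_lit 205) w3957 = true := by decide +kernel
theorem cw3958 : wchk (nat_lit 5) [] [l81] (nat_lit 1) (nat_lit 1) (nat_lit 3) (nat_lit 0) (nat_lit 19336448) (nat_lit 0) w3958 = true := by decide +kernel
theorem cw3959 : wchk (nat_lit 5) [w1067] [] (nat_lit 1) (nat_lit 1) (nat_lit 3) (nat_lit 2) (nat_lit 89359360) (nat_lit 209) w3959 = true := by decide +kernel
theorem cw3960 : wchk (nat_lit 5) [w220, w267] [] (nat_lit 146) (nat_lit 0) (nat_lit 2) (nat_lit 2) (nat_lit 21712896) (nat_lit 625764356) w3960 = true := by decide +kernel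
theorem cw3961 : wchk (nat_lit 5) [] [l81] (nat_lit 0) (nat_lit 3) (nat_lit 1) (nat_lit 0) (nat_lit 5705984) (nat_lit 0) w3961 = true := by decide +kernel
theorem cw3962 : wchk (nat_lit 5) [w3961] [] (nat_lit 1) (nat_lit 1) (nat_lit 3) (nat_lit 2) (nat_lit 90391552) (nat_lit 209) w3962 = true := by decide +kernel
theorem cw3963 : wchk (nat_lit 5) [w220, w267] [] (nat_lit 146) (nat_lit 0) (nat_lit 2) (nat_lit 2) (nat_lit 9154560) (nat_lit 625764356) w3963 = true := by decide +kernel
theorem cw3964 : wchk (nat_lit 5) [w1019] [] (nat_lit 1) (nat_lit 1) (nat_lit 3) (nat_lit 2) (nat_lit 22228992) (nat_lit 209) w3964 = true := by decide +kernel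
theorem cw3965 : wchk (nat_lit 5) [] [l745] (nat_lit 4) (nat_lit 2) (nat_lit 1) (nat_lit 0) (nat_lit 22354176) (nat_lit 0) w3965 = true := by decide +kernel
theorem cw3966 : wchk (nat_lit 5) [w220] [] (nat_lit 0) (nat_lit 0) (nat_lit 3) (nat_lit 2) (nat_lit 22293504) (nat_lit 209) w3966 = true := by decide +kernel
theorem cw3967 : wchk (nat_lit 5) [w220] [] (nat_lit 0) (nat_lit 0) (nat_lit 3) (nat_lit 2) (nat_lit 11283456) (nat_lit 209) w3967 = true := by decide +kernel
theorem cw3968 : wchk (nat_lit 5) [w2844] [] (nat_lit 0) (nat_lit 0) (nat_lit 4) (nat_lit 2) (nat_lit 11240448) (nat_lit 205) w3968 = true := by decide +kernel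
theorem cw3969 : wchk (nat_lit 5) [w262, w16] [] (nat_lit 18) (nat_lit 1) (nat_lit 2) (nat_lit 2) (nat_lit 625764352) (nat_lit 22307844) w3969 = true := by decide +kernel
theorem cw3970 : wchk (nat_lit 5) [w220] [] (nat_lit 0) (nat_lit 0) (nat_lit 4) (nat_lit 2) (nat_lit 5606400) (nat_lit 205) w3970 = true := by decide +kernel
theorem cw3971 : wchk (nat_lit 5) [w3970, w16] [] (nat_lit 0) (nat_lit 1) (nat_lit 1) (nat_lit 2) (nat_lit 23282688) (nat_lit 22823940) w3971 = true := by decide +kernel
theorem cw3972 : wchk (nat_lit 5) [w3970, w16] [] (nat_lit 0) (nat_lit 1) (nat_lit 1) (nat_lit 2) (nat_lit 19612672) (nat_lit 22823940) w3972 = true := by decide +kernel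
theorem cw3973 : wchk (nat_lit 5) [w162, w16] [] (nat_lit 2) (nat_lit 1) (nat_lit 2) (nat_lit 2) (nat_lit 89402368) (nat_lit 22307844) w3973 = true := by decide +kernel
theorem cw3974 : wchk (nat_lit 5) [w162, w16] [] (nat_lit 2) (nat_lit 1) (nat_lit 2) (nat_lit 2) (nat_lit 85273600) (nat_lit 22307844) w3974 = true := by decide +kernel
theorem cw3975 : wchk (nat_lit 5) [w817, w16] [] (nat_lit 2) (nat_lit 1) (nat_lit 2) (nat_lit 2) (nat_lit 89416704) (nat_lit 22307844) w3975 = true := by decide +kernel
theorem cw3976 : wchk (nat_lit 5) [w1932, w16] [] (nat_lit 2) (nat_lit 1) (nat_lit 1) (nat_lit 2) (nat_lit 88771584) (nat_lit 22823940) w3976 = true := by decide +kernel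
theorem cw3977 : wchk (nat_lit 5) [w337] [] (nat_lit 0) (nat_lit 1) (nat_lit 3) (nat_lit 2) (nat_lit 209) (nat_lit 89925632) w3977 = true := by decide +kernel
theorem cw3978 : wchk (nat_lit 5) [w337] [] (nat_lit 0) (nat_lit 1) (nat_lit 3) (nat_lit 2) (nat_lit 209) (nat_lit 89925632) w3978 = true := by decide +kernel
theorem cw3979 : wchk (nat_lit 5) [w337] [] (nat_lit 2) (nat_lit 1) (nat_lit 3) (nat_lit 2) (nat_lit 16777297) (nat_lit 89925632) w3979 = true := by decide +kernel
theorem cw3980 : wchk (nat_lit 5) [w337] [] (nat_lit 2) (nat_lit 1) (nat_lit 3) (nat_lit 2) (nat_lit 209) (nat_lit 89925632) w3980 = true := by decide +kernel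
theorem cl886 : lchk (nat_lit 5) [w3951, w3973, w3974, w2839, w126, w16, w267, w970, w3952, w3953, w3954, w3955, w284, w2934, w3956, w1227, w3957, w3958, w3959, w3960, w3962, w3963, w3964, w721, w2709, w1019, w2936, w3965, w3966, w1414, w2938, w3967, w3968, w3969, w3922, w3971, w3972, w3975, w3976, w3979] (nat_lit 23282688) .nil (.nod (nat_lit 858979739788753649222977553) (.nod (nat_lit 5152865731615325046919654604578365735134006196180100546973439407044276225671631471002) (.nod (nat_lit 286536593909080225292222827877071935343178534980827267095397355576) .nil (.nod (nat_lit 292296004233044359923395023101185078170632936494747747466841851984) .nil (.nod (nat_lit 5391912362865034754897366351175655356574860433613085229281821297446707965460541038632) (.dwn (nat_lit 20800464795703088023425927594401435064280122720545755872464797454838651578658912028776) (nat_lit 314159875072)) .nil .nil) .dup) (.nod (nat_lit 292206367220263038122038681481653499161994113652211837908657023112) (.dwn (nat_lit 20933269985027865104829719993895539020292199005104411745719229070918423977569067370664) (nat_lit 90391640)) .nil .nil)) (.nod (nat_lit 145250803756027645324475325060683779349346061726520870641096498349978372473623827243216)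 .nil (.dwn (nat_lit 1139910535232986959349548489701490887501750572575931288143572581097887393852080624404480) (nat_lit 4922229760)) .dup) (.nod (nat_lit 145264087424504950237579827970815360872885574227432386612596624129526861728560219326712) (.dwn (nat_lit 20933282953741859252884461462471017641973209563002963370485774084338696693693901343008) (nat_lit 4922229760)) .nil .nil)) .nil (.dwn (nat_lit 5391936447619596116381907556631478267477439713192931180745704115044868941768751579482) (nat_lit 90391708))) .nil (.nod (nat_lit 62215924208380064501591595449845640800808912420951203862487257579546) .nil (.dwn (nat_lit 496523815049509902470722151565675975563486287568819586239066829916336) (nat_lit 90391552)) (.dwn (nat_lit 496523815049509902470722151565675975563486287568819586239066829916336) (nat_lit 90391552))) l886 = true := by decide +kernel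
theorem cw3981 : wchk (nat_lit 5) [] [l886] (nat_lit 1682) (nat_lit 1) (nat_lit 3) (nat_lit 0) (nat_lit 9820492032) (nat_lit 0) w3981 = true := by decide +kernel
theorem cw3982 : wchk (nat_lit 5) [] [l753] (nat_lit 18) (nat_lit 2) (nat_lit 2) (nat_lit 0) (nat_lit 156797696) (nat_lit 0) w3982 = true := by decide +kernel
theorem cw3983 : wchk (nat_lit 5) [w711] [] (nat_lit 0) (nat_lit 1) (nat_lit 3) (nat_lit 2) (nat_lit 16777297) (nat_lit 90391552) w3983 = true := by decide +kernel
theorem cw3984 : wchk (nat_lit 5) [w711] [] (nat_lit 17) (nat_lit 0) (nat_lit 3) (nat_lit 2) (nat_lit 209) (nat_lit 90391552) w3984 = true := by decide +kernel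
theorem cl887 : lchk (nat_lit 5) [w267, w448, w368, w401, w39, w3, w1412, w652, w1890, w262, w1414, w743, w815, w3983, w1272, w255, w256, w257, w3984] (nat_lit 21784576) .nil (.nod (nat_lit 721464427807589580600035337) (.nod (nat_lit 20556436209813942785289429014817634272721173410668834515995131441498779811863085449626) (.nod (nat_lit 7855973150415085164505473937702944429615998686776415874545375991840) .nil (.nod (nat_lit 273398011098047572868483686870976462773698722620502990053948575744) (.nod (nat_lit 493135013008476159845964309793620217512835094364246753212688443691008) .nil .nil .dup) (.dwn (nat_lit 9096735378752790245786688005571177887710249430216568139883318033417512344321142292008960) (nat_lit 39280470016)) (.opn (nat_lit 9096735378752790245786688005571177887710249430216568139883318033417512344321142292008960))) (.nod (nat_lit 61775866334065923107908042204011680042114175679908835798970336333824) .nil (.opn (nat_lit 493135013008476159845964309793620217512835094364246753212688443691008)) .dup)) .nil (.nod (nat_lit 5378626841714302043906536631825271203747661870362510161645519462976118732851172919352) (.dwn (nat_lit 20903380804617214718559469683228833663510534380888454103020682408698449874546786064472)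 (nat_lit 4920731648)) .nil .nil)) .nil (.nod (nat_lit 5166153915984110216190268187246977750705979915116863923299729237143253675582716641626) (.dwn (nat_lit 145250795418997220244438442154751773310416666274622268851288683946905836140284287307912) (nat_lit 625764352)) .nil .nil)) .nil (.nod (nat_lit 62215924007512808969217811007100379258163587105675829639638153166874) .nil (.dwn (nat_lit 496523814848642646938348367112041678279370931422125928768042437085328) (nat_lit 88893440)) (.dwn (nat_lit 496523814848642646938348367112041678279370931422125928768042437085328) (nat_lit 88893440))) l887 = true := by decide +kernel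
theorem cw3985 : wchk (nat_lit 5) [] [l887] (nat_lit 18) (nat_lit 2) (nat_lit 2) (nat_lit 0) (nat_lit 156815616) (nat_lit 0) w3985 = true := by decide +kernel
theorem cw3986 : wchk (nat_lit 5) [w50, w267] [] (nat_lit 146) (nat_lit 0) (nat_lit 2) (nat_lit 2) (nat_lit 13455360) (nat_lit 625764356) w3986 = true := by decide +kernel
theorem cw3987 : wchk (nat_lit 5) [w50, w114] [] (nat_lit 146) (nat_lit 0) (nat_lit 3) (nat_lit 2) (nat_lit 17655808) (nat_lit 625707012) w3987 = true := by decide +kernel
theorem cw3988 : wchk (nat_lit 5) [w284] [] (nat_lit 1) (nat_lit 1) (nat_lit 3) (nat_lit 2) (nat_lit 89796608) (nat_lit 209) w3988 = true := by decide +kernel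
theorem cw3989 : wchk (nat_lit 5) [w16, w267] [] (nat_lit 146) (nat_lit 0) (nat_lit 2) (nat_lit 2) (nat_lit 23225344) (nat_lit 625764356) w3989 = true := by decide +kernel
theorem cw3990 : wchk (nat_lit 5) [w16, w114] [] (nat_lit 146) (nat_lit 0) (nat_lit 3) (nat_lit 2) (nat_lit 22250496) (nat_lit 625707012) w3990 = true := by decide +kernel
theorem cw3991 : wchk (nat_lit 5) [w162] [] (nat_lit 0) (nat_lit 1) (nat_lit 3) (nat_lit 2) (nat_lit 16777297) (nat_lit 22823936) w3991 = true := by decide +kernel
theorem cw3992 : wchk (nat_lit 5) [w162] [] (nat_lit 2) (nat_lit 1) (nat_lit 3) (nat_lit 2) (nat_lit 209) (nat_lit 22823936) w3992 = true := by decide +kernel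
theorem cl888 : lchk (nat_lit 5) [w267, w448, w368, w401, w39, w3, w1412, w652, w1890, w262, w1414, w743, w815, w3991, w1272, w255, w256, w257, w3992] (nat_lit 21784576) .nil (.nod (nat_lit 721464427807589580600035337) (.nod (nat_lit 20556436209813942785289429014817634272721173410668834515995131441498779811863085449626) (.nod (nat_lit 7855973150415085164505473937702944429615998686776415874545375991840) .nil (.nod (nat_lit 61775866334065923107908042204011680042114175679908835798970336333824) (.opn (nat_lit 493135013008476159845964309793620217512835094364246753212688443691008)) .nil .dup) (.dwn (nat_lit 273398011098047572868483686870976462773698722620502990053948575744) (nat_lit 4920731648))) .nil (.nod (nat_lit 5378626841714302043906536631825271203747661870362510161645519462976118732851172919352) (.dwn (nat_lit 20903380804617214718559469683228833663510534380888454103020682408698449874546786064472) (nat_lit 4920731648)) .nil .nil)) .nil (.nod (nat_lit 5166153915984110216190268187246977750705979915116863923299729237143253675582716641626) (.dwn (nat_lit 145250795418997220244438442154751773310416666274622268851288683946905836140284287307912) (nat_lit 625764352))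 .nil .nil)) .nil (.nod (nat_lit 292296506401183190842010729102165054653271010152952222103298375706) .nil (.dwn (nat_lit 1134794839749640684486872302100623527839876370581601738225548167312) (nat_lit 88893440)) (.dwn (nat_lit 1134794839749640684486872302100623527839876370581601738225548167312) (nat_lit 88893440))) l888 = true := by decide +kernel
theorem cw3993 : wchk (nat_lit 5) [] [l888] (nat_lit 18) (nat_lit 2) (nat_lit 2) (nat_lit 0) (nat_lit 156815616) (nat_lit 0) w3993 = true := by decide +kernel
theorem cl889 : lchk (nat_lit 5) [w3943, w2321, w368, w126, w37, w267, w702, w2022, w1350, w3989, w3990, w3988, w3993, w284, w2997, w2326, w3985, w3986, w3987, w721, w178, w970, w3949, w3950, w3981, w3982, w3207, w3944, w3945, w3946, w3947, w3948] (nat_lit 23282688) .nil (.nod (nat_lit 837823537945497638656100361) (.nod (nat_lit 20556436209813942785289429014817634272782378510931266071391572516410249838639982838170) (.nod (nat_lit 292295809642890563346319106607448341081815303556085843673457444897) .nil (.nod (nat_lit 279337555410512096154493387667299872296574467223354611779367098432) (.nod (nat_lit 493153821063297492015991287503542951625042966656960630081915811432536)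 .nil (.dwn (nat_lit 3944026994006628060972600413197011823567629171059486419478382855489536) (nat_lit 314159875072)) (.dwn (nat_lit 3944026994006628060972600413197011823567629171059486419478382855489536) (nat_lit 314159875072))) (.dwn (nat_lit 9097082328905613800556516843031820073391734616904518974824683307150580543390909767960680) (nat_lit 39281968128)) .dup) (.nod (nat_lit 291576397290099630840624026247249984924766790143583105768427769976) (.dwn (nat_lit 9097082332610960656643496621795806482975095938058852329999097374813190223033523915622488) (nat_lit 39281968128)) .nil .nil)) (.nod (nat_lit 145250800050680789737092828511400173825646626469941874788872176964550956687911113937064) (.dwn (nat_lit 1139910555612394665117198885404970968345321511349091023359318847919370787787516583250120) (nat_lit 4922229760)) .nil .nil) .dup) .nil (.nod (nat_lit 20933277395721575799912405536972948756080803307906548485347983135911745073059408642394) (.dwn (nat_lit 145250800050680789737105067353279761360332722938727668168565943151264633971821528910056) (nat_lit 627262584)) .nil .nil)) .nil (.nod (nat_lit 292297159219763671056810168024265068250578284797918446362887716890) .nil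 (.dwn (nat_lit 1134795442351407281608225663003515380185944810662574151298726660336) (nat_lit 90391672)) (.dwn (nat_lit 1134795442351407281608225663003515380185944810662574151298726660336) (nat_lit 90391672))) l889 = true := by decide +kernel
theorem cw3994 : wchk (nat_lit 5) [] [l889] (nat_lit 2) (nat_lit 2) (nat_lit 1) (nat_lit 0) (nat_lit 22597888) (nat_lit 0) w3994 = true := by decide +kernel
theorem cw3995 : wchk (nat_lit 5) [w80, w37] [] (nat_lit 2) (nat_lit 1) (nat_lit 3) (nat_lit 2) (nat_lit 610095104) (nat_lit 22709252) w3995 = true := by decide +kernel
theorem cw3996 : wchk (nat_lit 5) [w747, w37] [] (nat_lit 18) (nat_lit 1) (nat_lit 2) (nat_lit 2) (nat_lit 627190784) (nat_lit 23225348) w3996 = true := by decide +kernel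
theorem cw3997 : wchk (nat_lit 5) [] [l660] (nat_lit 0) (nat_lit 3) (nat_lit 3) (nat_lit 0) (nat_lit 5820672) (nat_lit 0) w3997 = true := by decide +kernel
theorem cw3998 : wchk (nat_lit 5) [w284] [] (nat_lit 2) (nat_lit 0) (nat_lit 3) (nat_lit 2) (nat_lit 22709248) (nat_lit 209) w3998 = true := by decide +kernel
theorem cw3999 : wchk (nat_lit 5) [] [l298] (nat_lit 18) (nat_lit 1) (nat_lit 2) (nat_lit 0) (nat_lit 156426752) (nat_lit 0) w3999 = true := by decide +kernel
theorem cw4000 : wchk (nat_lit 5) [w162, w721] [] (nat_lit 146) (nat_lit 0) (nat_lit 2) (nat_lit 2) (nat_lit 21712896) (nat_lit 627190788) w4000 = true := by decide +kernel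
theorem cw4001 : wchk (nat_lit 5) [w220, w721] [] (nat_lit 146) (nat_lit 0) (nat_lit 2) (nat_lit 2) (nat_lit 21712896) (nat_lit 627190788) w4001 = true := by decide +kernel
theorem cw4002 : wchk (nat_lit 5) [w220, w721] [] (nat_lit 146) (nat_lit 0) (nat_lit 2) (nat_lit 2) (nat_lit 9154560) (nat_lit 627190788) w4002 = true := by decide +kernel
theorem cw4003 : wchk (nat_lit 5) [w1297, w16] [] (nat_lit 18) (nat_lit 1) (nat_lit 2) (nat_lit 2) (nat_lit 625707008) (nat_lit 22307844) w4003 = true := by decide +kernel
theorem cw4004 : wchk (nat_lit 5) [w1075, w16] [] (nat_lit 2) (nat_lit 1) (nat_lit 2) (nat_lit 2) (nat_lit 89416704) (nat_lit 22307844) w4004 = true := by decide +kernel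
theorem cw4005 : wchk (nat_lit 5) [w337] [] (nat_lit 2) (nat_lit 1) (nat_lit 3) (nat_lit 2) (nat_lit 16777297) (nat_lit 89925632) w4005 = true := by decide +kernel
theorem cl890 : lchk (nat_lit 5) [w3980, w3973, w3974, w2839, w368, w16, w3965, w970, w3952, w3953, w3954, w3955, w284, w2934, w4000, w3964, w1227, w3957, w3958, w3959, w4001, w3962, w4002, w267, w2709, w1019, w2936, w2051, w2861, w1414, w3966, w3967, w3968, w4003, w3922, w3971, w3972, w4004, w3976, w4005] (nat_lit 23282688) .nil (.nod (nat_lit 858979739788753649222977553) (.nod (nat_lit 5152865731615325046919654604578365735133913508707869154071007399215205530919122239898) (.nod (nat_lit 286536593909080225293154580887398042941310824209906356449569099832) .nil (.nod (nat_lit 292296004233044359923395023101185078170632936494747747466841851984) .nil (.nod (nat_lit 5391912362865034754897366351175655356574860433613085229281821297446707965460541038632) (.dwn (nat_lit 20800464795703088023425927594401435064280122720545755872464797454838651578658912028776) (nat_lit 627262524)) .nil .nil) .dup) (.nod (nat_lit 292206417437076921215484794890227820190833150325626205664755230864) (.dwn (nat_lit 20933270911364579003359283432680232972888907944672863391872580423104936456040526284976)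 (nat_lit 39281968128)) .nil .nil)) (.nod (nat_lit 145156184018723193920752563183141960008067946452011373122910527506291138243912294260944) .nil (.dwn (nat_lit 5152887847904369374598078432767544139805244913554111696364435390487361045623774431248) (nat_lit 4922229760)) .dup) (.nod (nat_lit 145250809314047928714818216339256072379303077184207386107116503773501795876556780243192) (.dwn (nat_lit 20933282953741859252884461462471017641973209563002963370485774084338696693693901343008) (nat_lit 4922229760)) .nil .nil)) .nil (.dwn (nat_lit 5391936447619596116381907556631478267477439713192931180745704115044868941768751579482) (nat_lit 90391708))) .nil (.nod (nat_lit 292295602498533295159980736748488112749307091413768219282328518682) .nil (.dwn (nat_lit 20933253310967014439278551370055057737723449336104754886666794771905142731802268829696) (nat_lit 90391552)) (.dwn (nat_lit 20933253310967014439278551370055057737723449336104754886666794771905142731802268829696) (nat_lit 90391552))) l890 = true := by decide +kernel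
theorem cw4006 : wchk (nat_lit 5) [] [l890] (nat_lit 1682) (nat_lit 1) (nat_lit 3) (nat_lit 0) (nat_lit 9820492032) (nat_lit 0) w4006 = true := by decide +kernel
theorem cl891 : lchk (nat_lit 5) [w721, w42, w164, w16, w3, w1409, w39, w3781, w750, w1560, w819, w3031, w258, w747, w746, w748, w937, w2642] (nat_lit 23211008) .nil (.nod (nat_lit 854219594374021046812219409) (.nod (nat_lit 5162825703963162036785208486424873034154707964196409794965908607971833995199697125786) .nil (.nod (nat_lit 5378625915377588152954598812530855506807812033373348902086955759789201714149641639984) .nil (.dwn (nat_lit 1139893935279073897699771666679775256972076271495800754819310942015732279386117209610240) (nat_lit 4922158080)) .dup) (.dwn (nat_lit 5378625915377588152945780036977589934362529966783211373047832903626138129194737227840) (nat_lit 625757220))) .nil (.nod (nat_lit 5166152063310682419131141410111217611698781053606910759129604080912560257651389235546) (.opn (nat_lit 145156173829019341043674461117205788251576743525847341493027200431501285815120154613880)) .nil .nil)) .nil (.nod (nat_lit 272768894853720174826732584383404475384758541734816612144163848218) .nil (.opn (nat_lit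 16823120469817086229539749652604734955088386200201815868061675491153161808963888015496)) .dup) l891 = true := by decide +kernel
theorem cw4007 : wchk (nat_lit 5) [] [l891] (nat_lit 18) (nat_lit 1) (nat_lit 2) (nat_lit 0) (nat_lit 156815616) (nat_lit 0) w4007 = true := by decide +kernel
theorem cw4008 : wchk (nat_lit 5) [w711] [] (nat_lit 0) (nat_lit 1) (nat_lit 3) (nat_lit 2) (nat_lit 16777297) (nat_lit 90391552) w4008 = true := by decide +kernel
theorem cl892 : lchk (nat_lit 5) [w721, w448, w126, w1409, w39, w3, w1412, w750, w1890, w1297, w3965, w1560, w815, w4008, w258, w747, w746, w748, w3984] (nat_lit 23211008) .nil (.nod (nat_lit 721464427807589580600035337) (.nod (nat_lit 20584656131466147589908498346716071620119909545171667109138315728212516336513893532058) (.nod (nat_lit 7869021487334468165542874669892754669948478975085932152368023164960) .nil (.nod (nat_lit 61793774051631145295539652608883153494345365712859692565640006359040) (.nod (nat_lit 493152920726041382033595920198491690965066284397197609979358113716224) .nil .nil .dup) (.dwn (nat_lit 9097065717835660172617246783703318935317430951842972771337637086571406352170489068410880) (nat_lit 39281896448))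 (.opn (nat_lit 9097065717835660172617246783703318935317430951842972771337637086571406352170489068410880))) (.nod (nat_lit 61793774051631145295539652608883153494345365712859692565640006359040) .nil (.opn (nat_lit 493152920726041382033595920198491690965066284397197609979358113716224)) .dup)) .nil (.nod (nat_lit 5378626841714302043906536631825271203747661870362510161623236013363935806501516761144) (.dwn (nat_lit 20903380804617214718558749774985005635867052555566987833584201883745649908697538402392) (nat_lit 4922158080)) .nil .nil)) .nil (.nod (nat_lit 5166153915984110216190268187246977750705979915116863923299729237143253675582716641626) (.dwn (nat_lit 145156175681692768840733587994775176156770161404984244785333903136169458677242425268360) (nat_lit 627190784)) .nil .nil)) .nil (.nod (nat_lit 62215924007512808969217811007100379258163587105675829639638153166874) .nil (.dwn (nat_lit 9159247739014857414217940605073311116706144930962276707264619724193078172851372347000976) (nat_lit 90319872)) (.dwn (nat_lit 9159247739014857414217940605073311116706144930962276707264619724193078172851372347000976) (nat_lit 90319872))) l892 = true := by decide +kernel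
theorem cw4009 : wchk (nat_lit 5) [] [l892] (nat_lit 18) (nat_lit 2) (nat_lit 2) (nat_lit 0) (nat_lit 156815616) (nat_lit 0) w4009 = true := by decide +kernel
theorem cw4010 : wchk (nat_lit 5) [w50, w56] [] (nat_lit 146) (nat_lit 0) (nat_lit 2) (nat_lit 2) (nat_lit 13455360) (nat_lit 626796548) w4010 = true := by decide +kernel
theorem cw4011 : wchk (nat_lit 5) [w50, w114] [] (nat_lit 146) (nat_lit 0) (nat_lit 3) (nat_lit 2) (nat_lit 17655808) (nat_lit 626624516) w4011 = true := by decide +kernel
theorem cw4012 : wchk (nat_lit 5) [w16] [] (nat_lit 0) (nat_lit 1) (nat_lit 3) (nat_lit 2) (nat_lit 16777297) (nat_lit 22121472) w4012 = true := by decide +kernel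
theorem cl893 : lchk (nat_lit 5) [w721, w448, w126, w1409, w39, w3, w1412, w750, w1139, w1297, w3965, w1560, w815, w4012, w258, w747, w746, w748, w3284] (nat_lit 23211008) .nil (.nod (nat_lit 721464427807589580600035337) (.nod (nat_lit 20584656131466147589908498346716071620119909545171667109138315728212516336513893532058) (.nod (nat_lit 7869021487334468165542874669892754669948478975085932152368023164960) .nil (.nod (nat_lit 61793774051631145295539652608883153494345365712859692565640006359040) (.opn (nat_lit 9097065717835660172617246783703318935317430951842972771337637086571406352170489068410880)) .dup .dup) .dup) .nil (.nod (nat_lit 5378626841714302043906536631825271203747661870362510161623236013363935806501516761144) (.dwn (nat_lit 20931600726269419523177819106883442983265788690069820426727386170459386433348346484824) (nat_lit 4922158080)) .nil .nil)) .nil (.nod (nat_lit 5166153915984110216190268187246977750705979915116863923299729237143253675582716641626) (.dwn (nat_lit 145156175681692768840733587994775176156770161404984244785333903136169458677242425268360) (nat_lit 627190784)) .nil .nil)) .nil (.nod (nat_lit 291396621096398156287707230330454003595858576476433858115529605146)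 .nil (.dwn (nat_lit 20916670031114802963015872239067334361793315276010733063377632011304203209444780431504) (nat_lit 90319872)) (.dwn (nat_lit 20916670031114802963015872239067334361793315276010733063377632011304203209444780431504) (nat_lit 90319872))) l893 = true := by decide +kernel
theorem cw4013 : wchk (nat_lit 5) [] [l893] (nat_lit 18) (nat_lit 2) (nat_lit 2) (nat_lit 0) (nat_lit 156815616) (nat_lit 0) w4013 = true := by decide +kernel
theorem cw4014 : wchk (nat_lit 5) [w16, w56] [] (nat_lit 146) (nat_lit 0) (nat_lit 2) (nat_lit 2) (nat_lit 23225344) (nat_lit 626796548) w4014 = true := by decide +kernel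
theorem cw4015 : wchk (nat_lit 5) [w16, w114] [] (nat_lit 146) (nat_lit 0) (nat_lit 3) (nat_lit 2) (nat_lit 22250496) (nat_lit 626624516) w4015 = true := by decide +kernel
theorem cw4016 : wchk (nat_lit 5) [w162] [] (nat_lit 0) (nat_lit 1) (nat_lit 3) (nat_lit 2) (nat_lit 16777297) (nat_lit 22823936) w4016 = true := by decide +kernel
theorem cl894 : lchk (nat_lit 5) [w721, w448, w126, w1409, w39, w3, w1412, w750, w1890, w1297, w3965, w1560, w815, w4016, w258, w747, w746, w748, w3992] (nat_lit 23211008) .nil (.nod (nat_lit 721464427807589580600035337) (.nod (nat_lit 20584656131466147589908498346716071620119909545171667109138315728212516336513893532058) (.nod (nat_lit 7869021487334468165542874669892754669948478975085932152368023164960) .nil (.nod (nat_lit 61793774051631145295539652608883153494345365712859692565640006359040) (.opn (nat_lit 493152920726041382033595920198491690965066284397197609979358113716224)) .nil .dup) (.dwn (nat_lit 61793774051631145295539652608883153494345365712859692565640006359040) (nat_lit 4922158080))) .nil (.nod (nat_lit 5378626841714302043906536631825271203747661870362510161623236013363935806501516761144) (.dwn (nat_lit 20903380804617214718558749774985005635867052555566987833584201883745649908697538402392)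 (nat_lit 4922158080)) .nil .nil)) .nil (.nod (nat_lit 5166153915984110216190268187246977750705979915116863923299729237143253675582716641626) (.dwn (nat_lit 145156175681692768840733587994775176156770161404984244785333903136169458677242425268360) (nat_lit 627190784)) .nil .nil)) .nil (.nod (nat_lit 292296506401183190842010729102165054653271010152952222103298375706) .nil (.dwn (nat_lit 20933269985027864612791795375478179860263160061012399294638331295072808042711281469584) (nat_lit 90319872)) (.dwn (nat_lit 20933269985027864612791795375478179860263160061012399294638331295072808042711281469584) (nat_lit 90319872))) l894 = true := by decide +kernel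
theorem cw4017 : wchk (nat_lit 5) [] [l894] (nat_lit 18) (nat_lit 2) (nat_lit 2) (nat_lit 0) (nat_lit 156815616) (nat_lit 0) w4017 = true := by decide +kernel
theorem cl895 : lchk (nat_lit 5) [w3947, w2321, w126, w368, w37, w721, w702, w2022, w1350, w4014, w4015, w3988, w4013, w4017, w284, w2997, w2326, w4009, w4010, w4011, w267, w178, w970, w3998, w3999, w4006, w4007, w3016, w3995, w3996, w3997, w3948] (nat_lit 23282688) .nil (.nod (nat_lit 837823537945497638656100361) (.nod (nat_lit 20584656131466147589908498346716071620181021957961867271632324795294915668538281689498) (.nod (nat_lit 292295809642890563347289885921871877270445280292142067660264654881) .nil (.nod (nat_lit 279337555410512096154493387667299872296574467223354611779367098432) (.nod (nat_lit 493153821063297492015991287503542951625042966656960630081915811432536) .nil (.dwn (nat_lit 3944026994609229827569721766557914715419975239499567391891456033982560) (nat_lit 314159875120)) (.dwn (nat_lit 292295803365788827549571540440531430098109219139632704048302737440) (nat_lit 314159875120))) (.dwn (nat_lit 9097082329831950514455046406470604767344331325844087426470836658502914629821970903287920) (nat_lit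 39281968176)) .dup) (.nod (nat_lit 291576447506913513934070139655824305953605826816997473524525977728) (.dwn (nat_lit 9097082333537297370542026185234591176927692646998420781645250726165376735511995374536792) (nat_lit 39281968176)) .nil .nil)) (.nod (nat_lit 145156181239713052231899630072643048436966190911592993517660679742226868253793377800368) (.dwn (nat_lit 145264083719158094704963952550113982097005918693964040124544245485385880193510967511248) (nat_lit 4922229760)) .nil .nil) .dup) .nil (.nod (nat_lit 5166167811034818694133719015765178793254922348348907830680029587658287516970458808666) (.dwn (nat_lit 145156181239713052231911868914522635971652287380378786897354445928940545537703792773360) (nat_lit 627262464)) .nil .nil)) .nil (.nod (nat_lit 292297159219763671056810168024265068250578284797918446362887716890) .nil (.dwn (nat_lit 20933253310967014439278551370055057737723449336104754886666794771905142731802268829696) (nat_lit 90391552)) (.dwn (nat_lit 20933253310967014439278551370055057737723449336104754886666794771905142731802268829696) (nat_lit 90391552))) l895 = true := by decide +kernel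
theorem cw4018 : wchk (nat_lit 5) [] [l895] (nat_lit 2) (nat_lit 2) (nat_lit 1) (nat_lit 0) (nat_lit 22597888) (nat_lit 0) w4018 = true := by decide +kernel
theorem cw4019 : wchk (nat_lit 5) [w2326, w37] [] (nat_lit 18) (nat_lit 1) (nat_lit 2) (nat_lit 2) (nat_lit 627140608) (nat_lit 23225348) w4019 = true := by decide +kernel
theorem cw4020 : wchk (nat_lit 5) [w1318, w37] [] (nat_lit 18) (nat_lit 1) (nat_lit 2) (nat_lit 2) (nat_lit 627190784) (nat_lit 23225348) w4020 = true := by decide +kernel
theorem cl896 : lchk (nat_lit 5) [w2988, w2808, w3905, w16, w804, w37, w2989, w2990, w2992, w3910, w3941, w2893, w3911, w284, w1213, w3929, w3938, w1318, w2991, w2993, w2995, w2996, w2998, w2999, w3504, w2024, w3906, w3907, w3908, w2162, w3939, w3940, w3942, w3994, w4018, w4019, w4020] (nat_lit 23282688) .nil (.nod (nat_lit 7874780659128566355890205604494864048600943993762932238644728383497) (.nod (nat_lit 20933255279432531473653153813168416507116295688493823805103280263236633735547052541976) (.nod (nat_lit 292295859859704446440735996608187262931776609258559575962217170985) .nil (.nod (nat_lit 292295903799416593736414987099817221785155965848262275915403708464)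 (.nod (nat_lit 1134794337581501880224816052026117510136203827463302168020467009600) .nil (.nod (nat_lit 292295853582602710643017653849105751126948255813047071804400945192) (.dwn (nat_lit 582013450671127152135760650079625206938705655933717588517121625487159958276462184779565144) (nat_lit 2513183130624)) .nil .nil) (.nod (nat_lit 292295853582602710643017653849105751126948255813047071804400945192) (.dwn (nat_lit 582013450671127152135760650079625206938705655933717588517121625487159958276462184779565144) (nat_lit 2513183130624)) .nil .nil)) (.nod (nat_lit 9097082328905613800556516843031820073391734616904518974824683307150580543390909767960680) (.dwn (nat_lit 5391915141875180394228944379450505887888654132570767015521819890760784736650344745080) (nat_lit 314159875072)) .nil .nil) .dup) (.nod (nat_lit 292296456184369307764371014751997603473016695894019484877579438216) (.nod (nat_lit 20933269985027864612810692766011410053591266446724423774199174902644498931993855608896) (.dwn (nat_lit 145264080940147952955455368899458620646958758426557618002244038511382915457614438942888) (nat_lit 627262556)) .nil .nil) .nil .nil)) (.nod (nat_lit 5378644442111866115969141854039241337655241587326102135032888489122826262255475443912)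 (.dwn (nat_lit 1139910559317741520711317139160109744155708347107364829943932215247248667745762765392088) (nat_lit 4922229760)) .nil .nil) (.nod (nat_lit 5378644442111866115969141854039241337655241587326102135032888489122826262255475443912) (.dwn (nat_lit 1139910559317741520711317139160109744155708347107364829943932215247248667745762765392088) (nat_lit 4922229760)) .nil .nil)) (.nod (nat_lit 20920000211601268176814431371801516976240608383977643885450253372141039634233799919640) (.dwn (nat_lit 145250787081966795157691180063979882036568352483862755309995356614339642021034991241464) (nat_lit 627262464)) .nil .nil) (.nod (nat_lit 20920000211601268176814431371801516976240608383977643885450253372141039634233799919640) (.dwn (nat_lit 145250787081966795157691180063979882036568352483862755309995356614339642021034991241464) (nat_lit 627262464)) .nil .nil)) .nil (.nod (nat_lit 291577301192749526506813479693211613065874229771894981810123884800) (.nod (nat_lit 20933283880078573090753423435201713653029535527507521912426890777006414866282676144152) (.dwn (nat_lit 145250798198007361940045940927661698402981290873193651978544922210617339127352995039512) (nat_lit 627262608))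 .nil .nil) .nil .nil) l896 = true := by decide +kernel
theorem cw4021 : wchk (nat_lit 5) [] [l896] (nat_lit 9874) (nat_lit 1) (nat_lit 0) (nat_lit 0) (nat_lit 78539968768) (nat_lit 0) w4021 = true := by decide +kernel
theorem cw4022 : wchk (nat_lit 5) [] [l658] (nat_lit 25) (nat_lit 2) (nat_lit 0) (nat_lit 0) (nat_lit 156801280) (nat_lit 0) w4022 = true := by decide +kernel
theorem cl897 : lchk (nat_lit 5) [w1346, w4022, w15, w1348, w1347, w1193, w16, w42, w1690] (nat_lit 23211008) .nil (.nod (nat_lit 5362023182454384800011639832031821867247538538958704246373194651739912263608423372816) (.nod (nat_lit 20916656136064094485090418714910322945644342506815878191484827348382315952509496743968) (.opn (nat_lit 145247462459500613335087277051832297178906936452404252754724468974655248854455438039040)) .dup .dup) (.dwn (nat_lit 20916656136064094485090418714910322945644342506815878191484827348382315952509496743968) (nat_lit 90319872)) (.dwn (nat_lit 20916656136064094485090418714910322945644342506815878191484827348382315952509496743968) (nat_lit 90319872))) (.nod (nat_lit 290676110250803531522911103077300534813840367202922343768158066736) (.nod (nat_lit 273398362615744751173730037346763740172836044618712658696503384120)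 .nil (.dwn (nat_lit 5362029666811382089714444330689040610287812781159551615687361996391609111320531912760) (nat_lit 627190784)) (.dwn (nat_lit 5362029666811382089714444330689040610287812781159551615687361996391609111320531912760) (nat_lit 627190784))) .nil (.nod (nat_lit 292295702932161061362718337205221281263404200631309638906149292048) (.dwn (nat_lit 20919977979520134612104910096389209191255707567021814784610083329655435283320292427808) (nat_lit 90334208)) .nil .nil)) (.nod (nat_lit 286536688065606255666561119413745085611096186364244715137196705848) .nil (.dwn (nat_lit 273398362615744751189575435486678684936932007098600215440965064760) (nat_lit 1164076032)) (.dwn (nat_lit 273398362615744751189575435486678684936932007098600215440965064760) (nat_lit 1164076032))) l897 = true := by decide +kernel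
theorem cw4023 : wchk (nat_lit 5) [] [l897] (nat_lit 3) (nat_lit 2) (nat_lit 0) (nat_lit 0) (nat_lit 22597888) (nat_lit 0) w4023 = true := by decide +kernel
theorem cl898 : lchk (nat_lit 5) [w91, w124, w20, w265, w3153, w878, w817, w2047, w188, w48, w802, w4, w2204] (nat_lit 110735360) .nil (.nod (nat_lit 928455656653333712349429786) (.nod (nat_lit 11232355569039261118048981968579746217997301067084420437603021488538) (.nod (nat_lit 88748861488786387554355229756510331880181204781827281749322175764520) .nil (.dwn (nat_lit 708667545086879403568811280766515000715804777254949882991214628921344) (nat_lit 56448626688)) .dup) (.dwn (nat_lit 145034988607433707690007822008637277066585110757670434515010579790813917438488273901608) (nat_lit 7056502784)) .dup) .nil (.nod (nat_lit 11244054379302349866363311132037635366354787336621049818573311050074) (.dwn (nat_lit 145034988607433707690007822008637277066585110757670434515010579790813917438488273901608) (nat_lit 7056502784)) .nil .nil)) (.nod (nat_lit 928455656653333712349429786) (.nod (nat_lit 271958646561716462073736660684656829803458565864815470217908977754) .nil (.dwn (nat_lit 20903382657290642454976624277274504214983960703478287112859282104216937071792239450208)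 (nat_lit 77180928)) .dup) .nil .nil) .nil l898 = true := by decide +kernel
theorem cw4024 : wchk (nat_lit 5) [] [l898] (nat_lit 1) (nat_lit 3) (nat_lit 1) (nat_lit 0) (nat_lit 5820672) (nat_lit 0) w4024 = true := by decide +kernel
theorem cw4025 : wchk (nat_lit 5) [] [l391] (nat_lit 17) (nat_lit 3) (nat_lit 1) (nat_lit 0) (nat_lit 5788416) (nat_lit 0) w4025 = true := by decide +kernel
theorem cw4026 : wchk (nat_lit 5) [] [l672] (nat_lit 33) (nat_lit 3) (nat_lit 3) (nat_lit 0) (nat_lit 5802752) (nat_lit 0) w4026 = true := by decide +kernel
theorem cl899 : lchk (nat_lit 5) [w1193, w56, w581, w916, w16, w4025, w716, w2795, w160, w4024, w1190, w1320, w261, w2892, w3766, w1997, w4026] (nat_lit 23211008) .nil (.nod (nat_lit 286536386764722957105884455295852771643108212565739665325481609224) (.nod (nat_lit 286536436981536840260799093797257355686740007115722859174620907536) (.nod (nat_lit 7873880717329865703282619160182086310505250877317452888925242939392) .nil (.dwn (nat_lit 61793774051631145295539652608883153494345365712859692565640006359040) (nat_lit 4922158080)) .dup) (.dwn (nat_lit 145247462459500613335087277051832297178906936452404252754724468974655248854455438039040)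 (nat_lit 627190784)) .dup) .nil (.dwn (nat_lit 286536436981536840260799093797257355686740007115722859174620907536) (nat_lit 90319872))) (.nod (nat_lit 292295809642890562920445943329539078602191266154037303482356549665) (.nod (nat_lit 286536436981536840199330565982168157304439541532157173627434125328) .nil (.dwn (nat_lit 5391906804844751363726555232710119574880094899346474305785823180886344517313708120112) (nat_lit 627255324)) (.dwn (nat_lit 5391906804844751363726555232710119574880094899346474305785823180886344517313708120112) (nat_lit 627255324))) .nil (.nod (nat_lit 277717862295526800143678342999466051041405731544095195965806516288) (.dwn (nat_lit 145250791713650364643598109450390559738629311740132302320926420365859470108323824162904) (nat_lit 627190784)) .nil .nil)) (.nod (nat_lit 5375314261625400902183000134174814538234125514764478925947800188854591526971530102896) .nil (.dwn (nat_lit 5391916068211890349023809414105672163044930565597481305547606767920388021163963926656) (nat_lit 90319872)) .dup) l899 = true := by decide +kernel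
theorem cw4027 : wchk (nat_lit 5) [] [l899] (nat_lit 3) (nat_lit 2) (nat_lit 0) (nat_lit 0) (nat_lit 22597888) (nat_lit 0) w4027 = true := by decide +kernel
theorem cw4028 : wchk (nat_lit 5) [] [l878] (nat_lit 3) (nat_lit 1) (nat_lit 0) (nat_lit 0) (nat_lit 22565632) (nat_lit 0) w4028 = true := by decide +kernel
theorem cw4032 : wchk (nat_lit 5) [] [l804] (nat_lit 146) (nat_lit 2) (nat_lit 2) (nat_lit 0) (nat_lit 156797696) (nat_lit 0) w4032 = true := by decide +kernel
theorem cw4033 : wchk (nat_lit 5) [w4032] [] (nat_lit 0) (nat_lit 0) (nat_lit 1) (nat_lit 2) (nat_lit 16777297) (nat_lit 23282688) w4033 = true := by decide +kernel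
theorem cl900 : lchk (nat_lit 5) [w3766, w16, w216, w243] (nat_lit 21655552) (.nod (nat_lit 210624796758573376542982025784181253698448350732735584039776288778) .nil (.nod (nat_lit 3274828929608578605809721344) .nil .nil .nil) (.nod (nat_lit 20556434357140514989344668777110244638075283294449090578042383972946117943357006152538) .nil (.opn (nat_lit 144887243459587175534930217480603114611856074765540927606590746155454429611939050348544)) .dup)) (.nod (nat_lit 284106702718905099195945772448022356994923234221996773457621377033) (.nod (nat_lit 2623828525391693759502612139342259683087050676811460098654602) .nil (.dwn (nat_lit 7868931448587175779420573837914154350187474418944195583398083317776) (nat_lit 626796552)) (.dwn (nat_lit 7868931448587175779420573837914154350187474418944195583398083317776) (nat_lit 626796552))) .nil (.dwn (nat_lit 20825356389542255410188949435335225744382112373699579979879469469398303783069501358410) (nat_lit 89925644))) .nil .nil l900 = true := by decide +kernel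
theorem cw4034 : wchk (nat_lit 5) [] [l900] (nat_lit 2) (nat_lit 2) (nat_lit 3) (nat_lit 0) (nat_lit 22597888) (nat_lit 0) w4034 = true := by decide +kernel
theorem cw4035 : wchk (nat_lit 5) [w3766] [] (nat_lit 4) (nat_lit 0) (nat_lit 3) (nat_lit 2) (nat_lit 22644736) (nat_lit 33554481) w4035 = true := by decide +kernel
theorem cw4036 : wchk (nat_lit 5) [] [] (nat_lit 4) (nat_lit 0) (nat_lit 3) (nat_lit 2) (nat_lit 25165905) (nat_lit 33554481) w4036 = true := by decide +kernel
theorem cw4037 : wchk (nat_lit 5) [] [l862] (nat_lit 284) (nat_lit 1) (nat_lit 2) (nat_lit 0) (nat_lit 1230543104) (nat_lit 0) w4037 = true := by decide +kernel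
theorem cw4038 : wchk (nat_lit 5) [] [l878] (nat_lit 1) (nat_lit 3) (nat_lit 1) (nat_lit 0) (nat_lit 5788416) (nat_lit 0) w4038 = true := by decide +kernel
theorem cw4039 : wchk (nat_lit 5) [] [l340] (nat_lit 1) (nat_lit 3) (nat_lit 3) (nat_lit 0) (nat_lit 22350592) (nat_lit 0) w4039 = true := by decide +kernel
theorem cl901 : lchk (nat_lit 5) [w833, w30, w8, w3110] (nat_lit 22293504) .nil (.nod (nat_lit 315937490161641627988468938958374771307994064232480891238365528138) (.nod (nat_lit 210625198493084441290550911274704338989098968831931779984037773386) (.nod (nat_lit 210624796758573376558037122210310721932412174795805898540402606090) .nil (.opn (nat_lit 61782255519729896853243943403739693183362489711765674142857505036288)) .dup) .nil .nil) .nil .nil) (.nod (nat_lit 315937088427130563240900053467851686017343433681732445540156702730) .nil (.nod (nat_lit 2623828525392241349422674046614959283017878788442301510189450) .nil (.opn (nat_lit 88740042562582680332628906878942976609030935952678494262455364163600)) .dup) (.dwn (nat_lit 2623828525392242100681750181050693911935931217363843887923594) (nat_lit 895640588))) .nil l901 = true := by decide +kernel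
theorem cw4040 : wchk (nat_lit 5) [] [l901] (nat_lit 17) (nat_lit 3) (nat_lit 3) (nat_lit 0) (nat_lit 5820672) (nat_lit 0) w4040 = true := by decide +kernel
theorem cl902 : lchk (nat_lit 5) [w4034, w177, w4032, w397, w2047, w603, w629, w2686, w520, w12, w142, w3274] (nat_lit 22250496) (.nod (nat_lit 279877235509313701404038564385190993818274715036116620825232431112) .nil (.nod (nat_lit 292295702932161061346872958121118884071041293394801996994567424016) .nil .nil (.dwn (nat_lit 210624796758573376969172264171587446638310623180962191287917740042) (nat_lit 626230272))) (.nod (nat_lit 5240845371562462553415857239954964713140612082227896914095507769045073201401304187722) .nil (.nod (nat_lit 5259107173540258165228494031172552055598425516255843920909534411488777735389859743800) .nil .nil .dup) (.opn (nat_lit 5259107173540258179830303303723655425747410410475079393430226278510612200108194203704)))) (.nod (nat_lit 129326775536474602123185994682139851544934307307574143106982109248) (.nod (nat_lit 1127325389985413832937794075091113242242527572208735617389831020624) .nil (.dwn (nat_lit 7860203013082085892084371726568544722530315029425864057188102903896) (nat_lit 626101292))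 (.dwn (nat_lit 7860203013082085892084371726568544722530315029425864057188102903896) (nat_lit 626101292))) (.dwn (nat_lit 20664344247279268596726325288584464471242324023709674187552798002024758746911335931984) (nat_lit 89230380)) .dup) .nil .nil l902 = true := by decide +kernel
theorem cw4042 : wchk (nat_lit 5) [] [l902] (nat_lit 25) (nat_lit 2) (nat_lit 3) (nat_lit 0) (nat_lit 156815616) (nat_lit 0) w4042 = true := by decide +kernel
theorem cw4044 : wchk (nat_lit 5) [] [l542] (nat_lit 1) (nat_lit 3) (nat_lit 3) (nat_lit 0) (nat_lit 5528576) (nat_lit 0) w4044 = true := by decide +kernel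
theorem cw4050 : wchk (nat_lit 5) [] [] (nat_lit 0) (nat_lit 3) (nat_lit 4) (nat_lit 2) (nat_lit 33554437) (nat_lit 25165889) w4050 = true := by decide +kernel
theorem cw4054 : wchk (nat_lit 5) [w3766] [] (nat_lit 1) (nat_lit 0) (nat_lit 3) (nat_lit 2) (nat_lit 22709248) (nat_lit 16777233) w4054 = true := by decide +kernel
theorem cw4058 : wchk (nat_lit 5) [] [l100] (nat_lit 19) (nat_lit 2) (nat_lit 0) (nat_lit 0) (nat_lit 156652544) (nat_lit 0) w4058 = true := by decide +kernel
theorem cw4065 : wchk (nat_lit 5) [] [] (nat_lit 0) (nat_lit 1) (nat_lit 4) (nat_lit 2) (nat_lit 25165829) (nat_lit 16777229) w4065 = true := by decide +kernel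
theorem cw4068 : wchk (nat_lit 5) [] [l55] (nat_lit 3) (nat_lit 3) (nat_lit 4) (nat_lit 0) (nat_lit 2804736) (nat_lit 0) w4068 = true := by decide +kernel
theorem cw4071 : wchk (nat_lit 5) [] [l123] (nat_lit 35) (nat_lit 1) (nat_lit 3) (nat_lit 0) (nat_lit 156666880) (nat_lit 0) w4071 = true := by decide +kernel
theorem cw4072 : wchk (nat_lit 5) [] [] (nat_lit 17) (nat_lit 2) (nat_lit 1) (nat_lit 2) (nat_lit 16777233) (nat_lit 16777233) w4072 = true := by decide +kernel
theorem cw4073 : wchk (nat_lit 5) [] [] (nat_lit 0) (nat_lit 0) (nat_lit 1) (nat_lit 2) (nat_lit 16777297) (nat_lit 25165841) w4073 = true := by decide +kernel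
theorem cw4077 : wchk (nat_lit 5) [w23, w177] [] (nat_lit 1) (nat_lit 0) (nat_lit 1) (nat_lit 2) (nat_lit 23153664) (nat_lit 22293508) w4077 = true := by decide +kernel
theorem cl910 : lchk (nat_lit 5) [w3274, w177, w195, w4034, w397, w2047, w603, w2686, w629, w520, w12] (nat_lit 22121472) (.nod (nat_lit 279877235509313701404038564385190993818274715036116620825232431112) .nil (.nod (nat_lit 284826654902445274546153918315917160294518093879699575896087875600) .nil .nil (.dwn (nat_lit 210624796758573376969172272338364252740833746301952769650354814986) (nat_lit 626230284))) (.nod (nat_lit 5240846297899176451945420628522844782643874908387774239220020084853319217296017720138) .nil (.dwn (nat_lit 5259108099876972078359866692291535495250673236634956718532449326898742346841232705592) (nat_lit 626101248)) (.dwn (nat_lit 5259108099876972078359866692291535495250673236634956718532449326898742346841232705592) (nat_lit 626101248)))) (.nod (nat_lit 129326825753288485216632105368455237206265636273991651408934625352) (.nod (nat_lit 1120215793909473229024335297986593793233071271575526052281677191168) .nil (.dwn (nat_lit 7860202460697133178056464479074227191213085626018306011871022618624)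 (nat_lit 626101248)) (.dwn (nat_lit 7860202460697133178056464479074227191213085626018306011871022618624) (nat_lit 626101248))) (.dwn (nat_lit 20664334057575415712894018418261843102792974158846504162173706229124156485447773788160) (nat_lit 89230336)) .dup) .nil .nil l910 = true := by decide +kernel
theorem cw4078 : wchk (nat_lit 5) [] [l910] (nat_lit 25) (nat_lit 2) (nat_lit 0) (nat_lit 0) (nat_lit 156815616) (nat_lit 0) w4078 = true := by decide +kernel
theorem cw4079 : wchk (nat_lit 5) [] [l910] (nat_lit 1) (nat_lit 0) (nat_lit 0) (nat_lit 0) (nat_lit 223666432) (nat_lit 0) w4079 = true := by decide +kernel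
theorem cw4080 : wchk (nat_lit 5) [w195] [] (nat_lit 25) (nat_lit 0) (nat_lit 4) (nat_lit 2) (nat_lit 193) (nat_lit 18688000) w4080 = true := by decide +kernel
theorem cw4081 : wchk (nat_lit 5) [w203] [] (nat_lit 209) (nat_lit 0) (nat_lit 3) (nat_lit 2) (nat_lit 16777233) (nat_lit 6129664) w4081 = true := by decide +kernel
theorem cl911 : lchk (nat_lit 5) [w3766, w203, w16, w3518, w3479, w4081] (nat_lit 7034660864) (.nod (nat_lit 207082528043646106003411502361850196077319332773627457787829916127497166017334678704129) (.nod (nat_lit 1537235505928314048736734708459561756687383861959581293297994301762) .nil (.nod (nat_lit 76773122219331402497738891610006770159658243883515880371338084379) (.nod (nat_lit 835443612812083927144681489) (.nod (nat_lit 61468527815089198382300473294304708357779358106) .nil (.dwn (nat_lit 3944025374413946703442776363543672821745512560268526230608703459072032) (nat_lit 314159746064)) (.dwn (nat_lit 3944025374413946703442776363543672821745512560268526230608703459072032) (nat_lit 314159746064))) .nil (.dwn (nat_lit 9097082322421256803266517603056527799156555112757710840341526746585739070267481544196442) (nat_lit 39281968148))) .nil .nil)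 .nil) (.dwn (nat_lit 40990399590021580395443961395312500961477246978281397488886725398650770616746370) (nat_lit 927754240)) .dup) .nil .nil .nil l911 = true := by decide +kernel
theorem cw4082 : wchk (nat_lit 5) [] [l911] (nat_lit 1233) (nat_lit 2) (nat_lit 1) (nat_lit 0) (nat_lit 9820492032) (nat_lit 0) w4082 = true := by decide +kernel
theorem cl912 : lchk (nat_lit 5) [w3483, w4038, w4078, w195, w17, w177, w1255, w1256, w4082, w3427, w3482, w3328, w3329, w4079, w4080, w3477, w495, w757, w3478] (nat_lit 23153664) (.nod (nat_lit 207429468006765808382257859301404747064842351606322159346302988203344363589581999081489) (.nod (nat_lit 40990399590010218006655525053968545660850412593605924027597406576390640205037890) .nil (.nod (nat_lit 7855883212101420544143489698512088710171571847266132989049224583209) (.nod (nat_lit 61774336830348671844377526495889243147235124012666580911878900488248) (.nod (nat_lit 493152200817797554005952438373170224695629854647129233827934207383552) .nil (.dwn (nat_lit 3944025374213079447910402579090038524461397204121832573137679066241024) (nat_lit 314159746048)) (.dwn (nat_lit 3944025374213079447910402579090038524461397204121832573137679066241024)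 (nat_lit 314159746048))) (.dwn (nat_lit 9097052437872529723297425325285946430891011594189649972083192099509943276478053017098240) (nat_lit 39281839104)) (.dwn (nat_lit 9097052437872529723297425325285946430891011594189649972083192099509943276478053017098240) (nat_lit 39281839104))) .nil .nil) (.nod (nat_lit 145264069824107386173081709791557738074263754385014939986647585109132679887286102038600) .nil (.dwn (nat_lit 1139880664579310587365245842700466505951367641144287451528919709700560167460575759718496) (nat_lit 4922100736)) (.dwn (nat_lit 1139880664579310587365245842700466505951367641144287451528919709700560167460575759718496) (nat_lit 4922100736)))) (.nod (nat_lit 40990399590011067974532794264345109920872436966447246135169522745753881009979714) (.dwn (nat_lit 145234196391420872493210800071465150483273272483177216521144707590332901400221405321360) (nat_lit 627133440)) .nil .nil) (.nod (nat_lit 40990399590011067974532794264345109920872436966447246135169522745753881009979714) (.dwn (nat_lit 145234196391420872493210800071465150483273272483177216521144707590332901400221405321360) (nat_lit 627133440)) .nil .nil)) .nil .nil .nil l912 = true := by decide +kernel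
theorem cw4083 : wchk (nat_lit 5) [] [l912] (nat_lit 0) (nat_lit 3) (nat_lit 3) (nat_lit 0) (nat_lit 5562624) (nat_lit 0) w4083 = true := by decide +kernel
theorem cw4084 : wchk (nat_lit 5) [] [l912] (nat_lit 0) (nat_lit 3) (nat_lit 3) (nat_lit 0) (nat_lit 5562624) (nat_lit 0) w4084 = true := by decide +kernel
theorem cw4085 : wchk (nat_lit 5) [] [l912] (nat_lit 0) (nat_lit 3) (nat_lit 3) (nat_lit 0) (nat_lit 5562624) (nat_lit 0) w4085 = true := by decide +kernel
theorem cw4086 : wchk (nat_lit 5) [] [l910] (nat_lit 25) (nat_lit 1) (nat_lit 0) (nat_lit 0) (nat_lit 156557568) (nat_lit 0) w4086 = true := by decide +kernel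
theorem cw4087 : wchk (nat_lit 5) [] [l807] (nat_lit 153) (nat_lit 1) (nat_lit 4) (nat_lit 0) (nat_lit 22565632) (nat_lit 0) w4087 = true := by decide +kernel
theorem cw4088 : wchk (nat_lit 5) [w20, w177] [] (nat_lit 1) (nat_lit 2) (nat_lit 1) (nat_lit 2) (nat_lit 88886272) (nat_lit 22293508) w4088 = true := by decide +kernel
theorem cw4089 : wchk (nat_lit 5) [] [l829] (nat_lit 17) (nat_lit 3) (nat_lit 1) (nat_lit 0) (nat_lit 5415680) (nat_lit 0) w4089 = true := by decide +kernel
theorem cl913 : lchk (nat_lit 5) [w4032, w177, w809, w91, w810, w80, w830, w4, w2204, w6, w812] (nat_lit 23282688) .nil (.nod (nat_lit 856335214558346647895824393) (.nod (nat_lit 290675909383547999149126660332038992168317884604492551177566683226) (.nod (nat_lit 7657098498057592528065830213388052851086725247986522681689222178856) .nil (.dwn (nat_lit 61793054444688200566456847464013133151081970182831802620752689272880) (nat_lit 4922100760)) (.dwn (nat_lit 61793054444688200566456847464013133151081970182831802620752689272880) (nat_lit 4922100760))) (.dwn (nat_lit 145234188054390447406443199267167956467702457021714919776913653403603627274563924170800) (nat_lit 627133464)) .dup) .nil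 .nil) (.nod (nat_lit 16917727354199632290252836325699166086322367217733458614416432922415275956655284551706) (.nod (nat_lit 5375308703605117510719082763184230683893864663587262189963128926364300784085732251712) .nil .nil (.nod (nat_lit 145264062413413674976989319470913276974094162077223832675503056636862075293730605533184) .nil (.opn (nat_lit 1139910535232986959349548489701490887501750572575931288143572581097887393852080624404480)) .dup)) .nil (.nod (nat_lit 5362030593148095987957471031191314424124514487905683855201632346592129309768590465104) .nil (.dwn (nat_lit 145264062413413674976989319470913276974521054789084992583071877296887442574120132708352) (nat_lit 627262464)) .dup)) .nil l913 = true := by decide +kernel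
theorem cw4090 : wchk (nat_lit 5) [] [l913] (nat_lit 17) (nat_lit 3) (nat_lit 1) (nat_lit 0) (nat_lit 5820672) (nat_lit 0) w4090 = true := by decide +kernel
theorem cw4091 : wchk (nat_lit 5) [w161, w195] [] (nat_lit 25) (nat_lit 0) (nat_lit 3) (nat_lit 2) (nat_lit 23275520) (nat_lit 22816772) w4091 = true := by decide +kernel
theorem cl914 : lchk (nat_lit 5) [w4032, w177, w906, w91, w810, w80, w1949, w281, w1244, w2204, w33] (nat_lit 23282688) .nil (.nod (nat_lit 856335214558346647895824393) (.nod (nat_lit 290675909383547999149126660332038992168317884604492551177566683226) (.nod (nat_lit 7657098498057592528065830213388052851086725247986522681689222178856) .nil (.dwn (nat_lit 61794584249706335125199246342821248973634383401727101942528490229808) (nat_lit 4922222616)) (.dwn (nat_lit 61794584249706335125199246342821248973634383401727101942528490229808) (nat_lit 4922222616))) (.dwn (nat_lit 145262407976042652211063798404084528373843509104129661156854443323260336709896182845488) (nat_lit 627255320)) .dup) .nil .nil) (.nod (nat_lit 5363688851658063593192131991267623843652881167356080493719315653405267117130295279642) (.nod (nat_lit 20933260721660725626380264542751107505006226987165921916362837159327155507887294994504)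 .nil .nil (.dwn (nat_lit 145264062413413674976989319470913276974094162077223832675503056636862075293730605533184) (nat_lit 627262464))) .nil (.nod (nat_lit 20933260721660725626380264542751107505006226987165921916363298364674912441507138672720) .nil (.nod (nat_lit 145264062413413674976989319470913276974521054789084992583071877296887442574120132708352) (.opn (nat_lit 1139910535232986959349548489701490887505100468562454253887548771423345327171782016665600)) .dup .dup) (.dwn (nat_lit 145264062413413674976989319470913276974521054789084992583071877296887442574120132708352) (nat_lit 627262464)))) .nil l914 = true := by decide +kernel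
theorem cw4092 : wchk (nat_lit 5) [] [l914] (nat_lit 1) (nat_lit 3) (nat_lit 1) (nat_lit 0) (nat_lit 5820672) (nat_lit 0) w4092 = true := by decide +kernel
theorem cl915 : lchk (nat_lit 5) [w4038, w177, w1, w195, w545, w4087, w1070, w519, w4089, w4090, w4033, w4088, w3274, w1109, w1125, w4091, w3120, w4092, w1108, w4032] (nat_lit 5157103616) (.nod (nat_lit 279877235509313701404038564385190993818274715036116620825232431112) .nil (.nod (nat_lit 5375304187713637255672287949035074502705058415060092775935004480216650966132992921624) (.nod (nat_lit 5284006178073136741362815347220940233799929867598465942653801323252454159451046709288) .nil .nil (.nod (nat_lit 5362027814137954292368780865487674215614726009426051879828044624135393495069432125488) (.dwn (nat_lit 20785520205497763045979779577708204352673756745228354385934283155642851510057627701304) (nat_lit 90384384)) .nil .nil)) .nil (.nod (nat_lit 5152872100180233099310402900982541212907733023044566666441371768079272287324396226648) .nil (.nod (nat_lit 207412878126764510378990938015669597322236247658376149433077363357130839329830312695904) (.dwn (nat_lit 145234195465084159079960366629922451342523472845305750574805693299714683431081266026608)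 (nat_lit 39281968196)) .nil .nil) (.nod (nat_lit 207412878126764510378990938015669597322236247658376149433077363357130839329830312695904) (.dwn (nat_lit 145234195465084159079960366629922451342523472845305750574805693299714683431081266026608) (nat_lit 39281968196)) .nil .nil))) (.nod (nat_lit 5362038930178521075015838084920232123589336763133060221635866297149488129909219563664) .nil (.dwn (nat_lit 1264239684340042313730156356102812194422228949218645787443885857295696464990163903598592) (nat_lit 5459093504)) (.dwn (nat_lit 1264239684340042313730156356102812194422228949218645787443885857295696464990163903598592) (nat_lit 5459093504)))) (.nod (nat_lit 65164577281799281797622055440012303316273517640298909160457269301248) (.nod (nat_lit 520113677289966328360823353976328874110102325283795652988067390050304) .nil (.dwn (nat_lit 4159706477355302700838173111763650909019310076682896831166313920876544) (nat_lit 331339737088)) (.dwn (nat_lit 4159706477355302700838173111763650909019310076682896831166313920876544) (nat_lit 331339737088))) (.dwn (nat_lit 9594403894203968570284388119236834482693737396724659171531271731326482929175370383380480) (nat_lit 41429444608)) .dup)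 .nil .nil l915 = true := by decide +kernel
theorem cw4093 : wchk (nat_lit 5) [] [l915] (nat_lit 281) (nat_lit 1) (nat_lit 1) (nat_lit 0) (nat_lit 1230557440) (nat_lit 0) w4093 = true := by decide +kernel
theorem cw4094 : wchk (nat_lit 5) [w1449, w177] [] (nat_lit 1) (nat_lit 0) (nat_lit 1) (nat_lit 2) (nat_lit 23275520) (nat_lit 22293508) w4094 = true := by decide +kernel
theorem cw4095 : wchk (nat_lit 5) [w1449, w177] [] (nat_lit 1) (nat_lit 0) (nat_lit 1) (nat_lit 2) (nat_lit 21727232) (nat_lit 22293508) w4095 = true := by decide +kernel
theorem cw4096 : wchk (nat_lit 5) [w17, w177] [] (nat_lit 0) (nat_lit 1) (nat_lit 1) (nat_lit 2) (nat_lit 23160832) (nat_lit 22293508) w4096 = true := by decide +kernel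
theorem cw4097 : wchk (nat_lit 5) [] [l760] (nat_lit 2) (nat_lit 1) (nat_lit 3) (nat_lit 0) (nat_lit 22565632) (nat_lit 0) w4097 = true := by decide +kernel
theorem cw4098 : wchk (nat_lit 5) [w16, w1408] [] (nat_lit 4) (nat_lit 0) (nat_lit 1) (nat_lit 2) (nat_lit 23153664) (nat_lit 22816772) w4098 = true := by decide +kernel
theorem cw4099 : wchk (nat_lit 5) [w1408, w177] [] (nat_lit 1) (nat_lit 0) (nat_lit 1) (nat_lit 2) (nat_lit 22816768) (nat_lit 22293508) w4099 = true := by decide +kernel
theorem cl916 : lchk (nat_lit 5) [w795, w808, w1, w210, w1928, w834, w831, w603, w604, w889, w1947, w1117, w1948] (nat_lit 23275520) .nil (.nod (nat_lit 803709144026503247921074184) (.opn (nat_lit 1134703947316512285287894608340680466194417127421279548566709207130)) .nil .nil) (.nod (nat_lit 5390244146235392740185792066685576293688318692559359838113741835924515423227301285905) (.nod (nat_lit 20689236767455149882026377494672278329983194516842041691208359202201569260677380900896) .nil .nil (.dwn (nat_lit 5363683177845690964698556236289358417945396357126831877331552973471023898922514567176) (nat_lit 627140628))) .nil (.nod (nat_lit 5363687809529260457346373179128758765461710487926218502954114552512253978396082229296)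 .nil (.nod (nat_lit 145034989533770421507650886495581897907041403159733649780384170935063943647660079274040) (.dwn (nat_lit 1139882323648365179631694591483566724579611172570530401279369820761665045519892282527816) (nat_lit 4922158128)) .nil .nil) (.nod (nat_lit 145034989533770421507650886495581897907041403159733649780384170935063943647660079274040) (.dwn (nat_lit 1139882323648365179631694591483566724579611172570530401279369820761665045519892282527816) (nat_lit 4922158128)) .nil .nil))) .nil l916 = true := by decide +kernel
theorem cw4100 : wchk (nat_lit 5) [] [l916] (nat_lit 35) (nat_lit 1) (nat_lit 2) (nat_lit 0) (nat_lit 156815616) (nat_lit 0) w4100 = true := by decide +kernel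
theorem cl917 : lchk (nat_lit 5) [w1408, w17, w16, w158, w105, w24, w3440, w3439, w3441, w3, w4100, w3437, w1449, w1448] (nat_lit 22293504) .nil (.nod (nat_lit 803444691503462547789092872) (.nod (nat_lit 1122375518640957311893936675168239066707866786052977961934277050458) (.opn (nat_lit 7862362185428617260986909955038625999522374876223434466142741616640)) .nil .dup) .nil .nil) (.nod (nat_lit 20905035357780326667900010303016374749275821748973810038111253353013141082246777667610) (.nod (nat_lit 207190430407299059185227497490653347017195204501347935600790440661729603346441251874848) .nil .nil (.nod (nat_lit 5362023182454384799720963922648273868098411878626665254205483045094163415595864463368) (.dwn (nat_lit 20903378025607072962328087175107206424418402732629982229346526066478364564797592868904) (nat_lit 90262560)) .nil .nil)) (.nod (nat_lit 20903381730953928556447960723794595297002984788692868705863273856432443344220117964872) (.dwn (nat_lit 145247473575541180117442848264239745024259762989528786775545138307754016178715959318624) (nat_lit 626273280)) .nil .nil) .dup) .nil l917 = true := by decide +kernel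
theorem cw4101 : wchk (nat_lit 5) [] [l917] (nat_lit 1) (nat_lit 3) (nat_lit 1) (nat_lit 0) (nat_lit 5820672) (nat_lit 0) w4101 = true := by decide +kernel
theorem cw4102 : wchk (nat_lit 5) [w495, w23] [] (nat_lit 0) (nat_lit 0) (nat_lit 1) (nat_lit 2) (nat_lit 22709248) (nat_lit 23153668) w4102 = true := by decide +kernel
theorem cw4103 : wchk (nat_lit 5) [w497, w23] [] (nat_lit 0) (nat_lit 0) (nat_lit 1) (nat_lit 2) (nat_lit 22644736) (nat_lit 23153668) w4103 = true := by decide +kernel
theorem cw4104 : wchk (nat_lit 5) [w16, w3434] [] (nat_lit 2) (nat_lit 0) (nat_lit 3) (nat_lit 2) (nat_lit 89925632) (nat_lit 23153668) w4104 = true := by decide +kernel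
theorem cw4105 : wchk (nat_lit 5) [w16, w3434] [] (nat_lit 2) (nat_lit 0) (nat_lit 4) (nat_lit 2) (nat_lit 81080320) (nat_lit 19483652) w4105 = true := by decide +kernel
theorem cw4106 : wchk (nat_lit 5) [w508, w23] [] (nat_lit 0) (nat_lit 0) (nat_lit 1) (nat_lit 2) (nat_lit 22644736) (nat_lit 23153668) w4106 = true := by decide +kernel
theorem cw4107 : wchk (nat_lit 5) [w16, w3436] [] (nat_lit 18) (nat_lit 0) (nat_lit 1) (nat_lit 2) (nat_lit 23282688) (nat_lit 90262532) w4107 = true := by decide +kernel
theorem cl918 : lchk (nat_lit 5) [w4077, w177, w16, w195, w4038, w4078, w3474, w3483, w50, w4083, w4084, w4085, w716, w4086, w4093, w4094, w3305, w3304, w4095, w4096, w1408, w1640, w3467, w4097, w3323, w4099, w3433, w3434, w3436, w3448, w3443, w4104, w4105, w4106, w358, w4107, w4101, w3766, w502, w4102, w3450, w4103] (nat_lit 23282688) (.nod (nat_lit 279877235509313701404038564385190993818274715036116620825232431112) .nil (.nod (nat_lit 20905035357780326668184837008135633906915421777976042584067016110657523149389034049560) (.nod (nat_lit 145264066118760530571107573025184797252107213381863341976001105900242633309899128735784) .nil .nil (.nod (nat_lit 5362027814137954292368780865487674215614726009426051879828057318004073401265443526712)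 (.dwn (nat_lit 17927009068005260853095378926545303468763193707509881008995212289520201797924520806464) (nat_lit 90391596)) .nil .nil)) (.nod (nat_lit 28674060078866986542454485334230412730394955953878634341620642603134517586612639668320) (.dwn (nat_lit 1139910549128037667773570428205628218022689681216437495546331767765010040160468136790160) (nat_lit 4922229760)) .nil .nil) .dup) (.nod (nat_lit 5391919773558745943136213914763345248828793570966130316817795767533536161658726209704) .nil (.dwn (nat_lit 145234202875777869782917834131488486654479562915496147722070740226078976424752797931712) (nat_lit 627262564)) .dup)) (.nod (nat_lit 1133175447935538686975177538272971706591665791046557213250378963160) (.nod (nat_lit 1133175548369166453223499331935326567263807507664043839716232173808) .nil (.nod (nat_lit 7874782159355881113733488717122095381428231917093559900177153034496) (.dwn (nat_lit 1139910565802098518001016614183572886037084590644538789743229172405821490557402658525456) (nat_lit 4922229760)) .nil .nil) .dup) (.nod (nat_lit 20933286659088714786324027613650846692174903621214970982865520591343327668403852077352) (.dwn (nat_lit 145116358024382554445981794883526586857317812943090698960455581048698206036029691300168)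 (nat_lit 627262464)) .nil .nil) .dup) .nil .nil l918 = true := by decide +kernel
theorem cw4109 : wchk (nat_lit 5) [] [l294] (nat_lit 153) (nat_lit 3) (nat_lit 3) (nat_lit 0) (nat_lit 1230152448) (nat_lit 0) w4109 = true := by decide +kernel
theorem cw4110 : wchk (nat_lit 5) [] [l294] (nat_lit 153) (nat_lit 3) (nat_lit 3) (nat_lit 0) (nat_lit 1230152448) (nat_lit 0) w4110 = true := by decide +kernel
theorem cw4112 : wchk (nat_lit 5) [w933] [] (nat_lit 3) (nat_lit 0) (nat_lit 3) (nat_lit 2) (nat_lit 22121472) (nat_lit 337) w4112 = true := by decide +kernel
theorem cl919 : lchk (nat_lit 5) [w12] (nat_lit 8388609) (.nod (nat_lit 20931593431367797510482360544137967407821047752656721357878414888824542703948643958784) (.nod (nat_lit 30105943201702210810128456102258856041850196013066546650266092285269865593307522) .nil (.nod (nat_lit 618974778902661154547433730) .nil .nil .nil) (.nod (nat_lit 3885382480197903746100983514876613269976718165319372031977069611288918886940455994202) .nil (.opn (nat_lit 34968069934422146506024356473663749651369710814534294087121763361910584031834114359554)) .dup)) .nil (.dwn (nat_lit 30105943201702210810128456102258856041959766935215088835500118317242177546092866)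 (nat_lit 161))) .nil .nil .nil l919 = true := by decide +kernel
theorem cw4113 : wchk (nat_lit 5) [] [l919] (nat_lit 1) (nat_lit 2) (nat_lit 1) (nat_lit 0) (nat_lit 22597888) (nat_lit 0) w4113 = true := by decide +kernel
theorem cw4114 : wchk (nat_lit 5) [w69] [] (nat_lit 1) (nat_lit 1) (nat_lit 4) (nat_lit 2) (nat_lit 10265600) (nat_lit 333) w4114 = true := by decide +kernel
theorem cw4115 : wchk (nat_lit 5) [] [l288] (nat_lit 25) (nat_lit 2) (nat_lit 1) (nat_lit 0) (nat_lit 156410624) (nat_lit 0) w4115 = true := by decide +kernel
theorem cw4116 : wchk (nat_lit 5) [] [l89] (nat_lit 3) (nat_lit 3) (nat_lit 3) (nat_lit 0) (nat_lit 18404608) (nat_lit 0) w4116 = true := by decide +kernel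
theorem cw4117 : wchk (nat_lit 5) [] [l17] (nat_lit 25) (nat_lit 1) (nat_lit 4) (nat_lit 0) (nat_lit 155511040) (nat_lit 0) w4117 = true := by decide +kernel
theorem cw4118 : wchk (nat_lit 5) [] [l68] (nat_lit 25) (nat_lit 3) (nat_lit 4) (nat_lit 0) (nat_lit 155407104) (nat_lit 0) w4118 = true := by decide +kernel
theorem cw4119 : wchk (nat_lit 5) [] [l412] (nat_lit 17) (nat_lit 3) (nat_lit 4) (nat_lit 0) (nat_lit 155360512) (nat_lit 0) w4119 = true := by decide +kernel
theorem cl920 : lchk (nat_lit 5) [w766, w13, w4116, w12, w2740, w4119, w871, w638, w1269, w959, w431, w1273, w216, w53, w2474, w4117, w4118, w3312, w781] (nat_lit 5155490816) (.nod (nat_lit 4513033587437696244095813649) .nil (.nod (nat_lit 48516885390435485882476242718640233390520123574903396332540438438338411911709082) (.nod (nat_lit 20931596094585849968754855286270622607642928377866368667611387796348974885950661806112) .nil (.nod (nat_lit 3885341721382492210881864068643130819300891979463822715337837440886997503588217913346) (.nod (nat_lit 20933258868987297830455842064449556832941718717991055431937386959143812587707200612400) .nil (.dwn (nat_lit 144888903454978481699907899782774677665158489593918265334822557327198941931664477329408)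 (nat_lit 625642496)) (.opn (nat_lit 144888903454978481699907899782774677665158489593918265334822557327198941931664477329408))) (.dwn (nat_lit 20664342394605840799628593431873426349855866063650736018216781540520763265587413194824) (nat_lit 88771584)) .dup) .nil) .nil (.nod (nat_lit 15533198596171257510980738469736735839799476802) .nil (.dwn (nat_lit 11174133642638249863144627510428898652244872530092704348114364584048) (nat_lit 894077952)) .dup)) (.nod (nat_lit 20933267206017722917222003002042280909767529499483960934112445915975120778049066369434) .nil (.opn (nat_lit 5122998667493719427275129074067338654349701843246475153781195604782369950607401621648)) .dup)) .nil .nil .nil l920 = true := by decide +kernel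
theorem cw4120 : wchk (nat_lit 5) [] [l920] (nat_lit 25) (nat_lit 2) (nat_lit 1) (nat_lit 0) (nat_lit 156815616) (nat_lit 0) w4120 = true := by decide +kernel
theorem cw4121 : wchk (nat_lit 5) [] [l287] (nat_lit 25) (nat_lit 3) (nat_lit 0) (nat_lit 0) (nat_lit 4369152) (nat_lit 0) w4121 = true := by decide +kernel
theorem cw4122 : wchk (nat_lit 5) [] [l715] (nat_lit 211) (nat_lit 1) (nat_lit 1) (nat_lit 0) (nat_lit 22209024) (nat_lit 0) w4122 = true := by decide +kernel
theorem cl921 : lchk (nat_lit 5) [w765, w12, w2072, w4121, w1268, w216, w53, w2474, w52, w4122, w3313, w780] (nat_lit 5155490816) (.nod (nat_lit 4513033587437696244062525457) .nil (.nod (nat_lit 48516885390435485882476242718640233390520123574903396332540438438338411911709082) (.nod (nat_lit 20931594241912422171695728509134862468636402725546614017362363165027630759341805963288) .nil (.nod (nat_lit 3885341721382492211704024943886632648863531018006201034330145874183231811786855415810) (.nod (nat_lit 144888907160325337294026153537913453475545325341303036177965931905707300218092435871776) .nil (.opn (nat_lit 144888903454978481699907899782774677665158489593918265334822557327198941931664477329408))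 .dup) (.dwn (nat_lit 144888907160325337294026153537913453475971115570962479469323223724488550882926593906720) (nat_lit 88771584)) (.dwn (nat_lit 144888907160325337294026153537913453475971115570962479469323223724488550882926593906720) (nat_lit 88771584))) .nil) .nil (.nod (nat_lit 70633174434762879208378300855299639323674231004750682490852613985878542125105730) .nil (.opn (nat_lit 206126377066818663028709078000989670843896956066874414616951899335085287500537854087224)) .dup)) (.nod (nat_lit 20664341468269126900302605787345268672795737203064255553637094085671452849397450146202) .nil (.opn (nat_lit 5122992183136722137568185002574480986172739285323126178280290092392742949357234100304)) .dup)) .nil .nil .nil l921 = true := by decide +kernel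
theorem cw4123 : wchk (nat_lit 5) [] [l921] (nat_lit 25) (nat_lit 2) (nat_lit 1) (nat_lit 0) (nat_lit 156815616) (nat_lit 0) w4123 = true := by decide +kernel
theorem cw4124 : wchk (nat_lit 5) [] [l921] (nat_lit 25) (nat_lit 3) (nat_lit 0) (nat_lit 0) (nat_lit 156813824) (nat_lit 0) w4124 = true := by decide +kernel
theorem cw4125 : wchk (nat_lit 5) [] [l921] (nat_lit 25) (nat_lit 3) (nat_lit 0) (nat_lit 0) (nat_lit 156813824) (nat_lit 0) w4125 = true := by decide +kernel
theorem cw4126 : wchk (nat_lit 5) [] [l921] (nat_lit 25) (nat_lit 3) (nat_lit 0) (nat_lit 0) (nat_lit 156813824) (nat_lit 0) w4126 = true := by decide +kernel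
theorem cw4127 : wchk (nat_lit 5) [] [l921] (nat_lit 25) (nat_lit 3) (nat_lit 0) (nat_lit 0) (nat_lit 156813824) (nat_lit 0) w4127 = true := by decide +kernel
theorem cw4128 : wchk (nat_lit 5) [] [l289] (nat_lit 25) (nat_lit 2) (nat_lit 1) (nat_lit 0) (nat_lit 156410624) (nat_lit 0) w4128 = true := by decide +kernel
theorem cw4129 : wchk (nat_lit 5) [] [l290] (nat_lit 25) (nat_lit 2) (nat_lit 1) (nat_lit 0) (nat_lit 156410624) (nat_lit 0) w4129 = true := by decide +kernel
theorem cw4130 : wchk (nat_lit 5) [] [l762] (nat_lit 3) (nat_lit 2) (nat_lit 1) (nat_lit 0) (nat_lit 22565632) (nat_lit 0) w4130 = true := by decide +kernel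
theorem cw4131 : wchk (nat_lit 5) [w114, w177] [] (nat_lit 3) (nat_lit 1) (nat_lit 1) (nat_lit 2) (nat_lit 85796864) (nat_lit 22114308) w4131 = true := by decide +kernel
theorem cw4132 : wchk (nat_lit 5) [] [l766] (nat_lit 1) (nat_lit 1) (nat_lit 1) (nat_lit 0) (nat_lit 22449152) (nat_lit 0) w4132 = true := by decide +kernel
theorem cw4133 : wchk (nat_lit 5) [] [l836] (nat_lit 17) (nat_lit 1) (nat_lit 1) (nat_lit 0) (nat_lit 22192896) (nat_lit 0) w4133 = true := by decide +kernel
theorem cl922 : lchk (nat_lit 5) [w3766, w16, w4132, w39, w461, w3, w42, w4133, w1, w1326, w581, w1554, w1325] (nat_lit 22644736) (.nod (nat_lit 5828010613608221282625016461138132317261150126060777222941900521999198537386217701378) (.nod (nat_lit 1126784956634403981210023819149623216891880062618282531337347993600) .nil (.opn (nat_lit 7866771623422063929876777590904530885320973208881991736012710285312)) .nil) (.nod (nat_lit 1126784956634403981271106954044973501840492740949458434024822476800) .nil (.dwn (nat_lit 7866771623422063930303236135132606899820507095392238393614167904256) (nat_lit 626624512)) .dup) (.dwn (nat_lit 20785513721140765756264826476785945993869612745417047358984213164974722178926742016000)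 (nat_lit 89753600))) .nil (.nod (nat_lit 5390243219898678841656228678117696224185055866399482512988427926573980485612048175113) (.nod (nat_lit 48401093301198169687052671733631545482666853590237759103353217602030403131015554) .nil (.dwn (nat_lit 5122985698779724847862680747569279373282662325434514884448961288873459397430096893976) (nat_lit 626624536)) (.dwn (nat_lit 5122985698779724847862680747569279373282662325434514884448961288873459397430096893976) (nat_lit 626624536))) .nil (.nod (nat_lit 40990399590009933179944128693075535225452992227646157059288409443262912509509954) (.dwn (nat_lit 20573042648084001732632498834068912266704515288831201538416904796282912989012320260168) (nat_lit 626624512)) .nil .nil)) .nil l922 = true := by decide +kernel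
theorem cw4134 : wchk (nat_lit 5) [] [l922] (nat_lit 211) (nat_lit 2) (nat_lit 1) (nat_lit 0) (nat_lit 22597888) (nat_lit 0) w4134 = true := by decide +kernel
theorem cl923 : lchk (nat_lit 5) [w3766, w16, w2081, w1409, w39, w3, w721, w2091, w158, w747, w748, w746, w258] (nat_lit 22709248) (.nod (nat_lit 41106191679247565312456126808647448187964312407988417577441124055254701178880010) (.nod (nat_lit 20800453679662521239936372342921302961221366097873573465278347399344300728540762277888) .nil .nil .nil) (.nod (nat_lit 1127594853408710512308896968044163162843553632999856425227348083266) .nil (.opn (nat_lit 7867581520196370461402153188619256452936490564219161563966062528512)) .dup) .nil) .nil (.nod (nat_lit 292295658992448913640107611270592921617376380678313885746325833737) (.nod (nat_lit 2623828525391632559283359978900807860296283882892063156470154) .nil (.dwn (nat_lit 145126285574945404987293730816508320089447728538701723641538975165058700504509701511200) (nat_lit 626101272)) (.dwn (nat_lit 145126285574945404987293730816508320089447728538701723641538975165058700504509701511200) (nat_lit 626101272))) .nil (.nod (nat_lit 2222094014326945834515708021897921558922336838200735106597194)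 (.dwn (nat_lit 144995151497052501345245638121033772533402967611517964992046245407646037047521077041232) (nat_lit 626689024)) .nil .nil)) .nil l923 = true := by decide +kernel
theorem cw4135 : wchk (nat_lit 5) [] [l923] (nat_lit 3) (nat_lit 2) (nat_lit 0) (nat_lit 0) (nat_lit 22597888) (nat_lit 0) w4135 = true := by decide +kernel
theorem cl924 : lchk (nat_lit 5) [w1528, w16, w2082, w401, w39, w3, w267, w2092, w91, w255, w257, w256, w258] (nat_lit 23282688) (.nod (nat_lit 41106191679247565312456126808647448187964312407988417577441124055254701178880010) (.nod (nat_lit 20933253310967014438143757434208066948980124377886903315363920513291296138662213224448) .nil .nil .nil) (.nod (nat_lit 1134793935846990788804842260746285749317438850807804301080010949186) .nil (.opn (nat_lit 7874780602634650737836971441833919147300788064902923078205125855232)) .dup) .nil) .nil (.nod (nat_lit 292295658992448913640107611270592921617376380678313885746325833737) (.nod (nat_lit 2623828525391632559283359978900807860296283882892063156470154) .nil (.dwn (nat_lit 145250785229293367360613154339589661327971564426214220375994199959384008701498560698400) (nat_lit 627205144)) (.dwn (nat_lit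 145250785229293367360613154339589661327971564426214220375994199959384008701498560698400) (nat_lit 627205144))) .nil (.nod (nat_lit 2222094014326945834515708021897920996431820330631554412839242) (.dwn (nat_lit 145250790787313650751808712655454482741975602437981850640112224655703354789504240765008) (nat_lit 627262464)) .nil .nil)) .nil l924 = true := by decide +kernel
theorem cw4136 : wchk (nat_lit 5) [] [l924] (nat_lit 3) (nat_lit 2) (nat_lit 0) (nat_lit 0) (nat_lit 22597888) (nat_lit 0) w4136 = true := by decide +kernel
theorem cw4137 : wchk (nat_lit 5) [] [l425] (nat_lit 3) (nat_lit 2) (nat_lit 1) (nat_lit 0) (nat_lit 22192896) (nat_lit 0) w4137 = true := by decide +kernel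
theorem cw4138 : wchk (nat_lit 5) [] [l541] (nat_lit 3) (nat_lit 2) (nat_lit 1) (nat_lit 0) (nat_lit 22191104) (nat_lit 0) w4138 = true := by decide +kernel
theorem cw4139 : wchk (nat_lit 5) [] [l425] (nat_lit 3) (nat_lit 3) (nat_lit 1) (nat_lit 0) (nat_lit 22192896) (nat_lit 0) w4139 = true := by decide +kernel
theorem cw4140 : wchk (nat_lit 5) [] [l425] (nat_lit 3) (nat_lit 3) (nat_lit 1) (nat_lit 0) (nat_lit 22192896) (nat_lit 0) w4140 = true := by decide +kernel
theorem cw4141 : wchk (nat_lit 5) [] [l425] (nat_lit 3) (nat_lit 2) (nat_lit 1) (nat_lit 0) (nat_lit 18522880) (nat_lit 0) w4141 = true := by decide +kernel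
theorem cw4142 : wchk (nat_lit 5) [] [l335] (nat_lit 27) (nat_lit 0) (nat_lit 1) (nat_lit 1) (nat_lit 22565632) (nat_lit 0) w4142 = true := by decide +kernel
theorem cl925 : lchk (nat_lit 5) [w201, w1231, w164, w177, w999, w1000, w2086, w3, w763, w392, w2087, w954, w4142, w13, w4135, w4136, w4137, w4138, w4139, w4140, w4141] (nat_lit 23160832) .nil .nil (.nod (nat_lit 20664335099704218847619561436491234951959809540289772359705711312666886504384418965521) (.nod (nat_lit 40990399590010210807573086773692111232860238905197463886337373490465418103488898) .nil (.nod (nat_lit 4153549316593638391854183330212931673126085831828906898690679703888664678612559484976) (.nod (nat_lit 1139882315311334754544927890564574315595609520493516546763631791178230684416748365729792) .nil (.dwn (nat_lit 9097054097867921029462403007588117993917580174643394116590517382829660025716505560928256) (nat_lit 39281846272)) (.dwn (nat_lit 9097054097867921029462403007588117993917580174643394116590517382829660025716505560928256) (nat_lit 39281846272))) (.dwn (nat_lit 1139882315311334754544927890564574315598959333549143305471853173917736291325355407626240) (nat_lit 4922107904)) .dup) .nil) (.nod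 (nat_lit 1535706046150774936345111565815119907684822783547258799919470739778) .nil (.dwn (nat_lit 7862362687596756091913756084259617391456999130077292068348650498144) (nat_lit 627140608)) .dup) (.nod (nat_lit 40990399590010205048803027186566595824114850673535366606371090531015226451558722) (.dwn (nat_lit 145264077234801097361337115144319844836571922668283811417630671183505035499368230594720) (nat_lit 627140608)) .nil .nil)) .nil l925 = true := by decide +kernel
theorem cw4143 : wchk (nat_lit 5) [] [l925] (nat_lit 1) (nat_lit 0) (nat_lit 3) (nat_lit 0) (nat_lit 5820672) (nat_lit 0) w4143 = true := by decide +kernel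
theorem cw4144 : wchk (nat_lit 5) [] [l25] (nat_lit 1) (nat_lit 3) (nat_lit 1) (nat_lit 0) (nat_lit 21146368) (nat_lit 0) w4144 = true := by decide +kernel
theorem cw4145 : wchk (nat_lit 5) [] [l89] (nat_lit 3) (nat_lit 2) (nat_lit 3) (nat_lit 0) (nat_lit 19451136) (nat_lit 0) w4145 = true := by decide +kernel
theorem cw4146 : wchk (nat_lit 5) [] [l68] (nat_lit 25) (nat_lit 2) (nat_lit 4) (nat_lit 0) (nat_lit 155536128) (nat_lit 0) w4146 = true := by decide +kernel
theorem cw4147 : wchk (nat_lit 5) [] [l414] (nat_lit 17) (nat_lit 3) (nat_lit 4) (nat_lit 0) (nat_lit 155475200) (nat_lit 0) w4147 = true := by decide +kernel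
theorem cw4148 : wchk (nat_lit 5) [] [l409] (nat_lit 273) (nat_lit 0) (nat_lit 4) (nat_lit 1) (nat_lit 4609280) (nat_lit 0) w4148 = true := by decide +kernel
theorem cw4149 : wchk (nat_lit 5) [] [l409] (nat_lit 273) (nat_lit 0) (nat_lit 4) (nat_lit 1) (nat_lit 4609280) (nat_lit 0) w4149 = true := by decide +kernel
theorem cw4150 : wchk (nat_lit 5) [] [l409] (nat_lit 273) (nat_lit 0) (nat_lit 4) (nat_lit 1) (nat_lit 4609280) (nat_lit 0) w4150 = true := by decide +kernel
theorem cw4151 : wchk (nat_lit 5) [] [l184] (nat_lit 1) (nat_lit 2) (nat_lit 4) (nat_lit 0) (nat_lit 2304768) (nat_lit 0) w4151 = true := by decide +kernel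
theorem cl926 : lchk (nat_lit 5) [w2474, w1246, w4145, w12, w4144, w4147, w3024, w871, w1269, w1542, w959, w1273, w216, w53, w4146, w1842, w4148, w4149, w4150, w4151] (nat_lit 5152007168) (.nod (nat_lit 820105218901770729823832081) .nil (.nod (nat_lit 2228371116062271671161705245238721577724046921807542844653978) (.nod (nat_lit 1134704097966953934568232940399626623177792142050386606343772866592) .nil (.nod (nat_lit 5391906804844751363646503919217889419900165822053355024670431151964605507831379001354) (.nod (nat_lit 1637100977569489391637240763450330523171665450529357807263359755672926657073127675553848) .nil (.dwn (nat_lit 144082145694803685520754300927395033760184883002532129414162327859365954545106964629504) (nat_lit 622158848)) (.opn (nat_lit 144082145694803685520754300927395033760184883002532129414162327859365954545106964629504))) (.dwn (nat_lit 20903381730953928556427623315906453516075023242978445237336807173791071895725746624592) (nat_lit 85287936)) .dup) .nil) (.nod (nat_lit 15528320308159078937170907604071960311907746378) .nil .nil (.dwn (nat_lit 606107075462851627822844206392720641182950672384) (nat_lit 890594304))) .nil) (.nod (nat_lit 20933266279681009026266735607120160584976756717039468785664595993878824057053447717274)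 .nil (.opn (nat_lit 1264241359156821042271607053475755674600172153147248523930352498110588401916492793677976)) .dup)) .nil .nil .nil l926 = true := by decide +kernel
theorem cw4152 : wchk (nat_lit 5) [] [l926] (nat_lit 25) (nat_lit 3) (nat_lit 0) (nat_lit 0) (nat_lit 156815616) (nat_lit 0) w4152 = true := by decide +kernel
theorem cw4153 : wchk (nat_lit 5) [] [l160] (nat_lit 217) (nat_lit 0) (nat_lit 1) (nat_lit 1) (nat_lit 156410624) (nat_lit 0) w4153 = true := by decide +kernel
theorem cw4154 : wchk (nat_lit 5) [] [l160] (nat_lit 217) (nat_lit 0) (nat_lit 1) (nat_lit 1) (nat_lit 156410624) (nat_lit 0) w4154 = true := by decide +kernel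
theorem cw4155 : wchk (nat_lit 5) [] [l160] (nat_lit 217) (nat_lit 0) (nat_lit 1) (nat_lit 1) (nat_lit 156410624) (nat_lit 0) w4155 = true := by decide +kernel
theorem cw4156 : wchk (nat_lit 5) [] [l497] (nat_lit 1) (nat_lit 0) (nat_lit 3) (nat_lit 0) (nat_lit 5573376) (nat_lit 0) w4156 = true := by decide +kernel
theorem cw4157 : wchk (nat_lit 5) [] [l293] (nat_lit 25) (nat_lit 2) (nat_lit 1) (nat_lit 0) (nat_lit 156410624) (nat_lit 0) w4157 = true := by decide +kernel
theorem cw4158 : wchk (nat_lit 5) [] [l756] (nat_lit 25) (nat_lit 2) (nat_lit 1) (nat_lit 0) (nat_lit 152740608) (nat_lit 0) w4158 = true := by decide +kernel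
theorem cw4159 : wchk (nat_lit 5) [w164] [] (nat_lit 17) (nat_lit 0) (nat_lit 4) (nat_lit 2) (nat_lit 333) (nat_lit 77804544) w4159 = true := by decide +kernel
theorem cl927 : lchk (nat_lit 5) [w1265, w4130, w4131, w1231, w164, w177, w1255, w4113, w2405, w1227, w4128, w42, w4129, w716, w1257, w1263, w4152, w4153, w4154, w4155, w765, w766, w4114, w4115, w4120, w4123, w4124, w4125, w4126, w4127, w4134, w4143, w4156, w4157, w4158, w4159] (nat_lit 22121472) (.nod (nat_lit 858979739788753649222977553) .nil (.nod (nat_lit 20664336952377646645813392368087864644014695007531258442001525838670555260323759128986) (.nod (nat_lit 5015087966810341151116247078895816619558360054038299319021612169342845480833851252777) .nil (.nod (nat_lit 5122988477789866535867446197082773850442359434027768822492055181182289725074759387192) (.nod (nat_lit 20905040800008520822881411456713468334412114126956060339787523511647840905379305429064) .nil (.dwn (nat_lit 72754187658988871834880440009961590777764495257727700704611989496138140469754376210290688) (nat_lit 314158713856)) (.dwn (nat_lit 72754187658988871834880440009961590777764495257727700704611989496138140469754376210290688) (nat_lit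 314158713856))) (.dwn (nat_lit 20800463869366374124888355126187340447729110438815836161905685196275293326005098457176) (nat_lit 39280806912)) (.dwn (nat_lit 20800463869366374124888355126187340447729110438815836161905685196275293326005098457176) (nat_lit 39280806912))) .nil) (.nod (nat_lit 1535706347451658234905788246266565833876368453527002837950997928040) .nil (.dwn (nat_lit 61794674740404952459589142707794434402969835195221937403650959116440) (nat_lit 4921068544)) .dup) (.nod (nat_lit 28435028153212609967578624772190216190057982386891927716226831094974317871689233012904) (.dwn (nat_lit 1139910557465068092914258012282540356250514929228227926651625550624038960649638861244640) (nat_lit 4922229876)) .nil .nil)) (.nod (nat_lit 5391929963262598827809759329224538945578908839759735425885601305256620781667096723866) .nil (.dwn (nat_lit 145264092056188519737810130164874948077692372896961074046020210098639583941935935949080) (nat_lit 626101248)) .dup)) .nil .nil .nil l927 = true := by decide +kernel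
theorem cw4160 : wchk (nat_lit 5) [] [l927] (nat_lit 153) (nat_lit 3) (nat_lit 3) (nat_lit 0) (nat_lit 1230557440) (nat_lit 0) w4160 = true := by decide +kernel
theorem cw4161 : wchk (nat_lit 5) [w284] [] (nat_lit 3) (nat_lit 0) (nat_lit 3) (nat_lit 2) (nat_lit 22121472) (nat_lit 337) w4161 = true := by decide +kernel
theorem cw4162 : wchk (nat_lit 5) [] [l232] (nat_lit 25) (nat_lit 2) (nat_lit 1) (nat_lit 0) (nat_lit 156797696) (nat_lit 0) w4162 = true := by decide +kernel
theorem cw4163 : wchk (nat_lit 5) [w397] [] (nat_lit 1) (nat_lit 1) (nat_lit 4) (nat_lit 2) (nat_lit 11218944) (nat_lit 333) w4163 = true := by decide +kernel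
theorem cw4164 : wchk (nat_lit 5) [] [l288] (nat_lit 25) (nat_lit 2) (nat_lit 0) (nat_lit 0) (nat_lit 155478784) (nat_lit 0) w4164 = true := by decide +kernel
theorem cw4165 : wchk (nat_lit 5) [w581] [] (nat_lit 1) (nat_lit 1) (nat_lit 3) (nat_lit 2) (nat_lit 77704192) (nat_lit 337) w4165 = true := by decide +kernel
theorem cw4166 : wchk (nat_lit 5) [] [l287] (nat_lit 25) (nat_lit 3) (nat_lit 1) (nat_lit 0) (nat_lit 5530368) (nat_lit 0) w4166 = true := by decide +kernel
theorem cw4167 : wchk (nat_lit 5) [] [l64] (nat_lit 3) (nat_lit 1) (nat_lit 1) (nat_lit 0) (nat_lit 5661184) (nat_lit 0) w4167 = true := by decide +kernel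
theorem cw4168 : wchk (nat_lit 5) [] [l4] (nat_lit 25) (nat_lit 3) (nat_lit 1) (nat_lit 0) (nat_lit 155898112) (nat_lit 0) w4168 = true := by decide +kernel
theorem cw4169 : wchk (nat_lit 5) [] [l4] (nat_lit 25) (nat_lit 3) (nat_lit 1) (nat_lit 0) (nat_lit 155896320) (nat_lit 0) w4169 = true := by decide +kernel
theorem cw4170 : wchk (nat_lit 5) [] [] (nat_lit 0) (nat_lit 0) (nat_lit 3) (nat_lit 2) (nat_lit 197) (nat_lit 337) w4170 = true := by decide +kernel
theorem cl928 : lchk (nat_lit 5) [w766, w4167, w13, w12, w4166, w4170, w216, w53, w2474, w4168, w4169, w782] (nat_lit 5144423424) (.nod (nat_lit 858979739788753649398929425) .nil (.nod (nat_lit 210625154553372293583785564424178376535434063826182691546355204506) (.nod (nat_lit 1134704097966953934568232940399626623200934042921587318635198676992) .nil (.nod (nat_lit 20933257942650583931002199123589226789945974423784155809024218071261106364635282407424) (.opn (nat_lit 145264067045097244477511917267471397474914678216900010053547459563154525625306178816040)) .dup .dup) .nil) .nil (.nod (nat_lit 3778815244702794538239224823379230635829187328492745067415608) .nil (.dwn (nat_lit 207203715002113078008928588840239339070052263435269364876421647944124835553520449538112)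 (nat_lit 883010560)) .dup)) (.nod (nat_lit 20933261647997439526044622369334117194187275878406804669397384049098027063945187033498) .nil (.opn (nat_lit 144025716041203128795338300480193523426466577143010766472925028110950520962119333271640)) .dup)) .nil .nil .nil l928 = true := by decide +kernel
theorem cw4171 : wchk (nat_lit 5) [] [l928] (nat_lit 25) (nat_lit 2) (nat_lit 0) (nat_lit 0) (nat_lit 156815616) (nat_lit 0) w4171 = true := by decide +kernel
theorem cw4172 : wchk (nat_lit 5) [] [l928] (nat_lit 25) (nat_lit 3) (nat_lit 0) (nat_lit 0) (nat_lit 156815616) (nat_lit 0) w4172 = true := by decide +kernel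
theorem cw4173 : wchk (nat_lit 5) [] [l928] (nat_lit 25) (nat_lit 3) (nat_lit 0) (nat_lit 0) (nat_lit 156815616) (nat_lit 0) w4173 = true := by decide +kernel
theorem cw4174 : wchk (nat_lit 5) [] [l289] (nat_lit 25) (nat_lit 2) (nat_lit 0) (nat_lit 0) (nat_lit 155478784) (nat_lit 0) w4174 = true := by decide +kernel
theorem cw4175 : wchk (nat_lit 5) [] [l290] (nat_lit 25) (nat_lit 2) (nat_lit 0) (nat_lit 0) (nat_lit 155478784) (nat_lit 0) w4175 = true := by decide +kernel
theorem cw4176 : wchk (nat_lit 5) [] [l925] (nat_lit 1) (nat_lit 0) (nat_lit 4) (nat_lit 0) (nat_lit 2804736) (nat_lit 0) w4176 = true := by decide +kernel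
theorem cw4177 : wchk (nat_lit 5) [] [l160] (nat_lit 217) (nat_lit 0) (nat_lit 0) (nat_lit 1) (nat_lit 155478784) (nat_lit 0) w4177 = true := by decide +kernel
theorem cw4178 : wchk (nat_lit 5) [] [l160] (nat_lit 217) (nat_lit 0) (nat_lit 0) (nat_lit 1) (nat_lit 155478784) (nat_lit 0) w4178 = true := by decide +kernel
theorem cw4179 : wchk (nat_lit 5) [] [l293] (nat_lit 25) (nat_lit 2) (nat_lit 0) (nat_lit 0) (nat_lit 155478784) (nat_lit 0) w4179 = true := by decide +kernel
theorem cw4180 : wchk (nat_lit 5) [] [l497] (nat_lit 1) (nat_lit 0) (nat_lit 4) (nat_lit 0) (nat_lit 2319104) (nat_lit 0) w4180 = true := by decide +kernel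
theorem cw4181 : wchk (nat_lit 5) [] [l756] (nat_lit 25) (nat_lit 2) (nat_lit 0) (nat_lit 0) (nat_lit 153643776) (nat_lit 0) w4181 = true := by decide +kernel
theorem cl929 : lchk (nat_lit 5) [w1266, w4134, w4130, w164, w4162, w177, w1255, w495, w1227, w2405, w4174, w42, w4175, w716, w1257, w1263, w4155, w4177, w4178, w766, w4163, w765, w4164, w4126, w4165, w4171, w4172, w4173, w4176, w4179, w4180, w4181] (nat_lit 17476608) (.nod (nat_lit 413906143511255327098429457) .nil (.nod (nat_lit 18144463948374888209624526177701372270104498411676627191568269688343716190726123422106) (.nod (nat_lit 145264066118760530578982263840156225018435646204704191653226763946187488370720258392064) .nil (.nod (nat_lit 4153551169267066188900981728889950721832099661662535535114899229671059001093858000896) (.nod (nat_lit 17676349763918029941256307892120905009978888417426067968000585053330203522903046522960) .nil (.dwn (nat_lit 72753111981975305439974901878154417919224530448939185856717775856847696486572299526690816) (nat_lit 314154068992)) (.dwn (nat_lit 72753111981975305439974901878154417919224530448939185856717775856847696486572299526690816) (nat_lit 314154068992))) (.dwn (nat_lit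 19831026560843573777921890657994517319118850666450602873081713986015840156475512490064) (nat_lit 39276162048)) (.dwn (nat_lit 19831026560843573777921890657994517319118850666450602873081713986015840156475512490064) (nat_lit 39276162048))) .nil) (.nod (nat_lit 27465584360332812330905216182287721510173362510849093939935929970864610463400469026936) .nil (.dwn (nat_lit 1139060632414025625257448076021675228952353491435735415771603524763414390795819955947664) (nat_lit 4916423680)) .dup) (.nod (nat_lit 25765754637655582784889845263710324874904444166044228938134097219770829606242507720880) (.dwn (nat_lit 1139060638898382622547155020093168086617792636126181369753018525396822266491616937543888) (nat_lit 4922229868)) .nil .nil)) (.nod (nat_lit 20933279248395003598106237667496009906975869217920979683561340722022328433163085283738) .nil (.dwn (nat_lit 145264089277178378042221349809773573833353369625859009422895606592424245882404573972728) (nat_lit 621456384)) .dup)) .nil .nil .nil l929 = true := by decide +kernel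
theorem cw4182 : wchk (nat_lit 5) [] [l929] (nat_lit 153) (nat_lit 3) (nat_lit 4) (nat_lit 0) (nat_lit 1230557440) (nat_lit 0) w4182 = true := by decide +kernel
theorem cw4189 : wchk (nat_lit 5) [] [] (nat_lit 3) (nat_lit 1) (nat_lit 1) (nat_lit 2) (nat_lit 305) (nat_lit 25165905) w4189 = true := by decide +kernel
theorem cw4192 : wchk (nat_lit 5) [] [] (nat_lit 1) (nat_lit 0) (nat_lit 1) (nat_lit 2) (nat_lit 177) (nat_lit 25165905) w4192 = true := by decide +kernel
theorem cw4194 : wchk (nat_lit 5) [] [l482] (nat_lit 17) (nat_lit 2) (nat_lit 4) (nat_lit 0) (nat_lit 5573376) (nat_lit 0) w4194 = true := by decide +kernel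
theorem cl931 : lchk (nat_lit 5) [w193, w25, w2471, w2349, w1854] (nat_lit 89753600) .nil (.nod (nat_lit 315937891896152692736037824448897856598644694783229336936574353546) .nil (.nod (nat_lit 210625198493084441290550911274704338989098968831931779984037773386) (.nod (nat_lit 210624796758573376542982025784181253698448338281183334285828947978) .nil .nil (.nod (nat_lit 5122983846106297043158295555090672066675629000386852777749096333579251549115294679050) .nil (.opn (nat_lit 1139762795643160710666534764808221775757835652850348230330941386812625797396517623107584)) .dup)) .nil .nil) .nil) (.nod (nat_lit 315937490161641627988468938958374771307994064232480891238365528138) (.opn (nat_lit 207281727374810756563406387199037882442511267872631885677397268180344432945626810941834)) .nil (.dwn (nat_lit 207158889568527528152334305341397944946883082548988632179326960942080835595699591577674) (nat_lit 894192656))) .nil l931 = true := by decide +kernel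
theorem cw4199 : wchk (nat_lit 5) [] [] (nat_lit 0) (nat_lit 2) (nat_lit 1) (nat_lit 2) (nat_lit 16777265) (nat_lit 16777297) w4199 = true := by decide +kernel
theorem cl934 : lchk (nat_lit 5) [w193, w25, w4199, w2355, w3110] (nat_lit 89753600) .nil (.nod (nat_lit 315937891896152692736037824448897856598644694783229336936574353546) .nil (.nod (nat_lit 210625198493084441290550911274704338989098968831931779984037773386) (.nod (nat_lit 210624796758573376542982025784181253698448338281183334285828947978) .nil .nil (.nod (nat_lit 5122983846106297043158295555090672066675629000386852777749096333579251549115294679050) .nil (.opn (nat_lit 1139762795643160710666534764808221775761185114669238112181666715675533727138621628289024)) .dup)) .nil .nil) .nil) (.nod (nat_lit 315937490161641627988468938958374771307994064232480891238365528138) (.opn (nat_lit 207281727374810756563406387199037882442511267872631885677397268180344432945626810941834)) .nil (.dwn (nat_lit 207429468817310433043681852464894726571941552544515791748876316161747838743822045544522) (nat_lit 894070800))) .nil l934 = true := by decide +kernel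
theorem cw4204 : wchk (nat_lit 5) [] [l50] (nat_lit 17) (nat_lit 1) (nat_lit 0) (nat_lit 0) (nat_lit 5661184) (nat_lit 0) w4204 = true := by decide +kernel
theorem cw4207 : wchk (nat_lit 5) [] [] (nat_lit 0) (nat_lit 0) (nat_lit 4) (nat_lit 2) (nat_lit 165) (nat_lit 333) w4207 = true := by decide +kernel
theorem cw4209 : wchk (nat_lit 5) [] [l878] (nat_lit 1) (nat_lit 1) (nat_lit 4) (nat_lit 0) (nat_lit 19096320) (nat_lit 0) w4209 = true := by decide +kernel
theorem cw4215 : wchk (nat_lit 5) [w1070, w37] [] (nat_lit 25) (nat_lit 1) (nat_lit 0) (nat_lit 2) (nat_lit 627190784) (nat_lit 23211012) w4215 = true := by decide +kernel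
theorem cw4216 : wchk (nat_lit 5) [w16, w1070] [] (nat_lit 153) (nat_lit 0) (nat_lit 1) (nat_lit 2) (nat_lit 23153664) (nat_lit 627133444) w4216 = true := by decide +kernel
theorem cw4217 : wchk (nat_lit 5) [w284] [] (nat_lit 3) (nat_lit 0) (nat_lit 3) (nat_lit 2) (nat_lit 89223168) (nat_lit 337) w4217 = true := by decide +kernel
theorem cw4218 : wchk (nat_lit 5) [w1211] [] (nat_lit 3) (nat_lit 0) (nat_lit 3) (nat_lit 2) (nat_lit 89230336) (nat_lit 337) w4218 = true := by decide +kernel
theorem cw4219 : wchk (nat_lit 5) [w1228] [] (nat_lit 1) (nat_lit 1) (nat_lit 4) (nat_lit 2) (nat_lit 89230336) (nat_lit 333) w4219 = true := by decide +kernel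
theorem cw4220 : wchk (nat_lit 5) [w520, w495] [] (nat_lit 25) (nat_lit 1) (nat_lit 0) (nat_lit 2) (nat_lit 614281216) (nat_lit 23282692) w4220 = true := by decide +kernel
theorem cw4221 : wchk (nat_lit 5) [] [l280] (nat_lit 0) (nat_lit 3) (nat_lit 1) (nat_lit 0) (nat_lit 5530368) (nat_lit 0) w4221 = true := by decide +kernel
theorem cw4222 : wchk (nat_lit 5) [] [l280] (nat_lit 0) (nat_lit 3) (nat_lit 3) (nat_lit 0) (nat_lit 2777856) (nat_lit 0) w4222 = true := by decide +kernel

end Pool.Agent.W319.GCI.K5
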