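import Pool.Agent.W319.GCI.K5D0
import Pool.Agent.W319.GCI.K5D1
import Pool.Agent.W319.GCI.K5D2
import Pool.Agent.W319.GCI.K5D3
import Pool.Agent.W319.GCI.K5D4
import Pool.Agent.W319.GCI.K5D5
import Pool.Agent.W319.GCI.K5D6
import Pool.Agent.W319.GCI.K5D7
import Pool.Agent.W319.GCI.K5D8
import Pool.Agent.W319.GCI.K5D9
import Pool.Agent.W319.GCI.K5D10
import Pool.Agent.W319.GCI.K5D11
import Pool.Agent.W319.GCI.K5D12
import Pool.Agent.W319.GCI.K5D13
import Pool.Agent.W319.GCI.K5D14
import Pool.Agent.W319.GCI.K5D15
set_option autoImplicit false
set_option maxRecDepth 100000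
set_option linter.all false
namespace Pool.Agent.W319.GCI.K5
open Pool.Agent.W319.GCI

theorem cw511 : wchk (nat_lit 5) [] [l118] (nat_lit 1299) (nat_lit 1) (nat_lit 2) (nat_lit 0) (nat_lit 156815616) (nat_lit 0) w511 = true := by decide +kernel
theorem cw512 : wchk (nat_lit 5) [w126, w177] [] (nat_lit 1) (nat_lit 1) (nat_lit 2) (nat_lit 2) (nat_lit 90334208) (nat_lit 22630404) w512 = true := by decide +kernel
theorem cw513 : wchk (nat_lit 5) [w220, w175] [] (nat_lit 19) (nat_lit 0) (nat_lit 2) (nat_lit 2) (nat_lit 23282688) (nat_lit 90391556) w513 = true := by decide +kernel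
theorem cw514 : wchk (nat_lit 5) [w220, w175] [] (nat_lit 19) (nat_lit 0) (nat_lit 4) (nat_lit 2) (nat_lit 10839040) (nat_lit 82134020) w514 = true := by decide +kernel
theorem cw515 : wchk (nat_lit 5) [w16, w83] [] (nat_lit 275) (nat_lit 0) (nat_lit 1) (nat_lit 2) (nat_lit 21712896) (nat_lit 23282692) w515 = true := by decide +kernel
theorem cw516 : wchk (nat_lit 5) [w1, w175] [] (nat_lit 19) (nat_lit 0) (nat_lit 2) (nat_lit 2) (nat_lit 22114304) (nat_lit 90391556) w516 = true := by decide +kernel
theorem cw517 : wchk (nat_lit 5) [w69, w175] [] (nat_lit 19) (nat_lit 0) (nat_lit 2) (nat_lit 2) (nat_lit 23225344) (nat_lit 90391556) w517 = true := by decide +kernel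
theorem cw518 : wchk (nat_lit 5) [w69, w175] [] (nat_lit 19) (nat_lit 0) (nat_lit 2) (nat_lit 2) (nat_lit 10839040) (nat_lit 90391556) w518 = true := by decide +kernel
theorem cw519 : wchk (nat_lit 5) [] [l57] (nat_lit 1) (nat_lit 1) (nat_lit 2) (nat_lit 0) (nat_lit 5790208) (nat_lit 0) w519 = true := by decide +kernel
theorem cw520 : wchk (nat_lit 5) [] [l71] (nat_lit 289) (nat_lit 1) (nat_lit 3) (nat_lit 0) (nat_lit 1228559360) (nat_lit 0) w520 = true := by decide +kernel
theorem cl119 : lchk (nat_lit 5) [w216, w33, w78, w142, w91, w80, w12, w520] (nat_lit 23282688) (.nod (nat_lit 5828018024301932469745537230427087571342190432639727916984360918805730274445419872322) (.nod (nat_lit 20782194656694867324003096190820800981556926615548186681716501683896739900681739043666) (.opn (nat_lit 145264065192423816680452790389902009569721260337763106761217614957762726003480904239128)) .nil .dup) .nil (.nod (nat_lit 7298626653542341975071567623907634380758226984) .nil .nil (.dwn (nat_lit 11417993111248154383515945791237515705189400594) (nat_lit 627262464)))) .nil (.nod (nat_lit 20825359168552397105777637378944851625945710232335336762916466252173394747768623761464)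 .nil (.dwn (nat_lit 48401093301199304480988518724420288807625071441809058642751883961900828245098882) (nat_lit 90391552)) .dup) .nil l119 = true := by decide +kernel
theorem cw521 : wchk (nat_lit 5) [] [l119] (nat_lit 33) (nat_lit 2) (nat_lit 1) (nat_lit 0) (nat_lit 156815616) (nat_lit 0) w521 = true := by decide +kernel
theorem cw522 : wchk (nat_lit 5) [w105, w175] [] (nat_lit 1) (nat_lit 1) (nat_lit 4) (nat_lit 2) (nat_lit 77947904) (nat_lit 82134020) w522 = true := by decide +kernel
theorem cw523 : wchk (nat_lit 5) [w220, w83] [] (nat_lit 275) (nat_lit 0) (nat_lit 1) (nat_lit 2) (nat_lit 23211008) (nat_lit 23282692) w523 = true := by decide +kernel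
theorem cw524 : wchk (nat_lit 5) [w220, w487] [] (nat_lit 275) (nat_lit 0) (nat_lit 4) (nat_lit 2) (nat_lit 6638592) (nat_lit 15025156) w524 = true := by decide +kernel
theorem cw525 : wchk (nat_lit 5) [w519, w175] [] (nat_lit 19) (nat_lit 0) (nat_lit 2) (nat_lit 2) (nat_lit 23153664) (nat_lit 90391556) w525 = true := by decide +kernel
theorem cw526 : wchk (nat_lit 5) [w220, w83] [] (nat_lit 275) (nat_lit 0) (nat_lit 1) (nat_lit 2) (nat_lit 6466560) (nat_lit 23282692) w526 = true := by decide +kernel
theorem cw527 : wchk (nat_lit 5) [w230, w175] [] (nat_lit 19) (nat_lit 0) (nat_lit 2) (nat_lit 2) (nat_lit 23211008) (nat_lit 90391556) w527 = true := by decide +kernel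
theorem cw528 : wchk (nat_lit 5) [w392, w16] [] (nat_lit 0) (nat_lit 3) (nat_lit 0) (nat_lit 2) (nat_lit 627133440) (nat_lit 22228996) w528 = true := by decide +kernel
theorem cw529 : wchk (nat_lit 5) [w392, w16] [] (nat_lit 0) (nat_lit 3) (nat_lit 1) (nat_lit 2) (nat_lit 619004928) (nat_lit 21712900) w529 = true := by decide +kernel
theorem cw530 : wchk (nat_lit 5) [w83, w175] [] (nat_lit 19) (nat_lit 0) (nat_lit 2) (nat_lit 2) (nat_lit 23225344) (nat_lit 90391556) w530 = true := by decide +kernel
theorem cw531 : wchk (nat_lit 5) [w164, w83] [] (nat_lit 275) (nat_lit 0) (nat_lit 1) (nat_lit 2) (nat_lit 23211008) (nat_lit 23282692) w531 = true := by decide +kernel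
theorem cw532 : wchk (nat_lit 5) [w42, w83] [] (nat_lit 275) (nat_lit 0) (nat_lit 1) (nat_lit 2) (nat_lit 22121472) (nat_lit 23282692) w532 = true := by decide +kernel
theorem cw533 : wchk (nat_lit 5) [w162, w83] [] (nat_lit 275) (nat_lit 0) (nat_lit 1) (nat_lit 2) (nat_lit 23211008) (nat_lit 23282692) w533 = true := by decide +kernel
theorem cw534 : wchk (nat_lit 5) [w164, w83] [] (nat_lit 275) (nat_lit 0) (nat_lit 1) (nat_lit 2) (nat_lit 6466560) (nat_lit 23282692) w534 = true := by decide +kernel
theorem cw535 : wchk (nat_lit 5) [w1, w16] [] (nat_lit 2) (nat_lit 3) (nat_lit 1) (nat_lit 2) (nat_lit 22630400) (nat_lit 21712900) w535 = true := by decide +kernel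
theorem cw536 : wchk (nat_lit 5) [w69, w16] [] (nat_lit 2) (nat_lit 3) (nat_lit 1) (nat_lit 2) (nat_lit 23282688) (nat_lit 21712900) w536 = true := by decide +kernel
theorem cw537 : wchk (nat_lit 5) [w69, w16] [] (nat_lit 2) (nat_lit 3) (nat_lit 1) (nat_lit 2) (nat_lit 15025152) (nat_lit 21712900) w537 = true := by decide +kernel
theorem cw538 : wchk (nat_lit 5) [] [l5] (nat_lit 2) (nat_lit 3) (nat_lit 1) (nat_lit 0) (nat_lit 5657600) (nat_lit 0) w538 = true := by decide +kernel
theorem cl120 : lchk (nat_lit 5) [] (nat_lit 265) (.nod (nat_lit 5828023582322215860922917561834367988361767270159881078482034137125275445724950036480) (.nod (nat_lit 3885347279402775601766948546467808525841691455965667023116953461475137398509045547538) .nil .nil (.opn (nat_lit 34968101429870419054133888815445394924257247350254867751565146513208706916309473952274))) .nil .nil) .nil (.nod (nat_lit 11417982222212412890343214682345175954598395904) .nil .nil (.dwn (nat_lit 88473415399444619470829082015723990024210) (nat_lit 16777225))) .nil l120 = true := by decide +kernel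
theorem cw539 : wchk (nat_lit 5) [] [l120] (nat_lit 3) (nat_lit 2) (nat_lit 1) (nat_lit 0) (nat_lit 22597888) (nat_lit 0) w539 = true := by decide +kernel
theorem cw540 : wchk (nat_lit 5) [w539, w16] [] (nat_lit 2) (nat_lit 3) (nat_lit 4) (nat_lit 2) (nat_lit 23282688) (nat_lit 9154564) w540 = true := by decide +kernel
theorem cw541 : wchk (nat_lit 5) [w144] [] (nat_lit 0) (nat_lit 1) (nat_lit 4) (nat_lit 2) (nat_lit 16777281) (nat_lit 10595328) w541 = true := by decide +kernel
theorem cw542 : wchk (nat_lit 5) [w69, w230] [] (nat_lit 3) (nat_lit 1) (nat_lit 2) (nat_lit 2) (nat_lit 23225344) (nat_lit 23211012) w542 = true := by decide +kernel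
theorem cw543 : wchk (nat_lit 5) [w1, w230] [] (nat_lit 3) (nat_lit 1) (nat_lit 2) (nat_lit 2) (nat_lit 21655552) (nat_lit 23211012) w543 = true := by decide +kernel
theorem cw544 : wchk (nat_lit 5) [w69, w144] [] (nat_lit 3) (nat_lit 1) (nat_lit 4) (nat_lit 2) (nat_lit 6466560) (nat_lit 10595332) w544 = true := by decide +kernel
theorem cw545 : wchk (nat_lit 5) [] [l5] (nat_lit 1) (nat_lit 3) (nat_lit 0) (nat_lit 0) (nat_lit 22434816) (nat_lit 0) w545 = true := by decide +kernel
theorem cw546 : wchk (nat_lit 5) [w545, w16] [] (nat_lit 19) (nat_lit 3) (nat_lit 1) (nat_lit 2) (nat_lit 23282688) (nat_lit 21712900) w546 = true := by decide +kernel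
theorem cw547 : wchk (nat_lit 5) [w69, w230] [] (nat_lit 3) (nat_lit 1) (nat_lit 2) (nat_lit 2) (nat_lit 6452224) (nat_lit 23211012) w547 = true := by decide +kernel
theorem cw548 : wchk (nat_lit 5) [] [l119] (nat_lit 33) (nat_lit 3) (nat_lit 0) (nat_lit 0) (nat_lit 5818880) (nat_lit 0) w548 = true := by decide +kernel
theorem cw549 : wchk (nat_lit 5) [w16] [] (nat_lit 0) (nat_lit 3) (nat_lit 1) (nat_lit 2) (nat_lit 433) (nat_lit 21712896) w549 = true := by decide +kernel
theorem cw550 : wchk (nat_lit 5) [w241, w175] [] (nat_lit 19) (nat_lit 0) (nat_lit 2) (nat_lit 2) (nat_lit 23211008) (nat_lit 90391556) w550 = true := by decide +kernel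
theorem cw551 : wchk (nat_lit 5) [w230] [] (nat_lit 1) (nat_lit 0) (nat_lit 2) (nat_lit 2) (nat_lit 209) (nat_lit 23211008) w551 = true := by decide +kernel
theorem cw552 : wchk (nat_lit 5) [w144] [] (nat_lit 1) (nat_lit 0) (nat_lit 4) (nat_lit 2) (nat_lit 193) (nat_lit 10595328) w552 = true := by decide +kernel
theorem cw553 : wchk (nat_lit 5) [w230] [] (nat_lit 1) (nat_lit 0) (nat_lit 2) (nat_lit 2) (nat_lit 193) (nat_lit 23211008) w553 = true := by decide +kernel
theorem cw554 : wchk (nat_lit 5) [w69] [] (nat_lit 0) (nat_lit 0) (nat_lit 2) (nat_lit 2) (nat_lit 25165873) (nat_lit 90391552) w554 = true := by decide +kernel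
theorem cw555 : wchk (nat_lit 5) [w554, w16] [] (nat_lit 19) (nat_lit 3) (nat_lit 1) (nat_lit 2) (nat_lit 23282688) (nat_lit 21712900) w555 = true := by decide +kernel
theorem cw556 : wchk (nat_lit 5) [] [l30] (nat_lit 19) (nat_lit 3) (nat_lit 4) (nat_lit 0) (nat_lit 5788416) (nat_lit 0) w556 = true := by decide +kernel
theorem cw557 : wchk (nat_lit 5) [] [l9] (nat_lit 1) (nat_lit 3) (nat_lit 0) (nat_lit 0) (nat_lit 22434816) (nat_lit 0) w557 = true := by decide +kernel
theorem cw558 : wchk (nat_lit 5) [w557, w16] [] (nat_lit 19) (nat_lit 3) (nat_lit 1) (nat_lit 2) (nat_lit 23282688) (nat_lit 21712900) w558 = true := by decide +kernel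
theorem cw559 : wchk (nat_lit 5) [] [l85] (nat_lit 1) (nat_lit 3) (nat_lit 0) (nat_lit 0) (nat_lit 22307584) (nat_lit 0) w559 = true := by decide +kernel
theorem cw560 : wchk (nat_lit 5) [w559, w16] [] (nat_lit 19) (nat_lit 3) (nat_lit 1) (nat_lit 2) (nat_lit 23282688) (nat_lit 21712900) w560 = true := by decide +kernel
theorem cw561 : wchk (nat_lit 5) [w241, w230] [] (nat_lit 3) (nat_lit 1) (nat_lit 2) (nat_lit 2) (nat_lit 90269696) (nat_lit 23211012) w561 = true := by decide +kernel
theorem cl121 : lchk (nat_lit 5) [w515, w535, w536, w537, w175, w144, w528, w494, w529, w548, w549, w550, w527, w16, w487, w516, w517, w518, w162, w530, w531, w532, w533, w167, w534, w519, w521, w522, w523, w524, w128, w525, w526, w538, w540, w541, w362, w542, w543, w544, w546, w547, w551, w552, w553, w555, w556, w558, w267, w560, w561] (nat_lit 23282688) .nil .nil (.nod (nat_lit 5391903215289985006633820991758780774047885727046292835594485770199598935689933522969) (.nod (nat_lit 20903377099270359062956025409251156713625118139167657891440005423306149441314556119072) .nil (.nod (nat_lit 292295903799416593736502796284036436112954863443066917133998262336)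 .nil (.dwn (nat_lit 292206065919379739607082712799179010469194107608067226206212614216) (nat_lit 4922229808)) .dup) (.nod (nat_lit 5147895008808545537555100322753336034602535650173057526441567019259331718231645390960) .nil (.nod (nat_lit 1139910549128037667827491941333478110673794652739310494190839968868589538115931536263304) .nil (.nod (nat_lit 5240859266613171031644130090874530314865304682129379625443371683480216262611989848208) (.dwn (nat_lit 72754456596768997711577415811739294685548320216594502268718725964576475051673606240504000) (nat_lit 314159875072)) .nil .nil) .dup) (.nod (nat_lit 5391925331579029334319443801952611689027865383922243130151964720856738660108701485264) (.dwn (nat_lit 9097082343727001223425851383061222810379583991669504649711428134701809289461123938683136) (nat_lit 39281968176)) .nil .nil))) .nil (.nod (nat_lit 5391932742272740522555951312230163309801536900469856299378775538348838487880372541728) (.dwn (nat_lit 145264096687872089230457947358798417841102810399221295986851049582520850551652106013000) (nat_lit 627262464)) .nil .nil)) (.nod (nat_lit 160805452457361491282586677045352391146843020243440681345289448514689247413532006762848)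 (.nod (nat_lit 20933294996119139871974109919762670076688468982833728150893563590978005637005493045616) .nil (.dwn (nat_lit 145264062413413674976989319470913276974521054789084992583071877296887442574120132708352) (nat_lit 627262464)) .dup) (.dwn (nat_lit 20933297775129281568697596481937181345520354039420964251378270668010880856180490676608) (nat_lit 90391552)) (.dwn (nat_lit 20933297775129281568697596481937181345520354039420964251378270668010880856180490676608) (nat_lit 90391552))) l121 = true := by decide +kernel
theorem cw562 : wchk (nat_lit 5) [] [l121] (nat_lit 1811) (nat_lit 1) (nat_lit 2) (nat_lit 0) (nat_lit 9820492032) (nat_lit 0) w562 = true := by decide +kernel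
theorem cw563 : wchk (nat_lit 5) [w69, w15] [] (nat_lit 3) (nat_lit 1) (nat_lit 2) (nat_lit 2) (nat_lit 90391552) (nat_lit 22114308) w563 = true := by decide +kernel
theorem cw564 : wchk (nat_lit 5) [w15] [] (nat_lit 1) (nat_lit 0) (nat_lit 4) (nat_lit 2) (nat_lit 193) (nat_lit 13742080) w564 = true := by decide +kernel
theorem cw565 : wchk (nat_lit 5) [w112, w15] [] (nat_lit 3) (nat_lit 1) (nat_lit 2) (nat_lit 2) (nat_lit 90334208) (nat_lit 22114308) w565 = true := by decide +kernel
theorem cw567 : wchk (nat_lit 5) [w15] [] (nat_lit 1) (nat_lit 0) (nat_lit 2) (nat_lit 2) (nat_lit 209) (nat_lit 22114304) w567 = true := by decide +kernel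
theorem cw569 : wchk (nat_lit 5) [] [l5] (nat_lit 2) (nat_lit 3) (nat_lit 1) (nat_lit 0) (nat_lit 5657600) (nat_lit 0) w569 = true := by decide +kernel
theorem cw571 : wchk (nat_lit 5) [w1, w15] [] (nat_lit 3) (nat_lit 1) (nat_lit 2) (nat_lit 2) (nat_lit 21655552) (nat_lit 22114308) w571 = true := by decide +kernel
theorem cw572 : wchk (nat_lit 5) [] [l57] (nat_lit 2) (nat_lit 2) (nat_lit 1) (nat_lit 0) (nat_lit 22579968) (nat_lit 0) w572 = true := by decide +kernel
theorem cw573 : wchk (nat_lit 5) [w15] [] (nat_lit 0) (nat_lit 1) (nat_lit 4) (nat_lit 2) (nat_lit 33554465) (nat_lit 13742080) w573 = true := by decide +kernel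
theorem cw576 : wchk (nat_lit 5) [] [l57] (nat_lit 1) (nat_lit 1) (nat_lit 0) (nat_lit 0) (nat_lit 5802752) (nat_lit 0) w576 = true := by decide +kernel
theorem cw577 : wchk (nat_lit 5) [w1] [] (nat_lit 0) (nat_lit 0) (nat_lit 4) (nat_lit 2) (nat_lit 33554501) (nat_lit 13283328) w577 = true := by decide +kernel
theorem cw579 : wchk (nat_lit 5) [w91, w15] [] (nat_lit 3) (nat_lit 1) (nat_lit 2) (nat_lit 2) (nat_lit 81961984) (nat_lit 22114308) w579 = true := by decide +kernel
theorem cw581 : wchk (nat_lit 5) [] [l0] (nat_lit 1) (nat_lit 1) (nat_lit 2) (nat_lit 0) (nat_lit 5530368) (nat_lit 0) w581 = true := by decide +kernel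
theorem cw590 : wchk (nat_lit 5) [] [l52] (nat_lit 2) (nat_lit 3) (nat_lit 1) (nat_lit 0) (nat_lit 5530368) (nat_lit 0) w590 = true := by decide +kernel
theorem cw591 : wchk (nat_lit 5) [] [l12] (nat_lit 161) (nat_lit 3) (nat_lit 1) (nat_lit 0) (nat_lit 1230408704) (nat_lit 0) w591 = true := by decide +kernel
theorem cw592 : wchk (nat_lit 5) [w281] [] (nat_lit 2) (nat_lit 0) (nat_lit 2) (nat_lit 2) (nat_lit 22250496) (nat_lit 16777297) w592 = true := by decide +kernel
theorem cw593 : wchk (nat_lit 5) [w154] [] (nat_lit 2) (nat_lit 0) (nat_lit 2) (nat_lit 2) (nat_lit 21777408) (nat_lit 16777297) w593 = true := by decide +kernel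
theorem cw594 : wchk (nat_lit 5) [w429] [] (nat_lit 2) (nat_lit 0) (nat_lit 2) (nat_lit 2) (nat_lit 15476736) (nat_lit 16777297) w594 = true := by decide +kernel
theorem cw595 : wchk (nat_lit 5) [w431] [] (nat_lit 2) (nat_lit 0) (nat_lit 2) (nat_lit 2) (nat_lit 19605504) (nat_lit 16777297) w595 = true := by decide +kernel
theorem cw596 : wchk (nat_lit 5) [w431] [] (nat_lit 2) (nat_lit 0) (nat_lit 2) (nat_lit 2) (nat_lit 15476736) (nat_lit 16777297) w596 = true := by decide +kernel
theorem cw597 : wchk (nat_lit 5) [] [] (nat_lit 2) (nat_lit 0) (nat_lit 2) (nat_lit 2) (nat_lit 465) (nat_lit 16777297) w597 = true := by decide +kernel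
theorem cw598 : wchk (nat_lit 5) [] [l52] (nat_lit 34) (nat_lit 0) (nat_lit 1) (nat_lit 1) (nat_lit 5530368) (nat_lit 0) w598 = true := by decide +kernel
theorem cw599 : wchk (nat_lit 5) [] [l52] (nat_lit 34) (nat_lit 0) (nat_lit 1) (nat_lit 1) (nat_lit 5530368) (nat_lit 0) w599 = true := by decide +kernel
theorem cl122 : lchk (nat_lit 5) [w590, w591, w15, w192, w198, w141, w592, w593, w594, w595, w596, w597, w598, w599] (nat_lit 23282688) (.nod (nat_lit 22835974993178200329778796729303182294078455827) .nil .nil (.nod (nat_lit 11417993111248154360374045510332613771214716946) (.nod (nat_lit 11417993111248154361233025231674623346681577490) .nil (.opn (nat_lit 1139910535232986959287753815764554957178356359658442233300565657073667531313694426695680)) .dup) .nil .nil)) (.nod (nat_lit 284106752935718982300809919801728862896751931863122694207415779474) .nil (.nod (nat_lit 1133894201192647403484414896097992951562607911377133221370564651040) .nil (.nod (nat_lit 7874690865188241649848722876119497861601119895666195614885705181224) (.dwn (nat_lit 1139910541717343956639255433823200559056370877255564248667018577634359491321599544166472)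 (nat_lit 4922229760)) .nil .nil) .dup) (.nod (nat_lit 1133894201192647403484414896097992951562607911377133221370564651040) (.opn (nat_lit 7874690865188241649848722876119497861601119895666195614885705181224)) .nil (.dwn (nat_lit 7874781155019603451864878692050495613985525176312625888155688142944) (nat_lit 627262464)))) .nil .nil l122 = true := by decide +kernel
theorem cw600 : wchk (nat_lit 5) [] [l122] (nat_lit 3) (nat_lit 3) (nat_lit 0) (nat_lit 0) (nat_lit 5820672) (nat_lit 0) w600 = true := by decide +kernel
theorem cw601 : wchk (nat_lit 5) [w69] [] (nat_lit 1) (nat_lit 1) (nat_lit 4) (nat_lit 2) (nat_lit 77947904) (nat_lit 33554441) w601 = true := by decide +kernel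
theorem cw602 : wchk (nat_lit 5) [] [l12] (nat_lit 161) (nat_lit 3) (nat_lit 1) (nat_lit 0) (nat_lit 1230408704) (nat_lit 0) w602 = true := by decide +kernel
theorem cw603 : wchk (nat_lit 5) [] [l1] (nat_lit 2) (nat_lit 0) (nat_lit 2) (nat_lit 0) (nat_lit 5528576) (nat_lit 0) w603 = true := by decide +kernel
theorem cw604 : wchk (nat_lit 5) [] [l15] (nat_lit 2) (nat_lit 0) (nat_lit 1) (nat_lit 0) (nat_lit 5671936) (nat_lit 0) w604 = true := by decide +kernel
theorem cw605 : wchk (nat_lit 5) [] [l52] (nat_lit 0) (nat_lit 0) (nat_lit 1) (nat_lit 1) (nat_lit 5530368) (nat_lit 0) w605 = true := by decide +kernel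
theorem cl123 : lchk (nat_lit 5) [w592, w602, w1, w192, w198, w603, w604, w597, w605, w599] (nat_lit 23282688) (.nod (nat_lit 22835974993178200329778796729303182294078455827) .nil .nil (.nod (nat_lit 11417993111248154360374045510332613771214716946) (.nod (nat_lit 11417993111248154361233025231674623346681577490) .nil (.opn (nat_lit 1139910535232986959287753815764554957178356359658442233300565657073667531313694426695680)) .dup) .nil .nil)) (.nod (nat_lit 284106752935718982300809919801728862896751931863122694207415779474) .nil (.nod (nat_lit 1133894201192647403484414896097992951562607911377133221370564651040) .nil (.dwn (nat_lit 7874780853718720153304162982572693323854485560910591734942640982056) (nat_lit 627262464)) .dup) (.nod (nat_lit 1133894201192647403484414896097992951562607911377133221370564651040) .nil .nil (.dwn (nat_lit 7874780954152347919080046902916881884102240768808443342610793924672) (nat_lit 627262500)))) .nil .nil l123 = true := by decide +kernel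
theorem cw606 : wchk (nat_lit 5) [] [l123] (nat_lit 3) (nat_lit 3) (nat_lit 0) (nat_lit 0) (nat_lit 5820672) (nat_lit 0) w606 = true := by decide +kernel
theorem cl124 : lchk (nat_lit 5) [] (nat_lit 8388673) (.nod (nat_lit 7770679621626039589744687452278550930646402220658021382426991019971057417780371390464) .nil .nil (.nod (nat_lit 30105943201702210810128456102258856041850196013066546650258971842057413739937947) (.nod (nat_lit 618974778902661154547433474) .nil .nil (.dwn (nat_lit 102761921667679777038939133997844355859632619778) (nat_lit 150995073))) .nil .nil)) .nil .nil .nil l124 = true := by decide +kernel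
theorem cw608 : wchk (nat_lit 5) [] [l124] (nat_lit 3) (nat_lit 3) (nat_lit 2) (nat_lit 0) (nat_lit 5820672) (nat_lit 0) w608 = true := by decide +kernel
theorem cl125 : lchk (nat_lit 5) [w142, w1, w69, w86, w33, w78, w67, w143] (nat_lit 23225344) .nil (.nod (nat_lit 7770686916527661540665003374294277863994112565824915982957356374888774929530902020162) .nil (.nod (nat_lit 1114366589645184387454081646786326097957608483323384468794539429904) .nil .nil (.dwn (nat_lit 210624796758573376542982025784181253720976444698832628982537519114) (nat_lit 610625548))) (.nod (nat_lit 20662677767530965140914469300952908446816009627869824647058496154313366716901289362250) (.opn (nat_lit 145250782450283225665042641656175423285511775865734952568335715740021017777564450867200)) .dup .dup)) .nil (.nod (nat_lit 1539058427959856348973682550069955918009472023542318820488805160956889900702071310392) .nil (.dwn (nat_lit 48401093301198169687052671733631606960943077926987186503001641589190465631027586) (nat_lit 90334208)) .dup) l125 = true := by decide +kernel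
theorem cw616 : wchk (nat_lit 5) [] [l125] (nat_lit 26) (nat_lit 2) (nat_lit 2) (nat_lit 0) (nat_lit 156815616) (nat_lit 0) w616 = true := by decide +kernel
theorem cw617 : wchk (nat_lit 5) [] [] (nat_lit 0) (nat_lit 0) (nat_lit 4) (nat_lit 2) (nat_lit 33554473) (nat_lit 33554433) w617 = true := by decide +kernel
theorem cw618 : wchk (nat_lit 5) [] [l116] (nat_lit 20) (nat_lit 3) (nat_lit 0) (nat_lit 0) (nat_lit 5802752) (nat_lit 0) w618 = true := by decide +kernel
theorem cl126 : lchk (nat_lit 5) [w211, w5, w6] (nat_lit 56708096) (.nod (nat_lit 22835996430967316348901994921903450495475777618) (.nod (nat_lit 11418036667391120240497368822282365037545783442) .nil .nil (.nod (nat_lit 5240843518889034756356725026849101729279962941225749920361968179436359255083467145234) (.opn (nat_lit 145234182496370164015265818634459792752487578799081453500256344773056682992687787448320)) .nil .dup)) .nil .nil) .nil .nil (.nod (nat_lit 11417993111248154360374045510332613771214716946) .nil (.dwn (nat_lit 7866591746794734689152809254760848819384430578865062904896656769426) (nat_lit 626610184)) .dup) l126 = true := by decide +kernel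
theorem cw619 : wchk (nat_lit 5) [] [l126] (nat_lit 34) (nat_lit 1) (nat_lit 0) (nat_lit 0) (nat_lit 22597888) (nat_lit 0) w619 = true := by decide +kernel
theorem cl127 : lchk (nat_lit 5) [w3, w191, w619, w12, w11, w13] (nat_lit 22644736) .nil .nil (.nod (nat_lit 160657673961393258861339298811444903290874634177779015220683054258492300854539241652242) (.nod (nat_lit 20785513721140765756264826476785945993869612745417047358980901841596933983702898380800) .nil (.opn (nat_lit 145116322823587426301850375180278815968015779625841610117057103378701022112027201703936)) .dup) .nil (.dwn (nat_lit 20785513721140765756264826476785945993869612745417047358980901841596933983702898380800) (nat_lit 89753600))) (.nod (nat_lit 142578311739873216191153960513910880600467) (.nod (nat_lit 142238029372952277727690585906479112389010) .nil .nil (.dwn (nat_lit 145116322823587426293983603556856752037723961483820251371620088692825470611806478139410) (nat_lit 22644736))) .nil (.nod (nat_lit 1120215844126287112057054509262405819843864348124280827725979058514) (.opn (nat_lit 20782196509368295121898332216074672635059206966676877950440849687726927449008918143016))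 .nil .nil)) l127 = true := by decide +kernel
theorem cw620 : wchk (nat_lit 5) [] [l127] (nat_lit 4) (nat_lit 2) (nat_lit 0) (nat_lit 0) (nat_lit 22597888) (nat_lit 0) w620 = true := by decide +kernel
theorem cw621 : wchk (nat_lit 5) [w69] [] (nat_lit 0) (nat_lit 0) (nat_lit 4) (nat_lit 2) (nat_lit 25165861) (nat_lit 82134016) w621 = true := by decide +kernel
theorem cw622 : wchk (nat_lit 5) [w1, w69] [] (nat_lit 19) (nat_lit 0) (nat_lit 2) (nat_lit 2) (nat_lit 22114304) (nat_lit 90391556) w622 = true := by decide +kernel
theorem cw624 : wchk (nat_lit 5) [w69] [] (nat_lit 19) (nat_lit 0) (nat_lit 4) (nat_lit 2) (nat_lit 453) (nat_lit 82134016) w624 = true := by decide +kernel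
theorem cw627 : wchk (nat_lit 5) [w69] [] (nat_lit 19) (nat_lit 0) (nat_lit 4) (nat_lit 2) (nat_lit 325) (nat_lit 82134016) w627 = true := by decide +kernel
theorem cw628 : wchk (nat_lit 5) [w1] [] (nat_lit 19) (nat_lit 0) (nat_lit 2) (nat_lit 2) (nat_lit 337) (nat_lit 21655552) w628 = true := by decide +kernel
theorem cw629 : wchk (nat_lit 5) [] [l1] (nat_lit 3) (nat_lit 1) (nat_lit 0) (nat_lit 0) (nat_lit 5671936) (nat_lit 0) w629 = true := by decide +kernel
theorem cw632 : wchk (nat_lit 5) [] [l5] (nat_lit 2) (nat_lit 3) (nat_lit 1) (nat_lit 0) (nat_lit 5657600) (nat_lit 0) w632 = true := by decide +kernel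
theorem cw633 : wchk (nat_lit 5) [] [l26] (nat_lit 3) (nat_lit 1) (nat_lit 0) (nat_lit 0) (nat_lit 20533504) (nat_lit 0) w633 = true := by decide +kernel
theorem cl129 : lchk (nat_lit 5) [] (nat_lit 337) .nil .nil (.nod (nat_lit 67109002) .nil .nil (.dwn (nat_lit 11418036667391120241116341830297595115909153028) (nat_lit 16777297))) (.nod (nat_lit 421250183564709879433955852132568288917539790183778448190835000068) (.opn (nat_lit 2623828525391643977537808084850446294900980538344588103909770)) .nil (.nod (nat_lit 210625600227595506038119796765227424280368584196611662935293427874) .nil (.opn (nat_lit 34968132925318691606034670311022938427945918520075398420559131196552674901109409579810)) .dup)) l129 = true := by decide +kernel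
theorem cw638 : wchk (nat_lit 5) [] [l129] (nat_lit 3) (nat_lit 2) (nat_lit 1) (nat_lit 0) (nat_lit 22597888) (nat_lit 0) w638 = true := by decide +kernel
theorem cw642 : wchk (nat_lit 5) [] [l29] (nat_lit 4) (nat_lit 3) (nat_lit 2) (nat_lit 0) (nat_lit 2709760) (nat_lit 0) w642 = true := by decide +kernel
theorem cw644 : wchk (nat_lit 5) [] [l30] (nat_lit 273) (nat_lit 1) (nat_lit 4) (nat_lit 0) (nat_lit 19486976) (nat_lit 0) w644 = true := by decide +kernel
theorem cw645 : wchk (nat_lit 5) [w1, w505] [] (nat_lit 19) (nat_lit 0) (nat_lit 2) (nat_lit 2) (nat_lit 22114304) (nat_lit 90319876) w645 = true := by decide +kernel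
theorem cw646 : wchk (nat_lit 5) [] [] (nat_lit 0) (nat_lit 1) (nat_lit 2) (nat_lit 2) (nat_lit 16777297) (nat_lit 465) w646 = true := by decide +kernel
theorem cw648 : wchk (nat_lit 5) [] [l0] (nat_lit 4) (nat_lit 0) (nat_lit 4) (nat_lit 0) (nat_lit 4480256) (nat_lit 0) w648 = true := by decide +kernel
theorem cw650 : wchk (nat_lit 5) [] [l72] (nat_lit 4) (nat_lit 3) (nat_lit 0) (nat_lit 0) (nat_lit 22191104) (nat_lit 0) w650 = true := by decide +kernel
theorem cw651 : wchk (nat_lit 5) [] [l28] (nat_lit 17) (nat_lit 3) (nat_lit 0) (nat_lit 0) (nat_lit 5671936) (nat_lit 0) w651 = true := by decide +kernel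
theorem cw652 : wchk (nat_lit 5) [] [l8] (nat_lit 0) (nat_lit 3) (nat_lit 3) (nat_lit 0) (nat_lit 5657600) (nat_lit 0) w652 = true := by decide +kernel
theorem cw659 : wchk (nat_lit 5) [] [] (nat_lit 17) (nat_lit 0) (nat_lit 2) (nat_lit 2) (nat_lit 33554497) (nat_lit 173) w659 = true := by decide +kernel
theorem cw667 : wchk (nat_lit 5) [] [l45] (nat_lit 4) (nat_lit 2) (nat_lit 0) (nat_lit 0) (nat_lit 22597888) (nat_lit 0) w667 = true := by decide +kernel
theorem cw668 : wchk (nat_lit 5) [w667, w175] [] (nat_lit 19) (nat_lit 0) (nat_lit 2) (nat_lit 2) (nat_lit 23282688) (nat_lit 90391556) w668 = true := by decide +kernel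
theorem cw669 : wchk (nat_lit 5) [] [l7] (nat_lit 4) (nat_lit 1) (nat_lit 0) (nat_lit 0) (nat_lit 22305792) (nat_lit 0) w669 = true := by decide +kernel
theorem cw670 : wchk (nat_lit 5) [w669, w175] [] (nat_lit 19) (nat_lit 0) (nat_lit 2) (nat_lit 2) (nat_lit 23282688) (nat_lit 90391556) w670 = true := by decide +kernel
theorem cw671 : wchk (nat_lit 5) [] [l121] (nat_lit 275) (nat_lit 2) (nat_lit 3) (nat_lit 0) (nat_lit 1230557440) (nat_lit 0) w671 = true := by decide +kernel
theorem cw672 : wchk (nat_lit 5) [w50, w175] [] (nat_lit 19) (nat_lit 0) (nat_lit 2) (nat_lit 2) (nat_lit 15017984) (nat_lit 90391556) w672 = true := by decide +kernel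
theorem cw673 : wchk (nat_lit 5) [w505, w16] [] (nat_lit 3) (nat_lit 1) (nat_lit 2) (nat_lit 2) (nat_lit 90319872) (nat_lit 22114308) w673 = true := by decide +kernel
theorem cw674 : wchk (nat_lit 5) [w505, w16] [] (nat_lit 3) (nat_lit 1) (nat_lit 4) (nat_lit 2) (nat_lit 73561088) (nat_lit 13742084) w674 = true := by decide +kernel
theorem cl133 : lchk (nat_lit 5) [w8, w5, w123, w122, w6, w192, w193] (nat_lit 55209984) (.nod (nat_lit 7770686916527661540664999137250606477984596976667055317782525505798849916307605815362) .nil .nil (.nod (nat_lit 3885356542769914587062582432146609220725885907841794876274999211606417852337452220546) (.nod (nat_lit 3885341721382492210589568215060528108673680689283757674283601110034276610102368665602) .nil (.opn (nat_lit 20905035241988237430583814879445389740649348275502829320858462477207749639330176094224)) (.dwn (nat_lit 20905035241988237430583814879445389741014806621176279956899261957625603935753734901776) (nat_lit 625635328))) .nil .nil)) .nil .nil (.nod (nat_lit 3885356542769914587062582432146609220725885907841794876274999211606417852337452220546) .nil (.dwn (nat_lit 48401093301198169687052671733631971268007335985609092299139843181055880703508866)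 (nat_lit 625635328)) .dup) l133 = true := by decide +kernel
theorem cw675 : wchk (nat_lit 5) [] [l133] (nat_lit 289) (nat_lit 1) (nat_lit 1) (nat_lit 0) (nat_lit 22597888) (nat_lit 0) w675 = true := by decide +kernel
theorem cl134 : lchk (nat_lit 5) [w281, w38, w233, w4, w331, w265, w168, w10, w675, w328, w329, w330, w172] (nat_lit 21662720) .nil .nil (.nod (nat_lit 7770679505833950352428492028707565921958494367388036716786426980513473409867308859394) .nil .nil (.nod (nat_lit 3885356542769914587349028830380853674376340013260476542811528357285006927699210403970) (.dwn (nat_lit 17048865947984016188751236981284792599745461521393186639381463085543173910612547110928) (nat_lit 627262488)) .nil .nil)) (.nod (nat_lit 7770694327221372728901506245793647034010699585946073918778624031084226422747902771330) (.nod (nat_lit 48401093301198169687052671733631545482666853590237759043323232741554421556576642) .nil (.opn (nat_lit 144888903454978481692053456588028168709101460154956583398898513811644869288925257340928)) (.dwn (nat_lit 144888903454978481692053456588028168709101460154956583398898513811644869288925257340928) (nat_lit 625642496)))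 .nil (.nod (nat_lit 40990399590010225475948361737435426929679813582834799498183586361808340943634754) (.dwn (nat_lit 145264070750444100071630171072826987168394960091304649894557211717166430481940283304008) (nat_lit 625642496)) .nil .nil)) l134 = true := by decide +kernel
theorem cw676 : wchk (nat_lit 5) [] [l134] (nat_lit 4) (nat_lit 2) (nat_lit 2) (nat_lit 0) (nat_lit 22597888) (nat_lit 0) w676 = true := by decide +kernel
theorem cw677 : wchk (nat_lit 5) [w676, w16] [] (nat_lit 3) (nat_lit 1) (nat_lit 2) (nat_lit 2) (nat_lit 90391552) (nat_lit 22114308) w677 = true := by decide +kernel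
theorem cw678 : wchk (nat_lit 5) [w34, w177] [] (nat_lit 3) (nat_lit 0) (nat_lit 0) (nat_lit 2) (nat_lit 22687744) (nat_lit 21712900) w678 = true := by decide +kernel
theorem cw679 : wchk (nat_lit 5) [w162, w175] [] (nat_lit 19) (nat_lit 0) (nat_lit 2) (nat_lit 2) (nat_lit 23282688) (nat_lit 90391556) w679 = true := by decide +kernel
theorem cw680 : wchk (nat_lit 5) [w164, w175] [] (nat_lit 19) (nat_lit 0) (nat_lit 2) (nat_lit 2) (nat_lit 23282688) (nat_lit 90391556) w680 = true := by decide +kernel
theorem cw681 : wchk (nat_lit 5) [w42, w175] [] (nat_lit 19) (nat_lit 0) (nat_lit 2) (nat_lit 2) (nat_lit 22709248) (nat_lit 90391556) w681 = true := by decide +kernel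
theorem cl135 : lchk (nat_lit 5) [w176, w177, w175, w16, w386, w511, w162, w678, w679, w680, w681, w167, w512, w83, w487, w128, w513, w514, w562, w668, w670, w671, w672, w180, w182, w183, w184, w185, w186, w196, w365, w178, w179, w366, w367, w369, w673, w674, w620, w677, w267, w371, w372, w374, w376, w383, w385] (nat_lit 23282688) .nil .nil (.nod (nat_lit 5028364108801845639224908880790279348869933154968168152839307964749878619237176745992) (.nod (nat_lit 20903375246596931265890329368956838056185284718997263926414191953094540427260926265360) .nil (.nod (nat_lit 7874780803501906270210755898190475366760510018432376696390967527464) .nil (.nod (nat_lit 271868507380796309352745026369269534258908942118055379837883424816) (.dwn (nat_lit 9097082325200266945455260114285528931354322266542304716829870563995698123205830618286160) (nat_lit 39281968128)) .nil .nil) .dup) (.nod (nat_lit 5391913289201748653435119097751590305270649169532371730158397142432076439979744200816) (.nod (nat_lit 20933267206017722977881883003131220451118121668895278380872820646532615938965101521032) (.dwn (nat_lit 9097082335389970798339085312112160564832886064877557684939003342837258398108585283979432)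 (nat_lit 39281968128)) .nil .nil) .nil .nil)) .nil (.nod (nat_lit 5391923478905601537260316924383223783834447504785339837845262016483713703165792258248) (.dwn (nat_lit 145264086498168236346632749532166784362539012063968327879164184706845899809979600898272) (nat_lit 627262584)) .nil .nil)) (.nod (nat_lit 5391930889599312725204527225224197850457823713596016189203086280801730868487867681024) (.nod (nat_lit 20933283880078573089619349256948109242649315036248093024989323308795091132819182356752) .nil (.dwn (nat_lit 145264095761535375324053601459356959476638516631564156896152105851438330851312546777384) (nat_lit 627262620)) .dup) (.nod (nat_lit 20933290364435570380461088971659629724746682522873351082151459849338189407691408058688) (.dwn (nat_lit 145264102245892372621635327991506581556683064036632005863771157696525369138018901461352) (nat_lit 627262464)) .nil .nil) .dup) l135 = true := by decide +kernel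
theorem cw682 : wchk (nat_lit 5) [] [l135] (nat_lit 20) (nat_lit 1) (nat_lit 1) (nat_lit 0) (nat_lit 156815616) (nat_lit 0) w682 = true := by decide +kernel
theorem cw683 : wchk (nat_lit 5) [w27, w16] [] (nat_lit 226) (nat_lit 1) (nat_lit 2) (nat_lit 2) (nat_lit 4921197568) (nat_lit 22114308) w683 = true := by decide +kernel
theorem cw684 : wchk (nat_lit 5) [] [l13] (nat_lit 226) (nat_lit 1) (nat_lit 0) (nat_lit 0) (nat_lit 1230267136) (nat_lit 0) w684 = true := by decide +kernel
theorem cw685 : wchk (nat_lit 5) [] [] (nat_lit 226) (nat_lit 0) (nat_lit 4) (nat_lit 2) (nat_lit 33554465) (nat_lit 16777221) w685 = true := by decide +kernel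
theorem cl136 : lchk (nat_lit 5) [w181, w16] (nat_lit 33554481) .nil .nil .nil (.nod (nat_lit 50331651) .nil (.nod (nat_lit 5391902288953271108104257603190900704528777518739771810989985274837645864933494096132) (.nod (nat_lit 3885341721382492210589568215060528108685098769507291760403422853169896955760695533577) .nil (.nod (nat_lit 1895623070393532622802707943241716030471723381071962702180247404834) .nil (.dwn (nat_lit 15375596403968852520866966305416982826437322825483862613971754287394) (nat_lit 1224736913)) (.dwn (nat_lit 15375596403968852520866966305416982826437322825483862613971754287394) (nat_lit 1224736913))) (.dwn (nat_lit 34968073639769002100142610228802525461859308494475780448767918199071602130681595953442) (nat_lit 150995089))) .nil .nil) .nil) l136 = true := by decide +kernel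
theorem cw686 : wchk (nat_lit 5) [] [l136] (nat_lit 2) (nat_lit 0) (nat_lit 1) (nat_lit 0) (nat_lit 5820672) (nat_lit 0) w686 = true := by decide +kernel
theorem cw687 : wchk (nat_lit 5) [w16] [] (nat_lit 0) (nat_lit 1) (nat_lit 4) (nat_lit 2) (nat_lit 193) (nat_lit 13742080) w687 = true := by decide +kernel
theorem cw688 : wchk (nat_lit 5) [] [l13] (nat_lit 1250) (nat_lit 0) (nat_lit 0) (nat_lit 1) (nat_lit 1230267136) (nat_lit 0) w688 = true := by decide +kernel
theorem cw689 : wchk (nat_lit 5) [] [l13] (nat_lit 1250) (nat_lit 0) (nat_lit 0) (nat_lit 1) (nat_lit 1230267136) (nat_lit 0) w689 = true := by decide +kernel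
theorem cw690 : wchk (nat_lit 5) [w105] [] (nat_lit 226) (nat_lit 0) (nat_lit 1) (nat_lit 2) (nat_lit 90319872) (nat_lit 16777233) w690 = true := by decide +kernel
theorem cw691 : wchk (nat_lit 5) [] [] (nat_lit 226) (nat_lit 0) (nat_lit 1) (nat_lit 2) (nat_lit 433) (nat_lit 16777233) w691 = true := by decide +kernel
theorem cw692 : wchk (nat_lit 5) [w685, w16] [] (nat_lit 226) (nat_lit 1) (nat_lit 1) (nat_lit 2) (nat_lit 4922229760) (nat_lit 22630404) w692 = true := by decide +kernel
theorem cl137 : lchk (nat_lit 5) [w684, w687, w230, w25, w685, w16, w688, w689, w690, w197, w686, w691, w239, w692] (nat_lit 23282688) .nil (.nod (nat_lit 421249788107300550073067730477834626834555575735385446956727795787) .nil .nil (.nod (nat_lit 1556043159015135154015123943474638109444117525484903220798244210697) .nil (.nod (nat_lit 5378624178496249585553270667956557821302409368842374729928900933045473784817252302858) (.nod (nat_lit 1139639958763214196153789632944565001617590725730996457489911610835035960007275143710752) .nil (.nod (nat_lit 493153820912647050366710949163317228661953114686107456540472882186288) .nil (.dwn (nat_lit 3944026994006628060972600413197011823567629171059486419478382855489536)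 (nat_lit 314159875072)) (.dwn (nat_lit 3944026994006628060972600413197011823567629171059486419478382855489536) (nat_lit 314159875072))) (.dwn (nat_lit 9097082325200266945455260114134878489705041928202078993866780712024844949664309315061808) (nat_lit 39281968128))) .nil (.nod (nat_lit 5244170920365358336343091201778380542667186525269028056846259624926309448225755973712) .nil (.dwn (nat_lit 9097082327979277086665568234788153362322629883627538032262497583426348326021684808312928) (nat_lit 39281968180)) .dup)) .nil)) .nil .nil l137 = true := by decide +kernel
theorem cw693 : wchk (nat_lit 5) [] [l137] (nat_lit 2274) (nat_lit 1) (nat_lit 2) (nat_lit 0) (nat_lit 9820492032) (nat_lit 0) w693 = true := by decide +kernel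
theorem cl138 : lchk (nat_lit 5) [w1] (nat_lit 33554481) .nil .nil .nil (.nod (nat_lit 26566657) .nil (.nod (nat_lit 48401093301198169687052671733631545482809091619610708046220960701214167301882116) .nil .nil (.dwn (nat_lit 3885371364157336963535596649232690332789509206623366164387816954311402981521889427874) (nat_lit 16777361))) (.nod (nat_lit 48401093301198169687052671733631545482809091619610708046220960701214167301882116) .nil (.dwn (nat_lit 3885371364157336963535596649232690332789509206623366164388435929680601453035108958626) (nat_lit 16777361)) .dup)) l138 = true := by decide +kernel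
theorem cw694 : wchk (nat_lit 5) [] [l138] (nat_lit 2) (nat_lit 0) (nat_lit 1) (nat_lit 0) (nat_lit 5820672) (nat_lit 0) w694 = true := by decide +kernel
theorem cw695 : wchk (nat_lit 5) [w694, w16] [] (nat_lit 226) (nat_lit 1) (nat_lit 1) (nat_lit 2) (nat_lit 4922229760) (nat_lit 22630404) w695 = true := by decide +kernel
theorem cw696 : wchk (nat_lit 5) [] [l25] (nat_lit 34) (nat_lit 3) (nat_lit 1) (nat_lit 0) (nat_lit 156815616) (nat_lit 0) w696 = true := by decide +kernel
theorem cw697 : wchk (nat_lit 5) [w696, w16] [] (nat_lit 226) (nat_lit 1) (nat_lit 2) (nat_lit 2) (nat_lit 4922229760) (nat_lit 22114308) w697 = true := by decide +kernel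
theorem cl139 : lchk (nat_lit 5) [w64, w682, w32, w63, w16, w100, w121, w147, w156, w157, w163, w165, w166, w167, w127, w65, w101, w128, w129, w130, w131, w132, w40, w133, w134, w139, w145, w146, w683, w693, w47, w695, w697] (nat_lit 23282688) .nil (.nod (nat_lit 421249788107300550073067730477834626834555575735385446956727795787) .nil .nil (.nod (nat_lit 292295658992448913640107611270592921617376380678313885746319411209) .nil (.nod (nat_lit 145025024929739015017275155707561387327193584543527277345725727597005572589140217692554) (.nod (nat_lit 1139880658094953590014029951138088422238096711636592611379569782188501557978158191566881) .nil (.nod (nat_lit 493153820862430236483617503049908654340924275649581616125306460391464) .nil (.nod (nat_lit 3944026994358145757940464161798598741032387160291532990795341204244536) (.dwn (nat_lit 582013450671127152167310527666858243160125052669417826809337313949676004391386342593349720) (nat_lit 2513183130624)) .nil .nil) .dup) (.nod (nat_lit 5391915141875176943355770984168611956720436608246898274894146321374942067176545667192) (.dwn (nat_lit 20933269058691154657173329950392738998818035663693238123996411307132744077473760102544)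 (nat_lit 314159875156)) .nil .nil)) .nil (.nod (nat_lit 1139910555612394665117198885404970968345321423534462286274073614478067313123821871384760) (.dwn (nat_lit 20933275543048148496007100626603702735872452642515121624085273101695844676436079626440) (nat_lit 39281968128)) .nil .nil)) (.nod (nat_lit 145264088350841664135817096974642444312244973283867045712997365689392840154862594294154) (.dwn (nat_lit 1139910563023088376305435392915248519966095095051009899443482023525591213011584250497272) (nat_lit 4922229760)) .nil .nil))) .nil .nil l139 = true := by decide +kernel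
theorem cw698 : wchk (nat_lit 5) [] [l139] (nat_lit 13538) (nat_lit 1) (nat_lit 0) (nat_lit 0) (nat_lit 78539968768) (nat_lit 0) w698 = true := by decide +kernel
theorem cw699 : wchk (nat_lit 5) [] [l20] (nat_lit 226) (nat_lit 2) (nat_lit 2) (nat_lit 0) (nat_lit 1230525184) (nat_lit 0) w699 = true := by decide +kernel
theorem cw700 : wchk (nat_lit 5) [] [l20] (nat_lit 226) (nat_lit 2) (nat_lit 0) (nat_lit 0) (nat_lit 1230557440) (nat_lit 0) w700 = true := by decide +kernel
theorem cw701 : wchk (nat_lit 5) [] [l20] (nat_lit 226) (nat_lit 1) (nat_lit 0) (nat_lit 0) (nat_lit 1230557440) (nat_lit 0) w701 = true := by decide +kernel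
theorem cw702 : wchk (nat_lit 5) [w16] [] (nat_lit 1) (nat_lit 1) (nat_lit 1) (nat_lit 2) (nat_lit 89818112) (nat_lit 209) w702 = true := by decide +kernel
theorem cw703 : wchk (nat_lit 5) [] [l16] (nat_lit 4) (nat_lit 0) (nat_lit 1) (nat_lit 0) (nat_lit 5661184) (nat_lit 0) w703 = true := by decide +kernel
theorem cw704 : wchk (nat_lit 5) [] [l139] (nat_lit 226) (nat_lit 2) (nat_lit 3) (nat_lit 0) (nat_lit 1230557440) (nat_lit 0) w704 = true := by decide +kernel
theorem cw705 : wchk (nat_lit 5) [w16, w38] [] (nat_lit 1250) (nat_lit 0) (nat_lit 2) (nat_lit 2) (nat_lit 21655552) (nat_lit 4922100740) w705 = true := by decide +kernel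
theorem cw706 : wchk (nat_lit 5) [] [] (nat_lit 226) (nat_lit 0) (nat_lit 1) (nat_lit 2) (nat_lit 16777265) (nat_lit 16777233) w706 = true := by decide +kernel
theorem cl140 : lchk (nat_lit 5) [w25, w706] (nat_lit 22250496) .nil (.nod (nat_lit 421249788107300550073067730477834626834555575735385446956727795787) .nil .nil (.nod (nat_lit 315937094704232298627580817303641109225009849784087890004191215627) .nil (.nod (nat_lit 210624796758573376542982025784181253698448338281183334285828947978) (.nod (nat_lit 210624796758573376542982025784181253698448338281183334285828947978) .nil (.nod (nat_lit 9096843278453225146017096495573200749022704890519162390495088218412924973875952827236746) .nil (.opn (nat_lit 72754217538905915345850038291400678912937744153927192015959249529544818610906429747824640)) .dup) (.dwn (nat_lit 9097082318715909947672399352126084804270174620725542274200363228416522822960318058070410) (nat_lit 39281968132))) .nil .nil) .nil)) .nil .nil l140 = true := by decide +kernel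
theorem cw707 : wchk (nat_lit 5) [] [l140] (nat_lit 226) (nat_lit 3) (nat_lit 2) (nat_lit 0) (nat_lit 1230557440) (nat_lit 0) w707 = true := by decide +kernel
theorem cl141 : lchk (nat_lit 5) [w38, w42, w162, w39, w3, w154, w40, w41, w707, w29, w44, w45, w46, w47] (nat_lit 23282688) .nil (.nod (nat_lit 421249788107300550073067730477834626834555575735385446956727795787) .nil .nil (.nod (nat_lit 292295658992448913640107611270592921617376380678313885746319411209) .nil (.nod (nat_lit 2623828525391647336320431955492619675914982357732849386258826) (.nod (nat_lit 7874780753285092386705589245536903956800799513209726109533344319512) .nil (.nod (nat_lit 9097082317789573234267023606725034565850455148909626270404244071572697533807416366761984) .nil (.opn (nat_lit 72754456578242263433606824542913383992613292591687002402539259258569990655509459668207616)) .dup) (.dwn (nat_lit 9097082317789573234267023606725034565850455148909626270404244071572697533807416366761984) (nat_lit 39281968128))) .nil (.dwn (nat_lit 290766048564468151900067525773354814547012390952673284526220421160) (nat_lit 4922229788))) (.nod (nat_lit 145264069824107386165225829203284842922178926423566347574199387050023174723368069890442)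 (.opn (nat_lit 1139910544496354098334844124139554640914160916265085384391150011894471052061859511748696)) .nil .nil))) .nil .nil l141 = true := by decide +kernel
theorem cw708 : wchk (nat_lit 5) [] [l141] (nat_lit 226) (nat_lit 2) (nat_lit 0) (nat_lit 0) (nat_lit 1230557440) (nat_lit 0) w708 = true := by decide +kernel
theorem cl142 : lchk (nat_lit 5) [w48, w37, w32, w38, w61, w702, w703, w704, w705, w708, w62, w698, w699, w700, w701, w49, w51, w60] (nat_lit 23282688) .nil (.nod (nat_lit 421249788107300550073067730477834626834555575735385446956727795787) .nil .nil (.nod (nat_lit 284106702718905099195945772448022356994923234221996773457621377033) .nil (.nod (nat_lit 145025024929739015017275155707561387327193584543527277345725727597005572589140217692554) (.nod (nat_lit 1139910538011997101045137180068061783245983953682661704997159938786523576032864152012832) .nil (.nod (nat_lit 5391906804844751425230553360696129668677726945188005596256038178742477791375210793008) (.dwn (nat_lit 72754456584726620430896531487035093664164562912565483660245255883195916051625447180945472) (nat_lit 314159875072)) .nil .nil) .dup) (.nod (nat_lit 1139910538011997101045137180369362666544544630346779597311309524986369384422745311758416)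 (.dwn (nat_lit 9097082328905613801049378368040667707164709014485949786330866248158467526866735930493032) (nat_lit 39281968128)) .nil .nil) .dup) (.nod (nat_lit 145264076308464383454932772923260003408702468696492796176904977881015448746615642259850) (.dwn (nat_lit 1139910538011997101045137180670663549843105307010897489625277512960167889472557026855040) (nat_lit 4922229760)) .nil .nil))) .nil .nil l142 = true := by decide +kernel
theorem cw709 : wchk (nat_lit 5) [] [l142] (nat_lit 1250) (nat_lit 1) (nat_lit 3) (nat_lit 0) (nat_lit 9820492032) (nat_lit 0) w709 = true := by decide +kernel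
theorem cl143 : lchk (nat_lit 5) [w1, w709, w4, w33, w91, w158, w109, w10, w281] (nat_lit 22293504) (.nod (nat_lit 421249781830198814686386966642045203626889159633030002492693282890) .nil .nil (.nod (nat_lit 5362023182454384799931589522875869374136531675391892678484429199785340178730321969290) (.dwn (nat_lit 20664335910248843509953145346048044891068915667254972884111200313658849604743246059544) (nat_lit 626273280)) .nil .nil)) .nil .nil (.nod (nat_lit 210625600227595506038119796765227424279749599382680225682246598794) .nil (.dwn (nat_lit 20569719878291247699228423702046356341203386865595929498939175172388991934594908422538) (nat_lit 89223200)) (.dwn (nat_lit 20569719878291247699228423702046356341203386865595929498939175172388991934594908422538) (nat_lit 89223200))) l143 = true := by decide +kernel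
theorem cw710 : wchk (nat_lit 5) [] [l143] (nat_lit 4) (nat_lit 1) (nat_lit 3) (nat_lit 0) (nat_lit 22597888) (nat_lit 0) w710 = true := by decide +kernel
theorem cl144 : lchk (nat_lit 5) [w154, w158, w149, w160, w432, w1, w15, w161] (nat_lit 21712896) .nil (.nod (nat_lit 421249781830198814686386966642045203626889159633030002492693282890) (.nod (nat_lit 2623828525391648404662444081297996945994075352731298889204106) (.nod (nat_lit 7855073214893486247284617048272854706568624623627095849620534157328) .nil .nil .dup) (.dwn (nat_lit 144412488483020467945457789342201909427886290400522730345874575786952663206599081811984) (nat_lit 625692672)) (.opn (nat_lit 144412488483020467945457789342201909427888792959550719018872851029665846427232262119440))) .nil (.nod (nat_lit 2222094014326945717431351211741415062873227774133066082025802) .nil (.opn (nat_lit 7860202761998016476617141159525673117386119846058792218407611865136)) .dup)) .nil (.nod (nat_lit 315937088427130563240900053467851686017343433681732445540156702730) .nil (.dwn (nat_lit 2623828525391694076604944225626398333272303732208475867971978) (nat_lit 88821760)) .dup) l144 = true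 := by decide +kernel
theorem cw711 : wchk (nat_lit 5) [] [l144] (nat_lit 33) (nat_lit 1) (nat_lit 0) (nat_lit 0) (nat_lit 22597888) (nat_lit 0) w711 = true := by decide +kernel
theorem cw712 : wchk (nat_lit 5) [] [l0] (nat_lit 1) (nat_lit 1) (nat_lit 3) (nat_lit 0) (nat_lit 5528576) (nat_lit 0) w712 = true := by decide +kernel
theorem cw713 : wchk (nat_lit 5) [] [l0] (nat_lit 1) (nat_lit 1) (nat_lit 3) (nat_lit 0) (nat_lit 5413888) (nat_lit 0) w713 = true := by decide +kernel
theorem cw714 : wchk (nat_lit 5) [] [l0] (nat_lit 1) (nat_lit 3) (nat_lit 4) (nat_lit 0) (nat_lit 4480256) (nat_lit 0) w714 = true := by decide +kernel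
theorem cw715 : wchk (nat_lit 5) [] [l4] (nat_lit 18) (nat_lit 3) (nat_lit 3) (nat_lit 0) (nat_lit 156525312) (nat_lit 0) w715 = true := by decide +kernel
theorem cw716 : wchk (nat_lit 5) [] [l103] (nat_lit 1) (nat_lit 3) (nat_lit 3) (nat_lit 0) (nat_lit 4901376) (nat_lit 0) w716 = true := by decide +kernel
theorem cl145 : lchk (nat_lit 5) [] (nat_lit 5) (.nod (nat_lit 210624746541759493449535915097865868037117009462339778573519290368) .nil .nil .nil) (.nod (nat_lit 1632046451200536998597305250033993268194341601327533275480064) (.nod (nat_lit 7268017165041596891402) .nil (.opn (nat_lit 102761924389938712406446844066024456748332482586)) .nil) .nil (.dwn (nat_lit 3885368585147195267946908655406250568059846935103340532746858261536615073603032973914) (nat_lit 16777349))) .nil .nil l145 = true := by decide +kernel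
theorem cw717 : wchk (nat_lit 5) [] [l145] (nat_lit 17) (nat_lit 3) (nat_lit 4) (nat_lit 0) (nat_lit 5820672) (nat_lit 0) w717 = true := by decide +kernel
theorem cw718 : wchk (nat_lit 5) [] [l129] (nat_lit 1) (nat_lit 3) (nat_lit 3) (nat_lit 0) (nat_lit 5820672) (nat_lit 0) w718 = true := by decide +kernel
theorem cw719 : wchk (nat_lit 5) [] [l129] (nat_lit 1) (nat_lit 3) (nat_lit 3) (nat_lit 0) (nat_lit 5705984) (nat_lit 0) w719 = true := by decide +kernel
theorem cw720 : wchk (nat_lit 5) [] [l48] (nat_lit 0) (nat_lit 0) (nat_lit 3) (nat_lit 1) (nat_lit 156408832) (nat_lit 0) w720 = true := by decide +kernel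
theorem cw721 : wchk (nat_lit 5) [] [l44] (nat_lit 1) (nat_lit 3) (nat_lit 3) (nat_lit 0) (nat_lit 22483200) (nat_lit 0) w721 = true := by decide +kernel
theorem cw722 : wchk (nat_lit 5) [] [l0] (nat_lit 3) (nat_lit 1) (nat_lit 2) (nat_lit 0) (nat_lit 22597888) (nat_lit 0) w722 = true := by decide +kernel
theorem cl146 : lchk (nat_lit 5) [w42, w3, w39, w143, w720, w267, w638, w220, w721, w431, w722, w86, w212, w712, w713, w581, w714, w715, w716, w717, w718, w719] (nat_lit 4920724480) .nil (.nod (nat_lit 292205670461970410184677261393421816511635137310662049347550218257) (.nod (nat_lit 2623828525391632559283359978900804561938513761552850728518026) (.nod (nat_lit 815873960086375455199127576) .nil (.nod (nat_lit 15845387250879203294684102298732107571486785562) (.nod (nat_lit 1122375769725026727421894264803830856282563739315863688566171428920) .nil (.opn (nat_lit 7855883011234165012195573527145429574594507125608049103327584622592)) .dup) (.dwn (nat_lit 20933260721660725627502640312476134232420623331461811110795763869978047807817944565840) (nat_lit 88886272)) .dup) .nil) .nil (.nod (nat_lit 4088815980689695247482361136735184714827017763637758857894762344833493580018964496986)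 (.dwn (nat_lit 207429479007014285938541199179712197965854567079357958429494639915313286235485111748736) (nat_lit 894192640)) .nil .nil)) .nil (.nod (nat_lit 2222094014326946507746676291894780283838006511833820935749962) (.opn (nat_lit 1202075956458271139795873406001578627522007759031029498153753446798900769169633386596520)) .nil .nil)) .nil .nil l146 = true := by decide +kernel
theorem cw723 : wchk (nat_lit 5) [] [l146] (nat_lit 18) (nat_lit 2) (nat_lit 2) (nat_lit 0) (nat_lit 156815616) (nat_lit 0) w723 = true := by decide +kernel
theorem cw724 : wchk (nat_lit 5) [] [] (nat_lit 1) (nat_lit 1) (nat_lit 4) (nat_lit 2) (nat_lit 173) (nat_lit 197) w724 = true := by decide +kernel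
theorem cl147 : lchk (nat_lit 5) [w67] (nat_lit 8388621) (.nod (nat_lit 22934305068764696404090159104) (.nod (nat_lit 2573611711508539113172673663515143230606761885689418633707930) (.nod (nat_lit 210626353479803752439811457059958209199719531665333561366388146458) .nil .nil .nil) .nil (.dwn (nat_lit 3829032058585886684017332823307430245784446864140269116195402) (nat_lit 16777357))) .nil (.dwn (nat_lit 40064062876111403618727438013449807661518597834741487737628535203981663280300378) (nat_lit 173))) .nil .nil .nil l147 = true := by decide +kernel
theorem cw725 : wchk (nat_lit 5) [] [l147] (nat_lit 1) (nat_lit 2) (nat_lit 2) (nat_lit 0) (nat_lit 22597888) (nat_lit 0) w725 = true := by decide +kernel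
theorem cw726 : wchk (nat_lit 5) [] [l143] (nat_lit 3) (nat_lit 1) (nat_lit 4) (nat_lit 0) (nat_lit 21649920) (nat_lit 0) w726 = true := by decide +kernel
theorem cw727 : wchk (nat_lit 5) [w726] [] (nat_lit 1) (nat_lit 1) (nat_lit 4) (nat_lit 2) (nat_lit 90391552) (nat_lit 197) w727 = true := by decide +kernel
theorem cw728 : wchk (nat_lit 5) [] [] (nat_lit 146) (nat_lit 0) (nat_lit 3) (nat_lit 2) (nat_lit 25165905) (nat_lit 16777233) w728 = true := by decide +kernel
theorem cl148 : lchk (nat_lit 5) [w210, w5, w728] (nat_lit 626208768) .nil (.nod (nat_lit 292205670461970410184677261393421816511635137310662049347546382363) (.nod (nat_lit 618971845870353434728726619) (.nod (nat_lit 618970646831988643624648795) .nil (.nod (nat_lit 618970646831988643607871514) .nil (.dwn (nat_lit 9097082319642246662064082733602603953728914644599501243390580611220448842433986708898202) (nat_lit 39281968136)) .dup) .nil) .nil .nil) .nil .nil) .nil .nil l148 = true := by decide +kernel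
theorem cw729 : wchk (nat_lit 5) [] [l148] (nat_lit 1682) (nat_lit 1) (nat_lit 2) (nat_lit 0) (nat_lit 9820492032) (nat_lit 0) w729 = true := by decide +kernel
theorem cw730 : wchk (nat_lit 5) [] [l46] (nat_lit 2) (nat_lit 0) (nat_lit 4) (nat_lit 0) (nat_lit 4480256) (nat_lit 0) w730 = true := by decide +kernel
theorem cw731 : wchk (nat_lit 5) [] [l90] (nat_lit 2) (nat_lit 0) (nat_lit 4) (nat_lit 0) (nat_lit 4480256) (nat_lit 0) w731 = true := by decide +kernel
theorem cw732 : wchk (nat_lit 5) [] [] (nat_lit 1) (nat_lit 0) (nat_lit 4) (nat_lit 2) (nat_lit 197) (nat_lit 16777261) w732 = true := by decide +kernel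
theorem cw733 : wchk (nat_lit 5) [] [l72] (nat_lit 2) (nat_lit 0) (nat_lit 4) (nat_lit 0) (nat_lit 4480256) (nat_lit 0) w733 = true := by decide +kernel
theorem cw734 : wchk (nat_lit 5) [] [l28] (nat_lit 146) (nat_lit 0) (nat_lit 3) (nat_lit 1) (nat_lit 5431808) (nat_lit 0) w734 = true := by decide +kernel
theorem cl149 : lchk (nat_lit 5) [w212, w10, w71, w734, w729, w53, w730, w731, w732, w733] (nat_lit 626208768) .nil (.nod (nat_lit 1134704003810427903768021482862785275062795900515054939382000648603) (.nod (nat_lit 618971845870353434695172490) (.nod (nat_lit 618970646831988643607871642) .nil (.nod (nat_lit 3348837403468840864194574937892004250343054508058) (.nod (nat_lit 493153820761996608717430610820369246764948338694803323271906291255320) .nil (.opn (nat_lit 3944026994157278502621880751537237546530715688169506662581651150112792)) .dup) (.dwn (nat_lit 9097082320568583375962612297041388647708245275728331625344153374455237456079217538533400) (nat_lit 39281968140)) .dup) .nil) .nil .nil) .nil (.nod (nat_lit 2222094014326946507711286925735001841594160625188523221188634) (.dwn (nat_lit 207080872564146280101640312471413060902698402697664317133537077515678441974892834752584)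 (nat_lit 894644224)) .nil .nil)) .nil .nil l149 = true := by decide +kernel
theorem cw735 : wchk (nat_lit 5) [] [l149] (nat_lit 18) (nat_lit 3) (nat_lit 2) (nat_lit 0) (nat_lit 156815616) (nat_lit 0) w735 = true := by decide +kernel
theorem cw736 : wchk (nat_lit 5) [] [l146] (nat_lit 18) (nat_lit 2) (nat_lit 2) (nat_lit 0) (nat_lit 156815616) (nat_lit 0) w736 = true := by decide +kernel
theorem cw737 : wchk (nat_lit 5) [] [l146] (nat_lit 18) (nat_lit 2) (nat_lit 2) (nat_lit 0) (nat_lit 156815616) (nat_lit 0) w737 = true := by decide +kernel
theorem cw738 : wchk (nat_lit 5) [] [l146] (nat_lit 18) (nat_lit 2) (nat_lit 3) (nat_lit 0) (nat_lit 156700928) (nat_lit 0) w738 = true := by decide +kernel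
theorem cw739 : wchk (nat_lit 5) [] [l146] (nat_lit 18) (nat_lit 2) (nat_lit 2) (nat_lit 0) (nat_lit 156815616) (nat_lit 0) w739 = true := by decide +kernel
theorem cw740 : wchk (nat_lit 5) [] [] (nat_lit 0) (nat_lit 0) (nat_lit 4) (nat_lit 2) (nat_lit 16777261) (nat_lit 197) w740 = true := by decide +kernel
theorem cl150 : lchk (nat_lit 5) [] (nat_lit 150995089) .nil (.nod (nat_lit 210624803035675111929662789619970676906114754383538778750131896419) (.nod (nat_lit 210625204770186176677231675110493762196765384934287224448038732037) (.nod (nat_lit 33554442) .nil (.nod (nat_lit 11417993111248154360993016157164602414755479812) .nil (.opn (nat_lit 3885371364157336963535596649232690332789509206623366164388435929680601453035377393698)) .dup) .nil) .nil .nil) .nil .nil) .nil .nil l150 = true := by decide +kernel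
theorem cw741 : wchk (nat_lit 5) [] [l150] (nat_lit 18) (nat_lit 3) (nat_lit 3) (nat_lit 0) (nat_lit 156815616) (nat_lit 0) w741 = true := by decide +kernel
theorem cw742 : wchk (nat_lit 5) [] [l145] (nat_lit 17) (nat_lit 3) (nat_lit 4) (nat_lit 0) (nat_lit 5820672) (nat_lit 0) w742 = true := by decide +kernel
theorem cw743 : wchk (nat_lit 5) [] [l66] (nat_lit 1) (nat_lit 3) (nat_lit 3) (nat_lit 0) (nat_lit 5557248) (nat_lit 0) w743 = true := by decide +kernel
theorem cl151 : lchk (nat_lit 5) [w267, w3, w39, w143, w720, w263, w168, w391, w740, w734, w256, w258, w255, w257, w741, w652, w742, w717, w262, w743] (nat_lit 4921240576) .nil (.nod (nat_lit 292205670461970410184677261393421816511635137310662049348757833745) (.nod (nat_lit 2623828525391632559283359978900804561938513761552850728518026) (.nod (nat_lit 815873960086375455199127576) .nil (.nod (nat_lit 15845387250879203294684102298732107571486785562) .nil (.dwn (nat_lit 5162827440844500596528139839989648164534125973770377319447742368431034032907140880440) (nat_lit 89402368)) .dup) .nil) .nil (.nod (nat_lit 5391909583854893066899350342748931937118066000898403457006327235884195145714342298202)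 (.dwn (nat_lit 207200396864003893476032351163682414752330832951267095780582540548128788324840903432296) (nat_lit 894708736)) .nil .nil)) .nil (.nod (nat_lit 2222094014326946507738509515088701298238059356428455689322826) (.opn (nat_lit 1202075954605597711998814279124009239616813667948146914218260658984737240735098154158232)) .nil .nil)) .nil .nil l151 = true := by decide +kernel
theorem cw744 : wchk (nat_lit 5) [] [l151] (nat_lit 18) (nat_lit 2) (nat_lit 2) (nat_lit 0) (nat_lit 156815616) (nat_lit 0) w744 = true := by decide +kernel
theorem cw745 : wchk (nat_lit 5) [] [] (nat_lit 0) (nat_lit 0) (nat_lit 4) (nat_lit 2) (nat_lit 16777261) (nat_lit 197) w745 = true := by decide +kernel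
theorem cw746 : wchk (nat_lit 5) [] [l44] (nat_lit 1) (nat_lit 1) (nat_lit 3) (nat_lit 0) (nat_lit 22483200) (nat_lit 0) w746 = true := by decide +kernel
theorem cw747 : wchk (nat_lit 5) [] [l44] (nat_lit 1) (nat_lit 3) (nat_lit 3) (nat_lit 0) (nat_lit 22483200) (nat_lit 0) w747 = true := by decide +kernel
theorem cw748 : wchk (nat_lit 5) [] [l44] (nat_lit 1) (nat_lit 3) (nat_lit 4) (nat_lit 0) (nat_lit 21451008) (nat_lit 0) w748 = true := by decide +kernel
theorem cl152 : lchk (nat_lit 5) [] (nat_lit 150995089) .nil (.nod (nat_lit 210624803035675111929662789619970676906114754383538778750131896419) (.nod (nat_lit 210625204770186176677231675110493762196765384934287224448038732037) (.nod (nat_lit 33554442) .nil (.nod (nat_lit 11417993111248154360993016157164602414755479812) (.opn (nat_lit 210626403696617635544675647969807680982290527987607704895995510818)) .nil .dup) .nil) .nil .nil) .nil .nil) .nil .nil l152 = true := by decide +kernel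
theorem cw749 : wchk (nat_lit 5) [] [l152] (nat_lit 18) (nat_lit 3) (nat_lit 3) (nat_lit 0) (nat_lit 156815616) (nat_lit 0) w749 = true := by decide +kernel
theorem cw750 : wchk (nat_lit 5) [] [l8] (nat_lit 18) (nat_lit 2) (nat_lit 3) (nat_lit 0) (nat_lit 5671936) (nat_lit 0) w750 = true := by decide +kernel
theorem cw751 : wchk (nat_lit 5) [] [l145] (nat_lit 17) (nat_lit 3) (nat_lit 4) (nat_lit 0) (nat_lit 5820672) (nat_lit 0) w751 = true := by decide +kernel
theorem cw752 : wchk (nat_lit 5) [] [l145] (nat_lit 17) (nat_lit 3) (nat_lit 4) (nat_lit 0) (nat_lit 5820672) (nat_lit 0) w752 = true := by decide +kernel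
theorem cw753 : wchk (nat_lit 5) [] [] (nat_lit 0) (nat_lit 1) (nat_lit 4) (nat_lit 2) (nat_lit 197) (nat_lit 205) w753 = true := by decide +kernel
theorem cw754 : wchk (nat_lit 5) [] [l145] (nat_lit 17) (nat_lit 3) (nat_lit 4) (nat_lit 0) (nat_lit 5820672) (nat_lit 0) w754 = true := by decide +kernel
theorem cl153 : lchk (nat_lit 5) [w721, w3, w39, w143, w720, w263, w281, w754, w745, w734, w746, w258, w747, w748, w749, w750, w742, w717, w751, w752, w753] (nat_lit 4922229760) .nil (.nod (nat_lit 292205670461970410184677261393421816511635137310662049348757833745) (.nod (nat_lit 2623828525391632559283359978900804561938513761552850728518026) (.nod (nat_lit 815873960086375455199127576) .nil (.nod (nat_lit 15845387250879203294684102298732107571486785562) (.opn (nat_lit 279877436376569233839291543112318540950902144505291990673278797880)) .nil (.dwn (nat_lit 279877436376569233839340328714699262056531961596010268418218821688) (nat_lit 90391552))) .nil) .nil (.nod (nat_lit 5391909583854893066899350342748931937118066000898403457006327235884195145714342298202) (.dwn (nat_lit 207429476228004144242933611271957630382424378996879450847552906251159958375619645311080)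 (nat_lit 895697920)) .nil .nil)) .nil (.nod (nat_lit 2222094014326946507738509515088677777641765457243932737929546) (.opn (nat_lit 1202075954605597711998814279124009239616814341151892594861446744094232596307500922734752)) .nil .nil)) .nil .nil l153 = true := by decide +kernel
theorem cw755 : wchk (nat_lit 5) [] [l153] (nat_lit 18) (nat_lit 2) (nat_lit 2) (nat_lit 0) (nat_lit 156815616) (nat_lit 0) w755 = true := by decide +kernel
theorem cl154 : lchk (nat_lit 5) [w754, w3, w39, w143, w720, w740, w734, w256, w258, w255, w257, w741, w652, w230] (nat_lit 4922229760) .nil (.nod (nat_lit 292205670461970410184677261393421816511635137310662049348757833745) (.nod (nat_lit 2623828525391632559283359978900804561938513761552850728518026) (.nod (nat_lit 815873960086375455199127576) .nil (.nod (nat_lit 15845387250879203294684102298732107571486785562) (.nod (nat_lit 61517302528434178021234311498635343011313518592) .nil (.dwn (nat_lit 7874780602634650737836971441833919147300788064902923078205125855232) (nat_lit 627262464)) .dup) .nil (.dwn (nat_lit 20933253310967014438143757434208066949041641680415337493385154824789931481673345959936) (nat_lit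 90391552))) .nil) .nil (.nod (nat_lit 5391906804844751371310660026394850079327939190359825324648796302445648288662402630234) (.dwn (nat_lit 207200394084993751780443660847328332894540706132561740842122486491126529031657497450576) (nat_lit 895697920)) .nil .nil)) .nil (.dwn (nat_lit 2222094014326946507730342738282598775114495643992324223009098) (nat_lit 659842100))) .nil .nil l154 = true := by decide +kernel
theorem cw756 : wchk (nat_lit 5) [] [l154] (nat_lit 18) (nat_lit 2) (nat_lit 2) (nat_lit 0) (nat_lit 156815616) (nat_lit 0) w756 = true := by decide +kernel
theorem cw757 : wchk (nat_lit 5) [] [l23] (nat_lit 3) (nat_lit 1) (nat_lit 2) (nat_lit 0) (nat_lit 22481408) (nat_lit 0) w757 = true := by decide +kernel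
theorem cl155 : lchk (nat_lit 5) [w754, w3, w39, w143, w720, w86, w734, w712, w713, w581, w714, w715, w742, w717, w751, w752, w753] (nat_lit 4922229760) .nil (.nod (nat_lit 292205670461970410184677261393421816511635137310662049347550218257) (.nod (nat_lit 2623828525391632559283359978900804561938513761552850728518026) (.nod (nat_lit 815873960086375455199127576) .nil (.nod (nat_lit 15845387250879203294684102298732107571486785562) (.opn (nat_lit 20933253310967014439278551370055057737784966638633189064684694223751439257277812869120)) .dup .dup) .nil) .nil (.nod (nat_lit 4088810422669411863900693818143478449445123567729026170684110121840755826845676470874) (.dwn (nat_lit 207429473448994002547363818547004034250274313441947248552574531801308767649118299785296) (nat_lit 895697920)) .nil .nil)) .nil (.nod (nat_lit 2222094014326946507730342738282575237591764530677096061600074) (.opn (nat_lit 1202075950900250856404696025368870463806427505393618788276833338684896250583256381425792)) .nil .nil)) .nil .nil l155 = true := by decide +kernel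
theorem cw758 : wchk (nat_lit 5) [] [l155] (nat_lit 18) (nat_lit 2) (nat_lit 2) (nat_lit 0) (nat_lit 156815616) (nat_lit 0) w758 = true := by decide +kernel
theorem cl156 : lchk (nat_lit 5) [w17, w91, w80, w203, w202, w745, w389, w3, w200, w201, w199] (nat_lit 18695168) .nil (.nod (nat_lit 599965313918060105681542532253476373122173108224) (.nod (nat_lit 117737698954644708364562613668305679941659) .nil (.nod (nat_lit 665400769624122258254942240) (.nod (nat_lit 61737081277429688115268684982622513319309337565027452551513996525594) .nil (.opn (nat_lit 493096227951839924856671726454426222246947441579312988054725490018304)) .dup) .nil .nil) .nil) (.nod (nat_lit 27840735908074294427613210504038028369552541083316159524126074843430771464693173880888) (.opn (nat_lit 144048953197671273409430683220046872066542594568135172578045183357015726208646763669584)) .nil .nil) .dup) .nil .nil l156 = true := by decide +kernel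
theorem cw759 : wchk (nat_lit 5) [] [l156] (nat_lit 145) (nat_lit 3) (nat_lit 1) (nat_lit 0) (nat_lit 5820672) (nat_lit 0) w759 = true := by decide +kernel
theorem cl157 : lchk (nat_lit 5) [w42, w16, w267, w638, w220, w721, w39, w722, w505, w3, w461, w759, w1, w712, w713, w581, w714] (nat_lit 21777408) (.nod (nat_lit 57965911918109478571984515538402074503979991066) (.nod (nat_lit 1122375619074585078141555924578107893196046629295620585297706745856) .nil .nil (.dwn (nat_lit 7855883011234165012195573527145429574594507125608049103326333108224) (nat_lit 625757184))) (.dwn (nat_lit 20933257942650583931913949996122052374635545540849060996231054062837760096595328272440) (nat_lit 88886272)) .dup) .nil (.nod (nat_lit 816138431056160227833632777) (.nod (nat_lit 1067662893844538275739852835338730247707222484954725290625718026650) .nil (.dwn (nat_lit 292206065919379739972419095827807311248861456845150958595476195376) (nat_lit 625757184)) .dup) .nil (.nod (nat_lit 5391912362865034754904025853948761793915778870300801675605810158510758290807039459674) (.dwn (nat_lit 145264074455790955665748424827965762978781483639145677050446635626446959129123767093376)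 (nat_lit 625757184)) .nil .nil)) .nil l157 = true := by decide +kernel
theorem cw760 : wchk (nat_lit 5) [] [l157] (nat_lit 3) (nat_lit 2) (nat_lit 2) (nat_lit 0) (nat_lit 22597888) (nat_lit 0) w760 = true := by decide +kernel
theorem cw761 : wchk (nat_lit 5) [] [l1] (nat_lit 3) (nat_lit 1) (nat_lit 4) (nat_lit 0) (nat_lit 20533504) (nat_lit 0) w761 = true := by decide +kernel
theorem cw762 : wchk (nat_lit 5) [] [l46] (nat_lit 26) (nat_lit 3) (nat_lit 2) (nat_lit 0) (nat_lit 5428224) (nat_lit 0) w762 = true := by decide +kernel
theorem cl158 : lchk (nat_lit 5) [w745, w281, w761, w263, w762, w721, w67, w16, w86] (nat_lit 22709248) (.nod (nat_lit 17126983882071993884607197117316361201064607762) (.nod (nat_lit 3312910240500392014492633104) .nil .nil .nil) .nil (.dwn (nat_lit 279067439168634936507903024114161022482474990073239605977311871578) (nat_lit 89932820))) .nil (.nod (nat_lit 9157259830700249332539350557687390168294842425) (.nod (nat_lit 1011420062295473616095884304344818929571223100152174425058689679762) .nil (.dwn (nat_lit 7751406729083133565182842534636231790863351940322275069981963755584) (nat_lit 626689024)) .dup)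 .nil (.dwn (nat_lit 20800453679662521241063967196330013473530263186377694518130803394928272623088846242130) (nat_lit 89818112))) .nil l158 = true := by decide +kernel
theorem cw763 : wchk (nat_lit 5) [] [l158] (nat_lit 3) (nat_lit 2) (nat_lit 3) (nat_lit 0) (nat_lit 22597888) (nat_lit 0) w763 = true := by decide +kernel
theorem cl159 : lchk (nat_lit 5) [w17, w50, w177, w202, w203, w763, w392, w3, w200, w199, w201] (nat_lit 23275520) .nil (.nod (nat_lit 2818119588337986141263845385) (.nod (nat_lit 15528293425852092182194475237239190654373855578) .nil (.nod (nat_lit 14825822334074946000475498887738424646447945760) (.nod (nat_lit 61794583948405451826638569662369803047461349181686615735991900983296) .nil (.dwn (nat_lit 493153730622815688564694837251978340518182267866024533149710008340480) (nat_lit 39281960960)) .dup) (.dwn (nat_lit 1139908875237595653184570807399319324451798048855788903980743148040662442710227510251520) (nat_lit 4922222592)) (.dwn (nat_lit 1139908875237595653184570807399319324451798048855788903980743148040662442710227510251520) (nat_lit 4922222592))) .nil) (.nod (nat_lit 28703933511553500216012237094183305749297831450688663273680262696818833066213087641946)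 (.dwn (nat_lit 145034990460107135406173970709955325728179549090616140363271126767305488625786032920656) (nat_lit 627255296)) .nil .nil) .dup) .nil .nil l159 = true := by decide +kernel
theorem cw764 : wchk (nat_lit 5) [] [l159] (nat_lit 2) (nat_lit 0) (nat_lit 1) (nat_lit 0) (nat_lit 5820672) (nat_lit 0) w764 = true := by decide +kernel
theorem cw765 : wchk (nat_lit 5) [] [l103] (nat_lit 1) (nat_lit 3) (nat_lit 3) (nat_lit 0) (nat_lit 4901376) (nat_lit 0) w765 = true := by decide +kernel
theorem cw766 : wchk (nat_lit 5) [] [l103] (nat_lit 1) (nat_lit 3) (nat_lit 4) (nat_lit 0) (nat_lit 5818880) (nat_lit 0) w766 = true := by decide +kernel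
theorem cw767 : wchk (nat_lit 5) [] [] (nat_lit 2) (nat_lit 0) (nat_lit 4) (nat_lit 2) (nat_lit 205) (nat_lit 197) w767 = true := by decide +kernel
theorem cw768 : wchk (nat_lit 5) [] [l145] (nat_lit 273) (nat_lit 0) (nat_lit 4) (nat_lit 1) (nat_lit 5820672) (nat_lit 0) w768 = true := by decide +kernel
theorem cw769 : wchk (nat_lit 5) [] [l145] (nat_lit 273) (nat_lit 0) (nat_lit 4) (nat_lit 1) (nat_lit 5820672) (nat_lit 0) w769 = true := by decide +kernel
theorem cw770 : wchk (nat_lit 5) [] [l145] (nat_lit 273) (nat_lit 0) (nat_lit 4) (nat_lit 1) (nat_lit 5820672) (nat_lit 0) w770 = true := by decide +kernel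
theorem cw771 : wchk (nat_lit 5) [] [] (nat_lit 1) (nat_lit 2) (nat_lit 4) (nat_lit 2) (nat_lit 293) (nat_lit 205) w771 = true := by decide +kernel
theorem cl160 : lchk (nat_lit 5) [w716, w3, w39, w12, w520, w767, w216, w53, w712, w713, w765, w766, w715, w768, w769, w770, w771] (nat_lit 4922229760) .nil (.nod (nat_lit 292205670461970410184677261393421816511635137310662049347550218257) (.nod (nat_lit 2623828525391632559283359978900804561938513761552850728518026) (.nod (nat_lit 3292018786328081884482168864) .nil (.nod (nat_lit 426892725472454584406978169207183566303863504922) (.opn (nat_lit 1139910539864670528842196306895414357268084013260296512118315528185015759327087693301800)) .dup .dup) .nil) .nil (.nod (nat_lit 5015088777354965812325385677116748048768700040237991386650718260054142777406567481946) (.dwn (nat_lit 207429474375330716445893381985788728202871334591948479627451864653698671157240518838360) (nat_lit 895697920)) .nil .nil)) .nil (.nod (nat_lit 2222094014326946507733064997217942745299471527536550207291722) .nil (.opn (nat_lit 65164667923148340784824868958112528138873325262423084280167002441856)) .dup)) .nil .nil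 l160 = true := by decide +kernel
theorem cw772 : wchk (nat_lit 5) [] [l160] (nat_lit 18) (nat_lit 2) (nat_lit 2) (nat_lit 0) (nat_lit 156815616) (nat_lit 0) w772 = true := by decide +kernel
theorem cw773 : wchk (nat_lit 5) [] [l25] (nat_lit 2) (nat_lit 3) (nat_lit 3) (nat_lit 0) (nat_lit 19295232) (nat_lit 0) w773 = true := by decide +kernel
theorem cw774 : wchk (nat_lit 5) [] [] (nat_lit 0) (nat_lit 0) (nat_lit 1) (nat_lit 2) (nat_lit 33554509) (nat_lit 209) w774 = true := by decide +kernel
theorem cw775 : wchk (nat_lit 5) [] [l17] (nat_lit 34) (nat_lit 0) (nat_lit 3) (nat_lit 1) (nat_lit 19343616) (nat_lit 0) w775 = true := by decide +kernel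
theorem cw776 : wchk (nat_lit 5) [] [] (nat_lit 1) (nat_lit 0) (nat_lit 1) (nat_lit 2) (nat_lit 209) (nat_lit 33554477) w776 = true := by decide +kernel
theorem cw777 : wchk (nat_lit 5) [] [l17] (nat_lit 34) (nat_lit 0) (nat_lit 3) (nat_lit 1) (nat_lit 19343616) (nat_lit 0) w777 = true := by decide +kernel
theorem cl161 : lchk (nat_lit 5) [w149, w33, w773, w774, w278, w292, w775, w776, w777] (nat_lit 621499392) .nil (.nod (nat_lit 2579888813243925793936509452938350897018068087674718220871689) (.nod (nat_lit 2623828525391632559283359978900805799872207366971769541885952) .nil .nil (.nod (nat_lit 210625550010781622944673686078912038619037240767946800844482019328) .nil (.dwn (nat_lit 2573611711511889009164641147129854436350105676433905578051608) (nat_lit 90391564)) .dup)) .nil (.nod (nat_lit 53048605428327915349932104470037775204027990346) .nil (.dwn (nat_lit 142382315045789742068536879932829898787672314259928675074052452070130284358061659686976) (nat_lit 889934848)) (.opn (nat_lit 142382315045789742068536879932829898787672314259928675074052452070130284358061659686976)))) .nil .nil l161 = true := by decide +kernel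
theorem cw778 : wchk (nat_lit 5) [] [l161] (nat_lit 274) (nat_lit 1) (nat_lit 0) (nat_lit 0) (nat_lit 1230557440) (nat_lit 0) w778 = true := by decide +kernel
theorem cl162 : lchk (nat_lit 5) [] (nat_lit 5) (.nod (nat_lit 210624746541759493449535915097865868037117009462339778573519290368) .nil .nil .nil) (.nod (nat_lit 1632046451200536998597305250033993887158458285914083668525056) (.nod (nat_lit 618974926476613744223846666) .nil (.nod (nat_lit 102761924389938712411398606141627361513722347546) (.opn (nat_lit 283629689065652181495725017319434183552361515436619551026505452033060991255556384620810)) .dup .dup) .nil) .nil .nil) .nil .nil l162 = true := by decide +kernel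
theorem cw779 : wchk (nat_lit 5) [] [l162] (nat_lit 1) (nat_lit 3) (nat_lit 4) (nat_lit 0) (nat_lit 5820672) (nat_lit 0) w779 = true := by decide +kernel
theorem cl163 : lchk (nat_lit 5) [] (nat_lit 150995089) .nil (.nod (nat_lit 210624803035675111929662789619970676906114754383538778750131896419) (.nod (nat_lit 210625204770186176677231675110493762196765384934287224448038732037) (.nod (nat_lit 33554442) .nil (.nod (nat_lit 11417993111248154360993016157164602414755479812) (.opn (nat_lit 3885371364157336963746223052929307968322766774369639759249486790164778570114008088610)) .dup .dup) .nil) .nil .nil) .nil (.opn (nat_lit 2222094014326902117468863813741159693596624877253699536159050))) .nil .nil l163 = true := by decide +kernel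
theorem cw780 : wchk (nat_lit 5) [] [l163] (nat_lit 18) (nat_lit 3) (nat_lit 3) (nat_lit 0) (nat_lit 156815616) (nat_lit 0) w780 = true := by decide +kernel
theorem cl164 : lchk (nat_lit 5) [] (nat_lit 150995085) .nil (.nod (nat_lit 210624752818861228836216678933655291244783425564695223037587357979) (.nod (nat_lit 210625154553372293583785564424178376535434060930043871973955600384) (.nod (nat_lit 618970204110130874545078272) .nil (.nod (nat_lit 11417990388989218992866342599489213481552445466) (.opn (nat_lit 3885370437820623065216659614144614015726057834801188113101087193265467177282555609370)) .dup .dup) .nil) .nil .nil) .nil (.opn (nat_lit 315937038210316680164581011053635290633358243977714154416856105290))) .nil .nil l164 = true := by decide +kernel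
theorem cw781 : wchk (nat_lit 5) [] [l164] (nat_lit 18) (nat_lit 3) (nat_lit 4) (nat_lit 0) (nat_lit 156815616) (nat_lit 0) w781 = true := by decide +kernel
theorem cw782 : wchk (nat_lit 5) [] [l163] (nat_lit 18) (nat_lit 3) (nat_lit 3) (nat_lit 0) (nat_lit 156815616) (nat_lit 0) w782 = true := by decide +kernel
theorem cl165 : lchk (nat_lit 5) [] (nat_lit 142606469) (.nod (nat_lit 7286463909115306443019) (.nod (nat_lit 1638323552935923679361141039457200934610425510027923600441344) (.nod (nat_lit 210624746541759493449535915097865868037117009462339778573519290368) .nil .nil .nil) .nil .nil) .nil (.dwn (nat_lit 5828037477372924338866372169167813733692529316117572395161582678488334486669801554266) (nat_lit 25165957))) .nil .nil .nil l165 = true := by decide +kernel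
theorem cw783 : wchk (nat_lit 5) [] [l165] (nat_lit 17) (nat_lit 3) (nat_lit 4) (nat_lit 0) (nat_lit 156815616) (nat_lit 0) w783 = true := by decide +kernel
theorem cw784 : wchk (nat_lit 5) [] [l0] (nat_lit 2) (nat_lit 0) (nat_lit 4) (nat_lit 0) (nat_lit 4508928) (nat_lit 0) w784 = true := by decide +kernel
theorem cw785 : wchk (nat_lit 5) [] [l163] (nat_lit 18) (nat_lit 3) (nat_lit 3) (nat_lit 0) (nat_lit 156815616) (nat_lit 0) w785 = true := by decide +kernel
theorem cl166 : lchk (nat_lit 5) [w717, w3, w39, w13, w778, w783, w779, w730, w712, w713, w780, w781, w782, w715, w768, w784, w785] (nat_lit 4922229760) .nil (.nod (nat_lit 292205670461970410184677261393421816511635137310662049347550218257) (.nod (nat_lit 2623828525391632559283359978900804561938513761552850728518043) (.nod (nat_lit 3292018786328081884493809696) .nil (.nod (nat_lit 15845389973138138662191810005728967025632477210) (.opn (nat_lit 20933253310967014439278551370055057737784966638633189064684694223751439257277812869120)) .dup .dup) .nil) .nil (.nod (nat_lit 5391907731181465269840223465179544031924648127206018035434639946925163907679715852890) (.dwn (nat_lit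 207429474375330716445893381985788728205611650161943922599232326519755947452091347667040) (nat_lit 895697920)) .nil .nil)) .nil (.nod (nat_lit 61517337917800337796341706944697055736135418186) .nil (.dwn (nat_lit 1202075952752924284136590484222857883161036054840521058726313616232066918745271083370624) (nat_lit 5190665216)) .dup)) .nil .nil l166 = true := by decide +kernel
theorem cw786 : wchk (nat_lit 5) [] [l166] (nat_lit 18) (nat_lit 2) (nat_lit 2) (nat_lit 0) (nat_lit 156815616) (nat_lit 0) w786 = true := by decide +kernel
theorem cw787 : wchk (nat_lit 5) [w50] [] (nat_lit 17) (nat_lit 0) (nat_lit 4) (nat_lit 2) (nat_lit 197) (nat_lit 76327936) w787 = true := by decide +kernel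
theorem cl167 : lchk (nat_lit 5) [w723, w14, w760, w50, w181, w177, w724, w725, w744, w758, w755, w756, w42, w727, w735, w736, w737, w738, w739, w764, w772, w786, w787] (nat_lit 23282688) .nil (.nod (nat_lit 7874780659128566355890205604494864048577823249517849896057934612497) (.nod (nat_lit 2623828525391684539541331663140045868704581186112706347794826) (.nod (nat_lit 425790229659443291380373688929721138196921077801) .nil (.nod (nat_lit 15845392695397074029922602563631005551619901496) (.nod (nat_lit 493153821013080678106215899439448036322788444051192492976678159079448) .nil (.dwn (nat_lit 3944026994458579385920441428217688992456888722389547148788187739359304) (nat_lit 314159875072)) .dup) (.dwn (nat_lit 9097082327052940373252319241163098319232842255099670084364459396290985861309128483711072) (nat_lit 39281968164)) (.dwn (nat_lit 9097082327052940373252319241163098319232842255099670084364459396290985861309128483711072) (nat_lit 39281968164))) .nil) (.nod (nat_lit 28703940922247211410580710418554628579893821611551320525986169473039377470859259586656) (.dwn (nat_lit 1139910549128037667827491941333478110677144548772111861836245371527923134212690521000080)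 (nat_lit 4922229760)) .nil .nil) .dup) .nil (.nod (nat_lit 2222094014326946507752120809765517775136007833507303524401482) (.dwn (nat_lit 145264080940147952955455368899458620646957655884466204807947318148516698361941549549744) (nat_lit 627262464)) .nil .nil)) .nil .nil l167 = true := by decide +kernel
theorem cw788 : wchk (nat_lit 5) [] [l167] (nat_lit 146) (nat_lit 3) (nat_lit 1) (nat_lit 0) (nat_lit 1230557440) (nat_lit 0) w788 = true := by decide +kernel
theorem cw789 : wchk (nat_lit 5) [] [l16] (nat_lit 2) (nat_lit 0) (nat_lit 1) (nat_lit 0) (nat_lit 5818880) (nat_lit 0) w789 = true := by decide +kernel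
theorem cw790 : wchk (nat_lit 5) [w50] [] (nat_lit 1) (nat_lit 1) (nat_lit 1) (nat_lit 2) (nat_lit 80564224) (nat_lit 209) w790 = true := by decide +kernel
theorem cw791 : wchk (nat_lit 5) [] [l167] (nat_lit 146) (nat_lit 3) (nat_lit 1) (nat_lit 0) (nat_lit 1230557440) (nat_lit 0) w791 = true := by decide +kernel
theorem cw793 : wchk (nat_lit 5) [] [l167] (nat_lit 146) (nat_lit 3) (nat_lit 1) (nat_lit 0) (nat_lit 1230557440) (nat_lit 0) w793 = true := by decide +kernel
theorem cl168 : lchk (nat_lit 5) [w638, w1, w15, w4, w91, w168, w281, w431] (nat_lit 22250496) (.nod (nat_lit 618971827423609361019175002) (.nod (nat_lit 1133264181045670113094455120992258170163269598241009135348128678298) .nil (.dwn (nat_lit 145235844344434897977302627814200743710556606598474235956842779511056195897492695601168) (nat_lit 626230272)) (.opn (nat_lit 145235844344434897977302627814200743710556606598474235956842779511056195897492695601168))) .nil (.dwn (nat_lit 292205764618496440991743421374697256384791757608183846335695290714) (nat_lit 89359360))) (.nod (nat_lit 618970646831988643607871514) .nil (.dwn (nat_lit 1120126056463064141036886774228428729002821392420515791543591764378)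 (nat_lit 78327836)) .dup) .nil .nil l168 = true := by decide +kernel
theorem cw794 : wchk (nat_lit 5) [] [l168] (nat_lit 0) (nat_lit 3) (nat_lit 1) (nat_lit 0) (nat_lit 5820672) (nat_lit 0) w794 = true := by decide +kernel
theorem cw795 : wchk (nat_lit 5) [] [l143] (nat_lit 1) (nat_lit 0) (nat_lit 1) (nat_lit 0) (nat_lit 5661184) (nat_lit 0) w795 = true := by decide +kernel
theorem cw796 : wchk (nat_lit 5) [] [l168] (nat_lit 1) (nat_lit 0) (nat_lit 1) (nat_lit 0) (nat_lit 5788416) (nat_lit 0) w796 = true := by decide +kernel
theorem cw797 : wchk (nat_lit 5) [] [l168] (nat_lit 1) (nat_lit 0) (nat_lit 1) (nat_lit 0) (nat_lit 5802752) (nat_lit 0) w797 = true := by decide +kernel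
theorem cw798 : wchk (nat_lit 5) [] [l45] (nat_lit 1) (nat_lit 0) (nat_lit 1) (nat_lit 0) (nat_lit 5415680) (nat_lit 0) w798 = true := by decide +kernel
theorem cl169 : lchk (nat_lit 5) [w219, w15, w91, w795, w141, w796, w797, w798, w499] (nat_lit 21777408) (.nod (nat_lit 292295658992448913640107611270592921618197279254784778576499001353) (.nod (nat_lit 957426642707488244276997571686234179209334412433956466949208084496) .nil (.nod (nat_lit 145264065192423816680433982837248816230202870604092724466130764509744448366459560978464) (.dwn (nat_lit 1139910539864670528842196306945631171151177459376427345374711836848232852693478923520048) (nat_lit 4920724480)) .nil .nil) (.nod (nat_lit 145264065192423816680433982837248816230202870604092724466130764509744448366459560978464) (.dwn (nat_lit 1139910539864670528842196306945631171151177459376427345374711836848232852693478923520048) (nat_lit 4920724480)) .nil .nil)) .nil .dup) (.nod (nat_lit 279067690252704351959288190294858747495925207564880017651095982144) .nil (.opn (nat_lit 1115896344446505063163444346057796176614492771165269143738239195136)) .dup) .nil .nil l169 = true := by decide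 +kernel
theorem cw799 : wchk (nat_lit 5) [] [l169] (nat_lit 33) (nat_lit 1) (nat_lit 2) (nat_lit 0) (nat_lit 156815616) (nat_lit 0) w799 = true := by decide +kernel
theorem cw800 : wchk (nat_lit 5) [] [l168] (nat_lit 0) (nat_lit 3) (nat_lit 3) (nat_lit 0) (nat_lit 5562624) (nat_lit 0) w800 = true := by decide +kernel
theorem cw801 : wchk (nat_lit 5) [] [l168] (nat_lit 0) (nat_lit 3) (nat_lit 1) (nat_lit 0) (nat_lit 5820672) (nat_lit 0) w801 = true := by decide +kernel
theorem cw802 : wchk (nat_lit 5) [] [l120] (nat_lit 17) (nat_lit 2) (nat_lit 3) (nat_lit 0) (nat_lit 19094528) (nat_lit 0) w802 = true := by decide +kernel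
theorem cl170 : lchk (nat_lit 5) [w15, w281, w152, w154, w153, w1, w802, w4, w638, w432, w149] (nat_lit 23275520) (.nod (nat_lit 928455656653333712349429786) .nil (.nod (nat_lit 20916654283390666688030571878880293129652567190160201474285264544581951074651240137114) (.dwn (nat_lit 145131264634782609583707832880617964821832101718794381560053371409214787644806757959712) (nat_lit 627255296)) .nil .nil) .dup) .nil (.nod (nat_lit 618971827423609361019175002) (.nod (nat_lit 1134704198400581700755125161772257394500454807398812740577663123866) .nil .nil (.dwn (nat_lit 7874690614104172233954648380095588134626225897057380920716689821696) (nat_lit 627255296))) .nil (.nod (nat_lit 5391907731181465262256208660025292030932234186069838121676591936113180195720473346394) (.opn (nat_lit 144995150570715787446710315366081640476554962343832254971631413730328483034337295812688)) .nil .nil)) .nil l170 = true := by decide +kernel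
theorem cw803 : wchk (nat_lit 5) [] [l170] (nat_lit 17) (nat_lit 3) (nat_lit 1) (nat_lit 0) (nat_lit 5820672) (nat_lit 0) w803 = true := by decide +kernel
theorem cl171 : lchk (nat_lit 5) [w794, w16, w42, w803, w638, w799, w801, w800, w261] (nat_lit 23282688) (.nod (nat_lit 290675859166734116055680549645723606507183722370834802258395486216) (.nod (nat_lit 273398111531675335706499483915186811866179399786625117186740803600) .nil (.dwn (nat_lit 5362025035127812597066627136765570847304268096928588061758143773256161253285583734800) (nat_lit 627262464)) (.dwn (nat_lit 5362025035127812597066627136765570847304268096928588061758143773256161253285583734800) (nat_lit 627262464))) .nil (.nod (nat_lit 277717661428271267769806080180949552597429787959739172017983887392) (.dwn (nat_lit 20903378951943786860857650613891900377015150698502531304090387800188108036687375063096) (nat_lit 90262528)) .nil .nil)) (.nod (nat_lit 286536436981536840199330565982168157304439541532157173627434125328) .nil (.dwn (nat_lit 273398111531675335722344868443807079792736823731528376660474026000) (nat_lit 627133440)) (.dwn (nat_lit 273398111531675335722344868443807079792736823731528376660474026000)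 (nat_lit 627133440))) .nil (.nod (nat_lit 5391906804844751363715216577436200373308978593450284291139806699938110707885298583584) (.dwn (nat_lit 20919980758530276307694320320987119076689316211048635992506562905485702076725492926520) (nat_lit 90391552)) .nil .nil) l171 = true := by decide +kernel
theorem cw804 : wchk (nat_lit 5) [] [l171] (nat_lit 3) (nat_lit 2) (nat_lit 2) (nat_lit 0) (nat_lit 5820672) (nat_lit 0) w804 = true := by decide +kernel
theorem cw805 : wchk (nat_lit 5) [] [l26] (nat_lit 2) (nat_lit 2) (nat_lit 3) (nat_lit 0) (nat_lit 20141056) (nat_lit 0) w805 = true := by decide +kernel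
theorem cw806 : wchk (nat_lit 5) [] [l26] (nat_lit 2) (nat_lit 3) (nat_lit 3) (nat_lit 0) (nat_lit 20141056) (nat_lit 0) w806 = true := by decide +kernel
theorem cw807 : wchk (nat_lit 5) [] [l26] (nat_lit 0) (nat_lit 0) (nat_lit 4) (nat_lit 1) (nat_lit 20124928) (nat_lit 0) w807 = true := by decide +kernel
theorem cl172 : lchk (nat_lit 5) [w805, w32, w806, w807] (nat_lit 23282688) .nil (.nod (nat_lit 17173918732623592555419) .nil (.nod (nat_lit 61429496066473899056787370373333854816852509082) (.opn (nat_lit 15806355502263903969411008747419180141810976792)) .nil .nil) (.nod (nat_lit 7710739022810592575898) .nil .nil (.dwn (nat_lit 5391902173161181870788062179619915695840869665469787145350040206026893845663972327450) (nat_lit 627262464)))) .nil .nil l172 = true := by decide +kernel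
theorem cw808 : wchk (nat_lit 5) [] [l172] (nat_lit 34) (nat_lit 2) (nat_lit 2) (nat_lit 0) (nat_lit 156815616) (nat_lit 0) w808 = true := by decide +kernel
theorem cw809 : wchk (nat_lit 5) [] [l14] (nat_lit 25) (nat_lit 2) (nat_lit 2) (nat_lit 0) (nat_lit 156801280) (nat_lit 0) w809 = true := by decide +kernel
theorem cw810 : wchk (nat_lit 5) [] [l126] (nat_lit 25) (nat_lit 2) (nat_lit 2) (nat_lit 0) (nat_lit 5446144) (nat_lit 0) w810 = true := by decide +kernel
theorem cw811 : wchk (nat_lit 5) [] [l85] (nat_lit 25) (nat_lit 2) (nat_lit 2) (nat_lit 0) (nat_lit 5671936) (nat_lit 0) w811 = true := by decide +kernel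
theorem cw812 : wchk (nat_lit 5) [] [] (nat_lit 0) (nat_lit 0) (nat_lit 4) (nat_lit 2) (nat_lit 25165833) (nat_lit 33554509) w812 = true := by decide +kernel

end Pool.Agent.W319.GCI.K5
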