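import Pool.Agent.W319.GCI.K5D0
import Pool.Agent.W319.GCI.K5D1
import Pool.Agent.W319.GCI.K5D2
import Pool.Agent.W319.GCI.K5D3
import Pool.Agent.W319.GCI.K5D4
import Pool.Agent.W319.GCI.K5D5
import Pool.Agent.W319.GCI.K5D6
import Pool.Agent.W319.GCI.K5D7
import Pool.Agent.W319.GCI.K5D8
import Pool.Agent.W319.GCI.K5D9
import Pool.Agent.W319.GCI.K5D10
import Pool.Agent.W319.GCI.K5D11
import Pool.Agent.W319.GCI.K5D12
import Pool.Agent.W319.GCI.K5D13
import Pool.Agent.W319.GCI.K5D14
import Pool.Agent.W319.GCI.K5D15
set_option autoImplicit false
set_option maxRecDepth 100000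
set_option linter.all false
namespace Pool.Agent.W319.GCI.K5
open Pool.Agent.W319.GCI

theorem cw7244 : wchk (nat_lit 5) [] [l1678] (nat_lit 18) (nat_lit 1) (nat_lit 2) (nat_lit 0) (nat_lit 5820672) (nat_lit 0) w7244 = true := by decide +kernel
theorem cw7245 : wchk (nat_lit 5) [] [l1201] (nat_lit 18) (nat_lit 3) (nat_lit 2) (nat_lit 0) (nat_lit 5818880) (nat_lit 0) w7245 = true := by decide +kernel
theorem cw7246 : wchk (nat_lit 5) [w220] [] (nat_lit 2) (nat_lit 1) (nat_lit 4) (nat_lit 2) (nat_lit 193) (nat_lit 13992960) w7246 = true := by decide +kernel
theorem cl1679 : lchk (nat_lit 5) [w1325] (nat_lit 16777217) .nil (.nod (nat_lit 20825353726324202951916452471108556217614041128646057477809956397666946375851484119040) (.nod (nat_lit 30105943201702210810128456102258856041981545006698028897155834440526076236005762) (.nod (nat_lit 11418069334498344651208836085147339641807962370) .nil (.opn (nat_lit 1895622869526277090428923489607418746361937969904645223768670601474)) .dup) .nil (.nod (nat_lit 3885382480197903745890357312047251166828663109652858324411933911411480303365752094978) .nil (.dwn (nat_lit 34968069934422146506024356473663749651472472736201973864154512790325552216795760296194)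 (nat_lit 150995073)) (.opn (nat_lit 34968069934422146506024356473663749651472472736201973864154512790325552216795760296194)))) .nil (.dwn (nat_lit 30105943201702210812149682861053367247914891129487957421479136918767862183625026) (nat_lit 161))) .nil .nil l1679 = true := by decide +kernel
theorem cw7247 : wchk (nat_lit 5) [] [l1679] (nat_lit 2) (nat_lit 2) (nat_lit 3) (nat_lit 0) (nat_lit 22597888) (nat_lit 0) w7247 = true := by decide +kernel
theorem cw7248 : wchk (nat_lit 5) [w75, w220] [] (nat_lit 2) (nat_lit 1) (nat_lit 2) (nat_lit 2) (nat_lit 22307840) (nat_lit 22250500) w7248 = true := by decide +kernel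
theorem cw7249 : wchk (nat_lit 5) [w871] [] (nat_lit 2) (nat_lit 0) (nat_lit 3) (nat_lit 2) (nat_lit 22823936) (nat_lit 25165905) w7249 = true := by decide +kernel
theorem cw7250 : wchk (nat_lit 5) [] [l89] (nat_lit 2) (nat_lit 1) (nat_lit 0) (nat_lit 0) (nat_lit 5657600) (nat_lit 0) w7250 = true := by decide +kernel
theorem cw7251 : wchk (nat_lit 5) [w1139] [] (nat_lit 2) (nat_lit 0) (nat_lit 4) (nat_lit 2) (nat_lit 18688000) (nat_lit 25165901) w7251 = true := by decide +kernel
theorem cw7252 : wchk (nat_lit 5) [] [l1598] (nat_lit 2) (nat_lit 1) (nat_lit 0) (nat_lit 0) (nat_lit 22565632) (nat_lit 0) w7252 = true := by decide +kernel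
theorem cw7253 : wchk (nat_lit 5) [] [l1103] (nat_lit 2) (nat_lit 1) (nat_lit 0) (nat_lit 0) (nat_lit 22209024) (nat_lit 0) w7253 = true := by decide +kernel
theorem cw7254 : wchk (nat_lit 5) [w2122, w220] [] (nat_lit 2) (nat_lit 1) (nat_lit 4) (nat_lit 2) (nat_lit 90319872) (nat_lit 13992964) w7254 = true := by decide +kernel
theorem cw7255 : wchk (nat_lit 5) [w4593, w220] [] (nat_lit 2) (nat_lit 1) (nat_lit 4) (nat_lit 2) (nat_lit 84757504) (nat_lit 13992964) w7255 = true := by decide +kernel
theorem cw7256 : wchk (nat_lit 5) [w1637, w220] [] (nat_lit 2) (nat_lit 1) (nat_lit 4) (nat_lit 2) (nat_lit 86592512) (nat_lit 13992964) w7256 = true := by decide +kernel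
theorem cw7257 : wchk (nat_lit 5) [] [l1608] (nat_lit 18) (nat_lit 1) (nat_lit 2) (nat_lit 0) (nat_lit 5446144) (nat_lit 0) w7257 = true := by decide +kernel
theorem cw7258 : wchk (nat_lit 5) [] [l1632] (nat_lit 1) (nat_lit 0) (nat_lit 4) (nat_lit 0) (nat_lit 1399808) (nat_lit 0) w7258 = true := by decide +kernel
theorem cw7259 : wchk (nat_lit 5) [] [l663] (nat_lit 25) (nat_lit 3) (nat_lit 0) (nat_lit 0) (nat_lit 156797696) (nat_lit 0) w7259 = true := by decide +kernel
theorem cw7260 : wchk (nat_lit 5) [] [l342] (nat_lit 274) (nat_lit 0) (nat_lit 2) (nat_lit 1) (nat_lit 4623616) (nat_lit 0) w7260 = true := by decide +kernel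
theorem cl1680 : lchk (nat_lit 5) [w6776, w1325, w1326, w220, w3, w7258, w15, w7259, w652, w7260, w1519, w888, w7257] (nat_lit 5155490816) (.nod (nat_lit 24320074068429828052809154563) .nil (.nod (nat_lit 20825354652660916850446015859676436287117303954805934802934468713327618439156682280977) (.nod (nat_lit 48401093301198169687052671733631560625578248739157974306005552804751206252544386) (.nod (nat_lit 14820946768321702975099060641053674890669412400) .nil (.dwn (nat_lit 493153820962863864249804395274003544049063694841496980742930684086328) (nat_lit 39281968156)) (.dwn (nat_lit 493153820962863864249804395274003544049063694841496980742930684086328) (nat_lit 39281968156))) .nil (.nod (nat_lit 5285669878811298500458661215133545061675108561793008419574660318327156871449824397336) .nil (.dwn (nat_lit 20785514647477479715462279297606677356747390263499216967029491829873836269811426480144) (nat_lit 39281968156)) .dup)) .nil (.dwn (nat_lit 40990399590010217467069582778394095341727942119502076446020752004155449708380482) (nat_lit 90391600))) .nil) .nil .nil .nil l1680 = true := by decide +kernel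
theorem cw7261 : wchk (nat_lit 5) [] [l1680] (nat_lit 25) (nat_lit 2) (nat_lit 3) (nat_lit 0) (nat_lit 156815616) (nat_lit 0) w7261 = true := by decide +kernel
theorem cw7262 : wchk (nat_lit 5) [w2137, w220] [] (nat_lit 25) (nat_lit 1) (nat_lit 4) (nat_lit 2) (nat_lit 90319872) (nat_lit 13992964) w7262 = true := by decide +kernel
theorem cw7263 : wchk (nat_lit 5) [w2090, w220] [] (nat_lit 25) (nat_lit 1) (nat_lit 4) (nat_lit 2) (nat_lit 90319872) (nat_lit 13992964) w7263 = true := by decide +kernel
theorem cw7264 : wchk (nat_lit 5) [] [l481] (nat_lit 0) (nat_lit 3) (nat_lit 2) (nat_lit 0) (nat_lit 5818880) (nat_lit 0) w7264 = true := by decide +kernel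
theorem cw7265 : wchk (nat_lit 5) [] [l185] (nat_lit 2) (nat_lit 1) (nat_lit 0) (nat_lit 0) (nat_lit 22579968) (nat_lit 0) w7265 = true := by decide +kernel
theorem cw7266 : wchk (nat_lit 5) [] [l203] (nat_lit 2) (nat_lit 1) (nat_lit 0) (nat_lit 0) (nat_lit 22583552) (nat_lit 0) w7266 = true := by decide +kernel
theorem cw7267 : wchk (nat_lit 5) [w1929, w220] [] (nat_lit 2) (nat_lit 1) (nat_lit 2) (nat_lit 2) (nat_lit 84649984) (nat_lit 22250500) w7267 = true := by decide +kernel
theorem cw7268 : wchk (nat_lit 5) [w1929, w220] [] (nat_lit 2) (nat_lit 1) (nat_lit 2) (nat_lit 2) (nat_lit 88836096) (nat_lit 22250500) w7268 = true := by decide +kernel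
theorem cw7269 : wchk (nat_lit 5) [w69, w1637] [] (nat_lit 18) (nat_lit 0) (nat_lit 4) (nat_lit 2) (nat_lit 13742080) (nat_lit 86592516) w7269 = true := by decide +kernel
theorem cw7270 : wchk (nat_lit 5) [w220, w1637] [] (nat_lit 18) (nat_lit 0) (nat_lit 4) (nat_lit 2) (nat_lit 13971456) (nat_lit 86592516) w7270 = true := by decide +kernel
theorem cw7271 : wchk (nat_lit 5) [] [l1201] (nat_lit 274) (nat_lit 0) (nat_lit 2) (nat_lit 1) (nat_lit 5818880) (nat_lit 0) w7271 = true := by decide +kernel
theorem cl1681 : lchk (nat_lit 5) [w7245, w1889, w161, w220, w1637, w1335, w7264, w2627, w7269, w6714, w3766, w7270, w2669, w2106, w2532, w7271, w370, w4262, w6899, w6824, w7265, w7266, w7267, w7268, w6911, w7248, w7249, w7250, w7251, w7252, w7253, w7254, w7255, w7246, w7247, w7261, w7262, w1, w7263, w69] (nat_lit 23282688) .nil (.nod (nat_lit 20785514763269568890983800332290407090789676470801935847909725237161356391267258335386) (.nod (nat_lit 20694215827292354478429591047027651910036028037577813155680781151887957865863652218912) (.nod (nat_lit 14742896882385780980872147746004697535160551480) .nil (.dwn (nat_lit 61794674338670441391506420697273965194724667694940309208794903423048)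 (nat_lit 4922229804)) (.dwn (nat_lit 61794674338670441391506420697273965194724667694940309208794903423048) (nat_lit 4922229804))) .nil (.nod (nat_lit 5240853708592887640181922301095782493820232664744240178234741997824569773392095516784) .nil (.dwn (nat_lit 5031692436614883117740838695371507647239463274821206644533993163169169631795877275720) (nat_lit 4922229760)) .dup)) (.nod (nat_lit 1126605783042469103854715746092410898846875856170466475633361471640) .nil (.dwn (nat_lit 7874781606970928399705893712727664503245076506373355197960588527800) (nat_lit 627262464)) .dup) (.nod (nat_lit 28675731190298859483046852246500164762370318526112587320625538776686953351304676018392) (.dwn (nat_lit 145264088350841664143691876409736172267732429943105231171470887411514072672101888067840) (nat_lit 627262508)) .nil .nil)) (.nod (nat_lit 858984443708492445142124816) .nil .nil (.nod (nat_lit 292297360087019203430594610769526610895594116244062944860661874778) (.dwn (nat_lit 20933286659088714786341935331216068879805631080456570531544255269218179165769549769016) (nat_lit 627262464)) .nil .nil)) .nil l1681 = true := by decide +kernel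
theorem cw7272 : wchk (nat_lit 5) [] [l1681] (nat_lit 1) (nat_lit 3) (nat_lit 1) (nat_lit 0) (nat_lit 5820672) (nat_lit 0) w7272 = true := by decide +kernel
theorem cw7273 : wchk (nat_lit 5) [w162, w3961] [] (nat_lit 17) (nat_lit 0) (nat_lit 3) (nat_lit 2) (nat_lit 22823936) (nat_lit 90269700) w7273 = true := by decide +kernel
theorem cw7274 : wchk (nat_lit 5) [w56, w220] [] (nat_lit 2) (nat_lit 1) (nat_lit 4) (nat_lit 2) (nat_lit 84571136) (nat_lit 13992964) w7274 = true := by decide +kernel
theorem cw7275 : wchk (nat_lit 5) [w220, w3961] [] (nat_lit 0) (nat_lit 1) (nat_lit 3) (nat_lit 2) (nat_lit 22823936) (nat_lit 90269700) w7275 = true := by decide +kernel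
theorem cw7276 : wchk (nat_lit 5) [] [l104] (nat_lit 2) (nat_lit 1) (nat_lit 0) (nat_lit 0) (nat_lit 20614144) (nat_lit 0) w7276 = true := by decide +kernel
theorem cw7277 : wchk (nat_lit 5) [] [l1201] (nat_lit 18) (nat_lit 3) (nat_lit 2) (nat_lit 0) (nat_lit 5802752) (nat_lit 0) w7277 = true := by decide +kernel
theorem cl1682 : lchk (nat_lit 5) [w2405, w1889, w154, w220, w2106, w2532, w2669, w4209, w4256, w2539, w5308, w2538, w638, w7248, w7249, w871, w2536, w2535, w2537, w7276, w7246, w7247, w7277, w7245, w1441, w42, w164] (nat_lit 22630400) .nil (.nod (nat_lit 20785514763269568890983800332290407090789676470801935847909725235980764770549847031898) (.nod (nat_lit 20558096205205248950267021328458718822583300800564150059343035388926810489682859083800) (.nod (nat_lit 426843939870073863323847217308811261086908196904) .nil (.dwn (nat_lit 61786484980662386515649399127503307516301514493417384032472954740736) (nat_lit 4921577472)) .dup) .nil (.nod (nat_lit 5240848150572604249004541969688502076800655683284645809180098734497565658474561574952) .nil (.dwn (nat_lit 1139759475652378098336579400203878649654580275255907412368055469439073004296912879394816)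 (nat_lit 4921577472)) (.opn (nat_lit 1139759475652378098336579400203878649654580275255907412368055469439073004296912879394816)))) (.nod (nat_lit 917112032137188111771846211360909323420489214705530579171676735512) .nil (.dwn (nat_lit 7866592098312431871233819748122764228731557680391511194813714311256) (nat_lit 626610176)) .dup) (.nod (nat_lit 20800464795703088023425927594401435064280161749572112224835662926287196896269016844408) (.dwn (nat_lit 145113017654192236348368025646707606986051378125000093041004488236979351989926464227480) (nat_lit 626610176)) .nil .nil)) (.nod (nat_lit 858982525247108779348756648) .nil (.nod (nat_lit 1134795040616896216860656758457179747319405369794029317006028702106) (.dwn (nat_lit 145262424650103502384583791900811235437559769909880949305259075951179034005073253845200) (nat_lit 626610176)) .nil .nil) (.nod (nat_lit 1134795040616896216860656758457179747319405369794029317006028702106) (.dwn (nat_lit 145262424650103502384583791900811235437559769909880949305259075951179034005073253845200) (nat_lit 626610176)) .nil .nil)) .nil l1682 = true := by decide +kernel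
theorem cw7278 : wchk (nat_lit 5) [] [l1682] (nat_lit 0) (nat_lit 3) (nat_lit 1) (nat_lit 0) (nat_lit 5820672) (nat_lit 0) w7278 = true := by decide +kernel
theorem cw7279 : wchk (nat_lit 5) [] [l1682] (nat_lit 0) (nat_lit 3) (nat_lit 1) (nat_lit 0) (nat_lit 5820672) (nat_lit 0) w7279 = true := by decide +kernel
theorem cw7280 : wchk (nat_lit 5) [] [l1682] (nat_lit 0) (nat_lit 3) (nat_lit 1) (nat_lit 0) (nat_lit 5820672) (nat_lit 0) w7280 = true := by decide +kernel
theorem cw7281 : wchk (nat_lit 5) [] [l1682] (nat_lit 0) (nat_lit 3) (nat_lit 1) (nat_lit 0) (nat_lit 5820672) (nat_lit 0) w7281 = true := by decide +kernel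
theorem cw7282 : wchk (nat_lit 5) [w1326, w16] [] (nat_lit 1) (nat_lit 1) (nat_lit 3) (nat_lit 2) (nat_lit 88893440) (nat_lit 22121476) w7282 = true := by decide +kernel
theorem cw7283 : wchk (nat_lit 5) [w220] [] (nat_lit 0) (nat_lit 1) (nat_lit 4) (nat_lit 2) (nat_lit 18179072) (nat_lit 13992960) w7283 = true := by decide +kernel
theorem cw7284 : wchk (nat_lit 5) [w871, w16] [] (nat_lit 0) (nat_lit 0) (nat_lit 3) (nat_lit 2) (nat_lit 22823936) (nat_lit 22121476) w7284 = true := by decide +kernel
theorem cw7285 : wchk (nat_lit 5) [w871, w16] [] (nat_lit 0) (nat_lit 0) (nat_lit 3) (nat_lit 2) (nat_lit 15483904) (nat_lit 22121476) w7285 = true := by decide +kernel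
theorem cw7286 : wchk (nat_lit 5) [w1139, w16] [] (nat_lit 1) (nat_lit 1) (nat_lit 3) (nat_lit 2) (nat_lit 22816768) (nat_lit 22121476) w7286 = true := by decide +kernel
theorem cw7287 : wchk (nat_lit 5) [w6749, w16] [] (nat_lit 1) (nat_lit 1) (nat_lit 4) (nat_lit 2) (nat_lit 17648640) (nat_lit 17935364) w7287 = true := by decide +kernel
theorem cw7288 : wchk (nat_lit 5) [] [l307] (nat_lit 1) (nat_lit 0) (nat_lit 0) (nat_lit 0) (nat_lit 5806336) (nat_lit 0) w7288 = true := by decide +kernel
theorem cw7289 : wchk (nat_lit 5) [w6967, w16] [] (nat_lit 1) (nat_lit 1) (nat_lit 3) (nat_lit 2) (nat_lit 21655552) (nat_lit 22121476) w7289 = true := by decide +kernel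
theorem cw7290 : wchk (nat_lit 5) [w6749, w16] [] (nat_lit 1) (nat_lit 1) (nat_lit 3) (nat_lit 2) (nat_lit 88771584) (nat_lit 22121476) w7290 = true := by decide +kernel
theorem cw7291 : wchk (nat_lit 5) [w114, w16] [] (nat_lit 1) (nat_lit 1) (nat_lit 4) (nat_lit 2) (nat_lit 81933312) (nat_lit 17935364) w7291 = true := by decide +kernel
theorem cw7292 : wchk (nat_lit 5) [w56, w16] [] (nat_lit 1) (nat_lit 1) (nat_lit 3) (nat_lit 2) (nat_lit 88821760) (nat_lit 22121476) w7292 = true := by decide +kernel
theorem cw7293 : wchk (nat_lit 5) [w6776, w16] [] (nat_lit 1) (nat_lit 1) (nat_lit 3) (nat_lit 2) (nat_lit 88771584) (nat_lit 22121476) w7293 = true := by decide +kernel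
theorem cw7294 : wchk (nat_lit 5) [w5578, w16] [] (nat_lit 17) (nat_lit 1) (nat_lit 3) (nat_lit 2) (nat_lit 88764416) (nat_lit 22121476) w7294 = true := by decide +kernel
theorem cw7295 : wchk (nat_lit 5) [w69] [] (nat_lit 0) (nat_lit 1) (nat_lit 4) (nat_lit 2) (nat_lit 165) (nat_lit 13935616) w7295 = true := by decide +kernel
theorem cl1683 : lchk (nat_lit 5) [w53, w158, w33, w6961] (nat_lit 17648640) (.nod (nat_lit 618971827423609361019175002) (.nod (nat_lit 285096570277066901818998857261115089950410501693958931473286299648) .nil .nil (.dwn (nat_lit 143959306035847029304812385695562580287813897891190732766426894872898982017517607714816) (nat_lit 621628416))) (.nod (nat_lit 3778815244702795118744609236888044877070672457921232474472794) .nil (.opn (nat_lit 7807649309548128809362629570832912485440230981047090061194154956824)) .dup) .nil) (.nod (nat_lit 618971827423609361019174938) .nil (.dwn (nat_lit 1064062950890887072832752922912224777188423773983696436795543650714) (nat_lit 84757504)) .dup) .nil .nil l1683 = true := by decide +kernel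
theorem cw7296 : wchk (nat_lit 5) [] [l1683] (nat_lit 18) (nat_lit 3) (nat_lit 2) (nat_lit 0) (nat_lit 5820672) (nat_lit 0) w7296 = true := by decide +kernel
theorem cw7297 : wchk (nat_lit 5) [] [l812] (nat_lit 18) (nat_lit 3) (nat_lit 4) (nat_lit 0) (nat_lit 5562624) (nat_lit 0) w7297 = true := by decide +kernel
theorem cw7298 : wchk (nat_lit 5) [] [l44] (nat_lit 2) (nat_lit 3) (nat_lit 2) (nat_lit 0) (nat_lit 21293312) (nat_lit 0) w7298 = true := by decide +kernel
theorem cw7299 : wchk (nat_lit 5) [w220, w7298] [] (nat_lit 0) (nat_lit 1) (nat_lit 4) (nat_lit 2) (nat_lit 18695168) (nat_lit 23282692) w7299 = true := by decide +kernel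
theorem cw7300 : wchk (nat_lit 5) [w747, w69] [] (nat_lit 2) (nat_lit 1) (nat_lit 4) (nat_lit 2) (nat_lit 18064384) (nat_lit 13935620) w7300 = true := by decide +kernel
theorem cl1684 : lchk (nat_lit 5) [w6719, w16, w1520, w7295, w7296, w6930, w7297, w638, w149, w261, w7299, w7300, w6749, w69, w56, w302, w6758, w3766, w4548] (nat_lit 15290368) (.nod (nat_lit 290675865443835851442361313481513029714850138491636990796139550729) .nil (.nod (nat_lit 286446448451058336743900216104997052201195334592493306378682271776) .nil (.dwn (nat_lit 924465993523930694417936581534569258796999894260526525540726706821160) (nat_lit 73637964820)) (.dwn (nat_lit 924465993523930694417936581534569258796999894260526525540726706821160) (nat_lit 73637964820))) (.nod (nat_lit 5391907731181465262250539382605146313240122143808058500018228457516027775809001793600) (.dwn (nat_lit 20919981684866990206223883860205440795472917382878754151452181449408617258773724422240) (nat_lit 73637964820)) .nil .nil)) (.nod (nat_lit 15181964921835702484911492229231367703626078320) (.nod (nat_lit 106525822359252638689249632723129299265390811264) .nil (.dwn (nat_lit 7774443391151119385026692037654557844598391649122996973498180739072)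 (nat_lit 619270144)) .dup) .nil (.nod (nat_lit 20903388215310925845020110005754626163801751905385843595854493492871277458168212678720) .nil .nil (.dwn (nat_lit 143413167552107301026973889761104003895127921970265628687680444924685351004194867421184) (nat_lit 619270144)))) (.nod (nat_lit 273398864783883582122977981073779144708072600205989116091710134408) .nil (.dwn (nat_lit 1034456724363459435994562856566924446618377294680217013908835311616) (nat_lit 82399232)) .dup) .nil l1684 = true := by decide +kernel
theorem cw7301 : wchk (nat_lit 5) [] [l1684] (nat_lit 17) (nat_lit 3) (nat_lit 0) (nat_lit 0) (nat_lit 5820672) (nat_lit 0) w7301 = true := by decide +kernel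
theorem cl1685 : lchk (nat_lit 5) [w7237, w167, w220, w455, w1889, w16, w6776, w7238, w7239, w7244, w7272, w7273, w2934, w284, w7274, w2405, w7230, w7275, w7278, w7279, w7280, w7281, w2709, w7282, w2936, w7293, w6719, w7283, w7284, w6749, w7285, w7286, w7287, w7288, w7289, w7290, w1227, w7291, w3958, w7294, w6714, w3766, w7292, w7301] (nat_lit 23282688) (.nod (nat_lit 20584655320921522928695130381719176559319697480614382067585281799902810358554152339472) (.nod (nat_lit 20785517426487621349546971140734153674427702852238357730004404096271482386383336855593) .nil (.nod (nat_lit 292295954016230476814103511552695812378556918243379453259143612488) .nil (.nod (nat_lit 292295853582602710643056693764497856554967556893533898899318065192) (.dwn (nat_lit 9097082327979277086658810880334983351207126540884526779859291641161106807444630874183776) (nat_lit 39281968128)) .nil .nil) .dup) (.nod (nat_lit 5391915141875176450486057019047434396004059789928718030139326901946029894666401695872) (.dwn (nat_lit 20919985390213845800342137765994658255140091481378283699152568347395665555718318491808) (nat_lit 90391636)) .nil .nil)) (.nod (nat_lit 1134705052086417713405226408580008642216939212983213792640527304896)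 .nil (.dwn (nat_lit 7874781858054997815173124277048277173021763981738282272107581049032) (nat_lit 627262464)) (.dwn (nat_lit 7874781858054997815173124277048277173021763981738282272107581049032) (nat_lit 627262464))) (.nod (nat_lit 3541031396609369282833577530928032562236880795804909990740606485616821235264457705712) (.dwn (nat_lit 145264091129851805839280566726090254125522556761810586109930941468516331965285294049560) (nat_lit 627262464)) .nil .nil)) (.nod (nat_lit 15757665178945920726550966419105371340950137136) .nil (.dwn (nat_lit 292297560954274735819122045676236672383942117895473636716336982336) (nat_lit 90391552)) (.dwn (nat_lit 292297560954274735819122045676236672383942117895473636716336982336) (nat_lit 90391552))) .nil (.nod (nat_lit 5391941079303165609029724499470878614992958620434377185384198026602494970615493511296) .nil (.dwn (nat_lit 5031721153053013910654926812609181496872973902120729044069155380573844824756664428864) (nat_lit 4922229844)) .dup) l1685 = true := by decide +kernel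
theorem cw7302 : wchk (nat_lit 5) [] [l1685] (nat_lit 209) (nat_lit 1) (nat_lit 0) (nat_lit 0) (nat_lit 1230557440) (nat_lit 0) w7302 = true := by decide +kernel
theorem cw7303 : wchk (nat_lit 5) [w16] [] (nat_lit 0) (nat_lit 0) (nat_lit 1) (nat_lit 2) (nat_lit 23153664) (nat_lit 23153664) w7303 = true := by decide +kernel
theorem cl1686 : lchk (nat_lit 5) [w1226, w167, w154, w16, w438, w2101, w2669, w932, w366, w871, w5308, w2539, w2538, w638, w2667, w5298, w2536, w2537, w2535, w2534, w2405, w2063, w2529, w1638, w1694] (nat_lit 23153664) (.nod (nat_lit 20584655320921522928695130381719176559304554572281774449654986416126112867672412651610) (.nod (nat_lit 20573036163727004435356028117105943388820271730524644548293340869455887222717718681625) .nil (.nod (nat_lit 286536537415164606386222787354798928649369782073366627162752964648) .nil (.dwn (nat_lit 61793054143387317267896170783561687224908935962791316414216100026368) (nat_lit 4922100736)) (.dwn (nat_lit 61793054143387317267896170783561687224908935962791316414216100026368) (nat_lit 4922100736))) (.dwn (nat_lit 5121328482398560370904431924945579094188199414256690455174260620966270080558388500520)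 (nat_lit 627133440))) (.nod (nat_lit 1133264482346553411716336898983876716368533956706972300882662082632) .nil (.dwn (nat_lit 7873881219498004534216333918924225134367840217246778404150368725088) (nat_lit 627133440)) .dup) (.nod (nat_lit 20694226016996207363374914829688721763434712156862997680110903981603573251467100244040) (.dwn (nat_lit 144993497986018192469981379064549519397068495672988096175927429328665800486695645407384) (nat_lit 626094160)) .nil .nil)) (.nod (nat_lit 856338147590654367714531496) .nil (.dwn (nat_lit 1120126910148900153625421919294070400754962903976081431081967944090) (nat_lit 90262624)) .dup) .nil .nil l1686 = true := by decide +kernel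
theorem cw7304 : wchk (nat_lit 5) [] [l1686] (nat_lit 0) (nat_lit 3) (nat_lit 2) (nat_lit 0) (nat_lit 5820672) (nat_lit 0) w7304 = true := by decide +kernel
theorem cw7305 : wchk (nat_lit 5) [w69] [] (nat_lit 1) (nat_lit 0) (nat_lit 3) (nat_lit 2) (nat_lit 22250496) (nat_lit 16777265) w7305 = true := by decide +kernel
theorem cw7308 : wchk (nat_lit 5) [w167, w37] [] (nat_lit 1) (nat_lit 1) (nat_lit 0) (nat_lit 2) (nat_lit 88893440) (nat_lit 23211012) w7308 = true := by decide +kernel
theorem cw7309 : wchk (nat_lit 5) [w5258, w16] [] (nat_lit 0) (nat_lit 1) (nat_lit 3) (nat_lit 2) (nat_lit 22250496) (nat_lit 22644740) w7309 = true := by decide +kernel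
theorem cw7310 : wchk (nat_lit 5) [w16, w2381] [] (nat_lit 0) (nat_lit 1) (nat_lit 0) (nat_lit 2) (nat_lit 23211008) (nat_lit 22823940) w7310 = true := by decide +kernel
theorem cw7311 : wchk (nat_lit 5) [] [l1170] (nat_lit 2) (nat_lit 1) (nat_lit 3) (nat_lit 0) (nat_lit 22350592) (nat_lit 0) w7311 = true := by decide +kernel
theorem cw7312 : wchk (nat_lit 5) [w433, w16] [] (nat_lit 2) (nat_lit 1) (nat_lit 3) (nat_lit 2) (nat_lit 81101824) (nat_lit 22644740) w7312 = true := by decide +kernel
theorem cw7313 : wchk (nat_lit 5) [] [l1598] (nat_lit 2) (nat_lit 2) (nat_lit 1) (nat_lit 0) (nat_lit 22192896) (nat_lit 0) w7313 = true := by decide +kernel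
theorem cl1688 : lchk (nat_lit 5) [w220] (nat_lit 16777253) .nil (.nod (nat_lit 192948271127367215751555236187377499217712373971842945784341331968) .nil (.nod (nat_lit 1632046451200536998731376502600843022798450028053807212003328) .nil (.dwn (nat_lit 210627056515198115759475078725130888477074679068861493023850103050) (nat_lit 16777349)) .dup) (.nod (nat_lit 45622083159502580998519014544623572692919750460863225254337470110006538726801408) .nil (.dwn (nat_lit 3885368585147195268157533540044248240027777726645330991370115019337539554582561030410) (nat_lit 16777349)) (.opn (nat_lit 3885368585147195268157533540044248240027777726645330991370115019337539554582561030410)))) .nil .nil l1688 = true := by decide +kernel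
theorem cw7314 : wchk (nat_lit 5) [] [l1688] (nat_lit 2) (nat_lit 1) (nat_lit 4) (nat_lit 0) (nat_lit 22597888) (nat_lit 0) w7314 = true := by decide +kernel
theorem cl1689 : lchk (nat_lit 5) [w230] (nat_lit 16777217) .nil (.nod (nat_lit 5152862952605183351330964438874725526563012614715778080835953669733054126714884456448) (.nod (nat_lit 30105943201702210810128456102258856041981545006698028897162954883738528122929538) (.nod (nat_lit 11418069334498344651208836085147339641807962370) .nil (.dwn (nat_lit 1895622869526277090428923489607418746361937969904645223768670601474) (nat_lit 150995073)) .dup) .nil (.dwn (nat_lit 3885382480197903745890357312047251166828663109652858324412552886190382964520265974018) (nat_lit 16777345))) .nil (.nod (nat_lit 30105943201702210810128456102258856041959766935215088835494178465650443070472514) .nil (.dwn (nat_lit 3885375069504192557864476406333572713962033625374851775631560931334906691154981421314) (nat_lit 16777345)) (.opn (nat_lit 3885375069504192557864476406333572713962033625374851775631560931334906691154981421314)))) .nil .nil l1689 = true := by decide +kernel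
theorem cw7315 : wchk (nat_lit 5) [] [l1689] (nat_lit 2) (nat_lit 2) (nat_lit 1) (nat_lit 0) (nat_lit 22597888) (nat_lit 0) w7315 = true := by decide +kernel
theorem cw7316 : wchk (nat_lit 5) [] [l90] (nat_lit 2) (nat_lit 2) (nat_lit 1) (nat_lit 0) (nat_lit 5677312) (nat_lit 0) w7316 = true := by decide +kernel
theorem cw7317 : wchk (nat_lit 5) [w4647, w16] [] (nat_lit 25) (nat_lit 1) (nat_lit 4) (nat_lit 2) (nat_lit 613198848) (nat_lit 18458628) w7317 = true := by decide +kernel
theorem cw7320 : wchk (nat_lit 5) [w1519, w16] [] (nat_lit 25) (nat_lit 1) (nat_lit 2) (nat_lit 2) (nat_lit 89230336) (nat_lit 23160836) w7320 = true := by decide +kernel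
theorem cw7321 : wchk (nat_lit 5) [w433] [] (nat_lit 2) (nat_lit 0) (nat_lit 0) (nat_lit 2) (nat_lit 82456576) (nat_lit 25165905) w7321 = true := by decide +kernel
theorem cw7322 : wchk (nat_lit 5) [] [l188] (nat_lit 2) (nat_lit 2) (nat_lit 1) (nat_lit 0) (nat_lit 22221568) (nat_lit 0) w7322 = true := by decide +kernel
theorem cw7323 : wchk (nat_lit 5) [w433] [] (nat_lit 2) (nat_lit 0) (nat_lit 0) (nat_lit 2) (nat_lit 89796608) (nat_lit 25165905) w7323 = true := by decide +kernel
theorem cw7324 : wchk (nat_lit 5) [w748] [] (nat_lit 1) (nat_lit 1) (nat_lit 4) (nat_lit 2) (nat_lit 82134016) (nat_lit 25165889) w7324 = true := by decide +kernel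
theorem cw7325 : wchk (nat_lit 5) [] [l104] (nat_lit 1) (nat_lit 1) (nat_lit 0) (nat_lit 0) (nat_lit 19581952) (nat_lit 0) w7325 = true := by decide +kernel
theorem cw7326 : wchk (nat_lit 5) [] [l104] (nat_lit 1) (nat_lit 1) (nat_lit 0) (nat_lit 0) (nat_lit 19352576) (nat_lit 0) w7326 = true := by decide +kernel
theorem cw7327 : wchk (nat_lit 5) [w1326] [] (nat_lit 2) (nat_lit 0) (nat_lit 4) (nat_lit 2) (nat_lit 14824448) (nat_lit 25165889) w7327 = true := by decide +kernel
theorem cw7328 : wchk (nat_lit 5) [] [l1598] (nat_lit 26) (nat_lit 0) (nat_lit 1) (nat_lit 1) (nat_lit 22192896) (nat_lit 0) w7328 = true := by decide +kernel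
theorem cw7329 : wchk (nat_lit 5) [] [l1598] (nat_lit 26) (nat_lit 0) (nat_lit 1) (nat_lit 1) (nat_lit 22192896) (nat_lit 0) w7329 = true := by decide +kernel
theorem cw7330 : wchk (nat_lit 5) [] [l1598] (nat_lit 26) (nat_lit 0) (nat_lit 1) (nat_lit 1) (nat_lit 22192896) (nat_lit 0) w7330 = true := by decide +kernel
theorem cw7331 : wchk (nat_lit 5) [] [l491] (nat_lit 34) (nat_lit 3) (nat_lit 2) (nat_lit 0) (nat_lit 5444352) (nat_lit 0) w7331 = true := by decide +kernel
theorem cw7332 : wchk (nat_lit 5) [w6758] [] (nat_lit 2) (nat_lit 0) (nat_lit 0) (nat_lit 2) (nat_lit 23160832) (nat_lit 25165905) w7332 = true := by decide +kernel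
theorem cl1690 : lchk (nat_lit 5) [w7313, w5211, w7316, w16, w7321, w7322, w7323, w7324, w7325, w7326, w5606, w1986, w4650, w7250, w7327, w7328, w7329, w7330, w4593, w2122, w7331, w7332, w7314, w7315, w7317, w7320] (nat_lit 23282688) .nil (.nod (nat_lit 5828025434995643658266870949932861254207681318359325595367664802508533602190486405250) (.nod (nat_lit 20933255163640442235202884211343827088002412484179353564706468889828977757600078843929) (.nod (nat_lit 426892722750195649061993391872129383089721215024) .nil (.dwn (nat_lit 61794673936935930330094004890534986331140902900445162754919889274880) (nat_lit 4922229760)) (.dwn (nat_lit 61794673936935930330094004890534986331140902900445162754919889274880) (nat_lit 4922229760))) .nil (.dwn (nat_lit 5391908657518179160495005899595076182379554846728843366008245308503428521782464170056) (nat_lit 627262464))) (.nod (nat_lit 11224437030308477761811106637871312536028181681876735450820103311464) .nil (.dwn (nat_lit 7874781305670045101145217032276218577072042286332868991423965735048) (nat_lit 627262464)) .dup) (.nod (nat_lit 20664350731636265896530380648882688886639456908221721585910489631393630845676312631448)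 .nil (.dwn (nat_lit 145264080940147952955455368899458620646958758423835359066853426981459278552662127577256) (nat_lit 627262548)) .dup)) (.nod (nat_lit 5391922552568887638438456728113277224912651840987088298088692179914847249731211135160) .nil .nil (.dwn (nat_lit 3885349132076203398826075323603568664699783298562776275279759669436584265035179622466) (nat_lit 23282788))) .nil l1690 = true := by decide +kernel
theorem cw7333 : wchk (nat_lit 5) [] [l1690] (nat_lit 1) (nat_lit 3) (nat_lit 3) (nat_lit 0) (nat_lit 5820672) (nat_lit 0) w7333 = true := by decide +kernel
theorem cw7334 : wchk (nat_lit 5) [w162, w2381] [] (nat_lit 1) (nat_lit 2) (nat_lit 0) (nat_lit 2) (nat_lit 22644736) (nat_lit 22823940) w7334 = true := by decide +kernel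
theorem cw7335 : wchk (nat_lit 5) [] [l511] (nat_lit 2) (nat_lit 3) (nat_lit 0) (nat_lit 0) (nat_lit 22596096) (nat_lit 0) w7335 = true := by decide +kernel
theorem cw7336 : wchk (nat_lit 5) [w7283, w16] [] (nat_lit 2) (nat_lit 1) (nat_lit 2) (nat_lit 2) (nat_lit 22307840) (nat_lit 23160836) w7336 = true := by decide +kernel
theorem cw7337 : wchk (nat_lit 5) [w16] [] (nat_lit 2) (nat_lit 1) (nat_lit 3) (nat_lit 2) (nat_lit 165) (nat_lit 22644736) w7337 = true := by decide +kernel
theorem cw7338 : wchk (nat_lit 5) [] [l178] (nat_lit 2) (nat_lit 3) (nat_lit 1) (nat_lit 0) (nat_lit 5802752) (nat_lit 0) w7338 = true := by decide +kernel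
theorem cw7339 : wchk (nat_lit 5) [w7338, w16] [] (nat_lit 2) (nat_lit 1) (nat_lit 2) (nat_lit 2) (nat_lit 90391552) (nat_lit 23160836) w7339 = true := by decide +kernel
theorem cw7340 : wchk (nat_lit 5) [] [l1053] (nat_lit 2) (nat_lit 2) (nat_lit 1) (nat_lit 0) (nat_lit 20490496) (nat_lit 0) w7340 = true := by decide +kernel
theorem cw7341 : wchk (nat_lit 5) [] [l1056] (nat_lit 2) (nat_lit 2) (nat_lit 1) (nat_lit 0) (nat_lit 20490496) (nat_lit 0) w7341 = true := by decide +kernel
theorem cw7342 : wchk (nat_lit 5) [] [l672] (nat_lit 2) (nat_lit 3) (nat_lit 1) (nat_lit 0) (nat_lit 22481408) (nat_lit 0) w7342 = true := by decide +kernel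
theorem cw7343 : wchk (nat_lit 5) [] [l1217] (nat_lit 1) (nat_lit 2) (nat_lit 1) (nat_lit 0) (nat_lit 30051072) (nat_lit 0) w7343 = true := by decide +kernel
theorem cw7344 : wchk (nat_lit 5) [] [l715] (nat_lit 1) (nat_lit 3) (nat_lit 0) (nat_lit 0) (nat_lit 22597888) (nat_lit 0) w7344 = true := by decide +kernel
theorem cw7345 : wchk (nat_lit 5) [] [l812] (nat_lit 1) (nat_lit 3) (nat_lit 0) (nat_lit 0) (nat_lit 19587328) (nat_lit 0) w7345 = true := by decide +kernel
theorem cw7346 : wchk (nat_lit 5) [] [l1683] (nat_lit 2) (nat_lit 2) (nat_lit 1) (nat_lit 0) (nat_lit 21649920) (nat_lit 0) w7346 = true := by decide +kernel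
theorem cw7347 : wchk (nat_lit 5) [] [l1683] (nat_lit 2) (nat_lit 2) (nat_lit 1) (nat_lit 0) (nat_lit 21678592) (nat_lit 0) w7347 = true := by decide +kernel
theorem cw7348 : wchk (nat_lit 5) [] [l267] (nat_lit 34) (nat_lit 0) (nat_lit 1) (nat_lit 1) (nat_lit 22597888) (nat_lit 0) w7348 = true := by decide +kernel
theorem cl1691 : lchk (nat_lit 5) [w7276, w5211, w521, w1588, w871, w7321, w7342, w7323, w7343, w7344, w7345, w149, w1747, w2740, w2743, w2105, w7325, w6175, w3123, w638, w1986, w7346, w7327, w7347, w7348, w7314, w7337, w7339, w7313, w42, w7340, w164, w7341] (nat_lit 23275520) .nil (.nod (nat_lit 284826610962733126839388571465391197841781638000456419077569642586) (.nod (nat_lit 20556436209813942785289429014817634272781666280881487999618301035665262114366513434656) (.nod (nat_lit 425824380397787476764626904223201134565144305720) .nil (.dwn (nat_lit 61794583948405451826638569662369803047461349181686615735991900983296) (nat_lit 4922222592)) (.dwn (nat_lit 61794583948405451826638569662369803047461349181686615735991900983296) (nat_lit 4922222592))) .nil (.dwn (nat_lit 5391909583854893059024569288162956251882817675610979626500265332018671397131323394128)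 (nat_lit 627255296))) (.nod (nat_lit 1120216346294425943053027952573131010301561914794560783807833362544) .nil (.dwn (nat_lit 7873251249567841126935582721748513647639160212404979749256505256072) (nat_lit 627255296)) .dup) (.nod (nat_lit 20933269985027864612802684339183775960085872527927923597427059787968148887357900410912) .nil (.dwn (nat_lit 145264081866484666853965224850068522342816220743025597630216953743837035719255588767936) (nat_lit 627255296)) (.dwn (nat_lit 145264081866484666853965224850068522342816220743025597630216953743837035719255588767936) (nat_lit 627255296)))) (.nod (nat_lit 801068160570958398830053584) .nil (.nod (nat_lit 20933278322058289698441968925540828825628669717880608354368994115978890400331854774682) (.dwn (nat_lit 144917150240395389561904646297534195302309065781973549106242812490908376871903956521208) (nat_lit 627262592)) .nil .nil) .dup) .nil l1691 = true := by decide +kernel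
theorem cw7349 : wchk (nat_lit 5) [] [l1691] (nat_lit 0) (nat_lit 3) (nat_lit 0) (nat_lit 0) (nat_lit 5820672) (nat_lit 0) w7349 = true := by decide +kernel
theorem cw7350 : wchk (nat_lit 5) [] [l1691] (nat_lit 0) (nat_lit 3) (nat_lit 0) (nat_lit 0) (nat_lit 5820672) (nat_lit 0) w7350 = true := by decide +kernel
theorem cw7351 : wchk (nat_lit 5) [] [l1691] (nat_lit 0) (nat_lit 3) (nat_lit 0) (nat_lit 0) (nat_lit 5820672) (nat_lit 0) w7351 = true := by decide +kernel
theorem cw7352 : wchk (nat_lit 5) [] [l1691] (nat_lit 0) (nat_lit 3) (nat_lit 0) (nat_lit 0) (nat_lit 5820672) (nat_lit 0) w7352 = true := by decide +kernel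
theorem cw7353 : wchk (nat_lit 5) [] [l1170] (nat_lit 1) (nat_lit 2) (nat_lit 3) (nat_lit 0) (nat_lit 5530368) (nat_lit 0) w7353 = true := by decide +kernel
theorem cw7354 : wchk (nat_lit 5) [w267, w16] [] (nat_lit 0) (nat_lit 0) (nat_lit 0) (nat_lit 2) (nat_lit 23275520) (nat_lit 23211012) w7354 = true := by decide +kernel
theorem cw7355 : wchk (nat_lit 5) [w144, w16] [] (nat_lit 0) (nat_lit 1) (nat_lit 2) (nat_lit 2) (nat_lit 6072320) (nat_lit 23160836) w7355 = true := by decide +kernel
theorem cw7356 : wchk (nat_lit 5) [w433, w16] [] (nat_lit 1) (nat_lit 1) (nat_lit 0) (nat_lit 2) (nat_lit 82456576) (nat_lit 23211012) w7356 = true := by decide +kernel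
theorem cw7357 : wchk (nat_lit 5) [w433, w16] [] (nat_lit 1) (nat_lit 1) (nat_lit 0) (nat_lit 2) (nat_lit 89796608) (nat_lit 23211012) w7357 = true := by decide +kernel
theorem cw7358 : wchk (nat_lit 5) [w747, w16] [] (nat_lit 1) (nat_lit 1) (nat_lit 3) (nat_lit 2) (nat_lit 89932800) (nat_lit 21662724) w7358 = true := by decide +kernel
theorem cw7359 : wchk (nat_lit 5) [] [l104] (nat_lit 1) (nat_lit 1) (nat_lit 0) (nat_lit 0) (nat_lit 19352576) (nat_lit 0) w7359 = true := by decide +kernel
theorem cw7360 : wchk (nat_lit 5) [w1191, w16] [] (nat_lit 1) (nat_lit 1) (nat_lit 0) (nat_lit 2) (nat_lit 22816768) (nat_lit 23211012) w7360 = true := by decide +kernel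
theorem cw7361 : wchk (nat_lit 5) [w6749, w16] [] (nat_lit 1) (nat_lit 1) (nat_lit 0) (nat_lit 2) (nat_lit 85603328) (nat_lit 23211012) w7361 = true := by decide +kernel
theorem cw7362 : wchk (nat_lit 5) [w6967, w16] [] (nat_lit 1) (nat_lit 1) (nat_lit 0) (nat_lit 2) (nat_lit 23225344) (nat_lit 23211012) w7362 = true := by decide +kernel
theorem cw7363 : wchk (nat_lit 5) [w6749, w16] [] (nat_lit 1) (nat_lit 1) (nat_lit 0) (nat_lit 2) (nat_lit 86649856) (nat_lit 23211012) w7363 = true := by decide +kernel
theorem cw7364 : wchk (nat_lit 5) [w1326, w16] [] (nat_lit 1) (nat_lit 2) (nat_lit 4) (nat_lit 2) (nat_lit 10695680) (nat_lit 18458628) w7364 = true := by decide +kernel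
theorem cw7365 : wchk (nat_lit 5) [w6797, w16] [] (nat_lit 1) (nat_lit 2) (nat_lit 4) (nat_lit 2) (nat_lit 76378112) (nat_lit 18458628) w7365 = true := by decide +kernel
theorem cw7366 : wchk (nat_lit 5) [w6928, w16] [] (nat_lit 17) (nat_lit 1) (nat_lit 0) (nat_lit 2) (nat_lit 22644736) (nat_lit 23211012) w7366 = true := by decide +kernel
theorem cw7367 : wchk (nat_lit 5) [w5321, w16] [] (nat_lit 17) (nat_lit 1) (nat_lit 0) (nat_lit 2) (nat_lit 626624512) (nat_lit 23211012) w7367 = true := by decide +kernel
theorem cl1692 : lchk (nat_lit 5) [w7310, w16, w5211, w7353, w7356, w7311, w7357, w7366, w7367, w7358, w7276, w7359, w284, w7360, w7361, w7362, w7363, w2381, w7354, w7355, w7364, w6841, w7077, w7365, w7312, w7333, w2934, w7334, w7335, w7336, w7349, w7350, w7351, w7352] (nat_lit 23282688) .nil (.nod (nat_lit 5375303145584834119826529092956497276807122388779704822716220635230549325765982640136) (.nod (nat_lit 5391904952171323566376752345323555904366420592477596849081432133317979785264291336201) (.nod (nat_lit 15845387250879203294864081240807699932141488176) .nil (.dwn (nat_lit 292295954016230476829909864332700780979580082032450935053664733192)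 (nat_lit 23282720)) (.dwn (nat_lit 292295954016230476829909864332700780979580082032450935053664733192) (nat_lit 23282720))) .nil (.nod (nat_lit 5391910510191606957554132676730836321386041478189018458379483591560678894657834797144) (.dwn (nat_lit 20933264427007581221633312685688199052038920029585442074921199281333489649072099207296) (nat_lit 4922229760)) .nil .nil)) (.nod (nat_lit 273488853314362085578398530818782926786125864802728068385509640344) .nil (.dwn (nat_lit 291395918061003792995307111529060773511322029883593118596443953200) (nat_lit 627262464)) (.dwn (nat_lit 291395918061003792995307111529060773511322029883593118596443953200) (nat_lit 627262464))) (.nod (nat_lit 5391917920885318146081406436440111626418431762498003887218590406276767447125070629032) .nil (.dwn (nat_lit 5284022852133986915187253098928034091183084010091883531723906406182662446307566342336) (nat_lit 627262464)) (.dwn (nat_lit 5284022852133986915187253098928034091183084010091883531723906406182662446307566342336) (nat_lit 627262464)))) (.nod (nat_lit 5391906804844751363435879122459316043357183796269173770972783878892514080150851848384) .nil (.nod (nat_lit 5390243104106589604340033254546711215512993457547814693360392474139072822810687000584)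 (.dwn (nat_lit 20704198031721325034139461546204246509508899297780408949461776545600575759417247750352) (nat_lit 627262464)) .nil .nil) .dup) (.nod (nat_lit 5390251441137014691398400760226953862802985284533712684734932165599187243911874826328) (.dwn (nat_lit 20933280174731717496634360436107211791758626059261275395459157422271668856796335212800) (nat_lit 90391684)) .nil .nil) l1692 = true := by decide +kernel
theorem cw7368 : wchk (nat_lit 5) [] [l1692] (nat_lit 25) (nat_lit 1) (nat_lit 1) (nat_lit 0) (nat_lit 22597888) (nat_lit 0) w7368 = true := by decide +kernel
theorem cw7369 : wchk (nat_lit 5) [w69, w16] [] (nat_lit 2) (nat_lit 1) (nat_lit 4) (nat_lit 2) (nat_lit 10724352) (nat_lit 18458628) w7369 = true := by decide +kernel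
theorem cw7370 : wchk (nat_lit 5) [w2740, w16] [] (nat_lit 2) (nat_lit 1) (nat_lit 4) (nat_lit 2) (nat_lit 10724352) (nat_lit 18458628) w7370 = true := by decide +kernel
theorem cw7371 : wchk (nat_lit 5) [w1637, w16] [] (nat_lit 1) (nat_lit 1) (nat_lit 4) (nat_lit 2) (nat_lit 13742080) (nat_lit 17935364) w7371 = true := by decide +kernel
theorem cw7372 : wchk (nat_lit 5) [w2726, w16] [] (nat_lit 0) (nat_lit 1) (nat_lit 4) (nat_lit 2) (nat_lit 10724352) (nat_lit 18458628) w7372 = true := by decide +kernel
theorem cw7373 : wchk (nat_lit 5) [w16, w6572] [] (nat_lit 3) (nat_lit 0) (nat_lit 4) (nat_lit 2) (nat_lit 18523136) (nat_lit 18179076) w7373 = true := by decide +kernel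
theorem cw7374 : wchk (nat_lit 5) [w16, w2517] [] (nat_lit 3) (nat_lit 0) (nat_lit 2) (nat_lit 2) (nat_lit 18179072) (nat_lit 23160836) w7374 = true := by decide +kernel
theorem cl1693 : lchk (nat_lit 5) [w6841, w56, w16, w1326, w7369, w6797, w748, w871, w1202, w2743, w1139, w7235, w7370, w6749, w7285, w2517, w6572, w7371, w7372, w7373, w2938, w7374] (nat_lit 11297792) (.nod (nat_lit 5031684099584457969470769423733098183084308081261335667492181808338933256651586885649) .nil (.nod (nat_lit 1114366690078812153640973868158956869281130121125135447563467008040) .nil (.dwn (nat_lit 7724319779674592960349269949647468835086970300612307430608702326784) (nat_lit 615277568)) (.dwn (nat_lit 7724319779674592960349269949647468835086970300612307430608702326784) (nat_lit 615277568))) (.nod (nat_lit 5166148357963826825297984727417647534050233067785397754869644920672752104185045534792) (.dwn (nat_lit 20689243251812147172018418287092644549321011599280993316071332161898282571584788285552) (nat_lit 615277568)) .nil .nil)) (.nod (nat_lit 5016744141062702484381762685302687499941402801842444307707370097889426483089348186129) (.nod (nat_lit 60448965620543876456405244007667585013044013096)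 .nil (.dwn (nat_lit 7776873081474038978323443198114506503946342055603766484553864611840) (nat_lit 619463680)) (.dwn (nat_lit 7776873081474038978323443198114506503946342055603766484553864611840) (nat_lit 619463680))) .nil (.nod (nat_lit 5285668026137870703399534437997784922668582920362289510795873094213818453133972031560) (.dwn (nat_lit 20795482956855741731433303917881779364949419344241052241775473358348349882210828322928) (nat_lit 619463680)) .nil .nil)) (.nod (nat_lit 290676562202128479379688585553659462346848517898574327905304365184) .nil (.nod (nat_lit 1127325038467716651283744452829016738277896735012043527616419391528) (.dwn (nat_lit 145264079087474525158396152033358754238309861411941162883725944912464718381428240713896) (nat_lit 615277568)) .nil .nil) .dup) .nil l1693 = true := by decide +kernel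
theorem cw7375 : wchk (nat_lit 5) [] [l1693] (nat_lit 2) (nat_lit 3) (nat_lit 3) (nat_lit 0) (nat_lit 5820672) (nat_lit 0) w7375 = true := by decide +kernel
theorem cw7376 : wchk (nat_lit 5) [w448, w16] [] (nat_lit 2) (nat_lit 1) (nat_lit 3) (nat_lit 2) (nat_lit 82478080) (nat_lit 22644740) w7376 = true := by decide +kernel
theorem cw7377 : wchk (nat_lit 5) [w448, w16] [] (nat_lit 2) (nat_lit 1) (nat_lit 4) (nat_lit 2) (nat_lit 81044480) (nat_lit 18458628) w7377 = true := by decide +kernel
theorem cl1694 : lchk (nat_lit 5) [w831, w29, w1535] (nat_lit 56765440) (.nod (nat_lit 618970646831988643607871514) .nil (.nod (nat_lit 618970646831988643607871514) .nil .nil (.dwn (nat_lit 291395767410562143699123348663092447352916501546272065938094293018) (nat_lit 626689032))) .nil) (.nod (nat_lit 618971827423609361019175002) (.nod (nat_lit 426843928981038121830698558352384884909325418906) .nil (.dwn (nat_lit 61793774051631145295539652608883153494345365712859692565640006359040) (nat_lit 4922158080)) (.opn (nat_lit 61793774051631145295539652608883153494345365712859692565640006359040))) .nil (.dwn (nat_lit 145247462459500613327213396334502431476051161221203204566049916654509589229722109215066)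 (nat_lit 627190784))) .nil .nil l1694 = true := by decide +kernel
theorem cw7378 : wchk (nat_lit 5) [] [l1694] (nat_lit 2) (nat_lit 3) (nat_lit 0) (nat_lit 0) (nat_lit 5820672) (nat_lit 0) w7378 = true := by decide +kernel
theorem cw7379 : wchk (nat_lit 5) [] [l22] (nat_lit 25) (nat_lit 3) (nat_lit 0) (nat_lit 0) (nat_lit 156426752) (nat_lit 0) w7379 = true := by decide +kernel
theorem cw7380 : wchk (nat_lit 5) [w2137, w16] [] (nat_lit 25) (nat_lit 1) (nat_lit 3) (nat_lit 2) (nat_lit 86649856) (nat_lit 22644740) w7380 = true := by decide +kernel
theorem cw7381 : wchk (nat_lit 5) [w2090, w16] [] (nat_lit 25) (nat_lit 1) (nat_lit 3) (nat_lit 2) (nat_lit 86649856) (nat_lit 22644740) w7381 = true := by decide +kernel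
theorem cw7382 : wchk (nat_lit 5) [w1637, w16] [] (nat_lit 25) (nat_lit 1) (nat_lit 3) (nat_lit 2) (nat_lit 90262528) (nat_lit 22644740) w7382 = true := by decide +kernel
theorem cw7383 : wchk (nat_lit 5) [] [l1579] (nat_lit 1) (nat_lit 1) (nat_lit 0) (nat_lit 0) (nat_lit 22579968) (nat_lit 0) w7383 = true := by decide +kernel
theorem cl1695 : lchk (nat_lit 5) [w3764, w161, w154, w201, w2106, w436, w554, w3, w12, w5376, w13, w2104, w2103, w2105, w5377, w5378, w7383, w42, w164] (nat_lit 21727232) (.nod (nat_lit 20694215016747729817216223082030756849205530153292771575975584235132384081022608736346) (.nod (nat_lit 20573036163727004435065352151228479771191018195670500747256756531067698534538555687067) .nil (.nod (nat_lit 815874255234280633344911384) .nil .nil (.dwn (nat_lit 61794584149272707355662462996880111024523317392232350233181525377050) (nat_lit 4922222608))) .nil) (.nod (nat_lit 1550284087654664729938726301757663221713513212779897976318741631032) .nil (.dwn (nat_lit 7855253091520815488007526929989146588837631094298219970831666581504) (nat_lit 625707008)) (.opn (nat_lit 7855253091520815488007526929989146588837631094298219970831666581504)))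 (.nod (nat_lit 5362029666811382090562612041891271587811629810411968277810196082836028214926447908944) (.opn (nat_lit 145262412607726221703711615648224812020285914356461834737526473432851798794002536747112)) (.dwn (nat_lit 145262412607726221703711615648224812020285914356461834737526473432851798794002536747112) (nat_lit 625707008)) .dup)) (.nod (nat_lit 834914836893211042847565848) .nil (.nod (nat_lit 1134704650351906648657652623023401895409139623281282017446798033306) (.dwn (nat_lit 145264077234801097361324876704174768366633082871833502759158351721392154604019136153744) (nat_lit 625707008)) .nil .nil) .dup) .nil .nil l1695 = true := by decide +kernel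
theorem cw7384 : wchk (nat_lit 5) [] [l1695] (nat_lit 18) (nat_lit 3) (nat_lit 2) (nat_lit 0) (nat_lit 5820672) (nat_lit 0) w7384 = true := by decide +kernel
theorem cw7385 : wchk (nat_lit 5) [w220, w1637] [] (nat_lit 18) (nat_lit 0) (nat_lit 3) (nat_lit 2) (nat_lit 22307840) (nat_lit 90262532) w7385 = true := by decide +kernel
theorem cw7386 : wchk (nat_lit 5) [] [l864] (nat_lit 34) (nat_lit 0) (nat_lit 0) (nat_lit 1) (nat_lit 22192896) (nat_lit 0) w7386 = true := by decide +kernel
theorem cw7387 : wchk (nat_lit 5) [w15, w16] [] (nat_lit 0) (nat_lit 1) (nat_lit 2) (nat_lit 2) (nat_lit 22114304) (nat_lit 23160836) w7387 = true := by decide +kernel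
theorem cw7388 : wchk (nat_lit 5) [w7387] [] (nat_lit 2) (nat_lit 0) (nat_lit 3) (nat_lit 2) (nat_lit 23282688) (nat_lit 25165905) w7388 = true := by decide +kernel
theorem cw7389 : wchk (nat_lit 5) [] [l192] (nat_lit 2) (nat_lit 1) (nat_lit 0) (nat_lit 0) (nat_lit 22579968) (nat_lit 0) w7389 = true := by decide +kernel
theorem cw7390 : wchk (nat_lit 5) [] [l864] (nat_lit 34) (nat_lit 0) (nat_lit 0) (nat_lit 1) (nat_lit 22192896) (nat_lit 0) w7390 = true := by decide +kernel
theorem cl1696 : lchk (nat_lit 5) [w3791, w2037, w161, w16, w2107, w2089, w2529, w2669, w3764, w2532, w284, w7384, w7385, w7256, w325, w7378, w390, w330, w5298, w2667, w7250, w7251, w7252, w7253, w7386, w7388, w7389, w7390, w2063, w7379, w7380, w1, w7381, w69, w7382] (nat_lit 21662720) .nil (.nod (nat_lit 5044964178506996526317027440772109856012284338364824902766866288329628994443415650458) (.nod (nat_lit 20694215827292354478429591047027651910036647580155359834552437284724386019381469204505) (.nod (nat_lit 426843939870073863323871018035884924098787561512) .nil (.dwn (nat_lit 61786485281963269810876430087531865175665546736387112863657947908120) (nat_lit 4921577496))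 (.dwn (nat_lit 61786485281963269810876430087531865175665546736387112863657947908120) (nat_lit 4921577496))) .nil (.nod (nat_lit 5240849076909318147534105358256382146302864810122928303832058539054361422205526644808) (.dwn (nat_lit 20933262574334153485234065809207750688134664780237239364434683681752882336582864373864) (nat_lit 4920609792)) .nil .nil)) (.nod (nat_lit 1122556198737308682174560267893314884710585470096756804784903202944) .nil (.dwn (nat_lit 7854443194746508956908609876502497035721647625471296800479771957248) (nat_lit 625642496)) .dup) (.nod (nat_lit 20782209478082289701319329452968189744392129760931718299941350911923377168259556477088) (.opn (nat_lit 145264081866484666853984932338243314599555467366126069648397427945175467654673933437120)) (.dwn (nat_lit 145264085571831522448103186093382090409942303124399876233010833353921517568559769094336) (nat_lit 625642496)) .dup)) (.nod (nat_lit 858719253315688796637253856) .nil .nil (.nod (nat_lit 292297058786135904869917946651634296927606143331001610587005255770) (.dwn (nat_lit 20933281101068431395164554698507905164225377443045860654624147155213660579402737805576) (nat_lit 90391688))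 .nil .nil)) .nil l1696 = true := by decide +kernel
theorem cw7391 : wchk (nat_lit 5) [] [l1696] (nat_lit 1) (nat_lit 3) (nat_lit 1) (nat_lit 0) (nat_lit 5820672) (nat_lit 0) w7391 = true := by decide +kernel
theorem cw7392 : wchk (nat_lit 5) [] [l129] (nat_lit 3) (nat_lit 2) (nat_lit 3) (nat_lit 0) (nat_lit 22449152) (nat_lit 0) w7392 = true := by decide +kernel
theorem cw7393 : wchk (nat_lit 5) [] [l1315] (nat_lit 3) (nat_lit 3) (nat_lit 3) (nat_lit 0) (nat_lit 20275456) (nat_lit 0) w7393 = true := by decide +kernel
theorem cw7394 : wchk (nat_lit 5) [w220] [] (nat_lit 0) (nat_lit 1) (nat_lit 4) (nat_lit 2) (nat_lit 18688000) (nat_lit 15025152) w7394 = true := by decide +kernel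
theorem cw7395 : wchk (nat_lit 5) [w69, w162] [] (nat_lit 1) (nat_lit 1) (nat_lit 4) (nat_lit 2) (nat_lit 14853120) (nat_lit 18695172) w7395 = true := by decide +kernel
theorem cw7396 : wchk (nat_lit 5) [w2740, w162] [] (nat_lit 1) (nat_lit 1) (nat_lit 4) (nat_lit 2) (nat_lit 14853120) (nat_lit 18695172) w7396 = true := by decide +kernel
theorem cw7397 : wchk (nat_lit 5) [w1202, w162] [] (nat_lit 1) (nat_lit 1) (nat_lit 1) (nat_lit 2) (nat_lit 6531072) (nat_lit 22709252) w7397 = true := by decide +kernel
theorem cw7398 : wchk (nat_lit 5) [] [l1554] (nat_lit 209) (nat_lit 3) (nat_lit 3) (nat_lit 0) (nat_lit 5444352) (nat_lit 0) w7398 = true := by decide +kernel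
theorem cw7399 : wchk (nat_lit 5) [w16, w6572] [] (nat_lit 3) (nat_lit 0) (nat_lit 4) (nat_lit 2) (nat_lit 18064384) (nat_lit 18179076) w7399 = true := by decide +kernel
theorem cl1697 : lchk (nat_lit 5) [w6841, w56, w162, w1326, w7369, w6797, w748, w7392, w1202, w7393, w1889, w7394, w7370, w2945, w7285, w721, w16, w7395, w7398, w871, w2743, w1139, w7396, w7397, w2517, w114, w6572, w7371, w7372, w7373, w7399, w2938, w7374] (nat_lit 11297792) (.nod (nat_lit 5031684099584457969465190134843430968847626388876727150936224719544519399927422027793) .nil (.nod (nat_lit 1114366690078812153640973868158956869281130121125135447563467008040) .nil (.nod (nat_lit 7724319779674592960349269949647468835086970300612307430608702326784) .nil (.dwn (nat_lit 61644213113975872552606303398348536018927085136154547107323465746432) (nat_lit 4910244864)) (.dwn (nat_lit 61644213113975872552606303398348536018927085136154547107323465746432) (nat_lit 4910244864))) (.dwn (nat_lit 7724319779674592960349269949647468835086970300612307430608702326784) (nat_lit 615277568))) (.nod (nat_lit 5166148357963826825305183809855927810484661057959086163328944390084899016087205218376)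 (.dwn (nat_lit 20664343320942554698204230998263114071634016633421545836191246986465784616672940050544) (nat_lit 615277568)) .nil .nil)) (.nod (nat_lit 5152876731863802591958219843821941560439809643206015050933362866832461697092393586817) (.nod (nat_lit 60448965620543876456407361546313294279893116968) .nil (.dwn (nat_lit 1134794839749640684486872302100623527839876370581601738225548167312) (nat_lit 90391624)) (.dwn (nat_lit 1134794839749640684486872302100623527839876370581601738225548167312) (nat_lit 90391624))) .nil (.nod (nat_lit 5285668026137870703399534437997784922668582953029396735205965586697780766583720331424) (.dwn (nat_lit 20795493146559594615259221602540426988109549711216472517837008205587665794462023846072) (nat_lit 90391624)) .nil .nil)) (.nod (nat_lit 290677014153453427220469451128502715430921429296272116061433415888) .nil (.nod (nat_lit 1127325038467716651283744452829016738277894620867598727912127785000) (.dwn (nat_lit 145264088350841664143691786421205693764276999593228060066365088253043874922374210308352) (nat_lit 615277568)) .nil .nil) .dup) .nil l1697 = true := by decide +kernel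
theorem cw7400 : wchk (nat_lit 5) [] [l1697] (nat_lit 25) (nat_lit 3) (nat_lit 3) (nat_lit 0) (nat_lit 5820672) (nat_lit 0) w7400 = true := by decide +kernel
theorem cw7401 : wchk (nat_lit 5) [] [l268] (nat_lit 2) (nat_lit 1) (nat_lit 0) (nat_lit 0) (nat_lit 22334464) (nat_lit 0) w7401 = true := by decide +kernel
theorem cw7402 : wchk (nat_lit 5) [] [l1253] (nat_lit 0) (nat_lit 2) (nat_lit 1) (nat_lit 0) (nat_lit 3319040) (nat_lit 0) w7402 = true := by decide +kernel
theorem cl1699 : lchk (nat_lit 5) [] (nat_lit 417) .nil (.nod (nat_lit 89391492891208418804794540053369000689091340218382999086914502751778912088358912) .nil (.nod (nat_lit 210629416705450621151442452484266942712013744168834143367781679104) .nil .nil (.nod (nat_lit 1895626083402365608318130636808394999906673782793695423286317416448) .nil (.opn (nat_lit 15375599416977685506473733109931442088167665025888724679337646752514)) .dup)) (.opn (nat_lit 45622083159502791626303673544044175718683816907944353348372064309035137142620930))) .nil (.nod (nat_lit 5828015245291790774156847064723447362832401659135283821157176149077929441187218849792) .nil .nil .nil) l1699 = true := by decide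 +kernel
theorem cl1700 : lchk (nat_lit 5) [] (nat_lit 417) .nil (.nod (nat_lit 89391492891208418804794540053369000689091340218382999086914502751778912088358912) .nil (.nod (nat_lit 210629416705450621151442452484266942712013744168834143367781679104) .nil .nil (.nod (nat_lit 1895626083402365608318130636808394999906673782793695423286317416448) .nil (.opn (nat_lit 283629747424865157103087513962869902565954178629432004734166587230108436412405460762624)) .dup)) (.opn (nat_lit 45622083159502791626303673544044175718683816907944353348372064309035137142620930))) .nil (.nod (nat_lit 5828015245291790774156847064723447362832401659135283821157176149077929441187218849792) .nil .nil .nil) l1700 = true := by decide +kernel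
theorem cl1701 : lchk (nat_lit 5) [] (nat_lit 16777297) .nil (.nod (nat_lit 915) .nil (.nod (nat_lit 2623828525391632559425598008273756839658475161692445538779136) .nil .nil (.dwn (nat_lit 210625499793967739862645699172273704958449934921556694775877337088) (nat_lit 16777425))) (.nod (nat_lit 22836010042261993186440533456887747766137127172) (.opn (nat_lit 11417993111248154360993020879531085284434247826)) .nil .nil)) .nil .nil l1701 = true := by decide +kernel
theorem cw7408 : wchk (nat_lit 5) [] [l419] (nat_lit 33) (nat_lit 3) (nat_lit 1) (nat_lit 0) (nat_lit 5820672) (nat_lit 0) w7408 = true := by decide +kernel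
theorem cw7409 : wchk (nat_lit 5) [] [l1253] (nat_lit 1) (nat_lit 0) (nat_lit 0) (nat_lit 0) (nat_lit 3319040) (nat_lit 0) w7409 = true := by decide +kernel
theorem cw7410 : wchk (nat_lit 5) [w16, w220] [] (nat_lit 3) (nat_lit 0) (nat_lit 4) (nat_lit 2) (nat_lit 13935616) (nat_lit 6129668) w7410 = true := by decide +kernel
theorem cw7411 : wchk (nat_lit 5) [w2743] [] (nat_lit 0) (nat_lit 0) (nat_lit 4) (nat_lit 2) (nat_lit 16777257) (nat_lit 10724352) w7411 = true := by decide +kernel
theorem cw7412 : wchk (nat_lit 5) [w2740, w220] [] (nat_lit 1) (nat_lit 1) (nat_lit 4) (nat_lit 2) (nat_lit 14853120) (nat_lit 18695172) w7412 = true := by decide +kernel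
theorem cw7413 : wchk (nat_lit 5) [w220, w2743] [] (nat_lit 0) (nat_lit 0) (nat_lit 4) (nat_lit 2) (nat_lit 18179072) (nat_lit 10724356) w7413 = true := by decide +kernel
theorem cw7414 : wchk (nat_lit 5) [w871, w220] [] (nat_lit 1) (nat_lit 1) (nat_lit 4) (nat_lit 2) (nat_lit 15025152) (nat_lit 18695172) w7414 = true := by decide +kernel
theorem cw7415 : wchk (nat_lit 5) [w1637, w220] [] (nat_lit 1) (nat_lit 1) (nat_lit 4) (nat_lit 2) (nat_lit 13742080) (nat_lit 18695172) w7415 = true := by decide +kernel
theorem cw7416 : wchk (nat_lit 5) [w2726, w220] [] (nat_lit 0) (nat_lit 0) (nat_lit 4) (nat_lit 2) (nat_lit 14853120) (nat_lit 18695172) w7416 = true := by decide +kernel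
theorem cw7417 : wchk (nat_lit 5) [w3766, w220] [] (nat_lit 0) (nat_lit 0) (nat_lit 4) (nat_lit 2) (nat_lit 15369216) (nat_lit 18695172) w7417 = true := by decide +kernel
theorem cw7418 : wchk (nat_lit 5) [w69, w220] [] (nat_lit 1) (nat_lit 2) (nat_lit 4) (nat_lit 2) (nat_lit 18458624) (nat_lit 15025156) w7418 = true := by decide +kernel
theorem cl1702 : lchk (nat_lit 5) [w7235, w56, w1184, w220, w748, w1747, w2743, w1326, w7418, w6798, w6797, w7394, w1202, w7233, w871, w7411, w1139, w7412, w7413, w6749, w7414, w6572, w7415, w7416, w7373, w7399, w6719, w7417] (nat_lit 90334208) (.nod (nat_lit 5031684099584457969466539956523506785292400873198504304314676953956941501445033330712) .nil (.nod (nat_lit 273488200495781605348822055164988688294587796927577614681319755824) .nil (.dwn (nat_lit 1133894402059902935858989632390263164636363129235397627820978415696) (nat_lit 90391596)) .dup) (.nod (nat_lit 5166146505290399027953761078703937194664031894086635700702221821864830924279915300912) .nil (.dwn (nat_lit 20903379878280500758254039508643705538272698696713280710663711992927460920573061179472) (nat_lit 22709248)) .dup)) (.nod (nat_lit 5152866542159949708133022569575260795903298982584687139726053357151466927016510965808)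 (.nod (nat_lit 14825838667628558205693375407468806115648137296) .nil (.dwn (nat_lit 1134074027603162761161360435424819479884343960391766967191874095104) (nat_lit 90334208)) (.dwn (nat_lit 1134074027603162761161360435424819479884343960391766967191874095104) (nat_lit 90334208))) .nil (.nod (nat_lit 5285666173464442906340407660862024783662057287098347408120054822248811418056215054384) (.dwn (nat_lit 20795488514876025122611404408616957225126044072345418940070511324330208731260344764576) (nat_lit 90334208)) .nil .nil)) (.nod (nat_lit 272768292251953577720166057622115235592177205984182811356325136552) .nil (.nod (nat_lit 1127325239334972183611910646909375141246337466566978385894405892176) (.dwn (nat_lit 145264083719158094651043969227282224001293454895385801835597792537131485820199585089752) (nat_lit 7069656064)) .nil .nil) .dup) .nil l1702 = true := by decide +kernel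
theorem cw7419 : wchk (nat_lit 5) [] [l1702] (nat_lit 2) (nat_lit 3) (nat_lit 3) (nat_lit 0) (nat_lit 5820672) (nat_lit 0) w7419 = true := by decide +kernel
theorem cl1703 : lchk (nat_lit 5) [w2405, w2037, w154, w16, w2106, w2532, w2669, w250, w932, w871, w2539, w5308, w2538, w638, w5298, w2667, w2536, w2535, w2537, w2534, w1694, w2063, w1638, w3791] (nat_lit 22630400) .nil (.nod (nat_lit 5044964178506996526317027440772109856012284338364824902766866287149037373726004346970) (.nod (nat_lit 20558096205205248950267021328458718822583920343141696738214724842928715724006983159833) (.nod (nat_lit 426843939870073863323847217308811261086908196904) .nil (.dwn (nat_lit 61786484980662386515649399127503307516301514493417384032472954740736) (nat_lit 4921577472)) (.dwn (nat_lit 61786484980662386515649399127503307516301514493417384032472954740736) (nat_lit 4921577472))) .nil (.dwn (nat_lit 5240848150572604249004541969688502076800655683284645809180952954663788745806358681640) (nat_lit 626610176))) (.nod (nat_lit 1122555847219611500520349664849075423180704624082996898374314444872) .nil (.dwn (nat_lit 7866592148529245754327265861531338549760396717064925562569812519008)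 (nat_lit 626610176)) (.opn (nat_lit 7866592148529245754327265861531338549760396717064925562569812519008))) (.nod (nat_lit 20800465722039801921954591147881343982322123266159744569714690648519882388768420087880) (.opn (nat_lit 145113017654192236348368025646707606986051378125000093041004464171799755286214452881560)) (.dwn (nat_lit 145113017654192236348368025646707606986051729361736969898318943359362549497908172073112) (nat_lit 627140688)) .dup)) (.nod (nat_lit 858718220298020668902363304) .nil (.dwn (nat_lit 1133265235598761658117238317454518602840244560471844044854869885338) (nat_lit 90269776)) .dup) .nil l1703 = true := by decide +kernel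
theorem cw7420 : wchk (nat_lit 5) [] [l1703] (nat_lit 0) (nat_lit 3) (nat_lit 1) (nat_lit 0) (nat_lit 5820672) (nat_lit 0) w7420 = true := by decide +kernel
theorem cw7421 : wchk (nat_lit 5) [] [l1703] (nat_lit 0) (nat_lit 3) (nat_lit 1) (nat_lit 0) (nat_lit 5820672) (nat_lit 0) w7421 = true := by decide +kernel
theorem cw7422 : wchk (nat_lit 5) [w164, w16] [] (nat_lit 0) (nat_lit 1) (nat_lit 4) (nat_lit 2) (nat_lit 10824704) (nat_lit 18458628) w7422 = true := by decide +kernel
theorem cw7423 : wchk (nat_lit 5) [w220, w16] [] (nat_lit 0) (nat_lit 1) (nat_lit 3) (nat_lit 2) (nat_lit 22307840) (nat_lit 22644740) w7423 = true := by decide +kernel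
theorem cw7424 : wchk (nat_lit 5) [w2015, w16] [] (nat_lit 1) (nat_lit 1) (nat_lit 1) (nat_lit 2) (nat_lit 89925632) (nat_lit 23153668) w7424 = true := by decide +kernel
theorem cw7425 : wchk (nat_lit 5) [] [l1693] (nat_lit 4) (nat_lit 0) (nat_lit 4) (nat_lit 1) (nat_lit 4903168) (nat_lit 0) w7425 = true := by decide +kernel
theorem cw7426 : wchk (nat_lit 5) [] [l1693] (nat_lit 4) (nat_lit 0) (nat_lit 3) (nat_lit 1) (nat_lit 5820672) (nat_lit 0) w7426 = true := by decide +kernel
theorem cw7427 : wchk (nat_lit 5) [] [l1693] (nat_lit 4) (nat_lit 0) (nat_lit 3) (nat_lit 1) (nat_lit 5820672) (nat_lit 0) w7427 = true := by decide +kernel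
theorem cl1704 : lchk (nat_lit 5) [w7375, w2037, w16, w7376, w7377, w7391, w7400, w284, w2934, w7292, w2405, w7401, w7420, w7419, w7237, w7421, w5209, w7422, w2868, w7424, w2381, w7423, w6841, w7286, w7288, w7425, w7426, w7427] (nat_lit 23282688) .nil (.nod (nat_lit 5044964178506996526607703350155657855161410998696863894934452881649044729856591616016) (.nod (nat_lit 5043304067323601124023239703560040297493154457845110277725320164291637649040745910289) (.nod (nat_lit 15806358224522839336882751058856456967682705440) .nil (.nod (nat_lit 291575945338774682999574846664960104178495185308119944482719614992) (.dwn (nat_lit 20919978905856848510635103555320880434226340652101682785960041055204314171827373428800) (nat_lit 627205120)) .nil .nil) .dup) .nil (.nod (nat_lit 5391910510191606957554132676730836321385285343547130779438576086919280584532823820376) (.dwn (nat_lit 20933259795324011728984775784388156793785677960056014858833428947011069052296891893872) (nat_lit 90334268)) .nil .nil)) (.nod (nat_lit 291396520662770390116655550587797481403471858462108954537504442504) .nil (.dwn (nat_lit 291396621096398156303547777404946123461149931808937690049700858008)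 (nat_lit 627262524)) .dup) (.nod (nat_lit 5378640736765010521850888098900465527268405829052295550419062071517373695990503753904) (.opn (nat_lit 145250803756027645331222600798440198078512254320188375044237789247114124765607553829064)) (.dwn (nat_lit 20933277395721575801047200828673914388392806154517408757110170733308975792811433953480) (nat_lit 627262464)) (.dwn (nat_lit 20933277395721575801047200828673914388392806154517408757110170733308975792811433953480) (nat_lit 627262464)))) (.nod (nat_lit 292295753148974944440319068807434269733214677416234815242895001632) .nil (.nod (nat_lit 292295702932161061362718348094257022733435031459297076722732058640) (.dwn (nat_lit 20933258868987297830437034511796363493911690243052734790351129720534975459438900893760) (nat_lit 627262464)) .nil .nil) .dup) (.nod (nat_lit 5378630547061157638017501315995288234244639277696421491201555598656251146821420353624) (.dwn (nat_lit 20919979832193562409164757233720122305746730065340204593555120775556223707764671957104) (nat_lit 90391612)) .nil .nil) l1704 = true := by decide +kernel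
theorem cw7428 : wchk (nat_lit 5) [] [l1704] (nat_lit 25) (nat_lit 1) (nat_lit 0) (nat_lit 0) (nat_lit 22597888) (nat_lit 0) w7428 = true := by decide +kernel
theorem cw7429 : wchk (nat_lit 5) [w7114, w37] [] (nat_lit 17) (nat_lit 1) (nat_lit 0) (nat_lit 2) (nat_lit 626287616) (nat_lit 23211012) w7429 = true := by decide +kernel
theorem cw7430 : wchk (nat_lit 5) [w162, w2027] [] (nat_lit 1) (nat_lit 1) (nat_lit 3) (nat_lit 2) (nat_lit 22307840) (nat_lit 22121476) w7430 = true := by decide +kernel
theorem cw7431 : wchk (nat_lit 5) [] [l786] (nat_lit 18) (nat_lit 1) (nat_lit 2) (nat_lit 0) (nat_lit 5790208) (nat_lit 0) w7431 = true := by decide +kernel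
theorem cw7432 : wchk (nat_lit 5) [w164, w16] [] (nat_lit 2) (nat_lit 1) (nat_lit 4) (nat_lit 2) (nat_lit 77804544) (nat_lit 18458628) w7432 = true := by decide +kernel
theorem cw7433 : wchk (nat_lit 5) [w50, w167] [] (nat_lit 0) (nat_lit 1) (nat_lit 0) (nat_lit 2) (nat_lit 6115328) (nat_lit 88893444) w7433 = true := by decide +kernel
theorem cw7434 : wchk (nat_lit 5) [] [l1621] (nat_lit 0) (nat_lit 3) (nat_lit 1) (nat_lit 0) (nat_lit 5820672) (nat_lit 0) w7434 = true := by decide +kernel
theorem cw7435 : wchk (nat_lit 5) [] [l1621] (nat_lit 0) (nat_lit 3) (nat_lit 1) (nat_lit 0) (nat_lit 5820672) (nat_lit 0) w7435 = true := by decide +kernel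
theorem cw7436 : wchk (nat_lit 5) [] [l209] (nat_lit 1) (nat_lit 1) (nat_lit 0) (nat_lit 0) (nat_lit 22597888) (nat_lit 0) w7436 = true := by decide +kernel
theorem cw7438 : wchk (nat_lit 5) [] [l1692] (nat_lit 34) (nat_lit 1) (nat_lit 3) (nat_lit 0) (nat_lit 156815616) (nat_lit 0) w7438 = true := by decide +kernel
theorem cw7439 : wchk (nat_lit 5) [] [l1685] (nat_lit 4) (nat_lit 1) (nat_lit 0) (nat_lit 0) (nat_lit 22583552) (nat_lit 0) w7439 = true := by decide +kernel
theorem cw7440 : wchk (nat_lit 5) [w16, w2936] [] (nat_lit 0) (nat_lit 0) (nat_lit 3) (nat_lit 2) (nat_lit 22709248) (nat_lit 18064388) w7440 = true := by decide +kernel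
theorem cw7441 : wchk (nat_lit 5) [] [l1167] (nat_lit 1) (nat_lit 1) (nat_lit 3) (nat_lit 0) (nat_lit 22449152) (nat_lit 0) w7441 = true := by decide +kernel
theorem cw7442 : wchk (nat_lit 5) [w80, w16] [] (nat_lit 1) (nat_lit 2) (nat_lit 3) (nat_lit 2) (nat_lit 18688000) (nat_lit 22644740) w7442 = true := by decide +kernel
theorem cw7443 : wchk (nat_lit 5) [w390, w16] [] (nat_lit 1) (nat_lit 2) (nat_lit 3) (nat_lit 2) (nat_lit 76378112) (nat_lit 22644740) w7443 = true := by decide +kernel
theorem cw7444 : wchk (nat_lit 5) [w762, w16] [] (nat_lit 1) (nat_lit 2) (nat_lit 3) (nat_lit 2) (nat_lit 895626240) (nat_lit 22644740) w7444 = true := by decide +kernel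
theorem cw7445 : wchk (nat_lit 5) [] [l715] (nat_lit 1) (nat_lit 3) (nat_lit 1) (nat_lit 0) (nat_lit 22596096) (nat_lit 0) w7445 = true := by decide +kernel
theorem cl1705 : lchk (nat_lit 5) [w2405, w5567, w2346, w15, w220, w2106, w7445, w2532, w932, w16, w2539, w2538, w5308, w3011, w638, w7442, w871, w2537, w2536, w2535, w2534, w5247, w7443, w7444, w42, w1441, w164] (nat_lit 21655552) (.nod (nat_lit 1134793992340906407223451832739956380169465600719951730210538258522) (.nod (nat_lit 20694215827292354479563485248220299313490244917687750912688345815217652611389743910944) .nil (.nod (nat_lit 145264067045097244477511917317688211357581231602113870854802371662985435269607583967288) (.opn (nat_lit 1139533716279160459899614607108546074402102406534275623834951445111883097274408699748352)) .nil .dup) (.dwn (nat_lit 145264067045097244477511917317688211357581231602113870854802371662985435269607583967288) (nat_lit 625635328))) (.nod (nat_lit 20919980758530276306559526033622431106246113629470838142652507598847989722208930058272) (.nod (nat_lit 425785367704984725011607725266347821221654358104) .nil (.dwn (nat_lit 61774246540517310045710208097038380935882208742254989458266547085312)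 (nat_lit 4920602624)) (.dwn (nat_lit 61774246540517310045710208097038380935882208742254989458266547085312) (nat_lit 4920602624))) .nil (.dwn (nat_lit 145234193612410730789747418488188315910902645620777809068695611439991871483183002609752) (nat_lit 625635328))) (.nod (nat_lit 20933265353344295120143348613359057754807243045807763913128701351792173662998938210432) (.dwn (nat_lit 145126298543659399566706089154475900867485123098841827949061546271928940895775044724896) (nat_lit 625635328)) .nil .nil)) .nil (.nod (nat_lit 571258327752779625445099688) .nil (.nod (nat_lit 20933273690374720205794151982701428478113423918544594159573768194644044847104336593306) (.dwn (nat_lit 144917145608711820069255209310062112477127774786342210983572747198543160871037189705936) (nat_lit 625635328)) .nil .nil) .dup) .nil l1705 = true := by decide +kernel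
theorem cw7446 : wchk (nat_lit 5) [] [l1705] (nat_lit 0) (nat_lit 3) (nat_lit 2) (nat_lit 0) (nat_lit 5820672) (nat_lit 0) w7446 = true := by decide +kernel
theorem cw7447 : wchk (nat_lit 5) [w6776, w16] [] (nat_lit 1) (nat_lit 2) (nat_lit 2) (nat_lit 2) (nat_lit 89223168) (nat_lit 23160836) w7447 = true := by decide +kernel
theorem cw7448 : wchk (nat_lit 5) [] [l1705] (nat_lit 0) (nat_lit 3) (nat_lit 2) (nat_lit 0) (nat_lit 5820672) (nat_lit 0) w7448 = true := by decide +kernel
theorem cw7449 : wchk (nat_lit 5) [] [l1167] (nat_lit 2) (nat_lit 3) (nat_lit 0) (nat_lit 0) (nat_lit 5657600) (nat_lit 0) w7449 = true := by decide +kernel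
theorem cw7450 : wchk (nat_lit 5) [w114, w16] [] (nat_lit 0) (nat_lit 1) (nat_lit 3) (nat_lit 2) (nat_lit 22823936) (nat_lit 22644740) w7450 = true := by decide +kernel
theorem cw7451 : wchk (nat_lit 5) [w1209, w16] [] (nat_lit 0) (nat_lit 1) (nat_lit 2) (nat_lit 2) (nat_lit 23211008) (nat_lit 23160836) w7451 = true := by decide +kernel
theorem cw7452 : wchk (nat_lit 5) [w1889, w16] [] (nat_lit 0) (nat_lit 1) (nat_lit 3) (nat_lit 2) (nat_lit 22228992) (nat_lit 22644740) w7452 = true := by decide +kernel
theorem cl1706 : lchk (nat_lit 5) [w6719, w230, w220, w267, w16, w433, w581, w6928, w5841, w5211, w3837, w149, w638, w1191, w6691, w6746, w6967, w2378, w721, w3008, w6758] (nat_lit 6982656) .nil (.nod (nat_lit 5031684099584457969180093508072448448563628930562078334326330167773200336270727471120) (.nod (nat_lit 50424075588740101171665272602990271584556881920) .nil (.dwn (nat_lit 7670146684326533880177262594207132059995631607967002035959750793216) (nat_lit 610962432)) .dup) .nil (.dwn (nat_lit 17158423791136795279098836214381800596987844344096742427853170021950941877544378767360) (nat_lit 74091520))) (.nod (nat_lit 15806361287064141625343731588964947134696998945)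 .nil (.nod (nat_lit 10406098839559028861777749012283628562951610408) .nil (.dwn (nat_lit 145131269266466179068488878099601673472874001169285339831702238913422831402621447874624) (nat_lit 626667556)) (.dwn (nat_lit 145131269266466179068488878099601673472874001169285339831702238913422831402621447874624) (nat_lit 626667556))) (.nod (nat_lit 286446850185569401506524225244238959398355729400112217302627461208) (.dwn (nat_lit 145157834750747361100434341131875148025463078454044329258539024504606168835480889811064) (nat_lit 626667556)) .nil .nil)) (.nod (nat_lit 5390257925494011980813047471632792327565115726153832312024426391284679230771082514576) .nil (.dwn (nat_lit 5152868394833377505484355914798539505436186538985882157927952082666249686262428780704) (nat_lit 74091520)) .dup) l1706 = true := by decide +kernel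
theorem cw7453 : wchk (nat_lit 5) [] [l1706] (nat_lit 0) (nat_lit 0) (nat_lit 1) (nat_lit 0) (nat_lit 5820672) (nat_lit 0) w7453 = true := by decide +kernel
theorem cl1707 : lchk (nat_lit 5) [w42, w164, w16, w3, w461, w39, w142, w5841, w1170, w281, w1554, w1326, w1325, w581, w937, w2642] (nat_lit 21655552) .nil (.nod (nat_lit 279337260386730532964691118271638400729306006917605888610173356041) .nil (.nod (nat_lit 2623828525391648365639202525171694052422978879658785146667402) .nil (.nod (nat_lit 15172180782939624763576134157430538534470207528) .nil (.dwn (nat_lit 1139533716279160459837840360568028764363089775667525645314511732234096790122138506158080) (nat_lit 4920602624)) .dup) (.dwn (nat_lit 291575945338774682998940671945635824950433983293647025524466960424) (nat_lit 626273308))) (.nod (nat_lit 5285669878811298500458663838962070453307706887790638361174766182860690948773732417930) (.opn (nat_lit 144993492427997909072057532590859243483665127663333433333433785368517207112946380103768)) .dup .dup)) .nil (.dwn (nat_lit 315937490161641627988468938958374771308828980692687580767616761930) (nat_lit 14824508)) l1707 = true := by decide +kernel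
theorem cw7454 : wchk (nat_lit 5) [] [l1707] (nat_lit 1) (nat_lit 2) (nat_lit 0) (nat_lit 0) (nat_lit 5820672) (nat_lit 0) w7454 = true := by decide +kernel
theorem cw7455 : wchk (nat_lit 5) [w7454, w16] [] (nat_lit 0) (nat_lit 1) (nat_lit 3) (nat_lit 2) (nat_lit 23282688) (nat_lit 22644740) w7455 = true := by decide +kernel
theorem cw7456 : wchk (nat_lit 5) [w5600, w16] [] (nat_lit 17) (nat_lit 2) (nat_lit 3) (nat_lit 2) (nat_lit 89230336) (nat_lit 22644740) w7456 = true := by decide +kernel
theorem cw7457 : wchk (nat_lit 5) [w162, w2936] [] (nat_lit 1) (nat_lit 1) (nat_lit 3) (nat_lit 2) (nat_lit 21784576) (nat_lit 18064388) w7457 = true := by decide +kernel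
theorem cw7458 : wchk (nat_lit 5) [w267, w16] [] (nat_lit 2) (nat_lit 1) (nat_lit 3) (nat_lit 2) (nat_lit 89796608) (nat_lit 22644740) w7458 = true := by decide +kernel
theorem cw7459 : wchk (nat_lit 5) [] [l474] (nat_lit 0) (nat_lit 2) (nat_lit 0) (nat_lit 0) (nat_lit 5705984) (nat_lit 0) w7459 = true := by decide +kernel
theorem cw7460 : wchk (nat_lit 5) [w7459, w16] [] (nat_lit 2) (nat_lit 1) (nat_lit 4) (nat_lit 2) (nat_lit 90391552) (nat_lit 18458628) w7460 = true := by decide +kernel
theorem cl1708 : lchk (nat_lit 5) [w7440, w5567, w16, w2037, w7449, w7376, w7377, w7458, w7460, w2868, w7424, w7456, w7457, w284, w2934, w7441, w2405, w7401, w7446, w7447, w7448, w2381, w7450, w7373, w7451, w7452, w7453, w7455] (nat_lit 23282688) (.nod (nat_lit 1134793992340906407239258188242220284137926996280708747322352551952) (.nod (nat_lit 5044965915388335086340016107340783460832693622926758862726820662100089167110743674912) .nil (.nod (nat_lit 5390246809453445198750582662400834204137410607949072188901790220655631522065699983408) (.opn (nat_lit 1139910535232986959349548489701490887501750572575931288143572581097887393852080624404480)) .nil .dup)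 (.dwn (nat_lit 5391908657518179160787211865080828155722382610264453128493822855427970876315868221504) (nat_lit 627262464))) (.nod (nat_lit 28702269810815338455373576136428938095221792533005608766095628841345014580445535490065) (.nod (nat_lit 15845400862173880132458155543500307178957492304) .nil (.nod (nat_lit 292206166353007505748263959923050153886671861794744133547814373392) (.dwn (nat_lit 20931604431616275056655630383516635998735485639013559024762636816679194856579812249712) (nat_lit 627255296)) .nil .nil) .dup) .nil (.nod (nat_lit 5390256072820584183753920694497032188557877838339781719264626564086400393999461042312) (.dwn (nat_lit 20933265353344295120162786336809670033553978194623007721510394051596183888160441913496) (nat_lit 90384464)) .nil .nil)) (.nod (nat_lit 5391921626232173740201100008066543492092148284074678940831025539794270278676821463224) (.dwn (nat_lit 20933275543048148003987983912357234096650545962833104224053080669013111348450563608784) (nat_lit 90384492)) .nil .nil)) .nil (.nod (nat_lit 15840522574161701558648324677835531651065890896) .nil (.nod (nat_lit 5391912362865034754613259453866596460392523204138592018524134281527399882154445066256)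 (.dwn (nat_lit 20933265353344295120162876024039265238448073297889347728345939414348360967830301526128) (nat_lit 627262464)) .nil .nil) .dup) (.nod (nat_lit 292296355750741541576410445582440789117938020670364203113460191368) (.dwn (nat_lit 20933269985027864612810603028565000965603066650278829597400111461196221608653458409624) (nat_lit 90391632)) .nil .nil) l1708 = true := by decide +kernel
theorem cw7461 : wchk (nat_lit 5) [] [l1708] (nat_lit 1753) (nat_lit 1) (nat_lit 1) (nat_lit 0) (nat_lit 22597888) (nat_lit 0) w7461 = true := by decide +kernel
theorem cw7462 : wchk (nat_lit 5) [w1312, w16] [] (nat_lit 25) (nat_lit 1) (nat_lit 3) (nat_lit 2) (nat_lit 626094080) (nat_lit 22644740) w7462 = true := by decide +kernel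
theorem cw7465 : wchk (nat_lit 5) [w3006, w16] [] (nat_lit 25) (nat_lit 1) (nat_lit 3) (nat_lit 2) (nat_lit 626094080) (nat_lit 22644740) w7465 = true := by decide +kernel
theorem cw7466 : wchk (nat_lit 5) [] [l1707] (nat_lit 4) (nat_lit 2) (nat_lit 3) (nat_lit 0) (nat_lit 5671936) (nat_lit 0) w7466 = true := by decide +kernel
theorem cw7467 : wchk (nat_lit 5) [w267, w167] [] (nat_lit 0) (nat_lit 1) (nat_lit 0) (nat_lit 2) (nat_lit 22687744) (nat_lit 88893444) w7467 = true := by decide +kernel
theorem cw7468 : wchk (nat_lit 5) [w42, w167] [] (nat_lit 0) (nat_lit 1) (nat_lit 0) (nat_lit 2) (nat_lit 21655552) (nat_lit 88893444) w7468 = true := by decide +kernel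
theorem cw7469 : wchk (nat_lit 5) [] [l753] (nat_lit 0) (nat_lit 3) (nat_lit 3) (nat_lit 0) (nat_lit 5557248) (nat_lit 0) w7469 = true := by decide +kernel
theorem cl1709 : lchk (nat_lit 5) [w2934, w3953, w16, w42, w164, w455, w7469, w2709, w3006, w2936, w2381, w7291, w7281, w7466, w7467, w6613, w7468, w7462, w7465, w3982, w220, w5258] (nat_lit 23225344) (.nod (nat_lit 5362023298246474037321266092877876123689030851195198239293831786798728845667067977744) .nil (.nod (nat_lit 5015085998344824116748123904133436129818227664100143602723167278423475217235921494048) (.nod (nat_lit 5391907731181465261965442511027196112875618814101026462307814149614733405309796780104) (.nod (nat_lit 3349856960218868315567288747640205436598607988736) .nil (.dwn (nat_lit 493153100703102339040506790654822057532425391834714704017214090299392) (nat_lit 39281910784)) (.dwn (nat_lit 493153100703102339040506790654822057532425391834714704017214090299392) (nat_lit 39281910784))) .nil (.dwn (nat_lit 1139897255269856509967933077255426280779580444804136802886966599959145670312448590399488) (nat_lit 4922172416))) (.nod (nat_lit 1028967875955595673013420690513445804111138178243179340512554027080)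 .nil (.dwn (nat_lit 61793954028692102302450523065213520061704473150376786603495982942208) (nat_lit 4922172416)) (.dwn (nat_lit 61793954028692102302450523065213520061704473150376786603495982942208) (nat_lit 4922172416))) (.dwn (nat_lit 5391911436528320857112663941254312063886918617582006200705682570229961830583289677896) (nat_lit 627205120))) (.nod (nat_lit 5015085998344824116748123904133436129818227664100143602723182088631762467907660570656) (.dwn (nat_lit 1264228075488343737290268194543611622904403421194953402691092412664120465020502476802152) (nat_lit 90391616)) .nil .nil)) .nil (.nod (nat_lit 272588214757368804623471757660892228985374327721909117494186434576) .nil (.dwn (nat_lit 271868406947168543166516243999518242693920484944207697706655342624) (nat_lit 627262528)) (.dwn (nat_lit 271868406947168543166516243999518242693920484944207697706655342624) (nat_lit 627262528))) (.dwn (nat_lit 5166160400341107506188608628752164159702716698243407742400011505225664804698276386976) (nat_lit 23282760)) l1709 = true := by decide +kernel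
theorem cw7470 : wchk (nat_lit 5) [] [l1709] (nat_lit 3) (nat_lit 1) (nat_lit 3) (nat_lit 0) (nat_lit 5820672) (nat_lit 0) w7470 = true := by decide +kernel
theorem cw7472 : wchk (nat_lit 5) [w6775, w16] [] (nat_lit 2) (nat_lit 1) (nat_lit 3) (nat_lit 2) (nat_lit 21784576) (nat_lit 22644740) w7472 = true := by decide +kernel
theorem cl1710 : lchk (nat_lit 5) [w7465, w16, w7431, w164, w42, w455, w2936, w5210, w3006, w2934, w2709, w7423, w7291, w7472, w7462, w220, w3951, w5258] (nat_lit 23282688) (.nod (nat_lit 5254123482019484076469759245187040924777974498072743058288859154817883623782989783048) .nil (.nod (nat_lit 5240845371562462553693479476882654632573688749949115939409342102721220502540227616792) (.nod (nat_lit 18966164330289492330874246100930155797383894525395175336959300004801658137621576699952) (.nod (nat_lit 3349813080127089126710545839813286102230104199240) .nil (.dwn (nat_lit 493152291258279357430530855697371046017933688076989897497874384898056) (nat_lit 39281846308)) (.dwn (nat_lit 493152291258279357430530855697371046017933688076989897497874384898056) (nat_lit 39281846308))) .nil (.dwn (nat_lit 1139882323648365179569900816929767440456486906052982420016095840916945762564186757582920)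 (nat_lit 4922107940))) (.nod (nat_lit 291396068711445442274620975882860076319631534679862341887624630320) .nil (.dwn (nat_lit 61793144583869120719192621032404039397848041011610592742948972187720) (nat_lit 4922107940)) (.dwn (nat_lit 61793144583869120719192621032404039397848041011610592742948972187720) (nat_lit 4922107940))) (.dwn (nat_lit 18966164330289492331166542255813641806525803229548551531740811940547213934792777814064) (nat_lit 627140644))) (.dwn (nat_lit 5240845371562462553693479476882654632573688749949115939409356913077081705801643106328) (nat_lit 23282740))) .nil (.nod (nat_lit 5147883776975889517611555462948366937853259566578639427910835162884998567696591708168) .nil (.dwn (nat_lit 20933253310967014438143757434208066949041641680415337493385154824789931481673345959936) (nat_lit 90391552)) (.dwn (nat_lit 20933253310967014438143757434208066949041641680415337493385154824789931481673345959936) (nat_lit 90391552))) (.dwn (nat_lit 5362036151168379379408340165696143043629053662407323734732027610887551323862173653112) (nat_lit 23282688)) l1710 = true := by decide +kernel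
theorem cw7473 : wchk (nat_lit 5) [] [l1710] (nat_lit 3) (nat_lit 1) (nat_lit 3) (nat_lit 0) (nat_lit 5820672) (nat_lit 0) w7473 = true := by decide +kernel
theorem cw7474 : wchk (nat_lit 5) [] [l22] (nat_lit 25) (nat_lit 3) (nat_lit 0) (nat_lit 0) (nat_lit 156426752) (nat_lit 0) w7474 = true := by decide +kernel
theorem cw7475 : wchk (nat_lit 5) [w2137, w16] [] (nat_lit 25) (nat_lit 1) (nat_lit 3) (nat_lit 2) (nat_lit 86649856) (nat_lit 22644740) w7475 = true := by decide +kernel
theorem cw7476 : wchk (nat_lit 5) [w2090, w16] [] (nat_lit 25) (nat_lit 1) (nat_lit 3) (nat_lit 2) (nat_lit 86649856) (nat_lit 22644740) w7476 = true := by decide +kernel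
theorem cw7477 : wchk (nat_lit 5) [] [l1695] (nat_lit 153) (nat_lit 3) (nat_lit 2) (nat_lit 0) (nat_lit 5820672) (nat_lit 0) w7477 = true := by decide +kernel
theorem cw7478 : wchk (nat_lit 5) [] [l1201] (nat_lit 18) (nat_lit 3) (nat_lit 2) (nat_lit 0) (nat_lit 5818880) (nat_lit 0) w7478 = true := by decide +kernel
theorem cw7479 : wchk (nat_lit 5) [w220, w1637] [] (nat_lit 18) (nat_lit 0) (nat_lit 3) (nat_lit 2) (nat_lit 22307840) (nat_lit 90262532) w7479 = true := by decide +kernel
theorem cl1711 : lchk (nat_lit 5) [w2529, w167, w161, w16, w1449, w2089, w2669, w2106, w2532, w284, w7478, w7479, w7245, w370, w4262, w390, w3791, w330, w5298, w2667, w7250, w7251, w7252, w7253, w7386, w2063, w7474, w7475, w1, w7476, w69, w7477] (nat_lit 22630400) .nil (.nod (nat_lit 20586315316312829093672722695360261109151539050781941072781365566240863276085083635866) (.nod (nat_lit 20694215827292354478429591047027651910036647580155359834552437284724386019381469204505) (.nod (nat_lit 426843939870073863323871018035884924098787561512) .nil (.dwn (nat_lit 61786484980662386515649399127503307516301514493417384032472954740736) (nat_lit 4921577472)) (.dwn (nat_lit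 61786484980662386515649399127503307516301514493417384032472954740736) (nat_lit 4921577472))) .nil (.nod (nat_lit 5240848150572604249004541969688502076800655691451422615283476078227501181937824995392) (.dwn (nat_lit 20933261647997439586704502370423056735537955840668787718281332329418795905521729046624) (nat_lit 4921577472)) .nil .nil)) (.nod (nat_lit 1126605632392027454574377405866687935758542712895571021601812555896) .nil (.dwn (nat_lit 7854443998215531086403747691039686172183072212245926684577343281280) (nat_lit 625642560)) .dup) (.nod (nat_lit 20782209478082289701319329452968189744392129760931718299941350911923377168259556477088) (.dwn (nat_lit 145264081866484666853984932338243314599555467366126069648397427945175467654673933437120) (nat_lit 626610176)) .nil .nil)) (.nod (nat_lit 858718810593831027608015048) .nil .nil (.nod (nat_lit 292296908135694255589579614592688139943612156874470943450176946266) (.dwn (nat_lit 20933278322058289699575864382153823306435250624340505716164093098211401286219331823856) (nat_lit 90391676)) .nil .nil)) .nil l1711 = true := by decide +kernel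
theorem cw7480 : wchk (nat_lit 5) [] [l1711] (nat_lit 1) (nat_lit 3) (nat_lit 1) (nat_lit 0) (nat_lit 5820672) (nat_lit 0) w7480 = true := by decide +kernel
theorem cw7481 : wchk (nat_lit 5) [w1326] [] (nat_lit 0) (nat_lit 0) (nat_lit 1) (nat_lit 2) (nat_lit 25165869) (nat_lit 123888640) w7481 = true := by decide +kernel
theorem cw7482 : wchk (nat_lit 5) [] [l1688] (nat_lit 0) (nat_lit 1) (nat_lit 3) (nat_lit 0) (nat_lit 1632768) (nat_lit 0) w7482 = true := by decide +kernel
theorem cw7483 : wchk (nat_lit 5) [w220] [] (nat_lit 0) (nat_lit 1) (nat_lit 3) (nat_lit 2) (nat_lit 25165861) (nat_lit 15483904) w7483 = true := by decide +kernel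
theorem cw7484 : wchk (nat_lit 5) [w871, w220] [] (nat_lit 0) (nat_lit 1) (nat_lit 3) (nat_lit 2) (nat_lit 22816768) (nat_lit 15483908) w7484 = true := by decide +kernel
theorem cw7485 : wchk (nat_lit 5) [w69, w1326] [] (nat_lit 1) (nat_lit 1) (nat_lit 3) (nat_lit 2) (nat_lit 15369216) (nat_lit 122971140) w7485 = true := by decide +kernel
theorem cw7486 : wchk (nat_lit 5) [w2740, w1326] [] (nat_lit 1) (nat_lit 1) (nat_lit 3) (nat_lit 2) (nat_lit 15369216) (nat_lit 122971140) w7486 = true := by decide +kernel
theorem cw7487 : wchk (nat_lit 5) [w871, w1326] [] (nat_lit 1) (nat_lit 1) (nat_lit 3) (nat_lit 2) (nat_lit 15483904) (nat_lit 122971140) w7487 = true := by decide +kernel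
theorem cw7488 : wchk (nat_lit 5) [w220, w1326] [] (nat_lit 1) (nat_lit 1) (nat_lit 3) (nat_lit 2) (nat_lit 15483904) (nat_lit 122971140) w7488 = true := by decide +kernel
theorem cl1712 : lchk (nat_lit 5) [w6841, w56, w1326, w220, w6797, w748, w7482, w7483, w6747, w7484, w7370, w7285, w2945, w1560, w7481, w7485, w7488, w871, w2743, w1202, w1139, w7486, w7235, w7487, w2517, w114, w6572, w7371, w7372, w7373, w7399, w7374, w2938] (nat_lit 10839040) (.nod (nat_lit 4062246791061657623821505642667192347374692468139784000752222910680396094815707594752) .nil (.nod (nat_lit 1061723349532073749120773079327544996760808857820878798685791232025) .nil (.nod (nat_lit 7718560513723968739201415347075738679572849489364391972712571652096) .nil (.dwn (nat_lit 1137028783233679456948292013131657426972099857791406815672805439950128466991466913908736) (nat_lit 4909786112)) .dup) (.nod (nat_lit 418424003872017903453505281712235311613740763136) .nil (.dwn (nat_lit 1137028783233679456886653559283632178643982836274163833549570263222423694043347950422016) (nat_lit 4909786112)) .dup)) (.nod (nat_lit 4209990086234761899682447713806533146024892505016918531927569607521233155013174790200)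 (.dwn (nat_lit 266323028010289595534371732817382195543471254862694844599284485563372184069864611407968) (nat_lit 614818816)) .nil .nil)) (.nod (nat_lit 2616401921274554709138037823108989255241083767743067062149162281596429186051052929024) (.nod (nat_lit 57595164411160475408239248290607512390518343800) .nil (.dwn (nat_lit 1134794739316012918299980075283474885782198297234773002713351751808) (nat_lit 90391616)) (.dwn (nat_lit 1134794739316012918299980075283474885782198297234773002713351751808) (nat_lit 90391616))) .nil (.nod (nat_lit 4329509754408805777776798392165204141299411585129914331624289922575637389064844929176) (.dwn (nat_lit 19824394916308774204838154683721271374977736588182294278004377799494012240441924544608) (nat_lit 90391616)) .nil .nil)) (.nod (nat_lit 244602886548459658037320420121882042776394342423735475437312147456) .nil (.nod (nat_lit 1074681697920978246760689862788221464709634523169373058262728231128) (.dwn (nat_lit 144414170710492907675118447709365410473438109780568907781885972118889392194194767259904) (nat_lit 614818816)) .nil .nil) .dup) .nil l1712 = true := by decide +kernel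
theorem cw7489 : wchk (nat_lit 5) [] [l1712] (nat_lit 25) (nat_lit 3) (nat_lit 4) (nat_lit 0) (nat_lit 5820672) (nat_lit 0) w7489 = true := by decide +kernel
theorem cl1713 : lchk (nat_lit 5) [w1393, w1379, w1100, w4614, w5458, w4613, w33, w430] (nat_lit 23211008) .nil (.nod (nat_lit 928456837244954429760733338) .nil (.nod (nat_lit 1134703997533326168442809241397567179502414542293010484367454110106) .nil (.opn (nat_lit 7873880717329865703282619160182086310505250877317452888925242939392)) .dup) (.nod (nat_lit 1128944781799515830388088541801631916315851003177499215889988321690) (.dwn (nat_lit 143296970653726011181958204854280025052757433379215104506287231238054990952924046381096) (nat_lit 627190784)) .nil .nil)) (.nod (nat_lit 928456837244954429760733274) .nil (.nod (nat_lit 246131787663944321098186840230643365970215198300419950327803937178) .nil (.dwn (nat_lit 143305274336029397600905927582596382483252842230924023315195740854682299309204892313656) (nat_lit 627190784)) (.opn (nat_lit 143305274336029397600905927582596382483252842230924023315195740854682299309204892313656))) (.nod (nat_lit 292205915268938090281023660804484609901583810695435825800827371520)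 .nil (.dwn (nat_lit 143426453999594747644276735641120485374329480817494566512029077637869599546588610428928) (nat_lit 623520768)) (.opn (nat_lit 143426453999594747644276735641120485374329480817494566512029077637869599546588610428928)))) .nil l1713 = true := by decide +kernel
theorem cw7490 : wchk (nat_lit 5) [] [l1713] (nat_lit 1) (nat_lit 3) (nat_lit 1) (nat_lit 0) (nat_lit 5806336) (nat_lit 0) w7490 = true := by decide +kernel
theorem cw7491 : wchk (nat_lit 5) [w1326] [] (nat_lit 1) (nat_lit 1) (nat_lit 4) (nat_lit 2) (nat_lit 193) (nat_lit 111502336) w7491 = true := by decide +kernel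
theorem cw7492 : wchk (nat_lit 5) [w103, w1326] [] (nat_lit 1) (nat_lit 1) (nat_lit 3) (nat_lit 2) (nat_lit 22709248) (nat_lit 111961092) w7492 = true := by decide +kernel
theorem cw7493 : wchk (nat_lit 5) [w1637, w1326] [] (nat_lit 1) (nat_lit 1) (nat_lit 3) (nat_lit 2) (nat_lit 90262528) (nat_lit 111961092) w7493 = true := by decide +kernel
theorem cl1714 : lchk (nat_lit 5) [w2405, w7490, w154, w6797, w220, w438, w2101, w7445, w932, w4209, w5308, w2539, w2538, w638, w2667, w7492, w871, w2536, w2537, w2535, w2534, w7491, w2529, w7493, w1441, w42, w164] (nat_lit 22114304) (.nod (nat_lit 207429468006765808382257859301404747064842351606322159346303607175171787198941234200666) (.nod (nat_lit 20573036163727004435257490676231982105124038615022284457509176947191713672533760100384) .nil (.nod (nat_lit 286536587631978489479668898041114314310701111039784135464705480752) .nil (.nod (nat_lit 61780005806467934266858062699610111091192091623253820726658245779456) .nil (.dwn (nat_lit 9096811738540790329375661391471069788162160736723174235594927503301148622208153331884032) (nat_lit 39280799744)) (.opn (nat_lit 9096811738540790329375661391471069788162160736723174235594927503301148622208153331884032)))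 (.nod (nat_lit 61780005806467934266858062699610111091373646742801998669647955623936) .nil (.dwn (nat_lit 9096811738540790329375661391471069788162160736723174235596376709020925029552571025457152) (nat_lit 39280799744)) (.opn (nat_lit 9096811738540790329375661391471069788162160736723174235596376709020925029552571025457152)))) (.dwn (nat_lit 145262408902379366102005207464879331400249686279883921642536132393321321527768823519280) (nat_lit 626094080))) (.nod (nat_lit 1133264532563367294797982433690991067345651657534206473365999667232) .nil (.dwn (nat_lit 7873881219498004534216333918924225134367840217246778404150368725088) (nat_lit 626094080)) .dup) (.nod (nat_lit 20694226016996207363374914829688721763434717035151009858684716193574963061423914567808) (.dwn (nat_lit 144993498912354906368510942503334213349665204612556547822080780680999886917756780734624) (nat_lit 626094080)) .nil .nil)) (.nod (nat_lit 858982672821061369034344616) .nil (.nod (nat_lit 1120126910148900153625509728478289615083582700866779984005397741978) (.dwn (nat_lit 145247484691581746899785461078041474488936909603379449697124465900821471626243037546704) (nat_lit 626094080)) .nil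 .nil) (.nod (nat_lit 1120126910148900153625509728478289615083582700866779984005397741978) (.dwn (nat_lit 145247484691581746899785461078041474488936909603379449697124465900821471626243037546704) (nat_lit 626094080)) .nil .nil)) .nil .nil l1714 = true := by decide +kernel
theorem cw7494 : wchk (nat_lit 5) [] [l1714] (nat_lit 153) (nat_lit 3) (nat_lit 2) (nat_lit 0) (nat_lit 5820672) (nat_lit 0) w7494 = true := by decide +kernel
theorem cw7495 : wchk (nat_lit 5) [] [l1272] (nat_lit 1) (nat_lit 3) (nat_lit 3) (nat_lit 0) (nat_lit 5576960) (nat_lit 0) w7495 = true := by decide +kernel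
theorem cw7496 : wchk (nat_lit 5) [w103, w42] [] (nat_lit 1) (nat_lit 1) (nat_lit 3) (nat_lit 2) (nat_lit 22709248) (nat_lit 23225348) w7496 = true := by decide +kernel
theorem cw7497 : wchk (nat_lit 5) [w1637, w42] [] (nat_lit 1) (nat_lit 1) (nat_lit 3) (nat_lit 2) (nat_lit 90262528) (nat_lit 23225348) w7497 = true := by decide +kernel
theorem cl1715 : lchk (nat_lit 5) [w2405, w7495, w154, w448, w220, w438, w2101, w7445, w932, w4209, w5308, w2539, w2538, w638, w2667, w7496, w871, w2536, w2537, w2535, w2534, w2063, w2529, w7497, w1441, w42, w164] (nat_lit 22114304) (.nod (nat_lit 207429468006765808382257859301404747064842351606322159346303607175171787198941234200666) (.nod (nat_lit 20573036163727004435206197213859235135528739185034754547236668227630166925230940178464) .nil (.nod (nat_lit 286536587631978489479668898041114314310701111039784135464705480752) .nil (.nod (nat_lit 61780005806467934266858062699610111091192091623253820726658245779456) .nil (.dwn (nat_lit 9096811738540790329375661391471069788162160736723174235594927503301148622208153331884032) (nat_lit 39280799744)) (.opn (nat_lit 9096811738540790329375661391471069788162160736723174235594927503301148622208153331884032)))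 (.nod (nat_lit 61780005806467934266858062699610111091373646742801998669657797746688) (.opn (nat_lit 9096811738540790329375661391471069788162160736723174235596376709020925029552649587056640)) .dup .dup)) (.dwn (nat_lit 145262408902379366102005207464879331400249686279883921642536132393321321527768823519280) (nat_lit 626094080))) (.nod (nat_lit 1133264532563367294797982433690991067345651657534206473365999667232) .nil (.dwn (nat_lit 7873881219498004534216333918924225134367840217246778404150368725088) (nat_lit 626094080)) .dup) (.nod (nat_lit 20694226016996207363374914829688721763434717035151009858684716193574963061423914567808) (.dwn (nat_lit 144993498912354906368510942503334213349665204612556547822080780680999886917756780734624) (nat_lit 626094080)) .nil .nil)) (.nod (nat_lit 856338147590654367714531496) .nil (.nod (nat_lit 1120126910148900153625509728478289615083582700866779984005397741978) (.dwn (nat_lit 145247484691581746899785461078041474488936909603379449697124465900821471626243037546704) (nat_lit 626094080)) .nil .nil) (.nod (nat_lit 1120126910148900153625509728478289615083582700866779984005397741978) (.dwn (nat_lit 145247484691581746899785461078041474488936909603379449697124465900821471626243037546704)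 (nat_lit 626094080)) .nil .nil)) .nil .nil l1715 = true := by decide +kernel
theorem cw7498 : wchk (nat_lit 5) [] [l1715] (nat_lit 153) (nat_lit 3) (nat_lit 2) (nat_lit 0) (nat_lit 5820672) (nat_lit 0) w7498 = true := by decide +kernel
theorem cw7499 : wchk (nat_lit 5) [w495, w16] [] (nat_lit 0) (nat_lit 2) (nat_lit 1) (nat_lit 2) (nat_lit 22709248) (nat_lit 22823940) w7499 = true := by decide +kernel
theorem cw7500 : wchk (nat_lit 5) [w267, w455] [] (nat_lit 0) (nat_lit 1) (nat_lit 3) (nat_lit 2) (nat_lit 22709248) (nat_lit 22823940) w7500 = true := by decide +kernel
theorem cl1716 : lchk (nat_lit 5) [w2405, w7495, w154, w164, w220, w2106, w2532, w7445, w932, w4209, w5308, w2539, w2538, w638, w2667, w7496, w871, w2536, w2537, w2535, w2534, w2063, w2529, w7497, w1441, w42] (nat_lit 22114304) (.nod (nat_lit 207429468006765808382257859301404747064842351606322159346303607175171787198941234200666) (.nod (nat_lit 20573036163727004435350448828216276174583590038140036031739881345976060672470274099232) .nil (.nod (nat_lit 7874690865188241649421878933527165062932839700728309821394739456048) .nil (.nod (nat_lit 61780005806467934266858062699610111091192091623253820726658245779456)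 .nil (.dwn (nat_lit 9096811738540790329375661391471069788162160736723174235594927503301148622208153331884032) (nat_lit 39280799744)) .dup) (.dwn (nat_lit 61780005806467934266858062699610111091373646742801998669657797746688) (nat_lit 4921061376))) (.nod (nat_lit 145262408902379366102003767547958047578775908460476553189521603230488129016459318462488) (.opn (nat_lit 1139639955984204054458186274447526109816806056376002219078232160046035159938397471170560)) .dup .dup)) (.nod (nat_lit 1133264532563367294797982433690991067345651657534206473365999667232) .nil (.dwn (nat_lit 7873881219498004534216333918924225134367840217246778404150368725088) (nat_lit 626094080)) .dup) (.nod (nat_lit 20694226016996207363374914829688721763434717035151009858684716193574963061423914567808) (.dwn (nat_lit 144993498912354906368510942503334213349665204612556547822080780680999886917756780734624) (nat_lit 626094080)) .nil .nil)) (.nod (nat_lit 856338147590654367714531496) .nil (.nod (nat_lit 1120126910148900153625509728478289615083582700866779984005397741978) (.dwn (nat_lit 145247484691581746899785461078041474488936909603379449697124465897427270716680480049176) (nat_lit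 626094080)) .nil .nil) (.nod (nat_lit 1120126910148900153625509728478289615083582700866779984005397741978) (.dwn (nat_lit 145247484691581746899785461078041474488936909603379449697124465897427270716680480049176) (nat_lit 626094080)) .nil .nil)) .nil .nil l1716 = true := by decide +kernel
theorem cw7501 : wchk (nat_lit 5) [] [l1716] (nat_lit 18) (nat_lit 3) (nat_lit 2) (nat_lit 0) (nat_lit 5820672) (nat_lit 0) w7501 = true := by decide +kernel
theorem cw7502 : wchk (nat_lit 5) [] [l602] (nat_lit 1233) (nat_lit 3) (nat_lit 2) (nat_lit 0) (nat_lit 5528576) (nat_lit 0) w7502 = true := by decide +kernel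
theorem cl1717 : lchk (nat_lit 5) [w2934, w16, w7432, w167, w164, w42, w3006, w2709, w6839, w7454, w2936, w6841, w7499, w6613, w7466, w7500, w7237, w7501, w7480, w7502, w7498, w220, w5258, w2937, w5277, w7489, w6776, w1139, w7494] (nat_lit 21655552) (.nod (nat_lit 286536386764722957105884455295852771643112443972129013190969870344) .nil (.nod (nat_lit 20586317168986256891016946193423529799257401892421756969964723085856166518398056597536) (.nod (nat_lit 5166148357963826825012887855839697333685612659166073431390866361856043891962237102144) (.nod (nat_lit 3348788615144201207902356637034160462701308207104) .nil (.dwn (nat_lit 493133393214927546783766475686646918406603127426592906871984654442496) (nat_lit 39280340992)) (.dwn (nat_lit 493133393214927546783766475686646918406603127426592906871984654442496) (nat_lit 39280340992))) .nil (.dwn (nat_lit 1139533716279160459837840360568028764363089775667525645314692411449109725403343821791232) (nat_lit 4920602624))) (.nod (nat_lit 1127595305360035460164967076980684714231803228084847982052032290896) .nil (.dwn (nat_lit 61774246540517310045710208097038380935882208742254989458266547085312) (nat_lit 4920602624))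 .dup) (.dwn (nat_lit 5166148357963826826022148293837314633038060645593387236794265924244994801908798103632) (nat_lit 625635328))) (.nod (nat_lit 5391913289201748653427919563361985080979360768708376293778830369619922307530880649248) (.dwn (nat_lit 144995155202399356932618775863147613697798934528363358116609982803181394044166356820080) (nat_lit 90391620)) .nil .nil)) .nil (.nod (nat_lit 292295652715347178269272272797307796848883004125814592568209917960) .nil (.dwn (nat_lit 5391919773558745943141342457531597816308640869916000990019525201313231109100629837856) (nat_lit 90391632)) (.dwn (nat_lit 5391919773558745943141342457531597816308640869916000990019525201313231109100629837856) (nat_lit 90391632))) (.nod (nat_lit 271959249163483059210218316834191247300921184183875135911189223592) (.dwn (nat_lit 20664356289656549277618119141248829407987858856483661846583337441441348025122985248992) (nat_lit 90391632)) .nil .nil) l1717 = true := by decide +kernel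
theorem cw7503 : wchk (nat_lit 5) [] [l1717] (nat_lit 3) (nat_lit 1) (nat_lit 0) (nat_lit 0) (nat_lit 5820672) (nat_lit 0) w7503 = true := by decide +kernel
theorem cl1718 : lchk (nat_lit 5) [w7227, w2375, w16, w167, w7303, w455, w3953, w7431, w7432, w7304, w7438, w7439, w6512, w7428, w284, w7461, w7470, w7473, w1213, w7503, w7308, w2337, w2049, w7433, w7434, w7435, w2709, w2936, w7436, w7228, w6719, w5211, w7309, w7232, w7286, w7288, w3921, w7368, w7429, w7430, w2934, w7229, w2405, w7230, w7231, w7236, w7302] (nat_lit 23282688) (.nod (nat_lit 5378623252159535686813082482630104375271926967808470447911017852983563716005058531344) (.nod (nat_lit 20586317053194167653707229944046997039360479230308091871937513759528224451989488699432) .nil (.nod (nat_lit 5362027814137954292661076819503904692428829520978747692205781171987925118023966033984) (.nod (nat_lit 20919981684866990206223883860205440795411400050405471684392161591268240796144652159064) .nil (.dwn (nat_lit 5390253293810442488457526733893691872314373165872421164402674841148364355414524381280) (nat_lit 4922229812)) (.dwn (nat_lit 5390253293810442488457526733893691872314373165872421164402674841148364355414524381280)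 (nat_lit 4922229812))) (.nod (nat_lit 5375315187962114800716702995144705766703029852469954578273037930749224300132962621552) (.dwn (nat_lit 145264077234801097361337115144319844836160826549904373186147762714919859481799231441048) (nat_lit 39281968208)) .nil .nil) .dup) (.nod (nat_lit 5378641663101724420380361549154680976393878008796133480148391235056381993150068721728) (.dwn (nat_lit 20919981684866990206223884513024021275687716857190220324827553304793463509034751920328) (nat_lit 4922229760)) .nil .nil)) (.nod (nat_lit 290765847697212619595415453033234781544685607803053744888736057560) .nil (.dwn (nat_lit 292297008569322021792317228660715985295595109151517924736193941736) (nat_lit 627262544)) (.dwn (nat_lit 292297008569322021792317228660715985295595109151517924736193941736) (nat_lit 627262544))) (.nod (nat_lit 2571597793433424530037020234368646227430477611209697618669809025107176158469067016456) (.dwn (nat_lit 207416218496954828487840572976818266543418297470526212792899800385946850320734083254568) (nat_lit 90391604)) .nil .nil)) (.nod (nat_lit 15840514407384895456127319980934378093536512232) .nil (.nod (nat_lit 292297510737460852726739298330736671848358983271171974178046035984)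 (.dwn (nat_lit 20933289438098856481931434238707296308264012605295461131467070736479362677293983420736) (nat_lit 627262544)) .nil .nil) .dup) .nil (.nod (nat_lit 5391940152966451710500161110902998545489695867775491115183214723786868270095263025496) (.dwn (nat_lit 20933266279681009018692441019545189566942275197571000677064291964633225089450144860528) (nat_lit 90391632)) .nil .nil) l1718 = true := by decide +kernel
theorem cw7504 : wchk (nat_lit 5) [] [l1718] (nat_lit 18) (nat_lit 2) (nat_lit 1) (nat_lit 0) (nat_lit 5820672) (nat_lit 0) w7504 = true := by decide +kernel
theorem cw7505 : wchk (nat_lit 5) [w267, w37] [] (nat_lit 1) (nat_lit 1) (nat_lit 3) (nat_lit 2) (nat_lit 88821760) (nat_lit 22121476) w7505 = true := by decide +kernel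
theorem cw7506 : wchk (nat_lit 5) [] [l307] (nat_lit 1) (nat_lit 1) (nat_lit 0) (nat_lit 0) (nat_lit 22596096) (nat_lit 0) w7506 = true := by decide +kernel
theorem cw7507 : wchk (nat_lit 5) [w16, w800] [] (nat_lit 17) (nat_lit 0) (nat_lit 0) (nat_lit 2) (nat_lit 22293504) (nat_lit 90334212) w7507 = true := by decide +kernel
theorem cw7508 : wchk (nat_lit 5) [w164, w220] [] (nat_lit 2) (nat_lit 1) (nat_lit 3) (nat_lit 2) (nat_lit 88821760) (nat_lit 22307844) w7508 = true := by decide +kernel
theorem cw7509 : wchk (nat_lit 5) [w164, w220] [] (nat_lit 2) (nat_lit 1) (nat_lit 3) (nat_lit 2) (nat_lit 74141696) (nat_lit 22307844) w7509 = true := by decide +kernel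
theorem cw7510 : wchk (nat_lit 5) [w1312, w220] [] (nat_lit 25) (nat_lit 1) (nat_lit 3) (nat_lit 2) (nat_lit 625635328) (nat_lit 22307844) w7510 = true := by decide +kernel
theorem cw7511 : wchk (nat_lit 5) [w162, w800] [] (nat_lit 17) (nat_lit 0) (nat_lit 0) (nat_lit 2) (nat_lit 22630400) (nat_lit 90334212) w7511 = true := by decide +kernel
theorem cw7512 : wchk (nat_lit 5) [w114, w220] [] (nat_lit 2) (nat_lit 1) (nat_lit 4) (nat_lit 2) (nat_lit 73618432) (nat_lit 18179076) w7512 = true := by decide +kernel
theorem cw7513 : wchk (nat_lit 5) [w2844, w220] [] (nat_lit 2) (nat_lit 1) (nat_lit 3) (nat_lit 2) (nat_lit 89739264) (nat_lit 22307844) w7513 = true := by decide +kernel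
theorem cw7514 : wchk (nat_lit 5) [w220, w800] [] (nat_lit 0) (nat_lit 1) (nat_lit 0) (nat_lit 2) (nat_lit 22630400) (nat_lit 90334212) w7514 = true := by decide +kernel
theorem cw7515 : wchk (nat_lit 5) [w1067, w220] [] (nat_lit 2) (nat_lit 1) (nat_lit 3) (nat_lit 2) (nat_lit 88771584) (nat_lit 22307844) w7515 = true := by decide +kernel
theorem cw7516 : wchk (nat_lit 5) [w2844, w220] [] (nat_lit 2) (nat_lit 1) (nat_lit 3) (nat_lit 2) (nat_lit 73224192) (nat_lit 22307844) w7516 = true := by decide +kernel
theorem cw7517 : wchk (nat_lit 5) [w1019, w220] [] (nat_lit 2) (nat_lit 1) (nat_lit 3) (nat_lit 2) (nat_lit 21655552) (nat_lit 22307844) w7517 = true := by decide +kernel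
theorem cw7518 : wchk (nat_lit 5) [] [l1545] (nat_lit 0) (nat_lit 0) (nat_lit 3) (nat_lit 0) (nat_lit 3483904) (nat_lit 0) w7518 = true := by decide +kernel

end Pool.Agent.W319.GCI.K5
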