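import Pool.Agent.W319.GCI.K5D0
import Pool.Agent.W319.GCI.K5D1
import Pool.Agent.W319.GCI.K5D2
import Pool.Agent.W319.GCI.K5D3
import Pool.Agent.W319.GCI.K5D4
import Pool.Agent.W319.GCI.K5D5
import Pool.Agent.W319.GCI.K5D6
import Pool.Agent.W319.GCI.K5D7
import Pool.Agent.W319.GCI.K5D8
import Pool.Agent.W319.GCI.K5D9
import Pool.Agent.W319.GCI.K5D10
import Pool.Agent.W319.GCI.K5D11
import Pool.Agent.W319.GCI.K5D12
import Pool.Agent.W319.GCI.K5D13
import Pool.Agent.W319.GCI.K5D14
import Pool.Agent.W319.GCI.K5D15
set_option autoImplicit false
set_option maxRecDepth 100000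
set_option linter.all false
namespace Pool.Agent.W319.GCI.K5
open Pool.Agent.W319.GCI

theorem cw813 : wchk (nat_lit 5) [w20] [] (nat_lit 2) (nat_lit 0) (nat_lit 3) (nat_lit 2) (nat_lit 22823936) (nat_lit 33554513) w813 = true := by decide +kernel
theorem cw814 : wchk (nat_lit 5) [] [l29] (nat_lit 2) (nat_lit 0) (nat_lit 3) (nat_lit 0) (nat_lit 2319104) (nat_lit 0) w814 = true := by decide +kernel
theorem cw815 : wchk (nat_lit 5) [] [l46] (nat_lit 4) (nat_lit 3) (nat_lit 2) (nat_lit 0) (nat_lit 5415680) (nat_lit 0) w815 = true := by decide +kernel
theorem cw816 : wchk (nat_lit 5) [w815] [] (nat_lit 2) (nat_lit 0) (nat_lit 3) (nat_lit 2) (nat_lit 23282688) (nat_lit 33554513) w816 = true := by decide +kernel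
theorem cw817 : wchk (nat_lit 5) [] [l29] (nat_lit 4) (nat_lit 2) (nat_lit 2) (nat_lit 0) (nat_lit 19096320) (nat_lit 0) w817 = true := by decide +kernel
theorem cw818 : wchk (nat_lit 5) [w817] [] (nat_lit 2) (nat_lit 0) (nat_lit 3) (nat_lit 2) (nat_lit 23282688) (nat_lit 33554513) w818 = true := by decide +kernel
theorem cw819 : wchk (nat_lit 5) [] [l23] (nat_lit 0) (nat_lit 2) (nat_lit 2) (nat_lit 0) (nat_lit 5576960) (nat_lit 0) w819 = true := by decide +kernel
theorem cw820 : wchk (nat_lit 5) [w819] [] (nat_lit 2) (nat_lit 0) (nat_lit 3) (nat_lit 2) (nat_lit 23282688) (nat_lit 33554513) w820 = true := by decide +kernel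
theorem cw821 : wchk (nat_lit 5) [w819] [] (nat_lit 2) (nat_lit 0) (nat_lit 4) (nat_lit 2) (nat_lit 15483904) (nat_lit 33554509) w821 = true := by decide +kernel
theorem cl173 : lchk (nat_lit 5) [w632, w91, w4, w33, w808, w6, w812, w813, w814, w816, w818, w820, w821, w809, w810, w811, w80] (nat_lit 21784576) .nil (.nod (nat_lit 77548056897281727936481882526379983193686147226) .nil (.nod (nat_lit 15806355502263903971869963864515335883295721496) (.nod (nat_lit 15845387250879203294907186854489381463966517280) .nil (.dwn (nat_lit 61775866334065923104619663520017148475977619325019919919548286324736) (nat_lit 4920731648)) .dup) .nil .nil) (.nod (nat_lit 15845389973138138662431819818108750905912756272) .nil (.nod (nat_lit 145264068897770672266696263190888437461043894593982205341883508244387238908797514319936) (.dwn (nat_lit 1139910543570017384436314560700769946961564295134701151959325280339027664183721823996000) (nat_lit 4920731648)) .nil .nil) (.nod (nat_lit 145264068897770672266696263190888437461043894593982205341883508244387238908797514319936) (.dwn (nat_lit 1139910543570017384436314560700769946961564295134701151959325280339027664183721823996000)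 (nat_lit 4920731648)) .nil .nil))) .nil (.nod (nat_lit 842055202589262536087603232) .nil .nil (.nod (nat_lit 292296255317113775374780175670588126346304882229504719190587605082) (.dwn (nat_lit 20933266279681009025306891526992340222265508049492887078521355233492680692131211831424) (nat_lit 625764352)) .nil .nil)) l173 = true := by decide +kernel
theorem cw822 : wchk (nat_lit 5) [] [l173] (nat_lit 4) (nat_lit 2) (nat_lit 2) (nat_lit 0) (nat_lit 22597888) (nat_lit 0) w822 = true := by decide +kernel
theorem cw823 : wchk (nat_lit 5) [] [l33] (nat_lit 2) (nat_lit 2) (nat_lit 2) (nat_lit 0) (nat_lit 5415680) (nat_lit 0) w823 = true := by decide +kernel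
theorem cw824 : wchk (nat_lit 5) [] [l133] (nat_lit 25) (nat_lit 2) (nat_lit 2) (nat_lit 0) (nat_lit 5428224) (nat_lit 0) w824 = true := by decide +kernel
theorem cw825 : wchk (nat_lit 5) [] [l36] (nat_lit 25) (nat_lit 2) (nat_lit 2) (nat_lit 0) (nat_lit 5446144) (nat_lit 0) w825 = true := by decide +kernel
theorem cl174 : lchk (nat_lit 5) [w823, w91, w4, w33, w808, w6, w812, w813, w814, w816, w818, w820, w821, w809, w158, w824, w825, w105] (nat_lit 23282688) .nil (.nod (nat_lit 77548056897281727936481882526379983193686147226) .nil (.nod (nat_lit 15806355502263903971869963864515335883295721496) (.nod (nat_lit 15845387250879203294907186854489381463966517280) .nil (.dwn (nat_lit 61794673936935930330094004890534986331140902900445162754919889274880) (nat_lit 4922229760)) .dup) .nil .nil) (.nod (nat_lit 15845389973138138662431819818108750905912756272) .nil (.nod (nat_lit 145264068897770672266696263190888437461043894593982205341883508244387238908797514319936) (.dwn (nat_lit 1139910543570017384436314560700769946961564295134701151959325280339027664183721823996000) (nat_lit 4922229760)) .nil .nil) (.nod (nat_lit 145264068897770672266696263190888437461043894593982205341883508244387238908797514319936)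 (.dwn (nat_lit 1139910543570017384436314560700769946961564295134701151959325280339027664183721823996000) (nat_lit 4922229760)) .nil .nil))) .nil (.nod (nat_lit 842055202589262536087603232) .nil .nil (.nod (nat_lit 5391914215538462551672386231002356599383286405548192371968700310796222289346866184282) (.dwn (nat_lit 145131275750823176359330616508676032994587617328045944877278149176554766369015248349320) (nat_lit 627262464)) .nil .nil)) l174 = true := by decide +kernel
theorem cw826 : wchk (nat_lit 5) [] [l174] (nat_lit 4) (nat_lit 2) (nat_lit 2) (nat_lit 0) (nat_lit 22597888) (nat_lit 0) w826 = true := by decide +kernel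
theorem cw827 : wchk (nat_lit 5) [] [l59] (nat_lit 36) (nat_lit 1) (nat_lit 2) (nat_lit 0) (nat_lit 22221568) (nat_lit 0) w827 = true := by decide +kernel
theorem cl175 : lchk (nat_lit 5) [w210, w193] (nat_lit 56184832) (.nod (nat_lit 1237941847066299498502291546) (.nod (nat_lit 618973008015230078430478490) .nil .nil (.nod (nat_lit 618970646831988643607871514) (.opn (nat_lit 7866591646361106922965916891150188675086991328787165772235281530906)) .nil .nil)) .nil .nil) .nil .nil (.nod (nat_lit 618970646831988643607871514) .nil (.dwn (nat_lit 7867311604821748834129293617532280922903548501458607421334837264794) (nat_lit 626667524)) .dup) l175 = true := by decide +kernel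
theorem cw828 : wchk (nat_lit 5) [] [l175] (nat_lit 36) (nat_lit 1) (nat_lit 0) (nat_lit 0) (nat_lit 22597888) (nat_lit 0) w828 = true := by decide +kernel
theorem cw829 : wchk (nat_lit 5) [] [l56] (nat_lit 4) (nat_lit 2) (nat_lit 3) (nat_lit 0) (nat_lit 22191104) (nat_lit 0) w829 = true := by decide +kernel
theorem cl176 : lchk (nat_lit 5) [w211, w5, w827, w828, w815, w829, w174, w819] (nat_lit 55209984) (.nod (nat_lit 1237941847066299498502291546) .nil .nil (.nod (nat_lit 618973008015230078430478490) (.opn (nat_lit 291575744471519150609984048417434657564398988281575738735648047130)) .nil .nil)) .nil .nil (.nod (nat_lit 618973008015230078430478490) .nil (.nod (nat_lit 20933255163640442235202884211343827088048167340901868949733367727290666391920680370586) (.dwn (nat_lit 145157826413716936020416445805874106218126304672734769083873977321799017237839859058744) (nat_lit 4920602624)) .nil .nil) .dup) l176 = true := by decide +kernel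
theorem cw830 : wchk (nat_lit 5) [] [l176] (nat_lit 2) (nat_lit 2) (nat_lit 2) (nat_lit 0) (nat_lit 5820672) (nat_lit 0) w830 = true := by decide +kernel
theorem cw831 : wchk (nat_lit 5) [] [l176] (nat_lit 36) (nat_lit 1) (nat_lit 2) (nat_lit 0) (nat_lit 22583552) (nat_lit 0) w831 = true := by decide +kernel
theorem cl177 : lchk (nat_lit 5) [w210, w18] (nat_lit 56184832) (.nod (nat_lit 1237941847066299498502291546) (.nod (nat_lit 618973008015230078430478490) .nil .nil (.nod (nat_lit 618970646831988643607871514) (.opn (nat_lit 145113002832804813964028418929574582938018574533708669971008194290113295101425835048986)) .nil .nil)) .nil .nil) .nil .nil (.nod (nat_lit 618970646831988643607871514) .nil (.dwn (nat_lit 7873160859302851558732583448269194362074523031350166006145497432474) (nat_lit 627133444)) .dup) l177 = true := by decide +kernel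
theorem cw832 : wchk (nat_lit 5) [] [l177] (nat_lit 36) (nat_lit 1) (nat_lit 0) (nat_lit 0) (nat_lit 22597888) (nat_lit 0) w832 = true := by decide +kernel
theorem cw833 : wchk (nat_lit 5) [] [l55] (nat_lit 4) (nat_lit 2) (nat_lit 3) (nat_lit 0) (nat_lit 22191104) (nat_lit 0) w833 = true := by decide +kernel
theorem cl178 : lchk (nat_lit 5) [w210, w5, w831, w832, w815, w833, w174, w819] (nat_lit 55209984) (.nod (nat_lit 1237941847066299498502291546) .nil .nil (.nod (nat_lit 618973008015230078430478490) (.opn (nat_lit 5378623136367446449496887059059119366568256663628331485465995210292866367956864466970)) .nil .nil)) .nil .nil (.nod (nat_lit 618973008015230078430478490) .nil (.nod (nat_lit 20933255163640442235202884211343827088048167340901868949733367727290666391920680370586) (.dwn (nat_lit 145157826413716936020416445805874106218126304672734769083873977321799017237839859058744) (nat_lit 4920602624)) .nil .nil) .dup) l178 = true := by decide +kernel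
theorem cw834 : wchk (nat_lit 5) [] [l178] (nat_lit 2) (nat_lit 2) (nat_lit 2) (nat_lit 0) (nat_lit 5820672) (nat_lit 0) w834 = true := by decide +kernel
theorem cw835 : wchk (nat_lit 5) [w91] [] (nat_lit 0) (nat_lit 1) (nat_lit 3) (nat_lit 2) (nat_lit 33554513) (nat_lit 118139904) w835 = true := by decide +kernel
theorem cw836 : wchk (nat_lit 5) [w91] [] (nat_lit 0) (nat_lit 1) (nat_lit 3) (nat_lit 2) (nat_lit 33554513) (nat_lit 118139904) w836 = true := by decide +kernel
theorem cw837 : wchk (nat_lit 5) [w91] [] (nat_lit 0) (nat_lit 1) (nat_lit 3) (nat_lit 2) (nat_lit 33554513) (nat_lit 118139904) w837 = true := by decide +kernel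
theorem cw838 : wchk (nat_lit 5) [w91] [] (nat_lit 0) (nat_lit 1) (nat_lit 3) (nat_lit 2) (nat_lit 33554513) (nat_lit 118139904) w838 = true := by decide +kernel
theorem cl179 : lchk (nat_lit 5) [w576, w91, w4, w33, w808, w6, w812, w813, w814, w816, w818, w820, w821, w632, w823, w830, w834, w835, w836, w837, w838] (nat_lit 21777408) .nil (.nod (nat_lit 77548056897281727936481882526379983193686147226) .nil (.nod (nat_lit 15806355502263903971869963864515335883295721496) (.nod (nat_lit 15845387250879203294907186854489381463966517280) .nil (.dwn (nat_lit 61775776345535444604452606975846496758434621961150288780042348042240) (nat_lit 4920724480)) .dup) .nil .nil) (.nod (nat_lit 15845389973138138662431819818108750905912756272) .nil (.nod (nat_lit 145264068897770672266696263190888437461043894593982205341883508244387238908797514319936) (.dwn (nat_lit 1139910543570017384436314560700769946961564295134701151959325280339027664183721823996000) (nat_lit 4920724480)) .nil .nil) .dup)) .nil (.nod (nat_lit 842055202589262536087603232) (.opn (nat_lit 20586326316561306639846082573486222086554355619256751279192198866829564031072152322458)) .nil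 (.nod (nat_lit 20933267206017722917222003002042280909767529499483960934113064880091805364599492968538) (.opn (nat_lit 145264078161137811259866678583104538789168631607852263063784022535839121930429392128160)) .nil .nil)) l179 = true := by decide +kernel
theorem cw839 : wchk (nat_lit 5) [] [l179] (nat_lit 4) (nat_lit 2) (nat_lit 2) (nat_lit 0) (nat_lit 22597888) (nat_lit 0) w839 = true := by decide +kernel
theorem cw840 : wchk (nat_lit 5) [] [l46] (nat_lit 1) (nat_lit 1) (nat_lit 3) (nat_lit 0) (nat_lit 22192896) (nat_lit 0) w840 = true := by decide +kernel
theorem cl180 : lchk (nat_lit 5) [] (nat_lit 401) (.nod (nat_lit 22835996430967316348901994921903450495408669444) .nil .nil (.dwn (nat_lit 11418036667391120241116353636213802290592612450) (nat_lit 16777617))) .nil .nil (.nod (nat_lit 33554578) .nil (.nod (nat_lit 618970646831988643574317316) .nil .nil (.opn (nat_lit 11418080223534086121239662781064104947719602210))) .nil) l180 = true := by decide +kernel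
theorem cw841 : wchk (nat_lit 5) [] [l180] (nat_lit 1) (nat_lit 3) (nat_lit 3) (nat_lit 0) (nat_lit 5820672) (nat_lit 0) w841 = true := by decide +kernel
theorem cl181 : lchk (nat_lit 5) [] (nat_lit 401) (.nod (nat_lit 22835996430967316348901994921903450495408669444) .nil .nil (.dwn (nat_lit 11418036667391120241116353636213802290592612450) (nat_lit 16777617))) .nil .nil (.nod (nat_lit 33554578) .nil (.nod (nat_lit 618970646831988643574317316) .nil .nil (.opn (nat_lit 210626403696617635533257567746273594861669831131009105722507001890))) .nil) l181 = true := by decide +kernel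
theorem cw842 : wchk (nat_lit 5) [] [l181] (nat_lit 1) (nat_lit 3) (nat_lit 3) (nat_lit 0) (nat_lit 5820672) (nat_lit 0) w842 = true := by decide +kernel
theorem cl182 : lchk (nat_lit 5) [w840, w8, w805, w289, w4, w841, w842] (nat_lit 23282688) (.nod (nat_lit 928456837244954429760733274) (.nod (nat_lit 15757569899883182862922219350950010452604617114) .nil .nil (.dwn (nat_lit 15845381806361332559908696254396314774446442520) (nat_lit 627262464))) .nil (.nod (nat_lit 15796604370757417555943028798326102730265854298) (.nod (nat_lit 15845381806361332559908696254396314774446442520) .nil (.opn (nat_lit 61794673936935930330094004890534986331140902900445162754919889274880)) .dup) .nil .nil)) .nil (.nod (nat_lit 618970646831988643607871514) .nil (.dwn (nat_lit 1134794186931060204272072830511416289829141748854742259176858190234) (nat_lit 90391552)) .dup) .nil l182 = true := by decide +kernel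
theorem cw843 : wchk (nat_lit 5) [] [l182] (nat_lit 33) (nat_lit 3) (nat_lit 2) (nat_lit 0) (nat_lit 5820672) (nat_lit 0) w843 = true := by decide +kernel
theorem cw844 : wchk (nat_lit 5) [] [l172] (nat_lit 34) (nat_lit 2) (nat_lit 3) (nat_lit 0) (nat_lit 156700928) (nat_lit 0) w844 = true := by decide +kernel
theorem cw845 : wchk (nat_lit 5) [] [l176] (nat_lit 0) (nat_lit 0) (nat_lit 2) (nat_lit 1) (nat_lit 22583552) (nat_lit 0) w845 = true := by decide +kernel
theorem cw846 : wchk (nat_lit 5) [] [l178] (nat_lit 1) (nat_lit 3) (nat_lit 2) (nat_lit 0) (nat_lit 30972160) (nat_lit 0) w846 = true := by decide +kernel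
theorem cw847 : wchk (nat_lit 5) [] [l111] (nat_lit 2) (nat_lit 2) (nat_lit 4) (nat_lit 0) (nat_lit 5428224) (nat_lit 0) w847 = true := by decide +kernel
theorem cw848 : wchk (nat_lit 5) [] [l176] (nat_lit 34) (nat_lit 0) (nat_lit 2) (nat_lit 1) (nat_lit 22583552) (nat_lit 0) w848 = true := by decide +kernel
theorem cl183 : lchk (nat_lit 5) [w818, w817, w4, w33, w844, w848, w6, w812, w813, w814, w845, w846, w847] (nat_lit 23282688) .nil (.nod (nat_lit 15533168991605335389736913785533370434628616282) .nil (.nod (nat_lit 15806355502263903971869963864515335883295721496) (.nod (nat_lit 15533176818099774570942611760146909211330512928) .nil (.dwn (nat_lit 61794674188019999745561235457577857936285098083812234593700380313640) (nat_lit 4922229760)) .dup) .nil .nil) (.nod (nat_lit 15845392695397074029939527672679562949734860856) .nil (.nod (nat_lit 145264069824107386165225826579456317530547157422864341602375528267902481784146373544008) .nil (.opn (nat_lit 1139910539864670528780401632707394357525872673802852914603025757191243745690438722816040)) .dup) (.dwn (nat_lit 5391911436528320856083696065298716390889343333375252147484305379639452958188973230176)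 (nat_lit 627262484)))) .nil (.nod (nat_lit 858980164063867344535324704) .nil (.dwn (nat_lit 20933253310967014439278551370055057737723449336104754886663459919963542937077091926426) (nat_lit 90391552)) .dup) l183 = true := by decide +kernel
theorem cw849 : wchk (nat_lit 5) [] [l183] (nat_lit 273) (nat_lit 1) (nat_lit 2) (nat_lit 0) (nat_lit 22597888) (nat_lit 0) w849 = true := by decide +kernel
theorem cw850 : wchk (nat_lit 5) [] [l134] (nat_lit 1) (nat_lit 0) (nat_lit 2) (nat_lit 0) (nat_lit 5413888) (nat_lit 0) w850 = true := by decide +kernel
theorem cl184 : lchk (nat_lit 5) [] (nat_lit 273) (.nod (nat_lit 17127027438214959764730512700080345583043215876) (.nod (nat_lit 11418014889319637301054687257872443787647647906) .nil .nil (.opn (nat_lit 102762019669001450274168381051605783047764443682))) .nil (.opn (nat_lit 210628010634661894523533230168323826036488428813346885100277596498))) .nil (.nod (nat_lit 33554450) .nil .nil (.dwn (nat_lit 210624796758573376542982025784181253699067308928015322929369710852) (nat_lit 16777233))) .nil l184 = true := by decide +kernel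
theorem cw851 : wchk (nat_lit 5) [] [l184] (nat_lit 1) (nat_lit 3) (nat_lit 3) (nat_lit 0) (nat_lit 5820672) (nat_lit 0) w851 = true := by decide +kernel
theorem cw852 : wchk (nat_lit 5) [] [l181] (nat_lit 34) (nat_lit 3) (nat_lit 3) (nat_lit 0) (nat_lit 5790208) (nat_lit 0) w852 = true := by decide +kernel
theorem cw853 : wchk (nat_lit 5) [] [l46] (nat_lit 4) (nat_lit 2) (nat_lit 3) (nat_lit 0) (nat_lit 5413888) (nat_lit 0) w853 = true := by decide +kernel
theorem cw854 : wchk (nat_lit 5) [] [l181] (nat_lit 4) (nat_lit 3) (nat_lit 4) (nat_lit 0) (nat_lit 4872704) (nat_lit 0) w854 = true := by decide +kernel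
theorem cl185 : lchk (nat_lit 5) [w173, w63, w852, w10, w281, w4, w315, w853, w377, w379, w854] (nat_lit 21655552) (.nod (nat_lit 1237941847066299498502291546) .nil .nil (.dwn (nat_lit 15142905610348682563202606413336347256433934490) (nat_lit 23282696))) .nil .nil (.nod (nat_lit 618973008015230078430478490) .nil (.nod (nat_lit 20933256089977156133732447599911707157489912856366535290737457467984051351387736375706) .nil .nil (.dwn (nat_lit 145262406123369224406129980711543712702260228903363175352875035971718198873982809559072) (nat_lit 625635328))) (.nod (nat_lit 5391906804844751363435879122459316043464055952576960670090999959510633504030645551514) (.dwn (nat_lit 145264068897770672274550616798838978978817745418671141206991874885030814562094656424016) (nat_lit 625635328)) .nil .nil)) l185 = true := by decide +kernel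
theorem cw855 : wchk (nat_lit 5) [] [l185] (nat_lit 1) (nat_lit 0) (nat_lit 2) (nat_lit 0) (nat_lit 5820672) (nat_lit 0) w855 = true := by decide +kernel
theorem cl187 : lchk (nat_lit 5) [w281, w3, w827, w828, w11, w12, w13] (nat_lit 23275520) (.nod (nat_lit 1237941847066299498502291546) .nil .nil (.dwn (nat_lit 61478278946595684795528445054331480375484743834) (nat_lit 90334212))) .nil .nil (.nod (nat_lit 618973008015230078430478490) .nil (.nod (nat_lit 7710739022810592575898) (.opn (nat_lit 7874690614104172233954648380095588134603703231875831048125200465946)) .nil .nil) (.nod (nat_lit 20933255163640442235202884211343827088048079531717649735404747930399967838997250572698) (.opn (nat_lit 20919977053183420713575166780977185997935020397940145213155336463221606712121947871280)) .nil .nil)) l187 = true := by decide +kernel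
theorem cw857 : wchk (nat_lit 5) [] [l187] (nat_lit 1) (nat_lit 0) (nat_lit 2) (nat_lit 0) (nat_lit 5820672) (nat_lit 0) w857 = true := by decide +kernel
theorem cw858 : wchk (nat_lit 5) [w281] [] (nat_lit 0) (nat_lit 0) (nat_lit 3) (nat_lit 2) (nat_lit 16777297) (nat_lit 22816768) w858 = true := by decide +kernel
theorem cw859 : wchk (nat_lit 5) [] [l172] (nat_lit 33) (nat_lit 2) (nat_lit 3) (nat_lit 0) (nat_lit 156700928) (nat_lit 0) w859 = true := by decide +kernel
theorem cw860 : wchk (nat_lit 5) [] [l90] (nat_lit 34) (nat_lit 2) (nat_lit 3) (nat_lit 0) (nat_lit 5413888) (nat_lit 0) w860 = true := by decide +kernel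
theorem cw861 : wchk (nat_lit 5) [] [l3] (nat_lit 1) (nat_lit 3) (nat_lit 3) (nat_lit 0) (nat_lit 5573376) (nat_lit 0) w861 = true := by decide +kernel
theorem cw862 : wchk (nat_lit 5) [] [l56] (nat_lit 4) (nat_lit 2) (nat_lit 0) (nat_lit 0) (nat_lit 5428224) (nat_lit 0) w862 = true := by decide +kernel
theorem cl188 : lchk (nat_lit 5) [w379, w137, w860, w4, w11, w731, w831, w861, w842, w862] (nat_lit 21655552) (.nod (nat_lit 1237941847066299498502291546) .nil .nil (.dwn (nat_lit 15055096426129468234582809522637794333004136602) (nat_lit 23282696))) .nil .nil (.nod (nat_lit 618973008015230078430478490) .nil (.nod (nat_lit 5391904952171323566376752345323555904350658143949419120722958190072817069746068390298) (.opn (nat_lit 20916657062400808382486087852068741728523330897524746384602131852549724744851079450664)) .nil .nil) (.nod (nat_lit 20933258868987297829321137765615347365999701334846167266110994414966067541302847734170) .nil (.dwn (nat_lit 5391908657518179168368257098946103425779041116140301959446024344511154898197305264200) (nat_lit 4922229768)) .dup)) l188 = true := by decide +kernel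
theorem cw864 : wchk (nat_lit 5) [] [l184] (nat_lit 4) (nat_lit 2) (nat_lit 0) (nat_lit 0) (nat_lit 22597888) (nat_lit 0) w864 = true := by decide +kernel
theorem cw865 : wchk (nat_lit 5) [] [l29] (nat_lit 4) (nat_lit 2) (nat_lit 3) (nat_lit 0) (nat_lit 19094528) (nat_lit 0) w865 = true := by decide +kernel
theorem cw866 : wchk (nat_lit 5) [] [l29] (nat_lit 4) (nat_lit 2) (nat_lit 4) (nat_lit 0) (nat_lit 19064064) (nat_lit 0) w866 = true := by decide +kernel
theorem cw870 : wchk (nat_lit 5) [] [l90] (nat_lit 34) (nat_lit 2) (nat_lit 3) (nat_lit 0) (nat_lit 5413888) (nat_lit 0) w870 = true := by decide +kernel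
theorem cw871 : wchk (nat_lit 5) [] [l129] (nat_lit 4) (nat_lit 2) (nat_lit 1) (nat_lit 0) (nat_lit 22596096) (nat_lit 0) w871 = true := by decide +kernel
theorem cw872 : wchk (nat_lit 5) [] [l90] (nat_lit 28) (nat_lit 0) (nat_lit 4) (nat_lit 1) (nat_lit 4365568) (nat_lit 0) w872 = true := by decide +kernel
theorem cw873 : wchk (nat_lit 5) [] [l181] (nat_lit 4) (nat_lit 2) (nat_lit 3) (nat_lit 0) (nat_lit 5790208) (nat_lit 0) w873 = true := by decide +kernel
theorem cw874 : wchk (nat_lit 5) [] [l41] (nat_lit 4) (nat_lit 0) (nat_lit 4) (nat_lit 0) (nat_lit 4623616) (nat_lit 0) w874 = true := by decide +kernel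
theorem cw876 : wchk (nat_lit 5) [] [] (nat_lit 0) (nat_lit 3) (nat_lit 3) (nat_lit 2) (nat_lit 33554449) (nat_lit 25165905) w876 = true := by decide +kernel
theorem cw877 : wchk (nat_lit 5) [] [l172] (nat_lit 34) (nat_lit 2) (nat_lit 3) (nat_lit 0) (nat_lit 156700928) (nat_lit 0) w877 = true := by decide +kernel
theorem cw878 : wchk (nat_lit 5) [] [l29] (nat_lit 4) (nat_lit 2) (nat_lit 4) (nat_lit 0) (nat_lit 19064064) (nat_lit 0) w878 = true := by decide +kernel
theorem cw879 : wchk (nat_lit 5) [w878] [] (nat_lit 0) (nat_lit 1) (nat_lit 3) (nat_lit 2) (nat_lit 33554513) (nat_lit 23282688) w879 = true := by decide +kernel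
theorem cw884 : wchk (nat_lit 5) [] [l90] (nat_lit 36) (nat_lit 0) (nat_lit 4) (nat_lit 1) (nat_lit 4365568) (nat_lit 0) w884 = true := by decide +kernel
theorem cl192 : lchk (nat_lit 5) [w381, w47, w22, w12, w377, w53, w330, w4, w675, w380, w873, w884] (nat_lit 55209984) (.nod (nat_lit 1237941847066299498502291546) .nil .nil (.dwn (nat_lit 15055096426129468234582809522637794333004136602) (nat_lit 21655552))) .nil .nil (.nod (nat_lit 618973008015230078430478490) .nil (.nod (nat_lit 20931595168249136070225291897702742538139665551706491342486875488399041845456181133722) (.opn (nat_lit 20916656136064094491810877870584147644421241821965048982850754803015591206784474961960)) .nil (.dwn (nat_lit 20916656136064094491810877870584147644421241821965048982850754803015591206784474961960) (nat_lit 625635352))) (.nod (nat_lit 5391908657518179160495005899595076182378447475350078829729731532184916684509647208858) .nil (.dwn (nat_lit 144887251796617600613841934771498004784784943632208654413249751505702173740673743095896) (nat_lit 4920602624)) .dup)) l192 = true := by decide +kernel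
theorem cl193 : lchk (nat_lit 5) [w870, w44, w4, w11, w379, w872, w873] (nat_lit 56837120) (.nod (nat_lit 1237941847066299498502291546) .nil .nil (.dwn (nat_lit 15055096426129468234582809522637794333004136602) (nat_lit 23282688))) .nil .nil (.nod (nat_lit 618973008015230078430478490) .nil (.nod (nat_lit 5391904025834609667847188956755675834847395317789541795598445874412145006441031270810) (.opn (nat_lit 20916656136064094491810877870584147644421241821965048982850791297463770823402689300520)) .nil (.dwn (nat_lit 20916656136064094491810877870584147644421241821965048982850791297463770823402689300520) (nat_lit 4922229760))) (.nod (nat_lit 5391904025834609667847188956755675834847395317789541795598445874412145006441031270810) .nil (.dwn (nat_lit 20916656136064094491831305367436395694990823465455520613176716199558424797349592598568) (nat_lit 4922229760)) .dup)) l193 = true := by decide +kernel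
theorem cw887 : wchk (nat_lit 5) [w220, w20] [] (nat_lit 33) (nat_lit 0) (nat_lit 4) (nat_lit 2) (nat_lit 5599232) (nat_lit 18695172) w887 = true := by decide +kernel
theorem cw888 : wchk (nat_lit 5) [] [l90] (nat_lit 36) (nat_lit 0) (nat_lit 4) (nat_lit 1) (nat_lit 4365568) (nat_lit 0) w888 = true := by decide +kernel
theorem cl194 : lchk (nat_lit 5) [w281, w38, w265, w331, w4, w33, w168, w10, w675, w172, w381, w870, w888] (nat_lit 23275520) (.nod (nat_lit 1237941847066299498502291546) .nil .nil (.nod (nat_lit 15055096426129468234582809522637794333004136602) (.dwn (nat_lit 20586316126857453756000457350435968323669385205248260521035921668451678880325034215464) (nat_lit 625635352)) .nil .nil)) .nil .nil (.nod (nat_lit 618973008015230078430478490) .nil (.nod (nat_lit 20933259795324011727850701154183227435502964161006044591235506730626739604607884853658) (.opn (nat_lit 145262402418022368819886417771376364658201825978819254186980070969714213869885548023808)) .nil (.dwn (nat_lit 145262402418022368819886417771376364658201825978819254186980070969714213869885548023808) (nat_lit 627255296))) (.nod (nat_lit 5391905878508037464906315733891435973868658996870446854356194585202900494594535850394)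 (.opn (nat_lit 144887251796617600675616181814183453661003827498350052769617794272398575144717430196320)) (.dwn (nat_lit 144887251796617600675616181814183453661003827498350052769617794272398575144717430196320) (nat_lit 627255296)) .dup)) l194 = true := by decide +kernel
theorem cw889 : wchk (nat_lit 5) [] [l194] (nat_lit 1) (nat_lit 0) (nat_lit 2) (nat_lit 0) (nat_lit 5820672) (nat_lit 0) w889 = true := by decide +kernel
theorem cw890 : wchk (nat_lit 5) [] [l145] (nat_lit 2) (nat_lit 0) (nat_lit 4) (nat_lit 0) (nat_lit 5806336) (nat_lit 0) w890 = true := by decide +kernel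
theorem cw891 : wchk (nat_lit 5) [] [l164] (nat_lit 289) (nat_lit 2) (nat_lit 2) (nat_lit 0) (nat_lit 1230543104) (nat_lit 0) w891 = true := by decide +kernel
theorem cw892 : wchk (nat_lit 5) [] [l25] (nat_lit 2) (nat_lit 0) (nat_lit 3) (nat_lit 0) (nat_lit 28601344) (nat_lit 0) w892 = true := by decide +kernel
theorem cw893 : wchk (nat_lit 5) [] [] (nat_lit 34) (nat_lit 0) (nat_lit 2) (nat_lit 2) (nat_lit 33554509) (nat_lit 433) w893 = true := by decide +kernel
theorem cl195 : lchk (nat_lit 5) [w891, w892, w893] (nat_lit 22823936) .nil (.nod (nat_lit 16878770827444239729299) .nil (.nod (nat_lit 291962270818165201651575413176457125429658) .nil .nil .nil) (.nod (nat_lit 294684529753532709366993149058721863696384) .nil .nil (.nod (nat_lit 11417990388989218993485310516203079216079568896) .nil (.dwn (nat_lit 61794673987152744209837555154214106410229215705895819578465916979216) (nat_lit 4922229768)) .dup))) .nil .nil l195 = true := by decide +kernel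
theorem cw895 : wchk (nat_lit 5) [] [l165] (nat_lit 17) (nat_lit 1) (nat_lit 4) (nat_lit 0) (nat_lit 156801280) (nat_lit 0) w895 = true := by decide +kernel
theorem cw896 : wchk (nat_lit 5) [w15] [] (nat_lit 33) (nat_lit 0) (nat_lit 3) (nat_lit 2) (nat_lit 21727232) (nat_lit 305) w896 = true := by decide +kernel
theorem cw897 : wchk (nat_lit 5) [] [l111] (nat_lit 2) (nat_lit 0) (nat_lit 4) (nat_lit 0) (nat_lit 5428224) (nat_lit 0) w897 = true := by decide +kernel
theorem cw898 : wchk (nat_lit 5) [] [l164] (nat_lit 289) (nat_lit 2) (nat_lit 0) (nat_lit 0) (nat_lit 1230543104) (nat_lit 0) w898 = true := by decide +kernel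
theorem cw899 : wchk (nat_lit 5) [] [l111] (nat_lit 2) (nat_lit 0) (nat_lit 4) (nat_lit 0) (nat_lit 1758208) (nat_lit 0) w899 = true := by decide +kernel
theorem cl196 : lchk (nat_lit 5) [w15] (nat_lit 33554481) .nil .nil .nil (.nod (nat_lit 35082241) .nil (.nod (nat_lit 48401093301198169687052671733631545482666853590237755768500980854330498782068996) (.opn (nat_lit 3885371364157336963746223052929307968311348694146105673128866098030546453809896358306)) .nil (.dwn (nat_lit 3885371364157336963746223052929307968311348694146105673128866098030546453809896358306) (nat_lit 16777361))) (.nod (nat_lit 48401093301198169687052671733631545482666853590237755768500980854330498782068996) .nil (.dwn (nat_lit 3885371364157336963746223052929307968311348694146105673128866098030546453809896358306) (nat_lit 16777361)) .dup)) l196 = true := by decide +kernel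
theorem cw901 : wchk (nat_lit 5) [] [l143] (nat_lit 1) (nat_lit 1) (nat_lit 3) (nat_lit 0) (nat_lit 5671936) (nat_lit 0) w901 = true := by decide +kernel
theorem cw903 : wchk (nat_lit 5) [] [l26] (nat_lit 2) (nat_lit 3) (nat_lit 3) (nat_lit 0) (nat_lit 20141056) (nat_lit 0) w903 = true := by decide +kernel
theorem cw904 : wchk (nat_lit 5) [] [] (nat_lit 0) (nat_lit 0) (nat_lit 4) (nat_lit 2) (nat_lit 16777289) (nat_lit 205) w904 = true := by decide +kernel
theorem cl197 : lchk (nat_lit 5) [w848, w808, w4, w33, w5, w632, w823, w576, w25, w411, w845, w846, w847] (nat_lit 4888675328) (.nod (nat_lit 842054778314148840767916041) (.nod (nat_lit 15806355842546270892808427346336687388773484569) (.nod (nat_lit 426853696446098220449591745211890627145686319195) .nil .nil (.nod (nat_lit 842054759867404767058364424) .nil (.dwn (nat_lit 20586318905867595451609575063208670465780684124487209592905449710993439078933646541210) (nat_lit 88886300)) .dup)) .nil (.nod (nat_lit 426853707335133961922897668923947594278044522568) .nil (.nod (nat_lit 5391911436528320856083696065298716390889343333375252147494208899953736000388703094880) (.opn (nat_lit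 1637233771642773601531890684515462367401685136084152504919932805734275944022672773908480)) .dup .dup) (.dwn (nat_lit 5391911436528320856083696065298716390889343333375252147494208899953736000388703094880) (nat_lit 895697920)))) .nil .nil) .nil .nil .nil l197 = true := by decide +kernel
theorem cw906 : wchk (nat_lit 5) [] [l197] (nat_lit 2193) (nat_lit 1) (nat_lit 2) (nat_lit 0) (nat_lit 9820492032) (nat_lit 0) w906 = true := by decide +kernel
theorem cw907 : wchk (nat_lit 5) [w10] [] (nat_lit 1) (nat_lit 3) (nat_lit 3) (nat_lit 2) (nat_lit 22823936) (nat_lit 16777297) w907 = true := by decide +kernel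
theorem cl198 : lchk (nat_lit 5) [w858, w281, w4, w33, w808, w632, w604, w603, w907, w906, w810, w91, w811, w80] (nat_lit 23282688) (.nod (nat_lit 15840501136372585539287234063927236246561095834) (.nod (nat_lit 15806355502263903971869963864515335883295721496) .nil .nil (.dwn (nat_lit 15845387250879203294907186854489381463966517280) (nat_lit 625764372))) .nil (.nod (nat_lit 15806355502263903971869963864515335883295721496) .nil (.nod (nat_lit 144917128934650969887849906251333886473519856196370699526116135913329667655108572696632) (.opn (nat_lit 1139910535232986959349548489701490887505100468562454253887548771423345327171782016665600)) .dup .dup) (.dwn (nat_lit 5391909583854893059024569288162956252292845443471232879583226803636428755885922668600) (nat_lit 627262464)))) (.nod (nat_lit 842055202589262536087603232) .nil .nil (.nod (nat_lit 292296054449858243000995732925326583700979565773538875624071888922) (.dwn (nat_lit 20933262574334153431188638474888958775186917843549754828534096135474715559902358071400) (nat_lit 627262464)) .nil .nil)) .nil .nil l198 = true := by decide +kernel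
theorem cw908 : wchk (nat_lit 5) [] [l198] (nat_lit 2) (nat_lit 2) (nat_lit 2) (nat_lit 0) (nat_lit 22597888) (nat_lit 0) w908 = true := by decide +kernel
theorem cl199 : lchk (nat_lit 5) [w795, w1, w91, w808, w822, w826, w576, w839, w20, w604, w814, w843, w849, w850, w908] (nat_lit 23225344) (.nod (nat_lit 15806353120287335522820608025252511003230685193) (.nod (nat_lit 54712096195962938288001261634976148426251900944) .nil .nil (.nod (nat_lit 15845384528620267927399478999918569420144412696) (.dwn (nat_lit 20933257016313870033396805175410647431264224072555271405193824165455074463886681221168) (nat_lit 90391580)) .nil .nil)) .nil (.nod (nat_lit 15845398139914944764938018272772629639254935616) .nil (.nod (nat_lit 144917131713661111583438596417037526682213351949878016494304352655635017570209666598992) (.dwn (nat_lit 1139910545422690812233373687578339334866757713013838055251631966118586788488445970516072) (nat_lit 4922229816)) .nil .nil) (.nod (nat_lit 144917131713661111583438596417037526682213351949878016494304352655635017570209666598992) (.dwn (nat_lit 1139910545422690812233373687578339334866757713013838055251631966118586788488445970516072)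 (nat_lit 4922229816)) .nil .nil))) (.nod (nat_lit 15845384528620267927399478999918569420144412696) .nil (.dwn (nat_lit 1134074027603162761161360435424819479884343960391766967191874095104) (nat_lit 90334208)) (.dwn (nat_lit 1134074027603162761161360435424819479884343960391766967191874095104) (nat_lit 90334208))) .nil .nil l199 = true := by decide +kernel
theorem cw909 : wchk (nat_lit 5) [] [l199] (nat_lit 33) (nat_lit 1) (nat_lit 1) (nat_lit 0) (nat_lit 156815616) (nat_lit 0) w909 = true := by decide +kernel
theorem cw910 : wchk (nat_lit 5) [] [l170] (nat_lit 0) (nat_lit 3) (nat_lit 2) (nat_lit 0) (nat_lit 5790208) (nat_lit 0) w910 = true := by decide +kernel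
theorem cw911 : wchk (nat_lit 5) [] [l170] (nat_lit 0) (nat_lit 3) (nat_lit 3) (nat_lit 0) (nat_lit 5661184) (nat_lit 0) w911 = true := by decide +kernel
theorem cl200 : lchk (nat_lit 5) [w219, w499, w15, w802, w795, w141, w798, w796, w797] (nat_lit 22307840) (.nod (nat_lit 15401454874994146975485032714971911092343838728) .nil .nil (.opn (nat_lit 60853855358777891982737658336890519038561142784))) .nil (.nod (nat_lit 15762451250436663726016037361766680284150059025) (.nod (nat_lit 61434379799003948368926312835470745736674758680) .nil (.nod (nat_lit 7873250998483771711467766746532885936799926798184827587161762457640) (.dwn (nat_lit 1139882320869355037936105271247499293197633033302684848605169609735687136161112628875328) (nat_lit 4921254912)) .nil .nil) (.nod (nat_lit 7873250998483771711467766746532885936799926798184827587161762457640) (.dwn (nat_lit 1139882320869355037936105271247499293197633033302684848605169609735687136161112628875328) (nat_lit 4921254912)) .nil .nil)) .nil .dup) .nil l200 = true := by decide +kernel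
theorem cw912 : wchk (nat_lit 5) [] [l200] (nat_lit 35) (nat_lit 1) (nat_lit 0) (nat_lit 0) (nat_lit 156815616) (nat_lit 0) w912 = true := by decide +kernel
theorem cw913 : wchk (nat_lit 5) [] [l89] (nat_lit 1) (nat_lit 1) (nat_lit 3) (nat_lit 0) (nat_lit 5528576) (nat_lit 0) w913 = true := by decide +kernel
theorem cw914 : wchk (nat_lit 5) [] [l184] (nat_lit 2) (nat_lit 2) (nat_lit 3) (nat_lit 0) (nat_lit 22483200) (nat_lit 0) w914 = true := by decide +kernel
theorem cw915 : wchk (nat_lit 5) [] [l184] (nat_lit 2) (nat_lit 2) (nat_lit 3) (nat_lit 0) (nat_lit 22483200) (nat_lit 0) w915 = true := by decide +kernel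
theorem cl201 : lchk (nat_lit 5) [w432, w158, w802, w4, w840, w915, w913, w377, w914, w431, w429] (nat_lit 11218944) (.nod (nat_lit 618971827423609361019175002) (.nod (nat_lit 15142905610348682562583641116060139988596031898) .nil .nil (.dwn (nat_lit 418682553136663367865566477429679985661945733120) (nat_lit 615198720))) .nil (.nod (nat_lit 290765897914026502620353611857708579461875477236050021491444547930) .nil (.opn (nat_lit 7874780803501906270210755898190475366783651919451151361273340790824)) .dup)) (.nod (nat_lit 618970646831988643607871514) .nil (.nod (nat_lit 1134794237147874087365075019710882360641069589988717767897051562394) (.dwn (nat_lit 145264069824107386173000990330802589890628643676261029421254400166110598148726544820304) (nat_lit 615198720)) .nil .nil) .dup) .nil .nil l201 = true := by decide +kernel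
theorem cw916 : wchk (nat_lit 5) [] [l201] (nat_lit 3) (nat_lit 3) (nat_lit 2) (nat_lit 0) (nat_lit 5820672) (nat_lit 0) w916 = true := by decide +kernel
theorem cl202 : lchk (nat_lit 5) [w638, w91, w802, w915, w380, w853, w914, w431, w429] (nat_lit 22250496) (.nod (nat_lit 618971827423609361019175002) (.nod (nat_lit 6854694277657285655637256821791172382638997914) .nil .nil (.opn (nat_lit 426190238387406192962966104017365898118312691712))) .nil (.nod (nat_lit 290765897914026502604557010209210097273440162674868180308505657690) .nil (.dwn (nat_lit 145264065192423816680452790389902009569294367617735170047569413075339994904431943911448) (nat_lit 626230272)) (.opn (nat_lit 145264065192423816680452790389902009569294367617735170047569413075339994904431943911448)))) (.nod (nat_lit 618970646831988643607871514) .nil (.nod (nat_lit 1120126006246250257943430904243830050826357934017931092719011103130) (.dwn (nat_lit 145264067971433958375941863453233201985435225797124126128947697461442425286604274165824) (nat_lit 626230272)) .nil .nil) .dup) .nil .nil l202 = true := by decide +kernel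
theorem cw917 : wchk (nat_lit 5) [] [l202] (nat_lit 3) (nat_lit 3) (nat_lit 2) (nat_lit 0) (nat_lit 5820672) (nat_lit 0) w917 = true := by decide +kernel
theorem cw918 : wchk (nat_lit 5) [] [l46] (nat_lit 1) (nat_lit 1) (nat_lit 3) (nat_lit 0) (nat_lit 5528576) (nat_lit 0) w918 = true := by decide +kernel
theorem cw919 : wchk (nat_lit 5) [] [l180] (nat_lit 1) (nat_lit 3) (nat_lit 4) (nat_lit 0) (nat_lit 4903168) (nat_lit 0) w919 = true := by decide +kernel
theorem cw920 : wchk (nat_lit 5) [] [l180] (nat_lit 17) (nat_lit 3) (nat_lit 3) (nat_lit 0) (nat_lit 5820672) (nat_lit 0) w920 = true := by decide +kernel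
theorem cl203 : lchk (nat_lit 5) [w281, w109, w831, w4, w913, w918, w380, w919, w63, w920] (nat_lit 23282688) (.nod (nat_lit 618973008015230078430478490) (.nod (nat_lit 61127042209718827480430292194261061413927649690) .nil .nil (.dwn (nat_lit 426892711861159907591962560306272182324756383744) (nat_lit 627262464))) .nil (.nod (nat_lit 1134704047750140051490583431361809719704896134322872293906362401114) (.dwn (nat_lit 145264066118760530578982353878903517405410620232516406556259064572541339208494685259832) (nat_lit 627262464)) .nil .nil)) (.nod (nat_lit 618970646831988643607871514) .nil .nil (.dwn (nat_lit 14742905049162587083155261054615492016117645338) (nat_lit 23282724))) .nil .nil l203 = true := by decide +kernel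
theorem cw921 : wchk (nat_lit 5) [] [l203] (nat_lit 1) (nat_lit 3) (nat_lit 2) (nat_lit 0) (nat_lit 5820672) (nat_lit 0) w921 = true := by decide +kernel
theorem cw922 : wchk (nat_lit 5) [] [l120] (nat_lit 19) (nat_lit 2) (nat_lit 3) (nat_lit 0) (nat_lit 20270080) (nat_lit 0) w922 = true := by decide +kernel
theorem cw923 : wchk (nat_lit 5) [] [l64] (nat_lit 2) (nat_lit 2) (nat_lit 3) (nat_lit 0) (nat_lit 22596096) (nat_lit 0) w923 = true := by decide +kernel
theorem cw924 : wchk (nat_lit 5) [] [l46] (nat_lit 2) (nat_lit 3) (nat_lit 3) (nat_lit 0) (nat_lit 22192896) (nat_lit 0) w924 = true := by decide +kernel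
theorem cl204 : lchk (nat_lit 5) [w154, w161, w922, w833, w914, w281, w924, w920, w852, w159, w160, w923] (nat_lit 21727232) (.nod (nat_lit 618971827423609361019175002) (.nod (nat_lit 60814831776939398756448792138443984352843923866) .nil .nil (.dwn (nat_lit 425834123362517157074655400482017573485879431168) (nat_lit 625707008))) .nil (.dwn (nat_lit 292295702932161061408341485936208082453341765508515084634899349850) (nat_lit 90391568))) (.nod (nat_lit 618970646831988643607871514) .nil (.nod (nat_lit 1134794186931060204272033801485059925871136353640768265090077032858) .nil (.opn (nat_lit 7874780903935534036397648122285365073473822284943409284741715101744)) .dup) (.nod (nat_lit 292295954016230476829900126812488971403671798295924936820171735450) (.dwn (nat_lit 145131271119139606873415586899101942904201071344921618986015873050827128924485449058392) (nat_lit 625707008)) .nil .nil)) .nil .nil l204 = true := by decide +kernel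
theorem cw925 : wchk (nat_lit 5) [] [l204] (nat_lit 26) (nat_lit 3) (nat_lit 2) (nat_lit 0) (nat_lit 5820672) (nat_lit 0) w925 = true := by decide +kernel
theorem cw926 : wchk (nat_lit 5) [] [l40] (nat_lit 2) (nat_lit 2) (nat_lit 3) (nat_lit 0) (nat_lit 4385280) (nat_lit 0) w926 = true := by decide +kernel
theorem cw927 : wchk (nat_lit 5) [] [l64] (nat_lit 2) (nat_lit 2) (nat_lit 3) (nat_lit 0) (nat_lit 22596096) (nat_lit 0) w927 = true := by decide +kernel
theorem cl205 : lchk (nat_lit 5) [w152, w281, w174, w815, w431, w924, w920, w852, w160, w926, w170, w927] (nat_lit 21662720) (.nod (nat_lit 618971827423609361019175002) (.nod (nat_lit 61478278946595684794909479757055273107646841242) .nil .nil (.dwn (nat_lit 425790218770407549910343121963960930722976700416) (nat_lit 625642496))) .nil (.dwn (nat_lit 277627572464164998172570035091759092769556096469631597512100938074) (nat_lit 78327824))) (.nod (nat_lit 618970646831988643607871514) .nil (.nod (nat_lit 1134793986063804671836771068904166956960870735491090354127335588250) .nil (.dwn (nat_lit 145264067045097244477511917267471397474487785491427555469141100364594174047645923182632)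 (nat_lit 625642496)) .dup) (.nod (nat_lit 292295903799416593736454013403914650374832761770084521653749940634) (.dwn (nat_lit 145025030487759298416327314469726118037831691086766219410718438376773093194520616929368) (nat_lit 625642496)) .nil .nil)) .nil .nil l205 = true := by decide +kernel
theorem cw928 : wchk (nat_lit 5) [] [l205] (nat_lit 26) (nat_lit 3) (nat_lit 2) (nat_lit 0) (nat_lit 5820672) (nat_lit 0) w928 = true := by decide +kernel
theorem cl206 : lchk (nat_lit 5) [w15, w281, w802, w210, w915, w924, w920, w852] (nat_lit 23153664) (.nod (nat_lit 618971827423609361019175002) (.nod (nat_lit 61478278946595684794909479757055273107646841242) .nil .nil (.dwn (nat_lit 426804902676940693263338003270158896798950922240) (nat_lit 627133440))) .nil (.dwn (nat_lit 290765897914026502619958470528722114983086391227906533336010457434) (nat_lit 90391568))) (.nod (nat_lit 618970646831988643607871514) .nil (.nod (nat_lit 1134793986063804671898249347850762641755780207537406604424389853594) (.opn (nat_lit 145264067045097244477511917267471397474914678216900010053547459563154525625306178816040)) .dup .dup) (.dwn (nat_lit 292295903799416593736454013403914650374832761770084521653749940634)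 (nat_lit 90391572))) .nil .nil l206 = true := by decide +kernel
theorem cw929 : wchk (nat_lit 5) [] [l206] (nat_lit 26) (nat_lit 3) (nat_lit 2) (nat_lit 0) (nat_lit 5820672) (nat_lit 0) w929 = true := by decide +kernel
theorem cl207 : lchk (nat_lit 5) [w924, w1, w3, w15, w802, w8, w915, w281] (nat_lit 23282688) (.nod (nat_lit 618971827423609361019175002) (.nod (nat_lit 61429496066473899056787370373333854816852509082) .nil .nil (.nod (nat_lit 426809786409470742572165630065246615305350977560) .nil (.opn (nat_lit 61794673936935930330094004890534986331140902900445162754919889274880)) .dup)) .nil (.dwn (nat_lit 290765998347654268807206812370759792929055862780753717191652671834) (nat_lit 90391576))) (.nod (nat_lit 618970646831988643607871514) .nil (.dwn (nat_lit 1134794287364687970458926028302208567928814426692449095422920622490) (nat_lit 90391552)) .dup) .nil .nil l207 = true := by decide +kernel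
theorem cw930 : wchk (nat_lit 5) [] [l207] (nat_lit 26) (nat_lit 3) (nat_lit 2) (nat_lit 0) (nat_lit 5820672) (nat_lit 0) w930 = true := by decide +kernel
theorem cl208 : lchk (nat_lit 5) [w924, w1, w3, w15, w802, w7, w915, w281] (nat_lit 23282688) (.nod (nat_lit 618971827423609361019175002) (.nod (nat_lit 61429496066473899056787370373333854816852509082) .nil .nil (.nod (nat_lit 426809786409470742572165630065246615305350977560) .nil (.opn (nat_lit 1139910535232986959287753815764554957178356359658442233300565657073667531313694426695680)) .dup)) .nil (.dwn (nat_lit 290765998347654268807206812370759792929055862780753717191652671834) (nat_lit 90391576))) (.nod (nat_lit 618970646831988643607871514) .nil (.dwn (nat_lit 1134794287364687970458926028302208567928814426692449095422920622490) (nat_lit 90391552)) .dup) .nil .nil l208 = true := by decide +kernel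
theorem cw931 : wchk (nat_lit 5) [] [l208] (nat_lit 26) (nat_lit 3) (nat_lit 2) (nat_lit 0) (nat_lit 5820672) (nat_lit 0) w931 = true := by decide +kernel
theorem cw932 : wchk (nat_lit 5) [] [l57] (nat_lit 2) (nat_lit 3) (nat_lit 2) (nat_lit 0) (nat_lit 22205440) (nat_lit 0) w932 = true := by decide +kernel
theorem cl209 : lchk (nat_lit 5) [w803, w42, w16, w461, w921, w925, w794, w928, w929, w909, w15, w261, w910, w911, w912, w281, w916, w796, w917, w259, w930, w931, w932] (nat_lit 23160832) .nil (.nod (nat_lit 14825817229839442186529979416795427440183169033) .nil (.nod (nat_lit 15762451250436663726016037361766680284150059025) (.nod (nat_lit 15840506240608089353587003609023386890932998168) .nil (.nod (nat_lit 292295803365788827548590996383306730659295466967463184353788907528) (.dwn (nat_lit 9097082322421256803267650867488657538685116798437579193312180920130856610517411180480568) (nat_lit 39281968160)) .nil .nil) (.nod (nat_lit 292295803365788827548590996383306730659295466967463184353788907528) (.dwn (nat_lit 9097082322421256803267650867488657538685116798437579193312180920130856610517411180480568) (nat_lit 39281968160)) .nil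 .nil)) .nil (.nod (nat_lit 5391910510191606957554132676730836321385997573596908851215171313042622251894947663952) (.dwn (nat_lit 20933263500670867323103749246903505099442211090016990428767888918992900573941766719592) (nat_lit 4922107904)) .nil .nil)) (.nod (nat_lit 292296305533927658484066825264618825770696737084797796958642786424) (.dwn (nat_lit 20933268132354436822490833199370806783449066760596787487098001839357261158333130901648) (nat_lit 627140608)) .nil .nil)) .nil (.nod (nat_lit 15533217651983805083558229578709089868662081688) (.dwn (nat_lit 20933271837701292409869820195965750672812591546133055244148051089999678453491984664752) (nat_lit 90269696)) .nil .nil) l209 = true := by decide +kernel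
theorem cw933 : wchk (nat_lit 5) [] [l209] (nat_lit 26) (nat_lit 2) (nat_lit 1) (nat_lit 0) (nat_lit 156815616) (nat_lit 0) w933 = true := by decide +kernel
theorem cw934 : wchk (nat_lit 5) [w933] [] (nat_lit 0) (nat_lit 0) (nat_lit 1) (nat_lit 2) (nat_lit 23282688) (nat_lit 209) w934 = true := by decide +kernel
theorem cl210 : lchk (nat_lit 5) [w891, w1, w734, w281, w152, w153, w154, w212, w278] (nat_lit 10839040) .nil (.nod (nat_lit 1133264187322771848481135884828047593370936006632625557001570615707) (.nod (nat_lit 618971845870353434695172490) (.nod (nat_lit 618970646831988643607871642) .nil (.nod (nat_lit 61794674037369558092992479409775764913835701902486531961528080400794) (.nod (nat_lit 7855253292388071020381267479031334265788677342694102117984012554280) .nil (.opn (nat_lit 3943870773917717378973964857102253643099923915294648794619395181299712)) .dup) (.dwn (nat_lit 144903848971520520575884421034593281094699374678678273673658548901658079839655179014184) (nat_lit 39269524480)) .dup) (.nod (nat_lit 61794674037369558092992113549063887262269816912936608762163705676186) (.dwn (nat_lit 144903848971520520575884421034593281094699374678678273673658548901658079839655179014184)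 (nat_lit 39269524480)) .nil .nil)) .nil .nil) .nil (.dwn (nat_lit 2222094014326946468695871864047881374737481635491707168489498) (nat_lit 77947904))) .nil .nil l210 = true := by decide +kernel
theorem cw935 : wchk (nat_lit 5) [] [l210] (nat_lit 18) (nat_lit 3) (nat_lit 2) (nat_lit 0) (nat_lit 156815616) (nat_lit 0) w935 = true := by decide +kernel
theorem cw936 : wchk (nat_lit 5) [w284] [] (nat_lit 2) (nat_lit 0) (nat_lit 1) (nat_lit 2) (nat_lit 23282688) (nat_lit 209) w936 = true := by decide +kernel
theorem cw937 : wchk (nat_lit 5) [] [l48] (nat_lit 18) (nat_lit 2) (nat_lit 3) (nat_lit 0) (nat_lit 156408832) (nat_lit 0) w937 = true := by decide +kernel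
theorem cw938 : wchk (nat_lit 5) [w1] [] (nat_lit 1) (nat_lit 1) (nat_lit 4) (nat_lit 2) (nat_lit 18523136) (nat_lit 197) w938 = true := by decide +kernel
theorem cw939 : wchk (nat_lit 5) [] [l149] (nat_lit 18) (nat_lit 2) (nat_lit 2) (nat_lit 0) (nat_lit 156815616) (nat_lit 0) w939 = true := by decide +kernel
theorem cw940 : wchk (nat_lit 5) [w713] [] (nat_lit 1) (nat_lit 1) (nat_lit 4) (nat_lit 2) (nat_lit 85804032) (nat_lit 197) w940 = true := by decide +kernel
theorem cw941 : wchk (nat_lit 5) [w712] [] (nat_lit 1) (nat_lit 1) (nat_lit 4) (nat_lit 2) (nat_lit 85796864) (nat_lit 197) w941 = true := by decide +kernel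
theorem cw942 : wchk (nat_lit 5) [w714] [] (nat_lit 1) (nat_lit 1) (nat_lit 4) (nat_lit 2) (nat_lit 85796864) (nat_lit 197) w942 = true := by decide +kernel
theorem cw943 : wchk (nat_lit 5) [w581] [] (nat_lit 1) (nat_lit 1) (nat_lit 4) (nat_lit 2) (nat_lit 86714368) (nat_lit 197) w943 = true := by decide +kernel
theorem cw944 : wchk (nat_lit 5) [w42] [] (nat_lit 1) (nat_lit 1) (nat_lit 4) (nat_lit 2) (nat_lit 85144576) (nat_lit 197) w944 = true := by decide +kernel
theorem cw945 : wchk (nat_lit 5) [] [l151] (nat_lit 18) (nat_lit 2) (nat_lit 2) (nat_lit 0) (nat_lit 156815616) (nat_lit 0) w945 = true := by decide +kernel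
theorem cw946 : wchk (nat_lit 5) [] [l168] (nat_lit 1) (nat_lit 1) (nat_lit 2) (nat_lit 0) (nat_lit 22579968) (nat_lit 0) w946 = true := by decide +kernel
theorem cw947 : wchk (nat_lit 5) [] [l153] (nat_lit 18) (nat_lit 2) (nat_lit 2) (nat_lit 0) (nat_lit 156815616) (nat_lit 0) w947 = true := by decide +kernel
theorem cw948 : wchk (nat_lit 5) [] [l154] (nat_lit 18) (nat_lit 2) (nat_lit 2) (nat_lit 0) (nat_lit 156815616) (nat_lit 0) w948 = true := by decide +kernel
theorem cw949 : wchk (nat_lit 5) [] [l23] (nat_lit 1) (nat_lit 1) (nat_lit 2) (nat_lit 0) (nat_lit 22434816) (nat_lit 0) w949 = true := by decide +kernel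
theorem cw950 : wchk (nat_lit 5) [] [] (nat_lit 2) (nat_lit 1) (nat_lit 3) (nat_lit 2) (nat_lit 169) (nat_lit 25165905) w950 = true := by decide +kernel
theorem cw951 : wchk (nat_lit 5) [] [l28] (nat_lit 1) (nat_lit 2) (nat_lit 3) (nat_lit 0) (nat_lit 28871936) (nat_lit 0) w951 = true := by decide +kernel
theorem cw952 : wchk (nat_lit 5) [] [l53] (nat_lit 1) (nat_lit 2) (nat_lit 2) (nat_lit 0) (nat_lit 21678592) (nat_lit 0) w952 = true := by decide +kernel
theorem cw953 : wchk (nat_lit 5) [] [l8] (nat_lit 26) (nat_lit 0) (nat_lit 2) (nat_lit 1) (nat_lit 21451008) (nat_lit 0) w953 = true := by decide +kernel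
theorem cw954 : wchk (nat_lit 5) [] [l8] (nat_lit 26) (nat_lit 0) (nat_lit 3) (nat_lit 1) (nat_lit 20533504) (nat_lit 0) w954 = true := by decide +kernel
theorem cw955 : wchk (nat_lit 5) [] [l8] (nat_lit 26) (nat_lit 0) (nat_lit 2) (nat_lit 1) (nat_lit 21451008) (nat_lit 0) w955 = true := by decide +kernel
theorem cl211 : lchk (nat_lit 5) [w200, w281, w761, w951, w952, w86, w3, w953, w954, w955, w904, w216, w903, w950] (nat_lit 17519616) .nil (.nod (nat_lit 61429496406756265980755772332836978974521294848) (.nod (nat_lit 117737698954644708364562613668305679941787) .nil (.nod (nat_lit 858980016489914754832705568) .nil .nil (.dwn (nat_lit 1138575898938376802645769595597122979098030942957785302563048477698379692533785164775450) (nat_lit 4916466688))) .nil) (.nod (nat_lit 28355334479379205569175036139713787455199325497597556124163810671002024312745114634288) .nil (.opn (nat_lit 145264068897770672266696263190888437461043894593982205341883508244387238908797523494984)) .dup) (.dwn (nat_lit 27641541092801124122948330267482739088700202049738048411023591014290123389419513882720) (nat_lit 90391604))) .nil .nil l211 = true := by decide +kernel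
theorem cw956 : wchk (nat_lit 5) [] [l211] (nat_lit 17) (nat_lit 3) (nat_lit 1) (nat_lit 0) (nat_lit 5820672) (nat_lit 0) w956 = true := by decide +kernel
theorem cw957 : wchk (nat_lit 5) [] [] (nat_lit 2) (nat_lit 1) (nat_lit 3) (nat_lit 2) (nat_lit 169) (nat_lit 25165841) w957 = true := by decide +kernel
theorem cl212 : lchk (nat_lit 5) [w200, w174, w391, w951, w952, w745, w3, w953, w954, w955, w808, w243, w903, w957] (nat_lit 17519616) .nil (.nod (nat_lit 608512074515396967000840745588011744221366059008) (.nod (nat_lit 117737698954644708364562613668305679941659) .nil (.nod (nat_lit 858980016489914754832705568) (.nod (nat_lit 61722323158431213548578107602766452081967773652732551382114588688410) .nil (.opn (nat_lit 493081469832841450289980349035336163723500631702911276950535410198528)) .dup) .nil .nil) .nil) (.nod (nat_lit 27840735908074294426121418910977577002634137162545902955082214854457417098524496660528) .nil (.dwn (nat_lit 145264068897770672266696263190888437461043894593982205341883508244387238908797523494984) (nat_lit 621499392)) (.dwn (nat_lit 145264068897770672266696263190888437461043894593982205341883508244387238908797523494984)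 (nat_lit 621499392))) (.dwn (nat_lit 19870865523898207839270482640188663462130574693529490326016341375334506248598679890016) (nat_lit 90391604))) .nil .nil l212 = true := by decide +kernel
theorem cw958 : wchk (nat_lit 5) [] [l212] (nat_lit 145) (nat_lit 3) (nat_lit 1) (nat_lit 0) (nat_lit 5820672) (nat_lit 0) w958 = true := by decide +kernel
theorem cw959 : wchk (nat_lit 5) [] [l40] (nat_lit 3) (nat_lit 3) (nat_lit 3) (nat_lit 0) (nat_lit 3713280) (nat_lit 0) w959 = true := by decide +kernel
theorem cl213 : lchk (nat_lit 5) [w42, w164, w267, w431, w722, w721, w959, w16, w956, w3, w461, w39, w958, w1, w712, w713, w581, w714] (nat_lit 21777408) (.nod (nat_lit 57682971213403121290876281112817848417372864538) (.nod (nat_lit 1122375619074585078131248102008374566730871097315065929765929091072) .nil .nil (.dwn (nat_lit 7855883011234165012195573527145429574594507125608049103326333108224) (nat_lit 625757184))) (.nod (nat_lit 20933257942650583930791574377047467296549667608048809528203276217548834614505262188576) .nil (.dwn (nat_lit 144915463381239380331694933606285521506653289863567444226096628040688591291416929933312) (nat_lit 625757184))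 (.dwn (nat_lit 144915463381239380331694933606285521506653289863567444226096628040688591291416929933312) (nat_lit 625757184))) (.dwn (nat_lit 20933257942650583931913949996122052374630496504589679366233203614668698588490872817712) (nat_lit 88886272))) .nil (.nod (nat_lit 816139316499875765892110393) (.nod (nat_lit 1134794337581501853490893843708374656590190037222995244113268310426) .nil (.dwn (nat_lit 292206065919379739972419095827807311248861457583020721543858260056) (nat_lit 625757184)) .dup) .nil (.nod (nat_lit 5391913289201748653433589292733455746512487807146994386391653802990273909824352682330) (.dwn (nat_lit 145264075382127669564277988266750456931378192578714128696599986978781045560184902420616) (nat_lit 625757184)) .nil .nil)) .nil l213 = true := by decide +kernel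
theorem cw960 : wchk (nat_lit 5) [] [l213] (nat_lit 3) (nat_lit 2) (nat_lit 2) (nat_lit 0) (nat_lit 22597888) (nat_lit 0) w960 = true := by decide +kernel
theorem cw961 : wchk (nat_lit 5) [w61, w177] [] (nat_lit 18) (nat_lit 1) (nat_lit 3) (nat_lit 2) (nat_lit 627262464) (nat_lit 23275524) w961 = true := by decide +kernel
theorem cw962 : wchk (nat_lit 5) [] [l160] (nat_lit 18) (nat_lit 2) (nat_lit 2) (nat_lit 0) (nat_lit 156815616) (nat_lit 0) w962 = true := by decide +kernel
theorem cw963 : wchk (nat_lit 5) [] [l166] (nat_lit 18) (nat_lit 2) (nat_lit 2) (nat_lit 0) (nat_lit 156815616) (nat_lit 0) w963 = true := by decide +kernel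
theorem cw964 : wchk (nat_lit 5) [w42] [] (nat_lit 17) (nat_lit 0) (nat_lit 4) (nat_lit 2) (nat_lit 197) (nat_lit 85144576) w964 = true := by decide +kernel
theorem cw965 : wchk (nat_lit 5) [] [l155] (nat_lit 210) (nat_lit 0) (nat_lit 3) (nat_lit 1) (nat_lit 156700928) (nat_lit 0) w965 = true := by decide +kernel
theorem cw966 : wchk (nat_lit 5) [] [l155] (nat_lit 210) (nat_lit 0) (nat_lit 2) (nat_lit 1) (nat_lit 156815616) (nat_lit 0) w966 = true := by decide +kernel
theorem cl214 : lchk (nat_lit 5) [w737, w35, w960, w42, w937, w177, w724, w495, w945, w946, w944, w947, w948, w727, w965, w966, w938, w939, w713, w940, w941, w942, w943, w961, w962, w963, w181, w964] (nat_lit 23282688) .nil (.nod (nat_lit 292205670461970410184677261393421816511635137310662049348767352849) (.nod (nat_lit 2623828525391693403390649791608663133845312502361282142273930) (.nod (nat_lit 426892722750195649061976466763080825690383601705) .nil (.nod (nat_lit 15845392695397074029922602563631005551612317752) (.nod (nat_lit 493153821013080678106225436508845399046796862498106002048040820181064) .nil (.dwn (nat_lit 7874781104802789568771432575919662357589178431637066755766107932752)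 (nat_lit 314159875072)) .dup) (.dwn (nat_lit 9097082327979277087150848804601883013185438964012015946656937670564774239619751397992472) (nat_lit 90391592)) (.dwn (nat_lit 9097082327979277087150848804601883013185438964012015946656937670564774239619751397992472) (nat_lit 90391592))) .nil) (.nod (nat_lit 28703940922247211402705929112884583479175497307469815468711135994287779486612625729560) .nil (.dwn (nat_lit 5391903099497895769317625568187795768694028516264255309776813086810617580962764458104) (nat_lit 4922229760)) (.dwn (nat_lit 5391903099497895769317625568187795768694028516264255309776813086810617580962764458104) (nat_lit 4922229760))) (.nod (nat_lit 28703943701257353106169400734908710437684972878906009771049351940804570292801270089872) (.dwn (nat_lit 207429484565034569329718579812420361681435132927201447735138712604264573341514892478640) (nat_lit 895697960)) .nil .nil)) .nil (.nod (nat_lit 2222094014326946507763009845506987805967426116755478812819786) (.dwn (nat_lit 145264084645494808549573622654597396457344491691740672229175862299235318702974888741080) (nat_lit 627262464)) .nil .nil)) .nil .nil l214 = true := by decide +kernel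
theorem cw967 : wchk (nat_lit 5) [] [l214] (nat_lit 146) (nat_lit 3) (nat_lit 1) (nat_lit 0) (nat_lit 1230557440) (nat_lit 0) w967 = true := by decide +kernel
theorem cw968 : wchk (nat_lit 5) [w42] [] (nat_lit 1) (nat_lit 1) (nat_lit 1) (nat_lit 2) (nat_lit 89925632) (nat_lit 209) w968 = true := by decide +kernel
theorem cw969 : wchk (nat_lit 5) [w819] [] (nat_lit 1) (nat_lit 1) (nat_lit 1) (nat_lit 2) (nat_lit 86721536) (nat_lit 209) w969 = true := by decide +kernel
theorem cw970 : wchk (nat_lit 5) [w16] [] (nat_lit 0) (nat_lit 0) (nat_lit 4) (nat_lit 2) (nat_lit 17541120) (nat_lit 197) w970 = true := by decide +kernel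
theorem cw971 : wchk (nat_lit 5) [] [l29] (nat_lit 1) (nat_lit 2) (nat_lit 1) (nat_lit 0) (nat_lit 19081984) (nat_lit 0) w971 = true := by decide +kernel
theorem cw972 : wchk (nat_lit 5) [] [l23] (nat_lit 0) (nat_lit 2) (nat_lit 2) (nat_lit 0) (nat_lit 2645248) (nat_lit 0) w972 = true := by decide +kernel
theorem cw973 : wchk (nat_lit 5) [w20] [] (nat_lit 1) (nat_lit 1) (nat_lit 1) (nat_lit 2) (nat_lit 85804032) (nat_lit 209) w973 = true := by decide +kernel
theorem cw974 : wchk (nat_lit 5) [w143] [] (nat_lit 18) (nat_lit 1) (nat_lit 2) (nat_lit 2) (nat_lit 621442048) (nat_lit 25165837) w974 = true := by decide +kernel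
theorem cw975 : wchk (nat_lit 5) [w812] [] (nat_lit 1) (nat_lit 1) (nat_lit 1) (nat_lit 2) (nat_lit 86721536) (nat_lit 209) w975 = true := by decide +kernel
theorem cw976 : wchk (nat_lit 5) [] [l46] (nat_lit 1) (nat_lit 2) (nat_lit 3) (nat_lit 0) (nat_lit 3320832) (nat_lit 0) w976 = true := by decide +kernel
theorem cw977 : wchk (nat_lit 5) [w233] [] (nat_lit 1) (nat_lit 1) (nat_lit 1) (nat_lit 2) (nat_lit 15347712) (nat_lit 209) w977 = true := by decide +kernel
theorem cw978 : wchk (nat_lit 5) [w976] [] (nat_lit 1) (nat_lit 1) (nat_lit 1) (nat_lit 2) (nat_lit 90391552) (nat_lit 209) w978 = true := by decide +kernel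
theorem cw979 : wchk (nat_lit 5) [] [l65] (nat_lit 1) (nat_lit 3) (nat_lit 2) (nat_lit 0) (nat_lit 21451008) (nat_lit 0) w979 = true := by decide +kernel
theorem cw980 : wchk (nat_lit 5) [w979] [] (nat_lit 1) (nat_lit 1) (nat_lit 1) (nat_lit 2) (nat_lit 90391552) (nat_lit 209) w980 = true := by decide +kernel
theorem cw981 : wchk (nat_lit 5) [] [l7] (nat_lit 1) (nat_lit 0) (nat_lit 3) (nat_lit 0) (nat_lit 5431808) (nat_lit 0) w981 = true := by decide +kernel
theorem cw982 : wchk (nat_lit 5) [w981] [] (nat_lit 1) (nat_lit 1) (nat_lit 1) (nat_lit 2) (nat_lit 90391552) (nat_lit 209) w982 = true := by decide +kernel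
theorem cw983 : wchk (nat_lit 5) [] [l65] (nat_lit 1) (nat_lit 2) (nat_lit 3) (nat_lit 0) (nat_lit 20533504) (nat_lit 0) w983 = true := by decide +kernel
theorem cw984 : wchk (nat_lit 5) [w983] [] (nat_lit 1) (nat_lit 1) (nat_lit 1) (nat_lit 2) (nat_lit 90391552) (nat_lit 209) w984 = true := by decide +kernel
theorem cw985 : wchk (nat_lit 5) [w888] [] (nat_lit 1) (nat_lit 1) (nat_lit 1) (nat_lit 2) (nat_lit 85804032) (nat_lit 209) w985 = true := by decide +kernel
theorem cw986 : wchk (nat_lit 5) [w878] [] (nat_lit 1) (nat_lit 1) (nat_lit 1) (nat_lit 2) (nat_lit 86721536) (nat_lit 209) w986 = true := by decide +kernel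
theorem cw987 : wchk (nat_lit 5) [] [] (nat_lit 17) (nat_lit 1) (nat_lit 1) (nat_lit 2) (nat_lit 16777225) (nat_lit 209) w987 = true := by decide +kernel
theorem cw988 : wchk (nat_lit 5) [] [l17] (nat_lit 17) (nat_lit 1) (nat_lit 1) (nat_lit 0) (nat_lit 154493184) (nat_lit 0) w988 = true := by decide +kernel
theorem cw989 : wchk (nat_lit 5) [] [l17] (nat_lit 17) (nat_lit 1) (nat_lit 1) (nat_lit 0) (nat_lit 154428672) (nat_lit 0) w989 = true := by decide +kernel
theorem cw990 : wchk (nat_lit 5) [] [l8] (nat_lit 2) (nat_lit 0) (nat_lit 4) (nat_lit 0) (nat_lit 2673920) (nat_lit 0) w990 = true := by decide +kernel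
theorem cl215 : lchk (nat_lit 5) [] (nat_lit 150995081) .nil (.nod (nat_lit 210626309540091604733046110209432246746054618948845450118146555923) (.nod (nat_lit 88813697766364938963940772539691536744531) (.nod (nat_lit 11417993111248154360374045510332613771181162496) .nil (.nod (nat_lit 88473415399444619470829082015723956469760) .nil .nil .nil) .nil) .nil .nil) .nil .nil) .nil .nil l215 = true := by decide +kernel
theorem cw991 : wchk (nat_lit 5) [] [l215] (nat_lit 18) (nat_lit 3) (nat_lit 1) (nat_lit 0) (nat_lit 156815616) (nat_lit 0) w991 = true := by decide +kernel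
theorem cl216 : lchk (nat_lit 5) [w754, w39, w3, w143, w720, w987, w734, w988, w753, w783, w767, w989, w990, w991, w752, w751, w717] (nat_lit 4909212672) .nil (.nod (nat_lit 7771113872017330375234442545993750966763910889982934364665745532945) (.nod (nat_lit 2623828525391632559417771513834575254998817545721514869916042) (.nod (nat_lit 7751586455060021156221323179332850910534528864959436956800372441088) .nil (.nod (nat_lit 11417984944471348258229656771563991313588158464) .nil .nil .nil) .nil) .nil (.nod (nat_lit 215200147165223491022737768787997788780425496331764626467191513819821738942361968920624) (.dwn (nat_lit 1699399182678353929003247692474002087260598810304139862800116945152019157459983760001112) (nat_lit 882680832)) .nil .nil)) .nil (.nod (nat_lit 2222094014326946507733064997217945238106134886380394891968842) (.opn (nat_lit 17918710943722157825103124913909864703842042908219574168275431332574841447723638016128)) .nil .nil)) .nil .nil l216 = true := by decide +kernel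
theorem cw992 : wchk (nat_lit 5) [] [l216] (nat_lit 17) (nat_lit 2) (nat_lit 3) (nat_lit 0) (nat_lit 165204224) (nat_lit 0) w992 = true := by decide +kernel
theorem cw993 : wchk (nat_lit 5) [w162] [] (nat_lit 1) (nat_lit 0) (nat_lit 2) (nat_lit 2) (nat_lit 88771584) (nat_lit 25165837) w993 = true := by decide +kernel
theorem cl217 : lchk (nat_lit 5) [w3, w6, w8, w11, w12, w13] (nat_lit 18523136) (.nod (nat_lit 17126981159813058518027937042639163395512729600) (.nod (nat_lit 139515770437584770027399180164656206446592) .nil .nil (.dwn (nat_lit 7815028218396924443015744401920134668490125216630851364873780068352) (nat_lit 18494464))) .nil (.nod (nat_lit 19870857186867782751014240092481835116413321081677840794448556281938618589301271865360) (.opn (nat_lit 19831019150149862589685833140586172072040113435016306005888818649120416343889359955992)) .nil .nil)) .nil (.nod (nat_lit 11417990388989218993485308155019837781256962048) (.nod (nat_lit 11417990388989218993485308155019837781428226048) .nil (.opn (nat_lit 7815028218396924443427979940152218784077118809227702510020900243456)) .dup) .nil .nil) .nil l217 = true := by decide +kernel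
theorem cw994 : wchk (nat_lit 5) [] [l217] (nat_lit 1) (nat_lit 2) (nat_lit 1) (nat_lit 0) (nat_lit 22597888) (nat_lit 0) w994 = true := by decide +kernel
theorem cw995 : wchk (nat_lit 5) [w38] [] (nat_lit 18) (nat_lit 1) (nat_lit 3) (nat_lit 2) (nat_lit 627133440) (nat_lit 25165833) w995 = true := by decide +kernel
theorem cw996 : wchk (nat_lit 5) [] [] (nat_lit 1) (nat_lit 0) (nat_lit 2) (nat_lit 2) (nat_lit 165) (nat_lit 25165837) w996 = true := by decide +kernel
theorem cw997 : wchk (nat_lit 5) [] [] (nat_lit 1) (nat_lit 0) (nat_lit 2) (nat_lit 2) (nat_lit 165) (nat_lit 25165837) w997 = true := by decide +kernel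
theorem cw998 : wchk (nat_lit 5) [] [] (nat_lit 2) (nat_lit 1) (nat_lit 2) (nat_lit 2) (nat_lit 165) (nat_lit 25165837) w998 = true := by decide +kernel
theorem cw999 : wchk (nat_lit 5) [] [l28] (nat_lit 1) (nat_lit 2) (nat_lit 3) (nat_lit 0) (nat_lit 19483392) (nat_lit 0) w999 = true := by decide +kernel
theorem cw1000 : wchk (nat_lit 5) [] [l53] (nat_lit 1) (nat_lit 2) (nat_lit 1) (nat_lit 0) (nat_lit 20483328) (nat_lit 0) w1000 = true := by decide +kernel
theorem cw1001 : wchk (nat_lit 5) [] [] (nat_lit 2) (nat_lit 1) (nat_lit 2) (nat_lit 2) (nat_lit 197) (nat_lit 25165837) w1001 = true := by decide +kernel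
theorem cl218 : lchk (nat_lit 5) [w201, w819, w971, w999, w1000, w745, w3, w389, w954, w1001, w996, w13, w997, w998] (nat_lit 9154560) .nil (.nod (nat_lit 1088719864735912638104630003941584981702873870368631391422620106752) (.nod (nat_lit 2523394897625445667174280529213392520671440461299632039788544) .nil (.nod (nat_lit 15845384528620267927358489006421213489328553984) (.nod (nat_lit 11417990388989218993485308155019837791073165312) .nil (.opn (nat_lit 492976453217773036757487437766567271669461441911686905861573073920000)) .dup) .nil .nil) .nil) (.nod (nat_lit 26791618820768798160283078811472528060038044809199723228956955486796702759479533916216) .nil (.dwn (nat_lit 144048953197671273409503034048768402727378720150530480858876968634826852268157568501824) (nat_lit 613134336)) .dup) (.dwn (nat_lit 28703938143237069707117241068841329831280478284484240779717613629778634217893239621728) (nat_lit 90391604))) .nil .nil l218 = true := by decide +kernel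
theorem cw1002 : wchk (nat_lit 5) [] [l218] (nat_lit 2) (nat_lit 0) (nat_lit 4) (nat_lit 0) (nat_lit 5820672) (nat_lit 0) w1002 = true := by decide +kernel
theorem cw1003 : wchk (nat_lit 5) [w819] [] (nat_lit 17) (nat_lit 0) (nat_lit 1) (nat_lit 2) (nat_lit 209) (nat_lit 86721536) w1003 = true := by decide +kernel
theorem cw1004 : wchk (nat_lit 5) [w819] [] (nat_lit 17) (nat_lit 0) (nat_lit 1) (nat_lit 2) (nat_lit 209) (nat_lit 86721536) w1004 = true := by decide +kernel
theorem cw1005 : wchk (nat_lit 5) [] [] (nat_lit 1) (nat_lit 0) (nat_lit 2) (nat_lit 2) (nat_lit 205) (nat_lit 25165837) w1005 = true := by decide +kernel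
theorem cw1006 : wchk (nat_lit 5) [] [] (nat_lit 1) (nat_lit 0) (nat_lit 2) (nat_lit 2) (nat_lit 173) (nat_lit 25165837) w1006 = true := by decide +kernel
theorem cl219 : lchk (nat_lit 5) [w201, w971, w972, w1005, w1006] (nat_lit 17) (.nod (nat_lit 35082240) .nil .nil .nil) (.nod (nat_lit 61517305590975480309680482982601459150109016324) (.nod (nat_lit 210626403696617635544675647969807680982290527987607704895693520896) .nil (.nod (nat_lit 102761932556715518513921729705339797645155106816) (.nod (nat_lit 11417990388989218993485308155019837783706435874) .nil (.opn (nat_lit 123215383072571411705381033202819117194117552496568341967401281126690)) .dup) .nil .nil) .nil) (.nod (nat_lit 3885371364157336963746223052929307968311348694146105673128866098030546453810110695448) .nil (.dwn (nat_lit 34968073639769002100142610228802525461756546561919064930265137940418942318262072901922) (nat_lit 150995089)) .dup) (.dwn (nat_lit 3885371364157336963746223052929307968322766774369639759249486790164778570113953990688) (nat_lit 16777361))) .nil .nil l219 = true := by decide +kernel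
theorem cw1007 : wchk (nat_lit 5) [] [l219] (nat_lit 17) (nat_lit 3) (nat_lit 1) (nat_lit 0) (nat_lit 5820672) (nat_lit 0) w1007 = true := by decide +kernel
theorem cw1008 : wchk (nat_lit 5) [w39] [] (nat_lit 1) (nat_lit 1) (nat_lit 1) (nat_lit 2) (nat_lit 85287936) (nat_lit 209) w1008 = true := by decide +kernel
theorem cw1009 : wchk (nat_lit 5) [w866] [] (nat_lit 1) (nat_lit 1) (nat_lit 1) (nat_lit 2) (nat_lit 86721536) (nat_lit 209) w1009 = true := by decide +kernel
theorem cw1010 : wchk (nat_lit 5) [] [] (nat_lit 0) (nat_lit 2) (nat_lit 1) (nat_lit 2) (nat_lit 25165869) (nat_lit 33554465) w1010 = true := by decide +kernel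
theorem cl220 : lchk (nat_lit 5) [w15, w1, w1010, w149, w638, w432, w281, w153, w152, w154] (nat_lit 9269248) (.nod (nat_lit 7770684137517519845497558552509909551787411022084207003390552403174489506035949109248) .nil (.nod (nat_lit 2422961269859310759971089613538318401456600698015393068875776) .nil (.nod (nat_lit 417355658797350795788573171106190337716440981504) (.opn (nat_lit 3340358933459156632354399161567285052223983902720)) .nil .nil) .nil) (.nod (nat_lit 3885353763759772891684517665803308985896278165188490115095778319877055422631700856832) (.opn (nat_lit 142485232907377296507760063252906012323498947034804697679189195921468782903894521497640)) .nil .nil)) .nil .nil (.nod (nat_lit 3885353763759772891684517665803308985880432783382128782535886548731707665255415939072) .nil (.nod (nat_lit 45622083159502580999309929363282346405390194744691800044937085038083192219762688) (.dwn (nat_lit 142485236612724152101878317008044788133886182812695502906855238857747300834041650501704) (nat_lit 613249024)) .nil .nil) .dup) l220 = true := by decide +kernel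
theorem cw1011 : wchk (nat_lit 5) [] [l220] (nat_lit 2257) (nat_lit 1) (nat_lit 4) (nat_lit 0) (nat_lit 22597888) (nat_lit 0) w1011 = true := by decide +kernel
theorem cw1012 : wchk (nat_lit 5) [w1011] [] (nat_lit 17) (nat_lit 1) (nat_lit 4) (nat_lit 2) (nat_lit 627262464) (nat_lit 197) w1012 = true := by decide +kernel
theorem cw1013 : wchk (nat_lit 5) [w39] [] (nat_lit 1) (nat_lit 1) (nat_lit 1) (nat_lit 2) (nat_lit 85029888) (nat_lit 209) w1013 = true := by decide +kernel
theorem cl221 : lchk (nat_lit 5) [w969, w993, w994, w971, w972, w970, w724, w992, w973, w815, w762, w974, w1008, w1009, w1012, w1013, w986, w975, w976, w767, w783, w977, w978, w980, w982, w984, w985, w995, w1002, w1003, w1004, w181, w1007] (nat_lit 4922229760) .nil (.nod (nat_lit 7874780659128566355890205604494864048577823249517849896057934612497) (.nod (nat_lit 2623828525391694076594395472251849257829476318869204179616138) (.nod (nat_lit 292295853582602710644338271680160466494001680375793179032350097408) .nil (.nod (nat_lit 7298632098060212710465717715271214373200199680) (.nod (nat_lit 11417990388989218993485308155019837781303527480) .nil (.dwn (nat_lit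 7874780602634650737836971441833919147300788064902923078205125855232) (nat_lit 627262464)) .dup) .nil .nil) .nil) (.nod (nat_lit 28703936290563641911568081596912733845771527271392245958788826179170962758732490377304) .nil (.dwn (nat_lit 207429478080677572040011635740927504012648589895583138344813565378417377251471464499320) (nat_lit 895697984)) .dup) (.nod (nat_lit 28703944627594066998380226673579973188329808935159670185463202390077920568277903771816) (.dwn (nat_lit 207429487344044711025307270128774443539225259745906802673598766661414406587287974873296) (nat_lit 895697984)) .nil .nil)) .nil (.nod (nat_lit 2222094014326946507773898881248457853723953448561052223537482) (.dwn (nat_lit 1202075966647974992679698603828210260997464763893863545202407501856768398532259160164608) (nat_lit 5190665216)) .nil .nil)) .nil .nil l221 = true := by decide +kernel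
theorem cw1014 : wchk (nat_lit 5) [] [l221] (nat_lit 146) (nat_lit 3) (nat_lit 4) (nat_lit 0) (nat_lit 1230557440) (nat_lit 0) w1014 = true := by decide +kernel
theorem cw1015 : wchk (nat_lit 5) [] [l7] (nat_lit 0) (nat_lit 3) (nat_lit 3) (nat_lit 0) (nat_lit 5661184) (nat_lit 0) w1015 = true := by decide +kernel
theorem cw1016 : wchk (nat_lit 5) [] [l154] (nat_lit 18) (nat_lit 2) (nat_lit 3) (nat_lit 0) (nat_lit 156700928) (nat_lit 0) w1016 = true := by decide +kernel
theorem cw1017 : wchk (nat_lit 5) [] [l144] (nat_lit 3) (nat_lit 3) (nat_lit 2) (nat_lit 0) (nat_lit 5677312) (nat_lit 0) w1017 = true := by decide +kernel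
theorem cw1018 : wchk (nat_lit 5) [w928] [] (nat_lit 145) (nat_lit 1) (nat_lit 1) (nat_lit 2) (nat_lit 4922222592) (nat_lit 209) w1018 = true := by decide +kernel
theorem cl222 : lchk (nat_lit 5) [w15, w168, w281, w431, w815, w1, w4, w91, w638] (nat_lit 23153664) (.nod (nat_lit 618971827423609361019175002) (.nod (nat_lit 1120125855595808608663102320594131444887465246317154130877904585114) (.opn (nat_lit 142470292948855541023013475835161390861748894019979213607376603803191803966949613264920)) .dup .dup) .nil (.dwn (nat_lit 1120125855595808608662468148597066101026893238562177791288458346842) (nat_lit 78327820))) (.nod (nat_lit 618970646831988643607871514) .nil (.nod (nat_lit 1133264381912925645468239563737519712808594913516383358197233090970) .nil (.dwn (nat_lit 145234182496370164015265818634459792752060773896404512807039281050057504434553289349120) (nat_lit 627133440)) (.opn (nat_lit 145234182496370164015265818634459792752060773896404512807039281050057504434553289349120))) (.dwn (nat_lit 292205915268938090272081761600420219471308868366296712552371978650) (nat_lit 89359392))) .nil .nil l222 = true := by decide +kernel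
theorem cw1019 : wchk (nat_lit 5) [] [l222] (nat_lit 1) (nat_lit 3) (nat_lit 2) (nat_lit 0) (nat_lit 5820672) (nat_lit 0) w1019 = true := by decide +kernel
theorem cw1020 : wchk (nat_lit 5) [w959] [] (nat_lit 0) (nat_lit 0) (nat_lit 4) (nat_lit 2) (nat_lit 18458624) (nat_lit 197) w1020 = true := by decide +kernel
theorem cw1021 : wchk (nat_lit 5) [w267] [] (nat_lit 0) (nat_lit 0) (nat_lit 1) (nat_lit 2) (nat_lit 22823936) (nat_lit 209) w1021 = true := by decide +kernel
theorem cw1022 : wchk (nat_lit 5) [w959] [] (nat_lit 0) (nat_lit 0) (nat_lit 1) (nat_lit 2) (nat_lit 22644736) (nat_lit 209) w1022 = true := by decide +kernel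
theorem cw1023 : wchk (nat_lit 5) [w959] [] (nat_lit 0) (nat_lit 0) (nat_lit 1) (nat_lit 2) (nat_lit 18458624) (nat_lit 209) w1023 = true := by decide +kernel
theorem cl223 : lchk (nat_lit 5) [w284, w337, w970, w42, w16, w1018, w167, w794, w1019, w1014, w15, w261, w128, w1015, w1016, w1017, w1020, w1021, w1022, w1023] (nat_lit 56461837312) .nil (.nod (nat_lit 88754620610363671856797804754867440683827925188320723783669374158849) (.nod (nat_lit 2623828525392241695778740934725253418831293778912446808850826) (.nod (nat_lit 292295702932161061361698780795476196992586688520739048522345039888) .nil (.nod (nat_lit 15762456694954534461031453070908304371794268193) (.nod (nat_lit 15762456354672167540092989589086952866316505120) .nil (.nod (nat_lit 292295853582602710642037112514139987055642211495448364153709219864) (.dwn (nat_lit 144917128934650969888983170733680439884810632137064928537970965483175735944047939455040) (nat_lit 627262464)) .nil .nil) .dup) .nil (.nod (nat_lit 9097082326126603658860635856610799319407850004337609868309697248891114677012270719127632) (.dwn (nat_lit 20933263500670867323091510806758428629503683506721720134387079820992250823708111439976)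 (nat_lit 90391552)) .nil .nil)) (.nod (nat_lit 61794674639971324690067180275954510932242359884785721338081805029400) (.dwn (nat_lit 20933267206017722930701255975422447832408403447506605281446388774655061497822988900360) (nat_lit 1164133376)) .nil .nil)) (.nod (nat_lit 214853209054777216452615838442957145724766436935897028819950392515402973174299318458376) .nil (.dwn (nat_lit 1699399176193996931804683458867208802383764134195844554772025474260878519412219802191872) (nat_lit 7338148864)) .dup) (.dwn (nat_lit 214853209054777216441242831302948122536891593163895074804345879831890801802468999465112) (nat_lit 929252352))) .nil (.dwn (nat_lit 2222094014331719223984806619836052783361782218896797171974474) (nat_lit 7103267840))) .nil .nil l223 = true := by decide +kernel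
theorem cw1024 : wchk (nat_lit 5) [] [l223] (nat_lit 1682) (nat_lit 2) (nat_lit 1) (nat_lit 0) (nat_lit 9820492032) (nat_lit 0) w1024 = true := by decide +kernel
theorem cw1025 : wchk (nat_lit 5) [] [l107] (nat_lit 19) (nat_lit 3) (nat_lit 1) (nat_lit 0) (nat_lit 4379904) (nat_lit 0) w1025 = true := by decide +kernel
theorem cw1026 : wchk (nat_lit 5) [] [l116] (nat_lit 19) (nat_lit 3) (nat_lit 1) (nat_lit 0) (nat_lit 4365568) (nat_lit 0) w1026 = true := by decide +kernel
theorem cw1027 : wchk (nat_lit 5) [] [l1] (nat_lit 3) (nat_lit 1) (nat_lit 2) (nat_lit 0) (nat_lit 21451008) (nat_lit 0) w1027 = true := by decide +kernel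
theorem cw1028 : wchk (nat_lit 5) [] [l57] (nat_lit 26) (nat_lit 1) (nat_lit 4) (nat_lit 0) (nat_lit 21189376) (nat_lit 0) w1028 = true := by decide +kernel
theorem cw1030 : wchk (nat_lit 5) [] [] (nat_lit 18) (nat_lit 1) (nat_lit 3) (nat_lit 2) (nat_lit 16777221) (nat_lit 25165865) w1030 = true := by decide +kernel
theorem cl224 : lchk (nat_lit 5) [w91, w4, w802, w619, w675, w815, w265, w878, w817, w211, w1030] (nat_lit 613256192) .nil (.nod (nat_lit 1075041608103180112817699514298342589956351547761887406993102768145) (.nod (nat_lit 2623828525391643977295867321969659047365257983471603737952256) (.nod (nat_lit 17127003278166908379028063361027011251567329280) .nil (.nod (nat_lit 11417990388989218993485308155019837781256962048) .nil (.nod (nat_lit 19603599781540917994491533366143237532661939077666692341195329739646814879395117793280) (.dwn (nat_lit 144055590400226356427672255542775221880567901464030368514687785739028956746049594542144) (nat_lit 4908223488)) .nil .nil) .dup) .nil) .nil .nil) .nil (.dwn (nat_lit 1485312569516440767469274391423906690110778918041821671234478276938) (nat_lit 109939712))) .nil .nil l224 = true := by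 decide +kernel
theorem cw1031 : wchk (nat_lit 5) [] [l224] (nat_lit 1682) (nat_lit 1) (nat_lit 4) (nat_lit 0) (nat_lit 9820492032) (nat_lit 0) w1031 = true := by decide +kernel
theorem cw1033 : wchk (nat_lit 5) [] [l176] (nat_lit 26) (nat_lit 1) (nat_lit 4) (nat_lit 0) (nat_lit 21408000) (nat_lit 0) w1033 = true := by decide +kernel
theorem cw1035 : wchk (nat_lit 5) [] [] (nat_lit 1) (nat_lit 1) (nat_lit 4) (nat_lit 2) (nat_lit 301) (nat_lit 197) w1035 = true := by decide +kernel
theorem cl226 : lchk (nat_lit 5) [w6, w210, w18, w19, w193] (nat_lit 52249600) (.nod (nat_lit 17127002937884541458089599879205659746089566208) .nil (.nod (nat_lit 11418012167060701933546970991586334131833798656) (.opn (nat_lit 19870856260531068852484676703913955046910058277296034952264105629114513022346812098560)) .nil (.nod (nat_lit 11417990388989218993485308155019837781426477064) .nil (.opn (nat_lit 7817188043562036292545317645656025169811458440942433673381068232736)) .dup)) .nil) .nil (.nod (nat_lit 11418012167060701933546970991586334131833798656) .nil (.dwn (nat_lit 144201665362977729399147426683747573597958750785216216284414529601703862876143152529408)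 (nat_lit 622674944)) (.dwn (nat_lit 144201665362977729399147426683747573597958750785216216284414529601703862876143152529408) (nat_lit 622674944))) .nil l226 = true := by decide +kernel
theorem cl227 : lchk (nat_lit 5) [w7, w211, w210, w18, w21, w192] (nat_lit 52249600) (.nod (nat_lit 17127002937884541458089599879205659746089566208) .nil (.nod (nat_lit 11418012167060701933546970991586334131833798656) (.opn (nat_lit 19870856260531068852484676703913955046910058277296034952264105629114513022346812098560)) .nil (.nod (nat_lit 19628497859737082664285762300883490838765005093304804082391162292577758135305251756048) .nil (.opn (nat_lit 144201668141987871086918928906322805280957650055731215033416928038456169891546847860776)) .dup)) .nil) .nil (.nod (nat_lit 11418012167060701933546970991586334131833798656) .nil (.dwn (nat_lit 144201665362977729399147426683747573597958750785216216284414529601703862876143152529408) (nat_lit 622674944)) .dup) .nil l227 = true := by decide +kernel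
theorem cw1041 : wchk (nat_lit 5) [] [l176] (nat_lit 35) (nat_lit 0) (nat_lit 0) (nat_lit 1) (nat_lit 222734592) (nat_lit 0) w1041 = true := by decide +kernel
theorem cw1042 : wchk (nat_lit 5) [] [l176] (nat_lit 35) (nat_lit 0) (nat_lit 0) (nat_lit 1) (nat_lit 222734592) (nat_lit 0) w1042 = true := by decide +kernel
theorem cl228 : lchk (nat_lit 5) [w9, w211, w210, w19, w21, w1041, w1042] (nat_lit 52249600) (.nod (nat_lit 17127002937884541458089599879205659746089566208) .nil (.nod (nat_lit 11418012167060701933546970991586334131833798656) (.opn (nat_lit 19870856260531068852484676703913955046910058277296034952264724592050605988179793840128)) .nil (.nod (nat_lit 19628497859737082664285762300883490838753587102915814863398295954774422380988216285200) .nil (.opn (nat_lit 144201668141987871094736027061787990835386893217048168259766005569251721347927550363696)) .dup)) .nil) .nil (.nod (nat_lit 11418012167060701933546970991586334131833798656) .nil (.dwn (nat_lit 144201665362977729399147426683747573597958750785216216284414529601703862876143152529408) (nat_lit 622674944)) .dup) .nil l228 = true := by decide +kernel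
theorem cl229 : lchk (nat_lit 5) [w8, w211, w193, w192, w1042] (nat_lit 52249600) (.nod (nat_lit 17127002937884541458089599879205659746089566208) .nil (.nod (nat_lit 11418012167060701933546970991586334131833798656) (.opn (nat_lit 19870856260531068852484676703913955046910058277296034952264105629114513022346812098560)) .nil (.nod (nat_lit 19628497859737082664285762300883490838765005093304804082391162292577758135305082241024) .nil (.opn (nat_lit 143919467999129109150000562242368056325261986528681928503716900419207460896624043098112)) .dup)) .nil) .nil (.nod (nat_lit 11418012167060701933546970991586334131833798656) .nil (.dwn (nat_lit 144201665362977729399147426683747573597958750785216216284414529601703862876143152529408) (nat_lit 622674944)) .dup) .nil l229 = true := by decide +kernel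
theorem cw1045 : wchk (nat_lit 5) [] [l229] (nat_lit 26) (nat_lit 1) (nat_lit 4) (nat_lit 0) (nat_lit 22597888) (nat_lit 0) w1045 = true := by decide +kernel
theorem cw1047 : wchk (nat_lit 5) [w281] [] (nat_lit 0) (nat_lit 0) (nat_lit 3) (nat_lit 2) (nat_lit 25165841) (nat_lit 22816768) w1047 = true := by decide +kernel
theorem cw1049 : wchk (nat_lit 5) [] [] (nat_lit 1) (nat_lit 0) (nat_lit 3) (nat_lit 2) (nat_lit 297) (nat_lit 25165905) w1049 = true := by decide +kernel
theorem cw1051 : wchk (nat_lit 5) [] [l176] (nat_lit 2) (nat_lit 3) (nat_lit 1) (nat_lit 0) (nat_lit 4630784) (nat_lit 0) w1051 = true := by decide +kernel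
theorem cw1053 : wchk (nat_lit 5) [] [] (nat_lit 0) (nat_lit 0) (nat_lit 3) (nat_lit 2) (nat_lit 25165861) (nat_lit 16777225) w1053 = true := by decide +kernel
theorem cw1054 : wchk (nat_lit 5) [] [l224] (nat_lit 18) (nat_lit 2) (nat_lit 4) (nat_lit 0) (nat_lit 156815616) (nat_lit 0) w1054 = true := by decide +kernel
theorem cw1060 : wchk (nat_lit 5) [w181, w37] [] (nat_lit 18) (nat_lit 1) (nat_lit 2) (nat_lit 2) (nat_lit 625642496) (nat_lit 23225348) w1060 = true := by decide +kernel
theorem cw1061 : wchk (nat_lit 5) [w284] [] (nat_lit 1) (nat_lit 1) (nat_lit 1) (nat_lit 2) (nat_lit 90384384) (nat_lit 209) w1061 = true := by decide +kernel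
theorem cw1062 : wchk (nat_lit 5) [w16, w181] [] (nat_lit 146) (nat_lit 0) (nat_lit 3) (nat_lit 2) (nat_lit 22250496) (nat_lit 625635332) w1062 = true := by decide +kernel
theorem cw1063 : wchk (nat_lit 5) [] [l143] (nat_lit 1) (nat_lit 3) (nat_lit 2) (nat_lit 0) (nat_lit 5530368) (nat_lit 0) w1063 = true := by decide +kernel
theorem cw1064 : wchk (nat_lit 5) [] [l7] (nat_lit 0) (nat_lit 1) (nat_lit 3) (nat_lit 1) (nat_lit 5677312) (nat_lit 0) w1064 = true := by decide +kernel
theorem cw1065 : wchk (nat_lit 5) [] [l143] (nat_lit 1) (nat_lit 1) (nat_lit 2) (nat_lit 0) (nat_lit 5530368) (nat_lit 0) w1065 = true := by decide +kernel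
theorem cw1066 : wchk (nat_lit 5) [] [l45] (nat_lit 0) (nat_lit 0) (nat_lit 2) (nat_lit 0) (nat_lit 5431808) (nat_lit 0) w1066 = true := by decide +kernel
theorem cw1067 : wchk (nat_lit 5) [] [l168] (nat_lit 0) (nat_lit 0) (nat_lit 2) (nat_lit 0) (nat_lit 5818880) (nat_lit 0) w1067 = true := by decide +kernel
theorem cl231 : lchk (nat_lit 5) [w128, w1063, w15, w219, w1064, w366, w1065, w581, w801, w1066, w1067] (nat_lit 21784576) (.nod (nat_lit 292295658992448913655913966772856825586766233076315857287864731664) (.nod (nat_lit 273488150278967722271221331729552505927359945228901126826406610976) (.nod (nat_lit 425873149666614585665155203609179033719570747392) .nil (.dwn (nat_lit 1139563596196203970807437022213568286260335584089712863745290289956783912656146953457664) (nat_lit 4920731648)) (.dwn (nat_lit 1139563596196203970807437022213568286260335584089712863745290289956783912656146953457664) (nat_lit 4920731648))) .nil (.dwn (nat_lit 7855972999764643515651008755310612858274060844366596122255572914176) (nat_lit 625764352))) .nil (.dwn (nat_lit 273488150278967722271221331729552505927359945228901126826406610976) (nat_lit 88893440)))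 .nil (.nod (nat_lit 14825827778592816735622347353257324109993824296) .nil (.nod (nat_lit 5391907731181465261965442511027196112875272455652161783567132892406493185048225206328) (.dwn (nat_lit 145235849902455181368481538302143855868399515017233365655260659153009558968830241966160) (nat_lit 625764352)) .nil .nil) (.nod (nat_lit 5391907731181465261965442511027196112875272455652161783567132892406493185048225206328) (.dwn (nat_lit 145235849902455181368481538302143855868399515017233365655260659153009558968830241966160) (nat_lit 625764352)) .nil .nil)) .dup l231 = true := by decide +kernel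
theorem cw1068 : wchk (nat_lit 5) [] [l231] (nat_lit 4) (nat_lit 1) (nat_lit 1) (nat_lit 0) (nat_lit 22597888) (nat_lit 0) w1068 = true := by decide +kernel
theorem cw1069 : wchk (nat_lit 5) [w126, w16] [] (nat_lit 1) (nat_lit 1) (nat_lit 2) (nat_lit 2) (nat_lit 88893440) (nat_lit 23225348) w1069 = true := by decide +kernel
theorem cl232 : lchk (nat_lit 5) [w12, w32, w861, w405, w633] (nat_lit 56708096) (.nod (nat_lit 15993327111906181251931) (.nod (nat_lit 1133264181045670113155884617058732069220056960903603967354388611482) (.opn (nat_lit 14613867484551153418501684472678977957687393272566810588652311844888)) .nil .dup) .nil (.nod (nat_lit 6530147402093181272410) .nil .nil (.dwn (nat_lit 5028366887811987334813599046493919557364320178572805981238833069239682163676651978778) (nat_lit 90262528)))) .nil .nil .nil l232 = true := by decide +kernel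
theorem cw1070 : wchk (nat_lit 5) [] [l232] (nat_lit 33) (nat_lit 2) (nat_lit 2) (nat_lit 0) (nat_lit 156815616) (nat_lit 0) w1070 = true := by decide +kernel
theorem cw1071 : wchk (nat_lit 5) [] [l199] (nat_lit 17) (nat_lit 1) (nat_lit 1) (nat_lit 0) (nat_lit 156815616) (nat_lit 0) w1071 = true := by decide +kernel
theorem cw1072 : wchk (nat_lit 5) [] [] (nat_lit 0) (nat_lit 0) (nat_lit 4) (nat_lit 2) (nat_lit 33554505) (nat_lit 33554509) w1072 = true := by decide +kernel
theorem cw1073 : wchk (nat_lit 5) [w22] [] (nat_lit 2) (nat_lit 0) (nat_lit 3) (nat_lit 2) (nat_lit 22816768) (nat_lit 33554513) w1073 = true := by decide +kernel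
theorem cw1074 : wchk (nat_lit 5) [] [l32] (nat_lit 2) (nat_lit 0) (nat_lit 3) (nat_lit 0) (nat_lit 5444352) (nat_lit 0) w1074 = true := by decide +kernel
theorem cw1075 : wchk (nat_lit 5) [] [l32] (nat_lit 3) (nat_lit 2) (nat_lit 2) (nat_lit 0) (nat_lit 22221568) (nat_lit 0) w1075 = true := by decide +kernel
theorem cw1076 : wchk (nat_lit 5) [w1075] [] (nat_lit 2) (nat_lit 0) (nat_lit 3) (nat_lit 2) (nat_lit 23282688) (nat_lit 33554513) w1076 = true := by decide +kernel
theorem cl233 : lchk (nat_lit 5) [w823, w158, w7, w1072, w1073, w1074, w816, w1076, w820, w821, w4, w33, w808, w809, w834] (nat_lit 23282688) .nil (.nod (nat_lit 106755064124482303432161943551589134153549873306) .nil (.nod (nat_lit 15845381806361332559908696254396314774446442520) .nil (.nod (nat_lit 145264066118760530571107573025184797252534106107335796560407448173841510282750936647720) (.dwn (nat_lit 1139910540791007242740725870384415865103774168315995797020865226282025404890538418014280) (nat_lit 4922229760)) .nil .nil) .dup) (.nod (nat_lit 15806377280335386911931626701081832233872558168) .nil .nil (.nod (nat_lit 15845409028950686234968849691055877814543353952)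 .nil (.dwn (nat_lit 1139910535232986959287753815764554957175067980974447701734429085909437325155064985847808) (nat_lit 4922229760)) .dup))) .nil (.nod (nat_lit 842056383180883253498906720) .nil .nil (.dwn (nat_lit 5391914215538462551672386231002356599383286405548192371968700310796222289346866184282) (nat_lit 90391608))) l233 = true := by decide +kernel
theorem cw1077 : wchk (nat_lit 5) [] [l233] (nat_lit 4) (nat_lit 2) (nat_lit 2) (nat_lit 0) (nat_lit 22597888) (nat_lit 0) w1077 = true := by decide +kernel
theorem cw1078 : wchk (nat_lit 5) [] [l226] (nat_lit 2) (nat_lit 3) (nat_lit 2) (nat_lit 0) (nat_lit 2824448) (nat_lit 0) w1078 = true := by decide +kernel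
theorem cw1079 : wchk (nat_lit 5) [] [l229] (nat_lit 2) (nat_lit 3) (nat_lit 2) (nat_lit 0) (nat_lit 2824448) (nat_lit 0) w1079 = true := by decide +kernel
theorem cw1080 : wchk (nat_lit 5) [] [l227] (nat_lit 2) (nat_lit 3) (nat_lit 2) (nat_lit 0) (nat_lit 2824448) (nat_lit 0) w1080 = true := by decide +kernel
theorem cw1081 : wchk (nat_lit 5) [] [l228] (nat_lit 2) (nat_lit 3) (nat_lit 2) (nat_lit 0) (nat_lit 2824448) (nat_lit 0) w1081 = true := by decide +kernel
theorem cl234 : lchk (nat_lit 5) [w576, w158, w7, w1072, w1073, w1074, w816, w1076, w820, w821, w4, w33, w808, w632, w823, w830, w834, w1078, w1079, w1080, w1081] (nat_lit 21777408) .nil (.nod (nat_lit 106755064124482303432161943551589134153549873306) .nil (.nod (nat_lit 15845381806361332559908696254396314774446442520) .nil (.nod (nat_lit 145264066118760530571107573025184797252534106107335796560407448173841510282750936647720) (.dwn (nat_lit 1139910540791007242740725870384415865103774168315995797020865226282025404890538418014280) (nat_lit 4920724480)) .nil .nil) .dup) (.nod (nat_lit 15806377280335386911931626701081832233872558168) .nil .nil (.nod (nat_lit 15845409028950686234968849691055877814543353952)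 .nil (.dwn (nat_lit 1139561936200812664642459429899927201710488594732924684943590407817468680030991223920640) (nat_lit 4920724480)) .dup))) .nil (.nod (nat_lit 842056383180883253498906720) (.opn (nat_lit 20586326316561306639846082573486222086554355619256751279192198866829564031072152322458)) .nil (.nod (nat_lit 20933267206017722917222003002042280909767529499483960934113064880091805364599492968538) (.opn (nat_lit 145264078161137811259866678583104538789168631607852263063784022535839121930429392128160)) .nil .nil)) l234 = true := by decide +kernel
theorem cw1082 : wchk (nat_lit 5) [] [l234] (nat_lit 4) (nat_lit 2) (nat_lit 2) (nat_lit 0) (nat_lit 22597888) (nat_lit 0) w1082 = true := by decide +kernel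
theorem cl235 : lchk (nat_lit 5) [w915, w7, w4, w841, w842, w840] (nat_lit 23282688) (.nod (nat_lit 928456837244954429760733274) (.nod (nat_lit 15757569899883182862922219350950010452604617114) .nil .nil (.dwn (nat_lit 426892711861159907591962560306272182324756383744) (nat_lit 627262464))) .nil (.nod (nat_lit 15796598926239546820927613384332383821974471002) .nil .nil (.nod (nat_lit 426892711861159907591962560306272182324756383744) .nil (.opn (nat_lit 1139910535232986959287753815764554957178356359658442233300565657073667531313694426695680)) .dup))) .nil (.nod (nat_lit 618970646831988643607871514) .nil (.dwn (nat_lit 1134794086497432438085180603694267647771463675803061428844014600602) (nat_lit 90391572)) .dup) .nil l235 = true := by decide +kernel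
theorem cw1083 : wchk (nat_lit 5) [] [l235] (nat_lit 33) (nat_lit 3) (nat_lit 2) (nat_lit 0) (nat_lit 5820672) (nat_lit 0) w1083 = true := by decide +kernel
theorem cl236 : lchk (nat_lit 5) [w1076, w1075, w7, w1072, w1073, w1074, w848, w845, w846, w847, w844] (nat_lit 23282688) .nil (.nod (nat_lit 15533168991605335389736913785533370434628616282) .nil (.nod (nat_lit 15845381806361332559908696254396314774446442520) .nil (.nod (nat_lit 145264066118760530571107573025184797252534106107335796560407448173841510282750936647720) .nil (.opn (nat_lit 1139910540791007242678931196095962237595375936631735050863517777214758988565787582040112)) .dup) (.dwn (nat_lit 5391908657518179160495005899595076182379554846728843366008245309093724332142395557960) (nat_lit 627262488))) (.nod (nat_lit 15845381806361332559908696254396314774446442520) .nil .nil (.nod (nat_lit 15533193151653386775988858887571781474263140432) .nil (.dwn (nat_lit 1139910540791007242678931196095962237595375936631735050863517777214758988565787582040112) (nat_lit 4922229760)) .dup))) .nil (.nod (nat_lit 858981049507582882593802320) .nil (.dwn (nat_lit 20933253310967014439278551370055057737723449336104754886663459919963542937077091926426)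 (nat_lit 90391552)) .dup) l236 = true := by decide +kernel
theorem cw1084 : wchk (nat_lit 5) [] [l236] (nat_lit 273) (nat_lit 1) (nat_lit 2) (nat_lit 0) (nat_lit 22597888) (nat_lit 0) w1084 = true := by decide +kernel
theorem cw1086 : wchk (nat_lit 5) [] [l32] (nat_lit 3) (nat_lit 2) (nat_lit 3) (nat_lit 0) (nat_lit 22205440) (nat_lit 0) w1086 = true := by decide +kernel
theorem cw1087 : wchk (nat_lit 5) [] [l32] (nat_lit 3) (nat_lit 2) (nat_lit 4) (nat_lit 0) (nat_lit 20124928) (nat_lit 0) w1087 = true := by decide +kernel
theorem cw1091 : wchk (nat_lit 5) [] [] (nat_lit 0) (nat_lit 2) (nat_lit 3) (nat_lit 2) (nat_lit 33554513) (nat_lit 25165905) w1091 = true := by decide +kernel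
theorem cw1092 : wchk (nat_lit 5) [] [l32] (nat_lit 3) (nat_lit 2) (nat_lit 4) (nat_lit 0) (nat_lit 20124928) (nat_lit 0) w1092 = true := by decide +kernel
theorem cw1093 : wchk (nat_lit 5) [w1092] [] (nat_lit 0) (nat_lit 1) (nat_lit 3) (nat_lit 2) (nat_lit 33554513) (nat_lit 23282688) w1093 = true := by decide +kernel

end Pool.Agent.W319.GCI.K5
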