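import Pool.Agent.W319.GCI.K5D0
import Pool.Agent.W319.GCI.K5D1
import Pool.Agent.W319.GCI.K5D2
import Pool.Agent.W319.GCI.K5D3
import Pool.Agent.W319.GCI.K5D4
import Pool.Agent.W319.GCI.K5D5
import Pool.Agent.W319.GCI.K5D6
import Pool.Agent.W319.GCI.K5D7
import Pool.Agent.W319.GCI.K5D8
import Pool.Agent.W319.GCI.K5D9
import Pool.Agent.W319.GCI.K5D10
import Pool.Agent.W319.GCI.K5D11
import Pool.Agent.W319.GCI.K5D12
import Pool.Agent.W319.GCI.K5D13
import Pool.Agent.W319.GCI.K5D14
import Pool.Agent.W319.GCI.K5D15
set_option autoImplicit false
set_option maxRecDepth 100000
set_option linter.all false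
namespace Pool.Agent.W319.GCI.K5
open Pool.Agent.W319.GCI

theorem cl2880 : lchk (nat_lit 5) [w3990, w2963, w284, w368, w6719, w721, w12203, w2936, w12262, w12409, w12410, w12411, w7577, w12232, w12231, w1528, w16, w702, w1350, w12413, w12412, w50, w669, w10696, w8350, w12371, w12381, w1696, w12408, w12370, w12374, w281, w69] (nat_lit 23160832) .nil .nil (.nod (nat_lit 666458303015123953148954633) (.nod (nat_lit 28703930848335447757318493034725980153319587098017845994000329441109798928937757180314) (.nod (nat_lit 2571573708678863175851665722877027433264313851075012176965641027006969435695425718328) (.nod (nat_lit 1134074429337673829197347055714301978209618004177119687928828037200) .nil (.dwn (nat_lit 493152290806328032509407873601335407979309408365887780846862195675136) (nat_lit 39281846272)) (.dwn (nat_lit 493152290806328032509407873601335407979309408365887780846862195675136) (nat_lit 39281846272))) (.dwn (nat_lit 1139910545422690812171871309243901937832250542545608619512221099686217043534978397931632) (nat_lit 4922107904)) .dup) (.nod (nat_lit 144995157055072784728562815489575780941447381441957061364795437863074343684772656795777) .nil (.nod (nat_lit 15411255007161470003237540557837872643708455056)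 .nil (.dwn (nat_lit 493153821565465630820207632792979992691857218120246976454433684408448) (nat_lit 39281968204)) .dup) (.dwn (nat_lit 5391920699895459841379329950977517085913137042606559355208272719149662479047369345200) (nat_lit 4922229836))) (.nod (nat_lit 2571573708678863175851665722877027433264977344523070364273843245815398837658536550592) (.dwn (nat_lit 20933276469384861902516916577742742515759042087598138421686346408985217409216788465744) (nat_lit 4922107904)) .nil .nil)) .nil (.dwn (nat_lit 5391926257915743232847477435719171082866412922993692337393464825703492576066737799514) (nat_lit 90391664))) (.nod (nat_lit 15845455307352587482995764993296284062612193306) .nil (.dwn (nat_lit 20933281101068431394030659091244469034139438740417465029184606946910484337230969723136) (nat_lit 90269696)) (.dwn (nat_lit 20933281101068431394030659091244469034139438740417465029184606946910484337230969723136) (nat_lit 90269696))) l2880 = true := by decide +kernel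
theorem cw12414 : wchk (nat_lit 5) [] [l2880] (nat_lit 3) (nat_lit 2) (nat_lit 2) (nat_lit 0) (nat_lit 22597888) (nat_lit 0) w12414 = true := by decide +kernel
theorem cw12417 : wchk (nat_lit 5) [w724, w16] [] (nat_lit 19) (nat_lit 2) (nat_lit 3) (nat_lit 2) (nat_lit 626610176) (nat_lit 22644740) w12417 = true := by decide +kernel
theorem cw12426 : wchk (nat_lit 5) [w1919] [] (nat_lit 17) (nat_lit 1) (nat_lit 3) (nat_lit 2) (nat_lit 626230272) (nat_lit 33554513) w12426 = true := by decide +kernel
theorem cw12445 : wchk (nat_lit 5) [] [l1632] (nat_lit 1) (nat_lit 1) (nat_lit 0) (nat_lit 0) (nat_lit 22454528) (nat_lit 0) w12445 = true := by decide +kernel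
theorem cw12452 : wchk (nat_lit 5) [] [l1193] (nat_lit 0) (nat_lit 1) (nat_lit 1) (nat_lit 0) (nat_lit 1518080) (nat_lit 0) w12452 = true := by decide +kernel
theorem cw12479 : wchk (nat_lit 5) [] [l2712] (nat_lit 19) (nat_lit 3) (nat_lit 0) (nat_lit 0) (nat_lit 5657600) (nat_lit 0) w12479 = true := by decide +kernel
theorem cw12485 : wchk (nat_lit 5) [w448] [] (nat_lit 17) (nat_lit 0) (nat_lit 4) (nat_lit 2) (nat_lit 201) (nat_lit 22307840) w12485 = true := by decide +kernel
theorem cw12491 : wchk (nat_lit 5) [] [l1898] (nat_lit 17) (nat_lit 0) (nat_lit 0) (nat_lit 1) (nat_lit 5802752) (nat_lit 0) w12491 = true := by decide +kernel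
theorem cw12500 : wchk (nat_lit 5) [] [l363] (nat_lit 3) (nat_lit 3) (nat_lit 3) (nat_lit 0) (nat_lit 5562624) (nat_lit 0) w12500 = true := by decide +kernel
theorem cw12501 : wchk (nat_lit 5) [] [l363] (nat_lit 3) (nat_lit 3) (nat_lit 4) (nat_lit 0) (nat_lit 4516096) (nat_lit 0) w12501 = true := by decide +kernel
theorem cw12508 : wchk (nat_lit 5) [w7074, w16] [] (nat_lit 19) (nat_lit 2) (nat_lit 3) (nat_lit 2) (nat_lit 627133440) (nat_lit 22644740) w12508 = true := by decide +kernel
theorem cw12509 : wchk (nat_lit 5) [w7074, w16] [] (nat_lit 19) (nat_lit 2) (nat_lit 3) (nat_lit 2) (nat_lit 627190784) (nat_lit 22644740) w12509 = true := by decide +kernel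
theorem cw12514 : wchk (nat_lit 5) [] [l117] (nat_lit 0) (nat_lit 3) (nat_lit 2) (nat_lit 0) (nat_lit 5562624) (nat_lit 0) w12514 = true := by decide +kernel
theorem cw12517 : wchk (nat_lit 5) [w7718, w16] [] (nat_lit 2) (nat_lit 2) (nat_lit 3) (nat_lit 2) (nat_lit 89402368) (nat_lit 22644740) w12517 = true := by decide +kernel
theorem cw12519 : wchk (nat_lit 5) [w179, w16] [] (nat_lit 2) (nat_lit 2) (nat_lit 3) (nat_lit 2) (nat_lit 627190784) (nat_lit 22644740) w12519 = true := by decide +kernel
theorem cw12520 : wchk (nat_lit 5) [] [l2693] (nat_lit 211) (nat_lit 3) (nat_lit 3) (nat_lit 0) (nat_lit 1230397952) (nat_lit 0) w12520 = true := by decide +kernel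
theorem cw12522 : wchk (nat_lit 5) [] [l2476] (nat_lit 2) (nat_lit 2) (nat_lit 1) (nat_lit 0) (nat_lit 5562624) (nat_lit 0) w12522 = true := by decide +kernel
theorem cw12525 : wchk (nat_lit 5) [w2844] [] (nat_lit 0) (nat_lit 0) (nat_lit 4) (nat_lit 2) (nat_lit 19605504) (nat_lit 201) w12525 = true := by decide +kernel
theorem cw12531 : wchk (nat_lit 5) [w162] [] (nat_lit 1) (nat_lit 1) (nat_lit 2) (nat_lit 2) (nat_lit 86649856) (nat_lit 209) w12531 = true := by decide +kernel
theorem cw12533 : wchk (nat_lit 5) [] [l361] (nat_lit 19) (nat_lit 2) (nat_lit 0) (nat_lit 0) (nat_lit 156557568) (nat_lit 0) w12533 = true := by decide +kernel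
theorem cl2904 : lchk (nat_lit 5) [w500, w1, w784, w1944, w1245, w6773] (nat_lit 90384384) .nil (.nod (nat_lit 292205664184868674797996497557632393303968721208306604883478315674) .nil .nil (.dwn (nat_lit 5391904025834609668057814155248760276137946229064246134587544835533337763614476468362) (nat_lit 23275520))) (.nod (nat_lit 820105200455026656067715722) .nil .nil (.dwn (nat_lit 5152864689486521911073895792439500656881630413765548065445033233424237854772848230554) (nat_lit 22228992))) (.nod (nat_lit 4230766569650622834825322071241967164470143041557309195026570) .nil (.dwn (nat_lit 5122985698779724840298193453528862622118634307644464778636786629691267336597161580584) (nat_lit 895690752)) .dup) l2904 = true := by decide +kernel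
theorem cw12543 : wchk (nat_lit 5) [] [l2904] (nat_lit 1) (nat_lit 1) (nat_lit 0) (nat_lit 0) (nat_lit 5820672) (nat_lit 0) w12543 = true := by decide +kernel
theorem cw12544 : wchk (nat_lit 5) [] [l1] (nat_lit 0) (nat_lit 1) (nat_lit 1) (nat_lit 1) (nat_lit 5818880) (nat_lit 0) w12544 = true := by decide +kernel
theorem cl2905 : lchk (nat_lit 5) [w6773, w12544] (nat_lit 44665856) (.nod (nat_lit 2222094014326884990397869455815513911311486341225231044050944) .nil .nil (.dwn (nat_lit 5391903099497895769528250716464066323541237292218053423802320161257932275471674769408) (nat_lit 614575104))) (.nod (nat_lit 2171877200443791544287183140429852579971414983784555941462618) .nil .nil (.dwn (nat_lit 4541985459149139301000986182445590684978630410819057768915364590611895075532160630794) (nat_lit 615091200))) (.nod (nat_lit 6087425544324152033866) .nil .nil (.dwn (nat_lit 2603110842103538606962538651165752022410208611349737618677517129981253917135974957082) (nat_lit 623463424))) .nil l2905 = true := by decide +kernel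
theorem cl2906 : lchk (nat_lit 5) [w209, w8138, w15, w86, w93, w220, w2560, w2552, w8380, w2532, w2561, w5258, w659, w17, w11704, w4566, w3409, w505, w1640, w1398] (nat_lit 23160832) (.nod (nat_lit 28674050004955222888070702228101485756495201800522324174868230498574161682922209280090) (.nod (nat_lit 20903375246596931266676944818601043168556578804024305274590888287928975741961813444648) (.nod (nat_lit 418248401837133087001302414915007565414729977920) .nil .nil (.opn (nat_lit 3349813055626758708402976469122148793835705257984))) (.dwn (nat_lit 144993491501661195180175717575121743438276590101729342349754014444789928190089186971712) (nat_lit 627140608)) .dup) (.nod (nat_lit 20903375246596931266740297145792420665868718793953610722071945263002138495244240709672) .nil .nil (.dwn (nat_lit 1296704658849439653696073742325998610559152170819082954075474168530502959545821370480) (nat_lit 627140608))) (.nod (nat_lit 20903375246596931266676944818601043168593343006225506204046241050260794060422618892328) (.dwn (nat_lit 144993491501661195180175717575121743438276590101729342349754014444789928190089186971712) (nat_lit 627140608)) .nil .nil)) .nil .nil (.nod (nat_lit 798950769499201721645865088)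 .nil (.dwn (nat_lit 1121836441143922303811367999917449792619851345332264246826619634074) (nat_lit 90319948)) (.dwn (nat_lit 1121836441143922303811367999917449792619851345332264246826619634074) (nat_lit 90319948))) l2906 = true := by decide +kernel
theorem cw12550 : wchk (nat_lit 5) [] [l2906] (nat_lit 2259) (nat_lit 1) (nat_lit 0) (nat_lit 0) (nat_lit 22597888) (nat_lit 0) w12550 = true := by decide +kernel
theorem cw12551 : wchk (nat_lit 5) [] [l268] (nat_lit 1) (nat_lit 2) (nat_lit 0) (nat_lit 0) (nat_lit 21400832) (nat_lit 0) w12551 = true := by decide +kernel
theorem cw12553 : wchk (nat_lit 5) [w1409, w16] [] (nat_lit 1) (nat_lit 2) (nat_lit 3) (nat_lit 2) (nat_lit 89818112) (nat_lit 22644740) w12553 = true := by decide +kernel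
theorem cw12554 : wchk (nat_lit 5) [w750, w16] [] (nat_lit 2) (nat_lit 2) (nat_lit 3) (nat_lit 2) (nat_lit 89402368) (nat_lit 22644740) w12554 = true := by decide +kernel
theorem cw12556 : wchk (nat_lit 5) [w2090] [] (nat_lit 1) (nat_lit 1) (nat_lit 3) (nat_lit 2) (nat_lit 11283456) (nat_lit 209) w12556 = true := by decide +kernel
theorem cw12559 : wchk (nat_lit 5) [w750] [] (nat_lit 1) (nat_lit 1) (nat_lit 3) (nat_lit 2) (nat_lit 123487232) (nat_lit 209) w12559 = true := by decide +kernel
theorem cw12561 : wchk (nat_lit 5) [w263, w16] [] (nat_lit 1) (nat_lit 2) (nat_lit 3) (nat_lit 2) (nat_lit 1162506240) (nat_lit 22644740) w12561 = true := by decide +kernel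
theorem cw12562 : wchk (nat_lit 5) [w721, w16] [] (nat_lit 1) (nat_lit 2) (nat_lit 3) (nat_lit 2) (nat_lit 89402368) (nat_lit 22644740) w12562 = true := by decide +kernel
theorem cw12564 : wchk (nat_lit 5) [w164, w16] [] (nat_lit 1) (nat_lit 2) (nat_lit 3) (nat_lit 2) (nat_lit 76263424) (nat_lit 22644740) w12564 = true := by decide +kernel
theorem cw12566 : wchk (nat_lit 5) [w970] [] (nat_lit 0) (nat_lit 1) (nat_lit 4) (nat_lit 2) (nat_lit 201) (nat_lit 119100416) w12566 = true := by decide +kernel
theorem cw12585 : wchk (nat_lit 5) [] [l2276] (nat_lit 34) (nat_lit 1) (nat_lit 2) (nat_lit 0) (nat_lit 156672256) (nat_lit 0) w12585 = true := by decide +kernel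
theorem cl2912 : lchk (nat_lit 5) [w815, w42, w1101, w3, w39, w1531, w6352, w1532, w12585, w10076, w1529, w172, w6685, w976, w38] (nat_lit 22307840) .nil .nil (.nod (nat_lit 837823537945497638656100361) (.nod (nat_lit 1133894150975833520375913680818771291564789630633415545851842920858) (.nod (nat_lit 292205764618496440984888718930263164649752123515351172591398504480) .nil (.opn (nat_lit 1139684775859769320912583696606158312252622155916613357104046261740633718369422555006976)) (.dwn (nat_lit 1139684775859769320912583696606158312252622155916613357104046261740633718369422555006976) (nat_lit 4921254912))) .nil (.dwn (nat_lit 292205764618496441000031635429647588682093408587506589529008197680) (nat_lit 626230300))) .nil (.nod (nat_lit 5391909583854893059298057739742807272683024883345371362945960498483058845189939396954) (.dwn (nat_lit 145025032340432726213366733859120713686286618477444538363808259314754671818197397325928) (nat_lit 626287616)) .nil .nil)) (.nod (nat_lit 1237940666474678781090988058) (.opn (nat_lit 285097223095647382033798296183215103548336742816792983718124847258)) .nil .nil) l2912 = true := by decide +kernel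
theorem cw12588 : wchk (nat_lit 5) [] [l44] (nat_lit 1) (nat_lit 2) (nat_lit 3) (nat_lit 0) (nat_lit 22221568) (nat_lit 0) w12588 = true := by decide +kernel
theorem cl2915 : lchk (nat_lit 5) [w192, w25, w4199] (nat_lit 55209984) (.nod (nat_lit 618971827423609361019175002) (.nod (nat_lit 618970646831988643607871514) .nil .nil (.nod (nat_lit 618970646831988643607871514) (.opn (nat_lit 5378623136367446449496887059059119366568256663628331485465995210292866367956864466970)) .nil .nil)) .nil .nil) (.nod (nat_lit 618970646831988643607871514) .nil (.nod (nat_lit 144887243459587175534930217480603114611856074765540927606567664293606993971744373473690) .nil (.opn (nat_lit 1139533716279160459899614607108546074402102406534275623834951445111883097274408699748352)) .dup) (.dwn (nat_lit 145116324676260854098909502057848203872782738955305919524129256788860545715269709857178) (nat_lit 626624520))) .nil .nil l2915 = true := by decide +kernel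
theorem cw12591 : wchk (nat_lit 5) [] [l2915] (nat_lit 2) (nat_lit 3) (nat_lit 1) (nat_lit 0) (nat_lit 5820672) (nat_lit 0) w12591 = true := by decide +kernel
theorem cl2916 : lchk (nat_lit 5) [w10076, w42, w831, w3, w39, w1534, w154, w1536, w12591, w870, w3245, w12500, w12501, w38] (nat_lit 22816768) .nil .nil (.nod (nat_lit 837823537945497638656100361) (.nod (nat_lit 1133264231262483996187901231678573555824600927059852691060404781466) (.nod (nat_lit 292205764618496440984888718930263164649752123515351172591398504480) .nil (.nod (nat_lit 1139802635532552058625999140060339289037093608731404335808504854934494093069927870648320) .nil (.opn (nat_lit 9096974418089138333543474257083882967359064262881281905635390446585923434369685065846784)) .dup) (.dwn (nat_lit 1139802635532552058625999140060339289037093608731404335808504854934494093069927870648320) (nat_lit 4921763840))) .nil (.dwn (nat_lit 292205764618496441000031635429647588660080758358917340114493548592) (nat_lit 626230300))) .nil (.nod (nat_lit 5391909583854893059298057287791482324842009887168532891993978539113466843779454468442) (.dwn (nat_lit 2134528796467938463888534245073730807498217854404176565231396754184193312641502506551392)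 (nat_lit 626796544)) .nil .nil)) (.nod (nat_lit 1237940666474678781090988058) (.opn (nat_lit 5259114584233969353465001139715592611624528125534862521883127198029818499942827688090)) .nil .nil) l2916 = true := by decide +kernel
theorem cw12598 : wchk (nat_lit 5) [] [l1279] (nat_lit 3) (nat_lit 1) (nat_lit 4) (nat_lit 0) (nat_lit 19064064) (nat_lit 0) w12598 = true := by decide +kernel
theorem cw12599 : wchk (nat_lit 5) [] [l103] (nat_lit 0) (nat_lit 0) (nat_lit 4) (nat_lit 1) (nat_lit 18390272) (nat_lit 0) w12599 = true := by decide +kernel
theorem cw12602 : wchk (nat_lit 5) [] [l1052] (nat_lit 3) (nat_lit 1) (nat_lit 4) (nat_lit 0) (nat_lit 1632768) (nat_lit 0) w12602 = true := by decide +kernel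
theorem cw12606 : wchk (nat_lit 5) [] [l120] (nat_lit 18) (nat_lit 2) (nat_lit 0) (nat_lit 0) (nat_lit 21318400) (nat_lit 0) w12606 = true := by decide +kernel
theorem cl2922 : lchk (nat_lit 5) [w1489, w4, w1400, w1737, w11, w9336, w1529, w870] (nat_lit 23282688) .nil .nil (.nod (nat_lit 1237943027657920215913595034) (.nod (nat_lit 290765847697212619511110899522894711612108833856024624596229554522) .nil (.nod (nat_lit 426853691001580349736268462185055023563732881432) .nil .nil .dup) (.dwn (nat_lit 1134794136714246321543963091964693463681302161879307934580976343080) (nat_lit 627262464))) (.nod (nat_lit 290765847697212619511110899522894711612108833856024624596229554522) .nil (.dwn (nat_lit 1134794136714246321543963091964693463681302161879307934580976343080) (nat_lit 627262464)) (.opn (nat_lit 1134794136714246321543963091964693463681133176421937022017304203288))) .nil) (.nod (nat_lit 1237940666474678781090988058) (.opn (nat_lit 20694219532639210072838610750297268106105723994462960561537059610100414359860942995866)) .nil (.dwn (nat_lit 20694219532639210072838610750297268106105723994462960561537678575397690567128780898458) (nat_lit 90391552))) l2922 = true := by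 decide +kernel
theorem cw12617 : wchk (nat_lit 5) [w971] [] (nat_lit 1) (nat_lit 1) (nat_lit 4) (nat_lit 2) (nat_lit 23282688) (nat_lit 201) w12617 = true := by decide +kernel
theorem cw12618 : wchk (nat_lit 5) [] [l1019] (nat_lit 19) (nat_lit 1) (nat_lit 1) (nat_lit 0) (nat_lit 156666880) (nat_lit 0) w12618 = true := by decide +kernel
theorem cw12619 : wchk (nat_lit 5) [] [l2792] (nat_lit 3) (nat_lit 3) (nat_lit 4) (nat_lit 0) (nat_lit 3320832) (nat_lit 0) w12619 = true := by decide +kernel
theorem cl2925 : lchk (nat_lit 5) [w6719, w8073, w7719, w267, w3766, w16, w1326, w6797, w12618, w5841, w7490, w5633, w9591, w3006, w12619, w12617, w1540, w149, w6709, w12365, w2945, w6749] (nat_lit 648645632) .nil .nil (.nod (nat_lit 53229091536025148031891531015402165301511643137) (.nod (nat_lit 291575750748620885996664954491253453723724161427685101035187077522) (.nod (nat_lit 285096620493880784912444967947430475612600539546621959147103932448) .nil (.nod (nat_lit 18114581136529146307174002282740993230223070751385292349051425149723223838027255322624) .nil (.opn (nat_lit 142443730243584500687781868684062300150701447394099791649364701347532294976110534516736)) .dup) (.dwn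 (nat_lit 18114581136529146307174002282740993230223070751385292349051425149723223838027255322624) (nat_lit 78213120))) (.nod (nat_lit 15762459417213469828539160925479116415616372777) .nil (.nod (nat_lit 61517318861987790226263633664585610465639606328) .nil (.nod (nat_lit 493153821013080678106179715799798686544862394333023388251533337716808) (.dwn (nat_lit 1137958389916178048260534153491532136194075778780373045440602959663996768673525871052904) (nat_lit 4922229816)) .nil .nil) .dup) (.nod (nat_lit 5391916068211890348731513008138116738404867195127960520964501298583413926961817643144) (.dwn (nat_lit 145126299469996113458503854882746478685494308620354325012074269561080267811503039862952) (nat_lit 627262520)) .nil .nil)) .nil) .nil (.dwn (nat_lit 25883596710040756426295416774537734550281955510411152325111774509755443466974319870290) (nat_lit 111774720))) .nil l2925 = true := by decide +kernel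
theorem cw12620 : wchk (nat_lit 5) [] [l2925] (nat_lit 19) (nat_lit 3) (nat_lit 0) (nat_lit 0) (nat_lit 156815616) (nat_lit 0) w12620 = true := by decide +kernel
theorem cw12621 : wchk (nat_lit 5) [] [l2476] (nat_lit 2) (nat_lit 2) (nat_lit 1) (nat_lit 0) (nat_lit 5562624) (nat_lit 0) w12621 = true := by decide +kernel
theorem cw12628 : wchk (nat_lit 5) [] [l1633] (nat_lit 1) (nat_lit 1) (nat_lit 0) (nat_lit 0) (nat_lit 21321984) (nat_lit 0) w12628 = true := by decide +kernel
theorem cw12629 : wchk (nat_lit 5) [w42] [] (nat_lit 1) (nat_lit 1) (nat_lit 4) (nat_lit 2) (nat_lit 85545984) (nat_lit 201) w12629 = true := by decide +kernel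
theorem cw12631 : wchk (nat_lit 5) [] [l117] (nat_lit 0) (nat_lit 2) (nat_lit 2) (nat_lit 0) (nat_lit 4385280) (nat_lit 0) w12631 = true := by decide +kernel
theorem cw12633 : wchk (nat_lit 5) [] [l117] (nat_lit 1) (nat_lit 1) (nat_lit 0) (nat_lit 0) (nat_lit 21678592) (nat_lit 0) w12633 = true := by decide +kernel
theorem cw12634 : wchk (nat_lit 5) [] [l1258] (nat_lit 1) (nat_lit 1) (nat_lit 0) (nat_lit 0) (nat_lit 19581952) (nat_lit 0) w12634 = true := by decide +kernel
theorem cw12661 : wchk (nat_lit 5) [] [l505] (nat_lit 19) (nat_lit 2) (nat_lit 0) (nat_lit 0) (nat_lit 156801280) (nat_lit 0) w12661 = true := by decide +kernel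
theorem cw12662 : wchk (nat_lit 5) [] [l87] (nat_lit 19) (nat_lit 2) (nat_lit 0) (nat_lit 0) (nat_lit 156552192) (nat_lit 0) w12662 = true := by decide +kernel
theorem cw12685 : wchk (nat_lit 5) [] [l241] (nat_lit 3) (nat_lit 2) (nat_lit 3) (nat_lit 0) (nat_lit 2777856) (nat_lit 0) w12685 = true := by decide +kernel
theorem cw12702 : wchk (nat_lit 5) [] [l2017] (nat_lit 1) (nat_lit 1) (nat_lit 3) (nat_lit 0) (nat_lit 5788416) (nat_lit 0) w12702 = true := by decide +kernel
theorem cl2947 : lchk (nat_lit 5) [w16, w8608, w15, w5258, w220, w50, w669, w12217, w5059, w7212, w2015, w42, w164] (nat_lit 23153664) (.nod (nat_lit 145264063455542478112835078283052142052285332756653694666245919548536671417443303817306) (.nod (nat_lit 20903375246596931266740296744057909601182667219158298620905030118101899403167354087456) (.nod (nat_lit 418058145882399187255565934132908086660122888240) .nil .nil (.nod (nat_lit 3349808177338746529829163993731253611306493843456) (.opn (nat_lit 9097052437872529723297425325285946430891011594189649972083192099509943276478053017098240)) .dup .dup)) (.dwn (nat_lit 145264068897770672274454148943515581625308344799184443774264673894449916114021345740848)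 (nat_lit 627133440)) (.dwn (nat_lit 145264068897770672274454148943515581625308344799184443774264673894449916114021345740848) (nat_lit 627133440))) (.nod (nat_lit 20903375246596931266740296744057909601182667219158298620905030118101899403167354087456) (.nod (nat_lit 7757885752627144164691342938841469822913172948244041279090709579824) .nil (.dwn (nat_lit 61793054143387317267896170783561687224908935962791316414216100026368) (nat_lit 4922100736)) (.dwn (nat_lit 61793054143387317267896170783561687224908935962791316414216100026368) (nat_lit 4922100736))) (.dwn (nat_lit 145264068897770672274454148943515581625308344799184443774264673894449916114021345740848) (nat_lit 627133440)) (.dwn (nat_lit 145264068897770672274454148943515581625308344799184443774264673894449916114021345740848) (nat_lit 627133440))) (.nod (nat_lit 20903375246596931266740296744057909601182667219158298620905030118101899403167354087456) (.dwn (nat_lit 145264068897770672274454148943515581625308344799184443774264673894449916114021345740848) (nat_lit 627133440)) .nil .nil)) .nil (.nod (nat_lit 823015211226142485290600512) .nil (.nod (nat_lit 1133264582780181177903453524327326637450769253110327288685762970010)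 (.dwn (nat_lit 145264071676780813970147496071466604651052829234422792882238243607387636017652324190304) (nat_lit 627133440)) .nil .nil) .dup) .nil l2947 = true := by decide +kernel
theorem cw12708 : wchk (nat_lit 5) [] [l2947] (nat_lit 211) (nat_lit 3) (nat_lit 2) (nat_lit 0) (nat_lit 5820672) (nat_lit 0) w12708 = true := by decide +kernel
theorem cl2948 : lchk (nat_lit 5) [w3910, w8771, w284, w12219, w16, w1291, w2934, w12221, w12222, w12291, w9655, w12290, w1318, w2989, w12259, w12284, w12285, w12206, w5106, w12207, w12218, w8292, w10697, w12220, w12255, w11743, w7992, w12297, w12298, w12380, w12414, w12708] (nat_lit 23160832) .nil .nil (.nod (nat_lit 609497488693857038910941733819605732124672610313) (.nod (nat_lit 28703930848335447756489223021634964403132697507457882150118233603906391215025847685152) (.nod (nat_lit 28703930732543358526753982887338488308774960556683270294124028100403653229913003477040) (.nod (nat_lit 1134794287364687973747343741323096498026691989335871453964820711488) .nil (.dwn (nat_lit 290765797480398763151504041757784726880361891317940176686820806656) (nat_lit 39281846272)) (.dwn (nat_lit 290765797480398763151504041757784726880361891317940176686820806656)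 (nat_lit 39281846272))) (.dwn (nat_lit 5391910510191606957846338792867029947359142611110967968926339169110180257565549168728) (nat_lit 4922107904)) .dup) (.nod (nat_lit 145264073529454241759344080133727837808149078447837315111435093977580143455827616026657) .nil (.nod (nat_lit 15762480855002585847662360280224261260715446376) .nil (.nod (nat_lit 292296305533927658484032647303685286711422507328068261171063769120) (.dwn (nat_lit 72754456592137314138141875703783024272734776405468769492565904157772318140962941999468592) (nat_lit 314159875136)) .nil .nil) .dup) (.nod (nat_lit 5391917920885318145790639785273876877412100166542373840006223591200573886072311992352) (.dwn (nat_lit 20933255163640442236336959142849639744830079536012171587974382351146123519542806874264) (nat_lit 90391632)) .nil .nil)) (.nod (nat_lit 36474606301446274802849346317965468622521744265820419171785723835716041096080362129584) (.dwn (nat_lit 1139910556538731378955068567988980886747328852414919542532298343772431493326842801850432) (nat_lit 4922229856)) .nil .nil)) (.nod (nat_lit 20931616473993555737539325168004307858305704025557810318916318484758534615443808342048) (.dwn (nat_lit 145264073529454241767218771350433776639636210484835884502027776478982566382184225736920)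 (nat_lit 627140608)) .nil .nil) .dup) (.nod (nat_lit 15845452585093652115092175364188870515697027296) (.dwn (nat_lit 20933280174731717496635891145027996246182967050460116626031692673542149225329794371616) (nat_lit 90391676)) .nil .nil) l2948 = true := by decide +kernel
theorem cw12709 : wchk (nat_lit 5) [] [l2948] (nat_lit 1747) (nat_lit 1) (nat_lit 0) (nat_lit 0) (nat_lit 9820492032) (nat_lit 0) w12709 = true := by decide +kernel
theorem cw12710 : wchk (nat_lit 5) [] [l1835] (nat_lit 19) (nat_lit 1) (nat_lit 0) (nat_lit 0) (nat_lit 156783360) (nat_lit 0) w12710 = true := by decide +kernel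
theorem cw12711 : wchk (nat_lit 5) [] [l2838] (nat_lit 19) (nat_lit 2) (nat_lit 1) (nat_lit 0) (nat_lit 156815616) (nat_lit 0) w12711 = true := by decide +kernel
theorem cw12712 : wchk (nat_lit 5) [w933, w16] [] (nat_lit 19) (nat_lit 0) (nat_lit 3) (nat_lit 2) (nat_lit 22121472) (nat_lit 89925636) w12712 = true := by decide +kernel
theorem cw12713 : wchk (nat_lit 5) [w726, w16] [] (nat_lit 1) (nat_lit 1) (nat_lit 3) (nat_lit 2) (nat_lit 86649856) (nat_lit 89925636) w12713 = true := by decide +kernel
theorem cw12714 : wchk (nat_lit 5) [w726, w16] [] (nat_lit 1) (nat_lit 1) (nat_lit 4) (nat_lit 2) (nat_lit 89230336) (nat_lit 85796868) w12714 = true := by decide +kernel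
theorem cw12715 : wchk (nat_lit 5) [w3352, w16] [] (nat_lit 1) (nat_lit 1) (nat_lit 3) (nat_lit 2) (nat_lit 22293504) (nat_lit 89925636) w12715 = true := by decide +kernel
theorem cw12716 : wchk (nat_lit 5) [] [l2421] (nat_lit 17) (nat_lit 1) (nat_lit 3) (nat_lit 0) (nat_lit 156571904) (nat_lit 0) w12716 = true := by decide +kernel
theorem cw12717 : wchk (nat_lit 5) [] [l2020] (nat_lit 17) (nat_lit 1) (nat_lit 3) (nat_lit 0) (nat_lit 156525312) (nat_lit 0) w12717 = true := by decide +kernel
theorem cw12718 : wchk (nat_lit 5) [] [l2421] (nat_lit 17) (nat_lit 1) (nat_lit 4) (nat_lit 0) (nat_lit 153312256) (nat_lit 0) w12718 = true := by decide +kernel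
theorem cw12719 : wchk (nat_lit 5) [w7169, w16] [] (nat_lit 1) (nat_lit 1) (nat_lit 3) (nat_lit 2) (nat_lit 22228992) (nat_lit 89925636) w12719 = true := by decide +kernel
theorem cw12720 : wchk (nat_lit 5) [w5258, w16] [] (nat_lit 0) (nat_lit 0) (nat_lit 3) (nat_lit 2) (nat_lit 22250496) (nat_lit 89925636) w12720 = true := by decide +kernel
theorem cw12721 : wchk (nat_lit 5) [] [l800] (nat_lit 17) (nat_lit 3) (nat_lit 2) (nat_lit 0) (nat_lit 5573376) (nat_lit 0) w12721 = true := by decide +kernel
theorem cw12722 : wchk (nat_lit 5) [w12721, w37] [] (nat_lit 1) (nat_lit 3) (nat_lit 0) (nat_lit 2) (nat_lit 23282688) (nat_lit 23211012) w12722 = true := by decide +kernel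
theorem cw12723 : wchk (nat_lit 5) [w6394, w16] [] (nat_lit 1) (nat_lit 1) (nat_lit 3) (nat_lit 2) (nat_lit 22228992) (nat_lit 89925636) w12723 = true := by decide +kernel
theorem cw12724 : wchk (nat_lit 5) [w1070, w16] [] (nat_lit 0) (nat_lit 0) (nat_lit 3) (nat_lit 2) (nat_lit 22121472) (nat_lit 89925636) w12724 = true := by decide +kernel
theorem cw12725 : wchk (nat_lit 5) [w12724, w37] [] (nat_lit 1) (nat_lit 3) (nat_lit 0) (nat_lit 2) (nat_lit 23282688) (nat_lit 23211012) w12725 = true := by decide +kernel
theorem cw12726 : wchk (nat_lit 5) [w6394, w16] [] (nat_lit 1) (nat_lit 1) (nat_lit 3) (nat_lit 2) (nat_lit 9154560) (nat_lit 89925636) w12726 = true := by decide +kernel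
theorem cw12727 : wchk (nat_lit 5) [w8424, w16] [] (nat_lit 1) (nat_lit 1) (nat_lit 3) (nat_lit 2) (nat_lit 22250496) (nat_lit 89925636) w12727 = true := by decide +kernel
theorem cw12728 : wchk (nat_lit 5) [w181, w37] [] (nat_lit 0) (nat_lit 2) (nat_lit 3) (nat_lit 2) (nat_lit 22687744) (nat_lit 22121476) w12728 = true := by decide +kernel
theorem cw12729 : wchk (nat_lit 5) [w17, w162] [] (nat_lit 0) (nat_lit 3) (nat_lit 1) (nat_lit 2) (nat_lit 23275520) (nat_lit 22687748) w12729 = true := by decide +kernel
theorem cw12730 : wchk (nat_lit 5) [w12729, w37] [] (nat_lit 0) (nat_lit 2) (nat_lit 0) (nat_lit 2) (nat_lit 23282688) (nat_lit 23211012) w12730 = true := by decide +kernel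
theorem cw12731 : wchk (nat_lit 5) [w2892, w16] [] (nat_lit 0) (nat_lit 0) (nat_lit 3) (nat_lit 2) (nat_lit 22114304) (nat_lit 89925636) w12731 = true := by decide +kernel
theorem cw12732 : wchk (nat_lit 5) [w799, w37] [] (nat_lit 0) (nat_lit 2) (nat_lit 3) (nat_lit 2) (nat_lit 22293504) (nat_lit 22121476) w12732 = true := by decide +kernel
theorem cw12733 : wchk (nat_lit 5) [w401, w16] [] (nat_lit 19) (nat_lit 3) (nat_lit 1) (nat_lit 2) (nat_lit 22823936) (nat_lit 21777412) w12733 = true := by decide +kernel
theorem cw12734 : wchk (nat_lit 5) [w4028, w16] [] (nat_lit 1) (nat_lit 3) (nat_lit 0) (nat_lit 2) (nat_lit 89359360) (nat_lit 22293508) w12734 = true := by decide +kernel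
theorem cl2949 : lchk (nat_lit 5) [w9741, w12728, w16, w12732, w3222, w7790, w9611, w12733, w6714, w9731, w5721, w9732, w6326, w6327, w7827, w12734, w9761, w6380, w2015, w3617, w12203, w2037, w12730, w12731, w4209, w12722, w12723, w12725, w128, w12726, w12727] (nat_lit 23211008) (.nod (nat_lit 5391903099497895769609831232372664440142128989187296863781219942800976346488974501896) (.nod (nat_lit 61517310695210984123720940761742115115827159080) .nil .nil (.dwn (nat_lit 426102445536740590839387794108677484855439857712) (nat_lit 626101272))) (.dwn (nat_lit 28703935364226928013084502246985741275867798321789383555466413611095944383975163349056) (nat_lit 89230360)) .dup) .nil (.nod (nat_lit 5375310556278545308068885801221236003703639751043263532007212632641217415185598535768) .nil (.nod (nat_lit 5390253293810442488457526733893691872314373165872421164402712922459256168823189358688) (.nod (nat_lit 145247462459500613335087277051832297178480092523423214632893770424013602992356705196032) .nil (.dwn (nat_lit 1139893935279073897699771666679775256968726424292157910861254469380442270654826354595840) (nat_lit 4922158080)) (.dwn (nat_lit 1139893935279073897699771666679775256968726424292157910861254469380442270654826354595840)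 (nat_lit 4922158080))) (.dwn (nat_lit 145247462459500613335087277051832297178906936452404252754724468974655248854455438039040) (nat_lit 627190784)) (.dwn (nat_lit 145247462459500613335087277051832297178906936452404252754724468974655248854455438039040) (nat_lit 627190784))) (.dwn (nat_lit 5147895819353170198768468331689943243108810555440007591410896981244416517233383530608) (nat_lit 90319872))) (.nod (nat_lit 5162824777626448138529043215665770035744625385787508704915279919266233627109185841280) .nil (.nod (nat_lit 5390257925494011981105343927817161635297917850103384718331072163364604823258186336392) .nil (.nod (nat_lit 5162839483221781277685862806372786533643482239146924739233599677445025792406782040208) (.dwn (nat_lit 145264080940147952955455278860711328260409477065366861754641539129943955922831400134816) (nat_lit 4922229852)) .nil .nil) .dup) (.nod (nat_lit 4062268096806077288672925436254028910334002897312870675997480346863840028583018268864) (.dwn (nat_lit 20933277395721575801047110789926622001843968720258019694933573899512767014991092418792) (nat_lit 90391672)) .nil .nil)) l2949 = true := by decide +kernel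
theorem cw12735 : wchk (nat_lit 5) [] [l2949] (nat_lit 28) (nat_lit 1) (nat_lit 3) (nat_lit 0) (nat_lit 156815616) (nat_lit 0) w12735 = true := by decide +kernel
theorem cl2950 : lchk (nat_lit 5) [w1690, w42, w16, w86, w1412, w12168, w1356, w4835, w6372, w1924, w4025, w33, w815, w10971, w4035, w259] (nat_lit 18035712) .nil .nil (.nod (nat_lit 7770691548211231033734066062787461172561082516853748689677672888297916160780284198912) .nil (.nod (nat_lit 4176787515190586141785755725757316374110217329648898135219101434960989411352873271296) (.nod (nat_lit 141248536340854203599491134830446601621080779302205761995725263015557524399867004190720) .nil (.dwn (nat_lit 4283026178105377564517423462055195309941011183985496669188398826895494240052671866920) (nat_lit 4909542424)) .dup) .nil (.nod (nat_lit 141248536340854203599491134830446601621498139858346937517637577455952704562414338703360) (.dwn (nat_lit 1138702065998809782434025712068145605569466158575163854450634579032506915253353511016528) (nat_lit 4916982784)) .nil .nil)) (.dwn (nat_lit 17995071658058955312554240959464468880685119884274539194095868815317867531817810552936) (nat_lit 76263480))) (.nod (nat_lit 4047319801253896717106903870873409326143015861406556778886059207348312546882812379136)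 (.opn (nat_lit 45622083159502580999309929363282352415424692195082528829206755189387479969327104)) .nil (.dwn (nat_lit 3885353763759772891684517665803308985938379179085648244523247593689596371844985153536) (nat_lit 85144576))) l2950 = true := by decide +kernel
theorem cw12736 : wchk (nat_lit 5) [] [l2950] (nat_lit 27) (nat_lit 2) (nat_lit 4) (nat_lit 0) (nat_lit 156815616) (nat_lit 0) w12736 = true := by decide +kernel
theorem cw12737 : wchk (nat_lit 5) [w12736, w16] [] (nat_lit 0) (nat_lit 0) (nat_lit 4) (nat_lit 2) (nat_lit 23282688) (nat_lit 85796868) w12737 = true := by decide +kernel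
theorem cw12740 : wchk (nat_lit 5) [w16] [] (nat_lit 0) (nat_lit 0) (nat_lit 4) (nat_lit 2) (nat_lit 325) (nat_lit 85796864) w12740 = true := by decide +kernel
theorem cw12743 : wchk (nat_lit 5) [w831] [] (nat_lit 0) (nat_lit 0) (nat_lit 4) (nat_lit 2) (nat_lit 33554477) (nat_lit 9276416) w12743 = true := by decide +kernel
theorem cw12767 : wchk (nat_lit 5) [w760, w37] [] (nat_lit 0) (nat_lit 2) (nat_lit 0) (nat_lit 2) (nat_lit 11297792) (nat_lit 23211012) w12767 = true := by decide +kernel
theorem cw12768 : wchk (nat_lit 5) [] [l2221] (nat_lit 27) (nat_lit 1) (nat_lit 3) (nat_lit 0) (nat_lit 156797696) (nat_lit 0) w12768 = true := by decide +kernel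
theorem cw12769 : wchk (nat_lit 5) [] [l2949] (nat_lit 4) (nat_lit 2) (nat_lit 2) (nat_lit 0) (nat_lit 22597888) (nat_lit 0) w12769 = true := by decide +kernel
theorem cw12770 : wchk (nat_lit 5) [w7178, w16] [] (nat_lit 0) (nat_lit 0) (nat_lit 3) (nat_lit 2) (nat_lit 22293504) (nat_lit 89925636) w12770 = true := by decide +kernel
theorem cw12771 : wchk (nat_lit 5) [] [l2221] (nat_lit 1299) (nat_lit 1) (nat_lit 2) (nat_lit 0) (nat_lit 156797696) (nat_lit 0) w12771 = true := by decide +kernel
theorem cw12772 : wchk (nat_lit 5) [w34, w16] [] (nat_lit 17) (nat_lit 1) (nat_lit 3) (nat_lit 2) (nat_lit 22121472) (nat_lit 89925636) w12772 = true := by decide +kernel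
theorem cw12773 : wchk (nat_lit 5) [w16, w12772] [] (nat_lit 9939) (nat_lit 0) (nat_lit 3) (nat_lit 2) (nat_lit 22121472) (nat_lit 23282692) w12773 = true := by decide +kernel
theorem cl2956 : lchk (nat_lit 5) [w6714, w3619, w2015, w710, w39, w1929, w7110, w112, w1326, w1555, w10769, w6797, w8247, w12631, w2729, w153, w2732, w12514] (nat_lit 22307840) .nil .nil (.nod (nat_lit 15172175678704120926395362498928575584266704913) (.nod (nat_lit 20905036168324951330247452446266874220471397213123131585031876612036399555477415920018) .nil (.nod (nat_lit 5391905878508037465198521548726746297932255799725874996135773330149019348536107903001) .nil (.nod (nat_lit 61782435496790853856805581320716750292783867511443446149766892275712) .nil .nil (.dwn (nat_lit 493141582171201090571477822713030841072245828872320835248990078945280) (nat_lit 39280993280))) (.dwn (nat_lit 1139684775859769320912583696606158312252622155916613357104046261740633718369422555006976) (nat_lit 4921254912))) (.dwn (nat_lit 5391905878508037465198521548726746297932255799725874996135773330149019348536084062256) (nat_lit 626287616))) .nil (.nod (nat_lit 5043309625343884515480497571777517714461684312516978762544000439681580731957501755538)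 (.dwn (nat_lit 20782201141051864614546689290964199536036647904991813643768136566829412346249747187800) (nat_lit 626287616)) .nil .nil)) (.nod (nat_lit 22835974652895833409250274226460954100137722002) (.dwn (nat_lit 20083347712995538651589447373885317327249643268333441189902446611669655753880502952064) (nat_lit 90391620)) .nil .nil) l2956 = true := by decide +kernel
theorem cw12774 : wchk (nat_lit 5) [] [l2956] (nat_lit 145) (nat_lit 2) (nat_lit 3) (nat_lit 0) (nat_lit 30986496) (nat_lit 0) w12774 = true := by decide +kernel
theorem cw12775 : wchk (nat_lit 5) [w710, w12196] [] (nat_lit 1) (nat_lit 1) (nat_lit 3) (nat_lit 2) (nat_lit 22228992) (nat_lit 23282692) w12775 = true := by decide +kernel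
theorem cw12776 : wchk (nat_lit 5) [w710, w12196] [] (nat_lit 1) (nat_lit 1) (nat_lit 4) (nat_lit 2) (nat_lit 10695680) (nat_lit 19612676) w12776 = true := by decide +kernel
theorem cw12777 : wchk (nat_lit 5) [w126, w12196] [] (nat_lit 1) (nat_lit 1) (nat_lit 3) (nat_lit 2) (nat_lit 89818112) (nat_lit 23282692) w12777 = true := by decide +kernel
theorem cw12778 : wchk (nat_lit 5) [w2914, w12772] [] (nat_lit 0) (nat_lit 0) (nat_lit 3) (nat_lit 2) (nat_lit 18695168) (nat_lit 23282692) w12778 = true := by decide +kernel
theorem cw12779 : wchk (nat_lit 5) [w667, w12772] [] (nat_lit 0) (nat_lit 0) (nat_lit 3) (nat_lit 2) (nat_lit 22823936) (nat_lit 23282692) w12779 = true := by decide +kernel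
theorem cw12780 : wchk (nat_lit 5) [w669, w12772] [] (nat_lit 0) (nat_lit 0) (nat_lit 3) (nat_lit 2) (nat_lit 22823936) (nat_lit 23282692) w12780 = true := by decide +kernel
theorem cw12781 : wchk (nat_lit 5) [w50, w12772] [] (nat_lit 0) (nat_lit 0) (nat_lit 3) (nat_lit 2) (nat_lit 15017984) (nat_lit 23282692) w12781 = true := by decide +kernel
theorem cw12782 : wchk (nat_lit 5) [] [l261] (nat_lit 1) (nat_lit 0) (nat_lit 1) (nat_lit 1) (nat_lit 30968576) (nat_lit 0) w12782 = true := by decide +kernel
theorem cw12783 : wchk (nat_lit 5) [] [l261] (nat_lit 1) (nat_lit 0) (nat_lit 1) (nat_lit 1) (nat_lit 30968576) (nat_lit 0) w12783 = true := by decide +kernel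
theorem cw12784 : wchk (nat_lit 5) [] [l479] (nat_lit 26) (nat_lit 2) (nat_lit 4) (nat_lit 0) (nat_lit 20599808) (nat_lit 0) w12784 = true := by decide +kernel
theorem cl2957 : lchk (nat_lit 5) [w39, w831, w734, w9166, w12784, w8611] (nat_lit 23282688) (.nod (nat_lit 315937490161641627988468938958374771307994064232480891238315196819) (.nod (nat_lit 60727022592720184427828987537006408618821550474) .nil .nil (.dwn (nat_lit 11417993111248154361189919617992941814847373458) (nat_lit 626689036))) .nil (.dwn (nat_lit 5391905878508037464906317955985450300738911575550996083133844510915087983887373041738) (nat_lit 895626260))) .nil (.nod (nat_lit 210624796758573376542982025784181253698448338281183334285828948106) .nil (.nod (nat_lit 20933253310967014438143757434208066948980124377886903315363920513291296138662065995786) (.opn (nat_lit 3885341721382492210589568215060528108673680689283757674305944061316569741392053962752)) .nil .nil) .nil) .nil l2957 = true := by decide +kernel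
theorem cw12785 : wchk (nat_lit 5) [] [l2957] (nat_lit 145) (nat_lit 2) (nat_lit 3) (nat_lit 0) (nat_lit 22597888) (nat_lit 0) w12785 = true := by decide +kernel
theorem cl2958 : lchk (nat_lit 5) [w10239, w17, w16, w12782, w2204, w3779, w12783, w8363, w39, w181, w12785] (nat_lit 21777408) (.nod (nat_lit 292205670461970410184677261393421816511635137310662049347563159554) (.nod (nat_lit 210625198493084441290550911274704338992416639383867601264249032721) (.nod (nat_lit 61517310695210984143375656737036756236614572072) .nil .nil (.dwn (nat_lit 3348871546040408243657168718679378565697902254080) (nat_lit 4920724480))) (.dwn (nat_lit 20933258868987297830436404541866200086630280455217307713217760732968510227639231125544) (nat_lit 625757184)) (.dwn (nat_lit 20933258868987297830436404541866200086630280455217307713217760732968510227639231125544) (nat_lit 625757184))) .nil .nil) .nil (.nod (nat_lit 5285670920940101636304420027272410139851136330168003857042137624626098106581701885962) (.nod (nat_lit 3885341721382492210589568215060528108673680689283757674283618299614294952274334799889) .nil (.nod (nat_lit 1134794438015129619677786065081005427916187548278021676159761549392)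 .nil (.dwn (nat_lit 7874781104802789568771432575919662357589178431637066755766107932752) (nat_lit 627262504)) (.dwn (nat_lit 7874781104802789568771432575919662357589178431637066755766107932752) (nat_lit 627262504))) (.dwn (nat_lit 20933262574334153424574185757901997263690538704566681994525231218176038447872165185616) (nat_lit 90391592))) .nil .nil) .nil l2958 = true := by decide +kernel
theorem cw12786 : wchk (nat_lit 5) [] [l2958] (nat_lit 3) (nat_lit 3) (nat_lit 3) (nat_lit 0) (nat_lit 5820672) (nat_lit 0) w12786 = true := by decide +kernel
theorem cw12787 : wchk (nat_lit 5) [w4859, w16] [] (nat_lit 27) (nat_lit 1) (nat_lit 3) (nat_lit 2) (nat_lit 623520768) (nat_lit 22121476) w12787 = true := by decide +kernel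
theorem cw12788 : wchk (nat_lit 5) [] [l2224] (nat_lit 3) (nat_lit 2) (nat_lit 3) (nat_lit 0) (nat_lit 21400832) (nat_lit 0) w12788 = true := by decide +kernel
theorem cw12789 : wchk (nat_lit 5) [w69] [] (nat_lit 3) (nat_lit 0) (nat_lit 0) (nat_lit 2) (nat_lit 337) (nat_lit 22687744) w12789 = true := by decide +kernel
theorem cw12790 : wchk (nat_lit 5) [w12789, w16] [] (nat_lit 0) (nat_lit 1) (nat_lit 3) (nat_lit 2) (nat_lit 627262464) (nat_lit 22121476) w12790 = true := by decide +kernel
theorem cw12791 : wchk (nat_lit 5) [w5991, w16] [] (nat_lit 0) (nat_lit 1) (nat_lit 3) (nat_lit 2) (nat_lit 610489344) (nat_lit 22121476) w12791 = true := by decide +kernel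
theorem cw12792 : wchk (nat_lit 5) [w4866, w16] [] (nat_lit 218) (nat_lit 1) (nat_lit 3) (nat_lit 2) (nat_lit 4905929728) (nat_lit 22121476) w12792 = true := by decide +kernel
theorem cw12793 : wchk (nat_lit 5) [w519, w1184] [] (nat_lit 17) (nat_lit 0) (nat_lit 0) (nat_lit 2) (nat_lit 22823936) (nat_lit 90319876) w12793 = true := by decide +kernel
theorem cw12794 : wchk (nat_lit 5) [w230, w1184] [] (nat_lit 17) (nat_lit 0) (nat_lit 0) (nat_lit 2) (nat_lit 22709248) (nat_lit 90319876) w12794 = true := by decide +kernel
theorem cw12795 : wchk (nat_lit 5) [w4789, w16] [] (nat_lit 0) (nat_lit 0) (nat_lit 3) (nat_lit 2) (nat_lit 912436224) (nat_lit 22121476) w12795 = true := by decide +kernel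
theorem cw12796 : wchk (nat_lit 5) [w4789, w16] [] (nat_lit 0) (nat_lit 0) (nat_lit 1) (nat_lit 2) (nat_lit 912952320) (nat_lit 23153668) w12796 = true := by decide +kernel
theorem cw12797 : wchk (nat_lit 5) [w83, w1184] [] (nat_lit 17) (nat_lit 0) (nat_lit 0) (nat_lit 2) (nat_lit 22687744) (nat_lit 90319876) w12797 = true := by decide +kernel
theorem cw12798 : wchk (nat_lit 5) [w2118, w16] [] (nat_lit 17) (nat_lit 1) (nat_lit 1) (nat_lit 2) (nat_lit 21662720) (nat_lit 23153668) w12798 = true := by decide +kernel
theorem cl2959 : lchk (nat_lit 5) [w4838, w536, w4038, w537, w230, w144, w1170, w4566, w16, w12790, w12791, w2015, w12797, w11820, w2439, w2037, w12203, w12794, w12792, w521, w519, w128, w4816, w12793, w5952, w11811, w10828, w12795, w12796, w549, w7718, w12798, w5250, w540, w3031, w4832, w9569, w4829, w4830, w4833, w552, w4837, w111, w6073] (nat_lit 21662720) (.nod (nat_lit 5240843634681123993672920450420086737956452801384486431642978278750086372544881008665) (.nod (nat_lit 5259106362995633504301662660084737219649420205242854998901055759969861413178367563824) (.nod (nat_lit 143959312520204026594599380885957514313983685847497728903604914542933204479398410098744)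 .nil (.nod (nat_lit 61794674388887255274585123900188859057935916414395416838753663486032) .nil (.nod (nat_lit 290676361334872973724063872993397122765737153437433832923981895768) (.dwn (nat_lit 72754109651247857721925145085916655030253458627189437970339877110528598347165940569006192) (nat_lit 314159875140)) .nil .nil) .dup) (.nod (nat_lit 5391918847222032044604310774186210206390895537313488873282698571476634733392891699352) (.dwn (nat_lit 20827033058994412241832164829332067933620465008847411308875868930614923899443898536136) (nat_lit 39281968196)) .nil .nil)) .nil (.nod (nat_lit 5363706336263538428229937908838868294209992736402768531047881669709689868102001920224) .nil (.dwn (nat_lit 20782220594122856483674990603689302213395763142728488921010846778237729105247774132464) (nat_lit 4922229828)) .dup)) .nil (.nod (nat_lit 20933282953741859191373894171760076795884075365577302994301465978116557888372993120528) (.dwn (nat_lit 144888935876763468148444060006943435944849424411750051438165322285403218760591815809336) (nat_lit 627262532)) .nil .nil)) (.nod (nat_lit 145113039886273369905210954472289785718149087580103762975988884085357419473339280480321) .nil (.nod (nat_lit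 1114458586848218214647356424116112629519915795735810981875428911440) .nil (.dwn (nat_lit 7854443194746508956908609876502497035721647625471296800479771957248) (nat_lit 625642496)) .dup) (.dwn (nat_lit 20083375503096955607502177145239838630611729334792429884690084503190424710109843589464) (nat_lit 88771584))) .nil .nil l2959 = true := by decide +kernel
theorem cw12799 : wchk (nat_lit 5) [] [l2959] (nat_lit 1681) (nat_lit 1) (nat_lit 0) (nat_lit 0) (nat_lit 9820492032) (nat_lit 0) w12799 = true := by decide +kernel
theorem cw12800 : wchk (nat_lit 5) [w3970, w16] [] (nat_lit 0) (nat_lit 1) (nat_lit 3) (nat_lit 2) (nat_lit 611084288) (nat_lit 22121476) w12800 = true := by decide +kernel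
theorem cw12801 : wchk (nat_lit 5) [w3970, w16] [] (nat_lit 0) (nat_lit 1) (nat_lit 3) (nat_lit 2) (nat_lit 625764352) (nat_lit 22121476) w12801 = true := by decide +kernel
theorem cw12802 : wchk (nat_lit 5) [w3966, w16] [] (nat_lit 0) (nat_lit 1) (nat_lit 3) (nat_lit 2) (nat_lit 625764352) (nat_lit 22121476) w12802 = true := by decide +kernel
theorem cw12803 : wchk (nat_lit 5) [] [l2402] (nat_lit 1) (nat_lit 0) (nat_lit 3) (nat_lit 0) (nat_lit 5802752) (nat_lit 0) w12803 = true := by decide +kernel
theorem cw12807 : wchk (nat_lit 5) [w659] [] (nat_lit 211) (nat_lit 0) (nat_lit 0) (nat_lit 2) (nat_lit 337) (nat_lit 622667776) w12807 = true := by decide +kernel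
theorem cw12808 : wchk (nat_lit 5) [w12807, w16] [] (nat_lit 1747) (nat_lit 1) (nat_lit 3) (nat_lit 2) (nat_lit 39281968128) (nat_lit 22121476) w12808 = true := by decide +kernel
theorem cw12809 : wchk (nat_lit 5) [] [l2407] (nat_lit 211) (nat_lit 2) (nat_lit 3) (nat_lit 0) (nat_lit 1230539520) (nat_lit 0) w12809 = true := by decide +kernel
theorem cw12810 : wchk (nat_lit 5) [w1398, w1184] [] (nat_lit 19) (nat_lit 2) (nat_lit 0) (nat_lit 2) (nat_lit 22250496) (nat_lit 123874308) w12810 = true := by decide +kernel
theorem cl2960 : lchk (nat_lit 5) [w9740, w10359, w5721, w10360, w209, w1170, w4566, w3688, w16, w12799, w128, w12800, w435, w12808, w12809, w10386, w12217, w669, w12810, w12801, w12802, w2015, w6714, w3953, w10350, w12803, w10355, w12786, w12787, w12788, w10361, w3031] (nat_lit 593636352) (.nod (nat_lit 5375303261376923356857897855347935275562195559897982904854659931142306208212249237529) (.nod (nat_lit 5162826630299875935588170093235157940938043259479894126489462391714704118316939892776) (.nod (nat_lit 143959311593867312696056859092506814128418325764503107634387166969382774682955791112240) (.nod (nat_lit 3349896011023296162287072606389571020119947511896)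 .nil .nil (.nod (nat_lit 6308355965141574432113390282567159362349344880) (.dwn (nat_lit 20916667252104661267444460021866008466067960869211354783450267981758795953972860610696) (nat_lit 90391624)) .nil .nil)) (.nod (nat_lit 1139910552833384523421610195088616886484265793026594310427082252063723419289470143727704) (.dwn (nat_lit 207401268348729220119217044277200058233686294855666356780412262963940355655754238417104) (nat_lit 895697992)) .nil .nil) (.nod (nat_lit 1139910552833384523421610195088616886484265793026594310427082252063723419289470143727704) (.dwn (nat_lit 207401268348729220119217044277200058233686294855666356780412262963940355655754238417104) (nat_lit 895697992)) .nil .nil)) .nil (.nod (nat_lit 5391927184252457131378570679521999594205437807751793834976909600902942011770123225320) .nil (.dwn (nat_lit 5162842262231922973274553122726868391023303243908885858108385099091649062196167137448) (nat_lit 5190665288)) .dup)) .nil (.dwn (nat_lit 5375303145584834119832378290943684382929968256273721845722896518673983634558717024280) (nat_lit 123874304))) (.nod (nat_lit 145247462459500613327213396334502431475624317292222166444242357353093470460464104495104) .nil (.nod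 (nat_lit 61793774051631145292189805405240309536107297496785480664229408430080) .nil (.dwn (nat_lit 493152920726041382033595920198491690965066284397197609979358113716224) (nat_lit 39281896448)) (.dwn (nat_lit 493152920726041382033595920198491690965066284397197609979358113716224) (nat_lit 39281896448))) (.dwn (nat_lit 1139893935279073897699771666679775256968726424292157910861254469380442270654826354595840) (nat_lit 4922158080))) .nil .nil l2960 = true := by decide +kernel
theorem cw12811 : wchk (nat_lit 5) [] [l2960] (nat_lit 273) (nat_lit 1) (nat_lit 3) (nat_lit 0) (nat_lit 1230557440) (nat_lit 0) w12811 = true := by decide +kernel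
theorem cw12812 : wchk (nat_lit 5) [w7848, w16] [] (nat_lit 17) (nat_lit 1) (nat_lit 3) (nat_lit 2) (nat_lit 626230272) (nat_lit 89925636) w12812 = true := by decide +kernel
theorem cw12813 : wchk (nat_lit 5) [w909, w16] [] (nat_lit 17) (nat_lit 1) (nat_lit 3) (nat_lit 2) (nat_lit 626101248) (nat_lit 89925636) w12813 = true := by decide +kernel
theorem cw12814 : wchk (nat_lit 5) [w12813, w16] [] (nat_lit 0) (nat_lit 1) (nat_lit 3) (nat_lit 2) (nat_lit 23282688) (nat_lit 22121476) w12814 = true := by decide +kernel
theorem cw12815 : wchk (nat_lit 5) [w3035, w16] [] (nat_lit 17) (nat_lit 1) (nat_lit 3) (nat_lit 2) (nat_lit 626101248) (nat_lit 89925636) w12815 = true := by decide +kernel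
theorem cw12816 : wchk (nat_lit 5) [w12815, w16] [] (nat_lit 0) (nat_lit 1) (nat_lit 3) (nat_lit 2) (nat_lit 23282688) (nat_lit 22121476) w12816 = true := by decide +kernel
theorem cw12817 : wchk (nat_lit 5) [w710, w12772] [] (nat_lit 1) (nat_lit 1) (nat_lit 3) (nat_lit 2) (nat_lit 21712896) (nat_lit 23282692) w12817 = true := by decide +kernel
theorem cw12818 : wchk (nat_lit 5) [w162, w12772] [] (nat_lit 9939) (nat_lit 0) (nat_lit 3) (nat_lit 2) (nat_lit 22823936) (nat_lit 23282692) w12818 = true := by decide +kernel
theorem cw12819 : wchk (nat_lit 5) [w8195, w1063] [] (nat_lit 0) (nat_lit 2) (nat_lit 0) (nat_lit 2) (nat_lit 23275520) (nat_lit 23211012) w12819 = true := by decide +kernel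
theorem cw12820 : wchk (nat_lit 5) [w368, w16] [] (nat_lit 1) (nat_lit 1) (nat_lit 3) (nat_lit 2) (nat_lit 22644736) (nat_lit 89925636) w12820 = true := by decide +kernel
theorem cw12821 : wchk (nat_lit 5) [w12820, w1063] [] (nat_lit 3) (nat_lit 2) (nat_lit 0) (nat_lit 2) (nat_lit 23282688) (nat_lit 23211012) w12821 = true := by decide +kernel
theorem cw12822 : wchk (nat_lit 5) [w3843, w16] [] (nat_lit 0) (nat_lit 0) (nat_lit 3) (nat_lit 2) (nat_lit 22293504) (nat_lit 89925636) w12822 = true := by decide +kernel
theorem cw12823 : wchk (nat_lit 5) [w16, w682] [] (nat_lit 0) (nat_lit 2) (nat_lit 1) (nat_lit 2) (nat_lit 21777408) (nat_lit 22823940) w12823 = true := by decide +kernel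
theorem cw12824 : wchk (nat_lit 5) [w7114, w1063] [] (nat_lit 26) (nat_lit 2) (nat_lit 0) (nat_lit 2) (nat_lit 22823936) (nat_lit 23211012) w12824 = true := by decide +kernel
theorem cw12825 : wchk (nat_lit 5) [w155] [] (nat_lit 211) (nat_lit 0) (nat_lit 4) (nat_lit 2) (nat_lit 325) (nat_lit 622015488) w12825 = true := by decide +kernel
theorem cl2961 : lchk (nat_lit 5) [w4531, w1929, w78, w69, w86, w93, w4566, w1206, w85, w105, w6725, w33, w4260, w1584, w8230, w10913, w1202, w1572, w8244, w1204, w1170, w267, w721, w114, w2570, w1571] (nat_lit 19605504) .nil .nil (.nod (nat_lit 22835993708708380982632228766824985362112602121) (.nod (nat_lit 28675710926683242951577857930310450375845449105182368123120563492507028328887481978897) .nil (.nod (nat_lit 143092792146932066788173902638499043685425927147709929616784779409992750354372654073864) .nil (.nod (nat_lit 1139058957597246896715997468687479041157611765618357033560471987431787460134983219695616) .nil .nil (.nod (nat_lit 9096230740153833171140364929215812024710801838958897268940157761220267008550070895661056) .nil (.dwn (nat_lit 3885341721382492210589568215060528322477309889706496042814262149472622542718479892482)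 (nat_lit 314156197888)) .nil)) .nil) (.dwn (nat_lit 143092792146932066780690315083575615423787229780183018386696091925430711995215213258816) (nat_lit 623585280))) .nil (.nod (nat_lit 4176787399398496904249615371481785346866953497096637974236166007971718843441798664280) (.dwn (nat_lit 144385935967453280494000446660134060889329567969613260687700922890060053620996433301632) (nat_lit 623585280)) .nil .nil)) (.nod (nat_lit 11937913942490325710789506968347607719745683456) .nil (.nod (nat_lit 20586331874581590030975859273571257474211954294826163380554913011907277432068677566464) (.dwn (nat_lit 144048965240048554090329676104932703396628325873304313574122410921085006267129824331968) (nat_lit 621520996)) .nil .nil) (.nod (nat_lit 20586331874581590030975859273571257474211954294826163380554913011907277432068677566464) (.dwn (nat_lit 144048965240048554090329676104932703396628325873304313574122410921085006267129824331968) (nat_lit 621520996)) .nil .nil)) l2961 = true := by decide +kernel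
theorem cw12826 : wchk (nat_lit 5) [] [l2961] (nat_lit 2193) (nat_lit 1) (nat_lit 4) (nat_lit 0) (nat_lit 22597888) (nat_lit 0) w12826 = true := by decide +kernel
theorem cl2962 : lchk (nat_lit 5) [w1166, w7114, w69, w1, w155, w93, w83, w4566, w3565, w3688, w80, w91, w12826, w521, w2526, w8105, w4259, w2404, w12825, w2717, w111, w370, w2720] (nat_lit 21777408) (.nod (nat_lit 7770686916527661540951445541761952667021731845921526407526721067579794436133398511682) (.nod (nat_lit 20785515573814193553311624975896592808701435661727956481801860466044091761576852000784) (.nod (nat_lit 141291698073701591678258729870637349537776619157124490160440888908836828498224236138536) (.nod (nat_lit 3348871546040408243657168718679378565697902254080) .nil .nil (.dwn (nat_lit 26732897743334854936183776642368136281758245623808) (nat_lit 39280462848))) .nil (.dwn (nat_lit 1139561936200812664642459429899927201710488594732924684943590407817468680030991223920640) (nat_lit 4920724480))) .nil (.dwn (nat_lit 2506836667428064437294008387871148569535074358521949999237023820028031073360839661624) (nat_lit 625757184))) .nil (.nod (nat_lit 1419542465132668064937833292829148321821776512026174820721535259035512402491991068752)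 (.dwn (nat_lit 145131274824486462467540319828435170963378526425473090680574203375662887427686551332968) (nat_lit 627205188)) .nil .nil)) .nil .nil (.nod (nat_lit 9097082334463634083947401927107910240033363607300360538456072720495344213756965367892120) .nil (.dwn (nat_lit 48401093301198169687052671733631606682935106411515829361135393367299674221838722) (nat_lit 90334296)) (.dwn (nat_lit 48401093301198169687052671733631606682935106411515829361135393367299674221838722) (nat_lit 90334296))) l2962 = true := by decide +kernel
theorem cw12827 : wchk (nat_lit 5) [] [l2962] (nat_lit 4) (nat_lit 1) (nat_lit 1) (nat_lit 0) (nat_lit 22597888) (nat_lit 0) w12827 = true := by decide +kernel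
theorem cw12828 : wchk (nat_lit 5) [w12827, w16] [] (nat_lit 1747) (nat_lit 1) (nat_lit 3) (nat_lit 2) (nat_lit 23282688) (nat_lit 22121476) w12828 = true := by decide +kernel
theorem cw12829 : wchk (nat_lit 5) [w164, w2272] [] (nat_lit 3) (nat_lit 1) (nat_lit 3) (nat_lit 2) (nat_lit 89223168) (nat_lit 22293508) w12829 = true := by decide +kernel
theorem cw12830 : wchk (nat_lit 5) [w162, w2272] [] (nat_lit 3) (nat_lit 1) (nat_lit 3) (nat_lit 2) (nat_lit 89223168) (nat_lit 22293508) w12830 = true := by decide +kernel
theorem cw12831 : wchk (nat_lit 5) [w2272] [] (nat_lit 3) (nat_lit 1) (nat_lit 4) (nat_lit 2) (nat_lit 169) (nat_lit 18164736) w12831 = true := by decide +kernel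
theorem cl2963 : lchk (nat_lit 5) [w5177, w12823, w1188, w2272, w17, w682, w460, w462, w2347, w1931, w3843, w434, w5742, w435, w1311, w3880, w495, w12121, w12633] (nat_lit 23275520) .nil .nil (.nod (nat_lit 3334859818359514199148103689) (.nod (nat_lit 5375304187713637255678857118037106990338154719929372871860939878085245600554641523034) .nil (.nod (nat_lit 145250786155630081259160085514539892564372884778668120986526794194579344311951008548905) .nil (.nod (nat_lit 1139684781417789604303754508076141545215955993996657022696041731803565834661003383072824) (.nod (nat_lit 9097080657794181928102045924422863002770418811897431520242226361577572222832112392622080) .nil (.nod (nat_lit 3944026904018097582255338851084961666497216623315063556451128268181504) .nil (.dwn (nat_lit 31551012291180352733704746103703793038410088413138354586937413738057728) (nat_lit 2513183123456)) (.dwn (nat_lit 31551012291180352733704746103703793038410088413138354586937413738057728) (nat_lit 2513183123456))) (.dwn (nat_lit 72754454918246872127441846860611212429346184045096452078857311094789006953230169954209792) (nat_lit 314159867904))) .nil (.dwn (nat_lit 9097080657794181928102045924422863002770418811897431520242226361577572222832112392622080)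 (nat_lit 39281960960))) (.dwn (nat_lit 1139880662726637159568187435680924132190724219958926119562532142634814178826300987746376) (nat_lit 4922222592))) (.nod (nat_lit 145250786155630081259160085514539892564372884778668120986526778857052430970218026260560) (.dwn (nat_lit 1139684786049473173796402325270065014982277321910943819819581513084812723943174915549288) (nat_lit 4922222592)) .nil .nil)) (.nod (nat_lit 20903386362637498049094877982196466142338818900658938993130997515249105650333905846618) (.dwn (nat_lit 145025037898453009604544294418673020525683662280335457272463025664697510136672412917904) (nat_lit 627255296)) .nil .nil) .dup) .nil l2963 = true := by decide +kernel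
theorem cw12832 : wchk (nat_lit 5) [] [l2963] (nat_lit 0) (nat_lit 3) (nat_lit 2) (nat_lit 0) (nat_lit 5820672) (nat_lit 0) w12832 = true := by decide +kernel
theorem cw12833 : wchk (nat_lit 5) [] [l2963] (nat_lit 0) (nat_lit 3) (nat_lit 2) (nat_lit 0) (nat_lit 5820672) (nat_lit 0) w12833 = true := by decide +kernel
theorem cw12834 : wchk (nat_lit 5) [] [l2963] (nat_lit 0) (nat_lit 3) (nat_lit 2) (nat_lit 0) (nat_lit 5820672) (nat_lit 0) w12834 = true := by decide +kernel
theorem cl2964 : lchk (nat_lit 5) [w12773, w7856, w12823, w1188, w2272, w16, w7632, w682, w11146, w12196, w12774, w12775, w12776, w2015, w12817, w12818, w12203, w2037, w12777, w4209, w128, w9771, w12778, w12779, w12780, w10973, w12781, w10828, w12811, w12812, w11864, w3830, w12814, w12816, w3750, w369, w10070, w6428, w12819, w9763, w9764, w11894, w6925, w12821, w10383, w12822, w12824, w12828, w6714, w3953, w12829, w12830, w5177, w12831, w12832, w12833, w12217, w669, w12834] (nat_lit 23282688) .nil .nil (.nod (nat_lit 4994085331582772829247116793400056650489054791697) (.nod (nat_lit 5375305114050351154208420556821800942934863656775565582650101187010824752454337974312) .nil (.nod (nat_lit 5391907846973554499568174628940889112601596358948570270555821771286725148438657583161)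 .nil (.nod (nat_lit 1139897262680550221217962728897621628165006052294787588057872432560671238097589788641352) (.nod (nat_lit 5391911436528320856375902181434910013512509420803031260851311211586033066951238178857) .nil (.nod (nat_lit 292296154883486009187887954297957355023882234109049486466962851936) .nil (.nod (nat_lit 290676461768500713192879292354976791412301878689713615351161509992) (.dwn (nat_lit 4656085403344731008242151395174731126336104630280364267128158559104364148021011664938117248) (nat_lit 20105369175040)) .nil .nil) .dup) (.nod (nat_lit 5391918847222032044389058209281629941001498631120205460349050475539118702432521490584) (.nod (nat_lit 20827032132657697851291493705730306005756196639072778859487315294394798947581067286696) (.dwn (nat_lit 145264083719158094651044059215812702504748797436078753726375510852952941963872774293712) (nat_lit 20105369175040)) .nil .nil) .nil .nil)) .nil (.nod (nat_lit 5363707262600252326759501347623562246806701673248961241834584298042618169205714225384) (.dwn (nat_lit 20920001137937982075343816189379228765449501615044527669615575298635045894703981156600) (nat_lit 90391684)) .nil .nil)) (.nod (nat_lit 5375333714696392771303832348653387542765013188534525852450516726023472530718312450328)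 (.dwn (nat_lit 20584687626914420141048359363362619943037763744316119621021280110159560231801936308520) (nat_lit 39281968128)) .nil .nil)) (.nod (nat_lit 5375338346379962263955788964762054581604907856429044855582383927236877317926400842048) (.dwn (nat_lit 20920011327641835019829793902404586816568387394863375844043461408920900197643608938848) (nat_lit 90391732)) .nil .nil)) (.nod (nat_lit 5391944784650021204282774349779642187187720384336497350519776053064420949844438993280) (.dwn (nat_lit 145235887882260451208192919333855666014127692627113939985673312540201522140788601293208) (nat_lit 627262464)) .nil .nil) (.nod (nat_lit 5391944784650021204282774349779642187187720384336497350519776053064420949844438993280) (.dwn (nat_lit 145235887882260451208192919333855666014127692627113939985673312540201522140788601293208) (nat_lit 627262464)) .nil .nil)) (.nod (nat_lit 15840639631295922361443796881246914317465897384) (.dwn (nat_lit 20933303333149564959874977114645345061100646708580289427623848779322688614556401592776) (nat_lit 90391784)) .nil .nil) l2964 = true := by decide +kernel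
theorem cw12835 : wchk (nat_lit 5) [] [l2964] (nat_lit 108243) (nat_lit 1) (nat_lit 0) (nat_lit 0) (nat_lit 628295782656) (nat_lit 0) w12835 = true := by decide +kernel
theorem cw12836 : wchk (nat_lit 5) [w8150, w16] [] (nat_lit 19) (nat_lit 0) (nat_lit 3) (nat_lit 2) (nat_lit 22228992) (nat_lit 89925636) w12836 = true := by decide +kernel
theorem cw12837 : wchk (nat_lit 5) [w8150, w16] [] (nat_lit 19) (nat_lit 0) (nat_lit 4) (nat_lit 2) (nat_lit 9147392) (nat_lit 85796868) w12837 = true := by decide +kernel
theorem cw12838 : wchk (nat_lit 5) [w461, w37] [] (nat_lit 19) (nat_lit 2) (nat_lit 1) (nat_lit 2) (nat_lit 23275520) (nat_lit 23153668) w12838 = true := by decide +kernel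
theorem cw12839 : wchk (nat_lit 5) [] [l552] (nat_lit 3) (nat_lit 0) (nat_lit 3) (nat_lit 0) (nat_lit 22307584) (nat_lit 0) w12839 = true := by decide +kernel
theorem cw12840 : wchk (nat_lit 5) [] [l1678] (nat_lit 4) (nat_lit 1) (nat_lit 4) (nat_lit 0) (nat_lit 19553280) (nat_lit 0) w12840 = true := by decide +kernel
theorem cw12841 : wchk (nat_lit 5) [w12840, w37] [] (nat_lit 19) (nat_lit 2) (nat_lit 0) (nat_lit 2) (nat_lit 23282688) (nat_lit 23211012) w12841 = true := by decide +kernel
theorem cw12842 : wchk (nat_lit 5) [] [l338] (nat_lit 0) (nat_lit 3) (nat_lit 1) (nat_lit 0) (nat_lit 5413888) (nat_lit 0) w12842 = true := by decide +kernel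
theorem cl2965 : lchk (nat_lit 5) [w798, w2879, w154, w802, w141, w795, w3566, w1143, w3855, w922, w3858, w2883, w6861, w1707] (nat_lit 22228992) (.nod (nat_lit 5122983846106297043219629003159304087458814749796805268562836958784711629988165261320) .nil .nil (.opn (nat_lit 20689233988445008187559252950835288902268469564636108836587256540330379897548313092096))) .nil (.nod (nat_lit 5285664436583104346883922762025409725458877526989649056576078305601181738984497768465) (.nod (nat_lit 20689236767455149883141464092994918511267611184018367401331417951297994533888291463192) .nil (.nod (nat_lit 145250786155630081259160085514539892564372884778668120986549059396948990685917833521184) .nil (.opn (nat_lit 1139666521468485236489006571914979282381875846425539798358211400719206620282084796031024)) .dup) (.dwn (nat_lit 5166149284300540723815939595553800657802980759790202521354127099937764114742413682744) (nat_lit 626208792))) .nil (.nod (nat_lit 20664342394605840799654330101373464454955085178452826583415246155736463753802961066056) .nil (.nod (nat_lit 145250786155630081259160085514539892564372884778668120986549055166446491797664104114208) (.dwn (nat_lit 1139641626169299213506983395310378682127524858863992161944243837888050943674794263648344)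 (nat_lit 4921176064)) .nil .nil) (.nod (nat_lit 145250786155630081259160085514539892564372884778668120986549055166446491797664104114208) (.dwn (nat_lit 1139641626169299213506983395310378682127524858863992161944243837888050943674794263648344) (nat_lit 4921176064)) .nil .nil))) .nil l2965 = true := by decide +kernel
theorem cw12843 : wchk (nat_lit 5) [] [l2965] (nat_lit 35) (nat_lit 1) (nat_lit 2) (nat_lit 0) (nat_lit 156815616) (nat_lit 0) w12843 = true := by decide +kernel
theorem cl2966 : lchk (nat_lit 5) [w925, w42, w162, w461, w921, w12168, w154, w3808, w12842, w3193, w4572, w281, w12843, w5698, w10344, w9595, w259, w7959] (nat_lit 22121472) .nil .nil (.nod (nat_lit 5254123597811573313777765662267668235928274401833841773645638719000306963695141085193) .nil (.nod (nat_lit 5362024224583187935858118558691616708468832781241724501191051231341555101737060816913) (.nod (nat_lit 5121325703388418675301073578557128939349817795111852961902713340451753588997496692760) .nil (.nod (nat_lit 5254123482019484076461570232419581491853685784728067684798224402295698785241094381576) .nil (.opn (nat_lit 1139641620611278930115811773943621142629742915063033539723948389498411845914596401682472))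 .dup) (.dwn (nat_lit 144995147791705645751127384315678182839496583294298843495587690541983178252126752282664) (nat_lit 626101268))) .nil (.nod (nat_lit 5285668026137870703685981087316098791786179770028328891310232510715908483656034314288) (.dwn (nat_lit 20933260721660725627514968891802130855650480639367005729720302018519857933028960921664) (nat_lit 4921068544)) .nil .nil)) (.nod (nat_lit 5121333114082129863537581088834680560123489289881394648190321477632534029197909876824) (.dwn (nat_lit 20689246030822288868437098480841858037296169110240231996618038013871450353366736527464) (nat_lit 626101248)) .nil .nil)) (.dwn (nat_lit 5016758036113410962602931777850926407349984570617982777049472710349567116672427563136) (nat_lit 22293572)) l2966 = true := by decide +kernel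
theorem cw12844 : wchk (nat_lit 5) [] [l2966] (nat_lit 27) (nat_lit 2) (nat_lit 3) (nat_lit 0) (nat_lit 156815616) (nat_lit 0) w12844 = true := by decide +kernel
theorem cw12845 : wchk (nat_lit 5) [w12844, w16] [] (nat_lit 19) (nat_lit 0) (nat_lit 3) (nat_lit 2) (nat_lit 23282688) (nat_lit 89925636) w12845 = true := by decide +kernel
theorem cl2967 : lchk (nat_lit 5) [w929, w42, w16, w461, w921, w12168, w15, w909, w6372, w1924, w4025, w3766, w10971, w6716, w3276, w9595, w1690, w259] (nat_lit 22121472) .nil .nil (.nod (nat_lit 5254123597811573313777765662267668235928274401833841773645638719000306963695141085193) .nil (.nod (nat_lit 5147884819104692653729902496121702556022891930391469150828144721262791195571852369937) (.nod (nat_lit 5121325703388418675301073578557128939349817795111852961902713340451753588997496692760) .nil (.nod (nat_lit 5254123482019484076461570232419581491853685784728067684798224402295698785241094381576) (.opn (nat_lit 1139641620611278930115811773943621142633092020780509827215804540190388476555257654220840)) .dup .dup) (.dwn (nat_lit 5254123482019484076461570232419581491853685784728067684978963383578841264676234551304) (nat_lit 626101268)))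 .nil (.nod (nat_lit 5147888408659459010531960821412391622350194173430148985562298926377517940243388915760) (.dwn (nat_lit 1139671503307332582780992176536338428698079272146016212203692777031746238682658489444416) (nat_lit 4921068544)) .nil .nil)) (.nod (nat_lit 5254132745386623061757204620266521017820775153189994792659140695137862967183415664728) (.dwn (nat_lit 20931605357952988955185283760614994572059900582832197863284499452407905748962337310824) (nat_lit 626208832)) .nil .nil)) (.dwn (nat_lit 5016758962450124861132495216635620359946693507464175487835316354829082735689740785800) (nat_lit 22229056)) l2967 = true := by decide +kernel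
theorem cw12846 : wchk (nat_lit 5) [] [l2967] (nat_lit 27) (nat_lit 2) (nat_lit 3) (nat_lit 0) (nat_lit 156815616) (nat_lit 0) w12846 = true := by decide +kernel
theorem cw12847 : wchk (nat_lit 5) [w12846, w16] [] (nat_lit 19) (nat_lit 0) (nat_lit 3) (nat_lit 2) (nat_lit 23282688) (nat_lit 89925636) w12847 = true := by decide +kernel
theorem cw12848 : wchk (nat_lit 5) [w933] [] (nat_lit 3) (nat_lit 1) (nat_lit 4) (nat_lit 2) (nat_lit 169) (nat_lit 17935360) w12848 = true := by decide +kernel
theorem cl2968 : lchk (nat_lit 5) [w5177, w3511, w933, w17, w37, w460, w462, w6108, w434, w5742, w435, w1311, w934, w495, w12121, w12633] (nat_lit 23275520) .nil .nil (.nod (nat_lit 3292018509626920777766098953) (.nod (nat_lit 5375304187713637255678137159576465079601265810225688645353678602325187353652150403418) .nil (.nod (nat_lit 145250785229293367360630522075755198611776175841821928275740928864845365402933196445729) .nil (.nod (nat_lit 1139684780491452890405224944637356851263359285059810829985255888158938745089396393437232) (.nod (nat_lit 9097080657794181928102045924422863002770418811897431520242226361577572222832112392622080) .nil (.dwn (nat_lit 72754454918246872127441846860611212429346184045096452078857311094789006953230169954209792)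 (nat_lit 314159867904)) (.dwn (nat_lit 72754454918246872127441846860611212429346184045096452078857311094789006953230169954209792) (nat_lit 314159867904))) (.dwn (nat_lit 9097080657794181928102045924422863002797152729202960920498887697015552312324479626137600) (nat_lit 39281960960)) (.dwn (nat_lit 9097080657794181928102045924422863002797152729202960920498887697015552312324479626137600) (nat_lit 39281960960))) (.dwn (nat_lit 1139684780491452890405224944637356851263359285059810829985255888158938745089396393437232) (nat_lit 4922222592))) (.nod (nat_lit 145250785229293367360630522075755198611776175841821928275762809553689232456677172078648) (.dwn (nat_lit 1139684783270463032100813634953710933124487195092238464881121459027810464649991509567568) (nat_lit 4922222592)) .nil .nil)) (.nod (nat_lit 20903383583627356353506187665842384284570474334826248840824438471512377502020495475034) (.dwn (nat_lit 145025035119442867908955604102318938667893535461630102334002971607695250843489006936184) (nat_lit 627255296)) .nil .nil) .dup) .nil l2968 = true := by decide +kernel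
theorem cw12849 : wchk (nat_lit 5) [] [l2968] (nat_lit 0) (nat_lit 3) (nat_lit 2) (nat_lit 0) (nat_lit 5820672) (nat_lit 0) w12849 = true := by decide +kernel
theorem cw12850 : wchk (nat_lit 5) [] [l2968] (nat_lit 0) (nat_lit 3) (nat_lit 2) (nat_lit 0) (nat_lit 5820672) (nat_lit 0) w12850 = true := by decide +kernel
theorem cl2969 : lchk (nat_lit 5) [w12712, w9609, w3511, w933, w37, w11146, w12196, w8278, w12771, w1291, w2888, w12845, w12847, w9025, w12835, w12836, w3896, w12837, w12713, w12714, w10973, w12715, w12716, w12717, w12718, w12719, w8476, w9761, w12720, w12735, w9740, w12767, w12768, w12769, w12770, w12838, w2015, w6714, w3953, w12839, w12841, w5177, w12848, w12849, w12217, w669, w12850] (nat_lit 23282688) .nil .nil (.nod (nat_lit 61468522710853694571515532290147447438106122257) (.nod (nat_lit 5375305114050351154207700598361159032197974747071881356140338379000759635983468812313) .nil (.nod (nat_lit 5375306040387065052737264037145852984794683683918074066926182023627849207590458447905) .nil (.nod (nat_lit 1139897259901540079522374038581267546307215925484249009925514901626789969382768819734576) (.nod (nat_lit 9097052444356886720587132989265683116560098165171957496678632411877539343774411321149504)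 .nil (.nod (nat_lit 5362030593148095988248867200336387632571206722059299387844548773591978996155770624072) (.dwn (nat_lit 20916662620421091774796642827942540413406756040738358366283809079859664104833815894096) (nat_lit 2513183130672)) .nil .nil) (.nod (nat_lit 5362030593148095988248867200336387632571206722059299387844548773591978996155770624072) (.dwn (nat_lit 20916662620421091774796642827942540413406756040738358366283809079859664104833815894096) (nat_lit 2513183130672)) .nil .nil)) (.nod (nat_lit 5362034298494951582367120955475163469691964691373107761368178908916754949138081798248) (.dwn (nat_lit 72754456592137314142084767904506623923185408507600182317229935641261038900806145858242696) (nat_lit 314159875072)) .nil .nil) .dup) (.nod (nat_lit 5391918847222032044612409691712461634286180915572572947138103210778479204692886194328) (.nod (nat_lit 20903391920657781440272258614904629857919121320949770655792526099377392790071348451488) (.dwn (nat_lit 145264082792821380752514405738280716165603299842408775868416199017468487881580193679552) (nat_lit 627262564)) .nil .nil) .nil .nil)) (.nod (nat_lit 5362046340872232263251445659676184826715258648444575471203905277288842904571529685208)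 (.nod (nat_lit 20933279248395003598106237667496009907037386599394922987240295909215121848222996519152) (.dwn (nat_lit 145264091129851805839280476687342961738973680298524840683796361188475265761130411624712) (nat_lit 627262600)) .nil .nil) .nil .nil)) (.nod (nat_lit 20933285732752000887813181738988867575214300393493962724575599945152102319143518914856) (.dwn (nat_lit 145235877692556598324367721507224032535563894291860971877986447664526571399116112693568) (nat_lit 627262464)) .nil .nil) (.nod (nat_lit 20933285732752000887813181738988867575214300393493962724575599945152102319143518914856) (.dwn (nat_lit 145235877692556598324367721507224032535563894291860971877986447664526571399116112693568) (nat_lit 627262464)) .nil .nil)) (.nod (nat_lit 15840609686447633318858217123398859735026788688) (.dwn (nat_lit 20933293143445712076049689249266419195987971910041575893802403623606671668729037908328) (nat_lit 90391736)) .nil .nil) l2969 = true := by decide +kernel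
theorem cw12851 : wchk (nat_lit 5) [] [l2969] (nat_lit 9939) (nat_lit 1) (nat_lit 2) (nat_lit 0) (nat_lit 78539968768) (nat_lit 0) w12851 = true := by decide +kernel
theorem cw12852 : wchk (nat_lit 5) [w162, w16] [] (nat_lit 19) (nat_lit 0) (nat_lit 2) (nat_lit 2) (nat_lit 23282688) (nat_lit 90384388) w12852 = true := by decide +kernel
theorem cw12853 : wchk (nat_lit 5) [w1304] [] (nat_lit 17) (nat_lit 1) (nat_lit 3) (nat_lit 2) (nat_lit 627133440) (nat_lit 169) w12853 = true := by decide +kernel
theorem cw12854 : wchk (nat_lit 5) [w651] [] (nat_lit 17) (nat_lit 1) (nat_lit 3) (nat_lit 2) (nat_lit 626624512) (nat_lit 169) w12854 = true := by decide +kernel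
theorem cl2970 : lchk (nat_lit 5) [w4531, w1501, w3797, w85, w5071, w69, w2015, w12853, w12854, w1170, w1204, w721, w267, w114, w8248, w8249, w78, w105, w6725, w33, w5450, w4260, w573, w5943, w1202, w86, w1206] (nat_lit 39311852544) .nil .nil (.nod (nat_lit 3347398303401012681286739614110854793371695710208) (.nod (nat_lit 143416488585018716492994238200046713070426578507416556298557755731846022275063231326233) (.nod (nat_lit 7801890093814318470885279772209425646706713608000896794097012611104) (.nod (nat_lit 22835994048990747903148889828760377575537334320) .nil .nil (.nod (nat_lit 15845395417656009397447235527250374993517740032) .nil (.nod (nat_lit 20070064044518233737684380835825074803816819614540660787045119730130348289767721926656) (.dwn (nat_lit 144201675552681582282957866441597546393348349259223456879227485384838645663287970388080) (nat_lit 623520828)) .nil .nil) (.nod (nat_lit 20070064044518233737684380835825074803816819614540660787045119730130348289767721926656) (.dwn (nat_lit 144201675552681582282957866441597546393348349259223456879227485384838645663287970388080) (nat_lit 623520828)) .nil .nil))) .nil (.nod (nat_lit 219945627462838646501001459258322139450531450894080198870352349336)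 (.dwn (nat_lit 207281745901545034545195633301299708900822489930836230623298249045523141828048839035072) (nat_lit 892027904)) .nil .nil)) (.nod (nat_lit 151187164038129543547308332256917020483517348466276017110891734904967660919498678511640) .nil (.dwn (nat_lit 1201226022143861533153767925341397039197804576182280289803157804849473877881566363289600) (nat_lit 5186995200)) (.dwn (nat_lit 1201226022143861533153767925341397039197804576182280289803157804849473877881566363289600) (nat_lit 5186995200))) .nil) (.dwn (nat_lit 1146831293161541119165074247783618908584275480031415310057631336725380468288869700634624) (nat_lit 4952114176)) (.dwn (nat_lit 1146831293161541119165074247783618908584275480031415310057631336725380468288869700634624) (nat_lit 4952114176))) .nil l2970 = true := by decide +kernel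
theorem cw12855 : wchk (nat_lit 5) [] [l2970] (nat_lit 17555) (nat_lit 1) (nat_lit 4) (nat_lit 0) (nat_lit 78539968768) (nat_lit 0) w12855 = true := by decide +kernel
theorem cw12856 : wchk (nat_lit 5) [w2753] [] (nat_lit 19) (nat_lit 0) (nat_lit 3) (nat_lit 2) (nat_lit 626094080) (nat_lit 169) w12856 = true := by decide +kernel
theorem cw12857 : wchk (nat_lit 5) [] [] (nat_lit 19) (nat_lit 0) (nat_lit 3) (nat_lit 2) (nat_lit 177) (nat_lit 169) w12857 = true := by decide +kernel
theorem cw12858 : wchk (nat_lit 5) [w12857] [] (nat_lit 147) (nat_lit 1) (nat_lit 1) (nat_lit 2) (nat_lit 4922229760) (nat_lit 25165873) w12858 = true := by decide +kernel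
theorem cl2971 : lchk (nat_lit 5) [w932, w1352, w3688, w3781, w69, w1, w2015, w12853, w1631, w1636, w721, w114, w267, w8073, w33, w12858, w7, w1355, w1588, w572, w2527, w86, w1412] (nat_lit 39314547712) .nil .nil (.nod (nat_lit 3349856963281409617855734918976597600138063511552) (.nod (nat_lit 145131264750574698813429214931871193032929578063202796080326448336874788584158245099545) (.nod (nat_lit 1114366746572727772121100742681061678152567780747792369735140302881) (.nod (nat_lit 290676110250803531522911103077300534813840367202922343768158066736) .nil (.nod (nat_lit 292295954016230476814103511552695812377697937489019775555933259832) .nil (.nod (nat_lit 20694221385312637869606974002263457718733865489784991040149933075970569381000039629194) (.dwn (nat_lit 145038312303563175533187472368249390085061425960371204241152341753955663755840413196376) (nat_lit 626287616)) .nil .nil) .dup) .nil) .nil (.nod (nat_lit 1555323897312785874549695846900429633477457394541003284119827433584) (.dwn (nat_lit 207416202749230692212831515343284017101030308736798770691682555101249183024176890054800) (nat_lit 894723072)) .nil .nil)) (.nod (nat_lit 152901940203685525867639012030832845525709341960989369146823185902804442746113146282152)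 .nil (.opn (nat_lit 1201850180410992651185376470957904747239512551652159275618318805425410510098326908094464)) .dup) .nil) (.dwn (nat_lit 1147667931765096140212355691516871381401289262470439717797432711687483098003389043492872) (nat_lit 4954809344)) (.opn (nat_lit 1147667931765096140212355691516871381401289262470439717797249877645022580536635700856840))) .nil l2971 = true := by decide +kernel
theorem cw12859 : wchk (nat_lit 5) [] [l2971] (nat_lit 1171) (nat_lit 3) (nat_lit 2) (nat_lit 0) (nat_lit 9820492032) (nat_lit 0) w12859 = true := by decide +kernel
theorem cw12860 : wchk (nat_lit 5) [] [l2971] (nat_lit 1171) (nat_lit 3) (nat_lit 2) (nat_lit 0) (nat_lit 9820492032) (nat_lit 0) w12860 = true := by decide +kernel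
theorem cw12861 : wchk (nat_lit 5) [w220, w2015] [] (nat_lit 0) (nat_lit 0) (nat_lit 1) (nat_lit 2) (nat_lit 21655552) (nat_lit 23153668) w12861 = true := by decide +kernel
theorem cw12862 : wchk (nat_lit 5) [] [l2971] (nat_lit 1171) (nat_lit 3) (nat_lit 2) (nat_lit 0) (nat_lit 9820492032) (nat_lit 0) w12862 = true := by decide +kernel
theorem cw12863 : wchk (nat_lit 5) [w12857, w16] [] (nat_lit 147) (nat_lit 1) (nat_lit 1) (nat_lit 2) (nat_lit 4922229760) (nat_lit 22823940) w12863 = true := by decide +kernel
theorem cw12864 : wchk (nat_lit 5) [w12857, w16] [] (nat_lit 147) (nat_lit 1) (nat_lit 1) (nat_lit 2) (nat_lit 4922229760) (nat_lit 22823940) w12864 = true := by decide +kernel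
theorem cw12865 : wchk (nat_lit 5) [w8513] [] (nat_lit 19) (nat_lit 0) (nat_lit 3) (nat_lit 2) (nat_lit 22121472) (nat_lit 169) w12865 = true := by decide +kernel
theorem cw12866 : wchk (nat_lit 5) [w162, w2015] [] (nat_lit 18) (nat_lit 0) (nat_lit 1) (nat_lit 2) (nat_lit 21655552) (nat_lit 23153668) w12866 = true := by decide +kernel
theorem cw12867 : wchk (nat_lit 5) [] [l653] (nat_lit 19) (nat_lit 2) (nat_lit 1) (nat_lit 0) (nat_lit 155609600) (nat_lit 0) w12867 = true := by decide +kernel
theorem cw12868 : wchk (nat_lit 5) [w581, w16] [] (nat_lit 2) (nat_lit 1) (nat_lit 1) (nat_lit 2) (nat_lit 22816768) (nat_lit 22823940) w12868 = true := by decide +kernel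
theorem cl2972 : lchk (nat_lit 5) [w5567, w11850, w12329, w8944, w179, w5071, w12168, w2015, w16, w12855, w12865, w2037, w12203, w12866, w8249, w932, w12856, w12859, w12860, w12861, w128, w12862, w12857, w12863, w7719, w12864, w5072, w178, w10372, w9735, w8231, w12867, w12868] (nat_lit 659763200) .nil .nil (.nod (nat_lit 60853858421319194271195730184393466683297103872) (.nod (nat_lit 5152865731615325047192242926046464041254000413424477116653528692569162195094824509473) (.nod (nat_lit 7801890144031132353978725882895741032368388725247267212570522196008) (.nod (nat_lit 290676160467617414631539165074156946121745434493990727491537557560) .nil (.nod (nat_lit 493153821063297491989318843585060840197761855080277848104802160429128) .nil (.nod (nat_lit 72754456587505630568648379719480500338591406549819251097043434050223588036509288307968056) (.dwn (nat_lit 144900533612421477738595051457980724098356373419086675787187036305666110901792433940576) (nat_lit 39280914432)) .nil .nil) .dup) (.nod (nat_lit 291396420229142623929104757611263668697042862253506805775364413552) (.dwn (nat_lit 72754456593989987569881827121422940603476785475316152361992976948464139085249415093897360)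 (nat_lit 314159875156)) .nil .nil)) .nil (.dwn (nat_lit 61794675041705835758149819388245880328962087063765502455930740492464) (nat_lit 4922229860))) (.nod (nat_lit 5147906935393736981123228492336365246213503362495381636291671452032202911917228384288) .nil (.dwn (nat_lit 1138605804792848302774485609273105450818594497850899132338885337759889968694453850523880) (nat_lit 89337856)) (.dwn (nat_lit 1138605804792848302774485609273105450818594497850899132338885337759889968694453850523880) (nat_lit 89337856))) .nil) (.dwn (nat_lit 20933282027405145294116267189271612898106544717495424990606232967282033393555992955136) (nat_lit 122892288)) (.dwn (nat_lit 20933282027405145294116267189271612898106544717495424990606232967282033393555992955136) (nat_lit 122892288))) .nil l2972 = true := by decide +kernel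
theorem cw12869 : wchk (nat_lit 5) [] [l2972] (nat_lit 13459) (nat_lit 1) (nat_lit 3) (nat_lit 0) (nat_lit 78539968768) (nat_lit 0) w12869 = true := by decide +kernel
theorem cl2973 : lchk (nat_lit 5) [w669, w12329, w2914, w15, w220, w209, w6977, w2912, w4531, w12634, w2828, w7401, w3958, w434, w12869, w8829, w11522, w164, w12279] (nat_lit 22114304) .nil .nil (.nod (nat_lit 22835996430967316352212789560666260982441443410) (.nod (nat_lit 17687964173636889704922703374613682667515538594990275800908624511816117451471842388000) (.nod (nat_lit 7869021587768095931729766891265385441271160409147903058681273180216) (.nod (nat_lit 61780005806467934266858062699610111091373646742801998669657797746688) .nil (.dwn (nat_lit 493139152480878171004914330289218648562094565427139916083375905103872) (nat_lit 39280799744)) (.dwn (nat_lit 493139152480878171004914330289218648562094565427139916083375905103872) (nat_lit 39280799744))) .nil (.dwn (nat_lit 61780005806467934266858062699610111091373646742801998669657797746688) (nat_lit 4921061376))) (.nod (nat_lit 145156167344662343753962657614850277513286251996777774239179108568950499996278157140024) .nil (.dwn (nat_lit 1139639955984204054458186274447526109813456955550425238441787360103531885736836026523648)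 (nat_lit 4921061376)) (.dwn (nat_lit 1139639955984204054458186274447526109813456955550425238441787360103531885736836026523648) (nat_lit 4921061376))) .nil) (.nod (nat_lit 20933260721660725627514968891802130855102412633468610279804325395121964904954609229856) (.dwn (nat_lit 145113011169835239058661801433241763462424504921101957430650508582976362356563614812256) (nat_lit 626094080)) .nil .nil) (.nod (nat_lit 20933260721660725627514968891802130855102412633468610279804325395121964904954609229856) (.dwn (nat_lit 145113011169835239058661801433241763462424504921101957430650508582976362356563614812256) (nat_lit 626094080)) .nil .nil)) (.nod (nat_lit 15181964581553335563173813396260565260408670320) .nil (.nod (nat_lit 18144474948623365754663092013269612957190417178963195005102440686517811050225237754258) (.dwn (nat_lit 145250797271670648041514846779956219995959489618016010217264244440711294270761448202376) (nat_lit 626094080)) .nil .nil) (.nod (nat_lit 18144474948623365754663092013269612957190417178963195005102440686517811050225237754258) (.dwn (nat_lit 145250797271670648041514846779956219995959489618016010217264244440711294270761448202376) (nat_lit 626094080)) .nil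 .nil)) l2973 = true := by decide +kernel
theorem cw12870 : wchk (nat_lit 5) [] [l2973] (nat_lit 273) (nat_lit 1) (nat_lit 3) (nat_lit 0) (nat_lit 22597888) (nat_lit 0) w12870 = true := by decide +kernel
theorem cw12871 : wchk (nat_lit 5) [w1066, w16] [] (nat_lit 19) (nat_lit 0) (nat_lit 2) (nat_lit 2) (nat_lit 23211008) (nat_lit 90384388) w12871 = true := by decide +kernel
theorem cw12872 : wchk (nat_lit 5) [] [l1170] (nat_lit 1) (nat_lit 1) (nat_lit 1) (nat_lit 0) (nat_lit 22583552) (nat_lit 0) w12872 = true := by decide +kernel
theorem cw12873 : wchk (nat_lit 5) [] [l1688] (nat_lit 1) (nat_lit 1) (nat_lit 3) (nat_lit 0) (nat_lit 21391872) (nat_lit 0) w12873 = true := by decide +kernel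
theorem cw12874 : wchk (nat_lit 5) [w16] [] (nat_lit 1) (nat_lit 1) (nat_lit 4) (nat_lit 2) (nat_lit 165) (nat_lit 85796864) w12874 = true := by decide +kernel
theorem cw12875 : wchk (nat_lit 5) [w257, w16] [] (nat_lit 1) (nat_lit 1) (nat_lit 3) (nat_lit 2) (nat_lit 88764416) (nat_lit 89925636) w12875 = true := by decide +kernel
theorem cw12876 : wchk (nat_lit 5) [w748, w16] [] (nat_lit 1) (nat_lit 1) (nat_lit 3) (nat_lit 2) (nat_lit 89402368) (nat_lit 89925636) w12876 = true := by decide +kernel
theorem cw12877 : wchk (nat_lit 5) [w1326, w16] [] (nat_lit 1) (nat_lit 1) (nat_lit 3) (nat_lit 2) (nat_lit 22228992) (nat_lit 89925636) w12877 = true := by decide +kernel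
theorem cw12878 : wchk (nat_lit 5) [] [l188] (nat_lit 2) (nat_lit 3) (nat_lit 0) (nat_lit 0) (nat_lit 22596096) (nat_lit 0) w12878 = true := by decide +kernel
theorem cw12879 : wchk (nat_lit 5) [] [l1688] (nat_lit 2) (nat_lit 1) (nat_lit 4) (nat_lit 0) (nat_lit 22481408) (nat_lit 0) w12879 = true := by decide +kernel
theorem cl2974 : lchk (nat_lit 5) [w5159, w1, w5, w11, w1748, w137, w27, w5510, w861, w1944] (nat_lit 4954730496) .nil .nil (.nod (nat_lit 618970665278732717317423131) (.nod (nat_lit 820898576470892830209296393) (.nod (nat_lit 7874690714537800000141540601468218905925746925396833572999326073178) .nil .nil (.dwn (nat_lit 1133174292948819375825916992487717836561765694425484152741169418272) (nat_lit 4920609812))) (.nod (nat_lit 7874690915405055532515325044213480448571072240672207795848430485850) .nil (.dwn (nat_lit 1139641622463952357851383010690376986442769937210373255978822497861500353434210526206024) (nat_lit 4920609812)) (.dwn (nat_lit 1139641622463952357851383010690376986442769937210373255978822497861500353434210526206024) (nat_lit 4920609812))) .nil) .nil .nil) .nil l2974 = true := by decide +kernel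
theorem cw12880 : wchk (nat_lit 5) [] [l2974] (nat_lit 19) (nat_lit 3) (nat_lit 0) (nat_lit 0) (nat_lit 156815616) (nat_lit 0) w12880 = true := by decide +kernel
theorem cw12881 : wchk (nat_lit 5) [] [l2359] (nat_lit 19) (nat_lit 3) (nat_lit 0) (nat_lit 0) (nat_lit 22209024) (nat_lit 0) w12881 = true := by decide +kernel
theorem cw12882 : wchk (nat_lit 5) [] [l2338] (nat_lit 19) (nat_lit 3) (nat_lit 0) (nat_lit 0) (nat_lit 22209024) (nat_lit 0) w12882 = true := by decide +kernel
theorem cw12883 : wchk (nat_lit 5) [w1326] [] (nat_lit 0) (nat_lit 1) (nat_lit 3) (nat_lit 2) (nat_lit 16777297) (nat_lit 22228992) w12883 = true := by decide +kernel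
theorem cw12884 : wchk (nat_lit 5) [w368] [] (nat_lit 2) (nat_lit 0) (nat_lit 3) (nat_lit 2) (nat_lit 22644736) (nat_lit 16777297) w12884 = true := by decide +kernel
theorem cw12885 : wchk (nat_lit 5) [] [l1253] (nat_lit 1) (nat_lit 2) (nat_lit 3) (nat_lit 0) (nat_lit 18146560) (nat_lit 0) w12885 = true := by decide +kernel
theorem cw12886 : wchk (nat_lit 5) [] [] (nat_lit 1) (nat_lit 1) (nat_lit 4) (nat_lit 2) (nat_lit 165) (nat_lit 16777293) w12886 = true := by decide +kernel
theorem cw12887 : wchk (nat_lit 5) [] [l1964] (nat_lit 1) (nat_lit 3) (nat_lit 3) (nat_lit 0) (nat_lit 22350592) (nat_lit 0) w12887 = true := by decide +kernel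
theorem cw12888 : wchk (nat_lit 5) [] [l860] (nat_lit 2) (nat_lit 3) (nat_lit 0) (nat_lit 0) (nat_lit 22209024) (nat_lit 0) w12888 = true := by decide +kernel
theorem cw12889 : wchk (nat_lit 5) [w2690] [] (nat_lit 2) (nat_lit 0) (nat_lit 3) (nat_lit 2) (nat_lit 89402368) (nat_lit 16777297) w12889 = true := by decide +kernel
theorem cw12890 : wchk (nat_lit 5) [] [l1260] (nat_lit 2) (nat_lit 2) (nat_lit 0) (nat_lit 0) (nat_lit 22434816) (nat_lit 0) w12890 = true := by decide +kernel
theorem cw12891 : wchk (nat_lit 5) [] [l2904] (nat_lit 2) (nat_lit 0) (nat_lit 3) (nat_lit 0) (nat_lit 5428224) (nat_lit 0) w12891 = true := by decide +kernel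
theorem cw12892 : wchk (nat_lit 5) [] [l188] (nat_lit 34) (nat_lit 0) (nat_lit 0) (nat_lit 1) (nat_lit 22596096) (nat_lit 0) w12892 = true := by decide +kernel
theorem cl2975 : lchk (nat_lit 5) [w12878, w12879, w12880, w12881, w12882, w1, w69, w12883, w901, w3019, w3582, w12885, w12886, w853, w4036, w6204, w12887, w12888, w12889, w379, w12884, w10099, w12890, w12891, w12892] (nat_lit 23282688) (.nod (nat_lit 858979721342009575506085896) .nil .nil (.nod (nat_lit 15845381806361332559668686884738388663195402266) (.dwn (nat_lit 20933256089977156134867241736625953478668534695181365080967243939969998558102326503472) (nat_lit 627262492)) .nil .nil)) (.nod (nat_lit 20931600842061508698718867652681007963847150361935739958875132387117934440467371393178) (.nod (nat_lit 1115986784928308514399396830065929075154931859927052621200867119184) .nil .nil (.dwn (nat_lit 291576246639657981544445155280588514177952287167834795276747835488) (nat_lit 627262464))) (.nod (nat_lit 20931605357952988955184563902587980427083684348274040048572054995784859506848620243064) .nil (.dwn (nat_lit 5362037077505093285539196207486961660646016882664945927046964332766968294162092689552) (nat_lit 627262492))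 (.dwn (nat_lit 5362037077505093285539196207486961660646016882664945927046964332766968294162092689552) (nat_lit 627262492))) (.nod (nat_lit 20662691662581673618857914693501006644545165436371025808551683264221796037910464745640) .nil (.dwn (nat_lit 145264082792821380744639714019406638503592837027214249249263825522224930596428526815424) (nat_lit 627262464)) .dup)) .nil .nil l2975 = true := by decide +kernel
theorem cw12893 : wchk (nat_lit 5) [] [l2975] (nat_lit 3) (nat_lit 3) (nat_lit 2) (nat_lit 0) (nat_lit 5820672) (nat_lit 0) w12893 = true := by decide +kernel
theorem cw12894 : wchk (nat_lit 5) [w648, w16] [] (nat_lit 1) (nat_lit 1) (nat_lit 3) (nat_lit 2) (nat_lit 122447872) (nat_lit 89925636) w12894 = true := by decide +kernel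
theorem cw12895 : wchk (nat_lit 5) [w2690, w16] [] (nat_lit 1) (nat_lit 1) (nat_lit 3) (nat_lit 2) (nat_lit 122956800) (nat_lit 89925636) w12895 = true := by decide +kernel
theorem cw12896 : wchk (nat_lit 5) [w1616, w16] [] (nat_lit 1) (nat_lit 1) (nat_lit 2) (nat_lit 2) (nat_lit 89230336) (nat_lit 90384388) w12896 = true := by decide +kernel
theorem cw12897 : wchk (nat_lit 5) [w2433, w16] [] (nat_lit 1) (nat_lit 1) (nat_lit 2) (nat_lit 2) (nat_lit 90391552) (nat_lit 90384388) w12897 = true := by decide +kernel
theorem cl2976 : lchk (nat_lit 5) [w12872, w2254, w6754, w901, w581, w16, w11772, w7311, w7570, w12893, w5279, w2015, w6714, w12887, w12894, w12895, w12877, w5721, w12820, w3766, w12896, w12543, w12897, w12873, w12874, w12875, w2405, w12876, w12634] (nat_lit 23282688) (.nod (nat_lit 7855973056258559133705262480166103081501028361311641035092149307409) (.nod (nat_lit 20931596094585849969877231005778835451972161933971868320169842839750844428771223293993) (.nod (nat_lit 15806366391299645461681919564106679845109585976) .nil .nil (.dwn (nat_lit 3349895986522965744157788550767366896832299304960) (nat_lit 4922229760))) (.dwn (nat_lit 144993490575324481275434323010432080388522155157040075512836873748102436890495262806056)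 (nat_lit 627262464)) (.dwn (nat_lit 144993490575324481275434323010432080388522155157040075512836873748102436890495262806056) (nat_lit 627262464))) (.nod (nat_lit 20903382657290642454975994357561154690795948254338089377119651924372036175679536666720) .nil (.dwn (nat_lit 5362034298494951582368020890996762360605792078902096667706703609339026724081341204600) (nat_lit 627262528)) (.dwn (nat_lit 5362034298494951582368020890996762360605792078902096667706703609339026724081341204600) (nat_lit 627262528))) (.nod (nat_lit 20785529468864902030140619125805503194215491187619083398896780893725760355366375549080) .nil (.dwn (nat_lit 5391920699895459841379329950977517085921254513858824502031827686144040017853496592560) (nat_lit 627262528)) .dup)) .nil .nil (.nod (nat_lit 291576849241424578665798483516373142113928234764844894900178028736) (.dwn (nat_lit 20933276469384861902497209993470600151413446821857472615911523657801305320754032044256) (nat_lit 90391616)) .nil .nil) l2976 = true := by decide +kernel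
theorem cw12898 : wchk (nat_lit 5) [] [l2976] (nat_lit 147) (nat_lit 1) (nat_lit 2) (nat_lit 0) (nat_lit 5820672) (nat_lit 0) w12898 = true := by decide +kernel
theorem cw12899 : wchk (nat_lit 5) [w1139, w16] [] (nat_lit 19) (nat_lit 0) (nat_lit 3) (nat_lit 2) (nat_lit 22307840) (nat_lit 89925636) w12899 = true := by decide +kernel
theorem cw12900 : wchk (nat_lit 5) [] [l2227] (nat_lit 1) (nat_lit 1) (nat_lit 0) (nat_lit 0) (nat_lit 22454528) (nat_lit 0) w12900 = true := by decide +kernel
theorem cw12901 : wchk (nat_lit 5) [] [l668] (nat_lit 1) (nat_lit 2) (nat_lit 2) (nat_lit 0) (nat_lit 18148352) (nat_lit 0) w12901 = true := by decide +kernel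
theorem cw12902 : wchk (nat_lit 5) [w257, w16] [] (nat_lit 1) (nat_lit 1) (nat_lit 4) (nat_lit 2) (nat_lit 77173760) (nat_lit 85796868) w12902 = true := by decide +kernel
theorem cw12903 : wchk (nat_lit 5) [w748, w16] [] (nat_lit 1) (nat_lit 1) (nat_lit 4) (nat_lit 2) (nat_lit 76378112) (nat_lit 85796868) w12903 = true := by decide +kernel
theorem cw12904 : wchk (nat_lit 5) [w1326, w16] [] (nat_lit 1) (nat_lit 1) (nat_lit 4) (nat_lit 2) (nat_lit 9204736) (nat_lit 85796868) w12904 = true := by decide +kernel
theorem cw12905 : wchk (nat_lit 5) [] [l2224] (nat_lit 0) (nat_lit 1) (nat_lit 4) (nat_lit 0) (nat_lit 4623616) (nat_lit 0) w12905 = true := by decide +kernel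
theorem cw12906 : wchk (nat_lit 5) [] [l2227] (nat_lit 17) (nat_lit 0) (nat_lit 0) (nat_lit 1) (nat_lit 22454528) (nat_lit 0) w12906 = true := by decide +kernel
theorem cl2977 : lchk (nat_lit 5) [w731, w4, w1748, w5606] (nat_lit 22816768) (.nod (nat_lit 5285663510246390448067912918729369583825033720888985256046039099340721600141371376019) (.nod (nat_lit 11418037007673487161435832285656972469280440706) (.nod (nat_lit 11417993111248154360374045510332613771214717074) .nil .nil (.dwn (nat_lit 11417993111248154361230909759064250335302254610) (nat_lit 4921763840))) .nil .nil) .nil (.nod (nat_lit 40990399590009933179944128693075519380265146815458532132680643249334626551857170) .nil (.dwn (nat_lit 1201943142931915938119715370195866360085770102288143897660415478564718561425887526717464) (nat_lit 5190091788)) (.opn (nat_lit 1201943142931915938119715370195866360085770102288143897660415478564718561425887526717464)))) .nil .nil .nil l2977 = true := by decide +kernel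
theorem cw12907 : wchk (nat_lit 5) [] [l2977] (nat_lit 17) (nat_lit 3) (nat_lit 3) (nat_lit 0) (nat_lit 156815616) (nat_lit 0) w12907 = true := by decide +kernel
theorem cl2978 : lchk (nat_lit 5) [w8638, w1, w368, w83, w220, w12907, w871, w1540, w257, w748, w1326, w5576, w6204, w5415, w8633, w8265] (nat_lit 122318848) (.nod (nat_lit 14820938601544896691836691341675718623904137858) (.nod (nat_lit 608473045148758236121894770976884167850486718464) .nil .nil (.dwn (nat_lit 4810290252475104126185269632264707819955079667712) (nat_lit 7068086272))) .nil (.dwn (nat_lit 11224346539609860427969239238881130451032101083934139761346456379392) (nat_lit 894070784))) .nil (.nod (nat_lit 5028365961475273436284035657926039487861057352412928656113701782932178111728034930720) .nil .nil (.nod (nat_lit 3885341721382492210881864068643130819300891979463822715337837440886997503588217913474) (.dwn (nat_lit 20827019163943703271882554931920908359450506560725782701086820587520967365120520398896) (nat_lit 625764392)) .nil .nil)) (.nod (nat_lit 100275949279515825236812473017523744046338113412195595077255868628987877234049154) .nil (.dwn (nat_lit 5044974252418760187236163295380579920518026814198880924042423266607850037433193777272)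 (nat_lit 88893480)) (.dwn (nat_lit 5044974252418760187236163295380579920518026814198880924042423266607850037433193777272) (nat_lit 88893480))) l2978 = true := by decide +kernel
theorem cw12908 : wchk (nat_lit 5) [] [l2978] (nat_lit 19) (nat_lit 1) (nat_lit 1) (nat_lit 0) (nat_lit 5820672) (nat_lit 0) w12908 = true := by decide +kernel
theorem cw12909 : wchk (nat_lit 5) [] [l2227] (nat_lit 17) (nat_lit 0) (nat_lit 0) (nat_lit 1) (nat_lit 22454528) (nat_lit 0) w12909 = true := by decide +kernel
theorem cw12910 : wchk (nat_lit 5) [w5580, w16] [] (nat_lit 1) (nat_lit 1) (nat_lit 2) (nat_lit 2) (nat_lit 90334208) (nat_lit 90384388) w12910 = true := by decide +kernel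
theorem cw12911 : wchk (nat_lit 5) [w1616, w16] [] (nat_lit 1) (nat_lit 1) (nat_lit 3) (nat_lit 2) (nat_lit 88821760) (nat_lit 89925636) w12911 = true := by decide +kernel
theorem cw12912 : wchk (nat_lit 5) [w5580, w16] [] (nat_lit 1) (nat_lit 1) (nat_lit 2) (nat_lit 2) (nat_lit 77947904) (nat_lit 90384388) w12912 = true := by decide +kernel
theorem cw12913 : wchk (nat_lit 5) [w2685, w16] [] (nat_lit 1) (nat_lit 1) (nat_lit 3) (nat_lit 2) (nat_lit 89402368) (nat_lit 89925636) w12913 = true := by decide +kernel
theorem cw12914 : wchk (nat_lit 5) [] [l1458] (nat_lit 1) (nat_lit 1) (nat_lit 0) (nat_lit 0) (nat_lit 22305792) (nat_lit 0) w12914 = true := by decide +kernel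
theorem cw12915 : wchk (nat_lit 5) [w140, w16] [] (nat_lit 1) (nat_lit 1) (nat_lit 2) (nat_lit 2) (nat_lit 156926976) (nat_lit 90384388) w12915 = true := by decide +kernel
theorem cw12916 : wchk (nat_lit 5) [w5415, w16] [] (nat_lit 1) (nat_lit 1) (nat_lit 2) (nat_lit 2) (nat_lit 72586240) (nat_lit 90384388) w12916 = true := by decide +kernel
theorem cl2979 : lchk (nat_lit 5) [w12900, w12261, w8112, w6754, w581, w1326, w16, w12906, w7559, w7311, w12908, w12909, w3766, w5721, w10361, w12910, w12911, w12543, w12912, w12904, w12913, w12914, w2015, w6714, w12905, w12915, w12895, w1449, w12916, w12874, w12901, w2405, w12634, w12902, w12903] (nat_lit 23282688) (.nod (nat_lit 5284003514855084283375147266267832043910883924540525216422153945398439177876176261145) (.nod (nat_lit 20556438062487370582622044042665989900231479669754151218772661102876995551891463661608) (.nod (nat_lit 426892730916972455164459129238341987292526567496) .nil .nil (.dwn (nat_lit 3349895986522965744157788550767366896832299304960) (nat_lit 4922229760))) (.dwn (nat_lit 28703938143237069714992020102200546722104714346873734103350385104281731651642314084400) (nat_lit 627262464)) .dup) (.nod (nat_lit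 1133264733430622827183879676459527750236726771733766699432271865952) (.nod (nat_lit 292296355750741541577517816961205325373309903680840398314502785168) .nil (.opn (nat_lit 61794674891055394108869481045297898430688844597240035742285755222168)) .dup) .nil (.dwn (nat_lit 292296355750741541577517827850241066843396005676439152817372301456) (nat_lit 627262540))) (.nod (nat_lit 20707514317157081769975492533042854764216144924308996024054683978026417835176381536440) .nil (.dwn (nat_lit 5391925331579029341896079547607626406674317431384711782053145661303549732085658192096) (nat_lit 627262540)) (.dwn (nat_lit 5391925331579029341896079547607626406674317431384711782053145661303549732085658192096) (nat_lit 627262540)))) .nil .nil (.nod (nat_lit 5285689331882290369865940179364059701495430204731078158945626250988164000074800204016) (.dwn (nat_lit 20785542437578896610670494505670851992809828170542432926514812937678411551458096376064) (nat_lit 90391628)) .nil .nil) l2979 = true := by decide +kernel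
theorem cw12917 : wchk (nat_lit 5) [] [l2979] (nat_lit 211) (nat_lit 2) (nat_lit 3) (nat_lit 0) (nat_lit 5820672) (nat_lit 0) w12917 = true := by decide +kernel
theorem cw12918 : wchk (nat_lit 5) [w3766, w16] [] (nat_lit 1) (nat_lit 1) (nat_lit 3) (nat_lit 2) (nat_lit 89796608) (nat_lit 89925636) w12918 = true := by decide +kernel
theorem cw12919 : wchk (nat_lit 5) [] [l860] (nat_lit 34) (nat_lit 0) (nat_lit 1) (nat_lit 1) (nat_lit 22339840) (nat_lit 0) w12919 = true := by decide +kernel
theorem cl2980 : lchk (nat_lit 5) [w1448, w200, w42, w168, w390, w2304, w3831, w8633, w3763, w830, w10234, w12888, w11875, w12919] (nat_lit 23153664) (.nod (nat_lit 798948998611770645545281544) .nil .nil (.dwn (nat_lit 61429493344214963689898625602429961195722113050) (nat_lit 90262528))) (.nod (nat_lit 1128944788076617565713925201410149933957306626812196195650987098266) (.nod (nat_lit 1114366690078812153640973868158956869283088996521161639355395663904) .nil .nil (.dwn (nat_lit 273488049845339956068483723106042531310589049735336404583433168904) (nat_lit 627262484))) (.nod (nat_lit 20933258868987297830455212144736207308753706268850857696197222056149749443337986426936) .nil (.dwn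 (nat_lit 145025030487759298416314356071120399656730177015629500736117822567265668722005406844992) (nat_lit 627133440)) .dup) (.nod (nat_lit 20919981684866990206223163801311171118548111808597622717754613923595181428151272785976) (.opn (nat_lit 145262412607726221703710805751450505489187089993169675512680432324086173584858624198760)) .dup .dup)) .nil .nil l2980 = true := by decide +kernel
theorem cw12920 : wchk (nat_lit 5) [] [l2980] (nat_lit 3) (nat_lit 3) (nat_lit 2) (nat_lit 0) (nat_lit 5820672) (nat_lit 0) w12920 = true := by decide +kernel
theorem cw12921 : wchk (nat_lit 5) [] [l843] (nat_lit 19) (nat_lit 3) (nat_lit 1) (nat_lit 0) (nat_lit 30984704) (nat_lit 0) w12921 = true := by decide +kernel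
theorem cw12922 : wchk (nat_lit 5) [w39, w16] [] (nat_lit 1) (nat_lit 1) (nat_lit 3) (nat_lit 2) (nat_lit 123816960) (nat_lit 89925636) w12922 = true := by decide +kernel
theorem cw12923 : wchk (nat_lit 5) [w461, w16] [] (nat_lit 1) (nat_lit 1) (nat_lit 3) (nat_lit 2) (nat_lit 122784768) (nat_lit 89925636) w12923 = true := by decide +kernel
theorem cw12924 : wchk (nat_lit 5) [w1325, w16] [] (nat_lit 1) (nat_lit 1) (nat_lit 3) (nat_lit 2) (nat_lit 22114304) (nat_lit 89925636) w12924 = true := by decide +kernel
theorem cw12925 : wchk (nat_lit 5) [w1326, w16] [] (nat_lit 1) (nat_lit 1) (nat_lit 3) (nat_lit 2) (nat_lit 22228992) (nat_lit 89925636) w12925 = true := by decide +kernel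
theorem cw12926 : wchk (nat_lit 5) [w1554, w16] [] (nat_lit 1) (nat_lit 1) (nat_lit 3) (nat_lit 2) (nat_lit 89337856) (nat_lit 89925636) w12926 = true := by decide +kernel
theorem cw12927 : wchk (nat_lit 5) [w581, w16] [] (nat_lit 1) (nat_lit 1) (nat_lit 3) (nat_lit 2) (nat_lit 90319872) (nat_lit 89925636) w12927 = true := by decide +kernel
theorem cl2981 : lchk (nat_lit 5) [w37, w1336, w6935, w1063, w42, w16, w3156, w12872, w12920, w12921, w6440, w1408, w12922, w12923, w7996, w1310, w1291, w12820, w12924, w11995, w12925, w12926, w12927, w6542, w12874, w12918] (nat_lit 23211008) (.nod (nat_lit 7873250854110431797147889656582955261802709228415219454938979164177) (.nod (nat_lit 20919976126846706815040653973016174355289686125504192631006461197807630958230546704416) (.nod (nat_lit 426843945314591734058848617034231728067557410872) .nil .nil (.dwn (nat_lit 3349847203642843958419663796858415071540185159680) (nat_lit 4922158080))) (.dwn (nat_lit 28703936290563641911614155724517727615036214809438863807277484383435182926305206882344) (nat_lit 627190784)) (.dwn (nat_lit 28703936290563641911614155724517727615036214809438863807277484383435182926305206882344) (nat_lit 627190784)))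 (.nod (nat_lit 20903382657290642454976803953034577923334144739114737009103354710221528712676903667752) .nil (.nod (nat_lit 5285672657821440196339647585937485162451088194202046582335811779565325220047528298600) (.dwn (nat_lit 1139910548201700953867459099674951234658409320357323947450290493415731205407656053987448) (nat_lit 4922158080)) .nil .nil) (.nod (nat_lit 5285672657821440196339647585937485162451088194202046582335811779565325220047528298600) (.dwn (nat_lit 1139910548201700953867459099674951234658409320357323947450290493415731205407656053987448) (nat_lit 4922158080)) .nil .nil)) (.nod (nat_lit 20919976126846706815040653973016174355289691036119029667069427437766590806077606225952) (.opn (nat_lit 145264079087474525158396241419287466144643904285566464110879044565458409225320242038840)) (.dwn (nat_lit 145264079087474525158396242072106046624858786660829289030966212924846622729246625663152) (nat_lit 627190784)) (.dwn (nat_lit 145264079087474525158396242072106046624858786660829289030966212924846622729246625663152) (nat_lit 627190784)))) .nil .nil (.dwn (nat_lit 292206768954774102853810932656570877854116938338407749691616168128) (nat_lit 23282788)) l2981 = true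 := by decide +kernel
theorem cw12928 : wchk (nat_lit 5) [] [l2981] (nat_lit 147) (nat_lit 1) (nat_lit 2) (nat_lit 0) (nat_lit 5820672) (nat_lit 0) w12928 = true := by decide +kernel
theorem cw12929 : wchk (nat_lit 5) [] [l2591] (nat_lit 17) (nat_lit 3) (nat_lit 0) (nat_lit 0) (nat_lit 5820672) (nat_lit 0) w12929 = true := by decide +kernel
theorem cw12930 : wchk (nat_lit 5) [w126, w284] [] (nat_lit 1) (nat_lit 1) (nat_lit 1) (nat_lit 2) (nat_lit 88886272) (nat_lit 23153668) w12930 = true := by decide +kernel
theorem cw12931 : wchk (nat_lit 5) [] [l2277] (nat_lit 17) (nat_lit 3) (nat_lit 0) (nat_lit 0) (nat_lit 5705984) (nat_lit 0) w12931 = true := by decide +kernel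
theorem cw12934 : wchk (nat_lit 5) [] [l621] (nat_lit 17) (nat_lit 1) (nat_lit 1) (nat_lit 0) (nat_lit 22597888) (nat_lit 0) w12934 = true := by decide +kernel
theorem cw12939 : wchk (nat_lit 5) [] [l258] (nat_lit 0) (nat_lit 0) (nat_lit 1) (nat_lit 1) (nat_lit 5806336) (nat_lit 0) w12939 = true := by decide +kernel
theorem cl2984 : lchk (nat_lit 5) [w7557, w5868, w12939, w261, w1063, w128, w1139, w11220, w7559] (nat_lit 593586176) (.nod (nat_lit 291395773687663879101649494645525570040774611994685666240877975561) (.nod (nat_lit 290675965877463617645059895800925575741080240569394991695288031257) (.nod (nat_lit 5043307772670456718433069253387149141567657913083194500368613066217598987936102795312) .nil (.dwn (nat_lit 145250788934640222947147393289574185137365986232462811305379514366839115934039983968320) (nat_lit 90269696)) (.dwn (nat_lit 145250788934640222947147393289574185137365986232462811305379514366839115934039983968320) (nat_lit 90269696))) .dup .dup) .nil (.dwn (nat_lit 291395767410562143714968730469453779912169732410508870271365699592) (nat_lit 123824128))) .nil (.nod (nat_lit 7873250797616516178667762782060850452934361771934582887134148087808) .nil (.dwn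 (nat_lit 1139882315311334754544927890564574315595609520493516546763631791178230684416748365729792) (nat_lit 4922107904)) (.dwn (nat_lit 1139882315311334754544927890564574315595609520493516546763631791178230684416748365729792) (nat_lit 4922107904))) (.nod (nat_lit 7873250797616516179094572563025803324748374846007623756429324898304) (.opn (nat_lit 1139882315311334754544927890564574315598959333549143305471853173917736291325355407626240)) .dup .dup) l2984 = true := by decide +kernel
theorem cw12942 : wchk (nat_lit 5) [] [l2984] (nat_lit 273) (nat_lit 1) (nat_lit 2) (nat_lit 0) (nat_lit 1230557440) (nat_lit 0) w12942 = true := by decide +kernel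
theorem cw12943 : wchk (nat_lit 5) [] [l2472] (nat_lit 1) (nat_lit 1) (nat_lit 3) (nat_lit 0) (nat_lit 22565632) (nat_lit 0) w12943 = true := by decide +kernel
theorem cw12944 : wchk (nat_lit 5) [w16, w2520] [] (nat_lit 4) (nat_lit 0) (nat_lit 2) (nat_lit 2) (nat_lit 23225344) (nat_lit 23275524) w12944 = true := by decide +kernel
theorem cw12945 : wchk (nat_lit 5) [w1184, w284] [] (nat_lit 0) (nat_lit 0) (nat_lit 1) (nat_lit 2) (nat_lit 23225344) (nat_lit 23153668) w12945 = true := by decide +kernel
theorem cl2985 : lchk (nat_lit 5) [w1139, w545, w864, w1325, w1326, w7076, w8398, w2844, w6968, w5585, w15, w241, w16, w170, w7109] (nat_lit 22307840) (.nod (nat_lit 5016744141062702484661100039845944063690542926400487392826491752593409442302989371408) .nil (.nod (nat_lit 20689236767455149883141464143211732394361057294704682786993552989851160403207158980640) (.dwn (nat_lit 5362027814137954300241942026091409072541674100237887087742546356926901557287952013368) (nat_lit 626287616)) .nil .nil) (.nod (nat_lit 20689236767455149883141464143211732394361057294704682786993552989851160403207158980640) (.dwn (nat_lit 5362027814137954300241942026091409072541674100237887087742546356926901557287952013368)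 (nat_lit 626287616)) .nil .nil)) (.nod (nat_lit 272588616491879869369938134067391711310357503421946960527337414736) (.nod (nat_lit 292296211377401627682840678376726463567724312780471581635565275233) .nil (.nod (nat_lit 7862542162489574267471551146677488945351122341333772512363993942016) .nil (.dwn (nat_lit 1139684775859769320912583696606158312252622155916613357104046261740633718369422555006976) (nat_lit 4921254912)) .dup) (.dwn (nat_lit 7862542162489574267897780411368992566881482313740528503998718199808) (nat_lit 626287616))) .nil (.nod (nat_lit 284827257504211871682333096108366087905376454600916456180972937328) .nil .nil (.dwn (nat_lit 7862542162489574267897780411368992566858376379002757137282691024896) (nat_lit 626287616)))) .dup .nil l2985 = true := by decide +kernel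
theorem cw12946 : wchk (nat_lit 5) [] [l2985] (nat_lit 17) (nat_lit 3) (nat_lit 3) (nat_lit 0) (nat_lit 5820672) (nat_lit 0) w12946 = true := by decide +kernel
theorem cl2986 : lchk (nat_lit 5) [w1139, w256, w7109, w354, w15, w2448, w864, w1325, w7076, w1326, w8398, w5585, w6968, w2844, w1064, w870, w1099] (nat_lit 593650688) (.nod (nat_lit 14825817229839442186570176347871566449920856081) (.nod (nat_lit 15128276190830017576964009989209190088660439073) (.nod (nat_lit 5390246809453445198458286808818231493510199317769007147846772130218296503442920081456) .nil (.nod (nat_lit 20931599799932705563144977448356566961180839882627048307148481555625564166830819856456) (.dwn (nat_lit 5122992183136722137587802502218794739516970400651216136078330344055620579832965060712) (nat_lit 627205120)) .nil .nil) (.nod (nat_lit 20931599799932705563144977448356566961180839882627048307148481555625564166830819856456) (.dwn (nat_lit 5122992183136722137587802502218794739516970400651216136078330344055620579832965060712) (nat_lit 627205120)) .nil .nil)) .dup .nil) (.nod (nat_lit 290766500515793099787427681807312933740790151357044162471019317376) .nil (.nod (nat_lit 11244054027784652684100012816832844233100581915448011383362008958976)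 .nil (.dwn (nat_lit 1637220491679643152212069226098089862970454419833279934431898441202145629125512033257472) (nat_lit 7069656064)) .dup) (.dwn (nat_lit 11244054027784652684709554207056269576854365492055936906575892236288) (nat_lit 895640576))) .nil) .nil (.nod (nat_lit 426853685557062479001462757179110722091065067520) .nil (.opn (nat_lit 1139897255269856509967933077255426280779580444804136802886966599959145670312448590399488)) .dup) .nil l2986 = true := by decide +kernel
theorem cw12947 : wchk (nat_lit 5) [] [l2986] (nat_lit 17) (nat_lit 3) (nat_lit 1) (nat_lit 0) (nat_lit 156815616) (nat_lit 0) w12947 = true := by decide +kernel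
theorem cw12948 : wchk (nat_lit 5) [w5251, w284] [] (nat_lit 1) (nat_lit 1) (nat_lit 1) (nat_lit 2) (nat_lit 23153664) (nat_lit 23153668) w12948 = true := by decide +kernel
theorem cw12949 : wchk (nat_lit 5) [w8053, w284] [] (nat_lit 1) (nat_lit 1) (nat_lit 1) (nat_lit 2) (nat_lit 23153664) (nat_lit 23153668) w12949 = true := by decide +kernel
theorem cw12950 : wchk (nat_lit 5) [w7848, w284] [] (nat_lit 17) (nat_lit 1) (nat_lit 1) (nat_lit 2) (nat_lit 23153664) (nat_lit 23153668) w12950 = true := by decide +kernel

end Pool.Agent.W319.GCI.K5
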