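import Pool.Agent.W319.GCI.K5D0
import Pool.Agent.W319.GCI.K5D1
import Pool.Agent.W319.GCI.K5D2
import Pool.Agent.W319.GCI.K5D3
import Pool.Agent.W319.GCI.K5D4
import Pool.Agent.W319.GCI.K5D5
import Pool.Agent.W319.GCI.K5D6
import Pool.Agent.W319.GCI.K5D7
import Pool.Agent.W319.GCI.K5D8
import Pool.Agent.W319.GCI.K5D9
import Pool.Agent.W319.GCI.K5D10
import Pool.Agent.W319.GCI.K5D11
import Pool.Agent.W319.GCI.K5D12
import Pool.Agent.W319.GCI.K5D13
import Pool.Agent.W319.GCI.K5D14
import Pool.Agent.W319.GCI.K5D15
set_option autoImplicit false
set_option maxRecDepth 100000
set_option linter.all false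
namespace Pool.Agent.W319.GCI.K5
open Pool.Agent.W319.GCI

theorem cw12951 : wchk (nat_lit 5) [w162, w2520] [] (nat_lit 4) (nat_lit 0) (nat_lit 2) (nat_lit 2) (nat_lit 21727232) (nat_lit 23275524) w12951 = true := by decide +kernel
theorem cw12952 : wchk (nat_lit 5) [w375, w16] [] (nat_lit 1) (nat_lit 3) (nat_lit 2) (nat_lit 2) (nat_lit 21655552) (nat_lit 23225348) w12952 = true := by decide +kernel
theorem cw12953 : wchk (nat_lit 5) [w354, w284] [] (nat_lit 1) (nat_lit 1) (nat_lit 1) (nat_lit 2) (nat_lit 22687744) (nat_lit 23153668) w12953 = true := by decide +kernel
theorem cw12954 : wchk (nat_lit 5) [w502, w16] [] (nat_lit 1) (nat_lit 3) (nat_lit 2) (nat_lit 2) (nat_lit 21727232) (nat_lit 23225348) w12954 = true := by decide +kernel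
theorem cl2987 : lchk (nat_lit 5) [w12944, w284, w799, w3045, w7862, w7748, w1139, w7749, w16, w502, w12952, w8320, w12954, w3018, w12953, w251, w12943, w12945, w12946, w12950, w2015, w2037, w12951, w12203, w12947, w12948, w128, w3029, w3030, w12949] (nat_lit 23282688) (.nod (nat_lit 290675865443835851458206695287874362273899854729543390815727081481) (.nod (nat_lit 20933256089977156134865711931607818919864706309417739617888032361375771066423905046568) .nil (.dwn (nat_lit 145264062413413674984864100073547927711504240807196591915211882141458726189610975004672) (nat_lit 627262464)) (.dwn (nat_lit 145264062413413674984864100073547927711504240807196591915211882141458726189610975004672) (nat_lit 627262464))) .dup (.dwn (nat_lit 20933256089977156134024023595467295723628561848903586566446851265960879945963174842408) (nat_lit 90391552))) (.nod (nat_lit 292296010510146095309017198438331750861870478579836975978536978497) .nil (.nod (nat_lit 292296104666672126094441843611641969362508063833899384743628331096) .nil (.dwn (nat_lit 20933264427007581221633312635471385168883956578259067416096918507430217591086144456800) (nat_lit 90391600)) (.dwn (nat_lit 20933264427007581221633312635471385168883956578259067416096918507430217591086144456800)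 (nat_lit 90391600))) (.dwn (nat_lit 291576347073285747747182791126687842469699767772612646011024134264) (nat_lit 23282736))) .nil (.nod (nat_lit 292296405967555424669905320093065412944854694190374853856413042816) .nil (.nod (nat_lit 61517348806836079266389465095342339796025903248) .nil (.nod (nat_lit 5391919773558745942849766562409637016418669767010381063299683826713107648146442635424) (.dwn (nat_lit 144917142829701678427588032121557923270868951250972533833365535752144970544916807739576) (nat_lit 4922229760)) .nil .nil) .dup) (.nod (nat_lit 292296807702066489418532804971266990222764243941402224280942762104) (.dwn (nat_lit 20933276469384861902498829787019213213611193119646552507814904912939925358851418130656) (nat_lit 90391668)) .nil .nil)) l2987 = true := by decide +kernel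
theorem cw12955 : wchk (nat_lit 5) [] [l2987] (nat_lit 28) (nat_lit 1) (nat_lit 1) (nat_lit 0) (nat_lit 156815616) (nat_lit 0) w12955 = true := by decide +kernel
theorem cw12956 : wchk (nat_lit 5) [] [l1897] (nat_lit 2) (nat_lit 2) (nat_lit 1) (nat_lit 0) (nat_lit 22565632) (nat_lit 0) w12956 = true := by decide +kernel
theorem cl2988 : lchk (nat_lit 5) [w128, w250, w1065, w581, w10045, w8397, w1192, w15, w2520, w1064, w219] (nat_lit 21777408) (.nod (nat_lit 273398061314861452613053373228871426204848070820207608884788287496) .nil (.nod (nat_lit 5378624062704160348299848609375488654871465084389711008117399284059749068106987034648) (.dwn (nat_lit 20584657984139575394827827835633034352285506093351929261928326226409053098002282092584) (nat_lit 625757184)) .nil .nil) (.nod (nat_lit 5378624062704160348299848609375488654871465084389711008117399284059749068106987034648) (.dwn (nat_lit 20584657984139575394827827835633034352285506093351929261928326226409053098002282092584) (nat_lit 625757184)) .nil .nil)) (.nod (nat_lit 292295954016230476829944031744880945489741051937377662197620492344) (.nod (nat_lit 291576146206030215372373897009833057853800744380023782411288102984) .nil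 (.nod (nat_lit 7855883011234165011769705255766827167526250762640831607044738422784) .nil (.dwn (nat_lit 1139561936200812664704235206245462646308243458616690365214892235031539806709740958423040) (nat_lit 4920724480)) (.dwn (nat_lit 1139561936200812664704235206245462646308243458616690365214892235031539806709740958423040) (nat_lit 4920724480))) (.dwn (nat_lit 7855883011234165012195573527145429574594507125608049103327584622592) (nat_lit 625757184))) .nil (.nod (nat_lit 291576146206030215372373897009833057853800744380023782411288102984) (.opn (nat_lit 144915463381239380339550816617519686518422995119334271393599792438078356543554155223040)) .dup .dup)) .dup .nil l2988 = true := by decide +kernel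
theorem cw12957 : wchk (nat_lit 5) [] [l2988] (nat_lit 1) (nat_lit 3) (nat_lit 0) (nat_lit 0) (nat_lit 5820672) (nat_lit 0) w12957 = true := by decide +kernel
theorem cw12958 : wchk (nat_lit 5) [] [l840] (nat_lit 145) (nat_lit 3) (nat_lit 0) (nat_lit 0) (nat_lit 5806336) (nat_lit 0) w12958 = true := by decide +kernel
theorem cw12959 : wchk (nat_lit 5) [w3356, w16] [] (nat_lit 2) (nat_lit 1) (nat_lit 1) (nat_lit 2) (nat_lit 23211008) (nat_lit 23282692) w12959 = true := by decide +kernel
theorem cw12960 : wchk (nat_lit 5) [] [l2400] (nat_lit 0) (nat_lit 0) (nat_lit 0) (nat_lit 0) (nat_lit 5705984) (nat_lit 0) w12960 = true := by decide +kernel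
theorem cw12961 : wchk (nat_lit 5) [] [l2591] (nat_lit 0) (nat_lit 3) (nat_lit 0) (nat_lit 0) (nat_lit 5820672) (nat_lit 0) w12961 = true := by decide +kernel
theorem cw12962 : wchk (nat_lit 5) [] [l271] (nat_lit 2) (nat_lit 3) (nat_lit 0) (nat_lit 0) (nat_lit 5806336) (nat_lit 0) w12962 = true := by decide +kernel
theorem cl2989 : lchk (nat_lit 5) [w12929, w16, w3304, w284, w1063, w1068, w2709, w3305, w3953, w11040, w12262, w12962, w8260, w128, w1139, w12959, w12960, w12961, w7557, w12943, w2520, w12955, w12956, w12945, w12957, w8427, w12958, w2015, w5258, w12930, w12931, w5277, w12942] (nat_lit 23282688) (.nod (nat_lit 292295652715347178680270782200641857897183292652996778477547374600) (.nod (nat_lit 290675965877463617645059895800925575741080240569394991695288031257) (.nod (nat_lit 5378626841714302051489201609022345652908620563341123498817414968480435253752546117680) .nil (.nod (nat_lit 145250788934640222947167730697462326918293245304703481059277051763984859483571740895296) (.dwn (nat_lit 1139897263606886935062573838868809512466710580098788854955819906865727967486583400458320) (nat_lit 90391600)) .nil .nil) .dup) (.nod (nat_lit 5378626841714302051489201609022345652908620563341123498817414968480435253752546117680)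 .nil (.nod (nat_lit 145250788934640222947167730697462326918293245304703481059277051763984859483571740895296) (.dwn (nat_lit 1139897263606886935062573838868809512466710580098788854955819906865727967486583400458320) (nat_lit 90391600)) .nil .nil) .dup) (.nod (nat_lit 5043315183364167906669576763664700762357174825048463678992012139663181133715501402224) (.dwn (nat_lit 20933268132354436815751566440826974862425672856963041623779816938361589109552857958536) (nat_lit 4922229760)) .nil .nil)) .nil (.nod (nat_lit 292296556617997073951297392307490430914871028554975467839030773912) (.dwn (nat_lit 20933272764038006308399383634750444625409300485701506890301381285984347675952884959408) (nat_lit 90391648)) .nil .nil)) .nil (.nod (nat_lit 290677064370267310298387206117292862379135617564855001505255872712) .nil (.dwn (nat_lit 5391926257915743232849007240737305641608728870905601124191886858818373308840849918168) (nat_lit 90391552)) .dup) (.nod (nat_lit 290677215020708959594570993483591606844887428790929131692634626272) (.dwn (nat_lit 20933281101068431395163924778794555640036340501700185646400726551652016449685939218680) (nat_lit 90391680)) .nil .nil) l2989 = true := by decide +kernel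
theorem cw12963 : wchk (nat_lit 5) [] [l2989] (nat_lit 26) (nat_lit 1) (nat_lit 2) (nat_lit 0) (nat_lit 22597888) (nat_lit 0) w12963 = true := by decide +kernel
theorem cw12964 : wchk (nat_lit 5) [w37, w3898] [] (nat_lit 0) (nat_lit 0) (nat_lit 2) (nat_lit 2) (nat_lit 23225344) (nat_lit 22293508) w12964 = true := by decide +kernel
theorem cw12965 : wchk (nat_lit 5) [] [l531] (nat_lit 2) (nat_lit 2) (nat_lit 4) (nat_lit 0) (nat_lit 20619520) (nat_lit 0) w12965 = true := by decide +kernel
theorem cl2990 : lchk (nat_lit 5) [w3958, w1207, w144, w220, w15, w2916, w2620, w8332, w8380, w12168, w4531, w2743, w5943, w149, w11319, w2555, w7359, w12965, w497, w8342, w11320] (nat_lit 11218944) .nil (.nod (nat_lit 7770685063854233743605872360114846339000907309889232242412372038571421802377534457865) (.nod (nat_lit 912882320120629033888413052063593987228405004716616479691220127776) (.nod (nat_lit 12196430540028565472702828461225921864063866936) .nil .nil (.dwn (nat_lit 3341685827798469204431392467890774700169488654336) (nat_lit 4910166016))) .nil (.dwn (nat_lit 7861552690388821794221582614059158439928694054568087763140258388024) (nat_lit 615198720))) (.nod (nat_lit 18761982118148692344597744911845660441010227043277964013368478783738121557909006127136)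 .nil (.dwn (nat_lit 4176790178408638607642355456164855875367045924781368583275810172540110081063875332152) (nat_lit 615084032)) .dup) (.nod (nat_lit 18722149639451055572746063570140289342142722084364014861196640579506502957881525330024) (.dwn (nat_lit 142475283124733312401865308690222170976960873648988276916783909611426087693775201839232) (nat_lit 615198720)) .nil .nil)) .nil (.nod (nat_lit 5391917920885318145790639785273876877411466027212415720554908633220638235617237401600) .nil (.dwn (nat_lit 46548419873402243735371953814997860011909351593225953775045860683252018435850240) (nat_lit 78349392)) (.dwn (nat_lit 46548419873402243735371953814997860011909351593225953775045860683252018435850240) (nat_lit 78349392))) l2990 = true := by decide +kernel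
theorem cw12966 : wchk (nat_lit 5) [] [l2990] (nat_lit 4) (nat_lit 1) (nat_lit 4) (nat_lit 0) (nat_lit 22597888) (nat_lit 0) w12966 = true := by decide +kernel
theorem cw12967 : wchk (nat_lit 5) [] [l447] (nat_lit 2) (nat_lit 2) (nat_lit 1) (nat_lit 0) (nat_lit 22567424) (nat_lit 0) w12967 = true := by decide +kernel
theorem cl2991 : lchk (nat_lit 5) [w3958, w1312, w15, w220, w144, w2916, w2620, w8332, w8380, w1198, w2743, w149, w5943, w11319, w7359, w2555, w12967, w497, w8342, w11320] (nat_lit 22228992) .nil (.nod (nat_lit 7770685063854233751480563030712934191435682564506925185884454044721619862034193580032) (.nod (nat_lit 1009170047732627731199955765711343558036403257042175415327047096352) (.nod (nat_lit 13264775614695673138033997924539312261725243440) .nil .nil (.dwn (nat_lit 3349178878185175493807354668305775065038221369344) (nat_lit 4921176064))) .nil (.dwn (nat_lit 273398362615744751186994812961459413309627606073205135832654438464) (nat_lit 626208768))) (.nod (nat_lit 19125521108844742474143588092503260105273264520744702321457909549411295475156138747976) .nil (.dwn (nat_lit 4540329169104688730217558912648548227520707445097441192931585717353757771419396429872)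 (nat_lit 626094080)) .dup) (.nod (nat_lit 19085687703810391804291939020901239142594055104989868607015043180561690973291867201632) (.dwn (nat_lit 145025035119442867908967122684437000993281939518383743594913000117897473124655703607416) (nat_lit 626208768)) .nil .nil)) .nil (.nod (nat_lit 5391916994548604247261076396705996807900710147943573170687332608513359463392045170688) .nil (.dwn (nat_lit 46548419873401110560275535973492538957145882829218991876580735916505066484488336) (nat_lit 89359436)) (.dwn (nat_lit 46548419873401110560275535973492538957145882829218991876580735916505066484488336) (nat_lit 89359436))) l2991 = true := by decide +kernel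
theorem cw12968 : wchk (nat_lit 5) [] [l2991] (nat_lit 4) (nat_lit 1) (nat_lit 1) (nat_lit 0) (nat_lit 22597888) (nat_lit 0) w12968 = true := by decide +kernel
theorem cl2992 : lchk (nat_lit 5) [w721, w461, w126, w39, w3, w2351, w281, w2353, w3444, w852, w746, w747, w748, w258, w4296, w762, w6647] (nat_lit 22709248) .nil (.nod (nat_lit 15840501136372585538668261055912006168167993353) (.nod (nat_lit 142238029372955612587638072629194053910930) (.nod (nat_lit 426229272858280427633720126132398059231940003864) .nil .nil (.dwn (nat_lit 3349505723481991458252790519495752294495386142720) (nat_lit 4921656320))) .nil (.dwn (nat_lit 285096771144322434208623814413761528051841177171358937469880520752) (nat_lit 123372572))) .nil (.nod (nat_lit 5285669878811298500458661215133545061659965771198099756292590246963545078941171581266) (.dwn (nat_lit 145131272045476320771945150337886636856798092497645108996260656224874103412722844895328) (nat_lit 626689024)) .nil .nil)) (.nod (nat_lit 285097223095647382050925280065287097432324959196908347956456849426) .nil (.dwn (nat_lit 1128944982666771362716171824041595831105351800092155696453551589496) (nat_lit 89818112)) (.dwn (nat_lit 1128944982666771362716171824041595831105351800092155696453551589496)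 (nat_lit 89818112))) .nil l2992 = true := by decide +kernel
theorem cw12969 : wchk (nat_lit 5) [] [l2992] (nat_lit 2) (nat_lit 2) (nat_lit 1) (nat_lit 0) (nat_lit 22597888) (nat_lit 0) w12969 = true := by decide +kernel
theorem cw12970 : wchk (nat_lit 5) [] [l2991] (nat_lit 0) (nat_lit 2) (nat_lit 4) (nat_lit 0) (nat_lit 4903168) (nat_lit 0) w12970 = true := by decide +kernel
theorem cw12971 : wchk (nat_lit 5) [w539, w220] [] (nat_lit 1) (nat_lit 1) (nat_lit 4) (nat_lit 2) (nat_lit 22293504) (nat_lit 10839044) w12971 = true := by decide +kernel
theorem cw12972 : wchk (nat_lit 5) [w69, w2743] [] (nat_lit 0) (nat_lit 0) (nat_lit 4) (nat_lit 2) (nat_lit 17476608) (nat_lit 5549060) w12972 = true := by decide +kernel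
theorem cw12973 : wchk (nat_lit 5) [w11283, w220] [] (nat_lit 1) (nat_lit 1) (nat_lit 4) (nat_lit 2) (nat_lit 5936128) (nat_lit 10839044) w12973 = true := by decide +kernel
theorem cw12974 : wchk (nat_lit 5) [w2724, w220] [] (nat_lit 0) (nat_lit 0) (nat_lit 4) (nat_lit 2) (nat_lit 625692672) (nat_lit 10839044) w12974 = true := by decide +kernel
theorem cl2993 : lchk (nat_lit 5) [w7394, w83, w401, w220, w1202, w748, w2743, w6798, w1326, w7233, w6797, w7235, w1747, w7418, w12971, w1379, w7412, w5157, w12972, w7413, w7484, w6645, w12973, w12974] (nat_lit 23225344) (.nod (nat_lit 5043304067323601124023239703560040297492925177968255517834372343111960291715135985688) .nil (.nod (nat_lit 188539027724074343437314667997851249454063515416714665639429888048) .nil (.dwn (nat_lit 286536688065606255727361335382460496218678688277387695958739429456) (nat_lit 23153708)) .dup) (.nod (nat_lit 5259107173540258165513591153834571671445331591066428253111464811907517405639272122416) .nil (.dwn (nat_lit 20662681472877820735306115781870070631121487028985526086983523136235853452826042214480) (nat_lit 89402368)) .dup)) (.nod (nat_lit 14820949490580638161523998637381192148425726000) (.nod (nat_lit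 61512446018493482384986726968841728382609991760) .nil .nil (.dwn (nat_lit 426853685557062479001462757179110722091065067520) (nat_lit 627205120))) .nil (.nod (nat_lit 292296305533927658481574020090395574552386412645562686064042870904) (.dwn (nat_lit 20704188768354186058952907273234011871987724913696905119871786233338372686777320523936) (nat_lit 627205120)) .nil .nil)) (.nod (nat_lit 5285667099801156804869971049429904853150177172258509890904383302394741807613564225704) .nil (.dwn (nat_lit 20905040800008520822053491918121108880823286024510515920515301835971187758575302027344) (nat_lit 90391644)) .dup) .nil l2993 = true := by decide +kernel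
theorem cw12975 : wchk (nat_lit 5) [] [l2993] (nat_lit 2) (nat_lit 3) (nat_lit 1) (nat_lit 0) (nat_lit 5820672) (nat_lit 0) w12975 = true := by decide +kernel
theorem cw12976 : wchk (nat_lit 5) [] [l766] (nat_lit 1) (nat_lit 1) (nat_lit 1) (nat_lit 0) (nat_lit 22583552) (nat_lit 0) w12976 = true := by decide +kernel
theorem cw12977 : wchk (nat_lit 5) [] [l234] (nat_lit 17) (nat_lit 3) (nat_lit 1) (nat_lit 0) (nat_lit 5820672) (nat_lit 0) w12977 = true := by decide +kernel
theorem cw12978 : wchk (nat_lit 5) [w158] [] (nat_lit 2) (nat_lit 1) (nat_lit 2) (nat_lit 2) (nat_lit 193) (nat_lit 89753600) w12978 = true := by decide +kernel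
theorem cw12979 : wchk (nat_lit 5) [w69, w158] [] (nat_lit 2) (nat_lit 1) (nat_lit 2) (nat_lit 2) (nat_lit 90391552) (nat_lit 89753604) w12979 = true := by decide +kernel
theorem cw12980 : wchk (nat_lit 5) [] [l672] (nat_lit 18) (nat_lit 1) (nat_lit 2) (nat_lit 0) (nat_lit 5446144) (nat_lit 0) w12980 = true := by decide +kernel
theorem cw12981 : wchk (nat_lit 5) [w2743] [] (nat_lit 2) (nat_lit 0) (nat_lit 4) (nat_lit 2) (nat_lit 10595328) (nat_lit 25165865) w12981 = true := by decide +kernel
theorem cw12982 : wchk (nat_lit 5) [] [l1352] (nat_lit 2) (nat_lit 2) (nat_lit 0) (nat_lit 0) (nat_lit 22438400) (nat_lit 0) w12982 = true := by decide +kernel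
theorem cw12983 : wchk (nat_lit 5) [w112, w158] [] (nat_lit 2) (nat_lit 1) (nat_lit 2) (nat_lit 2) (nat_lit 89402368) (nat_lit 89753604) w12983 = true := by decide +kernel
theorem cw12984 : wchk (nat_lit 5) [w112, w158] [] (nat_lit 2) (nat_lit 1) (nat_lit 2) (nat_lit 2) (nat_lit 90319872) (nat_lit 89753604) w12984 = true := by decide +kernel
theorem cw12985 : wchk (nat_lit 5) [] [l812] (nat_lit 2) (nat_lit 3) (nat_lit 0) (nat_lit 0) (nat_lit 21293312) (nat_lit 0) w12985 = true := by decide +kernel
theorem cl2994 : lchk (nat_lit 5) [w7401, w12977, w144, w220, w2538, w8331, w8332, w11050, w15, w2521, w12979, w12985, w2532, w12551, w149, w12980, w2740, w12981, w2743, w12982, w7341, w7563, w7359, w497, w12978, w12983, w12984, w12273, w42, w164] (nat_lit 22307840) .nil (.nod (nat_lit 145264063455542478112835078283052142052302459762313838143069659942743531932963471097938) (.nod (nat_lit 1120215894343100995211354363014318013577412618190345195623071434776) (.nod (nat_lit 14738015872114667038955095156035842763061221424) .nil .nil (.nod (nat_lit 3349232539353309458119291897605622072859546929152) .nil (.dwn (nat_lit 9096856558416355595336917231458500900029848246090107842009331924341036604209109561559040)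 (nat_lit 39280993280)) .dup)) .nil (.nod (nat_lit 426190257443218740535115446343961406042575231024) .nil (.dwn (nat_lit 1139684775859769320850801261109367458399165807135249916269381686126795894292515209660416) (nat_lit 4921254912)) .dup)) (.nod (nat_lit 20785521131834476951663109801925071213866655197730170174303018456492055515984348923928) .nil (.dwn (nat_lit 145264072603117527868687678156847762010963738925401947227614108339396663336990425155688) (nat_lit 626287616)) .dup) (.nod (nat_lit 20556447325854509568778984366731394141966158815710768202981187815154020524916233406608) (.dwn (nat_lit 145264080013811239056919956206192823969758057182778499202290770385635587501063239567536) (nat_lit 626287616)) .nil .nil)) (.nod (nat_lit 15128330636008724926316570144135599682009598144) .nil (.nod (nat_lit 1134795191267337866079477867613765585788435210612444159757657309586) (.dwn (nat_lit 145025048088156862488376061458246398639587322270030490373898304721219770867464098367720) (nat_lit 626287616)) .nil .nil) .dup) .nil l2994 = true := by decide +kernel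
theorem cw12986 : wchk (nat_lit 5) [] [l2994] (nat_lit 145) (nat_lit 3) (nat_lit 1) (nat_lit 0) (nat_lit 5820672) (nat_lit 0) w12986 = true := by decide +kernel
theorem cw12987 : wchk (nat_lit 5) [w69, w161] [] (nat_lit 2) (nat_lit 1) (nat_lit 2) (nat_lit 2) (nat_lit 90391552) (nat_lit 22644740) w12987 = true := by decide +kernel
theorem cw12988 : wchk (nat_lit 5) [] [l1997] (nat_lit 18) (nat_lit 3) (nat_lit 2) (nat_lit 0) (nat_lit 5446144) (nat_lit 0) w12988 = true := by decide +kernel
theorem cw12989 : wchk (nat_lit 5) [w112, w161] [] (nat_lit 2) (nat_lit 1) (nat_lit 2) (nat_lit 2) (nat_lit 89402368) (nat_lit 22644740) w12989 = true := by decide +kernel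
theorem cw12990 : wchk (nat_lit 5) [w112, w161] [] (nat_lit 2) (nat_lit 1) (nat_lit 2) (nat_lit 2) (nat_lit 90319872) (nat_lit 22644740) w12990 = true := by decide +kernel
theorem cl2995 : lchk (nat_lit 5) [w7401, w2519, w144, w220, w11050, w8331, w8332, w15, w2790, w12987, w12985, w2532, w12551, w149, w12988, w2740, w12981, w2743, w12982, w7341, w7563, w7359, w497, w10382, w12989, w12990, w12273, w42, w164] (nat_lit 22307840) .nil (.nod (nat_lit 145262403460151171947857485969411057502455475283813671519943590278819194490336952975442) (.nod (nat_lit 1120215894343100995211354363014318013577412618190345195623071434776) (.nod (nat_lit 426190249276441934432592323222970827680138156080) .nil .nil (.dwn (nat_lit 3349232539353309458119291897605622072859546929152) (nat_lit 4921254912))) .nil (.nod (nat_lit 426190249276441934432592323222970827680138156080) .nil (.nod (nat_lit 1139684775859769320850801261109367458399165807135249916269381686126795894292515209660416) .nil (.opn (nat_lit 9096856558416355595336917231458500900029848246090107842009331924341036604209109561559040)) .dup) (.dwn (nat_lit 1139684775859769320850801261109367458399165807135249916269381686126795894292515209660416)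 (nat_lit 4921254912)))) (.nod (nat_lit 20785520205497763053133546363140377261269946260883977463517174811864965944377359288344) .nil (.dwn (nat_lit 145264071676780813970158114718063068058367029988555754516828264694769573765383435520096) (nat_lit 626287616)) .dup) (.nod (nat_lit 20556446399517795670249420927946700189369449876142316556827836462819934093855098079368) (.dwn (nat_lit 145264079087474525158390392767408130017161348243210047556137419033301501070002104240296) (nat_lit 626287616)) .nil .nil)) (.nod (nat_lit 15128327913749789558808862437138740227852552376) .nil (.nod (nat_lit 1134795141050523982986031756927450200127103881646026651455704793490) (.dwn (nat_lit 145025047161820148589846498019461704686990613330462038727744953368885684436402963040480) (nat_lit 626287616)) .nil .nil) .dup) .nil l2995 = true := by decide +kernel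
theorem cw12991 : wchk (nat_lit 5) [] [l2995] (nat_lit 17) (nat_lit 3) (nat_lit 1) (nat_lit 0) (nat_lit 5820672) (nat_lit 0) w12991 = true := by decide +kernel
theorem cw12992 : wchk (nat_lit 5) [] [l1322] (nat_lit 2) (nat_lit 2) (nat_lit 0) (nat_lit 0) (nat_lit 20599808) (nat_lit 0) w12992 = true := by decide +kernel
theorem cw12993 : wchk (nat_lit 5) [w112, w281] [] (nat_lit 2) (nat_lit 1) (nat_lit 2) (nat_lit 2) (nat_lit 77933568) (nat_lit 23275524) w12993 = true := by decide +kernel
theorem cl2996 : lchk (nat_lit 5) [w7401, w2519, w220, w281, w11050, w8331, w15, w10378, w12985, w12551, w2532, w149, w2743, w2740, w12992, w12982, w7359, w7563, w7276, w10382, w497, w12993, w12273, w164, w42] (nat_lit 11297792) .nil (.nod (nat_lit 145262403460151171948173423359139071364257051993232638713826398562292997691788228558848) (.nod (nat_lit 1036886515120006795475357323644909460915469241517005004642788724761) (.nod (nat_lit 418697198889735645057442520958751493618051733544) .nil .nil (.dwn (nat_lit 3341739488966603168743329697190621707990814214144) (nat_lit 4910244864))) .nil (.nod (nat_lit 418697198889735645057442520958751493618051733544) .nil (.nod (nat_lit 1137135022938723051445219467356661589834190155108607276858362720138598582053314640791552)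 (.opn (nat_lit 9094306805495309326424338797494181140728809399365161226226691024552452377066899408209920)) .dup .dup) (.dwn (nat_lit 1137135022938723051445219467356661589834190155108607276858362720138598582053314640791552) (nat_lit 4910244864)))) (.nod (nat_lit 18722145007767486080205062510810733765238372485852545249764923462847347563422349346872) .nil (.dwn (nat_lit 142355757898538985132351675052423881607020124090186836861826162922353964720972514941008) (nat_lit 615277568)) .dup) (.nod (nat_lit 17687972510667314791811428740934942333784253833933882176558865817669423139393841301616) (.dwn (nat_lit 142355764382895982422058619123916739275614398448593828927176308753195058536594598873232) (nat_lit 615277568)) .nil .nil)) (.nod (nat_lit 175671421117856595705358671057253852721259924521897643141916262400) .nil (.nod (nat_lit 2523394897625445667196058600696334988740467875824577516308648) (.dwn (nat_lit 142475290535427023590061501338845353049701875258773810576925435727637564657695544641728) (nat_lit 615277568)) .nil .nil) (.nod (nat_lit 2523394897625445667196058600696334988740467875824577516308648) (.dwn (nat_lit 142475290535427023590061501338845353049701875258773810576925435727637564657695544641728)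 (nat_lit 615277568)) .nil .nil)) .nil l2996 = true := by decide +kernel
theorem cw12994 : wchk (nat_lit 5) [] [l2996] (nat_lit 17) (nat_lit 3) (nat_lit 4) (nat_lit 0) (nat_lit 4903168) (nat_lit 0) w12994 = true := by decide +kernel
theorem cl2997 : lchk (nat_lit 5) [w5721, w7353, w1, w535, w797, w7076, w4038, w5157, w12634, w3958, w181, w8424, w12986, w7719, w2548, w12976, w8342, w34, w1919, w1690, w12991, w6740, w12994] (nat_lit 89230336) (.nod (nat_lit 1114366595922286122856568766124379425134664751823741884800001460240) (.nod (nat_lit 144903846192510378880314538471759648108375187896131305708194003488081258630510588106792) .nil (.nod (nat_lit 61780095794998412770313497927775294374871645077559844704886102104064) .nil (.dwn (nat_lit 493139242469408649508369765517383831845774119145898463102303893395456) (nat_lit 39280806912)) (.dwn (nat_lit 493139242469408649508369765517383831845774119145898463102303893395456) (nat_lit 39280806912))) (.nod (nat_lit 1139641615979595360623163956749697672870108476082667568984856228044717343416252293650432) .nil (.dwn (nat_lit 9096813398536181635540639073773241351215463156429839585501733126419378983629007706331136) (nat_lit 39280806912))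 (.dwn (nat_lit 5044963136378193883610511098041894286190879176318794756325774636863069065185583110144) (nat_lit 39280806912)))) (.nod (nat_lit 145235848049781753571421511539269682928224900905685519921387673857356863601134552651816) .nil (.dwn (nat_lit 1139641615979595360623163956749697672866759370378802576170019171275276398056561453504512) (nat_lit 4921068544)) .dup) (.dwn (nat_lit 145235848049781753571421511539269682928651349706948866255577121860525350272348579862568) (nat_lit 626101248))) (.nod (nat_lit 15840519851902766191125542881877447110017099848) .nil .nil (.nod (nat_lit 14825841389887493573160886626111384329104347216) (.dwn (nat_lit 20903383583627356353507087601363983202196407546117784176743820771089424178066790502504) (nat_lit 89230336)) .nil .nil)) .nil (.nod (nat_lit 4391194220873265658929907211457044621785847936) .nil (.nod (nat_lit 5391917920885318145790639785273876878005835244819678245703764905476975118570166112400) (.dwn (nat_lit 1637205569321518960718453480569238009647966351308892662926178224540608018122954667018408) (nat_lit 627262552)) .nil .nil) (.nod (nat_lit 5391917920885318145790639785273876878005835244819678245703764905476975118570166112400)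 (.dwn (nat_lit 1637205569321518960718453480569238009647966351308892662926178224540608018122954667018408) (nat_lit 627262552)) .nil .nil)) l2997 = true := by decide +kernel
theorem cw12995 : wchk (nat_lit 5) [] [l2997] (nat_lit 274) (nat_lit 1) (nat_lit 1) (nat_lit 0) (nat_lit 22597888) (nat_lit 0) w12995 = true := by decide +kernel
theorem cw12996 : wchk (nat_lit 5) [] [l2990] (nat_lit 0) (nat_lit 2) (nat_lit 1) (nat_lit 0) (nat_lit 5820672) (nat_lit 0) w12996 = true := by decide +kernel
theorem cw12997 : wchk (nat_lit 5) [w16, w33] [] (nat_lit 25) (nat_lit 0) (nat_lit 1) (nat_lit 2) (nat_lit 23153664) (nat_lit 23153668) w12997 = true := by decide +kernel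
theorem cw13001 : wchk (nat_lit 5) [] [l90] (nat_lit 2) (nat_lit 1) (nat_lit 1) (nat_lit 0) (nat_lit 18306048) (nat_lit 0) w13001 = true := by decide +kernel
theorem cw13011 : wchk (nat_lit 5) [] [l46] (nat_lit 1) (nat_lit 2) (nat_lit 1) (nat_lit 0) (nat_lit 3319040) (nat_lit 0) w13011 = true := by decide +kernel
theorem cl3001 : lchk (nat_lit 5) [w976, w20, w4, w500, w1482, w6204, w1473, w33, w919, w2766, w2007] (nat_lit 19612672) (.nod (nat_lit 11418036667391120240497368822282365037545783442) .nil (.nod (nat_lit 20827014532260133778107412749746535828276380580036116760420809252483691132323044000146) .nil (.dwn (nat_lit 145234185275380305703174296456794916298096888857797315053262655636511433497158601738288) (nat_lit 623592448)) .dup) (.nod (nat_lit 142238029372953112643117774927880662286354) .nil (.dwn (nat_lit 7868931749888059077981177346767676533120829215975824864040323450952) (nat_lit 623592448)) .dup)) (.nod (nat_lit 11418014889319637300435707166307489404380250258) .nil .nil (.dwn (nat_lit 11417993111248154361208961380243492941760299026) (nat_lit 86721536))) .nil .nil l3001 = true := by decide +kernel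
theorem cw13012 : wchk (nat_lit 5) [] [l3001] (nat_lit 1) (nat_lit 1) (nat_lit 1) (nat_lit 0) (nat_lit 22597888) (nat_lit 0) w13012 = true := by decide +kernel
theorem cw13013 : wchk (nat_lit 5) [] [l192] (nat_lit 1) (nat_lit 2) (nat_lit 1) (nat_lit 0) (nat_lit 22483200) (nat_lit 0) w13013 = true := by decide +kernel
theorem cw13014 : wchk (nat_lit 5) [w1139] [] (nat_lit 1) (nat_lit 0) (nat_lit 4) (nat_lit 2) (nat_lit 9269248) (nat_lit 16777289) w13014 = true := by decide +kernel
theorem cw13015 : wchk (nat_lit 5) [] [l2758] (nat_lit 1) (nat_lit 1) (nat_lit 1) (nat_lit 0) (nat_lit 19352576) (nat_lit 0) w13015 = true := by decide +kernel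
theorem cl3002 : lchk (nat_lit 5) [w1538, w33, w5606, w831, w1101, w2007, w888] (nat_lit 21655552) (.nod (nat_lit 11418036667391120240497368822282365037545783442) (.nod (nat_lit 3585828113756788273697188326687805531836437876559626663670513246871928956444865462674) .nil (.nod (nat_lit 61787474954931277819846078864137472278652706403705491749903164311568) .nil .nil .dup) (.nod (nat_lit 1139777737454355893948393032405335231146100309908363164635224026443980004883253916141584) (.opn (nat_lit 1139533716279160459899614607108546074405451195149419825042672263554330554398909060669440)) .dup .dup)) .nil (.nod (nat_lit 20827016384933561575166539526882295967282906352815829300684526359118411036908480102400) .nil (.dwn (nat_lit 144887243459587175534930217480603114612281860106023322977904194932469320697126294913024) (nat_lit 625635328)) (.opn (nat_lit 144887243459587175534930217480603114612281860106023322977904194932469320697126294913024)))) (.nod (nat_lit 11417993111248154360374045510332613771214716946) .nil .nil (.dwn (nat_lit 11417993111248154360945301476902151961807159314) (nat_lit 82592792))) .nil .nil l3002 = true := by decide +kernel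
theorem cw13016 : wchk (nat_lit 5) [] [l3002] (nat_lit 1) (nat_lit 2) (nat_lit 1) (nat_lit 0) (nat_lit 22597888) (nat_lit 0) w13016 = true := by decide +kernel
theorem cw13027 : wchk (nat_lit 5) [w143] [] (nat_lit 17) (nat_lit 1) (nat_lit 1) (nat_lit 2) (nat_lit 625692672) (nat_lit 25165865) w13027 = true := by decide +kernel
theorem cw13028 : wchk (nat_lit 5) [w112] [] (nat_lit 2) (nat_lit 1) (nat_lit 2) (nat_lit 2) (nat_lit 77933568) (nat_lit 205) w13028 = true := by decide +kernel
theorem cw13029 : wchk (nat_lit 5) [w112] [] (nat_lit 2) (nat_lit 1) (nat_lit 2) (nat_lit 2) (nat_lit 78392320) (nat_lit 205) w13029 = true := by decide +kernel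
theorem cl3004 : lchk (nat_lit 5) [w7401, w5875, w8331, w220, w144, w179, w1339, w497, w13028, w13029, w12273, w164, w42, w15, w13027, w1430, w12985, w12551, w2532, w149, w2743, w2740, w1747, w12982, w7359, w7563, w7276, w8332] (nat_lit 4876690432) (.nod (nat_lit 417321513843806848060814376255916413190418726912) (.nod (nat_lit 1036886571613922413902123527266195234029497044914376049992450381857) (.nod (nat_lit 143959310667530598797565515287865336739086060586147435984847802484438939527174323961856) .nil (.nod (nat_lit 185389529590954488677036983480267030766406733392370577046335651840) .nil (.nod (nat_lit 2523394897625445667196058600696334988738549414440911730280520) (.dwn (nat_lit 142475279419386456807706740073429025618541367983952390823085219499628527484961920714848) (nat_lit 615277568)) .nil .nil) .dup) .nil) (.nod (nat_lit 26492827061027399654011103074971012508215957846601241725600820793980153648005180319864) .nil (.dwn (nat_lit 204521169860456026593380956914447868214684191320502297062385455764147473022732785113232) (nat_lit 883713024)) (.dwn (nat_lit 204521169860456026593380956914447868214684191320502297062385455764147473022732785113232) (nat_lit 883713024))) (.nod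 (nat_lit 25458655490263942264147033045180798327942060780508030518166196926668563564738428561528) (.dwn (nat_lit 204521176344813023883087900985940725883461153405353723475451123860734077091445026146512) (nat_lit 883713024)) .nil .nil)) .nil (.dwn (nat_lit 279878541146474661833637559967089975656741293692551135077165848592) (nat_lit 648832000))) .nil .nil .nil l3004 = true := by decide +kernel
theorem cw13030 : wchk (nat_lit 5) [] [l3004] (nat_lit 145) (nat_lit 3) (nat_lit 4) (nat_lit 0) (nat_lit 1230557440) (nat_lit 0) w13030 = true := by decide +kernel
theorem cw13031 : wchk (nat_lit 5) [w8335] [] (nat_lit 0) (nat_lit 1) (nat_lit 3) (nat_lit 2) (nat_lit 11283456) (nat_lit 33554481) w13031 = true := by decide +kernel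
theorem cw13032 : wchk (nat_lit 5) [w2405] [] (nat_lit 1) (nat_lit 0) (nat_lit 3) (nat_lit 2) (nat_lit 21727232) (nat_lit 33554481) w13032 = true := by decide +kernel
theorem cw13033 : wchk (nat_lit 5) [w162] [] (nat_lit 1) (nat_lit 0) (nat_lit 3) (nat_lit 2) (nat_lit 21777408) (nat_lit 33554513) w13033 = true := by decide +kernel
theorem cw13034 : wchk (nat_lit 5) [w8337] [] (nat_lit 0) (nat_lit 0) (nat_lit 3) (nat_lit 2) (nat_lit 33554513) (nat_lit 22293504) w13034 = true := by decide +kernel
theorem cw13035 : wchk (nat_lit 5) [w581] [] (nat_lit 1) (nat_lit 0) (nat_lit 3) (nat_lit 2) (nat_lit 22687744) (nat_lit 33554481) w13035 = true := by decide +kernel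
theorem cl3005 : lchk (nat_lit 5) [w5258, w3953, w7466, w1, w69, w366, w4256, w13033, w4531, w2037, w4209, w13035, w13031, w11065, w13032, w616, w11565, w13030, w6891, w126, w13034] (nat_lit 23153664) (.nod (nat_lit 15142905950631049484760038715762024108273959002) (.nod (nat_lit 1122375625351686813529026971071870245361278788145680093166576506912) (.nod (nat_lit 144915468012922949832210332370622175613706955857822164044986735512845578371573424490560) .nil (.nod (nat_lit 61793054143387317267896170783561687224727342497627297569697412847616) .nil (.dwn (nat_lit 493152200817797554005952438373170224695629854647129233827934207383552) (nat_lit 39281839104)) (.dwn (nat_lit 493152200817797554005952438373170224695629854647129233827934207383552) (nat_lit 39281839104))) (.nod (nat_lit 1139880655315943448379950208262402752545656913842477955564865957069889388019282214033408) (.opn (nat_lit 9097052437872529723297425325285946430891011594189649972083192099509943276478053017098240)) .dup .dup)) (.nod (nat_lit 5028371519495556835328997810830573664416961713289155752101414661493797727654291081280) .nil (.dwn (nat_lit 1139880655315943448379950208262402752542307105665139209035399980006486172097022938748928)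 (nat_lit 4922100736)) .dup) (.dwn (nat_lit 143054617810952308384977165721805795582753669600823801887778359639294674859431317637184) (nat_lit 627133440))) .nil (.nod (nat_lit 292296205100299892342851375679483724808056481763320738822024239136) (.dwn (nat_lit 145156174755356054942197724957122475897545807868681155546858571132880646026887030958200) (nat_lit 627133440)) .nil .nil)) .nil .nil (.nod (nat_lit 181576278111204440444953381000) .nil (.dwn (nat_lit 20664350731636265886428500068395589222407643209700275825665882195670352179371414913434) (nat_lit 90391632)) (.dwn (nat_lit 20664350731636265886428500068395589222407643209700275825665882195670352179371414913434) (nat_lit 90391632))) l3005 = true := by decide +kernel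
theorem cw13036 : wchk (nat_lit 5) [] [l3005] (nat_lit 2194) (nat_lit 1) (nat_lit 2) (nat_lit 0) (nat_lit 22597888) (nat_lit 0) w13036 = true := by decide +kernel
theorem cw13037 : wchk (nat_lit 5) [w461, w16] [] (nat_lit 17) (nat_lit 1) (nat_lit 1) (nat_lit 2) (nat_lit 22816768) (nat_lit 22630404) w13037 = true := by decide +kernel
theorem cw13038 : wchk (nat_lit 5) [] [l1896] (nat_lit 2) (nat_lit 1) (nat_lit 3) (nat_lit 0) (nat_lit 5573376) (nat_lit 0) w13038 = true := by decide +kernel
theorem cw13039 : wchk (nat_lit 5) [w911, w16] [] (nat_lit 17) (nat_lit 1) (nat_lit 1) (nat_lit 2) (nat_lit 23282688) (nat_lit 22630404) w13039 = true := by decide +kernel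
theorem cw13040 : wchk (nat_lit 5) [w11935, w16] [] (nat_lit 17) (nat_lit 1) (nat_lit 1) (nat_lit 2) (nat_lit 11283456) (nat_lit 22630404) w13040 = true := by decide +kernel
theorem cw13041 : wchk (nat_lit 5) [] [l2990] (nat_lit 0) (nat_lit 0) (nat_lit 4) (nat_lit 1) (nat_lit 2804736) (nat_lit 0) w13041 = true := by decide +kernel
theorem cw13042 : wchk (nat_lit 5) [w501] [] (nat_lit 2) (nat_lit 0) (nat_lit 1) (nat_lit 2) (nat_lit 22687744) (nat_lit 25165905) w13042 = true := by decide +kernel
theorem cw13043 : wchk (nat_lit 5) [w1673] [] (nat_lit 2) (nat_lit 0) (nat_lit 1) (nat_lit 2) (nat_lit 11104256) (nat_lit 25165905) w13043 = true := by decide +kernel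
theorem cw13044 : wchk (nat_lit 5) [w7250, w161] [] (nat_lit 2) (nat_lit 1) (nat_lit 4) (nat_lit 2) (nat_lit 78406656) (nat_lit 19490820) w13044 = true := by decide +kernel
theorem cw13045 : wchk (nat_lit 5) [w351, w161] [] (nat_lit 25) (nat_lit 1) (nat_lit 4) (nat_lit 2) (nat_lit 614818816) (nat_lit 19490820) w13045 = true := by decide +kernel
theorem cw13046 : wchk (nat_lit 5) [w3766, w161] [] (nat_lit 2) (nat_lit 1) (nat_lit 4) (nat_lit 2) (nat_lit 77173760) (nat_lit 19490820) w13046 = true := by decide +kernel
theorem cw13047 : wchk (nat_lit 5) [] [l1317] (nat_lit 1) (nat_lit 3) (nat_lit 0) (nat_lit 0) (nat_lit 30870016) (nat_lit 0) w13047 = true := by decide +kernel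
theorem cw13048 : wchk (nat_lit 5) [w5841] [] (nat_lit 2) (nat_lit 0) (nat_lit 1) (nat_lit 2) (nat_lit 123874304) (nat_lit 25165905) w13048 = true := by decide +kernel
theorem cw13049 : wchk (nat_lit 5) [w391, w161] [] (nat_lit 2) (nat_lit 1) (nat_lit 4) (nat_lit 2) (nat_lit 882996224) (nat_lit 19490820) w13049 = true := by decide +kernel
theorem cl3006 : lchk (nat_lit 5) [w8755, w2519, w390, w161, w11054, w13047, w8754, w1637, w10367, w13048, w2089, w1449, w13049, w5606, w7250, w13042, w13043, w13044, w7313, w7252, w8751, w497, w13045] (nat_lit 23225344) .nil (.nod (nat_lit 145262403460151171948173423861307210195174386102602425899717566122558318357323599315082) (.nod (nat_lit 925930657040012034891786331912166133975839798514484816511752267792) (.nod (nat_lit 426190249276441934410752096039404114752865749040) .nil .nil (.dwn (nat_lit 3349856960218868315567288747640205436598607988736) (nat_lit 4922172416))) .nil (.nod (nat_lit 426190249276441934410752096039404114752865749040) .nil (.nod (nat_lit 1139897255269856509967933077255426280779580444804136802886966599959145670312448590399488) .nil (.opn (nat_lit 9097069037826442784454049047604559722410262883758994728626916838173386380229042942298112))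 .dup) (.dwn (nat_lit 1139897255269856509967933077255426280779580444804136802886966599959145670312448590399488) (nat_lit 4922172416)))) (.nod (nat_lit 20827016384933561576286665683778987874445206935399040549365331780551491910503905812536) .nil (.dwn (nat_lit 145264070750444100071617752655620953691118679066449029193353475812959683389014878476368) (nat_lit 627262512)) .dup) (.nod (nat_lit 207158899758231381037071433615888849947309687939336857897318435566037280474806051457136) (.dwn (nat_lit 145264078161137811259860829328623436064564995418666484945872378913702956950153017714832) (nat_lit 627205120)) .nil .nil)) (.nod (nat_lit 292206668521146336666918711283940106530595297585177719129021769896) .nil .nil (.dwn (nat_lit 210625198493084441306396347526244378898302839209775369086539137098) (nat_lit 90391600))) .nil l3006 = true := by decide +kernel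
theorem cw13050 : wchk (nat_lit 5) [] [l3006] (nat_lit 17) (nat_lit 3) (nat_lit 2) (nat_lit 0) (nat_lit 5820672) (nat_lit 0) w13050 = true := by decide +kernel
theorem cw13051 : wchk (nat_lit 5) [] [l449] (nat_lit 1) (nat_lit 2) (nat_lit 1) (nat_lit 0) (nat_lit 155609600) (nat_lit 0) w13051 = true := by decide +kernel
theorem cw13052 : wchk (nat_lit 5) [w56, w281] [] (nat_lit 2) (nat_lit 1) (nat_lit 4) (nat_lit 2) (nat_lit 77173760) (nat_lit 18688004) w13052 = true := by decide +kernel
theorem cw13053 : wchk (nat_lit 5) [w267, w281] [] (nat_lit 2) (nat_lit 1) (nat_lit 4) (nat_lit 2) (nat_lit 77689856) (nat_lit 18688004) w13053 = true := by decide +kernel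
theorem cw13054 : wchk (nat_lit 5) [w42, w281] [] (nat_lit 2) (nat_lit 1) (nat_lit 4) (nat_lit 2) (nat_lit 77173760) (nat_lit 18688004) w13054 = true := by decide +kernel
theorem cw13055 : wchk (nat_lit 5) [] [l2467] (nat_lit 0) (nat_lit 2) (nat_lit 1) (nat_lit 0) (nat_lit 5671936) (nat_lit 0) w13055 = true := by decide +kernel
theorem cw13056 : wchk (nat_lit 5) [] [l2466] (nat_lit 0) (nat_lit 2) (nat_lit 1) (nat_lit 0) (nat_lit 5671936) (nat_lit 0) w13056 = true := by decide +kernel
theorem cw13057 : wchk (nat_lit 5) [w281] [] (nat_lit 0) (nat_lit 1) (nat_lit 4) (nat_lit 2) (nat_lit 161) (nat_lit 18688000) w13057 = true := by decide +kernel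
theorem cw13058 : wchk (nat_lit 5) [w11764] [] (nat_lit 0) (nat_lit 1) (nat_lit 1) (nat_lit 2) (nat_lit 33554497) (nat_lit 23153664) w13058 = true := by decide +kernel
theorem cw13059 : wchk (nat_lit 5) [] [l188] (nat_lit 2) (nat_lit 0) (nat_lit 1) (nat_lit 0) (nat_lit 5802752) (nat_lit 0) w13059 = true := by decide +kernel
theorem cw13060 : wchk (nat_lit 5) [w1730] [] (nat_lit 2) (nat_lit 0) (nat_lit 1) (nat_lit 2) (nat_lit 23225344) (nat_lit 33554465) w13060 = true := by decide +kernel
theorem cl3007 : lchk (nat_lit 5) [w10148, w13055, w80, w281, w92, w2740, w216, w3299, w105, w6725, w88, w6006, w13059, w13060, w4955, w4954, w13058, w13056, w13057] (nat_lit 10265600) .nil (.nod (nat_lit 7770684137517519845497558552509909551787411022084207003390552403174489506035995674633) (.nod (nat_lit 126356852729800689533307784617601069085030314065754690969958764569) (.nod (nat_lit 4039930261407054669316254905454880561221292072) .nil .nil (.dwn (nat_lit 3341037015492849454114333240901715423784370522112) (nat_lit 4909212672))) .nil (.nod (nat_lit 423765740134389183247888050361502837400860645432) .nil (.nod (nat_lit 1136895983602374963688446174192345414656223687731109529413579692077205084030889587460096)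 (.opn (nat_lit 9094067766158961238667552545981476061053260961605350839646681257446117014603050484582400)) .dup .dup) (.dwn (nat_lit 1136895983602374963688446174192345414656223687731109529413579692077205084030889587460096) (nat_lit 4909212672)))) (.nod (nat_lit 2370717971677672799940834656318681705620522753058417674917706706426782972898798159960) .nil (.dwn (nat_lit 145264073529454241767218861389181069025758194160037219830280996370288109751508183457912) (nat_lit 627262528)) .dup) .nil) .nil (.nod (nat_lit 28703944627594066998380226673579973188322246840119586169966963217781226579111178141696) .nil (.dwn (nat_lit 45622083159502580999309929363282355986375073252764442825798969069016602686521344) (nat_lit 90391616)) (.dwn (nat_lit 45622083159502580999309929363282355986375073252764442825798969069016602686521344) (nat_lit 90391616))) l3007 = true := by decide +kernel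
theorem cw13061 : wchk (nat_lit 5) [] [l3007] (nat_lit 33) (nat_lit 1) (nat_lit 4) (nat_lit 0) (nat_lit 22597888) (nat_lit 0) w13061 = true := by decide +kernel
theorem cw13062 : wchk (nat_lit 5) [w1326, w281] [] (nat_lit 2) (nat_lit 1) (nat_lit 4) (nat_lit 2) (nat_lit 9147392) (nat_lit 18688004) w13062 = true := by decide +kernel
theorem cw13063 : wchk (nat_lit 5) [w1325, w281] [] (nat_lit 2) (nat_lit 1) (nat_lit 4) (nat_lit 2) (nat_lit 9204736) (nat_lit 18688004) w13063 = true := by decide +kernel
theorem cw13064 : wchk (nat_lit 5) [w461, w281] [] (nat_lit 1) (nat_lit 2) (nat_lit 3) (nat_lit 2) (nat_lit 89230336) (nat_lit 22816772) w13064 = true := by decide +kernel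
theorem cw13065 : wchk (nat_lit 5) [w461, w281] [] (nat_lit 1) (nat_lit 2) (nat_lit 3) (nat_lit 2) (nat_lit 88771584) (nat_lit 22816772) w13065 = true := by decide +kernel
theorem cw13066 : wchk (nat_lit 5) [w461, w281] [] (nat_lit 1) (nat_lit 2) (nat_lit 3) (nat_lit 2) (nat_lit 76385280) (nat_lit 22816772) w13066 = true := by decide +kernel
theorem cl3008 : lchk (nat_lit 5) [w8449, w2519, w2799, w13051, w42, w281, w7084, w5874, w5875, w2015, w6714, w10378, w13064, w13065, w1449, w13066, w13054, w581, w1326, w13061, w7076, w13062, w7311, w7559, w13063, w495, w497, w2405, w12634, w13052, w13053] (nat_lit 23282688) .nil (.nod (nat_lit 145262403460151171955730646885207824679224253695545627585454733625494049416978178148377) (.nod (nat_lit 1126785157501659513599648773920293086543434937315854921446601205792) (.nod (nat_lit 15762461799190038275089100411620558433988270144) .nil .nil (.dwn (nat_lit 3349895986522965744157788550767366896832299304960) (nat_lit 4922229760))) .nil (.nod (nat_lit 15762461799190038275089100411620558433988270144) .nil (.nod (nat_lit 1139910535232986959287753815764554957178356359658442233300565657073667531313694426695680) (.opn (nat_lit 9097082317789573234267023606725034565850455148909626270405693320398235196786034132551680))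 .dup .dup) (.dwn (nat_lit 1139910535232986959287753815764554957178356359658442233300565657073667531313694426695680) (nat_lit 4922229760)))) (.nod (nat_lit 20694222311649351769263860156988226229420791934577609215470126016879928317020684836944) .nil (.dwn (nat_lit 5391913289201748653435119097751590305254803755058903173190075040829124136832285968504) (nat_lit 627262528)) (.dwn (nat_lit 5391913289201748653435119097751590305254803755058903173190075040829124136832285968504) (nat_lit 627262528))) (.nod (nat_lit 20558110100255957428483241152264267806146570515407959496505338915621664944852552853648) (.dwn (nat_lit 145264081866484666853972513921037281122705059520881911821878384274319736589365106202800) (nat_lit 627262528)) .nil .nil)) .nil (.nod (nat_lit 5362045414535518364722692167882611288310868971179238092030227117938184970059368523984) (.dwn (nat_lit 20905058400406084894938167424446335743762432065263254366132493383953147005132644755680) (nat_lit 90391616)) .nil .nil) l3008 = true := by decide +kernel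
theorem cw13067 : wchk (nat_lit 5) [] [l3008] (nat_lit 17) (nat_lit 2) (nat_lit 2) (nat_lit 0) (nat_lit 5820672) (nat_lit 0) w13067 = true := by decide +kernel
theorem cl3009 : lchk (nat_lit 5) [w5721, w1207, w1, w535, w797, w7076, w4038, w5157, w12634, w3958, w181, w13041, w2548, w8342, w34, w1919, w1690, w13050, w6740, w13067] (nat_lit 89230336) (.nod (nat_lit 11225066504347604073500142222774109768594523857217671256404070320144) (.nod (nat_lit 144903846192510378880314538471759648108375187896131305708194003488081258630510588106792) .nil (.nod (nat_lit 61780095794998412770313497927775294374871645077559844704886102104064) .nil .nil (.dwn (nat_lit 493139242469408649508369765517383831844324913161669532717107506255872) (nat_lit 39280806912))) (.dwn (nat_lit 1139641615979595360623163956749697672870108476082667568984856228044717343416252293650432) (nat_lit 4921068544))) (.nod (nat_lit 145235848049781753571415212191485746037064438082224596407001792835164704386083342948392) .nil (.dwn (nat_lit 1139641615979595360623163956749697672866759370378802576170019171275276398056561453504512) (nat_lit 4921068544)) (.dwn (nat_lit 1139641615979595360623163956749697672866759370378802576170019171275276398056561453504512)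 (nat_lit 4921068544))) (.dwn (nat_lit 145235848049781753571421511539269682928651349706948866255577121860525350272348579862568) (nat_lit 626101248))) (.nod (nat_lit 15840519851902766191125542881877447110017099848) .nil .nil (.dwn (nat_lit 14825841389887493573160886626111384329104347216) (nat_lit 23282732))) .nil (.nod (nat_lit 4391188776355394923274516248982973625105143912) .nil (.nod (nat_lit 5391915141875176450201949619570236669496046758173269464227704834931246492523588440184) (.dwn (nat_lit 1637205566542508819022864790252883927790176224490187307987718170483605758829771261036688) (nat_lit 627262540)) .nil .nil) (.nod (nat_lit 5391915141875176450201949619570236669496046758173269464227704834931246492523588440184) (.dwn (nat_lit 1637205566542508819022864790252883927790176224490187307987718170483605758829771261036688) (nat_lit 627262540)) .nil .nil)) l3009 = true := by decide +kernel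
theorem cw13068 : wchk (nat_lit 5) [] [l3009] (nat_lit 2201) (nat_lit 1) (nat_lit 1) (nat_lit 0) (nat_lit 22597888) (nat_lit 0) w13068 = true := by decide +kernel
theorem cw13069 : wchk (nat_lit 5) [w162, w1312] [] (nat_lit 145) (nat_lit 0) (nat_lit 1) (nat_lit 2) (nat_lit 23225344) (nat_lit 627255300) w13069 = true := by decide +kernel
theorem cw13070 : wchk (nat_lit 5) [w7552, w16] [] (nat_lit 1) (nat_lit 1) (nat_lit 4) (nat_lit 2) (nat_lit 89223168) (nat_lit 13742084) w13070 = true := by decide +kernel
theorem cw13071 : wchk (nat_lit 5) [w1125, w16] [] (nat_lit 1) (nat_lit 1) (nat_lit 1) (nat_lit 2) (nat_lit 90391552) (nat_lit 22630404) w13071 = true := by decide +kernel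
theorem cw13072 : wchk (nat_lit 5) [w1189, w16] [] (nat_lit 1) (nat_lit 1) (nat_lit 2) (nat_lit 2) (nat_lit 627205120) (nat_lit 22114308) w13072 = true := by decide +kernel
theorem cw13073 : wchk (nat_lit 5) [w69, w1599] [] (nat_lit 0) (nat_lit 0) (nat_lit 4) (nat_lit 2) (nat_lit 13283328) (nat_lit 10072068) w13073 = true := by decide +kernel
theorem cw13074 : wchk (nat_lit 5) [w2643, w16] [] (nat_lit 1) (nat_lit 1) (nat_lit 4) (nat_lit 2) (nat_lit 85567488) (nat_lit 13742084) w13074 = true := by decide +kernel
theorem cw13075 : wchk (nat_lit 5) [w1312, w16] [] (nat_lit 1) (nat_lit 1) (nat_lit 1) (nat_lit 2) (nat_lit 627255296) (nat_lit 22630404) w13075 = true := by decide +kernel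
theorem cw13076 : wchk (nat_lit 5) [w1599] [] (nat_lit 1) (nat_lit 1) (nat_lit 4) (nat_lit 2) (nat_lit 205) (nat_lit 10072064) w13076 = true := by decide +kernel
theorem cw13077 : wchk (nat_lit 5) [] [l3004] (nat_lit 145) (nat_lit 3) (nat_lit 4) (nat_lit 0) (nat_lit 1229639936) (nat_lit 0) w13077 = true := by decide +kernel
theorem cw13078 : wchk (nat_lit 5) [] [l3004] (nat_lit 145) (nat_lit 3) (nat_lit 1) (nat_lit 0) (nat_lit 1227417856) (nat_lit 0) w13078 = true := by decide +kernel
theorem cw13081 : wchk (nat_lit 5) [w3666, w16] [] (nat_lit 17) (nat_lit 1) (nat_lit 1) (nat_lit 2) (nat_lit 626796544) (nat_lit 22630404) w13081 = true := by decide +kernel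
theorem cl3010 : lchk (nat_lit 5) [w7864, w3953, w7436, w3973, w1599, w12203, w2839, w682, w12168, w16, w12966, w12968, w13068, w13069, w2934, w284, w12969, w7401, w2405, w12970, w12975, w12995, w12996, w13036, w2037, w13037, w11108, w6758, w11935, w13038, w5211, w7410, w13039, w7366, w3921, w11111, w13040, w13070, w2548, w8342, w13071, w5721, w13072, w13073, w13074, w13075, w13076, w13077, w13078, w13081] (nat_lit 22823936) (.nod (nat_lit 15142905950631049484342995592740570029639557145) (.nod (nat_lit 284106853369346748492129494820389019562248629457570560086394495009) (.nod (nat_lit 144915469865596377622536671663842183846256205459272828890988213302302868010154961625161) .nil (.nod (nat_lit 292296104666672126109570114357954116202838924535755134383544502360) .nil (.nod (nat_lit 286536788499234021868635294478893451026922983509917972964483614792) (.dwn (nat_lit 72754456590284640710344796960108845965439607329084056073899150995335406348519780377780336) (nat_lit 314159416320)) .nil .nil) .dup) (.nod (nat_lit 5391916994548604247552652944646538088013959197892602438171065018284585251581006104712) (.dwn (nat_lit 20800467574713229719014618061405958571350626908503190126382255249511542548731284326576)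 (nat_lit 90391644)) .nil .nil)) (.nod (nat_lit 5028385414546265306539661155433022800920470545478727140341792345288801379113585936592) .nil (.dwn (nat_lit 1139804295527943364790976822362510852090396023559781673536736666106238605389653297629184) (nat_lit 4921771008)) (.dwn (nat_lit 1139804295527943364790976822362510852090396023559781673536736666106238605389653297629184) (nat_lit 4921771008))) (.nod (nat_lit 5240867603643596118261270072211666552607747633020603044208869524688971695022126326008) (.dwn (nat_lit 1139910564875761804102488670538336805143396459036106913493885010131365946341266236803360) (nat_lit 4921771008)) .nil .nil)) .nil (.nod (nat_lit 292297460520646969621878091697245096696112722522150533688674769208) (.dwn (nat_lit 20933290364435570387186497496509772113633807429155276808494299741866001255786871163232) (nat_lit 90391732)) .nil .nil)) .nil .nil (.dwn (nat_lit 15845501585754488730247841855512044702601267584) (nat_lit 23282884)) l3010 = true := by decide +kernel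
theorem cw13082 : wchk (nat_lit 5) [] [l3010] (nat_lit 1681) (nat_lit 1) (nat_lit 0) (nat_lit 0) (nat_lit 9820492032) (nat_lit 0) w13082 = true := by decide +kernel
theorem cw13083 : wchk (nat_lit 5) [w710, w2934] [] (nat_lit 1) (nat_lit 1) (nat_lit 1) (nat_lit 2) (nat_lit 22644736) (nat_lit 22121476) w13083 = true := by decide +kernel
theorem cw13084 : wchk (nat_lit 5) [] [l2019] (nat_lit 17) (nat_lit 1) (nat_lit 0) (nat_lit 0) (nat_lit 156801280) (nat_lit 0) w13084 = true := by decide +kernel
theorem cw13085 : wchk (nat_lit 5) [] [l2019] (nat_lit 17) (nat_lit 2) (nat_lit 0) (nat_lit 0) (nat_lit 156557568) (nat_lit 0) w13085 = true := by decide +kernel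
theorem cw13086 : wchk (nat_lit 5) [w3352, w2934] [] (nat_lit 1) (nat_lit 1) (nat_lit 1) (nat_lit 2) (nat_lit 23225344) (nat_lit 22121476) w13086 = true := by decide +kernel
theorem cw13087 : wchk (nat_lit 5) [w2994, w3898] [] (nat_lit 0) (nat_lit 0) (nat_lit 2) (nat_lit 2) (nat_lit 23282688) (nat_lit 22293508) w13087 = true := by decide +kernel
theorem cw13088 : wchk (nat_lit 5) [w2326, w3898] [] (nat_lit 0) (nat_lit 0) (nat_lit 2) (nat_lit 2) (nat_lit 23275520) (nat_lit 22293508) w13088 = true := by decide +kernel
theorem cw13089 : wchk (nat_lit 5) [w2997, w3898] [] (nat_lit 0) (nat_lit 0) (nat_lit 2) (nat_lit 2) (nat_lit 23153664) (nat_lit 22293508) w13089 = true := by decide +kernel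
theorem cw13090 : wchk (nat_lit 5) [w1318, w3898] [] (nat_lit 0) (nat_lit 0) (nat_lit 2) (nat_lit 2) (nat_lit 23225344) (nat_lit 22293508) w13090 = true := by decide +kernel
theorem cw13091 : wchk (nat_lit 5) [w497, w37] [] (nat_lit 0) (nat_lit 1) (nat_lit 2) (nat_lit 2) (nat_lit 22250496) (nat_lit 23225348) w13091 = true := by decide +kernel
theorem cw13092 : wchk (nat_lit 5) [w5105, w2934] [] (nat_lit 0) (nat_lit 0) (nat_lit 1) (nat_lit 2) (nat_lit 23225344) (nat_lit 22121476) w13092 = true := by decide +kernel
theorem cw13093 : wchk (nat_lit 5) [w1227, w37] [] (nat_lit 0) (nat_lit 1) (nat_lit 3) (nat_lit 2) (nat_lit 22228992) (nat_lit 22709252) w13093 = true := by decide +kernel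
theorem cw13094 : wchk (nat_lit 5) [w7230, w37] [] (nat_lit 0) (nat_lit 1) (nat_lit 1) (nat_lit 2) (nat_lit 21777408) (nat_lit 23282692) w13094 = true := by decide +kernel
theorem cw13095 : wchk (nat_lit 5) [] [l836] (nat_lit 17) (nat_lit 1) (nat_lit 4) (nat_lit 0) (nat_lit 21451008) (nat_lit 0) w13095 = true := by decide +kernel
theorem cl3011 : lchk (nat_lit 5) [w3766, w181, w16, w8342, w11320, w13095, w1, w1554, w1325, w1326, w581] (nat_lit 17519616) (.nod (nat_lit 22835971930636898042570565930258489009807722504) (.nod (nat_lit 19598617016356857797221980424118362882639522479691863992960372306888518072825168701440) .nil (.dwn (nat_lit 143929426118803518342807529127611232856785689360116426751036573843992606201149472024576) (nat_lit 621499392)) .dup) (.nod (nat_lit 19598617016356857797221980424118362882581927320725221388290612689317237672558976215040) .nil (.opn (nat_lit 143929426118803518342807529127611232856362718791817058416835700058870821130367682390016)) .dup) (.dwn (nat_lit 19598617016356857797221980424118362882639522479691863992963494546712332167454655948800) (nat_lit 84628480))) .nil .nil (.nod (nat_lit 12196422713534126268961126925591412963012509696) (.nod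 (nat_lit 1115086598322640181284416806692096147710971115301466436065365590016) .nil (.dwn (nat_lit 7671586701681445467838010698484361882983847254797411809831956289568) (nat_lit 611077136)) (.dwn (nat_lit 7671586701681445467838010698484361882983847254797411809831956289568) (nat_lit 611077136))) .nil (.nod (nat_lit 5285667099801156805101704672217288621366209223526435536100742509328929837220817272832) (.dwn (nat_lit 144141912013247704742917821260493315281733691325303576203668952564586210858326197438544) (nat_lit 621499392)) .nil .nil)) l3011 = true := by decide +kernel
theorem cw13096 : wchk (nat_lit 5) [] [l3011] (nat_lit 4) (nat_lit 2) (nat_lit 4) (nat_lit 0) (nat_lit 22597888) (nat_lit 0) w13096 = true := by decide +kernel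
theorem cw13097 : wchk (nat_lit 5) [w13096, w37] [] (nat_lit 0) (nat_lit 1) (nat_lit 1) (nat_lit 2) (nat_lit 23282688) (nat_lit 23282692) w13097 = true := by decide +kernel
theorem cw13098 : wchk (nat_lit 5) [w13096, w37] [] (nat_lit 0) (nat_lit 1) (nat_lit 1) (nat_lit 2) (nat_lit 23275520) (nat_lit 23282692) w13098 = true := by decide +kernel
theorem cw13099 : wchk (nat_lit 5) [w8948, w37] [] (nat_lit 0) (nat_lit 1) (nat_lit 2) (nat_lit 2) (nat_lit 22121472) (nat_lit 23225348) w13099 = true := by decide +kernel
theorem cw13100 : wchk (nat_lit 5) [w8449, w37] [] (nat_lit 0) (nat_lit 1) (nat_lit 2) (nat_lit 2) (nat_lit 21712896) (nat_lit 23225348) w13100 = true := by decide +kernel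
theorem cw13101 : wchk (nat_lit 5) [w16, w3898] [] (nat_lit 0) (nat_lit 0) (nat_lit 2) (nat_lit 2) (nat_lit 23225344) (nat_lit 22293508) w13101 = true := by decide +kernel
theorem cw13102 : wchk (nat_lit 5) [] [l274] (nat_lit 17) (nat_lit 1) (nat_lit 0) (nat_lit 0) (nat_lit 5806336) (nat_lit 0) w13102 = true := by decide +kernel
theorem cw13103 : wchk (nat_lit 5) [w3973, w34] [] (nat_lit 145) (nat_lit 0) (nat_lit 1) (nat_lit 2) (nat_lit 22293504) (nat_lit 23282692) w13103 = true := by decide +kernel
theorem cl3012 : lchk (nat_lit 5) [w3958, w8783, w2740, w149, w8249, w2916, w8332, w8380, w144, w5943, w11319, w7359, w2555, w12633, w497, w8342, w11320] (nat_lit 22121472) (.nod (nat_lit 7770685990190947643685629653216758837893485351965694270230187837982482197019755544576) (.nod (nat_lit 20055117601639480963127092570945881189836298353947941789640014644106079350846365583392) .nil (.dwn (nat_lit 3584171823712337703130145471117657854129641278276616778430143052366239136858252711992) (nat_lit 626101248)) .dup) (.nod (nat_lit 912882370337442916982137238777898228434588084971654062440317247552) (.nod (nat_lit 272588415624624337399425024500715859362749661944964736844001990712)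 .nil (.opn (nat_lit 61782255519729896853243943403739693183362489711765674142857505036288)) .dup) .nil (.dwn (nat_lit 272588415624624337399425024500715859362749661944964736844001990712) (nat_lit 626273280))) (.nod (nat_lit 20055117601639480963127092570945881189827654041201656033685053390448612189505405524040) (.dwn (nat_lit 145038312303563175533188372253554175119615729459142915292209753922736937221359029018720) (nat_lit 626101248)) .nil .nil)) .nil .nil (.nod (nat_lit 5363694293886257747053316899103919251984550271045359778825313340371295416555386437632) .nil (.dwn (nat_lit 47474756587299640123664103853562095448972723339724254824867886866906516966039672) (nat_lit 89416768)) .dup) l3012 = true := by decide +kernel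
theorem cw13104 : wchk (nat_lit 5) [] [l3012] (nat_lit 4) (nat_lit 1) (nat_lit 1) (nat_lit 0) (nat_lit 22597888) (nat_lit 0) w13104 = true := by decide +kernel
theorem cw13105 : wchk (nat_lit 5) [w6184, w34] [] (nat_lit 25) (nat_lit 1) (nat_lit 1) (nat_lit 2) (nat_lit 627190784) (nat_lit 23282692) w13105 = true := by decide +kernel
theorem cw13106 : wchk (nat_lit 5) [] [l3012] (nat_lit 0) (nat_lit 3) (nat_lit 4) (nat_lit 0) (nat_lit 3756288) (nat_lit 0) w13106 = true := by decide +kernel
theorem cw13107 : wchk (nat_lit 5) [] [l3012] (nat_lit 0) (nat_lit 3) (nat_lit 4) (nat_lit 0) (nat_lit 3756288) (nat_lit 0) w13107 = true := by decide +kernel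
theorem cw13108 : wchk (nat_lit 5) [] [l3012] (nat_lit 0) (nat_lit 3) (nat_lit 4) (nat_lit 0) (nat_lit 3756288) (nat_lit 0) w13108 = true := by decide +kernel
theorem cw13109 : wchk (nat_lit 5) [] [l1678] (nat_lit 25) (nat_lit 2) (nat_lit 0) (nat_lit 0) (nat_lit 2776064) (nat_lit 0) w13109 = true := by decide +kernel
theorem cw13110 : wchk (nat_lit 5) [w13109, w34] [] (nat_lit 25) (nat_lit 1) (nat_lit 1) (nat_lit 2) (nat_lit 23282688) (nat_lit 23282692) w13110 = true := by decide +kernel
theorem cw13111 : wchk (nat_lit 5) [] [l3012] (nat_lit 0) (nat_lit 3) (nat_lit 4) (nat_lit 0) (nat_lit 3756288) (nat_lit 0) w13111 = true := by decide +kernel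
theorem cw13112 : wchk (nat_lit 5) [] [l1927] (nat_lit 0) (nat_lit 2) (nat_lit 3) (nat_lit 0) (nat_lit 3435520) (nat_lit 0) w13112 = true := by decide +kernel
theorem cw13113 : wchk (nat_lit 5) [w1192, w16] [] (nat_lit 0) (nat_lit 2) (nat_lit 3) (nat_lit 2) (nat_lit 123351040) (nat_lit 21662724) w13113 = true := by decide +kernel
theorem cw13114 : wchk (nat_lit 5) [w7311, w34] [] (nat_lit 145) (nat_lit 0) (nat_lit 1) (nat_lit 2) (nat_lit 23160832) (nat_lit 23282692) w13114 = true := by decide +kernel
theorem cw13115 : wchk (nat_lit 5) [w7558, w34] [] (nat_lit 145) (nat_lit 0) (nat_lit 1) (nat_lit 2) (nat_lit 23160832) (nat_lit 23282692) w13115 = true := by decide +kernel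
theorem cw13116 : wchk (nat_lit 5) [w7357, w34] [] (nat_lit 145) (nat_lit 0) (nat_lit 1) (nat_lit 2) (nat_lit 7032832) (nat_lit 23282692) w13116 = true := by decide +kernel
theorem cw13117 : wchk (nat_lit 5) [w7424, w34] [] (nat_lit 145) (nat_lit 0) (nat_lit 1) (nat_lit 2) (nat_lit 21727232) (nat_lit 23282692) w13117 = true := by decide +kernel
theorem cw13118 : wchk (nat_lit 5) [w12966, w34] [] (nat_lit 209) (nat_lit 1) (nat_lit 1) (nat_lit 2) (nat_lit 21777408) (nat_lit 23282692) w13118 = true := by decide +kernel
theorem cw13119 : wchk (nat_lit 5) [w162] [] (nat_lit 1) (nat_lit 2) (nat_lit 3) (nat_lit 2) (nat_lit 88764416) (nat_lit 22816768) w13119 = true := by decide +kernel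
theorem cw13120 : wchk (nat_lit 5) [w13119, w34] [] (nat_lit 145) (nat_lit 0) (nat_lit 1) (nat_lit 2) (nat_lit 23282688) (nat_lit 23282692) w13120 = true := by decide +kernel
theorem cw13121 : wchk (nat_lit 5) [w8759, w34] [] (nat_lit 0) (nat_lit 1) (nat_lit 1) (nat_lit 2) (nat_lit 22644736) (nat_lit 23282692) w13121 = true := by decide +kernel
theorem cl3013 : lchk (nat_lit 5) [w1227, w337, w932, w431, w366, w871, w2629, w2538, w2628, w7541, w144, w15, w220, w1335, w2621, w2620, w8331, w8380, w1588, w149, w521, w7573, w2534, w2831, w13014, w2555, w495, w8645, w2548, w1639, w1695] (nat_lit 22293504) (.nod (nat_lit 1555323250771307126371681144457269268599425520390754829106308710490) (.nod (nat_lit 20919975200509992916312935790117815793835034545631905746362659075849360795376209580072) .nil (.dwn (nat_lit 144887249017607458926107598163528092210955559859564866111197567920263058179572818956360) (nat_lit 626273280)) (.dwn (nat_lit 144887249017607458926107598163528092210955559859564866111197567920263058179572818956360) (nat_lit 626273280))) (.nod (nat_lit 20556443620507653974660010703348790303875065396697805089722761503326715909425316974688) .nil (.nod (nat_lit 145234194538747444688276981876756195980390858204299238685851841857354673921764339542136)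 .nil (.dwn (nat_lit 1139681455868986708520846076482085289299471828421673558665981921848165429042203750586368) (nat_lit 4921240576)) (.dwn (nat_lit 1139681455868986708520846076482085289299471828421673558665981921848165429042203750586368) (nat_lit 4921240576))) (.dwn (nat_lit 5391914215538462559343163638511262132827899734955102507543647214457601867748765886600) (nat_lit 626273280))) (.nod (nat_lit 20827030279984270054230207103429434017632045464978758223016354497279789478891767681064) (.dwn (nat_lit 145235861944832462049345435609926256967774041809505396196250964489043289662692302055624) (nat_lit 626273280)) .nil .nil)) .nil .nil (.nod (nat_lit 801068308144910988511369432) .nil (.dwn (nat_lit 17035610069608128229584779884842185854413396590566058836776195331122021678304087507354) (nat_lit 90319992)) .dup) l3013 = true := by decide +kernel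
theorem cw13122 : wchk (nat_lit 5) [] [l3013] (nat_lit 0) (nat_lit 1) (nat_lit 2) (nat_lit 0) (nat_lit 5820672) (nat_lit 0) w13122 = true := by decide +kernel
theorem cw13123 : wchk (nat_lit 5) [w1192, w16] [] (nat_lit 1) (nat_lit 2) (nat_lit 3) (nat_lit 2) (nat_lit 22709248) (nat_lit 21662724) w13123 = true := by decide +kernel
theorem cw13124 : wchk (nat_lit 5) [w8397, w16] [] (nat_lit 1) (nat_lit 2) (nat_lit 4) (nat_lit 2) (nat_lit 81875968) (nat_lit 17476612) w13124 = true := by decide +kernel
theorem cw13125 : wchk (nat_lit 5) [w12564, w34] [] (nat_lit 0) (nat_lit 1) (nat_lit 1) (nat_lit 2) (nat_lit 19490816) (nat_lit 23282692) w13125 = true := by decide +kernel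
theorem cw13126 : wchk (nat_lit 5) [] [l2991] (nat_lit 209) (nat_lit 3) (nat_lit 4) (nat_lit 0) (nat_lit 3870976) (nat_lit 0) w13126 = true := by decide +kernel
theorem cw13127 : wchk (nat_lit 5) [w489, w1599] [] (nat_lit 1) (nat_lit 1) (nat_lit 4) (nat_lit 2) (nat_lit 84571136) (nat_lit 6466564) w13127 = true := by decide +kernel
theorem cw13128 : wchk (nat_lit 5) [w489, w2839] [] (nat_lit 1) (nat_lit 1) (nat_lit 2) (nat_lit 2) (nat_lit 88771584) (nat_lit 21777412) w13128 = true := by decide +kernel
theorem cw13129 : wchk (nat_lit 5) [w3666, w16] [] (nat_lit 17) (nat_lit 2) (nat_lit 4) (nat_lit 2) (nat_lit 618804224) (nat_lit 17476612) w13129 = true := by decide +kernel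
theorem cl3014 : lchk (nat_lit 5) [w13103, w13111, w13126, w8757, w7878, w7424, w2051, w8449, w8419, w6613, w2839, w8783, w2936, w5567, w2861, w16, w3408, w13104, w13118, w2934, w13120, w284, w8128, w13105, w12634, w3958, w13106, w13107, w13108, w13110, w12522, w12619, w5212, w12621, w13112, w13113, w13114, w13115, w8417, w13116, w13117, w8759, w458, w7083, w12628, w13121, w13122, w8746, w13123, w13124, w13125, w7177, w13127, w13128, w13129] (nat_lit 23282688) (.nod (nat_lit 38425935285527177085236146607636895634472114227209) (.nod (nat_lit 292295709209262796748296613735058584445502640563318825710228230177) (.nod (nat_lit 272768348745869196201263714521184882939054544407203424564885758017) (.nod (nat_lit 271958652838818197475238387962603934930790769384174485614926254177) (.nod (nat_lit 5375312408951973105128732486600824170415042609401980325142000295939197937388419747936) .nil (.dwn (nat_lit 5362035224831665480897493839082838978827430511220803990301149990482821657475676538944) (nat_lit 314159875072)) .dup) (.nod (nat_lit 5375316230090917937400730529049097026776134559887464438298775783111386802437860386904) .nil (.nod (nat_lit 5166157621330965810308521741518498028703185808005163602196986047886233792999603210376)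 .nil (.nod (nat_lit 5390256072820584183753920694497032188558673004730284697531010941505539029157656612984) (.dwn (nat_lit 20704191547364580150193202005788806462593935213894664651623810333048631705530687248536) (nat_lit 20105369175040)) .nil .nil) .dup) (.nod (nat_lit 5121343303785982747383206362101748206163423127993670711499139871376588181371527653576) (.dwn (nat_lit 20933277395721575801045670722354896531089852568791705084935079311095532232160242469096) (nat_lit 90391556)) .nil .nil)) (.nod (nat_lit 5044990926479610346631659842019403311805642605826249052806222151010859476153839028496) (.dwn (nat_lit 20933285732752004830705471848517230145558796575925367743169616881435140463518411032888) (nat_lit 314159875232)) .nil .nil)) .nil (.nod (nat_lit 284288682175315694472796064321363995785433845651587762220148380000) (.dwn (nat_lit 20933294996119139873108906165583099487729212542253594040300292151388783734046547413384) (nat_lit 90391752)) .nil .nil)) .nil (.dwn (nat_lit 291578255312213305298135100652512041565640547559858452671404345776) (nat_lit 7103267844))) .nil (.dwn (nat_lit 709254643165442328067086360462174343945624870860778126990727482607624) (nat_lit 56495391748))) .nil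 .nil (.dwn (nat_lit 307342236554073031682371199266575788017660585216008) (nat_lit 451598828548)) l3014 = true := by decide +kernel
theorem cw13130 : wchk (nat_lit 5) [] [l3014] (nat_lit 111761) (nat_lit 1) (nat_lit 1) (nat_lit 0) (nat_lit 628295782656) (nat_lit 0) w13130 = true := by decide +kernel
theorem cw13131 : wchk (nat_lit 5) [w175, w3898] [] (nat_lit 1) (nat_lit 1) (nat_lit 3) (nat_lit 2) (nat_lit 88893440) (nat_lit 22228996) w13131 = true := by decide +kernel
theorem cw13132 : wchk (nat_lit 5) [w3898] [] (nat_lit 1) (nat_lit 1) (nat_lit 3) (nat_lit 2) (nat_lit 209) (nat_lit 22228992) w13132 = true := by decide +kernel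
theorem cw13133 : wchk (nat_lit 5) [w6184] [] (nat_lit 18) (nat_lit 1) (nat_lit 1) (nat_lit 2) (nat_lit 626667520) (nat_lit 337) w13133 = true := by decide +kernel
theorem cw13134 : wchk (nat_lit 5) [w162] [] (nat_lit 2) (nat_lit 1) (nat_lit 1) (nat_lit 2) (nat_lit 21662720) (nat_lit 337) w13134 = true := by decide +kernel
theorem cw13135 : wchk (nat_lit 5) [w220, w13134] [] (nat_lit 0) (nat_lit 1) (nat_lit 2) (nat_lit 2) (nat_lit 6531072) (nat_lit 23282692) w13135 = true := by decide +kernel
theorem cw13136 : wchk (nat_lit 5) [] [l152] (nat_lit 145) (nat_lit 2) (nat_lit 3) (nat_lit 0) (nat_lit 1227254784) (nat_lit 0) w13136 = true := by decide +kernel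
theorem cl3015 : lchk (nat_lit 5) [w257, w11228, w1379, w220, w67, w91, w389, w9249, w13, w7723, w345, w13136] (nat_lit 579630080) (.nod (nat_lit 1134793992340906407223451832739956380168537143882706775780947871761) (.nod (nat_lit 2623828525391632559283359978900805180901007132660914681020810) (.nod (nat_lit 87661841117959822178384211956130682485103005209201944093125509120) (.nod (nat_lit 20573038942737146130654044488809320423544287322539342223737708406553806319677138272256) .nil (.opn (nat_lit 142003837022908650359873439241306254741559083265721244733433864809892432880903866869808)) (.dwn (nat_lit 142003837022908650359873439241306254741559083265721244733433864809892432880903866869808) (nat_lit 613184512))) (.nod (nat_lit 2616396363254271318171282238243468331655197311408200422469646379062327551514994802688) .nil (.dwn (nat_lit 18048188731570610903033755627460253687840162256399581924053293591071212239457977851976) (nat_lit 613184512)) .dup) .nil) .nil .nil) .nil (.dwn (nat_lit 2222094014326959806637639965593504282881419399402639079768394) (nat_lit 109868032))) .nil .nil .nil l3015 = true := by decide +kernel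
theorem cw13137 : wchk (nat_lit 5) [] [l3015] (nat_lit 17) (nat_lit 3) (nat_lit 2) (nat_lit 0) (nat_lit 156815616) (nat_lit 0) w13137 = true := by decide +kernel
theorem cw13138 : wchk (nat_lit 5) [w12329, w16] [] (nat_lit 0) (nat_lit 0) (nat_lit 2) (nat_lit 2) (nat_lit 22644736) (nat_lit 21655556) w13138 = true := by decide +kernel
theorem cw13139 : wchk (nat_lit 5) [w13137, w16] [] (nat_lit 145) (nat_lit 1) (nat_lit 4) (nat_lit 2) (nat_lit 4922229760) (nat_lit 13283332) w13139 = true := by decide +kernel
theorem cw13140 : wchk (nat_lit 5) [w12329, w16] [] (nat_lit 0) (nat_lit 0) (nat_lit 2) (nat_lit 2) (nat_lit 18437120) (nat_lit 21655556) w13140 = true := by decide +kernel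
theorem cw13141 : wchk (nat_lit 5) [w12485, w16] [] (nat_lit 0) (nat_lit 0) (nat_lit 4) (nat_lit 2) (nat_lit 9276416) (nat_lit 13283332) w13141 = true := by decide +kernel
theorem cw13142 : wchk (nat_lit 5) [w12968] [] (nat_lit 153) (nat_lit 1) (nat_lit 4) (nat_lit 2) (nat_lit 7032832) (nat_lit 325) w13142 = true := by decide +kernel
theorem cw13143 : wchk (nat_lit 5) [w162, w13134] [] (nat_lit 1) (nat_lit 2) (nat_lit 2) (nat_lit 2) (nat_lit 23275520) (nat_lit 23282692) w13143 = true := by decide +kernel
theorem cw13144 : wchk (nat_lit 5) [w9783, w16] [] (nat_lit 1) (nat_lit 1) (nat_lit 4) (nat_lit 2) (nat_lit 78406656) (nat_lit 13283332) w13144 = true := by decide +kernel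
theorem cl3016 : lchk (nat_lit 5) [w142, w33, w78, w2204, w539, w404, w1246, w1834] (nat_lit 21662720) .nil (.nod (nat_lit 315937898173254428139845593944830756630979961929690251350486548562) (.nod (nat_lit 3829032058585936080771608487555433764200535942214839810654208) .nil .nil (.opn (nat_lit 7854443194746508956908609876502497035721647625471296800478520672256))) (.nod (nat_lit 141115021945089139317331275159977692087083764558560402761823244320) .nil .nil (.dwn (nat_lit 142020436050484998103632380355832040297145787244481818966460801345010351150389979512842) (nat_lit 613256212))) .nil) (.nod (nat_lit 624250141811984810084618975033110314874565765176) .nil (.dwn (nat_lit 20558094352531821153207894551322958683561632379087275861827729287463751630853813305746) (nat_lit 88771584)) .dup) .nil l3016 = true := by decide +kernel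
theorem cw13145 : wchk (nat_lit 5) [] [l3016] (nat_lit 26) (nat_lit 2) (nat_lit 3) (nat_lit 0) (nat_lit 156815616) (nat_lit 0) w13145 = true := by decide +kernel
theorem cw13146 : wchk (nat_lit 5) [] [l1545] (nat_lit 2) (nat_lit 1) (nat_lit 1) (nat_lit 0) (nat_lit 20261120) (nat_lit 0) w13146 = true := by decide +kernel
theorem cw13147 : wchk (nat_lit 5) [] [l1549] (nat_lit 2) (nat_lit 2) (nat_lit 1) (nat_lit 0) (nat_lit 21408000) (nat_lit 0) w13147 = true := by decide +kernel
theorem cw13148 : wchk (nat_lit 5) [] [l1549] (nat_lit 2) (nat_lit 3) (nat_lit 1) (nat_lit 0) (nat_lit 21408000) (nat_lit 0) w13148 = true := by decide +kernel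
theorem cw13149 : wchk (nat_lit 5) [] [l1599] (nat_lit 26) (nat_lit 0) (nat_lit 1) (nat_lit 1) (nat_lit 20648192) (nat_lit 0) w13149 = true := by decide +kernel
theorem cl3019 : lchk (nat_lit 5) [w429, w1120, w39, w12599, w6742, w2636, w3760, w1540, w12237, w2632, w12598, w819] (nat_lit 23153664) (.nod (nat_lit 22836015486779863922693891603391481710922170368) .nil (.nod (nat_lit 20083336596954971868146056238540657496827334211961469599940764907106788694821199849480) .nil (.dwn (nat_lit 144082147547477113310234902350386172258260584388282087719087069243474992442126264100880) (nat_lit 621499412)) .dup) (.nod (nat_lit 4209991012571475797919715198574996621807498069826185867920283407912291458693730592816) (.dwn (nat_lit 144400871294291466486152310116937529626797436245062822390236336836440053987854400153656) (nat_lit 621499412)) .nil .nil)) .nil .nil (.nod (nat_lit 11418012167060701933546972172177954849245102080) (.opn (nat_lit 20083345860322110853441690124219458191859962613076013288770658083697098374896537741400)) .nil (.nod (nat_lit 20083345860322110853441690124219458191871380463949232070179373364452938048021588256856) .nil (.opn (nat_lit 145234182496370164007392657825373755077275246366897774152473998789213255321317001041920))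 .dup)) l3019 = true := by decide +kernel
theorem cl3020 : lchk (nat_lit 5) [w429, w16, w1379, w39, w5459, w6742, w2637, w2492, w1540, w2650, w2632, w12602, w819] (nat_lit 23153664) (.nod (nat_lit 22836015486779863922257542413170388394968088576) .nil (.nod (nat_lit 19020940472855740181016538896814425664260530798014708124380692311191497477154633066512) .nil (.dwn (nat_lit 144082148473813827216301236615823903897748773580749630163116808126174485133464990574616) (nat_lit 621499416)) .dup) (.nod (nat_lit 4540331021778116526990149001718702110860672117519221195132658844516114604675873329208) (.dwn (nat_lit 144400872220628180384706530413073333526182061050976156835362924271202540430647966885952) (nat_lit 621499416)) .nil .nil)) .nil .nil (.nod (nat_lit 11418012167060701933546972172177954849245102080) (.opn (nat_lit 4540331021778116526990149001718702110860672117519221195132658842154931363241050722360)) .nil (.nod (nat_lit 20083346786658824751971253512787338261363225299720120176311019342310274357009589905504) .nil (.dwn (nat_lit 145234182496370164015265818634459792752060773896404512807039281050057504434553289349120) (nat_lit 627133440)) (.opn (nat_lit 145234182496370164015265818634459792752060773896404512807039281050057504434553289349120))))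 l3020 = true := by decide +kernel
theorem cl3021 : lchk (nat_lit 5) [w2743, w33, w2722, w539, w13001, w864, w1825] (nat_lit 15304704) .nil (.nod (nat_lit 234702999486206702181810684652193389297618645597256622662383304704) (.nod (nat_lit 210625098059456675103658802195254651577367196858821880153165004800) .nil .nil (.nod (nat_lit 421463177303605154938677450239934027311213445120) (.opn (nat_lit 1138062960362463197667693570682027853195312739240749586454677102602511770938213492002816)) .nil (.dwn (nat_lit 1138062960362463197667693570682027853195324157091622805236085817883267610611338542518272) (nat_lit 4914251776)))) (.nod (nat_lit 2121660386560698098176496825044191893415921393223902088810520) .nil (.dwn (nat_lit 145234186201717019609279865721521275444152710596711459323395320901769772548746742417448) (nat_lit 619284480)) (.opn (nat_lit 145234186201717019609279865721521275444152710596711459323395320901769772548746742417448))) .nil) (.nod (nat_lit 149975372034159612598141913389095807649708099490299863477669931723214053167727808348160) .nil (.dwn (nat_lit 46548419873401110560275535973492538957145882829219180005119320565974266098704432) (nat_lit 5177454616)) .dup) .nil l3021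 = true := by decide +kernel
theorem cw13155 : wchk (nat_lit 5) [] [l3021] (nat_lit 17) (nat_lit 3) (nat_lit 4) (nat_lit 0) (nat_lit 5820672) (nat_lit 0) w13155 = true := by decide +kernel
theorem cw13164 : wchk (nat_lit 5) [] [l1689] (nat_lit 0) (nat_lit 3) (nat_lit 2) (nat_lit 0) (nat_lit 1532416) (nat_lit 0) w13164 = true := by decide +kernel
theorem cl3024 : lchk (nat_lit 5) [w13148, w972, w15, w220, w144, w659, w949, w4566, w86, w6182, w6183, w11288, w13149, w8380, w13145, w149, w2740, w1825, w2743, w13146, w6175, w13147, w6171, w6170, w201, w6177, w6176, w42, w6178, w164] (nat_lit 23282688) .nil (.nod (nat_lit 1121835643952001909658608456087460721766466949984947804306835243090) (.nod (nat_lit 1127594953842338278556286937917459596359905291751961657580223201280) .nil .nil (.nod (nat_lit 134275994062350642904825588796668691020142785367088034594028519424) (.opn (nat_lit 210624696324945610367507789356021830633636603032838258279831734272)) .nil .nil)) (.nod (nat_lit 25795623438658526971914410236139510008651574374339472893534942349999873613638273683480) .nil (.dwn (nat_lit 204368443800098862125576780220211151865205519557233789352758692064475039928253262760032) (nat_lit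 613134388)) .dup) (.nod (nat_lit 20933266279681009018677771432789590893996132290244812484474406154958270240372236685456) (.dwn (nat_lit 145264080013811239060129859943865396296881861199363102375317931393236676024501416437944) (nat_lit 627262464)) .nil .nil)) (.nod (nat_lit 15806366391299645438582859558916703203553140928) .nil (.nod (nat_lit 17872244967816293682702615794245158768722316819814612771959393069057213958291483263378) (.dwn (nat_lit 144903868424591512444858842060633770626525504433302559170046813866633752330994976379112) (nat_lit 627262464)) .nil .nil) (.nod (nat_lit 17872244967816293682702615794245158768722316819814612771959393069057213958291483263378) (.dwn (nat_lit 144903868424591512444858842060633770626525504433302559170046813866633752330994976379112) (nat_lit 627262464)) .nil .nil)) .nil l3024 = true := by decide +kernel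
theorem cw13165 : wchk (nat_lit 5) [] [l3024] (nat_lit 17) (nat_lit 3) (nat_lit 0) (nat_lit 0) (nat_lit 5820672) (nat_lit 0) w13165 = true := by decide +kernel
theorem cl3031 : lchk (nat_lit 5) [w2627, w164, w15, w220, w144, w659, w949, w201, w1501, w86, w6182, w6183, w11288, w13149, w1835, w149, w2740, w142, w2743, w7241, w6175, w13147, w6171, w6170, w6177, w6176, w11290] (nat_lit 627190784) .nil (.nod (nat_lit 1064152995915281194727754184820782348986329951320120672690857050194) (.nod (nat_lit 1127594953842338278556286937917459596359905291751961657580223201280) .nil .nil (.nod (nat_lit 134275994062350642904825588796668691020480265598437499047314980864) (.opn (nat_lit 20916653357053952789501728348339427204760769571979689996628460396922594641732748728320)) .dup .dup)) (.nod (nat_lit 20662681472877820736160312373096664158443546181055556280976901002624698822249449869336) .nil (.dwn (nat_lit 2573239262090452735210783140948223804651651093681798829730331328516720013693411559528) (nat_lit 895626240)) .dup) (.nod (nat_lit 25642910347015357083675392705923756602726381292146117525009364767050389225978111660176) (.dwn (nat_lit 144995160760419640333759905134009699221670375682336109428894645837494010319005480593592)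 (nat_lit 895626240)) .nil .nil)) (.nod (nat_lit 15806366391299645438582859558916703203553140792) .nil (.dwn (nat_lit 17872244041479579784173052405677278699219053993654735446834880753248967942396769730962) (nat_lit 89223272)) (.dwn (nat_lit 17872244041479579784173052405677278699219053993654735446834880753248967942396769730962) (nat_lit 89223272))) .nil l3031 = true := by decide +kernel
theorem cw13177 : wchk (nat_lit 5) [] [l3031] (nat_lit 17) (nat_lit 3) (nat_lit 0) (nat_lit 0) (nat_lit 5820672) (nat_lit 0) w13177 = true := by decide +kernel
theorem cw13178 : wchk (nat_lit 5) [w13177] [] (nat_lit 0) (nat_lit 1) (nat_lit 4) (nat_lit 2) (nat_lit 23282688) (nat_lit 325) w13178 = true := by decide +kernel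
theorem cw13179 : wchk (nat_lit 5) [w32, w2839] [] (nat_lit 17) (nat_lit 1) (nat_lit 3) (nat_lit 2) (nat_lit 626230272) (nat_lit 21712900) w13179 = true := by decide +kernel
theorem cw13180 : wchk (nat_lit 5) [w11233, w16] [] (nat_lit 17) (nat_lit 1) (nat_lit 4) (nat_lit 2) (nat_lit 626208768) (nat_lit 13283332) w13180 = true := by decide +kernel
theorem cw13181 : wchk (nat_lit 5) [] [l20] (nat_lit 17) (nat_lit 2) (nat_lit 1) (nat_lit 0) (nat_lit 156523520) (nat_lit 0) w13181 = true := by decide +kernel
theorem cw13182 : wchk (nat_lit 5) [] [l45] (nat_lit 1) (nat_lit 0) (nat_lit 4) (nat_lit 0) (nat_lit 4412160) (nat_lit 0) w13182 = true := by decide +kernel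
theorem cw13183 : wchk (nat_lit 5) [w13182, w16] [] (nat_lit 17) (nat_lit 1) (nat_lit 2) (nat_lit 2) (nat_lit 627262464) (nat_lit 21655556) w13183 = true := by decide +kernel
theorem cw13184 : wchk (nat_lit 5) [] [l168] (nat_lit 1) (nat_lit 0) (nat_lit 2) (nat_lit 0) (nat_lit 4508928) (nat_lit 0) w13184 = true := by decide +kernel
theorem cw13185 : wchk (nat_lit 5) [w13184, w16] [] (nat_lit 17) (nat_lit 1) (nat_lit 4) (nat_lit 2) (nat_lit 627262464) (nat_lit 13283332) w13185 = true := by decide +kernel
theorem cl3032 : lchk (nat_lit 5) [w871, w2740, w105, w651, w4518, w80, w33] (nat_lit 4888553472) (.nod (nat_lit 425834126425058459340017057568983970366455484425) (.nod (nat_lit 2228371116062271671161705245238722432200530653799068861464978) (.nod (nat_lit 7866591797011548572246255223209134832070366344596864450728552300627) .nil (.nod (nat_lit 53321789557009915483415906209085690438712557578) .nil (.dwn (nat_lit 142475273861366173408752486108162753509173289643821444497155903954660033275015167213970) (nat_lit 615220240)) .dup) .nil) (.nod (nat_lit 3119373114146611509112005576846625888710698669372614868063660649758465271332440375882) .nil (.opn (nat_lit 207401247042984800453036275288377790792253584460327769049543635906578808483183069417472))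 .dup) .nil) .nil (.dwn (nat_lit 8276502308411858117466811148507584436736425924542117831792485928968) (nat_lit 660695040))) .nil .nil .nil l3032 = true := by decide +kernel
theorem cw13186 : wchk (nat_lit 5) [] [l3032] (nat_lit 145) (nat_lit 3) (nat_lit 0) (nat_lit 0) (nat_lit 1230557440) (nat_lit 0) w13186 = true := by decide +kernel
theorem cl3033 : lchk (nat_lit 5) [w2743, w2723, w6725, w80, w33, w871, w11353] (nat_lit 13469696) .nil (.nod (nat_lit 272588170817656656917987993830264380284712934206667184364031311872) (.nod (nat_lit 210625098059456675103658802195254651576932963399465576880523968512) (.nod (nat_lit 420214335572487440019903885393905116381018001408) .nil .nil .nil) .nil (.dwn (nat_lit 7751586304409579507346144083698003789991747084452054165787919778386) (nat_lit 617449472))) (.nod (nat_lit 5031685952257885766239222406868595148253124485910086946560081089792197984247577837568) .nil (.dwn (nat_lit 143296972506399438978958389194169179311126213864282347514444861847347075173014950858792) (nat_lit 617449472)) (.opn (nat_lit 143296972506399438978958389194169179311126213864282347514444861847347075173014950858792))) .nil) (.nod (nat_lit 17126975715295187782084066267140015954520858672)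 .nil (.dwn (nat_lit 207185453200135282385883410715433733576164039686565097079738029419962866415325046374802) (nat_lit 894644248)) .dup) .nil l3033 = true := by decide +kernel
theorem cw13187 : wchk (nat_lit 5) [] [l3033] (nat_lit 1) (nat_lit 3) (nat_lit 0) (nat_lit 0) (nat_lit 5820672) (nat_lit 0) w13187 = true := by decide +kernel
theorem cw13188 : wchk (nat_lit 5) [w3970, w16] [] (nat_lit 0) (nat_lit 0) (nat_lit 0) (nat_lit 2) (nat_lit 22687744) (nat_lit 22687748) w13188 = true := by decide +kernel
theorem cw13189 : wchk (nat_lit 5) [w80] [] (nat_lit 2) (nat_lit 1) (nat_lit 2) (nat_lit 2) (nat_lit 85029888) (nat_lit 209) w13189 = true := by decide +kernel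
theorem cl3034 : lchk (nat_lit 5) [w12619, w6797, w1326, w230, w16, w220, w5841, w6782, w638, w13189, w149, w11265, w267, w3766, w2940, w4447, w45, w12366] (nat_lit 583895040) (.nod (nat_lit 4752152484690687263512798136033628670743171089) (.nod (nat_lit 142238029372952823331485719335651260760466) (.nod (nat_lit 5254126376821715009082349125252403345254391591013674814655286864230815539648544464929) .nil (.nod (nat_lit 19085680293116680615142639128816723108306224372262951607958977095525718127743575199760) .nil (.dwn (nat_lit 5285668026137870703399534437997784922668260950631226789579402833922727599598961469488) (nat_lit 619349020)) .dup) (.dwn (nat_lit 5363689662202688254697796010714377147473008392213602760790397585439611116300582670400) (nat_lit 81080364))) .nil (.nod (nat_lit 5028374298505698523050106155036960113405473038657049096305415457502406291403271307264) .nil (.dwn (nat_lit 18966160624942636736944532076550848693671828075743862301798409981985002782830310195200) (nat_lit 82413568)) .dup)) .nil (.dwn (nat_lit 185659896916901063783261802369101851718842790293464450931955335506) (nat_lit 652322884))) .nil .nil .nil l3034 = true := by decide +kernel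
theorem cw13190 : wchk (nat_lit 5) [] [l3034] (nat_lit 17) (nat_lit 2) (nat_lit 1) (nat_lit 0) (nat_lit 156815616) (nat_lit 0) w13190 = true := by decide +kernel
theorem cw13191 : wchk (nat_lit 5) [] [l3034] (nat_lit 17) (nat_lit 3) (nat_lit 1) (nat_lit 0) (nat_lit 154751232) (nat_lit 0) w13191 = true := by decide +kernel
theorem cw13192 : wchk (nat_lit 5) [] [l2693] (nat_lit 2193) (nat_lit 1) (nat_lit 1) (nat_lit 0) (nat_lit 9820343296) (nat_lit 0) w13192 = true := by decide +kernel
theorem cw13193 : wchk (nat_lit 5) [w114] [] (nat_lit 2) (nat_lit 1) (nat_lit 4) (nat_lit 2) (nat_lit 72643584) (nat_lit 201) w13193 = true := by decide +kernel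
theorem cw13194 : wchk (nat_lit 5) [] [l3004] (nat_lit 145) (nat_lit 2) (nat_lit 4) (nat_lit 0) (nat_lit 1229639936) (nat_lit 0) w13194 = true := by decide +kernel
theorem cw13195 : wchk (nat_lit 5) [] [l2693] (nat_lit 145) (nat_lit 3) (nat_lit 0) (nat_lit 0) (nat_lit 1230408704) (nat_lit 0) w13195 = true := by decide +kernel
theorem cw13196 : wchk (nat_lit 5) [] [l2693] (nat_lit 145) (nat_lit 3) (nat_lit 0) (nat_lit 0) (nat_lit 1230408704) (nat_lit 0) w13196 = true := by decide +kernel
theorem cw13197 : wchk (nat_lit 5) [] [l2693] (nat_lit 145) (nat_lit 3) (nat_lit 0) (nat_lit 0) (nat_lit 1230408704) (nat_lit 0) w13197 = true := by decide +kernel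
theorem cw13198 : wchk (nat_lit 5) [w16, w1019] [] (nat_lit 0) (nat_lit 0) (nat_lit 1) (nat_lit 2) (nat_lit 23153664) (nat_lit 22644740) w13198 = true := by decide +kernel
theorem cl3035 : lchk (nat_lit 5) [w158, w8, w802, w651, w7171, w831, w1092, w331, w1075, w3232, w248, w812, w87] (nat_lit 4887686144) (.nod (nat_lit 426219508455761631303674013993386315409586149377) (.nod (nat_lit 1115086504166114150484205209639484362014481791230342157908391756178) (.nod (nat_lit 5828025550787732903164831559552661708302455823373053895237742005399770596184309104771) .nil (.nod (nat_lit 7770687032319750777981194560821591486672504829937039983423089545256433924220735455299) .nil .nil (.nod (nat_lit 3885341721382492210589568215060528108673680689283757674282802161035664839456858308610) .nil (.nod (nat_lit 48401093301198442275367862730202340001223246867874995414976454330586329151177090) (.dwn (nat_lit 144993488722651053538613826967277403274879598290165411626449133162472585856176773324848) (nat_lit 4921240576)) .nil .nil) .dup)) .nil) (.nod (nat_lit 214839932796993622716802473803480970178822962698876394124384104474044696710218772551776) .nil (.opn (nat_lit 207200387600636754490736716725618661342661390226669903933494484125492817796406404732928))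 .dup) .nil) .nil (.dwn (nat_lit 8283611352102846007352362678117786354428673713369515614304333223936) (nat_lit 659827712))) .nil .nil .nil l3035 = true := by decide +kernel
theorem cw13199 : wchk (nat_lit 5) [] [l3035] (nat_lit 18065) (nat_lit 1) (nat_lit 2) (nat_lit 0) (nat_lit 78539968768) (nat_lit 0) w13199 = true := by decide +kernel
theorem cw13200 : wchk (nat_lit 5) [] [l2758] (nat_lit 2) (nat_lit 1) (nat_lit 1) (nat_lit 0) (nat_lit 19096320) (nat_lit 0) w13200 = true := by decide +kernel
theorem cw13201 : wchk (nat_lit 5) [] [l2758] (nat_lit 2) (nat_lit 1) (nat_lit 1) (nat_lit 0) (nat_lit 19555072) (nat_lit 0) w13201 = true := by decide +kernel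
theorem cw13202 : wchk (nat_lit 5) [] [l185] (nat_lit 2) (nat_lit 1) (nat_lit 1) (nat_lit 0) (nat_lit 22205440) (nat_lit 0) w13202 = true := by decide +kernel
theorem cl3036 : lchk (nat_lit 5) [w2548, w7084, w7528, w168, w241, w937, w724, w497, w11263, w112, w1379, w1170, w2674, w965, w13202, w2305, w8273, w7316, w13199, w10536, w11228, w13200, w7313, w13015, w11950, w13201, w8754, w3182] (nat_lit 4882854912) (.nod (nat_lit 425873152729155887930514745075961104999058694161) (.nod (nat_lit 1134074184530706145766901397333247683600877682385431741859855597970) (.nod (nat_lit 5828025550787732903172300708016005261290067084550886390336927862552560128707342106755) .nil (.nod (nat_lit 5166148357963826825012887855839697333670557546406390350951020835634202039644143904824) .nil .nil (.dwn (nat_lit 3885341721382492210589568215060528108734480905252473084890368266597231391690891198466) (nat_lit 89337888))) .nil) (.nod (nat_lit 28703937216900355809939715164707654234087972173803149208969349274272439204323249170528) .nil (.dwn (nat_lit 1139684787902146601542930359799813774374410692501433640511086149001363292598262510864512) (nat_lit 889877504)) (.dwn (nat_lit 1139684787902146601542930359799813774374410692501433640511086149001363292598262510864512)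 (nat_lit 889877504))) (.nod (nat_lit 28597704922550472439610314200221283600333960919933324674080944741544276143445984583840) (.dwn (nat_lit 207429486417707997126771947424039125365480564489990292050461021696850005126837478795464) (nat_lit 889877504)) .nil .nil)) .nil (.dwn (nat_lit 290767103117559696847263787140737243181966008576851770175081414994) (nat_lit 654996480))) .nil .nil .nil l3036 = true := by decide +kernel
theorem cw13203 : wchk (nat_lit 5) [] [l3036] (nat_lit 145) (nat_lit 3) (nat_lit 2) (nat_lit 0) (nat_lit 1230557440) (nat_lit 0) w13203 = true := by decide +kernel
theorem cw13204 : wchk (nat_lit 5) [w1829] [] (nat_lit 2) (nat_lit 1) (nat_lit 2) (nat_lit 2) (nat_lit 10064896) (nat_lit 209) w13204 = true := by decide +kernel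
theorem cw13205 : wchk (nat_lit 5) [] [l2922] (nat_lit 2) (nat_lit 2) (nat_lit 1) (nat_lit 0) (nat_lit 22454528) (nat_lit 0) w13205 = true := by decide +kernel
theorem cw13206 : wchk (nat_lit 5) [w7392] [] (nat_lit 2) (nat_lit 1) (nat_lit 2) (nat_lit 2) (nat_lit 89753600) (nat_lit 209) w13206 = true := by decide +kernel
theorem cw13207 : wchk (nat_lit 5) [] [l1713] (nat_lit 2) (nat_lit 1) (nat_lit 1) (nat_lit 0) (nat_lit 22481408) (nat_lit 0) w13207 = true := by decide +kernel
theorem cw13208 : wchk (nat_lit 5) [] [l2017] (nat_lit 25) (nat_lit 1) (nat_lit 1) (nat_lit 0) (nat_lit 22597888) (nat_lit 0) w13208 = true := by decide +kernel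
theorem cw13209 : wchk (nat_lit 5) [] [l2017] (nat_lit 25) (nat_lit 1) (nat_lit 1) (nat_lit 0) (nat_lit 22205440) (nat_lit 0) w13209 = true := by decide +kernel
theorem cw13210 : wchk (nat_lit 5) [] [l3019] (nat_lit 2) (nat_lit 1) (nat_lit 1) (nat_lit 0) (nat_lit 21680384) (nat_lit 0) w13210 = true := by decide +kernel
theorem cw13211 : wchk (nat_lit 5) [] [l338] (nat_lit 1) (nat_lit 2) (nat_lit 1) (nat_lit 0) (nat_lit 30871808) (nat_lit 0) w13211 = true := by decide +kernel
theorem cw13212 : wchk (nat_lit 5) [] [l3019] (nat_lit 0) (nat_lit 0) (nat_lit 1) (nat_lit 1) (nat_lit 21680384) (nat_lit 0) w13212 = true := by decide +kernel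
theorem cw13213 : wchk (nat_lit 5) [] [l2629] (nat_lit 2) (nat_lit 1) (nat_lit 1) (nat_lit 0) (nat_lit 20212736) (nat_lit 0) w13213 = true := by decide +kernel
theorem cw13214 : wchk (nat_lit 5) [] [l324] (nat_lit 2) (nat_lit 1) (nat_lit 1) (nat_lit 0) (nat_lit 22434816) (nat_lit 0) w13214 = true := by decide +kernel
theorem cw13215 : wchk (nat_lit 5) [] [l2629] (nat_lit 2) (nat_lit 1) (nat_lit 1) (nat_lit 0) (nat_lit 20261120) (nat_lit 0) w13215 = true := by decide +kernel
theorem cl3037 : lchk (nat_lit 5) [w8128, w5874, w6178, w429, w183, w937, w724, w5448, w2548, w13208, w13209, w13210, w113, w152, w8073, w722, w13213, w13214, w13215, w11272, w12280, w13204, w1540, w7392, w11313, w13205, w7340, w13014, w13206, w13207, w13211, w13212] (nat_lit 4887514112) (.nod (nat_lit 426219511178020566671181721700383174863707383825) (.nod (nat_lit 1087100171620927342032258761449930818403948644471173141698325774738) (.nod (nat_lit 7874060945474892125250993490387393170915159516257134060633231196243) .nil (.nod (nat_lit 15181945525740787990619859447282549081395251248) .nil (.nod (nat_lit 19816082896974962697931074073733325388482410272631936600346058836075026851194554286482) .nil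 (.dwn (nat_lit 144995143160022076250619364661057579899308778989400026707690970727819757298891947710464) (nat_lit 626101248)) .dup) (.dwn (nat_lit 5391910510191606957554132676730836321370235243146712444423168785066203916127365497234) (nat_lit 90391596))) .nil) (.nod (nat_lit 28357000959127509025403377488524756037380418566058528088312932013992658154106412927096) .nil (.dwn (nat_lit 207429481786024427634129889496066279823035425642967909187719255469382942525118772568216) (nat_lit 895690832)) .dup) (.nod (nat_lit 28703948332940922592497760520474920971149676027989881614557226471684094141370113478840) (.dwn (nat_lit 207429490123054852720890201179177901175866775827398539777626523872344923895189694220520) (nat_lit 895690832)) .nil .nil)) .nil (.dwn (nat_lit 292297109002949787963364177797907572601335635403047261721067520338) (nat_lit 659655680))) .nil .nil .nil l3037 = true := by decide +kernel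
theorem cw13216 : wchk (nat_lit 5) [] [l3037] (nat_lit 145) (nat_lit 3) (nat_lit 0) (nat_lit 0) (nat_lit 1230557440) (nat_lit 0) w13216 = true := by decide +kernel
theorem cl3038 : lchk (nat_lit 5) [w12520, w2861, w3974, w337, w2839, w16, w937, w13192, w12629, w12531, w13203, w10822, w13216, w284, w12519, w1227, w13193, w11320, w13194, w13195, w13196, w13197, w12203, w1311, w2841, w12566, w2051, w13198, w12491, w12620, w8383, w8384, w12522, w12619, w13186, w5212, w13187, w2849, w13188, w8417, w12525, w13190, w13191, w13180, w13181, w12517, w181, w13183, w13185] (nat_lit 21727232) (.nod (nat_lit 14777034349717656447606276490785087428858634257) (.nod (nat_lit 1127595010336253896975916206176928115984979124878797579871596839314) (.nod (nat_lit 5254127303158428915485973509511989423087430548033267399306787697801291373034274644009) .nil (.nod (nat_lit 1139910541717343956577460759484530117661544090264679681026526300921378001639831655354440) .nil (.nod (nat_lit 5284007104409850639892378735788820303318018521536936085961524238854010243440851898408) (.dwn (nat_lit 5254132745386627005500092030886406179007421835717157435537719742255408058324814749784) (nat_lit 39280412728)) .nil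 .nil) .dup) (.nod (nat_lit 5152876731863802592250516249789496985094220796111242138771826006456741441956357818504) (.dwn (nat_lit 9097082334463634083948528712717363224521522352793972593895225639433070218311574657337512) (nat_lit 39280412672)) .nil .nil)) (.nod (nat_lit 5363702630916682835355093241498359281401992035255065408630218497627539694501099643072) .nil (.nod (nat_lit 5240843518889034764211979373790264294186390521899015839298654116521462842453462802448) (.dwn (nat_lit 20933278322058289699557236756344773117832514492556422466233150697322178353964559845624) (nat_lit 4920674360)) .nil .nil) .dup) (.nod (nat_lit 5031712816022588823869328302216286790991857538518434072668047112711124910794906962208) (.dwn (nat_lit 1139759509926836512521521556444313744056907083058881155336602610711029040429136289106248) (nat_lit 4922229928)) .nil .nil)) .nil (.nod (nat_lit 1134796095169987761761507838189371044752337470351984433559637066066) (.dwn (nat_lit 20573075996205702079691833261141576870138426458549692769658841380144300380010576251264) (nat_lit 625707008)) .nil .nil)) .nil .nil .nil l3038 = true := by decide +kernel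
theorem cw13217 : wchk (nat_lit 5) [] [l3038] (nat_lit 1) (nat_lit 0) (nat_lit 1) (nat_lit 0) (nat_lit 5820672) (nat_lit 0) w13217 = true := by decide +kernel
theorem cl3039 : lchk (nat_lit 5) [w13111, w13126, w13129, w8449, w8111, w337, w2709, w2839, w1599, w16, w13134, w3408, w13104, w13142, w2934, w13143, w284, w13141, w12634, w13133, w3958, w13106, w13108, w13107, w13135, w2936, w2861, w7424, w2051, w8419, w12522, w12619, w12621, w5212, w13137, w13113, w13138, w8417, w13139, w13140, w8759, w7083, w458, w12628, w13144, w13122, w13123, w8746, w13124, w13178, w13179, w13217] (nat_lit 39247954944) (.nod (nat_lit 286536393041824692492565219131642194849936805148596356224615221265) (.nod (nat_lit 2623828525391647336323154214427988025413457867558213159747978) (.nod (nat_lit 1127595110769881663246137127114537529095616495273315070293707153473) (.nod (nat_lit 5254131008505284509604227063783509701101589237322553545976808918526065511295632459824) .nil (.nod (nat_lit 5152873026516946997839966289550421282426841233733064259491582526487766074630933743712) .nil (.nod (nat_lit 5284010809756706234010632290060340581331069837065481126481214486803512870614637039688) (.dwn (nat_lit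 20689246957159002766986369458018158129724824402807348789429289440530780865075196682352) (nat_lit 4922229828)) .nil .nil) .dup) (.nod (nat_lit 5244179257395783361606783816403229084468225626485091527606039977244370421229862414496) (.dwn (nat_lit 20827033058994411749825466281207563329108003845349683977762496110779279846175916116160) (nat_lit 89932800)) .nil .nil)) (.nod (nat_lit 20827019163943703272290935638303083345867663260978943861027633395754372141528767451336) .nil (.dwn (nat_lit 5240866677306882219882257444917508880930168585374316587846346789014642563986992171240) (nat_lit 90391620)) (.dwn (nat_lit 5240866677306882219882257444917508880930168585374316587846346789014642563986992171240) (nat_lit 90391620))) (.nod (nat_lit 5031710963349161026810201424646898885386958156249130441547271275326376826616133617936) (.dwn (nat_lit 20827046027708406329247363704706748771555906805216386629101812274791934232731063060792) (nat_lit 90391620)) .nil .nil)) .nil (.nod (nat_lit 290767806152954060171271773367447528541874981693607636742343692632) (.dwn (nat_lit 20933294069782425974573583460847781313985751493204164596337019364818536510844602714496) (nat_lit 90391748)) .nil .nil)) .nil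 (.dwn (nat_lit 2222094014326946507836510836761910531004608577238060131942730) (nat_lit 4955325440))) .nil .nil .nil l3039 = true := by decide +kernel
theorem cw13218 : wchk (nat_lit 5) [] [l3039] (nat_lit 13457) (nat_lit 1) (nat_lit 1) (nat_lit 0) (nat_lit 78539968768) (nat_lit 0) w13218 = true := by decide +kernel
theorem cw13219 : wchk (nat_lit 5) [] [l3038] (nat_lit 1745) (nat_lit 1) (nat_lit 1) (nat_lit 0) (nat_lit 9820377344) (nat_lit 0) w13219 = true := by decide +kernel
theorem cw13220 : wchk (nat_lit 5) [w13219, w177] [] (nat_lit 0) (nat_lit 2) (nat_lit 1) (nat_lit 2) (nat_lit 23282688) (nat_lit 22307844) w13220 = true := by decide +kernel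
theorem cw13221 : wchk (nat_lit 5) [w195, w3898] [] (nat_lit 1) (nat_lit 1) (nat_lit 3) (nat_lit 2) (nat_lit 21784576) (nat_lit 22228996) w13221 = true := by decide +kernel
theorem cw13224 : wchk (nat_lit 5) [] [l2758] (nat_lit 1) (nat_lit 0) (nat_lit 2) (nat_lit 0) (nat_lit 2706176) (nat_lit 0) w13224 = true := by decide +kernel
theorem cw13225 : wchk (nat_lit 5) [] [l1713] (nat_lit 1) (nat_lit 0) (nat_lit 4) (nat_lit 0) (nat_lit 4672000) (nat_lit 0) w13225 = true := by decide +kernel
theorem cl3040 : lchk (nat_lit 5) [w5157, w638, w149, w1, w576, w501, w1673, w888, w4765, w13224, w1960, w6491, w13225, w5161, w6807, w2922] (nat_lit 23211008) (.nod (nat_lit 14786790925742013596034407530002618408595826705) (.nod (nat_lit 15806358224522839336897560252572783585397131288) .nil (.nod (nat_lit 5028366887811987334813599046493919557364320178572805981239070434379257587965917079600) .nil (.dwn (nat_lit 1139893935279073897699771666679775256968726424292157910861254469380442270654826354595840) (nat_lit 4922158080)) .dup) (.nod (nat_lit 5043306846333742819611929869263680506002620977142432906408000405385896365240160020528) .nil (.dwn (nat_lit 1139893935279073897699771666679775256972076271495800754819310942015732279386117209610240)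 (nat_lit 4922158080)) (.opn (nat_lit 1139893935279073897699771666679775256972076271495800754819310942015732279386117209610240)))) .nil (.nod (nat_lit 15845395417656009397430310418201817595434666048) .nil (.nod (nat_lit 145264070750444100063755389968024197600050337320850270827112734094152322230897582755920) (.dwn (nat_lit 1637205561910825249584136866393261737619815078893802818313214631591050889784735235860584) (nat_lit 4922100792)) .nil .nil) (.nod (nat_lit 145264070750444100063755389968024197600050337320850270827112734094152322230897582755920) (.dwn (nat_lit 1637205561910825249584136866393261737619815078893802818313214631591050889784735235860584) (nat_lit 4922100792)) .nil .nil))) .nil .nil (.nod (nat_lit 15762486299520456582677775989365885348359655544) (.opn (nat_lit 20903386362637498049094158073952638114695337072615213788330392268136728984152591997040)) (.dwn (nat_lit 20903386362637498049094158073952638114695337072615213788330392268136728984152591997040) (nat_lit 90262584)) .dup) l3040 = true := by decide +kernel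
theorem cw13226 : wchk (nat_lit 5) [] [l3040] (nat_lit 33) (nat_lit 1) (nat_lit 1) (nat_lit 0) (nat_lit 156815616) (nat_lit 0) w13226 = true := by decide +kernel
theorem cw13250 : wchk (nat_lit 5) [] [l1073] (nat_lit 17) (nat_lit 1) (nat_lit 1) (nat_lit 0) (nat_lit 22597888) (nat_lit 0) w13250 = true := by decide +kernel
theorem cw13251 : wchk (nat_lit 5) [w13250, w177] [] (nat_lit 2) (nat_lit 2) (nat_lit 1) (nat_lit 2) (nat_lit 23282688) (nat_lit 22307844) w13251 = true := by decide +kernel
theorem cw13261 : wchk (nat_lit 5) [w4289, w162] [] (nat_lit 1) (nat_lit 1) (nat_lit 1) (nat_lit 2) (nat_lit 23211008) (nat_lit 21655556) w13261 = true := by decide +kernel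
theorem cw13262 : wchk (nat_lit 5) [w162] [] (nat_lit 0) (nat_lit 0) (nat_lit 4) (nat_lit 2) (nat_lit 33554509) (nat_lit 13455360) w13262 = true := by decide +kernel
theorem cw13273 : wchk (nat_lit 5) [w206, w162] [] (nat_lit 145) (nat_lit 1) (nat_lit 1) (nat_lit 2) (nat_lit 4920602624) (nat_lit 21655556) w13273 = true := by decide +kernel
theorem cw13274 : wchk (nat_lit 5) [w205, w162] [] (nat_lit 145) (nat_lit 1) (nat_lit 1) (nat_lit 2) (nat_lit 4920602624) (nat_lit 21655556) w13274 = true := by decide +kernel
theorem cw13275 : wchk (nat_lit 5) [w204, w162] [] (nat_lit 145) (nat_lit 1) (nat_lit 1) (nat_lit 2) (nat_lit 88764416) (nat_lit 21655556) w13275 = true := by decide +kernel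
theorem cw13276 : wchk (nat_lit 5) [w3888, w162] [] (nat_lit 1) (nat_lit 1) (nat_lit 1) (nat_lit 2) (nat_lit 90391552) (nat_lit 21655556) w13276 = true := by decide +kernel
theorem cw13277 : wchk (nat_lit 5) [w4100, w162] [] (nat_lit 1) (nat_lit 1) (nat_lit 1) (nat_lit 2) (nat_lit 90269696) (nat_lit 21655556) w13277 = true := by decide +kernel
theorem cl3047 : lchk (nat_lit 5) [w1408, w17, w16, w4209, w13273, w24, w13274, w13275, w13276, w3, w13277, w1448, w1449] (nat_lit 21777408) (.nod (nat_lit 291395767410562143699123348663092447353120016172602470251778168840) (.nod (nat_lit 1115896344446505063163444346057796176614492771165269143738239195136) (.nod (nat_lit 7855883011234165012195573527145429574571420760356982748421323003904) (.nod (nat_lit 1139561936200812664704235206245462646311592330162730773458186318369659995215242320189440) .nil (.opn (nat_lit 9096733718757398939621710323269006324656947010509902789975063216744321635427997732870144)) .dup) .nil (.dwn (nat_lit 1139561936200812664704235206245462646311592330162730773458186318369659995215242320189440) (nat_lit 4920724480))) .nil (.dwn (nat_lit 7855883011234165012195573527145429574594507125608049103327584622592)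 (nat_lit 625757184))) .nil (.nod (nat_lit 1115896344446505063163444346057796176614492771165269143738239195136) (.opn (nat_lit 144915463381239380339550816617519686518422995119334271393599792438078356543554155223040)) (.dwn (nat_lit 144915463381239380339550816617519686518422995119334271393599792438078356543554155223040) (nat_lit 625757184)) .dup)) .nil .nil (.nod (nat_lit 1134074134313892262673455144408902924987237420183135571873712752657) (.nod (nat_lit 968945224825550569665528466650451018405578742382758243911494471704) .nil .nil (.nod (nat_lit 291395767410562143699123348663092447353120016172602470251778168840) (.dwn (nat_lit 20933257016313870033395905290105862396710945014266117854636997449343498228126607628328) (nat_lit 90391580)) .nil .nil)) (.nod (nat_lit 20933260721660725627514159045244638207097780772539924439250402858679843952371148937288) (.dwn (nat_lit 145264072603117527868687678156847762011390543858023736209896893987308297518452140365920) (nat_lit 625757184)) .nil .nil) .dup) l3047 = true := by decide +kernel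
theorem cw13278 : wchk (nat_lit 5) [] [l3047] (nat_lit 20) (nat_lit 2) (nat_lit 0) (nat_lit 0) (nat_lit 156815616) (nat_lit 0) w13278 = true := by decide +kernel
theorem cw13297 : wchk (nat_lit 5) [] [l1073] (nat_lit 1) (nat_lit 1) (nat_lit 1) (nat_lit 0) (nat_lit 22597888) (nat_lit 0) w13297 = true := by decide +kernel
theorem cl3051 : lchk (nat_lit 5) [w128, w1064, w219, w15, w386, w4209, w4038, w581, w10045, w8397, w1192] (nat_lit 4887170048) (.nod (nat_lit 7855883017511266747156386019602616590733917178761633795582482487297) (.nod (nat_lit 291575750748620886011485753917310279751693330576885636332014716937) (.nod (nat_lit 292295759426076680252872993198874020052959341921196871108912433177) .nil (.nod (nat_lit 172521119515714611449415603665324145313985961578573007637158498344) .nil (.nod (nat_lit 5362027814137954292642179228103418966788456046772815620000077223324732928269764352056) (.dwn (nat_lit 20584661689486430988946081590771810162672341851625735846541731635745398822246823401544) (nat_lit 625757184)) .nil .nil) (.nod (nat_lit 5362027814137954292642179228103418966788456046772815620000077223324732928269764352056) (.dwn (nat_lit 20584661689486430988946081590771810162672341851625735846541731635745398822246823401544)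 (nat_lit 625757184)) .nil .nil)) .dup) .nil (.dwn (nat_lit 291575744471519150624804989741238489623088450992708840362502440968) (nat_lit 122440704))) .nil (.nod (nat_lit 8277132177908393759010081600963406661968258022760722850801918711808) (.opn (nat_lit 1201727340752035994977027980597209081298665413602943054837415865348805917351697014364160)) .dup .dup)) .nil .nil (.nod (nat_lit 61775776345535444601103735429806088514958995932750505244447636756480) (.nod (nat_lit 9096733718757398939621710323269006324630214112766567935041777826682969148009498153621504) .nil (.dwn (nat_lit 72754107979210089138961511259457355751205979345965588493656862559894403878407555715209216) (nat_lit 314158369792)) (.opn (nat_lit 72754107979210089138961511259457355751205979345965588493656862559894403878407555715209216))) (.dwn (nat_lit 9096733718757398939621710323269006324656947010509902789976512410034829459859587785594880) (nat_lit 39280462848)) .dup) l3051 = true := by decide +kernel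
theorem cw13313 : wchk (nat_lit 5) [] [l3051] (nat_lit 2193) (nat_lit 1) (nat_lit 2) (nat_lit 0) (nat_lit 9820492032) (nat_lit 0) w13313 = true := by decide +kernel
theorem cw13315 : wchk (nat_lit 5) [] [l152] (nat_lit 17) (nat_lit 3) (nat_lit 0) (nat_lit 0) (nat_lit 154821120) (nat_lit 0) w13315 = true := by decide +kernel
theorem cw13316 : wchk (nat_lit 5) [] [l1700] (nat_lit 4) (nat_lit 0) (nat_lit 2) (nat_lit 1) (nat_lit 19553280) (nat_lit 0) w13316 = true := by decide +kernel
theorem cw13317 : wchk (nat_lit 5) [] [l1700] (nat_lit 4) (nat_lit 0) (nat_lit 2) (nat_lit 1) (nat_lit 19553280) (nat_lit 0) w13317 = true := by decide +kernel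
theorem cl3052 : lchk (nat_lit 5) [w774, w33, w1053, w3778, w13315, w13316, w10734, w2492, w5831, w13317] (nat_lit 6452224) (.nod (nat_lit 11418033945132184873608633828152830482410635264) (.nod (nat_lit 4289666159670602224196329310507654666946438907034797152348446725264261063342334935040) .nil .nil (.nod (nat_lit 3885339868709064413530441437924767969678573062742358402804244067708615640068900841472) .nil (.opn (nat_lit 1136012866054200083920367063335288434137625349919798406909242393961501327448041473763328)) .dup)) .nil (.nod (nat_lit 68780501006966946866658233126908014180882893145378706270840918081644850711625728) .nil (.dwn (nat_lit 142978251538595227506184260299659685171869148942141118272365429583146530642518991261720) (nat_lit 610432000)) (.opn (nat_lit 142978251538595227506184260299659685171869148942141118272365429583146530642518991261720)))) (.nod (nat_lit 11418033945132184873608631466969589047588028416) .nil .nil (.nod (nat_lit 292295803365788827545183169882738874387189259187508946200340463616) (.opn (nat_lit 20933257942650583938559718872365974737840175713088513953922974756594551351513797003336)) (.dwn (nat_lit 20933257942650583938559718872365974737840175713088513953922974756594551351513797003336)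 (nat_lit 610432000)) .dup)) .nil .nil l3052 = true := by decide +kernel
theorem cw13318 : wchk (nat_lit 5) [] [l3052] (nat_lit 1) (nat_lit 3) (nat_lit 1) (nat_lit 0) (nat_lit 5820672) (nat_lit 0) w13318 = true := by decide +kernel
theorem cl3053 : lchk (nat_lit 5) [w1409] (nat_lit 16777225) .nil (.nod (nat_lit 13298910359768613214998654457029253763600220160) (.nod (nat_lit 2523394897625445667150460763528925899781039877724432848912384) (.nod (nat_lit 210626303262989869357783464708802004804735777952728720649828171776) .nil .nil (.nod (nat_lit 1895622969959904856615815716424567388419616043251473959280565026816) (.opn (nat_lit 283629689991988895394254580758218877504958224376188002672658803385395077686617519948050)) .dup .dup)) .nil (.dwn (nat_lit 210626303262989869357783464708802004804735777952728720649861726482) (nat_lit 16777353))) .nil (.nod (nat_lit 39137726162212874055288653319497210952670225057430145894485971932332655047081984) .nil (.opn (nat_lit 3885369511483909166687096175359920063129348917010807949882845747152580583624600977408)) .dup)) .nil .nil l3053 = true := by decide +kernel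
theorem cw13320 : wchk (nat_lit 5) [] [l3053] (nat_lit 145) (nat_lit 3) (nat_lit 0) (nat_lit 0) (nat_lit 5820672) (nat_lit 0) w13320 = true := by decide +kernel
theorem cw13323 : wchk (nat_lit 5) [] [l110] (nat_lit 145) (nat_lit 3) (nat_lit 0) (nat_lit 0) (nat_lit 2673920) (nat_lit 0) w13323 = true := by decide +kernel
theorem cw13332 : wchk (nat_lit 5) [w6774] [] (nat_lit 0) (nat_lit 0) (nat_lit 1) (nat_lit 2) (nat_lit 337) (nat_lit 6129664) w13332 = true := by decide +kernel
theorem cl3055 : lchk (nat_lit 5) [w891, w893] (nat_lit 13276160) (.nod (nat_lit 3634441904788888162370833280552701978621933800545137115267072) (.nod (nat_lit 67854164293067290518212597215091114002128504195149280220065057849089577478782976) .nil .nil (.opn (nat_lit 3885339868709064413530441437924767969678573040964286919864182406052640764434541914112))) (.nod (nat_lit 68780501006965820083722825481721315363018867716434686288080401040929242671480832) .nil .nil (.nod (nat_lit 3885338942372350515211503046982716809080658679333568495253038867610206206676613201920) .nil (.dwn (nat_lit 45622083159502580999309929363285637867138601678439748547199746855260847092006912) (nat_lit 4912681988)) .dup)) .nil)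 .nil .nil .nil l3055 = true := by decide +kernel
theorem cw13334 : wchk (nat_lit 5) [] [l3055] (nat_lit 281) (nat_lit 1) (nat_lit 4) (nat_lit 0) (nat_lit 1230557440) (nat_lit 0) w13334 = true := by decide +kernel
theorem cw13336 : wchk (nat_lit 5) [] [l2256] (nat_lit 1) (nat_lit 1) (nat_lit 0) (nat_lit 0) (nat_lit 4516096) (nat_lit 0) w13336 = true := by decide +kernel
theorem cw13342 : wchk (nat_lit 5) [] [l3020] (nat_lit 0) (nat_lit 1) (nat_lit 1) (nat_lit 0) (nat_lit 2681088) (nat_lit 0) w13342 = true := by decide +kernel
theorem cw13343 : wchk (nat_lit 5) [] [l242] (nat_lit 17) (nat_lit 1) (nat_lit 2) (nat_lit 0) (nat_lit 3483904) (nat_lit 0) w13343 = true := by decide +kernel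
theorem cw13344 : wchk (nat_lit 5) [] [l242] (nat_lit 17) (nat_lit 1) (nat_lit 2) (nat_lit 0) (nat_lit 3353088) (nat_lit 0) w13344 = true := by decide +kernel
theorem cl3057 : lchk (nat_lit 5) [w774, w33, w1112, w1737, w776, w1380, w13343, w13344, w160, w2650, w4613, w4614] (nat_lit 6452224) (.nod (nat_lit 22835993708708380982632228766824985360345333760) (.nod (nat_lit 4289666159670602224196329310507654666946438885256725669408385063608286187709169401856) .nil .nil (.opn (nat_lit 3885339868709064413530441437924767969678573040964286919864182406052640764435735308288))) (.nod (nat_lit 68780501006966830961430976814457419890241096762002511549383382516363226093977600) .nil (.dwn (nat_lit 142991531501725676826012287879757120350534883110193310770938770824068730364593609855016) (nat_lit 610432000)) .dup) .nil) .nil .nil (.nod (nat_lit 11418012167060701933546969810994713414422495232) .nil (.nod (nat_lit 17035584132180139071680505871225008583653432445631539435956219618061156927530046849024) .nil (.opn (nat_lit 141366393234626799617266054574717878557849662268816170643177000262071377740018221056000)) .dup) (.nod (nat_lit 5391907731181465262257738465043426589674550273497517346058963094232294177062705430528)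 (.dwn (nat_lit 144022393271410374769788486293545691241347419626267186481477255404924654605272253925464) (nat_lit 610432000)) .nil .nil)) l3057 = true := by decide +kernel
theorem cl3058 : lchk (nat_lit 5) [w774, w33, w2204, w1737, w776, w3024, w6961] (nat_lit 6452224) (.nod (nat_lit 22835993708708380982632228766824985360345333760) (.nod (nat_lit 4289666159670602224196329310507654666946438885256725669408385063608286187709169401856) .nil .nil (.opn (nat_lit 3885339868709064413530441437924767969678573040964286919864182406052640764435735308288))) (.nod (nat_lit 68780501006966112287315566777718508707450614839169460339494067050357908588986368) .nil (.opn (nat_lit 142991531501725676826012287879757120350534883110193310770938770824068730364592401049640)) (.dwn (nat_lit 142991534280735818521646962335185717474049918707966323612330077118377365621419324893224) (nat_lit 610432000))) .nil) .nil .nil (.nod (nat_lit 11418012167060701933546969810994713414422495232) .nil (.dwn (nat_lit 17035584132180139071680505871225008583653432445631539435956219618061156927530046849024) (nat_lit 73561088)) .dup) l3058 = true := by decide +kernel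
theorem cw13362 : wchk (nat_lit 5) [] [l823] (nat_lit 282) (nat_lit 1) (nat_lit 4) (nat_lit 0) (nat_lit 21293312) (nat_lit 0) w13362 = true := by decide +kernel
theorem cw13364 : wchk (nat_lit 5) [] [l90] (nat_lit 2) (nat_lit 1) (nat_lit 3) (nat_lit 0) (nat_lit 3483904) (nat_lit 0) w13364 = true := by decide +kernel
theorem cw13383 : wchk (nat_lit 5) [w16, w1412] [] (nat_lit 25) (nat_lit 0) (nat_lit 0) (nat_lit 2) (nat_lit 22293504) (nat_lit 89753604) w13383 = true := by decide +kernel

end Pool.Agent.W319.GCI.K5
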