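import Pool.Agent.W319.GCI.K5D0
import Pool.Agent.W319.GCI.K5D1
import Pool.Agent.W319.GCI.K5D2
import Pool.Agent.W319.GCI.K5D3
import Pool.Agent.W319.GCI.K5D4
import Pool.Agent.W319.GCI.K5D5
import Pool.Agent.W319.GCI.K5D6
import Pool.Agent.W319.GCI.K5D7
import Pool.Agent.W319.GCI.K5D8
import Pool.Agent.W319.GCI.K5D9
import Pool.Agent.W319.GCI.K5D10
import Pool.Agent.W319.GCI.K5D11
import Pool.Agent.W319.GCI.K5D12
import Pool.Agent.W319.GCI.K5D13
import Pool.Agent.W319.GCI.K5D14
import Pool.Agent.W319.GCI.K5D15
set_option autoImplicit false
set_option maxRecDepth 100000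
set_option linter.all false
namespace Pool.Agent.W319.GCI.K5
open Pool.Agent.W319.GCI

theorem cw13384 : wchk (nat_lit 5) [] [] (nat_lit 1) (nat_lit 0) (nat_lit 2) (nat_lit 2) (nat_lit 193) (nat_lit 16777297) w13384 = true := by decide +kernel
theorem cw13385 : wchk (nat_lit 5) [] [l28] (nat_lit 1) (nat_lit 1) (nat_lit 2) (nat_lit 0) (nat_lit 21400832) (nat_lit 0) w13385 = true := by decide +kernel
theorem cl3065 : lchk (nat_lit 5) [w2088, w173, w13384, w86, w67, w3774, w13385, w954, w9642, w4694, w1245, w950, w2128, w11488, w2085] (nat_lit 22709248) (.nod (nat_lit 4517264827806347446408611857) (.nod (nat_lit 26428077977399320233131233225278864943893654002474955305110882944235299911088516104538) .nil .nil (.opn (nat_lit 145131262782109181778781934379626512986761906246030688447058185407589770915738352420864))) (.nod (nat_lit 11418037007673487161435838815804374562461712794) (.nod (nat_lit 15845389973138138661572839358896978382071171120) .nil .nil (.nod (nat_lit 61696766767293015748901429005565314085926334912914835359975495172114) (.opn (nat_lit 9095276249288189124061012206033866821525599470634704733324248539505595507632159101323320)) .dup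 .dup)) .nil .nil) (.nod (nat_lit 36341812228162064997297004047958661480607671855541033998798235568272961857490935349658) (.opn (nat_lit 143456337621985114207993360823877874647620223840948389640593739762923332229721702598768)) .nil .nil)) .nil .nil .nil l3065 = true := by decide +kernel
theorem cw13386 : wchk (nat_lit 5) [] [l3065] (nat_lit 25) (nat_lit 3) (nat_lit 1) (nat_lit 0) (nat_lit 5820672) (nat_lit 0) w13386 = true := by decide +kernel
theorem cw13387 : wchk (nat_lit 5) [] [l3065] (nat_lit 25) (nat_lit 3) (nat_lit 0) (nat_lit 0) (nat_lit 5820672) (nat_lit 0) w13387 = true := by decide +kernel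
theorem cw13392 : wchk (nat_lit 5) [] [l1073] (nat_lit 17) (nat_lit 1) (nat_lit 4) (nat_lit 0) (nat_lit 21293312) (nat_lit 0) w13392 = true := by decide +kernel
theorem cw13422 : wchk (nat_lit 5) [] [l1537] (nat_lit 1) (nat_lit 1) (nat_lit 1) (nat_lit 0) (nat_lit 22191104) (nat_lit 0) w13422 = true := by decide +kernel
theorem cw13423 : wchk (nat_lit 5) [w3766] [] (nat_lit 0) (nat_lit 0) (nat_lit 4) (nat_lit 2) (nat_lit 16777293) (nat_lit 77173760) w13423 = true := by decide +kernel
theorem cw13424 : wchk (nat_lit 5) [] [l1073] (nat_lit 1) (nat_lit 1) (nat_lit 1) (nat_lit 0) (nat_lit 22597888) (nat_lit 0) w13424 = true := by decide +kernel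
theorem cw13425 : wchk (nat_lit 5) [] [l1073] (nat_lit 1) (nat_lit 1) (nat_lit 1) (nat_lit 0) (nat_lit 21680384) (nat_lit 0) w13425 = true := by decide +kernel
theorem cw13426 : wchk (nat_lit 5) [w10, w3766] [] (nat_lit 1) (nat_lit 1) (nat_lit 4) (nat_lit 2) (nat_lit 18695168) (nat_lit 77173764) w13426 = true := by decide +kernel
theorem cw13427 : wchk (nat_lit 5) [] [l1073] (nat_lit 1) (nat_lit 1) (nat_lit 3) (nat_lit 0) (nat_lit 5820672) (nat_lit 0) w13427 = true := by decide +kernel
theorem cw13428 : wchk (nat_lit 5) [w1, w3766] [] (nat_lit 1) (nat_lit 1) (nat_lit 4) (nat_lit 2) (nat_lit 18523136) (nat_lit 77173764) w13428 = true := by decide +kernel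
theorem cw13429 : wchk (nat_lit 5) [w158, w3766] [] (nat_lit 1) (nat_lit 1) (nat_lit 4) (nat_lit 2) (nat_lit 86599680) (nat_lit 77173764) w13429 = true := by decide +kernel
theorem cw13430 : wchk (nat_lit 5) [w91, w3766] [] (nat_lit 1) (nat_lit 1) (nat_lit 4) (nat_lit 2) (nat_lit 88771584) (nat_lit 77173764) w13430 = true := by decide +kernel
theorem cl3073 : lchk (nat_lit 5) [w5721, w2628, w13422, w2916, w3766, w1, w535, w797, w13051, w4038, w5157, w7076, w13423, w13424, w13425, w13426, w1919, w1690, w13046, w13427, w13428, w181, w8424, w13429, w7719, w13430] (nat_lit 22121472) (.nod (nat_lit 14738008045620227857967568871170659036283064345) (.nod (nat_lit 1126785163778761248986295389399714892813473446579938411099505117224) (.nod (nat_lit 144903848971520520575903228788113729965738865905406537506362086418351318816347434420288) .nil .nil (.opn (nat_lit 1139641615979595360623163956749697672866759370378802576169837615891275697072861769570304))) (.nod (nat_lit 145235850828791895267010201855623764786015027716224098053745204791680854173724550797400) .nil (.dwn (nat_lit 1139641615979595360623163956749697672866759370378802576170019171275276398056561453504512)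 (nat_lit 4921068544)) .dup) (.dwn (nat_lit 145235850828791895267010201855623764786441476533820998000139699041091322001663452158040) (nat_lit 626101248))) .nil (.nod (nat_lit 15845409028950686234985774800104435212674828400) .nil (.nod (nat_lit 145264076308464383454932770299431478017069914294143088390064854235243779482990738100352) (.dwn (nat_lit 1139882331059058891278251092220709937744278486996079653987240345129067302728923348633752) (nat_lit 4922229840)) .nil .nil) (.nod (nat_lit 145264076308464383454932770299431478017069914294143088390064854235243779482990738100352) (.dwn (nat_lit 1139882331059058891278251092220709937744278486996079653987240345129067302728923348633752) (nat_lit 4922229840)) .nil .nil))) .nil .nil (.nod (nat_lit 14825871334735782615745673026390316811147497640) (.opn (nat_lit 20903393773331209237332285427995616680760205881370752284430685646764374919739279102144)) (.dwn (nat_lit 20933276469384861902517637239238778786515714972853383476073476544384465076931716665536) (nat_lit 90391632)) .dup) l3073 = true := by decide +kernel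
theorem cw13431 : wchk (nat_lit 5) [] [l3073] (nat_lit 33) (nat_lit 1) (nat_lit 1) (nat_lit 0) (nat_lit 156815616) (nat_lit 0) w13431 = true := by decide +kernel
theorem cw13432 : wchk (nat_lit 5) [w13431, w177] [] (nat_lit 1) (nat_lit 0) (nat_lit 1) (nat_lit 2) (nat_lit 23282688) (nat_lit 22307844) w13432 = true := by decide +kernel
theorem cw13436 : wchk (nat_lit 5) [w155] [] (nat_lit 0) (nat_lit 0) (nat_lit 4) (nat_lit 2) (nat_lit 33554509) (nat_lit 614560768) w13436 = true := by decide +kernel
theorem cw13444 : wchk (nat_lit 5) [w206, w155] [] (nat_lit 145) (nat_lit 1) (nat_lit 1) (nat_lit 2) (nat_lit 4920602624) (nat_lit 627140612) w13444 = true := by decide +kernel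
theorem cw13445 : wchk (nat_lit 5) [w205, w155] [] (nat_lit 145) (nat_lit 1) (nat_lit 1) (nat_lit 2) (nat_lit 4920602624) (nat_lit 627140612) w13445 = true := by decide +kernel
theorem cw13446 : wchk (nat_lit 5) [w204, w155] [] (nat_lit 145) (nat_lit 1) (nat_lit 1) (nat_lit 2) (nat_lit 88764416) (nat_lit 627140612) w13446 = true := by decide +kernel
theorem cw13447 : wchk (nat_lit 5) [w3888, w155] [] (nat_lit 1) (nat_lit 1) (nat_lit 1) (nat_lit 2) (nat_lit 90391552) (nat_lit 627140612) w13447 = true := by decide +kernel
theorem cw13448 : wchk (nat_lit 5) [w4100, w155] [] (nat_lit 1) (nat_lit 1) (nat_lit 1) (nat_lit 2) (nat_lit 90269696) (nat_lit 627140612) w13448 = true := by decide +kernel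
theorem cl3074 : lchk (nat_lit 5) [w1408, w17, w16, w4209, w13444, w24, w13445, w13446, w13447, w3, w13448, w1448, w1449] (nat_lit 21777408) (.nod (nat_lit 291395767410562143699123348663092447353120016172602470251778168840) (.nod (nat_lit 1115896344446505063163444346057796176614492771165269143738239195136) (.nod (nat_lit 7855883011234165012195573527145429574571420760356982748421323003904) (.nod (nat_lit 1139561936200812664704235206245462646308243458616690365214710692341260211679647608903680) .nil .nil (.dwn (nat_lit 9096733718757398939621710323269006324630214112766567935040328633392461323577908100896768) (nat_lit 39280462848))) .nil (.dwn (nat_lit 1139561936200812664704235206245462646311592330162730773458186318369659995215242320189440) (nat_lit 4920724480))) .nil (.dwn (nat_lit 7855883011234165012195573527145429574594507125608049103327584622592) (nat_lit 625757184))) .nil (.nod (nat_lit 1115896344446505063163444346057796176614492771165269143738239195136) (.opn (nat_lit 144915463381239380339550816617519686518422995119334271393599792438078356543554155223040)) (.dwn (nat_lit 144915463381239380339550816617519686518422995119334271393599792438078356543554155223040)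 (nat_lit 625757184)) .dup)) .nil .nil (.nod (nat_lit 1134074134313892262673455144408902924987237420183135571873712752657) (.nod (nat_lit 968945224825550569665528466650451018405578742382758243911494471704) .nil .nil (.nod (nat_lit 291395767410562143699123348663092447353120016172602470251778168840) (.dwn (nat_lit 20933257016313870033395905290105862396710945014266117854636997449343498228126607628328) (nat_lit 90391580)) .nil .nil)) (.nod (nat_lit 20933260721660725627514159045244638207097780772539924439250402858679843952371148937288) (.dwn (nat_lit 145264072603117527868687678156847762011390543858023736209896893987308297518452140365920) (nat_lit 625757184)) .nil .nil) .dup) l3074 = true := by decide +kernel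
theorem cw13449 : wchk (nat_lit 5) [] [l3074] (nat_lit 20) (nat_lit 2) (nat_lit 0) (nat_lit 0) (nat_lit 156815616) (nat_lit 0) w13449 = true := by decide +kernel
theorem cw13453 : wchk (nat_lit 5) [w206, w2433] [] (nat_lit 145) (nat_lit 1) (nat_lit 1) (nat_lit 2) (nat_lit 4920602624) (nat_lit 21712900) w13453 = true := by decide +kernel
theorem cw13454 : wchk (nat_lit 5) [w205, w2433] [] (nat_lit 145) (nat_lit 1) (nat_lit 1) (nat_lit 2) (nat_lit 4920602624) (nat_lit 21712900) w13454 = true := by decide +kernel
theorem cw13455 : wchk (nat_lit 5) [w204, w2433] [] (nat_lit 145) (nat_lit 1) (nat_lit 1) (nat_lit 2) (nat_lit 88764416) (nat_lit 21712900) w13455 = true := by decide +kernel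
theorem cw13456 : wchk (nat_lit 5) [w3888, w2433] [] (nat_lit 1) (nat_lit 1) (nat_lit 1) (nat_lit 2) (nat_lit 90391552) (nat_lit 21712900) w13456 = true := by decide +kernel
theorem cw13457 : wchk (nat_lit 5) [w4100, w2433] [] (nat_lit 1) (nat_lit 1) (nat_lit 1) (nat_lit 2) (nat_lit 90269696) (nat_lit 21712900) w13457 = true := by decide +kernel
theorem cl3075 : lchk (nat_lit 5) [w1408, w17, w16, w4209, w13453, w24, w13454, w13455, w13456, w3, w13457, w1448, w1449] (nat_lit 21777408) (.nod (nat_lit 291395767410562143699123348663092447353120016172602470251778168840) (.nod (nat_lit 1115896344446505063163444346057796176614492771165269143738239195136) (.nod (nat_lit 7855883011234165011769705255766827167526250762640831607044738422784) (.nod (nat_lit 1139561936200812664704235206245462646308243458616690365214710692341260211679647608903680) .nil .nil (.dwn (nat_lit 9096733718757398939621710323269006324630214112766567935040328633392461323577908100896768) (nat_lit 39280462848))) (.nod (nat_lit 1139561936200812664704235206245462646308243458616690365214892235031539806709740958423040) .nil (.dwn (nat_lit 9096733718757398939621710323269006324630214112766567935041777826682969148009498153621504)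 (nat_lit 39280462848)) .dup) .nil) .nil (.dwn (nat_lit 7855883011234165012195573527145429574594507125608049103327584622592) (nat_lit 625757184))) .nil (.nod (nat_lit 1115896344446505063163444346057796176614492771165269143738239195136) (.opn (nat_lit 144915463381239380339550816617519686518422995119334271393599792438078356543554155223040)) (.dwn (nat_lit 144915463381239380339550816617519686518422995119334271393599792438078356543554155223040) (nat_lit 625757184)) .dup)) .nil .nil (.nod (nat_lit 1134074134313892262673455144408902924987237420183135571873712752657) (.nod (nat_lit 968945224825550569665528466650451018405578742382758243911494471704) .nil .nil (.nod (nat_lit 291395767410562143699123348663092447353120016172602470251778168840) (.dwn (nat_lit 20933257016313870033395905290105862396710945014266117854636997449343498228126607628328) (nat_lit 90391580)) .nil .nil)) (.nod (nat_lit 20933260721660725627514159045244638207097780772539924439250402858679843952371148937288) (.dwn (nat_lit 145264072603117527868687678156847762011390543858023736209896893987308297518452140365920) (nat_lit 625757184)) .nil .nil) .dup) l3075 = true := by decide +kernel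
theorem cw13458 : wchk (nat_lit 5) [] [l3075] (nat_lit 20) (nat_lit 2) (nat_lit 0) (nat_lit 0) (nat_lit 156815616) (nat_lit 0) w13458 = true := by decide +kernel
theorem cl3076 : lchk (nat_lit 5) [w731, w4, w1748, w3762, w1260, w1245, w893] (nat_lit 23275520) .nil (.nod (nat_lit 5391903215289985006633820991758780774032040344899649136114497590498317928238531215707) (.nod (nat_lit 618973026461974152106475842) (.nod (nat_lit 618970646831988643607871578) .nil .nil (.nod (nat_lit 15455118765387046654691811814967042336840744986) (.opn (nat_lit 9097080657794181928102045924422863002797152729202960920498887697015552312324479626137600)) .dup .dup)) .nil .nil) (.nod (nat_lit 40990399590009933179944128693075519380057574571636759669979237252686210769354778) .nil (.dwn (nat_lit 207160550490255548223505526660085252886277916711185786061737376261251630558019602403376) (nat_lit 627255296)) .dup) .nil) .nil .nil l3076 = true := by decide +kernel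
theorem cw13459 : wchk (nat_lit 5) [] [l3076] (nat_lit 18) (nat_lit 3) (nat_lit 2) (nat_lit 0) (nat_lit 156815616) (nat_lit 0) w13459 = true := by decide +kernel
theorem cw13460 : wchk (nat_lit 5) [w13459, w177] [] (nat_lit 146) (nat_lit 2) (nat_lit 1) (nat_lit 2) (nat_lit 4922229760) (nat_lit 22307844) w13460 = true := by decide +kernel
theorem cl3077 : lchk (nat_lit 5) [w1326, w1128, w500, w648, w8264, w368, w1, w4209, w2740, w13460, w871, w1540, w748, w257, w112, w2690, w13, w8265] (nat_lit 4887119872) (.nod (nat_lit 7855253097797917222968373570462418854993726624020409655890120478721) (.nod (nat_lit 272768147878613663826498724996439705487439767860376794693382907937) (.nod (nat_lit 15533179880641076859330868141567112021366800707) (.nod (nat_lit 3182454791689673575319636443311540336027368564867153040422284761711630164260039120960) .nil .nil (.nod (nat_lit 3885341721382492210881864269510386351674676422209084257983162756162371726437322326082) (.dwn (nat_lit 20933262574334153424573285922814026112290096158586075373875577890326348591016765204560) (nat_lit 625707008)) .nil .nil)) (.nod (nat_lit 70633174434762879208378300855299623790494690646040744920935145863894649335185538)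 .nil (.dwn (nat_lit 207416189780516697633404489427233392973602981781274870450842084068164299793584533997704) (nat_lit 88836096)) (.dwn (nat_lit 207416189780516697633404489427233392973602981781274870450842084068164299793584533997704) (nat_lit 88836096))) .nil) .nil (.dwn (nat_lit 272768141601511928439817960820367915358834888276199998723870631968) (nat_lit 122390528))) .nil (.nod (nat_lit 8276502258195044234822035003807123676211381991450893718306000670720) (.opn (nat_lit 1201715720784296851822184204482008139925548475656285605489776501670025726120815469465600)) .dup .dup)) .nil .nil (.nod (nat_lit 61775146425822095076915722980665890779218805378009281104755274747904) (.nod (nat_lit 9096722098789659796466866547153805383257097208967926570944155148480757561771420164755456) .nil (.dwn (nat_lit 72754096359242349995806667483342154809832862442166947129559239881692192292169477726343168) (nat_lit 314158319616)) .dup) (.dwn (nat_lit 9096722098789659796466866547153805383283830072563245340628873046356049268628706240696320) (nat_lit 39280412672)) (.dwn (nat_lit 9096722098789659796466866547153805383283830072563245340628873046356049268628706240696320) (nat_lit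 39280412672))) l3077 = true := by decide +kernel
theorem cw13461 : wchk (nat_lit 5) [] [l3077] (nat_lit 145) (nat_lit 3) (nat_lit 1) (nat_lit 0) (nat_lit 1230557440) (nat_lit 0) w13461 = true := by decide +kernel
theorem cw13462 : wchk (nat_lit 5) [] [l784] (nat_lit 2) (nat_lit 0) (nat_lit 1) (nat_lit 0) (nat_lit 5576960) (nat_lit 0) w13462 = true := by decide +kernel
theorem cw13463 : wchk (nat_lit 5) [] [l330] (nat_lit 0) (nat_lit 1) (nat_lit 4) (nat_lit 1) (nat_lit 21146368) (nat_lit 0) w13463 = true := by decide +kernel
theorem cl3078 : lchk (nat_lit 5) [w3406, w39, w461, w34, w3, w953, w13463, w954, w955, w603, w1245, w3339, w861, w13462, w12887, w12891] (nat_lit 592718848) (.nod (nat_lit 1122375575134872930374063549690343875580775517843239606391896823817) (.nod (nat_lit 20919976126846706815045603342192492045276842930556604368616352429438976422030971918368) .nil .nil (.dwn (nat_lit 4528709201365545575367213584505862219063941994736271036905385136756263786175914248240) (nat_lit 22293504))) (.nod (nat_lit 1120215844126287112057054388802447929834081320859507964008608241672) .nil .nil (.dwn (nat_lit 141835131056172699334558516922608075579060492217527830435596912696)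 (nat_lit 894708736))) (.nod (nat_lit 20558102689562246241107139692900395866631881568307669774879993521257107747214557665360) (.dwn (nat_lit 207429479007014285935171205846318367991338097590909130908878181148748542717878486911088) (nat_lit 894708736)) .nil .nil)) .nil .nil (.dwn (nat_lit 141835131056172699334558516922608075579060492217527830435596912696) (nat_lit 626273280)) l3078 = true := by decide +kernel
theorem cw13464 : wchk (nat_lit 5) [] [l3078] (nat_lit 0) (nat_lit 0) (nat_lit 2) (nat_lit 1) (nat_lit 5820672) (nat_lit 0) w13464 = true := by decide +kernel
theorem cw13465 : wchk (nat_lit 5) [w13464, w177] [] (nat_lit 1) (nat_lit 0) (nat_lit 1) (nat_lit 2) (nat_lit 23282688) (nat_lit 22307844) w13465 = true := by decide +kernel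
theorem cl3079 : lchk (nat_lit 5) [w1449, w2015, w6714, w199, w201, w3, w34, w3407, w3406, w12, w13, w6103, w12887] (nat_lit 22293504) (.nod (nat_lit 20694215016747729818343548076558761352721709056913841618028310536491408382056317214737) (.nod (nat_lit 20707494864086089900854660318564281759669411808842891186907748158164752527802011113488) .nil .nil (.dwn (nat_lit 5259105320866830368453654078189993936592363904361610571620118359726558305741987588128) (nat_lit 22228992))) (.nod (nat_lit 1114456779042918423344023475612773606977334322814928132884112545832) (.opn (nat_lit 271868557597610192446469204916796969181769358488757537048863891512)) .nil .dup) (.dwn (nat_lit 5121331261408702066478454261482106538084371412178950793304426865264675984733021855824) (nat_lit 89337904))) .nil .nil (.dwn (nat_lit 5378624989040874246846779834542533774366231547529927004310503684749786395563228588064) (nat_lit 22293504)) l3079 = true := by decide +kernel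
theorem cw13466 : wchk (nat_lit 5) [] [l3079] (nat_lit 26) (nat_lit 2) (nat_lit 3) (nat_lit 0) (nat_lit 5705984) (nat_lit 0) w13466 = true := by decide +kernel
theorem cl3080 : lchk (nat_lit 5) [w8449, w5875, w7084, w5874, w42, w386, w1063, w13313, w12203, w495, w497, w13432, w2015, w6714, w13449, w13465, w8276, w1449, w7376, w2051, w13466, w7436, w581, w1326, w13458, w7076, w13461, w12909, w7559, w12906, w12900] (nat_lit 39248413696) (.nod (nat_lit 61794673943213032062130789667847810010372378991108031623756241078273) (.nod (nat_lit 291395773687663879101566563749318534285960679476954183522698549257) (.nod (nat_lit 1126785163778761249396362189008583445224459337853771581835118323745) (.nod (nat_lit 1139910541717343956578580975680174101955240480618645064461739563336477527584698382063680) .nil .nil (.dwn (nat_lit 5362030593148095988249677147327508046763525981640154719456728806265935065782356961360) (nat_lit 39281968172))) (.nod (nat_lit 28464900659562409748951647267310612460572218212059427162288788418139423238084275888232) .nil (.nod (nat_lit 9097082331684623942252092574999785250751926966947297801628802944507840583170605131958400) (.dwn (nat_lit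 1637008028943616813268451374217215687926689080562286874989738298314287025439091658938520) (nat_lit 7069713408)) .nil .nil) .dup) (.nod (nat_lit 28328790300842443204808905973481813199033793179619898094432739280921020259844058720440) (.dwn (nat_lit 9097082341874327795146877450242385111924117229052437562457811567374327266238767256127704) (nat_lit 895239288)) .nil .nil)) .nil (.dwn (nat_lit 291395767410562143714885799573246744157355799892777387553186273288) (nat_lit 660816896))) .nil (.nod (nat_lit 62215923103610159076908512964352963418514653797597836502394223364096) (.opn (nat_lit 9159247722340796564539816381076781000837528232349838551784741324687101523892395477207040)) (.dwn (nat_lit 9159247722340796564539816381076781000837528232349838551784741324687101523892395477207040) (nat_lit 39550403584)) .dup)) .nil .nil (.nod (nat_lit 493153820611346167041416350296326111366626673935864618534441683683328) (.nod (nat_lit 72754456578242263433606824542913383992399486459924829416585542905960751465549895381190656) .nil (.dwn (nat_lit 582013450661863785028325232032420179405005608325516993885506220771652229308734355873892352) (nat_lit 2513183130624)) (.dwn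 (nat_lit 582013450661863785028325232032420179405005608325516993885506220771652229308734355873892352) (nat_lit 2513183130624))) (.dwn (nat_lit 72754456578242263433606824542913383992613292591687002402550849712197354153700051059640320) (nat_lit 314159875072)) .dup) l3080 = true := by decide +kernel
theorem cw13467 : wchk (nat_lit 5) [] [l3080] (nat_lit 1169) (nat_lit 2) (nat_lit 2) (nat_lit 0) (nat_lit 9820492032) (nat_lit 0) w13467 = true := by decide +kernel
theorem cw13468 : wchk (nat_lit 5) [w368, w3898] [] (nat_lit 1) (nat_lit 1) (nat_lit 3) (nat_lit 2) (nat_lit 88893440) (nat_lit 22228996) w13468 = true := by decide +kernel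
theorem cw13469 : wchk (nat_lit 5) [w370, w3898] [] (nat_lit 1) (nat_lit 1) (nat_lit 3) (nat_lit 2) (nat_lit 88893440) (nat_lit 22228996) w13469 = true := by decide +kernel
theorem cw13470 : wchk (nat_lit 5) [w384, w3898] [] (nat_lit 1) (nat_lit 1) (nat_lit 3) (nat_lit 2) (nat_lit 88893440) (nat_lit 22228996) w13470 = true := by decide +kernel
theorem cw13471 : wchk (nat_lit 5) [w373, w3898] [] (nat_lit 1) (nat_lit 1) (nat_lit 3) (nat_lit 2) (nat_lit 88893440) (nat_lit 22228996) w13471 = true := by decide +kernel
theorem cw13472 : wchk (nat_lit 5) [w382, w3898] [] (nat_lit 1) (nat_lit 1) (nat_lit 3) (nat_lit 2) (nat_lit 88893440) (nat_lit 22228996) w13472 = true := by decide +kernel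
theorem cw13473 : wchk (nat_lit 5) [w497, w175] [] (nat_lit 0) (nat_lit 1) (nat_lit 3) (nat_lit 2) (nat_lit 22307840) (nat_lit 122447876) w13473 = true := by decide +kernel
theorem cw13474 : wchk (nat_lit 5) [w497, w175] [] (nat_lit 0) (nat_lit 1) (nat_lit 1) (nat_lit 2) (nat_lit 21727232) (nat_lit 122318852) w13474 = true := by decide +kernel
theorem cw13475 : wchk (nat_lit 5) [w1170, w177] [] (nat_lit 2) (nat_lit 2) (nat_lit 1) (nat_lit 2) (nat_lit 89416704) (nat_lit 22307844) w13475 = true := by decide +kernel
theorem cw13476 : wchk (nat_lit 5) [w32, w177] [] (nat_lit 18) (nat_lit 2) (nat_lit 1) (nat_lit 2) (nat_lit 626803712) (nat_lit 22307844) w13476 = true := by decide +kernel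
theorem cw13477 : wchk (nat_lit 5) [w33, w177] [] (nat_lit 18) (nat_lit 2) (nat_lit 1) (nat_lit 2) (nat_lit 626610176) (nat_lit 22307844) w13477 = true := by decide +kernel
theorem cw13478 : wchk (nat_lit 5) [] [] (nat_lit 0) (nat_lit 0) (nat_lit 4) (nat_lit 2) (nat_lit 16777253) (nat_lit 25165857) w13478 = true := by decide +kernel
theorem cl3081 : lchk (nat_lit 5) [w105, w392, w175, w33, w539, w4698, w359, w13478, w3105, w13476, w13477] (nat_lit 90319872) .nil (.nod (nat_lit 608560857395518752705975349165496482454881435714) (.nod (nat_lit 1535615812813328752737298646932432273402622317013087403392529780753) .nil (.nod (nat_lit 7866591797011548572246255223209134832093048626983020426192002375720) .nil .nil (.nod (nat_lit 7873880717329865702855775231201048188674552326675807026826510096384) (.nod (nat_lit 1139893935279073897699771666679775256968726424292157910861254469380442270654826354595840) .nil (.dwn (nat_lit 9097065717835660172617246783703318935290697078442035480688140061031871611954583549794304) (nat_lit 39281896448)) .dup) (.dwn (nat_lit 1139893935279073897699771666679775256972076271495800754819492537596516482556236952524800) (nat_lit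 4922158080)) (.dwn (nat_lit 1139893935279073897699771666679775256972076271495800754819492537596516482556236952524800) (nat_lit 4922158080)))) (.dwn (nat_lit 1031127450036638106709755885418877529066750700521084095606277169216) (nat_lit 90319872))) .nil .nil) (.nod (nat_lit 5391910510191606957554132676730836321370235100908683071470032076326110426765748862994) .nil (.dwn (nat_lit 48401093301199304481490686863251223268731934595665671956041548136983847770259842) (nat_lit 90391592)) .dup) .nil l3081 = true := by decide +kernel
theorem cw13479 : wchk (nat_lit 5) [] [l3081] (nat_lit 1) (nat_lit 1) (nat_lit 1) (nat_lit 0) (nat_lit 5820672) (nat_lit 0) w13479 = true := by decide +kernel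
theorem cw13480 : wchk (nat_lit 5) [w7314, w175] [] (nat_lit 0) (nat_lit 1) (nat_lit 1) (nat_lit 2) (nat_lit 23225344) (nat_lit 122318852) w13480 = true := by decide +kernel
theorem cw13481 : wchk (nat_lit 5) [w7314, w175] [] (nat_lit 0) (nat_lit 1) (nat_lit 1) (nat_lit 2) (nat_lit 23160832) (nat_lit 122318852) w13481 = true := by decide +kernel
theorem cw13482 : wchk (nat_lit 5) [w13200, w177] [] (nat_lit 2) (nat_lit 2) (nat_lit 1) (nat_lit 2) (nat_lit 88886272) (nat_lit 22307844) w13482 = true := by decide +kernel
theorem cw13483 : wchk (nat_lit 5) [] [l115] (nat_lit 1) (nat_lit 2) (nat_lit 1) (nat_lit 0) (nat_lit 22221568) (nat_lit 0) w13483 = true := by decide +kernel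
theorem cw13484 : wchk (nat_lit 5) [w2548, w177] [] (nat_lit 2) (nat_lit 2) (nat_lit 1) (nat_lit 2) (nat_lit 73044992) (nat_lit 22307844) w13484 = true := by decide +kernel
theorem cw13485 : wchk (nat_lit 5) [w195, w497] [] (nat_lit 2) (nat_lit 0) (nat_lit 1) (nat_lit 2) (nat_lit 21655552) (nat_lit 21784580) w13485 = true := by decide +kernel
theorem cw13486 : wchk (nat_lit 5) [w397, w495] [] (nat_lit 2) (nat_lit 0) (nat_lit 2) (nat_lit 2) (nat_lit 21727232) (nat_lit 21777412) w13486 = true := by decide +kernel
theorem cw13487 : wchk (nat_lit 5) [] [l96] (nat_lit 1) (nat_lit 2) (nat_lit 1) (nat_lit 0) (nat_lit 22209024) (nat_lit 0) w13487 = true := by decide +kernel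
theorem cw13488 : wchk (nat_lit 5) [w162, w392] [] (nat_lit 1) (nat_lit 0) (nat_lit 2) (nat_lit 2) (nat_lit 89402368) (nat_lit 894199812) w13488 = true := by decide +kernel
theorem cw13489 : wchk (nat_lit 5) [w949, w175] [] (nat_lit 0) (nat_lit 1) (nat_lit 1) (nat_lit 2) (nat_lit 13992960) (nat_lit 122318852) w13489 = true := by decide +kernel
theorem cw13490 : wchk (nat_lit 5) [w949, w175] [] (nat_lit 0) (nat_lit 1) (nat_lit 1) (nat_lit 2) (nat_lit 13469696) (nat_lit 122318852) w13490 = true := by decide +kernel
theorem cw13491 : wchk (nat_lit 5) [w497] [] (nat_lit 2) (nat_lit 0) (nat_lit 4) (nat_lit 2) (nat_lit 333) (nat_lit 9204736) w13491 = true := by decide +kernel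
theorem cw13492 : wchk (nat_lit 5) [w370, w497] [] (nat_lit 1) (nat_lit 1) (nat_lit 1) (nat_lit 2) (nat_lit 88764416) (nat_lit 21784580) w13492 = true := by decide +kernel
theorem cw13493 : wchk (nat_lit 5) [w495, w373] [] (nat_lit 0) (nat_lit 0) (nat_lit 1) (nat_lit 2) (nat_lit 22250496) (nat_lit 88771588) w13493 = true := by decide +kernel
theorem cw13494 : wchk (nat_lit 5) [w495, w373] [] (nat_lit 0) (nat_lit 0) (nat_lit 1) (nat_lit 2) (nat_lit 21727232) (nat_lit 88771588) w13494 = true := by decide +kernel
theorem cw13495 : wchk (nat_lit 5) [w497, w373] [] (nat_lit 0) (nat_lit 0) (nat_lit 1) (nat_lit 2) (nat_lit 21727232) (nat_lit 88771588) w13495 = true := by decide +kernel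
theorem cw13496 : wchk (nat_lit 5) [w16, w1235] [] (nat_lit 4) (nat_lit 0) (nat_lit 3) (nat_lit 2) (nat_lit 88893440) (nat_lit 626208772) w13496 = true := by decide +kernel
theorem cw13497 : wchk (nat_lit 5) [w505, w497] [] (nat_lit 1) (nat_lit 1) (nat_lit 1) (nat_lit 2) (nat_lit 88836096) (nat_lit 21784580) w13497 = true := by decide +kernel
theorem cw13498 : wchk (nat_lit 5) [w508, w373] [] (nat_lit 0) (nat_lit 0) (nat_lit 1) (nat_lit 2) (nat_lit 21727232) (nat_lit 88771588) w13498 = true := by decide +kernel
theorem cl3082 : lchk (nat_lit 5) [w498, w388, w392, w13475, w114, w4777, w1449, w13488, w5874, w13484, w494, w267, w493, w13489, w13490, w7084, w6394, w257, w255, w13479, w13480, w13481, w13482, w13483, w497, w495, w373, w177, w13491, w1235, w4847, w4566, w3565, w1408, w13496, w13497, w1634, w358, w13498, w2800, w13492, w13493, w13494, w502, w13495, w393, w397, w13362, w13485, w13486, w402, w13487, w13251] (nat_lit 21784576) (.nod (nat_lit 11224346589826674311062773164196182921724082235185217883687217717256) (.nod (nat_lit 20933256089977156134848434133755946256482893975666862577808881925926652919045334558752) .nil (.dwn (nat_lit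 145038308598216319939088926101285406531414153913918661281970963292828921539998490511416) (nat_lit 627262500)) .dup) (.nod (nat_lit 20586323537551164944237864746018304978935842885372043338892097705745740394959323080792) .nil (.dwn (nat_lit 145264074455790955665748424827965762978354903096883412541089157314450331459081699018864) (nat_lit 625764352)) (.dwn (nat_lit 145264074455790955665748424827965762978354903096883412541089157314450331459081699018864) (nat_lit 625764352))) (.nod (nat_lit 20662688883571531924384491806216357987537797375895206924357897903252825586616558364808) (.dwn (nat_lit 145264080940147952955455368899458620646958758426557618002244076592841381223612780333224) (nat_lit 627262500)) .nil .nil)) (.nod (nat_lit 273489204832059267232565272827055747031573360010810798678514133184) .nil (.nod (nat_lit 1114457833596009968245664763821381844597489815118652393379931560144) .nil .nil (.nod (nat_lit 7874782008705439464026569829189590038249205741563932999940521281760) (.nod (nat_lit 20827041396024836897096727248767084299093868296034998700338347925132859351092671351032) .nil (.nod (nat_lit 144915493950350938991045307739031886562422341348772275900331424319155810561964431067408)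 (.dwn (nat_lit 1139030771023716392258468419921763251978390973475843195289645527456819722956288583979304) (nat_lit 314158376960)) .nil .nil) .dup) (.nod (nat_lit 20662710189315951590565169350220544315196711065452310864866292347199149501264776456280) (.dwn (nat_lit 145264100393218944824576201113937193651488587568996459820947205218230441498986385197392) (nat_lit 39280470016)) .nil .nil) .dup)) (.nod (nat_lit 273490259385150812194889749815006881476082695504627991494469937512) (.dwn (nat_lit 145264106877575942114283145185430051320030964581612444502162083580255094405960951089544) (nat_lit 627262672)) .nil .nil)) .nil .nil l3082 = true := by decide +kernel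
theorem cw13499 : wchk (nat_lit 5) [] [l3082] (nat_lit 17) (nat_lit 3) (nat_lit 3) (nat_lit 0) (nat_lit 5820672) (nat_lit 0) w13499 = true := by decide +kernel
theorem cw13500 : wchk (nat_lit 5) [] [l121] (nat_lit 145) (nat_lit 2) (nat_lit 0) (nat_lit 0) (nat_lit 1230182912) (nat_lit 0) w13500 = true := by decide +kernel
theorem cw13501 : wchk (nat_lit 5) [] [l3082] (nat_lit 17) (nat_lit 3) (nat_lit 3) (nat_lit 0) (nat_lit 5820672) (nat_lit 0) w13501 = true := by decide +kernel
theorem cw13502 : wchk (nat_lit 5) [w7230, w175] [] (nat_lit 17) (nat_lit 0) (nat_lit 1) (nat_lit 2) (nat_lit 21712896) (nat_lit 88764420) w13502 = true := by decide +kernel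
theorem cw13503 : wchk (nat_lit 5) [] [l3082] (nat_lit 17) (nat_lit 3) (nat_lit 3) (nat_lit 0) (nat_lit 5820672) (nat_lit 0) w13503 = true := by decide +kernel
theorem cw13504 : wchk (nat_lit 5) [w676, w3898] [] (nat_lit 1) (nat_lit 1) (nat_lit 3) (nat_lit 2) (nat_lit 88893440) (nat_lit 22228996) w13504 = true := by decide +kernel
theorem cw13505 : wchk (nat_lit 5) [w162, w175] [] (nat_lit 17) (nat_lit 0) (nat_lit 1) (nat_lit 2) (nat_lit 21662720) (nat_lit 88764420) w13505 = true := by decide +kernel
theorem cw13506 : wchk (nat_lit 5) [w1326, w175] [] (nat_lit 17) (nat_lit 0) (nat_lit 3) (nat_lit 2) (nat_lit 89925632) (nat_lit 88893444) w13506 = true := by decide +kernel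
theorem cw13507 : wchk (nat_lit 5) [w7311, w175] [] (nat_lit 17) (nat_lit 0) (nat_lit 1) (nat_lit 2) (nat_lit 22709248) (nat_lit 88764420) w13507 = true := by decide +kernel
theorem cw13508 : wchk (nat_lit 5) [w7311, w175] [] (nat_lit 17) (nat_lit 0) (nat_lit 1) (nat_lit 2) (nat_lit 22644736) (nat_lit 88764420) w13508 = true := by decide +kernel
theorem cw13509 : wchk (nat_lit 5) [] [l866] (nat_lit 145) (nat_lit 1) (nat_lit 0) (nat_lit 0) (nat_lit 1230543104) (nat_lit 0) w13509 = true := by decide +kernel
theorem cw13510 : wchk (nat_lit 5) [w11772, w175] [] (nat_lit 17) (nat_lit 0) (nat_lit 3) (nat_lit 2) (nat_lit 626230272) (nat_lit 88893444) w13510 = true := by decide +kernel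
theorem cw13511 : wchk (nat_lit 5) [w12872, w175] [] (nat_lit 17) (nat_lit 0) (nat_lit 3) (nat_lit 2) (nat_lit 22307840) (nat_lit 88893444) w13511 = true := by decide +kernel
theorem cw13512 : wchk (nat_lit 5) [] [l3010] (nat_lit 1) (nat_lit 0) (nat_lit 1) (nat_lit 0) (nat_lit 5820672) (nat_lit 0) w13512 = true := by decide +kernel
theorem cw13513 : wchk (nat_lit 5) [w13466, w175] [] (nat_lit 17) (nat_lit 0) (nat_lit 3) (nat_lit 2) (nat_lit 21777408) (nat_lit 88893444) w13513 = true := by decide +kernel
theorem cw13515 : wchk (nat_lit 5) [w3953, w175] [] (nat_lit 17) (nat_lit 0) (nat_lit 3) (nat_lit 2) (nat_lit 22307840) (nat_lit 88893444) w13515 = true := by decide +kernel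
theorem cl3083 : lchk (nat_lit 5) [w13131, w177, w175, w3898, w511, w386, w3815, w680, w13505, w13466, w13104, w8449, w13512, w13111, w7461, w13513, w3843, w681, w679, w13515, w9771, w13506, w12329, w13507, w13508, w13509, w13510, w13511, w13473, w13474, w498, w13499, w13500, w13501, w13502, w13503, w5745, w13220, w13221, w4078, w4038, w13467, w13132, w13218, w13468, w4209, w1408, w9763, w13504, w10828, w3766, w13469, w13470, w13471, w502, w13472] (nat_lit 23282688) (.nod (nat_lit 280057212570270708314899264139533204029757730676466375023050147848) (.nod (nat_lit 1114366639861998270562699938595863475283630179425321535386737627152) (.nod (nat_lit 7854353407083285985827046913878089185853582318149517397556119392288) (.nod (nat_lit 1139897260827876793420886324272417181482813349363665703068575150880153872391753751128120) .nil (.nod (nat_lit 5362030593148095988190014751620260255829049419382403785216903539113645668500202227792) (.dwn (nat_lit 72754456589358303996446281344892285439549275046348181172355857227038249793621351162529896) (nat_lit 314159875072)) .nil .nil) .dup) (.nod (nat_lit 1139671510718026293969229404005076622226240653647803932204553399241368262674191125899400)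 .nil (.dwn (nat_lit 5240850929582745944779701728216094347802997945451942732008524439034000916147497240656) (nat_lit 39281968204)) .dup) (.nod (nat_lit 5378640736765010583353266433337862558852129101133076138395329389733273074176738412712) (.dwn (nat_lit 9097082339095317653933190607518910436145690930253518852388390009201652879391405947422912) (nat_lit 39281968236)) .nil .nil)) .nil (.nod (nat_lit 292297008569322021792317291272671498748217380435227179143754369248) (.dwn (nat_lit 1139910563949425090203964956354033213918691891805207088174699010090377565667066783418624) (nat_lit 4922229900)) .nil .nil)) .nil (.nod (nat_lit 1134795743652290580123230420010629525532583506224355512106200025376) (.dwn (nat_lit 145264097614208803128972932655645594233919714849503809391545694951964078295406221629752) (nat_lit 627262628)) .nil .nil)) .nil .nil (.nod (nat_lit 292297711604716385084717385573734310525136507106517639019027188048) (.nod (nat_lit 20933294069782425974413493865126523666713953844397202837023956961333160516677165846888) .nil (.dwn (nat_lit 144915505992728219671928912534989079918536114728755412299701425786676052813857472301432) (nat_lit 627262656))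 .dup) (.nod (nat_lit 20931638706074689302243718352599688023667193573101864527595984800120966419825709836688) (.dwn (nat_lit 145264110582922797708401398940568827130052385904249427928634070093905392240658873797032) (nat_lit 627262464)) .nil .nil) .dup) l3083 = true := by decide +kernel
theorem cw13516 : wchk (nat_lit 5) [] [l3083] (nat_lit 20) (nat_lit 1) (nat_lit 2) (nat_lit 0) (nat_lit 156815616) (nat_lit 0) w13516 = true := by decide +kernel
theorem cw13517 : wchk (nat_lit 5) [] [l3010] (nat_lit 1) (nat_lit 0) (nat_lit 1) (nat_lit 0) (nat_lit 5820672) (nat_lit 0) w13517 = true := by decide +kernel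
theorem cw13518 : wchk (nat_lit 5) [w114, w34] [] (nat_lit 2) (nat_lit 1) (nat_lit 4) (nat_lit 2) (nat_lit 76313600) (nat_lit 18523140) w13518 = true := by decide +kernel
theorem cw13519 : wchk (nat_lit 5) [w6841, w34] [] (nat_lit 2) (nat_lit 1) (nat_lit 4) (nat_lit 2) (nat_lit 89402368) (nat_lit 18523140) w13519 = true := by decide +kernel
theorem cw13520 : wchk (nat_lit 5) [w7353, w34] [] (nat_lit 2) (nat_lit 1) (nat_lit 4) (nat_lit 2) (nat_lit 76378112) (nat_lit 18523140) w13520 = true := by decide +kernel
theorem cw13521 : wchk (nat_lit 5) [w7466, w34] [] (nat_lit 2) (nat_lit 1) (nat_lit 4) (nat_lit 2) (nat_lit 78392320) (nat_lit 18523140) w13521 = true := by decide +kernel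
theorem cw13522 : wchk (nat_lit 5) [] [l1896] (nat_lit 2) (nat_lit 1) (nat_lit 3) (nat_lit 0) (nat_lit 5573376) (nat_lit 0) w13522 = true := by decide +kernel
theorem cw13523 : wchk (nat_lit 5) [w6968, w16] [] (nat_lit 0) (nat_lit 0) (nat_lit 1) (nat_lit 2) (nat_lit 89818112) (nat_lit 22630404) w13523 = true := by decide +kernel
theorem cw13524 : wchk (nat_lit 5) [w11940, w34] [] (nat_lit 145) (nat_lit 0) (nat_lit 4) (nat_lit 2) (nat_lit 22121472) (nat_lit 18523140) w13524 = true := by decide +kernel
theorem cw13525 : wchk (nat_lit 5) [w7353, w34] [] (nat_lit 145) (nat_lit 0) (nat_lit 4) (nat_lit 2) (nat_lit 10236928) (nat_lit 18523140) w13525 = true := by decide +kernel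
theorem cw13526 : wchk (nat_lit 5) [w7466, w34] [] (nat_lit 145) (nat_lit 0) (nat_lit 4) (nat_lit 2) (nat_lit 10839040) (nat_lit 18523140) w13526 = true := by decide +kernel
theorem cw13527 : wchk (nat_lit 5) [w1207, w34] [] (nat_lit 25) (nat_lit 1) (nat_lit 4) (nat_lit 2) (nat_lit 613134336) (nat_lit 18523140) w13527 = true := by decide +kernel
theorem cw13528 : wchk (nat_lit 5) [w2936, w34] [] (nat_lit 145) (nat_lit 0) (nat_lit 4) (nat_lit 2) (nat_lit 86592512) (nat_lit 18523140) w13528 = true := by decide +kernel
theorem cw13529 : wchk (nat_lit 5) [w2228, w16] [] (nat_lit 1) (nat_lit 1) (nat_lit 2) (nat_lit 2) (nat_lit 86664192) (nat_lit 22114308) w13529 = true := by decide +kernel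
theorem cw13530 : wchk (nat_lit 5) [w114, w16] [] (nat_lit 1) (nat_lit 1) (nat_lit 1) (nat_lit 2) (nat_lit 88893440) (nat_lit 22630404) w13530 = true := by decide +kernel
theorem cw13531 : wchk (nat_lit 5) [w114, w16] [] (nat_lit 1) (nat_lit 1) (nat_lit 1) (nat_lit 2) (nat_lit 84764672) (nat_lit 22630404) w13531 = true := by decide +kernel
theorem cw13532 : wchk (nat_lit 5) [w1599] [] (nat_lit 0) (nat_lit 0) (nat_lit 4) (nat_lit 2) (nat_lit 205) (nat_lit 10072064) w13532 = true := by decide +kernel
theorem cw13533 : wchk (nat_lit 5) [w4162, w16] [] (nat_lit 17) (nat_lit 1) (nat_lit 1) (nat_lit 2) (nat_lit 626624512) (nat_lit 22630404) w13533 = true := by decide +kernel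
theorem cw13534 : wchk (nat_lit 5) [w4162, w16] [] (nat_lit 17) (nat_lit 1) (nat_lit 1) (nat_lit 2) (nat_lit 622438400) (nat_lit 22630404) w13534 = true := by decide +kernel
theorem cw13535 : wchk (nat_lit 5) [w9576, w16] [] (nat_lit 17) (nat_lit 1) (nat_lit 1) (nat_lit 2) (nat_lit 627262464) (nat_lit 22630404) w13535 = true := by decide +kernel
theorem cw13536 : wchk (nat_lit 5) [] [l2017] (nat_lit 1) (nat_lit 3) (nat_lit 3) (nat_lit 0) (nat_lit 5820672) (nat_lit 0) w13536 = true := by decide +kernel
theorem cw13537 : wchk (nat_lit 5) [w13536, w16] [] (nat_lit 17) (nat_lit 1) (nat_lit 1) (nat_lit 2) (nat_lit 627262464) (nat_lit 22630404) w13537 = true := by decide +kernel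
theorem cw13538 : wchk (nat_lit 5) [w4766, w16] [] (nat_lit 17) (nat_lit 1) (nat_lit 1) (nat_lit 2) (nat_lit 627262464) (nat_lit 22630404) w13538 = true := by decide +kernel
theorem cw13539 : wchk (nat_lit 5) [w16, w368] [] (nat_lit 1) (nat_lit 0) (nat_lit 3) (nat_lit 2) (nat_lit 22250496) (nat_lit 21662724) w13539 = true := by decide +kernel
theorem cw13540 : wchk (nat_lit 5) [] [l753] (nat_lit 0) (nat_lit 1) (nat_lit 3) (nat_lit 0) (nat_lit 3492864) (nat_lit 0) w13540 = true := by decide +kernel
theorem cw13541 : wchk (nat_lit 5) [] [l2758] (nat_lit 2) (nat_lit 3) (nat_lit 2) (nat_lit 0) (nat_lit 2706176) (nat_lit 0) w13541 = true := by decide +kernel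
theorem cw13542 : wchk (nat_lit 5) [w2685, w16] [] (nat_lit 0) (nat_lit 0) (nat_lit 1) (nat_lit 2) (nat_lit 23160832) (nat_lit 22630404) w13542 = true := by decide +kernel
theorem cw13543 : wchk (nat_lit 5) [w2740, w16] [] (nat_lit 0) (nat_lit 0) (nat_lit 1) (nat_lit 2) (nat_lit 23153664) (nat_lit 22630404) w13543 = true := by decide +kernel
theorem cw13544 : wchk (nat_lit 5) [w2740, w16] [] (nat_lit 0) (nat_lit 0) (nat_lit 1) (nat_lit 2) (nat_lit 19483648) (nat_lit 22630404) w13544 = true := by decide +kernel
theorem cw13545 : wchk (nat_lit 5) [] [l201] (nat_lit 0) (nat_lit 2) (nat_lit 3) (nat_lit 0) (nat_lit 5705984) (nat_lit 0) w13545 = true := by decide +kernel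
theorem cw13546 : wchk (nat_lit 5) [w13545, w16] [] (nat_lit 1) (nat_lit 1) (nat_lit 1) (nat_lit 2) (nat_lit 23282688) (nat_lit 22630404) w13546 = true := by decide +kernel
theorem cw13547 : wchk (nat_lit 5) [w10059, w16] [] (nat_lit 1) (nat_lit 1) (nat_lit 1) (nat_lit 2) (nat_lit 22307840) (nat_lit 22630404) w13547 = true := by decide +kernel
theorem cw13548 : wchk (nat_lit 5) [w13541, w16] [] (nat_lit 1) (nat_lit 1) (nat_lit 1) (nat_lit 2) (nat_lit 18695168) (nat_lit 22630404) w13548 = true := by decide +kernel
theorem cw13549 : wchk (nat_lit 5) [w10253, w16] [] (nat_lit 1) (nat_lit 1) (nat_lit 1) (nat_lit 2) (nat_lit 22307840) (nat_lit 22630404) w13549 = true := by decide +kernel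
theorem cw13550 : wchk (nat_lit 5) [w3347, w16] [] (nat_lit 17) (nat_lit 1) (nat_lit 1) (nat_lit 2) (nat_lit 90334208) (nat_lit 22630404) w13550 = true := by decide +kernel
theorem cw13551 : wchk (nat_lit 5) [w1883, w16] [] (nat_lit 17) (nat_lit 1) (nat_lit 1) (nat_lit 2) (nat_lit 626094080) (nat_lit 22630404) w13551 = true := by decide +kernel
theorem cw13552 : wchk (nat_lit 5) [w1883, w16] [] (nat_lit 17) (nat_lit 1) (nat_lit 4) (nat_lit 2) (nat_lit 891906048) (nat_lit 13742084) w13552 = true := by decide +kernel
theorem cw13553 : wchk (nat_lit 5) [w162, w368] [] (nat_lit 2) (nat_lit 1) (nat_lit 2) (nat_lit 2) (nat_lit 89402368) (nat_lit 21655556) w13553 = true := by decide +kernel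
theorem cw13554 : wchk (nat_lit 5) [] [l1022] (nat_lit 18) (nat_lit 1) (nat_lit 4) (nat_lit 0) (nat_lit 3435520) (nat_lit 0) w13554 = true := by decide +kernel
theorem cw13555 : wchk (nat_lit 5) [] [l1545] (nat_lit 2) (nat_lit 1) (nat_lit 1) (nat_lit 0) (nat_lit 20270080) (nat_lit 0) w13555 = true := by decide +kernel
theorem cw13556 : wchk (nat_lit 5) [] [l1537] (nat_lit 26) (nat_lit 0) (nat_lit 1) (nat_lit 1) (nat_lit 20614144) (nat_lit 0) w13556 = true := by decide +kernel
theorem cl3084 : lchk (nat_lit 5) [w11320, w1125, w15, w220, w144, w2916, w2627, w8332, w4531, w13556, w8380, w3958, w2743, w149, w13554, w11319, w7359, w13555, w3478, w497, w8342] (nat_lit 22250496) .nil (.nod (nat_lit 7770685063854233744740666352455752746224359142629188622580909182454128578157067894784) (.nod (nat_lit 1009170047732627731199955765711343558036403257042175415327047096352) (.nod (nat_lit 13264775614695673115170868381851171222773389360) .nil .nil (.dwn (nat_lit 3349193513049212029528792094478460612625855612928) (nat_lit 4921197568))) .nil (.nod (nat_lit 273398362615744751186994812961459413287207698663985303035541018672) .nil (.opn (nat_lit 61781715588547025832511332034748593481285167399214392029289575286784))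 .dup)) (.nod (nat_lit 19125521108844742474143588092503260105273264520744702321458002636551831849012920789056) .nil (.dwn (nat_lit 145264070750444100064041926656089803855290088632076473687233457231372337514773025579088) (nat_lit 626208812)) .dup) (.nod (nat_lit 19085689556483819601351065898470627047787472984126771899322400669676912608940916115568) (.dwn (nat_lit 145025036972116295706026249562006388898475357397520646887219723978767489242788533799048) (nat_lit 626208812)) .nil .nil)) .nil (.nod (nat_lit 3559283935220025909058288914084413915836371541523893760490463682780160649234403557376) .nil (.dwn (nat_lit 46548419873401110560275535973492538957145882829218991876581031064410245837314208) (nat_lit 89359360)) (.dwn (nat_lit 46548419873401110560275535973492538957145882829218991876581031064410245837314208) (nat_lit 89359360))) l3084 = true := by decide +kernel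
theorem cw13557 : wchk (nat_lit 5) [] [l3084] (nat_lit 4) (nat_lit 1) (nat_lit 1) (nat_lit 0) (nat_lit 22597888) (nat_lit 0) w13557 = true := by decide +kernel
theorem cw13558 : wchk (nat_lit 5) [] [l1264] (nat_lit 2) (nat_lit 2) (nat_lit 1) (nat_lit 0) (nat_lit 22438400) (nat_lit 0) w13558 = true := by decide +kernel
theorem cw13559 : wchk (nat_lit 5) [] [l3084] (nat_lit 0) (nat_lit 2) (nat_lit 4) (nat_lit 0) (nat_lit 4903168) (nat_lit 0) w13559 = true := by decide +kernel
theorem cw13560 : wchk (nat_lit 5) [] [l1350] (nat_lit 1) (nat_lit 3) (nat_lit 0) (nat_lit 0) (nat_lit 3697152) (nat_lit 0) w13560 = true := by decide +kernel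
theorem cw13561 : wchk (nat_lit 5) [] [l1997] (nat_lit 18) (nat_lit 3) (nat_lit 2) (nat_lit 0) (nat_lit 5446144) (nat_lit 0) w13561 = true := by decide +kernel
theorem cw13562 : wchk (nat_lit 5) [w105, w220] [] (nat_lit 1) (nat_lit 1) (nat_lit 4) (nat_lit 2) (nat_lit 86649856) (nat_lit 10839044) w13562 = true := by decide +kernel
theorem cw13563 : wchk (nat_lit 5) [] [l240] (nat_lit 2) (nat_lit 1) (nat_lit 2) (nat_lit 0) (nat_lit 21649920) (nat_lit 0) w13563 = true := by decide +kernel
theorem cw13564 : wchk (nat_lit 5) [w13563, w220] [] (nat_lit 1) (nat_lit 1) (nat_lit 4) (nat_lit 2) (nat_lit 23282688) (nat_lit 10839044) w13564 = true := by decide +kernel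
theorem cw13565 : wchk (nat_lit 5) [] [l240] (nat_lit 2) (nat_lit 1) (nat_lit 2) (nat_lit 0) (nat_lit 21257472) (nat_lit 0) w13565 = true := by decide +kernel
theorem cw13566 : wchk (nat_lit 5) [w13565, w220] [] (nat_lit 1) (nat_lit 1) (nat_lit 4) (nat_lit 2) (nat_lit 23282688) (nat_lit 10839044) w13566 = true := by decide +kernel
theorem cw13567 : wchk (nat_lit 5) [] [l1350] (nat_lit 3) (nat_lit 3) (nat_lit 0) (nat_lit 0) (nat_lit 4614656) (nat_lit 0) w13567 = true := by decide +kernel
theorem cw13568 : wchk (nat_lit 5) [w13567, w220] [] (nat_lit 0) (nat_lit 0) (nat_lit 4) (nat_lit 2) (nat_lit 23282688) (nat_lit 10839044) w13568 = true := by decide +kernel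
theorem cw13569 : wchk (nat_lit 5) [] [l1279] (nat_lit 3) (nat_lit 3) (nat_lit 0) (nat_lit 0) (nat_lit 19555072) (nat_lit 0) w13569 = true := by decide +kernel
theorem cw13570 : wchk (nat_lit 5) [w13569, w220] [] (nat_lit 0) (nat_lit 0) (nat_lit 4) (nat_lit 2) (nat_lit 23282688) (nat_lit 10839044) w13570 = true := by decide +kernel
theorem cw13571 : wchk (nat_lit 5) [w6572, w220] [] (nat_lit 0) (nat_lit 0) (nat_lit 4) (nat_lit 2) (nat_lit 10301440) (nat_lit 10839044) w13571 = true := by decide +kernel
theorem cw13572 : wchk (nat_lit 5) [w69, w2740] [] (nat_lit 1) (nat_lit 2) (nat_lit 4) (nat_lit 2) (nat_lit 10595328) (nat_lit 17935364) w13572 = true := by decide +kernel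
theorem cw13573 : wchk (nat_lit 5) [w69, w2740] [] (nat_lit 1) (nat_lit 2) (nat_lit 4) (nat_lit 2) (nat_lit 10724352) (nat_lit 17935364) w13573 = true := by decide +kernel
theorem cw13574 : wchk (nat_lit 5) [w220, w2740] [] (nat_lit 0) (nat_lit 1) (nat_lit 4) (nat_lit 2) (nat_lit 10839040) (nat_lit 17935364) w13574 = true := by decide +kernel
theorem cw13575 : wchk (nat_lit 5) [w864, w220] [] (nat_lit 1) (nat_lit 1) (nat_lit 4) (nat_lit 2) (nat_lit 19612672) (nat_lit 10839044) w13575 = true := by decide +kernel
theorem cl3085 : lchk (nat_lit 5) [w7412, w2448, w2685, w2740, w4528, w748, w2743, w6798, w1326, w13572, w6797, w3152, w13561, w13573, w13574, w1202, w257, w6780, w13562, w12971, w1379, w1110, w13575, w13560, w9899, w13564, w13566, w13568, w6719, w13570, w13571, w7417] (nat_lit 89402368) (.nod (nat_lit 5390243104106589604340033254546711215512910464039652144152106017401976466624156489752) .nil (.nod (nat_lit 284286824153202020015206937307907081962746458598268593938027075632) .nil (.dwn (nat_lit 286536688065606255727361335382460496218683448422802428561114835024) (nat_lit 4921240576)) .dup) (.nod (nat_lit 5259112731560541556698170567680132364899336538199380612317838175283696697371645003824)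 .nil (.dwn (nat_lit 20662681472877820735306115781870070631121487028985526086983559630684033069444253657168) (nat_lit 90391608)) .dup)) (.nod (nat_lit 14820949490580638161524000260694670634866268208) (.nod (nat_lit 14825857723441105778247330684612395601783851152) .nil .nil (.dwn (nat_lit 60844098782753534835112707555100153980138313728) (nat_lit 89402368))) .nil (.nod (nat_lit 292296556617997073948804587133267179696581596012634524844533909664) .nil (.opn (nat_lit 292296657051624840183866423579241967742740425252022763503177074864)) (.dwn (nat_lit 1134795040616896216860656755734920811955232517275259209249940998320) (nat_lit 89402368)))) (.nod (nat_lit 5285667099801156804869971049429904853150177172258509890904359766120191185301834991800) .nil (.nod (nat_lit 1202062682053160973802357676457326887829362048025329827808728064969571313826998174255312) (.dwn (nat_lit 145264087424504950245062965633303210500340614739139879488579203381292358856791078492408) (nat_lit 7068724224)) .nil .nil) .dup) .nil l3085 = true := by decide +kernel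
theorem cw13576 : wchk (nat_lit 5) [] [l3085] (nat_lit 2) (nat_lit 3) (nat_lit 1) (nat_lit 0) (nat_lit 5820672) (nat_lit 0) w13576 = true := by decide +kernel
theorem cw13577 : wchk (nat_lit 5) [w7353, w368] [] (nat_lit 2) (nat_lit 1) (nat_lit 4) (nat_lit 2) (nat_lit 76378112) (nat_lit 17476612) w13577 = true := by decide +kernel
theorem cw13578 : wchk (nat_lit 5) [w220, w1125] [] (nat_lit 0) (nat_lit 1) (nat_lit 1) (nat_lit 2) (nat_lit 14853120) (nat_lit 90391556) w13578 = true := by decide +kernel
theorem cw13588 : wchk (nat_lit 5) [] [l878] (nat_lit 2) (nat_lit 1) (nat_lit 3) (nat_lit 0) (nat_lit 5428224) (nat_lit 0) w13588 = true := by decide +kernel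
theorem cw13590 : wchk (nat_lit 5) [] [l533] (nat_lit 1) (nat_lit 3) (nat_lit 0) (nat_lit 0) (nat_lit 20619520) (nat_lit 0) w13590 = true := by decide +kernel
theorem cw13594 : wchk (nat_lit 5) [w7466, w368] [] (nat_lit 2) (nat_lit 1) (nat_lit 4) (nat_lit 2) (nat_lit 78392320) (nat_lit 17476612) w13594 = true := by decide +kernel
theorem cw13595 : wchk (nat_lit 5) [w5399, w16] [] (nat_lit 1) (nat_lit 1) (nat_lit 1) (nat_lit 2) (nat_lit 90262528) (nat_lit 22630404) w13595 = true := by decide +kernel
theorem cw13596 : wchk (nat_lit 5) [] [l3079] (nat_lit 17) (nat_lit 2) (nat_lit 2) (nat_lit 0) (nat_lit 5820672) (nat_lit 0) w13596 = true := by decide +kernel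
theorem cw13597 : wchk (nat_lit 5) [w6714, w16] [] (nat_lit 1) (nat_lit 1) (nat_lit 1) (nat_lit 2) (nat_lit 86649856) (nat_lit 22630404) w13597 = true := by decide +kernel
theorem cw13598 : wchk (nat_lit 5) [w1207, w368] [] (nat_lit 25) (nat_lit 1) (nat_lit 4) (nat_lit 2) (nat_lit 613134336) (nat_lit 17476612) w13598 = true := by decide +kernel
theorem cw13599 : wchk (nat_lit 5) [w162, w1125] [] (nat_lit 17) (nat_lit 0) (nat_lit 1) (nat_lit 2) (nat_lit 23225344) (nat_lit 90391556) w13599 = true := by decide +kernel
theorem cl3088 : lchk (nat_lit 5) [w13071, w8766, w13530, w13531, w1599, w368, w13539, w16, w13553, w8449, w13557, w13598, w13599, w2934, w284, w13558, w7401, w2405, w13559, w13576, w13577, w13578, w13594, w2037, w11966, w8262, w13540, w13595, w13596, w13597, w9432, w13541, w13542, w13543, w13544, w13546, w13547, w3921, w11111, w13548, w13549, w13070, w2548, w8342, w34, w13550, w13551, w13552, w13532, w13533, w13534, w13535, w13537, w11065, w13538] (nat_lit 56837120) (.nod (nat_lit 15050218478399656581949068926987736096161826841) (.nod (nat_lit 284106853369346748491022123101342116385917391068378845479798396968) (.nod (nat_lit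 20933258868987297829605244769635135763771374006224035205860041949671992812805669740601) .nil (.nod (nat_lit 292296004233044359923395023101185078170632936494747747466834511952) .nil (.nod (nat_lit 286536688065606255681743067661744808969244910310663190041963612216) (.dwn (nat_lit 9097082328905613800557339633876993738628623318083979789873608601658656644484447174221928) (nat_lit 39281968128)) .nil .nil) .dup) (.nod (nat_lit 5391916068211890349023089505861844135417250258324150792017713666098072773109547190400) (.dwn (nat_lit 20800466648376515820485054622621264618753917968934738480228903897177456117670148999336) (nat_lit 90391640)) .nil .nil)) (.nod (nat_lit 5028384488209551414750085237121824809579099262054803654188036290556606539369416132816) .nil (.dwn (nat_lit 5391927184252457131372810409235097711188973201886535394983702432702192097499594524904) (nat_lit 627262464)) .dup) (.nod (nat_lit 5378650000132149507146522486747405053235534253763168375911023154838310003898988267792) (.dwn (nat_lit 145264094835198661433398820481229029935543226828093694036016002375865436013087578294584) (nat_lit 627262624)) .nil .nil)) .nil (.nod (nat_lit 292297661387902501995662545331542380811468869215808004713067600216)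 .nil (.dwn (nat_lit 292297812038344151287455105809860635209697237787172569568931907960) (nat_lit 90391552)) .dup)) .nil .nil (.nod (nat_lit 61517433196863075659128408587037513154493368720) (.dwn (nat_lit 20933300554139423264286286798291263203310251584034264667604165961871120161605332390312) (nat_lit 90391768)) .nil .nil) l3088 = true := by decide +kernel
theorem cw13600 : wchk (nat_lit 5) [] [l3088] (nat_lit 2) (nat_lit 2) (nat_lit 1) (nat_lit 0) (nat_lit 5820672) (nat_lit 0) w13600 = true := by decide +kernel
theorem cw13601 : wchk (nat_lit 5) [w8397, w16] [] (nat_lit 1) (nat_lit 1) (nat_lit 1) (nat_lit 2) (nat_lit 89753600) (nat_lit 22630404) w13601 = true := by decide +kernel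
theorem cw13602 : wchk (nat_lit 5) [w1192, w16] [] (nat_lit 1) (nat_lit 1) (nat_lit 2) (nat_lit 2) (nat_lit 23225344) (nat_lit 22114308) w13602 = true := by decide +kernel
theorem cw13603 : wchk (nat_lit 5) [w83, w1599] [] (nat_lit 0) (nat_lit 0) (nat_lit 4) (nat_lit 2) (nat_lit 13283328) (nat_lit 10072068) w13603 = true := by decide +kernel
theorem cw13604 : wchk (nat_lit 5) [w3035, w1599] [] (nat_lit 0) (nat_lit 0) (nat_lit 4) (nat_lit 2) (nat_lit 18523136) (nat_lit 10072068) w13604 = true := by decide +kernel
theorem cw13605 : wchk (nat_lit 5) [w2936, w34] [] (nat_lit 145) (nat_lit 0) (nat_lit 4) (nat_lit 2) (nat_lit 23282688) (nat_lit 18523140) w13605 = true := by decide +kernel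
theorem cw13607 : wchk (nat_lit 5) [w12203, w16] [] (nat_lit 17) (nat_lit 1) (nat_lit 1) (nat_lit 2) (nat_lit 89230336) (nat_lit 22630404) w13607 = true := by decide +kernel
theorem cl3089 : lchk (nat_lit 5) [w13517, w7864, w12508, w3973, w8449, w7436, w1599, w12203, w2839, w2272, w16, w13104, w13527, w13528, w13518, w7401, w2405, w284, w13106, w13519, w13520, w13521, w6758, w8236, w8257, w13466, w13597, w13596, w13605, w7410, w13522, w5211, w13523, w13524, w3921, w11111, w13525, w13526, w13529, w11869, w13530, w13531, w13600, w13601, w13602, w13603, w13604, w13081, w9005, w13607] (nat_lit 23282688) (.nod (nat_lit 286536393041824692507747151386370672924777488248314060886826287104) (.nod (nat_lit 272588271251284423102530252059246137333657039578791194818854215705) (.nod (nat_lit 284106953802974514679021721637537661619926702804399295598590910513) (.nod (nat_lit 1138728626851407394911594375094640848720115661711138598135454315383254365770459850643512) .nil (.nod (nat_lit 232543770645759714797981023107222768104902788295474748545086163032) .nil (.dwn (nat_lit 286536838716047904962081407887467772055762020035758388130905409616) (nat_lit 314159875124))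 .dup) (.nod (nat_lit 5391915141875176450493526067077150182820541318755699145864362313911560294638088276088) (.dwn (nat_lit 20800469427386657516067985522374280606116164055275419728835001268629754778063514192016) (nat_lit 90391636)) .nil .nil)) (.nod (nat_lit 5240862971960026626606592011657669067582107409336080308362383947079848974159104788664) .nil (.dwn (nat_lit 5240865750970168321252716748771197589350340934991026104582039678028908666667777296592) (nat_lit 39281968240)) .dup) (.nod (nat_lit 5240862971960026625749425849142098809340138280035330554390165711580950544804900167912) (.dwn (nat_lit 20933282953741859684242888228637426329001891077387393022062623754362392435522923825440) (nat_lit 39281968276)) .nil .nil)) .nil (.nod (nat_lit 292297510737460852725983264412429601505272634792027244892395047240) (.dwn (nat_lit 20933292217108998177520215849229017629940188216638991459521797766458628494235068221784) (nat_lit 90391736)) .nil .nil)) .nil (.dwn (nat_lit 292297962688785800564242052362717596560886696573202788733579381112) (nat_lit 23282884))) .nil .nil (.dwn (nat_lit 1134796396470871060383701817766427479733886507457447138664411824128) (nat_lit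 23282688)) l3089 = true := by decide +kernel
theorem cw13608 : wchk (nat_lit 5) [] [l3089] (nat_lit 13457) (nat_lit 1) (nat_lit 0) (nat_lit 0) (nat_lit 78539968768) (nat_lit 0) w13608 = true := by decide +kernel
theorem cw13614 : wchk (nat_lit 5) [] [l3058] (nat_lit 0) (nat_lit 0) (nat_lit 1) (nat_lit 1) (nat_lit 5820672) (nat_lit 0) w13614 = true := by decide +kernel
theorem cw13615 : wchk (nat_lit 5) [] [l3057] (nat_lit 0) (nat_lit 1) (nat_lit 1) (nat_lit 0) (nat_lit 5820672) (nat_lit 0) w13615 = true := by decide +kernel
theorem cl3090 : lchk (nat_lit 5) [w5157, w1, w5158, w501, w5159, w149, w638, w2922, w13614, w5606, w1110, w1960, w9056, w6700, w13615] (nat_lit 85796864) (.nod (nat_lit 234702993209104966790374964064727483373078278940208966530376925184) (.nod (nat_lit 144200007220259851023411773204113840661196355412849595704031215004850574141841150574592) .nil .nil (.opn (nat_lit 3885339868709064413530441437924767969678573040964286919864182406052640764444349714432))) (.nod (nat_lit 68780501006973630610593905349963223858202788743127372779480285649415442312200192) .nil (.dwn (nat_lit 1138846478187159707598854134009518970334902667586057804346981620009654996908081929670656)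 (nat_lit 4917635072)) .dup) .nil) (.nod (nat_lit 244691920959474382716479454290155940802390166453194686844658253824) .nil .nil (.dwn (nat_lit 231463707412762140955383430569575197082178623673002491659388190720) (nat_lit 23282720))) .nil (.nod (nat_lit 1498450894966302271981468092787253313725043263785545151001963528192) .nil (.nod (nat_lit 4289674496701027322146342049428540382982182006429199393799345642562897983077424824320) (.dwn (nat_lit 19831027487180287764071280815235604465550640986698540605355561117666497495662363838576) (nat_lit 7069713440)) .nil .nil) .dup) l3090 = true := by decide +kernel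
theorem cw13616 : wchk (nat_lit 5) [] [l3090] (nat_lit 274) (nat_lit 1) (nat_lit 4) (nat_lit 0) (nat_lit 22597888) (nat_lit 0) w13616 = true := by decide +kernel
theorem cl3091 : lchk (nat_lit 5) [w872, w4, w731, w5606, w10132] (nat_lit 10724352) (.nod (nat_lit 210625550010781622944673686078912038619037243129130042279304626176) (.nod (nat_lit 4183426454627007665630423409355443920530976430691503264547798185538059472776149860352) .nil .nil (.opn (nat_lit 3885338942372350515211503046982716809080658679333568495253038867610206206676634593296))) (.nod (nat_lit 67854164293067501142959138974584563537931308879933407644137693993959991640326144) .nil (.dwn (nat_lit 1138728621293387111581027380871692075408221341581805403774880557749675890922397582936088) (nat_lit 4917126156)) (.opn (nat_lit 1138728621293387111581027380871692075408221341581805403774880557749675890922397582936088))) .nil) (.nod (nat_lit 210625148276270558197104800588388953328386610217198355146273193984) .nil .nil (.dwn (nat_lit 210624746541759493457224804792382495917784422360128890155130945536) (nat_lit 77833216))) .nil .nil l3091 = true := by decide +kernel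
theorem cw13617 : wchk (nat_lit 5) [] [l3091] (nat_lit 18) (nat_lit 3) (nat_lit 2) (nat_lit 0) (nat_lit 5820672) (nat_lit 0) w13617 = true := by decide +kernel
theorem cl3092 : lchk (nat_lit 5) [w898] (nat_lit 8388613) (.nod (nat_lit 11067406548732452136476916771781754333705144295874808358493130588160) (.nod (nat_lit 38211389448314344491410471504067546590288693370779289094150528758624465264312320) .nil (.nod (nat_lit 210626654780687051011906193234607803185805073591636433581417431040) .nil .nil .nil) (.opn (nat_lit 3885368585147195267946911819065525202946952194858962776840299238358701927281104781578))) (.nod (nat_lit 38211389448314344491410471504067546590176400189695379401213702563716305906565120) .nil (.dwn (nat_lit 3885368585147195268157533138309737175268790769098050626061985794700026184687136276746) (nat_lit 16777349)) .dup) .nil) .nil .nil .nil l3092 = true := by decide +kernel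
theorem cw13618 : wchk (nat_lit 5) [] [l3092] (nat_lit 0) (nat_lit 0) (nat_lit 2) (nat_lit 1) (nat_lit 5820672) (nat_lit 0) w13618 = true := by decide +kernel
theorem cw13619 : wchk (nat_lit 5) [] [l65] (nat_lit 17) (nat_lit 1) (nat_lit 2) (nat_lit 0) (nat_lit 19343616) (nat_lit 0) w13619 = true := by decide +kernel
theorem cw13620 : wchk (nat_lit 5) [] [l242] (nat_lit 17) (nat_lit 1) (nat_lit 2) (nat_lit 0) (nat_lit 3713280) (nat_lit 0) w13620 = true := by decide +kernel
theorem cl3093 : lchk (nat_lit 5) [w5606, w33, w13618, w13619, w233, w8, w13620, w328, w831, w7171] (nat_lit 39507559424) (.nod (nat_lit 62099297974387120334051138026451499559759145731207771813582374699008) .nil (.nod (nat_lit 2377351584677989407536804122151285597650998069477864895586071407024368845722176454656) (.nod (nat_lit 210625506071069475249326368069282757223666067012014952828538716160) (.nod (nat_lit 210624696324945610367507789356021830633636603032838258269987274752) .nil .nil (.nod (nat_lit 210624696324945610367507789356021830634495582901754220435130548224) (.dwn (nat_lit 20933256089977156134691404148070957726750957534466106480025743197090057395013532682288) (nat_lit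 613256220)) .nil .nil)) .nil .nil) (.nod (nat_lit 26539302300300402779277738910669360950796468097616120830350314402816324598624568737792) .nil (.dwn (nat_lit 1199924585757077499811265000438891605408711350734447510869417846201776219216831610292224) (nat_lit 5181375488)) .dup) .nil) (.opn (nat_lit 1153300532343660002044149875063692429451899501444179040851367737232586557057204818216960))) .nil .nil .nil l3093 = true := by decide +kernel
theorem cl3094 : lchk (nat_lit 5) [w5606, w4, w124, w831, w2007, w888] (nat_lit 85287936) (.nod (nat_lit 210625550010781622944673686078912038619037243129130042279304626176) (.nod (nat_lit 4183426454627007665630423409355443920542870399207999952318957041694530991241396486144) .nil (.opn (nat_lit 1138728618514376969885438690555337993553777637416725120241763513018018561946346347743232)) .dup) (.nod (nat_lit 19724779445106268030255868015743914362334748423343099522995859138905419419369621946368) .nil (.dwn (nat_lit 1138728618514376969885438690555337993550431214771266825642523026815794622207576614029312) (nat_lit 4917126144)) .dup) .nil) (.nod (nat_lit 210625148276270558197104800588388953328386610217198355146273193984)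 .nil .nil (.dwn (nat_lit 210624746541759493456834541751408210012807547290357543828776288256) (nat_lit 77833236))) .nil .nil l3094 = true := by decide +kernel
theorem cw13622 : wchk (nat_lit 5) [] [l3094] (nat_lit 2) (nat_lit 3) (nat_lit 2) (nat_lit 0) (nat_lit 5820672) (nat_lit 0) w13622 = true := by decide +kernel
theorem cw13623 : wchk (nat_lit 5) [] [l303] (nat_lit 17) (nat_lit 1) (nat_lit 4) (nat_lit 0) (nat_lit 155604224) (nat_lit 0) w13623 = true := by decide +kernel
theorem cw13626 : wchk (nat_lit 5) [w128] [] (nat_lit 0) (nat_lit 1) (nat_lit 3) (nat_lit 2) (nat_lit 23211008) (nat_lit 201) w13626 = true := by decide +kernel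
theorem cw13634 : wchk (nat_lit 5) [] [l1545] (nat_lit 1) (nat_lit 1) (nat_lit 1) (nat_lit 0) (nat_lit 18164480) (nat_lit 0) w13634 = true := by decide +kernel
theorem cw13635 : wchk (nat_lit 5) [] [l1545] (nat_lit 1) (nat_lit 1) (nat_lit 1) (nat_lit 0) (nat_lit 18148352) (nat_lit 0) w13635 = true := by decide +kernel
theorem cw13636 : wchk (nat_lit 5) [] [l2582] (nat_lit 1) (nat_lit 2) (nat_lit 1) (nat_lit 0) (nat_lit 22579968) (nat_lit 0) w13636 = true := by decide +kernel
theorem cw13637 : wchk (nat_lit 5) [] [l1258] (nat_lit 0) (nat_lit 0) (nat_lit 1) (nat_lit 1) (nat_lit 29036800) (nat_lit 0) w13637 = true := by decide +kernel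
theorem cw13640 : wchk (nat_lit 5) [w16, w5841] [] (nat_lit 25) (nat_lit 0) (nat_lit 1) (nat_lit 2) (nat_lit 23153664) (nat_lit 89818116) w13640 = true := by decide +kernel
theorem cw13641 : wchk (nat_lit 5) [] [l134] (nat_lit 0) (nat_lit 3) (nat_lit 2) (nat_lit 0) (nat_lit 4413952) (nat_lit 0) w13641 = true := by decide +kernel
theorem cw13643 : wchk (nat_lit 5) [] [l3094] (nat_lit 2) (nat_lit 3) (nat_lit 2) (nat_lit 0) (nat_lit 5820672) (nat_lit 0) w13643 = true := by decide +kernel
theorem cw13644 : wchk (nat_lit 5) [] [l1094] (nat_lit 17) (nat_lit 1) (nat_lit 4) (nat_lit 0) (nat_lit 153512960) (nat_lit 0) w13644 = true := by decide +kernel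
theorem cw13655 : wchk (nat_lit 5) [w13622] [] (nat_lit 18) (nat_lit 2) (nat_lit 4) (nat_lit 2) (nat_lit 627262464) (nat_lit 205) w13655 = true := by decide +kernel
theorem cw13656 : wchk (nat_lit 5) [w2548] [] (nat_lit 2) (nat_lit 2) (nat_lit 4) (nat_lit 2) (nat_lit 73754624) (nat_lit 205) w13656 = true := by decide +kernel
theorem cw13663 : wchk (nat_lit 5) [w16, w7171] [] (nat_lit 25) (nat_lit 0) (nat_lit 4) (nat_lit 2) (nat_lit 17935360) (nat_lit 622144516) w13663 = true := by decide +kernel
theorem cw13667 : wchk (nat_lit 5) [w13250] [] (nat_lit 2) (nat_lit 2) (nat_lit 4) (nat_lit 2) (nat_lit 10724352) (nat_lit 205) w13667 = true := by decide +kernel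
theorem cw13672 : wchk (nat_lit 5) [] [] (nat_lit 0) (nat_lit 0) (nat_lit 2) (nat_lit 2) (nat_lit 33554477) (nat_lit 25165829) w13672 = true := by decide +kernel
theorem cw13674 : wchk (nat_lit 5) [] [] (nat_lit 0) (nat_lit 0) (nat_lit 2) (nat_lit 2) (nat_lit 177) (nat_lit 25165905) w13674 = true := by decide +kernel
theorem cw13681 : wchk (nat_lit 5) [w898] [] (nat_lit 25) (nat_lit 1) (nat_lit 4) (nat_lit 2) (nat_lit 625692672) (nat_lit 201) w13681 = true := by decide +kernel
theorem cw13685 : wchk (nat_lit 5) [w1139] [] (nat_lit 0) (nat_lit 1) (nat_lit 4) (nat_lit 2) (nat_lit 9269248) (nat_lit 201) w13685 = true := by decide +kernel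
theorem cw13692 : wchk (nat_lit 5) [] [l1598] (nat_lit 2) (nat_lit 3) (nat_lit 2) (nat_lit 0) (nat_lit 5576960) (nat_lit 0) w13692 = true := by decide +kernel
theorem cw13701 : wchk (nat_lit 5) [] [l1538] (nat_lit 25) (nat_lit 1) (nat_lit 4) (nat_lit 0) (nat_lit 1484032) (nat_lit 0) w13701 = true := by decide +kernel
theorem cw13711 : wchk (nat_lit 5) [w8342] [] (nat_lit 2) (nat_lit 2) (nat_lit 4) (nat_lit 2) (nat_lit 89402368) (nat_lit 205) w13711 = true := by decide +kernel
theorem cw13717 : wchk (nat_lit 5) [w2122] [] (nat_lit 2) (nat_lit 2) (nat_lit 3) (nat_lit 2) (nat_lit 77431808) (nat_lit 209) w13717 = true := by decide +kernel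
theorem cw13720 : wchk (nat_lit 5) [] [l1407] (nat_lit 0) (nat_lit 0) (nat_lit 1) (nat_lit 1) (nat_lit 5671936) (nat_lit 0) w13720 = true := by decide +kernel
theorem cw13721 : wchk (nat_lit 5) [] [l2397] (nat_lit 0) (nat_lit 1) (nat_lit 0) (nat_lit 1) (nat_lit 4888832) (nat_lit 0) w13721 = true := by decide +kernel
theorem cw13722 : wchk (nat_lit 5) [] [l860] (nat_lit 25) (nat_lit 3) (nat_lit 2) (nat_lit 0) (nat_lit 4903168) (nat_lit 0) w13722 = true := by decide +kernel
theorem cw13723 : wchk (nat_lit 5) [w161] [] (nat_lit 1) (nat_lit 2) (nat_lit 2) (nat_lit 2) (nat_lit 289) (nat_lit 18437120) w13723 = true := by decide +kernel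
theorem cw13724 : wchk (nat_lit 5) [] [l3052] (nat_lit 18) (nat_lit 3) (nat_lit 1) (nat_lit 0) (nat_lit 5820672) (nat_lit 0) w13724 = true := by decide +kernel
theorem cl3105 : lchk (nat_lit 5) [w5606, w33, w1101, w13315, w13316, w10734, w2492, w5831, w13317, w774] (nat_lit 85804032) (.nod (nat_lit 11418033945132184873608633828152830482410635264) (.nod (nat_lit 4289666159670602224196329310507654666946438885256725669408385063608286187709169401856) .nil (.nod (nat_lit 3885339868709064413530441437924767969678573040964286919864182406052640764444349728768) .nil (.opn (nat_lit 9096019920739137288188210705383394286906965610268865725952591326126159361130621874898944)) .dup) .nil) (.nod (nat_lit 68780501006966894043390842245379676565504993706681636160984106453678768684793856) .nil (.dwn (nat_lit 1138848138182551013763831816311690533388205082414435142075213431181399509227807356651520) (nat_lit 4917642240)) (.opn (nat_lit 1138848138182551013763831816311690533388205082414435142075213431181399509227807356651520))) .nil) (.nod (nat_lit 11418012167060701933546969810994713414422495232) .nil .nil (.nod (nat_lit 292295753148974944451737059196423488725857930368665390488064360448)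 (.dwn (nat_lit 20933257016313870040030155433581280785243466773520062307769623404260464920452661676096) (nat_lit 610432036)) .nil .nil)) .nil .nil l3105 = true := by decide +kernel
theorem cw13725 : wchk (nat_lit 5) [] [l3105] (nat_lit 0) (nat_lit 0) (nat_lit 1) (nat_lit 1) (nat_lit 5820672) (nat_lit 0) w13725 = true := by decide +kernel
theorem cl3106 : lchk (nat_lit 5) [w13615, w858, w501, w161, w774, w1539, w6678, w5606, w1110, w1960, w13724, w13725, w11766, w13364, w13722, w4116, w650, w13723, w13721] (nat_lit 627262464) .nil (.nod (nat_lit 4183426570419096902946616661049228485440058396309184734002143221785397791144777089024) (.nod (nat_lit 224984338628156095165098234090159222388319044956615270986854432768) (.nod (nat_lit 81002733802262714195314723491560646758643761301385838634312138752) .nil .nil (.dwn (nat_lit 225164460062453015982178697359936911687407246162757196089265225728) (nat_lit 90391552))) .nil (.nod (nat_lit 81002733802262714264183611498865806246560512688493819440853417984) .nil (.nod (nat_lit 4289672644027599525087215171859152477788764127292296101492642937894725120955154169856) .nil (.opn (nat_lit 9097082327052940373252319241112881505376422238305310786867226833921576061096566921887744))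 .dup) (.dwn (nat_lit 5391912362865034754844993377954863527165675557048422196410278931119751717370273464320) (nat_lit 4922229800)))) (.nod (nat_lit 39137726162213166349422310046711887634580925405112857152147394387364299967299584) .nil (.dwn (nat_lit 5391915141875176458016978591219369358292567303533945931531693258108225382910962075784) (nat_lit 627262504)) .dup) .nil) (.nod (nat_lit 5828008760934793484449903344748286876326688870787250280640227959669343030185300494480) .nil (.opn (nat_lit 1202075939784210289557176596782907562191096066212777060845409018309716286859917820069888)) .dup) .nil l3106 = true := by decide +kernel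
theorem cw13726 : wchk (nat_lit 5) [] [l3106] (nat_lit 2) (nat_lit 3) (nat_lit 4) (nat_lit 0) (nat_lit 22597888) (nat_lit 0) w13726 = true := by decide +kernel
theorem cw13727 : wchk (nat_lit 5) [] [l1646] (nat_lit 18) (nat_lit 1) (nat_lit 1) (nat_lit 0) (nat_lit 152656384) (nat_lit 0) w13727 = true := by decide +kernel
theorem cw13728 : wchk (nat_lit 5) [] [l244] (nat_lit 2) (nat_lit 0) (nat_lit 0) (nat_lit 0) (nat_lit 4516096) (nat_lit 0) w13728 = true := by decide +kernel
theorem cl3107 : lchk (nat_lit 5) [w13724, w576, w11764, w281, w149, w638, w2922, w13614, w5606, w1110, w1960, w13725, w13364, w13722, w4116, w650, w13728, w13727] (nat_lit 23282688) .nil (.nod (nat_lit 4047306948331991374784046942480295397986818939054242887414148631460652603716950556672) (.nod (nat_lit 232183421066436371599526224263847630847586780065997298873168560128) (.nod (nat_lit 244691870742660499623033340881581619773551129779780319088560046080) .nil .nil (.dwn (nat_lit 231463657195948257861937317161000876053339586999588123903289982976) (nat_lit 23282716))) .nil (.nod (nat_lit 1498450844749488388888021979378678992696204227112130783245865320448) .nil (.nod (nat_lit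 4289673570364313423616778610643846430385473066860747747645994290228811552016289497088) (.opn (nat_lit 9097082317789573234267023606725034565850455148909626270405693320398235196786034132551680)) .dup .dup) (.dwn (nat_lit 5391912362865034765797201645459747667789692443291140153605275767310217582634397073408) (nat_lit 4922229760)))) (.nod (nat_lit 39137726162213166349372093232828794188470239089727195820818427969855998014783488) .nil (.dwn (nat_lit 5391914215538462559487415152434675405695858366687753220745849613481135811305180399744) (nat_lit 627262464)) .dup) .nil) (.nod (nat_lit 5828008760934793484449903344748286876326688870787250280640227959669343030185300494472) .nil (.opn (nat_lit 9159247728825153561332999510852016164308301344969809940408803396688563696903954186537016)) .dup) .nil l3107 = true := by decide +kernel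
theorem cw13729 : wchk (nat_lit 5) [] [l3107] (nat_lit 2) (nat_lit 3) (nat_lit 4) (nat_lit 0) (nat_lit 22597888) (nat_lit 0) w13729 = true := by decide +kernel
theorem cl3108 : lchk (nat_lit 5) [w5721, w535, w7076, w797, w1, w114, w2627, w7541, w181, w13720, w6176, w7528, w34, w1919, w1690, w1312, w13726, w13729, w4038, w5157] (nat_lit 4918437888) .nil (.nod (nat_lit 143929427160932321470850858115620163975733421672333493637934137873910406747053345130521) (.nod (nat_lit 234703150136648351457394068466522236588200268544628865768329111592) (.nod (nat_lit 7804049918979430320006267144933664801224375322835163438619209760768) .nil .nil (.dwn (nat_lit 219945225728327581753432549267468635852140084269690118502516523008) (nat_lit 23282724))) .nil (.nod (nat_lit 284827056636956339301411712556769421038612912708614955854322466816) .nil (.nod (nat_lit 4289676349374455119205468926997928288175599885566102686106048347231070845199695478784) (.dwn (nat_lit 1636111627726964628586392056348932100616339955260631552127219436010394485440781228607616) (nat_lit 39281968196)) .nil .nil) (.nod (nat_lit 4289676349374455119205468926997928288175599885566102686106048347231070845199695478784)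 (.dwn (nat_lit 1636111627726964628586392056348932100616339955260631552127219436010394485440781228607616) (nat_lit 39281968196)) .nil .nil))) (.nod (nat_lit 151912597771854473917575802497061581827798614891907972710953460700520572913148401176728) .nil (.dwn (nat_lit 1201197802222209328349147326204480467291663524099865548423217014929817168446234104614912) (nat_lit 5186873344)) .dup) (.dwn (nat_lit 151912597771854473917575802497061581828245060484464749667178611389946674383657885126808) (nat_lit 657025024))) (.nod (nat_lit 1146803073239888914298285329475715305935891453236787500644250729260451536622565274603520) .nil (.opn (nat_lit 9158369584778795602770146233215907276952721135426688400486121604826198938069131246882816)) .dup) .nil l3108 = true := by decide +kernel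
theorem cw13730 : wchk (nat_lit 5) [] [l3108] (nat_lit 274) (nat_lit 1) (nat_lit 4) (nat_lit 0) (nat_lit 1230557440) (nat_lit 0) w13730 = true := by decide +kernel
theorem cw13731 : wchk (nat_lit 5) [w13730] [] (nat_lit 146) (nat_lit 2) (nat_lit 4) (nat_lit 2) (nat_lit 4922229760) (nat_lit 205) w13731 = true := by decide +kernel
theorem cw13732 : wchk (nat_lit 5) [w871] [] (nat_lit 1) (nat_lit 0) (nat_lit 1) (nat_lit 2) (nat_lit 21662720) (nat_lit 16777289) w13732 = true := by decide +kernel
theorem cw13733 : wchk (nat_lit 5) [w78, w220] [] (nat_lit 1) (nat_lit 1) (nat_lit 0) (nat_lit 2) (nat_lit 10695680) (nat_lit 14788612) w13733 = true := by decide +kernel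
theorem cw13734 : wchk (nat_lit 5) [w11459, w220] [] (nat_lit 1) (nat_lit 1) (nat_lit 2) (nat_lit 2) (nat_lit 77689856) (nat_lit 6531076) w13734 = true := by decide +kernel
theorem cw13735 : wchk (nat_lit 5) [] [l2582] (nat_lit 1) (nat_lit 2) (nat_lit 4) (nat_lit 0) (nat_lit 20533504) (nat_lit 0) w13735 = true := by decide +kernel
theorem cw13736 : wchk (nat_lit 5) [] [l1680] (nat_lit 17) (nat_lit 2) (nat_lit 1) (nat_lit 0) (nat_lit 154428672) (nat_lit 0) w13736 = true := by decide +kernel
theorem cl3109 : lchk (nat_lit 5) [w281, w10, w40, w1534, w8, w315, w5606] (nat_lit 617886720) .nil (.nod (nat_lit 18768620362832578443209141788044678387535883053334161236194413868355741079454919688192) (.nod (nat_lit 210625506071069475249326368069282757223666067012014952828538716160) (.nod (nat_lit 210624696324945610367507789356021830633636603032838258269987274752) .nil .nil (.dwn (nat_lit 210624696324945610367507789356021830634200718338563839787987369984) (nat_lit 4912402444))) .nil .nil) .nil (.dwn (nat_lit 3240551851375247653946680983644290191850410751757737275487999612831098987253948481536) (nat_lit 651527192))) .nil (.nod (nat_lit 150863464010488127478154745627111758365750292630806608893382284851959455598563716759552)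 .nil (.opn (nat_lit 1199904665812381825831532812812832848772608575684388857164841391162998778564838609125376)) .dup) l3109 = true := by decide +kernel
theorem cw13737 : wchk (nat_lit 5) [] [l3109] (nat_lit 2) (nat_lit 2) (nat_lit 4) (nat_lit 0) (nat_lit 22597888) (nat_lit 0) w13737 = true := by decide +kernel
theorem cw13738 : wchk (nat_lit 5) [] [l2582] (nat_lit 25) (nat_lit 0) (nat_lit 4) (nat_lit 1) (nat_lit 20533504) (nat_lit 0) w13738 = true := by decide +kernel
theorem cw13739 : wchk (nat_lit 5) [] [l2582] (nat_lit 25) (nat_lit 0) (nat_lit 4) (nat_lit 1) (nat_lit 20533504) (nat_lit 0) w13739 = true := by decide +kernel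
theorem cl3110 : lchk (nat_lit 5) [w13250, w2844, w220, w972, w281, w13297, w13424, w13737, w13392, w4262, w6899, w370, w13738, w7268, w13739, w13735, w13732, w6749, w8715, w13733, w13012, w13734, w13014, w13015, w7255, w7246, w495, w13736, w11270, w69, w1, w13209] (nat_lit 77833216) (.nod (nat_lit 210625499793967739862645603893210967095061187446284900932883113993) (.nod (nat_lit 3424809602928893407785775151950551197333509551120493640631217586312207576444204247072) .nil (.nod (nat_lit 142355755119528843428895402914572545990112015843328672242683298461684687179228092205112) .nil (.dwn (nat_lit 9094174005864004832733128052614508267477113445520410898462322387207620681957450629728256) (nat_lit 39269409792)) .dup) (.nod (nat_lit 142355755119528843490677118904854082884021723250518576779730324396971367041589974138880) .nil (.dwn (nat_lit 9094174005864004833226124213320456096464615822831933233682241153937821620142460356263936) (nat_lit 39269409792)) (.dwn (nat_lit 9094174005864004833226124213320456096464615822831933233682241153937821620142460356263936) (nat_lit 39269409792)))) (.nod (nat_lit 19127186662256332030745816991268652382298438066931787085456586491091373592595646670880)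 .nil (.dwn (nat_lit 145264073529454241767118704154758494679864214746745779847613333337901298597947796301928) (nat_lit 627262524)) .dup) (.nod (nat_lit 20933268132354436816074908086340591849658135041235695636359787543569034880638444456072) (.dwn (nat_lit 142355769014579551914713635400278489315033405333668357424050568512553821950774662604992) (nat_lit 627262524)) .nil .nil)) (.nod (nat_lit 172432135321513769877728474172479034312996094663638938018484584448) .nil .nil (.nod (nat_lit 210624696324945610367507789356021830634495586591103035177040871424) (.dwn (nat_lit 142475296093447306974472888619457569317629213897070905893900735131897052225176553873656) (nat_lit 77833216)) .nil .nil)) .nil .nil l3110 = true := by decide +kernel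
theorem cw13740 : wchk (nat_lit 5) [] [l3110] (nat_lit 1) (nat_lit 3) (nat_lit 3) (nat_lit 0) (nat_lit 5820672) (nat_lit 0) w13740 = true := by decide +kernel
theorem cw13741 : wchk (nat_lit 5) [w13740] [] (nat_lit 146) (nat_lit 2) (nat_lit 4) (nat_lit 2) (nat_lit 23282688) (nat_lit 205) w13741 = true := by decide +kernel
theorem cw13742 : wchk (nat_lit 5) [w13655, w16] [] (nat_lit 0) (nat_lit 0) (nat_lit 4) (nat_lit 2) (nat_lit 23282688) (nat_lit 13283332) w13742 = true := by decide +kernel
theorem cw13743 : wchk (nat_lit 5) [w12168] [] (nat_lit 18) (nat_lit 2) (nat_lit 4) (nat_lit 2) (nat_lit 85632000) (nat_lit 205) w13743 = true := by decide +kernel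
theorem cw13744 : wchk (nat_lit 5) [w13743, w16] [] (nat_lit 0) (nat_lit 0) (nat_lit 4) (nat_lit 2) (nat_lit 23282688) (nat_lit 13283332) w13744 = true := by decide +kernel
theorem cw13745 : wchk (nat_lit 5) [] [l1997] (nat_lit 17) (nat_lit 3) (nat_lit 2) (nat_lit 0) (nat_lit 5790208) (nat_lit 0) w13745 = true := by decide +kernel
theorem cw13746 : wchk (nat_lit 5) [w2489] [] (nat_lit 1) (nat_lit 2) (nat_lit 2) (nat_lit 2) (nat_lit 88893440) (nat_lit 205) w13746 = true := by decide +kernel
theorem cw13748 : wchk (nat_lit 5) [w401] [] (nat_lit 0) (nat_lit 1) (nat_lit 2) (nat_lit 2) (nat_lit 22630400) (nat_lit 205) w13748 = true := by decide +kernel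
theorem cl3111 : lchk (nat_lit 5) [w13623, w1326, w220, w86, w651, w6797, w1379, w11312, w3, w13746, w4448, w13748, w13745, w13616, w13622] (nat_lit 23282688) (.nod (nat_lit 61512427302963301735851082482657719222775316480) (.nod (nat_lit 139515770437584770027399180164656217659409) (.nod (nat_lit 5043305919997028921082366480695800436907512658968391197390125654765001937115119507472) .nil (.nod (nat_lit 20785514647477479653667604908719422082162227334284001545136390125612474416226446370856) .nil .nil (.dwn (nat_lit 9097082317789573233773869786113688398809038798613300159039066646462370578251592492294144) (nat_lit 39281968128))) (.dwn (nat_lit 3541012869875091373698522973536078269240001600342505925092794007288402695096987459632) (nat_lit 4922229760))) (.nod (nat_lit 5028365961475273436284035657926039487861057352412928656136529514206006472263947429952) .nil (.dwn (nat_lit 20905034315651523532346547545327367914085646802469274631048888726587535828094423472208) (nat_lit 90391596)) (.dwn (nat_lit 20905034315651523532346547545327367914085646802469274631048888726587535828094439155752) (nat_lit 90391596))) .nil) .nil (.dwn (nat_lit 292296205100299892281334182721971695329062946145851222422944374888)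 (nat_lit 109817912))) .nil .nil .nil l3111 = true := by decide +kernel
theorem cw13749 : wchk (nat_lit 5) [] [l3111] (nat_lit 17) (nat_lit 3) (nat_lit 1) (nat_lit 0) (nat_lit 156815616) (nat_lit 0) w13749 = true := by decide +kernel
theorem cw13750 : wchk (nat_lit 5) [w1312] [] (nat_lit 153) (nat_lit 0) (nat_lit 1) (nat_lit 2) (nat_lit 201) (nat_lit 625707008) w13750 = true := by decide +kernel
theorem cw13751 : wchk (nat_lit 5) [w12967] [] (nat_lit 0) (nat_lit 1) (nat_lit 3) (nat_lit 2) (nat_lit 21712896) (nat_lit 33554469) w13751 = true := by decide +kernel
theorem cw13752 : wchk (nat_lit 5) [w5415] [] (nat_lit 18) (nat_lit 1) (nat_lit 3) (nat_lit 2) (nat_lit 15369216) (nat_lit 33554501) w13752 = true := by decide +kernel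
theorem cw13753 : wchk (nat_lit 5) [w69, w864] [] (nat_lit 145) (nat_lit 0) (nat_lit 4) (nat_lit 2) (nat_lit 6466560) (nat_lit 18064388) w13753 = true := by decide +kernel
theorem cw13754 : wchk (nat_lit 5) [] [l3094] (nat_lit 0) (nat_lit 3) (nat_lit 2) (nat_lit 0) (nat_lit 2288640) (nat_lit 0) w13754 = true := by decide +kernel
theorem cw13755 : wchk (nat_lit 5) [w2489, w281] [] (nat_lit 17) (nat_lit 0) (nat_lit 2) (nat_lit 2) (nat_lit 122447872) (nat_lit 85273604) w13755 = true := by decide +kernel
theorem cw13756 : wchk (nat_lit 5) [w1326] [] (nat_lit 1) (nat_lit 0) (nat_lit 3) (nat_lit 2) (nat_lit 89925632) (nat_lit 33554501) w13756 = true := by decide +kernel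
theorem cl3112 : lchk (nat_lit 5) [w13622, w1326, w401, w83, w864, w4566, w85, w6797, w13756, w5606, w13752, w13643, w6807, w13753, w13541, w13754, w4555, w86, w13755, w13745, w13617, w11228, w88] (nat_lit 579579904) (.nod (nat_lit 421249731613384931654453283258693119699329184296826739042134523904) (.nod (nat_lit 15401457937535449263931204198938027231295217697) (.nod (nat_lit 143099433054834005338856759425778424321560037770920761902661943602729711691801519671328) .nil (.nod (nat_lit 20785514647477479653667604908719422082162227334284001545136390125612474416226446370872) .nil .nil (.dwn (nat_lit 9097082325200266944962106293222231439365064901244357249123002806649311929633744475293760) (nat_lit 39281968160))) (.nod (nat_lit 36336833168324860399417657258363793316549556535657318437660902539595297604467137273928) (.dwn (nat_lit 141992221686853076704575936839205901574515380616118367129250500899184309844204937709688) (nat_lit 613134336)) .nil .nil)) (.nod (nat_lit 5028365035138559537754472269358159418357794526253051330990027293004614090834251962504) .nil (.dwn (nat_lit 20905034315651523593848926331716089893510789965909645576235606399877808802022534965304)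 (nat_lit 4922229792)) (.dwn (nat_lit 20905034315651523593848926331716089893510789965909645576235606399877808802022534965304) (nat_lit 4922229792))) .nil) .nil (.dwn (nat_lit 292296556617997073941687164923498640504373315638479919111237818544) (nat_lit 109817856))) .nil .nil (.nod (nat_lit 7697413209061520426756859122068511076315455491312873035865012568064) .nil (.nod (nat_lit 1136638684316722508117129990324519068920049592463188719242962296907697514909452788523008) (.opn (nat_lit 9093810466873308783096011789144883787791385907072221604091809633130269923062101990400000)) .dup .dup) (.opn (nat_lit 1136638684316722508116919368151589020935139169720764516890067791537264814395300437778432))) l3112 = true := by decide +kernel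
theorem cw13757 : wchk (nat_lit 5) [] [l3112] (nat_lit 17) (nat_lit 3) (nat_lit 1) (nat_lit 0) (nat_lit 156815616) (nat_lit 0) w13757 = true := by decide +kernel
theorem cl3113 : lchk (nat_lit 5) [w5258, w3953, w69, w1, w1207, w366, w4531, w13033, w4256, w4209, w13035, w13751, w11065, w616, w13032, w13749, w13750, w6891, w126, w13757] (nat_lit 17935360) (.nod (nat_lit 421249731613384931608083761906360867450317869087226613119527682048) (.nod (nat_lit 1061903326593030756089599696104232189359743944730856125345680547873) (.nod (nat_lit 143919470778139250845602390884171999687541393035781398785856761468399521087207027411008) .nil (.nod (nat_lit 1138672178671072560214469949788305882992502299494460847232272180200776747732697576855552) .nil .nil (.dwn (nat_lit 9095843961227658834700585920137439324623184738449318772970954767814789228247795225548800) (nat_lit 39276620800))) (.dwn (nat_lit 1138672178671072560276197492281504849741495367390103223410372326998186273637297616541696) (nat_lit 4916882432))) (.nod (nat_lit 143416495879920338451510173405194901361494806017626314825772279166513044885625846270016) .nil (.dwn (nat_lit 1138672178671072560276197492281504849738149110606437342882641446976481203336912096679936)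 (nat_lit 4916882432)) (.dwn (nat_lit 1138672178671072560276197492281504849738149110606437342882641446976481203336912096679936) (nat_lit 4916882432))) (.dwn (nat_lit 143416495879920338451510173405194901361913151996112727225697183339580388276009663367232) (nat_lit 621915136))) .nil (.nod (nat_lit 1061903326593030756089599696104232189359743944730856125343937767512) (.dwn (nat_lit 144155196608061723562116554880510964515878083857722046215476343660098901569085244082240) (nat_lit 621915136)) .nil .nil)) .nil .nil (.nod (nat_lit 292296355750741541561672397043218899751422696052729142055060635648) .nil (.dwn (nat_lit 20053471501298883275022411383698928220172931990190171100806938608857626018088945502352) (nat_lit 90391628)) .dup) l3113 = true := by decide +kernel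
theorem cw13758 : wchk (nat_lit 5) [] [l3113] (nat_lit 4) (nat_lit 1) (nat_lit 2) (nat_lit 0) (nat_lit 22597888) (nat_lit 0) w13758 = true := by decide +kernel
theorem cw13759 : wchk (nat_lit 5) [w13758] [] (nat_lit 1177) (nat_lit 2) (nat_lit 4) (nat_lit 2) (nat_lit 23282688) (nat_lit 205) w13759 = true := by decide +kernel
theorem cw13760 : wchk (nat_lit 5) [w162, w13743] [] (nat_lit 1) (nat_lit 2) (nat_lit 4) (nat_lit 2) (nat_lit 15017984) (nat_lit 23282692) w13760 = true := by decide +kernel
theorem cw13761 : wchk (nat_lit 5) [w1125] [] (nat_lit 2) (nat_lit 2) (nat_lit 4) (nat_lit 2) (nat_lit 85173248) (nat_lit 205) w13761 = true := by decide +kernel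
theorem cw13762 : wchk (nat_lit 5) [w13761, w16] [] (nat_lit 1) (nat_lit 1) (nat_lit 4) (nat_lit 2) (nat_lit 90391552) (nat_lit 13283332) w13762 = true := by decide +kernel
theorem cw13763 : wchk (nat_lit 5) [w1312] [] (nat_lit 2) (nat_lit 2) (nat_lit 4) (nat_lit 2) (nat_lit 18035712) (nat_lit 205) w13763 = true := by decide +kernel
theorem cw13764 : wchk (nat_lit 5) [w13763, w16] [] (nat_lit 1) (nat_lit 1) (nat_lit 4) (nat_lit 2) (nat_lit 90391552) (nat_lit 13283332) w13764 = true := by decide +kernel
theorem cw13765 : wchk (nat_lit 5) [] [l2637] (nat_lit 145) (nat_lit 3) (nat_lit 4) (nat_lit 0) (nat_lit 4516096) (nat_lit 0) w13765 = true := by decide +kernel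
theorem cw13766 : wchk (nat_lit 5) [w1412, w337] [] (nat_lit 1) (nat_lit 1) (nat_lit 1) (nat_lit 2) (nat_lit 90262528) (nat_lit 89818116) w13766 = true := by decide +kernel
theorem cw13767 : wchk (nat_lit 5) [] [l3038] (nat_lit 0) (nat_lit 2) (nat_lit 1) (nat_lit 0) (nat_lit 5820672) (nat_lit 0) w13767 = true := by decide +kernel
theorem cl3114 : lchk (nat_lit 5) [w13111, w16, w12203, w337, w2839, w1599, w3973, w8449, w8111, w3974, w13126, w7878, w13765, w13766, w13767, w13129, w13711, w13656, w13667, w12628, w13762, w13122, w13123, w8746, w13124, w13764, w5567, w2936, w13744, w12522, w12366, w12621, w5212, w13655, w13113, w13138, w8417, w13742, w13140, w3408, w13104, w13759, w2934, w13760, w284, w12634, w13731, w11320, w13106, w13108, w13107, w13741] (nat_lit 22823936) .nil (.nod (nat_lit 5254123482019484077297679436597980858596340047145725350646108617983112362580034019336) (.nod (nat_lit 1127595004059152161605075803621458473810272486366943743045260369960) (.nod (nat_lit 279067589819076585787173019265216877904959684235109938140023251016) .nil (.nod (nat_lit 286536838716047904962427769058591386163077730751707596272088666200) (.nod (nat_lit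 1449231900576188373887882921984) .nil .nil .nil) .nil (.dwn (nat_lit 493148061345395542847002417877571793644921151694912396468321689535066) (nat_lit 39281509376))) (.dwn (nat_lit 292296205100299892297179476735482362286848064237912801373788342392) (nat_lit 4921771008))) .nil (.nod (nat_lit 292296405967555424670963930369779646402204210931570272398180815000) (.dwn (nat_lit 20933271837701292409864060930015126451664736943561325088656586908800462165377354860736) (nat_lit 90391652)) .nil .nil)) (.nod (nat_lit 5363684104182404864342576303466529144545063401322837176845823231570389218427727433944) .nil (.dwn (nat_lit 20933279248395003597249160087440129425556993881250958713334144155317450288092649021512) (nat_lit 895698020)) (.dwn (nat_lit 20933279248395003597249160087440129425556993881250958713334144155317450288092649021512) (nat_lit 895698020))) (.nod (nat_lit 5031710037012447129141134025306363117459663413584263275093329359727050565335063628040) (.dwn (nat_lit 20827045101371692430717800265922054818959197865647934981502546956572523640587750639920) (nat_lit 90391664)) .nil .nil)) (.nod (nat_lit 5152898963944936156667741169451063228518200377098665104447958195814571284988555856192)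 .nil (.nod (nat_lit 5284003399062995045774125181517300025304967206008391042545054303994232161052114112520) (.dwn (nat_lit 20689272894586991925814145743989588802432674710723994881723127305885200934786985845072) (nat_lit 41429451876)) .nil .nil) .dup) (.nod (nat_lit 5244204268487058621904996663589965804579366994833285973746526486280207339959253158264) (.dwn (nat_lit 20827058070085687010123679178611113932312591324384193809564313952618457040538871171480) (nat_lit 89932800)) .nil .nil) l3114 = true := by decide +kernel
theorem cw13768 : wchk (nat_lit 5) [] [l3114] (nat_lit 107665) (nat_lit 1) (nat_lit 1) (nat_lit 0) (nat_lit 22597888) (nat_lit 0) w13768 = true := by decide +kernel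
theorem cw13770 : wchk (nat_lit 5) [w86] [] (nat_lit 1) (nat_lit 0) (nat_lit 4) (nat_lit 2) (nat_lit 205) (nat_lit 9219072) w13770 = true := by decide +kernel
theorem cw13771 : wchk (nat_lit 5) [w220, w4784] [] (nat_lit 0) (nat_lit 1) (nat_lit 4) (nat_lit 2) (nat_lit 5606400) (nat_lit 18179076) w13771 = true := by decide +kernel
theorem cw13774 : wchk (nat_lit 5) [w105] [] (nat_lit 2) (nat_lit 2) (nat_lit 3) (nat_lit 2) (nat_lit 88886272) (nat_lit 201) w13774 = true := by decide +kernel
theorem cw13775 : wchk (nat_lit 5) [w80] [] (nat_lit 2) (nat_lit 2) (nat_lit 3) (nat_lit 2) (nat_lit 88771584) (nat_lit 201) w13775 = true := by decide +kernel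
theorem cw13790 : wchk (nat_lit 5) [w1919, w16] [] (nat_lit 17) (nat_lit 1) (nat_lit 2) (nat_lit 2) (nat_lit 626094080) (nat_lit 21655556) w13790 = true := by decide +kernel
theorem cw13792 : wchk (nat_lit 5) [w220, w85] [] (nat_lit 17) (nat_lit 0) (nat_lit 1) (nat_lit 2) (nat_lit 6982656) (nat_lit 88836100) w13792 = true := by decide +kernel
theorem cw13793 : wchk (nat_lit 5) [w6776, w16] [] (nat_lit 0) (nat_lit 0) (nat_lit 4) (nat_lit 2) (nat_lit 18688000) (nat_lit 13283332) w13793 = true := by decide +kernel
theorem cw13801 : wchk (nat_lit 5) [] [l84] (nat_lit 1) (nat_lit 2) (nat_lit 1) (nat_lit 0) (nat_lit 22192896) (nat_lit 0) w13801 = true := by decide +kernel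
theorem cw13804 : wchk (nat_lit 5) [w80, w337] [] (nat_lit 1) (nat_lit 1) (nat_lit 1) (nat_lit 2) (nat_lit 84628480) (nat_lit 89818116) w13804 = true := by decide +kernel
theorem cw13805 : wchk (nat_lit 5) [] [l3038] (nat_lit 3) (nat_lit 0) (nat_lit 1) (nat_lit 1) (nat_lit 5820672) (nat_lit 0) w13805 = true := by decide +kernel
theorem cw13807 : wchk (nat_lit 5) [] [l3038] (nat_lit 0) (nat_lit 0) (nat_lit 1) (nat_lit 1) (nat_lit 5820672) (nat_lit 0) w13807 = true := by decide +kernel
theorem cw13808 : wchk (nat_lit 5) [] [l3038] (nat_lit 0) (nat_lit 0) (nat_lit 1) (nat_lit 1) (nat_lit 5820672) (nat_lit 0) w13808 = true := by decide +kernel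
theorem cw13810 : wchk (nat_lit 5) [] [l1067] (nat_lit 3) (nat_lit 3) (nat_lit 2) (nat_lit 0) (nat_lit 4888832) (nat_lit 0) w13810 = true := by decide +kernel
theorem cl3117 : lchk (nat_lit 5) [w3274, w5597, w603, w4540, w520, w12, w86, w13810, w2686] (nat_lit 4887700480) (.nod (nat_lit 791833956623343046339700215024321346710250979328) (.nod (nat_lit 5442247204580252222385145200358631552788141350514974129128267) (.nod (nat_lit 5435970102845292346392637357997181840330895474211682422621002) .nil .nil (.dwn (nat_lit 116458214810793075683583674695154026099362018067422489815433943072) (nat_lit 22307840))) .nil (.nod (nat_lit 272588415624624336981410777765908408559034311154424048511517941808) .nil .nil (.dwn (nat_lit 20933259795324011728061325950941800812045946186790225844933955061197183916083121225738) (nat_lit 90391580)))) .nil (.dwn (nat_lit 15021348707363054434380926585711680545093228318020103242179094437952) (nat_lit 659842048))) .nil .nil .nil l3117 = true := by decide +kernel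
theorem cw13811 : wchk (nat_lit 5) [] [l3117] (nat_lit 273) (nat_lit 2) (nat_lit 3) (nat_lit 0) (nat_lit 1230557440) (nat_lit 0) w13811 = true := by decide +kernel
theorem cw13814 : wchk (nat_lit 5) [w10148] [] (nat_lit 18) (nat_lit 2) (nat_lit 3) (nat_lit 2) (nat_lit 21784576) (nat_lit 201) w13814 = true := by decide +kernel
theorem cl3121 : lchk (nat_lit 5) [w3274, w817, w971, w216, w33, w78, w142, w12, w520] (nat_lit 22823936) (.nod (nat_lit 421249781830198814686387109220356943500105350786990516403573882954) (.nod (nat_lit 61478278946595684794909472046316250297224611856) .nil .nil (.dwn (nat_lit 144903846192510378872440477576501569865819736714278555586856708657492294145527269818386) (nat_lit 625707020))) .nil (.nod (nat_lit 1127595054275966044682681618361668527258827171524676241634378121810) .nil (.opn (nat_lit 7855253392821698786568203610440592515010665314338706177368255828016)) .dup)) .nil .nil (.nod (nat_lit 1126605331091144155953285894199488706306405554237095553301747273792) .nil (.nod (nat_lit 20827013605923419879577851985007181150405677037236218336103341887609139809258441802122) .nil (.opn (nat_lit 145157822708370080426292432734567892300149691791046977308375967149809937727183648229376))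 .dup) (.dwn (nat_lit 20827013605923419879577851985007181150405677037236218336103341887609139809258441802122) (nat_lit 89932800))) l3121 = true := by decide +kernel
theorem cw13829 : wchk (nat_lit 5) [w3766] [] (nat_lit 0) (nat_lit 2) (nat_lit 3) (nat_lit 2) (nat_lit 23211008) (nat_lit 201) w13829 = true := by decide +kernel
theorem cw13834 : wchk (nat_lit 5) [w4531] [] (nat_lit 18) (nat_lit 2) (nat_lit 3) (nat_lit 2) (nat_lit 22709248) (nat_lit 201) w13834 = true := by decide +kernel
theorem cw13836 : wchk (nat_lit 5) [] [l2083] (nat_lit 17) (nat_lit 2) (nat_lit 4) (nat_lit 0) (nat_lit 155625728) (nat_lit 0) w13836 = true := by decide +kernel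
theorem cw13858 : wchk (nat_lit 5) [w3766] [] (nat_lit 25) (nat_lit 0) (nat_lit 1) (nat_lit 2) (nat_lit 209) (nat_lit 90269696) w13858 = true := by decide +kernel
theorem cw13880 : wchk (nat_lit 5) [w220, w12203] [] (nat_lit 0) (nat_lit 1) (nat_lit 1) (nat_lit 2) (nat_lit 23211008) (nat_lit 89230340) w13880 = true := by decide +kernel
theorem cl3127 : lchk (nat_lit 5) [w5606, w22, w1101, w5390, w5359] (nat_lit 89359360) (.nod (nat_lit 210625600227595506038119796765227424279749599382680225682246598794) (.nod (nat_lit 20704174873303477569765583762400293466484519568893242464604730507627228459775786221568) .nil .nil (.opn (nat_lit 3885338942372350515211503046982716812429852192382780524600270817942551102990567079936))) (.nod (nat_lit 67854164293067501143009355788467656984041995195319072267479064166100673327268170) .nil (.dwn (nat_lit 1139671495896638871592762238188785807826202837289594655278191772366677619811619139160064) (nat_lit 4921197568)) .dup) .nil) (.nod (nat_lit 210625198493084441290550911274704338989098968831931779984037773322) .nil .nil (.dwn (nat_lit 210624796758573376542982025784181253699269237134355388221645389834) (nat_lit 78327824)))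 .nil .nil l3127 = true := by decide +kernel
theorem cw13884 : wchk (nat_lit 5) [] [l296] (nat_lit 17) (nat_lit 1) (nat_lit 1) (nat_lit 0) (nat_lit 22339840) (nat_lit 0) w13884 = true := by decide +kernel
theorem cl3129 : lchk (nat_lit 5) [w330, w22, w12, w5606, w8, w1101, w55, w12500] (nat_lit 21727232) (.nod (nat_lit 210625600227595506038119796765227424279749599382680225682246598794) (.nod (nat_lit 20704174873303477569765583762400293466484519568893242464604730507627228459775786221898) .nil (.nod (nat_lit 20689235841118436045278529845301865738922408544440491974821073838927498282984333051928) .nil (.opn (nat_lit 1139550316233073521549391430130261704935126554818049001117269556829328220471662969556992)) .dup) (.opn (nat_lit 20689235841118436045278529845301865742271602065656480810270828912380833757660724004888))) (.nod (nat_lit 5152866542159949708133024791669275122773146463954758531210642212233461699352712970570) .nil (.dwn (nat_lit 1139671498675649013288350928505139889683992964100133233410549303300558888526440108066840) (nat_lit 625707008)) .dup) .nil) (.nod (nat_lit 210624796758573376542982025784181253698448338281183334285828947978) .nil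 .nil (.dwn (nat_lit 210624796758573376542982025784181253699283253560798403097668878346) (nat_lit 89337884))) .nil .nil l3129 = true := by decide +kernel
theorem cw13889 : wchk (nat_lit 5) [] [l3129] (nat_lit 1) (nat_lit 3) (nat_lit 2) (nat_lit 0) (nat_lit 22597888) (nat_lit 0) w13889 = true := by decide +kernel
theorem cw13890 : wchk (nat_lit 5) [] [l2302] (nat_lit 34) (nat_lit 1) (nat_lit 2) (nat_lit 0) (nat_lit 22449152) (nat_lit 0) w13890 = true := by decide +kernel

end Pool.Agent.W319.GCI.K5
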