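import Pool.Agent.W319.GCI.K5D0
import Pool.Agent.W319.GCI.K5D1
import Pool.Agent.W319.GCI.K5D2
import Pool.Agent.W319.GCI.K5D3
import Pool.Agent.W319.GCI.K5D4
import Pool.Agent.W319.GCI.K5D5
import Pool.Agent.W319.GCI.K5D6
import Pool.Agent.W319.GCI.K5D7
import Pool.Agent.W319.GCI.K5D8
import Pool.Agent.W319.GCI.K5D9
import Pool.Agent.W319.GCI.K5D10
import Pool.Agent.W319.GCI.K5D11
import Pool.Agent.W319.GCI.K5D12
import Pool.Agent.W319.GCI.K5D13
import Pool.Agent.W319.GCI.K5D14
import Pool.Agent.W319.GCI.K5D15
set_option autoImplicit false
set_option maxRecDepth 100000
set_option linter.all false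
namespace Pool.Agent.W319.GCI.K5
open Pool.Agent.W319.GCI

theorem cw13893 : wchk (nat_lit 5) [] [l1557] (nat_lit 1) (nat_lit 2) (nat_lit 1) (nat_lit 0) (nat_lit 18522880) (nat_lit 0) w13893 = true := by decide +kernel
theorem cl3130 : lchk (nat_lit 5) [w12634, w13422, w8380, w15, w4531, w101, w932, w220, w2628, w2538, w13637, w2629, w937, w724, w11384, w2548, w42, w12280, w164, w106, w149, w4260, w2740, w871, w13205, w2534, w7573, w8336, w13893, w8331, w8631] (nat_lit 7036037120) (.nod (nat_lit 32989885731370093770603845649) (.nod (nat_lit 1555323351204934892642253438925267041240566456045609584336008380826) (.nod (nat_lit 28343714511640062415887213289154028763526631131417962786931554643263816928713927774264) .nil (.nod (nat_lit 207291694757852304752745750905548994778161323392879336058159155585060188323131700979792) .nil .nil .dup) (.opn (nat_lit 207291694757852304752745750905548994778770498941446696297919608126067168663160229374032))) (.nod (nat_lit 7867582122798137058097004068034855459186430437866318351029002829915) .nil (.nod (nat_lit 820900328911579832616700008) .nil (.nod (nat_lit 20689246957159002765851574768918959094574846568108639759006958503545962040618978902426)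 (.dwn (nat_lit 144917138198018108881014472338852071193948876825567555874376064091667883902188700258448) (nat_lit 627140608)) .nil .nil) (.nod (nat_lit 20689246957159002765851574768918959094574846568108639759006958503545962040618978902426) (.dwn (nat_lit 144917138198018108881014472338852071193948876825567555874376064091667883902188700258448) (nat_lit 627140608)) .nil .nil)) .nil) (.nod (nat_lit 36114403049256973279386340143064800590408014669321824768311885795256797327224571383992) (.dwn (nat_lit 269488654042897874536585794237031139454483952470543914705353658197524100366168534452448) (nat_lit 1164011520)) .nil .nil)) .nil (.dwn (nat_lit 11565687347506780716072592501840723200194494087813510779510754115930) (nat_lit 929130496))) .nil .nil .nil l3130 = true := by decide +kernel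
theorem cw13894 : wchk (nat_lit 5) [] [l3130] (nat_lit 209) (nat_lit 3) (nat_lit 0) (nat_lit 0) (nat_lit 1230557440) (nat_lit 0) w13894 = true := by decide +kernel
theorem cw13896 : wchk (nat_lit 5) [w6902, w16] [] (nat_lit 2) (nat_lit 2) (nat_lit 4) (nat_lit 2) (nat_lit 648753152) (nat_lit 17476612) w13896 = true := by decide +kernel
theorem cw13897 : wchk (nat_lit 5) [w6613] [] (nat_lit 0) (nat_lit 0) (nat_lit 1) (nat_lit 2) (nat_lit 16777293) (nat_lit 21662720) w13897 = true := by decide +kernel
theorem cw13901 : wchk (nat_lit 5) [w9706, w2934] [] (nat_lit 145) (nat_lit 1) (nat_lit 1) (nat_lit 2) (nat_lit 7104512) (nat_lit 22121476) w13901 = true := by decide +kernel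
theorem cw13902 : wchk (nat_lit 5) [w368, w13082] [] (nat_lit 1) (nat_lit 1) (nat_lit 4) (nat_lit 2) (nat_lit 84757504) (nat_lit 10724356) w13902 = true := by decide +kernel
theorem cw13903 : wchk (nat_lit 5) [w126, w13082] [] (nat_lit 1) (nat_lit 1) (nat_lit 4) (nat_lit 2) (nat_lit 84649984) (nat_lit 10724356) w13903 = true := by decide +kernel
theorem cw13904 : wchk (nat_lit 5) [w6184, w3035] [] (nat_lit 25) (nat_lit 1) (nat_lit 1) (nat_lit 2) (nat_lit 627190784) (nat_lit 660816900) w13904 = true := by decide +kernel
theorem cw13905 : wchk (nat_lit 5) [w13109, w3035] [] (nat_lit 145) (nat_lit 0) (nat_lit 1) (nat_lit 2) (nat_lit 23282688) (nat_lit 627262468) w13905 = true := by decide +kernel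
theorem cw13906 : wchk (nat_lit 5) [w16] [] (nat_lit 0) (nat_lit 2) (nat_lit 3) (nat_lit 2) (nat_lit 297) (nat_lit 21662720) w13906 = true := by decide +kernel
theorem cl3131 : lchk (nat_lit 5) [w6797, w144, w114, w1637, w761, w8265, w6635, w69, w8264, w2692, w2743, w6774, w871, w1836, w13906] (nat_lit 6129664) (.nod (nat_lit 4132609907144008389606930091633816909916405760) (.nod (nat_lit 4289668012344030021331689429330316836998459661982406616166388320230060229275045330944) .nil (.dwn (nat_lit 4512109247452483925557274733357328531771588485840129029611416120464548631605962559536) (nat_lit 610109440)) (.dwn (nat_lit 4512109247452483925557274733357328531771588485840129029611416120464548631605962559536) (nat_lit 610109440))) (.nod (nat_lit 3076215086646079016926249590231471523456669765894444076989929291933458861860560306176) .nil (.nod (nat_lit 3541011943538377413420449412650042963969490268583388985426852570164167307432601229384) .nil (.dwn (nat_lit 1136057685929765350374762055803597716983494062553079234555139211723012608327246171262976) (nat_lit 4905592832)) .dup) (.dwn (nat_lit 4327854390701069113112940797142516870340591091069848504342158112607334260671970461800) (nat_lit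 610625536))) .nil) .nil .nil (.dwn (nat_lit 11418012167060701933546969810994713414603278448) (nat_lit 90391608)) l3131 = true := by decide +kernel
theorem cw13907 : wchk (nat_lit 5) [] [l3131] (nat_lit 2) (nat_lit 1) (nat_lit 1) (nat_lit 0) (nat_lit 5820672) (nat_lit 0) w13907 = true := by decide +kernel
theorem cw13908 : wchk (nat_lit 5) [w7558, w3035] [] (nat_lit 145) (nat_lit 0) (nat_lit 1) (nat_lit 2) (nat_lit 23160832) (nat_lit 627262468) w13908 = true := by decide +kernel
theorem cw13909 : wchk (nat_lit 5) [w7424, w3035] [] (nat_lit 145) (nat_lit 0) (nat_lit 1) (nat_lit 2) (nat_lit 21727232) (nat_lit 627262468) w13909 = true := by decide +kernel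
theorem cw13910 : wchk (nat_lit 5) [w12966, w3035] [] (nat_lit 145) (nat_lit 0) (nat_lit 1) (nat_lit 2) (nat_lit 21777408) (nat_lit 627262468) w13910 = true := by decide +kernel
theorem cw13911 : wchk (nat_lit 5) [w13119, w3035] [] (nat_lit 145) (nat_lit 0) (nat_lit 1) (nat_lit 2) (nat_lit 23282688) (nat_lit 627262468) w13911 = true := by decide +kernel
theorem cw13912 : wchk (nat_lit 5) [w8759, w3035] [] (nat_lit 145) (nat_lit 0) (nat_lit 1) (nat_lit 2) (nat_lit 22644736) (nat_lit 627262468) w13912 = true := by decide +kernel
theorem cw13913 : wchk (nat_lit 5) [w12564, w3035] [] (nat_lit 145) (nat_lit 0) (nat_lit 1) (nat_lit 2) (nat_lit 19490816) (nat_lit 627262468) w13913 = true := by decide +kernel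
theorem cl3132 : lchk (nat_lit 5) [w13111, w13126, w8757, w7878, w7424, w2051, w8449, w8419, w6613, w2839, w12203, w2936, w5567, w2861, w13909, w16, w3408, w13104, w13910, w10822, w13911, w284, w12634, w13904, w11320, w13106, w13107, w13108, w13905, w12522, w12366, w5212, w12621, w13907, w13113, w13138, w13908, w8417, w13140, w8759, w458, w7083, w12628, w13912, w13122, w8746, w13123, w13124, w13913, w13765, w13127, w13128, w13129] (nat_lit 451565274112) (.nod (nat_lit 38425935282804918149868638899782324822428292122625) (.nod (nat_lit 292295658992448913654850500326484263416663603889904457954130022425) (.nod (nat_lit 272768298529055313107817601112610561910215507733789056808787550265) (.nod (nat_lit 271958602622004314381792274554029613901994309566969670580074729561) (.nod (nat_lit 5244171846702072173369376270170450779906559868320365452029145493730027491422029156440) .nil (.dwn (nat_lit 5362034298494951582367930400298145026230721571652352344147798638296309179004217624632) (nat_lit 314159875128)) (.dwn (nat_lit 5362034298494951582367930400298145026230721571652352344147798638296309179004217624632) (nat_lit 314159875128))) (.nod (nat_lit 5375316230090917937391911602845389805050514161238380752274802604262663279645453099088)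 .nil (.nod (nat_lit 5166157621330965810308521741518498028703185808005163602196986047738659840409926797448) .nil (.nod (nat_lit 5390256072820584183753920694497033898926636017386015441587051578758126625876962922616) (.dwn (nat_lit 5375319819645936699969322897259477589868693749498876241743735232412544714724959672472) (nat_lit 20105369175096)) .nil .nil) .dup) (.nod (nat_lit 5363702630916682834111684153700092483823156989017997687905310804034706899663820769472) (.dwn (nat_lit 20933276469384861902516107333787016461586589739909568824443059287580289361837568723168) (nat_lit 90391552)) .nil .nil)) (.nod (nat_lit 5044990000142896449797891693589044761027264094457056936444141529203779193014904588552) (.dwn (nat_lit 20933284806415286989277949073000842001763588767596979350816454157012611140904415824176) (nat_lit 314159875128)) .nil .nil)) .nil (.nod (nat_lit 284288581741687928285903837504215353727755772304759026707951964496) (.dwn (nat_lit 9097082357622051931411775807967494043415860546714712534036461167746881431350658380237176) (nat_lit 39281968320)) .nil .nil)) .nil (.dwn (nat_lit 286538797171789345607143280713781513586452845624526878827702815136) (nat_lit 7103267840))) .nil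 (.dwn (nat_lit 709254643115225514183992914348765769624596031824104712622971384399872) (nat_lit 56495391744))) .nil .nil (.nod (nat_lit 307342236551350772747003691558721217205616763111424) (.opn (nat_lit 836642947703674545825684435777173577113767341905015515988292726413786781636668254184704000)) (.dwn (nat_lit 836642947703674545825684435777173577113767341905015515988292726413786781636668254184704000) (nat_lit 3612694758400)) .dup) l3132 = true := by decide +kernel
theorem cw13914 : wchk (nat_lit 5) [] [l3132] (nat_lit 111761) (nat_lit 1) (nat_lit 1) (nat_lit 0) (nat_lit 628295782656) (nat_lit 0) w13914 = true := by decide +kernel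
theorem cw13915 : wchk (nat_lit 5) [w3518, w3898] [] (nat_lit 1) (nat_lit 1) (nat_lit 2) (nat_lit 2) (nat_lit 90391552) (nat_lit 22293508) w13915 = true := by decide +kernel
theorem cw13916 : wchk (nat_lit 5) [w368, w13082] [] (nat_lit 0) (nat_lit 0) (nat_lit 4) (nat_lit 2) (nat_lit 17476608) (nat_lit 10724356) w13916 = true := by decide +kernel
theorem cw13917 : wchk (nat_lit 5) [w69, w13082] [] (nat_lit 0) (nat_lit 0) (nat_lit 4) (nat_lit 2) (nat_lit 17476608) (nat_lit 10724356) w13917 = true := by decide +kernel
theorem cw13918 : wchk (nat_lit 5) [w126, w13082] [] (nat_lit 0) (nat_lit 0) (nat_lit 4) (nat_lit 2) (nat_lit 17519616) (nat_lit 10724356) w13918 = true := by decide +kernel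
theorem cw13938 : wchk (nat_lit 5) [w16] [] (nat_lit 0) (nat_lit 0) (nat_lit 2) (nat_lit 2) (nat_lit 165) (nat_lit 21655552) w13938 = true := by decide +kernel
theorem cl3135 : lchk (nat_lit 5) [w42, w3, w39, w143, w720, w754, w86, w734, w3378, w1177, w5841] (nat_lit 4887119872) (.nod (nat_lit 837030180376375538251139089) (.nod (nat_lit 142578311739873216198864699536721473175962) (.nod (nat_lit 15757569899883182862922211640210987643246782488) .nil .nil (.dwn (nat_lit 285096720927508551110755182431309401294778527130674810288148054034) (nat_lit 22709268))) .nil (.dwn (nat_lit 3116054049700713077686380509100278272644726806272854612050569346848050243324002435666) (nat_lit 19490848))) .nil (.dwn (nat_lit 1126785408585728929066181723659069305770642046252551716249140199770) (nat_lit 660221992))) .nil .nil .nil l3135 = true := by decide +kernel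
theorem cl3137 : lchk (nat_lit 5) [w15, w1, w638, w432, w149, w2766, w6742] (nat_lit 22709248) .nil (.nod (nat_lit 22835996430967316348901994921903450495475777618) .nil (.nod (nat_lit 20800454605999235138465935731489183030724628924033450790406172625245473183859931611136) .nil .nil (.dwn (nat_lit 3885355616433200696400600563775099612198273821480988382400631903547969192730292125696) (nat_lit 626689024))) (.nod (nat_lit 7770693400884658830371942857225766964518854796453587713895847026683198834337485160594) (.opn (nat_lit 145235844344434897977256463748282085321440380783975984964766263325283919166273239605280)) .nil .nil)) .nil (.nod (nat_lit 17127027438214959764730512700080345583093547154) .nil (.dwn (nat_lit 20800458311346090732584189285760703308737680370910989463856499616169043153917898129810) (nat_lit 74206232)) .dup) l3137 = true := by decide +kernel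
theorem cw13960 : wchk (nat_lit 5) [] [l3137] (nat_lit 4) (nat_lit 1) (nat_lit 1) (nat_lit 0) (nat_lit 22597888) (nat_lit 0) w13960 = true := by decide +kernel
theorem cw13968 : wchk (nat_lit 5) [] [l103] (nat_lit 0) (nat_lit 2) (nat_lit 1) (nat_lit 0) (nat_lit 2575360) (nat_lit 0) w13968 = true := by decide +kernel
theorem cw13994 : wchk (nat_lit 5) [w2520] [] (nat_lit 1) (nat_lit 0) (nat_lit 1) (nat_lit 2) (nat_lit 23211008) (nat_lit 25165905) w13994 = true := by decide +kernel
theorem cw14000 : wchk (nat_lit 5) [] [l1701] (nat_lit 17) (nat_lit 3) (nat_lit 4) (nat_lit 0) (nat_lit 3476736) (nat_lit 0) w14000 = true := by decide +kernel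
theorem cw14002 : wchk (nat_lit 5) [] [l630] (nat_lit 2) (nat_lit 2) (nat_lit 1) (nat_lit 0) (nat_lit 22434816) (nat_lit 0) w14002 = true := by decide +kernel
theorem cw14006 : wchk (nat_lit 5) [] [l2396] (nat_lit 2) (nat_lit 2) (nat_lit 1) (nat_lit 0) (nat_lit 22339840) (nat_lit 0) w14006 = true := by decide +kernel
theorem cw14007 : wchk (nat_lit 5) [] [l1272] (nat_lit 2) (nat_lit 2) (nat_lit 1) (nat_lit 0) (nat_lit 22438400) (nat_lit 0) w14007 = true := by decide +kernel
theorem cw14008 : wchk (nat_lit 5) [] [l391] (nat_lit 1) (nat_lit 2) (nat_lit 1) (nat_lit 0) (nat_lit 30843136) (nat_lit 0) w14008 = true := by decide +kernel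
theorem cw14009 : wchk (nat_lit 5) [] [l1258] (nat_lit 0) (nat_lit 0) (nat_lit 1) (nat_lit 1) (nat_lit 21648128) (nat_lit 0) w14009 = true := by decide +kernel
theorem cw14014 : wchk (nat_lit 5) [] [l2069] (nat_lit 33) (nat_lit 1) (nat_lit 2) (nat_lit 0) (nat_lit 156571904) (nat_lit 0) w14014 = true := by decide +kernel
theorem cw14018 : wchk (nat_lit 5) [w3878, w13082] [] (nat_lit 0) (nat_lit 0) (nat_lit 4) (nat_lit 2) (nat_lit 18695168) (nat_lit 10724356) w14018 = true := by decide +kernel
theorem cl3143 : lchk (nat_lit 5) [w11320, w2934, w144, w15, w220, w2620, w8332, w2916, w3958, w5943, w149, w2740, w13555, w7359, w11319, w497, w8342] (nat_lit 5484544) (.nod (nat_lit 277717517054931353883226924877582275469927183885541374504780955648) (.nod (nat_lit 19588658896682448604428151864325047855604821274234786910613209851248683439210821343248) .nil (.dwn (nat_lit 145126287427618832776580316917570991254536975311807574640293729886800248127217219231784) (nat_lit 609464320)) (.dwn (nat_lit 145126287427618832776580316917570991254536975311807574640293729886800248127217219231784) (nat_lit 609464320))) (.nod (nat_lit 18617561592768342092536648384290586195061213494309402642820084584197718784646571122704)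 .nil (.dwn (nat_lit 145247467091184182819937986650645232641105600868063136768308670013194470220014505252904) (nat_lit 609514528)) .dup) (.nod (nat_lit 18722147786777627775824349178611576213399658631836403475818015640304842462646344812616) (.dwn (nat_lit 144900534538758191636910082240104665813195147178843561217911217551711767750293071503456) (nat_lit 609457184)) .nil .nil)) .nil .nil (.nod (nat_lit 6225433235711344779309542991127296750592720896) .nil (.dwn (nat_lit 18139495888786161157328907793348850668557452420180284233765643206601313375768985165952) (nat_lit 72593408)) .dup) l3143 = true := by decide +kernel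
theorem cw14019 : wchk (nat_lit 5) [] [l3143] (nat_lit 4) (nat_lit 1) (nat_lit 1) (nat_lit 0) (nat_lit 22597888) (nat_lit 0) w14019 = true := by decide +kernel
theorem cw14020 : wchk (nat_lit 5) [w162, w489] [] (nat_lit 17) (nat_lit 0) (nat_lit 3) (nat_lit 2) (nat_lit 122376192) (nat_lit 88764420) w14020 = true := by decide +kernel
theorem cw14021 : wchk (nat_lit 5) [w162, w489] [] (nat_lit 17) (nat_lit 0) (nat_lit 3) (nat_lit 2) (nat_lit 111882240) (nat_lit 88764420) w14021 = true := by decide +kernel
theorem cw14022 : wchk (nat_lit 5) [w114, w489] [] (nat_lit 1) (nat_lit 2) (nat_lit 4) (nat_lit 2) (nat_lit 72586240) (nat_lit 84571140) w14022 = true := by decide +kernel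
theorem cw14023 : wchk (nat_lit 5) [w11940, w489] [] (nat_lit 17) (nat_lit 0) (nat_lit 4) (nat_lit 2) (nat_lit 114075648) (nat_lit 84571140) w14023 = true := by decide +kernel
theorem cw14024 : wchk (nat_lit 5) [w7353, w489] [] (nat_lit 17) (nat_lit 0) (nat_lit 4) (nat_lit 2) (nat_lit 106269696) (nat_lit 84571140) w14024 = true := by decide +kernel
theorem cw14025 : wchk (nat_lit 5) [w1889, w489] [] (nat_lit 17) (nat_lit 0) (nat_lit 3) (nat_lit 2) (nat_lit 122440704) (nat_lit 88764420) w14025 = true := by decide +kernel
theorem cw14026 : wchk (nat_lit 5) [w2844, w489] [] (nat_lit 17) (nat_lit 0) (nat_lit 4) (nat_lit 2) (nat_lit 106599424) (nat_lit 84571140) w14026 = true := by decide +kernel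
theorem cw14027 : wchk (nat_lit 5) [w7466, w489] [] (nat_lit 17) (nat_lit 0) (nat_lit 4) (nat_lit 2) (nat_lit 107696128) (nat_lit 84571140) w14027 = true := by decide +kernel
theorem cw14028 : wchk (nat_lit 5) [w16] [] (nat_lit 0) (nat_lit 2) (nat_lit 4) (nat_lit 2) (nat_lit 25165829) (nat_lit 17476608) w14028 = true := by decide +kernel
theorem cw14029 : wchk (nat_lit 5) [] [l42] (nat_lit 17) (nat_lit 0) (nat_lit 4) (nat_lit 1) (nat_lit 19336448) (nat_lit 0) w14029 = true := by decide +kernel
theorem cw14030 : wchk (nat_lit 5) [] [l322] (nat_lit 1) (nat_lit 1) (nat_lit 1) (nat_lit 0) (nat_lit 22449152) (nat_lit 0) w14030 = true := by decide +kernel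
theorem cw14031 : wchk (nat_lit 5) [] [l703] (nat_lit 1) (nat_lit 1) (nat_lit 1) (nat_lit 0) (nat_lit 22221568) (nat_lit 0) w14031 = true := by decide +kernel
theorem cl3144 : lchk (nat_lit 5) [w12313, w267, w114, w819, w14028, w6562, w14029, w1730, w16, w12, w14030, w5358, w11692, w301, w12452, w216, w2740, w2941, w1139, w14031, w4589, w8715, w4162] (nat_lit 40085504) (.nod (nat_lit 290675865443835851442361313481513029714034000060580830568319195153) (.nod (nat_lit 5378624989040874246556016058288893832475618101068421154522377302853105965119427313994) .nil (.opn (nat_lit 5284007104409850647767159639724354339700123710428177026245247742144841080670997923888)) .dup) (.nod (nat_lit 5375309745733920646564843797417110088970025740886579996239298461113475285376827392330) .nil (.nod (nat_lit 20704182283997188758002088648849319695625631780302805250110059634435422053778647980120) .nil (.dwn (nat_lit 1139681466985027275303200837144899850156894574400642815526710967452102000829394410856552) (nat_lit 39280341044)) (.dwn (nat_lit 1139681466985027275303200837144899850156894574400642815526710967452102000829394410856552) (nat_lit 39280341044))) (.nod (nat_lit 20704182283997188758294294965852768850638427716782537656989050594699243475320826318976)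 (.dwn (nat_lit 145034998797137560486199245145672418707801776454635695222385580007142574654242591234216) (nat_lit 610510848)) .nil .nil)) .nil) (.nod (nat_lit 210624796758573376542982025784181253699270826653398731626289037322) .nil (.opn (nat_lit 7664477406906388162069351067023886607614063629128868017665596674048)) .nil) .nil .nil l3144 = true := by decide +kernel
theorem cw14032 : wchk (nat_lit 5) [] [l3144] (nat_lit 1) (nat_lit 3) (nat_lit 2) (nat_lit 0) (nat_lit 5820672) (nat_lit 0) w14032 = true := by decide +kernel
theorem cw14033 : wchk (nat_lit 5) [] [l3131] (nat_lit 1) (nat_lit 0) (nat_lit 1) (nat_lit 0) (nat_lit 5820672) (nat_lit 0) w14033 = true := by decide +kernel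
theorem cw14034 : wchk (nat_lit 5) [w6841, w489] [] (nat_lit 17) (nat_lit 0) (nat_lit 4) (nat_lit 2) (nat_lit 13469696) (nat_lit 84571140) w14034 = true := by decide +kernel
theorem cw14035 : wchk (nat_lit 5) [w1067, w489] [] (nat_lit 17) (nat_lit 0) (nat_lit 3) (nat_lit 2) (nat_lit 21655552) (nat_lit 88764420) w14035 = true := by decide +kernel
theorem cw14036 : wchk (nat_lit 5) [w7353, w489] [] (nat_lit 17) (nat_lit 0) (nat_lit 3) (nat_lit 2) (nat_lit 7032832) (nat_lit 88764420) w14036 = true := by decide +kernel
theorem cw14037 : wchk (nat_lit 5) [w7466, w489] [] (nat_lit 17) (nat_lit 0) (nat_lit 4) (nat_lit 2) (nat_lit 6129664) (nat_lit 84571140) w14037 = true := by decide +kernel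
theorem cw14038 : wchk (nat_lit 5) [w1207, w489] [] (nat_lit 17) (nat_lit 0) (nat_lit 4) (nat_lit 2) (nat_lit 911518720) (nat_lit 84571140) w14038 = true := by decide +kernel
theorem cw14039 : wchk (nat_lit 5) [w2936, w489] [] (nat_lit 17) (nat_lit 0) (nat_lit 4) (nat_lit 2) (nat_lit 116011008) (nat_lit 84571140) w14039 = true := by decide +kernel
theorem cw14040 : wchk (nat_lit 5) [w2936, w489] [] (nat_lit 17) (nat_lit 0) (nat_lit 4) (nat_lit 2) (nat_lit 22816768) (nat_lit 84571140) w14040 = true := by decide +kernel
theorem cw14041 : wchk (nat_lit 5) [w971, w16] [] (nat_lit 1) (nat_lit 2) (nat_lit 3) (nat_lit 2) (nat_lit 78406656) (nat_lit 21662724) w14041 = true := by decide +kernel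
theorem cw14042 : wchk (nat_lit 5) [] [] (nat_lit 0) (nat_lit 1) (nat_lit 4) (nat_lit 2) (nat_lit 293) (nat_lit 205) w14042 = true := by decide +kernel
theorem cl3145 : lchk (nat_lit 5) [w2740, w105, w80, w3760, w871, w4166, w14042] (nat_lit 7034660864) (.nod (nat_lit 32990150036319181881084530689) (.nod (nat_lit 3835309160321277357915458638450927373937018340092734227874202) (.nod (nat_lit 4088807643659270160437226577536362790923174468286239640027064361953663886788189487690) .nil (.opn (nat_lit 207281731080157612168761403287164026765475698824327698080708609555999116090075189022752)) .dup) (.nod (nat_lit 7873251048700585594134993335492427381217881011440787455662593409115) .nil (.nod (nat_lit 3334860537782533073680728074) .nil (.dwn (nat_lit 145264067971433958368166699802320557391540631762377810146000855544523290231550592942490) (nat_lit 627262488)) .dup) .nil) .nil) .nil (.nod (nat_lit 11647215499832702236981581419672406644603590835213649433537275285504) .nil (.opn (nat_lit 92105806334610392878552623518906030333024240274901345617122390757376)) .dup)) .nil .nil .nil l3145 = true := by decide +kernel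
theorem cw14043 : wchk (nat_lit 5) [] [l3145] (nat_lit 209) (nat_lit 3) (nat_lit 0) (nat_lit 0) (nat_lit 1230557440) (nat_lit 0) w14043 = true := by decide +kernel
theorem cl3146 : lchk (nat_lit 5) [] (nat_lit 142606473) (.nod (nat_lit 7434037861704982855955) (.nod (nat_lit 88813697766364938971651511562502095765504) (.nod (nat_lit 11417990388989218992866337803335754317035470848) .nil .nil .nil) .nil .nil) .nil (.nod (nat_lit 315938594931547056044283578907298142263166763282424702235444248922) .nil (.opn (nat_lit 2738121303308362350244831864060521563167117837556821454229535195410)) .dup)) .nil .nil .nil l3146 = true := by decide +kernel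
theorem cw14044 : wchk (nat_lit 5) [] [l3146] (nat_lit 17) (nat_lit 2) (nat_lit 1) (nat_lit 0) (nat_lit 156815616) (nat_lit 0) w14044 = true := by decide +kernel
theorem cw14045 : wchk (nat_lit 5) [] [l3058] (nat_lit 273) (nat_lit 1) (nat_lit 4) (nat_lit 0) (nat_lit 22334464) (nat_lit 0) w14045 = true := by decide +kernel
theorem cw14046 : wchk (nat_lit 5) [] [] (nat_lit 1) (nat_lit 2) (nat_lit 3) (nat_lit 2) (nat_lit 16777249) (nat_lit 209) w14046 = true := by decide +kernel
theorem cw14047 : wchk (nat_lit 5) [] [l414] (nat_lit 17) (nat_lit 2) (nat_lit 1) (nat_lit 0) (nat_lit 154686720) (nat_lit 0) w14047 = true := by decide +kernel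
theorem cl3147 : lchk (nat_lit 5) [w766, w13, w5415, w959, w2468, w14044, w16, w10099, w6204, w13968, w14046, w2743, w14045, w3314, w3312, w14047, w9899] (nat_lit 4875715584) (.nod (nat_lit 2856729656701928361614270481) (.nod (nat_lit 210625506071069475237908451861849526995384771935082641447565918208) (.nod (nat_lit 220214940235693676653917494677925424945352128422910965093102518272) .nil .nil (.dwn (nat_lit 210624696324945610367507789356021830633636603032838258279831734312) (nat_lit 4922229780))) (.nod (nat_lit 5375307893060492849505718526785766442766883409156286915831012908564889148502770188288) .nil (.nod (nat_lit 2613076372471658988005472864419539738511692439310001308212916072684414973155863857224) .nil (.dwn (nat_lit 1634232499975292055163649160848294931156917255020093580185925639080116989401922570749952) (nat_lit 7056753664)) .dup) (.dwn (nat_lit 2613076372471658988297768969086211864606134282921643277542308105918882926113642154056) (nat_lit 882738176))) .nil) .nil (.nod (nat_lit 292296205100299892288183900029730395342828243382436142600847098202) .nil (.opn (nat_lit 192948917668845960587323801886696642595122967265638356974925711488)) .dup)) .nil .nil .nil l3147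 = true := by decide +kernel
theorem cw14048 : wchk (nat_lit 5) [] [l3147] (nat_lit 145) (nat_lit 2) (nat_lit 0) (nat_lit 0) (nat_lit 1230557440) (nat_lit 0) w14048 = true := by decide +kernel
theorem cw14049 : wchk (nat_lit 5) [] [l71] (nat_lit 17) (nat_lit 1) (nat_lit 1) (nat_lit 0) (nat_lit 156700928) (nat_lit 0) w14049 = true := by decide +kernel
theorem cw14050 : wchk (nat_lit 5) [w14049, w16] [] (nat_lit 17) (nat_lit 2) (nat_lit 3) (nat_lit 2) (nat_lit 627262464) (nat_lit 21662724) w14050 = true := by decide +kernel
theorem cw14051 : wchk (nat_lit 5) [w7695, w16] [] (nat_lit 1) (nat_lit 2) (nat_lit 0) (nat_lit 2) (nat_lit 89753600) (nat_lit 23211012) w14051 = true := by decide +kernel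
theorem cw14052 : wchk (nat_lit 5) [w1067] [] (nat_lit 1) (nat_lit 0) (nat_lit 3) (nat_lit 2) (nat_lit 21655552) (nat_lit 209) w14052 = true := by decide +kernel
theorem cw14053 : wchk (nat_lit 5) [w80] [] (nat_lit 1) (nat_lit 2) (nat_lit 3) (nat_lit 2) (nat_lit 80843776) (nat_lit 209) w14053 = true := by decide +kernel
theorem cw14054 : wchk (nat_lit 5) [w267] [] (nat_lit 0) (nat_lit 1) (nat_lit 4) (nat_lit 2) (nat_lit 19483648) (nat_lit 205) w14054 = true := by decide +kernel
theorem cl3148 : lchk (nat_lit 5) [w6719, w230, w220, w267, w16, w766, w6797, w1326, w5841, w13622, w14054, w638, w14053, w149, w6749, w261, w12365, w7719, w959] (nat_lit 15347712) .nil (.nod (nat_lit 12562291251906217016128242428325278233415292952) (.nod (nat_lit 3023863485242954180559456256) .nil .nil .nil) .nil (.nod (nat_lit 1028967424004270725213013938490744142162576598176119790083816555098) .nil (.opn (nat_lit 7775163299394947412670173862976024114034821399191373124922087071744)) .dup)) (.nod (nat_lit 5375306040387065052446588021051575484071984038377614880228137112149263105076877416481) .nil (.nod (nat_lit 4528709201365545575087876029095350122925254976182529745416323804544157725234057367608)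 .nil (.dwn (nat_lit 5391909583854893059024569288162956252284332836334499138993650682126426009290623330368) (nat_lit 627262504)) (.dwn (nat_lit 5391909583854893059024569288162956252284332836334499138993650682126426009290623330368) (nat_lit 627262504))) (.nod (nat_lit 5244172773038786071899839744910371416276476231697881004183413545842179095956899385432) (.dwn (nat_lit 20569727288984958888598193070841935981997138081441749935644865583553138723488305422448) (nat_lit 627262504)) .nil .nil)) (.nod (nat_lit 5043305919997028921082366480695800436499758203266661448746983475188301617040692609024) .nil (.dwn (nat_lit 19095638412791089808984242866134757732006351360090842230859609593798340316439047569408) (nat_lit 81961984)) .dup) l3148 = true := by decide +kernel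
theorem cw14055 : wchk (nat_lit 5) [] [l3148] (nat_lit 1) (nat_lit 1) (nat_lit 1) (nat_lit 0) (nat_lit 5820672) (nat_lit 0) w14055 = true := by decide +kernel
theorem cw14056 : wchk (nat_lit 5) [] [l3148] (nat_lit 1) (nat_lit 3) (nat_lit 1) (nat_lit 0) (nat_lit 4903168) (nat_lit 0) w14056 = true := by decide +kernel
theorem cw14057 : wchk (nat_lit 5) [] [l1998] (nat_lit 1) (nat_lit 0) (nat_lit 3) (nat_lit 0) (nat_lit 5415680) (nat_lit 0) w14057 = true := by decide +kernel
theorem cw14058 : wchk (nat_lit 5) [] [l756] (nat_lit 145) (nat_lit 2) (nat_lit 0) (nat_lit 0) (nat_lit 1228579072) (nat_lit 0) w14058 = true := by decide +kernel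
theorem cw14059 : wchk (nat_lit 5) [] [l481] (nat_lit 25) (nat_lit 1) (nat_lit 4) (nat_lit 0) (nat_lit 153511168) (nat_lit 0) w14059 = true := by decide +kernel
theorem cl3149 : lchk (nat_lit 5) [w12634, w13422, w8380, w15, w144, w220, w4209, w4256, w13213, w2538, w13215, w13637, w14058, w495, w14059, w5448, w12976, w8128, w521, w638, w4260, w871, w13635, w7276, w13634, w13014, w13893, w8331, w1335] (nat_lit 7036037120) (.nod (nat_lit 32989885731370093770603845649) (.nod (nat_lit 1555323351204934892642521744765936862800238057656077384935613616169) (.nod (nat_lit 25644562931712952060851674697318430781832390419251318701214845063026238582734569558056) .nil (.dwn (nat_lit 207323234670287121887320004864729601225863296717699834594849856040751653908362437240920) (nat_lit 895576064)) .dup) (.nod (nat_lit 7874781205236417334531432058208543867645729907278465262931152994395) .nil (.nod (nat_lit 834916312632736939621386352) .nil (.dwn (nat_lit 18966172667319917417640316598041076422912952653189634431236511983672343091259400782234) (nat_lit 89223236)) (.dwn (nat_lit 18966172667319917417640316598041076422912952653189634431236511983672343091259400782234) (nat_lit 89223236))) .nil)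 (.nod (nat_lit 36097802169007197731087422730594191891587876485785197563616980303820685411024802893992) (.dwn (nat_lit 269231352904571991168007237804592883606352243699630755375266860501911318919255403432144) (nat_lit 1164011520)) .nil .nil)) .nil (.nod (nat_lit 11565687247073152949885661248719477129546318320724705412452093788506) .nil .nil (.dwn (nat_lit 92123084132462265541996187326621220799227828864097283986284586651648) (nat_lit 7338027008)))) .nil .nil .nil l3149 = true := by decide +kernel
theorem cw14060 : wchk (nat_lit 5) [] [l3149] (nat_lit 209) (nat_lit 3) (nat_lit 0) (nat_lit 0) (nat_lit 1230557440) (nat_lit 0) w14060 = true := by decide +kernel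
theorem cw14061 : wchk (nat_lit 5) [w1599] [] (nat_lit 1) (nat_lit 1) (nat_lit 4) (nat_lit 2) (nat_lit 301) (nat_lit 6466560) w14061 = true := by decide +kernel
theorem cw14062 : wchk (nat_lit 5) [w16, w2936] [] (nat_lit 17) (nat_lit 0) (nat_lit 4) (nat_lit 2) (nat_lit 13742080) (nat_lit 22644740) w14062 = true := by decide +kernel
theorem cw14063 : wchk (nat_lit 5) [w16, w9025] [] (nat_lit 0) (nat_lit 1) (nat_lit 1) (nat_lit 2) (nat_lit 21712896) (nat_lit 123938820) w14063 = true := by decide +kernel
theorem cw14064 : wchk (nat_lit 5) [w971] [] (nat_lit 1) (nat_lit 2) (nat_lit 4) (nat_lit 2) (nat_lit 21784576) (nat_lit 205) w14064 = true := by decide +kernel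
theorem cw14065 : wchk (nat_lit 5) [w401] [] (nat_lit 17) (nat_lit 2) (nat_lit 3) (nat_lit 2) (nat_lit 23153664) (nat_lit 209) w14065 = true := by decide +kernel
theorem cl3150 : lchk (nat_lit 5) [w14054, w267, w7719, w959, w766, w6719, w216, w16, w6797, w5841, w14065, w638, w14064, w149, w6749, w261, w12365] (nat_lit 19612672) (.nod (nat_lit 5043304067323601124023239703560040297493232510113022767984541632229405226947139031064) .nil (.nod (nat_lit 5259106247203544267734107526296028865200437939027228916957857500744217178794412498984) .nil (.opn (nat_lit 144414144773064918516290761361707644421092243706398599538278524367258141090626810578944)) .dup) (.dwn (nat_lit 19095643044474659301632060060058227494989896057933100461623324244021569946307005800488) (nat_lit 86721536))) (.nod (nat_lit 14786793307718582042654162187078900082455040024) (.nod (nat_lit 3042904804771647538444175400) .nil .nil .nil) .nil (.nod (nat_lit 1035446849282792389471580933426812172234620490839048298321579868762) .nil (.opn (nat_lit 7775163550479016828137404430018895719179016582558444963702578110504)) .dup)) (.nod (nat_lit 5043308699007170616671056646399440644993706137394060239622664919588256556239226755129)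 .nil (.nod (nat_lit 5378625915377588145085577224762759575078045142107963460839712136069384197642937198656) .nil (.dwn (nat_lit 5391910510191606957554132676730836321386080504493115886969944520019379419382464030792) (nat_lit 623592448)) (.dwn (nat_lit 5391910510191606957554132676730836321386080504493115886969944520019379419382464030792) (nat_lit 623592448))) (.nod (nat_lit 5244172773038786071899839744910371416276476231697881004184052991747743603696641402984) (.dwn (nat_lit 19598629985070852376706689590807474321514067079043387694000443375825065615157617920112) (nat_lit 623592448)) .nil .nil)) .nil l3150 = true := by decide +kernel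
theorem cw14066 : wchk (nat_lit 5) [] [l3150] (nat_lit 1) (nat_lit 3) (nat_lit 1) (nat_lit 0) (nat_lit 5820672) (nat_lit 0) w14066 = true := by decide +kernel
theorem cw14067 : wchk (nat_lit 5) [w16, w9025] [] (nat_lit 0) (nat_lit 1) (nat_lit 1) (nat_lit 2) (nat_lit 13455360) (nat_lit 123938820) w14067 = true := by decide +kernel
theorem cw14068 : wchk (nat_lit 5) [w162] [] (nat_lit 1) (nat_lit 2) (nat_lit 3) (nat_lit 2) (nat_lit 88821760) (nat_lit 209) w14068 = true := by decide +kernel
theorem cw14069 : wchk (nat_lit 5) [w162] [] (nat_lit 1) (nat_lit 2) (nat_lit 3) (nat_lit 2) (nat_lit 78327808) (nat_lit 209) w14069 = true := by decide +kernel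
theorem cw14070 : wchk (nat_lit 5) [w114] [] (nat_lit 1) (nat_lit 2) (nat_lit 4) (nat_lit 2) (nat_lit 72586240) (nat_lit 205) w14070 = true := by decide +kernel
theorem cl3151 : lchk (nat_lit 5) [w12634, w2628, w7541, w638, w230, w2740, w149, w4531, w2743, w13422, w8331, w8631, w8380, w4162, w1255, w497, w2548, w11384, w164, w12280, w42, w4260, w10148, w8336, w2534, w7573, w2831, w13893, w2538, w2629] (nat_lit 7034660864) (.nod (nat_lit 33024264559365384787768053777) (.nod (nat_lit 1550194004967660195682952775463086443182489498192945575572459749786) (.nod (nat_lit 28675713589901295411393977659059174932997178182422397697531171421867528690747436617792) .nil (.dwn (nat_lit 207399595384623919374728376257873288498712999759061017344574884176951306190573831149664) (nat_lit 894199808)) .dup) (.nod (nat_lit 5828018140094021714934984104433169238912660211867850928679808777509065540376262082627) .nil (.nod (nat_lit 5152875805527088693428656455254061490920784327684075966938562049524879005072294963320) .nil (.nod (nat_lit 48401093301198169687052671733631600189922873166092615241579458629741776260301186) (.dwn (nat_lit 145262419092083218993410640729035561384384620762219235839331042295172271212092851703952)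 (nat_lit 625764352)) .nil .nil) (.nod (nat_lit 48401093301198169687052671733631600189922873166092615241579458629741776260301186) (.dwn (nat_lit 145262419092083218993410640729035561384384620762219235839331042295172271212092851703952) (nat_lit 625764352)) .nil .nil)) .nil) (.nod (nat_lit 36446389158804211695499643465101968409347507938447394766568462510715011560055803400256) (.dwn (nat_lit 269369133448387116759669854181679793423269715497296641223268557843304639431104968171736) (nat_lit 1162635264)) .nil .nil)) .nil (.nod (nat_lit 11658825426335217909349217031143390163440987171121271109042839748954) .nil (.opn (nat_lit 92105806334610392878552623518906030333024240274901345617122390757376)) .dup)) .nil .nil .nil l3151 = true := by decide +kernel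
theorem cw14071 : wchk (nat_lit 5) [] [l3151] (nat_lit 209) (nat_lit 3) (nat_lit 3) (nat_lit 0) (nat_lit 1230557440) (nat_lit 0) w14071 = true := by decide +kernel
theorem cw14072 : wchk (nat_lit 5) [] [l3151] (nat_lit 209) (nat_lit 3) (nat_lit 3) (nat_lit 0) (nat_lit 1230557440) (nat_lit 0) w14072 = true := by decide +kernel
theorem cw14073 : wchk (nat_lit 5) [w1889] [] (nat_lit 1) (nat_lit 2) (nat_lit 3) (nat_lit 2) (nat_lit 88886272) (nat_lit 209) w14073 = true := by decide +kernel
theorem cw14074 : wchk (nat_lit 5) [] [l3151] (nat_lit 209) (nat_lit 3) (nat_lit 3) (nat_lit 0) (nat_lit 1230557440) (nat_lit 0) w14074 = true := by decide +kernel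
theorem cw14075 : wchk (nat_lit 5) [] [l3151] (nat_lit 209) (nat_lit 3) (nat_lit 3) (nat_lit 0) (nat_lit 1230557440) (nat_lit 0) w14075 = true := by decide +kernel
theorem cw14076 : wchk (nat_lit 5) [w2489] [] (nat_lit 2) (nat_lit 1) (nat_lit 3) (nat_lit 2) (nat_lit 88836096) (nat_lit 209) w14076 = true := by decide +kernel
theorem cw14077 : wchk (nat_lit 5) [w539] [] (nat_lit 1) (nat_lit 2) (nat_lit 4) (nat_lit 2) (nat_lit 22114304) (nat_lit 205) w14077 = true := by decide +kernel
theorem cw14078 : wchk (nat_lit 5) [] [l3094] (nat_lit 0) (nat_lit 3) (nat_lit 3) (nat_lit 0) (nat_lit 2304768) (nat_lit 0) w14078 = true := by decide +kernel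
theorem cw14079 : wchk (nat_lit 5) [] [l3093] (nat_lit 209) (nat_lit 3) (nat_lit 0) (nat_lit 0) (nat_lit 1227041536) (nat_lit 0) w14079 = true := by decide +kernel
theorem cw14080 : wchk (nat_lit 5) [w216] [] (nat_lit 3) (nat_lit 0) (nat_lit 0) (nat_lit 2) (nat_lit 337) (nat_lit 21777408) w14080 = true := by decide +kernel
theorem cw14081 : wchk (nat_lit 5) [w2753] [] (nat_lit 17) (nat_lit 2) (nat_lit 3) (nat_lit 2) (nat_lit 625707008) (nat_lit 209) w14081 = true := by decide +kernel
theorem cw14082 : wchk (nat_lit 5) [w260] [] (nat_lit 17) (nat_lit 2) (nat_lit 3) (nat_lit 2) (nat_lit 627133440) (nat_lit 209) w14082 = true := by decide +kernel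
theorem cl3152 : lchk (nat_lit 5) [w13622, w257, w13616, w83, w401, w12, w6645, w766, w14076, w1326, w6797, w14065, w216, w4166, w2740, w13681, w14080, w13623, w1354, w14081, w14082, w1353, w5606, w14077, w13643, w5157, w14078, w14079, w13754, w13745, w2007] (nat_lit 579644416) (.nod (nat_lit 801593542288921720562145297) (.nod (nat_lit 15401460659794384630584699727151983269865587098) (.nod (nat_lit 5043306846333742819611929869263680506048609992029815229899659267402469428494588991536) .nil (.dwn (nat_lit 5259109026213685962579916812541356554572959529344731614982682644948147704955017652304) (nat_lit 7338148908)) .dup) (.nod (nat_lit 5043314257027454007848436977806721062013283094353324190392077005703738258809556263024) .nil (.nod (nat_lit 5378628694387729840674267390466399783587833620587595436215729724013255643658604275792) .nil .nil (.nod (nat_lit 9096733732652449647606518851077578844356987078336845915624247696026893422758771727833224) (.dwn (nat_lit 20584670952853569967516307453768607299752433181961161095366731125741554606827602745512) (nat_lit 90391596)) .nil .nil)) (.nod (nat_lit 36458024874267491123666220858363986839030557763353396389821744271791787390530412173488)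 (.dwn (nat_lit 142007173687752112870276770049333341578219982930909323112947343258399280265483211278560) (nat_lit 613198848)) .nil .nil)) .nil) .nil (.nod (nat_lit 286537792835511683783892938708885809202678285560210182897362010458) .nil (.opn (nat_lit 11068216439229656932789118372288133267006399037855061921286770481152)) .dup)) .nil .nil .nil l3152 = true := by decide +kernel
theorem cw14083 : wchk (nat_lit 5) [] [l3152] (nat_lit 17) (nat_lit 3) (nat_lit 1) (nat_lit 0) (nat_lit 156815616) (nat_lit 0) w14083 = true := by decide +kernel
theorem cw14084 : wchk (nat_lit 5) [w112] [] (nat_lit 1) (nat_lit 2) (nat_lit 3) (nat_lit 2) (nat_lit 88836096) (nat_lit 209) w14084 = true := by decide +kernel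
theorem cw14085 : wchk (nat_lit 5) [] [l3121] (nat_lit 17) (nat_lit 2) (nat_lit 2) (nat_lit 0) (nat_lit 156672256) (nat_lit 0) w14085 = true := by decide +kernel
theorem cw14086 : wchk (nat_lit 5) [] [l1343] (nat_lit 17) (nat_lit 1) (nat_lit 1) (nat_lit 0) (nat_lit 156813824) (nat_lit 0) w14086 = true := by decide +kernel
theorem cw14087 : wchk (nat_lit 5) [w7392] [] (nat_lit 1) (nat_lit 2) (nat_lit 3) (nat_lit 2) (nat_lit 90384384) (nat_lit 209) w14087 = true := by decide +kernel
theorem cw14088 : wchk (nat_lit 5) [w7392] [] (nat_lit 1) (nat_lit 2) (nat_lit 3) (nat_lit 2) (nat_lit 90269696) (nat_lit 209) w14088 = true := by decide +kernel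
theorem cw14089 : wchk (nat_lit 5) [] [l3019] (nat_lit 0) (nat_lit 0) (nat_lit 1) (nat_lit 1) (nat_lit 29036800) (nat_lit 0) w14089 = true := by decide +kernel
theorem cl3153 : lchk (nat_lit 5) [w12280, w14089, w6178, w154, w183, w14084, w4606, w722, w13213, w13214, w13215, w14007, w4162, w1255, w5448, w12976, w461, w1394, w1395, w13208, w13209, w13210, w14085, w927, w14086, w14042, w7392, w14087, w7340, w14088, w13014, w13207, w13211, w13212] (nat_lit 7035693056) (.nod (nat_lit 858979739788753650942404625) (.nod (nat_lit 1541465117511245360506208837377489247925588891530717444891102675354) (.nod (nat_lit 28703933511553500216010887115575686548527787031341349047239052806261972447968510658616) .nil (.dwn (nat_lit 207323234670287121887321714646808692791516473365366085591858939664737038799940945086552) (nat_lit 895232000)) .dup) (.nod (nat_lit 7873251400218282775789116110296635080848128770028384044151946084443) .nil (.nod (nat_lit 820900328911579832616700008) .nil (.nod (nat_lit 18966171740983203519110753209473196353409689824307498170744491960304674168500217971098) .nil (.dwn (nat_lit 145264077234801097353462333687999358086573172242014953536615577876388203979368119568528)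 (nat_lit 626796544)) .dup) (.dwn (nat_lit 5285680068515151384283858489380225826211389958871035183096903704394006547662628716954) (nat_lit 89932884))) .nil) (.nod (nat_lit 36474624828180552775125610856453612766351667820577255107771274951742945820273647440080) (.dwn (nat_lit 269594896526951610790747861674444348289281887883961342283413489101882801906735719811320) (nat_lit 1163667456)) .nil .nil)) .nil (.nod (nat_lit 286537943485953333017534912285460555594765947057197799925698527578) .nil (.opn (nat_lit 92118764682999297376135296374692423182879975776132116342752704745472)) .dup)) .nil .nil .nil l3153 = true := by decide +kernel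
theorem cw14090 : wchk (nat_lit 5) [] [l3153] (nat_lit 209) (nat_lit 3) (nat_lit 0) (nat_lit 0) (nat_lit 1230557440) (nat_lit 0) w14090 = true := by decide +kernel
theorem cl3154 : lchk (nat_lit 5) [w12517, w7082, w12628, w337, w2839, w12203, w9025, w4400, w2936, w1265, w7424, w2051, w8419, w14062, w12491, w14063, w14066, w14067, w16, w4162, w14068, w8449, w14069, w14083, w10822, w14090, w12634, w14070, w11320, w14071, w284, w14072, w14073, w14074, w14075, w12522, w6719, w8314, w14043, w14048, w14050, w14051, w14052, w8417, w14055, w14056, w13180, w13181, w13644, w14057, w14060, w14061] (nat_lit 55339008) (.nod (nat_lit 835443465238131337477672977) (.nod (nat_lit 1555323351204934892573394312938504109635289541949239606095917351322) (.nod (nat_lit 5244167215018502681986116623694415438041911041206598348372945676484561818539751837760) .nil (.nod (nat_lit 1139671504233669296618038799213485896245223896662892774866996453227862248205683079415904) (.dwn (nat_lit 1139910547275364239969754126851949776008477025138857496995196900060196851223903370381448) (nat_lit 4920731648)) .nil .nil) .dup) (.nod (nat_lit 5375319009101059639733727212737876414560902489716740212447829148369304563237275392145)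 .nil (.nod (nat_lit 5391920699895459841379329950977517085906126188667333647840509606304849579681702643888) .nil (.nod (nat_lit 5390258851830725879342610860200672423786538304276780323153199775559810327197542469776) (.dwn (nat_lit 5375324451329257729748655630886599701641235446283764953827837393534030964708301166784) (nat_lit 39280470016)) .nil .nil) .dup) (.nod (nat_lit 5363706336263538428229937908838868294209992736402768531048685382543065186091779311840) (.dwn (nat_lit 9097082344653337936832360390019490193547437812987222032818415455546098409259194382715144) (nat_lit 39281968264)) .nil .nil)) (.nod (nat_lit 5044995558163179839198667335573176971858770911736359007869410756330265563754721085752) (.dwn (nat_lit 1139910572286455515236811133968794179899805238812622085806219250385213537785503869733216) (nat_lit 627262644)) .nil .nil)) .nil (.nod (nat_lit 1129036979869805189955508877691233296520121169648073053699936616794) .nil (.dwn (nat_lit 7711363841692754851260869511225018620026471577573222594951321651608) (nat_lit 88893440)) .dup)) .nil .nil .nil l3154 = true := by decide +kernel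
theorem cw14091 : wchk (nat_lit 5) [] [l3154] (nat_lit 0) (nat_lit 2) (nat_lit 1) (nat_lit 0) (nat_lit 5820672) (nat_lit 0) w14091 = true := by decide +kernel
theorem cw14092 : wchk (nat_lit 5) [w80, w1599] [] (nat_lit 1) (nat_lit 1) (nat_lit 4) (nat_lit 2) (nat_lit 80521216) (nat_lit 6466564) w14092 = true := by decide +kernel
theorem cw14093 : wchk (nat_lit 5) [] [l1886] (nat_lit 1) (nat_lit 0) (nat_lit 4) (nat_lit 0) (nat_lit 1399808) (nat_lit 0) w14093 = true := by decide +kernel
theorem cw14094 : wchk (nat_lit 5) [w80, w337] [] (nat_lit 1) (nat_lit 1) (nat_lit 1) (nat_lit 2) (nat_lit 80564224) (nat_lit 123888644) w14094 = true := by decide +kernel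
theorem cl3155 : lchk (nat_lit 5) [w6719, w230, w220, w267, w16, w1326, w6797, w5841, w13622, w11265, w638, w13189, w149, w3766] (nat_lit 15347712) .nil (.nod (nat_lit 12562291251906217016128242428325278233415292952) (.nod (nat_lit 3023863485242954180559456256) .nil .nil .nil) .nil (.nod (nat_lit 1028967424004270725213013938490744142162576598176119790083816555098) (.opn (nat_lit 143426447515237750354569791569627627706152518240515404988955618171530994529161901793280)) .dup .dup)) (.nod (nat_lit 5375306040387065052446588021051575484071984038377614880227850974205738418281026770977) .nil (.nod (nat_lit 20055120380649622657645240460913740427441649382098146307296196107136355023237062250536) .nil (.dwn (nat_lit 5391908657518179160495005899595076182781070007452362878501630658611183133941764106296) (nat_lit 622144548)) (.dwn (nat_lit 5391908657518179160495005899595076182781070007452362878501630658611183133941764106296) (nat_lit 622144548))) (.dwn (nat_lit 5244171846702072173364517040175053242532224902712737566630130325685371994828189618256) (nat_lit 85273636))) (.nod (nat_lit 5043305919997028921082366480695800436499445949277739054142893195971432264272153935872) .nil (.dwn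 (nat_lit 19095638412791089808984242866134757732006351360090842230859609593798340316439047569408) (nat_lit 81961984)) .dup) l3155 = true := by decide +kernel
theorem cw14095 : wchk (nat_lit 5) [] [l3155] (nat_lit 1) (nat_lit 1) (nat_lit 1) (nat_lit 0) (nat_lit 5820672) (nat_lit 0) w14095 = true := by decide +kernel
theorem cw14096 : wchk (nat_lit 5) [] [l3155] (nat_lit 1) (nat_lit 3) (nat_lit 1) (nat_lit 0) (nat_lit 4903168) (nat_lit 0) w14096 = true := by decide +kernel
theorem cw14097 : wchk (nat_lit 5) [] [l2848] (nat_lit 17) (nat_lit 2) (nat_lit 1) (nat_lit 0) (nat_lit 156652544) (nat_lit 0) w14097 = true := by decide +kernel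
theorem cw14098 : wchk (nat_lit 5) [w105] [] (nat_lit 1) (nat_lit 2) (nat_lit 3) (nat_lit 2) (nat_lit 7047168) (nat_lit 209) w14098 = true := by decide +kernel
theorem cl3156 : lchk (nat_lit 5) [w11320, w13556, w8380, w153, w4531, w2726, w8332, w3958, w6744, w11670, w497, w8342, w2740, w149, w14097, w14098, w11319, w7359, w13893] (nat_lit 7035184128) (.nod (nat_lit 33021355581611937086312044561) (.nod (nat_lit 1334131543288773399183057760042241542903265506320072403412888584602) (.nod (nat_lit 27840735908074294427613210353387586720352916707163194474018325990571485210231707985952) .nil (.dwn (nat_lit 207323228185930124586668051708603767460268679388785474580279911990570026317347663583248) (nat_lit 894708764)) .dup) (.nod (nat_lit 5828017213757307816398761313525810498240320941365734897424716264813335693145019514880) .nil (.nod (nat_lit 4528712906712401169206129583366870400938306280822039045914223123196577711837916692480) .nil (.dwn (nat_lit 47474756587299640123664103853562095448961834303982784794037058879468700383273048) (nat_lit 89416704)) (.dwn (nat_lit 47474756587299640123664103853562095448961834303982784794037058879468700383273048) (nat_lit 89416704))) .nil) (.nod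 (nat_lit 35596478002812452516463260641331091408980862449112558608590959095418143822762360604792) (.dwn (nat_lit 269369126964030119469968579387607081472782050190396232284767163426513235326558295992464) (nat_lit 1163144220)) .nil .nil)) .nil (.nod (nat_lit 623537900873170996838005353732937572105546891610) (.opn (nat_lit 1699173416820779293275606290274540903513823166124263364172971937251234694208525750028288)) .nil (.dwn (nat_lit 1699173416820779293275606290274540903513823166124263364172971937251234694208525750028288) (nat_lit 7337174016)))) .nil .nil .nil l3156 = true := by decide +kernel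
theorem cw14099 : wchk (nat_lit 5) [] [l3156] (nat_lit 209) (nat_lit 3) (nat_lit 4) (nat_lit 0) (nat_lit 1230557440) (nat_lit 0) w14099 = true := by decide +kernel
theorem cw14100 : wchk (nat_lit 5) [w80] [] (nat_lit 1) (nat_lit 2) (nat_lit 4) (nat_lit 2) (nat_lit 80850944) (nat_lit 205) w14100 = true := by decide +kernel
theorem cw14101 : wchk (nat_lit 5) [w220] [] (nat_lit 0) (nat_lit 1) (nat_lit 4) (nat_lit 2) (nat_lit 5599232) (nat_lit 205) w14101 = true := by decide +kernel
theorem cl3157 : lchk (nat_lit 5) [w6719, w3766, w7719, w16, w6794, w1326, w6797, w5841, w13622, w14101, w149, w14100, w6749, w261, w12365] (nat_lit 15369216) (.nod (nat_lit 5162823735497645002409886285718127886476114962125019633061557434781701096056444639240) .nil (.dwn (nat_lit 19095638412791089808984242866134757732006351360090842230856567483089007553949711228928) (nat_lit 82478080)) .dup) (.nod (nat_lit 14786793307718582042616081023761039263474604040) (.nod (nat_lit 3042904066901884590062110720) .nil .nil .nil) .nil (.nod (nat_lit 1035446598198722973948218693820951534561206732326394276317621125722) (.opn (nat_lit 143426447515237750354569791569627627705731025793483726762596915020283588253563307188224))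 .nil .dup)) (.nod (nat_lit 5375305114050351153917024632483695414568721212217737555103624796341017089182163884057) .nil (.nod (nat_lit 3433111316766762791347385637411667154412236339912681157088546657117460885105547700272) .nil (.dwn (nat_lit 5391908657518179160495005899595076182781030981148265449911132971104205999309128640568) (nat_lit 627262500)) (.dwn (nat_lit 5391908657518179160495005899595076182781030981148265449911132971104205999309128640568) (nat_lit 627262500))) (.nod (nat_lit 5152872100180233099602699055866027222095620977342524021464356146175205350220333738064) (.dwn (nat_lit 19598628132397424579647562713238086416320649199906484401693740671156892753035347265632) (nat_lit 627262500)) .nil .nil)) .nil l3157 = true := by decide +kernel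
theorem cw14102 : wchk (nat_lit 5) [] [l3157] (nat_lit 1) (nat_lit 3) (nat_lit 1) (nat_lit 0) (nat_lit 5820672) (nat_lit 0) w14102 = true := by decide +kernel
theorem cw14103 : wchk (nat_lit 5) [] [l18] (nat_lit 1) (nat_lit 3) (nat_lit 2) (nat_lit 0) (nat_lit 21261056) (nat_lit 0) w14103 = true := by decide +kernel
theorem cw14104 : wchk (nat_lit 5) [] [l412] (nat_lit 17) (nat_lit 2) (nat_lit 4) (nat_lit 0) (nat_lit 154686720) (nat_lit 0) w14104 = true := by decide +kernel
theorem cw14105 : wchk (nat_lit 5) [] [l409] (nat_lit 0) (nat_lit 0) (nat_lit 4) (nat_lit 1) (nat_lit 4365568) (nat_lit 0) w14105 = true := by decide +kernel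
theorem cw14106 : wchk (nat_lit 5) [] [l409] (nat_lit 0) (nat_lit 0) (nat_lit 4) (nat_lit 1) (nat_lit 4365568) (nat_lit 0) w14106 = true := by decide +kernel
theorem cw14107 : wchk (nat_lit 5) [] [l164] (nat_lit 17) (nat_lit 2) (nat_lit 4) (nat_lit 0) (nat_lit 156672256) (nat_lit 0) w14107 = true := by decide +kernel
theorem cl3158 : lchk (nat_lit 5) [w3383, w1246, w9070, w13, w14103, w14104, w2082, w1473, w4146, w10664, w4150, w7408, w5529, w14105, w14106, w14107] (nat_lit 53045248) (.nod (nat_lit 834914560192049937198370833) (.nod (nat_lit 120800240256933154537208724661088341196947) (.nod (nat_lit 61429501510991769791802778076588550915805841440) .nil .nil (.dwn (nat_lit 61794674188019999742222757450554845669650145039282346250420185202706) (nat_lit 4922229780))) (.nod (nat_lit 5244168141355216578959726596970671176478828035914221637877129955505250864491990614610) .nil (.nod (nat_lit 144385924851412713703842985554779550105039372950635689041812064525502879613932700618752) .nil (.opn (nat_lit 1139032397670985998014607481848421230309298989917495647201328005375909472606313501609984)) .dup) .nil) .nil) .nil (.nod (nat_lit 1133264532563367295194384451679459980420893902710503909602566865242)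 (.opn (nat_lit 1202047729125925223745713274361239532923415668712214987644644601875352869975777858619488)) .nil (.dwn (nat_lit 1202047729125925223738145457592005039310588000238827729577882632623562035475128521230456) (nat_lit 86599680)))) .nil .nil .nil l3158 = true := by decide +kernel
theorem cw14108 : wchk (nat_lit 5) [] [l3158] (nat_lit 145) (nat_lit 2) (nat_lit 0) (nat_lit 0) (nat_lit 1230557440) (nat_lit 0) w14108 = true := by decide +kernel
theorem cw14109 : wchk (nat_lit 5) [w267] [] (nat_lit 0) (nat_lit 1) (nat_lit 3) (nat_lit 2) (nat_lit 23153664) (nat_lit 209) w14109 = true := by decide +kernel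
theorem cl3159 : lchk (nat_lit 5) [w6719, w7719, w3766, w16, w6798, w1326, w6797, w5841, w13622, w14109, w149, w14108, w6749, w261, w12365] (nat_lit 585773056) (.nod (nat_lit 3042904085348628663771662337) (.nod (nat_lit 14786790925742013595230706078268393897601488913) (.nod (nat_lit 5162824661834358900939449674286007955979377785562638022818562042735376299907336067088) .nil (.dwn (nat_lit 19095638412791089808984242866134757732006351360090842230856567483089007553949711228928) (nat_lit 82478080)) (.dwn (nat_lit 19095638412791089808984242866134757732006351360090842230856567483089007553949711228928) (nat_lit 82478080))) (.nod (nat_lit 5375305114050351153917024632483695414568721212217737555103624796341017089182163884057) .nil (.nod (nat_lit 5375305924594975815130392597480590475384076185107630214590053448592268758131751020592) .nil (.dwn (nat_lit 5391908657518179160495005899595076182781030981148265449911132971104205999309128640568) (nat_lit 627262500)) (.dwn (nat_lit 5391908657518179160495005899595076182781030981148265449911132971104205999309128640568) (nat_lit 627262500))) (.nod (nat_lit 5152872100180233161105077390303424253679749144606056495699091860095886322737919502416)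 (.dwn (nat_lit 19598628132397424579647562713238086416320649199906484401693740671156892753035322105952) (nat_lit 627262500)) .nil .nil)) .nil) .nil (.nod (nat_lit 1456695764872951720818858440201917654462938254070720704726012264794) (.opn (nat_lit 205591852066461080627362565921374062693225601680727686367970869788745139746436166213632)) .nil (.dwn (nat_lit 205591852066461080627362565921374062693225601680727686367970869788745139746436166213632) (nat_lit 887762944)))) .nil .nil .nil l3159 = true := by decide +kernel
theorem cw14110 : wchk (nat_lit 5) [] [l3159] (nat_lit 17) (nat_lit 3) (nat_lit 1) (nat_lit 0) (nat_lit 156815616) (nat_lit 0) w14110 = true := by decide +kernel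
theorem cw14111 : wchk (nat_lit 5) [w80] [] (nat_lit 1) (nat_lit 2) (nat_lit 4) (nat_lit 2) (nat_lit 80850944) (nat_lit 205) w14111 = true := by decide +kernel
theorem cl3160 : lchk (nat_lit 5) [w6719, w267, w7719, w3766, w16, w6793, w1326, w6797, w5841, w13622, w11298, w149, w14111] (nat_lit 15369216) (.nod (nat_lit 5043304067323601124023239703560040297493232510113022767984541632229405226947139819544) .nil (.dwn (nat_lit 19095638412791089808984242866134757732006351360090842230856567483089007553949711228928) (nat_lit 82478080)) .dup) (.nod (nat_lit 14786793307718582042654162187078900082477848600) (.nod (nat_lit 3042904066901884590062110720) .nil .nil .nil) .nil (.nod (nat_lit 1035446598198722974004350366383940567090425308209846222489470894080) (.opn (nat_lit 143426447515237750354569791569627627706152518240515404988955618171530994529160663138304)) .nil .dup)) (.nod (nat_lit 5375306040387065052446588021051575484071984038377614880228137112149263105076877416481) .nil (.nod (nat_lit 5375306850931689713659955986048470544887339011267507539714565764400514774026464553016) .nil (.dwn (nat_lit 5391909583854893059024569288162956252284293810030401710403152994619448874657987864640)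 (nat_lit 7068724264)) (.dwn (nat_lit 5391909583854893059024569288162956252284293810030401710403152994619448874657987864640) (nat_lit 7068724264))) (.dwn (nat_lit 5152873026516946998132262494650721174692329914188716732250199790802294921827323373656) (nat_lit 894708776))) .nil l3160 = true := by decide +kernel
theorem cw14112 : wchk (nat_lit 5) [] [l3160] (nat_lit 1) (nat_lit 3) (nat_lit 1) (nat_lit 0) (nat_lit 5820672) (nat_lit 0) w14112 = true := by decide +kernel
theorem cl3161 : lchk (nat_lit 5) [w12634, w13213, w13637, w638, w230, w2740, w149, w1572, w2743, w13422, w8331, w8631, w8380, w937, w724, w497, w2548, w11384, w11263, w1588, w10148, w8336, w7276, w13634, w13635, w13893, w2538, w2629] (nat_lit 7034660864) (.nod (nat_lit 33021355581611937084557666321) (.nod (nat_lit 1550194004967660195682952775463086443182489498192945575572459749786) (.nod (nat_lit 28675713589901295411393977659059174933336956517656934996207448663416775248220336607296) .nil (.dwn (nat_lit 207399595384623919374728376257873288498712999759061017344574884176951306190573831149664) (nat_lit 894199808)) (.dwn (nat_lit 207399595384623919374728376257873288498712999759061017344574884176951306190573831149664)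 (nat_lit 894199808))) (.nod (nat_lit 5828018140094021714929314827013023521220548169606071307018110445346999847253318828099) .nil (.nod (nat_lit 5152875805527088693428656455254061490920784327684075966938562049524879005072294963320) .nil (.dwn (nat_lit 48401093301198169687052671733631600189922873166092615241579458629741776260301186) (nat_lit 89402440)) (.dwn (nat_lit 48401093301198169687052671733631600189922873166092615241579458629741776260301186) (nat_lit 89402440))) .nil) (.nod (nat_lit 36446389158804211695499643465101968409348093327564338324690912407610526955457691177024) (.dwn (nat_lit 269369131595713688962598398875434850544683359247181841853402112418417781171655550607560) (nat_lit 1162635264)) .nil .nil)) .nil (.nod (nat_lit 11658825325901590143162324804326241521383309098069590278709996159322) (.opn (nat_lit 1699052237157213943324347857713352124248552500831306655776605523042419418664142278021120)) .dup .dup)) .nil .nil .nil l3161 = true := by decide +kernel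
theorem cw14113 : wchk (nat_lit 5) [] [l3161] (nat_lit 209) (nat_lit 3) (nat_lit 3) (nat_lit 0) (nat_lit 1230557440) (nat_lit 0) w14113 = true := by decide +kernel
theorem cl3162 : lchk (nat_lit 5) [w2548, w13423, w7528, w168, w241, w112, w1379, w1572, w2674, w965, w13202, w2305, w8273, w937, w724, w497, w11263, w7316, w10536, w13199, w11228, w13200, w7313, w11950, w13015, w13201, w8754, w3182] (nat_lit 7026152448) (.nod (nat_lit 32989885731370093770596620305) (.nod (nat_lit 1548844177010482643851497527305519866596370847678168029590806593946) (.nod (nat_lit 28597693806509905657256363233313773765016344288546360885110738519551022279367027124288) .nil (.dwn (nat_lit 1139671504233669296628985608269595697944708994539898399517020091780648280059745419216992) (nat_lit 885691392)) (.dwn (nat_lit 1139671504233669296628985608269595697944708994539898399517020091780648280059745419216992) (nat_lit 885691392))) (.nod (nat_lit 5828025550787732903165821935556064077246650778885089908014208970632376353693615784067) .nil (.nod (nat_lit 5152875805527088693428656455254061490920784327684075966938562049524879005072294963320) .nil .nil (.dwn (nat_lit 3885341721382492210589568215060528108673680689283757674286100528601007281809058168834)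 (nat_lit 89402432))) .nil) (.nod (nat_lit 36474620196496983282276128763126050162306857072924386650868727705118371026167913814176) (.dwn (nat_lit 269488651263887732841004572968706773383493520251161203990169601388594634611496029038792) (nat_lit 1154126848)) .nil .nil)) .nil (.nod (nat_lit 284287928923107448688646145756147385157822370187469663690979017050) (.opn (nat_lit 1697081822627733525495838965035706779978580309019536316398330567797835562798943164508160)) .dup .dup)) .nil .nil .nil l3162 = true := by decide +kernel
theorem cw14114 : wchk (nat_lit 5) [] [l3162] (nat_lit 209) (nat_lit 3) (nat_lit 3) (nat_lit 0) (nat_lit 1230557440) (nat_lit 0) w14114 = true := by decide +kernel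
theorem cl3163 : lchk (nat_lit 5) [w8128, w14089, w11290, w154, w183, w113, w8073, w722, w13213, w13214, w13215, w14007, w12280, w937, w724, w8126, w2548, w13208, w13209, w13210, w14085, w927, w11313, w13569, w7392, w13205, w7340, w13206, w13014, w13207, w13211, w13212] (nat_lit 7034990592) (.nod (nat_lit 858979739788753650965485585) (.nod (nat_lit 1541465117511245360506208837377489247925588891530717444891102675354) (.nod (nat_lit 28343714511640062415873355055460339231390406033213734386385525274029155541593087068216) .nil (.dwn (nat_lit 207323234670287121887321714646808692791516473365366085591858939664737038799940945086552) (nat_lit 895232048)) .dup) (.nod (nat_lit 7867582173014950941190450178721170844847761766685161906741278933083) .nil (.nod (nat_lit 820900476485532422293112944) .nil (.nod (nat_lit 5121336819428985457383965884641335113387103028570993879467364626212997599712203768218) .nil (.dwn (nat_lit 144993483164630770085641772347416495349461789632611847905991088588504524673736218173440) (nat_lit 626094080)) .dup) (.dwn (nat_lit 5285678215841723587224731712244465687204864301106762662112863657658668702144263094682) (nat_lit 89932876))) .nil) (.nod (nat_lit 36474622975507124978066483978884224861157576737694671172283146148793552851791924056256)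 (.dwn (nat_lit 269488654969234588435122826723845549193881151170380995682314346406001215639455205591272) (nat_lit 1163667504)) .nil .nil)) .nil (.nod (nat_lit 286537843052325566830642685468311913537087874005516969592854937946) (.opn (nat_lit 1699128596945214026913321243613244024700463807337912751489664198645832103895649573068800)) .dup .dup)) .nil .nil .nil l3163 = true := by decide +kernel
theorem cw14115 : wchk (nat_lit 5) [] [l3163] (nat_lit 209) (nat_lit 3) (nat_lit 0) (nat_lit 0) (nat_lit 1230557440) (nat_lit 0) w14115 = true := by decide +kernel
theorem cl3164 : lchk (nat_lit 5) [w12519, w2861, w13177, w337, w2839, w12203, w1311, w2936, w7424, w2051, w8419, w14067, w12491, w13894, w12620, w16, w937, w13192, w11263, w12531, w14114, w10822, w14115, w284, w12634, w13193, w11320, w14113, w13196, w13195, w13197, w12520, w12522, w6719, w5212, w13186, w13187, w13793, w13188, w12525, w8417, w14095, w14096, w13180, w13181, w12517, w181, w13183, w13185, w14099, w14102, w14110, w14112] (nat_lit 55339008) (.nod (nat_lit 803444709950206621508995089) (.nod (nat_lit 1555323351204934892573394312938504109635289541949239606095917351322) (.nod (nat_lit 5244167215018502681965779065155832007835016107658477216752881356357307689212642005048)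 .nil (.nod (nat_lit 5362023182454384800013169938350839724565352111368121726769006996471606080009459370064) (.dwn (nat_lit 17048874285014441275518927723895651261985993156587309605328079289693273341418489153624) (nat_lit 4920731648)) .nil .nil) (.nod (nat_lit 5362023182454384800013169938350839724565352111368121726769006996471606080009459370064) (.dwn (nat_lit 17048874285014441275518927723895651261985993156587309605328079289693273341418489153624) (nat_lit 4920731648)) .nil .nil)) (.nod (nat_lit 5375316230090917944139367618963648839078663636916382458428599882325970155293363230841) .nil (.nod (nat_lit 1139804311275667501004190485297179507166354925092626518203456941885755912751932396589208) .nil (.nod (nat_lit 5390256072820584183753920694497032215276749817630371541677139705014081701150964797560) (.dwn (nat_lit 5375321672319116034159965314532517843851069655719491294127439803164731725975173552296) (nat_lit 39280470016)) .nil .nil) .dup) (.nod (nat_lit 5363704483590110631165051765318856167869032470571432382709577293002860687527391086800) (.dwn (nat_lit 9097082342800664509035301262890836736226776852341498514235156504030349480285679556004080) (nat_lit 39280470140)) .nil .nil))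 (.nod (nat_lit 5044992779153038143609977019219095114022606295263499960179558802966237184216454957344) (.dwn (nat_lit 20827047880381834126300731316325512455601074940452573299992390851981104839034001590600) (nat_lit 627262632)) .nil .nil)) .nil (.nod (nat_lit 1129036829219363540675170537465510333433604060070551808200671232346) (.opn (nat_lit 20586355959336151399513291678514081296556720642363578159645297624003713229762239957376)) (.dwn (nat_lit 20586355959336151399532099432034530167657651140790152796148902319558314586418794891680) (nat_lit 88893440)) .dup)) .nil .nil .nil l3164 = true := by decide +kernel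
theorem cw14116 : wchk (nat_lit 5) [] [l3164] (nat_lit 0) (nat_lit 2) (nat_lit 1) (nat_lit 0) (nat_lit 5820672) (nat_lit 0) w14116 = true := by decide +kernel
theorem cw14117 : wchk (nat_lit 5) [w831, w337] [] (nat_lit 17) (nat_lit 1) (nat_lit 1) (nat_lit 2) (nat_lit 90391552) (nat_lit 123888644) w14117 = true := by decide +kernel
theorem cl3165 : lchk (nat_lit 5) [w13127, w7424, w8449, w8419, w9025, w2839, w12203, w2936, w13790, w13896, w2051, w14040, w16, w7074, w14020, w14021, w14038, w14039, w12634, w14022, w3958, w14023, w284, w14024, w14025, w14026, w14027, w12522, w6719, w5212, w14032, w14033, w13793, w14034, w14035, w8417, w14036, w14037, w14041, w13801, w7083, w13165, w14091, w14092, w14093, w14094, w13804, w14116, w12520, w3980, w11588, w13805, w6891, w14117, w13807, w13808] (nat_lit 23282688) (.nod (nat_lit 272768147878613663811721687924463113672330014755389546422890569753) (.nod (nat_lit 1555953321135098299854852875487276166405159065401564724332210966585) (.nod (nat_lit 5244168141355216580515679911828667741358759720941297337775899714175013529124166897720) .nil (.dwn (nat_lit 5391910510191606957846338340915704996183052561568190779772547878370148523195295500312)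 (nat_lit 4922229804)) (.dwn (nat_lit 5391910510191606957846338340915704996183052561568190779772547878370148523195295500312) (nat_lit 4922229804))) (.nod (nat_lit 5375313451080776248543208254579851194487817786572602602294545748929599019375108743272) .nil (.nod (nat_lit 1139910548201700953867167703204505278148052143238157550108151882997057014660499188910200) .nil (.dwn (nat_lit 5390253293810442488165230528793392006766961328261703824833571926761356215650241433696) (nat_lit 39281968196)) .dup) (.nod (nat_lit 5363698925569827239993430398561316673436321241633226844761936225526348613235862169760) (.dwn (nat_lit 9097082337242644225644123882509212641926664141470674419650634558693311041971787477190856) (nat_lit 39281968232)) .nil .nil)) (.nod (nat_lit 5044988147469468650962159825295625351039061597421241729412818966257279633720433084664) (.dwn (nat_lit 20827043248698264694318553389441606455055254826732511699561691576288092732245207845152) (nat_lit 4922229908)) .nil .nil)) .nil (.nod (nat_lit 292297510737460852726466214925635280312657981416318663659512957256) (.dwn (nat_lit 145264101319555658723105764552721887604086355097063554217617806344191282706957781731696) (nat_lit 627262652))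 .nil .nil)) .nil (.nod (nat_lit 273490410035592461460450925362865657393185047579083869676758264208) (.nod (nat_lit 61205230930860453040121846993906929062814853536) .nil .nil (.opn (nat_lit 426892839807329869864824829471100348384395299192))) .nil (.dwn (nat_lit 292298263989669099173829834054064005836592170584429510916419652024) (nat_lit 90391740))) .nil l3165 = true := by decide +kernel
theorem cw14118 : wchk (nat_lit 5) [] [l3165] (nat_lit 1745) (nat_lit 1) (nat_lit 1) (nat_lit 0) (nat_lit 9820492032) (nat_lit 0) w14118 = true := by decide +kernel
theorem cw14119 : wchk (nat_lit 5) [w16, w489] [] (nat_lit 17) (nat_lit 0) (nat_lit 2) (nat_lit 2) (nat_lit 22307840) (nat_lit 84585476) w14119 = true := by decide +kernel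
theorem cw14120 : wchk (nat_lit 5) [w489] [] (nat_lit 0) (nat_lit 1) (nat_lit 3) (nat_lit 2) (nat_lit 25165873) (nat_lit 80392192) w14120 = true := by decide +kernel
theorem cl3166 : lchk (nat_lit 5) [w721, w1929, w1919, w126, w1409, w3, w39, w389, w12344, w750, w3230, w14120, w1087, w746, w747, w258, w748, w1572, w281, w263, w762] (nat_lit 23225344) (.nod (nat_lit 23911230615382858239726233617) .nil (.nod (nat_lit 61205100262431555396441082622209049587489964442) (.nod (nat_lit 7855883212101420544159286305605105063095044262643345791730589892608) .nil (.nod (nat_lit 61793954028692102302450523065213520061704473150376786603486138597376) (.nod (nat_lit 26733883157513315008093896671328963152658951358464) .nil .nil (.opn (nat_lit 213806092735868888548306760060839024881141698316288))) .nil (.dwn (nat_lit 493153100703102339040506790654822057532425391834714704017214090299392) (nat_lit 39281910784))) .nil) .nil (.dwn (nat_lit 226424349705965947454884008556463227902993807903285746201783486536) (nat_lit 622158888))) (.nod (nat_lit 5391912362865034754613259453866596460389123064616692906251264898668359304784694477210) (.dwn (nat_lit 145250794492660506345926966410593258552361457660365209331389375666426900006103833430144)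 (nat_lit 627205120)) .nil .nil)) .nil (.nod (nat_lit 284287476971782500215263479347621314580659537783865502548549959770) .nil (.dwn (nat_lit 1134704851219162180985452940058329034607472127577817307437968574624) (nat_lit 90334208)) (.dwn (nat_lit 1134704851219162180985452940058329034607472127577817307437968574624) (nat_lit 90334208))) .nil l3166 = true := by decide +kernel
theorem cw14121 : wchk (nat_lit 5) [] [l3166] (nat_lit 1) (nat_lit 1) (nat_lit 1) (nat_lit 0) (nat_lit 22597888) (nat_lit 0) w14121 = true := by decide +kernel
theorem cw14122 : wchk (nat_lit 5) [w220, w3666] [] (nat_lit 209) (nat_lit 0) (nat_lit 4) (nat_lit 2) (nat_lit 18695168) (nat_lit 618804228) w14122 = true := by decide +kernel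
theorem cw14123 : wchk (nat_lit 5) [w489] [] (nat_lit 1) (nat_lit 2) (nat_lit 3) (nat_lit 2) (nat_lit 193) (nat_lit 80392192) w14123 = true := by decide +kernel
theorem cw14124 : wchk (nat_lit 5) [w1919] [] (nat_lit 1) (nat_lit 0) (nat_lit 4) (nat_lit 2) (nat_lit 655971328) (nat_lit 25165869) w14124 = true := by decide +kernel
theorem cw14125 : wchk (nat_lit 5) [w3666] [] (nat_lit 0) (nat_lit 0) (nat_lit 4) (nat_lit 2) (nat_lit 25165901) (nat_lit 652358656) w14125 = true := by decide +kernel
theorem cl3167 : lchk (nat_lit 5) [w7401, w14119, w15, w14124, w220, w12985, w2532, w12551, w144, w8331, w5875, w11050, w8332, w149, w1747, w2740, w2743, w12982, w7341, w7563, w7359, w497, w14123, w14125] (nat_lit 22250496) (.nod (nat_lit 153034739024445394396512925910346217678854960112862252751253169187492288558264137810010) (.nod (nat_lit 20905035241988237431718608965942822178673055470371736656283219130777252152568109811744) .nil (.dwn (nat_lit 145157827340053649918937820288385256353356160706529364822330854678093018817064415709240) (nat_lit 626230272)) (.dwn (nat_lit 145157827340053649918937820288385256353356160706529364822330854678093018817064415709240) (nat_lit 626230272)))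 (.nod (nat_lit 1120126207113505790316820213826881935098714057774730150039987374112) (.nod (nat_lit 7775163751346272360508378989758178144778774062737782835482841841664) .nil (.nod (nat_lit 61781715588547025832511332034748593481285167399214392029279732891648) (.nod (nat_lit 26733219710343658722055400018167218328686198982656) .nil .nil (.opn (nat_lit 213805429288699232262268263407677280057168945940480))) .nil (.dwn (nat_lit 493140862262957262570567599624357130952006086083552309443007682643968) (nat_lit 39280935936))) .nil) .nil (.dwn (nat_lit 7775163751346272360508378989758178144778796012444769166183493951584) (nat_lit 626230272))) (.nod (nat_lit 20558106394909101835226293333343956711573694026376609118369390881530940921417078327424) (.dwn (nat_lit 145157838456094216701300680521544649095506145848362047357504135597878081703670184593568) (nat_lit 626230272)) .nil .nil)) .nil (.nod (nat_lit 822488224641444750830241968) .nil (.dwn (nat_lit 1134795090833710099954102869143495132980736698612872872718304805274) (nat_lit 90391644)) .dup) .nil l3167 = true := by decide +kernel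
theorem cw14126 : wchk (nat_lit 5) [] [l3167] (nat_lit 209) (nat_lit 3) (nat_lit 1) (nat_lit 0) (nat_lit 5820672) (nat_lit 0) w14126 = true := by decide +kernel
theorem cw14127 : wchk (nat_lit 5) [] [l3167] (nat_lit 209) (nat_lit 3) (nat_lit 1) (nat_lit 0) (nat_lit 5820672) (nat_lit 0) w14127 = true := by decide +kernel
theorem cw14128 : wchk (nat_lit 5) [] [l2637] (nat_lit 209) (nat_lit 2) (nat_lit 1) (nat_lit 0) (nat_lit 3870976) (nat_lit 0) w14128 = true := by decide +kernel
theorem cw14129 : wchk (nat_lit 5) [] [l3167] (nat_lit 209) (nat_lit 3) (nat_lit 1) (nat_lit 0) (nat_lit 5820672) (nat_lit 0) w14129 = true := by decide +kernel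
theorem cw14130 : wchk (nat_lit 5) [w1929, w16] [] (nat_lit 17) (nat_lit 2) (nat_lit 1) (nat_lit 2) (nat_lit 617714688) (nat_lit 23153668) w14130 = true := by decide +kernel
theorem cw14131 : wchk (nat_lit 5) [w6776, w16] [] (nat_lit 0) (nat_lit 2) (nat_lit 1) (nat_lit 2) (nat_lit 23211008) (nat_lit 23153668) w14131 = true := by decide +kernel
theorem cw14132 : wchk (nat_lit 5) [w5212, w489] [] (nat_lit 17) (nat_lit 0) (nat_lit 2) (nat_lit 2) (nat_lit 22228992) (nat_lit 84585476) w14132 = true := by decide +kernel
theorem cw14133 : wchk (nat_lit 5) [w5212, w489] [] (nat_lit 17) (nat_lit 0) (nat_lit 2) (nat_lit 2) (nat_lit 11218944) (nat_lit 84585476) w14133 = true := by decide +kernel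
theorem cw14134 : wchk (nat_lit 5) [] [] (nat_lit 3) (nat_lit 0) (nat_lit 3) (nat_lit 2) (nat_lit 209) (nat_lit 16777221) w14134 = true := by decide +kernel
theorem cw14135 : wchk (nat_lit 5) [w75] [] (nat_lit 3) (nat_lit 0) (nat_lit 1) (nat_lit 2) (nat_lit 21712896) (nat_lit 16777229) w14135 = true := by decide +kernel
theorem cw14137 : wchk (nat_lit 5) [] [l1832] (nat_lit 3) (nat_lit 0) (nat_lit 2) (nat_lit 0) (nat_lit 5790208) (nat_lit 0) w14137 = true := by decide +kernel
theorem cw14138 : wchk (nat_lit 5) [w8] [] (nat_lit 0) (nat_lit 0) (nat_lit 3) (nat_lit 2) (nat_lit 33554513) (nat_lit 617915392) w14138 = true := by decide +kernel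
theorem cl3169 : lchk (nat_lit 5) [w4566, w233, w69, w2203, w2204, w2445, w539, w14137, w480, w14135, w13145, w2207, w14134, w234, w489, w2210, w14138] (nat_lit 584360960) (.nod (nat_lit 54838929302303012758666790232272127850216161370) (.nod (nat_lit 210624702602047345754188553532093620765520807516216485853018456064) (.nod (nat_lit 210624702602047345754188553532093620762241482598568310165789999104) (.nod (nat_lit 210624696324945610367507789356021830633636603032838258269987274752) (.nod (nat_lit 143099428423150435846419567179263969583993909902362577949718709582277983465085731864576) .nil (.opn (nat_lit 1137745901242723720218650767669772665998745171070837975412834627025644600800556675057664)) .dup) .nil .nil) .nil .nil) .nil .nil) .nil (.nod (nat_lit 194388231988363184942636212338900829675149950671206470779410143280) (.dwn (nat_lit 207429473448994002543870450938324176038545926874468209618388704605583111808840101300312) (nat_lit 886350848)) .nil .nil)) .nil .nil (.nod (nat_lit 23124977090317728202880651368) .nil (.dwn (nat_lit 19628509902114363346206973520204519017932799795144640091189373642961177252719266627994) (nat_lit 90391616)) (.dwn (nat_lit 19628509902114363346206973520204519017932799795144640091189373642961177252719266627994)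 (nat_lit 90391616))) l3169 = true := by decide +kernel
theorem cw14139 : wchk (nat_lit 5) [] [l3169] (nat_lit 17618) (nat_lit 1) (nat_lit 2) (nat_lit 0) (nat_lit 22597888) (nat_lit 0) w14139 = true := by decide +kernel
theorem cl3170 : lchk (nat_lit 5) [w3766, w2212, w3, w39, w852, w10076, w6, w14139, w3245, w13619, w870, w13884] (nat_lit 14824448) (.nod (nat_lit 210625098059456675115076696624616398864348895239561579601361633280) (.nod (nat_lit 143457988354009281379898448141376064435523979491261024735772286580279188880107245666304) .nil (.dwn (nat_lit 3240549998701819864661994019711660267459692639254766744767891955733553209199764785184) (nat_lit 619349012)) (.dwn (nat_lit 3240549998701819864661994019711660267459692639254766744767891955733553209199764785184) (nat_lit 619349012))) .nil (.nod (nat_lit 18768624878724058698540762899301480926230039659418896837817953216035849739953323900928) (.opn (nat_lit 143431434912105380091757866800342401749340977534513685724849283727020216491711799134296)) .dup .dup)) (.nod (nat_lit 210624696324945610367507789356021830633636603032838258269987274752) .nil (.nod (nat_lit 210624696324945610367507789356021830636659408707989049649854939136)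 (.nod (nat_lit 421136332006789190493241599049956797855287240704) .nil .nil (.dwn (nat_lit 3344139606668595027059067589511051512362830161920) (nat_lit 4913771520))) .nil (.dwn (nat_lit 7768594136670016660423402206917644405427399929817440743178941786112) (nat_lit 618804224))) .nil) .nil .nil l3170 = true := by decide +kernel
theorem cw14140 : wchk (nat_lit 5) [] [l3170] (nat_lit 1) (nat_lit 3) (nat_lit 3) (nat_lit 0) (nat_lit 5820672) (nat_lit 0) w14140 = true := by decide +kernel
theorem cw14141 : wchk (nat_lit 5) [w14140, w16] [] (nat_lit 17) (nat_lit 2) (nat_lit 4) (nat_lit 2) (nat_lit 627262464) (nat_lit 17935364) w14141 = true := by decide +kernel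
theorem cw14142 : wchk (nat_lit 5) [w260] [] (nat_lit 1) (nat_lit 0) (nat_lit 4) (nat_lit 2) (nat_lit 652387328) (nat_lit 25165893) w14142 = true := by decide +kernel
theorem cw14143 : wchk (nat_lit 5) [w6776] [] (nat_lit 1) (nat_lit 0) (nat_lit 1) (nat_lit 2) (nat_lit 23211008) (nat_lit 25165905) w14143 = true := by decide +kernel
theorem cw14144 : wchk (nat_lit 5) [w3528, w489] [] (nat_lit 17) (nat_lit 2) (nat_lit 2) (nat_lit 2) (nat_lit 625757184) (nat_lit 84585476) w14144 = true := by decide +kernel
theorem cw14145 : wchk (nat_lit 5) [w7074] [] (nat_lit 0) (nat_lit 0) (nat_lit 1) (nat_lit 2) (nat_lit 25165905) (nat_lit 651276288) w14145 = true := by decide +kernel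
theorem cw14146 : wchk (nat_lit 5) [] [l2626] (nat_lit 1233) (nat_lit 2) (nat_lit 2) (nat_lit 0) (nat_lit 2820864) (nat_lit 0) w14146 = true := by decide +kernel
theorem cw14147 : wchk (nat_lit 5) [w7074] [] (nat_lit 0) (nat_lit 0) (nat_lit 1) (nat_lit 2) (nat_lit 25165905) (nat_lit 651276288) w14147 = true := by decide +kernel
theorem cw14148 : wchk (nat_lit 5) [] [l2622] (nat_lit 17) (nat_lit 2) (nat_lit 2) (nat_lit 0) (nat_lit 153704704) (nat_lit 0) w14148 = true := by decide +kernel
theorem cw14149 : wchk (nat_lit 5) [w16, w5606] [] (nat_lit 17) (nat_lit 0) (nat_lit 0) (nat_lit 2) (nat_lit 22228992) (nat_lit 894536708) w14149 = true := by decide +kernel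
theorem cw14150 : wchk (nat_lit 5) [] [l2622] (nat_lit 17) (nat_lit 2) (nat_lit 2) (nat_lit 0) (nat_lit 153704704) (nat_lit 0) w14150 = true := by decide +kernel
theorem cw14151 : wchk (nat_lit 5) [] [l2622] (nat_lit 17) (nat_lit 2) (nat_lit 2) (nat_lit 0) (nat_lit 153704704) (nat_lit 0) w14151 = true := by decide +kernel
theorem cl3171 : lchk (nat_lit 5) [w8755, w14119, w5606, w1637, w14124, w13048, w2089, w1449, w7382, w14148, w14149, w14150, w14151, w390, w241, w370, w8752, w7266, w7265, w8754, w7006, w11054, w7250, w1986, w14142, w14143, w7313, w8751, w7252, w497, w14144, w14145, w69, w14146, w1, w14147] (nat_lit 22709248) (.nod (nat_lit 153034739024445394396828863802242370371590997937311150607850885425438272940770951430282) (.nod (nat_lit 207160549563918834318221488401105859928751021538607951393966572478718899560153108125720) .nil (.nod (nat_lit 145157827340053649918932780930678460159852183073330346336122158030670816383914042875952) (.dwn (nat_lit 13075429177142211994510185659621369240241949440427453925154153342817416914315243099162720) (nat_lit 4921656320)) .nil .nil) .dup) (.nod (nat_lit 919452035230512500174409583804545518397956472266391767680116140136)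 (.nod (nat_lit 7712082142998538619913334207694255473320555894676271233739905826816) .nil (.nod (nat_lit 61787474854497650053659186637320323636776605399761401240670982635520) (.nod (nat_lit 26733531920776438150779398443184510010555729512448) .nil .nil (.opn (nat_lit 213805741499132011690992261832694571739038476470272))) .nil (.dwn (nat_lit 493146621528907886791715454226928861107497524084099318654398933305344) (nat_lit 39281394688))) .nil) .nil (.dwn (nat_lit 285097474179716797577093958339008878435520148942976572434952161432) (nat_lit 626689024))) (.nod (nat_lit 207160549563918834318223109148773936769724190329991809421109257096199620623061055113392) (.dwn (nat_lit 145264085571831522448103096104851611906486482511481730842000077154911072335374322133200) (nat_lit 626689024)) .nil .nil)) .nil (.nod (nat_lit 286447804305033180266945204635512465053806352606208635305509546216) .nil .nil (.nod (nat_lit 210624796758573376542982025784181253699307322282169968961911783434) (.dwn (nat_lit 145264091129851805832534730804821491451887454838706830880077709800728003023157214079232) (nat_lit 627262604)) .nil .nil)) .nil l3171 = true := by decide +kernel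
theorem cw14152 : wchk (nat_lit 5) [] [l3171] (nat_lit 209) (nat_lit 3) (nat_lit 3) (nat_lit 0) (nat_lit 5820672) (nat_lit 0) w14152 = true := by decide +kernel
theorem cw14153 : wchk (nat_lit 5) [w162, w7074] [] (nat_lit 209) (nat_lit 0) (nat_lit 1) (nat_lit 2) (nat_lit 22709248) (nat_lit 617721860) w14153 = true := by decide +kernel
theorem cw14154 : wchk (nat_lit 5) [] [l3079] (nat_lit 1) (nat_lit 0) (nat_lit 3) (nat_lit 0) (nat_lit 5444352) (nat_lit 0) w14154 = true := by decide +kernel
theorem cw14155 : wchk (nat_lit 5) [w8255, w489] [] (nat_lit 17) (nat_lit 0) (nat_lit 2) (nat_lit 2) (nat_lit 122956800) (nat_lit 84585476) w14155 = true := by decide +kernel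
theorem cw14156 : wchk (nat_lit 5) [w80, w1599] [] (nat_lit 1) (nat_lit 1) (nat_lit 1) (nat_lit 2) (nat_lit 88886272) (nat_lit 23153668) w14156 = true := by decide +kernel
theorem cw14157 : wchk (nat_lit 5) [w10624, w16] [] (nat_lit 17) (nat_lit 2) (nat_lit 4) (nat_lit 2) (nat_lit 82456576) (nat_lit 17935364) w14157 = true := by decide +kernel
theorem cl3172 : lchk (nat_lit 5) [w13081, w3973, w7436, w8449, w1599, w489, w2037, w11108, w14130, w11107, w14154, w13597, w13596, w7421, w14067, w14063, w14155, w14119, w16, w11321, w14021, w14152, w14153, w2934, w284, w14121, w7401, w2405, w14122, w14126, w14127, w14128, w14129, w9432, w7410, w5211, w13038, w14131, w14132, w11111, w3921, w14133, w14141, w13095, w11270, w11869, w13070, w13535, w13074, w14156, w13072, w14157, w13078, w13077, w13076] (nat_lit 10265600) (.nod (nat_lit 273398067591963188014916072041648262854046210559196072500514521088) (.nod (nat_lit 290676016094277500780265548390323396768541065937524242696963840033) (.nod (nat_lit 5043308699007170624481765766851094104218391263264431734181127555475021711242884204616) .nil (.nod (nat_lit 1139910544496354098273281993420879517584836760767970555629973974629402517597029666555992)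 (.dwn (nat_lit 20707505980126656683052301609765142157710040630530760233119612656410557099256605724784) (nat_lit 39268951040)) .nil .nil) .dup) (.nod (nat_lit 145264078161137811252282573795696910019680575317090621788554106833733330099910339680401) .nil (.nod (nat_lit 61696767369894782346011364340689850559502778868285640724707795437728) .nil (.nod (nat_lit 292296506401183217575932970087015132605972966328475913905320183952) (.dwn (nat_lit 72754456598621671135431563840954682517544077641280287580346367548361197375790575431014584) (nat_lit 314146857984)) .nil .nil) .dup) (.nod (nat_lit 5391925331579029334312244719514331412577591943885720004946758289815478016428629231824) (.dwn (nat_lit 20919995579917699176186362268125468013049320036028489859380481097393553347413023295736) (nat_lit 39281968256)) .nil .nil)) (.nod (nat_lit 5259133110968247324328228813055257541114802439878066445045665154476411641535158491408) (.dwn (nat_lit 20933287585425428745532278656394487404956764017421245958400112162124617498545889904968) (nat_lit 4922229928)) .nil .nil)) .nil (.nod (nat_lit 1129036829219363540621654324175336470550519858521479830683384367472) (.dwn (nat_lit 142249554320627232609542534336299192621217817689905590310986382071563633036213799520664)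 (nat_lit 627262632)) .nil .nil)) .nil (.nod (nat_lit 286538947822230994878622649909388186629514645779118509048048123904) (.nod (nat_lit 52658331498317887977779001632983869963384735744) .nil .nil (.dwn (nat_lit 418033740831043617548507250440620709276827600896) (nat_lit 614245376))) .nil (.dwn (nat_lit 971374764498028513734467912773442587251220444938756745389042911232) (nat_lit 77374464))) .nil l3172 = true := by decide +kernel
theorem cw14158 : wchk (nat_lit 5) [] [l3172] (nat_lit 1745) (nat_lit 1) (nat_lit 0) (nat_lit 0) (nat_lit 9820492032) (nat_lit 0) w14158 = true := by decide +kernel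
theorem cw14159 : wchk (nat_lit 5) [w164, w368] [] (nat_lit 17) (nat_lit 0) (nat_lit 1) (nat_lit 2) (nat_lit 122390528) (nat_lit 88764420) w14159 = true := by decide +kernel
theorem cw14160 : wchk (nat_lit 5) [w164, w368] [] (nat_lit 17) (nat_lit 0) (nat_lit 1) (nat_lit 2) (nat_lit 107710464) (nat_lit 88764420) w14160 = true := by decide +kernel
theorem cw14161 : wchk (nat_lit 5) [w114, w368] [] (nat_lit 1) (nat_lit 2) (nat_lit 4) (nat_lit 2) (nat_lit 72586240) (nat_lit 84764676) w14161 = true := by decide +kernel
theorem cw14162 : wchk (nat_lit 5) [w2844, w368] [] (nat_lit 17) (nat_lit 0) (nat_lit 1) (nat_lit 2) (nat_lit 123308032) (nat_lit 88764420) w14162 = true := by decide +kernel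
theorem cw14163 : wchk (nat_lit 5) [w1067, w368] [] (nat_lit 17) (nat_lit 0) (nat_lit 1) (nat_lit 2) (nat_lit 122440704) (nat_lit 88764420) w14163 = true := by decide +kernel
theorem cw14164 : wchk (nat_lit 5) [w3961, w368] [] (nat_lit 17) (nat_lit 0) (nat_lit 1) (nat_lit 2) (nat_lit 122956800) (nat_lit 88764420) w14164 = true := by decide +kernel
theorem cw14165 : wchk (nat_lit 5) [w2844, w368] [] (nat_lit 17) (nat_lit 0) (nat_lit 4) (nat_lit 2) (nat_lit 106599424) (nat_lit 84764676) w14165 = true := by decide +kernel
theorem cw14167 : wchk (nat_lit 5) [w2381, w368] [] (nat_lit 17) (nat_lit 0) (nat_lit 1) (nat_lit 2) (nat_lit 21784576) (nat_lit 88764420) w14167 = true := by decide +kernel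
theorem cw14168 : wchk (nat_lit 5) [w1067, w368] [] (nat_lit 17) (nat_lit 0) (nat_lit 3) (nat_lit 2) (nat_lit 21655552) (nat_lit 88893444) w14168 = true := by decide +kernel
theorem cw14169 : wchk (nat_lit 5) [w2938, w368] [] (nat_lit 17) (nat_lit 0) (nat_lit 1) (nat_lit 2) (nat_lit 6072320) (nat_lit 88764420) w14169 = true := by decide +kernel
theorem cw14170 : wchk (nat_lit 5) [w6613, w368] [] (nat_lit 17) (nat_lit 0) (nat_lit 1) (nat_lit 2) (nat_lit 21662720) (nat_lit 88764420) w14170 = true := by decide +kernel
theorem cw14171 : wchk (nat_lit 5) [w1312, w368] [] (nat_lit 17) (nat_lit 0) (nat_lit 1) (nat_lit 2) (nat_lit 927754240) (nat_lit 88764420) w14171 = true := by decide +kernel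
theorem cw14172 : wchk (nat_lit 5) [w2936, w368] [] (nat_lit 17) (nat_lit 0) (nat_lit 4) (nat_lit 2) (nat_lit 116011008) (nat_lit 84764676) w14172 = true := by decide +kernel
theorem cl3173 : lchk (nat_lit 5) [w13767, w7424, w8449, w8419, w6891, w2839, w12203, w9025, w13790, w2936, w13896, w2051, w14170, w16, w7074, w14159, w14160, w14171, w14172, w12634, w14161, w11320, w14162, w284, w14163, w14164, w14165, w12522, w6719, w5212, w14032, w14033, w13793, w14167, w14168, w8417, w14169, w14041, w13801, w7083, w13165, w14091, w14092, w14093, w14094, w13804, w14116, w12520, w3980, w11588, w13805] (nat_lit 22823936) (.nod (nat_lit 272768147878613663811721687924463113672330014755389546422890569753) (.nod (nat_lit 1126785157501659513598629211725747764619151855343028284851997550624) (.nod (nat_lit 5244168141355216580515680062479109390639098053000243494759893700631544196260995207240) .nil (.dwn (nat_lit 5391911436528320856375901729483585065686315390450327040264567901737817445954478311448) (nat_lit 4922229808)) (.dwn (nat_lit 5391911436528320856375901729483585065686315390450327040264567901737817445954478311448) (nat_lit 4922229808))) (.nod (nat_lit 5375314377417490147072771693364545147084526723418795313080389393556688590982098378864)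 .nil (.nod (nat_lit 1139910549128037667765697266593073158217555406064317427433276395312717686723804226029696) .nil (.dwn (nat_lit 5390254220147156386694793917361272076270224157143840085325591950276599090999100657768) (nat_lit 39281968200)) .dup) (.nod (nat_lit 5363699851906541138522993837346010626033030178479419555547779870153438184842851862696) (.dwn (nat_lit 9097082338168980939542653445947997335879260850410242871296787910045645128402848587401424) (nat_lit 39281968176)) .nil .nil)) (.nod (nat_lit 5044988147469468650962159825295625351039061597421241729412818966257279633720433084664) (.dwn (nat_lit 20827043248698264694318553389441606455055254826732511699561691576288092732245207845152) (nat_lit 4922229808)) .nil .nil)) .nil (.nod (nat_lit 292297460520646969633020101517060959283818944742904295903414749504) (.dwn (nat_lit 145264100393218944824576201113937193651489646157495102571464454991857196275896646404456) (nat_lit 627262648)) .nil .nil)) .nil .nil (.nod (nat_lit 273490359818778578367004814676550271731853718612666361374805748104) .nil (.dwn (nat_lit 1126785157501659513645013490103486277206508186719228904266630604832) (nat_lit 89932800)) .dup) l3173 = true := by decide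 +kernel
theorem cw14173 : wchk (nat_lit 5) [] [l3173] (nat_lit 1745) (nat_lit 1) (nat_lit 1) (nat_lit 0) (nat_lit 9820492032) (nat_lit 0) w14173 = true := by decide +kernel
theorem cw14174 : wchk (nat_lit 5) [w14173, w710] [] (nat_lit 0) (nat_lit 2) (nat_lit 2) (nat_lit 2) (nat_lit 23282688) (nat_lit 22121476) w14174 = true := by decide +kernel
theorem cw14175 : wchk (nat_lit 5) [w3565, w3898] [] (nat_lit 0) (nat_lit 0) (nat_lit 3) (nat_lit 2) (nat_lit 22709248) (nat_lit 22228996) w14175 = true := by decide +kernel
theorem cw14176 : wchk (nat_lit 5) [w93, w3898] [] (nat_lit 0) (nat_lit 0) (nat_lit 3) (nat_lit 2) (nat_lit 9276416) (nat_lit 22228996) w14176 = true := by decide +kernel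
theorem cw14177 : wchk (nat_lit 5) [w93, w3898] [] (nat_lit 0) (nat_lit 0) (nat_lit 2) (nat_lit 2) (nat_lit 9204736) (nat_lit 22293508) w14177 = true := by decide +kernel
theorem cw14178 : wchk (nat_lit 5) [w6184, w3035] [] (nat_lit 18) (nat_lit 1) (nat_lit 1) (nat_lit 2) (nat_lit 626667520) (nat_lit 23282692) w14178 = true := by decide +kernel
theorem cw14179 : wchk (nat_lit 5) [w13109, w3035] [] (nat_lit 18) (nat_lit 1) (nat_lit 1) (nat_lit 2) (nat_lit 22823936) (nat_lit 23282692) w14179 = true := by decide +kernel
theorem cw14180 : wchk (nat_lit 5) [w7558, w3035] [] (nat_lit 1) (nat_lit 0) (nat_lit 1) (nat_lit 2) (nat_lit 22644736) (nat_lit 23282692) w14180 = true := by decide +kernel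
theorem cw14181 : wchk (nat_lit 5) [w7424, w3035] [] (nat_lit 1) (nat_lit 0) (nat_lit 1) (nat_lit 2) (nat_lit 21784576) (nat_lit 23282692) w14181 = true := by decide +kernel
theorem cw14182 : wchk (nat_lit 5) [w12966, w3035] [] (nat_lit 153) (nat_lit 1) (nat_lit 1) (nat_lit 2) (nat_lit 21712896) (nat_lit 23282692) w14182 = true := by decide +kernel
theorem cw14183 : wchk (nat_lit 5) [w13119, w3035] [] (nat_lit 1) (nat_lit 0) (nat_lit 1) (nat_lit 2) (nat_lit 22823936) (nat_lit 23282692) w14183 = true := by decide +kernel
theorem cw14184 : wchk (nat_lit 5) [] [l1407] (nat_lit 17) (nat_lit 3) (nat_lit 0) (nat_lit 0) (nat_lit 2516224) (nat_lit 0) w14184 = true := by decide +kernel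
theorem cw14185 : wchk (nat_lit 5) [w8759, w3035] [] (nat_lit 0) (nat_lit 1) (nat_lit 1) (nat_lit 2) (nat_lit 23160832) (nat_lit 23282692) w14185 = true := by decide +kernel
theorem cw14186 : wchk (nat_lit 5) [w12564, w3035] [] (nat_lit 0) (nat_lit 1) (nat_lit 1) (nat_lit 2) (nat_lit 15304704) (nat_lit 23282692) w14186 = true := by decide +kernel
theorem cw14187 : wchk (nat_lit 5) [] [l3038] (nat_lit 0) (nat_lit 3) (nat_lit 3) (nat_lit 0) (nat_lit 5820672) (nat_lit 0) w14187 = true := by decide +kernel
theorem cw14188 : wchk (nat_lit 5) [w11390, w16] [] (nat_lit 1) (nat_lit 1) (nat_lit 4) (nat_lit 2) (nat_lit 86721536) (nat_lit 13283332) w14188 = true := by decide +kernel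
theorem cl3174 : lchk (nat_lit 5) [w161, w10, w109, w920, w852, w151, w86, w6311, w10741, w3247, w428, w5669, w330, w10055, w817, w33, w1075, w7] (nat_lit 23153664) (.nod (nat_lit 210625600227595506038119796765227424279749599382680225682246598794) .nil (.nod (nat_lit 20707494864086089899720768791416973630926057411384098796150850565828723780839597408650) .nil (.nod (nat_lit 1139681458647996850216434766647788929504632394117375905540565354108680209376580787062824) .nil (.dwn (nat_lit 1139880655315943448318157154119015435281110551236255014869967778565993344060891295029248) (nat_lit 4922100736)) (.dwn (nat_lit 1139880655315943448318157154119015435281110551236255014869967778565993344060891295029248) (nat_lit 4922100736))) (.nod (nat_lit 4327850685354213519197791054860095592673162795087631113534109272576520035281780951080) (.opn (nat_lit 1139880655315943448379950208262402752545656913842477955565047550535053406863800901212160)) (.dwn (nat_lit 1139880655315943448379950208262402752545656913842477955565047550535053406863800901212160) (nat_lit 4922100736)) .dup)) (.nod (nat_lit 20689240472802005476144633672772323999628805104841529892530933463836289207698729206154) (.dwn (nat_lit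 145131271119139606873375182048917094855635832892591821029591438133025974975374439934032) (nat_lit 627133440)) .nil .nil)) (.nod (nat_lit 210625198493084441290550911274704338989098968831931779984037773386) .nil .nil (.nod (nat_lit 210624796758573376542982025784181253699283254593816071225403768842) (.opn (nat_lit 145250795418997220237705024650689044113997308579791299748934782310756259555872609978488)) (.dwn (nat_lit 145250795418997220237705024650689044113997308579791299748934782310756259555872609978488) (nat_lit 627133440)) .dup)) .nil .nil l3174 = true := by decide +kernel
theorem cw14189 : wchk (nat_lit 5) [] [l3174] (nat_lit 1) (nat_lit 3) (nat_lit 3) (nat_lit 0) (nat_lit 5820672) (nat_lit 0) w14189 = true := by decide +kernel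
theorem cw14190 : wchk (nat_lit 5) [w14189, w16] [] (nat_lit 17) (nat_lit 1) (nat_lit 2) (nat_lit 2) (nat_lit 627262464) (nat_lit 21655556) w14190 = true := by decide +kernel
theorem cw14191 : wchk (nat_lit 5) [w4025, w16] [] (nat_lit 17) (nat_lit 1) (nat_lit 2) (nat_lit 2) (nat_lit 627262464) (nat_lit 21655556) w14191 = true := by decide +kernel
theorem cw14192 : wchk (nat_lit 5) [w5212, w16] [] (nat_lit 0) (nat_lit 0) (nat_lit 2) (nat_lit 2) (nat_lit 17519616) (nat_lit 21655556) w14192 = true := by decide +kernel
theorem cl3175 : lchk (nat_lit 5) [w2740, w7171, w539, w359, w864, w216] (nat_lit 22644736) .nil (.nod (nat_lit 11665303250952797049371811802089630771212116736996403210021710594114) (.nod (nat_lit 2222094014326943380723226601398453598846434065931537861312842) (.opn (nat_lit 7874060895258078242567274070146750161979695420946545467396110731296)) .nil .dup) (.nod (nat_lit 2222094014326884990397869455815514839758270110659489048822090) .nil (.nod (nat_lit 23118364006354279623482871808) .nil .nil (.dwn (nat_lit 1139762795643160710604748099850498432238624845085404438098188287404280964011745622360090) (nat_lit 4921591808))) .nil) .nil) (.nod (nat_lit 214823328211396991572824309862873165145471645794362418616549909354660485499488504381450)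 .nil (.dwn (nat_lit 48401093301198169687052671733636538460637606351905563940789211495607504428073346) (nat_lit 7336521748)) .dup) .nil l3175 = true := by decide +kernel
theorem cw14193 : wchk (nat_lit 5) [] [l3175] (nat_lit 17) (nat_lit 3) (nat_lit 2) (nat_lit 0) (nat_lit 5820672) (nat_lit 0) w14193 = true := by decide +kernel
theorem cw14194 : wchk (nat_lit 5) [] [l3002] (nat_lit 1) (nat_lit 3) (nat_lit 1) (nat_lit 0) (nat_lit 21189376) (nat_lit 0) w14194 = true := by decide +kernel
theorem cw14195 : wchk (nat_lit 5) [] [l3002] (nat_lit 1) (nat_lit 1) (nat_lit 1) (nat_lit 0) (nat_lit 21189376) (nat_lit 0) w14195 = true := by decide +kernel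
theorem cw14196 : wchk (nat_lit 5) [w351, w16] [] (nat_lit 17) (nat_lit 1) (nat_lit 4) (nat_lit 2) (nat_lit 622667776) (nat_lit 13283332) w14196 = true := by decide +kernel
theorem cw14199 : wchk (nat_lit 5) [w391, w16] [] (nat_lit 17) (nat_lit 1) (nat_lit 4) (nat_lit 2) (nat_lit 622474240) (nat_lit 13283332) w14199 = true := by decide +kernel
theorem cw14200 : wchk (nat_lit 5) [] [l134] (nat_lit 17) (nat_lit 0) (nat_lit 1) (nat_lit 1) (nat_lit 22449152) (nat_lit 0) w14200 = true := by decide +kernel
theorem cw14201 : wchk (nat_lit 5) [w11445] [] (nat_lit 2) (nat_lit 2) (nat_lit 4) (nat_lit 2) (nat_lit 90319872) (nat_lit 25165901) w14201 = true := by decide +kernel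
theorem cw14202 : wchk (nat_lit 5) [w281] [] (nat_lit 0) (nat_lit 0) (nat_lit 1) (nat_lit 2) (nat_lit 16777297) (nat_lit 123824128) w14202 = true := by decide +kernel
theorem cw14203 : wchk (nat_lit 5) [] [l1518] (nat_lit 1) (nat_lit 1) (nat_lit 1) (nat_lit 0) (nat_lit 22579968) (nat_lit 0) w14203 = true := by decide +kernel
theorem cw14204 : wchk (nat_lit 5) [] [l2581] (nat_lit 1) (nat_lit 1) (nat_lit 1) (nat_lit 0) (nat_lit 22579968) (nat_lit 0) w14204 = true := by decide +kernel
theorem cl3176 : lchk (nat_lit 5) [w2548, w9025, w16, w281, w14200, w3182, w7528, w14201, w1170, w112, w2674, w13202, w12301, w8273, w13383, w2305, w14202, w14203, w14204, w5721, w13636, w13735, w14193, w6719, w11267, w7316, w11228, w13015, w13013, w14194, w14195, w13016, w2545, w12965, w14196, w14199] (nat_lit 14824448) (.nod (nat_lit 1128944737859803682620479090723834548296284783003173985007452553370) (.nod (nat_lit 5254124524148287213156486629595941085531676808678464846485776345297744289755003445265) .nil (.nod (nat_lit 145264066118760530571107573025184797252533003614245044202702763525712106169305072818224) .nil (.dwn (nat_lit 1137951740671245684614194885668075188358908918648391247294704732681693033629933573007360)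 (nat_lit 4913771520)) (.dwn (nat_lit 1137951740671245684614194885668075188358908918648391247294704732681693033629933573007360) (nat_lit 4913771520))) (.dwn (nat_lit 145264066118760530571399868979201027729347107125797740015080461463201125944860984629296) (nat_lit 618804224))) (.nod (nat_lit 1550193898256930694086197479271259586366964027772070522342145845328) (.nod (nat_lit 7866592198746059636993824108699657917361581620834124085242967056488) .nil .nil (.nod (nat_lit 61688487470971296249336296048950116562389733347180874458506044139520) (.opn (nat_lit 9095123523227831959593358490162590162953599895044513380375057728832431532151716563937280)) (.dwn (nat_lit 9095123523227831959593358490162590162953599895044513380375057728832431532151716563937280) (nat_lit 39273509888)) .dup)) .nil (.nod (nat_lit 7862362888464011624295740940042386858128847983999080170519960914048) (.dwn (nat_lit 1139910550980711095624551068211047498579597216913620238263850837407739658434239041984680) (nat_lit 4913771520)) .nil .nil)) (.nod (nat_lit 20933273690374720206039474727276902280684188233539705853690225205995198991831033616592) (.dwn (nat_lit 144915488392330655599849029514923237121628607044295856596637245527862237645728791566584)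 (nat_lit 618804224)) .nil .nil)) .nil (.nod (nat_lit 489808573969722471232358664) .nil .nil (.dwn (nat_lit 5391933668609454420793217390927838058951805754905616199583458938489743998035234390042) (nat_lit 23282828))) .nil l3176 = true := by decide +kernel
theorem cw14205 : wchk (nat_lit 5) [] [l3176] (nat_lit 209) (nat_lit 3) (nat_lit 0) (nat_lit 0) (nat_lit 5820672) (nat_lit 0) w14205 = true := by decide +kernel
theorem cw14206 : wchk (nat_lit 5) [w162, w9735] [] (nat_lit 209) (nat_lit 0) (nat_lit 3) (nat_lit 2) (nat_lit 22816768) (nat_lit 626208772) w14206 = true := by decide +kernel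
theorem cw14207 : wchk (nat_lit 5) [w11445, w16] [] (nat_lit 2) (nat_lit 2) (nat_lit 4) (nat_lit 2) (nat_lit 90319872) (nat_lit 17476612) w14207 = true := by decide +kernel
theorem cl3177 : lchk (nat_lit 5) [w5841, w3, w39, w461, w1929, w42, w11373, w937, w2642, w281, w1170, w1326, w1325, w1556, w1554, w86] (nat_lit 56418412544) (.nod (nat_lit 88630706403894772598670212974002828953482695307782062677260192272385) (.nod (nat_lit 168381452523549655516946018604127027803775092666396020627692584960) (.nod (nat_lit 76306986807399232986794843509435335422016337758342519203403810161415507012485120) .nil (.nod (nat_lit 3074553238581345054717009279505284456974530948599578028446171411539280682883450142720) .nil .nil (.dwn (nat_lit 3885339868709064413530441437924767969678573019186215436924636201176021744443449147392) (nat_lit 10595360))) (.nod (nat_lit 98423275851718934221917726780859228788465711661344319556815168001980923283794000) (.opn (nat_lit 18657409819190115138701312969690559021819797879453279467979153164318242191740363251824)) .dup .dup)) .nil (.dwn (nat_lit 3419829500962885674635901797393678536760100114019648759470574753322008422666848960512) (nat_lit 919382016))) .nil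 (.dwn (nat_lit 89051955564291899614902720505246115383689240484849711276911727562752) (nat_lit 7093397504))) .nil .nil (.opn (nat_lit 708709479742082386140624879211618545025751598347922507318855779045376)) l3177 = true := by decide +kernel
theorem cw14208 : wchk (nat_lit 5) [] [l3177] (nat_lit 1681) (nat_lit 2) (nat_lit 4) (nat_lit 0) (nat_lit 9820492032) (nat_lit 0) w14208 = true := by decide +kernel
theorem cw14209 : wchk (nat_lit 5) [w14208, w16] [] (nat_lit 17) (nat_lit 2) (nat_lit 4) (nat_lit 2) (nat_lit 627262464) (nat_lit 17476612) w14209 = true := by decide +kernel
theorem cw14210 : wchk (nat_lit 5) [w2844] [] (nat_lit 2) (nat_lit 0) (nat_lit 4) (nat_lit 2) (nat_lit 19483648) (nat_lit 25165897) w14210 = true := by decide +kernel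
theorem cw14211 : wchk (nat_lit 5) [w10230, w16] [] (nat_lit 2) (nat_lit 2) (nat_lit 0) (nat_lit 2) (nat_lit 90391552) (nat_lit 23211012) w14211 = true := by decide +kernel
theorem cw14212 : wchk (nat_lit 5) [] [l1637] (nat_lit 2) (nat_lit 3) (nat_lit 1) (nat_lit 0) (nat_lit 5677312) (nat_lit 0) w14212 = true := by decide +kernel
theorem cw14213 : wchk (nat_lit 5) [w14212, w16] [] (nat_lit 2) (nat_lit 2) (nat_lit 3) (nat_lit 2) (nat_lit 90391552) (nat_lit 21662724) w14213 = true := by decide +kernel
theorem cw14214 : wchk (nat_lit 5) [w69, w281] [] (nat_lit 1) (nat_lit 1) (nat_lit 1) (nat_lit 2) (nat_lit 21712896) (nat_lit 89753604) w14214 = true := by decide +kernel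
theorem cl3178 : lchk (nat_lit 5) [w5606, w831, w7171, w8753, w884] (nat_lit 123351040) .nil (.nod (nat_lit 17127027438214959764730512700080345583093547154) (.nod (nat_lit 120459957890015526860654927097259236524114) (.opn (nat_lit 88747151556056854339421397677175307377658001661256880022254242783232)) .nil (.dwn (nat_lit 88747151556056854339421397677175307377658001661256880022254242783232) (nat_lit 7069118464))) (.nod (nat_lit 207296669186005939845263842175114878137898948299198722155704674160220772301263928820050) .nil (.opn (nat_lit 1637095992025295189749995901879165779638162902753753155277668867748603939228012290269184)) .nil) .nil) (.nod (nat_lit 17126983882071993884607189388130594316762480658) .nil .nil (.dwn (nat_lit 5390244956780017401399160031682471354515091680338572134897324225604048093713337942098) (nat_lit 89739280))) .nil l3178 = true := by decide +kernel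
theorem cw14215 : wchk (nat_lit 5) [] [l3178] (nat_lit 1) (nat_lit 3) (nat_lit 1) (nat_lit 0) (nat_lit 30986496) (nat_lit 0) w14215 = true := by decide +kernel
theorem cl3179 : lchk (nat_lit 5) [w14199, w6613, w281, w112, w1170, w2674, w13202, w2305, w8273, w13383, w11203, w3792, w14203, w14204, w13636, w14214, w13735, w16, w14200, w3182, w7528, w2548, w14215, w14193, w5606, w7316, w11267, w11228, w13015, w13013, w14210, w14211, w14213, w2545, w5432, w14196] (nat_lit 123487232) .nil (.nod (nat_lit 291395773687663879102931139937096830324694459701875867341614481554) (.nod (nat_lit 1126785057068031747458345542033245758006325929436148992225358194728) (.nod (nat_lit 7873161110386920973773009096301571661796588933026305041326972033088) .nil .nil (.nod (nat_lit 708827634682600661177604928600344206029590198115812120949723110082560) (.opn (nat_lit 104583037468763564938718153343668578670583356451849108074587868011605209026617571112683520)) .dup .dup)) .nil (.nod (nat_lit 7861552740605635677318638671485780647048576215442652954040499134552) (.dwn (nat_lit 1139804306643983931573331583678143993407998848496774334790300319227570214202191753207936) (nat_lit 56461378560)) .nil .nil))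 (.nod (nat_lit 5375318082764345734457697129502048135011316818978274095058028614534642759246030395529) .nil (.nod (nat_lit 145157839382430930591955552392105707034945886324090960647675759799677750965397990564000) .nil (.dwn (nat_lit 1138801677764665432951842981412235959340135988730463655235376808504912238091993139669160) (nat_lit 4917441620)) (.dwn (nat_lit 5390257925494011980813047471632792330895990578985803148728157814044451536074555478152) (nat_lit 4917441620))) (.dwn (nat_lit 145157839382430930592247849099374145758161681495938387244973427669449424076638043922592) (nat_lit 622474324))) (.nod (nat_lit 20827034911667839556995113391442195476594098918172348580876142678423763651304126324952) (.dwn (nat_lit 144900549360145614013579452234163863594503582528468268688704298714568420565562283165952) (nat_lit 7069254656)) .nil .nil)) (.nod (nat_lit 11884296330499327016273373196629877885626409232) .nil .nil (.dwn (nat_lit 5285694889902573760756872706466306938259479971944149281939329499512295234003884048466) (nat_lit 22823936))) .nil l3179 = true := by decide +kernel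
theorem cw14216 : wchk (nat_lit 5) [] [l3179] (nat_lit 145) (nat_lit 3) (nat_lit 0) (nat_lit 0) (nat_lit 5820672) (nat_lit 0) w14216 = true := by decide +kernel
theorem cw14217 : wchk (nat_lit 5) [w162, w13790] [] (nat_lit 145) (nat_lit 0) (nat_lit 2) (nat_lit 2) (nat_lit 23275520) (nat_lit 626803716) w14217 = true := by decide +kernel
theorem cl3180 : lchk (nat_lit 5) [w12491, w7424, w2861, w8419, w9025, w2709, w2936, w16, w2051, w14216, w10822, w14217, w12634, w14207, w3958, w7293, w284, w12328, w12330, w14209, w14205, w14206, w14188, w14190, w10774, w6719, w12348, w10775, w14191, w7425, w8769, w14192, w12354, w13801, w12306, w13897] (nat_lit 4887177216) (.nod (nat_lit 273488056122441691455164486941831954518259961696604237613105586201) (.nod (nat_lit 1128944888510245331984146261863529784655371989045675056479417684017) (.nod (nat_lit 20933257942650583932347527691905463860964527694886087519163340779291872171780354543664) .nil (.nod (nat_lit 5362024108791098698250527311216153937616495662443900023592723581485069788990939760664) .nil (.nod (nat_lit 5284008957083278436951505512924580442324544179301208606945564285441774136369541107768) (.dwn (nat_lit 5254131819049913106970528592101712226410712896148705789384370504360914332147323854928)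 (nat_lit 625764352)) .nil .nil) .dup) (.nod (nat_lit 5244173699375499970429403183695065368887971989074381650685931864125295550401108928624) (.dwn (nat_lit 20573048206104285117076461962714346785500030943790204404858411440490838263142238589048) (nat_lit 39281968204)) .nil .nil)) (.nod (nat_lit 20827018237606989373775860352925428449595240654357299072266087091733794475597833097264) .nil (.nod (nat_lit 5240844445225748654886288415416981798771807774274379091126907515238512468991636178968) .nil (.nod (nat_lit 5390248662126872995517413585953991659250647208351352940681041178548113573993256538168) (.dwn (nat_lit 5375311482615263150334767990069023196221771431855702988704324241529218800424915916880) (nat_lit 625707008)) .nil .nil) .dup) (.nod (nat_lit 5363693367549543848816050217804477905697082616732909050998856317133403185004409284720) (.dwn (nat_lit 20586328169234734436903679646037475433066540728933239035533347753771439789627567296632) (nat_lit 39281968220)) .nil .nil)) (.nod (nat_lit 5284024704807414712199405963587643192642439775063437079853184036857847601663307239640) (.dwn (nat_lit 1139910561170414948447697578433720185297426551861005507151063475330122795584214394112248)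 (nat_lit 894199808)) .nil .nil)) .nil (.dwn (nat_lit 290767404418442995423473586562280567364970151802221225680663128344) (nat_lit 659318784))) .nil .nil (.nod (nat_lit 61775866334065923104559165779683259620064737440570680121546545614848) (.opn (nat_lit 9096735378752790245786688005571177887710249430216568139883318033417512344321142292008960)) (.dwn (nat_lit 9096735378752790245786688005571177887710249430216568139883318033417512344321142292008960) (nat_lit 39280470016)) .dup) l3180 = true := by decide +kernel
theorem cw14218 : wchk (nat_lit 5) [] [l3180] (nat_lit 1745) (nat_lit 1) (nat_lit 1) (nat_lit 0) (nat_lit 9820492032) (nat_lit 0) w14218 = true := by decide +kernel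
theorem cw14219 : wchk (nat_lit 5) [] [l3038] (nat_lit 0) (nat_lit 3) (nat_lit 1) (nat_lit 0) (nat_lit 5820672) (nat_lit 0) w14219 = true := by decide +kernel
theorem cl3181 : lchk (nat_lit 5) [w13111, w3973, w8449, w8111, w3974, w337, w12203, w2839, w1599, w16, w3408, w13104, w14182, w10822, w14183, w284, w14181, w12634, w14178, w11320, w13106, w13108, w13107, w14179, w5567, w2936, w2861, w2051, w12522, w12366, w12621, w5212, w13907, w13113, w13138, w8417, w14180, w13140, w8759, w7083, w458, w14184, w14185, w13122, w13123, w8746, w13124, w14186, w14187, w14218, w14219, w13129, w7177, w13128, w13127] (nat_lit 4888216576) (.nod (nat_lit 279067345012108905706623216398417062889369380452214895329044488225) (.nod (nat_lit 1127595110769881663178648800059196776731570854859516946024936857665) (.nod (nat_lit 5254131008505284502850382163302160220297454210722554586581430207018441138383610878000) .nil (.nod (nat_lit 5152872100180233099310402900982541212923578404850927998999562503120097151871750932568) .nil (.nod (nat_lit 5284010809756706234010632290060340581331069837065481126481214486655938918024960626760) (.dwn (nat_lit 5254134598060054802559218908455794084200839714854060727844422446923580920447085404264)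 (nat_lit 314159875136)) .nil .nil) .dup) (.nod (nat_lit 5244178331059069463077220377618535131871516686916639881452688625057857942758403557528) (.dwn (nat_lit 20827032132657697851295902842422869376511294905781232331609144758445193415114805905592) (nat_lit 89932800)) .nil .nil)) (.nod (nat_lit 5363687809529260458882079124845905935536679038069658977940877593118527742635420078280) .nil (.dwn (nat_lit 5240866677306882219873437263293454581868395419567348260289090389547256195798001704992) (nat_lit 4922229824)) (.dwn (nat_lit 5240866677306882219873437263293454581868395419567348260289090389547256195798001704992) (nat_lit 4922229824))) (.nod (nat_lit 5031709110675733231032819753195897911654626584750493358215558388995160579291171293440) (.dwn (nat_lit 20827044175034978532188236827137360866362488926079483335527458969895531969112089200936) (nat_lit 4922229824)) .nil .nil)) .nil (.nod (nat_lit 290767705719326293984379546550298886484196908346778901230148553032) (.dwn (nat_lit 20933292217108998177514456583278393408792333614067261304030316660150363648722332060016) (nat_lit 90391740)) .nil .nil)) .nil (.nod (nat_lit 292298012905599683661239559444157919325053384480830040593323821464)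 (.nod (nat_lit 26733609973384633007960398049438832931023112144896) .nil .nil (.dwn (nat_lit 213805819551740206548173261438948894659505859102720) (nat_lit 314159416320))) .nil (.dwn (nat_lit 493148061345395542847002417877571793646370383584236070957246745970688) (nat_lit 39281509376))) (.nod (nat_lit 291578305529027188391269003628306933870481159215981138557972023704) (.opn (nat_lit 9096976078084529639708451939386054530439100287683043876370133423906530591246545722050560)) (.dwn (nat_lit 9096976078084529639708451939386054530439100287683043876370133423906530591246545722050560) (nat_lit 39281509376)) .dup) l3181 = true := by decide +kernel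
theorem cw14220 : wchk (nat_lit 5) [] [l3181] (nat_lit 1681) (nat_lit 1) (nat_lit 1) (nat_lit 0) (nat_lit 9820492032) (nat_lit 0) w14220 = true := by decide +kernel
theorem cw14221 : wchk (nat_lit 5) [w16, w112] [] (nat_lit 25) (nat_lit 0) (nat_lit 3) (nat_lit 2) (nat_lit 22121472) (nat_lit 88764420) w14221 = true := by decide +kernel
theorem cw14222 : wchk (nat_lit 5) [w162] [] (nat_lit 1) (nat_lit 0) (nat_lit 3) (nat_lit 2) (nat_lit 111882240) (nat_lit 16777297) w14222 = true := by decide +kernel
theorem cw14223 : wchk (nat_lit 5) [] [l1190] (nat_lit 1) (nat_lit 1) (nat_lit 2) (nat_lit 0) (nat_lit 30954240) (nat_lit 0) w14223 = true := by decide +kernel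
theorem cw14224 : wchk (nat_lit 5) [w220, w112] [] (nat_lit 25) (nat_lit 0) (nat_lit 3) (nat_lit 2) (nat_lit 22823936) (nat_lit 88764420) w14224 = true := by decide +kernel
theorem cw14225 : wchk (nat_lit 5) [] [l202] (nat_lit 1) (nat_lit 1) (nat_lit 0) (nat_lit 0) (nat_lit 30986496) (nat_lit 0) w14225 = true := by decide +kernel
theorem cw14226 : wchk (nat_lit 5) [] [l1217] (nat_lit 1) (nat_lit 1) (nat_lit 0) (nat_lit 0) (nat_lit 30036736) (nat_lit 0) w14226 = true := by decide +kernel
theorem cw14227 : wchk (nat_lit 5) [] [l1217] (nat_lit 1) (nat_lit 1) (nat_lit 0) (nat_lit 0) (nat_lit 30954240) (nat_lit 0) w14227 = true := by decide +kernel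
theorem cw14228 : wchk (nat_lit 5) [w112] [] (nat_lit 0) (nat_lit 0) (nat_lit 3) (nat_lit 2) (nat_lit 25165905) (nat_lit 122318848) w14228 = true := by decide +kernel
theorem cw14229 : wchk (nat_lit 5) [] [l391] (nat_lit 17) (nat_lit 0) (nat_lit 0) (nat_lit 1) (nat_lit 30956032) (nat_lit 0) w14229 = true := by decide +kernel
theorem cl3182 : lchk (nat_lit 5) [w8331, w1170, w15, w2180, w281, w220, w13386, w13387, w14229, w14008, w144, w659, w149, w4954, w1379, w2740, w2743, w7344, w7343, w14225, w14226, w14227, w14228] (nat_lit 15347712) (.nod (nat_lit 28571130290694240659459978782354243665982164133511993541051601850255418895009344127066) (.nod (nat_lit 20905035241988237432139768144086572422032123440458777216769874130353241259164687616040) .nil (.dwn (nat_lit 207323232817613694090262587769239304886323367696661961728276218460419830920059110969416) (nat_lit 619327488)) .dup) (.nod (nat_lit 61073405541915281479362112751290933235910395944) (.nod (nat_lit 225617404399058656182184024) .nil .nil (.dwn (nat_lit 61695056633696227001582711589983607234928176912334044953285194940442) (nat_lit 4914294784))) .nil .nil) (.nod (nat_lit 20558105468572387937328835043648979173807306514573993986723196469754694785336856987776)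 (.dwn (nat_lit 145250798198007361946785836752233043835969454611061392371649738335519550512607815698600) (nat_lit 619327488)) .nil .nil)) .nil (.nod (nat_lit 496416787992735591331047512) .nil (.dwn (nat_lit 1134795040616896216860656755734920811951897662087032457551883010458) (nat_lit 90391640)) (.dwn (nat_lit 1134795040616896216860656755734920811951897662087032457551883010458) (nat_lit 90391640))) .nil l3182 = true := by decide +kernel
theorem cw14230 : wchk (nat_lit 5) [] [l3182] (nat_lit 25) (nat_lit 3) (nat_lit 1) (nat_lit 0) (nat_lit 5820672) (nat_lit 0) w14230 = true := by decide +kernel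
theorem cw14231 : wchk (nat_lit 5) [] [l3182] (nat_lit 25) (nat_lit 3) (nat_lit 1) (nat_lit 0) (nat_lit 5820672) (nat_lit 0) w14231 = true := by decide +kernel
theorem cw14232 : wchk (nat_lit 5) [] [l3182] (nat_lit 25) (nat_lit 3) (nat_lit 1) (nat_lit 0) (nat_lit 5820672) (nat_lit 0) w14232 = true := by decide +kernel
theorem cw14233 : wchk (nat_lit 5) [w164] [] (nat_lit 1) (nat_lit 0) (nat_lit 3) (nat_lit 2) (nat_lit 22293504) (nat_lit 16777297) w14233 = true := by decide +kernel
theorem cw14234 : wchk (nat_lit 5) [] [l2009] (nat_lit 1) (nat_lit 1) (nat_lit 0) (nat_lit 0) (nat_lit 22597888) (nat_lit 0) w14234 = true := by decide +kernel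
theorem cw14235 : wchk (nat_lit 5) [w1139] [] (nat_lit 1) (nat_lit 0) (nat_lit 4) (nat_lit 2) (nat_lit 9276416) (nat_lit 16777293) w14235 = true := by decide +kernel
theorem cw14236 : wchk (nat_lit 5) [w11459, w16] [] (nat_lit 1) (nat_lit 2) (nat_lit 3) (nat_lit 2) (nat_lit 89230336) (nat_lit 22121476) w14236 = true := by decide +kernel
theorem cw14237 : wchk (nat_lit 5) [w1207] [] (nat_lit 1) (nat_lit 0) (nat_lit 4) (nat_lit 2) (nat_lit 915188736) (nat_lit 16777293) w14237 = true := by decide +kernel
theorem cw14238 : wchk (nat_lit 5) [w162, w112] [] (nat_lit 25) (nat_lit 0) (nat_lit 3) (nat_lit 2) (nat_lit 22823936) (nat_lit 88764420) w14238 = true := by decide +kernel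
theorem cw14239 : wchk (nat_lit 5) [w5841] [] (nat_lit 1) (nat_lit 0) (nat_lit 4) (nat_lit 2) (nat_lit 76378112) (nat_lit 16777293) w14239 = true := by decide +kernel
theorem cw14240 : wchk (nat_lit 5) [w971, w16] [] (nat_lit 17) (nat_lit 2) (nat_lit 3) (nat_lit 2) (nat_lit 78406656) (nat_lit 22121476) w14240 = true := by decide +kernel
theorem cw14241 : wchk (nat_lit 5) [w1829, w16] [] (nat_lit 17) (nat_lit 2) (nat_lit 3) (nat_lit 2) (nat_lit 622416896) (nat_lit 22121476) w14241 = true := by decide +kernel
theorem cl3183 : lchk (nat_lit 5) [w14221, w2839, w2346, w14233, w161, w1637, w4924, w2089, w14239, w9760, w1170, w16, w13202, w5875, w14222, w14237, w14238, w10822, w284, w14223, w8331, w2538, w8332, w14224, w14230, w14231, w14232, w8349, w1747, w5606, w5471, w13906, w7339, w11047, w14234, w14235, w14236, w5247, w13180, w14240, w5879, w14241, w69] (nat_lit 23282688) (.nod (nat_lit 15172175678704120927014335506943805662678745242) (.nod (nat_lit 20800455532335949038130293206554495538312282071229622834341257526741680284873384167464) .nil (.dwn (nat_lit 144993488722651053484692403827957989126804047329160226599727059401638016346614167851080) (nat_lit 627262464))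 .dup) (.nod (nat_lit 20800462943029660225522682596212078338630816779817013602851633984106833435406618548313) .nil (.nod (nat_lit 7854353808817797050148742636090703008664657042985576283794345199728) .nil (.nod (nat_lit 292296154883486012537783981654807129512650093861043884571857733720) (.dwn (nat_lit 9097082332610960656150633476993410236139969368537316526811807096931044903142725737732232) (nat_lit 39281968128)) .nil .nil) .dup) (.nod (nat_lit 5391919773558745943042445866004744648270368998953838796635439483474504605244053938352) (.dwn (nat_lit 20919990021897415353649835011223881442506244922417816832768293335724531715084202182864) (nat_lit 4921176172)) .nil .nil)) (.nod (nat_lit 20903399331351492628508766125182181479058168246830109554567454589769684710640337703160) (.dwn (nat_lit 145250812093058070417988671747502443651699947074360335930229805562514504164144062040352) (nat_lit 627262464)) .nil .nil)) (.nod (nat_lit 416820415480252183190620456) .nil .nil (.nod (nat_lit 286448256256358128107960200812350936006407282622632625359581872154) (.dwn (nat_lit 20933289438098856481923336576601391957705899559111065956439230532277321849833023400272) (nat_lit 627262464)) .nil .nil))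 .nil .nil l3183 = true := by decide +kernel
theorem cw14242 : wchk (nat_lit 5) [] [l3183] (nat_lit 217) (nat_lit 1) (nat_lit 0) (nat_lit 0) (nat_lit 1230557440) (nat_lit 0) w14242 = true := by decide +kernel
theorem cw14243 : wchk (nat_lit 5) [w14242, w710] [] (nat_lit 2) (nat_lit 2) (nat_lit 2) (nat_lit 2) (nat_lit 90391552) (nat_lit 22121476) w14243 = true := by decide +kernel

end Pool.Agent.W319.GCI.K5
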