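import Pool.Agent.W319.GCI.K5D0
import Pool.Agent.W319.GCI.K5D1
import Pool.Agent.W319.GCI.K5D2
import Pool.Agent.W319.GCI.K5D3
import Pool.Agent.W319.GCI.K5D4
import Pool.Agent.W319.GCI.K5D5
import Pool.Agent.W319.GCI.K5D6
import Pool.Agent.W319.GCI.K5D7
import Pool.Agent.W319.GCI.K5D8
import Pool.Agent.W319.GCI.K5D9
import Pool.Agent.W319.GCI.K5D10
import Pool.Agent.W319.GCI.K5D11
import Pool.Agent.W319.GCI.K5D12
import Pool.Agent.W319.GCI.K5D13
import Pool.Agent.W319.GCI.K5D14
import Pool.Agent.W319.GCI.K5D15
set_option autoImplicit false
set_option maxRecDepth 100000
set_option linter.all false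
namespace Pool.Agent.W319.GCI.K5
open Pool.Agent.W319.GCI

theorem cw14244 : wchk (nat_lit 5) [w497, w34] [] (nat_lit 0) (nat_lit 1) (nat_lit 1) (nat_lit 2) (nat_lit 21727232) (nat_lit 23282692) w14244 = true := by decide +kernel
theorem cw14245 : wchk (nat_lit 5) [] [l150] (nat_lit 145) (nat_lit 1) (nat_lit 2) (nat_lit 0) (nat_lit 1229609472) (nat_lit 0) w14245 = true := by decide +kernel
theorem cl3184 : lchk (nat_lit 5) [w14245, w411, w136, w8651, w10010, w8638, w14045] (nat_lit 23282688) (.nod (nat_lit 11417990729271585914423771636841189286734725120) (.nod (nat_lit 11418012507343068854485433292816064919900258304) (.nod (nat_lit 11417990388989218993485308155019837781256962048) (.nod (nat_lit 4047306832539902137467851518909310389286705024232398693002214130655019564247360393232) .nil (.dwn (nat_lit 9095130165988407325948950777901301126446983825445407549336523135533360558540707825346608) (nat_lit 39281968128)) .dup) (.nod (nat_lit 3076209528625795625576348038874848728800784983897225209606752382825000953256277643280) .nil (.dwn (nat_lit 9095980083628756082417478762393780243996268578339627843436937519191864658512669461473328) (nat_lit 39281509376)) .dup)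 .nil) .nil .nil) .nil .nil) .nil .nil .nil l3184 = true := by decide +kernel
theorem cw14246 : wchk (nat_lit 5) [] [l3184] (nat_lit 145) (nat_lit 3) (nat_lit 1) (nat_lit 0) (nat_lit 1230557440) (nat_lit 0) w14246 = true := by decide +kernel
theorem cw14247 : wchk (nat_lit 5) [] [l1055] (nat_lit 145) (nat_lit 1) (nat_lit 1) (nat_lit 0) (nat_lit 22454528) (nat_lit 0) w14247 = true := by decide +kernel
theorem cl3185 : lchk (nat_lit 5) [w831, w32, w14246, w14247] (nat_lit 18523136) (.nod (nat_lit 17127024715956024398151262715772156096666402816) (.nod (nat_lit 232543268477620883859092541160250410131071339446725406626242625536) (.nod (nat_lit 144161825473586381439683051431630060319124448293265413703823810396243205120761894619136) .nil (.dwn (nat_lit 1138808298293159665804367441059573020112293783336661915768433422693075910147356321204224) (nat_lit 4917470208)) .dup) (.nod (nat_lit 144161825473586381439683051431630060318700794764644340369289264103102545891927459710976) .nil (.dwn (nat_lit 1138808298293159665804367441059573020108947126533379036597649963059531213554397109110784) (nat_lit 4917470208)) .dup) (.dwn (nat_lit 144161825473586381439683051431630060319124448293265413703846776700048810997808243230720)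 (nat_lit 622502912))) .nil .nil) .nil (.nod (nat_lit 11417990388989218993485308155019837781256962048) .nil .nil (.dwn (nat_lit 292295702932161061358290948510108103064526601549821834775788257280) (nat_lit 23282700))) .nil l3185 = true := by decide +kernel
theorem cw14248 : wchk (nat_lit 5) [] [l3185] (nat_lit 2) (nat_lit 3) (nat_lit 1) (nat_lit 0) (nat_lit 5820672) (nat_lit 0) w14248 = true := by decide +kernel
theorem cw14263 : wchk (nat_lit 5) [w14242] [] (nat_lit 26) (nat_lit 0) (nat_lit 3) (nat_lit 2) (nat_lit 209) (nat_lit 77374464) w14263 = true := by decide +kernel
theorem cw14264 : wchk (nat_lit 5) [w78, w497] [] (nat_lit 1) (nat_lit 1) (nat_lit 2) (nat_lit 2) (nat_lit 85144576) (nat_lit 11240452) w14264 = true := by decide +kernel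
theorem cw14265 : wchk (nat_lit 5) [w3297, w497] [] (nat_lit 17) (nat_lit 1) (nat_lit 2) (nat_lit 2) (nat_lit 623535104) (nat_lit 11240452) w14265 = true := by decide +kernel
theorem cw14266 : wchk (nat_lit 5) [w2228, w497] [] (nat_lit 17) (nat_lit 1) (nat_lit 2) (nat_lit 2) (nat_lit 622502912) (nat_lit 11240452) w14266 = true := by decide +kernel
theorem cw14267 : wchk (nat_lit 5) [w1576, w497] [] (nat_lit 17) (nat_lit 1) (nat_lit 2) (nat_lit 2) (nat_lit 622044160) (nat_lit 11240452) w14267 = true := by decide +kernel
theorem cl3186 : lchk (nat_lit 5) [w4209, w14248, w8342, w69, w1, w83, w93, w3688, w4566, w3565, w14264, w80, w91, w8105, w4259, w521, w14265, w14263, w111, w370, w721, w267, w114, w14266, w14267] (nat_lit 22121472) (.nod (nat_lit 22835993708708380982632228766824985361599858697) (.nod (nat_lit 983343345762398974885214267280721283645730781072859254732361467936) (.nod (nat_lit 7802430075214003375131468672896674750935467573750408817375856033792) (.nod (nat_lit 61780095794998412770313497927775294375053200461560545688575943901184) (.nod (nat_lit 9096813398536181635540639073773241351215463156429839585501733126419378983629007706331136) .nil (.dwn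 (nat_lit 72754187658988871834880440009961590777978300599207215717636748313416672105331051007776768) (nat_lit 314158713856)) (.dwn (nat_lit 72754187658988871834880440009961590777978300599207215717636748313416672105331051007776768) (nat_lit 314158713856))) (.nod (nat_lit 9096813398536181635540639073773241351188730024528680145996904762926705739356318648702976) .nil (.dwn (nat_lit 72754187658988871834880440009961590777764495257727700704611989496138140469754376210290688) (nat_lit 314158713856)) (.dwn (nat_lit 72754187658988871834880440009961590777764495257727700704611989496138140469754376210290688) (nat_lit 314158713856))) (.dwn (nat_lit 9096813398536181635540639073773241351215463156429839585503182332403607914014204093470720) (nat_lit 39280806912))) .nil .nil) .nil (.dwn (nat_lit 7809269303963997403526088745166661081084975809130336972431838316616) (nat_lit 626101248))) .nil (.nod (nat_lit 292296104666672126103555212461527288368106275961429666236169132128) (.dwn (nat_lit 144146897557441906635782003711667039134933625548459772101323526392127556161047148005504) (nat_lit 626101248)) .nil .nil)) .nil .nil (.nod (nat_lit 3349896032801367645405402659333596096758984736768)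 .nil (.nod (nat_lit 19585353727287258650941482831074056824628990095102842480186931998036694175487214223360) (.dwn (nat_lit 144201683889712007369723937390659791966718729715339521694607647555845423542838195816632) (nat_lit 627262560)) .nil .nil) (.nod (nat_lit 19585353727287258650941482831074056824628990095102842480186931998036694175487214223360) (.dwn (nat_lit 144201683889712007369723937390659791966718729715339521694607647555845423542838195816632) (nat_lit 627262560)) .nil .nil)) l3186 = true := by decide +kernel
theorem cw14268 : wchk (nat_lit 5) [] [l3186] (nat_lit 2202) (nat_lit 1) (nat_lit 4) (nat_lit 0) (nat_lit 22597888) (nat_lit 0) w14268 = true := by decide +kernel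
theorem cw14269 : wchk (nat_lit 5) [] [l1998] (nat_lit 0) (nat_lit 3) (nat_lit 3) (nat_lit 0) (nat_lit 5415680) (nat_lit 0) w14269 = true := by decide +kernel
theorem cw14270 : wchk (nat_lit 5) [w114, w368] [] (nat_lit 1) (nat_lit 2) (nat_lit 4) (nat_lit 2) (nat_lit 72586240) (nat_lit 17541124) w14270 = true := by decide +kernel
theorem cw14271 : wchk (nat_lit 5) [w257] [] (nat_lit 1) (nat_lit 0) (nat_lit 1) (nat_lit 2) (nat_lit 23153664) (nat_lit 16777297) w14271 = true := by decide +kernel
theorem cw14272 : wchk (nat_lit 5) [w7250, w220] [] (nat_lit 1) (nat_lit 2) (nat_lit 4) (nat_lit 2) (nat_lit 78220288) (nat_lit 18688004) w14272 = true := by decide +kernel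
theorem cw14273 : wchk (nat_lit 5) [w351, w220] [] (nat_lit 17) (nat_lit 2) (nat_lit 4) (nat_lit 2) (nat_lit 613256192) (nat_lit 18688004) w14273 = true := by decide +kernel
theorem cw14274 : wchk (nat_lit 5) [w391, w220] [] (nat_lit 1) (nat_lit 2) (nat_lit 4) (nat_lit 2) (nat_lit 613127168) (nat_lit 18688004) w14274 = true := by decide +kernel
theorem cw14275 : wchk (nat_lit 5) [] [l1190] (nat_lit 1) (nat_lit 1) (nat_lit 2) (nat_lit 0) (nat_lit 30696192) (nat_lit 0) w14275 = true := by decide +kernel
theorem cl3187 : lchk (nat_lit 5) [w8755, w5212, w6776, w5606, w1637, w1449, w2089, w13048, w14274, w241, w390, w220, w14275, w11054, w14215, w6749, w14271, w7250, w8751, w7313, w14272, w7252, w497, w14273] (nat_lit 21662720) (.nod (nat_lit 210625600227595506121414476940855512165778024283785363315591479434) (.nod (nat_lit 28459911410021352268710997448178528932458391960669597503870789735397061936073586182176) .nil (.dwn (nat_lit 145038307671879606040544694532032716515582063786546734932038803146673296920730588602416) (nat_lit 627262496)) .dup) (.nod (nat_lit 20556442694170940076007972874582853148437650277021738330020649952048855169026959419472) .nil (.nod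 (nat_lit 5391913289201748653142822842434476529880023579388315046866674431059313285662385037424) .nil (.dwn (nat_lit 1139535376274551766002817952881669848912936765024313824116392293588424958028499551328256) (nat_lit 4920609792)) (.dwn (nat_lit 1139535376274551766002817952881669848912936765024313824116392293588424958028499551328256) (nat_lit 4920609792))) (.nod (nat_lit 271868909115307374085536864239062653026860402515144472001068589168) .nil (.dwn (nat_lit 61774336529047788549165643325203564219561762461013536477194535376896) (nat_lit 4920609792)) (.dwn (nat_lit 61774336529047788549165643325203564219561762461013536477194535376896) (nat_lit 4920609792)))) (.nod (nat_lit 35259501717387442721750272175983468507664233005870771542763541230388372398309572286600) (.dwn (nat_lit 144888920129039331873458849333985989917604532458471149096647985862714132515696828147864) (nat_lit 625642496)) .nil .nil)) (.nod (nat_lit 273489104398431501030852047518665630197748005932439303895704463536) .nil .nil (.dwn (nat_lit 210624796758573376542982025784181253699307321249152300834176892938) (nat_lit 90391584))) .nil .nil l3187 = true := by decide +kernel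
theorem cw14276 : wchk (nat_lit 5) [] [l3187] (nat_lit 25) (nat_lit 3) (nat_lit 3) (nat_lit 0) (nat_lit 5820672) (nat_lit 0) w14276 = true := by decide +kernel
theorem cw14277 : wchk (nat_lit 5) [w1067, w368] [] (nat_lit 1) (nat_lit 2) (nat_lit 1) (nat_lit 2) (nat_lit 88886272) (nat_lit 21712900) w14277 = true := by decide +kernel
theorem cw14278 : wchk (nat_lit 5) [w220, w5481] [] (nat_lit 0) (nat_lit 0) (nat_lit 4) (nat_lit 2) (nat_lit 6129664) (nat_lit 123816964) w14278 = true := by decide +kernel
theorem cw14279 : wchk (nat_lit 5) [w2844, w368] [] (nat_lit 1) (nat_lit 2) (nat_lit 1) (nat_lit 2) (nat_lit 73238528) (nat_lit 21712900) w14279 = true := by decide +kernel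
theorem cw14280 : wchk (nat_lit 5) [w1019, w368] [] (nat_lit 1) (nat_lit 2) (nat_lit 1) (nat_lit 2) (nat_lit 21784576) (nat_lit 21712900) w14280 = true := by decide +kernel
theorem cw14281 : wchk (nat_lit 5) [] [l3144] (nat_lit 2) (nat_lit 3) (nat_lit 2) (nat_lit 0) (nat_lit 5820672) (nat_lit 0) w14281 = true := by decide +kernel
theorem cw14282 : wchk (nat_lit 5) [w5473, w16] [] (nat_lit 0) (nat_lit 2) (nat_lit 0) (nat_lit 2) (nat_lit 13734912) (nat_lit 23211012) w14282 = true := by decide +kernel
theorem cw14283 : wchk (nat_lit 5) [w2454, w16] [] (nat_lit 1) (nat_lit 2) (nat_lit 3) (nat_lit 2) (nat_lit 89230336) (nat_lit 21662724) w14283 = true := by decide +kernel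
theorem cw14284 : wchk (nat_lit 5) [] [l1690] (nat_lit 0) (nat_lit 3) (nat_lit 3) (nat_lit 0) (nat_lit 5790208) (nat_lit 0) w14284 = true := by decide +kernel
theorem cw14285 : wchk (nat_lit 5) [w1067, w368] [] (nat_lit 1) (nat_lit 0) (nat_lit 3) (nat_lit 2) (nat_lit 21655552) (nat_lit 21727236) w14285 = true := by decide +kernel
theorem cw14286 : wchk (nat_lit 5) [w16] [] (nat_lit 1) (nat_lit 2) (nat_lit 4) (nat_lit 2) (nat_lit 169) (nat_lit 17476608) w14286 = true := by decide +kernel
theorem cw14287 : wchk (nat_lit 5) [w4645, w16] [] (nat_lit 17) (nat_lit 2) (nat_lit 4) (nat_lit 2) (nat_lit 617915392) (nat_lit 17476612) w14287 = true := by decide +kernel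
theorem cw14289 : wchk (nat_lit 5) [] [l2674] (nat_lit 17) (nat_lit 3) (nat_lit 0) (nat_lit 0) (nat_lit 5573376) (nat_lit 0) w14289 = true := by decide +kernel
theorem cw14290 : wchk (nat_lit 5) [] [l2476] (nat_lit 1) (nat_lit 0) (nat_lit 4) (nat_lit 0) (nat_lit 18295296) (nat_lit 0) w14290 = true := by decide +kernel
theorem cw14291 : wchk (nat_lit 5) [w7316, w16] [] (nat_lit 1) (nat_lit 2) (nat_lit 4) (nat_lit 2) (nat_lit 77689856) (nat_lit 17476612) w14291 = true := by decide +kernel
theorem cw14292 : wchk (nat_lit 5) [] [l3178] (nat_lit 1) (nat_lit 3) (nat_lit 2) (nat_lit 0) (nat_lit 19094528) (nat_lit 0) w14292 = true := by decide +kernel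
theorem cw14293 : wchk (nat_lit 5) [] [l3178] (nat_lit 1) (nat_lit 3) (nat_lit 2) (nat_lit 0) (nat_lit 38968320) (nat_lit 0) w14293 = true := by decide +kernel
theorem cl3188 : lchk (nat_lit 5) [w7313, w5212, w1747, w2122, w13164, w4593, w11878, w14289, w14290, w7331, w14291, w16, w11228, w7321, w7322, w14292, w6170, w14293, w1986, w7250, w5606, w4650, w7328, w7330, w7327, w7329, w14286, w7314, w14287] (nat_lit 10580992) (.nod (nat_lit 210625600227595506042906097266003361559947874087318847156381548682) (.nod (nat_lit 18114582989202574104235468912319636108409519041660117521278945557907943862112135874600) .nil (.dwn (nat_lit 142470295727865682718753616898527607918129955956818868234898771373895184773085822904392) (nat_lit 627262504)) (.dwn (nat_lit 142470295727865682718753616898527607918129955956818868234898771373895184773085822904392) (nat_lit 627262504))) (.nod (nat_lit 5375312524744062343137865456515435578979957113320304618535879756880745201736713853017) .nil (.nod (nat_lit 142322562622396431317580063750293895548780082915006981722725803658720070998127599323256) .nil (.dwn (nat_lit 1136969023399592434947460235992553134849491219429789396688374506207075319537741687089152)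 (nat_lit 4909528064)) .dup) (.dwn (nat_lit 142443745064971923056825289267981077203868302942414626855293437297856175832457206466680) (nat_lit 614560768))) (.nod (nat_lit 20662690736244959721448568052962063583145659927226245370083831467544705596639944900608) .nil (.dwn (nat_lit 142322570959426856412219386200008051664544720129129775895562027293667261091001900466176) (nat_lit 614560768)) .dup)) (.nod (nat_lit 292296908135694255589579614592688139942993185047047334089178933464) .nil .nil (.dwn (nat_lit 210624796758573376542982025784181253699307321987022063782558957578) (nat_lit 90391592))) .nil .nil l3188 = true := by decide +kernel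
theorem cw14294 : wchk (nat_lit 5) [] [l3188] (nat_lit 0) (nat_lit 3) (nat_lit 3) (nat_lit 0) (nat_lit 5820672) (nat_lit 0) w14294 = true := by decide +kernel
theorem cw14295 : wchk (nat_lit 5) [w1312, w368] [] (nat_lit 17) (nat_lit 2) (nat_lit 1) (nat_lit 2) (nat_lit 625764352) (nat_lit 21712900) w14295 = true := by decide +kernel
theorem cw14296 : wchk (nat_lit 5) [w267] [] (nat_lit 1) (nat_lit 0) (nat_lit 1) (nat_lit 2) (nat_lit 23153664) (nat_lit 16777297) w14296 = true := by decide +kernel
theorem cw14297 : wchk (nat_lit 5) [w351, w162] [] (nat_lit 17) (nat_lit 2) (nat_lit 4) (nat_lit 2) (nat_lit 613256192) (nat_lit 18688004) w14297 = true := by decide +kernel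
theorem cw14301 : wchk (nat_lit 5) [w391, w162] [] (nat_lit 1) (nat_lit 2) (nat_lit 4) (nat_lit 2) (nat_lit 613127168) (nat_lit 18688004) w14301 = true := by decide +kernel
theorem cl3189 : lchk (nat_lit 5) [w8755, w8255, w2645, w1637, w5606, w11326, w2089, w13048, w14301, w241, w390, w162, w7266, w7265, w8752, w13047, w14215, w11054, w1986, w7250, w14296, w8751, w7313, w8750, w7252, w497, w14297] (nat_lit 21662720) (.nod (nat_lit 210625600227595506052862683098859830710670399304860320307504742538) (.nod (nat_lit 20662675914857537344977172825955573403796063191920098923530277381149577413285905893400) .nil (.dwn (nat_lit 145034987681096993710589509904750547415888094829546401685786663818824622035477552357424) (nat_lit 627262496)) .dup) (.nod (nat_lit 20556442694170940076007972874582853148437650277021738330020649952048855169026959419472) .nil (.nod (nat_lit 144995154276062643032974125323872140732921830474115367630573876029657203138139526600816) .nil (.nod (nat_lit 1139535376274551766002817952881669848912936765024313824116392293588424958028499551328256) .nil (.opn (nat_lit 9096707158831138040488933923230803290543619203979171749856342531802665667945093903226880))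 .dup) (.dwn (nat_lit 1139535376274551766002817952881669848912936765024313824116392293588424958028499551328256) (nat_lit 4920609792))) (.dwn (nat_lit 5043317036037595703708996153059296410795500658444649590091999606922407248811441971328) (nat_lit 625642496))) (.nod (nat_lit 20662690736244959721448568052962063583145659883670102404203768174807912131714050365592) (.dwn (nat_lit 144888922908049473569047539650340071775393556784085751677426480247644287755508282222768) (nat_lit 625642496)) .nil .nil)) (.nod (nat_lit 273489255048873150311190379577611787181741992388969971032532773064) .nil .nil (.dwn (nat_lit 210624796758573376542982025784181253699307321691874158603206131722) (nat_lit 90391584))) .nil .nil l3189 = true := by decide +kernel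
theorem cw14302 : wchk (nat_lit 5) [] [l3189] (nat_lit 0) (nat_lit 3) (nat_lit 3) (nat_lit 0) (nat_lit 5820672) (nat_lit 0) w14302 = true := by decide +kernel
theorem cw14303 : wchk (nat_lit 5) [w716, w16] [] (nat_lit 2) (nat_lit 2) (nat_lit 4) (nat_lit 2) (nat_lit 81101824) (nat_lit 17476612) w14303 = true := by decide +kernel
theorem cw14304 : wchk (nat_lit 5) [w112, w16] [] (nat_lit 1) (nat_lit 2) (nat_lit 3) (nat_lit 2) (nat_lit 88764416) (nat_lit 21662724) w14304 = true := by decide +kernel
theorem cw14305 : wchk (nat_lit 5) [w337] [] (nat_lit 0) (nat_lit 0) (nat_lit 1) (nat_lit 2) (nat_lit 205) (nat_lit 123888640) w14305 = true := by decide +kernel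
theorem cw14306 : wchk (nat_lit 5) [] [l3154] (nat_lit 0) (nat_lit 3) (nat_lit 1) (nat_lit 0) (nat_lit 5820672) (nat_lit 0) w14306 = true := by decide +kernel
theorem cw14307 : wchk (nat_lit 5) [] [l3154] (nat_lit 0) (nat_lit 3) (nat_lit 1) (nat_lit 0) (nat_lit 5820672) (nat_lit 0) w14307 = true := by decide +kernel
theorem cw14308 : wchk (nat_lit 5) [] [l1998] (nat_lit 0) (nat_lit 0) (nat_lit 3) (nat_lit 1) (nat_lit 5415680) (nat_lit 0) w14308 = true := by decide +kernel
theorem cw14309 : wchk (nat_lit 5) [w16] [] (nat_lit 0) (nat_lit 0) (nat_lit 2) (nat_lit 2) (nat_lit 421) (nat_lit 22307840) w14309 = true := by decide +kernel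
theorem cw14310 : wchk (nat_lit 5) [w78] [] (nat_lit 0) (nat_lit 1) (nat_lit 3) (nat_lit 2) (nat_lit 33554473) (nat_lit 21727232) w14310 = true := by decide +kernel
theorem cw14311 : wchk (nat_lit 5) [w539] [] (nat_lit 1) (nat_lit 1) (nat_lit 2) (nat_lit 2) (nat_lit 151873536) (nat_lit 33554477) w14311 = true := by decide +kernel
theorem cl3190 : lchk (nat_lit 5) [w14310, w33, w2204, w539, w4659, w404, w14311, w4695] (nat_lit 23282688) .nil (.nod (nat_lit 286536393041824692515401212840350575832569033915421341584914907136) (.nod (nat_lit 141114971728275256223885164473662306429029909637277690425662459928) .nil .nil (.dwn (nat_lit 7771114016390670289128100114216907700582670661754428808562617178152) (nat_lit 23282712))) .nil (.nod (nat_lit 234702993209104966838500674545961892928984698126292607625500557395) .nil .nil (.nod (nat_lit 10459765452210863907907378810046117987847987240) .nil (.dwn (nat_lit 20083335670618257969616492849972777427324071528039621647771729771681653399431887716754) (nat_lit 86721536)) .dup))) .nil (.nod (nat_lit 10108528715334006637093572558441775188305510400) .nil (.dwn (nat_lit 20933253310967014438143757434208066948980124517402673752948690540690476303318419671040)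 (nat_lit 90391552)) .dup) l3190 = true := by decide +kernel
theorem cw14312 : wchk (nat_lit 5) [] [l3190] (nat_lit 273) (nat_lit 1) (nat_lit 1) (nat_lit 0) (nat_lit 22597888) (nat_lit 0) w14312 = true := by decide +kernel
theorem cw14313 : wchk (nat_lit 5) [] [l871] (nat_lit 2) (nat_lit 1) (nat_lit 3) (nat_lit 0) (nat_lit 20648192) (nat_lit 0) w14313 = true := by decide +kernel
theorem cw14314 : wchk (nat_lit 5) [w33] [] (nat_lit 0) (nat_lit 1) (nat_lit 1) (nat_lit 2) (nat_lit 16777289) (nat_lit 22823936) w14314 = true := by decide +kernel
theorem cl3191 : lchk (nat_lit 5) [w4658, w4659, w4695, w14313, w14314, w78, w4693, w802, w539, w404, w473, w1804, w4913, w4692] (nat_lit 615220224) (.nod (nat_lit 7874780652851464620513633355763113955126046486127762060614819643392) .nil (.dwn (nat_lit 20933256089977156133732450123306604782935580052425135987069111337989796331235874080800) (nat_lit 90391568)) (.dwn (nat_lit 20933256089977156133732450123306604782935580052425135987069111337989796331235874080800) (nat_lit 90391568))) (.nod (nat_lit 210625098059456675115076696624616398865150489372146311680606863360) (.nod (nat_lit 291575995555588566077214601849011585870950796245702180795164610624)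 .nil .nil (.dwn (nat_lit 7771113865740228639847761782157961543598676675888193951784494520400) (nat_lit 11240448))) .nil (.nod (nat_lit 83432775642879489194455842311563529300186626936276922751581118504) .nil .nil (.nod (nat_lit 418604533195575735071966768215060626233363859560) .nil (.dwn (nat_lit 1634444979385379244280780976994353753532528690731225087518287469858448333261817071534482) (nat_lit 7057671168)) .dup))) .nil .nil l3191 = true := by decide +kernel
theorem cw14315 : wchk (nat_lit 5) [] [l3191] (nat_lit 17) (nat_lit 3) (nat_lit 4) (nat_lit 0) (nat_lit 5820672) (nat_lit 0) w14315 = true := by decide +kernel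
theorem cw14316 : wchk (nat_lit 5) [] [l3190] (nat_lit 17) (nat_lit 1) (nat_lit 4) (nat_lit 0) (nat_lit 5820672) (nat_lit 0) w14316 = true := by decide +kernel
theorem cw14317 : wchk (nat_lit 5) [] [l758] (nat_lit 281) (nat_lit 1) (nat_lit 4) (nat_lit 0) (nat_lit 1227546880) (nat_lit 0) w14317 = true := by decide +kernel
theorem cw14318 : wchk (nat_lit 5) [] [l1064] (nat_lit 17) (nat_lit 3) (nat_lit 2) (nat_lit 0) (nat_lit 154708224) (nat_lit 0) w14318 = true := by decide +kernel
theorem cl3192 : lchk (nat_lit 5) [w7712, w1170, w33, w539, w78, w1804, w4658, w12743, w14312, w14317, w3241, w14315, w14316, w6230, w128, w6231, w91, w912, w80, w3299, w216, w14318, w8025, w14309, w6237, w13663, w12997] (nat_lit 22114304) (.nod (nat_lit 285096576554168637228515617527871829506978906188070424339615318098) (.nod (nat_lit 286536436981536840257018420587818960982240300176804270899307538472) (.nod (nat_lit 11244774237329364010730590843251993949953544370786508464073709357120) .nil (.dwn (nat_lit 1139910543570017384436314560650553133078470849018570318702747335367714505900904084310088) (nat_lit 4922229796)) (.dwn (nat_lit 1139910543570017384436314560650553133078470849018570318702747335367714505900904084310088)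 (nat_lit 4922229796))) .nil (.nod (nat_lit 11231815888940459513148620460939354814749466981819446539041438631984) (.dwn (nat_lit 1139910545422690812233373687578339334866757269089628947001236750567544331466483497607288) (nat_lit 4922229796)) .nil .nil)) (.nod (nat_lit 219405696279967625756535107220939147680109801583737166856505987216) .nil .nil (.dwn (nat_lit 7862543116609038046247027249717481272916393791116205459677668608168) (nat_lit 626094080))) .nil) .nil .nil (.nod (nat_lit 608785315471234242898060450714174447697957128376) .nil (.dwn (nat_lit 20782215962439286989892378218498494580982844804446825786835039958228345768202173677970) (nat_lit 89739368)) (.dwn (nat_lit 20782215962439286989892378218498494580982844804446825786835039958228345768202173677970) (nat_lit 89739368))) l3192 = true := by decide +kernel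
theorem cw14320 : wchk (nat_lit 5) [] [l3192] (nat_lit 36) (nat_lit 1) (nat_lit 1) (nat_lit 0) (nat_lit 22597888) (nat_lit 0) w14320 = true := by decide +kernel
theorem cw14321 : wchk (nat_lit 5) [w14320, w16] [] (nat_lit 17) (nat_lit 2) (nat_lit 0) (nat_lit 2) (nat_lit 90391552) (nat_lit 23211012) w14321 = true := by decide +kernel
theorem cw14322 : wchk (nat_lit 5) [] [l1998] (nat_lit 0) (nat_lit 0) (nat_lit 3) (nat_lit 1) (nat_lit 5415680) (nat_lit 0) w14322 = true := by decide +kernel
theorem cl3193 : lchk (nat_lit 5) [w14269, w6613, w2839, w12203, w2936, w10049, w14303, w7424, w2051, w8419, w14280, w16, w5481, w6167, w8449, w13553, w14295, w10822, w14302, w284, w8128, w14270, w12634, w11320, w14276, w14277, w14278, w14279, w12522, w12366, w10059, w14281, w14282, w14283, w14284, w14285, w8417, w14294, w8759, w7082, w12628, w12517, w3977, w14305, w14091, w11065, w14306, w14307, w14304, w13801, w7083, w8330, w14308, w34, w14321, w14322] (nat_lit 23282688) (.nod (nat_lit 271958251104307132727669480694009366700121052853069096287387275297) (.nod (nat_lit 5244165362345074883662432198677593111729368011804631535986512114320949476155083395104) .nil (.dwn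 (nat_lit 5391907731181465262257648476512948086233940741761933247631983488887199948645549377608) (nat_lit 895697960)) (.dwn (nat_lit 5391907731181465262257648476512948086233940741761933247631983488887199948645549377608) (nat_lit 895697960))) (.nod (nat_lit 5375312524744062343129046580528542240347782825357536318173237906850865234656725473376) .nil (.nod (nat_lit 1139639968026581335077290592692440616453490410416470513213478015463500226880137992915064) .nil (.nod (nat_lit 5390252367473728589635667140225511910545621694646257526297946262858561246670511099992) (.dwn (nat_lit 5375317966972256989168538164111848316086302758932958483959548308635108420468520343688) (nat_lit 39281968128)) .nil .nil) .dup) (.nod (nat_lit 5121341451112554950324079484532360300970005254301285289927452582122409038157548439736) (.dwn (nat_lit 20933275543048148003986543844785508625896434689654801792628376606427359370037946697944) (nat_lit 90391592)) .nil .nil)) (.nod (nat_lit 5044989073806182551268328254804350808431233236922298112050691992996312168098053916928) (.dwn (nat_lit 145264092982525233636339693603659642030715974640947489402217837132555938743009171376424) (nat_lit 1164133416)) .nil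 .nil)) (.nod (nat_lit 284288531524874045177631803760244413468833920206758148816800764224) .nil .nil (.nod (nat_lit 1115988391866352773389672372028021416317502388097124962147387214168) (.dwn (nat_lit 20933294069782425974566924309592372058284217812726282247236206241570469621145474980200) (nat_lit 90391740)) .nil .nil)) .nil (.nod (nat_lit 292298012905599683660927349011378490601048348150462341220460585368) .nil (.dwn (nat_lit 292298213772855216034984986774357774849911843667510376985082104248) (nat_lit 90391552)) .dup) l3193 = true := by decide +kernel
theorem cw14323 : wchk (nat_lit 5) [] [l3193] (nat_lit 1745) (nat_lit 1) (nat_lit 1) (nat_lit 0) (nat_lit 1230557440) (nat_lit 0) w14323 = true := by decide +kernel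
theorem cw14324 : wchk (nat_lit 5) [w14323, w710] [] (nat_lit 2) (nat_lit 2) (nat_lit 2) (nat_lit 2) (nat_lit 23282688) (nat_lit 22121476) w14324 = true := by decide +kernel
theorem cw14325 : wchk (nat_lit 5) [] [l3143] (nat_lit 0) (nat_lit 1) (nat_lit 4) (nat_lit 0) (nat_lit 5820672) (nat_lit 0) w14325 = true := by decide +kernel
theorem cw14326 : wchk (nat_lit 5) [w7230, w34] [] (nat_lit 0) (nat_lit 1) (nat_lit 1) (nat_lit 2) (nat_lit 21777408) (nat_lit 23282692) w14326 = true := by decide +kernel
theorem cw14328 : wchk (nat_lit 5) [w5594] [] (nat_lit 26) (nat_lit 0) (nat_lit 2) (nat_lit 2) (nat_lit 209) (nat_lit 85545984) w14328 = true := by decide +kernel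
theorem cw14334 : wchk (nat_lit 5) [] [l3031] (nat_lit 281) (nat_lit 1) (nat_lit 4) (nat_lit 0) (nat_lit 19343616) (nat_lit 0) w14334 = true := by decide +kernel
theorem cw14336 : wchk (nat_lit 5) [] [l1141] (nat_lit 1) (nat_lit 1) (nat_lit 1) (nat_lit 0) (nat_lit 21257472) (nat_lit 0) w14336 = true := by decide +kernel
theorem cw14339 : wchk (nat_lit 5) [] [l1048] (nat_lit 1) (nat_lit 1) (nat_lit 0) (nat_lit 0) (nat_lit 4888832) (nat_lit 0) w14339 = true := by decide +kernel
theorem cw14355 : wchk (nat_lit 5) [w8829, w16] [] (nat_lit 1) (nat_lit 1) (nat_lit 2) (nat_lit 2) (nat_lit 77947904) (nat_lit 22307844) w14355 = true := by decide +kernel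
theorem cw14359 : wchk (nat_lit 5) [] [l860] (nat_lit 1) (nat_lit 2) (nat_lit 4) (nat_lit 0) (nat_lit 20648192) (nat_lit 0) w14359 = true := by decide +kernel
theorem cw14362 : wchk (nat_lit 5) [w281] [] (nat_lit 0) (nat_lit 1) (nat_lit 2) (nat_lit 2) (nat_lit 161) (nat_lit 18035712) w14362 = true := by decide +kernel
theorem cw14363 : wchk (nat_lit 5) [w281] [] (nat_lit 1) (nat_lit 2) (nat_lit 2) (nat_lit 2) (nat_lit 289) (nat_lit 18035712) w14363 = true := by decide +kernel
theorem cw14364 : wchk (nat_lit 5) [] [] (nat_lit 0) (nat_lit 0) (nat_lit 2) (nat_lit 2) (nat_lit 205) (nat_lit 161) w14364 = true := by decide +kernel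
theorem cw14365 : wchk (nat_lit 5) [] [l1700] (nat_lit 18) (nat_lit 3) (nat_lit 1) (nat_lit 0) (nat_lit 2776064) (nat_lit 0) w14365 = true := by decide +kernel
theorem cw14366 : wchk (nat_lit 5) [] [l1700] (nat_lit 4) (nat_lit 3) (nat_lit 2) (nat_lit 0) (nat_lit 19553280) (nat_lit 0) w14366 = true := by decide +kernel
theorem cw14367 : wchk (nat_lit 5) [] [l1700] (nat_lit 4) (nat_lit 3) (nat_lit 2) (nat_lit 0) (nat_lit 19553280) (nat_lit 0) w14367 = true := by decide +kernel
theorem cw14368 : wchk (nat_lit 5) [] [l2319] (nat_lit 1) (nat_lit 2) (nat_lit 3) (nat_lit 0) (nat_lit 1371136) (nat_lit 0) w14368 = true := by decide +kernel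
theorem cw14369 : wchk (nat_lit 5) [] [l1700] (nat_lit 4) (nat_lit 3) (nat_lit 2) (nat_lit 0) (nat_lit 19553280) (nat_lit 0) w14369 = true := by decide +kernel
theorem cw14370 : wchk (nat_lit 5) [] [l1700] (nat_lit 4) (nat_lit 3) (nat_lit 2) (nat_lit 0) (nat_lit 19553280) (nat_lit 0) w14370 = true := by decide +kernel
theorem cl3199 : lchk (nat_lit 5) [w774, w33, w1053, w3778, w14339, w10490, w14366, w14367, w14368, w14369, w14370] (nat_lit 6452224) (.nod (nat_lit 22836015486779863922693891603391481710922170368) (.nod (nat_lit 4289666159670602224196329310507654666946438885256725669408385063608286187709169401856) .nil (.nod (nat_lit 3885339868709064413530441437924767969678573040964286919864182406052640764435735308288) .nil (.opn (nat_lit 1136012866054200083920367063335288434137625349919798406909242393961501327448041473763328)) .dup) .nil) (.nod (nat_lit 68780501006966946866658233126908014180882893145378706270840918081644850711625728) .nil (.dwn (nat_lit 142978251538595227506184260299659685171869148942141118272365429583146530642518991261720) (nat_lit 610432000)) (.opn (nat_lit 142978251538595227506184260299659685171869148942141118272365429583146530642518991261720)))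 .nil) .nil .nil (.nod (nat_lit 11418012167060701933546969810994713414422495232) (.opn (nat_lit 17035584132180139071680505871225008583653432445631539435956219618061156927530046849024)) .nil (.nod (nat_lit 20827017311270275535280473907741913203668198843399462837959481836501079874273686847488) (.opn (nat_lit 145264067971433958376041480756472905310604833272599294956097157660164171188756910868560)) .nil .nil)) l3199 = true := by decide +kernel
theorem cw14371 : wchk (nat_lit 5) [] [l3199] (nat_lit 0) (nat_lit 0) (nat_lit 1) (nat_lit 1) (nat_lit 5820672) (nat_lit 0) w14371 = true := by decide +kernel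
theorem cw14372 : wchk (nat_lit 5) [] [l1700] (nat_lit 18) (nat_lit 1) (nat_lit 1) (nat_lit 0) (nat_lit 2776064) (nat_lit 0) w14372 = true := by decide +kernel
theorem cw14374 : wchk (nat_lit 5) [w831] [] (nat_lit 0) (nat_lit 1) (nat_lit 2) (nat_lit 2) (nat_lit 161) (nat_lit 18064384) w14374 = true := by decide +kernel
theorem cl3205 : lchk (nat_lit 5) [w1564, w281, w3794, w652, w248, w1424] (nat_lit 13455360) .nil (.nod (nat_lit 18761980381267353783298770003808340827315597313510357191000569523409147189942938501120) (.nod (nat_lit 421250089408183848633744525944720572284790445511045249892846927872) .nil .nil (.nod (nat_lit 210624696324945610367507832912164796513759926344788009536318341120) (.opn (nat_lit 18647441509811853061058270850965299574134690331535818617349642507339725449848424497152)) .nil (.dwn (nat_lit 1137638004321298961129229253251938794253362008873026814303006908350745172625753345359872) (nat_lit 4912402432)))) .nil (.dwn (nat_lit 39137726162212874056895591363756212646127714018267699131447612907998660247158784) (nat_lit 114075656))) (.nod (nat_lit 5828008760934793484449903344748286876326688892565321763580289621325317905818446946344) .nil (.opn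 (nat_lit 18657399629486262253864695432281149108819233523822200362846741823606002393168150700032)) .dup) .nil l3205 = true := by decide +kernel
theorem cw14389 : wchk (nat_lit 5) [] [l3205] (nat_lit 1) (nat_lit 2) (nat_lit 4) (nat_lit 0) (nat_lit 30986496) (nat_lit 0) w14389 = true := by decide +kernel
theorem cw14398 : wchk (nat_lit 5) [w2015, w16] [] (nat_lit 1) (nat_lit 1) (nat_lit 1) (nat_lit 2) (nat_lit 22823936) (nat_lit 22630404) w14398 = true := by decide +kernel
theorem cw14399 : wchk (nat_lit 5) [w1304] [] (nat_lit 0) (nat_lit 2) (nat_lit 2) (nat_lit 2) (nat_lit 17935360) (nat_lit 33554477) w14399 = true := by decide +kernel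
theorem cl3207 : lchk (nat_lit 5) [w4209, w401, w1, w69, w1501, w83, w3565, w91, w80, w14399, w81, w76, w79, w82, w4259, w66, w8514, w11394] (nat_lit 11111424) (.nod (nat_lit 7869021393177942134765499206064621702793015902754957351895305289728) (.nod (nat_lit 1075041652042892260582074663146324498909828782780410648209427267995) (.nod (nat_lit 22944090383966268595212079144) .nil (.nod (nat_lit 1137091863058549091155802067201993391534826819178636341488342198150022018825677963264026) .nil (.opn (nat_lit 9094263645615135366134919057637720501316220848141089395432842803127134816258062806095872)) .dup) .nil) .nil (.nod (nat_lit 7815028519697807741985397918767011552185614413583068548201311109722) (.opn (nat_lit 1137091863058549091217443940614176822997591806644690112131600267627807511452230125557760)) .dup .dup)) .nil (.nod (nat_lit 271958546128088695895972434859171107105505591024557084431962507336) (.dwn (nat_lit 143934415368344575823036210472189675425753483991927826189406233540510063207841815775344) (nat_lit 615091200)) .nil .nil)) .nil .nil (.nod (nat_lit 11937908497972454894527022626185215316798210048) .nil (.dwn (nat_lit 20070071455211944924798331946498062210103663742033944254509174666266431213714619549832)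 (nat_lit 86664260)) (.dwn (nat_lit 20070071455211944924798331946498062210103663742033944254509174666266431213714619549832) (nat_lit 86664260))) l3207 = true := by decide +kernel
theorem cw14400 : wchk (nat_lit 5) [] [l3207] (nat_lit 2258) (nat_lit 1) (nat_lit 1) (nat_lit 0) (nat_lit 22597888) (nat_lit 0) w14400 = true := by decide +kernel
theorem cw14408 : wchk (nat_lit 5) [w5841, w16] [] (nat_lit 1) (nat_lit 1) (nat_lit 1) (nat_lit 2) (nat_lit 90319872) (nat_lit 22630404) w14408 = true := by decide +kernel
theorem cw14410 : wchk (nat_lit 5) [w721, w16] [] (nat_lit 1) (nat_lit 1) (nat_lit 1) (nat_lit 2) (nat_lit 90334208) (nat_lit 22630404) w14410 = true := by decide +kernel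
theorem cw14414 : wchk (nat_lit 5) [] [l2472] (nat_lit 0) (nat_lit 1) (nat_lit 1) (nat_lit 0) (nat_lit 5820672) (nat_lit 0) w14414 = true := by decide +kernel
theorem cl3208 : lchk (nat_lit 5) [w6758, w721, w16, w5358, w8633, w5841, w8040, w55, w54, w6961, w12, w29, w43, w9939, w9206] (nat_lit 593055744) (.nod (nat_lit 210624803035675111929662789619970676906114754383538778749863460875) (.nod (nat_lit 286536393041824692492565219131642194849936805148596356224597444617) (.nod (nat_lit 2222094014326900040619070114407462509096980449229579625693514) .nil (.nod (nat_lit 126446891477093076508286685273310279932534414468378811656310005784) .nil (.dwn (nat_lit 286446599101499986039410734391400704658158329967983883282423506984) (nat_lit 39280398364)) (.dwn (nat_lit 286446599101499986039410734391400704658158329967983883282423506984) (nat_lit 39280398364))) (.dwn (nat_lit 1139547003652984620346175234109682343494369536361413270568420834720916704543951864127560) (nat_lit 4920659996))) (.nod (nat_lit 2222094014327311209935929783368962315622490050921921576436042) (.opn (nat_lit 285097172878833498955495123774355624859900392317177765785900877928)) .nil .dup) .nil) .nil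 .nil) .nil .nil .nil l3208 = true := by decide +kernel
theorem cw14415 : wchk (nat_lit 5) [] [l3208] (nat_lit 17) (nat_lit 3) (nat_lit 0) (nat_lit 0) (nat_lit 156815616) (nat_lit 0) w14415 = true := by decide +kernel
theorem cw14439 : wchk (nat_lit 5) [] [l537] (nat_lit 1) (nat_lit 2) (nat_lit 3) (nat_lit 0) (nat_lit 20210944) (nat_lit 0) w14439 = true := by decide +kernel
theorem cl3214 : lchk (nat_lit 5) [w2671, w831, w315, w39, w3593, w1399, w411, w359, w976, w888, w1099, w14439, w5336, w61, w31, w819] (nat_lit 85804032) (.nod (nat_lit 11418012167060701933546970991586334131833798656) .nil (.nod (nat_lit 19831017297476434880234294491111287029517708391094856411705137752871476401589419245568) .nil (.dwn (nat_lit 144400867588944610892057183363914915320939783712625011421075765444037734349735783122984) (nat_lit 4917642240)) .dup) (.nod (nat_lit 4087151353614819590595333232755459397646918154004793969633405624425555464481883029504) (.dwn (nat_lit 142355757898538985132299121750624435589472141107329794739582317085175931344061891004512) (nat_lit 4917642240)) .nil .nil)) (.nod (nat_lit 11418012167060701933546972172177954849245102080) .nil (.nod (nat_lit 245502219468291978562416229930602690353724667378146020246849323008)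 .nil .nil (.opn (nat_lit 234703646027685447416143723989574180701717577476890852039577305088))) .nil) .nil .nil l3214 = true := by decide +kernel
theorem cw14440 : wchk (nat_lit 5) [] [l3214] (nat_lit 1) (nat_lit 3) (nat_lit 1) (nat_lit 0) (nat_lit 5820672) (nat_lit 0) w14440 = true := by decide +kernel
theorem cw14442 : wchk (nat_lit 5) [w42, w69] [] (nat_lit 0) (nat_lit 1) (nat_lit 2) (nat_lit 2) (nat_lit 22816768) (nat_lit 17655812) w14442 = true := by decide +kernel
theorem cw14461 : wchk (nat_lit 5) [] [l234] (nat_lit 17) (nat_lit 3) (nat_lit 4) (nat_lit 0) (nat_lit 4630784) (nat_lit 0) w14461 = true := by decide +kernel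
theorem cw14462 : wchk (nat_lit 5) [] [l2397] (nat_lit 1) (nat_lit 3) (nat_lit 4) (nat_lit 0) (nat_lit 4903168) (nat_lit 0) w14462 = true := by decide +kernel
theorem cw14463 : wchk (nat_lit 5) [] [l453] (nat_lit 1) (nat_lit 3) (nat_lit 4) (nat_lit 0) (nat_lit 4609280) (nat_lit 0) w14463 = true := by decide +kernel
theorem cl3221 : lchk (nat_lit 5) [w823, w91, w4, w33, w808, w6, w812, w2572, w4036, w142, w4035, w820, w10082, w9994, w809, w834] (nat_lit 18523136) (.nod (nat_lit 958956403785910655335384188234396867472841495094409934281681928192) (.nod (nat_lit 234703043425918849929414953753956598784768563935010156378016710656) .nil .nil (.nod (nat_lit 232543419128062533140306854630149066740808057502669401361699831808) (.opn (nat_lit 61734921552698204035685013388853285967917233644769942186735663663104)) .nil .dup)) .nil (.nod (nat_lit 232543469344876416234065181193761751861170152009420867839595642880) .nil (.nod (nat_lit 144155191976378154069478816402001087139907333693430423973083856953112509438097736335360) (.dwn (nat_lit 1138793367598005049304864744674867012572732161015449519593038920630475307721691743291496) (nat_lit 4917470208)) .nil .nil) .dup)) .nil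 .nil (.nod (nat_lit 12293993578013201559289702590999661730462695424) .nil .nil (.dwn (nat_lit 4289678202047882905080653361890095570500273497986421160375822117024428677064107753472) (nat_lit 85632060))) l3221 = true := by decide +kernel
theorem cw14484 : wchk (nat_lit 5) [] [l3221] (nat_lit 4) (nat_lit 2) (nat_lit 1) (nat_lit 0) (nat_lit 22597888) (nat_lit 0) w14484 = true := by decide +kernel
theorem cl3222 : lchk (nat_lit 5) [] (nat_lit 461) .nil .nil (.nod (nat_lit 22835993708708380981394301455793015945036824576) .nil .nil (.dwn (nat_lit 210629567355892270431780574929275076408436729180739331505893933056) (nat_lit 16777613))) (.nod (nat_lit 1237942732510015036493660160) .nil (.nod (nat_lit 3885355616433200688533019043578729151222623081681917551150486900741899248196864966656) (.opn (nat_lit 3885340795045778312060004826492648039181835940625155499916973562819810831589802246144)) .nil .nil) .nil) l3222 = true := by decide +kernel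
theorem cl3225 : lchk (nat_lit 5) [] (nat_lit 461) .nil .nil (.nod (nat_lit 22835993708708380981394301455793015945036824576) .nil .nil (.dwn (nat_lit 210629567355892270431780574929275076408436729180739331505893933056) (nat_lit 16777613))) (.nod (nat_lit 1237942732510015036493660160) .nil (.nod (nat_lit 3885355616433200688533019043578729151222623081681917551150486900741899248196864966656) (.opn (nat_lit 3885340795045778312060004826492648039181835940625155499916973562819810831589835800858)) .nil .dup) .nil) l3225 = true := by decide +kernel
theorem cl3226 : lchk (nat_lit 5) [w873, w9076, w4, w861, w5606, w831] (nat_lit 18523136) .nil .nil (.nod (nat_lit 22835993708708380982632228766824985360345333760) .nil .nil (.dwn (nat_lit 234613004678626463333990610113257310503181599739284140148687634432) (nat_lit 85632000))) (.nod (nat_lit 22836015486779863922693891603391481710922170368) .nil (.nod (nat_lit 4289667086007316122725892699075534736449701733194674477472959048340524244278611804160) (.opn (nat_lit 4289668012344030021255456087643414812222741587584794399966362459075844183747267823648)) .nil .dup) (.nod (nat_lit 19831021002823290385670278119367326198098744924091422622860995273233774715835391148032)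 .nil .nil (.dwn (nat_lit 2133494614707471153606977484882174045758131527498893585972102947782759711454978828664832) (nat_lit 9212609552)))) l3226 = true := by decide +kernel
theorem cl3227 : lchk (nat_lit 5) [w5606, w44, w870, w4, w831] (nat_lit 119358464) .nil .nil (.nod (nat_lit 22835993708708380982632228766824985360345333760) .nil .nil (.dwn (nat_lit 244691720092218850342189796356421082346200856916289816811697864704) (nat_lit 18523144))) (.nod (nat_lit 22836015486779863922693891603391481710922170368) .nil (.nod (nat_lit 4289668012344030021255456087643414805952964559354551802597471364001196307583648923648) (.opn (nat_lit 2133494611002124298012859231327902525480118476183365040930134867688698739953601816987648)) .nil .dup) (.nod (nat_lit 19831020076486576487140714730799446128595482097931545297736482957573102652530354028544) .nil (.opn (nat_lit 2133494611002124298012859231327902525480118476183365040930134867688698739953601816987648)) (.dwn (nat_lit 2133494611002124298012859231327902525480118476183365040930134867688698739953601816987648) (nat_lit 9212609536)))) l3227 = true := by decide +kernel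
theorem cw14500 : wchk (nat_lit 5) [] [l662] (nat_lit 33) (nat_lit 3) (nat_lit 2) (nat_lit 0) (nat_lit 155625728) (nat_lit 0) w14500 = true := by decide +kernel
theorem cl3230 : lchk (nat_lit 5) [w5606, w14500, w10156, w10, w7, w7171] (nat_lit 119358464) .nil .nil (.nod (nat_lit 22835993708708380982632228766824985360345333760) .nil .nil (.dwn (nat_lit 292295652715347178264844881379935683283318598404111271764665827328) (nat_lit 86721544))) (.nod (nat_lit 22836015486779863922693891603391481710922170368) .nil (.nod (nat_lit 19831019150149862588611151342231566059092219271771667972611970641912430589225316909056) (.opn (nat_lit 2133494611002124298012859231327902525480118476183365040930134867688698739953601816987648)) .nil (.nod (nat_lit 2133494611002124298012859231327902525480118476183365040930134867688698739953601816987648) .nil (.opn (nat_lit 17053191703295723562674326675732527728537648049223723651692541564340400071047216226797568)) .dup)) (.dwn (nat_lit 4329508828072091893804319876066983458397063653410993546392286869507151657026795339776) (nat_lit 1159545856))) l3230 = true := by decide +kernel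
theorem cw14502 : wchk (nat_lit 5) [w15] [] (nat_lit 0) (nat_lit 0) (nat_lit 2) (nat_lit 2) (nat_lit 17462272) (nat_lit 205) w14502 = true := by decide +kernel
theorem cw14503 : wchk (nat_lit 5) [] [l3094] (nat_lit 2) (nat_lit 0) (nat_lit 2) (nat_lit 0) (nat_lit 5562624) (nat_lit 0) w14503 = true := by decide +kernel
theorem cw14504 : wchk (nat_lit 5) [] [l3091] (nat_lit 2) (nat_lit 0) (nat_lit 2) (nat_lit 0) (nat_lit 5562624) (nat_lit 0) w14504 = true := by decide +kernel
theorem cw14505 : wchk (nat_lit 5) [] [l3178] (nat_lit 2) (nat_lit 0) (nat_lit 2) (nat_lit 0) (nat_lit 4369152) (nat_lit 0) w14505 = true := by decide +kernel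
theorem cl3231 : lchk (nat_lit 5) [w5606, w10003, w854, w4, w315, w831] (nat_lit 118842368) .nil .nil (.nod (nat_lit 421249731613384931592940855955729817966795773399122509227167318016) .nil .nil (.dwn (nat_lit 210625550010781622957982355396681577428229563706525831723441192960) (nat_lit 85173256))) (.nod (nat_lit 421250133347895996340509741446252903257446403949870954925376143360) .nil (.nod (nat_lit 4183428307300435462689548014614003615849888339020042833319481379576514045703159283712) (.opn (nat_lit 2133375091333950254134472584745744437891135242494616167207743353658001990942389290321920)) .nil .dup) (.nod (nat_lit 19724781297779695827104372619949626516430851333238651820351616329208023825645542834176) .nil .nil (.dwn (nat_lit 2133375091333950254250123080183280953340677546540001521870883725772223289870027839242240) (nat_lit 9212093440)))) l3231 = true := by decide +kernel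
theorem cw14506 : wchk (nat_lit 5) [] [l3231] (nat_lit 2) (nat_lit 0) (nat_lit 2) (nat_lit 0) (nat_lit 5820672) (nat_lit 0) w14506 = true := by decide +kernel
theorem cw14507 : wchk (nat_lit 5) [w2732] [] (nat_lit 0) (nat_lit 0) (nat_lit 3) (nat_lit 2) (nat_lit 6982656) (nat_lit 201) w14507 = true := by decide +kernel
theorem cw14508 : wchk (nat_lit 5) [w2726] [] (nat_lit 0) (nat_lit 0) (nat_lit 3) (nat_lit 2) (nat_lit 6982656) (nat_lit 201) w14508 = true := by decide +kernel
theorem cw14509 : wchk (nat_lit 5) [] [] (nat_lit 33) (nat_lit 0) (nat_lit 2) (nat_lit 2) (nat_lit 333) (nat_lit 301) w14509 = true := by decide +kernel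
theorem cw14510 : wchk (nat_lit 5) [] [l479] (nat_lit 1) (nat_lit 0) (nat_lit 3) (nat_lit 0) (nat_lit 4480256) (nat_lit 0) w14510 = true := by decide +kernel
theorem cl3232 : lchk (nat_lit 5) [w14509, w13, w6204, w14510, w1475, w10099, w5793, w899] (nat_lit 23225344) .nil (.nod (nat_lit 103715890692895051945916597926917246406067486720) .nil (.nod (nat_lit 224984282134240476684971249997132264976591261806819488340667006976) .nil .nil .nil) (.nod (nat_lit 5385753288961772095510623095549763792978407943203687105560576) .nil (.nod (nat_lit 269594874294870477211423571673322127208136236651433009227213059630443138741984628310016) (.opn (nat_lit 4540329169104688729931022224582941972642492308760308042147571379923167758404727035952)) .nil (.dwn (nat_lit 4540329169104688729931022224582941978118411033420465224578824566969727513040324352048) (nat_lit 4922172416))) (.nod (nat_lit 14507861096081104113399361290393655585165806109575410142432530006016) .nil .nil (.dwn (nat_lit 210624746541759493449535915097865868037735979666449909457908713472) (nat_lit 4922172416))))) .nil .nil l3232 = true := by decide +kernel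
theorem cw14511 : wchk (nat_lit 5) [] [l3232] (nat_lit 289) (nat_lit 2) (nat_lit 0) (nat_lit 0) (nat_lit 1767428352) (nat_lit 0) w14511 = true := by decide +kernel
theorem cw14512 : wchk (nat_lit 5) [] [l676] (nat_lit 2) (nat_lit 0) (nat_lit 2) (nat_lit 0) (nat_lit 3433728) (nat_lit 0) w14512 = true := by decide +kernel
theorem cw14513 : wchk (nat_lit 5) [w220] [] (nat_lit 1) (nat_lit 3) (nat_lit 3) (nat_lit 2) (nat_lit 297) (nat_lit 7097344) w14513 = true := by decide +kernel
theorem cl3233 : lchk (nat_lit 5) [w14503, w5606, w2007, w903, w14511, w14512, w14513, w32, w1739, w4238, w864, w9899, w1326, w1751, w1726, w1765, w14504, w14505, w4189, w861, w10266, w4935, w14506, w14507, w5795, w14508, w5806, w5803] (nat_lit 23282688) .nil (.nod (nat_lit 80879927609599693853214079794679079341870022656) .nil (.nod (nat_lit 1075041652042892260524465000664638989994786487877555682897379196928) .nil .nil (.dwn (nat_lit 232543368911248650050412137616699682837394058763500967729196695552) (nat_lit 23282712))) (.nod (nat_lit 1075041903126961675991695554096215918301443131971773461458759712768) .nil (.nod (nat_lit 4209992865244903594978841975710756761237618596295427690563650141815090628650248175616)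 (.opn (nat_lit 2133494621191828150896684428602149206238442185305900464042443732522431322253566026614896)) .nil (.dwn (nat_lit 2133494624897175006490802682156420726519747537448985332223715121083964836769399889627272) (nat_lit 4922229760))) (.nod (nat_lit 268716750627920224416455302494287877740216744089372212321702669489326265619462471286784) .nil (.nod (nat_lit 2133375101523654107019359505871691331229456941848445416201318028404045649108270798244016) (.dwn (nat_lit 145264083719158094704903390269101949268578289951966080551972705657283825028234600468696) (nat_lit 39281968128)) .nil .nil) .dup))) .nil .nil l3233 = true := by decide +kernel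
theorem cw14514 : wchk (nat_lit 5) [] [l3233] (nat_lit 290) (nat_lit 1) (nat_lit 2) (nat_lit 0) (nat_lit 1230557440) (nat_lit 0) w14514 = true := by decide +kernel
theorem cw14516 : wchk (nat_lit 5) [] [l56] (nat_lit 4) (nat_lit 2) (nat_lit 3) (nat_lit 0) (nat_lit 19094528) (nat_lit 0) w14516 = true := by decide +kernel
theorem cl3234 : lchk (nat_lit 5) [w848, w91, w4, w33, w808, w6, w812, w2572, w4189, w142, w845, w632, w823, w576] (nat_lit 18523136) (.nod (nat_lit 958956403785910655335384166456325384532779832257843437931105091584) (.nod (nat_lit 234703043425918849929414953753956598784768563935010156378016710656) .nil .nil (.nod (nat_lit 232543419128062533140306854630149066740808057502669401361699831808) (.opn (nat_lit 61734921552698204035685013388853285967917233644769942186735663663104)) .nil .dup)) .nil (.nod (nat_lit 232543469344876416234065181193761751861170152009420867839595642880) .nil (.nod (nat_lit 144155191976378154072861768083783821611822680961620516942515239050871945439659557912576) (.opn (nat_lit 1138808298293159665804367441059573020112293783336661915768614845321910044699589757716480)) .dup .dup) (.dwn (nat_lit 4289674496701027322159570212758438741467114942346769880262561152350202865305729892352)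 (nat_lit 622502912)))) .nil .nil (.nod (nat_lit 12293993578013201559289702590999661730462695424) .nil (.dwn (nat_lit 19598627206060710679984734541022769636540494891027359335958316217790565127953247979616) (nat_lit 84650036)) .dup) l3234 = true := by decide +kernel
theorem cw14518 : wchk (nat_lit 5) [] [l3234] (nat_lit 282) (nat_lit 1) (nat_lit 1) (nat_lit 0) (nat_lit 22597888) (nat_lit 0) w14518 = true := by decide +kernel
theorem cl3235 : lchk (nat_lit 5) [w5158, w1, w91, w808, w9691, w576, w14484, w831, w604, w603, w10134, w850, w3560, w14518] (nat_lit 891103232) .nil (.nod (nat_lit 234702999486206702177055728240799273501683158524385762499889201152) .nil (.nod (nat_lit 958956447725622803074152451282422547210937873553234417304440143872) .nil .nil (.nod (nat_lit 232543368911248650046860741221574745711969020829255033605601624064) (.dwn (nat_lit 19831020076486576488203428104817225065063893121301012380129686115160939831611705690160) (nat_lit 85796864)) .nil .nil)) (.nod (nat_lit 232543569778504182420645194855872029827325167522912504629994455040) .nil (.nod (nat_lit 143929433529497229531044036688105598360652767963768516812724498736390474967310523170816)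 (.dwn (nat_lit 1139060626856005341866257107171081625098095647367347553837615636048753051532042421569632) (nat_lit 4922229812)) .nil .nil) .dup)) .nil (.nod (nat_lit 232543368911248650046860741221574745711969020829255033605601624064) (.opn (nat_lit 92066931289443679385804604951546851783457033771209033440231448793088)) .nil .dup) l3235 = true := by decide +kernel
theorem cw14519 : wchk (nat_lit 5) [] [l3235] (nat_lit 34) (nat_lit 1) (nat_lit 4) (nat_lit 0) (nat_lit 156815616) (nat_lit 0) w14519 = true := by decide +kernel
theorem cw14535 : wchk (nat_lit 5) [] [l92] (nat_lit 0) (nat_lit 3) (nat_lit 2) (nat_lit 0) (nat_lit 4413952) (nat_lit 0) w14535 = true := by decide +kernel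
theorem cl3238 : lchk (nat_lit 5) [w1919, w33, w4, w389, w617, w396, w2415, w1831, w140, w141, w1845, w6077] (nat_lit 22114304) (.nod (nat_lit 315937791462524926566272622347705238938189426724631992732577956235) (.nod (nat_lit 1018168850563664193599037628090414739920219323303571358502072551440) .nil .nil (.dwn (nat_lit 141990554280768059336976591933156758260893540979159065099942522763050933056502579068938) (nat_lit 613127180))) .nil (.nod (nat_lit 3829032058585881579152306630426744334785049558834792770830922) (.opn (nat_lit 1634348705210703770191998045948244879802134488119219276920479744842863995636588599257168)) (.dwn (nat_lit 1634348705210703770191998045948244879802129809849182374474296104066411654074616656373840) (nat_lit 626094080)) .dup)) .nil (.nod (nat_lit 421250089408183848656580404978271300909922545568709136428222644224) .nil .nil (.nod (nat_lit 210624696324945610367507789356021830633636603032838258269987274752) (.opn (nat_lit 144993483164630770085641774870811392974481359277755273802262213394630651246332724043776)) .nil (.dwn (nat_lit 144993483164630770085852397043741440959403199871052694936564196119947005501944161820672) (nat_lit 626094080))))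 .nil l3238 = true := by decide +kernel
theorem cw14572 : wchk (nat_lit 5) [w8233, w16] [] (nat_lit 1) (nat_lit 1) (nat_lit 4) (nat_lit 2) (nat_lit 85567488) (nat_lit 13742084) w14572 = true := by decide +kernel
theorem cl3240 : lchk (nat_lit 5) [w8380, w6714, w93, w220, w86, w15, w6182, w13149, w11288, w6183, w4531, w11291, w201, w659, w2740, w8272, w864, w142, w149, w7240, w7241, w6170, w6171, w6175, w8271, w3183, w8273, w11290] (nat_lit 22114304) .nil (.nod (nat_lit 7770685063854233743605872360114846339000907309889232242412372038571421802376528025609) (.nod (nat_lit 1014929313683251952346429812775627177139274873090075015033202085928) (.nod (nat_lit 285096821361136317707341370315232863431538023072740159709806663752) .nil (.opn (nat_lit 61780005806467934266858062699610111091373646742801998669657797746688)) .dup) .nil (.nod (nat_lit 285096821361136317707341370315232863431538023072740159709806663752) (.opn (nat_lit 1139639955984204054458186274447526109816806056376002219078232160046035159938397471170560)) .dup .dup)) (.nod (nat_lit 18761982118148692343041701357373115957634214978148592241841377043804825335876810379304) .nil .nil (.dwn (nat_lit 3554297464689110124418568253185999779764943053543985921160754883441828460460786227304)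 (nat_lit 626094080))) (.nod (nat_lit 18722152418461197268538757885089138533394242362718755874064669749286906321982062878864) (.dwn (nat_lit 143431445101809232921564543863268315848860351874650287760060592400616456336337653799096) (nat_lit 626094080)) .nil .nil)) .nil (.nod (nat_lit 5378644442111866115676844996120360965158351913388475542031895910194707711750207176704) .nil (.dwn (nat_lit 46548419873402036492087562704838564592806344430481399720269793131295857002414080) (nat_lit 82456684)) (.dwn (nat_lit 46548419873402036492087562704838564592806344430481399720269793131295857002414080) (nat_lit 82456684))) l3240 = true := by decide +kernel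
theorem cw14575 : wchk (nat_lit 5) [] [l3240] (nat_lit 4) (nat_lit 1) (nat_lit 4) (nat_lit 0) (nat_lit 22597888) (nat_lit 0) w14575 = true := by decide +kernel
theorem cl3244 : lchk (nat_lit 5) [w429, w1473, w1538, w39, w5459, w6742, w2635, w812, w3760, w1540, w5132, w2632, w5458, w819] (nat_lit 23153664) (.nod (nat_lit 22836015486779863922693891603391481710922170368) .nil (.nod (nat_lit 19831017297476434791552024565095805920085693479936142884778175990607497415590449301520) .nil (.dwn (nat_lit 144082148473813827216301236615823903897748773580749630163116808126174485133464990574616) (nat_lit 623592472)) .dup) (.nod (nat_lit 20083342154975255259323436569947937913846911308436503988273227786351686328944060196928) (.dwn (nat_lit 144400873146964894283176341467620301184373017672102994691304090027415807492921255848008) (nat_lit 623592472)) .nil .nil)) .nil .nil (.nod (nat_lit 11418012167060701933546972172177954849245102080) (.opn (nat_lit 20083347712995538650500816901355218330866488265395767939019682715018442501506611980392)) .nil (.nod (nat_lit 11417990388989218993485308155019837781426219112) .nil (.opn (nat_lit 7873160809086037675639137334860620041068821127249076737501336606720))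 .dup)) l3244 = true := by decide +kernel
theorem cw14618 : wchk (nat_lit 5) [] [l3244] (nat_lit 0) (nat_lit 1) (nat_lit 4) (nat_lit 0) (nat_lit 5820672) (nat_lit 0) w14618 = true := by decide +kernel
theorem cw14620 : wchk (nat_lit 5) [] [l3019] (nat_lit 0) (nat_lit 1) (nat_lit 3) (nat_lit 0) (nat_lit 4903168) (nat_lit 0) w14620 = true := by decide +kernel
theorem cw14623 : wchk (nat_lit 5) [] [l3244] (nat_lit 0) (nat_lit 1) (nat_lit 3) (nat_lit 0) (nat_lit 1758208) (nat_lit 0) w14623 = true := by decide +kernel
theorem cw14626 : wchk (nat_lit 5) [w281] [] (nat_lit 1) (nat_lit 1) (nat_lit 3) (nat_lit 2) (nat_lit 81080320) (nat_lit 33554513) w14626 = true := by decide +kernel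
theorem cw14630 : wchk (nat_lit 5) [w1379] [] (nat_lit 1) (nat_lit 1) (nat_lit 3) (nat_lit 2) (nat_lit 81101824) (nat_lit 33554513) w14630 = true := by decide +kernel
theorem cw14681 : wchk (nat_lit 5) [w8829, w16] [] (nat_lit 1) (nat_lit 1) (nat_lit 1) (nat_lit 2) (nat_lit 82592768) (nat_lit 23282692) w14681 = true := by decide +kernel
theorem cl3251 : lchk (nat_lit 5) [w572, w154, w4, w33, w848, w141, w4192, w904, w6678, w1367] (nat_lit 21712896) (.nod (nat_lit 290765853974314354920627659789651451168677238350136117462558572626) (.nod (nat_lit 286536436981536840260145403203625426795065917706783147923516098584) (.nod (nat_lit 145131266487456037380755441276502918167823168694289920712686822749675530935090780907560) .nil (.opn (nat_lit 1139546996242290909219436065525918578831870552802742624296935710305586742427552950165504)) .dup) .nil (.dwn (nat_lit 145131266487456037380773439032815432742003084805471973633284019464385251119451238762552) (nat_lit 625692672))) .nil (.nod (nat_lit 286536436981536840260145403203625426795065917706783147923516098584) (.opn (nat_lit 145131266487456037380755441276502918167823168694289920712686822749675530935090780907560)) .nil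 (.dwn (nat_lit 145131266487456037380773439032815432742003084805471973633284019464385251119451238762552) (nat_lit 625692672)))) .nil .nil (.nod (nat_lit 15411230506831051694809188964766933956422733888) .nil (.dwn (nat_lit 20800462016692946326702442840032223586750731675550498764354549672759596339597148160402) (nat_lit 89818148)) .dup) l3251 = true := by decide +kernel
theorem cw14710 : wchk (nat_lit 5) [] [l3251] (nat_lit 34) (nat_lit 1) (nat_lit 1) (nat_lit 0) (nat_lit 22597888) (nat_lit 0) w14710 = true := by decide +kernel
theorem cw14713 : wchk (nat_lit 5) [] [l2306] (nat_lit 18) (nat_lit 3) (nat_lit 1) (nat_lit 0) (nat_lit 5820672) (nat_lit 0) w14713 = true := by decide +kernel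
theorem cw14717 : wchk (nat_lit 5) [w16, w603] [] (nat_lit 17) (nat_lit 0) (nat_lit 2) (nat_lit 2) (nat_lit 21655552) (nat_lit 1162506244) w14717 = true := by decide +kernel
theorem cw14718 : wchk (nat_lit 5) [w220, w603] [] (nat_lit 0) (nat_lit 1) (nat_lit 2) (nat_lit 2) (nat_lit 23275520) (nat_lit 1162506244) w14718 = true := by decide +kernel
theorem cw14719 : wchk (nat_lit 5) [w220, w603] [] (nat_lit 0) (nat_lit 1) (nat_lit 4) (nat_lit 2) (nat_lit 6645760) (nat_lit 1154134020) w14719 = true := by decide +kernel
theorem cw14720 : wchk (nat_lit 5) [] [l2307] (nat_lit 18) (nat_lit 3) (nat_lit 2) (nat_lit 0) (nat_lit 5820672) (nat_lit 0) w14720 = true := by decide +kernel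
theorem cw14721 : wchk (nat_lit 5) [] [l2308] (nat_lit 18) (nat_lit 3) (nat_lit 2) (nat_lit 0) (nat_lit 5820672) (nat_lit 0) w14721 = true := by decide +kernel
theorem cw14722 : wchk (nat_lit 5) [w603] [] (nat_lit 17) (nat_lit 0) (nat_lit 4) (nat_lit 2) (nat_lit 321) (nat_lit 1154134016) w14722 = true := by decide +kernel
theorem cw14723 : wchk (nat_lit 5) [w78, w831] [] (nat_lit 2) (nat_lit 1) (nat_lit 2) (nat_lit 2) (nat_lit 89359360) (nat_lit 22250500) w14723 = true := by decide +kernel
theorem cw14724 : wchk (nat_lit 5) [w75, w603] [] (nat_lit 1) (nat_lit 2) (nat_lit 1) (nat_lit 2) (nat_lit 23282688) (nat_lit 1162563588) w14724 = true := by decide +kernel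
theorem cw14725 : wchk (nat_lit 5) [w112, w603] [] (nat_lit 1) (nat_lit 2) (nat_lit 2) (nat_lit 2) (nat_lit 90334208) (nat_lit 1162506244) w14725 = true := by decide +kernel
theorem cw14726 : wchk (nat_lit 5) [w69, w603] [] (nat_lit 1) (nat_lit 2) (nat_lit 2) (nat_lit 2) (nat_lit 90391552) (nat_lit 1162506244) w14726 = true := by decide +kernel
theorem cl3252 : lchk (nat_lit 5) [w4209, w10987, w1, w603, w83, w4566, w3565, w3688, w91, w14723, w80, w14724, w4259, w521, w8105, w14722, w370, w111, w14725, w267, w114, w721, w14726] (nat_lit 5549056) (.nod (nat_lit 5285663510246390448067912918729369583847869717319952572394941094262625050636847153234) .nil (.nod (nat_lit 20782195583031581236837043608180194866706828219535606005180877014551187968582948839449) (.nod (nat_lit 7874780803501906269787673826165114379420999274266848204772547715112) (.nod (nat_lit 61572042312532112781347250409871542507744058722032407042082279610368) .nil .nil (.dwn (nat_lit 492931188986942349519403517999480079977197326806142095054303683762176) (nat_lit 39264234496))) .nil (.nod (nat_lit 61572042312532112781347250409871542507744058722032407042082279610368) (.opn (nat_lit 492931188986942349519403517999480079977197326806142095054303683762176))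 .nil .nil)) .nil (.dwn (nat_lit 145113008390825097363067351901153871266157902216947842007615679699109054413901624991784) (nat_lit 609528832))) (.nod (nat_lit 2453717741242981048978470197893161265715666678173612495370019586604045690057341175888) (.dwn (nat_lit 145264072603117527868668870553977754789205600739139493113532015191072940283108211730536) (nat_lit 609528832)) .nil .nil)) .nil .nil (.nod (nat_lit 3532544705719115210673768857645444454348298209400) .nil (.nod (nat_lit 1120216597378495358458746191335208087706369708734904762837174845842) (.dwn (nat_lit 145264079087474525158396242021889232741765301521116617281346852135486634523145873475744) (nat_lit 627262552)) .nil .nil) (.nod (nat_lit 1120216597378495358458746191335208087706369708734904762837174845842) (.dwn (nat_lit 145264079087474525158396242021889232741765301521116617281346852135486634523145873475744) (nat_lit 627262552)) .nil .nil)) l3252 = true := by decide +kernel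
theorem cw14727 : wchk (nat_lit 5) [] [l3252] (nat_lit 4) (nat_lit 1) (nat_lit 0) (nat_lit 0) (nat_lit 22597888) (nat_lit 0) w14727 = true := by decide +kernel
theorem cw14728 : wchk (nat_lit 5) [w162, w603] [] (nat_lit 17) (nat_lit 0) (nat_lit 2) (nat_lit 2) (nat_lit 23275520) (nat_lit 1162506244) w14728 = true := by decide +kernel
theorem cw14729 : wchk (nat_lit 5) [w9997, w16] [] (nat_lit 17) (nat_lit 1) (nat_lit 2) (nat_lit 2) (nat_lit 627205120) (nat_lit 21655556) w14729 = true := by decide +kernel
theorem cl3253 : lchk (nat_lit 5) [w14717, w831, w16, w603, w10987, w855, w2015, w14727, w12203, w14728, w2037, w9123, w14713, w11618, w14718, w128, w14719, w14720, w14721, w10297, w1111, w10012, w10305, w10306, w178, w179, w844, w14729] (nat_lit 23282688) (.nod (nat_lit 285096570277066901834141762871463772512994128569132646558136469512) (.nod (nat_lit 5254124524148287226618282280014603285644676424213735695686894207926507183970752749592) .nil (.nod (nat_lit 5285666173464442906340407660862024789919111147420945108371152161165049015058316331048) .nil (.nod (nat_lit 5254128113703053568825280478817178475575472928231853914407280668286289866598273867824) (.dwn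 (nat_lit 145038310450889748221427092987566310740613960432876691114805884887343310228926621050944) (nat_lit 39281968128)) .nil .nil) .dup) (.nod (nat_lit 2134405958661655235469674904996204924002932194801037836253823261254026063750122964344936) (.dwn (nat_lit 20933266279681009018692349574727108453776868532541076833531720970229579453491874973824) (nat_lit 90391624)) .nil .nil)) .nil (.nod (nat_lit 5391919773558745943129104820855543475865251098435660896732632980019031142075586644128) (.dwn (nat_lit 1139910554686057951272589215300487553984981796829197282533047606007217393086493744253104) (nat_lit 627262464)) .nil .nil)) (.nod (nat_lit 292206819171587985963019556864996073771508691588216142636446339272) .nil .nil (.dwn (nat_lit 279338559746789758023064416379650500190511966241242573258047686864) (nat_lit 23282796))) .nil (.nod (nat_lit 292206819171587985963019556864996073771508691588216142636446339272) (.opn (nat_lit 279338559746789758023064416379650500190511966241242573258047686864)) .nil .nil) l3253 = true := by decide +kernel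
theorem cw14730 : wchk (nat_lit 5) [] [l3253] (nat_lit 1681) (nat_lit 1) (nat_lit 1) (nat_lit 0) (nat_lit 1230557440) (nat_lit 0) w14730 = true := by decide +kernel
theorem cw14731 : wchk (nat_lit 5) [w3878] [] (nat_lit 2) (nat_lit 2) (nat_lit 2) (nat_lit 2) (nat_lit 90334208) (nat_lit 90334208) w14731 = true := by decide +kernel
theorem cw14732 : wchk (nat_lit 5) [w14731, w2934] [] (nat_lit 0) (nat_lit 0) (nat_lit 1) (nat_lit 2) (nat_lit 23282688) (nat_lit 22121476) w14732 = true := by decide +kernel
theorem cl3254 : lchk (nat_lit 5) [w4038, w11935, w1, w795, w6095, w4209, w1070, w8908, w1106, w4632, w111, w1109, w3274, w10344, w10346, w10253, w3628] (nat_lit 90269696) (.nod (nat_lit 7711811430431996598121648332440256606049821363098376149413330765840) (.nod (nat_lit 291575844905146916812633847856725417852722925018099591153565476896) (.nod (nat_lit 3349813055626758708402976469122148793835705257984) (.nod (nat_lit 9097054097867921028969250716781789961461639979547901119410168654589704515315925854113792) .nil (.dwn (nat_lit 72754428358320611228802203943776467420707151456673691454123563665560074511354935302606848) (nat_lit 314159753216)) .dup) (.nod (nat_lit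 9097054097867921028969250716781789961434906140294979914012137558856583151379539413880832) .nil (.dwn (nat_lit 72754428358320611228802203943776467420493345407842414675205602116041094756114563122515968) (nat_lit 314159753216)) (.opn (nat_lit 72754428358320611228802203943776467420493345407842414675205602116041094756114563122515968))) .nil) .nil (.dwn (nat_lit 61793144131917795771351606011726870508588489681549863433144088317952) (nat_lit 4922107904))) .nil (.dwn (nat_lit 291575844905146916812633847856725417852722925018099591153565476896) (nat_lit 627140608))) (.nod (nat_lit 6854705166693027126058979284895368089242376232) .nil .nil (.nod (nat_lit 15845392695397074029922602563631005551610726448) (.dwn (nat_lit 20933259795324011728985495491764729289055375331743183844154483509656554849697225410632) (nat_lit 90269696)) .nil .nil)) .nil (.nod (nat_lit 14786815085790064982665314739318575297524846672) .nil (.nod (nat_lit 5391912362865034754613259453866596460986302176118970289915957042903574509239913498720) (.dwn (nat_lit 145038315082573317228783631732633187729287340333758143424035106717055094317267802343544) (nat_lit 627262528)) .nil .nil) (.nod (nat_lit 5391912362865034754613259453866596460986302176118970289915957042903574509239913498720)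 (.dwn (nat_lit 145038315082573317228783631732633187729287340333758143424035106717055094317267802343544) (nat_lit 627262528)) .nil .nil)) l3254 = true := by decide +kernel
theorem cw14733 : wchk (nat_lit 5) [] [l3254] (nat_lit 2258) (nat_lit 1) (nat_lit 1) (nat_lit 0) (nat_lit 22597888) (nat_lit 0) w14733 = true := by decide +kernel
theorem cw14734 : wchk (nat_lit 5) [w7311, w34] [] (nat_lit 145) (nat_lit 0) (nat_lit 1) (nat_lit 2) (nat_lit 22709248) (nat_lit 23282692) w14734 = true := by decide +kernel
theorem cw14736 : wchk (nat_lit 5) [] [l2227] (nat_lit 2) (nat_lit 2) (nat_lit 0) (nat_lit 0) (nat_lit 22583552) (nat_lit 0) w14736 = true := by decide +kernel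
theorem cw14737 : wchk (nat_lit 5) [] [l1557] (nat_lit 1) (nat_lit 2) (nat_lit 4) (nat_lit 0) (nat_lit 18309632) (nat_lit 0) w14737 = true := by decide +kernel
theorem cw14740 : wchk (nat_lit 5) [] [l1170] (nat_lit 1) (nat_lit 2) (nat_lit 3) (nat_lit 0) (nat_lit 22354176) (nat_lit 0) w14740 = true := by decide +kernel
theorem cw14741 : wchk (nat_lit 5) [] [l1170] (nat_lit 1) (nat_lit 2) (nat_lit 3) (nat_lit 0) (nat_lit 19078400) (nat_lit 0) w14741 = true := by decide +kernel
theorem cl3255 : lchk (nat_lit 5) [w91, w8633] (nat_lit 8388685) (.nod (nat_lit 4572799710070941884197371904) .nil (.nod (nat_lit 47474756587299640126237715565070581333013367376427774486779575175474637302661120) .nil (.nod (nat_lit 3885353763759772891684517665803308985880432783382128782535886548731707665255449493914) .nil (.opn (nat_lit 34968087534819710578086061810572934750809942588002555141068188481869289307753479668122)) .dup) .nil) (.nod (nat_lit 7770684137517519845497558552509909551787411022084207003390552407970642965200432529408) .nil (.dwn (nat_lit 3885370437820623065216659614144614015714639757299912962384835679008855774143537217818) (nat_lit 16777357)) .dup)) .nil .nil .nil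 l3255 = true := by decide +kernel
theorem cw14742 : wchk (nat_lit 5) [] [l3255] (nat_lit 1) (nat_lit 1) (nat_lit 4) (nat_lit 0) (nat_lit 22597888) (nat_lit 0) w14742 = true := by decide +kernel
theorem cl3256 : lchk (nat_lit 5) [w158, w8633] (nat_lit 8388617) (.nod (nat_lit 76143107227515363309819481540548356748750094336) (.nod (nat_lit 5828015245291790774472784354017833458447086243821812449263845398512434041836164612096) .nil (.dwn (nat_lit 3885369511483909166687096175359920063717979064927705026039288631945051127541502312722) (nat_lit 16777353)) .dup) (.nod (nat_lit 39137726162212874055288653319497210952581751642030701893979259534903481483657216) .nil (.nod (nat_lit 3885346353066061703448010155525757365106761288612587096249137392895582713116943712594) .nil (.opn (nat_lit 34968079197789285491319990861510689177439562131886490325688026312190677001510349439314)) .dup) .nil) .nil) .nil .nil .nil l3256 = true := by decide +kernel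
theorem cw14743 : wchk (nat_lit 5) [] [l3256] (nat_lit 1) (nat_lit 3) (nat_lit 4) (nat_lit 0) (nat_lit 22597888) (nat_lit 0) w14743 = true := by decide +kernel
theorem cl3257 : lchk (nat_lit 5) [w1, w1272, w91, w4548, w248, w9, w158, w10, w109, w1994, w161, w3421, w168] (nat_lit 18523136) (.nod (nat_lit 22835993708708380982632228766824985360345333760) (.nod (nat_lit 11418033945132184873608633828152830482630500361) (.nod (nat_lit 20558096205205248951817215327149277283204154574522419126539428629856007729898272933928) .nil (.opn (nat_lit 1138808298293159665804367441059573020112293783336661915768433422693075910147356321204224)) .dup) (.nod (nat_lit 20558096205205248951354211632983464581949504426481230423451610728099125886604337825832) .nil (.nod (nat_lit 1138808298293159665804367441059573020108947126533379036597468540430697079002163672598528) .nil (.opn (nat_lit 9095980080849745940721842558083116698457648463683833932285310321067737550360111733884928)) .dup) .nil) (.nod (nat_lit 20558096205205248951354211632983464581949504426481230423474440574993138572741289789480) .nil (.dwn (nat_lit 1138808298293159665804367441059573020108947126533379036597649963059531213554397109110784)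 (nat_lit 4917470208)) (.opn (nat_lit 1138808298293159665804367441059573020108947126533379036597649963059531213554397109110784)))) .nil .nil) .nil .nil (.nod (nat_lit 11417990388989218993485308155019837781256962048) .nil (.nod (nat_lit 19870862744888066142191620423889115533432898060415176228135691838739217465482073526336) (.dwn (nat_lit 144146893852095051041662940059753956793449214265902665071392568510912985502683967608928) (nat_lit 622502912)) .nil .nil) .dup) l3257 = true := by decide +kernel
theorem cw14744 : wchk (nat_lit 5) [] [l3257] (nat_lit 36) (nat_lit 1) (nat_lit 1) (nat_lit 0) (nat_lit 22597888) (nat_lit 0) w14744 = true := by decide +kernel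
theorem cw14745 : wchk (nat_lit 5) [] [l1713] (nat_lit 1) (nat_lit 2) (nat_lit 4) (nat_lit 0) (nat_lit 20483328) (nat_lit 0) w14745 = true := by decide +kernel
theorem cw14746 : wchk (nat_lit 5) [] [l2792] (nat_lit 1) (nat_lit 2) (nat_lit 4) (nat_lit 0) (nat_lit 20599808) (nat_lit 0) w14746 = true := by decide +kernel
theorem cw14747 : wchk (nat_lit 5) [] [l3058] (nat_lit 1) (nat_lit 2) (nat_lit 4) (nat_lit 0) (nat_lit 22596096) (nat_lit 0) w14747 = true := by decide +kernel
theorem cw14748 : wchk (nat_lit 5) [] [l3235] (nat_lit 1) (nat_lit 0) (nat_lit 3) (nat_lit 0) (nat_lit 29002752) (nat_lit 0) w14748 = true := by decide +kernel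
theorem cw14749 : wchk (nat_lit 5) [] [l2095] (nat_lit 1) (nat_lit 2) (nat_lit 4) (nat_lit 0) (nat_lit 19078400) (nat_lit 0) w14749 = true := by decide +kernel
theorem cw14750 : wchk (nat_lit 5) [] [l1688] (nat_lit 1) (nat_lit 2) (nat_lit 4) (nat_lit 0) (nat_lit 22565632) (nat_lit 0) w14750 = true := by decide +kernel
theorem cw14751 : wchk (nat_lit 5) [] [l419] (nat_lit 2) (nat_lit 1) (nat_lit 4) (nat_lit 0) (nat_lit 18309632) (nat_lit 0) w14751 = true := by decide +kernel
theorem cw14752 : wchk (nat_lit 5) [] [l863] (nat_lit 33) (nat_lit 0) (nat_lit 1) (nat_lit 1) (nat_lit 18436864) (nat_lit 0) w14752 = true := by decide +kernel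
theorem cw14753 : wchk (nat_lit 5) [] [] (nat_lit 1) (nat_lit 1) (nat_lit 1) (nat_lit 2) (nat_lit 193) (nat_lit 25165873) w14753 = true := by decide +kernel
theorem cw14754 : wchk (nat_lit 5) [] [l863] (nat_lit 33) (nat_lit 0) (nat_lit 1) (nat_lit 1) (nat_lit 18436864) (nat_lit 0) w14754 = true := by decide +kernel
theorem cw14755 : wchk (nat_lit 5) [] [l863] (nat_lit 33) (nat_lit 0) (nat_lit 1) (nat_lit 1) (nat_lit 18436864) (nat_lit 0) w14755 = true := by decide +kernel
theorem cl3258 : lchk (nat_lit 5) [w950, w638, w871, w14751, w2124, w216, w904, w5553, w5537, w14752, w14753, w14754, w14755] (nat_lit 22114304) (.nod (nat_lit 20933254353095817575124310288904652317488193000743037071958865341111102541373252829184) (.nod (nat_lit 45622083159502580999309929363282294469028988675620541468161797300680890450444363) .nil (.nod (nat_lit 292295753148974944440319068807434269732372622213645552706827872288) .nil (.dwn (nat_lit 2623828525394981660108936959537430916992836027930527423005066) (nat_lit 4921061376)) .dup) .nil) (.nod (nat_lit 75357716128566922846709391428766556696695228432) .nil .nil (.nod (nat_lit 426097550915174800060529071590357430062043627520) .nil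 (.dwn (nat_lit 1139639955984204054458186274447526109813456955689941008879190575011382887958482838880256) (nat_lit 4921061376)) .dup)) (.nod (nat_lit 38211389448314344491799651811661520797534219133934260087053201532842944256204864) .nil (.opn (nat_lit 145264070750444100071630171072826987167968067349498641697945806272216523794965510654048)) .dup)) .nil .nil .nil l3258 = true := by decide +kernel
theorem cw14756 : wchk (nat_lit 5) [] [l3258] (nat_lit 17) (nat_lit 3) (nat_lit 2) (nat_lit 0) (nat_lit 156815616) (nat_lit 0) w14756 = true := by decide +kernel
theorem cw14757 : wchk (nat_lit 5) [] [l1358] (nat_lit 1) (nat_lit 0) (nat_lit 0) (nat_lit 0) (nat_lit 28992000) (nat_lit 0) w14757 = true := by decide +kernel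
theorem cw14758 : wchk (nat_lit 5) [] [l666] (nat_lit 1) (nat_lit 2) (nat_lit 4) (nat_lit 0) (nat_lit 19096320) (nat_lit 0) w14758 = true := by decide +kernel
theorem cw14759 : wchk (nat_lit 5) [] [l232] (nat_lit 1) (nat_lit 2) (nat_lit 2) (nat_lit 0) (nat_lit 19081984) (nat_lit 0) w14759 = true := by decide +kernel
theorem cw14760 : wchk (nat_lit 5) [] [l1406] (nat_lit 1) (nat_lit 0) (nat_lit 1) (nat_lit 0) (nat_lit 22434816) (nat_lit 0) w14760 = true := by decide +kernel
theorem cw14761 : wchk (nat_lit 5) [] [l2051] (nat_lit 2) (nat_lit 3) (nat_lit 0) (nat_lit 0) (nat_lit 20490496) (nat_lit 0) w14761 = true := by decide +kernel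
theorem cw14762 : wchk (nat_lit 5) [] [l3258] (nat_lit 17) (nat_lit 2) (nat_lit 2) (nat_lit 0) (nat_lit 156813824) (nat_lit 0) w14762 = true := by decide +kernel
theorem cw14763 : wchk (nat_lit 5) [w220, w149] [] (nat_lit 17) (nat_lit 0) (nat_lit 4) (nat_lit 2) (nat_lit 10839040) (nat_lit 86599684) w14763 = true := by decide +kernel
theorem cw14764 : wchk (nat_lit 5) [] [l3258] (nat_lit 17) (nat_lit 3) (nat_lit 2) (nat_lit 0) (nat_lit 156815616) (nat_lit 0) w14764 = true := by decide +kernel
theorem cw14765 : wchk (nat_lit 5) [] [l3258] (nat_lit 17) (nat_lit 3) (nat_lit 2) (nat_lit 0) (nat_lit 156815616) (nat_lit 0) w14765 = true := by decide +kernel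
theorem cw14766 : wchk (nat_lit 5) [w2740] [] (nat_lit 17) (nat_lit 0) (nat_lit 2) (nat_lit 2) (nat_lit 337) (nat_lit 84628480) w14766 = true := by decide +kernel
theorem cw14767 : wchk (nat_lit 5) [] [l287] (nat_lit 17) (nat_lit 2) (nat_lit 4) (nat_lit 0) (nat_lit 2820864) (nat_lit 0) w14767 = true := by decide +kernel
theorem cw14768 : wchk (nat_lit 5) [w14767] [] (nat_lit 25) (nat_lit 1) (nat_lit 2) (nat_lit 2) (nat_lit 123945984) (nat_lit 33554477) w14768 = true := by decide +kernel
theorem cw14769 : wchk (nat_lit 5) [w2740] [] (nat_lit 17) (nat_lit 0) (nat_lit 2) (nat_lit 2) (nat_lit 337) (nat_lit 84628480) w14769 = true := by decide +kernel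
theorem cw14770 : wchk (nat_lit 5) [w2740] [] (nat_lit 17) (nat_lit 0) (nat_lit 2) (nat_lit 2) (nat_lit 337) (nat_lit 84628480) w14770 = true := by decide +kernel
theorem cw14771 : wchk (nat_lit 5) [w149] [] (nat_lit 17) (nat_lit 0) (nat_lit 4) (nat_lit 2) (nat_lit 329) (nat_lit 86599680) w14771 = true := by decide +kernel
theorem cw14772 : wchk (nat_lit 5) [] [] (nat_lit 1) (nat_lit 1) (nat_lit 4) (nat_lit 2) (nat_lit 205) (nat_lit 329) w14772 = true := by decide +kernel
theorem cw14773 : wchk (nat_lit 5) [] [] (nat_lit 1) (nat_lit 1) (nat_lit 2) (nat_lit 2) (nat_lit 209) (nat_lit 337) w14773 = true := by decide +kernel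
theorem cw14774 : wchk (nat_lit 5) [] [l165] (nat_lit 25) (nat_lit 3) (nat_lit 0) (nat_lit 0) (nat_lit 154865920) (nat_lit 0) w14774 = true := by decide +kernel
theorem cw14775 : wchk (nat_lit 5) [w14774] [] (nat_lit 153) (nat_lit 0) (nat_lit 2) (nat_lit 2) (nat_lit 33554509) (nat_lit 627262464) w14775 = true := by decide +kernel
theorem cl3259 : lchk (nat_lit 5) [w14766, w14758, w14759, w2921, w14772, w14773, w14775, w5943, w2740, w149, w14757, w14768, w181, w14769, w14770, w14771] (nat_lit 5157110784) (.nod (nat_lit 632416382673359432729660010796466046916415096849) .nil (.nod (nat_lit 75380650093492843224780887656509463743767410645827488972968392325848300699779474) (.nod (nat_lit 22835994048990747903570692248646336866042961944) .nil .nil (.nod (nat_lit 15845387250879203294924111963537938862051426304) .nil (.dwn (nat_lit 9097082323347593517658200987357742729539301480486401784671308755818055346051901575659520) (nat_lit 39281968152)) .dup)) (.nod (nat_lit 27825797802225966739891464283533671113383140298254225387770896677013764756433706942464) .nil .nil .nil) (.nod (nat_lit 97496939137820236551881872224627710169492375467424552920109040594998205957214280)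 .nil (.dwn (nat_lit 269486981078792573792196023512266617250050588152100574821653421300381913885128630241296) (nat_lit 895697920)) .dup)) (.nod (nat_lit 20933263500670867323103659208156212712831817433773732973154276485850409793537280311698) (.dwn (nat_lit 145264073529454241767218771350433776642924589130718790973019239733396355124789833533560) (nat_lit 5459100672)) .nil .nil)) .nil .nil .nil l3259 = true := by decide +kernel
theorem cw14776 : wchk (nat_lit 5) [] [l3259] (nat_lit 209) (nat_lit 3) (nat_lit 1) (nat_lit 0) (nat_lit 5818880) (nat_lit 0) w14776 = true := by decide +kernel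
theorem cw14777 : wchk (nat_lit 5) [] [l1248] (nat_lit 209) (nat_lit 2) (nat_lit 4) (nat_lit 0) (nat_lit 1227054080) (nat_lit 0) w14777 = true := by decide +kernel
theorem cl3260 : lchk (nat_lit 5) [w950, w148, w7392, w14751, w2124, w2140, w216, w904, w5553, w14777, w14752, w14753, w14754, w14755] (nat_lit 22114304) (.nod (nat_lit 20584655320921522929817685984131820379682924932412775921103426818999589839570791825408) (.nod (nat_lit 45622083159502580999309929363282294469028988675620541468161797300680890450444363) .nil (.nod (nat_lit 292295753148974944440319068807434269732372622213645552706827872288) .nil (.nod (nat_lit 2623828525394981660108936959537430916992836027930527423005066) .nil (.opn (nat_lit 493139152480878171004914330289218648562094565427139916083375905103872)) .dup) (.dwn (nat_lit 2623828525394974289029361852389237805216466261189108107837834) (nat_lit 4910230548))) .nil) (.nod (nat_lit 75357718850825858214217099283337368740518479888) .nil .nil (.nod (nat_lit 426097550915174800060529071590357430062043627520) .nil (.dwn (nat_lit 1139639955984204054458186274447526109813456955689941008879190575011382887958482838880256) (nat_lit 4921061376)) .dup))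 (.nod (nat_lit 38211389448314344491799651811661520797534219133934260087053349106795533960644680) .nil (.dwn (nat_lit 145264071676780813970159734511611681120564776286344834408731649916843613366572500289640) (nat_lit 626094080)) (.opn (nat_lit 145264071676780813970159734511611681120564776286344834408731649916843613366572500289640)))) .nil .nil .nil l3260 = true := by decide +kernel
theorem cw14778 : wchk (nat_lit 5) [] [l3260] (nat_lit 17) (nat_lit 3) (nat_lit 2) (nat_lit 0) (nat_lit 156815616) (nat_lit 0) w14778 = true := by decide +kernel
theorem cw14779 : wchk (nat_lit 5) [w16] [] (nat_lit 1) (nat_lit 1) (nat_lit 1) (nat_lit 2) (nat_lit 193) (nat_lit 22630400) w14779 = true := by decide +kernel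
theorem cl3261 : lchk (nat_lit 5) [w14756, w5943, w2740, w149, w14757, w14758, w14759, w16, w14776, w14778, w10822, w284, w14760, w14761, w950, w2128, w14762, w14763, w14764, w14765, w6570, w14286, w14779] (nat_lit 23282688) (.nod (nat_lit 27825792359997772586030279080673594141877475294282843211904065265696610494706991759360) (.nod (nat_lit 45622083159502580999309929363282374900156483131454046298010117580816876735483928) .nil (.nod (nat_lit 7874780803501906270210755898190475366760510018432376696390984042544) .nil (.nod (nat_lit 286536688065606255681743067661744809149984155603606852408206510136) (.dwn (nat_lit 9097082326126603658860919963759192447719499572112349161642662382338542860592969423216720) (nat_lit 39281968128)) .nil .nil) .dup) (.nod (nat_lit 145264073529454241759636376389044951583934193755839748598502286619879980455894237866104) (.dwn (nat_lit 20800463869366374185556154369042457683352471180880390257715761656182262011804105738392) (nat_lit 4922229760)) .nil .nil)) (.nod (nat_lit 22835994048990747903570692248646336865978992800) .nil .nil (.nod (nat_lit 15528344808489497267044355204189369665048281088) .nil (.dwn (nat_lit 1139910555612394665117198885354754154458878169326063298218264313078526484057986814705664)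 (nat_lit 4922229848)) .dup)) (.nod (nat_lit 38211389448314344491799651811661520797534219133934260164801505437045834818719768) .nil (.dwn (nat_lit 145156166418325629855433094176065583560689543059931581528393272064541532523574750382128) (nat_lit 627262464)) .dup)) .nil .nil .nil l3261 = true := by decide +kernel
theorem cw14780 : wchk (nat_lit 5) [] [l3261] (nat_lit 209) (nat_lit 1) (nat_lit 0) (nat_lit 0) (nat_lit 1230557440) (nat_lit 0) w14780 = true := by decide +kernel
theorem cw14781 : wchk (nat_lit 5) [] [l245] (nat_lit 1) (nat_lit 0) (nat_lit 2) (nat_lit 0) (nat_lit 30696192) (nat_lit 0) w14781 = true := by decide +kernel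
theorem cl3262 : lchk (nat_lit 5) [w14737, w1272, w4548, w2740, w149, w14747, w14748, w14749, w5943, w14750, w14780, w7298, w14781, w14742, w14743, w14744, w42, w164, w14745, w14746] (nat_lit 23282688) (.nod (nat_lit 22835993708708380982632228766824985360565198857) (.nod (nat_lit 28597691027499763961865017714082236101525782477847013821351742892230768117379836858400) .nil (.dwn (nat_lit 145264067045097244477511827278940918971459247869745097883786084126475095983479190882360) (nat_lit 627262464)) (.dwn (nat_lit 145264067045097244477511827278940918971459247869745097883786084126475095983479190882360) (nat_lit 627262464))) (.nod (nat_lit 19085685851136964007355466460157237564008289995791944996896340442413727838840835723296) .nil (.nod (nat_lit 5391910510191606957846338742650216060915800483956838550064651428085165477347431319632) .nil (.dwn (nat_lit 1139910535232986959349548489701490887505100468562454253887367173198035893594660954081280) (nat_lit 4922229760)) (.dwn (nat_lit 1139910535232986959349548489701490887505100468562454253887367173198035893594660954081280) (nat_lit 4922229760))) .nil) (.nod (nat_lit 34318280625169991585286153089568441474381999321981325793140631863491361729685629374496)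 .nil (.dwn (nat_lit 145157827340053649918940159939960883559677806125400769757199461055572226021756000307256) (nat_lit 626803712)) .dup)) .nil .nil (.nod (nat_lit 15845411751209621602493482654675247256450367488) .nil (.nod (nat_lit 20933267206017722917221912963294988523218653178436244880930143363477066527783627259904) (.dwn (nat_lit 143929440940190940719287023322360788347123978560786134163903347748715255080800519358608) (nat_lit 627262540)) .nil .nil) .dup) l3262 = true := by decide +kernel
theorem cw14782 : wchk (nat_lit 5) [] [l3262] (nat_lit 281) (nat_lit 1) (nat_lit 4) (nat_lit 0) (nat_lit 22597888) (nat_lit 0) w14782 = true := by decide +kernel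
theorem cw14783 : wchk (nat_lit 5) [w220, w6797] [] (nat_lit 0) (nat_lit 0) (nat_lit 4) (nat_lit 2) (nat_lit 10301440) (nat_lit 106792964) w14783 = true := by decide +kernel
theorem cw14784 : wchk (nat_lit 5) [w16, w6930] [] (nat_lit 17) (nat_lit 0) (nat_lit 0) (nat_lit 2) (nat_lit 22228992) (nat_lit 78213124) w14784 = true := by decide +kernel
theorem cl3263 : lchk (nat_lit 5) [w69] (nat_lit 8388653) (.nod (nat_lit 816138283482207638121349120) .nil (.nod (nat_lit 139515770437584770024779742506189450117530) .nil .nil (.dwn (nat_lit 11418077501275150753731962010043017208096882970) (nat_lit 16777357))) (.nod (nat_lit 47474756587299640123664103853562042219840693712912631256182405596703547635794330) .nil (.dwn (nat_lit 3885370437820623065216659614144614015714639757299912962343022455764640123637729329434) (nat_lit 16777357)) .dup)) .nil .nil .nil l3263 = true := by decide +kernel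
theorem cw14785 : wchk (nat_lit 5) [] [l3263] (nat_lit 1) (nat_lit 1) (nat_lit 1) (nat_lit 0) (nat_lit 22597888) (nat_lit 0) w14785 = true := by decide +kernel
theorem cw14786 : wchk (nat_lit 5) [] [l119] (nat_lit 0) (nat_lit 1) (nat_lit 2) (nat_lit 1) (nat_lit 30870016) (nat_lit 0) w14786 = true := by decide +kernel
theorem cw14787 : wchk (nat_lit 5) [] [l1253] (nat_lit 2) (nat_lit 1) (nat_lit 4) (nat_lit 0) (nat_lit 21391872) (nat_lit 0) w14787 = true := by decide +kernel
theorem cw14788 : wchk (nat_lit 5) [] [l3055] (nat_lit 2) (nat_lit 3) (nat_lit 3) (nat_lit 0) (nat_lit 21157120) (nat_lit 0) w14788 = true := by decide +kernel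
theorem cw14789 : wchk (nat_lit 5) [] [l119] (nat_lit 0) (nat_lit 1) (nat_lit 2) (nat_lit 1) (nat_lit 30870016) (nat_lit 0) w14789 = true := by decide +kernel
theorem cw14790 : wchk (nat_lit 5) [] [] (nat_lit 1) (nat_lit 2) (nat_lit 4) (nat_lit 2) (nat_lit 169) (nat_lit 25165861) w14790 = true := by decide +kernel
theorem cw14791 : wchk (nat_lit 5) [] [l1233] (nat_lit 1) (nat_lit 1) (nat_lit 2) (nat_lit 0) (nat_lit 19587328) (nat_lit 0) w14791 = true := by decide +kernel
theorem cw14792 : wchk (nat_lit 5) [] [l202] (nat_lit 0) (nat_lit 0) (nat_lit 3) (nat_lit 1) (nat_lit 30723072) (nat_lit 0) w14792 = true := by decide +kernel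
theorem cw14793 : wchk (nat_lit 5) [] [l2905] (nat_lit 1) (nat_lit 0) (nat_lit 4) (nat_lit 0) (nat_lit 4480256) (nat_lit 0) w14793 = true := by decide +kernel
theorem cw14794 : wchk (nat_lit 5) [] [l853] (nat_lit 1) (nat_lit 1) (nat_lit 2) (nat_lit 0) (nat_lit 22565632) (nat_lit 0) w14794 = true := by decide +kernel
theorem cw14795 : wchk (nat_lit 5) [w14000] [] (nat_lit 1) (nat_lit 0) (nat_lit 4) (nat_lit 2) (nat_lit 85173248) (nat_lit 25165861) w14795 = true := by decide +kernel
theorem cw14796 : wchk (nat_lit 5) [] [l3016] (nat_lit 1) (nat_lit 1) (nat_lit 2) (nat_lit 0) (nat_lit 22192896) (nat_lit 0) w14796 = true := by decide +kernel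
theorem cl3264 : lchk (nat_lit 5) [w12889, w2690, w871, w142, w14786, w14787, w14788, w14789, w3274, w638, w14790, w14791, w14792, w4658, w864, w6961, w9070, w14793, w14794, w14795, w14796, w2126, w14785] (nat_lit 22114304) (.nod (nat_lit 315937490161641627988468938958374771312549939128651180903793426506) (.nod (nat_lit 1115086548105826298252170778464429701287498623056540600644853522448) .nil .nil (.dwn (nat_lit 292295803365788827549610569466887794055276790391386086801154672688) (nat_lit 23282716))) (.nod (nat_lit 60727041648532732003659887363942902311769563152) .nil .nil (.dwn (nat_lit 15142916499384424033473445282816137877162248280) (nat_lit 23282736))) (.nod (nat_lit 36341816859845634489305337033293177545351635316179240000599821901276693524376012220544) .nil (.dwn (nat_lit 145264078161137811259866678583104538788741738844268183384232555429233240367821427738784) (nat_lit 626094080)) .dup)) .nil (.nod (nat_lit 285097574613344563687921070987422803177037071540682643625673656496) .nil (.dwn (nat_lit 20662674062184109546796212934539810715614935807302171717105636293300506183841601290634) (nat_lit 89223168)) (.dwn (nat_lit 20662674062184109546796212934539810715614935807302171717105636293300506183841601290634)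 (nat_lit 89223168))) .nil l3264 = true := by decide +kernel
theorem cw14797 : wchk (nat_lit 5) [] [l3264] (nat_lit 26) (nat_lit 3) (nat_lit 0) (nat_lit 0) (nat_lit 5820672) (nat_lit 0) w14797 = true := by decide +kernel
theorem cw14798 : wchk (nat_lit 5) [] [l672] (nat_lit 1) (nat_lit 2) (nat_lit 3) (nat_lit 0) (nat_lit 19094528) (nat_lit 0) w14798 = true := by decide +kernel
theorem cw14799 : wchk (nat_lit 5) [] [l3263] (nat_lit 1) (nat_lit 1) (nat_lit 1) (nat_lit 0) (nat_lit 22597888) (nat_lit 0) w14799 = true := by decide +kernel
theorem cw14800 : wchk (nat_lit 5) [] [l3178] (nat_lit 1) (nat_lit 2) (nat_lit 3) (nat_lit 0) (nat_lit 19096320) (nat_lit 0) w14800 = true := by decide +kernel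
theorem cl3265 : lchk (nat_lit 5) [w1725, w33, w13334, w3381, w1278, w5606, w6724] (nat_lit 5549056) (.nod (nat_lit 315937891896152692736037824448897856598644694783229336936574353546) (.nod (nat_lit 5152863763149808012544334625965634914263358193047370377606275958828480055753618489344) .nil .nil (.dwn (nat_lit 4043987768094003713764120520197136375428855905067486956032723168404202983539014107136) (nat_lit 609528832))) (.nod (nat_lit 7562046039423178858407835175012714788564238666) .nil .nil (.dwn (nat_lit 11417993111248154360881039366229309240062771282) (nat_lit 7068724244))) .nil) .nil (.nod (nat_lit 210625198493084441290550911274704338989098968831931779984037773322) .nil .nil (.dwn (nat_lit 1634458264906529976991989720631648283724867125399731836334528889566812673071973253775370) (nat_lit 72657920))) .nil l3265 = true := by decide +kernel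
theorem cw14801 : wchk (nat_lit 5) [] [l3265] (nat_lit 1) (nat_lit 3) (nat_lit 3) (nat_lit 0) (nat_lit 22597888) (nat_lit 0) w14801 = true := by decide +kernel
theorem cw14802 : wchk (nat_lit 5) [] [l410] (nat_lit 1) (nat_lit 3) (nat_lit 3) (nat_lit 0) (nat_lit 19081984) (nat_lit 0) w14802 = true := by decide +kernel
theorem cw14803 : wchk (nat_lit 5) [] [l119] (nat_lit 0) (nat_lit 1) (nat_lit 2) (nat_lit 1) (nat_lit 30870016) (nat_lit 0) w14803 = true := by decide +kernel
theorem cw14804 : wchk (nat_lit 5) [] [l291] (nat_lit 1) (nat_lit 3) (nat_lit 3) (nat_lit 0) (nat_lit 20212736) (nat_lit 0) w14804 = true := by decide +kernel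
theorem cw14805 : wchk (nat_lit 5) [] [l1233] (nat_lit 1) (nat_lit 1) (nat_lit 2) (nat_lit 0) (nat_lit 19587328) (nat_lit 0) w14805 = true := by decide +kernel
theorem cw14806 : wchk (nat_lit 5) [] [l1608] (nat_lit 1) (nat_lit 2) (nat_lit 3) (nat_lit 0) (nat_lit 22354176) (nat_lit 0) w14806 = true := by decide +kernel
theorem cw14807 : wchk (nat_lit 5) [] [l853] (nat_lit 1) (nat_lit 1) (nat_lit 0) (nat_lit 0) (nat_lit 22597888) (nat_lit 0) w14807 = true := by decide +kernel
theorem cw14808 : wchk (nat_lit 5) [] [l2228] (nat_lit 1) (nat_lit 2) (nat_lit 3) (nat_lit 0) (nat_lit 19352576) (nat_lit 0) w14808 = true := by decide +kernel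
theorem cw14809 : wchk (nat_lit 5) [] [l3016] (nat_lit 1) (nat_lit 1) (nat_lit 0) (nat_lit 0) (nat_lit 19357952) (nat_lit 0) w14809 = true := by decide +kernel
theorem cl3266 : lchk (nat_lit 5) [w14798, w2692, w469, w871, w142, w14788, w14803, w12886, w3473, w148, w950, w14804, w14805, w4659, w864, w1380, w1805, w14806, w14807, w14808, w14809, w14759, w14799, w14800, w14801, w14802] (nat_lit 23282688) (.nod (nat_lit 315937490161641627988468938958374771311931120224735942594990702666) (.nod (nat_lit 19585338905899836274513012133105812793580870379944364009560715697633017868350514003968) .nil .nil (.dwn (nat_lit 5391906804844751363728175026258732637085476433828713667358986667846174392338815647744) (nat_lit 627262464))) (.nod (nat_lit 58931831660051016840356096179758583305857359896) .nil .nil (.dwn (nat_lit 7688906028070240085953670132741672904218282080) (nat_lit 627262464))) (.nod (nat_lit 36341816859845634489305337033293177545351635316179240000599394545999459752962746132608) .nil (.dwn (nat_lit 145264078161137811259865058789555925726543992546479103492329213048615507312643443951776) (nat_lit 627262464)) .dup)) .nil (.nod (nat_lit 114839274948016026013699103379691943114604619943408177139822266544)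 .nil (.dwn (nat_lit 20933274616711434104323717995097833939249246030786709320870350141085550533019353219466) (nat_lit 90391652)) .dup) .nil l3266 = true := by decide +kernel
theorem cw14810 : wchk (nat_lit 5) [] [l3266] (nat_lit 26) (nat_lit 3) (nat_lit 0) (nat_lit 0) (nat_lit 5820672) (nat_lit 0) w14810 = true := by decide +kernel
theorem cw14811 : wchk (nat_lit 5) [] [l1352] (nat_lit 2) (nat_lit 1) (nat_lit 2) (nat_lit 0) (nat_lit 22339840) (nat_lit 0) w14811 = true := by decide +kernel
theorem cl3267 : lchk (nat_lit 5) [w746, w149, w158, w7402, w1143, w11, w1530, w11766, w2922, w6037, w346, w1473] (nat_lit 9276416) .nil (.nod (nat_lit 2390631547808438727223871034235304795479383571798532927759126217183691042966988652544) .nil (.nod (nat_lit 45622083159502580999309929363282294469028988675620544360328221217271584428916736) .nil (.nod (nat_lit 2573232777733455434512665617602848350962717098786834311933454043010470048997119287328) .nil (.dwn (nat_lit 1136666904238374712983157271258256681352172361738360535989179600175909677245213284440064) (nat_lit 4908223488)) (.opn (nat_lit 1136666904238374712983157271258256681352172361738360535989179600175909677245213284440064)))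 (.nod (nat_lit 142485232907377296507760063252906012323080620585803887605744744361277829651925493800992) .nil (.opn (nat_lit 1136666904238374712983157271258256681348831997926613367178613551509110321108596303796224)) .dup)) (.nod (nat_lit 45622083159502580999309929363282294469028988675620541882068660234955092148617216) .nil (.dwn (nat_lit 142485232907377296507760063252906012323080620585803887605744744361277829651925493801016) (nat_lit 613256192)) (.dwn (nat_lit 142485232907377296507760063252906012323080620585803887605744744361277829651925493801016) (nat_lit 613256192)))) (.nod (nat_lit 5828015245291790774472784354017833458447086155348397049819844898035036109576448186432) .nil (.dwn (nat_lit 18018309740863813825181946404053135694082066808847513126926089152674677748122013866072) (nat_lit 76385280)) .dup) .nil l3267 = true := by decide +kernel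
theorem cw14812 : wchk (nat_lit 5) [] [l3267] (nat_lit 2) (nat_lit 1) (nat_lit 4) (nat_lit 0) (nat_lit 22597888) (nat_lit 0) w14812 = true := by decide +kernel
theorem cw14813 : wchk (nat_lit 5) [] [l1352] (nat_lit 2) (nat_lit 1) (nat_lit 2) (nat_lit 0) (nat_lit 19064064) (nat_lit 0) w14813 = true := by decide +kernel
theorem cw14814 : wchk (nat_lit 5) [w220, w6930] [] (nat_lit 0) (nat_lit 1) (nat_lit 1) (nat_lit 2) (nat_lit 23211008) (nat_lit 74084356) w14814 = true := by decide +kernel
theorem cw14815 : wchk (nat_lit 5) [] [l1193] (nat_lit 1) (nat_lit 3) (nat_lit 3) (nat_lit 0) (nat_lit 20130304) (nat_lit 0) w14815 = true := by decide +kernel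
theorem cw14816 : wchk (nat_lit 5) [] [l3263] (nat_lit 1) (nat_lit 1) (nat_lit 1) (nat_lit 0) (nat_lit 22597888) (nat_lit 0) w14816 = true := by decide +kernel
theorem cw14817 : wchk (nat_lit 5) [] [l812] (nat_lit 17) (nat_lit 3) (nat_lit 1) (nat_lit 0) (nat_lit 2648832) (nat_lit 0) w14817 = true := by decide +kernel
theorem cw14818 : wchk (nat_lit 5) [w11459] [] (nat_lit 1) (nat_lit 0) (nat_lit 4) (nat_lit 2) (nat_lit 15304704) (nat_lit 25165861) w14818 = true := by decide +kernel
theorem cw14819 : wchk (nat_lit 5) [] [l1197] (nat_lit 1) (nat_lit 2) (nat_lit 3) (nat_lit 0) (nat_lit 22223360) (nat_lit 0) w14819 = true := by decide +kernel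
theorem cw14820 : wchk (nat_lit 5) [] [l672] (nat_lit 2) (nat_lit 1) (nat_lit 3) (nat_lit 0) (nat_lit 30579712) (nat_lit 0) w14820 = true := by decide +kernel
theorem cw14821 : wchk (nat_lit 5) [] [l403] (nat_lit 2) (nat_lit 1) (nat_lit 3) (nat_lit 0) (nat_lit 30723072) (nat_lit 0) w14821 = true := by decide +kernel
theorem cw14822 : wchk (nat_lit 5) [] [l71] (nat_lit 1) (nat_lit 3) (nat_lit 3) (nat_lit 0) (nat_lit 22334464) (nat_lit 0) w14822 = true := by decide +kernel
theorem cw14823 : wchk (nat_lit 5) [] [l1233] (nat_lit 1) (nat_lit 1) (nat_lit 2) (nat_lit 0) (nat_lit 19587328) (nat_lit 0) w14823 = true := by decide +kernel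
theorem cw14824 : wchk (nat_lit 5) [] [l2302] (nat_lit 0) (nat_lit 0) (nat_lit 3) (nat_lit 1) (nat_lit 30968576) (nat_lit 0) w14824 = true := by decide +kernel
theorem cw14825 : wchk (nat_lit 5) [] [l1683] (nat_lit 33) (nat_lit 0) (nat_lit 3) (nat_lit 1) (nat_lit 19553280) (nat_lit 0) w14825 = true := by decide +kernel
theorem cw14826 : wchk (nat_lit 5) [] [l715] (nat_lit 1) (nat_lit 2) (nat_lit 3) (nat_lit 0) (nat_lit 22334464) (nat_lit 0) w14826 = true := by decide +kernel
theorem cw14827 : wchk (nat_lit 5) [] [l1683] (nat_lit 33) (nat_lit 0) (nat_lit 3) (nat_lit 1) (nat_lit 19553280) (nat_lit 0) w14827 = true := by decide +kernel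
theorem cl3268 : lchk (nat_lit 5) [w7347, w10769, w469, w871, w142, w14789, w14820, w14798, w14821, w14817, w638, w950, w14822, w14823, w14824, w14818, w864, w6961, w1805, w14806, w14825, w14826, w14827, w14815, w14816, w7328, w11485, w42, w164, w14819] (nat_lit 22121472) (.nod (nat_lit 315937490161641627988468938958374771311952805331625280005811994698) (.nod (nat_lit 19585338905899836274513012133105812793580870379944364009560715697633017868350666530840) .nil (.nod (nat_lit 5391906804844751363728175026258732637077841197135554197688349422353598393390440286264) .nil (.dwn (nat_lit 1139641615979595360623163956749697672866759370378802576170019171275276398056561453504512) (nat_lit 4921068544)) .dup) (.nod (nat_lit 5391906804844751363728175026258732637093686595275469142452445384833485950134901966904) .nil (.opn (nat_lit 1139641615979595360623163956749697672870108476082667568984856228044717343416252293650432)) .dup)) (.nod (nat_lit 61517327028764596328745767234800690666459848728) .nil .nil (.dwn (nat_lit 7688908750329175453461377987312484948015269992) (nat_lit 23282744))) (.nod (nat_lit 20933267206017722917216153747561178185164556757467839102242583026566633796069765851280)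 .nil (.dwn (nat_lit 145264080013811239056925805460673926693935156717960568805804242718487419511035407009968) (nat_lit 626101248)) .dup)) .nil (.nod (nat_lit 292296757485252606309241282533741982958999198590516666952376027328) .nil (.nod (nat_lit 20785536879558613218377128858177069141873357941090167276102799715600196866637658325386) (.dwn (nat_lit 144887268470678450795229150286250493243130592857548955365180961127393179150177413849312) (nat_lit 626101248)) .nil .nil) .dup) .nil l3268 = true := by decide +kernel
theorem cw14828 : wchk (nat_lit 5) [] [l3268] (nat_lit 26) (nat_lit 3) (nat_lit 0) (nat_lit 0) (nat_lit 5820672) (nat_lit 0) w14828 = true := by decide +kernel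
theorem cw14829 : wchk (nat_lit 5) [w220, w6930] [] (nat_lit 0) (nat_lit 1) (nat_lit 0) (nat_lit 2) (nat_lit 10595328) (nat_lit 78213124) w14829 = true := by decide +kernel
theorem cl3269 : lchk (nat_lit 5) [w14824, w433, w469, w871, w142, w14789, w14820, w14798, w14821, w3123, w638, w950, w14822, w14823, w4661, w864, w6961, w1805, w14806, w14825, w14826, w14827, w14815, w14816, w7328, w11485, w42, w164, w14819, w7347] (nat_lit 862143488) (.nod (nat_lit 315937490161641627988468938958374771312117823706002676888159387722) (.nod (nat_lit 19585338905899836274513012133105812793580870379944364009560715697633017868350666530840) .nil (.nod (nat_lit 5391906804844751363728175026258732637077841197135554197688349422353598393390440286264) .nil (.dwn (nat_lit 1637233771642773601531890684515462367396873738460298636257752930576101727683315449104384) (nat_lit 7069713408)) (.dwn (nat_lit 1637233771642773601531890684515462367396873738460298636257752930576101727683315449104384) (nat_lit 7069713408))) (.nod (nat_lit 5391906804844751363728175026258732637093686595275469142452445384833485950134901966904) (.opn (nat_lit 1637233771642773601531890684515462367401685136084152504919932805734275944022672773908480))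 .dup .dup)) (.nod (nat_lit 60727044370791667371167595218513714355591667736) .nil .nil (.dwn (nat_lit 7688908750329175453461377987312484948015269992) (nat_lit 23282688))) (.nod (nat_lit 36341817786182348387834900472077871497948344253025432711385665545903783095982994401416) .nil (.dwn (nat_lit 145264079087474525158396242021889232741338447781114376095018399073860329939428417374376) (nat_lit 1164133376)) .dup)) .nil (.nod (nat_lit 292296707268438723215795171847426597297667869771673111240099924152) .nil (.nod (nat_lit 20785535953221899319847565469609189072370095112208031015610779692232527943878475514250) (.dwn (nat_lit 144887267544341736896699586847465799290533883917980503719027609775059092719116278522072) (nat_lit 626101364)) .nil .nil) .dup) .nil l3269 = true := by decide +kernel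
theorem cw14830 : wchk (nat_lit 5) [] [l3269] (nat_lit 26) (nat_lit 3) (nat_lit 0) (nat_lit 0) (nat_lit 5820672) (nat_lit 0) w14830 = true := by decide +kernel
theorem cw14831 : wchk (nat_lit 5) [w11459, w16] [] (nat_lit 0) (nat_lit 0) (nat_lit 4) (nat_lit 2) (nat_lit 19490816) (nat_lit 9154564) w14831 = true := by decide +kernel
theorem cw14832 : wchk (nat_lit 5) [w1409] [] (nat_lit 1) (nat_lit 0) (nat_lit 1) (nat_lit 2) (nat_lit 22644736) (nat_lit 25165873) w14832 = true := by decide +kernel
theorem cw14833 : wchk (nat_lit 5) [w1386] [] (nat_lit 1) (nat_lit 0) (nat_lit 4) (nat_lit 2) (nat_lit 10064896) (nat_lit 25165861) w14833 = true := by decide +kernel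
theorem cl3270 : lchk (nat_lit 5) [w14824, w433, w469, w871, w142, w12889, w14820, w14798, w14792, w14821, w14832, w638, w950, w14822, w14823, w14833, w864, w6961, w1805, w14806, w14825, w14826, w14827, w14815, w14816, w7328, w11485, w42, w164, w14819, w7347] (nat_lit 862143488) (.nod (nat_lit 315937490161641627988468938958374771312117823706002676888159387722) (.nod (nat_lit 19585338905899836274513012133105812793580870379944364009560715697633017868350666530840) .nil (.nod (nat_lit 144993487796314339578581885194055312290272663613362440158269487703887703780042998188088) .nil .nil (.dwn (nat_lit 1637233771642773601531890684515462367396873738460298636257492104188278029768600842569728) (nat_lit 7069713408))) (.dwn (nat_lit 207429474375330716434940903501608339136413786337899870263381980652368544660845842827320) (nat_lit 895697920))) (.nod (nat_lit 61517329751023531696253475089371502710281953304) .nil .nil (.dwn (nat_lit 7688911472588110820969085841883296991837374576) (nat_lit 23282688))) (.nod (nat_lit 20933267206017722917216153747561178185164556757467839102242583026566633796069765851280) .nil (.dwn (nat_lit 145264080013811239056925805460673926693935156717960568805804242718487419511035407009968)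 (nat_lit 1164133376)) .dup)) .nil (.nod (nat_lit 292296757485252606309241282533741982958999198590516666952376027328) .nil (.nod (nat_lit 20785536879558613218377128858177069141873357941090167276102799715600196866637658325386) (.dwn (nat_lit 144887268470678450795229150286250493243130592857548955365180961127393179150177413849312) (nat_lit 626101368)) .nil .nil) .dup) .nil l3270 = true := by decide +kernel
theorem cw14834 : wchk (nat_lit 5) [] [l3270] (nat_lit 217) (nat_lit 3) (nat_lit 0) (nat_lit 0) (nat_lit 5820672) (nat_lit 0) w14834 = true := by decide +kernel
theorem cw14835 : wchk (nat_lit 5) [w162, w6930] [] (nat_lit 17) (nat_lit 0) (nat_lit 0) (nat_lit 2) (nat_lit 23153664) (nat_lit 78213124) w14835 = true := by decide +kernel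
theorem cw14836 : wchk (nat_lit 5) [] [l104] (nat_lit 1) (nat_lit 0) (nat_lit 4) (nat_lit 0) (nat_lit 5528576) (nat_lit 0) w14836 = true := by decide +kernel
theorem cw14837 : wchk (nat_lit 5) [w14836, w16] [] (nat_lit 1) (nat_lit 1) (nat_lit 0) (nat_lit 2) (nat_lit 90391552) (nat_lit 22228996) w14837 = true := by decide +kernel
theorem cw14838 : wchk (nat_lit 5) [] [l2302] (nat_lit 1) (nat_lit 0) (nat_lit 3) (nat_lit 0) (nat_lit 5671936) (nat_lit 0) w14838 = true := by decide +kernel
theorem cw14839 : wchk (nat_lit 5) [w14838, w16] [] (nat_lit 1) (nat_lit 1) (nat_lit 0) (nat_lit 2) (nat_lit 90391552) (nat_lit 22228996) w14839 = true := by decide +kernel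
theorem cw14840 : wchk (nat_lit 5) [w12588, w16] [] (nat_lit 1) (nat_lit 1) (nat_lit 1) (nat_lit 2) (nat_lit 90384384) (nat_lit 21712900) w14840 = true := by decide +kernel
theorem cw14841 : wchk (nat_lit 5) [w7298, w16] [] (nat_lit 1) (nat_lit 1) (nat_lit 0) (nat_lit 2) (nat_lit 89402368) (nat_lit 22228996) w14841 = true := by decide +kernel
theorem cw14842 : wchk (nat_lit 5) [w4548, w16] [] (nat_lit 1) (nat_lit 1) (nat_lit 0) (nat_lit 2) (nat_lit 89932800) (nat_lit 22228996) w14842 = true := by decide +kernel
theorem cw14843 : wchk (nat_lit 5) [w6718, w16] [] (nat_lit 1) (nat_lit 1) (nat_lit 1) (nat_lit 2) (nat_lit 88764416) (nat_lit 21712900) w14843 = true := by decide +kernel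
theorem cw14844 : wchk (nat_lit 5) [w13968, w16] [] (nat_lit 1) (nat_lit 1) (nat_lit 0) (nat_lit 2) (nat_lit 6466560) (nat_lit 22228996) w14844 = true := by decide +kernel
theorem cw14845 : wchk (nat_lit 5) [w13968, w16] [] (nat_lit 1) (nat_lit 1) (nat_lit 0) (nat_lit 2) (nat_lit 6982656) (nat_lit 22228996) w14845 = true := by decide +kernel

end Pool.Agent.W319.GCI.K5
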