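import Pool.Agent.W319.GCI.K5D0
import Pool.Agent.W319.GCI.K5D1
import Pool.Agent.W319.GCI.K5D2
import Pool.Agent.W319.GCI.K5D3
import Pool.Agent.W319.GCI.K5D4
import Pool.Agent.W319.GCI.K5D5
import Pool.Agent.W319.GCI.K5D6
import Pool.Agent.W319.GCI.K5D7
import Pool.Agent.W319.GCI.K5D8
import Pool.Agent.W319.GCI.K5D9
import Pool.Agent.W319.GCI.K5D10
import Pool.Agent.W319.GCI.K5D11
import Pool.Agent.W319.GCI.K5D12
import Pool.Agent.W319.GCI.K5D13
import Pool.Agent.W319.GCI.K5D14
import Pool.Agent.W319.GCI.K5D15
set_option autoImplicit false
set_option maxRecDepth 100000
set_option linter.all false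
namespace Pool.Agent.W319.GCI.K5
open Pool.Agent.W319.GCI

theorem cw14846 : wchk (nat_lit 5) [w16, w10668] [] (nat_lit 33) (nat_lit 0) (nat_lit 3) (nat_lit 2) (nat_lit 22121472) (nat_lit 76385284) w14846 = true := by decide +kernel
theorem cw14847 : wchk (nat_lit 5) [] [l1053] (nat_lit 0) (nat_lit 1) (nat_lit 4) (nat_lit 0) (nat_lit 5820672) (nat_lit 0) w14847 = true := by decide +kernel
theorem cw14848 : wchk (nat_lit 5) [w14847, w16] [] (nat_lit 1) (nat_lit 1) (nat_lit 0) (nat_lit 2) (nat_lit 23282688) (nat_lit 22228996) w14848 = true := by decide +kernel
theorem cw14849 : wchk (nat_lit 5) [w16, w10668] [] (nat_lit 33) (nat_lit 0) (nat_lit 3) (nat_lit 2) (nat_lit 9276416) (nat_lit 76385284) w14849 = true := by decide +kernel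
theorem cw14850 : wchk (nat_lit 5) [w6797] [] (nat_lit 0) (nat_lit 0) (nat_lit 4) (nat_lit 2) (nat_lit 325) (nat_lit 106792960) w14850 = true := by decide +kernel
theorem cw14851 : wchk (nat_lit 5) [w7297, w16] [] (nat_lit 17) (nat_lit 1) (nat_lit 0) (nat_lit 2) (nat_lit 626273280) (nat_lit 22228996) w14851 = true := by decide +kernel
theorem cl3271 : lchk (nat_lit 5) [w14815] (nat_lit 261) (.nod (nat_lit 3238984495459527274139267342375156799166390524060819951452298) (.nod (nat_lit 3885398227922040023631055367323738685891945373319689361605635534513129970187039146506) .nil (.opn (nat_lit 34968100503533705157499949953558650087163867741960878187215107412480464006353904468490)) .dup) (.nod (nat_lit 11418159169043211778963195285984137087937413642) .nil .nil (.opn (nat_lit 102762011502224644171645257487893346916298129930))) (.nod (nat_lit 3885398227922040023631055367323738685880527214150646149827910298524832026326806299146) .nil (.opn (nat_lit 34968100503533705157499949953558650087061105730458653543054603634604539894864772334090)) .dup)) .nil (.nod (nat_lit 292295602498533295159980736748488112748378635757114885569979088896) .nil .nil (.dwn (nat_lit 3885338942372350515000879681403339100712308793053847081160384323055406245599430836224)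 (nat_lit 16777221))) .nil l3271 = true := by decide +kernel
theorem cw14852 : wchk (nat_lit 5) [] [l3271] (nat_lit 1) (nat_lit 3) (nat_lit 0) (nat_lit 0) (nat_lit 5820672) (nat_lit 0) w14852 = true := by decide +kernel
theorem cw14853 : wchk (nat_lit 5) [w69, w6797] [] (nat_lit 1) (nat_lit 1) (nat_lit 4) (nat_lit 2) (nat_lit 10072064) (nat_lit 106792964) w14853 = true := by decide +kernel
theorem cw14854 : wchk (nat_lit 5) [] [l202] (nat_lit 0) (nat_lit 1) (nat_lit 3) (nat_lit 0) (nat_lit 2304768) (nat_lit 0) w14854 = true := by decide +kernel
theorem cw14855 : wchk (nat_lit 5) [w14854, w16] [] (nat_lit 17) (nat_lit 1) (nat_lit 4) (nat_lit 2) (nat_lit 23282688) (nat_lit 9154564) w14855 = true := by decide +kernel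
theorem cl3272 : lchk (nat_lit 5) [w14784, w9431, w10043, w6967, w16, w3356, w14797, w14810, w14834, w2934, w14835, w284, w14811, w14812, w14813, w14814, w14828, w14829, w14830, w7369, w10668, w6797, w14840, w14841, w14850, w14851, w14852, w7347, w14842, w7348, w14853, w5721, w14855, w14831, w14843, w14844, w14845, w14846, w14848, w11929, w14849, w7337, w14837, w14839] (nat_lit 23282688) (.nod (nat_lit 15796596544262978375195392938513057834538260505) (.nod (nat_lit 5147886671778120450789029373691090461277778337343461641517147891219381838061956980769) .nil (.nod (nat_lit 5391907731181465262257648426296134203125673673418260417707120494646618620295492569144) .nil (.nod (nat_lit 5162826514507786698271974663387071196863454642374120037638758701044146170160171538464) (.dwn (nat_lit 20795482030519027832896271330633741886083878424424090788563333941894946525771061223496) (nat_lit 39281968128)) .nil .nil) .dup) (.nod (nat_lit 5391913289201748653435029059004297918721772706246626304023816862538584188414554703984) (.dwn (nat_lit 20933267206017722917221912963294988523279380088735783981451614262698383425258291366024) (nat_lit 90391624)) .nil .nil)) (.nod (nat_lit 20558111952929385226389815682141617011862710315043040537975481807277537486671900774568)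 .nil (.nod (nat_lit 5391922552568887638730663446851237444673016662957343790280618806318868524572504131768) .nil (.dwn (nat_lit 20933275543048148003987983912357234096604878914954525686429693129892361101748224821456) (nat_lit 4922229760)) (.dwn (nat_lit 20933275543048148003987983912357234096604878914954525686429693129892361101748224821456) (nat_lit 4922229760))) (.nod (nat_lit 5123007930860858404988278411561346854973247107797815748995630698957956453935031720168) .nil (.dwn (nat_lit 5391929963262598826967170957128789065446688157726885476568226946303554063976769161472) (nat_lit 4922229760)) .dup)) (.nod (nat_lit 5391932742272740522555861273482870923236814968265463608927717017967336675034304008360) .nil (.nod (nat_lit 5391933668609454421085424712267564875833523905111656319711601524811912350404727703840) (.dwn (nat_lit 1139910569507445373595142246947994085247723268979332052625484482653763702542951164315968) (nat_lit 7069713480)) .nil .nil) .dup)) .nil .nil (.dwn (nat_lit 4752261034765735043741628724407465156851224920) (nat_lit 23282688)) l3272 = true := by decide +kernel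
theorem cw14856 : wchk (nat_lit 5) [] [l3272] (nat_lit 209) (nat_lit 1) (nat_lit 2) (nat_lit 0) (nat_lit 1767428352) (nat_lit 0) w14856 = true := by decide +kernel
theorem cw14857 : wchk (nat_lit 5) [] [l3094] (nat_lit 1) (nat_lit 2) (nat_lit 4) (nat_lit 0) (nat_lit 22597888) (nat_lit 0) w14857 = true := by decide +kernel
theorem cw14858 : wchk (nat_lit 5) [] [l3001] (nat_lit 1) (nat_lit 2) (nat_lit 4) (nat_lit 0) (nat_lit 19081984) (nat_lit 0) w14858 = true := by decide +kernel
theorem cw14859 : wchk (nat_lit 5) [] [l3271] (nat_lit 4) (nat_lit 2) (nat_lit 3) (nat_lit 0) (nat_lit 22597888) (nat_lit 0) w14859 = true := by decide +kernel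
theorem cw14860 : wchk (nat_lit 5) [] [l3271] (nat_lit 4) (nat_lit 2) (nat_lit 3) (nat_lit 0) (nat_lit 22597888) (nat_lit 0) w14860 = true := by decide +kernel
theorem cw14861 : wchk (nat_lit 5) [] [l2859] (nat_lit 1) (nat_lit 3) (nat_lit 4) (nat_lit 0) (nat_lit 21257472) (nat_lit 0) w14861 = true := by decide +kernel
theorem cw14862 : wchk (nat_lit 5) [] [l119] (nat_lit 17) (nat_lit 0) (nat_lit 2) (nat_lit 1) (nat_lit 21449216) (nat_lit 0) w14862 = true := by decide +kernel
theorem cw14863 : wchk (nat_lit 5) [] [l3016] (nat_lit 1) (nat_lit 3) (nat_lit 0) (nat_lit 0) (nat_lit 19343616) (nat_lit 0) w14863 = true := by decide +kernel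
theorem cw14864 : wchk (nat_lit 5) [] [l1233] (nat_lit 1) (nat_lit 1) (nat_lit 2) (nat_lit 0) (nat_lit 19458304) (nat_lit 0) w14864 = true := by decide +kernel
theorem cw14865 : wchk (nat_lit 5) [] [l1646] (nat_lit 1) (nat_lit 3) (nat_lit 4) (nat_lit 0) (nat_lit 20275456) (nat_lit 0) w14865 = true := by decide +kernel
theorem cw14866 : wchk (nat_lit 5) [] [l3058] (nat_lit 33) (nat_lit 0) (nat_lit 4) (nat_lit 1) (nat_lit 22350592) (nat_lit 0) w14866 = true := by decide +kernel
theorem cw14867 : wchk (nat_lit 5) [] [l3058] (nat_lit 33) (nat_lit 0) (nat_lit 4) (nat_lit 1) (nat_lit 22350592) (nat_lit 0) w14867 = true := by decide +kernel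
theorem cw14868 : wchk (nat_lit 5) [] [l1217] (nat_lit 1) (nat_lit 2) (nat_lit 4) (nat_lit 0) (nat_lit 21321984) (nat_lit 0) w14868 = true := by decide +kernel
theorem cl3273 : lchk (nat_lit 5) [w6171, w6797, w469, w871, w142, w6961, w14861, w14862, w14863, w14798, w521, w638, w950, w14864, w14865, w3298, w864, w1805, w14806, w14866, w14867, w14868, w14860, w14815, w14750, w14857, w14858, w42, w164, w14859] (nat_lit 862021632) (.nod (nat_lit 421249731613384931592940855955729817966795772218530888509969600521) (.nod (nat_lit 20556436209813942786351872322810349932637225730501727192937008222791743818029560662056) .nil (.dwn (nat_lit 145264067971433958376041480756472905310604833272599294956074015758555100713515841128520) (nat_lit 895576064)) (.dwn (nat_lit 145264067971433958376041480756472905310604833272599294956074015758555100713515841128520) (nat_lit 895576064))) (.nod (nat_lit 52682750160968134521875879243940682198695716952) .nil .nil (.dwn (nat_lit 7376701039808682096987585786066219930778765424) (nat_lit 23160832))) (.nod (nat_lit 20083349565668966448637055769770270673180622236131971520787376328630146743206307072040) .nil (.dwn (nat_lit 144414161447125768689868977437653943219682394789029065054470731144599559314651138656424)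 (nat_lit 627262552)) .dup)) .nil .nil (.nod (nat_lit 292296757485252606309241282533741982959841256744584981281907933184) .nil (.nod (nat_lit 20933276469384861901382844722016780195162325577864666456193058866270061987867006074880) (.dwn (nat_lit 143916171166764344283285003515886107061215064458319259883890915462108737737118483646696) (nat_lit 627262552)) .nil .nil) .dup) l3273 = true := by decide +kernel
theorem cw14869 : wchk (nat_lit 5) [] [l3273] (nat_lit 0) (nat_lit 2) (nat_lit 0) (nat_lit 0) (nat_lit 5820672) (nat_lit 0) w14869 = true := by decide +kernel
theorem cw14870 : wchk (nat_lit 5) [w15, w6797] [] (nat_lit 0) (nat_lit 0) (nat_lit 4) (nat_lit 2) (nat_lit 9219072) (nat_lit 106792964) w14870 = true := by decide +kernel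
theorem cl3274 : lchk (nat_lit 5) [w638] (nat_lit 8388653) (.nod (nat_lit 416286068644669038587281408) .nil (.nod (nat_lit 47474756587299640126237715565070581333013367376427774486784371328933801786081280) .nil (.nod (nat_lit 3885370437820623065216659614144614015714639757299912962342403478181832363279363604762) .nil (.opn (nat_lit 34968072713432288201613046790017831509262599554907328802614566846885089652210137039130)) .dup) (.opn (nat_lit 3885370437820623065216659614144614015714639757299912962343022455764640123637729329434))) (.nod (nat_lit 47474756587299640126237715565070581333013367376427774486784371328933801786081280) .nil (.dwn (nat_lit 3885370437820623065216659614144614015714639757299912962343022455764640123637729329434) (nat_lit 16777357)) .dup)) .nil .nil .nil l3274 = true := by decide +kernel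
theorem cw14871 : wchk (nat_lit 5) [] [l3274] (nat_lit 1) (nat_lit 1) (nat_lit 4) (nat_lit 0) (nat_lit 22597888) (nat_lit 0) w14871 = true := by decide +kernel
theorem cw14873 : wchk (nat_lit 5) [] [l3264] (nat_lit 26) (nat_lit 3) (nat_lit 1) (nat_lit 0) (nat_lit 5818880) (nat_lit 0) w14873 = true := by decide +kernel
theorem cw14874 : wchk (nat_lit 5) [] [l1550] (nat_lit 2) (nat_lit 1) (nat_lit 4) (nat_lit 0) (nat_lit 19486976) (nat_lit 0) w14874 = true := by decide +kernel
theorem cw14875 : wchk (nat_lit 5) [] [l3266] (nat_lit 26) (nat_lit 3) (nat_lit 0) (nat_lit 0) (nat_lit 5820672) (nat_lit 0) w14875 = true := by decide +kernel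
theorem cw14878 : wchk (nat_lit 5) [w16, w2643] [] (nat_lit 17) (nat_lit 0) (nat_lit 0) (nat_lit 2) (nat_lit 22228992) (nat_lit 23160836) w14878 = true := by decide +kernel
theorem cl3275 : lchk (nat_lit 5) [w746, w15, w158, w10099, w1143, w7402, w11, w3232, w2922, w6037, w346, w1473] (nat_lit 9276416) .nil (.nod (nat_lit 4176786588853872243256192286972622421513508392802705424432920310969547346756946100224) .nil (.nod (nat_lit 45622083159502580999309929363282294469028988675620544360328221217271584428916736) .nil (.nod (nat_lit 142443733022594642383318725606860764018163692675387813240792583505759125315057226539040) .nil (.opn (nat_lit 1136666904238374712983157271258256681352172361738360535989179600175909677245213284440064)) .dup) (.nod (nat_lit 142485234760050724304819190130475400228274038459496273027316431650384434842549796659232) (.opn (nat_lit 1136666904238374712983157271258256681352172361738360535989360681660989089294276483553280)) .dup .dup)) (.nod (nat_lit 45622083159502580999309929363282294469028988675620544315636482693156210508562432) .nil (.dwn (nat_lit 142443733022594642383318725606860764018163692675387813240795401626066886320073010241568) (nat_lit 613256192))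 (.dwn (nat_lit 142443733022594642383318725606860764018163692675387813240795401626066886320073010241568) (nat_lit 613256192)))) (.nod (nat_lit 5828015245291790774472784354017833458447086155348397049819844898035036109576448186432) .nil (.dwn (nat_lit 18018309740863813825181946404053135694082066808847513126926089152674677748122013866072) (nat_lit 76385280)) .dup) .nil l3275 = true := by decide +kernel
theorem cw14879 : wchk (nat_lit 5) [] [l3275] (nat_lit 2) (nat_lit 1) (nat_lit 4) (nat_lit 0) (nat_lit 22597888) (nat_lit 0) w14879 = true := by decide +kernel
theorem cw14880 : wchk (nat_lit 5) [w220, w2643] [] (nat_lit 0) (nat_lit 1) (nat_lit 1) (nat_lit 2) (nat_lit 23211008) (nat_lit 23225348) w14880 = true := by decide +kernel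
theorem cw14881 : wchk (nat_lit 5) [] [l3268] (nat_lit 26) (nat_lit 3) (nat_lit 0) (nat_lit 0) (nat_lit 5820672) (nat_lit 0) w14881 = true := by decide +kernel
theorem cw14882 : wchk (nat_lit 5) [w220, w2643] [] (nat_lit 0) (nat_lit 1) (nat_lit 0) (nat_lit 2) (nat_lit 10595328) (nat_lit 23160836) w14882 = true := by decide +kernel
theorem cw14883 : wchk (nat_lit 5) [] [l3269] (nat_lit 26) (nat_lit 3) (nat_lit 0) (nat_lit 0) (nat_lit 5820672) (nat_lit 0) w14883 = true := by decide +kernel
theorem cw14884 : wchk (nat_lit 5) [w2546, w16] [] (nat_lit 0) (nat_lit 0) (nat_lit 4) (nat_lit 2) (nat_lit 23211008) (nat_lit 9154564) w14884 = true := by decide +kernel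
theorem cw14885 : wchk (nat_lit 5) [] [l3270] (nat_lit 217) (nat_lit 3) (nat_lit 0) (nat_lit 0) (nat_lit 5820672) (nat_lit 0) w14885 = true := by decide +kernel
theorem cw14886 : wchk (nat_lit 5) [w162, w2643] [] (nat_lit 17) (nat_lit 0) (nat_lit 0) (nat_lit 2) (nat_lit 23153664) (nat_lit 23160836) w14886 = true := by decide +kernel
theorem cw14887 : wchk (nat_lit 5) [w11586, w16] [] (nat_lit 1) (nat_lit 1) (nat_lit 0) (nat_lit 2) (nat_lit 82456576) (nat_lit 22228996) w14887 = true := by decide +kernel
theorem cw14888 : wchk (nat_lit 5) [w13184, w16] [] (nat_lit 1) (nat_lit 1) (nat_lit 0) (nat_lit 2) (nat_lit 82592768) (nat_lit 22228996) w14888 = true := by decide +kernel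
theorem cw14889 : wchk (nat_lit 5) [w1128, w16] [] (nat_lit 1) (nat_lit 1) (nat_lit 0) (nat_lit 2) (nat_lit 118727680) (nat_lit 22228996) w14889 = true := by decide +kernel
theorem cw14890 : wchk (nat_lit 5) [w1128, w16] [] (nat_lit 1) (nat_lit 1) (nat_lit 0) (nat_lit 2) (nat_lit 122913792) (nat_lit 22228996) w14890 = true := by decide +kernel
theorem cw14891 : wchk (nat_lit 5) [] [l1272] (nat_lit 0) (nat_lit 1) (nat_lit 3) (nat_lit 0) (nat_lit 5573376) (nat_lit 0) w14891 = true := by decide +kernel
theorem cw14892 : wchk (nat_lit 5) [w14891, w16] [] (nat_lit 1) (nat_lit 1) (nat_lit 0) (nat_lit 2) (nat_lit 23282688) (nat_lit 22228996) w14892 = true := by decide +kernel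
theorem cw14893 : wchk (nat_lit 5) [w2442, w16] [] (nat_lit 17) (nat_lit 1) (nat_lit 0) (nat_lit 2) (nat_lit 122892288) (nat_lit 22228996) w14893 = true := by decide +kernel
theorem cw14894 : wchk (nat_lit 5) [w6932, w16] [] (nat_lit 1) (nat_lit 1) (nat_lit 0) (nat_lit 2) (nat_lit 111767552) (nat_lit 22228996) w14894 = true := by decide +kernel
theorem cl3276 : lchk (nat_lit 5) [w14878, w9431, w10045, w8398, w16, w3356, w14873, w14875, w14885, w2934, w14886, w284, w14811, w14879, w14813, w14880, w14881, w14882, w14883, w7369, w10668, w6797, w14843, w14889, w14893, w7347, w14842, w7348, w14783, w14784, w14894, w14870, w14884, w14890, w14846, w14892, w11929, w14849, w14871, w14887, w14888] (nat_lit 23282688) (.nod (nat_lit 15796596544262978378928518090551169770480752665) (.nod (nat_lit 5147886671778120450789029373691090461277778337343461641517147891219381838061956980769) .nil (.nod (nat_lit 5390247735790159097280146101185528156734119544795264899686792074089933014067751323704) .nil (.nod (nat_lit 5162826514507786698271974663387071196863454642374120037638758701044146170160171538464) (.dwn (nat_lit 20795482030519027832896271330633741886083878424424090788563333941894946525771061223496)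 (nat_lit 39281968128)) .nil .nil) .dup) (.nod (nat_lit 5391913289201748653435029059004297918721772706246626304023816862538584188414554703984) (.dwn (nat_lit 20933267206017722917221912963294988523279380088735783981451614262698383425258291366024) (nat_lit 90391624)) .nil .nil)) (.nod (nat_lit 20558111952929385226389815682141617011862710315043040537975481807277537486671900774568) .nil (.nod (nat_lit 5391922552568887638730663446851237444673016662957343790280618806318868524572504131768) .nil (.dwn (nat_lit 5147886555986031213472833943843003717157566628674138394195820840453720289240107409440) (nat_lit 4922229760)) (.dwn (nat_lit 5147886555986031213472833943843003717157566628674138394195820840453720289240107409440) (nat_lit 4922229760))) (.nod (nat_lit 5123006078187430607929151533991958949779829234105430327423943409703777310721052448984) (.opn (nat_lit 20933279248395003598106237667496009910325765283389454553198546318786828316124809431280)) (.dwn (nat_lit 20933279248395003598106237667496009910325765283389454553198589427499563002039848306928) (nat_lit 4922229760)) .dup)) (.nod (nat_lit 5391931815936026624026297834698176970640106031419270898141873373487821056016989753512) .nil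 (.nod (nat_lit 5391922552568887638730663446851237444673016662957343790281477790762577017017616206008) (.dwn (nat_lit 1139910566728435231899553556631640003389933142160626697687024428596761443249767758334248) (nat_lit 7069713480)) .nil .nil) .dup)) .nil .nil (.dwn (nat_lit 15845479807683005790186179018945548352016044352) (nat_lit 23282688)) l3276 = true := by decide +kernel
theorem cw14895 : wchk (nat_lit 5) [] [l3276] (nat_lit 209) (nat_lit 1) (nat_lit 2) (nat_lit 0) (nat_lit 1767428352) (nat_lit 0) w14895 = true := by decide +kernel
theorem cw14896 : wchk (nat_lit 5) [w158, w16] [] (nat_lit 1) (nat_lit 3) (nat_lit 0) (nat_lit 2) (nat_lit 88821760) (nat_lit 22293508) w14896 = true := by decide +kernel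
theorem cw14897 : wchk (nat_lit 5) [w2527, w16] [] (nat_lit 1) (nat_lit 3) (nat_lit 0) (nat_lit 2) (nat_lit 22816768) (nat_lit 22293508) w14897 = true := by decide +kernel
theorem cw14898 : wchk (nat_lit 5) [w50, w1184] [] (nat_lit 0) (nat_lit 0) (nat_lit 0) (nat_lit 2) (nat_lit 13469696) (nat_lit 22121476) w14898 = true := by decide +kernel
theorem cw14899 : wchk (nat_lit 5) [w667, w1184] [] (nat_lit 0) (nat_lit 0) (nat_lit 0) (nat_lit 2) (nat_lit 22630400) (nat_lit 22121476) w14899 = true := by decide +kernel
theorem cw14900 : wchk (nat_lit 5) [w162, w1184] [] (nat_lit 4) (nat_lit 0) (nat_lit 0) (nat_lit 2) (nat_lit 22630400) (nat_lit 22121476) w14900 = true := by decide +kernel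
theorem cl3277 : lchk (nat_lit 5) [w1185, w1182, w16, w2378, w9773, w2015, w5307, w12203, w2037, w14900, w5298, w14896, w14897, w9980, w128, w14898, w10973, w14899] (nat_lit 22121472) (.nod (nat_lit 5122983846106297043219629003159304087458814749796805268562836958784711629988165261320) .nil (.dwn (nat_lit 20664334057575415712894018418261843102792974158846504162170414210780550261333563742208) (nat_lit 89230336)) .dup) .nil (.nod (nat_lit 5162824777626448138529043215665770035744625385787508704915258761145928987432816564241) .nil (.nod (nat_lit 5375305924594975815421068607297766240720095066812299978077135429194131737216452614176) .nil (.nod (nat_lit 5162827440844500596801538102171765149886353833941272553568651895911062125201245952040) (.dwn (nat_lit 145264068897770672274570954156510306876652260850976990354647971549600832319036640880696) (nat_lit 4921068544)) .nil .nil) .dup) (.nod (nat_lit 5152872100180233099583171494535378089173788943310078827857213881244374231482533095504) (.nod (nat_lit 20933264427007581221633222646940906665855370192752300592599454065630906316758368807008) (.dwn (nat_lit 145264076308464383462807461666787858497425664061683933702156654441634527291739266771064)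 (nat_lit 4921068544)) .nil .nil) .nil .nil)) .dup l3277 = true := by decide +kernel
theorem cw14901 : wchk (nat_lit 5) [] [l3277] (nat_lit 28) (nat_lit 1) (nat_lit 3) (nat_lit 0) (nat_lit 156815616) (nat_lit 0) w14901 = true := by decide +kernel
theorem cl3278 : lchk (nat_lit 5) [w1120, w22, w1101, w1260, w291, w1259, w1278, w1258, w1262] (nat_lit 860523520) (.nod (nat_lit 83558107728285730871887815573200796403634274891) (.nod (nat_lit 28459911410021352267174665562430532472924825107182228497776684075162085493901826719818) .nil (.dwn (nat_lit 144993485943640911792462008336035531794140556751354096724193896377146652621356801417264) (nat_lit 894077952)) .dup) (.nod (nat_lit 315937898173254428122718588284687279806311110885584781400558534994) .nil (.nod (nat_lit 210624796758573376542982025784181253698448338281183334285828948042) .nil .nil (.dwn (nat_lit 5121329408735274269358083572856867933848221478845950105370100563618946486318999273482) (nat_lit 4921061408))) .nil) .nil) .nil .nil .nil l3278 = true := by decide +kernel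
theorem cw14902 : wchk (nat_lit 5) [] [l3278] (nat_lit 25) (nat_lit 3) (nat_lit 0) (nat_lit 0) (nat_lit 156815616) (nat_lit 0) w14902 = true := by decide +kernel
theorem cw14903 : wchk (nat_lit 5) [] [l3127] (nat_lit 25) (nat_lit 3) (nat_lit 0) (nat_lit 0) (nat_lit 2304768) (nat_lit 0) w14903 = true := by decide +kernel
theorem cl3279 : lchk (nat_lit 5) [w432, w1381, w915, w158, w1120, w2636, w1548, w1546] (nat_lit 13992960) (.nod (nat_lit 7770684137517519845497558552509909551787411022084207003390552403174489506035949109248) (.nod (nat_lit 3885353763759772891684517665803308985897559810820343742300617061431788010838509486226) .nil (.dwn (nat_lit 142020432345138142516956370941493421742419391621855126513377518123794369178541621731344) (nat_lit 617972736)) .dup) (.nod (nat_lit 7635225804123728200606414664588561133067722776) .nil .nil (.dwn (nat_lit 11418014889319637323234876977351643967325732946) (nat_lit 617972736))) .nil) .nil .nil (.nod (nat_lit 3885338942372350515211502645248205744333089793843045409962388237059457760978404376576) .nil (.nod (nat_lit 45622083159502580999309929363282347703009361466321696264271115687818405803665440) (.dwn (nat_lit 142445394870659376345355534786601714977078251851519862977830968095164517343174109718576)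 (nat_lit 617972736)) .nil .nil) .dup) l3279 = true := by decide +kernel
theorem cw14904 : wchk (nat_lit 5) [] [l3279] (nat_lit 4) (nat_lit 1) (nat_lit 3) (nat_lit 0) (nat_lit 22597888) (nat_lit 0) w14904 = true := by decide +kernel
theorem cw14905 : wchk (nat_lit 5) [] [l3127] (nat_lit 0) (nat_lit 3) (nat_lit 1) (nat_lit 0) (nat_lit 1387264) (nat_lit 0) w14905 = true := by decide +kernel
theorem cw14906 : wchk (nat_lit 5) [] [l3127] (nat_lit 0) (nat_lit 3) (nat_lit 0) (nat_lit 0) (nat_lit 2304768) (nat_lit 0) w14906 = true := by decide +kernel
theorem cw14907 : wchk (nat_lit 5) [] [l3127] (nat_lit 0) (nat_lit 3) (nat_lit 0) (nat_lit 0) (nat_lit 2304768) (nat_lit 0) w14907 = true := by decide +kernel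
theorem cl3280 : lchk (nat_lit 5) [w433, w5576, w5415, w10662, w9311, w3515, w1409, w14902, w14903, w126, w1129, w14904, w53, w3473, w1120, w14905, w14906, w5157, w14907] (nat_lit 78220288) (.nod (nat_lit 5122983846106297043219629003159304087458814870256763158575053024819322660834127118482) .nil (.dwn (nat_lit 143456329284954689121227289874815629074240613663913282963537754545204673675370235093024) (nat_lit 615091200)) .dup) (.nod (nat_lit 15055107315165209703994667342610002071177586736) .nil .nil (.dwn (nat_lit 11417993111248154361233026117118338884740055058) (nat_lit 23282720))) (.nod (nat_lit 5028371519495556827740483729802838139933368610353366740017173496978097427918492795474) .nil (.nod (nat_lit 5240851855919459843407622580596978694091633187359837937707373699302523232651875879000) .nil .nil (.dwn (nat_lit 1634415099468335733399786135428148302889373359875579173719877183606480233983649908987904) (nat_lit 7057542144))) (.nod (nat_lit 5378633326071299333612850733387965464643165868459346015722102901815899631698249455728) (.dwn (nat_lit 20933267206017722917221912963294988523280170385005051587286309089111227285008388884624) (nat_lit 7057542144)) .nil .nil)) .nil l3280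 = true := by decide +kernel
theorem cw14908 : wchk (nat_lit 5) [] [l3280] (nat_lit 17) (nat_lit 3) (nat_lit 3) (nat_lit 0) (nat_lit 5820672) (nat_lit 0) w14908 = true := by decide +kernel
theorem cw14909 : wchk (nat_lit 5) [w162, w6797] [] (nat_lit 25) (nat_lit 0) (nat_lit 4) (nat_lit 2) (nat_lit 10301440) (nat_lit 73238532) w14909 = true := by decide +kernel
theorem cw14910 : wchk (nat_lit 5) [] [l3264] (nat_lit 26) (nat_lit 3) (nat_lit 0) (nat_lit 0) (nat_lit 5820672) (nat_lit 0) w14910 = true := by decide +kernel
theorem cw14911 : wchk (nat_lit 5) [] [l3266] (nat_lit 26) (nat_lit 3) (nat_lit 0) (nat_lit 0) (nat_lit 5820672) (nat_lit 0) w14911 = true := by decide +kernel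
theorem cw14912 : wchk (nat_lit 5) [] [l2401] (nat_lit 0) (nat_lit 0) (nat_lit 3) (nat_lit 1) (nat_lit 5671936) (nat_lit 0) w14912 = true := by decide +kernel
theorem cw14913 : wchk (nat_lit 5) [] [l2401] (nat_lit 0) (nat_lit 0) (nat_lit 3) (nat_lit 1) (nat_lit 5671936) (nat_lit 0) w14913 = true := by decide +kernel
theorem cw14914 : wchk (nat_lit 5) [w2690, w16] [] (nat_lit 1) (nat_lit 3) (nat_lit 1) (nat_lit 2) (nat_lit 90334208) (nat_lit 21777412) w14914 = true := by decide +kernel
theorem cw14915 : wchk (nat_lit 5) [w1128, w16] [] (nat_lit 1) (nat_lit 3) (nat_lit 0) (nat_lit 2) (nat_lit 156525568) (nat_lit 22293508) w14915 = true := by decide +kernel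
theorem cw14916 : wchk (nat_lit 5) [w2692, w16] [] (nat_lit 1) (nat_lit 3) (nat_lit 0) (nat_lit 2) (nat_lit 90269696) (nat_lit 22293508) w14916 = true := by decide +kernel
theorem cl3281 : lchk (nat_lit 5) [w11929, w14901, w801, w3961, w2643, w3356, w1555, w14910, w14874, w14911, w16, w433, w6797, w14740, w14741, w14908, w2934, w284, w14909, w7347, w14782, w7348, w14783, w14856, w14869, w14895, w7369, w14914, w14915, w14916, w14871, w7337, w14912, w14913] (nat_lit 21784576) (.nod (nat_lit 15845379424384764113302957433467237617871906841) (.nod (nat_lit 5363685956855832660578822297114959426406975749342451736369376096397847407274207111216) .nil (.dwn (nat_lit 5391908657518179160787211865080828155738228008404368073257060101606021796057267472456) (nat_lit 625764352)) (.dwn (nat_lit 5391908657518179160787211865080828155738228008404368073257060101606021796057267472456) (nat_lit 625764352))) (.nod (nat_lit 5162832188320159326765550725943321656518296880557050391204077863618348846136090628192) .nil (.nod (nat_lit 5391914215538462551964592497788991871302636231341609393208026006003227953416685127792) .nil (.nod (nat_lit 5147892114006314604650214576551167432737820225250964240603313337967842268256675520592)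 (.dwn (nat_lit 20916668178441375165974023460650702418663928309001955287830120343106896622217595148416) (nat_lit 39280470016)) .nil .nil) .dup) (.nod (nat_lit 5123000520167147216751770901283795234199575613028274062708881541941239881079114635432) (.dwn (nat_lit 20933273690374720206928857034787846191457132961984213110320147332941560366608266201280) (nat_lit 90391652)) .nil .nil)) (.nod (nat_lit 20556458441895076351119077451462911626737258044589051785244644109859890386694494163040) .nil (.dwn (nat_lit 5391927184252457131378480640774707207656561347188307344210696012422285349155800254696) (nat_lit 625764352)) .dup)) .nil .nil (.dwn (nat_lit 15845458029611522849522886692461459201214337280) (nat_lit 23282820)) l3281 = true := by decide +kernel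
theorem cw14917 : wchk (nat_lit 5) [] [l3281] (nat_lit 217) (nat_lit 1) (nat_lit 3) (nat_lit 0) (nat_lit 1230557440) (nat_lit 0) w14917 = true := by decide +kernel
theorem cw14918 : wchk (nat_lit 5) [w14917, w34] [] (nat_lit 145) (nat_lit 0) (nat_lit 1) (nat_lit 2) (nat_lit 23282688) (nat_lit 23282692) w14918 = true := by decide +kernel
theorem cw14919 : wchk (nat_lit 5) [w5277, w3619] [] (nat_lit 1169) (nat_lit 0) (nat_lit 2) (nat_lit 2) (nat_lit 9154560) (nat_lit 23282692) w14919 = true := by decide +kernel
theorem cw14920 : wchk (nat_lit 5) [] [l479] (nat_lit 1) (nat_lit 1) (nat_lit 4) (nat_lit 0) (nat_lit 21648128) (nat_lit 0) w14920 = true := by decide +kernel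
theorem cw14921 : wchk (nat_lit 5) [] [l50] (nat_lit 2) (nat_lit 3) (nat_lit 1) (nat_lit 0) (nat_lit 22205440) (nat_lit 0) w14921 = true := by decide +kernel
theorem cl3282 : lchk (nat_lit 5) [w14516, w25, w7724] (nat_lit 4876633088) (.nod (nat_lit 618970665278732717317423131) (.nod (nat_lit 618970665278732717317423131) (.nod (nat_lit 618970646831988643607871514) (.nod (nat_lit 618970646831988643607871514) (.nod (nat_lit 9097082318715909947672399349502256278878542061442182295299558666485738247174351631679898) .nil (.opn (nat_lit 72754456579168600147505354106352168686565889300626570854185412609922177167987931127121928)) .dup) .nil (.nod (nat_lit 9096931260061637800557968012349485464911969292803340160605361435903129491313744651747354) (.opn (nat_lit 72754305520514328000390914580293341142667965816259592464323844687077879840560713246613520)) .dup .dup)) .nil .nil) .nil .nil) .nil .nil) .nil .nil .nil l3282 = true := by decide +kernel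
theorem cw14922 : wchk (nat_lit 5) [] [l3282] (nat_lit 17) (nat_lit 3) (nat_lit 1) (nat_lit 0) (nat_lit 156815616) (nat_lit 0) w14922 = true := by decide +kernel
theorem cw14923 : wchk (nat_lit 5) [] [l931] (nat_lit 17) (nat_lit 3) (nat_lit 1) (nat_lit 0) (nat_lit 30696192) (nat_lit 0) w14923 = true := by decide +kernel
theorem cl3283 : lchk (nat_lit 5) [w2118, w281, w10, w86, w8695, w3518, w14920, w6027, w5376, w632, w14921, w7777, w14922, w14923, w5925, w91, w80] (nat_lit 23282688) (.nod (nat_lit 1134704003810427903768021482862785275063414873523070169460431126682) (.nod (nat_lit 1134794036280618554930217179590482342622821027264473619746336538779) (.nod (nat_lit 22934305493039810100661375000) (.nod (nat_lit 1139910535232986959287753815764554957178356359658442233300384058848358097736563519652250) .nil (.opn (nat_lit 9097082317789573234267023606725034565850455148909626270404244071572697533807416366761984)) .dup) .nil (.nod (nat_lit 1139910535232986959287753815764554957178356359658442233300384058854888245138656734478362) (.opn (nat_lit 9097082317789573234267023606725034565850455148909626270405693320398235196786034132551680)) .dup .dup)) .nil .nil) .nil (.nod (nat_lit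 7873880918197121235291037963781941157562537669529022215379230296112) (.dwn (nat_lit 145235848976118467469951974863359161915801781637182356508616663949040654353260279662672) (nat_lit 4921061420)) .nil .nil)) (.nod (nat_lit 22934305493039810100661375000) .nil .nil (.nod (nat_lit 15845409028950686234745763954706983204652318746) (.dwn (nat_lit 20933265353344295126901332986242418394915827096657614363272791442022240389275797989504) (nat_lit 89223212)) .nil .nil)) .nil .nil l3283 = true := by decide +kernel
theorem cw14924 : wchk (nat_lit 5) [] [l3283] (nat_lit 26) (nat_lit 3) (nat_lit 2) (nat_lit 0) (nat_lit 5820672) (nat_lit 0) w14924 = true := by decide +kernel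
theorem cw14925 : wchk (nat_lit 5) [] [l637] (nat_lit 2) (nat_lit 1) (nat_lit 3) (nat_lit 0) (nat_lit 5705984) (nat_lit 0) w14925 = true := by decide +kernel
theorem cw14927 : wchk (nat_lit 5) [] [l3263] (nat_lit 1) (nat_lit 3) (nat_lit 2) (nat_lit 0) (nat_lit 19601664) (nat_lit 0) w14927 = true := by decide +kernel
theorem cw14928 : wchk (nat_lit 5) [] [l373] (nat_lit 1) (nat_lit 1) (nat_lit 1) (nat_lit 0) (nat_lit 21162496) (nat_lit 0) w14928 = true := by decide +kernel
theorem cw14929 : wchk (nat_lit 5) [] [l3271] (nat_lit 4) (nat_lit 2) (nat_lit 3) (nat_lit 0) (nat_lit 22583552) (nat_lit 0) w14929 = true := by decide +kernel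
theorem cl3285 : lchk (nat_lit 5) [w2551, w448, w1576, w142, w220, w6961, w11286, w7242, w13149, w6183, w616, w15, w201, w14928, w659, w8380, w3298, w864, w1805, w7241, w6171, w6170, w7240, w6175, w14929, w14927, w3183, w8273, w42, w164, w8274] (nat_lit 10824704) (.nod (nat_lit 22835993708708380982632228766824985360574144521) (.nod (nat_lit 19724778518769554132586222156370055770285899303613565930170930429325714085261316114472) .nil (.dwn (nat_lit 143416493100910196755934261661036022527170104778462645691310427709215995524920604006472) (nat_lit 614804480)) .dup) (.nod (nat_lit 1015019703948241520499990378566264532174223449325818896465444636760) .nil .nil (.dwn (nat_lit 273398613699814166640960590778340668479552455868581351025776547952) (nat_lit 625764412))) (.nod (nat_lit 20070070528875231027339310833665963111504828505501065752150523049807492481350822971432) (.opn (nat_lit 143413185152504865113648742624103700501808651033417715862251000236613638150426365958328)) (.dwn (nat_lit 143413185152504865106910375951731909147713428002197149628390381826871602308177551595704) (nat_lit 614804480)) .dup)) .nil .nil (.nod (nat_lit 14825846834405364308233690451214224011143675904) .nil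 (.nod (nat_lit 19751360677111586336986805385753718834043232222210325392344072641882725246003591512064) (.dwn (nat_lit 143929452056231507501641784587777115778284485835607553917743563976724292253534140948720) (nat_lit 614804480)) .nil .nil) .dup) l3285 = true := by decide +kernel
theorem cw14930 : wchk (nat_lit 5) [] [l3285] (nat_lit 4) (nat_lit 1) (nat_lit 4) (nat_lit 0) (nat_lit 22597888) (nat_lit 0) w14930 = true := by decide +kernel
theorem cw14932 : wchk (nat_lit 5) [] [l110] (nat_lit 1) (nat_lit 1) (nat_lit 1) (nat_lit 0) (nat_lit 22481408) (nat_lit 0) w14932 = true := by decide +kernel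
theorem cl3287 : lchk (nat_lit 5) [w2766, w10, w109, w8695, w7171, w12168] (nat_lit 17476608) (.nod (nat_lit 7770693400884658830371942857225766964507436759786196593655349657860916469299939377152) .nil (.nod (nat_lit 57682970873120754369009369113233119725313740816) (.nod (nat_lit 422941298571295262803857493681174333663510616064) .nil .nil (.dwn (nat_lit 3345944573233101099369683484142269048171053537280) (nat_lit 4916423680))) .nil (.dwn (nat_lit 7801889892947062938527301679521910137292792813487523760325029873664) (nat_lit 621456384))) (.nod (nat_lit 47474756587299640123664103853562830526800188486353918624859394412112558607886368) (.opn (nat_lit 143919466146455681352941435314581854536971171120124327310225762828347679610850306775040)) .dup .dup)) .nil .nil (.nod (nat_lit 3885348205739489500296511935035688595196520472402898950155007343078088702311775862784) .nil .nil (.dwn (nat_lit 3885340795045778312060004826492648039170417863123880349158908815431528954450795726888) (nat_lit 7069713428))) l3287 = true := by decide +kernel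
theorem cw14934 : wchk (nat_lit 5) [] [l3287] (nat_lit 1) (nat_lit 1) (nat_lit 1) (nat_lit 0) (nat_lit 22597888) (nat_lit 0) w14934 = true := by decide +kernel
theorem cw14935 : wchk (nat_lit 5) [] [l2793] (nat_lit 1) (nat_lit 1) (nat_lit 1) (nat_lit 0) (nat_lit 21321984) (nat_lit 0) w14935 = true := by decide +kernel
theorem cw14958 : wchk (nat_lit 5) [] [] (nat_lit 17) (nat_lit 0) (nat_lit 4) (nat_lit 2) (nat_lit 25165861) (nat_lit 201) w14958 = true := by decide +kernel
theorem cw14975 : wchk (nat_lit 5) [w778] [] (nat_lit 18) (nat_lit 1) (nat_lit 3) (nat_lit 2) (nat_lit 611084288) (nat_lit 325) w14975 = true := by decide +kernel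
theorem cw14976 : wchk (nat_lit 5) [w14000] [] (nat_lit 25) (nat_lit 1) (nat_lit 3) (nat_lit 2) (nat_lit 18695168) (nat_lit 325) w14976 = true := by decide +kernel
theorem cl3300 : lchk (nat_lit 5) [w6797, w1166, w66, w14975, w13332, w69, w9311, w8264, w14045, w389, w112, w14976] (nat_lit 56242176) (.nod (nat_lit 5378623136367446449496887059059119366580179901872901244679408361432738748752979820544) .nil .nil (.dwn (nat_lit 3885339868709064413822737191073742914118892109771721189596555028266286317141321842688) (nat_lit 4910187536))) (.nod (nat_lit 109570922148542430156759760907257123477544) (.nod (nat_lit 244691971176288266224177938422048030570642380374077391965660801088) .nil (.nod (nat_lit 61787204888906214539943389864206818863388167425912714635999218499584) .nil .nil .nil) (.dwn (nat_lit 5385753288965121586459725280034527561848926175408102697099264) (nat_lit 4921634816))) .nil (.dwn (nat_lit 244691971176288265810018260615479525468680857905190024643042764864) (nat_lit 626667520))) (.nod (nat_lit 39137726162212874053166992932936512854405254816986511193321545806394165215008784) .nil (.dwn (nat_lit 5391912362865034754859391241530540781461648667106041229190575144629952228825881569344)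 (nat_lit 625635328)) (.dwn (nat_lit 5391912362865034754859391241530540781461648667106041229190575144629952228825881569344) (nat_lit 625635328))) .nil l3300 = true := by decide +kernel
theorem cw14981 : wchk (nat_lit 5) [w2766] [] (nat_lit 1) (nat_lit 2) (nat_lit 2) (nat_lit 2) (nat_lit 23225344) (nat_lit 325) w14981 = true := by decide +kernel
theorem cw14985 : wchk (nat_lit 5) [w8638] [] (nat_lit 2) (nat_lit 1) (nat_lit 2) (nat_lit 2) (nat_lit 23211008) (nat_lit 325) w14985 = true := by decide +kernel
theorem cw14986 : wchk (nat_lit 5) [] [l3255] (nat_lit 17) (nat_lit 3) (nat_lit 2) (nat_lit 0) (nat_lit 2286848) (nat_lit 0) w14986 = true := by decide +kernel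
theorem cl3308 : lchk (nat_lit 5) [w1101] (nat_lit 8388613) (.nod (nat_lit 1011599643899021293645856740206398104747443644748499190142956732416) (.nod (nat_lit 5828023698114305098239114617451804197603800562038876032127257361429445094692884578304) .nil (.nod (nat_lit 3885368585147195267946906483529050124279720719976957382911756884208396213244307439616) .nil .nil (.dwn (nat_lit 3885339868709064413530441437924767969678573019186215436929691479480284023645135699968) (nat_lit 150995077))) .nil) .nil (.opn (nat_lit 38211389448314344491410471504067546590288693370779289094150528758624465264312650))) .nil .nil .nil l3308 = true := by decide +kernel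
theorem cw15007 : wchk (nat_lit 5) [w281] [] (nat_lit 18) (nat_lit 0) (nat_lit 1) (nat_lit 2) (nat_lit 209) (nat_lit 80521216) w15007 = true := by decide +kernel
theorem cw15045 : wchk (nat_lit 5) [w1929] [] (nat_lit 146) (nat_lit 0) (nat_lit 1) (nat_lit 2) (nat_lit 333) (nat_lit 609514496) w15045 = true := by decide +kernel
theorem cw15053 : wchk (nat_lit 5) [] [l731] (nat_lit 0) (nat_lit 2) (nat_lit 4) (nat_lit 0) (nat_lit 1613056) (nat_lit 0) w15053 = true := by decide +kernel
theorem cw15055 : wchk (nat_lit 5) [] [l3308] (nat_lit 1) (nat_lit 3) (nat_lit 3) (nat_lit 0) (nat_lit 22597888) (nat_lit 0) w15055 = true := by decide +kernel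
theorem cw15061 : wchk (nat_lit 5) [] [l95] (nat_lit 2) (nat_lit 3) (nat_lit 3) (nat_lit 0) (nat_lit 1776128) (nat_lit 0) w15061 = true := by decide +kernel
theorem cw15099 : wchk (nat_lit 5) [] [l430] (nat_lit 25) (nat_lit 2) (nat_lit 0) (nat_lit 0) (nat_lit 2824448) (nat_lit 0) w15099 = true := by decide +kernel
theorem cl3335 : lchk (nat_lit 5) [w6960] (nat_lit 8388625) (.nod (nat_lit 26824705) (.nod (nat_lit 48401093301198169687052671733631545482809091619610708046220960701214167301882116) .nil (.nod (nat_lit 3885371364157336963535596649232690332789509206623366164387816954311402981521855873024) .nil .nil (.opn (nat_lit 3885339868709064413530441437924767969678573019186215436929691479923005881414164938752))) (.opn (nat_lit 98423275851718976736439033875020254933131028733401403162927885006441333546549666))) .nil (.dwn (nat_lit 40990399590009933179944128693075519380178034529526771886040549497234187020665092) (nat_lit 177))) .nil .nil .nil l3335 = true := by decide +kernel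
theorem cw15119 : wchk (nat_lit 5) [] [l3335] (nat_lit 1) (nat_lit 2) (nat_lit 1) (nat_lit 0) (nat_lit 22597888) (nat_lit 0) w15119 = true := by decide +kernel
theorem cw15122 : wchk (nat_lit 5) [w16] [] (nat_lit 1) (nat_lit 2) (nat_lit 1) (nat_lit 2) (nat_lit 16777289) (nat_lit 88771584) w15122 = true := by decide +kernel
theorem cw15126 : wchk (nat_lit 5) [] [] (nat_lit 0) (nat_lit 0) (nat_lit 1) (nat_lit 2) (nat_lit 25165889) (nat_lit 25165897) w15126 = true := by decide +kernel
theorem cl3339 : lchk (nat_lit 5) [w9277, w14045, w13, w781, w2766, w142, w5529, w10099, w12324, w15126, w6960, w9070, w3383] (nat_lit 848932864) (.nod (nat_lit 67854164293067606455903626112251493382417526370899906992354694548125833762963456) .nil (.nod (nat_lit 284106696441803363861245263521375870737299300862394297527102865408) .nil .nil (.dwn (nat_lit 210624696324945610367507789356021830633978578366783604266811523072) (nat_lit 10072064))) (.opn (nat_lit 3240551851375247653946682590582334450840686380832115548407825975244971718251218409512))) (.nod (nat_lit 3628164803053507755683257271455506091437218475263788945768448) (.opn (nat_lit 174590905933534074024726670039807018098091623378247268046923655232))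 .nil (.dwn (nat_lit 1134794387798315736645857281423454638577404879908445386469648394304) (nat_lit 7056502784))) (.nod (nat_lit 205258202256175680441189509553222689391838203578056344017165342922219252947559708098560) .nil .nil (.dwn (nat_lit 3885338942372350515211502645248205744333089793843045409962388237059457760978549792864) (nat_lit 72708144))) .nil l3339 = true := by decide +kernel
theorem cl3340 : lchk (nat_lit 5) [w1449, w6714, w2015, w34, w3, w3406, w3407, w201, w199, w6103, w13, w12, w3402, w3405, w3404] (nat_lit 22121472) (.nod (nat_lit 1535705751126993373087864871233968355551126218639551407616706680841) (.nod (nat_lit 20919976126846706815045603342192492045338311458371693566998652895022542107578158700576) .nil (.opn (nat_lit 5166147431627112926774900462827405830259681508322982107172432911566032910961590585392)) .dup) (.nod (nat_lit 1114456578175662890909511996663497203066641480877267393786752473096) .nil .nil (.dwn (nat_lit 273488351146223254629160387223934845278577023681415406984808163384) (nat_lit 22121472))) (.nod (nat_lit 20689242325475433273495334022502402845514492684478358259262954188272633536488940423248) (.opn (nat_lit 145038314156236603330265586825749742219351081825779776733104725042917526107598141180008))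 (.dwn (nat_lit 145038314156236603330265586825749742219351081825779776733104725042917526107598141180008) (nat_lit 626101248)) .dup)) .nil .nil (.dwn (nat_lit 273488351146223254629160387223934845278577023681415406984808163384) (nat_lit 22121472)) l3340 = true := by decide +kernel
theorem cw15147 : wchk (nat_lit 5) [] [l3340] (nat_lit 25) (nat_lit 2) (nat_lit 0) (nat_lit 0) (nat_lit 5788416) (nat_lit 0) w15147 = true := by decide +kernel
theorem cw15159 : wchk (nat_lit 5) [] [l1538] (nat_lit 25) (nat_lit 1) (nat_lit 4) (nat_lit 0) (nat_lit 1484032) (nat_lit 0) w15159 = true := by decide +kernel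
theorem cw15163 : wchk (nat_lit 5) [] [l403] (nat_lit 18) (nat_lit 1) (nat_lit 2) (nat_lit 0) (nat_lit 5557248) (nat_lit 0) w15163 = true := by decide +kernel
theorem cw15166 : wchk (nat_lit 5) [] [l1056] (nat_lit 0) (nat_lit 0) (nat_lit 1) (nat_lit 1) (nat_lit 2566400) (nat_lit 0) w15166 = true := by decide +kernel
theorem cw15168 : wchk (nat_lit 5) [] [l1056] (nat_lit 0) (nat_lit 1) (nat_lit 1) (nat_lit 0) (nat_lit 2566400) (nat_lit 0) w15168 = true := by decide +kernel
theorem cw15174 : wchk (nat_lit 5) [] [l330] (nat_lit 18) (nat_lit 1) (nat_lit 3) (nat_lit 0) (nat_lit 156423168) (nat_lit 0) w15174 = true := by decide +kernel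
theorem cl3346 : lchk (nat_lit 5) [] (nat_lit 145) (.nod (nat_lit 109911204515463123698669998200461132300548) (.nod (nat_lit 3885371364157336963535596649232690332778091246859789968279412328211781896063959433216) .nil .nil (.opn (nat_lit 3885339868709064415426064508318300592378519051649287431827554792945603661582120779776))) (.nod (nat_lit 68780501006965820081601165095160617264842370891390495658413174099171912225653074) .nil (.opn (nat_lit 34968073639769002100142610228802525461756546561919064930265137940418942318262072901922)) .dup) .nil) (.nod (nat_lit 33554450) .nil .nil .nil) .nil .nil l3346 = true := by decide +kernel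
theorem cw15179 : wchk (nat_lit 5) [] [l3346] (nat_lit 18) (nat_lit 3) (nat_lit 3) (nat_lit 0) (nat_lit 5820672) (nat_lit 0) w15179 = true := by decide +kernel
theorem cw15197 : wchk (nat_lit 5) [] [l3231] (nat_lit 25) (nat_lit 3) (nat_lit 2) (nat_lit 0) (nat_lit 2810112) (nat_lit 0) w15197 = true := by decide +kernel
theorem cw15202 : wchk (nat_lit 5) [] [l3339] (nat_lit 2) (nat_lit 1) (nat_lit 3) (nat_lit 0) (nat_lit 19426048) (nat_lit 0) w15202 = true := by decide +kernel
theorem cw15218 : wchk (nat_lit 5) [w5841] [] (nat_lit 18) (nat_lit 0) (nat_lit 3) (nat_lit 2) (nat_lit 325) (nat_lit 22709248) w15218 = true := by decide +kernel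
theorem cw15249 : wchk (nat_lit 5) [] [l1258] (nat_lit 0) (nat_lit 1) (nat_lit 3) (nat_lit 0) (nat_lit 1774336) (nat_lit 0) w15249 = true := by decide +kernel
theorem cw15262 : wchk (nat_lit 5) [w126, w34] [] (nat_lit 2) (nat_lit 1) (nat_lit 1) (nat_lit 2) (nat_lit 89402368) (nat_lit 23282692) w15262 = true := by decide +kernel
theorem cl3360 : lchk (nat_lit 5) [w4038, w15197, w1, w795, w6095, w4209, w1070, w8908, w1106, w4632, w111, w1109, w3274, w10344, w10346, w10253, w3628] (nat_lit 90269696) (.nod (nat_lit 61788914727479221724092499741897438573054062371467279300283755481104) (.nod (nat_lit 291575844905146916812633847856725417852722925018099591153565476896) (.nod (nat_lit 3349813055626758708402976469122148793835705257984) (.nod (nat_lit 9097054097867921028969250716781789961461639979547901119410168654589704515315925854113792) .nil .nil (.dwn (nat_lit 72754428358320611224858178479574857494507099491186764525319629355501804359436707043659776) (nat_lit 314159753216))) (.nod (nat_lit 9097054097867921028969250716781789961434906140294979914012137558856583151379539413880832) .nil (.dwn (nat_lit 72754428358320611228802203943776467420493345407842414675205602116041094756114563122515968)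 (nat_lit 314159753216)) .dup) .nil) .nil (.dwn (nat_lit 61793144131917795771351606011726870508588489681549863433144088317952) (nat_lit 4922107904))) .nil (.dwn (nat_lit 291575844905146916812633847856725417852722925018099591153565476896) (nat_lit 627140608))) (.nod (nat_lit 6854705166693027126058979284895368089242376232) .nil .nil (.nod (nat_lit 15845392695397074029922602563631005551610726448) (.dwn (nat_lit 20933259795324011728985495491764729289055375331743183844154483509656554849697225410632) (nat_lit 90269696)) .nil .nil)) .nil (.nod (nat_lit 14786815085790064982665314739318575297524846672) .nil (.nod (nat_lit 5391912362865034754613259453866596460986302176118970289915957042903574509239913498720) (.dwn (nat_lit 145038315082573317228783631732633187729287340333758143424035106717055094317267802343544) (nat_lit 627262528)) .nil .nil) (.nod (nat_lit 5391912362865034754613259453866596460986302176118970289915957042903574509239913498720) (.dwn (nat_lit 145038315082573317228783631732633187729287340333758143424035106717055094317267802343544) (nat_lit 627262528)) .nil .nil)) l3360 = true := by decide +kernel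
theorem cw15263 : wchk (nat_lit 5) [] [l3360] (nat_lit 18066) (nat_lit 1) (nat_lit 1) (nat_lit 0) (nat_lit 22597888) (nat_lit 0) w15263 = true := by decide +kernel
theorem cw15264 : wchk (nat_lit 5) [w1202, w710] [] (nat_lit 2) (nat_lit 2) (nat_lit 2) (nat_lit 2) (nat_lit 80578560) (nat_lit 22121476) w15264 = true := by decide +kernel
theorem cw15265 : wchk (nat_lit 5) [] [] (nat_lit 2) (nat_lit 0) (nat_lit 3) (nat_lit 2) (nat_lit 337) (nat_lit 16777225) w15265 = true := by decide +kernel
theorem cw15266 : wchk (nat_lit 5) [w158] [] (nat_lit 2) (nat_lit 0) (nat_lit 3) (nat_lit 2) (nat_lit 22630400) (nat_lit 16777225) w15266 = true := by decide +kernel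
theorem cl3361 : lchk (nat_lit 5) [w4566, w2122, w69, w86, w85, w2445, w88, w2204, w539, w14137, w13145, w480, w15266, w3695, w15265, w7723, w14630] (nat_lit 588948480) (.nod (nat_lit 421249781830198814686386966642045203629745889289731930853071650890) (.nod (nat_lit 1114366639861998270558945769979984552473425245435044089426568282112) (.nod (nat_lit 425785348649172177439053770284352136913656741888) (.nod (nat_lit 19831016371139720893022461176527925850582430771513964514298372025858848406045971531776) .nil (.opn (nat_lit 144161825473586381439683051431630060319124448293265413703823810396243205120761894619136)) .dup) (.nod (nat_lit 19831016371139720893022461176527925850582430653776265559653663673766233731567998814208) .nil (.opn (nat_lit 144161825473586381439683051431630060318700794764644340369289264103102545891927459710976)) .dup) .nil) .nil .nil) .nil (.nod (nat_lit 1017089189065177684523098367100009273700038222642934171633332871232) (.dwn (nat_lit 207203715928449791904093198353553813125323832418687205240577752999381480205770186770536) (nat_lit 890938368)) .nil .nil)) .nil .nil (.nod (nat_lit 7874781305670045100718324279581174638967464108060460675853481842808) .nil (.dwn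 (nat_lit 1139671510718026293907453539441153388504074656826418644924277951172795196125070822998410) (nat_lit 4921197632)) (.dwn (nat_lit 1139671510718026293907453539441153388504074656826418644924277951172795196125070822998410) (nat_lit 4921197632))) l3361 = true := by decide +kernel
theorem cw15267 : wchk (nat_lit 5) [] [l3361] (nat_lit 282) (nat_lit 1) (nat_lit 3) (nat_lit 0) (nat_lit 22597888) (nat_lit 0) w15267 = true := by decide +kernel
theorem cw15268 : wchk (nat_lit 5) [w2122] [] (nat_lit 26) (nat_lit 0) (nat_lit 2) (nat_lit 2) (nat_lit 205) (nat_lit 77947904) w15268 = true := by decide +kernel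
theorem cw15269 : wchk (nat_lit 5) [w15265] [] (nat_lit 0) (nat_lit 1) (nat_lit 3) (nat_lit 2) (nat_lit 626803712) (nat_lit 33554481) w15269 = true := by decide +kernel
theorem cw15270 : wchk (nat_lit 5) [] [l3361] (nat_lit 1) (nat_lit 0) (nat_lit 3) (nat_lit 0) (nat_lit 5705984) (nat_lit 0) w15270 = true := by decide +kernel
theorem cw15272 : wchk (nat_lit 5) [w281, w2122] [] (nat_lit 1) (nat_lit 1) (nat_lit 2) (nat_lit 2) (nat_lit 90319872) (nat_lit 77947908) w15272 = true := by decide +kernel
theorem cl3362 : lchk (nat_lit 5) [w4209, w15267, w1379, w1, w69, w83, w3565, w4566, w3688, w15269, w91, w80, w8105, w4259, w15270, w521, w13717, w15268, w111, w370, w15272] (nat_lit 13742080) (.nod (nat_lit 426892714923701209858504773042805046773943369818) (.nod (nat_lit 1031127255446484309722652195620369668139658013346717984806823172128) (.nod (nat_lit 7855883262318234427663828537393117615584204197888256445555503267840) (.nod (nat_lit 3343402985178756062413383805485878950442081189888) (.nod (nat_lit 9094872863923744728188694416657404862935968535663498670177677484488486594652970860896256) .nil (.opn (nat_lit 72752247124376434928021529398723033568667771962115421676580974888205379604352287279112192))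 .dup) (.nod (nat_lit 9094872863923744728188694416657404862935968535545760971223032776136393979978492888178688) .nil (.opn (nat_lit 72752247124376434928021529398723033568453972323354592900309002236368805567995352069660672)) .dup) .nil) .nil .nil) .nil (.dwn (nat_lit 7862542564224085332646012760362725550393050193551023006201848350776) (nat_lit 617721856))) .nil (.nod (nat_lit 292296054449858243007226030837755430216255335003068162686202714200) (.dwn (nat_lit 145235853607802036962592592974844351402351922785333483831414765092933757781172630759544) (nat_lit 617721856)) .nil .nil)) .nil .nil (.nod (nat_lit 181581302709142213757283764360) .nil (.dwn (nat_lit 20558111026592671327861602121530914494190902737040729789434270027468585650887709426074) (nat_lit 90391632)) (.dwn (nat_lit 20558111026592671327861602121530914494190902737040729789434270027468585650887709426074) (nat_lit 90391632))) l3362 = true := by decide +kernel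
theorem cw15273 : wchk (nat_lit 5) [] [l3362] (nat_lit 2202) (nat_lit 1) (nat_lit 2) (nat_lit 0) (nat_lit 22597888) (nat_lit 0) w15273 = true := by decide +kernel
theorem cw15274 : wchk (nat_lit 5) [w368, w220] [] (nat_lit 1) (nat_lit 1) (nat_lit 4) (nat_lit 2) (nat_lit 17541120) (nat_lit 5599236) w15274 = true := by decide +kernel
theorem cw15275 : wchk (nat_lit 5) [w15274, w710] [] (nat_lit 2) (nat_lit 2) (nat_lit 2) (nat_lit 2) (nat_lit 23282688) (nat_lit 22121476) w15275 = true := by decide +kernel
theorem cw15276 : wchk (nat_lit 5) [w4209, w220] [] (nat_lit 0) (nat_lit 0) (nat_lit 4) (nat_lit 2) (nat_lit 15304704) (nat_lit 5599236) w15276 = true := by decide +kernel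
theorem cl3363 : lchk (nat_lit 5) [w13890, w257, w220, w142, w5358, w2740, w11939, w1379, w4342, w11676, w1674, w8715] (nat_lit 51475456) (.nod (nat_lit 14825817229839442186529979416795427440148086784) (.nod (nat_lit 117737698954644708364562613668305640808465) (.nod (nat_lit 4057268657561166924392532177891577827801595984932565883332513104533008270632981583912) .nil (.dwn (nat_lit 144022385860716663581557738049218763841721192933376021532151468464892845768994441062400) (nat_lit 621900800)) .dup) (.nod (nat_lit 3101111312168815897299359520626877115512077813719479206769959371954716242730931150888) .nil (.dwn (nat_lit 144022385860716663581557738049218763841297949180947971197817125676563511034991593318400) (nat_lit 621900800)) .dup) .nil) (.nod (nat_lit 129326675102846835936293891047208034863683234415314169964370503736) .nil (.opn (nat_lit 245501968384222563097076377205877564803403722678775766328745857104)) .dup) .nil) .nil .nil (.dwn (nat_lit 16947614566144765210769809656210743530917700577134480985033778211379508926528685604864) (nat_lit 73181228)) l3363 = true := by decide +kernel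
theorem cw15277 : wchk (nat_lit 5) [] [l3363] (nat_lit 4) (nat_lit 2) (nat_lit 1) (nat_lit 0) (nat_lit 5820672) (nat_lit 0) w15277 = true := by decide +kernel
theorem cl3364 : lchk (nat_lit 5) [w1326, w5415, w6960, w1467, w281, w10099, w1128, w648, w6661, w1304, w13384, w10685, w6204, w6774, w14044, w6803, w6794, w6798, w6793] (nat_lit 593586176) (.nod (nat_lit 11197799979612617527098481250497226598995274719906456705587044417536) (.nod (nat_lit 134071252566849754615840555957153261682843) (.nod (nat_lit 142203033690855248453897783282457007264780378562342993381084558851229865362706313249370) .nil (.dwn (nat_lit 5147887482322745112020575116001169250844613278812710392164598255491826671179322796096) (nat_lit 90269696)) .dup) (.nod (nat_lit 22789915300903303365427417168) .nil .nil (.dwn (nat_lit 61733842242717414704901099604593822777777297420799265553993066086426) (nat_lit 4917384236))) .nil) .nil (.nod (nat_lit 2121660386561330475535248063616777834695781015189309469575272) (.opn (nat_lit 142249523751515674049219280144081878737596246717813656234975814237293940193053081098384)) .dup .dup)) .nil .nil .nil l3364 = true := by decide +kernel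
theorem cw15279 : wchk (nat_lit 5) [] [l3364] (nat_lit 209) (nat_lit 2) (nat_lit 0) (nat_lit 0) (nat_lit 1230557440) (nat_lit 0) w15279 = true := by decide +kernel
theorem cw15280 : wchk (nat_lit 5) [] [l373] (nat_lit 0) (nat_lit 0) (nat_lit 4) (nat_lit 0) (nat_lit 2824448) (nat_lit 0) w15280 = true := by decide +kernel
theorem cw15281 : wchk (nat_lit 5) [w257] [] (nat_lit 1) (nat_lit 0) (nat_lit 3) (nat_lit 2) (nat_lit 21727232) (nat_lit 33554469) w15281 = true := by decide +kernel
theorem cw15282 : wchk (nat_lit 5) [w78, w220] [] (nat_lit 1) (nat_lit 1) (nat_lit 4) (nat_lit 2) (nat_lit 17476608) (nat_lit 5599236) w15282 = true := by decide +kernel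
theorem cl3365 : lchk (nat_lit 5) [w4531, w1326, w1, w69, w220, w4566, w85, w15280, w105, w6006, w11228, w88, w5476, w6932, w10687, w10688, w4260, w15281, w15282, w13756, w13623, w15279] (nat_lit 18523136) (.nod (nat_lit 421249731613384931654453283258693119699329184296826739042134523904) (.nod (nat_lit 57965914300086047020441308370225814459717967905) (.nod (nat_lit 3585831819103643867815441880959325810255392715202706967762497509185490764354422462496) .nil (.dwn (nat_lit 1138808298293159665804367441059573020112293783336661915768433422693075910147356321204224) (nat_lit 4917470208)) .dup) (.nod (nat_lit 3585831819103643867815441880959325809838071188087887809809047444611070321007386058784) .nil (.dwn (nat_lit 1138808298293159665804367441059573020108947126533379036597649963059531213554397109110784) (nat_lit 4917470208)) (.dwn (nat_lit 1138808298293159665804367441059573020108947126533379036597649963059531213554397109110784) (nat_lit 4917470208))) .nil) .nil (.nod (nat_lit 221565019276940643998231331452844715705599949411590826252322756696) (.opn (nat_lit 142322561696059717426917092660905702882881131446195945373102134789541280938897998252160)) (.dwn (nat_lit 145264078161137811259866678583104538789165333871544735671049250632321124480463373240448)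 (nat_lit 627262540)) .dup)) .nil .nil (.nod (nat_lit 292296606834810957028902950474795825975864194806807061184496271360) .nil (.dwn (nat_lit 20933270911364578510205464390609499778081231247598236007872885120077814736753632118936) (nat_lit 90391628)) (.dwn (nat_lit 20933270911364578510205464390609499778081231247598236007872885120077814736753632118936) (nat_lit 90391628))) l3365 = true := by decide +kernel
theorem cw15283 : wchk (nat_lit 5) [] [l3365] (nat_lit 4) (nat_lit 1) (nat_lit 2) (nat_lit 0) (nat_lit 22597888) (nat_lit 0) w15283 = true := by decide +kernel
theorem cw15284 : wchk (nat_lit 5) [w15283] [] (nat_lit 26) (nat_lit 0) (nat_lit 4) (nat_lit 2) (nat_lit 205) (nat_lit 23282688) w15284 = true := by decide +kernel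
theorem cw15288 : wchk (nat_lit 5) [w1326] [] (nat_lit 2) (nat_lit 0) (nat_lit 3) (nat_lit 2) (nat_lit 325) (nat_lit 89925632) w15288 = true := by decide +kernel
theorem cw15289 : wchk (nat_lit 5) [w78, w220] [] (nat_lit 1) (nat_lit 1) (nat_lit 4) (nat_lit 2) (nat_lit 85796864) (nat_lit 5599236) w15289 = true := by decide +kernel
theorem cw15290 : wchk (nat_lit 5) [w75, w1326] [] (nat_lit 1) (nat_lit 1) (nat_lit 2) (nat_lit 2) (nat_lit 21784576) (nat_lit 90384388) w15290 = true := by decide +kernel
theorem cw15291 : wchk (nat_lit 5) [w112, w1326] [] (nat_lit 1) (nat_lit 1) (nat_lit 3) (nat_lit 2) (nat_lit 88836096) (nat_lit 89925636) w15291 = true := by decide +kernel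
theorem cw15292 : wchk (nat_lit 5) [w69, w1326] [] (nat_lit 1) (nat_lit 1) (nat_lit 3) (nat_lit 2) (nat_lit 88893440) (nat_lit 89925636) w15292 = true := by decide +kernel
theorem cl3366 : lchk (nat_lit 5) [w4209, w13622, w1, w1326, w69, w83, w1501, w3565, w257, w91, w15289, w80, w8105, w15290, w4259, w521, w13137, w15288, w111, w370, w721, w15291, w267, w114, w15292] (nat_lit 10072064) (.nod (nat_lit 7717120753730228301976232619691087903320402811238898824898093776986) (.nod (nat_lit 1134074128036790527348286813320594674247100526815588886846356770848) (.nod (nat_lit 425873163277909262502551732024734190557492090928) (.nod (nat_lit 1136851163726809697234051181724036131810354975097828701767501763476384333584907042512896) .nil (.dwn (nat_lit 9094022946283395972213155123822843858614095629525386392161480664674141435172804260749312) (nat_lit 39268757504)) .dup) (.nod (nat_lit 1136851163726809697234051181724036131807014069796112181135242588749655727222976893116416) .nil (.dwn (nat_lit 9094022946283395972213155123822843858587370698026375424839230183224180529897875893870592) (nat_lit 39268757504)) .dup) .nil) .nil (.nod (nat_lit 7874061045908519891435584541704967721352503355331611264317785315376)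 (.opn (nat_lit 1136851163726809697295680006799300180268740949178214375644784877138789264526826695516160)) .dup .dup)) .nil (.nod (nat_lit 166762054432345922691503057856067776691088861112770972208154071128) (.dwn (nat_lit 145234193612410730797622199743641547128938663823533251902118993417682297145528990099576) (nat_lit 614051840)) .nil .nil)) .nil .nil (.nod (nat_lit 378736153109386982215551112) .nil (.nod (nat_lit 20573050985114426811538366368314560883304335870574881077622157521707256334299579810202) (.dwn (nat_lit 145250800977017503635634630390329944248181863036361739695308709809129404208394410610872) (nat_lit 627262560)) .nil .nil) (.nod (nat_lit 20573050985114426811538366368314560883304335870574881077622157521707256334299579810202) (.dwn (nat_lit 145250800977017503635634630390329944248181863036361739695308709809129404208394410610872) (nat_lit 627262560)) .nil .nil)) l3366 = true := by decide +kernel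
theorem cw15293 : wchk (nat_lit 5) [] [l3366] (nat_lit 4) (nat_lit 1) (nat_lit 1) (nat_lit 0) (nat_lit 22597888) (nat_lit 0) w15293 = true := by decide +kernel
theorem cw15294 : wchk (nat_lit 5) [w1412, w220] [] (nat_lit 1) (nat_lit 1) (nat_lit 4) (nat_lit 2) (nat_lit 85567488) (nat_lit 5599236) w15294 = true := by decide +kernel
theorem cw15295 : wchk (nat_lit 5) [] [l346] (nat_lit 0) (nat_lit 0) (nat_lit 4) (nat_lit 0) (nat_lit 20474368) (nat_lit 0) w15295 = true := by decide +kernel
theorem cw15296 : wchk (nat_lit 5) [] [l3263] (nat_lit 0) (nat_lit 1) (nat_lit 2) (nat_lit 0) (nat_lit 1758208) (nat_lit 0) w15296 = true := by decide +kernel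
theorem cw15297 : wchk (nat_lit 5) [] [l346] (nat_lit 1) (nat_lit 1) (nat_lit 4) (nat_lit 0) (nat_lit 20474368) (nat_lit 0) w15297 = true := by decide +kernel
theorem cl3367 : lchk (nat_lit 5) [w11228, w220, w3779, w13, w15296, w648, w14045, w2204, w15295, w6204, w2493, w10099, w15297, w67] (nat_lit 10265600) (.nod (nat_lit 11418006722542831197912584045316911041920819209) (.nod (nat_lit 3240549998701819856887550477910099233155511302033556114224377486794691370508932349970) .nil (.dwn (nat_lit 20795476472498744448467066371203595790399854545952428580352625700913577233595147640880) (nat_lit 614245376)) .dup) (.nod (nat_lit 20083342154975255259323436569947937913846911168920733550688697774409589634723215311186) .nil (.dwn (nat_lit 145235850828791895266964127728018771016834688579112492239605654866425210809334169503840) (nat_lit 614245376)) .dup) .nil) (.nod (nat_lit 115738764795391731218532473607917486449406884681866153664551321600) .nil (.nod (nat_lit 210624696324945610356089944267603286881494171524497739022927396864) (.nod (nat_lit 418033740831043617548507250440620709275599110144) .nil .nil .nil) .nil (.dwn (nat_lit 7711361431285688462348563557880017254087682564849795649410726184960)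 (nat_lit 614245376))) .nil) .nil .nil l3367 = true := by decide +kernel
theorem cw15298 : wchk (nat_lit 5) [] [l3367] (nat_lit 1) (nat_lit 3) (nat_lit 3) (nat_lit 0) (nat_lit 5820672) (nat_lit 0) w15298 = true := by decide +kernel
theorem cw15299 : wchk (nat_lit 5) [w12685] [] (nat_lit 2) (nat_lit 2) (nat_lit 2) (nat_lit 2) (nat_lit 89739264) (nat_lit 205) w15299 = true := by decide +kernel
theorem cw15300 : wchk (nat_lit 5) [] [l3365] (nat_lit 0) (nat_lit 0) (nat_lit 4) (nat_lit 1) (nat_lit 5820672) (nat_lit 0) w15300 = true := by decide +kernel
theorem cw15301 : wchk (nat_lit 5) [] [l3365] (nat_lit 0) (nat_lit 0) (nat_lit 4) (nat_lit 1) (nat_lit 5820672) (nat_lit 0) w15301 = true := by decide +kernel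
theorem cw15302 : wchk (nat_lit 5) [w1709, w1326] [] (nat_lit 17) (nat_lit 1) (nat_lit 3) (nat_lit 2) (nat_lit 614302720) (nat_lit 89925636) w15302 = true := by decide +kernel
theorem cw15303 : wchk (nat_lit 5) [] [l3365] (nat_lit 0) (nat_lit 0) (nat_lit 4) (nat_lit 1) (nat_lit 5820672) (nat_lit 0) w15303 = true := by decide +kernel
theorem cw15304 : wchk (nat_lit 5) [w1467, w1326] [] (nat_lit 17) (nat_lit 1) (nat_lit 3) (nat_lit 2) (nat_lit 622438400) (nat_lit 89925636) w15304 = true := by decide +kernel
theorem cw15305 : wchk (nat_lit 5) [w112, w220] [] (nat_lit 1) (nat_lit 1) (nat_lit 4) (nat_lit 2) (nat_lit 76327936) (nat_lit 5599236) w15305 = true := by decide +kernel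
theorem cw15306 : wchk (nat_lit 5) [w15305] [] (nat_lit 0) (nat_lit 2) (nat_lit 3) (nat_lit 2) (nat_lit 23282688) (nat_lit 201) w15306 = true := by decide +kernel
theorem cw15307 : wchk (nat_lit 5) [w2743, w86] [] (nat_lit 0) (nat_lit 1) (nat_lit 4) (nat_lit 2) (nat_lit 17476608) (nat_lit 9219076) w15307 = true := by decide +kernel
theorem cw15308 : wchk (nat_lit 5) [w2743, w86] [] (nat_lit 0) (nat_lit 1) (nat_lit 4) (nat_lit 2) (nat_lit 13283328) (nat_lit 9219076) w15308 = true := by decide +kernel
theorem cw15309 : wchk (nat_lit 5) [w13775, w220] [] (nat_lit 0) (nat_lit 0) (nat_lit 4) (nat_lit 2) (nat_lit 23282688) (nat_lit 5599236) w15309 = true := by decide +kernel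
theorem cw15310 : wchk (nat_lit 5) [w1393, w86] [] (nat_lit 0) (nat_lit 1) (nat_lit 4) (nat_lit 2) (nat_lit 14767104) (nat_lit 9219076) w15310 = true := by decide +kernel
theorem cw15311 : wchk (nat_lit 5) [] [l44] (nat_lit 1) (nat_lit 1) (nat_lit 2) (nat_lit 0) (nat_lit 4412160) (nat_lit 0) w15311 = true := by decide +kernel
theorem cw15312 : wchk (nat_lit 5) [w15311, w86] [] (nat_lit 0) (nat_lit 1) (nat_lit 4) (nat_lit 2) (nat_lit 23282688) (nat_lit 9219076) w15312 = true := by decide +kernel
theorem cw15313 : wchk (nat_lit 5) [w15311, w86] [] (nat_lit 0) (nat_lit 1) (nat_lit 4) (nat_lit 2) (nat_lit 22823936) (nat_lit 9219076) w15313 = true := by decide +kernel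
theorem cw15314 : wchk (nat_lit 5) [w13774, w220] [] (nat_lit 0) (nat_lit 0) (nat_lit 4) (nat_lit 2) (nat_lit 10724352) (nat_lit 5599236) w15314 = true := by decide +kernel
theorem cl3368 : lchk (nat_lit 5) [w13834, w4038, w15300, w4256, w4531, w86, w1326, w4721, w220, w4209, w13770, w4599, w13774, w4632, w257, w15299, w13814, w12365, w15307, w15308, w15277, w15309, w15310, w15312, w15313, w15314, w13771, w15294, w13792, w15298, w15304, w3356, w9431, w9783, w15306, w13829, w15301, w15302, w15303] (nat_lit 39248413696) (.nod (nat_lit 15757570240165549784719654990948301312633077760) (.nod (nat_lit 285096676987796403392571981985305722065509596303034249924935239713) (.nod (nat_lit 273398262182116985048350256888390947422763794399958799830119700520) (.nod (nat_lit 15757569899883182885926597642152393635109986369) (.nod (nat_lit 3182456644363101372378763220447300475460786956270656951915207130128310165801097910336) .nil (.dwn (nat_lit 20933253310967014439278551370055057737784966638633189064681359364099100439742224173056) (nat_lit 90391552)) (.dwn (nat_lit 20933253310967014439278551370055057737784966638633189064681359364099100439742224173056) (nat_lit 90391552))) (.nod (nat_lit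 4153553948277207884270266700481762135519814139784382219422904845005985158046992195648) .nil (.dwn (nat_lit 20933253310967014439278551370055057737723449336104754886666794771905142731802268829696) (nat_lit 90391552)) (.dwn (nat_lit 20933253310967014439278551370055057737723449336104754886666794771905142731802268829696) (nat_lit 90391552))) .nil) .nil (.nod (nat_lit 292296205100299892297140450431384933696292990533435834812516960376) (.opn (nat_lit 207429481786024427624001101893014782677911869212535881732608734076867958859001223350432)) (.dwn (nat_lit 20933272764038006308399383634750444625409300485701506890301419367442813441951251466440) (nat_lit 895698024)) (.dwn (nat_lit 20933272764038006308399383634750444625409300485701506890301419367442813441951251466440) (nat_lit 895698024)))) .nil (.nod (nat_lit 292296958352508138683025725279003525604720176751362312667004307688) .nil (.nod (nat_lit 1139910563023088376243932294672567294903517715825722483537547780893525803789521412344056) (.dwn (nat_lit 145157852351144925179186629432339294676436835155978866608341438574395646773032058702088) (nat_lit 41429451880)) .nil .nil) (.nod (nat_lit 1139910563023088376243932294672567294903517715825722483537547780893525803789521412344056)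 (.dwn (nat_lit 145157852351144925179186629432339294676436835155978866608341438574395646773032058702088) (nat_lit 41429451880)) .nil .nil))) .nil (.dwn (nat_lit 292297410303833086524040839193540951201014837798096559517729196328) (nat_lit 23282840))) .nil .nil .nil l3368 = true := by decide +kernel
theorem cw15315 : wchk (nat_lit 5) [] [l3368] (nat_lit 273) (nat_lit 1) (nat_lit 2) (nat_lit 0) (nat_lit 1230557440) (nat_lit 0) w15315 = true := by decide +kernel
theorem cw15316 : wchk (nat_lit 5) [w75, w1326] [] (nat_lit 1) (nat_lit 1) (nat_lit 2) (nat_lit 2) (nat_lit 89402368) (nat_lit 90384388) w15316 = true := by decide +kernel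
theorem cw15317 : wchk (nat_lit 5) [w2228, w1326] [] (nat_lit 17) (nat_lit 1) (nat_lit 3) (nat_lit 2) (nat_lit 627205120) (nat_lit 89925636) w15317 = true := by decide +kernel
theorem cw15318 : wchk (nat_lit 5) [w1576, w1326] [] (nat_lit 17) (nat_lit 1) (nat_lit 3) (nat_lit 2) (nat_lit 626287616) (nat_lit 89925636) w15318 = true := by decide +kernel
theorem cl3369 : lchk (nat_lit 5) [w4209, w15293, w13622, w1, w69, w83, w3565, w93, w3688, w4566, w15316, w91, w80, w8105, w4259, w5715, w521, w15284, w15315, w111, w370, w721, w267, w15317, w114, w15318] (nat_lit 13742080) (.nod (nat_lit 15845379424384764113718413841350447495712342106) (.nod (nat_lit 7717120803947042185131196041072614273104198098390759265816599500832) (.nod (nat_lit 7855883262318234427663828537393117615606621989382144047572242176056) (.nod (nat_lit 3343402985178756062413383805485878950451906568192) (.nod (nat_lit 3182448307332676285612692723336379876231957964221214518041793442032066580894875607040) .nil (.dwn (nat_lit 72752247124376434928021529398723033568667771962115421676580974888205379604352287279112192) (nat_lit 314150334464)) (.dwn (nat_lit 72752247124376434928021529398723033568667771962115421676580974888205379604352287279112192)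 (nat_lit 314150334464))) (.nod (nat_lit 4153545611246782797504196203370841509990448704345486294750348787053825464458507673600) .nil (.dwn (nat_lit 72752247124376434928021529398723033568453972323354592900309002236368805567995352069660672) (nat_lit 314150334464)) (.dwn (nat_lit 72752247124376434928021529398723033568453972323354592900309002236368805567995352069660672) (nat_lit 314150334464))) .nil) .nil (.nod (nat_lit 61674899202869042230909716202676035753654903232819080561767473176576) (.opn (nat_lit 9094872863923744728681728462534684141904934519338045544447408598047315978456986095411200)) (.dwn (nat_lit 9094872863923744728681728462534684141904934519338045544447408598047315978456986095411200) (nat_lit 39272427520)) (.dwn (nat_lit 9094872863923744728681728462534684141904934519338045544447408598047315978456986095411200) (nat_lit 39272427520)))) .nil (.dwn (nat_lit 7862542564224085332646012760362725550393050193846170911381201176648) (nat_lit 617721856))) .nil (.nod (nat_lit 292296104666672126100672144246329751245094371676482530442300921952) (.dwn (nat_lit 145235854534138750861122156413629045354948543915717716263239455658383648303379557820544) (nat_lit 617721856)) .nil .nil))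 .nil .nil (.nod (nat_lit 181581302856716166337162283152) .nil (.nod (nat_lit 20558111952929385226391165560315608446787611673886922500220113671948101269905022648730) (.dwn (nat_lit 145264081866484666853966034746842828873915093891920137576191707071698374812700960446656) (nat_lit 627262564)) .nil .nil) (.nod (nat_lit 20558111952929385226391165560315608446787611673886922500220113671948101269905022648730) (.dwn (nat_lit 145264081866484666853966034746842828873915093891920137576191707071698374812700960446656) (nat_lit 627262564)) .nil .nil)) l3369 = true := by decide +kernel
theorem cw15319 : wchk (nat_lit 5) [] [l3369] (nat_lit 2202) (nat_lit 1) (nat_lit 2) (nat_lit 0) (nat_lit 22597888) (nat_lit 0) w15319 = true := by decide +kernel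
theorem cw15320 : wchk (nat_lit 5) [] [l1406] (nat_lit 17) (nat_lit 1) (nat_lit 2) (nat_lit 0) (nat_lit 5818880) (nat_lit 0) w15320 = true := by decide +kernel
theorem cw15322 : wchk (nat_lit 5) [w2690] [] (nat_lit 0) (nat_lit 0) (nat_lit 3) (nat_lit 2) (nat_lit 33554501) (nat_lit 22687744) w15322 = true := by decide +kernel
theorem cl3370 : lchk (nat_lit 5) [w4531, w2692, w126, w69, w4566, w3781, w220, w1206, w85, w105, w396, w6725, w6006, w10148, w13701, w4260, w15320, w7411, w4623, w5593, w1170, w1204, w15322] (nat_lit 19555328) (.nod (nat_lit 421249731613384931592940855955729817966795772218530888509767901193) (.nod (nat_lit 15055099488670770525225483024802771385933453337) (.nod (nat_lit 5285666173464442906340407660862024783658808322781906059652693986142615878971073124400) .nil .nil (.dwn (nat_lit 1139047337629507753499405812671190991257921894128589256416445483919749113819662627686400) (nat_lit 4918502400))) (.nod (nat_lit 5285666173464442906340407660862024783646914346098632565779849831270096251247547443264) .nil (.dwn (nat_lit 1139047337629507753561153692572278099784494861819715669463030771790740987594858594355200) (nat_lit 4918502400)) .dup) .nil) .nil (.nod (nat_lit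 219945275945141464846917691702399320839174922268815689619936071776) (.dwn (nat_lit 143934418147354717575981109003201523893864595555260520380108456645030947038678612240520) (nat_lit 623535104)) .nil .nil)) .nil .nil (.nod (nat_lit 7867582424099020356657680732152747773176319803031309961781294661632) .nil (.dwn (nat_lit 20083354197352535940207763194942090325989646230935894684461309320115129672232729575424) (nat_lit 90391640)) (.dwn (nat_lit 20083354197352535940207763194942090325989646230935894684461309320115129672232729575424) (nat_lit 90391640))) l3370 = true := by decide +kernel
theorem cw15323 : wchk (nat_lit 5) [] [l3370] (nat_lit 2194) (nat_lit 1) (nat_lit 4) (nat_lit 0) (nat_lit 22597888) (nat_lit 0) w15323 = true := by decide +kernel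
theorem cw15324 : wchk (nat_lit 5) [w2740] [] (nat_lit 2) (nat_lit 0) (nat_lit 4) (nat_lit 2) (nat_lit 205) (nat_lit 5549056) w15324 = true := by decide +kernel
theorem cw15325 : wchk (nat_lit 5) [w2740] [] (nat_lit 2) (nat_lit 0) (nat_lit 4) (nat_lit 2) (nat_lit 197) (nat_lit 5549056) w15325 = true := by decide +kernel
theorem cw15326 : wchk (nat_lit 5) [] [l1557] (nat_lit 1) (nat_lit 0) (nat_lit 4) (nat_lit 0) (nat_lit 1484032) (nat_lit 0) w15326 = true := by decide +kernel
theorem cw15327 : wchk (nat_lit 5) [] [l1406] (nat_lit 17) (nat_lit 1) (nat_lit 2) (nat_lit 0) (nat_lit 5818880) (nat_lit 0) w15327 = true := by decide +kernel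
theorem cw15328 : wchk (nat_lit 5) [w6798] [] (nat_lit 0) (nat_lit 0) (nat_lit 3) (nat_lit 2) (nat_lit 33554501) (nat_lit 22709248) w15328 = true := by decide +kernel
theorem cl3371 : lchk (nat_lit 5) [w4531, w6797, w747, w69, w1, w4566, w3781, w220, w15280, w85, w105, w396, w6725, w6006, w10148, w15326, w4260, w15327, w7411, w15324, w15325, w1170, w1204, w15328] (nat_lit 19555328) (.nod (nat_lit 421249731613384931592940855955729817966795772218530888509767886857) (.nod (nat_lit 14820941664086198982239357982939963590280136736) (.nod (nat_lit 5285667099801156804869971049429904853162071151664042320144714009510284801730255935544) .nil (.nod (nat_lit 1139047337629507753561153692572278099784494861819715669462849311080743535181806154598400) .nil (.dwn (nat_lit 9096219120186094028478628809595821778106465515969593239289916363442170328894615789553664) (nat_lit 39278240768)) (.opn (nat_lit 9096219120186094028478628809595821778106465515969593239289916363442170328894615789553664))) (.nod (nat_lit 1139047337629507753561153692572278099787842221096472302348443151718247954750386241587200) .nil (.opn (nat_lit 9096219120186094028478628809595821778133196901443644318865320050092909594963141654267904))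 .dup)) (.nod (nat_lit 5285667099801156804869971049429904853150177172258509890904078653973642636600792377416) .nil (.dwn (nat_lit 1139047337629507753561153692572278099784494861819715669463030771790740987594858594355200) (nat_lit 4918502400)) .dup) .nil) .nil (.nod (nat_lit 219945326161955347940363805110973641868013958942230057376034279528) (.dwn (nat_lit 143934419073691431417226545040241732503941439827051207571550315674996034476916295919760) (nat_lit 623535104)) .nil .nil)) .nil .nil (.nod (nat_lit 7874781556754114516185554833012751567297262655387062408141118373888) .nil (.dwn (nat_lit 20083355123689249838737326583509970395492909059818030944953329343482798594991912386560) (nat_lit 90391644)) (.dwn (nat_lit 20083355123689249838737326583509970395492909059818030944953329343482798594991912386560) (nat_lit 90391644))) l3371 = true := by decide +kernel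
theorem cw15329 : wchk (nat_lit 5) [] [l3371] (nat_lit 2194) (nat_lit 1) (nat_lit 4) (nat_lit 0) (nat_lit 22597888) (nat_lit 0) w15329 = true := by decide +kernel
theorem cw15330 : wchk (nat_lit 5) [w1409] [] (nat_lit 0) (nat_lit 1) (nat_lit 2) (nat_lit 2) (nat_lit 449) (nat_lit 22816768) w15330 = true := by decide +kernel
theorem cw15331 : wchk (nat_lit 5) [w1409] [] (nat_lit 0) (nat_lit 1) (nat_lit 2) (nat_lit 2) (nat_lit 33554497) (nat_lit 22816768) w15331 = true := by decide +kernel
theorem cl3372 : lchk (nat_lit 5) [w6798, w871, w748, w69, w6204, w142, w13, w14045, w1326, w6793, w11939, w2766, w15331, w15330] (nat_lit 6050816) (.nod (nat_lit 5362023298246474037037159346219258876801062620952541261643672147489420915040608845824) .nil (.nod (nat_lit 3885354690096486790003455655010849081719360386871033857508221477147672194389888014360) (.nod (nat_lit 4044808549419233242567033137411616010246115376) (.nod (nat_lit 61578341509665608019889547799292683912782003117214705956413020612608) .nil .nil (.dwn (nat_lit 492937488184075844734561789191606774692424089136164213988664788166656) (nat_lit 39264736256))) .nil (.dwn (nat_lit 61578341509665608023227716381434372365493763004898129252036036306944)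 (nat_lit 4904997888))) (.nod (nat_lit 4540331021778116526990149001718702110860671978003450757547814662533923700929369559088) .nil (.dwn (nat_lit 20905040800008520883339537172469603125338053648132611707130944487847518584610695456840) (nat_lit 4904997888)) .dup) .nil) (.nod (nat_lit 46548419873401227018791647649866722495198153138180250046245502633300560864159832) .nil (.dwn (nat_lit 20933264427007581221633312635471385168883956578259067416096918507430217591087182831648) (nat_lit 610030592)) .dup)) .nil .nil (.dwn (nat_lit 3885347279402775601766948546467808525704675650243305520863615792908817472076193464320) (nat_lit 90391604)) l3372 = true := by decide +kernel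
theorem cw15332 : wchk (nat_lit 5) [] [l3372] (nat_lit 4) (nat_lit 2) (nat_lit 1) (nat_lit 0) (nat_lit 5820672) (nat_lit 0) w15332 = true := by decide +kernel
theorem cw15334 : wchk (nat_lit 5) [w69] [] (nat_lit 18) (nat_lit 0) (nat_lit 3) (nat_lit 2) (nat_lit 197) (nat_lit 6638592) w15334 = true := by decide +kernel
theorem cw15335 : wchk (nat_lit 5) [] [l3058] (nat_lit 1) (nat_lit 0) (nat_lit 3) (nat_lit 0) (nat_lit 2810112) (nat_lit 0) w15335 = true := by decide +kernel
theorem cw15336 : wchk (nat_lit 5) [] [l1406] (nat_lit 17) (nat_lit 1) (nat_lit 2) (nat_lit 0) (nat_lit 4901376) (nat_lit 0) w15336 = true := by decide +kernel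
theorem cw15337 : wchk (nat_lit 5) [w6774] [] (nat_lit 0) (nat_lit 0) (nat_lit 4) (nat_lit 2) (nat_lit 33554501) (nat_lit 5936128) w15337 = true := by decide +kernel
theorem cl3373 : lchk (nat_lit 5) [w4531, w6774, w1, w69, w4566, w3781, w85, w1206, w105, w396, w6006, w6725, w10148, w15335, w4260, w7411, w15336, w15179, w15334, w1170, w1204, w15337] (nat_lit 23225344) (.nod (nat_lit 421249781830198814686386966642045203627108428719583302522641580106) (.nod (nat_lit 109911204515466422593074351387958279069720) (.nod (nat_lit 4329508828072091879247235003597324071798597626885043426142898753733579754278987235328) .nil .nil (.nod (nat_lit 3885339868709064475324395466616870268779239145958938666001366808789221931331889397760) (.opn (nat_lit 9097069037826442784947202148307662061424035791256303471151248333336772121093598081239040)) .dup .dup)) (.nod (nat_lit 68780501006965820081601165095160617264842370891390517664334288704749113080891448) .nil (.dwn (nat_lit 1139897255269856510029727031284118383075331253948912586317718091723931295294277208557568) (nat_lit 4922172416)) .dup) .nil) .nil (.nod (nat_lit 272588516058252103183080054926045952351737768329024236686916362328) (.dwn (nat_lit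 144903854529540803967081329329065721709389455075473847614660088671864734486239333746816) (nat_lit 627205120)) .nil .nil)) .nil .nil (.nod (nat_lit 61794674790621766339332692785679382143225746939598136305206128183440) .nil (.dwn (nat_lit 20933270911364578510205464440826313661233072610930369991662455047056704071371784716682) (nat_lit 90391636)) (.dwn (nat_lit 20933270911364578510205464440826313661233072610930369991662455047056704071371784716682) (nat_lit 90391636))) l3373 = true := by decide +kernel
theorem cw15338 : wchk (nat_lit 5) [] [l3373] (nat_lit 2194) (nat_lit 1) (nat_lit 3) (nat_lit 0) (nat_lit 22597888) (nat_lit 0) w15338 = true := by decide +kernel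
theorem cl3374 : lchk (nat_lit 5) [w15202, w1326, w15338, w1409, w3, w1351, w220, w1723, w6797, w2948, w5841, w39, w142, w1202, w2766] (nat_lit 862143488) (.nod (nat_lit 28556190332172485174661647959584482717359303827010493932916046418099136956940959516689) .nil (.nod (nat_lit 48401093301198169687052671733631561010963001701265305470669684203955703527768450) (.nod (nat_lit 14820946768321702794335749725791451043372668976) (.nod (nat_lit 61787205240423911721597512639011026562839228122280513451591741024320) .nil .nil (.dwn (nat_lit 7873251249567841126508777778237688923886292957747916647426380320840) (nat_lit 627262464))) .nil (.dwn (nat_lit 61787205240423911724946384212274024160168156249119685013111165196368) (nat_lit 4920724520))) (.nod (nat_lit 5363692441212829949994190121968159112978024618725605128576726642132958784184509976664) .nil (.dwn (nat_lit 20905034315651523593830028338581093103122847606213190418739294662120174712590993758288) (nat_lit 90391552)) .dup) .nil) (.nod (nat_lit 48401093301198358226532347132922823812355528610376469383337419393709825402601858) (.opn (nat_lit 269594871515860335530449648777040797686077300399482314580876711379216747682723191490560)) .dup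 .dup)) .nil .nil (.dwn (nat_lit 3885349132076203398826075323603568664699783298562776275311890837667079357009829560386) (nat_lit 894199844)) l3374 = true := by decide +kernel
theorem cw15339 : wchk (nat_lit 5) [] [l3374] (nat_lit 3) (nat_lit 2) (nat_lit 1) (nat_lit 0) (nat_lit 5820672) (nat_lit 0) w15339 = true := by decide +kernel
theorem cl3375 : lchk (nat_lit 5) [w4531, w6797, w69, w1409, w1, w3781, w4566, w220, w1206, w85, w6725, w105, w396, w6006, w15327, w15326, w4260, w10148, w7411, w3967, w2948, w9478] (nat_lit 6975488) (.nod (nat_lit 7770684137517519845497558552509909551787411022084207003390552403174489506035986098185) .nil (.nod (nat_lit 17991743330245917894909304439342004759145682424059512813767202847100780579097484648480) (.nod (nat_lit 4400926296567204498960893217467316173525424184) (.nod (nat_lit 61589950030097334965640062933447756471602782284089384035200844226560) .nil .nil (.dwn (nat_lit 492949096704507571680312304325761847251064743644966773134424030896128) (nat_lit 39265660928))) .nil (.dwn (nat_lit 61589950030097334968978860814743015960156192724750694693746525921280) (nat_lit 4905922560))) (.nod (nat_lit 5254129966376481365884407255952938614567260559234976026882572570225045694272726296648)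 .nil (.dwn (nat_lit 1136134045717765434025321252261184941238756838017487956416202165379121866476734242938880) (nat_lit 4905922560)) .dup) .nil) (.nod (nat_lit 1401282515828300250033497065695246482208111069466022632625139287855730355703610167400) (.dwn (nat_lit 144900536391431619434165564091178148258138598295586336815724479559055218887974873000080) (nat_lit 610955264)) .nil .nil)) .nil .nil (.nod (nat_lit 204640692307640212167344685292528310715706685448897799501146785722843832871526783254528) .nil (.dwn (nat_lit 45622083159502580999309929363282343951652158502899684987548903507777257272770560) (nat_lit 72708180)) (.dwn (nat_lit 45622083159502580999309929363282343951652158502899684987548903507777257272770560) (nat_lit 72708180))) l3375 = true := by decide +kernel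
theorem cw15340 : wchk (nat_lit 5) [] [l3375] (nat_lit 4) (nat_lit 1) (nat_lit 4) (nat_lit 0) (nat_lit 22597888) (nat_lit 0) w15340 = true := by decide +kernel
theorem cw15341 : wchk (nat_lit 5) [] [l1167] (nat_lit 0) (nat_lit 1) (nat_lit 2) (nat_lit 0) (nat_lit 5428224) (nat_lit 0) w15341 = true := by decide +kernel
theorem cw15342 : wchk (nat_lit 5) [w1384, w16] [] (nat_lit 1) (nat_lit 1) (nat_lit 4) (nat_lit 2) (nat_lit 18688000) (nat_lit 9154564) w15342 = true := by decide +kernel
theorem cl3376 : lchk (nat_lit 5) [w6841, w16, w1409, w220, w1326, w15323, w6797, w3967, w2948, w15340, w6714, w2936, w15341, w7398, w6613, w871, w1202, w748, w15311, w7235, w6749, w1139, w15329, w15332, w15339, w56, w1184, w7369, w345, w7250, w2122, w7370, w15326, w7076, w7418, w7285, w114, w2517, w6572, w15342, w7399, w6719, w7372, w7373, w7374] (nat_lit 19540992) (.nod (nat_lit 5147883892767978754927750886519351946540850298460725261843512998864431043269827909656) .nil (.nod (nat_lit 20785517426487621349548590928005665001238768386191648198696804966519284662253464610864) .nil (.nod (nat_lit 142475276640376315112197149675365548297655782471197568457454880805529070386907291625552) (.dwn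 (nat_lit 144161835663290234377487895027017513590831070688580748662908132765523586636627876014168) (nat_lit 4918488064)) .nil .nil) .dup) (.nod (nat_lit 5362036151168379379323390992924435781702759473765690907747983973378868486955116961936) (.dwn (nat_lit 5362039856515234974171567429783061262975326614230606215582262292270539985972772636856) (nat_lit 90391648)) .nil .nil)) (.nod (nat_lit 15401520209208595795614750794929846406141909016) (.nod (nat_lit 277718816414990578903309045177284498477560759134930375585308158000) .nil .nil (.dwn (nat_lit 7827806589724871933675436094089442374534900322746269952185174611968) (nat_lit 623520768))) .nil (.nod (nat_lit 169102107742484194185707607088620509429612102697276386332245674224) (.dwn (nat_lit 20664362774013546577435043212923176999712302975044495394850235642441790274888799901976) (nat_lit 623520768)) .nil .nil)) (.nod (nat_lit 5015116567456382767938888971537405382692854787687547400214871792210343101766923082032) .nil (.nod (nat_lit 20905037094661665227935239217535424615398818601538368176262365538577580547146859751472) (.dwn (nat_lit 144995180213490632199577335527648534808885555153844785013191864128115274144657523104096) (nat_lit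 623520768)) .nil .nil) .dup) .nil l3376 = true := by decide +kernel
theorem cw15343 : wchk (nat_lit 5) [] [l3376] (nat_lit 1681) (nat_lit 1) (nat_lit 2) (nat_lit 0) (nat_lit 156815616) (nat_lit 0) w15343 = true := by decide +kernel
theorem cl3377 : lchk (nat_lit 5) [w1326, w2690, w13, w1467, w281, w10099, w1128, w6204, w6661, w1304, w220, w10685, w6774, w14044, w6803, w6794, w6798, w6793] (nat_lit 593586176) (.nod (nat_lit 11244054084278568302641617973364086029019891998610894482187384520704) (.nod (nat_lit 134071252566849754615840555957153261682843) (.nod (nat_lit 142203033690855248453897783282457007264780378562342993381084558851229865362706313249370) .nil (.dwn (nat_lit 5147887482322745112020575116001169251437328756783844380758093132663039005636943849536) (nat_lit 90269696)) .dup) (.nod (nat_lit 22789915300903303365442297936) .nil .nil (.dwn (nat_lit 61733842242717414704901099604593822777777297420799265553993066086426) (nat_lit 4917384236))) .nil) .nil (.nod (nat_lit 2121660386560782412421248975022451452882774539293990112807008) (.opn (nat_lit 142249522825178960150689716705297184784999537778245204588822462884959853761991945771144)) .nil .nil)) .nil .nil .nil l3377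 = true := by decide +kernel
theorem cw15344 : wchk (nat_lit 5) [] [l3377] (nat_lit 209) (nat_lit 2) (nat_lit 0) (nat_lit 0) (nat_lit 1230557440) (nat_lit 0) w15344 = true := by decide +kernel
theorem cl3378 : lchk (nat_lit 5) [w4531, w1326, w1, w69, w220, w621, w85, w84, w1206, w105, w6006, w11228, w88, w5476, w6932, w10687, w10688, w4260, w11938, w15344, w13756] (nat_lit 18523136) (.nod (nat_lit 421249731613384931654453283258693119699329184296826739042134523904) (.nod (nat_lit 57965914300086047020441308370225814459717967905) (.nod (nat_lit 4047310537886757731586105073180830667717077738249028196809864080151299814526460516384) .nil (.dwn (nat_lit 1138808298293159665804367441059573020112293783336661915768433422693075910147356321204224) (nat_lit 4917470208)) .dup) (.nod (nat_lit 2134997699775483474458886535787189382580162631262013847872893850623626611684606107680) .nil (.dwn (nat_lit 1138808298293159665804367441059573020108947126533379036597649963059531213554397109110784) (nat_lit 4917470208)) (.dwn (nat_lit 1138808298293159665804367441059573020108947126533379036597649963059531213554397109110784) (nat_lit 4917470208))) .nil) .nil (.nod (nat_lit 221565069493754527091677444861419036734438986085005194008420964448)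 (.dwn (nat_lit 142322562622396431325446656099690396835477840385764397019255486141875367369959133579400) (nat_lit 622502912)) .nil .nil)) .nil .nil (.nod (nat_lit 7711812277840730875307745094769564835116256666896032336706057273344) .nil (.dwn (nat_lit 20933271837701292408735027779177379847584494073758113332997397435738486800058669238432) (nat_lit 90391632)) (.dwn (nat_lit 20933271837701292408735027779177379847584494073758113332997397435738486800058669238432) (nat_lit 90391632))) l3378 = true := by decide +kernel
theorem cw15345 : wchk (nat_lit 5) [] [l3378] (nat_lit 4) (nat_lit 1) (nat_lit 2) (nat_lit 0) (nat_lit 22597888) (nat_lit 0) w15345 = true := by decide +kernel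
theorem cw15346 : wchk (nat_lit 5) [w489, w220] [] (nat_lit 1) (nat_lit 1) (nat_lit 4) (nat_lit 2) (nat_lit 84571136) (nat_lit 5599236) w15346 = true := by decide +kernel
theorem cl3379 : lchk (nat_lit 5) [w489] (nat_lit 16777229) .nil (.nod (nat_lit 2965948401143784925204316160) (.nod (nat_lit 2573611711508539113312189433952728000626745474736443600404480) .nil (.nod (nat_lit 210626353479803752451229534561233359953451493675376578574417920000) (.nod (nat_lit 102761929834456583146414021850768985601634992410) .nil .nil (.opn (nat_lit 833512748499908042287870519466042664228520722714))) .nil (.dwn (nat_lit 1895623020176718739709261829833141709448455079924888327036965224730) (nat_lit 150995085))) .nil) .nil (.dwn (nat_lit 2171877200443791544404920839384497288334538751415112226046298) (nat_lit 173))) .nil .nil l3379 = true := by decide +kernel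
theorem cw15347 : wchk (nat_lit 5) [] [l3379] (nat_lit 0) (nat_lit 2) (nat_lit 4) (nat_lit 0) (nat_lit 5820672) (nat_lit 0) w15347 = true := by decide +kernel
theorem cw15348 : wchk (nat_lit 5) [w489] [] (nat_lit 17) (nat_lit 0) (nat_lit 2) (nat_lit 2) (nat_lit 177) (nat_lit 84585472) w15348 = true := by decide +kernel
theorem cw15349 : wchk (nat_lit 5) [w489] [] (nat_lit 17) (nat_lit 0) (nat_lit 2) (nat_lit 2) (nat_lit 16777297) (nat_lit 84585472) w15349 = true := by decide +kernel
theorem cl3380 : lchk (nat_lit 5) [w1326, w2690, w648, w13, w489, w15347, w2724, w15348, w281, w10099, w1128, w15349, w6077, w6204, w14045, w3314] (nat_lit 593070080) (.nod (nat_lit 7867581576690286079882621549087013999608489913536381335961092489216) (.nod (nat_lit 57565900127605274703005371565841932948019871891) (.nod (nat_lit 15845389973138138661572839358896978383250874416) .nil .nil (.dwn (nat_lit 61794674288453627508409649671927476440972807696920033361844737409042) (nat_lit 4922229788))) (.nod (nat_lit 3116052197027285280627253731964518133638200946380856140006799082308632690976811385426) .nil (.dwn (nat_lit 5162831146191356190930680519715253761047517772429102695023977542659153053672226064472)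 (nat_lit 89753600)) .dup) .nil) .nil (.dwn (nat_lit 219405495412712093398161908593803333570846825217504101904123644016) (nat_lit 81101884))) .nil (.nod (nat_lit 7866771623422063930303236135132606899820507095392238393612914655232) (.nod (nat_lit 3349461818889881851088478240977695651732483411968) .nil .nil (.opn (nat_lit 26733488016184328543615086164666453367792826781696))) .nil (.dwn (nat_lit 61786664957723343522560269583833674083660621930934478070328931323904) (nat_lit 4921591808))) .nil l3380 = true := by decide +kernel
theorem cw15350 : wchk (nat_lit 5) [] [l3380] (nat_lit 145) (nat_lit 2) (nat_lit 0) (nat_lit 0) (nat_lit 1230557440) (nat_lit 0) w15350 = true := by decide +kernel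
theorem cw15351 : wchk (nat_lit 5) [w368, w220] [] (nat_lit 1) (nat_lit 1) (nat_lit 4) (nat_lit 2) (nat_lit 84764672) (nat_lit 5599236) w15351 = true := by decide +kernel
theorem cw15352 : wchk (nat_lit 5) [w15351, w710] [] (nat_lit 0) (nat_lit 2) (nat_lit 2) (nat_lit 2) (nat_lit 23282688) (nat_lit 22121476) w15352 = true := by decide +kernel
theorem cw15353 : wchk (nat_lit 5) [w1326] [] (nat_lit 0) (nat_lit 0) (nat_lit 2) (nat_lit 2) (nat_lit 461) (nat_lit 90384384) w15353 = true := by decide +kernel
theorem cl3381 : lchk (nat_lit 5) [w3356, w15346, w2119, w6797, w3473, w3274, w1636, w7481, w15353] (nat_lit 18523136) (.nod (nat_lit 15845379424384764113322526772598296837940576256) (.nod (nat_lit 231733421920128235842247630300735585491954534364296265273911355417) (.nod (nat_lit 7649863390419199289967570732241662798315817000) (.nod (nat_lit 1138808298293159665742632519506874816079955426751091508971662493939518933658056577599488) .nil (.dwn (nat_lit 9095980080849745940721842558083116698457648463683833932285310321067737550360111733884928) (nat_lit 39277208576)) .dup) (.nod (nat_lit 1138808298293159665742632519506874816076608769947808629800879034305974237065097365506048)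 .nil (.dwn (nat_lit 9095980080849745940721842558083116698430917780683256606424535554710960554854154304309248) (nat_lit 39277208576)) .dup) .nil) .nil (.dwn (nat_lit 232543469344876416229108835128870450132817254462754958141829056552) (nat_lit 622502912))) .nil (.nod (nat_lit 234613255762695878789803247337401008580937974567962756533333446712) (.nod (nat_lit 7649863390419199289967570732241662798315817000) .nil .nil (.opn (nat_lit 3346656803282879171146304891212965697435920058368))) .nil (.dwn (nat_lit 232543469344876416229108835128870450132817254462754958141829056552) (nat_lit 622502912)))) .nil .nil (.dwn (nat_lit 20933260721660725626380264542751107505017644977554911135353504346731692482883586359296) (nat_lit 90391584)) l3381 = true := by decide +kernel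
theorem cw15354 : wchk (nat_lit 5) [] [l3381] (nat_lit 4) (nat_lit 2) (nat_lit 4) (nat_lit 0) (nat_lit 5820672) (nat_lit 0) w15354 = true := by decide +kernel
theorem cw15355 : wchk (nat_lit 5) [] [l3381] (nat_lit 4) (nat_lit 2) (nat_lit 1) (nat_lit 0) (nat_lit 5820672) (nat_lit 0) w15355 = true := by decide +kernel
theorem cl3382 : lchk (nat_lit 5) [w257, w86, w91, w9486, w6204, w4548, w10099, w13336, w80, w13, w1801, w648, w14045, w10, w888, w345, w14920] (nat_lit 21784576) (.nod (nat_lit 32837825512174947121038413832) (.nod (nat_lit 17661404247375991064368434024766179344391601512094791823821538143531770631492013654362) .nil (.dwn (nat_lit 145116326528934281895968628985634405661495832220709677565097681617576418634566848677944) (nat_lit 625764352)) .dup) (.nod (nat_lit 18657407040179973442101202540824189664790506963437481610518509804840186206239198281754) .nil (.dwn (nat_lit 20916661694084377882988258503292311360001495443042205247565793134503578014114653952096) (nat_lit 625764352)) .dup) .nil) (.nod (nat_lit 1556043761616901751136477271710422737380712441957857877988942544986) .nil (.nod (nat_lit 1134794638882385152051570507826266970558796975451779529728472383643)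 (.nod (nat_lit 23086629703589395607645114368) .nil .nil (.dwn (nat_lit 3348876424328420422050057209984987666067398590490) (nat_lit 4920731648))) .nil .nil) (.nod (nat_lit 1134794638882385152111980479809820642834180168801042076083682707584) (.opn (nat_lit 144917123376630686504528498919691249571725414825999621300405415820761241005108661637120)) .dup .dup)) .nil .nil l3382 = true := by decide +kernel
theorem cw15356 : wchk (nat_lit 5) [] [l3382] (nat_lit 17) (nat_lit 3) (nat_lit 2) (nat_lit 0) (nat_lit 5820672) (nat_lit 0) w15356 = true := by decide +kernel
theorem cw15357 : wchk (nat_lit 5) [w33, w1326] [] (nat_lit 1) (nat_lit 1) (nat_lit 2) (nat_lit 2) (nat_lit 85173248) (nat_lit 90384388) w15357 = true := by decide +kernel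
theorem cw15358 : wchk (nat_lit 5) [w33, w220] [] (nat_lit 1) (nat_lit 1) (nat_lit 4) (nat_lit 2) (nat_lit 890479616) (nat_lit 5599236) w15358 = true := by decide +kernel
theorem cw15359 : wchk (nat_lit 5) [w3831, w220] [] (nat_lit 17) (nat_lit 1) (nat_lit 4) (nat_lit 2) (nat_lit 622674944) (nat_lit 5599236) w15359 = true := by decide +kernel
theorem cw15360 : wchk (nat_lit 5) [] [l3300] (nat_lit 145) (nat_lit 2) (nat_lit 4) (nat_lit 0) (nat_lit 21680384) (nat_lit 0) w15360 = true := by decide +kernel
theorem cw15361 : wchk (nat_lit 5) [w78, w220] [] (nat_lit 1) (nat_lit 1) (nat_lit 4) (nat_lit 2) (nat_lit 85796864) (nat_lit 5599236) w15361 = true := by decide +kernel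
theorem cl3383 : lchk (nat_lit 5) [w7171, w4072, w2750] (nat_lit 1197630464) (.nod (nat_lit 928458017836575147172036762) (.nod (nat_lit 618971827423609361019175002) .nil (.nod (nat_lit 17551564056792815701095547266100514004091283564156392610106711167656415698278094982873114) .nil (.opn (nat_lit 140390403450010116321085541579196132753709817701571770058288215945623944768040028124530688)) .dup) .nil) .nil .nil) .nil (.nod (nat_lit 1237943046104664289623146651) .nil .nil (.nod (nat_lit 618970646831988643607871514) .nil .nil (.dwn (nat_lit 5122983846106297042947670758332098690132646974602671524051266965944900203473073602586) (nat_lit 4922158088)))) .nil l3383 = true := by decide +kernel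
theorem cw15362 : wchk (nat_lit 5) [] [l3383] (nat_lit 2) (nat_lit 3) (nat_lit 1) (nat_lit 0) (nat_lit 5820672) (nat_lit 0) w15362 = true := by decide +kernel
theorem cw15363 : wchk (nat_lit 5) [] [l2673] (nat_lit 0) (nat_lit 0) (nat_lit 4) (nat_lit 0) (nat_lit 4872704) (nat_lit 0) w15363 = true := by decide +kernel
theorem cl3384 : lchk (nat_lit 5) [w257, w86, w91, w15362, w80, w13, w1801, w648, w650, w109, w888, w345, w15363] (nat_lit 21784576) (.nod (nat_lit 32837825512174947121038413832) (.nod (nat_lit 17661404247375991064368434024766179339641760217073454768250060124710827952242868355418) .nil (.dwn (nat_lit 145264065192423816680452790389902009569721260337763106761217614957762726003480904239128) (nat_lit 625764352)) .dup) (.nod (nat_lit 18657403334833117847982948986552669386777455658797972310020460542197497953019049803802) .nil (.dwn (nat_lit 20916657988737522288870004748153535549614659695657434404422418555995219727686707767360) (nat_lit 625764352)) .dup) .nil) (.nod (nat_lit 1548034581537059411229391689896932840324416466961470215648696074330) .nil (.nod (nat_lit 1134794438015129619677786065081005427914090630196047997016851087515) .nil .nil (.nod (nat_lit 23086629703589395607645114368)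 .nil .nil (.dwn (nat_lit 1139563596196203970807437022213568286256986707665384443323059927733360470896563447660570) (nat_lit 4920731648)))) (.nod (nat_lit 1134794438015129619738196026175523358721299902185955365609222342752) (.opn (nat_lit 144917123376630686504528498919691249571725414825999621300405415820761241005108661637120)) .dup .dup)) .nil .nil l3384 = true := by decide +kernel
theorem cw15364 : wchk (nat_lit 5) [] [l3384] (nat_lit 17) (nat_lit 3) (nat_lit 2) (nat_lit 0) (nat_lit 5820672) (nat_lit 0) w15364 = true := by decide +kernel
theorem cw15365 : wchk (nat_lit 5) [w75, w1326] [] (nat_lit 1) (nat_lit 1) (nat_lit 2) (nat_lit 2) (nat_lit 21784576) (nat_lit 90384388) w15365 = true := by decide +kernel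
theorem cw15366 : wchk (nat_lit 5) [w80, w1326] [] (nat_lit 1) (nat_lit 1) (nat_lit 3) (nat_lit 2) (nat_lit 17655808) (nat_lit 89925636) w15366 = true := by decide +kernel
theorem cw15367 : wchk (nat_lit 5) [w78, w1326] [] (nat_lit 1) (nat_lit 1) (nat_lit 2) (nat_lit 2) (nat_lit 21784576) (nat_lit 90384388) w15367 = true := by decide +kernel
theorem cw15368 : wchk (nat_lit 5) [w78, w1326] [] (nat_lit 1) (nat_lit 1) (nat_lit 2) (nat_lit 2) (nat_lit 17655808) (nat_lit 90384388) w15368 = true := by decide +kernel
theorem cl3385 : lchk (nat_lit 5) [w4209, w13226, w1, w1326, w69, w83, w1576, w3565, w257, w4566, w91, w15361, w80, w8105, w15365, w4259, w521, w15366, w15367, w15368, w15292, w15360, w15288, w15356, w15364, w721, w15291, w267, w114] (nat_lit 10072064) (.nod (nat_lit 286536393041824692492565219131642194851174746995662655723071864922) (.nod (nat_lit 1134074128036790527348286813320594674247100526815588886846356770848) (.nod (nat_lit 425873163277909262502732088645447948047486715952) (.nod (nat_lit 3182448307332676285612692723336379852845434083464532396990984118125001649842558296064) .nil (.dwn (nat_lit 9094022946283395972213155123822843858614095629525386392161480664674141435172804260749312)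 (nat_lit 39268757504)) (.dwn (nat_lit 9094022946283395972213155123822843858614095629525386392161480664674141435172804260749312) (nat_lit 39268757504))) (.nod (nat_lit 1136851163726809697234051181724036131807014069796112181135242588749655727222976893116416) .nil (.dwn (nat_lit 9094022946283395972213155123822843858587370698026375424839230183224180529897875893870592) (nat_lit 39268757504)) (.dwn (nat_lit 9094022946283395972213155123822843858587370698026375424839230183224180529897875893870592) (nat_lit 39268757504))) .nil) .nil (.dwn (nat_lit 7874061045908519891435584541704967721330360330304310854917532764232) (nat_lit 614051840))) .nil (.nod (nat_lit 166762104649159805784949171264642097719927897786185339964252278880) (.opn (nat_lit 145234194538747444696151763182426241081535372763101703548272344770016383576590125426816)) (.dwn (nat_lit 145264078161137811259866678382237283256794144680744212065039708014315023941196921079960) (nat_lit 627262544)) (.dwn (nat_lit 145264078161137811259866678382237283256794144680744212065039708014315023941196921079960) (nat_lit 627262544)))) .nil .nil (.nod (nat_lit 3334862751391821920047892656) .nil (.nod (nat_lit 20933274616711434104323715371269308547616686747426730420065788218011713769863519404442)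 (.dwn (nat_lit 145250805608701073128282447584253414011165407734203997926075466570799836363700087247072) (nat_lit 627262544)) .nil .nil) (.nod (nat_lit 20933274616711434104323715371269308547616686747426730420065788218011713769863519404442) (.dwn (nat_lit 145250805608701073128282447584253414011165407734203997926075466570799836363700087247072) (nat_lit 627262544)) .nil .nil)) l3385 = true := by decide +kernel
theorem cw15369 : wchk (nat_lit 5) [] [l3385] (nat_lit 0) (nat_lit 0) (nat_lit 2) (nat_lit 1) (nat_lit 5820672) (nat_lit 0) w15369 = true := by decide +kernel
theorem cw15371 : wchk (nat_lit 5) [w831, w161] [] (nat_lit 1) (nat_lit 3) (nat_lit 2) (nat_lit 2) (nat_lit 18064384) (nat_lit 22644740) w15371 = true := by decide +kernel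
theorem cw15372 : wchk (nat_lit 5) [w161] [] (nat_lit 0) (nat_lit 2) (nat_lit 3) (nat_lit 2) (nat_lit 421) (nat_lit 23160832) w15372 = true := by decide +kernel
theorem cw15373 : wchk (nat_lit 5) [w1473, w161] [] (nat_lit 0) (nat_lit 2) (nat_lit 2) (nat_lit 2) (nat_lit 18179072) (nat_lit 22644740) w15373 = true := by decide +kernel
theorem cw15374 : wchk (nat_lit 5) [w1379, w161] [] (nat_lit 0) (nat_lit 2) (nat_lit 2) (nat_lit 2) (nat_lit 10724352) (nat_lit 22644740) w15374 = true := by decide +kernel
theorem cw15375 : wchk (nat_lit 5) [w1538, w161] [] (nat_lit 0) (nat_lit 2) (nat_lit 2) (nat_lit 2) (nat_lit 17648640) (nat_lit 22644740) w15375 = true := by decide +kernel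
theorem cw15377 : wchk (nat_lit 5) [] [l1065] (nat_lit 35) (nat_lit 2) (nat_lit 3) (nat_lit 0) (nat_lit 153575680) (nat_lit 0) w15377 = true := by decide +kernel
theorem cw15378 : wchk (nat_lit 5) [w161] [] (nat_lit 0) (nat_lit 2) (nat_lit 2) (nat_lit 2) (nat_lit 205) (nat_lit 22644736) w15378 = true := by decide +kernel
theorem cw15379 : wchk (nat_lit 5) [] [l2397] (nat_lit 0) (nat_lit 1) (nat_lit 1) (nat_lit 1) (nat_lit 4516096) (nat_lit 0) w15379 = true := by decide +kernel
theorem cw15380 : wchk (nat_lit 5) [w281] [] (nat_lit 0) (nat_lit 0) (nat_lit 3) (nat_lit 2) (nat_lit 16777297) (nat_lit 13906944) w15380 = true := by decide +kernel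
theorem cw15381 : wchk (nat_lit 5) [w817, w281] [] (nat_lit 1) (nat_lit 1) (nat_lit 2) (nat_lit 2) (nat_lit 22823936) (nat_lit 18035716) w15381 = true := by decide +kernel
theorem cw15382 : wchk (nat_lit 5) [w1075, w281] [] (nat_lit 1) (nat_lit 1) (nat_lit 2) (nat_lit 2) (nat_lit 22823936) (nat_lit 18035716) w15382 = true := by decide +kernel
theorem cw15383 : wchk (nat_lit 5) [w161, w281] [] (nat_lit 1) (nat_lit 1) (nat_lit 2) (nat_lit 2) (nat_lit 22644736) (nat_lit 18035716) w15383 = true := by decide +kernel
theorem cw15384 : wchk (nat_lit 5) [w22, w281] [] (nat_lit 1) (nat_lit 1) (nat_lit 2) (nat_lit 2) (nat_lit 23275520) (nat_lit 18035716) w15384 = true := by decide +kernel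
theorem cw15385 : wchk (nat_lit 5) [w1120, w281] [] (nat_lit 1) (nat_lit 1) (nat_lit 2) (nat_lit 2) (nat_lit 22823936) (nat_lit 18035716) w15385 = true := by decide +kernel
theorem cl3386 : lchk (nat_lit 5) [w14462, w858, w15377, w15378, w15379, w281, w5355, w4400, w15381, w15382, w1355, w15383, w15380, w1109, w3274, w10050, w2458, w15384, w2684, w15385, w15371, w4916, w15372, w15373, w15374, w15375] (nat_lit 111387648) (.nod (nat_lit 234702993209104966793848307851657563295205980424130903441338793984) .nil .nil (.dwn (nat_lit 1134794086497432438039508677527676931578440572272527824205224345600) (nat_lit 883139584))) .nil (.nod (nat_lit 232183515222962402412012055377990253051432219141895693405882306601) (.nod (nat_lit 12547669999164358132570763588165382145582647304) .nil .nil (.nod (nat_lit 15411227784572116328155966171664107713567313976) (.dwn (nat_lit 20933260721660725627515058930549423241651772060878856061583870286896298808505724733520) (nat_lit 90391596)) .nil .nil)) .nil (.nod (nat_lit 15845409028950686234968849691055877814543009800) .nil (.nod (nat_lit 5391914215538462551672386231002356599992827833883242810899997089934060259937631946864) .nil (.dwn (nat_lit 5166156694994251911778958352950617964011271866375176119654312489308164059774923860096)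 (nat_lit 614704128)) .dup) (.dwn (nat_lit 5391917920885318145790639785273876877412100204653998935151331501164565254685821456528) (nat_lit 23282764)))) (.nod (nat_lit 234702993209104966785301574476910055650826174121479232701186703360) (.opn (nat_lit 4289677275711169014368278619486018390651912448537335845733326397651459977874272944128)) .nil (.nod (nat_lit 5391920699895459855933535993940886491502218909889600674788267236929044516025111937024) (.dwn (nat_lit 145264083719158094651044059215812702504748885245262972940704113724734591959396990273688) (nat_lit 9204638720)) .nil .nil)) l3386 = true := by decide +kernel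
theorem cw15386 : wchk (nat_lit 5) [] [l3386] (nat_lit 34) (nat_lit 2) (nat_lit 4) (nat_lit 0) (nat_lit 22597888) (nat_lit 0) w15386 = true := by decide +kernel
theorem cw15387 : wchk (nat_lit 5) [w15386, w220] [] (nat_lit 17) (nat_lit 1) (nat_lit 4) (nat_lit 2) (nat_lit 23282688) (nat_lit 5599236) w15387 = true := by decide +kernel
theorem cw15390 : wchk (nat_lit 5) [w33, w1326] [] (nat_lit 1) (nat_lit 1) (nat_lit 3) (nat_lit 2) (nat_lit 89416704) (nat_lit 89925636) w15390 = true := by decide +kernel
theorem cw15393 : wchk (nat_lit 5) [] [l198] (nat_lit 2) (nat_lit 3) (nat_lit 1) (nat_lit 0) (nat_lit 4673792) (nat_lit 0) w15393 = true := by decide +kernel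
theorem cw15394 : wchk (nat_lit 5) [w15393, w220] [] (nat_lit 17) (nat_lit 1) (nat_lit 4) (nat_lit 2) (nat_lit 23282688) (nat_lit 5599236) w15394 = true := by decide +kernel
theorem cl3388 : lchk (nat_lit 5) [w4038, w13226, w1, w795, w6095, w4209, w1070, w15369, w15356, w15359, w1109, w3274, w10344, w15387, w10253, w15394] (nat_lit 90269696) (.nod (nat_lit 286536393041824692508371574633906098819326657546598327766144600080) (.nod (nat_lit 291575844905146916812633847856725417852722925018099591153565476896) (.nod (nat_lit 3349813055626758708402976469122148793835705257984) (.nod (nat_lit 9097054097867921028969250716781789961461639979547901119410168654589704515315925854113792) .nil (.dwn (nat_lit 72754428358320611228802203943776467420707151456673691454123563665560074511354935302606848) (nat_lit 314159753216)) .dup) (.nod (nat_lit 9097054097867921028969250716781789961434906140294979914012137558856583151379539413880832) .nil (.dwn (nat_lit 72754428358320611228802203943776467420493345407842414675205602116041094756114563122515968) (nat_lit 314159753216)) (.dwn (nat_lit 72754428358320611228802203943776467420493345407842414675205602116041094756114563122515968) (nat_lit 314159753216)))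 .nil) .nil (.dwn (nat_lit 61793144131917795771351606011726870508588489681549863433144088317952) (nat_lit 4922107904))) .nil (.nod (nat_lit 291575844905146916812633847856725417852722925018099591153565476896) (.opn (nat_lit 1139882315311334754544927890564574315598959333549143305471853173917736291325355407626240)) (.dwn (nat_lit 1139882315311334754544927890564574315598959333549143305471853173917736291325355407626240) (nat_lit 4922107904)) (.dwn (nat_lit 1139882315311334754544927890564574315598959333549143305471853173917736291325355407626240) (nat_lit 4922107904)))) (.nod (nat_lit 6854705166693027126058979284895368089242376232) .nil .nil (.dwn (nat_lit 15845392695397074029922602563631005551610726448) (nat_lit 23282716))) .nil (.nod (nat_lit 15845398139914944764938018272772629639264110664) .nil (.nod (nat_lit 5391911436528320856083696065298716391483039347236834029423937019388331633891054274648) (.dwn (nat_lit 145038314156236603330266306733993570246629158977484962072262564462721657636440322295920) (nat_lit 627262524)) .nil .nil) (.nod (nat_lit 5391911436528320856083696065298716391483039347236834029423937019388331633891054274648) (.dwn (nat_lit 145038314156236603330266306733993570246629158977484962072262564462721657636440322295920)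 (nat_lit 627262524)) .nil .nil)) l3388 = true := by decide +kernel
theorem cw15395 : wchk (nat_lit 5) [] [l3388] (nat_lit 35) (nat_lit 1) (nat_lit 1) (nat_lit 0) (nat_lit 22597888) (nat_lit 0) w15395 = true := by decide +kernel
theorem cw15396 : wchk (nat_lit 5) [w112, w1326] [] (nat_lit 1) (nat_lit 1) (nat_lit 3) (nat_lit 2) (nat_lit 88836096) (nat_lit 89925636) w15396 = true := by decide +kernel
theorem cw15397 : wchk (nat_lit 5) [] [l1408] (nat_lit 145) (nat_lit 1) (nat_lit 0) (nat_lit 0) (nat_lit 5790208) (nat_lit 0) w15397 = true := by decide +kernel
theorem cl3389 : lchk (nat_lit 5) [w4209, w11935, w1, w1326, w69, w83, w93, w3565, w257, w4566, w91, w15361, w80, w8105, w15365, w4259, w521, w13137, w14985, w111, w370, w721, w15396, w267, w114, w15397] (nat_lit 10072064) (.nod (nat_lit 7711811430431996598105841976937992702081669452547440477370258030682) (.nod (nat_lit 1134074128036790527348286813320594674247100526815588886846356770848) (.nod (nat_lit 425873163277909262502541418376335603252344705072) (.nod (nat_lit 3182448307332676285612692723336379852845434083464532396990984118125001649842558296064) .nil (.dwn (nat_lit 9094022946283395972213155123822843858614095629525386392161480664674141435172804260749312)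 (nat_lit 39268757504)) (.dwn (nat_lit 9094022946283395972213155123822843858614095629525386392161480664674141435172804260749312) (nat_lit 39268757504))) (.nod (nat_lit 1136851163726809697234051181724036131807014069796112181135242588749655727222976893116416) .nil (.dwn (nat_lit 9094022946283395972213155123822843858587370698026375424839230183224180529897875893870592) (nat_lit 39268757504)) (.dwn (nat_lit 9094022946283395972213155123822843858587370698026375424839230183224180529897875893870592) (nat_lit 39268757504))) .nil) .nil (.dwn (nat_lit 7874061045908519891435584541704967721330360330304310854917532764232) (nat_lit 614051840))) .nil (.nod (nat_lit 166762104649159805784949171264642097719927897786185339964252278880) (.dwn (nat_lit 145234194538747444696151763182426241081535372763101703548272344770016383576590125426816) (nat_lit 614051840)) .nil .nil)) .nil .nil (.nod (nat_lit 378736300683339580480981136) .nil (.nod (nat_lit 20573051911451140710067929756882440952807598699457017338114177545074925257058762621338) (.dwn (nat_lit 145250801903354217534164193829114638200778571975930191341462061161463490639455545938112) (nat_lit 627262564)) .nil .nil) (.nod (nat_lit 20573051911451140710067929756882440952807598699457017338114177545074925257058762621338)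 (.dwn (nat_lit 145250801903354217534164193829114638200778571975930191341462061161463490639455545938112) (nat_lit 627262564)) .nil .nil)) l3389 = true := by decide +kernel
theorem cw15398 : wchk (nat_lit 5) [] [l3389] (nat_lit 4) (nat_lit 1) (nat_lit 1) (nat_lit 0) (nat_lit 22597888) (nat_lit 0) w15398 = true := by decide +kernel
theorem cw15399 : wchk (nat_lit 5) [w34, w220] [] (nat_lit 17) (nat_lit 1) (nat_lit 4) (nat_lit 2) (nat_lit 18523136) (nat_lit 5599236) w15399 = true := by decide +kernel
theorem cw15400 : wchk (nat_lit 5) [w3518, w1326] [] (nat_lit 1) (nat_lit 1) (nat_lit 2) (nat_lit 2) (nat_lit 90391552) (nat_lit 90384388) w15400 = true := by decide +kernel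
theorem cw15401 : wchk (nat_lit 5) [w368, w15345] [] (nat_lit 0) (nat_lit 0) (nat_lit 4) (nat_lit 2) (nat_lit 17476608) (nat_lit 23282692) w15401 = true := by decide +kernel
theorem cw15402 : wchk (nat_lit 5) [w69, w15345] [] (nat_lit 0) (nat_lit 0) (nat_lit 4) (nat_lit 2) (nat_lit 17476608) (nat_lit 23282692) w15402 = true := by decide +kernel
theorem cw15403 : wchk (nat_lit 5) [w126, w15345] [] (nat_lit 0) (nat_lit 0) (nat_lit 4) (nat_lit 2) (nat_lit 17519616) (nat_lit 23282692) w15403 = true := by decide +kernel
theorem cl3390 : lchk (nat_lit 5) [w192, w25, w4601, w2750, w4339] (nat_lit 21712896) (.nod (nat_lit 928458017836575147172036762) (.nod (nat_lit 618971827423609361019175002) .nil (.nod (nat_lit 5391903099497895769317625568187795765344132491629664470474552521687565908969009446938) .nil (.opn (nat_lit 1139546996242290909219436065525918578828521725161294325660805934485839195832212115595264)) .dup) .nil) .nil .nil) .nil (.nod (nat_lit 618970646831988643607871514) .nil .nil (.nod (nat_lit 618970646831988643607871514) (.opn (nat_lit 144900523422717624846896602783515760558030385652473835010774604809383877699219631374746)) .nil (.dwn (nat_lit 145262404270695796609070853934407952566603550462853041466944080013820211544195575316506)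 (nat_lit 627262480)))) .nil l3390 = true := by decide +kernel
theorem cw15405 : wchk (nat_lit 5) [] [l3390] (nat_lit 18) (nat_lit 3) (nat_lit 1) (nat_lit 0) (nat_lit 5820672) (nat_lit 0) w15405 = true := by decide +kernel
theorem cl3391 : lchk (nat_lit 5) [w257, w86, w91, w15405, w6204, w4548, w10099, w14986, w80, w6960, w1801, w648, w14045, w281, w169, w8, w345, w2752] (nat_lit 21784576) (.nod (nat_lit 32837825512174947121038413832) (.nod (nat_lit 17661404247375991064368434024766179339596088290906864052056194973688444107878620463450) .nil (.dwn (nat_lit 145116326528934281895968628985634405661495832220709677565097681617576418634566865422392) (nat_lit 625764352)) .dup) (.nod (nat_lit 18657407040179973442101202540824189664790506963437481610518509804840186206239198281754) .nil (.dwn (nat_lit 5375310556278545315632563248704160106862240730625089077551293856592343732472985966688) (nat_lit 625764352)) .dup) .nil) (.nod (nat_lit 1555953773086423247681046921833251632274971198590206041590165667930) .nil (.nod (nat_lit 1114367242463764867668881085708426111556153701014455357343604408475) .nil .nil (.nod (nat_lit 23086629703589395607645114368) (.opn (nat_lit 1139563596196203970807437022213568286260335584089712863745108747009762533608154223083930))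 .nil (.dwn (nat_lit 1139563596196203970807437022213568286260335584089712863745109365972698626573987238379546) (nat_lit 4920731648)))) (.dwn (nat_lit 291576447506913513978639572731662664465925850803618455613758265480) (nat_lit 88893440))) .nil .nil l3391 = true := by decide +kernel
theorem cw15406 : wchk (nat_lit 5) [] [l3391] (nat_lit 17) (nat_lit 3) (nat_lit 2) (nat_lit 0) (nat_lit 5820672) (nat_lit 0) w15406 = true := by decide +kernel
theorem cl3395 : lchk (nat_lit 5) [w4038, w2572, w12743, w1070, w8908, w4632, w10247, w1, w831, w6095, w5158, w1109, w3274, w10344, w10253, w15371, w10249] (nat_lit 51991552) (.nod (nat_lit 234613004678626463334768998541376884977595629354901371123811745792) .nil .nil (.nod (nat_lit 232543368911248650046860741221574745711969020829255033605601624064) (.dwn (nat_lit 19831020076486576488215756533492780038458251074090452422668861818655353751940650158128) (nat_lit 85545984)) .nil .nil)) .nil (.nod (nat_lit 234703294509988265351051644516173409546112498980695173067003562049) (.nod (nat_lit 12206198005088664068201304755033070123825647696) .nil .nil (.dwn (nat_lit 3346598263826733028260555186522223507085383084032) (nat_lit 4917384192))) .nil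 (.nod (nat_lit 12206198005088664068201304755033070123825647696) (.opn (nat_lit 3346598263826733028260555186522223507085383084032)) .nil .nil)) (.nod (nat_lit 234613004678626463334768998541376884977595629354901371123811745792) .nil (.nod (nat_lit 4289675423037741217309151741916630485458494569400432553426623692983287115752002289664) (.dwn (nat_lit 144414156815442199190435099449337819738910737826805314432753268887020389937099645077624) (nat_lit 77931570240)) .nil .nil) (.nod (nat_lit 4289675423037741217309151741916630485458494569400432553426623692983287115752002289664) (.dwn (nat_lit 144414156815442199190435099449337819738910737826805314432753268887020389937099645077624) (nat_lit 77931570240)) .nil .nil)) l3395 = true := by decide +kernel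
theorem cw15413 : wchk (nat_lit 5) [] [l3395] (nat_lit 34) (nat_lit 1) (nat_lit 4) (nat_lit 0) (nat_lit 22597888) (nat_lit 0) w15413 = true := by decide +kernel
theorem cw15414 : wchk (nat_lit 5) [w15413, w220] [] (nat_lit 145) (nat_lit 1) (nat_lit 4) (nat_lit 2) (nat_lit 23282688) (nat_lit 5599236) w15414 = true := by decide +kernel
theorem cw15418 : wchk (nat_lit 5) [w10183, w220] [] (nat_lit 17) (nat_lit 1) (nat_lit 4) (nat_lit 2) (nat_lit 623592448) (nat_lit 5599236) w15418 = true := by decide +kernel
theorem cw15419 : wchk (nat_lit 5) [w1804, w1326] [] (nat_lit 1) (nat_lit 1) (nat_lit 3) (nat_lit 2) (nat_lit 73159680) (nat_lit 89925636) w15419 = true := by decide +kernel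
theorem cw15420 : wchk (nat_lit 5) [w1326] [] (nat_lit 17) (nat_lit 1) (nat_lit 2) (nat_lit 2) (nat_lit 16777229) (nat_lit 90384384) w15420 = true := by decide +kernel
theorem cw15421 : wchk (nat_lit 5) [w408, w220] [] (nat_lit 145) (nat_lit 1) (nat_lit 4) (nat_lit 2) (nat_lit 4916602880) (nat_lit 5599236) w15421 = true := by decide +kernel

end Pool.Agent.W319.GCI.K5
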