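import Pool.Agent.W319.GCI.K5D0
import Pool.Agent.W319.GCI.K5D1
import Pool.Agent.W319.GCI.K5D2
import Pool.Agent.W319.GCI.K5D3
import Pool.Agent.W319.GCI.K5D4
import Pool.Agent.W319.GCI.K5D5
import Pool.Agent.W319.GCI.K5D6
import Pool.Agent.W319.GCI.K5D7
import Pool.Agent.W319.GCI.K5D8
import Pool.Agent.W319.GCI.K5D9
import Pool.Agent.W319.GCI.K5D10
import Pool.Agent.W319.GCI.K5D11
import Pool.Agent.W319.GCI.K5D12
import Pool.Agent.W319.GCI.K5D13
import Pool.Agent.W319.GCI.K5D14
import Pool.Agent.W319.GCI.K5D15
set_option autoImplicit false
set_option maxRecDepth 100000
set_option linter.all false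
namespace Pool.Agent.W319.GCI.K5
open Pool.Agent.W319.GCI

theorem cl240 : lchk (nat_lit 5) [] (nat_lit 273) (.nod (nat_lit 17127005660143476824668851044105469949877682692) .nil .nil (.dwn (nat_lit 11418014889319637301054687257872443787647647842) (nat_lit 16777489))) .nil (.nod (nat_lit 33554578) .nil (.nod (nat_lit 3885341721382492210589568215060528108673680689283757674283421131682496828100399071492) (.opn (nat_lit 3885371364157336963746223052929307968311348694146105673128866098030546453810164793378)) .nil .dup) .nil) .nil l240 = true := by decide +kernel
theorem cw1095 : wchk (nat_lit 5) [] [l240] (nat_lit 1) (nat_lit 3) (nat_lit 3) (nat_lit 0) (nat_lit 5820672) (nat_lit 0) w1095 = true := by decide +kernel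
theorem cl241 : lchk (nat_lit 5) [] (nat_lit 73) (.nod (nat_lit 22836018549321166209902120041252933560342413312) .nil .nil (.nod (nat_lit 88473415399444000500477397932259768533138) .nil .nil (.nod (nat_lit 102761883556054681893831230527106901191616888850) .nil (.opn (nat_lit 34968071787095574301187860381273232700152836826026507415826076500674493475449087197458)) .dup))) .nil .nil (.nod (nat_lit 3885354690096486790003455655010849081719360343995455625470594053475338982886123503616) .nil (.opn (nat_lit 3885369511483909166476469872096930193874327357636132109912002861382933639799555227922)) .dup) l241 = true := by decide +kernel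
theorem cw1098 : wchk (nat_lit 5) [] [l241] (nat_lit 3) (nat_lit 2) (nat_lit 4) (nat_lit 0) (nat_lit 5820672) (nat_lit 0) w1098 = true := by decide +kernel
theorem cw1099 : wchk (nat_lit 5) [] [l196] (nat_lit 0) (nat_lit 3) (nat_lit 2) (nat_lit 0) (nat_lit 5820672) (nat_lit 0) w1099 = true := by decide +kernel
theorem cl242 : lchk (nat_lit 5) [] (nat_lit 73) (.nod (nat_lit 22836018549321166209902120041252933560342413312) .nil .nil (.nod (nat_lit 88473415399444000500477397932259768533138) .nil .nil (.nod (nat_lit 102761883556054681893831230527106901191616888850) .nil (.opn (nat_lit 34968071787095574301187860381273232700152836826026507415826076500674493475449087197458)) .dup))) .nil .nil (.nod (nat_lit 3885354690096486790003455655010849081719360343995455625470594053475338982886123503616) .nil (.opn (nat_lit 3885369511483909166687096175359920063220692704009774933450391064229423645453600161792)) .dup) l242 = true := by decide +kernel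
theorem cw1100 : wchk (nat_lit 5) [] [l242] (nat_lit 3) (nat_lit 2) (nat_lit 4) (nat_lit 0) (nat_lit 5820672) (nat_lit 0) w1100 = true := by decide +kernel
theorem cw1101 : wchk (nat_lit 5) [] [l178] (nat_lit 35) (nat_lit 1) (nat_lit 1) (nat_lit 0) (nat_lit 22565632) (nat_lit 0) w1101 = true := by decide +kernel
theorem cw1104 : wchk (nat_lit 5) [w281] [] (nat_lit 0) (nat_lit 0) (nat_lit 3) (nat_lit 2) (nat_lit 33554513) (nat_lit 22816768) w1104 = true := by decide +kernel
theorem cl244 : lchk (nat_lit 5) [w858, w281, w210, w33, w808, w823, w4, w604, w603, w907, w906, w1047, w1104, w825, w105] (nat_lit 23282688) (.nod (nat_lit 15840501136372585539906204083569926384044212378) (.nod (nat_lit 60409936594187512500860919383400119679147739160) .nil .nil (.dwn (nat_lit 15845387250879203294907186854489381463966517280) (nat_lit 627262484))) .nil (.nod (nat_lit 15806366391299645441900794692502773699878488088) .nil (.nod (nat_lit 144917129860987683786379469639901766543023119025252835786608155936844910530457431920704) (.opn (nat_lit 1139910535232986959349548489701490887505100468562454253887548771423345327171782016665600)) .dup .dup) (.dwn (nat_lit 5391910510191606957554132676730836321796108272353369140075246827151671631234781892672)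 (nat_lit 627262464)))) .nil .nil (.nod (nat_lit 842055202589262536087603232) .nil .nil (.nod (nat_lit 5391911436528320856083696065298716390873497927068560396595163362633614478714343522330) (.dwn (nat_lit 145264072603117527868689297950396375073223002561108827457312954339134645606229194729584) (nat_lit 627262464)) .nil .nil)) l244 = true := by decide +kernel
theorem cw1105 : wchk (nat_lit 5) [] [l244] (nat_lit 4) (nat_lit 2) (nat_lit 2) (nat_lit 0) (nat_lit 22597888) (nat_lit 0) w1105 = true := by decide +kernel
theorem cl245 : lchk (nat_lit 5) [w795, w1, w158, w808, w826, w1077, w576, w1082, w22, w604, w1074, w1083, w1084, w889, w1105] (nat_lit 23225344) (.nod (nat_lit 15806353120287335522820608025252511003230685193) (.nod (nat_lit 61083140339868155686958457999764652408637149200) .nil .nil (.nod (nat_lit 15845384528620267927399478999918569420144412696) (.dwn (nat_lit 1139910538938333814883006863505757537657290563366587635646237772175063942742086776170544) (nat_lit 90391580)) .nil .nil)) .nil (.nod (nat_lit 15840519851902766191125542881877447110043521088) .nil (.nod (nat_lit 144917131713661111583438596417037526682213351949878016494304352655635017570209666598992)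 (.dwn (nat_lit 1139910545422690812233373687578339334866757713013838055251631966118586788488445970516072) (nat_lit 4922229816)) .nil .nil) (.nod (nat_lit 144917131713661111583438596417037526682213351949878016494304352655635017570209666598992) (.dwn (nat_lit 1139910545422690812233373687578339334866757713013838055251631966118586788488445970516072) (nat_lit 4922229816)) .nil .nil))) .nil .nil (.nod (nat_lit 15845384528620267927399478999918569420144412696) .nil (.dwn (nat_lit 20919973347836565118323018925079390550265726826109907079786097710268070480427509663744) (nat_lit 90334208)) (.dwn (nat_lit 20919973347836565118323018925079390550265726826109907079786097710268070480427509663744) (nat_lit 90334208))) l245 = true := by decide +kernel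
theorem cw1106 : wchk (nat_lit 5) [] [l245] (nat_lit 17) (nat_lit 1) (nat_lit 1) (nat_lit 0) (nat_lit 156815616) (nat_lit 0) w1106 = true := by decide +kernel
theorem cl246 : lchk (nat_lit 5) [w128, w219, w1, w795, w15, w622, w1065, w581, w801, w1066, w1067, w1064] (nat_lit 4887177216) (.nod (nat_lit 425873150006896952586093667091000385225048510465) (.nod (nat_lit 273488056122441691470970842444095858486846369237082049943497426960) (.nod (nat_lit 7874060845041264359062780624301400697472233275700931818961679763489) (.nod (nat_lit 14825827778592816735622347353257324109993824296) .nil (.nod (nat_lit 5391907731181465261965442511027196112875272455652161783567132892406493185048225206328) (.dwn (nat_lit 145235849902455181368481538302143855868399515017233365655260659153009558968830241966160) (nat_lit 625764352)) .nil .nil) (.nod (nat_lit 5391907731181465261965442511027196112875272455652161783567132892406493185048225206328) (.dwn (nat_lit 145235849902455181368481538302143855868399515017233365655260659153009558968830241966160) (nat_lit 625764352)) .nil .nil)) .nil .dup) .nil (.dwn (nat_lit 273488049845339956084329129412734282177251242573209699708609136728) (nat_lit 122447872)))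 .nil (.nod (nat_lit 448709112749909943763325719159656336176660926464) .nil (.dwn (nat_lit 1201729000747427301076859803231920891273075290644047691290133651192832668202370346831872) (nat_lit 5189167104)) (.dwn (nat_lit 1201729000747427301076859803231920891273075290644047691290133651192832668202370346831872) (nat_lit 5189167104)))) .nil .nil (.nod (nat_lit 3348876424328420422230981194070273748227113668608) (.opn (nat_lit 9096735378752790245786688005571177887710249430216568139883318033417512344321142292008960)) .dup .dup) l246 = true := by decide +kernel
theorem cw1107 : wchk (nat_lit 5) [] [l246] (nat_lit 2193) (nat_lit 1) (nat_lit 1) (nat_lit 0) (nat_lit 9820492032) (nat_lit 0) w1107 = true := by decide +kernel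
theorem cw1108 : wchk (nat_lit 5) [] [l143] (nat_lit 0) (nat_lit 1) (nat_lit 3) (nat_lit 1) (nat_lit 5528576) (nat_lit 0) w1108 = true := by decide +kernel
theorem cw1109 : wchk (nat_lit 5) [] [l15] (nat_lit 1) (nat_lit 1) (nat_lit 2) (nat_lit 0) (nat_lit 5820672) (nat_lit 0) w1109 = true := by decide +kernel
theorem cw1110 : wchk (nat_lit 5) [] [l15] (nat_lit 2) (nat_lit 2) (nat_lit 2) (nat_lit 0) (nat_lit 5820672) (nat_lit 0) w1110 = true := by decide +kernel
theorem cw1111 : wchk (nat_lit 5) [] [l89] (nat_lit 1) (nat_lit 1) (nat_lit 2) (nat_lit 0) (nat_lit 22191104) (nat_lit 0) w1111 = true := by decide +kernel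
theorem cl247 : lchk (nat_lit 5) [] (nat_lit 265) (.nod (nat_lit 175585701331204247147101297434792447443090) .nil .nil (.nod (nat_lit 618979796417049203545473106) (.opn (nat_lit 1895624576897949115503329331274462081803931222105101557159765738002)) .nil .nil)) .nil (.nod (nat_lit 11418036667391120240497368822282365037512228864) .nil .nil (.dwn (nat_lit 3885339868709064413530441437924767969667155125437418423478397000543402728570706984960) (nat_lit 16777225))) .nil l247 = true := by decide +kernel
theorem cw1112 : wchk (nat_lit 5) [] [l247] (nat_lit 3) (nat_lit 2) (nat_lit 4) (nat_lit 0) (nat_lit 22597888) (nat_lit 0) w1112 = true := by decide +kernel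
theorem cw1113 : wchk (nat_lit 5) [w1112] [] (nat_lit 0) (nat_lit 0) (nat_lit 3) (nat_lit 2) (nat_lit 33554513) (nat_lit 23282688) w1113 = true := by decide +kernel
theorem cl248 : lchk (nat_lit 5) [w848, w829, w4, w33, w844, w211, w411, w845, w846, w847, w1113] (nat_lit 23282688) (.nod (nat_lit 15845379424384764113718413841350447495712342106) (.nod (nat_lit 15806355502263903971869963864515335883295721496) .nil .nil (.nod (nat_lit 858980164063867344535324704) (.opn (nat_lit 61794673936935930326744108904012020586983733320324627846731197841434)) .nil .nil)) .nil (.nod (nat_lit 14777044898471030999973738122973252657620539440) .nil (.nod (nat_lit 5391908657518179160495005899595076182379554846728843366008245309093724332142395557960) .nil (.opn (nat_lit 1139910535232986959287753815764554957178356359658442233300565657073667531313694426695680)) .dup) (.dwn (nat_lit 5391908657518179160495005899595076182379554846728843366008245309093724332142395557960) (nat_lit 627262464)))) .nil .nil (.nod (nat_lit 858980164063867344535324704) .nil (.dwn (nat_lit 20933262574334153424574185757901997263690538704566681994521896364758699127250224152986) (nat_lit 90391592)) .dup) l248 =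 true := by decide +kernel
theorem cw1114 : wchk (nat_lit 5) [] [l248] (nat_lit 290) (nat_lit 1) (nat_lit 2) (nat_lit 0) (nat_lit 22597888) (nat_lit 0) w1114 = true := by decide +kernel
theorem cl249 : lchk (nat_lit 5) [] (nat_lit 265) (.nod (nat_lit 175585701331204247147101297434792447443090) .nil .nil (.nod (nat_lit 618979796417049203545473106) (.opn (nat_lit 34968101429870419054133888815445394924154485336030384172032183258466633316296338440722)) .nil .nil)) .nil (.nod (nat_lit 11418036667391120240497368822282365037512228864) .nil .nil (.dwn (nat_lit 3885339868709064413530441437924767969667155125437418423478397000543402728570706984960) (nat_lit 16777225))) .nil l249 = true := by decide +kernel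
theorem cw1115 : wchk (nat_lit 5) [] [l249] (nat_lit 3) (nat_lit 2) (nat_lit 4) (nat_lit 0) (nat_lit 22597888) (nat_lit 0) w1115 = true := by decide +kernel
theorem cw1116 : wchk (nat_lit 5) [w1115] [] (nat_lit 0) (nat_lit 0) (nat_lit 3) (nat_lit 2) (nat_lit 33554513) (nat_lit 23282688) w1116 = true := by decide +kernel
theorem cl250 : lchk (nat_lit 5) [w848, w833, w4, w33, w844, w211, w411, w845, w846, w847, w1116] (nat_lit 23282688) (.nod (nat_lit 15845379424384764113718413841350447495712342106) (.nod (nat_lit 15806355502263903971869963864515335883295721496) .nil .nil (.nod (nat_lit 858980164063867344535324704) (.opn (nat_lit 1139910535232986959287753815764554957175006463671919267556408487493546996405505735262234)) .nil .nil)) .nil (.nod (nat_lit 14777044898471030999973738122973252657620539440) .nil (.nod (nat_lit 5391908657518179160495005899595076182379554846728843366008245309093724332142395557960) .nil (.opn (nat_lit 1139910535232986959287753815764554957178356359658442233300565657073667531313694426695680)) .dup) (.dwn (nat_lit 5391908657518179160495005899595076182379554846728843366008245309093724332142395557960) (nat_lit 627262464)))) .nil .nil (.nod (nat_lit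 858980164063867344535324704) .nil (.dwn (nat_lit 20933262574334153424574185757901997263690538704566681994521896364758699127250224152986) (nat_lit 90391592)) .dup) l250 = true := by decide +kernel
theorem cw1117 : wchk (nat_lit 5) [] [l250] (nat_lit 290) (nat_lit 1) (nat_lit 2) (nat_lit 0) (nat_lit 22597888) (nat_lit 0) w1117 = true := by decide +kernel
theorem cw1118 : wchk (nat_lit 5) [w161] [] (nat_lit 0) (nat_lit 1) (nat_lit 3) (nat_lit 2) (nat_lit 33554513) (nat_lit 23160832) w1118 = true := by decide +kernel
theorem cw1119 : wchk (nat_lit 5) [w161] [] (nat_lit 0) (nat_lit 1) (nat_lit 3) (nat_lit 2) (nat_lit 33554513) (nat_lit 23160832) w1119 = true := by decide +kernel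
theorem cw1120 : wchk (nat_lit 5) [] [l227] (nat_lit 36) (nat_lit 1) (nat_lit 3) (nat_lit 0) (nat_lit 21680384) (nat_lit 0) w1120 = true := by decide +kernel
theorem cw1121 : wchk (nat_lit 5) [w1120] [] (nat_lit 2) (nat_lit 0) (nat_lit 3) (nat_lit 2) (nat_lit 23282688) (nat_lit 33554513) w1121 = true := by decide +kernel
theorem cw1122 : wchk (nat_lit 5) [w161] [] (nat_lit 1) (nat_lit 1) (nat_lit 3) (nat_lit 2) (nat_lit 23160832) (nat_lit 33554513) w1122 = true := by decide +kernel
theorem cl251 : lchk (nat_lit 5) [w858, w161, w4, w831, w604, w603, w1073, w1111, w1121, w1072, w844, w818, w1076, w848, w1122, w1114, w1117, w1047, w1104, w1118, w1119] (nat_lit 23282688) .nil (.nod (nat_lit 15411211791300871044431641506821445425054089370) .nil (.nod (nat_lit 15806355502263903969394083785944575333363255320) .nil (.nod (nat_lit 144917127081977542090790779474198126334513330538606427005132095866299181904410854248488) .nil (.dwn (nat_lit 1139910535232986959287753815764554957178356359658442233300565657073667531313694426695680) (nat_lit 4922229760)) .dup) (.dwn (nat_lit 145264067971433958368166699802320557391129272219167973206900454365869062116968395868216) (nat_lit 627262496)))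 (.nod (nat_lit 15806355502263903969411009632862895679869454408) .nil .nil (.nod (nat_lit 15533193151653386775988858887571781474263140432) (.dwn (nat_lit 1139910545422690812233373687578339334863469334329843523685495411879318056934624984729704) (nat_lit 90391608)) .nil .nil))) .nil (.nod (nat_lit 858981049507582882593802320) (.opn (nat_lit 20933253310967014439278551370055057737723449336104754886663459919963542937077091926426)) .nil (.nod (nat_lit 20933267206017722917222003002042280909767529499483960934113064880091805364599492968538) (.opn (nat_lit 145264078161137811259866678583104538789168631607852263063784022535839121930429392128160)) .nil .nil)) l251 = true := by decide +kernel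
theorem cw1123 : wchk (nat_lit 5) [] [l251] (nat_lit 4) (nat_lit 2) (nat_lit 2) (nat_lit 0) (nat_lit 22597888) (nat_lit 0) w1123 = true := by decide +kernel
theorem cl252 : lchk (nat_lit 5) [w1110, w161, w10, w604, w603, w1111, w844, w849, w1084, w858, w1123] (nat_lit 23282688) .nil (.nod (nat_lit 15411211791300871044048182526060586956112449545) .nil (.nod (nat_lit 15845381806361332559891771145347757376322308112) .nil (.nod (nat_lit 5044965915388335086059958794336884986756775297970245214509582341582830494286983155744) .nil (.dwn (nat_lit 1139910535232986959287753815764554957178356359658442233300565657073667531313694426695680) (nat_lit 4922229760)) .dup) (.dwn (nat_lit 5044965915388335086059958794336884986346435316954953597312848741790270259248340830248) (nat_lit 627262464))) (.nod (nat_lit 15411211451018504123109719044239235450634686472) .nil .nil (.nod (nat_lit 15533182262617645305958027469288533298974722096) (.dwn (nat_lit 20933259795324011728985495491764729289055375331743183844154483509656554849697225410632) (nat_lit 90391592)) .nil .nil))) .nil (.nod (nat_lit 15533182262617645305958027469288533298974722096) (.dwn (nat_lit 20933259795324011728985495491764729289055375331743183844154483509656554849697225410632)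 (nat_lit 90391592)) .nil .nil) l252 = true := by decide +kernel
theorem cw1124 : wchk (nat_lit 5) [] [l252] (nat_lit 1) (nat_lit 1) (nat_lit 1) (nat_lit 0) (nat_lit 5820672) (nat_lit 0) w1124 = true := by decide +kernel
theorem cw1125 : wchk (nat_lit 5) [] [l134] (nat_lit 0) (nat_lit 0) (nat_lit 2) (nat_lit 0) (nat_lit 5413888) (nat_lit 0) w1125 = true := by decide +kernel
theorem cl253 : lchk (nat_lit 5) [w128, w622, w1065, w581, w801, w1066, w1067, w1110, w15, w219, w1064] (nat_lit 21784576) (.nod (nat_lit 14825816889557075265591515934974075934705405960) .nil (.nod (nat_lit 5391904025834609667847188956755675834862221140123616741599052798345521683652788310040) (.dwn (nat_lit 145235846197108325774363284547005080058012679258959559070647253743673213244585700657200) (nat_lit 625764352)) .nil .nil) (.nod (nat_lit 5391904025834609667847188956755675834862221140123616741599052798345521683652788310040) (.dwn (nat_lit 145235846197108325774363284547005080058012679258959559070647253743673213244585700657200) (nat_lit 625764352)) .nil .nil)) .nil (.nod (nat_lit 292295960293332212216590647224302751759800453116802063824453978176) (.nod (nat_lit 273488451579851020831898012180998432100394165269387333362995857488)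 .nil (.nod (nat_lit 425873149666614585665155203609179033719570747392) .nil (.nod (nat_lit 1139563596196203970807437022213568286260335584089712863745290289956783912656146953457664) (.opn (nat_lit 9096735378752790245786688005571177887710249430216568139883318033417512344321142292008960)) .dup .dup) (.dwn (nat_lit 1139563596196203970807437022213568286260335584089712863745290289956783912656146953457664) (nat_lit 4920731648))) (.nod (nat_lit 425873149666614585665155203609179033719570747392) .nil .nil (.dwn (nat_lit 3348876424328420422230981194070273748227113668608) (nat_lit 4920731648)))) .nil (.dwn (nat_lit 273488451579851020831898012180998432100394165269387333362995857488) (nat_lit 88893440))) .dup l253 = true := by decide +kernel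
theorem cw1126 : wchk (nat_lit 5) [] [l253] (nat_lit 273) (nat_lit 1) (nat_lit 1) (nat_lit 0) (nat_lit 22597888) (nat_lit 0) w1126 = true := by decide +kernel
theorem cl254 : lchk (nat_lit 5) [w1065, w366, w1063, w1, w795, w1108, w111, w1109, w214, w916, w1124, w1125, w1126, w1070, w1071, w1106, w519, w1107] (nat_lit 23282688) (.nod (nat_lit 14825817229839442186529979416795427440183169033) (.nod (nat_lit 292295709209262796749360080181431146615605269749730225043962939416) (.nod (nat_lit 291575895121960799906167770449518953210188898800334610736657106984) (.nod (nat_lit 3349895986522965744157788550767366896832299304960) .nil (.dwn (nat_lit 9097082317789573233773869786113688398809038798613300159040515895287908241230288778594304) (nat_lit 39281968128)) (.dwn (nat_lit 9097082317789573233773869786113688398809038798613300159040515895287908241230288778594304) (nat_lit 39281968128))) .nil (.dwn (nat_lit 61794673936935930330094004890534986331140902900445162754919889274880) (nat_lit 4922229760))) .nil (.dwn (nat_lit 291575895121960799906167770449518953210188898800334610736657106984) (nat_lit 627262464))) .nil (.nod (nat_lit 14786804196754323512634483321035327122236428336)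 .nil (.nod (nat_lit 5391908657518179160495005899595076182789577741745602311252409455986909281395364243520) (.dwn (nat_lit 145264070750444100071630171072826987168394960091304649894557194792057381924542185375832) (nat_lit 627262512)) .nil .nil) (.nod (nat_lit 5391908657518179160495005899595076182789577741745602311252409455986909281395364243520) (.dwn (nat_lit 145264070750444100071630171072826987168394960091304649894557194792057381924542185375832) (nat_lit 627262512)) .nil .nil))) .nil .nil (.nod (nat_lit 15845411751209621602476557545626689858365458536) (.dwn (nat_lit 20933266279681009018692439563257586957231279320223702616710654856752564188695798403200) (nat_lit 90391620)) .nil .nil) l254 = true := by decide +kernel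
theorem cw1127 : wchk (nat_lit 5) [] [l254] (nat_lit 4) (nat_lit 2) (nat_lit 1) (nat_lit 0) (nat_lit 5820672) (nat_lit 0) w1127 = true := by decide +kernel
theorem cw1128 : wchk (nat_lit 5) [] [l0] (nat_lit 0) (nat_lit 1) (nat_lit 4) (nat_lit 1) (nat_lit 4508928) (nat_lit 0) w1128 = true := by decide +kernel
theorem cw1129 : wchk (nat_lit 5) [] [l1] (nat_lit 1) (nat_lit 1) (nat_lit 1) (nat_lit 0) (nat_lit 5818880) (nat_lit 0) w1129 = true := by decide +kernel
theorem cl255 : lchk (nat_lit 5) [w581, w367, w1, w368, w140, w141, w1128, w370, w214, w12, w1129, w1070, w160, w255, w747, w871] (nat_lit 21777408) (.nod (nat_lit 801593542288921720574660617) (.nod (nat_lit 292205714401682557906883094867557225265443973797904671066487259546) (.nod (nat_lit 273398211965303101908217533066410399923722577523934573304250533936) (.nod (nat_lit 3348871546040408243657168718679378565697902254080) .nil (.dwn (nat_lit 9096733718757398939128575400249060643341171033687782610683540646031709389947585575819264) (nat_lit 39280462848)) .dup) .nil (.dwn (nat_lit 61775776345535444604452606975846496758434621961150288780042348042240) (nat_lit 4920724480))) .nil (.dwn (nat_lit 273398211965303101908217533066410399923722577523934573304250533936)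 (nat_lit 625757184))) .nil (.nod (nat_lit 279067640035890468865842079608543361833735168974347227028892156250) .nil (.dwn (nat_lit 5044970547071904579840950331425988008233809924819591663345997959241787159237935663184) (nat_lit 625757184)) (.dwn (nat_lit 5044970547071904579840950331425988008233809924819591663345997959241787159237935663184) (nat_lit 625757184)))) .nil .nil (.nod (nat_lit 5378632399734585434792520944737920061600884925227104736711118366899587001007235661850) (.dwn (nat_lit 20694225090659493464847781081226947404134539733081958836057757821919208538105929164920) (nat_lit 88886272)) .nil .nil) l255 = true := by decide +kernel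
theorem cw1130 : wchk (nat_lit 5) [] [l255] (nat_lit 3) (nat_lit 2) (nat_lit 2) (nat_lit 0) (nat_lit 5820672) (nat_lit 0) w1130 = true := by decide +kernel
theorem cl256 : lchk (nat_lit 5) [w802, w5, w278, w412, w235, w396] (nat_lit 56263680) (.nod (nat_lit 17127005660143476824668851044105469949928013906) (.nod (nat_lit 11418014889319637301054680192769463556486725714) (.nod (nat_lit 837823519498753564940455952) .nil .nil (.dwn (nat_lit 145131262782109181786649515899822883447311054537009573656644486628465510954295753703450) (nat_lit 626689024))) .nil .nil) .nil .nil) .nil (.nod (nat_lit 11417993111248154360374045510332613771214716946) .nil (.dwn (nat_lit 1139535379053561907698406643047373489118097760151599272078423477610302026668913199153554) (nat_lit 625642516)) .dup) .nil l256 = true := by decide +kernel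
theorem cw1131 : wchk (nat_lit 5) [] [l256] (nat_lit 19) (nat_lit 3) (nat_lit 3) (nat_lit 0) (nat_lit 5820672) (nat_lit 0) w1131 = true := by decide +kernel
theorem cw1132 : wchk (nat_lit 5) [] [l14] (nat_lit 19) (nat_lit 3) (nat_lit 3) (nat_lit 0) (nat_lit 156672256) (nat_lit 0) w1132 = true := by decide +kernel
theorem cw1133 : wchk (nat_lit 5) [w616, w16] [] (nat_lit 0) (nat_lit 0) (nat_lit 3) (nat_lit 2) (nat_lit 21784576) (nat_lit 22709252) w1133 = true := by decide +kernel
theorem cw1134 : wchk (nat_lit 5) [] [l231] (nat_lit 4) (nat_lit 1) (nat_lit 1) (nat_lit 0) (nat_lit 22597888) (nat_lit 0) w1134 = true := by decide +kernel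
theorem cw1135 : wchk (nat_lit 5) [w284, w366] [] (nat_lit 4) (nat_lit 0) (nat_lit 2) (nat_lit 2) (nat_lit 23160832) (nat_lit 21784580) w1135 = true := by decide +kernel
theorem cw1136 : wchk (nat_lit 5) [w16, w366] [] (nat_lit 4) (nat_lit 0) (nat_lit 2) (nat_lit 2) (nat_lit 23225344) (nat_lit 21784580) w1136 = true := by decide +kernel
theorem cw1137 : wchk (nat_lit 5) [w16, w366] [] (nat_lit 4) (nat_lit 0) (nat_lit 3) (nat_lit 2) (nat_lit 21662720) (nat_lit 21727236) w1137 = true := by decide +kernel
theorem cl257 : lchk (nat_lit 5) [w159, w1120, w158, w432] (nat_lit 21727232) .nil .nil (.nod (nat_lit 1237940666474678781090988058) .nil (.dwn (nat_lit 20827014532260133778107412749746535828336873444804252373304817208000254497503511052698) (nat_lit 88836096)) .dup) (.nod (nat_lit 1237941847066299498502291546) (.nod (nat_lit 5244164436008360984841473042699150898480563524582430919420045726576672615072857588058) .nil (.opn (nat_lit 143413170331117442722562579926807644103637710456912037469179352030948794151528276598808)) .dup) .dup .nil) l257 = true := by decide +kernel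
theorem cw1138 : wchk (nat_lit 5) [] [l257] (nat_lit 1) (nat_lit 1) (nat_lit 2) (nat_lit 0) (nat_lit 5820672) (nat_lit 0) w1138 = true := by decide +kernel
theorem cw1139 : wchk (nat_lit 5) [] [l7] (nat_lit 0) (nat_lit 3) (nat_lit 3) (nat_lit 0) (nat_lit 5415680) (nat_lit 0) w1139 = true := by decide +kernel
theorem cw1140 : wchk (nat_lit 5) [w1139, w366] [] (nat_lit 4) (nat_lit 0) (nat_lit 2) (nat_lit 2) (nat_lit 23282688) (nat_lit 21784580) w1140 = true := by decide +kernel
theorem cl258 : lchk (nat_lit 5) [w261, w15, w170, w219] (nat_lit 23160832) .nil (.nod (nat_lit 5375303145584834119541702431776950266874287706627998239214036125248494305405897627656) .nil (.dwn (nat_lit 5028365035138559537754472269358159418373322822060879991618812160091136051171722430480) (nat_lit 90269696)) .dup) .dup .dup l258 = true := by decide +kernel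
theorem cw1141 : wchk (nat_lit 5) [] [l258] (nat_lit 4) (nat_lit 0) (nat_lit 2) (nat_lit 0) (nat_lit 5820672) (nat_lit 0) w1141 = true := by decide +kernel
theorem cw1142 : wchk (nat_lit 5) [w128, w366] [] (nat_lit 4) (nat_lit 0) (nat_lit 2) (nat_lit 2) (nat_lit 22816768) (nat_lit 21784580) w1142 = true := by decide +kernel
theorem cw1143 : wchk (nat_lit 5) [] [l44] (nat_lit 20) (nat_lit 0) (nat_lit 3) (nat_lit 1) (nat_lit 22481408) (nat_lit 0) w1143 = true := by decide +kernel
theorem cl259 : lchk (nat_lit 5) [w170, w499, w15, w158, w11, w1143, w500, w746] (nat_lit 21712896) .nil .nil (.nod (nat_lit 14738007705337860937408066186908024145501487130) .nil (.opn (nat_lit 20569714320270964308051040746810550532550972543804179921110966314753986572568577351680)) .dup) (.nod (nat_lit 799213617155508009063241745) (.nod (nat_lit 20785516500150907450726731685855182221108294269851705832517257377537427336910212170074) .nil (.dwn (nat_lit 20931597020922563867284418674838502677573083929498700577165341181013616905459237972016) (nat_lit 627255324)) .dup) .dup .nil) l259 = true := by decide +kernel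
theorem cw1144 : wchk (nat_lit 5) [] [l259] (nat_lit 4) (nat_lit 3) (nat_lit 2) (nat_lit 0) (nat_lit 22597888) (nat_lit 0) w1144 = true := by decide +kernel
theorem cw1145 : wchk (nat_lit 5) [] [l257] (nat_lit 4) (nat_lit 3) (nat_lit 1) (nat_lit 0) (nat_lit 22597888) (nat_lit 0) w1145 = true := by decide +kernel
theorem cw1146 : wchk (nat_lit 5) [w179, w284] [] (nat_lit 0) (nat_lit 3) (nat_lit 3) (nat_lit 2) (nat_lit 21727232) (nat_lit 22644740) w1146 = true := by decide +kernel
theorem cw1147 : wchk (nat_lit 5) [w69, w42] [] (nat_lit 2) (nat_lit 3) (nat_lit 3) (nat_lit 2) (nat_lit 21727232) (nat_lit 89337860) w1147 = true := by decide +kernel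
theorem cw1148 : wchk (nat_lit 5) [w1147, w16] [] (nat_lit 145) (nat_lit 1) (nat_lit 2) (nat_lit 2) (nat_lit 23282688) (nat_lit 23225348) w1148 = true := by decide +kernel
theorem cw1149 : wchk (nat_lit 5) [w69, w42] [] (nat_lit 2) (nat_lit 3) (nat_lit 3) (nat_lit 2) (nat_lit 21727232) (nat_lit 89223172) w1149 = true := by decide +kernel
theorem cw1150 : wchk (nat_lit 5) [w1149, w16] [] (nat_lit 145) (nat_lit 1) (nat_lit 2) (nat_lit 2) (nat_lit 23282688) (nat_lit 23225348) w1150 = true := by decide +kernel
theorem cw1151 : wchk (nat_lit 5) [w337, w366] [] (nat_lit 4) (nat_lit 0) (nat_lit 2) (nat_lit 2) (nat_lit 21655552) (nat_lit 21784580) w1151 = true := by decide +kernel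
theorem cw1152 : wchk (nat_lit 5) [w167, w366] [] (nat_lit 4) (nat_lit 0) (nat_lit 2) (nat_lit 2) (nat_lit 22293504) (nat_lit 21784580) w1152 = true := by decide +kernel
theorem cw1153 : wchk (nat_lit 5) [] [l171] (nat_lit 4) (nat_lit 0) (nat_lit 2) (nat_lit 0) (nat_lit 5818880) (nat_lit 0) w1153 = true := by decide +kernel
theorem cw1154 : wchk (nat_lit 5) [w80, w284] [] (nat_lit 2) (nat_lit 3) (nat_lit 3) (nat_lit 2) (nat_lit 80578560) (nat_lit 22644740) w1154 = true := by decide +kernel
theorem cw1155 : wchk (nat_lit 5) [w1154, w16] [] (nat_lit 0) (nat_lit 0) (nat_lit 2) (nat_lit 2) (nat_lit 23282688) (nat_lit 23225348) w1155 = true := by decide +kernel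
theorem cw1156 : wchk (nat_lit 5) [w75, w284] [] (nat_lit 2) (nat_lit 3) (nat_lit 2) (nat_lit 2) (nat_lit 21784576) (nat_lit 23160836) w1156 = true := by decide +kernel
theorem cw1157 : wchk (nat_lit 5) [w1156, w16] [] (nat_lit 0) (nat_lit 0) (nat_lit 2) (nat_lit 2) (nat_lit 23282688) (nat_lit 23225348) w1157 = true := by decide +kernel
theorem cw1158 : wchk (nat_lit 5) [w111, w284] [] (nat_lit 1) (nat_lit 3) (nat_lit 2) (nat_lit 2) (nat_lit 21727232) (nat_lit 23160836) w1158 = true := by decide +kernel
theorem cw1159 : wchk (nat_lit 5) [w284] [] (nat_lit 0) (nat_lit 3) (nat_lit 3) (nat_lit 2) (nat_lit 433) (nat_lit 22644736) w1159 = true := by decide +kernel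
theorem cw1160 : wchk (nat_lit 5) [w721, w284] [] (nat_lit 0) (nat_lit 3) (nat_lit 2) (nat_lit 2) (nat_lit 23225344) (nat_lit 23160836) w1160 = true := by decide +kernel
theorem cw1161 : wchk (nat_lit 5) [w112, w16] [] (nat_lit 1) (nat_lit 1) (nat_lit 3) (nat_lit 2) (nat_lit 88836096) (nat_lit 22709252) w1161 = true := by decide +kernel
theorem cw1162 : wchk (nat_lit 5) [w1161, w284] [] (nat_lit 0) (nat_lit 3) (nat_lit 2) (nat_lit 2) (nat_lit 23282688) (nat_lit 23160836) w1162 = true := by decide +kernel
theorem cw1163 : wchk (nat_lit 5) [w267, w284] [] (nat_lit 0) (nat_lit 3) (nat_lit 2) (nat_lit 2) (nat_lit 21784576) (nat_lit 23160836) w1163 = true := by decide +kernel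
theorem cw1164 : wchk (nat_lit 5) [w83, w284] [] (nat_lit 19) (nat_lit 3) (nat_lit 2) (nat_lit 2) (nat_lit 21784576) (nat_lit 23160836) w1164 = true := by decide +kernel
theorem cw1165 : wchk (nat_lit 5) [w126, w1145] [] (nat_lit 3) (nat_lit 1) (nat_lit 2) (nat_lit 2) (nat_lit 88893440) (nat_lit 23282692) w1165 = true := by decide +kernel
theorem cw1166 : wchk (nat_lit 5) [] [l143] (nat_lit 3) (nat_lit 1) (nat_lit 1) (nat_lit 0) (nat_lit 22307584) (nat_lit 0) w1166 = true := by decide +kernel
theorem cw1167 : wchk (nat_lit 5) [w1166, w284] [] (nat_lit 19) (nat_lit 3) (nat_lit 2) (nat_lit 2) (nat_lit 23282688) (nat_lit 23160836) w1167 = true := by decide +kernel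
theorem cl260 : lchk (nat_lit 5) [w1135, w1144, w1145, w1063, w16, w1164, w1167, w1165, w1166, w799, w1154, w1155, w1157, w1133, w1146, w1158, w1159, w1160, w1162, w1163, w1069, w1136, w1137, w1148, w1150, w1151, w1152, w1153, w128, w1138, w1015, w1140, w1141, w1142] (nat_lit 23282688) (.nod (nat_lit 292295652715347178269272229241164830969601735721306198658577500176) (.nod (nat_lit 292295753148974944456125430094498411357716353802610499841504397345) (.nod (nat_lit 15845389973138138662414894709060193507788621864) .nil (.dwn (nat_lit 20933258868987297829321137765615347366061218653708155056337274965881388733766501304368) (nat_lit 90391576)) (.dwn (nat_lit 20933258868987297829321137765615347366061218653708155056337274965881388733766501304368) (nat_lit 90391576))) .nil (.dwn (nat_lit 292295954016230476829948909692610757142635955761792405195166746688) (nat_lit 23282712))) .nil (.nod (nat_lit 291576146206030215373398337492390558354384082167406449517148145744) (.dwn (nat_lit 20933263500670867323103749246903505099442211090016990428767888918992900573941766719592) (nat_lit 627262464)) .nil .nil)) .nil (.nod (nat_lit 15845414473468556969984265400197501902187563120) .nil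 (.nod (nat_lit 5391916068211890348731513008138116738451329403952524166118446682500436537499933378688) (.dwn (nat_lit 145264078161137811259866678583104538789168631607852263063784005610730073373031267993752) (nat_lit 627262464)) .nil .nil) (.nod (nat_lit 5391916068211890348731513008138116738451329403952524166118446682500436537499933378688) (.dwn (nat_lit 145264078161137811259866678583104538789168631607852263063784005610730073373031267993752) (nat_lit 627262464)) .nil .nil)) (.nod (nat_lit 292296606834810957044748348614710770739943230406758629454756087872) (.nod (nat_lit 20933272764038006307264588594133548408610161089662457899085066101503128071234756708528) .nil (.nod (nat_lit 5391923478905601536968020116681157294431760108843023533858265839521424935376626813120) (.dwn (nat_lit 1139910558391404806812787575721325050203111638167796378297778885051263998523301865097432) (nat_lit 4922229760)) .nil .nil) .dup) .dup (.nod (nat_lit 5044989073806182549591340567320022628798153265196566799509486879003860187850793505008) (.dwn (nat_lit 145264091129851805839280566726090254125522556761810586109930924543407283407887162575112) (nat_lit 627262464)) .nil .nil)) l260 = true := by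 decide +kernel
theorem cw1168 : wchk (nat_lit 5) [] [l260] (nat_lit 28) (nat_lit 1) (nat_lit 1) (nat_lit 0) (nat_lit 156815616) (nat_lit 0) w1168 = true := by decide +kernel
theorem cw1169 : wchk (nat_lit 5) [] [l135] (nat_lit 0) (nat_lit 2) (nat_lit 2) (nat_lit 0) (nat_lit 5446144) (nat_lit 0) w1169 = true := by decide +kernel
theorem cw1170 : wchk (nat_lit 5) [] [l15] (nat_lit 2) (nat_lit 2) (nat_lit 3) (nat_lit 0) (nat_lit 22339840) (nat_lit 0) w1170 = true := by decide +kernel
theorem cl261 : lchk (nat_lit 5) [w181, w16] (nat_lit 49) (.nod (nat_lit 50331658) .nil .nil .nil) .nil (.nod (nat_lit 273488005905627808361718376255516568856125188020236522689646297348) (.nod (nat_lit 210626403696617635533257567746273594861669835853375588591887271945) .nil (.nod (nat_lit 102761932556715518513921729705339797645457096994) .nil (.dwn (nat_lit 283629691844662323175938111231819412890118188701130090116183561491900001411040379142434) (nat_lit 1224736913)) (.dwn (nat_lit 283629691844662323175938111231819412890118188701130090116183561491900001411040379142434) (nat_lit 1224736913))) (.dwn (nat_lit 1895623070393532622802707943241716030477294116598302694793063432482) (nat_lit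 150995089))) .nil .nil) .nil l261 = true := by decide +kernel
theorem cw1171 : wchk (nat_lit 5) [] [l261] (nat_lit 1) (nat_lit 3) (nat_lit 3) (nat_lit 0) (nat_lit 5820672) (nat_lit 0) w1171 = true := by decide +kernel
theorem cw1172 : wchk (nat_lit 5) [] [l120] (nat_lit 2) (nat_lit 3) (nat_lit 3) (nat_lit 0) (nat_lit 4413952) (nat_lit 0) w1172 = true := by decide +kernel
theorem cl262 : lchk (nat_lit 5) [w32] (nat_lit 273) (.nod (nat_lit 290675815227021968348915202795197644052702671241737274856029815300) (.nod (nat_lit 210628010634661894523533109708365936024272362778735854254364295323) (.nod (nat_lit 5570740248706475482763231778) .nil .nil (.dwn (nat_lit 283629721487437167928884139665991575113389086387023997542513196336367725949172832010266) (nat_lit 1224737041))) .nil .nil) .nil .nil) .nil (.nod (nat_lit 33554442) .nil .nil .nil) .nil l262 = true := by decide +kernel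
theorem cw1173 : wchk (nat_lit 5) [] [l262] (nat_lit 2) (nat_lit 3) (nat_lit 3) (nat_lit 0) (nat_lit 5820672) (nat_lit 0) w1173 = true := by decide +kernel
theorem cl263 : lchk (nat_lit 5) [w802, w32, w5, w315, w217, w922, w174, w815, w819] (nat_lit 56708096) (.nod (nat_lit 1237941847066299498502291546) (.nod (nat_lit 290675865443835851442361313481513029714652973068596060646736396442) (.nod (nat_lit 290675909383547999149126660332038992168317885803530915968687538331) (.nod (nat_lit 23137140135490169332853544960) .nil .nil (.dwn (nat_lit 1139880655315943448318157154119015435277760743058916268340139233542908922438228409057306) (nat_lit 4922100736))) .nil .nil) .nil .nil) .nil .nil) .nil .nil (.nod (nat_lit 618970646831988643607871514) .nil (.nod (nat_lit 61788914821635747758226488630911238073921908424545451698970182025626) (.dwn (nat_lit 1139897259901540079522367379480228950935033745231195955345328916877435671902637722851392) (nat_lit 4922100736)) .nil .nil) .dup) l263 = true := by decide +kernel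
theorem cw1174 : wchk (nat_lit 5) [] [l263] (nat_lit 35) (nat_lit 1) (nat_lit 0) (nat_lit 0) (nat_lit 22597888) (nat_lit 0) w1174 = true := by decide +kernel
theorem cw1175 : wchk (nat_lit 5) [] [l232] (nat_lit 0) (nat_lit 0) (nat_lit 1) (nat_lit 0) (nat_lit 5820672) (nat_lit 0) w1175 = true := by decide +kernel
theorem cw1176 : wchk (nat_lit 5) [] [l262] (nat_lit 2) (nat_lit 3) (nat_lit 4) (nat_lit 0) (nat_lit 4903168) (nat_lit 0) w1176 = true := by decide +kernel
theorem cw1177 : wchk (nat_lit 5) [] [l4] (nat_lit 19) (nat_lit 3) (nat_lit 3) (nat_lit 0) (nat_lit 156557568) (nat_lit 0) w1177 = true := by decide +kernel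
theorem cl264 : lchk (nat_lit 5) [w1172, w67, w1177, w32, w78, w1173, w315, w1174, w1175, w140, w141, w1176] (nat_lit 23282688) (.nod (nat_lit 116368075629872922887092837565293016686198153843080255825600577691) (.nod (nat_lit 858979868915962165182498832) .nil .nil (.dwn (nat_lit 145264062413413674976989319470913276974094162077223832675480533707228002380438984196122) (nat_lit 627262464))) .nil .nil) (.nod (nat_lit 290675959600361882242572771018354377829030254047464747282770952859) .nil (.nod (nat_lit 3317670828636982385888088096) .nil .nil (.dwn (nat_lit 145264067045097244469637136413752677321610476208023219301103095285531362696964169793562) (nat_lit 627262484))) (.nod (nat_lit 7855883312535048310346227315302375490867740641050597651533669598042) (.dwn (nat_lit 145264069824107386173081800031172285993612288465212891959377188414873332601257205336152) (nat_lit 627262464)) .nil .nil)) .nil .nil l264 = true := by decide +kernel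
theorem cw1178 : wchk (nat_lit 5) [] [l264] (nat_lit 211) (nat_lit 2) (nat_lit 2) (nat_lit 0) (nat_lit 156815616) (nat_lit 0) w1178 = true := by decide +kernel
theorem cw1179 : wchk (nat_lit 5) [] [l232] (nat_lit 0) (nat_lit 1) (nat_lit 1) (nat_lit 0) (nat_lit 5820672) (nat_lit 0) w1179 = true := by decide +kernel
theorem cw1180 : wchk (nat_lit 5) [] [l261] (nat_lit 1) (nat_lit 3) (nat_lit 4) (nat_lit 0) (nat_lit 4903168) (nat_lit 0) w1180 = true := by decide +kernel
theorem cw1181 : wchk (nat_lit 5) [] [] (nat_lit 0) (nat_lit 0) (nat_lit 3) (nat_lit 2) (nat_lit 16777265) (nat_lit 209) w1181 = true := by decide +kernel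
theorem cl265 : lchk (nat_lit 5) [w642, w181, w1170, w1171, w675, w1178, w1179, w140, w141, w1180, w67, w143, w1172, w86, w1181, w80] (nat_lit 21784576) (.nod (nat_lit 273488049845339956068483723106042531309790108465910400822190014875) (.nod (nat_lit 3334859947486722715114965008) .nil .nil (.dwn (nat_lit 145264065192423816672578009636616917182603950555703464650854070654210018570354095554586) (nat_lit 627262476))) .nil (.nod (nat_lit 1121565822733906313184693358992098802062474789803472911178221486682) (.dwn (nat_lit 145264067971433958376022673153602898088418870586075988667070485710205159739134934681672) (nat_lit 625764352)) .nil .nil)) (.nod (nat_lit 116368527581197870728107833742131487638212526152704868952625959000) .nil (.nod (nat_lit 61517335195541402430809801218514471368831592552) .nil (.dwn (nat_lit 144917123376630686496672525919926606056500279220355623027796510180003823916572659470336) (nat_lit 625764352)) (.dwn (nat_lit 144917123376630686496672525919926606056500279220355623027796510180003823916572659470336) (nat_lit 625764352))) (.dwn (nat_lit 1134794638882385152113087843021808372989142773117481782401857835128) (nat_lit 88893440))) .nil .nil l265 = true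 := by decide +kernel
theorem cw1182 : wchk (nat_lit 5) [] [l265] (nat_lit 17) (nat_lit 2) (nat_lit 2) (nat_lit 0) (nat_lit 156815616) (nat_lit 0) w1182 = true := by decide +kernel
theorem cl266 : lchk (nat_lit 5) [w799, w16, w241, w912, w1051] (nat_lit 23225344) (.nod (nat_lit 15806353120287335522820608025252511003230685193) (.nod (nat_lit 60497745778406726829440254890499492892707868688) .nil (.dwn (nat_lit 145250782450283225657168580961784600575745139934779562169472820182365581572874296412160) (nat_lit 627205120)) (.dwn (nat_lit 145250782450283225657168580961784600575745139934779562169472820182365581572874296412160) (nat_lit 627205120))) .nil (.dwn (nat_lit 1134704097966953934621593756260733967254596315770375683086578305056) (nat_lit 90334208))) (.nod (nat_lit 15806353120287335522820608025252511003230685193) .nil (.nod (nat_lit 60497745778406726829440254890499492892707868688) .nil (.dwn (nat_lit 145250782450283225657168580961784600575745139934779562169472820182365581572874296412160) (nat_lit 627205120)) (.dwn (nat_lit 145250782450283225657168580961784600575745139934779562169472820182365581572874296412160) (nat_lit 627205120))) (.dwn (nat_lit 1134704097966953934621593756260733967254596315770375683086578305056)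 (nat_lit 90334208))) .nil .nil l266 = true := by decide +kernel
theorem cw1183 : wchk (nat_lit 5) [] [l266] (nat_lit 0) (nat_lit 3) (nat_lit 1) (nat_lit 0) (nat_lit 5820672) (nat_lit 0) w1183 = true := by decide +kernel
theorem cw1184 : wchk (nat_lit 5) [w16] [] (nat_lit 0) (nat_lit 1) (nat_lit 3) (nat_lit 2) (nat_lit 33554481) (nat_lit 22709248) w1184 = true := by decide +kernel
theorem cw1185 : wchk (nat_lit 5) [w1184, w16] [] (nat_lit 0) (nat_lit 0) (nat_lit 2) (nat_lit 2) (nat_lit 23282688) (nat_lit 23225348) w1185 = true := by decide +kernel
theorem cw1186 : wchk (nat_lit 5) [] [l266] (nat_lit 0) (nat_lit 3) (nat_lit 1) (nat_lit 0) (nat_lit 5820672) (nat_lit 0) w1186 = true := by decide +kernel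
theorem cw1187 : wchk (nat_lit 5) [] [l266] (nat_lit 0) (nat_lit 3) (nat_lit 1) (nat_lit 0) (nat_lit 5820672) (nat_lit 0) w1187 = true := by decide +kernel
theorem cw1188 : wchk (nat_lit 5) [] [l254] (nat_lit 33) (nat_lit 1) (nat_lit 1) (nat_lit 0) (nat_lit 156815616) (nat_lit 0) w1188 = true := by decide +kernel
theorem cw1189 : wchk (nat_lit 5) [] [l45] (nat_lit 0) (nat_lit 1) (nat_lit 3) (nat_lit 1) (nat_lit 5446144) (nat_lit 0) w1189 = true := by decide +kernel
theorem cl267 : lchk (nat_lit 5) [w160, w91, w4, w638, w158, w432, w1120] (nat_lit 22644736) .nil .nil (.nod (nat_lit 1237941847066299498502291546) .nil (.nod (nat_lit 3076209528625795625576348038874848728816542556519367327837182303647948326239371002266) .nil (.opn (nat_lit 145116325602597567989572293722560392246648790521583488013258426968377467561306781585432)) .dup) (.nod (nat_lit 14786798752236452776815365735884364828234482074) .nil (.dwn (nat_lit 7774443642235188800493922604697429449742586832490068812278671777832) (nat_lit 626624524)) (.opn (nat_lit 7774443642235188800493922604697429449742586832490068812278671777832)))) (.nod (nat_lit 1237941847066299498502291546) .nil (.dwn (nat_lit 20827019163943703270755229692585936175853187589214933675764917324838599111299425108378)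 (nat_lit 89753600)) .dup) l267 = true := by decide +kernel
theorem cw1190 : wchk (nat_lit 5) [] [l267] (nat_lit 1) (nat_lit 1) (nat_lit 2) (nat_lit 0) (nat_lit 5820672) (nat_lit 0) w1190 = true := by decide +kernel
theorem cw1191 : wchk (nat_lit 5) [] [l267] (nat_lit 1) (nat_lit 1) (nat_lit 2) (nat_lit 0) (nat_lit 5788416) (nat_lit 0) w1191 = true := by decide +kernel
theorem cl268 : lchk (nat_lit 5) [w154, w1, w15, w158, w160, w159, w149, w638, w161] (nat_lit 22121472) .nil .nil (.nod (nat_lit 1237941847066299498502291546) .nil (.nod (nat_lit 20919974274173279016852582313647270619768979898416018983127160575437579650404412555674) .nil (.opn (nat_lit 145250784302956653454227707738920360714751665592543834690456860229396067323572014860304)) .dup) (.nod (nat_lit 5244165362345074883371036431267030967983826353464567179912065751124933158549451702682) (.opn (nat_lit 145116326528934281895957110453733157219200352289658271776372097024952462392510350841904)) (.dwn (nat_lit 145116329307944423591545800619436797427710140776304680557848157095055469160787899275312) (nat_lit 626101248)) .dup)) (.nod (nat_lit 1237941847066299498502291546) .nil (.dwn (nat_lit 20785521131834476943374548628694582568685067136458955368580530296896895898351281635738)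 (nat_lit 89230336)) .dup) l268 = true := by decide +kernel
theorem cw1192 : wchk (nat_lit 5) [] [l268] (nat_lit 1) (nat_lit 1) (nat_lit 2) (nat_lit 0) (nat_lit 5820672) (nat_lit 0) w1192 = true := by decide +kernel
theorem cw1193 : wchk (nat_lit 5) [] [l267] (nat_lit 4) (nat_lit 3) (nat_lit 2) (nat_lit 0) (nat_lit 5818880) (nat_lit 0) w1193 = true := by decide +kernel
theorem cl269 : lchk (nat_lit 5) [w154, w161, w1075, w160, w159, w430] (nat_lit 22121472) .nil .nil (.nod (nat_lit 1237941847066299498502291546) .nil (.nod (nat_lit 20785514647477479653667604908719422082162227334284001545136390133323213439037001957786) .nil (.opn (nat_lit 144995143160022076250619364661057579899308778989400026707690970727819757298891947710464)) .dup) (.nod (nat_lit 20827015458596847676636976138314415897840136273686388633796837231367923420262693863834) (.dwn (nat_lit 145116325602597567997427547014948463266603643350089820130218493649363918174223444650024) (nat_lit 626101248)) .nil .nil)) .dup l269 = true := by decide +kernel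
theorem cw1194 : wchk (nat_lit 5) [] [l269] (nat_lit 0) (nat_lit 0) (nat_lit 2) (nat_lit 0) (nat_lit 5820672) (nat_lit 0) w1194 = true := by decide +kernel
theorem cl270 : lchk (nat_lit 5) [w154, w168, w281, w431, w174, w815, w4, w817, w926, w160, w170, w927] (nat_lit 22121472) .nil .nil (.nod (nat_lit 1237941847066299498502291546) .nil (.nod (nat_lit 20556435283477228886759865626249754203279344961585702203868726407146071581847533388186) .nil (.opn (nat_lit 141500855640332740668376234612278242679905971436930057910915127539800809972127849947160)) .dup) (.dwn (nat_lit 5015086924681538014992860537365243158648937226228644350584530488232020695471083225498) (nat_lit 74141708))) (.nod (nat_lit 1237941847066299498502291546) .nil (.nod (nat_lit 20931595168249136070225291897702742538139665551706491342486875488399041845456181133722) .nil (.dwn (nat_lit 144995143160022076258479567121754713076513038610067879941658472318847730394091804104704) (nat_lit 626101248)) .dup) (.nod (nat_lit 5391907731181465261965442511027196112920939503530740321186384245791958017209062654362) (.dwn (nat_lit 145235849902455181368462010791030020618570021722508471311059454119875159791792620458072)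 (nat_lit 626101248)) .nil .nil)) l270 = true := by decide +kernel
theorem cw1195 : wchk (nat_lit 5) [] [l270] (nat_lit 0) (nat_lit 0) (nat_lit 2) (nat_lit 0) (nat_lit 5820672) (nat_lit 0) w1195 = true := by decide +kernel
theorem cw1196 : wchk (nat_lit 5) [] [l43] (nat_lit 17) (nat_lit 1) (nat_lit 3) (nat_lit 0) (nat_lit 5528576) (nat_lit 0) w1196 = true := by decide +kernel
theorem cl271 : lchk (nat_lit 5) [w1066, w1063, w154, w798, w1189, w366, w1065, w581, w910, w1196, w1106, w747, w1190, w1138, w1191, w1192, w1161, w1124, w1193, w1194, w1195] (nat_lit 23282688) (.nod (nat_lit 292295658992448913655162710418981325219663799007593637498677553168) (.nod (nat_lit 291575844905146916812721657040944632181349862126920242980558899232) (.nod (nat_lit 426892711861159907591962560306272182324756383744) .nil (.dwn (nat_lit 1139910535232986959287753815764554957178356359658442233300565657073667531313694426695680) (nat_lit 4922229760)) (.dwn (nat_lit 1139910535232986959287753815764554957178356359658442233300565657073667531313694426695680) (nat_lit 4922229760))) .nil (.dwn (nat_lit 7874780602634650737836971441833919147300788064902923078205125855232) (nat_lit 627262464))) .nil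 (.dwn (nat_lit 291575844905146916812721657040944632181349862126920242980558899232) (nat_lit 90391552))) .nil (.nod (nat_lit 14825827778592816735622347353257324109993824296) .nil (.nod (nat_lit 5391907731181465261965442511027196112875272455652161783567132892406493185048225206328) .nil (.dwn (nat_lit 145262409828716080000248234265815232980289125608864858533482389324069552897292232198216) (nat_lit 627262464)) (.dwn (nat_lit 145262409828716080000248234265815232980289125608864858533482389324069552897292232198216) (nat_lit 627262464))) (.nod (nat_lit 5391911436528320856083696065298716390889260402479045111707191336557865127243806888024) (.dwn (nat_lit 20933264427007581221633312685688199052038920029585442074921240271326987005002902046832) (nat_lit 90391612)) .nil .nil)) (.nod (nat_lit 15845419917986427704999681109339125989831772288) .nil (.nod (nat_lit 20933269058691150713146335039862028130550418255827928529951267642585120163045301506104) (.dwn (nat_lit 145264079087474525158396242021889232741765340547420714709937356963064159804092403320992) (nat_lit 627262464)) .nil .nil) (.nod (nat_lit 20933269058691150713146335039862028130550418255827928529951267642585120163045301506104)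 (.dwn (nat_lit 145264079087474525158396242021889232741765340547420714709937356963064159804092403320992) (nat_lit 627262464)) .nil .nil)) l271 = true := by decide +kernel
theorem cw1197 : wchk (nat_lit 5) [] [l271] (nat_lit 33) (nat_lit 1) (nat_lit 1) (nat_lit 0) (nat_lit 22597888) (nat_lit 0) w1197 = true := by decide +kernel
theorem cw1198 : wchk (nat_lit 5) [] [l143] (nat_lit 2) (nat_lit 2) (nat_lit 4) (nat_lit 0) (nat_lit 20599808) (nat_lit 0) w1198 = true := by decide +kernel
theorem cw1199 : wchk (nat_lit 5) [] [l119] (nat_lit 26) (nat_lit 2) (nat_lit 3) (nat_lit 0) (nat_lit 154362368) (nat_lit 0) w1199 = true := by decide +kernel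
theorem cw1200 : wchk (nat_lit 5) [w56] [] (nat_lit 2) (nat_lit 0) (nat_lit 2) (nat_lit 2) (nat_lit 22816768) (nat_lit 33554469) w1200 = true := by decide +kernel
theorem cw1201 : wchk (nat_lit 5) [] [l57] (nat_lit 2) (nat_lit 2) (nat_lit 4) (nat_lit 0) (nat_lit 3353088) (nat_lit 0) w1201 = true := by decide +kernel
theorem cw1202 : wchk (nat_lit 5) [w220] [] (nat_lit 2) (nat_lit 0) (nat_lit 2) (nat_lit 2) (nat_lit 17519616) (nat_lit 33554469) w1202 = true := by decide +kernel
theorem cw1203 : wchk (nat_lit 5) [] [l125] (nat_lit 26) (nat_lit 2) (nat_lit 3) (nat_lit 0) (nat_lit 154348032) (nat_lit 0) w1203 = true := by decide +kernel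
theorem cw1204 : wchk (nat_lit 5) [] [l37] (nat_lit 2) (nat_lit 2) (nat_lit 4) (nat_lit 0) (nat_lit 20098048) (nat_lit 0) w1204 = true := by decide +kernel
theorem cw1205 : wchk (nat_lit 5) [w42] [] (nat_lit 0) (nat_lit 1) (nat_lit 2) (nat_lit 2) (nat_lit 33554501) (nat_lit 22816768) w1205 = true := by decide +kernel
theorem cw1206 : wchk (nat_lit 5) [] [l143] (nat_lit 0) (nat_lit 0) (nat_lit 4) (nat_lit 1) (nat_lit 20599808) (nat_lit 0) w1206 = true := by decide +kernel
theorem cl272 : lchk (nat_lit 5) [w1198, w164, w69, w16, w93, w86, w85, w84, w1206, w105, w391, w78, w33, w1199, w573, w1200, w1201, w1202, w1203, w937, w970, w1170, w1204, w1205] (nat_lit 23282688) .nil (.nod (nat_lit 421249681396571048522330733533604942550605373796255763201080872969) .nil (.nod (nat_lit 51897324012935901196036490627863384339120607257) .nil (.nod (nat_lit 141990555207104773235295530524966064953853821779534761171391207141073760189745131366448) .nil (.dwn (nat_lit 1139910535232986959349548489701490887501750572575931288143572581097887393852080624404480) (nat_lit 4922229760)) (.dwn (nat_lit 1139910535232986959349548489701490887501750572575931288143572581097887393852080624404480)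 (nat_lit 4922229760))) (.dwn (nat_lit 2118397745862421824682963399376343884126124218096165132807848861827578266997057071152) (nat_lit 627262464))) (.nod (nat_lit 168111882389523474567610669985679747544158996038576852495806056544) (.dwn (nat_lit 145264074455790955665624510621496863720654204068713844748564925009246197485069098453128) (nat_lit 627262536)) .nil .nil)) .nil (.nod (nat_lit 291576648374169046924430474827108437259111930139959522024566554624) .nil (.dwn (nat_lit 19127197778296898811644153876028455800475198315121641878149873533101721667583113953280) (nat_lit 90391644)) (.dwn (nat_lit 19127197778296898811644153876028455800475198315121641878149873533101721667583113953280) (nat_lit 90391644))) l272 = true := by decide +kernel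
theorem cw1207 : wchk (nat_lit 5) [] [l272] (nat_lit 4) (nat_lit 1) (nat_lit 4) (nat_lit 0) (nat_lit 22597888) (nat_lit 0) w1207 = true := by decide +kernel
theorem cw1208 : wchk (nat_lit 5) [w1207, w16] [] (nat_lit 17) (nat_lit 1) (nat_lit 3) (nat_lit 2) (nat_lit 23282688) (nat_lit 22709252) w1208 = true := by decide +kernel
theorem cw1209 : wchk (nat_lit 5) [] [l222] (nat_lit 0) (nat_lit 0) (nat_lit 2) (nat_lit 0) (nat_lit 5818880) (nat_lit 0) w1209 = true := by decide +kernel
theorem cl273 : lchk (nat_lit 5) [w128, w1063, w15, w219, w1064, w366, w1065, w581, w801, w1192, w1067, w1107, w1126, w1193, w1209] (nat_lit 21784576) (.nod (nat_lit 292295658992448913655913966772856825586766233076315857287864731664) (.nod (nat_lit 273488150278967722271221331729552505927359945228901126826406610976) (.nod (nat_lit 425873149666614585665155203609179033719570747392) .nil (.dwn (nat_lit 1139563596196203970807437022213568286260335584089712863745290289956783912656146953457664) (nat_lit 4920731648)) (.dwn (nat_lit 1139563596196203970807437022213568286260335584089712863745290289956783912656146953457664) (nat_lit 4920731648))) .nil (.dwn (nat_lit 7855972999764643515651008755310612858274060844366596122255572914176)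 (nat_lit 625764352))) .nil (.dwn (nat_lit 273488150278967722271221331729552505927359945228901126826406610976) (nat_lit 88893440))) .nil (.nod (nat_lit 14825827778592816735622347353257324109993824296) .nil (.nod (nat_lit 5391907731181465261965442511027196112875272455652161783567132892406493185048225206328) (.opn (nat_lit 145235849902455181361741551635356195919732761245478457986851373047374415848554339403856)) (.dwn (nat_lit 145235849902455181361741551635356195919732761245478457986851373047374415848554339403856) (nat_lit 625764352)) .dup) (.nod (nat_lit 5391912362865034754613259453866596460391586586451548409189694470709853501573410803768) (.dwn (nat_lit 145235849902455181361741551635356195919732761245478457986851373047374415848554339403856) (nat_lit 625764352)) .nil .nil)) (.nod (nat_lit 14825827778592816735622347353257324109993824296) .nil (.nod (nat_lit 20933264427007581220498518097022627783034104125028541904328706064281759846520115908664) (.dwn (nat_lit 145264074455790955659008437910094033614647811521669712947087149743809795937905621502064) (nat_lit 625764352)) .nil .nil) (.nod (nat_lit 20933264427007581220498518097022627783034104125028541904328706064281759846520115908664)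 (.dwn (nat_lit 145264074455790955659008437910094033614647811521669712947087149743809795937905621502064) (nat_lit 625764352)) .nil .nil)) l273 = true := by decide +kernel
theorem cw1210 : wchk (nat_lit 5) [] [l273] (nat_lit 33) (nat_lit 1) (nat_lit 1) (nat_lit 0) (nat_lit 22597888) (nat_lit 0) w1210 = true := by decide +kernel
theorem cl274 : lchk (nat_lit 5) [w1068, w1063, w16, w682, w1188, w162, w167, w1197, w1208, w1210, w1069, w366, w1127, w128, w1130, w1134, w1168, w1169, w799, w1182, w1183, w1185, w1186, w1187] (nat_lit 23282688) (.nod (nat_lit 292295658992448913655913966772856825586766233076315857287864731664) (.nod (nat_lit 292295652715347178269233203277349769300038280455781764329307981841) (.nod (nat_lit 14825822334074946000606931644115700022349615128) .nil (.nod (nat_lit 5391905878508037464906315733891435973869063886608680869880907977024562949951360518184) (.dwn (nat_lit 20586319832204309350139138501993364418438910385639907964652572397135942909693802481728) (nat_lit 90391588)) .nil .nil) (.nod (nat_lit 5391905878508037464906315733891435973869063886608680869880907977024562949951360518184) (.dwn (nat_lit 20586319832204309350139138501993364418438910385639907964652572397135942909693802481728)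 (nat_lit 90391588)) .nil .nil)) .nil (.nod (nat_lit 292296104666672126109267687723788398302360518426232639065666572376) (.nod (nat_lit 20933264427007581221614505082818191829853976905256681107821320407487753197658534742128) (.dwn (nat_lit 145264076308464383462807551705535150883975213728715359771477302906061900510908997339272) (nat_lit 39281968128)) .nil .nil) .nil .nil)) .nil (.nod (nat_lit 291576598157355163214413358169559447613935412228135759322032015512) (.dwn (nat_lit 20933271837701292409869820195965750672812591546133055244148051089999678453491984664752) (nat_lit 90391644)) .nil .nil)) .nil (.nod (nat_lit 14825822334074946000606931644115700022349615128) .nil (.nod (nat_lit 5391905878508037464906315733891435973869063886608680869880907977024562949951360518184) (.dwn (nat_lit 20586319832204309350139138501993364418438910385639907964652572397135942909693802481728) (nat_lit 90391588)) .nil .nil) (.nod (nat_lit 5391905878508037464906315733891435973869063886608680869880907977024562949951360518184) (.dwn (nat_lit 20586319832204309350139138501993364418438910385639907964652572397135942909693802481728) (nat_lit 90391588)) .nil .nil)) (.nod (nat_lit 292296104666672126109267687723788398302360518426232639065666572376)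 (.nod (nat_lit 20933264427007581221614505082818191829853976905256681107821320407487753197658534742128) (.dwn (nat_lit 145264076308464383462807551705535150883975213728715359771477302906061900510908997339272) (nat_lit 39281968128)) .nil .nil) .nil .nil) l274 = true := by decide +kernel
theorem cw1211 : wchk (nat_lit 5) [] [l274] (nat_lit 211) (nat_lit 1) (nat_lit 1) (nat_lit 0) (nat_lit 22597888) (nat_lit 0) w1211 = true := by decide +kernel
theorem cw1212 : wchk (nat_lit 5) [w1211] [] (nat_lit 17) (nat_lit 1) (nat_lit 1) (nat_lit 2) (nat_lit 90391552) (nat_lit 209) w1212 = true := by decide +kernel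
theorem cw1213 : wchk (nat_lit 5) [] [l258] (nat_lit 3) (nat_lit 3) (nat_lit 1) (nat_lit 0) (nat_lit 5802752) (nat_lit 0) w1213 = true := by decide +kernel
theorem cw1214 : wchk (nat_lit 5) [w384] [] (nat_lit 1) (nat_lit 1) (nat_lit 4) (nat_lit 2) (nat_lit 84757504) (nat_lit 197) w1214 = true := by decide +kernel
theorem cw1215 : wchk (nat_lit 5) [w143, w495] [] (nat_lit 18) (nat_lit 1) (nat_lit 2) (nat_lit 2) (nat_lit 621635584) (nat_lit 22709252) w1215 = true := by decide +kernel
theorem cw1216 : wchk (nat_lit 5) [] [l155] (nat_lit 18) (nat_lit 2) (nat_lit 2) (nat_lit 0) (nat_lit 156815616) (nat_lit 0) w1216 = true := by decide +kernel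
theorem cw1217 : wchk (nat_lit 5) [] [l155] (nat_lit 18) (nat_lit 2) (nat_lit 3) (nat_lit 0) (nat_lit 156700928) (nat_lit 0) w1217 = true := by decide +kernel
theorem cw1218 : wchk (nat_lit 5) [] [l155] (nat_lit 18) (nat_lit 2) (nat_lit 2) (nat_lit 0) (nat_lit 156815616) (nat_lit 0) w1218 = true := by decide +kernel
theorem cl275 : lchk (nat_lit 5) [w754, w3, w39, w143, w720, w740, w734, w256, w258, w767, w783, w753, w741, w990, w717, w751, w752] (nat_lit 4922229760) .nil (.nod (nat_lit 292205670461970410184677261393421816511635137310662049348757833745) (.nod (nat_lit 2623828525391632559283359978900804561938513761552850728518026) (.nod (nat_lit 815873960086375455199127576) .nil (.nod (nat_lit 15845387250879203294684102298732107571486785562) .nil (.opn (nat_lit 20933253310967014438143757434208066949041641680415337493385154824789931481673345959936)) .dup) .nil) .nil (.nod (nat_lit 5391906804844751371310660026394850079327939190359825324648796302445648288662402630234) (.dwn (nat_lit 207200394084993751780443660847328332893992525939650359962173158074190684151571741349976) (nat_lit 895697920)) .nil .nil)) .nil (.nod (nat_lit 2222094014326946507733064997217944757860353044468955239940426)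 (.opn (nat_lit 20933261647997439590074495904684142242427804884846901701386695653333843356330601384024)) .nil .nil)) .nil .nil l275 = true := by decide +kernel
theorem cw1219 : wchk (nat_lit 5) [] [l275] (nat_lit 18) (nat_lit 2) (nat_lit 2) (nat_lit 0) (nat_lit 156815616) (nat_lit 0) w1219 = true := by decide +kernel
theorem cw1220 : wchk (nat_lit 5) [w519] [] (nat_lit 1) (nat_lit 1) (nat_lit 4) (nat_lit 2) (nat_lit 84764672) (nat_lit 197) w1220 = true := by decide +kernel
theorem cw1221 : wchk (nat_lit 5) [] [l157] (nat_lit 3) (nat_lit 2) (nat_lit 2) (nat_lit 0) (nat_lit 22597888) (nat_lit 0) w1221 = true := by decide +kernel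
theorem cw1222 : wchk (nat_lit 5) [] [l92] (nat_lit 3) (nat_lit 1) (nat_lit 3) (nat_lit 0) (nat_lit 22205440) (nat_lit 0) w1222 = true := by decide +kernel
theorem cl276 : lchk (nat_lit 5) [w17, w946, w495, w202, w203, w1222, w3, w200, w199, w201] (nat_lit 23275520) .nil (.nod (nat_lit 3317934856884909390700382217) (.nod (nat_lit 15455119105669413575011311161657063218182357338) .nil (.nod (nat_lit 14825822334074946000475498887738424646447945760) (.nod (nat_lit 61794583948405451826638569662369803047461349181686615735991900983296) .nil (.dwn (nat_lit 493153730622815688564694837251978340518182267866024533149710008340480) (nat_lit 39281960960)) .dup) (.nod (nat_lit 1139908875237595653122776223450913872628509370301654054498865774934352298688538697158656) .nil (.dwn (nat_lit 9097080657794181927608892193800047314259191809256511980238816013148593008605133049057280) (nat_lit 39281960960)) .dup) (.dwn (nat_lit 1139908875237595653184570807399319324451798048855788903980743148040662442710227510251520) (nat_lit 4922222592))) .nil) (.nod (nat_lit 28703933511553500216025375369416353370697216419347070298089645191970160765268089897306) (.dwn (nat_lit 145034989533770421507644407271170631775582840151047688717117775414971402194724897593416)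 (nat_lit 627255296)) .nil .nil) .dup) .nil .nil l276 = true := by decide +kernel
theorem cw1223 : wchk (nat_lit 5) [] [l276] (nat_lit 2) (nat_lit 0) (nat_lit 1) (nat_lit 0) (nat_lit 5820672) (nat_lit 0) w1223 = true := by decide +kernel
theorem cw1224 : wchk (nat_lit 5) [w946] [] (nat_lit 17) (nat_lit 0) (nat_lit 4) (nat_lit 2) (nat_lit 197) (nat_lit 85804032) w1224 = true := by decide +kernel
theorem cl277 : lchk (nat_lit 5) [w758, w14, w1221, w946, w181, w495, w724, w725, w1219, w42, w755, w1220, w713, w1214, w1215, w1216, w944, w1217, w1218, w1223, w772, w786, w1224] (nat_lit 23282688) .nil (.nod (nat_lit 7874780659128566355890205604494864048577823249517849896057934612497) (.nod (nat_lit 2623828525391694076594395472251849240904367270311806057316746) (.nod (nat_lit 425790229659443291380373688929721138196920977449) .nil (.nod (nat_lit 15845392695397074029922602563631005551619901496) (.nod (nat_lit 493153821013080678106224763305099718403610755439051234097516903819336) .nil (.dwn (nat_lit 3944026994006628060972600413197011823567629171059486419478382855489536) (nat_lit 314159875072)) .dup) (.nod (nat_lit 9097082327052940372759165419999367199477397997577627726950904803440087914204416626305096)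 .nil (.dwn (nat_lit 72754456578242263429662797548906755931854498310252163564960117801001833920563043593783296) (nat_lit 314159875072)) .dup) (.dwn (nat_lit 20933263500670867815122775721535425819741451982657729744632941607228403319189727250528) (nat_lit 39281968128))) .nil) (.nod (nat_lit 28703940922247211410580710418554628579893821603384543719883646349475665034727793272904) (.dwn (nat_lit 1139910549128037667776942041332570661062143895483950054323175725735659560810621251782800) (nat_lit 4922229760)) .nil .nil) .dup) .nil (.nod (nat_lit 2222094014326946507752120809765517775136007833507303524401482) (.dwn (nat_lit 145264080940147952955455368899458620646957655884466204807947318148516698361941549549744) (nat_lit 627262464)) .nil .nil)) .nil .nil l277 = true := by decide +kernel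
theorem cw1225 : wchk (nat_lit 5) [] [l277] (nat_lit 146) (nat_lit 3) (nat_lit 1) (nat_lit 0) (nat_lit 1230557440) (nat_lit 0) w1225 = true := by decide +kernel
theorem cw1226 : wchk (nat_lit 5) [] [l45] (nat_lit 3) (nat_lit 1) (nat_lit 2) (nat_lit 0) (nat_lit 22307584) (nat_lit 0) w1226 = true := by decide +kernel
theorem cw1227 : wchk (nat_lit 5) [] [l81] (nat_lit 3) (nat_lit 1) (nat_lit 3) (nat_lit 0) (nat_lit 22481408) (nat_lit 0) w1227 = true := by decide +kernel
theorem cl278 : lchk (nat_lit 5) [w281, w38, w815, w109, w20, w4, w170, w172, w976, w1120] (nat_lit 18494464) (.nod (nat_lit 17126981159813058518027937042639163395512729600) .nil .nil (.dwn (nat_lit 245501616866525381441062923472889545357810384388589848050112921600) (nat_lit 85173256))) .nil (.nod (nat_lit 11418033945132184873608633828152830482410635264) (.nod (nat_lit 1067482665699511853361761721668581546773853373813644981112397627392) .nil (.dwn (nat_lit 7814668264275010429606239027491485649358903934193514434308947077120) (nat_lit 622474240)) .dup) .nil (.nod (nat_lit 19831020076486576487372448303370016013718067898997385119687599788158182923934298537984) (.dwn (nat_lit 144078831262041356581969837831782433003881113859426500569651326521255485395407840168008)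 (nat_lit 622474240)) .nil .nil)) .nil l278 = true := by decide +kernel
theorem cw1228 : wchk (nat_lit 5) [] [l278] (nat_lit 3) (nat_lit 2) (nat_lit 4) (nat_lit 0) (nat_lit 22597888) (nat_lit 0) w1228 = true := by decide +kernel
theorem cw1229 : wchk (nat_lit 5) [w1228] [] (nat_lit 1) (nat_lit 1) (nat_lit 4) (nat_lit 2) (nat_lit 90391552) (nat_lit 197) w1229 = true := by decide +kernel
theorem cw1230 : wchk (nat_lit 5) [w143, w495] [] (nat_lit 18) (nat_lit 1) (nat_lit 2) (nat_lit 2) (nat_lit 621635584) (nat_lit 22250500) w1230 = true := by decide +kernel
theorem cw1231 : wchk (nat_lit 5) [] [l45] (nat_lit 1) (nat_lit 1) (nat_lit 2) (nat_lit 0) (nat_lit 22307584) (nat_lit 0) w1231 = true := by decide +kernel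
theorem cw1232 : wchk (nat_lit 5) [w521] [] (nat_lit 1) (nat_lit 1) (nat_lit 4) (nat_lit 2) (nat_lit 84757504) (nat_lit 197) w1232 = true := by decide +kernel
theorem cw1233 : wchk (nat_lit 5) [] [l157] (nat_lit 3) (nat_lit 2) (nat_lit 3) (nat_lit 0) (nat_lit 22483200) (nat_lit 0) w1233 = true := by decide +kernel
theorem cw1234 : wchk (nat_lit 5) [] [l158] (nat_lit 3) (nat_lit 2) (nat_lit 3) (nat_lit 0) (nat_lit 22597888) (nat_lit 0) w1234 = true := by decide +kernel
theorem cw1235 : wchk (nat_lit 5) [] [l92] (nat_lit 3) (nat_lit 2) (nat_lit 3) (nat_lit 0) (nat_lit 22334464) (nat_lit 0) w1235 = true := by decide +kernel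
theorem cl279 : lchk (nat_lit 5) [w17, w1227, w495, w202, w203, w1234, w1235, w3, w200, w199, w201] (nat_lit 23275520) .nil (.nod (nat_lit 3334859818359514199148103689) (.nod (nat_lit 15055099488670770522410014215141433233668833626) .nil (.nod (nat_lit 14825822334074946000475498887738424646447945760) (.nod (nat_lit 61794583948405451826638569662369803047461349181686615735991900983296) .nil (.dwn (nat_lit 493153730622815688564694837251978340518182267866024533149710008340480) (nat_lit 39281960960)) .dup) (.nod (nat_lit 1139908875237595653184570807399319324448448157747553950415340769926142881532355197423616) .nil (.dwn (nat_lit 9097080657794181928102045924422863002770418811897431520242226361577572222832112392622080) (nat_lit 39281960960)) .dup) (.dwn (nat_lit 1139908875237595653184570807399319324451798048855788903980743148040662442710227510251520) (nat_lit 4922222592))) .nil) (.nod (nat_lit 28703933511553500216025465408163645757246092882632815724224225471863653016833288569178) (.dwn (nat_lit 145034990460107135406173970709955325728179549090616140363271126767305488625786032920656) (nat_lit 627255296)) .nil .nil) .dup) .nil .nil l279 = true := by decide +kernel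
theorem cw1236 : wchk (nat_lit 5) [] [l279] (nat_lit 2) (nat_lit 0) (nat_lit 1) (nat_lit 0) (nat_lit 5820672) (nat_lit 0) w1236 = true := by decide +kernel
theorem cw1237 : wchk (nat_lit 5) [] [l158] (nat_lit 3) (nat_lit 2) (nat_lit 4) (nat_lit 0) (nat_lit 20648192) (nat_lit 0) w1237 = true := by decide +kernel
theorem cw1238 : wchk (nat_lit 5) [] [l92] (nat_lit 3) (nat_lit 2) (nat_lit 4) (nat_lit 0) (nat_lit 20253952) (nat_lit 0) w1238 = true := by decide +kernel
theorem cl280 : lchk (nat_lit 5) [w17, w1226, w1227, w497, w203, w202, w1237, w1238, w3, w200, w201, w199] (nat_lit 22816768) .nil (.nod (nat_lit 61517305590975480306345623016667992361631385617) (.nod (nat_lit 120459957890013031940308292055552965476690) .nil (.nod (nat_lit 9508491123059235912804716820625870959275302944) (.nod (nat_lit 61788824682454827605490715059798072891969911181139606524600650321920) .nil (.dwn (nat_lit 493147971356865064343546982649406610362690829865477523938318757679104) (nat_lit 39281502208)) .dup) (.nod (nat_lit 1139802635532552058625999140060339289037093608731404335808504854934494093069927870648320) .nil (.dwn (nat_lit 9096974418089138333543474257083882967359064262881281905635390446585923434369685065846784)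 (nat_lit 39281502208)) (.opn (nat_lit 9096974418089138333543474257083882967359064262881281905635390446585923434369685065846784))) (.dwn (nat_lit 1139802635532552058625999140060339289040443187629206509945183251548957837170739099750400) (nat_lit 4921763840))) .nil) (.nod (nat_lit 28703934437890214114555028846948339709758448655271424241339455070451907014486132785490) (.dwn (nat_lit 145020051427922093819904393429195952201054480670196442848173867675493614902856602263632) (nat_lit 626796544)) .nil .nil) .dup) .nil .nil l280 = true := by decide +kernel
theorem cw1239 : wchk (nat_lit 5) [] [l280] (nat_lit 2) (nat_lit 0) (nat_lit 1) (nat_lit 0) (nat_lit 5820672) (nat_lit 0) w1239 = true := by decide +kernel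
theorem cw1240 : wchk (nat_lit 5) [w1227] [] (nat_lit 17) (nat_lit 0) (nat_lit 4) (nat_lit 2) (nat_lit 197) (nat_lit 86721536) w1240 = true := by decide +kernel
theorem cl281 : lchk (nat_lit 5) [w758, w14, w1233, w1226, w1227, w181, w497, w724, w725, w1219, w1231, w164, w755, w42, w1232, w581, w714, w1229, w1230, w1216, w944, w1217, w1218, w1236, w1239, w772, w786, w1240] (nat_lit 23282688) .nil (.nod (nat_lit 7874780659128566355890205604494864048577823249517849896057934612497) (.nod (nat_lit 2623828525391694076594395472251849257829476318869204179616138) (.nod (nat_lit 425790232381702226747881396784291950240739813425) .nil (.nod (nat_lit 15845395417656009397430310418201817595442006080) (.nod (nat_lit 493153821063297491989318882622253973367825675354127209339073528522840) .nil (.dwn (nat_lit 3944026994006628060972600413197011823567629171059486419478382855489536) (nat_lit 314159875072)) .dup) (.nod (nat_lit 9097082328905613801049378367839800451605601395635904224341458330617544983222085070792808) .nil (.dwn (nat_lit 72754456578242263433606824542913383992399486459924829416585542905960751465549895381190656) (nat_lit 314159875072)) (.dwn (nat_lit 72754456578242263433606824542913383992399486459924829416585542905960751465549895381190656)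 (nat_lit 314159875072))) (.dwn (nat_lit 20933266279681009510711465937455879911344374369557674483046351506684732376477173713024) (nat_lit 39281968128))) .nil) (.nod (nat_lit 28703944627594067004698964173693404390280657361658350304497051758812010758972334581864) (.dwn (nat_lit 1139910552833384523371060295087709436872530731242223860907789131144995906534865793091760) (nat_lit 4922229760)) .nil .nil) .dup) .nil (.nod (nat_lit 2222094014326946507763009845506987822892535165312876935119178) (.dwn (nat_lit 145264085571831522448103186093382090409941200571419427297244044078768847269071937767640) (nat_lit 627262464)) .nil .nil)) .nil .nil l281 = true := by decide +kernel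
theorem cw1241 : wchk (nat_lit 5) [] [l281] (nat_lit 146) (nat_lit 3) (nat_lit 1) (nat_lit 0) (nat_lit 1230557440) (nat_lit 0) w1241 = true := by decide +kernel
theorem cw1242 : wchk (nat_lit 5) [w37] [] (nat_lit 18) (nat_lit 1) (nat_lit 3) (nat_lit 2) (nat_lit 16777233) (nat_lit 22709248) w1242 = true := by decide +kernel
theorem cw1243 : wchk (nat_lit 5) [] [l17] (nat_lit 18) (nat_lit 3) (nat_lit 3) (nat_lit 0) (nat_lit 156815616) (nat_lit 0) w1243 = true := by decide +kernel
theorem cw1244 : wchk (nat_lit 5) [] [l176] (nat_lit 26) (nat_lit 1) (nat_lit 1) (nat_lit 0) (nat_lit 22565632) (nat_lit 0) w1244 = true := by decide +kernel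
theorem cw1245 : wchk (nat_lit 5) [] [l3] (nat_lit 33) (nat_lit 0) (nat_lit 4) (nat_lit 1) (nat_lit 4541184) (nat_lit 0) w1245 = true := by decide +kernel
theorem cw1246 : wchk (nat_lit 5) [] [l3] (nat_lit 33) (nat_lit 0) (nat_lit 4) (nat_lit 1) (nat_lit 4541184) (nat_lit 0) w1246 = true := by decide +kernel
theorem cw1247 : wchk (nat_lit 5) [] [l176] (nat_lit 1) (nat_lit 3) (nat_lit 0) (nat_lit 0) (nat_lit 22597888) (nat_lit 0) w1247 = true := by decide +kernel
theorem cw1248 : wchk (nat_lit 5) [] [] (nat_lit 146) (nat_lit 0) (nat_lit 3) (nat_lit 2) (nat_lit 25165905) (nat_lit 16777233) w1248 = true := by decide +kernel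
theorem cw1249 : wchk (nat_lit 5) [] [l163] (nat_lit 210) (nat_lit 2) (nat_lit 3) (nat_lit 0) (nat_lit 1230168576) (nat_lit 0) w1249 = true := by decide +kernel
theorem cl282 : lchk (nat_lit 5) [w1247, w1249, w1248, w211] (nat_lit 4922229760) .nil (.nod (nat_lit 292295658992448913640107611270592921617376380678313885746323259419) (.nod (nat_lit 618971845870353434728726619) (.nod (nat_lit 618970646831988643624648795) .nil (.nod (nat_lit 618970646831988643607871514) .nil (.dwn (nat_lit 9097082319642246661570928912890824158948045324271064431560050686516816655119921407066522) (nat_lit 39281968136)) .dup) .nil) .nil (.nod (nat_lit 5015085998344824116463297148797363089100622011035205117405288387597494058376002273280) .nil .nil (.opn (nat_lit 1139910537085660387146607616579060275410293886441591157179673875902408918551594027450368)))) .nil .nil) .nil .nil l282 = true := by decide +kernel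
theorem cw1250 : wchk (nat_lit 5) [] [l282] (nat_lit 1682) (nat_lit 1) (nat_lit 1) (nat_lit 0) (nat_lit 9820492032) (nat_lit 0) w1250 = true := by decide +kernel
theorem cl283 : lchk (nat_lit 5) [w13, w177, w1033, w1244, w1245, w1246, w1250] (nat_lit 627190784) .nil (.nod (nat_lit 1133894056819307489575702223281929943449793381387344856080766205979) (.nod (nat_lit 7729185766884335681627) (.nod (nat_lit 7710739022810631657481) .nil (.nod (nat_lit 1133894050542205754189021459446140520242745935931821400260306010138) (.nod (nat_lit 7873880717329865703282619160182086310505250877317452888925242939392) .nil (.dwn (nat_lit 61793774051631145295539652608883153494345365712859692565640006359040) (nat_lit 4922158080)) .dup) (.dwn (nat_lit 145247462459500613335087277051832297178906936452404252754724468974655248854455438039040) (nat_lit 627190784)) .dup) .nil) .nil (.nod (nat_lit 2616391731570701825312840548862308490705192650039568196736525209154105171565871104346) .nil (.opn (nat_lit 145264066118760530578982353878903517405411327578833654578703677841877383484749799393328)) .dup)) .nil .nil) .nil .nil l283 = true := by decide +kernel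
theorem cw1251 : wchk (nat_lit 5) [] [l283] (nat_lit 146) (nat_lit 3) (nat_lit 2) (nat_lit 0) (nat_lit 1230557440) (nat_lit 0) w1251 = true := by decide +kernel
theorem cw1252 : wchk (nat_lit 5) [] [l17] (nat_lit 18) (nat_lit 3) (nat_lit 3) (nat_lit 0) (nat_lit 156815616) (nat_lit 0) w1252 = true := by decide +kernel
theorem cl284 : lchk (nat_lit 5) [] (nat_lit 16777361) .nil (.nod (nat_lit 210624803035675111929662789619970676906114754383538778749829906693) (.nod (nat_lit 33554579) (.nod (nat_lit 11417993111248154360374045510332613771181162756) .nil .nil (.dwn (nat_lit 11417993111248154360993020879531085284702683170) (nat_lit 16777361))) .nil .nil) .nil .nil) .nil .nil l284 = true := by decide +kernel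
theorem cw1253 : wchk (nat_lit 5) [] [l284] (nat_lit 18) (nat_lit 3) (nat_lit 3) (nat_lit 0) (nat_lit 156815616) (nat_lit 0) w1253 = true := by decide +kernel
theorem cl285 : lchk (nat_lit 5) [w351, w181, w2, w37, w1253, w3, w39, w1242, w278, w988, w1243, w989, w1251, w1252] (nat_lit 22687744) .nil (.nod (nat_lit 280057218847372443701580027975322627236567282677664135512667979803) (.nod (nat_lit 834914707766002526880704529) (.nod (nat_lit 15806358564805206256998207612039755083458544026) .nil (.nod (nat_lit 61794674137803185859133689953850298482574994214931376397682198661168) (.nod (nat_lit 493146351563316451281349148542433311256458862927823677597614968430592) .nil (.dwn (nat_lit 3944019524958598345185799289259301611022226212402527016907359827288064) (nat_lit 314159280128)) (.dwn (nat_lit 3944019524958598345185799289259301611022226212402527016907359827288064) (nat_lit 314159280128))) (.dwn (nat_lit 9096944538172094822573875975644794832426354313256402228140826579635555786477010100183040) (nat_lit 39281373184)) .dup) (.dwn (nat_lit 61794674137803185859133689953850298482574994214931376397682198661168) (nat_lit 4921634816))) .nil (.nod (nat_lit 145264068897770672266696263190888437461043855567678107913269885586910387258413874676058)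 (.dwn (nat_lit 1137759189542884594625354922221924370359866088737221424956278370516956042729267399133288) (nat_lit 4921634816)) .nil .nil)) .nil .nil) .nil .nil l285 = true := by decide +kernel
theorem cw1254 : wchk (nat_lit 5) [] [l285] (nat_lit 18) (nat_lit 2) (nat_lit 1) (nat_lit 0) (nat_lit 156815616) (nat_lit 0) w1254 = true := by decide +kernel
theorem cw1255 : wchk (nat_lit 5) [] [] (nat_lit 1) (nat_lit 1) (nat_lit 4) (nat_lit 2) (nat_lit 173) (nat_lit 197) w1255 = true := by decide +kernel
theorem cl286 : lchk (nat_lit 5) [w202, w3] (nat_lit 142606481) (.nod (nat_lit 11418080563816453042178130985251939322540589056) (.nod (nat_lit 117737698954644708364562613668305629610245) (.nod (nat_lit 35082240) .nil .nil .nil) .nil .nil) (.dwn (nat_lit 5828040256383066034770997251421384061651673678619614581343662992363415047062031075336) (nat_lit 25165969)) .dup) .nil .nil .nil l286 = true := by decide +kernel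
theorem cw1256 : wchk (nat_lit 5) [] [l286] (nat_lit 17) (nat_lit 3) (nat_lit 1) (nat_lit 0) (nat_lit 156815616) (nat_lit 0) w1256 = true := by decide +kernel
theorem cw1257 : wchk (nat_lit 5) [w726] [] (nat_lit 1) (nat_lit 1) (nat_lit 4) (nat_lit 2) (nat_lit 90391552) (nat_lit 197) w1257 = true := by decide +kernel
theorem cl287 : lchk (nat_lit 5) [] (nat_lit 8388625) (.nod (nat_lit 395) (.nod (nat_lit 2623828525391632559283359978900804561930784575785966426390788) .nil .nil .nil) .nil (.nod (nat_lit 2222094014326884990518329413705526127372798585773207345692932) .nil (.opn (nat_lit 210626403696617635544675647969807680982290527987607704895727075682)) .dup)) .nil .nil .nil l287 = true := by decide +kernel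
theorem cw1258 : wchk (nat_lit 5) [] [l287] (nat_lit 0) (nat_lit 0) (nat_lit 3) (nat_lit 1) (nat_lit 5820672) (nat_lit 0) w1258 = true := by decide +kernel
theorem cw1259 : wchk (nat_lit 5) [] [l180] (nat_lit 2) (nat_lit 0) (nat_lit 4) (nat_lit 0) (nat_lit 4903168) (nat_lit 0) w1259 = true := by decide +kernel
theorem cw1260 : wchk (nat_lit 5) [] [l181] (nat_lit 2) (nat_lit 0) (nat_lit 4) (nat_lit 0) (nat_lit 4888832) (nat_lit 0) w1260 = true := by decide +kernel
theorem cw1261 : wchk (nat_lit 5) [] [l284] (nat_lit 34) (nat_lit 0) (nat_lit 3) (nat_lit 1) (nat_lit 22483200) (nat_lit 0) w1261 = true := by decide +kernel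
theorem cw1262 : wchk (nat_lit 5) [] [l287] (nat_lit 146) (nat_lit 0) (nat_lit 3) (nat_lit 1) (nat_lit 5820672) (nat_lit 0) w1262 = true := by decide +kernel
theorem cl288 : lchk (nat_lit 5) [w53, w187, w1258, w1262, w729, w1259, w1260, w291, w1261] (nat_lit 625757184) .nil (.nod (nat_lit 279067345012108905691846179326440471073413605633493935126088778139) (.nod (nat_lit 618971845870353434695172490) (.nod (nat_lit 618970646831988643607871642) .nil (.nod (nat_lit 15845381806361332559668686884738388663195402266) (.nod (nat_lit 493153820761996608717430610820369246764948338694803323271906291255320) .nil (.opn (nat_lit 61775776345535444604452606975846496758434621961150288780042348042240)) .dup) (.dwn (nat_lit 9097082320568583375962612297041388647708245275728331625344153374455237456079217538533400) (nat_lit 625757184)) .dup) .nil) .nil .nil) .nil (.nod (nat_lit 2222094014326946507711286925735001841594160625188523221188634) .nil (.dwn (nat_lit 7874780853718720153304202011599049687822392360966238398217252669504) (nat_lit 894192640)) .dup)) .nil .nil l288 = true := by decide +kernel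
theorem cw1263 : wchk (nat_lit 5) [] [l288] (nat_lit 18) (nat_lit 3) (nat_lit 2) (nat_lit 0) (nat_lit 156815616) (nat_lit 0) w1263 = true := by decide +kernel
theorem cw1264 : wchk (nat_lit 5) [] [l160] (nat_lit 18) (nat_lit 2) (nat_lit 2) (nat_lit 0) (nat_lit 156815616) (nat_lit 0) w1264 = true := by decide +kernel
theorem cw1265 : wchk (nat_lit 5) [] [l160] (nat_lit 18) (nat_lit 2) (nat_lit 3) (nat_lit 0) (nat_lit 156700928) (nat_lit 0) w1265 = true := by decide +kernel
theorem cw1266 : wchk (nat_lit 5) [] [l160] (nat_lit 18) (nat_lit 2) (nat_lit 2) (nat_lit 0) (nat_lit 156815616) (nat_lit 0) w1266 = true := by decide +kernel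
theorem cw1267 : wchk (nat_lit 5) [] [] (nat_lit 0) (nat_lit 0) (nat_lit 4) (nat_lit 2) (nat_lit 16777261) (nat_lit 197) w1267 = true := by decide +kernel
theorem cw1268 : wchk (nat_lit 5) [] [] (nat_lit 0) (nat_lit 0) (nat_lit 4) (nat_lit 2) (nat_lit 205) (nat_lit 197) w1268 = true := by decide +kernel
theorem cw1269 : wchk (nat_lit 5) [] [] (nat_lit 1) (nat_lit 1) (nat_lit 4) (nat_lit 2) (nat_lit 16777261) (nat_lit 197) w1269 = true := by decide +kernel
theorem cl289 : lchk (nat_lit 5) [w742, w3, w750, w12, w520, w767, w1267, w1262, w1269, w741, w652, w768, w769, w770, w771] (nat_lit 4922229760) .nil (.nod (nat_lit 292205670461970410184677261393421816511635137310662049348756916241) (.nod (nat_lit 2623828525391632559283359978900804561938513761552850728518026) (.nod (nat_lit 3292018786328081884482168864) .nil (.nod (nat_lit 426892725472454584406978169207183566303863504922) .nil (.opn (nat_lit 20933253310967014438143757434208066949041641680415337493385154824789931481673345959936)) .dup) .nil) .nil (.dwn (nat_lit 5391907731181465269840223465179544031924648127206018035434639946925163907679715852890) (nat_lit 123946016))) .nil (.nod (nat_lit 2222094014326946507724898220411863759698786502368236578799946)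 .nil (.opn (nat_lit 65164667822714713018637976731295379496815647189076255544654806026352)) .dup)) .nil .nil l289 = true := by decide +kernel
theorem cw1270 : wchk (nat_lit 5) [] [l289] (nat_lit 18) (nat_lit 2) (nat_lit 2) (nat_lit 0) (nat_lit 156815616) (nat_lit 0) w1270 = true := by decide +kernel
theorem cw1271 : wchk (nat_lit 5) [] [] (nat_lit 0) (nat_lit 0) (nat_lit 4) (nat_lit 2) (nat_lit 16777261) (nat_lit 197) w1271 = true := by decide +kernel
theorem cw1272 : wchk (nat_lit 5) [] [l64] (nat_lit 1) (nat_lit 1) (nat_lit 3) (nat_lit 0) (nat_lit 5428224) (nat_lit 0) w1272 = true := by decide +kernel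
theorem cw1273 : wchk (nat_lit 5) [] [] (nat_lit 1) (nat_lit 1) (nat_lit 4) (nat_lit 2) (nat_lit 16777261) (nat_lit 197) w1273 = true := by decide +kernel
theorem cl290 : lchk (nat_lit 5) [w742, w3, w750, w12, w520, w767, w1271, w1262, w1273, w749, w768, w769, w770, w771] (nat_lit 4922229760) .nil (.nod (nat_lit 292205670461970410184677261393421816511635137310662049347552053265) (.nod (nat_lit 2623828525391632559283359978900804561938513761552850728518026) (.nod (nat_lit 3292018786328081884482168864) .nil (.nod (nat_lit 426892725472454584406978169207183566303863504922) (.opn (nat_lit 1134793935846990788804842260746285749320773710460143118615780427776)) .nil .dup) .nil) .nil (.dwn (nat_lit 5391907731181465269840223465179544031924648127206018035434639946925163907679715852890) (nat_lit 123946016))) .nil (.nod (nat_lit 2222094014326946507724898220411840239101312011562996216103242) .nil (.opn (nat_lit 65164667772497899135544530617886805175786808152402841176898707818600)) .dup)) .nil .nil l290 = true := by decide +kernel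
theorem cw1274 : wchk (nat_lit 5) [] [l290] (nat_lit 18) (nat_lit 2) (nat_lit 2) (nat_lit 0) (nat_lit 156815616) (nat_lit 0) w1274 = true := by decide +kernel
theorem cw1275 : wchk (nat_lit 5) [] [l159] (nat_lit 0) (nat_lit 3) (nat_lit 2) (nat_lit 0) (nat_lit 5820672) (nat_lit 0) w1275 = true := by decide +kernel
theorem cw1276 : wchk (nat_lit 5) [] [l159] (nat_lit 0) (nat_lit 3) (nat_lit 1) (nat_lit 0) (nat_lit 4673792) (nat_lit 0) w1276 = true := by decide +kernel
theorem cw1277 : wchk (nat_lit 5) [] [l25] (nat_lit 2) (nat_lit 3) (nat_lit 3) (nat_lit 0) (nat_lit 19295232) (nat_lit 0) w1277 = true := by decide +kernel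
theorem cw1278 : wchk (nat_lit 5) [] [l284] (nat_lit 2) (nat_lit 3) (nat_lit 3) (nat_lit 0) (nat_lit 19343616) (nat_lit 0) w1278 = true := by decide +kernel
theorem cl291 : lchk (nat_lit 5) [w292, w33, w1277, w1278, w278, w891] (nat_lit 10839040) .nil (.nod (nat_lit 2579888813243925793936509452938350897018068087674718220871689) (.nod (nat_lit 2623828525391632559283359978900805799872207366971769541885952) .nil .nil (.nod (nat_lit 210625550010781622944673686078912038619037240767946800844482019328) .nil (.dwn (nat_lit 2573611711511889009164641147129854436350105676433915241728024) (nat_lit 4909786112)) .dup)) .nil (.nod (nat_lit 53048605428327915349932104470037775204027990346) .nil .nil (.dwn (nat_lit 15181942803481852646251937138876028908550572072) (nat_lit 614818816)))) .nil .nil l291 = true := by decide +kernel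
theorem cw1279 : wchk (nat_lit 5) [] [l291] (nat_lit 274) (nat_lit 1) (nat_lit 0) (nat_lit 0) (nat_lit 1230557440) (nat_lit 0) w1279 = true := by decide +kernel
theorem cw1280 : wchk (nat_lit 5) [] [l162] (nat_lit 1) (nat_lit 3) (nat_lit 4) (nat_lit 0) (nat_lit 5820672) (nat_lit 0) w1280 = true := by decide +kernel
theorem cw1281 : wchk (nat_lit 5) [] [l165] (nat_lit 17) (nat_lit 3) (nat_lit 4) (nat_lit 0) (nat_lit 156815616) (nat_lit 0) w1281 = true := by decide +kernel
theorem cl292 : lchk (nat_lit 5) [w768, w3, w39, w405, w1279, w1281, w1280, w1259, w712, w713, w780, w781, w782, w715, w890, w785] (nat_lit 4922229760) .nil (.nod (nat_lit 292205670461970410184677261393421816511635137310662049347550218257) (.nod (nat_lit 2623828525391632559283359978900804561938513761552850728518043) (.nod (nat_lit 23082134453419561474433910816) .nil (.nod (nat_lit 15845389973138138662191810005728967025632477210) (.opn (nat_lit 20933253310967014439278551370055057737784966638633189064684694223751439257277812869120)) .dup .dup) .nil) .nil (.nod (nat_lit 5391907731181465269840223465179544031924648127206018035434639946925163907679715852890) (.dwn (nat_lit 207429474375330716445893381985788728205611650161943922599232326519755947452091347667040)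 (nat_lit 895697920)) .nil .nil)) .nil (.nod (nat_lit 61517337917800337796341706944697055736135418186) .nil .nil (.dwn (nat_lit 15806388169371128401786423709405769617075767416) (nat_lit 5190665216)))) .nil .nil l292 = true := by decide +kernel
theorem cw1282 : wchk (nat_lit 5) [] [l292] (nat_lit 18) (nat_lit 2) (nat_lit 2) (nat_lit 0) (nat_lit 156815616) (nat_lit 0) w1282 = true := by decide +kernel
theorem cw1283 : wchk (nat_lit 5) [] [l1] (nat_lit 2) (nat_lit 0) (nat_lit 1) (nat_lit 0) (nat_lit 4903168) (nat_lit 0) w1283 = true := by decide +kernel
theorem cw1284 : wchk (nat_lit 5) [] [l162] (nat_lit 1) (nat_lit 3) (nat_lit 4) (nat_lit 0) (nat_lit 5820672) (nat_lit 0) w1284 = true := by decide +kernel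
theorem cw1285 : wchk (nat_lit 5) [] [l165] (nat_lit 17) (nat_lit 3) (nat_lit 4) (nat_lit 0) (nat_lit 156815616) (nat_lit 0) w1285 = true := by decide +kernel
theorem cl293 : lchk (nat_lit 5) [w769, w3, w39, w861, w1283, w1285, w1284, w1260, w712, w713, w780, w781, w782, w890, w785] (nat_lit 4922229760) .nil (.nod (nat_lit 292205670461970410184677261393421816511635137310662049347550218257) (.nod (nat_lit 2623828525391632559283359978900804561938513761552850728518026) (.nod (nat_lit 820105495602931836675065888) .nil (.nod (nat_lit 15845389973138138662191810005728967025632477210) (.opn (nat_lit 20933253310967014439278551370055057737784966638633189064684694223751439257277812869120)) .dup .dup) .nil) .nil (.nod (nat_lit 5391907731181465269840223465179544031924648127206018035434639946925163907679715852890) (.dwn (nat_lit 207429474375330716445893381985788728205611650161943922599232326519755947452091347667040) (nat_lit 895697920)) .nil .nil)) .nil (.nod (nat_lit 2222094014326884990397869455815514753355141268697624914952522) .nil .nil (.dwn (nat_lit 291576347073285747731337376653219285500614945100669811880652867696) (nat_lit 5190665216)))) .nil .nil l293 = true := by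 decide +kernel
theorem cw1286 : wchk (nat_lit 5) [] [l293] (nat_lit 18) (nat_lit 2) (nat_lit 2) (nat_lit 0) (nat_lit 156815616) (nat_lit 0) w1286 = true := by decide +kernel
theorem cw1287 : wchk (nat_lit 5) [w50] [] (nat_lit 17) (nat_lit 0) (nat_lit 4) (nat_lit 2) (nat_lit 197) (nat_lit 76327936) w1287 = true := by decide +kernel
theorem cl294 : lchk (nat_lit 5) [w772, w1275, w1276, w50, w177, w1255, w1256, w1270, w1274, w42, w1257, w1263, w716, w1264, w962, w1265, w1266, w764, w1282, w1286, w1287] (nat_lit 23282688) .nil (.nod (nat_lit 292295658992448913640107611270592921617376380678313885746336270353) (.nod (nat_lit 2623828525391684539541331663140045868704581186112706347794826) (.nod (nat_lit 15528298870369962918068599851073078187596861473) .nil (.nod (nat_lit 15845389973138138662414894709060193507797796912) (.nod (nat_lit 493153820962863864223122453328761720937127112722373649420965882976280) .nil (.dwn (nat_lit 3944026994006628060972600413197011823567629171059486419478382855489536) (nat_lit 314159875072)) .dup) (.dwn (nat_lit 9097082325200266945455260114185095303561461944996438291365462523220825430523537838745672) (nat_lit 39281968128)) (.dwn (nat_lit 9097082325200266945455260114185095303561461944996438291365462523220825430523537838745672)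 (nat_lit 39281968128))) .nil) (.nod (nat_lit 28703938143237069714992020102200546722104719241495299894129243826800051706434458126432) (.dwn (nat_lit 1139910547275364240030432814455908722771951130892974958543938668823254961350568250345600) (nat_lit 4922229760)) .nil .nil) .dup) .nil (.nod (nat_lit 2222094014326946507746676291894782759720298691883215880192330) .nil (.dwn (nat_lit 7874781506537300633519001485910515861187381507917477905059396618400) (nat_lit 627262464)) .dup)) .nil .nil l294 = true := by decide +kernel
theorem cw1288 : wchk (nat_lit 5) [] [l294] (nat_lit 146) (nat_lit 3) (nat_lit 1) (nat_lit 0) (nat_lit 1230557440) (nat_lit 0) w1288 = true := by decide +kernel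
theorem cw1289 : wchk (nat_lit 5) [] [l7] (nat_lit 2) (nat_lit 0) (nat_lit 4) (nat_lit 0) (nat_lit 4630784) (nat_lit 0) w1289 = true := by decide +kernel
theorem cw1290 : wchk (nat_lit 5) [w1289, w37] [] (nat_lit 18) (nat_lit 1) (nat_lit 1) (nat_lit 2) (nat_lit 627262464) (nat_lit 23282692) w1290 = true := by decide +kernel
theorem cw1291 : wchk (nat_lit 5) [] [l16] (nat_lit 19) (nat_lit 2) (nat_lit 2) (nat_lit 0) (nat_lit 5802752) (nat_lit 0) w1291 = true := by decide +kernel
theorem cw1292 : wchk (nat_lit 5) [w1291, w181] [] (nat_lit 146) (nat_lit 0) (nat_lit 2) (nat_lit 2) (nat_lit 23282688) (nat_lit 625642500) w1292 = true := by decide +kernel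
theorem cw1293 : wchk (nat_lit 5) [w284, w789] [] (nat_lit 1682) (nat_lit 0) (nat_lit 1) (nat_lit 2) (nat_lit 90384384) (nat_lit 4922229764) w1293 = true := by decide +kernel
theorem cw1294 : wchk (nat_lit 5) [w16, w1061] [] (nat_lit 0) (nat_lit 0) (nat_lit 1) (nat_lit 2) (nat_lit 23282688) (nat_lit 90391556) w1294 = true := by decide +kernel
theorem cl295 : lchk (nat_lit 5) [w788, w37, w804, w181, w789, w702, w1061, w1062, w1292, w1293, w1294, w1212, w284, w1213, w1225, w1241, w1060, w723, w790, w791, w793, w934, w935, w259, w936, w967, w1024, w1254, w1288, w1290] (nat_lit 23282688) .nil (.nod (nat_lit 292295658992448913640107611270592921617376380678313885746326751241) (.nod (nat_lit 2623828525391694076591673213316481733196512699499762235212170) (.nod (nat_lit 292295658992448914065897838207777277630242361753464211899386513417) .nil (.nod (nat_lit 61794674137803185859132714296247862767790249272463009181827129100320) (.nod (nat_lit 1134794237147874114037923825208968869524460876351214802190666778672) .nil (.nod (nat_lit 292295652715347178269233200214808467011592109119389600780008114184) (.dwn (nat_lit 582013450669274478739513468539980673770509536960452200766017145054559996966214467141978184)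 (nat_lit 2513183130624)) .nil .nil) (.nod (nat_lit 292295652715347178269233200214808467011592109119389600780008114184) (.dwn (nat_lit 582013450669274478739513468539980673770509536960452200766017145054559996966214467141978184) (nat_lit 2513183130624)) .nil .nil)) (.nod (nat_lit 5391912362865034754905555658966896352673901200937563720047878220174402199472861169760) (.dwn (nat_lit 5391914215538466495699380940665811935291945193002315369368489694776115514189428508784) (nat_lit 314159875136)) .nil .nil) .dup) (.nod (nat_lit 61794674790621766339348538211041886441665762036416617055283541657736) (.dwn (nat_lit 9097082335389970797847066284733625994216904793987118750810499293889465521178952195328048) (nat_lit 39281968128)) .nil .nil)) (.nod (nat_lit 5391921626232173747783675046949953321302135928067926689676415600117964776666034555056) (.dwn (nat_lit 145264084645494808603493515988898676049602627633532491770697579912610918067173962762440) (nat_lit 4922229824)) .nil .nil) (.nod (nat_lit 5391921626232173747783675046949953321302135928067926689676415600117964776666034555056) (.dwn (nat_lit 145264084645494808603493515988898676049602627633532491770697579912610918067173962762440)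 (nat_lit 4922229824)) .nil .nil)) .nil (.nod (nat_lit 2222094014326946507773898881248457836798844400003654101238090) (.dwn (nat_lit 145264088350841664143691876409736172267731327376513487558866559596498252502027081304296) (nat_lit 627262528)) .nil .nil)) .nil .nil l295 = true := by decide +kernel
theorem cw1295 : wchk (nat_lit 5) [] [l295] (nat_lit 9874) (nat_lit 1) (nat_lit 0) (nat_lit 0) (nat_lit 78539968768) (nat_lit 0) w1295 = true := by decide +kernel
theorem cl296 : lchk (nat_lit 5) [] (nat_lit 17) (.nod (nat_lit 33554458) .nil .nil (.nod (nat_lit 3885341721382492210800193011819101485216662715067938927981250499316848173742620147972) .nil (.opn (nat_lit 3885371364157336963746223052929307968311348694146105673128866098030546453810164793378)) .dup)) (.nod (nat_lit 618973008015230078396924164) (.nod (nat_lit 210626403696617635533257567746273594861669831131009105722507002018) .nil (.opn (nat_lit 1895623070393532622802707943241716030477294116598302694793063432482)) .dup) .nil .nil) .nil .nil l296 = true := by decide +kernel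
theorem cw1296 : wchk (nat_lit 5) [] [l296] (nat_lit 1) (nat_lit 3) (nat_lit 1) (nat_lit 0) (nat_lit 5820672) (nat_lit 0) w1296 = true := by decide +kernel
theorem cl297 : lchk (nat_lit 5) [] (nat_lit 17) (.nod (nat_lit 33554458) .nil .nil (.nod (nat_lit 3885341721382492210800193011819101485216662715067938927981250499316848173742620147972) .nil (.opn (nat_lit 3885371364157336963746223052929307968311348694146105673128866098030546453810164793378)) .dup)) (.nod (nat_lit 618973008015230078396924164) (.nod (nat_lit 210626403696617635533257567746273594861669831131009105722507002018) .nil (.opn (nat_lit 1895623070393532622802707943241716030477294116598302694793063432482)) .dup) .nil (.opn (nat_lit 3885371364157336963746223052929307968311348694146105673128247129191495384389824545114))) .nil .nil l297 = true := by decide +kernel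
theorem cw1297 : wchk (nat_lit 5) [] [l297] (nat_lit 2) (nat_lit 3) (nat_lit 1) (nat_lit 0) (nat_lit 5820672) (nat_lit 0) w1297 = true := by decide +kernel
theorem cl298 : lchk (nat_lit 5) [w721, w42, w16, w39, w3, w1296, w15, w1297, w1051, w174, w747, w748, w746, w258, w259, w815, w762, w263] (nat_lit 22121472) .nil (.nod (nat_lit 273398067591963187999734137064660849411715273471428242003180476425) (.nod (nat_lit 2623828525391632559283359978900805378069363205898783900565898) (.nod (nat_lit 7855883161884606661050043587825773324487974258249104152498265479192) .nil (.dwn (nat_lit 61780095794998412770313497927775294375053200461560545688585786038272) (nat_lit 4921068544)) .dup) .nil (.dwn (nat_lit 5391906804844751363726555232710119574880094899346474305785822916138673571434223327280) (nat_lit 627262492))) .nil (.nod (nat_lit 2222094014326889742569069676683432374185383445727828592558410) (.opn (nat_lit 144995152423389215243775201559818466485999676551086416638199596759980123478582212368472)) .nil .nil)) .nil (.nod (nat_lit 5378635178744727130697148198868690833351573457174588398101379776916503647818895851530) .nil (.opn (nat_lit 20916667252104661266583244124394836136787081420772261490403924371189640338224482818176))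 .dup) l298 = true := by decide +kernel
theorem cw1298 : wchk (nat_lit 5) [] [l298] (nat_lit 18) (nat_lit 2) (nat_lit 2) (nat_lit 0) (nat_lit 156815616) (nat_lit 0) w1298 = true := by decide +kernel
theorem cl299 : lchk (nat_lit 5) [w42, w16, w39, w3, w642, w718, w241, w174, w581, w714, w712, w713, w259, w431, w959, w721, w267] (nat_lit 22709248) .nil (.nod (nat_lit 273398017375149304906288026378345463750383944652584686290904373249) (.nod (nat_lit 2623828525391632559283359978900805378069215631946194224152970) (.nod (nat_lit 271958295044019280419613885880449130174336166560721251504284702736) .nil (.dwn (nat_lit 273398011098047572869112986024547498614730192241952073957873375232) (nat_lit 4921656320)) .dup) .nil (.dwn (nat_lit 5015086924681538015264818832409262439008058236451922126403992953758871885525183830032) (nat_lit 626101268))) .nil (.nod (nat_lit 2222094014326900445527523878603641349568462783276741224825162) (.opn (nat_lit 144888910865672192888150166609219667390599252047938849465824413614594941910251828615240)) .nil .nil)) .nil (.nod (nat_lit 5378633326071299333638021421732930694345047804854833747852355145595159521208821612554) (.opn (nat_lit 20081687717604232486643441084659001373352084535808724101313209242388945127544569665648))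 .dup .dup) l299 = true := by decide +kernel
theorem cw1299 : wchk (nat_lit 5) [] [l299] (nat_lit 18) (nat_lit 2) (nat_lit 2) (nat_lit 0) (nat_lit 156815616) (nat_lit 0) w1299 = true := by decide +kernel
theorem cl300 : lchk (nat_lit 5) [w2, w37, w710, w448, w42, w162, w175, w711, w1295, w15, w220, w1298, w1299] (nat_lit 22114304) .nil (.nod (nat_lit 292295658992448913640107611270592921617376380678313885746326751241) (.nod (nat_lit 2623828525391648404665166340233364453701929923543342711308682) (.nod (nat_lit 7828616637149620114481150034752149840604576044482389249017283766296) .nil (.dwn (nat_lit 61780005806467934266858062699610111091373646742801998669657797746688) (nat_lit 4921061376)) (.dwn (nat_lit 61780005806467934266858062699610111091373646742801998669657797746688) (nat_lit 4921061376))) (.dwn (nat_lit 145157827340053649918899844977872886245884619618764705261638593868209323629240685848600) (nat_lit 626094080)) (.dwn (nat_lit 145157827340053649918899844977872886245884619618764705261638593868209323629240685848600) (nat_lit 626094080))) .nil (.nod (nat_lit 2222094014326900518701844061282246056852312220691037941662026) (.dwn (nat_lit 20933259795324011735679317791332847549984114195758194431840082767398389830814576044056)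 (nat_lit 626094080)) .nil .nil)) .nil (.nod (nat_lit 5391909583854893059340506376590086815107872328216657432362863194347170809000818114570) (.dwn (nat_lit 20664342394605840799668818304997317394434334951836972358164719839684692640403046295632) (nat_lit 90391600)) .nil .nil) l300 = true := by decide +kernel
theorem cw1300 : wchk (nat_lit 5) [] [l300] (nat_lit 2) (nat_lit 2) (nat_lit 0) (nat_lit 0) (nat_lit 22597888) (nat_lit 0) w1300 = true := by decide +kernel
theorem cl301 : lchk (nat_lit 5) [] (nat_lit 17) (.nod (nat_lit 33554442) .nil .nil .nil) (.nod (nat_lit 210624803035675111929662789619970676906114754383538778749829906692) (.nod (nat_lit 210626403696617635533257567746273594861050860484177117078664249491) (.nod (nat_lit 102761932556715518508350994178999805032372633610) .nil .nil (.dwn (nat_lit 11417993111248154405558862293804775183218639138) (nat_lit 1224736913))) .nil .nil) .nil .nil) .nil .nil l301 = true := by decide +kernel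
theorem cw1302 : wchk (nat_lit 5) [] [l301] (nat_lit 17) (nat_lit 3) (nat_lit 3) (nat_lit 0) (nat_lit 5820672) (nat_lit 0) w1302 = true := by decide +kernel
theorem cl302 : lchk (nat_lit 5) [w39, w67, w86, w1302, w389, w648, w745, w740, w650] (nat_lit 23282688) (.nod (nat_lit 210624796758573376542982025784181253698448346010369101170131075210) (.nod (nat_lit 3334859652338817535769479168) .nil .nil .nil) .nil (.dwn (nat_lit 20933253310967014439278551370055057737723449336104754886663459923505317799229325836890) (nat_lit 90391552))) (.nod (nat_lit 129326424018777420469063219877932151912318225758482723097330844051) (.nod (nat_lit 52682728382896651579000857868341391920981868938) .nil .nil (.dwn (nat_lit 11417993111248154383037022567158712945550033042) (nat_lit 614281224))) .nil (.nod (nat_lit 5391904952171323566376754567417570231235648749391118758009332195254415920582335922186) (.dwn (nat_lit 145126286501282118885836342592212397043507940653274467183495871017553601652980891275328) (nat_lit 627262464)) .nil .nil)) .nil .nil l302 = true := by decide +kernel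
theorem cw1303 : wchk (nat_lit 5) [] [l302] (nat_lit 2) (nat_lit 2) (nat_lit 3) (nat_lit 0) (nat_lit 22597888) (nat_lit 0) w1303 = true := by decide +kernel
theorem cw1304 : wchk (nat_lit 5) [] [l28] (nat_lit 19) (nat_lit 3) (nat_lit 1) (nat_lit 0) (nat_lit 5657600) (nat_lit 0) w1304 = true := by decide +kernel
theorem cw1305 : wchk (nat_lit 5) [w1304, w16] [] (nat_lit 19) (nat_lit 1) (nat_lit 3) (nat_lit 2) (nat_lit 627262464) (nat_lit 89925636) w1305 = true := by decide +kernel
theorem cw1306 : wchk (nat_lit 5) [w488, w16] [] (nat_lit 19) (nat_lit 1) (nat_lit 2) (nat_lit 2) (nat_lit 626610176) (nat_lit 90384388) w1306 = true := by decide +kernel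
theorem cl303 : lchk (nat_lit 5) [w3, w67, w96, w871, w12, w13] (nat_lit 660809728) .nil .nil (.nod (nat_lit 7729185766884302127515) (.nod (nat_lit 7710739022810592575898) .nil .nil (.nod (nat_lit 7010799494047000017627999138960688102621839386) .nil (.dwn (nat_lit 20931593315575708274300869067883494684421034649965446531383926732651400541720316739986) (nat_lit 90384384)) .dup)) .nil (.nod (nat_lit 20694215827292354479544857572194435215122716382427016770135265791856942317641115107674) (.opn (nat_lit 207158890494864242061877590221733042646805116370765545874173746542628504182034563223592)) .nil .nil)) .nil l303 = true := by decide +kernel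
theorem cw1307 : wchk (nat_lit 5) [] [l303] (nat_lit 19) (nat_lit 1) (nat_lit 1) (nat_lit 0) (nat_lit 156815616) (nat_lit 0) w1307 = true := by decide +kernel
theorem cw1308 : wchk (nat_lit 5) [w143, w16] [] (nat_lit 19) (nat_lit 1) (nat_lit 3) (nat_lit 2) (nat_lit 614281216) (nat_lit 89925636) w1308 = true := by decide +kernel
theorem cw1309 : wchk (nat_lit 5) [] [l16] (nat_lit 0) (nat_lit 1) (nat_lit 1) (nat_lit 1) (nat_lit 5818880) (nat_lit 0) w1309 = true := by decide +kernel
theorem cw1310 : wchk (nat_lit 5) [] [l16] (nat_lit 0) (nat_lit 1) (nat_lit 1) (nat_lit 1) (nat_lit 5818880) (nat_lit 0) w1310 = true := by decide +kernel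
theorem cw1311 : wchk (nat_lit 5) [] [l48] (nat_lit 147) (nat_lit 0) (nat_lit 1) (nat_lit 1) (nat_lit 156700928) (nat_lit 0) w1311 = true := by decide +kernel
theorem cw1312 : wchk (nat_lit 5) [] [l134] (nat_lit 1) (nat_lit 3) (nat_lit 2) (nat_lit 0) (nat_lit 5528576) (nat_lit 0) w1312 = true := by decide +kernel
theorem cl304 : lchk (nat_lit 5) [w181, w16, w14, w67, w143, w259, w1307, w1311, w1312, w937, w1303, w1305, w1306, w282, w1308, w1309, w702, w1310] (nat_lit 22823936) .nil .nil (.nod (nat_lit 816138431056160227833632777) (.nod (nat_lit 292205720678784293278123372079737202172966473840244627870381506970) (.nod (nat_lit 7659258222789076610996241533509871970197738014957303242833872316448) (.nod (nat_lit 3349222796388579777809241980692439337228117116976) .nil .nil (.dwn (nat_lit 26733609973384633007960398049438832931023112144896) (nat_lit 39281509376))) (.dwn (nat_lit 1139910541717343956579016802988785848265161092205870044995954424283465750127893071222856) (nat_lit 4921771008)) (.dwn (nat_lit 1139910541717343956579016802988785848265161092205870044995954424283465750127893071222856) (nat_lit 4921771008))) .nil (.nod (nat_lit 7659258222789076610950574509791341483964315980772888667954246871072)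 (.dwn (nat_lit 1139910545422690812233373687578339334866757039810092374608445897933019889852713721563184) (nat_lit 4922229816)) .nil .nil)) .nil (.dwn (nat_lit 5391916068211890410927909404103462691592344920249565701111252158421330904655771730266) (nat_lit 23282756))) .nil l304 = true := by decide +kernel
theorem cw1313 : wchk (nat_lit 5) [] [l304] (nat_lit 19) (nat_lit 2) (nat_lit 0) (nat_lit 0) (nat_lit 156815616) (nat_lit 0) w1313 = true := by decide +kernel
theorem cw1315 : wchk (nat_lit 5) [w16, w181] [] (nat_lit 147) (nat_lit 0) (nat_lit 1) (nat_lit 2) (nat_lit 89796608) (nat_lit 626796548) w1315 = true := by decide +kernel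
theorem cw1316 : wchk (nat_lit 5) [] [l14] (nat_lit 145) (nat_lit 1) (nat_lit 2) (nat_lit 0) (nat_lit 1230557440) (nat_lit 0) w1316 = true := by decide +kernel
theorem cl305 : lchk (nat_lit 5) [w831, w1316, w619, w22, w4, w33, w10] (nat_lit 23282688) (.nod (nat_lit 618973008015230078430478490) (.nod (nat_lit 15845379084102397192160979177741529209049710618) (.nod (nat_lit 145264062413413674984864100073547927711931133519057751822780702801484093470000502179840) (.opn (nat_lit 1139910535232986959349548489701490887505100468562454253887548771423345327171782016665600)) .dup .dup) (.dwn (nat_lit 145264062413413674984864100073547927711931133519057751822780702801484093470000502179840) (nat_lit 627262464)) .dup) .nil .nil) (.nod (nat_lit 618970646831988643607871514) .nil .nil (.nod (nat_lit 15845379084102397192160979177741529209049710618) (.dwn (nat_lit 144915465233912808136628751148175895528530451270080600680332653334541673837231336753192) (nat_lit 627262488)) .nil .nil)) .nil .nil l305 = true := by decide +kernel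
theorem cw1317 : wchk (nat_lit 5) [] [l305] (nat_lit 2) (nat_lit 2) (nat_lit 1) (nat_lit 0) (nat_lit 22597888) (nat_lit 0) w1317 = true := by decide +kernel
theorem cl306 : lchk (nat_lit 5) [w42, w181, w56, w267, w638, w220, w16, w710, w3, w461, w39, w1317, w281, w712, w713, w581, w714] (nat_lit 21777408) (.nod (nat_lit 15533168651322968468488964131745797216707543066) (.nod (nat_lit 20584656131466147591030874016007470581354911583158349323363201386470812266757275969576) (.opn (nat_lit 144915463381239380339550816617519686518422995119334271393599792438078356543554155223040)) .dup .dup) (.dwn (nat_lit 20584656131466147591030874016007470581354911583158349323363201386470812266757275969576) (nat_lit 88886272)) .dup) .nil (.nod (nat_lit 816139168925923176215697457) (.nod (nat_lit 271958546128088695886844439312026058480176944110443772242930172314) .nil (.dwn (nat_lit 292206015702565856878972982419232990220022420909606353787760052304) (nat_lit 625757184)) (.dwn (nat_lit 292206015702565856878972982419232990220022420909606353787760052304) (nat_lit 625757184))) .nil (.nod (nat_lit 5391912362865034754905555658966896352658094818212710462403411295760839509586246369626) (.dwn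 (nat_lit 145264074455790955665748424827965762978781483639145677050446635626446959129123767093376) (nat_lit 625757184)) .nil .nil)) .nil l306 = true := by decide +kernel
theorem cw1318 : wchk (nat_lit 5) [] [l306] (nat_lit 3) (nat_lit 2) (nat_lit 2) (nat_lit 0) (nat_lit 22597888) (nat_lit 0) w1318 = true := by decide +kernel
theorem cw1319 : wchk (nat_lit 5) [] [l199] (nat_lit 33) (nat_lit 2) (nat_lit 1) (nat_lit 0) (nat_lit 156815616) (nat_lit 0) w1319 = true := by decide +kernel
theorem cw1320 : wchk (nat_lit 5) [] [l267] (nat_lit 0) (nat_lit 3) (nat_lit 3) (nat_lit 0) (nat_lit 5704192) (nat_lit 0) w1320 = true := by decide +kernel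
theorem cw1321 : wchk (nat_lit 5) [] [l168] (nat_lit 0) (nat_lit 0) (nat_lit 3) (nat_lit 1) (nat_lit 5661184) (nat_lit 0) w1321 = true := by decide +kernel
theorem cl307 : lchk (nat_lit 5) [w801, w56, w916, w581, w1193, w16, w910, w718, w1319, w160, w261, w1190, w1320, w799, w638, w796, w1321] (nat_lit 23160832) (.nod (nat_lit 14825816889557075265591515934974075934705405960) .nil (.dwn (nat_lit 20933255163640442235202884211343827088001475852540732911613552076256755965294456295448) (nat_lit 90391568)) (.dwn (nat_lit 20933255163640442235202884211343827088001475852540732911613552076256755965294456295448) (nat_lit 90391568))) .nil (.nod (nat_lit 15762459417213469828539160925479116415616372777) (.nod (nat_lit 14825822334074946000606931644115700022349615128) .nil (.dwn (nat_lit 7874690915405055532531131413327039029378000625812916425515934763064) (nat_lit 627140608)) (.dwn (nat_lit 7874690915405055532531131413327039029378000625812916425515934763064) (nat_lit 627140608))) .nil (.nod (nat_lit 5391909583854893059024569288162956251882427412570005340573003421064300738024775665736) (.dwn (nat_lit 20933262574334153424574185808118811146845502150448538782614537566658814142880631392352)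 (nat_lit 627140608)) .nil .nil)) (.nod (nat_lit 290766450298979216647875474599064003448794694305659683070683566192) .nil (.dwn (nat_lit 291576447506913513934075017943836484527418302207892656053737392256) (nat_lit 90269696)) (.dwn (nat_lit 291576447506913513934075017943836484527418302207892656053737392256) (nat_lit 90269696))) l307 = true := by decide +kernel
theorem cw1322 : wchk (nat_lit 5) [] [l307] (nat_lit 3) (nat_lit 2) (nat_lit 1) (nat_lit 0) (nat_lit 22597888) (nat_lit 0) w1322 = true := by decide +kernel
theorem cw1325 : wchk (nat_lit 5) [] [l0] (nat_lit 3) (nat_lit 0) (nat_lit 3) (nat_lit 1) (nat_lit 5557248) (nat_lit 0) w1325 = true := by decide +kernel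
theorem cw1326 : wchk (nat_lit 5) [] [l0] (nat_lit 3) (nat_lit 0) (nat_lit 4) (nat_lit 1) (nat_lit 4508928) (nat_lit 0) w1326 = true := by decide +kernel
theorem cl308 : lchk (nat_lit 5) [w42, w50, w1, w368, w1325, w170, w1326, w581, w712, w175, w461, w3, w39, w181, w431, w267, w721, w959] (nat_lit 22823936) .nil (.nod (nat_lit 651384509201804045625905161) .nil (.nod (nat_lit 292205714401682557906883094867557225265443973797904671066487259546) (.nod (nat_lit 1134794136714246321543206965489582590823168390380356991047699957808) .nil (.dwn (nat_lit 61788914670985306108946150287963256175649464899898153543528638613504) (nat_lit 4921771008)) .dup) (.dwn (nat_lit 144915469865596377622536671462974928314294175700726108385005333621660320017988485285936) (nat_lit 626803712)) (.dwn (nat_lit 144915469865596377622536671462974928314294175700726108385005333621660320017988485285936) (nat_lit 626803712))) (.nod (nat_lit 279067740469518235052734300981174133156397827792625959170855666074) .nil (.dwn (nat_lit 145247471722867752312799796570046583621102517560206988263690566815773646319240605243488) (nat_lit 626803712)) (.dwn (nat_lit 145247471722867752312799796570046583621102517560206988263690566815773646319240605243488)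 (nat_lit 626803712)))) .nil (.nod (nat_lit 5043315183364167906378000366374601131516545920513201515494380371695180682846802018394) (.dwn (nat_lit 18139494036112733361392337265167213094818845200462429137343281861407529448333835933832) (nat_lit 89932800)) .nil .nil) l308 = true := by decide +kernel
theorem cw1327 : wchk (nat_lit 5) [] [l308] (nat_lit 1) (nat_lit 2) (nat_lit 2) (nat_lit 0) (nat_lit 5820672) (nat_lit 0) w1327 = true := by decide +kernel
theorem cw1330 : wchk (nat_lit 5) [] [l176] (nat_lit 1) (nat_lit 3) (nat_lit 2) (nat_lit 0) (nat_lit 5820672) (nat_lit 0) w1330 = true := by decide +kernel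
theorem cw1331 : wchk (nat_lit 5) [] [l168] (nat_lit 3) (nat_lit 1) (nat_lit 1) (nat_lit 0) (nat_lit 22567424) (nat_lit 0) w1331 = true := by decide +kernel
theorem cw1332 : wchk (nat_lit 5) [] [l207] (nat_lit 1) (nat_lit 2) (nat_lit 1) (nat_lit 0) (nat_lit 30984704) (nat_lit 0) w1332 = true := by decide +kernel
theorem cl309 : lchk (nat_lit 5) [w50, w341, w726, w676, w42, w1231, w164, w284, w15, w16, w24, w209, w1332, w366, w932, w871, w1331, w1226, w946, w1227] (nat_lit 13455360) (.nod (nat_lit 856335196111602574186272776) .nil (.nod (nat_lit 18157742869376534392668535803450459743889714390718264261318476137913574548568786600346) (.dwn (nat_lit 144917127081977542098664840419673018459747899493744889111563132585537950613802251931696) (nat_lit 617435136)) .nil .nil) .dup) .nil (.nod (nat_lit 1134704305111311202328698146980677589031402845255539883016676442202) (.nod (nat_lit 1133894452276716818952396719835022423995659866697556864668714485833) .nil (.nod (nat_lit 426853712779651832676539306967346713718691223640) .nil (.dwn (nat_lit 1137634681551506207103474753762628039338133951501849096170027244072483602225189231435776) (nat_lit 4912402432)) .dup) (.dwn (nat_lit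 292296205100299892297130685688583770446180881731066568840565778520) (nat_lit 617435136))) (.nod (nat_lit 20586326316561306639845182386880553753500844014127085401594995028481173933612084711544) (.dwn (nat_lit 145264077234801097361336395236076016808928440842962345148194207583513710138327455942808) (nat_lit 617435136)) .nil .nil) (.nod (nat_lit 20586326316561306639845182386880553753500844014127085401594995028481173933612084711544) (.dwn (nat_lit 145264077234801097361336395236076016808928440842962345148194207583513710138327455942808) (nat_lit 617435136)) .nil .nil)) .nil l309 = true := by decide +kernel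
theorem cw1333 : wchk (nat_lit 5) [] [l309] (nat_lit 0) (nat_lit 3) (nat_lit 2) (nat_lit 0) (nat_lit 5820672) (nat_lit 0) w1333 = true := by decide +kernel
theorem cw1334 : wchk (nat_lit 5) [] [l168] (nat_lit 3) (nat_lit 1) (nat_lit 1) (nat_lit 0) (nat_lit 22567424) (nat_lit 0) w1334 = true := by decide +kernel
theorem cw1335 : wchk (nat_lit 5) [] [l81] (nat_lit 3) (nat_lit 1) (nat_lit 1) (nat_lit 0) (nat_lit 22579968) (nat_lit 0) w1335 = true := by decide +kernel

end Pool.Agent.W319.GCI.K5
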