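import Pool.Agent.W319.GCI.K5D0
import Pool.Agent.W319.GCI.K5D1
import Pool.Agent.W319.GCI.K5D2
import Pool.Agent.W319.GCI.K5D3
import Pool.Agent.W319.GCI.K5D4
import Pool.Agent.W319.GCI.K5D5
import Pool.Agent.W319.GCI.K5D6
import Pool.Agent.W319.GCI.K5D7
import Pool.Agent.W319.GCI.K5D8
import Pool.Agent.W319.GCI.K5D9
import Pool.Agent.W319.GCI.K5D10
import Pool.Agent.W319.GCI.K5D11
import Pool.Agent.W319.GCI.K5D12
import Pool.Agent.W319.GCI.K5D13
import Pool.Agent.W319.GCI.K5D14
import Pool.Agent.W319.GCI.K5D15
set_option autoImplicit false
set_option maxRecDepth 100000
set_option linter.all false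
namespace Pool.Agent.W319.GCI.K5
open Pool.Agent.W319.GCI

theorem cl310 : lchk (nat_lit 5) [w24, w17, w618, w42, w442, w164, w16, w15, w220, w83, w1334, w438, w1335] (nat_lit 23225344) (.nod (nat_lit 823014178208474357555709960) .nil (.nod (nat_lit 20556436209813942785289429014817634272782285820736775743121632800874182284433327915418) (.dwn (nat_lit 144917126155640828200130147634651049810191660611177684474382530361247709508010834612264) (nat_lit 627205120)) .nil .nil) .dup) .nil (.nod (nat_lit 1133894358120190788136378887399822257418400326127829799715408445530) (.nod (nat_lit 1133894402059902935843144234250348219874757062670228036143792957504) .nil .nil (.dwn (nat_lit 291575744471519150609984048417434657564603031812952224449595885576) (nat_lit 627205120))) (.nod (nat_lit 20586322611214451045726928782392219592394078279349296217038404295841172358681827954752) (.dwn (nat_lit 145264071676780813973523878590524408370721985360105696457978390090968452882797501515872) (nat_lit 627205120)) .nil .nil) .dup) .nil l310 = true := by decide +kernel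
theorem cw1336 : wchk (nat_lit 5) [] [l310] (nat_lit 17) (nat_lit 3) (nat_lit 2) (nat_lit 0) (nat_lit 5788416) (nat_lit 0) w1336 = true := by decide +kernel
theorem cw1339 : wchk (nat_lit 5) [] [] (nat_lit 1) (nat_lit 1) (nat_lit 4) (nat_lit 2) (nat_lit 169) (nat_lit 205) w1339 = true := by decide +kernel
theorem cw1342 : wchk (nat_lit 5) [] [l176] (nat_lit 1) (nat_lit 1) (nat_lit 3) (nat_lit 0) (nat_lit 22454528) (nat_lit 0) w1342 = true := by decide +kernel
theorem cw1343 : wchk (nat_lit 5) [] [l178] (nat_lit 1) (nat_lit 1) (nat_lit 0) (nat_lit 0) (nat_lit 22449152) (nat_lit 0) w1343 = true := by decide +kernel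
theorem cw1346 : wchk (nat_lit 5) [] [l222] (nat_lit 0) (nat_lit 3) (nat_lit 3) (nat_lit 0) (nat_lit 5661184) (nat_lit 0) w1346 = true := by decide +kernel
theorem cw1347 : wchk (nat_lit 5) [] [l222] (nat_lit 4) (nat_lit 0) (nat_lit 3) (nat_lit 1) (nat_lit 5661184) (nat_lit 0) w1347 = true := by decide +kernel
theorem cw1348 : wchk (nat_lit 5) [] [l222] (nat_lit 4) (nat_lit 0) (nat_lit 3) (nat_lit 1) (nat_lit 5661184) (nat_lit 0) w1348 = true := by decide +kernel
theorem cw1350 : wchk (nat_lit 5) [w16] [] (nat_lit 1) (nat_lit 1) (nat_lit 4) (nat_lit 2) (nat_lit 80578560) (nat_lit 205) w1350 = true := by decide +kernel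
theorem cw1351 : wchk (nat_lit 5) [] [l178] (nat_lit 2) (nat_lit 3) (nat_lit 3) (nat_lit 0) (nat_lit 22454528) (nat_lit 0) w1351 = true := by decide +kernel
theorem cw1352 : wchk (nat_lit 5) [] [l227] (nat_lit 2) (nat_lit 3) (nat_lit 3) (nat_lit 0) (nat_lit 21680384) (nat_lit 0) w1352 = true := by decide +kernel
theorem cw1353 : wchk (nat_lit 5) [] [l228] (nat_lit 2) (nat_lit 3) (nat_lit 3) (nat_lit 0) (nat_lit 21680384) (nat_lit 0) w1353 = true := by decide +kernel
theorem cw1354 : wchk (nat_lit 5) [] [l229] (nat_lit 2) (nat_lit 3) (nat_lit 3) (nat_lit 0) (nat_lit 21680384) (nat_lit 0) w1354 = true := by decide +kernel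
theorem cw1355 : wchk (nat_lit 5) [] [l57] (nat_lit 34) (nat_lit 0) (nat_lit 3) (nat_lit 1) (nat_lit 22221568) (nat_lit 0) w1355 = true := by decide +kernel
theorem cw1356 : wchk (nat_lit 5) [w42] [] (nat_lit 0) (nat_lit 1) (nat_lit 2) (nat_lit 2) (nat_lit 16777297) (nat_lit 21784576) w1356 = true := by decide +kernel
theorem cl314 : lchk (nat_lit 5) [w932, w259, w1356, w42, w69, w1, w142, w1351, w557, w15, w261, w1352, w1353, w1354, w912, w815, w1355, w572, w917] (nat_lit 22823936) (.nod (nat_lit 15533168651322968467560508475092463504397338632) .nil (.dwn (nat_lit 20933255163640442236337678247624445642916867352035169681187424928902421058780238184850) (nat_lit 90391560)) .dup) (.nod (nat_lit 11418014889319637301237301003744316304272654418) .nil (.nod (nat_lit 60448968342802811826374022599518878399416934432) (.nod (nat_lit 425868287712156019296444510523121223070664665136) .nil (.dwn (nat_lit 61788914670985306108946150287963256175649464899898153543528638613504) (nat_lit 4921771008)) (.dwn (nat_lit 61788914670985306108946150287963256175649464899898153543528638613504) (nat_lit 4921771008))) .nil (.nod (nat_lit 144900530833411336035133109892058801113646426364932327656266694847985127538194207952968)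 (.dwn (nat_lit 20933262574334153485234065809207750688134664780237239364434683681752882336582855198816) (nat_lit 4921771008)) .nil .nil)) (.nod (nat_lit 292296305533927658483759493119851575620544637381350507235218196600) (.opn (nat_lit 145264077234801097361317587633206009586378161335604955880114076198807901604122107480208)) (.dwn (nat_lit 145264077234801097361317587633206009586378161335604955880114076198807901604122107480208) (nat_lit 626803712)) .dup)) .nil .nil l314 = true := by decide +kernel
theorem cw1357 : wchk (nat_lit 5) [] [l314] (nat_lit 26) (nat_lit 2) (nat_lit 1) (nat_lit 0) (nat_lit 156815616) (nat_lit 0) w1357 = true := by decide +kernel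
theorem cw1359 : wchk (nat_lit 5) [w69] [] (nat_lit 17) (nat_lit 1) (nat_lit 3) (nat_lit 2) (nat_lit 89223168) (nat_lit 209) w1359 = true := by decide +kernel
theorem cw1360 : wchk (nat_lit 5) [w69] [] (nat_lit 17) (nat_lit 1) (nat_lit 3) (nat_lit 2) (nat_lit 89739264) (nat_lit 209) w1360 = true := by decide +kernel
theorem cw1361 : wchk (nat_lit 5) [] [l81] (nat_lit 1) (nat_lit 1) (nat_lit 0) (nat_lit 0) (nat_lit 22565632) (nat_lit 0) w1361 = true := by decide +kernel
theorem cw1362 : wchk (nat_lit 5) [] [l268] (nat_lit 1) (nat_lit 1) (nat_lit 0) (nat_lit 0) (nat_lit 22579968) (nat_lit 0) w1362 = true := by decide +kernel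
theorem cw1367 : wchk (nat_lit 5) [w154] [] (nat_lit 0) (nat_lit 0) (nat_lit 3) (nat_lit 2) (nat_lit 16777297) (nat_lit 22114304) w1367 = true := by decide +kernel
theorem cl316 : lchk (nat_lit 5) [w281, w48, w158, w91, w4, w33, w1, w10, w109] (nat_lit 23282688) (.nod (nat_lit 618971827423609361019175002) .nil .nil (.nod (nat_lit 14786790585459646674911205550986752298812702746) (.dwn (nat_lit 20800455532335949038010518472487607439135271789084842688986763161412686412366988333096) (nat_lit 627140632)) .nil .nil)) (.nod (nat_lit 618973008015230078430478490) .nil (.nod (nat_lit 1134704298834209467002832233977640112152120203413182829723486519706) (.nod (nat_lit 7874780602634650737836971441833919147300788064902923078205125855232) .nil (.dwn (nat_lit 61794673936935930330094004890534986331140902900445162754919889274880) (nat_lit 4922229760)) .dup) (.dwn (nat_lit 145264062413413674984864100073547927711931133519057751822780702801484093470000502179840) (nat_lit 627262464)) (.dwn (nat_lit 145264062413413674984864100073547927711931133519057751822780702801484093470000502179840) (nat_lit 627262464))) (.nod (nat_lit 1134704298834209467002832233977640112152120203413182829723486519706)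 (.opn (nat_lit 145264062413413674984864100073547927711931133519057751822780702801484093470000502179840)) .dup .dup)) .nil .nil l316 = true := by decide +kernel
theorem cw1369 : wchk (nat_lit 5) [] [l316] (nat_lit 2) (nat_lit 3) (nat_lit 2) (nat_lit 0) (nat_lit 5820672) (nat_lit 0) w1369 = true := by decide +kernel
theorem cw1370 : wchk (nat_lit 5) [] [l43] (nat_lit 0) (nat_lit 3) (nat_lit 2) (nat_lit 0) (nat_lit 5530368) (nat_lit 0) w1370 = true := by decide +kernel
theorem cw1371 : wchk (nat_lit 5) [] [l0] (nat_lit 1) (nat_lit 1) (nat_lit 4) (nat_lit 0) (nat_lit 21666048) (nat_lit 0) w1371 = true := by decide +kernel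
theorem cw1372 : wchk (nat_lit 5) [] [l43] (nat_lit 3) (nat_lit 1) (nat_lit 1) (nat_lit 0) (nat_lit 22339840) (nat_lit 0) w1372 = true := by decide +kernel
theorem cw1375 : wchk (nat_lit 5) [] [l15] (nat_lit 1) (nat_lit 0) (nat_lit 4) (nat_lit 0) (nat_lit 3367424) (nat_lit 0) w1375 = true := by decide +kernel
theorem cw1376 : wchk (nat_lit 5) [] [l42] (nat_lit 33) (nat_lit 0) (nat_lit 3) (nat_lit 1) (nat_lit 5562624) (nat_lit 0) w1376 = true := by decide +kernel
theorem cl319 : lchk (nat_lit 5) [w150, w158, w53, w432, w33, w915, w1375, w1376, w1120] (nat_lit 22250496) (.nod (nat_lit 928456837244954429760733274) (.nod (nat_lit 5244163509671647086311909654131270828977300695700294658928025696678856290220493504922) .nil .nil (.dwn (nat_lit 145038304892869464337095891592861538334337018167080923715701216040136627748085064704024) (nat_lit 626230272))) .nil (.nod (nat_lit 5391905878508037464906315733891435973869678548175956434812915839314099078338176876634) .nil (.dwn (nat_lit 145262407049705938304659544100111592772190301524099300226651100164734567049733229414456) (nat_lit 626230272)) .dup)) .nil (.nod (nat_lit 618970646831988643607871642) .nil (.dwn (nat_lit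 20827021016617131067814356469721696314859713246979206196748957371573936956817790730650) (nat_lit 89359360)) .dup) .nil l319 = true := by decide +kernel
theorem cw1377 : wchk (nat_lit 5) [] [l319] (nat_lit 3) (nat_lit 1) (nat_lit 1) (nat_lit 0) (nat_lit 22597888) (nat_lit 0) w1377 = true := by decide +kernel
theorem cw1378 : wchk (nat_lit 5) [] [l138] (nat_lit 0) (nat_lit 2) (nat_lit 3) (nat_lit 0) (nat_lit 5530368) (nat_lit 0) w1378 = true := by decide +kernel
theorem cw1379 : wchk (nat_lit 5) [] [l228] (nat_lit 35) (nat_lit 1) (nat_lit 2) (nat_lit 0) (nat_lit 20533504) (nat_lit 0) w1379 = true := by decide +kernel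
theorem cw1380 : wchk (nat_lit 5) [] [l42] (nat_lit 33) (nat_lit 0) (nat_lit 3) (nat_lit 1) (nat_lit 5562624) (nat_lit 0) w1380 = true := by decide +kernel
theorem cw1381 : wchk (nat_lit 5) [] [l37] (nat_lit 1) (nat_lit 0) (nat_lit 4) (nat_lit 0) (nat_lit 3433728) (nat_lit 0) w1381 = true := by decide +kernel
theorem cl320 : lchk (nat_lit 5) [w149, w33, w1380, w1376, w1381, w1379, w431, w430, w429] (nat_lit 18064384) (.nod (nat_lit 928456837244954429760733274) (.nod (nat_lit 4541985459149139300790360983952506243701339385982001182997335832973637666701465092506) .nil .nil (.dwn (nat_lit 144055585768542786873302115140203724685912803047290824945534730496553960188511127029760) (nat_lit 622044160))) .nil (.nod (nat_lit 5391903099497895769317625568187795765359890061529547653336855769211092310060594888704) .nil (.dwn (nat_lit 145264064266087102781877152873729135731037570562585145472280600434137819003915956387840) (nat_lit 622044160)) .dup)) .nil (.nod (nat_lit 618970646831988643607871642) .nil (.nod (nat_lit 20933257942650583930791574377047467296557868015641799581513300292795977747820653314458) (.dwn (nat_lit 143413173110127584425815477885343934145499061947964997525527075777501679021831066396736)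 (nat_lit 622044160)) .nil .nil) .dup) .nil l320 = true := by decide +kernel
theorem cl321 : lchk (nat_lit 5) [w15, w1, w33, w148, w150, w149, w638, w281, w1371] (nat_lit 23211008) (.nod (nat_lit 928456837244954429760733274) (.nod (nat_lit 20919974274173279016852582313647270619768979898416018983127160567726840627593819980186) .nil .nil (.dwn (nat_lit 145247462459500613327213396334502431476051161221203204566049916647979441827630182324224) (nat_lit 627190784))) .nil (.nod (nat_lit 5391904025834609667847188956755675834863152890411683913828875792578761232819811254362) (.opn (nat_lit 145025025856075728923666538927413743777266180879454816352563701284374283207303175292968)) (.dwn (nat_lit 145116328381607709693022806343377034227359847377769719584413921268705381519439851636776) (nat_lit 627190784)) .dup)) .nil (.nod (nat_lit 618970646831988643607871642) .nil (.dwn (nat_lit 20931599799932705562873108840542142885717414073193917657945082886545350292541580247450) (nat_lit 90391584)) .dup) .nil l321 = true := by decide +kernel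
theorem cw1383 : wchk (nat_lit 5) [] [l321] (nat_lit 3) (nat_lit 1) (nat_lit 1) (nat_lit 0) (nat_lit 22597888) (nat_lit 0) w1383 = true := by decide +kernel
theorem cl322 : lchk (nat_lit 5) [] (nat_lit 145) (.nod (nat_lit 3885349132076203398826075323603568664711201313452095912579336393487348835301468406020) .nil .nil (.opn (nat_lit 3885371364157336963535596649232690332789509206623366164387816954311402981522157863010))) (.nod (nat_lit 50331787) .nil (.nod (nat_lit 210624796758573376542982025784181253698448338281183334285795393796) .nil .nil (.dwn (nat_lit 210624796758573376554400106007715339819069030415415450589940678690) (nat_lit 16777361))) .nil) .nil .nil l322 = true := by decide +kernel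
theorem cw1384 : wchk (nat_lit 5) [] [l322] (nat_lit 1) (nat_lit 3) (nat_lit 3) (nat_lit 0) (nat_lit 5820672) (nat_lit 0) w1384 = true := by decide +kernel
theorem cw1385 : wchk (nat_lit 5) [w1384, w16] [] (nat_lit 3) (nat_lit 1) (nat_lit 3) (nat_lit 2) (nat_lit 90391552) (nat_lit 22709252) w1385 = true := by decide +kernel
theorem cw1386 : wchk (nat_lit 5) [] [l1] (nat_lit 1) (nat_lit 1) (nat_lit 4) (nat_lit 0) (nat_lit 21318400) (nat_lit 0) w1386 = true := by decide +kernel
theorem cw1388 : wchk (nat_lit 5) [] [l48] (nat_lit 1) (nat_lit 0) (nat_lit 3) (nat_lit 1) (nat_lit 5671936) (nat_lit 0) w1388 = true := by decide +kernel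
theorem cw1390 : wchk (nat_lit 5) [] [l171] (nat_lit 3) (nat_lit 0) (nat_lit 1) (nat_lit 0) (nat_lit 5806336) (nat_lit 0) w1390 = true := by decide +kernel
theorem cl324 : lchk (nat_lit 5) [w154, w161, w1115, w148, w150, w430, w151, w1371, w1087, w160, w159, w923] (nat_lit 22250496) (.nod (nat_lit 928456837244954429760733274) (.nod (nat_lit 20785514647477479653667604908719422082162227334284001545136390125612474416226409382298) .nil .nil (.opn (nat_lit 145025023077065587220216026306597101796554587411587245138265745416376357510580107937792))) .nil (.nod (nat_lit 20827015458596847676636976138314415897840136273686388633796837230187331799545316114522) (.dwn (nat_lit 145025025856075728923666538927413743777266180879454816352563139851667867800922986293288) (nat_lit 626230272)) .nil .nil)) .nil (.nod (nat_lit 618970646831988643607871642) .nil (.nod (nat_lit 20694219532639210072547844601299172188094663467026188397222330335933466508973788103066) .nil (.opn (nat_lit 145264068897770672266696263190888437461043894591259946406516017461494142701562139936824)) .dup) (.nod (nat_lit 20827021016617131067814356469721696314859713246979206196748957371573936956817790730650) (.dwn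 (nat_lit 145116331160617851388616446179557875424478981771778431460673775514538539159580717764696) (nat_lit 626230272)) .nil .nil)) .nil l324 = true := by decide +kernel
theorem cl325 : lchk (nat_lit 5) [w152, w168, w281, w174, w815, w431, w1371, w4, w866, w926, w160, w170, w927] (nat_lit 22121472) (.nod (nat_lit 928456837244954429760733274) (.nod (nat_lit 20556435283477228886759865626249754203279344961585702203868726399435332559036940812698) .nil .nil (.opn (nat_lit 144995143160022076250619364661057579899308778989400026707667871668847584990379351676928))) .nil (.dwn (nat_lit 5015085998344824116463297148797363089145674397346508090092510463683760151994522665050) (nat_lit 74141716))) .nil (.nod (nat_lit 618970646831988643607871642) .nil (.nod (nat_lit 20931595168249136070225291897702742538139665551706491342486875488399041845456181133722) .nil (.dwn (nat_lit 145264067971433958376041480706256091427084494428273748179926944009221263619252912818224) (nat_lit 626101248)) .dup) (.nod (nat_lit 5391908657518179160495005899595076182424202332412876581678404269159626939968245465498) (.dwn (nat_lit 145262410755052793906633051248072067368718482318079588927229920094998645304878045745248)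 (nat_lit 626101248)) .nil .nil)) .nil l325 = true := by decide +kernel
theorem cw1393 : wchk (nat_lit 5) [] [l64] (nat_lit 3) (nat_lit 2) (nat_lit 4) (nat_lit 0) (nat_lit 21680384) (nat_lit 0) w1393 = true := by decide +kernel
theorem cl326 : lchk (nat_lit 5) [w153, w281, w819, w429, w1371, w33, w927, w923, w981, w1393] (nat_lit 22250496) (.nod (nat_lit 928456837244954429760733338) (.nod (nat_lit 20931594241912422171695728509134862468697837099901100094992962738628597733175890805146) .nil .nil (.opn (nat_lit 145025023077065587220216026306597101796554587411587245138265745416376357510580107937792))) .nil (.dwn (nat_lit 20827015458596847676636976138314415897840136273686388633796837230187331799545316114522) (nat_lit 74141708))) .nil (.nod (nat_lit 618970646831988643607871642) .nil (.nod (nat_lit 20931594241912422171695728509134862468697837099901100094992962738628597733175890805146) .nil (.dwn (nat_lit 145264066118760530578982353828686703522317969277331558407370966309949238481952363153440) (nat_lit 626230272)) .dup) (.nod (nat_lit 5391906804844751363435879122459316043372941377058092695304935863862359621814770991130) (.dwn (nat_lit 145235848049781753571422321436043989459750661904486761208539116779237774732636691269704)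 (nat_lit 626230272)) .nil .nil)) .nil l326 = true := by decide +kernel
theorem cw1394 : wchk (nat_lit 5) [] [l326] (nat_lit 3) (nat_lit 1) (nat_lit 1) (nat_lit 0) (nat_lit 22597888) (nat_lit 0) w1394 = true := by decide +kernel
theorem cl327 : lchk (nat_lit 5) [w153, w281, w819, w429, w1371, w33, w927, w923, w1393, w981] (nat_lit 18064384) (.nod (nat_lit 928458017836575147172036698) (.nod (nat_lit 20931594241912422171695728509134862468697837099901100094992962738628597733175890805146) .nil .nil (.opn (nat_lit 144055585768542786873302115140203724685912803047290824945534730496553960188511127029760))) .nil (.dwn (nat_lit 19870858113204496649543803481049715185974266763695398854664877309266611153121124024410) (nat_lit 73618444))) .nil (.nod (nat_lit 618970646831988643607871642) .nil (.nod (nat_lit 20931594241912422171695728509134862468697837099901100094992962746339336755986483380224) .nil (.dwn (nat_lit 145264066118760530578936279701081709753137630140219952593254591606582698958070027911168) (nat_lit 622044160)) .dup) (.nod (nat_lit 4541989164495994894908614538224026521714390701510546224966034897091145346381770654106) (.dwn (nat_lit 144385930409432997102848982724203706168911772091827608924060367969637795536940552587336)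 (nat_lit 622044160)) .nil .nil)) .nil l327 = true := by decide +kernel
theorem cw1395 : wchk (nat_lit 5) [] [l327] (nat_lit 3) (nat_lit 1) (nat_lit 1) (nat_lit 0) (nat_lit 22597888) (nat_lit 0) w1395 = true := by decide +kernel
theorem cw1396 : wchk (nat_lit 5) [w220, w16] [] (nat_lit 3) (nat_lit 1) (nat_lit 3) (nat_lit 2) (nat_lit 89739264) (nat_lit 22709252) w1396 = true := by decide +kernel
theorem cw1397 : wchk (nat_lit 5) [] [l106] (nat_lit 19) (nat_lit 3) (nat_lit 3) (nat_lit 0) (nat_lit 4672000) (nat_lit 0) w1397 = true := by decide +kernel
theorem cw1398 : wchk (nat_lit 5) [] [l106] (nat_lit 19) (nat_lit 3) (nat_lit 2) (nat_lit 0) (nat_lit 4413952) (nat_lit 0) w1398 = true := by decide +kernel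
theorem cw1399 : wchk (nat_lit 5) [] [l120] (nat_lit 17) (nat_lit 1) (nat_lit 4) (nat_lit 0) (nat_lit 20124928) (nat_lit 0) w1399 = true := by decide +kernel
theorem cw1400 : wchk (nat_lit 5) [] [l40] (nat_lit 3) (nat_lit 1) (nat_lit 3) (nat_lit 0) (nat_lit 4516096) (nat_lit 0) w1400 = true := by decide +kernel
theorem cw1401 : wchk (nat_lit 5) [] [l44] (nat_lit 3) (nat_lit 1) (nat_lit 3) (nat_lit 0) (nat_lit 5661184) (nat_lit 0) w1401 = true := by decide +kernel
theorem cw1402 : wchk (nat_lit 5) [] [l40] (nat_lit 3) (nat_lit 1) (nat_lit 3) (nat_lit 0) (nat_lit 4483840) (nat_lit 0) w1402 = true := by decide +kernel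
theorem cw1403 : wchk (nat_lit 5) [] [l64] (nat_lit 3) (nat_lit 1) (nat_lit 3) (nat_lit 0) (nat_lit 22597888) (nat_lit 0) w1403 = true := by decide +kernel
theorem cw1404 : wchk (nat_lit 5) [] [l41] (nat_lit 3) (nat_lit 1) (nat_lit 4) (nat_lit 0) (nat_lit 22339840) (nat_lit 0) w1404 = true := by decide +kernel
theorem cw1407 : wchk (nat_lit 5) [w16, w461] [] (nat_lit 1) (nat_lit 1) (nat_lit 3) (nat_lit 2) (nat_lit 89402368) (nat_lit 22630404) w1407 = true := by decide +kernel
theorem cl330 : lchk (nat_lit 5) [w3, w831, w11, w12, w13] (nat_lit 22709248) (.opn (nat_lit 8288830686870599207784449834415824554409713606174831023312225697810)) .nil (.nod (nat_lit 142578311739873216191153960513910880600467) (.nod (nat_lit 142238029372952277727690585906479112389010) .nil .nil (.dwn (nat_lit 7867581520196370460987068732910318985609900080694836597749434023954) (nat_lit 22709248))) .nil (.nod (nat_lit 5259103468193402571110240476901031777585374332076292510401413533290279172514412233042) (.opn (nat_lit 20800455532335949038122824158524779751511948416177383217899211901746051412876158328864)) .nil .nil)) .nil l330 = true := by decide +kernel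
theorem cw1408 : wchk (nat_lit 5) [] [l330] (nat_lit 3) (nat_lit 2) (nat_lit 1) (nat_lit 0) (nat_lit 22597888) (nat_lit 0) w1408 = true := by decide +kernel
theorem cw1409 : wchk (nat_lit 5) [] [l89] (nat_lit 1) (nat_lit 3) (nat_lit 2) (nat_lit 0) (nat_lit 22354176) (nat_lit 0) w1409 = true := by decide +kernel
theorem cl331 : lchk (nat_lit 5) [w1397, w17, w618, w109, w1408, w16, w15, w220, w461, w401, w3, w1409] (nat_lit 22823936) (.nod (nat_lit 15142905610348682562583633405321117178031441928) (.nod (nat_lit 20558096205205248950267021328458718822568158031407030512073478825402964138158123385234) .nil .nil (.dwn (nat_lit 145157822708370080418423411397883865784313735954641549274256295405393124267027913541632) (nat_lit 626803712))) .nil (.dwn (nat_lit 5121325703388418675029205221826774279292188268882217441189153888972320557553263051090) (nat_lit 90391568))) .nil (.nod (nat_lit 1127325145178446152807935228791264353397713305153311191302615859218) (.nod (nat_lit 1127325189118158300564712094930569672752837781264042677510940567608) .nil .nil (.dwn (nat_lit 285096570277066901834141762871463772512994128569132646558136469512) (nat_lit 626610208))) (.dwn (nat_lit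 20573042648084001725899891226780489601018030909974228859648320515460245071929765726288) (nat_lit 89739296)) .dup) .nil l331 = true := by decide +kernel
theorem cw1410 : wchk (nat_lit 5) [] [l331] (nat_lit 17) (nat_lit 3) (nat_lit 3) (nat_lit 0) (nat_lit 5820672) (nat_lit 0) w1410 = true := by decide +kernel
theorem cw1411 : wchk (nat_lit 5) [w461] [] (nat_lit 0) (nat_lit 0) (nat_lit 3) (nat_lit 2) (nat_lit 16777265) (nat_lit 22630400) w1411 = true := by decide +kernel
theorem cw1412 : wchk (nat_lit 5) [] [] (nat_lit 0) (nat_lit 2) (nat_lit 3) (nat_lit 2) (nat_lit 16777297) (nat_lit 209) w1412 = true := by decide +kernel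
theorem cw1413 : wchk (nat_lit 5) [w461] [] (nat_lit 3) (nat_lit 0) (nat_lit 3) (nat_lit 2) (nat_lit 209) (nat_lit 22630400) w1413 = true := by decide +kernel
theorem cw1414 : wchk (nat_lit 5) [] [l105] (nat_lit 0) (nat_lit 2) (nat_lit 3) (nat_lit 0) (nat_lit 5818880) (nat_lit 0) w1414 = true := by decide +kernel
theorem cw1415 : wchk (nat_lit 5) [] [l43] (nat_lit 0) (nat_lit 2) (nat_lit 4) (nat_lit 0) (nat_lit 3433728) (nat_lit 0) w1415 = true := by decide +kernel
theorem cw1416 : wchk (nat_lit 5) [w924] [] (nat_lit 0) (nat_lit 2) (nat_lit 3) (nat_lit 2) (nat_lit 22644736) (nat_lit 209) w1416 = true := by decide +kernel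
theorem cl332 : lchk (nat_lit 5) [w267, w448, w368, w401, w39, w3, w1412, w652, w1414, w1415, w262, w743, w1416, w1411, w815, w256, w1272, w255, w257, w1413] (nat_lit 22293504) (.nod (nat_lit 723315595468874481523904521) (.nod (nat_lit 1121565722300278546981955747646329892078239289265113959219410764186) (.nod (nat_lit 426219516282256070508379418320359742622370449440) (.nod (nat_lit 1139681455868986708520846076482085289299471828421673558665800360117304175081700899444736) .nil .nil (.dwn (nat_lit 9096853238425572983006962046831218730930154267376531484404482947731316655596798548137984) (nat_lit 39280978944))) .nil (.dwn (nat_lit 1139681455868986708520846076482085289299471828421673558665981921848165429042203750586368) (nat_lit 4921240576))) .nil (.nod (nat_lit 292205865052124207187626332998291010001516220410974194931577802808) (.opn (nat_lit 1139910542643680670477125117260896313470966129045592850654302268926481934097764603824216)) (.dwn (nat_lit 1139910542643680670477125117411546755120246467377651796811286262912938464764901432133720) (nat_lit 4921240576)) .dup)) .nil (.nod (nat_lit 5391914215538462551958833282055181533248539949888974052101917765822501381700375806298)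 (.dwn (nat_lit 145034996944464132695899722434535004501635252142069514031787843362301194960417667569808) (nat_lit 626273280)) .nil .nil)) .nil (.nod (nat_lit 426892763584079679552086077105139598661903187994) .nil (.dwn (nat_lit 1139910552833384523359815520147344678498918353407202822249914037520457145945322751953048) (nat_lit 89402368)) (.dwn (nat_lit 1139910552833384523359815520147344678498918353407202822249914037520457145945322751953048) (nat_lit 89402368))) .nil l332 = true := by decide +kernel
theorem cw1417 : wchk (nat_lit 5) [] [l332] (nat_lit 1) (nat_lit 2) (nat_lit 2) (nat_lit 0) (nat_lit 22597888) (nat_lit 0) w1417 = true := by decide +kernel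
theorem cw1420 : wchk (nat_lit 5) [w1139, w461] [] (nat_lit 1) (nat_lit 1) (nat_lit 3) (nat_lit 2) (nat_lit 89753600) (nat_lit 22630404) w1420 = true := by decide +kernel
theorem cw1424 : wchk (nat_lit 5) [] [l28] (nat_lit 18) (nat_lit 3) (nat_lit 3) (nat_lit 0) (nat_lit 5530368) (nat_lit 0) w1424 = true := by decide +kernel
theorem cw1425 : wchk (nat_lit 5) [] [l28] (nat_lit 18) (nat_lit 2) (nat_lit 3) (nat_lit 0) (nat_lit 3433728) (nat_lit 0) w1425 = true := by decide +kernel
theorem cw1428 : wchk (nat_lit 5) [w143] [] (nat_lit 210) (nat_lit 0) (nat_lit 4) (nat_lit 2) (nat_lit 16777285) (nat_lit 622015488) w1428 = true := by decide +kernel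
theorem cw1429 : wchk (nat_lit 5) [] [l165] (nat_lit 17) (nat_lit 3) (nat_lit 2) (nat_lit 0) (nat_lit 153643776) (nat_lit 0) w1429 = true := by decide +kernel
theorem cw1430 : wchk (nat_lit 5) [w3] [] (nat_lit 0) (nat_lit 0) (nat_lit 3) (nat_lit 2) (nat_lit 16777297) (nat_lit 22687744) w1430 = true := by decide +kernel
theorem cw1432 : wchk (nat_lit 5) [] [l14] (nat_lit 210) (nat_lit 1) (nat_lit 1) (nat_lit 0) (nat_lit 1230414080) (nat_lit 0) w1432 = true := by decide +kernel
theorem cl335 : lchk (nat_lit 5) [w3, w67, w1432, w49, w11, w12, w13] (nat_lit 626689024) .nil (.nod (nat_lit 142578311739873216191153960513910880600467) (.nod (nat_lit 142238029372952277727690585906479112389010) .nil (.nod (nat_lit 70383936555357657173602043442106462012177865456862495669691088914) (.nod (nat_lit 1127594853408710512370024007531623054956476209776381604376717101056) .nil (.opn (nat_lit 7867581520196370461402153188619256452936490564219161563966062528512)) .dup) (.dwn (nat_lit 20800453679662521241063967196330013473591390105405196520234823609120682332917299742720) (nat_lit 89818112)) .dup) .nil) .nil (.nod (nat_lit 20933255163640442235202884211343827087986650150666615855628436040019581732492714967378)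 (.opn (nat_lit 20800457385009376835182221001685603167071671979809836361244574969332296209681997957168)) .nil .nil)) .nil .nil l335 = true := by decide +kernel
theorem cw1433 : wchk (nat_lit 5) [] [l335] (nat_lit 18) (nat_lit 3) (nat_lit 3) (nat_lit 0) (nat_lit 156815616) (nat_lit 0) w1433 = true := by decide +kernel
theorem cw1436 : wchk (nat_lit 5) [w105, w16] [] (nat_lit 26) (nat_lit 1) (nat_lit 3) (nat_lit 2) (nat_lit 625692672) (nat_lit 22709252) w1436 = true := by decide +kernel
theorem cw1437 : wchk (nat_lit 5) [w105, w16] [] (nat_lit 26) (nat_lit 1) (nat_lit 3) (nat_lit 2) (nat_lit 626610176) (nat_lit 22709252) w1437 = true := by decide +kernel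
theorem cw1438 : wchk (nat_lit 5) [] [l257] (nat_lit 3) (nat_lit 1) (nat_lit 1) (nat_lit 0) (nat_lit 22565632) (nat_lit 0) w1438 = true := by decide +kernel
theorem cw1439 : wchk (nat_lit 5) [] [l104] (nat_lit 3) (nat_lit 1) (nat_lit 1) (nat_lit 0) (nat_lit 18535424) (nat_lit 0) w1439 = true := by decide +kernel
theorem cl336 : lchk (nat_lit 5) [w1388, w67, w143, w142, w740, w161, w112, w78, w33] (nat_lit 23282688) (.nod (nat_lit 689465654072920790921404432) (.nod (nat_lit 20795476472498744440592285567701689520251313553642905733767684429346442945411120365978) .nil (.opn (nat_lit 145264062413413674976989319470913276974521054789084992583071877296887442574120132708352)) .dup) .nil (.dwn (nat_lit 20903377099270359062665349342940065329808884573756664104752026317609643237066732994906) (nat_lit 90391552))) .nil (.nod (nat_lit 2630105627127019240047195768324012847317533763219074068774938) (.nod (nat_lit 1115266675817224954382169588303298691660346232275277055631436238896) .nil .nil (.dwn (nat_lit 210624796758573376969786939350157688408680032243839499568509091850) (nat_lit 627133456))) .nil (.dwn (nat_lit 5284008957083278436951509341956639028184984285909646074706291478744404474127787754058)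 (nat_lit 89796620))) .nil l336 = true := by decide +kernel
theorem cw1440 : wchk (nat_lit 5) [] [l336] (nat_lit 19) (nat_lit 2) (nat_lit 3) (nat_lit 0) (nat_lit 156815616) (nat_lit 0) w1440 = true := by decide +kernel
theorem cw1441 : wchk (nat_lit 5) [] [l269] (nat_lit 3) (nat_lit 1) (nat_lit 1) (nat_lit 0) (nat_lit 22565632) (nat_lit 0) w1441 = true := by decide +kernel
theorem cw1442 : wchk (nat_lit 5) [] [l270] (nat_lit 3) (nat_lit 1) (nat_lit 1) (nat_lit 0) (nat_lit 22597888) (nat_lit 0) w1442 = true := by decide +kernel
theorem cl337 : lchk (nat_lit 5) [w429, w281, w819, w39, w154, w33, w430] (nat_lit 7032832) (.nod (nat_lit 928456837244954429760733338) (.nod (nat_lit 20931594241912422171695728509134862468697837099901100094992962746339336755986483380634) .nil (.opn (nat_lit 141500852861322598972787544446574602471396182950283649129439067469255081346081272274944)) .dup) .nil (.dwn (nat_lit 20827015458596847676636976138314415897840136273686388633796837230187331799545282560346) (nat_lit 74141696))) .nil (.nod (nat_lit 618970646831988643607871514) .nil (.nod (nat_lit 20931594241912422171695728509134862468697837099901100094992962738628597733175890805146)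 .nil (.dwn (nat_lit 145025025856075728923666538927413743777266180879454816352540597464518826403239830161440) (nat_lit 626230288)) .dup) (.dwn (nat_lit 5391906804844751363435879122459316043372941377058092695304935863862359621814770991130) (nat_lit 74141720))) .nil l337 = true := by decide +kernel
theorem cw1443 : wchk (nat_lit 5) [] [l337] (nat_lit 3) (nat_lit 1) (nat_lit 1) (nat_lit 0) (nat_lit 22597888) (nat_lit 0) w1443 = true := by decide +kernel
theorem cw1444 : wchk (nat_lit 5) [] [l32] (nat_lit 26) (nat_lit 1) (nat_lit 3) (nat_lit 0) (nat_lit 22205440) (nat_lit 0) w1444 = true := by decide +kernel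
theorem cl338 : lchk (nat_lit 5) [w924, w281, w1444, w1086, w160, w159, w1404, w161, w3, w154, w922, w833, w914] (nat_lit 23275520) (.nod (nat_lit 928455656653333712349429786) (.nod (nat_lit 20931594241912422171695728509134862468697837099901100094992962746339336755986483380634) .nil (.opn (nat_lit 145262402418022368812011727157272192424674065432296813781371995157572209948964403171328)) .dup) .nil (.nod (nat_lit 5391904025834609667847188956755675834908824819300533565390248651308141936638171283802) (.dwn (nat_lit 145116326528934281895968628985634405661495437073936173229907019017320630044975173109808) (nat_lit 627255296)) .nil .nil)) .nil (.nod (nat_lit 618970646831988643607871514) (.nod (nat_lit 60458733085603975073203639879258787554919448986) .nil (.opn (nat_lit 426853707335133961941488454620117635813368858696)) .nil) .nil (.dwn (nat_lit 5390251441137014691106103751657631841087942971857457026200339174325155876085115650394) (nat_lit 90384432))) .nil l338 = true := by decide +kernel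
theorem cw1445 : wchk (nat_lit 5) [] [l338] (nat_lit 1) (nat_lit 2) (nat_lit 1) (nat_lit 0) (nat_lit 30986496) (nat_lit 0) w1445 = true := by decide +kernel
theorem cl339 : lchk (nat_lit 5) [w1231, w341, w726, w676, w1396, w1436, w1437, w581, w1438, w1439, w284, w154, w16, w442, w1398, w1445, w209, w1161, w1440, w959, w1390, w1441, w1442, w1443] (nat_lit 23225344) (.nod (nat_lit 856335196111602574186272776) (.nod (nat_lit 18157742869376534392668535803450459743889714390718264261318476137913574548568786600346) .nil (.opn (nat_lit 145264066118760530571107573025184797252534106104613537625039957390948414075515569604640)) .dup) .nil (.nod (nat_lit 5391906804844751363435879122459316043373029188964570845001063367279463413474901623130) (.dwn (nat_lit 145038309524553033837618489540070100484010979926954887343183934193731442178700644616264) (nat_lit 627262480)) .nil .nil)) .nil (.nod (nat_lit 1134704455761752851609036479039623746015396830531478929436093448218) (.nod (nat_lit 1121836139843039005205068176519817302912850365452453890500907583585) .nil (.nod (nat_lit 426575658529734460071769051569077472593949657200) .nil (.dwn (nat_lit 1139897255269856509967933077255426280779580444804136802886966599959145670312448590399488)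 (nat_lit 4922172416)) (.dwn (nat_lit 1139897255269856509967933077255426280779580444804136802886966599959145670312448590399488) (nat_lit 4922172416))) (.dwn (nat_lit 292296355750741541988248055572953357717812749637444375967075428480) (nat_lit 627205120))) (.nod (nat_lit 20933269058691150714268171179705067135786371567588594535464411938034994039035127318680) (.dwn (nat_lit 145264080940147952955455368899458620646958758426557618002244076592841381223612798109880) (nat_lit 627205120)) .nil .nil) .dup) .nil l339 = true := by decide +kernel
theorem cl340 : lchk (nat_lit 5) [w4, w7, w30, w829] (nat_lit 23282688) (.nod (nat_lit 618973008015230078430478490) (.nod (nat_lit 618970646831988643607871514) (.nod (nat_lit 20919973347836565118323018925079390550265726826109907079782764973946655011303388610970) .nil (.opn (nat_lit 145250782450283225657168580961784600575745139934779562169472820182365581572874296412160)) .dup) .nil (.dwn (nat_lit 20933254237303728336673320822775947018544904509297473753873839995035408988989940564314) (nat_lit 90391556))) .nil .nil) (.nod (nat_lit 618970646831988643607871514) .nil .nil (.dwn (nat_lit 291575794688333033703430159103750043225730317100419294447924150298)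 (nat_lit 627262476))) .nil .nil l340 = true := by decide +kernel
theorem cw1447 : wchk (nat_lit 5) [] [l340] (nat_lit 3) (nat_lit 3) (nat_lit 1) (nat_lit 0) (nat_lit 5820672) (nat_lit 0) w1447 = true := by decide +kernel
theorem cw1448 : wchk (nat_lit 5) [] [l330] (nat_lit 3) (nat_lit 2) (nat_lit 1) (nat_lit 0) (nat_lit 22483200) (nat_lit 0) w1448 = true := by decide +kernel
theorem cw1449 : wchk (nat_lit 5) [] [l330] (nat_lit 3) (nat_lit 2) (nat_lit 3) (nat_lit 0) (nat_lit 22454528) (nat_lit 0) w1449 = true := by decide +kernel
theorem cl341 : lchk (nat_lit 5) [w442, w17, w618, w1408, w16, w154, w220, w1447, w3, w1448, w1449] (nat_lit 22816768) (.nod (nat_lit 823014178208474357555709960) (.nod (nat_lit 20556436209813942785289429014817634272782285820736775743121632800874182284433327915418) .nil (.opn (nat_lit 145157825487380222114012101563587505992823524441287958055755480451258283190200020011032)) .dup) .nil (.dwn (nat_lit 20827016384933561575166539526882295967344111332618302966065440050557333429350062621018) (nat_lit 89932812))) .nil (.nod (nat_lit 1133894257686563021949486666027191486095737667309551067573444935706) (.nod (nat_lit 1121835838542155706628585129336789364382767793472046942103786399792)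 .nil .nil (.dwn (nat_lit 291575744471519150609984048417434657564603031812952224449595885576) (nat_lit 626796544))) (.nod (nat_lit 20933259795324011728972536992725383142192978802742861466880096225224234586305626556480) (.opn (nat_lit 145264070750444100071630171072826987168394872276675912809493538423403272444110229162064)) .nil .nil) .dup) .nil l341 = true := by decide +kernel
theorem cw1452 : wchk (nat_lit 5) [] [l106] (nat_lit 18) (nat_lit 1) (nat_lit 3) (nat_lit 0) (nat_lit 156785152) (nat_lit 0) w1452 = true := by decide +kernel
theorem cl342 : lchk (nat_lit 5) [w3, w411, w13, w11, w12] (nat_lit 9269248) (.nod (nat_lit 7770686916527661540665001566488978072630052581117562099149428537410406923888895197184) (.nod (nat_lit 45622083159502580999309929363282294469028988675620541468161797300680890400112640) (.opn (nat_lit 3885338942372350515211502645248205744333089793843045409962388237059457760979630874624)) .nil .nil) .nil (.nod (nat_lit 38211389448314344491799651811661570602069952586291919724536736523235978723196928) (.opn (nat_lit 17689624169028195869900385676785245720869938559287027580031298005227681777064479496224)) .nil .nil)) .nil .nil (.nod (nat_lit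 3885338942372350515000878049356887900163892210804125698909265214053648649542939908096) .nil (.dwn (nat_lit 48401093301198169687052671733631597462916318215303973613415568668806091034853762) (nat_lit 76378112)) .dup) l342 = true := by decide +kernel
theorem cw1453 : wchk (nat_lit 5) [] [l342] (nat_lit 18) (nat_lit 1) (nat_lit 3) (nat_lit 0) (nat_lit 5820672) (nat_lit 0) w1453 = true := by decide +kernel
theorem cl344 : lchk (nat_lit 5) [w42, w16, w726, w3, w461, w39, w1, w195, w713, w712, w581, w714, w181, w56, w638, w220, w267, w721, w431, w722] (nat_lit 22293504) (.nod (nat_lit 799213469581555419386828809) (.nod (nat_lit 19127180177899334739582446969843836854467537422025372004449150802644241710430981980570) .nil (.dwn (nat_lit 5391904952171323566376752345323555904777467935803407734007843878160746528472867426344) (nat_lit 626273280)) (.dwn (nat_lit 5391904952171323566376752345323555904777467935803407734007843878160746528472867426344) (nat_lit 626273280))) .nil (.nod (nat_lit 5378627768051015942423771641934410182950412874036261472921672986923741922867334349146) (.dwn (nat_lit 145264069824107386173100517645511814712342503713138235536000325146017979954890102165592)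 (nat_lit 626273280)) .nil .nil)) .nil (.nod (nat_lit 15528320308159078936952052960517764314489159706) (.nod (nat_lit 1122376171459537792169150961639645995789294532647361553553873365112) .nil (.dwn (nat_lit 7862362185428617260986909955038625999522374876223434466142741616640) (nat_lit 626273280)) (.opn (nat_lit 7862362185428617260986909955038625999522374876223434466142741616640))) (.dwn (nat_lit 20584669100180142170457090587668740891092486847719380442531494864083246192013694619800) (nat_lit 89402368)) (.dwn (nat_lit 20584669100180142170457090587668740891092486847719380442531494864083246192013694619800) (nat_lit 89402368))) .nil l344 = true := by decide +kernel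
theorem cw1458 : wchk (nat_lit 5) [] [l344] (nat_lit 0) (nat_lit 3) (nat_lit 1) (nat_lit 0) (nat_lit 5820672) (nat_lit 0) w1458 = true := by decide +kernel
theorem cw1459 : wchk (nat_lit 5) [] [] (nat_lit 17) (nat_lit 1) (nat_lit 4) (nat_lit 2) (nat_lit 16777221) (nat_lit 205) w1459 = true := by decide +kernel
theorem cl346 : lchk (nat_lit 5) [w67] (nat_lit 145) (.nod (nat_lit 1416213326775005986770666432793403821000951510840709424053140176049470774422590718212) (.nod (nat_lit 3885371364157336963535596649232690332778091126399832078267815237546369336731232108955) (.nod (nat_lit 5570735526339992613118017826) .nil .nil .nil) .nil (.dwn (nat_lit 34968073639769002100142610228802525461756546561919064930259567216145116210611781370458) (nat_lit 150995089))) .nil .nil) (.nod (nat_lit 33554434) .nil .nil .nil) .nil .nil l346 = true := by decide +kernel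
theorem cw1461 : wchk (nat_lit 5) [] [l346] (nat_lit 2) (nat_lit 3) (nat_lit 3) (nat_lit 0) (nat_lit 5820672) (nat_lit 0) w1461 = true := by decide +kernel
theorem cw1465 : wchk (nat_lit 5) [] [] (nat_lit 19) (nat_lit 1) (nat_lit 3) (nat_lit 2) (nat_lit 16777233) (nat_lit 209) w1465 = true := by decide +kernel
theorem cw1467 : wchk (nat_lit 5) [] [l224] (nat_lit 2195) (nat_lit 1) (nat_lit 4) (nat_lit 0) (nat_lit 9820087040) (nat_lit 0) w1467 = true := by decide +kernel
theorem cw1468 : wchk (nat_lit 5) [] [] (nat_lit 1) (nat_lit 1) (nat_lit 1) (nat_lit 2) (nat_lit 429) (nat_lit 205) w1468 = true := by decide +kernel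
theorem cw1471 : wchk (nat_lit 5) [] [] (nat_lit 0) (nat_lit 0) (nat_lit 1) (nat_lit 2) (nat_lit 333) (nat_lit 205) w1471 = true := by decide +kernel
theorem cw1473 : wchk (nat_lit 5) [] [l226] (nat_lit 36) (nat_lit 1) (nat_lit 1) (nat_lit 0) (nat_lit 19601664) (nat_lit 0) w1473 = true := by decide +kernel
theorem cw1474 : wchk (nat_lit 5) [] [l46] (nat_lit 2) (nat_lit 0) (nat_lit 3) (nat_lit 0) (nat_lit 5428224) (nat_lit 0) w1474 = true := by decide +kernel
theorem cw1475 : wchk (nat_lit 5) [] [l3] (nat_lit 2) (nat_lit 0) (nat_lit 3) (nat_lit 0) (nat_lit 5704192) (nat_lit 0) w1475 = true := by decide +kernel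
theorem cl349 : lchk (nat_lit 5) [w279, w4, w1473, w731, w1474, w1475, w289, w893, w1245] (nat_lit 19540992) .nil (.nod (nat_lit 290765853974314354897791663358684134819775251157418433851384922112) (.nod (nat_lit 7268017165041630445723) .nil .nil (.nod (nat_lit 618973008015230078430478362) (.opn (nat_lit 20933255163640442296949864377776592232633011831376939003537194503602232521955372695962)) .nil (.dwn (nat_lit 1139910538938333814943619049485259242597665876777729057894830786107468537892598557179930) (nat_lit 4918488064)))) .nil (.nod (nat_lit 2171877200443791544287183140429853508429432820359703063167578) .nil (.dwn (nat_lit 7874780853718720153301655545256692472282057227956836910009074501696) (nat_lit 623520768)) .dup)) .nil .nil l349 = true := by decide +kernel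
theorem cw1477 : wchk (nat_lit 5) [w143] [] (nat_lit 210) (nat_lit 0) (nat_lit 1) (nat_lit 2) (nat_lit 16777293) (nat_lit 626796544) w1477 = true := by decide +kernel
theorem cw1482 : wchk (nat_lit 5) [] [l46] (nat_lit 2) (nat_lit 0) (nat_lit 3) (nat_lit 0) (nat_lit 5428224) (nat_lit 0) w1482 = true := by decide +kernel
theorem cw1483 : wchk (nat_lit 5) [] [l296] (nat_lit 2) (nat_lit 0) (nat_lit 3) (nat_lit 0) (nat_lit 22597888) (nat_lit 0) w1483 = true := by decide +kernel
theorem cw1484 : wchk (nat_lit 5) [] [l65] (nat_lit 2) (nat_lit 0) (nat_lit 3) (nat_lit 0) (nat_lit 22583552) (nat_lit 0) w1484 = true := by decide +kernel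
theorem cl350 : lchk (nat_lit 5) [w32] (nat_lit 8388621) (.nod (nat_lit 22625160069330117949820764160) (.nod (nat_lit 47474756587299640126237715565070581333013367376427774486784371328933801786081280) (.nod (nat_lit 3885370437820623065216659614144614015714639757299912962342403478181832363279330050048) .nil .nil .nil) .nil .nil) .nil (.dwn (nat_lit 40064062876111403618727438013449807661518597834741487737628535203981663280300378) (nat_lit 173))) .nil .nil .nil l350 = true := by decide +kernel
theorem cl352 : lchk (nat_lit 5) [w1371, w281, w924, w920, w852, w148, w150, w1404, w1399, w4, w1400, w1402, w1401, w1403] (nat_lit 19555328) (.nod (nat_lit 928455656653333712349429786) (.nod (nat_lit 20916654283390666688030571878880293129652567190160201474285264544581951074651240136704) (.opn (nat_lit 145247464312174041132146403929401685083673510397115600054465457713267782135569430085632)) .nil .nil) .nil (.nod (nat_lit 5375304998258261916891595207260364674672262590529593758058983328728535119671156801882) (.dwn (nat_lit 144161830105269950932330058728779223551009119844935390924029543460267636089444998891576) (nat_lit 623535104)) .nil .nil)) .nil (.nod (nat_lit 618973008015230078430478362)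 (.nod (nat_lit 1133174192515191609639024771115087065057528354873357298949351801242) .nil .nil (.dwn (nat_lit 7827986566785828940586296793843784584746383338386619706382992328704) (nat_lit 623535104))) .nil (.nod (nat_lit 4528711980375687270967332444230714015693723239675579517692053984416741267965676093786) (.dwn (nat_lit 145250791713650364650338276094239176694572311377550302286265576008037441220565393524840) (nat_lit 623535104)) .nil .nil)) .nil l352 = true := by decide +kernel
theorem cw1489 : wchk (nat_lit 5) [] [l40] (nat_lit 3) (nat_lit 1) (nat_lit 3) (nat_lit 0) (nat_lit 4630784) (nat_lit 0) w1489 = true := by decide +kernel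
theorem cw1492 : wchk (nat_lit 5) [] [l84] (nat_lit 2) (nat_lit 3) (nat_lit 4) (nat_lit 0) (nat_lit 4872704) (nat_lit 0) w1492 = true := by decide +kernel
theorem cw1493 : wchk (nat_lit 5) [] [l84] (nat_lit 2) (nat_lit 3) (nat_lit 4) (nat_lit 0) (nat_lit 4872704) (nat_lit 0) w1493 = true := by decide +kernel
theorem cw1495 : wchk (nat_lit 5) [] [l325] (nat_lit 274) (nat_lit 0) (nat_lit 3) (nat_lit 1) (nat_lit 2776064) (nat_lit 0) w1495 = true := by decide +kernel
theorem cw1496 : wchk (nat_lit 5) [] [l325] (nat_lit 274) (nat_lit 0) (nat_lit 3) (nat_lit 1) (nat_lit 2776064) (nat_lit 0) w1496 = true := by decide +kernel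
theorem cw1501 : wchk (nat_lit 5) [] [l143] (nat_lit 1) (nat_lit 1) (nat_lit 3) (nat_lit 0) (nat_lit 22597888) (nat_lit 0) w1501 = true := by decide +kernel
theorem cw1502 : wchk (nat_lit 5) [] [l299] (nat_lit 3) (nat_lit 2) (nat_lit 2) (nat_lit 0) (nat_lit 22565632) (nat_lit 0) w1502 = true := by decide +kernel
theorem cw1519 : wchk (nat_lit 5) [] [l176] (nat_lit 2) (nat_lit 2) (nat_lit 3) (nat_lit 0) (nat_lit 5705984) (nat_lit 0) w1519 = true := by decide +kernel
theorem cw1520 : wchk (nat_lit 5) [] [l129] (nat_lit 3) (nat_lit 3) (nat_lit 2) (nat_lit 0) (nat_lit 5677312) (nat_lit 0) w1520 = true := by decide +kernel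
theorem cw1521 : wchk (nat_lit 5) [] [l129] (nat_lit 3) (nat_lit 3) (nat_lit 4) (nat_lit 0) (nat_lit 3842304) (nat_lit 0) w1521 = true := by decide +kernel
theorem cw1522 : wchk (nat_lit 5) [] [l303] (nat_lit 19) (nat_lit 3) (nat_lit 3) (nat_lit 0) (nat_lit 156666880) (nat_lit 0) w1522 = true := by decide +kernel
theorem cl357 : lchk (nat_lit 5) [w718, w1325, w1326, w220, w642, w3, w39, w851, w1519, w888, w712, w1520, w1521, w1522, w1297, w152, w743, w722] (nat_lit 22709248) .nil .nil (.nod (nat_lit 61478279286878051715847935509690857728993740817) (.nod (nat_lit 142238029372953081172695684018279928562066) .nil (.nod (nat_lit 279067489385448819585503747549597204850578206739894599622129813552) .nil (.dwn (nat_lit 1139777735601682466151333905527765843237557386305744269885027687358326408274046465935360) (nat_lit 4921656320)) .dup) (.nod (nat_lit 15142919221643359400925616926956782175873832984) .nil (.dwn (nat_lit 1139804302012300362018894851411500706471383814136278438065599717104666209383534472546320) (nat_lit 4921656320)) .dup)) .nil (.nod (nat_lit 5391909583854893059024569288162956251866972395208763636358572858042570646488533172562) (.dwn (nat_lit 145131272045476320771952349420324917133232910750859771690605165723740070341896905066592)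 (nat_lit 626689024)) .nil .nil)) (.nod (nat_lit 292296255317113775397616150323483959754526243668009684691878674450) (.opn (nat_lit 20905046358028804214061131791214073139894049715052318819425780862791295984028012292120)) (.dwn (nat_lit 20905046358028804214061131791214073139894371720172747700442494692621813377105295771784) (nat_lit 89818112)) .dup) l357 = true := by decide +kernel
theorem cw1523 : wchk (nat_lit 5) [] [l357] (nat_lit 3) (nat_lit 2) (nat_lit 1) (nat_lit 0) (nat_lit 22597888) (nat_lit 0) w1523 = true := by decide +kernel
theorem cl358 : lchk (nat_lit 5) [w152, w281, w39, w3, w15, w924, w1051, w4, w1489, w927, w160, w926, w815, w355, w431] (nat_lit 22823936) .nil .nil (.nod (nat_lit 421250183564709879433955852132568288917539790183778448190902108298) (.nod (nat_lit 2623828525391632559283359978900807853949275755962670312849802) .nil (.nod (nat_lit 7869021437117654282449428559206439284264868692200223409619850577936) .nil (.dwn (nat_lit 1139804295527943364790976822362510852090396023559781673536736666106238605389653297629184) (nat_lit 4921771008)) .dup) (.nod (nat_lit 292295803365788827959984701220523596614798145593088045501834020896) (.opn (nat_lit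 1139804295527943364790976822362510852093745607335871859851988874931640721632293606164480)) .dup .dup)) .nil (.nod (nat_lit 3559272819179459126703530473363867408674572756114554980430313331954915008434812223818) (.dwn (nat_lit 145025030487759298416312736327788600478052681758426266276791084695968723669713885009992) (nat_lit 626803712)) .nil .nil)) (.nod (nat_lit 421249380095687749938818081151522118336238529082281556794484457482) (.opn (nat_lit 20919984463877131900677782211722476775875961747164077132654931637648943543228211134858)) .nil (.dwn (nat_lit 20919984463877131900888405188121546890281522260569325656130119306247047982944031342730) (nat_lit 86599736))) l358 = true := by decide +kernel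
theorem cw1527 : wchk (nat_lit 5) [] [l358] (nat_lit 3) (nat_lit 2) (nat_lit 2) (nat_lit 0) (nat_lit 22597888) (nat_lit 0) w1527 = true := by decide +kernel
theorem cw1528 : wchk (nat_lit 5) [] [l330] (nat_lit 26) (nat_lit 2) (nat_lit 3) (nat_lit 0) (nat_lit 156797696) (nat_lit 0) w1528 = true := by decide +kernel
theorem cw1529 : wchk (nat_lit 5) [] [l46] (nat_lit 3) (nat_lit 1) (nat_lit 1) (nat_lit 0) (nat_lit 5431808) (nat_lit 0) w1529 = true := by decide +kernel
theorem cw1530 : wchk (nat_lit 5) [] [l46] (nat_lit 3) (nat_lit 3) (nat_lit 1) (nat_lit 0) (nat_lit 5431808) (nat_lit 0) w1530 = true := by decide +kernel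
theorem cl359 : lchk (nat_lit 5) [] (nat_lit 17) (.nod (nat_lit 33554522) .nil .nil (.nod (nat_lit 210624796758573376542982025784181253698448338281183334285795393796) (.opn (nat_lit 210624796758573376542982025784181253699067313650381805799316914210)) .nil .nil)) (.nod (nat_lit 618973008015230078396924164) .nil (.nod (nat_lit 210626403696617635533257567746273594861669831131009105722507002018) .nil (.opn (nat_lit 34968073639769002100142610228802525461756546561919064930265137940418942318262072901922)) .dup) .nil) .nil .nil l359 = true := by decide +kernel
theorem cw1531 : wchk (nat_lit 5) [] [l359] (nat_lit 1) (nat_lit 3) (nat_lit 1) (nat_lit 0) (nat_lit 5820672) (nat_lit 0) w1531 = true := by decide +kernel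
theorem cl360 : lchk (nat_lit 5) [] (nat_lit 17) (.nod (nat_lit 33554522) .nil .nil (.nod (nat_lit 210624796758573376542982025784181253698448338281183334285795393796) (.opn (nat_lit 210624796758573376542982025784181253699067313650381805799316914210)) .nil .nil)) (.nod (nat_lit 618973008015230078396924164) .nil (.nod (nat_lit 210626403696617635533257567746273594861669831131009105722507002018) .nil (.opn (nat_lit 34968073639769002100142610228802525461756546561919064930265137940418942318262072901922)) .dup) (.opn (nat_lit 210626403696617635544675647969807680981671560329148256193066566042))) .nil .nil l360 = true := by decide +kernel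
theorem cw1532 : wchk (nat_lit 5) [] [l360] (nat_lit 3) (nat_lit 3) (nat_lit 1) (nat_lit 0) (nat_lit 5820672) (nat_lit 0) w1532 = true := by decide +kernel
theorem cl361 : lchk (nat_lit 5) [w815, w42, w1101, w39, w3, w15, w1531, w1532, w224, w1528, w1529, w976, w1530, w172, w41] (nat_lit 23225344) .nil .nil (.nod (nat_lit 286536393041824692492565219131642194849936805148596356224606619657) (.nod (nat_lit 2623828525391632559283359978900807860296283882892063156470154) .nil (.nod (nat_lit 7869021487334468165542874669892754669926200021166640917921803094040) .nil (.dwn (nat_lit 1139897255269856510029727031284118383075331253948912586317718091723931295294277208557568) (nat_lit 4922172416)) (.dwn (nat_lit 1139897255269856510029727031284118383075331253948912586317718091723931295294277208557568) (nat_lit 4922172416))) (.nod (nat_lit 292295853582602710643056682875462115084935932560403386392662984744) (.opn (nat_lit 1139910541717343956639255433772983745173277431139433415410622230889683932189209963956280)) .dup .dup)) .nil (.nod (nat_lit 269219719968118853419135527955370433616700800642671579625615033719391920088337017209162) (.dwn (nat_lit 145264071676780813970112940475762859324167887094744126885725059132124062153708829067352)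 (nat_lit 627205120)) .nil .nil)) (.nod (nat_lit 421249380095687749938818081151522118336238529082281556794484457482) (.opn (nat_lit 210625600227595506038119796765227424280591656061009014115060940938)) .nil .nil) l361 = true := by decide +kernel
theorem cw1533 : wchk (nat_lit 5) [] [l361] (nat_lit 3) (nat_lit 2) (nat_lit 2) (nat_lit 0) (nat_lit 22597888) (nat_lit 0) w1533 = true := by decide +kernel
theorem cl362 : lchk (nat_lit 5) [] (nat_lit 17) (.nod (nat_lit 33554522) .nil .nil (.nod (nat_lit 210624796758573376542982025784181253698448338281183334285795393796) (.opn (nat_lit 3885371364157336963746221445991263709321073152184013331965644600458354199504109961250)) .nil .nil)) (.nod (nat_lit 618973008015230078396924164) .nil (.nod (nat_lit 210626403696617635533257567746273594861669831131009105722507002018) .nil (.opn (nat_lit 34968073639769002100142610228802525461756546561919064930265137940418942318262072901922)) .dup) .nil) .nil .nil l362 = true := by decide +kernel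
theorem cw1534 : wchk (nat_lit 5) [] [l362] (nat_lit 1) (nat_lit 3) (nat_lit 1) (nat_lit 0) (nat_lit 5820672) (nat_lit 0) w1534 = true := by decide +kernel
theorem cw1535 : wchk (nat_lit 5) [] [l90] (nat_lit 3) (nat_lit 3) (nat_lit 1) (nat_lit 0) (nat_lit 5818880) (nat_lit 0) w1535 = true := by decide +kernel
theorem cl363 : lchk (nat_lit 5) [] (nat_lit 17) (.nod (nat_lit 33554522) .nil .nil (.nod (nat_lit 210624796758573376542982025784181253698448338281183334285795393796) (.opn (nat_lit 3885371364157336963746221445991263709321073152184013331965644600458354199504109961250)) .nil .nil)) (.nod (nat_lit 618973008015230078396924164) .nil (.nod (nat_lit 210626403696617635533257567746273594861669831131009105722507002018) .nil (.opn (nat_lit 34968073639769002100142610228802525461756546561919064930265137940418942318262072901922)) .dup) (.opn (nat_lit 210626403696617635544675647969807680981671560329148256193066566042))) .nil .nil l363 = true := by decide +kernel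
theorem cw1536 : wchk (nat_lit 5) [] [l363] (nat_lit 3) (nat_lit 3) (nat_lit 1) (nat_lit 0) (nat_lit 5820672) (nat_lit 0) w1536 = true := by decide +kernel
theorem cl364 : lchk (nat_lit 5) [w355, w42, w831, w39, w3, w1535, w15, w1534, w1536, w197, w870, w888, w381, w172, w41] (nat_lit 157493248) .nil .nil (.nod (nat_lit 286536393041824692492565219131642194849936805148596356224606619657) (.nod (nat_lit 2623828525391632559283359978900807853684970806874559857295754) .nil (.nod (nat_lit 7869021487334468165542874669892754669926200021166640917921803094040) .nil (.dwn (nat_lit 1139910539864670528780688169094159080479628662258014506953673538313769264398712794597384) (nat_lit 73641699328)) (.dwn (nat_lit 1139910539864670528780688169094159080479628662258014506953673538313769264398712794597384) (nat_lit 73641699328))) (.nod (nat_lit 292295903799416593736502796284036436113774969086243801559084779568) (.opn (nat_lit 1139910542643680670537784997211768439125874140079001867056775582242018018620271099283520)) .dup .dup)) .nil (.nod (nat_lit 5390250514800300792576542585183766098408241020277972263858727932801823411739195081034) (.dwn (nat_lit 2134286438067144477700326511844930263840368656865793521095022219609018489378106363797592)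 (nat_lit 9217189888)) .nil .nil)) (.nod (nat_lit 421249380095687749938818081151522118336238529082281556794484457482) (.opn (nat_lit 5285675436831581891846667146768420984717662404462633241303884762854554640875970887818)) .nil .nil) l364 = true := by decide +kernel
theorem cw1537 : wchk (nat_lit 5) [] [l364] (nat_lit 3) (nat_lit 2) (nat_lit 2) (nat_lit 0) (nat_lit 22597888) (nat_lit 0) w1537 = true := by decide +kernel
theorem cw1538 : wchk (nat_lit 5) [] [l229] (nat_lit 35) (nat_lit 1) (nat_lit 0) (nat_lit 0) (nat_lit 18521088) (nat_lit 0) w1538 = true := by decide +kernel
theorem cw1539 : wchk (nat_lit 5) [] [l129] (nat_lit 3) (nat_lit 2) (nat_lit 1) (nat_lit 0) (nat_lit 22565632) (nat_lit 0) w1539 = true := by decide +kernel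
theorem cw1540 : wchk (nat_lit 5) [] [l40] (nat_lit 3) (nat_lit 3) (nat_lit 4) (nat_lit 0) (nat_lit 5705984) (nat_lit 0) w1540 = true := by decide +kernel
theorem cw1541 : wchk (nat_lit 5) [] [l129] (nat_lit 0) (nat_lit 0) (nat_lit 1) (nat_lit 1) (nat_lit 22565632) (nat_lit 0) w1541 = true := by decide +kernel
theorem cw1542 : wchk (nat_lit 5) [] [l129] (nat_lit 19) (nat_lit 0) (nat_lit 1) (nat_lit 1) (nat_lit 22565632) (nat_lit 0) w1542 = true := by decide +kernel
theorem cl365 : lchk (nat_lit 5) [w431, w1538, w39, w3, w15, w1541, w1542, w1051, w1535, w1489, w1540, w160, w926, w1532] (nat_lit 19490816) .nil .nil (.nod (nat_lit 421250183564709879433955852132568288917539790183778448190902108298) (.nod (nat_lit 2623828525391632559283359978900807896790584488556091691499914) .nil (.nod (nat_lit 7869021437117654282449428559206439284264868692200223409619850577936) .nil (.dwn (nat_lit 1139032397670985998076354551852734032304773128364319629908944471245040376717329751527424) (nat_lit 4918437888)) .dup) (.nod (nat_lit 292295803365788827549610569466887794056096895886989018636564776992) (.opn (nat_lit 1139910540791007242740725870334199051220680722199864963764468879537349845758148828629040))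 .dup .dup)) .nil (.nod (nat_lit 3559273745516173025233093861931747478177835582274432305554863993379001925848660967754) (.dwn (nat_lit 145025031414096012314856877908510811990429107378096436950074517473862407597376873646160) (nat_lit 623470592)) .nil .nil)) (.nod (nat_lit 421249380095687749938818081151522118336238529082281556794484457482) (.opn (nat_lit 20933265353344295119028084109419033244155100401325287442790477408497539185846941385098)) .nil (.nod (nat_lit 210625600227595506038119796765227424283084460215610663935246598282) .nil (.opn (nat_lit 7827176670011522409911735742451962080816870841631550065299319607296)) .dup)) l365 = true := by decide +kernel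
theorem cw1543 : wchk (nat_lit 5) [] [l365] (nat_lit 3) (nat_lit 2) (nat_lit 2) (nat_lit 0) (nat_lit 22597888) (nat_lit 0) w1543 = true := by decide +kernel
theorem cw1544 : wchk (nat_lit 5) [] [l41] (nat_lit 19) (nat_lit 0) (nat_lit 4) (nat_lit 1) (nat_lit 22434816) (nat_lit 0) w1544 = true := by decide +kernel
theorem cl366 : lchk (nat_lit 5) [w431, w42, w1379, w39, w3, w15, w1404, w1544, w1051, w1535, w1489, w1540, w160, w926, w1532] (nat_lit 19490816) .nil .nil (.nod (nat_lit 421250183564709879433955852132568288917539790183778448190872045577) (.nod (nat_lit 2623828525391632559283359978900807447485895416359157156020618) .nil (.nod (nat_lit 7869021487334468165542874669892754669926200021166640917921803094040) .nil (.dwn (nat_lit 1139032397670985998076354551852734032304773128364319629908944471245040376717329751527424) (nat_lit 4918437888)) .dup) (.nod (nat_lit 292295853582602711053440571205122274791261604143246696916091095080) (.opn (nat_lit 1139910541717343956639255433772983745173277431139433415410622230889683932189209963956280)) .dup .dup)) .nil (.nod (nat_lit 3559274671852886923762657250499627547681098408434309630679376309187247941743374500170) (.dwn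 (nat_lit 145025032340432726213386441347295505943025816317664888596227868826196494028438008973400) (nat_lit 623470592)) .nil .nil)) (.nod (nat_lit 421249380095687749938818081151522118336238529082281556794484457482) (.opn (nat_lit 20933266279681009017557647497986913313658363227485164767914989724305785201741688471690)) .nil (.nod (nat_lit 20933266279681009017557644874158387922025803944125185867110427793521209415775262081162) .nil (.opn (nat_lit 144385924851412713703842985554779550105463685048138406483834225599129383866739207622656)) .dup)) l366 = true := by decide +kernel
theorem cw1545 : wchk (nat_lit 5) [] [l366] (nat_lit 3) (nat_lit 2) (nat_lit 2) (nat_lit 0) (nat_lit 22597888) (nat_lit 0) w1545 = true := by decide +kernel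
theorem cw1546 : wchk (nat_lit 5) [] [l103] (nat_lit 3) (nat_lit 2) (nat_lit 1) (nat_lit 0) (nat_lit 21649920) (nat_lit 0) w1546 = true := by decide +kernel
theorem cw1547 : wchk (nat_lit 5) [] [l103] (nat_lit 0) (nat_lit 0) (nat_lit 1) (nat_lit 1) (nat_lit 21649920) (nat_lit 0) w1547 = true := by decide +kernel
theorem cw1548 : wchk (nat_lit 5) [] [l103] (nat_lit 19) (nat_lit 0) (nat_lit 1) (nat_lit 1) (nat_lit 21649920) (nat_lit 0) w1548 = true := by decide +kernel
theorem cl367 : lchk (nat_lit 5) [w431, w1120, w39, w3, w15, w1547, w1548, w1051, w1535, w1489, w1540, w160, w926, w1532] (nat_lit 19490816) .nil .nil (.nod (nat_lit 421250183564709879433955852132568288917539790183778448190902108298) (.nod (nat_lit 2623828525391632559283359978900807836759861758317161734996362) .nil (.nod (nat_lit 7869021437117654282449428559206439284264868692200223409619850577936) .nil (.dwn (nat_lit 1139032397670985998076354551852734032304773128364319629908944471245040376717329751527424) (nat_lit 4918437888)) .dup) (.nod (nat_lit 292295803365788827549610569466887794056096895886989018636564776992) (.opn (nat_lit 1139910540791007242740725870334199051220680722199864963764468879537349845758148828629040))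 .dup .dup)) .nil (.nod (nat_lit 3559273745516173025233093861931747478177835582274432305554863993379001925848660967754) (.dwn (nat_lit 145025031414096012314856877908510811990429107378096436950074517473862407597376873646160) (nat_lit 623470592)) .nil .nil)) (.nod (nat_lit 421249380095687749938818081151522118336238529082281556794484457482) (.opn (nat_lit 20933265353344295119028084109419033244155100401325287442790477408497539185846941385098)) .nil (.nod (nat_lit 20933265353344295119238707085818103358560660914730535966265665077095643625562761592970) .nil (.opn (nat_lit 144385924851412713711670162224791072514526796595584933680583772288611709054860102127616)) .dup)) l367 = true := by decide +kernel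
theorem cw1549 : wchk (nat_lit 5) [] [l367] (nat_lit 3) (nat_lit 2) (nat_lit 2) (nat_lit 0) (nat_lit 22597888) (nat_lit 0) w1549 = true := by decide +kernel
theorem cw1550 : wchk (nat_lit 5) [] [l129] (nat_lit 0) (nat_lit 0) (nat_lit 1) (nat_lit 1) (nat_lit 22221568) (nat_lit 0) w1550 = true := by decide +kernel
theorem cw1551 : wchk (nat_lit 5) [] [l129] (nat_lit 19) (nat_lit 0) (nat_lit 1) (nat_lit 1) (nat_lit 22221568) (nat_lit 0) w1551 = true := by decide +kernel
theorem cl368 : lchk (nat_lit 5) [w431, w1473, w39, w3, w15, w1550, w1551, w1051, w1535, w1489, w1540, w160, w926, w1532] (nat_lit 19490816) .nil .nil (.nod (nat_lit 421250183564709879433955852132568288917539790183778448190902108298) (.nod (nat_lit 2623828525391632559283359978900807857916063601573172292354442) .nil (.nod (nat_lit 7869021437117654282449428559206439284264868692200223409619850577936) .nil (.dwn (nat_lit 1139032397670985998076354551852734032304773128364319629908944471245040376717329751527424) (nat_lit 4918437888)) .dup) (.nod (nat_lit 292295803365788827549610569466887794056096895886989018636564776992) (.opn (nat_lit 1139910540791007242740725870334199051220680722199864963764468879537349845758148828629040))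 .dup .dup)) .nil (.nod (nat_lit 3559273745516173025233093861931747478177835582274432305554863993379001925848660967754) (.dwn (nat_lit 145025031414096012314856877908510811990429107378096436950074517473862407597376873646160) (nat_lit 623470592)) .nil .nil)) (.nod (nat_lit 421249380095687749938818081151522118336238529082281556794484457482) (.opn (nat_lit 20933265353344295119028084109419033244155100401325287442790477408497539185846941385098)) .nil (.nod (nat_lit 20933265353344295119238707085818103358560660914730535966262330216262713187309761593482) .nil (.opn (nat_lit 144385924851412713711670162224791072514951108693087651122582931357341996936102444978176)) .dup)) l368 = true := by decide +kernel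
theorem cw1552 : wchk (nat_lit 5) [] [l368] (nat_lit 3) (nat_lit 2) (nat_lit 2) (nat_lit 0) (nat_lit 22597888) (nat_lit 0) w1552 = true := by decide +kernel
theorem cw1554 : wchk (nat_lit 5) [] [l0] (nat_lit 2) (nat_lit 2) (nat_lit 3) (nat_lit 0) (nat_lit 5557248) (nat_lit 0) w1554 = true := by decide +kernel
theorem cw1555 : wchk (nat_lit 5) [] [l196] (nat_lit 0) (nat_lit 3) (nat_lit 2) (nat_lit 0) (nat_lit 4901376) (nat_lit 0) w1555 = true := by decide +kernel
theorem cw1556 : wchk (nat_lit 5) [] [l129] (nat_lit 3) (nat_lit 3) (nat_lit 2) (nat_lit 0) (nat_lit 5562624) (nat_lit 0) w1556 = true := by decide +kernel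
theorem cw1557 : wchk (nat_lit 5) [] [l41] (nat_lit 3) (nat_lit 3) (nat_lit 4) (nat_lit 0) (nat_lit 4365568) (nat_lit 0) w1557 = true := by decide +kernel
theorem cw1558 : wchk (nat_lit 5) [] [l129] (nat_lit 3) (nat_lit 3) (nat_lit 2) (nat_lit 0) (nat_lit 5562624) (nat_lit 0) w1558 = true := by decide +kernel
theorem cw1559 : wchk (nat_lit 5) [] [l303] (nat_lit 19) (nat_lit 3) (nat_lit 3) (nat_lit 0) (nat_lit 156666880) (nat_lit 0) w1559 = true := by decide +kernel
theorem cw1560 : wchk (nat_lit 5) [] [l297] (nat_lit 3) (nat_lit 3) (nat_lit 2) (nat_lit 0) (nat_lit 5788416) (nat_lit 0) w1560 = true := by decide +kernel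
theorem cl369 : lchk (nat_lit 5) [w719, w1554, w1555, w15, w142, w3, w39, w573, w1099, w1556, w1557, w1325, w1558, w1559, w1560, w722, w743, w152] (nat_lit 22709248) .nil .nil (.nod (nat_lit 15845379424384764112480471994284147997256615953) (.nod (nat_lit 142238029372953098626562204704488638382482) .nil (.nod (nat_lit 279067489385448819585503747549597204850578206739894599622129813552) .nil (.dwn (nat_lit 1139777735601682466151333905527765843237557386305744269885027687358326408274046465935360) (nat_lit 4921656320)) .dup) (.nod (nat_lit 279067489385448819585503747549597204850578206739894599622129813552) (.opn (nat_lit 1139777735601682466151333905527765843237557386305744269885027687358326408274046465935360)) .nil (.dwn (nat_lit 1139777735601682466151333905527765843237557386305744269885027687358326408274046465935360) (nat_lit 4921656320)))) .nil (.nod (nat_lit 5016749699082985875559143016709967916945217428011229484742299570372587992192278069586) (.dwn (nat_lit 145116323749924140200387948000010607792893792782102227514292249835899043484076844943456) (nat_lit 626689024)) .nil .nil)) (.nod (nat_lit 292296255317113775397616150323483959754526243668009684691878674450)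 (.opn (nat_lit 20933266279681009018685239878217540083675854114116859680836197246683936352632004348024)) (.dwn (nat_lit 20933266279681009018680201223546138253480000070603693194173326221559243294272364677240) (nat_lit 89818112)) .dup) l369 = true := by decide +kernel
theorem cw1561 : wchk (nat_lit 5) [] [l369] (nat_lit 3) (nat_lit 2) (nat_lit 1) (nat_lit 0) (nat_lit 22597888) (nat_lit 0) w1561 = true := by decide +kernel
theorem cl370 : lchk (nat_lit 5) [w17] (nat_lit 273) (.nod (nat_lit 315937891896152692753164851887112816363375207483309682519567237636) (.nod (nat_lit 210628010634661894534951277044185953904520721445302518708407632034) .nil .nil (.opn (nat_lit 1895624677331576881792983572316094303394572549898855987505744839202))) (.dwn (nat_lit 3885401006932181716692253094039514451417452840560092436156730064855544364070472777890) (nat_lit 16777489)) .dup) .nil (.nod (nat_lit 27985920) .nil .nil (.dwn (nat_lit 3885341721382492210589568215060528108673680689283757674283421131682496828100399071492) (nat_lit 16777233))) .nil l370 = true := by decide +kernel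
theorem cw1563 : wchk (nat_lit 5) [] [l44] (nat_lit 3) (nat_lit 1) (nat_lit 1) (nat_lit 0) (nat_lit 5444352) (nat_lit 0) w1563 = true := by decide +kernel
theorem cw1564 : wchk (nat_lit 5) [] [l8] (nat_lit 17) (nat_lit 3) (nat_lit 1) (nat_lit 0) (nat_lit 5704192) (nat_lit 0) w1564 = true := by decide +kernel
theorem cw1566 : wchk (nat_lit 5) [] [l106] (nat_lit 19) (nat_lit 3) (nat_lit 1) (nat_lit 0) (nat_lit 155536128) (nat_lit 0) w1566 = true := by decide +kernel
theorem cw1571 : wchk (nat_lit 5) [] [l125] (nat_lit 17) (nat_lit 1) (nat_lit 3) (nat_lit 0) (nat_lit 156439296) (nat_lit 0) w1571 = true := by decide +kernel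
theorem cw1572 : wchk (nat_lit 5) [] [l48] (nat_lit 17) (nat_lit 1) (nat_lit 3) (nat_lit 0) (nat_lit 156408832) (nat_lit 0) w1572 = true := by decide +kernel
theorem cw1574 : wchk (nat_lit 5) [] [l111] (nat_lit 1) (nat_lit 3) (nat_lit 3) (nat_lit 0) (nat_lit 22192896) (nat_lit 0) w1574 = true := by decide +kernel
theorem cw1575 : wchk (nat_lit 5) [w642] [] (nat_lit 0) (nat_lit 0) (nat_lit 4) (nat_lit 2) (nat_lit 33554505) (nat_lit 622502912) w1575 = true := by decide +kernel
theorem cw1576 : wchk (nat_lit 5) [] [l101] (nat_lit 273) (nat_lit 1) (nat_lit 4) (nat_lit 0) (nat_lit 22209024) (nat_lit 0) w1576 = true := by decide +kernel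
theorem cw1577 : wchk (nat_lit 5) [] [] (nat_lit 0) (nat_lit 0) (nat_lit 3) (nat_lit 2) (nat_lit 16777221) (nat_lit 209) w1577 = true := by decide +kernel
theorem cl373 : lchk (nat_lit 5) [w1] (nat_lit 16777253) .nil (.nod (nat_lit 1548844026360040994487249842614634315323486727253912753183595167744) .nil (.nod (nat_lit 1632046451200536998731376502600843022791182010888765648667018) .nil .nil (.nod (nat_lit 11418072056757280018097569013241537941439774986) .nil (.dwn (nat_lit 34968070860758860402658296992705352630546812214992461815880506333791827279909136368018) (nat_lit 150995077)) .dup)) (.nod (nat_lit 1632046451200536998731376502600843022798450028053807212003722) (.opn (nat_lit 3885368585147195268157533540044248240027777726645330991370733994264016168326751322378)) .dup .dup)) .nil .nil l373 = true := by decide +kernel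
theorem cw1578 : wchk (nat_lit 5) [] [l373] (nat_lit 0) (nat_lit 0) (nat_lit 3) (nat_lit 0) (nat_lit 5820672) (nat_lit 0) w1578 = true := by decide +kernel
theorem cw1584 : wchk (nat_lit 5) [] [l119] (nat_lit 17) (nat_lit 1) (nat_lit 3) (nat_lit 0) (nat_lit 156410624) (nat_lit 0) w1584 = true := by decide +kernel
theorem cw1588 : wchk (nat_lit 5) [] [l57] (nat_lit 1) (nat_lit 1) (nat_lit 1) (nat_lit 0) (nat_lit 22192896) (nat_lit 0) w1588 = true := by decide +kernel
theorem cw1595 : wchk (nat_lit 5) [] [l171] (nat_lit 3) (nat_lit 0) (nat_lit 2) (nat_lit 0) (nat_lit 5820672) (nat_lit 0) w1595 = true := by decide +kernel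
theorem cw1599 : wchk (nat_lit 5) [w16] [] (nat_lit 0) (nat_lit 1) (nat_lit 4) (nat_lit 2) (nat_lit 13412352) (nat_lit 18064384) w1599 = true := by decide +kernel
theorem cw1611 : wchk (nat_lit 5) [] [] (nat_lit 17) (nat_lit 1) (nat_lit 1) (nat_lit 2) (nat_lit 16777233) (nat_lit 193) w1611 = true := by decide +kernel
theorem cw1612 : wchk (nat_lit 5) [] [l296] (nat_lit 2) (nat_lit 2) (nat_lit 1) (nat_lit 0) (nat_lit 22307584) (nat_lit 0) w1612 = true := by decide +kernel
theorem cw1613 : wchk (nat_lit 5) [] [l29] (nat_lit 0) (nat_lit 0) (nat_lit 1) (nat_lit 1) (nat_lit 18309632) (nat_lit 0) w1613 = true := by decide +kernel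
theorem cw1616 : wchk (nat_lit 5) [] [l1] (nat_lit 2) (nat_lit 3) (nat_lit 1) (nat_lit 0) (nat_lit 5820672) (nat_lit 0) w1616 = true := by decide +kernel
theorem cw1620 : wchk (nat_lit 5) [] [l330] (nat_lit 26) (nat_lit 1) (nat_lit 1) (nat_lit 0) (nat_lit 156568320) (nat_lit 0) w1620 = true := by decide +kernel
theorem cw1624 : wchk (nat_lit 5) [] [l349] (nat_lit 18) (nat_lit 3) (nat_lit 3) (nat_lit 0) (nat_lit 156552192) (nat_lit 0) w1624 = true := by decide +kernel
theorem cw1631 : wchk (nat_lit 5) [] [l340] (nat_lit 2) (nat_lit 3) (nat_lit 1) (nat_lit 0) (nat_lit 22583552) (nat_lit 0) w1631 = true := by decide +kernel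
theorem cl379 : lchk (nat_lit 5) [w1620, w42, w162, w3, w39, w642, w718, w1631, w168, w1554, w1325, w1520, w1521, w259] (nat_lit 23153664) .nil .nil (.nod (nat_lit 837823537945497638656100361) (.nod (nat_lit 271958301321121015806294649716238553381186716118581438145584169370) .nil (.nod (nat_lit 292205764618496440984888718930263164627473434048582978844118124576) .nil (.nod (nat_lit 1139561937127149378541275529675259804733748870468340006796700859627015713193923840395272) .nil (.opn (nat_lit 9097052437872529723297425325285946430864277759815016778862285571657915513396780133947392)) .dup) (.dwn (nat_lit 1139561937127149378602764769684247340260840167553536557925678078676166896281347948058632) (nat_lit 4922100736))) (.dwn (nat_lit 292205764618496441000417020182609695991252562413290738335979571232) (nat_lit 627262488))) .nil (.nod (nat_lit 5391908657518179160772633773360124479036112040849049487024214048915527700516362518874) (.opn (nat_lit 145234190833400589095291902966951192260284075961588006831936832627113735515236343662688)) .nil .nil)) (.nod (nat_lit 15172208005528978416787332185990960383319343130) (.opn (nat_lit 20903373393923503469680269930966922778341411918656890742183473335459518949296697415680))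 .dup .dup) l379 = true := by decide +kernel
theorem cw1632 : wchk (nat_lit 5) [] [l379] (nat_lit 3) (nat_lit 2) (nat_lit 2) (nat_lit 0) (nat_lit 22597888) (nat_lit 0) w1632 = true := by decide +kernel
theorem cw1634 : wchk (nat_lit 5) [w1501, w16] [] (nat_lit 3) (nat_lit 1) (nat_lit 3) (nat_lit 2) (nat_lit 90391552) (nat_lit 22250500) w1634 = true := by decide +kernel
theorem cw1635 : wchk (nat_lit 5) [] [l20] (nat_lit 26) (nat_lit 2) (nat_lit 2) (nat_lit 0) (nat_lit 156672256) (nat_lit 0) w1635 = true := by decide +kernel
theorem cw1636 : wchk (nat_lit 5) [] [l37] (nat_lit 3) (nat_lit 1) (nat_lit 2) (nat_lit 0) (nat_lit 22354176) (nat_lit 0) w1636 = true := by decide +kernel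
theorem cw1637 : wchk (nat_lit 5) [] [l89] (nat_lit 3) (nat_lit 3) (nat_lit 2) (nat_lit 0) (nat_lit 5428224) (nat_lit 0) w1637 = true := by decide +kernel
theorem cw1638 : wchk (nat_lit 5) [w1637, w16] [] (nat_lit 3) (nat_lit 1) (nat_lit 3) (nat_lit 2) (nat_lit 90391552) (nat_lit 22250500) w1638 = true := by decide +kernel
theorem cw1639 : wchk (nat_lit 5) [w112, w16] [] (nat_lit 3) (nat_lit 1) (nat_lit 3) (nat_lit 2) (nat_lit 88764416) (nat_lit 22250500) w1639 = true := by decide +kernel
theorem cw1640 : wchk (nat_lit 5) [] [l116] (nat_lit 19) (nat_lit 3) (nat_lit 1) (nat_lit 0) (nat_lit 5415680) (nat_lit 0) w1640 = true := by decide +kernel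
theorem cl380 : lchk (nat_lit 5) [w281, w40, w1531, w109, w217, w8, w918, w1538, w1120, w1379] (nat_lit 23211008) (.nod (nat_lit 928455656653333712349429786) .nil .nil (.dwn (nat_lit 285096570277066901818998857261115089951029466991235138741124202586) (nat_lit 5189633032))) .nil (.nod (nat_lit 618973008015230078430478490) (.nod (nat_lit 1120215944559914878243946610175078701153451967569179968950033711514) .nil (.nod (nat_lit 7873880717329865702855775231201048188674552326675807026826510096384) .nil (.opn (nat_lit 1139893935279073897699771666679775256968726424292157910861254469380442270654826354595840)) .dup) .nil) .nil (.nod (nat_lit 28355333553042491670937678616198031592867843494002873780343884033792566810959973187930) (.dwn (nat_lit 145247468017520896726246030108948224562305939117081842630852013007209755811133721462856) (nat_lit 627190784)) .nil .nil)) .nil l380 = true := by decide +kernel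
theorem cw1641 : wchk (nat_lit 5) [] [l380] (nat_lit 1) (nat_lit 2) (nat_lit 2) (nat_lit 0) (nat_lit 30986496) (nat_lit 0) w1641 = true := by decide +kernel
theorem cl381 : lchk (nat_lit 5) [w726, w341, w1635, w1533, w284, w16, w1, w618, w1640, w24, w1641, w209, w111, w1636, w815, w762, w1390, w384, w1638, w1639] (nat_lit 15483904) (.nod (nat_lit 858715268818968875374104584) .nil .nil (.dwn (nat_lit 292295702932161061346872958121118884071660265222225606355550470234) (nat_lit 89359372))) .nil (.nod (nat_lit 61468530877630500671365609761952382511531163802) (.nod (nat_lit 292295859859704446075409372877842254486468293208732493984727255081) .nil (.nod (nat_lit 7855073465977555662324954881676494921203954410274300137186799290432) .nil (.dwn (nat_lit 1138104460247245851853830144938830285508723239301387839827362026239857989990816069224448) (nat_lit 4914430976)) (.dwn (nat_lit 1138104460247245851853830144938830285508723239301387839827362026239857989990816069224448) (nat_lit 4914430976))) (.dwn (nat_lit 292206065919379739561410786632588294094550836329130878787308120152) (nat_lit 619463680))) (.nod (nat_lit 20558105468572387936697449802803090786619764441378128962410859502545728324452587309176)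 (.dwn (nat_lit 145250797271670648041496669147016376181056800217182006414464781574594583787023975745688) (nat_lit 626230284)) .nil .nil) .dup) .nil l381 = true := by decide +kernel
theorem cw1642 : wchk (nat_lit 5) [] [l381] (nat_lit 2) (nat_lit 3) (nat_lit 1) (nat_lit 0) (nat_lit 5820672) (nat_lit 0) w1642 = true := by decide +kernel
theorem cw1643 : wchk (nat_lit 5) [w1528, w16] [] (nat_lit 26) (nat_lit 1) (nat_lit 4) (nat_lit 2) (nat_lit 622674944) (nat_lit 18064388) w1643 = true := by decide +kernel
theorem cw1647 : wchk (nat_lit 5) [w85] [] (nat_lit 0) (nat_lit 0) (nat_lit 1) (nat_lit 2) (nat_lit 25165873) (nat_lit 73181184) w1647 = true := by decide +kernel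
theorem cl382 : lchk (nat_lit 5) [w15, w1, w734, w1425, w1424, w278, w280, w149, w53, w279, w638] (nat_lit 626208768) .nil (.nod (nat_lit 20694215016747729817216225712136383976224770200488539899987193610191891702092050464768) (.nod (nat_lit 2422961269859258774840614717358159236615509201563117372309579) .nil (.nod (nat_lit 210625600227595506038119796765227424279749599382680225682246598666) .nil (.dwn (nat_lit 1137131704800613866912323412130343706261793531598320073994601834271927443214737157915018) (nat_lit 4910051344)) .dup) .nil) .nil (.nod (nat_lit 38211389448314660427268586694494998060518053314432697012905241288974230987211338) (.opn (nat_lit 142445395796996090247453966261354545423784876398131179463069169348240511055715938945080)) (.dwn (nat_lit 207399596310960633273350087751000714457288870432719080295432548141231181604638441424952) (nat_lit 894644224)) .dup)) .nil .nil l382 = true := by decide +kernel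
theorem cw1651 : wchk (nat_lit 5) [] [l298] (nat_lit 3) (nat_lit 2) (nat_lit 2) (nat_lit 0) (nat_lit 22307584) (nat_lit 0) w1651 = true := by decide +kernel
theorem cw1653 : wchk (nat_lit 5) [w1139, w16] [] (nat_lit 3) (nat_lit 1) (nat_lit 1) (nat_lit 2) (nat_lit 90262528) (nat_lit 23282692) w1653 = true := by decide +kernel
theorem cw1654 : wchk (nat_lit 5) [] [l90] (nat_lit 2) (nat_lit 2) (nat_lit 4) (nat_lit 0) (nat_lit 4673792) (nat_lit 0) w1654 = true := by decide +kernel
theorem cw1657 : wchk (nat_lit 5) [w80, w15] [] (nat_lit 2) (nat_lit 1) (nat_lit 3) (nat_lit 2) (nat_lit 89753600) (nat_lit 22709252) w1657 = true := by decide +kernel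
theorem cl384 : lchk (nat_lit 5) [w15] (nat_lit 5) (.nod (nat_lit 210625198493084441290550911274704338989098968831931779984004218880) .nil .nil .nil) (.nod (nat_lit 1632046451200536998597305250033993268186612415560649010399233) .nil (.nod (nat_lit 11418072056757280018716543939718151685630066954) .nil (.dwn (nat_lit 34968070860758860402658296992705352630649573997144371155334056477159250600100227973386) (nat_lit 150995077)) .dup) (.nod (nat_lit 11418072056757280018716543939718151685630066954) (.opn (nat_lit 34968070860758860402658296992705352630649573997144371155334056477159250600100227973386)) .nil (.dwn (nat_lit 34968070860758860402658296992705352630649573997144371155334056477159250600100227973386) (nat_lit 150995077)))) .nil .nil l384 = true := by decide +kernel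
theorem cw1661 : wchk (nat_lit 5) [] [l384] (nat_lit 0) (nat_lit 3) (nat_lit 3) (nat_lit 0) (nat_lit 5705984) (nat_lit 0) w1661 = true := by decide +kernel
theorem cw1663 : wchk (nat_lit 5) [w80] [] (nat_lit 0) (nat_lit 0) (nat_lit 3) (nat_lit 2) (nat_lit 33554513) (nat_lit 89753600) w1663 = true := by decide +kernel
theorem cw1666 : wchk (nat_lit 5) [w15] [] (nat_lit 1) (nat_lit 2) (nat_lit 3) (nat_lit 2) (nat_lit 16777297) (nat_lit 22709248) w1666 = true := by decide +kernel
theorem cw1667 : wchk (nat_lit 5) [] [l196] (nat_lit 0) (nat_lit 3) (nat_lit 1) (nat_lit 0) (nat_lit 5802752) (nat_lit 0) w1667 = true := by decide +kernel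
theorem cw1673 : wchk (nat_lit 5) [] [l40] (nat_lit 1) (nat_lit 1) (nat_lit 1) (nat_lit 0) (nat_lit 3433728) (nat_lit 0) w1673 = true := by decide +kernel
theorem cw1674 : wchk (nat_lit 5) [] [l129] (nat_lit 2) (nat_lit 0) (nat_lit 1) (nat_lit 0) (nat_lit 4630784) (nat_lit 0) w1674 = true := by decide +kernel
theorem cw1675 : wchk (nat_lit 5) [] [l29] (nat_lit 2) (nat_lit 1) (nat_lit 3) (nat_lit 0) (nat_lit 5661184) (nat_lit 0) w1675 = true := by decide +kernel
theorem cl385 : lchk (nat_lit 5) [w1620, w42, w16, w3, w39, w267, w260, w1564, w262, w1051, w1535, w256, w1272, w255, w257, w259] (nat_lit 23153664) .nil .nil (.nod (nat_lit 837823537945497638656100361) (.nod (nat_lit 292295709209262796733553721956908307278707717207896464269158384026) .nil (.nod (nat_lit 292205764618496440984888718930263164649752123515351172591398504480) .nil (.dwn (nat_lit 1139681460500670278013780429811689412600744804224991512962275924692210697316253293692936) (nat_lit 4922100736)) .dup) (.dwn (nat_lit 292205764618496441000060907879979595492768717730454551794195793976) (nat_lit 626273312))) .nil (.nod (nat_lit 3585835524450499462211413397960000654165847656237320052537848231563073197298048565594)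 (.opn (nat_lit 145034993239117277101781468679396228691248416383795707447174437952964849236173126260848)) .nil .nil)) (.nod (nat_lit 15172213450046849151802747599984679291610726426) (.opn (nat_lit 20903373393923503468547095788668545051795833258228119062787276317115744228870214293504)) .nil .dup) l385 = true := by decide +kernel
theorem cw1676 : wchk (nat_lit 5) [] [l385] (nat_lit 3) (nat_lit 2) (nat_lit 2) (nat_lit 0) (nat_lit 22597888) (nat_lit 0) w1676 = true := by decide +kernel
theorem cw1679 : wchk (nat_lit 5) [] [l261] (nat_lit 33) (nat_lit 3) (nat_lit 2) (nat_lit 0) (nat_lit 22354176) (nat_lit 0) w1679 = true := by decide +kernel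
theorem cl386 : lchk (nat_lit 5) [w152, w281, w3, w924, w1564, w1679, w4, w1489, w926, w1540, w1563, w815, w1535, w431] (nat_lit 23225344) .nil .nil (.nod (nat_lit 22836018209038799288963656577878326128641310866) (.nod (nat_lit 1126605029790260857392609372319625765290695309014620125507159589266) .nil (.nod (nat_lit 286446448451058336743900216104997052220980425661647012666112821280) .nil (.dwn (nat_lit 1139897255269856510029727031284118383075331253948912586317718091723931295294277208557568) (nat_lit 4922172416)) (.dwn (nat_lit 1139897255269856510029727031284118383075331253948912586317718091723931295294277208557568) (nat_lit 4922172416))) (.dwn (nat_lit 286446448451058336759082156186219969476584869694935842839188817952) (nat_lit 627205120))) .nil (.nod (nat_lit 5391906804844751363720166047046145829544540178527283733289594828667195984743990559058) (.dwn (nat_lit 145157829192727077715996947165954644258549710302164855871521100721722599355459421423688) (nat_lit 627205120)) .nil .nil)) (.nod (nat_lit 22835974652895833408840333265928574862310244370) (.opn (nat_lit 20694224164322779566318217642442253451476401407017955439386508354931663697196068372882)) .nil (.dwn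 (nat_lit 20694224164322779566318217642442253451487819301447317186674727996063360155754501767314) (nat_lit 78220340))) l386 = true := by decide +kernel
theorem cw1680 : wchk (nat_lit 5) [] [l386] (nat_lit 3) (nat_lit 2) (nat_lit 3) (nat_lit 0) (nat_lit 22597888) (nat_lit 0) w1680 = true := by decide +kernel
theorem cl387 : lchk (nat_lit 5) [w1371, w281, w924, w1531, w1534, w1541, w1550, w1547, w1404, w1399, w8, w1400, w1402, w1401, w1403] (nat_lit 19555328) (.nod (nat_lit 928455656653333712349429786) (.nod (nat_lit 20916654283390666688030571878880293129652567190160201474285264544581951074651240136704) (.opn (nat_lit 145247464312174041132146403929401685083673510397115600054465457713267782135569430085632)) .nil .nil) .nil (.nod (nat_lit 1201836903226872343561143702907103138553976805946365467310292333621078826804137062039898) (.dwn (nat_lit 9594166519494695358185227367270441249717568369485487226343725391986948553581630242211904) (nat_lit 623535104)) .nil .nil)) .nil (.nod (nat_lit 618973008015230078430478362) (.nod (nat_lit 1133174192515191609639024771115087065057528354873357298949351801242) .nil (.nod (nat_lit 7827986566785828940586296793843784584746383338386619706382992328704)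 .nil (.opn (nat_lit 1139047337629507753561153692572278099784494861819715669463030771790740987594858594355200)) .dup) .nil) .nil (.nod (nat_lit 4528712906712401169498335699503064023577317774556509910169757522778686269363419349338) (.dwn (nat_lit 145250792639987078548867839533023870647169020317118753932418927360371527651626528852080) (nat_lit 623535104)) .nil .nil)) .nil l387 = true := by decide +kernel
theorem cl390 : lchk (nat_lit 5) [w1528, w281, w924, w1613, w4, w1541] (nat_lit 23282688) (.nod (nat_lit 210625198493084441290550911274704338989098968831931779984037773386) (.nod (nat_lit 2623828525391632559283359978900807896790436914603502015086986) (.opn (nat_lit 7874780602634650737410078729972759239731967404877555797815598680064)) .nil .nil) .nil (.nod (nat_lit 2222094014326946507700397889993535145611732462683279350301002) (.opn (nat_lit 145264062413413674984864100073547927711931133519057751822780702801484093470000502179840)) .dup .dup)) (.nod (nat_lit 210624796758573376542982025784181253698448338281183334285828947978) .nil (.nod (nat_lit 2623828525391632559283359978900807858709421170695272688255370) .nil (.dwn (nat_lit 145038304892869464344958433855784740367569242021571046297257250073459229850166884878352)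 (nat_lit 626287624)) (.dwn (nat_lit 145038304892869464344958433855784740367569242021571046297257250073459229850166884878352) (nat_lit 626287624))) (.dwn (nat_lit 2623828525394982455278049721450884095485006676568455352680842) (nat_lit 4922100756))) .nil .nil l390 = true := by decide +kernel
theorem cw1689 : wchk (nat_lit 5) [] [l390] (nat_lit 26) (nat_lit 3) (nat_lit 3) (nat_lit 0) (nat_lit 5820672) (nat_lit 0) w1689 = true := by decide +kernel
theorem cl391 : lchk (nat_lit 5) [w924, w1, w3, w15, w802, w210, w915, w1027, w173] (nat_lit 23211008) (.nod (nat_lit 928456837244954429760733274) (.nod (nat_lit 1134703997533326168381340719026995851855129492123438517728558711194) (.opn (nat_lit 7874780703068278503596970951345390011054629798505441726309048143896)) .nil .nil) .nil (.dwn (nat_lit 5391905878508037465185383273493698676532870828345209036358543009359410225844852883802) (nat_lit 90319896))) .nil (.nod (nat_lit 618970646831988643607871514) .nil (.dwn (nat_lit 19127184809582904233351829936284399047526483964588980836117939635415038297638642385306) (nat_lit 90319872)) .dup) .nil l391 = true := by decide +kernel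
theorem cw1690 : wchk (nat_lit 5) [] [l391] (nat_lit 19) (nat_lit 3) (nat_lit 1) (nat_lit 0) (nat_lit 5820672) (nat_lit 0) w1690 = true := by decide +kernel
theorem cl392 : lchk (nat_lit 5) [w128, w219, w15, w281, w554, w621, w1065, w581, w801, w1209, w1192, w1064] (nat_lit 659311616) .nil .nil (.nod (nat_lit 14820938941827263613154117963792284106442670234) (.nod (nat_lit 292295709209262796795022249771997505661829073804767972425638299665) .nil (.nod (nat_lit 7855883212101420544143489698512088710171571847413706941640104826920) .nil (.nod (nat_lit 5378627768051015942418102364514264465258300831774481851260773862568107354534945577016) (.dwn (nat_lit 145234189907063875203503226080258943290543673304079007033147221605728726062467711158344) (nat_lit 625757184)) .nil .nil) (.nod (nat_lit 5378627768051015942418102364514264465258300831774481851260773862568107354534945577016) (.dwn (nat_lit 145234189907063875203503226080258943290543673304079007033147221605728726062467711158344) (nat_lit 625757184)) .nil .nil)) .dup) .nil (.dwn (nat_lit 291576246639657981559266093882133410868894032949887063927881910360) (nat_lit 122440704))) (.nod (nat_lit 25562245329637115457445599232)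 (.opn (nat_lit 1263892745303259325249820754948955516282024250087782202243235972677895968075857606476186)) .nil (.dwn (nat_lit 1263892745303259325249820754948955516282024250087782202243236591643193244283125444378778) (nat_lit 5457595392))) l392 = true := by decide +kernel
theorem cw1691 : wchk (nat_lit 5) [] [l392] (nat_lit 275) (nat_lit 1) (nat_lit 2) (nat_lit 0) (nat_lit 1230557440) (nat_lit 0) w1691 = true := by decide +kernel
theorem cl394 : lchk (nat_lit 5) [w1620, w16, w3, w1564, w152, w924, w1051, w1528, w1489, w926, w160, w1540] (nat_lit 23153664) .nil .nil (.nod (nat_lit 1237943027657920215913595034) (.nod (nat_lit 292295658992448913640107611270592921617376388389052908556882280858) .nil (.nod (nat_lit 292205714401682557891442608243947778966120948880322214531606988824) .nil (.dwn (nat_lit 1139777739307029321745452159282904619047944222053129040728171061936834766560474424477728) (nat_lit 4922100736)) (.dwn (nat_lit 1139777739307029321745452159282904619047944222053129040728171061936834766560474424477728) (nat_lit 4922100736))) (.dwn (nat_lit 292205714401682558318286550836280577634358038056952373901068290072) (nat_lit 626689040))) .nil (.nod (nat_lit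 3585832745440357766624342875154531858573467143487821812083659678742259395424092684634) (.opn (nat_lit 145264069824107386173099707748737508181243157370306514268388831677976220849761530890328)) .nil .nil)) (.nod (nat_lit 1237940666474678781090988058) (.opn (nat_lit 20903373393923503469680269930966922778279982425312675778490863588707735914621781934490)) .nil (.dwn (nat_lit 20903373393923503469680269930966922778279982425312675778491482554005012121889619837082) (nat_lit 90262528))) l394 = true := by decide +kernel
theorem cl395 : lchk (nat_lit 5) [w160, w16, w12, w53, w1401, w1563, w1051, w1528, w1400, w1402, w148, w1530, w330, w381] (nat_lit 22121472) .nil .nil (.nod (nat_lit 1237943027657920215913595034) (.nod (nat_lit 292295658992448913640107611270592921617376387208461287839470977370) .nil (.nod (nat_lit 1134794036280618554930217179590482342645327032361347041924822501400) .nil (.dwn (nat_lit 1139641615979595360623163956749697672866759370378802576170019171275276398056561453504512) (nat_lit 4921068544)) (.dwn (nat_lit 1139641615979595360623163956749697672866759370378802576170019171275276398056561453504512) (nat_lit 4921068544))) (.dwn (nat_lit 1134794036280618555357070876036580563071393683760219129346792966168)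 (nat_lit 626230292))) (.nod (nat_lit 3585832745440357766624342875154531858573467143487821812083659678742259395424092684634) .nil (.opn (nat_lit 145250789860976936853278339319895482257853166636739207215353783022742810207556602251344)) .dup) .nil) (.nod (nat_lit 1237940666474678781090988058) (.opn (nat_lit 20694224164322779566317227768606989913466667416131043910271076957907646613141002912154)) .nil (.dwn (nat_lit 20694224164322779565474729485475346302976769305347995837381866488819373486086629097626) (nat_lit 89230336))) l395 = true := by decide +kernel
theorem cw1694 : wchk (nat_lit 5) [] [l395] (nat_lit 3) (nat_lit 3) (nat_lit 2) (nat_lit 0) (nat_lit 22597888) (nat_lit 0) w1694 = true := by decide +kernel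
theorem cw1695 : wchk (nat_lit 5) [] [l394] (nat_lit 3) (nat_lit 2) (nat_lit 2) (nat_lit 0) (nat_lit 22597888) (nat_lit 0) w1695 = true := by decide +kernel
theorem cl396 : lchk (nat_lit 5) [w1620, w42, w16, w3, w39, w815, w1531, w15, w1532, w1051, w174, w1529, w172, w1530, w976] (nat_lit 23153664) .nil .nil (.nod (nat_lit 837823537945497638656100361) (.nod (nat_lit 292295709209262796733553721956908307278707717207896464269158384026) .nil (.nod (nat_lit 292205764618496440984888718930263164649752123515351172591398504480) .nil (.dwn (nat_lit 1139684780491452890343735614438971581700438773181991846208528064020059372201506329937928) (nat_lit 4922100736)) .dup) (.dwn (nat_lit 292205764618496441000031638151906524027574450229766995051320657976) (nat_lit 626230304))) .nil (.nod (nat_lit 3585835524450499463053821742777979644293761527829512405983267751399814250933759508826) (.opn (nat_lit 145025033266769440111896297297905407638882663969843333723923149979470146960503729735792)) .nil .nil)) (.nod (nat_lit 1237940666474678781090988058) (.opn (nat_lit 1133174142298377726545578660428771679396815991351789950504913600666)) .nil .nil) l396 = true := by decide +kernel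
theorem cw1696 : wchk (nat_lit 5) [] [l396] (nat_lit 3) (nat_lit 2) (nat_lit 2) (nat_lit 0) (nat_lit 22597888) (nat_lit 0) w1696 = true := by decide +kernel
theorem cl397 : lchk (nat_lit 5) [w1620, w42, w16, w3, w39, w1535, w1534, w15, w1536, w1051, w870, w172, w381, w888] (nat_lit 23153664) .nil .nil (.nod (nat_lit 837823537945497638656100361) (.nod (nat_lit 292295709209262796733553721956908307278707717207896464269158384026) .nil (.nod (nat_lit 292205764618496440984888718930263164649752123515351172591398504480) .nil (.dwn (nat_lit 1139671500528322441023914875929842905301662897353990513223519506708664672660494184957960) (nat_lit 4922100736)) .dup) (.dwn (nat_lit 292205764618496441000031638151906524027574450229766995051320657976) (nat_lit 626230304))) .nil (.nod (nat_lit 3585835524450499462211413146875931238698617102805743124231191587468855418736668049754) (.dwn (nat_lit 2134528797394275177787056429453016264173314564094802807681343663407611484025710747766888) (nat_lit 627133440)) .nil .nil)) (.nod (nat_lit 1237940666474678781090988058) (.opn (nat_lit 20903373393923503468547095788668545051734403764883904099095285535661237401463136714906)) .nil .nil) l397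 = true := by decide +kernel
theorem cw1697 : wchk (nat_lit 5) [] [l397] (nat_lit 3) (nat_lit 2) (nat_lit 2) (nat_lit 0) (nat_lit 22597888) (nat_lit 0) w1697 = true := by decide +kernel
theorem cw1703 : wchk (nat_lit 5) [] [l396] (nat_lit 2) (nat_lit 3) (nat_lit 1) (nat_lit 0) (nat_lit 5820672) (nat_lit 0) w1703 = true := by decide +kernel
theorem cl403 : lchk (nat_lit 5) [w1400, w4, w638, w210, w915, w1538, w918] (nat_lit 23211008) (.nod (nat_lit 928456837244954429760733274) (.nod (nat_lit 292205664184868674797996497557632393303968728919045627694070890906) (.opn (nat_lit 7861822354679374006015000569032750875827852936705208512176628107280)) .nil .nil) .nil (.nod (nat_lit 277627622680978881205172038828544137496549959816543621799357710682) (.opn (nat_lit 145250786155630081259160895411314199095471757927562660932500767346010985918235517700128)) .nil (.dwn (nat_lit 145250786155630081259160895411314199095471757927562660932500767346010985918235517700128) (nat_lit 626230280)))) .nil (.nod (nat_lit 618970646831988643607871514) .nil (.dwn (nat_lit 1120216044993542644492317124105599834108562635788167627942368641434) (nat_lit 90319872)) .dup) .nil l403 = true := by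 decide +kernel
theorem cw1706 : wchk (nat_lit 5) [] [l403] (nat_lit 26) (nat_lit 3) (nat_lit 2) (nat_lit 0) (nat_lit 5820672) (nat_lit 0) w1706 = true := by decide +kernel
theorem cw1707 : wchk (nat_lit 5) [] [l403] (nat_lit 26) (nat_lit 3) (nat_lit 1) (nat_lit 0) (nat_lit 5820672) (nat_lit 0) w1707 = true := by decide +kernel
theorem cw1709 : wchk (nat_lit 5) [] [l68] (nat_lit 210) (nat_lit 2) (nat_lit 2) (nat_lit 0) (nat_lit 1229622016) (nat_lit 0) w1709 = true := by decide +kernel
theorem cl404 : lchk (nat_lit 5) [] (nat_lit 1761607817) .nil (.nod (nat_lit 2738121309585464085483078774617522622400155880407894473656271634432) (.nod (nat_lit 928460102318655476351369491) .nil (.nod (nat_lit 88813697766364938963940772539691536744474) (.nod (nat_lit 11417993111248154360374045510332613771181162496) .nil .nil .nil) .nil .nil) .nil) .nil .nil) .nil .nil l404 = true := by decide +kernel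
theorem cw1710 : wchk (nat_lit 5) [] [l404] (nat_lit 210) (nat_lit 3) (nat_lit 3) (nat_lit 0) (nat_lit 1230557440) (nat_lit 0) w1710 = true := by decide +kernel
theorem cl405 : lchk (nat_lit 5) [] (nat_lit 1761607817) .nil (.nod (nat_lit 2738121309585464085483078774617522622400155880407894473656271634432) (.nod (nat_lit 928460102318655476351369491) .nil (.nod (nat_lit 88813697766364938963940772539691536744474) (.nod (nat_lit 11417993111248154360374045510332613771181162496) .nil .nil .nil) .nil .nil) .nil) .nil .nil) .nil .nil l405 = true := by decide +kernel
theorem cw1711 : wchk (nat_lit 5) [] [l405] (nat_lit 210) (nat_lit 3) (nat_lit 3) (nat_lit 0) (nat_lit 1230557440) (nat_lit 0) w1711 = true := by decide +kernel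
theorem cl406 : lchk (nat_lit 5) [w17, w203, w202, w278, w1709, w1710, w1711, w3, w200, w201, w199] (nat_lit 41424864256) .nil (.nod (nat_lit 65107074617100619824988742632335756576721647035146417920907069620224) (.nod (nat_lit 665400492922961152611667985) .nil (.nod (nat_lit 118077981321565646828044435019811140927514) (.nod (nat_lit 3347349528347385334730337564648395250764133433344) .nil .nil .nil) (.nod (nat_lit 1139910539864670528842196306945631171147827563575698551969386487439703261579456668141624) (.opn (nat_lit 206214357748894603682223457571793307053615678008347453957093187645882053315008108324944)) .nil .nil) .dup) .nil) .nil .nil) .nil .nil l406 = true := by decide +kernel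
theorem cw1713 : wchk (nat_lit 5) [] [] (nat_lit 0) (nat_lit 1) (nat_lit 3) (nat_lit 2) (nat_lit 16777221) (nat_lit 33554513) w1713 = true := by decide +kernel
theorem cw1714 : wchk (nat_lit 5) [] [l64] (nat_lit 2) (nat_lit 0) (nat_lit 3) (nat_lit 0) (nat_lit 22583552) (nat_lit 0) w1714 = true := by decide +kernel
theorem cw1716 : wchk (nat_lit 5) [w901] [] (nat_lit 1) (nat_lit 1) (nat_lit 3) (nat_lit 2) (nat_lit 22307840) (nat_lit 209) w1716 = true := by decide +kernel
theorem cw1717 : wchk (nat_lit 5) [w126] [] (nat_lit 1) (nat_lit 1) (nat_lit 4) (nat_lit 2) (nat_lit 77180928) (nat_lit 205) w1717 = true := by decide +kernel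
theorem cw1718 : wchk (nat_lit 5) [] [l178] (nat_lit 210) (nat_lit 1) (nat_lit 2) (nat_lit 0) (nat_lit 22354176) (nat_lit 0) w1718 = true := by decide +kernel
theorem cl407 : lchk (nat_lit 5) [w1101, w1432, w1718, w32] (nat_lit 55783424) (.nod (nat_lit 210625606504697241424800560601016847487416015485035670146281111691) (.nod (nat_lit 210625198493084441290550911274704338989098968831931779984037773386) .nil .nil (.dwn (nat_lit 5378623136367446449707511855817692743111238689412512739163824577927217713599085543434) (nat_lit 23282696))) .nil .nil) .nil (.nod (nat_lit 210624796758573376558037127654828592667427590209799617448693989386) (.nod (nat_lit 7861552288654310729887992901551976446406391407396511295790846992384) .nil (.opn (nat_lit 61781445622955590322145026350253043630246506242938750972505610412032)) .dup) (.dwn (nat_lit 145020043090891668733144801654328158876475436639251315522354065547100077621488059310080) (nat_lit 626208768)) .dup) .nil l407 = true := by decide +kernel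
theorem cw1719 : wchk (nat_lit 5) [] [l407] (nat_lit 2) (nat_lit 3) (nat_lit 3) (nat_lit 0) (nat_lit 5820672) (nat_lit 0) w1719 = true := by decide +kernel
theorem cw1721 : wchk (nat_lit 5) [] [l316] (nat_lit 2) (nat_lit 3) (nat_lit 1) (nat_lit 0) (nat_lit 5806336) (nat_lit 0) w1721 = true := by decide +kernel
theorem cw1722 : wchk (nat_lit 5) [] [l1] (nat_lit 1) (nat_lit 3) (nat_lit 4) (nat_lit 0) (nat_lit 4369152) (nat_lit 0) w1722 = true := by decide +kernel
theorem cw1723 : wchk (nat_lit 5) [] [l184] (nat_lit 1) (nat_lit 3) (nat_lit 1) (nat_lit 0) (nat_lit 5444352) (nat_lit 0) w1723 = true := by decide +kernel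
theorem cw1724 : wchk (nat_lit 5) [] [l55] (nat_lit 1) (nat_lit 1) (nat_lit 4) (nat_lit 0) (nat_lit 2776064) (nat_lit 0) w1724 = true := by decide +kernel
theorem cw1725 : wchk (nat_lit 5) [] [l56] (nat_lit 1) (nat_lit 1) (nat_lit 0) (nat_lit 0) (nat_lit 2317312) (nat_lit 0) w1725 = true := by decide +kernel
theorem cw1726 : wchk (nat_lit 5) [w69] [] (nat_lit 1) (nat_lit 1) (nat_lit 4) (nat_lit 2) (nat_lit 429) (nat_lit 5943296) w1726 = true := by decide +kernel
theorem cl408 : lchk (nat_lit 5) [w69] (nat_lit 397) (.nod (nat_lit 14240886424903785734145) (.nod (nat_lit 3885429723370312570898090129009134711483649174472103561111472156510249876245977236250) .nil .nil (.dwn (nat_lit 34968131998981977705609480638185437217762158599306335901146041449445478422481419109146) (nat_lit 150995341))) .nil (.nod (nat_lit 3885429723370312571108719696365026981904011715456246452636396724870831980387376300378) .nil (.dwn (nat_lit 34968131998981977707505106872238244475451971687288234156429053386821888274383507555098) (nat_lit 150995341)) .dup)) .nil .nil (.nod (nat_lit 618970646831988643574317056) .nil .nil .nil) l408 = true := by decide +kernel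
theorem cw1730 : wchk (nat_lit 5) [] [l42] (nat_lit 2) (nat_lit 2) (nat_lit 3) (nat_lit 0) (nat_lit 22434816) (nat_lit 0) w1730 = true := by decide +kernel
theorem cw1731 : wchk (nat_lit 5) [] [l46] (nat_lit 2) (nat_lit 2) (nat_lit 1) (nat_lit 0) (nat_lit 4630784) (nat_lit 0) w1731 = true := by decide +kernel
theorem cw1732 : wchk (nat_lit 5) [] [l83] (nat_lit 1) (nat_lit 3) (nat_lit 1) (nat_lit 0) (nat_lit 22305792) (nat_lit 0) w1732 = true := by decide +kernel
theorem cw1733 : wchk (nat_lit 5) [] [] (nat_lit 0) (nat_lit 0) (nat_lit 1) (nat_lit 2) (nat_lit 33554513) (nat_lit 417) w1733 = true := by decide +kernel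
theorem cw1734 : wchk (nat_lit 5) [] [] (nat_lit 0) (nat_lit 0) (nat_lit 1) (nat_lit 2) (nat_lit 33554513) (nat_lit 417) w1734 = true := by decide +kernel
theorem cw1735 : wchk (nat_lit 5) [] [l363] (nat_lit 1) (nat_lit 1) (nat_lit 4) (nat_lit 0) (nat_lit 19598080) (nat_lit 0) w1735 = true := by decide +kernel
theorem cl409 : lchk (nat_lit 5) [] (nat_lit 401) (.nod (nat_lit 421249988974556082446852173223096169479880891010759669805765100292) (.opn (nat_lit 97496939137820447176264342083468732221104997546746541796112989830782771968082314)) .nil (.nod (nat_lit 3885430649707026469638283135149720934500720652302439163422240369350347599404689522688) .nil .nil (.dwn (nat_lit 3885338942372350516896504333626509040947151412194598275226686932779397922372653678592) (nat_lit 150995345)))) .nil .nil (.nod (nat_lit 33554570) .nil .nil .nil) l409 = true := by decide +kernel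
theorem cw1736 : wchk (nat_lit 5) [] [l409] (nat_lit 4) (nat_lit 3) (nat_lit 1) (nat_lit 0) (nat_lit 22597888) (nat_lit 0) w1736 = true := by decide +kernel
theorem cw1737 : wchk (nat_lit 5) [] [l409] (nat_lit 4) (nat_lit 3) (nat_lit 1) (nat_lit 0) (nat_lit 22597888) (nat_lit 0) w1737 = true := by decide +kernel
theorem cl410 : lchk (nat_lit 5) [w1380, w33, w777, w893, w1737, w292, w1725, w1724, w1732, w1733, w1734, w1735, w1736] (nat_lit 22114304) (.nod (nat_lit 421250183564709879433955852132568288917539790183778448190902108298) (.nod (nat_lit 97496939137820236546646769377315218412453327088469355330898170430522906411794826) .nil .nil (.dwn (nat_lit 4153547463920210594563322980506601648996974356665240943550734194124769146903900620832) (nat_lit 626094080))) .nil (.nod (nat_lit 5166143726280257332365073135094311313039233813476459540842370557564669063387154481152) .nil .nil (.dwn (nat_lit 3885338942372350515211503046982716809088220736262027415581477533613206359281760206848) (nat_lit 626094080)))) .nil .nil (.nod (nat_lit 210624796758573376542982025784181253698448338281183334285828948106) (.opn (nat_lit 20083341228638541360793875805208583235976207626120835126370623755594756898145557283210))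 .nil (.nod (nat_lit 20083341228638541361004497978138631220886630368545037479264510163091364446464959840266) (.opn (nat_lit 145264069824107386173100607634042293215798251151736198248403860364832344050879181523040)) .nil .nil)) l410 = true := by decide +kernel
theorem cw1739 : wchk (nat_lit 5) [] [] (nat_lit 2) (nat_lit 0) (nat_lit 4) (nat_lit 2) (nat_lit 453) (nat_lit 16777293) w1739 = true := by decide +kernel
theorem cw1746 : wchk (nat_lit 5) [] [l1] (nat_lit 2) (nat_lit 2) (nat_lit 1) (nat_lit 0) (nat_lit 21146368) (nat_lit 0) w1746 = true := by decide +kernel
theorem cw1747 : wchk (nat_lit 5) [w220] [] (nat_lit 0) (nat_lit 1) (nat_lit 4) (nat_lit 2) (nat_lit 33554477) (nat_lit 10301440) w1747 = true := by decide +kernel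
theorem cw1748 : wchk (nat_lit 5) [] [l17] (nat_lit 17) (nat_lit 1) (nat_lit 4) (nat_lit 0) (nat_lit 153512960) (nat_lit 0) w1748 = true := by decide +kernel
theorem cw1751 : wchk (nat_lit 5) [] [] (nat_lit 1) (nat_lit 1) (nat_lit 3) (nat_lit 2) (nat_lit 433) (nat_lit 193) w1751 = true := by decide +kernel
theorem cl412 : lchk (nat_lit 5) [] (nat_lit 150995345) .nil (.nod (nat_lit 3885430765499115706743848941147999789674819853901965551876548511646952691537819992064) (.nod (nat_lit 7120443212451886924549) .nil .nil (.nod (nat_lit 33554458) .nil .nil .nil)) .nil (.nod (nat_lit 40064062876111719558464802076346227843910768823021140308652614780531861467693658) .nil (.opn (nat_lit 50509484063124524174232863898959547174816951486909756147341929931146411768895504384802)) .dup)) .nil .nil l412 = true := by decide +kernel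
theorem cl413 : lchk (nat_lit 5) [] (nat_lit 16777265) .nil (.nod (nat_lit 907) .nil (.nod (nat_lit 2623828525391632559283359978900804561938495314808777018966276) (.opn (nat_lit 210626403696617635533257567746273594861669835853375588591883780514)) .nil .nil) (.nod (nat_lit 2623828525391632559283359978900804561930784575785966426390788) (.opn (nat_lit 3885371364157336963746221445991263709321073152184013331965644600458354199503841525898)) .nil .nil)) .nil .nil l413 = true := by decide +kernel
theorem cw1758 : wchk (nat_lit 5) [] [] (nat_lit 17) (nat_lit 0) (nat_lit 1) (nat_lit 2) (nat_lit 33554513) (nat_lit 433) w1758 = true := by decide +kernel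
theorem cl414 : lchk (nat_lit 5) [] (nat_lit 150995345) .nil (.nod (nat_lit 3885430765499115706743848941147999789674819853901965551876548511646952691537819992064) (.nod (nat_lit 7120443212451886924549) .nil .nil (.nod (nat_lit 33554458) .nil .nil .nil)) .nil (.nod (nat_lit 40064062876111719558464802076346227843910768823021140308652614780531861467693658) .nil .nil (.opn (nat_lit 50509484063124524174232863898959547174668517453961878049119220492697229114433593148194)))) .nil .nil l414 = true := by decide +kernel
theorem cw1765 : wchk (nat_lit 5) [] [] (nat_lit 1) (nat_lit 1) (nat_lit 3) (nat_lit 2) (nat_lit 433) (nat_lit 209) w1765 = true := by decide +kernel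
theorem cw1775 : wchk (nat_lit 5) [] [l84] (nat_lit 26) (nat_lit 2) (nat_lit 1) (nat_lit 0) (nat_lit 156652544) (nat_lit 0) w1775 = true := by decide +kernel
theorem cw1778 : wchk (nat_lit 5) [w42] [] (nat_lit 0) (nat_lit 0) (nat_lit 4) (nat_lit 2) (nat_lit 17476608) (nat_lit 417) w1778 = true := by decide +kernel

end Pool.Agent.W319.GCI.K5
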