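import Pool.Agent.W319.GCI.K5D0
import Pool.Agent.W319.GCI.K5D1
import Pool.Agent.W319.GCI.K5D2
import Pool.Agent.W319.GCI.K5D3
import Pool.Agent.W319.GCI.K5D4
import Pool.Agent.W319.GCI.K5D5
import Pool.Agent.W319.GCI.K5D6
import Pool.Agent.W319.GCI.K5D7
import Pool.Agent.W319.GCI.K5D8
import Pool.Agent.W319.GCI.K5D9
import Pool.Agent.W319.GCI.K5D10
import Pool.Agent.W319.GCI.K5D11
import Pool.Agent.W319.GCI.K5D12
import Pool.Agent.W319.GCI.K5D13
import Pool.Agent.W319.GCI.K5D14
import Pool.Agent.W319.GCI.K5D15
set_option autoImplicit false
set_option maxRecDepth 100000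
set_option linter.all false
namespace Pool.Agent.W319.GCI.K5
open Pool.Agent.W319.GCI

theorem cw1779 : wchk (nat_lit 5) [] [] (nat_lit 0) (nat_lit 0) (nat_lit 4) (nat_lit 2) (nat_lit 333) (nat_lit 417) w1779 = true := by decide +kernel
theorem cw1780 : wchk (nat_lit 5) [] [l25] (nat_lit 17) (nat_lit 3) (nat_lit 4) (nat_lit 0) (nat_lit 155625728) (nat_lit 0) w1780 = true := by decide +kernel
theorem cw1781 : wchk (nat_lit 5) [] [l26] (nat_lit 2) (nat_lit 1) (nat_lit 4) (nat_lit 0) (nat_lit 21386496) (nat_lit 0) w1781 = true := by decide +kernel
theorem cw1782 : wchk (nat_lit 5) [] [] (nat_lit 1) (nat_lit 2) (nat_lit 3) (nat_lit 2) (nat_lit 289) (nat_lit 25165841) w1782 = true := by decide +kernel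
theorem cw1784 : wchk (nat_lit 5) [] [] (nat_lit 2) (nat_lit 1) (nat_lit 4) (nat_lit 2) (nat_lit 417) (nat_lit 25165837) w1784 = true := by decide +kernel
theorem cl416 : lchk (nat_lit 5) [w1260, w6, w1475, w1781, w1782, w1784, w1780] (nat_lit 23211008) (.nod (nat_lit 28690649958868284537846625364512331254965046585523990406127689195970469809688888214107) (.nod (nat_lit 40990399590009933179944128693075519380057574571636759669979237252686210769354842) .nil .nil (.dwn (nat_lit 144412486630347040140543589350172663041597650258958109662056060754733896365756512634912) (nat_lit 23282708))) (.nod (nat_lit 928455675100077786008650050) .nil (.nod (nat_lit 618970646831988643607871578) (.nod (nat_lit 292295903799416593720657400866380426716985579317008208487243579418) .nil (.opn (nat_lit 493152920726041382033595920198491690965066284397197609979358113716224)) .dup) .nil .nil) .nil) .nil) .nil .nil .nil l416 = true := by decide +kernel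
theorem cw1785 : wchk (nat_lit 5) [] [l416] (nat_lit 25) (nat_lit 3) (nat_lit 1) (nat_lit 0) (nat_lit 156815616) (nat_lit 0) w1785 = true := by decide +kernel
theorem cw1786 : wchk (nat_lit 5) [w1326] [] (nat_lit 1) (nat_lit 1) (nat_lit 4) (nat_lit 2) (nat_lit 85044224) (nat_lit 417) w1786 = true := by decide +kernel
theorem cw1787 : wchk (nat_lit 5) [w581] [] (nat_lit 1) (nat_lit 1) (nat_lit 4) (nat_lit 2) (nat_lit 18523136) (nat_lit 417) w1787 = true := by decide +kernel
theorem cw1788 : wchk (nat_lit 5) [w1326] [] (nat_lit 1) (nat_lit 1) (nat_lit 4) (nat_lit 2) (nat_lit 77704192) (nat_lit 417) w1788 = true := by decide +kernel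
theorem cw1789 : wchk (nat_lit 5) [w220, w1283] [] (nat_lit 217) (nat_lit 0) (nat_lit 1) (nat_lit 2) (nat_lit 18523136) (nat_lit 610446340) w1789 = true := by decide +kernel
theorem cw1790 : wchk (nat_lit 5) [w461] [] (nat_lit 17) (nat_lit 1) (nat_lit 4) (nat_lit 2) (nat_lit 18179072) (nat_lit 417) w1790 = true := by decide +kernel
theorem cw1791 : wchk (nat_lit 5) [w56] [] (nat_lit 0) (nat_lit 0) (nat_lit 4) (nat_lit 2) (nat_lit 17476608) (nat_lit 417) w1791 = true := by decide +kernel
theorem cw1792 : wchk (nat_lit 5) [w220] [] (nat_lit 0) (nat_lit 0) (nat_lit 4) (nat_lit 2) (nat_lit 17655808) (nat_lit 417) w1792 = true := by decide +kernel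
theorem cw1793 : wchk (nat_lit 5) [w220] [] (nat_lit 0) (nat_lit 0) (nat_lit 4) (nat_lit 2) (nat_lit 9269248) (nat_lit 417) w1793 = true := by decide +kernel
theorem cw1794 : wchk (nat_lit 5) [w267] [] (nat_lit 0) (nat_lit 0) (nat_lit 4) (nat_lit 2) (nat_lit 19540992) (nat_lit 417) w1794 = true := by decide +kernel
theorem cw1795 : wchk (nat_lit 5) [w1528] [] (nat_lit 0) (nat_lit 0) (nat_lit 4) (nat_lit 2) (nat_lit 19483648) (nat_lit 417) w1795 = true := by decide +kernel
theorem cw1796 : wchk (nat_lit 5) [w42] [] (nat_lit 1) (nat_lit 2) (nat_lit 3) (nat_lit 2) (nat_lit 305) (nat_lit 21662720) w1796 = true := by decide +kernel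
theorem cw1797 : wchk (nat_lit 5) [] [l26] (nat_lit 2) (nat_lit 1) (nat_lit 4) (nat_lit 0) (nat_lit 21386496) (nat_lit 0) w1797 = true := by decide +kernel
theorem cw1798 : wchk (nat_lit 5) [w42] [] (nat_lit 1) (nat_lit 2) (nat_lit 3) (nat_lit 2) (nat_lit 289) (nat_lit 21662720) w1798 = true := by decide +kernel
theorem cl417 : lchk (nat_lit 5) [w1778, w1690, w1620, w1796, w1797, w1798, w42, w16, w1779, w1723, w1790, w1785, w152, w261, w1786, w1787, w1788, w1789, w1784, w799, w1528, w1791, w1792, w1348, w1793, w1794, w1795] (nat_lit 862143488) (.nod (nat_lit 5362023298246474037037159346219258876786319731896649919845243639860243960961241139217) (.nod (nat_lit 40990399590009933179944128693075519380057574571636760490866690336902594068695056) .nil .nil (.dwn (nat_lit 145264065192423816672578009636616917182603950555703464650854272582563932588236019763240) (nat_lit 895697920))) (.nod (nat_lit 273398318676032603466964690496237777719171131773097338932259979586) .nil (.nod (nat_lit 290676166744719150003037977599405343682838112290142040607854647353) (.nod (nat_lit 1134794337581501853490893843708374656591049010414189851595593123912) .nil (.dwn (nat_lit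 273398312398930868096129330244881170010616093546176426047303931952) (nat_lit 627262464)) (.dwn (nat_lit 273398312398930868096129330244881170010616093546176426047303931952) (nat_lit 627262464))) .nil (.nod (nat_lit 1139910545422690812172713807376383139793033248603386292789368497470994630275554441074784) (.dwn (nat_lit 20919985390213845800342137615344216605859753141152560736066051237375422452528407021704) (nat_lit 627262464)) .nil .nil)) (.nod (nat_lit 11244774839931130607441243227104434035296347648899393292832907368608) (.opn (nat_lit 20933272764038006308399383634750444625409261459397409461710921679935836307318616000712)) (.dwn (nat_lit 20933277395721575801047200778457100505299399067412931864671829384437686464867331377352) (nat_lit 90391552)) (.dwn (nat_lit 20933277395721575801047200778457100505299399067412931864671829384437686464867331377352) (nat_lit 90391552)))) .nil) .nil .nil .nil l417 = true := by decide +kernel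
theorem cw1800 : wchk (nat_lit 5) [] [l89] (nat_lit 1) (nat_lit 2) (nat_lit 4) (nat_lit 0) (nat_lit 18263040) (nat_lit 0) w1800 = true := by decide +kernel
theorem cw1801 : wchk (nat_lit 5) [] [l240] (nat_lit 1) (nat_lit 2) (nat_lit 4) (nat_lit 0) (nat_lit 1774336) (nat_lit 0) w1801 = true := by decide +kernel
theorem cw1804 : wchk (nat_lit 5) [] [l111] (nat_lit 3) (nat_lit 3) (nat_lit 2) (nat_lit 0) (nat_lit 18553344) (nat_lit 0) w1804 = true := by decide +kernel
theorem cw1805 : wchk (nat_lit 5) [] [l409] (nat_lit 4) (nat_lit 2) (nat_lit 0) (nat_lit 0) (nat_lit 19555072) (nat_lit 0) w1805 = true := by decide +kernel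
theorem cl418 : lchk (nat_lit 5) [w39, w69, w220, w1804, w1805, w143] (nat_lit 17519616) .nil (.nod (nat_lit 421249580962943282312602523896783660981563856514060124218116276224) .nil (.nod (nat_lit 52526620444248001849502407401453158977857650688) .nil .nil (.dwn (nat_lit 142257812612431637999628766244044917340223215156130822063410263311443609000997210292224) (nat_lit 614281224))) (.nod (nat_lit 2573611711508539113464635934333309051226106438779020689967128) (.opn (nat_lit 145264066118760530578982353828686703522317969277331558407394108210820439194245043488800)) .dup .dup)) .nil (.nod (nat_lit 3106093151016162189607200678630718648954579729811793112020718325284401012356134469632) .nil (.dwn (nat_lit 45622083159502580999309929363282352064187955318225214350019192395175786249103360) (nat_lit 84628480)) .dup) l418 = true := by decide +kernel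
theorem cw1807 : wchk (nat_lit 5) [] [l220] (nat_lit 3) (nat_lit 3) (nat_lit 4) (nat_lit 0) (nat_lit 1659648) (nat_lit 0) w1807 = true := by decide +kernel
theorem cl419 : lchk (nat_lit 5) [] (nat_lit 8388625) (.nod (nat_lit 387) (.nod (nat_lit 48401093301198169687052671733631545482666853590237755768493270115307688189493508) .nil .nil .nil) .nil (.nod (nat_lit 40990399590009933182166222707402404370455444027452273581268218566141516110102788) .nil (.opn (nat_lit 3885371364157336963746223052929307968322766774369639759248867814795580098600520122722)) .dup)) .nil .nil .nil l419 = true := by decide +kernel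
theorem cw1808 : wchk (nat_lit 5) [] [l419] (nat_lit 18) (nat_lit 3) (nat_lit 3) (nat_lit 0) (nat_lit 5820672) (nat_lit 0) w1808 = true := by decide +kernel
theorem cw1809 : wchk (nat_lit 5) [] [] (nat_lit 0) (nat_lit 0) (nat_lit 4) (nat_lit 2) (nat_lit 325) (nat_lit 193) w1809 = true := by decide +kernel
theorem cw1820 : wchk (nat_lit 5) [] [l330] (nat_lit 2) (nat_lit 0) (nat_lit 3) (nat_lit 0) (nat_lit 5671936) (nat_lit 0) w1820 = true := by decide +kernel
theorem cl423 : lchk (nat_lit 5) [w1041, w831, w1101, w25] (nat_lit 615277568) .nil (.nod (nat_lit 618971845870353434728726619) (.nod (nat_lit 928458036283319220881588379) .nil (.nod (nat_lit 618970646831988643607871514) .nil .nil (.nod (nat_lit 618970646831988643607871514) .nil (.dwn (nat_lit 20933254237303728336673320822775947018544899633731720510667535492984625327332418126234) (nat_lit 39281968140)) (.dwn (nat_lit 9097082320568583375469458476279392039017548587099946567820542706540184324042680589877658) (nat_lit 39281968140)))) .nil) .nil (.nod (nat_lit 20933256089977156134867241686409139595513576146643333019020990845691350771318439018496) .nil .nil (.opn (nat_lit 145264065192423816680452790389902009569721260337763106761217614957762726003479649714176))))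 .nil .nil l423 = true := by decide +kernel
theorem cw1821 : wchk (nat_lit 5) [] [l423] (nat_lit 2258) (nat_lit 1) (nat_lit 1) (nat_lit 0) (nat_lit 9820492032) (nat_lit 0) w1821 = true := by decide +kernel
theorem cw1822 : wchk (nat_lit 5) [] [l163] (nat_lit 210) (nat_lit 2) (nat_lit 3) (nat_lit 0) (nat_lit 1230267136) (nat_lit 0) w1822 = true := by decide +kernel
theorem cl424 : lchk (nat_lit 5) [w1249, w1821, w431, w1822, w429, w5] (nat_lit 23160832) .nil (.nod (nat_lit 618971845870353434728726619) (.nod (nat_lit 928456855691698503470284891) .nil (.nod (nat_lit 618970646831988643607871514) .nil (.nod (nat_lit 1139910536159323673248077963151745102950891851162900309749071085281400563080378846282138) (.dwn (nat_lit 142443732096257928484789162168076070092300905930525809771366950904700345028091113170976) (nat_lit 39281846272)) .nil .nil) .dup) .nil) .nil (.nod (nat_lit 20933257942650583931926278575448048997251563670458547335486936891282730172954288586752) .nil .nil (.opn (nat_lit 145235842491761470180243500936631355805789998505746803407061967891287044413540907614208)))) .nil .nil l424 = true := by decide +kernel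
theorem cw1823 : wchk (nat_lit 5) [] [l424] (nat_lit 210) (nat_lit 1) (nat_lit 2) (nat_lit 0) (nat_lit 1230557440) (nat_lit 0) w1823 = true := by decide +kernel
theorem cl425 : lchk (nat_lit 5) [w13, w177, w1797, w1432, w49, w1781, w1246, w1823] (nat_lit 90391552) .nil (.nod (nat_lit 7729185766884335681627) (.nod (nat_lit 7710739022810631786505) .nil (.nod (nat_lit 15128273468571082209273678944033539788518719514) (.nod (nat_lit 7874780602634650737836971441833919147300788064902923078205125855232) .nil (.dwn (nat_lit 61794673936935930330094004890534986331140902900445162754919889274880) (nat_lit 4922229760)) .dup) (.dwn (nat_lit 145264062413413674984864100073547927711931133519057751822780702801484093470000502179840) (nat_lit 627262464)) .dup) .nil) .nil (.nod (nat_lit 20707496716759517697895159570324619449588747257960857851590998070019853631289668141402) .nil (.opn (nat_lit 145020047722575238225786139674057176390851361935359568807387215392031949825272016439352)) .dup)) .nil .nil l425 = true := by decide +kernel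
theorem cw1825 : wchk (nat_lit 5) [] [] (nat_lit 2) (nat_lit 0) (nat_lit 3) (nat_lit 2) (nat_lit 209) (nat_lit 33554465) w1825 = true := by decide +kernel
theorem cl426 : lchk (nat_lit 5) [w142, w105, w33, w1797, w1808, w78, w1825] (nat_lit 589120512) (.nod (nat_lit 219004634030259329829263377) (.nod (nat_lit 7770686105983036879451631172253711417169242003777162658298577237306500883726257356954) .nil .nil (.nod (nat_lit 5147885629649317314670682240084127076843939804424925521191576565648537848181807906816) .nil (.dwn (nat_lit 47474756587300717324940444602139368516075722697107034484279682344692087011672064) (nat_lit 85804032)) .dup)) .nil (.nod (nat_lit 27824133175151091080988269215842225670410798554539303783377227666988104072596526465370) .nil (.dwn (nat_lit 206367069914201059671940201035494008585455604693446092846196866002323923285429033011200) (nat_lit 891110400)) (.opn (nat_lit 206367069914201059671782271164504235021175340659010803385620983892094950405575613777920)))) .nil .nil (.nod (nat_lit 426892728194713519774485876914180425758009196570) (.opn (nat_lit 1139910540791007242740725870334199051220680722199864963764468879537349845758148828629040))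 .dup .dup) l426 = true := by decide +kernel
theorem cw1826 : wchk (nat_lit 5) [] [l426] (nat_lit 18) (nat_lit 2) (nat_lit 1) (nat_lit 0) (nat_lit 5820672) (nat_lit 0) w1826 = true := by decide +kernel
theorem cw1829 : wchk (nat_lit 5) [] [l32] (nat_lit 33) (nat_lit 2) (nat_lit 3) (nat_lit 0) (nat_lit 18261248) (nat_lit 0) w1829 = true := by decide +kernel
theorem cw1830 : wchk (nat_lit 5) [] [l55] (nat_lit 25) (nat_lit 3) (nat_lit 4) (nat_lit 0) (nat_lit 4630784) (nat_lit 0) w1830 = true := by decide +kernel
theorem cw1831 : wchk (nat_lit 5) [] [l56] (nat_lit 25) (nat_lit 3) (nat_lit 4) (nat_lit 0) (nat_lit 4630784) (nat_lit 0) w1831 = true := by decide +kernel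
theorem cw1832 : wchk (nat_lit 5) [] [] (nat_lit 0) (nat_lit 1) (nat_lit 3) (nat_lit 2) (nat_lit 33554465) (nat_lit 209) w1832 = true := by decide +kernel
theorem cl429 : lchk (nat_lit 5) [w1825, w1829, w33, w1797, w1808, w1830, w1831, w1832, w78, w142] (nat_lit 593708032) (.nod (nat_lit 858979739788753649189345297) (.nod (nat_lit 7770686105983036879451631172253711417169242003777162658298577237306500883726257356954) .nil .nil (.nod (nat_lit 5147885629649317314670682240084127076843939804424925521191576565648537848181807906816) .nil (.nod (nat_lit 47474756587300774917599950844350847062101439998661948695035537690757915050246144) .nil (.opn (nat_lit 145264062413413674984864100073547927711931133519057751822780702801484093469999247654912)) .dup) (.dwn (nat_lit 47474756587299932419517686456272685276523569175027715372011647112958802569199616) (nat_lit 90391580)))) .nil (.nod (nat_lit 27824133175151091080988269366492667319691136886598249940361221653444634739733354774874) .nil (.dwn (nat_lit 206367078251231484758706271984556254158825985149562157661577028172002535591672163240008) (nat_lit 895697920)) (.opn (nat_lit 206367078251231484758548342113566480594545721115126868201001146061773562711818744006728))))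 .nil .nil (.nod (nat_lit 426892711861159907569439630672199269033135046682) (.opn (nat_lit 1139910535232986959349548489701490887505100468562454253887548771423345327171782016665600)) .dup .dup) l429 = true := by decide +kernel
theorem cl430 : lchk (nat_lit 5) [] (nat_lit 8388625) (.nod (nat_lit 347) (.nod (nat_lit 6530147402093181272324) .nil .nil .nil) (.nod (nat_lit 2222094014326884990397869455815513911306763974742361398837508) .nil .nil (.opn (nat_lit 210626403696617635533257567746273594861669835853375588591883780450))) .nil) .nil .nil .nil l430 = true := by decide +kernel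
theorem cw1834 : wchk (nat_lit 5) [] [l430] (nat_lit 34) (nat_lit 3) (nat_lit 0) (nat_lit 0) (nat_lit 5820672) (nat_lit 0) w1834 = true := by decide +kernel
theorem cl431 : lchk (nat_lit 5) [w142, w78, w33, w539, w404, w1834, w1246] (nat_lit 6115328) .nil (.nod (nat_lit 7770685990190947642135435748682726408481334150507177992659251131394948342142298226819) (.nod (nat_lit 75963225445024871398865742715466824210498634891404560439602840386) .nil .nil (.nod (nat_lit 7659258072138634961654390774147962511481056175558725145928882888704) (.opn (nat_lit 1135934846270808694227999376000597374845805271098941227088080769897837041748739154944000)) .dup .dup)) .nil (.nod (nat_lit 17912064477799935874514436773137826435978161986063281201290669117979166748314195810320) .nil .nil (.dwn (nat_lit 3885341721382492210589568215060528109100129487824845073104742456497154651216739827714) (nat_lit 626610192)))) .nil (.nod (nat_lit 5391906804844751363435879122459316043357183796269173771016109664794892016760911822848) .nil (.dwn (nat_lit 47474756587300559395069454828575079690645826034249418171972610262902199187144704) (nat_lit 73224192)) .dup) l431 = true := by decide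 +kernel
theorem cw1835 : wchk (nat_lit 5) [] [l431] (nat_lit 33) (nat_lit 2) (nat_lit 1) (nat_lit 0) (nat_lit 223924480) (nat_lit 0) w1835 = true := by decide +kernel
theorem cw1836 : wchk (nat_lit 5) [] [] (nat_lit 2) (nat_lit 0) (nat_lit 3) (nat_lit 2) (nat_lit 197) (nat_lit 33554465) w1836 = true := by decide +kernel
theorem cw1841 : wchk (nat_lit 5) [] [l29] (nat_lit 0) (nat_lit 0) (nat_lit 4) (nat_lit 1) (nat_lit 2518016) (nat_lit 0) w1841 = true := by decide +kernel
theorem cw1842 : wchk (nat_lit 5) [] [l413] (nat_lit 0) (nat_lit 3) (nat_lit 1) (nat_lit 0) (nat_lit 5802752) (nat_lit 0) w1842 = true := by decide +kernel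
theorem cw1844 : wchk (nat_lit 5) [] [] (nat_lit 0) (nat_lit 1) (nat_lit 0) (nat_lit 2) (nat_lit 16777297) (nat_lit 433) w1844 = true := by decide +kernel
theorem cw1845 : wchk (nat_lit 5) [] [l247] (nat_lit 18) (nat_lit 1) (nat_lit 4) (nat_lit 0) (nat_lit 4870912) (nat_lit 0) w1845 = true := by decide +kernel
theorem cw1846 : wchk (nat_lit 5) [] [l120] (nat_lit 18) (nat_lit 1) (nat_lit 4) (nat_lit 0) (nat_lit 5657600) (nat_lit 0) w1846 = true := by decide +kernel
theorem cw1851 : wchk (nat_lit 5) [] [l314] (nat_lit 2) (nat_lit 0) (nat_lit 0) (nat_lit 0) (nat_lit 5806336) (nat_lit 0) w1851 = true := by decide +kernel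
theorem cl434 : lchk (nat_lit 5) [w91] (nat_lit 8388625) (.nod (nat_lit 179865601) (.nod (nat_lit 48401093301198169689676500259023178041950213569138560330424054691093654615884036) .nil .nil (.nod (nat_lit 3885371364157336963746223052929307968311348694146105673128247122661347982296676827554) .nil (.opn (nat_lit 34968073639769002100142610228802525461756546561919064930265137940418942318262072901922)) .dup)) .nil (.nod (nat_lit 40990399590009933182166222707402404370455444027452273581268218566141516110102788) .nil (.dwn (nat_lit 3885371364157336963746223052929307968322766774369639759248867814795580098600520122722) (nat_lit 16777361)) .dup)) .nil .nil .nil l434 = true := by decide +kernel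
theorem cw1853 : wchk (nat_lit 5) [w91] [] (nat_lit 18) (nat_lit 0) (nat_lit 1) (nat_lit 2) (nat_lit 337) (nat_lit 77374464) w1853 = true := by decide +kernel
theorem cw1854 : wchk (nat_lit 5) [] [] (nat_lit 0) (nat_lit 1) (nat_lit 1) (nat_lit 2) (nat_lit 16777297) (nat_lit 25165841) w1854 = true := by decide +kernel
theorem cl435 : lchk (nat_lit 5) [w860, w6, w11, w731, w1854, w861, w1784, w842, w137] (nat_lit 122971136) (.nod (nat_lit 315937088427130563240900053467851686017343433681732445540156702730) (.nod (nat_lit 20707494864086089899720768791416973630926057411384098796147520466026651790727031292298) .nil .nil (.nod (nat_lit 20689235841118435983776691442047339728070862476439986131220785585212728328849563605016) .nil (.opn (nat_lit 13075442449694648733288796372141473829735578137141429711844374649217777730319058347804672)) .dup)) .nil (.nod (nat_lit 5391905878508037464906317955985450300738911367978752261361381798256577450508730499402) .nil (.dwn (nat_lit 5166147431627112937715140356212276777315559066160978804665022447317007645466638616624) (nat_lit 7068738560)) .dup)) .nil (.nod (nat_lit 210624796758573376542982025784181253698448338281183334285828947978)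 (.nod (nat_lit 210624796758573376542982025784181253699283253855946308277021704202) .nil (.opn (nat_lit 1122555495701914318865651230281359168901467959297748544409372772352)) .dup) .nil .nil) .nil l435 = true := by decide +kernel
theorem cw1862 : wchk (nat_lit 5) [w42] [] (nat_lit 0) (nat_lit 1) (nat_lit 1) (nat_lit 2) (nat_lit 209) (nat_lit 21777408) w1862 = true := by decide +kernel
theorem cw1864 : wchk (nat_lit 5) [w819, w42] [] (nat_lit 2) (nat_lit 1) (nat_lit 1) (nat_lit 2) (nat_lit 22121472) (nat_lit 21777412) w1864 = true := by decide +kernel
theorem cw1865 : wchk (nat_lit 5) [w819, w42] [] (nat_lit 2) (nat_lit 1) (nat_lit 4) (nat_lit 2) (nat_lit 6982656) (nat_lit 17476612) w1865 = true := by decide +kernel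
theorem cw1870 : wchk (nat_lit 5) [w1] [] (nat_lit 18) (nat_lit 0) (nat_lit 1) (nat_lit 2) (nat_lit 337) (nat_lit 21777408) w1870 = true := by decide +kernel
theorem cl437 : lchk (nat_lit 5) [w860, w6, w11, w731, w861, w1784, w842, w873, w137] (nat_lit 122971136) (.nod (nat_lit 315937088427130563240900053467851686017343433681732445540156702730) (.nod (nat_lit 20707494864086089899720768791416973630926057411384098796147520466026651790727031292298) .nil .nil (.nod (nat_lit 20689235841118435983776691442047339728070862476439986131220785585212728328849563605016) (.opn (nat_lit 13075442449694648733288796372141473829774003408976724691339200814840807844821747318179840)) .dup .dup)) .nil (.nod (nat_lit 20707494864086089899720768389682462566178488525893575710856869835475903345028822466890) .nil (.dwn (nat_lit 5166146505290399039185576917427582824718850126592527158511671095130495166995179702312) (nat_lit 626287644)) (.opn (nat_lit 5166146505290399039185576917427582824718850126592527158511671095130495166995179702312)))) .nil (.nod (nat_lit 210624796758573376542982025784181253698448338281183334285828947978) (.nod (nat_lit 210624796758573376542982025784181253699283253855946308277021704202)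 .nil (.opn (nat_lit 1122555495701914318865651230281359168901467959297748544409372772352)) .dup) .nil .nil) .nil l437 = true := by decide +kernel
theorem cw1871 : wchk (nat_lit 5) [] [l437] (nat_lit 1) (nat_lit 3) (nat_lit 3) (nat_lit 0) (nat_lit 5820672) (nat_lit 0) w1871 = true := by decide +kernel
theorem cw1872 : wchk (nat_lit 5) [w220, w141] [] (nat_lit 210) (nat_lit 0) (nat_lit 3) (nat_lit 2) (nat_lit 22823936) (nat_lit 626689028) w1872 = true := by decide +kernel
theorem cw1873 : wchk (nat_lit 5) [w581, w1] [] (nat_lit 18) (nat_lit 0) (nat_lit 1) (nat_lit 2) (nat_lit 22823936) (nat_lit 21777412) w1873 = true := by decide +kernel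
theorem cw1874 : wchk (nat_lit 5) [w1326, w1] [] (nat_lit 18) (nat_lit 0) (nat_lit 1) (nat_lit 2) (nat_lit 123816960) (nat_lit 21777412) w1874 = true := by decide +kernel
theorem cw1875 : wchk (nat_lit 5) [w1528, w1] [] (nat_lit 18) (nat_lit 0) (nat_lit 1) (nat_lit 2) (nat_lit 22121472) (nat_lit 21777412) w1875 = true := by decide +kernel
theorem cw1876 : wchk (nat_lit 5) [w461, w1] [] (nat_lit 18) (nat_lit 0) (nat_lit 1) (nat_lit 2) (nat_lit 23225344) (nat_lit 21777412) w1876 = true := by decide +kernel
theorem cw1877 : wchk (nat_lit 5) [w42, w1] [] (nat_lit 18) (nat_lit 0) (nat_lit 1) (nat_lit 2) (nat_lit 21777408) (nat_lit 21777412) w1877 = true := by decide +kernel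
theorem cw1878 : wchk (nat_lit 5) [] [l417] (nat_lit 0) (nat_lit 3) (nat_lit 1) (nat_lit 0) (nat_lit 5562624) (nat_lit 0) w1878 = true := by decide +kernel
theorem cw1879 : wchk (nat_lit 5) [w161, w42] [] (nat_lit 2) (nat_lit 1) (nat_lit 1) (nat_lit 2) (nat_lit 22228992) (nat_lit 21777412) w1879 = true := by decide +kernel
theorem cl438 : lchk (nat_lit 5) [w1851, w932, w1620, w42, w16, w1723, w1870, w1876, w1877, w1871, w152, w261, w1872, w1873, w1874, w1528, w799, w1875, w1690, w140, w1795, w1878, w1864, w1865, w917, w1879, w1862, w1624] (nat_lit 23282688) .nil (.nod (nat_lit 5166143842072346569973562045780544791575704990833896698247731006285583172490668492817) (.nod (nat_lit 273398168025590954186626358437291620735177144873844814026437384217) .nil (.nod (nat_lit 290676016094277500722699645540459186698844125390889515701997099041) (.nod (nat_lit 279337505193698213045240907867425906009894461104345515366632851496) .nil (.dwn (nat_lit 273398161748489245533867797474727180335212331620482275864026109976) (nat_lit 39281968160)) (.dwn (nat_lit 273398161748489245533867797474727180335212331620482275864026109976) (nat_lit 39281968160))) .nil (.nod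 (nat_lit 5391910510191606957826091373509366666537417872279655287115801225377223135994020796496) (.dwn (nat_lit 20919983537540418495302037413274004980011765481412895496300396407030186640349944301664) (nat_lit 39281968160)) .nil .nil)) (.nod (nat_lit 277718213813223981797713327675267083914659191367297217335064172664) (.opn (nat_lit 1139910550980711095624551068160830684699244520535117931872155744413024796499821317228680)) (.dwn (nat_lit 1139910550980711095624551068160830684699244520535117931872155744413024796499821317228680) (nat_lit 4922229792)) (.dwn (nat_lit 1139910550980711095624551068160830684699244520535117931872155744413024796499821317228680) (nat_lit 4922229792)))) .nil (.nod (nat_lit 5362038930178521075015837231234396111000752881465698665392430260028887026228273825808) .nil (.nod (nat_lit 145131280382506745862075455354392088183354697710540651204959914230908474642237958326432) (.dwn (nat_lit 1139910555612394665117198885404970968342397717791771244593953900081921934771893832206520) (nat_lit 4922229792)) .nil .nil) .dup)) .nil (.nod (nat_lit 28703952964624492083724890217221194467403637954727499233954156493164260444558223378648) (.opn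 (nat_lit 20933253310967014439278551370055057737784966638633189064684694223751439257277812869120)) .dup .dup) l438 = true := by decide +kernel
theorem cw1880 : wchk (nat_lit 5) [] [l438] (nat_lit 210) (nat_lit 2) (nat_lit 2) (nat_lit 0) (nat_lit 1230557440) (nat_lit 0) w1880 = true := by decide +kernel
theorem cw1883 : wchk (nat_lit 5) [] [l134] (nat_lit 1) (nat_lit 0) (nat_lit 1) (nat_lit 0) (nat_lit 5705984) (nat_lit 0) w1883 = true := by decide +kernel
theorem cw1889 : wchk (nat_lit 5) [] [l45] (nat_lit 0) (nat_lit 2) (nat_lit 3) (nat_lit 0) (nat_lit 5444352) (nat_lit 0) w1889 = true := by decide +kernel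
theorem cw1890 : wchk (nat_lit 5) [w154] [] (nat_lit 0) (nat_lit 2) (nat_lit 3) (nat_lit 2) (nat_lit 22630400) (nat_lit 209) w1890 = true := by decide +kernel
theorem cw1901 : wchk (nat_lit 5) [] [l296] (nat_lit 1) (nat_lit 1) (nat_lit 1) (nat_lit 0) (nat_lit 22339840) (nat_lit 0) w1901 = true := by decide +kernel
theorem cw1903 : wchk (nat_lit 5) [] [l379] (nat_lit 1) (nat_lit 1) (nat_lit 1) (nat_lit 0) (nat_lit 5788416) (nat_lit 0) w1903 = true := by decide +kernel
theorem cw1904 : wchk (nat_lit 5) [] [l386] (nat_lit 0) (nat_lit 3) (nat_lit 3) (nat_lit 0) (nat_lit 5677312) (nat_lit 0) w1904 = true := by decide +kernel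
theorem cw1905 : wchk (nat_lit 5) [] [l385] (nat_lit 0) (nat_lit 0) (nat_lit 1) (nat_lit 0) (nat_lit 5788416) (nat_lit 0) w1905 = true := by decide +kernel
theorem cw1906 : wchk (nat_lit 5) [] [l298] (nat_lit 0) (nat_lit 0) (nat_lit 1) (nat_lit 0) (nat_lit 5562624) (nat_lit 0) w1906 = true := by decide +kernel
theorem cw1907 : wchk (nat_lit 5) [] [l270] (nat_lit 4) (nat_lit 0) (nat_lit 3) (nat_lit 1) (nat_lit 5528576) (nat_lit 0) w1907 = true := by decide +kernel
theorem cw1911 : wchk (nat_lit 5) [w455] [] (nat_lit 17) (nat_lit 1) (nat_lit 3) (nat_lit 2) (nat_lit 22307840) (nat_lit 209) w1911 = true := by decide +kernel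
theorem cw1912 : wchk (nat_lit 5) [w1599] [] (nat_lit 17) (nat_lit 1) (nat_lit 3) (nat_lit 2) (nat_lit 22121472) (nat_lit 209) w1912 = true := by decide +kernel
theorem cw1914 : wchk (nat_lit 5) [w937, w16] [] (nat_lit 19) (nat_lit 1) (nat_lit 1) (nat_lit 2) (nat_lit 625642496) (nat_lit 23153668) w1914 = true := by decide +kernel
theorem cw1918 : wchk (nat_lit 5) [w181] [] (nat_lit 147) (nat_lit 0) (nat_lit 1) (nat_lit 2) (nat_lit 209) (nat_lit 626796544) w1918 = true := by decide +kernel
theorem cw1919 : wchk (nat_lit 5) [] [l391] (nat_lit 273) (nat_lit 1) (nat_lit 2) (nat_lit 0) (nat_lit 22597888) (nat_lit 0) w1919 = true := by decide +kernel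
theorem cl444 : lchk (nat_lit 5) [] (nat_lit 17) (.nod (nat_lit 33554586) .nil .nil (.nod (nat_lit 210624796758573376554400018895429408058822383791515948056976556292) .nil (.opn (nat_lit 210626403696617635544675647969807680982290527987607704895995510818)) .dup)) (.nod (nat_lit 618973008015230078396924164) .nil .nil (.nod (nat_lit 618970646831988643876307106) (.opn (nat_lit 102761932556715518508969964825831793675946950682)) .nil .nil)) .nil .nil l444 = true := by decide +kernel
theorem cw1923 : wchk (nat_lit 5) [w220] [] (nat_lit 0) (nat_lit 0) (nat_lit 3) (nat_lit 2) (nat_lit 21784576) (nat_lit 209) w1923 = true := by decide +kernel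
theorem cw1924 : wchk (nat_lit 5) [] [l391] (nat_lit 17) (nat_lit 1) (nat_lit 1) (nat_lit 0) (nat_lit 5820672) (nat_lit 0) w1924 = true := by decide +kernel
theorem cw1926 : wchk (nat_lit 5) [w789] [] (nat_lit 1171) (nat_lit 0) (nat_lit 4) (nat_lit 2) (nat_lit 33554501) (nat_lit 4916423680) w1926 = true := by decide +kernel
theorem cl445 : lchk (nat_lit 5) [w181, w725, w1429] (nat_lit 1233125521) .nil .nil (.nod (nat_lit 5570735544786736686827569443) (.nod (nat_lit 3885371479949426201062418482777394712385937311251879761976477585932026457484400001434) (.nod (nat_lit 145157822708370080426292342746037413796694261441169806203247100931122855593658088947973) (.nod (nat_lit 43325448) .nil .nil .nil) .nil .nil) (.dwn (nat_lit 5828040256383066034770997251421384061668800631876273552344736924191851292188702234640) (nat_lit 25165969)) (.dwn (nat_lit 5828040256383066034770997251421384061668800631876273552344736924191851292188702234640) (nat_lit 25165969))) .nil (.dwn (nat_lit 36910742531994731171167384427294601555096871428654874883830274716562203124201655632218) (nat_lit 159383697))) .nil l445 = true := by decide +kernel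
theorem cw1927 : wchk (nat_lit 5) [] [l445] (nat_lit 147) (nat_lit 3) (nat_lit 3) (nat_lit 0) (nat_lit 1230557440) (nat_lit 0) w1927 = true := by decide +kernel
theorem cw1928 : wchk (nat_lit 5) [] [l249] (nat_lit 33) (nat_lit 2) (nat_lit 1) (nat_lit 0) (nat_lit 19553280) (nat_lit 0) w1928 = true := by decide +kernel
theorem cl446 : lchk (nat_lit 5) [w15, w1, w1928, w149, w432, w638, w151, w1371] (nat_lit 9147392) .nil (.nod (nat_lit 7770684137517519845497558552509909551787411022084207003390552403174489506035949109248) (.nod (nat_lit 2422961269859258774840614717358162050239386201113282632689672) .nil .nil (.opn (nat_lit 7697323220531041923301428772191339971209713983492698158767329978368))) .nil (.nod (nat_lit 38211389448314555115177785392840673926933114905543021416284978944576331072309264) (.opn (nat_lit 142257813538768351905817587855401874021073208479794143342491088452342705641796972206120)) .nil .nil)) .nil (.nod (nat_lit 5828007834598079586236277647209303967168552431559901534114397003300408048834341502976) .nil (.dwn (nat_lit 45622083159502580999309929363282294469028988675620544324098815856506025209784368) (nat_lit 76378140)) .dup)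 l446 = true := by decide +kernel
theorem cw1929 : wchk (nat_lit 5) [] [l446] (nat_lit 273) (nat_lit 1) (nat_lit 2) (nat_lit 0) (nat_lit 22597888) (nat_lit 0) w1929 = true := by decide +kernel
theorem cw1930 : wchk (nat_lit 5) [w1929] [] (nat_lit 17) (nat_lit 1) (nat_lit 3) (nat_lit 2) (nat_lit 627262464) (nat_lit 209) w1930 = true := by decide +kernel
theorem cl447 : lchk (nat_lit 5) [w1919] (nat_lit 16777221) .nil (.nod (nat_lit 7874780608911752472796759493808548662916491920699006340344403984384) (.nod (nat_lit 1632046451200536998597305250033993268193880432725690536690058) (.nod (nat_lit 210627056515198115748057006668373608458977110055619955082443882762) .nil .nil (.opn (nat_lit 1895622919743090973419607678626054354984949135520050364854866805002))) .nil (.dwn (nat_lit 3885368585147195268157533540044248240016359654588573711352636425250774630385345102090) (nat_lit 16777349))) .nil (.dwn (nat_lit 1632046451200536998709598431117902961135613461557456635167050) (nat_lit 165))) .nil .nil l447 = true := by decide +kernel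
theorem cw1931 : wchk (nat_lit 5) [] [l447] (nat_lit 2) (nat_lit 2) (nat_lit 0) (nat_lit 0) (nat_lit 22597888) (nat_lit 0) w1931 = true := by decide +kernel
theorem cw1932 : wchk (nat_lit 5) [] [l178] (nat_lit 1) (nat_lit 3) (nat_lit 3) (nat_lit 0) (nat_lit 5573376) (nat_lit 0) w1932 = true := by decide +kernel
theorem cw1935 : wchk (nat_lit 5) [] [l267] (nat_lit 1) (nat_lit 0) (nat_lit 1) (nat_lit 0) (nat_lit 5802752) (nat_lit 0) w1935 = true := by decide +kernel
theorem cw1937 : wchk (nat_lit 5) [] [l391] (nat_lit 18) (nat_lit 1) (nat_lit 1) (nat_lit 0) (nat_lit 5788416) (nat_lit 0) w1937 = true := by decide +kernel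
theorem cw1940 : wchk (nat_lit 5) [] [l232] (nat_lit 19) (nat_lit 1) (nat_lit 1) (nat_lit 0) (nat_lit 156797696) (nat_lit 0) w1940 = true := by decide +kernel
theorem cw1944 : wchk (nat_lit 5) [] [l413] (nat_lit 33) (nat_lit 3) (nat_lit 1) (nat_lit 0) (nat_lit 5530368) (nat_lit 0) w1944 = true := by decide +kernel
theorem cl449 : lchk (nat_lit 5) [w141, w1, w808, w1143, w501, w1400, w1673, w109, w861, w603, w1944, w11, w784] (nat_lit 22816768) (.nod (nat_lit 290765853974314354897791663358684134819775251157418433851384922523) (.nod (nat_lit 816138412609416154124081160) .nil .nil (.nod (nat_lit 15796598926239546821546577501016970372401070106) (.dwn (nat_lit 20931596094585849969874981292516872865586369038686223075588106020106006586792092323888) (nat_lit 4921763840)) .nil .nil)) .nil (.nod (nat_lit 279337605627325979232133129240056677150958903799669219094868001370) .nil (.dwn (nat_lit 290766199214909801180766864756496862672154119782176018639484307536) (nat_lit 626796544)) (.dwn (nat_lit 290766199214909801180766864756496862672154119782176018639484307536) (nat_lit 626796544)))) .nil .nil (.nod (nat_lit 1134794488231943502771232175767320813575038237168027643899075008608)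 (.opn (nat_lit 20825353610532113715729201728903459273127685705385445122319174349363949256234895953920)) .dup .dup) l449 = true := by decide +kernel
theorem cw1945 : wchk (nat_lit 5) [] [l449] (nat_lit 17) (nat_lit 2) (nat_lit 0) (nat_lit 0) (nat_lit 156815616) (nat_lit 0) w1945 = true := by decide +kernel
theorem cl450 : lchk (nat_lit 5) [w576, w1, w4, w33, w808, w603, w907, w1122, w820, w816, w821, w823, w632, w834, w830, w1079, w1080, w1078, w1081] (nat_lit 22816768) .nil (.nod (nat_lit 290675865443835851442361313481513029715271943088238750784219512986) (.nod (nat_lit 290675909383547999149126660332038992170997278423950000503124547608) .nil .nil (.nod (nat_lit 291395918061003792979461680722038604337114003071854995157635717152) (.opn (nat_lit 1139802635532552058625999140060339289040443187629206509945183251548957837170739099750400)) .dup .dup)) .nil (.nod (nat_lit 290675909383547999149126660332038992170997278423950000503124547608) .nil (.nod (nat_lit 7869021587768095932339298541246340040082368718951244950073672812584) (.dwn (nat_lit 1637217178173217537144860858948305768623802830986258467039426320700690143718587864733776) (nat_lit 4921763840))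 .nil .nil) .dup)) .nil (.nod (nat_lit 822485715884250726320986144) (.opn (nat_lit 20916663546757805672193031572043902215107375805406649634176869798300495193427060720026)) .nil (.nod (nat_lit 20916665399431233469252158349179662354114164890723579798147388199824613284266142335066) (.opn (nat_lit 145247476354551321813030728683819520350951016662061860703421086004342104452762057332880)) .nil .nil)) l450 = true := by decide +kernel
theorem cw1946 : wchk (nat_lit 5) [] [l450] (nat_lit 4) (nat_lit 2) (nat_lit 1) (nat_lit 0) (nat_lit 22597888) (nat_lit 0) w1946 = true := by decide +kernel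
theorem cw1947 : wchk (nat_lit 5) [] [l278] (nat_lit 1) (nat_lit 0) (nat_lit 1) (nat_lit 0) (nat_lit 1774336) (nat_lit 0) w1947 = true := by decide +kernel
theorem cl451 : lchk (nat_lit 5) [w576, w210, w4, w33, w808, w211, w411, w846, w845, w847, w848, w823, w632] (nat_lit 22816768) .nil (.nod (nat_lit 1126605036067362592779289993917385815547321939273455962990584004698) (.nod (nat_lit 290675909383547999149126660332038992170997278423950000503124547608) .nil .nil (.nod (nat_lit 822485715884250726320986144) (.opn (nat_lit 3349578897802174136679015585110576089454836973594)) .nil .nil)) .nil (.nod (nat_lit 284826805552886923826492250374863317281823404599462153794952056880) .nil (.nod (nat_lit 291396068711445442275596628040777920369398613992507618262800160840) (.opn (nat_lit 1139893944542441036685067301067622196498043360891485271281026051119857346866848305797200)) .dup .dup) (.dwn (nat_lit 291396068711445442275596628040777920369398613992507618262800160840) (nat_lit 627190824)))) .nil (.nod (nat_lit 822485715884250726320986144) .nil (.dwn (nat_lit 20916663546757805672193031572043902215107375805406649634176869798300495193427060720026) (nat_lit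 89925632)) .dup) l451 = true := by decide +kernel
theorem cw1948 : wchk (nat_lit 5) [] [l451] (nat_lit 273) (nat_lit 1) (nat_lit 1) (nat_lit 0) (nat_lit 22597888) (nat_lit 0) w1948 = true := by decide +kernel
theorem cl452 : lchk (nat_lit 5) [w576, w211, w4, w33, w808, w411, w846, w845, w847, w848, w823, w632] (nat_lit 22816768) .nil (.nod (nat_lit 1126605036067362592779289993917385815547321939273455962990584004698) (.nod (nat_lit 290675909383547999149126660332038992170997278423950000503124547608) .nil .nil (.nod (nat_lit 822485715884250726320986144) (.opn (nat_lit 1139802635532552058564210315377884461434952472569408437053213959338465062634782057299994)) .nil .nil)) .nil (.nod (nat_lit 284826604685631391452707807629601774636498089176513978356171231272) .nil (.nod (nat_lit 291396018494631559182150514632203599340559577319093250506701953088) (.opn (nat_lit 1139893943616104322786537737628837502545446651951916819634872699767523260435787170469960)) .dup .dup) (.dwn (nat_lit 291396018494631559182150514632203599340559577319093250506701953088) (nat_lit 627190820)))) .nil (.nod (nat_lit 822485715884250726320986144) .nil (.dwn (nat_lit 20916662620421091773663468183476022145604112976524513373684849774932826270667877908890)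 (nat_lit 89925632)) .dup) l452 = true := by decide +kernel
theorem cw1949 : wchk (nat_lit 5) [] [l452] (nat_lit 273) (nat_lit 1) (nat_lit 1) (nat_lit 0) (nat_lit 22597888) (nat_lit 0) w1949 = true := by decide +kernel
theorem cw1950 : wchk (nat_lit 5) [w281] [] (nat_lit 0) (nat_lit 0) (nat_lit 3) (nat_lit 2) (nat_lit 33554513) (nat_lit 22307840) w1950 = true := by decide +kernel
theorem cl453 : lchk (nat_lit 5) [w576, w281, w4, w33, w808, w603, w604, w858, w907, w1948, w1949, w1104, w1080, w1078, w1950] (nat_lit 22816768) (.nod (nat_lit 291575750748620885996664812253224080772684376764757114771988283546) (.nod (nat_lit 290675909383547999149126660332038992170997278423950000503124547608) .nil .nil (.dwn (nat_lit 291395918061003792979461680722038604337114003071854995157635717152) (nat_lit 626796544))) .nil (.nod (nat_lit 290675909383547999149126660332038992170997278423950000503124547608) .nil (.nod (nat_lit 7869021587768095932156347409027319532321048724189613913846391851048) (.opn (nat_lit 1139893941763430894989478610751268114640253234072779916342565997062855087573664899815480)) .dup .dup) (.dwn (nat_lit 7869021587768095931745563506525178600297137171074248692246741600296)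 (nat_lit 627190812)))) .nil .nil (.nod (nat_lit 822485715884250726320986144) (.opn (nat_lit 20916659841410950078074778017772381937094587914708503299827141387794918301706473177498)) .nil (.nod (nat_lit 20933261647997439524909827931318987574571007143076822773178126853800441817067975344154) (.opn (nat_lit 145247472649204466218912474928680744540564180903788054118807683239530989135518835837040)) .nil .nil)) l453 = true := by decide +kernel
theorem cw1951 : wchk (nat_lit 5) [] [l453] (nat_lit 4) (nat_lit 2) (nat_lit 1) (nat_lit 0) (nat_lit 22597888) (nat_lit 0) w1951 = true := by decide +kernel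
theorem cl454 : lchk (nat_lit 5) [w795, w1, w808, w1082, w576, w839, w1946, w10, w603, w604, w1123, w889, w1947, w1951] (nat_lit 23153664) (.nod (nat_lit 290675865443835851442361313481513029714850138491636990796139550729) (.nod (nat_lit 290675859166734116055680549645723606507183722370834802258395486216) .nil .nil (.nod (nat_lit 291395817627376026792569459349407833014451345139019978553730684944) (.dwn (nat_lit 1139893938058084039334695527676080895484910391241598363217671312391270737261509970520096) (nat_lit 90391576)) .nil .nil)) .nil (.nod (nat_lit 291396068711445442259800012780984761321107989971107520063493265464) .nil (.nod (nat_lit 7869021738418537581436685749253042495407565834209857017114686474304) (.dwn (nat_lit 1139893944542441036685067301117839010381136855790496226323160486123698530302732442163288) (nat_lit 4922229812)) .nil .nil) (.nod (nat_lit 7869021738418537581436685749253042495407565834209857017114686474304) (.dwn (nat_lit 1139893944542441036685067301117839010381136855790496226323160486123698530302732442163288) (nat_lit 4922229812)) .nil .nil))) .nil .nil (.nod (nat_lit 291395817627376026792569459349407833014451345139019978553730684944)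 (.opn (nat_lit 20903373393923503469680269930966922778341411918656890742183473335459518949296697415680)) (.dwn (nat_lit 20903373393923503469680269930966922778341411918656890742183473335459518949296697415680) (nat_lit 90262528)) .dup) l454 = true := by decide +kernel
theorem cw1952 : wchk (nat_lit 5) [] [l454] (nat_lit 17) (nat_lit 1) (nat_lit 0) (nat_lit 0) (nat_lit 156815616) (nat_lit 0) w1952 = true := by decide +kernel
theorem cw1953 : wchk (nat_lit 5) [] [l449] (nat_lit 17) (nat_lit 1) (nat_lit 0) (nat_lit 0) (nat_lit 156557568) (nat_lit 0) w1953 = true := by decide +kernel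
theorem cw1960 : wchk (nat_lit 5) [] [l1] (nat_lit 1) (nat_lit 1) (nat_lit 3) (nat_lit 0) (nat_lit 5530368) (nat_lit 0) w1960 = true := by decide +kernel
theorem cw1969 : wchk (nat_lit 5) [] [l454] (nat_lit 17) (nat_lit 1) (nat_lit 0) (nat_lit 0) (nat_lit 156815616) (nat_lit 0) w1969 = true := by decide +kernel
theorem cw1986 : wchk (nat_lit 5) [w220] [] (nat_lit 0) (nat_lit 0) (nat_lit 3) (nat_lit 2) (nat_lit 33554481) (nat_lit 22823936) w1986 = true := by decide +kernel
theorem cw1994 : wchk (nat_lit 5) [] [l1] (nat_lit 1) (nat_lit 1) (nat_lit 3) (nat_lit 0) (nat_lit 22565632) (nat_lit 0) w1994 = true := by decide +kernel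
theorem cw1995 : wchk (nat_lit 5) [] [l172] (nat_lit 19) (nat_lit 1) (nat_lit 1) (nat_lit 0) (nat_lit 156797696) (nat_lit 0) w1995 = true := by decide +kernel
theorem cw1996 : wchk (nat_lit 5) [] [l172] (nat_lit 19) (nat_lit 1) (nat_lit 1) (nat_lit 0) (nat_lit 156783360) (nat_lit 0) w1996 = true := by decide +kernel
theorem cw1997 : wchk (nat_lit 5) [] [l449] (nat_lit 145) (nat_lit 0) (nat_lit 1) (nat_lit 1) (nat_lit 156815616) (nat_lit 0) w1997 = true := by decide +kernel
theorem cw2002 : wchk (nat_lit 5) [] [l69] (nat_lit 19) (nat_lit 1) (nat_lit 3) (nat_lit 0) (nat_lit 156568320) (nat_lit 0) w2002 = true := by decide +kernel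
theorem cw2004 : wchk (nat_lit 5) [] [l169] (nat_lit 17) (nat_lit 1) (nat_lit 0) (nat_lit 0) (nat_lit 156783360) (nat_lit 0) w2004 = true := by decide +kernel
theorem cw2007 : wchk (nat_lit 5) [] [l17] (nat_lit 19) (nat_lit 3) (nat_lit 4) (nat_lit 0) (nat_lit 155478784) (nat_lit 0) w2007 = true := by decide +kernel
theorem cw2015 : wchk (nat_lit 5) [] [l268] (nat_lit 4) (nat_lit 1) (nat_lit 0) (nat_lit 0) (nat_lit 22579968) (nat_lit 0) w2015 = true := by decide +kernel
theorem cw2016 : wchk (nat_lit 5) [w2015, w181] [] (nat_lit 147) (nat_lit 0) (nat_lit 1) (nat_lit 2) (nat_lit 23282688) (nat_lit 626796548) w2016 = true := by decide +kernel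
theorem cw2017 : wchk (nat_lit 5) [] [l344] (nat_lit 0) (nat_lit 3) (nat_lit 3) (nat_lit 0) (nat_lit 5562624) (nat_lit 0) w2017 = true := by decide +kernel
theorem cw2022 : wchk (nat_lit 5) [w16] [] (nat_lit 1) (nat_lit 1) (nat_lit 3) (nat_lit 2) (nat_lit 89932800) (nat_lit 209) w2022 = true := by decide +kernel
theorem cw2024 : wchk (nat_lit 5) [] [l300] (nat_lit 0) (nat_lit 0) (nat_lit 2) (nat_lit 0) (nat_lit 5677312) (nat_lit 0) w2024 = true := by decide +kernel
theorem cw2027 : wchk (nat_lit 5) [] [l306] (nat_lit 3) (nat_lit 2) (nat_lit 0) (nat_lit 0) (nat_lit 5806336) (nat_lit 0) w2027 = true := by decide +kernel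
theorem cw2031 : wchk (nat_lit 5) [] [] (nat_lit 1) (nat_lit 1) (nat_lit 3) (nat_lit 2) (nat_lit 177) (nat_lit 209) w2031 = true := by decide +kernel
theorem cw2036 : wchk (nat_lit 5) [w1339, w16] [] (nat_lit 0) (nat_lit 1) (nat_lit 1) (nat_lit 2) (nat_lit 23282688) (nat_lit 22823940) w2036 = true := by decide +kernel
theorem cw2037 : wchk (nat_lit 5) [] [l268] (nat_lit 2) (nat_lit 3) (nat_lit 1) (nat_lit 0) (nat_lit 5677312) (nat_lit 0) w2037 = true := by decide +kernel
theorem cw2038 : wchk (nat_lit 5) [w368, w181] [] (nat_lit 147) (nat_lit 0) (nat_lit 1) (nat_lit 2) (nat_lit 90319872) (nat_lit 626796548) w2038 = true := by decide +kernel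
theorem cw2039 : wchk (nat_lit 5) [] [l209] (nat_lit 145) (nat_lit 1) (nat_lit 0) (nat_lit 0) (nat_lit 1230414080) (nat_lit 0) w2039 = true := by decide +kernel
theorem cl469 : lchk (nat_lit 5) [w284, w1346, w1019, w181, w42, w16, w2039, w2037, w15, w2038, w128, w1139, w261, w2036] (nat_lit 39314927616) .nil .nil (.nod (nat_lit 181576275768467943093662146561) (.nod (nat_lit 20795474735617405881976679208664918893387762245424005628718560043586731405084360442266) (.nod (nat_lit 145157825487380222121881033062391495654500194612995448477229137772169700042437069981729) (.nod (nat_lit 286536593909080224881531605020667957039312735627630876132691757097) .nil (.nod (nat_lit 286536587631978489494850840844596166910707856061900824236889032744) .nil (.nod (nat_lit 5391907731181465262257738314392984940410018162869582526193766524521506329564943829024) (.dwn (nat_lit 20795474619825316644660483778816832149373973827953393338276184300320994811069248200720) (nat_lit 626667520)) .nil .nil) .dup) (.nod (nat_lit 286536738282420138775189181070319131446473792505250621661007923264) (.dwn (nat_lit 20569723583638103294473460141508707922821809934463588099269219603186679159114489342040)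 (nat_lit 89796608)) .nil .nil)) .nil (.nod (nat_lit 5391914215538462551964682034368145426932857945988723802065352734146210772700203665440) (.dwn (nat_lit 20795474619825316644660483778816832149373973827953393338276184300320994811069248200720) (nat_lit 895102976)) .nil .nil)) (.dwn (nat_lit 152901939277348811962537919550413600197413100392817357740151388051492172280377314533392) (nat_lit 660221952)) (.dwn (nat_lit 152901939277348811962537919550413600197413100392817357740151388051492172280377314533392) (nat_lit 660221952))) .nil (.dwn (nat_lit 1147543431184411463940499955415219458451011441287555496514433507594430811103781491573082) (nat_lit 4955189248))) .nil l469 = true := by decide +kernel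
theorem cw2042 : wchk (nat_lit 5) [] [l307] (nat_lit 3) (nat_lit 3) (nat_lit 1) (nat_lit 0) (nat_lit 5818880) (nat_lit 0) w2042 = true := by decide +kernel
theorem cw2046 : wchk (nat_lit 5) [w726, w16] [] (nat_lit 1) (nat_lit 1) (nat_lit 3) (nat_lit 2) (nat_lit 86664192) (nat_lit 22709252) w2046 = true := by decide +kernel
theorem cw2047 : wchk (nat_lit 5) [] [l178] (nat_lit 210) (nat_lit 1) (nat_lit 1) (nat_lit 0) (nat_lit 22565632) (nat_lit 0) w2047 = true := by decide +kernel
theorem cl470 : lchk (nat_lit 5) [w1528, w10, w212, w2047, w4, w381, w870, w172, w888] (nat_lit 22709248) (.nod (nat_lit 618971827423609361019175002) .nil (.nod (nat_lit 61468522370571327647285057880310989449487974810) .nil (.dwn (nat_lit 145126284648608691080908284215839019476227463833430424562965699780753620436892299583504) (nat_lit 626667528)) (.dwn (nat_lit 145126284648608691080908284215839019476227463833430424562965699780753620436892299583504) (nat_lit 626667528))) (.nod (nat_lit 292295753148974944456115673178191687288315652192563276154484556186) (.dwn (nat_lit 1139759480284061667829234506518987692077624121135269557532399383248521902788521273612352) (nat_lit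 626689024)) .nil .nil)) (.nod (nat_lit 618971827423609361019175002) .nil (.nod (nat_lit 1127594853408710512308896968044163162840858900196192852345924616218) (.nod (nat_lit 7867581520196370461402153188619256452936490564219161563966062528512) .nil (.opn (nat_lit 61787474854497650053659186637320323636776605399761401240680825948160)) .dup) (.dwn (nat_lit 145131262782109181786649515899822883447737556985829759278330832186853336545639989053440) (nat_lit 626689024)) .dup) .nil) .nil .nil l470 = true := by decide +kernel
theorem cw2048 : wchk (nat_lit 5) [] [l470] (nat_lit 1) (nat_lit 3) (nat_lit 1) (nat_lit 0) (nat_lit 5820672) (nat_lit 0) w2048 = true := by decide +kernel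
theorem cw2049 : wchk (nat_lit 5) [w164, w16] [] (nat_lit 1) (nat_lit 1) (nat_lit 3) (nat_lit 2) (nat_lit 89739264) (nat_lit 22709252) w2049 = true := by decide +kernel
theorem cw2050 : wchk (nat_lit 5) [] [l299] (nat_lit 1) (nat_lit 2) (nat_lit 1) (nat_lit 0) (nat_lit 22438400) (nat_lit 0) w2050 = true := by decide +kernel
theorem cw2051 : wchk (nat_lit 5) [] [l299] (nat_lit 1) (nat_lit 2) (nat_lit 1) (nat_lit 0) (nat_lit 22438400) (nat_lit 0) w2051 = true := by decide +kernel
theorem cw2052 : wchk (nat_lit 5) [] [l159] (nat_lit 0) (nat_lit 2) (nat_lit 2) (nat_lit 0) (nat_lit 5806336) (nat_lit 0) w2052 = true := by decide +kernel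
theorem cl471 : lchk (nat_lit 5) [w24, w50, w15, w220, w17, w83, w1334, w438, w1335, w618, w1397] (nat_lit 23225344) .nil (.nod (nat_lit 1011419717054878169828442151138371280198220943669284027487439814746) (.nod (nat_lit 1133894150975833520375913680818771291568100417838140494634030376984) .nil (.nod (nat_lit 291575895121960799890322380476380814548597018712204749355453433888) (.nod (nat_lit 1134074027603162764449739119419351045842600984080454551800820451328) .nil (.opn (nat_lit 493153100703102339040506790654822057532425391834714704017214090299392)) .dup) (.dwn (nat_lit 1139897255269856510029727031284118383078681110909131454633103784361882251479345965352960) (nat_lit 4922172416)) .dup) .nil) (.nod (nat_lit 20586318905867595451608674977036629898913796410389174246763667557538409126135334129688) (.dwn (nat_lit 145264067971433958379405624835385632560335149601831889873364984681632107158552960206912) (nat_lit 627205120)) .nil .nil) .dup) (.nod (nat_lit 823014620930332126584948768) .nil (.dwn (nat_lit 20556442694170940074996372734792794759305125622911729566565772964447864743747607593370) (nat_lit 90391592)) .dup) .nil l471 = true := by decide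 +kernel
theorem cw2053 : wchk (nat_lit 5) [] [l471] (nat_lit 17) (nat_lit 3) (nat_lit 2) (nat_lit 0) (nat_lit 5820672) (nat_lit 0) w2053 = true := by decide +kernel
theorem cw2054 : wchk (nat_lit 5) [w220, w50] [] (nat_lit 17) (nat_lit 0) (nat_lit 3) (nat_lit 2) (nat_lit 21784576) (nat_lit 80578564) w2054 = true := by decide +kernel
theorem cw2055 : wchk (nat_lit 5) [] [l471] (nat_lit 17) (nat_lit 3) (nat_lit 2) (nat_lit 0) (nat_lit 5820672) (nat_lit 0) w2055 = true := by decide +kernel
theorem cw2056 : wchk (nat_lit 5) [] [l167] (nat_lit 209) (nat_lit 3) (nat_lit 3) (nat_lit 0) (nat_lit 5806336) (nat_lit 0) w2056 = true := by decide +kernel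
theorem cl472 : lchk (nat_lit 5) [w1502, w177, w50, w16, w14, w760, w2056, w284, w1632, w2027, w2052, w24, w209, w2053, w2054, w1523, w2055, w2046, w42, w2048, w1390, w2049, w2050, w2051, w342, w341, w1676, w1651] (nat_lit 22709248) (.nod (nat_lit 279877235509313701404038564385190993818274715036116620825232431112) (.nod (nat_lit 1011419760994590317551013856553702448910928423893271920813226414096) .nil (.nod (nat_lit 426853696446098220471358189053171084388462807080) .nil (.nod (nat_lit 1139910540791007242678931196095962237592041803082510944739327527698598712937514844508184) (.dwn (nat_lit 20933259795324012221003802259020077514084870061649855582857812336971967286820904020040) (nat_lit 39281394688)) .nil .nil) .dup) (.nod (nat_lit 292296104666672126110238467038211934491025931947950269459835676768) (.dwn (nat_lit 1139910547275364239969772844114771607548840793819777151788152525619732119682246262818936) (nat_lit 4922229824)) .nil .nil)) (.nod (nat_lit 20933269058691150714262322276741661592837521603098939338588034063249355766253021882512) (.dwn (nat_lit 145264080940147952955455368899458620646958758426557618002244076592841381223612798109880)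 (nat_lit 626689024)) .nil .nil) .dup) .nil (.nod (nat_lit 284827759672350702601968353414855644844663666632144266292544952520) (.nod (nat_lit 1011419760994590317596685844991966311636532388713208925191057002512) .nil (.dwn (nat_lit 7867581520196370461402153188619256452936490564219161563966062528512) (nat_lit 626689024)) .dup) (.dwn (nat_lit 20919998358927840379737217653291785889094235029448094723806656174903377739837632473232) (nat_lit 89818112)) (.dwn (nat_lit 20919998358927840379737217653291785889094235029448094723806656174903377739837632473232) (nat_lit 89818112))) .nil l472 = true := by decide +kernel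
theorem cw2057 : wchk (nat_lit 5) [] [l472] (nat_lit 18) (nat_lit 3) (nat_lit 2) (nat_lit 0) (nat_lit 5820672) (nat_lit 0) w2057 = true := by decide +kernel
theorem cw2058 : wchk (nat_lit 5) [w37] [] (nat_lit 0) (nat_lit 1) (nat_lit 3) (nat_lit 2) (nat_lit 16777265) (nat_lit 22709248) w2058 = true := by decide +kernel
theorem cl473 : lchk (nat_lit 5) [w1528, w2, w368, w3, w401, w39, w267, w2058, w91, w256, w1272, w255, w257, w181] (nat_lit 22121472) .nil (.nod (nat_lit 815873978533119527701637129) (.nod (nat_lit 1121565722300278546981955747646329892078239289265113959219410764186) .nil (.nod (nat_lit 292205764618496441411108237934778170502518505020924270974223075368) (.nod (nat_lit 61782255821030780151804620084191139109535523931806160349394094282800) .nil (.dwn (nat_lit 493139242469408649508369765517383831845774119145898463102303893395456) (nat_lit 39280806912)) (.dwn (nat_lit 493139242469408649508369765517383831845774119145898463102303893395456) (nat_lit 39280806912))) (.dwn (nat_lit 1139681461427006991973805712634523349864946802680046676625292852727111790063626943486000) (nat_lit 4921068544)) .dup) (.dwn (nat_lit 292205764618496441411108237934778170502518505020924270974223075368)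 (nat_lit 626273304))) .nil (.nod (nat_lit 5391908657518179161510025503109689936676807605782562182069602558702575676779457937754) (.dwn (nat_lit 145034991386443849304722341801826840786054998504658804154867735248296676374050855606368) (nat_lit 626101248)) .nil .nil)) (.nod (nat_lit 15533201318430192878581456615708110666455842842) .nil (.dwn (nat_lit 20664334057575415711773802624352369873829365880730371618004248255722246206445160962048) (nat_lit 89230336)) (.dwn (nat_lit 20664334057575415711773802624352369873829365880730371618004248255722246206445160962048) (nat_lit 89230336))) .nil l473 = true := by decide +kernel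
theorem cw2059 : wchk (nat_lit 5) [] [l473] (nat_lit 2) (nat_lit 2) (nat_lit 2) (nat_lit 0) (nat_lit 22597888) (nat_lit 0) w2059 = true := by decide +kernel
theorem cw2060 : wchk (nat_lit 5) [w128, w37] [] (nat_lit 2) (nat_lit 1) (nat_lit 1) (nat_lit 2) (nat_lit 88893440) (nat_lit 23282692) w2060 = true := by decide +kernel
theorem cw2061 : wchk (nat_lit 5) [w284, w37] [] (nat_lit 2) (nat_lit 1) (nat_lit 1) (nat_lit 2) (nat_lit 90384384) (nat_lit 23282692) w2061 = true := by decide +kernel
theorem cw2062 : wchk (nat_lit 5) [] [l274] (nat_lit 26) (nat_lit 1) (nat_lit 1) (nat_lit 0) (nat_lit 22597888) (nat_lit 0) w2062 = true := by decide +kernel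
theorem cl474 : lchk (nat_lit 5) [w42] (nat_lit 8388613) (.nod (nat_lit 226783958587284514993366790003713018976419880208933431724447105024) (.nod (nat_lit 1632046451200536998731376502600843022798450028053807212003328) .nil (.nod (nat_lit 11418072056757280018716543939718151685630066954) .nil (.dwn (nat_lit 34968070860758860402658296992705352630649573997144371155334056477159250600100227973386) (nat_lit 150995077)) (.opn (nat_lit 34968070860758860402658296992705352630649573997144371155334056477159250600100227973386))) (.dwn (nat_lit 210627056515198115759475078725130888477074679068861493023850103050) (nat_lit 16777349))) .nil (.dwn (nat_lit 38211389448314344491410471504067546590288693370779289094156616184168789416345600) (nat_lit 165))) .nil .nil .nil l474 = true := by decide +kernel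
theorem cw2063 : wchk (nat_lit 5) [] [l474] (nat_lit 1) (nat_lit 2) (nat_lit 4) (nat_lit 0) (nat_lit 22597888) (nat_lit 0) w2063 = true := by decide +kernel
theorem cw2064 : wchk (nat_lit 5) [w69, w16] [] (nat_lit 1) (nat_lit 1) (nat_lit 3) (nat_lit 2) (nat_lit 22644736) (nat_lit 22709252) w2064 = true := by decide +kernel
theorem cw2065 : wchk (nat_lit 5) [] [l307] (nat_lit 1) (nat_lit 0) (nat_lit 1) (nat_lit 0) (nat_lit 5818880) (nat_lit 0) w2065 = true := by decide +kernel
theorem cw2066 : wchk (nat_lit 5) [w1064, w16] [] (nat_lit 1) (nat_lit 1) (nat_lit 2) (nat_lit 2) (nat_lit 90262528) (nat_lit 23225348) w2066 = true := by decide +kernel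
theorem cw2067 : wchk (nat_lit 5) [w714, w16] [] (nat_lit 1) (nat_lit 1) (nat_lit 3) (nat_lit 2) (nat_lit 89402368) (nat_lit 22709252) w2067 = true := by decide +kernel
theorem cl475 : lchk (nat_lit 5) [w149, w33, w1379, w1393] (nat_lit 11240448) (.nod (nat_lit 315937439944827744895022828272059385647591191808160432186720256000) .nil (.nod (nat_lit 2483591173929494728575892069007664433434536968640287075143811010481770106802059345920) .nil (.dwn (nat_lit 142475270156019317814634232553891233231578935384944605727269883247296632312494510508032) (nat_lit 615220224)) (.opn (nat_lit 142475270156019317814634232553891233231578935384944605727269883247296632312494510508032))) (.nod (nat_lit 4183426454627007665630423811089954985290751492409043530966081464594099654546543345664) .nil (.dwn (nat_lit 144414144773064918516290761361707644421092243706398599538278524367258141090626810578944) (nat_lit 623592448)) (.opn (nat_lit 144414144773064918516290761361707644421092243706398599538278524367258141090626810578944)))) .nil (.nod (nat_lit 210625148276270558197104800588388953328386612578381596581095800832) .nil (.dwn (nat_lit 19724778518769554131515682454245986307978940959874886677666465924163403868353205370880)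 (nat_lit 85173260)) .dup) .nil l475 = true := by decide +kernel
theorem cw2068 : wchk (nat_lit 5) [] [l475] (nat_lit 3) (nat_lit 1) (nat_lit 4) (nat_lit 0) (nat_lit 22597888) (nat_lit 0) w2068 = true := by decide +kernel
theorem cw2069 : wchk (nat_lit 5) [w2068, w16] [] (nat_lit 1) (nat_lit 1) (nat_lit 4) (nat_lit 2) (nat_lit 90391552) (nat_lit 18523140) w2069 = true := by decide +kernel
theorem cw2070 : wchk (nat_lit 5) [w1361, w16] [] (nat_lit 1) (nat_lit 1) (nat_lit 3) (nat_lit 2) (nat_lit 89223168) (nat_lit 22709252) w2070 = true := by decide +kernel
theorem cl476 : lchk (nat_lit 5) [w255, w56, w16, w12, w294, w295, w432, w296, w354, w174, w501, w299, w298, w293, w301, w330, w302] (nat_lit 22816768) (.nod (nat_lit 820898576470892830209296393) (.nod (nat_lit 15806355842546270889490498724451274911901548890) .nil (.nod (nat_lit 61478284391113555553049598917513035990693466144) .nil (.dwn (nat_lit 1139802635532552058564210315377884461438302051467210611190073318018177410678572006789120) (nat_lit 4921763840)) (.dwn (nat_lit 1139802635532552058564210315377884461438302051467210611190073318018177410678572006789120) (nat_lit 4921763840))) (.dwn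 (nat_lit 286446599101499986085716832555056764712498169036273468870160980016) (nat_lit 626796572))) (.nod (nat_lit 5254129966376481365884407255952938614628333962054632372990295287292981381669465358682) .nil (.dwn (nat_lit 145113012096171952949324052815253383633477778448392659811589434922519121948830324117600) (nat_lit 626796544)) .dup) .nil) .nil (.nod (nat_lit 286447000836011050771807433654466294473124062151543732552679292954) .nil (.dwn (nat_lit 5284015441440275727785774873969224177176855707904619826341893423797549315669406404736) (nat_lit 89925632)) .dup) .nil l476 = true := by decide +kernel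
theorem cw2071 : wchk (nat_lit 5) [] [l476] (nat_lit 1) (nat_lit 3) (nat_lit 1) (nat_lit 0) (nat_lit 22597888) (nat_lit 0) w2071 = true := by decide +kernel
theorem cw2072 : wchk (nat_lit 5) [] [l32] (nat_lit 1) (nat_lit 2) (nat_lit 2) (nat_lit 0) (nat_lit 5671936) (nat_lit 0) w2072 = true := by decide +kernel
theorem cw2073 : wchk (nat_lit 5) [] [l296] (nat_lit 2) (nat_lit 2) (nat_lit 3) (nat_lit 0) (nat_lit 5661184) (nat_lit 0) w2073 = true := by decide +kernel
theorem cw2074 : wchk (nat_lit 5) [] [l297] (nat_lit 1) (nat_lit 2) (nat_lit 3) (nat_lit 0) (nat_lit 5661184) (nat_lit 0) w2074 = true := by decide +kernel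
theorem cw2075 : wchk (nat_lit 5) [] [l240] (nat_lit 1) (nat_lit 1) (nat_lit 3) (nat_lit 0) (nat_lit 5790208) (nat_lit 0) w2075 = true := by decide +kernel
theorem cw2076 : wchk (nat_lit 5) [] [l297] (nat_lit 25) (nat_lit 0) (nat_lit 4) (nat_lit 1) (nat_lit 4614656) (nat_lit 0) w2076 = true := by decide +kernel
theorem cw2077 : wchk (nat_lit 5) [] [l240] (nat_lit 1) (nat_lit 1) (nat_lit 3) (nat_lit 0) (nat_lit 22454528) (nat_lit 0) w2077 = true := by decide +kernel
theorem cw2078 : wchk (nat_lit 5) [] [l46] (nat_lit 17) (nat_lit 2) (nat_lit 3) (nat_lit 0) (nat_lit 5446144) (nat_lit 0) w2078 = true := by decide +kernel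
theorem cl477 : lchk (nat_lit 5) [w747, w56, w16, w12, w2072, w2073, w432, w2074, w1051, w1535, w1143, w2075, w2076, w293, w1530, w301, w2077, w2078] (nat_lit 23225344) (.nod (nat_lit 820898576470892830209296393) (.nod (nat_lit 15806355842546270889490498724451274911901548890) .nil (.nod (nat_lit 61478284391113555553066788331510681499273168928) .nil (.dwn (nat_lit 1139897255269856509967933077255426280779580444804136802886966599959145670312448590399488) (nat_lit 4922172416)) .dup) (.dwn (nat_lit 292295853582602710688689574571178596585678987933642834790657988656) (nat_lit 627262492))) (.nod (nat_lit 2616397289590985216490220880269588907724335455699301866619358582375145487426079687002) .nil (.dwn (nat_lit 145247471722867752312509030220181232171083838295626947892098888600798641665977034901600) (nat_lit 627205120)) .dup) .nil) .nil (.nod (nat_lit 286447000836011050771807433654466294473124062151543732552679292954) (.opn (nat_lit 1127595556444104875632670846127514447141069600461369056678085298304)) .nil (.dwn (nat_lit 1127595556444104875632670846127514447138593720530372248717829245064) (nat_lit 90334208))) .nil l477 = true := by decide +kernel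
theorem cw2079 : wchk (nat_lit 5) [] [l477] (nat_lit 1) (nat_lit 3) (nat_lit 1) (nat_lit 0) (nat_lit 22597888) (nat_lit 0) w2079 = true := by decide +kernel
theorem cw2080 : wchk (nat_lit 5) [w16, w2063] [] (nat_lit 3) (nat_lit 0) (nat_lit 3) (nat_lit 2) (nat_lit 22121472) (nat_lit 23282692) w2080 = true := by decide +kernel
theorem cl478 : lchk (nat_lit 5) [] (nat_lit 5) (.nod (nat_lit 210625148276270558197104800588388953327767640013088224271728115712) .nil .nil .nil) (.nod (nat_lit 1632046451200536998597305250033994196644648698879869804609536) .nil (.nod (nat_lit 618974926476613744223846666) .nil .nil (.dwn (nat_lit 34968070860758860402658296992705352630546812072754432442928228606101241373430057533466) (nat_lit 150995077))) .nil) .nil .nil l478 = true := by decide +kernel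
theorem cw2081 : wchk (nat_lit 5) [] [l478] (nat_lit 1) (nat_lit 2) (nat_lit 4) (nat_lit 0) (nat_lit 5820672) (nat_lit 0) w2081 = true := by decide +kernel
theorem cl479 : lchk (nat_lit 5) [] (nat_lit 5) (.nod (nat_lit 210625148276270558197104800588388953327767640013088224271728115712) .nil .nil .nil) (.nod (nat_lit 1632046451200536998597305250033994196644648698879869804609536) .nil (.nod (nat_lit 618974926476613744223846666) .nil .nil (.dwn (nat_lit 34968070860758860402658296992705352630546812072754432442928228606101241373430057533466) (nat_lit 150995077))) .nil) .nil .nil l479 = true := by decide +kernel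
theorem cw2082 : wchk (nat_lit 5) [] [l479] (nat_lit 1) (nat_lit 2) (nat_lit 4) (nat_lit 0) (nat_lit 5820672) (nat_lit 0) w2082 = true := by decide +kernel
theorem cl480 : lchk (nat_lit 5) [] (nat_lit 16777221) .nil (.nod (nat_lit 2579888813243925793936509452938350897018068087674718184800256) (.nod (nat_lit 1632046451200536998597305250033994196644648698879869804609536) .nil (.nod (nat_lit 618970204110130874578632970) .nil .nil (.dwn (nat_lit 34968070860758860402658296992705352630649573997144371155334056477159250600099959537690) (nat_lit 150995077))) .nil) .nil (.nod (nat_lit 38211389448314344489778425052867009591691388120745295825970003768608140442992640) .nil (.opn (nat_lit 3885375995840906456183413592072090680305823351034047466848536047256815829779405078858)) .dup)) .nil .nil l480 = true := by decide +kernel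
theorem cw2083 : wchk (nat_lit 5) [] [l480] (nat_lit 2) (nat_lit 2) (nat_lit 4) (nat_lit 0) (nat_lit 22597888) (nat_lit 0) w2083 = true := by decide +kernel
theorem cw2084 : wchk (nat_lit 5) [] [l480] (nat_lit 2) (nat_lit 3) (nat_lit 4) (nat_lit 0) (nat_lit 22597888) (nat_lit 0) w2084 = true := by decide +kernel
theorem cw2085 : wchk (nat_lit 5) [] [] (nat_lit 2) (nat_lit 1) (nat_lit 4) (nat_lit 2) (nat_lit 197) (nat_lit 25165901) w2085 = true := by decide +kernel
theorem cw2086 : wchk (nat_lit 5) [] [l28] (nat_lit 1) (nat_lit 2) (nat_lit 3) (nat_lit 0) (nat_lit 19451136) (nat_lit 0) w2086 = true := by decide +kernel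
theorem cw2087 : wchk (nat_lit 5) [] [l8] (nat_lit 26) (nat_lit 0) (nat_lit 4) (nat_lit 1) (nat_lit 19601664) (nat_lit 0) w2087 = true := by decide +kernel
theorem cw2088 : wchk (nat_lit 5) [] [] (nat_lit 2) (nat_lit 1) (nat_lit 4) (nat_lit 2) (nat_lit 197) (nat_lit 25165901) w2088 = true := by decide +kernel
theorem cl481 : lchk (nat_lit 5) [w201, w161, w1637, w1000, w2086, w86, w3, w954, w2087, w2088, w2081, w2082, w1797, w950, w2083, w2084, w2085] (nat_lit 22687744) .nil (.nod (nat_lit 1115266481227071157395065909393826572222687333102258277246368503825) (.nod (nat_lit 2222094014326884990397869455815514839758270110659489048822154) .nil (.nod (nat_lit 490068746848138070772320288) .nil .nil (.dwn (nat_lit 1139772755615508547594613653732344939537706751956405437836944705387826988667504731095066) (nat_lit 4921634816))) .nil) (.nod (nat_lit 27400837129378160707059455796090171293264476538871266619172325739375245344810404413770) .nil (.opn (nat_lit 144397551303508854148393075470242302440915460104406636276325303205184057851988058474568)) .dup) (.nod (nat_lit 28703938143237069707117241169274957597551723689120268292290939093231143757557853585738)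 (.opn (nat_lit 144397556861529137547445237107319627958653361357280628478244887454483549732523125147776)) .nil .nil)) .nil .nil l481 = true := by decide +kernel
theorem cw2089 : wchk (nat_lit 5) [] [l481] (nat_lit 17) (nat_lit 3) (nat_lit 2) (nat_lit 0) (nat_lit 5820672) (nat_lit 0) w2089 = true := by decide +kernel
theorem cw2090 : wchk (nat_lit 5) [] [l296] (nat_lit 1) (nat_lit 3) (nat_lit 1) (nat_lit 0) (nat_lit 21666048) (nat_lit 0) w2090 = true := by decide +kernel
theorem cl482 : lchk (nat_lit 5) [] (nat_lit 5) (.nod (nat_lit 210625148276270558197104800588388953327767640013088224271728115712) .nil .nil .nil) (.nod (nat_lit 1632046451200536998597305250033994196642287515638434982002688) .nil (.nod (nat_lit 618974926476613744223846666) (.nod (nat_lit 102761924389938712411398606141627361513722347546) .nil (.opn (nat_lit 15375596253318410871586627965191259863350805715463619510703459664138)) .dup) .nil .nil) .nil) .nil .nil l482 = true := by decide +kernel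
theorem cw2091 : wchk (nat_lit 5) [] [l482] (nat_lit 1) (nat_lit 2) (nat_lit 4) (nat_lit 0) (nat_lit 5820672) (nat_lit 0) w2091 = true := by decide +kernel
theorem cl483 : lchk (nat_lit 5) [] (nat_lit 5) (.nod (nat_lit 210625148276270558197104800588388953327767640013088224271728115712) .nil .nil .nil) (.nod (nat_lit 1632046451200536998597305250033994196642287515638434982002688) .nil (.nod (nat_lit 618974926476613744223846666) (.nod (nat_lit 102761924389938712411398606141627361513722347546) .nil (.opn (nat_lit 15375596253318410871586627965191259863350805715463619510703459664138)) .dup) .nil .nil) .nil) .nil .nil l483 = true := by decide +kernel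
theorem cw2092 : wchk (nat_lit 5) [] [l483] (nat_lit 1) (nat_lit 2) (nat_lit 4) (nat_lit 0) (nat_lit 5820672) (nat_lit 0) w2092 = true := by decide +kernel
theorem cw2093 : wchk (nat_lit 5) [] [] (nat_lit 2) (nat_lit 1) (nat_lit 4) (nat_lit 2) (nat_lit 197) (nat_lit 25165837) w2093 = true := by decide +kernel
theorem cl484 : lchk (nat_lit 5) [] (nat_lit 16777221) .nil (.nod (nat_lit 2579888813243925793936509452938350897018068087674718184800256) (.nod (nat_lit 1632046451200536998597305250033994196642287515638434982002688) .nil (.nod (nat_lit 618970204110130874578632970) (.nod (nat_lit 102761924389938712411398606141627361513722347546) .nil (.opn (nat_lit 15375596253318410871586627965191259863350805715463619510703459664138)) .dup) .nil .nil) .nil) .nil (.nod (nat_lit 38211389448314344489778425052867009591691388120745295825970003768608140442992640) .nil (.opn (nat_lit 3885375995840906456183413592072090680305823351034047466848536047256815829779405078858)) .dup)) .nil .nil l484 = true := by decide +kernel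
theorem cw2094 : wchk (nat_lit 5) [] [l484] (nat_lit 2) (nat_lit 2) (nat_lit 4) (nat_lit 0) (nat_lit 22597888) (nat_lit 0) w2094 = true := by decide +kernel
theorem cw2095 : wchk (nat_lit 5) [] [l484] (nat_lit 2) (nat_lit 3) (nat_lit 4) (nat_lit 0) (nat_lit 22597888) (nat_lit 0) w2095 = true := by decide +kernel
theorem cl485 : lchk (nat_lit 5) [w201, w817, w2090, w1000, w2086, w745, w389, w3, w954, w2087, w1001, w2091, w2092, w1797, w2093, w2094, w957, w2095, w998] (nat_lit 22687744) .nil (.nod (nat_lit 1129034726390282186075909440601005653401097568352989246259238176785) (.nod (nat_lit 2222094014326884990397869455815514839755908927418054226215306) .nil (.nod (nat_lit 490068746848138070772320288) (.nod (nat_lit 3349491088617954922350395788219877536531407175706) .nil (.opn (nat_lit 493146351563316451281349148542433311256458862927823677597614968430592)) .dup) .nil .nil) .nil) (.nod (nat_lit 28703933511553500214469422004341542923150102058119339567020353128337062312220706210122) .nil (.opn (nat_lit 144397552229845568046922638858810182510418722933288772536817323228699300727336901183568)) .dup) (.nod (nat_lit 28703939069573783605646804557842837667054986518002404552782959116746386632906712809802)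 (.opn (nat_lit 145264075382127669564277988266750456931375968079380575266941618790883348886124671699088)) .nil .nil)) .nil .nil l485 = true := by decide +kernel
theorem cw2096 : wchk (nat_lit 5) [] [l485] (nat_lit 145) (nat_lit 3) (nat_lit 2) (nat_lit 0) (nat_lit 5820672) (nat_lit 0) w2096 = true := by decide +kernel
theorem cl486 : lchk (nat_lit 5) [w1528, w162, w16, w2089, w461, w3, w39, w42, w2096, w1, w1554, w581, w1325, w1326] (nat_lit 22644736) (.nod (nat_lit 1133264187322771848481135884828047593371864462289278890713920045082) (.nod (nat_lit 1126784956634403981271106954044973501837181417571670238800978841600) .nil .nil (.dwn (nat_lit 7866771623422063930303236135132606899797388731385884113991938281472) (nat_lit 626624512))) (.nod (nat_lit 20785513721140765755138041520151542012659588926267424142095644425734227842813417164800) .nil (.opn (nat_lit 145116322823587426293983603556856752038139002034937079231782366897831738935260203913216)) .dup) (.dwn (nat_lit 20785513721140765756264826476785945993869612745417047358984213164974722178926742016000) (nat_lit 89753600))) .nil (.nod (nat_lit 835443612812083927144681489) (.nod (nat_lit 61517310695210984120422582678026126648573690266)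 .nil (.dwn (nat_lit 7874780803501906269799659779811037135278424564763278916126641932336) (nat_lit 625764380)) (.dwn (nat_lit 7874780803501906269799659779811037135278424564763278916126641932336) (nat_lit 625764380))) .nil (.nod (nat_lit 5391909583854893059024569288162956251882729866426760412148503640491771628829020258650) (.dwn (nat_lit 145235851755128609165528426739568167303288946972846065887861029354333275695806944563304) (nat_lit 626624512)) .nil .nil)) .nil l486 = true := by decide +kernel
theorem cw2097 : wchk (nat_lit 5) [] [l486] (nat_lit 3) (nat_lit 2) (nat_lit 1) (nat_lit 0) (nat_lit 22597888) (nat_lit 0) w2097 = true := by decide +kernel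
theorem cw2098 : wchk (nat_lit 5) [w56] [] (nat_lit 0) (nat_lit 0) (nat_lit 4) (nat_lit 2) (nat_lit 25165893) (nat_lit 85144576) w2098 = true := by decide +kernel
theorem cw2099 : wchk (nat_lit 5) [w56] [] (nat_lit 0) (nat_lit 0) (nat_lit 4) (nat_lit 2) (nat_lit 25165829) (nat_lit 85144576) w2099 = true := by decide +kernel
theorem cl487 : lchk (nat_lit 5) [w1528, w56, w16, w2098, w2099] (nat_lit 22630400) (.nod (nat_lit 315937088427130563240900053467851686020639418979204976819732217866) (.nod (nat_lit 61073378319325927804299050927173732853074796544) .nil (.nod (nat_lit 426448787652051657375027299734810572166517661696) .nil (.dwn (nat_lit 1139759475652378098274792915223216263142280328190717962345876382395981362424523038826496) (nat_lit 4921577472)) .dup) .nil) (.nod (nat_lit 20782193730358153425182856892869372912965610212691066538695880147103762592501958090752) .nil (.dwn (nat_lit 145113002832804813964028418929574582938445023321360721628382602619201273684948744839168) (nat_lit 626610176)) (.dwn (nat_lit 145113002832804813964028418929574582938445023321360721628382602619201273684948744839168) (nat_lit 626610176))) (.dwn (nat_lit 20782193730358153426309461872442819887264773332086347545372966399608953255817729187840)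 (nat_lit 89739264))) .nil (.nod (nat_lit 284106752935718982289391883134337742656254563040840329169897480209) (.nod (nat_lit 2623828525391694076594055189884924984505751862889804407505290) .nil (.dwn (nat_lit 7874780753285092387117309782059642110387305174923166181473420478488) (nat_lit 627262476)) (.dwn (nat_lit 7874780753285092387117309782059642110387305174923166181473420478488) (nat_lit 627262476))) .nil (.dwn (nat_lit 20933257016313870032262013210573601553939683393813338350863811358842095695442525290826) (nat_lit 90391568))) .nil l487 = true := by decide +kernel
theorem cw2100 : wchk (nat_lit 5) [] [l487] (nat_lit 210) (nat_lit 2) (nat_lit 3) (nat_lit 0) (nat_lit 22597888) (nat_lit 0) w2100 = true := by decide +kernel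
theorem cw2101 : wchk (nat_lit 5) [] [l45] (nat_lit 2) (nat_lit 1) (nat_lit 1) (nat_lit 0) (nat_lit 22567424) (nat_lit 0) w2101 = true := by decide +kernel
theorem cw2102 : wchk (nat_lit 5) [w69] [] (nat_lit 2) (nat_lit 0) (nat_lit 3) (nat_lit 2) (nat_lit 21727232) (nat_lit 25165873) w2102 = true := by decide +kernel
theorem cw2103 : wchk (nat_lit 5) [] [l267] (nat_lit 2) (nat_lit 1) (nat_lit 1) (nat_lit 0) (nat_lit 22597888) (nat_lit 0) w2103 = true := by decide +kernel
theorem cw2104 : wchk (nat_lit 5) [] [l257] (nat_lit 2) (nat_lit 1) (nat_lit 1) (nat_lit 0) (nat_lit 22565632) (nat_lit 0) w2104 = true := by decide +kernel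
theorem cw2105 : wchk (nat_lit 5) [] [l104] (nat_lit 2) (nat_lit 1) (nat_lit 1) (nat_lit 0) (nat_lit 18535424) (nat_lit 0) w2105 = true := by decide +kernel
theorem cw2106 : wchk (nat_lit 5) [] [l342] (nat_lit 2) (nat_lit 2) (nat_lit 3) (nat_lit 0) (nat_lit 21157120) (nat_lit 0) w2106 = true := by decide +kernel
theorem cw2107 : wchk (nat_lit 5) [] [l481] (nat_lit 18) (nat_lit 2) (nat_lit 3) (nat_lit 0) (nat_lit 5788416) (nat_lit 0) w2107 = true := by decide +kernel
theorem cw2108 : wchk (nat_lit 5) [] [l269] (nat_lit 2) (nat_lit 1) (nat_lit 1) (nat_lit 0) (nat_lit 22565632) (nat_lit 0) w2108 = true := by decide +kernel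
theorem cw2109 : wchk (nat_lit 5) [] [l342] (nat_lit 26) (nat_lit 0) (nat_lit 3) (nat_lit 1) (nat_lit 21157120) (nat_lit 0) w2109 = true := by decide +kernel
theorem cw2110 : wchk (nat_lit 5) [] [l342] (nat_lit 26) (nat_lit 0) (nat_lit 4) (nat_lit 1) (nat_lit 22205440) (nat_lit 0) w2110 = true := by decide +kernel
theorem cl488 : lchk (nat_lit 5) [w438, w1231, w154, w220, w199, w201, w83, w2109, w2110, w2102, w432, w13, w2103, w2104, w2105, w2106, w2107, w42, w2108, w164] (nat_lit 626796544) .nil (.nod (nat_lit 1134074084097078379580009033722587539323535653778737039020323242074) (.nod (nat_lit 1121835687891714057348246797277843207398774335477840498598192828440) .nil (.nod (nat_lit 286446548884686102930792437477627823521360162887345184321842735144) (.nod (nat_lit 1128944681365888064201552430009372310149781991154586888296541474816) .nil (.opn (nat_lit 7868931348153548013233681611097005708129796345597366847885886902272)) .dup) (.dwn (nat_lit 20825353610532113715729201728903459273127685705385445122319174349363949256234895953920) (nat_lit 89925632)) .dup) .nil) (.nod (nat_lit 20586319832204309349004344214628676448041145558452539215690897957983401525853266595864)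 .nil (.dwn (nat_lit 145264068897770672266696263190888437461043806782075727192187397664751018101228386551872) (nat_lit 895232000)) .dup) (.nod (nat_lit 20933261647997439525840618370739349860788102224704454776679656837988046551600895514712) (.dwn (nat_lit 145264073529454241767218861389181069026184999095381267747953630561716423550702317897840) (nat_lit 627262524)) .nil .nil)) (.nod (nat_lit 837030752225441823256242216) .nil (.nod (nat_lit 20933268132354436814616771651294148061093759133345298446925520549840335898171664236954) (.dwn (nat_lit 144917139124354822779549885032117867871148558507152129352402630112822288908787226202264) (nat_lit 41428985856)) .nil .nil) .dup) .nil l488 = true := by decide +kernel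
theorem cw2111 : wchk (nat_lit 5) [] [l488] (nat_lit 17) (nat_lit 3) (nat_lit 2) (nat_lit 0) (nat_lit 5820672) (nat_lit 0) w2111 = true := by decide +kernel
theorem cw2112 : wchk (nat_lit 5) [w220, w164] [] (nat_lit 17) (nat_lit 0) (nat_lit 3) (nat_lit 2) (nat_lit 21784576) (nat_lit 89739268) w2112 = true := by decide +kernel
theorem cw2113 : wchk (nat_lit 5) [] [l357] (nat_lit 1) (nat_lit 2) (nat_lit 3) (nat_lit 0) (nat_lit 22454528) (nat_lit 0) w2113 = true := by decide +kernel
theorem cw2114 : wchk (nat_lit 5) [] [l488] (nat_lit 17) (nat_lit 3) (nat_lit 2) (nat_lit 0) (nat_lit 5820672) (nat_lit 0) w2114 = true := by decide +kernel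
theorem cw2115 : wchk (nat_lit 5) [] [l209] (nat_lit 1) (nat_lit 0) (nat_lit 1) (nat_lit 0) (nat_lit 30984704) (nat_lit 0) w2115 = true := by decide +kernel
theorem cw2116 : wchk (nat_lit 5) [w39, w16] [] (nat_lit 1) (nat_lit 1) (nat_lit 3) (nat_lit 2) (nat_lit 90262528) (nat_lit 22709252) w2116 = true := by decide +kernel
theorem cw2117 : wchk (nat_lit 5) [w1929, w16] [] (nat_lit 1) (nat_lit 1) (nat_lit 2) (nat_lit 2) (nat_lit 85173248) (nat_lit 23225348) w2117 = true := by decide +kernel
theorem cw2118 : wchk (nat_lit 5) [] [l15] (nat_lit 2) (nat_lit 1) (nat_lit 1) (nat_lit 0) (nat_lit 22597888) (nat_lit 0) w2118 = true := by decide +kernel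
theorem cw2119 : wchk (nat_lit 5) [] [l37] (nat_lit 2) (nat_lit 1) (nat_lit 1) (nat_lit 0) (nat_lit 22483200) (nat_lit 0) w2119 = true := by decide +kernel
theorem cw2120 : wchk (nat_lit 5) [w1326] [] (nat_lit 2) (nat_lit 0) (nat_lit 3) (nat_lit 2) (nat_lit 22114304) (nat_lit 25165905) w2120 = true := by decide +kernel
theorem cw2121 : wchk (nat_lit 5) [w1555] [] (nat_lit 2) (nat_lit 0) (nat_lit 3) (nat_lit 2) (nat_lit 74084352) (nat_lit 25165905) w2121 = true := by decide +kernel
theorem cw2122 : wchk (nat_lit 5) [] [l89] (nat_lit 2) (nat_lit 3) (nat_lit 1) (nat_lit 0) (nat_lit 4365568) (nat_lit 0) w2122 = true := by decide +kernel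
theorem cw2123 : wchk (nat_lit 5) [] [l172] (nat_lit 33) (nat_lit 2) (nat_lit 2) (nat_lit 0) (nat_lit 156571904) (nat_lit 0) w2123 = true := by decide +kernel
theorem cl489 : lchk (nat_lit 5) [] (nat_lit 16777233) .nil (.nod (nat_lit 261) (.nod (nat_lit 260) .nil .nil .nil) .nil .nil) .nil .nil l489 = true := by decide +kernel
theorem cw2124 : wchk (nat_lit 5) [] [l489] (nat_lit 2) (nat_lit 3) (nat_lit 1) (nat_lit 0) (nat_lit 22597888) (nat_lit 0) w2124 = true := by decide +kernel
theorem cw2125 : wchk (nat_lit 5) [] [l287] (nat_lit 2) (nat_lit 2) (nat_lit 3) (nat_lit 0) (nat_lit 19065856) (nat_lit 0) w2125 = true := by decide +kernel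
theorem cw2126 : wchk (nat_lit 5) [] [l413] (nat_lit 1) (nat_lit 3) (nat_lit 1) (nat_lit 0) (nat_lit 22438400) (nat_lit 0) w2126 = true := by decide +kernel
theorem cw2127 : wchk (nat_lit 5) [] [l138] (nat_lit 1) (nat_lit 1) (nat_lit 1) (nat_lit 0) (nat_lit 22307584) (nat_lit 0) w2127 = true := by decide +kernel
theorem cw2128 : wchk (nat_lit 5) [] [] (nat_lit 1) (nat_lit 1) (nat_lit 4) (nat_lit 2) (nat_lit 197) (nat_lit 25165901) w2128 = true := by decide +kernel
theorem cw2129 : wchk (nat_lit 5) [] [l172] (nat_lit 1) (nat_lit 2) (nat_lit 2) (nat_lit 0) (nat_lit 22350592) (nat_lit 0) w2129 = true := by decide +kernel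
theorem cw2130 : wchk (nat_lit 5) [] [l480] (nat_lit 33) (nat_lit 0) (nat_lit 4) (nat_lit 1) (nat_lit 22597888) (nat_lit 0) w2130 = true := by decide +kernel
theorem cw2131 : wchk (nat_lit 5) [] [] (nat_lit 1) (nat_lit 1) (nat_lit 4) (nat_lit 2) (nat_lit 197) (nat_lit 25165901) w2131 = true := by decide +kernel
theorem cl490 : lchk (nat_lit 5) [] (nat_lit 8388613) (.nod (nat_lit 210625154553372293583785564424178376535434056115443668735762628608) (.nod (nat_lit 1632046451200536998597305250033993268193880432725690536689664) .nil (.nod (nat_lit 618970204110130874578632970) .nil .nil .nil) .nil) .nil (.nod (nat_lit 38211389448314344491410471504067546590288693370779289094150528758624465264312320) .nil (.opn (nat_lit 3885368585147195268157533138309737175280208841154807906079464388786791108884352205066)) .dup)) .nil .nil .nil l490 = true := by decide +kernel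
theorem cw2132 : wchk (nat_lit 5) [] [l490] (nat_lit 25) (nat_lit 2) (nat_lit 4) (nat_lit 0) (nat_lit 30986496) (nat_lit 0) w2132 = true := by decide +kernel
theorem cw2133 : wchk (nat_lit 5) [] [] (nat_lit 17) (nat_lit 0) (nat_lit 4) (nat_lit 2) (nat_lit 25165901) (nat_lit 197) w2133 = true := by decide +kernel
theorem cl491 : lchk (nat_lit 5) [w2084, w428, w2122, w2124, w2125, w2132, w2095, w2133, w69, w2123, w12, w2126, w2127, w2128, w2082, w2081, w2129, w2130, w2131] (nat_lit 23282688) (.nod (nat_lit 1034456780857375054418611719694174187267050788950909191144740390929) (.nod (nat_lit 2222094014326884990397869455815514839758270110659489048822154) .nil (.nod (nat_lit 858980016489914754866251808) .nil .nil (.nod (nat_lit 15757580788918924333572013115030414102202679322) (.dwn (nat_lit 9097082323347593517658200987407959543449128760848539076452500168163475138205879671105600) (nat_lit 39281968128)) .nil .nil)) .nil) (.nod (nat_lit 20933261647997439524909827931318987574570919331170344623482202865157242382311135117642) .nil (.opn (nat_lit 145264072603117527860814516745159957739056858097604272234155477758811989602623830788200)) (.dwn (nat_lit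 145264072603117527860814516745159957739056858097604272234155477758959563555213507201128) (nat_lit 627262464))) (.nod (nat_lit 28674061931540414331638833078006955978318966582461594903657827767163818325290701029706) .nil (.dwn (nat_lit 145264077234801097361337115144319844836571834853655074332543894068115533226398716430480) (nat_lit 627262464)) .dup)) .nil .nil .nil l491 = true := by decide +kernel
theorem cw2134 : wchk (nat_lit 5) [] [l491] (nat_lit 18) (nat_lit 2) (nat_lit 3) (nat_lit 0) (nat_lit 5820672) (nat_lit 0) w2134 = true := by decide +kernel
theorem cw2135 : wchk (nat_lit 5) [] [l283] (nat_lit 25) (nat_lit 3) (nat_lit 3) (nat_lit 0) (nat_lit 156557568) (nat_lit 0) w2135 = true := by decide +kernel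
theorem cw2136 : wchk (nat_lit 5) [] [l485] (nat_lit 153) (nat_lit 2) (nat_lit 3) (nat_lit 0) (nat_lit 5820672) (nat_lit 0) w2136 = true := by decide +kernel
theorem cw2137 : wchk (nat_lit 5) [] [l241] (nat_lit 2) (nat_lit 3) (nat_lit 1) (nat_lit 0) (nat_lit 5705984) (nat_lit 0) w2137 = true := by decide +kernel
theorem cl492 : lchk (nat_lit 5) [] (nat_lit 133) (.nod (nat_lit 1632046451200536998597305250033994196644648698879869804609536) .nil (.nod (nat_lit 618974926476613744223846666) .nil .nil (.nod (nat_lit 102761924389938712411398606141627361513722347546) .nil (.opn (nat_lit 283629689065652181480349421066115772681608400214483681334707501421354272784993801470218)) .dup)) .nil) (.nod (nat_lit 210625148276270558197104800588388953327767640013088224271728115712) .nil .nil .nil) .nil .nil l492 = true := by decide +kernel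
theorem cw2138 : wchk (nat_lit 5) [] [l492] (nat_lit 2) (nat_lit 2) (nat_lit 4) (nat_lit 0) (nat_lit 5820672) (nat_lit 0) w2138 = true := by decide +kernel
theorem cl493 : lchk (nat_lit 5) [] (nat_lit 133) (.nod (nat_lit 1632046451200536998597305250033994196644648698879869804609536) .nil (.nod (nat_lit 618974926476613744223846666) .nil .nil (.nod (nat_lit 102761924389938712411398606141627361513722347546) .nil (.opn (nat_lit 283629689065652181480349421066115772681608400214483681334707501421354272784993801470218)) .dup)) .nil) (.nod (nat_lit 210625148276270558197104800588388953327767640013088224271728115712) .nil .nil .nil) .nil .nil l493 = true := by decide +kernel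
theorem cw2139 : wchk (nat_lit 5) [] [l493] (nat_lit 2) (nat_lit 2) (nat_lit 4) (nat_lit 0) (nat_lit 5820672) (nat_lit 0) w2139 = true := by decide +kernel
theorem cw2140 : wchk (nat_lit 5) [] [] (nat_lit 1) (nat_lit 1) (nat_lit 4) (nat_lit 2) (nat_lit 197) (nat_lit 25165901) w2140 = true := by decide +kernel
theorem cl494 : lchk (nat_lit 5) [] (nat_lit 8388613) (.nod (nat_lit 210625154553372293583785564424178376535434056115443668735762628608) (.nod (nat_lit 1632046451200536998597305250033994196644648698879869804609536) .nil (.nod (nat_lit 618970204110130874578632970) .nil .nil (.nod (nat_lit 102761924389938712411398606141627361513990783242) .nil (.opn (nat_lit 283629689065652181480349421066115772681608400214483681334707501421354272784993801470218)) .dup)) .nil) .nil .nil) .nil .nil .nil l494 = true := by decide +kernel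
theorem cw2141 : wchk (nat_lit 5) [] [l494] (nat_lit 1) (nat_lit 2) (nat_lit 4) (nat_lit 0) (nat_lit 22597888) (nat_lit 0) w2141 = true := by decide +kernel
theorem cw2142 : wchk (nat_lit 5) [] [l494] (nat_lit 1) (nat_lit 3) (nat_lit 4) (nat_lit 0) (nat_lit 22597888) (nat_lit 0) w2142 = true := by decide +kernel
theorem cl495 : lchk (nat_lit 5) [w201, w1075, w2137, w1000, w2086, w740, w3, w954, w2087, w2142, w2138, w2139, w1797, w2141] (nat_lit 22687744) (.nod (nat_lit 1129034726390282186075909440601005653401097568352989246259238176785) (.nod (nat_lit 2222094014326884990397869455815514839758270110659489048822154) .nil (.nod (nat_lit 490068746848138070772320288) .nil .nil (.nod (nat_lit 3349491088617954922350395788219877536531407175706) .nil (.opn (nat_lit 9096944538172094822080729624081478381171738681999881318499425677724743933342363227021312)) .dup)) .nil) (.nod (nat_lit 28703933511553500214469422004341542923150331334933653024622019334585982166143617466698) .nil (.opn (nat_lit 144397551303508854148393075470242302440915460104406636276325303205184057851988058474568)) .dup) (.dwn (nat_lit 28703938143237069707117241169274957597551723689120268292290939093231143757557853585738)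 (nat_lit 90391604))) .nil .nil .nil l495 = true := by decide +kernel
theorem cw2143 : wchk (nat_lit 5) [] [l495] (nat_lit 153) (nat_lit 2) (nat_lit 3) (nat_lit 0) (nat_lit 5820672) (nat_lit 0) w2143 = true := by decide +kernel
theorem cw2144 : wchk (nat_lit 5) [] [l203] (nat_lit 2) (nat_lit 1) (nat_lit 1) (nat_lit 0) (nat_lit 22596096) (nat_lit 0) w2144 = true := by decide +kernel
theorem cw2145 : wchk (nat_lit 5) [] [l185] (nat_lit 2) (nat_lit 1) (nat_lit 1) (nat_lit 0) (nat_lit 22597888) (nat_lit 0) w2145 = true := by decide +kernel
theorem cl496 : lchk (nat_lit 5) [w3, w33, w11, w13, w12] (nat_lit 18179072) .nil (.nod (nat_lit 2579888813243925793936509452938351825476085924249865306505216) (.nod (nat_lit 2573611711508539113172673663515143230609233749395295713624064) .nil (.nod (nat_lit 210624746541759493449535915097865868037735979666449909449308686336) (.opn (nat_lit 19751336592357024975168752223902163786462135492904055419080845753537702630469246044160)) .dup .dup) .nil) .nil (.nod (nat_lit 19751337518693738872627595682200947971280017006721283016262900641881702499733234253824) (.opn (nat_lit 19751338445030452772227699174627408567838129026396907529689501550271605286102358448160))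 .nil .nil)) (.nod (nat_lit 928455213931475944581285888) .nil .nil (.dwn (nat_lit 19751336592357024974098030121755867457985219647232030683069071632344302370793778577498) (nat_lit 85287936))) .nil l496 = true := by decide +kernel
theorem cw2146 : wchk (nat_lit 5) [] [l496] (nat_lit 26) (nat_lit 0) (nat_lit 4) (nat_lit 1) (nat_lit 22597888) (nat_lit 0) w2146 = true := by decide +kernel
theorem cw2147 : wchk (nat_lit 5) [] [l481] (nat_lit 3) (nat_lit 0) (nat_lit 3) (nat_lit 1) (nat_lit 5788416) (nat_lit 0) w2147 = true := by decide +kernel
theorem cw2148 : wchk (nat_lit 5) [] [l481] (nat_lit 3) (nat_lit 0) (nat_lit 3) (nat_lit 1) (nat_lit 5788416) (nat_lit 0) w2148 = true := by decide +kernel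
theorem cl497 : lchk (nat_lit 5) [w2107, w1231, w161, w1637, w199, w201, w2106, w2147, w1335, w2148, w42, w2118, w2119, w3, w2144, w2145, w2146, w2102, w12, w13, w2120, w2121, w2134, w2135, w2136, w2143, w1, w69] (nat_lit 23282688) .nil (.nod (nat_lit 1134074084097078379580009033722587539323535654959328659737734545562) (.nod (nat_lit 1126785057068031747396916040522253988214564141353057797241612584984) .nil (.nod (nat_lit 286446548884686102930792437477627823521360162887345184321842735144) (.nod (nat_lit 1134794237147874087365518943919990610861277557339456228966854510656) .nil (.dwn (nat_lit 493153820611346167068150272480143523801861821584783080168637996632064) (nat_lit 39281968128)) .dup) (.dwn (nat_lit 20933261647997439526025814766464109972063850075662290427891192413748676879947356498000) (nat_lit 4922229760)) .dup) .nil) (.nod (nat_lit 20933263500670867321968954708454747713577532800841095294164846825916614339926338226280) .nil (.dwn (nat_lit 145264075382127669556403206910863597947566734396157159165327665334102987593637653022848) (nat_lit 627262464)) .dup) (.nod (nat_lit 20933269058691150713437731660958426286884729192557888711013293174246539862094901827736)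 (.dwn (nat_lit 145264080940147952955455368899458620646958670611928880917180441380389114999191400515760) (nat_lit 627262464)) .nil .nil)) (.nod (nat_lit 837030752225441823256242216) .nil .nil (.nod (nat_lit 15845438973798975277330549912264057917666230362) (.dwn (nat_lit 20933275543048148003988073951104526483199427304406861828761415509342526821805745154264) (nat_lit 627262464)) .nil .nil)) .nil l497 = true := by decide +kernel
theorem cw2149 : wchk (nat_lit 5) [] [l497] (nat_lit 17) (nat_lit 3) (nat_lit 2) (nat_lit 0) (nat_lit 5820672) (nat_lit 0) w2149 = true := by decide +kernel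
theorem cw2150 : wchk (nat_lit 5) [w162, w164] [] (nat_lit 17) (nat_lit 0) (nat_lit 3) (nat_lit 2) (nat_lit 21784576) (nat_lit 89739268) w2150 = true := by decide +kernel
theorem cl498 : lchk (nat_lit 5) [w2049, w177, w1231, w16, w1449, w2097, w2149, w284, w2150, w2027, w2100, w438, w2101, w2111, w2112, w2113, w2114, w2046, w2048, w42, w2115, w2116, w2117, w2070, w184, w581, w2064, w1326, w2065, w2066, w2067, w2069, w495, w2063, w1226, w2071, w1227, w2079, w2080] (nat_lit 23282688) (.nod (nat_lit 279877235509313701404038564385190993818274715036116620825232431112) (.nod (nat_lit 1134074128036790527302580739137918708034108133392374330929678993433) .nil (.nod (nat_lit 426892722750195649061993391872129383089713874984) .nil (.nod (nat_lit 1139910540791007242678931196095962237592041803082510944739327527698598712937514844508184) (.dwn (nat_lit 20933259795324012221004522167263905541728312860667224423703742283913181978011119036488) (nat_lit 39281968128)) .nil .nil) .dup) (.nod (nat_lit 292296104666672126521017496696858558676162639098349446249653373024) (.dwn (nat_lit 1139910547275364239969772844114771607548840793819777151788152542544693594287054710540408)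 (nat_lit 4922229824)) .nil .nil)) (.nod (nat_lit 20933269058691150713146335039862028130597109774133912857116942901828474888307483142296) .nil (.dwn (nat_lit 145264080940147952947580587242270878364586311369449976728279785475194444845730808367280) (nat_lit 627262556)) .dup) (.nod (nat_lit 20586336506265159523659041959972779095241143714576767301029585580418071081287260760280) (.dwn (nat_lit 145264088350841664143691876409736172267732429943105231171470887411514072672101880727800) (nat_lit 627262556)) .nil .nil)) .nil (.nod (nat_lit 284288230223990746616955139642352099500869482682803721316823632136) (.nod (nat_lit 1134075734974834786338567320342702758822876602796977370165339801888) .nil (.dwn (nat_lit 7874780602634650737836971441833919147300788064902923078205125855232) (nat_lit 627262464)) (.dwn (nat_lit 7874780602634650737836971441833919147300788064902923078205125855232) (nat_lit 627262464))) (.dwn (nat_lit 20933287585425428684853590098316076865996224288705720998722258151862154870284484929688) (nat_lit 90391552)) (.dwn (nat_lit 20933287585425428684853590098316076865996224288705720998722258151862154870284484929688) (nat_lit 90391552))) .nil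 l498 = true := by decide +kernel
theorem cw2151 : wchk (nat_lit 5) [] [l498] (nat_lit 18) (nat_lit 3) (nat_lit 2) (nat_lit 0) (nat_lit 5820672) (nat_lit 0) w2151 = true := by decide +kernel
theorem cw2152 : wchk (nat_lit 5) [] [l470] (nat_lit 1) (nat_lit 2) (nat_lit 1) (nat_lit 0) (nat_lit 5820672) (nat_lit 0) w2152 = true := by decide +kernel
theorem cw2153 : wchk (nat_lit 5) [w713, w16] [] (nat_lit 1) (nat_lit 1) (nat_lit 3) (nat_lit 2) (nat_lit 89416704) (nat_lit 22709252) w2153 = true := by decide +kernel
theorem cw2154 : wchk (nat_lit 5) [w712, w16] [] (nat_lit 1) (nat_lit 1) (nat_lit 3) (nat_lit 2) (nat_lit 89402368) (nat_lit 22709252) w2154 = true := by decide +kernel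
theorem cw2155 : wchk (nat_lit 5) [w714, w16] [] (nat_lit 1) (nat_lit 1) (nat_lit 4) (nat_lit 2) (nat_lit 77933568) (nat_lit 18523140) w2155 = true := by decide +kernel
theorem cw2156 : wchk (nat_lit 5) [] [l385] (nat_lit 1) (nat_lit 2) (nat_lit 1) (nat_lit 0) (nat_lit 22583552) (nat_lit 0) w2156 = true := by decide +kernel
theorem cw2157 : wchk (nat_lit 5) [] [l298] (nat_lit 1) (nat_lit 2) (nat_lit 1) (nat_lit 0) (nat_lit 22438400) (nat_lit 0) w2157 = true := by decide +kernel
theorem cw2158 : wchk (nat_lit 5) [] [l344] (nat_lit 0) (nat_lit 1) (nat_lit 3) (nat_lit 1) (nat_lit 22354176) (nat_lit 0) w2158 = true := by decide +kernel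
theorem cw2159 : wchk (nat_lit 5) [] [l344] (nat_lit 17) (nat_lit 0) (nat_lit 1) (nat_lit 1) (nat_lit 22583552) (nat_lit 0) w2159 = true := by decide +kernel
theorem cw2160 : wchk (nat_lit 5) [] [l299] (nat_lit 25) (nat_lit 0) (nat_lit 1) (nat_lit 1) (nat_lit 22438400) (nat_lit 0) w2160 = true := by decide +kernel
theorem cl499 : lchk (nat_lit 5) [w2050, w177, w42, w16, w35, w960, w2159, w2158, w1334, w2046, w2116, w2160, w535, w1325, w2152, w2153, w2067, w2154, w2155, w342, w495, w946, w2156, w2157] (nat_lit 23282688) (.nod (nat_lit 279877235509313701404038564385190993818274715036116620825232431112) (.nod (nat_lit 1128944781799515830343050796139165717009332347991200597985547544592) .nil (.nod (nat_lit 15796604370757417578947407974972201452072912936) .nil (.dwn (nat_lit 1139910540791007242678931196095962237592041803082510944739327527698598712937514844508184) (nat_lit 4922229784)) (.dwn (nat_lit 1139910540791007242678931196095962237592041803082510944739327527698598712937514844508184) (nat_lit 4922229784))) (.dwn (nat_lit 292295954016230476829861100508391542813995002521676643671501916216) (nat_lit 627262488))) (.nod (nat_lit 20933261647997439526025814364729598907254763868587520617010088376222062271877172488208)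 .nil (.dwn (nat_lit 5378625915377588152960358329565549143422584978943876557184193881317355402653160867928) (nat_lit 627262464)) (.dwn (nat_lit 5378625915377588152960358329565549143422584978943876557184193881317355402653160867928) (nat_lit 627262464))) (.nod (nat_lit 20558105468572387935854861480924154789581653317201250684770096388069123153725978208360) (.dwn (nat_lit 145264076308464383462807551705535150883975213728715359771477319831170949068307121473680) (nat_lit 627262464)) .nil .nil)) .nil (.nod (nat_lit 284827508588281287134737799983278716538004906179872399181726521504) (.nod (nat_lit 1134075082156254306123767846031236585447935275824493474539815749800) .nil (.dwn (nat_lit 7874780602634650737836971441833919147300788064902923078205125855232) (nat_lit 627262464)) .dup) (.dwn (nat_lit 20933274616711434105439701804679919880361960797243933924856329816871698591614441416720) (nat_lit 90391552)) (.dwn (nat_lit 20933274616711434105439701804679919880361960797243933924856329816871698591614441416720) (nat_lit 90391552))) .nil l499 = true := by decide +kernel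
theorem cw2161 : wchk (nat_lit 5) [] [l499] (nat_lit 18) (nat_lit 3) (nat_lit 2) (nat_lit 0) (nat_lit 5820672) (nat_lit 0) w2161 = true := by decide +kernel
theorem cw2162 : wchk (nat_lit 5) [] [l295] (nat_lit 0) (nat_lit 3) (nat_lit 2) (nat_lit 0) (nat_lit 5677312) (nat_lit 0) w2162 = true := by decide +kernel
theorem cw2163 : wchk (nat_lit 5) [w167, w37] [] (nat_lit 25) (nat_lit 1) (nat_lit 1) (nat_lit 2) (nat_lit 89416704) (nat_lit 23282692) w2163 = true := by decide +kernel
theorem cw2164 : wchk (nat_lit 5) [] [l209] (nat_lit 1) (nat_lit 2) (nat_lit 1) (nat_lit 0) (nat_lit 22596096) (nat_lit 0) w2164 = true := by decide +kernel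
theorem cw2165 : wchk (nat_lit 5) [w50, w16] [] (nat_lit 1) (nat_lit 1) (nat_lit 2) (nat_lit 2) (nat_lit 76378112) (nat_lit 23225348) w2165 = true := by decide +kernel
theorem cw2166 : wchk (nat_lit 5) [] [l472] (nat_lit 0) (nat_lit 3) (nat_lit 2) (nat_lit 0) (nat_lit 5820672) (nat_lit 0) w2166 = true := by decide +kernel
theorem cw2167 : wchk (nat_lit 5) [] [l472] (nat_lit 0) (nat_lit 3) (nat_lit 3) (nat_lit 0) (nat_lit 5705984) (nat_lit 0) w2167 = true := by decide +kernel
theorem cw2168 : wchk (nat_lit 5) [] [l309] (nat_lit 0) (nat_lit 3) (nat_lit 2) (nat_lit 0) (nat_lit 5820672) (nat_lit 0) w2168 = true := by decide +kernel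
theorem cw2169 : wchk (nat_lit 5) [w16, w284] [] (nat_lit 0) (nat_lit 0) (nat_lit 1) (nat_lit 2) (nat_lit 23282688) (nat_lit 90384388) w2169 = true := by decide +kernel
theorem cw2170 : wchk (nat_lit 5) [] [l381] (nat_lit 1) (nat_lit 3) (nat_lit 2) (nat_lit 0) (nat_lit 5806336) (nat_lit 0) w2170 = true := by decide +kernel

end Pool.Agent.W319.GCI.K5
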