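import Pool.Agent.W319.GCI.K5C0
import Pool.Agent.W319.GCI.K5C1
import Pool.Agent.W319.GCI.K5C2
import Pool.Agent.W319.GCI.K5C3
import Pool.Agent.W319.GCI.K5C4
import Pool.Agent.W319.GCI.K5C5
import Pool.Agent.W319.GCI.K5C6
import Pool.Agent.W319.GCI.K5C7
import Pool.Agent.W319.GCI.K5C8
import Pool.Agent.W319.GCI.K5C9
import Pool.Agent.W319.GCI.K5C10
import Pool.Agent.W319.GCI.K5C11
import Pool.Agent.W319.GCI.K5C12
import Pool.Agent.W319.GCI.K5C13
import Pool.Agent.W319.GCI.K5C14
import Pool.Agent.W319.GCI.K5C15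
import Pool.Agent.W319.GCI.K5C16
import Pool.Agent.W319.GCI.K5C17
import Pool.Agent.W319.GCI.K5C18
import Pool.Agent.W319.GCI.K5C19
import Pool.Agent.W319.GCI.K5C20
import Pool.Agent.W319.GCI.K5C21
import Pool.Agent.W319.GCI.K5C22
import Pool.Agent.W319.GCI.K5C23
import Pool.Agent.W319.GCI.K5C24
import Pool.Agent.W319.GCI.K5C25
import Pool.Agent.W319.GCI.K5C26
import Pool.Agent.W319.GCI.K5C27
import Pool.Agent.W319.GCI.K5C28
import Pool.Agent.W319.GCI.K5C29
import Pool.Agent.W319.GCI.K5C30
import Pool.Agent.W319.GCI.K5C31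
import Pool.Agent.W319.GCI.K5C32
import Pool.Agent.W319.GCI.K5C33
import Pool.Agent.W319.GCI.K5C34
import Pool.Agent.W319.GCI.K5C35
import Pool.Agent.W319.GCI.K5C36
import Pool.Agent.W319.GCI.K5C37
import Pool.Agent.W319.GCI.K5C38
import Pool.Agent.W319.GCI.K5C39
import Pool.Agent.W319.GCI.K5C40
import Pool.Agent.W319.GCI.K5C41
import Pool.Agent.W319.GCI.K5C42
import Pool.Agent.W319.GCI.K5C43
import Pool.Agent.W319.GCI.K5C44
import Pool.Agent.W319.GCI.K5C45
import Pool.Agent.W319.GCI.K5C46
import Pool.Agent.W319.GCI.K5C47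
import Pool.Agent.W319.GCI.K5C48
import Pool.Agent.W319.GCI.K5C49
import Pool.Agent.W319.GCI.K5C50
set_option autoImplicit false
set_option maxRecDepth 100000
set_option linter.all false
namespace Pool.Agent.W319.GCI.K5
open Pool.Agent.W319.GCI

theorem L0 : LFK l0 := fun D T h => lf_of_chk h mem_nil cl0
theorem W0 : WFK w0 := fun D T h => wf_of_chk h mem_nil (mem_cons (L0 D T h) mem_nil) cw0
theorem L1 : LFK l1 := fun D T h => lf_of_chk h mem_nil cl1
theorem W1 : WFK w1 := fun D T h => wf_of_chk h mem_nil (mem_cons (L1 D T h) mem_nil) cw1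
theorem L2 : LFK l2 := fun D T h => lf_of_chk h (mem_cons (W0 D T h) (mem_cons (W1 D T h) mem_nil)) cl2
theorem W2 : WFK w2 := fun D T h => wf_of_chk h mem_nil (mem_cons (L2 D T h) mem_nil) cw2
theorem L3 : LFK l3 := fun D T h => lf_of_chk h mem_nil cl3
theorem W3 : WFK w3 := fun D T h => wf_of_chk h mem_nil (mem_cons (L3 D T h) mem_nil) cw3
theorem W4 : WFK w4 := fun D T h => wf_of_chk h mem_nil mem_nil cw4
theorem L4 : LFK l4 := fun D T h => lf_of_chk h mem_nil cl4
theorem W5 : WFK w5 := fun D T h => wf_of_chk h mem_nil (mem_cons (L4 D T h) mem_nil) cw5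
theorem W6 : WFK w6 := fun D T h => wf_of_chk h mem_nil mem_nil cw6
theorem W7 : WFK w7 := fun D T h => wf_of_chk h mem_nil mem_nil cw7
theorem W8 : WFK w8 := fun D T h => wf_of_chk h mem_nil mem_nil cw8
theorem W9 : WFK w9 := fun D T h => wf_of_chk h mem_nil mem_nil cw9
theorem L5 : LFK l5 := fun D T h => lf_of_chk h (mem_cons (W4 D T h) (mem_cons (W5 D T h) (mem_cons (W6 D T h) (mem_cons (W7 D T h) (mem_cons (W8 D T h) (mem_cons (W9 D T h) mem_nil)))))) cl5
theorem W10 : WFK w10 := fun D T h => wf_of_chk h mem_nil (mem_cons (L5 D T h) mem_nil) cw10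
theorem W11 : WFK w11 := fun D T h => wf_of_chk h mem_nil (mem_cons (L3 D T h) mem_nil) cw11
theorem W12 : WFK w12 := fun D T h => wf_of_chk h mem_nil (mem_cons (L3 D T h) mem_nil) cw12
theorem W13 : WFK w13 := fun D T h => wf_of_chk h mem_nil (mem_cons (L3 D T h) mem_nil) cw13
theorem L6 : LFK l6 := fun D T h => lf_of_chk h (mem_cons (W3 D T h) (mem_cons (W10 D T h) (mem_cons (W11 D T h) (mem_cons (W12 D T h) (mem_cons (W13 D T h) mem_nil))))) cl6
theorem W14 : WFK w14 := fun D T h => wf_of_chk h mem_nil (mem_cons (L6 D T h) mem_nil) cw14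
theorem W15 : WFK w15 := fun D T h => wf_of_chk h mem_nil (mem_cons (L0 D T h) mem_nil) cw15
theorem L7 : LFK l7 := fun D T h => lf_of_chk h (mem_cons (W15 D T h) (mem_cons (W1 D T h) mem_nil)) cl7
theorem W16 : WFK w16 := fun D T h => wf_of_chk h mem_nil (mem_cons (L7 D T h) mem_nil) cw16
theorem L8 : LFK l8 := fun D T h => lf_of_chk h mem_nil cl8
theorem W17 : WFK w17 := fun D T h => wf_of_chk h mem_nil (mem_cons (L8 D T h) mem_nil) cw17
theorem W18 : WFK w18 := fun D T h => wf_of_chk h mem_nil mem_nil cw18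
theorem W19 : WFK w19 := fun D T h => wf_of_chk h mem_nil mem_nil cw19
theorem L9 : LFK l9 := fun D T h => lf_of_chk h (mem_cons (W6 D T h) (mem_cons (W5 D T h) (mem_cons (W18 D T h) (mem_cons (W8 D T h) (mem_cons (W19 D T h) mem_nil))))) cl9
theorem W20 : WFK w20 := fun D T h => wf_of_chk h mem_nil (mem_cons (L9 D T h) mem_nil) cw20
theorem W21 : WFK w21 := fun D T h => wf_of_chk h mem_nil mem_nil cw21
theorem L10 : LFK l10 := fun D T h => lf_of_chk h (mem_cons (W7 D T h) (mem_cons (W5 D T h) (mem_cons (W18 D T h) (mem_cons (W8 D T h) (mem_cons (W21 D T h) mem_nil))))) cl10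
theorem W22 : WFK w22 := fun D T h => wf_of_chk h mem_nil (mem_cons (L10 D T h) mem_nil) cw22
theorem L11 : LFK l11 := fun D T h => lf_of_chk h (mem_cons (W3 D T h) (mem_cons (W20 D T h) (mem_cons (W22 D T h) (mem_cons (W11 D T h) (mem_cons (W12 D T h) (mem_cons (W13 D T h) mem_nil)))))) cl11
theorem W23 : WFK w23 := fun D T h => wf_of_chk h mem_nil (mem_cons (L11 D T h) mem_nil) cw23
theorem W24 : WFK w24 := fun D T h => wf_of_chk h mem_nil (mem_cons (L7 D T h) mem_nil) cw24
theorem W25 : WFK w25 := fun D T h => wf_of_chk h mem_nil mem_nil cw25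
theorem L12 : LFK l12 := fun D T h => lf_of_chk h (mem_cons (W25 D T h) mem_nil) cl12
theorem W26 : WFK w26 := fun D T h => wf_of_chk h mem_nil (mem_cons (L12 D T h) mem_nil) cw26
theorem L13 : LFK l13 := fun D T h => lf_of_chk h (mem_cons (W25 D T h) mem_nil) cl13
theorem W27 : WFK w27 := fun D T h => wf_of_chk h mem_nil (mem_cons (L13 D T h) mem_nil) cw27
theorem W28 : WFK w28 := fun D T h => wf_of_chk h mem_nil (mem_cons (L4 D T h) mem_nil) cw28
theorem W29 : WFK w29 := fun D T h => wf_of_chk h mem_nil (mem_cons (L4 D T h) mem_nil) cw29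
theorem W30 : WFK w30 := fun D T h => wf_of_chk h mem_nil (mem_cons (L4 D T h) mem_nil) cw30
theorem W31 : WFK w31 := fun D T h => wf_of_chk h mem_nil (mem_cons (L4 D T h) mem_nil) cw31
theorem L14 : LFK l14 := fun D T h => lf_of_chk h (mem_cons (W5 D T h) (mem_cons (W26 D T h) (mem_cons (W27 D T h) (mem_cons (W28 D T h) (mem_cons (W29 D T h) (mem_cons (W30 D T h) (mem_cons (W31 D T h) mem_nil))))))) cl14
theorem W32 : WFK w32 := fun D T h => wf_of_chk h mem_nil (mem_cons (L14 D T h) mem_nil) cw32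
theorem W33 : WFK w33 := fun D T h => wf_of_chk h mem_nil mem_nil cw33
theorem L15 : LFK l15 := fun D T h => lf_of_chk h (mem_cons (W10 D T h) (mem_cons (W32 D T h) (mem_cons (W20 D T h) (mem_cons (W22 D T h) (mem_cons (W4 D T h) (mem_cons (W33 D T h) mem_nil)))))) cl15
theorem W34 : WFK w34 := fun D T h => wf_of_chk h mem_nil (mem_cons (L15 D T h) mem_nil) cw34
theorem W35 : WFK w35 := fun D T h => wf_of_chk h mem_nil (mem_cons (L6 D T h) mem_nil) cw35
theorem W36 : WFK w36 := fun D T h => wf_of_chk h mem_nil (mem_cons (L6 D T h) mem_nil) cw36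
theorem L16 : LFK l16 := fun D T h => lf_of_chk h (mem_cons (W14 D T h) (mem_cons (W16 D T h) (mem_cons (W17 D T h) (mem_cons (W23 D T h) (mem_cons (W24 D T h) (mem_cons (W34 D T h) (mem_cons (W3 D T h) (mem_cons (W35 D T h) (mem_cons (W36 D T h) mem_nil))))))))) cl16
theorem W37 : WFK w37 := fun D T h => wf_of_chk h mem_nil (mem_cons (L16 D T h) mem_nil) cw37
theorem L17 : LFK l17 := fun D T h => lf_of_chk h mem_nil cl17
theorem W38 : WFK w38 := fun D T h => wf_of_chk h mem_nil (mem_cons (L17 D T h) mem_nil) cw38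
theorem W39 : WFK w39 := fun D T h => wf_of_chk h mem_nil (mem_cons (L8 D T h) mem_nil) cw39
theorem L18 : LFK l18 := fun D T h => lf_of_chk h mem_nil cl18
theorem W40 : WFK w40 := fun D T h => wf_of_chk h mem_nil (mem_cons (L18 D T h) mem_nil) cw40
theorem L19 : LFK l19 := fun D T h => lf_of_chk h mem_nil cl19
theorem W41 : WFK w41 := fun D T h => wf_of_chk h mem_nil (mem_cons (L19 D T h) mem_nil) cw41
theorem W42 : WFK w42 := fun D T h => wf_of_chk h mem_nil (mem_cons (L0 D T h) mem_nil) cw42
theorem W43 : WFK w43 := fun D T h => wf_of_chk h mem_nil (mem_cons (L12 D T h) mem_nil) cw43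
theorem W44 : WFK w44 := fun D T h => wf_of_chk h mem_nil (mem_cons (L17 D T h) mem_nil) cw44
theorem W45 : WFK w45 := fun D T h => wf_of_chk h mem_nil (mem_cons (L19 D T h) mem_nil) cw45
theorem W46 : WFK w46 := fun D T h => wf_of_chk h mem_nil (mem_cons (L17 D T h) mem_nil) cw46
theorem W47 : WFK w47 := fun D T h => wf_of_chk h mem_nil (mem_cons (L17 D T h) mem_nil) cw47
theorem L20 : LFK l20 := fun D T h => lf_of_chk h (mem_cons (W38 D T h) (mem_cons (W42 D T h) (mem_cons (W16 D T h) (mem_cons (W39 D T h) (mem_cons (W3 D T h) (mem_cons (W15 D T h) (mem_cons (W40 D T h) (mem_cons (W41 D T h) (mem_cons (W43 D T h) (mem_cons (W29 D T h) (mem_cons (W44 D T h) (mem_cons (W45 D T h) (mem_cons (W46 D T h) (mem_cons (W47 D T h) mem_nil)))))))))))))) cl20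
theorem W48 : WFK w48 := fun D T h => wf_of_chk h mem_nil (mem_cons (L20 D T h) mem_nil) cw48
theorem W49 : WFK w49 := fun D T h => wf_of_chk h mem_nil (mem_cons (L14 D T h) mem_nil) cw49
theorem W50 : WFK w50 := fun D T h => wf_of_chk h mem_nil (mem_cons (L7 D T h) mem_nil) cw50
theorem L21 : LFK l21 := fun D T h => lf_of_chk h (mem_cons (W50 D T h) mem_nil) cl21
theorem W51 : WFK w51 := fun D T h => wf_of_chk h mem_nil (mem_cons (L21 D T h) mem_nil) cw51
theorem W52 : WFK w52 := fun D T h => wf_of_chk h mem_nil (mem_cons (L4 D T h) mem_nil) cw52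
theorem W53 : WFK w53 := fun D T h => wf_of_chk h mem_nil mem_nil cw53
theorem W54 : WFK w54 := fun D T h => wf_of_chk h mem_nil (mem_cons (L18 D T h) mem_nil) cw54
theorem W55 : WFK w55 := fun D T h => wf_of_chk h mem_nil (mem_cons (L19 D T h) mem_nil) cw55
theorem W56 : WFK w56 := fun D T h => wf_of_chk h mem_nil (mem_cons (L11 D T h) mem_nil) cw56
theorem W57 : WFK w57 := fun D T h => wf_of_chk h mem_nil (mem_cons (L19 D T h) mem_nil) cw57
theorem W58 : WFK w58 := fun D T h => wf_of_chk h mem_nil (mem_cons (L19 D T h) mem_nil) cw58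
theorem W59 : WFK w59 := fun D T h => wf_of_chk h mem_nil (mem_cons (L19 D T h) mem_nil) cw59
theorem L22 : LFK l22 := fun D T h => lf_of_chk h (mem_cons (W47 D T h) (mem_cons (W56 D T h) (mem_cons (W16 D T h) (mem_cons (W52 D T h) (mem_cons (W12 D T h) (mem_cons (W53 D T h) (mem_cons (W54 D T h) (mem_cons (W55 D T h) (mem_cons (W43 D T h) (mem_cons (W29 D T h) (mem_cons (W57 D T h) (mem_cons (W58 D T h) (mem_cons (W59 D T h) mem_nil))))))))))))) cl22
theorem W60 : WFK w60 := fun D T h => wf_of_chk h mem_nil (mem_cons (L22 D T h) mem_nil) cw60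
theorem L23 : LFK l23 := fun D T h => lf_of_chk h (mem_cons (W16 D T h) mem_nil) cl23
theorem W61 : WFK w61 := fun D T h => wf_of_chk h mem_nil (mem_cons (L23 D T h) mem_nil) cw61
theorem L24 : LFK l24 := fun D T h => lf_of_chk h (mem_cons (W42 D T h) mem_nil) cl24
theorem W62 : WFK w62 := fun D T h => wf_of_chk h mem_nil (mem_cons (L24 D T h) mem_nil) cw62
theorem L25 : LFK l25 := fun D T h => lf_of_chk h mem_nil cl25
theorem W63 : WFK w63 := fun D T h => wf_of_chk h mem_nil (mem_cons (L25 D T h) mem_nil) cw63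
theorem W64 : WFK w64 := fun D T h => wf_of_chk h (mem_cons (W16 D T h) (mem_cons (W63 D T h) mem_nil)) mem_nil cw64
theorem W65 : WFK w65 := fun D T h => wf_of_chk h (mem_cons (W63 D T h) mem_nil) mem_nil cw65
theorem W66 : WFK w66 := fun D T h => wf_of_chk h mem_nil mem_nil cw66
theorem L26 : LFK l26 := fun D T h => lf_of_chk h mem_nil cl26
theorem W67 : WFK w67 := fun D T h => wf_of_chk h mem_nil (mem_cons (L26 D T h) mem_nil) cw67
theorem L27 : LFK l27 := fun D T h => lf_of_chk h (mem_cons (W67 D T h) mem_nil) cl27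
theorem W68 : WFK w68 := fun D T h => wf_of_chk h mem_nil (mem_cons (L27 D T h) mem_nil) cw68
theorem W69 : WFK w69 := fun D T h => wf_of_chk h mem_nil (mem_cons (L1 D T h) mem_nil) cw69
theorem W70 : WFK w70 := fun D T h => wf_of_chk h mem_nil (mem_cons (L5 D T h) mem_nil) cw70
theorem L28 : LFK l28 := fun D T h => lf_of_chk h mem_nil cl28
theorem W71 : WFK w71 := fun D T h => wf_of_chk h mem_nil (mem_cons (L28 D T h) mem_nil) cw71
theorem W72 : WFK w72 := fun D T h => wf_of_chk h (mem_cons (W71 D T h) mem_nil) mem_nil cw72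
theorem W73 : WFK w73 := fun D T h => wf_of_chk h (mem_cons (W71 D T h) mem_nil) mem_nil cw73
theorem W74 : WFK w74 := fun D T h => wf_of_chk h (mem_cons (W71 D T h) mem_nil) mem_nil cw74
theorem W75 : WFK w75 := fun D T h => wf_of_chk h mem_nil mem_nil cw75
theorem W76 : WFK w76 := fun D T h => wf_of_chk h (mem_cons (W75 D T h) mem_nil) mem_nil cw76
theorem W77 : WFK w77 := fun D T h => wf_of_chk h (mem_cons (W33 D T h) mem_nil) mem_nil cw77
theorem W78 : WFK w78 := fun D T h => wf_of_chk h mem_nil mem_nil cw78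
theorem W79 : WFK w79 := fun D T h => wf_of_chk h (mem_cons (W78 D T h) mem_nil) mem_nil cw79
theorem L29 : LFK l29 := fun D T h => lf_of_chk h mem_nil cl29
theorem W80 : WFK w80 := fun D T h => wf_of_chk h mem_nil (mem_cons (L29 D T h) mem_nil) cw80
theorem W81 : WFK w81 := fun D T h => wf_of_chk h (mem_cons (W80 D T h) mem_nil) mem_nil cw81
theorem W82 : WFK w82 := fun D T h => wf_of_chk h (mem_cons (W78 D T h) mem_nil) mem_nil cw82
theorem W83 : WFK w83 := fun D T h => wf_of_chk h mem_nil (mem_cons (L5 D T h) mem_nil) cw83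
theorem W84 : WFK w84 := fun D T h => wf_of_chk h (mem_cons (W1 D T h) mem_nil) mem_nil cw84
theorem W85 : WFK w85 := fun D T h => wf_of_chk h mem_nil mem_nil cw85
theorem W86 : WFK w86 := fun D T h => wf_of_chk h mem_nil mem_nil cw86
theorem W87 : WFK w87 := fun D T h => wf_of_chk h mem_nil mem_nil cw87
theorem W88 : WFK w88 := fun D T h => wf_of_chk h mem_nil mem_nil cw88
theorem W89 : WFK w89 := fun D T h => wf_of_chk h (mem_cons (W75 D T h) mem_nil) mem_nil cw89
theorem W90 : WFK w90 := fun D T h => wf_of_chk h (mem_cons (W4 D T h) mem_nil) mem_nil cw90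
theorem W91 : WFK w91 := fun D T h => wf_of_chk h mem_nil (mem_cons (L29 D T h) mem_nil) cw91
theorem W92 : WFK w92 := fun D T h => wf_of_chk h (mem_cons (W91 D T h) mem_nil) mem_nil cw92
theorem L30 : LFK l30 := fun D T h => lf_of_chk h (mem_cons (W84 D T h) (mem_cons (W69 D T h) (mem_cons (W85 D T h) (mem_cons (W86 D T h) (mem_cons (W87 D T h) (mem_cons (W88 D T h) (mem_cons (W89 D T h) (mem_cons (W90 D T h) (mem_cons (W92 D T h) mem_nil))))))))) cl30
theorem W93 : WFK w93 := fun D T h => wf_of_chk h mem_nil (mem_cons (L30 D T h) mem_nil) cw93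
theorem W94 : WFK w94 := fun D T h => wf_of_chk h (mem_cons (W69 D T h) mem_nil) mem_nil cw94
theorem W95 : WFK w95 := fun D T h => wf_of_chk h (mem_cons (W69 D T h) mem_nil) mem_nil cw95
theorem W96 : WFK w96 := fun D T h => wf_of_chk h mem_nil (mem_cons (L4 D T h) mem_nil) cw96
theorem W97 : WFK w97 := fun D T h => wf_of_chk h (mem_cons (W96 D T h) (mem_cons (W1 D T h) mem_nil)) mem_nil cw97
theorem W98 : WFK w98 := fun D T h => wf_of_chk h (mem_cons (W69 D T h) mem_nil) mem_nil cw98
theorem W99 : WFK w99 := fun D T h => wf_of_chk h (mem_cons (W96 D T h) (mem_cons (W1 D T h) mem_nil)) mem_nil cw99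
theorem L31 : LFK l31 := fun D T h => lf_of_chk h (mem_cons (W65 D T h) (mem_cons (W83 D T h) (mem_cons (W93 D T h) (mem_cons (W1 D T h) (mem_cons (W69 D T h) (mem_cons (W63 D T h) (mem_cons (W66 D T h) (mem_cons (W68 D T h) (mem_cons (W70 D T h) (mem_cons (W72 D T h) (mem_cons (W73 D T h) (mem_cons (W74 D T h) (mem_cons (W76 D T h) (mem_cons (W77 D T h) (mem_cons (W79 D T h) (mem_cons (W81 D T h) (mem_cons (W82 D T h) (mem_cons (W94 D T h) (mem_cons (W95 D T h) (mem_cons (W47 D T h) (mem_cons (W97 D T h) (mem_cons (W98 D T h) (mem_cons (W99 D T h) mem_nil))))))))))))))))))))))) cl31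
theorem W100 : WFK w100 := fun D T h => wf_of_chk h mem_nil (mem_cons (L31 D T h) mem_nil) cw100
theorem W101 : WFK w101 := fun D T h => wf_of_chk h (mem_cons (W69 D T h) mem_nil) mem_nil cw101
theorem W102 : WFK w102 := fun D T h => wf_of_chk h (mem_cons (W71 D T h) mem_nil) mem_nil cw102
theorem W103 : WFK w103 := fun D T h => wf_of_chk h mem_nil mem_nil cw103
theorem W104 : WFK w104 := fun D T h => wf_of_chk h (mem_cons (W103 D T h) mem_nil) mem_nil cw104
theorem L32 : LFK l32 := fun D T h => lf_of_chk h mem_nil cl32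
theorem W105 : WFK w105 := fun D T h => wf_of_chk h mem_nil (mem_cons (L32 D T h) mem_nil) cw105
theorem W106 : WFK w106 := fun D T h => wf_of_chk h (mem_cons (W105 D T h) mem_nil) mem_nil cw106
theorem W107 : WFK w107 := fun D T h => wf_of_chk h (mem_cons (W33 D T h) mem_nil) mem_nil cw107
theorem W108 : WFK w108 := fun D T h => wf_of_chk h (mem_cons (W80 D T h) mem_nil) mem_nil cw108
theorem L33 : LFK l33 := fun D T h => lf_of_chk h (mem_cons (W4 D T h) (mem_cons (W5 D T h) (mem_cons (W7 D T h) (mem_cons (W9 D T h) (mem_cons (W8 D T h) (mem_cons (W6 D T h) mem_nil)))))) cl33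
theorem W109 : WFK w109 := fun D T h => wf_of_chk h mem_nil (mem_cons (L33 D T h) mem_nil) cw109
theorem W110 : WFK w110 := fun D T h => wf_of_chk h (mem_cons (W109 D T h) (mem_cons (W32 D T h) mem_nil)) mem_nil cw110
theorem W111 : WFK w111 := fun D T h => wf_of_chk h mem_nil (mem_cons (L15 D T h) mem_nil) cw111
theorem W112 : WFK w112 := fun D T h => wf_of_chk h mem_nil (mem_cons (L1 D T h) mem_nil) cw112
theorem W113 : WFK w113 := fun D T h => wf_of_chk h (mem_cons (W112 D T h) mem_nil) mem_nil cw113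
theorem W114 : WFK w114 := fun D T h => wf_of_chk h mem_nil (mem_cons (L23 D T h) mem_nil) cw114
theorem W115 : WFK w115 := fun D T h => wf_of_chk h mem_nil (mem_cons (L23 D T h) mem_nil) cw115
theorem W116 : WFK w116 := fun D T h => wf_of_chk h mem_nil (mem_cons (L23 D T h) mem_nil) cw116
theorem W117 : WFK w117 := fun D T h => wf_of_chk h (mem_cons (W69 D T h) mem_nil) mem_nil cw117
theorem W118 : WFK w118 := fun D T h => wf_of_chk h (mem_cons (W69 D T h) mem_nil) mem_nil cw118
theorem W119 : WFK w119 := fun D T h => wf_of_chk h mem_nil (mem_cons (L30 D T h) mem_nil) cw119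
theorem W120 : WFK w120 := fun D T h => wf_of_chk h (mem_cons (W69 D T h) mem_nil) mem_nil cw120
theorem L34 : LFK l34 := fun D T h => lf_of_chk h (mem_cons (W101 D T h) (mem_cons (W93 D T h) (mem_cons (W32 D T h) (mem_cons (W63 D T h) (mem_cons (W66 D T h) (mem_cons (W110 D T h) (mem_cons (W111 D T h) (mem_cons (W113 D T h) (mem_cons (W114 D T h) (mem_cons (W115 D T h) (mem_cons (W116 D T h) (mem_cons (W91 D T h) (mem_cons (W80 D T h) (mem_cons (W102 D T h) (mem_cons (W104 D T h) (mem_cons (W106 D T h) (mem_cons (W107 D T h) (mem_cons (W108 D T h) (mem_cons (W117 D T h) (mem_cons (W118 D T h) (mem_cons (W47 D T h) (mem_cons (W119 D T h) (mem_cons (W120 D T h) mem_nil))))))))))))))))))))))) cl34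
theorem W121 : WFK w121 := fun D T h => wf_of_chk h mem_nil (mem_cons (L34 D T h) mem_nil) cw121
theorem W122 : WFK w122 := fun D T h => wf_of_chk h mem_nil (mem_cons (L13 D T h) mem_nil) cw122
theorem W123 : WFK w123 := fun D T h => wf_of_chk h mem_nil (mem_cons (L14 D T h) mem_nil) cw123
theorem L35 : LFK l35 := fun D T h => lf_of_chk h (mem_cons (W8 D T h) (mem_cons (W5 D T h) (mem_cons (W122 D T h) (mem_cons (W123 D T h) (mem_cons (W6 D T h) mem_nil))))) cl35
theorem W124 : WFK w124 := fun D T h => wf_of_chk h mem_nil (mem_cons (L35 D T h) mem_nil) cw124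
theorem L36 : LFK l36 := fun D T h => lf_of_chk h (mem_cons (W7 D T h) (mem_cons (W5 D T h) (mem_cons (W122 D T h) (mem_cons (W21 D T h) (mem_cons (W6 D T h) mem_nil))))) cl36
theorem W125 : WFK w125 := fun D T h => wf_of_chk h mem_nil (mem_cons (L36 D T h) mem_nil) cw125
theorem L37 : LFK l37 := fun D T h => lf_of_chk h (mem_cons (W109 D T h) (mem_cons (W32 D T h) (mem_cons (W4 D T h) (mem_cons (W125 D T h) (mem_cons (W33 D T h) (mem_cons (W124 D T h) mem_nil)))))) cl37
theorem W126 : WFK w126 := fun D T h => wf_of_chk h mem_nil (mem_cons (L37 D T h) mem_nil) cw126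
theorem W127 : WFK w127 := fun D T h => wf_of_chk h (mem_cons (W126 D T h) mem_nil) mem_nil cw127
theorem W128 : WFK w128 := fun D T h => wf_of_chk h mem_nil (mem_cons (L7 D T h) mem_nil) cw128
theorem W129 : WFK w129 := fun D T h => wf_of_chk h mem_nil (mem_cons (L31 D T h) mem_nil) cw129
theorem W130 : WFK w130 := fun D T h => wf_of_chk h mem_nil (mem_cons (L31 D T h) mem_nil) cw130
theorem W131 : WFK w131 := fun D T h => wf_of_chk h mem_nil (mem_cons (L31 D T h) mem_nil) cw131
theorem W132 : WFK w132 := fun D T h => wf_of_chk h mem_nil (mem_cons (L31 D T h) mem_nil) cw132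
theorem W133 : WFK w133 := fun D T h => wf_of_chk h (mem_cons (W71 D T h) (mem_cons (W16 D T h) mem_nil)) mem_nil cw133
theorem W134 : WFK w134 := fun D T h => wf_of_chk h (mem_cons (W85 D T h) (mem_cons (W16 D T h) mem_nil)) mem_nil cw134
theorem W135 : WFK w135 := fun D T h => wf_of_chk h mem_nil mem_nil cw135
theorem W136 : WFK w136 := fun D T h => wf_of_chk h mem_nil mem_nil cw136
theorem W137 : WFK w137 := fun D T h => wf_of_chk h mem_nil (mem_cons (L17 D T h) mem_nil) cw137
theorem W138 : WFK w138 := fun D T h => wf_of_chk h mem_nil mem_nil cw138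
theorem L38 : LFK l38 := fun D T h => lf_of_chk h (mem_cons (W86 D T h) (mem_cons (W1 D T h) (mem_cons (W69 D T h) (mem_cons (W67 D T h) (mem_cons (W71 D T h) (mem_cons (W135 D T h) (mem_cons (W136 D T h) (mem_cons (W138 D T h) mem_nil)))))))) cl38
theorem W139 : WFK w139 := fun D T h => wf_of_chk h mem_nil (mem_cons (L38 D T h) mem_nil) cw139
theorem W140 : WFK w140 := fun D T h => wf_of_chk h mem_nil (mem_cons (L0 D T h) mem_nil) cw140
theorem W141 : WFK w141 := fun D T h => wf_of_chk h mem_nil (mem_cons (L0 D T h) mem_nil) cw141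
theorem W142 : WFK w142 := fun D T h => wf_of_chk h mem_nil mem_nil cw142
theorem W143 : WFK w143 := fun D T h => wf_of_chk h mem_nil (mem_cons (L28 D T h) mem_nil) cw143
theorem L39 : LFK l39 := fun D T h => lf_of_chk h (mem_cons (W86 D T h) (mem_cons (W1 D T h) (mem_cons (W69 D T h) (mem_cons (W33 D T h) (mem_cons (W78 D T h) (mem_cons (W142 D T h) (mem_cons (W67 D T h) (mem_cons (W143 D T h) mem_nil)))))))) cl39
theorem W144 : WFK w144 := fun D T h => wf_of_chk h mem_nil (mem_cons (L39 D T h) mem_nil) cw144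
theorem W145 : WFK w145 := fun D T h => wf_of_chk h (mem_cons (W144 D T h) mem_nil) mem_nil cw145
theorem W146 : WFK w146 := fun D T h => wf_of_chk h (mem_cons (W40 D T h) (mem_cons (W16 D T h) mem_nil)) mem_nil cw146
theorem W147 : WFK w147 := fun D T h => wf_of_chk h (mem_cons (W63 D T h) mem_nil) mem_nil cw147
theorem L40 : LFK l40 := fun D T h => lf_of_chk h mem_nil cl40
theorem W148 : WFK w148 := fun D T h => wf_of_chk h mem_nil (mem_cons (L40 D T h) mem_nil) cw148
theorem L41 : LFK l41 := fun D T h => lf_of_chk h mem_nil cl41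
theorem W149 : WFK w149 := fun D T h => wf_of_chk h mem_nil (mem_cons (L41 D T h) mem_nil) cw149
theorem L42 : LFK l42 := fun D T h => lf_of_chk h mem_nil cl42
theorem W150 : WFK w150 := fun D T h => wf_of_chk h mem_nil (mem_cons (L42 D T h) mem_nil) cw150
theorem W151 : WFK w151 := fun D T h => wf_of_chk h mem_nil (mem_cons (L1 D T h) mem_nil) cw151
theorem W152 : WFK w152 := fun D T h => wf_of_chk h mem_nil (mem_cons (L0 D T h) mem_nil) cw152
theorem W153 : WFK w153 := fun D T h => wf_of_chk h mem_nil (mem_cons (L0 D T h) mem_nil) cw153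
theorem W154 : WFK w154 := fun D T h => wf_of_chk h mem_nil (mem_cons (L0 D T h) mem_nil) cw154
theorem L43 : LFK l43 := fun D T h => lf_of_chk h (mem_cons (W15 D T h) (mem_cons (W1 D T h) (mem_cons (W33 D T h) (mem_cons (W148 D T h) (mem_cons (W149 D T h) (mem_cons (W150 D T h) (mem_cons (W151 D T h) (mem_cons (W152 D T h) (mem_cons (W153 D T h) (mem_cons (W154 D T h) mem_nil)))))))))) cl43
theorem W155 : WFK w155 := fun D T h => wf_of_chk h mem_nil (mem_cons (L43 D T h) mem_nil) cw155
theorem W156 : WFK w156 := fun D T h => wf_of_chk h (mem_cons (W155 D T h) mem_nil) mem_nil cw156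
theorem W157 : WFK w157 := fun D T h => wf_of_chk h (mem_cons (W34 D T h) (mem_cons (W32 D T h) mem_nil)) mem_nil cw157
theorem W158 : WFK w158 := fun D T h => wf_of_chk h mem_nil (mem_cons (L32 D T h) mem_nil) cw158
theorem L44 : LFK l44 := fun D T h => lf_of_chk h mem_nil cl44
theorem W159 : WFK w159 := fun D T h => wf_of_chk h mem_nil (mem_cons (L44 D T h) mem_nil) cw159
theorem W160 : WFK w160 := fun D T h => wf_of_chk h mem_nil (mem_cons (L40 D T h) mem_nil) cw160
theorem W161 : WFK w161 := fun D T h => wf_of_chk h mem_nil (mem_cons (L1 D T h) mem_nil) cw161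
theorem L45 : LFK l45 := fun D T h => lf_of_chk h (mem_cons (W154 D T h) (mem_cons (W1 D T h) (mem_cons (W15 D T h) (mem_cons (W158 D T h) (mem_cons (W159 D T h) (mem_cons (W149 D T h) (mem_cons (W160 D T h) (mem_cons (W161 D T h) mem_nil)))))))) cl45
theorem W162 : WFK w162 := fun D T h => wf_of_chk h mem_nil (mem_cons (L45 D T h) mem_nil) cw162
theorem W163 : WFK w163 := fun D T h => wf_of_chk h (mem_cons (W162 D T h) (mem_cons (W63 D T h) mem_nil)) mem_nil cw163
theorem W164 : WFK w164 := fun D T h => wf_of_chk h mem_nil (mem_cons (L23 D T h) mem_nil) cw164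
theorem W165 : WFK w165 := fun D T h => wf_of_chk h (mem_cons (W164 D T h) (mem_cons (W63 D T h) mem_nil)) mem_nil cw165
theorem W166 : WFK w166 := fun D T h => wf_of_chk h (mem_cons (W42 D T h) (mem_cons (W63 D T h) mem_nil)) mem_nil cw166
theorem W167 : WFK w167 := fun D T h => wf_of_chk h mem_nil (mem_cons (L45 D T h) mem_nil) cw167
theorem W168 : WFK w168 := fun D T h => wf_of_chk h mem_nil (mem_cons (L1 D T h) mem_nil) cw168
theorem W169 : WFK w169 := fun D T h => wf_of_chk h mem_nil (mem_cons (L5 D T h) mem_nil) cw169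
theorem W170 : WFK w170 := fun D T h => wf_of_chk h mem_nil (mem_cons (L7 D T h) mem_nil) cw170
theorem W171 : WFK w171 := fun D T h => wf_of_chk h mem_nil (mem_cons (L5 D T h) mem_nil) cw171
theorem L46 : LFK l46 := fun D T h => lf_of_chk h mem_nil cl46
theorem W172 : WFK w172 := fun D T h => wf_of_chk h mem_nil (mem_cons (L46 D T h) mem_nil) cw172
theorem W173 : WFK w173 := fun D T h => wf_of_chk h mem_nil (mem_cons (L1 D T h) mem_nil) cw173
theorem W174 : WFK w174 := fun D T h => wf_of_chk h mem_nil (mem_cons (L23 D T h) mem_nil) cw174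
theorem L47 : LFK l47 := fun D T h => lf_of_chk h (mem_cons (W168 D T h) (mem_cons (W38 D T h) (mem_cons (W174 D T h) (mem_cons (W10 D T h) (mem_cons (W39 D T h) (mem_cons (W173 D T h) (mem_cons (W3 D T h) (mem_cons (W124 D T h) (mem_cons (W4 D T h) (mem_cons (W169 D T h) (mem_cons (W170 D T h) (mem_cons (W171 D T h) (mem_cons (W172 D T h) mem_nil))))))))))))) cl47
theorem W175 : WFK w175 := fun D T h => wf_of_chk h mem_nil (mem_cons (L47 D T h) mem_nil) cw175
theorem W176 : WFK w176 := fun D T h => wf_of_chk h (mem_cons (W175 D T h) (mem_cons (W16 D T h) mem_nil)) mem_nil cw176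
theorem W177 : WFK w177 := fun D T h => wf_of_chk h mem_nil (mem_cons (L23 D T h) mem_nil) cw177
theorem W178 : WFK w178 := fun D T h => wf_of_chk h (mem_cons (W16 D T h) mem_nil) mem_nil cw178
theorem W179 : WFK w179 := fun D T h => wf_of_chk h (mem_cons (W16 D T h) mem_nil) mem_nil cw179
theorem W180 : WFK w180 := fun D T h => wf_of_chk h mem_nil (mem_cons (L5 D T h) mem_nil) cw180
theorem L48 : LFK l48 := fun D T h => lf_of_chk h (mem_cons (W67 D T h) (mem_cons (W32 D T h) (mem_cons (W11 D T h) (mem_cons (W13 D T h) (mem_cons (W12 D T h) mem_nil))))) cl48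
theorem W181 : WFK w181 := fun D T h => wf_of_chk h mem_nil (mem_cons (L48 D T h) mem_nil) cw181
theorem W182 : WFK w182 := fun D T h => wf_of_chk h (mem_cons (W181 D T h) (mem_cons (W177 D T h) mem_nil)) mem_nil cw182
theorem W183 : WFK w183 := fun D T h => wf_of_chk h (mem_cons (W16 D T h) mem_nil) mem_nil cw183
theorem W184 : WFK w184 := fun D T h => wf_of_chk h (mem_cons (W69 D T h) (mem_cons (W16 D T h) mem_nil)) mem_nil cw184
theorem W185 : WFK w185 := fun D T h => wf_of_chk h (mem_cons (W1 D T h) (mem_cons (W16 D T h) mem_nil)) mem_nil cw185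
theorem W186 : WFK w186 := fun D T h => wf_of_chk h (mem_cons (W69 D T h) (mem_cons (W16 D T h) mem_nil)) mem_nil cw186
theorem W187 : WFK w187 := fun D T h => wf_of_chk h mem_nil (mem_cons (L10 D T h) mem_nil) cw187
theorem W188 : WFK w188 := fun D T h => wf_of_chk h mem_nil (mem_cons (L9 D T h) mem_nil) cw188
theorem W189 : WFK w189 := fun D T h => wf_of_chk h mem_nil (mem_cons (L5 D T h) mem_nil) cw189
theorem W190 : WFK w190 := fun D T h => wf_of_chk h mem_nil (mem_cons (L12 D T h) mem_nil) cw190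
theorem L49 : LFK l49 := fun D T h => lf_of_chk h (mem_cons (W7 D T h) (mem_cons (W5 D T h) (mem_cons (W21 D T h) (mem_cons (W8 D T h) (mem_cons (W18 D T h) (mem_cons (W190 D T h) mem_nil)))))) cl49
theorem W191 : WFK w191 := fun D T h => wf_of_chk h mem_nil (mem_cons (L49 D T h) mem_nil) cw191
theorem W192 : WFK w192 := fun D T h => wf_of_chk h mem_nil mem_nil cw192
theorem W193 : WFK w193 := fun D T h => wf_of_chk h mem_nil mem_nil cw193
theorem L50 : LFK l50 := fun D T h => lf_of_chk h (mem_cons (W8 D T h) (mem_cons (W25 D T h) (mem_cons (W193 D T h) (mem_cons (W192 D T h) mem_nil)))) cl50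
theorem W194 : WFK w194 := fun D T h => wf_of_chk h mem_nil (mem_cons (L50 D T h) mem_nil) cw194
theorem L51 : LFK l51 := fun D T h => lf_of_chk h (mem_cons (W10 D T h) (mem_cons (W32 D T h) (mem_cons (W33 D T h) (mem_cons (W4 D T h) (mem_cons (W20 D T h) (mem_cons (W191 D T h) (mem_cons (W194 D T h) (mem_cons (W49 D T h) (mem_cons (W187 D T h) (mem_cons (W188 D T h) (mem_cons (W189 D T h) mem_nil))))))))))) cl51
theorem W195 : WFK w195 := fun D T h => wf_of_chk h mem_nil (mem_cons (L51 D T h) mem_nil) cw195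
theorem W196 : WFK w196 := fun D T h => wf_of_chk h (mem_cons (W195 D T h) (mem_cons (W16 D T h) mem_nil)) mem_nil cw196
theorem L52 : LFK l52 := fun D T h => lf_of_chk h (mem_cons (W192 D T h) (mem_cons (W25 D T h) mem_nil)) cl52
theorem W197 : WFK w197 := fun D T h => wf_of_chk h mem_nil (mem_cons (L52 D T h) mem_nil) cw197
theorem W198 : WFK w198 := fun D T h => wf_of_chk h mem_nil mem_nil cw198
theorem W199 : WFK w199 := fun D T h => wf_of_chk h mem_nil (mem_cons (L8 D T h) mem_nil) cw199
theorem W200 : WFK w200 := fun D T h => wf_of_chk h mem_nil (mem_cons (L8 D T h) mem_nil) cw200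
theorem W201 : WFK w201 := fun D T h => wf_of_chk h mem_nil (mem_cons (L8 D T h) mem_nil) cw201
theorem L53 : LFK l53 := fun D T h => lf_of_chk h mem_nil cl53
theorem W202 : WFK w202 := fun D T h => wf_of_chk h mem_nil (mem_cons (L53 D T h) mem_nil) cw202
theorem W203 : WFK w203 := fun D T h => wf_of_chk h mem_nil (mem_cons (L28 D T h) mem_nil) cw203
theorem L54 : LFK l54 := fun D T h => lf_of_chk h (mem_cons (W17 D T h) (mem_cons (W1 D T h) (mem_cons (W69 D T h) (mem_cons (W202 D T h) (mem_cons (W203 D T h) (mem_cons (W67 D T h) (mem_cons (W86 D T h) (mem_cons (W199 D T h) (mem_cons (W200 D T h) (mem_cons (W201 D T h) mem_nil)))))))))) cl54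
theorem W204 : WFK w204 := fun D T h => wf_of_chk h mem_nil (mem_cons (L54 D T h) mem_nil) cw204
theorem W205 : WFK w205 := fun D T h => wf_of_chk h mem_nil (mem_cons (L54 D T h) mem_nil) cw205
theorem W206 : WFK w206 := fun D T h => wf_of_chk h mem_nil (mem_cons (L54 D T h) mem_nil) cw206
theorem W207 : WFK w207 := fun D T h => wf_of_chk h (mem_cons (W16 D T h) (mem_cons (W69 D T h) mem_nil)) mem_nil cw207
theorem W208 : WFK w208 := fun D T h => wf_of_chk h mem_nil (mem_cons (L54 D T h) mem_nil) cw208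
theorem W209 : WFK w209 := fun D T h => wf_of_chk h mem_nil (mem_cons (L7 D T h) mem_nil) cw209
theorem L55 : LFK l55 := fun D T h => lf_of_chk h mem_nil cl55
theorem W210 : WFK w210 := fun D T h => wf_of_chk h mem_nil (mem_cons (L55 D T h) mem_nil) cw210
theorem L56 : LFK l56 := fun D T h => lf_of_chk h mem_nil cl56
theorem W211 : WFK w211 := fun D T h => wf_of_chk h mem_nil (mem_cons (L56 D T h) mem_nil) cw211
theorem L57 : LFK l57 := fun D T h => lf_of_chk h (mem_cons (W4 D T h) (mem_cons (W210 D T h) (mem_cons (W211 D T h) (mem_cons (W9 D T h) (mem_cons (W7 D T h) (mem_cons (W8 D T h) (mem_cons (W6 D T h) mem_nil))))))) cl57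
theorem W212 : WFK w212 := fun D T h => wf_of_chk h mem_nil (mem_cons (L57 D T h) mem_nil) cw212
theorem W213 : WFK w213 := fun D T h => wf_of_chk h (mem_cons (W212 D T h) (mem_cons (W16 D T h) mem_nil)) mem_nil cw213
theorem W214 : WFK w214 := fun D T h => wf_of_chk h mem_nil (mem_cons (L1 D T h) mem_nil) cw214
theorem W216 : WFK w216 := fun D T h => wf_of_chk h mem_nil mem_nil cw216
theorem L58 : LFK l58 := fun D T h => lf_of_chk h (mem_cons (W211 D T h) (mem_cons (W5 D T h) (mem_cons (W18 D T h) mem_nil))) cl58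
theorem W217 : WFK w217 := fun D T h => wf_of_chk h mem_nil (mem_cons (L58 D T h) mem_nil) cw217
theorem W218 : WFK w218 := fun D T h => wf_of_chk h mem_nil mem_nil cw218
theorem W219 : WFK w219 := fun D T h => wf_of_chk h mem_nil (mem_cons (L7 D T h) mem_nil) cw219
theorem W220 : WFK w220 := fun D T h => wf_of_chk h mem_nil (mem_cons (L0 D T h) mem_nil) cw220
theorem W221 : WFK w221 := fun D T h => wf_of_chk h (mem_cons (W220 D T h) mem_nil) mem_nil cw221
theorem W222 : WFK w222 := fun D T h => wf_of_chk h mem_nil (mem_cons (L50 D T h) mem_nil) cw222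
theorem W223 : WFK w223 := fun D T h => wf_of_chk h mem_nil (mem_cons (L50 D T h) mem_nil) cw223
theorem L59 : LFK l59 := fun D T h => lf_of_chk h (mem_cons (W211 D T h) (mem_cons (W193 D T h) mem_nil)) cl59
theorem W224 : WFK w224 := fun D T h => wf_of_chk h mem_nil (mem_cons (L59 D T h) mem_nil) cw224
theorem W225 : WFK w225 := fun D T h => wf_of_chk h mem_nil mem_nil cw225
theorem W226 : WFK w226 := fun D T h => wf_of_chk h mem_nil (mem_cons (L56 D T h) mem_nil) cw226
theorem L60 : LFK l60 := fun D T h => lf_of_chk h (mem_cons (W193 D T h) (mem_cons (W25 D T h) mem_nil)) cl60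
theorem W227 : WFK w227 := fun D T h => wf_of_chk h mem_nil (mem_cons (L60 D T h) mem_nil) cw227
theorem L61 : LFK l61 := fun D T h => lf_of_chk h (mem_cons (W194 D T h) (mem_cons (W43 D T h) (mem_cons (W224 D T h) (mem_cons (W16 D T h) (mem_cons (W4 D T h) (mem_cons (W33 D T h) (mem_cons (W225 D T h) (mem_cons (W226 D T h) (mem_cons (W227 D T h) (mem_cons (W217 D T h) (mem_cons (W8 D T h) (mem_cons (W218 D T h) (mem_cons (W219 D T h) (mem_cons (W221 D T h) (mem_cons (W222 D T h) (mem_cons (W223 D T h) mem_nil)))))))))))))))) cl61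
theorem W228 : WFK w228 := fun D T h => wf_of_chk h mem_nil (mem_cons (L61 D T h) mem_nil) cw228
theorem W229 : WFK w229 := fun D T h => wf_of_chk h (mem_cons (W10 D T h) (mem_cons (W16 D T h) mem_nil)) mem_nil cw229
theorem W230 : WFK w230 := fun D T h => wf_of_chk h mem_nil (mem_cons (L57 D T h) mem_nil) cw230
theorem W233 : WFK w233 := fun D T h => wf_of_chk h mem_nil mem_nil cw233
theorem W234 : WFK w234 := fun D T h => wf_of_chk h mem_nil mem_nil cw234
theorem W235 : WFK w235 := fun D T h => wf_of_chk h mem_nil mem_nil cw235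
theorem W236 : WFK w236 := fun D T h => wf_of_chk h mem_nil mem_nil cw236
theorem W239 : WFK w239 := fun D T h => wf_of_chk h mem_nil (mem_cons (L55 D T h) mem_nil) cw239
theorem W241 : WFK w241 := fun D T h => wf_of_chk h mem_nil (mem_cons (L5 D T h) mem_nil) cw241
theorem W243 : WFK w243 := fun D T h => wf_of_chk h mem_nil mem_nil cw243
theorem W245 : WFK w245 := fun D T h => wf_of_chk h mem_nil (mem_cons (L49 D T h) mem_nil) cw245
theorem W248 : WFK w248 := fun D T h => wf_of_chk h mem_nil mem_nil cw248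
theorem W249 : WFK w249 := fun D T h => wf_of_chk h (mem_cons (W204 D T h) (mem_cons (W16 D T h) mem_nil)) mem_nil cw249
theorem W250 : WFK w250 := fun D T h => wf_of_chk h (mem_cons (W69 D T h) (mem_cons (W16 D T h) mem_nil)) mem_nil cw250
theorem W251 : WFK w251 := fun D T h => wf_of_chk h (mem_cons (W1 D T h) (mem_cons (W16 D T h) mem_nil)) mem_nil cw251
theorem W254 : WFK w254 := fun D T h => wf_of_chk h mem_nil (mem_cons (L24 D T h) mem_nil) cw254
theorem L64 : LFK l64 := fun D T h => lf_of_chk h mem_nil cl64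
theorem W255 : WFK w255 := fun D T h => wf_of_chk h mem_nil (mem_cons (L64 D T h) mem_nil) cw255
theorem W256 : WFK w256 := fun D T h => wf_of_chk h mem_nil (mem_cons (L64 D T h) mem_nil) cw256
theorem W257 : WFK w257 := fun D T h => wf_of_chk h mem_nil (mem_cons (L64 D T h) mem_nil) cw257
theorem W258 : WFK w258 := fun D T h => wf_of_chk h mem_nil (mem_cons (L44 D T h) mem_nil) cw258
theorem W259 : WFK w259 := fun D T h => wf_of_chk h mem_nil (mem_cons (L48 D T h) mem_nil) cw259
theorem L65 : LFK l65 := fun D T h => lf_of_chk h mem_nil cl65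
theorem W260 : WFK w260 := fun D T h => wf_of_chk h mem_nil (mem_cons (L65 D T h) mem_nil) cw260
theorem W261 : WFK w261 := fun D T h => wf_of_chk h mem_nil (mem_cons (L7 D T h) mem_nil) cw261
theorem L66 : LFK l66 := fun D T h => lf_of_chk h mem_nil cl66
theorem W262 : WFK w262 := fun D T h => wf_of_chk h mem_nil (mem_cons (L66 D T h) mem_nil) cw262
theorem W263 : WFK w263 := fun D T h => wf_of_chk h mem_nil (mem_cons (L42 D T h) mem_nil) cw263
theorem W264 : WFK w264 := fun D T h => wf_of_chk h mem_nil (mem_cons (L1 D T h) mem_nil) cw264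
theorem W265 : WFK w265 := fun D T h => wf_of_chk h mem_nil (mem_cons (L29 D T h) mem_nil) cw265
theorem W266 : WFK w266 := fun D T h => wf_of_chk h mem_nil (mem_cons (L29 D T h) mem_nil) cw266
theorem W267 : WFK w267 := fun D T h => wf_of_chk h mem_nil (mem_cons (L64 D T h) mem_nil) cw267
theorem L67 : LFK l67 := fun D T h => lf_of_chk h (mem_cons (W254 D T h) (mem_cons (W259 D T h) (mem_cons (W168 D T h) (mem_cons (W263 D T h) (mem_cons (W264 D T h) (mem_cons (W265 D T h) (mem_cons (W266 D T h) (mem_cons (W42 D T h) (mem_cons (W16 D T h) (mem_cons (W39 D T h) (mem_cons (W3 D T h) (mem_cons (W267 D T h) (mem_cons (W260 D T h) (mem_cons (W15 D T h) (mem_cons (W262 D T h) (mem_cons (W245 D T h) (mem_cons (W255 D T h) (mem_cons (W256 D T h) (mem_cons (W257 D T h) (mem_cons (W258 D T h) mem_nil)))))))))))))))))))) cl67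
theorem W268 : WFK w268 := fun D T h => wf_of_chk h mem_nil (mem_cons (L67 D T h) mem_nil) cw268
theorem W269 : WFK w269 := fun D T h => wf_of_chk h (mem_cons (W208 D T h) (mem_cons (W16 D T h) mem_nil)) mem_nil cw269
theorem W270 : WFK w270 := fun D T h => wf_of_chk h mem_nil (mem_cons (L54 D T h) mem_nil) cw270
theorem W274 : WFK w274 := fun D T h => wf_of_chk h (mem_cons (W69 D T h) (mem_cons (W220 D T h) mem_nil)) mem_nil cw274
theorem W275 : WFK w275 := fun D T h => wf_of_chk h (mem_cons (W274 D T h) (mem_cons (W16 D T h) mem_nil)) mem_nil cw275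
theorem W276 : WFK w276 := fun D T h => wf_of_chk h (mem_cons (W1 D T h) (mem_cons (W220 D T h) mem_nil)) mem_nil cw276
theorem L68 : LFK l68 := fun D T h => lf_of_chk h mem_nil cl68
theorem W278 : WFK w278 := fun D T h => wf_of_chk h mem_nil (mem_cons (L68 D T h) mem_nil) cw278
theorem W279 : WFK w279 := fun D T h => wf_of_chk h mem_nil (mem_cons (L40 D T h) mem_nil) cw279
theorem W280 : WFK w280 := fun D T h => wf_of_chk h mem_nil (mem_cons (L40 D T h) mem_nil) cw280
theorem W281 : WFK w281 := fun D T h => wf_of_chk h mem_nil (mem_cons (L57 D T h) mem_nil) cw281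
theorem L69 : LFK l69 := fun D T h => lf_of_chk h (mem_cons (W15 D T h) (mem_cons (W1 D T h) (mem_cons (W281 D T h) (mem_cons (W154 D T h) (mem_cons (W152 D T h) (mem_cons (W153 D T h) (mem_cons (W278 D T h) (mem_cons (W53 D T h) (mem_cons (W279 D T h) (mem_cons (W280 D T h) (mem_cons (W149 D T h) mem_nil))))))))))) cl69
theorem W282 : WFK w282 := fun D T h => wf_of_chk h mem_nil (mem_cons (L69 D T h) mem_nil) cw282
theorem W284 : WFK w284 := fun D T h => wf_of_chk h mem_nil (mem_cons (L7 D T h) mem_nil) cw284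
theorem W287 : WFK w287 := fun D T h => wf_of_chk h (mem_cons (W42 D T h) mem_nil) mem_nil cw287
theorem W289 : WFK w289 := fun D T h => wf_of_chk h mem_nil (mem_cons (L17 D T h) mem_nil) cw289
theorem W290 : WFK w290 := fun D T h => wf_of_chk h mem_nil (mem_cons (L17 D T h) mem_nil) cw290
theorem W291 : WFK w291 := fun D T h => wf_of_chk h mem_nil mem_nil cw291
theorem W292 : WFK w292 := fun D T h => wf_of_chk h mem_nil (mem_cons (L17 D T h) mem_nil) cw292
theorem L71 : LFK l71 := fun D T h => lf_of_chk h (mem_cons (W53 D T h) (mem_cons (W158 D T h) (mem_cons (W278 D T h) (mem_cons (W289 D T h) (mem_cons (W290 D T h) (mem_cons (W291 D T h) (mem_cons (W292 D T h) mem_nil))))))) cl71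
theorem W293 : WFK w293 := fun D T h => wf_of_chk h mem_nil (mem_cons (L71 D T h) mem_nil) cw293
theorem W294 : WFK w294 := fun D T h => wf_of_chk h mem_nil (mem_cons (L29 D T h) mem_nil) cw294
theorem W295 : WFK w295 := fun D T h => wf_of_chk h mem_nil (mem_cons (L65 D T h) mem_nil) cw295
theorem W296 : WFK w296 := fun D T h => wf_of_chk h mem_nil (mem_cons (L66 D T h) mem_nil) cw296
theorem W297 : WFK w297 := fun D T h => wf_of_chk h mem_nil (mem_cons (L66 D T h) mem_nil) cw297
theorem W298 : WFK w298 := fun D T h => wf_of_chk h mem_nil (mem_cons (L66 D T h) mem_nil) cw298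
theorem W299 : WFK w299 := fun D T h => wf_of_chk h mem_nil (mem_cons (L66 D T h) mem_nil) cw299
theorem W300 : WFK w300 := fun D T h => wf_of_chk h mem_nil (mem_cons (L22 D T h) mem_nil) cw300
theorem W301 : WFK w301 := fun D T h => wf_of_chk h mem_nil (mem_cons (L42 D T h) mem_nil) cw301
theorem L72 : LFK l72 := fun D T h => lf_of_chk h mem_nil cl72
theorem W302 : WFK w302 := fun D T h => wf_of_chk h mem_nil (mem_cons (L72 D T h) mem_nil) cw302
theorem W303 : WFK w303 := fun D T h => wf_of_chk h mem_nil (mem_cons (L22 D T h) mem_nil) cw303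
theorem W304 : WFK w304 := fun D T h => wf_of_chk h mem_nil (mem_cons (L65 D T h) mem_nil) cw304
theorem L73 : LFK l73 := fun D T h => lf_of_chk h (mem_cons (W255 D T h) (mem_cons (W293 D T h) (mem_cons (W300 D T h) (mem_cons (W301 D T h) (mem_cons (W302 D T h) (mem_cons (W303 D T h) (mem_cons (W304 D T h) (mem_cons (W56 D T h) (mem_cons (W16 D T h) (mem_cons (W294 D T h) (mem_cons (W12 D T h) (mem_cons (W295 D T h) (mem_cons (W53 D T h) (mem_cons (W296 D T h) (mem_cons (W245 D T h) (mem_cons (W174 D T h) (mem_cons (W297 D T h) (mem_cons (W298 D T h) (mem_cons (W299 D T h) mem_nil))))))))))))))))))) cl73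
theorem W305 : WFK w305 := fun D T h => wf_of_chk h mem_nil (mem_cons (L73 D T h) mem_nil) cw305
theorem W306 : WFK w306 := fun D T h => wf_of_chk h mem_nil (mem_cons (L67 D T h) mem_nil) cw306
theorem W307 : WFK w307 := fun D T h => wf_of_chk h mem_nil (mem_cons (L67 D T h) mem_nil) cw307
theorem W308 : WFK w308 := fun D T h => wf_of_chk h mem_nil (mem_cons (L67 D T h) mem_nil) cw308
theorem W309 : WFK w309 := fun D T h => wf_of_chk h (mem_cons (W208 D T h) (mem_cons (W16 D T h) mem_nil)) mem_nil cw309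
theorem W310 : WFK w310 := fun D T h => wf_of_chk h (mem_cons (W270 D T h) (mem_cons (W16 D T h) mem_nil)) mem_nil cw310
theorem W311 : WFK w311 := fun D T h => wf_of_chk h (mem_cons (W128 D T h) (mem_cons (W179 D T h) mem_nil)) mem_nil cw311
theorem W312 : WFK w312 := fun D T h => wf_of_chk h (mem_cons (W276 D T h) (mem_cons (W16 D T h) mem_nil)) mem_nil cw312
theorem W313 : WFK w313 := fun D T h => wf_of_chk h (mem_cons (W274 D T h) (mem_cons (W16 D T h) mem_nil)) mem_nil cw313
theorem L74 : LFK l74 := fun D T h => lf_of_chk h (mem_cons (W267 D T h) (mem_cons (W282 D T h) (mem_cons (W264 D T h) (mem_cons (W263 D T h) (mem_cons (W168 D T h) (mem_cons (W266 D T h) (mem_cons (W265 D T h) (mem_cons (W42 D T h) (mem_cons (W229 D T h) (mem_cons (W39 D T h) (mem_cons (W3 D T h) (mem_cons (W15 D T h) (mem_cons (W260 D T h) (mem_cons (W262 D T h) (mem_cons (W245 D T h) (mem_cons (W257 D T h) (mem_cons (W256 D T h) (mem_cons (W296 D T h) (mem_cons (W258 D T h) mem_nil))))))))))))))))))) cl74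
theorem W314 : WFK w314 := fun D T h => wf_of_chk h mem_nil (mem_cons (L74 D T h) mem_nil) cw314
theorem L75 : LFK l75 := fun D T h => lf_of_chk h (mem_cons (W210 D T h) (mem_cons (W5 D T h) (mem_cons (W192 D T h) mem_nil))) cl75
theorem W315 : WFK w315 := fun D T h => wf_of_chk h mem_nil (mem_cons (L75 D T h) mem_nil) cw315
theorem W316 : WFK w316 := fun D T h => wf_of_chk h (mem_cons (W220 D T h) mem_nil) mem_nil cw316
theorem W317 : WFK w317 := fun D T h => wf_of_chk h mem_nil (mem_cons (L52 D T h) mem_nil) cw317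
theorem W318 : WFK w318 := fun D T h => wf_of_chk h mem_nil (mem_cons (L52 D T h) mem_nil) cw318
theorem W319 : WFK w319 := fun D T h => wf_of_chk h mem_nil mem_nil cw319
theorem L76 : LFK l76 := fun D T h => lf_of_chk h (mem_cons (W192 D T h) (mem_cons (W25 D T h) (mem_cons (W193 D T h) mem_nil))) cl76
theorem W320 : WFK w320 := fun D T h => wf_of_chk h mem_nil (mem_cons (L76 D T h) mem_nil) cw320
theorem L77 : LFK l77 := fun D T h => lf_of_chk h (mem_cons (W236 D T h) (mem_cons (W226 D T h) (mem_cons (W4 D T h) (mem_cons (W33 D T h) (mem_cons (W234 D T h) (mem_cons (W235 D T h) (mem_cons (W198 D T h) mem_nil))))))) cl77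
theorem W321 : WFK w321 := fun D T h => wf_of_chk h mem_nil (mem_cons (L77 D T h) mem_nil) cw321
theorem W322 : WFK w322 := fun D T h => wf_of_chk h mem_nil (mem_cons (L77 D T h) mem_nil) cw322
theorem W323 : WFK w323 := fun D T h => wf_of_chk h mem_nil (mem_cons (L77 D T h) mem_nil) cw323
theorem W324 : WFK w324 := fun D T h => wf_of_chk h mem_nil (mem_cons (L77 D T h) mem_nil) cw324
theorem L78 : LFK l78 := fun D T h => lf_of_chk h (mem_cons (W197 D T h) (mem_cons (W43 D T h) (mem_cons (W16 D T h) (mem_cons (W4 D T h) (mem_cons (W33 D T h) (mem_cons (W319 D T h) (mem_cons (W236 D T h) (mem_cons (W320 D T h) (mem_cons (W321 D T h) (mem_cons (W322 D T h) (mem_cons (W323 D T h) (mem_cons (W324 D T h) (mem_cons (W315 D T h) (mem_cons (W8 D T h) (mem_cons (W198 D T h) (mem_cons (W219 D T h) (mem_cons (W316 D T h) (mem_cons (W317 D T h) (mem_cons (W318 D T h) mem_nil))))))))))))))))))) cl78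
theorem W325 : WFK w325 := fun D T h => wf_of_chk h mem_nil (mem_cons (L78 D T h) mem_nil) cw325
theorem W326 : WFK w326 := fun D T h => wf_of_chk h (mem_cons (W325 D T h) (mem_cons (W16 D T h) mem_nil)) mem_nil cw326
theorem W327 : WFK w327 := fun D T h => wf_of_chk h (mem_cons (W287 D T h) (mem_cons (W16 D T h) mem_nil)) mem_nil cw327
theorem W328 : WFK w328 := fun D T h => wf_of_chk h mem_nil (mem_cons (L72 D T h) mem_nil) cw328
theorem W329 : WFK w329 := fun D T h => wf_of_chk h mem_nil (mem_cons (L5 D T h) mem_nil) cw329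
theorem L79 : LFK l79 := fun D T h => lf_of_chk h mem_nil cl79
theorem W330 : WFK w330 := fun D T h => wf_of_chk h mem_nil (mem_cons (L79 D T h) mem_nil) cw330
theorem W331 : WFK w331 := fun D T h => wf_of_chk h mem_nil (mem_cons (L32 D T h) mem_nil) cw331
theorem L80 : LFK l80 := fun D T h => lf_of_chk h (mem_cons (W168 D T h) (mem_cons (W38 D T h) (mem_cons (W33 D T h) (mem_cons (W4 D T h) (mem_cons (W331 D T h) (mem_cons (W265 D T h) (mem_cons (W10 D T h) (mem_cons (W39 D T h) (mem_cons (W3 D T h) (mem_cons (W281 D T h) (mem_cons (W173 D T h) (mem_cons (W320 D T h) (mem_cons (W328 D T h) (mem_cons (W329 D T h) (mem_cons (W330 D T h) (mem_cons (W172 D T h) mem_nil)))))))))))))))) cl80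
theorem W332 : WFK w332 := fun D T h => wf_of_chk h mem_nil (mem_cons (L80 D T h) mem_nil) cw332
theorem W333 : WFK w333 := fun D T h => wf_of_chk h (mem_cons (W332 D T h) (mem_cons (W16 D T h) mem_nil)) mem_nil cw333
theorem W334 : WFK w334 := fun D T h => wf_of_chk h (mem_cons (W69 D T h) (mem_cons (W42 D T h) mem_nil)) mem_nil cw334
theorem W335 : WFK w335 := fun D T h => wf_of_chk h (mem_cons (W334 D T h) (mem_cons (W16 D T h) mem_nil)) mem_nil cw335
theorem W336 : WFK w336 := fun D T h => wf_of_chk h (mem_cons (W162 D T h) (mem_cons (W250 D T h) mem_nil)) mem_nil cw336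
theorem L81 : LFK l81 := fun D T h => lf_of_chk h (mem_cons (W15 D T h) (mem_cons (W281 D T h) (mem_cons (W153 D T h) (mem_cons (W1 D T h) (mem_cons (W33 D T h) (mem_cons (W149 D T h) mem_nil)))))) cl81
theorem W337 : WFK w337 := fun D T h => wf_of_chk h mem_nil (mem_cons (L81 D T h) mem_nil) cw337
theorem W338 : WFK w338 := fun D T h => wf_of_chk h (mem_cons (W337 D T h) (mem_cons (W179 D T h) mem_nil)) mem_nil cw338
theorem W339 : WFK w339 := fun D T h => wf_of_chk h (mem_cons (W1 D T h) (mem_cons (W42 D T h) mem_nil)) mem_nil cw339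
theorem W340 : WFK w340 := fun D T h => wf_of_chk h (mem_cons (W339 D T h) (mem_cons (W16 D T h) mem_nil)) mem_nil cw340
theorem W341 : WFK w341 := fun D T h => wf_of_chk h mem_nil (mem_cons (L24 D T h) mem_nil) cw341
theorem W342 : WFK w342 := fun D T h => wf_of_chk h (mem_cons (W16 D T h) mem_nil) mem_nil cw342
theorem W343 : WFK w343 := fun D T h => wf_of_chk h (mem_cons (W1 D T h) (mem_cons (W16 D T h) mem_nil)) mem_nil cw343
theorem W344 : WFK w344 := fun D T h => wf_of_chk h mem_nil (mem_cons (L58 D T h) mem_nil) cw344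
theorem W345 : WFK w345 := fun D T h => wf_of_chk h mem_nil (mem_cons (L42 D T h) mem_nil) cw345
theorem W346 : WFK w346 := fun D T h => wf_of_chk h mem_nil (mem_cons (L42 D T h) mem_nil) cw346
theorem W347 : WFK w347 := fun D T h => wf_of_chk h mem_nil (mem_cons (L42 D T h) mem_nil) cw347
theorem L82 : LFK l82 := fun D T h => lf_of_chk h mem_nil cl82
theorem W348 : WFK w348 := fun D T h => wf_of_chk h mem_nil (mem_cons (L82 D T h) mem_nil) cw348
theorem L83 : LFK l83 := fun D T h => lf_of_chk h mem_nil cl83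
theorem W349 : WFK w349 := fun D T h => wf_of_chk h mem_nil (mem_cons (L83 D T h) mem_nil) cw349
theorem W350 : WFK w350 := fun D T h => wf_of_chk h mem_nil (mem_cons (L83 D T h) mem_nil) cw350
theorem W351 : WFK w351 := fun D T h => wf_of_chk h mem_nil (mem_cons (L17 D T h) mem_nil) cw351
theorem L84 : LFK l84 := fun D T h => lf_of_chk h (mem_cons (W263 D T h) (mem_cons (W259 D T h) (mem_cons (W351 D T h) (mem_cons (W38 D T h) (mem_cons (W42 D T h) (mem_cons (W16 D T h) (mem_cons (W39 D T h) (mem_cons (W3 D T h) (mem_cons (W15 D T h) (mem_cons (W348 D T h) (mem_cons (W350 D T h) (mem_cons (W344 D T h) (mem_cons (W174 D T h) (mem_cons (W345 D T h) (mem_cons (W346 D T h) (mem_cons (W301 D T h) (mem_cons (W347 D T h) mem_nil))))))))))))))))) cl84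
theorem W352 : WFK w352 := fun D T h => wf_of_chk h mem_nil (mem_cons (L84 D T h) mem_nil) cw352
theorem W353 : WFK w353 := fun D T h => wf_of_chk h mem_nil (mem_cons (L51 D T h) mem_nil) cw353
theorem L85 : LFK l85 := fun D T h => lf_of_chk h (mem_cons (W211 D T h) (mem_cons (W5 D T h) (mem_cons (W7 D T h) mem_nil))) cl85
theorem W354 : WFK w354 := fun D T h => wf_of_chk h mem_nil (mem_cons (L85 D T h) mem_nil) cw354
theorem W355 : WFK w355 := fun D T h => wf_of_chk h mem_nil (mem_cons (L24 D T h) mem_nil) cw355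
theorem L86 : LFK l86 := fun D T h => lf_of_chk h (mem_cons (W267 D T h) (mem_cons (W259 D T h) (mem_cons (W264 D T h) (mem_cons (W263 D T h) (mem_cons (W103 D T h) (mem_cons (W355 D T h) (mem_cons (W42 D T h) (mem_cons (W16 D T h) (mem_cons (W39 D T h) (mem_cons (W3 D T h) (mem_cons (W15 D T h) (mem_cons (W260 D T h) (mem_cons (W262 D T h) (mem_cons (W354 D T h) (mem_cons (W265 D T h) (mem_cons (W257 D T h) (mem_cons (W256 D T h) (mem_cons (W296 D T h) (mem_cons (W258 D T h) mem_nil))))))))))))))))))) cl86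
theorem W356 : WFK w356 := fun D T h => wf_of_chk h mem_nil (mem_cons (L86 D T h) mem_nil) cw356
theorem W357 : WFK w357 := fun D T h => wf_of_chk h mem_nil (mem_cons (L24 D T h) mem_nil) cw357
theorem L87 : LFK l87 := fun D T h => lf_of_chk h (mem_cons (W267 D T h) (mem_cons (W259 D T h) (mem_cons (W264 D T h) (mem_cons (W263 D T h) (mem_cons (W168 D T h) (mem_cons (W357 D T h) (mem_cons (W355 D T h) (mem_cons (W42 D T h) (mem_cons (W16 D T h) (mem_cons (W39 D T h) (mem_cons (W3 D T h) (mem_cons (W15 D T h) (mem_cons (W260 D T h) (mem_cons (W262 D T h) (mem_cons (W354 D T h) (mem_cons (W265 D T h) (mem_cons (W257 D T h) (mem_cons (W256 D T h) (mem_cons (W296 D T h) (mem_cons (W258 D T h) mem_nil)))))))))))))))))))) cl87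
theorem W358 : WFK w358 := fun D T h => wf_of_chk h mem_nil (mem_cons (L87 D T h) mem_nil) cw358
theorem W359 : WFK w359 := fun D T h => wf_of_chk h mem_nil (mem_cons (L55 D T h) mem_nil) cw359
theorem W360 : WFK w360 := fun D T h => wf_of_chk h (mem_cons (W78 D T h) (mem_cons (W16 D T h) mem_nil)) mem_nil cw360
theorem W361 : WFK w361 := fun D T h => wf_of_chk h (mem_cons (W360 D T h) (mem_cons (W16 D T h) mem_nil)) mem_nil cw361
theorem W362 : WFK w362 := fun D T h => wf_of_chk h (mem_cons (W230 D T h) mem_nil) mem_nil cw362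
theorem W363 : WFK w363 := fun D T h => wf_of_chk h (mem_cons (W362 D T h) (mem_cons (W16 D T h) mem_nil)) mem_nil cw363
theorem W364 : WFK w364 := fun D T h => wf_of_chk h (mem_cons (W352 D T h) (mem_cons (W16 D T h) mem_nil)) mem_nil cw364
theorem L88 : LFK l88 := fun D T h => lf_of_chk h (mem_cons (W268 D T h) (mem_cons (W341 D T h) (mem_cons (W342 D T h) (mem_cons (W343 D T h) (mem_cons (W352 D T h) (mem_cons (W16 D T h) (mem_cons (W353 D T h) (mem_cons (W356 D T h) (mem_cons (W358 D T h) (mem_cons (W241 D T h) (mem_cons (W183 D T h) (mem_cons (W184 D T h) (mem_cons (W213 D T h) (mem_cons (W186 D T h) (mem_cons (W196 D T h) (mem_cons (W361 D T h) (mem_cons (W363 D T h) (mem_cons (W364 D T h) (mem_cons (W178 D T h) (mem_cons (W179 D T h) (mem_cons (W251 D T h) (mem_cons (W309 D T h) (mem_cons (W249 D T h) (mem_cons (W269 D T h) (mem_cons (W333 D T h) (mem_cons (W335 D T h) (mem_cons (W284 D T h) (mem_cons (W336 D T h) (mem_cons (W338 D T h) (mem_cons (W340 D T h) (mem_cons (W209 D T h) (mem_cons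 (W310 D T h) (mem_cons (W24 D T h) (mem_cons (W275 D T h) (mem_cons (W311 D T h) (mem_cons (W312 D T h) (mem_cons (W313 D T h) (mem_cons (W314 D T h) (mem_cons (W267 D T h) (mem_cons (W326 D T h) (mem_cons (W327 D T h) (mem_cons (W307 D T h) (mem_cons (W306 D T h) (mem_cons (W305 D T h) (mem_cons (W308 D T h) mem_nil))))))))))))))))))))))))))))))))))))))))))))) cl88
theorem W365 : WFK w365 := fun D T h => wf_of_chk h mem_nil (mem_cons (L88 D T h) mem_nil) cw365
theorem W366 : WFK w366 := fun D T h => wf_of_chk h (mem_cons (W69 D T h) (mem_cons (W16 D T h) mem_nil)) mem_nil cw366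
theorem W367 : WFK w367 := fun D T h => wf_of_chk h mem_nil (mem_cons (L30 D T h) mem_nil) cw367
theorem W368 : WFK w368 := fun D T h => wf_of_chk h mem_nil (mem_cons (L15 D T h) mem_nil) cw368
theorem W369 : WFK w369 := fun D T h => wf_of_chk h (mem_cons (W368 D T h) (mem_cons (W16 D T h) mem_nil)) mem_nil cw369
theorem W370 : WFK w370 := fun D T h => wf_of_chk h mem_nil (mem_cons (L37 D T h) mem_nil) cw370
theorem W371 : WFK w371 := fun D T h => wf_of_chk h (mem_cons (W370 D T h) (mem_cons (W16 D T h) mem_nil)) mem_nil cw371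
theorem W372 : WFK w372 := fun D T h => wf_of_chk h (mem_cons (W241 D T h) (mem_cons (W16 D T h) mem_nil)) mem_nil cw372
theorem W373 : WFK w373 := fun D T h => wf_of_chk h mem_nil (mem_cons (L47 D T h) mem_nil) cw373
theorem W374 : WFK w374 := fun D T h => wf_of_chk h (mem_cons (W373 D T h) (mem_cons (W16 D T h) mem_nil)) mem_nil cw374
theorem W375 : WFK w375 := fun D T h => wf_of_chk h mem_nil (mem_cons (L47 D T h) mem_nil) cw375
theorem W376 : WFK w376 := fun D T h => wf_of_chk h (mem_cons (W375 D T h) (mem_cons (W16 D T h) mem_nil)) mem_nil cw376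
theorem L89 : LFK l89 := fun D T h => lf_of_chk h mem_nil cl89
theorem W377 : WFK w377 := fun D T h => wf_of_chk h mem_nil (mem_cons (L89 D T h) mem_nil) cw377
theorem W378 : WFK w378 := fun D T h => wf_of_chk h mem_nil (mem_cons (L5 D T h) mem_nil) cw378
theorem W379 : WFK w379 := fun D T h => wf_of_chk h mem_nil (mem_cons (L5 D T h) mem_nil) cw379
theorem L90 : LFK l90 := fun D T h => lf_of_chk h mem_nil cl90
theorem W380 : WFK w380 := fun D T h => wf_of_chk h mem_nil (mem_cons (L90 D T h) mem_nil) cw380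
theorem W381 : WFK w381 := fun D T h => wf_of_chk h mem_nil (mem_cons (L90 D T h) mem_nil) cw381
theorem L91 : LFK l91 := fun D T h => lf_of_chk h (mem_cons (W171 D T h) (mem_cons (W47 D T h) (mem_cons (W381 D T h) (mem_cons (W22 D T h) (mem_cons (W53 D T h) (mem_cons (W377 D T h) (mem_cons (W12 D T h) (mem_cons (W124 D T h) (mem_cons (W4 D T h) (mem_cons (W378 D T h) (mem_cons (W379 D T h) (mem_cons (W380 D T h) mem_nil)))))))))))) cl91
theorem W382 : WFK w382 := fun D T h => wf_of_chk h mem_nil (mem_cons (L91 D T h) mem_nil) cw382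
theorem W383 : WFK w383 := fun D T h => wf_of_chk h (mem_cons (W382 D T h) (mem_cons (W16 D T h) mem_nil)) mem_nil cw383
theorem W384 : WFK w384 := fun D T h => wf_of_chk h mem_nil (mem_cons (L47 D T h) mem_nil) cw384
theorem W385 : WFK w385 := fun D T h => wf_of_chk h (mem_cons (W384 D T h) (mem_cons (W16 D T h) mem_nil)) mem_nil cw385
theorem W386 : WFK w386 := fun D T h => wf_of_chk h mem_nil (mem_cons (L51 D T h) mem_nil) cw386
theorem W387 : WFK w387 := fun D T h => wf_of_chk h (mem_cons (W177 D T h) (mem_cons (W175 D T h) mem_nil)) mem_nil cw387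
theorem W388 : WFK w388 := fun D T h => wf_of_chk h (mem_cons (W177 D T h) mem_nil) mem_nil cw388
theorem W389 : WFK w389 := fun D T h => wf_of_chk h mem_nil mem_nil cw389
theorem W390 : WFK w390 := fun D T h => wf_of_chk h mem_nil (mem_cons (L1 D T h) mem_nil) cw390
theorem W391 : WFK w391 := fun D T h => wf_of_chk h mem_nil (mem_cons (L90 D T h) mem_nil) cw391
theorem L92 : LFK l92 := fun D T h => lf_of_chk h (mem_cons (W267 D T h) (mem_cons (W168 D T h) (mem_cons (W390 D T h) (mem_cons (W263 D T h) (mem_cons (W391 D T h) (mem_cons (W16 D T h) (mem_cons (W86 D T h) (mem_cons (W389 D T h) mem_nil)))))))) cl92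
theorem W392 : WFK w392 := fun D T h => wf_of_chk h mem_nil (mem_cons (L92 D T h) mem_nil) cw392
theorem L93 : LFK l93 := fun D T h => lf_of_chk h (mem_cons (W233 D T h) (mem_cons (W38 D T h) (mem_cons (W174 D T h) (mem_cons (W16 D T h) (mem_cons (W33 D T h) mem_nil))))) cl93
theorem W393 : WFK w393 := fun D T h => wf_of_chk h mem_nil (mem_cons (L93 D T h) mem_nil) cw393
theorem W394 : WFK w394 := fun D T h => wf_of_chk h mem_nil mem_nil cw394
theorem L94 : LFK l94 := fun D T h => lf_of_chk h (mem_cons (W263 D T h) (mem_cons (W38 D T h) (mem_cons (W351 D T h) (mem_cons (W16 D T h) (mem_cons (W78 D T h) (mem_cons (W394 D T h) mem_nil)))))) cl94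
theorem W395 : WFK w395 := fun D T h => wf_of_chk h mem_nil (mem_cons (L94 D T h) mem_nil) cw395
theorem W396 : WFK w396 := fun D T h => wf_of_chk h mem_nil mem_nil cw396
theorem L95 : LFK l95 := fun D T h => lf_of_chk h (mem_cons (W263 D T h) (mem_cons (W38 D T h) (mem_cons (W351 D T h) (mem_cons (W16 D T h) (mem_cons (W78 D T h) (mem_cons (W396 D T h) mem_nil)))))) cl95
theorem W397 : WFK w397 := fun D T h => wf_of_chk h mem_nil (mem_cons (L95 D T h) mem_nil) cw397
theorem W398 : WFK w398 := fun D T h => wf_of_chk h (mem_cons (W397 D T h) (mem_cons (W177 D T h) mem_nil)) mem_nil cw398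
theorem W399 : WFK w399 := fun D T h => wf_of_chk h mem_nil (mem_cons (L5 D T h) mem_nil) cw399
theorem W400 : WFK w400 := fun D T h => wf_of_chk h mem_nil (mem_cons (L35 D T h) mem_nil) cw400
theorem W401 : WFK w401 := fun D T h => wf_of_chk h mem_nil (mem_cons (L72 D T h) mem_nil) cw401
theorem L96 : LFK l96 := fun D T h => lf_of_chk h (mem_cons (W267 D T h) (mem_cons (W69 D T h) (mem_cons (W4 D T h) (mem_cons (W263 D T h) (mem_cons (W391 D T h) (mem_cons (W233 D T h) (mem_cons (W16 D T h) (mem_cons (W399 D T h) (mem_cons (W401 D T h) (mem_cons (W39 D T h) (mem_cons (W3 D T h) (mem_cons (W400 D T h) (mem_cons (W91 D T h) (mem_cons (W255 D T h) (mem_cons (W256 D T h) (mem_cons (W257 D T h) (mem_cons (W258 D T h) mem_nil))))))))))))))))) cl96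
theorem W402 : WFK w402 := fun D T h => wf_of_chk h mem_nil (mem_cons (L96 D T h) mem_nil) cw402
theorem W403 : WFK w403 := fun D T h => wf_of_chk h (mem_cons (W195 D T h) (mem_cons (W177 D T h) mem_nil)) mem_nil cw403
theorem W404 : WFK w404 := fun D T h => wf_of_chk h mem_nil mem_nil cw404
theorem W405 : WFK w405 := fun D T h => wf_of_chk h mem_nil (mem_cons (L26 D T h) mem_nil) cw405
theorem W407 : WFK w407 := fun D T h => wf_of_chk h mem_nil mem_nil cw407
theorem L97 : LFK l97 := fun D T h => lf_of_chk h (mem_cons (W211 D T h) (mem_cons (W5 D T h) (mem_cons (W407 D T h) mem_nil))) cl97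
theorem W408 : WFK w408 := fun D T h => wf_of_chk h mem_nil (mem_cons (L97 D T h) mem_nil) cw408
theorem W409 : WFK w409 := fun D T h => wf_of_chk h mem_nil mem_nil cw409
theorem L98 : LFK l98 := fun D T h => lf_of_chk h (mem_cons (W263 D T h) (mem_cons (W38 D T h) (mem_cons (W351 D T h) (mem_cons (W16 D T h) (mem_cons (W135 D T h) (mem_cons (W409 D T h) mem_nil)))))) cl98
theorem W410 : WFK w410 := fun D T h => wf_of_chk h mem_nil (mem_cons (L98 D T h) mem_nil) cw410
theorem W411 : WFK w411 := fun D T h => wf_of_chk h mem_nil (mem_cons (L56 D T h) mem_nil) cw411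
theorem W412 : WFK w412 := fun D T h => wf_of_chk h mem_nil mem_nil cw412
theorem W413 : WFK w413 := fun D T h => wf_of_chk h mem_nil mem_nil cw413
theorem L99 : LFK l99 := fun D T h => lf_of_chk h (mem_cons (W263 D T h) (mem_cons (W38 D T h) (mem_cons (W351 D T h) (mem_cons (W16 D T h) (mem_cons (W412 D T h) (mem_cons (W413 D T h) mem_nil)))))) cl99
theorem W414 : WFK w414 := fun D T h => wf_of_chk h mem_nil (mem_cons (L99 D T h) mem_nil) cw414
theorem L100 : LFK l100 := fun D T h => lf_of_chk h (mem_cons (W217 D T h) (mem_cons (W410 D T h) (mem_cons (W414 D T h) (mem_cons (W32 D T h) (mem_cons (W408 D T h) (mem_cons (W26 D T h) mem_nil)))))) cl100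
theorem W416 : WFK w416 := fun D T h => wf_of_chk h (mem_cons (W16 D T h) (mem_cons (W392 D T h) mem_nil)) mem_nil cw416
theorem L101 : LFK l101 := fun D T h => lf_of_chk h (mem_cons (W84 D T h) (mem_cons (W69 D T h) (mem_cons (W86 D T h) (mem_cons (W85 D T h) (mem_cons (W87 D T h) (mem_cons (W88 D T h) (mem_cons (W89 D T h) (mem_cons (W90 D T h) (mem_cons (W92 D T h) mem_nil))))))))) cl101
theorem W417 : WFK w417 := fun D T h => wf_of_chk h mem_nil (mem_cons (L101 D T h) mem_nil) cw417
theorem W418 : WFK w418 := fun D T h => wf_of_chk h mem_nil (mem_cons (L14 D T h) mem_nil) cw418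
theorem W419 : WFK w419 := fun D T h => wf_of_chk h (mem_cons (W69 D T h) mem_nil) mem_nil cw419
theorem W420 : WFK w420 := fun D T h => wf_of_chk h (mem_cons (W69 D T h) mem_nil) mem_nil cw420
theorem L102 : LFK l102 := fun D T h => lf_of_chk h (mem_cons (W267 D T h) (mem_cons (W69 D T h) (mem_cons (W174 D T h) (mem_cons (W263 D T h) (mem_cons (W391 D T h) (mem_cons (W16 D T h) (mem_cons (W419 D T h) (mem_cons (W420 D T h) mem_nil)))))))) cl102
theorem W421 : WFK w421 := fun D T h => wf_of_chk h mem_nil (mem_cons (L102 D T h) mem_nil) cw421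
theorem W425 : WFK w425 := fun D T h => wf_of_chk h (mem_cons (W208 D T h) (mem_cons (W177 D T h) mem_nil)) mem_nil cw425
theorem W426 : WFK w426 := fun D T h => wf_of_chk h (mem_cons (W16 D T h) (mem_cons (W392 D T h) mem_nil)) mem_nil cw426
theorem W427 : WFK w427 := fun D T h => wf_of_chk h (mem_cons (W270 D T h) (mem_cons (W177 D T h) mem_nil)) mem_nil cw427
theorem W428 : WFK w428 := fun D T h => wf_of_chk h mem_nil (mem_cons (L89 D T h) mem_nil) cw428
theorem W429 : WFK w429 := fun D T h => wf_of_chk h mem_nil (mem_cons (L23 D T h) mem_nil) cw429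
theorem W430 : WFK w430 := fun D T h => wf_of_chk h mem_nil (mem_cons (L41 D T h) mem_nil) cw430
theorem W431 : WFK w431 := fun D T h => wf_of_chk h mem_nil (mem_cons (L40 D T h) mem_nil) cw431
theorem L103 : LFK l103 := fun D T h => lf_of_chk h mem_nil cl103
theorem W432 : WFK w432 := fun D T h => wf_of_chk h mem_nil (mem_cons (L103 D T h) mem_nil) cw432
theorem L104 : LFK l104 := fun D T h => lf_of_chk h (mem_cons (W149 D T h) (mem_cons (W158 D T h) (mem_cons (W150 D T h) (mem_cons (W53 D T h) (mem_cons (W432 D T h) (mem_cons (W33 D T h) (mem_cons (W428 D T h) (mem_cons (W429 D T h) (mem_cons (W430 D T h) (mem_cons (W431 D T h) mem_nil)))))))))) cl104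
theorem W433 : WFK w433 := fun D T h => wf_of_chk h mem_nil (mem_cons (L104 D T h) mem_nil) cw433
theorem L105 : LFK l105 := fun D T h => lf_of_chk h (mem_cons (W433 D T h) mem_nil) cl105
theorem W434 : WFK w434 := fun D T h => wf_of_chk h mem_nil (mem_cons (L105 D T h) mem_nil) cw434
theorem L106 : LFK l106 := fun D T h => lf_of_chk h (mem_cons (W17 D T h) (mem_cons (W15 D T h) (mem_cons (W220 D T h) (mem_cons (W203 D T h) (mem_cons (W202 D T h) (mem_cons (W86 D T h) (mem_cons (W3 D T h) (mem_cons (W201 D T h) (mem_cons (W200 D T h) (mem_cons (W199 D T h) mem_nil)))))))))) cl106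
theorem W435 : WFK w435 := fun D T h => wf_of_chk h mem_nil (mem_cons (L106 D T h) mem_nil) cw435
theorem W436 : WFK w436 := fun D T h => wf_of_chk h mem_nil (mem_cons (L52 D T h) mem_nil) cw436
theorem W437 : WFK w437 := fun D T h => wf_of_chk h mem_nil (mem_cons (L59 D T h) mem_nil) cw437
theorem W438 : WFK w438 := fun D T h => wf_of_chk h mem_nil (mem_cons (L45 D T h) mem_nil) cw438
theorem W439 : WFK w439 := fun D T h => wf_of_chk h (mem_cons (W220 D T h) mem_nil) mem_nil cw439
theorem W440 : WFK w440 := fun D T h => wf_of_chk h mem_nil (mem_cons (L54 D T h) mem_nil) cw440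
theorem W441 : WFK w441 := fun D T h => wf_of_chk h mem_nil (mem_cons (L54 D T h) mem_nil) cw441
theorem W442 : WFK w442 := fun D T h => wf_of_chk h mem_nil (mem_cons (L45 D T h) mem_nil) cw442
theorem L107 : LFK l107 := fun D T h => lf_of_chk h (mem_cons (W24 D T h) (mem_cons (W1 D T h) (mem_cons (W15 D T h) (mem_cons (W17 D T h) (mem_cons (W436 D T h) (mem_cons (W3 D T h) (mem_cons (W437 D T h) (mem_cons (W439 D T h) (mem_cons (W440 D T h) (mem_cons (W441 D T h) (mem_cons (W442 D T h) (mem_cons (W42 D T h) (mem_cons (W164 D T h) mem_nil))))))))))))) cl107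
theorem W443 : WFK w443 := fun D T h => wf_of_chk h mem_nil (mem_cons (L107 D T h) mem_nil) cw443
theorem W444 : WFK w444 := fun D T h => wf_of_chk h (mem_cons (W443 D T h) (mem_cons (W177 D T h) mem_nil)) mem_nil cw444
theorem W445 : WFK w445 := fun D T h => wf_of_chk h (mem_cons (W220 D T h) (mem_cons (W417 D T h) mem_nil)) mem_nil cw445
theorem W446 : WFK w446 := fun D T h => wf_of_chk h (mem_cons (W220 D T h) (mem_cons (W421 D T h) mem_nil)) mem_nil cw446
theorem W447 : WFK w447 := fun D T h => wf_of_chk h (mem_cons (W220 D T h) (mem_cons (W421 D T h) mem_nil)) mem_nil cw447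
theorem W448 : WFK w448 := fun D T h => wf_of_chk h mem_nil (mem_cons (L81 D T h) mem_nil) cw448
theorem L108 : LFK l108 := fun D T h => lf_of_chk h (mem_cons (W448 D T h) mem_nil) cl108
theorem W449 : WFK w449 := fun D T h => wf_of_chk h mem_nil (mem_cons (L108 D T h) mem_nil) cw449
theorem W450 : WFK w450 := fun D T h => wf_of_chk h mem_nil (mem_cons (L107 D T h) mem_nil) cw450
theorem W451 : WFK w451 := fun D T h => wf_of_chk h (mem_cons (W450 D T h) (mem_cons (W177 D T h) mem_nil)) mem_nil cw451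
theorem W452 : WFK w452 := fun D T h => wf_of_chk h (mem_cons (W109 D T h) (mem_cons (W16 D T h) mem_nil)) mem_nil cw452
theorem W453 : WFK w453 := fun D T h => wf_of_chk h (mem_cons (W452 D T h) (mem_cons (W177 D T h) mem_nil)) mem_nil cw453
theorem W454 : WFK w454 := fun D T h => wf_of_chk h (mem_cons (W164 D T h) (mem_cons (W392 D T h) mem_nil)) mem_nil cw454
theorem W455 : WFK w455 := fun D T h => wf_of_chk h (mem_cons (W16 D T h) mem_nil) mem_nil cw455
theorem W456 : WFK w456 := fun D T h => wf_of_chk h (mem_cons (W455 D T h) (mem_cons (W392 D T h) mem_nil)) mem_nil cw456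
theorem W457 : WFK w457 := fun D T h => wf_of_chk h mem_nil (mem_cons (L87 D T h) mem_nil) cw457
theorem W458 : WFK w458 := fun D T h => wf_of_chk h mem_nil (mem_cons (L87 D T h) mem_nil) cw458
theorem W459 : WFK w459 := fun D T h => wf_of_chk h mem_nil (mem_cons (L87 D T h) mem_nil) cw459
theorem L109 : LFK l109 := fun D T h => lf_of_chk h (mem_cons (W155 D T h) mem_nil) cl109
theorem W460 : WFK w460 := fun D T h => wf_of_chk h mem_nil (mem_cons (L109 D T h) mem_nil) cw460
theorem W461 : WFK w461 := fun D T h => wf_of_chk h mem_nil (mem_cons (L1 D T h) mem_nil) cw461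
theorem L110 : LFK l110 := fun D T h => lf_of_chk h (mem_cons (W461 D T h) mem_nil) cl110
theorem W462 : WFK w462 := fun D T h => wf_of_chk h mem_nil (mem_cons (L110 D T h) mem_nil) cw462
theorem W463 : WFK w463 := fun D T h => wf_of_chk h (mem_cons (W332 D T h) (mem_cons (W177 D T h) mem_nil)) mem_nil cw463
theorem W464 : WFK w464 := fun D T h => wf_of_chk h (mem_cons (W162 D T h) (mem_cons (W421 D T h) mem_nil)) mem_nil cw464
theorem W465 : WFK w465 := fun D T h => wf_of_chk h (mem_cons (W164 D T h) (mem_cons (W417 D T h) mem_nil)) mem_nil cw465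
theorem W466 : WFK w466 := fun D T h => wf_of_chk h (mem_cons (W164 D T h) (mem_cons (W421 D T h) mem_nil)) mem_nil cw466
theorem W467 : WFK w467 := fun D T h => wf_of_chk h (mem_cons (W42 D T h) (mem_cons (W417 D T h) mem_nil)) mem_nil cw467
theorem W468 : WFK w468 := fun D T h => wf_of_chk h (mem_cons (W69 D T h) (mem_cons (W341 D T h) mem_nil)) mem_nil cw468
theorem W469 : WFK w469 := fun D T h => wf_of_chk h mem_nil (mem_cons (L57 D T h) mem_nil) cw469
theorem W470 : WFK w470 := fun D T h => wf_of_chk h (mem_cons (W469 D T h) (mem_cons (W16 D T h) mem_nil)) mem_nil cw470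
theorem W471 : WFK w471 := fun D T h => wf_of_chk h (mem_cons (W69 D T h) mem_nil) mem_nil cw471
theorem W472 : WFK w472 := fun D T h => wf_of_chk h (mem_cons (W471 D T h) (mem_cons (W16 D T h) mem_nil)) mem_nil cw472
theorem L111 : LFK l111 := fun D T h => lf_of_chk h mem_nil cl111
theorem W473 : WFK w473 := fun D T h => wf_of_chk h mem_nil (mem_cons (L111 D T h) mem_nil) cw473
theorem W476 : WFK w476 := fun D T h => wf_of_chk h (mem_cons (W78 D T h) mem_nil) mem_nil cw476
theorem W477 : WFK w477 := fun D T h => wf_of_chk h (mem_cons (W78 D T h) mem_nil) mem_nil cw477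
theorem L112 : LFK l112 := fun D T h => lf_of_chk h (mem_cons (W267 D T h) (mem_cons (W105 D T h) (mem_cons (W263 D T h) (mem_cons (W391 D T h) (mem_cons (W16 D T h) (mem_cons (W476 D T h) (mem_cons (W477 D T h) mem_nil))))))) cl112
theorem W478 : WFK w478 := fun D T h => wf_of_chk h mem_nil (mem_cons (L112 D T h) mem_nil) cw478
theorem W479 : WFK w479 := fun D T h => wf_of_chk h (mem_cons (W478 D T h) (mem_cons (W16 D T h) mem_nil)) mem_nil cw479
theorem W480 : WFK w480 := fun D T h => wf_of_chk h mem_nil (mem_cons (L57 D T h) mem_nil) cw480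
theorem W481 : WFK w481 := fun D T h => wf_of_chk h (mem_cons (W480 D T h) (mem_cons (W16 D T h) mem_nil)) mem_nil cw481
theorem W482 : WFK w482 := fun D T h => wf_of_chk h (mem_cons (W212 D T h) (mem_cons (W341 D T h) mem_nil)) mem_nil cw482
theorem W483 : WFK w483 := fun D T h => wf_of_chk h (mem_cons (W80 D T h) (mem_cons (W16 D T h) mem_nil)) mem_nil cw483
theorem W484 : WFK w484 := fun D T h => wf_of_chk h (mem_cons (W483 D T h) (mem_cons (W177 D T h) mem_nil)) mem_nil cw484
theorem W485 : WFK w485 := fun D T h => wf_of_chk h (mem_cons (W478 D T h) (mem_cons (W16 D T h) mem_nil)) mem_nil cw485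
theorem L113 : LFK l113 := fun D T h => lf_of_chk h (mem_cons (W358 D T h) (mem_cons (W342 D T h) (mem_cons (W341 D T h) (mem_cons (W207 D T h) (mem_cons (W352 D T h) (mem_cons (W343 D T h) (mem_cons (W393 D T h) (mem_cons (W397 D T h) (mem_cons (W468 D T h) (mem_cons (W470 D T h) (mem_cons (W402 D T h) (mem_cons (W403 D T h) (mem_cons (W472 D T h) (mem_cons (W479 D T h) (mem_cons (W481 D T h) (mem_cons (W482 D T h) (mem_cons (W484 D T h) (mem_cons (W485 D T h) (mem_cons (W388 D T h) (mem_cons (W392 D T h) (mem_cons (W417 D T h) (mem_cons (W16 D T h) (mem_cons (W425 D T h) (mem_cons (W416 D T h) (mem_cons (W426 D T h) (mem_cons (W463 D T h) (mem_cons (W464 D T h) (mem_cons (W284 D T h) (mem_cons (W465 D T h) (mem_cons (W466 D T h) (mem_cons (W467 D T h) (mem_cons (W427 D T h) (mem_cons (W209 D T h) (mem_cons (W24 D T h) (mem_cons (W444 D T h) (mem_cons (W445 D T h) (mem_cons (W446 D T h) (mem_cons (W447 D T h) (mem_cons (W451 D T h) (mem_cons (W267 D T h) (mem_cons (W453 D T h) (mem_cons (W454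 D T h) (mem_cons (W456 D T h) (mem_cons (W457 D T h) (mem_cons (W458 D T h) (mem_cons (W459 D T h) mem_nil)))))))))))))))))))))))))))))))))))))))))))))) cl113
theorem W486 : WFK w486 := fun D T h => wf_of_chk h mem_nil (mem_cons (L113 D T h) mem_nil) cw486
theorem W487 : WFK w487 := fun D T h => wf_of_chk h mem_nil (mem_cons (L30 D T h) mem_nil) cw487
theorem W488 : WFK w488 := fun D T h => wf_of_chk h mem_nil (mem_cons (L14 D T h) mem_nil) cw488
theorem W489 : WFK w489 := fun D T h => wf_of_chk h mem_nil (mem_cons (L15 D T h) mem_nil) cw489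
theorem W490 : WFK w490 := fun D T h => wf_of_chk h (mem_cons (W69 D T h) mem_nil) mem_nil cw490
theorem L114 : LFK l114 := fun D T h => lf_of_chk h (mem_cons (W267 D T h) (mem_cons (W69 D T h) (mem_cons (W174 D T h) (mem_cons (W263 D T h) (mem_cons (W391 D T h) (mem_cons (W16 D T h) (mem_cons (W489 D T h) (mem_cons (W419 D T h) (mem_cons (W490 D T h) mem_nil))))))))) cl114
theorem W491 : WFK w491 := fun D T h => wf_of_chk h mem_nil (mem_cons (L114 D T h) mem_nil) cw491
theorem W492 : WFK w492 := fun D T h => wf_of_chk h (mem_cons (W368 D T h) (mem_cons (W177 D T h) mem_nil)) mem_nil cw492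
theorem W493 : WFK w493 := fun D T h => wf_of_chk h (mem_cons (W370 D T h) (mem_cons (W177 D T h) mem_nil)) mem_nil cw493
theorem W494 : WFK w494 := fun D T h => wf_of_chk h (mem_cons (W16 D T h) (mem_cons (W392 D T h) mem_nil)) mem_nil cw494
theorem W495 : WFK w495 := fun D T h => wf_of_chk h mem_nil (mem_cons (L23 D T h) mem_nil) cw495
theorem W496 : WFK w496 := fun D T h => wf_of_chk h (mem_cons (W495 D T h) (mem_cons (W175 D T h) mem_nil)) mem_nil cw496
theorem W497 : WFK w497 := fun D T h => wf_of_chk h mem_nil (mem_cons (L23 D T h) mem_nil) cw497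
theorem W498 : WFK w498 := fun D T h => wf_of_chk h (mem_cons (W497 D T h) (mem_cons (W175 D T h) mem_nil)) mem_nil cw498
theorem W499 : WFK w499 := fun D T h => wf_of_chk h mem_nil (mem_cons (L7 D T h) mem_nil) cw499
theorem W500 : WFK w500 := fun D T h => wf_of_chk h mem_nil (mem_cons (L0 D T h) mem_nil) cw500
theorem W501 : WFK w501 := fun D T h => wf_of_chk h mem_nil (mem_cons (L64 D T h) mem_nil) cw501
theorem L115 : LFK l115 := fun D T h => lf_of_chk h (mem_cons (W256 D T h) (mem_cons (W499 D T h) (mem_cons (W170 D T h) (mem_cons (W15 D T h) (mem_cons (W91 D T h) (mem_cons (W500 D T h) (mem_cons (W501 D T h) (mem_cons (W11 D T h) mem_nil)))))))) cl115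
theorem W502 : WFK w502 := fun D T h => wf_of_chk h mem_nil (mem_cons (L115 D T h) mem_nil) cw502
theorem W503 : WFK w503 := fun D T h => wf_of_chk h (mem_cons (W495 D T h) (mem_cons (W175 D T h) mem_nil)) mem_nil cw503
theorem W504 : WFK w504 := fun D T h => wf_of_chk h (mem_cons (W16 D T h) (mem_cons (W392 D T h) mem_nil)) mem_nil cw504
theorem L116 : LFK l116 := fun D T h => lf_of_chk h (mem_cons (W17 D T h) (mem_cons (W1 D T h) (mem_cons (W69 D T h) (mem_cons (W202 D T h) (mem_cons (W203 D T h) (mem_cons (W3 D T h) (mem_cons (W86 D T h) (mem_cons (W201 D T h) (mem_cons (W199 D T h) (mem_cons (W200 D T h) mem_nil)))))))))) cl116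
theorem W505 : WFK w505 := fun D T h => wf_of_chk h mem_nil (mem_cons (L116 D T h) mem_nil) cw505
theorem W506 : WFK w506 := fun D T h => wf_of_chk h (mem_cons (W505 D T h) (mem_cons (W177 D T h) mem_nil)) mem_nil cw506
theorem W507 : WFK w507 := fun D T h => wf_of_chk h (mem_cons (W16 D T h) (mem_cons (W392 D T h) mem_nil)) mem_nil cw507
theorem L117 : LFK l117 := fun D T h => lf_of_chk h (mem_cons (W162 D T h) mem_nil) cl117
theorem W508 : WFK w508 := fun D T h => wf_of_chk h mem_nil (mem_cons (L117 D T h) mem_nil) cw508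
theorem W509 : WFK w509 := fun D T h => wf_of_chk h (mem_cons (W508 D T h) (mem_cons (W175 D T h) mem_nil)) mem_nil cw509
theorem W510 : WFK w510 := fun D T h => wf_of_chk h (mem_cons (W16 D T h) (mem_cons (W487 D T h) mem_nil)) mem_nil cw510
theorem L118 : LFK l118 := fun D T h => lf_of_chk h (mem_cons (W387 D T h) (mem_cons (W177 D T h) (mem_cons (W388 D T h) (mem_cons (W392 D T h) (mem_cons (W487 D T h) (mem_cons (W491 D T h) (mem_cons (W492 D T h) (mem_cons (W504 D T h) (mem_cons (W506 D T h) (mem_cons (W507 D T h) (mem_cons (W358 D T h) (mem_cons (W509 D T h) (mem_cons (W510 D T h) (mem_cons (W267 D T h) (mem_cons (W493 D T h) (mem_cons (W494 D T h) (mem_cons (W496 D T h) (mem_cons (W502 D T h) (mem_cons (W498 D T h) (mem_cons (W503 D T h) (mem_cons (W393 D T h) (mem_cons (W395 D T h) (mem_cons (W398 D T h) (mem_cons (W402 D T h) (mem_cons (W403 D T h) (mem_cons (W486 D T h) mem_nil)))))))))))))))))))))))))) cl118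
theorem W511 : WFK w511 := fun D T h => wf_of_chk h mem_nil (mem_cons (L118 D T h) mem_nil) cw511
theorem W512 : WFK w512 := fun D T h => wf_of_chk h (mem_cons (W126 D T h) (mem_cons (W177 D T h) mem_nil)) mem_nil cw512
theorem W513 : WFK w513 := fun D T h => wf_of_chk h (mem_cons (W220 D T h) (mem_cons (W175 D T h) mem_nil)) mem_nil cw513
theorem W514 : WFK w514 := fun D T h => wf_of_chk h (mem_cons (W220 D T h) (mem_cons (W175 D T h) mem_nil)) mem_nil cw514
theorem W515 : WFK w515 := fun D T h => wf_of_chk h (mem_cons (W16 D T h) (mem_cons (W83 D T h) mem_nil)) mem_nil cw515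
theorem W516 : WFK w516 := fun D T h => wf_of_chk h (mem_cons (W1 D T h) (mem_cons (W175 D T h) mem_nil)) mem_nil cw516
theorem W517 : WFK w517 := fun D T h => wf_of_chk h (mem_cons (W69 D T h) (mem_cons (W175 D T h) mem_nil)) mem_nil cw517
theorem W518 : WFK w518 := fun D T h => wf_of_chk h (mem_cons (W69 D T h) (mem_cons (W175 D T h) mem_nil)) mem_nil cw518
theorem W519 : WFK w519 := fun D T h => wf_of_chk h mem_nil (mem_cons (L57 D T h) mem_nil) cw519
theorem W520 : WFK w520 := fun D T h => wf_of_chk h mem_nil (mem_cons (L71 D T h) mem_nil) cw520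
theorem L119 : LFK l119 := fun D T h => lf_of_chk h (mem_cons (W216 D T h) (mem_cons (W33 D T h) (mem_cons (W78 D T h) (mem_cons (W142 D T h) (mem_cons (W91 D T h) (mem_cons (W80 D T h) (mem_cons (W12 D T h) (mem_cons (W520 D T h) mem_nil)))))))) cl119
theorem W521 : WFK w521 := fun D T h => wf_of_chk h mem_nil (mem_cons (L119 D T h) mem_nil) cw521
theorem W522 : WFK w522 := fun D T h => wf_of_chk h (mem_cons (W105 D T h) (mem_cons (W175 D T h) mem_nil)) mem_nil cw522
theorem W523 : WFK w523 := fun D T h => wf_of_chk h (mem_cons (W220 D T h) (mem_cons (W83 D T h) mem_nil)) mem_nil cw523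
theorem W524 : WFK w524 := fun D T h => wf_of_chk h (mem_cons (W220 D T h) (mem_cons (W487 D T h) mem_nil)) mem_nil cw524
theorem W525 : WFK w525 := fun D T h => wf_of_chk h (mem_cons (W519 D T h) (mem_cons (W175 D T h) mem_nil)) mem_nil cw525
theorem W526 : WFK w526 := fun D T h => wf_of_chk h (mem_cons (W220 D T h) (mem_cons (W83 D T h) mem_nil)) mem_nil cw526
theorem W527 : WFK w527 := fun D T h => wf_of_chk h (mem_cons (W230 D T h) (mem_cons (W175 D T h) mem_nil)) mem_nil cw527
theorem W528 : WFK w528 := fun D T h => wf_of_chk h (mem_cons (W392 D T h) (mem_cons (W16 D T h) mem_nil)) mem_nil cw528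
theorem W529 : WFK w529 := fun D T h => wf_of_chk h (mem_cons (W392 D T h) (mem_cons (W16 D T h) mem_nil)) mem_nil cw529
theorem W530 : WFK w530 := fun D T h => wf_of_chk h (mem_cons (W83 D T h) (mem_cons (W175 D T h) mem_nil)) mem_nil cw530
theorem W531 : WFK w531 := fun D T h => wf_of_chk h (mem_cons (W164 D T h) (mem_cons (W83 D T h) mem_nil)) mem_nil cw531
theorem W532 : WFK w532 := fun D T h => wf_of_chk h (mem_cons (W42 D T h) (mem_cons (W83 D T h) mem_nil)) mem_nil cw532
theorem W533 : WFK w533 := fun D T h => wf_of_chk h (mem_cons (W162 D T h) (mem_cons (W83 D T h) mem_nil)) mem_nil cw533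
theorem W534 : WFK w534 := fun D T h => wf_of_chk h (mem_cons (W164 D T h) (mem_cons (W83 D T h) mem_nil)) mem_nil cw534
theorem W535 : WFK w535 := fun D T h => wf_of_chk h (mem_cons (W1 D T h) (mem_cons (W16 D T h) mem_nil)) mem_nil cw535
theorem W536 : WFK w536 := fun D T h => wf_of_chk h (mem_cons (W69 D T h) (mem_cons (W16 D T h) mem_nil)) mem_nil cw536
theorem W537 : WFK w537 := fun D T h => wf_of_chk h (mem_cons (W69 D T h) (mem_cons (W16 D T h) mem_nil)) mem_nil cw537
theorem W538 : WFK w538 := fun D T h => wf_of_chk h mem_nil (mem_cons (L5 D T h) mem_nil) cw538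
theorem L120 : LFK l120 := fun D T h => lf_of_chk h mem_nil cl120
theorem W539 : WFK w539 := fun D T h => wf_of_chk h mem_nil (mem_cons (L120 D T h) mem_nil) cw539
theorem W540 : WFK w540 := fun D T h => wf_of_chk h (mem_cons (W539 D T h) (mem_cons (W16 D T h) mem_nil)) mem_nil cw540
theorem W541 : WFK w541 := fun D T h => wf_of_chk h (mem_cons (W144 D T h) mem_nil) mem_nil cw541
theorem W542 : WFK w542 := fun D T h => wf_of_chk h (mem_cons (W69 D T h) (mem_cons (W230 D T h) mem_nil)) mem_nil cw542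
theorem W543 : WFK w543 := fun D T h => wf_of_chk h (mem_cons (W1 D T h) (mem_cons (W230 D T h) mem_nil)) mem_nil cw543
theorem W544 : WFK w544 := fun D T h => wf_of_chk h (mem_cons (W69 D T h) (mem_cons (W144 D T h) mem_nil)) mem_nil cw544
theorem W545 : WFK w545 := fun D T h => wf_of_chk h mem_nil (mem_cons (L5 D T h) mem_nil) cw545
theorem W546 : WFK w546 := fun D T h => wf_of_chk h (mem_cons (W545 D T h) (mem_cons (W16 D T h) mem_nil)) mem_nil cw546
theorem W547 : WFK w547 := fun D T h => wf_of_chk h (mem_cons (W69 D T h) (mem_cons (W230 D T h) mem_nil)) mem_nil cw547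
theorem W548 : WFK w548 := fun D T h => wf_of_chk h mem_nil (mem_cons (L119 D T h) mem_nil) cw548
theorem W549 : WFK w549 := fun D T h => wf_of_chk h (mem_cons (W16 D T h) mem_nil) mem_nil cw549
theorem W550 : WFK w550 := fun D T h => wf_of_chk h (mem_cons (W241 D T h) (mem_cons (W175 D T h) mem_nil)) mem_nil cw550
theorem W551 : WFK w551 := fun D T h => wf_of_chk h (mem_cons (W230 D T h) mem_nil) mem_nil cw551
theorem W552 : WFK w552 := fun D T h => wf_of_chk h (mem_cons (W144 D T h) mem_nil) mem_nil cw552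
theorem W553 : WFK w553 := fun D T h => wf_of_chk h (mem_cons (W230 D T h) mem_nil) mem_nil cw553
theorem W554 : WFK w554 := fun D T h => wf_of_chk h (mem_cons (W69 D T h) mem_nil) mem_nil cw554
theorem W555 : WFK w555 := fun D T h => wf_of_chk h (mem_cons (W554 D T h) (mem_cons (W16 D T h) mem_nil)) mem_nil cw555
theorem W556 : WFK w556 := fun D T h => wf_of_chk h mem_nil (mem_cons (L30 D T h) mem_nil) cw556
theorem W557 : WFK w557 := fun D T h => wf_of_chk h mem_nil (mem_cons (L9 D T h) mem_nil) cw557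
theorem W558 : WFK w558 := fun D T h => wf_of_chk h (mem_cons (W557 D T h) (mem_cons (W16 D T h) mem_nil)) mem_nil cw558
theorem W559 : WFK w559 := fun D T h => wf_of_chk h mem_nil (mem_cons (L85 D T h) mem_nil) cw559
theorem W560 : WFK w560 := fun D T h => wf_of_chk h (mem_cons (W559 D T h) (mem_cons (W16 D T h) mem_nil)) mem_nil cw560
theorem W561 : WFK w561 := fun D T h => wf_of_chk h (mem_cons (W241 D T h) (mem_cons (W230 D T h) mem_nil)) mem_nil cw561
theorem L121 : LFK l121 := fun D T h => lf_of_chk h (mem_cons (W515 D T h) (mem_cons (W535 D T h) (mem_cons (W536 D T h) (mem_cons (W537 D T h) (mem_cons (W175 D T h) (mem_cons (W144 D T h) (mem_cons (W528 D T h) (mem_cons (W494 D T h) (mem_cons (W529 D T h) (mem_cons (W548 D T h) (mem_cons (W549 D T h) (mem_cons (W550 D T h) (mem_cons (W527 D T h) (mem_cons (W16 D T h) (mem_cons (W487 D T h) (mem_cons (W516 D T h) (mem_cons (W517 D T h) (mem_cons (W518 D T h) (mem_cons (W162 D T h) (mem_cons (W530 D T h) (mem_cons (W531 D T h) (mem_cons (W532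 D T h) (mem_cons (W533 D T h) (mem_cons (W167 D T h) (mem_cons (W534 D T h) (mem_cons (W519 D T h) (mem_cons (W521 D T h) (mem_cons (W522 D T h) (mem_cons (W523 D T h) (mem_cons (W524 D T h) (mem_cons (W128 D T h) (mem_cons (W525 D T h) (mem_cons (W526 D T h) (mem_cons (W538 D T h) (mem_cons (W540 D T h) (mem_cons (W541 D T h) (mem_cons (W362 D T h) (mem_cons (W542 D T h) (mem_cons (W543 D T h) (mem_cons (W544 D T h) (mem_cons (W546 D T h) (mem_cons (W547 D T h) (mem_cons (W551 D T h) (mem_cons (W552 D T h) (mem_cons (W553 D T h) (mem_cons (W555 D T h) (mem_cons (W556 D T h) (mem_cons (W558 D T h) (mem_cons (W267 D T h) (mem_cons (W560 D T h) (mem_cons (W561 D T h) mem_nil))))))))))))))))))))))))))))))))))))))))))))))))))) cl121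
theorem W562 : WFK w562 := fun D T h => wf_of_chk h mem_nil (mem_cons (L121 D T h) mem_nil) cw562
theorem W563 : WFK w563 := fun D T h => wf_of_chk h (mem_cons (W69 D T h) (mem_cons (W15 D T h) mem_nil)) mem_nil cw563
theorem W564 : WFK w564 := fun D T h => wf_of_chk h (mem_cons (W15 D T h) mem_nil) mem_nil cw564
theorem W565 : WFK w565 := fun D T h => wf_of_chk h (mem_cons (W112 D T h) (mem_cons (W15 D T h) mem_nil)) mem_nil cw565
theorem W567 : WFK w567 := fun D T h => wf_of_chk h (mem_cons (W15 D T h) mem_nil) mem_nil cw567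
theorem W569 : WFK w569 := fun D T h => wf_of_chk h mem_nil (mem_cons (L5 D T h) mem_nil) cw569
theorem W571 : WFK w571 := fun D T h => wf_of_chk h (mem_cons (W1 D T h) (mem_cons (W15 D T h) mem_nil)) mem_nil cw571
theorem W572 : WFK w572 := fun D T h => wf_of_chk h mem_nil (mem_cons (L57 D T h) mem_nil) cw572
theorem W573 : WFK w573 := fun D T h => wf_of_chk h (mem_cons (W15 D T h) mem_nil) mem_nil cw573
theorem W576 : WFK w576 := fun D T h => wf_of_chk h mem_nil (mem_cons (L57 D T h) mem_nil) cw576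
theorem W577 : WFK w577 := fun D T h => wf_of_chk h (mem_cons (W1 D T h) mem_nil) mem_nil cw577
theorem W579 : WFK w579 := fun D T h => wf_of_chk h (mem_cons (W91 D T h) (mem_cons (W15 D T h) mem_nil)) mem_nil cw579
theorem W581 : WFK w581 := fun D T h => wf_of_chk h mem_nil (mem_cons (L0 D T h) mem_nil) cw581
theorem W590 : WFK w590 := fun D T h => wf_of_chk h mem_nil (mem_cons (L52 D T h) mem_nil) cw590
theorem W591 : WFK w591 := fun D T h => wf_of_chk h mem_nil (mem_cons (L12 D T h) mem_nil) cw591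
theorem W592 : WFK w592 := fun D T h => wf_of_chk h (mem_cons (W281 D T h) mem_nil) mem_nil cw592
theorem W593 : WFK w593 := fun D T h => wf_of_chk h (mem_cons (W154 D T h) mem_nil) mem_nil cw593
theorem W594 : WFK w594 := fun D T h => wf_of_chk h (mem_cons (W429 D T h) mem_nil) mem_nil cw594
theorem W595 : WFK w595 := fun D T h => wf_of_chk h (mem_cons (W431 D T h) mem_nil) mem_nil cw595
theorem W596 : WFK w596 := fun D T h => wf_of_chk h (mem_cons (W431 D T h) mem_nil) mem_nil cw596
theorem W597 : WFK w597 := fun D T h => wf_of_chk h mem_nil mem_nil cw597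
theorem W598 : WFK w598 := fun D T h => wf_of_chk h mem_nil (mem_cons (L52 D T h) mem_nil) cw598
theorem W599 : WFK w599 := fun D T h => wf_of_chk h mem_nil (mem_cons (L52 D T h) mem_nil) cw599
theorem L122 : LFK l122 := fun D T h => lf_of_chk h (mem_cons (W590 D T h) (mem_cons (W591 D T h) (mem_cons (W15 D T h) (mem_cons (W192 D T h) (mem_cons (W198 D T h) (mem_cons (W141 D T h) (mem_cons (W592 D T h) (mem_cons (W593 D T h) (mem_cons (W594 D T h) (mem_cons (W595 D T h) (mem_cons (W596 D T h) (mem_cons (W597 D T h) (mem_cons (W598 D T h) (mem_cons (W599 D T h) mem_nil)))))))))))))) cl122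
theorem W600 : WFK w600 := fun D T h => wf_of_chk h mem_nil (mem_cons (L122 D T h) mem_nil) cw600
theorem W601 : WFK w601 := fun D T h => wf_of_chk h (mem_cons (W69 D T h) mem_nil) mem_nil cw601
theorem W602 : WFK w602 := fun D T h => wf_of_chk h mem_nil (mem_cons (L12 D T h) mem_nil) cw602
theorem W603 : WFK w603 := fun D T h => wf_of_chk h mem_nil (mem_cons (L1 D T h) mem_nil) cw603
theorem W604 : WFK w604 := fun D T h => wf_of_chk h mem_nil (mem_cons (L15 D T h) mem_nil) cw604
theorem W605 : WFK w605 := fun D T h => wf_of_chk h mem_nil (mem_cons (L52 D T h) mem_nil) cw605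
theorem L123 : LFK l123 := fun D T h => lf_of_chk h (mem_cons (W592 D T h) (mem_cons (W602 D T h) (mem_cons (W1 D T h) (mem_cons (W192 D T h) (mem_cons (W198 D T h) (mem_cons (W603 D T h) (mem_cons (W604 D T h) (mem_cons (W597 D T h) (mem_cons (W605 D T h) (mem_cons (W599 D T h) mem_nil)))))))))) cl123
theorem W606 : WFK w606 := fun D T h => wf_of_chk h mem_nil (mem_cons (L123 D T h) mem_nil) cw606
theorem L124 : LFK l124 := fun D T h => lf_of_chk h mem_nil cl124
theorem W608 : WFK w608 := fun D T h => wf_of_chk h mem_nil (mem_cons (L124 D T h) mem_nil) cw608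
theorem L125 : LFK l125 := fun D T h => lf_of_chk h (mem_cons (W142 D T h) (mem_cons (W1 D T h) (mem_cons (W69 D T h) (mem_cons (W86 D T h) (mem_cons (W33 D T h) (mem_cons (W78 D T h) (mem_cons (W67 D T h) (mem_cons (W143 D T h) mem_nil)))))))) cl125
theorem W616 : WFK w616 := fun D T h => wf_of_chk h mem_nil (mem_cons (L125 D T h) mem_nil) cw616
theorem W617 : WFK w617 := fun D T h => wf_of_chk h mem_nil mem_nil cw617
theorem W618 : WFK w618 := fun D T h => wf_of_chk h mem_nil (mem_cons (L116 D T h) mem_nil) cw618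
theorem L126 : LFK l126 := fun D T h => lf_of_chk h (mem_cons (W211 D T h) (mem_cons (W5 D T h) (mem_cons (W6 D T h) mem_nil))) cl126
theorem W619 : WFK w619 := fun D T h => wf_of_chk h mem_nil (mem_cons (L126 D T h) mem_nil) cw619
theorem L127 : LFK l127 := fun D T h => lf_of_chk h (mem_cons (W3 D T h) (mem_cons (W191 D T h) (mem_cons (W619 D T h) (mem_cons (W12 D T h) (mem_cons (W11 D T h) (mem_cons (W13 D T h) mem_nil)))))) cl127
theorem W620 : WFK w620 := fun D T h => wf_of_chk h mem_nil (mem_cons (L127 D T h) mem_nil) cw620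
theorem W621 : WFK w621 := fun D T h => wf_of_chk h (mem_cons (W69 D T h) mem_nil) mem_nil cw621
theorem W622 : WFK w622 := fun D T h => wf_of_chk h (mem_cons (W1 D T h) (mem_cons (W69 D T h) mem_nil)) mem_nil cw622
theorem W624 : WFK w624 := fun D T h => wf_of_chk h (mem_cons (W69 D T h) mem_nil) mem_nil cw624
theorem W627 : WFK w627 := fun D T h => wf_of_chk h (mem_cons (W69 D T h) mem_nil) mem_nil cw627
theorem W628 : WFK w628 := fun D T h => wf_of_chk h (mem_cons (W1 D T h) mem_nil) mem_nil cw628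
theorem W629 : WFK w629 := fun D T h => wf_of_chk h mem_nil (mem_cons (L1 D T h) mem_nil) cw629
theorem W632 : WFK w632 := fun D T h => wf_of_chk h mem_nil (mem_cons (L5 D T h) mem_nil) cw632
theorem W633 : WFK w633 := fun D T h => wf_of_chk h mem_nil (mem_cons (L26 D T h) mem_nil) cw633
theorem L129 : LFK l129 := fun D T h => lf_of_chk h mem_nil cl129
theorem W638 : WFK w638 := fun D T h => wf_of_chk h mem_nil (mem_cons (L129 D T h) mem_nil) cw638
theorem W642 : WFK w642 := fun D T h => wf_of_chk h mem_nil (mem_cons (L29 D T h) mem_nil) cw642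
theorem W644 : WFK w644 := fun D T h => wf_of_chk h mem_nil (mem_cons (L30 D T h) mem_nil) cw644
theorem W645 : WFK w645 := fun D T h => wf_of_chk h (mem_cons (W1 D T h) (mem_cons (W505 D T h) mem_nil)) mem_nil cw645
theorem W646 : WFK w646 := fun D T h => wf_of_chk h mem_nil mem_nil cw646
theorem W648 : WFK w648 := fun D T h => wf_of_chk h mem_nil (mem_cons (L0 D T h) mem_nil) cw648
theorem W650 : WFK w650 := fun D T h => wf_of_chk h mem_nil (mem_cons (L72 D T h) mem_nil) cw650
theorem W651 : WFK w651 := fun D T h => wf_of_chk h mem_nil (mem_cons (L28 D T h) mem_nil) cw651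
theorem W652 : WFK w652 := fun D T h => wf_of_chk h mem_nil (mem_cons (L8 D T h) mem_nil) cw652
theorem W659 : WFK w659 := fun D T h => wf_of_chk h mem_nil mem_nil cw659
theorem W667 : WFK w667 := fun D T h => wf_of_chk h mem_nil (mem_cons (L45 D T h) mem_nil) cw667
theorem W668 : WFK w668 := fun D T h => wf_of_chk h (mem_cons (W667 D T h) (mem_cons (W175 D T h) mem_nil)) mem_nil cw668
theorem W669 : WFK w669 := fun D T h => wf_of_chk h mem_nil (mem_cons (L7 D T h) mem_nil) cw669
theorem W670 : WFK w670 := fun D T h => wf_of_chk h (mem_cons (W669 D T h) (mem_cons (W175 D T h) mem_nil)) mem_nil cw670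
theorem W671 : WFK w671 := fun D T h => wf_of_chk h mem_nil (mem_cons (L121 D T h) mem_nil) cw671
theorem W672 : WFK w672 := fun D T h => wf_of_chk h (mem_cons (W50 D T h) (mem_cons (W175 D T h) mem_nil)) mem_nil cw672
theorem W673 : WFK w673 := fun D T h => wf_of_chk h (mem_cons (W505 D T h) (mem_cons (W16 D T h) mem_nil)) mem_nil cw673
theorem W674 : WFK w674 := fun D T h => wf_of_chk h (mem_cons (W505 D T h) (mem_cons (W16 D T h) mem_nil)) mem_nil cw674
theorem L133 : LFK l133 := fun D T h => lf_of_chk h (mem_cons (W8 D T h) (mem_cons (W5 D T h) (mem_cons (W123 D T h) (mem_cons (W122 D T h) (mem_cons (W6 D T h) (mem_cons (W192 D T h) (mem_cons (W193 D T h) mem_nil))))))) cl133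
theorem W675 : WFK w675 := fun D T h => wf_of_chk h mem_nil (mem_cons (L133 D T h) mem_nil) cw675
theorem L134 : LFK l134 := fun D T h => lf_of_chk h (mem_cons (W281 D T h) (mem_cons (W38 D T h) (mem_cons (W233 D T h) (mem_cons (W4 D T h) (mem_cons (W331 D T h) (mem_cons (W265 D T h) (mem_cons (W168 D T h) (mem_cons (W10 D T h) (mem_cons (W675 D T h) (mem_cons (W328 D T h) (mem_cons (W329 D T h) (mem_cons (W330 D T h) (mem_cons (W172 D T h) mem_nil))))))))))))) cl134
theorem W676 : WFK w676 := fun D T h => wf_of_chk h mem_nil (mem_cons (L134 D T h) mem_nil) cw676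
theorem W677 : WFK w677 := fun D T h => wf_of_chk h (mem_cons (W676 D T h) (mem_cons (W16 D T h) mem_nil)) mem_nil cw677
theorem W678 : WFK w678 := fun D T h => wf_of_chk h (mem_cons (W34 D T h) (mem_cons (W177 D T h) mem_nil)) mem_nil cw678
theorem W679 : WFK w679 := fun D T h => wf_of_chk h (mem_cons (W162 D T h) (mem_cons (W175 D T h) mem_nil)) mem_nil cw679
theorem W680 : WFK w680 := fun D T h => wf_of_chk h (mem_cons (W164 D T h) (mem_cons (W175 D T h) mem_nil)) mem_nil cw680
theorem W681 : WFK w681 := fun D T h => wf_of_chk h (mem_cons (W42 D T h) (mem_cons (W175 D T h) mem_nil)) mem_nil cw681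
theorem L135 : LFK l135 := fun D T h => lf_of_chk h (mem_cons (W176 D T h) (mem_cons (W177 D T h) (mem_cons (W175 D T h) (mem_cons (W16 D T h) (mem_cons (W386 D T h) (mem_cons (W511 D T h) (mem_cons (W162 D T h) (mem_cons (W678 D T h) (mem_cons (W679 D T h) (mem_cons (W680 D T h) (mem_cons (W681 D T h) (mem_cons (W167 D T h) (mem_cons (W512 D T h) (mem_cons (W83 D T h) (mem_cons (W487 D T h) (mem_cons (W128 D T h) (mem_cons (W513 D T h) (mem_cons (W514 D T h) (mem_cons (W562 D T h) (mem_cons (W668 D T h) (mem_cons (W670 D T h) (mem_cons (W671 D T h) (mem_cons (W672 D T h) (mem_cons (W180 D T h) (mem_cons (W182 D T h) (mem_cons (W183 D T h) (mem_cons (W184 D T h) (mem_cons (W185 D T h) (mem_cons (W186 D T h) (mem_cons (W196 D T h) (mem_cons (W365 D T h) (mem_cons (W178 D T h) (mem_cons (W179 D T h) (mem_cons (W366 D T h) (mem_cons (W367 D T h) (mem_cons (W369 D T h) (mem_cons (W673 D T h) (mem_cons (W674 D T h) (mem_cons (W620 D T h) (mem_cons (W677 D T h) (mem_cons (W267 D T h) (mem_cons (W371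 D T h) (mem_cons (W372 D T h) (mem_cons (W374 D T h) (mem_cons (W376 D T h) (mem_cons (W383 D T h) (mem_cons (W385 D T h) mem_nil))))))))))))))))))))))))))))))))))))))))))))))) cl135
theorem W682 : WFK w682 := fun D T h => wf_of_chk h mem_nil (mem_cons (L135 D T h) mem_nil) cw682
theorem W683 : WFK w683 := fun D T h => wf_of_chk h (mem_cons (W27 D T h) (mem_cons (W16 D T h) mem_nil)) mem_nil cw683
theorem W684 : WFK w684 := fun D T h => wf_of_chk h mem_nil (mem_cons (L13 D T h) mem_nil) cw684
theorem W685 : WFK w685 := fun D T h => wf_of_chk h mem_nil mem_nil cw685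
theorem L136 : LFK l136 := fun D T h => lf_of_chk h (mem_cons (W181 D T h) (mem_cons (W16 D T h) mem_nil)) cl136
theorem W686 : WFK w686 := fun D T h => wf_of_chk h mem_nil (mem_cons (L136 D T h) mem_nil) cw686
theorem W687 : WFK w687 := fun D T h => wf_of_chk h (mem_cons (W16 D T h) mem_nil) mem_nil cw687
theorem W688 : WFK w688 := fun D T h => wf_of_chk h mem_nil (mem_cons (L13 D T h) mem_nil) cw688
theorem W689 : WFK w689 := fun D T h => wf_of_chk h mem_nil (mem_cons (L13 D T h) mem_nil) cw689
theorem W690 : WFK w690 := fun D T h => wf_of_chk h (mem_cons (W105 D T h) mem_nil) mem_nil cw690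
theorem W691 : WFK w691 := fun D T h => wf_of_chk h mem_nil mem_nil cw691
theorem W692 : WFK w692 := fun D T h => wf_of_chk h (mem_cons (W685 D T h) (mem_cons (W16 D T h) mem_nil)) mem_nil cw692
theorem L137 : LFK l137 := fun D T h => lf_of_chk h (mem_cons (W684 D T h) (mem_cons (W687 D T h) (mem_cons (W230 D T h) (mem_cons (W25 D T h) (mem_cons (W685 D T h) (mem_cons (W16 D T h) (mem_cons (W688 D T h) (mem_cons (W689 D T h) (mem_cons (W690 D T h) (mem_cons (W197 D T h) (mem_cons (W686 D T h) (mem_cons (W691 D T h) (mem_cons (W239 D T h) (mem_cons (W692 D T h) mem_nil)))))))))))))) cl137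
theorem W693 : WFK w693 := fun D T h => wf_of_chk h mem_nil (mem_cons (L137 D T h) mem_nil) cw693
theorem L138 : LFK l138 := fun D T h => lf_of_chk h (mem_cons (W1 D T h) mem_nil) cl138
theorem W694 : WFK w694 := fun D T h => wf_of_chk h mem_nil (mem_cons (L138 D T h) mem_nil) cw694
theorem W695 : WFK w695 := fun D T h => wf_of_chk h (mem_cons (W694 D T h) (mem_cons (W16 D T h) mem_nil)) mem_nil cw695
theorem W696 : WFK w696 := fun D T h => wf_of_chk h mem_nil (mem_cons (L25 D T h) mem_nil) cw696
theorem W697 : WFK w697 := fun D T h => wf_of_chk h (mem_cons (W696 D T h) (mem_cons (W16 D T h) mem_nil)) mem_nil cw697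
theorem L139 : LFK l139 := fun D T h => lf_of_chk h (mem_cons (W64 D T h) (mem_cons (W682 D T h) (mem_cons (W32 D T h) (mem_cons (W63 D T h) (mem_cons (W16 D T h) (mem_cons (W100 D T h) (mem_cons (W121 D T h) (mem_cons (W147 D T h) (mem_cons (W156 D T h) (mem_cons (W157 D T h) (mem_cons (W163 D T h) (mem_cons (W165 D T h) (mem_cons (W166 D T h) (mem_cons (W167 D T h) (mem_cons (W127 D T h) (mem_cons (W65 D T h) (mem_cons (W101 D T h) (mem_cons (W128 D T h) (mem_cons (W129 D T h) (mem_cons (W130 D T h) (mem_cons (W131 D T h) (mem_cons (W132 D T h) (mem_cons (W40 D T h) (mem_cons (W133 D T h) (mem_cons (W134 D T h) (mem_cons (W139 D T h) (mem_cons (W145 D T h) (mem_cons (W146 D T h) (mem_cons (W683 D T h) (mem_cons (W693 D T h) (mem_cons (W47 D T h) (mem_cons (W695 D T h) (mem_cons (W697 D T h) mem_nil))))))))))))))))))))))))))))))))) cl139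
theorem W698 : WFK w698 := fun D T h => wf_of_chk h mem_nil (mem_cons (L139 D T h) mem_nil) cw698
theorem W699 : WFK w699 := fun D T h => wf_of_chk h mem_nil (mem_cons (L20 D T h) mem_nil) cw699
theorem W700 : WFK w700 := fun D T h => wf_of_chk h mem_nil (mem_cons (L20 D T h) mem_nil) cw700
theorem W701 : WFK w701 := fun D T h => wf_of_chk h mem_nil (mem_cons (L20 D T h) mem_nil) cw701
theorem W702 : WFK w702 := fun D T h => wf_of_chk h (mem_cons (W16 D T h) mem_nil) mem_nil cw702
theorem W703 : WFK w703 := fun D T h => wf_of_chk h mem_nil (mem_cons (L16 D T h) mem_nil) cw703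
theorem W704 : WFK w704 := fun D T h => wf_of_chk h mem_nil (mem_cons (L139 D T h) mem_nil) cw704
theorem W705 : WFK w705 := fun D T h => wf_of_chk h (mem_cons (W16 D T h) (mem_cons (W38 D T h) mem_nil)) mem_nil cw705
theorem W706 : WFK w706 := fun D T h => wf_of_chk h mem_nil mem_nil cw706
theorem L140 : LFK l140 := fun D T h => lf_of_chk h (mem_cons (W25 D T h) (mem_cons (W706 D T h) mem_nil)) cl140
theorem W707 : WFK w707 := fun D T h => wf_of_chk h mem_nil (mem_cons (L140 D T h) mem_nil) cw707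
theorem L141 : LFK l141 := fun D T h => lf_of_chk h (mem_cons (W38 D T h) (mem_cons (W42 D T h) (mem_cons (W162 D T h) (mem_cons (W39 D T h) (mem_cons (W3 D T h) (mem_cons (W154 D T h) (mem_cons (W40 D T h) (mem_cons (W41 D T h) (mem_cons (W707 D T h) (mem_cons (W29 D T h) (mem_cons (W44 D T h) (mem_cons (W45 D T h) (mem_cons (W46 D T h) (mem_cons (W47 D T h) mem_nil)))))))))))))) cl141
theorem W708 : WFK w708 := fun D T h => wf_of_chk h mem_nil (mem_cons (L141 D T h) mem_nil) cw708
theorem L142 : LFK l142 := fun D T h => lf_of_chk h (mem_cons (W48 D T h) (mem_cons (W37 D T h) (mem_cons (W32 D T h) (mem_cons (W38 D T h) (mem_cons (W61 D T h) (mem_cons (W702 D T h) (mem_cons (W703 D T h) (mem_cons (W704 D T h) (mem_cons (W705 D T h) (mem_cons (W708 D T h) (mem_cons (W62 D T h) (mem_cons (W698 D T h) (mem_cons (W699 D T h) (mem_cons (W700 D T h) (mem_cons (W701 D T h) (mem_cons (W49 D T h) (mem_cons (W51 D T h) (mem_cons (W60 D T h) mem_nil)))))))))))))))))) cl142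
theorem W709 : WFK w709 := fun D T h => wf_of_chk h mem_nil (mem_cons (L142 D T h) mem_nil) cw709
theorem L143 : LFK l143 := fun D T h => lf_of_chk h (mem_cons (W1 D T h) (mem_cons (W709 D T h) (mem_cons (W4 D T h) (mem_cons (W33 D T h) (mem_cons (W91 D T h) (mem_cons (W158 D T h) (mem_cons (W109 D T h) (mem_cons (W10 D T h) (mem_cons (W281 D T h) mem_nil))))))))) cl143
theorem W710 : WFK w710 := fun D T h => wf_of_chk h mem_nil (mem_cons (L143 D T h) mem_nil) cw710
theorem L144 : LFK l144 := fun D T h => lf_of_chk h (mem_cons (W154 D T h) (mem_cons (W158 D T h) (mem_cons (W149 D T h) (mem_cons (W160 D T h) (mem_cons (W432 D T h) (mem_cons (W1 D T h) (mem_cons (W15 D T h) (mem_cons (W161 D T h) mem_nil)))))))) cl144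
theorem W711 : WFK w711 := fun D T h => wf_of_chk h mem_nil (mem_cons (L144 D T h) mem_nil) cw711
theorem W712 : WFK w712 := fun D T h => wf_of_chk h mem_nil (mem_cons (L0 D T h) mem_nil) cw712
theorem W713 : WFK w713 := fun D T h => wf_of_chk h mem_nil (mem_cons (L0 D T h) mem_nil) cw713
theorem W714 : WFK w714 := fun D T h => wf_of_chk h mem_nil (mem_cons (L0 D T h) mem_nil) cw714
theorem W715 : WFK w715 := fun D T h => wf_of_chk h mem_nil (mem_cons (L4 D T h) mem_nil) cw715
theorem W716 : WFK w716 := fun D T h => wf_of_chk h mem_nil (mem_cons (L103 D T h) mem_nil) cw716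
theorem L145 : LFK l145 := fun D T h => lf_of_chk h mem_nil cl145
theorem W717 : WFK w717 := fun D T h => wf_of_chk h mem_nil (mem_cons (L145 D T h) mem_nil) cw717
theorem W718 : WFK w718 := fun D T h => wf_of_chk h mem_nil (mem_cons (L129 D T h) mem_nil) cw718
theorem W719 : WFK w719 := fun D T h => wf_of_chk h mem_nil (mem_cons (L129 D T h) mem_nil) cw719
theorem W720 : WFK w720 := fun D T h => wf_of_chk h mem_nil (mem_cons (L48 D T h) mem_nil) cw720
theorem W721 : WFK w721 := fun D T h => wf_of_chk h mem_nil (mem_cons (L44 D T h) mem_nil) cw721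
theorem W722 : WFK w722 := fun D T h => wf_of_chk h mem_nil (mem_cons (L0 D T h) mem_nil) cw722
theorem L146 : LFK l146 := fun D T h => lf_of_chk h (mem_cons (W42 D T h) (mem_cons (W3 D T h) (mem_cons (W39 D T h) (mem_cons (W143 D T h) (mem_cons (W720 D T h) (mem_cons (W267 D T h) (mem_cons (W638 D T h) (mem_cons (W220 D T h) (mem_cons (W721 D T h) (mem_cons (W431 D T h) (mem_cons (W722 D T h) (mem_cons (W86 D T h) (mem_cons (W212 D T h) (mem_cons (W712 D T h) (mem_cons (W713 D T h) (mem_cons (W581 D T h) (mem_cons (W714 D T h) (mem_cons (W715 D T h) (mem_cons (W716 D T h) (mem_cons (W717 D T h) (mem_cons (W718 D T h) (mem_cons (W719 D T h) mem_nil)))))))))))))))))))))) cl146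
theorem W723 : WFK w723 := fun D T h => wf_of_chk h mem_nil (mem_cons (L146 D T h) mem_nil) cw723
theorem W724 : WFK w724 := fun D T h => wf_of_chk h mem_nil mem_nil cw724
theorem L147 : LFK l147 := fun D T h => lf_of_chk h (mem_cons (W67 D T h) mem_nil) cl147
theorem W725 : WFK w725 := fun D T h => wf_of_chk h mem_nil (mem_cons (L147 D T h) mem_nil) cw725
theorem W726 : WFK w726 := fun D T h => wf_of_chk h mem_nil (mem_cons (L143 D T h) mem_nil) cw726
theorem W727 : WFK w727 := fun D T h => wf_of_chk h (mem_cons (W726 D T h) mem_nil) mem_nil cw727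
theorem W728 : WFK w728 := fun D T h => wf_of_chk h mem_nil mem_nil cw728
theorem L148 : LFK l148 := fun D T h => lf_of_chk h (mem_cons (W210 D T h) (mem_cons (W5 D T h) (mem_cons (W728 D T h) mem_nil))) cl148
theorem W729 : WFK w729 := fun D T h => wf_of_chk h mem_nil (mem_cons (L148 D T h) mem_nil) cw729
theorem W730 : WFK w730 := fun D T h => wf_of_chk h mem_nil (mem_cons (L46 D T h) mem_nil) cw730
theorem W731 : WFK w731 := fun D T h => wf_of_chk h mem_nil (mem_cons (L90 D T h) mem_nil) cw731
theorem W732 : WFK w732 := fun D T h => wf_of_chk h mem_nil mem_nil cw732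
theorem W733 : WFK w733 := fun D T h => wf_of_chk h mem_nil (mem_cons (L72 D T h) mem_nil) cw733
theorem W734 : WFK w734 := fun D T h => wf_of_chk h mem_nil (mem_cons (L28 D T h) mem_nil) cw734
theorem L149 : LFK l149 := fun D T h => lf_of_chk h (mem_cons (W212 D T h) (mem_cons (W10 D T h) (mem_cons (W71 D T h) (mem_cons (W734 D T h) (mem_cons (W729 D T h) (mem_cons (W53 D T h) (mem_cons (W730 D T h) (mem_cons (W731 D T h) (mem_cons (W732 D T h) (mem_cons (W733 D T h) mem_nil)))))))))) cl149
theorem W735 : WFK w735 := fun D T h => wf_of_chk h mem_nil (mem_cons (L149 D T h) mem_nil) cw735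
theorem W736 : WFK w736 := fun D T h => wf_of_chk h mem_nil (mem_cons (L146 D T h) mem_nil) cw736
theorem W737 : WFK w737 := fun D T h => wf_of_chk h mem_nil (mem_cons (L146 D T h) mem_nil) cw737
theorem W738 : WFK w738 := fun D T h => wf_of_chk h mem_nil (mem_cons (L146 D T h) mem_nil) cw738
theorem W739 : WFK w739 := fun D T h => wf_of_chk h mem_nil (mem_cons (L146 D T h) mem_nil) cw739
theorem W740 : WFK w740 := fun D T h => wf_of_chk h mem_nil mem_nil cw740
theorem L150 : LFK l150 := fun D T h => lf_of_chk h mem_nil cl150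
theorem W741 : WFK w741 := fun D T h => wf_of_chk h mem_nil (mem_cons (L150 D T h) mem_nil) cw741
theorem W742 : WFK w742 := fun D T h => wf_of_chk h mem_nil (mem_cons (L145 D T h) mem_nil) cw742
theorem W743 : WFK w743 := fun D T h => wf_of_chk h mem_nil (mem_cons (L66 D T h) mem_nil) cw743
theorem L151 : LFK l151 := fun D T h => lf_of_chk h (mem_cons (W267 D T h) (mem_cons (W3 D T h) (mem_cons (W39 D T h) (mem_cons (W143 D T h) (mem_cons (W720 D T h) (mem_cons (W263 D T h) (mem_cons (W168 D T h) (mem_cons (W391 D T h) (mem_cons (W740 D T h) (mem_cons (W734 D T h) (mem_cons (W256 D T h) (mem_cons (W258 D T h) (mem_cons (W255 D T h) (mem_cons (W257 D T h) (mem_cons (W741 D T h) (mem_cons (W652 D T h) (mem_cons (W742 D T h) (mem_cons (W717 D T h) (mem_cons (W262 D T h) (mem_cons (W743 D T h) mem_nil)))))))))))))))))))) cl151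
theorem W744 : WFK w744 := fun D T h => wf_of_chk h mem_nil (mem_cons (L151 D T h) mem_nil) cw744
theorem W745 : WFK w745 := fun D T h => wf_of_chk h mem_nil mem_nil cw745
theorem W746 : WFK w746 := fun D T h => wf_of_chk h mem_nil (mem_cons (L44 D T h) mem_nil) cw746
theorem W747 : WFK w747 := fun D T h => wf_of_chk h mem_nil (mem_cons (L44 D T h) mem_nil) cw747
theorem W748 : WFK w748 := fun D T h => wf_of_chk h mem_nil (mem_cons (L44 D T h) mem_nil) cw748
theorem L152 : LFK l152 := fun D T h => lf_of_chk h mem_nil cl152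
theorem W749 : WFK w749 := fun D T h => wf_of_chk h mem_nil (mem_cons (L152 D T h) mem_nil) cw749
theorem W750 : WFK w750 := fun D T h => wf_of_chk h mem_nil (mem_cons (L8 D T h) mem_nil) cw750
theorem W751 : WFK w751 := fun D T h => wf_of_chk h mem_nil (mem_cons (L145 D T h) mem_nil) cw751
theorem W752 : WFK w752 := fun D T h => wf_of_chk h mem_nil (mem_cons (L145 D T h) mem_nil) cw752
theorem W753 : WFK w753 := fun D T h => wf_of_chk h mem_nil mem_nil cw753
theorem W754 : WFK w754 := fun D T h => wf_of_chk h mem_nil (mem_cons (L145 D T h) mem_nil) cw754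
theorem L153 : LFK l153 := fun D T h => lf_of_chk h (mem_cons (W721 D T h) (mem_cons (W3 D T h) (mem_cons (W39 D T h) (mem_cons (W143 D T h) (mem_cons (W720 D T h) (mem_cons (W263 D T h) (mem_cons (W281 D T h) (mem_cons (W754 D T h) (mem_cons (W745 D T h) (mem_cons (W734 D T h) (mem_cons (W746 D T h) (mem_cons (W258 D T h) (mem_cons (W747 D T h) (mem_cons (W748 D T h) (mem_cons (W749 D T h) (mem_cons (W750 D T h) (mem_cons (W742 D T h) (mem_cons (W717 D T h) (mem_cons (W751 D T h) (mem_cons (W752 D T h) (mem_cons (W753 D T h) mem_nil))))))))))))))))))))) cl153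
theorem W755 : WFK w755 := fun D T h => wf_of_chk h mem_nil (mem_cons (L153 D T h) mem_nil) cw755
theorem L154 : LFK l154 := fun D T h => lf_of_chk h (mem_cons (W754 D T h) (mem_cons (W3 D T h) (mem_cons (W39 D T h) (mem_cons (W143 D T h) (mem_cons (W720 D T h) (mem_cons (W740 D T h) (mem_cons (W734 D T h) (mem_cons (W256 D T h) (mem_cons (W258 D T h) (mem_cons (W255 D T h) (mem_cons (W257 D T h) (mem_cons (W741 D T h) (mem_cons (W652 D T h) (mem_cons (W230 D T h) mem_nil)))))))))))))) cl154
theorem W756 : WFK w756 := fun D T h => wf_of_chk h mem_nil (mem_cons (L154 D T h) mem_nil) cw756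
theorem W757 : WFK w757 := fun D T h => wf_of_chk h mem_nil (mem_cons (L23 D T h) mem_nil) cw757
theorem L155 : LFK l155 := fun D T h => lf_of_chk h (mem_cons (W754 D T h) (mem_cons (W3 D T h) (mem_cons (W39 D T h) (mem_cons (W143 D T h) (mem_cons (W720 D T h) (mem_cons (W86 D T h) (mem_cons (W734 D T h) (mem_cons (W712 D T h) (mem_cons (W713 D T h) (mem_cons (W581 D T h) (mem_cons (W714 D T h) (mem_cons (W715 D T h) (mem_cons (W742 D T h) (mem_cons (W717 D T h) (mem_cons (W751 D T h) (mem_cons (W752 D T h) (mem_cons (W753 D T h) mem_nil))))))))))))))))) cl155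
theorem W758 : WFK w758 := fun D T h => wf_of_chk h mem_nil (mem_cons (L155 D T h) mem_nil) cw758
theorem L156 : LFK l156 := fun D T h => lf_of_chk h (mem_cons (W17 D T h) (mem_cons (W91 D T h) (mem_cons (W80 D T h) (mem_cons (W203 D T h) (mem_cons (W202 D T h) (mem_cons (W745 D T h) (mem_cons (W389 D T h) (mem_cons (W3 D T h) (mem_cons (W200 D T h) (mem_cons (W201 D T h) (mem_cons (W199 D T h) mem_nil))))))))))) cl156
theorem W759 : WFK w759 := fun D T h => wf_of_chk h mem_nil (mem_cons (L156 D T h) mem_nil) cw759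
theorem L157 : LFK l157 := fun D T h => lf_of_chk h (mem_cons (W42 D T h) (mem_cons (W16 D T h) (mem_cons (W267 D T h) (mem_cons (W638 D T h) (mem_cons (W220 D T h) (mem_cons (W721 D T h) (mem_cons (W39 D T h) (mem_cons (W722 D T h) (mem_cons (W505 D T h) (mem_cons (W3 D T h) (mem_cons (W461 D T h) (mem_cons (W759 D T h) (mem_cons (W1 D T h) (mem_cons (W712 D T h) (mem_cons (W713 D T h) (mem_cons (W581 D T h) (mem_cons (W714 D T h) mem_nil))))))))))))))))) cl157
theorem W760 : WFK w760 := fun D T h => wf_of_chk h mem_nil (mem_cons (L157 D T h) mem_nil) cw760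
theorem W761 : WFK w761 := fun D T h => wf_of_chk h mem_nil (mem_cons (L1 D T h) mem_nil) cw761
theorem W762 : WFK w762 := fun D T h => wf_of_chk h mem_nil (mem_cons (L46 D T h) mem_nil) cw762
theorem L158 : LFK l158 := fun D T h => lf_of_chk h (mem_cons (W745 D T h) (mem_cons (W281 D T h) (mem_cons (W761 D T h) (mem_cons (W263 D T h) (mem_cons (W762 D T h) (mem_cons (W721 D T h) (mem_cons (W67 D T h) (mem_cons (W16 D T h) (mem_cons (W86 D T h) mem_nil))))))))) cl158
theorem W763 : WFK w763 := fun D T h => wf_of_chk h mem_nil (mem_cons (L158 D T h) mem_nil) cw763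
theorem L159 : LFK l159 := fun D T h => lf_of_chk h (mem_cons (W17 D T h) (mem_cons (W50 D T h) (mem_cons (W177 D T h) (mem_cons (W202 D T h) (mem_cons (W203 D T h) (mem_cons (W763 D T h) (mem_cons (W392 D T h) (mem_cons (W3 D T h) (mem_cons (W200 D T h) (mem_cons (W199 D T h) (mem_cons (W201 D T h) mem_nil))))))))))) cl159
theorem W764 : WFK w764 := fun D T h => wf_of_chk h mem_nil (mem_cons (L159 D T h) mem_nil) cw764
theorem W765 : WFK w765 := fun D T h => wf_of_chk h mem_nil (mem_cons (L103 D T h) mem_nil) cw765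
theorem W766 : WFK w766 := fun D T h => wf_of_chk h mem_nil (mem_cons (L103 D T h) mem_nil) cw766
theorem W767 : WFK w767 := fun D T h => wf_of_chk h mem_nil mem_nil cw767
theorem W768 : WFK w768 := fun D T h => wf_of_chk h mem_nil (mem_cons (L145 D T h) mem_nil) cw768
theorem W769 : WFK w769 := fun D T h => wf_of_chk h mem_nil (mem_cons (L145 D T h) mem_nil) cw769
theorem W770 : WFK w770 := fun D T h => wf_of_chk h mem_nil (mem_cons (L145 D T h) mem_nil) cw770
theorem W771 : WFK w771 := fun D T h => wf_of_chk h mem_nil mem_nil cw771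
theorem L160 : LFK l160 := fun D T h => lf_of_chk h (mem_cons (W716 D T h) (mem_cons (W3 D T h) (mem_cons (W39 D T h) (mem_cons (W12 D T h) (mem_cons (W520 D T h) (mem_cons (W767 D T h) (mem_cons (W216 D T h) (mem_cons (W53 D T h) (mem_cons (W712 D T h) (mem_cons (W713 D T h) (mem_cons (W765 D T h) (mem_cons (W766 D T h) (mem_cons (W715 D T h) (mem_cons (W768 D T h) (mem_cons (W769 D T h) (mem_cons (W770 D T h) (mem_cons (W771 D T h) mem_nil))))))))))))))))) cl160
theorem W772 : WFK w772 := fun D T h => wf_of_chk h mem_nil (mem_cons (L160 D T h) mem_nil) cw772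
theorem W773 : WFK w773 := fun D T h => wf_of_chk h mem_nil (mem_cons (L25 D T h) mem_nil) cw773
theorem W774 : WFK w774 := fun D T h => wf_of_chk h mem_nil mem_nil cw774
theorem W775 : WFK w775 := fun D T h => wf_of_chk h mem_nil (mem_cons (L17 D T h) mem_nil) cw775
theorem W776 : WFK w776 := fun D T h => wf_of_chk h mem_nil mem_nil cw776
theorem W777 : WFK w777 := fun D T h => wf_of_chk h mem_nil (mem_cons (L17 D T h) mem_nil) cw777
theorem L161 : LFK l161 := fun D T h => lf_of_chk h (mem_cons (W149 D T h) (mem_cons (W33 D T h) (mem_cons (W773 D T h) (mem_cons (W774 D T h) (mem_cons (W278 D T h) (mem_cons (W292 D T h) (mem_cons (W775 D T h) (mem_cons (W776 D T h) (mem_cons (W777 D T h) mem_nil))))))))) cl161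
theorem W778 : WFK w778 := fun D T h => wf_of_chk h mem_nil (mem_cons (L161 D T h) mem_nil) cw778
theorem L162 : LFK l162 := fun D T h => lf_of_chk h mem_nil cl162
theorem W779 : WFK w779 := fun D T h => wf_of_chk h mem_nil (mem_cons (L162 D T h) mem_nil) cw779
theorem L163 : LFK l163 := fun D T h => lf_of_chk h mem_nil cl163
theorem W780 : WFK w780 := fun D T h => wf_of_chk h mem_nil (mem_cons (L163 D T h) mem_nil) cw780
theorem L164 : LFK l164 := fun D T h => lf_of_chk h mem_nil cl164
theorem W781 : WFK w781 := fun D T h => wf_of_chk h mem_nil (mem_cons (L164 D T h) mem_nil) cw781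
theorem W782 : WFK w782 := fun D T h => wf_of_chk h mem_nil (mem_cons (L163 D T h) mem_nil) cw782
theorem L165 : LFK l165 := fun D T h => lf_of_chk h mem_nil cl165
theorem W783 : WFK w783 := fun D T h => wf_of_chk h mem_nil (mem_cons (L165 D T h) mem_nil) cw783
theorem W784 : WFK w784 := fun D T h => wf_of_chk h mem_nil (mem_cons (L0 D T h) mem_nil) cw784
theorem W785 : WFK w785 := fun D T h => wf_of_chk h mem_nil (mem_cons (L163 D T h) mem_nil) cw785
theorem L166 : LFK l166 := fun D T h => lf_of_chk h (mem_cons (W717 D T h) (mem_cons (W3 D T h) (mem_cons (W39 D T h) (mem_cons (W13 D T h) (mem_cons (W778 D T h) (mem_cons (W783 D T h) (mem_cons (W779 D T h) (mem_cons (W730 D T h) (mem_cons (W712 D T h) (mem_cons (W713 D T h) (mem_cons (W780 D T h) (mem_cons (W781 D T h) (mem_cons (W782 D T h) (mem_cons (W715 D T h) (mem_cons (W768 D T h) (mem_cons (W784 D T h) (mem_cons (W785 D T h) mem_nil))))))))))))))))) cl166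
theorem W786 : WFK w786 := fun D T h => wf_of_chk h mem_nil (mem_cons (L166 D T h) mem_nil) cw786
theorem W787 : WFK w787 := fun D T h => wf_of_chk h (mem_cons (W50 D T h) mem_nil) mem_nil cw787
theorem L167 : LFK l167 := fun D T h => lf_of_chk h (mem_cons (W723 D T h) (mem_cons (W14 D T h) (mem_cons (W760 D T h) (mem_cons (W50 D T h) (mem_cons (W181 D T h) (mem_cons (W177 D T h) (mem_cons (W724 D T h) (mem_cons (W725 D T h) (mem_cons (W744 D T h) (mem_cons (W758 D T h) (mem_cons (W755 D T h) (mem_cons (W756 D T h) (mem_cons (W42 D T h) (mem_cons (W727 D T h) (mem_cons (W735 D T h) (mem_cons (W736 D T h) (mem_cons (W737 D T h) (mem_cons (W738 D T h) (mem_cons (W739 D T h) (mem_cons (W764 D T h) (mem_cons (W772 D T h) (mem_cons (W786 D T h) (mem_cons (W787 D T h) mem_nil))))))))))))))))))))))) cl167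
theorem W788 : WFK w788 := fun D T h => wf_of_chk h mem_nil (mem_cons (L167 D T h) mem_nil) cw788
theorem W789 : WFK w789 := fun D T h => wf_of_chk h mem_nil (mem_cons (L16 D T h) mem_nil) cw789
theorem W790 : WFK w790 := fun D T h => wf_of_chk h (mem_cons (W50 D T h) mem_nil) mem_nil cw790
theorem W791 : WFK w791 := fun D T h => wf_of_chk h mem_nil (mem_cons (L167 D T h) mem_nil) cw791
theorem W793 : WFK w793 := fun D T h => wf_of_chk h mem_nil (mem_cons (L167 D T h) mem_nil) cw793
theorem L168 : LFK l168 := fun D T h => lf_of_chk h (mem_cons (W638 D T h) (mem_cons (W1 D T h) (mem_cons (W15 D T h) (mem_cons (W4 D T h) (mem_cons (W91 D T h) (mem_cons (W168 D T h) (mem_cons (W281 D T h) (mem_cons (W431 D T h) mem_nil)))))))) cl168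
theorem W794 : WFK w794 := fun D T h => wf_of_chk h mem_nil (mem_cons (L168 D T h) mem_nil) cw794
theorem W795 : WFK w795 := fun D T h => wf_of_chk h mem_nil (mem_cons (L143 D T h) mem_nil) cw795
theorem W796 : WFK w796 := fun D T h => wf_of_chk h mem_nil (mem_cons (L168 D T h) mem_nil) cw796
theorem W797 : WFK w797 := fun D T h => wf_of_chk h mem_nil (mem_cons (L168 D T h) mem_nil) cw797
theorem W798 : WFK w798 := fun D T h => wf_of_chk h mem_nil (mem_cons (L45 D T h) mem_nil) cw798
theorem L169 : LFK l169 := fun D T h => lf_of_chk h (mem_cons (W219 D T h) (mem_cons (W15 D T h) (mem_cons (W91 D T h) (mem_cons (W795 D T h) (mem_cons (W141 D T h) (mem_cons (W796 D T h) (mem_cons (W797 D T h) (mem_cons (W798 D T h) (mem_cons (W499 D T h) mem_nil))))))))) cl169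
theorem W799 : WFK w799 := fun D T h => wf_of_chk h mem_nil (mem_cons (L169 D T h) mem_nil) cw799
theorem W800 : WFK w800 := fun D T h => wf_of_chk h mem_nil (mem_cons (L168 D T h) mem_nil) cw800
theorem W801 : WFK w801 := fun D T h => wf_of_chk h mem_nil (mem_cons (L168 D T h) mem_nil) cw801
theorem W802 : WFK w802 := fun D T h => wf_of_chk h mem_nil (mem_cons (L120 D T h) mem_nil) cw802
theorem L170 : LFK l170 := fun D T h => lf_of_chk h (mem_cons (W15 D T h) (mem_cons (W281 D T h) (mem_cons (W152 D T h) (mem_cons (W154 D T h) (mem_cons (W153 D T h) (mem_cons (W1 D T h) (mem_cons (W802 D T h) (mem_cons (W4 D T h) (mem_cons (W638 D T h) (mem_cons (W432 D T h) (mem_cons (W149 D T h) mem_nil))))))))))) cl170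
theorem W803 : WFK w803 := fun D T h => wf_of_chk h mem_nil (mem_cons (L170 D T h) mem_nil) cw803
theorem L171 : LFK l171 := fun D T h => lf_of_chk h (mem_cons (W794 D T h) (mem_cons (W16 D T h) (mem_cons (W42 D T h) (mem_cons (W803 D T h) (mem_cons (W638 D T h) (mem_cons (W799 D T h) (mem_cons (W801 D T h) (mem_cons (W800 D T h) (mem_cons (W261 D T h) mem_nil))))))))) cl171
theorem W804 : WFK w804 := fun D T h => wf_of_chk h mem_nil (mem_cons (L171 D T h) mem_nil) cw804
theorem W805 : WFK w805 := fun D T h => wf_of_chk h mem_nil (mem_cons (L26 D T h) mem_nil) cw805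
theorem W806 : WFK w806 := fun D T h => wf_of_chk h mem_nil (mem_cons (L26 D T h) mem_nil) cw806
theorem W807 : WFK w807 := fun D T h => wf_of_chk h mem_nil (mem_cons (L26 D T h) mem_nil) cw807
theorem L172 : LFK l172 := fun D T h => lf_of_chk h (mem_cons (W805 D T h) (mem_cons (W32 D T h) (mem_cons (W806 D T h) (mem_cons (W807 D T h) mem_nil)))) cl172
theorem W808 : WFK w808 := fun D T h => wf_of_chk h mem_nil (mem_cons (L172 D T h) mem_nil) cw808
theorem W809 : WFK w809 := fun D T h => wf_of_chk h mem_nil (mem_cons (L14 D T h) mem_nil) cw809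
theorem W810 : WFK w810 := fun D T h => wf_of_chk h mem_nil (mem_cons (L126 D T h) mem_nil) cw810
theorem W811 : WFK w811 := fun D T h => wf_of_chk h mem_nil (mem_cons (L85 D T h) mem_nil) cw811
theorem W812 : WFK w812 := fun D T h => wf_of_chk h mem_nil mem_nil cw812
theorem W813 : WFK w813 := fun D T h => wf_of_chk h (mem_cons (W20 D T h) mem_nil) mem_nil cw813
theorem W814 : WFK w814 := fun D T h => wf_of_chk h mem_nil (mem_cons (L29 D T h) mem_nil) cw814
theorem W815 : WFK w815 := fun D T h => wf_of_chk h mem_nil (mem_cons (L46 D T h) mem_nil) cw815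
theorem W816 : WFK w816 := fun D T h => wf_of_chk h (mem_cons (W815 D T h) mem_nil) mem_nil cw816
theorem W817 : WFK w817 := fun D T h => wf_of_chk h mem_nil (mem_cons (L29 D T h) mem_nil) cw817
theorem W818 : WFK w818 := fun D T h => wf_of_chk h (mem_cons (W817 D T h) mem_nil) mem_nil cw818
theorem W819 : WFK w819 := fun D T h => wf_of_chk h mem_nil (mem_cons (L23 D T h) mem_nil) cw819
theorem W820 : WFK w820 := fun D T h => wf_of_chk h (mem_cons (W819 D T h) mem_nil) mem_nil cw820
theorem W821 : WFK w821 := fun D T h => wf_of_chk h (mem_cons (W819 D T h) mem_nil) mem_nil cw821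
theorem L173 : LFK l173 := fun D T h => lf_of_chk h (mem_cons (W632 D T h) (mem_cons (W91 D T h) (mem_cons (W4 D T h) (mem_cons (W33 D T h) (mem_cons (W808 D T h) (mem_cons (W6 D T h) (mem_cons (W812 D T h) (mem_cons (W813 D T h) (mem_cons (W814 D T h) (mem_cons (W816 D T h) (mem_cons (W818 D T h) (mem_cons (W820 D T h) (mem_cons (W821 D T h) (mem_cons (W809 D T h) (mem_cons (W810 D T h) (mem_cons (W811 D T h) (mem_cons (W80 D T h) mem_nil))))))))))))))))) cl173
theorem W822 : WFK w822 := fun D T h => wf_of_chk h mem_nil (mem_cons (L173 D T h) mem_nil) cw822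
theorem W823 : WFK w823 := fun D T h => wf_of_chk h mem_nil (mem_cons (L33 D T h) mem_nil) cw823
theorem W824 : WFK w824 := fun D T h => wf_of_chk h mem_nil (mem_cons (L133 D T h) mem_nil) cw824
theorem W825 : WFK w825 := fun D T h => wf_of_chk h mem_nil (mem_cons (L36 D T h) mem_nil) cw825
theorem L174 : LFK l174 := fun D T h => lf_of_chk h (mem_cons (W823 D T h) (mem_cons (W91 D T h) (mem_cons (W4 D T h) (mem_cons (W33 D T h) (mem_cons (W808 D T h) (mem_cons (W6 D T h) (mem_cons (W812 D T h) (mem_cons (W813 D T h) (mem_cons (W814 D T h) (mem_cons (W816 D T h) (mem_cons (W818 D T h) (mem_cons (W820 D T h) (mem_cons (W821 D T h) (mem_cons (W809 D T h) (mem_cons (W158 D T h) (mem_cons (W824 D T h) (mem_cons (W825 D T h) (mem_cons (W105 D T h) mem_nil)))))))))))))))))) cl174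
theorem W826 : WFK w826 := fun D T h => wf_of_chk h mem_nil (mem_cons (L174 D T h) mem_nil) cw826
theorem W827 : WFK w827 := fun D T h => wf_of_chk h mem_nil (mem_cons (L59 D T h) mem_nil) cw827
theorem L175 : LFK l175 := fun D T h => lf_of_chk h (mem_cons (W210 D T h) (mem_cons (W193 D T h) mem_nil)) cl175
theorem W828 : WFK w828 := fun D T h => wf_of_chk h mem_nil (mem_cons (L175 D T h) mem_nil) cw828
theorem W829 : WFK w829 := fun D T h => wf_of_chk h mem_nil (mem_cons (L56 D T h) mem_nil) cw829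
theorem L176 : LFK l176 := fun D T h => lf_of_chk h (mem_cons (W211 D T h) (mem_cons (W5 D T h) (mem_cons (W827 D T h) (mem_cons (W828 D T h) (mem_cons (W815 D T h) (mem_cons (W829 D T h) (mem_cons (W174 D T h) (mem_cons (W819 D T h) mem_nil)))))))) cl176
theorem W830 : WFK w830 := fun D T h => wf_of_chk h mem_nil (mem_cons (L176 D T h) mem_nil) cw830
theorem W831 : WFK w831 := fun D T h => wf_of_chk h mem_nil (mem_cons (L176 D T h) mem_nil) cw831
theorem L177 : LFK l177 := fun D T h => lf_of_chk h (mem_cons (W210 D T h) (mem_cons (W18 D T h) mem_nil)) cl177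
theorem W832 : WFK w832 := fun D T h => wf_of_chk h mem_nil (mem_cons (L177 D T h) mem_nil) cw832
theorem W833 : WFK w833 := fun D T h => wf_of_chk h mem_nil (mem_cons (L55 D T h) mem_nil) cw833
theorem L178 : LFK l178 := fun D T h => lf_of_chk h (mem_cons (W210 D T h) (mem_cons (W5 D T h) (mem_cons (W831 D T h) (mem_cons (W832 D T h) (mem_cons (W815 D T h) (mem_cons (W833 D T h) (mem_cons (W174 D T h) (mem_cons (W819 D T h) mem_nil)))))))) cl178
theorem W834 : WFK w834 := fun D T h => wf_of_chk h mem_nil (mem_cons (L178 D T h) mem_nil) cw834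
theorem W835 : WFK w835 := fun D T h => wf_of_chk h (mem_cons (W91 D T h) mem_nil) mem_nil cw835
theorem W836 : WFK w836 := fun D T h => wf_of_chk h (mem_cons (W91 D T h) mem_nil) mem_nil cw836
theorem W837 : WFK w837 := fun D T h => wf_of_chk h (mem_cons (W91 D T h) mem_nil) mem_nil cw837
theorem W838 : WFK w838 := fun D T h => wf_of_chk h (mem_cons (W91 D T h) mem_nil) mem_nil cw838
theorem L179 : LFK l179 := fun D T h => lf_of_chk h (mem_cons (W576 D T h) (mem_cons (W91 D T h) (mem_cons (W4 D T h) (mem_cons (W33 D T h) (mem_cons (W808 D T h) (mem_cons (W6 D T h) (mem_cons (W812 D T h) (mem_cons (W813 D T h) (mem_cons (W814 D T h) (mem_cons (W816 D T h) (mem_cons (W818 D T h) (mem_cons (W820 D T h) (mem_cons (W821 D T h) (mem_cons (W632 D T h) (mem_cons (W823 D T h) (mem_cons (W830 D T h) (mem_cons (W834 D T h) (mem_cons (W835 D T h) (mem_cons (W836 D T h) (mem_cons (W837 D T h) (mem_cons (W838 D T h) mem_nil))))))))))))))))))))) cl179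
theorem W839 : WFK w839 := fun D T h => wf_of_chk h mem_nil (mem_cons (L179 D T h) mem_nil) cw839
theorem W840 : WFK w840 := fun D T h => wf_of_chk h mem_nil (mem_cons (L46 D T h) mem_nil) cw840
theorem L180 : LFK l180 := fun D T h => lf_of_chk h mem_nil cl180
theorem W841 : WFK w841 := fun D T h => wf_of_chk h mem_nil (mem_cons (L180 D T h) mem_nil) cw841
theorem L181 : LFK l181 := fun D T h => lf_of_chk h mem_nil cl181
theorem W842 : WFK w842 := fun D T h => wf_of_chk h mem_nil (mem_cons (L181 D T h) mem_nil) cw842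
theorem L182 : LFK l182 := fun D T h => lf_of_chk h (mem_cons (W840 D T h) (mem_cons (W8 D T h) (mem_cons (W805 D T h) (mem_cons (W289 D T h) (mem_cons (W4 D T h) (mem_cons (W841 D T h) (mem_cons (W842 D T h) mem_nil))))))) cl182
theorem W843 : WFK w843 := fun D T h => wf_of_chk h mem_nil (mem_cons (L182 D T h) mem_nil) cw843
theorem W844 : WFK w844 := fun D T h => wf_of_chk h mem_nil (mem_cons (L172 D T h) mem_nil) cw844
theorem W845 : WFK w845 := fun D T h => wf_of_chk h mem_nil (mem_cons (L176 D T h) mem_nil) cw845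
theorem W846 : WFK w846 := fun D T h => wf_of_chk h mem_nil (mem_cons (L178 D T h) mem_nil) cw846
theorem W847 : WFK w847 := fun D T h => wf_of_chk h mem_nil (mem_cons (L111 D T h) mem_nil) cw847
theorem W848 : WFK w848 := fun D T h => wf_of_chk h mem_nil (mem_cons (L176 D T h) mem_nil) cw848
theorem L183 : LFK l183 := fun D T h => lf_of_chk h (mem_cons (W818 D T h) (mem_cons (W817 D T h) (mem_cons (W4 D T h) (mem_cons (W33 D T h) (mem_cons (W844 D T h) (mem_cons (W848 D T h) (mem_cons (W6 D T h) (mem_cons (W812 D T h) (mem_cons (W813 D T h) (mem_cons (W814 D T h) (mem_cons (W845 D T h) (mem_cons (W846 D T h) (mem_cons (W847 D T h) mem_nil))))))))))))) cl183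
theorem W849 : WFK w849 := fun D T h => wf_of_chk h mem_nil (mem_cons (L183 D T h) mem_nil) cw849
theorem W850 : WFK w850 := fun D T h => wf_of_chk h mem_nil (mem_cons (L134 D T h) mem_nil) cw850
theorem L184 : LFK l184 := fun D T h => lf_of_chk h mem_nil cl184
theorem W851 : WFK w851 := fun D T h => wf_of_chk h mem_nil (mem_cons (L184 D T h) mem_nil) cw851
theorem W852 : WFK w852 := fun D T h => wf_of_chk h mem_nil (mem_cons (L181 D T h) mem_nil) cw852
theorem W853 : WFK w853 := fun D T h => wf_of_chk h mem_nil (mem_cons (L46 D T h) mem_nil) cw853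
theorem W854 : WFK w854 := fun D T h => wf_of_chk h mem_nil (mem_cons (L181 D T h) mem_nil) cw854
theorem L185 : LFK l185 := fun D T h => lf_of_chk h (mem_cons (W173 D T h) (mem_cons (W63 D T h) (mem_cons (W852 D T h) (mem_cons (W10 D T h) (mem_cons (W281 D T h) (mem_cons (W4 D T h) (mem_cons (W315 D T h) (mem_cons (W853 D T h) (mem_cons (W377 D T h) (mem_cons (W379 D T h) (mem_cons (W854 D T h) mem_nil))))))))))) cl185
theorem W855 : WFK w855 := fun D T h => wf_of_chk h mem_nil (mem_cons (L185 D T h) mem_nil) cw855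
theorem L187 : LFK l187 := fun D T h => lf_of_chk h (mem_cons (W281 D T h) (mem_cons (W3 D T h) (mem_cons (W827 D T h) (mem_cons (W828 D T h) (mem_cons (W11 D T h) (mem_cons (W12 D T h) (mem_cons (W13 D T h) mem_nil))))))) cl187
theorem W857 : WFK w857 := fun D T h => wf_of_chk h mem_nil (mem_cons (L187 D T h) mem_nil) cw857
theorem W858 : WFK w858 := fun D T h => wf_of_chk h (mem_cons (W281 D T h) mem_nil) mem_nil cw858
theorem W859 : WFK w859 := fun D T h => wf_of_chk h mem_nil (mem_cons (L172 D T h) mem_nil) cw859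
theorem W860 : WFK w860 := fun D T h => wf_of_chk h mem_nil (mem_cons (L90 D T h) mem_nil) cw860
theorem W861 : WFK w861 := fun D T h => wf_of_chk h mem_nil (mem_cons (L3 D T h) mem_nil) cw861
theorem W862 : WFK w862 := fun D T h => wf_of_chk h mem_nil (mem_cons (L56 D T h) mem_nil) cw862
theorem L188 : LFK l188 := fun D T h => lf_of_chk h (mem_cons (W379 D T h) (mem_cons (W137 D T h) (mem_cons (W860 D T h) (mem_cons (W4 D T h) (mem_cons (W11 D T h) (mem_cons (W731 D T h) (mem_cons (W831 D T h) (mem_cons (W861 D T h) (mem_cons (W842 D T h) (mem_cons (W862 D T h) mem_nil)))))))))) cl188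
theorem W864 : WFK w864 := fun D T h => wf_of_chk h mem_nil (mem_cons (L184 D T h) mem_nil) cw864
theorem W865 : WFK w865 := fun D T h => wf_of_chk h mem_nil (mem_cons (L29 D T h) mem_nil) cw865
theorem W866 : WFK w866 := fun D T h => wf_of_chk h mem_nil (mem_cons (L29 D T h) mem_nil) cw866
theorem W870 : WFK w870 := fun D T h => wf_of_chk h mem_nil (mem_cons (L90 D T h) mem_nil) cw870
theorem W871 : WFK w871 := fun D T h => wf_of_chk h mem_nil (mem_cons (L129 D T h) mem_nil) cw871
theorem W872 : WFK w872 := fun D T h => wf_of_chk h mem_nil (mem_cons (L90 D T h) mem_nil) cw872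
theorem W873 : WFK w873 := fun D T h => wf_of_chk h mem_nil (mem_cons (L181 D T h) mem_nil) cw873
theorem W874 : WFK w874 := fun D T h => wf_of_chk h mem_nil (mem_cons (L41 D T h) mem_nil) cw874
theorem W876 : WFK w876 := fun D T h => wf_of_chk h mem_nil mem_nil cw876
theorem W877 : WFK w877 := fun D T h => wf_of_chk h mem_nil (mem_cons (L172 D T h) mem_nil) cw877
theorem W878 : WFK w878 := fun D T h => wf_of_chk h mem_nil (mem_cons (L29 D T h) mem_nil) cw878
theorem W879 : WFK w879 := fun D T h => wf_of_chk h (mem_cons (W878 D T h) mem_nil) mem_nil cw879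
theorem W884 : WFK w884 := fun D T h => wf_of_chk h mem_nil (mem_cons (L90 D T h) mem_nil) cw884
theorem L192 : LFK l192 := fun D T h => lf_of_chk h (mem_cons (W381 D T h) (mem_cons (W47 D T h) (mem_cons (W22 D T h) (mem_cons (W12 D T h) (mem_cons (W377 D T h) (mem_cons (W53 D T h) (mem_cons (W330 D T h) (mem_cons (W4 D T h) (mem_cons (W675 D T h) (mem_cons (W380 D T h) (mem_cons (W873 D T h) (mem_cons (W884 D T h) mem_nil)))))))))))) cl192
theorem L193 : LFK l193 := fun D T h => lf_of_chk h (mem_cons (W870 D T h) (mem_cons (W44 D T h) (mem_cons (W4 D T h) (mem_cons (W11 D T h) (mem_cons (W379 D T h) (mem_cons (W872 D T h) (mem_cons (W873 D T h) mem_nil))))))) cl193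
theorem W887 : WFK w887 := fun D T h => wf_of_chk h (mem_cons (W220 D T h) (mem_cons (W20 D T h) mem_nil)) mem_nil cw887
theorem W888 : WFK w888 := fun D T h => wf_of_chk h mem_nil (mem_cons (L90 D T h) mem_nil) cw888
theorem L194 : LFK l194 := fun D T h => lf_of_chk h (mem_cons (W281 D T h) (mem_cons (W38 D T h) (mem_cons (W265 D T h) (mem_cons (W331 D T h) (mem_cons (W4 D T h) (mem_cons (W33 D T h) (mem_cons (W168 D T h) (mem_cons (W10 D T h) (mem_cons (W675 D T h) (mem_cons (W172 D T h) (mem_cons (W381 D T h) (mem_cons (W870 D T h) (mem_cons (W888 D T h) mem_nil))))))))))))) cl194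
theorem W889 : WFK w889 := fun D T h => wf_of_chk h mem_nil (mem_cons (L194 D T h) mem_nil) cw889
theorem W890 : WFK w890 := fun D T h => wf_of_chk h mem_nil (mem_cons (L145 D T h) mem_nil) cw890
theorem W891 : WFK w891 := fun D T h => wf_of_chk h mem_nil (mem_cons (L164 D T h) mem_nil) cw891
theorem W892 : WFK w892 := fun D T h => wf_of_chk h mem_nil (mem_cons (L25 D T h) mem_nil) cw892
theorem W893 : WFK w893 := fun D T h => wf_of_chk h mem_nil mem_nil cw893
theorem L195 : LFK l195 := fun D T h => lf_of_chk h (mem_cons (W891 D T h) (mem_cons (W892 D T h) (mem_cons (W893 D T h) mem_nil))) cl195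
theorem W895 : WFK w895 := fun D T h => wf_of_chk h mem_nil (mem_cons (L165 D T h) mem_nil) cw895
theorem W896 : WFK w896 := fun D T h => wf_of_chk h (mem_cons (W15 D T h) mem_nil) mem_nil cw896
theorem W897 : WFK w897 := fun D T h => wf_of_chk h mem_nil (mem_cons (L111 D T h) mem_nil) cw897
theorem W898 : WFK w898 := fun D T h => wf_of_chk h mem_nil (mem_cons (L164 D T h) mem_nil) cw898
theorem W899 : WFK w899 := fun D T h => wf_of_chk h mem_nil (mem_cons (L111 D T h) mem_nil) cw899
theorem L196 : LFK l196 := fun D T h => lf_of_chk h (mem_cons (W15 D T h) mem_nil) cl196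
theorem W901 : WFK w901 := fun D T h => wf_of_chk h mem_nil (mem_cons (L143 D T h) mem_nil) cw901
theorem W903 : WFK w903 := fun D T h => wf_of_chk h mem_nil (mem_cons (L26 D T h) mem_nil) cw903
theorem W904 : WFK w904 := fun D T h => wf_of_chk h mem_nil mem_nil cw904
theorem L197 : LFK l197 := fun D T h => lf_of_chk h (mem_cons (W848 D T h) (mem_cons (W808 D T h) (mem_cons (W4 D T h) (mem_cons (W33 D T h) (mem_cons (W5 D T h) (mem_cons (W632 D T h) (mem_cons (W823 D T h) (mem_cons (W576 D T h) (mem_cons (W25 D T h) (mem_cons (W411 D T h) (mem_cons (W845 D T h) (mem_cons (W846 D T h) (mem_cons (W847 D T h) mem_nil))))))))))))) cl197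
theorem W906 : WFK w906 := fun D T h => wf_of_chk h mem_nil (mem_cons (L197 D T h) mem_nil) cw906
theorem W907 : WFK w907 := fun D T h => wf_of_chk h (mem_cons (W10 D T h) mem_nil) mem_nil cw907

end Pool.Agent.W319.GCI.K5
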