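import Pool.Agent.W319.GCI.K5A0
set_option autoImplicit false
set_option maxRecDepth 100000
set_option linter.all false
namespace Pool.Agent.W319.GCI.K5
open Pool.Agent.W319.GCI

theorem L198 : LFK l198 := fun D T h => lf_of_chk h (mem_cons (W858 D T h) (mem_cons (W281 D T h) (mem_cons (W4 D T h) (mem_cons (W33 D T h) (mem_cons (W808 D T h) (mem_cons (W632 D T h) (mem_cons (W604 D T h) (mem_cons (W603 D T h) (mem_cons (W907 D T h) (mem_cons (W906 D T h) (mem_cons (W810 D T h) (mem_cons (W91 D T h) (mem_cons (W811 D T h) (mem_cons (W80 D T h) mem_nil)))))))))))))) cl198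
theorem W908 : WFK w908 := fun D T h => wf_of_chk h mem_nil (mem_cons (L198 D T h) mem_nil) cw908
theorem L199 : LFK l199 := fun D T h => lf_of_chk h (mem_cons (W795 D T h) (mem_cons (W1 D T h) (mem_cons (W91 D T h) (mem_cons (W808 D T h) (mem_cons (W822 D T h) (mem_cons (W826 D T h) (mem_cons (W576 D T h) (mem_cons (W839 D T h) (mem_cons (W20 D T h) (mem_cons (W604 D T h) (mem_cons (W814 D T h) (mem_cons (W843 D T h) (mem_cons (W849 D T h) (mem_cons (W850 D T h) (mem_cons (W908 D T h) mem_nil))))))))))))))) cl199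
theorem W909 : WFK w909 := fun D T h => wf_of_chk h mem_nil (mem_cons (L199 D T h) mem_nil) cw909
theorem W910 : WFK w910 := fun D T h => wf_of_chk h mem_nil (mem_cons (L170 D T h) mem_nil) cw910
theorem W911 : WFK w911 := fun D T h => wf_of_chk h mem_nil (mem_cons (L170 D T h) mem_nil) cw911
theorem L200 : LFK l200 := fun D T h => lf_of_chk h (mem_cons (W219 D T h) (mem_cons (W499 D T h) (mem_cons (W15 D T h) (mem_cons (W802 D T h) (mem_cons (W795 D T h) (mem_cons (W141 D T h) (mem_cons (W798 D T h) (mem_cons (W796 D T h) (mem_cons (W797 D T h) mem_nil))))))))) cl200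
theorem W912 : WFK w912 := fun D T h => wf_of_chk h mem_nil (mem_cons (L200 D T h) mem_nil) cw912
theorem W913 : WFK w913 := fun D T h => wf_of_chk h mem_nil (mem_cons (L89 D T h) mem_nil) cw913
theorem W914 : WFK w914 := fun D T h => wf_of_chk h mem_nil (mem_cons (L184 D T h) mem_nil) cw914
theorem W915 : WFK w915 := fun D T h => wf_of_chk h mem_nil (mem_cons (L184 D T h) mem_nil) cw915
theorem L201 : LFK l201 := fun D T h => lf_of_chk h (mem_cons (W432 D T h) (mem_cons (W158 D T h) (mem_cons (W802 D T h) (mem_cons (W4 D T h) (mem_cons (W840 D T h) (mem_cons (W915 D T h) (mem_cons (W913 D T h) (mem_cons (W377 D T h) (mem_cons (W914 D T h) (mem_cons (W431 D T h) (mem_cons (W429 D T h) mem_nil))))))))))) cl201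
theorem W916 : WFK w916 := fun D T h => wf_of_chk h mem_nil (mem_cons (L201 D T h) mem_nil) cw916
theorem L202 : LFK l202 := fun D T h => lf_of_chk h (mem_cons (W638 D T h) (mem_cons (W91 D T h) (mem_cons (W802 D T h) (mem_cons (W915 D T h) (mem_cons (W380 D T h) (mem_cons (W853 D T h) (mem_cons (W914 D T h) (mem_cons (W431 D T h) (mem_cons (W429 D T h) mem_nil))))))))) cl202
theorem W917 : WFK w917 := fun D T h => wf_of_chk h mem_nil (mem_cons (L202 D T h) mem_nil) cw917
theorem W918 : WFK w918 := fun D T h => wf_of_chk h mem_nil (mem_cons (L46 D T h) mem_nil) cw918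
theorem W919 : WFK w919 := fun D T h => wf_of_chk h mem_nil (mem_cons (L180 D T h) mem_nil) cw919
theorem W920 : WFK w920 := fun D T h => wf_of_chk h mem_nil (mem_cons (L180 D T h) mem_nil) cw920
theorem L203 : LFK l203 := fun D T h => lf_of_chk h (mem_cons (W281 D T h) (mem_cons (W109 D T h) (mem_cons (W831 D T h) (mem_cons (W4 D T h) (mem_cons (W913 D T h) (mem_cons (W918 D T h) (mem_cons (W380 D T h) (mem_cons (W919 D T h) (mem_cons (W63 D T h) (mem_cons (W920 D T h) mem_nil)))))))))) cl203
theorem W921 : WFK w921 := fun D T h => wf_of_chk h mem_nil (mem_cons (L203 D T h) mem_nil) cw921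
theorem W922 : WFK w922 := fun D T h => wf_of_chk h mem_nil (mem_cons (L120 D T h) mem_nil) cw922
theorem W923 : WFK w923 := fun D T h => wf_of_chk h mem_nil (mem_cons (L64 D T h) mem_nil) cw923
theorem W924 : WFK w924 := fun D T h => wf_of_chk h mem_nil (mem_cons (L46 D T h) mem_nil) cw924
theorem L204 : LFK l204 := fun D T h => lf_of_chk h (mem_cons (W154 D T h) (mem_cons (W161 D T h) (mem_cons (W922 D T h) (mem_cons (W833 D T h) (mem_cons (W914 D T h) (mem_cons (W281 D T h) (mem_cons (W924 D T h) (mem_cons (W920 D T h) (mem_cons (W852 D T h) (mem_cons (W159 D T h) (mem_cons (W160 D T h) (mem_cons (W923 D T h) mem_nil)))))))))))) cl204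
theorem W925 : WFK w925 := fun D T h => wf_of_chk h mem_nil (mem_cons (L204 D T h) mem_nil) cw925
theorem W926 : WFK w926 := fun D T h => wf_of_chk h mem_nil (mem_cons (L40 D T h) mem_nil) cw926
theorem W927 : WFK w927 := fun D T h => wf_of_chk h mem_nil (mem_cons (L64 D T h) mem_nil) cw927
theorem L205 : LFK l205 := fun D T h => lf_of_chk h (mem_cons (W152 D T h) (mem_cons (W281 D T h) (mem_cons (W174 D T h) (mem_cons (W815 D T h) (mem_cons (W431 D T h) (mem_cons (W924 D T h) (mem_cons (W920 D T h) (mem_cons (W852 D T h) (mem_cons (W160 D T h) (mem_cons (W926 D T h) (mem_cons (W170 D T h) (mem_cons (W927 D T h) mem_nil)))))))))))) cl205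
theorem W928 : WFK w928 := fun D T h => wf_of_chk h mem_nil (mem_cons (L205 D T h) mem_nil) cw928
theorem L206 : LFK l206 := fun D T h => lf_of_chk h (mem_cons (W15 D T h) (mem_cons (W281 D T h) (mem_cons (W802 D T h) (mem_cons (W210 D T h) (mem_cons (W915 D T h) (mem_cons (W924 D T h) (mem_cons (W920 D T h) (mem_cons (W852 D T h) mem_nil)))))))) cl206
theorem W929 : WFK w929 := fun D T h => wf_of_chk h mem_nil (mem_cons (L206 D T h) mem_nil) cw929
theorem L207 : LFK l207 := fun D T h => lf_of_chk h (mem_cons (W924 D T h) (mem_cons (W1 D T h) (mem_cons (W3 D T h) (mem_cons (W15 D T h) (mem_cons (W802 D T h) (mem_cons (W8 D T h) (mem_cons (W915 D T h) (mem_cons (W281 D T h) mem_nil)))))))) cl207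
theorem W930 : WFK w930 := fun D T h => wf_of_chk h mem_nil (mem_cons (L207 D T h) mem_nil) cw930
theorem L208 : LFK l208 := fun D T h => lf_of_chk h (mem_cons (W924 D T h) (mem_cons (W1 D T h) (mem_cons (W3 D T h) (mem_cons (W15 D T h) (mem_cons (W802 D T h) (mem_cons (W7 D T h) (mem_cons (W915 D T h) (mem_cons (W281 D T h) mem_nil)))))))) cl208
theorem W931 : WFK w931 := fun D T h => wf_of_chk h mem_nil (mem_cons (L208 D T h) mem_nil) cw931
theorem W932 : WFK w932 := fun D T h => wf_of_chk h mem_nil (mem_cons (L57 D T h) mem_nil) cw932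
theorem L209 : LFK l209 := fun D T h => lf_of_chk h (mem_cons (W803 D T h) (mem_cons (W42 D T h) (mem_cons (W16 D T h) (mem_cons (W461 D T h) (mem_cons (W921 D T h) (mem_cons (W925 D T h) (mem_cons (W794 D T h) (mem_cons (W928 D T h) (mem_cons (W929 D T h) (mem_cons (W909 D T h) (mem_cons (W15 D T h) (mem_cons (W261 D T h) (mem_cons (W910 D T h) (mem_cons (W911 D T h) (mem_cons (W912 D T h) (mem_cons (W281 D T h) (mem_cons (W916 D T h) (mem_cons (W796 D T h) (mem_cons (W917 D T h) (mem_cons (W259 D T h) (mem_cons (W930 D T h) (mem_cons (W931 D T h) (mem_cons (W932 D T h) mem_nil))))))))))))))))))))))) cl209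
theorem W933 : WFK w933 := fun D T h => wf_of_chk h mem_nil (mem_cons (L209 D T h) mem_nil) cw933
theorem W934 : WFK w934 := fun D T h => wf_of_chk h (mem_cons (W933 D T h) mem_nil) mem_nil cw934
theorem L210 : LFK l210 := fun D T h => lf_of_chk h (mem_cons (W891 D T h) (mem_cons (W1 D T h) (mem_cons (W734 D T h) (mem_cons (W281 D T h) (mem_cons (W152 D T h) (mem_cons (W153 D T h) (mem_cons (W154 D T h) (mem_cons (W212 D T h) (mem_cons (W278 D T h) mem_nil))))))))) cl210
theorem W935 : WFK w935 := fun D T h => wf_of_chk h mem_nil (mem_cons (L210 D T h) mem_nil) cw935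
theorem W936 : WFK w936 := fun D T h => wf_of_chk h (mem_cons (W284 D T h) mem_nil) mem_nil cw936
theorem W937 : WFK w937 := fun D T h => wf_of_chk h mem_nil (mem_cons (L48 D T h) mem_nil) cw937
theorem W938 : WFK w938 := fun D T h => wf_of_chk h (mem_cons (W1 D T h) mem_nil) mem_nil cw938
theorem W939 : WFK w939 := fun D T h => wf_of_chk h mem_nil (mem_cons (L149 D T h) mem_nil) cw939
theorem W940 : WFK w940 := fun D T h => wf_of_chk h (mem_cons (W713 D T h) mem_nil) mem_nil cw940
theorem W941 : WFK w941 := fun D T h => wf_of_chk h (mem_cons (W712 D T h) mem_nil) mem_nil cw941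
theorem W942 : WFK w942 := fun D T h => wf_of_chk h (mem_cons (W714 D T h) mem_nil) mem_nil cw942
theorem W943 : WFK w943 := fun D T h => wf_of_chk h (mem_cons (W581 D T h) mem_nil) mem_nil cw943
theorem W944 : WFK w944 := fun D T h => wf_of_chk h (mem_cons (W42 D T h) mem_nil) mem_nil cw944
theorem W945 : WFK w945 := fun D T h => wf_of_chk h mem_nil (mem_cons (L151 D T h) mem_nil) cw945
theorem W946 : WFK w946 := fun D T h => wf_of_chk h mem_nil (mem_cons (L168 D T h) mem_nil) cw946
theorem W947 : WFK w947 := fun D T h => wf_of_chk h mem_nil (mem_cons (L153 D T h) mem_nil) cw947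
theorem W948 : WFK w948 := fun D T h => wf_of_chk h mem_nil (mem_cons (L154 D T h) mem_nil) cw948
theorem W949 : WFK w949 := fun D T h => wf_of_chk h mem_nil (mem_cons (L23 D T h) mem_nil) cw949
theorem W950 : WFK w950 := fun D T h => wf_of_chk h mem_nil mem_nil cw950
theorem W951 : WFK w951 := fun D T h => wf_of_chk h mem_nil (mem_cons (L28 D T h) mem_nil) cw951
theorem W952 : WFK w952 := fun D T h => wf_of_chk h mem_nil (mem_cons (L53 D T h) mem_nil) cw952
theorem W953 : WFK w953 := fun D T h => wf_of_chk h mem_nil (mem_cons (L8 D T h) mem_nil) cw953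
theorem W954 : WFK w954 := fun D T h => wf_of_chk h mem_nil (mem_cons (L8 D T h) mem_nil) cw954
theorem W955 : WFK w955 := fun D T h => wf_of_chk h mem_nil (mem_cons (L8 D T h) mem_nil) cw955
theorem L211 : LFK l211 := fun D T h => lf_of_chk h (mem_cons (W200 D T h) (mem_cons (W281 D T h) (mem_cons (W761 D T h) (mem_cons (W951 D T h) (mem_cons (W952 D T h) (mem_cons (W86 D T h) (mem_cons (W3 D T h) (mem_cons (W953 D T h) (mem_cons (W954 D T h) (mem_cons (W955 D T h) (mem_cons (W904 D T h) (mem_cons (W216 D T h) (mem_cons (W903 D T h) (mem_cons (W950 D T h) mem_nil)))))))))))))) cl211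
theorem W956 : WFK w956 := fun D T h => wf_of_chk h mem_nil (mem_cons (L211 D T h) mem_nil) cw956
theorem W957 : WFK w957 := fun D T h => wf_of_chk h mem_nil mem_nil cw957
theorem L212 : LFK l212 := fun D T h => lf_of_chk h (mem_cons (W200 D T h) (mem_cons (W174 D T h) (mem_cons (W391 D T h) (mem_cons (W951 D T h) (mem_cons (W952 D T h) (mem_cons (W745 D T h) (mem_cons (W3 D T h) (mem_cons (W953 D T h) (mem_cons (W954 D T h) (mem_cons (W955 D T h) (mem_cons (W808 D T h) (mem_cons (W243 D T h) (mem_cons (W903 D T h) (mem_cons (W957 D T h) mem_nil)))))))))))))) cl212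
theorem W958 : WFK w958 := fun D T h => wf_of_chk h mem_nil (mem_cons (L212 D T h) mem_nil) cw958
theorem W959 : WFK w959 := fun D T h => wf_of_chk h mem_nil (mem_cons (L40 D T h) mem_nil) cw959
theorem L213 : LFK l213 := fun D T h => lf_of_chk h (mem_cons (W42 D T h) (mem_cons (W164 D T h) (mem_cons (W267 D T h) (mem_cons (W431 D T h) (mem_cons (W722 D T h) (mem_cons (W721 D T h) (mem_cons (W959 D T h) (mem_cons (W16 D T h) (mem_cons (W956 D T h) (mem_cons (W3 D T h) (mem_cons (W461 D T h) (mem_cons (W39 D T h) (mem_cons (W958 D T h) (mem_cons (W1 D T h) (mem_cons (W712 D T h) (mem_cons (W713 D T h) (mem_cons (W581 D T h) (mem_cons (W714 D T h) mem_nil)))))))))))))))))) cl213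
theorem W960 : WFK w960 := fun D T h => wf_of_chk h mem_nil (mem_cons (L213 D T h) mem_nil) cw960
theorem W961 : WFK w961 := fun D T h => wf_of_chk h (mem_cons (W61 D T h) (mem_cons (W177 D T h) mem_nil)) mem_nil cw961
theorem W962 : WFK w962 := fun D T h => wf_of_chk h mem_nil (mem_cons (L160 D T h) mem_nil) cw962
theorem W963 : WFK w963 := fun D T h => wf_of_chk h mem_nil (mem_cons (L166 D T h) mem_nil) cw963
theorem W964 : WFK w964 := fun D T h => wf_of_chk h (mem_cons (W42 D T h) mem_nil) mem_nil cw964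
theorem W965 : WFK w965 := fun D T h => wf_of_chk h mem_nil (mem_cons (L155 D T h) mem_nil) cw965
theorem W966 : WFK w966 := fun D T h => wf_of_chk h mem_nil (mem_cons (L155 D T h) mem_nil) cw966
theorem L214 : LFK l214 := fun D T h => lf_of_chk h (mem_cons (W737 D T h) (mem_cons (W35 D T h) (mem_cons (W960 D T h) (mem_cons (W42 D T h) (mem_cons (W937 D T h) (mem_cons (W177 D T h) (mem_cons (W724 D T h) (mem_cons (W495 D T h) (mem_cons (W945 D T h) (mem_cons (W946 D T h) (mem_cons (W944 D T h) (mem_cons (W947 D T h) (mem_cons (W948 D T h) (mem_cons (W727 D T h) (mem_cons (W965 D T h) (mem_cons (W966 D T h) (mem_cons (W938 D T h) (mem_cons (W939 D T h) (mem_cons (W713 D T h) (mem_cons (W940 D T h) (mem_cons (W941 D T h) (mem_cons (W942 D T h) (mem_cons (W943 D T h) (mem_cons (W961 D T h) (mem_cons (W962 D T h) (mem_cons (W963 D T h) (mem_cons (W181 D T h) (mem_cons (W964 D T h) mem_nil)))))))))))))))))))))))))))) cl214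
theorem W967 : WFK w967 := fun D T h => wf_of_chk h mem_nil (mem_cons (L214 D T h) mem_nil) cw967
theorem W968 : WFK w968 := fun D T h => wf_of_chk h (mem_cons (W42 D T h) mem_nil) mem_nil cw968
theorem W969 : WFK w969 := fun D T h => wf_of_chk h (mem_cons (W819 D T h) mem_nil) mem_nil cw969
theorem W970 : WFK w970 := fun D T h => wf_of_chk h (mem_cons (W16 D T h) mem_nil) mem_nil cw970
theorem W971 : WFK w971 := fun D T h => wf_of_chk h mem_nil (mem_cons (L29 D T h) mem_nil) cw971
theorem W972 : WFK w972 := fun D T h => wf_of_chk h mem_nil (mem_cons (L23 D T h) mem_nil) cw972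
theorem W973 : WFK w973 := fun D T h => wf_of_chk h (mem_cons (W20 D T h) mem_nil) mem_nil cw973
theorem W974 : WFK w974 := fun D T h => wf_of_chk h (mem_cons (W143 D T h) mem_nil) mem_nil cw974
theorem W975 : WFK w975 := fun D T h => wf_of_chk h (mem_cons (W812 D T h) mem_nil) mem_nil cw975
theorem W976 : WFK w976 := fun D T h => wf_of_chk h mem_nil (mem_cons (L46 D T h) mem_nil) cw976
theorem W977 : WFK w977 := fun D T h => wf_of_chk h (mem_cons (W233 D T h) mem_nil) mem_nil cw977
theorem W978 : WFK w978 := fun D T h => wf_of_chk h (mem_cons (W976 D T h) mem_nil) mem_nil cw978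
theorem W979 : WFK w979 := fun D T h => wf_of_chk h mem_nil (mem_cons (L65 D T h) mem_nil) cw979
theorem W980 : WFK w980 := fun D T h => wf_of_chk h (mem_cons (W979 D T h) mem_nil) mem_nil cw980
theorem W981 : WFK w981 := fun D T h => wf_of_chk h mem_nil (mem_cons (L7 D T h) mem_nil) cw981
theorem W982 : WFK w982 := fun D T h => wf_of_chk h (mem_cons (W981 D T h) mem_nil) mem_nil cw982
theorem W983 : WFK w983 := fun D T h => wf_of_chk h mem_nil (mem_cons (L65 D T h) mem_nil) cw983
theorem W984 : WFK w984 := fun D T h => wf_of_chk h (mem_cons (W983 D T h) mem_nil) mem_nil cw984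
theorem W985 : WFK w985 := fun D T h => wf_of_chk h (mem_cons (W888 D T h) mem_nil) mem_nil cw985
theorem W986 : WFK w986 := fun D T h => wf_of_chk h (mem_cons (W878 D T h) mem_nil) mem_nil cw986
theorem W987 : WFK w987 := fun D T h => wf_of_chk h mem_nil mem_nil cw987
theorem W988 : WFK w988 := fun D T h => wf_of_chk h mem_nil (mem_cons (L17 D T h) mem_nil) cw988
theorem W989 : WFK w989 := fun D T h => wf_of_chk h mem_nil (mem_cons (L17 D T h) mem_nil) cw989
theorem W990 : WFK w990 := fun D T h => wf_of_chk h mem_nil (mem_cons (L8 D T h) mem_nil) cw990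
theorem L215 : LFK l215 := fun D T h => lf_of_chk h mem_nil cl215
theorem W991 : WFK w991 := fun D T h => wf_of_chk h mem_nil (mem_cons (L215 D T h) mem_nil) cw991
theorem L216 : LFK l216 := fun D T h => lf_of_chk h (mem_cons (W754 D T h) (mem_cons (W39 D T h) (mem_cons (W3 D T h) (mem_cons (W143 D T h) (mem_cons (W720 D T h) (mem_cons (W987 D T h) (mem_cons (W734 D T h) (mem_cons (W988 D T h) (mem_cons (W753 D T h) (mem_cons (W783 D T h) (mem_cons (W767 D T h) (mem_cons (W989 D T h) (mem_cons (W990 D T h) (mem_cons (W991 D T h) (mem_cons (W752 D T h) (mem_cons (W751 D T h) (mem_cons (W717 D T h) mem_nil))))))))))))))))) cl216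
theorem W992 : WFK w992 := fun D T h => wf_of_chk h mem_nil (mem_cons (L216 D T h) mem_nil) cw992
theorem W993 : WFK w993 := fun D T h => wf_of_chk h (mem_cons (W162 D T h) mem_nil) mem_nil cw993
theorem L217 : LFK l217 := fun D T h => lf_of_chk h (mem_cons (W3 D T h) (mem_cons (W6 D T h) (mem_cons (W8 D T h) (mem_cons (W11 D T h) (mem_cons (W12 D T h) (mem_cons (W13 D T h) mem_nil)))))) cl217
theorem W994 : WFK w994 := fun D T h => wf_of_chk h mem_nil (mem_cons (L217 D T h) mem_nil) cw994
theorem W995 : WFK w995 := fun D T h => wf_of_chk h (mem_cons (W38 D T h) mem_nil) mem_nil cw995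
theorem W996 : WFK w996 := fun D T h => wf_of_chk h mem_nil mem_nil cw996
theorem W997 : WFK w997 := fun D T h => wf_of_chk h mem_nil mem_nil cw997
theorem W998 : WFK w998 := fun D T h => wf_of_chk h mem_nil mem_nil cw998
theorem W999 : WFK w999 := fun D T h => wf_of_chk h mem_nil (mem_cons (L28 D T h) mem_nil) cw999
theorem W1000 : WFK w1000 := fun D T h => wf_of_chk h mem_nil (mem_cons (L53 D T h) mem_nil) cw1000
theorem W1001 : WFK w1001 := fun D T h => wf_of_chk h mem_nil mem_nil cw1001
theorem L218 : LFK l218 := fun D T h => lf_of_chk h (mem_cons (W201 D T h) (mem_cons (W819 D T h) (mem_cons (W971 D T h) (mem_cons (W999 D T h) (mem_cons (W1000 D T h) (mem_cons (W745 D T h) (mem_cons (W3 D T h) (mem_cons (W389 D T h) (mem_cons (W954 D T h) (mem_cons (W1001 D T h) (mem_cons (W996 D T h) (mem_cons (W13 D T h) (mem_cons (W997 D T h) (mem_cons (W998 D T h) mem_nil)))))))))))))) cl218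
theorem W1002 : WFK w1002 := fun D T h => wf_of_chk h mem_nil (mem_cons (L218 D T h) mem_nil) cw1002
theorem W1003 : WFK w1003 := fun D T h => wf_of_chk h (mem_cons (W819 D T h) mem_nil) mem_nil cw1003
theorem W1004 : WFK w1004 := fun D T h => wf_of_chk h (mem_cons (W819 D T h) mem_nil) mem_nil cw1004
theorem W1005 : WFK w1005 := fun D T h => wf_of_chk h mem_nil mem_nil cw1005
theorem W1006 : WFK w1006 := fun D T h => wf_of_chk h mem_nil mem_nil cw1006
theorem L219 : LFK l219 := fun D T h => lf_of_chk h (mem_cons (W201 D T h) (mem_cons (W971 D T h) (mem_cons (W972 D T h) (mem_cons (W1005 D T h) (mem_cons (W1006 D T h) mem_nil))))) cl219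
theorem W1007 : WFK w1007 := fun D T h => wf_of_chk h mem_nil (mem_cons (L219 D T h) mem_nil) cw1007
theorem W1008 : WFK w1008 := fun D T h => wf_of_chk h (mem_cons (W39 D T h) mem_nil) mem_nil cw1008
theorem W1009 : WFK w1009 := fun D T h => wf_of_chk h (mem_cons (W866 D T h) mem_nil) mem_nil cw1009
theorem W1010 : WFK w1010 := fun D T h => wf_of_chk h mem_nil mem_nil cw1010
theorem L220 : LFK l220 := fun D T h => lf_of_chk h (mem_cons (W15 D T h) (mem_cons (W1 D T h) (mem_cons (W1010 D T h) (mem_cons (W149 D T h) (mem_cons (W638 D T h) (mem_cons (W432 D T h) (mem_cons (W281 D T h) (mem_cons (W153 D T h) (mem_cons (W152 D T h) (mem_cons (W154 D T h) mem_nil)))))))))) cl220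
theorem W1011 : WFK w1011 := fun D T h => wf_of_chk h mem_nil (mem_cons (L220 D T h) mem_nil) cw1011
theorem W1012 : WFK w1012 := fun D T h => wf_of_chk h (mem_cons (W1011 D T h) mem_nil) mem_nil cw1012
theorem W1013 : WFK w1013 := fun D T h => wf_of_chk h (mem_cons (W39 D T h) mem_nil) mem_nil cw1013
theorem L221 : LFK l221 := fun D T h => lf_of_chk h (mem_cons (W969 D T h) (mem_cons (W993 D T h) (mem_cons (W994 D T h) (mem_cons (W971 D T h) (mem_cons (W972 D T h) (mem_cons (W970 D T h) (mem_cons (W724 D T h) (mem_cons (W992 D T h) (mem_cons (W973 D T h) (mem_cons (W815 D T h) (mem_cons (W762 D T h) (mem_cons (W974 D T h) (mem_cons (W1008 D T h) (mem_cons (W1009 D T h) (mem_cons (W1012 D T h) (mem_cons (W1013 D T h) (mem_cons (W986 D T h) (mem_cons (W975 D T h) (mem_cons (W976 D T h) (mem_cons (W767 D T h) (mem_cons (W783 D T h) (mem_cons (W977 D T h) (mem_cons (W978 D T h) (mem_cons (W980 D T h) (mem_cons (W982 D T h) (mem_cons (W984 D T h) (mem_cons (W985 D T h) (mem_cons (W995 D T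 h) (mem_cons (W1002 D T h) (mem_cons (W1003 D T h) (mem_cons (W1004 D T h) (mem_cons (W181 D T h) (mem_cons (W1007 D T h) mem_nil))))))))))))))))))))))))))))))))) cl221
theorem W1014 : WFK w1014 := fun D T h => wf_of_chk h mem_nil (mem_cons (L221 D T h) mem_nil) cw1014
theorem W1015 : WFK w1015 := fun D T h => wf_of_chk h mem_nil (mem_cons (L7 D T h) mem_nil) cw1015
theorem W1016 : WFK w1016 := fun D T h => wf_of_chk h mem_nil (mem_cons (L154 D T h) mem_nil) cw1016
theorem W1017 : WFK w1017 := fun D T h => wf_of_chk h mem_nil (mem_cons (L144 D T h) mem_nil) cw1017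
theorem W1018 : WFK w1018 := fun D T h => wf_of_chk h (mem_cons (W928 D T h) mem_nil) mem_nil cw1018
theorem L222 : LFK l222 := fun D T h => lf_of_chk h (mem_cons (W15 D T h) (mem_cons (W168 D T h) (mem_cons (W281 D T h) (mem_cons (W431 D T h) (mem_cons (W815 D T h) (mem_cons (W1 D T h) (mem_cons (W4 D T h) (mem_cons (W91 D T h) (mem_cons (W638 D T h) mem_nil))))))))) cl222
theorem W1019 : WFK w1019 := fun D T h => wf_of_chk h mem_nil (mem_cons (L222 D T h) mem_nil) cw1019
theorem W1020 : WFK w1020 := fun D T h => wf_of_chk h (mem_cons (W959 D T h) mem_nil) mem_nil cw1020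
theorem W1021 : WFK w1021 := fun D T h => wf_of_chk h (mem_cons (W267 D T h) mem_nil) mem_nil cw1021
theorem W1022 : WFK w1022 := fun D T h => wf_of_chk h (mem_cons (W959 D T h) mem_nil) mem_nil cw1022
theorem W1023 : WFK w1023 := fun D T h => wf_of_chk h (mem_cons (W959 D T h) mem_nil) mem_nil cw1023
theorem L223 : LFK l223 := fun D T h => lf_of_chk h (mem_cons (W284 D T h) (mem_cons (W337 D T h) (mem_cons (W970 D T h) (mem_cons (W42 D T h) (mem_cons (W16 D T h) (mem_cons (W1018 D T h) (mem_cons (W167 D T h) (mem_cons (W794 D T h) (mem_cons (W1019 D T h) (mem_cons (W1014 D T h) (mem_cons (W15 D T h) (mem_cons (W261 D T h) (mem_cons (W128 D T h) (mem_cons (W1015 D T h) (mem_cons (W1016 D T h) (mem_cons (W1017 D T h) (mem_cons (W1020 D T h) (mem_cons (W1021 D T h) (mem_cons (W1022 D T h) (mem_cons (W1023 D T h) mem_nil)))))))))))))))))))) cl223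
theorem W1024 : WFK w1024 := fun D T h => wf_of_chk h mem_nil (mem_cons (L223 D T h) mem_nil) cw1024
theorem W1025 : WFK w1025 := fun D T h => wf_of_chk h mem_nil (mem_cons (L107 D T h) mem_nil) cw1025
theorem W1026 : WFK w1026 := fun D T h => wf_of_chk h mem_nil (mem_cons (L116 D T h) mem_nil) cw1026
theorem W1027 : WFK w1027 := fun D T h => wf_of_chk h mem_nil (mem_cons (L1 D T h) mem_nil) cw1027
theorem W1028 : WFK w1028 := fun D T h => wf_of_chk h mem_nil (mem_cons (L57 D T h) mem_nil) cw1028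
theorem W1030 : WFK w1030 := fun D T h => wf_of_chk h mem_nil mem_nil cw1030
theorem L224 : LFK l224 := fun D T h => lf_of_chk h (mem_cons (W91 D T h) (mem_cons (W4 D T h) (mem_cons (W802 D T h) (mem_cons (W619 D T h) (mem_cons (W675 D T h) (mem_cons (W815 D T h) (mem_cons (W265 D T h) (mem_cons (W878 D T h) (mem_cons (W817 D T h) (mem_cons (W211 D T h) (mem_cons (W1030 D T h) mem_nil))))))))))) cl224
theorem W1031 : WFK w1031 := fun D T h => wf_of_chk h mem_nil (mem_cons (L224 D T h) mem_nil) cw1031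
theorem W1033 : WFK w1033 := fun D T h => wf_of_chk h mem_nil (mem_cons (L176 D T h) mem_nil) cw1033
theorem W1035 : WFK w1035 := fun D T h => wf_of_chk h mem_nil mem_nil cw1035
theorem L226 : LFK l226 := fun D T h => lf_of_chk h (mem_cons (W6 D T h) (mem_cons (W210 D T h) (mem_cons (W18 D T h) (mem_cons (W19 D T h) (mem_cons (W193 D T h) mem_nil))))) cl226
theorem L227 : LFK l227 := fun D T h => lf_of_chk h (mem_cons (W7 D T h) (mem_cons (W211 D T h) (mem_cons (W210 D T h) (mem_cons (W18 D T h) (mem_cons (W21 D T h) (mem_cons (W192 D T h) mem_nil)))))) cl227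
theorem W1041 : WFK w1041 := fun D T h => wf_of_chk h mem_nil (mem_cons (L176 D T h) mem_nil) cw1041
theorem W1042 : WFK w1042 := fun D T h => wf_of_chk h mem_nil (mem_cons (L176 D T h) mem_nil) cw1042
theorem L228 : LFK l228 := fun D T h => lf_of_chk h (mem_cons (W9 D T h) (mem_cons (W211 D T h) (mem_cons (W210 D T h) (mem_cons (W19 D T h) (mem_cons (W21 D T h) (mem_cons (W1041 D T h) (mem_cons (W1042 D T h) mem_nil))))))) cl228
theorem L229 : LFK l229 := fun D T h => lf_of_chk h (mem_cons (W8 D T h) (mem_cons (W211 D T h) (mem_cons (W193 D T h) (mem_cons (W192 D T h) (mem_cons (W1042 D T h) mem_nil))))) cl229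
theorem W1045 : WFK w1045 := fun D T h => wf_of_chk h mem_nil (mem_cons (L229 D T h) mem_nil) cw1045
theorem W1047 : WFK w1047 := fun D T h => wf_of_chk h (mem_cons (W281 D T h) mem_nil) mem_nil cw1047
theorem W1049 : WFK w1049 := fun D T h => wf_of_chk h mem_nil mem_nil cw1049
theorem W1051 : WFK w1051 := fun D T h => wf_of_chk h mem_nil (mem_cons (L176 D T h) mem_nil) cw1051
theorem W1053 : WFK w1053 := fun D T h => wf_of_chk h mem_nil mem_nil cw1053
theorem W1054 : WFK w1054 := fun D T h => wf_of_chk h mem_nil (mem_cons (L224 D T h) mem_nil) cw1054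
theorem W1060 : WFK w1060 := fun D T h => wf_of_chk h (mem_cons (W181 D T h) (mem_cons (W37 D T h) mem_nil)) mem_nil cw1060
theorem W1061 : WFK w1061 := fun D T h => wf_of_chk h (mem_cons (W284 D T h) mem_nil) mem_nil cw1061
theorem W1062 : WFK w1062 := fun D T h => wf_of_chk h (mem_cons (W16 D T h) (mem_cons (W181 D T h) mem_nil)) mem_nil cw1062
theorem W1063 : WFK w1063 := fun D T h => wf_of_chk h mem_nil (mem_cons (L143 D T h) mem_nil) cw1063
theorem W1064 : WFK w1064 := fun D T h => wf_of_chk h mem_nil (mem_cons (L7 D T h) mem_nil) cw1064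
theorem W1065 : WFK w1065 := fun D T h => wf_of_chk h mem_nil (mem_cons (L143 D T h) mem_nil) cw1065
theorem W1066 : WFK w1066 := fun D T h => wf_of_chk h mem_nil (mem_cons (L45 D T h) mem_nil) cw1066
theorem W1067 : WFK w1067 := fun D T h => wf_of_chk h mem_nil (mem_cons (L168 D T h) mem_nil) cw1067
theorem L231 : LFK l231 := fun D T h => lf_of_chk h (mem_cons (W128 D T h) (mem_cons (W1063 D T h) (mem_cons (W15 D T h) (mem_cons (W219 D T h) (mem_cons (W1064 D T h) (mem_cons (W366 D T h) (mem_cons (W1065 D T h) (mem_cons (W581 D T h) (mem_cons (W801 D T h) (mem_cons (W1066 D T h) (mem_cons (W1067 D T h) mem_nil))))))))))) cl231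
theorem W1068 : WFK w1068 := fun D T h => wf_of_chk h mem_nil (mem_cons (L231 D T h) mem_nil) cw1068
theorem W1069 : WFK w1069 := fun D T h => wf_of_chk h (mem_cons (W126 D T h) (mem_cons (W16 D T h) mem_nil)) mem_nil cw1069
theorem L232 : LFK l232 := fun D T h => lf_of_chk h (mem_cons (W12 D T h) (mem_cons (W32 D T h) (mem_cons (W861 D T h) (mem_cons (W405 D T h) (mem_cons (W633 D T h) mem_nil))))) cl232
theorem W1070 : WFK w1070 := fun D T h => wf_of_chk h mem_nil (mem_cons (L232 D T h) mem_nil) cw1070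
theorem W1071 : WFK w1071 := fun D T h => wf_of_chk h mem_nil (mem_cons (L199 D T h) mem_nil) cw1071
theorem W1072 : WFK w1072 := fun D T h => wf_of_chk h mem_nil mem_nil cw1072
theorem W1073 : WFK w1073 := fun D T h => wf_of_chk h (mem_cons (W22 D T h) mem_nil) mem_nil cw1073
theorem W1074 : WFK w1074 := fun D T h => wf_of_chk h mem_nil (mem_cons (L32 D T h) mem_nil) cw1074
theorem W1075 : WFK w1075 := fun D T h => wf_of_chk h mem_nil (mem_cons (L32 D T h) mem_nil) cw1075
theorem W1076 : WFK w1076 := fun D T h => wf_of_chk h (mem_cons (W1075 D T h) mem_nil) mem_nil cw1076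
theorem L233 : LFK l233 := fun D T h => lf_of_chk h (mem_cons (W823 D T h) (mem_cons (W158 D T h) (mem_cons (W7 D T h) (mem_cons (W1072 D T h) (mem_cons (W1073 D T h) (mem_cons (W1074 D T h) (mem_cons (W816 D T h) (mem_cons (W1076 D T h) (mem_cons (W820 D T h) (mem_cons (W821 D T h) (mem_cons (W4 D T h) (mem_cons (W33 D T h) (mem_cons (W808 D T h) (mem_cons (W809 D T h) (mem_cons (W834 D T h) mem_nil))))))))))))))) cl233
theorem W1077 : WFK w1077 := fun D T h => wf_of_chk h mem_nil (mem_cons (L233 D T h) mem_nil) cw1077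
theorem W1078 : WFK w1078 := fun D T h => wf_of_chk h mem_nil (mem_cons (L226 D T h) mem_nil) cw1078
theorem W1079 : WFK w1079 := fun D T h => wf_of_chk h mem_nil (mem_cons (L229 D T h) mem_nil) cw1079
theorem W1080 : WFK w1080 := fun D T h => wf_of_chk h mem_nil (mem_cons (L227 D T h) mem_nil) cw1080
theorem W1081 : WFK w1081 := fun D T h => wf_of_chk h mem_nil (mem_cons (L228 D T h) mem_nil) cw1081
theorem L234 : LFK l234 := fun D T h => lf_of_chk h (mem_cons (W576 D T h) (mem_cons (W158 D T h) (mem_cons (W7 D T h) (mem_cons (W1072 D T h) (mem_cons (W1073 D T h) (mem_cons (W1074 D T h) (mem_cons (W816 D T h) (mem_cons (W1076 D T h) (mem_cons (W820 D T h) (mem_cons (W821 D T h) (mem_cons (W4 D T h) (mem_cons (W33 D T h) (mem_cons (W808 D T h) (mem_cons (W632 D T h) (mem_cons (W823 D T h) (mem_cons (W830 D T h) (mem_cons (W834 D T h) (mem_cons (W1078 D T h) (mem_cons (W1079 D T h) (mem_cons (W1080 D T h) (mem_cons (W1081 D T h) mem_nil))))))))))))))))))))) cl234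
theorem W1082 : WFK w1082 := fun D T h => wf_of_chk h mem_nil (mem_cons (L234 D T h) mem_nil) cw1082
theorem L235 : LFK l235 := fun D T h => lf_of_chk h (mem_cons (W915 D T h) (mem_cons (W7 D T h) (mem_cons (W4 D T h) (mem_cons (W841 D T h) (mem_cons (W842 D T h) (mem_cons (W840 D T h) mem_nil)))))) cl235
theorem W1083 : WFK w1083 := fun D T h => wf_of_chk h mem_nil (mem_cons (L235 D T h) mem_nil) cw1083
theorem L236 : LFK l236 := fun D T h => lf_of_chk h (mem_cons (W1076 D T h) (mem_cons (W1075 D T h) (mem_cons (W7 D T h) (mem_cons (W1072 D T h) (mem_cons (W1073 D T h) (mem_cons (W1074 D T h) (mem_cons (W848 D T h) (mem_cons (W845 D T h) (mem_cons (W846 D T h) (mem_cons (W847 D T h) (mem_cons (W844 D T h) mem_nil))))))))))) cl236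
theorem W1084 : WFK w1084 := fun D T h => wf_of_chk h mem_nil (mem_cons (L236 D T h) mem_nil) cw1084
theorem W1086 : WFK w1086 := fun D T h => wf_of_chk h mem_nil (mem_cons (L32 D T h) mem_nil) cw1086
theorem W1087 : WFK w1087 := fun D T h => wf_of_chk h mem_nil (mem_cons (L32 D T h) mem_nil) cw1087
theorem W1091 : WFK w1091 := fun D T h => wf_of_chk h mem_nil mem_nil cw1091
theorem W1092 : WFK w1092 := fun D T h => wf_of_chk h mem_nil (mem_cons (L32 D T h) mem_nil) cw1092
theorem W1093 : WFK w1093 := fun D T h => wf_of_chk h (mem_cons (W1092 D T h) mem_nil) mem_nil cw1093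
theorem L240 : LFK l240 := fun D T h => lf_of_chk h mem_nil cl240
theorem W1095 : WFK w1095 := fun D T h => wf_of_chk h mem_nil (mem_cons (L240 D T h) mem_nil) cw1095
theorem L241 : LFK l241 := fun D T h => lf_of_chk h mem_nil cl241
theorem W1098 : WFK w1098 := fun D T h => wf_of_chk h mem_nil (mem_cons (L241 D T h) mem_nil) cw1098
theorem W1099 : WFK w1099 := fun D T h => wf_of_chk h mem_nil (mem_cons (L196 D T h) mem_nil) cw1099
theorem L242 : LFK l242 := fun D T h => lf_of_chk h mem_nil cl242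
theorem W1100 : WFK w1100 := fun D T h => wf_of_chk h mem_nil (mem_cons (L242 D T h) mem_nil) cw1100
theorem W1101 : WFK w1101 := fun D T h => wf_of_chk h mem_nil (mem_cons (L178 D T h) mem_nil) cw1101
theorem W1104 : WFK w1104 := fun D T h => wf_of_chk h (mem_cons (W281 D T h) mem_nil) mem_nil cw1104
theorem L244 : LFK l244 := fun D T h => lf_of_chk h (mem_cons (W858 D T h) (mem_cons (W281 D T h) (mem_cons (W210 D T h) (mem_cons (W33 D T h) (mem_cons (W808 D T h) (mem_cons (W823 D T h) (mem_cons (W4 D T h) (mem_cons (W604 D T h) (mem_cons (W603 D T h) (mem_cons (W907 D T h) (mem_cons (W906 D T h) (mem_cons (W1047 D T h) (mem_cons (W1104 D T h) (mem_cons (W825 D T h) (mem_cons (W105 D T h) mem_nil))))))))))))))) cl244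
theorem W1105 : WFK w1105 := fun D T h => wf_of_chk h mem_nil (mem_cons (L244 D T h) mem_nil) cw1105
theorem L245 : LFK l245 := fun D T h => lf_of_chk h (mem_cons (W795 D T h) (mem_cons (W1 D T h) (mem_cons (W158 D T h) (mem_cons (W808 D T h) (mem_cons (W826 D T h) (mem_cons (W1077 D T h) (mem_cons (W576 D T h) (mem_cons (W1082 D T h) (mem_cons (W22 D T h) (mem_cons (W604 D T h) (mem_cons (W1074 D T h) (mem_cons (W1083 D T h) (mem_cons (W1084 D T h) (mem_cons (W889 D T h) (mem_cons (W1105 D T h) mem_nil))))))))))))))) cl245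
theorem W1106 : WFK w1106 := fun D T h => wf_of_chk h mem_nil (mem_cons (L245 D T h) mem_nil) cw1106
theorem L246 : LFK l246 := fun D T h => lf_of_chk h (mem_cons (W128 D T h) (mem_cons (W219 D T h) (mem_cons (W1 D T h) (mem_cons (W795 D T h) (mem_cons (W15 D T h) (mem_cons (W622 D T h) (mem_cons (W1065 D T h) (mem_cons (W581 D T h) (mem_cons (W801 D T h) (mem_cons (W1066 D T h) (mem_cons (W1067 D T h) (mem_cons (W1064 D T h) mem_nil)))))))))))) cl246
theorem W1107 : WFK w1107 := fun D T h => wf_of_chk h mem_nil (mem_cons (L246 D T h) mem_nil) cw1107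
theorem W1108 : WFK w1108 := fun D T h => wf_of_chk h mem_nil (mem_cons (L143 D T h) mem_nil) cw1108
theorem W1109 : WFK w1109 := fun D T h => wf_of_chk h mem_nil (mem_cons (L15 D T h) mem_nil) cw1109
theorem W1110 : WFK w1110 := fun D T h => wf_of_chk h mem_nil (mem_cons (L15 D T h) mem_nil) cw1110
theorem W1111 : WFK w1111 := fun D T h => wf_of_chk h mem_nil (mem_cons (L89 D T h) mem_nil) cw1111
theorem L247 : LFK l247 := fun D T h => lf_of_chk h mem_nil cl247
theorem W1112 : WFK w1112 := fun D T h => wf_of_chk h mem_nil (mem_cons (L247 D T h) mem_nil) cw1112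
theorem W1113 : WFK w1113 := fun D T h => wf_of_chk h (mem_cons (W1112 D T h) mem_nil) mem_nil cw1113
theorem L248 : LFK l248 := fun D T h => lf_of_chk h (mem_cons (W848 D T h) (mem_cons (W829 D T h) (mem_cons (W4 D T h) (mem_cons (W33 D T h) (mem_cons (W844 D T h) (mem_cons (W211 D T h) (mem_cons (W411 D T h) (mem_cons (W845 D T h) (mem_cons (W846 D T h) (mem_cons (W847 D T h) (mem_cons (W1113 D T h) mem_nil))))))))))) cl248
theorem W1114 : WFK w1114 := fun D T h => wf_of_chk h mem_nil (mem_cons (L248 D T h) mem_nil) cw1114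
theorem L249 : LFK l249 := fun D T h => lf_of_chk h mem_nil cl249
theorem W1115 : WFK w1115 := fun D T h => wf_of_chk h mem_nil (mem_cons (L249 D T h) mem_nil) cw1115
theorem W1116 : WFK w1116 := fun D T h => wf_of_chk h (mem_cons (W1115 D T h) mem_nil) mem_nil cw1116
theorem L250 : LFK l250 := fun D T h => lf_of_chk h (mem_cons (W848 D T h) (mem_cons (W833 D T h) (mem_cons (W4 D T h) (mem_cons (W33 D T h) (mem_cons (W844 D T h) (mem_cons (W211 D T h) (mem_cons (W411 D T h) (mem_cons (W845 D T h) (mem_cons (W846 D T h) (mem_cons (W847 D T h) (mem_cons (W1116 D T h) mem_nil))))))))))) cl250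
theorem W1117 : WFK w1117 := fun D T h => wf_of_chk h mem_nil (mem_cons (L250 D T h) mem_nil) cw1117
theorem W1118 : WFK w1118 := fun D T h => wf_of_chk h (mem_cons (W161 D T h) mem_nil) mem_nil cw1118
theorem W1119 : WFK w1119 := fun D T h => wf_of_chk h (mem_cons (W161 D T h) mem_nil) mem_nil cw1119
theorem W1120 : WFK w1120 := fun D T h => wf_of_chk h mem_nil (mem_cons (L227 D T h) mem_nil) cw1120
theorem W1121 : WFK w1121 := fun D T h => wf_of_chk h (mem_cons (W1120 D T h) mem_nil) mem_nil cw1121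
theorem W1122 : WFK w1122 := fun D T h => wf_of_chk h (mem_cons (W161 D T h) mem_nil) mem_nil cw1122
theorem L251 : LFK l251 := fun D T h => lf_of_chk h (mem_cons (W858 D T h) (mem_cons (W161 D T h) (mem_cons (W4 D T h) (mem_cons (W831 D T h) (mem_cons (W604 D T h) (mem_cons (W603 D T h) (mem_cons (W1073 D T h) (mem_cons (W1111 D T h) (mem_cons (W1121 D T h) (mem_cons (W1072 D T h) (mem_cons (W844 D T h) (mem_cons (W818 D T h) (mem_cons (W1076 D T h) (mem_cons (W848 D T h) (mem_cons (W1122 D T h) (mem_cons (W1114 D T h) (mem_cons (W1117 D T h) (mem_cons (W1047 D T h) (mem_cons (W1104 D T h) (mem_cons (W1118 D T h) (mem_cons (W1119 D T h) mem_nil))))))))))))))))))))) cl251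
theorem W1123 : WFK w1123 := fun D T h => wf_of_chk h mem_nil (mem_cons (L251 D T h) mem_nil) cw1123
theorem L252 : LFK l252 := fun D T h => lf_of_chk h (mem_cons (W1110 D T h) (mem_cons (W161 D T h) (mem_cons (W10 D T h) (mem_cons (W604 D T h) (mem_cons (W603 D T h) (mem_cons (W1111 D T h) (mem_cons (W844 D T h) (mem_cons (W849 D T h) (mem_cons (W1084 D T h) (mem_cons (W858 D T h) (mem_cons (W1123 D T h) mem_nil))))))))))) cl252
theorem W1124 : WFK w1124 := fun D T h => wf_of_chk h mem_nil (mem_cons (L252 D T h) mem_nil) cw1124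
theorem W1125 : WFK w1125 := fun D T h => wf_of_chk h mem_nil (mem_cons (L134 D T h) mem_nil) cw1125
theorem L253 : LFK l253 := fun D T h => lf_of_chk h (mem_cons (W128 D T h) (mem_cons (W622 D T h) (mem_cons (W1065 D T h) (mem_cons (W581 D T h) (mem_cons (W801 D T h) (mem_cons (W1066 D T h) (mem_cons (W1067 D T h) (mem_cons (W1110 D T h) (mem_cons (W15 D T h) (mem_cons (W219 D T h) (mem_cons (W1064 D T h) mem_nil))))))))))) cl253
theorem W1126 : WFK w1126 := fun D T h => wf_of_chk h mem_nil (mem_cons (L253 D T h) mem_nil) cw1126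
theorem L254 : LFK l254 := fun D T h => lf_of_chk h (mem_cons (W1065 D T h) (mem_cons (W366 D T h) (mem_cons (W1063 D T h) (mem_cons (W1 D T h) (mem_cons (W795 D T h) (mem_cons (W1108 D T h) (mem_cons (W111 D T h) (mem_cons (W1109 D T h) (mem_cons (W214 D T h) (mem_cons (W916 D T h) (mem_cons (W1124 D T h) (mem_cons (W1125 D T h) (mem_cons (W1126 D T h) (mem_cons (W1070 D T h) (mem_cons (W1071 D T h) (mem_cons (W1106 D T h) (mem_cons (W519 D T h) (mem_cons (W1107 D T h) mem_nil)))))))))))))))))) cl254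
theorem W1127 : WFK w1127 := fun D T h => wf_of_chk h mem_nil (mem_cons (L254 D T h) mem_nil) cw1127
theorem W1128 : WFK w1128 := fun D T h => wf_of_chk h mem_nil (mem_cons (L0 D T h) mem_nil) cw1128
theorem W1129 : WFK w1129 := fun D T h => wf_of_chk h mem_nil (mem_cons (L1 D T h) mem_nil) cw1129
theorem L255 : LFK l255 := fun D T h => lf_of_chk h (mem_cons (W581 D T h) (mem_cons (W367 D T h) (mem_cons (W1 D T h) (mem_cons (W368 D T h) (mem_cons (W140 D T h) (mem_cons (W141 D T h) (mem_cons (W1128 D T h) (mem_cons (W370 D T h) (mem_cons (W214 D T h) (mem_cons (W12 D T h) (mem_cons (W1129 D T h) (mem_cons (W1070 D T h) (mem_cons (W160 D T h) (mem_cons (W255 D T h) (mem_cons (W747 D T h) (mem_cons (W871 D T h) mem_nil)))))))))))))))) cl255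
theorem W1130 : WFK w1130 := fun D T h => wf_of_chk h mem_nil (mem_cons (L255 D T h) mem_nil) cw1130
theorem L256 : LFK l256 := fun D T h => lf_of_chk h (mem_cons (W802 D T h) (mem_cons (W5 D T h) (mem_cons (W278 D T h) (mem_cons (W412 D T h) (mem_cons (W235 D T h) (mem_cons (W396 D T h) mem_nil)))))) cl256
theorem W1131 : WFK w1131 := fun D T h => wf_of_chk h mem_nil (mem_cons (L256 D T h) mem_nil) cw1131
theorem W1132 : WFK w1132 := fun D T h => wf_of_chk h mem_nil (mem_cons (L14 D T h) mem_nil) cw1132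
theorem W1133 : WFK w1133 := fun D T h => wf_of_chk h (mem_cons (W616 D T h) (mem_cons (W16 D T h) mem_nil)) mem_nil cw1133
theorem W1134 : WFK w1134 := fun D T h => wf_of_chk h mem_nil (mem_cons (L231 D T h) mem_nil) cw1134
theorem W1135 : WFK w1135 := fun D T h => wf_of_chk h (mem_cons (W284 D T h) (mem_cons (W366 D T h) mem_nil)) mem_nil cw1135
theorem W1136 : WFK w1136 := fun D T h => wf_of_chk h (mem_cons (W16 D T h) (mem_cons (W366 D T h) mem_nil)) mem_nil cw1136
theorem W1137 : WFK w1137 := fun D T h => wf_of_chk h (mem_cons (W16 D T h) (mem_cons (W366 D T h) mem_nil)) mem_nil cw1137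
theorem L257 : LFK l257 := fun D T h => lf_of_chk h (mem_cons (W159 D T h) (mem_cons (W1120 D T h) (mem_cons (W158 D T h) (mem_cons (W432 D T h) mem_nil)))) cl257
theorem W1138 : WFK w1138 := fun D T h => wf_of_chk h mem_nil (mem_cons (L257 D T h) mem_nil) cw1138
theorem W1139 : WFK w1139 := fun D T h => wf_of_chk h mem_nil (mem_cons (L7 D T h) mem_nil) cw1139
theorem W1140 : WFK w1140 := fun D T h => wf_of_chk h (mem_cons (W1139 D T h) (mem_cons (W366 D T h) mem_nil)) mem_nil cw1140
theorem L258 : LFK l258 := fun D T h => lf_of_chk h (mem_cons (W261 D T h) (mem_cons (W15 D T h) (mem_cons (W170 D T h) (mem_cons (W219 D T h) mem_nil)))) cl258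
theorem W1141 : WFK w1141 := fun D T h => wf_of_chk h mem_nil (mem_cons (L258 D T h) mem_nil) cw1141
theorem W1142 : WFK w1142 := fun D T h => wf_of_chk h (mem_cons (W128 D T h) (mem_cons (W366 D T h) mem_nil)) mem_nil cw1142
theorem W1143 : WFK w1143 := fun D T h => wf_of_chk h mem_nil (mem_cons (L44 D T h) mem_nil) cw1143
theorem L259 : LFK l259 := fun D T h => lf_of_chk h (mem_cons (W170 D T h) (mem_cons (W499 D T h) (mem_cons (W15 D T h) (mem_cons (W158 D T h) (mem_cons (W11 D T h) (mem_cons (W1143 D T h) (mem_cons (W500 D T h) (mem_cons (W746 D T h) mem_nil)))))))) cl259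
theorem W1144 : WFK w1144 := fun D T h => wf_of_chk h mem_nil (mem_cons (L259 D T h) mem_nil) cw1144
theorem W1145 : WFK w1145 := fun D T h => wf_of_chk h mem_nil (mem_cons (L257 D T h) mem_nil) cw1145
theorem W1146 : WFK w1146 := fun D T h => wf_of_chk h (mem_cons (W179 D T h) (mem_cons (W284 D T h) mem_nil)) mem_nil cw1146
theorem W1147 : WFK w1147 := fun D T h => wf_of_chk h (mem_cons (W69 D T h) (mem_cons (W42 D T h) mem_nil)) mem_nil cw1147
theorem W1148 : WFK w1148 := fun D T h => wf_of_chk h (mem_cons (W1147 D T h) (mem_cons (W16 D T h) mem_nil)) mem_nil cw1148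
theorem W1149 : WFK w1149 := fun D T h => wf_of_chk h (mem_cons (W69 D T h) (mem_cons (W42 D T h) mem_nil)) mem_nil cw1149
theorem W1150 : WFK w1150 := fun D T h => wf_of_chk h (mem_cons (W1149 D T h) (mem_cons (W16 D T h) mem_nil)) mem_nil cw1150
theorem W1151 : WFK w1151 := fun D T h => wf_of_chk h (mem_cons (W337 D T h) (mem_cons (W366 D T h) mem_nil)) mem_nil cw1151
theorem W1152 : WFK w1152 := fun D T h => wf_of_chk h (mem_cons (W167 D T h) (mem_cons (W366 D T h) mem_nil)) mem_nil cw1152
theorem W1153 : WFK w1153 := fun D T h => wf_of_chk h mem_nil (mem_cons (L171 D T h) mem_nil) cw1153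
theorem W1154 : WFK w1154 := fun D T h => wf_of_chk h (mem_cons (W80 D T h) (mem_cons (W284 D T h) mem_nil)) mem_nil cw1154
theorem W1155 : WFK w1155 := fun D T h => wf_of_chk h (mem_cons (W1154 D T h) (mem_cons (W16 D T h) mem_nil)) mem_nil cw1155
theorem W1156 : WFK w1156 := fun D T h => wf_of_chk h (mem_cons (W75 D T h) (mem_cons (W284 D T h) mem_nil)) mem_nil cw1156
theorem W1157 : WFK w1157 := fun D T h => wf_of_chk h (mem_cons (W1156 D T h) (mem_cons (W16 D T h) mem_nil)) mem_nil cw1157
theorem W1158 : WFK w1158 := fun D T h => wf_of_chk h (mem_cons (W111 D T h) (mem_cons (W284 D T h) mem_nil)) mem_nil cw1158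
theorem W1159 : WFK w1159 := fun D T h => wf_of_chk h (mem_cons (W284 D T h) mem_nil) mem_nil cw1159
theorem W1160 : WFK w1160 := fun D T h => wf_of_chk h (mem_cons (W721 D T h) (mem_cons (W284 D T h) mem_nil)) mem_nil cw1160
theorem W1161 : WFK w1161 := fun D T h => wf_of_chk h (mem_cons (W112 D T h) (mem_cons (W16 D T h) mem_nil)) mem_nil cw1161
theorem W1162 : WFK w1162 := fun D T h => wf_of_chk h (mem_cons (W1161 D T h) (mem_cons (W284 D T h) mem_nil)) mem_nil cw1162
theorem W1163 : WFK w1163 := fun D T h => wf_of_chk h (mem_cons (W267 D T h) (mem_cons (W284 D T h) mem_nil)) mem_nil cw1163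
theorem W1164 : WFK w1164 := fun D T h => wf_of_chk h (mem_cons (W83 D T h) (mem_cons (W284 D T h) mem_nil)) mem_nil cw1164
theorem W1165 : WFK w1165 := fun D T h => wf_of_chk h (mem_cons (W126 D T h) (mem_cons (W1145 D T h) mem_nil)) mem_nil cw1165
theorem W1166 : WFK w1166 := fun D T h => wf_of_chk h mem_nil (mem_cons (L143 D T h) mem_nil) cw1166
theorem W1167 : WFK w1167 := fun D T h => wf_of_chk h (mem_cons (W1166 D T h) (mem_cons (W284 D T h) mem_nil)) mem_nil cw1167
theorem L260 : LFK l260 := fun D T h => lf_of_chk h (mem_cons (W1135 D T h) (mem_cons (W1144 D T h) (mem_cons (W1145 D T h) (mem_cons (W1063 D T h) (mem_cons (W16 D T h) (mem_cons (W1164 D T h) (mem_cons (W1167 D T h) (mem_cons (W1165 D T h) (mem_cons (W1166 D T h) (mem_cons (W799 D T h) (mem_cons (W1154 D T h) (mem_cons (W1155 D T h) (mem_cons (W1157 D T h) (mem_cons (W1133 D T h) (mem_cons (W1146 D T h) (mem_cons (W1158 D T h) (mem_cons (W1159 D T h) (mem_cons (W1160 D T h) (mem_cons (W1162 D T h) (mem_cons (W1163 D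 T h) (mem_cons (W1069 D T h) (mem_cons (W1136 D T h) (mem_cons (W1137 D T h) (mem_cons (W1148 D T h) (mem_cons (W1150 D T h) (mem_cons (W1151 D T h) (mem_cons (W1152 D T h) (mem_cons (W1153 D T h) (mem_cons (W128 D T h) (mem_cons (W1138 D T h) (mem_cons (W1015 D T h) (mem_cons (W1140 D T h) (mem_cons (W1141 D T h) (mem_cons (W1142 D T h) mem_nil)))))))))))))))))))))))))))))))))) cl260
theorem W1168 : WFK w1168 := fun D T h => wf_of_chk h mem_nil (mem_cons (L260 D T h) mem_nil) cw1168
theorem W1169 : WFK w1169 := fun D T h => wf_of_chk h mem_nil (mem_cons (L135 D T h) mem_nil) cw1169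
theorem W1170 : WFK w1170 := fun D T h => wf_of_chk h mem_nil (mem_cons (L15 D T h) mem_nil) cw1170
theorem L261 : LFK l261 := fun D T h => lf_of_chk h (mem_cons (W181 D T h) (mem_cons (W16 D T h) mem_nil)) cl261
theorem W1171 : WFK w1171 := fun D T h => wf_of_chk h mem_nil (mem_cons (L261 D T h) mem_nil) cw1171
theorem W1172 : WFK w1172 := fun D T h => wf_of_chk h mem_nil (mem_cons (L120 D T h) mem_nil) cw1172
theorem L262 : LFK l262 := fun D T h => lf_of_chk h (mem_cons (W32 D T h) mem_nil) cl262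
theorem W1173 : WFK w1173 := fun D T h => wf_of_chk h mem_nil (mem_cons (L262 D T h) mem_nil) cw1173
theorem L263 : LFK l263 := fun D T h => lf_of_chk h (mem_cons (W802 D T h) (mem_cons (W32 D T h) (mem_cons (W5 D T h) (mem_cons (W315 D T h) (mem_cons (W217 D T h) (mem_cons (W922 D T h) (mem_cons (W174 D T h) (mem_cons (W815 D T h) (mem_cons (W819 D T h) mem_nil))))))))) cl263
theorem W1174 : WFK w1174 := fun D T h => wf_of_chk h mem_nil (mem_cons (L263 D T h) mem_nil) cw1174
theorem W1175 : WFK w1175 := fun D T h => wf_of_chk h mem_nil (mem_cons (L232 D T h) mem_nil) cw1175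
theorem W1176 : WFK w1176 := fun D T h => wf_of_chk h mem_nil (mem_cons (L262 D T h) mem_nil) cw1176
theorem W1177 : WFK w1177 := fun D T h => wf_of_chk h mem_nil (mem_cons (L4 D T h) mem_nil) cw1177
theorem L264 : LFK l264 := fun D T h => lf_of_chk h (mem_cons (W1172 D T h) (mem_cons (W67 D T h) (mem_cons (W1177 D T h) (mem_cons (W32 D T h) (mem_cons (W78 D T h) (mem_cons (W1173 D T h) (mem_cons (W315 D T h) (mem_cons (W1174 D T h) (mem_cons (W1175 D T h) (mem_cons (W140 D T h) (mem_cons (W141 D T h) (mem_cons (W1176 D T h) mem_nil)))))))))))) cl264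
theorem W1178 : WFK w1178 := fun D T h => wf_of_chk h mem_nil (mem_cons (L264 D T h) mem_nil) cw1178
theorem W1179 : WFK w1179 := fun D T h => wf_of_chk h mem_nil (mem_cons (L232 D T h) mem_nil) cw1179
theorem W1180 : WFK w1180 := fun D T h => wf_of_chk h mem_nil (mem_cons (L261 D T h) mem_nil) cw1180
theorem W1181 : WFK w1181 := fun D T h => wf_of_chk h mem_nil mem_nil cw1181
theorem L265 : LFK l265 := fun D T h => lf_of_chk h (mem_cons (W642 D T h) (mem_cons (W181 D T h) (mem_cons (W1170 D T h) (mem_cons (W1171 D T h) (mem_cons (W675 D T h) (mem_cons (W1178 D T h) (mem_cons (W1179 D T h) (mem_cons (W140 D T h) (mem_cons (W141 D T h) (mem_cons (W1180 D T h) (mem_cons (W67 D T h) (mem_cons (W143 D T h) (mem_cons (W1172 D T h) (mem_cons (W86 D T h) (mem_cons (W1181 D T h) (mem_cons (W80 D T h) mem_nil)))))))))))))))) cl265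
theorem W1182 : WFK w1182 := fun D T h => wf_of_chk h mem_nil (mem_cons (L265 D T h) mem_nil) cw1182
theorem L266 : LFK l266 := fun D T h => lf_of_chk h (mem_cons (W799 D T h) (mem_cons (W16 D T h) (mem_cons (W241 D T h) (mem_cons (W912 D T h) (mem_cons (W1051 D T h) mem_nil))))) cl266
theorem W1183 : WFK w1183 := fun D T h => wf_of_chk h mem_nil (mem_cons (L266 D T h) mem_nil) cw1183
theorem W1184 : WFK w1184 := fun D T h => wf_of_chk h (mem_cons (W16 D T h) mem_nil) mem_nil cw1184
theorem W1185 : WFK w1185 := fun D T h => wf_of_chk h (mem_cons (W1184 D T h) (mem_cons (W16 D T h) mem_nil)) mem_nil cw1185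
theorem W1186 : WFK w1186 := fun D T h => wf_of_chk h mem_nil (mem_cons (L266 D T h) mem_nil) cw1186
theorem W1187 : WFK w1187 := fun D T h => wf_of_chk h mem_nil (mem_cons (L266 D T h) mem_nil) cw1187
theorem W1188 : WFK w1188 := fun D T h => wf_of_chk h mem_nil (mem_cons (L254 D T h) mem_nil) cw1188
theorem W1189 : WFK w1189 := fun D T h => wf_of_chk h mem_nil (mem_cons (L45 D T h) mem_nil) cw1189
theorem L267 : LFK l267 := fun D T h => lf_of_chk h (mem_cons (W160 D T h) (mem_cons (W91 D T h) (mem_cons (W4 D T h) (mem_cons (W638 D T h) (mem_cons (W158 D T h) (mem_cons (W432 D T h) (mem_cons (W1120 D T h) mem_nil))))))) cl267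
theorem W1190 : WFK w1190 := fun D T h => wf_of_chk h mem_nil (mem_cons (L267 D T h) mem_nil) cw1190
theorem W1191 : WFK w1191 := fun D T h => wf_of_chk h mem_nil (mem_cons (L267 D T h) mem_nil) cw1191
theorem L268 : LFK l268 := fun D T h => lf_of_chk h (mem_cons (W154 D T h) (mem_cons (W1 D T h) (mem_cons (W15 D T h) (mem_cons (W158 D T h) (mem_cons (W160 D T h) (mem_cons (W159 D T h) (mem_cons (W149 D T h) (mem_cons (W638 D T h) (mem_cons (W161 D T h) mem_nil))))))))) cl268
theorem W1192 : WFK w1192 := fun D T h => wf_of_chk h mem_nil (mem_cons (L268 D T h) mem_nil) cw1192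
theorem W1193 : WFK w1193 := fun D T h => wf_of_chk h mem_nil (mem_cons (L267 D T h) mem_nil) cw1193
theorem L269 : LFK l269 := fun D T h => lf_of_chk h (mem_cons (W154 D T h) (mem_cons (W161 D T h) (mem_cons (W1075 D T h) (mem_cons (W160 D T h) (mem_cons (W159 D T h) (mem_cons (W430 D T h) mem_nil)))))) cl269
theorem W1194 : WFK w1194 := fun D T h => wf_of_chk h mem_nil (mem_cons (L269 D T h) mem_nil) cw1194
theorem L270 : LFK l270 := fun D T h => lf_of_chk h (mem_cons (W154 D T h) (mem_cons (W168 D T h) (mem_cons (W281 D T h) (mem_cons (W431 D T h) (mem_cons (W174 D T h) (mem_cons (W815 D T h) (mem_cons (W4 D T h) (mem_cons (W817 D T h) (mem_cons (W926 D T h) (mem_cons (W160 D T h) (mem_cons (W170 D T h) (mem_cons (W927 D T h) mem_nil)))))))))))) cl270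
theorem W1195 : WFK w1195 := fun D T h => wf_of_chk h mem_nil (mem_cons (L270 D T h) mem_nil) cw1195
theorem W1196 : WFK w1196 := fun D T h => wf_of_chk h mem_nil (mem_cons (L43 D T h) mem_nil) cw1196
theorem L271 : LFK l271 := fun D T h => lf_of_chk h (mem_cons (W1066 D T h) (mem_cons (W1063 D T h) (mem_cons (W154 D T h) (mem_cons (W798 D T h) (mem_cons (W1189 D T h) (mem_cons (W366 D T h) (mem_cons (W1065 D T h) (mem_cons (W581 D T h) (mem_cons (W910 D T h) (mem_cons (W1196 D T h) (mem_cons (W1106 D T h) (mem_cons (W747 D T h) (mem_cons (W1190 D T h) (mem_cons (W1138 D T h) (mem_cons (W1191 D T h) (mem_cons (W1192 D T h) (mem_cons (W1161 D T h) (mem_cons (W1124 D T h) (mem_cons (W1193 D T h) (mem_cons (W1194 D T h) (mem_cons (W1195 D T h) mem_nil))))))))))))))))))))) cl271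
theorem W1197 : WFK w1197 := fun D T h => wf_of_chk h mem_nil (mem_cons (L271 D T h) mem_nil) cw1197
theorem W1198 : WFK w1198 := fun D T h => wf_of_chk h mem_nil (mem_cons (L143 D T h) mem_nil) cw1198
theorem W1199 : WFK w1199 := fun D T h => wf_of_chk h mem_nil (mem_cons (L119 D T h) mem_nil) cw1199
theorem W1200 : WFK w1200 := fun D T h => wf_of_chk h (mem_cons (W56 D T h) mem_nil) mem_nil cw1200
theorem W1201 : WFK w1201 := fun D T h => wf_of_chk h mem_nil (mem_cons (L57 D T h) mem_nil) cw1201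
theorem W1202 : WFK w1202 := fun D T h => wf_of_chk h (mem_cons (W220 D T h) mem_nil) mem_nil cw1202
theorem W1203 : WFK w1203 := fun D T h => wf_of_chk h mem_nil (mem_cons (L125 D T h) mem_nil) cw1203
theorem W1204 : WFK w1204 := fun D T h => wf_of_chk h mem_nil (mem_cons (L37 D T h) mem_nil) cw1204
theorem W1205 : WFK w1205 := fun D T h => wf_of_chk h (mem_cons (W42 D T h) mem_nil) mem_nil cw1205
theorem W1206 : WFK w1206 := fun D T h => wf_of_chk h mem_nil (mem_cons (L143 D T h) mem_nil) cw1206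
theorem L272 : LFK l272 := fun D T h => lf_of_chk h (mem_cons (W1198 D T h) (mem_cons (W164 D T h) (mem_cons (W69 D T h) (mem_cons (W16 D T h) (mem_cons (W93 D T h) (mem_cons (W86 D T h) (mem_cons (W85 D T h) (mem_cons (W84 D T h) (mem_cons (W1206 D T h) (mem_cons (W105 D T h) (mem_cons (W391 D T h) (mem_cons (W78 D T h) (mem_cons (W33 D T h) (mem_cons (W1199 D T h) (mem_cons (W573 D T h) (mem_cons (W1200 D T h) (mem_cons (W1201 D T h) (mem_cons (W1202 D T h) (mem_cons (W1203 D T h) (mem_cons (W937 D T h) (mem_cons (W970 D T h) (mem_cons (W1170 D T h) (mem_cons (W1204 D T h) (mem_cons (W1205 D T h) mem_nil)))))))))))))))))))))))) cl272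
theorem W1207 : WFK w1207 := fun D T h => wf_of_chk h mem_nil (mem_cons (L272 D T h) mem_nil) cw1207
theorem W1208 : WFK w1208 := fun D T h => wf_of_chk h (mem_cons (W1207 D T h) (mem_cons (W16 D T h) mem_nil)) mem_nil cw1208
theorem W1209 : WFK w1209 := fun D T h => wf_of_chk h mem_nil (mem_cons (L222 D T h) mem_nil) cw1209
theorem L273 : LFK l273 := fun D T h => lf_of_chk h (mem_cons (W128 D T h) (mem_cons (W1063 D T h) (mem_cons (W15 D T h) (mem_cons (W219 D T h) (mem_cons (W1064 D T h) (mem_cons (W366 D T h) (mem_cons (W1065 D T h) (mem_cons (W581 D T h) (mem_cons (W801 D T h) (mem_cons (W1192 D T h) (mem_cons (W1067 D T h) (mem_cons (W1107 D T h) (mem_cons (W1126 D T h) (mem_cons (W1193 D T h) (mem_cons (W1209 D T h) mem_nil))))))))))))))) cl273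
theorem W1210 : WFK w1210 := fun D T h => wf_of_chk h mem_nil (mem_cons (L273 D T h) mem_nil) cw1210
theorem L274 : LFK l274 := fun D T h => lf_of_chk h (mem_cons (W1068 D T h) (mem_cons (W1063 D T h) (mem_cons (W16 D T h) (mem_cons (W682 D T h) (mem_cons (W1188 D T h) (mem_cons (W162 D T h) (mem_cons (W167 D T h) (mem_cons (W1197 D T h) (mem_cons (W1208 D T h) (mem_cons (W1210 D T h) (mem_cons (W1069 D T h) (mem_cons (W366 D T h) (mem_cons (W1127 D T h) (mem_cons (W128 D T h) (mem_cons (W1130 D T h) (mem_cons (W1134 D T h) (mem_cons (W1168 D T h) (mem_cons (W1169 D T h) (mem_cons (W799 D T h) (mem_cons (W1182 D T h) (mem_cons (W1183 D T h) (mem_cons (W1185 D T h) (mem_cons (W1186 D T h) (mem_cons (W1187 D T h) mem_nil)))))))))))))))))))))))) cl274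
theorem W1211 : WFK w1211 := fun D T h => wf_of_chk h mem_nil (mem_cons (L274 D T h) mem_nil) cw1211
theorem W1212 : WFK w1212 := fun D T h => wf_of_chk h (mem_cons (W1211 D T h) mem_nil) mem_nil cw1212
theorem W1213 : WFK w1213 := fun D T h => wf_of_chk h mem_nil (mem_cons (L258 D T h) mem_nil) cw1213
theorem W1214 : WFK w1214 := fun D T h => wf_of_chk h (mem_cons (W384 D T h) mem_nil) mem_nil cw1214
theorem W1215 : WFK w1215 := fun D T h => wf_of_chk h (mem_cons (W143 D T h) (mem_cons (W495 D T h) mem_nil)) mem_nil cw1215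
theorem W1216 : WFK w1216 := fun D T h => wf_of_chk h mem_nil (mem_cons (L155 D T h) mem_nil) cw1216
theorem W1217 : WFK w1217 := fun D T h => wf_of_chk h mem_nil (mem_cons (L155 D T h) mem_nil) cw1217
theorem W1218 : WFK w1218 := fun D T h => wf_of_chk h mem_nil (mem_cons (L155 D T h) mem_nil) cw1218
theorem L275 : LFK l275 := fun D T h => lf_of_chk h (mem_cons (W754 D T h) (mem_cons (W3 D T h) (mem_cons (W39 D T h) (mem_cons (W143 D T h) (mem_cons (W720 D T h) (mem_cons (W740 D T h) (mem_cons (W734 D T h) (mem_cons (W256 D T h) (mem_cons (W258 D T h) (mem_cons (W767 D T h) (mem_cons (W783 D T h) (mem_cons (W753 D T h) (mem_cons (W741 D T h) (mem_cons (W990 D T h) (mem_cons (W717 D T h) (mem_cons (W751 D T h) (mem_cons (W752 D T h) mem_nil))))))))))))))))) cl275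
theorem W1219 : WFK w1219 := fun D T h => wf_of_chk h mem_nil (mem_cons (L275 D T h) mem_nil) cw1219
theorem W1220 : WFK w1220 := fun D T h => wf_of_chk h (mem_cons (W519 D T h) mem_nil) mem_nil cw1220
theorem W1221 : WFK w1221 := fun D T h => wf_of_chk h mem_nil (mem_cons (L157 D T h) mem_nil) cw1221
theorem W1222 : WFK w1222 := fun D T h => wf_of_chk h mem_nil (mem_cons (L92 D T h) mem_nil) cw1222
theorem L276 : LFK l276 := fun D T h => lf_of_chk h (mem_cons (W17 D T h) (mem_cons (W946 D T h) (mem_cons (W495 D T h) (mem_cons (W202 D T h) (mem_cons (W203 D T h) (mem_cons (W1222 D T h) (mem_cons (W3 D T h) (mem_cons (W200 D T h) (mem_cons (W199 D T h) (mem_cons (W201 D T h) mem_nil)))))))))) cl276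
theorem W1223 : WFK w1223 := fun D T h => wf_of_chk h mem_nil (mem_cons (L276 D T h) mem_nil) cw1223
theorem W1224 : WFK w1224 := fun D T h => wf_of_chk h (mem_cons (W946 D T h) mem_nil) mem_nil cw1224
theorem L277 : LFK l277 := fun D T h => lf_of_chk h (mem_cons (W758 D T h) (mem_cons (W14 D T h) (mem_cons (W1221 D T h) (mem_cons (W946 D T h) (mem_cons (W181 D T h) (mem_cons (W495 D T h) (mem_cons (W724 D T h) (mem_cons (W725 D T h) (mem_cons (W1219 D T h) (mem_cons (W42 D T h) (mem_cons (W755 D T h) (mem_cons (W1220 D T h) (mem_cons (W713 D T h) (mem_cons (W1214 D T h) (mem_cons (W1215 D T h) (mem_cons (W1216 D T h) (mem_cons (W944 D T h) (mem_cons (W1217 D T h) (mem_cons (W1218 D T h) (mem_cons (W1223 D T h) (mem_cons (W772 D T h) (mem_cons (W786 D T h) (mem_cons (W1224 D T h) mem_nil))))))))))))))))))))))) cl277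
theorem W1225 : WFK w1225 := fun D T h => wf_of_chk h mem_nil (mem_cons (L277 D T h) mem_nil) cw1225
theorem W1226 : WFK w1226 := fun D T h => wf_of_chk h mem_nil (mem_cons (L45 D T h) mem_nil) cw1226
theorem W1227 : WFK w1227 := fun D T h => wf_of_chk h mem_nil (mem_cons (L81 D T h) mem_nil) cw1227
theorem L278 : LFK l278 := fun D T h => lf_of_chk h (mem_cons (W281 D T h) (mem_cons (W38 D T h) (mem_cons (W815 D T h) (mem_cons (W109 D T h) (mem_cons (W20 D T h) (mem_cons (W4 D T h) (mem_cons (W170 D T h) (mem_cons (W172 D T h) (mem_cons (W976 D T h) (mem_cons (W1120 D T h) mem_nil)))))))))) cl278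
theorem W1228 : WFK w1228 := fun D T h => wf_of_chk h mem_nil (mem_cons (L278 D T h) mem_nil) cw1228
theorem W1229 : WFK w1229 := fun D T h => wf_of_chk h (mem_cons (W1228 D T h) mem_nil) mem_nil cw1229
theorem W1230 : WFK w1230 := fun D T h => wf_of_chk h (mem_cons (W143 D T h) (mem_cons (W495 D T h) mem_nil)) mem_nil cw1230
theorem W1231 : WFK w1231 := fun D T h => wf_of_chk h mem_nil (mem_cons (L45 D T h) mem_nil) cw1231
theorem W1232 : WFK w1232 := fun D T h => wf_of_chk h (mem_cons (W521 D T h) mem_nil) mem_nil cw1232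
theorem W1233 : WFK w1233 := fun D T h => wf_of_chk h mem_nil (mem_cons (L157 D T h) mem_nil) cw1233
theorem W1234 : WFK w1234 := fun D T h => wf_of_chk h mem_nil (mem_cons (L158 D T h) mem_nil) cw1234
theorem W1235 : WFK w1235 := fun D T h => wf_of_chk h mem_nil (mem_cons (L92 D T h) mem_nil) cw1235
theorem L279 : LFK l279 := fun D T h => lf_of_chk h (mem_cons (W17 D T h) (mem_cons (W1227 D T h) (mem_cons (W495 D T h) (mem_cons (W202 D T h) (mem_cons (W203 D T h) (mem_cons (W1234 D T h) (mem_cons (W1235 D T h) (mem_cons (W3 D T h) (mem_cons (W200 D T h) (mem_cons (W199 D T h) (mem_cons (W201 D T h) mem_nil))))))))))) cl279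
theorem W1236 : WFK w1236 := fun D T h => wf_of_chk h mem_nil (mem_cons (L279 D T h) mem_nil) cw1236
theorem W1237 : WFK w1237 := fun D T h => wf_of_chk h mem_nil (mem_cons (L158 D T h) mem_nil) cw1237
theorem W1238 : WFK w1238 := fun D T h => wf_of_chk h mem_nil (mem_cons (L92 D T h) mem_nil) cw1238
theorem L280 : LFK l280 := fun D T h => lf_of_chk h (mem_cons (W17 D T h) (mem_cons (W1226 D T h) (mem_cons (W1227 D T h) (mem_cons (W497 D T h) (mem_cons (W203 D T h) (mem_cons (W202 D T h) (mem_cons (W1237 D T h) (mem_cons (W1238 D T h) (mem_cons (W3 D T h) (mem_cons (W200 D T h) (mem_cons (W201 D T h) (mem_cons (W199 D T h) mem_nil)))))))))))) cl280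
theorem W1239 : WFK w1239 := fun D T h => wf_of_chk h mem_nil (mem_cons (L280 D T h) mem_nil) cw1239
theorem W1240 : WFK w1240 := fun D T h => wf_of_chk h (mem_cons (W1227 D T h) mem_nil) mem_nil cw1240
theorem L281 : LFK l281 := fun D T h => lf_of_chk h (mem_cons (W758 D T h) (mem_cons (W14 D T h) (mem_cons (W1233 D T h) (mem_cons (W1226 D T h) (mem_cons (W1227 D T h) (mem_cons (W181 D T h) (mem_cons (W497 D T h) (mem_cons (W724 D T h) (mem_cons (W725 D T h) (mem_cons (W1219 D T h) (mem_cons (W1231 D T h) (mem_cons (W164 D T h) (mem_cons (W755 D T h) (mem_cons (W42 D T h) (mem_cons (W1232 D T h) (mem_cons (W581 D T h) (mem_cons (W714 D T h) (mem_cons (W1229 D T h) (mem_cons (W1230 D T h) (mem_cons (W1216 D T h) (mem_cons (W944 D T h) (mem_cons (W1217 D T h) (mem_cons (W1218 D T h) (mem_cons (W1236 D T h) (mem_cons (W1239 D T h) (mem_cons (W772 D T h) (mem_cons (W786 D T h) (mem_cons (W1240 D T h) mem_nil)))))))))))))))))))))))))))) cl281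
theorem W1241 : WFK w1241 := fun D T h => wf_of_chk h mem_nil (mem_cons (L281 D T h) mem_nil) cw1241
theorem W1242 : WFK w1242 := fun D T h => wf_of_chk h (mem_cons (W37 D T h) mem_nil) mem_nil cw1242
theorem W1243 : WFK w1243 := fun D T h => wf_of_chk h mem_nil (mem_cons (L17 D T h) mem_nil) cw1243
theorem W1244 : WFK w1244 := fun D T h => wf_of_chk h mem_nil (mem_cons (L176 D T h) mem_nil) cw1244
theorem W1245 : WFK w1245 := fun D T h => wf_of_chk h mem_nil (mem_cons (L3 D T h) mem_nil) cw1245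
theorem W1246 : WFK w1246 := fun D T h => wf_of_chk h mem_nil (mem_cons (L3 D T h) mem_nil) cw1246
theorem W1247 : WFK w1247 := fun D T h => wf_of_chk h mem_nil (mem_cons (L176 D T h) mem_nil) cw1247
theorem W1248 : WFK w1248 := fun D T h => wf_of_chk h mem_nil mem_nil cw1248
theorem W1249 : WFK w1249 := fun D T h => wf_of_chk h mem_nil (mem_cons (L163 D T h) mem_nil) cw1249
theorem L282 : LFK l282 := fun D T h => lf_of_chk h (mem_cons (W1247 D T h) (mem_cons (W1249 D T h) (mem_cons (W1248 D T h) (mem_cons (W211 D T h) mem_nil)))) cl282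
theorem W1250 : WFK w1250 := fun D T h => wf_of_chk h mem_nil (mem_cons (L282 D T h) mem_nil) cw1250
theorem L283 : LFK l283 := fun D T h => lf_of_chk h (mem_cons (W13 D T h) (mem_cons (W177 D T h) (mem_cons (W1033 D T h) (mem_cons (W1244 D T h) (mem_cons (W1245 D T h) (mem_cons (W1246 D T h) (mem_cons (W1250 D T h) mem_nil))))))) cl283
theorem W1251 : WFK w1251 := fun D T h => wf_of_chk h mem_nil (mem_cons (L283 D T h) mem_nil) cw1251
theorem W1252 : WFK w1252 := fun D T h => wf_of_chk h mem_nil (mem_cons (L17 D T h) mem_nil) cw1252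
theorem L284 : LFK l284 := fun D T h => lf_of_chk h mem_nil cl284
theorem W1253 : WFK w1253 := fun D T h => wf_of_chk h mem_nil (mem_cons (L284 D T h) mem_nil) cw1253
theorem L285 : LFK l285 := fun D T h => lf_of_chk h (mem_cons (W351 D T h) (mem_cons (W181 D T h) (mem_cons (W2 D T h) (mem_cons (W37 D T h) (mem_cons (W1253 D T h) (mem_cons (W3 D T h) (mem_cons (W39 D T h) (mem_cons (W1242 D T h) (mem_cons (W278 D T h) (mem_cons (W988 D T h) (mem_cons (W1243 D T h) (mem_cons (W989 D T h) (mem_cons (W1251 D T h) (mem_cons (W1252 D T h) mem_nil)))))))))))))) cl285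
theorem W1254 : WFK w1254 := fun D T h => wf_of_chk h mem_nil (mem_cons (L285 D T h) mem_nil) cw1254
theorem W1255 : WFK w1255 := fun D T h => wf_of_chk h mem_nil mem_nil cw1255
theorem L286 : LFK l286 := fun D T h => lf_of_chk h (mem_cons (W202 D T h) (mem_cons (W3 D T h) mem_nil)) cl286
theorem W1256 : WFK w1256 := fun D T h => wf_of_chk h mem_nil (mem_cons (L286 D T h) mem_nil) cw1256
theorem W1257 : WFK w1257 := fun D T h => wf_of_chk h (mem_cons (W726 D T h) mem_nil) mem_nil cw1257
theorem L287 : LFK l287 := fun D T h => lf_of_chk h mem_nil cl287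
theorem W1258 : WFK w1258 := fun D T h => wf_of_chk h mem_nil (mem_cons (L287 D T h) mem_nil) cw1258
theorem W1259 : WFK w1259 := fun D T h => wf_of_chk h mem_nil (mem_cons (L180 D T h) mem_nil) cw1259
theorem W1260 : WFK w1260 := fun D T h => wf_of_chk h mem_nil (mem_cons (L181 D T h) mem_nil) cw1260
theorem W1261 : WFK w1261 := fun D T h => wf_of_chk h mem_nil (mem_cons (L284 D T h) mem_nil) cw1261
theorem W1262 : WFK w1262 := fun D T h => wf_of_chk h mem_nil (mem_cons (L287 D T h) mem_nil) cw1262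
theorem L288 : LFK l288 := fun D T h => lf_of_chk h (mem_cons (W53 D T h) (mem_cons (W187 D T h) (mem_cons (W1258 D T h) (mem_cons (W1262 D T h) (mem_cons (W729 D T h) (mem_cons (W1259 D T h) (mem_cons (W1260 D T h) (mem_cons (W291 D T h) (mem_cons (W1261 D T h) mem_nil))))))))) cl288
theorem W1263 : WFK w1263 := fun D T h => wf_of_chk h mem_nil (mem_cons (L288 D T h) mem_nil) cw1263
theorem W1264 : WFK w1264 := fun D T h => wf_of_chk h mem_nil (mem_cons (L160 D T h) mem_nil) cw1264
theorem W1265 : WFK w1265 := fun D T h => wf_of_chk h mem_nil (mem_cons (L160 D T h) mem_nil) cw1265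
theorem W1266 : WFK w1266 := fun D T h => wf_of_chk h mem_nil (mem_cons (L160 D T h) mem_nil) cw1266
theorem W1267 : WFK w1267 := fun D T h => wf_of_chk h mem_nil mem_nil cw1267
theorem W1268 : WFK w1268 := fun D T h => wf_of_chk h mem_nil mem_nil cw1268
theorem W1269 : WFK w1269 := fun D T h => wf_of_chk h mem_nil mem_nil cw1269
theorem L289 : LFK l289 := fun D T h => lf_of_chk h (mem_cons (W742 D T h) (mem_cons (W3 D T h) (mem_cons (W750 D T h) (mem_cons (W12 D T h) (mem_cons (W520 D T h) (mem_cons (W767 D T h) (mem_cons (W1267 D T h) (mem_cons (W1262 D T h) (mem_cons (W1269 D T h) (mem_cons (W741 D T h) (mem_cons (W652 D T h) (mem_cons (W768 D T h) (mem_cons (W769 D T h) (mem_cons (W770 D T h) (mem_cons (W771 D T h) mem_nil))))))))))))))) cl289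
theorem W1270 : WFK w1270 := fun D T h => wf_of_chk h mem_nil (mem_cons (L289 D T h) mem_nil) cw1270
theorem W1271 : WFK w1271 := fun D T h => wf_of_chk h mem_nil mem_nil cw1271
theorem W1272 : WFK w1272 := fun D T h => wf_of_chk h mem_nil (mem_cons (L64 D T h) mem_nil) cw1272
theorem W1273 : WFK w1273 := fun D T h => wf_of_chk h mem_nil mem_nil cw1273
theorem L290 : LFK l290 := fun D T h => lf_of_chk h (mem_cons (W742 D T h) (mem_cons (W3 D T h) (mem_cons (W750 D T h) (mem_cons (W12 D T h) (mem_cons (W520 D T h) (mem_cons (W767 D T h) (mem_cons (W1271 D T h) (mem_cons (W1262 D T h) (mem_cons (W1273 D T h) (mem_cons (W749 D T h) (mem_cons (W768 D T h) (mem_cons (W769 D T h) (mem_cons (W770 D T h) (mem_cons (W771 D T h) mem_nil)))))))))))))) cl290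
theorem W1274 : WFK w1274 := fun D T h => wf_of_chk h mem_nil (mem_cons (L290 D T h) mem_nil) cw1274
theorem W1275 : WFK w1275 := fun D T h => wf_of_chk h mem_nil (mem_cons (L159 D T h) mem_nil) cw1275
theorem W1276 : WFK w1276 := fun D T h => wf_of_chk h mem_nil (mem_cons (L159 D T h) mem_nil) cw1276
theorem W1277 : WFK w1277 := fun D T h => wf_of_chk h mem_nil (mem_cons (L25 D T h) mem_nil) cw1277
theorem W1278 : WFK w1278 := fun D T h => wf_of_chk h mem_nil (mem_cons (L284 D T h) mem_nil) cw1278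
theorem L291 : LFK l291 := fun D T h => lf_of_chk h (mem_cons (W292 D T h) (mem_cons (W33 D T h) (mem_cons (W1277 D T h) (mem_cons (W1278 D T h) (mem_cons (W278 D T h) (mem_cons (W891 D T h) mem_nil)))))) cl291
theorem W1279 : WFK w1279 := fun D T h => wf_of_chk h mem_nil (mem_cons (L291 D T h) mem_nil) cw1279
theorem W1280 : WFK w1280 := fun D T h => wf_of_chk h mem_nil (mem_cons (L162 D T h) mem_nil) cw1280
theorem W1281 : WFK w1281 := fun D T h => wf_of_chk h mem_nil (mem_cons (L165 D T h) mem_nil) cw1281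
theorem L292 : LFK l292 := fun D T h => lf_of_chk h (mem_cons (W768 D T h) (mem_cons (W3 D T h) (mem_cons (W39 D T h) (mem_cons (W405 D T h) (mem_cons (W1279 D T h) (mem_cons (W1281 D T h) (mem_cons (W1280 D T h) (mem_cons (W1259 D T h) (mem_cons (W712 D T h) (mem_cons (W713 D T h) (mem_cons (W780 D T h) (mem_cons (W781 D T h) (mem_cons (W782 D T h) (mem_cons (W715 D T h) (mem_cons (W890 D T h) (mem_cons (W785 D T h) mem_nil)))))))))))))))) cl292
theorem W1282 : WFK w1282 := fun D T h => wf_of_chk h mem_nil (mem_cons (L292 D T h) mem_nil) cw1282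
theorem W1283 : WFK w1283 := fun D T h => wf_of_chk h mem_nil (mem_cons (L1 D T h) mem_nil) cw1283
theorem W1284 : WFK w1284 := fun D T h => wf_of_chk h mem_nil (mem_cons (L162 D T h) mem_nil) cw1284
theorem W1285 : WFK w1285 := fun D T h => wf_of_chk h mem_nil (mem_cons (L165 D T h) mem_nil) cw1285
theorem L293 : LFK l293 := fun D T h => lf_of_chk h (mem_cons (W769 D T h) (mem_cons (W3 D T h) (mem_cons (W39 D T h) (mem_cons (W861 D T h) (mem_cons (W1283 D T h) (mem_cons (W1285 D T h) (mem_cons (W1284 D T h) (mem_cons (W1260 D T h) (mem_cons (W712 D T h) (mem_cons (W713 D T h) (mem_cons (W780 D T h) (mem_cons (W781 D T h) (mem_cons (W782 D T h) (mem_cons (W890 D T h) (mem_cons (W785 D T h) mem_nil))))))))))))))) cl293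
theorem W1286 : WFK w1286 := fun D T h => wf_of_chk h mem_nil (mem_cons (L293 D T h) mem_nil) cw1286
theorem W1287 : WFK w1287 := fun D T h => wf_of_chk h (mem_cons (W50 D T h) mem_nil) mem_nil cw1287
theorem L294 : LFK l294 := fun D T h => lf_of_chk h (mem_cons (W772 D T h) (mem_cons (W1275 D T h) (mem_cons (W1276 D T h) (mem_cons (W50 D T h) (mem_cons (W177 D T h) (mem_cons (W1255 D T h) (mem_cons (W1256 D T h) (mem_cons (W1270 D T h) (mem_cons (W1274 D T h) (mem_cons (W42 D T h) (mem_cons (W1257 D T h) (mem_cons (W1263 D T h) (mem_cons (W716 D T h) (mem_cons (W1264 D T h) (mem_cons (W962 D T h) (mem_cons (W1265 D T h) (mem_cons (W1266 D T h) (mem_cons (W764 D T h) (mem_cons (W1282 D T h) (mem_cons (W1286 D T h) (mem_cons (W1287 D T h) mem_nil))))))))))))))))))))) cl294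
theorem W1288 : WFK w1288 := fun D T h => wf_of_chk h mem_nil (mem_cons (L294 D T h) mem_nil) cw1288
theorem W1289 : WFK w1289 := fun D T h => wf_of_chk h mem_nil (mem_cons (L7 D T h) mem_nil) cw1289
theorem W1290 : WFK w1290 := fun D T h => wf_of_chk h (mem_cons (W1289 D T h) (mem_cons (W37 D T h) mem_nil)) mem_nil cw1290
theorem W1291 : WFK w1291 := fun D T h => wf_of_chk h mem_nil (mem_cons (L16 D T h) mem_nil) cw1291
theorem W1292 : WFK w1292 := fun D T h => wf_of_chk h (mem_cons (W1291 D T h) (mem_cons (W181 D T h) mem_nil)) mem_nil cw1292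
theorem W1293 : WFK w1293 := fun D T h => wf_of_chk h (mem_cons (W284 D T h) (mem_cons (W789 D T h) mem_nil)) mem_nil cw1293
theorem W1294 : WFK w1294 := fun D T h => wf_of_chk h (mem_cons (W16 D T h) (mem_cons (W1061 D T h) mem_nil)) mem_nil cw1294
theorem L295 : LFK l295 := fun D T h => lf_of_chk h (mem_cons (W788 D T h) (mem_cons (W37 D T h) (mem_cons (W804 D T h) (mem_cons (W181 D T h) (mem_cons (W789 D T h) (mem_cons (W702 D T h) (mem_cons (W1061 D T h) (mem_cons (W1062 D T h) (mem_cons (W1292 D T h) (mem_cons (W1293 D T h) (mem_cons (W1294 D T h) (mem_cons (W1212 D T h) (mem_cons (W284 D T h) (mem_cons (W1213 D T h) (mem_cons (W1225 D T h) (mem_cons (W1241 D T h) (mem_cons (W1060 D T h) (mem_cons (W723 D T h) (mem_cons (W790 D T h) (mem_cons (W791 D T h) (mem_cons (W793 D T h) (mem_cons (W934 D T h) (mem_cons (W935 D T h) (mem_cons (W259 D T h) (mem_cons (W936 D T h) (mem_cons (W967 D T h) (mem_cons (W1024 D T h) (mem_cons (W1254 D T h) (mem_cons (W1288 D T h) (mem_cons (W1290 D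 T h) mem_nil)))))))))))))))))))))))))))))) cl295
theorem W1295 : WFK w1295 := fun D T h => wf_of_chk h mem_nil (mem_cons (L295 D T h) mem_nil) cw1295
theorem L296 : LFK l296 := fun D T h => lf_of_chk h mem_nil cl296
theorem W1296 : WFK w1296 := fun D T h => wf_of_chk h mem_nil (mem_cons (L296 D T h) mem_nil) cw1296
theorem L297 : LFK l297 := fun D T h => lf_of_chk h mem_nil cl297
theorem W1297 : WFK w1297 := fun D T h => wf_of_chk h mem_nil (mem_cons (L297 D T h) mem_nil) cw1297
theorem L298 : LFK l298 := fun D T h => lf_of_chk h (mem_cons (W721 D T h) (mem_cons (W42 D T h) (mem_cons (W16 D T h) (mem_cons (W39 D T h) (mem_cons (W3 D T h) (mem_cons (W1296 D T h) (mem_cons (W15 D T h) (mem_cons (W1297 D T h) (mem_cons (W1051 D T h) (mem_cons (W174 D T h) (mem_cons (W747 D T h) (mem_cons (W748 D T h) (mem_cons (W746 D T h) (mem_cons (W258 D T h) (mem_cons (W259 D T h) (mem_cons (W815 D T h) (mem_cons (W762 D T h) (mem_cons (W263 D T h) mem_nil)))))))))))))))))) cl298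
theorem W1298 : WFK w1298 := fun D T h => wf_of_chk h mem_nil (mem_cons (L298 D T h) mem_nil) cw1298
theorem L299 : LFK l299 := fun D T h => lf_of_chk h (mem_cons (W42 D T h) (mem_cons (W16 D T h) (mem_cons (W39 D T h) (mem_cons (W3 D T h) (mem_cons (W642 D T h) (mem_cons (W718 D T h) (mem_cons (W241 D T h) (mem_cons (W174 D T h) (mem_cons (W581 D T h) (mem_cons (W714 D T h) (mem_cons (W712 D T h) (mem_cons (W713 D T h) (mem_cons (W259 D T h) (mem_cons (W431 D T h) (mem_cons (W959 D T h) (mem_cons (W721 D T h) (mem_cons (W267 D T h) mem_nil))))))))))))))))) cl299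
theorem W1299 : WFK w1299 := fun D T h => wf_of_chk h mem_nil (mem_cons (L299 D T h) mem_nil) cw1299
theorem L300 : LFK l300 := fun D T h => lf_of_chk h (mem_cons (W2 D T h) (mem_cons (W37 D T h) (mem_cons (W710 D T h) (mem_cons (W448 D T h) (mem_cons (W42 D T h) (mem_cons (W162 D T h) (mem_cons (W175 D T h) (mem_cons (W711 D T h) (mem_cons (W1295 D T h) (mem_cons (W15 D T h) (mem_cons (W220 D T h) (mem_cons (W1298 D T h) (mem_cons (W1299 D T h) mem_nil))))))))))))) cl300
theorem W1300 : WFK w1300 := fun D T h => wf_of_chk h mem_nil (mem_cons (L300 D T h) mem_nil) cw1300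
theorem L301 : LFK l301 := fun D T h => lf_of_chk h mem_nil cl301
theorem W1302 : WFK w1302 := fun D T h => wf_of_chk h mem_nil (mem_cons (L301 D T h) mem_nil) cw1302
theorem L302 : LFK l302 := fun D T h => lf_of_chk h (mem_cons (W39 D T h) (mem_cons (W67 D T h) (mem_cons (W86 D T h) (mem_cons (W1302 D T h) (mem_cons (W389 D T h) (mem_cons (W648 D T h) (mem_cons (W745 D T h) (mem_cons (W740 D T h) (mem_cons (W650 D T h) mem_nil))))))))) cl302
theorem W1303 : WFK w1303 := fun D T h => wf_of_chk h mem_nil (mem_cons (L302 D T h) mem_nil) cw1303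
theorem W1304 : WFK w1304 := fun D T h => wf_of_chk h mem_nil (mem_cons (L28 D T h) mem_nil) cw1304
theorem W1305 : WFK w1305 := fun D T h => wf_of_chk h (mem_cons (W1304 D T h) (mem_cons (W16 D T h) mem_nil)) mem_nil cw1305
theorem W1306 : WFK w1306 := fun D T h => wf_of_chk h (mem_cons (W488 D T h) (mem_cons (W16 D T h) mem_nil)) mem_nil cw1306
theorem L303 : LFK l303 := fun D T h => lf_of_chk h (mem_cons (W3 D T h) (mem_cons (W67 D T h) (mem_cons (W96 D T h) (mem_cons (W871 D T h) (mem_cons (W12 D T h) (mem_cons (W13 D T h) mem_nil)))))) cl303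
theorem W1307 : WFK w1307 := fun D T h => wf_of_chk h mem_nil (mem_cons (L303 D T h) mem_nil) cw1307
theorem W1308 : WFK w1308 := fun D T h => wf_of_chk h (mem_cons (W143 D T h) (mem_cons (W16 D T h) mem_nil)) mem_nil cw1308
theorem W1309 : WFK w1309 := fun D T h => wf_of_chk h mem_nil (mem_cons (L16 D T h) mem_nil) cw1309
theorem W1310 : WFK w1310 := fun D T h => wf_of_chk h mem_nil (mem_cons (L16 D T h) mem_nil) cw1310
theorem W1311 : WFK w1311 := fun D T h => wf_of_chk h mem_nil (mem_cons (L48 D T h) mem_nil) cw1311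
theorem W1312 : WFK w1312 := fun D T h => wf_of_chk h mem_nil (mem_cons (L134 D T h) mem_nil) cw1312
theorem L304 : LFK l304 := fun D T h => lf_of_chk h (mem_cons (W181 D T h) (mem_cons (W16 D T h) (mem_cons (W14 D T h) (mem_cons (W67 D T h) (mem_cons (W143 D T h) (mem_cons (W259 D T h) (mem_cons (W1307 D T h) (mem_cons (W1311 D T h) (mem_cons (W1312 D T h) (mem_cons (W937 D T h) (mem_cons (W1303 D T h) (mem_cons (W1305 D T h) (mem_cons (W1306 D T h) (mem_cons (W282 D T h) (mem_cons (W1308 D T h) (mem_cons (W1309 D T h) (mem_cons (W702 D T h) (mem_cons (W1310 D T h) mem_nil)))))))))))))))))) cl304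
theorem W1313 : WFK w1313 := fun D T h => wf_of_chk h mem_nil (mem_cons (L304 D T h) mem_nil) cw1313
theorem W1315 : WFK w1315 := fun D T h => wf_of_chk h (mem_cons (W16 D T h) (mem_cons (W181 D T h) mem_nil)) mem_nil cw1315
theorem W1316 : WFK w1316 := fun D T h => wf_of_chk h mem_nil (mem_cons (L14 D T h) mem_nil) cw1316
theorem L305 : LFK l305 := fun D T h => lf_of_chk h (mem_cons (W831 D T h) (mem_cons (W1316 D T h) (mem_cons (W619 D T h) (mem_cons (W22 D T h) (mem_cons (W4 D T h) (mem_cons (W33 D T h) (mem_cons (W10 D T h) mem_nil))))))) cl305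
theorem W1317 : WFK w1317 := fun D T h => wf_of_chk h mem_nil (mem_cons (L305 D T h) mem_nil) cw1317
theorem L306 : LFK l306 := fun D T h => lf_of_chk h (mem_cons (W42 D T h) (mem_cons (W181 D T h) (mem_cons (W56 D T h) (mem_cons (W267 D T h) (mem_cons (W638 D T h) (mem_cons (W220 D T h) (mem_cons (W16 D T h) (mem_cons (W710 D T h) (mem_cons (W3 D T h) (mem_cons (W461 D T h) (mem_cons (W39 D T h) (mem_cons (W1317 D T h) (mem_cons (W281 D T h) (mem_cons (W712 D T h) (mem_cons (W713 D T h) (mem_cons (W581 D T h) (mem_cons (W714 D T h) mem_nil))))))))))))))))) cl306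
theorem W1318 : WFK w1318 := fun D T h => wf_of_chk h mem_nil (mem_cons (L306 D T h) mem_nil) cw1318
theorem W1319 : WFK w1319 := fun D T h => wf_of_chk h mem_nil (mem_cons (L199 D T h) mem_nil) cw1319
theorem W1320 : WFK w1320 := fun D T h => wf_of_chk h mem_nil (mem_cons (L267 D T h) mem_nil) cw1320
theorem W1321 : WFK w1321 := fun D T h => wf_of_chk h mem_nil (mem_cons (L168 D T h) mem_nil) cw1321
theorem L307 : LFK l307 := fun D T h => lf_of_chk h (mem_cons (W801 D T h) (mem_cons (W56 D T h) (mem_cons (W916 D T h) (mem_cons (W581 D T h) (mem_cons (W1193 D T h) (mem_cons (W16 D T h) (mem_cons (W910 D T h) (mem_cons (W718 D T h) (mem_cons (W1319 D T h) (mem_cons (W160 D T h) (mem_cons (W261 D T h) (mem_cons (W1190 D T h) (mem_cons (W1320 D T h) (mem_cons (W799 D T h) (mem_cons (W638 D T h) (mem_cons (W796 D T h) (mem_cons (W1321 D T h) mem_nil))))))))))))))))) cl307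
theorem W1322 : WFK w1322 := fun D T h => wf_of_chk h mem_nil (mem_cons (L307 D T h) mem_nil) cw1322
theorem W1325 : WFK w1325 := fun D T h => wf_of_chk h mem_nil (mem_cons (L0 D T h) mem_nil) cw1325
theorem W1326 : WFK w1326 := fun D T h => wf_of_chk h mem_nil (mem_cons (L0 D T h) mem_nil) cw1326
theorem L308 : LFK l308 := fun D T h => lf_of_chk h (mem_cons (W42 D T h) (mem_cons (W50 D T h) (mem_cons (W1 D T h) (mem_cons (W368 D T h) (mem_cons (W1325 D T h) (mem_cons (W170 D T h) (mem_cons (W1326 D T h) (mem_cons (W581 D T h) (mem_cons (W712 D T h) (mem_cons (W175 D T h) (mem_cons (W461 D T h) (mem_cons (W3 D T h) (mem_cons (W39 D T h) (mem_cons (W181 D T h) (mem_cons (W431 D T h) (mem_cons (W267 D T h) (mem_cons (W721 D T h) (mem_cons (W959 D T h) mem_nil)))))))))))))))))) cl308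
theorem W1327 : WFK w1327 := fun D T h => wf_of_chk h mem_nil (mem_cons (L308 D T h) mem_nil) cw1327
theorem W1330 : WFK w1330 := fun D T h => wf_of_chk h mem_nil (mem_cons (L176 D T h) mem_nil) cw1330
theorem W1331 : WFK w1331 := fun D T h => wf_of_chk h mem_nil (mem_cons (L168 D T h) mem_nil) cw1331
theorem W1332 : WFK w1332 := fun D T h => wf_of_chk h mem_nil (mem_cons (L207 D T h) mem_nil) cw1332
theorem L309 : LFK l309 := fun D T h => lf_of_chk h (mem_cons (W50 D T h) (mem_cons (W341 D T h) (mem_cons (W726 D T h) (mem_cons (W676 D T h) (mem_cons (W42 D T h) (mem_cons (W1231 D T h) (mem_cons (W164 D T h) (mem_cons (W284 D T h) (mem_cons (W15 D T h) (mem_cons (W16 D T h) (mem_cons (W24 D T h) (mem_cons (W209 D T h) (mem_cons (W1332 D T h) (mem_cons (W366 D T h) (mem_cons (W932 D T h) (mem_cons (W871 D T h) (mem_cons (W1331 D T h) (mem_cons (W1226 D T h) (mem_cons (W946 D T h) (mem_cons (W1227 D T h) mem_nil)))))))))))))))))))) cl309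
theorem W1333 : WFK w1333 := fun D T h => wf_of_chk h mem_nil (mem_cons (L309 D T h) mem_nil) cw1333
theorem W1334 : WFK w1334 := fun D T h => wf_of_chk h mem_nil (mem_cons (L168 D T h) mem_nil) cw1334
theorem W1335 : WFK w1335 := fun D T h => wf_of_chk h mem_nil (mem_cons (L81 D T h) mem_nil) cw1335
theorem L310 : LFK l310 := fun D T h => lf_of_chk h (mem_cons (W24 D T h) (mem_cons (W17 D T h) (mem_cons (W618 D T h) (mem_cons (W42 D T h) (mem_cons (W442 D T h) (mem_cons (W164 D T h) (mem_cons (W16 D T h) (mem_cons (W15 D T h) (mem_cons (W220 D T h) (mem_cons (W83 D T h) (mem_cons (W1334 D T h) (mem_cons (W438 D T h) (mem_cons (W1335 D T h) mem_nil))))))))))))) cl310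
theorem W1336 : WFK w1336 := fun D T h => wf_of_chk h mem_nil (mem_cons (L310 D T h) mem_nil) cw1336
theorem W1339 : WFK w1339 := fun D T h => wf_of_chk h mem_nil mem_nil cw1339
theorem W1342 : WFK w1342 := fun D T h => wf_of_chk h mem_nil (mem_cons (L176 D T h) mem_nil) cw1342
theorem W1343 : WFK w1343 := fun D T h => wf_of_chk h mem_nil (mem_cons (L178 D T h) mem_nil) cw1343
theorem W1346 : WFK w1346 := fun D T h => wf_of_chk h mem_nil (mem_cons (L222 D T h) mem_nil) cw1346
theorem W1347 : WFK w1347 := fun D T h => wf_of_chk h mem_nil (mem_cons (L222 D T h) mem_nil) cw1347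
theorem W1348 : WFK w1348 := fun D T h => wf_of_chk h mem_nil (mem_cons (L222 D T h) mem_nil) cw1348
theorem W1350 : WFK w1350 := fun D T h => wf_of_chk h (mem_cons (W16 D T h) mem_nil) mem_nil cw1350
theorem W1351 : WFK w1351 := fun D T h => wf_of_chk h mem_nil (mem_cons (L178 D T h) mem_nil) cw1351
theorem W1352 : WFK w1352 := fun D T h => wf_of_chk h mem_nil (mem_cons (L227 D T h) mem_nil) cw1352
theorem W1353 : WFK w1353 := fun D T h => wf_of_chk h mem_nil (mem_cons (L228 D T h) mem_nil) cw1353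
theorem W1354 : WFK w1354 := fun D T h => wf_of_chk h mem_nil (mem_cons (L229 D T h) mem_nil) cw1354
theorem W1355 : WFK w1355 := fun D T h => wf_of_chk h mem_nil (mem_cons (L57 D T h) mem_nil) cw1355
theorem W1356 : WFK w1356 := fun D T h => wf_of_chk h (mem_cons (W42 D T h) mem_nil) mem_nil cw1356
theorem L314 : LFK l314 := fun D T h => lf_of_chk h (mem_cons (W932 D T h) (mem_cons (W259 D T h) (mem_cons (W1356 D T h) (mem_cons (W42 D T h) (mem_cons (W69 D T h) (mem_cons (W1 D T h) (mem_cons (W142 D T h) (mem_cons (W1351 D T h) (mem_cons (W557 D T h) (mem_cons (W15 D T h) (mem_cons (W261 D T h) (mem_cons (W1352 D T h) (mem_cons (W1353 D T h) (mem_cons (W1354 D T h) (mem_cons (W912 D T h) (mem_cons (W815 D T h) (mem_cons (W1355 D T h) (mem_cons (W572 D T h) (mem_cons (W917 D T h) mem_nil))))))))))))))))))) cl314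
theorem W1357 : WFK w1357 := fun D T h => wf_of_chk h mem_nil (mem_cons (L314 D T h) mem_nil) cw1357
theorem W1359 : WFK w1359 := fun D T h => wf_of_chk h (mem_cons (W69 D T h) mem_nil) mem_nil cw1359
theorem W1360 : WFK w1360 := fun D T h => wf_of_chk h (mem_cons (W69 D T h) mem_nil) mem_nil cw1360
theorem W1361 : WFK w1361 := fun D T h => wf_of_chk h mem_nil (mem_cons (L81 D T h) mem_nil) cw1361
theorem W1362 : WFK w1362 := fun D T h => wf_of_chk h mem_nil (mem_cons (L268 D T h) mem_nil) cw1362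
theorem W1367 : WFK w1367 := fun D T h => wf_of_chk h (mem_cons (W154 D T h) mem_nil) mem_nil cw1367
theorem L316 : LFK l316 := fun D T h => lf_of_chk h (mem_cons (W281 D T h) (mem_cons (W48 D T h) (mem_cons (W158 D T h) (mem_cons (W91 D T h) (mem_cons (W4 D T h) (mem_cons (W33 D T h) (mem_cons (W1 D T h) (mem_cons (W10 D T h) (mem_cons (W109 D T h) mem_nil))))))))) cl316
theorem W1369 : WFK w1369 := fun D T h => wf_of_chk h mem_nil (mem_cons (L316 D T h) mem_nil) cw1369
theorem W1370 : WFK w1370 := fun D T h => wf_of_chk h mem_nil (mem_cons (L43 D T h) mem_nil) cw1370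
theorem W1371 : WFK w1371 := fun D T h => wf_of_chk h mem_nil (mem_cons (L0 D T h) mem_nil) cw1371
theorem W1372 : WFK w1372 := fun D T h => wf_of_chk h mem_nil (mem_cons (L43 D T h) mem_nil) cw1372
theorem W1375 : WFK w1375 := fun D T h => wf_of_chk h mem_nil (mem_cons (L15 D T h) mem_nil) cw1375
theorem W1376 : WFK w1376 := fun D T h => wf_of_chk h mem_nil (mem_cons (L42 D T h) mem_nil) cw1376
theorem L319 : LFK l319 := fun D T h => lf_of_chk h (mem_cons (W150 D T h) (mem_cons (W158 D T h) (mem_cons (W53 D T h) (mem_cons (W432 D T h) (mem_cons (W33 D T h) (mem_cons (W915 D T h) (mem_cons (W1375 D T h) (mem_cons (W1376 D T h) (mem_cons (W1120 D T h) mem_nil))))))))) cl319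
theorem W1377 : WFK w1377 := fun D T h => wf_of_chk h mem_nil (mem_cons (L319 D T h) mem_nil) cw1377
theorem W1378 : WFK w1378 := fun D T h => wf_of_chk h mem_nil (mem_cons (L138 D T h) mem_nil) cw1378
theorem W1379 : WFK w1379 := fun D T h => wf_of_chk h mem_nil (mem_cons (L228 D T h) mem_nil) cw1379
theorem W1380 : WFK w1380 := fun D T h => wf_of_chk h mem_nil (mem_cons (L42 D T h) mem_nil) cw1380
theorem W1381 : WFK w1381 := fun D T h => wf_of_chk h mem_nil (mem_cons (L37 D T h) mem_nil) cw1381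
theorem L320 : LFK l320 := fun D T h => lf_of_chk h (mem_cons (W149 D T h) (mem_cons (W33 D T h) (mem_cons (W1380 D T h) (mem_cons (W1376 D T h) (mem_cons (W1381 D T h) (mem_cons (W1379 D T h) (mem_cons (W431 D T h) (mem_cons (W430 D T h) (mem_cons (W429 D T h) mem_nil))))))))) cl320
theorem L321 : LFK l321 := fun D T h => lf_of_chk h (mem_cons (W15 D T h) (mem_cons (W1 D T h) (mem_cons (W33 D T h) (mem_cons (W148 D T h) (mem_cons (W150 D T h) (mem_cons (W149 D T h) (mem_cons (W638 D T h) (mem_cons (W281 D T h) (mem_cons (W1371 D T h) mem_nil))))))))) cl321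
theorem W1383 : WFK w1383 := fun D T h => wf_of_chk h mem_nil (mem_cons (L321 D T h) mem_nil) cw1383
theorem L322 : LFK l322 := fun D T h => lf_of_chk h mem_nil cl322
theorem W1384 : WFK w1384 := fun D T h => wf_of_chk h mem_nil (mem_cons (L322 D T h) mem_nil) cw1384
theorem W1385 : WFK w1385 := fun D T h => wf_of_chk h (mem_cons (W1384 D T h) (mem_cons (W16 D T h) mem_nil)) mem_nil cw1385
theorem W1386 : WFK w1386 := fun D T h => wf_of_chk h mem_nil (mem_cons (L1 D T h) mem_nil) cw1386
theorem W1388 : WFK w1388 := fun D T h => wf_of_chk h mem_nil (mem_cons (L48 D T h) mem_nil) cw1388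
theorem W1390 : WFK w1390 := fun D T h => wf_of_chk h mem_nil (mem_cons (L171 D T h) mem_nil) cw1390
theorem L324 : LFK l324 := fun D T h => lf_of_chk h (mem_cons (W154 D T h) (mem_cons (W161 D T h) (mem_cons (W1115 D T h) (mem_cons (W148 D T h) (mem_cons (W150 D T h) (mem_cons (W430 D T h) (mem_cons (W151 D T h) (mem_cons (W1371 D T h) (mem_cons (W1087 D T h) (mem_cons (W160 D T h) (mem_cons (W159 D T h) (mem_cons (W923 D T h) mem_nil)))))))))))) cl324
theorem L325 : LFK l325 := fun D T h => lf_of_chk h (mem_cons (W152 D T h) (mem_cons (W168 D T h) (mem_cons (W281 D T h) (mem_cons (W174 D T h) (mem_cons (W815 D T h) (mem_cons (W431 D T h) (mem_cons (W1371 D T h) (mem_cons (W4 D T h) (mem_cons (W866 D T h) (mem_cons (W926 D T h) (mem_cons (W160 D T h) (mem_cons (W170 D T h) (mem_cons (W927 D T h) mem_nil))))))))))))) cl325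
theorem W1393 : WFK w1393 := fun D T h => wf_of_chk h mem_nil (mem_cons (L64 D T h) mem_nil) cw1393
theorem L326 : LFK l326 := fun D T h => lf_of_chk h (mem_cons (W153 D T h) (mem_cons (W281 D T h) (mem_cons (W819 D T h) (mem_cons (W429 D T h) (mem_cons (W1371 D T h) (mem_cons (W33 D T h) (mem_cons (W927 D T h) (mem_cons (W923 D T h) (mem_cons (W981 D T h) (mem_cons (W1393 D T h) mem_nil)))))))))) cl326
theorem W1394 : WFK w1394 := fun D T h => wf_of_chk h mem_nil (mem_cons (L326 D T h) mem_nil) cw1394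
theorem L327 : LFK l327 := fun D T h => lf_of_chk h (mem_cons (W153 D T h) (mem_cons (W281 D T h) (mem_cons (W819 D T h) (mem_cons (W429 D T h) (mem_cons (W1371 D T h) (mem_cons (W33 D T h) (mem_cons (W927 D T h) (mem_cons (W923 D T h) (mem_cons (W1393 D T h) (mem_cons (W981 D T h) mem_nil)))))))))) cl327
theorem W1395 : WFK w1395 := fun D T h => wf_of_chk h mem_nil (mem_cons (L327 D T h) mem_nil) cw1395
theorem W1396 : WFK w1396 := fun D T h => wf_of_chk h (mem_cons (W220 D T h) (mem_cons (W16 D T h) mem_nil)) mem_nil cw1396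
theorem W1397 : WFK w1397 := fun D T h => wf_of_chk h mem_nil (mem_cons (L106 D T h) mem_nil) cw1397
theorem W1398 : WFK w1398 := fun D T h => wf_of_chk h mem_nil (mem_cons (L106 D T h) mem_nil) cw1398
theorem W1399 : WFK w1399 := fun D T h => wf_of_chk h mem_nil (mem_cons (L120 D T h) mem_nil) cw1399
theorem W1400 : WFK w1400 := fun D T h => wf_of_chk h mem_nil (mem_cons (L40 D T h) mem_nil) cw1400
theorem W1401 : WFK w1401 := fun D T h => wf_of_chk h mem_nil (mem_cons (L44 D T h) mem_nil) cw1401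
theorem W1402 : WFK w1402 := fun D T h => wf_of_chk h mem_nil (mem_cons (L40 D T h) mem_nil) cw1402
theorem W1403 : WFK w1403 := fun D T h => wf_of_chk h mem_nil (mem_cons (L64 D T h) mem_nil) cw1403
theorem W1404 : WFK w1404 := fun D T h => wf_of_chk h mem_nil (mem_cons (L41 D T h) mem_nil) cw1404
theorem W1407 : WFK w1407 := fun D T h => wf_of_chk h (mem_cons (W16 D T h) (mem_cons (W461 D T h) mem_nil)) mem_nil cw1407
theorem L330 : LFK l330 := fun D T h => lf_of_chk h (mem_cons (W3 D T h) (mem_cons (W831 D T h) (mem_cons (W11 D T h) (mem_cons (W12 D T h) (mem_cons (W13 D T h) mem_nil))))) cl330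
theorem W1408 : WFK w1408 := fun D T h => wf_of_chk h mem_nil (mem_cons (L330 D T h) mem_nil) cw1408
theorem W1409 : WFK w1409 := fun D T h => wf_of_chk h mem_nil (mem_cons (L89 D T h) mem_nil) cw1409
theorem L331 : LFK l331 := fun D T h => lf_of_chk h (mem_cons (W1397 D T h) (mem_cons (W17 D T h) (mem_cons (W618 D T h) (mem_cons (W109 D T h) (mem_cons (W1408 D T h) (mem_cons (W16 D T h) (mem_cons (W15 D T h) (mem_cons (W220 D T h) (mem_cons (W461 D T h) (mem_cons (W401 D T h) (mem_cons (W3 D T h) (mem_cons (W1409 D T h) mem_nil)))))))))))) cl331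
theorem W1410 : WFK w1410 := fun D T h => wf_of_chk h mem_nil (mem_cons (L331 D T h) mem_nil) cw1410
theorem W1411 : WFK w1411 := fun D T h => wf_of_chk h (mem_cons (W461 D T h) mem_nil) mem_nil cw1411
theorem W1412 : WFK w1412 := fun D T h => wf_of_chk h mem_nil mem_nil cw1412
theorem W1413 : WFK w1413 := fun D T h => wf_of_chk h (mem_cons (W461 D T h) mem_nil) mem_nil cw1413
theorem W1414 : WFK w1414 := fun D T h => wf_of_chk h mem_nil (mem_cons (L105 D T h) mem_nil) cw1414
theorem W1415 : WFK w1415 := fun D T h => wf_of_chk h mem_nil (mem_cons (L43 D T h) mem_nil) cw1415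
theorem W1416 : WFK w1416 := fun D T h => wf_of_chk h (mem_cons (W924 D T h) mem_nil) mem_nil cw1416
theorem L332 : LFK l332 := fun D T h => lf_of_chk h (mem_cons (W267 D T h) (mem_cons (W448 D T h) (mem_cons (W368 D T h) (mem_cons (W401 D T h) (mem_cons (W39 D T h) (mem_cons (W3 D T h) (mem_cons (W1412 D T h) (mem_cons (W652 D T h) (mem_cons (W1414 D T h) (mem_cons (W1415 D T h) (mem_cons (W262 D T h) (mem_cons (W743 D T h) (mem_cons (W1416 D T h) (mem_cons (W1411 D T h) (mem_cons (W815 D T h) (mem_cons (W256 D T h) (mem_cons (W1272 D T h) (mem_cons (W255 D T h) (mem_cons (W257 D T h) (mem_cons (W1413 D T h) mem_nil)))))))))))))))))))) cl332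
theorem W1417 : WFK w1417 := fun D T h => wf_of_chk h mem_nil (mem_cons (L332 D T h) mem_nil) cw1417
theorem W1420 : WFK w1420 := fun D T h => wf_of_chk h (mem_cons (W1139 D T h) (mem_cons (W461 D T h) mem_nil)) mem_nil cw1420
theorem W1424 : WFK w1424 := fun D T h => wf_of_chk h mem_nil (mem_cons (L28 D T h) mem_nil) cw1424
theorem W1425 : WFK w1425 := fun D T h => wf_of_chk h mem_nil (mem_cons (L28 D T h) mem_nil) cw1425
theorem W1428 : WFK w1428 := fun D T h => wf_of_chk h (mem_cons (W143 D T h) mem_nil) mem_nil cw1428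
theorem W1429 : WFK w1429 := fun D T h => wf_of_chk h mem_nil (mem_cons (L165 D T h) mem_nil) cw1429
theorem W1430 : WFK w1430 := fun D T h => wf_of_chk h (mem_cons (W3 D T h) mem_nil) mem_nil cw1430
theorem W1432 : WFK w1432 := fun D T h => wf_of_chk h mem_nil (mem_cons (L14 D T h) mem_nil) cw1432
theorem L335 : LFK l335 := fun D T h => lf_of_chk h (mem_cons (W3 D T h) (mem_cons (W67 D T h) (mem_cons (W1432 D T h) (mem_cons (W49 D T h) (mem_cons (W11 D T h) (mem_cons (W12 D T h) (mem_cons (W13 D T h) mem_nil))))))) cl335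
theorem W1433 : WFK w1433 := fun D T h => wf_of_chk h mem_nil (mem_cons (L335 D T h) mem_nil) cw1433
theorem W1436 : WFK w1436 := fun D T h => wf_of_chk h (mem_cons (W105 D T h) (mem_cons (W16 D T h) mem_nil)) mem_nil cw1436
theorem W1437 : WFK w1437 := fun D T h => wf_of_chk h (mem_cons (W105 D T h) (mem_cons (W16 D T h) mem_nil)) mem_nil cw1437
theorem W1438 : WFK w1438 := fun D T h => wf_of_chk h mem_nil (mem_cons (L257 D T h) mem_nil) cw1438
theorem W1439 : WFK w1439 := fun D T h => wf_of_chk h mem_nil (mem_cons (L104 D T h) mem_nil) cw1439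
theorem L336 : LFK l336 := fun D T h => lf_of_chk h (mem_cons (W1388 D T h) (mem_cons (W67 D T h) (mem_cons (W143 D T h) (mem_cons (W142 D T h) (mem_cons (W740 D T h) (mem_cons (W161 D T h) (mem_cons (W112 D T h) (mem_cons (W78 D T h) (mem_cons (W33 D T h) mem_nil))))))))) cl336
theorem W1440 : WFK w1440 := fun D T h => wf_of_chk h mem_nil (mem_cons (L336 D T h) mem_nil) cw1440
theorem W1441 : WFK w1441 := fun D T h => wf_of_chk h mem_nil (mem_cons (L269 D T h) mem_nil) cw1441
theorem W1442 : WFK w1442 := fun D T h => wf_of_chk h mem_nil (mem_cons (L270 D T h) mem_nil) cw1442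
theorem L337 : LFK l337 := fun D T h => lf_of_chk h (mem_cons (W429 D T h) (mem_cons (W281 D T h) (mem_cons (W819 D T h) (mem_cons (W39 D T h) (mem_cons (W154 D T h) (mem_cons (W33 D T h) (mem_cons (W430 D T h) mem_nil))))))) cl337
theorem W1443 : WFK w1443 := fun D T h => wf_of_chk h mem_nil (mem_cons (L337 D T h) mem_nil) cw1443
theorem W1444 : WFK w1444 := fun D T h => wf_of_chk h mem_nil (mem_cons (L32 D T h) mem_nil) cw1444
theorem L338 : LFK l338 := fun D T h => lf_of_chk h (mem_cons (W924 D T h) (mem_cons (W281 D T h) (mem_cons (W1444 D T h) (mem_cons (W1086 D T h) (mem_cons (W160 D T h) (mem_cons (W159 D T h) (mem_cons (W1404 D T h) (mem_cons (W161 D T h) (mem_cons (W3 D T h) (mem_cons (W154 D T h) (mem_cons (W922 D T h) (mem_cons (W833 D T h) (mem_cons (W914 D T h) mem_nil))))))))))))) cl338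
theorem W1445 : WFK w1445 := fun D T h => wf_of_chk h mem_nil (mem_cons (L338 D T h) mem_nil) cw1445
theorem L339 : LFK l339 := fun D T h => lf_of_chk h (mem_cons (W1231 D T h) (mem_cons (W341 D T h) (mem_cons (W726 D T h) (mem_cons (W676 D T h) (mem_cons (W1396 D T h) (mem_cons (W1436 D T h) (mem_cons (W1437 D T h) (mem_cons (W581 D T h) (mem_cons (W1438 D T h) (mem_cons (W1439 D T h) (mem_cons (W284 D T h) (mem_cons (W154 D T h) (mem_cons (W16 D T h) (mem_cons (W442 D T h) (mem_cons (W1398 D T h) (mem_cons (W1445 D T h) (mem_cons (W209 D T h) (mem_cons (W1161 D T h) (mem_cons (W1440 D T h) (mem_cons (W959 D T h) (mem_cons (W1390 D T h) (mem_cons (W1441 D T h) (mem_cons (W1442 D T h) (mem_cons (W1443 D T h) mem_nil)))))))))))))))))))))))) cl339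
theorem L340 : LFK l340 := fun D T h => lf_of_chk h (mem_cons (W4 D T h) (mem_cons (W7 D T h) (mem_cons (W30 D T h) (mem_cons (W829 D T h) mem_nil)))) cl340
theorem W1447 : WFK w1447 := fun D T h => wf_of_chk h mem_nil (mem_cons (L340 D T h) mem_nil) cw1447
theorem W1448 : WFK w1448 := fun D T h => wf_of_chk h mem_nil (mem_cons (L330 D T h) mem_nil) cw1448
theorem W1449 : WFK w1449 := fun D T h => wf_of_chk h mem_nil (mem_cons (L330 D T h) mem_nil) cw1449
theorem L341 : LFK l341 := fun D T h => lf_of_chk h (mem_cons (W442 D T h) (mem_cons (W17 D T h) (mem_cons (W618 D T h) (mem_cons (W1408 D T h) (mem_cons (W16 D T h) (mem_cons (W154 D T h) (mem_cons (W220 D T h) (mem_cons (W1447 D T h) (mem_cons (W3 D T h) (mem_cons (W1448 D T h) (mem_cons (W1449 D T h) mem_nil))))))))))) cl341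
theorem W1452 : WFK w1452 := fun D T h => wf_of_chk h mem_nil (mem_cons (L106 D T h) mem_nil) cw1452
theorem L342 : LFK l342 := fun D T h => lf_of_chk h (mem_cons (W3 D T h) (mem_cons (W411 D T h) (mem_cons (W13 D T h) (mem_cons (W11 D T h) (mem_cons (W12 D T h) mem_nil))))) cl342
theorem W1453 : WFK w1453 := fun D T h => wf_of_chk h mem_nil (mem_cons (L342 D T h) mem_nil) cw1453
theorem L344 : LFK l344 := fun D T h => lf_of_chk h (mem_cons (W42 D T h) (mem_cons (W16 D T h) (mem_cons (W726 D T h) (mem_cons (W3 D T h) (mem_cons (W461 D T h) (mem_cons (W39 D T h) (mem_cons (W1 D T h) (mem_cons (W195 D T h) (mem_cons (W713 D T h) (mem_cons (W712 D T h) (mem_cons (W581 D T h) (mem_cons (W714 D T h) (mem_cons (W181 D T h) (mem_cons (W56 D T h) (mem_cons (W638 D T h) (mem_cons (W220 D T h) (mem_cons (W267 D T h) (mem_cons (W721 D T h) (mem_cons (W431 D T h) (mem_cons (W722 D T h) mem_nil)))))))))))))))))))) cl344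
theorem W1458 : WFK w1458 := fun D T h => wf_of_chk h mem_nil (mem_cons (L344 D T h) mem_nil) cw1458
theorem W1459 : WFK w1459 := fun D T h => wf_of_chk h mem_nil mem_nil cw1459
theorem L346 : LFK l346 := fun D T h => lf_of_chk h (mem_cons (W67 D T h) mem_nil) cl346
theorem W1461 : WFK w1461 := fun D T h => wf_of_chk h mem_nil (mem_cons (L346 D T h) mem_nil) cw1461
theorem W1465 : WFK w1465 := fun D T h => wf_of_chk h mem_nil mem_nil cw1465
theorem W1467 : WFK w1467 := fun D T h => wf_of_chk h mem_nil (mem_cons (L224 D T h) mem_nil) cw1467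
theorem W1468 : WFK w1468 := fun D T h => wf_of_chk h mem_nil mem_nil cw1468
theorem W1471 : WFK w1471 := fun D T h => wf_of_chk h mem_nil mem_nil cw1471
theorem W1473 : WFK w1473 := fun D T h => wf_of_chk h mem_nil (mem_cons (L226 D T h) mem_nil) cw1473
theorem W1474 : WFK w1474 := fun D T h => wf_of_chk h mem_nil (mem_cons (L46 D T h) mem_nil) cw1474
theorem W1475 : WFK w1475 := fun D T h => wf_of_chk h mem_nil (mem_cons (L3 D T h) mem_nil) cw1475
theorem L349 : LFK l349 := fun D T h => lf_of_chk h (mem_cons (W279 D T h) (mem_cons (W4 D T h) (mem_cons (W1473 D T h) (mem_cons (W731 D T h) (mem_cons (W1474 D T h) (mem_cons (W1475 D T h) (mem_cons (W289 D T h) (mem_cons (W893 D T h) (mem_cons (W1245 D T h) mem_nil))))))))) cl349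
theorem W1477 : WFK w1477 := fun D T h => wf_of_chk h (mem_cons (W143 D T h) mem_nil) mem_nil cw1477
theorem W1482 : WFK w1482 := fun D T h => wf_of_chk h mem_nil (mem_cons (L46 D T h) mem_nil) cw1482
theorem W1483 : WFK w1483 := fun D T h => wf_of_chk h mem_nil (mem_cons (L296 D T h) mem_nil) cw1483
theorem W1484 : WFK w1484 := fun D T h => wf_of_chk h mem_nil (mem_cons (L65 D T h) mem_nil) cw1484
theorem L350 : LFK l350 := fun D T h => lf_of_chk h (mem_cons (W32 D T h) mem_nil) cl350
theorem L352 : LFK l352 := fun D T h => lf_of_chk h (mem_cons (W1371 D T h) (mem_cons (W281 D T h) (mem_cons (W924 D T h) (mem_cons (W920 D T h) (mem_cons (W852 D T h) (mem_cons (W148 D T h) (mem_cons (W150 D T h) (mem_cons (W1404 D T h) (mem_cons (W1399 D T h) (mem_cons (W4 D T h) (mem_cons (W1400 D T h) (mem_cons (W1402 D T h) (mem_cons (W1401 D T h) (mem_cons (W1403 D T h) mem_nil)))))))))))))) cl352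
theorem W1489 : WFK w1489 := fun D T h => wf_of_chk h mem_nil (mem_cons (L40 D T h) mem_nil) cw1489
theorem W1492 : WFK w1492 := fun D T h => wf_of_chk h mem_nil (mem_cons (L84 D T h) mem_nil) cw1492
theorem W1493 : WFK w1493 := fun D T h => wf_of_chk h mem_nil (mem_cons (L84 D T h) mem_nil) cw1493
theorem W1495 : WFK w1495 := fun D T h => wf_of_chk h mem_nil (mem_cons (L325 D T h) mem_nil) cw1495
theorem W1496 : WFK w1496 := fun D T h => wf_of_chk h mem_nil (mem_cons (L325 D T h) mem_nil) cw1496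
theorem W1501 : WFK w1501 := fun D T h => wf_of_chk h mem_nil (mem_cons (L143 D T h) mem_nil) cw1501
theorem W1502 : WFK w1502 := fun D T h => wf_of_chk h mem_nil (mem_cons (L299 D T h) mem_nil) cw1502
theorem W1519 : WFK w1519 := fun D T h => wf_of_chk h mem_nil (mem_cons (L176 D T h) mem_nil) cw1519
theorem W1520 : WFK w1520 := fun D T h => wf_of_chk h mem_nil (mem_cons (L129 D T h) mem_nil) cw1520
theorem W1521 : WFK w1521 := fun D T h => wf_of_chk h mem_nil (mem_cons (L129 D T h) mem_nil) cw1521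
theorem W1522 : WFK w1522 := fun D T h => wf_of_chk h mem_nil (mem_cons (L303 D T h) mem_nil) cw1522
theorem L357 : LFK l357 := fun D T h => lf_of_chk h (mem_cons (W718 D T h) (mem_cons (W1325 D T h) (mem_cons (W1326 D T h) (mem_cons (W220 D T h) (mem_cons (W642 D T h) (mem_cons (W3 D T h) (mem_cons (W39 D T h) (mem_cons (W851 D T h) (mem_cons (W1519 D T h) (mem_cons (W888 D T h) (mem_cons (W712 D T h) (mem_cons (W1520 D T h) (mem_cons (W1521 D T h) (mem_cons (W1522 D T h) (mem_cons (W1297 D T h) (mem_cons (W152 D T h) (mem_cons (W743 D T h) (mem_cons (W722 D T h) mem_nil)))))))))))))))))) cl357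
theorem W1523 : WFK w1523 := fun D T h => wf_of_chk h mem_nil (mem_cons (L357 D T h) mem_nil) cw1523
theorem L358 : LFK l358 := fun D T h => lf_of_chk h (mem_cons (W152 D T h) (mem_cons (W281 D T h) (mem_cons (W39 D T h) (mem_cons (W3 D T h) (mem_cons (W15 D T h) (mem_cons (W924 D T h) (mem_cons (W1051 D T h) (mem_cons (W4 D T h) (mem_cons (W1489 D T h) (mem_cons (W927 D T h) (mem_cons (W160 D T h) (mem_cons (W926 D T h) (mem_cons (W815 D T h) (mem_cons (W355 D T h) (mem_cons (W431 D T h) mem_nil))))))))))))))) cl358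
theorem W1527 : WFK w1527 := fun D T h => wf_of_chk h mem_nil (mem_cons (L358 D T h) mem_nil) cw1527
theorem W1528 : WFK w1528 := fun D T h => wf_of_chk h mem_nil (mem_cons (L330 D T h) mem_nil) cw1528
theorem W1529 : WFK w1529 := fun D T h => wf_of_chk h mem_nil (mem_cons (L46 D T h) mem_nil) cw1529
theorem W1530 : WFK w1530 := fun D T h => wf_of_chk h mem_nil (mem_cons (L46 D T h) mem_nil) cw1530
theorem L359 : LFK l359 := fun D T h => lf_of_chk h mem_nil cl359
theorem W1531 : WFK w1531 := fun D T h => wf_of_chk h mem_nil (mem_cons (L359 D T h) mem_nil) cw1531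
theorem L360 : LFK l360 := fun D T h => lf_of_chk h mem_nil cl360
theorem W1532 : WFK w1532 := fun D T h => wf_of_chk h mem_nil (mem_cons (L360 D T h) mem_nil) cw1532
theorem L361 : LFK l361 := fun D T h => lf_of_chk h (mem_cons (W815 D T h) (mem_cons (W42 D T h) (mem_cons (W1101 D T h) (mem_cons (W39 D T h) (mem_cons (W3 D T h) (mem_cons (W15 D T h) (mem_cons (W1531 D T h) (mem_cons (W1532 D T h) (mem_cons (W224 D T h) (mem_cons (W1528 D T h) (mem_cons (W1529 D T h) (mem_cons (W976 D T h) (mem_cons (W1530 D T h) (mem_cons (W172 D T h) (mem_cons (W41 D T h) mem_nil))))))))))))))) cl361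
theorem W1533 : WFK w1533 := fun D T h => wf_of_chk h mem_nil (mem_cons (L361 D T h) mem_nil) cw1533
theorem L362 : LFK l362 := fun D T h => lf_of_chk h mem_nil cl362
theorem W1534 : WFK w1534 := fun D T h => wf_of_chk h mem_nil (mem_cons (L362 D T h) mem_nil) cw1534
theorem W1535 : WFK w1535 := fun D T h => wf_of_chk h mem_nil (mem_cons (L90 D T h) mem_nil) cw1535
theorem L363 : LFK l363 := fun D T h => lf_of_chk h mem_nil cl363
theorem W1536 : WFK w1536 := fun D T h => wf_of_chk h mem_nil (mem_cons (L363 D T h) mem_nil) cw1536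
theorem L364 : LFK l364 := fun D T h => lf_of_chk h (mem_cons (W355 D T h) (mem_cons (W42 D T h) (mem_cons (W831 D T h) (mem_cons (W39 D T h) (mem_cons (W3 D T h) (mem_cons (W1535 D T h) (mem_cons (W15 D T h) (mem_cons (W1534 D T h) (mem_cons (W1536 D T h) (mem_cons (W197 D T h) (mem_cons (W870 D T h) (mem_cons (W888 D T h) (mem_cons (W381 D T h) (mem_cons (W172 D T h) (mem_cons (W41 D T h) mem_nil))))))))))))))) cl364
theorem W1537 : WFK w1537 := fun D T h => wf_of_chk h mem_nil (mem_cons (L364 D T h) mem_nil) cw1537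
theorem W1538 : WFK w1538 := fun D T h => wf_of_chk h mem_nil (mem_cons (L229 D T h) mem_nil) cw1538
theorem W1539 : WFK w1539 := fun D T h => wf_of_chk h mem_nil (mem_cons (L129 D T h) mem_nil) cw1539
theorem W1540 : WFK w1540 := fun D T h => wf_of_chk h mem_nil (mem_cons (L40 D T h) mem_nil) cw1540
theorem W1541 : WFK w1541 := fun D T h => wf_of_chk h mem_nil (mem_cons (L129 D T h) mem_nil) cw1541
theorem W1542 : WFK w1542 := fun D T h => wf_of_chk h mem_nil (mem_cons (L129 D T h) mem_nil) cw1542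
theorem L365 : LFK l365 := fun D T h => lf_of_chk h (mem_cons (W431 D T h) (mem_cons (W1538 D T h) (mem_cons (W39 D T h) (mem_cons (W3 D T h) (mem_cons (W15 D T h) (mem_cons (W1541 D T h) (mem_cons (W1542 D T h) (mem_cons (W1051 D T h) (mem_cons (W1535 D T h) (mem_cons (W1489 D T h) (mem_cons (W1540 D T h) (mem_cons (W160 D T h) (mem_cons (W926 D T h) (mem_cons (W1532 D T h) mem_nil)))))))))))))) cl365
theorem W1543 : WFK w1543 := fun D T h => wf_of_chk h mem_nil (mem_cons (L365 D T h) mem_nil) cw1543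
theorem W1544 : WFK w1544 := fun D T h => wf_of_chk h mem_nil (mem_cons (L41 D T h) mem_nil) cw1544
theorem L366 : LFK l366 := fun D T h => lf_of_chk h (mem_cons (W431 D T h) (mem_cons (W42 D T h) (mem_cons (W1379 D T h) (mem_cons (W39 D T h) (mem_cons (W3 D T h) (mem_cons (W15 D T h) (mem_cons (W1404 D T h) (mem_cons (W1544 D T h) (mem_cons (W1051 D T h) (mem_cons (W1535 D T h) (mem_cons (W1489 D T h) (mem_cons (W1540 D T h) (mem_cons (W160 D T h) (mem_cons (W926 D T h) (mem_cons (W1532 D T h) mem_nil))))))))))))))) cl366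
theorem W1545 : WFK w1545 := fun D T h => wf_of_chk h mem_nil (mem_cons (L366 D T h) mem_nil) cw1545
theorem W1546 : WFK w1546 := fun D T h => wf_of_chk h mem_nil (mem_cons (L103 D T h) mem_nil) cw1546
theorem W1547 : WFK w1547 := fun D T h => wf_of_chk h mem_nil (mem_cons (L103 D T h) mem_nil) cw1547
theorem W1548 : WFK w1548 := fun D T h => wf_of_chk h mem_nil (mem_cons (L103 D T h) mem_nil) cw1548
theorem L367 : LFK l367 := fun D T h => lf_of_chk h (mem_cons (W431 D T h) (mem_cons (W1120 D T h) (mem_cons (W39 D T h) (mem_cons (W3 D T h) (mem_cons (W15 D T h) (mem_cons (W1547 D T h) (mem_cons (W1548 D T h) (mem_cons (W1051 D T h) (mem_cons (W1535 D T h) (mem_cons (W1489 D T h) (mem_cons (W1540 D T h) (mem_cons (W160 D T h) (mem_cons (W926 D T h) (mem_cons (W1532 D T h) mem_nil)))))))))))))) cl367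
theorem W1549 : WFK w1549 := fun D T h => wf_of_chk h mem_nil (mem_cons (L367 D T h) mem_nil) cw1549
theorem W1550 : WFK w1550 := fun D T h => wf_of_chk h mem_nil (mem_cons (L129 D T h) mem_nil) cw1550
theorem W1551 : WFK w1551 := fun D T h => wf_of_chk h mem_nil (mem_cons (L129 D T h) mem_nil) cw1551
theorem L368 : LFK l368 := fun D T h => lf_of_chk h (mem_cons (W431 D T h) (mem_cons (W1473 D T h) (mem_cons (W39 D T h) (mem_cons (W3 D T h) (mem_cons (W15 D T h) (mem_cons (W1550 D T h) (mem_cons (W1551 D T h) (mem_cons (W1051 D T h) (mem_cons (W1535 D T h) (mem_cons (W1489 D T h) (mem_cons (W1540 D T h) (mem_cons (W160 D T h) (mem_cons (W926 D T h) (mem_cons (W1532 D T h) mem_nil)))))))))))))) cl368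
theorem W1552 : WFK w1552 := fun D T h => wf_of_chk h mem_nil (mem_cons (L368 D T h) mem_nil) cw1552
theorem W1554 : WFK w1554 := fun D T h => wf_of_chk h mem_nil (mem_cons (L0 D T h) mem_nil) cw1554
theorem W1555 : WFK w1555 := fun D T h => wf_of_chk h mem_nil (mem_cons (L196 D T h) mem_nil) cw1555
theorem W1556 : WFK w1556 := fun D T h => wf_of_chk h mem_nil (mem_cons (L129 D T h) mem_nil) cw1556
theorem W1557 : WFK w1557 := fun D T h => wf_of_chk h mem_nil (mem_cons (L41 D T h) mem_nil) cw1557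
theorem W1558 : WFK w1558 := fun D T h => wf_of_chk h mem_nil (mem_cons (L129 D T h) mem_nil) cw1558
theorem W1559 : WFK w1559 := fun D T h => wf_of_chk h mem_nil (mem_cons (L303 D T h) mem_nil) cw1559
theorem W1560 : WFK w1560 := fun D T h => wf_of_chk h mem_nil (mem_cons (L297 D T h) mem_nil) cw1560
theorem L369 : LFK l369 := fun D T h => lf_of_chk h (mem_cons (W719 D T h) (mem_cons (W1554 D T h) (mem_cons (W1555 D T h) (mem_cons (W15 D T h) (mem_cons (W142 D T h) (mem_cons (W3 D T h) (mem_cons (W39 D T h) (mem_cons (W573 D T h) (mem_cons (W1099 D T h) (mem_cons (W1556 D T h) (mem_cons (W1557 D T h) (mem_cons (W1325 D T h) (mem_cons (W1558 D T h) (mem_cons (W1559 D T h) (mem_cons (W1560 D T h) (mem_cons (W722 D T h) (mem_cons (W743 D T h) (mem_cons (W152 D T h) mem_nil)))))))))))))))))) cl369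
theorem W1561 : WFK w1561 := fun D T h => wf_of_chk h mem_nil (mem_cons (L369 D T h) mem_nil) cw1561
theorem L370 : LFK l370 := fun D T h => lf_of_chk h (mem_cons (W17 D T h) mem_nil) cl370
theorem W1563 : WFK w1563 := fun D T h => wf_of_chk h mem_nil (mem_cons (L44 D T h) mem_nil) cw1563
theorem W1564 : WFK w1564 := fun D T h => wf_of_chk h mem_nil (mem_cons (L8 D T h) mem_nil) cw1564
theorem W1566 : WFK w1566 := fun D T h => wf_of_chk h mem_nil (mem_cons (L106 D T h) mem_nil) cw1566
theorem W1571 : WFK w1571 := fun D T h => wf_of_chk h mem_nil (mem_cons (L125 D T h) mem_nil) cw1571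
theorem W1572 : WFK w1572 := fun D T h => wf_of_chk h mem_nil (mem_cons (L48 D T h) mem_nil) cw1572
theorem W1574 : WFK w1574 := fun D T h => wf_of_chk h mem_nil (mem_cons (L111 D T h) mem_nil) cw1574
theorem W1575 : WFK w1575 := fun D T h => wf_of_chk h (mem_cons (W642 D T h) mem_nil) mem_nil cw1575
theorem W1576 : WFK w1576 := fun D T h => wf_of_chk h mem_nil (mem_cons (L101 D T h) mem_nil) cw1576
theorem W1577 : WFK w1577 := fun D T h => wf_of_chk h mem_nil mem_nil cw1577
theorem L373 : LFK l373 := fun D T h => lf_of_chk h (mem_cons (W1 D T h) mem_nil) cl373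
theorem W1578 : WFK w1578 := fun D T h => wf_of_chk h mem_nil (mem_cons (L373 D T h) mem_nil) cw1578
theorem W1584 : WFK w1584 := fun D T h => wf_of_chk h mem_nil (mem_cons (L119 D T h) mem_nil) cw1584
theorem W1588 : WFK w1588 := fun D T h => wf_of_chk h mem_nil (mem_cons (L57 D T h) mem_nil) cw1588
theorem W1595 : WFK w1595 := fun D T h => wf_of_chk h mem_nil (mem_cons (L171 D T h) mem_nil) cw1595
theorem W1599 : WFK w1599 := fun D T h => wf_of_chk h (mem_cons (W16 D T h) mem_nil) mem_nil cw1599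
theorem W1611 : WFK w1611 := fun D T h => wf_of_chk h mem_nil mem_nil cw1611
theorem W1612 : WFK w1612 := fun D T h => wf_of_chk h mem_nil (mem_cons (L296 D T h) mem_nil) cw1612
theorem W1613 : WFK w1613 := fun D T h => wf_of_chk h mem_nil (mem_cons (L29 D T h) mem_nil) cw1613
theorem W1616 : WFK w1616 := fun D T h => wf_of_chk h mem_nil (mem_cons (L1 D T h) mem_nil) cw1616
theorem W1620 : WFK w1620 := fun D T h => wf_of_chk h mem_nil (mem_cons (L330 D T h) mem_nil) cw1620
theorem W1624 : WFK w1624 := fun D T h => wf_of_chk h mem_nil (mem_cons (L349 D T h) mem_nil) cw1624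
theorem W1631 : WFK w1631 := fun D T h => wf_of_chk h mem_nil (mem_cons (L340 D T h) mem_nil) cw1631
theorem L379 : LFK l379 := fun D T h => lf_of_chk h (mem_cons (W1620 D T h) (mem_cons (W42 D T h) (mem_cons (W162 D T h) (mem_cons (W3 D T h) (mem_cons (W39 D T h) (mem_cons (W642 D T h) (mem_cons (W718 D T h) (mem_cons (W1631 D T h) (mem_cons (W168 D T h) (mem_cons (W1554 D T h) (mem_cons (W1325 D T h) (mem_cons (W1520 D T h) (mem_cons (W1521 D T h) (mem_cons (W259 D T h) mem_nil)))))))))))))) cl379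
theorem W1632 : WFK w1632 := fun D T h => wf_of_chk h mem_nil (mem_cons (L379 D T h) mem_nil) cw1632
theorem W1634 : WFK w1634 := fun D T h => wf_of_chk h (mem_cons (W1501 D T h) (mem_cons (W16 D T h) mem_nil)) mem_nil cw1634
theorem W1635 : WFK w1635 := fun D T h => wf_of_chk h mem_nil (mem_cons (L20 D T h) mem_nil) cw1635
theorem W1636 : WFK w1636 := fun D T h => wf_of_chk h mem_nil (mem_cons (L37 D T h) mem_nil) cw1636
theorem W1637 : WFK w1637 := fun D T h => wf_of_chk h mem_nil (mem_cons (L89 D T h) mem_nil) cw1637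
theorem W1638 : WFK w1638 := fun D T h => wf_of_chk h (mem_cons (W1637 D T h) (mem_cons (W16 D T h) mem_nil)) mem_nil cw1638
theorem W1639 : WFK w1639 := fun D T h => wf_of_chk h (mem_cons (W112 D T h) (mem_cons (W16 D T h) mem_nil)) mem_nil cw1639
theorem W1640 : WFK w1640 := fun D T h => wf_of_chk h mem_nil (mem_cons (L116 D T h) mem_nil) cw1640
theorem L380 : LFK l380 := fun D T h => lf_of_chk h (mem_cons (W281 D T h) (mem_cons (W40 D T h) (mem_cons (W1531 D T h) (mem_cons (W109 D T h) (mem_cons (W217 D T h) (mem_cons (W8 D T h) (mem_cons (W918 D T h) (mem_cons (W1538 D T h) (mem_cons (W1120 D T h) (mem_cons (W1379 D T h) mem_nil)))))))))) cl380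
theorem W1641 : WFK w1641 := fun D T h => wf_of_chk h mem_nil (mem_cons (L380 D T h) mem_nil) cw1641
theorem L381 : LFK l381 := fun D T h => lf_of_chk h (mem_cons (W726 D T h) (mem_cons (W341 D T h) (mem_cons (W1635 D T h) (mem_cons (W1533 D T h) (mem_cons (W284 D T h) (mem_cons (W16 D T h) (mem_cons (W1 D T h) (mem_cons (W618 D T h) (mem_cons (W1640 D T h) (mem_cons (W24 D T h) (mem_cons (W1641 D T h) (mem_cons (W209 D T h) (mem_cons (W111 D T h) (mem_cons (W1636 D T h) (mem_cons (W815 D T h) (mem_cons (W762 D T h) (mem_cons (W1390 D T h) (mem_cons (W384 D T h) (mem_cons (W1638 D T h) (mem_cons (W1639 D T h) mem_nil)))))))))))))))))))) cl381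
theorem W1642 : WFK w1642 := fun D T h => wf_of_chk h mem_nil (mem_cons (L381 D T h) mem_nil) cw1642
theorem W1643 : WFK w1643 := fun D T h => wf_of_chk h (mem_cons (W1528 D T h) (mem_cons (W16 D T h) mem_nil)) mem_nil cw1643
theorem W1647 : WFK w1647 := fun D T h => wf_of_chk h (mem_cons (W85 D T h) mem_nil) mem_nil cw1647
theorem L382 : LFK l382 := fun D T h => lf_of_chk h (mem_cons (W15 D T h) (mem_cons (W1 D T h) (mem_cons (W734 D T h) (mem_cons (W1425 D T h) (mem_cons (W1424 D T h) (mem_cons (W278 D T h) (mem_cons (W280 D T h) (mem_cons (W149 D T h) (mem_cons (W53 D T h) (mem_cons (W279 D T h) (mem_cons (W638 D T h) mem_nil))))))))))) cl382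
theorem W1651 : WFK w1651 := fun D T h => wf_of_chk h mem_nil (mem_cons (L298 D T h) mem_nil) cw1651
theorem W1653 : WFK w1653 := fun D T h => wf_of_chk h (mem_cons (W1139 D T h) (mem_cons (W16 D T h) mem_nil)) mem_nil cw1653
theorem W1654 : WFK w1654 := fun D T h => wf_of_chk h mem_nil (mem_cons (L90 D T h) mem_nil) cw1654
theorem W1657 : WFK w1657 := fun D T h => wf_of_chk h (mem_cons (W80 D T h) (mem_cons (W15 D T h) mem_nil)) mem_nil cw1657
theorem L384 : LFK l384 := fun D T h => lf_of_chk h (mem_cons (W15 D T h) mem_nil) cl384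
theorem W1661 : WFK w1661 := fun D T h => wf_of_chk h mem_nil (mem_cons (L384 D T h) mem_nil) cw1661
theorem W1663 : WFK w1663 := fun D T h => wf_of_chk h (mem_cons (W80 D T h) mem_nil) mem_nil cw1663
theorem W1666 : WFK w1666 := fun D T h => wf_of_chk h (mem_cons (W15 D T h) mem_nil) mem_nil cw1666
theorem W1667 : WFK w1667 := fun D T h => wf_of_chk h mem_nil (mem_cons (L196 D T h) mem_nil) cw1667
theorem W1673 : WFK w1673 := fun D T h => wf_of_chk h mem_nil (mem_cons (L40 D T h) mem_nil) cw1673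
theorem W1674 : WFK w1674 := fun D T h => wf_of_chk h mem_nil (mem_cons (L129 D T h) mem_nil) cw1674
theorem W1675 : WFK w1675 := fun D T h => wf_of_chk h mem_nil (mem_cons (L29 D T h) mem_nil) cw1675
theorem L385 : LFK l385 := fun D T h => lf_of_chk h (mem_cons (W1620 D T h) (mem_cons (W42 D T h) (mem_cons (W16 D T h) (mem_cons (W3 D T h) (mem_cons (W39 D T h) (mem_cons (W267 D T h) (mem_cons (W260 D T h) (mem_cons (W1564 D T h) (mem_cons (W262 D T h) (mem_cons (W1051 D T h) (mem_cons (W1535 D T h) (mem_cons (W256 D T h) (mem_cons (W1272 D T h) (mem_cons (W255 D T h) (mem_cons (W257 D T h) (mem_cons (W259 D T h) mem_nil)))))))))))))))) cl385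
theorem W1676 : WFK w1676 := fun D T h => wf_of_chk h mem_nil (mem_cons (L385 D T h) mem_nil) cw1676
theorem W1679 : WFK w1679 := fun D T h => wf_of_chk h mem_nil (mem_cons (L261 D T h) mem_nil) cw1679
theorem L386 : LFK l386 := fun D T h => lf_of_chk h (mem_cons (W152 D T h) (mem_cons (W281 D T h) (mem_cons (W3 D T h) (mem_cons (W924 D T h) (mem_cons (W1564 D T h) (mem_cons (W1679 D T h) (mem_cons (W4 D T h) (mem_cons (W1489 D T h) (mem_cons (W926 D T h) (mem_cons (W1540 D T h) (mem_cons (W1563 D T h) (mem_cons (W815 D T h) (mem_cons (W1535 D T h) (mem_cons (W431 D T h) mem_nil)))))))))))))) cl386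
theorem W1680 : WFK w1680 := fun D T h => wf_of_chk h mem_nil (mem_cons (L386 D T h) mem_nil) cw1680
theorem L387 : LFK l387 := fun D T h => lf_of_chk h (mem_cons (W1371 D T h) (mem_cons (W281 D T h) (mem_cons (W924 D T h) (mem_cons (W1531 D T h) (mem_cons (W1534 D T h) (mem_cons (W1541 D T h) (mem_cons (W1550 D T h) (mem_cons (W1547 D T h) (mem_cons (W1404 D T h) (mem_cons (W1399 D T h) (mem_cons (W8 D T h) (mem_cons (W1400 D T h) (mem_cons (W1402 D T h) (mem_cons (W1401 D T h) (mem_cons (W1403 D T h) mem_nil))))))))))))))) cl387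
theorem L390 : LFK l390 := fun D T h => lf_of_chk h (mem_cons (W1528 D T h) (mem_cons (W281 D T h) (mem_cons (W924 D T h) (mem_cons (W1613 D T h) (mem_cons (W4 D T h) (mem_cons (W1541 D T h) mem_nil)))))) cl390
theorem W1689 : WFK w1689 := fun D T h => wf_of_chk h mem_nil (mem_cons (L390 D T h) mem_nil) cw1689
theorem L391 : LFK l391 := fun D T h => lf_of_chk h (mem_cons (W924 D T h) (mem_cons (W1 D T h) (mem_cons (W3 D T h) (mem_cons (W15 D T h) (mem_cons (W802 D T h) (mem_cons (W210 D T h) (mem_cons (W915 D T h) (mem_cons (W1027 D T h) (mem_cons (W173 D T h) mem_nil))))))))) cl391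
theorem W1690 : WFK w1690 := fun D T h => wf_of_chk h mem_nil (mem_cons (L391 D T h) mem_nil) cw1690
theorem L392 : LFK l392 := fun D T h => lf_of_chk h (mem_cons (W128 D T h) (mem_cons (W219 D T h) (mem_cons (W15 D T h) (mem_cons (W281 D T h) (mem_cons (W554 D T h) (mem_cons (W621 D T h) (mem_cons (W1065 D T h) (mem_cons (W581 D T h) (mem_cons (W801 D T h) (mem_cons (W1209 D T h) (mem_cons (W1192 D T h) (mem_cons (W1064 D T h) mem_nil)))))))))))) cl392
theorem W1691 : WFK w1691 := fun D T h => wf_of_chk h mem_nil (mem_cons (L392 D T h) mem_nil) cw1691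
theorem L394 : LFK l394 := fun D T h => lf_of_chk h (mem_cons (W1620 D T h) (mem_cons (W16 D T h) (mem_cons (W3 D T h) (mem_cons (W1564 D T h) (mem_cons (W152 D T h) (mem_cons (W924 D T h) (mem_cons (W1051 D T h) (mem_cons (W1528 D T h) (mem_cons (W1489 D T h) (mem_cons (W926 D T h) (mem_cons (W160 D T h) (mem_cons (W1540 D T h) mem_nil)))))))))))) cl394
theorem L395 : LFK l395 := fun D T h => lf_of_chk h (mem_cons (W160 D T h) (mem_cons (W16 D T h) (mem_cons (W12 D T h) (mem_cons (W53 D T h) (mem_cons (W1401 D T h) (mem_cons (W1563 D T h) (mem_cons (W1051 D T h) (mem_cons (W1528 D T h) (mem_cons (W1400 D T h) (mem_cons (W1402 D T h) (mem_cons (W148 D T h) (mem_cons (W1530 D T h) (mem_cons (W330 D T h) (mem_cons (W381 D T h) mem_nil)))))))))))))) cl395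
theorem W1694 : WFK w1694 := fun D T h => wf_of_chk h mem_nil (mem_cons (L395 D T h) mem_nil) cw1694
theorem W1695 : WFK w1695 := fun D T h => wf_of_chk h mem_nil (mem_cons (L394 D T h) mem_nil) cw1695
theorem L396 : LFK l396 := fun D T h => lf_of_chk h (mem_cons (W1620 D T h) (mem_cons (W42 D T h) (mem_cons (W16 D T h) (mem_cons (W3 D T h) (mem_cons (W39 D T h) (mem_cons (W815 D T h) (mem_cons (W1531 D T h) (mem_cons (W15 D T h) (mem_cons (W1532 D T h) (mem_cons (W1051 D T h) (mem_cons (W174 D T h) (mem_cons (W1529 D T h) (mem_cons (W172 D T h) (mem_cons (W1530 D T h) (mem_cons (W976 D T h) mem_nil))))))))))))))) cl396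
theorem W1696 : WFK w1696 := fun D T h => wf_of_chk h mem_nil (mem_cons (L396 D T h) mem_nil) cw1696
theorem L397 : LFK l397 := fun D T h => lf_of_chk h (mem_cons (W1620 D T h) (mem_cons (W42 D T h) (mem_cons (W16 D T h) (mem_cons (W3 D T h) (mem_cons (W39 D T h) (mem_cons (W1535 D T h) (mem_cons (W1534 D T h) (mem_cons (W15 D T h) (mem_cons (W1536 D T h) (mem_cons (W1051 D T h) (mem_cons (W870 D T h) (mem_cons (W172 D T h) (mem_cons (W381 D T h) (mem_cons (W888 D T h) mem_nil)))))))))))))) cl397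
theorem W1697 : WFK w1697 := fun D T h => wf_of_chk h mem_nil (mem_cons (L397 D T h) mem_nil) cw1697
theorem W1703 : WFK w1703 := fun D T h => wf_of_chk h mem_nil (mem_cons (L396 D T h) mem_nil) cw1703
theorem L403 : LFK l403 := fun D T h => lf_of_chk h (mem_cons (W1400 D T h) (mem_cons (W4 D T h) (mem_cons (W638 D T h) (mem_cons (W210 D T h) (mem_cons (W915 D T h) (mem_cons (W1538 D T h) (mem_cons (W918 D T h) mem_nil))))))) cl403
theorem W1706 : WFK w1706 := fun D T h => wf_of_chk h mem_nil (mem_cons (L403 D T h) mem_nil) cw1706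
theorem W1707 : WFK w1707 := fun D T h => wf_of_chk h mem_nil (mem_cons (L403 D T h) mem_nil) cw1707
theorem W1709 : WFK w1709 := fun D T h => wf_of_chk h mem_nil (mem_cons (L68 D T h) mem_nil) cw1709
theorem L404 : LFK l404 := fun D T h => lf_of_chk h mem_nil cl404
theorem W1710 : WFK w1710 := fun D T h => wf_of_chk h mem_nil (mem_cons (L404 D T h) mem_nil) cw1710
theorem L405 : LFK l405 := fun D T h => lf_of_chk h mem_nil cl405
theorem W1711 : WFK w1711 := fun D T h => wf_of_chk h mem_nil (mem_cons (L405 D T h) mem_nil) cw1711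
theorem L406 : LFK l406 := fun D T h => lf_of_chk h (mem_cons (W17 D T h) (mem_cons (W203 D T h) (mem_cons (W202 D T h) (mem_cons (W278 D T h) (mem_cons (W1709 D T h) (mem_cons (W1710 D T h) (mem_cons (W1711 D T h) (mem_cons (W3 D T h) (mem_cons (W200 D T h) (mem_cons (W201 D T h) (mem_cons (W199 D T h) mem_nil))))))))))) cl406
theorem W1713 : WFK w1713 := fun D T h => wf_of_chk h mem_nil mem_nil cw1713
theorem W1714 : WFK w1714 := fun D T h => wf_of_chk h mem_nil (mem_cons (L64 D T h) mem_nil) cw1714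
theorem W1716 : WFK w1716 := fun D T h => wf_of_chk h (mem_cons (W901 D T h) mem_nil) mem_nil cw1716
theorem W1717 : WFK w1717 := fun D T h => wf_of_chk h (mem_cons (W126 D T h) mem_nil) mem_nil cw1717
theorem W1718 : WFK w1718 := fun D T h => wf_of_chk h mem_nil (mem_cons (L178 D T h) mem_nil) cw1718
theorem L407 : LFK l407 := fun D T h => lf_of_chk h (mem_cons (W1101 D T h) (mem_cons (W1432 D T h) (mem_cons (W1718 D T h) (mem_cons (W32 D T h) mem_nil)))) cl407
theorem W1719 : WFK w1719 := fun D T h => wf_of_chk h mem_nil (mem_cons (L407 D T h) mem_nil) cw1719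
theorem W1721 : WFK w1721 := fun D T h => wf_of_chk h mem_nil (mem_cons (L316 D T h) mem_nil) cw1721
theorem W1722 : WFK w1722 := fun D T h => wf_of_chk h mem_nil (mem_cons (L1 D T h) mem_nil) cw1722
theorem W1723 : WFK w1723 := fun D T h => wf_of_chk h mem_nil (mem_cons (L184 D T h) mem_nil) cw1723
theorem W1724 : WFK w1724 := fun D T h => wf_of_chk h mem_nil (mem_cons (L55 D T h) mem_nil) cw1724
theorem W1725 : WFK w1725 := fun D T h => wf_of_chk h mem_nil (mem_cons (L56 D T h) mem_nil) cw1725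
theorem W1726 : WFK w1726 := fun D T h => wf_of_chk h (mem_cons (W69 D T h) mem_nil) mem_nil cw1726
theorem L408 : LFK l408 := fun D T h => lf_of_chk h (mem_cons (W69 D T h) mem_nil) cl408
theorem W1730 : WFK w1730 := fun D T h => wf_of_chk h mem_nil (mem_cons (L42 D T h) mem_nil) cw1730
theorem W1731 : WFK w1731 := fun D T h => wf_of_chk h mem_nil (mem_cons (L46 D T h) mem_nil) cw1731
theorem W1732 : WFK w1732 := fun D T h => wf_of_chk h mem_nil (mem_cons (L83 D T h) mem_nil) cw1732
theorem W1733 : WFK w1733 := fun D T h => wf_of_chk h mem_nil mem_nil cw1733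
theorem W1734 : WFK w1734 := fun D T h => wf_of_chk h mem_nil mem_nil cw1734
theorem W1735 : WFK w1735 := fun D T h => wf_of_chk h mem_nil (mem_cons (L363 D T h) mem_nil) cw1735
theorem L409 : LFK l409 := fun D T h => lf_of_chk h mem_nil cl409
theorem W1736 : WFK w1736 := fun D T h => wf_of_chk h mem_nil (mem_cons (L409 D T h) mem_nil) cw1736
theorem W1737 : WFK w1737 := fun D T h => wf_of_chk h mem_nil (mem_cons (L409 D T h) mem_nil) cw1737
theorem L410 : LFK l410 := fun D T h => lf_of_chk h (mem_cons (W1380 D T h) (mem_cons (W33 D T h) (mem_cons (W777 D T h) (mem_cons (W893 D T h) (mem_cons (W1737 D T h) (mem_cons (W292 D T h) (mem_cons (W1725 D T h) (mem_cons (W1724 D T h) (mem_cons (W1732 D T h) (mem_cons (W1733 D T h) (mem_cons (W1734 D T h) (mem_cons (W1735 D T h) (mem_cons (W1736 D T h) mem_nil))))))))))))) cl410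
theorem W1739 : WFK w1739 := fun D T h => wf_of_chk h mem_nil mem_nil cw1739
theorem W1746 : WFK w1746 := fun D T h => wf_of_chk h mem_nil (mem_cons (L1 D T h) mem_nil) cw1746
theorem W1747 : WFK w1747 := fun D T h => wf_of_chk h (mem_cons (W220 D T h) mem_nil) mem_nil cw1747
theorem W1748 : WFK w1748 := fun D T h => wf_of_chk h mem_nil (mem_cons (L17 D T h) mem_nil) cw1748
theorem W1751 : WFK w1751 := fun D T h => wf_of_chk h mem_nil mem_nil cw1751
theorem L412 : LFK l412 := fun D T h => lf_of_chk h mem_nil cl412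
theorem L413 : LFK l413 := fun D T h => lf_of_chk h mem_nil cl413
theorem W1758 : WFK w1758 := fun D T h => wf_of_chk h mem_nil mem_nil cw1758
theorem L414 : LFK l414 := fun D T h => lf_of_chk h mem_nil cl414
theorem W1765 : WFK w1765 := fun D T h => wf_of_chk h mem_nil mem_nil cw1765
theorem W1775 : WFK w1775 := fun D T h => wf_of_chk h mem_nil (mem_cons (L84 D T h) mem_nil) cw1775
theorem W1778 : WFK w1778 := fun D T h => wf_of_chk h (mem_cons (W42 D T h) mem_nil) mem_nil cw1778
theorem W1779 : WFK w1779 := fun D T h => wf_of_chk h mem_nil mem_nil cw1779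
theorem W1780 : WFK w1780 := fun D T h => wf_of_chk h mem_nil (mem_cons (L25 D T h) mem_nil) cw1780
theorem W1781 : WFK w1781 := fun D T h => wf_of_chk h mem_nil (mem_cons (L26 D T h) mem_nil) cw1781
theorem W1782 : WFK w1782 := fun D T h => wf_of_chk h mem_nil mem_nil cw1782
theorem W1784 : WFK w1784 := fun D T h => wf_of_chk h mem_nil mem_nil cw1784
theorem L416 : LFK l416 := fun D T h => lf_of_chk h (mem_cons (W1260 D T h) (mem_cons (W6 D T h) (mem_cons (W1475 D T h) (mem_cons (W1781 D T h) (mem_cons (W1782 D T h) (mem_cons (W1784 D T h) (mem_cons (W1780 D T h) mem_nil))))))) cl416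
theorem W1785 : WFK w1785 := fun D T h => wf_of_chk h mem_nil (mem_cons (L416 D T h) mem_nil) cw1785
theorem W1786 : WFK w1786 := fun D T h => wf_of_chk h (mem_cons (W1326 D T h) mem_nil) mem_nil cw1786
theorem W1787 : WFK w1787 := fun D T h => wf_of_chk h (mem_cons (W581 D T h) mem_nil) mem_nil cw1787
theorem W1788 : WFK w1788 := fun D T h => wf_of_chk h (mem_cons (W1326 D T h) mem_nil) mem_nil cw1788
theorem W1789 : WFK w1789 := fun D T h => wf_of_chk h (mem_cons (W220 D T h) (mem_cons (W1283 D T h) mem_nil)) mem_nil cw1789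
theorem W1790 : WFK w1790 := fun D T h => wf_of_chk h (mem_cons (W461 D T h) mem_nil) mem_nil cw1790
theorem W1791 : WFK w1791 := fun D T h => wf_of_chk h (mem_cons (W56 D T h) mem_nil) mem_nil cw1791
theorem W1792 : WFK w1792 := fun D T h => wf_of_chk h (mem_cons (W220 D T h) mem_nil) mem_nil cw1792
theorem W1793 : WFK w1793 := fun D T h => wf_of_chk h (mem_cons (W220 D T h) mem_nil) mem_nil cw1793
theorem W1794 : WFK w1794 := fun D T h => wf_of_chk h (mem_cons (W267 D T h) mem_nil) mem_nil cw1794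
theorem W1795 : WFK w1795 := fun D T h => wf_of_chk h (mem_cons (W1528 D T h) mem_nil) mem_nil cw1795
theorem W1796 : WFK w1796 := fun D T h => wf_of_chk h (mem_cons (W42 D T h) mem_nil) mem_nil cw1796
theorem W1797 : WFK w1797 := fun D T h => wf_of_chk h mem_nil (mem_cons (L26 D T h) mem_nil) cw1797
theorem W1798 : WFK w1798 := fun D T h => wf_of_chk h (mem_cons (W42 D T h) mem_nil) mem_nil cw1798
theorem L417 : LFK l417 := fun D T h => lf_of_chk h (mem_cons (W1778 D T h) (mem_cons (W1690 D T h) (mem_cons (W1620 D T h) (mem_cons (W1796 D T h) (mem_cons (W1797 D T h) (mem_cons (W1798 D T h) (mem_cons (W42 D T h) (mem_cons (W16 D T h) (mem_cons (W1779 D T h) (mem_cons (W1723 D T h) (mem_cons (W1790 D T h) (mem_cons (W1785 D T h) (mem_cons (W152 D T h) (mem_cons (W261 D T h) (mem_cons (W1786 D T h) (mem_cons (W1787 D T h) (mem_cons (W1788 D T h) (mem_cons (W1789 D T h) (mem_cons (W1784 D T h) (mem_cons (W799 D T h) (mem_cons (W1528 D T h) (mem_cons (W1791 D T h) (mem_cons (W1792 D T h) (mem_cons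 (W1348 D T h) (mem_cons (W1793 D T h) (mem_cons (W1794 D T h) (mem_cons (W1795 D T h) mem_nil))))))))))))))))))))))))))) cl417
theorem W1800 : WFK w1800 := fun D T h => wf_of_chk h mem_nil (mem_cons (L89 D T h) mem_nil) cw1800
theorem W1801 : WFK w1801 := fun D T h => wf_of_chk h mem_nil (mem_cons (L240 D T h) mem_nil) cw1801
theorem W1804 : WFK w1804 := fun D T h => wf_of_chk h mem_nil (mem_cons (L111 D T h) mem_nil) cw1804
theorem W1805 : WFK w1805 := fun D T h => wf_of_chk h mem_nil (mem_cons (L409 D T h) mem_nil) cw1805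
theorem L418 : LFK l418 := fun D T h => lf_of_chk h (mem_cons (W39 D T h) (mem_cons (W69 D T h) (mem_cons (W220 D T h) (mem_cons (W1804 D T h) (mem_cons (W1805 D T h) (mem_cons (W143 D T h) mem_nil)))))) cl418
theorem W1807 : WFK w1807 := fun D T h => wf_of_chk h mem_nil (mem_cons (L220 D T h) mem_nil) cw1807
theorem L419 : LFK l419 := fun D T h => lf_of_chk h mem_nil cl419
theorem W1808 : WFK w1808 := fun D T h => wf_of_chk h mem_nil (mem_cons (L419 D T h) mem_nil) cw1808
theorem W1809 : WFK w1809 := fun D T h => wf_of_chk h mem_nil mem_nil cw1809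
theorem W1820 : WFK w1820 := fun D T h => wf_of_chk h mem_nil (mem_cons (L330 D T h) mem_nil) cw1820
theorem L423 : LFK l423 := fun D T h => lf_of_chk h (mem_cons (W1041 D T h) (mem_cons (W831 D T h) (mem_cons (W1101 D T h) (mem_cons (W25 D T h) mem_nil)))) cl423
theorem W1821 : WFK w1821 := fun D T h => wf_of_chk h mem_nil (mem_cons (L423 D T h) mem_nil) cw1821
theorem W1822 : WFK w1822 := fun D T h => wf_of_chk h mem_nil (mem_cons (L163 D T h) mem_nil) cw1822
theorem L424 : LFK l424 := fun D T h => lf_of_chk h (mem_cons (W1249 D T h) (mem_cons (W1821 D T h) (mem_cons (W431 D T h) (mem_cons (W1822 D T h) (mem_cons (W429 D T h) (mem_cons (W5 D T h) mem_nil)))))) cl424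
theorem W1823 : WFK w1823 := fun D T h => wf_of_chk h mem_nil (mem_cons (L424 D T h) mem_nil) cw1823
theorem L425 : LFK l425 := fun D T h => lf_of_chk h (mem_cons (W13 D T h) (mem_cons (W177 D T h) (mem_cons (W1797 D T h) (mem_cons (W1432 D T h) (mem_cons (W49 D T h) (mem_cons (W1781 D T h) (mem_cons (W1246 D T h) (mem_cons (W1823 D T h) mem_nil)))))))) cl425
theorem W1825 : WFK w1825 := fun D T h => wf_of_chk h mem_nil mem_nil cw1825
theorem L426 : LFK l426 := fun D T h => lf_of_chk h (mem_cons (W142 D T h) (mem_cons (W105 D T h) (mem_cons (W33 D T h) (mem_cons (W1797 D T h) (mem_cons (W1808 D T h) (mem_cons (W78 D T h) (mem_cons (W1825 D T h) mem_nil))))))) cl426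
theorem W1826 : WFK w1826 := fun D T h => wf_of_chk h mem_nil (mem_cons (L426 D T h) mem_nil) cw1826
theorem W1829 : WFK w1829 := fun D T h => wf_of_chk h mem_nil (mem_cons (L32 D T h) mem_nil) cw1829
theorem W1830 : WFK w1830 := fun D T h => wf_of_chk h mem_nil (mem_cons (L55 D T h) mem_nil) cw1830
theorem W1831 : WFK w1831 := fun D T h => wf_of_chk h mem_nil (mem_cons (L56 D T h) mem_nil) cw1831
theorem W1832 : WFK w1832 := fun D T h => wf_of_chk h mem_nil mem_nil cw1832
theorem L429 : LFK l429 := fun D T h => lf_of_chk h (mem_cons (W1825 D T h) (mem_cons (W1829 D T h) (mem_cons (W33 D T h) (mem_cons (W1797 D T h) (mem_cons (W1808 D T h) (mem_cons (W1830 D T h) (mem_cons (W1831 D T h) (mem_cons (W1832 D T h) (mem_cons (W78 D T h) (mem_cons (W142 D T h) mem_nil)))))))))) cl429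
theorem L430 : LFK l430 := fun D T h => lf_of_chk h mem_nil cl430
theorem W1834 : WFK w1834 := fun D T h => wf_of_chk h mem_nil (mem_cons (L430 D T h) mem_nil) cw1834
theorem L431 : LFK l431 := fun D T h => lf_of_chk h (mem_cons (W142 D T h) (mem_cons (W78 D T h) (mem_cons (W33 D T h) (mem_cons (W539 D T h) (mem_cons (W404 D T h) (mem_cons (W1834 D T h) (mem_cons (W1246 D T h) mem_nil))))))) cl431
theorem W1835 : WFK w1835 := fun D T h => wf_of_chk h mem_nil (mem_cons (L431 D T h) mem_nil) cw1835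
theorem W1836 : WFK w1836 := fun D T h => wf_of_chk h mem_nil mem_nil cw1836
theorem W1841 : WFK w1841 := fun D T h => wf_of_chk h mem_nil (mem_cons (L29 D T h) mem_nil) cw1841
theorem W1842 : WFK w1842 := fun D T h => wf_of_chk h mem_nil (mem_cons (L413 D T h) mem_nil) cw1842
theorem W1844 : WFK w1844 := fun D T h => wf_of_chk h mem_nil mem_nil cw1844
theorem W1845 : WFK w1845 := fun D T h => wf_of_chk h mem_nil (mem_cons (L247 D T h) mem_nil) cw1845
theorem W1846 : WFK w1846 := fun D T h => wf_of_chk h mem_nil (mem_cons (L120 D T h) mem_nil) cw1846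
theorem W1851 : WFK w1851 := fun D T h => wf_of_chk h mem_nil (mem_cons (L314 D T h) mem_nil) cw1851
theorem L434 : LFK l434 := fun D T h => lf_of_chk h (mem_cons (W91 D T h) mem_nil) cl434
theorem W1853 : WFK w1853 := fun D T h => wf_of_chk h (mem_cons (W91 D T h) mem_nil) mem_nil cw1853
theorem W1854 : WFK w1854 := fun D T h => wf_of_chk h mem_nil mem_nil cw1854
theorem L435 : LFK l435 := fun D T h => lf_of_chk h (mem_cons (W860 D T h) (mem_cons (W6 D T h) (mem_cons (W11 D T h) (mem_cons (W731 D T h) (mem_cons (W1854 D T h) (mem_cons (W861 D T h) (mem_cons (W1784 D T h) (mem_cons (W842 D T h) (mem_cons (W137 D T h) mem_nil))))))))) cl435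
theorem W1862 : WFK w1862 := fun D T h => wf_of_chk h (mem_cons (W42 D T h) mem_nil) mem_nil cw1862
theorem W1864 : WFK w1864 := fun D T h => wf_of_chk h (mem_cons (W819 D T h) (mem_cons (W42 D T h) mem_nil)) mem_nil cw1864
theorem W1865 : WFK w1865 := fun D T h => wf_of_chk h (mem_cons (W819 D T h) (mem_cons (W42 D T h) mem_nil)) mem_nil cw1865
theorem W1870 : WFK w1870 := fun D T h => wf_of_chk h (mem_cons (W1 D T h) mem_nil) mem_nil cw1870
theorem L437 : LFK l437 := fun D T h => lf_of_chk h (mem_cons (W860 D T h) (mem_cons (W6 D T h) (mem_cons (W11 D T h) (mem_cons (W731 D T h) (mem_cons (W861 D T h) (mem_cons (W1784 D T h) (mem_cons (W842 D T h) (mem_cons (W873 D T h) (mem_cons (W137 D T h) mem_nil))))))))) cl437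
theorem W1871 : WFK w1871 := fun D T h => wf_of_chk h mem_nil (mem_cons (L437 D T h) mem_nil) cw1871
theorem W1872 : WFK w1872 := fun D T h => wf_of_chk h (mem_cons (W220 D T h) (mem_cons (W141 D T h) mem_nil)) mem_nil cw1872
theorem W1873 : WFK w1873 := fun D T h => wf_of_chk h (mem_cons (W581 D T h) (mem_cons (W1 D T h) mem_nil)) mem_nil cw1873
theorem W1874 : WFK w1874 := fun D T h => wf_of_chk h (mem_cons (W1326 D T h) (mem_cons (W1 D T h) mem_nil)) mem_nil cw1874
theorem W1875 : WFK w1875 := fun D T h => wf_of_chk h (mem_cons (W1528 D T h) (mem_cons (W1 D T h) mem_nil)) mem_nil cw1875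
theorem W1876 : WFK w1876 := fun D T h => wf_of_chk h (mem_cons (W461 D T h) (mem_cons (W1 D T h) mem_nil)) mem_nil cw1876
theorem W1877 : WFK w1877 := fun D T h => wf_of_chk h (mem_cons (W42 D T h) (mem_cons (W1 D T h) mem_nil)) mem_nil cw1877
theorem W1878 : WFK w1878 := fun D T h => wf_of_chk h mem_nil (mem_cons (L417 D T h) mem_nil) cw1878
theorem W1879 : WFK w1879 := fun D T h => wf_of_chk h (mem_cons (W161 D T h) (mem_cons (W42 D T h) mem_nil)) mem_nil cw1879
theorem L438 : LFK l438 := fun D T h => lf_of_chk h (mem_cons (W1851 D T h) (mem_cons (W932 D T h) (mem_cons (W1620 D T h) (mem_cons (W42 D T h) (mem_cons (W16 D T h) (mem_cons (W1723 D T h) (mem_cons (W1870 D T h) (mem_cons (W1876 D T h) (mem_cons (W1877 D T h) (mem_cons (W1871 D T h) (mem_cons (W152 D T h) (mem_cons (W261 D T h) (mem_cons (W1872 D T h) (mem_cons (W1873 D T h) (mem_cons (W1874 D T h) (mem_cons (W1528 D T h) (mem_cons (W799 D T h) (mem_cons (W1875 D T h) (mem_cons (W1690 D T h) (mem_cons (W140 D T h) (mem_cons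 (W1795 D T h) (mem_cons (W1878 D T h) (mem_cons (W1864 D T h) (mem_cons (W1865 D T h) (mem_cons (W917 D T h) (mem_cons (W1879 D T h) (mem_cons (W1862 D T h) (mem_cons (W1624 D T h) mem_nil)))))))))))))))))))))))))))) cl438
theorem W1880 : WFK w1880 := fun D T h => wf_of_chk h mem_nil (mem_cons (L438 D T h) mem_nil) cw1880
theorem W1883 : WFK w1883 := fun D T h => wf_of_chk h mem_nil (mem_cons (L134 D T h) mem_nil) cw1883
theorem W1889 : WFK w1889 := fun D T h => wf_of_chk h mem_nil (mem_cons (L45 D T h) mem_nil) cw1889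
theorem W1890 : WFK w1890 := fun D T h => wf_of_chk h (mem_cons (W154 D T h) mem_nil) mem_nil cw1890
theorem W1901 : WFK w1901 := fun D T h => wf_of_chk h mem_nil (mem_cons (L296 D T h) mem_nil) cw1901
theorem W1903 : WFK w1903 := fun D T h => wf_of_chk h mem_nil (mem_cons (L379 D T h) mem_nil) cw1903
theorem W1904 : WFK w1904 := fun D T h => wf_of_chk h mem_nil (mem_cons (L386 D T h) mem_nil) cw1904
theorem W1905 : WFK w1905 := fun D T h => wf_of_chk h mem_nil (mem_cons (L385 D T h) mem_nil) cw1905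
theorem W1906 : WFK w1906 := fun D T h => wf_of_chk h mem_nil (mem_cons (L298 D T h) mem_nil) cw1906
theorem W1907 : WFK w1907 := fun D T h => wf_of_chk h mem_nil (mem_cons (L270 D T h) mem_nil) cw1907
theorem W1911 : WFK w1911 := fun D T h => wf_of_chk h (mem_cons (W455 D T h) mem_nil) mem_nil cw1911
theorem W1912 : WFK w1912 := fun D T h => wf_of_chk h (mem_cons (W1599 D T h) mem_nil) mem_nil cw1912
theorem W1914 : WFK w1914 := fun D T h => wf_of_chk h (mem_cons (W937 D T h) (mem_cons (W16 D T h) mem_nil)) mem_nil cw1914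
theorem W1918 : WFK w1918 := fun D T h => wf_of_chk h (mem_cons (W181 D T h) mem_nil) mem_nil cw1918
theorem W1919 : WFK w1919 := fun D T h => wf_of_chk h mem_nil (mem_cons (L391 D T h) mem_nil) cw1919
theorem L444 : LFK l444 := fun D T h => lf_of_chk h mem_nil cl444
theorem W1923 : WFK w1923 := fun D T h => wf_of_chk h (mem_cons (W220 D T h) mem_nil) mem_nil cw1923
theorem W1924 : WFK w1924 := fun D T h => wf_of_chk h mem_nil (mem_cons (L391 D T h) mem_nil) cw1924
theorem W1926 : WFK w1926 := fun D T h => wf_of_chk h (mem_cons (W789 D T h) mem_nil) mem_nil cw1926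
theorem L445 : LFK l445 := fun D T h => lf_of_chk h (mem_cons (W181 D T h) (mem_cons (W725 D T h) (mem_cons (W1429 D T h) mem_nil))) cl445
theorem W1927 : WFK w1927 := fun D T h => wf_of_chk h mem_nil (mem_cons (L445 D T h) mem_nil) cw1927
theorem W1928 : WFK w1928 := fun D T h => wf_of_chk h mem_nil (mem_cons (L249 D T h) mem_nil) cw1928
theorem L446 : LFK l446 := fun D T h => lf_of_chk h (mem_cons (W15 D T h) (mem_cons (W1 D T h) (mem_cons (W1928 D T h) (mem_cons (W149 D T h) (mem_cons (W432 D T h) (mem_cons (W638 D T h) (mem_cons (W151 D T h) (mem_cons (W1371 D T h) mem_nil)))))))) cl446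
theorem W1929 : WFK w1929 := fun D T h => wf_of_chk h mem_nil (mem_cons (L446 D T h) mem_nil) cw1929
theorem W1930 : WFK w1930 := fun D T h => wf_of_chk h (mem_cons (W1929 D T h) mem_nil) mem_nil cw1930
theorem L447 : LFK l447 := fun D T h => lf_of_chk h (mem_cons (W1919 D T h) mem_nil) cl447
theorem W1931 : WFK w1931 := fun D T h => wf_of_chk h mem_nil (mem_cons (L447 D T h) mem_nil) cw1931
theorem W1932 : WFK w1932 := fun D T h => wf_of_chk h mem_nil (mem_cons (L178 D T h) mem_nil) cw1932
theorem W1935 : WFK w1935 := fun D T h => wf_of_chk h mem_nil (mem_cons (L267 D T h) mem_nil) cw1935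
theorem W1937 : WFK w1937 := fun D T h => wf_of_chk h mem_nil (mem_cons (L391 D T h) mem_nil) cw1937
theorem W1940 : WFK w1940 := fun D T h => wf_of_chk h mem_nil (mem_cons (L232 D T h) mem_nil) cw1940
theorem W1944 : WFK w1944 := fun D T h => wf_of_chk h mem_nil (mem_cons (L413 D T h) mem_nil) cw1944
theorem L449 : LFK l449 := fun D T h => lf_of_chk h (mem_cons (W141 D T h) (mem_cons (W1 D T h) (mem_cons (W808 D T h) (mem_cons (W1143 D T h) (mem_cons (W501 D T h) (mem_cons (W1400 D T h) (mem_cons (W1673 D T h) (mem_cons (W109 D T h) (mem_cons (W861 D T h) (mem_cons (W603 D T h) (mem_cons (W1944 D T h) (mem_cons (W11 D T h) (mem_cons (W784 D T h) mem_nil))))))))))))) cl449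
theorem W1945 : WFK w1945 := fun D T h => wf_of_chk h mem_nil (mem_cons (L449 D T h) mem_nil) cw1945
theorem L450 : LFK l450 := fun D T h => lf_of_chk h (mem_cons (W576 D T h) (mem_cons (W1 D T h) (mem_cons (W4 D T h) (mem_cons (W33 D T h) (mem_cons (W808 D T h) (mem_cons (W603 D T h) (mem_cons (W907 D T h) (mem_cons (W1122 D T h) (mem_cons (W820 D T h) (mem_cons (W816 D T h) (mem_cons (W821 D T h) (mem_cons (W823 D T h) (mem_cons (W632 D T h) (mem_cons (W834 D T h) (mem_cons (W830 D T h) (mem_cons (W1079 D T h) (mem_cons (W1080 D T h) (mem_cons (W1078 D T h) (mem_cons (W1081 D T h) mem_nil))))))))))))))))))) cl450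
theorem W1946 : WFK w1946 := fun D T h => wf_of_chk h mem_nil (mem_cons (L450 D T h) mem_nil) cw1946
theorem W1947 : WFK w1947 := fun D T h => wf_of_chk h mem_nil (mem_cons (L278 D T h) mem_nil) cw1947
theorem L451 : LFK l451 := fun D T h => lf_of_chk h (mem_cons (W576 D T h) (mem_cons (W210 D T h) (mem_cons (W4 D T h) (mem_cons (W33 D T h) (mem_cons (W808 D T h) (mem_cons (W211 D T h) (mem_cons (W411 D T h) (mem_cons (W846 D T h) (mem_cons (W845 D T h) (mem_cons (W847 D T h) (mem_cons (W848 D T h) (mem_cons (W823 D T h) (mem_cons (W632 D T h) mem_nil))))))))))))) cl451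
theorem W1948 : WFK w1948 := fun D T h => wf_of_chk h mem_nil (mem_cons (L451 D T h) mem_nil) cw1948
theorem L452 : LFK l452 := fun D T h => lf_of_chk h (mem_cons (W576 D T h) (mem_cons (W211 D T h) (mem_cons (W4 D T h) (mem_cons (W33 D T h) (mem_cons (W808 D T h) (mem_cons (W411 D T h) (mem_cons (W846 D T h) (mem_cons (W845 D T h) (mem_cons (W847 D T h) (mem_cons (W848 D T h) (mem_cons (W823 D T h) (mem_cons (W632 D T h) mem_nil)))))))))))) cl452
theorem W1949 : WFK w1949 := fun D T h => wf_of_chk h mem_nil (mem_cons (L452 D T h) mem_nil) cw1949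
theorem W1950 : WFK w1950 := fun D T h => wf_of_chk h (mem_cons (W281 D T h) mem_nil) mem_nil cw1950
theorem L453 : LFK l453 := fun D T h => lf_of_chk h (mem_cons (W576 D T h) (mem_cons (W281 D T h) (mem_cons (W4 D T h) (mem_cons (W33 D T h) (mem_cons (W808 D T h) (mem_cons (W603 D T h) (mem_cons (W604 D T h) (mem_cons (W858 D T h) (mem_cons (W907 D T h) (mem_cons (W1948 D T h) (mem_cons (W1949 D T h) (mem_cons (W1104 D T h) (mem_cons (W1080 D T h) (mem_cons (W1078 D T h) (mem_cons (W1950 D T h) mem_nil))))))))))))))) cl453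
theorem W1951 : WFK w1951 := fun D T h => wf_of_chk h mem_nil (mem_cons (L453 D T h) mem_nil) cw1951
theorem L454 : LFK l454 := fun D T h => lf_of_chk h (mem_cons (W795 D T h) (mem_cons (W1 D T h) (mem_cons (W808 D T h) (mem_cons (W1082 D T h) (mem_cons (W576 D T h) (mem_cons (W839 D T h) (mem_cons (W1946 D T h) (mem_cons (W10 D T h) (mem_cons (W603 D T h) (mem_cons (W604 D T h) (mem_cons (W1123 D T h) (mem_cons (W889 D T h) (mem_cons (W1947 D T h) (mem_cons (W1951 D T h) mem_nil)))))))))))))) cl454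
theorem W1952 : WFK w1952 := fun D T h => wf_of_chk h mem_nil (mem_cons (L454 D T h) mem_nil) cw1952
theorem W1953 : WFK w1953 := fun D T h => wf_of_chk h mem_nil (mem_cons (L449 D T h) mem_nil) cw1953
theorem W1960 : WFK w1960 := fun D T h => wf_of_chk h mem_nil (mem_cons (L1 D T h) mem_nil) cw1960
theorem W1969 : WFK w1969 := fun D T h => wf_of_chk h mem_nil (mem_cons (L454 D T h) mem_nil) cw1969
theorem W1986 : WFK w1986 := fun D T h => wf_of_chk h (mem_cons (W220 D T h) mem_nil) mem_nil cw1986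
theorem W1994 : WFK w1994 := fun D T h => wf_of_chk h mem_nil (mem_cons (L1 D T h) mem_nil) cw1994
theorem W1995 : WFK w1995 := fun D T h => wf_of_chk h mem_nil (mem_cons (L172 D T h) mem_nil) cw1995
theorem W1996 : WFK w1996 := fun D T h => wf_of_chk h mem_nil (mem_cons (L172 D T h) mem_nil) cw1996
theorem W1997 : WFK w1997 := fun D T h => wf_of_chk h mem_nil (mem_cons (L449 D T h) mem_nil) cw1997
theorem W2002 : WFK w2002 := fun D T h => wf_of_chk h mem_nil (mem_cons (L69 D T h) mem_nil) cw2002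
theorem W2004 : WFK w2004 := fun D T h => wf_of_chk h mem_nil (mem_cons (L169 D T h) mem_nil) cw2004
theorem W2007 : WFK w2007 := fun D T h => wf_of_chk h mem_nil (mem_cons (L17 D T h) mem_nil) cw2007
theorem W2015 : WFK w2015 := fun D T h => wf_of_chk h mem_nil (mem_cons (L268 D T h) mem_nil) cw2015
theorem W2016 : WFK w2016 := fun D T h => wf_of_chk h (mem_cons (W2015 D T h) (mem_cons (W181 D T h) mem_nil)) mem_nil cw2016
theorem W2017 : WFK w2017 := fun D T h => wf_of_chk h mem_nil (mem_cons (L344 D T h) mem_nil) cw2017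
theorem W2022 : WFK w2022 := fun D T h => wf_of_chk h (mem_cons (W16 D T h) mem_nil) mem_nil cw2022
theorem W2024 : WFK w2024 := fun D T h => wf_of_chk h mem_nil (mem_cons (L300 D T h) mem_nil) cw2024
theorem W2027 : WFK w2027 := fun D T h => wf_of_chk h mem_nil (mem_cons (L306 D T h) mem_nil) cw2027
theorem W2031 : WFK w2031 := fun D T h => wf_of_chk h mem_nil mem_nil cw2031
theorem W2036 : WFK w2036 := fun D T h => wf_of_chk h (mem_cons (W1339 D T h) (mem_cons (W16 D T h) mem_nil)) mem_nil cw2036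
theorem W2037 : WFK w2037 := fun D T h => wf_of_chk h mem_nil (mem_cons (L268 D T h) mem_nil) cw2037
theorem W2038 : WFK w2038 := fun D T h => wf_of_chk h (mem_cons (W368 D T h) (mem_cons (W181 D T h) mem_nil)) mem_nil cw2038
theorem W2039 : WFK w2039 := fun D T h => wf_of_chk h mem_nil (mem_cons (L209 D T h) mem_nil) cw2039
theorem L469 : LFK l469 := fun D T h => lf_of_chk h (mem_cons (W284 D T h) (mem_cons (W1346 D T h) (mem_cons (W1019 D T h) (mem_cons (W181 D T h) (mem_cons (W42 D T h) (mem_cons (W16 D T h) (mem_cons (W2039 D T h) (mem_cons (W2037 D T h) (mem_cons (W15 D T h) (mem_cons (W2038 D T h) (mem_cons (W128 D T h) (mem_cons (W1139 D T h) (mem_cons (W261 D T h) (mem_cons (W2036 D T h) mem_nil)))))))))))))) cl469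
theorem W2042 : WFK w2042 := fun D T h => wf_of_chk h mem_nil (mem_cons (L307 D T h) mem_nil) cw2042
theorem W2046 : WFK w2046 := fun D T h => wf_of_chk h (mem_cons (W726 D T h) (mem_cons (W16 D T h) mem_nil)) mem_nil cw2046
theorem W2047 : WFK w2047 := fun D T h => wf_of_chk h mem_nil (mem_cons (L178 D T h) mem_nil) cw2047
theorem L470 : LFK l470 := fun D T h => lf_of_chk h (mem_cons (W1528 D T h) (mem_cons (W10 D T h) (mem_cons (W212 D T h) (mem_cons (W2047 D T h) (mem_cons (W4 D T h) (mem_cons (W381 D T h) (mem_cons (W870 D T h) (mem_cons (W172 D T h) (mem_cons (W888 D T h) mem_nil))))))))) cl470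
theorem W2048 : WFK w2048 := fun D T h => wf_of_chk h mem_nil (mem_cons (L470 D T h) mem_nil) cw2048
theorem W2049 : WFK w2049 := fun D T h => wf_of_chk h (mem_cons (W164 D T h) (mem_cons (W16 D T h) mem_nil)) mem_nil cw2049
theorem W2050 : WFK w2050 := fun D T h => wf_of_chk h mem_nil (mem_cons (L299 D T h) mem_nil) cw2050
theorem W2051 : WFK w2051 := fun D T h => wf_of_chk h mem_nil (mem_cons (L299 D T h) mem_nil) cw2051
theorem W2052 : WFK w2052 := fun D T h => wf_of_chk h mem_nil (mem_cons (L159 D T h) mem_nil) cw2052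
theorem L471 : LFK l471 := fun D T h => lf_of_chk h (mem_cons (W24 D T h) (mem_cons (W50 D T h) (mem_cons (W15 D T h) (mem_cons (W220 D T h) (mem_cons (W17 D T h) (mem_cons (W83 D T h) (mem_cons (W1334 D T h) (mem_cons (W438 D T h) (mem_cons (W1335 D T h) (mem_cons (W618 D T h) (mem_cons (W1397 D T h) mem_nil))))))))))) cl471
theorem W2053 : WFK w2053 := fun D T h => wf_of_chk h mem_nil (mem_cons (L471 D T h) mem_nil) cw2053
theorem W2054 : WFK w2054 := fun D T h => wf_of_chk h (mem_cons (W220 D T h) (mem_cons (W50 D T h) mem_nil)) mem_nil cw2054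
theorem W2055 : WFK w2055 := fun D T h => wf_of_chk h mem_nil (mem_cons (L471 D T h) mem_nil) cw2055
theorem W2056 : WFK w2056 := fun D T h => wf_of_chk h mem_nil (mem_cons (L167 D T h) mem_nil) cw2056
theorem L472 : LFK l472 := fun D T h => lf_of_chk h (mem_cons (W1502 D T h) (mem_cons (W177 D T h) (mem_cons (W50 D T h) (mem_cons (W16 D T h) (mem_cons (W14 D T h) (mem_cons (W760 D T h) (mem_cons (W2056 D T h) (mem_cons (W284 D T h) (mem_cons (W1632 D T h) (mem_cons (W2027 D T h) (mem_cons (W2052 D T h) (mem_cons (W24 D T h) (mem_cons (W209 D T h) (mem_cons (W2053 D T h) (mem_cons (W2054 D T h) (mem_cons (W1523 D T h) (mem_cons (W2055 D T h) (mem_cons (W2046 D T h) (mem_cons (W42 D T h) (mem_cons (W2048 D T h) (mem_cons (W1390 D T h) (mem_cons (W2049 D T h) (mem_cons (W2050 D T h) (mem_cons (W2051 D T h) (mem_cons (W342 D T h) (mem_cons (W341 D T h) (mem_cons (W1676 D T h) (mem_cons (W1651 D T h) mem_nil)))))))))))))))))))))))))))) cl472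
theorem W2057 : WFK w2057 := fun D T h => wf_of_chk h mem_nil (mem_cons (L472 D T h) mem_nil) cw2057
theorem W2058 : WFK w2058 := fun D T h => wf_of_chk h (mem_cons (W37 D T h) mem_nil) mem_nil cw2058
theorem L473 : LFK l473 := fun D T h => lf_of_chk h (mem_cons (W1528 D T h) (mem_cons (W2 D T h) (mem_cons (W368 D T h) (mem_cons (W3 D T h) (mem_cons (W401 D T h) (mem_cons (W39 D T h) (mem_cons (W267 D T h) (mem_cons (W2058 D T h) (mem_cons (W91 D T h) (mem_cons (W256 D T h) (mem_cons (W1272 D T h) (mem_cons (W255 D T h) (mem_cons (W257 D T h) (mem_cons (W181 D T h) mem_nil)))))))))))))) cl473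
theorem W2059 : WFK w2059 := fun D T h => wf_of_chk h mem_nil (mem_cons (L473 D T h) mem_nil) cw2059
theorem W2060 : WFK w2060 := fun D T h => wf_of_chk h (mem_cons (W128 D T h) (mem_cons (W37 D T h) mem_nil)) mem_nil cw2060
theorem W2061 : WFK w2061 := fun D T h => wf_of_chk h (mem_cons (W284 D T h) (mem_cons (W37 D T h) mem_nil)) mem_nil cw2061
theorem W2062 : WFK w2062 := fun D T h => wf_of_chk h mem_nil (mem_cons (L274 D T h) mem_nil) cw2062
theorem L474 : LFK l474 := fun D T h => lf_of_chk h (mem_cons (W42 D T h) mem_nil) cl474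
theorem W2063 : WFK w2063 := fun D T h => wf_of_chk h mem_nil (mem_cons (L474 D T h) mem_nil) cw2063
theorem W2064 : WFK w2064 := fun D T h => wf_of_chk h (mem_cons (W69 D T h) (mem_cons (W16 D T h) mem_nil)) mem_nil cw2064
theorem W2065 : WFK w2065 := fun D T h => wf_of_chk h mem_nil (mem_cons (L307 D T h) mem_nil) cw2065
theorem W2066 : WFK w2066 := fun D T h => wf_of_chk h (mem_cons (W1064 D T h) (mem_cons (W16 D T h) mem_nil)) mem_nil cw2066
theorem W2067 : WFK w2067 := fun D T h => wf_of_chk h (mem_cons (W714 D T h) (mem_cons (W16 D T h) mem_nil)) mem_nil cw2067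
theorem L475 : LFK l475 := fun D T h => lf_of_chk h (mem_cons (W149 D T h) (mem_cons (W33 D T h) (mem_cons (W1379 D T h) (mem_cons (W1393 D T h) mem_nil)))) cl475
theorem W2068 : WFK w2068 := fun D T h => wf_of_chk h mem_nil (mem_cons (L475 D T h) mem_nil) cw2068
theorem W2069 : WFK w2069 := fun D T h => wf_of_chk h (mem_cons (W2068 D T h) (mem_cons (W16 D T h) mem_nil)) mem_nil cw2069
theorem W2070 : WFK w2070 := fun D T h => wf_of_chk h (mem_cons (W1361 D T h) (mem_cons (W16 D T h) mem_nil)) mem_nil cw2070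
theorem L476 : LFK l476 := fun D T h => lf_of_chk h (mem_cons (W255 D T h) (mem_cons (W56 D T h) (mem_cons (W16 D T h) (mem_cons (W12 D T h) (mem_cons (W294 D T h) (mem_cons (W295 D T h) (mem_cons (W432 D T h) (mem_cons (W296 D T h) (mem_cons (W354 D T h) (mem_cons (W174 D T h) (mem_cons (W501 D T h) (mem_cons (W299 D T h) (mem_cons (W298 D T h) (mem_cons (W293 D T h) (mem_cons (W301 D T h) (mem_cons (W330 D T h) (mem_cons (W302 D T h) mem_nil))))))))))))))))) cl476
theorem W2071 : WFK w2071 := fun D T h => wf_of_chk h mem_nil (mem_cons (L476 D T h) mem_nil) cw2071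
theorem W2072 : WFK w2072 := fun D T h => wf_of_chk h mem_nil (mem_cons (L32 D T h) mem_nil) cw2072
theorem W2073 : WFK w2073 := fun D T h => wf_of_chk h mem_nil (mem_cons (L296 D T h) mem_nil) cw2073
theorem W2074 : WFK w2074 := fun D T h => wf_of_chk h mem_nil (mem_cons (L297 D T h) mem_nil) cw2074
theorem W2075 : WFK w2075 := fun D T h => wf_of_chk h mem_nil (mem_cons (L240 D T h) mem_nil) cw2075
theorem W2076 : WFK w2076 := fun D T h => wf_of_chk h mem_nil (mem_cons (L297 D T h) mem_nil) cw2076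
theorem W2077 : WFK w2077 := fun D T h => wf_of_chk h mem_nil (mem_cons (L240 D T h) mem_nil) cw2077
theorem W2078 : WFK w2078 := fun D T h => wf_of_chk h mem_nil (mem_cons (L46 D T h) mem_nil) cw2078
theorem L477 : LFK l477 := fun D T h => lf_of_chk h (mem_cons (W747 D T h) (mem_cons (W56 D T h) (mem_cons (W16 D T h) (mem_cons (W12 D T h) (mem_cons (W2072 D T h) (mem_cons (W2073 D T h) (mem_cons (W432 D T h) (mem_cons (W2074 D T h) (mem_cons (W1051 D T h) (mem_cons (W1535 D T h) (mem_cons (W1143 D T h) (mem_cons (W2075 D T h) (mem_cons (W2076 D T h) (mem_cons (W293 D T h) (mem_cons (W1530 D T h) (mem_cons (W301 D T h) (mem_cons (W2077 D T h) (mem_cons (W2078 D T h) mem_nil)))))))))))))))))) cl477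
theorem W2079 : WFK w2079 := fun D T h => wf_of_chk h mem_nil (mem_cons (L477 D T h) mem_nil) cw2079
theorem W2080 : WFK w2080 := fun D T h => wf_of_chk h (mem_cons (W16 D T h) (mem_cons (W2063 D T h) mem_nil)) mem_nil cw2080
theorem L478 : LFK l478 := fun D T h => lf_of_chk h mem_nil cl478
theorem W2081 : WFK w2081 := fun D T h => wf_of_chk h mem_nil (mem_cons (L478 D T h) mem_nil) cw2081
theorem L479 : LFK l479 := fun D T h => lf_of_chk h mem_nil cl479
theorem W2082 : WFK w2082 := fun D T h => wf_of_chk h mem_nil (mem_cons (L479 D T h) mem_nil) cw2082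
theorem L480 : LFK l480 := fun D T h => lf_of_chk h mem_nil cl480
theorem W2083 : WFK w2083 := fun D T h => wf_of_chk h mem_nil (mem_cons (L480 D T h) mem_nil) cw2083
theorem W2084 : WFK w2084 := fun D T h => wf_of_chk h mem_nil (mem_cons (L480 D T h) mem_nil) cw2084
theorem W2085 : WFK w2085 := fun D T h => wf_of_chk h mem_nil mem_nil cw2085
theorem W2086 : WFK w2086 := fun D T h => wf_of_chk h mem_nil (mem_cons (L28 D T h) mem_nil) cw2086
theorem W2087 : WFK w2087 := fun D T h => wf_of_chk h mem_nil (mem_cons (L8 D T h) mem_nil) cw2087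
theorem W2088 : WFK w2088 := fun D T h => wf_of_chk h mem_nil mem_nil cw2088
theorem L481 : LFK l481 := fun D T h => lf_of_chk h (mem_cons (W201 D T h) (mem_cons (W161 D T h) (mem_cons (W1637 D T h) (mem_cons (W1000 D T h) (mem_cons (W2086 D T h) (mem_cons (W86 D T h) (mem_cons (W3 D T h) (mem_cons (W954 D T h) (mem_cons (W2087 D T h) (mem_cons (W2088 D T h) (mem_cons (W2081 D T h) (mem_cons (W2082 D T h) (mem_cons (W1797 D T h) (mem_cons (W950 D T h) (mem_cons (W2083 D T h) (mem_cons (W2084 D T h) (mem_cons (W2085 D T h) mem_nil))))))))))))))))) cl481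

end Pool.Agent.W319.GCI.K5
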