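import Pool.Agent.W319.GCI.K5A9
set_option autoImplicit false
set_option maxRecDepth 100000
set_option linter.all false
namespace Pool.Agent.W319.GCI.K5
open Pool.Agent.W319.GCI

theorem W12769 : WFK w12769 := fun D T h => wf_of_chk h mem_nil (mem_cons (L2949 D T h) mem_nil) cw12769
theorem W12770 : WFK w12770 := fun D T h => wf_of_chk h (mem_cons (W7178 D T h) (mem_cons (W16 D T h) mem_nil)) mem_nil cw12770
theorem W12771 : WFK w12771 := fun D T h => wf_of_chk h mem_nil (mem_cons (L2221 D T h) mem_nil) cw12771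
theorem W12772 : WFK w12772 := fun D T h => wf_of_chk h (mem_cons (W34 D T h) (mem_cons (W16 D T h) mem_nil)) mem_nil cw12772
theorem W12773 : WFK w12773 := fun D T h => wf_of_chk h (mem_cons (W16 D T h) (mem_cons (W12772 D T h) mem_nil)) mem_nil cw12773
theorem L2956 : LFK l2956 := fun D T h => lf_of_chk h (mem_cons (W6714 D T h) (mem_cons (W3619 D T h) (mem_cons (W2015 D T h) (mem_cons (W710 D T h) (mem_cons (W39 D T h) (mem_cons (W1929 D T h) (mem_cons (W7110 D T h) (mem_cons (W112 D T h) (mem_cons (W1326 D T h) (mem_cons (W1555 D T h) (mem_cons (W10769 D T h) (mem_cons (W6797 D T h) (mem_cons (W8247 D T h) (mem_cons (W12631 D T h) (mem_cons (W2729 D T h) (mem_cons (W153 D T h) (mem_cons (W2732 D T h) (mem_cons (W12514 D T h) mem_nil)))))))))))))))))) cl2956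
theorem W12774 : WFK w12774 := fun D T h => wf_of_chk h mem_nil (mem_cons (L2956 D T h) mem_nil) cw12774
theorem W12775 : WFK w12775 := fun D T h => wf_of_chk h (mem_cons (W710 D T h) (mem_cons (W12196 D T h) mem_nil)) mem_nil cw12775
theorem W12776 : WFK w12776 := fun D T h => wf_of_chk h (mem_cons (W710 D T h) (mem_cons (W12196 D T h) mem_nil)) mem_nil cw12776
theorem W12777 : WFK w12777 := fun D T h => wf_of_chk h (mem_cons (W126 D T h) (mem_cons (W12196 D T h) mem_nil)) mem_nil cw12777
theorem W12778 : WFK w12778 := fun D T h => wf_of_chk h (mem_cons (W2914 D T h) (mem_cons (W12772 D T h) mem_nil)) mem_nil cw12778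
theorem W12779 : WFK w12779 := fun D T h => wf_of_chk h (mem_cons (W667 D T h) (mem_cons (W12772 D T h) mem_nil)) mem_nil cw12779
theorem W12780 : WFK w12780 := fun D T h => wf_of_chk h (mem_cons (W669 D T h) (mem_cons (W12772 D T h) mem_nil)) mem_nil cw12780
theorem W12781 : WFK w12781 := fun D T h => wf_of_chk h (mem_cons (W50 D T h) (mem_cons (W12772 D T h) mem_nil)) mem_nil cw12781
theorem W12782 : WFK w12782 := fun D T h => wf_of_chk h mem_nil (mem_cons (L261 D T h) mem_nil) cw12782
theorem W12783 : WFK w12783 := fun D T h => wf_of_chk h mem_nil (mem_cons (L261 D T h) mem_nil) cw12783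
theorem W12784 : WFK w12784 := fun D T h => wf_of_chk h mem_nil (mem_cons (L479 D T h) mem_nil) cw12784
theorem L2957 : LFK l2957 := fun D T h => lf_of_chk h (mem_cons (W39 D T h) (mem_cons (W831 D T h) (mem_cons (W734 D T h) (mem_cons (W9166 D T h) (mem_cons (W12784 D T h) (mem_cons (W8611 D T h) mem_nil)))))) cl2957
theorem W12785 : WFK w12785 := fun D T h => wf_of_chk h mem_nil (mem_cons (L2957 D T h) mem_nil) cw12785
theorem L2958 : LFK l2958 := fun D T h => lf_of_chk h (mem_cons (W10239 D T h) (mem_cons (W17 D T h) (mem_cons (W16 D T h) (mem_cons (W12782 D T h) (mem_cons (W2204 D T h) (mem_cons (W3779 D T h) (mem_cons (W12783 D T h) (mem_cons (W8363 D T h) (mem_cons (W39 D T h) (mem_cons (W181 D T h) (mem_cons (W12785 D T h) mem_nil))))))))))) cl2958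
theorem W12786 : WFK w12786 := fun D T h => wf_of_chk h mem_nil (mem_cons (L2958 D T h) mem_nil) cw12786
theorem W12787 : WFK w12787 := fun D T h => wf_of_chk h (mem_cons (W4859 D T h) (mem_cons (W16 D T h) mem_nil)) mem_nil cw12787
theorem W12788 : WFK w12788 := fun D T h => wf_of_chk h mem_nil (mem_cons (L2224 D T h) mem_nil) cw12788
theorem W12789 : WFK w12789 := fun D T h => wf_of_chk h (mem_cons (W69 D T h) mem_nil) mem_nil cw12789
theorem W12790 : WFK w12790 := fun D T h => wf_of_chk h (mem_cons (W12789 D T h) (mem_cons (W16 D T h) mem_nil)) mem_nil cw12790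
theorem W12791 : WFK w12791 := fun D T h => wf_of_chk h (mem_cons (W5991 D T h) (mem_cons (W16 D T h) mem_nil)) mem_nil cw12791
theorem W12792 : WFK w12792 := fun D T h => wf_of_chk h (mem_cons (W4866 D T h) (mem_cons (W16 D T h) mem_nil)) mem_nil cw12792
theorem W12793 : WFK w12793 := fun D T h => wf_of_chk h (mem_cons (W519 D T h) (mem_cons (W1184 D T h) mem_nil)) mem_nil cw12793
theorem W12794 : WFK w12794 := fun D T h => wf_of_chk h (mem_cons (W230 D T h) (mem_cons (W1184 D T h) mem_nil)) mem_nil cw12794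
theorem W12795 : WFK w12795 := fun D T h => wf_of_chk h (mem_cons (W4789 D T h) (mem_cons (W16 D T h) mem_nil)) mem_nil cw12795
theorem W12796 : WFK w12796 := fun D T h => wf_of_chk h (mem_cons (W4789 D T h) (mem_cons (W16 D T h) mem_nil)) mem_nil cw12796
theorem W12797 : WFK w12797 := fun D T h => wf_of_chk h (mem_cons (W83 D T h) (mem_cons (W1184 D T h) mem_nil)) mem_nil cw12797
theorem W12798 : WFK w12798 := fun D T h => wf_of_chk h (mem_cons (W2118 D T h) (mem_cons (W16 D T h) mem_nil)) mem_nil cw12798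
theorem L2959 : LFK l2959 := fun D T h => lf_of_chk h (mem_cons (W4838 D T h) (mem_cons (W536 D T h) (mem_cons (W4038 D T h) (mem_cons (W537 D T h) (mem_cons (W230 D T h) (mem_cons (W144 D T h) (mem_cons (W1170 D T h) (mem_cons (W4566 D T h) (mem_cons (W16 D T h) (mem_cons (W12790 D T h) (mem_cons (W12791 D T h) (mem_cons (W2015 D T h) (mem_cons (W12797 D T h) (mem_cons (W11820 D T h) (mem_cons (W2439 D T h) (mem_cons (W2037 D T h) (mem_cons (W12203 D T h) (mem_cons (W12794 D T h) (mem_cons (W12792 D T h) (mem_cons (W521 D T h) (mem_cons (W519 D T h) (mem_cons (W128 D T h) (mem_cons (W4816 D T h) (mem_cons (W12793 D T h) (mem_cons (W5952 D T h) (mem_cons (W11811 D T h) (mem_cons (W10828 D T h) (mem_cons (W12795 D T h) (mem_cons (W12796 D T h) (mem_cons (W549 D T h) (mem_cons (W7718 D T h) (mem_cons (W12798 D T h) (mem_cons (W5250 D T h) (mem_cons (W540 D T h) (mem_cons (W3031 D T h) (mem_cons (W4832 D T h) (mem_cons (W9569 D T h) (mem_cons (W4829 D T h) (mem_cons (W4830 D T h) (mem_cons (W4833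 D T h) (mem_cons (W552 D T h) (mem_cons (W4837 D T h) (mem_cons (W111 D T h) (mem_cons (W6073 D T h) mem_nil)))))))))))))))))))))))))))))))))))))))))))) cl2959
theorem W12799 : WFK w12799 := fun D T h => wf_of_chk h mem_nil (mem_cons (L2959 D T h) mem_nil) cw12799
theorem W12800 : WFK w12800 := fun D T h => wf_of_chk h (mem_cons (W3970 D T h) (mem_cons (W16 D T h) mem_nil)) mem_nil cw12800
theorem W12801 : WFK w12801 := fun D T h => wf_of_chk h (mem_cons (W3970 D T h) (mem_cons (W16 D T h) mem_nil)) mem_nil cw12801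
theorem W12802 : WFK w12802 := fun D T h => wf_of_chk h (mem_cons (W3966 D T h) (mem_cons (W16 D T h) mem_nil)) mem_nil cw12802
theorem W12803 : WFK w12803 := fun D T h => wf_of_chk h mem_nil (mem_cons (L2402 D T h) mem_nil) cw12803
theorem W12807 : WFK w12807 := fun D T h => wf_of_chk h (mem_cons (W659 D T h) mem_nil) mem_nil cw12807
theorem W12808 : WFK w12808 := fun D T h => wf_of_chk h (mem_cons (W12807 D T h) (mem_cons (W16 D T h) mem_nil)) mem_nil cw12808
theorem W12809 : WFK w12809 := fun D T h => wf_of_chk h mem_nil (mem_cons (L2407 D T h) mem_nil) cw12809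
theorem W12810 : WFK w12810 := fun D T h => wf_of_chk h (mem_cons (W1398 D T h) (mem_cons (W1184 D T h) mem_nil)) mem_nil cw12810
theorem L2960 : LFK l2960 := fun D T h => lf_of_chk h (mem_cons (W9740 D T h) (mem_cons (W10359 D T h) (mem_cons (W5721 D T h) (mem_cons (W10360 D T h) (mem_cons (W209 D T h) (mem_cons (W1170 D T h) (mem_cons (W4566 D T h) (mem_cons (W3688 D T h) (mem_cons (W16 D T h) (mem_cons (W12799 D T h) (mem_cons (W128 D T h) (mem_cons (W12800 D T h) (mem_cons (W435 D T h) (mem_cons (W12808 D T h) (mem_cons (W12809 D T h) (mem_cons (W10386 D T h) (mem_cons (W12217 D T h) (mem_cons (W669 D T h) (mem_cons (W12810 D T h) (mem_cons (W12801 D T h) (mem_cons (W12802 D T h) (mem_cons (W2015 D T h) (mem_cons (W6714 D T h) (mem_cons (W3953 D T h) (mem_cons (W10350 D T h) (mem_cons (W12803 D T h) (mem_cons (W10355 D T h) (mem_cons (W12786 D T h) (mem_cons (W12787 D T h) (mem_cons (W12788 D T h) (mem_cons (W10361 D T h) (mem_cons (W3031 D T h) mem_nil)))))))))))))))))))))))))))))))) cl2960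
theorem W12811 : WFK w12811 := fun D T h => wf_of_chk h mem_nil (mem_cons (L2960 D T h) mem_nil) cw12811
theorem W12812 : WFK w12812 := fun D T h => wf_of_chk h (mem_cons (W7848 D T h) (mem_cons (W16 D T h) mem_nil)) mem_nil cw12812
theorem W12813 : WFK w12813 := fun D T h => wf_of_chk h (mem_cons (W909 D T h) (mem_cons (W16 D T h) mem_nil)) mem_nil cw12813
theorem W12814 : WFK w12814 := fun D T h => wf_of_chk h (mem_cons (W12813 D T h) (mem_cons (W16 D T h) mem_nil)) mem_nil cw12814
theorem W12815 : WFK w12815 := fun D T h => wf_of_chk h (mem_cons (W3035 D T h) (mem_cons (W16 D T h) mem_nil)) mem_nil cw12815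
theorem W12816 : WFK w12816 := fun D T h => wf_of_chk h (mem_cons (W12815 D T h) (mem_cons (W16 D T h) mem_nil)) mem_nil cw12816
theorem W12817 : WFK w12817 := fun D T h => wf_of_chk h (mem_cons (W710 D T h) (mem_cons (W12772 D T h) mem_nil)) mem_nil cw12817
theorem W12818 : WFK w12818 := fun D T h => wf_of_chk h (mem_cons (W162 D T h) (mem_cons (W12772 D T h) mem_nil)) mem_nil cw12818
theorem W12819 : WFK w12819 := fun D T h => wf_of_chk h (mem_cons (W8195 D T h) (mem_cons (W1063 D T h) mem_nil)) mem_nil cw12819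
theorem W12820 : WFK w12820 := fun D T h => wf_of_chk h (mem_cons (W368 D T h) (mem_cons (W16 D T h) mem_nil)) mem_nil cw12820
theorem W12821 : WFK w12821 := fun D T h => wf_of_chk h (mem_cons (W12820 D T h) (mem_cons (W1063 D T h) mem_nil)) mem_nil cw12821
theorem W12822 : WFK w12822 := fun D T h => wf_of_chk h (mem_cons (W3843 D T h) (mem_cons (W16 D T h) mem_nil)) mem_nil cw12822
theorem W12823 : WFK w12823 := fun D T h => wf_of_chk h (mem_cons (W16 D T h) (mem_cons (W682 D T h) mem_nil)) mem_nil cw12823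
theorem W12824 : WFK w12824 := fun D T h => wf_of_chk h (mem_cons (W7114 D T h) (mem_cons (W1063 D T h) mem_nil)) mem_nil cw12824
theorem W12825 : WFK w12825 := fun D T h => wf_of_chk h (mem_cons (W155 D T h) mem_nil) mem_nil cw12825
theorem L2961 : LFK l2961 := fun D T h => lf_of_chk h (mem_cons (W4531 D T h) (mem_cons (W1929 D T h) (mem_cons (W78 D T h) (mem_cons (W69 D T h) (mem_cons (W86 D T h) (mem_cons (W93 D T h) (mem_cons (W4566 D T h) (mem_cons (W1206 D T h) (mem_cons (W85 D T h) (mem_cons (W105 D T h) (mem_cons (W6725 D T h) (mem_cons (W33 D T h) (mem_cons (W4260 D T h) (mem_cons (W1584 D T h) (mem_cons (W8230 D T h) (mem_cons (W10913 D T h) (mem_cons (W1202 D T h) (mem_cons (W1572 D T h) (mem_cons (W8244 D T h) (mem_cons (W1204 D T h) (mem_cons (W1170 D T h) (mem_cons (W267 D T h) (mem_cons (W721 D T h) (mem_cons (W114 D T h) (mem_cons (W2570 D T h) (mem_cons (W1571 D T h) mem_nil)))))))))))))))))))))))))) cl2961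
theorem W12826 : WFK w12826 := fun D T h => wf_of_chk h mem_nil (mem_cons (L2961 D T h) mem_nil) cw12826
theorem L2962 : LFK l2962 := fun D T h => lf_of_chk h (mem_cons (W1166 D T h) (mem_cons (W7114 D T h) (mem_cons (W69 D T h) (mem_cons (W1 D T h) (mem_cons (W155 D T h) (mem_cons (W93 D T h) (mem_cons (W83 D T h) (mem_cons (W4566 D T h) (mem_cons (W3565 D T h) (mem_cons (W3688 D T h) (mem_cons (W80 D T h) (mem_cons (W91 D T h) (mem_cons (W12826 D T h) (mem_cons (W521 D T h) (mem_cons (W2526 D T h) (mem_cons (W8105 D T h) (mem_cons (W4259 D T h) (mem_cons (W2404 D T h) (mem_cons (W12825 D T h) (mem_cons (W2717 D T h) (mem_cons (W111 D T h) (mem_cons (W370 D T h) (mem_cons (W2720 D T h) mem_nil))))))))))))))))))))))) cl2962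
theorem W12827 : WFK w12827 := fun D T h => wf_of_chk h mem_nil (mem_cons (L2962 D T h) mem_nil) cw12827
theorem W12828 : WFK w12828 := fun D T h => wf_of_chk h (mem_cons (W12827 D T h) (mem_cons (W16 D T h) mem_nil)) mem_nil cw12828
theorem W12829 : WFK w12829 := fun D T h => wf_of_chk h (mem_cons (W164 D T h) (mem_cons (W2272 D T h) mem_nil)) mem_nil cw12829
theorem W12830 : WFK w12830 := fun D T h => wf_of_chk h (mem_cons (W162 D T h) (mem_cons (W2272 D T h) mem_nil)) mem_nil cw12830
theorem W12831 : WFK w12831 := fun D T h => wf_of_chk h (mem_cons (W2272 D T h) mem_nil) mem_nil cw12831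
theorem L2963 : LFK l2963 := fun D T h => lf_of_chk h (mem_cons (W5177 D T h) (mem_cons (W12823 D T h) (mem_cons (W1188 D T h) (mem_cons (W2272 D T h) (mem_cons (W17 D T h) (mem_cons (W682 D T h) (mem_cons (W460 D T h) (mem_cons (W462 D T h) (mem_cons (W2347 D T h) (mem_cons (W1931 D T h) (mem_cons (W3843 D T h) (mem_cons (W434 D T h) (mem_cons (W5742 D T h) (mem_cons (W435 D T h) (mem_cons (W1311 D T h) (mem_cons (W3880 D T h) (mem_cons (W495 D T h) (mem_cons (W12121 D T h) (mem_cons (W12633 D T h) mem_nil))))))))))))))))))) cl2963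
theorem W12832 : WFK w12832 := fun D T h => wf_of_chk h mem_nil (mem_cons (L2963 D T h) mem_nil) cw12832
theorem W12833 : WFK w12833 := fun D T h => wf_of_chk h mem_nil (mem_cons (L2963 D T h) mem_nil) cw12833
theorem W12834 : WFK w12834 := fun D T h => wf_of_chk h mem_nil (mem_cons (L2963 D T h) mem_nil) cw12834
theorem L2964 : LFK l2964 := fun D T h => lf_of_chk h (mem_cons (W12773 D T h) (mem_cons (W7856 D T h) (mem_cons (W12823 D T h) (mem_cons (W1188 D T h) (mem_cons (W2272 D T h) (mem_cons (W16 D T h) (mem_cons (W7632 D T h) (mem_cons (W682 D T h) (mem_cons (W11146 D T h) (mem_cons (W12196 D T h) (mem_cons (W12774 D T h) (mem_cons (W12775 D T h) (mem_cons (W12776 D T h) (mem_cons (W2015 D T h) (mem_cons (W12817 D T h) (mem_cons (W12818 D T h) (mem_cons (W12203 D T h) (mem_cons (W2037 D T h) (mem_cons (W12777 D T h) (mem_cons (W4209 D T h) (mem_cons (W128 D T h) (mem_cons (W9771 D T h) (mem_cons (W12778 D T h) (mem_cons (W12779 D T h) (mem_cons (W12780 D T h) (mem_cons (W10973 D T h) (mem_cons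 (W12781 D T h) (mem_cons (W10828 D T h) (mem_cons (W12811 D T h) (mem_cons (W12812 D T h) (mem_cons (W11864 D T h) (mem_cons (W3830 D T h) (mem_cons (W12814 D T h) (mem_cons (W12816 D T h) (mem_cons (W3750 D T h) (mem_cons (W369 D T h) (mem_cons (W10070 D T h) (mem_cons (W6428 D T h) (mem_cons (W12819 D T h) (mem_cons (W9763 D T h) (mem_cons (W9764 D T h) (mem_cons (W11894 D T h) (mem_cons (W6925 D T h) (mem_cons (W12821 D T h) (mem_cons (W10383 D T h) (mem_cons (W12822 D T h) (mem_cons (W12824 D T h) (mem_cons (W12828 D T h) (mem_cons (W6714 D T h) (mem_cons (W3953 D T h) (mem_cons (W12829 D T h) (mem_cons (W12830 D T h) (mem_cons (W5177 D T h) (mem_cons (W12831 D T h) (mem_cons (W12832 D T h) (mem_cons (W12833 D T h) (mem_cons (W12217 D T h) (mem_cons (W669 D T h) (mem_cons (W12834 D T h) mem_nil))))))))))))))))))))))))))))))))))))))))))))))))))))))))))) cl2964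
theorem W12835 : WFK w12835 := fun D T h => wf_of_chk h mem_nil (mem_cons (L2964 D T h) mem_nil) cw12835
theorem W12836 : WFK w12836 := fun D T h => wf_of_chk h (mem_cons (W8150 D T h) (mem_cons (W16 D T h) mem_nil)) mem_nil cw12836
theorem W12837 : WFK w12837 := fun D T h => wf_of_chk h (mem_cons (W8150 D T h) (mem_cons (W16 D T h) mem_nil)) mem_nil cw12837
theorem W12838 : WFK w12838 := fun D T h => wf_of_chk h (mem_cons (W461 D T h) (mem_cons (W37 D T h) mem_nil)) mem_nil cw12838
theorem W12839 : WFK w12839 := fun D T h => wf_of_chk h mem_nil (mem_cons (L552 D T h) mem_nil) cw12839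
theorem W12840 : WFK w12840 := fun D T h => wf_of_chk h mem_nil (mem_cons (L1678 D T h) mem_nil) cw12840
theorem W12841 : WFK w12841 := fun D T h => wf_of_chk h (mem_cons (W12840 D T h) (mem_cons (W37 D T h) mem_nil)) mem_nil cw12841
theorem W12842 : WFK w12842 := fun D T h => wf_of_chk h mem_nil (mem_cons (L338 D T h) mem_nil) cw12842
theorem L2965 : LFK l2965 := fun D T h => lf_of_chk h (mem_cons (W798 D T h) (mem_cons (W2879 D T h) (mem_cons (W154 D T h) (mem_cons (W802 D T h) (mem_cons (W141 D T h) (mem_cons (W795 D T h) (mem_cons (W3566 D T h) (mem_cons (W1143 D T h) (mem_cons (W3855 D T h) (mem_cons (W922 D T h) (mem_cons (W3858 D T h) (mem_cons (W2883 D T h) (mem_cons (W6861 D T h) (mem_cons (W1707 D T h) mem_nil)))))))))))))) cl2965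
theorem W12843 : WFK w12843 := fun D T h => wf_of_chk h mem_nil (mem_cons (L2965 D T h) mem_nil) cw12843
theorem L2966 : LFK l2966 := fun D T h => lf_of_chk h (mem_cons (W925 D T h) (mem_cons (W42 D T h) (mem_cons (W162 D T h) (mem_cons (W461 D T h) (mem_cons (W921 D T h) (mem_cons (W12168 D T h) (mem_cons (W154 D T h) (mem_cons (W3808 D T h) (mem_cons (W12842 D T h) (mem_cons (W3193 D T h) (mem_cons (W4572 D T h) (mem_cons (W281 D T h) (mem_cons (W12843 D T h) (mem_cons (W5698 D T h) (mem_cons (W10344 D T h) (mem_cons (W9595 D T h) (mem_cons (W259 D T h) (mem_cons (W7959 D T h) mem_nil)))))))))))))))))) cl2966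
theorem W12844 : WFK w12844 := fun D T h => wf_of_chk h mem_nil (mem_cons (L2966 D T h) mem_nil) cw12844
theorem W12845 : WFK w12845 := fun D T h => wf_of_chk h (mem_cons (W12844 D T h) (mem_cons (W16 D T h) mem_nil)) mem_nil cw12845
theorem L2967 : LFK l2967 := fun D T h => lf_of_chk h (mem_cons (W929 D T h) (mem_cons (W42 D T h) (mem_cons (W16 D T h) (mem_cons (W461 D T h) (mem_cons (W921 D T h) (mem_cons (W12168 D T h) (mem_cons (W15 D T h) (mem_cons (W909 D T h) (mem_cons (W6372 D T h) (mem_cons (W1924 D T h) (mem_cons (W4025 D T h) (mem_cons (W3766 D T h) (mem_cons (W10971 D T h) (mem_cons (W6716 D T h) (mem_cons (W3276 D T h) (mem_cons (W9595 D T h) (mem_cons (W1690 D T h) (mem_cons (W259 D T h) mem_nil)))))))))))))))))) cl2967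
theorem W12846 : WFK w12846 := fun D T h => wf_of_chk h mem_nil (mem_cons (L2967 D T h) mem_nil) cw12846
theorem W12847 : WFK w12847 := fun D T h => wf_of_chk h (mem_cons (W12846 D T h) (mem_cons (W16 D T h) mem_nil)) mem_nil cw12847
theorem W12848 : WFK w12848 := fun D T h => wf_of_chk h (mem_cons (W933 D T h) mem_nil) mem_nil cw12848
theorem L2968 : LFK l2968 := fun D T h => lf_of_chk h (mem_cons (W5177 D T h) (mem_cons (W3511 D T h) (mem_cons (W933 D T h) (mem_cons (W17 D T h) (mem_cons (W37 D T h) (mem_cons (W460 D T h) (mem_cons (W462 D T h) (mem_cons (W6108 D T h) (mem_cons (W434 D T h) (mem_cons (W5742 D T h) (mem_cons (W435 D T h) (mem_cons (W1311 D T h) (mem_cons (W934 D T h) (mem_cons (W495 D T h) (mem_cons (W12121 D T h) (mem_cons (W12633 D T h) mem_nil)))))))))))))))) cl2968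
theorem W12849 : WFK w12849 := fun D T h => wf_of_chk h mem_nil (mem_cons (L2968 D T h) mem_nil) cw12849
theorem W12850 : WFK w12850 := fun D T h => wf_of_chk h mem_nil (mem_cons (L2968 D T h) mem_nil) cw12850
theorem L2969 : LFK l2969 := fun D T h => lf_of_chk h (mem_cons (W12712 D T h) (mem_cons (W9609 D T h) (mem_cons (W3511 D T h) (mem_cons (W933 D T h) (mem_cons (W37 D T h) (mem_cons (W11146 D T h) (mem_cons (W12196 D T h) (mem_cons (W8278 D T h) (mem_cons (W12771 D T h) (mem_cons (W1291 D T h) (mem_cons (W2888 D T h) (mem_cons (W12845 D T h) (mem_cons (W12847 D T h) (mem_cons (W9025 D T h) (mem_cons (W12835 D T h) (mem_cons (W12836 D T h) (mem_cons (W3896 D T h) (mem_cons (W12837 D T h) (mem_cons (W12713 D T h) (mem_cons (W12714 D T h) (mem_cons (W10973 D T h) (mem_cons (W12715 D T h) (mem_cons (W12716 D T h) (mem_cons (W12717 D T h) (mem_cons (W12718 D T h) (mem_cons (W12719 D T h) (mem_cons (W8476 D T h) (mem_cons (W9761 D T h) (mem_cons (W12720 D T h) (mem_cons (W12735 D T h) (mem_cons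 (W9740 D T h) (mem_cons (W12767 D T h) (mem_cons (W12768 D T h) (mem_cons (W12769 D T h) (mem_cons (W12770 D T h) (mem_cons (W12838 D T h) (mem_cons (W2015 D T h) (mem_cons (W6714 D T h) (mem_cons (W3953 D T h) (mem_cons (W12839 D T h) (mem_cons (W12841 D T h) (mem_cons (W5177 D T h) (mem_cons (W12848 D T h) (mem_cons (W12849 D T h) (mem_cons (W12217 D T h) (mem_cons (W669 D T h) (mem_cons (W12850 D T h) mem_nil))))))))))))))))))))))))))))))))))))))))))))))) cl2969
theorem W12851 : WFK w12851 := fun D T h => wf_of_chk h mem_nil (mem_cons (L2969 D T h) mem_nil) cw12851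
theorem W12852 : WFK w12852 := fun D T h => wf_of_chk h (mem_cons (W162 D T h) (mem_cons (W16 D T h) mem_nil)) mem_nil cw12852
theorem W12853 : WFK w12853 := fun D T h => wf_of_chk h (mem_cons (W1304 D T h) mem_nil) mem_nil cw12853
theorem W12854 : WFK w12854 := fun D T h => wf_of_chk h (mem_cons (W651 D T h) mem_nil) mem_nil cw12854
theorem L2970 : LFK l2970 := fun D T h => lf_of_chk h (mem_cons (W4531 D T h) (mem_cons (W1501 D T h) (mem_cons (W3797 D T h) (mem_cons (W85 D T h) (mem_cons (W5071 D T h) (mem_cons (W69 D T h) (mem_cons (W2015 D T h) (mem_cons (W12853 D T h) (mem_cons (W12854 D T h) (mem_cons (W1170 D T h) (mem_cons (W1204 D T h) (mem_cons (W721 D T h) (mem_cons (W267 D T h) (mem_cons (W114 D T h) (mem_cons (W8248 D T h) (mem_cons (W8249 D T h) (mem_cons (W78 D T h) (mem_cons (W105 D T h) (mem_cons (W6725 D T h) (mem_cons (W33 D T h) (mem_cons (W5450 D T h) (mem_cons (W4260 D T h) (mem_cons (W573 D T h) (mem_cons (W5943 D T h) (mem_cons (W1202 D T h) (mem_cons (W86 D T h) (mem_cons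 (W1206 D T h) mem_nil))))))))))))))))))))))))))) cl2970
theorem W12855 : WFK w12855 := fun D T h => wf_of_chk h mem_nil (mem_cons (L2970 D T h) mem_nil) cw12855
theorem W12856 : WFK w12856 := fun D T h => wf_of_chk h (mem_cons (W2753 D T h) mem_nil) mem_nil cw12856
theorem W12857 : WFK w12857 := fun D T h => wf_of_chk h mem_nil mem_nil cw12857
theorem W12858 : WFK w12858 := fun D T h => wf_of_chk h (mem_cons (W12857 D T h) mem_nil) mem_nil cw12858
theorem L2971 : LFK l2971 := fun D T h => lf_of_chk h (mem_cons (W932 D T h) (mem_cons (W1352 D T h) (mem_cons (W3688 D T h) (mem_cons (W3781 D T h) (mem_cons (W69 D T h) (mem_cons (W1 D T h) (mem_cons (W2015 D T h) (mem_cons (W12853 D T h) (mem_cons (W1631 D T h) (mem_cons (W1636 D T h) (mem_cons (W721 D T h) (mem_cons (W114 D T h) (mem_cons (W267 D T h) (mem_cons (W8073 D T h) (mem_cons (W33 D T h) (mem_cons (W12858 D T h) (mem_cons (W7 D T h) (mem_cons (W1355 D T h) (mem_cons (W1588 D T h) (mem_cons (W572 D T h) (mem_cons (W2527 D T h) (mem_cons (W86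 D T h) (mem_cons (W1412 D T h) mem_nil))))))))))))))))))))))) cl2971
theorem W12859 : WFK w12859 := fun D T h => wf_of_chk h mem_nil (mem_cons (L2971 D T h) mem_nil) cw12859
theorem W12860 : WFK w12860 := fun D T h => wf_of_chk h mem_nil (mem_cons (L2971 D T h) mem_nil) cw12860
theorem W12861 : WFK w12861 := fun D T h => wf_of_chk h (mem_cons (W220 D T h) (mem_cons (W2015 D T h) mem_nil)) mem_nil cw12861
theorem W12862 : WFK w12862 := fun D T h => wf_of_chk h mem_nil (mem_cons (L2971 D T h) mem_nil) cw12862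
theorem W12863 : WFK w12863 := fun D T h => wf_of_chk h (mem_cons (W12857 D T h) (mem_cons (W16 D T h) mem_nil)) mem_nil cw12863
theorem W12864 : WFK w12864 := fun D T h => wf_of_chk h (mem_cons (W12857 D T h) (mem_cons (W16 D T h) mem_nil)) mem_nil cw12864
theorem W12865 : WFK w12865 := fun D T h => wf_of_chk h (mem_cons (W8513 D T h) mem_nil) mem_nil cw12865
theorem W12866 : WFK w12866 := fun D T h => wf_of_chk h (mem_cons (W162 D T h) (mem_cons (W2015 D T h) mem_nil)) mem_nil cw12866
theorem W12867 : WFK w12867 := fun D T h => wf_of_chk h mem_nil (mem_cons (L653 D T h) mem_nil) cw12867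
theorem W12868 : WFK w12868 := fun D T h => wf_of_chk h (mem_cons (W581 D T h) (mem_cons (W16 D T h) mem_nil)) mem_nil cw12868
theorem L2972 : LFK l2972 := fun D T h => lf_of_chk h (mem_cons (W5567 D T h) (mem_cons (W11850 D T h) (mem_cons (W12329 D T h) (mem_cons (W8944 D T h) (mem_cons (W179 D T h) (mem_cons (W5071 D T h) (mem_cons (W12168 D T h) (mem_cons (W2015 D T h) (mem_cons (W16 D T h) (mem_cons (W12855 D T h) (mem_cons (W12865 D T h) (mem_cons (W2037 D T h) (mem_cons (W12203 D T h) (mem_cons (W12866 D T h) (mem_cons (W8249 D T h) (mem_cons (W932 D T h) (mem_cons (W12856 D T h) (mem_cons (W12859 D T h) (mem_cons (W12860 D T h) (mem_cons (W12861 D T h) (mem_cons (W128 D T h) (mem_cons (W12862 D T h) (mem_cons (W12857 D T h) (mem_cons (W12863 D T h) (mem_cons (W7719 D T h) (mem_cons (W12864 D T h) (mem_cons (W5072 D T h) (mem_cons (W178 D T h) (mem_cons (W10372 D T h) (mem_cons (W9735 D T h) (mem_cons (W8231 D T h) (mem_cons (W12867 D T h) (mem_cons (W12868 D T h) mem_nil)))))))))))))))))))))))))))))))))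 cl2972
theorem W12869 : WFK w12869 := fun D T h => wf_of_chk h mem_nil (mem_cons (L2972 D T h) mem_nil) cw12869
theorem L2973 : LFK l2973 := fun D T h => lf_of_chk h (mem_cons (W669 D T h) (mem_cons (W12329 D T h) (mem_cons (W2914 D T h) (mem_cons (W15 D T h) (mem_cons (W220 D T h) (mem_cons (W209 D T h) (mem_cons (W6977 D T h) (mem_cons (W2912 D T h) (mem_cons (W4531 D T h) (mem_cons (W12634 D T h) (mem_cons (W2828 D T h) (mem_cons (W7401 D T h) (mem_cons (W3958 D T h) (mem_cons (W434 D T h) (mem_cons (W12869 D T h) (mem_cons (W8829 D T h) (mem_cons (W11522 D T h) (mem_cons (W164 D T h) (mem_cons (W12279 D T h) mem_nil))))))))))))))))))) cl2973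
theorem W12870 : WFK w12870 := fun D T h => wf_of_chk h mem_nil (mem_cons (L2973 D T h) mem_nil) cw12870
theorem W12871 : WFK w12871 := fun D T h => wf_of_chk h (mem_cons (W1066 D T h) (mem_cons (W16 D T h) mem_nil)) mem_nil cw12871
theorem W12872 : WFK w12872 := fun D T h => wf_of_chk h mem_nil (mem_cons (L1170 D T h) mem_nil) cw12872
theorem W12873 : WFK w12873 := fun D T h => wf_of_chk h mem_nil (mem_cons (L1688 D T h) mem_nil) cw12873
theorem W12874 : WFK w12874 := fun D T h => wf_of_chk h (mem_cons (W16 D T h) mem_nil) mem_nil cw12874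
theorem W12875 : WFK w12875 := fun D T h => wf_of_chk h (mem_cons (W257 D T h) (mem_cons (W16 D T h) mem_nil)) mem_nil cw12875
theorem W12876 : WFK w12876 := fun D T h => wf_of_chk h (mem_cons (W748 D T h) (mem_cons (W16 D T h) mem_nil)) mem_nil cw12876
theorem W12877 : WFK w12877 := fun D T h => wf_of_chk h (mem_cons (W1326 D T h) (mem_cons (W16 D T h) mem_nil)) mem_nil cw12877
theorem W12878 : WFK w12878 := fun D T h => wf_of_chk h mem_nil (mem_cons (L188 D T h) mem_nil) cw12878
theorem W12879 : WFK w12879 := fun D T h => wf_of_chk h mem_nil (mem_cons (L1688 D T h) mem_nil) cw12879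
theorem L2974 : LFK l2974 := fun D T h => lf_of_chk h (mem_cons (W5159 D T h) (mem_cons (W1 D T h) (mem_cons (W5 D T h) (mem_cons (W11 D T h) (mem_cons (W1748 D T h) (mem_cons (W137 D T h) (mem_cons (W27 D T h) (mem_cons (W5510 D T h) (mem_cons (W861 D T h) (mem_cons (W1944 D T h) mem_nil)))))))))) cl2974
theorem W12880 : WFK w12880 := fun D T h => wf_of_chk h mem_nil (mem_cons (L2974 D T h) mem_nil) cw12880
theorem W12881 : WFK w12881 := fun D T h => wf_of_chk h mem_nil (mem_cons (L2359 D T h) mem_nil) cw12881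
theorem W12882 : WFK w12882 := fun D T h => wf_of_chk h mem_nil (mem_cons (L2338 D T h) mem_nil) cw12882
theorem W12883 : WFK w12883 := fun D T h => wf_of_chk h (mem_cons (W1326 D T h) mem_nil) mem_nil cw12883
theorem W12884 : WFK w12884 := fun D T h => wf_of_chk h (mem_cons (W368 D T h) mem_nil) mem_nil cw12884
theorem W12885 : WFK w12885 := fun D T h => wf_of_chk h mem_nil (mem_cons (L1253 D T h) mem_nil) cw12885
theorem W12886 : WFK w12886 := fun D T h => wf_of_chk h mem_nil mem_nil cw12886
theorem W12887 : WFK w12887 := fun D T h => wf_of_chk h mem_nil (mem_cons (L1964 D T h) mem_nil) cw12887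
theorem W12888 : WFK w12888 := fun D T h => wf_of_chk h mem_nil (mem_cons (L860 D T h) mem_nil) cw12888
theorem W12889 : WFK w12889 := fun D T h => wf_of_chk h (mem_cons (W2690 D T h) mem_nil) mem_nil cw12889
theorem W12890 : WFK w12890 := fun D T h => wf_of_chk h mem_nil (mem_cons (L1260 D T h) mem_nil) cw12890
theorem W12891 : WFK w12891 := fun D T h => wf_of_chk h mem_nil (mem_cons (L2904 D T h) mem_nil) cw12891
theorem W12892 : WFK w12892 := fun D T h => wf_of_chk h mem_nil (mem_cons (L188 D T h) mem_nil) cw12892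
theorem L2975 : LFK l2975 := fun D T h => lf_of_chk h (mem_cons (W12878 D T h) (mem_cons (W12879 D T h) (mem_cons (W12880 D T h) (mem_cons (W12881 D T h) (mem_cons (W12882 D T h) (mem_cons (W1 D T h) (mem_cons (W69 D T h) (mem_cons (W12883 D T h) (mem_cons (W901 D T h) (mem_cons (W3019 D T h) (mem_cons (W3582 D T h) (mem_cons (W12885 D T h) (mem_cons (W12886 D T h) (mem_cons (W853 D T h) (mem_cons (W4036 D T h) (mem_cons (W6204 D T h) (mem_cons (W12887 D T h) (mem_cons (W12888 D T h) (mem_cons (W12889 D T h) (mem_cons (W379 D T h) (mem_cons (W12884 D T h) (mem_cons (W10099 D T h) (mem_cons (W12890 D T h) (mem_cons (W12891 D T h) (mem_cons (W12892 D T h) mem_nil))))))))))))))))))))))))) cl2975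
theorem W12893 : WFK w12893 := fun D T h => wf_of_chk h mem_nil (mem_cons (L2975 D T h) mem_nil) cw12893
theorem W12894 : WFK w12894 := fun D T h => wf_of_chk h (mem_cons (W648 D T h) (mem_cons (W16 D T h) mem_nil)) mem_nil cw12894
theorem W12895 : WFK w12895 := fun D T h => wf_of_chk h (mem_cons (W2690 D T h) (mem_cons (W16 D T h) mem_nil)) mem_nil cw12895
theorem W12896 : WFK w12896 := fun D T h => wf_of_chk h (mem_cons (W1616 D T h) (mem_cons (W16 D T h) mem_nil)) mem_nil cw12896
theorem W12897 : WFK w12897 := fun D T h => wf_of_chk h (mem_cons (W2433 D T h) (mem_cons (W16 D T h) mem_nil)) mem_nil cw12897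
theorem L2976 : LFK l2976 := fun D T h => lf_of_chk h (mem_cons (W12872 D T h) (mem_cons (W2254 D T h) (mem_cons (W6754 D T h) (mem_cons (W901 D T h) (mem_cons (W581 D T h) (mem_cons (W16 D T h) (mem_cons (W11772 D T h) (mem_cons (W7311 D T h) (mem_cons (W7570 D T h) (mem_cons (W12893 D T h) (mem_cons (W5279 D T h) (mem_cons (W2015 D T h) (mem_cons (W6714 D T h) (mem_cons (W12887 D T h) (mem_cons (W12894 D T h) (mem_cons (W12895 D T h) (mem_cons (W12877 D T h) (mem_cons (W5721 D T h) (mem_cons (W12820 D T h) (mem_cons (W3766 D T h) (mem_cons (W12896 D T h) (mem_cons (W12543 D T h) (mem_cons (W12897 D T h) (mem_cons (W12873 D T h) (mem_cons (W12874 D T h) (mem_cons (W12875 D T h) (mem_cons (W2405 D T h) (mem_cons (W12876 D T h) (mem_cons (W12634 D T h) mem_nil))))))))))))))))))))))))))))) cl2976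
theorem W12898 : WFK w12898 := fun D T h => wf_of_chk h mem_nil (mem_cons (L2976 D T h) mem_nil) cw12898
theorem W12899 : WFK w12899 := fun D T h => wf_of_chk h (mem_cons (W1139 D T h) (mem_cons (W16 D T h) mem_nil)) mem_nil cw12899
theorem W12900 : WFK w12900 := fun D T h => wf_of_chk h mem_nil (mem_cons (L2227 D T h) mem_nil) cw12900
theorem W12901 : WFK w12901 := fun D T h => wf_of_chk h mem_nil (mem_cons (L668 D T h) mem_nil) cw12901
theorem W12902 : WFK w12902 := fun D T h => wf_of_chk h (mem_cons (W257 D T h) (mem_cons (W16 D T h) mem_nil)) mem_nil cw12902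
theorem W12903 : WFK w12903 := fun D T h => wf_of_chk h (mem_cons (W748 D T h) (mem_cons (W16 D T h) mem_nil)) mem_nil cw12903
theorem W12904 : WFK w12904 := fun D T h => wf_of_chk h (mem_cons (W1326 D T h) (mem_cons (W16 D T h) mem_nil)) mem_nil cw12904
theorem W12905 : WFK w12905 := fun D T h => wf_of_chk h mem_nil (mem_cons (L2224 D T h) mem_nil) cw12905
theorem W12906 : WFK w12906 := fun D T h => wf_of_chk h mem_nil (mem_cons (L2227 D T h) mem_nil) cw12906
theorem L2977 : LFK l2977 := fun D T h => lf_of_chk h (mem_cons (W731 D T h) (mem_cons (W4 D T h) (mem_cons (W1748 D T h) (mem_cons (W5606 D T h) mem_nil)))) cl2977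
theorem W12907 : WFK w12907 := fun D T h => wf_of_chk h mem_nil (mem_cons (L2977 D T h) mem_nil) cw12907
theorem L2978 : LFK l2978 := fun D T h => lf_of_chk h (mem_cons (W8638 D T h) (mem_cons (W1 D T h) (mem_cons (W368 D T h) (mem_cons (W83 D T h) (mem_cons (W220 D T h) (mem_cons (W12907 D T h) (mem_cons (W871 D T h) (mem_cons (W1540 D T h) (mem_cons (W257 D T h) (mem_cons (W748 D T h) (mem_cons (W1326 D T h) (mem_cons (W5576 D T h) (mem_cons (W6204 D T h) (mem_cons (W5415 D T h) (mem_cons (W8633 D T h) (mem_cons (W8265 D T h) mem_nil)))))))))))))))) cl2978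
theorem W12908 : WFK w12908 := fun D T h => wf_of_chk h mem_nil (mem_cons (L2978 D T h) mem_nil) cw12908
theorem W12909 : WFK w12909 := fun D T h => wf_of_chk h mem_nil (mem_cons (L2227 D T h) mem_nil) cw12909
theorem W12910 : WFK w12910 := fun D T h => wf_of_chk h (mem_cons (W5580 D T h) (mem_cons (W16 D T h) mem_nil)) mem_nil cw12910
theorem W12911 : WFK w12911 := fun D T h => wf_of_chk h (mem_cons (W1616 D T h) (mem_cons (W16 D T h) mem_nil)) mem_nil cw12911
theorem W12912 : WFK w12912 := fun D T h => wf_of_chk h (mem_cons (W5580 D T h) (mem_cons (W16 D T h) mem_nil)) mem_nil cw12912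
theorem W12913 : WFK w12913 := fun D T h => wf_of_chk h (mem_cons (W2685 D T h) (mem_cons (W16 D T h) mem_nil)) mem_nil cw12913
theorem W12914 : WFK w12914 := fun D T h => wf_of_chk h mem_nil (mem_cons (L1458 D T h) mem_nil) cw12914
theorem W12915 : WFK w12915 := fun D T h => wf_of_chk h (mem_cons (W140 D T h) (mem_cons (W16 D T h) mem_nil)) mem_nil cw12915
theorem W12916 : WFK w12916 := fun D T h => wf_of_chk h (mem_cons (W5415 D T h) (mem_cons (W16 D T h) mem_nil)) mem_nil cw12916
theorem L2979 : LFK l2979 := fun D T h => lf_of_chk h (mem_cons (W12900 D T h) (mem_cons (W12261 D T h) (mem_cons (W8112 D T h) (mem_cons (W6754 D T h) (mem_cons (W581 D T h) (mem_cons (W1326 D T h) (mem_cons (W16 D T h) (mem_cons (W12906 D T h) (mem_cons (W7559 D T h) (mem_cons (W7311 D T h) (mem_cons (W12908 D T h) (mem_cons (W12909 D T h) (mem_cons (W3766 D T h) (mem_cons (W5721 D T h) (mem_cons (W10361 D T h) (mem_cons (W12910 D T h) (mem_cons (W12911 D T h) (mem_cons (W12543 D T h) (mem_cons (W12912 D T h) (mem_cons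 (W12904 D T h) (mem_cons (W12913 D T h) (mem_cons (W12914 D T h) (mem_cons (W2015 D T h) (mem_cons (W6714 D T h) (mem_cons (W12905 D T h) (mem_cons (W12915 D T h) (mem_cons (W12895 D T h) (mem_cons (W1449 D T h) (mem_cons (W12916 D T h) (mem_cons (W12874 D T h) (mem_cons (W12901 D T h) (mem_cons (W2405 D T h) (mem_cons (W12634 D T h) (mem_cons (W12902 D T h) (mem_cons (W12903 D T h) mem_nil))))))))))))))))))))))))))))))))))) cl2979
theorem W12917 : WFK w12917 := fun D T h => wf_of_chk h mem_nil (mem_cons (L2979 D T h) mem_nil) cw12917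
theorem W12918 : WFK w12918 := fun D T h => wf_of_chk h (mem_cons (W3766 D T h) (mem_cons (W16 D T h) mem_nil)) mem_nil cw12918
theorem W12919 : WFK w12919 := fun D T h => wf_of_chk h mem_nil (mem_cons (L860 D T h) mem_nil) cw12919
theorem L2980 : LFK l2980 := fun D T h => lf_of_chk h (mem_cons (W1448 D T h) (mem_cons (W200 D T h) (mem_cons (W42 D T h) (mem_cons (W168 D T h) (mem_cons (W390 D T h) (mem_cons (W2304 D T h) (mem_cons (W3831 D T h) (mem_cons (W8633 D T h) (mem_cons (W3763 D T h) (mem_cons (W830 D T h) (mem_cons (W10234 D T h) (mem_cons (W12888 D T h) (mem_cons (W11875 D T h) (mem_cons (W12919 D T h) mem_nil)))))))))))))) cl2980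
theorem W12920 : WFK w12920 := fun D T h => wf_of_chk h mem_nil (mem_cons (L2980 D T h) mem_nil) cw12920
theorem W12921 : WFK w12921 := fun D T h => wf_of_chk h mem_nil (mem_cons (L843 D T h) mem_nil) cw12921
theorem W12922 : WFK w12922 := fun D T h => wf_of_chk h (mem_cons (W39 D T h) (mem_cons (W16 D T h) mem_nil)) mem_nil cw12922
theorem W12923 : WFK w12923 := fun D T h => wf_of_chk h (mem_cons (W461 D T h) (mem_cons (W16 D T h) mem_nil)) mem_nil cw12923
theorem W12924 : WFK w12924 := fun D T h => wf_of_chk h (mem_cons (W1325 D T h) (mem_cons (W16 D T h) mem_nil)) mem_nil cw12924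
theorem W12925 : WFK w12925 := fun D T h => wf_of_chk h (mem_cons (W1326 D T h) (mem_cons (W16 D T h) mem_nil)) mem_nil cw12925
theorem W12926 : WFK w12926 := fun D T h => wf_of_chk h (mem_cons (W1554 D T h) (mem_cons (W16 D T h) mem_nil)) mem_nil cw12926
theorem W12927 : WFK w12927 := fun D T h => wf_of_chk h (mem_cons (W581 D T h) (mem_cons (W16 D T h) mem_nil)) mem_nil cw12927
theorem L2981 : LFK l2981 := fun D T h => lf_of_chk h (mem_cons (W37 D T h) (mem_cons (W1336 D T h) (mem_cons (W6935 D T h) (mem_cons (W1063 D T h) (mem_cons (W42 D T h) (mem_cons (W16 D T h) (mem_cons (W3156 D T h) (mem_cons (W12872 D T h) (mem_cons (W12920 D T h) (mem_cons (W12921 D T h) (mem_cons (W6440 D T h) (mem_cons (W1408 D T h) (mem_cons (W12922 D T h) (mem_cons (W12923 D T h) (mem_cons (W7996 D T h) (mem_cons (W1310 D T h) (mem_cons (W1291 D T h) (mem_cons (W12820 D T h) (mem_cons (W12924 D T h) (mem_cons (W11995 D T h) (mem_cons (W12925 D T h) (mem_cons (W12926 D T h) (mem_cons (W12927 D T h) (mem_cons (W6542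 D T h) (mem_cons (W12874 D T h) (mem_cons (W12918 D T h) mem_nil)))))))))))))))))))))))))) cl2981
theorem W12928 : WFK w12928 := fun D T h => wf_of_chk h mem_nil (mem_cons (L2981 D T h) mem_nil) cw12928
theorem W12929 : WFK w12929 := fun D T h => wf_of_chk h mem_nil (mem_cons (L2591 D T h) mem_nil) cw12929
theorem W12930 : WFK w12930 := fun D T h => wf_of_chk h (mem_cons (W126 D T h) (mem_cons (W284 D T h) mem_nil)) mem_nil cw12930
theorem W12931 : WFK w12931 := fun D T h => wf_of_chk h mem_nil (mem_cons (L2277 D T h) mem_nil) cw12931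
theorem W12934 : WFK w12934 := fun D T h => wf_of_chk h mem_nil (mem_cons (L621 D T h) mem_nil) cw12934
theorem W12939 : WFK w12939 := fun D T h => wf_of_chk h mem_nil (mem_cons (L258 D T h) mem_nil) cw12939
theorem L2984 : LFK l2984 := fun D T h => lf_of_chk h (mem_cons (W7557 D T h) (mem_cons (W5868 D T h) (mem_cons (W12939 D T h) (mem_cons (W261 D T h) (mem_cons (W1063 D T h) (mem_cons (W128 D T h) (mem_cons (W1139 D T h) (mem_cons (W11220 D T h) (mem_cons (W7559 D T h) mem_nil))))))))) cl2984
theorem W12942 : WFK w12942 := fun D T h => wf_of_chk h mem_nil (mem_cons (L2984 D T h) mem_nil) cw12942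
theorem W12943 : WFK w12943 := fun D T h => wf_of_chk h mem_nil (mem_cons (L2472 D T h) mem_nil) cw12943
theorem W12944 : WFK w12944 := fun D T h => wf_of_chk h (mem_cons (W16 D T h) (mem_cons (W2520 D T h) mem_nil)) mem_nil cw12944
theorem W12945 : WFK w12945 := fun D T h => wf_of_chk h (mem_cons (W1184 D T h) (mem_cons (W284 D T h) mem_nil)) mem_nil cw12945
theorem L2985 : LFK l2985 := fun D T h => lf_of_chk h (mem_cons (W1139 D T h) (mem_cons (W545 D T h) (mem_cons (W864 D T h) (mem_cons (W1325 D T h) (mem_cons (W1326 D T h) (mem_cons (W7076 D T h) (mem_cons (W8398 D T h) (mem_cons (W2844 D T h) (mem_cons (W6968 D T h) (mem_cons (W5585 D T h) (mem_cons (W15 D T h) (mem_cons (W241 D T h) (mem_cons (W16 D T h) (mem_cons (W170 D T h) (mem_cons (W7109 D T h) mem_nil))))))))))))))) cl2985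
theorem W12946 : WFK w12946 := fun D T h => wf_of_chk h mem_nil (mem_cons (L2985 D T h) mem_nil) cw12946
theorem L2986 : LFK l2986 := fun D T h => lf_of_chk h (mem_cons (W1139 D T h) (mem_cons (W256 D T h) (mem_cons (W7109 D T h) (mem_cons (W354 D T h) (mem_cons (W15 D T h) (mem_cons (W2448 D T h) (mem_cons (W864 D T h) (mem_cons (W1325 D T h) (mem_cons (W7076 D T h) (mem_cons (W1326 D T h) (mem_cons (W8398 D T h) (mem_cons (W5585 D T h) (mem_cons (W6968 D T h) (mem_cons (W2844 D T h) (mem_cons (W1064 D T h) (mem_cons (W870 D T h) (mem_cons (W1099 D T h) mem_nil))))))))))))))))) cl2986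
theorem W12947 : WFK w12947 := fun D T h => wf_of_chk h mem_nil (mem_cons (L2986 D T h) mem_nil) cw12947
theorem W12948 : WFK w12948 := fun D T h => wf_of_chk h (mem_cons (W5251 D T h) (mem_cons (W284 D T h) mem_nil)) mem_nil cw12948
theorem W12949 : WFK w12949 := fun D T h => wf_of_chk h (mem_cons (W8053 D T h) (mem_cons (W284 D T h) mem_nil)) mem_nil cw12949
theorem W12950 : WFK w12950 := fun D T h => wf_of_chk h (mem_cons (W7848 D T h) (mem_cons (W284 D T h) mem_nil)) mem_nil cw12950
theorem W12951 : WFK w12951 := fun D T h => wf_of_chk h (mem_cons (W162 D T h) (mem_cons (W2520 D T h) mem_nil)) mem_nil cw12951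
theorem W12952 : WFK w12952 := fun D T h => wf_of_chk h (mem_cons (W375 D T h) (mem_cons (W16 D T h) mem_nil)) mem_nil cw12952
theorem W12953 : WFK w12953 := fun D T h => wf_of_chk h (mem_cons (W354 D T h) (mem_cons (W284 D T h) mem_nil)) mem_nil cw12953
theorem W12954 : WFK w12954 := fun D T h => wf_of_chk h (mem_cons (W502 D T h) (mem_cons (W16 D T h) mem_nil)) mem_nil cw12954
theorem L2987 : LFK l2987 := fun D T h => lf_of_chk h (mem_cons (W12944 D T h) (mem_cons (W284 D T h) (mem_cons (W799 D T h) (mem_cons (W3045 D T h) (mem_cons (W7862 D T h) (mem_cons (W7748 D T h) (mem_cons (W1139 D T h) (mem_cons (W7749 D T h) (mem_cons (W16 D T h) (mem_cons (W502 D T h) (mem_cons (W12952 D T h) (mem_cons (W8320 D T h) (mem_cons (W12954 D T h) (mem_cons (W3018 D T h) (mem_cons (W12953 D T h) (mem_cons (W251 D T h) (mem_cons (W12943 D T h) (mem_cons (W12945 D T h) (mem_cons (W12946 D T h) (mem_cons (W12950 D T h) (mem_cons (W2015 D T h) (mem_cons (W2037 D T h) (mem_cons (W12951 D T h) (mem_cons (W12203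 D T h) (mem_cons (W12947 D T h) (mem_cons (W12948 D T h) (mem_cons (W128 D T h) (mem_cons (W3029 D T h) (mem_cons (W3030 D T h) (mem_cons (W12949 D T h) mem_nil)))))))))))))))))))))))))))))) cl2987
theorem W12955 : WFK w12955 := fun D T h => wf_of_chk h mem_nil (mem_cons (L2987 D T h) mem_nil) cw12955
theorem W12956 : WFK w12956 := fun D T h => wf_of_chk h mem_nil (mem_cons (L1897 D T h) mem_nil) cw12956
theorem L2988 : LFK l2988 := fun D T h => lf_of_chk h (mem_cons (W128 D T h) (mem_cons (W250 D T h) (mem_cons (W1065 D T h) (mem_cons (W581 D T h) (mem_cons (W10045 D T h) (mem_cons (W8397 D T h) (mem_cons (W1192 D T h) (mem_cons (W15 D T h) (mem_cons (W2520 D T h) (mem_cons (W1064 D T h) (mem_cons (W219 D T h) mem_nil))))))))))) cl2988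
theorem W12957 : WFK w12957 := fun D T h => wf_of_chk h mem_nil (mem_cons (L2988 D T h) mem_nil) cw12957
theorem W12958 : WFK w12958 := fun D T h => wf_of_chk h mem_nil (mem_cons (L840 D T h) mem_nil) cw12958
theorem W12959 : WFK w12959 := fun D T h => wf_of_chk h (mem_cons (W3356 D T h) (mem_cons (W16 D T h) mem_nil)) mem_nil cw12959
theorem W12960 : WFK w12960 := fun D T h => wf_of_chk h mem_nil (mem_cons (L2400 D T h) mem_nil) cw12960
theorem W12961 : WFK w12961 := fun D T h => wf_of_chk h mem_nil (mem_cons (L2591 D T h) mem_nil) cw12961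
theorem W12962 : WFK w12962 := fun D T h => wf_of_chk h mem_nil (mem_cons (L271 D T h) mem_nil) cw12962
theorem L2989 : LFK l2989 := fun D T h => lf_of_chk h (mem_cons (W12929 D T h) (mem_cons (W16 D T h) (mem_cons (W3304 D T h) (mem_cons (W284 D T h) (mem_cons (W1063 D T h) (mem_cons (W1068 D T h) (mem_cons (W2709 D T h) (mem_cons (W3305 D T h) (mem_cons (W3953 D T h) (mem_cons (W11040 D T h) (mem_cons (W12262 D T h) (mem_cons (W12962 D T h) (mem_cons (W8260 D T h) (mem_cons (W128 D T h) (mem_cons (W1139 D T h) (mem_cons (W12959 D T h) (mem_cons (W12960 D T h) (mem_cons (W12961 D T h) (mem_cons (W7557 D T h) (mem_cons (W12943 D T h) (mem_cons (W2520 D T h) (mem_cons (W12955 D T h) (mem_cons (W12956 D T h) (mem_cons (W12945 D T h) (mem_cons (W12957 D T h) (mem_cons (W8427 D T h) (mem_cons (W12958 D T h) (mem_cons (W2015 D T h) (mem_cons (W5258 D T h) (mem_cons (W12930 D T h) (mem_cons (W12931 D T h) (mem_cons (W5277 D T h) (mem_cons (W12942 D T h) mem_nil))))))))))))))))))))))))))))))))) cl2989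
theorem W12963 : WFK w12963 := fun D T h => wf_of_chk h mem_nil (mem_cons (L2989 D T h) mem_nil) cw12963
theorem W12964 : WFK w12964 := fun D T h => wf_of_chk h (mem_cons (W37 D T h) (mem_cons (W3898 D T h) mem_nil)) mem_nil cw12964
theorem W12965 : WFK w12965 := fun D T h => wf_of_chk h mem_nil (mem_cons (L531 D T h) mem_nil) cw12965
theorem L2990 : LFK l2990 := fun D T h => lf_of_chk h (mem_cons (W3958 D T h) (mem_cons (W1207 D T h) (mem_cons (W144 D T h) (mem_cons (W220 D T h) (mem_cons (W15 D T h) (mem_cons (W2916 D T h) (mem_cons (W2620 D T h) (mem_cons (W8332 D T h) (mem_cons (W8380 D T h) (mem_cons (W12168 D T h) (mem_cons (W4531 D T h) (mem_cons (W2743 D T h) (mem_cons (W5943 D T h) (mem_cons (W149 D T h) (mem_cons (W11319 D T h) (mem_cons (W2555 D T h) (mem_cons (W7359 D T h) (mem_cons (W12965 D T h) (mem_cons (W497 D T h) (mem_cons (W8342 D T h) (mem_cons (W11320 D T h) mem_nil))))))))))))))))))))) cl2990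
theorem W12966 : WFK w12966 := fun D T h => wf_of_chk h mem_nil (mem_cons (L2990 D T h) mem_nil) cw12966
theorem W12967 : WFK w12967 := fun D T h => wf_of_chk h mem_nil (mem_cons (L447 D T h) mem_nil) cw12967
theorem L2991 : LFK l2991 := fun D T h => lf_of_chk h (mem_cons (W3958 D T h) (mem_cons (W1312 D T h) (mem_cons (W15 D T h) (mem_cons (W220 D T h) (mem_cons (W144 D T h) (mem_cons (W2916 D T h) (mem_cons (W2620 D T h) (mem_cons (W8332 D T h) (mem_cons (W8380 D T h) (mem_cons (W1198 D T h) (mem_cons (W2743 D T h) (mem_cons (W149 D T h) (mem_cons (W5943 D T h) (mem_cons (W11319 D T h) (mem_cons (W7359 D T h) (mem_cons (W2555 D T h) (mem_cons (W12967 D T h) (mem_cons (W497 D T h) (mem_cons (W8342 D T h) (mem_cons (W11320 D T h) mem_nil)))))))))))))))))))) cl2991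
theorem W12968 : WFK w12968 := fun D T h => wf_of_chk h mem_nil (mem_cons (L2991 D T h) mem_nil) cw12968
theorem L2992 : LFK l2992 := fun D T h => lf_of_chk h (mem_cons (W721 D T h) (mem_cons (W461 D T h) (mem_cons (W126 D T h) (mem_cons (W39 D T h) (mem_cons (W3 D T h) (mem_cons (W2351 D T h) (mem_cons (W281 D T h) (mem_cons (W2353 D T h) (mem_cons (W3444 D T h) (mem_cons (W852 D T h) (mem_cons (W746 D T h) (mem_cons (W747 D T h) (mem_cons (W748 D T h) (mem_cons (W258 D T h) (mem_cons (W4296 D T h) (mem_cons (W762 D T h) (mem_cons (W6647 D T h) mem_nil))))))))))))))))) cl2992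
theorem W12969 : WFK w12969 := fun D T h => wf_of_chk h mem_nil (mem_cons (L2992 D T h) mem_nil) cw12969
theorem W12970 : WFK w12970 := fun D T h => wf_of_chk h mem_nil (mem_cons (L2991 D T h) mem_nil) cw12970
theorem W12971 : WFK w12971 := fun D T h => wf_of_chk h (mem_cons (W539 D T h) (mem_cons (W220 D T h) mem_nil)) mem_nil cw12971
theorem W12972 : WFK w12972 := fun D T h => wf_of_chk h (mem_cons (W69 D T h) (mem_cons (W2743 D T h) mem_nil)) mem_nil cw12972
theorem W12973 : WFK w12973 := fun D T h => wf_of_chk h (mem_cons (W11283 D T h) (mem_cons (W220 D T h) mem_nil)) mem_nil cw12973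
theorem W12974 : WFK w12974 := fun D T h => wf_of_chk h (mem_cons (W2724 D T h) (mem_cons (W220 D T h) mem_nil)) mem_nil cw12974
theorem L2993 : LFK l2993 := fun D T h => lf_of_chk h (mem_cons (W7394 D T h) (mem_cons (W83 D T h) (mem_cons (W401 D T h) (mem_cons (W220 D T h) (mem_cons (W1202 D T h) (mem_cons (W748 D T h) (mem_cons (W2743 D T h) (mem_cons (W6798 D T h) (mem_cons (W1326 D T h) (mem_cons (W7233 D T h) (mem_cons (W6797 D T h) (mem_cons (W7235 D T h) (mem_cons (W1747 D T h) (mem_cons (W7418 D T h) (mem_cons (W12971 D T h) (mem_cons (W1379 D T h) (mem_cons (W7412 D T h) (mem_cons (W5157 D T h) (mem_cons (W12972 D T h) (mem_cons (W7413 D T h) (mem_cons (W7484 D T h) (mem_cons (W6645 D T h) (mem_cons (W12973 D T h) (mem_cons (W12974 D T h) mem_nil)))))))))))))))))))))))) cl2993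
theorem W12975 : WFK w12975 := fun D T h => wf_of_chk h mem_nil (mem_cons (L2993 D T h) mem_nil) cw12975
theorem W12976 : WFK w12976 := fun D T h => wf_of_chk h mem_nil (mem_cons (L766 D T h) mem_nil) cw12976
theorem W12977 : WFK w12977 := fun D T h => wf_of_chk h mem_nil (mem_cons (L234 D T h) mem_nil) cw12977
theorem W12978 : WFK w12978 := fun D T h => wf_of_chk h (mem_cons (W158 D T h) mem_nil) mem_nil cw12978
theorem W12979 : WFK w12979 := fun D T h => wf_of_chk h (mem_cons (W69 D T h) (mem_cons (W158 D T h) mem_nil)) mem_nil cw12979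
theorem W12980 : WFK w12980 := fun D T h => wf_of_chk h mem_nil (mem_cons (L672 D T h) mem_nil) cw12980
theorem W12981 : WFK w12981 := fun D T h => wf_of_chk h (mem_cons (W2743 D T h) mem_nil) mem_nil cw12981
theorem W12982 : WFK w12982 := fun D T h => wf_of_chk h mem_nil (mem_cons (L1352 D T h) mem_nil) cw12982
theorem W12983 : WFK w12983 := fun D T h => wf_of_chk h (mem_cons (W112 D T h) (mem_cons (W158 D T h) mem_nil)) mem_nil cw12983
theorem W12984 : WFK w12984 := fun D T h => wf_of_chk h (mem_cons (W112 D T h) (mem_cons (W158 D T h) mem_nil)) mem_nil cw12984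
theorem W12985 : WFK w12985 := fun D T h => wf_of_chk h mem_nil (mem_cons (L812 D T h) mem_nil) cw12985
theorem L2994 : LFK l2994 := fun D T h => lf_of_chk h (mem_cons (W7401 D T h) (mem_cons (W12977 D T h) (mem_cons (W144 D T h) (mem_cons (W220 D T h) (mem_cons (W2538 D T h) (mem_cons (W8331 D T h) (mem_cons (W8332 D T h) (mem_cons (W11050 D T h) (mem_cons (W15 D T h) (mem_cons (W2521 D T h) (mem_cons (W12979 D T h) (mem_cons (W12985 D T h) (mem_cons (W2532 D T h) (mem_cons (W12551 D T h) (mem_cons (W149 D T h) (mem_cons (W12980 D T h) (mem_cons (W2740 D T h) (mem_cons (W12981 D T h) (mem_cons (W2743 D T h) (mem_cons (W12982 D T h) (mem_cons (W7341 D T h) (mem_cons (W7563 D T h) (mem_cons (W7359 D T h) (mem_cons (W497 D T h) (mem_cons (W12978 D T h) (mem_cons (W12983 D T h) (mem_cons (W12984 D T h) (mem_cons (W12273 D T h) (mem_cons (W42 D T h) (mem_cons (W164 D T h) mem_nil)))))))))))))))))))))))))))))) cl2994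
theorem W12986 : WFK w12986 := fun D T h => wf_of_chk h mem_nil (mem_cons (L2994 D T h) mem_nil) cw12986
theorem W12987 : WFK w12987 := fun D T h => wf_of_chk h (mem_cons (W69 D T h) (mem_cons (W161 D T h) mem_nil)) mem_nil cw12987
theorem W12988 : WFK w12988 := fun D T h => wf_of_chk h mem_nil (mem_cons (L1997 D T h) mem_nil) cw12988
theorem W12989 : WFK w12989 := fun D T h => wf_of_chk h (mem_cons (W112 D T h) (mem_cons (W161 D T h) mem_nil)) mem_nil cw12989
theorem W12990 : WFK w12990 := fun D T h => wf_of_chk h (mem_cons (W112 D T h) (mem_cons (W161 D T h) mem_nil)) mem_nil cw12990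
theorem L2995 : LFK l2995 := fun D T h => lf_of_chk h (mem_cons (W7401 D T h) (mem_cons (W2519 D T h) (mem_cons (W144 D T h) (mem_cons (W220 D T h) (mem_cons (W11050 D T h) (mem_cons (W8331 D T h) (mem_cons (W8332 D T h) (mem_cons (W15 D T h) (mem_cons (W2790 D T h) (mem_cons (W12987 D T h) (mem_cons (W12985 D T h) (mem_cons (W2532 D T h) (mem_cons (W12551 D T h) (mem_cons (W149 D T h) (mem_cons (W12988 D T h) (mem_cons (W2740 D T h) (mem_cons (W12981 D T h) (mem_cons (W2743 D T h) (mem_cons (W12982 D T h) (mem_cons (W7341 D T h) (mem_cons (W7563 D T h) (mem_cons (W7359 D T h) (mem_cons (W497 D T h) (mem_cons (W10382 D T h) (mem_cons (W12989 D T h) (mem_cons (W12990 D T h) (mem_cons (W12273 D T h) (mem_cons (W42 D T h) (mem_cons (W164 D T h) mem_nil))))))))))))))))))))))))))))) cl2995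
theorem W12991 : WFK w12991 := fun D T h => wf_of_chk h mem_nil (mem_cons (L2995 D T h) mem_nil) cw12991
theorem W12992 : WFK w12992 := fun D T h => wf_of_chk h mem_nil (mem_cons (L1322 D T h) mem_nil) cw12992
theorem W12993 : WFK w12993 := fun D T h => wf_of_chk h (mem_cons (W112 D T h) (mem_cons (W281 D T h) mem_nil)) mem_nil cw12993
theorem L2996 : LFK l2996 := fun D T h => lf_of_chk h (mem_cons (W7401 D T h) (mem_cons (W2519 D T h) (mem_cons (W220 D T h) (mem_cons (W281 D T h) (mem_cons (W11050 D T h) (mem_cons (W8331 D T h) (mem_cons (W15 D T h) (mem_cons (W10378 D T h) (mem_cons (W12985 D T h) (mem_cons (W12551 D T h) (mem_cons (W2532 D T h) (mem_cons (W149 D T h) (mem_cons (W2743 D T h) (mem_cons (W2740 D T h) (mem_cons (W12992 D T h) (mem_cons (W12982 D T h) (mem_cons (W7359 D T h) (mem_cons (W7563 D T h) (mem_cons (W7276 D T h) (mem_cons (W10382 D T h) (mem_cons (W497 D T h) (mem_cons (W12993 D T h) (mem_cons (W12273 D T h) (mem_cons (W164 D T h) (mem_cons (W42 D T h) mem_nil)))))))))))))))))))))))))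 cl2996
theorem W12994 : WFK w12994 := fun D T h => wf_of_chk h mem_nil (mem_cons (L2996 D T h) mem_nil) cw12994
theorem L2997 : LFK l2997 := fun D T h => lf_of_chk h (mem_cons (W5721 D T h) (mem_cons (W7353 D T h) (mem_cons (W1 D T h) (mem_cons (W535 D T h) (mem_cons (W797 D T h) (mem_cons (W7076 D T h) (mem_cons (W4038 D T h) (mem_cons (W5157 D T h) (mem_cons (W12634 D T h) (mem_cons (W3958 D T h) (mem_cons (W181 D T h) (mem_cons (W8424 D T h) (mem_cons (W12986 D T h) (mem_cons (W7719 D T h) (mem_cons (W2548 D T h) (mem_cons (W12976 D T h) (mem_cons (W8342 D T h) (mem_cons (W34 D T h) (mem_cons (W1919 D T h) (mem_cons (W1690 D T h) (mem_cons (W12991 D T h) (mem_cons (W6740 D T h) (mem_cons (W12994 D T h) mem_nil))))))))))))))))))))))) cl2997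
theorem W12995 : WFK w12995 := fun D T h => wf_of_chk h mem_nil (mem_cons (L2997 D T h) mem_nil) cw12995
theorem W12996 : WFK w12996 := fun D T h => wf_of_chk h mem_nil (mem_cons (L2990 D T h) mem_nil) cw12996
theorem W12997 : WFK w12997 := fun D T h => wf_of_chk h (mem_cons (W16 D T h) (mem_cons (W33 D T h) mem_nil)) mem_nil cw12997
theorem W13001 : WFK w13001 := fun D T h => wf_of_chk h mem_nil (mem_cons (L90 D T h) mem_nil) cw13001
theorem W13011 : WFK w13011 := fun D T h => wf_of_chk h mem_nil (mem_cons (L46 D T h) mem_nil) cw13011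
theorem L3001 : LFK l3001 := fun D T h => lf_of_chk h (mem_cons (W976 D T h) (mem_cons (W20 D T h) (mem_cons (W4 D T h) (mem_cons (W500 D T h) (mem_cons (W1482 D T h) (mem_cons (W6204 D T h) (mem_cons (W1473 D T h) (mem_cons (W33 D T h) (mem_cons (W919 D T h) (mem_cons (W2766 D T h) (mem_cons (W2007 D T h) mem_nil))))))))))) cl3001
theorem W13012 : WFK w13012 := fun D T h => wf_of_chk h mem_nil (mem_cons (L3001 D T h) mem_nil) cw13012
theorem W13013 : WFK w13013 := fun D T h => wf_of_chk h mem_nil (mem_cons (L192 D T h) mem_nil) cw13013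
theorem W13014 : WFK w13014 := fun D T h => wf_of_chk h (mem_cons (W1139 D T h) mem_nil) mem_nil cw13014
theorem W13015 : WFK w13015 := fun D T h => wf_of_chk h mem_nil (mem_cons (L2758 D T h) mem_nil) cw13015
theorem L3002 : LFK l3002 := fun D T h => lf_of_chk h (mem_cons (W1538 D T h) (mem_cons (W33 D T h) (mem_cons (W5606 D T h) (mem_cons (W831 D T h) (mem_cons (W1101 D T h) (mem_cons (W2007 D T h) (mem_cons (W888 D T h) mem_nil))))))) cl3002
theorem W13016 : WFK w13016 := fun D T h => wf_of_chk h mem_nil (mem_cons (L3002 D T h) mem_nil) cw13016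
theorem W13027 : WFK w13027 := fun D T h => wf_of_chk h (mem_cons (W143 D T h) mem_nil) mem_nil cw13027
theorem W13028 : WFK w13028 := fun D T h => wf_of_chk h (mem_cons (W112 D T h) mem_nil) mem_nil cw13028
theorem W13029 : WFK w13029 := fun D T h => wf_of_chk h (mem_cons (W112 D T h) mem_nil) mem_nil cw13029
theorem L3004 : LFK l3004 := fun D T h => lf_of_chk h (mem_cons (W7401 D T h) (mem_cons (W5875 D T h) (mem_cons (W8331 D T h) (mem_cons (W220 D T h) (mem_cons (W144 D T h) (mem_cons (W179 D T h) (mem_cons (W1339 D T h) (mem_cons (W497 D T h) (mem_cons (W13028 D T h) (mem_cons (W13029 D T h) (mem_cons (W12273 D T h) (mem_cons (W164 D T h) (mem_cons (W42 D T h) (mem_cons (W15 D T h) (mem_cons (W13027 D T h) (mem_cons (W1430 D T h) (mem_cons (W12985 D T h) (mem_cons (W12551 D T h) (mem_cons (W2532 D T h) (mem_cons (W149 D T h) (mem_cons (W2743 D T h) (mem_cons (W2740 D T h) (mem_cons (W1747 D T h) (mem_cons (W12982 D T h) (mem_cons (W7359 D T h) (mem_cons (W7563 D T h) (mem_cons (W7276 D T h)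 (mem_cons (W8332 D T h) mem_nil)))))))))))))))))))))))))))) cl3004
theorem W13030 : WFK w13030 := fun D T h => wf_of_chk h mem_nil (mem_cons (L3004 D T h) mem_nil) cw13030
theorem W13031 : WFK w13031 := fun D T h => wf_of_chk h (mem_cons (W8335 D T h) mem_nil) mem_nil cw13031
theorem W13032 : WFK w13032 := fun D T h => wf_of_chk h (mem_cons (W2405 D T h) mem_nil) mem_nil cw13032
theorem W13033 : WFK w13033 := fun D T h => wf_of_chk h (mem_cons (W162 D T h) mem_nil) mem_nil cw13033
theorem W13034 : WFK w13034 := fun D T h => wf_of_chk h (mem_cons (W8337 D T h) mem_nil) mem_nil cw13034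
theorem W13035 : WFK w13035 := fun D T h => wf_of_chk h (mem_cons (W581 D T h) mem_nil) mem_nil cw13035
theorem L3005 : LFK l3005 := fun D T h => lf_of_chk h (mem_cons (W5258 D T h) (mem_cons (W3953 D T h) (mem_cons (W7466 D T h) (mem_cons (W1 D T h) (mem_cons (W69 D T h) (mem_cons (W366 D T h) (mem_cons (W4256 D T h) (mem_cons (W13033 D T h) (mem_cons (W4531 D T h) (mem_cons (W2037 D T h) (mem_cons (W4209 D T h) (mem_cons (W13035 D T h) (mem_cons (W13031 D T h) (mem_cons (W11065 D T h) (mem_cons (W13032 D T h) (mem_cons (W616 D T h) (mem_cons (W11565 D T h) (mem_cons (W13030 D T h) (mem_cons (W6891 D T h) (mem_cons (W126 D T h) (mem_cons (W13034 D T h) mem_nil))))))))))))))))))))) cl3005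
theorem W13036 : WFK w13036 := fun D T h => wf_of_chk h mem_nil (mem_cons (L3005 D T h) mem_nil) cw13036
theorem W13037 : WFK w13037 := fun D T h => wf_of_chk h (mem_cons (W461 D T h) (mem_cons (W16 D T h) mem_nil)) mem_nil cw13037
theorem W13038 : WFK w13038 := fun D T h => wf_of_chk h mem_nil (mem_cons (L1896 D T h) mem_nil) cw13038
theorem W13039 : WFK w13039 := fun D T h => wf_of_chk h (mem_cons (W911 D T h) (mem_cons (W16 D T h) mem_nil)) mem_nil cw13039
theorem W13040 : WFK w13040 := fun D T h => wf_of_chk h (mem_cons (W11935 D T h) (mem_cons (W16 D T h) mem_nil)) mem_nil cw13040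
theorem W13041 : WFK w13041 := fun D T h => wf_of_chk h mem_nil (mem_cons (L2990 D T h) mem_nil) cw13041
theorem W13042 : WFK w13042 := fun D T h => wf_of_chk h (mem_cons (W501 D T h) mem_nil) mem_nil cw13042
theorem W13043 : WFK w13043 := fun D T h => wf_of_chk h (mem_cons (W1673 D T h) mem_nil) mem_nil cw13043
theorem W13044 : WFK w13044 := fun D T h => wf_of_chk h (mem_cons (W7250 D T h) (mem_cons (W161 D T h) mem_nil)) mem_nil cw13044
theorem W13045 : WFK w13045 := fun D T h => wf_of_chk h (mem_cons (W351 D T h) (mem_cons (W161 D T h) mem_nil)) mem_nil cw13045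
theorem W13046 : WFK w13046 := fun D T h => wf_of_chk h (mem_cons (W3766 D T h) (mem_cons (W161 D T h) mem_nil)) mem_nil cw13046
theorem W13047 : WFK w13047 := fun D T h => wf_of_chk h mem_nil (mem_cons (L1317 D T h) mem_nil) cw13047
theorem W13048 : WFK w13048 := fun D T h => wf_of_chk h (mem_cons (W5841 D T h) mem_nil) mem_nil cw13048
theorem W13049 : WFK w13049 := fun D T h => wf_of_chk h (mem_cons (W391 D T h) (mem_cons (W161 D T h) mem_nil)) mem_nil cw13049
theorem L3006 : LFK l3006 := fun D T h => lf_of_chk h (mem_cons (W8755 D T h) (mem_cons (W2519 D T h) (mem_cons (W390 D T h) (mem_cons (W161 D T h) (mem_cons (W11054 D T h) (mem_cons (W13047 D T h) (mem_cons (W8754 D T h) (mem_cons (W1637 D T h) (mem_cons (W10367 D T h) (mem_cons (W13048 D T h) (mem_cons (W2089 D T h) (mem_cons (W1449 D T h) (mem_cons (W13049 D T h) (mem_cons (W5606 D T h) (mem_cons (W7250 D T h) (mem_cons (W13042 D T h) (mem_cons (W13043 D T h) (mem_cons (W13044 D T h) (mem_cons (W7313 D T h) (mem_cons (W7252 D T h) (mem_cons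 (W8751 D T h) (mem_cons (W497 D T h) (mem_cons (W13045 D T h) mem_nil))))))))))))))))))))))) cl3006
theorem W13050 : WFK w13050 := fun D T h => wf_of_chk h mem_nil (mem_cons (L3006 D T h) mem_nil) cw13050
theorem W13051 : WFK w13051 := fun D T h => wf_of_chk h mem_nil (mem_cons (L449 D T h) mem_nil) cw13051
theorem W13052 : WFK w13052 := fun D T h => wf_of_chk h (mem_cons (W56 D T h) (mem_cons (W281 D T h) mem_nil)) mem_nil cw13052
theorem W13053 : WFK w13053 := fun D T h => wf_of_chk h (mem_cons (W267 D T h) (mem_cons (W281 D T h) mem_nil)) mem_nil cw13053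
theorem W13054 : WFK w13054 := fun D T h => wf_of_chk h (mem_cons (W42 D T h) (mem_cons (W281 D T h) mem_nil)) mem_nil cw13054
theorem W13055 : WFK w13055 := fun D T h => wf_of_chk h mem_nil (mem_cons (L2467 D T h) mem_nil) cw13055
theorem W13056 : WFK w13056 := fun D T h => wf_of_chk h mem_nil (mem_cons (L2466 D T h) mem_nil) cw13056
theorem W13057 : WFK w13057 := fun D T h => wf_of_chk h (mem_cons (W281 D T h) mem_nil) mem_nil cw13057
theorem W13058 : WFK w13058 := fun D T h => wf_of_chk h (mem_cons (W11764 D T h) mem_nil) mem_nil cw13058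
theorem W13059 : WFK w13059 := fun D T h => wf_of_chk h mem_nil (mem_cons (L188 D T h) mem_nil) cw13059
theorem W13060 : WFK w13060 := fun D T h => wf_of_chk h (mem_cons (W1730 D T h) mem_nil) mem_nil cw13060
theorem L3007 : LFK l3007 := fun D T h => lf_of_chk h (mem_cons (W10148 D T h) (mem_cons (W13055 D T h) (mem_cons (W80 D T h) (mem_cons (W281 D T h) (mem_cons (W92 D T h) (mem_cons (W2740 D T h) (mem_cons (W216 D T h) (mem_cons (W3299 D T h) (mem_cons (W105 D T h) (mem_cons (W6725 D T h) (mem_cons (W88 D T h) (mem_cons (W6006 D T h) (mem_cons (W13059 D T h) (mem_cons (W13060 D T h) (mem_cons (W4955 D T h) (mem_cons (W4954 D T h) (mem_cons (W13058 D T h) (mem_cons (W13056 D T h) (mem_cons (W13057 D T h) mem_nil))))))))))))))))))) cl3007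
theorem W13061 : WFK w13061 := fun D T h => wf_of_chk h mem_nil (mem_cons (L3007 D T h) mem_nil) cw13061
theorem W13062 : WFK w13062 := fun D T h => wf_of_chk h (mem_cons (W1326 D T h) (mem_cons (W281 D T h) mem_nil)) mem_nil cw13062
theorem W13063 : WFK w13063 := fun D T h => wf_of_chk h (mem_cons (W1325 D T h) (mem_cons (W281 D T h) mem_nil)) mem_nil cw13063
theorem W13064 : WFK w13064 := fun D T h => wf_of_chk h (mem_cons (W461 D T h) (mem_cons (W281 D T h) mem_nil)) mem_nil cw13064
theorem W13065 : WFK w13065 := fun D T h => wf_of_chk h (mem_cons (W461 D T h) (mem_cons (W281 D T h) mem_nil)) mem_nil cw13065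
theorem W13066 : WFK w13066 := fun D T h => wf_of_chk h (mem_cons (W461 D T h) (mem_cons (W281 D T h) mem_nil)) mem_nil cw13066
theorem L3008 : LFK l3008 := fun D T h => lf_of_chk h (mem_cons (W8449 D T h) (mem_cons (W2519 D T h) (mem_cons (W2799 D T h) (mem_cons (W13051 D T h) (mem_cons (W42 D T h) (mem_cons (W281 D T h) (mem_cons (W7084 D T h) (mem_cons (W5874 D T h) (mem_cons (W5875 D T h) (mem_cons (W2015 D T h) (mem_cons (W6714 D T h) (mem_cons (W10378 D T h) (mem_cons (W13064 D T h) (mem_cons (W13065 D T h) (mem_cons (W1449 D T h) (mem_cons (W13066 D T h) (mem_cons (W13054 D T h) (mem_cons (W581 D T h) (mem_cons (W1326 D T h) (mem_cons (W13061 D T h) (mem_cons (W7076 D T h) (mem_cons (W13062 D T h) (mem_cons (W7311 D T h) (mem_cons (W7559 D T h) (mem_cons (W13063 D T h) (mem_cons (W495 D T h) (mem_cons (W497 D T h) (mem_cons (W2405 D T h) (mem_cons (W12634 D T h) (mem_cons (W13052 D T h) (mem_cons (W13053 D T h) mem_nil))))))))))))))))))))))))))))))) cl3008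
theorem W13067 : WFK w13067 := fun D T h => wf_of_chk h mem_nil (mem_cons (L3008 D T h) mem_nil) cw13067
theorem L3009 : LFK l3009 := fun D T h => lf_of_chk h (mem_cons (W5721 D T h) (mem_cons (W1207 D T h) (mem_cons (W1 D T h) (mem_cons (W535 D T h) (mem_cons (W797 D T h) (mem_cons (W7076 D T h) (mem_cons (W4038 D T h) (mem_cons (W5157 D T h) (mem_cons (W12634 D T h) (mem_cons (W3958 D T h) (mem_cons (W181 D T h) (mem_cons (W13041 D T h) (mem_cons (W2548 D T h) (mem_cons (W8342 D T h) (mem_cons (W34 D T h) (mem_cons (W1919 D T h) (mem_cons (W1690 D T h) (mem_cons (W13050 D T h) (mem_cons (W6740 D T h) (mem_cons (W13067 D T h) mem_nil)))))))))))))))))))) cl3009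
theorem W13068 : WFK w13068 := fun D T h => wf_of_chk h mem_nil (mem_cons (L3009 D T h) mem_nil) cw13068
theorem W13069 : WFK w13069 := fun D T h => wf_of_chk h (mem_cons (W162 D T h) (mem_cons (W1312 D T h) mem_nil)) mem_nil cw13069
theorem W13070 : WFK w13070 := fun D T h => wf_of_chk h (mem_cons (W7552 D T h) (mem_cons (W16 D T h) mem_nil)) mem_nil cw13070
theorem W13071 : WFK w13071 := fun D T h => wf_of_chk h (mem_cons (W1125 D T h) (mem_cons (W16 D T h) mem_nil)) mem_nil cw13071
theorem W13072 : WFK w13072 := fun D T h => wf_of_chk h (mem_cons (W1189 D T h) (mem_cons (W16 D T h) mem_nil)) mem_nil cw13072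
theorem W13073 : WFK w13073 := fun D T h => wf_of_chk h (mem_cons (W69 D T h) (mem_cons (W1599 D T h) mem_nil)) mem_nil cw13073
theorem W13074 : WFK w13074 := fun D T h => wf_of_chk h (mem_cons (W2643 D T h) (mem_cons (W16 D T h) mem_nil)) mem_nil cw13074
theorem W13075 : WFK w13075 := fun D T h => wf_of_chk h (mem_cons (W1312 D T h) (mem_cons (W16 D T h) mem_nil)) mem_nil cw13075
theorem W13076 : WFK w13076 := fun D T h => wf_of_chk h (mem_cons (W1599 D T h) mem_nil) mem_nil cw13076
theorem W13077 : WFK w13077 := fun D T h => wf_of_chk h mem_nil (mem_cons (L3004 D T h) mem_nil) cw13077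
theorem W13078 : WFK w13078 := fun D T h => wf_of_chk h mem_nil (mem_cons (L3004 D T h) mem_nil) cw13078
theorem W13081 : WFK w13081 := fun D T h => wf_of_chk h (mem_cons (W3666 D T h) (mem_cons (W16 D T h) mem_nil)) mem_nil cw13081
theorem L3010 : LFK l3010 := fun D T h => lf_of_chk h (mem_cons (W7864 D T h) (mem_cons (W3953 D T h) (mem_cons (W7436 D T h) (mem_cons (W3973 D T h) (mem_cons (W1599 D T h) (mem_cons (W12203 D T h) (mem_cons (W2839 D T h) (mem_cons (W682 D T h) (mem_cons (W12168 D T h) (mem_cons (W16 D T h) (mem_cons (W12966 D T h) (mem_cons (W12968 D T h) (mem_cons (W13068 D T h) (mem_cons (W13069 D T h) (mem_cons (W2934 D T h) (mem_cons (W284 D T h) (mem_cons (W12969 D T h) (mem_cons (W7401 D T h) (mem_cons (W2405 D T h) (mem_cons (W12970 D T h) (mem_cons (W12975 D T h) (mem_cons (W12995 D T h) (mem_cons (W12996 D T h) (mem_cons (W13036 D T h) (mem_cons (W2037 D T h) (mem_cons (W13037 D T h) (mem_cons (W11108 D T h) (mem_cons (W6758 D T h) (mem_cons (W11935 D T h) (mem_cons (W13038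 D T h) (mem_cons (W5211 D T h) (mem_cons (W7410 D T h) (mem_cons (W13039 D T h) (mem_cons (W7366 D T h) (mem_cons (W3921 D T h) (mem_cons (W11111 D T h) (mem_cons (W13040 D T h) (mem_cons (W13070 D T h) (mem_cons (W2548 D T h) (mem_cons (W8342 D T h) (mem_cons (W13071 D T h) (mem_cons (W5721 D T h) (mem_cons (W13072 D T h) (mem_cons (W13073 D T h) (mem_cons (W13074 D T h) (mem_cons (W13075 D T h) (mem_cons (W13076 D T h) (mem_cons (W13077 D T h) (mem_cons (W13078 D T h) (mem_cons (W13081 D T h) mem_nil)))))))))))))))))))))))))))))))))))))))))))))))))) cl3010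
theorem W13082 : WFK w13082 := fun D T h => wf_of_chk h mem_nil (mem_cons (L3010 D T h) mem_nil) cw13082
theorem W13083 : WFK w13083 := fun D T h => wf_of_chk h (mem_cons (W710 D T h) (mem_cons (W2934 D T h) mem_nil)) mem_nil cw13083
theorem W13084 : WFK w13084 := fun D T h => wf_of_chk h mem_nil (mem_cons (L2019 D T h) mem_nil) cw13084
theorem W13085 : WFK w13085 := fun D T h => wf_of_chk h mem_nil (mem_cons (L2019 D T h) mem_nil) cw13085
theorem W13086 : WFK w13086 := fun D T h => wf_of_chk h (mem_cons (W3352 D T h) (mem_cons (W2934 D T h) mem_nil)) mem_nil cw13086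
theorem W13087 : WFK w13087 := fun D T h => wf_of_chk h (mem_cons (W2994 D T h) (mem_cons (W3898 D T h) mem_nil)) mem_nil cw13087
theorem W13088 : WFK w13088 := fun D T h => wf_of_chk h (mem_cons (W2326 D T h) (mem_cons (W3898 D T h) mem_nil)) mem_nil cw13088
theorem W13089 : WFK w13089 := fun D T h => wf_of_chk h (mem_cons (W2997 D T h) (mem_cons (W3898 D T h) mem_nil)) mem_nil cw13089
theorem W13090 : WFK w13090 := fun D T h => wf_of_chk h (mem_cons (W1318 D T h) (mem_cons (W3898 D T h) mem_nil)) mem_nil cw13090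
theorem W13091 : WFK w13091 := fun D T h => wf_of_chk h (mem_cons (W497 D T h) (mem_cons (W37 D T h) mem_nil)) mem_nil cw13091
theorem W13092 : WFK w13092 := fun D T h => wf_of_chk h (mem_cons (W5105 D T h) (mem_cons (W2934 D T h) mem_nil)) mem_nil cw13092
theorem W13093 : WFK w13093 := fun D T h => wf_of_chk h (mem_cons (W1227 D T h) (mem_cons (W37 D T h) mem_nil)) mem_nil cw13093
theorem W13094 : WFK w13094 := fun D T h => wf_of_chk h (mem_cons (W7230 D T h) (mem_cons (W37 D T h) mem_nil)) mem_nil cw13094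
theorem W13095 : WFK w13095 := fun D T h => wf_of_chk h mem_nil (mem_cons (L836 D T h) mem_nil) cw13095
theorem L3011 : LFK l3011 := fun D T h => lf_of_chk h (mem_cons (W3766 D T h) (mem_cons (W181 D T h) (mem_cons (W16 D T h) (mem_cons (W8342 D T h) (mem_cons (W11320 D T h) (mem_cons (W13095 D T h) (mem_cons (W1 D T h) (mem_cons (W1554 D T h) (mem_cons (W1325 D T h) (mem_cons (W1326 D T h) (mem_cons (W581 D T h) mem_nil))))))))))) cl3011
theorem W13096 : WFK w13096 := fun D T h => wf_of_chk h mem_nil (mem_cons (L3011 D T h) mem_nil) cw13096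
theorem W13097 : WFK w13097 := fun D T h => wf_of_chk h (mem_cons (W13096 D T h) (mem_cons (W37 D T h) mem_nil)) mem_nil cw13097
theorem W13098 : WFK w13098 := fun D T h => wf_of_chk h (mem_cons (W13096 D T h) (mem_cons (W37 D T h) mem_nil)) mem_nil cw13098
theorem W13099 : WFK w13099 := fun D T h => wf_of_chk h (mem_cons (W8948 D T h) (mem_cons (W37 D T h) mem_nil)) mem_nil cw13099
theorem W13100 : WFK w13100 := fun D T h => wf_of_chk h (mem_cons (W8449 D T h) (mem_cons (W37 D T h) mem_nil)) mem_nil cw13100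
theorem W13101 : WFK w13101 := fun D T h => wf_of_chk h (mem_cons (W16 D T h) (mem_cons (W3898 D T h) mem_nil)) mem_nil cw13101
theorem W13102 : WFK w13102 := fun D T h => wf_of_chk h mem_nil (mem_cons (L274 D T h) mem_nil) cw13102
theorem W13103 : WFK w13103 := fun D T h => wf_of_chk h (mem_cons (W3973 D T h) (mem_cons (W34 D T h) mem_nil)) mem_nil cw13103
theorem L3012 : LFK l3012 := fun D T h => lf_of_chk h (mem_cons (W3958 D T h) (mem_cons (W8783 D T h) (mem_cons (W2740 D T h) (mem_cons (W149 D T h) (mem_cons (W8249 D T h) (mem_cons (W2916 D T h) (mem_cons (W8332 D T h) (mem_cons (W8380 D T h) (mem_cons (W144 D T h) (mem_cons (W5943 D T h) (mem_cons (W11319 D T h) (mem_cons (W7359 D T h) (mem_cons (W2555 D T h) (mem_cons (W12633 D T h) (mem_cons (W497 D T h) (mem_cons (W8342 D T h) (mem_cons (W11320 D T h) mem_nil))))))))))))))))) cl3012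
theorem W13104 : WFK w13104 := fun D T h => wf_of_chk h mem_nil (mem_cons (L3012 D T h) mem_nil) cw13104
theorem W13105 : WFK w13105 := fun D T h => wf_of_chk h (mem_cons (W6184 D T h) (mem_cons (W34 D T h) mem_nil)) mem_nil cw13105
theorem W13106 : WFK w13106 := fun D T h => wf_of_chk h mem_nil (mem_cons (L3012 D T h) mem_nil) cw13106
theorem W13107 : WFK w13107 := fun D T h => wf_of_chk h mem_nil (mem_cons (L3012 D T h) mem_nil) cw13107
theorem W13108 : WFK w13108 := fun D T h => wf_of_chk h mem_nil (mem_cons (L3012 D T h) mem_nil) cw13108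
theorem W13109 : WFK w13109 := fun D T h => wf_of_chk h mem_nil (mem_cons (L1678 D T h) mem_nil) cw13109
theorem W13110 : WFK w13110 := fun D T h => wf_of_chk h (mem_cons (W13109 D T h) (mem_cons (W34 D T h) mem_nil)) mem_nil cw13110
theorem W13111 : WFK w13111 := fun D T h => wf_of_chk h mem_nil (mem_cons (L3012 D T h) mem_nil) cw13111
theorem W13112 : WFK w13112 := fun D T h => wf_of_chk h mem_nil (mem_cons (L1927 D T h) mem_nil) cw13112
theorem W13113 : WFK w13113 := fun D T h => wf_of_chk h (mem_cons (W1192 D T h) (mem_cons (W16 D T h) mem_nil)) mem_nil cw13113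
theorem W13114 : WFK w13114 := fun D T h => wf_of_chk h (mem_cons (W7311 D T h) (mem_cons (W34 D T h) mem_nil)) mem_nil cw13114
theorem W13115 : WFK w13115 := fun D T h => wf_of_chk h (mem_cons (W7558 D T h) (mem_cons (W34 D T h) mem_nil)) mem_nil cw13115
theorem W13116 : WFK w13116 := fun D T h => wf_of_chk h (mem_cons (W7357 D T h) (mem_cons (W34 D T h) mem_nil)) mem_nil cw13116
theorem W13117 : WFK w13117 := fun D T h => wf_of_chk h (mem_cons (W7424 D T h) (mem_cons (W34 D T h) mem_nil)) mem_nil cw13117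
theorem W13118 : WFK w13118 := fun D T h => wf_of_chk h (mem_cons (W12966 D T h) (mem_cons (W34 D T h) mem_nil)) mem_nil cw13118
theorem W13119 : WFK w13119 := fun D T h => wf_of_chk h (mem_cons (W162 D T h) mem_nil) mem_nil cw13119
theorem W13120 : WFK w13120 := fun D T h => wf_of_chk h (mem_cons (W13119 D T h) (mem_cons (W34 D T h) mem_nil)) mem_nil cw13120
theorem W13121 : WFK w13121 := fun D T h => wf_of_chk h (mem_cons (W8759 D T h) (mem_cons (W34 D T h) mem_nil)) mem_nil cw13121
theorem L3013 : LFK l3013 := fun D T h => lf_of_chk h (mem_cons (W1227 D T h) (mem_cons (W337 D T h) (mem_cons (W932 D T h) (mem_cons (W431 D T h) (mem_cons (W366 D T h) (mem_cons (W871 D T h) (mem_cons (W2629 D T h) (mem_cons (W2538 D T h) (mem_cons (W2628 D T h) (mem_cons (W7541 D T h) (mem_cons (W144 D T h) (mem_cons (W15 D T h) (mem_cons (W220 D T h) (mem_cons (W1335 D T h) (mem_cons (W2621 D T h) (mem_cons (W2620 D T h) (mem_cons (W8331 D T h) (mem_cons (W8380 D T h) (mem_cons (W1588 D T h) (mem_cons (W149 D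 T h) (mem_cons (W521 D T h) (mem_cons (W7573 D T h) (mem_cons (W2534 D T h) (mem_cons (W2831 D T h) (mem_cons (W13014 D T h) (mem_cons (W2555 D T h) (mem_cons (W495 D T h) (mem_cons (W8645 D T h) (mem_cons (W2548 D T h) (mem_cons (W1639 D T h) (mem_cons (W1695 D T h) mem_nil))))))))))))))))))))))))))))))) cl3013
theorem W13122 : WFK w13122 := fun D T h => wf_of_chk h mem_nil (mem_cons (L3013 D T h) mem_nil) cw13122
theorem W13123 : WFK w13123 := fun D T h => wf_of_chk h (mem_cons (W1192 D T h) (mem_cons (W16 D T h) mem_nil)) mem_nil cw13123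
theorem W13124 : WFK w13124 := fun D T h => wf_of_chk h (mem_cons (W8397 D T h) (mem_cons (W16 D T h) mem_nil)) mem_nil cw13124
theorem W13125 : WFK w13125 := fun D T h => wf_of_chk h (mem_cons (W12564 D T h) (mem_cons (W34 D T h) mem_nil)) mem_nil cw13125
theorem W13126 : WFK w13126 := fun D T h => wf_of_chk h mem_nil (mem_cons (L2991 D T h) mem_nil) cw13126
theorem W13127 : WFK w13127 := fun D T h => wf_of_chk h (mem_cons (W489 D T h) (mem_cons (W1599 D T h) mem_nil)) mem_nil cw13127
theorem W13128 : WFK w13128 := fun D T h => wf_of_chk h (mem_cons (W489 D T h) (mem_cons (W2839 D T h) mem_nil)) mem_nil cw13128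
theorem W13129 : WFK w13129 := fun D T h => wf_of_chk h (mem_cons (W3666 D T h) (mem_cons (W16 D T h) mem_nil)) mem_nil cw13129
theorem L3014 : LFK l3014 := fun D T h => lf_of_chk h (mem_cons (W13103 D T h) (mem_cons (W13111 D T h) (mem_cons (W13126 D T h) (mem_cons (W8757 D T h) (mem_cons (W7878 D T h) (mem_cons (W7424 D T h) (mem_cons (W2051 D T h) (mem_cons (W8449 D T h) (mem_cons (W8419 D T h) (mem_cons (W6613 D T h) (mem_cons (W2839 D T h) (mem_cons (W8783 D T h) (mem_cons (W2936 D T h) (mem_cons (W5567 D T h) (mem_cons (W2861 D T h) (mem_cons (W16 D T h) (mem_cons (W3408 D T h) (mem_cons (W13104 D T h) (mem_cons (W13118 D T h) (mem_cons (W2934 D T h) (mem_cons (W13120 D T h) (mem_cons (W284 D T h) (mem_cons (W8128 D T h) (mem_cons (W13105 D T h) (mem_cons (W12634 D T h) (mem_cons (W3958 D T h) (mem_cons (W13106 D T h) (mem_cons (W13107 D T h) (mem_cons (W13108 D T h) (mem_cons (W13110 D T h) (mem_cons (W12522 D T h) (mem_cons (W12619 D T h) (mem_cons (W5212 D T h) (mem_cons (W12621 D T h)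 (mem_cons (W13112 D T h) (mem_cons (W13113 D T h) (mem_cons (W13114 D T h) (mem_cons (W13115 D T h) (mem_cons (W8417 D T h) (mem_cons (W13116 D T h) (mem_cons (W13117 D T h) (mem_cons (W8759 D T h) (mem_cons (W458 D T h) (mem_cons (W7083 D T h) (mem_cons (W12628 D T h) (mem_cons (W13121 D T h) (mem_cons (W13122 D T h) (mem_cons (W8746 D T h) (mem_cons (W13123 D T h) (mem_cons (W13124 D T h) (mem_cons (W13125 D T h) (mem_cons (W7177 D T h) (mem_cons (W13127 D T h) (mem_cons (W13128 D T h) (mem_cons (W13129 D T h) mem_nil))))))))))))))))))))))))))))))))))))))))))))))))))))))) cl3014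
theorem W13130 : WFK w13130 := fun D T h => wf_of_chk h mem_nil (mem_cons (L3014 D T h) mem_nil) cw13130
theorem W13131 : WFK w13131 := fun D T h => wf_of_chk h (mem_cons (W175 D T h) (mem_cons (W3898 D T h) mem_nil)) mem_nil cw13131
theorem W13132 : WFK w13132 := fun D T h => wf_of_chk h (mem_cons (W3898 D T h) mem_nil) mem_nil cw13132
theorem W13133 : WFK w13133 := fun D T h => wf_of_chk h (mem_cons (W6184 D T h) mem_nil) mem_nil cw13133
theorem W13134 : WFK w13134 := fun D T h => wf_of_chk h (mem_cons (W162 D T h) mem_nil) mem_nil cw13134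
theorem W13135 : WFK w13135 := fun D T h => wf_of_chk h (mem_cons (W220 D T h) (mem_cons (W13134 D T h) mem_nil)) mem_nil cw13135
theorem W13136 : WFK w13136 := fun D T h => wf_of_chk h mem_nil (mem_cons (L152 D T h) mem_nil) cw13136
theorem L3015 : LFK l3015 := fun D T h => lf_of_chk h (mem_cons (W257 D T h) (mem_cons (W11228 D T h) (mem_cons (W1379 D T h) (mem_cons (W220 D T h) (mem_cons (W67 D T h) (mem_cons (W91 D T h) (mem_cons (W389 D T h) (mem_cons (W9249 D T h) (mem_cons (W13 D T h) (mem_cons (W7723 D T h) (mem_cons (W345 D T h) (mem_cons (W13136 D T h) mem_nil)))))))))))) cl3015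
theorem W13137 : WFK w13137 := fun D T h => wf_of_chk h mem_nil (mem_cons (L3015 D T h) mem_nil) cw13137
theorem W13138 : WFK w13138 := fun D T h => wf_of_chk h (mem_cons (W12329 D T h) (mem_cons (W16 D T h) mem_nil)) mem_nil cw13138
theorem W13139 : WFK w13139 := fun D T h => wf_of_chk h (mem_cons (W13137 D T h) (mem_cons (W16 D T h) mem_nil)) mem_nil cw13139
theorem W13140 : WFK w13140 := fun D T h => wf_of_chk h (mem_cons (W12329 D T h) (mem_cons (W16 D T h) mem_nil)) mem_nil cw13140
theorem W13141 : WFK w13141 := fun D T h => wf_of_chk h (mem_cons (W12485 D T h) (mem_cons (W16 D T h) mem_nil)) mem_nil cw13141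
theorem W13142 : WFK w13142 := fun D T h => wf_of_chk h (mem_cons (W12968 D T h) mem_nil) mem_nil cw13142
theorem W13143 : WFK w13143 := fun D T h => wf_of_chk h (mem_cons (W162 D T h) (mem_cons (W13134 D T h) mem_nil)) mem_nil cw13143
theorem W13144 : WFK w13144 := fun D T h => wf_of_chk h (mem_cons (W9783 D T h) (mem_cons (W16 D T h) mem_nil)) mem_nil cw13144
theorem L3016 : LFK l3016 := fun D T h => lf_of_chk h (mem_cons (W142 D T h) (mem_cons (W33 D T h) (mem_cons (W78 D T h) (mem_cons (W2204 D T h) (mem_cons (W539 D T h) (mem_cons (W404 D T h) (mem_cons (W1246 D T h) (mem_cons (W1834 D T h) mem_nil)))))))) cl3016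
theorem W13145 : WFK w13145 := fun D T h => wf_of_chk h mem_nil (mem_cons (L3016 D T h) mem_nil) cw13145
theorem W13146 : WFK w13146 := fun D T h => wf_of_chk h mem_nil (mem_cons (L1545 D T h) mem_nil) cw13146
theorem W13147 : WFK w13147 := fun D T h => wf_of_chk h mem_nil (mem_cons (L1549 D T h) mem_nil) cw13147
theorem W13148 : WFK w13148 := fun D T h => wf_of_chk h mem_nil (mem_cons (L1549 D T h) mem_nil) cw13148
theorem W13149 : WFK w13149 := fun D T h => wf_of_chk h mem_nil (mem_cons (L1599 D T h) mem_nil) cw13149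
theorem L3019 : LFK l3019 := fun D T h => lf_of_chk h (mem_cons (W429 D T h) (mem_cons (W1120 D T h) (mem_cons (W39 D T h) (mem_cons (W12599 D T h) (mem_cons (W6742 D T h) (mem_cons (W2636 D T h) (mem_cons (W3760 D T h) (mem_cons (W1540 D T h) (mem_cons (W12237 D T h) (mem_cons (W2632 D T h) (mem_cons (W12598 D T h) (mem_cons (W819 D T h) mem_nil)))))))))))) cl3019
theorem L3020 : LFK l3020 := fun D T h => lf_of_chk h (mem_cons (W429 D T h) (mem_cons (W16 D T h) (mem_cons (W1379 D T h) (mem_cons (W39 D T h) (mem_cons (W5459 D T h) (mem_cons (W6742 D T h) (mem_cons (W2637 D T h) (mem_cons (W2492 D T h) (mem_cons (W1540 D T h) (mem_cons (W2650 D T h) (mem_cons (W2632 D T h) (mem_cons (W12602 D T h) (mem_cons (W819 D T h) mem_nil))))))))))))) cl3020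
theorem L3021 : LFK l3021 := fun D T h => lf_of_chk h (mem_cons (W2743 D T h) (mem_cons (W33 D T h) (mem_cons (W2722 D T h) (mem_cons (W539 D T h) (mem_cons (W13001 D T h) (mem_cons (W864 D T h) (mem_cons (W1825 D T h) mem_nil))))))) cl3021
theorem W13155 : WFK w13155 := fun D T h => wf_of_chk h mem_nil (mem_cons (L3021 D T h) mem_nil) cw13155
theorem W13164 : WFK w13164 := fun D T h => wf_of_chk h mem_nil (mem_cons (L1689 D T h) mem_nil) cw13164
theorem L3024 : LFK l3024 := fun D T h => lf_of_chk h (mem_cons (W13148 D T h) (mem_cons (W972 D T h) (mem_cons (W15 D T h) (mem_cons (W220 D T h) (mem_cons (W144 D T h) (mem_cons (W659 D T h) (mem_cons (W949 D T h) (mem_cons (W4566 D T h) (mem_cons (W86 D T h) (mem_cons (W6182 D T h) (mem_cons (W6183 D T h) (mem_cons (W11288 D T h) (mem_cons (W13149 D T h) (mem_cons (W8380 D T h) (mem_cons (W13145 D T h) (mem_cons (W149 D T h) (mem_cons (W2740 D T h) (mem_cons (W1825 D T h) (mem_cons (W2743 D T h) (mem_cons (W13146 D T h) (mem_cons (W6175 D T h) (mem_cons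 (W13147 D T h) (mem_cons (W6171 D T h) (mem_cons (W6170 D T h) (mem_cons (W201 D T h) (mem_cons (W6177 D T h) (mem_cons (W6176 D T h) (mem_cons (W42 D T h) (mem_cons (W6178 D T h) (mem_cons (W164 D T h) mem_nil)))))))))))))))))))))))))))))) cl3024
theorem W13165 : WFK w13165 := fun D T h => wf_of_chk h mem_nil (mem_cons (L3024 D T h) mem_nil) cw13165
theorem L3031 : LFK l3031 := fun D T h => lf_of_chk h (mem_cons (W2627 D T h) (mem_cons (W164 D T h) (mem_cons (W15 D T h) (mem_cons (W220 D T h) (mem_cons (W144 D T h) (mem_cons (W659 D T h) (mem_cons (W949 D T h) (mem_cons (W201 D T h) (mem_cons (W1501 D T h) (mem_cons (W86 D T h) (mem_cons (W6182 D T h) (mem_cons (W6183 D T h) (mem_cons (W11288 D T h) (mem_cons (W13149 D T h) (mem_cons (W1835 D T h) (mem_cons (W149 D T h) (mem_cons (W2740 D T h) (mem_cons (W142 D T h) (mem_cons (W2743 D T h) (mem_cons (W7241 D T h) (mem_cons (W6175 D T h) (mem_cons (W13147 D T h) (mem_cons (W6171 D T h) (mem_cons (W6170 D T h) (mem_cons (W6177 D T h) (mem_cons (W6176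 D T h) (mem_cons (W11290 D T h) mem_nil))))))))))))))))))))))))))) cl3031
theorem W13177 : WFK w13177 := fun D T h => wf_of_chk h mem_nil (mem_cons (L3031 D T h) mem_nil) cw13177
theorem W13178 : WFK w13178 := fun D T h => wf_of_chk h (mem_cons (W13177 D T h) mem_nil) mem_nil cw13178
theorem W13179 : WFK w13179 := fun D T h => wf_of_chk h (mem_cons (W32 D T h) (mem_cons (W2839 D T h) mem_nil)) mem_nil cw13179
theorem W13180 : WFK w13180 := fun D T h => wf_of_chk h (mem_cons (W11233 D T h) (mem_cons (W16 D T h) mem_nil)) mem_nil cw13180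
theorem W13181 : WFK w13181 := fun D T h => wf_of_chk h mem_nil (mem_cons (L20 D T h) mem_nil) cw13181
theorem W13182 : WFK w13182 := fun D T h => wf_of_chk h mem_nil (mem_cons (L45 D T h) mem_nil) cw13182
theorem W13183 : WFK w13183 := fun D T h => wf_of_chk h (mem_cons (W13182 D T h) (mem_cons (W16 D T h) mem_nil)) mem_nil cw13183
theorem W13184 : WFK w13184 := fun D T h => wf_of_chk h mem_nil (mem_cons (L168 D T h) mem_nil) cw13184
theorem W13185 : WFK w13185 := fun D T h => wf_of_chk h (mem_cons (W13184 D T h) (mem_cons (W16 D T h) mem_nil)) mem_nil cw13185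
theorem L3032 : LFK l3032 := fun D T h => lf_of_chk h (mem_cons (W871 D T h) (mem_cons (W2740 D T h) (mem_cons (W105 D T h) (mem_cons (W651 D T h) (mem_cons (W4518 D T h) (mem_cons (W80 D T h) (mem_cons (W33 D T h) mem_nil))))))) cl3032
theorem W13186 : WFK w13186 := fun D T h => wf_of_chk h mem_nil (mem_cons (L3032 D T h) mem_nil) cw13186
theorem L3033 : LFK l3033 := fun D T h => lf_of_chk h (mem_cons (W2743 D T h) (mem_cons (W2723 D T h) (mem_cons (W6725 D T h) (mem_cons (W80 D T h) (mem_cons (W33 D T h) (mem_cons (W871 D T h) (mem_cons (W11353 D T h) mem_nil))))))) cl3033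
theorem W13187 : WFK w13187 := fun D T h => wf_of_chk h mem_nil (mem_cons (L3033 D T h) mem_nil) cw13187
theorem W13188 : WFK w13188 := fun D T h => wf_of_chk h (mem_cons (W3970 D T h) (mem_cons (W16 D T h) mem_nil)) mem_nil cw13188
theorem W13189 : WFK w13189 := fun D T h => wf_of_chk h (mem_cons (W80 D T h) mem_nil) mem_nil cw13189
theorem L3034 : LFK l3034 := fun D T h => lf_of_chk h (mem_cons (W12619 D T h) (mem_cons (W6797 D T h) (mem_cons (W1326 D T h) (mem_cons (W230 D T h) (mem_cons (W16 D T h) (mem_cons (W220 D T h) (mem_cons (W5841 D T h) (mem_cons (W6782 D T h) (mem_cons (W638 D T h) (mem_cons (W13189 D T h) (mem_cons (W149 D T h) (mem_cons (W11265 D T h) (mem_cons (W267 D T h) (mem_cons (W3766 D T h) (mem_cons (W2940 D T h) (mem_cons (W4447 D T h) (mem_cons (W45 D T h) (mem_cons (W12366 D T h) mem_nil)))))))))))))))))) cl3034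
theorem W13190 : WFK w13190 := fun D T h => wf_of_chk h mem_nil (mem_cons (L3034 D T h) mem_nil) cw13190
theorem W13191 : WFK w13191 := fun D T h => wf_of_chk h mem_nil (mem_cons (L3034 D T h) mem_nil) cw13191
theorem W13192 : WFK w13192 := fun D T h => wf_of_chk h mem_nil (mem_cons (L2693 D T h) mem_nil) cw13192
theorem W13193 : WFK w13193 := fun D T h => wf_of_chk h (mem_cons (W114 D T h) mem_nil) mem_nil cw13193
theorem W13194 : WFK w13194 := fun D T h => wf_of_chk h mem_nil (mem_cons (L3004 D T h) mem_nil) cw13194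
theorem W13195 : WFK w13195 := fun D T h => wf_of_chk h mem_nil (mem_cons (L2693 D T h) mem_nil) cw13195
theorem W13196 : WFK w13196 := fun D T h => wf_of_chk h mem_nil (mem_cons (L2693 D T h) mem_nil) cw13196
theorem W13197 : WFK w13197 := fun D T h => wf_of_chk h mem_nil (mem_cons (L2693 D T h) mem_nil) cw13197
theorem W13198 : WFK w13198 := fun D T h => wf_of_chk h (mem_cons (W16 D T h) (mem_cons (W1019 D T h) mem_nil)) mem_nil cw13198
theorem L3035 : LFK l3035 := fun D T h => lf_of_chk h (mem_cons (W158 D T h) (mem_cons (W8 D T h) (mem_cons (W802 D T h) (mem_cons (W651 D T h) (mem_cons (W7171 D T h) (mem_cons (W831 D T h) (mem_cons (W1092 D T h) (mem_cons (W331 D T h) (mem_cons (W1075 D T h) (mem_cons (W3232 D T h) (mem_cons (W248 D T h) (mem_cons (W812 D T h) (mem_cons (W87 D T h) mem_nil))))))))))))) cl3035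
theorem W13199 : WFK w13199 := fun D T h => wf_of_chk h mem_nil (mem_cons (L3035 D T h) mem_nil) cw13199
theorem W13200 : WFK w13200 := fun D T h => wf_of_chk h mem_nil (mem_cons (L2758 D T h) mem_nil) cw13200
theorem W13201 : WFK w13201 := fun D T h => wf_of_chk h mem_nil (mem_cons (L2758 D T h) mem_nil) cw13201
theorem W13202 : WFK w13202 := fun D T h => wf_of_chk h mem_nil (mem_cons (L185 D T h) mem_nil) cw13202
theorem L3036 : LFK l3036 := fun D T h => lf_of_chk h (mem_cons (W2548 D T h) (mem_cons (W7084 D T h) (mem_cons (W7528 D T h) (mem_cons (W168 D T h) (mem_cons (W241 D T h) (mem_cons (W937 D T h) (mem_cons (W724 D T h) (mem_cons (W497 D T h) (mem_cons (W11263 D T h) (mem_cons (W112 D T h) (mem_cons (W1379 D T h) (mem_cons (W1170 D T h) (mem_cons (W2674 D T h) (mem_cons (W965 D T h) (mem_cons (W13202 D T h) (mem_cons (W2305 D T h) (mem_cons (W8273 D T h) (mem_cons (W7316 D T h) (mem_cons (W13199 D T h) (mem_cons (W10536 D T h) (mem_cons (W11228 D T h) (mem_cons (W13200 D T h) (mem_cons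 (W7313 D T h) (mem_cons (W13015 D T h) (mem_cons (W11950 D T h) (mem_cons (W13201 D T h) (mem_cons (W8754 D T h) (mem_cons (W3182 D T h) mem_nil)))))))))))))))))))))))))))) cl3036
theorem W13203 : WFK w13203 := fun D T h => wf_of_chk h mem_nil (mem_cons (L3036 D T h) mem_nil) cw13203
theorem W13204 : WFK w13204 := fun D T h => wf_of_chk h (mem_cons (W1829 D T h) mem_nil) mem_nil cw13204
theorem W13205 : WFK w13205 := fun D T h => wf_of_chk h mem_nil (mem_cons (L2922 D T h) mem_nil) cw13205
theorem W13206 : WFK w13206 := fun D T h => wf_of_chk h (mem_cons (W7392 D T h) mem_nil) mem_nil cw13206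
theorem W13207 : WFK w13207 := fun D T h => wf_of_chk h mem_nil (mem_cons (L1713 D T h) mem_nil) cw13207
theorem W13208 : WFK w13208 := fun D T h => wf_of_chk h mem_nil (mem_cons (L2017 D T h) mem_nil) cw13208
theorem W13209 : WFK w13209 := fun D T h => wf_of_chk h mem_nil (mem_cons (L2017 D T h) mem_nil) cw13209
theorem W13210 : WFK w13210 := fun D T h => wf_of_chk h mem_nil (mem_cons (L3019 D T h) mem_nil) cw13210
theorem W13211 : WFK w13211 := fun D T h => wf_of_chk h mem_nil (mem_cons (L338 D T h) mem_nil) cw13211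
theorem W13212 : WFK w13212 := fun D T h => wf_of_chk h mem_nil (mem_cons (L3019 D T h) mem_nil) cw13212
theorem W13213 : WFK w13213 := fun D T h => wf_of_chk h mem_nil (mem_cons (L2629 D T h) mem_nil) cw13213
theorem W13214 : WFK w13214 := fun D T h => wf_of_chk h mem_nil (mem_cons (L324 D T h) mem_nil) cw13214
theorem W13215 : WFK w13215 := fun D T h => wf_of_chk h mem_nil (mem_cons (L2629 D T h) mem_nil) cw13215
theorem L3037 : LFK l3037 := fun D T h => lf_of_chk h (mem_cons (W8128 D T h) (mem_cons (W5874 D T h) (mem_cons (W6178 D T h) (mem_cons (W429 D T h) (mem_cons (W183 D T h) (mem_cons (W937 D T h) (mem_cons (W724 D T h) (mem_cons (W5448 D T h) (mem_cons (W2548 D T h) (mem_cons (W13208 D T h) (mem_cons (W13209 D T h) (mem_cons (W13210 D T h) (mem_cons (W113 D T h) (mem_cons (W152 D T h) (mem_cons (W8073 D T h) (mem_cons (W722 D T h) (mem_cons (W13213 D T h) (mem_cons (W13214 D T h) (mem_cons (W13215 D T h) (mem_cons (W11272 D T h) (mem_cons (W12280 D T h) (mem_cons (W13204 D T h) (mem_cons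 (W1540 D T h) (mem_cons (W7392 D T h) (mem_cons (W11313 D T h) (mem_cons (W13205 D T h) (mem_cons (W7340 D T h) (mem_cons (W13014 D T h) (mem_cons (W13206 D T h) (mem_cons (W13207 D T h) (mem_cons (W13211 D T h) (mem_cons (W13212 D T h) mem_nil)))))))))))))))))))))))))))))))) cl3037
theorem W13216 : WFK w13216 := fun D T h => wf_of_chk h mem_nil (mem_cons (L3037 D T h) mem_nil) cw13216
theorem L3038 : LFK l3038 := fun D T h => lf_of_chk h (mem_cons (W12520 D T h) (mem_cons (W2861 D T h) (mem_cons (W3974 D T h) (mem_cons (W337 D T h) (mem_cons (W2839 D T h) (mem_cons (W16 D T h) (mem_cons (W937 D T h) (mem_cons (W13192 D T h) (mem_cons (W12629 D T h) (mem_cons (W12531 D T h) (mem_cons (W13203 D T h) (mem_cons (W10822 D T h) (mem_cons (W13216 D T h) (mem_cons (W284 D T h) (mem_cons (W12519 D T h) (mem_cons (W1227 D T h) (mem_cons (W13193 D T h) (mem_cons (W11320 D T h) (mem_cons (W13194 D T h) (mem_cons (W13195 D T h) (mem_cons (W13196 D T h) (mem_cons (W13197 D T h) (mem_cons (W12203 D T h) (mem_cons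 (W1311 D T h) (mem_cons (W2841 D T h) (mem_cons (W12566 D T h) (mem_cons (W2051 D T h) (mem_cons (W13198 D T h) (mem_cons (W12491 D T h) (mem_cons (W12620 D T h) (mem_cons (W8383 D T h) (mem_cons (W8384 D T h) (mem_cons (W12522 D T h) (mem_cons (W12619 D T h) (mem_cons (W13186 D T h) (mem_cons (W5212 D T h) (mem_cons (W13187 D T h) (mem_cons (W2849 D T h) (mem_cons (W13188 D T h) (mem_cons (W8417 D T h) (mem_cons (W12525 D T h) (mem_cons (W13190 D T h) (mem_cons (W13191 D T h) (mem_cons (W13180 D T h) (mem_cons (W13181 D T h) (mem_cons (W12517 D T h) (mem_cons (W181 D T h) (mem_cons (W13183 D T h) (mem_cons (W13185 D T h) mem_nil))))))))))))))))))))))))))))))))))))))))))))))))) cl3038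
theorem W13217 : WFK w13217 := fun D T h => wf_of_chk h mem_nil (mem_cons (L3038 D T h) mem_nil) cw13217
theorem L3039 : LFK l3039 := fun D T h => lf_of_chk h (mem_cons (W13111 D T h) (mem_cons (W13126 D T h) (mem_cons (W13129 D T h) (mem_cons (W8449 D T h) (mem_cons (W8111 D T h) (mem_cons (W337 D T h) (mem_cons (W2709 D T h) (mem_cons (W2839 D T h) (mem_cons (W1599 D T h) (mem_cons (W16 D T h) (mem_cons (W13134 D T h) (mem_cons (W3408 D T h) (mem_cons (W13104 D T h) (mem_cons (W13142 D T h) (mem_cons (W2934 D T h) (mem_cons (W13143 D T h) (mem_cons (W284 D T h) (mem_cons (W13141 D T h) (mem_cons (W12634 D T h) (mem_cons (W13133 D T h) (mem_cons (W3958 D T h) (mem_cons (W13106 D T h) (mem_cons (W13108 D T h) (mem_cons (W13107 D T h) (mem_cons (W13135 D T h) (mem_cons (W2936 D T h) (mem_cons (W2861 D T h) (mem_cons (W7424 D T h) (mem_cons (W2051 D T h) (mem_cons (W8419 D T h) (mem_cons (W12522 D T h) (mem_cons (W12619 D T h) (mem_cons (W12621 D T h) (mem_cons (W5212 D T h) (mem_cons (W13137 D T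 h) (mem_cons (W13113 D T h) (mem_cons (W13138 D T h) (mem_cons (W8417 D T h) (mem_cons (W13139 D T h) (mem_cons (W13140 D T h) (mem_cons (W8759 D T h) (mem_cons (W7083 D T h) (mem_cons (W458 D T h) (mem_cons (W12628 D T h) (mem_cons (W13144 D T h) (mem_cons (W13122 D T h) (mem_cons (W13123 D T h) (mem_cons (W8746 D T h) (mem_cons (W13124 D T h) (mem_cons (W13178 D T h) (mem_cons (W13179 D T h) (mem_cons (W13217 D T h) mem_nil)))))))))))))))))))))))))))))))))))))))))))))))))))) cl3039
theorem W13218 : WFK w13218 := fun D T h => wf_of_chk h mem_nil (mem_cons (L3039 D T h) mem_nil) cw13218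
theorem W13219 : WFK w13219 := fun D T h => wf_of_chk h mem_nil (mem_cons (L3038 D T h) mem_nil) cw13219
theorem W13220 : WFK w13220 := fun D T h => wf_of_chk h (mem_cons (W13219 D T h) (mem_cons (W177 D T h) mem_nil)) mem_nil cw13220
theorem W13221 : WFK w13221 := fun D T h => wf_of_chk h (mem_cons (W195 D T h) (mem_cons (W3898 D T h) mem_nil)) mem_nil cw13221
theorem W13224 : WFK w13224 := fun D T h => wf_of_chk h mem_nil (mem_cons (L2758 D T h) mem_nil) cw13224
theorem W13225 : WFK w13225 := fun D T h => wf_of_chk h mem_nil (mem_cons (L1713 D T h) mem_nil) cw13225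
theorem L3040 : LFK l3040 := fun D T h => lf_of_chk h (mem_cons (W5157 D T h) (mem_cons (W638 D T h) (mem_cons (W149 D T h) (mem_cons (W1 D T h) (mem_cons (W576 D T h) (mem_cons (W501 D T h) (mem_cons (W1673 D T h) (mem_cons (W888 D T h) (mem_cons (W4765 D T h) (mem_cons (W13224 D T h) (mem_cons (W1960 D T h) (mem_cons (W6491 D T h) (mem_cons (W13225 D T h) (mem_cons (W5161 D T h) (mem_cons (W6807 D T h) (mem_cons (W2922 D T h) mem_nil)))))))))))))))) cl3040
theorem W13226 : WFK w13226 := fun D T h => wf_of_chk h mem_nil (mem_cons (L3040 D T h) mem_nil) cw13226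
theorem W13250 : WFK w13250 := fun D T h => wf_of_chk h mem_nil (mem_cons (L1073 D T h) mem_nil) cw13250
theorem W13251 : WFK w13251 := fun D T h => wf_of_chk h (mem_cons (W13250 D T h) (mem_cons (W177 D T h) mem_nil)) mem_nil cw13251
theorem W13261 : WFK w13261 := fun D T h => wf_of_chk h (mem_cons (W4289 D T h) (mem_cons (W162 D T h) mem_nil)) mem_nil cw13261
theorem W13262 : WFK w13262 := fun D T h => wf_of_chk h (mem_cons (W162 D T h) mem_nil) mem_nil cw13262
theorem W13273 : WFK w13273 := fun D T h => wf_of_chk h (mem_cons (W206 D T h) (mem_cons (W162 D T h) mem_nil)) mem_nil cw13273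
theorem W13274 : WFK w13274 := fun D T h => wf_of_chk h (mem_cons (W205 D T h) (mem_cons (W162 D T h) mem_nil)) mem_nil cw13274
theorem W13275 : WFK w13275 := fun D T h => wf_of_chk h (mem_cons (W204 D T h) (mem_cons (W162 D T h) mem_nil)) mem_nil cw13275
theorem W13276 : WFK w13276 := fun D T h => wf_of_chk h (mem_cons (W3888 D T h) (mem_cons (W162 D T h) mem_nil)) mem_nil cw13276
theorem W13277 : WFK w13277 := fun D T h => wf_of_chk h (mem_cons (W4100 D T h) (mem_cons (W162 D T h) mem_nil)) mem_nil cw13277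
theorem L3047 : LFK l3047 := fun D T h => lf_of_chk h (mem_cons (W1408 D T h) (mem_cons (W17 D T h) (mem_cons (W16 D T h) (mem_cons (W4209 D T h) (mem_cons (W13273 D T h) (mem_cons (W24 D T h) (mem_cons (W13274 D T h) (mem_cons (W13275 D T h) (mem_cons (W13276 D T h) (mem_cons (W3 D T h) (mem_cons (W13277 D T h) (mem_cons (W1448 D T h) (mem_cons (W1449 D T h) mem_nil))))))))))))) cl3047
theorem W13278 : WFK w13278 := fun D T h => wf_of_chk h mem_nil (mem_cons (L3047 D T h) mem_nil) cw13278
theorem W13297 : WFK w13297 := fun D T h => wf_of_chk h mem_nil (mem_cons (L1073 D T h) mem_nil) cw13297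
theorem L3051 : LFK l3051 := fun D T h => lf_of_chk h (mem_cons (W128 D T h) (mem_cons (W1064 D T h) (mem_cons (W219 D T h) (mem_cons (W15 D T h) (mem_cons (W386 D T h) (mem_cons (W4209 D T h) (mem_cons (W4038 D T h) (mem_cons (W581 D T h) (mem_cons (W10045 D T h) (mem_cons (W8397 D T h) (mem_cons (W1192 D T h) mem_nil))))))))))) cl3051
theorem W13313 : WFK w13313 := fun D T h => wf_of_chk h mem_nil (mem_cons (L3051 D T h) mem_nil) cw13313
theorem W13315 : WFK w13315 := fun D T h => wf_of_chk h mem_nil (mem_cons (L152 D T h) mem_nil) cw13315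
theorem W13316 : WFK w13316 := fun D T h => wf_of_chk h mem_nil (mem_cons (L1700 D T h) mem_nil) cw13316
theorem W13317 : WFK w13317 := fun D T h => wf_of_chk h mem_nil (mem_cons (L1700 D T h) mem_nil) cw13317
theorem L3052 : LFK l3052 := fun D T h => lf_of_chk h (mem_cons (W774 D T h) (mem_cons (W33 D T h) (mem_cons (W1053 D T h) (mem_cons (W3778 D T h) (mem_cons (W13315 D T h) (mem_cons (W13316 D T h) (mem_cons (W10734 D T h) (mem_cons (W2492 D T h) (mem_cons (W5831 D T h) (mem_cons (W13317 D T h) mem_nil)))))))))) cl3052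
theorem W13318 : WFK w13318 := fun D T h => wf_of_chk h mem_nil (mem_cons (L3052 D T h) mem_nil) cw13318
theorem L3053 : LFK l3053 := fun D T h => lf_of_chk h (mem_cons (W1409 D T h) mem_nil) cl3053
theorem W13320 : WFK w13320 := fun D T h => wf_of_chk h mem_nil (mem_cons (L3053 D T h) mem_nil) cw13320
theorem W13323 : WFK w13323 := fun D T h => wf_of_chk h mem_nil (mem_cons (L110 D T h) mem_nil) cw13323
theorem W13332 : WFK w13332 := fun D T h => wf_of_chk h (mem_cons (W6774 D T h) mem_nil) mem_nil cw13332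
theorem L3055 : LFK l3055 := fun D T h => lf_of_chk h (mem_cons (W891 D T h) (mem_cons (W893 D T h) mem_nil)) cl3055
theorem W13334 : WFK w13334 := fun D T h => wf_of_chk h mem_nil (mem_cons (L3055 D T h) mem_nil) cw13334
theorem W13336 : WFK w13336 := fun D T h => wf_of_chk h mem_nil (mem_cons (L2256 D T h) mem_nil) cw13336
theorem W13342 : WFK w13342 := fun D T h => wf_of_chk h mem_nil (mem_cons (L3020 D T h) mem_nil) cw13342
theorem W13343 : WFK w13343 := fun D T h => wf_of_chk h mem_nil (mem_cons (L242 D T h) mem_nil) cw13343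
theorem W13344 : WFK w13344 := fun D T h => wf_of_chk h mem_nil (mem_cons (L242 D T h) mem_nil) cw13344
theorem L3057 : LFK l3057 := fun D T h => lf_of_chk h (mem_cons (W774 D T h) (mem_cons (W33 D T h) (mem_cons (W1112 D T h) (mem_cons (W1737 D T h) (mem_cons (W776 D T h) (mem_cons (W1380 D T h) (mem_cons (W13343 D T h) (mem_cons (W13344 D T h) (mem_cons (W160 D T h) (mem_cons (W2650 D T h) (mem_cons (W4613 D T h) (mem_cons (W4614 D T h) mem_nil)))))))))))) cl3057
theorem L3058 : LFK l3058 := fun D T h => lf_of_chk h (mem_cons (W774 D T h) (mem_cons (W33 D T h) (mem_cons (W2204 D T h) (mem_cons (W1737 D T h) (mem_cons (W776 D T h) (mem_cons (W3024 D T h) (mem_cons (W6961 D T h) mem_nil))))))) cl3058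
theorem W13362 : WFK w13362 := fun D T h => wf_of_chk h mem_nil (mem_cons (L823 D T h) mem_nil) cw13362
theorem W13364 : WFK w13364 := fun D T h => wf_of_chk h mem_nil (mem_cons (L90 D T h) mem_nil) cw13364
theorem W13383 : WFK w13383 := fun D T h => wf_of_chk h (mem_cons (W16 D T h) (mem_cons (W1412 D T h) mem_nil)) mem_nil cw13383
theorem W13384 : WFK w13384 := fun D T h => wf_of_chk h mem_nil mem_nil cw13384
theorem W13385 : WFK w13385 := fun D T h => wf_of_chk h mem_nil (mem_cons (L28 D T h) mem_nil) cw13385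
theorem L3065 : LFK l3065 := fun D T h => lf_of_chk h (mem_cons (W2088 D T h) (mem_cons (W173 D T h) (mem_cons (W13384 D T h) (mem_cons (W86 D T h) (mem_cons (W67 D T h) (mem_cons (W3774 D T h) (mem_cons (W13385 D T h) (mem_cons (W954 D T h) (mem_cons (W9642 D T h) (mem_cons (W4694 D T h) (mem_cons (W1245 D T h) (mem_cons (W950 D T h) (mem_cons (W2128 D T h) (mem_cons (W11488 D T h) (mem_cons (W2085 D T h) mem_nil))))))))))))))) cl3065
theorem W13386 : WFK w13386 := fun D T h => wf_of_chk h mem_nil (mem_cons (L3065 D T h) mem_nil) cw13386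
theorem W13387 : WFK w13387 := fun D T h => wf_of_chk h mem_nil (mem_cons (L3065 D T h) mem_nil) cw13387
theorem W13392 : WFK w13392 := fun D T h => wf_of_chk h mem_nil (mem_cons (L1073 D T h) mem_nil) cw13392
theorem W13422 : WFK w13422 := fun D T h => wf_of_chk h mem_nil (mem_cons (L1537 D T h) mem_nil) cw13422
theorem W13423 : WFK w13423 := fun D T h => wf_of_chk h (mem_cons (W3766 D T h) mem_nil) mem_nil cw13423
theorem W13424 : WFK w13424 := fun D T h => wf_of_chk h mem_nil (mem_cons (L1073 D T h) mem_nil) cw13424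
theorem W13425 : WFK w13425 := fun D T h => wf_of_chk h mem_nil (mem_cons (L1073 D T h) mem_nil) cw13425
theorem W13426 : WFK w13426 := fun D T h => wf_of_chk h (mem_cons (W10 D T h) (mem_cons (W3766 D T h) mem_nil)) mem_nil cw13426
theorem W13427 : WFK w13427 := fun D T h => wf_of_chk h mem_nil (mem_cons (L1073 D T h) mem_nil) cw13427
theorem W13428 : WFK w13428 := fun D T h => wf_of_chk h (mem_cons (W1 D T h) (mem_cons (W3766 D T h) mem_nil)) mem_nil cw13428
theorem W13429 : WFK w13429 := fun D T h => wf_of_chk h (mem_cons (W158 D T h) (mem_cons (W3766 D T h) mem_nil)) mem_nil cw13429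
theorem W13430 : WFK w13430 := fun D T h => wf_of_chk h (mem_cons (W91 D T h) (mem_cons (W3766 D T h) mem_nil)) mem_nil cw13430
theorem L3073 : LFK l3073 := fun D T h => lf_of_chk h (mem_cons (W5721 D T h) (mem_cons (W2628 D T h) (mem_cons (W13422 D T h) (mem_cons (W2916 D T h) (mem_cons (W3766 D T h) (mem_cons (W1 D T h) (mem_cons (W535 D T h) (mem_cons (W797 D T h) (mem_cons (W13051 D T h) (mem_cons (W4038 D T h) (mem_cons (W5157 D T h) (mem_cons (W7076 D T h) (mem_cons (W13423 D T h) (mem_cons (W13424 D T h) (mem_cons (W13425 D T h) (mem_cons (W13426 D T h) (mem_cons (W1919 D T h) (mem_cons (W1690 D T h) (mem_cons (W13046 D T h) (mem_cons (W13427 D T h) (mem_cons (W13428 D T h) (mem_cons (W181 D T h) (mem_cons (W8424 D T h) (mem_cons (W13429 D T h) (mem_cons (W7719 D T h) (mem_cons (W13430 D T h) mem_nil)))))))))))))))))))))))))) cl3073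
theorem W13431 : WFK w13431 := fun D T h => wf_of_chk h mem_nil (mem_cons (L3073 D T h) mem_nil) cw13431
theorem W13432 : WFK w13432 := fun D T h => wf_of_chk h (mem_cons (W13431 D T h) (mem_cons (W177 D T h) mem_nil)) mem_nil cw13432
theorem W13436 : WFK w13436 := fun D T h => wf_of_chk h (mem_cons (W155 D T h) mem_nil) mem_nil cw13436
theorem W13444 : WFK w13444 := fun D T h => wf_of_chk h (mem_cons (W206 D T h) (mem_cons (W155 D T h) mem_nil)) mem_nil cw13444
theorem W13445 : WFK w13445 := fun D T h => wf_of_chk h (mem_cons (W205 D T h) (mem_cons (W155 D T h) mem_nil)) mem_nil cw13445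
theorem W13446 : WFK w13446 := fun D T h => wf_of_chk h (mem_cons (W204 D T h) (mem_cons (W155 D T h) mem_nil)) mem_nil cw13446
theorem W13447 : WFK w13447 := fun D T h => wf_of_chk h (mem_cons (W3888 D T h) (mem_cons (W155 D T h) mem_nil)) mem_nil cw13447
theorem W13448 : WFK w13448 := fun D T h => wf_of_chk h (mem_cons (W4100 D T h) (mem_cons (W155 D T h) mem_nil)) mem_nil cw13448
theorem L3074 : LFK l3074 := fun D T h => lf_of_chk h (mem_cons (W1408 D T h) (mem_cons (W17 D T h) (mem_cons (W16 D T h) (mem_cons (W4209 D T h) (mem_cons (W13444 D T h) (mem_cons (W24 D T h) (mem_cons (W13445 D T h) (mem_cons (W13446 D T h) (mem_cons (W13447 D T h) (mem_cons (W3 D T h) (mem_cons (W13448 D T h) (mem_cons (W1448 D T h) (mem_cons (W1449 D T h) mem_nil))))))))))))) cl3074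
theorem W13449 : WFK w13449 := fun D T h => wf_of_chk h mem_nil (mem_cons (L3074 D T h) mem_nil) cw13449
theorem W13453 : WFK w13453 := fun D T h => wf_of_chk h (mem_cons (W206 D T h) (mem_cons (W2433 D T h) mem_nil)) mem_nil cw13453
theorem W13454 : WFK w13454 := fun D T h => wf_of_chk h (mem_cons (W205 D T h) (mem_cons (W2433 D T h) mem_nil)) mem_nil cw13454
theorem W13455 : WFK w13455 := fun D T h => wf_of_chk h (mem_cons (W204 D T h) (mem_cons (W2433 D T h) mem_nil)) mem_nil cw13455
theorem W13456 : WFK w13456 := fun D T h => wf_of_chk h (mem_cons (W3888 D T h) (mem_cons (W2433 D T h) mem_nil)) mem_nil cw13456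
theorem W13457 : WFK w13457 := fun D T h => wf_of_chk h (mem_cons (W4100 D T h) (mem_cons (W2433 D T h) mem_nil)) mem_nil cw13457
theorem L3075 : LFK l3075 := fun D T h => lf_of_chk h (mem_cons (W1408 D T h) (mem_cons (W17 D T h) (mem_cons (W16 D T h) (mem_cons (W4209 D T h) (mem_cons (W13453 D T h) (mem_cons (W24 D T h) (mem_cons (W13454 D T h) (mem_cons (W13455 D T h) (mem_cons (W13456 D T h) (mem_cons (W3 D T h) (mem_cons (W13457 D T h) (mem_cons (W1448 D T h) (mem_cons (W1449 D T h) mem_nil))))))))))))) cl3075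
theorem W13458 : WFK w13458 := fun D T h => wf_of_chk h mem_nil (mem_cons (L3075 D T h) mem_nil) cw13458
theorem L3076 : LFK l3076 := fun D T h => lf_of_chk h (mem_cons (W731 D T h) (mem_cons (W4 D T h) (mem_cons (W1748 D T h) (mem_cons (W3762 D T h) (mem_cons (W1260 D T h) (mem_cons (W1245 D T h) (mem_cons (W893 D T h) mem_nil))))))) cl3076
theorem W13459 : WFK w13459 := fun D T h => wf_of_chk h mem_nil (mem_cons (L3076 D T h) mem_nil) cw13459
theorem W13460 : WFK w13460 := fun D T h => wf_of_chk h (mem_cons (W13459 D T h) (mem_cons (W177 D T h) mem_nil)) mem_nil cw13460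
theorem L3077 : LFK l3077 := fun D T h => lf_of_chk h (mem_cons (W1326 D T h) (mem_cons (W1128 D T h) (mem_cons (W500 D T h) (mem_cons (W648 D T h) (mem_cons (W8264 D T h) (mem_cons (W368 D T h) (mem_cons (W1 D T h) (mem_cons (W4209 D T h) (mem_cons (W2740 D T h) (mem_cons (W13460 D T h) (mem_cons (W871 D T h) (mem_cons (W1540 D T h) (mem_cons (W748 D T h) (mem_cons (W257 D T h) (mem_cons (W112 D T h) (mem_cons (W2690 D T h) (mem_cons (W13 D T h) (mem_cons (W8265 D T h) mem_nil)))))))))))))))))) cl3077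
theorem W13461 : WFK w13461 := fun D T h => wf_of_chk h mem_nil (mem_cons (L3077 D T h) mem_nil) cw13461
theorem W13462 : WFK w13462 := fun D T h => wf_of_chk h mem_nil (mem_cons (L784 D T h) mem_nil) cw13462
theorem W13463 : WFK w13463 := fun D T h => wf_of_chk h mem_nil (mem_cons (L330 D T h) mem_nil) cw13463
theorem L3078 : LFK l3078 := fun D T h => lf_of_chk h (mem_cons (W3406 D T h) (mem_cons (W39 D T h) (mem_cons (W461 D T h) (mem_cons (W34 D T h) (mem_cons (W3 D T h) (mem_cons (W953 D T h) (mem_cons (W13463 D T h) (mem_cons (W954 D T h) (mem_cons (W955 D T h) (mem_cons (W603 D T h) (mem_cons (W1245 D T h) (mem_cons (W3339 D T h) (mem_cons (W861 D T h) (mem_cons (W13462 D T h) (mem_cons (W12887 D T h) (mem_cons (W12891 D T h) mem_nil)))))))))))))))) cl3078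
theorem W13464 : WFK w13464 := fun D T h => wf_of_chk h mem_nil (mem_cons (L3078 D T h) mem_nil) cw13464
theorem W13465 : WFK w13465 := fun D T h => wf_of_chk h (mem_cons (W13464 D T h) (mem_cons (W177 D T h) mem_nil)) mem_nil cw13465
theorem L3079 : LFK l3079 := fun D T h => lf_of_chk h (mem_cons (W1449 D T h) (mem_cons (W2015 D T h) (mem_cons (W6714 D T h) (mem_cons (W199 D T h) (mem_cons (W201 D T h) (mem_cons (W3 D T h) (mem_cons (W34 D T h) (mem_cons (W3407 D T h) (mem_cons (W3406 D T h) (mem_cons (W12 D T h) (mem_cons (W13 D T h) (mem_cons (W6103 D T h) (mem_cons (W12887 D T h) mem_nil))))))))))))) cl3079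
theorem W13466 : WFK w13466 := fun D T h => wf_of_chk h mem_nil (mem_cons (L3079 D T h) mem_nil) cw13466
theorem L3080 : LFK l3080 := fun D T h => lf_of_chk h (mem_cons (W8449 D T h) (mem_cons (W5875 D T h) (mem_cons (W7084 D T h) (mem_cons (W5874 D T h) (mem_cons (W42 D T h) (mem_cons (W386 D T h) (mem_cons (W1063 D T h) (mem_cons (W13313 D T h) (mem_cons (W12203 D T h) (mem_cons (W495 D T h) (mem_cons (W497 D T h) (mem_cons (W13432 D T h) (mem_cons (W2015 D T h) (mem_cons (W6714 D T h) (mem_cons (W13449 D T h) (mem_cons (W13465 D T h) (mem_cons (W8276 D T h) (mem_cons (W1449 D T h) (mem_cons (W7376 D T h) (mem_cons (W2051 D T h) (mem_cons (W13466 D T h) (mem_cons (W7436 D T h) (mem_cons (W581 D T h) (mem_cons (W1326 D T h) (mem_cons (W13458 D T h) (mem_cons (W7076 D T h) (mem_cons (W13461 D T h) (mem_cons (W12909 D T h) (mem_cons (W7559 D T h) (mem_cons (W12906 D T h) (mem_cons (W12900 D T h) mem_nil))))))))))))))))))))))))))))))) cl3080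
theorem W13467 : WFK w13467 := fun D T h => wf_of_chk h mem_nil (mem_cons (L3080 D T h) mem_nil) cw13467
theorem W13468 : WFK w13468 := fun D T h => wf_of_chk h (mem_cons (W368 D T h) (mem_cons (W3898 D T h) mem_nil)) mem_nil cw13468
theorem W13469 : WFK w13469 := fun D T h => wf_of_chk h (mem_cons (W370 D T h) (mem_cons (W3898 D T h) mem_nil)) mem_nil cw13469
theorem W13470 : WFK w13470 := fun D T h => wf_of_chk h (mem_cons (W384 D T h) (mem_cons (W3898 D T h) mem_nil)) mem_nil cw13470
theorem W13471 : WFK w13471 := fun D T h => wf_of_chk h (mem_cons (W373 D T h) (mem_cons (W3898 D T h) mem_nil)) mem_nil cw13471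
theorem W13472 : WFK w13472 := fun D T h => wf_of_chk h (mem_cons (W382 D T h) (mem_cons (W3898 D T h) mem_nil)) mem_nil cw13472
theorem W13473 : WFK w13473 := fun D T h => wf_of_chk h (mem_cons (W497 D T h) (mem_cons (W175 D T h) mem_nil)) mem_nil cw13473
theorem W13474 : WFK w13474 := fun D T h => wf_of_chk h (mem_cons (W497 D T h) (mem_cons (W175 D T h) mem_nil)) mem_nil cw13474
theorem W13475 : WFK w13475 := fun D T h => wf_of_chk h (mem_cons (W1170 D T h) (mem_cons (W177 D T h) mem_nil)) mem_nil cw13475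
theorem W13476 : WFK w13476 := fun D T h => wf_of_chk h (mem_cons (W32 D T h) (mem_cons (W177 D T h) mem_nil)) mem_nil cw13476
theorem W13477 : WFK w13477 := fun D T h => wf_of_chk h (mem_cons (W33 D T h) (mem_cons (W177 D T h) mem_nil)) mem_nil cw13477
theorem W13478 : WFK w13478 := fun D T h => wf_of_chk h mem_nil mem_nil cw13478
theorem L3081 : LFK l3081 := fun D T h => lf_of_chk h (mem_cons (W105 D T h) (mem_cons (W392 D T h) (mem_cons (W175 D T h) (mem_cons (W33 D T h) (mem_cons (W539 D T h) (mem_cons (W4698 D T h) (mem_cons (W359 D T h) (mem_cons (W13478 D T h) (mem_cons (W3105 D T h) (mem_cons (W13476 D T h) (mem_cons (W13477 D T h) mem_nil))))))))))) cl3081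
theorem W13479 : WFK w13479 := fun D T h => wf_of_chk h mem_nil (mem_cons (L3081 D T h) mem_nil) cw13479
theorem W13480 : WFK w13480 := fun D T h => wf_of_chk h (mem_cons (W7314 D T h) (mem_cons (W175 D T h) mem_nil)) mem_nil cw13480
theorem W13481 : WFK w13481 := fun D T h => wf_of_chk h (mem_cons (W7314 D T h) (mem_cons (W175 D T h) mem_nil)) mem_nil cw13481
theorem W13482 : WFK w13482 := fun D T h => wf_of_chk h (mem_cons (W13200 D T h) (mem_cons (W177 D T h) mem_nil)) mem_nil cw13482
theorem W13483 : WFK w13483 := fun D T h => wf_of_chk h mem_nil (mem_cons (L115 D T h) mem_nil) cw13483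
theorem W13484 : WFK w13484 := fun D T h => wf_of_chk h (mem_cons (W2548 D T h) (mem_cons (W177 D T h) mem_nil)) mem_nil cw13484
theorem W13485 : WFK w13485 := fun D T h => wf_of_chk h (mem_cons (W195 D T h) (mem_cons (W497 D T h) mem_nil)) mem_nil cw13485
theorem W13486 : WFK w13486 := fun D T h => wf_of_chk h (mem_cons (W397 D T h) (mem_cons (W495 D T h) mem_nil)) mem_nil cw13486
theorem W13487 : WFK w13487 := fun D T h => wf_of_chk h mem_nil (mem_cons (L96 D T h) mem_nil) cw13487
theorem W13488 : WFK w13488 := fun D T h => wf_of_chk h (mem_cons (W162 D T h) (mem_cons (W392 D T h) mem_nil)) mem_nil cw13488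
theorem W13489 : WFK w13489 := fun D T h => wf_of_chk h (mem_cons (W949 D T h) (mem_cons (W175 D T h) mem_nil)) mem_nil cw13489
theorem W13490 : WFK w13490 := fun D T h => wf_of_chk h (mem_cons (W949 D T h) (mem_cons (W175 D T h) mem_nil)) mem_nil cw13490
theorem W13491 : WFK w13491 := fun D T h => wf_of_chk h (mem_cons (W497 D T h) mem_nil) mem_nil cw13491
theorem W13492 : WFK w13492 := fun D T h => wf_of_chk h (mem_cons (W370 D T h) (mem_cons (W497 D T h) mem_nil)) mem_nil cw13492
theorem W13493 : WFK w13493 := fun D T h => wf_of_chk h (mem_cons (W495 D T h) (mem_cons (W373 D T h) mem_nil)) mem_nil cw13493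
theorem W13494 : WFK w13494 := fun D T h => wf_of_chk h (mem_cons (W495 D T h) (mem_cons (W373 D T h) mem_nil)) mem_nil cw13494
theorem W13495 : WFK w13495 := fun D T h => wf_of_chk h (mem_cons (W497 D T h) (mem_cons (W373 D T h) mem_nil)) mem_nil cw13495
theorem W13496 : WFK w13496 := fun D T h => wf_of_chk h (mem_cons (W16 D T h) (mem_cons (W1235 D T h) mem_nil)) mem_nil cw13496
theorem W13497 : WFK w13497 := fun D T h => wf_of_chk h (mem_cons (W505 D T h) (mem_cons (W497 D T h) mem_nil)) mem_nil cw13497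
theorem W13498 : WFK w13498 := fun D T h => wf_of_chk h (mem_cons (W508 D T h) (mem_cons (W373 D T h) mem_nil)) mem_nil cw13498
theorem L3082 : LFK l3082 := fun D T h => lf_of_chk h (mem_cons (W498 D T h) (mem_cons (W388 D T h) (mem_cons (W392 D T h) (mem_cons (W13475 D T h) (mem_cons (W114 D T h) (mem_cons (W4777 D T h) (mem_cons (W1449 D T h) (mem_cons (W13488 D T h) (mem_cons (W5874 D T h) (mem_cons (W13484 D T h) (mem_cons (W494 D T h) (mem_cons (W267 D T h) (mem_cons (W493 D T h) (mem_cons (W13489 D T h) (mem_cons (W13490 D T h) (mem_cons (W7084 D T h) (mem_cons (W6394 D T h) (mem_cons (W257 D T h) (mem_cons (W255 D T h) (mem_cons (W13479 D T h) (mem_cons (W13480 D T h) (mem_cons (W13481 D T h) (mem_cons (W13482 D T h) (mem_cons (W13483 D T h) (mem_cons (W497 D T h) (mem_cons (W495 D T h) (mem_cons (W373 D T h) (mem_cons (W177 D T h) (mem_cons (W13491 D T h) (mem_cons (W1235 D T h) (mem_cons (W4847 D T h) (mem_cons (W4566 D T h) (mem_cons (W3565 D T h) (mem_cons (W1408 D T h) (mem_cons (W13496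 D T h) (mem_cons (W13497 D T h) (mem_cons (W1634 D T h) (mem_cons (W358 D T h) (mem_cons (W13498 D T h) (mem_cons (W2800 D T h) (mem_cons (W13492 D T h) (mem_cons (W13493 D T h) (mem_cons (W13494 D T h) (mem_cons (W502 D T h) (mem_cons (W13495 D T h) (mem_cons (W393 D T h) (mem_cons (W397 D T h) (mem_cons (W13362 D T h) (mem_cons (W13485 D T h) (mem_cons (W13486 D T h) (mem_cons (W402 D T h) (mem_cons (W13487 D T h) (mem_cons (W13251 D T h) mem_nil))))))))))))))))))))))))))))))))))))))))))))))))))))) cl3082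
theorem W13499 : WFK w13499 := fun D T h => wf_of_chk h mem_nil (mem_cons (L3082 D T h) mem_nil) cw13499
theorem W13500 : WFK w13500 := fun D T h => wf_of_chk h mem_nil (mem_cons (L121 D T h) mem_nil) cw13500
theorem W13501 : WFK w13501 := fun D T h => wf_of_chk h mem_nil (mem_cons (L3082 D T h) mem_nil) cw13501
theorem W13502 : WFK w13502 := fun D T h => wf_of_chk h (mem_cons (W7230 D T h) (mem_cons (W175 D T h) mem_nil)) mem_nil cw13502
theorem W13503 : WFK w13503 := fun D T h => wf_of_chk h mem_nil (mem_cons (L3082 D T h) mem_nil) cw13503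
theorem W13504 : WFK w13504 := fun D T h => wf_of_chk h (mem_cons (W676 D T h) (mem_cons (W3898 D T h) mem_nil)) mem_nil cw13504
theorem W13505 : WFK w13505 := fun D T h => wf_of_chk h (mem_cons (W162 D T h) (mem_cons (W175 D T h) mem_nil)) mem_nil cw13505
theorem W13506 : WFK w13506 := fun D T h => wf_of_chk h (mem_cons (W1326 D T h) (mem_cons (W175 D T h) mem_nil)) mem_nil cw13506
theorem W13507 : WFK w13507 := fun D T h => wf_of_chk h (mem_cons (W7311 D T h) (mem_cons (W175 D T h) mem_nil)) mem_nil cw13507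
theorem W13508 : WFK w13508 := fun D T h => wf_of_chk h (mem_cons (W7311 D T h) (mem_cons (W175 D T h) mem_nil)) mem_nil cw13508
theorem W13509 : WFK w13509 := fun D T h => wf_of_chk h mem_nil (mem_cons (L866 D T h) mem_nil) cw13509
theorem W13510 : WFK w13510 := fun D T h => wf_of_chk h (mem_cons (W11772 D T h) (mem_cons (W175 D T h) mem_nil)) mem_nil cw13510
theorem W13511 : WFK w13511 := fun D T h => wf_of_chk h (mem_cons (W12872 D T h) (mem_cons (W175 D T h) mem_nil)) mem_nil cw13511
theorem W13512 : WFK w13512 := fun D T h => wf_of_chk h mem_nil (mem_cons (L3010 D T h) mem_nil) cw13512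
theorem W13513 : WFK w13513 := fun D T h => wf_of_chk h (mem_cons (W13466 D T h) (mem_cons (W175 D T h) mem_nil)) mem_nil cw13513
theorem W13515 : WFK w13515 := fun D T h => wf_of_chk h (mem_cons (W3953 D T h) (mem_cons (W175 D T h) mem_nil)) mem_nil cw13515
theorem L3083 : LFK l3083 := fun D T h => lf_of_chk h (mem_cons (W13131 D T h) (mem_cons (W177 D T h) (mem_cons (W175 D T h) (mem_cons (W3898 D T h) (mem_cons (W511 D T h) (mem_cons (W386 D T h) (mem_cons (W3815 D T h) (mem_cons (W680 D T h) (mem_cons (W13505 D T h) (mem_cons (W13466 D T h) (mem_cons (W13104 D T h) (mem_cons (W8449 D T h) (mem_cons (W13512 D T h) (mem_cons (W13111 D T h) (mem_cons (W7461 D T h) (mem_cons (W13513 D T h) (mem_cons (W3843 D T h) (mem_cons (W681 D T h) (mem_cons (W679 D T h) (mem_cons (W13515 D T h) (mem_cons (W9771 D T h) (mem_cons (W13506 D T h) (mem_cons (W12329 D T h) (mem_cons (W13507 D T h) (mem_cons (W13508 D T h) (mem_cons (W13509 D T h) (mem_cons (W13510 D T h) (mem_cons (W13511 D T h) (mem_cons (W13473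 D T h) (mem_cons (W13474 D T h) (mem_cons (W498 D T h) (mem_cons (W13499 D T h) (mem_cons (W13500 D T h) (mem_cons (W13501 D T h) (mem_cons (W13502 D T h) (mem_cons (W13503 D T h) (mem_cons (W5745 D T h) (mem_cons (W13220 D T h) (mem_cons (W13221 D T h) (mem_cons (W4078 D T h) (mem_cons (W4038 D T h) (mem_cons (W13467 D T h) (mem_cons (W13132 D T h) (mem_cons (W13218 D T h) (mem_cons (W13468 D T h) (mem_cons (W4209 D T h) (mem_cons (W1408 D T h) (mem_cons (W9763 D T h) (mem_cons (W13504 D T h) (mem_cons (W10828 D T h) (mem_cons (W3766 D T h) (mem_cons (W13469 D T h) (mem_cons (W13470 D T h) (mem_cons (W13471 D T h) (mem_cons (W502 D T h) (mem_cons (W13472 D T h) mem_nil)))))))))))))))))))))))))))))))))))))))))))))))))))))))) cl3083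
theorem W13516 : WFK w13516 := fun D T h => wf_of_chk h mem_nil (mem_cons (L3083 D T h) mem_nil) cw13516
theorem W13517 : WFK w13517 := fun D T h => wf_of_chk h mem_nil (mem_cons (L3010 D T h) mem_nil) cw13517
theorem W13518 : WFK w13518 := fun D T h => wf_of_chk h (mem_cons (W114 D T h) (mem_cons (W34 D T h) mem_nil)) mem_nil cw13518
theorem W13519 : WFK w13519 := fun D T h => wf_of_chk h (mem_cons (W6841 D T h) (mem_cons (W34 D T h) mem_nil)) mem_nil cw13519
theorem W13520 : WFK w13520 := fun D T h => wf_of_chk h (mem_cons (W7353 D T h) (mem_cons (W34 D T h) mem_nil)) mem_nil cw13520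
theorem W13521 : WFK w13521 := fun D T h => wf_of_chk h (mem_cons (W7466 D T h) (mem_cons (W34 D T h) mem_nil)) mem_nil cw13521
theorem W13522 : WFK w13522 := fun D T h => wf_of_chk h mem_nil (mem_cons (L1896 D T h) mem_nil) cw13522
theorem W13523 : WFK w13523 := fun D T h => wf_of_chk h (mem_cons (W6968 D T h) (mem_cons (W16 D T h) mem_nil)) mem_nil cw13523
theorem W13524 : WFK w13524 := fun D T h => wf_of_chk h (mem_cons (W11940 D T h) (mem_cons (W34 D T h) mem_nil)) mem_nil cw13524
theorem W13525 : WFK w13525 := fun D T h => wf_of_chk h (mem_cons (W7353 D T h) (mem_cons (W34 D T h) mem_nil)) mem_nil cw13525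
theorem W13526 : WFK w13526 := fun D T h => wf_of_chk h (mem_cons (W7466 D T h) (mem_cons (W34 D T h) mem_nil)) mem_nil cw13526
theorem W13527 : WFK w13527 := fun D T h => wf_of_chk h (mem_cons (W1207 D T h) (mem_cons (W34 D T h) mem_nil)) mem_nil cw13527
theorem W13528 : WFK w13528 := fun D T h => wf_of_chk h (mem_cons (W2936 D T h) (mem_cons (W34 D T h) mem_nil)) mem_nil cw13528
theorem W13529 : WFK w13529 := fun D T h => wf_of_chk h (mem_cons (W2228 D T h) (mem_cons (W16 D T h) mem_nil)) mem_nil cw13529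
theorem W13530 : WFK w13530 := fun D T h => wf_of_chk h (mem_cons (W114 D T h) (mem_cons (W16 D T h) mem_nil)) mem_nil cw13530
theorem W13531 : WFK w13531 := fun D T h => wf_of_chk h (mem_cons (W114 D T h) (mem_cons (W16 D T h) mem_nil)) mem_nil cw13531
theorem W13532 : WFK w13532 := fun D T h => wf_of_chk h (mem_cons (W1599 D T h) mem_nil) mem_nil cw13532
theorem W13533 : WFK w13533 := fun D T h => wf_of_chk h (mem_cons (W4162 D T h) (mem_cons (W16 D T h) mem_nil)) mem_nil cw13533
theorem W13534 : WFK w13534 := fun D T h => wf_of_chk h (mem_cons (W4162 D T h) (mem_cons (W16 D T h) mem_nil)) mem_nil cw13534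
theorem W13535 : WFK w13535 := fun D T h => wf_of_chk h (mem_cons (W9576 D T h) (mem_cons (W16 D T h) mem_nil)) mem_nil cw13535
theorem W13536 : WFK w13536 := fun D T h => wf_of_chk h mem_nil (mem_cons (L2017 D T h) mem_nil) cw13536
theorem W13537 : WFK w13537 := fun D T h => wf_of_chk h (mem_cons (W13536 D T h) (mem_cons (W16 D T h) mem_nil)) mem_nil cw13537
theorem W13538 : WFK w13538 := fun D T h => wf_of_chk h (mem_cons (W4766 D T h) (mem_cons (W16 D T h) mem_nil)) mem_nil cw13538
theorem W13539 : WFK w13539 := fun D T h => wf_of_chk h (mem_cons (W16 D T h) (mem_cons (W368 D T h) mem_nil)) mem_nil cw13539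
theorem W13540 : WFK w13540 := fun D T h => wf_of_chk h mem_nil (mem_cons (L753 D T h) mem_nil) cw13540
theorem W13541 : WFK w13541 := fun D T h => wf_of_chk h mem_nil (mem_cons (L2758 D T h) mem_nil) cw13541
theorem W13542 : WFK w13542 := fun D T h => wf_of_chk h (mem_cons (W2685 D T h) (mem_cons (W16 D T h) mem_nil)) mem_nil cw13542
theorem W13543 : WFK w13543 := fun D T h => wf_of_chk h (mem_cons (W2740 D T h) (mem_cons (W16 D T h) mem_nil)) mem_nil cw13543
theorem W13544 : WFK w13544 := fun D T h => wf_of_chk h (mem_cons (W2740 D T h) (mem_cons (W16 D T h) mem_nil)) mem_nil cw13544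
theorem W13545 : WFK w13545 := fun D T h => wf_of_chk h mem_nil (mem_cons (L201 D T h) mem_nil) cw13545
theorem W13546 : WFK w13546 := fun D T h => wf_of_chk h (mem_cons (W13545 D T h) (mem_cons (W16 D T h) mem_nil)) mem_nil cw13546
theorem W13547 : WFK w13547 := fun D T h => wf_of_chk h (mem_cons (W10059 D T h) (mem_cons (W16 D T h) mem_nil)) mem_nil cw13547
theorem W13548 : WFK w13548 := fun D T h => wf_of_chk h (mem_cons (W13541 D T h) (mem_cons (W16 D T h) mem_nil)) mem_nil cw13548
theorem W13549 : WFK w13549 := fun D T h => wf_of_chk h (mem_cons (W10253 D T h) (mem_cons (W16 D T h) mem_nil)) mem_nil cw13549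
theorem W13550 : WFK w13550 := fun D T h => wf_of_chk h (mem_cons (W3347 D T h) (mem_cons (W16 D T h) mem_nil)) mem_nil cw13550
theorem W13551 : WFK w13551 := fun D T h => wf_of_chk h (mem_cons (W1883 D T h) (mem_cons (W16 D T h) mem_nil)) mem_nil cw13551
theorem W13552 : WFK w13552 := fun D T h => wf_of_chk h (mem_cons (W1883 D T h) (mem_cons (W16 D T h) mem_nil)) mem_nil cw13552
theorem W13553 : WFK w13553 := fun D T h => wf_of_chk h (mem_cons (W162 D T h) (mem_cons (W368 D T h) mem_nil)) mem_nil cw13553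
theorem W13554 : WFK w13554 := fun D T h => wf_of_chk h mem_nil (mem_cons (L1022 D T h) mem_nil) cw13554
theorem W13555 : WFK w13555 := fun D T h => wf_of_chk h mem_nil (mem_cons (L1545 D T h) mem_nil) cw13555
theorem W13556 : WFK w13556 := fun D T h => wf_of_chk h mem_nil (mem_cons (L1537 D T h) mem_nil) cw13556
theorem L3084 : LFK l3084 := fun D T h => lf_of_chk h (mem_cons (W11320 D T h) (mem_cons (W1125 D T h) (mem_cons (W15 D T h) (mem_cons (W220 D T h) (mem_cons (W144 D T h) (mem_cons (W2916 D T h) (mem_cons (W2627 D T h) (mem_cons (W8332 D T h) (mem_cons (W4531 D T h) (mem_cons (W13556 D T h) (mem_cons (W8380 D T h) (mem_cons (W3958 D T h) (mem_cons (W2743 D T h) (mem_cons (W149 D T h) (mem_cons (W13554 D T h) (mem_cons (W11319 D T h) (mem_cons (W7359 D T h) (mem_cons (W13555 D T h) (mem_cons (W3478 D T h) (mem_cons (W497 D T h) (mem_cons (W8342 D T h) mem_nil))))))))))))))))))))) cl3084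
theorem W13557 : WFK w13557 := fun D T h => wf_of_chk h mem_nil (mem_cons (L3084 D T h) mem_nil) cw13557
theorem W13558 : WFK w13558 := fun D T h => wf_of_chk h mem_nil (mem_cons (L1264 D T h) mem_nil) cw13558
theorem W13559 : WFK w13559 := fun D T h => wf_of_chk h mem_nil (mem_cons (L3084 D T h) mem_nil) cw13559
theorem W13560 : WFK w13560 := fun D T h => wf_of_chk h mem_nil (mem_cons (L1350 D T h) mem_nil) cw13560
theorem W13561 : WFK w13561 := fun D T h => wf_of_chk h mem_nil (mem_cons (L1997 D T h) mem_nil) cw13561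
theorem W13562 : WFK w13562 := fun D T h => wf_of_chk h (mem_cons (W105 D T h) (mem_cons (W220 D T h) mem_nil)) mem_nil cw13562
theorem W13563 : WFK w13563 := fun D T h => wf_of_chk h mem_nil (mem_cons (L240 D T h) mem_nil) cw13563
theorem W13564 : WFK w13564 := fun D T h => wf_of_chk h (mem_cons (W13563 D T h) (mem_cons (W220 D T h) mem_nil)) mem_nil cw13564
theorem W13565 : WFK w13565 := fun D T h => wf_of_chk h mem_nil (mem_cons (L240 D T h) mem_nil) cw13565
theorem W13566 : WFK w13566 := fun D T h => wf_of_chk h (mem_cons (W13565 D T h) (mem_cons (W220 D T h) mem_nil)) mem_nil cw13566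
theorem W13567 : WFK w13567 := fun D T h => wf_of_chk h mem_nil (mem_cons (L1350 D T h) mem_nil) cw13567
theorem W13568 : WFK w13568 := fun D T h => wf_of_chk h (mem_cons (W13567 D T h) (mem_cons (W220 D T h) mem_nil)) mem_nil cw13568
theorem W13569 : WFK w13569 := fun D T h => wf_of_chk h mem_nil (mem_cons (L1279 D T h) mem_nil) cw13569
theorem W13570 : WFK w13570 := fun D T h => wf_of_chk h (mem_cons (W13569 D T h) (mem_cons (W220 D T h) mem_nil)) mem_nil cw13570
theorem W13571 : WFK w13571 := fun D T h => wf_of_chk h (mem_cons (W6572 D T h) (mem_cons (W220 D T h) mem_nil)) mem_nil cw13571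
theorem W13572 : WFK w13572 := fun D T h => wf_of_chk h (mem_cons (W69 D T h) (mem_cons (W2740 D T h) mem_nil)) mem_nil cw13572
theorem W13573 : WFK w13573 := fun D T h => wf_of_chk h (mem_cons (W69 D T h) (mem_cons (W2740 D T h) mem_nil)) mem_nil cw13573
theorem W13574 : WFK w13574 := fun D T h => wf_of_chk h (mem_cons (W220 D T h) (mem_cons (W2740 D T h) mem_nil)) mem_nil cw13574
theorem W13575 : WFK w13575 := fun D T h => wf_of_chk h (mem_cons (W864 D T h) (mem_cons (W220 D T h) mem_nil)) mem_nil cw13575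
theorem L3085 : LFK l3085 := fun D T h => lf_of_chk h (mem_cons (W7412 D T h) (mem_cons (W2448 D T h) (mem_cons (W2685 D T h) (mem_cons (W2740 D T h) (mem_cons (W4528 D T h) (mem_cons (W748 D T h) (mem_cons (W2743 D T h) (mem_cons (W6798 D T h) (mem_cons (W1326 D T h) (mem_cons (W13572 D T h) (mem_cons (W6797 D T h) (mem_cons (W3152 D T h) (mem_cons (W13561 D T h) (mem_cons (W13573 D T h) (mem_cons (W13574 D T h) (mem_cons (W1202 D T h) (mem_cons (W257 D T h) (mem_cons (W6780 D T h) (mem_cons (W13562 D T h) (mem_cons (W12971 D T h) (mem_cons (W1379 D T h) (mem_cons (W1110 D T h) (mem_cons (W13575 D T h) (mem_cons (W13560 D T h) (mem_cons (W9899 D T h) (mem_cons (W13564 D T h) (mem_cons (W13566 D T h) (mem_cons (W13568 D T h) (mem_cons (W6719 D T h) (mem_cons (W13570 D T h) (mem_cons (W13571 D T h) (mem_cons (W7417 D T h) mem_nil)))))))))))))))))))))))))))))))) cl3085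
theorem W13576 : WFK w13576 := fun D T h => wf_of_chk h mem_nil (mem_cons (L3085 D T h) mem_nil) cw13576
theorem W13577 : WFK w13577 := fun D T h => wf_of_chk h (mem_cons (W7353 D T h) (mem_cons (W368 D T h) mem_nil)) mem_nil cw13577
theorem W13578 : WFK w13578 := fun D T h => wf_of_chk h (mem_cons (W220 D T h) (mem_cons (W1125 D T h) mem_nil)) mem_nil cw13578
theorem W13588 : WFK w13588 := fun D T h => wf_of_chk h mem_nil (mem_cons (L878 D T h) mem_nil) cw13588
theorem W13590 : WFK w13590 := fun D T h => wf_of_chk h mem_nil (mem_cons (L533 D T h) mem_nil) cw13590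
theorem W13594 : WFK w13594 := fun D T h => wf_of_chk h (mem_cons (W7466 D T h) (mem_cons (W368 D T h) mem_nil)) mem_nil cw13594
theorem W13595 : WFK w13595 := fun D T h => wf_of_chk h (mem_cons (W5399 D T h) (mem_cons (W16 D T h) mem_nil)) mem_nil cw13595
theorem W13596 : WFK w13596 := fun D T h => wf_of_chk h mem_nil (mem_cons (L3079 D T h) mem_nil) cw13596
theorem W13597 : WFK w13597 := fun D T h => wf_of_chk h (mem_cons (W6714 D T h) (mem_cons (W16 D T h) mem_nil)) mem_nil cw13597
theorem W13598 : WFK w13598 := fun D T h => wf_of_chk h (mem_cons (W1207 D T h) (mem_cons (W368 D T h) mem_nil)) mem_nil cw13598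
theorem W13599 : WFK w13599 := fun D T h => wf_of_chk h (mem_cons (W162 D T h) (mem_cons (W1125 D T h) mem_nil)) mem_nil cw13599
theorem L3088 : LFK l3088 := fun D T h => lf_of_chk h (mem_cons (W13071 D T h) (mem_cons (W8766 D T h) (mem_cons (W13530 D T h) (mem_cons (W13531 D T h) (mem_cons (W1599 D T h) (mem_cons (W368 D T h) (mem_cons (W13539 D T h) (mem_cons (W16 D T h) (mem_cons (W13553 D T h) (mem_cons (W8449 D T h) (mem_cons (W13557 D T h) (mem_cons (W13598 D T h) (mem_cons (W13599 D T h) (mem_cons (W2934 D T h) (mem_cons (W284 D T h) (mem_cons (W13558 D T h) (mem_cons (W7401 D T h) (mem_cons (W2405 D T h) (mem_cons (W13559 D T h) (mem_cons (W13576 D T h) (mem_cons (W13577 D T h) (mem_cons (W13578 D T h) (mem_cons (W13594 D T h) (mem_cons (W2037 D T h) (mem_cons (W11966 D T h) (mem_cons (W8262 D T h) (mem_cons (W13540 D T h) (mem_cons (W13595 D T h) (mem_cons (W13596 D T h) (mem_cons (W13597 D T h) (mem_cons (W9432 D T h) (mem_cons (W13541 D T h) (mem_cons (W13542 D T h) (mem_cons (W13543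 D T h) (mem_cons (W13544 D T h) (mem_cons (W13546 D T h) (mem_cons (W13547 D T h) (mem_cons (W3921 D T h) (mem_cons (W11111 D T h) (mem_cons (W13548 D T h) (mem_cons (W13549 D T h) (mem_cons (W13070 D T h) (mem_cons (W2548 D T h) (mem_cons (W8342 D T h) (mem_cons (W34 D T h) (mem_cons (W13550 D T h) (mem_cons (W13551 D T h) (mem_cons (W13552 D T h) (mem_cons (W13532 D T h) (mem_cons (W13533 D T h) (mem_cons (W13534 D T h) (mem_cons (W13535 D T h) (mem_cons (W13537 D T h) (mem_cons (W11065 D T h) (mem_cons (W13538 D T h) mem_nil))))))))))))))))))))))))))))))))))))))))))))))))))))))) cl3088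
theorem W13600 : WFK w13600 := fun D T h => wf_of_chk h mem_nil (mem_cons (L3088 D T h) mem_nil) cw13600
theorem W13601 : WFK w13601 := fun D T h => wf_of_chk h (mem_cons (W8397 D T h) (mem_cons (W16 D T h) mem_nil)) mem_nil cw13601
theorem W13602 : WFK w13602 := fun D T h => wf_of_chk h (mem_cons (W1192 D T h) (mem_cons (W16 D T h) mem_nil)) mem_nil cw13602
theorem W13603 : WFK w13603 := fun D T h => wf_of_chk h (mem_cons (W83 D T h) (mem_cons (W1599 D T h) mem_nil)) mem_nil cw13603
theorem W13604 : WFK w13604 := fun D T h => wf_of_chk h (mem_cons (W3035 D T h) (mem_cons (W1599 D T h) mem_nil)) mem_nil cw13604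
theorem W13605 : WFK w13605 := fun D T h => wf_of_chk h (mem_cons (W2936 D T h) (mem_cons (W34 D T h) mem_nil)) mem_nil cw13605
theorem W13607 : WFK w13607 := fun D T h => wf_of_chk h (mem_cons (W12203 D T h) (mem_cons (W16 D T h) mem_nil)) mem_nil cw13607
theorem L3089 : LFK l3089 := fun D T h => lf_of_chk h (mem_cons (W13517 D T h) (mem_cons (W7864 D T h) (mem_cons (W12508 D T h) (mem_cons (W3973 D T h) (mem_cons (W8449 D T h) (mem_cons (W7436 D T h) (mem_cons (W1599 D T h) (mem_cons (W12203 D T h) (mem_cons (W2839 D T h) (mem_cons (W2272 D T h) (mem_cons (W16 D T h) (mem_cons (W13104 D T h) (mem_cons (W13527 D T h) (mem_cons (W13528 D T h) (mem_cons (W13518 D T h) (mem_cons (W7401 D T h) (mem_cons (W2405 D T h) (mem_cons (W284 D T h) (mem_cons (W13106 D T h) (mem_cons (W13519 D T h) (mem_cons (W13520 D T h) (mem_cons (W13521 D T h) (mem_cons (W6758 D T h) (mem_cons (W8236 D T h) (mem_cons (W8257 D T h) (mem_cons (W13466 D T h) (mem_cons (W13597 D T h) (mem_cons (W13596 D T h) (mem_cons (W13605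 D T h) (mem_cons (W7410 D T h) (mem_cons (W13522 D T h) (mem_cons (W5211 D T h) (mem_cons (W13523 D T h) (mem_cons (W13524 D T h) (mem_cons (W3921 D T h) (mem_cons (W11111 D T h) (mem_cons (W13525 D T h) (mem_cons (W13526 D T h) (mem_cons (W13529 D T h) (mem_cons (W11869 D T h) (mem_cons (W13530 D T h) (mem_cons (W13531 D T h) (mem_cons (W13600 D T h) (mem_cons (W13601 D T h) (mem_cons (W13602 D T h) (mem_cons (W13603 D T h) (mem_cons (W13604 D T h) (mem_cons (W13081 D T h) (mem_cons (W9005 D T h) (mem_cons (W13607 D T h) mem_nil)))))))))))))))))))))))))))))))))))))))))))))))))) cl3089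
theorem W13608 : WFK w13608 := fun D T h => wf_of_chk h mem_nil (mem_cons (L3089 D T h) mem_nil) cw13608
theorem W13614 : WFK w13614 := fun D T h => wf_of_chk h mem_nil (mem_cons (L3058 D T h) mem_nil) cw13614
theorem W13615 : WFK w13615 := fun D T h => wf_of_chk h mem_nil (mem_cons (L3057 D T h) mem_nil) cw13615
theorem L3090 : LFK l3090 := fun D T h => lf_of_chk h (mem_cons (W5157 D T h) (mem_cons (W1 D T h) (mem_cons (W5158 D T h) (mem_cons (W501 D T h) (mem_cons (W5159 D T h) (mem_cons (W149 D T h) (mem_cons (W638 D T h) (mem_cons (W2922 D T h) (mem_cons (W13614 D T h) (mem_cons (W5606 D T h) (mem_cons (W1110 D T h) (mem_cons (W1960 D T h) (mem_cons (W9056 D T h) (mem_cons (W6700 D T h) (mem_cons (W13615 D T h) mem_nil))))))))))))))) cl3090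
theorem W13616 : WFK w13616 := fun D T h => wf_of_chk h mem_nil (mem_cons (L3090 D T h) mem_nil) cw13616
theorem L3091 : LFK l3091 := fun D T h => lf_of_chk h (mem_cons (W872 D T h) (mem_cons (W4 D T h) (mem_cons (W731 D T h) (mem_cons (W5606 D T h) (mem_cons (W10132 D T h) mem_nil))))) cl3091
theorem W13617 : WFK w13617 := fun D T h => wf_of_chk h mem_nil (mem_cons (L3091 D T h) mem_nil) cw13617
theorem L3092 : LFK l3092 := fun D T h => lf_of_chk h (mem_cons (W898 D T h) mem_nil) cl3092
theorem W13618 : WFK w13618 := fun D T h => wf_of_chk h mem_nil (mem_cons (L3092 D T h) mem_nil) cw13618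
theorem W13619 : WFK w13619 := fun D T h => wf_of_chk h mem_nil (mem_cons (L65 D T h) mem_nil) cw13619
theorem W13620 : WFK w13620 := fun D T h => wf_of_chk h mem_nil (mem_cons (L242 D T h) mem_nil) cw13620
theorem L3093 : LFK l3093 := fun D T h => lf_of_chk h (mem_cons (W5606 D T h) (mem_cons (W33 D T h) (mem_cons (W13618 D T h) (mem_cons (W13619 D T h) (mem_cons (W233 D T h) (mem_cons (W8 D T h) (mem_cons (W13620 D T h) (mem_cons (W328 D T h) (mem_cons (W831 D T h) (mem_cons (W7171 D T h) mem_nil)))))))))) cl3093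
theorem L3094 : LFK l3094 := fun D T h => lf_of_chk h (mem_cons (W5606 D T h) (mem_cons (W4 D T h) (mem_cons (W124 D T h) (mem_cons (W831 D T h) (mem_cons (W2007 D T h) (mem_cons (W888 D T h) mem_nil)))))) cl3094
theorem W13622 : WFK w13622 := fun D T h => wf_of_chk h mem_nil (mem_cons (L3094 D T h) mem_nil) cw13622
theorem W13623 : WFK w13623 := fun D T h => wf_of_chk h mem_nil (mem_cons (L303 D T h) mem_nil) cw13623
theorem W13626 : WFK w13626 := fun D T h => wf_of_chk h (mem_cons (W128 D T h) mem_nil) mem_nil cw13626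
theorem W13634 : WFK w13634 := fun D T h => wf_of_chk h mem_nil (mem_cons (L1545 D T h) mem_nil) cw13634
theorem W13635 : WFK w13635 := fun D T h => wf_of_chk h mem_nil (mem_cons (L1545 D T h) mem_nil) cw13635
theorem W13636 : WFK w13636 := fun D T h => wf_of_chk h mem_nil (mem_cons (L2582 D T h) mem_nil) cw13636
theorem W13637 : WFK w13637 := fun D T h => wf_of_chk h mem_nil (mem_cons (L1258 D T h) mem_nil) cw13637
theorem W13640 : WFK w13640 := fun D T h => wf_of_chk h (mem_cons (W16 D T h) (mem_cons (W5841 D T h) mem_nil)) mem_nil cw13640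
theorem W13641 : WFK w13641 := fun D T h => wf_of_chk h mem_nil (mem_cons (L134 D T h) mem_nil) cw13641
theorem W13643 : WFK w13643 := fun D T h => wf_of_chk h mem_nil (mem_cons (L3094 D T h) mem_nil) cw13643
theorem W13644 : WFK w13644 := fun D T h => wf_of_chk h mem_nil (mem_cons (L1094 D T h) mem_nil) cw13644
theorem W13655 : WFK w13655 := fun D T h => wf_of_chk h (mem_cons (W13622 D T h) mem_nil) mem_nil cw13655
theorem W13656 : WFK w13656 := fun D T h => wf_of_chk h (mem_cons (W2548 D T h) mem_nil) mem_nil cw13656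
theorem W13663 : WFK w13663 := fun D T h => wf_of_chk h (mem_cons (W16 D T h) (mem_cons (W7171 D T h) mem_nil)) mem_nil cw13663
theorem W13667 : WFK w13667 := fun D T h => wf_of_chk h (mem_cons (W13250 D T h) mem_nil) mem_nil cw13667
theorem W13672 : WFK w13672 := fun D T h => wf_of_chk h mem_nil mem_nil cw13672
theorem W13674 : WFK w13674 := fun D T h => wf_of_chk h mem_nil mem_nil cw13674
theorem W13681 : WFK w13681 := fun D T h => wf_of_chk h (mem_cons (W898 D T h) mem_nil) mem_nil cw13681
theorem W13685 : WFK w13685 := fun D T h => wf_of_chk h (mem_cons (W1139 D T h) mem_nil) mem_nil cw13685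
theorem W13692 : WFK w13692 := fun D T h => wf_of_chk h mem_nil (mem_cons (L1598 D T h) mem_nil) cw13692
theorem W13701 : WFK w13701 := fun D T h => wf_of_chk h mem_nil (mem_cons (L1538 D T h) mem_nil) cw13701
theorem W13711 : WFK w13711 := fun D T h => wf_of_chk h (mem_cons (W8342 D T h) mem_nil) mem_nil cw13711
theorem W13717 : WFK w13717 := fun D T h => wf_of_chk h (mem_cons (W2122 D T h) mem_nil) mem_nil cw13717
theorem W13720 : WFK w13720 := fun D T h => wf_of_chk h mem_nil (mem_cons (L1407 D T h) mem_nil) cw13720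
theorem W13721 : WFK w13721 := fun D T h => wf_of_chk h mem_nil (mem_cons (L2397 D T h) mem_nil) cw13721
theorem W13722 : WFK w13722 := fun D T h => wf_of_chk h mem_nil (mem_cons (L860 D T h) mem_nil) cw13722
theorem W13723 : WFK w13723 := fun D T h => wf_of_chk h (mem_cons (W161 D T h) mem_nil) mem_nil cw13723
theorem W13724 : WFK w13724 := fun D T h => wf_of_chk h mem_nil (mem_cons (L3052 D T h) mem_nil) cw13724
theorem L3105 : LFK l3105 := fun D T h => lf_of_chk h (mem_cons (W5606 D T h) (mem_cons (W33 D T h) (mem_cons (W1101 D T h) (mem_cons (W13315 D T h) (mem_cons (W13316 D T h) (mem_cons (W10734 D T h) (mem_cons (W2492 D T h) (mem_cons (W5831 D T h) (mem_cons (W13317 D T h) (mem_cons (W774 D T h) mem_nil)))))))))) cl3105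
theorem W13725 : WFK w13725 := fun D T h => wf_of_chk h mem_nil (mem_cons (L3105 D T h) mem_nil) cw13725
theorem L3106 : LFK l3106 := fun D T h => lf_of_chk h (mem_cons (W13615 D T h) (mem_cons (W858 D T h) (mem_cons (W501 D T h) (mem_cons (W161 D T h) (mem_cons (W774 D T h) (mem_cons (W1539 D T h) (mem_cons (W6678 D T h) (mem_cons (W5606 D T h) (mem_cons (W1110 D T h) (mem_cons (W1960 D T h) (mem_cons (W13724 D T h) (mem_cons (W13725 D T h) (mem_cons (W11766 D T h) (mem_cons (W13364 D T h) (mem_cons (W13722 D T h) (mem_cons (W4116 D T h) (mem_cons (W650 D T h) (mem_cons (W13723 D T h) (mem_cons (W13721 D T h) mem_nil))))))))))))))))))) cl3106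
theorem W13726 : WFK w13726 := fun D T h => wf_of_chk h mem_nil (mem_cons (L3106 D T h) mem_nil) cw13726
theorem W13727 : WFK w13727 := fun D T h => wf_of_chk h mem_nil (mem_cons (L1646 D T h) mem_nil) cw13727
theorem W13728 : WFK w13728 := fun D T h => wf_of_chk h mem_nil (mem_cons (L244 D T h) mem_nil) cw13728
theorem L3107 : LFK l3107 := fun D T h => lf_of_chk h (mem_cons (W13724 D T h) (mem_cons (W576 D T h) (mem_cons (W11764 D T h) (mem_cons (W281 D T h) (mem_cons (W149 D T h) (mem_cons (W638 D T h) (mem_cons (W2922 D T h) (mem_cons (W13614 D T h) (mem_cons (W5606 D T h) (mem_cons (W1110 D T h) (mem_cons (W1960 D T h) (mem_cons (W13725 D T h) (mem_cons (W13364 D T h) (mem_cons (W13722 D T h) (mem_cons (W4116 D T h) (mem_cons (W650 D T h) (mem_cons (W13728 D T h) (mem_cons (W13727 D T h) mem_nil)))))))))))))))))) cl3107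
theorem W13729 : WFK w13729 := fun D T h => wf_of_chk h mem_nil (mem_cons (L3107 D T h) mem_nil) cw13729
theorem L3108 : LFK l3108 := fun D T h => lf_of_chk h (mem_cons (W5721 D T h) (mem_cons (W535 D T h) (mem_cons (W7076 D T h) (mem_cons (W797 D T h) (mem_cons (W1 D T h) (mem_cons (W114 D T h) (mem_cons (W2627 D T h) (mem_cons (W7541 D T h) (mem_cons (W181 D T h) (mem_cons (W13720 D T h) (mem_cons (W6176 D T h) (mem_cons (W7528 D T h) (mem_cons (W34 D T h) (mem_cons (W1919 D T h) (mem_cons (W1690 D T h) (mem_cons (W1312 D T h) (mem_cons (W13726 D T h) (mem_cons (W13729 D T h) (mem_cons (W4038 D T h) (mem_cons (W5157 D T h) mem_nil)))))))))))))))))))) cl3108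
theorem W13730 : WFK w13730 := fun D T h => wf_of_chk h mem_nil (mem_cons (L3108 D T h) mem_nil) cw13730
theorem W13731 : WFK w13731 := fun D T h => wf_of_chk h (mem_cons (W13730 D T h) mem_nil) mem_nil cw13731
theorem W13732 : WFK w13732 := fun D T h => wf_of_chk h (mem_cons (W871 D T h) mem_nil) mem_nil cw13732
theorem W13733 : WFK w13733 := fun D T h => wf_of_chk h (mem_cons (W78 D T h) (mem_cons (W220 D T h) mem_nil)) mem_nil cw13733
theorem W13734 : WFK w13734 := fun D T h => wf_of_chk h (mem_cons (W11459 D T h) (mem_cons (W220 D T h) mem_nil)) mem_nil cw13734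
theorem W13735 : WFK w13735 := fun D T h => wf_of_chk h mem_nil (mem_cons (L2582 D T h) mem_nil) cw13735
theorem W13736 : WFK w13736 := fun D T h => wf_of_chk h mem_nil (mem_cons (L1680 D T h) mem_nil) cw13736
theorem L3109 : LFK l3109 := fun D T h => lf_of_chk h (mem_cons (W281 D T h) (mem_cons (W10 D T h) (mem_cons (W40 D T h) (mem_cons (W1534 D T h) (mem_cons (W8 D T h) (mem_cons (W315 D T h) (mem_cons (W5606 D T h) mem_nil))))))) cl3109
theorem W13737 : WFK w13737 := fun D T h => wf_of_chk h mem_nil (mem_cons (L3109 D T h) mem_nil) cw13737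
theorem W13738 : WFK w13738 := fun D T h => wf_of_chk h mem_nil (mem_cons (L2582 D T h) mem_nil) cw13738
theorem W13739 : WFK w13739 := fun D T h => wf_of_chk h mem_nil (mem_cons (L2582 D T h) mem_nil) cw13739
theorem L3110 : LFK l3110 := fun D T h => lf_of_chk h (mem_cons (W13250 D T h) (mem_cons (W2844 D T h) (mem_cons (W220 D T h) (mem_cons (W972 D T h) (mem_cons (W281 D T h) (mem_cons (W13297 D T h) (mem_cons (W13424 D T h) (mem_cons (W13737 D T h) (mem_cons (W13392 D T h) (mem_cons (W4262 D T h) (mem_cons (W6899 D T h) (mem_cons (W370 D T h) (mem_cons (W13738 D T h) (mem_cons (W7268 D T h) (mem_cons (W13739 D T h) (mem_cons (W13735 D T h) (mem_cons (W13732 D T h) (mem_cons (W6749 D T h) (mem_cons (W8715 D T h) (mem_cons (W13733 D T h) (mem_cons (W13012 D T h) (mem_cons (W13734 D T h) (mem_cons (W13014 D T h) (mem_cons (W13015 D T h) (mem_cons (W7255 D T h) (mem_cons (W7246 D T h) (mem_cons (W495 D T h) (mem_cons (W13736 D T h) (mem_cons (W11270 D T h) (mem_cons (W69 D T h) (mem_cons (W1 D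 T h) (mem_cons (W13209 D T h) mem_nil)))))))))))))))))))))))))))))))) cl3110
theorem W13740 : WFK w13740 := fun D T h => wf_of_chk h mem_nil (mem_cons (L3110 D T h) mem_nil) cw13740
theorem W13741 : WFK w13741 := fun D T h => wf_of_chk h (mem_cons (W13740 D T h) mem_nil) mem_nil cw13741
theorem W13742 : WFK w13742 := fun D T h => wf_of_chk h (mem_cons (W13655 D T h) (mem_cons (W16 D T h) mem_nil)) mem_nil cw13742
theorem W13743 : WFK w13743 := fun D T h => wf_of_chk h (mem_cons (W12168 D T h) mem_nil) mem_nil cw13743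
theorem W13744 : WFK w13744 := fun D T h => wf_of_chk h (mem_cons (W13743 D T h) (mem_cons (W16 D T h) mem_nil)) mem_nil cw13744
theorem W13745 : WFK w13745 := fun D T h => wf_of_chk h mem_nil (mem_cons (L1997 D T h) mem_nil) cw13745
theorem W13746 : WFK w13746 := fun D T h => wf_of_chk h (mem_cons (W2489 D T h) mem_nil) mem_nil cw13746
theorem W13748 : WFK w13748 := fun D T h => wf_of_chk h (mem_cons (W401 D T h) mem_nil) mem_nil cw13748
theorem L3111 : LFK l3111 := fun D T h => lf_of_chk h (mem_cons (W13623 D T h) (mem_cons (W1326 D T h) (mem_cons (W220 D T h) (mem_cons (W86 D T h) (mem_cons (W651 D T h) (mem_cons (W6797 D T h) (mem_cons (W1379 D T h) (mem_cons (W11312 D T h) (mem_cons (W3 D T h) (mem_cons (W13746 D T h) (mem_cons (W4448 D T h) (mem_cons (W13748 D T h) (mem_cons (W13745 D T h) (mem_cons (W13616 D T h) (mem_cons (W13622 D T h) mem_nil))))))))))))))) cl3111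
theorem W13749 : WFK w13749 := fun D T h => wf_of_chk h mem_nil (mem_cons (L3111 D T h) mem_nil) cw13749
theorem W13750 : WFK w13750 := fun D T h => wf_of_chk h (mem_cons (W1312 D T h) mem_nil) mem_nil cw13750
theorem W13751 : WFK w13751 := fun D T h => wf_of_chk h (mem_cons (W12967 D T h) mem_nil) mem_nil cw13751
theorem W13752 : WFK w13752 := fun D T h => wf_of_chk h (mem_cons (W5415 D T h) mem_nil) mem_nil cw13752
theorem W13753 : WFK w13753 := fun D T h => wf_of_chk h (mem_cons (W69 D T h) (mem_cons (W864 D T h) mem_nil)) mem_nil cw13753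
theorem W13754 : WFK w13754 := fun D T h => wf_of_chk h mem_nil (mem_cons (L3094 D T h) mem_nil) cw13754
theorem W13755 : WFK w13755 := fun D T h => wf_of_chk h (mem_cons (W2489 D T h) (mem_cons (W281 D T h) mem_nil)) mem_nil cw13755
theorem W13756 : WFK w13756 := fun D T h => wf_of_chk h (mem_cons (W1326 D T h) mem_nil) mem_nil cw13756
theorem L3112 : LFK l3112 := fun D T h => lf_of_chk h (mem_cons (W13622 D T h) (mem_cons (W1326 D T h) (mem_cons (W401 D T h) (mem_cons (W83 D T h) (mem_cons (W864 D T h) (mem_cons (W4566 D T h) (mem_cons (W85 D T h) (mem_cons (W6797 D T h) (mem_cons (W13756 D T h) (mem_cons (W5606 D T h) (mem_cons (W13752 D T h) (mem_cons (W13643 D T h) (mem_cons (W6807 D T h) (mem_cons (W13753 D T h) (mem_cons (W13541 D T h) (mem_cons (W13754 D T h) (mem_cons (W4555 D T h) (mem_cons (W86 D T h) (mem_cons (W13755 D T h) (mem_cons (W13745 D T h) (mem_cons (W13617 D T h) (mem_cons (W11228 D T h) (mem_cons (W88 D T h) mem_nil))))))))))))))))))))))) cl3112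
theorem W13757 : WFK w13757 := fun D T h => wf_of_chk h mem_nil (mem_cons (L3112 D T h) mem_nil) cw13757
theorem L3113 : LFK l3113 := fun D T h => lf_of_chk h (mem_cons (W5258 D T h) (mem_cons (W3953 D T h) (mem_cons (W69 D T h) (mem_cons (W1 D T h) (mem_cons (W1207 D T h) (mem_cons (W366 D T h) (mem_cons (W4531 D T h) (mem_cons (W13033 D T h) (mem_cons (W4256 D T h) (mem_cons (W4209 D T h) (mem_cons (W13035 D T h) (mem_cons (W13751 D T h) (mem_cons (W11065 D T h) (mem_cons (W616 D T h) (mem_cons (W13032 D T h) (mem_cons (W13749 D T h) (mem_cons (W13750 D T h) (mem_cons (W6891 D T h) (mem_cons (W126 D T h) (mem_cons (W13757 D T h) mem_nil)))))))))))))))))))) cl3113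
theorem W13758 : WFK w13758 := fun D T h => wf_of_chk h mem_nil (mem_cons (L3113 D T h) mem_nil) cw13758
theorem W13759 : WFK w13759 := fun D T h => wf_of_chk h (mem_cons (W13758 D T h) mem_nil) mem_nil cw13759
theorem W13760 : WFK w13760 := fun D T h => wf_of_chk h (mem_cons (W162 D T h) (mem_cons (W13743 D T h) mem_nil)) mem_nil cw13760
theorem W13761 : WFK w13761 := fun D T h => wf_of_chk h (mem_cons (W1125 D T h) mem_nil) mem_nil cw13761
theorem W13762 : WFK w13762 := fun D T h => wf_of_chk h (mem_cons (W13761 D T h) (mem_cons (W16 D T h) mem_nil)) mem_nil cw13762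
theorem W13763 : WFK w13763 := fun D T h => wf_of_chk h (mem_cons (W1312 D T h) mem_nil) mem_nil cw13763
theorem W13764 : WFK w13764 := fun D T h => wf_of_chk h (mem_cons (W13763 D T h) (mem_cons (W16 D T h) mem_nil)) mem_nil cw13764
theorem W13765 : WFK w13765 := fun D T h => wf_of_chk h mem_nil (mem_cons (L2637 D T h) mem_nil) cw13765
theorem W13766 : WFK w13766 := fun D T h => wf_of_chk h (mem_cons (W1412 D T h) (mem_cons (W337 D T h) mem_nil)) mem_nil cw13766
theorem W13767 : WFK w13767 := fun D T h => wf_of_chk h mem_nil (mem_cons (L3038 D T h) mem_nil) cw13767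
theorem L3114 : LFK l3114 := fun D T h => lf_of_chk h (mem_cons (W13111 D T h) (mem_cons (W16 D T h) (mem_cons (W12203 D T h) (mem_cons (W337 D T h) (mem_cons (W2839 D T h) (mem_cons (W1599 D T h) (mem_cons (W3973 D T h) (mem_cons (W8449 D T h) (mem_cons (W8111 D T h) (mem_cons (W3974 D T h) (mem_cons (W13126 D T h) (mem_cons (W7878 D T h) (mem_cons (W13765 D T h) (mem_cons (W13766 D T h) (mem_cons (W13767 D T h) (mem_cons (W13129 D T h) (mem_cons (W13711 D T h) (mem_cons (W13656 D T h) (mem_cons (W13667 D T h) (mem_cons (W12628 D T h) (mem_cons (W13762 D T h) (mem_cons (W13122 D T h) (mem_cons (W13123 D T h) (mem_cons (W8746 D T h) (mem_cons (W13124 D T h) (mem_cons (W13764 D T h) (mem_cons (W5567 D T h) (mem_cons (W2936 D T h) (mem_cons (W13744 D T h) (mem_cons (W12522 D T h) (mem_cons (W12366 D T h) (mem_cons (W12621 D T h) (mem_cons (W5212 D T h) (mem_cons (W13655 D T h) (mem_cons (W13113 D T h) (mem_cons (W13138 D T h) (mem_cons (W8417 D T h) (mem_cons (W13742 D T h) (mem_cons (W13140 D T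 h) (mem_cons (W3408 D T h) (mem_cons (W13104 D T h) (mem_cons (W13759 D T h) (mem_cons (W2934 D T h) (mem_cons (W13760 D T h) (mem_cons (W284 D T h) (mem_cons (W12634 D T h) (mem_cons (W13731 D T h) (mem_cons (W11320 D T h) (mem_cons (W13106 D T h) (mem_cons (W13108 D T h) (mem_cons (W13107 D T h) (mem_cons (W13741 D T h) mem_nil)))))))))))))))))))))))))))))))))))))))))))))))))))) cl3114
theorem W13768 : WFK w13768 := fun D T h => wf_of_chk h mem_nil (mem_cons (L3114 D T h) mem_nil) cw13768
theorem W13770 : WFK w13770 := fun D T h => wf_of_chk h (mem_cons (W86 D T h) mem_nil) mem_nil cw13770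
theorem W13771 : WFK w13771 := fun D T h => wf_of_chk h (mem_cons (W220 D T h) (mem_cons (W4784 D T h) mem_nil)) mem_nil cw13771
theorem W13774 : WFK w13774 := fun D T h => wf_of_chk h (mem_cons (W105 D T h) mem_nil) mem_nil cw13774
theorem W13775 : WFK w13775 := fun D T h => wf_of_chk h (mem_cons (W80 D T h) mem_nil) mem_nil cw13775
theorem W13790 : WFK w13790 := fun D T h => wf_of_chk h (mem_cons (W1919 D T h) (mem_cons (W16 D T h) mem_nil)) mem_nil cw13790
theorem W13792 : WFK w13792 := fun D T h => wf_of_chk h (mem_cons (W220 D T h) (mem_cons (W85 D T h) mem_nil)) mem_nil cw13792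
theorem W13793 : WFK w13793 := fun D T h => wf_of_chk h (mem_cons (W6776 D T h) (mem_cons (W16 D T h) mem_nil)) mem_nil cw13793
theorem W13801 : WFK w13801 := fun D T h => wf_of_chk h mem_nil (mem_cons (L84 D T h) mem_nil) cw13801
theorem W13804 : WFK w13804 := fun D T h => wf_of_chk h (mem_cons (W80 D T h) (mem_cons (W337 D T h) mem_nil)) mem_nil cw13804
theorem W13805 : WFK w13805 := fun D T h => wf_of_chk h mem_nil (mem_cons (L3038 D T h) mem_nil) cw13805
theorem W13807 : WFK w13807 := fun D T h => wf_of_chk h mem_nil (mem_cons (L3038 D T h) mem_nil) cw13807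
theorem W13808 : WFK w13808 := fun D T h => wf_of_chk h mem_nil (mem_cons (L3038 D T h) mem_nil) cw13808
theorem W13810 : WFK w13810 := fun D T h => wf_of_chk h mem_nil (mem_cons (L1067 D T h) mem_nil) cw13810
theorem L3117 : LFK l3117 := fun D T h => lf_of_chk h (mem_cons (W3274 D T h) (mem_cons (W5597 D T h) (mem_cons (W603 D T h) (mem_cons (W4540 D T h) (mem_cons (W520 D T h) (mem_cons (W12 D T h) (mem_cons (W86 D T h) (mem_cons (W13810 D T h) (mem_cons (W2686 D T h) mem_nil))))))))) cl3117
theorem W13811 : WFK w13811 := fun D T h => wf_of_chk h mem_nil (mem_cons (L3117 D T h) mem_nil) cw13811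
theorem W13814 : WFK w13814 := fun D T h => wf_of_chk h (mem_cons (W10148 D T h) mem_nil) mem_nil cw13814
theorem L3121 : LFK l3121 := fun D T h => lf_of_chk h (mem_cons (W3274 D T h) (mem_cons (W817 D T h) (mem_cons (W971 D T h) (mem_cons (W216 D T h) (mem_cons (W33 D T h) (mem_cons (W78 D T h) (mem_cons (W142 D T h) (mem_cons (W12 D T h) (mem_cons (W520 D T h) mem_nil))))))))) cl3121
theorem W13829 : WFK w13829 := fun D T h => wf_of_chk h (mem_cons (W3766 D T h) mem_nil) mem_nil cw13829
theorem W13834 : WFK w13834 := fun D T h => wf_of_chk h (mem_cons (W4531 D T h) mem_nil) mem_nil cw13834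
theorem W13836 : WFK w13836 := fun D T h => wf_of_chk h mem_nil (mem_cons (L2083 D T h) mem_nil) cw13836
theorem W13858 : WFK w13858 := fun D T h => wf_of_chk h (mem_cons (W3766 D T h) mem_nil) mem_nil cw13858
theorem W13880 : WFK w13880 := fun D T h => wf_of_chk h (mem_cons (W220 D T h) (mem_cons (W12203 D T h) mem_nil)) mem_nil cw13880
theorem L3127 : LFK l3127 := fun D T h => lf_of_chk h (mem_cons (W5606 D T h) (mem_cons (W22 D T h) (mem_cons (W1101 D T h) (mem_cons (W5390 D T h) (mem_cons (W5359 D T h) mem_nil))))) cl3127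
theorem W13884 : WFK w13884 := fun D T h => wf_of_chk h mem_nil (mem_cons (L296 D T h) mem_nil) cw13884
theorem L3129 : LFK l3129 := fun D T h => lf_of_chk h (mem_cons (W330 D T h) (mem_cons (W22 D T h) (mem_cons (W12 D T h) (mem_cons (W5606 D T h) (mem_cons (W8 D T h) (mem_cons (W1101 D T h) (mem_cons (W55 D T h) (mem_cons (W12500 D T h) mem_nil)))))))) cl3129
theorem W13889 : WFK w13889 := fun D T h => wf_of_chk h mem_nil (mem_cons (L3129 D T h) mem_nil) cw13889
theorem W13890 : WFK w13890 := fun D T h => wf_of_chk h mem_nil (mem_cons (L2302 D T h) mem_nil) cw13890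
theorem W13893 : WFK w13893 := fun D T h => wf_of_chk h mem_nil (mem_cons (L1557 D T h) mem_nil) cw13893
theorem L3130 : LFK l3130 := fun D T h => lf_of_chk h (mem_cons (W12634 D T h) (mem_cons (W13422 D T h) (mem_cons (W8380 D T h) (mem_cons (W15 D T h) (mem_cons (W4531 D T h) (mem_cons (W101 D T h) (mem_cons (W932 D T h) (mem_cons (W220 D T h) (mem_cons (W2628 D T h) (mem_cons (W2538 D T h) (mem_cons (W13637 D T h) (mem_cons (W2629 D T h) (mem_cons (W937 D T h) (mem_cons (W724 D T h) (mem_cons (W11384 D T h) (mem_cons (W2548 D T h) (mem_cons (W42 D T h) (mem_cons (W12280 D T h) (mem_cons (W164 D T h) (mem_cons (W106 D T h) (mem_cons (W149 D T h) (mem_cons (W4260 D T h) (mem_cons (W2740 D T h) (mem_cons (W871 D T h) (mem_cons (W13205 D T h) (mem_cons (W2534 D T h) (mem_cons (W7573 D T h) (mem_cons (W8336 D T h) (mem_cons (W13893 D T h) (mem_cons (W8331 D T h) (mem_cons (W8631 D T h) mem_nil))))))))))))))))))))))))))))))) cl3130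
theorem W13894 : WFK w13894 := fun D T h => wf_of_chk h mem_nil (mem_cons (L3130 D T h) mem_nil) cw13894
theorem W13896 : WFK w13896 := fun D T h => wf_of_chk h (mem_cons (W6902 D T h) (mem_cons (W16 D T h) mem_nil)) mem_nil cw13896
theorem W13897 : WFK w13897 := fun D T h => wf_of_chk h (mem_cons (W6613 D T h) mem_nil) mem_nil cw13897
theorem W13901 : WFK w13901 := fun D T h => wf_of_chk h (mem_cons (W9706 D T h) (mem_cons (W2934 D T h) mem_nil)) mem_nil cw13901
theorem W13902 : WFK w13902 := fun D T h => wf_of_chk h (mem_cons (W368 D T h) (mem_cons (W13082 D T h) mem_nil)) mem_nil cw13902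
theorem W13903 : WFK w13903 := fun D T h => wf_of_chk h (mem_cons (W126 D T h) (mem_cons (W13082 D T h) mem_nil)) mem_nil cw13903
theorem W13904 : WFK w13904 := fun D T h => wf_of_chk h (mem_cons (W6184 D T h) (mem_cons (W3035 D T h) mem_nil)) mem_nil cw13904
theorem W13905 : WFK w13905 := fun D T h => wf_of_chk h (mem_cons (W13109 D T h) (mem_cons (W3035 D T h) mem_nil)) mem_nil cw13905
theorem W13906 : WFK w13906 := fun D T h => wf_of_chk h (mem_cons (W16 D T h) mem_nil) mem_nil cw13906
theorem L3131 : LFK l3131 := fun D T h => lf_of_chk h (mem_cons (W6797 D T h) (mem_cons (W144 D T h) (mem_cons (W114 D T h) (mem_cons (W1637 D T h) (mem_cons (W761 D T h) (mem_cons (W8265 D T h) (mem_cons (W6635 D T h) (mem_cons (W69 D T h) (mem_cons (W8264 D T h) (mem_cons (W2692 D T h) (mem_cons (W2743 D T h) (mem_cons (W6774 D T h) (mem_cons (W871 D T h) (mem_cons (W1836 D T h) (mem_cons (W13906 D T h) mem_nil))))))))))))))) cl3131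
theorem W13907 : WFK w13907 := fun D T h => wf_of_chk h mem_nil (mem_cons (L3131 D T h) mem_nil) cw13907
theorem W13908 : WFK w13908 := fun D T h => wf_of_chk h (mem_cons (W7558 D T h) (mem_cons (W3035 D T h) mem_nil)) mem_nil cw13908
theorem W13909 : WFK w13909 := fun D T h => wf_of_chk h (mem_cons (W7424 D T h) (mem_cons (W3035 D T h) mem_nil)) mem_nil cw13909
theorem W13910 : WFK w13910 := fun D T h => wf_of_chk h (mem_cons (W12966 D T h) (mem_cons (W3035 D T h) mem_nil)) mem_nil cw13910
theorem W13911 : WFK w13911 := fun D T h => wf_of_chk h (mem_cons (W13119 D T h) (mem_cons (W3035 D T h) mem_nil)) mem_nil cw13911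
theorem W13912 : WFK w13912 := fun D T h => wf_of_chk h (mem_cons (W8759 D T h) (mem_cons (W3035 D T h) mem_nil)) mem_nil cw13912
theorem W13913 : WFK w13913 := fun D T h => wf_of_chk h (mem_cons (W12564 D T h) (mem_cons (W3035 D T h) mem_nil)) mem_nil cw13913
theorem L3132 : LFK l3132 := fun D T h => lf_of_chk h (mem_cons (W13111 D T h) (mem_cons (W13126 D T h) (mem_cons (W8757 D T h) (mem_cons (W7878 D T h) (mem_cons (W7424 D T h) (mem_cons (W2051 D T h) (mem_cons (W8449 D T h) (mem_cons (W8419 D T h) (mem_cons (W6613 D T h) (mem_cons (W2839 D T h) (mem_cons (W12203 D T h) (mem_cons (W2936 D T h) (mem_cons (W5567 D T h) (mem_cons (W2861 D T h) (mem_cons (W13909 D T h) (mem_cons (W16 D T h) (mem_cons (W3408 D T h) (mem_cons (W13104 D T h) (mem_cons (W13910 D T h) (mem_cons (W10822 D T h) (mem_cons (W13911 D T h) (mem_cons (W284 D T h) (mem_cons (W12634 D T h) (mem_cons (W13904 D T h) (mem_cons (W11320 D T h) (mem_cons (W13106 D T h) (mem_cons (W13107 D T h) (mem_cons (W13108 D T h) (mem_cons (W13905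 D T h) (mem_cons (W12522 D T h) (mem_cons (W12366 D T h) (mem_cons (W5212 D T h) (mem_cons (W12621 D T h) (mem_cons (W13907 D T h) (mem_cons (W13113 D T h) (mem_cons (W13138 D T h) (mem_cons (W13908 D T h) (mem_cons (W8417 D T h) (mem_cons (W13140 D T h) (mem_cons (W8759 D T h) (mem_cons (W458 D T h) (mem_cons (W7083 D T h) (mem_cons (W12628 D T h) (mem_cons (W13912 D T h) (mem_cons (W13122 D T h) (mem_cons (W8746 D T h) (mem_cons (W13123 D T h) (mem_cons (W13124 D T h) (mem_cons (W13913 D T h) (mem_cons (W13765 D T h) (mem_cons (W13127 D T h) (mem_cons (W13128 D T h) (mem_cons (W13129 D T h) mem_nil))))))))))))))))))))))))))))))))))))))))))))))))))))) cl3132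
theorem W13914 : WFK w13914 := fun D T h => wf_of_chk h mem_nil (mem_cons (L3132 D T h) mem_nil) cw13914
theorem W13915 : WFK w13915 := fun D T h => wf_of_chk h (mem_cons (W3518 D T h) (mem_cons (W3898 D T h) mem_nil)) mem_nil cw13915
theorem W13916 : WFK w13916 := fun D T h => wf_of_chk h (mem_cons (W368 D T h) (mem_cons (W13082 D T h) mem_nil)) mem_nil cw13916
theorem W13917 : WFK w13917 := fun D T h => wf_of_chk h (mem_cons (W69 D T h) (mem_cons (W13082 D T h) mem_nil)) mem_nil cw13917
theorem W13918 : WFK w13918 := fun D T h => wf_of_chk h (mem_cons (W126 D T h) (mem_cons (W13082 D T h) mem_nil)) mem_nil cw13918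
theorem W13938 : WFK w13938 := fun D T h => wf_of_chk h (mem_cons (W16 D T h) mem_nil) mem_nil cw13938
theorem L3135 : LFK l3135 := fun D T h => lf_of_chk h (mem_cons (W42 D T h) (mem_cons (W3 D T h) (mem_cons (W39 D T h) (mem_cons (W143 D T h) (mem_cons (W720 D T h) (mem_cons (W754 D T h) (mem_cons (W86 D T h) (mem_cons (W734 D T h) (mem_cons (W3378 D T h) (mem_cons (W1177 D T h) (mem_cons (W5841 D T h) mem_nil))))))))))) cl3135
theorem L3137 : LFK l3137 := fun D T h => lf_of_chk h (mem_cons (W15 D T h) (mem_cons (W1 D T h) (mem_cons (W638 D T h) (mem_cons (W432 D T h) (mem_cons (W149 D T h) (mem_cons (W2766 D T h) (mem_cons (W6742 D T h) mem_nil))))))) cl3137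
theorem W13960 : WFK w13960 := fun D T h => wf_of_chk h mem_nil (mem_cons (L3137 D T h) mem_nil) cw13960
theorem W13968 : WFK w13968 := fun D T h => wf_of_chk h mem_nil (mem_cons (L103 D T h) mem_nil) cw13968
theorem W13994 : WFK w13994 := fun D T h => wf_of_chk h (mem_cons (W2520 D T h) mem_nil) mem_nil cw13994
theorem W14000 : WFK w14000 := fun D T h => wf_of_chk h mem_nil (mem_cons (L1701 D T h) mem_nil) cw14000
theorem W14002 : WFK w14002 := fun D T h => wf_of_chk h mem_nil (mem_cons (L630 D T h) mem_nil) cw14002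
theorem W14006 : WFK w14006 := fun D T h => wf_of_chk h mem_nil (mem_cons (L2396 D T h) mem_nil) cw14006
theorem W14007 : WFK w14007 := fun D T h => wf_of_chk h mem_nil (mem_cons (L1272 D T h) mem_nil) cw14007
theorem W14008 : WFK w14008 := fun D T h => wf_of_chk h mem_nil (mem_cons (L391 D T h) mem_nil) cw14008
theorem W14009 : WFK w14009 := fun D T h => wf_of_chk h mem_nil (mem_cons (L1258 D T h) mem_nil) cw14009
theorem W14014 : WFK w14014 := fun D T h => wf_of_chk h mem_nil (mem_cons (L2069 D T h) mem_nil) cw14014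
theorem W14018 : WFK w14018 := fun D T h => wf_of_chk h (mem_cons (W3878 D T h) (mem_cons (W13082 D T h) mem_nil)) mem_nil cw14018
theorem L3143 : LFK l3143 := fun D T h => lf_of_chk h (mem_cons (W11320 D T h) (mem_cons (W2934 D T h) (mem_cons (W144 D T h) (mem_cons (W15 D T h) (mem_cons (W220 D T h) (mem_cons (W2620 D T h) (mem_cons (W8332 D T h) (mem_cons (W2916 D T h) (mem_cons (W3958 D T h) (mem_cons (W5943 D T h) (mem_cons (W149 D T h) (mem_cons (W2740 D T h) (mem_cons (W13555 D T h) (mem_cons (W7359 D T h) (mem_cons (W11319 D T h) (mem_cons (W497 D T h) (mem_cons (W8342 D T h) mem_nil))))))))))))))))) cl3143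
theorem W14019 : WFK w14019 := fun D T h => wf_of_chk h mem_nil (mem_cons (L3143 D T h) mem_nil) cw14019
theorem W14020 : WFK w14020 := fun D T h => wf_of_chk h (mem_cons (W162 D T h) (mem_cons (W489 D T h) mem_nil)) mem_nil cw14020
theorem W14021 : WFK w14021 := fun D T h => wf_of_chk h (mem_cons (W162 D T h) (mem_cons (W489 D T h) mem_nil)) mem_nil cw14021
theorem W14022 : WFK w14022 := fun D T h => wf_of_chk h (mem_cons (W114 D T h) (mem_cons (W489 D T h) mem_nil)) mem_nil cw14022
theorem W14023 : WFK w14023 := fun D T h => wf_of_chk h (mem_cons (W11940 D T h) (mem_cons (W489 D T h) mem_nil)) mem_nil cw14023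
theorem W14024 : WFK w14024 := fun D T h => wf_of_chk h (mem_cons (W7353 D T h) (mem_cons (W489 D T h) mem_nil)) mem_nil cw14024
theorem W14025 : WFK w14025 := fun D T h => wf_of_chk h (mem_cons (W1889 D T h) (mem_cons (W489 D T h) mem_nil)) mem_nil cw14025
theorem W14026 : WFK w14026 := fun D T h => wf_of_chk h (mem_cons (W2844 D T h) (mem_cons (W489 D T h) mem_nil)) mem_nil cw14026
theorem W14027 : WFK w14027 := fun D T h => wf_of_chk h (mem_cons (W7466 D T h) (mem_cons (W489 D T h) mem_nil)) mem_nil cw14027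
theorem W14028 : WFK w14028 := fun D T h => wf_of_chk h (mem_cons (W16 D T h) mem_nil) mem_nil cw14028
theorem W14029 : WFK w14029 := fun D T h => wf_of_chk h mem_nil (mem_cons (L42 D T h) mem_nil) cw14029
theorem W14030 : WFK w14030 := fun D T h => wf_of_chk h mem_nil (mem_cons (L322 D T h) mem_nil) cw14030
theorem W14031 : WFK w14031 := fun D T h => wf_of_chk h mem_nil (mem_cons (L703 D T h) mem_nil) cw14031
theorem L3144 : LFK l3144 := fun D T h => lf_of_chk h (mem_cons (W12313 D T h) (mem_cons (W267 D T h) (mem_cons (W114 D T h) (mem_cons (W819 D T h) (mem_cons (W14028 D T h) (mem_cons (W6562 D T h) (mem_cons (W14029 D T h) (mem_cons (W1730 D T h) (mem_cons (W16 D T h) (mem_cons (W12 D T h) (mem_cons (W14030 D T h) (mem_cons (W5358 D T h) (mem_cons (W11692 D T h) (mem_cons (W301 D T h) (mem_cons (W12452 D T h) (mem_cons (W216 D T h) (mem_cons (W2740 D T h) (mem_cons (W2941 D T h) (mem_cons (W1139 D T h) (mem_cons (W14031 D T h) (mem_cons (W4589 D T h) (mem_cons (W8715 D T h) (mem_cons (W4162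 D T h) mem_nil))))))))))))))))))))))) cl3144
theorem W14032 : WFK w14032 := fun D T h => wf_of_chk h mem_nil (mem_cons (L3144 D T h) mem_nil) cw14032
theorem W14033 : WFK w14033 := fun D T h => wf_of_chk h mem_nil (mem_cons (L3131 D T h) mem_nil) cw14033
theorem W14034 : WFK w14034 := fun D T h => wf_of_chk h (mem_cons (W6841 D T h) (mem_cons (W489 D T h) mem_nil)) mem_nil cw14034
theorem W14035 : WFK w14035 := fun D T h => wf_of_chk h (mem_cons (W1067 D T h) (mem_cons (W489 D T h) mem_nil)) mem_nil cw14035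
theorem W14036 : WFK w14036 := fun D T h => wf_of_chk h (mem_cons (W7353 D T h) (mem_cons (W489 D T h) mem_nil)) mem_nil cw14036
theorem W14037 : WFK w14037 := fun D T h => wf_of_chk h (mem_cons (W7466 D T h) (mem_cons (W489 D T h) mem_nil)) mem_nil cw14037
theorem W14038 : WFK w14038 := fun D T h => wf_of_chk h (mem_cons (W1207 D T h) (mem_cons (W489 D T h) mem_nil)) mem_nil cw14038
theorem W14039 : WFK w14039 := fun D T h => wf_of_chk h (mem_cons (W2936 D T h) (mem_cons (W489 D T h) mem_nil)) mem_nil cw14039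
theorem W14040 : WFK w14040 := fun D T h => wf_of_chk h (mem_cons (W2936 D T h) (mem_cons (W489 D T h) mem_nil)) mem_nil cw14040
theorem W14041 : WFK w14041 := fun D T h => wf_of_chk h (mem_cons (W971 D T h) (mem_cons (W16 D T h) mem_nil)) mem_nil cw14041
theorem W14042 : WFK w14042 := fun D T h => wf_of_chk h mem_nil mem_nil cw14042
theorem L3145 : LFK l3145 := fun D T h => lf_of_chk h (mem_cons (W2740 D T h) (mem_cons (W105 D T h) (mem_cons (W80 D T h) (mem_cons (W3760 D T h) (mem_cons (W871 D T h) (mem_cons (W4166 D T h) (mem_cons (W14042 D T h) mem_nil))))))) cl3145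
theorem W14043 : WFK w14043 := fun D T h => wf_of_chk h mem_nil (mem_cons (L3145 D T h) mem_nil) cw14043
theorem L3146 : LFK l3146 := fun D T h => lf_of_chk h mem_nil cl3146
theorem W14044 : WFK w14044 := fun D T h => wf_of_chk h mem_nil (mem_cons (L3146 D T h) mem_nil) cw14044
theorem W14045 : WFK w14045 := fun D T h => wf_of_chk h mem_nil (mem_cons (L3058 D T h) mem_nil) cw14045
theorem W14046 : WFK w14046 := fun D T h => wf_of_chk h mem_nil mem_nil cw14046
theorem W14047 : WFK w14047 := fun D T h => wf_of_chk h mem_nil (mem_cons (L414 D T h) mem_nil) cw14047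
theorem L3147 : LFK l3147 := fun D T h => lf_of_chk h (mem_cons (W766 D T h) (mem_cons (W13 D T h) (mem_cons (W5415 D T h) (mem_cons (W959 D T h) (mem_cons (W2468 D T h) (mem_cons (W14044 D T h) (mem_cons (W16 D T h) (mem_cons (W10099 D T h) (mem_cons (W6204 D T h) (mem_cons (W13968 D T h) (mem_cons (W14046 D T h) (mem_cons (W2743 D T h) (mem_cons (W14045 D T h) (mem_cons (W3314 D T h) (mem_cons (W3312 D T h) (mem_cons (W14047 D T h) (mem_cons (W9899 D T h) mem_nil))))))))))))))))) cl3147
theorem W14048 : WFK w14048 := fun D T h => wf_of_chk h mem_nil (mem_cons (L3147 D T h) mem_nil) cw14048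
theorem W14049 : WFK w14049 := fun D T h => wf_of_chk h mem_nil (mem_cons (L71 D T h) mem_nil) cw14049
theorem W14050 : WFK w14050 := fun D T h => wf_of_chk h (mem_cons (W14049 D T h) (mem_cons (W16 D T h) mem_nil)) mem_nil cw14050
theorem W14051 : WFK w14051 := fun D T h => wf_of_chk h (mem_cons (W7695 D T h) (mem_cons (W16 D T h) mem_nil)) mem_nil cw14051
theorem W14052 : WFK w14052 := fun D T h => wf_of_chk h (mem_cons (W1067 D T h) mem_nil) mem_nil cw14052
theorem W14053 : WFK w14053 := fun D T h => wf_of_chk h (mem_cons (W80 D T h) mem_nil) mem_nil cw14053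
theorem W14054 : WFK w14054 := fun D T h => wf_of_chk h (mem_cons (W267 D T h) mem_nil) mem_nil cw14054
theorem L3148 : LFK l3148 := fun D T h => lf_of_chk h (mem_cons (W6719 D T h) (mem_cons (W230 D T h) (mem_cons (W220 D T h) (mem_cons (W267 D T h) (mem_cons (W16 D T h) (mem_cons (W766 D T h) (mem_cons (W6797 D T h) (mem_cons (W1326 D T h) (mem_cons (W5841 D T h) (mem_cons (W13622 D T h) (mem_cons (W14054 D T h) (mem_cons (W638 D T h) (mem_cons (W14053 D T h) (mem_cons (W149 D T h) (mem_cons (W6749 D T h) (mem_cons (W261 D T h) (mem_cons (W12365 D T h) (mem_cons (W7719 D T h) (mem_cons (W959 D T h) mem_nil))))))))))))))))))) cl3148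
theorem W14055 : WFK w14055 := fun D T h => wf_of_chk h mem_nil (mem_cons (L3148 D T h) mem_nil) cw14055
theorem W14056 : WFK w14056 := fun D T h => wf_of_chk h mem_nil (mem_cons (L3148 D T h) mem_nil) cw14056
theorem W14057 : WFK w14057 := fun D T h => wf_of_chk h mem_nil (mem_cons (L1998 D T h) mem_nil) cw14057
theorem W14058 : WFK w14058 := fun D T h => wf_of_chk h mem_nil (mem_cons (L756 D T h) mem_nil) cw14058
theorem W14059 : WFK w14059 := fun D T h => wf_of_chk h mem_nil (mem_cons (L481 D T h) mem_nil) cw14059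
theorem L3149 : LFK l3149 := fun D T h => lf_of_chk h (mem_cons (W12634 D T h) (mem_cons (W13422 D T h) (mem_cons (W8380 D T h) (mem_cons (W15 D T h) (mem_cons (W144 D T h) (mem_cons (W220 D T h) (mem_cons (W4209 D T h) (mem_cons (W4256 D T h) (mem_cons (W13213 D T h) (mem_cons (W2538 D T h) (mem_cons (W13215 D T h) (mem_cons (W13637 D T h) (mem_cons (W14058 D T h) (mem_cons (W495 D T h) (mem_cons (W14059 D T h) (mem_cons (W5448 D T h) (mem_cons (W12976 D T h) (mem_cons (W8128 D T h) (mem_cons (W521 D T h) (mem_cons (W638 D T h) (mem_cons (W4260 D T h) (mem_cons (W871 D T h) (mem_cons (W13635 D T h) (mem_cons (W7276 D T h) (mem_cons (W13634 D T h) (mem_cons (W13014 D T h) (mem_cons (W13893 D T h) (mem_cons (W8331 D T h) (mem_cons (W1335 D T h) mem_nil))))))))))))))))))))))))))))) cl3149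
theorem W14060 : WFK w14060 := fun D T h => wf_of_chk h mem_nil (mem_cons (L3149 D T h) mem_nil) cw14060
theorem W14061 : WFK w14061 := fun D T h => wf_of_chk h (mem_cons (W1599 D T h) mem_nil) mem_nil cw14061
theorem W14062 : WFK w14062 := fun D T h => wf_of_chk h (mem_cons (W16 D T h) (mem_cons (W2936 D T h) mem_nil)) mem_nil cw14062
theorem W14063 : WFK w14063 := fun D T h => wf_of_chk h (mem_cons (W16 D T h) (mem_cons (W9025 D T h) mem_nil)) mem_nil cw14063
theorem W14064 : WFK w14064 := fun D T h => wf_of_chk h (mem_cons (W971 D T h) mem_nil) mem_nil cw14064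
theorem W14065 : WFK w14065 := fun D T h => wf_of_chk h (mem_cons (W401 D T h) mem_nil) mem_nil cw14065
theorem L3150 : LFK l3150 := fun D T h => lf_of_chk h (mem_cons (W14054 D T h) (mem_cons (W267 D T h) (mem_cons (W7719 D T h) (mem_cons (W959 D T h) (mem_cons (W766 D T h) (mem_cons (W6719 D T h) (mem_cons (W216 D T h) (mem_cons (W16 D T h) (mem_cons (W6797 D T h) (mem_cons (W5841 D T h) (mem_cons (W14065 D T h) (mem_cons (W638 D T h) (mem_cons (W14064 D T h) (mem_cons (W149 D T h) (mem_cons (W6749 D T h) (mem_cons (W261 D T h) (mem_cons (W12365 D T h) mem_nil))))))))))))))))) cl3150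
theorem W14066 : WFK w14066 := fun D T h => wf_of_chk h mem_nil (mem_cons (L3150 D T h) mem_nil) cw14066
theorem W14067 : WFK w14067 := fun D T h => wf_of_chk h (mem_cons (W16 D T h) (mem_cons (W9025 D T h) mem_nil)) mem_nil cw14067
theorem W14068 : WFK w14068 := fun D T h => wf_of_chk h (mem_cons (W162 D T h) mem_nil) mem_nil cw14068
theorem W14069 : WFK w14069 := fun D T h => wf_of_chk h (mem_cons (W162 D T h) mem_nil) mem_nil cw14069
theorem W14070 : WFK w14070 := fun D T h => wf_of_chk h (mem_cons (W114 D T h) mem_nil) mem_nil cw14070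
theorem L3151 : LFK l3151 := fun D T h => lf_of_chk h (mem_cons (W12634 D T h) (mem_cons (W2628 D T h) (mem_cons (W7541 D T h) (mem_cons (W638 D T h) (mem_cons (W230 D T h) (mem_cons (W2740 D T h) (mem_cons (W149 D T h) (mem_cons (W4531 D T h) (mem_cons (W2743 D T h) (mem_cons (W13422 D T h) (mem_cons (W8331 D T h) (mem_cons (W8631 D T h) (mem_cons (W8380 D T h) (mem_cons (W4162 D T h) (mem_cons (W1255 D T h) (mem_cons (W497 D T h) (mem_cons (W2548 D T h) (mem_cons (W11384 D T h) (mem_cons (W164 D T h) (mem_cons (W12280 D T h) (mem_cons (W42 D T h) (mem_cons (W4260 D T h) (mem_cons (W10148 D T h) (mem_cons (W8336 D T h) (mem_cons (W2534 D T h) (mem_cons (W7573 D T h) (mem_cons (W2831 D T h) (mem_cons (W13893 D T h) (mem_cons (W2538 D T h) (mem_cons (W2629 D T h) mem_nil)))))))))))))))))))))))))))))) cl3151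
theorem W14071 : WFK w14071 := fun D T h => wf_of_chk h mem_nil (mem_cons (L3151 D T h) mem_nil) cw14071
theorem W14072 : WFK w14072 := fun D T h => wf_of_chk h mem_nil (mem_cons (L3151 D T h) mem_nil) cw14072
theorem W14073 : WFK w14073 := fun D T h => wf_of_chk h (mem_cons (W1889 D T h) mem_nil) mem_nil cw14073
theorem W14074 : WFK w14074 := fun D T h => wf_of_chk h mem_nil (mem_cons (L3151 D T h) mem_nil) cw14074
theorem W14075 : WFK w14075 := fun D T h => wf_of_chk h mem_nil (mem_cons (L3151 D T h) mem_nil) cw14075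
theorem W14076 : WFK w14076 := fun D T h => wf_of_chk h (mem_cons (W2489 D T h) mem_nil) mem_nil cw14076
theorem W14077 : WFK w14077 := fun D T h => wf_of_chk h (mem_cons (W539 D T h) mem_nil) mem_nil cw14077
theorem W14078 : WFK w14078 := fun D T h => wf_of_chk h mem_nil (mem_cons (L3094 D T h) mem_nil) cw14078
theorem W14079 : WFK w14079 := fun D T h => wf_of_chk h mem_nil (mem_cons (L3093 D T h) mem_nil) cw14079
theorem W14080 : WFK w14080 := fun D T h => wf_of_chk h (mem_cons (W216 D T h) mem_nil) mem_nil cw14080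
theorem W14081 : WFK w14081 := fun D T h => wf_of_chk h (mem_cons (W2753 D T h) mem_nil) mem_nil cw14081
theorem W14082 : WFK w14082 := fun D T h => wf_of_chk h (mem_cons (W260 D T h) mem_nil) mem_nil cw14082
theorem L3152 : LFK l3152 := fun D T h => lf_of_chk h (mem_cons (W13622 D T h) (mem_cons (W257 D T h) (mem_cons (W13616 D T h) (mem_cons (W83 D T h) (mem_cons (W401 D T h) (mem_cons (W12 D T h) (mem_cons (W6645 D T h) (mem_cons (W766 D T h) (mem_cons (W14076 D T h) (mem_cons (W1326 D T h) (mem_cons (W6797 D T h) (mem_cons (W14065 D T h) (mem_cons (W216 D T h) (mem_cons (W4166 D T h) (mem_cons (W2740 D T h) (mem_cons (W13681 D T h) (mem_cons (W14080 D T h) (mem_cons (W13623 D T h) (mem_cons (W1354 D T h) (mem_cons (W14081 D T h) (mem_cons (W14082 D T h) (mem_cons (W1353 D T h) (mem_cons (W5606 D T h) (mem_cons (W14077 D T h) (mem_cons (W13643 D T h) (mem_cons (W5157 D T h) (mem_cons (W14078 D T h) (mem_cons (W14079 D T h) (mem_cons (W13754 D T h) (mem_cons (W13745 D T h) (mem_cons (W2007 D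 T h) mem_nil))))))))))))))))))))))))))))))) cl3152
theorem W14083 : WFK w14083 := fun D T h => wf_of_chk h mem_nil (mem_cons (L3152 D T h) mem_nil) cw14083
theorem W14084 : WFK w14084 := fun D T h => wf_of_chk h (mem_cons (W112 D T h) mem_nil) mem_nil cw14084
theorem W14085 : WFK w14085 := fun D T h => wf_of_chk h mem_nil (mem_cons (L3121 D T h) mem_nil) cw14085
theorem W14086 : WFK w14086 := fun D T h => wf_of_chk h mem_nil (mem_cons (L1343 D T h) mem_nil) cw14086
theorem W14087 : WFK w14087 := fun D T h => wf_of_chk h (mem_cons (W7392 D T h) mem_nil) mem_nil cw14087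
theorem W14088 : WFK w14088 := fun D T h => wf_of_chk h (mem_cons (W7392 D T h) mem_nil) mem_nil cw14088
theorem W14089 : WFK w14089 := fun D T h => wf_of_chk h mem_nil (mem_cons (L3019 D T h) mem_nil) cw14089
theorem L3153 : LFK l3153 := fun D T h => lf_of_chk h (mem_cons (W12280 D T h) (mem_cons (W14089 D T h) (mem_cons (W6178 D T h) (mem_cons (W154 D T h) (mem_cons (W183 D T h) (mem_cons (W14084 D T h) (mem_cons (W4606 D T h) (mem_cons (W722 D T h) (mem_cons (W13213 D T h) (mem_cons (W13214 D T h) (mem_cons (W13215 D T h) (mem_cons (W14007 D T h) (mem_cons (W4162 D T h) (mem_cons (W1255 D T h) (mem_cons (W5448 D T h) (mem_cons (W12976 D T h) (mem_cons (W461 D T h) (mem_cons (W1394 D T h) (mem_cons (W1395 D T h) (mem_cons (W13208 D T h) (mem_cons (W13209 D T h) (mem_cons (W13210 D T h) (mem_cons (W14085 D T h) (mem_cons (W927 D T h) (mem_cons (W14086 D T h) (mem_cons (W14042 D T h) (mem_cons (W7392 D T h) (mem_cons (W14087 D T h) (mem_cons (W7340 D T h) (mem_cons (W14088 D T h) (mem_cons (W13014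 D T h) (mem_cons (W13207 D T h) (mem_cons (W13211 D T h) (mem_cons (W13212 D T h) mem_nil)))))))))))))))))))))))))))))))))) cl3153
theorem W14090 : WFK w14090 := fun D T h => wf_of_chk h mem_nil (mem_cons (L3153 D T h) mem_nil) cw14090
theorem L3154 : LFK l3154 := fun D T h => lf_of_chk h (mem_cons (W12517 D T h) (mem_cons (W7082 D T h) (mem_cons (W12628 D T h) (mem_cons (W337 D T h) (mem_cons (W2839 D T h) (mem_cons (W12203 D T h) (mem_cons (W9025 D T h) (mem_cons (W4400 D T h) (mem_cons (W2936 D T h) (mem_cons (W1265 D T h) (mem_cons (W7424 D T h) (mem_cons (W2051 D T h) (mem_cons (W8419 D T h) (mem_cons (W14062 D T h) (mem_cons (W12491 D T h) (mem_cons (W14063 D T h) (mem_cons (W14066 D T h) (mem_cons (W14067 D T h) (mem_cons (W16 D T h) (mem_cons (W4162 D T h) (mem_cons (W14068 D T h) (mem_cons (W8449 D T h) (mem_cons (W14069 D T h) (mem_cons (W14083 D T h) (mem_cons (W10822 D T h) (mem_cons (W14090 D T h) (mem_cons (W12634 D T h) (mem_cons (W14070 D T h) (mem_cons (W11320 D T h) (mem_cons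 (W14071 D T h) (mem_cons (W284 D T h) (mem_cons (W14072 D T h) (mem_cons (W14073 D T h) (mem_cons (W14074 D T h) (mem_cons (W14075 D T h) (mem_cons (W12522 D T h) (mem_cons (W6719 D T h) (mem_cons (W8314 D T h) (mem_cons (W14043 D T h) (mem_cons (W14048 D T h) (mem_cons (W14050 D T h) (mem_cons (W14051 D T h) (mem_cons (W14052 D T h) (mem_cons (W8417 D T h) (mem_cons (W14055 D T h) (mem_cons (W14056 D T h) (mem_cons (W13180 D T h) (mem_cons (W13181 D T h) (mem_cons (W13644 D T h) (mem_cons (W14057 D T h) (mem_cons (W14060 D T h) (mem_cons (W14061 D T h) mem_nil)))))))))))))))))))))))))))))))))))))))))))))))))))) cl3154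
theorem W14091 : WFK w14091 := fun D T h => wf_of_chk h mem_nil (mem_cons (L3154 D T h) mem_nil) cw14091
theorem W14092 : WFK w14092 := fun D T h => wf_of_chk h (mem_cons (W80 D T h) (mem_cons (W1599 D T h) mem_nil)) mem_nil cw14092
theorem W14093 : WFK w14093 := fun D T h => wf_of_chk h mem_nil (mem_cons (L1886 D T h) mem_nil) cw14093
theorem W14094 : WFK w14094 := fun D T h => wf_of_chk h (mem_cons (W80 D T h) (mem_cons (W337 D T h) mem_nil)) mem_nil cw14094
theorem L3155 : LFK l3155 := fun D T h => lf_of_chk h (mem_cons (W6719 D T h) (mem_cons (W230 D T h) (mem_cons (W220 D T h) (mem_cons (W267 D T h) (mem_cons (W16 D T h) (mem_cons (W1326 D T h) (mem_cons (W6797 D T h) (mem_cons (W5841 D T h) (mem_cons (W13622 D T h) (mem_cons (W11265 D T h) (mem_cons (W638 D T h) (mem_cons (W13189 D T h) (mem_cons (W149 D T h) (mem_cons (W3766 D T h) mem_nil)))))))))))))) cl3155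
theorem W14095 : WFK w14095 := fun D T h => wf_of_chk h mem_nil (mem_cons (L3155 D T h) mem_nil) cw14095
theorem W14096 : WFK w14096 := fun D T h => wf_of_chk h mem_nil (mem_cons (L3155 D T h) mem_nil) cw14096
theorem W14097 : WFK w14097 := fun D T h => wf_of_chk h mem_nil (mem_cons (L2848 D T h) mem_nil) cw14097
theorem W14098 : WFK w14098 := fun D T h => wf_of_chk h (mem_cons (W105 D T h) mem_nil) mem_nil cw14098
theorem L3156 : LFK l3156 := fun D T h => lf_of_chk h (mem_cons (W11320 D T h) (mem_cons (W13556 D T h) (mem_cons (W8380 D T h) (mem_cons (W153 D T h) (mem_cons (W4531 D T h) (mem_cons (W2726 D T h) (mem_cons (W8332 D T h) (mem_cons (W3958 D T h) (mem_cons (W6744 D T h) (mem_cons (W11670 D T h) (mem_cons (W497 D T h) (mem_cons (W8342 D T h) (mem_cons (W2740 D T h) (mem_cons (W149 D T h) (mem_cons (W14097 D T h) (mem_cons (W14098 D T h) (mem_cons (W11319 D T h) (mem_cons (W7359 D T h) (mem_cons (W13893 D T h) mem_nil))))))))))))))))))) cl3156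
theorem W14099 : WFK w14099 := fun D T h => wf_of_chk h mem_nil (mem_cons (L3156 D T h) mem_nil) cw14099
theorem W14100 : WFK w14100 := fun D T h => wf_of_chk h (mem_cons (W80 D T h) mem_nil) mem_nil cw14100
theorem W14101 : WFK w14101 := fun D T h => wf_of_chk h (mem_cons (W220 D T h) mem_nil) mem_nil cw14101
theorem L3157 : LFK l3157 := fun D T h => lf_of_chk h (mem_cons (W6719 D T h) (mem_cons (W3766 D T h) (mem_cons (W7719 D T h) (mem_cons (W16 D T h) (mem_cons (W6794 D T h) (mem_cons (W1326 D T h) (mem_cons (W6797 D T h) (mem_cons (W5841 D T h) (mem_cons (W13622 D T h) (mem_cons (W14101 D T h) (mem_cons (W149 D T h) (mem_cons (W14100 D T h) (mem_cons (W6749 D T h) (mem_cons (W261 D T h) (mem_cons (W12365 D T h) mem_nil))))))))))))))) cl3157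
theorem W14102 : WFK w14102 := fun D T h => wf_of_chk h mem_nil (mem_cons (L3157 D T h) mem_nil) cw14102
theorem W14103 : WFK w14103 := fun D T h => wf_of_chk h mem_nil (mem_cons (L18 D T h) mem_nil) cw14103
theorem W14104 : WFK w14104 := fun D T h => wf_of_chk h mem_nil (mem_cons (L412 D T h) mem_nil) cw14104
theorem W14105 : WFK w14105 := fun D T h => wf_of_chk h mem_nil (mem_cons (L409 D T h) mem_nil) cw14105
theorem W14106 : WFK w14106 := fun D T h => wf_of_chk h mem_nil (mem_cons (L409 D T h) mem_nil) cw14106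
theorem W14107 : WFK w14107 := fun D T h => wf_of_chk h mem_nil (mem_cons (L164 D T h) mem_nil) cw14107
theorem L3158 : LFK l3158 := fun D T h => lf_of_chk h (mem_cons (W3383 D T h) (mem_cons (W1246 D T h) (mem_cons (W9070 D T h) (mem_cons (W13 D T h) (mem_cons (W14103 D T h) (mem_cons (W14104 D T h) (mem_cons (W2082 D T h) (mem_cons (W1473 D T h) (mem_cons (W4146 D T h) (mem_cons (W10664 D T h) (mem_cons (W4150 D T h) (mem_cons (W7408 D T h) (mem_cons (W5529 D T h) (mem_cons (W14105 D T h) (mem_cons (W14106 D T h) (mem_cons (W14107 D T h) mem_nil)))))))))))))))) cl3158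
theorem W14108 : WFK w14108 := fun D T h => wf_of_chk h mem_nil (mem_cons (L3158 D T h) mem_nil) cw14108
theorem W14109 : WFK w14109 := fun D T h => wf_of_chk h (mem_cons (W267 D T h) mem_nil) mem_nil cw14109
theorem L3159 : LFK l3159 := fun D T h => lf_of_chk h (mem_cons (W6719 D T h) (mem_cons (W7719 D T h) (mem_cons (W3766 D T h) (mem_cons (W16 D T h) (mem_cons (W6798 D T h) (mem_cons (W1326 D T h) (mem_cons (W6797 D T h) (mem_cons (W5841 D T h) (mem_cons (W13622 D T h) (mem_cons (W14109 D T h) (mem_cons (W149 D T h) (mem_cons (W14108 D T h) (mem_cons (W6749 D T h) (mem_cons (W261 D T h) (mem_cons (W12365 D T h) mem_nil))))))))))))))) cl3159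
theorem W14110 : WFK w14110 := fun D T h => wf_of_chk h mem_nil (mem_cons (L3159 D T h) mem_nil) cw14110
theorem W14111 : WFK w14111 := fun D T h => wf_of_chk h (mem_cons (W80 D T h) mem_nil) mem_nil cw14111
theorem L3160 : LFK l3160 := fun D T h => lf_of_chk h (mem_cons (W6719 D T h) (mem_cons (W267 D T h) (mem_cons (W7719 D T h) (mem_cons (W3766 D T h) (mem_cons (W16 D T h) (mem_cons (W6793 D T h) (mem_cons (W1326 D T h) (mem_cons (W6797 D T h) (mem_cons (W5841 D T h) (mem_cons (W13622 D T h) (mem_cons (W11298 D T h) (mem_cons (W149 D T h) (mem_cons (W14111 D T h) mem_nil))))))))))))) cl3160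
theorem W14112 : WFK w14112 := fun D T h => wf_of_chk h mem_nil (mem_cons (L3160 D T h) mem_nil) cw14112
theorem L3161 : LFK l3161 := fun D T h => lf_of_chk h (mem_cons (W12634 D T h) (mem_cons (W13213 D T h) (mem_cons (W13637 D T h) (mem_cons (W638 D T h) (mem_cons (W230 D T h) (mem_cons (W2740 D T h) (mem_cons (W149 D T h) (mem_cons (W1572 D T h) (mem_cons (W2743 D T h) (mem_cons (W13422 D T h) (mem_cons (W8331 D T h) (mem_cons (W8631 D T h) (mem_cons (W8380 D T h) (mem_cons (W937 D T h) (mem_cons (W724 D T h) (mem_cons (W497 D T h) (mem_cons (W2548 D T h) (mem_cons (W11384 D T h) (mem_cons (W11263 D T h) (mem_cons (W1588 D T h) (mem_cons (W10148 D T h) (mem_cons (W8336 D T h) (mem_cons (W7276 D T h) (mem_cons (W13634 D T h) (mem_cons (W13635 D T h) (mem_cons (W13893 D T h) (mem_cons (W2538 D T h) (mem_cons (W2629 D T h) mem_nil)))))))))))))))))))))))))))) cl3161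
theorem W14113 : WFK w14113 := fun D T h => wf_of_chk h mem_nil (mem_cons (L3161 D T h) mem_nil) cw14113
theorem L3162 : LFK l3162 := fun D T h => lf_of_chk h (mem_cons (W2548 D T h) (mem_cons (W13423 D T h) (mem_cons (W7528 D T h) (mem_cons (W168 D T h) (mem_cons (W241 D T h) (mem_cons (W112 D T h) (mem_cons (W1379 D T h) (mem_cons (W1572 D T h) (mem_cons (W2674 D T h) (mem_cons (W965 D T h) (mem_cons (W13202 D T h) (mem_cons (W2305 D T h) (mem_cons (W8273 D T h) (mem_cons (W937 D T h) (mem_cons (W724 D T h) (mem_cons (W497 D T h) (mem_cons (W11263 D T h) (mem_cons (W7316 D T h) (mem_cons (W10536 D T h) (mem_cons (W13199 D T h) (mem_cons (W11228 D T h) (mem_cons (W13200 D T h) (mem_cons (W7313 D T h) (mem_cons (W11950 D T h) (mem_cons (W13015 D T h) (mem_cons (W13201 D T h) (mem_cons (W8754 D T h) (mem_cons (W3182 D T h) mem_nil)))))))))))))))))))))))))))) cl3162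
theorem W14114 : WFK w14114 := fun D T h => wf_of_chk h mem_nil (mem_cons (L3162 D T h) mem_nil) cw14114
theorem L3163 : LFK l3163 := fun D T h => lf_of_chk h (mem_cons (W8128 D T h) (mem_cons (W14089 D T h) (mem_cons (W11290 D T h) (mem_cons (W154 D T h) (mem_cons (W183 D T h) (mem_cons (W113 D T h) (mem_cons (W8073 D T h) (mem_cons (W722 D T h) (mem_cons (W13213 D T h) (mem_cons (W13214 D T h) (mem_cons (W13215 D T h) (mem_cons (W14007 D T h) (mem_cons (W12280 D T h) (mem_cons (W937 D T h) (mem_cons (W724 D T h) (mem_cons (W8126 D T h) (mem_cons (W2548 D T h) (mem_cons (W13208 D T h) (mem_cons (W13209 D T h) (mem_cons (W13210 D T h) (mem_cons (W14085 D T h) (mem_cons (W927 D T h) (mem_cons (W11313 D T h) (mem_cons (W13569 D T h) (mem_cons (W7392 D T h) (mem_cons (W13205 D T h) (mem_cons (W7340 D T h) (mem_cons (W13206 D T h) (mem_cons (W13014 D T h) (mem_cons (W13207 D T h) (mem_cons (W13211 D T h) (mem_cons (W13212 D T h) mem_nil)))))))))))))))))))))))))))))))) cl3163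
theorem W14115 : WFK w14115 := fun D T h => wf_of_chk h mem_nil (mem_cons (L3163 D T h) mem_nil) cw14115
theorem L3164 : LFK l3164 := fun D T h => lf_of_chk h (mem_cons (W12519 D T h) (mem_cons (W2861 D T h) (mem_cons (W13177 D T h) (mem_cons (W337 D T h) (mem_cons (W2839 D T h) (mem_cons (W12203 D T h) (mem_cons (W1311 D T h) (mem_cons (W2936 D T h) (mem_cons (W7424 D T h) (mem_cons (W2051 D T h) (mem_cons (W8419 D T h) (mem_cons (W14067 D T h) (mem_cons (W12491 D T h) (mem_cons (W13894 D T h) (mem_cons (W12620 D T h) (mem_cons (W16 D T h) (mem_cons (W937 D T h) (mem_cons (W13192 D T h) (mem_cons (W11263 D T h) (mem_cons (W12531 D T h) (mem_cons (W14114 D T h) (mem_cons (W10822 D T h) (mem_cons (W14115 D T h) (mem_cons (W284 D T h) (mem_cons (W12634 D T h) (mem_cons (W13193 D T h) (mem_cons (W11320 D T h) (mem_cons (W14113 D T h) (mem_cons (W13196 D T h) (mem_cons (W13195 D T h) (mem_cons (W13197 D T h) (mem_cons (W12520 D T h) (mem_cons (W12522 D T h) (mem_cons (W6719 D T h) (mem_cons (W5212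 D T h) (mem_cons (W13186 D T h) (mem_cons (W13187 D T h) (mem_cons (W13793 D T h) (mem_cons (W13188 D T h) (mem_cons (W12525 D T h) (mem_cons (W8417 D T h) (mem_cons (W14095 D T h) (mem_cons (W14096 D T h) (mem_cons (W13180 D T h) (mem_cons (W13181 D T h) (mem_cons (W12517 D T h) (mem_cons (W181 D T h) (mem_cons (W13183 D T h) (mem_cons (W13185 D T h) (mem_cons (W14099 D T h) (mem_cons (W14102 D T h) (mem_cons (W14110 D T h) (mem_cons (W14112 D T h) mem_nil))))))))))))))))))))))))))))))))))))))))))))))))))))) cl3164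
theorem W14116 : WFK w14116 := fun D T h => wf_of_chk h mem_nil (mem_cons (L3164 D T h) mem_nil) cw14116
theorem W14117 : WFK w14117 := fun D T h => wf_of_chk h (mem_cons (W831 D T h) (mem_cons (W337 D T h) mem_nil)) mem_nil cw14117
theorem L3165 : LFK l3165 := fun D T h => lf_of_chk h (mem_cons (W13127 D T h) (mem_cons (W7424 D T h) (mem_cons (W8449 D T h) (mem_cons (W8419 D T h) (mem_cons (W9025 D T h) (mem_cons (W2839 D T h) (mem_cons (W12203 D T h) (mem_cons (W2936 D T h) (mem_cons (W13790 D T h) (mem_cons (W13896 D T h) (mem_cons (W2051 D T h) (mem_cons (W14040 D T h) (mem_cons (W16 D T h) (mem_cons (W7074 D T h) (mem_cons (W14020 D T h) (mem_cons (W14021 D T h) (mem_cons (W14038 D T h) (mem_cons (W14039 D T h) (mem_cons (W12634 D T h) (mem_cons (W14022 D T h) (mem_cons (W3958 D T h) (mem_cons (W14023 D T h) (mem_cons (W284 D T h) (mem_cons (W14024 D T h) (mem_cons (W14025 D T h) (mem_cons (W14026 D T h) (mem_cons (W14027 D T h) (mem_cons (W12522 D T h) (mem_cons (W6719 D T h) (mem_cons (W5212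 D T h) (mem_cons (W14032 D T h) (mem_cons (W14033 D T h) (mem_cons (W13793 D T h) (mem_cons (W14034 D T h) (mem_cons (W14035 D T h) (mem_cons (W8417 D T h) (mem_cons (W14036 D T h) (mem_cons (W14037 D T h) (mem_cons (W14041 D T h) (mem_cons (W13801 D T h) (mem_cons (W7083 D T h) (mem_cons (W13165 D T h) (mem_cons (W14091 D T h) (mem_cons (W14092 D T h) (mem_cons (W14093 D T h) (mem_cons (W14094 D T h) (mem_cons (W13804 D T h) (mem_cons (W14116 D T h) (mem_cons (W12520 D T h) (mem_cons (W3980 D T h) (mem_cons (W11588 D T h) (mem_cons (W13805 D T h) (mem_cons (W6891 D T h) (mem_cons (W14117 D T h) (mem_cons (W13807 D T h) (mem_cons (W13808 D T h) mem_nil)))))))))))))))))))))))))))))))))))))))))))))))))))))))) cl3165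
theorem W14118 : WFK w14118 := fun D T h => wf_of_chk h mem_nil (mem_cons (L3165 D T h) mem_nil) cw14118
theorem W14119 : WFK w14119 := fun D T h => wf_of_chk h (mem_cons (W16 D T h) (mem_cons (W489 D T h) mem_nil)) mem_nil cw14119
theorem W14120 : WFK w14120 := fun D T h => wf_of_chk h (mem_cons (W489 D T h) mem_nil) mem_nil cw14120
theorem L3166 : LFK l3166 := fun D T h => lf_of_chk h (mem_cons (W721 D T h) (mem_cons (W1929 D T h) (mem_cons (W1919 D T h) (mem_cons (W126 D T h) (mem_cons (W1409 D T h) (mem_cons (W3 D T h) (mem_cons (W39 D T h) (mem_cons (W389 D T h) (mem_cons (W12344 D T h) (mem_cons (W750 D T h) (mem_cons (W3230 D T h) (mem_cons (W14120 D T h) (mem_cons (W1087 D T h) (mem_cons (W746 D T h) (mem_cons (W747 D T h) (mem_cons (W258 D T h) (mem_cons (W748 D T h) (mem_cons (W1572 D T h) (mem_cons (W281 D T h) (mem_cons (W263 D T h) (mem_cons (W762 D T h) mem_nil))))))))))))))))))))) cl3166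
theorem W14121 : WFK w14121 := fun D T h => wf_of_chk h mem_nil (mem_cons (L3166 D T h) mem_nil) cw14121
theorem W14122 : WFK w14122 := fun D T h => wf_of_chk h (mem_cons (W220 D T h) (mem_cons (W3666 D T h) mem_nil)) mem_nil cw14122
theorem W14123 : WFK w14123 := fun D T h => wf_of_chk h (mem_cons (W489 D T h) mem_nil) mem_nil cw14123
theorem W14124 : WFK w14124 := fun D T h => wf_of_chk h (mem_cons (W1919 D T h) mem_nil) mem_nil cw14124
theorem W14125 : WFK w14125 := fun D T h => wf_of_chk h (mem_cons (W3666 D T h) mem_nil) mem_nil cw14125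
theorem L3167 : LFK l3167 := fun D T h => lf_of_chk h (mem_cons (W7401 D T h) (mem_cons (W14119 D T h) (mem_cons (W15 D T h) (mem_cons (W14124 D T h) (mem_cons (W220 D T h) (mem_cons (W12985 D T h) (mem_cons (W2532 D T h) (mem_cons (W12551 D T h) (mem_cons (W144 D T h) (mem_cons (W8331 D T h) (mem_cons (W5875 D T h) (mem_cons (W11050 D T h) (mem_cons (W8332 D T h) (mem_cons (W149 D T h) (mem_cons (W1747 D T h) (mem_cons (W2740 D T h) (mem_cons (W2743 D T h) (mem_cons (W12982 D T h) (mem_cons (W7341 D T h) (mem_cons (W7563 D T h) (mem_cons (W7359 D T h) (mem_cons (W497 D T h) (mem_cons (W14123 D T h) (mem_cons (W14125 D T h) mem_nil)))))))))))))))))))))))) cl3167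
theorem W14126 : WFK w14126 := fun D T h => wf_of_chk h mem_nil (mem_cons (L3167 D T h) mem_nil) cw14126
theorem W14127 : WFK w14127 := fun D T h => wf_of_chk h mem_nil (mem_cons (L3167 D T h) mem_nil) cw14127
theorem W14128 : WFK w14128 := fun D T h => wf_of_chk h mem_nil (mem_cons (L2637 D T h) mem_nil) cw14128
theorem W14129 : WFK w14129 := fun D T h => wf_of_chk h mem_nil (mem_cons (L3167 D T h) mem_nil) cw14129
theorem W14130 : WFK w14130 := fun D T h => wf_of_chk h (mem_cons (W1929 D T h) (mem_cons (W16 D T h) mem_nil)) mem_nil cw14130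
theorem W14131 : WFK w14131 := fun D T h => wf_of_chk h (mem_cons (W6776 D T h) (mem_cons (W16 D T h) mem_nil)) mem_nil cw14131
theorem W14132 : WFK w14132 := fun D T h => wf_of_chk h (mem_cons (W5212 D T h) (mem_cons (W489 D T h) mem_nil)) mem_nil cw14132
theorem W14133 : WFK w14133 := fun D T h => wf_of_chk h (mem_cons (W5212 D T h) (mem_cons (W489 D T h) mem_nil)) mem_nil cw14133
theorem W14134 : WFK w14134 := fun D T h => wf_of_chk h mem_nil mem_nil cw14134
theorem W14135 : WFK w14135 := fun D T h => wf_of_chk h (mem_cons (W75 D T h) mem_nil) mem_nil cw14135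
theorem W14137 : WFK w14137 := fun D T h => wf_of_chk h mem_nil (mem_cons (L1832 D T h) mem_nil) cw14137
theorem W14138 : WFK w14138 := fun D T h => wf_of_chk h (mem_cons (W8 D T h) mem_nil) mem_nil cw14138
theorem L3169 : LFK l3169 := fun D T h => lf_of_chk h (mem_cons (W4566 D T h) (mem_cons (W233 D T h) (mem_cons (W69 D T h) (mem_cons (W2203 D T h) (mem_cons (W2204 D T h) (mem_cons (W2445 D T h) (mem_cons (W539 D T h) (mem_cons (W14137 D T h) (mem_cons (W480 D T h) (mem_cons (W14135 D T h) (mem_cons (W13145 D T h) (mem_cons (W2207 D T h) (mem_cons (W14134 D T h) (mem_cons (W234 D T h) (mem_cons (W489 D T h) (mem_cons (W2210 D T h) (mem_cons (W14138 D T h) mem_nil))))))))))))))))) cl3169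
theorem W14139 : WFK w14139 := fun D T h => wf_of_chk h mem_nil (mem_cons (L3169 D T h) mem_nil) cw14139
theorem L3170 : LFK l3170 := fun D T h => lf_of_chk h (mem_cons (W3766 D T h) (mem_cons (W2212 D T h) (mem_cons (W3 D T h) (mem_cons (W39 D T h) (mem_cons (W852 D T h) (mem_cons (W10076 D T h) (mem_cons (W6 D T h) (mem_cons (W14139 D T h) (mem_cons (W3245 D T h) (mem_cons (W13619 D T h) (mem_cons (W870 D T h) (mem_cons (W13884 D T h) mem_nil)))))))))))) cl3170
theorem W14140 : WFK w14140 := fun D T h => wf_of_chk h mem_nil (mem_cons (L3170 D T h) mem_nil) cw14140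
theorem W14141 : WFK w14141 := fun D T h => wf_of_chk h (mem_cons (W14140 D T h) (mem_cons (W16 D T h) mem_nil)) mem_nil cw14141
theorem W14142 : WFK w14142 := fun D T h => wf_of_chk h (mem_cons (W260 D T h) mem_nil) mem_nil cw14142
theorem W14143 : WFK w14143 := fun D T h => wf_of_chk h (mem_cons (W6776 D T h) mem_nil) mem_nil cw14143
theorem W14144 : WFK w14144 := fun D T h => wf_of_chk h (mem_cons (W3528 D T h) (mem_cons (W489 D T h) mem_nil)) mem_nil cw14144
theorem W14145 : WFK w14145 := fun D T h => wf_of_chk h (mem_cons (W7074 D T h) mem_nil) mem_nil cw14145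
theorem W14146 : WFK w14146 := fun D T h => wf_of_chk h mem_nil (mem_cons (L2626 D T h) mem_nil) cw14146
theorem W14147 : WFK w14147 := fun D T h => wf_of_chk h (mem_cons (W7074 D T h) mem_nil) mem_nil cw14147
theorem W14148 : WFK w14148 := fun D T h => wf_of_chk h mem_nil (mem_cons (L2622 D T h) mem_nil) cw14148
theorem W14149 : WFK w14149 := fun D T h => wf_of_chk h (mem_cons (W16 D T h) (mem_cons (W5606 D T h) mem_nil)) mem_nil cw14149
theorem W14150 : WFK w14150 := fun D T h => wf_of_chk h mem_nil (mem_cons (L2622 D T h) mem_nil) cw14150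
theorem W14151 : WFK w14151 := fun D T h => wf_of_chk h mem_nil (mem_cons (L2622 D T h) mem_nil) cw14151
theorem L3171 : LFK l3171 := fun D T h => lf_of_chk h (mem_cons (W8755 D T h) (mem_cons (W14119 D T h) (mem_cons (W5606 D T h) (mem_cons (W1637 D T h) (mem_cons (W14124 D T h) (mem_cons (W13048 D T h) (mem_cons (W2089 D T h) (mem_cons (W1449 D T h) (mem_cons (W7382 D T h) (mem_cons (W14148 D T h) (mem_cons (W14149 D T h) (mem_cons (W14150 D T h) (mem_cons (W14151 D T h) (mem_cons (W390 D T h) (mem_cons (W241 D T h) (mem_cons (W370 D T h) (mem_cons (W8752 D T h) (mem_cons (W7266 D T h) (mem_cons (W7265 D T h) (mem_cons (W8754 D T h) (mem_cons (W7006 D T h) (mem_cons (W11054 D T h) (mem_cons (W7250 D T h) (mem_cons (W1986 D T h) (mem_cons (W14142 D T h) (mem_cons (W14143 D T h) (mem_cons (W7313 D T h) (mem_cons (W8751 D T h) (mem_cons (W7252 D T h) (mem_cons (W497 D T h) (mem_cons (W14144 D T h) (mem_cons (W14145 D T h) (mem_cons (W69 D T h) (mem_cons (W14146 D T h) (mem_cons (W1 D T h) (mem_cons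 (W14147 D T h) mem_nil)))))))))))))))))))))))))))))))))))) cl3171
theorem W14152 : WFK w14152 := fun D T h => wf_of_chk h mem_nil (mem_cons (L3171 D T h) mem_nil) cw14152

end Pool.Agent.W319.GCI.K5
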