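import Pool.Agent.W319.GCI.K5A10
set_option autoImplicit false
set_option maxRecDepth 100000
set_option linter.all false
namespace Pool.Agent.W319.GCI.K5
open Pool.Agent.W319.GCI

theorem W14153 : WFK w14153 := fun D T h => wf_of_chk h (mem_cons (W162 D T h) (mem_cons (W7074 D T h) mem_nil)) mem_nil cw14153
theorem W14154 : WFK w14154 := fun D T h => wf_of_chk h mem_nil (mem_cons (L3079 D T h) mem_nil) cw14154
theorem W14155 : WFK w14155 := fun D T h => wf_of_chk h (mem_cons (W8255 D T h) (mem_cons (W489 D T h) mem_nil)) mem_nil cw14155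
theorem W14156 : WFK w14156 := fun D T h => wf_of_chk h (mem_cons (W80 D T h) (mem_cons (W1599 D T h) mem_nil)) mem_nil cw14156
theorem W14157 : WFK w14157 := fun D T h => wf_of_chk h (mem_cons (W10624 D T h) (mem_cons (W16 D T h) mem_nil)) mem_nil cw14157
theorem L3172 : LFK l3172 := fun D T h => lf_of_chk h (mem_cons (W13081 D T h) (mem_cons (W3973 D T h) (mem_cons (W7436 D T h) (mem_cons (W8449 D T h) (mem_cons (W1599 D T h) (mem_cons (W489 D T h) (mem_cons (W2037 D T h) (mem_cons (W11108 D T h) (mem_cons (W14130 D T h) (mem_cons (W11107 D T h) (mem_cons (W14154 D T h) (mem_cons (W13597 D T h) (mem_cons (W13596 D T h) (mem_cons (W7421 D T h) (mem_cons (W14067 D T h) (mem_cons (W14063 D T h) (mem_cons (W14155 D T h) (mem_cons (W14119 D T h) (mem_cons (W16 D T h) (mem_cons (W11321 D T h) (mem_cons (W14021 D T h) (mem_cons (W14152 D T h) (mem_cons (W14153 D T h) (mem_cons (W2934 D T h) (mem_cons (W284 D T h) (mem_cons (W14121 D T h) (mem_cons (W7401 D T h) (mem_cons (W2405 D T h) (mem_cons (W14122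 D T h) (mem_cons (W14126 D T h) (mem_cons (W14127 D T h) (mem_cons (W14128 D T h) (mem_cons (W14129 D T h) (mem_cons (W9432 D T h) (mem_cons (W7410 D T h) (mem_cons (W5211 D T h) (mem_cons (W13038 D T h) (mem_cons (W14131 D T h) (mem_cons (W14132 D T h) (mem_cons (W11111 D T h) (mem_cons (W3921 D T h) (mem_cons (W14133 D T h) (mem_cons (W14141 D T h) (mem_cons (W13095 D T h) (mem_cons (W11270 D T h) (mem_cons (W11869 D T h) (mem_cons (W13070 D T h) (mem_cons (W13535 D T h) (mem_cons (W13074 D T h) (mem_cons (W14156 D T h) (mem_cons (W13072 D T h) (mem_cons (W14157 D T h) (mem_cons (W13078 D T h) (mem_cons (W13077 D T h) (mem_cons (W13076 D T h) mem_nil))))))))))))))))))))))))))))))))))))))))))))))))))))))) cl3172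
theorem W14158 : WFK w14158 := fun D T h => wf_of_chk h mem_nil (mem_cons (L3172 D T h) mem_nil) cw14158
theorem W14159 : WFK w14159 := fun D T h => wf_of_chk h (mem_cons (W164 D T h) (mem_cons (W368 D T h) mem_nil)) mem_nil cw14159
theorem W14160 : WFK w14160 := fun D T h => wf_of_chk h (mem_cons (W164 D T h) (mem_cons (W368 D T h) mem_nil)) mem_nil cw14160
theorem W14161 : WFK w14161 := fun D T h => wf_of_chk h (mem_cons (W114 D T h) (mem_cons (W368 D T h) mem_nil)) mem_nil cw14161
theorem W14162 : WFK w14162 := fun D T h => wf_of_chk h (mem_cons (W2844 D T h) (mem_cons (W368 D T h) mem_nil)) mem_nil cw14162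
theorem W14163 : WFK w14163 := fun D T h => wf_of_chk h (mem_cons (W1067 D T h) (mem_cons (W368 D T h) mem_nil)) mem_nil cw14163
theorem W14164 : WFK w14164 := fun D T h => wf_of_chk h (mem_cons (W3961 D T h) (mem_cons (W368 D T h) mem_nil)) mem_nil cw14164
theorem W14165 : WFK w14165 := fun D T h => wf_of_chk h (mem_cons (W2844 D T h) (mem_cons (W368 D T h) mem_nil)) mem_nil cw14165
theorem W14167 : WFK w14167 := fun D T h => wf_of_chk h (mem_cons (W2381 D T h) (mem_cons (W368 D T h) mem_nil)) mem_nil cw14167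
theorem W14168 : WFK w14168 := fun D T h => wf_of_chk h (mem_cons (W1067 D T h) (mem_cons (W368 D T h) mem_nil)) mem_nil cw14168
theorem W14169 : WFK w14169 := fun D T h => wf_of_chk h (mem_cons (W2938 D T h) (mem_cons (W368 D T h) mem_nil)) mem_nil cw14169
theorem W14170 : WFK w14170 := fun D T h => wf_of_chk h (mem_cons (W6613 D T h) (mem_cons (W368 D T h) mem_nil)) mem_nil cw14170
theorem W14171 : WFK w14171 := fun D T h => wf_of_chk h (mem_cons (W1312 D T h) (mem_cons (W368 D T h) mem_nil)) mem_nil cw14171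
theorem W14172 : WFK w14172 := fun D T h => wf_of_chk h (mem_cons (W2936 D T h) (mem_cons (W368 D T h) mem_nil)) mem_nil cw14172
theorem L3173 : LFK l3173 := fun D T h => lf_of_chk h (mem_cons (W13767 D T h) (mem_cons (W7424 D T h) (mem_cons (W8449 D T h) (mem_cons (W8419 D T h) (mem_cons (W6891 D T h) (mem_cons (W2839 D T h) (mem_cons (W12203 D T h) (mem_cons (W9025 D T h) (mem_cons (W13790 D T h) (mem_cons (W2936 D T h) (mem_cons (W13896 D T h) (mem_cons (W2051 D T h) (mem_cons (W14170 D T h) (mem_cons (W16 D T h) (mem_cons (W7074 D T h) (mem_cons (W14159 D T h) (mem_cons (W14160 D T h) (mem_cons (W14171 D T h) (mem_cons (W14172 D T h) (mem_cons (W12634 D T h) (mem_cons (W14161 D T h) (mem_cons (W11320 D T h) (mem_cons (W14162 D T h) (mem_cons (W284 D T h) (mem_cons (W14163 D T h) (mem_cons (W14164 D T h) (mem_cons (W14165 D T h) (mem_cons (W12522 D T h) (mem_cons (W6719 D T h) (mem_cons (W5212 D T h) (mem_cons (W14032 D T h) (mem_cons (W14033 D T h) (mem_cons (W13793 D T h) (mem_cons (W14167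 D T h) (mem_cons (W14168 D T h) (mem_cons (W8417 D T h) (mem_cons (W14169 D T h) (mem_cons (W14041 D T h) (mem_cons (W13801 D T h) (mem_cons (W7083 D T h) (mem_cons (W13165 D T h) (mem_cons (W14091 D T h) (mem_cons (W14092 D T h) (mem_cons (W14093 D T h) (mem_cons (W14094 D T h) (mem_cons (W13804 D T h) (mem_cons (W14116 D T h) (mem_cons (W12520 D T h) (mem_cons (W3980 D T h) (mem_cons (W11588 D T h) (mem_cons (W13805 D T h) mem_nil))))))))))))))))))))))))))))))))))))))))))))))))))) cl3173
theorem W14173 : WFK w14173 := fun D T h => wf_of_chk h mem_nil (mem_cons (L3173 D T h) mem_nil) cw14173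
theorem W14174 : WFK w14174 := fun D T h => wf_of_chk h (mem_cons (W14173 D T h) (mem_cons (W710 D T h) mem_nil)) mem_nil cw14174
theorem W14175 : WFK w14175 := fun D T h => wf_of_chk h (mem_cons (W3565 D T h) (mem_cons (W3898 D T h) mem_nil)) mem_nil cw14175
theorem W14176 : WFK w14176 := fun D T h => wf_of_chk h (mem_cons (W93 D T h) (mem_cons (W3898 D T h) mem_nil)) mem_nil cw14176
theorem W14177 : WFK w14177 := fun D T h => wf_of_chk h (mem_cons (W93 D T h) (mem_cons (W3898 D T h) mem_nil)) mem_nil cw14177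
theorem W14178 : WFK w14178 := fun D T h => wf_of_chk h (mem_cons (W6184 D T h) (mem_cons (W3035 D T h) mem_nil)) mem_nil cw14178
theorem W14179 : WFK w14179 := fun D T h => wf_of_chk h (mem_cons (W13109 D T h) (mem_cons (W3035 D T h) mem_nil)) mem_nil cw14179
theorem W14180 : WFK w14180 := fun D T h => wf_of_chk h (mem_cons (W7558 D T h) (mem_cons (W3035 D T h) mem_nil)) mem_nil cw14180
theorem W14181 : WFK w14181 := fun D T h => wf_of_chk h (mem_cons (W7424 D T h) (mem_cons (W3035 D T h) mem_nil)) mem_nil cw14181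
theorem W14182 : WFK w14182 := fun D T h => wf_of_chk h (mem_cons (W12966 D T h) (mem_cons (W3035 D T h) mem_nil)) mem_nil cw14182
theorem W14183 : WFK w14183 := fun D T h => wf_of_chk h (mem_cons (W13119 D T h) (mem_cons (W3035 D T h) mem_nil)) mem_nil cw14183
theorem W14184 : WFK w14184 := fun D T h => wf_of_chk h mem_nil (mem_cons (L1407 D T h) mem_nil) cw14184
theorem W14185 : WFK w14185 := fun D T h => wf_of_chk h (mem_cons (W8759 D T h) (mem_cons (W3035 D T h) mem_nil)) mem_nil cw14185
theorem W14186 : WFK w14186 := fun D T h => wf_of_chk h (mem_cons (W12564 D T h) (mem_cons (W3035 D T h) mem_nil)) mem_nil cw14186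
theorem W14187 : WFK w14187 := fun D T h => wf_of_chk h mem_nil (mem_cons (L3038 D T h) mem_nil) cw14187
theorem W14188 : WFK w14188 := fun D T h => wf_of_chk h (mem_cons (W11390 D T h) (mem_cons (W16 D T h) mem_nil)) mem_nil cw14188
theorem L3174 : LFK l3174 := fun D T h => lf_of_chk h (mem_cons (W161 D T h) (mem_cons (W10 D T h) (mem_cons (W109 D T h) (mem_cons (W920 D T h) (mem_cons (W852 D T h) (mem_cons (W151 D T h) (mem_cons (W86 D T h) (mem_cons (W6311 D T h) (mem_cons (W10741 D T h) (mem_cons (W3247 D T h) (mem_cons (W428 D T h) (mem_cons (W5669 D T h) (mem_cons (W330 D T h) (mem_cons (W10055 D T h) (mem_cons (W817 D T h) (mem_cons (W33 D T h) (mem_cons (W1075 D T h) (mem_cons (W7 D T h) mem_nil)))))))))))))))))) cl3174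
theorem W14189 : WFK w14189 := fun D T h => wf_of_chk h mem_nil (mem_cons (L3174 D T h) mem_nil) cw14189
theorem W14190 : WFK w14190 := fun D T h => wf_of_chk h (mem_cons (W14189 D T h) (mem_cons (W16 D T h) mem_nil)) mem_nil cw14190
theorem W14191 : WFK w14191 := fun D T h => wf_of_chk h (mem_cons (W4025 D T h) (mem_cons (W16 D T h) mem_nil)) mem_nil cw14191
theorem W14192 : WFK w14192 := fun D T h => wf_of_chk h (mem_cons (W5212 D T h) (mem_cons (W16 D T h) mem_nil)) mem_nil cw14192
theorem L3175 : LFK l3175 := fun D T h => lf_of_chk h (mem_cons (W2740 D T h) (mem_cons (W7171 D T h) (mem_cons (W539 D T h) (mem_cons (W359 D T h) (mem_cons (W864 D T h) (mem_cons (W216 D T h) mem_nil)))))) cl3175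
theorem W14193 : WFK w14193 := fun D T h => wf_of_chk h mem_nil (mem_cons (L3175 D T h) mem_nil) cw14193
theorem W14194 : WFK w14194 := fun D T h => wf_of_chk h mem_nil (mem_cons (L3002 D T h) mem_nil) cw14194
theorem W14195 : WFK w14195 := fun D T h => wf_of_chk h mem_nil (mem_cons (L3002 D T h) mem_nil) cw14195
theorem W14196 : WFK w14196 := fun D T h => wf_of_chk h (mem_cons (W351 D T h) (mem_cons (W16 D T h) mem_nil)) mem_nil cw14196
theorem W14199 : WFK w14199 := fun D T h => wf_of_chk h (mem_cons (W391 D T h) (mem_cons (W16 D T h) mem_nil)) mem_nil cw14199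
theorem W14200 : WFK w14200 := fun D T h => wf_of_chk h mem_nil (mem_cons (L134 D T h) mem_nil) cw14200
theorem W14201 : WFK w14201 := fun D T h => wf_of_chk h (mem_cons (W11445 D T h) mem_nil) mem_nil cw14201
theorem W14202 : WFK w14202 := fun D T h => wf_of_chk h (mem_cons (W281 D T h) mem_nil) mem_nil cw14202
theorem W14203 : WFK w14203 := fun D T h => wf_of_chk h mem_nil (mem_cons (L1518 D T h) mem_nil) cw14203
theorem W14204 : WFK w14204 := fun D T h => wf_of_chk h mem_nil (mem_cons (L2581 D T h) mem_nil) cw14204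
theorem L3176 : LFK l3176 := fun D T h => lf_of_chk h (mem_cons (W2548 D T h) (mem_cons (W9025 D T h) (mem_cons (W16 D T h) (mem_cons (W281 D T h) (mem_cons (W14200 D T h) (mem_cons (W3182 D T h) (mem_cons (W7528 D T h) (mem_cons (W14201 D T h) (mem_cons (W1170 D T h) (mem_cons (W112 D T h) (mem_cons (W2674 D T h) (mem_cons (W13202 D T h) (mem_cons (W12301 D T h) (mem_cons (W8273 D T h) (mem_cons (W13383 D T h) (mem_cons (W2305 D T h) (mem_cons (W14202 D T h) (mem_cons (W14203 D T h) (mem_cons (W14204 D T h) (mem_cons (W5721 D T h) (mem_cons (W13636 D T h) (mem_cons (W13735 D T h) (mem_cons (W14193 D T h) (mem_cons (W6719 D T h) (mem_cons (W11267 D T h) (mem_cons (W7316 D T h) (mem_cons (W11228 D T h) (mem_cons (W13015 D T h) (mem_cons (W13013 D T h) (mem_cons (W14194 D T h) (mem_cons (W14195 D T h) (mem_cons (W13016 D T h) (mem_cons (W2545 D T h) (mem_cons (W12965 D T h) (mem_cons (W14196 D T h) (mem_cons (W14199 D T h) mem_nil)))))))))))))))))))))))))))))))))))) cl3176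
theorem W14205 : WFK w14205 := fun D T h => wf_of_chk h mem_nil (mem_cons (L3176 D T h) mem_nil) cw14205
theorem W14206 : WFK w14206 := fun D T h => wf_of_chk h (mem_cons (W162 D T h) (mem_cons (W9735 D T h) mem_nil)) mem_nil cw14206
theorem W14207 : WFK w14207 := fun D T h => wf_of_chk h (mem_cons (W11445 D T h) (mem_cons (W16 D T h) mem_nil)) mem_nil cw14207
theorem L3177 : LFK l3177 := fun D T h => lf_of_chk h (mem_cons (W5841 D T h) (mem_cons (W3 D T h) (mem_cons (W39 D T h) (mem_cons (W461 D T h) (mem_cons (W1929 D T h) (mem_cons (W42 D T h) (mem_cons (W11373 D T h) (mem_cons (W937 D T h) (mem_cons (W2642 D T h) (mem_cons (W281 D T h) (mem_cons (W1170 D T h) (mem_cons (W1326 D T h) (mem_cons (W1325 D T h) (mem_cons (W1556 D T h) (mem_cons (W1554 D T h) (mem_cons (W86 D T h) mem_nil)))))))))))))))) cl3177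
theorem W14208 : WFK w14208 := fun D T h => wf_of_chk h mem_nil (mem_cons (L3177 D T h) mem_nil) cw14208
theorem W14209 : WFK w14209 := fun D T h => wf_of_chk h (mem_cons (W14208 D T h) (mem_cons (W16 D T h) mem_nil)) mem_nil cw14209
theorem W14210 : WFK w14210 := fun D T h => wf_of_chk h (mem_cons (W2844 D T h) mem_nil) mem_nil cw14210
theorem W14211 : WFK w14211 := fun D T h => wf_of_chk h (mem_cons (W10230 D T h) (mem_cons (W16 D T h) mem_nil)) mem_nil cw14211
theorem W14212 : WFK w14212 := fun D T h => wf_of_chk h mem_nil (mem_cons (L1637 D T h) mem_nil) cw14212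
theorem W14213 : WFK w14213 := fun D T h => wf_of_chk h (mem_cons (W14212 D T h) (mem_cons (W16 D T h) mem_nil)) mem_nil cw14213
theorem W14214 : WFK w14214 := fun D T h => wf_of_chk h (mem_cons (W69 D T h) (mem_cons (W281 D T h) mem_nil)) mem_nil cw14214
theorem L3178 : LFK l3178 := fun D T h => lf_of_chk h (mem_cons (W5606 D T h) (mem_cons (W831 D T h) (mem_cons (W7171 D T h) (mem_cons (W8753 D T h) (mem_cons (W884 D T h) mem_nil))))) cl3178
theorem W14215 : WFK w14215 := fun D T h => wf_of_chk h mem_nil (mem_cons (L3178 D T h) mem_nil) cw14215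
theorem L3179 : LFK l3179 := fun D T h => lf_of_chk h (mem_cons (W14199 D T h) (mem_cons (W6613 D T h) (mem_cons (W281 D T h) (mem_cons (W112 D T h) (mem_cons (W1170 D T h) (mem_cons (W2674 D T h) (mem_cons (W13202 D T h) (mem_cons (W2305 D T h) (mem_cons (W8273 D T h) (mem_cons (W13383 D T h) (mem_cons (W11203 D T h) (mem_cons (W3792 D T h) (mem_cons (W14203 D T h) (mem_cons (W14204 D T h) (mem_cons (W13636 D T h) (mem_cons (W14214 D T h) (mem_cons (W13735 D T h) (mem_cons (W16 D T h) (mem_cons (W14200 D T h) (mem_cons (W3182 D T h) (mem_cons (W7528 D T h) (mem_cons (W2548 D T h) (mem_cons (W14215 D T h) (mem_cons (W14193 D T h) (mem_cons (W5606 D T h) (mem_cons (W7316 D T h) (mem_cons (W11267 D T h) (mem_cons (W11228 D T h) (mem_cons (W13015 D T h) (mem_cons (W13013 D T h) (mem_cons (W14210 D T h) (mem_cons (W14211 D T h) (mem_cons (W14213 D T h) (mem_cons (W2545 D T h) (mem_cons (W5432 D T h) (mem_cons (W14196 D T h) mem_nil)))))))))))))))))))))))))))))))))))) cl3179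
theorem W14216 : WFK w14216 := fun D T h => wf_of_chk h mem_nil (mem_cons (L3179 D T h) mem_nil) cw14216
theorem W14217 : WFK w14217 := fun D T h => wf_of_chk h (mem_cons (W162 D T h) (mem_cons (W13790 D T h) mem_nil)) mem_nil cw14217
theorem L3180 : LFK l3180 := fun D T h => lf_of_chk h (mem_cons (W12491 D T h) (mem_cons (W7424 D T h) (mem_cons (W2861 D T h) (mem_cons (W8419 D T h) (mem_cons (W9025 D T h) (mem_cons (W2709 D T h) (mem_cons (W2936 D T h) (mem_cons (W16 D T h) (mem_cons (W2051 D T h) (mem_cons (W14216 D T h) (mem_cons (W10822 D T h) (mem_cons (W14217 D T h) (mem_cons (W12634 D T h) (mem_cons (W14207 D T h) (mem_cons (W3958 D T h) (mem_cons (W7293 D T h) (mem_cons (W284 D T h) (mem_cons (W12328 D T h) (mem_cons (W12330 D T h) (mem_cons (W14209 D T h) (mem_cons (W14205 D T h) (mem_cons (W14206 D T h) (mem_cons (W14188 D T h) (mem_cons (W14190 D T h) (mem_cons (W10774 D T h) (mem_cons (W6719 D T h) (mem_cons (W12348 D T h) (mem_cons (W10775 D T h) (mem_cons (W14191 D T h) (mem_cons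 (W7425 D T h) (mem_cons (W8769 D T h) (mem_cons (W14192 D T h) (mem_cons (W12354 D T h) (mem_cons (W13801 D T h) (mem_cons (W12306 D T h) (mem_cons (W13897 D T h) mem_nil)))))))))))))))))))))))))))))))))))) cl3180
theorem W14218 : WFK w14218 := fun D T h => wf_of_chk h mem_nil (mem_cons (L3180 D T h) mem_nil) cw14218
theorem W14219 : WFK w14219 := fun D T h => wf_of_chk h mem_nil (mem_cons (L3038 D T h) mem_nil) cw14219
theorem L3181 : LFK l3181 := fun D T h => lf_of_chk h (mem_cons (W13111 D T h) (mem_cons (W3973 D T h) (mem_cons (W8449 D T h) (mem_cons (W8111 D T h) (mem_cons (W3974 D T h) (mem_cons (W337 D T h) (mem_cons (W12203 D T h) (mem_cons (W2839 D T h) (mem_cons (W1599 D T h) (mem_cons (W16 D T h) (mem_cons (W3408 D T h) (mem_cons (W13104 D T h) (mem_cons (W14182 D T h) (mem_cons (W10822 D T h) (mem_cons (W14183 D T h) (mem_cons (W284 D T h) (mem_cons (W14181 D T h) (mem_cons (W12634 D T h) (mem_cons (W14178 D T h) (mem_cons (W11320 D T h) (mem_cons (W13106 D T h) (mem_cons (W13108 D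 T h) (mem_cons (W13107 D T h) (mem_cons (W14179 D T h) (mem_cons (W5567 D T h) (mem_cons (W2936 D T h) (mem_cons (W2861 D T h) (mem_cons (W2051 D T h) (mem_cons (W12522 D T h) (mem_cons (W12366 D T h) (mem_cons (W12621 D T h) (mem_cons (W5212 D T h) (mem_cons (W13907 D T h) (mem_cons (W13113 D T h) (mem_cons (W13138 D T h) (mem_cons (W8417 D T h) (mem_cons (W14180 D T h) (mem_cons (W13140 D T h) (mem_cons (W8759 D T h) (mem_cons (W7083 D T h) (mem_cons (W458 D T h) (mem_cons (W14184 D T h) (mem_cons (W14185 D T h) (mem_cons (W13122 D T h) (mem_cons (W13123 D T h) (mem_cons (W8746 D T h) (mem_cons (W13124 D T h) (mem_cons (W14186 D T h) (mem_cons (W14187 D T h) (mem_cons (W14218 D T h) (mem_cons (W14219 D T h) (mem_cons (W13129 D T h) (mem_cons (W7177 D T h) (mem_cons (W13128 D T h) (mem_cons (W13127 D T h) mem_nil))))))))))))))))))))))))))))))))))))))))))))))))))))))) cl3181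
theorem W14220 : WFK w14220 := fun D T h => wf_of_chk h mem_nil (mem_cons (L3181 D T h) mem_nil) cw14220
theorem W14221 : WFK w14221 := fun D T h => wf_of_chk h (mem_cons (W16 D T h) (mem_cons (W112 D T h) mem_nil)) mem_nil cw14221
theorem W14222 : WFK w14222 := fun D T h => wf_of_chk h (mem_cons (W162 D T h) mem_nil) mem_nil cw14222
theorem W14223 : WFK w14223 := fun D T h => wf_of_chk h mem_nil (mem_cons (L1190 D T h) mem_nil) cw14223
theorem W14224 : WFK w14224 := fun D T h => wf_of_chk h (mem_cons (W220 D T h) (mem_cons (W112 D T h) mem_nil)) mem_nil cw14224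
theorem W14225 : WFK w14225 := fun D T h => wf_of_chk h mem_nil (mem_cons (L202 D T h) mem_nil) cw14225
theorem W14226 : WFK w14226 := fun D T h => wf_of_chk h mem_nil (mem_cons (L1217 D T h) mem_nil) cw14226
theorem W14227 : WFK w14227 := fun D T h => wf_of_chk h mem_nil (mem_cons (L1217 D T h) mem_nil) cw14227
theorem W14228 : WFK w14228 := fun D T h => wf_of_chk h (mem_cons (W112 D T h) mem_nil) mem_nil cw14228
theorem W14229 : WFK w14229 := fun D T h => wf_of_chk h mem_nil (mem_cons (L391 D T h) mem_nil) cw14229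
theorem L3182 : LFK l3182 := fun D T h => lf_of_chk h (mem_cons (W8331 D T h) (mem_cons (W1170 D T h) (mem_cons (W15 D T h) (mem_cons (W2180 D T h) (mem_cons (W281 D T h) (mem_cons (W220 D T h) (mem_cons (W13386 D T h) (mem_cons (W13387 D T h) (mem_cons (W14229 D T h) (mem_cons (W14008 D T h) (mem_cons (W144 D T h) (mem_cons (W659 D T h) (mem_cons (W149 D T h) (mem_cons (W4954 D T h) (mem_cons (W1379 D T h) (mem_cons (W2740 D T h) (mem_cons (W2743 D T h) (mem_cons (W7344 D T h) (mem_cons (W7343 D T h) (mem_cons (W14225 D T h) (mem_cons (W14226 D T h) (mem_cons (W14227 D T h) (mem_cons (W14228 D T h) mem_nil))))))))))))))))))))))) cl3182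
theorem W14230 : WFK w14230 := fun D T h => wf_of_chk h mem_nil (mem_cons (L3182 D T h) mem_nil) cw14230
theorem W14231 : WFK w14231 := fun D T h => wf_of_chk h mem_nil (mem_cons (L3182 D T h) mem_nil) cw14231
theorem W14232 : WFK w14232 := fun D T h => wf_of_chk h mem_nil (mem_cons (L3182 D T h) mem_nil) cw14232
theorem W14233 : WFK w14233 := fun D T h => wf_of_chk h (mem_cons (W164 D T h) mem_nil) mem_nil cw14233
theorem W14234 : WFK w14234 := fun D T h => wf_of_chk h mem_nil (mem_cons (L2009 D T h) mem_nil) cw14234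
theorem W14235 : WFK w14235 := fun D T h => wf_of_chk h (mem_cons (W1139 D T h) mem_nil) mem_nil cw14235
theorem W14236 : WFK w14236 := fun D T h => wf_of_chk h (mem_cons (W11459 D T h) (mem_cons (W16 D T h) mem_nil)) mem_nil cw14236
theorem W14237 : WFK w14237 := fun D T h => wf_of_chk h (mem_cons (W1207 D T h) mem_nil) mem_nil cw14237
theorem W14238 : WFK w14238 := fun D T h => wf_of_chk h (mem_cons (W162 D T h) (mem_cons (W112 D T h) mem_nil)) mem_nil cw14238
theorem W14239 : WFK w14239 := fun D T h => wf_of_chk h (mem_cons (W5841 D T h) mem_nil) mem_nil cw14239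
theorem W14240 : WFK w14240 := fun D T h => wf_of_chk h (mem_cons (W971 D T h) (mem_cons (W16 D T h) mem_nil)) mem_nil cw14240
theorem W14241 : WFK w14241 := fun D T h => wf_of_chk h (mem_cons (W1829 D T h) (mem_cons (W16 D T h) mem_nil)) mem_nil cw14241
theorem L3183 : LFK l3183 := fun D T h => lf_of_chk h (mem_cons (W14221 D T h) (mem_cons (W2839 D T h) (mem_cons (W2346 D T h) (mem_cons (W14233 D T h) (mem_cons (W161 D T h) (mem_cons (W1637 D T h) (mem_cons (W4924 D T h) (mem_cons (W2089 D T h) (mem_cons (W14239 D T h) (mem_cons (W9760 D T h) (mem_cons (W1170 D T h) (mem_cons (W16 D T h) (mem_cons (W13202 D T h) (mem_cons (W5875 D T h) (mem_cons (W14222 D T h) (mem_cons (W14237 D T h) (mem_cons (W14238 D T h) (mem_cons (W10822 D T h) (mem_cons (W284 D T h) (mem_cons (W14223 D T h) (mem_cons (W8331 D T h) (mem_cons (W2538 D T h) (mem_cons (W8332 D T h) (mem_cons (W14224 D T h) (mem_cons (W14230 D T h) (mem_cons (W14231 D T h) (mem_cons (W14232 D T h) (mem_cons (W8349 D T h) (mem_cons (W1747 D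 T h) (mem_cons (W5606 D T h) (mem_cons (W5471 D T h) (mem_cons (W13906 D T h) (mem_cons (W7339 D T h) (mem_cons (W11047 D T h) (mem_cons (W14234 D T h) (mem_cons (W14235 D T h) (mem_cons (W14236 D T h) (mem_cons (W5247 D T h) (mem_cons (W13180 D T h) (mem_cons (W14240 D T h) (mem_cons (W5879 D T h) (mem_cons (W14241 D T h) (mem_cons (W69 D T h) mem_nil))))))))))))))))))))))))))))))))))))))))))) cl3183
theorem W14242 : WFK w14242 := fun D T h => wf_of_chk h mem_nil (mem_cons (L3183 D T h) mem_nil) cw14242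
theorem W14243 : WFK w14243 := fun D T h => wf_of_chk h (mem_cons (W14242 D T h) (mem_cons (W710 D T h) mem_nil)) mem_nil cw14243
theorem W14244 : WFK w14244 := fun D T h => wf_of_chk h (mem_cons (W497 D T h) (mem_cons (W34 D T h) mem_nil)) mem_nil cw14244
theorem W14245 : WFK w14245 := fun D T h => wf_of_chk h mem_nil (mem_cons (L150 D T h) mem_nil) cw14245
theorem L3184 : LFK l3184 := fun D T h => lf_of_chk h (mem_cons (W14245 D T h) (mem_cons (W411 D T h) (mem_cons (W136 D T h) (mem_cons (W8651 D T h) (mem_cons (W10010 D T h) (mem_cons (W8638 D T h) (mem_cons (W14045 D T h) mem_nil))))))) cl3184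
theorem W14246 : WFK w14246 := fun D T h => wf_of_chk h mem_nil (mem_cons (L3184 D T h) mem_nil) cw14246
theorem W14247 : WFK w14247 := fun D T h => wf_of_chk h mem_nil (mem_cons (L1055 D T h) mem_nil) cw14247
theorem L3185 : LFK l3185 := fun D T h => lf_of_chk h (mem_cons (W831 D T h) (mem_cons (W32 D T h) (mem_cons (W14246 D T h) (mem_cons (W14247 D T h) mem_nil)))) cl3185
theorem W14248 : WFK w14248 := fun D T h => wf_of_chk h mem_nil (mem_cons (L3185 D T h) mem_nil) cw14248
theorem W14263 : WFK w14263 := fun D T h => wf_of_chk h (mem_cons (W14242 D T h) mem_nil) mem_nil cw14263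
theorem W14264 : WFK w14264 := fun D T h => wf_of_chk h (mem_cons (W78 D T h) (mem_cons (W497 D T h) mem_nil)) mem_nil cw14264
theorem W14265 : WFK w14265 := fun D T h => wf_of_chk h (mem_cons (W3297 D T h) (mem_cons (W497 D T h) mem_nil)) mem_nil cw14265
theorem W14266 : WFK w14266 := fun D T h => wf_of_chk h (mem_cons (W2228 D T h) (mem_cons (W497 D T h) mem_nil)) mem_nil cw14266
theorem W14267 : WFK w14267 := fun D T h => wf_of_chk h (mem_cons (W1576 D T h) (mem_cons (W497 D T h) mem_nil)) mem_nil cw14267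
theorem L3186 : LFK l3186 := fun D T h => lf_of_chk h (mem_cons (W4209 D T h) (mem_cons (W14248 D T h) (mem_cons (W8342 D T h) (mem_cons (W69 D T h) (mem_cons (W1 D T h) (mem_cons (W83 D T h) (mem_cons (W93 D T h) (mem_cons (W3688 D T h) (mem_cons (W4566 D T h) (mem_cons (W3565 D T h) (mem_cons (W14264 D T h) (mem_cons (W80 D T h) (mem_cons (W91 D T h) (mem_cons (W8105 D T h) (mem_cons (W4259 D T h) (mem_cons (W521 D T h) (mem_cons (W14265 D T h) (mem_cons (W14263 D T h) (mem_cons (W111 D T h) (mem_cons (W370 D T h) (mem_cons (W721 D T h) (mem_cons (W267 D T h) (mem_cons (W114 D T h) (mem_cons (W14266 D T h) (mem_cons (W14267 D T h) mem_nil))))))))))))))))))))))))) cl3186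
theorem W14268 : WFK w14268 := fun D T h => wf_of_chk h mem_nil (mem_cons (L3186 D T h) mem_nil) cw14268
theorem W14269 : WFK w14269 := fun D T h => wf_of_chk h mem_nil (mem_cons (L1998 D T h) mem_nil) cw14269
theorem W14270 : WFK w14270 := fun D T h => wf_of_chk h (mem_cons (W114 D T h) (mem_cons (W368 D T h) mem_nil)) mem_nil cw14270
theorem W14271 : WFK w14271 := fun D T h => wf_of_chk h (mem_cons (W257 D T h) mem_nil) mem_nil cw14271
theorem W14272 : WFK w14272 := fun D T h => wf_of_chk h (mem_cons (W7250 D T h) (mem_cons (W220 D T h) mem_nil)) mem_nil cw14272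
theorem W14273 : WFK w14273 := fun D T h => wf_of_chk h (mem_cons (W351 D T h) (mem_cons (W220 D T h) mem_nil)) mem_nil cw14273
theorem W14274 : WFK w14274 := fun D T h => wf_of_chk h (mem_cons (W391 D T h) (mem_cons (W220 D T h) mem_nil)) mem_nil cw14274
theorem W14275 : WFK w14275 := fun D T h => wf_of_chk h mem_nil (mem_cons (L1190 D T h) mem_nil) cw14275
theorem L3187 : LFK l3187 := fun D T h => lf_of_chk h (mem_cons (W8755 D T h) (mem_cons (W5212 D T h) (mem_cons (W6776 D T h) (mem_cons (W5606 D T h) (mem_cons (W1637 D T h) (mem_cons (W1449 D T h) (mem_cons (W2089 D T h) (mem_cons (W13048 D T h) (mem_cons (W14274 D T h) (mem_cons (W241 D T h) (mem_cons (W390 D T h) (mem_cons (W220 D T h) (mem_cons (W14275 D T h) (mem_cons (W11054 D T h) (mem_cons (W14215 D T h) (mem_cons (W6749 D T h) (mem_cons (W14271 D T h) (mem_cons (W7250 D T h) (mem_cons (W8751 D T h) (mem_cons (W7313 D T h) (mem_cons (W14272 D T h) (mem_cons (W7252 D T h) (mem_cons (W497 D T h) (mem_cons (W14273 D T h) mem_nil))))))))))))))))))))))))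 cl3187
theorem W14276 : WFK w14276 := fun D T h => wf_of_chk h mem_nil (mem_cons (L3187 D T h) mem_nil) cw14276
theorem W14277 : WFK w14277 := fun D T h => wf_of_chk h (mem_cons (W1067 D T h) (mem_cons (W368 D T h) mem_nil)) mem_nil cw14277
theorem W14278 : WFK w14278 := fun D T h => wf_of_chk h (mem_cons (W220 D T h) (mem_cons (W5481 D T h) mem_nil)) mem_nil cw14278
theorem W14279 : WFK w14279 := fun D T h => wf_of_chk h (mem_cons (W2844 D T h) (mem_cons (W368 D T h) mem_nil)) mem_nil cw14279
theorem W14280 : WFK w14280 := fun D T h => wf_of_chk h (mem_cons (W1019 D T h) (mem_cons (W368 D T h) mem_nil)) mem_nil cw14280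
theorem W14281 : WFK w14281 := fun D T h => wf_of_chk h mem_nil (mem_cons (L3144 D T h) mem_nil) cw14281
theorem W14282 : WFK w14282 := fun D T h => wf_of_chk h (mem_cons (W5473 D T h) (mem_cons (W16 D T h) mem_nil)) mem_nil cw14282
theorem W14283 : WFK w14283 := fun D T h => wf_of_chk h (mem_cons (W2454 D T h) (mem_cons (W16 D T h) mem_nil)) mem_nil cw14283
theorem W14284 : WFK w14284 := fun D T h => wf_of_chk h mem_nil (mem_cons (L1690 D T h) mem_nil) cw14284
theorem W14285 : WFK w14285 := fun D T h => wf_of_chk h (mem_cons (W1067 D T h) (mem_cons (W368 D T h) mem_nil)) mem_nil cw14285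
theorem W14286 : WFK w14286 := fun D T h => wf_of_chk h (mem_cons (W16 D T h) mem_nil) mem_nil cw14286
theorem W14287 : WFK w14287 := fun D T h => wf_of_chk h (mem_cons (W4645 D T h) (mem_cons (W16 D T h) mem_nil)) mem_nil cw14287
theorem W14289 : WFK w14289 := fun D T h => wf_of_chk h mem_nil (mem_cons (L2674 D T h) mem_nil) cw14289
theorem W14290 : WFK w14290 := fun D T h => wf_of_chk h mem_nil (mem_cons (L2476 D T h) mem_nil) cw14290
theorem W14291 : WFK w14291 := fun D T h => wf_of_chk h (mem_cons (W7316 D T h) (mem_cons (W16 D T h) mem_nil)) mem_nil cw14291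
theorem W14292 : WFK w14292 := fun D T h => wf_of_chk h mem_nil (mem_cons (L3178 D T h) mem_nil) cw14292
theorem W14293 : WFK w14293 := fun D T h => wf_of_chk h mem_nil (mem_cons (L3178 D T h) mem_nil) cw14293
theorem L3188 : LFK l3188 := fun D T h => lf_of_chk h (mem_cons (W7313 D T h) (mem_cons (W5212 D T h) (mem_cons (W1747 D T h) (mem_cons (W2122 D T h) (mem_cons (W13164 D T h) (mem_cons (W4593 D T h) (mem_cons (W11878 D T h) (mem_cons (W14289 D T h) (mem_cons (W14290 D T h) (mem_cons (W7331 D T h) (mem_cons (W14291 D T h) (mem_cons (W16 D T h) (mem_cons (W11228 D T h) (mem_cons (W7321 D T h) (mem_cons (W7322 D T h) (mem_cons (W14292 D T h) (mem_cons (W6170 D T h) (mem_cons (W14293 D T h) (mem_cons (W1986 D T h) (mem_cons (W7250 D T h) (mem_cons (W5606 D T h) (mem_cons (W4650 D T h) (mem_cons (W7328 D T h) (mem_cons (W7330 D T h) (mem_cons (W7327 D T h) (mem_cons (W7329 D T h) (mem_cons (W14286 D T h) (mem_cons (W7314 D T h) (mem_cons (W14287 D T h) mem_nil))))))))))))))))))))))))))))) cl3188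
theorem W14294 : WFK w14294 := fun D T h => wf_of_chk h mem_nil (mem_cons (L3188 D T h) mem_nil) cw14294
theorem W14295 : WFK w14295 := fun D T h => wf_of_chk h (mem_cons (W1312 D T h) (mem_cons (W368 D T h) mem_nil)) mem_nil cw14295
theorem W14296 : WFK w14296 := fun D T h => wf_of_chk h (mem_cons (W267 D T h) mem_nil) mem_nil cw14296
theorem W14297 : WFK w14297 := fun D T h => wf_of_chk h (mem_cons (W351 D T h) (mem_cons (W162 D T h) mem_nil)) mem_nil cw14297
theorem W14301 : WFK w14301 := fun D T h => wf_of_chk h (mem_cons (W391 D T h) (mem_cons (W162 D T h) mem_nil)) mem_nil cw14301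
theorem L3189 : LFK l3189 := fun D T h => lf_of_chk h (mem_cons (W8755 D T h) (mem_cons (W8255 D T h) (mem_cons (W2645 D T h) (mem_cons (W1637 D T h) (mem_cons (W5606 D T h) (mem_cons (W11326 D T h) (mem_cons (W2089 D T h) (mem_cons (W13048 D T h) (mem_cons (W14301 D T h) (mem_cons (W241 D T h) (mem_cons (W390 D T h) (mem_cons (W162 D T h) (mem_cons (W7266 D T h) (mem_cons (W7265 D T h) (mem_cons (W8752 D T h) (mem_cons (W13047 D T h) (mem_cons (W14215 D T h) (mem_cons (W11054 D T h) (mem_cons (W1986 D T h) (mem_cons (W7250 D T h) (mem_cons (W14296 D T h) (mem_cons (W8751 D T h) (mem_cons (W7313 D T h) (mem_cons (W8750 D T h) (mem_cons (W7252 D T h) (mem_cons (W497 D T h) (mem_cons (W14297 D T h) mem_nil))))))))))))))))))))))))))) cl3189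
theorem W14302 : WFK w14302 := fun D T h => wf_of_chk h mem_nil (mem_cons (L3189 D T h) mem_nil) cw14302
theorem W14303 : WFK w14303 := fun D T h => wf_of_chk h (mem_cons (W716 D T h) (mem_cons (W16 D T h) mem_nil)) mem_nil cw14303
theorem W14304 : WFK w14304 := fun D T h => wf_of_chk h (mem_cons (W112 D T h) (mem_cons (W16 D T h) mem_nil)) mem_nil cw14304
theorem W14305 : WFK w14305 := fun D T h => wf_of_chk h (mem_cons (W337 D T h) mem_nil) mem_nil cw14305
theorem W14306 : WFK w14306 := fun D T h => wf_of_chk h mem_nil (mem_cons (L3154 D T h) mem_nil) cw14306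
theorem W14307 : WFK w14307 := fun D T h => wf_of_chk h mem_nil (mem_cons (L3154 D T h) mem_nil) cw14307
theorem W14308 : WFK w14308 := fun D T h => wf_of_chk h mem_nil (mem_cons (L1998 D T h) mem_nil) cw14308
theorem W14309 : WFK w14309 := fun D T h => wf_of_chk h (mem_cons (W16 D T h) mem_nil) mem_nil cw14309
theorem W14310 : WFK w14310 := fun D T h => wf_of_chk h (mem_cons (W78 D T h) mem_nil) mem_nil cw14310
theorem W14311 : WFK w14311 := fun D T h => wf_of_chk h (mem_cons (W539 D T h) mem_nil) mem_nil cw14311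
theorem L3190 : LFK l3190 := fun D T h => lf_of_chk h (mem_cons (W14310 D T h) (mem_cons (W33 D T h) (mem_cons (W2204 D T h) (mem_cons (W539 D T h) (mem_cons (W4659 D T h) (mem_cons (W404 D T h) (mem_cons (W14311 D T h) (mem_cons (W4695 D T h) mem_nil)))))))) cl3190
theorem W14312 : WFK w14312 := fun D T h => wf_of_chk h mem_nil (mem_cons (L3190 D T h) mem_nil) cw14312
theorem W14313 : WFK w14313 := fun D T h => wf_of_chk h mem_nil (mem_cons (L871 D T h) mem_nil) cw14313
theorem W14314 : WFK w14314 := fun D T h => wf_of_chk h (mem_cons (W33 D T h) mem_nil) mem_nil cw14314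
theorem L3191 : LFK l3191 := fun D T h => lf_of_chk h (mem_cons (W4658 D T h) (mem_cons (W4659 D T h) (mem_cons (W4695 D T h) (mem_cons (W14313 D T h) (mem_cons (W14314 D T h) (mem_cons (W78 D T h) (mem_cons (W4693 D T h) (mem_cons (W802 D T h) (mem_cons (W539 D T h) (mem_cons (W404 D T h) (mem_cons (W473 D T h) (mem_cons (W1804 D T h) (mem_cons (W4913 D T h) (mem_cons (W4692 D T h) mem_nil)))))))))))))) cl3191
theorem W14315 : WFK w14315 := fun D T h => wf_of_chk h mem_nil (mem_cons (L3191 D T h) mem_nil) cw14315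
theorem W14316 : WFK w14316 := fun D T h => wf_of_chk h mem_nil (mem_cons (L3190 D T h) mem_nil) cw14316
theorem W14317 : WFK w14317 := fun D T h => wf_of_chk h mem_nil (mem_cons (L758 D T h) mem_nil) cw14317
theorem W14318 : WFK w14318 := fun D T h => wf_of_chk h mem_nil (mem_cons (L1064 D T h) mem_nil) cw14318
theorem L3192 : LFK l3192 := fun D T h => lf_of_chk h (mem_cons (W7712 D T h) (mem_cons (W1170 D T h) (mem_cons (W33 D T h) (mem_cons (W539 D T h) (mem_cons (W78 D T h) (mem_cons (W1804 D T h) (mem_cons (W4658 D T h) (mem_cons (W12743 D T h) (mem_cons (W14312 D T h) (mem_cons (W14317 D T h) (mem_cons (W3241 D T h) (mem_cons (W14315 D T h) (mem_cons (W14316 D T h) (mem_cons (W6230 D T h) (mem_cons (W128 D T h) (mem_cons (W6231 D T h) (mem_cons (W91 D T h) (mem_cons (W912 D T h) (mem_cons (W80 D T h) (mem_cons (W3299 D T h) (mem_cons (W216 D T h) (mem_cons (W14318 D T h) (mem_cons (W8025 D T h) (mem_cons (W14309 D T h) (mem_cons (W6237 D T h) (mem_cons (W13663 D T h) (mem_cons (W12997 D T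 h) mem_nil))))))))))))))))))))))))))) cl3192
theorem W14320 : WFK w14320 := fun D T h => wf_of_chk h mem_nil (mem_cons (L3192 D T h) mem_nil) cw14320
theorem W14321 : WFK w14321 := fun D T h => wf_of_chk h (mem_cons (W14320 D T h) (mem_cons (W16 D T h) mem_nil)) mem_nil cw14321
theorem W14322 : WFK w14322 := fun D T h => wf_of_chk h mem_nil (mem_cons (L1998 D T h) mem_nil) cw14322
theorem L3193 : LFK l3193 := fun D T h => lf_of_chk h (mem_cons (W14269 D T h) (mem_cons (W6613 D T h) (mem_cons (W2839 D T h) (mem_cons (W12203 D T h) (mem_cons (W2936 D T h) (mem_cons (W10049 D T h) (mem_cons (W14303 D T h) (mem_cons (W7424 D T h) (mem_cons (W2051 D T h) (mem_cons (W8419 D T h) (mem_cons (W14280 D T h) (mem_cons (W16 D T h) (mem_cons (W5481 D T h) (mem_cons (W6167 D T h) (mem_cons (W8449 D T h) (mem_cons (W13553 D T h) (mem_cons (W14295 D T h) (mem_cons (W10822 D T h) (mem_cons (W14302 D T h) (mem_cons (W284 D T h) (mem_cons (W8128 D T h) (mem_cons (W14270 D T h) (mem_cons (W12634 D T h) (mem_cons (W11320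 D T h) (mem_cons (W14276 D T h) (mem_cons (W14277 D T h) (mem_cons (W14278 D T h) (mem_cons (W14279 D T h) (mem_cons (W12522 D T h) (mem_cons (W12366 D T h) (mem_cons (W10059 D T h) (mem_cons (W14281 D T h) (mem_cons (W14282 D T h) (mem_cons (W14283 D T h) (mem_cons (W14284 D T h) (mem_cons (W14285 D T h) (mem_cons (W8417 D T h) (mem_cons (W14294 D T h) (mem_cons (W8759 D T h) (mem_cons (W7082 D T h) (mem_cons (W12628 D T h) (mem_cons (W12517 D T h) (mem_cons (W3977 D T h) (mem_cons (W14305 D T h) (mem_cons (W14091 D T h) (mem_cons (W11065 D T h) (mem_cons (W14306 D T h) (mem_cons (W14307 D T h) (mem_cons (W14304 D T h) (mem_cons (W13801 D T h) (mem_cons (W7083 D T h) (mem_cons (W8330 D T h) (mem_cons (W14308 D T h) (mem_cons (W34 D T h) (mem_cons (W14321 D T h) (mem_cons (W14322 D T h) mem_nil)))))))))))))))))))))))))))))))))))))))))))))))))))))))) cl3193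
theorem W14323 : WFK w14323 := fun D T h => wf_of_chk h mem_nil (mem_cons (L3193 D T h) mem_nil) cw14323
theorem W14324 : WFK w14324 := fun D T h => wf_of_chk h (mem_cons (W14323 D T h) (mem_cons (W710 D T h) mem_nil)) mem_nil cw14324
theorem W14325 : WFK w14325 := fun D T h => wf_of_chk h mem_nil (mem_cons (L3143 D T h) mem_nil) cw14325
theorem W14326 : WFK w14326 := fun D T h => wf_of_chk h (mem_cons (W7230 D T h) (mem_cons (W34 D T h) mem_nil)) mem_nil cw14326
theorem W14328 : WFK w14328 := fun D T h => wf_of_chk h (mem_cons (W5594 D T h) mem_nil) mem_nil cw14328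
theorem W14334 : WFK w14334 := fun D T h => wf_of_chk h mem_nil (mem_cons (L3031 D T h) mem_nil) cw14334
theorem W14336 : WFK w14336 := fun D T h => wf_of_chk h mem_nil (mem_cons (L1141 D T h) mem_nil) cw14336
theorem W14339 : WFK w14339 := fun D T h => wf_of_chk h mem_nil (mem_cons (L1048 D T h) mem_nil) cw14339
theorem W14355 : WFK w14355 := fun D T h => wf_of_chk h (mem_cons (W8829 D T h) (mem_cons (W16 D T h) mem_nil)) mem_nil cw14355
theorem W14359 : WFK w14359 := fun D T h => wf_of_chk h mem_nil (mem_cons (L860 D T h) mem_nil) cw14359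
theorem W14362 : WFK w14362 := fun D T h => wf_of_chk h (mem_cons (W281 D T h) mem_nil) mem_nil cw14362
theorem W14363 : WFK w14363 := fun D T h => wf_of_chk h (mem_cons (W281 D T h) mem_nil) mem_nil cw14363
theorem W14364 : WFK w14364 := fun D T h => wf_of_chk h mem_nil mem_nil cw14364
theorem W14365 : WFK w14365 := fun D T h => wf_of_chk h mem_nil (mem_cons (L1700 D T h) mem_nil) cw14365
theorem W14366 : WFK w14366 := fun D T h => wf_of_chk h mem_nil (mem_cons (L1700 D T h) mem_nil) cw14366
theorem W14367 : WFK w14367 := fun D T h => wf_of_chk h mem_nil (mem_cons (L1700 D T h) mem_nil) cw14367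
theorem W14368 : WFK w14368 := fun D T h => wf_of_chk h mem_nil (mem_cons (L2319 D T h) mem_nil) cw14368
theorem W14369 : WFK w14369 := fun D T h => wf_of_chk h mem_nil (mem_cons (L1700 D T h) mem_nil) cw14369
theorem W14370 : WFK w14370 := fun D T h => wf_of_chk h mem_nil (mem_cons (L1700 D T h) mem_nil) cw14370
theorem L3199 : LFK l3199 := fun D T h => lf_of_chk h (mem_cons (W774 D T h) (mem_cons (W33 D T h) (mem_cons (W1053 D T h) (mem_cons (W3778 D T h) (mem_cons (W14339 D T h) (mem_cons (W10490 D T h) (mem_cons (W14366 D T h) (mem_cons (W14367 D T h) (mem_cons (W14368 D T h) (mem_cons (W14369 D T h) (mem_cons (W14370 D T h) mem_nil))))))))))) cl3199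
theorem W14371 : WFK w14371 := fun D T h => wf_of_chk h mem_nil (mem_cons (L3199 D T h) mem_nil) cw14371
theorem W14372 : WFK w14372 := fun D T h => wf_of_chk h mem_nil (mem_cons (L1700 D T h) mem_nil) cw14372
theorem W14374 : WFK w14374 := fun D T h => wf_of_chk h (mem_cons (W831 D T h) mem_nil) mem_nil cw14374
theorem L3205 : LFK l3205 := fun D T h => lf_of_chk h (mem_cons (W1564 D T h) (mem_cons (W281 D T h) (mem_cons (W3794 D T h) (mem_cons (W652 D T h) (mem_cons (W248 D T h) (mem_cons (W1424 D T h) mem_nil)))))) cl3205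
theorem W14389 : WFK w14389 := fun D T h => wf_of_chk h mem_nil (mem_cons (L3205 D T h) mem_nil) cw14389
theorem W14398 : WFK w14398 := fun D T h => wf_of_chk h (mem_cons (W2015 D T h) (mem_cons (W16 D T h) mem_nil)) mem_nil cw14398
theorem W14399 : WFK w14399 := fun D T h => wf_of_chk h (mem_cons (W1304 D T h) mem_nil) mem_nil cw14399
theorem L3207 : LFK l3207 := fun D T h => lf_of_chk h (mem_cons (W4209 D T h) (mem_cons (W401 D T h) (mem_cons (W1 D T h) (mem_cons (W69 D T h) (mem_cons (W1501 D T h) (mem_cons (W83 D T h) (mem_cons (W3565 D T h) (mem_cons (W91 D T h) (mem_cons (W80 D T h) (mem_cons (W14399 D T h) (mem_cons (W81 D T h) (mem_cons (W76 D T h) (mem_cons (W79 D T h) (mem_cons (W82 D T h) (mem_cons (W4259 D T h) (mem_cons (W66 D T h) (mem_cons (W8514 D T h) (mem_cons (W11394 D T h) mem_nil)))))))))))))))))) cl3207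
theorem W14400 : WFK w14400 := fun D T h => wf_of_chk h mem_nil (mem_cons (L3207 D T h) mem_nil) cw14400
theorem W14408 : WFK w14408 := fun D T h => wf_of_chk h (mem_cons (W5841 D T h) (mem_cons (W16 D T h) mem_nil)) mem_nil cw14408
theorem W14410 : WFK w14410 := fun D T h => wf_of_chk h (mem_cons (W721 D T h) (mem_cons (W16 D T h) mem_nil)) mem_nil cw14410
theorem W14414 : WFK w14414 := fun D T h => wf_of_chk h mem_nil (mem_cons (L2472 D T h) mem_nil) cw14414
theorem L3208 : LFK l3208 := fun D T h => lf_of_chk h (mem_cons (W6758 D T h) (mem_cons (W721 D T h) (mem_cons (W16 D T h) (mem_cons (W5358 D T h) (mem_cons (W8633 D T h) (mem_cons (W5841 D T h) (mem_cons (W8040 D T h) (mem_cons (W55 D T h) (mem_cons (W54 D T h) (mem_cons (W6961 D T h) (mem_cons (W12 D T h) (mem_cons (W29 D T h) (mem_cons (W43 D T h) (mem_cons (W9939 D T h) (mem_cons (W9206 D T h) mem_nil))))))))))))))) cl3208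
theorem W14415 : WFK w14415 := fun D T h => wf_of_chk h mem_nil (mem_cons (L3208 D T h) mem_nil) cw14415
theorem W14439 : WFK w14439 := fun D T h => wf_of_chk h mem_nil (mem_cons (L537 D T h) mem_nil) cw14439
theorem L3214 : LFK l3214 := fun D T h => lf_of_chk h (mem_cons (W2671 D T h) (mem_cons (W831 D T h) (mem_cons (W315 D T h) (mem_cons (W39 D T h) (mem_cons (W3593 D T h) (mem_cons (W1399 D T h) (mem_cons (W411 D T h) (mem_cons (W359 D T h) (mem_cons (W976 D T h) (mem_cons (W888 D T h) (mem_cons (W1099 D T h) (mem_cons (W14439 D T h) (mem_cons (W5336 D T h) (mem_cons (W61 D T h) (mem_cons (W31 D T h) (mem_cons (W819 D T h) mem_nil)))))))))))))))) cl3214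
theorem W14440 : WFK w14440 := fun D T h => wf_of_chk h mem_nil (mem_cons (L3214 D T h) mem_nil) cw14440
theorem W14442 : WFK w14442 := fun D T h => wf_of_chk h (mem_cons (W42 D T h) (mem_cons (W69 D T h) mem_nil)) mem_nil cw14442
theorem W14461 : WFK w14461 := fun D T h => wf_of_chk h mem_nil (mem_cons (L234 D T h) mem_nil) cw14461
theorem W14462 : WFK w14462 := fun D T h => wf_of_chk h mem_nil (mem_cons (L2397 D T h) mem_nil) cw14462
theorem W14463 : WFK w14463 := fun D T h => wf_of_chk h mem_nil (mem_cons (L453 D T h) mem_nil) cw14463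
theorem L3221 : LFK l3221 := fun D T h => lf_of_chk h (mem_cons (W823 D T h) (mem_cons (W91 D T h) (mem_cons (W4 D T h) (mem_cons (W33 D T h) (mem_cons (W808 D T h) (mem_cons (W6 D T h) (mem_cons (W812 D T h) (mem_cons (W2572 D T h) (mem_cons (W4036 D T h) (mem_cons (W142 D T h) (mem_cons (W4035 D T h) (mem_cons (W820 D T h) (mem_cons (W10082 D T h) (mem_cons (W9994 D T h) (mem_cons (W809 D T h) (mem_cons (W834 D T h) mem_nil)))))))))))))))) cl3221
theorem W14484 : WFK w14484 := fun D T h => wf_of_chk h mem_nil (mem_cons (L3221 D T h) mem_nil) cw14484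
theorem L3222 : LFK l3222 := fun D T h => lf_of_chk h mem_nil cl3222
theorem L3225 : LFK l3225 := fun D T h => lf_of_chk h mem_nil cl3225
theorem L3226 : LFK l3226 := fun D T h => lf_of_chk h (mem_cons (W873 D T h) (mem_cons (W9076 D T h) (mem_cons (W4 D T h) (mem_cons (W861 D T h) (mem_cons (W5606 D T h) (mem_cons (W831 D T h) mem_nil)))))) cl3226
theorem L3227 : LFK l3227 := fun D T h => lf_of_chk h (mem_cons (W5606 D T h) (mem_cons (W44 D T h) (mem_cons (W870 D T h) (mem_cons (W4 D T h) (mem_cons (W831 D T h) mem_nil))))) cl3227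
theorem W14500 : WFK w14500 := fun D T h => wf_of_chk h mem_nil (mem_cons (L662 D T h) mem_nil) cw14500
theorem L3230 : LFK l3230 := fun D T h => lf_of_chk h (mem_cons (W5606 D T h) (mem_cons (W14500 D T h) (mem_cons (W10156 D T h) (mem_cons (W10 D T h) (mem_cons (W7 D T h) (mem_cons (W7171 D T h) mem_nil)))))) cl3230
theorem W14502 : WFK w14502 := fun D T h => wf_of_chk h (mem_cons (W15 D T h) mem_nil) mem_nil cw14502
theorem W14503 : WFK w14503 := fun D T h => wf_of_chk h mem_nil (mem_cons (L3094 D T h) mem_nil) cw14503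
theorem W14504 : WFK w14504 := fun D T h => wf_of_chk h mem_nil (mem_cons (L3091 D T h) mem_nil) cw14504
theorem W14505 : WFK w14505 := fun D T h => wf_of_chk h mem_nil (mem_cons (L3178 D T h) mem_nil) cw14505
theorem L3231 : LFK l3231 := fun D T h => lf_of_chk h (mem_cons (W5606 D T h) (mem_cons (W10003 D T h) (mem_cons (W854 D T h) (mem_cons (W4 D T h) (mem_cons (W315 D T h) (mem_cons (W831 D T h) mem_nil)))))) cl3231
theorem W14506 : WFK w14506 := fun D T h => wf_of_chk h mem_nil (mem_cons (L3231 D T h) mem_nil) cw14506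
theorem W14507 : WFK w14507 := fun D T h => wf_of_chk h (mem_cons (W2732 D T h) mem_nil) mem_nil cw14507
theorem W14508 : WFK w14508 := fun D T h => wf_of_chk h (mem_cons (W2726 D T h) mem_nil) mem_nil cw14508
theorem W14509 : WFK w14509 := fun D T h => wf_of_chk h mem_nil mem_nil cw14509
theorem W14510 : WFK w14510 := fun D T h => wf_of_chk h mem_nil (mem_cons (L479 D T h) mem_nil) cw14510
theorem L3232 : LFK l3232 := fun D T h => lf_of_chk h (mem_cons (W14509 D T h) (mem_cons (W13 D T h) (mem_cons (W6204 D T h) (mem_cons (W14510 D T h) (mem_cons (W1475 D T h) (mem_cons (W10099 D T h) (mem_cons (W5793 D T h) (mem_cons (W899 D T h) mem_nil)))))))) cl3232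
theorem W14511 : WFK w14511 := fun D T h => wf_of_chk h mem_nil (mem_cons (L3232 D T h) mem_nil) cw14511
theorem W14512 : WFK w14512 := fun D T h => wf_of_chk h mem_nil (mem_cons (L676 D T h) mem_nil) cw14512
theorem W14513 : WFK w14513 := fun D T h => wf_of_chk h (mem_cons (W220 D T h) mem_nil) mem_nil cw14513
theorem L3233 : LFK l3233 := fun D T h => lf_of_chk h (mem_cons (W14503 D T h) (mem_cons (W5606 D T h) (mem_cons (W2007 D T h) (mem_cons (W903 D T h) (mem_cons (W14511 D T h) (mem_cons (W14512 D T h) (mem_cons (W14513 D T h) (mem_cons (W32 D T h) (mem_cons (W1739 D T h) (mem_cons (W4238 D T h) (mem_cons (W864 D T h) (mem_cons (W9899 D T h) (mem_cons (W1326 D T h) (mem_cons (W1751 D T h) (mem_cons (W1726 D T h) (mem_cons (W1765 D T h) (mem_cons (W14504 D T h) (mem_cons (W14505 D T h) (mem_cons (W4189 D T h) (mem_cons (W861 D T h) (mem_cons (W10266 D T h) (mem_cons (W4935 D T h) (mem_cons (W14506 D T h) (mem_cons (W14507 D T h) (mem_cons (W5795 D T h) (mem_cons (W14508 D T h) (mem_cons (W5806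 D T h) (mem_cons (W5803 D T h) mem_nil)))))))))))))))))))))))))))) cl3233
theorem W14514 : WFK w14514 := fun D T h => wf_of_chk h mem_nil (mem_cons (L3233 D T h) mem_nil) cw14514
theorem W14516 : WFK w14516 := fun D T h => wf_of_chk h mem_nil (mem_cons (L56 D T h) mem_nil) cw14516
theorem L3234 : LFK l3234 := fun D T h => lf_of_chk h (mem_cons (W848 D T h) (mem_cons (W91 D T h) (mem_cons (W4 D T h) (mem_cons (W33 D T h) (mem_cons (W808 D T h) (mem_cons (W6 D T h) (mem_cons (W812 D T h) (mem_cons (W2572 D T h) (mem_cons (W4189 D T h) (mem_cons (W142 D T h) (mem_cons (W845 D T h) (mem_cons (W632 D T h) (mem_cons (W823 D T h) (mem_cons (W576 D T h) mem_nil)))))))))))))) cl3234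
theorem W14518 : WFK w14518 := fun D T h => wf_of_chk h mem_nil (mem_cons (L3234 D T h) mem_nil) cw14518
theorem L3235 : LFK l3235 := fun D T h => lf_of_chk h (mem_cons (W5158 D T h) (mem_cons (W1 D T h) (mem_cons (W91 D T h) (mem_cons (W808 D T h) (mem_cons (W9691 D T h) (mem_cons (W576 D T h) (mem_cons (W14484 D T h) (mem_cons (W831 D T h) (mem_cons (W604 D T h) (mem_cons (W603 D T h) (mem_cons (W10134 D T h) (mem_cons (W850 D T h) (mem_cons (W3560 D T h) (mem_cons (W14518 D T h) mem_nil)))))))))))))) cl3235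
theorem W14519 : WFK w14519 := fun D T h => wf_of_chk h mem_nil (mem_cons (L3235 D T h) mem_nil) cw14519
theorem W14535 : WFK w14535 := fun D T h => wf_of_chk h mem_nil (mem_cons (L92 D T h) mem_nil) cw14535
theorem L3238 : LFK l3238 := fun D T h => lf_of_chk h (mem_cons (W1919 D T h) (mem_cons (W33 D T h) (mem_cons (W4 D T h) (mem_cons (W389 D T h) (mem_cons (W617 D T h) (mem_cons (W396 D T h) (mem_cons (W2415 D T h) (mem_cons (W1831 D T h) (mem_cons (W140 D T h) (mem_cons (W141 D T h) (mem_cons (W1845 D T h) (mem_cons (W6077 D T h) mem_nil)))))))))))) cl3238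
theorem W14572 : WFK w14572 := fun D T h => wf_of_chk h (mem_cons (W8233 D T h) (mem_cons (W16 D T h) mem_nil)) mem_nil cw14572
theorem L3240 : LFK l3240 := fun D T h => lf_of_chk h (mem_cons (W8380 D T h) (mem_cons (W6714 D T h) (mem_cons (W93 D T h) (mem_cons (W220 D T h) (mem_cons (W86 D T h) (mem_cons (W15 D T h) (mem_cons (W6182 D T h) (mem_cons (W13149 D T h) (mem_cons (W11288 D T h) (mem_cons (W6183 D T h) (mem_cons (W4531 D T h) (mem_cons (W11291 D T h) (mem_cons (W201 D T h) (mem_cons (W659 D T h) (mem_cons (W2740 D T h) (mem_cons (W8272 D T h) (mem_cons (W864 D T h) (mem_cons (W142 D T h) (mem_cons (W149 D T h) (mem_cons (W7240 D T h) (mem_cons (W7241 D T h) (mem_cons (W6170 D T h) (mem_cons (W6171 D T h) (mem_cons (W6175 D T h) (mem_cons (W8271 D T h) (mem_cons (W3183 D T h) (mem_cons (W8273 D T h) (mem_cons (W11290 D T h) mem_nil)))))))))))))))))))))))))))) cl3240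
theorem W14575 : WFK w14575 := fun D T h => wf_of_chk h mem_nil (mem_cons (L3240 D T h) mem_nil) cw14575
theorem L3244 : LFK l3244 := fun D T h => lf_of_chk h (mem_cons (W429 D T h) (mem_cons (W1473 D T h) (mem_cons (W1538 D T h) (mem_cons (W39 D T h) (mem_cons (W5459 D T h) (mem_cons (W6742 D T h) (mem_cons (W2635 D T h) (mem_cons (W812 D T h) (mem_cons (W3760 D T h) (mem_cons (W1540 D T h) (mem_cons (W5132 D T h) (mem_cons (W2632 D T h) (mem_cons (W5458 D T h) (mem_cons (W819 D T h) mem_nil)))))))))))))) cl3244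
theorem W14618 : WFK w14618 := fun D T h => wf_of_chk h mem_nil (mem_cons (L3244 D T h) mem_nil) cw14618
theorem W14620 : WFK w14620 := fun D T h => wf_of_chk h mem_nil (mem_cons (L3019 D T h) mem_nil) cw14620
theorem W14623 : WFK w14623 := fun D T h => wf_of_chk h mem_nil (mem_cons (L3244 D T h) mem_nil) cw14623
theorem W14626 : WFK w14626 := fun D T h => wf_of_chk h (mem_cons (W281 D T h) mem_nil) mem_nil cw14626
theorem W14630 : WFK w14630 := fun D T h => wf_of_chk h (mem_cons (W1379 D T h) mem_nil) mem_nil cw14630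
theorem W14681 : WFK w14681 := fun D T h => wf_of_chk h (mem_cons (W8829 D T h) (mem_cons (W16 D T h) mem_nil)) mem_nil cw14681
theorem L3251 : LFK l3251 := fun D T h => lf_of_chk h (mem_cons (W572 D T h) (mem_cons (W154 D T h) (mem_cons (W4 D T h) (mem_cons (W33 D T h) (mem_cons (W848 D T h) (mem_cons (W141 D T h) (mem_cons (W4192 D T h) (mem_cons (W904 D T h) (mem_cons (W6678 D T h) (mem_cons (W1367 D T h) mem_nil)))))))))) cl3251
theorem W14710 : WFK w14710 := fun D T h => wf_of_chk h mem_nil (mem_cons (L3251 D T h) mem_nil) cw14710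
theorem W14713 : WFK w14713 := fun D T h => wf_of_chk h mem_nil (mem_cons (L2306 D T h) mem_nil) cw14713
theorem W14717 : WFK w14717 := fun D T h => wf_of_chk h (mem_cons (W16 D T h) (mem_cons (W603 D T h) mem_nil)) mem_nil cw14717
theorem W14718 : WFK w14718 := fun D T h => wf_of_chk h (mem_cons (W220 D T h) (mem_cons (W603 D T h) mem_nil)) mem_nil cw14718
theorem W14719 : WFK w14719 := fun D T h => wf_of_chk h (mem_cons (W220 D T h) (mem_cons (W603 D T h) mem_nil)) mem_nil cw14719
theorem W14720 : WFK w14720 := fun D T h => wf_of_chk h mem_nil (mem_cons (L2307 D T h) mem_nil) cw14720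
theorem W14721 : WFK w14721 := fun D T h => wf_of_chk h mem_nil (mem_cons (L2308 D T h) mem_nil) cw14721
theorem W14722 : WFK w14722 := fun D T h => wf_of_chk h (mem_cons (W603 D T h) mem_nil) mem_nil cw14722
theorem W14723 : WFK w14723 := fun D T h => wf_of_chk h (mem_cons (W78 D T h) (mem_cons (W831 D T h) mem_nil)) mem_nil cw14723
theorem W14724 : WFK w14724 := fun D T h => wf_of_chk h (mem_cons (W75 D T h) (mem_cons (W603 D T h) mem_nil)) mem_nil cw14724
theorem W14725 : WFK w14725 := fun D T h => wf_of_chk h (mem_cons (W112 D T h) (mem_cons (W603 D T h) mem_nil)) mem_nil cw14725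
theorem W14726 : WFK w14726 := fun D T h => wf_of_chk h (mem_cons (W69 D T h) (mem_cons (W603 D T h) mem_nil)) mem_nil cw14726
theorem L3252 : LFK l3252 := fun D T h => lf_of_chk h (mem_cons (W4209 D T h) (mem_cons (W10987 D T h) (mem_cons (W1 D T h) (mem_cons (W603 D T h) (mem_cons (W83 D T h) (mem_cons (W4566 D T h) (mem_cons (W3565 D T h) (mem_cons (W3688 D T h) (mem_cons (W91 D T h) (mem_cons (W14723 D T h) (mem_cons (W80 D T h) (mem_cons (W14724 D T h) (mem_cons (W4259 D T h) (mem_cons (W521 D T h) (mem_cons (W8105 D T h) (mem_cons (W14722 D T h) (mem_cons (W370 D T h) (mem_cons (W111 D T h) (mem_cons (W14725 D T h) (mem_cons (W267 D T h) (mem_cons (W114 D T h) (mem_cons (W721 D T h) (mem_cons (W14726 D T h) mem_nil))))))))))))))))))))))) cl3252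
theorem W14727 : WFK w14727 := fun D T h => wf_of_chk h mem_nil (mem_cons (L3252 D T h) mem_nil) cw14727
theorem W14728 : WFK w14728 := fun D T h => wf_of_chk h (mem_cons (W162 D T h) (mem_cons (W603 D T h) mem_nil)) mem_nil cw14728
theorem W14729 : WFK w14729 := fun D T h => wf_of_chk h (mem_cons (W9997 D T h) (mem_cons (W16 D T h) mem_nil)) mem_nil cw14729
theorem L3253 : LFK l3253 := fun D T h => lf_of_chk h (mem_cons (W14717 D T h) (mem_cons (W831 D T h) (mem_cons (W16 D T h) (mem_cons (W603 D T h) (mem_cons (W10987 D T h) (mem_cons (W855 D T h) (mem_cons (W2015 D T h) (mem_cons (W14727 D T h) (mem_cons (W12203 D T h) (mem_cons (W14728 D T h) (mem_cons (W2037 D T h) (mem_cons (W9123 D T h) (mem_cons (W14713 D T h) (mem_cons (W11618 D T h) (mem_cons (W14718 D T h) (mem_cons (W128 D T h) (mem_cons (W14719 D T h) (mem_cons (W14720 D T h) (mem_cons (W14721 D T h) (mem_cons (W10297 D T h) (mem_cons (W1111 D T h) (mem_cons (W10012 D T h) (mem_cons (W10305 D T h) (mem_cons (W10306 D T h) (mem_cons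 (W178 D T h) (mem_cons (W179 D T h) (mem_cons (W844 D T h) (mem_cons (W14729 D T h) mem_nil)))))))))))))))))))))))))))) cl3253
theorem W14730 : WFK w14730 := fun D T h => wf_of_chk h mem_nil (mem_cons (L3253 D T h) mem_nil) cw14730
theorem W14731 : WFK w14731 := fun D T h => wf_of_chk h (mem_cons (W3878 D T h) mem_nil) mem_nil cw14731
theorem W14732 : WFK w14732 := fun D T h => wf_of_chk h (mem_cons (W14731 D T h) (mem_cons (W2934 D T h) mem_nil)) mem_nil cw14732
theorem L3254 : LFK l3254 := fun D T h => lf_of_chk h (mem_cons (W4038 D T h) (mem_cons (W11935 D T h) (mem_cons (W1 D T h) (mem_cons (W795 D T h) (mem_cons (W6095 D T h) (mem_cons (W4209 D T h) (mem_cons (W1070 D T h) (mem_cons (W8908 D T h) (mem_cons (W1106 D T h) (mem_cons (W4632 D T h) (mem_cons (W111 D T h) (mem_cons (W1109 D T h) (mem_cons (W3274 D T h) (mem_cons (W10344 D T h) (mem_cons (W10346 D T h) (mem_cons (W10253 D T h) (mem_cons (W3628 D T h) mem_nil))))))))))))))))) cl3254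
theorem W14733 : WFK w14733 := fun D T h => wf_of_chk h mem_nil (mem_cons (L3254 D T h) mem_nil) cw14733
theorem W14734 : WFK w14734 := fun D T h => wf_of_chk h (mem_cons (W7311 D T h) (mem_cons (W34 D T h) mem_nil)) mem_nil cw14734
theorem W14736 : WFK w14736 := fun D T h => wf_of_chk h mem_nil (mem_cons (L2227 D T h) mem_nil) cw14736
theorem W14737 : WFK w14737 := fun D T h => wf_of_chk h mem_nil (mem_cons (L1557 D T h) mem_nil) cw14737
theorem W14740 : WFK w14740 := fun D T h => wf_of_chk h mem_nil (mem_cons (L1170 D T h) mem_nil) cw14740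
theorem W14741 : WFK w14741 := fun D T h => wf_of_chk h mem_nil (mem_cons (L1170 D T h) mem_nil) cw14741
theorem L3255 : LFK l3255 := fun D T h => lf_of_chk h (mem_cons (W91 D T h) (mem_cons (W8633 D T h) mem_nil)) cl3255
theorem W14742 : WFK w14742 := fun D T h => wf_of_chk h mem_nil (mem_cons (L3255 D T h) mem_nil) cw14742
theorem L3256 : LFK l3256 := fun D T h => lf_of_chk h (mem_cons (W158 D T h) (mem_cons (W8633 D T h) mem_nil)) cl3256
theorem W14743 : WFK w14743 := fun D T h => wf_of_chk h mem_nil (mem_cons (L3256 D T h) mem_nil) cw14743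
theorem L3257 : LFK l3257 := fun D T h => lf_of_chk h (mem_cons (W1 D T h) (mem_cons (W1272 D T h) (mem_cons (W91 D T h) (mem_cons (W4548 D T h) (mem_cons (W248 D T h) (mem_cons (W9 D T h) (mem_cons (W158 D T h) (mem_cons (W10 D T h) (mem_cons (W109 D T h) (mem_cons (W1994 D T h) (mem_cons (W161 D T h) (mem_cons (W3421 D T h) (mem_cons (W168 D T h) mem_nil))))))))))))) cl3257
theorem W14744 : WFK w14744 := fun D T h => wf_of_chk h mem_nil (mem_cons (L3257 D T h) mem_nil) cw14744
theorem W14745 : WFK w14745 := fun D T h => wf_of_chk h mem_nil (mem_cons (L1713 D T h) mem_nil) cw14745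
theorem W14746 : WFK w14746 := fun D T h => wf_of_chk h mem_nil (mem_cons (L2792 D T h) mem_nil) cw14746
theorem W14747 : WFK w14747 := fun D T h => wf_of_chk h mem_nil (mem_cons (L3058 D T h) mem_nil) cw14747
theorem W14748 : WFK w14748 := fun D T h => wf_of_chk h mem_nil (mem_cons (L3235 D T h) mem_nil) cw14748
theorem W14749 : WFK w14749 := fun D T h => wf_of_chk h mem_nil (mem_cons (L2095 D T h) mem_nil) cw14749
theorem W14750 : WFK w14750 := fun D T h => wf_of_chk h mem_nil (mem_cons (L1688 D T h) mem_nil) cw14750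
theorem W14751 : WFK w14751 := fun D T h => wf_of_chk h mem_nil (mem_cons (L419 D T h) mem_nil) cw14751
theorem W14752 : WFK w14752 := fun D T h => wf_of_chk h mem_nil (mem_cons (L863 D T h) mem_nil) cw14752
theorem W14753 : WFK w14753 := fun D T h => wf_of_chk h mem_nil mem_nil cw14753
theorem W14754 : WFK w14754 := fun D T h => wf_of_chk h mem_nil (mem_cons (L863 D T h) mem_nil) cw14754
theorem W14755 : WFK w14755 := fun D T h => wf_of_chk h mem_nil (mem_cons (L863 D T h) mem_nil) cw14755
theorem L3258 : LFK l3258 := fun D T h => lf_of_chk h (mem_cons (W950 D T h) (mem_cons (W638 D T h) (mem_cons (W871 D T h) (mem_cons (W14751 D T h) (mem_cons (W2124 D T h) (mem_cons (W216 D T h) (mem_cons (W904 D T h) (mem_cons (W5553 D T h) (mem_cons (W5537 D T h) (mem_cons (W14752 D T h) (mem_cons (W14753 D T h) (mem_cons (W14754 D T h) (mem_cons (W14755 D T h) mem_nil))))))))))))) cl3258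
theorem W14756 : WFK w14756 := fun D T h => wf_of_chk h mem_nil (mem_cons (L3258 D T h) mem_nil) cw14756
theorem W14757 : WFK w14757 := fun D T h => wf_of_chk h mem_nil (mem_cons (L1358 D T h) mem_nil) cw14757
theorem W14758 : WFK w14758 := fun D T h => wf_of_chk h mem_nil (mem_cons (L666 D T h) mem_nil) cw14758
theorem W14759 : WFK w14759 := fun D T h => wf_of_chk h mem_nil (mem_cons (L232 D T h) mem_nil) cw14759
theorem W14760 : WFK w14760 := fun D T h => wf_of_chk h mem_nil (mem_cons (L1406 D T h) mem_nil) cw14760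
theorem W14761 : WFK w14761 := fun D T h => wf_of_chk h mem_nil (mem_cons (L2051 D T h) mem_nil) cw14761
theorem W14762 : WFK w14762 := fun D T h => wf_of_chk h mem_nil (mem_cons (L3258 D T h) mem_nil) cw14762
theorem W14763 : WFK w14763 := fun D T h => wf_of_chk h (mem_cons (W220 D T h) (mem_cons (W149 D T h) mem_nil)) mem_nil cw14763
theorem W14764 : WFK w14764 := fun D T h => wf_of_chk h mem_nil (mem_cons (L3258 D T h) mem_nil) cw14764
theorem W14765 : WFK w14765 := fun D T h => wf_of_chk h mem_nil (mem_cons (L3258 D T h) mem_nil) cw14765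
theorem W14766 : WFK w14766 := fun D T h => wf_of_chk h (mem_cons (W2740 D T h) mem_nil) mem_nil cw14766
theorem W14767 : WFK w14767 := fun D T h => wf_of_chk h mem_nil (mem_cons (L287 D T h) mem_nil) cw14767
theorem W14768 : WFK w14768 := fun D T h => wf_of_chk h (mem_cons (W14767 D T h) mem_nil) mem_nil cw14768
theorem W14769 : WFK w14769 := fun D T h => wf_of_chk h (mem_cons (W2740 D T h) mem_nil) mem_nil cw14769
theorem W14770 : WFK w14770 := fun D T h => wf_of_chk h (mem_cons (W2740 D T h) mem_nil) mem_nil cw14770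
theorem W14771 : WFK w14771 := fun D T h => wf_of_chk h (mem_cons (W149 D T h) mem_nil) mem_nil cw14771
theorem W14772 : WFK w14772 := fun D T h => wf_of_chk h mem_nil mem_nil cw14772
theorem W14773 : WFK w14773 := fun D T h => wf_of_chk h mem_nil mem_nil cw14773
theorem W14774 : WFK w14774 := fun D T h => wf_of_chk h mem_nil (mem_cons (L165 D T h) mem_nil) cw14774
theorem W14775 : WFK w14775 := fun D T h => wf_of_chk h (mem_cons (W14774 D T h) mem_nil) mem_nil cw14775
theorem L3259 : LFK l3259 := fun D T h => lf_of_chk h (mem_cons (W14766 D T h) (mem_cons (W14758 D T h) (mem_cons (W14759 D T h) (mem_cons (W2921 D T h) (mem_cons (W14772 D T h) (mem_cons (W14773 D T h) (mem_cons (W14775 D T h) (mem_cons (W5943 D T h) (mem_cons (W2740 D T h) (mem_cons (W149 D T h) (mem_cons (W14757 D T h) (mem_cons (W14768 D T h) (mem_cons (W181 D T h) (mem_cons (W14769 D T h) (mem_cons (W14770 D T h) (mem_cons (W14771 D T h) mem_nil)))))))))))))))) cl3259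
theorem W14776 : WFK w14776 := fun D T h => wf_of_chk h mem_nil (mem_cons (L3259 D T h) mem_nil) cw14776
theorem W14777 : WFK w14777 := fun D T h => wf_of_chk h mem_nil (mem_cons (L1248 D T h) mem_nil) cw14777
theorem L3260 : LFK l3260 := fun D T h => lf_of_chk h (mem_cons (W950 D T h) (mem_cons (W148 D T h) (mem_cons (W7392 D T h) (mem_cons (W14751 D T h) (mem_cons (W2124 D T h) (mem_cons (W2140 D T h) (mem_cons (W216 D T h) (mem_cons (W904 D T h) (mem_cons (W5553 D T h) (mem_cons (W14777 D T h) (mem_cons (W14752 D T h) (mem_cons (W14753 D T h) (mem_cons (W14754 D T h) (mem_cons (W14755 D T h) mem_nil)))))))))))))) cl3260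
theorem W14778 : WFK w14778 := fun D T h => wf_of_chk h mem_nil (mem_cons (L3260 D T h) mem_nil) cw14778
theorem W14779 : WFK w14779 := fun D T h => wf_of_chk h (mem_cons (W16 D T h) mem_nil) mem_nil cw14779
theorem L3261 : LFK l3261 := fun D T h => lf_of_chk h (mem_cons (W14756 D T h) (mem_cons (W5943 D T h) (mem_cons (W2740 D T h) (mem_cons (W149 D T h) (mem_cons (W14757 D T h) (mem_cons (W14758 D T h) (mem_cons (W14759 D T h) (mem_cons (W16 D T h) (mem_cons (W14776 D T h) (mem_cons (W14778 D T h) (mem_cons (W10822 D T h) (mem_cons (W284 D T h) (mem_cons (W14760 D T h) (mem_cons (W14761 D T h) (mem_cons (W950 D T h) (mem_cons (W2128 D T h) (mem_cons (W14762 D T h) (mem_cons (W14763 D T h) (mem_cons (W14764 D T h) (mem_cons (W14765 D T h) (mem_cons (W6570 D T h) (mem_cons (W14286 D T h) (mem_cons (W14779 D T h) mem_nil))))))))))))))))))))))) cl3261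
theorem W14780 : WFK w14780 := fun D T h => wf_of_chk h mem_nil (mem_cons (L3261 D T h) mem_nil) cw14780
theorem W14781 : WFK w14781 := fun D T h => wf_of_chk h mem_nil (mem_cons (L245 D T h) mem_nil) cw14781
theorem L3262 : LFK l3262 := fun D T h => lf_of_chk h (mem_cons (W14737 D T h) (mem_cons (W1272 D T h) (mem_cons (W4548 D T h) (mem_cons (W2740 D T h) (mem_cons (W149 D T h) (mem_cons (W14747 D T h) (mem_cons (W14748 D T h) (mem_cons (W14749 D T h) (mem_cons (W5943 D T h) (mem_cons (W14750 D T h) (mem_cons (W14780 D T h) (mem_cons (W7298 D T h) (mem_cons (W14781 D T h) (mem_cons (W14742 D T h) (mem_cons (W14743 D T h) (mem_cons (W14744 D T h) (mem_cons (W42 D T h) (mem_cons (W164 D T h) (mem_cons (W14745 D T h) (mem_cons (W14746 D T h) mem_nil)))))))))))))))))))) cl3262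
theorem W14782 : WFK w14782 := fun D T h => wf_of_chk h mem_nil (mem_cons (L3262 D T h) mem_nil) cw14782
theorem W14783 : WFK w14783 := fun D T h => wf_of_chk h (mem_cons (W220 D T h) (mem_cons (W6797 D T h) mem_nil)) mem_nil cw14783
theorem W14784 : WFK w14784 := fun D T h => wf_of_chk h (mem_cons (W16 D T h) (mem_cons (W6930 D T h) mem_nil)) mem_nil cw14784
theorem L3263 : LFK l3263 := fun D T h => lf_of_chk h (mem_cons (W69 D T h) mem_nil) cl3263
theorem W14785 : WFK w14785 := fun D T h => wf_of_chk h mem_nil (mem_cons (L3263 D T h) mem_nil) cw14785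
theorem W14786 : WFK w14786 := fun D T h => wf_of_chk h mem_nil (mem_cons (L119 D T h) mem_nil) cw14786
theorem W14787 : WFK w14787 := fun D T h => wf_of_chk h mem_nil (mem_cons (L1253 D T h) mem_nil) cw14787
theorem W14788 : WFK w14788 := fun D T h => wf_of_chk h mem_nil (mem_cons (L3055 D T h) mem_nil) cw14788
theorem W14789 : WFK w14789 := fun D T h => wf_of_chk h mem_nil (mem_cons (L119 D T h) mem_nil) cw14789
theorem W14790 : WFK w14790 := fun D T h => wf_of_chk h mem_nil mem_nil cw14790
theorem W14791 : WFK w14791 := fun D T h => wf_of_chk h mem_nil (mem_cons (L1233 D T h) mem_nil) cw14791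
theorem W14792 : WFK w14792 := fun D T h => wf_of_chk h mem_nil (mem_cons (L202 D T h) mem_nil) cw14792
theorem W14793 : WFK w14793 := fun D T h => wf_of_chk h mem_nil (mem_cons (L2905 D T h) mem_nil) cw14793
theorem W14794 : WFK w14794 := fun D T h => wf_of_chk h mem_nil (mem_cons (L853 D T h) mem_nil) cw14794
theorem W14795 : WFK w14795 := fun D T h => wf_of_chk h (mem_cons (W14000 D T h) mem_nil) mem_nil cw14795
theorem W14796 : WFK w14796 := fun D T h => wf_of_chk h mem_nil (mem_cons (L3016 D T h) mem_nil) cw14796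
theorem L3264 : LFK l3264 := fun D T h => lf_of_chk h (mem_cons (W12889 D T h) (mem_cons (W2690 D T h) (mem_cons (W871 D T h) (mem_cons (W142 D T h) (mem_cons (W14786 D T h) (mem_cons (W14787 D T h) (mem_cons (W14788 D T h) (mem_cons (W14789 D T h) (mem_cons (W3274 D T h) (mem_cons (W638 D T h) (mem_cons (W14790 D T h) (mem_cons (W14791 D T h) (mem_cons (W14792 D T h) (mem_cons (W4658 D T h) (mem_cons (W864 D T h) (mem_cons (W6961 D T h) (mem_cons (W9070 D T h) (mem_cons (W14793 D T h) (mem_cons (W14794 D T h) (mem_cons (W14795 D T h) (mem_cons (W14796 D T h) (mem_cons (W2126 D T h) (mem_cons (W14785 D T h) mem_nil))))))))))))))))))))))) cl3264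
theorem W14797 : WFK w14797 := fun D T h => wf_of_chk h mem_nil (mem_cons (L3264 D T h) mem_nil) cw14797
theorem W14798 : WFK w14798 := fun D T h => wf_of_chk h mem_nil (mem_cons (L672 D T h) mem_nil) cw14798
theorem W14799 : WFK w14799 := fun D T h => wf_of_chk h mem_nil (mem_cons (L3263 D T h) mem_nil) cw14799
theorem W14800 : WFK w14800 := fun D T h => wf_of_chk h mem_nil (mem_cons (L3178 D T h) mem_nil) cw14800
theorem L3265 : LFK l3265 := fun D T h => lf_of_chk h (mem_cons (W1725 D T h) (mem_cons (W33 D T h) (mem_cons (W13334 D T h) (mem_cons (W3381 D T h) (mem_cons (W1278 D T h) (mem_cons (W5606 D T h) (mem_cons (W6724 D T h) mem_nil))))))) cl3265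
theorem W14801 : WFK w14801 := fun D T h => wf_of_chk h mem_nil (mem_cons (L3265 D T h) mem_nil) cw14801
theorem W14802 : WFK w14802 := fun D T h => wf_of_chk h mem_nil (mem_cons (L410 D T h) mem_nil) cw14802
theorem W14803 : WFK w14803 := fun D T h => wf_of_chk h mem_nil (mem_cons (L119 D T h) mem_nil) cw14803
theorem W14804 : WFK w14804 := fun D T h => wf_of_chk h mem_nil (mem_cons (L291 D T h) mem_nil) cw14804
theorem W14805 : WFK w14805 := fun D T h => wf_of_chk h mem_nil (mem_cons (L1233 D T h) mem_nil) cw14805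
theorem W14806 : WFK w14806 := fun D T h => wf_of_chk h mem_nil (mem_cons (L1608 D T h) mem_nil) cw14806
theorem W14807 : WFK w14807 := fun D T h => wf_of_chk h mem_nil (mem_cons (L853 D T h) mem_nil) cw14807
theorem W14808 : WFK w14808 := fun D T h => wf_of_chk h mem_nil (mem_cons (L2228 D T h) mem_nil) cw14808
theorem W14809 : WFK w14809 := fun D T h => wf_of_chk h mem_nil (mem_cons (L3016 D T h) mem_nil) cw14809
theorem L3266 : LFK l3266 := fun D T h => lf_of_chk h (mem_cons (W14798 D T h) (mem_cons (W2692 D T h) (mem_cons (W469 D T h) (mem_cons (W871 D T h) (mem_cons (W142 D T h) (mem_cons (W14788 D T h) (mem_cons (W14803 D T h) (mem_cons (W12886 D T h) (mem_cons (W3473 D T h) (mem_cons (W148 D T h) (mem_cons (W950 D T h) (mem_cons (W14804 D T h) (mem_cons (W14805 D T h) (mem_cons (W4659 D T h) (mem_cons (W864 D T h) (mem_cons (W1380 D T h) (mem_cons (W1805 D T h) (mem_cons (W14806 D T h) (mem_cons (W14807 D T h) (mem_cons (W14808 D T h) (mem_cons (W14809 D T h) (mem_cons (W14759 D T h) (mem_cons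 (W14799 D T h) (mem_cons (W14800 D T h) (mem_cons (W14801 D T h) (mem_cons (W14802 D T h) mem_nil)))))))))))))))))))))))))) cl3266
theorem W14810 : WFK w14810 := fun D T h => wf_of_chk h mem_nil (mem_cons (L3266 D T h) mem_nil) cw14810
theorem W14811 : WFK w14811 := fun D T h => wf_of_chk h mem_nil (mem_cons (L1352 D T h) mem_nil) cw14811
theorem L3267 : LFK l3267 := fun D T h => lf_of_chk h (mem_cons (W746 D T h) (mem_cons (W149 D T h) (mem_cons (W158 D T h) (mem_cons (W7402 D T h) (mem_cons (W1143 D T h) (mem_cons (W11 D T h) (mem_cons (W1530 D T h) (mem_cons (W11766 D T h) (mem_cons (W2922 D T h) (mem_cons (W6037 D T h) (mem_cons (W346 D T h) (mem_cons (W1473 D T h) mem_nil)))))))))))) cl3267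
theorem W14812 : WFK w14812 := fun D T h => wf_of_chk h mem_nil (mem_cons (L3267 D T h) mem_nil) cw14812
theorem W14813 : WFK w14813 := fun D T h => wf_of_chk h mem_nil (mem_cons (L1352 D T h) mem_nil) cw14813
theorem W14814 : WFK w14814 := fun D T h => wf_of_chk h (mem_cons (W220 D T h) (mem_cons (W6930 D T h) mem_nil)) mem_nil cw14814
theorem W14815 : WFK w14815 := fun D T h => wf_of_chk h mem_nil (mem_cons (L1193 D T h) mem_nil) cw14815
theorem W14816 : WFK w14816 := fun D T h => wf_of_chk h mem_nil (mem_cons (L3263 D T h) mem_nil) cw14816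
theorem W14817 : WFK w14817 := fun D T h => wf_of_chk h mem_nil (mem_cons (L812 D T h) mem_nil) cw14817
theorem W14818 : WFK w14818 := fun D T h => wf_of_chk h (mem_cons (W11459 D T h) mem_nil) mem_nil cw14818
theorem W14819 : WFK w14819 := fun D T h => wf_of_chk h mem_nil (mem_cons (L1197 D T h) mem_nil) cw14819
theorem W14820 : WFK w14820 := fun D T h => wf_of_chk h mem_nil (mem_cons (L672 D T h) mem_nil) cw14820
theorem W14821 : WFK w14821 := fun D T h => wf_of_chk h mem_nil (mem_cons (L403 D T h) mem_nil) cw14821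
theorem W14822 : WFK w14822 := fun D T h => wf_of_chk h mem_nil (mem_cons (L71 D T h) mem_nil) cw14822
theorem W14823 : WFK w14823 := fun D T h => wf_of_chk h mem_nil (mem_cons (L1233 D T h) mem_nil) cw14823
theorem W14824 : WFK w14824 := fun D T h => wf_of_chk h mem_nil (mem_cons (L2302 D T h) mem_nil) cw14824
theorem W14825 : WFK w14825 := fun D T h => wf_of_chk h mem_nil (mem_cons (L1683 D T h) mem_nil) cw14825
theorem W14826 : WFK w14826 := fun D T h => wf_of_chk h mem_nil (mem_cons (L715 D T h) mem_nil) cw14826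
theorem W14827 : WFK w14827 := fun D T h => wf_of_chk h mem_nil (mem_cons (L1683 D T h) mem_nil) cw14827
theorem L3268 : LFK l3268 := fun D T h => lf_of_chk h (mem_cons (W7347 D T h) (mem_cons (W10769 D T h) (mem_cons (W469 D T h) (mem_cons (W871 D T h) (mem_cons (W142 D T h) (mem_cons (W14789 D T h) (mem_cons (W14820 D T h) (mem_cons (W14798 D T h) (mem_cons (W14821 D T h) (mem_cons (W14817 D T h) (mem_cons (W638 D T h) (mem_cons (W950 D T h) (mem_cons (W14822 D T h) (mem_cons (W14823 D T h) (mem_cons (W14824 D T h) (mem_cons (W14818 D T h) (mem_cons (W864 D T h) (mem_cons (W6961 D T h) (mem_cons (W1805 D T h) (mem_cons (W14806 D T h) (mem_cons (W14825 D T h) (mem_cons (W14826 D T h) (mem_cons (W14827 D T h) (mem_cons (W14815 D T h) (mem_cons (W14816 D T h) (mem_cons (W7328 D T h) (mem_cons (W11485 D T h) (mem_cons (W42 D T h) (mem_cons (W164 D T h) (mem_cons (W14819 D T h) mem_nil)))))))))))))))))))))))))))))) cl3268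
theorem W14828 : WFK w14828 := fun D T h => wf_of_chk h mem_nil (mem_cons (L3268 D T h) mem_nil) cw14828
theorem W14829 : WFK w14829 := fun D T h => wf_of_chk h (mem_cons (W220 D T h) (mem_cons (W6930 D T h) mem_nil)) mem_nil cw14829
theorem L3269 : LFK l3269 := fun D T h => lf_of_chk h (mem_cons (W14824 D T h) (mem_cons (W433 D T h) (mem_cons (W469 D T h) (mem_cons (W871 D T h) (mem_cons (W142 D T h) (mem_cons (W14789 D T h) (mem_cons (W14820 D T h) (mem_cons (W14798 D T h) (mem_cons (W14821 D T h) (mem_cons (W3123 D T h) (mem_cons (W638 D T h) (mem_cons (W950 D T h) (mem_cons (W14822 D T h) (mem_cons (W14823 D T h) (mem_cons (W4661 D T h) (mem_cons (W864 D T h) (mem_cons (W6961 D T h) (mem_cons (W1805 D T h) (mem_cons (W14806 D T h) (mem_cons (W14825 D T h) (mem_cons (W14826 D T h) (mem_cons (W14827 D T h) (mem_cons (W14815 D T h) (mem_cons (W14816 D T h) (mem_cons (W7328 D T h) (mem_cons (W11485 D T h) (mem_cons (W42 D T h) (mem_cons (W164 D T h) (mem_cons (W14819 D T h) (mem_cons (W7347 D T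 h) mem_nil)))))))))))))))))))))))))))))) cl3269
theorem W14830 : WFK w14830 := fun D T h => wf_of_chk h mem_nil (mem_cons (L3269 D T h) mem_nil) cw14830
theorem W14831 : WFK w14831 := fun D T h => wf_of_chk h (mem_cons (W11459 D T h) (mem_cons (W16 D T h) mem_nil)) mem_nil cw14831
theorem W14832 : WFK w14832 := fun D T h => wf_of_chk h (mem_cons (W1409 D T h) mem_nil) mem_nil cw14832
theorem W14833 : WFK w14833 := fun D T h => wf_of_chk h (mem_cons (W1386 D T h) mem_nil) mem_nil cw14833
theorem L3270 : LFK l3270 := fun D T h => lf_of_chk h (mem_cons (W14824 D T h) (mem_cons (W433 D T h) (mem_cons (W469 D T h) (mem_cons (W871 D T h) (mem_cons (W142 D T h) (mem_cons (W12889 D T h) (mem_cons (W14820 D T h) (mem_cons (W14798 D T h) (mem_cons (W14792 D T h) (mem_cons (W14821 D T h) (mem_cons (W14832 D T h) (mem_cons (W638 D T h) (mem_cons (W950 D T h) (mem_cons (W14822 D T h) (mem_cons (W14823 D T h) (mem_cons (W14833 D T h) (mem_cons (W864 D T h) (mem_cons (W6961 D T h) (mem_cons (W1805 D T h) (mem_cons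 (W14806 D T h) (mem_cons (W14825 D T h) (mem_cons (W14826 D T h) (mem_cons (W14827 D T h) (mem_cons (W14815 D T h) (mem_cons (W14816 D T h) (mem_cons (W7328 D T h) (mem_cons (W11485 D T h) (mem_cons (W42 D T h) (mem_cons (W164 D T h) (mem_cons (W14819 D T h) (mem_cons (W7347 D T h) mem_nil))))))))))))))))))))))))))))))) cl3270
theorem W14834 : WFK w14834 := fun D T h => wf_of_chk h mem_nil (mem_cons (L3270 D T h) mem_nil) cw14834
theorem W14835 : WFK w14835 := fun D T h => wf_of_chk h (mem_cons (W162 D T h) (mem_cons (W6930 D T h) mem_nil)) mem_nil cw14835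
theorem W14836 : WFK w14836 := fun D T h => wf_of_chk h mem_nil (mem_cons (L104 D T h) mem_nil) cw14836
theorem W14837 : WFK w14837 := fun D T h => wf_of_chk h (mem_cons (W14836 D T h) (mem_cons (W16 D T h) mem_nil)) mem_nil cw14837
theorem W14838 : WFK w14838 := fun D T h => wf_of_chk h mem_nil (mem_cons (L2302 D T h) mem_nil) cw14838
theorem W14839 : WFK w14839 := fun D T h => wf_of_chk h (mem_cons (W14838 D T h) (mem_cons (W16 D T h) mem_nil)) mem_nil cw14839
theorem W14840 : WFK w14840 := fun D T h => wf_of_chk h (mem_cons (W12588 D T h) (mem_cons (W16 D T h) mem_nil)) mem_nil cw14840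
theorem W14841 : WFK w14841 := fun D T h => wf_of_chk h (mem_cons (W7298 D T h) (mem_cons (W16 D T h) mem_nil)) mem_nil cw14841
theorem W14842 : WFK w14842 := fun D T h => wf_of_chk h (mem_cons (W4548 D T h) (mem_cons (W16 D T h) mem_nil)) mem_nil cw14842
theorem W14843 : WFK w14843 := fun D T h => wf_of_chk h (mem_cons (W6718 D T h) (mem_cons (W16 D T h) mem_nil)) mem_nil cw14843
theorem W14844 : WFK w14844 := fun D T h => wf_of_chk h (mem_cons (W13968 D T h) (mem_cons (W16 D T h) mem_nil)) mem_nil cw14844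
theorem W14845 : WFK w14845 := fun D T h => wf_of_chk h (mem_cons (W13968 D T h) (mem_cons (W16 D T h) mem_nil)) mem_nil cw14845
theorem W14846 : WFK w14846 := fun D T h => wf_of_chk h (mem_cons (W16 D T h) (mem_cons (W10668 D T h) mem_nil)) mem_nil cw14846
theorem W14847 : WFK w14847 := fun D T h => wf_of_chk h mem_nil (mem_cons (L1053 D T h) mem_nil) cw14847
theorem W14848 : WFK w14848 := fun D T h => wf_of_chk h (mem_cons (W14847 D T h) (mem_cons (W16 D T h) mem_nil)) mem_nil cw14848
theorem W14849 : WFK w14849 := fun D T h => wf_of_chk h (mem_cons (W16 D T h) (mem_cons (W10668 D T h) mem_nil)) mem_nil cw14849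
theorem W14850 : WFK w14850 := fun D T h => wf_of_chk h (mem_cons (W6797 D T h) mem_nil) mem_nil cw14850
theorem W14851 : WFK w14851 := fun D T h => wf_of_chk h (mem_cons (W7297 D T h) (mem_cons (W16 D T h) mem_nil)) mem_nil cw14851
theorem L3271 : LFK l3271 := fun D T h => lf_of_chk h (mem_cons (W14815 D T h) mem_nil) cl3271
theorem W14852 : WFK w14852 := fun D T h => wf_of_chk h mem_nil (mem_cons (L3271 D T h) mem_nil) cw14852
theorem W14853 : WFK w14853 := fun D T h => wf_of_chk h (mem_cons (W69 D T h) (mem_cons (W6797 D T h) mem_nil)) mem_nil cw14853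
theorem W14854 : WFK w14854 := fun D T h => wf_of_chk h mem_nil (mem_cons (L202 D T h) mem_nil) cw14854
theorem W14855 : WFK w14855 := fun D T h => wf_of_chk h (mem_cons (W14854 D T h) (mem_cons (W16 D T h) mem_nil)) mem_nil cw14855
theorem L3272 : LFK l3272 := fun D T h => lf_of_chk h (mem_cons (W14784 D T h) (mem_cons (W9431 D T h) (mem_cons (W10043 D T h) (mem_cons (W6967 D T h) (mem_cons (W16 D T h) (mem_cons (W3356 D T h) (mem_cons (W14797 D T h) (mem_cons (W14810 D T h) (mem_cons (W14834 D T h) (mem_cons (W2934 D T h) (mem_cons (W14835 D T h) (mem_cons (W284 D T h) (mem_cons (W14811 D T h) (mem_cons (W14812 D T h) (mem_cons (W14813 D T h) (mem_cons (W14814 D T h) (mem_cons (W14828 D T h) (mem_cons (W14829 D T h) (mem_cons (W14830 D T h) (mem_cons (W7369 D T h) (mem_cons (W10668 D T h) (mem_cons (W6797 D T h) (mem_cons (W14840 D T h) (mem_cons (W14841 D T h) (mem_cons (W14850 D T h) (mem_cons (W14851 D T h) (mem_cons (W14852 D T h) (mem_cons (W7347 D T h) (mem_cons (W14842 D T h) (mem_cons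 (W7348 D T h) (mem_cons (W14853 D T h) (mem_cons (W5721 D T h) (mem_cons (W14855 D T h) (mem_cons (W14831 D T h) (mem_cons (W14843 D T h) (mem_cons (W14844 D T h) (mem_cons (W14845 D T h) (mem_cons (W14846 D T h) (mem_cons (W14848 D T h) (mem_cons (W11929 D T h) (mem_cons (W14849 D T h) (mem_cons (W7337 D T h) (mem_cons (W14837 D T h) (mem_cons (W14839 D T h) mem_nil)))))))))))))))))))))))))))))))))))))))))))) cl3272
theorem W14856 : WFK w14856 := fun D T h => wf_of_chk h mem_nil (mem_cons (L3272 D T h) mem_nil) cw14856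
theorem W14857 : WFK w14857 := fun D T h => wf_of_chk h mem_nil (mem_cons (L3094 D T h) mem_nil) cw14857
theorem W14858 : WFK w14858 := fun D T h => wf_of_chk h mem_nil (mem_cons (L3001 D T h) mem_nil) cw14858
theorem W14859 : WFK w14859 := fun D T h => wf_of_chk h mem_nil (mem_cons (L3271 D T h) mem_nil) cw14859
theorem W14860 : WFK w14860 := fun D T h => wf_of_chk h mem_nil (mem_cons (L3271 D T h) mem_nil) cw14860
theorem W14861 : WFK w14861 := fun D T h => wf_of_chk h mem_nil (mem_cons (L2859 D T h) mem_nil) cw14861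
theorem W14862 : WFK w14862 := fun D T h => wf_of_chk h mem_nil (mem_cons (L119 D T h) mem_nil) cw14862
theorem W14863 : WFK w14863 := fun D T h => wf_of_chk h mem_nil (mem_cons (L3016 D T h) mem_nil) cw14863
theorem W14864 : WFK w14864 := fun D T h => wf_of_chk h mem_nil (mem_cons (L1233 D T h) mem_nil) cw14864
theorem W14865 : WFK w14865 := fun D T h => wf_of_chk h mem_nil (mem_cons (L1646 D T h) mem_nil) cw14865
theorem W14866 : WFK w14866 := fun D T h => wf_of_chk h mem_nil (mem_cons (L3058 D T h) mem_nil) cw14866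
theorem W14867 : WFK w14867 := fun D T h => wf_of_chk h mem_nil (mem_cons (L3058 D T h) mem_nil) cw14867
theorem W14868 : WFK w14868 := fun D T h => wf_of_chk h mem_nil (mem_cons (L1217 D T h) mem_nil) cw14868
theorem L3273 : LFK l3273 := fun D T h => lf_of_chk h (mem_cons (W6171 D T h) (mem_cons (W6797 D T h) (mem_cons (W469 D T h) (mem_cons (W871 D T h) (mem_cons (W142 D T h) (mem_cons (W6961 D T h) (mem_cons (W14861 D T h) (mem_cons (W14862 D T h) (mem_cons (W14863 D T h) (mem_cons (W14798 D T h) (mem_cons (W521 D T h) (mem_cons (W638 D T h) (mem_cons (W950 D T h) (mem_cons (W14864 D T h) (mem_cons (W14865 D T h) (mem_cons (W3298 D T h) (mem_cons (W864 D T h) (mem_cons (W1805 D T h) (mem_cons (W14806 D T h) (mem_cons (W14866 D T h) (mem_cons (W14867 D T h) (mem_cons (W14868 D T h) (mem_cons (W14860 D T h) (mem_cons (W14815 D T h) (mem_cons (W14750 D T h) (mem_cons (W14857 D T h) (mem_cons (W14858 D T h) (mem_cons (W42 D T h) (mem_cons (W164 D T h) (mem_cons (W14859 D T h) mem_nil))))))))))))))))))))))))))))))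 cl3273
theorem W14869 : WFK w14869 := fun D T h => wf_of_chk h mem_nil (mem_cons (L3273 D T h) mem_nil) cw14869
theorem W14870 : WFK w14870 := fun D T h => wf_of_chk h (mem_cons (W15 D T h) (mem_cons (W6797 D T h) mem_nil)) mem_nil cw14870
theorem L3274 : LFK l3274 := fun D T h => lf_of_chk h (mem_cons (W638 D T h) mem_nil) cl3274
theorem W14871 : WFK w14871 := fun D T h => wf_of_chk h mem_nil (mem_cons (L3274 D T h) mem_nil) cw14871
theorem W14873 : WFK w14873 := fun D T h => wf_of_chk h mem_nil (mem_cons (L3264 D T h) mem_nil) cw14873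
theorem W14874 : WFK w14874 := fun D T h => wf_of_chk h mem_nil (mem_cons (L1550 D T h) mem_nil) cw14874
theorem W14875 : WFK w14875 := fun D T h => wf_of_chk h mem_nil (mem_cons (L3266 D T h) mem_nil) cw14875
theorem W14878 : WFK w14878 := fun D T h => wf_of_chk h (mem_cons (W16 D T h) (mem_cons (W2643 D T h) mem_nil)) mem_nil cw14878
theorem L3275 : LFK l3275 := fun D T h => lf_of_chk h (mem_cons (W746 D T h) (mem_cons (W15 D T h) (mem_cons (W158 D T h) (mem_cons (W10099 D T h) (mem_cons (W1143 D T h) (mem_cons (W7402 D T h) (mem_cons (W11 D T h) (mem_cons (W3232 D T h) (mem_cons (W2922 D T h) (mem_cons (W6037 D T h) (mem_cons (W346 D T h) (mem_cons (W1473 D T h) mem_nil)))))))))))) cl3275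
theorem W14879 : WFK w14879 := fun D T h => wf_of_chk h mem_nil (mem_cons (L3275 D T h) mem_nil) cw14879
theorem W14880 : WFK w14880 := fun D T h => wf_of_chk h (mem_cons (W220 D T h) (mem_cons (W2643 D T h) mem_nil)) mem_nil cw14880
theorem W14881 : WFK w14881 := fun D T h => wf_of_chk h mem_nil (mem_cons (L3268 D T h) mem_nil) cw14881
theorem W14882 : WFK w14882 := fun D T h => wf_of_chk h (mem_cons (W220 D T h) (mem_cons (W2643 D T h) mem_nil)) mem_nil cw14882
theorem W14883 : WFK w14883 := fun D T h => wf_of_chk h mem_nil (mem_cons (L3269 D T h) mem_nil) cw14883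
theorem W14884 : WFK w14884 := fun D T h => wf_of_chk h (mem_cons (W2546 D T h) (mem_cons (W16 D T h) mem_nil)) mem_nil cw14884
theorem W14885 : WFK w14885 := fun D T h => wf_of_chk h mem_nil (mem_cons (L3270 D T h) mem_nil) cw14885
theorem W14886 : WFK w14886 := fun D T h => wf_of_chk h (mem_cons (W162 D T h) (mem_cons (W2643 D T h) mem_nil)) mem_nil cw14886
theorem W14887 : WFK w14887 := fun D T h => wf_of_chk h (mem_cons (W11586 D T h) (mem_cons (W16 D T h) mem_nil)) mem_nil cw14887
theorem W14888 : WFK w14888 := fun D T h => wf_of_chk h (mem_cons (W13184 D T h) (mem_cons (W16 D T h) mem_nil)) mem_nil cw14888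
theorem W14889 : WFK w14889 := fun D T h => wf_of_chk h (mem_cons (W1128 D T h) (mem_cons (W16 D T h) mem_nil)) mem_nil cw14889
theorem W14890 : WFK w14890 := fun D T h => wf_of_chk h (mem_cons (W1128 D T h) (mem_cons (W16 D T h) mem_nil)) mem_nil cw14890
theorem W14891 : WFK w14891 := fun D T h => wf_of_chk h mem_nil (mem_cons (L1272 D T h) mem_nil) cw14891
theorem W14892 : WFK w14892 := fun D T h => wf_of_chk h (mem_cons (W14891 D T h) (mem_cons (W16 D T h) mem_nil)) mem_nil cw14892
theorem W14893 : WFK w14893 := fun D T h => wf_of_chk h (mem_cons (W2442 D T h) (mem_cons (W16 D T h) mem_nil)) mem_nil cw14893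
theorem W14894 : WFK w14894 := fun D T h => wf_of_chk h (mem_cons (W6932 D T h) (mem_cons (W16 D T h) mem_nil)) mem_nil cw14894
theorem L3276 : LFK l3276 := fun D T h => lf_of_chk h (mem_cons (W14878 D T h) (mem_cons (W9431 D T h) (mem_cons (W10045 D T h) (mem_cons (W8398 D T h) (mem_cons (W16 D T h) (mem_cons (W3356 D T h) (mem_cons (W14873 D T h) (mem_cons (W14875 D T h) (mem_cons (W14885 D T h) (mem_cons (W2934 D T h) (mem_cons (W14886 D T h) (mem_cons (W284 D T h) (mem_cons (W14811 D T h) (mem_cons (W14879 D T h) (mem_cons (W14813 D T h) (mem_cons (W14880 D T h) (mem_cons (W14881 D T h) (mem_cons (W14882 D T h) (mem_cons (W14883 D T h) (mem_cons (W7369 D T h) (mem_cons (W10668 D T h) (mem_cons (W6797 D T h) (mem_cons (W14843 D T h) (mem_cons (W14889 D T h) (mem_cons (W14893 D T h) (mem_cons (W7347 D T h) (mem_cons (W14842 D T h) (mem_cons (W7348 D T h) (mem_cons (W14783 D T h) (mem_cons (W14784 D T h) (mem_cons (W14894 D T h) (mem_cons (W14870 D T h) (mem_cons (W14884 D T h) (mem_cons (W14890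 D T h) (mem_cons (W14846 D T h) (mem_cons (W14892 D T h) (mem_cons (W11929 D T h) (mem_cons (W14849 D T h) (mem_cons (W14871 D T h) (mem_cons (W14887 D T h) (mem_cons (W14888 D T h) mem_nil))))))))))))))))))))))))))))))))))))))))) cl3276
theorem W14895 : WFK w14895 := fun D T h => wf_of_chk h mem_nil (mem_cons (L3276 D T h) mem_nil) cw14895
theorem W14896 : WFK w14896 := fun D T h => wf_of_chk h (mem_cons (W158 D T h) (mem_cons (W16 D T h) mem_nil)) mem_nil cw14896
theorem W14897 : WFK w14897 := fun D T h => wf_of_chk h (mem_cons (W2527 D T h) (mem_cons (W16 D T h) mem_nil)) mem_nil cw14897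
theorem W14898 : WFK w14898 := fun D T h => wf_of_chk h (mem_cons (W50 D T h) (mem_cons (W1184 D T h) mem_nil)) mem_nil cw14898
theorem W14899 : WFK w14899 := fun D T h => wf_of_chk h (mem_cons (W667 D T h) (mem_cons (W1184 D T h) mem_nil)) mem_nil cw14899
theorem W14900 : WFK w14900 := fun D T h => wf_of_chk h (mem_cons (W162 D T h) (mem_cons (W1184 D T h) mem_nil)) mem_nil cw14900
theorem L3277 : LFK l3277 := fun D T h => lf_of_chk h (mem_cons (W1185 D T h) (mem_cons (W1182 D T h) (mem_cons (W16 D T h) (mem_cons (W2378 D T h) (mem_cons (W9773 D T h) (mem_cons (W2015 D T h) (mem_cons (W5307 D T h) (mem_cons (W12203 D T h) (mem_cons (W2037 D T h) (mem_cons (W14900 D T h) (mem_cons (W5298 D T h) (mem_cons (W14896 D T h) (mem_cons (W14897 D T h) (mem_cons (W9980 D T h) (mem_cons (W128 D T h) (mem_cons (W14898 D T h) (mem_cons (W10973 D T h) (mem_cons (W14899 D T h) mem_nil)))))))))))))))))) cl3277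
theorem W14901 : WFK w14901 := fun D T h => wf_of_chk h mem_nil (mem_cons (L3277 D T h) mem_nil) cw14901
theorem L3278 : LFK l3278 := fun D T h => lf_of_chk h (mem_cons (W1120 D T h) (mem_cons (W22 D T h) (mem_cons (W1101 D T h) (mem_cons (W1260 D T h) (mem_cons (W291 D T h) (mem_cons (W1259 D T h) (mem_cons (W1278 D T h) (mem_cons (W1258 D T h) (mem_cons (W1262 D T h) mem_nil))))))))) cl3278
theorem W14902 : WFK w14902 := fun D T h => wf_of_chk h mem_nil (mem_cons (L3278 D T h) mem_nil) cw14902
theorem W14903 : WFK w14903 := fun D T h => wf_of_chk h mem_nil (mem_cons (L3127 D T h) mem_nil) cw14903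
theorem L3279 : LFK l3279 := fun D T h => lf_of_chk h (mem_cons (W432 D T h) (mem_cons (W1381 D T h) (mem_cons (W915 D T h) (mem_cons (W158 D T h) (mem_cons (W1120 D T h) (mem_cons (W2636 D T h) (mem_cons (W1548 D T h) (mem_cons (W1546 D T h) mem_nil)))))))) cl3279
theorem W14904 : WFK w14904 := fun D T h => wf_of_chk h mem_nil (mem_cons (L3279 D T h) mem_nil) cw14904
theorem W14905 : WFK w14905 := fun D T h => wf_of_chk h mem_nil (mem_cons (L3127 D T h) mem_nil) cw14905
theorem W14906 : WFK w14906 := fun D T h => wf_of_chk h mem_nil (mem_cons (L3127 D T h) mem_nil) cw14906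
theorem W14907 : WFK w14907 := fun D T h => wf_of_chk h mem_nil (mem_cons (L3127 D T h) mem_nil) cw14907
theorem L3280 : LFK l3280 := fun D T h => lf_of_chk h (mem_cons (W433 D T h) (mem_cons (W5576 D T h) (mem_cons (W5415 D T h) (mem_cons (W10662 D T h) (mem_cons (W9311 D T h) (mem_cons (W3515 D T h) (mem_cons (W1409 D T h) (mem_cons (W14902 D T h) (mem_cons (W14903 D T h) (mem_cons (W126 D T h) (mem_cons (W1129 D T h) (mem_cons (W14904 D T h) (mem_cons (W53 D T h) (mem_cons (W3473 D T h) (mem_cons (W1120 D T h) (mem_cons (W14905 D T h) (mem_cons (W14906 D T h) (mem_cons (W5157 D T h) (mem_cons (W14907 D T h) mem_nil))))))))))))))))))) cl3280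
theorem W14908 : WFK w14908 := fun D T h => wf_of_chk h mem_nil (mem_cons (L3280 D T h) mem_nil) cw14908
theorem W14909 : WFK w14909 := fun D T h => wf_of_chk h (mem_cons (W162 D T h) (mem_cons (W6797 D T h) mem_nil)) mem_nil cw14909
theorem W14910 : WFK w14910 := fun D T h => wf_of_chk h mem_nil (mem_cons (L3264 D T h) mem_nil) cw14910
theorem W14911 : WFK w14911 := fun D T h => wf_of_chk h mem_nil (mem_cons (L3266 D T h) mem_nil) cw14911
theorem W14912 : WFK w14912 := fun D T h => wf_of_chk h mem_nil (mem_cons (L2401 D T h) mem_nil) cw14912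
theorem W14913 : WFK w14913 := fun D T h => wf_of_chk h mem_nil (mem_cons (L2401 D T h) mem_nil) cw14913
theorem W14914 : WFK w14914 := fun D T h => wf_of_chk h (mem_cons (W2690 D T h) (mem_cons (W16 D T h) mem_nil)) mem_nil cw14914
theorem W14915 : WFK w14915 := fun D T h => wf_of_chk h (mem_cons (W1128 D T h) (mem_cons (W16 D T h) mem_nil)) mem_nil cw14915
theorem W14916 : WFK w14916 := fun D T h => wf_of_chk h (mem_cons (W2692 D T h) (mem_cons (W16 D T h) mem_nil)) mem_nil cw14916
theorem L3281 : LFK l3281 := fun D T h => lf_of_chk h (mem_cons (W11929 D T h) (mem_cons (W14901 D T h) (mem_cons (W801 D T h) (mem_cons (W3961 D T h) (mem_cons (W2643 D T h) (mem_cons (W3356 D T h) (mem_cons (W1555 D T h) (mem_cons (W14910 D T h) (mem_cons (W14874 D T h) (mem_cons (W14911 D T h) (mem_cons (W16 D T h) (mem_cons (W433 D T h) (mem_cons (W6797 D T h) (mem_cons (W14740 D T h) (mem_cons (W14741 D T h) (mem_cons (W14908 D T h) (mem_cons (W2934 D T h) (mem_cons (W284 D T h) (mem_cons (W14909 D T h) (mem_cons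 (W7347 D T h) (mem_cons (W14782 D T h) (mem_cons (W7348 D T h) (mem_cons (W14783 D T h) (mem_cons (W14856 D T h) (mem_cons (W14869 D T h) (mem_cons (W14895 D T h) (mem_cons (W7369 D T h) (mem_cons (W14914 D T h) (mem_cons (W14915 D T h) (mem_cons (W14916 D T h) (mem_cons (W14871 D T h) (mem_cons (W7337 D T h) (mem_cons (W14912 D T h) (mem_cons (W14913 D T h) mem_nil)))))))))))))))))))))))))))))))))) cl3281
theorem W14917 : WFK w14917 := fun D T h => wf_of_chk h mem_nil (mem_cons (L3281 D T h) mem_nil) cw14917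
theorem W14918 : WFK w14918 := fun D T h => wf_of_chk h (mem_cons (W14917 D T h) (mem_cons (W34 D T h) mem_nil)) mem_nil cw14918
theorem W14919 : WFK w14919 := fun D T h => wf_of_chk h (mem_cons (W5277 D T h) (mem_cons (W3619 D T h) mem_nil)) mem_nil cw14919
theorem W14920 : WFK w14920 := fun D T h => wf_of_chk h mem_nil (mem_cons (L479 D T h) mem_nil) cw14920
theorem W14921 : WFK w14921 := fun D T h => wf_of_chk h mem_nil (mem_cons (L50 D T h) mem_nil) cw14921
theorem L3282 : LFK l3282 := fun D T h => lf_of_chk h (mem_cons (W14516 D T h) (mem_cons (W25 D T h) (mem_cons (W7724 D T h) mem_nil))) cl3282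
theorem W14922 : WFK w14922 := fun D T h => wf_of_chk h mem_nil (mem_cons (L3282 D T h) mem_nil) cw14922
theorem W14923 : WFK w14923 := fun D T h => wf_of_chk h mem_nil (mem_cons (L931 D T h) mem_nil) cw14923
theorem L3283 : LFK l3283 := fun D T h => lf_of_chk h (mem_cons (W2118 D T h) (mem_cons (W281 D T h) (mem_cons (W10 D T h) (mem_cons (W86 D T h) (mem_cons (W8695 D T h) (mem_cons (W3518 D T h) (mem_cons (W14920 D T h) (mem_cons (W6027 D T h) (mem_cons (W5376 D T h) (mem_cons (W632 D T h) (mem_cons (W14921 D T h) (mem_cons (W7777 D T h) (mem_cons (W14922 D T h) (mem_cons (W14923 D T h) (mem_cons (W5925 D T h) (mem_cons (W91 D T h) (mem_cons (W80 D T h) mem_nil))))))))))))))))) cl3283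
theorem W14924 : WFK w14924 := fun D T h => wf_of_chk h mem_nil (mem_cons (L3283 D T h) mem_nil) cw14924
theorem W14925 : WFK w14925 := fun D T h => wf_of_chk h mem_nil (mem_cons (L637 D T h) mem_nil) cw14925
theorem W14927 : WFK w14927 := fun D T h => wf_of_chk h mem_nil (mem_cons (L3263 D T h) mem_nil) cw14927
theorem W14928 : WFK w14928 := fun D T h => wf_of_chk h mem_nil (mem_cons (L373 D T h) mem_nil) cw14928
theorem W14929 : WFK w14929 := fun D T h => wf_of_chk h mem_nil (mem_cons (L3271 D T h) mem_nil) cw14929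
theorem L3285 : LFK l3285 := fun D T h => lf_of_chk h (mem_cons (W2551 D T h) (mem_cons (W448 D T h) (mem_cons (W1576 D T h) (mem_cons (W142 D T h) (mem_cons (W220 D T h) (mem_cons (W6961 D T h) (mem_cons (W11286 D T h) (mem_cons (W7242 D T h) (mem_cons (W13149 D T h) (mem_cons (W6183 D T h) (mem_cons (W616 D T h) (mem_cons (W15 D T h) (mem_cons (W201 D T h) (mem_cons (W14928 D T h) (mem_cons (W659 D T h) (mem_cons (W8380 D T h) (mem_cons (W3298 D T h) (mem_cons (W864 D T h) (mem_cons (W1805 D T h) (mem_cons (W7241 D T h) (mem_cons (W6171 D T h) (mem_cons (W6170 D T h) (mem_cons (W7240 D T h) (mem_cons (W6175 D T h) (mem_cons (W14929 D T h) (mem_cons (W14927 D T h) (mem_cons (W3183 D T h) (mem_cons (W8273 D T h) (mem_cons (W42 D T h) (mem_cons (W164 D T h) (mem_cons (W8274 D T h) mem_nil))))))))))))))))))))))))))))))) cl3285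
theorem W14930 : WFK w14930 := fun D T h => wf_of_chk h mem_nil (mem_cons (L3285 D T h) mem_nil) cw14930
theorem W14932 : WFK w14932 := fun D T h => wf_of_chk h mem_nil (mem_cons (L110 D T h) mem_nil) cw14932
theorem L3287 : LFK l3287 := fun D T h => lf_of_chk h (mem_cons (W2766 D T h) (mem_cons (W10 D T h) (mem_cons (W109 D T h) (mem_cons (W8695 D T h) (mem_cons (W7171 D T h) (mem_cons (W12168 D T h) mem_nil)))))) cl3287
theorem W14934 : WFK w14934 := fun D T h => wf_of_chk h mem_nil (mem_cons (L3287 D T h) mem_nil) cw14934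
theorem W14935 : WFK w14935 := fun D T h => wf_of_chk h mem_nil (mem_cons (L2793 D T h) mem_nil) cw14935
theorem W14958 : WFK w14958 := fun D T h => wf_of_chk h mem_nil mem_nil cw14958
theorem W14975 : WFK w14975 := fun D T h => wf_of_chk h (mem_cons (W778 D T h) mem_nil) mem_nil cw14975
theorem W14976 : WFK w14976 := fun D T h => wf_of_chk h (mem_cons (W14000 D T h) mem_nil) mem_nil cw14976
theorem L3300 : LFK l3300 := fun D T h => lf_of_chk h (mem_cons (W6797 D T h) (mem_cons (W1166 D T h) (mem_cons (W66 D T h) (mem_cons (W14975 D T h) (mem_cons (W13332 D T h) (mem_cons (W69 D T h) (mem_cons (W9311 D T h) (mem_cons (W8264 D T h) (mem_cons (W14045 D T h) (mem_cons (W389 D T h) (mem_cons (W112 D T h) (mem_cons (W14976 D T h) mem_nil)))))))))))) cl3300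
theorem W14981 : WFK w14981 := fun D T h => wf_of_chk h (mem_cons (W2766 D T h) mem_nil) mem_nil cw14981
theorem W14985 : WFK w14985 := fun D T h => wf_of_chk h (mem_cons (W8638 D T h) mem_nil) mem_nil cw14985
theorem W14986 : WFK w14986 := fun D T h => wf_of_chk h mem_nil (mem_cons (L3255 D T h) mem_nil) cw14986
theorem L3308 : LFK l3308 := fun D T h => lf_of_chk h (mem_cons (W1101 D T h) mem_nil) cl3308
theorem W15007 : WFK w15007 := fun D T h => wf_of_chk h (mem_cons (W281 D T h) mem_nil) mem_nil cw15007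
theorem W15045 : WFK w15045 := fun D T h => wf_of_chk h (mem_cons (W1929 D T h) mem_nil) mem_nil cw15045
theorem W15053 : WFK w15053 := fun D T h => wf_of_chk h mem_nil (mem_cons (L731 D T h) mem_nil) cw15053
theorem W15055 : WFK w15055 := fun D T h => wf_of_chk h mem_nil (mem_cons (L3308 D T h) mem_nil) cw15055
theorem W15061 : WFK w15061 := fun D T h => wf_of_chk h mem_nil (mem_cons (L95 D T h) mem_nil) cw15061
theorem W15099 : WFK w15099 := fun D T h => wf_of_chk h mem_nil (mem_cons (L430 D T h) mem_nil) cw15099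
theorem L3335 : LFK l3335 := fun D T h => lf_of_chk h (mem_cons (W6960 D T h) mem_nil) cl3335
theorem W15119 : WFK w15119 := fun D T h => wf_of_chk h mem_nil (mem_cons (L3335 D T h) mem_nil) cw15119
theorem W15122 : WFK w15122 := fun D T h => wf_of_chk h (mem_cons (W16 D T h) mem_nil) mem_nil cw15122
theorem W15126 : WFK w15126 := fun D T h => wf_of_chk h mem_nil mem_nil cw15126
theorem L3339 : LFK l3339 := fun D T h => lf_of_chk h (mem_cons (W9277 D T h) (mem_cons (W14045 D T h) (mem_cons (W13 D T h) (mem_cons (W781 D T h) (mem_cons (W2766 D T h) (mem_cons (W142 D T h) (mem_cons (W5529 D T h) (mem_cons (W10099 D T h) (mem_cons (W12324 D T h) (mem_cons (W15126 D T h) (mem_cons (W6960 D T h) (mem_cons (W9070 D T h) (mem_cons (W3383 D T h) mem_nil))))))))))))) cl3339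
theorem L3340 : LFK l3340 := fun D T h => lf_of_chk h (mem_cons (W1449 D T h) (mem_cons (W6714 D T h) (mem_cons (W2015 D T h) (mem_cons (W34 D T h) (mem_cons (W3 D T h) (mem_cons (W3406 D T h) (mem_cons (W3407 D T h) (mem_cons (W201 D T h) (mem_cons (W199 D T h) (mem_cons (W6103 D T h) (mem_cons (W13 D T h) (mem_cons (W12 D T h) (mem_cons (W3402 D T h) (mem_cons (W3405 D T h) (mem_cons (W3404 D T h) mem_nil))))))))))))))) cl3340
theorem W15147 : WFK w15147 := fun D T h => wf_of_chk h mem_nil (mem_cons (L3340 D T h) mem_nil) cw15147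
theorem W15159 : WFK w15159 := fun D T h => wf_of_chk h mem_nil (mem_cons (L1538 D T h) mem_nil) cw15159
theorem W15163 : WFK w15163 := fun D T h => wf_of_chk h mem_nil (mem_cons (L403 D T h) mem_nil) cw15163
theorem W15166 : WFK w15166 := fun D T h => wf_of_chk h mem_nil (mem_cons (L1056 D T h) mem_nil) cw15166
theorem W15168 : WFK w15168 := fun D T h => wf_of_chk h mem_nil (mem_cons (L1056 D T h) mem_nil) cw15168
theorem W15174 : WFK w15174 := fun D T h => wf_of_chk h mem_nil (mem_cons (L330 D T h) mem_nil) cw15174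
theorem L3346 : LFK l3346 := fun D T h => lf_of_chk h mem_nil cl3346
theorem W15179 : WFK w15179 := fun D T h => wf_of_chk h mem_nil (mem_cons (L3346 D T h) mem_nil) cw15179
theorem W15197 : WFK w15197 := fun D T h => wf_of_chk h mem_nil (mem_cons (L3231 D T h) mem_nil) cw15197
theorem W15202 : WFK w15202 := fun D T h => wf_of_chk h mem_nil (mem_cons (L3339 D T h) mem_nil) cw15202
theorem W15218 : WFK w15218 := fun D T h => wf_of_chk h (mem_cons (W5841 D T h) mem_nil) mem_nil cw15218
theorem W15249 : WFK w15249 := fun D T h => wf_of_chk h mem_nil (mem_cons (L1258 D T h) mem_nil) cw15249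
theorem W15262 : WFK w15262 := fun D T h => wf_of_chk h (mem_cons (W126 D T h) (mem_cons (W34 D T h) mem_nil)) mem_nil cw15262
theorem L3360 : LFK l3360 := fun D T h => lf_of_chk h (mem_cons (W4038 D T h) (mem_cons (W15197 D T h) (mem_cons (W1 D T h) (mem_cons (W795 D T h) (mem_cons (W6095 D T h) (mem_cons (W4209 D T h) (mem_cons (W1070 D T h) (mem_cons (W8908 D T h) (mem_cons (W1106 D T h) (mem_cons (W4632 D T h) (mem_cons (W111 D T h) (mem_cons (W1109 D T h) (mem_cons (W3274 D T h) (mem_cons (W10344 D T h) (mem_cons (W10346 D T h) (mem_cons (W10253 D T h) (mem_cons (W3628 D T h) mem_nil))))))))))))))))) cl3360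
theorem W15263 : WFK w15263 := fun D T h => wf_of_chk h mem_nil (mem_cons (L3360 D T h) mem_nil) cw15263
theorem W15264 : WFK w15264 := fun D T h => wf_of_chk h (mem_cons (W1202 D T h) (mem_cons (W710 D T h) mem_nil)) mem_nil cw15264
theorem W15265 : WFK w15265 := fun D T h => wf_of_chk h mem_nil mem_nil cw15265
theorem W15266 : WFK w15266 := fun D T h => wf_of_chk h (mem_cons (W158 D T h) mem_nil) mem_nil cw15266
theorem L3361 : LFK l3361 := fun D T h => lf_of_chk h (mem_cons (W4566 D T h) (mem_cons (W2122 D T h) (mem_cons (W69 D T h) (mem_cons (W86 D T h) (mem_cons (W85 D T h) (mem_cons (W2445 D T h) (mem_cons (W88 D T h) (mem_cons (W2204 D T h) (mem_cons (W539 D T h) (mem_cons (W14137 D T h) (mem_cons (W13145 D T h) (mem_cons (W480 D T h) (mem_cons (W15266 D T h) (mem_cons (W3695 D T h) (mem_cons (W15265 D T h) (mem_cons (W7723 D T h) (mem_cons (W14630 D T h) mem_nil))))))))))))))))) cl3361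
theorem W15267 : WFK w15267 := fun D T h => wf_of_chk h mem_nil (mem_cons (L3361 D T h) mem_nil) cw15267
theorem W15268 : WFK w15268 := fun D T h => wf_of_chk h (mem_cons (W2122 D T h) mem_nil) mem_nil cw15268
theorem W15269 : WFK w15269 := fun D T h => wf_of_chk h (mem_cons (W15265 D T h) mem_nil) mem_nil cw15269
theorem W15270 : WFK w15270 := fun D T h => wf_of_chk h mem_nil (mem_cons (L3361 D T h) mem_nil) cw15270
theorem W15272 : WFK w15272 := fun D T h => wf_of_chk h (mem_cons (W281 D T h) (mem_cons (W2122 D T h) mem_nil)) mem_nil cw15272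
theorem L3362 : LFK l3362 := fun D T h => lf_of_chk h (mem_cons (W4209 D T h) (mem_cons (W15267 D T h) (mem_cons (W1379 D T h) (mem_cons (W1 D T h) (mem_cons (W69 D T h) (mem_cons (W83 D T h) (mem_cons (W3565 D T h) (mem_cons (W4566 D T h) (mem_cons (W3688 D T h) (mem_cons (W15269 D T h) (mem_cons (W91 D T h) (mem_cons (W80 D T h) (mem_cons (W8105 D T h) (mem_cons (W4259 D T h) (mem_cons (W15270 D T h) (mem_cons (W521 D T h) (mem_cons (W13717 D T h) (mem_cons (W15268 D T h) (mem_cons (W111 D T h) (mem_cons (W370 D T h) (mem_cons (W15272 D T h) mem_nil))))))))))))))))))))) cl3362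
theorem W15273 : WFK w15273 := fun D T h => wf_of_chk h mem_nil (mem_cons (L3362 D T h) mem_nil) cw15273
theorem W15274 : WFK w15274 := fun D T h => wf_of_chk h (mem_cons (W368 D T h) (mem_cons (W220 D T h) mem_nil)) mem_nil cw15274
theorem W15275 : WFK w15275 := fun D T h => wf_of_chk h (mem_cons (W15274 D T h) (mem_cons (W710 D T h) mem_nil)) mem_nil cw15275
theorem W15276 : WFK w15276 := fun D T h => wf_of_chk h (mem_cons (W4209 D T h) (mem_cons (W220 D T h) mem_nil)) mem_nil cw15276
theorem L3363 : LFK l3363 := fun D T h => lf_of_chk h (mem_cons (W13890 D T h) (mem_cons (W257 D T h) (mem_cons (W220 D T h) (mem_cons (W142 D T h) (mem_cons (W5358 D T h) (mem_cons (W2740 D T h) (mem_cons (W11939 D T h) (mem_cons (W1379 D T h) (mem_cons (W4342 D T h) (mem_cons (W11676 D T h) (mem_cons (W1674 D T h) (mem_cons (W8715 D T h) mem_nil)))))))))))) cl3363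
theorem W15277 : WFK w15277 := fun D T h => wf_of_chk h mem_nil (mem_cons (L3363 D T h) mem_nil) cw15277
theorem L3364 : LFK l3364 := fun D T h => lf_of_chk h (mem_cons (W1326 D T h) (mem_cons (W5415 D T h) (mem_cons (W6960 D T h) (mem_cons (W1467 D T h) (mem_cons (W281 D T h) (mem_cons (W10099 D T h) (mem_cons (W1128 D T h) (mem_cons (W648 D T h) (mem_cons (W6661 D T h) (mem_cons (W1304 D T h) (mem_cons (W13384 D T h) (mem_cons (W10685 D T h) (mem_cons (W6204 D T h) (mem_cons (W6774 D T h) (mem_cons (W14044 D T h) (mem_cons (W6803 D T h) (mem_cons (W6794 D T h) (mem_cons (W6798 D T h) (mem_cons (W6793 D T h) mem_nil))))))))))))))))))) cl3364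
theorem W15279 : WFK w15279 := fun D T h => wf_of_chk h mem_nil (mem_cons (L3364 D T h) mem_nil) cw15279
theorem W15280 : WFK w15280 := fun D T h => wf_of_chk h mem_nil (mem_cons (L373 D T h) mem_nil) cw15280
theorem W15281 : WFK w15281 := fun D T h => wf_of_chk h (mem_cons (W257 D T h) mem_nil) mem_nil cw15281
theorem W15282 : WFK w15282 := fun D T h => wf_of_chk h (mem_cons (W78 D T h) (mem_cons (W220 D T h) mem_nil)) mem_nil cw15282
theorem L3365 : LFK l3365 := fun D T h => lf_of_chk h (mem_cons (W4531 D T h) (mem_cons (W1326 D T h) (mem_cons (W1 D T h) (mem_cons (W69 D T h) (mem_cons (W220 D T h) (mem_cons (W4566 D T h) (mem_cons (W85 D T h) (mem_cons (W15280 D T h) (mem_cons (W105 D T h) (mem_cons (W6006 D T h) (mem_cons (W11228 D T h) (mem_cons (W88 D T h) (mem_cons (W5476 D T h) (mem_cons (W6932 D T h) (mem_cons (W10687 D T h) (mem_cons (W10688 D T h) (mem_cons (W4260 D T h) (mem_cons (W15281 D T h) (mem_cons (W15282 D T h) (mem_cons (W13756 D T h) (mem_cons (W13623 D T h) (mem_cons (W15279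 D T h) mem_nil)))))))))))))))))))))) cl3365
theorem W15283 : WFK w15283 := fun D T h => wf_of_chk h mem_nil (mem_cons (L3365 D T h) mem_nil) cw15283
theorem W15284 : WFK w15284 := fun D T h => wf_of_chk h (mem_cons (W15283 D T h) mem_nil) mem_nil cw15284
theorem W15288 : WFK w15288 := fun D T h => wf_of_chk h (mem_cons (W1326 D T h) mem_nil) mem_nil cw15288
theorem W15289 : WFK w15289 := fun D T h => wf_of_chk h (mem_cons (W78 D T h) (mem_cons (W220 D T h) mem_nil)) mem_nil cw15289
theorem W15290 : WFK w15290 := fun D T h => wf_of_chk h (mem_cons (W75 D T h) (mem_cons (W1326 D T h) mem_nil)) mem_nil cw15290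
theorem W15291 : WFK w15291 := fun D T h => wf_of_chk h (mem_cons (W112 D T h) (mem_cons (W1326 D T h) mem_nil)) mem_nil cw15291
theorem W15292 : WFK w15292 := fun D T h => wf_of_chk h (mem_cons (W69 D T h) (mem_cons (W1326 D T h) mem_nil)) mem_nil cw15292
theorem L3366 : LFK l3366 := fun D T h => lf_of_chk h (mem_cons (W4209 D T h) (mem_cons (W13622 D T h) (mem_cons (W1 D T h) (mem_cons (W1326 D T h) (mem_cons (W69 D T h) (mem_cons (W83 D T h) (mem_cons (W1501 D T h) (mem_cons (W3565 D T h) (mem_cons (W257 D T h) (mem_cons (W91 D T h) (mem_cons (W15289 D T h) (mem_cons (W80 D T h) (mem_cons (W8105 D T h) (mem_cons (W15290 D T h) (mem_cons (W4259 D T h) (mem_cons (W521 D T h) (mem_cons (W13137 D T h) (mem_cons (W15288 D T h) (mem_cons (W111 D T h) (mem_cons (W370 D T h) (mem_cons (W721 D T h) (mem_cons (W15291 D T h) (mem_cons (W267 D T h) (mem_cons (W114 D T h) (mem_cons (W15292 D T h) mem_nil))))))))))))))))))))))))) cl3366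
theorem W15293 : WFK w15293 := fun D T h => wf_of_chk h mem_nil (mem_cons (L3366 D T h) mem_nil) cw15293
theorem W15294 : WFK w15294 := fun D T h => wf_of_chk h (mem_cons (W1412 D T h) (mem_cons (W220 D T h) mem_nil)) mem_nil cw15294
theorem W15295 : WFK w15295 := fun D T h => wf_of_chk h mem_nil (mem_cons (L346 D T h) mem_nil) cw15295
theorem W15296 : WFK w15296 := fun D T h => wf_of_chk h mem_nil (mem_cons (L3263 D T h) mem_nil) cw15296
theorem W15297 : WFK w15297 := fun D T h => wf_of_chk h mem_nil (mem_cons (L346 D T h) mem_nil) cw15297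
theorem L3367 : LFK l3367 := fun D T h => lf_of_chk h (mem_cons (W11228 D T h) (mem_cons (W220 D T h) (mem_cons (W3779 D T h) (mem_cons (W13 D T h) (mem_cons (W15296 D T h) (mem_cons (W648 D T h) (mem_cons (W14045 D T h) (mem_cons (W2204 D T h) (mem_cons (W15295 D T h) (mem_cons (W6204 D T h) (mem_cons (W2493 D T h) (mem_cons (W10099 D T h) (mem_cons (W15297 D T h) (mem_cons (W67 D T h) mem_nil)))))))))))))) cl3367
theorem W15298 : WFK w15298 := fun D T h => wf_of_chk h mem_nil (mem_cons (L3367 D T h) mem_nil) cw15298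
theorem W15299 : WFK w15299 := fun D T h => wf_of_chk h (mem_cons (W12685 D T h) mem_nil) mem_nil cw15299
theorem W15300 : WFK w15300 := fun D T h => wf_of_chk h mem_nil (mem_cons (L3365 D T h) mem_nil) cw15300
theorem W15301 : WFK w15301 := fun D T h => wf_of_chk h mem_nil (mem_cons (L3365 D T h) mem_nil) cw15301
theorem W15302 : WFK w15302 := fun D T h => wf_of_chk h (mem_cons (W1709 D T h) (mem_cons (W1326 D T h) mem_nil)) mem_nil cw15302
theorem W15303 : WFK w15303 := fun D T h => wf_of_chk h mem_nil (mem_cons (L3365 D T h) mem_nil) cw15303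
theorem W15304 : WFK w15304 := fun D T h => wf_of_chk h (mem_cons (W1467 D T h) (mem_cons (W1326 D T h) mem_nil)) mem_nil cw15304
theorem W15305 : WFK w15305 := fun D T h => wf_of_chk h (mem_cons (W112 D T h) (mem_cons (W220 D T h) mem_nil)) mem_nil cw15305
theorem W15306 : WFK w15306 := fun D T h => wf_of_chk h (mem_cons (W15305 D T h) mem_nil) mem_nil cw15306
theorem W15307 : WFK w15307 := fun D T h => wf_of_chk h (mem_cons (W2743 D T h) (mem_cons (W86 D T h) mem_nil)) mem_nil cw15307
theorem W15308 : WFK w15308 := fun D T h => wf_of_chk h (mem_cons (W2743 D T h) (mem_cons (W86 D T h) mem_nil)) mem_nil cw15308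
theorem W15309 : WFK w15309 := fun D T h => wf_of_chk h (mem_cons (W13775 D T h) (mem_cons (W220 D T h) mem_nil)) mem_nil cw15309
theorem W15310 : WFK w15310 := fun D T h => wf_of_chk h (mem_cons (W1393 D T h) (mem_cons (W86 D T h) mem_nil)) mem_nil cw15310
theorem W15311 : WFK w15311 := fun D T h => wf_of_chk h mem_nil (mem_cons (L44 D T h) mem_nil) cw15311
theorem W15312 : WFK w15312 := fun D T h => wf_of_chk h (mem_cons (W15311 D T h) (mem_cons (W86 D T h) mem_nil)) mem_nil cw15312
theorem W15313 : WFK w15313 := fun D T h => wf_of_chk h (mem_cons (W15311 D T h) (mem_cons (W86 D T h) mem_nil)) mem_nil cw15313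
theorem W15314 : WFK w15314 := fun D T h => wf_of_chk h (mem_cons (W13774 D T h) (mem_cons (W220 D T h) mem_nil)) mem_nil cw15314
theorem L3368 : LFK l3368 := fun D T h => lf_of_chk h (mem_cons (W13834 D T h) (mem_cons (W4038 D T h) (mem_cons (W15300 D T h) (mem_cons (W4256 D T h) (mem_cons (W4531 D T h) (mem_cons (W86 D T h) (mem_cons (W1326 D T h) (mem_cons (W4721 D T h) (mem_cons (W220 D T h) (mem_cons (W4209 D T h) (mem_cons (W13770 D T h) (mem_cons (W4599 D T h) (mem_cons (W13774 D T h) (mem_cons (W4632 D T h) (mem_cons (W257 D T h) (mem_cons (W15299 D T h) (mem_cons (W13814 D T h) (mem_cons (W12365 D T h) (mem_cons (W15307 D T h) (mem_cons (W15308 D T h) (mem_cons (W15277 D T h) (mem_cons (W15309 D T h) (mem_cons (W15310 D T h) (mem_cons (W15312 D T h) (mem_cons (W15313 D T h) (mem_cons (W15314 D T h) (mem_cons (W13771 D T h) (mem_cons (W15294 D T h) (mem_cons (W13792 D T h) (mem_cons (W15298 D T h) (mem_cons (W15304 D T h) (mem_cons (W3356 D T h) (mem_cons (W9431 D T h) (mem_cons (W9783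 D T h) (mem_cons (W15306 D T h) (mem_cons (W13829 D T h) (mem_cons (W15301 D T h) (mem_cons (W15302 D T h) (mem_cons (W15303 D T h) mem_nil))))))))))))))))))))))))))))))))))))))) cl3368
theorem W15315 : WFK w15315 := fun D T h => wf_of_chk h mem_nil (mem_cons (L3368 D T h) mem_nil) cw15315
theorem W15316 : WFK w15316 := fun D T h => wf_of_chk h (mem_cons (W75 D T h) (mem_cons (W1326 D T h) mem_nil)) mem_nil cw15316
theorem W15317 : WFK w15317 := fun D T h => wf_of_chk h (mem_cons (W2228 D T h) (mem_cons (W1326 D T h) mem_nil)) mem_nil cw15317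
theorem W15318 : WFK w15318 := fun D T h => wf_of_chk h (mem_cons (W1576 D T h) (mem_cons (W1326 D T h) mem_nil)) mem_nil cw15318
theorem L3369 : LFK l3369 := fun D T h => lf_of_chk h (mem_cons (W4209 D T h) (mem_cons (W15293 D T h) (mem_cons (W13622 D T h) (mem_cons (W1 D T h) (mem_cons (W69 D T h) (mem_cons (W83 D T h) (mem_cons (W3565 D T h) (mem_cons (W93 D T h) (mem_cons (W3688 D T h) (mem_cons (W4566 D T h) (mem_cons (W15316 D T h) (mem_cons (W91 D T h) (mem_cons (W80 D T h) (mem_cons (W8105 D T h) (mem_cons (W4259 D T h) (mem_cons (W5715 D T h) (mem_cons (W521 D T h) (mem_cons (W15284 D T h) (mem_cons (W15315 D T h) (mem_cons (W111 D T h) (mem_cons (W370 D T h) (mem_cons (W721 D T h) (mem_cons (W267 D T h) (mem_cons (W15317 D T h) (mem_cons (W114 D T h) (mem_cons (W15318 D T h) mem_nil)))))))))))))))))))))))))) cl3369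
theorem W15319 : WFK w15319 := fun D T h => wf_of_chk h mem_nil (mem_cons (L3369 D T h) mem_nil) cw15319
theorem W15320 : WFK w15320 := fun D T h => wf_of_chk h mem_nil (mem_cons (L1406 D T h) mem_nil) cw15320
theorem W15322 : WFK w15322 := fun D T h => wf_of_chk h (mem_cons (W2690 D T h) mem_nil) mem_nil cw15322
theorem L3370 : LFK l3370 := fun D T h => lf_of_chk h (mem_cons (W4531 D T h) (mem_cons (W2692 D T h) (mem_cons (W126 D T h) (mem_cons (W69 D T h) (mem_cons (W4566 D T h) (mem_cons (W3781 D T h) (mem_cons (W220 D T h) (mem_cons (W1206 D T h) (mem_cons (W85 D T h) (mem_cons (W105 D T h) (mem_cons (W396 D T h) (mem_cons (W6725 D T h) (mem_cons (W6006 D T h) (mem_cons (W10148 D T h) (mem_cons (W13701 D T h) (mem_cons (W4260 D T h) (mem_cons (W15320 D T h) (mem_cons (W7411 D T h) (mem_cons (W4623 D T h) (mem_cons (W5593 D T h) (mem_cons (W1170 D T h) (mem_cons (W1204 D T h) (mem_cons (W15322 D T h) mem_nil))))))))))))))))))))))) cl3370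
theorem W15323 : WFK w15323 := fun D T h => wf_of_chk h mem_nil (mem_cons (L3370 D T h) mem_nil) cw15323
theorem W15324 : WFK w15324 := fun D T h => wf_of_chk h (mem_cons (W2740 D T h) mem_nil) mem_nil cw15324
theorem W15325 : WFK w15325 := fun D T h => wf_of_chk h (mem_cons (W2740 D T h) mem_nil) mem_nil cw15325
theorem W15326 : WFK w15326 := fun D T h => wf_of_chk h mem_nil (mem_cons (L1557 D T h) mem_nil) cw15326
theorem W15327 : WFK w15327 := fun D T h => wf_of_chk h mem_nil (mem_cons (L1406 D T h) mem_nil) cw15327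
theorem W15328 : WFK w15328 := fun D T h => wf_of_chk h (mem_cons (W6798 D T h) mem_nil) mem_nil cw15328
theorem L3371 : LFK l3371 := fun D T h => lf_of_chk h (mem_cons (W4531 D T h) (mem_cons (W6797 D T h) (mem_cons (W747 D T h) (mem_cons (W69 D T h) (mem_cons (W1 D T h) (mem_cons (W4566 D T h) (mem_cons (W3781 D T h) (mem_cons (W220 D T h) (mem_cons (W15280 D T h) (mem_cons (W85 D T h) (mem_cons (W105 D T h) (mem_cons (W396 D T h) (mem_cons (W6725 D T h) (mem_cons (W6006 D T h) (mem_cons (W10148 D T h) (mem_cons (W15326 D T h) (mem_cons (W4260 D T h) (mem_cons (W15327 D T h) (mem_cons (W7411 D T h) (mem_cons (W15324 D T h) (mem_cons (W15325 D T h) (mem_cons (W1170 D T h) (mem_cons (W1204 D T h) (mem_cons (W15328 D T h) mem_nil)))))))))))))))))))))))) cl3371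
theorem W15329 : WFK w15329 := fun D T h => wf_of_chk h mem_nil (mem_cons (L3371 D T h) mem_nil) cw15329
theorem W15330 : WFK w15330 := fun D T h => wf_of_chk h (mem_cons (W1409 D T h) mem_nil) mem_nil cw15330
theorem W15331 : WFK w15331 := fun D T h => wf_of_chk h (mem_cons (W1409 D T h) mem_nil) mem_nil cw15331
theorem L3372 : LFK l3372 := fun D T h => lf_of_chk h (mem_cons (W6798 D T h) (mem_cons (W871 D T h) (mem_cons (W748 D T h) (mem_cons (W69 D T h) (mem_cons (W6204 D T h) (mem_cons (W142 D T h) (mem_cons (W13 D T h) (mem_cons (W14045 D T h) (mem_cons (W1326 D T h) (mem_cons (W6793 D T h) (mem_cons (W11939 D T h) (mem_cons (W2766 D T h) (mem_cons (W15331 D T h) (mem_cons (W15330 D T h) mem_nil)))))))))))))) cl3372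
theorem W15332 : WFK w15332 := fun D T h => wf_of_chk h mem_nil (mem_cons (L3372 D T h) mem_nil) cw15332
theorem W15334 : WFK w15334 := fun D T h => wf_of_chk h (mem_cons (W69 D T h) mem_nil) mem_nil cw15334
theorem W15335 : WFK w15335 := fun D T h => wf_of_chk h mem_nil (mem_cons (L3058 D T h) mem_nil) cw15335
theorem W15336 : WFK w15336 := fun D T h => wf_of_chk h mem_nil (mem_cons (L1406 D T h) mem_nil) cw15336
theorem W15337 : WFK w15337 := fun D T h => wf_of_chk h (mem_cons (W6774 D T h) mem_nil) mem_nil cw15337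
theorem L3373 : LFK l3373 := fun D T h => lf_of_chk h (mem_cons (W4531 D T h) (mem_cons (W6774 D T h) (mem_cons (W1 D T h) (mem_cons (W69 D T h) (mem_cons (W4566 D T h) (mem_cons (W3781 D T h) (mem_cons (W85 D T h) (mem_cons (W1206 D T h) (mem_cons (W105 D T h) (mem_cons (W396 D T h) (mem_cons (W6006 D T h) (mem_cons (W6725 D T h) (mem_cons (W10148 D T h) (mem_cons (W15335 D T h) (mem_cons (W4260 D T h) (mem_cons (W7411 D T h) (mem_cons (W15336 D T h) (mem_cons (W15179 D T h) (mem_cons (W15334 D T h) (mem_cons (W1170 D T h) (mem_cons (W1204 D T h) (mem_cons (W15337 D T h) mem_nil)))))))))))))))))))))) cl3373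
theorem W15338 : WFK w15338 := fun D T h => wf_of_chk h mem_nil (mem_cons (L3373 D T h) mem_nil) cw15338
theorem L3374 : LFK l3374 := fun D T h => lf_of_chk h (mem_cons (W15202 D T h) (mem_cons (W1326 D T h) (mem_cons (W15338 D T h) (mem_cons (W1409 D T h) (mem_cons (W3 D T h) (mem_cons (W1351 D T h) (mem_cons (W220 D T h) (mem_cons (W1723 D T h) (mem_cons (W6797 D T h) (mem_cons (W2948 D T h) (mem_cons (W5841 D T h) (mem_cons (W39 D T h) (mem_cons (W142 D T h) (mem_cons (W1202 D T h) (mem_cons (W2766 D T h) mem_nil))))))))))))))) cl3374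
theorem W15339 : WFK w15339 := fun D T h => wf_of_chk h mem_nil (mem_cons (L3374 D T h) mem_nil) cw15339
theorem L3375 : LFK l3375 := fun D T h => lf_of_chk h (mem_cons (W4531 D T h) (mem_cons (W6797 D T h) (mem_cons (W69 D T h) (mem_cons (W1409 D T h) (mem_cons (W1 D T h) (mem_cons (W3781 D T h) (mem_cons (W4566 D T h) (mem_cons (W220 D T h) (mem_cons (W1206 D T h) (mem_cons (W85 D T h) (mem_cons (W6725 D T h) (mem_cons (W105 D T h) (mem_cons (W396 D T h) (mem_cons (W6006 D T h) (mem_cons (W15327 D T h) (mem_cons (W15326 D T h) (mem_cons (W4260 D T h) (mem_cons (W10148 D T h) (mem_cons (W7411 D T h) (mem_cons (W3967 D T h) (mem_cons (W2948 D T h) (mem_cons (W9478 D T h) mem_nil)))))))))))))))))))))) cl3375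
theorem W15340 : WFK w15340 := fun D T h => wf_of_chk h mem_nil (mem_cons (L3375 D T h) mem_nil) cw15340
theorem W15341 : WFK w15341 := fun D T h => wf_of_chk h mem_nil (mem_cons (L1167 D T h) mem_nil) cw15341
theorem W15342 : WFK w15342 := fun D T h => wf_of_chk h (mem_cons (W1384 D T h) (mem_cons (W16 D T h) mem_nil)) mem_nil cw15342
theorem L3376 : LFK l3376 := fun D T h => lf_of_chk h (mem_cons (W6841 D T h) (mem_cons (W16 D T h) (mem_cons (W1409 D T h) (mem_cons (W220 D T h) (mem_cons (W1326 D T h) (mem_cons (W15323 D T h) (mem_cons (W6797 D T h) (mem_cons (W3967 D T h) (mem_cons (W2948 D T h) (mem_cons (W15340 D T h) (mem_cons (W6714 D T h) (mem_cons (W2936 D T h) (mem_cons (W15341 D T h) (mem_cons (W7398 D T h) (mem_cons (W6613 D T h) (mem_cons (W871 D T h) (mem_cons (W1202 D T h) (mem_cons (W748 D T h) (mem_cons (W15311 D T h) (mem_cons (W7235 D T h) (mem_cons (W6749 D T h) (mem_cons (W1139 D T h) (mem_cons (W15329 D T h) (mem_cons (W15332 D T h) (mem_cons (W15339 D T h) (mem_cons (W56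 D T h) (mem_cons (W1184 D T h) (mem_cons (W7369 D T h) (mem_cons (W345 D T h) (mem_cons (W7250 D T h) (mem_cons (W2122 D T h) (mem_cons (W7370 D T h) (mem_cons (W15326 D T h) (mem_cons (W7076 D T h) (mem_cons (W7418 D T h) (mem_cons (W7285 D T h) (mem_cons (W114 D T h) (mem_cons (W2517 D T h) (mem_cons (W6572 D T h) (mem_cons (W15342 D T h) (mem_cons (W7399 D T h) (mem_cons (W6719 D T h) (mem_cons (W7372 D T h) (mem_cons (W7373 D T h) (mem_cons (W7374 D T h) mem_nil))))))))))))))))))))))))))))))))))))))))))))) cl3376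
theorem W15343 : WFK w15343 := fun D T h => wf_of_chk h mem_nil (mem_cons (L3376 D T h) mem_nil) cw15343
theorem L3377 : LFK l3377 := fun D T h => lf_of_chk h (mem_cons (W1326 D T h) (mem_cons (W2690 D T h) (mem_cons (W13 D T h) (mem_cons (W1467 D T h) (mem_cons (W281 D T h) (mem_cons (W10099 D T h) (mem_cons (W1128 D T h) (mem_cons (W6204 D T h) (mem_cons (W6661 D T h) (mem_cons (W1304 D T h) (mem_cons (W220 D T h) (mem_cons (W10685 D T h) (mem_cons (W6774 D T h) (mem_cons (W14044 D T h) (mem_cons (W6803 D T h) (mem_cons (W6794 D T h) (mem_cons (W6798 D T h) (mem_cons (W6793 D T h) mem_nil)))))))))))))))))) cl3377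
theorem W15344 : WFK w15344 := fun D T h => wf_of_chk h mem_nil (mem_cons (L3377 D T h) mem_nil) cw15344
theorem L3378 : LFK l3378 := fun D T h => lf_of_chk h (mem_cons (W4531 D T h) (mem_cons (W1326 D T h) (mem_cons (W1 D T h) (mem_cons (W69 D T h) (mem_cons (W220 D T h) (mem_cons (W621 D T h) (mem_cons (W85 D T h) (mem_cons (W84 D T h) (mem_cons (W1206 D T h) (mem_cons (W105 D T h) (mem_cons (W6006 D T h) (mem_cons (W11228 D T h) (mem_cons (W88 D T h) (mem_cons (W5476 D T h) (mem_cons (W6932 D T h) (mem_cons (W10687 D T h) (mem_cons (W10688 D T h) (mem_cons (W4260 D T h) (mem_cons (W11938 D T h) (mem_cons (W15344 D T h) (mem_cons (W13756 D T h) mem_nil))))))))))))))))))))) cl3378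
theorem W15345 : WFK w15345 := fun D T h => wf_of_chk h mem_nil (mem_cons (L3378 D T h) mem_nil) cw15345
theorem W15346 : WFK w15346 := fun D T h => wf_of_chk h (mem_cons (W489 D T h) (mem_cons (W220 D T h) mem_nil)) mem_nil cw15346
theorem L3379 : LFK l3379 := fun D T h => lf_of_chk h (mem_cons (W489 D T h) mem_nil) cl3379
theorem W15347 : WFK w15347 := fun D T h => wf_of_chk h mem_nil (mem_cons (L3379 D T h) mem_nil) cw15347
theorem W15348 : WFK w15348 := fun D T h => wf_of_chk h (mem_cons (W489 D T h) mem_nil) mem_nil cw15348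
theorem W15349 : WFK w15349 := fun D T h => wf_of_chk h (mem_cons (W489 D T h) mem_nil) mem_nil cw15349
theorem L3380 : LFK l3380 := fun D T h => lf_of_chk h (mem_cons (W1326 D T h) (mem_cons (W2690 D T h) (mem_cons (W648 D T h) (mem_cons (W13 D T h) (mem_cons (W489 D T h) (mem_cons (W15347 D T h) (mem_cons (W2724 D T h) (mem_cons (W15348 D T h) (mem_cons (W281 D T h) (mem_cons (W10099 D T h) (mem_cons (W1128 D T h) (mem_cons (W15349 D T h) (mem_cons (W6077 D T h) (mem_cons (W6204 D T h) (mem_cons (W14045 D T h) (mem_cons (W3314 D T h) mem_nil)))))))))))))))) cl3380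
theorem W15350 : WFK w15350 := fun D T h => wf_of_chk h mem_nil (mem_cons (L3380 D T h) mem_nil) cw15350
theorem W15351 : WFK w15351 := fun D T h => wf_of_chk h (mem_cons (W368 D T h) (mem_cons (W220 D T h) mem_nil)) mem_nil cw15351
theorem W15352 : WFK w15352 := fun D T h => wf_of_chk h (mem_cons (W15351 D T h) (mem_cons (W710 D T h) mem_nil)) mem_nil cw15352
theorem W15353 : WFK w15353 := fun D T h => wf_of_chk h (mem_cons (W1326 D T h) mem_nil) mem_nil cw15353
theorem L3381 : LFK l3381 := fun D T h => lf_of_chk h (mem_cons (W3356 D T h) (mem_cons (W15346 D T h) (mem_cons (W2119 D T h) (mem_cons (W6797 D T h) (mem_cons (W3473 D T h) (mem_cons (W3274 D T h) (mem_cons (W1636 D T h) (mem_cons (W7481 D T h) (mem_cons (W15353 D T h) mem_nil))))))))) cl3381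
theorem W15354 : WFK w15354 := fun D T h => wf_of_chk h mem_nil (mem_cons (L3381 D T h) mem_nil) cw15354
theorem W15355 : WFK w15355 := fun D T h => wf_of_chk h mem_nil (mem_cons (L3381 D T h) mem_nil) cw15355
theorem L3382 : LFK l3382 := fun D T h => lf_of_chk h (mem_cons (W257 D T h) (mem_cons (W86 D T h) (mem_cons (W91 D T h) (mem_cons (W9486 D T h) (mem_cons (W6204 D T h) (mem_cons (W4548 D T h) (mem_cons (W10099 D T h) (mem_cons (W13336 D T h) (mem_cons (W80 D T h) (mem_cons (W13 D T h) (mem_cons (W1801 D T h) (mem_cons (W648 D T h) (mem_cons (W14045 D T h) (mem_cons (W10 D T h) (mem_cons (W888 D T h) (mem_cons (W345 D T h) (mem_cons (W14920 D T h) mem_nil))))))))))))))))) cl3382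
theorem W15356 : WFK w15356 := fun D T h => wf_of_chk h mem_nil (mem_cons (L3382 D T h) mem_nil) cw15356
theorem W15357 : WFK w15357 := fun D T h => wf_of_chk h (mem_cons (W33 D T h) (mem_cons (W1326 D T h) mem_nil)) mem_nil cw15357
theorem W15358 : WFK w15358 := fun D T h => wf_of_chk h (mem_cons (W33 D T h) (mem_cons (W220 D T h) mem_nil)) mem_nil cw15358
theorem W15359 : WFK w15359 := fun D T h => wf_of_chk h (mem_cons (W3831 D T h) (mem_cons (W220 D T h) mem_nil)) mem_nil cw15359
theorem W15360 : WFK w15360 := fun D T h => wf_of_chk h mem_nil (mem_cons (L3300 D T h) mem_nil) cw15360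
theorem W15361 : WFK w15361 := fun D T h => wf_of_chk h (mem_cons (W78 D T h) (mem_cons (W220 D T h) mem_nil)) mem_nil cw15361
theorem L3383 : LFK l3383 := fun D T h => lf_of_chk h (mem_cons (W7171 D T h) (mem_cons (W4072 D T h) (mem_cons (W2750 D T h) mem_nil))) cl3383
theorem W15362 : WFK w15362 := fun D T h => wf_of_chk h mem_nil (mem_cons (L3383 D T h) mem_nil) cw15362
theorem W15363 : WFK w15363 := fun D T h => wf_of_chk h mem_nil (mem_cons (L2673 D T h) mem_nil) cw15363
theorem L3384 : LFK l3384 := fun D T h => lf_of_chk h (mem_cons (W257 D T h) (mem_cons (W86 D T h) (mem_cons (W91 D T h) (mem_cons (W15362 D T h) (mem_cons (W80 D T h) (mem_cons (W13 D T h) (mem_cons (W1801 D T h) (mem_cons (W648 D T h) (mem_cons (W650 D T h) (mem_cons (W109 D T h) (mem_cons (W888 D T h) (mem_cons (W345 D T h) (mem_cons (W15363 D T h) mem_nil))))))))))))) cl3384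
theorem W15364 : WFK w15364 := fun D T h => wf_of_chk h mem_nil (mem_cons (L3384 D T h) mem_nil) cw15364
theorem W15365 : WFK w15365 := fun D T h => wf_of_chk h (mem_cons (W75 D T h) (mem_cons (W1326 D T h) mem_nil)) mem_nil cw15365
theorem W15366 : WFK w15366 := fun D T h => wf_of_chk h (mem_cons (W80 D T h) (mem_cons (W1326 D T h) mem_nil)) mem_nil cw15366
theorem W15367 : WFK w15367 := fun D T h => wf_of_chk h (mem_cons (W78 D T h) (mem_cons (W1326 D T h) mem_nil)) mem_nil cw15367
theorem W15368 : WFK w15368 := fun D T h => wf_of_chk h (mem_cons (W78 D T h) (mem_cons (W1326 D T h) mem_nil)) mem_nil cw15368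
theorem L3385 : LFK l3385 := fun D T h => lf_of_chk h (mem_cons (W4209 D T h) (mem_cons (W13226 D T h) (mem_cons (W1 D T h) (mem_cons (W1326 D T h) (mem_cons (W69 D T h) (mem_cons (W83 D T h) (mem_cons (W1576 D T h) (mem_cons (W3565 D T h) (mem_cons (W257 D T h) (mem_cons (W4566 D T h) (mem_cons (W91 D T h) (mem_cons (W15361 D T h) (mem_cons (W80 D T h) (mem_cons (W8105 D T h) (mem_cons (W15365 D T h) (mem_cons (W4259 D T h) (mem_cons (W521 D T h) (mem_cons (W15366 D T h) (mem_cons (W15367 D T h) (mem_cons (W15368 D T h) (mem_cons (W15292 D T h) (mem_cons (W15360 D T h) (mem_cons (W15288 D T h) (mem_cons (W15356 D T h) (mem_cons (W15364 D T h) (mem_cons (W721 D T h) (mem_cons (W15291 D T h) (mem_cons (W267 D T h) (mem_cons (W114 D T h) mem_nil))))))))))))))))))))))))))))) cl3385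
theorem W15369 : WFK w15369 := fun D T h => wf_of_chk h mem_nil (mem_cons (L3385 D T h) mem_nil) cw15369
theorem W15371 : WFK w15371 := fun D T h => wf_of_chk h (mem_cons (W831 D T h) (mem_cons (W161 D T h) mem_nil)) mem_nil cw15371
theorem W15372 : WFK w15372 := fun D T h => wf_of_chk h (mem_cons (W161 D T h) mem_nil) mem_nil cw15372
theorem W15373 : WFK w15373 := fun D T h => wf_of_chk h (mem_cons (W1473 D T h) (mem_cons (W161 D T h) mem_nil)) mem_nil cw15373
theorem W15374 : WFK w15374 := fun D T h => wf_of_chk h (mem_cons (W1379 D T h) (mem_cons (W161 D T h) mem_nil)) mem_nil cw15374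
theorem W15375 : WFK w15375 := fun D T h => wf_of_chk h (mem_cons (W1538 D T h) (mem_cons (W161 D T h) mem_nil)) mem_nil cw15375
theorem W15377 : WFK w15377 := fun D T h => wf_of_chk h mem_nil (mem_cons (L1065 D T h) mem_nil) cw15377
theorem W15378 : WFK w15378 := fun D T h => wf_of_chk h (mem_cons (W161 D T h) mem_nil) mem_nil cw15378
theorem W15379 : WFK w15379 := fun D T h => wf_of_chk h mem_nil (mem_cons (L2397 D T h) mem_nil) cw15379
theorem W15380 : WFK w15380 := fun D T h => wf_of_chk h (mem_cons (W281 D T h) mem_nil) mem_nil cw15380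
theorem W15381 : WFK w15381 := fun D T h => wf_of_chk h (mem_cons (W817 D T h) (mem_cons (W281 D T h) mem_nil)) mem_nil cw15381
theorem W15382 : WFK w15382 := fun D T h => wf_of_chk h (mem_cons (W1075 D T h) (mem_cons (W281 D T h) mem_nil)) mem_nil cw15382
theorem W15383 : WFK w15383 := fun D T h => wf_of_chk h (mem_cons (W161 D T h) (mem_cons (W281 D T h) mem_nil)) mem_nil cw15383
theorem W15384 : WFK w15384 := fun D T h => wf_of_chk h (mem_cons (W22 D T h) (mem_cons (W281 D T h) mem_nil)) mem_nil cw15384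
theorem W15385 : WFK w15385 := fun D T h => wf_of_chk h (mem_cons (W1120 D T h) (mem_cons (W281 D T h) mem_nil)) mem_nil cw15385
theorem L3386 : LFK l3386 := fun D T h => lf_of_chk h (mem_cons (W14462 D T h) (mem_cons (W858 D T h) (mem_cons (W15377 D T h) (mem_cons (W15378 D T h) (mem_cons (W15379 D T h) (mem_cons (W281 D T h) (mem_cons (W5355 D T h) (mem_cons (W4400 D T h) (mem_cons (W15381 D T h) (mem_cons (W15382 D T h) (mem_cons (W1355 D T h) (mem_cons (W15383 D T h) (mem_cons (W15380 D T h) (mem_cons (W1109 D T h) (mem_cons (W3274 D T h) (mem_cons (W10050 D T h) (mem_cons (W2458 D T h) (mem_cons (W15384 D T h) (mem_cons (W2684 D T h) (mem_cons (W15385 D T h) (mem_cons (W15371 D T h) (mem_cons (W4916 D T h) (mem_cons (W15372 D T h) (mem_cons (W15373 D T h) (mem_cons (W15374 D T h) (mem_cons (W15375 D T h) mem_nil)))))))))))))))))))))))))) cl3386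
theorem W15386 : WFK w15386 := fun D T h => wf_of_chk h mem_nil (mem_cons (L3386 D T h) mem_nil) cw15386
theorem W15387 : WFK w15387 := fun D T h => wf_of_chk h (mem_cons (W15386 D T h) (mem_cons (W220 D T h) mem_nil)) mem_nil cw15387
theorem W15390 : WFK w15390 := fun D T h => wf_of_chk h (mem_cons (W33 D T h) (mem_cons (W1326 D T h) mem_nil)) mem_nil cw15390
theorem W15393 : WFK w15393 := fun D T h => wf_of_chk h mem_nil (mem_cons (L198 D T h) mem_nil) cw15393
theorem W15394 : WFK w15394 := fun D T h => wf_of_chk h (mem_cons (W15393 D T h) (mem_cons (W220 D T h) mem_nil)) mem_nil cw15394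
theorem L3388 : LFK l3388 := fun D T h => lf_of_chk h (mem_cons (W4038 D T h) (mem_cons (W13226 D T h) (mem_cons (W1 D T h) (mem_cons (W795 D T h) (mem_cons (W6095 D T h) (mem_cons (W4209 D T h) (mem_cons (W1070 D T h) (mem_cons (W15369 D T h) (mem_cons (W15356 D T h) (mem_cons (W15359 D T h) (mem_cons (W1109 D T h) (mem_cons (W3274 D T h) (mem_cons (W10344 D T h) (mem_cons (W15387 D T h) (mem_cons (W10253 D T h) (mem_cons (W15394 D T h) mem_nil)))))))))))))))) cl3388
theorem W15395 : WFK w15395 := fun D T h => wf_of_chk h mem_nil (mem_cons (L3388 D T h) mem_nil) cw15395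
theorem W15396 : WFK w15396 := fun D T h => wf_of_chk h (mem_cons (W112 D T h) (mem_cons (W1326 D T h) mem_nil)) mem_nil cw15396
theorem W15397 : WFK w15397 := fun D T h => wf_of_chk h mem_nil (mem_cons (L1408 D T h) mem_nil) cw15397
theorem L3389 : LFK l3389 := fun D T h => lf_of_chk h (mem_cons (W4209 D T h) (mem_cons (W11935 D T h) (mem_cons (W1 D T h) (mem_cons (W1326 D T h) (mem_cons (W69 D T h) (mem_cons (W83 D T h) (mem_cons (W93 D T h) (mem_cons (W3565 D T h) (mem_cons (W257 D T h) (mem_cons (W4566 D T h) (mem_cons (W91 D T h) (mem_cons (W15361 D T h) (mem_cons (W80 D T h) (mem_cons (W8105 D T h) (mem_cons (W15365 D T h) (mem_cons (W4259 D T h) (mem_cons (W521 D T h) (mem_cons (W13137 D T h) (mem_cons (W14985 D T h) (mem_cons (W111 D T h) (mem_cons (W370 D T h) (mem_cons (W721 D T h) (mem_cons (W15396 D T h) (mem_cons (W267 D T h) (mem_cons (W114 D T h) (mem_cons (W15397 D T h) mem_nil)))))))))))))))))))))))))) cl3389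
theorem W15398 : WFK w15398 := fun D T h => wf_of_chk h mem_nil (mem_cons (L3389 D T h) mem_nil) cw15398
theorem W15399 : WFK w15399 := fun D T h => wf_of_chk h (mem_cons (W34 D T h) (mem_cons (W220 D T h) mem_nil)) mem_nil cw15399
theorem W15400 : WFK w15400 := fun D T h => wf_of_chk h (mem_cons (W3518 D T h) (mem_cons (W1326 D T h) mem_nil)) mem_nil cw15400
theorem W15401 : WFK w15401 := fun D T h => wf_of_chk h (mem_cons (W368 D T h) (mem_cons (W15345 D T h) mem_nil)) mem_nil cw15401
theorem W15402 : WFK w15402 := fun D T h => wf_of_chk h (mem_cons (W69 D T h) (mem_cons (W15345 D T h) mem_nil)) mem_nil cw15402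
theorem W15403 : WFK w15403 := fun D T h => wf_of_chk h (mem_cons (W126 D T h) (mem_cons (W15345 D T h) mem_nil)) mem_nil cw15403
theorem L3390 : LFK l3390 := fun D T h => lf_of_chk h (mem_cons (W192 D T h) (mem_cons (W25 D T h) (mem_cons (W4601 D T h) (mem_cons (W2750 D T h) (mem_cons (W4339 D T h) mem_nil))))) cl3390
theorem W15405 : WFK w15405 := fun D T h => wf_of_chk h mem_nil (mem_cons (L3390 D T h) mem_nil) cw15405
theorem L3391 : LFK l3391 := fun D T h => lf_of_chk h (mem_cons (W257 D T h) (mem_cons (W86 D T h) (mem_cons (W91 D T h) (mem_cons (W15405 D T h) (mem_cons (W6204 D T h) (mem_cons (W4548 D T h) (mem_cons (W10099 D T h) (mem_cons (W14986 D T h) (mem_cons (W80 D T h) (mem_cons (W6960 D T h) (mem_cons (W1801 D T h) (mem_cons (W648 D T h) (mem_cons (W14045 D T h) (mem_cons (W281 D T h) (mem_cons (W169 D T h) (mem_cons (W8 D T h) (mem_cons (W345 D T h) (mem_cons (W2752 D T h) mem_nil)))))))))))))))))) cl3391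
theorem W15406 : WFK w15406 := fun D T h => wf_of_chk h mem_nil (mem_cons (L3391 D T h) mem_nil) cw15406
theorem L3395 : LFK l3395 := fun D T h => lf_of_chk h (mem_cons (W4038 D T h) (mem_cons (W2572 D T h) (mem_cons (W12743 D T h) (mem_cons (W1070 D T h) (mem_cons (W8908 D T h) (mem_cons (W4632 D T h) (mem_cons (W10247 D T h) (mem_cons (W1 D T h) (mem_cons (W831 D T h) (mem_cons (W6095 D T h) (mem_cons (W5158 D T h) (mem_cons (W1109 D T h) (mem_cons (W3274 D T h) (mem_cons (W10344 D T h) (mem_cons (W10253 D T h) (mem_cons (W15371 D T h) (mem_cons (W10249 D T h) mem_nil))))))))))))))))) cl3395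
theorem W15413 : WFK w15413 := fun D T h => wf_of_chk h mem_nil (mem_cons (L3395 D T h) mem_nil) cw15413
theorem W15414 : WFK w15414 := fun D T h => wf_of_chk h (mem_cons (W15413 D T h) (mem_cons (W220 D T h) mem_nil)) mem_nil cw15414
theorem W15418 : WFK w15418 := fun D T h => wf_of_chk h (mem_cons (W10183 D T h) (mem_cons (W220 D T h) mem_nil)) mem_nil cw15418
theorem W15419 : WFK w15419 := fun D T h => wf_of_chk h (mem_cons (W1804 D T h) (mem_cons (W1326 D T h) mem_nil)) mem_nil cw15419
theorem W15420 : WFK w15420 := fun D T h => wf_of_chk h (mem_cons (W1326 D T h) mem_nil) mem_nil cw15420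
theorem W15421 : WFK w15421 := fun D T h => wf_of_chk h (mem_cons (W408 D T h) (mem_cons (W220 D T h) mem_nil)) mem_nil cw15421
theorem W15422 : WFK w15422 := fun D T h => wf_of_chk h mem_nil (mem_cons (L14 D T h) mem_nil) cw15422
theorem W15423 : WFK w15423 := fun D T h => wf_of_chk h (mem_cons (W808 D T h) (mem_cons (W220 D T h) mem_nil)) mem_nil cw15423
theorem W15424 : WFK w15424 := fun D T h => wf_of_chk h (mem_cons (W408 D T h) (mem_cons (W1326 D T h) mem_nil)) mem_nil cw15424
theorem W15425 : WFK w15425 := fun D T h => wf_of_chk h (mem_cons (W819 D T h) (mem_cons (W1326 D T h) mem_nil)) mem_nil cw15425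
theorem W15426 : WFK w15426 := fun D T h => wf_of_chk h (mem_cons (W174 D T h) (mem_cons (W1326 D T h) mem_nil)) mem_nil cw15426
theorem W15427 : WFK w15427 := fun D T h => wf_of_chk h (mem_cons (W2871 D T h) (mem_cons (W1326 D T h) mem_nil)) mem_nil cw15427
theorem W15428 : WFK w15428 := fun D T h => wf_of_chk h (mem_cons (W278 D T h) (mem_cons (W1326 D T h) mem_nil)) mem_nil cw15428
theorem L3397 : LFK l3397 := fun D T h => lf_of_chk h (mem_cons (W4803 D T h) (mem_cons (W1070 D T h) (mem_cons (W1353 D T h) (mem_cons (W4531 D T h) (mem_cons (W5 D T h) (mem_cons (W278 D T h) (mem_cons (W6797 D T h) (mem_cons (W15422 D T h) (mem_cons (W809 D T h) (mem_cons (W15423 D T h) (mem_cons (W15420 D T h) (mem_cons (W15421 D T h) (mem_cons (W15424 D T h) (mem_cons (W3274 D T h) (mem_cons (W3276 D T h) (mem_cons (W15425 D T h) (mem_cons (W15426 D T h) (mem_cons (W15427 D T h) (mem_cons (W15428 D T h) mem_nil))))))))))))))))))) cl3397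
theorem W15429 : WFK w15429 := fun D T h => wf_of_chk h mem_nil (mem_cons (L3397 D T h) mem_nil) cw15429
theorem W15430 : WFK w15430 := fun D T h => wf_of_chk h (mem_cons (W3444 D T h) (mem_cons (W220 D T h) mem_nil)) mem_nil cw15430
theorem W15431 : WFK w15431 := fun D T h => wf_of_chk h (mem_cons (W3437 D T h) (mem_cons (W220 D T h) mem_nil)) mem_nil cw15431
theorem W15432 : WFK w15432 := fun D T h => wf_of_chk h mem_nil (mem_cons (L1750 D T h) mem_nil) cw15432
theorem L3398 : LFK l3398 := fun D T h => lf_of_chk h (mem_cons (W15357 D T h) (mem_cons (W1353 D T h) (mem_cons (W4 D T h) (mem_cons (W33 D T h) (mem_cons (W6797 D T h) (mem_cons (W2207 D T h) (mem_cons (W632 D T h) (mem_cons (W3019 D T h) (mem_cons (W7886 D T h) (mem_cons (W15432 D T h) (mem_cons (W15358 D T h) (mem_cons (W1070 D T h) (mem_cons (W4803 D T h) mem_nil))))))))))))) cl3398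
theorem W15433 : WFK w15433 := fun D T h => wf_of_chk h mem_nil (mem_cons (L3398 D T h) mem_nil) cw15433
theorem W15434 : WFK w15434 := fun D T h => wf_of_chk h (mem_cons (W1412 D T h) (mem_cons (W220 D T h) mem_nil)) mem_nil cw15434
theorem L3399 : LFK l3399 := fun D T h => lf_of_chk h (mem_cons (W111 D T h) (mem_cons (W11935 D T h) (mem_cons (W10 D T h) (mem_cons (W1326 D T h) (mem_cons (W3518 D T h) (mem_cons (W489 D T h) (mem_cons (W2118 D T h) (mem_cons (W15434 D T h) (mem_cons (W619 D T h) (mem_cons (W15358 D T h) (mem_cons (W15418 D T h) (mem_cons (W7492 D T h) (mem_cons (W15419 D T h) (mem_cons (W15357 D T h) (mem_cons (W15359 D T h) (mem_cons (W14985 D T h) (mem_cons (W15429 D T h) (mem_cons (W15430 D T h) (mem_cons (W15431 D T h) (mem_cons (W80 D T h) (mem_cons (W91 D T h) (mem_cons (W15433 D T h) mem_nil)))))))))))))))))))))) cl3399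
theorem W15435 : WFK w15435 := fun D T h => wf_of_chk h mem_nil (mem_cons (L3399 D T h) mem_nil) cw15435
theorem W15436 : WFK w15436 := fun D T h => wf_of_chk h (mem_cons (W67 D T h) (mem_cons (W1326 D T h) mem_nil)) mem_nil cw15436
theorem W15437 : WFK w15437 := fun D T h => wf_of_chk h (mem_cons (W86 D T h) (mem_cons (W220 D T h) mem_nil)) mem_nil cw15437
theorem W15438 : WFK w15438 := fun D T h => wf_of_chk h (mem_cons (W1467 D T h) (mem_cons (W220 D T h) mem_nil)) mem_nil cw15438
theorem W15439 : WFK w15439 := fun D T h => wf_of_chk h (mem_cons (W748 D T h) (mem_cons (W86 D T h) mem_nil)) mem_nil cw15439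
theorem W15440 : WFK w15440 := fun D T h => wf_of_chk h (mem_cons (W871 D T h) (mem_cons (W86 D T h) mem_nil)) mem_nil cw15440
theorem W15441 : WFK w15441 := fun D T h => wf_of_chk h (mem_cons (W69 D T h) (mem_cons (W1326 D T h) mem_nil)) mem_nil cw15441
theorem W15442 : WFK w15442 := fun D T h => wf_of_chk h (mem_cons (W96 D T h) (mem_cons (W1326 D T h) mem_nil)) mem_nil cw15442
theorem W15443 : WFK w15443 := fun D T h => wf_of_chk h (mem_cons (W1709 D T h) (mem_cons (W1326 D T h) mem_nil)) mem_nil cw15443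
theorem W15444 : WFK w15444 := fun D T h => wf_of_chk h (mem_cons (W216 D T h) (mem_cons (W1326 D T h) mem_nil)) mem_nil cw15444
theorem W15445 : WFK w15445 := fun D T h => wf_of_chk h (mem_cons (W1825 D T h) (mem_cons (W1326 D T h) mem_nil)) mem_nil cw15445
theorem W15446 : WFK w15446 := fun D T h => wf_of_chk h (mem_cons (W4641 D T h) (mem_cons (W1326 D T h) mem_nil)) mem_nil cw15446
theorem W15447 : WFK w15447 := fun D T h => wf_of_chk h (mem_cons (W86 D T h) (mem_cons (W1326 D T h) mem_nil)) mem_nil cw15447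
theorem L3400 : LFK l3400 := fun D T h => lf_of_chk h (mem_cons (W13834 D T h) (mem_cons (W15441 D T h) (mem_cons (W4038 D T h) (mem_cons (W1353 D T h) (mem_cons (W4531 D T h) (mem_cons (W86 D T h) (mem_cons (W1326 D T h) (mem_cons (W6797 D T h) (mem_cons (W4784 D T h) (mem_cons (W13811 D T h) (mem_cons (W556 D T h) (mem_cons (W4599 D T h) (mem_cons (W220 D T h) (mem_cons (W13774 D T h) (mem_cons (W257 D T h) (mem_cons (W4632 D T h) (mem_cons (W13814 D T h) (mem_cons (W12365 D T h) (mem_cons (W15439 D T h) (mem_cons (W15440 D T h) (mem_cons (W15307 D T h) (mem_cons (W15436 D T h) (mem_cons (W15437 D T h) (mem_cons (W15438 D T h) (mem_cons (W15447 D T h) (mem_cons (W15442 D T h) (mem_cons (W15443 D T h) (mem_cons (W15444 D T h) (mem_cons (W1070 D T h) (mem_cons (W15445 D T h) (mem_cons (W15446 D T h) mem_nil))))))))))))))))))))))))))))))) cl3400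
theorem W15448 : WFK w15448 := fun D T h => wf_of_chk h mem_nil (mem_cons (L3400 D T h) mem_nil) cw15448
theorem W15449 : WFK w15449 := fun D T h => wf_of_chk h (mem_cons (W1412 D T h) (mem_cons (W220 D T h) mem_nil)) mem_nil cw15449
theorem W15450 : WFK w15450 := fun D T h => wf_of_chk h mem_nil (mem_cons (L3367 D T h) mem_nil) cw15450
theorem W15451 : WFK w15451 := fun D T h => wf_of_chk h mem_nil (mem_cons (L3378 D T h) mem_nil) cw15451
theorem W15452 : WFK w15452 := fun D T h => wf_of_chk h (mem_cons (W1709 D T h) (mem_cons (W1326 D T h) mem_nil)) mem_nil cw15452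
theorem W15453 : WFK w15453 := fun D T h => wf_of_chk h (mem_cons (W86 D T h) (mem_cons (W6797 D T h) mem_nil)) mem_nil cw15453
theorem L3401 : LFK l3401 := fun D T h => lf_of_chk h (mem_cons (W13771 D T h) (mem_cons (W4038 D T h) (mem_cons (W15451 D T h) (mem_cons (W4256 D T h) (mem_cons (W4531 D T h) (mem_cons (W86 D T h) (mem_cons (W1326 D T h) (mem_cons (W13811 D T h) (mem_cons (W220 D T h) (mem_cons (W4209 D T h) (mem_cons (W13770 D T h) (mem_cons (W13834 D T h) (mem_cons (W556 D T h) (mem_cons (W4599 D T h) (mem_cons (W13774 D T h) (mem_cons (W4632 D T h) (mem_cons (W257 D T h) (mem_cons (W15299 D T h) (mem_cons (W13814 D T h) (mem_cons (W12365 D T h) (mem_cons (W15307 D T h) (mem_cons (W15308 D T h) (mem_cons (W15277 D T h) (mem_cons (W15449 D T h) (mem_cons (W13792 D T h) (mem_cons (W15450 D T h) (mem_cons (W15453 D T h) (mem_cons (W15301 D T h) (mem_cons (W15452 D T h) (mem_cons (W15303 D T h) mem_nil)))))))))))))))))))))))))))))) cl3401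
theorem W15454 : WFK w15454 := fun D T h => wf_of_chk h mem_nil (mem_cons (L3401 D T h) mem_nil) cw15454
theorem W15455 : WFK w15455 := fun D T h => wf_of_chk h (mem_cons (W368 D T h) (mem_cons (W15345 D T h) mem_nil)) mem_nil cw15455
theorem W15456 : WFK w15456 := fun D T h => wf_of_chk h (mem_cons (W126 D T h) (mem_cons (W15345 D T h) mem_nil)) mem_nil cw15456
theorem L3402 : LFK l3402 := fun D T h => lf_of_chk h (mem_cons (W257 D T h) (mem_cons (W86 D T h) (mem_cons (W91 D T h) (mem_cons (W9486 D T h) (mem_cons (W6204 D T h) (mem_cons (W4548 D T h) (mem_cons (W10099 D T h) (mem_cons (W14986 D T h) (mem_cons (W80 D T h) (mem_cons (W6960 D T h) (mem_cons (W1801 D T h) (mem_cons (W648 D T h) (mem_cons (W14045 D T h) (mem_cons (W10 D T h) (mem_cons (W169 D T h) (mem_cons (W8 D T h) (mem_cons (W345 D T h) (mem_cons (W15363 D T h) mem_nil)))))))))))))))))) cl3402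
theorem W15457 : WFK w15457 := fun D T h => wf_of_chk h mem_nil (mem_cons (L3402 D T h) mem_nil) cw15457
theorem W15458 : WFK w15458 := fun D T h => wf_of_chk h mem_nil (mem_cons (L853 D T h) mem_nil) cw15458
theorem W15459 : WFK w15459 := fun D T h => wf_of_chk h (mem_cons (W161 D T h) mem_nil) mem_nil cw15459
theorem L3403 : LFK l3403 := fun D T h => lf_of_chk h (mem_cons (W4038 D T h) (mem_cons (W15380 D T h) (mem_cons (W5158 D T h) (mem_cons (W1 D T h) (mem_cons (W161 D T h) (mem_cons (W848 D T h) (mem_cons (W15458 D T h) (mem_cons (W1070 D T h) (mem_cons (W8908 D T h) (mem_cons (W4632 D T h) (mem_cons (W14461 D T h) (mem_cons (W1122 D T h) (mem_cons (W15459 D T h) (mem_cons (W15371 D T h) (mem_cons (W3274 D T h) (mem_cons (W15383 D T h) mem_nil)))))))))))))))) cl3403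
theorem W15460 : WFK w15460 := fun D T h => wf_of_chk h mem_nil (mem_cons (L3403 D T h) mem_nil) cw15460
theorem W15461 : WFK w15461 := fun D T h => wf_of_chk h (mem_cons (W15460 D T h) (mem_cons (W220 D T h) mem_nil)) mem_nil cw15461
theorem L3404 : LFK l3404 := fun D T h => lf_of_chk h (mem_cons (W2750 D T h) (mem_cons (W25 D T h) (mem_cons (W193 D T h) (mem_cons (W192 D T h) (mem_cons (W4072 D T h) mem_nil))))) cl3404
theorem W15462 : WFK w15462 := fun D T h => wf_of_chk h mem_nil (mem_cons (L3404 D T h) mem_nil) cw15462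
theorem L3405 : LFK l3405 := fun D T h => lf_of_chk h (mem_cons (W257 D T h) (mem_cons (W86 D T h) (mem_cons (W91 D T h) (mem_cons (W15462 D T h) (mem_cons (W6204 D T h) (mem_cons (W4548 D T h) (mem_cons (W10099 D T h) (mem_cons (W14986 D T h) (mem_cons (W80 D T h) (mem_cons (W6960 D T h) (mem_cons (W1801 D T h) (mem_cons (W648 D T h) (mem_cons (W14045 D T h) (mem_cons (W109 D T h) (mem_cons (W169 D T h) (mem_cons (W8 D T h) (mem_cons (W345 D T h) (mem_cons (W15363 D T h) mem_nil)))))))))))))))))) cl3405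
theorem W15463 : WFK w15463 := fun D T h => wf_of_chk h mem_nil (mem_cons (L3405 D T h) mem_nil) cw15463
theorem W15464 : WFK w15464 := fun D T h => wf_of_chk h (mem_cons (W85 D T h) (mem_cons (W220 D T h) mem_nil)) mem_nil cw15464
theorem W15465 : WFK w15465 := fun D T h => wf_of_chk h (mem_cons (W69 D T h) mem_nil) mem_nil cw15465
theorem W15466 : WFK w15466 := fun D T h => wf_of_chk h mem_nil (mem_cons (L3391 D T h) mem_nil) cw15466
theorem W15467 : WFK w15467 := fun D T h => wf_of_chk h (mem_cons (W871 D T h) (mem_cons (W69 D T h) mem_nil)) mem_nil cw15467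
theorem W15468 : WFK w15468 := fun D T h => wf_of_chk h mem_nil (mem_cons (L1408 D T h) mem_nil) cw15468
theorem W15469 : WFK w15469 := fun D T h => wf_of_chk h (mem_cons (W1128 D T h) (mem_cons (W69 D T h) mem_nil)) mem_nil cw15469
theorem L3406 : LFK l3406 := fun D T h => lf_of_chk h (mem_cons (W15397 D T h) (mem_cons (W11935 D T h) (mem_cons (W281 D T h) (mem_cons (W1326 D T h) (mem_cons (W69 D T h) (mem_cons (W83 D T h) (mem_cons (W1576 D T h) (mem_cons (W4209 D T h) (mem_cons (W101 D T h) (mem_cons (W220 D T h) (mem_cons (W15468 D T h) (mem_cons (W6797 D T h) (mem_cons (W11394 D T h) (mem_cons (W15469 D T h) (mem_cons (W15292 D T h) (mem_cons (W15464 D T h) (mem_cons (W257 D T h) (mem_cons (W15465 D T h) (mem_cons (W15466 D T h) (mem_cons (W12365 D T h) (mem_cons (W15467 D T h) (mem_cons (W7680 D T h) (mem_cons (W91 D T h) (mem_cons (W15361 D T h) (mem_cons (W80 D T h) (mem_cons (W15366 D T h) (mem_cons (W15365 D T h) (mem_cons (W15390 D T h) (mem_cons (W15367 D T h) (mem_cons (W15368 D T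 h) (mem_cons (W13137 D T h) (mem_cons (W14985 D T h) (mem_cons (W111 D T h) (mem_cons (W370 D T h) (mem_cons (W15406 D T h) (mem_cons (W15457 D T h) (mem_cons (W15463 D T h) mem_nil))))))))))))))))))))))))))))))))))))) cl3406
theorem W15470 : WFK w15470 := fun D T h => wf_of_chk h mem_nil (mem_cons (L3406 D T h) mem_nil) cw15470
theorem L3407 : LFK l3407 := fun D T h => lf_of_chk h (mem_cons (W4038 D T h) (mem_cons (W4209 D T h) (mem_cons (W11935 D T h) (mem_cons (W1 D T h) (mem_cons (W795 D T h) (mem_cons (W6095 D T h) (mem_cons (W5158 D T h) (mem_cons (W15457 D T h) (mem_cons (W15433 D T h) (mem_cons (W15414 D T h) (mem_cons (W3274 D T h) (mem_cons (W3276 D T h) (mem_cons (W15461 D T h) (mem_cons (W4766 D T h) (mem_cons (W15470 D T h) (mem_cons (W1070 D T h) mem_nil)))))))))))))))) cl3407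
theorem W15471 : WFK w15471 := fun D T h => wf_of_chk h mem_nil (mem_cons (L3407 D T h) mem_nil) cw15471
theorem L3408 : LFK l3408 := fun D T h => lf_of_chk h (mem_cons (W14733 D T h) (mem_cons (W4209 D T h) (mem_cons (W15262 D T h) (mem_cons (W220 D T h) (mem_cons (W1326 D T h) (mem_cons (W15263 D T h) (mem_cons (W6797 D T h) (mem_cons (W2914 D T h) (mem_cons (W34 D T h) (mem_cons (W11935 D T h) (mem_cons (W15343 D T h) (mem_cons (W15345 D T h) (mem_cons (W15398 D T h) (mem_cons (W15399 D T h) (mem_cons (W15448 D T h) (mem_cons (W15454 D T h) (mem_cons (W15455 D T h) (mem_cons (W15456 D T h) (mem_cons (W15471 D T h) (mem_cons (W15400 D T h) (mem_cons (W111 D T h) (mem_cons (W15401 D T h) (mem_cons (W4038 D T h) (mem_cons (W15402 D T h) (mem_cons (W15403 D T h) (mem_cons (W15435 D T h) (mem_cons (W14519 D T h) (mem_cons (W15346 D T h) (mem_cons (W15350 D T h) (mem_cons (W15352 D T h) (mem_cons (W15354 D T h) (mem_cons (W15303 D T h) (mem_cons (W15355 D T h) (mem_cons (W15395 D T h) (mem_cons (W15264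 D T h) (mem_cons (W257 D T h) (mem_cons (W15273 D T h) (mem_cons (W15275 D T h) (mem_cons (W12365 D T h) (mem_cons (W15276 D T h) (mem_cons (W15277 D T h) (mem_cons (W15319 D T h) mem_nil)))))))))))))))))))))))))))))))))))))))))) cl3408
theorem W15472 : WFK w15472 := fun D T h => wf_of_chk h mem_nil (mem_cons (L3408 D T h) mem_nil) cw15472
theorem W15473 : WFK w15473 := fun D T h => wf_of_chk h (mem_cons (W13104 D T h) (mem_cons (W34 D T h) mem_nil)) mem_nil cw15473
theorem L3409 : LFK l3409 := fun D T h => lf_of_chk h (mem_cons (W13130 D T h) (mem_cons (W13516 D T h) (mem_cons (W13608 D T h) (mem_cons (W13082 D T h) (mem_cons (W710 D T h) (mem_cons (W34 D T h) (mem_cons (W3898 D T h) (mem_cons (W14019 D T h) (mem_cons (W3618 D T h) (mem_cons (W3619 D T h) (mem_cons (W3854 D T h) (mem_cons (W8783 D T h) (mem_cons (W3747 D T h) (mem_cons (W3408 D T h) (mem_cons (W13104 D T h) (mem_cons (W8449 D T h) (mem_cons (W13607 D T h) (mem_cons (W13103 D T h) (mem_cons (W7461 D T h) (mem_cons (W15473 D T h)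 (mem_cons (W13111 D T h) (mem_cons (W14732 D T h) (mem_cons (W9771 D T h) (mem_cons (W14733 D T h) (mem_cons (W12329 D T h) (mem_cons (W13112 D T h) (mem_cons (W14734 D T h) (mem_cons (W13114 D T h) (mem_cons (W14918 D T h) (mem_cons (W14919 D T h) (mem_cons (W15472 D T h) (mem_cons (W14243 D T h) (mem_cons (W14244 D T h) (mem_cons (W14268 D T h) (mem_cons (W14324 D T h) (mem_cons (W14325 D T h) (mem_cons (W14326 D T h) (mem_cons (W7177 D T h) (mem_cons (W14118 D T h) (mem_cons (W14158 D T h) (mem_cons (W14174 D T h) (mem_cons (W14175 D T h) (mem_cons (W14176 D T h) (mem_cons (W14177 D T h) (mem_cons (W14220 D T h) (mem_cons (W13915 D T h) (mem_cons (W111 D T h) (mem_cons (W13916 D T h) (mem_cons (W3628 D T h) (mem_cons (W13917 D T h) (mem_cons (W13918 D T h) (mem_cons (W14018 D T h) (mem_cons (W13768 D T h) (mem_cons (W13901 D T h) (mem_cons (W13902 D T h) (mem_cons (W13903 D T h) (mem_cons (W4209 D T h) (mem_cons (W13914 D T h) mem_nil))))))))))))))))))))))))))))))))))))))))))))))))))))))))))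 cl3409
theorem W15474 : WFK w15474 := fun D T h => wf_of_chk h mem_nil (mem_cons (L3409 D T h) mem_nil) cw15474
theorem W15475 : WFK w15475 := fun D T h => wf_of_chk h (mem_cons (W3898 D T h) mem_nil) mem_nil cw15475
theorem W15476 : WFK w15476 := fun D T h => wf_of_chk h (mem_cons (W3305 D T h) (mem_cons (W3898 D T h) mem_nil)) mem_nil cw15476
theorem W15477 : WFK w15477 := fun D T h => wf_of_chk h mem_nil (mem_cons (L2609 D T h) mem_nil) cw15477
theorem W15478 : WFK w15478 := fun D T h => wf_of_chk h mem_nil (mem_cons (L1937 D T h) mem_nil) cw15478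
theorem W15479 : WFK w15479 := fun D T h => wf_of_chk h mem_nil (mem_cons (L2609 D T h) mem_nil) cw15479
theorem W15480 : WFK w15480 := fun D T h => wf_of_chk h (mem_cons (W7311 D T h) (mem_cons (W37 D T h) mem_nil)) mem_nil cw15480
theorem W15481 : WFK w15481 := fun D T h => wf_of_chk h (mem_cons (W11772 D T h) (mem_cons (W37 D T h) mem_nil)) mem_nil cw15481
theorem W15482 : WFK w15482 := fun D T h => wf_of_chk h (mem_cons (W12872 D T h) (mem_cons (W37 D T h) mem_nil)) mem_nil cw15482
theorem W15483 : WFK w15483 := fun D T h => wf_of_chk h (mem_cons (W1291 D T h) (mem_cons (W3898 D T h) mem_nil)) mem_nil cw15483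
theorem L3410 : LFK l3410 := fun D T h => lf_of_chk h (mem_cons (W12964 D T h) (mem_cons (W37 D T h) (mem_cons (W933 D T h) (mem_cons (W2062 D T h) (mem_cons (W2709 D T h) (mem_cons (W15477 D T h) (mem_cons (W13466 D T h) (mem_cons (W12841 D T h) (mem_cons (W3953 D T h) (mem_cons (W13100 D T h) (mem_cons (W9771 D T h) (mem_cons (W15478 D T h) (mem_cons (W12329 D T h) (mem_cons (W15479 D T h) (mem_cons (W15480 D T h) (mem_cons (W15481 D T h) (mem_cons (W15482 D T h) (mem_cons (W13091 D T h) (mem_cons (W8155 D T h) (mem_cons (W13092 D T h) (mem_cons (W13093 D T h) (mem_cons (W13094 D T h) (mem_cons (W13097 D T h) (mem_cons (W13098 D T h) (mem_cons (W13099 D T h) (mem_cons (W13082 D T h) (mem_cons (W13083 D T h) (mem_cons (W13101 D T h) (mem_cons (W13102 D T h) (mem_cons (W1291 D T h) (mem_cons (W15483 D T h) (mem_cons (W2888 D T h) (mem_cons (W15474 D T h) (mem_cons (W6758 D T h) (mem_cons (W3896 D T h) (mem_cons (W15475 D T h) (mem_cons (W15476 D T h) (mem_cons (W13084 D T h) (mem_cons (W13085 D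 T h) (mem_cons (W13086 D T h) (mem_cons (W10973 D T h) (mem_cons (W13087 D T h) (mem_cons (W13088 D T h) (mem_cons (W13089 D T h) (mem_cons (W13090 D T h) mem_nil))))))))))))))))))))))))))))))))))))))))))))) cl3410
theorem W15485 : WFK w15485 := fun D T h => wf_of_chk h mem_nil (mem_cons (L3410 D T h) mem_nil) cw15485
theorem W15486 : WFK w15486 := fun D T h => wf_of_chk h mem_nil (mem_cons (L2966 D T h) mem_nil) cw15486
theorem W15487 : WFK w15487 := fun D T h => wf_of_chk h mem_nil (mem_cons (L982 D T h) mem_nil) cw15487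
theorem W15488 : WFK w15488 := fun D T h => wf_of_chk h mem_nil (mem_cons (L1111 D T h) mem_nil) cw15488
theorem W15489 : WFK w15489 := fun D T h => wf_of_chk h (mem_cons (W6714 D T h) (mem_cons (W161 D T h) mem_nil)) mem_nil cw15489
theorem W15490 : WFK w15490 := fun D T h => wf_of_chk h (mem_cons (W162 D T h) (mem_cons (W161 D T h) mem_nil)) mem_nil cw15490
theorem W15491 : WFK w15491 := fun D T h => wf_of_chk h mem_nil (mem_cons (L117 D T h) mem_nil) cw15491
theorem W15492 : WFK w15492 := fun D T h => wf_of_chk h mem_nil (mem_cons (L481 D T h) mem_nil) cw15492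
theorem L3411 : LFK l3411 := fun D T h => lf_of_chk h (mem_cons (W10661 D T h) (mem_cons (W141 D T h) (mem_cons (W10662 D T h) (mem_cons (W161 D T h) (mem_cons (W3 D T h) (mem_cons (W86 D T h) (mem_cons (W2726 D T h) (mem_cons (W12342 D T h) (mem_cons (W1560 D T h) (mem_cons (W750 D T h) (mem_cons (W3230 D T h) (mem_cons (W5615 D T h) (mem_cons (W10663 D T h) (mem_cons (W11338 D T h) (mem_cons (W5488 D T h) (mem_cons (W1272 D T h) (mem_cons (W13056 D T h) (mem_cons (W5464 D T h) mem_nil)))))))))))))))))) cl3411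
theorem W15493 : WFK w15493 := fun D T h => wf_of_chk h mem_nil (mem_cons (L3411 D T h) mem_nil) cw15493
theorem L3412 : LFK l3412 := fun D T h => lf_of_chk h (mem_cons (W10661 D T h) (mem_cons (W141 D T h) (mem_cons (W10662 D T h) (mem_cons (W161 D T h) (mem_cons (W3 D T h) (mem_cons (W3797 D T h) (mem_cons (W2726 D T h) (mem_cons (W12342 D T h) (mem_cons (W743 D T h) (mem_cons (W652 D T h) (mem_cons (W6783 D T h) (mem_cons (W5355 D T h) (mem_cons (W10663 D T h) (mem_cons (W6780 D T h) (mem_cons (W5489 D T h) (mem_cons (W258 D T h) (mem_cons (W13056 D T h) (mem_cons (W6781 D T h) mem_nil)))))))))))))))))) cl3412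
theorem W15494 : WFK w15494 := fun D T h => wf_of_chk h mem_nil (mem_cons (L3412 D T h) mem_nil) cw15494
theorem W15495 : WFK w15495 := fun D T h => wf_of_chk h (mem_cons (W12514 D T h) (mem_cons (W161 D T h) mem_nil)) mem_nil cw15495
theorem W15496 : WFK w15496 := fun D T h => wf_of_chk h mem_nil (mem_cons (L3226 D T h) mem_nil) cw15496
theorem W15497 : WFK w15497 := fun D T h => wf_of_chk h (mem_cons (W112 D T h) (mem_cons (W161 D T h) mem_nil)) mem_nil cw15497
theorem W15498 : WFK w15498 := fun D T h => wf_of_chk h (mem_cons (W112 D T h) (mem_cons (W161 D T h) mem_nil)) mem_nil cw15498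
theorem W15499 : WFK w15499 := fun D T h => wf_of_chk h (mem_cons (W1189 D T h) (mem_cons (W161 D T h) mem_nil)) mem_nil cw15499
theorem W15500 : WFK w15500 := fun D T h => wf_of_chk h mem_nil (mem_cons (L1546 D T h) mem_nil) cw15500
theorem W15501 : WFK w15501 := fun D T h => wf_of_chk h (mem_cons (W433 D T h) (mem_cons (W161 D T h) mem_nil)) mem_nil cw15501
theorem W15502 : WFK w15502 := fun D T h => wf_of_chk h mem_nil (mem_cons (L1579 D T h) mem_nil) cw15502
theorem W15503 : WFK w15503 := fun D T h => wf_of_chk h (mem_cons (W461 D T h) (mem_cons (W161 D T h) mem_nil)) mem_nil cw15503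
theorem W15504 : WFK w15504 := fun D T h => wf_of_chk h (mem_cons (W39 D T h) (mem_cons (W161 D T h) mem_nil)) mem_nil cw15504
theorem W15505 : WFK w15505 := fun D T h => wf_of_chk h (mem_cons (W155 D T h) (mem_cons (W161 D T h) mem_nil)) mem_nil cw15505
theorem W15506 : WFK w15506 := fun D T h => wf_of_chk h (mem_cons (W401 D T h) (mem_cons (W161 D T h) mem_nil)) mem_nil cw15506
theorem W15507 : WFK w15507 := fun D T h => wf_of_chk h (mem_cons (W1929 D T h) (mem_cons (W161 D T h) mem_nil)) mem_nil cw15507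
theorem W15508 : WFK w15508 := fun D T h => wf_of_chk h (mem_cons (W1075 D T h) (mem_cons (W6714 D T h) mem_nil)) mem_nil cw15508
theorem W15509 : WFK w15509 := fun D T h => wf_of_chk h (mem_cons (W817 D T h) (mem_cons (W6714 D T h) mem_nil)) mem_nil cw15509
theorem W15510 : WFK w15510 := fun D T h => wf_of_chk h (mem_cons (W22 D T h) (mem_cons (W6714 D T h) mem_nil)) mem_nil cw15510
theorem W15511 : WFK w15511 := fun D T h => wf_of_chk h (mem_cons (W1120 D T h) (mem_cons (W6714 D T h) mem_nil)) mem_nil cw15511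
theorem L3413 : LFK l3413 := fun D T h => lf_of_chk h (mem_cons (W15489 D T h) (mem_cons (W6861 D T h) (mem_cons (W15490 D T h) (mem_cons (W162 D T h) (mem_cons (W161 D T h) (mem_cons (W1449 D T h) (mem_cons (W15502 D T h) (mem_cons (W1311 D T h) (mem_cons (W15508 D T h) (mem_cons (W15509 D T h) (mem_cons (W932 D T h) (mem_cons (W4924 D T h) (mem_cons (W34 D T h) (mem_cons (W1919 D T h) (mem_cons (W921 D T h) (mem_cons (W5602 D T h) (mem_cons (W15510 D T h) (mem_cons (W1409 D T h) (mem_cons (W15511 D T h) (mem_cons (W4771 D T h) (mem_cons (W15496 D T h) (mem_cons (W5841 D T h) (mem_cons (W15503 D T h) (mem_cons (W15504 D T h) (mem_cons (W15505 D T h) (mem_cons (W15506 D T h) (mem_cons (W15507 D T h) (mem_cons (W13890 D T h) (mem_cons (W15497 D T h) (mem_cons (W15498 D T h) (mem_cons (W6798 D T h) (mem_cons (W15499 D T h) (mem_cons (W15500 D T h) (mem_cons (W12906 D T h) (mem_cons (W15501 D T h) (mem_cons (W15491 D T h) (mem_cons (W15492 D T h) (mem_cons (W2405 D T h) (mem_cons (W15493 D T h) (mem_cons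 (W15494 D T h) (mem_cons (W12634 D T h) (mem_cons (W15495 D T h) mem_nil)))))))))))))))))))))))))))))))))))))))))) cl3413
theorem W15512 : WFK w15512 := fun D T h => wf_of_chk h mem_nil (mem_cons (L3413 D T h) mem_nil) cw15512
theorem W15513 : WFK w15513 := fun D T h => wf_of_chk h (mem_cons (W6714 D T h) (mem_cons (W281 D T h) mem_nil)) mem_nil cw15513
theorem W15514 : WFK w15514 := fun D T h => wf_of_chk h (mem_cons (W162 D T h) (mem_cons (W281 D T h) mem_nil)) mem_nil cw15514
theorem L3414 : LFK l3414 := fun D T h => lf_of_chk h (mem_cons (W10661 D T h) (mem_cons (W141 D T h) (mem_cons (W10662 D T h) (mem_cons (W281 D T h) (mem_cons (W3 D T h) (mem_cons (W86 D T h) (mem_cons (W750 D T h) (mem_cons (W12342 D T h) (mem_cons (W1560 D T h) (mem_cons (W3230 D T h) (mem_cons (W5615 D T h) (mem_cons (W10663 D T h) (mem_cons (W11338 D T h) (mem_cons (W5488 D T h) (mem_cons (W1272 D T h) (mem_cons (W13056 D T h) (mem_cons (W5464 D T h) mem_nil))))))))))))))))) cl3414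
theorem W15515 : WFK w15515 := fun D T h => wf_of_chk h mem_nil (mem_cons (L3414 D T h) mem_nil) cw15515
theorem L3415 : LFK l3415 := fun D T h => lf_of_chk h (mem_cons (W10661 D T h) (mem_cons (W141 D T h) (mem_cons (W10662 D T h) (mem_cons (W281 D T h) (mem_cons (W3 D T h) (mem_cons (W3797 D T h) (mem_cons (W652 D T h) (mem_cons (W12342 D T h) (mem_cons (W743 D T h) (mem_cons (W6783 D T h) (mem_cons (W5355 D T h) (mem_cons (W10663 D T h) (mem_cons (W6780 D T h) (mem_cons (W5489 D T h) (mem_cons (W258 D T h) (mem_cons (W13056 D T h) (mem_cons (W6781 D T h) mem_nil))))))))))))))))) cl3415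
theorem W15516 : WFK w15516 := fun D T h => wf_of_chk h mem_nil (mem_cons (L3415 D T h) mem_nil) cw15516
theorem W15517 : WFK w15517 := fun D T h => wf_of_chk h (mem_cons (W12514 D T h) (mem_cons (W281 D T h) mem_nil)) mem_nil cw15517
theorem W15518 : WFK w15518 := fun D T h => wf_of_chk h (mem_cons (W112 D T h) (mem_cons (W281 D T h) mem_nil)) mem_nil cw15518
theorem W15519 : WFK w15519 := fun D T h => wf_of_chk h (mem_cons (W112 D T h) (mem_cons (W281 D T h) mem_nil)) mem_nil cw15519
theorem W15520 : WFK w15520 := fun D T h => wf_of_chk h (mem_cons (W1189 D T h) (mem_cons (W281 D T h) mem_nil)) mem_nil cw15520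
theorem W15521 : WFK w15521 := fun D T h => wf_of_chk h (mem_cons (W6797 D T h) (mem_cons (W281 D T h) mem_nil)) mem_nil cw15521
theorem W15522 : WFK w15522 := fun D T h => wf_of_chk h (mem_cons (W461 D T h) (mem_cons (W281 D T h) mem_nil)) mem_nil cw15522
theorem W15523 : WFK w15523 := fun D T h => wf_of_chk h (mem_cons (W39 D T h) (mem_cons (W281 D T h) mem_nil)) mem_nil cw15523
theorem W15524 : WFK w15524 := fun D T h => wf_of_chk h (mem_cons (W155 D T h) (mem_cons (W281 D T h) mem_nil)) mem_nil cw15524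
theorem W15525 : WFK w15525 := fun D T h => wf_of_chk h (mem_cons (W401 D T h) (mem_cons (W281 D T h) mem_nil)) mem_nil cw15525
theorem W15526 : WFK w15526 := fun D T h => wf_of_chk h (mem_cons (W1929 D T h) (mem_cons (W281 D T h) mem_nil)) mem_nil cw15526
theorem W15527 : WFK w15527 := fun D T h => wf_of_chk h (mem_cons (W158 D T h) (mem_cons (W6714 D T h) mem_nil)) mem_nil cw15527
theorem W15528 : WFK w15528 := fun D T h => wf_of_chk h (mem_cons (W91 D T h) (mem_cons (W6714 D T h) mem_nil)) mem_nil cw15528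
theorem W15529 : WFK w15529 := fun D T h => wf_of_chk h (mem_cons (W1 D T h) (mem_cons (W6714 D T h) mem_nil)) mem_nil cw15529
theorem W15530 : WFK w15530 := fun D T h => wf_of_chk h (mem_cons (W10 D T h) (mem_cons (W6714 D T h) mem_nil)) mem_nil cw15530
theorem L3416 : LFK l3416 := fun D T h => lf_of_chk h (mem_cons (W15513 D T h) (mem_cons (W2797 D T h) (mem_cons (W15514 D T h) (mem_cons (W162 D T h) (mem_cons (W281 D T h) (mem_cons (W1449 D T h) (mem_cons (W2532 D T h) (mem_cons (W181 D T h) (mem_cons (W15527 D T h) (mem_cons (W15528 D T h) (mem_cons (W230 D T h) (mem_cons (W15529 D T h) (mem_cons (W4924 D T h) (mem_cons (W34 D T h) (mem_cons (W1919 D T h) (mem_cons (W15530 D T h) (mem_cons (W461 D T h) (mem_cons (W4844 D T h) (mem_cons (W15496 D T h) (mem_cons (W10661 D T h) (mem_cons (W15522 D T h) (mem_cons (W15523 D T h) (mem_cons (W15524 D T h) (mem_cons (W15525 D T h) (mem_cons (W15526 D T h) (mem_cons (W13890 D T h) (mem_cons (W15518 D T h) (mem_cons (W15519 D T h) (mem_cons (W6798 D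 T h) (mem_cons (W15520 D T h) (mem_cons (W15500 D T h) (mem_cons (W12906 D T h) (mem_cons (W15521 D T h) (mem_cons (W15491 D T h) (mem_cons (W15492 D T h) (mem_cons (W2405 D T h) (mem_cons (W15515 D T h) (mem_cons (W15516 D T h) (mem_cons (W12634 D T h) (mem_cons (W15517 D T h) mem_nil)))))))))))))))))))))))))))))))))))))))) cl3416
theorem W15531 : WFK w15531 := fun D T h => wf_of_chk h mem_nil (mem_cons (L3416 D T h) mem_nil) cw15531
theorem L3417 : LFK l3417 := fun D T h => lf_of_chk h (mem_cons (W5721 D T h) (mem_cons (W2405 D T h) (mem_cons (W7401 D T h) (mem_cons (W181 D T h) (mem_cons (W15488 D T h) (mem_cons (W8424 D T h) (mem_cons (W7719 D T h) (mem_cons (W1211 D T h) (mem_cons (W1 D T h) (mem_cons (W535 D T h) (mem_cons (W7076 D T h) (mem_cons (W5157 D T h) (mem_cons (W4038 D T h) (mem_cons (W8755 D T h) (mem_cons (W15487 D T h) (mem_cons (W34 D T h) (mem_cons (W1919 D T h) (mem_cons (W15512 D T h) (mem_cons (W1690 D T h) (mem_cons (W6740 D T h) (mem_cons (W15531 D T h) mem_nil)))))))))))))))))))))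 cl3417
theorem W15532 : WFK w15532 := fun D T h => wf_of_chk h mem_nil (mem_cons (L3417 D T h) mem_nil) cw15532
theorem W15533 : WFK w15533 := fun D T h => wf_of_chk h (mem_cons (W267 D T h) (mem_cons (W164 D T h) mem_nil)) mem_nil cw15533
theorem W15534 : WFK w15534 := fun D T h => wf_of_chk h (mem_cons (W56 D T h) (mem_cons (W164 D T h) mem_nil)) mem_nil cw15534
theorem W15535 : WFK w15535 := fun D T h => wf_of_chk h (mem_cons (W42 D T h) (mem_cons (W164 D T h) mem_nil)) mem_nil cw15535
theorem W15536 : WFK w15536 := fun D T h => wf_of_chk h mem_nil (mem_cons (L3079 D T h) mem_nil) cw15536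
theorem W15537 : WFK w15537 := fun D T h => wf_of_chk h (mem_cons (W1325 D T h) (mem_cons (W164 D T h) mem_nil)) mem_nil cw15537
theorem W15538 : WFK w15538 := fun D T h => wf_of_chk h (mem_cons (W39 D T h) (mem_cons (W164 D T h) mem_nil)) mem_nil cw15538
theorem W15539 : WFK w15539 := fun D T h => wf_of_chk h (mem_cons (W461 D T h) (mem_cons (W164 D T h) mem_nil)) mem_nil cw15539
theorem L3418 : LFK l3418 := fun D T h => lf_of_chk h (mem_cons (W37 D T h) (mem_cons (W7431 D T h) (mem_cons (W7432 D T h) (mem_cons (W1063 D T h) (mem_cons (W42 D T h) (mem_cons (W162 D T h) (mem_cons (W3304 D T h) (mem_cons (W15147 D T h) (mem_cons (W3305 D T h) (mem_cons (W15536 D T h) (mem_cons (W16 D T h) (mem_cons (W1408 D T h) (mem_cons (W15538 D T h) (mem_cons (W15539 D T h) (mem_cons (W15535 D T h) (mem_cons (W11754 D T h) (mem_cons (W15537 D T h) (mem_cons (W11995 D T h) (mem_cons (W177 D T h) (mem_cons (W15533 D T h) (mem_cons (W50 D T h) (mem_cons (W15534 D T h) mem_nil)))))))))))))))))))))) cl3418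
theorem W15540 : WFK w15540 := fun D T h => wf_of_chk h mem_nil (mem_cons (L3418 D T h) mem_nil) cw15540
theorem W15541 : WFK w15541 := fun D T h => wf_of_chk h (mem_cons (W267 D T h) (mem_cons (W162 D T h) mem_nil)) mem_nil cw15541
theorem W15542 : WFK w15542 := fun D T h => wf_of_chk h (mem_cons (W56 D T h) (mem_cons (W162 D T h) mem_nil)) mem_nil cw15542
theorem W15543 : WFK w15543 := fun D T h => wf_of_chk h (mem_cons (W42 D T h) (mem_cons (W162 D T h) mem_nil)) mem_nil cw15543
theorem W15544 : WFK w15544 := fun D T h => wf_of_chk h (mem_cons (W1325 D T h) (mem_cons (W164 D T h) mem_nil)) mem_nil cw15544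
theorem W15545 : WFK w15545 := fun D T h => wf_of_chk h (mem_cons (W39 D T h) (mem_cons (W162 D T h) mem_nil)) mem_nil cw15545
theorem W15546 : WFK w15546 := fun D T h => wf_of_chk h (mem_cons (W461 D T h) (mem_cons (W162 D T h) mem_nil)) mem_nil cw15546
theorem W15547 : WFK w15547 := fun D T h => wf_of_chk h (mem_cons (W39 D T h) (mem_cons (W162 D T h) mem_nil)) mem_nil cw15547
theorem L3419 : LFK l3419 := fun D T h => lf_of_chk h (mem_cons (W37 D T h) (mem_cons (W8111 D T h) (mem_cons (W7106 D T h) (mem_cons (W3974 D T h) (mem_cons (W1063 D T h) (mem_cons (W42 D T h) (mem_cons (W164 D T h) (mem_cons (W3304 D T h) (mem_cons (W15147 D T h) (mem_cons (W3305 D T h) (mem_cons (W14154 D T h) (mem_cons (W16 D T h) (mem_cons (W1408 D T h) (mem_cons (W15545 D T h) (mem_cons (W15546 D T h) (mem_cons (W15547 D T h) (mem_cons (W15543 D T h) (mem_cons (W13553 D T h) (mem_cons (W15544 D T h) (mem_cons (W11995 D T h) (mem_cons (W177 D T h) (mem_cons (W15541 D T h) (mem_cons (W50 D T h) (mem_cons (W15542 D T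 h) mem_nil)))))))))))))))))))))))) cl3419
theorem W15548 : WFK w15548 := fun D T h => wf_of_chk h mem_nil (mem_cons (L3419 D T h) mem_nil) cw15548
theorem L3420 : LFK l3420 := fun D T h => lf_of_chk h (mem_cons (W37 D T h) (mem_cons (W1502 D T h) (mem_cons (W2963 D T h) (mem_cons (W1063 D T h) (mem_cons (W42 D T h) (mem_cons (W16 D T h) (mem_cons (W3304 D T h) (mem_cons (W15147 D T h) (mem_cons (W3305 D T h) (mem_cons (W1309 D T h) (mem_cons (W1408 D T h) (mem_cons (W12922 D T h) (mem_cons (W12923 D T h) (mem_cons (W7996 D T h) (mem_cons (W1291 D T h) (mem_cons (W12820 D T h) (mem_cons (W12924 D T h) (mem_cons (W12926 D T h) (mem_cons (W177 D T h) (mem_cons (W12918 D T h) mem_nil)))))))))))))))))))) cl3420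
theorem W15549 : WFK w15549 := fun D T h => wf_of_chk h mem_nil (mem_cons (L3420 D T h) mem_nil) cw15549
theorem W15550 : WFK w15550 := fun D T h => wf_of_chk h (mem_cons (W162 D T h) (mem_cons (W16 D T h) mem_nil)) mem_nil cw15550
theorem W15551 : WFK w15551 := fun D T h => wf_of_chk h mem_nil (mem_cons (L3419 D T h) mem_nil) cw15551
theorem W15552 : WFK w15552 := fun D T h => wf_of_chk h (mem_cons (W114 D T h) (mem_cons (W16 D T h) mem_nil)) mem_nil cw15552
theorem W15553 : WFK w15553 := fun D T h => wf_of_chk h mem_nil (mem_cons (L1835 D T h) mem_nil) cw15553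
theorem W15554 : WFK w15554 := fun D T h => wf_of_chk h (mem_cons (W6714 D T h) (mem_cons (W16 D T h) mem_nil)) mem_nil cw15554
theorem W15555 : WFK w15555 := fun D T h => wf_of_chk h mem_nil (mem_cons (L2844 D T h) mem_nil) cw15555
theorem W15556 : WFK w15556 := fun D T h => wf_of_chk h (mem_cons (W162 D T h) (mem_cons (W16 D T h) mem_nil)) mem_nil cw15556
theorem W15557 : WFK w15557 := fun D T h => wf_of_chk h (mem_cons (W267 D T h) (mem_cons (W16 D T h) mem_nil)) mem_nil cw15557
theorem W15558 : WFK w15558 := fun D T h => wf_of_chk h (mem_cons (W721 D T h) (mem_cons (W16 D T h) mem_nil)) mem_nil cw15558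
theorem W15559 : WFK w15559 := fun D T h => wf_of_chk h (mem_cons (W42 D T h) (mem_cons (W16 D T h) mem_nil)) mem_nil cw15559
theorem W15560 : WFK w15560 := fun D T h => wf_of_chk h (mem_cons (W111 D T h) (mem_cons (W16 D T h) mem_nil)) mem_nil cw15560
theorem L3421 : LFK l3421 := fun D T h => lf_of_chk h (mem_cons (W3763 D T h) (mem_cons (W200 D T h) (mem_cons (W1448 D T h) (mem_cons (W42 D T h) (mem_cons (W281 D T h) (mem_cons (W391 D T h) (mem_cons (W2304 D T h) (mem_cons (W2118 D T h) (mem_cons (W3 D T h) (mem_cons (W3856 D T h) (mem_cons (W2766 D T h) (mem_cons (W10234 D T h) (mem_cons (W11 D T h) (mem_cons (W12919 D T h) mem_nil)))))))))))))) cl3421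
theorem W15561 : WFK w15561 := fun D T h => wf_of_chk h mem_nil (mem_cons (L3421 D T h) mem_nil) cw15561
theorem W15562 : WFK w15562 := fun D T h => wf_of_chk h (mem_cons (W39 D T h) (mem_cons (W16 D T h) mem_nil)) mem_nil cw15562
theorem W15563 : WFK w15563 := fun D T h => wf_of_chk h (mem_cons (W1919 D T h) (mem_cons (W16 D T h) mem_nil)) mem_nil cw15563
theorem W15564 : WFK w15564 := fun D T h => wf_of_chk h (mem_cons (W716 D T h) (mem_cons (W16 D T h) mem_nil)) mem_nil cw15564
theorem L3422 : LFK l3422 := fun D T h => lf_of_chk h (mem_cons (W1291 D T h) (mem_cons (W1310 D T h) (mem_cons (W15556 D T h) (mem_cons (W7114 D T h) (mem_cons (W42 D T h) (mem_cons (W16 D T h) (mem_cons (W3304 D T h) (mem_cons (W13466 D T h) (mem_cons (W15561 D T h) (mem_cons (W1309 D T h) (mem_cons (W1408 D T h) (mem_cons (W15562 D T h) (mem_cons (W12550 D T h) (mem_cons (W15559 D T h) (mem_cons (W15563 D T h) (mem_cons (W15564 D T h) (mem_cons (W6585 D T h) (mem_cons (W15560 D T h) (mem_cons (W12924 D T h) (mem_cons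 (W12877 D T h) (mem_cons (W12926 D T h) (mem_cons (W12927 D T h) (mem_cons (W5177 D T h) (mem_cons (W15557 D T h) (mem_cons (W50 D T h) (mem_cons (W15558 D T h) mem_nil)))))))))))))))))))))))))) cl3422
theorem W15565 : WFK w15565 := fun D T h => wf_of_chk h mem_nil (mem_cons (L3422 D T h) mem_nil) cw15565
theorem W15566 : WFK w15566 := fun D T h => wf_of_chk h (mem_cons (W6613 D T h) (mem_cons (W16 D T h) mem_nil)) mem_nil cw15566
theorem L3423 : LFK l3423 := fun D T h => lf_of_chk h (mem_cons (W15559 D T h) (mem_cons (W1502 D T h) (mem_cons (W2963 D T h) (mem_cons (W3227 D T h) (mem_cons (W42 D T h) (mem_cons (W16 D T h) (mem_cons (W3304 D T h) (mem_cons (W15147 D T h) (mem_cons (W37 D T h) (mem_cons (W3305 D T h) (mem_cons (W1309 D T h) (mem_cons (W1408 D T h) (mem_cons (W15562 D T h) (mem_cons (W12550 D T h) (mem_cons (W15563 D T h) (mem_cons (W6585 D T h) (mem_cons (W12820 D T h) (mem_cons (W12924 D T h) (mem_cons (W12926 D T h) (mem_cons (W177 D T h) (mem_cons (W12918 D T h) mem_nil)))))))))))))))))))))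 cl3423
theorem W15567 : WFK w15567 := fun D T h => wf_of_chk h mem_nil (mem_cons (L3423 D T h) mem_nil) cw15567
theorem W15568 : WFK w15568 := fun D T h => wf_of_chk h (mem_cons (W162 D T h) mem_nil) mem_nil cw15568
theorem W15569 : WFK w15569 := fun D T h => wf_of_chk h (mem_cons (W16 D T h) (mem_cons (W15568 D T h) mem_nil)) mem_nil cw15569
theorem W15570 : WFK w15570 := fun D T h => wf_of_chk h (mem_cons (W6714 D T h) mem_nil) mem_nil cw15570
theorem W15571 : WFK w15571 := fun D T h => wf_of_chk h (mem_cons (W6714 D T h) mem_nil) mem_nil cw15571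
theorem W15572 : WFK w15572 := fun D T h => wf_of_chk h (mem_cons (W721 D T h) mem_nil) mem_nil cw15572
theorem W15573 : WFK w15573 := fun D T h => wf_of_chk h mem_nil (mem_cons (L653 D T h) mem_nil) cw15573
theorem W15574 : WFK w15574 := fun D T h => wf_of_chk h (mem_cons (W971 D T h) mem_nil) mem_nil cw15574
theorem W15575 : WFK w15575 := fun D T h => wf_of_chk h (mem_cons (W69 D T h) (mem_cons (W659 D T h) mem_nil)) mem_nil cw15575
theorem W15576 : WFK w15576 := fun D T h => wf_of_chk h mem_nil (mem_cons (L1892 D T h) mem_nil) cw15576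
theorem L3424 : LFK l3424 := fun D T h => lf_of_chk h (mem_cons (W6776 D T h) (mem_cons (W6749 D T h) (mem_cons (W258 D T h) (mem_cons (W1986 D T h) (mem_cons (W1945 D T h) (mem_cons (W1326 D T h) (mem_cons (W17 D T h) (mem_cons (W659 D T h) (mem_cons (W15574 D T h) (mem_cons (W149 D T h) (mem_cons (W1554 D T h) (mem_cons (W5578 D T h) (mem_cons (W1555 D T h) (mem_cons (W8398 D T h) (mem_cons (W721 D T h) (mem_cons (W220 D T h) (mem_cons (W1325 D T h) (mem_cons (W15575 D T h) (mem_cons (W6969 D T h) (mem_cons (W15576 D T h) (mem_cons (W6486 D T h) (mem_cons (W9412 D T h) (mem_cons (W15573 D T h) (mem_cons (W6967 D T h) (mem_cons (W9334 D T h) mem_nil))))))))))))))))))))))))) cl3424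
theorem W15577 : WFK w15577 := fun D T h => wf_of_chk h mem_nil (mem_cons (L3424 D T h) mem_nil) cw15577
theorem W15578 : WFK w15578 := fun D T h => wf_of_chk h (mem_cons (W103 D T h) mem_nil) mem_nil cw15578
theorem L3425 : LFK l3425 := fun D T h => lf_of_chk h (mem_cons (W12217 D T h) (mem_cons (W7401 D T h) (mem_cons (W432 D T h) (mem_cons (W13033 D T h) (mem_cons (W2347 D T h) (mem_cons (W220 D T h) (mem_cons (W2930 D T h) (mem_cons (W11550 D T h) (mem_cons (W6977 D T h) (mem_cons (W5177 D T h) (mem_cons (W8325 D T h) (mem_cons (W3878 D T h) (mem_cons (W11986 D T h) (mem_cons (W11643 D T h) (mem_cons (W8400 D T h) (mem_cons (W15578 D T h) (mem_cons (W10999 D T h) (mem_cons (W2405 D T h) mem_nil)))))))))))))))))) cl3425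
theorem W15579 : WFK w15579 := fun D T h => wf_of_chk h mem_nil (mem_cons (L3425 D T h) mem_nil) cw15579
theorem W15580 : WFK w15580 := fun D T h => wf_of_chk h mem_nil (mem_cons (L3425 D T h) mem_nil) cw15580
theorem W15581 : WFK w15581 := fun D T h => wf_of_chk h mem_nil (mem_cons (L3425 D T h) mem_nil) cw15581
theorem W15582 : WFK w15582 := fun D T h => wf_of_chk h mem_nil (mem_cons (L3424 D T h) mem_nil) cw15582
theorem W15583 : WFK w15583 := fun D T h => wf_of_chk h (mem_cons (W2726 D T h) mem_nil) mem_nil cw15583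
theorem W15584 : WFK w15584 := fun D T h => wf_of_chk h (mem_cons (W2037 D T h) (mem_cons (W16 D T h) mem_nil)) mem_nil cw15584
theorem W15585 : WFK w15585 := fun D T h => wf_of_chk h (mem_cons (W15583 D T h) (mem_cons (W16 D T h) mem_nil)) mem_nil cw15585
theorem W15586 : WFK w15586 := fun D T h => wf_of_chk h (mem_cons (W7246 D T h) (mem_cons (W16 D T h) mem_nil)) mem_nil cw15586
theorem W15587 : WFK w15587 := fun D T h => wf_of_chk h (mem_cons (W9688 D T h) (mem_cons (W16 D T h) mem_nil)) mem_nil cw15587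
theorem W15588 : WFK w15588 := fun D T h => wf_of_chk h (mem_cons (W15568 D T h) mem_nil) mem_nil cw15588
theorem W15589 : WFK w15589 := fun D T h => wf_of_chk h (mem_cons (W5177 D T h) mem_nil) mem_nil cw15589
theorem L3426 : LFK l3426 := fun D T h => lf_of_chk h (mem_cons (W86 D T h) (mem_cons (W281 D T h) (mem_cons (W69 D T h) (mem_cons (W3 D T h) (mem_cons (W1304 D T h) (mem_cons (W396 D T h) (mem_cons (W359 D T h) (mem_cons (W3781 D T h) mem_nil)))))))) cl3426
theorem W15590 : WFK w15590 := fun D T h => wf_of_chk h mem_nil (mem_cons (L3426 D T h) mem_nil) cw15590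
theorem W15591 : WFK w15591 := fun D T h => wf_of_chk h (mem_cons (W15590 D T h) mem_nil) mem_nil cw15591
theorem W15592 : WFK w15592 := fun D T h => wf_of_chk h (mem_cons (W162 D T h) (mem_cons (W69 D T h) mem_nil)) mem_nil cw15592
theorem W15593 : WFK w15593 := fun D T h => wf_of_chk h (mem_cons (W659 D T h) (mem_cons (W69 D T h) mem_nil)) mem_nil cw15593
theorem L3427 : LFK l3427 := fun D T h => lf_of_chk h (mem_cons (W5258 D T h) (mem_cons (W4256 D T h) (mem_cons (W15592 D T h) (mem_cons (W4209 D T h) (mem_cons (W1184 D T h) (mem_cons (W4531 D T h) (mem_cons (W5177 D T h) (mem_cons (W1 D T h) (mem_cons (W69 D T h) (mem_cons (W15570 D T h) (mem_cons (W15588 D T h) (mem_cons (W126 D T h) (mem_cons (W6891 D T h) (mem_cons (W267 D T h) (mem_cons (W8559 D T h) (mem_cons (W721 D T h) (mem_cons (W114 D T h) (mem_cons (W15591 D T h) (mem_cons (W15589 D T h) (mem_cons (W10427 D T h) (mem_cons (W15593 D T h) mem_nil))))))))))))))))))))) cl3427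
theorem W15594 : WFK w15594 := fun D T h => wf_of_chk h mem_nil (mem_cons (L3427 D T h) mem_nil) cw15594
theorem W15595 : WFK w15595 := fun D T h => wf_of_chk h (mem_cons (W162 D T h) (mem_cons (W449 D T h) mem_nil)) mem_nil cw15595
theorem W15596 : WFK w15596 := fun D T h => wf_of_chk h (mem_cons (W259 D T h) (mem_cons (W16 D T h) mem_nil)) mem_nil cw15596
theorem W15597 : WFK w15597 := fun D T h => wf_of_chk h (mem_cons (W7469 D T h) mem_nil) mem_nil cw15597
theorem W15598 : WFK w15598 := fun D T h => wf_of_chk h (mem_cons (W7469 D T h) mem_nil) mem_nil cw15598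
theorem W15599 : WFK w15599 := fun D T h => wf_of_chk h (mem_cons (W1339 D T h) (mem_cons (W16 D T h) mem_nil)) mem_nil cw15599
theorem L3428 : LFK l3428 := fun D T h => lf_of_chk h (mem_cons (W15569 D T h) (mem_cons (W13607 D T h) (mem_cons (W2037 D T h) (mem_cons (W7469 D T h) (mem_cons (W8257 D T h) (mem_cons (W2934 D T h) (mem_cons (W5177 D T h) (mem_cons (W15570 D T h) (mem_cons (W7996 D T h) (mem_cons (W15571 D T h) (mem_cons (W15587 D T h) (mem_cons (W15599 D T h) (mem_cons (W3285 D T h) (mem_cons (W12417 D T h) (mem_cons (W16 D T h) (mem_cons (W15594 D T h) (mem_cons (W15595 D T h) (mem_cons (W284 D T h) (mem_cons (W15572 D T h) (mem_cons (W12217 D T h) (mem_cons (W15577 D T h) (mem_cons (W15579 D T h) (mem_cons (W15580 D T h) (mem_cons (W15581 D T h) (mem_cons (W15582 D T h) (mem_cons (W434 D T h) (mem_cons (W15583 D T h) (mem_cons (W15584 D T h) (mem_cons (W15585 D T h) (mem_cons (W11040 D T h) (mem_cons (W15586 D T h) (mem_cons (W15596 D T h) (mem_cons (W15597 D T h) (mem_cons (W15598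 D T h) mem_nil)))))))))))))))))))))))))))))))))) cl3428
theorem W15600 : WFK w15600 := fun D T h => wf_of_chk h mem_nil (mem_cons (L3428 D T h) mem_nil) cw15600
theorem L3429 : LFK l3429 := fun D T h => lf_of_chk h (mem_cons (W3953 D T h) mem_nil) cl3429
theorem W15601 : WFK w15601 := fun D T h => wf_of_chk h mem_nil (mem_cons (L3429 D T h) mem_nil) cw15601
theorem W15602 : WFK w15602 := fun D T h => wf_of_chk h mem_nil (mem_cons (L364 D T h) mem_nil) cw15602
theorem W15603 : WFK w15603 := fun D T h => wf_of_chk h (mem_cons (W12631 D T h) mem_nil) mem_nil cw15603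
theorem W15604 : WFK w15604 := fun D T h => wf_of_chk h (mem_cons (W220 D T h) (mem_cons (W15174 D T h) mem_nil)) mem_nil cw15604
theorem L3430 : LFK l3430 := fun D T h => lf_of_chk h (mem_cons (W8210 D T h) (mem_cons (W20 D T h) (mem_cons (W3 D T h) (mem_cons (W750 D T h) (mem_cons (W581 D T h) (mem_cons (W265 D T h) (mem_cons (W865 D T h) (mem_cons (W15 D T h) (mem_cons (W381 D T h) (mem_cons (W3019 D T h) mem_nil)))))))))) cl3430
theorem W15605 : WFK w15605 := fun D T h => wf_of_chk h mem_nil (mem_cons (L3430 D T h) mem_nil) cw15605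
theorem W15606 : WFK w15606 := fun D T h => wf_of_chk h (mem_cons (W220 D T h) (mem_cons (W15174 D T h) mem_nil)) mem_nil cw15606
theorem L3431 : LFK l3431 := fun D T h => lf_of_chk h (mem_cons (W1529 D T h) (mem_cons (W44 D T h) (mem_cons (W8 D T h) (mem_cons (W918 D T h) (mem_cons (W11 D T h) (mem_cons (W10099 D T h) (mem_cons (W7402 D T h) (mem_cons (W12128 D T h) mem_nil)))))))) cl3431
theorem W15607 : WFK w15607 := fun D T h => wf_of_chk h mem_nil (mem_cons (L3431 D T h) mem_nil) cw15607
theorem W15608 : WFK w15608 := fun D T h => wf_of_chk h mem_nil (mem_cons (L296 D T h) mem_nil) cw15608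
theorem W15609 : WFK w15609 := fun D T h => wf_of_chk h (mem_cons (W15608 D T h) (mem_cons (W16 D T h) mem_nil)) mem_nil cw15609
theorem W15610 : WFK w15610 := fun D T h => wf_of_chk h mem_nil (mem_cons (L2316 D T h) mem_nil) cw15610
theorem W15611 : WFK w15611 := fun D T h => wf_of_chk h (mem_cons (W2078 D T h) (mem_cons (W16 D T h) mem_nil)) mem_nil cw15611
theorem W15612 : WFK w15612 := fun D T h => wf_of_chk h (mem_cons (W15174 D T h) (mem_cons (W16 D T h) mem_nil)) mem_nil cw15612
theorem L3432 : LFK l3432 := fun D T h => lf_of_chk h (mem_cons (W265 D T h) (mem_cons (W38 D T h) (mem_cons (W10076 D T h) (mem_cons (W20 D T h) (mem_cons (W3 D T h) (mem_cons (W39 D T h) (mem_cons (W865 D T h) (mem_cons (W281 D T h) (mem_cons (W6 D T h) (mem_cons (W4071 D T h) (mem_cons (W3245 D T h) (mem_cons (W381 D T h) (mem_cons (W870 D T h) (mem_cons (W888 D T h) mem_nil)))))))))))))) cl3432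
theorem W15613 : WFK w15613 := fun D T h => wf_of_chk h mem_nil (mem_cons (L3432 D T h) mem_nil) cw15613
theorem W15614 : WFK w15614 := fun D T h => wf_of_chk h mem_nil (mem_cons (L2916 D T h) mem_nil) cw15614
theorem W15615 : WFK w15615 := fun D T h => wf_of_chk h mem_nil (mem_cons (L385 D T h) mem_nil) cw15615
theorem W15616 : WFK w15616 := fun D T h => wf_of_chk h mem_nil (mem_cons (L364 D T h) mem_nil) cw15616
theorem L3433 : LFK l3433 := fun D T h => lf_of_chk h (mem_cons (W15602 D T h) (mem_cons (W15491 D T h) (mem_cons (W15612 D T h) (mem_cons (W6613 D T h) (mem_cons (W10076 D T h) (mem_cons (W11023 D T h) (mem_cons (W391 D T h) (mem_cons (W2116 D T h) (mem_cons (W1448 D T h) (mem_cons (W12320 D T h) (mem_cons (W12554 D T h) (mem_cons (W15615 D T h) (mem_cons (W15616 D T h) (mem_cons (W16 D T h) (mem_cons (W815 D T h) (mem_cons (W3590 D T h) (mem_cons (W15613 D T h) (mem_cons (W10822 D T h) (mem_cons (W15614 D T h) (mem_cons (W284 D T h) (mem_cons (W5469 D T h) (mem_cons (W15603 D T h) (mem_cons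 (W13422 D T h) (mem_cons (W15604 D T h) (mem_cons (W15605 D T h) (mem_cons (W15606 D T h) (mem_cons (W12157 D T h) (mem_cons (W8609 D T h) (mem_cons (W4040 D T h) (mem_cons (W6828 D T h) (mem_cons (W15607 D T h) (mem_cons (W15609 D T h) (mem_cons (W15610 D T h) (mem_cons (W15611 D T h) mem_nil)))))))))))))))))))))))))))))))))) cl3433
theorem W15617 : WFK w15617 := fun D T h => wf_of_chk h mem_nil (mem_cons (L3433 D T h) mem_nil) cw15617
theorem W15618 : WFK w15618 := fun D T h => wf_of_chk h (mem_cons (W267 D T h) mem_nil) mem_nil cw15618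
theorem W15619 : WFK w15619 := fun D T h => wf_of_chk h (mem_cons (W56 D T h) mem_nil) mem_nil cw15619
theorem W15620 : WFK w15620 := fun D T h => wf_of_chk h (mem_cons (W42 D T h) mem_nil) mem_nil cw15620
theorem W15621 : WFK w15621 := fun D T h => wf_of_chk h (mem_cons (W368 D T h) mem_nil) mem_nil cw15621
theorem W15622 : WFK w15622 := fun D T h => wf_of_chk h (mem_cons (W1325 D T h) mem_nil) mem_nil cw15622
theorem W15623 : WFK w15623 := fun D T h => wf_of_chk h mem_nil (mem_cons (L2359 D T h) mem_nil) cw15623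
theorem W15624 : WFK w15624 := fun D T h => wf_of_chk h mem_nil (mem_cons (L1170 D T h) mem_nil) cw15624
theorem W15625 : WFK w15625 := fun D T h => wf_of_chk h (mem_cons (W461 D T h) mem_nil) mem_nil cw15625
theorem L3434 : LFK l3434 := fun D T h => lf_of_chk h (mem_cons (W7084 D T h) (mem_cons (W3424 D T h) (mem_cons (W1063 D T h) (mem_cons (W354 D T h) (mem_cons (W3766 D T h) (mem_cons (W200 D T h) (mem_cons (W15618 D T h) (mem_cons (W11055 D T h) (mem_cons (W15619 D T h) (mem_cons (W13423 D T h) (mem_cons (W15620 D T h) (mem_cons (W852 D T h) (mem_cons (W1181 D T h) (mem_cons (W39 D T h) (mem_cons (W3406 D T h) (mem_cons (W15625 D T h) (mem_cons (W860 D T h) (mem_cons (W141 D T h) (mem_cons (W15621 D T h) (mem_cons (W10099 D T h) (mem_cons (W15622 D T h) (mem_cons (W12881 D T h) (mem_cons (W15623 D T h) (mem_cons (W15624 D T h) mem_nil)))))))))))))))))))))))) cl3434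
theorem W15626 : WFK w15626 := fun D T h => wf_of_chk h mem_nil (mem_cons (L3434 D T h) mem_nil) cw15626
theorem W15627 : WFK w15627 := fun D T h => wf_of_chk h mem_nil (mem_cons (L2190 D T h) mem_nil) cw15627
theorem W15628 : WFK w15628 := fun D T h => wf_of_chk h mem_nil (mem_cons (L2761 D T h) mem_nil) cw15628
theorem W15629 : WFK w15629 := fun D T h => wf_of_chk h (mem_cons (W267 D T h) mem_nil) mem_nil cw15629
theorem W15630 : WFK w15630 := fun D T h => wf_of_chk h (mem_cons (W56 D T h) mem_nil) mem_nil cw15630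
theorem W15631 : WFK w15631 := fun D T h => wf_of_chk h (mem_cons (W368 D T h) mem_nil) mem_nil cw15631
theorem W15632 : WFK w15632 := fun D T h => wf_of_chk h (mem_cons (W39 D T h) mem_nil) mem_nil cw15632
theorem L3435 : LFK l3435 := fun D T h => lf_of_chk h (mem_cons (W2825 D T h) (mem_cons (W7084 D T h) (mem_cons (W1063 D T h) (mem_cons (W42 D T h) (mem_cons (W259 D T h) (mem_cons (W2783 D T h) (mem_cons (W2031 D T h) (mem_cons (W724 D T h) (mem_cons (W15629 D T h) (mem_cons (W1331 D T h) (mem_cons (W15630 D T h) (mem_cons (W4296 D T h) (mem_cons (W1448 D T h) (mem_cons (W15632 D T h) (mem_cons (W1008 D T h) (mem_cons (W5157 D T h) (mem_cons (W1554 D T h) (mem_cons (W15631 D T h) (mem_cons (W11220 D T h) (mem_cons (W7559 D T h) (mem_cons (W11997 D T h) (mem_cons (W3304 D T h) mem_nil)))))))))))))))))))))) cl3435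
theorem W15633 : WFK w15633 := fun D T h => wf_of_chk h mem_nil (mem_cons (L3435 D T h) mem_nil) cw15633
theorem L3436 : LFK l3436 := fun D T h => lf_of_chk h (mem_cons (W1412 D T h) (mem_cons (W368 D T h) (mem_cons (W112 D T h) (mem_cons (W833 D T h) (mem_cons (W8839 D T h) (mem_cons (W10619 D T h) (mem_cons (W651 D T h) (mem_cons (W1181 D T h) mem_nil)))))))) cl3436
theorem W15634 : WFK w15634 := fun D T h => wf_of_chk h mem_nil (mem_cons (L3436 D T h) mem_nil) cw15634
theorem W15635 : WFK w15635 := fun D T h => wf_of_chk h (mem_cons (W1889 D T h) mem_nil) mem_nil cw15635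
theorem W15636 : WFK w15636 := fun D T h => wf_of_chk h mem_nil (mem_cons (L1181 D T h) mem_nil) cw15636
theorem W15637 : WFK w15637 := fun D T h => wf_of_chk h mem_nil (mem_cons (L1551 D T h) mem_nil) cw15637
theorem W15638 : WFK w15638 := fun D T h => wf_of_chk h mem_nil (mem_cons (L84 D T h) mem_nil) cw15638
theorem W15639 : WFK w15639 := fun D T h => wf_of_chk h mem_nil (mem_cons (L1633 D T h) mem_nil) cw15639
theorem W15640 : WFK w15640 := fun D T h => wf_of_chk h mem_nil (mem_cons (L385 D T h) mem_nil) cw15640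
theorem W15641 : WFK w15641 := fun D T h => wf_of_chk h mem_nil (mem_cons (L888 D T h) mem_nil) cw15641
theorem L3437 : LFK l3437 := fun D T h => lf_of_chk h (mem_cons (W12662 D T h) (mem_cons (W3953 D T h) (mem_cons (W368 D T h) (mem_cons (W126 D T h) (mem_cons (W267 D T h) (mem_cons (W4399 D T h) (mem_cons (W5187 D T h) (mem_cons (W15639 D T h) (mem_cons (W3304 D T h) (mem_cons (W2826 D T h) (mem_cons (W15629 D T h) (mem_cons (W15640 D T h) (mem_cons (W721 D T h) (mem_cons (W8350 D T h) (mem_cons (W968 D T h) (mem_cons (W11568 D T h) (mem_cons (W5765 D T h) (mem_cons (W15641 D T h) (mem_cons (W8210 D T h) (mem_cons (W262 D T h) (mem_cons (W15634 D T h) (mem_cons (W8396 D T h) (mem_cons (W15635 D T h) (mem_cons (W15636 D T h) (mem_cons (W7557 D T h) (mem_cons (W15637 D T h) (mem_cons (W12409 D T h) (mem_cons (W15617 D T h) (mem_cons (W15626 D T h) (mem_cons (W15627 D T h) (mem_cons (W15628 D T h) (mem_cons (W3950 D T h) (mem_cons (W15633 D T h) (mem_cons (W15638 D T h) (mem_cons (W281 D T h) (mem_cons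 (W69 D T h) mem_nil)))))))))))))))))))))))))))))))))))) cl3437
theorem W15642 : WFK w15642 := fun D T h => wf_of_chk h mem_nil (mem_cons (L3437 D T h) mem_nil) cw15642
theorem L3438 : LFK l3438 := fun D T h => lf_of_chk h (mem_cons (W14958 D T h) (mem_cons (W815 D T h) (mem_cons (W762 D T h) (mem_cons (W3774 D T h) (mem_cons (W951 D T h) (mem_cons (W200 D T h) (mem_cons (W740 D T h) (mem_cons (W3 D T h) (mem_cons (W1267 D T h) (mem_cons (W11389 D T h) (mem_cons (W11 D T h) (mem_cons (W2140 D T h) mem_nil)))))))))))) cl3438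
theorem W15643 : WFK w15643 := fun D T h => wf_of_chk h mem_nil (mem_cons (L3438 D T h) mem_nil) cw15643
theorem W15644 : WFK w15644 := fun D T h => wf_of_chk h (mem_cons (W12631 D T h) mem_nil) mem_nil cw15644
theorem L3439 : LFK l3439 := fun D T h => lf_of_chk h (mem_cons (W8210 D T h) (mem_cons (W22 D T h) (mem_cons (W3 D T h) (mem_cons (W750 D T h) (mem_cons (W581 D T h) (mem_cons (W331 D T h) (mem_cons (W1086 D T h) (mem_cons (W15 D T h) (mem_cons (W381 D T h) (mem_cons (W3019 D T h) mem_nil)))))))))) cl3439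
theorem W15645 : WFK w15645 := fun D T h => wf_of_chk h mem_nil (mem_cons (L3439 D T h) mem_nil) cw15645
theorem W15646 : WFK w15646 := fun D T h => wf_of_chk h mem_nil (mem_cons (L1932 D T h) mem_nil) cw15646
theorem L3440 : LFK l3440 := fun D T h => lf_of_chk h (mem_cons (W1529 D T h) (mem_cons (W44 D T h) (mem_cons (W7 D T h) (mem_cons (W918 D T h) (mem_cons (W6960 D T h) (mem_cons (W10099 D T h) (mem_cons (W11 D T h) (mem_cons (W12128 D T h) mem_nil)))))))) cl3440
theorem W15647 : WFK w15647 := fun D T h => wf_of_chk h mem_nil (mem_cons (L3440 D T h) mem_nil) cw15647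
theorem W15648 : WFK w15648 := fun D T h => wf_of_chk h mem_nil (mem_cons (L241 D T h) mem_nil) cw15648
theorem W15649 : WFK w15649 := fun D T h => wf_of_chk h (mem_cons (W15648 D T h) (mem_cons (W16 D T h) mem_nil)) mem_nil cw15649
theorem W15650 : WFK w15650 := fun D T h => wf_of_chk h mem_nil (mem_cons (L2365 D T h) mem_nil) cw15650
theorem L3441 : LFK l3441 := fun D T h => lf_of_chk h (mem_cons (W331 D T h) (mem_cons (W38 D T h) (mem_cons (W10076 D T h) (mem_cons (W22 D T h) (mem_cons (W3 D T h) (mem_cons (W39 D T h) (mem_cons (W1086 D T h) (mem_cons (W281 D T h) (mem_cons (W7 D T h) (mem_cons (W5638 D T h) (mem_cons (W3245 D T h) (mem_cons (W381 D T h) (mem_cons (W870 D T h) (mem_cons (W888 D T h) mem_nil)))))))))))))) cl3441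
theorem W15651 : WFK w15651 := fun D T h => wf_of_chk h mem_nil (mem_cons (L3441 D T h) mem_nil) cw15651
theorem L3442 : LFK l3442 := fun D T h => lf_of_chk h (mem_cons (W15612 D T h) (mem_cons (W15491 D T h) (mem_cons (W6613 D T h) (mem_cons (W10076 D T h) (mem_cons (W4586 D T h) (mem_cons (W391 D T h) (mem_cons (W2116 D T h) (mem_cons (W1448 D T h) (mem_cons (W15616 D T h) (mem_cons (W15602 D T h) (mem_cons (W12554 D T h) (mem_cons (W15615 D T h) (mem_cons (W16 D T h) (mem_cons (W815 D T h) (mem_cons (W15643 D T h) (mem_cons (W15651 D T h) (mem_cons (W2934 D T h) (mem_cons (W15614 D T h) (mem_cons (W284 D T h) (mem_cons (W5469 D T h) (mem_cons (W15644 D T h) (mem_cons (W13422 D T h) (mem_cons (W15604 D T h) (mem_cons (W15645 D T h) (mem_cons (W15606 D T h) (mem_cons (W12147 D T h) (mem_cons (W6719 D T h) (mem_cons (W15646 D T h) (mem_cons (W6828 D T h) (mem_cons (W15647 D T h) (mem_cons (W15649 D T h) (mem_cons (W15650 D T h) (mem_cons (W15611 D T h) mem_nil))))))))))))))))))))))))))))))))) cl3442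
theorem W15652 : WFK w15652 := fun D T h => wf_of_chk h mem_nil (mem_cons (L3442 D T h) mem_nil) cw15652
theorem W15653 : WFK w15653 := fun D T h => wf_of_chk h mem_nil (mem_cons (L435 D T h) mem_nil) cw15653
theorem W15654 : WFK w15654 := fun D T h => wf_of_chk h (mem_cons (W56 D T h) mem_nil) mem_nil cw15654
theorem W15655 : WFK w15655 := fun D T h => wf_of_chk h mem_nil (mem_cons (L437 D T h) mem_nil) cw15655
theorem W15656 : WFK w15656 := fun D T h => wf_of_chk h (mem_cons (W368 D T h) mem_nil) mem_nil cw15656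
theorem W15657 : WFK w15657 := fun D T h => wf_of_chk h (mem_cons (W1325 D T h) mem_nil) mem_nil cw15657
theorem W15658 : WFK w15658 := fun D T h => wf_of_chk h mem_nil (mem_cons (L2338 D T h) mem_nil) cw15658
theorem W15659 : WFK w15659 := fun D T h => wf_of_chk h (mem_cons (W461 D T h) mem_nil) mem_nil cw15659
theorem L3443 : LFK l3443 := fun D T h => lf_of_chk h (mem_cons (W7084 D T h) (mem_cons (W3424 D T h) (mem_cons (W1063 D T h) (mem_cons (W1051 D T h) (mem_cons (W391 D T h) (mem_cons (W200 D T h) (mem_cons (W15653 D T h) (mem_cons (W2539 D T h) (mem_cons (W15654 D T h) (mem_cons (W2628 D T h) (mem_cons (W15655 D T h) (mem_cons (W852 D T h) (mem_cons (W1919 D T h) (mem_cons (W39 D T h) (mem_cons (W3406 D T h) (mem_cons (W15659 D T h) (mem_cons (W860 D T h) (mem_cons (W141 D T h) (mem_cons (W15656 D T h) (mem_cons (W10099 D T h) (mem_cons (W15657 D T h) (mem_cons (W12882 D T h) (mem_cons (W15658 D T h) (mem_cons (W15624 D T h) mem_nil)))))))))))))))))))))))) cl3443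
theorem W15660 : WFK w15660 := fun D T h => wf_of_chk h mem_nil (mem_cons (L3443 D T h) mem_nil) cw15660
theorem W15661 : WFK w15661 := fun D T h => wf_of_chk h mem_nil (mem_cons (L511 D T h) mem_nil) cw15661
theorem W15662 : WFK w15662 := fun D T h => wf_of_chk h mem_nil (mem_cons (L296 D T h) mem_nil) cw15662
theorem L3444 : LFK l3444 := fun D T h => lf_of_chk h (mem_cons (W748 D T h) (mem_cons (W267 D T h) (mem_cons (W220 D T h) (mem_cons (W105 D T h) (mem_cons (W13 D T h) (mem_cons (W648 D T h) (mem_cons (W6774 D T h) (mem_cons (W15662 D T h) (mem_cons (W3778 D T h) (mem_cons (W4407 D T h) (mem_cons (W174 D T h) (mem_cons (W1051 D T h) (mem_cons (W6204 D T h) (mem_cons (W10099 D T h) (mem_cons (W8609 D T h) (mem_cons (W3776 D T h) mem_nil)))))))))))))))) cl3444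
theorem W15663 : WFK w15663 := fun D T h => wf_of_chk h mem_nil (mem_cons (L3444 D T h) mem_nil) cw15663
theorem L3445 : LFK l3445 := fun D T h => lf_of_chk h (mem_cons (W1412 D T h) (mem_cons (W126 D T h) (mem_cons (W112 D T h) (mem_cons (W7 D T h) (mem_cons (W10393 D T h) (mem_cons (W9643 D T h) (mem_cons (W4192 D T h) (mem_cons (W6029 D T h) (mem_cons (W1844 D T h) (mem_cons (W1304 D T h) (mem_cons (W1181 D T h) mem_nil))))))))))) cl3445
theorem W15664 : WFK w15664 := fun D T h => wf_of_chk h mem_nil (mem_cons (L3445 D T h) mem_nil) cw15664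
theorem W15665 : WFK w15665 := fun D T h => wf_of_chk h mem_nil (mem_cons (L1181 D T h) mem_nil) cw15665
theorem W15666 : WFK w15666 := fun D T h => wf_of_chk h mem_nil (mem_cons (L298 D T h) mem_nil) cw15666
theorem W15667 : WFK w15667 := fun D T h => wf_of_chk h mem_nil (mem_cons (L3340 D T h) mem_nil) cw15667
theorem W15668 : WFK w15668 := fun D T h => wf_of_chk h mem_nil (mem_cons (L2828 D T h) mem_nil) cw15668
theorem W15669 : WFK w15669 := fun D T h => wf_of_chk h mem_nil (mem_cons (L984 D T h) mem_nil) cw15669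
theorem W15670 : WFK w15670 := fun D T h => wf_of_chk h mem_nil (mem_cons (L2431 D T h) mem_nil) cw15670
theorem L3446 : LFK l3446 := fun D T h => lf_of_chk h (mem_cons (W12661 D T h) (mem_cons (W3953 D T h) (mem_cons (W126 D T h) (mem_cons (W368 D T h) (mem_cons (W721 D T h) (mem_cons (W4399 D T h) (mem_cons (W5187 D T h) (mem_cons (W15639 D T h) (mem_cons (W3304 D T h) (mem_cons (W2826 D T h) (mem_cons (W15629 D T h) (mem_cons (W15666 D T h) (mem_cons (W267 D T h) (mem_cons (W11569 D T h) (mem_cons (W968 D T h) (mem_cons (W11568 D T h) (mem_cons (W15667 D T h) (mem_cons (W15598 D T h) (mem_cons (W15668 D T h) (mem_cons (W15669 D T h) (mem_cons (W15670 D T h) (mem_cons (W8210 D T h) (mem_cons (W11657 D T h) (mem_cons (W15664 D T h) (mem_cons (W8396 D T h) (mem_cons (W15635 D T h) (mem_cons (W15636 D T h) (mem_cons (W7557 D T h) (mem_cons (W15665 D T h) (mem_cons (W12372 D T h) (mem_cons (W15652 D T h) (mem_cons (W15660 D T h) (mem_cons (W15661 D T h) (mem_cons (W15663 D T h) (mem_cons (W15633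 D T h) (mem_cons (W15638 D T h) (mem_cons (W281 D T h) (mem_cons (W69 D T h) mem_nil)))))))))))))))))))))))))))))))))))))) cl3446
theorem W15671 : WFK w15671 := fun D T h => wf_of_chk h mem_nil (mem_cons (L3446 D T h) mem_nil) cw15671
theorem W15672 : WFK w15672 := fun D T h => wf_of_chk h (mem_cons (W267 D T h) (mem_cons (W669 D T h) mem_nil)) mem_nil cw15672

end Pool.Agent.W319.GCI.K5
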