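import Pool.Agent.W319.GCI.K5A11
set_option autoImplicit false
set_option maxRecDepth 100000
set_option linter.all false
namespace Pool.Agent.W319.GCI.K5
open Pool.Agent.W319.GCI

theorem W15673 : WFK w15673 := fun D T h => wf_of_chk h (mem_cons (W56 D T h) (mem_cons (W669 D T h) mem_nil)) mem_nil cw15673
theorem W15674 : WFK w15674 := fun D T h => wf_of_chk h (mem_cons (W42 D T h) (mem_cons (W669 D T h) mem_nil)) mem_nil cw15674
theorem W15675 : WFK w15675 := fun D T h => wf_of_chk h mem_nil (mem_cons (L781 D T h) mem_nil) cw15675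
theorem W15676 : WFK w15676 := fun D T h => wf_of_chk h (mem_cons (W368 D T h) (mem_cons (W669 D T h) mem_nil)) mem_nil cw15676
theorem W15677 : WFK w15677 := fun D T h => wf_of_chk h (mem_cons (W1325 D T h) (mem_cons (W669 D T h) mem_nil)) mem_nil cw15677
theorem W15678 : WFK w15678 := fun D T h => wf_of_chk h (mem_cons (W39 D T h) (mem_cons (W669 D T h) mem_nil)) mem_nil cw15678
theorem L3447 : LFK l3447 := fun D T h => lf_of_chk h (mem_cons (W37 D T h) (mem_cons (W11995 D T h) (mem_cons (W15147 D T h) (mem_cons (W1063 D T h) (mem_cons (W42 D T h) (mem_cons (W667 D T h) (mem_cons (W1502 D T h) (mem_cons (W7014 D T h) (mem_cons (W177 D T h) (mem_cons (W15672 D T h) (mem_cons (W50 D T h) (mem_cons (W15673 D T h) (mem_cons (W15674 D T h) (mem_cons (W15675 D T h) (mem_cons (W16 D T h) (mem_cons (W1408 D T h) (mem_cons (W15678 D T h) (mem_cons (W12550 D T h) (mem_cons (W15676 D T h) (mem_cons (W15677 D T h) (mem_cons (W3305 D T h) mem_nil))))))))))))))))))))) cl3447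
theorem W15679 : WFK w15679 := fun D T h => wf_of_chk h mem_nil (mem_cons (L3447 D T h) mem_nil) cw15679
theorem W15680 : WFK w15680 := fun D T h => wf_of_chk h mem_nil (mem_cons (L2408 D T h) mem_nil) cw15680
theorem W15681 : WFK w15681 := fun D T h => wf_of_chk h (mem_cons (W267 D T h) (mem_cons (W667 D T h) mem_nil)) mem_nil cw15681
theorem W15682 : WFK w15682 := fun D T h => wf_of_chk h (mem_cons (W56 D T h) (mem_cons (W667 D T h) mem_nil)) mem_nil cw15682
theorem W15683 : WFK w15683 := fun D T h => wf_of_chk h (mem_cons (W42 D T h) (mem_cons (W667 D T h) mem_nil)) mem_nil cw15683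
theorem W15684 : WFK w15684 := fun D T h => wf_of_chk h mem_nil (mem_cons (L781 D T h) mem_nil) cw15684
theorem W15685 : WFK w15685 := fun D T h => wf_of_chk h (mem_cons (W368 D T h) (mem_cons (W667 D T h) mem_nil)) mem_nil cw15685
theorem W15686 : WFK w15686 := fun D T h => wf_of_chk h (mem_cons (W1325 D T h) (mem_cons (W667 D T h) mem_nil)) mem_nil cw15686
theorem W15687 : WFK w15687 := fun D T h => wf_of_chk h (mem_cons (W39 D T h) (mem_cons (W667 D T h) mem_nil)) mem_nil cw15687
theorem L3448 : LFK l3448 := fun D T h => lf_of_chk h (mem_cons (W37 D T h) (mem_cons (W11995 D T h) (mem_cons (W177 D T h) (mem_cons (W15147 D T h) (mem_cons (W1063 D T h) (mem_cons (W42 D T h) (mem_cons (W669 D T h) (mem_cons (W1502 D T h) (mem_cons (W15680 D T h) (mem_cons (W7100 D T h) (mem_cons (W15681 D T h) (mem_cons (W50 D T h) (mem_cons (W15682 D T h) (mem_cons (W15683 D T h) (mem_cons (W15684 D T h) (mem_cons (W16 D T h) (mem_cons (W1408 D T h) (mem_cons (W15687 D T h) (mem_cons (W12550 D T h) (mem_cons (W15685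 D T h) (mem_cons (W15686 D T h) (mem_cons (W3305 D T h) mem_nil)))))))))))))))))))))) cl3448
theorem W15688 : WFK w15688 := fun D T h => wf_of_chk h mem_nil (mem_cons (L3448 D T h) mem_nil) cw15688
theorem L3449 : LFK l3449 := fun D T h => lf_of_chk h (mem_cons (W37 D T h) (mem_cons (W3304 D T h) (mem_cons (W15147 D T h) (mem_cons (W1063 D T h) (mem_cons (W42 D T h) (mem_cons (W16 D T h) (mem_cons (W1502 D T h) (mem_cons (W2963 D T h) (mem_cons (W177 D T h) (mem_cons (W12918 D T h) (mem_cons (W5078 D T h) (mem_cons (W1408 D T h) (mem_cons (W15562 D T h) (mem_cons (W15563 D T h) (mem_cons (W15559 D T h) (mem_cons (W12820 D T h) (mem_cons (W12924 D T h) (mem_cons (W12926 D T h) (mem_cons (W3305 D T h) mem_nil))))))))))))))))))) cl3449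
theorem W15689 : WFK w15689 := fun D T h => wf_of_chk h mem_nil (mem_cons (L3449 D T h) mem_nil) cw15689
theorem L3450 : LFK l3450 := fun D T h => lf_of_chk h (mem_cons (W8385 D T h) (mem_cons (W12963 D T h) (mem_cons (W15485 D T h) (mem_cons (W1211 D T h) (mem_cons (W12203 D T h) (mem_cons (W16 D T h) (mem_cons (W1310 D T h) (mem_cons (W12851 D T h) (mem_cons (W2963 D T h) (mem_cons (W15550 D T h) (mem_cons (W37 D T h) (mem_cons (W15551 D T h) (mem_cons (W15552 D T h) (mem_cons (W12918 D T h) (mem_cons (W15553 D T h) (mem_cons (W1291 D T h) (mem_cons (W7962 D T h) (mem_cons (W12852 D T h) (mem_cons (W15554 D T h) (mem_cons (W12209 D T h) (mem_cons (W15555 D T h) (mem_cons (W12208 D T h) (mem_cons (W15565 D T h) (mem_cons (W15566 D T h) (mem_cons (W15567 D T h) (mem_cons (W12261 D T h) (mem_cons (W8112 D T h) (mem_cons (W12870 D T h) (mem_cons (W6754 D T h) (mem_cons (W12871 D T h) (mem_cons (W12898 D T h) (mem_cons (W12899 D T h) (mem_cons (W12917 D T h) (mem_cons (W12928 D T h) (mem_cons (W15486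 D T h) (mem_cons (W15532 D T h) (mem_cons (W15540 D T h) (mem_cons (W15548 D T h) (mem_cons (W15549 D T h) (mem_cons (W15600 D T h) (mem_cons (W15601 D T h) (mem_cons (W15642 D T h) (mem_cons (W15671 D T h) (mem_cons (W1318 D T h) (mem_cons (W15679 D T h) (mem_cons (W15688 D T h) (mem_cons (W15689 D T h) mem_nil))))))))))))))))))))))))))))))))))))))))))))))) cl3450
theorem W15690 : WFK w15690 := fun D T h => wf_of_chk h mem_nil (mem_cons (L3450 D T h) mem_nil) cw15690
theorem W15691 : WFK w15691 := fun D T h => wf_of_chk h mem_nil (mem_cons (L1496 D T h) mem_nil) cw15691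
theorem W15692 : WFK w15692 := fun D T h => wf_of_chk h (mem_cons (W284 D T h) (mem_cons (W37 D T h) mem_nil)) mem_nil cw15692
theorem L3451 : LFK l3451 := fun D T h => lf_of_chk h (mem_cons (W747 D T h) (mem_cons (W703 D T h) (mem_cons (W14 D T h) (mem_cons (W12 D T h) (mem_cons (W2684 D T h) (mem_cons (W5358 D T h) (mem_cons (W1309 D T h) (mem_cons (W158 D T h) (mem_cons (W1310 D T h) mem_nil))))))))) cl3451
theorem W15693 : WFK w15693 := fun D T h => wf_of_chk h mem_nil (mem_cons (L3451 D T h) mem_nil) cw15693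
theorem W15694 : WFK w15694 := fun D T h => wf_of_chk h mem_nil (mem_cons (L1958 D T h) mem_nil) cw15694
theorem L3452 : LFK l3452 := fun D T h => lf_of_chk h (mem_cons (W2503 D T h) mem_nil) cl3452
theorem W15695 : WFK w15695 := fun D T h => wf_of_chk h mem_nil (mem_cons (L3452 D T h) mem_nil) cw15695
theorem L3453 : LFK l3453 := fun D T h => lf_of_chk h (mem_cons (W6714 D T h) (mem_cons (W39 D T h) (mem_cons (W1409 D T h) (mem_cons (W401 D T h) (mem_cons (W8516 D T h) (mem_cons (W2015 D T h) (mem_cons (W15695 D T h) (mem_cons (W12631 D T h) (mem_cons (W2729 D T h) (mem_cons (W153 D T h) (mem_cons (W2732 D T h) (mem_cons (W8233 D T h) (mem_cons (W112 D T h) (mem_cons (W1326 D T h) (mem_cons (W1555 D T h) (mem_cons (W10769 D T h) (mem_cons (W6797 D T h) (mem_cons (W1929 D T h) (mem_cons (W7110 D T h) mem_nil))))))))))))))))))) cl3453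
theorem W15696 : WFK w15696 := fun D T h => wf_of_chk h mem_nil (mem_cons (L3453 D T h) mem_nil) cw15696
theorem L3454 : LFK l3454 := fun D T h => lf_of_chk h (mem_cons (W267 D T h) (mem_cons (W39 D T h) (mem_cons (W32 D T h) (mem_cons (W6871 D T h) (mem_cons (W3 D T h) (mem_cons (W1181 D T h) (mem_cons (W1272 D T h) (mem_cons (W256 D T h) (mem_cons (W255 D T h) (mem_cons (W257 D T h) (mem_cons (W1465 D T h) mem_nil))))))))))) cl3454
theorem W15697 : WFK w15697 := fun D T h => wf_of_chk h mem_nil (mem_cons (L3454 D T h) mem_nil) cw15697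
theorem L3455 : LFK l3455 := fun D T h => lf_of_chk h (mem_cons (W3878 D T h) (mem_cons (W724 D T h) (mem_cons (W15697 D T h) (mem_cons (W5745 D T h) (mem_cons (W9395 D T h) (mem_cons (W212 D T h) (mem_cons (W69 D T h) (mem_cons (W1359 D T h) (mem_cons (W267 D T h) (mem_cons (W368 D T h) (mem_cons (W1 D T h) (mem_cons (W721 D T h) (mem_cons (W370 D T h) (mem_cons (W391 D T h) (mem_cons (W2575 D T h) (mem_cons (W2529 D T h) (mem_cons (W375 D T h) (mem_cons (W2548 D T h) mem_nil)))))))))))))))))) cl3455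
theorem W15698 : WFK w15698 := fun D T h => wf_of_chk h mem_nil (mem_cons (L3455 D T h) mem_nil) cw15698
theorem L3456 : LFK l3456 := fun D T h => lf_of_chk h (mem_cons (W721 D T h) (mem_cons (W39 D T h) (mem_cons (W32 D T h) (mem_cons (W6871 D T h) (mem_cons (W3701 D T h) (mem_cons (W3 D T h) (mem_cons (W746 D T h) (mem_cons (W258 D T h) (mem_cons (W747 D T h) (mem_cons (W748 D T h) (mem_cons (W1465 D T h) mem_nil))))))))))) cl3456
theorem W15699 : WFK w15699 := fun D T h => wf_of_chk h mem_nil (mem_cons (L3456 D T h) mem_nil) cw15699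
theorem L3457 : LFK l3457 := fun D T h => lf_of_chk h (mem_cons (W3878 D T h) (mem_cons (W724 D T h) (mem_cons (W15699 D T h) (mem_cons (W9395 D T h) (mem_cons (W5745 D T h) (mem_cons (W212 D T h) (mem_cons (W69 D T h) (mem_cons (W1359 D T h) (mem_cons (W56 D T h) (mem_cons (W1 D T h) (mem_cons (W368 D T h) (mem_cons (W721 D T h) (mem_cons (W267 D T h) (mem_cons (W370 D T h) (mem_cons (W391 D T h) (mem_cons (W2529 D T h) (mem_cons (W2575 D T h) (mem_cons (W375 D T h) (mem_cons (W2548 D T h) mem_nil))))))))))))))))))) cl3457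
theorem W15700 : WFK w15700 := fun D T h => wf_of_chk h mem_nil (mem_cons (L3457 D T h) mem_nil) cw15700
theorem W15701 : WFK w15701 := fun D T h => wf_of_chk h (mem_cons (W164 D T h) (mem_cons (W114 D T h) mem_nil)) mem_nil cw15701
theorem W15702 : WFK w15702 := fun D T h => wf_of_chk h (mem_cons (W162 D T h) (mem_cons (W114 D T h) mem_nil)) mem_nil cw15702
theorem W15703 : WFK w15703 := fun D T h => wf_of_chk h (mem_cons (W7552 D T h) (mem_cons (W16 D T h) mem_nil)) mem_nil cw15703
theorem W15704 : WFK w15704 := fun D T h => wf_of_chk h (mem_cons (W114 D T h) (mem_cons (W16 D T h) mem_nil)) mem_nil cw15704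
theorem W15705 : WFK w15705 := fun D T h => wf_of_chk h mem_nil (mem_cons (L1983 D T h) mem_nil) cw15705
theorem L3458 : LFK l3458 := fun D T h => lf_of_chk h (mem_cons (W8590 D T h) (mem_cons (W8630 D T h) (mem_cons (W368 D T h) (mem_cons (W126 D T h) (mem_cons (W721 D T h) (mem_cons (W267 D T h) (mem_cons (W16 D T h) (mem_cons (W114 D T h) (mem_cons (W2714 D T h) (mem_cons (W6433 D T h) (mem_cons (W15705 D T h) (mem_cons (W8687 D T h) (mem_cons (W15698 D T h) (mem_cons (W15700 D T h) (mem_cons (W37 D T h) (mem_cons (W15701 D T h) (mem_cons (W15702 D T h) (mem_cons (W15694 D T h) (mem_cons (W15696 D T h) (mem_cons (W8600 D T h) (mem_cons (W8563 D T h) (mem_cons (W1317 D T h) (mem_cons (W8595 D T h) (mem_cons (W15693 D T h) (mem_cons (W1313 D T h) (mem_cons (W15703 D T h) (mem_cons (W1 D T h) (mem_cons (W69 D T h) (mem_cons (W15704 D T h) mem_nil))))))))))))))))))))))))))))) cl3458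
theorem W15706 : WFK w15706 := fun D T h => wf_of_chk h mem_nil (mem_cons (L3458 D T h) mem_nil) cw15706
theorem W15707 : WFK w15707 := fun D T h => wf_of_chk h mem_nil (mem_cons (L3458 D T h) mem_nil) cw15707
theorem L3459 : LFK l3459 := fun D T h => lf_of_chk h (mem_cons (W42 D T h) (mem_cons (W16 D T h) (mem_cons (W1 D T h) (mem_cons (W37 D T h) (mem_cons (W1325 D T h) (mem_cons (W1554 D T h) (mem_cons (W581 D T h) (mem_cons (W1326 D T h) (mem_cons (W7212 D T h) (mem_cons (W3 D T h) (mem_cons (W461 D T h) (mem_cons (W39 D T h) (mem_cons (W181 D T h) (mem_cons (W267 D T h) (mem_cons (W721 D T h) (mem_cons (W3766 D T h) mem_nil)))))))))))))))) cl3459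
theorem W15708 : WFK w15708 := fun D T h => wf_of_chk h mem_nil (mem_cons (L3459 D T h) mem_nil) cw15708
theorem W15709 : WFK w15709 := fun D T h => wf_of_chk h (mem_cons (W2123 D T h) (mem_cons (W16 D T h) mem_nil)) mem_nil cw15709
theorem W15710 : WFK w15710 := fun D T h => wf_of_chk h mem_nil (mem_cons (L245 D T h) mem_nil) cw15710
theorem W15711 : WFK w15711 := fun D T h => wf_of_chk h mem_nil (mem_cons (L454 D T h) mem_nil) cw15711
theorem L3460 : LFK l3460 := fun D T h => lf_of_chk h (mem_cons (W34 D T h) (mem_cons (W3878 D T h) (mem_cons (W37 D T h) (mem_cons (W10 D T h) (mem_cons (W795 D T h) (mem_cons (W1109 D T h) (mem_cons (W6103 D T h) (mem_cons (W1110 D T h) (mem_cons (W15709 D T h) (mem_cons (W15710 D T h) (mem_cons (W7168 D T h) (mem_cons (W83 D T h) (mem_cons (W15711 D T h) mem_nil))))))))))))) cl3460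
theorem W15712 : WFK w15712 := fun D T h => wf_of_chk h mem_nil (mem_cons (L3460 D T h) mem_nil) cw15712
theorem L3461 : LFK l3461 := fun D T h => lf_of_chk h (mem_cons (W1325 D T h) (mem_cons (W220 D T h) (mem_cons (W2921 D T h) (mem_cons (W1272 D T h) (mem_cons (W926 D T h) (mem_cons (W4442 D T h) (mem_cons (W368 D T h) (mem_cons (W11 D T h) (mem_cons (W140 D T h) (mem_cons (W648 D T h) mem_nil)))))))))) cl3461
theorem W15713 : WFK w15713 := fun D T h => wf_of_chk h mem_nil (mem_cons (L3461 D T h) mem_nil) cw15713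
theorem L3462 : LFK l3462 := fun D T h => lf_of_chk h (mem_cons (W37 D T h) (mem_cons (W15691 D T h) (mem_cons (W5721 D T h) (mem_cons (W42 D T h) (mem_cons (W15713 D T h) (mem_cons (W11995 D T h) (mem_cons (W15147 D T h) (mem_cons (W12169 D T h) (mem_cons (W16 D T h) (mem_cons (W1408 D T h) (mem_cons (W3410 D T h) (mem_cons (W7996 D T h) (mem_cons (W1291 D T h) (mem_cons (W1310 D T h) (mem_cons (W15712 D T h) (mem_cons (W177 D T h) (mem_cons (W15706 D T h) (mem_cons (W15707 D T h) (mem_cons (W50 D T h) (mem_cons (W15708 D T h) mem_nil)))))))))))))))))))) cl3462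
theorem W15714 : WFK w15714 := fun D T h => wf_of_chk h mem_nil (mem_cons (L3462 D T h) mem_nil) cw15714
theorem W15715 : WFK w15715 := fun D T h => wf_of_chk h (mem_cons (W56 D T h) (mem_cons (W37 D T h) mem_nil)) mem_nil cw15715
theorem W15716 : WFK w15716 := fun D T h => wf_of_chk h (mem_cons (W267 D T h) (mem_cons (W37 D T h) mem_nil)) mem_nil cw15716
theorem L3463 : LFK l3463 := fun D T h => lf_of_chk h (mem_cons (W3766 D T h) (mem_cons (W16 D T h) (mem_cons (W37 D T h) (mem_cons (W1 D T h) (mem_cons (W1554 D T h) (mem_cons (W581 D T h) (mem_cons (W1325 D T h) (mem_cons (W1326 D T h) (mem_cons (W7212 D T h) (mem_cons (W461 D T h) (mem_cons (W3 D T h) (mem_cons (W39 D T h) (mem_cons (W42 D T h) (mem_cons (W181 D T h) mem_nil)))))))))))))) cl3463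
theorem W15717 : WFK w15717 := fun D T h => wf_of_chk h mem_nil (mem_cons (L3463 D T h) mem_nil) cw15717
theorem W15718 : WFK w15718 := fun D T h => wf_of_chk h (mem_cons (W78 D T h) (mem_cons (W16 D T h) mem_nil)) mem_nil cw15718
theorem W15719 : WFK w15719 := fun D T h => wf_of_chk h (mem_cons (W2517 D T h) (mem_cons (W16 D T h) mem_nil)) mem_nil cw15719
theorem L3464 : LFK l3464 := fun D T h => lf_of_chk h (mem_cons (W5258 D T h) (mem_cons (W2989 D T h) (mem_cons (W37 D T h) (mem_cons (W281 D T h) (mem_cons (W69 D T h) (mem_cons (W4256 D T h) (mem_cons (W1184 D T h) (mem_cons (W4209 D T h) (mem_cons (W4531 D T h) (mem_cons (W15718 D T h) (mem_cons (W1315 D T h) (mem_cons (W126 D T h) (mem_cons (W6891 D T h) (mem_cons (W15719 D T h) mem_nil)))))))))))))) cl3464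
theorem W15720 : WFK w15720 := fun D T h => wf_of_chk h mem_nil (mem_cons (L3464 D T h) mem_nil) cw15720
theorem W15721 : WFK w15721 := fun D T h => wf_of_chk h (mem_cons (W368 D T h) (mem_cons (W37 D T h) mem_nil)) mem_nil cw15721
theorem L3465 : LFK l3465 := fun D T h => lf_of_chk h (mem_cons (W37 D T h) (mem_cons (W3910 D T h) (mem_cons (W15691 D T h) (mem_cons (W42 D T h) (mem_cons (W1063 D T h) (mem_cons (W11995 D T h) (mem_cons (W15147 D T h) (mem_cons (W15713 D T h) (mem_cons (W16 D T h) (mem_cons (W15720 D T h) (mem_cons (W3410 D T h) (mem_cons (W1408 D T h) (mem_cons (W1291 D T h) (mem_cons (W1310 D T h) (mem_cons (W7996 D T h) (mem_cons (W15721 D T h) (mem_cons (W177 D T h) (mem_cons (W15715 D T h) (mem_cons (W50 D T h) (mem_cons (W15716 D T h) (mem_cons (W15717 D T h) mem_nil))))))))))))))))))))) cl3465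
theorem W15722 : WFK w15722 := fun D T h => wf_of_chk h mem_nil (mem_cons (L3465 D T h) mem_nil) cw15722
theorem W15723 : WFK w15723 := fun D T h => wf_of_chk h (mem_cons (W2914 D T h) (mem_cons (W16 D T h) mem_nil)) mem_nil cw15723
theorem W15724 : WFK w15724 := fun D T h => wf_of_chk h mem_nil (mem_cons (L1496 D T h) mem_nil) cw15724
theorem W15725 : WFK w15725 := fun D T h => wf_of_chk h mem_nil (mem_cons (L1496 D T h) mem_nil) cw15725
theorem W15726 : WFK w15726 := fun D T h => wf_of_chk h mem_nil (mem_cons (L1835 D T h) mem_nil) cw15726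
theorem W15727 : WFK w15727 := fun D T h => wf_of_chk h mem_nil (mem_cons (L3458 D T h) mem_nil) cw15727
theorem W15728 : WFK w15728 := fun D T h => wf_of_chk h (mem_cons (W16 D T h) (mem_cons (W37 D T h) mem_nil)) mem_nil cw15728
theorem W15729 : WFK w15729 := fun D T h => wf_of_chk h mem_nil (mem_cons (L1163 D T h) mem_nil) cw15729
theorem W15730 : WFK w15730 := fun D T h => wf_of_chk h mem_nil (mem_cons (L682 D T h) mem_nil) cw15730
theorem L3466 : LFK l3466 := fun D T h => lf_of_chk h (mem_cons (W669 D T h) (mem_cons (W11094 D T h) (mem_cons (W144 D T h) (mem_cons (W220 D T h) (mem_cons (W15 D T h) (mem_cons (W12634 D T h) (mem_cons (W7401 D T h) (mem_cons (W14935 D T h) (mem_cons (W2828 D T h) (mem_cons (W5258 D T h) (mem_cons (W209 D T h) (mem_cons (W11550 D T h) (mem_cons (W2912 D T h) (mem_cons (W4531 D T h) (mem_cons (W177 D T h) (mem_cons (W15730 D T h) (mem_cons (W3878 D T h) (mem_cons (W6743 D T h) mem_nil)))))))))))))))))) cl3466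
theorem W15731 : WFK w15731 := fun D T h => wf_of_chk h mem_nil (mem_cons (L3466 D T h) mem_nil) cw15731
theorem L3467 : LFK l3467 := fun D T h => lf_of_chk h (mem_cons (W6714 D T h) (mem_cons (W1676 D T h) (mem_cons (W50 D T h) (mem_cons (W10422 D T h) (mem_cons (W5186 D T h) (mem_cons (W153 D T h) (mem_cons (W2729 D T h) (mem_cons (W2732 D T h) (mem_cons (W8815 D T h) (mem_cons (W69 D T h) (mem_cons (W1326 D T h) (mem_cons (W981 D T h) (mem_cons (W6797 D T h) (mem_cons (W10769 D T h) (mem_cons (W1555 D T h) (mem_cons (W3878 D T h) (mem_cons (W39 D T h) (mem_cons (W1929 D T h) (mem_cons (W9066 D T h) mem_nil))))))))))))))))))) cl3467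
theorem W15732 : WFK w15732 := fun D T h => wf_of_chk h mem_nil (mem_cons (L3467 D T h) mem_nil) cw15732
theorem W15733 : WFK w15733 := fun D T h => wf_of_chk h (mem_cons (W177 D T h) (mem_cons (W16 D T h) mem_nil)) mem_nil cw15733
theorem W15734 : WFK w15734 := fun D T h => wf_of_chk h mem_nil (mem_cons (L2831 D T h) mem_nil) cw15734
theorem W15735 : WFK w15735 := fun D T h => wf_of_chk h mem_nil (mem_cons (L1837 D T h) mem_nil) cw15735
theorem L3468 : LFK l3468 := fun D T h => lf_of_chk h (mem_cons (W15691 D T h) (mem_cons (W8977 D T h) (mem_cons (W11137 D T h) (mem_cons (W284 D T h) (mem_cons (W2934 D T h) (mem_cons (W16 D T h) (mem_cons (W37 D T h) (mem_cons (W2989 D T h) (mem_cons (W8630 D T h) (mem_cons (W15720 D T h) (mem_cons (W15727 D T h) (mem_cons (W15728 D T h) (mem_cons (W15723 D T h) (mem_cons (W15724 D T h) (mem_cons (W15725 D T h) (mem_cons (W12214 D T h) (mem_cons (W8278 D T h) (mem_cons (W15555 D T h) (mem_cons (W12208 D T h) (mem_cons (W15726 D T h) (mem_cons (W7864 D T h) (mem_cons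 (W15729 D T h) (mem_cons (W15731 D T h) (mem_cons (W15732 D T h) (mem_cons (W15733 D T h) (mem_cons (W8781 D T h) (mem_cons (W15734 D T h) (mem_cons (W15735 D T h) (mem_cons (W8628 D T h) mem_nil))))))))))))))))))))))))))))) cl3468
theorem W15736 : WFK w15736 := fun D T h => wf_of_chk h mem_nil (mem_cons (L3468 D T h) mem_nil) cw15736
theorem W15737 : WFK w15737 := fun D T h => wf_of_chk h mem_nil (mem_cons (L3462 D T h) mem_nil) cw15737
theorem W15738 : WFK w15738 := fun D T h => wf_of_chk h mem_nil (mem_cons (L3465 D T h) mem_nil) cw15738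
theorem W15739 : WFK w15739 := fun D T h => wf_of_chk h mem_nil (mem_cons (L3458 D T h) mem_nil) cw15739
theorem L3469 : LFK l3469 := fun D T h => lf_of_chk h (mem_cons (W12217 D T h) (mem_cons (W8630 D T h) (mem_cons (W37 D T h) (mem_cons (W11643 D T h) (mem_cons (W11986 D T h) (mem_cons (W8400 D T h) (mem_cons (W8640 D T h) (mem_cons (W1313 D T h) (mem_cons (W8590 D T h) (mem_cons (W220 D T h) (mem_cons (W8629 D T h) (mem_cons (W15704 D T h) (mem_cons (W15 D T h) mem_nil))))))))))))) cl3469
theorem W15740 : WFK w15740 := fun D T h => wf_of_chk h mem_nil (mem_cons (L3469 D T h) mem_nil) cw15740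
theorem L3470 : LFK l3470 := fun D T h => lf_of_chk h (mem_cons (W16 D T h) (mem_cons (W8630 D T h) (mem_cons (W37 D T h) (mem_cons (W42 D T h) (mem_cons (W2015 D T h) (mem_cons (W164 D T h) (mem_cons (W8640 D T h) (mem_cons (W1313 D T h) (mem_cons (W8590 D T h) (mem_cons (W15 D T h) (mem_cons (W220 D T h) (mem_cons (W8629 D T h) (mem_cons (W15704 D T h) mem_nil))))))))))))) cl3470
theorem W15741 : WFK w15741 := fun D T h => wf_of_chk h mem_nil (mem_cons (L3470 D T h) mem_nil) cw15741
theorem W15742 : WFK w15742 := fun D T h => wf_of_chk h (mem_cons (W284 D T h) (mem_cons (W16 D T h) mem_nil)) mem_nil cw15742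
theorem W15743 : WFK w15743 := fun D T h => wf_of_chk h (mem_cons (W497 D T h) (mem_cons (W16 D T h) mem_nil)) mem_nil cw15743
theorem L3471 : LFK l3471 := fun D T h => lf_of_chk h (mem_cons (W669 D T h) (mem_cons (W15742 D T h) (mem_cons (W144 D T h) (mem_cons (W220 D T h) (mem_cons (W15 D T h) (mem_cons (W12634 D T h) (mem_cons (W2828 D T h) (mem_cons (W7401 D T h) (mem_cons (W14935 D T h) (mem_cons (W5258 D T h) (mem_cons (W209 D T h) (mem_cons (W11550 D T h) (mem_cons (W2912 D T h) (mem_cons (W177 D T h) (mem_cons (W15743 D T h) (mem_cons (W7212 D T h) (mem_cons (W6743 D T h) mem_nil))))))))))))))))) cl3471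
theorem W15744 : WFK w15744 := fun D T h => wf_of_chk h mem_nil (mem_cons (L3471 D T h) mem_nil) cw15744
theorem W15746 : WFK w15746 := fun D T h => wf_of_chk h mem_nil (mem_cons (L406 D T h) mem_nil) cw15746
theorem W15747 : WFK w15747 := fun D T h => wf_of_chk h mem_nil (mem_cons (L1939 D T h) mem_nil) cw15747
theorem L3473 : LFK l3473 := fun D T h => lf_of_chk h (mem_cons (W143 D T h) (mem_cons (W505 D T h) (mem_cons (W17 D T h) (mem_cons (W16 D T h) (mem_cons (W651 D T h) (mem_cons (W15 D T h) (mem_cons (W2723 D T h) (mem_cons (W1304 D T h) (mem_cons (W13384 D T h) (mem_cons (W39 D T h) (mem_cons (W15746 D T h) (mem_cons (W7408 D T h) (mem_cons (W4806 D T h) (mem_cons (W8676 D T h) (mem_cons (W10413 D T h) (mem_cons (W15747 D T h) mem_nil)))))))))))))))) cl3473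
theorem W15748 : WFK w15748 := fun D T h => wf_of_chk h mem_nil (mem_cons (L3473 D T h) mem_nil) cw15748
theorem W15749 : WFK w15749 := fun D T h => wf_of_chk h mem_nil (mem_cons (L3137 D T h) mem_nil) cw15749
theorem L3474 : LFK l3474 := fun D T h => lf_of_chk h (mem_cons (W164 D T h) (mem_cons (W12196 D T h) (mem_cons (W16 D T h) (mem_cons (W710 D T h) (mem_cons (W39 D T h) (mem_cons (W1929 D T h) (mem_cons (W6714 D T h) (mem_cons (W15749 D T h) (mem_cons (W69 D T h) (mem_cons (W1326 D T h) (mem_cons (W1555 D T h) (mem_cons (W10769 D T h) (mem_cons (W6797 D T h) (mem_cons (W15748 D T h) (mem_cons (W114 D T h) (mem_cons (W2729 D T h) (mem_cons (W153 D T h) (mem_cons (W2732 D T h) mem_nil)))))))))))))))))) cl3474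
theorem W15750 : WFK w15750 := fun D T h => wf_of_chk h mem_nil (mem_cons (L3474 D T h) mem_nil) cw15750
theorem W15751 : WFK w15751 := fun D T h => wf_of_chk h (mem_cons (W9376 D T h) (mem_cons (W16 D T h) mem_nil)) mem_nil cw15751
theorem W15752 : WFK w15752 := fun D T h => wf_of_chk h mem_nil (mem_cons (L2029 D T h) mem_nil) cw15752
theorem L3475 : LFK l3475 := fun D T h => lf_of_chk h (mem_cons (W37 D T h) (mem_cons (W1310 D T h) (mem_cons (W14 D T h) (mem_cons (W16 D T h) (mem_cons (W1291 D T h) (mem_cons (W3227 D T h) (mem_cons (W15752 D T h) (mem_cons (W12054 D T h) mem_nil)))))))) cl3475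
theorem W15753 : WFK w15753 := fun D T h => wf_of_chk h mem_nil (mem_cons (L3475 D T h) mem_nil) cw15753
theorem L3476 : LFK l3476 := fun D T h => lf_of_chk h (mem_cons (W15737 D T h) (mem_cons (W1300 D T h) (mem_cons (W37 D T h) (mem_cons (W16 D T h) (mem_cons (W8639 D T h) (mem_cons (W15739 D T h) (mem_cons (W15740 D T h) (mem_cons (W15741 D T h) (mem_cons (W12169 D T h) (mem_cons (W15744 D T h) (mem_cons (W15750 D T h) (mem_cons (W15751 D T h) (mem_cons (W12710 D T h) (mem_cons (W15753 D T h) mem_nil)))))))))))))) cl3476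
theorem W15754 : WFK w15754 := fun D T h => wf_of_chk h mem_nil (mem_cons (L3476 D T h) mem_nil) cw15754
theorem W15755 : WFK w15755 := fun D T h => wf_of_chk h (mem_cons (W284 D T h) (mem_cons (W37 D T h) mem_nil)) mem_nil cw15755
theorem W15756 : WFK w15756 := fun D T h => wf_of_chk h mem_nil (mem_cons (L3476 D T h) mem_nil) cw15756
theorem W15757 : WFK w15757 := fun D T h => wf_of_chk h mem_nil (mem_cons (L3476 D T h) mem_nil) cw15757
theorem L3477 : LFK l3477 := fun D T h => lf_of_chk h (mem_cons (W2986 D T h) (mem_cons (W8497 D T h) (mem_cons (W9704 D T h) (mem_cons (W12166 D T h) (mem_cons (W16 D T h) (mem_cons (W37 D T h) (mem_cons (W10406 D T h) (mem_cons (W4021 D T h) (mem_cons (W12710 D T h) (mem_cons (W15737 D T h) (mem_cons (W15738 D T h) (mem_cons (W15754 D T h) (mem_cons (W15755 D T h) (mem_cons (W15756 D T h) (mem_cons (W15757 D T h) (mem_cons (W15690 D T h) (mem_cons (W3910 D T h) (mem_cons (W15691 D T h) (mem_cons (W15692 D T h) (mem_cons (W15714 D T h) (mem_cons (W15722 D T h)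 (mem_cons (W15736 D T h) (mem_cons (W12204 D T h) (mem_cons (W12205 D T h) (mem_cons (W12709 D T h) (mem_cons (W12711 D T h) (mem_cons (W12187 D T h) (mem_cons (W12194 D T h) (mem_cons (W12195 D T h) (mem_cons (W8499 D T h) (mem_cons (W8594 D T h) (mem_cons (W8607 D T h) (mem_cons (W8859 D T h) (mem_cons (W8860 D T h) mem_nil)))))))))))))))))))))))))))))))))) cl3477
theorem W15758 : WFK w15758 := fun D T h => wf_of_chk h mem_nil (mem_cons (L3477 D T h) mem_nil) cw15758
theorem L3478 : LFK l3478 := fun D T h => lf_of_chk h (mem_cons (W15758 D T h) mem_nil) cl3478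
theorem W15759 : WFK w15759 := fun D T h => wf_of_chk h mem_nil (mem_cons (L3478 D T h) mem_nil) cw15759
theorem W15760 : WFK w15760 := fun D T h => wf_of_chk h mem_nil (mem_cons (L3478 D T h) mem_nil) cw15760
theorem W15761 : WFK w15761 := fun D T h => wf_of_chk h mem_nil mem_nil cw15761
theorem W15762 : WFK w15762 := fun D T h => wf_of_chk h mem_nil (mem_cons (L140 D T h) mem_nil) cw15762
theorem L3479 : LFK l3479 := fun D T h => lf_of_chk h (mem_cons (W591 D T h) (mem_cons (W2922 D T h) (mem_cons (W15 D T h) (mem_cons (W25 D T h) (mem_cons (W685 D T h) (mem_cons (W602 D T h) (mem_cons (W141 D T h) (mem_cons (W15761 D T h) (mem_cons (W7768 D T h) (mem_cons (W8862 D T h) (mem_cons (W1707 D T h) (mem_cons (W10624 D T h) (mem_cons (W15762 D T h) mem_nil))))))))))))) cl3479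
theorem W15763 : WFK w15763 := fun D T h => wf_of_chk h mem_nil (mem_cons (L3479 D T h) mem_nil) cw15763
theorem L3480 : LFK l3480 := fun D T h => lf_of_chk h (mem_cons (W41 D T h) (mem_cons (W42 D T h) (mem_cons (W32 D T h) (mem_cons (W3 D T h) (mem_cons (W39 D T h) (mem_cons (W38 D T h) (mem_cons (W40 D T h) (mem_cons (W1564 D T h) (mem_cons (W15763 D T h) (mem_cons (W10076 D T h) (mem_cons (W44 D T h) (mem_cons (W46 D T h) (mem_cons (W55 D T h) (mem_cons (W2007 D T h) mem_nil)))))))))))))) cl3480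
theorem W15764 : WFK w15764 := fun D T h => wf_of_chk h mem_nil (mem_cons (L3480 D T h) mem_nil) cw15764
theorem W15770 : WFK w15770 := fun D T h => wf_of_chk h (mem_cons (W34 D T h) (mem_cons (W1316 D T h) mem_nil)) mem_nil cw15770
theorem L3482 : LFK l3482 := fun D T h => lf_of_chk h (mem_cons (W64 D T h) (mem_cons (W5072 D T h) (mem_cons (W683 D T h) (mem_cons (W693 D T h) (mem_cons (W47 D T h) (mem_cons (W697 D T h) (mem_cons (W695 D T h) (mem_cons (W1316 D T h) (mem_cons (W63 D T h) (mem_cons (W16 D T h) (mem_cons (W9706 D T h) (mem_cons (W100 D T h) (mem_cons (W2015 D T h) (mem_cons (W15770 D T h) (mem_cons (W163 D T h) (mem_cons (W14328 D T h) (mem_cons (W2037 D T h) (mem_cons (W165 D T h) (mem_cons (W127 D T h) (mem_cons (W101 D T h) (mem_cons (W627 D T h) (mem_cons (W128 D T h) (mem_cons (W130 D T h) (mem_cons (W131 D T h) (mem_cons (W129 D T h) (mem_cons (W132 D T h) (mem_cons (W40 D T h) (mem_cons (W133 D T h) (mem_cons (W134 D T h) (mem_cons (W145 D T h) (mem_cons (W146 D T h) (mem_cons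 (W10293 D T h) mem_nil)))))))))))))))))))))))))))))))) cl3482
theorem W15771 : WFK w15771 := fun D T h => wf_of_chk h mem_nil (mem_cons (L3482 D T h) mem_nil) cw15771
theorem L3483 : LFK l3483 := fun D T h => lf_of_chk h (mem_cons (W48 D T h) (mem_cons (W1318 D T h) (mem_cons (W49 D T h) (mem_cons (W38 D T h) (mem_cons (W60 D T h) (mem_cons (W51 D T h) (mem_cons (W1316 D T h) (mem_cons (W61 D T h) (mem_cons (W702 D T h) (mem_cons (W6596 D T h) (mem_cons (W1643 D T h) (mem_cons (W708 D T h) (mem_cons (W1061 D T h) (mem_cons (W15771 D T h) (mem_cons (W7113 D T h) (mem_cons (W699 D T h) (mem_cons (W701 D T h) (mem_cons (W700 D T h) mem_nil)))))))))))))))))) cl3483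
theorem W15772 : WFK w15772 := fun D T h => wf_of_chk h mem_nil (mem_cons (L3483 D T h) mem_nil) cw15772
theorem L3484 : LFK l3484 := fun D T h => lf_of_chk h (mem_cons (W281 D T h) (mem_cons (W15772 D T h) (mem_cons (W91 D T h) (mem_cons (W2764 D T h) (mem_cons (W158 D T h) (mem_cons (W6006 D T h) (mem_cons (W1 D T h) (mem_cons (W10 D T h) (mem_cons (W109 D T h) mem_nil))))))))) cl3484
theorem W15773 : WFK w15773 := fun D T h => wf_of_chk h mem_nil (mem_cons (L3484 D T h) mem_nil) cw15773
theorem L3485 : LFK l3485 := fun D T h => lf_of_chk h (mem_cons (W2914 D T h) (mem_cons (W15758 D T h) (mem_cons (W15760 D T h) (mem_cons (W1 D T h) (mem_cons (W69 D T h) (mem_cons (W1166 D T h) (mem_cons (W230 D T h) (mem_cons (W1184 D T h) (mem_cons (W144 D T h) (mem_cons (W368 D T h) (mem_cons (W126 D T h) (mem_cons (W56 D T h) (mem_cons (W267 D T h) (mem_cons (W8559 D T h) (mem_cons (W114 D T h) (mem_cons (W8600 D T h) (mem_cons (W8563 D T h) (mem_cons (W1298 D T h) (mem_cons (W6433 D T h) (mem_cons (W15773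 D T h) mem_nil)))))))))))))))))))) cl3485
theorem W15774 : WFK w15774 := fun D T h => wf_of_chk h mem_nil (mem_cons (L3485 D T h) mem_nil) cw15774
theorem L3486 : LFK l3486 := fun D T h => lf_of_chk h (mem_cons (W4439 D T h) (mem_cons (W10 D T h) (mem_cons (W4037 D T h) (mem_cons (W6960 D T h) mem_nil)))) cl3486
theorem W15775 : WFK w15775 := fun D T h => wf_of_chk h mem_nil (mem_cons (L3486 D T h) mem_nil) cw15775
theorem L3488 : LFK l3488 := fun D T h => lf_of_chk h (mem_cons (W128 D T h) (mem_cons (W15775 D T h) (mem_cons (W15 D T h) (mem_cons (W219 D T h) (mem_cons (W1064 D T h) (mem_cons (W15773 D T h) (mem_cons (W3199 D T h) (mem_cons (W8638 D T h) (mem_cons (W1192 D T h) (mem_cons (W10045 D T h) (mem_cons (W8397 D T h) mem_nil))))))))))) cl3488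
theorem W15777 : WFK w15777 := fun D T h => wf_of_chk h mem_nil (mem_cons (L3488 D T h) mem_nil) cw15777
theorem W15784 : WFK w15784 := fun D T h => wf_of_chk h mem_nil (mem_cons (L3478 D T h) mem_nil) cw15784
theorem W15786 : WFK w15786 := fun D T h => wf_of_chk h mem_nil (mem_cons (L3478 D T h) mem_nil) cw15786
theorem W15790 : WFK w15790 := fun D T h => wf_of_chk h mem_nil mem_nil cw15790
theorem W15791 : WFK w15791 := fun D T h => wf_of_chk h mem_nil mem_nil cw15791
theorem W15806 : WFK w15806 := fun D T h => wf_of_chk h mem_nil (mem_cons (L3478 D T h) mem_nil) cw15806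
theorem W15807 : WFK w15807 := fun D T h => wf_of_chk h mem_nil (mem_cons (L3485 D T h) mem_nil) cw15807
theorem L3495 : LFK l3495 := fun D T h => lf_of_chk h (mem_cons (W17 D T h) (mem_cons (W432 D T h) (mem_cons (W2740 D T h) (mem_cons (W202 D T h) (mem_cons (W203 D T h) (mem_cons (W740 D T h) (mem_cons (W3 D T h) (mem_cons (W14958 D T h) mem_nil)))))))) cl3495
theorem L3497 : LFK l3497 := fun D T h => lf_of_chk h (mem_cons (W1408 D T h) (mem_cons (W17 D T h) (mem_cons (W15784 D T h) (mem_cons (W15807 D T h) (mem_cons (W12016 D T h) (mem_cons (W3394 D T h) (mem_cons (W14 D T h) (mem_cons (W15711 D T h) (mem_cons (W3 D T h) (mem_cons (W1448 D T h) (mem_cons (W1449 D T h) mem_nil))))))))))) cl3497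
theorem W15810 : WFK w15810 := fun D T h => wf_of_chk h mem_nil (mem_cons (L3497 D T h) mem_nil) cw15810
theorem W15824 : WFK w15824 := fun D T h => wf_of_chk h (mem_cons (W15806 D T h) (mem_cons (W16 D T h) mem_nil)) mem_nil cw15824
theorem W15825 : WFK w15825 := fun D T h => wf_of_chk h mem_nil (mem_cons (L3485 D T h) mem_nil) cw15825
theorem W15827 : WFK w15827 := fun D T h => wf_of_chk h mem_nil (mem_cons (L1258 D T h) mem_nil) cw15827
theorem L3500 : LFK l3500 := fun D T h => lf_of_chk h (mem_cons (W3766 D T h) (mem_cons (W16 D T h) (mem_cons (W33 D T h) (mem_cons (W80 D T h) (mem_cons (W4442 D T h) (mem_cons (W170 D T h) (mem_cons (W871 D T h) (mem_cons (W69 D T h) (mem_cons (W3 D T h) (mem_cons (W220 D T h) (mem_cons (W181 D T h) mem_nil))))))))))) cl3500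
theorem W15828 : WFK w15828 := fun D T h => wf_of_chk h mem_nil (mem_cons (L3500 D T h) mem_nil) cw15828
theorem W15829 : WFK w15829 := fun D T h => wf_of_chk h mem_nil (mem_cons (L891 D T h) mem_nil) cw15829
theorem W15834 : WFK w15834 := fun D T h => wf_of_chk h (mem_cons (W42 D T h) (mem_cons (W16 D T h) mem_nil)) mem_nil cw15834
theorem W15854 : WFK w15854 := fun D T h => wf_of_chk h mem_nil (mem_cons (L3244 D T h) mem_nil) cw15854
theorem W15858 : WFK w15858 := fun D T h => wf_of_chk h mem_nil (mem_cons (L3244 D T h) mem_nil) cw15858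
theorem W15866 : WFK w15866 := fun D T h => wf_of_chk h (mem_cons (W164 D T h) mem_nil) mem_nil cw15866
theorem W15870 : WFK w15870 := fun D T h => wf_of_chk h mem_nil (mem_cons (L45 D T h) mem_nil) cw15870
theorem W15877 : WFK w15877 := fun D T h => wf_of_chk h (mem_cons (W15825 D T h) (mem_cons (W16 D T h) mem_nil)) mem_nil cw15877
theorem W15883 : WFK w15883 := fun D T h => wf_of_chk h mem_nil (mem_cons (L3485 D T h) mem_nil) cw15883
theorem W15884 : WFK w15884 := fun D T h => wf_of_chk h mem_nil (mem_cons (L3485 D T h) mem_nil) cw15884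
theorem W15887 : WFK w15887 := fun D T h => wf_of_chk h (mem_cons (W337 D T h) mem_nil) mem_nil cw15887
theorem W15893 : WFK w15893 := fun D T h => wf_of_chk h mem_nil (mem_cons (L3478 D T h) mem_nil) cw15893
theorem W15905 : WFK w15905 := fun D T h => wf_of_chk h mem_nil (mem_cons (L3478 D T h) mem_nil) cw15905
theorem L3515 : LFK l3515 := fun D T h => lf_of_chk h (mem_cons (W15905 D T h) mem_nil) cl3515
theorem W15906 : WFK w15906 := fun D T h => wf_of_chk h mem_nil (mem_cons (L3515 D T h) mem_nil) cw15906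
theorem W15921 : WFK w15921 := fun D T h => wf_of_chk h (mem_cons (W162 D T h) (mem_cons (W284 D T h) mem_nil)) mem_nil cw15921
theorem W15927 : WFK w15927 := fun D T h => wf_of_chk h mem_nil (mem_cons (L1847 D T h) mem_nil) cw15927
theorem W15931 : WFK w15931 := fun D T h => wf_of_chk h (mem_cons (W6776 D T h) (mem_cons (W16 D T h) mem_nil)) mem_nil cw15931
theorem W15935 : WFK w15935 := fun D T h => wf_of_chk h mem_nil (mem_cons (L1253 D T h) mem_nil) cw15935
theorem W15936 : WFK w15936 := fun D T h => wf_of_chk h mem_nil (mem_cons (L1193 D T h) mem_nil) cw15936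
theorem L3524 : LFK l3524 := fun D T h => lf_of_chk h (mem_cons (W14067 D T h) (mem_cons (W16 D T h) (mem_cons (W2934 D T h) (mem_cons (W2709 D T h) (mem_cons (W6719 D T h) (mem_cons (W2936 D T h) (mem_cons (W284 D T h) (mem_cons (W1502 D T h) (mem_cons (W9376 D T h) (mem_cons (W2963 D T h) (mem_cons (W7878 D T h) (mem_cons (W15921 D T h) (mem_cons (W50 D T h) (mem_cons (W7115 D T h) (mem_cons (W669 D T h) (mem_cons (W5223 D T h) (mem_cons (W15884 D T h) (mem_cons (W8800 D T h) (mem_cons (W15834 D T h) (mem_cons (W6745 D T h) mem_nil)))))))))))))))))))) cl3524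
theorem L3530 : LFK l3530 := fun D T h => lf_of_chk h (mem_cons (W819 D T h) (mem_cons (W61 D T h) (mem_cons (W8695 D T h) (mem_cons (W7171 D T h) (mem_cons (W1087 D T h) (mem_cons (W39 D T h) (mem_cons (W3593 D T h) (mem_cons (W1092 D T h) (mem_cons (W411 D T h) (mem_cons (W359 D T h) (mem_cons (W1098 D T h) (mem_cons (W5523 D T h) (mem_cons (W1099 D T h) (mem_cons (W13620 D T h) (mem_cons (W1100 D T h) mem_nil))))))))))))))) cl3530
theorem W15954 : WFK w15954 := fun D T h => wf_of_chk h mem_nil (mem_cons (L2877 D T h) mem_nil) cw15954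
theorem W15967 : WFK w15967 := fun D T h => wf_of_chk h mem_nil (mem_cons (L2023 D T h) mem_nil) cw15967
theorem W15968 : WFK w15968 := fun D T h => wf_of_chk h mem_nil (mem_cons (L3524 D T h) mem_nil) cw15968
theorem W15971 : WFK w15971 := fun D T h => wf_of_chk h (mem_cons (W16 D T h) mem_nil) mem_nil cw15971
theorem L3540 : LFK l3540 := fun D T h => lf_of_chk h (mem_cons (W170 D T h) (mem_cons (W15 D T h) (mem_cons (W499 D T h) (mem_cons (W1 D T h) (mem_cons (W11 D T h) (mem_cons (W141 D T h) (mem_cons (W500 D T h) (mem_cons (W1554 D T h) mem_nil)))))))) cl3540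
theorem W15981 : WFK w15981 := fun D T h => wf_of_chk h mem_nil (mem_cons (L3540 D T h) mem_nil) cw15981
theorem W15982 : WFK w15982 := fun D T h => wf_of_chk h mem_nil (mem_cons (L3540 D T h) mem_nil) cw15982
theorem W15983 : WFK w15983 := fun D T h => wf_of_chk h mem_nil (mem_cons (L1547 D T h) mem_nil) cw15983
theorem W15984 : WFK w15984 := fun D T h => wf_of_chk h mem_nil (mem_cons (L196 D T h) mem_nil) cw15984
theorem W15989 : WFK w15989 := fun D T h => wf_of_chk h mem_nil (mem_cons (L115 D T h) mem_nil) cw15989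
theorem W15992 : WFK w15992 := fun D T h => wf_of_chk h mem_nil (mem_cons (L196 D T h) mem_nil) cw15992
theorem W15993 : WFK w15993 := fun D T h => wf_of_chk h mem_nil (mem_cons (L115 D T h) mem_nil) cw15993
theorem W15994 : WFK w15994 := fun D T h => wf_of_chk h mem_nil (mem_cons (L259 D T h) mem_nil) cw15994
theorem W15997 : WFK w15997 := fun D T h => wf_of_chk h mem_nil (mem_cons (L784 D T h) mem_nil) cw15997
theorem W15998 : WFK w15998 := fun D T h => wf_of_chk h mem_nil (mem_cons (L2904 D T h) mem_nil) cw15998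
theorem W15999 : WFK w15999 := fun D T h => wf_of_chk h (mem_cons (W16 D T h) (mem_cons (W170 D T h) mem_nil)) mem_nil cw15999
theorem W16000 : WFK w16000 := fun D T h => wf_of_chk h (mem_cons (W16 D T h) (mem_cons (W170 D T h) mem_nil)) mem_nil cw16000
theorem W16001 : WFK w16001 := fun D T h => wf_of_chk h mem_nil (mem_cons (L880 D T h) mem_nil) cw16001
theorem L3544 : LFK l3544 := fun D T h => lf_of_chk h (mem_cons (W15983 D T h) (mem_cons (W15984 D T h) (mem_cons (W261 D T h) (mem_cons (W170 D T h) (mem_cons (W219 D T h) (mem_cons (W15981 D T h) (mem_cons (W15982 D T h) (mem_cons (W15999 D T h) (mem_cons (W16000 D T h) (mem_cons (W16001 D T h) (mem_cons (W12939 D T h) mem_nil))))))))))) cl3544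
theorem W16005 : WFK w16005 := fun D T h => wf_of_chk h (mem_cons (W16 D T h) (mem_cons (W3766 D T h) mem_nil)) mem_nil cw16005
theorem W16006 : WFK w16006 := fun D T h => wf_of_chk h mem_nil (mem_cons (L45 D T h) mem_nil) cw16006
theorem W16007 : WFK w16007 := fun D T h => wf_of_chk h mem_nil (mem_cons (L1550 D T h) mem_nil) cw16007
theorem W16009 : WFK w16009 := fun D T h => wf_of_chk h mem_nil (mem_cons (L1550 D T h) mem_nil) cw16009
theorem W16010 : WFK w16010 := fun D T h => wf_of_chk h (mem_cons (W16 D T h) (mem_cons (W16006 D T h) mem_nil)) mem_nil cw16010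
theorem W16011 : WFK w16011 := fun D T h => wf_of_chk h (mem_cons (W16 D T h) (mem_cons (W16006 D T h) mem_nil)) mem_nil cw16011
theorem W16012 : WFK w16012 := fun D T h => wf_of_chk h mem_nil (mem_cons (L269 D T h) mem_nil) cw16012
theorem L3545 : LFK l3545 := fun D T h => lf_of_chk h (mem_cons (W3193 D T h) (mem_cons (W154 D T h) (mem_cons (W798 D T h) (mem_cons (W16006 D T h) (mem_cons (W2882 D T h) (mem_cons (W1554 D T h) (mem_cons (W16012 D T h) mem_nil))))))) cl3545
theorem W16013 : WFK w16013 := fun D T h => wf_of_chk h mem_nil (mem_cons (L3545 D T h) mem_nil) cw16013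
theorem W16014 : WFK w16014 := fun D T h => wf_of_chk h mem_nil (mem_cons (L259 D T h) mem_nil) cw16014
theorem W16015 : WFK w16015 := fun D T h => wf_of_chk h mem_nil (mem_cons (L1504 D T h) mem_nil) cw16015
theorem L3546 : LFK l3546 := fun D T h => lf_of_chk h (mem_cons (W15983 D T h) (mem_cons (W15984 D T h) (mem_cons (W261 D T h) (mem_cons (W16006 D T h) (mem_cons (W798 D T h) (mem_cons (W16007 D T h) (mem_cons (W16009 D T h) (mem_cons (W16010 D T h) (mem_cons (W16011 D T h) (mem_cons (W16013 D T h) (mem_cons (W16001 D T h) (mem_cons (W170 D T h) (mem_cons (W219 D T h) (mem_cons (W15994 D T h) (mem_cons (W16014 D T h) (mem_cons (W16015 D T h) mem_nil)))))))))))))))) cl3546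
theorem W16019 : WFK w16019 := fun D T h => wf_of_chk h mem_nil (mem_cons (L3485 D T h) mem_nil) cw16019
theorem W16041 : WFK w16041 := fun D T h => wf_of_chk h mem_nil (mem_cons (L340 D T h) mem_nil) cw16041
theorem W16042 : WFK w16042 := fun D T h => wf_of_chk h mem_nil (mem_cons (L2283 D T h) mem_nil) cw16042
theorem W16071 : WFK w16071 := fun D T h => wf_of_chk h mem_nil (mem_cons (L1537 D T h) mem_nil) cw16071
theorem W16077 : WFK w16077 := fun D T h => wf_of_chk h (mem_cons (W2517 D T h) (mem_cons (W16 D T h) mem_nil)) mem_nil cw16077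
theorem W16078 : WFK w16078 := fun D T h => wf_of_chk h (mem_cons (W1929 D T h) (mem_cons (W16 D T h) mem_nil)) mem_nil cw16078
theorem W16080 : WFK w16080 := fun D T h => wf_of_chk h mem_nil (mem_cons (L193 D T h) mem_nil) cw16080
theorem W16091 : WFK w16091 := fun D T h => wf_of_chk h mem_nil (mem_cons (L339 D T h) mem_nil) cw16091
theorem L3567 : LFK l3567 := fun D T h => lf_of_chk h (mem_cons (W9056 D T h) (mem_cons (W3766 D T h) (mem_cons (W4456 D T h) (mem_cons (W9206 D T h) (mem_cons (W8609 D T h) (mem_cons (W799 D T h) mem_nil)))))) cl3567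
theorem W16111 : WFK w16111 := fun D T h => wf_of_chk h mem_nil (mem_cons (L3567 D T h) mem_nil) cw16111
theorem L3568 : LFK l3568 := fun D T h => lf_of_chk h (mem_cons (W6719 D T h) (mem_cons (W3766 D T h) (mem_cons (W16 D T h) (mem_cons (W15971 D T h) (mem_cons (W4456 D T h) (mem_cons (W9939 D T h) (mem_cons (W149 D T h) (mem_cons (W8609 D T h) mem_nil)))))))) cl3568
theorem W16112 : WFK w16112 := fun D T h => wf_of_chk h mem_nil (mem_cons (L3568 D T h) mem_nil) cw16112
theorem W16135 : WFK w16135 := fun D T h => wf_of_chk h mem_nil (mem_cons (L3019 D T h) mem_nil) cw16135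
theorem W16149 : WFK w16149 := fun D T h => wf_of_chk h mem_nil (mem_cons (L413 D T h) mem_nil) cw16149
theorem W16152 : WFK w16152 := fun D T h => wf_of_chk h mem_nil (mem_cons (L1699 D T h) mem_nil) cw16152
theorem W16163 : WFK w16163 := fun D T h => wf_of_chk h mem_nil (mem_cons (L2057 D T h) mem_nil) cw16163
theorem L3577 : LFK l3577 := fun D T h => lf_of_chk h (mem_cons (W429 D T h) (mem_cons (W819 D T h) (mem_cons (W16 D T h) (mem_cons (W2766 D T h) (mem_cons (W5459 D T h) (mem_cons (W39 D T h) (mem_cons (W6742 D T h) (mem_cons (W9146 D T h) (mem_cons (W3760 D T h) (mem_cons (W4499 D T h) (mem_cons (W1540 D T h) (mem_cons (W2632 D T h) (mem_cons (W16163 D T h) mem_nil))))))))))))) cl3577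
theorem L3578 : LFK l3578 := fun D T h => lf_of_chk h (mem_cons (W3766 D T h) (mem_cons (W5606 D T h) (mem_cons (W9125 D T h) (mem_cons (W39 D T h) (mem_cons (W3 D T h) (mem_cons (W6579 D T h) mem_nil)))))) cl3578
theorem L3579 : LFK l3579 := fun D T h => lf_of_chk h (mem_cons (W3766 D T h) (mem_cons (W5606 D T h) (mem_cons (W9125 D T h) (mem_cons (W39 D T h) (mem_cons (W3 D T h) (mem_cons (W431 D T h) (mem_cons (W2764 D T h) (mem_cons (W15954 D T h) (mem_cons (W160 D T h) (mem_cons (W1540 D T h) (mem_cons (W926 D T h) (mem_cons (W1489 D T h) mem_nil)))))))))))) cl3579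
theorem L3580 : LFK l3580 := fun D T h => lf_of_chk h (mem_cons (W3766 D T h) (mem_cons (W5606 D T h) (mem_cons (W9125 D T h) (mem_cons (W39 D T h) (mem_cons (W3 D T h) (mem_cons (W3759 D T h) mem_nil)))))) cl3580
theorem L3582 : LFK l3582 := fun D T h => lf_of_chk h (mem_cons (W1139 D T h) (mem_cons (W15 D T h) (mem_cons (W1064 D T h) (mem_cons (W1554 D T h) (mem_cons (W981 D T h) (mem_cons (W170 D T h) (mem_cons (W220 D T h) (mem_cons (W15786 D T h) (mem_cons (W7076 D T h) (mem_cons (W1326 D T h) (mem_cons (W1325 D T h) (mem_cons (W5585 D T h) (mem_cons (W15827 D T h) (mem_cons (W8398 D T h) (mem_cons (W6968 D T h) mem_nil))))))))))))))) cl3582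
theorem W16169 : WFK w16169 := fun D T h => wf_of_chk h mem_nil (mem_cons (L3582 D T h) mem_nil) cw16169
theorem W16170 : WFK w16170 := fun D T h => wf_of_chk h (mem_cons (W164 D T h) mem_nil) mem_nil cw16170
theorem W16173 : WFK w16173 := fun D T h => wf_of_chk h mem_nil (mem_cons (L2790 D T h) mem_nil) cw16173
theorem W16174 : WFK w16174 := fun D T h => wf_of_chk h mem_nil (mem_cons (L3577 D T h) mem_nil) cw16174
theorem W16175 : WFK w16175 := fun D T h => wf_of_chk h mem_nil (mem_cons (L3578 D T h) mem_nil) cw16175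
theorem W16176 : WFK w16176 := fun D T h => wf_of_chk h mem_nil (mem_cons (L3579 D T h) mem_nil) cw16176
theorem W16177 : WFK w16177 := fun D T h => wf_of_chk h mem_nil (mem_cons (L3580 D T h) mem_nil) cw16177
theorem W16178 : WFK w16178 := fun D T h => wf_of_chk h mem_nil (mem_cons (L3485 D T h) mem_nil) cw16178
theorem W16179 : WFK w16179 := fun D T h => wf_of_chk h mem_nil (mem_cons (L3485 D T h) mem_nil) cw16179
theorem L3584 : LFK l3584 := fun D T h => lf_of_chk h (mem_cons (W871 D T h) (mem_cons (W6960 D T h) (mem_cons (W864 D T h) (mem_cons (W3760 D T h) (mem_cons (W5794 D T h) mem_nil))))) cl3584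
theorem W16180 : WFK w16180 := fun D T h => wf_of_chk h mem_nil (mem_cons (L3584 D T h) mem_nil) cw16180
theorem W16181 : WFK w16181 := fun D T h => wf_of_chk h mem_nil mem_nil cw16181
theorem W16182 : WFK w16182 := fun D T h => wf_of_chk h mem_nil (mem_cons (L2794 D T h) mem_nil) cw16182
theorem L3585 : LFK l3585 := fun D T h => lf_of_chk h (mem_cons (W16173 D T h) (mem_cons (W10482 D T h) (mem_cons (W820 D T h) (mem_cons (W4906 D T h) (mem_cons (W174 D T h) (mem_cons (W16 D T h) (mem_cons (W6960 D T h) (mem_cons (W15126 D T h) (mem_cons (W5822 D T h) (mem_cons (W16182 D T h) (mem_cons (W6714 D T h) (mem_cons (W5841 D T h) (mem_cons (W871 D T h) (mem_cons (W848 D T h) (mem_cons (W12399 D T h) (mem_cons (W15825 D T h) (mem_cons (W16178 D T h) (mem_cons (W16179 D T h) (mem_cons (W1139 D T h) (mem_cons (W16180 D T h) (mem_cons (W429 D T h) (mem_cons (W5490 D T h) (mem_cons (W16181 D T h) (mem_cons (W16174 D T h) (mem_cons (W638 D T h) (mem_cons (W16175 D T h) (mem_cons (W16176 D T h) (mem_cons (W16177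 D T h) mem_nil)))))))))))))))))))))))))))) cl3585
theorem W16183 : WFK w16183 := fun D T h => wf_of_chk h mem_nil (mem_cons (L3585 D T h) mem_nil) cw16183
theorem W16208 : WFK w16208 := fun D T h => wf_of_chk h mem_nil (mem_cons (L3486 D T h) mem_nil) cw16208
theorem W16213 : WFK w16213 := fun D T h => wf_of_chk h (mem_cons (W16 D T h) mem_nil) mem_nil cw16213
theorem L3597 : LFK l3597 := fun D T h => lf_of_chk h (mem_cons (W1502 D T h) (mem_cons (W284 D T h) (mem_cons (W2934 D T h) (mem_cons (W16 D T h) (mem_cons (W14 D T h) (mem_cons (W3410 D T h) (mem_cons (W1309 D T h) (mem_cons (W1310 D T h) (mem_cons (W702 D T h) (mem_cons (W15122 D T h) (mem_cons (W24 D T h) (mem_cons (W7623 D T h) (mem_cons (W1398 D T h) (mem_cons (W6436 D T h) (mem_cons (W6777 D T h) (mem_cons (W1523 D T h) (mem_cons (W7942 D T h) (mem_cons (W6326 D T h) (mem_cons (W3666 D T h) (mem_cons (W42 D T h) (mem_cons (W7872 D T h) (mem_cons (W2050 D T h) (mem_cons (W13596 D T h) (mem_cons (W2051 D T h) (mem_cons (W342 D T h)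 (mem_cons (W341 D T h) (mem_cons (W2219 D T h) (mem_cons (W358 D T h) (mem_cons (W1396 D T h) (mem_cons (W50 D T h) mem_nil)))))))))))))))))))))))))))))) cl3597
theorem W16233 : WFK w16233 := fun D T h => wf_of_chk h mem_nil (mem_cons (L3597 D T h) mem_nil) cw16233
theorem W16240 : WFK w16240 := fun D T h => wf_of_chk h mem_nil (mem_cons (L3485 D T h) mem_nil) cw16240
theorem L3612 : LFK l3612 := fun D T h => lf_of_chk h (mem_cons (W219 D T h) (mem_cons (W15 D T h) (mem_cons (W158 D T h) (mem_cons (W141 D T h) (mem_cons (W5158 D T h) (mem_cons (W2799 D T h) (mem_cons (W9595 D T h) (mem_cons (W2797 D T h) (mem_cons (W11149 D T h) (mem_cons (W499 D T h) mem_nil)))))))))) cl3612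
theorem W16269 : WFK w16269 := fun D T h => wf_of_chk h (mem_cons (W158 D T h) mem_nil) mem_nil cw16269
theorem W16271 : WFK w16271 := fun D T h => wf_of_chk h (mem_cons (W15760 D T h) mem_nil) mem_nil cw16271
theorem L3615 : LFK l3615 := fun D T h => lf_of_chk h (mem_cons (W3566 D T h) (mem_cons (W15 D T h) (mem_cons (W802 D T h) (mem_cons (W141 D T h) (mem_cons (W5158 D T h) (mem_cons (W5453 D T h) (mem_cons (W3855 D T h) (mem_cons (W396 D T h) (mem_cons (W5452 D T h) (mem_cons (W3860 D T h) (mem_cons (W5456 D T h) (mem_cons (W5457 D T h) (mem_cons (W1707 D T h) (mem_cons (W5460 D T h) (mem_cons (W1131 D T h) (mem_cons (W2922 D T h) (mem_cons (W1132 D T h) mem_nil))))))))))))))))) cl3615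
theorem W16278 : WFK w16278 := fun D T h => wf_of_chk h mem_nil (mem_cons (L3615 D T h) mem_nil) cw16278
theorem W16280 : WFK w16280 := fun D T h => wf_of_chk h mem_nil (mem_cons (L3612 D T h) mem_nil) cw16280
theorem W16282 : WFK w16282 := fun D T h => wf_of_chk h (mem_cons (W714 D T h) (mem_cons (W16 D T h) mem_nil)) mem_nil cw16282
theorem W16287 : WFK w16287 := fun D T h => wf_of_chk h (mem_cons (W1919 D T h) (mem_cons (W16 D T h) mem_nil)) mem_nil cw16287
theorem W16319 : WFK w16319 := fun D T h => wf_of_chk h mem_nil (mem_cons (L117 D T h) mem_nil) cw16319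
theorem W16366 : WFK w16366 := fun D T h => wf_of_chk h mem_nil (mem_cons (L3461 D T h) mem_nil) cw16366
theorem W16375 : WFK w16375 := fun D T h => wf_of_chk h mem_nil (mem_cons (L1253 D T h) mem_nil) cw16375
theorem W16379 : WFK w16379 := fun D T h => wf_of_chk h mem_nil (mem_cons (L3486 D T h) mem_nil) cw16379
theorem W16414 : WFK w16414 := fun D T h => wf_of_chk h mem_nil (mem_cons (L823 D T h) mem_nil) cw16414
theorem W16420 : WFK w16420 := fun D T h => wf_of_chk h mem_nil (mem_cons (L1272 D T h) mem_nil) cw16420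
theorem W16441 : WFK w16441 := fun D T h => wf_of_chk h mem_nil (mem_cons (L3485 D T h) mem_nil) cw16441
theorem W16447 : WFK w16447 := fun D T h => wf_of_chk h mem_nil (mem_cons (L3238 D T h) mem_nil) cw16447
theorem L3664 : LFK l3664 := fun D T h => lf_of_chk h (mem_cons (W152 D T h) (mem_cons (W815 D T h) (mem_cons (W1535 D T h) (mem_cons (W8980 D T h) (mem_cons (W281 D T h) (mem_cons (W9125 D T h) (mem_cons (W3 D T h) (mem_cons (W39 D T h) (mem_cons (W86 D T h) (mem_cons (W1564 D T h) (mem_cons (W16447 D T h) (mem_cons (W9 D T h) (mem_cons (W1489 D T h) (mem_cons (W160 D T h) (mem_cons (W926 D T h) (mem_cons (W1540 D T h) mem_nil)))))))))))))))) cl3664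
theorem W16448 : WFK w16448 := fun D T h => wf_of_chk h mem_nil (mem_cons (L3664 D T h) mem_nil) cw16448
theorem W16457 : WFK w16457 := fun D T h => wf_of_chk h (mem_cons (W16 D T h) mem_nil) mem_nil cw16457
theorem W16463 : WFK w16463 := fun D T h => wf_of_chk h mem_nil (mem_cons (L1272 D T h) mem_nil) cw16463
theorem W16464 : WFK w16464 := fun D T h => wf_of_chk h mem_nil (mem_cons (L1258 D T h) mem_nil) cw16464
theorem W16473 : WFK w16473 := fun D T h => wf_of_chk h (mem_cons (W16 D T h) (mem_cons (W6719 D T h) mem_nil)) mem_nil cw16473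
theorem W16477 : WFK w16477 := fun D T h => wf_of_chk h (mem_cons (W16 D T h) (mem_cons (W3766 D T h) mem_nil)) mem_nil cw16477
theorem L3671 : LFK l3671 := fun D T h => lf_of_chk h (mem_cons (W15784 D T h) (mem_cons (W15786 D T h) (mem_cons (W15 D T h) (mem_cons (W220 D T h) (mem_cons (W17 D T h) (mem_cons (W7212 D T h) (mem_cons (W6360 D T h) mem_nil))))))) cl3671
theorem L3678 : LFK l3678 := fun D T h => lf_of_chk h (mem_cons (W15784 D T h) (mem_cons (W15 D T h) (mem_cons (W15786 D T h) (mem_cons (W220 D T h) (mem_cons (W11704 D T h) (mem_cons (W7212 D T h) (mem_cons (W164 D T h) (mem_cons (W42 D T h) (mem_cons (W2918 D T h) (mem_cons (W2912 D T h) mem_nil)))))))))) cl3678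
theorem W16497 : WFK w16497 := fun D T h => wf_of_chk h mem_nil (mem_cons (L3678 D T h) mem_nil) cw16497
theorem W16499 : WFK w16499 := fun D T h => wf_of_chk h mem_nil (mem_cons (L3485 D T h) mem_nil) cw16499
theorem L3683 : LFK l3683 := fun D T h => lf_of_chk h mem_nil cl3683
theorem L3684 : LFK l3684 := fun D T h => lf_of_chk h (mem_cons (W15786 D T h) (mem_cons (W164 D T h) (mem_cons (W33 D T h) (mem_cons (W78 D T h) (mem_cons (W391 D T h) (mem_cons (W105 D T h) (mem_cons (W1 D T h) (mem_cons (W16 D T h) (mem_cons (W69 D T h) (mem_cons (W970 D T h) (mem_cons (W1307 D T h) (mem_cons (W1205 D T h) mem_nil)))))))))))) cl3684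
theorem W16535 : WFK w16535 := fun D T h => wf_of_chk h mem_nil (mem_cons (L3684 D T h) mem_nil) cw16535
theorem W16560 : WFK w16560 := fun D T h => wf_of_chk h mem_nil (mem_cons (L145 D T h) mem_nil) cw16560
theorem L3691 : LFK l3691 := fun D T h => lf_of_chk h (mem_cons (W42 D T h) (mem_cons (W3 D T h) (mem_cons (W39 D T h) (mem_cons (W226 D T h) (mem_cons (W6971 D T h) (mem_cons (W9166 D T h) (mem_cons (W86 D T h) (mem_cons (W3378 D T h) (mem_cons (W754 D T h) mem_nil))))))))) cl3691
theorem W16562 : WFK w16562 := fun D T h => wf_of_chk h mem_nil (mem_cons (L3691 D T h) mem_nil) cw16562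
theorem W16564 : WFK w16564 := fun D T h => wf_of_chk h mem_nil (mem_cons (L3691 D T h) mem_nil) cw16564
theorem W16566 : WFK w16566 := fun D T h => wf_of_chk h mem_nil (mem_cons (L3691 D T h) mem_nil) cw16566
theorem W16580 : WFK w16580 := fun D T h => wf_of_chk h (mem_cons (W16 D T h) (mem_cons (W3766 D T h) mem_nil)) mem_nil cw16580
theorem W16604 : WFK w16604 := fun D T h => wf_of_chk h mem_nil (mem_cons (L3478 D T h) mem_nil) cw16604
theorem W16669 : WFK w16669 := fun D T h => wf_of_chk h mem_nil mem_nil cw16669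
theorem L3715 : LFK l3715 := fun D T h => lf_of_chk h (mem_cons (W2766 D T h) (mem_cons (W10673 D T h) (mem_cons (W10676 D T h) (mem_cons (W831 D T h) (mem_cons (W7171 D T h) mem_nil))))) cl3715
theorem W16714 : WFK w16714 := fun D T h => wf_of_chk h mem_nil (mem_cons (L862 D T h) mem_nil) cw16714
theorem W16734 : WFK w16734 := fun D T h => wf_of_chk h mem_nil (mem_cons (L57 D T h) mem_nil) cw16734
theorem L3723 : LFK l3723 := fun D T h => lf_of_chk h (mem_cons (W8205 D T h) (mem_cons (W2922 D T h) (mem_cons (W1330 D T h) (mem_cons (W4319 D T h) (mem_cons (W15 D T h) (mem_cons (W4 D T h) (mem_cons (W33 D T h) (mem_cons (W576 D T h) (mem_cons (W4192 D T h) (mem_cons (W904 D T h) (mem_cons (W858 D T h) (mem_cons (W1707 D T h) (mem_cons (W4368 D T h) (mem_cons (W1367 D T h) (mem_cons (W4369 D T h) (mem_cons (W16734 D T h) mem_nil)))))))))))))))) cl3723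
theorem W16746 : WFK w16746 := fun D T h => wf_of_chk h mem_nil (mem_cons (L1258 D T h) mem_nil) cw16746
theorem W16750 : WFK w16750 := fun D T h => wf_of_chk h mem_nil (mem_cons (L1557 D T h) mem_nil) cw16750
theorem W16751 : WFK w16751 := fun D T h => wf_of_chk h mem_nil (mem_cons (L1537 D T h) mem_nil) cw16751
theorem W16754 : WFK w16754 := fun D T h => wf_of_chk h mem_nil (mem_cons (L1537 D T h) mem_nil) cw16754
theorem L3725 : LFK l3725 := fun D T h => lf_of_chk h (mem_cons (W16746 D T h) (mem_cons (W15 D T h) (mem_cons (W10984 D T h) (mem_cons (W1554 D T h) (mem_cons (W5176 D T h) (mem_cons (W6706 D T h) (mem_cons (W7544 D T h) (mem_cons (W8981 D T h) (mem_cons (W16734 D T h) (mem_cons (W256 D T h) (mem_cons (W2648 D T h) (mem_cons (W6708 D T h) (mem_cons (W6710 D T h) (mem_cons (W6691 D T h) (mem_cons (W16750 D T h) (mem_cons (W797 D T h) (mem_cons (W16751 D T h) (mem_cons (W16754 D T h) (mem_cons (W152 D T h) (mem_cons (W153 D T h) (mem_cons (W6700 D T h) (mem_cons (W8984 D T h) (mem_cons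 (W2664 D T h) (mem_cons (W6701 D T h) (mem_cons (W6703 D T h) mem_nil))))))))))))))))))))))))) cl3725
theorem W16755 : WFK w16755 := fun D T h => wf_of_chk h mem_nil (mem_cons (L3725 D T h) mem_nil) cw16755
theorem W16792 : WFK w16792 := fun D T h => wf_of_chk h (mem_cons (W16457 D T h) (mem_cons (W16 D T h) mem_nil)) mem_nil cw16792
theorem W16860 : WFK w16860 := fun D T h => wf_of_chk h mem_nil (mem_cons (L40 D T h) mem_nil) cw16860
theorem L3753 : LFK l3753 := fun D T h => lf_of_chk h (mem_cons (W3 D T h) (mem_cons (W211 D T h) (mem_cons (W6958 D T h) mem_nil))) cl3753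
theorem W16920 : WFK w16920 := fun D T h => wf_of_chk h mem_nil (mem_cons (L3671 D T h) mem_nil) cw16920
theorem W16932 : WFK w16932 := fun D T h => wf_of_chk h mem_nil (mem_cons (L3478 D T h) mem_nil) cw16932
theorem L3766 : LFK l3766 := fun D T h => lf_of_chk h (mem_cons (W5606 D T h) (mem_cons (W7171 D T h) mem_nil)) cl3766
theorem W16972 : WFK w16972 := fun D T h => wf_of_chk h mem_nil (mem_cons (L3478 D T h) mem_nil) cw16972
theorem W16977 : WFK w16977 := fun D T h => wf_of_chk h mem_nil (mem_cons (L3715 D T h) mem_nil) cw16977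
theorem W17031 : WFK w17031 := fun D T h => wf_of_chk h (mem_cons (W15784 D T h) mem_nil) mem_nil cw17031
theorem W17032 : WFK w17032 := fun D T h => wf_of_chk h (mem_cons (W9056 D T h) (mem_cons (W368 D T h) mem_nil)) mem_nil cw17032
theorem L3780 : LFK l3780 := fun D T h => lf_of_chk h (mem_cons (W12 D T h) (mem_cons (W2124 D T h) mem_nil)) cl3780
theorem W17053 : WFK w17053 := fun D T h => wf_of_chk h mem_nil (mem_cons (L3780 D T h) mem_nil) cw17053
theorem W17065 : WFK w17065 := fun D T h => wf_of_chk h mem_nil (mem_cons (L860 D T h) mem_nil) cw17065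
theorem W17073 : WFK w17073 := fun D T h => wf_of_chk h mem_nil (mem_cons (L2021 D T h) mem_nil) cw17073
theorem L3784 : LFK l3784 := fun D T h => lf_of_chk h (mem_cons (W5606 D T h) (mem_cons (W198 D T h) mem_nil)) cl3784
theorem W17082 : WFK w17082 := fun D T h => wf_of_chk h mem_nil (mem_cons (L3766 D T h) mem_nil) cw17082
theorem W17083 : WFK w17083 := fun D T h => wf_of_chk h mem_nil (mem_cons (L3784 D T h) mem_nil) cw17083
theorem W17084 : WFK w17084 := fun D T h => wf_of_chk h (mem_cons (W13569 D T h) mem_nil) mem_nil cw17084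
theorem W17085 : WFK w17085 := fun D T h => wf_of_chk h (mem_cons (W2740 D T h) mem_nil) mem_nil cw17085
theorem L3786 : LFK l3786 := fun D T h => lf_of_chk h (mem_cons (W15784 D T h) (mem_cons (W5606 D T h) (mem_cons (W16972 D T h) (mem_cons (W149 D T h) (mem_cons (W15786 D T h) (mem_cons (W17073 D T h) (mem_cons (W2085 D T h) (mem_cons (W17082 D T h) (mem_cons (W17083 D T h) (mem_cons (W164 D T h) (mem_cons (W17084 D T h) (mem_cons (W42 D T h) (mem_cons (W17085 D T h) mem_nil))))))))))))) cl3786
theorem W17086 : WFK w17086 := fun D T h => wf_of_chk h mem_nil (mem_cons (L3786 D T h) mem_nil) cw17086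
theorem W17120 : WFK w17120 := fun D T h => wf_of_chk h mem_nil (mem_cons (L1546 D T h) mem_nil) cw17120
theorem W17121 : WFK w17121 := fun D T h => wf_of_chk h mem_nil (mem_cons (L1546 D T h) mem_nil) cw17121
theorem W17132 : WFK w17132 := fun D T h => wf_of_chk h (mem_cons (W16 D T h) mem_nil) mem_nil cw17132
theorem W17133 : WFK w17133 := fun D T h => wf_of_chk h mem_nil (mem_cons (L861 D T h) mem_nil) cw17133
theorem W17134 : WFK w17134 := fun D T h => wf_of_chk h mem_nil (mem_cons (L864 D T h) mem_nil) cw17134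
theorem W17135 : WFK w17135 := fun D T h => wf_of_chk h mem_nil (mem_cons (L1968 D T h) mem_nil) cw17135
theorem W17136 : WFK w17136 := fun D T h => wf_of_chk h mem_nil (mem_cons (L1967 D T h) mem_nil) cw17136
theorem L3797 : LFK l3797 := fun D T h => lf_of_chk h (mem_cons (W15784 D T h) (mem_cons (W9056 D T h) (mem_cons (W15786 D T h) (mem_cons (W16972 D T h) (mem_cons (W638 D T h) (mem_cons (W17132 D T h) (mem_cons (W17133 D T h) (mem_cons (W17134 D T h) (mem_cons (W42 D T h) (mem_cons (W17135 D T h) (mem_cons (W164 D T h) (mem_cons (W17136 D T h) mem_nil)))))))))))) cl3797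
theorem W17137 : WFK w17137 := fun D T h => wf_of_chk h mem_nil (mem_cons (L3797 D T h) mem_nil) cw17137
theorem W17141 : WFK w17141 := fun D T h => wf_of_chk h (mem_cons (W9056 D T h) (mem_cons (W37 D T h) mem_nil)) mem_nil cw17141
theorem W17142 : WFK w17142 := fun D T h => wf_of_chk h mem_nil (mem_cons (L861 D T h) mem_nil) cw17142
theorem L3798 : LFK l3798 := fun D T h => lf_of_chk h (mem_cons (W15784 D T h) (mem_cons (W6719 D T h) (mem_cons (W15786 D T h) (mem_cons (W638 D T h) (mem_cons (W16972 D T h) (mem_cons (W14779 D T h) (mem_cons (W7390 D T h) (mem_cons (W17142 D T h) (mem_cons (W42 D T h) (mem_cons (W11922 D T h) (mem_cons (W164 D T h) (mem_cons (W11923 D T h) mem_nil)))))))))))) cl3798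
theorem W17153 : WFK w17153 := fun D T h => wf_of_chk h mem_nil (mem_cons (L3478 D T h) mem_nil) cw17153
theorem W17178 : WFK w17178 := fun D T h => wf_of_chk h (mem_cons (W6719 D T h) mem_nil) mem_nil cw17178
theorem W17192 : WFK w17192 := fun D T h => wf_of_chk h (mem_cons (W16 D T h) mem_nil) mem_nil cw17192
theorem W17193 : WFK w17193 := fun D T h => wf_of_chk h mem_nil (mem_cons (L1968 D T h) mem_nil) cw17193
theorem L3808 : LFK l3808 := fun D T h => lf_of_chk h (mem_cons (W284 D T h) (mem_cons (W128 D T h) (mem_cons (W261 D T h) (mem_cons (W1139 D T h) (mem_cons (W15 D T h) (mem_cons (W15784 D T h) (mem_cons (W5721 D T h) (mem_cons (W3766 D T h) (mem_cons (W5633 D T h) (mem_cons (W6613 D T h) (mem_cons (W2037 D T h) mem_nil))))))))))) cl3808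
theorem W17197 : WFK w17197 := fun D T h => wf_of_chk h mem_nil (mem_cons (L3808 D T h) mem_nil) cw17197
theorem W17201 : WFK w17201 := fun D T h => wf_of_chk h mem_nil (mem_cons (L1073 D T h) mem_nil) cw17201
theorem W17212 : WFK w17212 := fun D T h => wf_of_chk h (mem_cons (W6719 D T h) (mem_cons (W37 D T h) mem_nil)) mem_nil cw17212
theorem W17218 : WFK w17218 := fun D T h => wf_of_chk h (mem_cons (W1473 D T h) (mem_cons (W16 D T h) mem_nil)) mem_nil cw17218
theorem W17266 : WFK w17266 := fun D T h => wf_of_chk h (mem_cons (W16 D T h) (mem_cons (W15784 D T h) mem_nil)) mem_nil cw17266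
theorem L3815 : LFK l3815 := fun D T h => lf_of_chk h (mem_cons (W5606 D T h) (mem_cons (W234 D T h) (mem_cons (W831 D T h) (mem_cons (W6867 D T h) (mem_cons (W6865 D T h) mem_nil))))) cl3815
theorem W17299 : WFK w17299 := fun D T h => wf_of_chk h mem_nil (mem_cons (L860 D T h) mem_nil) cw17299
theorem W17300 : WFK w17300 := fun D T h => wf_of_chk h (mem_cons (W16 D T h) (mem_cons (W5606 D T h) mem_nil)) mem_nil cw17300
theorem W17303 : WFK w17303 := fun D T h => wf_of_chk h mem_nil (mem_cons (L3308 D T h) mem_nil) cw17303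
theorem L3818 : LFK l3818 := fun D T h => lf_of_chk h (mem_cons (W5606 D T h) (mem_cons (W831 D T h) mem_nil)) cl3818
theorem W17307 : WFK w17307 := fun D T h => wf_of_chk h mem_nil (mem_cons (L3818 D T h) mem_nil) cw17307
theorem L3820 : LFK l3820 := fun D T h => lf_of_chk h (mem_cons (W15784 D T h) (mem_cons (W5606 D T h) (mem_cons (W16972 D T h) (mem_cons (W149 D T h) (mem_cons (W15786 D T h) (mem_cons (W17303 D T h) (mem_cons (W2085 D T h) (mem_cons (W17307 D T h) (mem_cons (W17082 D T h) (mem_cons (W164 D T h) (mem_cons (W42 D T h) (mem_cons (W17084 D T h) (mem_cons (W17085 D T h) mem_nil))))))))))))) cl3820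
theorem W17308 : WFK w17308 := fun D T h => wf_of_chk h mem_nil (mem_cons (L3820 D T h) mem_nil) cw17308
theorem W17396 : WFK w17396 := fun D T h => wf_of_chk h mem_nil (mem_cons (L3820 D T h) mem_nil) cw17396
theorem W17403 : WFK w17403 := fun D T h => wf_of_chk h (mem_cons (W9056 D T h) mem_nil) mem_nil cw17403
theorem L3835 : LFK l3835 := fun D T h => lf_of_chk h (mem_cons (W15786 D T h) (mem_cons (W1539 D T h) (mem_cons (W4 D T h) (mem_cons (W33 D T h) (mem_cons (W8 D T h) (mem_cons (W2492 D T h) (mem_cons (W6678 D T h) (mem_cons (W16041 D T h) (mem_cons (W16042 D T h) (mem_cons (W4374 D T h) mem_nil)))))))))) cl3835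
theorem W17406 : WFK w17406 := fun D T h => wf_of_chk h mem_nil (mem_cons (L3835 D T h) mem_nil) cw17406
theorem L3836 : LFK l3836 := fun D T h => lf_of_chk h (mem_cons (W5606 D T h) (mem_cons (W192 D T h) mem_nil)) cl3836
theorem W17409 : WFK w17409 := fun D T h => wf_of_chk h mem_nil (mem_cons (L3836 D T h) mem_nil) cw17409
theorem W17411 : WFK w17411 := fun D T h => wf_of_chk h (mem_cons (W161 D T h) mem_nil) mem_nil cw17411
theorem W17412 : WFK w17412 := fun D T h => wf_of_chk h (mem_cons (W161 D T h) mem_nil) mem_nil cw17412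
theorem L3837 : LFK l3837 := fun D T h => lf_of_chk h (mem_cons (W5606 D T h) (mem_cons (W831 D T h) (mem_cons (W7171 D T h) (mem_cons (W17411 D T h) (mem_cons (W17412 D T h) mem_nil))))) cl3837
theorem W17413 : WFK w17413 := fun D T h => wf_of_chk h mem_nil (mem_cons (L3837 D T h) mem_nil) cw17413
theorem W17425 : WFK w17425 := fun D T h => wf_of_chk h mem_nil mem_nil cw17425
theorem W17426 : WFK w17426 := fun D T h => wf_of_chk h mem_nil mem_nil cw17426
theorem L3843 : LFK l3843 := fun D T h => lf_of_chk h (mem_cons (W5606 D T h) (mem_cons (W831 D T h) (mem_cons (W1101 D T h) (mem_cons (W17425 D T h) (mem_cons (W17426 D T h) mem_nil))))) cl3843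
theorem W17427 : WFK w17427 := fun D T h => wf_of_chk h mem_nil (mem_cons (L3843 D T h) mem_nil) cw17427
theorem L3844 : LFK l3844 := fun D T h => lf_of_chk h (mem_cons (W1960 D T h) (mem_cons (W5606 D T h) (mem_cons (W109 D T h) (mem_cons (W16149 D T h) (mem_cons (W861 D T h) (mem_cons (W142 D T h) (mem_cons (W1805 D T h) (mem_cons (W603 D T h) (mem_cons (W1944 D T h) (mem_cons (W7408 D T h) (mem_cons (W903 D T h) (mem_cons (W17427 D T h) mem_nil)))))))))))) cl3844
theorem W17428 : WFK w17428 := fun D T h => wf_of_chk h mem_nil (mem_cons (L3844 D T h) mem_nil) cw17428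
theorem W17429 : WFK w17429 := fun D T h => wf_of_chk h mem_nil (mem_cons (L330 D T h) mem_nil) cw17429
theorem L3848 : LFK l3848 := fun D T h => lf_of_chk h (mem_cons (W15784 D T h) (mem_cons (W15786 D T h) (mem_cons (W15 D T h) (mem_cons (W220 D T h) (mem_cons (W17 D T h) (mem_cons (W16932 D T h) (mem_cons (W7212 D T h) (mem_cons (W8655 D T h) mem_nil)))))))) cl3848
theorem W17438 : WFK w17438 := fun D T h => wf_of_chk h mem_nil (mem_cons (L3848 D T h) mem_nil) cw17438
theorem W17459 : WFK w17459 := fun D T h => wf_of_chk h mem_nil (mem_cons (L753 D T h) mem_nil) cw17459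
theorem W17472 : WFK w17472 := fun D T h => wf_of_chk h (mem_cons (W9025 D T h) mem_nil) mem_nil cw17472
theorem W17476 : WFK w17476 := fun D T h => wf_of_chk h (mem_cons (W9025 D T h) (mem_cons (W368 D T h) mem_nil)) mem_nil cw17476
theorem W17481 : WFK w17481 := fun D T h => wf_of_chk h (mem_cons (W13569 D T h) (mem_cons (W16 D T h) mem_nil)) mem_nil cw17481
theorem W17482 : WFK w17482 := fun D T h => wf_of_chk h (mem_cons (W2740 D T h) (mem_cons (W16 D T h) mem_nil)) mem_nil cw17482
theorem L3852 : LFK l3852 := fun D T h => lf_of_chk h (mem_cons (W15784 D T h) (mem_cons (W6719 D T h) (mem_cons (W15786 D T h) (mem_cons (W16972 D T h) (mem_cons (W149 D T h) (mem_cons (W17192 D T h) (mem_cons (W17197 D T h) (mem_cons (W17396 D T h) (mem_cons (W42 D T h) (mem_cons (W164 D T h) (mem_cons (W17481 D T h) (mem_cons (W17482 D T h) mem_nil)))))))))))) cl3852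
theorem W17524 : WFK w17524 := fun D T h => wf_of_chk h (mem_cons (W16 D T h) mem_nil) mem_nil cw17524
theorem W17530 : WFK w17530 := fun D T h => wf_of_chk h (mem_cons (W15784 D T h) (mem_cons (W16 D T h) mem_nil)) mem_nil cw17530
theorem L3856 : LFK l3856 := fun D T h => lf_of_chk h (mem_cons (W3766 D T h) (mem_cons (W1473 D T h) (mem_cons (W16 D T h) (mem_cons (W17409 D T h) (mem_cons (W39 D T h) (mem_cons (W3 D T h) (mem_cons (W461 D T h) (mem_cons (W16977 D T h) mem_nil)))))))) cl3856
theorem W17531 : WFK w17531 := fun D T h => wf_of_chk h mem_nil (mem_cons (L3856 D T h) mem_nil) cw17531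
theorem W17540 : WFK w17540 := fun D T h => wf_of_chk h mem_nil (mem_cons (L3485 D T h) mem_nil) cw17540
theorem L3861 : LFK l3861 := fun D T h => lf_of_chk h (mem_cons (W8633 D T h) (mem_cons (W8695 D T h) (mem_cons (W8632 D T h) (mem_cons (W8641 D T h) (mem_cons (W8642 D T h) mem_nil))))) cl3861
theorem W17547 : WFK w17547 := fun D T h => wf_of_chk h mem_nil (mem_cons (L3861 D T h) mem_nil) cw17547
theorem W17562 : WFK w17562 := fun D T h => wf_of_chk h mem_nil (mem_cons (L3485 D T h) mem_nil) cw17562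
theorem W17571 : WFK w17571 := fun D T h => wf_of_chk h mem_nil (mem_cons (L3485 D T h) mem_nil) cw17571
theorem W17572 : WFK w17572 := fun D T h => wf_of_chk h mem_nil (mem_cons (L3485 D T h) mem_nil) cw17572
theorem W17584 : WFK w17584 := fun D T h => wf_of_chk h mem_nil (mem_cons (L1 D T h) mem_nil) cw17584
theorem L3874 : LFK l3874 := fun D T h => lf_of_chk h (mem_cons (W15 D T h) (mem_cons (W281 D T h) (mem_cons (W33 D T h) (mem_cons (W149 D T h) (mem_cons (W153 D T h) (mem_cons (W17584 D T h) mem_nil)))))) cl3874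
theorem L3892 : LFK l3892 := fun D T h => lf_of_chk h (mem_cons (W5606 D T h) (mem_cons (W831 D T h) (mem_cons (W7171 D T h) (mem_cons (W6871 D T h) (mem_cons (W16669 D T h) mem_nil))))) cl3892
theorem W17641 : WFK w17641 := fun D T h => wf_of_chk h mem_nil (mem_cons (L3892 D T h) mem_nil) cw17641
theorem W17718 : WFK w17718 := fun D T h => wf_of_chk h mem_nil (mem_cons (L409 D T h) mem_nil) cw17718
theorem W17722 : WFK w17722 := fun D T h => wf_of_chk h mem_nil (mem_cons (L409 D T h) mem_nil) cw17722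
theorem W17786 : WFK w17786 := fun D T h => wf_of_chk h (mem_cons (W7114 D T h) (mem_cons (W368 D T h) mem_nil)) mem_nil cw17786
theorem W17790 : WFK w17790 := fun D T h => wf_of_chk h mem_nil (mem_cons (L3597 D T h) mem_nil) cw17790
theorem W17798 : WFK w17798 := fun D T h => wf_of_chk h mem_nil (mem_cons (L3683 D T h) mem_nil) cw17798
theorem L3926 : LFK l3926 := fun D T h => lf_of_chk h (mem_cons (W8609 D T h) (mem_cons (W42 D T h) (mem_cons (W2766 D T h) (mem_cons (W3 D T h) (mem_cons (W1564 D T h) (mem_cons (W431 D T h) (mem_cons (W2768 D T h) (mem_cons (W2769 D T h) (mem_cons (W1051 D T h) (mem_cons (W3766 D T h) mem_nil)))))))))) cl3926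
theorem W17839 : WFK w17839 := fun D T h => wf_of_chk h mem_nil (mem_cons (L3926 D T h) mem_nil) cw17839
theorem W17862 : WFK w17862 := fun D T h => wf_of_chk h mem_nil (mem_cons (L1550 D T h) mem_nil) cw17862
theorem W17873 : WFK w17873 := fun D T h => wf_of_chk h (mem_cons (W15784 D T h) (mem_cons (W16 D T h) mem_nil)) mem_nil cw17873
theorem W17875 : WFK w17875 := fun D T h => wf_of_chk h (mem_cons (W8638 D T h) (mem_cons (W16 D T h) mem_nil)) mem_nil cw17875
theorem W17892 : WFK w17892 := fun D T h => wf_of_chk h (mem_cons (W6719 D T h) (mem_cons (W16 D T h) mem_nil)) mem_nil cw17892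
theorem L3940 : LFK l3940 := fun D T h => lf_of_chk h (mem_cons (W8642 D T h) (mem_cons (W1033 D T h) (mem_cons (W1244 D T h) (mem_cons (W6614 D T h) (mem_cons (W8636 D T h) (mem_cons (W8641 D T h) mem_nil)))))) cl3940
theorem W17908 : WFK w17908 := fun D T h => wf_of_chk h mem_nil (mem_cons (L3940 D T h) mem_nil) cw17908
theorem W17935 : WFK w17935 := fun D T h => wf_of_chk h mem_nil (mem_cons (L974 D T h) mem_nil) cw17935
theorem W17950 : WFK w17950 := fun D T h => wf_of_chk h (mem_cons (W3766 D T h) mem_nil) mem_nil cw17950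
theorem W17951 : WFK w17951 := fun D T h => wf_of_chk h (mem_cons (W17031 D T h) (mem_cons (W162 D T h) mem_nil)) mem_nil cw17951
theorem W17979 : WFK w17979 := fun D T h => wf_of_chk h (mem_cons (W8638 D T h) (mem_cons (W37 D T h) mem_nil)) mem_nil cw17979
theorem W17986 : WFK w17986 := fun D T h => wf_of_chk h mem_nil (mem_cons (L1112 D T h) mem_nil) cw17986
theorem W18041 : WFK w18041 := fun D T h => wf_of_chk h mem_nil (mem_cons (L3129 D T h) mem_nil) cw18041
theorem W18058 : WFK w18058 := fun D T h => wf_of_chk h mem_nil (mem_cons (L1502 D T h) mem_nil) cw18058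
theorem W18059 : WFK w18059 := fun D T h => wf_of_chk h mem_nil (mem_cons (L1504 D T h) mem_nil) cw18059
theorem W18060 : WFK w18060 := fun D T h => wf_of_chk h mem_nil (mem_cons (L1503 D T h) mem_nil) cw18060
theorem W18075 : WFK w18075 := fun D T h => wf_of_chk h (mem_cons (W7212 D T h) mem_nil) mem_nil cw18075
theorem W18076 : WFK w18076 := fun D T h => wf_of_chk h (mem_cons (W6714 D T h) mem_nil) mem_nil cw18076
theorem W18077 : WFK w18077 := fun D T h => wf_of_chk h mem_nil (mem_cons (L3678 D T h) mem_nil) cw18077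
theorem W18080 : WFK w18080 := fun D T h => wf_of_chk h mem_nil (mem_cons (L3725 D T h) mem_nil) cw18080
theorem W18086 : WFK w18086 := fun D T h => wf_of_chk h mem_nil (mem_cons (L3725 D T h) mem_nil) cw18086
theorem W18098 : WFK w18098 := fun D T h => wf_of_chk h mem_nil (mem_cons (L2324 D T h) mem_nil) cw18098
theorem W18102 : WFK w18102 := fun D T h => wf_of_chk h mem_nil (mem_cons (L2396 D T h) mem_nil) cw18102
theorem L3995 : LFK l3995 := fun D T h => lf_of_chk h (mem_cons (W15784 D T h) (mem_cons (W16 D T h) (mem_cons (W86 D T h) (mem_cons (W93 D T h) (mem_cons (W220 D T h) (mem_cons (W15 D T h) (mem_cons (W15786 D T h) (mem_cons (W17 D T h) (mem_cons (W3409 D T h) (mem_cons (W7212 D T h) (mem_cons (W1398 D T h) mem_nil))))))))))) cl3995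
theorem W18112 : WFK w18112 := fun D T h => wf_of_chk h mem_nil (mem_cons (L3995 D T h) mem_nil) cw18112
theorem W18136 : WFK w18136 := fun D T h => wf_of_chk h (mem_cons (W667 D T h) (mem_cons (W16 D T h) mem_nil)) mem_nil cw18136
theorem W18137 : WFK w18137 := fun D T h => wf_of_chk h mem_nil (mem_cons (L1537 D T h) mem_nil) cw18137
theorem W18146 : WFK w18146 := fun D T h => wf_of_chk h mem_nil (mem_cons (L3485 D T h) mem_nil) cw18146
theorem W18157 : WFK w18157 := fun D T h => wf_of_chk h (mem_cons (W7387 D T h) (mem_cons (W16 D T h) mem_nil)) mem_nil cw18157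
theorem W18159 : WFK w18159 := fun D T h => wf_of_chk h mem_nil (mem_cons (L1835 D T h) mem_nil) cw18159
theorem W18165 : WFK w18165 := fun D T h => wf_of_chk h mem_nil (mem_cons (L3515 D T h) mem_nil) cw18165
theorem L4003 : LFK l4003 := fun D T h => lf_of_chk h (mem_cons (W15784 D T h) (mem_cons (W18165 D T h) (mem_cons (W16972 D T h) (mem_cons (W1206 D T h) (mem_cons (W15 D T h) (mem_cons (W15786 D T h) (mem_cons (W6108 D T h) (mem_cons (W12445 D T h) (mem_cons (W7212 D T h) (mem_cons (W164 D T h) (mem_cons (W42 D T h) (mem_cons (W2918 D T h) (mem_cons (W2912 D T h) mem_nil))))))))))))) cl4003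
theorem W18179 : WFK w18179 := fun D T h => wf_of_chk h mem_nil (mem_cons (L4003 D T h) mem_nil) cw18179
theorem W18180 : WFK w18180 := fun D T h => wf_of_chk h mem_nil (mem_cons (L3995 D T h) mem_nil) cw18180
theorem L4004 : LFK l4004 := fun D T h => lf_of_chk h (mem_cons (W8645 D T h) (mem_cons (W284 D T h) (mem_cons (W2934 D T h) (mem_cons (W937 D T h) (mem_cons (W179 D T h) (mem_cons (W16 D T h) (mem_cons (W17 D T h) (mem_cons (W3409 D T h) (mem_cons (W724 D T h) (mem_cons (W1931 D T h) (mem_cons (W15119 D T h) (mem_cons (W341 D T h) (mem_cons (W12445 D T h) (mem_cons (W11704 D T h) (mem_cons (W4416 D T h) (mem_cons (W435 D T h) (mem_cons (W1452 D T h) mem_nil))))))))))))))))) cl4004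
theorem W18184 : WFK w18184 := fun D T h => wf_of_chk h mem_nil (mem_cons (L4004 D T h) mem_nil) cw18184
theorem L4006 : LFK l4006 := fun D T h => lf_of_chk h (mem_cons (W429 D T h) (mem_cons (W281 D T h) (mem_cons (W819 D T h) (mem_cons (W1564 D T h) (mem_cons (W1371 D T h) (mem_cons (W16 D T h) (mem_cons (W153 D T h) (mem_cons (W16497 D T h) (mem_cons (W33 D T h) (mem_cons (W927 D T h) (mem_cons (W923 D T h) (mem_cons (W2632 D T h) (mem_cons (W1393 D T h) mem_nil))))))))))))) cl4006
theorem W18189 : WFK w18189 := fun D T h => wf_of_chk h mem_nil (mem_cons (L4006 D T h) mem_nil) cw18189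
theorem W18192 : WFK w18192 := fun D T h => wf_of_chk h mem_nil (mem_cons (L258 D T h) mem_nil) cw18192
theorem W18206 : WFK w18206 := fun D T h => wf_of_chk h mem_nil (mem_cons (L2816 D T h) mem_nil) cw18206
theorem W18211 : WFK w18211 := fun D T h => wf_of_chk h mem_nil (mem_cons (L300 D T h) mem_nil) cw18211
theorem L4017 : LFK l4017 := fun D T h => lf_of_chk h (mem_cons (W2764 D T h) (mem_cons (W8 D T h) (mem_cons (W211 D T h) mem_nil))) cl4017
theorem W18246 : WFK w18246 := fun D T h => wf_of_chk h mem_nil (mem_cons (L2346 D T h) mem_nil) cw18246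
theorem W18252 : WFK w18252 := fun D T h => wf_of_chk h mem_nil (mem_cons (L3495 D T h) mem_nil) cw18252
theorem L4023 : LFK l4023 := fun D T h => lf_of_chk h (mem_cons (W15 D T h) (mem_cons (W281 D T h) (mem_cons (W152 D T h) (mem_cons (W153 D T h) (mem_cons (W154 D T h) (mem_cons (W8683 D T h) (mem_cons (W18246 D T h) (mem_cons (W638 D T h) (mem_cons (W149 D T h) (mem_cons (W432 D T h) mem_nil)))))))))) cl4023
theorem W18253 : WFK w18253 := fun D T h => wf_of_chk h mem_nil (mem_cons (L4023 D T h) mem_nil) cw18253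
theorem W18271 : WFK w18271 := fun D T h => wf_of_chk h mem_nil (mem_cons (L1832 D T h) mem_nil) cw18271
theorem L4034 : LFK l4034 := fun D T h => lf_of_chk h (mem_cons (W114 D T h) (mem_cons (W281 D T h) (mem_cons (W972 D T h) (mem_cons (W67 D T h) (mem_cons (W16 D T h) (mem_cons (W86 D T h) (mem_cons (W80 D T h) (mem_cons (W105 D T h) (mem_cons (W7723 D T h) (mem_cons (W7552 D T h) (mem_cons (W5852 D T h) mem_nil))))))))))) cl4034
theorem W18296 : WFK w18296 := fun D T h => wf_of_chk h mem_nil (mem_cons (L4034 D T h) mem_nil) cw18296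
theorem L4035 : LFK l4035 := fun D T h => lf_of_chk h (mem_cons (W86 D T h) (mem_cons (W17584 D T h) (mem_cons (W2674 D T h) (mem_cons (W67 D T h) (mem_cons (W16 D T h) (mem_cons (W80 D T h) (mem_cons (W105 D T h) (mem_cons (W7723 D T h) (mem_cons (W7552 D T h) (mem_cons (W5852 D T h) (mem_cons (W114 D T h) mem_nil))))))))))) cl4035
theorem W18297 : WFK w18297 := fun D T h => wf_of_chk h mem_nil (mem_cons (L4035 D T h) mem_nil) cw18297
theorem L4036 : LFK l4036 := fun D T h => lf_of_chk h (mem_cons (W17 D T h) (mem_cons (W669 D T h) (mem_cons (W177 D T h) (mem_cons (W3774 D T h) (mem_cons (W203 D T h) (mem_cons (W18296 D T h) (mem_cons (W3 D T h) (mem_cons (W200 D T h) (mem_cons (W199 D T h) (mem_cons (W201 D T h) (mem_cons (W18297 D T h) mem_nil))))))))))) cl4036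
theorem W18309 : WFK w18309 := fun D T h => wf_of_chk h (mem_cons (W177 D T h) mem_nil) mem_nil cw18309
theorem W18319 : WFK w18319 := fun D T h => wf_of_chk h mem_nil (mem_cons (L1268 D T h) mem_nil) cw18319
theorem L4046 : LFK l4046 := fun D T h => lf_of_chk h (mem_cons (W158 D T h) mem_nil) cl4046
theorem W18330 : WFK w18330 := fun D T h => wf_of_chk h mem_nil (mem_cons (L4046 D T h) mem_nil) cw18330
theorem W18331 : WFK w18331 := fun D T h => wf_of_chk h (mem_cons (W158 D T h) mem_nil) mem_nil cw18331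
theorem W18346 : WFK w18346 := fun D T h => wf_of_chk h mem_nil (mem_cons (L3227 D T h) mem_nil) cw18346
theorem W18348 : WFK w18348 := fun D T h => wf_of_chk h mem_nil (mem_cons (L3227 D T h) mem_nil) cw18348
theorem W18360 : WFK w18360 := fun D T h => wf_of_chk h (mem_cons (W15810 D T h) (mem_cons (W16 D T h) mem_nil)) mem_nil cw18360
theorem W18364 : WFK w18364 := fun D T h => wf_of_chk h mem_nil (mem_cons (L3230 D T h) mem_nil) cw18364
theorem W18366 : WFK w18366 := fun D T h => wf_of_chk h mem_nil (mem_cons (L3230 D T h) mem_nil) cw18366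
theorem W18375 : WFK w18375 := fun D T h => wf_of_chk h (mem_cons (W3898 D T h) (mem_cons (W1063 D T h) mem_nil)) mem_nil cw18375
theorem W18378 : WFK w18378 := fun D T h => wf_of_chk h mem_nil (mem_cons (L1915 D T h) mem_nil) cw18378
theorem W18379 : WFK w18379 := fun D T h => wf_of_chk h (mem_cons (W1065 D T h) (mem_cons (W37 D T h) mem_nil)) mem_nil cw18379
theorem W18392 : WFK w18392 := fun D T h => wf_of_chk h (mem_cons (W1063 D T h) (mem_cons (W37 D T h) mem_nil)) mem_nil cw18392
theorem W18406 : WFK w18406 := fun D T h => wf_of_chk h (mem_cons (W6714 D T h) mem_nil) mem_nil cw18406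
theorem L4060 : LFK l4060 := fun D T h => lf_of_chk h (mem_cons (W220 D T h) (mem_cons (W143 D T h) (mem_cons (W2503 D T h) (mem_cons (W80 D T h) (mem_cons (W33 D T h) (mem_cons (W871 D T h) mem_nil)))))) cl4060
theorem W18434 : WFK w18434 := fun D T h => wf_of_chk h (mem_cons (W461 D T h) (mem_cons (W16 D T h) mem_nil)) mem_nil cw18434
theorem W18453 : WFK w18453 := fun D T h => wf_of_chk h mem_nil (mem_cons (L391 D T h) mem_nil) cw18453
theorem W18458 : WFK w18458 := fun D T h => wf_of_chk h (mem_cons (W1929 D T h) (mem_cons (W16 D T h) mem_nil)) mem_nil cw18458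
theorem W18468 : WFK w18468 := fun D T h => wf_of_chk h (mem_cons (W3 D T h) (mem_cons (W16 D T h) mem_nil)) mem_nil cw18468
theorem W18469 : WFK w18469 := fun D T h => wf_of_chk h mem_nil (mem_cons (L2472 D T h) mem_nil) cw18469
theorem W18475 : WFK w18475 := fun D T h => wf_of_chk h (mem_cons (W39 D T h) (mem_cons (W16 D T h) mem_nil)) mem_nil cw18475
theorem W18483 : WFK w18483 := fun D T h => wf_of_chk h mem_nil (mem_cons (L300 D T h) mem_nil) cw18483
theorem W18484 : WFK w18484 := fun D T h => wf_of_chk h mem_nil (mem_cons (L1146 D T h) mem_nil) cw18484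
theorem W18497 : WFK w18497 := fun D T h => wf_of_chk h mem_nil (mem_cons (L3515 D T h) mem_nil) cw18497
theorem W18528 : WFK w18528 := fun D T h => wf_of_chk h (mem_cons (W267 D T h) (mem_cons (W16 D T h) mem_nil)) mem_nil cw18528
theorem W18533 : WFK w18533 := fun D T h => wf_of_chk h mem_nil (mem_cons (L1146 D T h) mem_nil) cw18533
theorem W18534 : WFK w18534 := fun D T h => wf_of_chk h (mem_cons (W4276 D T h) (mem_cons (W16 D T h) mem_nil)) mem_nil cw18534
theorem L4090 : LFK l4090 := fun D T h => lf_of_chk h (mem_cons (W12944 D T h) (mem_cons (W6820 D T h) (mem_cons (W16 D T h) (mem_cons (W6326 D T h) (mem_cons (W6327 D T h) (mem_cons (W3036 D T h) (mem_cons (W2015 D T h) (mem_cons (W12951 D T h) (mem_cons (W9025 D T h) (mem_cons (W12203 D T h) (mem_cons (W18534 D T h) (mem_cons (W13994 D T h) (mem_cons (W3018 D T h) (mem_cons (W128 D T h) (mem_cons (W6428 D T h) (mem_cons (W3030 D T h) (mem_cons (W3029 D T h) (mem_cons (W6425 D T h) (mem_cons (W799 D T h) (mem_cons (W3034 D T h) (mem_cons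 (W3042 D T h) (mem_cons (W3045 D T h) (mem_cons (W3043 D T h) (mem_cons (W18528 D T h) mem_nil)))))))))))))))))))))))) cl4090
theorem W18537 : WFK w18537 := fun D T h => wf_of_chk h mem_nil (mem_cons (L2023 D T h) mem_nil) cw18537
theorem W18544 : WFK w18544 := fun D T h => wf_of_chk h mem_nil (mem_cons (L1939 D T h) mem_nil) cw18544
theorem L4095 : LFK l4095 := fun D T h => lf_of_chk h (mem_cons (W17 D T h) mem_nil) cl4095
theorem W18545 : WFK w18545 := fun D T h => wf_of_chk h mem_nil (mem_cons (L4095 D T h) mem_nil) cw18545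
theorem L4096 : LFK l4096 := fun D T h => lf_of_chk h (mem_cons (W6714 D T h) (mem_cons (W1326 D T h) (mem_cons (W6797 D T h) (mem_cons (W15784 D T h) (mem_cons (W7212 D T h) (mem_cons (W39 D T h) (mem_cons (W1929 D T h) (mem_cons (W13960 D T h) (mem_cons (W15807 D T h) (mem_cons (W786 D T h) (mem_cons (W18544 D T h) (mem_cons (W2729 D T h) (mem_cons (W153 D T h) (mem_cons (W2732 D T h) (mem_cons (W18545 D T h) (mem_cons (W1555 D T h) (mem_cons (W433 D T h) mem_nil))))))))))))))))) cl4096
theorem L4097 : LFK l4097 := fun D T h => lf_of_chk h (mem_cons (W6 D T h) (mem_cons (W833 D T h) (mem_cons (W18 D T h) (mem_cons (W193 D T h) (mem_cons (W19 D T h) (mem_cons (W1091 D T h) mem_nil)))))) cl4097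
theorem W18547 : WFK w18547 := fun D T h => wf_of_chk h mem_nil (mem_cons (L4097 D T h) mem_nil) cw18547
theorem W18561 : WFK w18561 := fun D T h => wf_of_chk h mem_nil (mem_cons (L3485 D T h) mem_nil) cw18561
theorem W18567 : WFK w18567 := fun D T h => wf_of_chk h (mem_cons (W2934 D T h) mem_nil) mem_nil cw18567
theorem W18615 : WFK w18615 := fun D T h => wf_of_chk h mem_nil (mem_cons (L3497 D T h) mem_nil) cw18615
theorem W18616 : WFK w18616 := fun D T h => wf_of_chk h (mem_cons (W17562 D T h) mem_nil) mem_nil cw18616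
theorem L4109 : LFK l4109 := fun D T h => lf_of_chk h (mem_cons (W42 D T h) (mem_cons (W2015 D T h) (mem_cons (W17562 D T h) (mem_cons (W4556 D T h) (mem_cons (W3 D T h) (mem_cons (W750 D T h) (mem_cons (W716 D T h) (mem_cons (W461 D T h) (mem_cons (W39 D T h) (mem_cons (W161 D T h) (mem_cons (W18616 D T h) (mem_cons (W581 D T h) (mem_cons (W1325 D T h) (mem_cons (W1554 D T h) (mem_cons (W1326 D T h) (mem_cons (W4444 D T h) (mem_cons (W431 D T h) (mem_cons (W267 D T h) (mem_cons (W721 D T h) (mem_cons (W220 D T h) (mem_cons (W722 D T h) mem_nil))))))))))))))))))))) cl4109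
theorem W18617 : WFK w18617 := fun D T h => wf_of_chk h mem_nil (mem_cons (L4109 D T h) mem_nil) cw18617
theorem W18630 : WFK w18630 := fun D T h => wf_of_chk h mem_nil (mem_cons (L3485 D T h) mem_nil) cw18630
theorem W18663 : WFK w18663 := fun D T h => wf_of_chk h mem_nil (mem_cons (L862 D T h) mem_nil) cw18663
theorem L4122 : LFK l4122 := fun D T h => lf_of_chk h (mem_cons (W152 D T h) (mem_cons (W161 D T h) (mem_cons (W154 D T h) (mem_cons (W817 D T h) (mem_cons (W2765 D T h) (mem_cons (W1539 D T h) (mem_cons (W3232 D T h) (mem_cons (W331 D T h) (mem_cons (W1548 D T h) (mem_cons (W1994 D T h) (mem_cons (W168 D T h) mem_nil))))))))))) cl4122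
theorem W18664 : WFK w18664 := fun D T h => wf_of_chk h mem_nil (mem_cons (L4122 D T h) mem_nil) cw18664
theorem W18669 : WFK w18669 := fun D T h => wf_of_chk h mem_nil (mem_cons (L3544 D T h) mem_nil) cw18669
theorem W18670 : WFK w18670 := fun D T h => wf_of_chk h mem_nil mem_nil cw18670
theorem W18671 : WFK w18671 := fun D T h => wf_of_chk h mem_nil mem_nil cw18671
theorem L4124 : LFK l4124 := fun D T h => lf_of_chk h (mem_cons (W10099 D T h) (mem_cons (W91 D T h) (mem_cons (W1245 D T h) (mem_cons (W1944 D T h) (mem_cons (W6773 D T h) (mem_cons (W1 D T h) (mem_cons (W784 D T h) (mem_cons (W11441 D T h) (mem_cons (W3583 D T h) mem_nil))))))))) cl4124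
theorem W18693 : WFK w18693 := fun D T h => wf_of_chk h mem_nil (mem_cons (L4124 D T h) mem_nil) cw18693
theorem L4125 : LFK l4125 := fun D T h => lf_of_chk h (mem_cons (W8692 D T h) (mem_cons (W42 D T h) (mem_cons (W83 D T h) (mem_cons (W3 D T h) (mem_cons (W638 D T h) (mem_cons (W220 D T h) (mem_cons (W200 D T h) (mem_cons (W7914 D T h) (mem_cons (W545 D T h) (mem_cons (W576 D T h) (mem_cons (W871 D T h) (mem_cons (W2303 D T h) (mem_cons (W2304 D T h) (mem_cons (W8979 D T h) mem_nil)))))))))))))) cl4125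
theorem W18716 : WFK w18716 := fun D T h => wf_of_chk h (mem_cons (W1 D T h) mem_nil) mem_nil cw18716
theorem W18736 : WFK w18736 := fun D T h => wf_of_chk h mem_nil (mem_cons (L57 D T h) mem_nil) cw18736
theorem L4143 : LFK l4143 := fun D T h => lf_of_chk h (mem_cons (W15 D T h) (mem_cons (W1 D T h) (mem_cons (W16566 D T h) (mem_cons (W281 D T h) (mem_cons (W152 D T h) (mem_cons (W153 D T h) (mem_cons (W154 D T h) (mem_cons (W18736 D T h) mem_nil)))))))) cl4143
theorem W18756 : WFK w18756 := fun D T h => wf_of_chk h mem_nil (mem_cons (L4143 D T h) mem_nil) cw18756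
theorem W18765 : WFK w18765 := fun D T h => wf_of_chk h mem_nil (mem_cons (L2912 D T h) mem_nil) cw18765
theorem L4148 : LFK l4148 := fun D T h => lf_of_chk h (mem_cons (W15 D T h) (mem_cons (W281 D T h) (mem_cons (W152 D T h) (mem_cons (W153 D T h) (mem_cons (W154 D T h) (mem_cons (W212 D T h) (mem_cons (W1 D T h) (mem_cons (W18765 D T h) (mem_cons (W638 D T h) (mem_cons (W432 D T h) (mem_cons (W149 D T h) mem_nil))))))))))) cl4148
theorem W18766 : WFK w18766 := fun D T h => wf_of_chk h mem_nil (mem_cons (L4148 D T h) mem_nil) cw18766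
theorem W18774 : WFK w18774 := fun D T h => wf_of_chk h mem_nil (mem_cons (L1392 D T h) mem_nil) cw18774
theorem W18782 : WFK w18782 := fun D T h => wf_of_chk h (mem_cons (W16 D T h) (mem_cons (W284 D T h) mem_nil)) mem_nil cw18782
theorem W18786 : WFK w18786 := fun D T h => wf_of_chk h (mem_cons (W16 D T h) (mem_cons (W17790 D T h) mem_nil)) mem_nil cw18786
theorem W18831 : WFK w18831 := fun D T h => wf_of_chk h (mem_cons (W16 D T h) (mem_cons (W3766 D T h) mem_nil)) mem_nil cw18831
theorem W18840 : WFK w18840 := fun D T h => wf_of_chk h (mem_cons (W3766 D T h) mem_nil) mem_nil cw18840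
theorem W18844 : WFK w18844 := fun D T h => wf_of_chk h (mem_cons (W15784 D T h) (mem_cons (W3766 D T h) mem_nil)) mem_nil cw18844
theorem W18845 : WFK w18845 := fun D T h => wf_of_chk h (mem_cons (W3766 D T h) (mem_cons (W15806 D T h) mem_nil)) mem_nil cw18845
theorem W18863 : WFK w18863 := fun D T h => wf_of_chk h mem_nil (mem_cons (L1599 D T h) mem_nil) cw18863
theorem W18891 : WFK w18891 := fun D T h => wf_of_chk h mem_nil (mem_cons (L143 D T h) mem_nil) cw18891
theorem W18904 : WFK w18904 := fun D T h => wf_of_chk h (mem_cons (W6032 D T h) (mem_cons (W16 D T h) mem_nil)) mem_nil cw18904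
theorem W18916 : WFK w18916 := fun D T h => wf_of_chk h mem_nil (mem_cons (L1112 D T h) mem_nil) cw18916
theorem W19011 : WFK w19011 := fun D T h => wf_of_chk h (mem_cons (W15786 D T h) mem_nil) mem_nil cw19011
theorem W19049 : WFK w19049 := fun D T h => wf_of_chk h mem_nil (mem_cons (L800 D T h) mem_nil) cw19049
theorem W19060 : WFK w19060 := fun D T h => wf_of_chk h mem_nil (mem_cons (L65 D T h) mem_nil) cw19060
theorem W19138 : WFK w19138 := fun D T h => wf_of_chk h mem_nil (mem_cons (L1258 D T h) mem_nil) cw19138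
theorem W19142 : WFK w19142 := fun D T h => wf_of_chk h mem_nil (mem_cons (L242 D T h) mem_nil) cw19142
theorem L4229 : LFK l4229 := fun D T h => lf_of_chk h (mem_cons (W201 D T h) (mem_cons (W220 D T h) (mem_cons (W15 D T h) (mem_cons (W999 D T h) (mem_cons (W1000 D T h) (mem_cons (W86 D T h) (mem_cons (W954 D T h) (mem_cons (W2088 D T h) (mem_cons (W1825 D T h) (mem_cons (W13 D T h) (mem_cons (W2085 D T h) mem_nil))))))))))) cl4229
theorem L4231 : LFK l4231 := fun D T h => lf_of_chk h (mem_cons (W1204 D T h) mem_nil) cl4231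
theorem L4232 : LFK l4232 := fun D T h => lf_of_chk h (mem_cons (W1170 D T h) mem_nil) cl4232
theorem W19220 : WFK w19220 := fun D T h => wf_of_chk h (mem_cons (W871 D T h) mem_nil) mem_nil cw19220
theorem W19264 : WFK w19264 := fun D T h => wf_of_chk h mem_nil (mem_cons (L4232 D T h) mem_nil) cw19264
theorem W19273 : WFK w19273 := fun D T h => wf_of_chk h mem_nil (mem_cons (L4046 D T h) mem_nil) cw19273
theorem W19310 : WFK w19310 := fun D T h => wf_of_chk h mem_nil (mem_cons (L4 D T h) mem_nil) cw19310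
theorem W19343 : WFK w19343 := fun D T h => wf_of_chk h mem_nil (mem_cons (L3178 D T h) mem_nil) cw19343
theorem W19354 : WFK w19354 := fun D T h => wf_of_chk h (mem_cons (W16 D T h) mem_nil) mem_nil cw19354
theorem W19358 : WFK w19358 := fun D T h => wf_of_chk h mem_nil (mem_cons (L1544 D T h) mem_nil) cw19358
theorem W19366 : WFK w19366 := fun D T h => wf_of_chk h (mem_cons (W16 D T h) mem_nil) mem_nil cw19366
theorem W19384 : WFK w19384 := fun D T h => wf_of_chk h mem_nil (mem_cons (L1208 D T h) mem_nil) cw19384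
theorem L4263 : LFK l4263 := fun D T h => lf_of_chk h (mem_cons (W3766 D T h) (mem_cons (W25 D T h) (mem_cons (W4072 D T h) mem_nil))) cl4263
theorem W19398 : WFK w19398 := fun D T h => wf_of_chk h mem_nil (mem_cons (L4263 D T h) mem_nil) cw19398
theorem W19444 : WFK w19444 := fun D T h => wf_of_chk h mem_nil (mem_cons (L787 D T h) mem_nil) cw19444
theorem W19452 : WFK w19452 := fun D T h => wf_of_chk h mem_nil (mem_cons (L1857 D T h) mem_nil) cw19452
theorem L4288 : LFK l4288 := fun D T h => lf_of_chk h (mem_cons (W5606 D T h) (mem_cons (W4 D T h) (mem_cons (W675 D T h) (mem_cons (W831 D T h) (mem_cons (W2007 D T h) (mem_cons (W888 D T h) mem_nil)))))) cl4288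
theorem W19479 : WFK w19479 := fun D T h => wf_of_chk h mem_nil (mem_cons (L4288 D T h) mem_nil) cw19479
theorem L4289 : LFK l4289 := fun D T h => lf_of_chk h (mem_cons (W581 D T h) (mem_cons (W1129 D T h) (mem_cons (W12 D T h) (mem_cons (W1304 D T h) (mem_cons (W3 D T h) (mem_cons (W767 D T h) (mem_cons (W86 D T h) (mem_cons (W734 D T h) (mem_cons (W141 D T h) (mem_cons (W1128 D T h) (mem_cons (W140 D T h) (mem_cons (W52 D T h) (mem_cons (W3274 D T h) (mem_cons (W13890 D T h) mem_nil)))))))))))))) cl4289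
theorem L4290 : LFK l4290 := fun D T h => lf_of_chk h (mem_cons (W5841 D T h) (mem_cons (W39 D T h) (mem_cons (W3 D T h) (mem_cons (W143 D T h) (mem_cons (W720 D T h) (mem_cons (W754 D T h) (mem_cons (W86 D T h) (mem_cons (W734 D T h) (mem_cons (W1554 D T h) (mem_cons (W1326 D T h) (mem_cons (W581 D T h) (mem_cons (W1325 D T h) (mem_cons (W1177 D T h) mem_nil))))))))))))) cl4290
theorem W19490 : WFK w19490 := fun D T h => wf_of_chk h mem_nil (mem_cons (L4290 D T h) mem_nil) cw19490
theorem W19536 : WFK w19536 := fun D T h => wf_of_chk h mem_nil (mem_cons (L89 D T h) mem_nil) cw19536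
theorem W19538 : WFK w19538 := fun D T h => wf_of_chk h mem_nil (mem_cons (L44 D T h) mem_nil) cw19538
theorem W19580 : WFK w19580 := fun D T h => wf_of_chk h (mem_cons (W651 D T h) (mem_cons (W16 D T h) mem_nil)) mem_nil cw19580
theorem W19582 : WFK w19582 := fun D T h => wf_of_chk h (mem_cons (W2948 D T h) (mem_cons (W16 D T h) mem_nil)) mem_nil cw19582
theorem W19585 : WFK w19585 := fun D T h => wf_of_chk h mem_nil (mem_cons (L2023 D T h) mem_nil) cw19585
theorem W19586 : WFK w19586 := fun D T h => wf_of_chk h (mem_cons (W937 D T h) (mem_cons (W16 D T h) mem_nil)) mem_nil cw19586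
theorem W19627 : WFK w19627 := fun D T h => wf_of_chk h mem_nil (mem_cons (L3597 D T h) mem_nil) cw19627
theorem W19636 : WFK w19636 := fun D T h => wf_of_chk h mem_nil (mem_cons (L1557 D T h) mem_nil) cw19636
theorem W19643 : WFK w19643 := fun D T h => wf_of_chk h mem_nil (mem_cons (L1391 D T h) mem_nil) cw19643
theorem W19648 : WFK w19648 := fun D T h => wf_of_chk h mem_nil (mem_cons (L310 D T h) mem_nil) cw19648
theorem W19693 : WFK w19693 := fun D T h => wf_of_chk h mem_nil (mem_cons (L3174 D T h) mem_nil) cw19693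
theorem W19696 : WFK w19696 := fun D T h => wf_of_chk h mem_nil (mem_cons (L1326 D T h) mem_nil) cw19696
theorem W19729 : WFK w19729 := fun D T h => wf_of_chk h mem_nil (mem_cons (L1835 D T h) mem_nil) cw19729
theorem W19771 : WFK w19771 := fun D T h => wf_of_chk h (mem_cons (W6714 D T h) mem_nil) mem_nil cw19771
theorem L4371 : LFK l4371 := fun D T h => lf_of_chk h (mem_cons (W2628 D T h) (mem_cons (W3766 D T h) (mem_cons (W230 D T h) (mem_cons (W200 D T h) (mem_cons (W3424 D T h) (mem_cons (W86 D T h) (mem_cons (W220 D T h) (mem_cons (W15 D T h) (mem_cons (W15784 D T h) (mem_cons (W904 D T h) (mem_cons (W14137 D T h) (mem_cons (W871 D T h) (mem_cons (W638 D T h) (mem_cons (W13423 D T h) mem_nil)))))))))))))) cl4371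
theorem W19782 : WFK w19782 := fun D T h => wf_of_chk h mem_nil (mem_cons (L41 D T h) mem_nil) cw19782
theorem W19806 : WFK w19806 := fun D T h => wf_of_chk h (mem_cons (W16 D T h) (mem_cons (W8128 D T h) mem_nil)) mem_nil cw19806
theorem W19813 : WFK w19813 := fun D T h => wf_of_chk h mem_nil (mem_cons (L5 D T h) mem_nil) cw19813
theorem W19815 : WFK w19815 := fun D T h => wf_of_chk h mem_nil (mem_cons (L3723 D T h) mem_nil) cw19815
theorem W19845 : WFK w19845 := fun D T h => wf_of_chk h (mem_cons (W15784 D T h) (mem_cons (W16 D T h) mem_nil)) mem_nil cw19845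
theorem W19846 : WFK w19846 := fun D T h => wf_of_chk h (mem_cons (W7212 D T h) (mem_cons (W16 D T h) mem_nil)) mem_nil cw19846
theorem W19874 : WFK w19874 := fun D T h => wf_of_chk h (mem_cons (W9025 D T h) mem_nil) mem_nil cw19874
theorem W19927 : WFK w19927 := fun D T h => wf_of_chk h mem_nil (mem_cons (L1170 D T h) mem_nil) cw19927
theorem L4404 : LFK l4404 := fun D T h => lf_of_chk h (mem_cons (W13 D T h) (mem_cons (W4 D T h) (mem_cons (W1245 D T h) (mem_cons (W1246 D T h) (mem_cons (W3762 D T h) mem_nil))))) cl4404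
theorem W19928 : WFK w19928 := fun D T h => wf_of_chk h mem_nil (mem_cons (L4404 D T h) mem_nil) cw19928
theorem L4405 : LFK l4405 := fun D T h => lf_of_chk h (mem_cons (W12 D T h) (mem_cons (W4 D T h) (mem_cons (W3762 D T h) mem_nil))) cl4405
theorem W19929 : WFK w19929 := fun D T h => wf_of_chk h mem_nil (mem_cons (L4405 D T h) mem_nil) cw19929
theorem W19930 : WFK w19930 := fun D T h => wf_of_chk h mem_nil (mem_cons (L4404 D T h) mem_nil) cw19930
theorem L4406 : LFK l4406 := fun D T h => lf_of_chk h (mem_cons (W1449 D T h) (mem_cons (W164 D T h) (mem_cons (W2726 D T h) (mem_cons (W429 D T h) (mem_cons (W2732 D T h) (mem_cons (W199 D T h) (mem_cons (W201 D T h) (mem_cons (W19358 D T h) (mem_cons (W4555 D T h) (mem_cons (W3 D T h) (mem_cons (W3406 D T h) (mem_cons (W3407 D T h) (mem_cons (W4701 D T h) (mem_cons (W12 D T h) (mem_cons (W13 D T h) (mem_cons (W19927 D T h) (mem_cons (W19928 D T h) (mem_cons (W19929 D T h) (mem_cons (W19930 D T h) mem_nil))))))))))))))))))) cl4406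
theorem L4408 : LFK l4408 := fun D T h => lf_of_chk h (mem_cons (W12 D T h) (mem_cons (W6 D T h) (mem_cons (W8 D T h) (mem_cons (W861 D T h) (mem_cons (W1246 D T h) mem_nil))))) cl4408
theorem W19934 : WFK w19934 := fun D T h => wf_of_chk h mem_nil (mem_cons (L4408 D T h) mem_nil) cw19934
theorem W19944 : WFK w19944 := fun D T h => wf_of_chk h mem_nil (mem_cons (L3485 D T h) mem_nil) cw19944
theorem W19954 : WFK w19954 := fun D T h => wf_of_chk h (mem_cons (W114 D T h) mem_nil) mem_nil cw19954
theorem W20000 : WFK w20000 := fun D T h => wf_of_chk h mem_nil (mem_cons (L1340 D T h) mem_nil) cw20000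
theorem L4423 : LFK l4423 := fun D T h => lf_of_chk h (mem_cons (W638 D T h) (mem_cons (W2766 D T h) (mem_cons (W927 D T h) (mem_cons (W3246 D T h) (mem_cons (W328 D T h) (mem_cons (W6006 D T h) (mem_cons (W149 D T h) (mem_cons (W91 D T h) (mem_cons (W4 D T h) mem_nil))))))))) cl4423
theorem W20041 : WFK w20041 := fun D T h => wf_of_chk h mem_nil (mem_cons (L4423 D T h) mem_nil) cw20041
theorem W20044 : WFK w20044 := fun D T h => wf_of_chk h mem_nil (mem_cons (L4423 D T h) mem_nil) cw20044
theorem L4435 : LFK l4435 := fun D T h => lf_of_chk h (mem_cons (W154 D T h) (mem_cons (W1444 D T h) (mem_cons (W1086 D T h) (mem_cons (W1563 D T h) (mem_cons (W923 D T h) (mem_cons (W159 D T h) (mem_cons (W1027 D T h) (mem_cons (W173 D T h) (mem_cons (W924 D T h) (mem_cons (W161 D T h) (mem_cons (W922 D T h) (mem_cons (W833 D T h) (mem_cons (W914 D T h) mem_nil))))))))))))) cl4435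
theorem W20086 : WFK w20086 := fun D T h => wf_of_chk h mem_nil (mem_cons (L40 D T h) mem_nil) cw20086
theorem L4439 : LFK l4439 := fun D T h => lf_of_chk h (mem_cons (W153 D T h) (mem_cons (W281 D T h) (mem_cons (W39 D T h) (mem_cons (W1371 D T h) (mem_cons (W924 D T h) (mem_cons (W33 D T h) (mem_cons (W1404 D T h) (mem_cons (W2671 D T h) (mem_cons (W5858 D T h) (mem_cons (W3343 D T h) mem_nil)))))))))) cl4439
theorem W20098 : WFK w20098 := fun D T h => wf_of_chk h mem_nil (mem_cons (L3530 D T h) mem_nil) cw20098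
theorem W20104 : WFK w20104 := fun D T h => wf_of_chk h mem_nil (mem_cons (L4289 D T h) mem_nil) cw20104
theorem W20105 : WFK w20105 := fun D T h => wf_of_chk h mem_nil (mem_cons (L3377 D T h) mem_nil) cw20105
theorem W20107 : WFK w20107 := fun D T h => wf_of_chk h mem_nil (mem_cons (L2586 D T h) mem_nil) cw20107
theorem W20108 : WFK w20108 := fun D T h => wf_of_chk h mem_nil (mem_cons (L2586 D T h) mem_nil) cw20108
theorem L4449 : LFK l4449 := fun D T h => lf_of_chk h (mem_cons (W3 D T h) (mem_cons (W67 D T h) (mem_cons (W19310 D T h) (mem_cons (W12 D T h) (mem_cons (W13 D T h) (mem_cons (W903 D T h) mem_nil)))))) cl4449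
theorem W20136 : WFK w20136 := fun D T h => wf_of_chk h mem_nil (mem_cons (L4449 D T h) mem_nil) cw20136
theorem L4460 : LFK l4460 := fun D T h => lf_of_chk h (mem_cons (W5176 D T h) (mem_cons (W18663 D T h) (mem_cons (W8210 D T h) (mem_cons (W581 D T h) (mem_cons (W15786 D T h) (mem_cons (W3 D T h) (mem_cons (W39 D T h) (mem_cons (W851 D T h) (mem_cons (W642 D T h) (mem_cons (W3019 D T h) (mem_cons (W381 D T h) mem_nil))))))))))) cl4460
theorem W20207 : WFK w20207 := fun D T h => wf_of_chk h mem_nil (mem_cons (L4460 D T h) mem_nil) cw20207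
theorem L4461 : LFK l4461 := fun D T h => lf_of_chk h (mem_cons (W667 D T h) mem_nil) cl4461
theorem L4468 : LFK l4468 := fun D T h => lf_of_chk h (mem_cons (W209 D T h) (mem_cons (W15 D T h) (mem_cons (W220 D T h) (mem_cons (W11704 D T h) (mem_cons (W17 D T h) (mem_cons (W621 D T h) (mem_cons (W86 D T h) (mem_cons (W8702 D T h) (mem_cons (W7212 D T h) (mem_cons (W2605 D T h) mem_nil)))))))))) cl4468
theorem W20252 : WFK w20252 := fun D T h => wf_of_chk h mem_nil (mem_cons (L3723 D T h) mem_nil) cw20252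
theorem W20263 : WFK w20263 := fun D T h => wf_of_chk h (mem_cons (W220 D T h) (mem_cons (W391 D T h) mem_nil)) mem_nil cw20263
theorem W20277 : WFK w20277 := fun D T h => wf_of_chk h (mem_cons (W15784 D T h) mem_nil) mem_nil cw20277
theorem W20278 : WFK w20278 := fun D T h => wf_of_chk h mem_nil (mem_cons (L4468 D T h) mem_nil) cw20278
theorem W20314 : WFK w20314 := fun D T h => wf_of_chk h (mem_cons (W5841 D T h) mem_nil) mem_nil cw20314
theorem L4479 : LFK l4479 := fun D T h => lf_of_chk h (mem_cons (W201 D T h) (mem_cons (W112 D T h) (mem_cons (W17584 D T h) (mem_cons (W999 D T h) (mem_cons (W3774 D T h) (mem_cons (W86 D T h) (mem_cons (W67 D T h) (mem_cons (W954 D T h) (mem_cons (W2088 D T h) (mem_cons (W1825 D T h) (mem_cons (W13 D T h) (mem_cons (W2085 D T h) mem_nil)))))))))))) cl4479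
theorem W20315 : WFK w20315 := fun D T h => wf_of_chk h mem_nil (mem_cons (L4479 D T h) mem_nil) cw20315
theorem W20319 : WFK w20319 := fun D T h => wf_of_chk h (mem_cons (W970 D T h) mem_nil) mem_nil cw20319
theorem W20338 : WFK w20338 := fun D T h => wf_of_chk h (mem_cons (W1919 D T h) mem_nil) mem_nil cw20338
theorem W20339 : WFK w20339 := fun D T h => wf_of_chk h mem_nil (mem_cons (L1544 D T h) mem_nil) cw20339
theorem W20340 : WFK w20340 := fun D T h => wf_of_chk h mem_nil (mem_cons (L4439 D T h) mem_nil) cw20340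
theorem W20362 : WFK w20362 := fun D T h => wf_of_chk h mem_nil (mem_cons (L129 D T h) mem_nil) cw20362
theorem W20367 : WFK w20367 := fun D T h => wf_of_chk h (mem_cons (W7720 D T h) mem_nil) mem_nil cw20367
theorem L4483 : LFK l4483 := fun D T h => lf_of_chk h (mem_cons (W1371 D T h) (mem_cons (W151 D T h) (mem_cons (W7752 D T h) (mem_cons (W1399 D T h) (mem_cons (W12113 D T h) (mem_cons (W852 D T h) (mem_cons (W920 D T h) (mem_cons (W924 D T h) (mem_cons (W9125 D T h) mem_nil))))))))) cl4483
theorem W20377 : WFK w20377 := fun D T h => wf_of_chk h mem_nil (mem_cons (L4483 D T h) mem_nil) cw20377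
theorem W20380 : WFK w20380 := fun D T h => wf_of_chk h (mem_cons (W2015 D T h) (mem_cons (W9025 D T h) mem_nil)) mem_nil cw20380
theorem W20381 : WFK w20381 := fun D T h => wf_of_chk h (mem_cons (W448 D T h) (mem_cons (W9025 D T h) mem_nil)) mem_nil cw20381
theorem W20386 : WFK w20386 := fun D T h => wf_of_chk h mem_nil (mem_cons (L4483 D T h) mem_nil) cw20386
theorem L4495 : LFK l4495 := fun D T h => lf_of_chk h (mem_cons (W4319 D T h) (mem_cons (W15 D T h) (mem_cons (W1928 D T h) (mem_cons (W210 D T h) (mem_cons (W141 D T h) (mem_cons (W834 D T h) (mem_cons (W4329 D T h) (mem_cons (W4328 D T h) (mem_cons (W617 D T h) (mem_cons (W8 D T h) (mem_cons (W1104 D T h) (mem_cons (W4335 D T h) (mem_cons (W4336 D T h) (mem_cons (W18060 D T h) (mem_cons (W4334 D T h) (mem_cons (W15927 D T h) (mem_cons (W2922 D T h) (mem_cons (W1132 D T h) mem_nil)))))))))))))))))) cl4495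
theorem W20419 : WFK w20419 := fun D T h => wf_of_chk h mem_nil (mem_cons (L4495 D T h) mem_nil) cw20419
theorem L4507 : LFK l4507 := fun D T h => lf_of_chk h (mem_cons (W10099 D T h) (mem_cons (W7408 D T h) (mem_cons (W151 D T h) (mem_cons (W1613 D T h) (mem_cons (W11441 D T h) (mem_cons (W3583 D T h) (mem_cons (W1245 D T h) (mem_cons (W16149 D T h) (mem_cons (W8364 D T h) mem_nil))))))))) cl4507
theorem W20457 : WFK w20457 := fun D T h => wf_of_chk h mem_nil (mem_cons (L4507 D T h) mem_nil) cw20457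
theorem W20458 : WFK w20458 := fun D T h => wf_of_chk h mem_nil (mem_cons (L485 D T h) mem_nil) cw20458
theorem W20469 : WFK w20469 := fun D T h => wf_of_chk h mem_nil (mem_cons (L419 D T h) mem_nil) cw20469
theorem W20472 : WFK w20472 := fun D T h => wf_of_chk h mem_nil (mem_cons (L2274 D T h) mem_nil) cw20472
theorem W20476 : WFK w20476 := fun D T h => wf_of_chk h mem_nil (mem_cons (L4035 D T h) mem_nil) cw20476
theorem L4509 : LFK l4509 := fun D T h => lf_of_chk h (mem_cons (W461 D T h) (mem_cons (W495 D T h) (mem_cons (W10732 D T h) (mem_cons (W7171 D T h) (mem_cons (W1960 D T h) (mem_cons (W6718 D T h) (mem_cons (W3274 D T h) (mem_cons (W2690 D T h) (mem_cons (W13250 D T h) (mem_cons (W20476 D T h) (mem_cons (W1409 D T h) (mem_cons (W401 D T h) (mem_cons (W15 D T h) (mem_cons (W2724 D T h) (mem_cons (W67 D T h) (mem_cons (W143 D T h) (mem_cons (W1919 D T h) mem_nil))))))))))))))))) cl4509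
theorem W20478 : WFK w20478 := fun D T h => wf_of_chk h mem_nil (mem_cons (L4509 D T h) mem_nil) cw20478
theorem L4523 : LFK l4523 := fun D T h => lf_of_chk h (mem_cons (W2093 D T h) (mem_cons (W1530 D T h) (mem_cons (W15608 D T h) (mem_cons (W1271 D T h) (mem_cons (W4736 D T h) (mem_cons (W11 D T h) (mem_cons (W2124 D T h) (mem_cons (W20469 D T h) (mem_cons (W15936 D T h) (mem_cons (W2092 D T h) (mem_cons (W1797 D T h) (mem_cons (W17798 D T h) mem_nil)))))))))))) cl4523
theorem W20596 : WFK w20596 := fun D T h => wf_of_chk h mem_nil (mem_cons (L1053 D T h) mem_nil) cw20596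
theorem W20597 : WFK w20597 := fun D T h => wf_of_chk h mem_nil (mem_cons (L1056 D T h) mem_nil) cw20597
theorem W20614 : WFK w20614 := fun D T h => wf_of_chk h mem_nil (mem_cons (L32 D T h) mem_nil) cw20614
theorem W20652 : WFK w20652 := fun D T h => wf_of_chk h mem_nil (mem_cons (L1330 D T h) mem_nil) cw20652
theorem W20725 : WFK w20725 := fun D T h => wf_of_chk h mem_nil (mem_cons (L1193 D T h) mem_nil) cw20725
theorem L4584 : LFK l4584 := fun D T h => lf_of_chk h (mem_cons (W2007 D T h) (mem_cons (W39 D T h) (mem_cons (W96 D T h) (mem_cons (W7409 D T h) (mem_cons (W14045 D T h) (mem_cons (W13 D T h) (mem_cons (W9119 D T h) (mem_cons (W13674 D T h) (mem_cons (W3 D T h) (mem_cons (W1465 D T h) (mem_cons (W6204 D T h) (mem_cons (W8753 D T h) (mem_cons (W10099 D T h) (mem_cons (W4447 D T h) mem_nil)))))))))))))) cl4584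
theorem W20778 : WFK w20778 := fun D T h => wf_of_chk h mem_nil (mem_cons (L4584 D T h) mem_nil) cw20778
theorem L4588 : LFK l4588 := fun D T h => lf_of_chk h (mem_cons (W15147 D T h) mem_nil) cl4588
theorem L4592 : LFK l4592 := fun D T h => lf_of_chk h (mem_cons (W774 D T h) (mem_cons (W33 D T h) (mem_cons (W1737 D T h) (mem_cons (W6698 D T h) (mem_cons (W3498 D T h) (mem_cons (W17722 D T h) (mem_cons (W9324 D T h) (mem_cons (W4452 D T h) (mem_cons (W1736 D T h) (mem_cons (W17718 D T h) mem_nil)))))))))) cl4592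
theorem W20825 : WFK w20825 := fun D T h => wf_of_chk h (mem_cons (W16972 D T h) mem_nil) mem_nil cw20825
theorem W20829 : WFK w20829 := fun D T h => wf_of_chk h (mem_cons (W3878 D T h) mem_nil) mem_nil cw20829
theorem L4597 : LFK l4597 := fun D T h => lf_of_chk h (mem_cons (W1408 D T h) (mem_cons (W16 D T h) (mem_cons (W4555 D T h) (mem_cons (W3 D T h) (mem_cons (W1448 D T h) (mem_cons (W1449 D T h) (mem_cons (W15 D T h) (mem_cons (W220 D T h) (mem_cons (W17 D T h) (mem_cons (W6360 D T h) (mem_cons (W24 D T h) (mem_cons (W1397 D T h) (mem_cons (W20829 D T h) mem_nil))))))))))))) cl4597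
theorem W20849 : WFK w20849 := fun D T h => wf_of_chk h mem_nil (mem_cons (L1963 D T h) mem_nil) cw20849
theorem W20864 : WFK w20864 := fun D T h => wf_of_chk h mem_nil (mem_cons (L2346 D T h) mem_nil) cw20864
theorem L4602 : LFK l4602 := fun D T h => lf_of_chk h (mem_cons (W91 D T h) (mem_cons (W20 D T h) (mem_cons (W124 D T h) (mem_cons (W3153 D T h) (mem_cons (W3766 D T h) (mem_cons (W878 D T h) (mem_cons (W10076 D T h) (mem_cons (W817 D T h) (mem_cons (W188 D T h) (mem_cons (W8172 D T h) (mem_cons (W15764 D T h) (mem_cons (W4 D T h) (mem_cons (W802 D T h) (mem_cons (W33 D T h) mem_nil)))))))))))))) cl4602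
theorem W20884 : WFK w20884 := fun D T h => wf_of_chk h (mem_cons (W15784 D T h) mem_nil) mem_nil cw20884
theorem W20902 : WFK w20902 := fun D T h => wf_of_chk h mem_nil (mem_cons (L434 D T h) mem_nil) cw20902
theorem W20905 : WFK w20905 := fun D T h => wf_of_chk h (mem_cons (W6714 D T h) mem_nil) mem_nil cw20905
theorem W20911 : WFK w20911 := fun D T h => wf_of_chk h (mem_cons (W6714 D T h) mem_nil) mem_nil cw20911
theorem W20932 : WFK w20932 := fun D T h => wf_of_chk h mem_nil (mem_cons (L120 D T h) mem_nil) cw20932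
theorem W20934 : WFK w20934 := fun D T h => wf_of_chk h mem_nil (mem_cons (L2635 D T h) mem_nil) cw20934
theorem W20957 : WFK w20957 := fun D T h => wf_of_chk h (mem_cons (W3766 D T h) mem_nil) mem_nil cw20957
theorem L4631 : LFK l4631 := fun D T h => lf_of_chk h (mem_cons (W153 D T h) (mem_cons (W1027 D T h) (mem_cons (W173 D T h) (mem_cons (W39 D T h) (mem_cons (W1371 D T h) (mem_cons (W924 D T h) (mem_cons (W33 D T h) (mem_cons (W927 D T h) (mem_cons (W1404 D T h) (mem_cons (W17584 D T h) (mem_cons (W2671 D T h) (mem_cons (W5858 D T h) (mem_cons (W3343 D T h) mem_nil))))))))))))) cl4631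
theorem W21031 : WFK w21031 := fun D T h => wf_of_chk h mem_nil (mem_cons (L4371 D T h) mem_nil) cw21031
theorem W21035 : WFK w21035 := fun D T h => wf_of_chk h (mem_cons (W16755 D T h) mem_nil) mem_nil cw21035
theorem W21042 : WFK w21042 := fun D T h => wf_of_chk h mem_nil (mem_cons (L3079 D T h) mem_nil) cw21042
theorem L4645 : LFK l4645 := fun D T h => lf_of_chk h (mem_cons (W15893 D T h) mem_nil) cl4645
theorem W21077 : WFK w21077 := fun D T h => wf_of_chk h mem_nil (mem_cons (L4645 D T h) mem_nil) cw21077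
theorem W21081 : WFK w21081 := fun D T h => wf_of_chk h mem_nil (mem_cons (L385 D T h) mem_nil) cw21081
theorem L4648 : LFK l4648 := fun D T h => lf_of_chk h (mem_cons (W500 D T h) (mem_cons (W1 D T h) (mem_cons (W158 D T h) (mem_cons (W11324 D T h) (mem_cons (W7402 D T h) (mem_cons (W1245 D T h) (mem_cons (W1944 D T h) (mem_cons (W6773 D T h) (mem_cons (W784 D T h) mem_nil))))))))) cl4648
theorem W21112 : WFK w21112 := fun D T h => wf_of_chk h (mem_cons (W1019 D T h) mem_nil) mem_nil cw21112
theorem W21133 : WFK w21133 := fun D T h => wf_of_chk h (mem_cons (W16 D T h) (mem_cons (W10822 D T h) mem_nil)) mem_nil cw21133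
theorem L4669 : LFK l4669 := fun D T h => lf_of_chk h (mem_cons (W11 D T h) (mem_cons (W831 D T h) (mem_cons (W3401 D T h) (mem_cons (W861 D T h) (mem_cons (W1245 D T h) mem_nil))))) cl4669
theorem L4694 : LFK l4694 := fun D T h => lf_of_chk h (mem_cons (W7541 D T h) (mem_cons (W6714 D T h) (mem_cons (W1166 D T h) (mem_cons (W15 D T h) (mem_cons (W932 D T h) (mem_cons (W15784 D T h) (mem_cons (W220 D T h) (mem_cons (W1929 D T h) (mem_cons (W3473 D T h) (mem_cons (W871 D T h) (mem_cons (W638 D T h) (mem_cons (W14002 D T h) (mem_cons (W8271 D T h) (mem_cons (W14006 D T h) (mem_cons (W7528 D T h) (mem_cons (W42 D T h) (mem_cons (W164 D T h) (mem_cons (W14007 D T h) (mem_cons (W13637 D T h) mem_nil))))))))))))))))))) cl4694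
theorem W21208 : WFK w21208 := fun D T h => wf_of_chk h mem_nil (mem_cons (L4694 D T h) mem_nil) cw21208
theorem W21212 : WFK w21212 := fun D T h => wf_of_chk h mem_nil (mem_cons (L3540 D T h) mem_nil) cw21212
theorem W21227 : WFK w21227 := fun D T h => wf_of_chk h mem_nil (mem_cons (L1140 D T h) mem_nil) cw21227
theorem L4700 : LFK l4700 := fun D T h => lf_of_chk h (mem_cons (W8638 D T h) mem_nil) cl4700
theorem W21238 : WFK w21238 := fun D T h => wf_of_chk h mem_nil (mem_cons (L4700 D T h) mem_nil) cw21238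
theorem W21248 : WFK w21248 := fun D T h => wf_of_chk h (mem_cons (W5841 D T h) (mem_cons (W16 D T h) mem_nil)) mem_nil cw21248
theorem W21260 : WFK w21260 := fun D T h => wf_of_chk h (mem_cons (W4037 D T h) (mem_cons (W16 D T h) mem_nil)) mem_nil cw21260
theorem W21266 : WFK w21266 := fun D T h => wf_of_chk h mem_nil (mem_cons (L3874 D T h) mem_nil) cw21266
theorem W21275 : WFK w21275 := fun D T h => wf_of_chk h mem_nil (mem_cons (L2025 D T h) mem_nil) cw21275
theorem W21280 : WFK w21280 := fun D T h => wf_of_chk h mem_nil (mem_cons (L299 D T h) mem_nil) cw21280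
theorem W21281 : WFK w21281 := fun D T h => wf_of_chk h (mem_cons (W6714 D T h) (mem_cons (W16 D T h) mem_nil)) mem_nil cw21281
theorem W21284 : WFK w21284 := fun D T h => wf_of_chk h (mem_cons (W162 D T h) (mem_cons (W3006 D T h) mem_nil)) mem_nil cw21284
theorem W21286 : WFK w21286 := fun D T h => wf_of_chk h mem_nil (mem_cons (L3798 D T h) mem_nil) cw21286
theorem W21288 : WFK w21288 := fun D T h => wf_of_chk h mem_nil (mem_cons (L447 D T h) mem_nil) cw21288
theorem W21290 : WFK w21290 := fun D T h => wf_of_chk h mem_nil (mem_cons (L4122 D T h) mem_nil) cw21290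
theorem W21296 : WFK w21296 := fun D T h => wf_of_chk h mem_nil (mem_cons (L1633 D T h) mem_nil) cw21296
theorem W21302 : WFK w21302 := fun D T h => wf_of_chk h mem_nil (mem_cons (L3852 D T h) mem_nil) cw21302
theorem W21304 : WFK w21304 := fun D T h => wf_of_chk h (mem_cons (W6613 D T h) (mem_cons (W16 D T h) mem_nil)) mem_nil cw21304
theorem L4716 : LFK l4716 := fun D T h => lf_of_chk h (mem_cons (W14067 D T h) (mem_cons (W16 D T h) (mem_cons (W2936 D T h) (mem_cons (W2709 D T h) (mem_cons (W21248 D T h) (mem_cons (W21042 D T h) (mem_cons (W7424 D T h) (mem_cons (W7878 D T h) (mem_cons (W20381 D T h) (mem_cons (W10822 D T h) (mem_cons (W20380 D T h) (mem_cons (W284 D T h) (mem_cons (W12634 D T h) (mem_cons (W12628 D T h) (mem_cons (W14935 D T h) (mem_cons (W7538 D T h) (mem_cons (W15884 D T h) (mem_cons (W13124 D T h) (mem_cons (W21304 D T h) (mem_cons (W16477 D T h) (mem_cons (W6601 D T h) (mem_cons (W20041 D T h) (mem_cons (W16473 D T h) mem_nil))))))))))))))))))))))) cl4716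
theorem W21319 : WFK w21319 := fun D T h => wf_of_chk h (mem_cons (W220 D T h) (mem_cons (W16972 D T h) mem_nil)) mem_nil cw21319
theorem W21320 : WFK w21320 := fun D T h => wf_of_chk h mem_nil (mem_cons (L3671 D T h) mem_nil) cw21320
theorem W21321 : WFK w21321 := fun D T h => wf_of_chk h (mem_cons (W15 D T h) (mem_cons (W16972 D T h) mem_nil)) mem_nil cw21321
theorem W21322 : WFK w21322 := fun D T h => wf_of_chk h mem_nil (mem_cons (L3671 D T h) mem_nil) cw21322
theorem W21323 : WFK w21323 := fun D T h => wf_of_chk h (mem_cons (W15784 D T h) (mem_cons (W15786 D T h) mem_nil)) mem_nil cw21323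
theorem W21399 : WFK w21399 := fun D T h => wf_of_chk h (mem_cons (W9025 D T h) mem_nil) mem_nil cw21399
theorem W21400 : WFK w21400 := fun D T h => wf_of_chk h mem_nil (mem_cons (L2003 D T h) mem_nil) cw21400
theorem W21401 : WFK w21401 := fun D T h => wf_of_chk h (mem_cons (W13182 D T h) (mem_cons (W16 D T h) mem_nil)) mem_nil cw21401
theorem W21402 : WFK w21402 := fun D T h => wf_of_chk h (mem_cons (W9025 D T h) mem_nil) mem_nil cw21402
theorem W21420 : WFK w21420 := fun D T h => wf_of_chk h (mem_cons (W6714 D T h) (mem_cons (W16 D T h) mem_nil)) mem_nil cw21420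
theorem W21421 : WFK w21421 := fun D T h => wf_of_chk h mem_nil (mem_cons (L1632 D T h) mem_nil) cw21421
theorem W21422 : WFK w21422 := fun D T h => wf_of_chk h mem_nil (mem_cons (L4700 D T h) mem_nil) cw21422
theorem W21423 : WFK w21423 := fun D T h => wf_of_chk h mem_nil (mem_cons (L3335 D T h) mem_nil) cw21423
theorem L4745 : LFK l4745 := fun D T h => lf_of_chk h (mem_cons (W8645 D T h) (mem_cons (W5633 D T h) (mem_cons (W3006 D T h) (mem_cons (W16 D T h) (mem_cons (W200 D T h) (mem_cons (W5449 D T h) (mem_cons (W21288 D T h) (mem_cons (W12122 D T h) (mem_cons (W724 D T h) (mem_cons (W21423 D T h) (mem_cons (W21421 D T h) (mem_cons (W14009 D T h) (mem_cons (W21422 D T h) (mem_cons (W937 D T h) (mem_cons (W7718 D T h) (mem_cons (W6744 D T h) (mem_cons (W17132 D T h) mem_nil))))))))))))))))) cl4745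
theorem W21424 : WFK w21424 := fun D T h => wf_of_chk h mem_nil (mem_cons (L4745 D T h) mem_nil) cw21424
theorem W21440 : WFK w21440 := fun D T h => wf_of_chk h mem_nil (mem_cons (L3995 D T h) mem_nil) cw21440
theorem W21441 : WFK w21441 := fun D T h => wf_of_chk h mem_nil (mem_cons (L1678 D T h) mem_nil) cw21441
theorem W21442 : WFK w21442 := fun D T h => wf_of_chk h mem_nil (mem_cons (L4406 D T h) mem_nil) cw21442
theorem W21443 : WFK w21443 := fun D T h => wf_of_chk h mem_nil (mem_cons (L4597 D T h) mem_nil) cw21443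
theorem W21444 : WFK w21444 := fun D T h => wf_of_chk h mem_nil (mem_cons (L788 D T h) mem_nil) cw21444
theorem W21445 : WFK w21445 := fun D T h => wf_of_chk h mem_nil (mem_cons (L310 D T h) mem_nil) cw21445
theorem L4755 : LFK l4755 := fun D T h => lf_of_chk h (mem_cons (W21323 D T h) (mem_cons (W16179 D T h) (mem_cons (W1139 D T h) (mem_cons (W16178 D T h) (mem_cons (W16 D T h) (mem_cons (W16972 D T h) (mem_cons (W17438 D T h) (mem_cons (W1408 D T h) (mem_cons (W1398 D T h) (mem_cons (W5841 D T h) (mem_cons (W4552 D T h) (mem_cons (W6714 D T h) (mem_cons (W21443 D T h) (mem_cons (W3766 D T h) (mem_cons (W19648 D T h) (mem_cons (W21444 D T h) (mem_cons (W21445 D T h) (mem_cons (W7698 D T h) (mem_cons (W13226 D T h) (mem_cons (W21441 D T h) (mem_cons (W7238 D T h) (mem_cons (W21031 D T h) (mem_cons (W3578 D T h) (mem_cons (W21442 D T h) (mem_cons (W15905 D T h) (mem_cons (W21319 D T h) (mem_cons (W20278 D T h) (mem_cons (W21322 D T h) (mem_cons (W21320 D T h) (mem_cons (W21321 D T h) mem_nil))))))))))))))))))))))))))))))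 cl4755
theorem W21446 : WFK w21446 := fun D T h => wf_of_chk h mem_nil (mem_cons (L4755 D T h) mem_nil) cw21446
theorem W21465 : WFK w21465 := fun D T h => wf_of_chk h (mem_cons (W16 D T h) (mem_cons (W3766 D T h) mem_nil)) mem_nil cw21465
theorem W21466 : WFK w21466 := fun D T h => wf_of_chk h (mem_cons (W16 D T h) (mem_cons (W3766 D T h) mem_nil)) mem_nil cw21466
theorem W21469 : WFK w21469 := fun D T h => wf_of_chk h mem_nil (mem_cons (L4669 D T h) mem_nil) cw21469
theorem W21474 : WFK w21474 := fun D T h => wf_of_chk h (mem_cons (W39 D T h) (mem_cons (W16 D T h) mem_nil)) mem_nil cw21474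
theorem W21487 : WFK w21487 := fun D T h => wf_of_chk h (mem_cons (W16 D T h) mem_nil) mem_nil cw21487
theorem W21495 : WFK w21495 := fun D T h => wf_of_chk h mem_nil (mem_cons (L3058 D T h) mem_nil) cw21495
theorem W21513 : WFK w21513 := fun D T h => wf_of_chk h (mem_cons (W871 D T h) mem_nil) mem_nil cw21513
theorem W21522 : WFK w21522 := fun D T h => wf_of_chk h mem_nil (mem_cons (L4669 D T h) mem_nil) cw21522
theorem L4768 : LFK l4768 := fun D T h => lf_of_chk h (mem_cons (W10099 D T h) (mem_cons (W2766 D T h) (mem_cons (W7408 D T h) (mem_cons (W6960 D T h) (mem_cons (W1944 D T h) (mem_cons (W6773 D T h) (mem_cons (W1245 D T h) mem_nil))))))) cl4768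
theorem W21541 : WFK w21541 := fun D T h => wf_of_chk h mem_nil (mem_cons (L4768 D T h) mem_nil) cw21541
theorem W21542 : WFK w21542 := fun D T h => wf_of_chk h (mem_cons (W5841 D T h) mem_nil) mem_nil cw21542
theorem W21556 : WFK w21556 := fun D T h => wf_of_chk h (mem_cons (W15786 D T h) (mem_cons (W16 D T h) mem_nil)) mem_nil cw21556
theorem W21558 : WFK w21558 := fun D T h => wf_of_chk h (mem_cons (W16972 D T h) (mem_cons (W16 D T h) mem_nil)) mem_nil cw21558
theorem W21638 : WFK w21638 := fun D T h => wf_of_chk h mem_nil (mem_cons (L4479 D T h) mem_nil) cw21638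
theorem W21639 : WFK w21639 := fun D T h => wf_of_chk h mem_nil (mem_cons (L4479 D T h) mem_nil) cw21639
theorem W21643 : WFK w21643 := fun D T h => wf_of_chk h mem_nil (mem_cons (L1701 D T h) mem_nil) cw21643
theorem L4790 : LFK l4790 := fun D T h => lf_of_chk h (mem_cons (W6773 D T h) (mem_cons (W13334 D T h) (mem_cons (W1805 D T h) (mem_cons (W9070 D T h) (mem_cons (W1737 D T h) (mem_cons (W21643 D T h) (mem_cons (W8364 D T h) mem_nil))))))) cl4790
theorem L4791 : LFK l4791 := fun D T h => lf_of_chk h (mem_cons (W15784 D T h) (mem_cons (W6714 D T h) (mem_cons (W16972 D T h) (mem_cons (W15786 D T h) (mem_cons (W15 D T h) (mem_cons (W149 D T h) (mem_cons (W8271 D T h) (mem_cons (W201 D T h) (mem_cons (W8273 D T h) (mem_cons (W20315 D T h) (mem_cons (W11290 D T h) mem_nil))))))))))) cl4791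
theorem W21648 : WFK w21648 := fun D T h => wf_of_chk h mem_nil (mem_cons (L4791 D T h) mem_nil) cw21648
theorem W21706 : WFK w21706 := fun D T h => wf_of_chk h (mem_cons (W2015 D T h) (mem_cons (W16 D T h) mem_nil)) mem_nil cw21706
theorem W21728 : WFK w21728 := fun D T h => wf_of_chk h mem_nil (mem_cons (L259 D T h) mem_nil) cw21728
theorem W21729 : WFK w21729 := fun D T h => wf_of_chk h mem_nil (mem_cons (L4669 D T h) mem_nil) cw21729
theorem W21730 : WFK w21730 := fun D T h => wf_of_chk h mem_nil (mem_cons (L4648 D T h) mem_nil) cw21730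
theorem W21737 : WFK w21737 := fun D T h => wf_of_chk h mem_nil (mem_cons (L1458 D T h) mem_nil) cw21737
theorem W21738 : WFK w21738 := fun D T h => wf_of_chk h mem_nil (mem_cons (L1738 D T h) mem_nil) cw21738
theorem W21739 : WFK w21739 := fun D T h => wf_of_chk h mem_nil (mem_cons (L115 D T h) mem_nil) cw21739
theorem W21770 : WFK w21770 := fun D T h => wf_of_chk h mem_nil (mem_cons (L2904 D T h) mem_nil) cw21770
theorem W21771 : WFK w21771 := fun D T h => wf_of_chk h mem_nil (mem_cons (L2179 D T h) mem_nil) cw21771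
theorem W21786 : WFK w21786 := fun D T h => wf_of_chk h (mem_cons (W16 D T h) (mem_cons (W21522 D T h) mem_nil)) mem_nil cw21786
theorem W21830 : WFK w21830 := fun D T h => wf_of_chk h mem_nil (mem_cons (L3725 D T h) mem_nil) cw21830
theorem L4822 : LFK l4822 := fun D T h => lf_of_chk h (mem_cons (W21739 D T h) (mem_cons (W261 D T h) (mem_cons (W6553 D T h) (mem_cons (W21522 D T h) (mem_cons (W21729 D T h) (mem_cons (W21737 D T h) (mem_cons (W21738 D T h) (mem_cons (W21786 D T h) (mem_cons (W21830 D T h) (mem_cons (W15989 D T h) (mem_cons (W15993 D T h) (mem_cons (W15984 D T h) (mem_cons (W15983 D T h) mem_nil))))))))))))) cl4822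
theorem W21832 : WFK w21832 := fun D T h => wf_of_chk h mem_nil (mem_cons (L4822 D T h) mem_nil) cw21832
theorem L4823 : LFK l4823 := fun D T h => lf_of_chk h (mem_cons (W11997 D T h) (mem_cons (W261 D T h) (mem_cons (W5157 D T h) (mem_cons (W21522 D T h) (mem_cons (W21729 D T h) (mem_cons (W21770 D T h) (mem_cons (W21771 D T h) (mem_cons (W21786 D T h) (mem_cons (W21830 D T h) (mem_cons (W15982 D T h) (mem_cons (W15981 D T h) (mem_cons (W15984 D T h) (mem_cons (W21728 D T h) (mem_cons (W21739 D T h) (mem_cons (W15983 D T h) mem_nil))))))))))))))) cl4823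
theorem W21833 : WFK w21833 := fun D T h => wf_of_chk h mem_nil (mem_cons (L4823 D T h) mem_nil) cw21833
theorem W21834 : WFK w21834 := fun D T h => wf_of_chk h (mem_cons (W178 D T h) (mem_cons (W16 D T h) mem_nil)) mem_nil cw21834
theorem W21853 : WFK w21853 := fun D T h => wf_of_chk h (mem_cons (W6647 D T h) mem_nil) mem_nil cw21853
theorem L4825 : LFK l4825 := fun D T h => lf_of_chk h (mem_cons (W15784 D T h) (mem_cons (W2840 D T h) (mem_cons (W16972 D T h) (mem_cons (W1206 D T h) (mem_cons (W16604 D T h) (mem_cons (W15786 D T h) (mem_cons (W1339 D T h) (mem_cons (W724 D T h) (mem_cons (W15007 D T h) (mem_cons (W21853 D T h) mem_nil)))))))))) cl4825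
theorem W21854 : WFK w21854 := fun D T h => wf_of_chk h mem_nil (mem_cons (L4825 D T h) mem_nil) cw21854
theorem W21858 : WFK w21858 := fun D T h => wf_of_chk h (mem_cons (W3 D T h) mem_nil) mem_nil cw21858
theorem W21859 : WFK w21859 := fun D T h => wf_of_chk h mem_nil (mem_cons (L3065 D T h) mem_nil) cw21859
theorem W21863 : WFK w21863 := fun D T h => wf_of_chk h mem_nil (mem_cons (L595 D T h) mem_nil) cw21863
theorem W21864 : WFK w21864 := fun D T h => wf_of_chk h mem_nil (mem_cons (L297 D T h) mem_nil) cw21864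
theorem W21865 : WFK w21865 := fun D T h => wf_of_chk h mem_nil (mem_cons (L297 D T h) mem_nil) cw21865
theorem L4828 : LFK l4828 := fun D T h => lf_of_chk h (mem_cons (W6558 D T h) (mem_cons (W7618 D T h) (mem_cons (W2515 D T h) (mem_cons (W1932 D T h) (mem_cons (W12452 D T h) (mem_cons (W6962 D T h) (mem_cons (W12 D T h) (mem_cons (W8025 D T h) (mem_cons (W13 D T h) (mem_cons (W16 D T h) (mem_cons (W1765 D T h) (mem_cons (W21863 D T h) (mem_cons (W21864 D T h) (mem_cons (W5465 D T h) (mem_cons (W21865 D T h) mem_nil))))))))))))))) cl4828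
theorem W21866 : WFK w21866 := fun D T h => wf_of_chk h mem_nil (mem_cons (L4828 D T h) mem_nil) cw21866
theorem W21867 : WFK w21867 := fun D T h => wf_of_chk h (mem_cons (W257 D T h) mem_nil) mem_nil cw21867
theorem W21868 : WFK w21868 := fun D T h => wf_of_chk h (mem_cons (W748 D T h) mem_nil) mem_nil cw21868
theorem W21869 : WFK w21869 := fun D T h => wf_of_chk h (mem_cons (W6021 D T h) mem_nil) mem_nil cw21869
theorem W21870 : WFK w21870 := fun D T h => wf_of_chk h (mem_cons (W13672 D T h) mem_nil) mem_nil cw21870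
theorem W21871 : WFK w21871 := fun D T h => wf_of_chk h (mem_cons (W750 D T h) mem_nil) mem_nil cw21871
theorem W21872 : WFK w21872 := fun D T h => wf_of_chk h mem_nil (mem_cons (L2306 D T h) mem_nil) cw21872
theorem L4829 : LFK l4829 := fun D T h => lf_of_chk h (mem_cons (W17641 D T h) (mem_cons (W6647 D T h) (mem_cons (W281 D T h) (mem_cons (W1412 D T h) (mem_cons (W13387 D T h) (mem_cons (W21858 D T h) (mem_cons (W21859 D T h) (mem_cons (W21872 D T h) (mem_cons (W391 D T h) (mem_cons (W2766 D T h) (mem_cons (W21869 D T h) (mem_cons (W7402 D T h) (mem_cons (W4192 D T h) (mem_cons (W21870 D T h) (mem_cons (W724 D T h) (mem_cons (W21871 D T h) mem_nil)))))))))))))))) cl4829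
theorem W21873 : WFK w21873 := fun D T h => wf_of_chk h mem_nil (mem_cons (L4829 D T h) mem_nil) cw21873
theorem L4830 : LFK l4830 := fun D T h => lf_of_chk h (mem_cons (W12562 D T h) (mem_cons (W2936 D T h) (mem_cons (W17429 D T h) (mem_cons (W9025 D T h) (mem_cons (W178 D T h) (mem_cons (W12553 D T h) (mem_cons (W18468 D T h) (mem_cons (W12554 D T h) (mem_cons (W3766 D T h) (mem_cons (W18904 D T h) (mem_cons (W21866 D T h) (mem_cons (W6647 D T h) (mem_cons (W16 D T h) (mem_cons (W15632 D T h) (mem_cons (W21854 D T h) (mem_cons (W21873 D T h) (mem_cons (W11570 D T h) (mem_cons (W12559 D T h) (mem_cons (W2539 D T h) (mem_cons (W11050 D T h) (mem_cons (W284 D T h) (mem_cons (W15884 D T h) (mem_cons (W15883 D T h) (mem_cons (W18058 D T h) (mem_cons (W12556 D T h) (mem_cons (W748 D T h) (mem_cons (W747 D T h) (mem_cons (W21867 D T h) (mem_cons (W21868 D T h) (mem_cons (W7358 D T h) (mem_cons (W11045 D T h) (mem_cons (W5247 D T h) (mem_cons (W342 D T h) (mem_cons (W12561 D T h) (mem_cons (W17218 D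 T h) (mem_cons (W7444 D T h) mem_nil)))))))))))))))))))))))))))))))))))) cl4830
theorem W21874 : WFK w21874 := fun D T h => wf_of_chk h mem_nil (mem_cons (L4830 D T h) mem_nil) cw21874
theorem W21880 : WFK w21880 := fun D T h => wf_of_chk h (mem_cons (W17429 D T h) mem_nil) mem_nil cw21880
theorem W21883 : WFK w21883 := fun D T h => wf_of_chk h (mem_cons (W1408 D T h) (mem_cons (W16 D T h) mem_nil)) mem_nil cw21883
theorem W21884 : WFK w21884 := fun D T h => wf_of_chk h (mem_cons (W2037 D T h) (mem_cons (W16 D T h) mem_nil)) mem_nil cw21884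
theorem L4835 : LFK l4835 := fun D T h => lf_of_chk h (mem_cons (W16972 D T h) (mem_cons (W39 D T h) (mem_cons (W69 D T h) (mem_cons (W80 D T h) (mem_cons (W17153 D T h) (mem_cons (W2840 D T h) mem_nil)))))) cl4835
theorem W21887 : WFK w21887 := fun D T h => wf_of_chk h mem_nil (mem_cons (L4835 D T h) mem_nil) cw21887
theorem W21889 : WFK w21889 := fun D T h => wf_of_chk h mem_nil (mem_cons (L1379 D T h) mem_nil) cw21889
theorem W21890 : WFK w21890 := fun D T h => wf_of_chk h (mem_cons (W762 D T h) (mem_cons (W16 D T h) mem_nil)) mem_nil cw21890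
theorem W21891 : WFK w21891 := fun D T h => wf_of_chk h (mem_cons (W21266 D T h) (mem_cons (W16 D T h) mem_nil)) mem_nil cw21891
theorem W21892 : WFK w21892 := fun D T h => wf_of_chk h (mem_cons (W448 D T h) mem_nil) mem_nil cw21892
theorem W21893 : WFK w21893 := fun D T h => wf_of_chk h (mem_cons (W162 D T h) (mem_cons (W21892 D T h) mem_nil)) mem_nil cw21893
theorem L4836 : LFK l4836 := fun D T h => lf_of_chk h (mem_cons (W11588 D T h) (mem_cons (W7424 D T h) (mem_cons (W3974 D T h) (mem_cons (W2037 D T h) (mem_cons (W8783 D T h) (mem_cons (W15174 D T h) (mem_cons (W6719 D T h) (mem_cons (W2936 D T h) (mem_cons (W21887 D T h) (mem_cons (W21892 D T h) (mem_cons (W11568 D T h) (mem_cons (W11573 D T h) (mem_cons (W11574 D T h) (mem_cons (W3955 D T h) (mem_cons (W16 D T h) (mem_cons (W284 D T h) (mem_cons (W21893 D T h) (mem_cons (W2934 D T h) (mem_cons (W3964 D T h) (mem_cons (W11576 D T h) (mem_cons (W21880 D T h) (mem_cons (W12634 D T h) (mem_cons (W14935 D T h) (mem_cons (W3959 D T h) (mem_cons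 (W15884 D T h) (mem_cons (W9432 D T h) (mem_cons (W11580 D T h) (mem_cons (W11579 D T h) (mem_cons (W6636 D T h) (mem_cons (W11581 D T h) (mem_cons (W21889 D T h) (mem_cons (W21890 D T h) (mem_cons (W3766 D T h) (mem_cons (W3978 D T h) (mem_cons (W3977 D T h) (mem_cons (W21891 D T h) mem_nil)))))))))))))))))))))))))))))))))))) cl4836
theorem W21894 : WFK w21894 := fun D T h => wf_of_chk h mem_nil (mem_cons (L4836 D T h) mem_nil) cw21894
theorem W21895 : WFK w21895 := fun D T h => wf_of_chk h (mem_cons (W162 D T h) (mem_cons (W284 D T h) mem_nil)) mem_nil cw21895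
theorem L4837 : LFK l4837 := fun D T h => lf_of_chk h (mem_cons (W14063 D T h) (mem_cons (W6758 D T h) (mem_cons (W6719 D T h) (mem_cons (W2936 D T h) (mem_cons (W2709 D T h) (mem_cons (W21883 D T h) (mem_cons (W284 D T h) (mem_cons (W2934 D T h) (mem_cons (W17873 D T h) (mem_cons (W18180 D T h) (mem_cons (W16 D T h) (mem_cons (W11744 D T h) (mem_cons (W21895 D T h) (mem_cons (W2219 D T h) (mem_cons (W15784 D T h) (mem_cons (W15884 D T h) (mem_cons (W15883 D T h) (mem_cons (W21894 D T h) (mem_cons (W7996 D T h) (mem_cons (W7864 D T h) (mem_cons (W21884 D T h) (mem_cons (W11073 D T h) (mem_cons (W21874 D T h) (mem_cons (W16580 D T h) (mem_cons (W7862 D T h) mem_nil))))))))))))))))))))))))) cl4837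
theorem W21896 : WFK w21896 := fun D T h => wf_of_chk h mem_nil (mem_cons (L4837 D T h) mem_nil) cw21896
theorem W21914 : WFK w21914 := fun D T h => wf_of_chk h mem_nil (mem_cons (L3597 D T h) mem_nil) cw21914
theorem W21925 : WFK w21925 := fun D T h => wf_of_chk h (mem_cons (W16 D T h) mem_nil) mem_nil cw21925
theorem W21932 : WFK w21932 := fun D T h => wf_of_chk h mem_nil (mem_cons (L4669 D T h) mem_nil) cw21932
theorem W21985 : WFK w21985 := fun D T h => wf_of_chk h (mem_cons (W3006 D T h) mem_nil) mem_nil cw21985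
theorem W21989 : WFK w21989 := fun D T h => wf_of_chk h (mem_cons (W16 D T h) (mem_cons (W2346 D T h) mem_nil)) mem_nil cw21989
theorem W21992 : WFK w21992 := fun D T h => wf_of_chk h mem_nil (mem_cons (L4645 D T h) mem_nil) cw21992
theorem W22001 : WFK w22001 := fun D T h => wf_of_chk h mem_nil (mem_cons (L1073 D T h) mem_nil) cw22001
theorem W22007 : WFK w22007 := fun D T h => wf_of_chk h mem_nil (mem_cons (L152 D T h) mem_nil) cw22007
theorem L4861 : LFK l4861 := fun D T h => lf_of_chk h (mem_cons (W3112 D T h) (mem_cons (W22007 D T h) (mem_cons (W8 D T h) (mem_cons (W4073 D T h) (mem_cons (W233 D T h) mem_nil))))) cl4861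
theorem W22024 : WFK w22024 := fun D T h => wf_of_chk h (mem_cons (W42 D T h) mem_nil) mem_nil cw22024
theorem W22033 : WFK w22033 := fun D T h => wf_of_chk h (mem_cons (W267 D T h) mem_nil) mem_nil cw22033
theorem W22034 : WFK w22034 := fun D T h => wf_of_chk h (mem_cons (W721 D T h) mem_nil) mem_nil cw22034
theorem W22036 : WFK w22036 := fun D T h => wf_of_chk h (mem_cons (W5841 D T h) mem_nil) mem_nil cw22036
theorem W22084 : WFK w22084 := fun D T h => wf_of_chk h mem_nil (mem_cons (L3725 D T h) mem_nil) cw22084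
theorem W22095 : WFK w22095 := fun D T h => wf_of_chk h (mem_cons (W1637 D T h) mem_nil) mem_nil cw22095
theorem W22137 : WFK w22137 := fun D T h => wf_of_chk h mem_nil (mem_cons (L4435 D T h) mem_nil) cw22137
theorem W22139 : WFK w22139 := fun D T h => wf_of_chk h mem_nil (mem_cons (L4060 D T h) mem_nil) cw22139
theorem W22140 : WFK w22140 := fun D T h => wf_of_chk h mem_nil (mem_cons (L2206 D T h) mem_nil) cw22140
theorem W22142 : WFK w22142 := fun D T h => wf_of_chk h mem_nil (mem_cons (L153 D T h) mem_nil) cw22142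
theorem W22165 : WFK w22165 := fun D T h => wf_of_chk h (mem_cons (W6935 D T h) (mem_cons (W16 D T h) mem_nil)) mem_nil cw22165
theorem W22192 : WFK w22192 := fun D T h => wf_of_chk h (mem_cons (W15810 D T h) (mem_cons (W16 D T h) mem_nil)) mem_nil cw22192
theorem W22196 : WFK w22196 := fun D T h => wf_of_chk h (mem_cons (W2015 D T h) (mem_cons (W16 D T h) mem_nil)) mem_nil cw22196
theorem W22204 : WFK w22204 := fun D T h => wf_of_chk h mem_nil (mem_cons (L1537 D T h) mem_nil) cw22204
theorem W22205 : WFK w22205 := fun D T h => wf_of_chk h mem_nil (mem_cons (L1579 D T h) mem_nil) cw22205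
theorem W22221 : WFK w22221 := fun D T h => wf_of_chk h (mem_cons (W2015 D T h) mem_nil) mem_nil cw22221
theorem W22227 : WFK w22227 := fun D T h => wf_of_chk h (mem_cons (W3766 D T h) (mem_cons (W16 D T h) mem_nil)) mem_nil cw22227
theorem W22229 : WFK w22229 := fun D T h => wf_of_chk h (mem_cons (W69 D T h) mem_nil) mem_nil cw22229
theorem W22230 : WFK w22230 := fun D T h => wf_of_chk h (mem_cons (W10772 D T h) mem_nil) mem_nil cw22230
theorem L4912 : LFK l4912 := fun D T h => lf_of_chk h (mem_cons (W5841 D T h) (mem_cons (W220 D T h) (mem_cons (W142 D T h) (mem_cons (W158 D T h) (mem_cons (W141 D T h) (mem_cons (W18330 D T h) (mem_cons (W11224 D T h) (mem_cons (W8989 D T h) (mem_cons (W1379 D T h) (mem_cons (W16269 D T h) (mem_cons (W1325 D T h) (mem_cons (W1556 D T h) (mem_cons (W3312 D T h) (mem_cons (W1554 D T h) (mem_cons (W6793 D T h) (mem_cons (W3 D T h) (mem_cons (W1919 D T h) (mem_cons (W39 D T h) mem_nil)))))))))))))))))) cl4912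
theorem W22245 : WFK w22245 := fun D T h => wf_of_chk h mem_nil (mem_cons (L1704 D T h) mem_nil) cw22245
theorem W22246 : WFK w22246 := fun D T h => wf_of_chk h (mem_cons (W7230 D T h) (mem_cons (W16 D T h) mem_nil)) mem_nil cw22246
theorem W22263 : WFK w22263 := fun D T h => wf_of_chk h (mem_cons (W9025 D T h) (mem_cons (W16 D T h) mem_nil)) mem_nil cw22263
theorem W22268 : WFK w22268 := fun D T h => wf_of_chk h mem_nil (mem_cons (L2343 D T h) mem_nil) cw22268
theorem W22271 : WFK w22271 := fun D T h => wf_of_chk h mem_nil (mem_cons (L3753 D T h) mem_nil) cw22271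
theorem W22280 : WFK w22280 := fun D T h => wf_of_chk h (mem_cons (W7114 D T h) mem_nil) mem_nil cw22280
theorem L4924 : LFK l4924 := fun D T h => lf_of_chk h (mem_cons (W20252 D T h) (mem_cons (W42 D T h) (mem_cons (W69 D T h) (mem_cons (W281 D T h) (mem_cons (W86 D T h) (mem_cons (W1412 D T h) (mem_cons (W8081 D T h) (mem_cons (W8082 D T h) (mem_cons (W33 D T h) (mem_cons (W16278 D T h) (mem_cons (W4 D T h) (mem_cons (W1588 D T h) (mem_cons (W1355 D T h) (mem_cons (W16734 D T h) (mem_cons (W21513 D T h) (mem_cons (W259 D T h) (mem_cons (W4262 D T h) (mem_cons (W1636 D T h) (mem_cons (W14014 D T h) (mem_cons (W1356 D T h) mem_nil)))))))))))))))))))) cl4924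
theorem W22289 : WFK w22289 := fun D T h => wf_of_chk h mem_nil (mem_cons (L4924 D T h) mem_nil) cw22289
theorem W22300 : WFK w22300 := fun D T h => wf_of_chk h (mem_cons (W16 D T h) (mem_cons (W7114 D T h) mem_nil)) mem_nil cw22300
theorem L4929 : LFK l4929 := fun D T h => lf_of_chk h (mem_cons (W1 D T h) (mem_cons (W48 D T h) (mem_cons (W2764 D T h) (mem_cons (W91 D T h) (mem_cons (W158 D T h) (mem_cons (W33 D T h) (mem_cons (W6006 D T h) (mem_cons (W109 D T h) (mem_cons (W10 D T h) (mem_cons (W168 D T h) (mem_cons (W1994 D T h) (mem_cons (W17584 D T h) (mem_cons (W161 D T h) (mem_cons (W2047 D T h) (mem_cons (W189 D T h) mem_nil))))))))))))))) cl4929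
theorem W22315 : WFK w22315 := fun D T h => wf_of_chk h mem_nil (mem_cons (L2067 D T h) mem_nil) cw22315
theorem W22317 : WFK w22317 := fun D T h => wf_of_chk h mem_nil (mem_cons (L1225 D T h) mem_nil) cw22317
theorem W22318 : WFK w22318 := fun D T h => wf_of_chk h mem_nil (mem_cons (L1225 D T h) mem_nil) cw22318
theorem W22320 : WFK w22320 := fun D T h => wf_of_chk h mem_nil (mem_cons (L1747 D T h) mem_nil) cw22320
theorem W22321 : WFK w22321 := fun D T h => wf_of_chk h (mem_cons (W220 D T h) (mem_cons (W158 D T h) mem_nil)) mem_nil cw22321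
theorem W22322 : WFK w22322 := fun D T h => wf_of_chk h mem_nil (mem_cons (L1747 D T h) mem_nil) cw22322
theorem L4936 : LFK l4936 := fun D T h => lf_of_chk h (mem_cons (W860 D T h) (mem_cons (W18 D T h) (mem_cons (W11 D T h) (mem_cons (W731 D T h) (mem_cons (W4073 D T h) (mem_cons (W861 D T h) (mem_cons (W10191 D T h) (mem_cons (W9320 D T h) (mem_cons (W137 D T h) mem_nil))))))))) cl4936
theorem W22323 : WFK w22323 := fun D T h => wf_of_chk h mem_nil (mem_cons (L4936 D T h) mem_nil) cw22323
theorem L4937 : LFK l4937 := fun D T h => lf_of_chk h (mem_cons (W7114 D T h) (mem_cons (W461 D T h) (mem_cons (W141 D T h) (mem_cons (W18330 D T h) (mem_cons (W5841 D T h) (mem_cons (W259 D T h) (mem_cons (W7707 D T h) (mem_cons (W22323 D T h) (mem_cons (W2766 D T h) (mem_cons (W9595 D T h) (mem_cons (W5442 D T h) (mem_cons (W22317 D T h) (mem_cons (W22318 D T h) (mem_cons (W5575 D T h) (mem_cons (W14519 D T h) (mem_cons (W1400 D T h) (mem_cons (W9125 D T h) (mem_cons (W22320 D T h) (mem_cons (W1924 D T h)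 (mem_cons (W22321 D T h) (mem_cons (W22322 D T h) mem_nil))))))))))))))))))))) cl4937
theorem W22335 : WFK w22335 := fun D T h => wf_of_chk h (mem_cons (W7114 D T h) (mem_cons (W2015 D T h) mem_nil)) mem_nil cw22335
theorem W22337 : WFK w22337 := fun D T h => wf_of_chk h mem_nil (mem_cons (L4631 D T h) mem_nil) cw22337
theorem W22338 : WFK w22338 := fun D T h => wf_of_chk h mem_nil (mem_cons (L4631 D T h) mem_nil) cw22338
theorem W22343 : WFK w22343 := fun D T h => wf_of_chk h (mem_cons (W69 D T h) (mem_cons (W18058 D T h) mem_nil)) mem_nil cw22343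
theorem W22351 : WFK w22351 := fun D T h => wf_of_chk h (mem_cons (W7114 D T h) (mem_cons (W42 D T h) mem_nil)) mem_nil cw22351
theorem W22356 : WFK w22356 := fun D T h => wf_of_chk h (mem_cons (W5187 D T h) (mem_cons (W16 D T h) mem_nil)) mem_nil cw22356
theorem W22368 : WFK w22368 := fun D T h => wf_of_chk h mem_nil (mem_cons (L4017 D T h) mem_nil) cw22368
theorem W22387 : WFK w22387 := fun D T h => wf_of_chk h (mem_cons (W4262 D T h) (mem_cons (W16 D T h) mem_nil)) mem_nil cw22387
theorem W22388 : WFK w22388 := fun D T h => wf_of_chk h (mem_cons (W20252 D T h) (mem_cons (W16 D T h) mem_nil)) mem_nil cw22388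
theorem L4957 : LFK l4957 := fun D T h => lf_of_chk h (mem_cons (W15784 D T h) (mem_cons (W6433 D T h) (mem_cons (W5258 D T h) (mem_cons (W15 D T h) (mem_cons (W16972 D T h) (mem_cons (W1501 D T h) (mem_cons (W3797 D T h) (mem_cons (W15786 D T h) (mem_cons (W17 D T h) (mem_cons (W12445 D T h) (mem_cons (W7212 D T h) (mem_cons (W8655 D T h) mem_nil)))))))))))) cl4957
theorem W22403 : WFK w22403 := fun D T h => wf_of_chk h mem_nil (mem_cons (L4957 D T h) mem_nil) cw22403
theorem L4962 : LFK l4962 := fun D T h => lf_of_chk h (mem_cons (W5158 D T h) (mem_cons (W1 D T h) (mem_cons (W158 D T h) (mem_cons (W808 D T h) (mem_cons (W576 D T h) (mem_cons (W9691 D T h) (mem_cons (W5052 D T h) (mem_cons (W191 D T h) (mem_cons (W603 D T h) (mem_cons (W604 D T h) (mem_cons (W889 D T h) (mem_cons (W10986 D T h) (mem_cons (W9981 D T h) (mem_cons (W6118 D T h) mem_nil)))))))))))))) cl4962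
theorem W22414 : WFK w22414 := fun D T h => wf_of_chk h mem_nil (mem_cons (L4962 D T h) mem_nil) cw22414
theorem L4963 : LFK l4963 := fun D T h => lf_of_chk h (mem_cons (W1408 D T h) (mem_cons (W16 D T h) (mem_cons (W1166 D T h) (mem_cons (W17 D T h) (mem_cons (W24 D T h) (mem_cons (W15807 D T h) (mem_cons (W3392 D T h) (mem_cons (W3335 D T h) (mem_cons (W620 D T h) (mem_cons (W3 D T h) (mem_cons (W22414 D T h) (mem_cons (W3808 D T h) (mem_cons (W1449 D T h) (mem_cons (W1448 D T h) mem_nil)))))))))))))) cl4963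
theorem W22415 : WFK w22415 := fun D T h => wf_of_chk h mem_nil (mem_cons (L4963 D T h) mem_nil) cw22415
theorem L4964 : LFK l4964 := fun D T h => lf_of_chk h (mem_cons (W2997 D T h) (mem_cons (W177 D T h) (mem_cons (W50 D T h) (mem_cons (W17562 D T h) (mem_cons (W2373 D T h) (mem_cons (W14 D T h) (mem_cons (W9410 D T h) (mem_cons (W3335 D T h) (mem_cons (W12017 D T h) (mem_cons (W42 D T h) (mem_cons (W4877 D T h) (mem_cons (W3038 D T h) (mem_cons (W8281 D T h) (mem_cons (W9582 D T h) (mem_cons (W8282 D T h) (mem_cons (W508 D T h) (mem_cons (W5222 D T h) (mem_cons (W7041 D T h) (mem_cons (W5721 D T h) (mem_cons (W22415 D T h) (mem_cons (W10472 D T h) (mem_cons (W2159 D T h) (mem_cons (W21833 D T h) mem_nil))))))))))))))))))))))) cl4964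
theorem W22416 : WFK w22416 := fun D T h => wf_of_chk h mem_nil (mem_cons (L4964 D T h) mem_nil) cw22416
theorem W22417 : WFK w22417 := fun D T h => wf_of_chk h mem_nil (mem_cons (L4964 D T h) mem_nil) cw22417
theorem L4965 : LFK l4965 := fun D T h => lf_of_chk h (mem_cons (W581 D T h) (mem_cons (W5258 D T h) (mem_cons (W37 D T h) (mem_cons (W141 D T h) (mem_cons (W140 D T h) (mem_cons (W1128 D T h) (mem_cons (W10850 D T h) (mem_cons (W12 D T h) (mem_cons (W1616 D T h) (mem_cons (W5358 D T h) (mem_cons (W1070 D T h) (mem_cons (W747 D T h) (mem_cons (W255 D T h) (mem_cons (W638 D T h) (mem_cons (W871 D T h) (mem_cons (W160 D T h) (mem_cons (W20086 D T h) mem_nil))))))))))))))))) cl4965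
theorem W22418 : WFK w22418 := fun D T h => wf_of_chk h mem_nil (mem_cons (L4965 D T h) mem_nil) cw22418
theorem W22419 : WFK w22419 := fun D T h => wf_of_chk h mem_nil (mem_cons (L1146 D T h) mem_nil) cw22419
theorem L4966 : LFK l4966 := fun D T h => lf_of_chk h (mem_cons (W3953 D T h) (mem_cons (W3511 D T h) (mem_cons (W2027 D T h) (mem_cons (W37 D T h) (mem_cons (W7084 D T h) (mem_cons (W5874 D T h) (mem_cons (W5875 D T h) (mem_cons (W2318 D T h) (mem_cons (W2015 D T h) (mem_cons (W164 D T h) (mem_cons (W1449 D T h) (mem_cons (W14334 D T h) (mem_cons (W13466 D T h) (mem_cons (W7436 D T h) (mem_cons (W13596 D T h) (mem_cons (W2051 D T h) (mem_cons (W22419 D T h) (mem_cons (W7076 D T h) (mem_cons (W581 D T h) (mem_cons (W1326 D T h) (mem_cons (W17979 D T h) (mem_cons (W495 D T h) (mem_cons (W497 D T h) (mem_cons (W7229 D T h) (mem_cons (W7505 D T h) (mem_cons (W2405 D T h) (mem_cons (W1227 D T h) (mem_cons (W22418 D T h) mem_nil)))))))))))))))))))))))))))) cl4966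
theorem W22420 : WFK w22420 := fun D T h => wf_of_chk h mem_nil (mem_cons (L4966 D T h) mem_nil) cw22420
theorem W22421 : WFK w22421 := fun D T h => wf_of_chk h (mem_cons (W368 D T h) (mem_cons (W37 D T h) mem_nil)) mem_nil cw22421
theorem L4967 : LFK l4967 := fun D T h => lf_of_chk h (mem_cons (W3304 D T h) (mem_cons (W284 D T h) (mem_cons (W42 D T h) (mem_cons (W1063 D T h) (mem_cons (W7084 D T h) (mem_cons (W35 D T h) (mem_cons (W7114 D T h) (mem_cons (W1554 D T h) (mem_cons (W219 D T h) (mem_cons (W22421 D T h) (mem_cons (W7559 D T h) (mem_cons (W21212 D T h) (mem_cons (W11997 D T h) (mem_cons (W11995 D T h) (mem_cons (W757 D T h) (mem_cons (W18669 D T h) mem_nil)))))))))))))))) cl4967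
theorem W22422 : WFK w22422 := fun D T h => wf_of_chk h mem_nil (mem_cons (L4967 D T h) mem_nil) cw22422
theorem W22423 : WFK w22423 := fun D T h => wf_of_chk h (mem_cons (W126 D T h) (mem_cons (W2024 D T h) mem_nil)) mem_nil cw22423
theorem L4970 : LFK l4970 := fun D T h => lf_of_chk h (mem_cons (W219 D T h) (mem_cons (W15 D T h) (mem_cons (W1 D T h) (mem_cons (W141 D T h) (mem_cons (W795 D T h) (mem_cons (W5157 D T h) (mem_cons (W1946 D T h) (mem_cons (W1951 D T h) (mem_cons (W16464 D T h) (mem_cons (W9595 D T h) (mem_cons (W2797 D T h) (mem_cons (W499 D T h) mem_nil)))))))))))) cl4970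
theorem W22427 : WFK w22427 := fun D T h => wf_of_chk h mem_nil (mem_cons (L4970 D T h) mem_nil) cw22427
theorem W22428 : WFK w22428 := fun D T h => wf_of_chk h (mem_cons (W22427 D T h) (mem_cons (W37 D T h) mem_nil)) mem_nil cw22428
theorem L4971 : LFK l4971 := fun D T h => lf_of_chk h (mem_cons (W2015 D T h) (mem_cons (W22428 D T h) (mem_cons (W2321 D T h) (mem_cons (W37 D T h) (mem_cons (W461 D T h) (mem_cons (W1929 D T h) (mem_cons (W126 D T h) (mem_cons (W581 D T h) (mem_cons (W3356 D T h) (mem_cons (W433 D T h) (mem_cons (W2809 D T h) mem_nil))))))))))) cl4971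
theorem W22429 : WFK w22429 := fun D T h => wf_of_chk h mem_nil (mem_cons (L4971 D T h) mem_nil) cw22429
theorem W22430 : WFK w22430 := fun D T h => wf_of_chk h (mem_cons (W105 D T h) (mem_cons (W16 D T h) mem_nil)) mem_nil cw22430
theorem L4972 : LFK l4972 := fun D T h => lf_of_chk h (mem_cons (W22388 D T h) (mem_cons (W16 D T h) (mem_cons (W2517 D T h) (mem_cons (W2519 D T h) (mem_cons (W536 D T h) (mem_cons (W537 D T h) (mem_cons (W2015 D T h) (mem_cons (W515 D T h) (mem_cons (W1355 D T h) (mem_cons (W22430 D T h) (mem_cons (W12997 D T h) (mem_cons (W362 D T h) (mem_cons (W17571 D T h) (mem_cons (W17572 D T h) (mem_cons (W128 D T h) (mem_cons (W7748 D T h) (mem_cons (W799 D T h) (mem_cons (W3034 D T h) (mem_cons (W7708 D T h) (mem_cons (W549 D T h) (mem_cons (W7718 D T h) mem_nil))))))))))))))))))))) cl4972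
theorem W22431 : WFK w22431 := fun D T h => wf_of_chk h mem_nil (mem_cons (L4972 D T h) mem_nil) cw22431
theorem W22432 : WFK w22432 := fun D T h => wf_of_chk h (mem_cons (W22431 D T h) (mem_cons (W37 D T h) mem_nil)) mem_nil cw22432
theorem W22433 : WFK w22433 := fun D T h => wf_of_chk h (mem_cons (W15784 D T h) (mem_cons (W16 D T h) mem_nil)) mem_nil cw22433
theorem W22435 : WFK w22435 := fun D T h => wf_of_chk h (mem_cons (W5567 D T h) (mem_cons (W37 D T h) mem_nil)) mem_nil cw22435
theorem W22436 : WFK w22436 := fun D T h => wf_of_chk h (mem_cons (W2037 D T h) (mem_cons (W37 D T h) mem_nil)) mem_nil cw22436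
theorem W22443 : WFK w22443 := fun D T h => wf_of_chk h (mem_cons (W39 D T h) (mem_cons (W16 D T h) mem_nil)) mem_nil cw22443
theorem L4983 : LFK l4983 := fun D T h => lf_of_chk h (mem_cons (W200 D T h) (mem_cons (W390 D T h) (mem_cons (W6029 D T h) mem_nil))) cl4983
theorem W22453 : WFK w22453 := fun D T h => wf_of_chk h mem_nil (mem_cons (L4983 D T h) mem_nil) cw22453
theorem L4991 : LFK l4991 := fun D T h => lf_of_chk h (mem_cons (W128 D T h) (mem_cons (W1064 D T h) (mem_cons (W219 D T h) (mem_cons (W15 D T h) (mem_cons (W2766 D T h) (mem_cons (W4566 D T h) (mem_cons (W3688 D T h) (mem_cons (W581 D T h) (mem_cons (W4038 D T h) (mem_cons (W8397 D T h) (mem_cons (W18059 D T h) (mem_cons (W1192 D T h) mem_nil)))))))))))) cl4991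
theorem W22462 : WFK w22462 := fun D T h => wf_of_chk h mem_nil (mem_cons (L4991 D T h) mem_nil) cw22462
theorem W22463 : WFK w22463 := fun D T h => wf_of_chk h mem_nil (mem_cons (L1 D T h) mem_nil) cw22463
theorem L4992 : LFK l4992 := fun D T h => lf_of_chk h (mem_cons (W16604 D T h) (mem_cons (W2764 D T h) (mem_cons (W91 D T h) (mem_cons (W33 D T h) (mem_cons (W2766 D T h) (mem_cons (W1551 D T h) (mem_cons (W1539 D T h) (mem_cons (W1542 D T h) (mem_cons (W2635 D T h) (mem_cons (W638 D T h) mem_nil)))))))))) cl4992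
theorem W22464 : WFK w22464 := fun D T h => wf_of_chk h mem_nil (mem_cons (L4992 D T h) mem_nil) cw22464
theorem L4997 : LFK l4997 := fun D T h => lf_of_chk h (mem_cons (W179 D T h) mem_nil) cl4997
theorem W22471 : WFK w22471 := fun D T h => wf_of_chk h mem_nil (mem_cons (L4997 D T h) mem_nil) cw22471
theorem L4999 : LFK l4999 := fun D T h => lf_of_chk h (mem_cons (W10099 D T h) (mem_cons (W281 D T h) (mem_cons (W784 D T h) (mem_cons (W1245 D T h) (mem_cons (W1944 D T h) (mem_cons (W6773 D T h) mem_nil)))))) cl4999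
theorem W22476 : WFK w22476 := fun D T h => wf_of_chk h mem_nil (mem_cons (L4999 D T h) mem_nil) cw22476
theorem W22478 : WFK w22478 := fun D T h => wf_of_chk h (mem_cons (W42 D T h) mem_nil) mem_nil cw22478
theorem L5000 : LFK l5000 := fun D T h => lf_of_chk h (mem_cons (W1 D T h) (mem_cons (W42 D T h) (mem_cons (W91 D T h) (mem_cons (W158 D T h) (mem_cons (W4 D T h) (mem_cons (W33 D T h) (mem_cons (W87 D T h) (mem_cons (W248 D T h) (mem_cons (W2764 D T h) (mem_cons (W10 D T h) (mem_cons (W109 D T h) (mem_cons (W20000 D T h) mem_nil)))))))))))) cl5000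
theorem W22479 : WFK w22479 := fun D T h => wf_of_chk h mem_nil (mem_cons (L5000 D T h) mem_nil) cw22479
theorem L5001 : LFK l5001 := fun D T h => lf_of_chk h (mem_cons (W5449 D T h) (mem_cons (W42 D T h) mem_nil)) cl5001
theorem W22480 : WFK w22480 := fun D T h => wf_of_chk h mem_nil (mem_cons (L5001 D T h) mem_nil) cw22480
theorem L5002 : LFK l5002 := fun D T h => lf_of_chk h (mem_cons (W1919 D T h) (mem_cons (W5449 D T h) (mem_cons (W22478 D T h) (mem_cons (W22479 D T h) (mem_cons (W22480 D T h) (mem_cons (W109 D T h) (mem_cons (W3518 D T h) (mem_cons (W2690 D T h) (mem_cons (W3274 D T h) (mem_cons (W6718 D T h) (mem_cons (W22463 D T h) (mem_cons (W143 D T h) (mem_cons (W67 D T h) mem_nil))))))))))))) cl5002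
theorem W22481 : WFK w22481 := fun D T h => wf_of_chk h mem_nil (mem_cons (L5002 D T h) mem_nil) cw22481
theorem L5006 : LFK l5006 := fun D T h => lf_of_chk h mem_nil cl5006
theorem W22509 : WFK w22509 := fun D T h => wf_of_chk h (mem_cons (W1170 D T h) (mem_cons (W16 D T h) mem_nil)) mem_nil cw22509
theorem W22521 : WFK w22521 := fun D T h => wf_of_chk h (mem_cons (W831 D T h) (mem_cons (W42 D T h) mem_nil)) mem_nil cw22521
theorem W22532 : WFK w22532 := fun D T h => wf_of_chk h (mem_cons (W267 D T h) mem_nil) mem_nil cw22532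
theorem W22534 : WFK w22534 := fun D T h => wf_of_chk h (mem_cons (W721 D T h) mem_nil) mem_nil cw22534
theorem W22536 : WFK w22536 := fun D T h => wf_of_chk h (mem_cons (W42 D T h) mem_nil) mem_nil cw22536
theorem L5012 : LFK l5012 := fun D T h => lf_of_chk h (mem_cons (W6352 D T h) (mem_cons (W109 D T h) (mem_cons (W2766 D T h) (mem_cons (W831 D T h) (mem_cons (W990 D T h) mem_nil))))) cl5012
theorem L5013 : LFK l5013 := fun D T h => lf_of_chk h (mem_cons (W281 D T h) (mem_cons (W10 D T h) (mem_cons (W1101 D T h) (mem_cons (W2766 D T h) (mem_cons (W990 D T h) (mem_cons (W9166 D T h) mem_nil)))))) cl5013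
theorem W22548 : WFK w22548 := fun D T h => wf_of_chk h mem_nil (mem_cons (L261 D T h) mem_nil) cw22548
theorem W22550 : WFK w22550 := fun D T h => wf_of_chk h mem_nil (mem_cons (L4124 D T h) mem_nil) cw22550
theorem W22551 : WFK w22551 := fun D T h => wf_of_chk h mem_nil (mem_cons (L4790 D T h) mem_nil) cw22551
theorem L5015 : LFK l5015 := fun D T h => lf_of_chk h (mem_cons (W22464 D T h) (mem_cons (W281 D T h) (mem_cons (W819 D T h) (mem_cons (W7408 D T h) (mem_cons (W10099 D T h) (mem_cons (W1245 D T h) (mem_cons (W1944 D T h) (mem_cons (W6773 D T h) mem_nil)))))))) cl5015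
theorem W22552 : WFK w22552 := fun D T h => wf_of_chk h mem_nil (mem_cons (L5015 D T h) mem_nil) cw22552
theorem W22553 : WFK w22553 := fun D T h => wf_of_chk h mem_nil (mem_cons (L2404 D T h) mem_nil) cw22553
theorem L5016 : LFK l5016 := fun D T h => lf_of_chk h (mem_cons (W21770 D T h) (mem_cons (W18891 D T h) (mem_cons (W1554 D T h) (mem_cons (W5157 D T h) (mem_cons (W15935 D T h) (mem_cons (W15992 D T h) (mem_cons (W22550 D T h) (mem_cons (W11053 D T h) (mem_cons (W21730 D T h) (mem_cons (W15784 D T h) (mem_cons (W141 D T h) (mem_cons (W500 D T h) (mem_cons (W15997 D T h) (mem_cons (W12891 D T h) (mem_cons (W15998 D T h) (mem_cons (W22551 D T h) (mem_cons (W22552 D T h) (mem_cons (W17137 D T h) (mem_cons (W22553 D T h) (mem_cons (W16007 D T h) mem_nil)))))))))))))))))))) cl5016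
theorem W22554 : WFK w22554 := fun D T h => wf_of_chk h mem_nil (mem_cons (L5016 D T h) mem_nil) cw22554
theorem L5017 : LFK l5017 := fun D T h => lf_of_chk h (mem_cons (W158 D T h) (mem_cons (W22554 D T h) (mem_cons (W802 D T h) (mem_cons (W4 D T h) (mem_cons (W1928 D T h) (mem_cons (W22 D T h) (mem_cons (W125 D T h) (mem_cons (W3232 D T h) (mem_cons (W1075 D T h) (mem_cons (W331 D T h) (mem_cons (W1092 D T h) mem_nil))))))))))) cl5017
theorem W22555 : WFK w22555 := fun D T h => wf_of_chk h mem_nil (mem_cons (L5017 D T h) mem_nil) cw22555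
theorem W22556 : WFK w22556 := fun D T h => wf_of_chk h (mem_cons (W112 D T h) (mem_cons (W42 D T h) mem_nil)) mem_nil cw22556
theorem W22557 : WFK w22557 := fun D T h => wf_of_chk h (mem_cons (W69 D T h) (mem_cons (W42 D T h) mem_nil)) mem_nil cw22557
theorem L5018 : LFK l5018 := fun D T h => lf_of_chk h (mem_cons (W15786 D T h) (mem_cons (W22554 D T h) (mem_cons (W15760 D T h) (mem_cons (W1 D T h) (mem_cons (W69 D T h) (mem_cons (W22036 D T h) (mem_cons (W22555 D T h) (mem_cons (W9005 D T h) (mem_cons (W267 D T h) (mem_cons (W721 D T h) (mem_cons (W22556 D T h) (mem_cons (W114 D T h) (mem_cons (W22557 D T h) mem_nil))))))))))))) cl5018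
theorem W22558 : WFK w22558 := fun D T h => wf_of_chk h mem_nil (mem_cons (L5018 D T h) mem_nil) cw22558
theorem L5022 : LFK l5022 := fun D T h => lf_of_chk h (mem_cons (W1 D T h) (mem_cons (W267 D T h) (mem_cons (W91 D T h) (mem_cons (W4 D T h) (mem_cons (W158 D T h) (mem_cons (W33 D T h) (mem_cons (W87 D T h) (mem_cons (W248 D T h) (mem_cons (W2764 D T h) (mem_cons (W10 D T h) (mem_cons (W109 D T h) (mem_cons (W20000 D T h) mem_nil)))))))))))) cl5022
theorem W22566 : WFK w22566 := fun D T h => wf_of_chk h mem_nil (mem_cons (L5022 D T h) mem_nil) cw22566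
theorem L5025 : LFK l5025 := fun D T h => lf_of_chk h (mem_cons (W67 D T h) (mem_cons (W267 D T h) (mem_cons (W633 D T h) (mem_cons (W903 D T h) (mem_cons (W1797 D T h) mem_nil))))) cl5025
theorem W22573 : WFK w22573 := fun D T h => wf_of_chk h mem_nil (mem_cons (L5025 D T h) mem_nil) cw22573
theorem L5026 : LFK l5026 := fun D T h => lf_of_chk h (mem_cons (W1919 D T h) (mem_cons (W3274 D T h) (mem_cons (W140 D T h) (mem_cons (W22463 D T h) (mem_cons (W267 D T h) (mem_cons (W22566 D T h) (mem_cons (W143 D T h) (mem_cons (W3 D T h) (mem_cons (W22532 D T h) (mem_cons (W14200 D T h) (mem_cons (W22573 D T h) (mem_cons (W2690 D T h) (mem_cons (W257 D T h) mem_nil))))))))))))) cl5026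
theorem W22574 : WFK w22574 := fun D T h => wf_of_chk h mem_nil (mem_cons (L5026 D T h) mem_nil) cw22574
theorem W22577 : WFK w22577 := fun D T h => wf_of_chk h (mem_cons (W1198 D T h) (mem_cons (W16 D T h) mem_nil)) mem_nil cw22577
theorem W22585 : WFK w22585 := fun D T h => wf_of_chk h mem_nil (mem_cons (L4700 D T h) mem_nil) cw22585
theorem W22586 : WFK w22586 := fun D T h => wf_of_chk h (mem_cons (W15784 D T h) (mem_cons (W16 D T h) mem_nil)) mem_nil cw22586
theorem L5030 : LFK l5030 := fun D T h => lf_of_chk h (mem_cons (W1 D T h) (mem_cons (W721 D T h) (mem_cons (W91 D T h) (mem_cons (W4 D T h) (mem_cons (W158 D T h) (mem_cons (W33 D T h) (mem_cons (W87 D T h) (mem_cons (W248 D T h) (mem_cons (W2764 D T h) (mem_cons (W10 D T h) (mem_cons (W109 D T h) (mem_cons (W20000 D T h) mem_nil)))))))))))) cl5030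
theorem W22592 : WFK w22592 := fun D T h => wf_of_chk h mem_nil (mem_cons (L5030 D T h) mem_nil) cw22592
theorem W22596 : WFK w22596 := fun D T h => wf_of_chk h (mem_cons (W69 D T h) (mem_cons (W721 D T h) mem_nil)) mem_nil cw22596
theorem L5033 : LFK l5033 := fun D T h => lf_of_chk h (mem_cons (W67 D T h) (mem_cons (W721 D T h) (mem_cons (W633 D T h) (mem_cons (W903 D T h) (mem_cons (W1797 D T h) mem_nil))))) cl5033
theorem W22597 : WFK w22597 := fun D T h => wf_of_chk h mem_nil (mem_cons (L5033 D T h) mem_nil) cw22597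
theorem L5034 : LFK l5034 := fun D T h => lf_of_chk h (mem_cons (W1919 D T h) (mem_cons (W3274 D T h) (mem_cons (W140 D T h) (mem_cons (W22463 D T h) (mem_cons (W721 D T h) (mem_cons (W22592 D T h) (mem_cons (W143 D T h) (mem_cons (W3 D T h) (mem_cons (W22534 D T h) (mem_cons (W14200 D T h) (mem_cons (W22597 D T h) (mem_cons (W2690 D T h) (mem_cons (W6718 D T h) mem_nil))))))))))))) cl5034
theorem W22598 : WFK w22598 := fun D T h => wf_of_chk h mem_nil (mem_cons (L5034 D T h) mem_nil) cw22598
theorem W22612 : WFK w22612 := fun D T h => wf_of_chk h mem_nil (mem_cons (L1258 D T h) mem_nil) cw22612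
theorem L5038 : LFK l5038 := fun D T h => lf_of_chk h (mem_cons (W200 D T h) (mem_cons (W431 D T h) (mem_cons (W959 D T h) (mem_cons (W86 D T h) (mem_cons (W904 D T h) mem_nil))))) cl5038
theorem W22616 : WFK w22616 := fun D T h => wf_of_chk h mem_nil (mem_cons (L5038 D T h) mem_nil) cw22616
theorem L5039 : LFK l5039 := fun D T h => lf_of_chk h (mem_cons (W86 D T h) mem_nil) cl5039
theorem W22617 : WFK w22617 := fun D T h => wf_of_chk h mem_nil (mem_cons (L5039 D T h) mem_nil) cw22617
theorem W22622 : WFK w22622 := fun D T h => wf_of_chk h mem_nil (mem_cons (L5006 D T h) mem_nil) cw22622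
theorem W22623 : WFK w22623 := fun D T h => wf_of_chk h (mem_cons (W158 D T h) (mem_cons (W42 D T h) mem_nil)) mem_nil cw22623
theorem L5042 : LFK l5042 := fun D T h => lf_of_chk h (mem_cons (W5721 D T h) (mem_cons (W4038 D T h) (mem_cons (W5157 D T h) (mem_cons (W7076 D T h) (mem_cons (W1 D T h) (mem_cons (W42 D T h) (mem_cons (W15784 D T h) (mem_cons (W181 D T h) (mem_cons (W7719 D T h) (mem_cons (W8424 D T h) (mem_cons (W22623 D T h) (mem_cons (W22536 D T h) (mem_cons (W14200 D T h) (mem_cons (W22479 D T h) (mem_cons (W1919 D T h) (mem_cons (W22521 D T h) (mem_cons (W13054 D T h) mem_nil))))))))))))))))) cl5042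
theorem W22624 : WFK w22624 := fun D T h => wf_of_chk h mem_nil (mem_cons (L5042 D T h) mem_nil) cw22624
theorem L5048 : LFK l5048 := fun D T h => lf_of_chk h (mem_cons (W1064 D T h) (mem_cons (W15 D T h) (mem_cons (W17153 D T h) (mem_cons (W15760 D T h) (mem_cons (W8638 D T h) (mem_cons (W1108 D T h) (mem_cons (W15249 D T h) (mem_cons (W9056 D T h) (mem_cons (W4547 D T h) (mem_cons (W5578 D T h) (mem_cons (W1289 D T h) (mem_cons (W499 D T h) mem_nil)))))))))))) cl5048
theorem W22653 : WFK w22653 := fun D T h => wf_of_chk h mem_nil (mem_cons (L5048 D T h) mem_nil) cw22653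
theorem W22683 : WFK w22683 := fun D T h => wf_of_chk h mem_nil (mem_cons (L1217 D T h) mem_nil) cw22683
theorem L5059 : LFK l5059 := fun D T h => lf_of_chk h (mem_cons (W1326 D T h) (mem_cons (W1691 D T h) (mem_cons (W179 D T h) (mem_cons (W281 D T h) (mem_cons (W1063 D T h) (mem_cons (W6204 D T h) (mem_cons (W10099 D T h) (mem_cons (W1128 D T h) (mem_cons (W16 D T h) (mem_cons (W648 D T h) (mem_cons (W22653 D T h) (mem_cons (W13 D T h) (mem_cons (W2690 D T h) (mem_cons (W14045 D T h) (mem_cons (W22683 D T h) (mem_cons (W22471 D T h) (mem_cons (W8263 D T h) (mem_cons (W257 D T h) (mem_cons (W19538 D T h) (mem_cons (W748 D T h) (mem_cons (W638 D T h) (mem_cons (W871 D T h) mem_nil)))))))))))))))))))))) cl5059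
theorem W22684 : WFK w22684 := fun D T h => wf_of_chk h mem_nil (mem_cons (L5059 D T h) mem_nil) cw22684
theorem W22689 : WFK w22689 := fun D T h => wf_of_chk h (mem_cons (W281 D T h) (mem_cons (W42 D T h) mem_nil)) mem_nil cw22689
theorem L5062 : LFK l5062 := fun D T h => lf_of_chk h (mem_cons (W15784 D T h) (mem_cons (W15 D T h) (mem_cons (W220 D T h) (mem_cons (W937 D T h) (mem_cons (W17053 D T h) (mem_cons (W22617 D T h) (mem_cons (W2548 D T h) (mem_cons (W11384 D T h) (mem_cons (W22616 D T h) (mem_cons (W4531 D T h) (mem_cons (W15786 D T h) (mem_cons (W16972 D T h) (mem_cons (W927 D T h) mem_nil))))))))))))) cl5062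
theorem L5066 : LFK l5066 := fun D T h => lf_of_chk h (mem_cons (W8 D T h) (mem_cons (W193 D T h) (mem_cons (W192 D T h) mem_nil))) cl5066
theorem W22705 : WFK w22705 := fun D T h => wf_of_chk h mem_nil (mem_cons (L5066 D T h) mem_nil) cw22705
theorem W22718 : WFK w22718 := fun D T h => wf_of_chk h mem_nil (mem_cons (L1727 D T h) mem_nil) cw22718
theorem W22719 : WFK w22719 := fun D T h => wf_of_chk h mem_nil (mem_cons (L1937 D T h) mem_nil) cw22719
theorem W22720 : WFK w22720 := fun D T h => wf_of_chk h (mem_cons (W154 D T h) (mem_cons (W16 D T h) mem_nil)) mem_nil cw22720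
theorem W22721 : WFK w22721 := fun D T h => wf_of_chk h (mem_cons (W22720 D T h) mem_nil) mem_nil cw22721
theorem L5071 : LFK l5071 := fun D T h => lf_of_chk h (mem_cons (W2766 D T h) (mem_cons (W320 D T h) (mem_cons (W831 D T h) (mem_cons (W47 D T h) (mem_cons (W381 D T h) mem_nil))))) cl5071
theorem W22722 : WFK w22722 := fun D T h => wf_of_chk h mem_nil (mem_cons (L5071 D T h) mem_nil) cw22722
theorem W22723 : WFK w22723 := fun D T h => wf_of_chk h (mem_cons (W162 D T h) (mem_cons (W1637 D T h) mem_nil)) mem_nil cw22723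
theorem L5072 : LFK l5072 := fun D T h => lf_of_chk h (mem_cons (W3791 D T h) (mem_cons (W2037 D T h) (mem_cons (W325 D T h) (mem_cons (W7378 D T h) (mem_cons (W390 D T h) (mem_cons (W2766 D T h) (mem_cons (W16 D T h) (mem_cons (W1449 D T h) (mem_cons (W2089 D T h) (mem_cons (W22722 D T h) (mem_cons (W284 D T h) (mem_cons (W22723 D T h) (mem_cons (W2934 D T h) (mem_cons (W2669 D T h) (mem_cons (W8631 D T h) (mem_cons (W2532 D T h) (mem_cons (W7384 D T h) (mem_cons (W7479 D T h) (mem_cons (W7256 D T h) (mem_cons (W5298 D T h) (mem_cons (W2667 D T h) (mem_cons (W7250 D T h) (mem_cons (W17134 D T h) (mem_cons (W7388 D T h) (mem_cons (W7390 D T h) (mem_cons (W7386 D T h) (mem_cons (W22721 D T h) (mem_cons (W2063 D T h) (mem_cons (W14415 D T h) (mem_cons (W19696 D T h) (mem_cons (W7475 D T h) (mem_cons (W7476 D T h) (mem_cons (W69 D T h) (mem_cons (W7382 D T h) mem_nil)))))))))))))))))))))))))))))))))) cl5072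
theorem W22724 : WFK w22724 := fun D T h => wf_of_chk h mem_nil (mem_cons (L5072 D T h) mem_nil) cw22724
theorem W22725 : WFK w22725 := fun D T h => wf_of_chk h (mem_cons (W2137 D T h) (mem_cons (W162 D T h) mem_nil)) mem_nil cw22725
theorem W22726 : WFK w22726 := fun D T h => wf_of_chk h (mem_cons (W13567 D T h) (mem_cons (W162 D T h) mem_nil)) mem_nil cw22726
theorem W22727 : WFK w22727 := fun D T h => wf_of_chk h (mem_cons (W112 D T h) (mem_cons (W16 D T h) mem_nil)) mem_nil cw22727
theorem W22728 : WFK w22728 := fun D T h => wf_of_chk h (mem_cons (W2726 D T h) mem_nil) mem_nil cw22728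
theorem W22729 : WFK w22729 := fun D T h => wf_of_chk h (mem_cons (W220 D T h) (mem_cons (W2726 D T h) mem_nil)) mem_nil cw22729
theorem W22730 : WFK w22730 := fun D T h => wf_of_chk h (mem_cons (W13569 D T h) (mem_cons (W16 D T h) mem_nil)) mem_nil cw22730
theorem W22731 : WFK w22731 := fun D T h => wf_of_chk h (mem_cons (W22728 D T h) (mem_cons (W16 D T h) mem_nil)) mem_nil cw22731
theorem W22732 : WFK w22732 := fun D T h => wf_of_chk h (mem_cons (W112 D T h) (mem_cons (W162 D T h) mem_nil)) mem_nil cw22732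
theorem W22733 : WFK w22733 := fun D T h => wf_of_chk h (mem_cons (W19444 D T h) (mem_cons (W16 D T h) mem_nil)) mem_nil cw22733
theorem W22734 : WFK w22734 := fun D T h => wf_of_chk h (mem_cons (W2729 D T h) (mem_cons (W16 D T h) mem_nil)) mem_nil cw22734
theorem W22735 : WFK w22735 := fun D T h => wf_of_chk h (mem_cons (W2726 D T h) (mem_cons (W162 D T h) mem_nil)) mem_nil cw22735
theorem L5073 : LFK l5073 := fun D T h => lf_of_chk h (mem_cons (W7372 D T h) (mem_cons (W2517 D T h) (mem_cons (W114 D T h) (mem_cons (W6572 D T h) (mem_cons (W1326 D T h) (mem_cons (W7371 D T h) (mem_cons (W6635 D T h) (mem_cons (W22733 D T h) (mem_cons (W22734 D T h) (mem_cons (W257 D T h) (mem_cons (W22725 D T h) (mem_cons (W13906 D T h) (mem_cons (W22726 D T h) (mem_cons (W162 D T h) (mem_cons (W3766 D T h) (mem_cons (W22727 D T h) (mem_cons (W6797 D T h) (mem_cons (W19538 D T h) (mem_cons (W748 D T h) (mem_cons (W22728 D T h) (mem_cons (W15311 D T h) (mem_cons (W22729 D T h) (mem_cons (W6968 D T h) (mem_cons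 (W22730 D T h) (mem_cons (W17120 D T h) (mem_cons (W22731 D T h) (mem_cons (W721 D T h) (mem_cons (W16 D T h) (mem_cons (W22732 D T h) (mem_cons (W22735 D T h) (mem_cons (W15825 D T h) (mem_cons (W1139 D T h) (mem_cons (W6749 D T h) (mem_cons (W7397 D T h) mem_nil)))))))))))))))))))))))))))))))))) cl5073
theorem W22736 : WFK w22736 := fun D T h => wf_of_chk h mem_nil (mem_cons (L5073 D T h) mem_nil) cw22736
theorem W22737 : WFK w22737 := fun D T h => wf_of_chk h (mem_cons (W1929 D T h) (mem_cons (W16 D T h) mem_nil)) mem_nil cw22737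
theorem L5074 : LFK l5074 := fun D T h => lf_of_chk h (mem_cons (W2868 D T h) (mem_cons (W5209 D T h) (mem_cons (W12215 D T h) (mem_cons (W2015 D T h) (mem_cons (W9025 D T h) (mem_cons (W6714 D T h) (mem_cons (W18475 D T h) (mem_cons (W21474 D T h) (mem_cons (W22230 D T h) (mem_cons (W1449 D T h) (mem_cons (W8331 D T h) (mem_cons (W13640 D T h) (mem_cons (W1690 D T h) (mem_cons (W16 D T h) (mem_cons (W22476 D T h) (mem_cons (W22737 D T h) (mem_cons (W22196 D T h) (mem_cons (W16287 D T h) (mem_cons (W22024 D T h) (mem_cons (W581 D T h) (mem_cons (W9939 D T h) (mem_cons (W18469 D T h) (mem_cons (W1326 D T h) (mem_cons (W16282 D T h) (mem_cons (W16792 D T h) (mem_cons (W342 D T h) (mem_cons (W2405 D T h) (mem_cons (W8766 D T h) (mem_cons (W12562 D T h) (mem_cons (W12634 D T h) mem_nil)))))))))))))))))))))))))))))) cl5074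
theorem W22738 : WFK w22738 := fun D T h => wf_of_chk h mem_nil (mem_cons (L5074 D T h) mem_nil) cw22738
theorem W22739 : WFK w22739 := fun D T h => wf_of_chk h (mem_cons (W154 D T h) (mem_cons (W16 D T h) mem_nil)) mem_nil cw22739
theorem W22740 : WFK w22740 := fun D T h => wf_of_chk h (mem_cons (W22739 D T h) (mem_cons (W16 D T h) mem_nil)) mem_nil cw22740
theorem L5075 : LFK l5075 := fun D T h => lf_of_chk h (mem_cons (W7421 D T h) (mem_cons (W16 D T h) (mem_cons (W2037 D T h) (mem_cons (W5209 D T h) (mem_cons (W7422 D T h) (mem_cons (W2868 D T h) (mem_cons (W7424 D T h) (mem_cons (W16112 D T h) (mem_cons (W7376 D T h) (mem_cons (W13597 D T h) (mem_cons (W22724 D T h) (mem_cons (W284 D T h) (mem_cons (W22736 D T h) (mem_cons (W2934 D T h) (mem_cons (W22738 D T h) (mem_cons (W14410 D T h) (mem_cons (W2405 D T h) (mem_cons (W7401 D T h) (mem_cons (W7420 D T h) (mem_cons (W15884 D T h) (mem_cons (W14414 D T h) (mem_cons (W18059 D T h) (mem_cons (W7372 D T h) (mem_cons (W21286 D T h) (mem_cons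 (W13523 D T h) (mem_cons (W21302 D T h) (mem_cons (W22740 D T h) mem_nil))))))))))))))))))))))))))) cl5075
theorem W22741 : WFK w22741 := fun D T h => wf_of_chk h mem_nil (mem_cons (L5075 D T h) mem_nil) cw22741
theorem W22742 : WFK w22742 := fun D T h => wf_of_chk h (mem_cons (W162 D T h) (mem_cons (W2709 D T h) mem_nil)) mem_nil cw22742
theorem W22743 : WFK w22743 := fun D T h => wf_of_chk h (mem_cons (W8252 D T h) (mem_cons (W16 D T h) mem_nil)) mem_nil cw22743
theorem W22747 : WFK w22747 := fun D T h => wf_of_chk h (mem_cons (W2137 D T h) (mem_cons (W16 D T h) mem_nil)) mem_nil cw22747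
theorem W22748 : WFK w22748 := fun D T h => wf_of_chk h mem_nil (mem_cons (L1351 D T h) mem_nil) cw22748
theorem L5076 : LFK l5076 := fun D T h => lf_of_chk h (mem_cons (W22205 D T h) (mem_cons (W2037 D T h) (mem_cons (W1161 D T h) (mem_cons (W1440 D T h) (mem_cons (W959 D T h) (mem_cons (W22024 D T h) (mem_cons (W2116 D T h) (mem_cons (W20319 D T h) (mem_cons (W22137 D T h) (mem_cons (W8646 D T h) (mem_cons (W154 D T h) (mem_cons (W16 D T h) (mem_cons (W1449 D T h) (mem_cons (W15502 D T h) (mem_cons (W2669 D T h) (mem_cons (W8631 D T h) (mem_cons (W5298 D T h) (mem_cons (W160 D T h) (mem_cons (W2667 D T h) (mem_cons (W19538 D T h) (mem_cons (W17135 D T h) (mem_cons (W7388 D T h) (mem_cons (W11922 D T h) (mem_cons (W17193 D T h) (mem_cons (W8645 D T h) (mem_cons (W1638 D T h) (mem_cons (W7477 D T h) (mem_cons (W461 D T h) (mem_cons (W6997 D T h) (mem_cons (W22747 D T h) (mem_cons (W7475 D T h) (mem_cons (W581 D T h) (mem_cons (W22748 D T h) (mem_cons (W17540 D T h) mem_nil))))))))))))))))))))))))))))))))))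 cl5076
theorem W22749 : WFK w22749 := fun D T h => wf_of_chk h mem_nil (mem_cons (L5076 D T h) mem_nil) cw22749
theorem W22753 : WFK w22753 := fun D T h => wf_of_chk h (mem_cons (W2530 D T h) (mem_cons (W16 D T h) mem_nil)) mem_nil cw22753
theorem L5081 : LFK l5081 := fun D T h => lf_of_chk h (mem_cons (W15784 D T h) (mem_cons (W2037 D T h) (mem_cons (W366 D T h) (mem_cons (W932 D T h) (mem_cons (W871 D T h) (mem_cons (W15 D T h) (mem_cons (W15786 D T h) (mem_cons (W16 D T h) (mem_cons (W160 D T h) (mem_cons (W8645 D T h) (mem_cons (W1638 D T h) (mem_cons (W7382 D T h) (mem_cons (W1694 D T h) mem_nil))))))))))))) cl5081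
theorem W22762 : WFK w22762 := fun D T h => wf_of_chk h mem_nil (mem_cons (L5081 D T h) mem_nil) cw22762
theorem L5082 : LFK l5082 := fun D T h => lf_of_chk h (mem_cons (W15784 D T h) (mem_cons (W162 D T h) (mem_cons (W83 D T h) (mem_cons (W220 D T h) (mem_cons (W432 D T h) (mem_cons (W15786 D T h) (mem_cons (W16972 D T h) (mem_cons (W201 D T h) (mem_cons (W11326 D T h) (mem_cons (W1449 D T h) mem_nil)))))))))) cl5082
theorem W22763 : WFK w22763 := fun D T h => wf_of_chk h mem_nil (mem_cons (L5082 D T h) mem_nil) cw22763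
theorem W22764 : WFK w22764 := fun D T h => wf_of_chk h (mem_cons (W6814 D T h) (mem_cons (W16 D T h) mem_nil)) mem_nil cw22764
theorem W22765 : WFK w22765 := fun D T h => wf_of_chk h (mem_cons (W111 D T h) (mem_cons (W16 D T h) mem_nil)) mem_nil cw22765
theorem W22766 : WFK w22766 := fun D T h => wf_of_chk h (mem_cons (W39 D T h) (mem_cons (W16 D T h) mem_nil)) mem_nil cw22766
theorem L5083 : LFK l5083 := fun D T h => lf_of_chk h (mem_cons (W3406 D T h) (mem_cons (W34 D T h) (mem_cons (W3 D T h) (mem_cons (W1919 D T h) (mem_cons (W39 D T h) (mem_cons (W955 D T h) (mem_cons (W954 D T h) (mem_cons (W861 D T h) (mem_cons (W3339 D T h) (mem_cons (W1111 D T h) (mem_cons (W1245 D T h) (mem_cons (W16379 D T h) (mem_cons (W953 D T h) (mem_cons (W13463 D T h) mem_nil)))))))))))))) cl5083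
theorem W22767 : WFK w22767 := fun D T h => wf_of_chk h mem_nil (mem_cons (L5083 D T h) mem_nil) cw22767
theorem L5084 : LFK l5084 := fun D T h => lf_of_chk h (mem_cons (W2868 D T h) (mem_cons (W5567 D T h) (mem_cons (W2936 D T h) (mem_cons (W2015 D T h) (mem_cons (W2346 D T h) (mem_cons (W6714 D T h) (mem_cons (W18475 D T h) (mem_cons (W1449 D T h) (mem_cons (W21474 D T h) (mem_cons (W2116 D T h) (mem_cons (W22766 D T h) (mem_cons (W13640 D T h) (mem_cons (W7114 D T h) (mem_cons (W16 D T h) (mem_cons (W22476 D T h) (mem_cons (W21208 D T h) (mem_cons (W13466 D T h) (mem_cons (W22767 D T h) (mem_cons (W2539 D T h) (mem_cons (W22478 D T h) (mem_cons (W581 D T h) (mem_cons (W9939 D T h) (mem_cons (W22765 D T h) (mem_cons (W1326 D T h) (mem_cons (W16282 D T h) (mem_cons (W7571 D T h) (mem_cons (W7559 D T h) (mem_cons (W7364 D T h) (mem_cons (W342 D T h) (mem_cons (W5247 D T h) (mem_cons (W2405 D T h) (mem_cons (W8766 D T h) (mem_cons (W12562 D T h) (mem_cons (W1227 D T h) mem_nil))))))))))))))))))))))))))))))))))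 cl5084
theorem W22768 : WFK w22768 := fun D T h => wf_of_chk h mem_nil (mem_cons (L5084 D T h) mem_nil) cw22768
theorem L5085 : LFK l5085 := fun D T h => lf_of_chk h (mem_cons (W7308 D T h) (mem_cons (W2375 D T h) (mem_cons (W16 D T h) (mem_cons (W2709 D T h) (mem_cons (W2936 D T h) (mem_cons (W7436 D T h) (mem_cons (W15147 D T h) (mem_cons (W7228 D T h) (mem_cons (W17459 D T h) (mem_cons (W8766 D T h) (mem_cons (W13531 D T h) (mem_cons (W8257 D T h) (mem_cons (W2037 D T h) (mem_cons (W7469 D T h) (mem_cons (W7376 D T h) (mem_cons (W14408 D T h) (mem_cons (W13597 D T h) (mem_cons (W14063 D T h) (mem_cons (W7421 D T h) (mem_cons (W13198 D T h) (mem_cons (W13607 D T h) (mem_cons (W284 D T h) (mem_cons (W22768 D T h) (mem_cons (W7003 D T h) (mem_cons (W8281 D T h) (mem_cons (W14572 D T h) (mem_cons (W7433 D T h) (mem_cons (W22743 D T h) (mem_cons (W22764 D T h) (mem_cons (W13543 D T h) (mem_cons (W18059 D T h) (mem_cons (W13522 D T h) (mem_cons (W7410 D T h) (mem_cons (W17141 D T h) (mem_cons (W13523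 D T h) (mem_cons (W3921 D T h) (mem_cons (W17212 D T h) (mem_cons (W22741 D T h) (mem_cons (W7429 D T h) (mem_cons (W22742 D T h) (mem_cons (W2934 D T h) (mem_cons (W22719 D T h) (mem_cons (W2405 D T h) (mem_cons (W7401 D T h) (mem_cons (W7231 D T h) (mem_cons (W13880 D T h) (mem_cons (W15884 D T h) mem_nil))))))))))))))))))))))))))))))))))))))))))))))) cl5085
theorem W22769 : WFK w22769 := fun D T h => wf_of_chk h mem_nil (mem_cons (L5085 D T h) mem_nil) cw22769
theorem W22770 : WFK w22770 := fun D T h => wf_of_chk h mem_nil (mem_cons (L882 D T h) mem_nil) cw22770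
theorem W22771 : WFK w22771 := fun D T h => wf_of_chk h mem_nil (mem_cons (L1875 D T h) mem_nil) cw22771
theorem W22772 : WFK w22772 := fun D T h => wf_of_chk h mem_nil (mem_cons (L493 D T h) mem_nil) cw22772
theorem W22773 : WFK w22773 := fun D T h => wf_of_chk h mem_nil (mem_cons (L4231 D T h) mem_nil) cw22773
theorem L5086 : LFK l5086 := fun D T h => lf_of_chk h (mem_cons (W866 D T h) (mem_cons (W20 D T h) (mem_cons (W124 D T h) (mem_cons (W1425 D T h) (mem_cons (W734 D T h) (mem_cons (W16 D T h) (mem_cons (W11388 D T h) (mem_cons (W22772 D T h) (mem_cons (W1483 D T h) (mem_cons (W19273 D T h) (mem_cons (W1482 D T h) (mem_cons (W884 D T h) (mem_cons (W1484 D T h) (mem_cons (W22773 D T h) (mem_cons (W1399 D T h) (mem_cons (W33 D T h) (mem_cons (W4 D T h) mem_nil))))))))))))))))) cl5086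
theorem W22774 : WFK w22774 := fun D T h => wf_of_chk h mem_nil (mem_cons (L5086 D T h) mem_nil) cw22774
theorem L5087 : LFK l5087 := fun D T h => lf_of_chk h (mem_cons (W18059 D T h) (mem_cons (W56 D T h) (mem_cons (W16 D T h) (mem_cons (W13890 D T h) (mem_cons (W11917 D T h) (mem_cons (W5841 D T h) (mem_cons (W4455 D T h) (mem_cons (W638 D T h) (mem_cons (W22774 D T h) (mem_cons (W10043 D T h) (mem_cons (W10044 D T h) (mem_cons (W5388 D T h) (mem_cons (W799 D T h) (mem_cons (W3766 D T h) (mem_cons (W18060 D T h) mem_nil))))))))))))))) cl5087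
theorem W22775 : WFK w22775 := fun D T h => wf_of_chk h mem_nil (mem_cons (L5087 D T h) mem_nil) cw22775
theorem W22776 : WFK w22776 := fun D T h => wf_of_chk h (mem_cons (W5375 D T h) (mem_cons (W16 D T h) mem_nil)) mem_nil cw22776
theorem W22777 : WFK w22777 := fun D T h => wf_of_chk h (mem_cons (W711 D T h) mem_nil) mem_nil cw22777
theorem L5088 : LFK l5088 := fun D T h => lf_of_chk h (mem_cons (W15786 D T h) (mem_cons (W448 D T h) (mem_cons (W69 D T h) (mem_cons (W15760 D T h) (mem_cons (W711 D T h) (mem_cons (W17153 D T h) (mem_cons (W33 D T h) (mem_cons (W937 D T h) (mem_cons (W22777 D T h) (mem_cons (W1170 D T h) (mem_cons (W1204 D T h) (mem_cons (W10225 D T h) mem_nil)))))))))))) cl5088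
theorem W22778 : WFK w22778 := fun D T h => wf_of_chk h mem_nil (mem_cons (L5088 D T h) mem_nil) cw22778
theorem W22779 : WFK w22779 := fun D T h => wf_of_chk h (mem_cons (W126 D T h) (mem_cons (W711 D T h) mem_nil)) mem_nil cw22779
theorem L5089 : LFK l5089 := fun D T h => lf_of_chk h (mem_cons (W12268 D T h) (mem_cons (W682 D T h) (mem_cons (W2015 D T h) (mem_cons (W1063 D T h) (mem_cons (W16 D T h) (mem_cons (W42 D T h) (mem_cons (W6740 D T h) (mem_cons (W22778 D T h) (mem_cons (W8252 D T h) (mem_cons (W20252 D T h) (mem_cons (W22779 D T h) (mem_cons (W4531 D T h) (mem_cons (W22775 D T h) (mem_cons (W2517 D T h) (mem_cons (W8397 D T h) (mem_cons (W22776 D T h) (mem_cons (W22753 D T h) (mem_cons (W5212 D T h) (mem_cons (W8234 D T h) (mem_cons (W4278 D T h) (mem_cons (W178 D T h) (mem_cons (W179 D T h) (mem_cons (W12250 D T h) (mem_cons (W6968 D T h) (mem_cons (W7282 D T h) (mem_cons (W18458 D T h) (mem_cons (W267 D T h) (mem_cons (W5375 D T h) (mem_cons (W22443 D T h) mem_nil)))))))))))))))))))))))))))))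 cl5089
theorem W22780 : WFK w22780 := fun D T h => wf_of_chk h mem_nil (mem_cons (L5089 D T h) mem_nil) cw22780
theorem W22786 : WFK w22786 := fun D T h => wf_of_chk h (mem_cons (W1449 D T h) (mem_cons (W16 D T h) mem_nil)) mem_nil cw22786
theorem L5091 : LFK l5091 := fun D T h => lf_of_chk h (mem_cons (W3401 D T h) (mem_cons (W806 D T h) mem_nil)) cl5091
theorem W22789 : WFK w22789 := fun D T h => wf_of_chk h mem_nil (mem_cons (L5091 D T h) mem_nil) cw22789
theorem L5093 : LFK l5093 := fun D T h => lf_of_chk h (mem_cons (W21522 D T h) (mem_cons (W15 D T h) (mem_cons (W211 D T h) (mem_cons (W860 D T h) (mem_cons (W11 D T h) (mem_cons (W10099 D T h) (mem_cons (W870 D T h) mem_nil))))))) cl5093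
theorem W22807 : WFK w22807 := fun D T h => wf_of_chk h mem_nil (mem_cons (L5093 D T h) mem_nil) cw22807
theorem W22814 : WFK w22814 := fun D T h => wf_of_chk h mem_nil (mem_cons (L496 D T h) mem_nil) cw22814
theorem W22819 : WFK w22819 := fun D T h => wf_of_chk h (mem_cons (W21469 D T h) mem_nil) mem_nil cw22819
theorem W22821 : WFK w22821 := fun D T h => wf_of_chk h mem_nil (mem_cons (L496 D T h) mem_nil) cw22821
theorem W22822 : WFK w22822 := fun D T h => wf_of_chk h mem_nil (mem_cons (L496 D T h) mem_nil) cw22822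
theorem W22829 : WFK w22829 := fun D T h => wf_of_chk h (mem_cons (W15786 D T h) (mem_cons (W16 D T h) mem_nil)) mem_nil cw22829
theorem W22843 : WFK w22843 := fun D T h => wf_of_chk h (mem_cons (W15 D T h) (mem_cons (W3 D T h) mem_nil)) mem_nil cw22843
theorem W22850 : WFK w22850 := fun D T h => wf_of_chk h (mem_cons (W15147 D T h) (mem_cons (W16 D T h) mem_nil)) mem_nil cw22850

end Pool.Agent.W319.GCI.K5
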