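import Pool.Agent.W319.GCI.K5A12
set_option autoImplicit false
set_option maxRecDepth 100000
set_option linter.all false
namespace Pool.Agent.W319.GCI.K5
open Pool.Agent.W319.GCI

theorem W22851 : WFK w22851 := fun D T h => wf_of_chk h mem_nil (mem_cons (L2781 D T h) mem_nil) cw22851
theorem L5106 : LFK l5106 := fun D T h => lf_of_chk h (mem_cons (W128 D T h) (mem_cons (W15 D T h) (mem_cons (W22851 D T h) (mem_cons (W1064 D T h) (mem_cons (W219 D T h) (mem_cons (W5258 D T h) (mem_cons (W581 D T h) (mem_cons (W4038 D T h) (mem_cons (W8397 D T h) (mem_cons (W18060 D T h) (mem_cons (W1192 D T h) mem_nil))))))))))) cl5106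
theorem W22852 : WFK w22852 := fun D T h => wf_of_chk h mem_nil (mem_cons (L5106 D T h) mem_nil) cw22852
theorem W22853 : WFK w22853 := fun D T h => wf_of_chk h mem_nil (mem_cons (L2592 D T h) mem_nil) cw22853
theorem L5107 : LFK l5107 := fun D T h => lf_of_chk h (mem_cons (W1291 D T h) (mem_cons (W2839 D T h) (mem_cons (W16 D T h) (mem_cons (W1063 D T h) (mem_cons (W1408 D T h) (mem_cons (W1309 D T h) (mem_cons (W4287 D T h) (mem_cons (W5290 D T h) (mem_cons (W6436 D T h) (mem_cons (W6114 D T h) (mem_cons (W5310 D T h) (mem_cons (W8292 D T h) (mem_cons (W42 D T h) (mem_cons (W1188 D T h) (mem_cons (W7114 D T h) (mem_cons (W15777 D T h) (mem_cons (W10834 D T h) (mem_cons (W12168 D T h) (mem_cons (W5177 D T h) (mem_cons (W8286 D T h) mem_nil)))))))))))))))))))) cl5107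
theorem W22854 : WFK w22854 := fun D T h => wf_of_chk h mem_nil (mem_cons (L5107 D T h) mem_nil) cw22854
theorem W22855 : WFK w22855 := fun D T h => wf_of_chk h mem_nil (mem_cons (L5107 D T h) mem_nil) cw22855
theorem L5108 : LFK l5108 := fun D T h => lf_of_chk h (mem_cons (W22429 D T h) (mem_cons (W16 D T h) (mem_cons (W37 D T h) (mem_cons (W18537 D T h) (mem_cons (W1063 D T h) (mem_cons (W22771 D T h) (mem_cons (W1291 D T h) (mem_cons (W22165 D T h) (mem_cons (W8290 D T h) (mem_cons (W22852 D T h) (mem_cons (W9025 D T h) (mem_cons (W22854 D T h) (mem_cons (W22855 D T h) (mem_cons (W8444 D T h) (mem_cons (W12017 D T h) (mem_cons (W8279 D T h) (mem_cons (W22780 D T h) (mem_cons (W8783 D T h) (mem_cons (W2375 D T h) (mem_cons (W8257 D T h) (mem_cons (W22435 D T h) (mem_cons (W22436 D T h) (mem_cons (W8260 D T h) (mem_cons (W22853 D T h) (mem_cons (W12268 D T h) (mem_cons (W10837 D T h) (mem_cons (W8180 D T h) (mem_cons (W10681 D T h) (mem_cons (W5721 D T h) (mem_cons (W8216 D T h) (mem_cons (W22432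 D T h) (mem_cons (W22433 D T h) (mem_cons (W8237 D T h) (mem_cons (W22428 D T h) (mem_cons (W2015 D T h) (mem_cons (W11139 D T h) (mem_cons (W8256 D T h) (mem_cons (W5258 D T h) (mem_cons (W22423 D T h) (mem_cons (W5277 D T h) (mem_cons (W17572 D T h) (mem_cons (W128 D T h) mem_nil)))))))))))))))))))))))))))))))))))))))))) cl5108
theorem W22856 : WFK w22856 := fun D T h => wf_of_chk h mem_nil (mem_cons (L5108 D T h) mem_nil) cw22856
theorem W22857 : WFK w22857 := fun D T h => wf_of_chk h (mem_cons (W368 D T h) (mem_cons (W126 D T h) mem_nil)) mem_nil cw22857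
theorem L5109 : LFK l5109 := fun D T h => lf_of_chk h (mem_cons (W9025 D T h) (mem_cons (W42 D T h) (mem_cons (W1063 D T h) (mem_cons (W16 D T h) (mem_cons (W2015 D T h) (mem_cons (W7114 D T h) (mem_cons (W16755 D T h) (mem_cons (W8912 D T h) (mem_cons (W2037 D T h) (mem_cons (W15 D T h) (mem_cons (W22857 D T h) (mem_cons (W6968 D T h) (mem_cons (W3193 D T h) (mem_cons (W1192 D T h) (mem_cons (W3766 D T h) (mem_cons (W2378 D T h) (mem_cons (W18059 D T h) mem_nil))))))))))))))))) cl5109
theorem W22858 : WFK w22858 := fun D T h => wf_of_chk h mem_nil (mem_cons (L5109 D T h) mem_nil) cw22858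
theorem W22860 : WFK w22860 := fun D T h => wf_of_chk h (mem_cons (W50 D T h) (mem_cons (W9376 D T h) mem_nil)) mem_nil cw22860
theorem W22861 : WFK w22861 := fun D T h => wf_of_chk h (mem_cons (W667 D T h) (mem_cons (W9376 D T h) mem_nil)) mem_nil cw22861
theorem W22862 : WFK w22862 := fun D T h => wf_of_chk h (mem_cons (W144 D T h) (mem_cons (W16 D T h) mem_nil)) mem_nil cw22862
theorem L5110 : LFK l5110 := fun D T h => lf_of_chk h (mem_cons (W128 D T h) (mem_cons (W15 D T h) (mem_cons (W3285 D T h) (mem_cons (W1064 D T h) (mem_cons (W219 D T h) (mem_cons (W4209 D T h) (mem_cons (W581 D T h) (mem_cons (W4038 D T h) (mem_cons (W8397 D T h) (mem_cons (W18060 D T h) (mem_cons (W1192 D T h) mem_nil))))))))))) cl5110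
theorem W22863 : WFK w22863 := fun D T h => wf_of_chk h mem_nil (mem_cons (L5110 D T h) mem_nil) cw22863
theorem W22864 : WFK w22864 := fun D T h => wf_of_chk h (mem_cons (W669 D T h) (mem_cons (W16 D T h) mem_nil)) mem_nil cw22864
theorem W22865 : WFK w22865 := fun D T h => wf_of_chk h (mem_cons (W22864 D T h) (mem_cons (W16 D T h) mem_nil)) mem_nil cw22865
theorem W22866 : WFK w22866 := fun D T h => wf_of_chk h (mem_cons (W682 D T h) (mem_cons (W16 D T h) mem_nil)) mem_nil cw22866
theorem W22867 : WFK w22867 := fun D T h => wf_of_chk h (mem_cons (W162 D T h) (mem_cons (W9376 D T h) mem_nil)) mem_nil cw22867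
theorem W22868 : WFK w22868 := fun D T h => wf_of_chk h (mem_cons (W50 D T h) (mem_cons (W2839 D T h) mem_nil)) mem_nil cw22868
theorem W22869 : WFK w22869 := fun D T h => wf_of_chk h (mem_cons (W667 D T h) (mem_cons (W2839 D T h) mem_nil)) mem_nil cw22869
theorem W22870 : WFK w22870 := fun D T h => wf_of_chk h (mem_cons (W6758 D T h) mem_nil) mem_nil cw22870
theorem W22871 : WFK w22871 := fun D T h => wf_of_chk h (mem_cons (W5875 D T h) (mem_cons (W16 D T h) mem_nil)) mem_nil cw22871
theorem W22872 : WFK w22872 := fun D T h => wf_of_chk h mem_nil (mem_cons (L139 D T h) mem_nil) cw22872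
theorem W22873 : WFK w22873 := fun D T h => wf_of_chk h (mem_cons (W2839 D T h) mem_nil) mem_nil cw22873
theorem W22874 : WFK w22874 := fun D T h => wf_of_chk h mem_nil (mem_cons (L1737 D T h) mem_nil) cw22874
theorem W22875 : WFK w22875 := fun D T h => wf_of_chk h (mem_cons (W2839 D T h) mem_nil) mem_nil cw22875
theorem L5111 : LFK l5111 := fun D T h => lf_of_chk h (mem_cons (W7212 D T h) (mem_cons (W1211 D T h) (mem_cons (W126 D T h) (mem_cons (W368 D T h) (mem_cons (W69 D T h) (mem_cons (W18458 D T h) (mem_cons (W2766 D T h) (mem_cons (W14130 D T h) (mem_cons (W22443 D T h) (mem_cons (W8755 D T h) (mem_cons (W22870 D T h) (mem_cons (W11172 D T h) (mem_cons (W22871 D T h) (mem_cons (W15893 D T h) (mem_cons (W22872 D T h) (mem_cons (W5849 D T h) (mem_cons (W22873 D T h) (mem_cons (W22874 D T h) (mem_cons (W22875 D T h) mem_nil))))))))))))))))))) cl5111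
theorem W22876 : WFK w22876 := fun D T h => wf_of_chk h mem_nil (mem_cons (L5111 D T h) mem_nil) cw22876
theorem W22877 : WFK w22877 := fun D T h => wf_of_chk h (mem_cons (W162 D T h) (mem_cons (W2839 D T h) mem_nil)) mem_nil cw22877
theorem L5112 : LFK l5112 := fun D T h => lf_of_chk h (mem_cons (W8290 D T h) (mem_cons (W16 D T h) (mem_cons (W2164 D T h) (mem_cons (W2934 D T h) (mem_cons (W1063 D T h) (mem_cons (W1211 D T h) (mem_cons (W8278 D T h) (mem_cons (W22876 D T h) (mem_cons (W22877 D T h) (mem_cons (W284 D T h) (mem_cons (W667 D T h) (mem_cons (W8285 D T h) (mem_cons (W6904 D T h) (mem_cons (W15883 D T h) (mem_cons (W22868 D T h) (mem_cons (W22869 D T h) (mem_cons (W8279 D T h) (mem_cons (W12268 D T h) (mem_cons (W2037 D T h) (mem_cons (W14398 D T h) (mem_cons (W13607 D T h) (mem_cons (W15584 D T h) (mem_cons (W11040 D T h) (mem_cons (W22862 D T h) (mem_cons (W5721 D T h) (mem_cons (W8216 D T h) (mem_cons (W22863 D T h) (mem_cons (W22433 D T h) (mem_cons (W22192 D T h) (mem_cons (W18360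 D T h) (mem_cons (W22865 D T h) (mem_cons (W7864 D T h) (mem_cons (W2015 D T h) (mem_cons (W22866 D T h) (mem_cons (W8783 D T h) (mem_cons (W22867 D T h) (mem_cons (W5258 D T h) (mem_cons (W22858 D T h) (mem_cons (W5277 D T h) (mem_cons (W17572 D T h) (mem_cons (W128 D T h) (mem_cons (W22860 D T h) (mem_cons (W10973 D T h) (mem_cons (W22861 D T h) mem_nil)))))))))))))))))))))))))))))))))))))))))))) cl5112
theorem W22878 : WFK w22878 := fun D T h => wf_of_chk h mem_nil (mem_cons (L5112 D T h) mem_nil) cw22878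
theorem W22879 : WFK w22879 := fun D T h => wf_of_chk h mem_nil (mem_cons (L274 D T h) mem_nil) cw22879
theorem W22880 : WFK w22880 := fun D T h => wf_of_chk h (mem_cons (W2375 D T h) (mem_cons (W710 D T h) mem_nil)) mem_nil cw22880
theorem L5113 : LFK l5113 := fun D T h => lf_of_chk h (mem_cons (W50 D T h) (mem_cons (W167 D T h) (mem_cons (W15 D T h) (mem_cons (W220 D T h) (mem_cons (W162 D T h) (mem_cons (W15784 D T h) (mem_cons (W4209 D T h) (mem_cons (W20252 D T h) (mem_cons (W341 D T h) (mem_cons (W7212 D T h) (mem_cons (W42 D T h) (mem_cons (W1362 D T h) (mem_cons (W12047 D T h) mem_nil))))))))))))) cl5113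
theorem W22881 : WFK w22881 := fun D T h => wf_of_chk h mem_nil (mem_cons (L5113 D T h) mem_nil) cw22881
theorem W22882 : WFK w22882 := fun D T h => wf_of_chk h mem_nil (mem_cons (L1697 D T h) mem_nil) cw22882
theorem W22883 : WFK w22883 := fun D T h => wf_of_chk h mem_nil (mem_cons (L2744 D T h) mem_nil) cw22883
theorem W22884 : WFK w22884 := fun D T h => wf_of_chk h (mem_cons (W112 D T h) (mem_cons (W162 D T h) mem_nil)) mem_nil cw22884
theorem L5114 : LFK l5114 := fun D T h => lf_of_chk h (mem_cons (W1362 D T h) (mem_cons (W167 D T h) (mem_cons (W154 D T h) (mem_cons (W220 D T h) (mem_cons (W162 D T h) (mem_cons (W1398 D T h) (mem_cons (W442 D T h) (mem_cons (W1445 D T h) (mem_cons (W2605 D T h) (mem_cons (W22884 D T h) (mem_cons (W959 D T h) (mem_cons (W8073 D T h) (mem_cons (W21290 D T h) (mem_cons (W22205 D T h) (mem_cons (W12280 D T h) (mem_cons (W1442 D T h) (mem_cons (W341 D T h) (mem_cons (W7212 D T h) (mem_cons (W461 D T h) (mem_cons (W4421 D T h) (mem_cons (W3016 D T h) (mem_cons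 (W9395 D T h) (mem_cons (W581 D T h) (mem_cons (W1438 D T h) (mem_cons (W12045 D T h) mem_nil))))))))))))))))))))))))) cl5114
theorem W22885 : WFK w22885 := fun D T h => wf_of_chk h mem_nil (mem_cons (L5114 D T h) mem_nil) cw22885
theorem W22886 : WFK w22886 := fun D T h => wf_of_chk h (mem_cons (W93 D T h) (mem_cons (W16 D T h) mem_nil)) mem_nil cw22886
theorem W22887 : WFK w22887 := fun D T h => wf_of_chk h (mem_cons (W93 D T h) (mem_cons (W16 D T h) mem_nil)) mem_nil cw22887
theorem W22888 : WFK w22888 := fun D T h => wf_of_chk h (mem_cons (W126 D T h) (mem_cons (W342 D T h) mem_nil)) mem_nil cw22888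
theorem W22889 : WFK w22889 := fun D T h => wf_of_chk h (mem_cons (W367 D T h) (mem_cons (W16 D T h) mem_nil)) mem_nil cw22889
theorem W22890 : WFK w22890 := fun D T h => wf_of_chk h (mem_cons (W181 D T h) (mem_cons (W5247 D T h) mem_nil)) mem_nil cw22890
theorem W22891 : WFK w22891 := fun D T h => wf_of_chk h mem_nil (mem_cons (L2597 D T h) mem_nil) cw22891
theorem W22892 : WFK w22892 := fun D T h => wf_of_chk h (mem_cons (W22891 D T h) (mem_cons (W16 D T h) mem_nil)) mem_nil cw22892
theorem W22893 : WFK w22893 := fun D T h => wf_of_chk h (mem_cons (W34 D T h) (mem_cons (W5247 D T h) mem_nil)) mem_nil cw22893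
theorem W22894 : WFK w22894 := fun D T h => wf_of_chk h (mem_cons (W162 D T h) (mem_cons (W7212 D T h) mem_nil)) mem_nil cw22894
theorem W22895 : WFK w22895 := fun D T h => wf_of_chk h (mem_cons (W164 D T h) (mem_cons (W178 D T h) mem_nil)) mem_nil cw22895
theorem L5115 : LFK l5115 := fun D T h => lf_of_chk h (mem_cons (W5072 D T h) (mem_cons (W5247 D T h) (mem_cons (W342 D T h) (mem_cons (W16 D T h) (mem_cons (W7212 D T h) (mem_cons (W15711 D T h) (mem_cons (W22886 D T h) (mem_cons (W22887 D T h) (mem_cons (W2015 D T h) (mem_cons (W22893 D T h) (mem_cons (W12203 D T h) (mem_cons (W2037 D T h) (mem_cons (W22894 D T h) (mem_cons (W83 D T h) (mem_cons (W22888 D T h) (mem_cons (W4566 D T h) (mem_cons (W17571 D T h) (mem_cons (W17572 D T h) (mem_cons (W10827 D T h) (mem_cons (W22889 D T h) (mem_cons (W22890 D T h) (mem_cons (W14014 D T h) (mem_cons (W17031 D T h) (mem_cons (W535 D T h) (mem_cons (W22892 D T h) (mem_cons (W9773 D T h) (mem_cons (W537 D T h) (mem_cons (W14355 D T h) (mem_cons (W178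 D T h) (mem_cons (W179 D T h) (mem_cons (W369 D T h) (mem_cons (W22462 D T h) (mem_cons (W22895 D T h) (mem_cons (W9025 D T h) (mem_cons (W970 D T h) (mem_cons (W8766 D T h) (mem_cons (W14410 D T h) (mem_cons (W13531 D T h) (mem_cons (W8770 D T h) mem_nil))))))))))))))))))))))))))))))))))))))) cl5115
theorem W22896 : WFK w22896 := fun D T h => wf_of_chk h mem_nil (mem_cons (L5115 D T h) mem_nil) cw22896
theorem W22897 : WFK w22897 := fun D T h => wf_of_chk h mem_nil (mem_cons (L339 D T h) mem_nil) cw22897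
theorem L5116 : LFK l5116 := fun D T h => lf_of_chk h (mem_cons (W3766 D T h) (mem_cons (W667 D T h) (mem_cons (W1 D T h) (mem_cons (W368 D T h) (mem_cons (W581 D T h) (mem_cons (W1325 D T h) (mem_cons (W1326 D T h) (mem_cons (W21522 D T h) (mem_cons (W7212 D T h) (mem_cons (W1919 D T h) (mem_cons (W3 D T h) (mem_cons (W39 D T h) (mem_cons (W42 D T h) (mem_cons (W181 D T h) mem_nil)))))))))))))) cl5116
theorem W22898 : WFK w22898 := fun D T h => wf_of_chk h mem_nil (mem_cons (L5116 D T h) mem_nil) cw22898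
theorem W22899 : WFK w22899 := fun D T h => wf_of_chk h mem_nil (mem_cons (L339 D T h) mem_nil) cw22899
theorem L5117 : LFK l5117 := fun D T h => lf_of_chk h (mem_cons (W21914 D T h) (mem_cons (W16 D T h) (mem_cons (W167 D T h) (mem_cons (W284 D T h) (mem_cons (W2934 D T h) (mem_cons (W15883 D T h) (mem_cons (W2963 D T h) (mem_cons (W1310 D T h) (mem_cons (W15729 D T h) (mem_cons (W19729 D T h) (mem_cons (W8564 D T h) (mem_cons (W4015 D T h) (mem_cons (W22896 D T h) (mem_cons (W18077 D T h) (mem_cons (W1231 D T h) (mem_cons (W22897 D T h) (mem_cons (W16091 D T h) (mem_cons (W22898 D T h) (mem_cons (W22899 D T h) (mem_cons (W12203 D T h) (mem_cons (W9025 D T h) (mem_cons (W2936 D T h) (mem_cons (W12268 D T h) (mem_cons (W3926 D T h) (mem_cons (W22882 D T h) (mem_cons (W12266 D T h) (mem_cons (W21284 D T h) (mem_cons (W12283 D T h) (mem_cons (W15556 D T h) (mem_cons (W22883 D T h) (mem_cons (W22885 D T h) (mem_cons (W50 D T h) (mem_cons (W18561 D T h) (mem_cons (W15784 D T h) (mem_cons (W6904 D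 T h) (mem_cons (W6892 D T h) (mem_cons (W22881 D T h) mem_nil))))))))))))))))))))))))))))))))))))) cl5117
theorem W22900 : WFK w22900 := fun D T h => wf_of_chk h mem_nil (mem_cons (L5117 D T h) mem_nil) cw22900
theorem W22901 : WFK w22901 := fun D T h => wf_of_chk h (mem_cons (W126 D T h) (mem_cons (W461 D T h) mem_nil)) mem_nil cw22901
theorem W22902 : WFK w22902 := fun D T h => wf_of_chk h mem_nil (mem_cons (L2962 D T h) mem_nil) cw22902
theorem W22903 : WFK w22903 := fun D T h => wf_of_chk h (mem_cons (W1170 D T h) (mem_cons (W710 D T h) mem_nil)) mem_nil cw22903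
theorem W22904 : WFK w22904 := fun D T h => wf_of_chk h (mem_cons (W14124 D T h) (mem_cons (W16 D T h) mem_nil)) mem_nil cw22904
theorem W22905 : WFK w22905 := fun D T h => wf_of_chk h (mem_cons (W461 D T h) mem_nil) mem_nil cw22905
theorem W22906 : WFK w22906 := fun D T h => wf_of_chk h (mem_cons (W22905 D T h) (mem_cons (W16 D T h) mem_nil)) mem_nil cw22906
theorem L5118 : LFK l5118 := fun D T h => lf_of_chk h (mem_cons (W91 D T h) (mem_cons (W461 D T h) (mem_cons (W4 D T h) (mem_cons (W802 D T h) (mem_cons (W33 D T h) (mem_cons (W233 D T h) (mem_cons (W248 D T h) (mem_cons (W87 D T h) (mem_cons (W675 D T h) (mem_cons (W8695 D T h) (mem_cons (W265 D T h) (mem_cons (W3153 D T h) (mem_cons (W878 D T h) (mem_cons (W817 D T h) mem_nil)))))))))))))) cl5118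
theorem W22907 : WFK w22907 := fun D T h => wf_of_chk h mem_nil (mem_cons (L5118 D T h) mem_nil) cw22907
theorem W22908 : WFK w22908 := fun D T h => wf_of_chk h (mem_cons (W22907 D T h) (mem_cons (W16 D T h) mem_nil)) mem_nil cw22908
theorem W22909 : WFK w22909 := fun D T h => wf_of_chk h (mem_cons (W14519 D T h) (mem_cons (W16 D T h) mem_nil)) mem_nil cw22909
theorem W22910 : WFK w22910 := fun D T h => wf_of_chk h (mem_cons (W14014 D T h) (mem_cons (W16 D T h) mem_nil)) mem_nil cw22910
theorem W22911 : WFK w22911 := fun D T h => wf_of_chk h (mem_cons (W354 D T h) (mem_cons (W155 D T h) mem_nil)) mem_nil cw22911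
theorem W22912 : WFK w22912 := fun D T h => wf_of_chk h (mem_cons (W799 D T h) (mem_cons (W155 D T h) mem_nil)) mem_nil cw22912
theorem L5119 : LFK l5119 := fun D T h => lf_of_chk h (mem_cons (W3045 D T h) (mem_cons (W16 D T h) (mem_cons (W2794 D T h) (mem_cons (W799 D T h) (mem_cons (W22387 D T h) (mem_cons (W22910 D T h) (mem_cons (W2015 D T h) (mem_cons (W22909 D T h) (mem_cons (W22912 D T h) (mem_cons (W3053 D T h) (mem_cons (W22911 D T h) (mem_cons (W3050 D T h) (mem_cons (W461 D T h) (mem_cons (W155 D T h) (mem_cons (W7708 D T h) (mem_cons (W3002 D T h) (mem_cons (W2412 D T h) (mem_cons (W2430 D T h) (mem_cons (W22904 D T h) (mem_cons (W22509 D T h) (mem_cons (W8783 D T h) (mem_cons (W2037 D T h) (mem_cons (W3068 D T h) (mem_cons (W22906 D T h) (mem_cons (W3058 D T h) (mem_cons (W17572 D T h) (mem_cons (W17571 D T h) (mem_cons (W128 D T h) (mem_cons (W22908 D T h) mem_nil))))))))))))))))))))))))))))) cl5119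
theorem W22913 : WFK w22913 := fun D T h => wf_of_chk h mem_nil (mem_cons (L5119 D T h) mem_nil) cw22913
theorem L5120 : LFK l5120 := fun D T h => lf_of_chk h (mem_cons (W2456 D T h) (mem_cons (W15 D T h) (mem_cons (W34 D T h) (mem_cons (W2457 D T h) (mem_cons (W2521 D T h) (mem_cons (W2442 D T h) (mem_cons (W1166 D T h) (mem_cons (W1065 D T h) (mem_cons (W581 D T h) (mem_cons (W18663 D T h) (mem_cons (W2463 D T h) (mem_cons (W301 D T h) (mem_cons (W2452 D T h) (mem_cons (W2078 D T h) (mem_cons (W15163 D T h) (mem_cons (W2453 D T h) (mem_cons (W14817 D T h) (mem_cons (W15159 D T h) (mem_cons (W401 D T h) (mem_cons (W4459 D T h) (mem_cons (W2458 D T h) (mem_cons (W2459 D T h) (mem_cons (W18059 D T h) (mem_cons (W2460 D T h) (mem_cons (W22337 D T h) mem_nil))))))))))))))))))))))))) cl5120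
theorem W22914 : WFK w22914 := fun D T h => wf_of_chk h mem_nil (mem_cons (L5120 D T h) mem_nil) cw22914
theorem W22915 : WFK w22915 := fun D T h => wf_of_chk h (mem_cons (W8243 D T h) (mem_cons (W162 D T h) mem_nil)) mem_nil cw22915
theorem L5121 : LFK l5121 := fun D T h => lf_of_chk h (mem_cons (W15786 D T h) (mem_cons (W1929 D T h) (mem_cons (W15760 D T h) (mem_cons (W69 D T h) (mem_cons (W13262 D T h) (mem_cons (W17153 D T h) (mem_cons (W33 D T h) (mem_cons (W1572 D T h) (mem_cons (W22915 D T h) (mem_cons (W1575 D T h) mem_nil)))))))))) cl5121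
theorem W22916 : WFK w22916 := fun D T h => wf_of_chk h mem_nil (mem_cons (L5121 D T h) mem_nil) cw22916
theorem W22917 : WFK w22917 := fun D T h => wf_of_chk h (mem_cons (W220 D T h) (mem_cons (W1198 D T h) mem_nil)) mem_nil cw22917
theorem W22919 : WFK w22919 := fun D T h => wf_of_chk h (mem_cons (W220 D T h) (mem_cons (W1198 D T h) mem_nil)) mem_nil cw22919
theorem W22920 : WFK w22920 := fun D T h => wf_of_chk h (mem_cons (W15786 D T h) (mem_cons (W155 D T h) mem_nil)) mem_nil cw22920
theorem W22921 : WFK w22921 := fun D T h => wf_of_chk h (mem_cons (W69 D T h) (mem_cons (W162 D T h) mem_nil)) mem_nil cw22921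
theorem W22922 : WFK w22922 := fun D T h => wf_of_chk h (mem_cons (W105 D T h) (mem_cons (W162 D T h) mem_nil)) mem_nil cw22922
theorem W22923 : WFK w22923 := fun D T h => wf_of_chk h (mem_cons (W2419 D T h) (mem_cons (W162 D T h) mem_nil)) mem_nil cw22923
theorem W22924 : WFK w22924 := fun D T h => wf_of_chk h (mem_cons (W13436 D T h) (mem_cons (W162 D T h) mem_nil)) mem_nil cw22924
theorem L5122 : LFK l5122 := fun D T h => lf_of_chk h (mem_cons (W2438 D T h) (mem_cons (W162 D T h) (mem_cons (W932 D T h) (mem_cons (W4531 D T h) (mem_cons (W1065 D T h) (mem_cons (W2424 D T h) (mem_cons (W22920 D T h) (mem_cons (W4632 D T h) (mem_cons (W10918 D T h) (mem_cons (W14085 D T h) (mem_cons (W461 D T h) (mem_cons (W22921 D T h) (mem_cons (W11008 D T h) (mem_cons (W19011 D T h) (mem_cons (W112 D T h) (mem_cons (W22922 D T h) (mem_cons (W2417 D T h) (mem_cons (W22917 D T h) (mem_cons (W22923 D T h) (mem_cons (W2456 D T h) (mem_cons (W22919 D T h) (mem_cons (W10721 D T h) (mem_cons (W2773 D T h) (mem_cons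 (W22916 D T h) (mem_cons (W10921 D T h) (mem_cons (W3356 D T h) (mem_cons (W22924 D T h) mem_nil))))))))))))))))))))))))))) cl5122
theorem W22925 : WFK w22925 := fun D T h => wf_of_chk h mem_nil (mem_cons (L5122 D T h) mem_nil) cw22925
theorem L5123 : LFK l5123 := fun D T h => lf_of_chk h (mem_cons (W2431 D T h) (mem_cons (W16 D T h) (mem_cons (W932 D T h) (mem_cons (W1065 D T h) (mem_cons (W2424 D T h) (mem_cons (W22920 D T h) (mem_cons (W4632 D T h) (mem_cons (W10918 D T h) (mem_cons (W521 D T h) (mem_cons (W461 D T h) (mem_cons (W155 D T h) (mem_cons (W537 D T h) (mem_cons (W22829 D T h) (mem_cons (W2413 D T h) (mem_cons (W2417 D T h) (mem_cons (W2773 D T h) (mem_cons (W10705 D T h) mem_nil))))))))))))))))) cl5123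
theorem W22926 : WFK w22926 := fun D T h => wf_of_chk h mem_nil (mem_cons (L5123 D T h) mem_nil) cw22926
theorem W22927 : WFK w22927 := fun D T h => wf_of_chk h (mem_cons (W2210 D T h) (mem_cons (W16 D T h) mem_nil)) mem_nil cw22927
theorem W22928 : WFK w22928 := fun D T h => wf_of_chk h (mem_cons (W15323 D T h) (mem_cons (W16 D T h) mem_nil)) mem_nil cw22928
theorem W22929 : WFK w22929 := fun D T h => wf_of_chk h (mem_cons (W368 D T h) mem_nil) mem_nil cw22929
theorem W22930 : WFK w22930 := fun D T h => wf_of_chk h mem_nil (mem_cons (L1023 D T h) mem_nil) cw22930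
theorem W22931 : WFK w22931 := fun D T h => wf_of_chk h mem_nil (mem_cons (L1046 D T h) mem_nil) cw22931
theorem L5124 : LFK l5124 := fun D T h => lf_of_chk h (mem_cons (W15786 D T h) (mem_cons (W2433 D T h) (mem_cons (W15760 D T h) (mem_cons (W69 D T h) (mem_cons (W368 D T h) (mem_cons (W17153 D T h) (mem_cons (W248 D T h) (mem_cons (W22929 D T h) (mem_cons (W4515 D T h) (mem_cons (W1204 D T h) (mem_cons (W1170 D T h) (mem_cons (W267 D T h) (mem_cons (W114 D T h) (mem_cons (W721 D T h) (mem_cons (W22930 D T h) (mem_cons (W22931 D T h) mem_nil)))))))))))))))) cl5124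
theorem W22932 : WFK w22932 := fun D T h => wf_of_chk h mem_nil (mem_cons (L5124 D T h) mem_nil) cw22932
theorem W22933 : WFK w22933 := fun D T h => wf_of_chk h (mem_cons (W22932 D T h) (mem_cons (W16 D T h) mem_nil)) mem_nil cw22933
theorem W22945 : WFK w22945 := fun D T h => wf_of_chk h (mem_cons (W461 D T h) mem_nil) mem_nil cw22945
theorem W22948 : WFK w22948 := fun D T h => wf_of_chk h (mem_cons (W1371 D T h) mem_nil) mem_nil cw22948
theorem W22951 : WFK w22951 := fun D T h => wf_of_chk h mem_nil (mem_cons (L2019 D T h) mem_nil) cw22951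
theorem W22952 : WFK w22952 := fun D T h => wf_of_chk h (mem_cons (W16 D T h) (mem_cons (W401 D T h) mem_nil)) mem_nil cw22952
theorem W22953 : WFK w22953 := fun D T h => wf_of_chk h (mem_cons (W18845 D T h) (mem_cons (W16 D T h) mem_nil)) mem_nil cw22953
theorem W22954 : WFK w22954 := fun D T h => wf_of_chk h (mem_cons (W179 D T h) (mem_cons (W16 D T h) mem_nil)) mem_nil cw22954
theorem W22955 : WFK w22955 := fun D T h => wf_of_chk h (mem_cons (W151 D T h) mem_nil) mem_nil cw22955
theorem W22956 : WFK w22956 := fun D T h => wf_of_chk h (mem_cons (W141 D T h) mem_nil) mem_nil cw22956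
theorem L5127 : LFK l5127 := fun D T h => lf_of_chk h (mem_cons (W15786 D T h) (mem_cons (W10662 D T h) (mem_cons (W15760 D T h) (mem_cons (W69 D T h) (mem_cons (W151 D T h) (mem_cons (W17153 D T h) (mem_cons (W87 D T h) (mem_cons (W10661 D T h) (mem_cons (W22955 D T h) (mem_cons (W1204 D T h) (mem_cons (W1170 D T h) (mem_cons (W22956 D T h) mem_nil)))))))))))) cl5127
theorem W22957 : WFK w22957 := fun D T h => wf_of_chk h mem_nil (mem_cons (L5127 D T h) mem_nil) cw22957
theorem W22958 : WFK w22958 := fun D T h => wf_of_chk h (mem_cons (W22957 D T h) (mem_cons (W16 D T h) mem_nil)) mem_nil cw22958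
theorem W22959 : WFK w22959 := fun D T h => wf_of_chk h (mem_cons (W16 D T h) (mem_cons (W5730 D T h) mem_nil)) mem_nil cw22959
theorem W22960 : WFK w22960 := fun D T h => wf_of_chk h (mem_cons (W162 D T h) (mem_cons (W401 D T h) mem_nil)) mem_nil cw22960
theorem W22961 : WFK w22961 := fun D T h => wf_of_chk h (mem_cons (W2489 D T h) (mem_cons (W16 D T h) mem_nil)) mem_nil cw22961
theorem W22962 : WFK w22962 := fun D T h => wf_of_chk h (mem_cons (W2490 D T h) (mem_cons (W16 D T h) mem_nil)) mem_nil cw22962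
theorem L5128 : LFK l5128 := fun D T h => lf_of_chk h (mem_cons (W22952 D T h) (mem_cons (W2724 D T h) (mem_cons (W721 D T h) (mem_cons (W1184 D T h) (mem_cons (W2729 D T h) (mem_cons (W22961 D T h) (mem_cons (W4458 D T h) (mem_cons (W16 D T h) (mem_cons (W799 D T h) (mem_cons (W6482 D T h) (mem_cons (W22962 D T h) (mem_cons (W114 D T h) (mem_cons (W22954 D T h) (mem_cons (W22953 D T h) (mem_cons (W401 D T h) (mem_cons (W22927 D T h) (mem_cons (W10769 D T h) (mem_cons (W10071 D T h) (mem_cons (W6714 D T h) (mem_cons (W5841 D T h) (mem_cons (W22958 D T h) (mem_cons (W2936 D T h) (mem_cons (W22959 D T h) (mem_cons (W22960 D T h) (mem_cons (W9025 D T h) (mem_cons (W2740 D T h) (mem_cons (W15786 D T h) (mem_cons (W747 D T h) (mem_cons (W16178 D T h) (mem_cons (W6967 D T h) (mem_cons (W1139 D T h) (mem_cons (W15825 D T h) mem_nil)))))))))))))))))))))))))))))))) cl5128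
theorem W22963 : WFK w22963 := fun D T h => wf_of_chk h mem_nil (mem_cons (L5128 D T h) mem_nil) cw22963
theorem W22964 : WFK w22964 := fun D T h => wf_of_chk h mem_nil (mem_cons (L139 D T h) mem_nil) cw22964
theorem W22965 : WFK w22965 := fun D T h => wf_of_chk h (mem_cons (W2433 D T h) mem_nil) mem_nil cw22965
theorem W22966 : WFK w22966 := fun D T h => wf_of_chk h (mem_cons (W112 D T h) (mem_cons (W2433 D T h) mem_nil)) mem_nil cw22966
theorem W22967 : WFK w22967 := fun D T h => wf_of_chk h (mem_cons (W69 D T h) (mem_cons (W2433 D T h) mem_nil)) mem_nil cw22967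
theorem L5129 : LFK l5129 := fun D T h => lf_of_chk h (mem_cons (W15786 D T h) (mem_cons (W11872 D T h) (mem_cons (W15760 D T h) (mem_cons (W1 D T h) (mem_cons (W69 D T h) (mem_cons (W91 D T h) (mem_cons (W17153 D T h) (mem_cons (W22965 D T h) (mem_cons (W370 D T h) (mem_cons (W111 D T h) (mem_cons (W267 D T h) (mem_cons (W721 D T h) (mem_cons (W22966 D T h) (mem_cons (W114 D T h) (mem_cons (W22967 D T h) mem_nil))))))))))))))) cl5129
theorem W22968 : WFK w22968 := fun D T h => wf_of_chk h mem_nil (mem_cons (L5129 D T h) mem_nil) cw22968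
theorem W22969 : WFK w22969 := fun D T h => wf_of_chk h mem_nil (mem_cons (L322 D T h) mem_nil) cw22969
theorem W22970 : WFK w22970 := fun D T h => wf_of_chk h mem_nil (mem_cons (L152 D T h) mem_nil) cw22970
theorem L5130 : LFK l5130 := fun D T h => lf_of_chk h (mem_cons (W7723 D T h) (mem_cons (W854 D T h) (mem_cons (W15296 D T h) (mem_cons (W67 D T h) (mem_cons (W69 D T h) (mem_cons (W80 D T h) (mem_cons (W234 D T h) (mem_cons (W22969 D T h) (mem_cons (W22970 D T h) (mem_cons (W1801 D T h) mem_nil)))))))))) cl5130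
theorem W22971 : WFK w22971 := fun D T h => wf_of_chk h mem_nil (mem_cons (L5130 D T h) mem_nil) cw22971
theorem W22972 : WFK w22972 := fun D T h => wf_of_chk h (mem_cons (W112 D T h) (mem_cons (W1128 D T h) mem_nil)) mem_nil cw22972
theorem L5131 : LFK l5131 := fun D T h => lf_of_chk h (mem_cons (W15786 D T h) (mem_cons (W15197 D T h) (mem_cons (W15760 D T h) (mem_cons (W1 D T h) (mem_cons (W69 D T h) (mem_cons (W91 D T h) (mem_cons (W17153 D T h) (mem_cons (W22971 D T h) (mem_cons (W14985 D T h) (mem_cons (W370 D T h) (mem_cons (W111 D T h) (mem_cons (W267 D T h) (mem_cons (W721 D T h) (mem_cons (W22972 D T h) (mem_cons (W114 D T h) (mem_cons (W15469 D T h) mem_nil)))))))))))))))) cl5131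
theorem W22973 : WFK w22973 := fun D T h => wf_of_chk h mem_nil (mem_cons (L5131 D T h) mem_nil) cw22973
theorem L5132 : LFK l5132 := fun D T h => lf_of_chk h (mem_cons (W2441 D T h) (mem_cons (W1188 D T h) (mem_cons (W2015 D T h) (mem_cons (W682 D T h) (mem_cons (W461 D T h) (mem_cons (W7114 D T h) (mem_cons (W155 D T h) (mem_cons (W16 D T h) (mem_cons (W8250 D T h) (mem_cons (W12827 D T h) (mem_cons (W22914 D T h) (mem_cons (W12203 D T h) (mem_cons (W2037 D T h) (mem_cons (W22925 D T h) (mem_cons (W22926 D T h) (mem_cons (W4209 D T h) (mem_cons (W22901 D T h) (mem_cons (W9771 D T h) (mem_cons (W17572 D T h) (mem_cons (W128 D T h) (mem_cons (W22902 D T h) (mem_cons (W22903 D T h) (mem_cons (W799 D T h) (mem_cons (W2412 D T h) (mem_cons (W2411 D T h) (mem_cons (W22913 D T h) (mem_cons (W22904 D T h) (mem_cons (W22577 D T h) (mem_cons (W2522 D T h) (mem_cons (W401 D T h) (mem_cons (W22927 D T h) (mem_cons (W1385 D T h) (mem_cons (W22928 D T h) (mem_cons (W22933 D T h) (mem_cons (W1196 D T h) (mem_cons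 (W10349 D T h) (mem_cons (W1169 D T h) (mem_cons (W22951 D T h) (mem_cons (W22963 D T h) (mem_cons (W22964 D T h) (mem_cons (W370 D T h) (mem_cons (W112 D T h) (mem_cons (W7209 D T h) (mem_cons (W4547 D T h) (mem_cons (W22968 D T h) (mem_cons (W22973 D T h) (mem_cons (W10924 D T h) (mem_cons (W10766 D T h) (mem_cons (W11028 D T h) mem_nil))))))))))))))))))))))))))))))))))))))))))))))))) cl5132
theorem W22974 : WFK w22974 := fun D T h => wf_of_chk h mem_nil (mem_cons (L5132 D T h) mem_nil) cw22974
theorem W22975 : WFK w22975 := fun D T h => wf_of_chk h (mem_cons (W1311 D T h) (mem_cons (W177 D T h) mem_nil)) mem_nil cw22975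
theorem W22976 : WFK w22976 := fun D T h => wf_of_chk h (mem_cons (W69 D T h) (mem_cons (W162 D T h) mem_nil)) mem_nil cw22976
theorem W22977 : WFK w22977 := fun D T h => wf_of_chk h (mem_cons (W195 D T h) (mem_cons (W162 D T h) mem_nil)) mem_nil cw22977
theorem W22978 : WFK w22978 := fun D T h => wf_of_chk h (mem_cons (W368 D T h) (mem_cons (W162 D T h) mem_nil)) mem_nil cw22978
theorem W22979 : WFK w22979 := fun D T h => wf_of_chk h (mem_cons (W370 D T h) (mem_cons (W162 D T h) mem_nil)) mem_nil cw22979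
theorem W22980 : WFK w22980 := fun D T h => wf_of_chk h (mem_cons (W373 D T h) (mem_cons (W162 D T h) mem_nil)) mem_nil cw22980
theorem W22981 : WFK w22981 := fun D T h => wf_of_chk h (mem_cons (W384 D T h) (mem_cons (W162 D T h) mem_nil)) mem_nil cw22981
theorem W22982 : WFK w22982 := fun D T h => wf_of_chk h (mem_cons (W382 D T h) (mem_cons (W162 D T h) mem_nil)) mem_nil cw22982
theorem W22983 : WFK w22983 := fun D T h => wf_of_chk h mem_nil (mem_cons (L507 D T h) mem_nil) cw22983
theorem W22984 : WFK w22984 := fun D T h => wf_of_chk h mem_nil (mem_cons (L4963 D T h) mem_nil) cw22984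
theorem L5133 : LFK l5133 := fun D T h => lf_of_chk h (mem_cons (W679 D T h) (mem_cons (W177 D T h) (mem_cons (W162 D T h) (mem_cons (W175 D T h) (mem_cons (W386 D T h) (mem_cons (W511 D T h) (mem_cons (W22984 D T h) (mem_cons (W4555 D T h) (mem_cons (W493 D T h) (mem_cons (W22983 D T h) (mem_cons (W22975 D T h) (mem_cons (W1631 D T h) (mem_cons (W4032 D T h) (mem_cons (W13261 D T h) (mem_cons (W22976 D T h) (mem_cons (W22977 D T h) (mem_cons (W22921 D T h) (mem_cons (W13278 D T h) (mem_cons (W13134 D T h) (mem_cons (W8047 D T h) (mem_cons (W4209 D T h) (mem_cons (W22978 D T h) (mem_cons (W22894 D T h) (mem_cons (W22979 D T h) (mem_cons (W3766 D T h) (mem_cons (W799 D T h) (mem_cons (W18669 D T h) (mem_cons (W22980 D T h) (mem_cons (W22981 D T h) (mem_cons (W22982 D T h) mem_nil)))))))))))))))))))))))))))))) cl5133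
theorem W22985 : WFK w22985 := fun D T h => wf_of_chk h mem_nil (mem_cons (L5133 D T h) mem_nil) cw22985
theorem W22986 : WFK w22986 := fun D T h => wf_of_chk h (mem_cons (W162 D T h) mem_nil) mem_nil cw22986
theorem L5134 : LFK l5134 := fun D T h => lf_of_chk h (mem_cons (W15786 D T h) (mem_cons (W6714 D T h) (mem_cons (W15760 D T h) (mem_cons (W69 D T h) (mem_cons (W162 D T h) (mem_cons (W17153 D T h) (mem_cons (W87 D T h) (mem_cons (W22986 D T h) (mem_cons (W937 D T h) (mem_cons (W1204 D T h) (mem_cons (W1170 D T h) (mem_cons (W10225 D T h) mem_nil)))))))))))) cl5134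
theorem W22987 : WFK w22987 := fun D T h => wf_of_chk h mem_nil (mem_cons (L5134 D T h) mem_nil) cw22987
theorem W22988 : WFK w22988 := fun D T h => wf_of_chk h (mem_cons (W7018 D T h) (mem_cons (W710 D T h) mem_nil)) mem_nil cw22988
theorem W22989 : WFK w22989 := fun D T h => wf_of_chk h (mem_cons (W175 D T h) mem_nil) mem_nil cw22989
theorem L5135 : LFK l5135 := fun D T h => lf_of_chk h (mem_cons (W15786 D T h) (mem_cons (W1929 D T h) (mem_cons (W15760 D T h) (mem_cons (W1 D T h) (mem_cons (W69 D T h) (mem_cons (W17153 D T h) (mem_cons (W33 D T h) (mem_cons (W10813 D T h) (mem_cons (W22989 D T h) (mem_cons (W22945 D T h) mem_nil)))))))))) cl5135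
theorem W22990 : WFK w22990 := fun D T h => wf_of_chk h mem_nil (mem_cons (L5135 D T h) mem_nil) cw22990
theorem W22991 : WFK w22991 := fun D T h => wf_of_chk h (mem_cons (W2323 D T h) mem_nil) mem_nil cw22991
theorem L5136 : LFK l5136 := fun D T h => lf_of_chk h (mem_cons (W15786 D T h) (mem_cons (W1929 D T h) (mem_cons (W1 D T h) (mem_cons (W15760 D T h) (mem_cons (W69 D T h) (mem_cons (W33 D T h) (mem_cons (W17153 D T h) (mem_cons (W10813 D T h) (mem_cons (W22991 D T h) (mem_cons (W22945 D T h) mem_nil)))))))))) cl5136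
theorem W22992 : WFK w22992 := fun D T h => wf_of_chk h mem_nil (mem_cons (L5136 D T h) mem_nil) cw22992
theorem W22993 : WFK w22993 := fun D T h => wf_of_chk h (mem_cons (W126 D T h) (mem_cons (W2323 D T h) mem_nil)) mem_nil cw22993
theorem W22994 : WFK w22994 := fun D T h => wf_of_chk h mem_nil (mem_cons (L1863 D T h) mem_nil) cw22994
theorem W22995 : WFK w22995 := fun D T h => wf_of_chk h mem_nil (mem_cons (L1863 D T h) mem_nil) cw22995
theorem W22996 : WFK w22996 := fun D T h => wf_of_chk h (mem_cons (W667 D T h) (mem_cons (W1929 D T h) mem_nil)) mem_nil cw22996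
theorem W22997 : WFK w22997 := fun D T h => wf_of_chk h (mem_cons (W175 D T h) mem_nil) mem_nil cw22997
theorem W22998 : WFK w22998 := fun D T h => wf_of_chk h mem_nil (mem_cons (L2116 D T h) mem_nil) cw22998
theorem W22999 : WFK w22999 := fun D T h => wf_of_chk h mem_nil (mem_cons (L185 D T h) mem_nil) cw22999
theorem W23000 : WFK w23000 := fun D T h => wf_of_chk h (mem_cons (W16 D T h) mem_nil) mem_nil cw23000
theorem W23001 : WFK w23001 := fun D T h => wf_of_chk h mem_nil (mem_cons (L836 D T h) mem_nil) cw23001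
theorem W23002 : WFK w23002 := fun D T h => wf_of_chk h mem_nil (mem_cons (L3530 D T h) mem_nil) cw23002
theorem W23003 : WFK w23003 := fun D T h => wf_of_chk h mem_nil (mem_cons (L1073 D T h) mem_nil) cw23003
theorem L5137 : LFK l5137 := fun D T h => lf_of_chk h (mem_cons (W18845 D T h) (mem_cons (W281 D T h) (mem_cons (W67 D T h) (mem_cons (W20934 D T h) (mem_cons (W7552 D T h) (mem_cons (W13938 D T h) (mem_cons (W6563 D T h) (mem_cons (W23000 D T h) (mem_cons (W6712 D T h) (mem_cons (W23001 D T h) (mem_cons (W480 D T h) (mem_cons (W23002 D T h) (mem_cons (W23003 D T h) (mem_cons (W1302 D T h) (mem_cons (W16 D T h) (mem_cons (W5596 D T h) (mem_cons (W5597 D T h) (mem_cons (W3339 D T h) (mem_cons (W6714 D T h) (mem_cons (W5841 D T h) (mem_cons (W22999 D T h) (mem_cons (W1883 D T h) (mem_cons (W864 D T h) (mem_cons (W3241 D T h) (mem_cons (W4696 D T h) (mem_cons (W16178 D T h) (mem_cons (W16179 D T h) (mem_cons (W1139 D T h) (mem_cons (W15825 D T h) mem_nil))))))))))))))))))))))))))))) cl5137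
theorem W23004 : WFK w23004 := fun D T h => wf_of_chk h mem_nil (mem_cons (L5137 D T h) mem_nil) cw23004
theorem W23005 : WFK w23005 := fun D T h => wf_of_chk h mem_nil (mem_cons (L1094 D T h) mem_nil) cw23005
theorem L5138 : LFK l5138 := fun D T h => lf_of_chk h (mem_cons (W1919 D T h) (mem_cons (W23005 D T h) (mem_cons (W22997 D T h) (mem_cons (W22998 D T h) (mem_cons (W23004 D T h) (mem_cons (W3518 D T h) (mem_cons (W1101 D T h) (mem_cons (W20614 D T h) (mem_cons (W3274 D T h) (mem_cons (W4353 D T h) (mem_cons (W140 D T h) (mem_cons (W143 D T h) (mem_cons (W67 D T h) mem_nil))))))))))))) cl5138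
theorem W23006 : WFK w23006 := fun D T h => wf_of_chk h mem_nil (mem_cons (L5138 D T h) mem_nil) cw23006
theorem W23007 : WFK w23007 := fun D T h => wf_of_chk h mem_nil (mem_cons (L812 D T h) mem_nil) cw23007
theorem L5139 : LFK l5139 := fun D T h => lf_of_chk h (mem_cons (W7718 D T h) (mem_cons (W177 D T h) (mem_cons (W16 D T h) (mem_cons (W1377 D T h) (mem_cons (W1616 D T h) (mem_cons (W1438 D T h) (mem_cons (W15786 D T h) (mem_cons (W23007 D T h) (mem_cons (W2517 D T h) mem_nil))))))))) cl5139
theorem W23008 : WFK w23008 := fun D T h => wf_of_chk h mem_nil (mem_cons (L5139 D T h) mem_nil) cw23008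
theorem W23009 : WFK w23009 := fun D T h => wf_of_chk h (mem_cons (W16 D T h) mem_nil) mem_nil cw23009
theorem W23010 : WFK w23010 := fun D T h => wf_of_chk h mem_nil (mem_cons (L3530 D T h) mem_nil) cw23010
theorem L5140 : LFK l5140 := fun D T h => lf_of_chk h (mem_cons (W18845 D T h) (mem_cons (W281 D T h) (mem_cons (W34 D T h) (mem_cons (W6572 D T h) (mem_cons (W114 D T h) (mem_cons (W3766 D T h) (mem_cons (W19366 D T h) (mem_cons (W6570 D T h) (mem_cons (W23009 D T h) (mem_cons (W6712 D T h) (mem_cons (W6655 D T h) (mem_cons (W1588 D T h) (mem_cons (W23010 D T h) (mem_cons (W17201 D T h) (mem_cons (W112 D T h) (mem_cons (W16 D T h) (mem_cons (W2690 D T h) (mem_cons (W140 D T h) (mem_cons (W6103 D T h) (mem_cons (W6714 D T h) (mem_cons (W5841 D T h) (mem_cons (W4458 D T h) (mem_cons (W13641 D T h) (mem_cons (W2743 D T h) (mem_cons (W871 D T h) (mem_cons (W19813 D T h) (mem_cons (W1801 D T h) (mem_cons (W13754 D T h) (mem_cons (W13643 D T h) (mem_cons (W6749 D T h) (mem_cons (W1139 D T h) (mem_cons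 (W13692 D T h) mem_nil)))))))))))))))))))))))))))))))) cl5140
theorem W23011 : WFK w23011 := fun D T h => wf_of_chk h mem_nil (mem_cons (L5140 D T h) mem_nil) cw23011
theorem W23012 : WFK w23012 := fun D T h => wf_of_chk h (mem_cons (W162 D T h) (mem_cons (W1929 D T h) mem_nil)) mem_nil cw23012
theorem W23013 : WFK w23013 := fun D T h => wf_of_chk h (mem_cons (W1128 D T h) (mem_cons (W16 D T h) mem_nil)) mem_nil cw23013
theorem W23014 : WFK w23014 := fun D T h => wf_of_chk h (mem_cons (W2433 D T h) (mem_cons (W16 D T h) mem_nil)) mem_nil cw23014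
theorem W23015 : WFK w23015 := fun D T h => wf_of_chk h (mem_cons (W16 D T h) (mem_cons (W112 D T h) mem_nil)) mem_nil cw23015
theorem L5141 : LFK l5141 := fun D T h => lf_of_chk h (mem_cons (W18458 D T h) (mem_cons (W2323 D T h) (mem_cons (W175 D T h) (mem_cons (W1063 D T h) (mem_cons (W16 D T h) (mem_cons (W1919 D T h) (mem_cons (W22990 D T h) (mem_cons (W5602 D T h) (mem_cons (W22992 D T h) (mem_cons (W2015 D T h) (mem_cons (W23011 D T h) (mem_cons (W8783 D T h) (mem_cons (W2037 D T h) (mem_cons (W23012 D T h) (mem_cons (W4531 D T h) (mem_cons (W932 D T h) (mem_cons (W22993 D T h) (mem_cons (W17571 D T h) (mem_cons (W17572 D T h) (mem_cons (W19815 D T h) (mem_cons (W22994 D T h) (mem_cons (W10973 D T h) (mem_cons (W22995 D T h) (mem_cons (W22996 D T h) (mem_cons (W17031 D T h) (mem_cons (W23006 D T h) (mem_cons (W20252 D T h) (mem_cons (W5212 D T h) (mem_cons (W23008 D T h) (mem_cons (W7423 D T h) (mem_cons (W8231 D T h) (mem_cons (W179 D T h) (mem_cons (W5072 D T h) (mem_cons (W2935 D T h)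 (mem_cons (W10766 D T h) (mem_cons (W370 D T h) (mem_cons (W178 D T h) (mem_cons (W23013 D T h) (mem_cons (W4547 D T h) (mem_cons (W23014 D T h) (mem_cons (W7076 D T h) (mem_cons (W11194 D T h) (mem_cons (W23015 D T h) (mem_cons (W18845 D T h) mem_nil)))))))))))))))))))))))))))))))))))))))))))) cl5141
theorem W23016 : WFK w23016 := fun D T h => wf_of_chk h mem_nil (mem_cons (L5141 D T h) mem_nil) cw23016
theorem W23017 : WFK w23017 := fun D T h => wf_of_chk h (mem_cons (W1231 D T h) mem_nil) mem_nil cw23017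
theorem W23018 : WFK w23018 := fun D T h => wf_of_chk h (mem_cons (W6743 D T h) mem_nil) mem_nil cw23018
theorem W23019 : WFK w23019 := fun D T h => wf_of_chk h (mem_cons (W112 D T h) (mem_cons (W1231 D T h) mem_nil)) mem_nil cw23019
theorem W23020 : WFK w23020 := fun D T h => wf_of_chk h (mem_cons (W69 D T h) (mem_cons (W1231 D T h) mem_nil)) mem_nil cw23020
theorem L5142 : LFK l5142 := fun D T h => lf_of_chk h (mem_cons (W15786 D T h) (mem_cons (W23016 D T h) (mem_cons (W15760 D T h) (mem_cons (W69 D T h) (mem_cons (W6743 D T h) (mem_cons (W17153 D T h) (mem_cons (W91 D T h) (mem_cons (W23017 D T h) (mem_cons (W23018 D T h) (mem_cons (W370 D T h) (mem_cons (W111 D T h) (mem_cons (W267 D T h) (mem_cons (W114 D T h) (mem_cons (W721 D T h) (mem_cons (W23019 D T h) (mem_cons (W23020 D T h) mem_nil)))))))))))))))) cl5142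
theorem W23021 : WFK w23021 := fun D T h => wf_of_chk h mem_nil (mem_cons (L5142 D T h) mem_nil) cw23021
theorem L5143 : LFK l5143 := fun D T h => lf_of_chk h (mem_cons (W15786 D T h) (mem_cons (W6714 D T h) (mem_cons (W15760 D T h) (mem_cons (W69 D T h) (mem_cons (W1231 D T h) (mem_cons (W17153 D T h) (mem_cons (W33 D T h) (mem_cons (W10683 D T h) (mem_cons (W6834 D T h) (mem_cons (W1204 D T h) (mem_cons (W1170 D T h) (mem_cons (W10225 D T h) mem_nil)))))))))))) cl5143
theorem W23022 : WFK w23022 := fun D T h => wf_of_chk h mem_nil (mem_cons (L5143 D T h) mem_nil) cw23022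
theorem W23023 : WFK w23023 := fun D T h => wf_of_chk h (mem_cons (W1231 D T h) mem_nil) mem_nil cw23023
theorem L5144 : LFK l5144 := fun D T h => lf_of_chk h (mem_cons (W15786 D T h) (mem_cons (W6714 D T h) (mem_cons (W15760 D T h) (mem_cons (W69 D T h) (mem_cons (W1 D T h) (mem_cons (W17153 D T h) (mem_cons (W33 D T h) (mem_cons (W23023 D T h) (mem_cons (W20136 D T h) (mem_cons (W1204 D T h) (mem_cons (W1170 D T h) (mem_cons (W10225 D T h) mem_nil)))))))))))) cl5144
theorem W23024 : WFK w23024 := fun D T h => wf_of_chk h mem_nil (mem_cons (L5144 D T h) mem_nil) cw23024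
theorem W23025 : WFK w23025 := fun D T h => wf_of_chk h mem_nil (mem_cons (L1147 D T h) mem_nil) cw23025
theorem W23026 : WFK w23026 := fun D T h => wf_of_chk h (mem_cons (W23025 D T h) (mem_cons (W710 D T h) mem_nil)) mem_nil cw23026
theorem W23027 : WFK w23027 := fun D T h => wf_of_chk h (mem_cons (W2037 D T h) (mem_cons (W710 D T h) mem_nil)) mem_nil cw23027
theorem L5145 : LFK l5145 := fun D T h => lf_of_chk h (mem_cons (W7114 D T h) (mem_cons (W669 D T h) (mem_cons (W50 D T h) (mem_cons (W5841 D T h) (mem_cons (W3776 D T h) (mem_cons (W1690 D T h) (mem_cons (W3719 D T h) (mem_cons (W3766 D T h) (mem_cons (W9595 D T h) (mem_cons (W18102 D T h) (mem_cons (W10344 D T h) (mem_cons (W15 D T h) (mem_cons (W909 D T h) (mem_cons (W910 D T h) (mem_cons (W911 D T h) (mem_cons (W261 D T h) (mem_cons (W1924 D T h) (mem_cons (W461 D T h) mem_nil)))))))))))))))))) cl5145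
theorem W23028 : WFK w23028 := fun D T h => wf_of_chk h mem_nil (mem_cons (L5145 D T h) mem_nil) cw23028
theorem W23029 : WFK w23029 := fun D T h => wf_of_chk h (mem_cons (W22898 D T h) (mem_cons (W710 D T h) mem_nil)) mem_nil cw23029
theorem W23030 : WFK w23030 := fun D T h => wf_of_chk h (mem_cons (W23025 D T h) (mem_cons (W710 D T h) mem_nil)) mem_nil cw23030
theorem W23033 : WFK w23033 := fun D T h => wf_of_chk h mem_nil (mem_cons (L5071 D T h) mem_nil) cw23033
theorem W23034 : WFK w23034 := fun D T h => wf_of_chk h mem_nil (mem_cons (L3227 D T h) mem_nil) cw23034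
theorem L5146 : LFK l5146 := fun D T h => lf_of_chk h (mem_cons (W7114 D T h) (mem_cons (W3035 D T h) (mem_cons (W461 D T h) (mem_cons (W401 D T h) (mem_cons (W6645 D T h) (mem_cons (W4513 D T h) (mem_cons (W6372 D T h) (mem_cons (W19479 D T h) (mem_cons (W23033 D T h) (mem_cons (W23034 D T h) mem_nil)))))))))) cl5146
theorem W23035 : WFK w23035 := fun D T h => wf_of_chk h mem_nil (mem_cons (L5146 D T h) mem_nil) cw23035
theorem L5147 : LFK l5147 := fun D T h => lf_of_chk h (mem_cons (W3 D T h) (mem_cons (W67 D T h) (mem_cons (W2324 D T h) (mem_cons (W6614 D T h) mem_nil)))) cl5147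
theorem W23036 : WFK w23036 := fun D T h => wf_of_chk h mem_nil (mem_cons (L5147 D T h) mem_nil) cw23036
theorem L5148 : LFK l5148 := fun D T h => lf_of_chk h (mem_cons (W3727 D T h) mem_nil) cl5148
theorem W23037 : WFK w23037 := fun D T h => wf_of_chk h mem_nil (mem_cons (L5148 D T h) mem_nil) cw23037
theorem L5149 : LFK l5149 := fun D T h => lf_of_chk h (mem_cons (W158 D T h) (mem_cons (W4 D T h) (mem_cons (W802 D T h) (mem_cons (W143 D T h) (mem_cons (W1101 D T h) (mem_cons (W8695 D T h) (mem_cons (W331 D T h) (mem_cons (W1092 D T h) (mem_cons (W3232 D T h) (mem_cons (W1075 D T h) (mem_cons (W812 D T h) (mem_cons (W248 D T h) (mem_cons (W87 D T h) mem_nil))))))))))))) cl5149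
theorem W23038 : WFK w23038 := fun D T h => wf_of_chk h mem_nil (mem_cons (L5149 D T h) mem_nil) cw23038
theorem W23039 : WFK w23039 := fun D T h => wf_of_chk h (mem_cons (W22268 D T h) mem_nil) mem_nil cw23039
theorem W23040 : WFK w23040 := fun D T h => wf_of_chk h (mem_cons (W105 D T h) mem_nil) mem_nil cw23040
theorem W23041 : WFK w23041 := fun D T h => wf_of_chk h (mem_cons (W80 D T h) mem_nil) mem_nil cw23041
theorem W23042 : WFK w23042 := fun D T h => wf_of_chk h (mem_cons (W69 D T h) mem_nil) mem_nil cw23042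
theorem W23043 : WFK w23043 := fun D T h => wf_of_chk h (mem_cons (W1637 D T h) mem_nil) mem_nil cw23043
theorem W23044 : WFK w23044 := fun D T h => wf_of_chk h (mem_cons (W2546 D T h) mem_nil) mem_nil cw23044
theorem W23045 : WFK w23045 := fun D T h => wf_of_chk h (mem_cons (W112 D T h) mem_nil) mem_nil cw23045
theorem L5150 : LFK l5150 := fun D T h => lf_of_chk h (mem_cons (W7212 D T h) (mem_cons (W1 D T h) (mem_cons (W9005 D T h) (mem_cons (W23036 D T h) (mem_cons (W724 D T h) (mem_cons (W23037 D T h) (mem_cons (W23039 D T h) (mem_cons (W23040 D T h) (mem_cons (W69 D T h) (mem_cons (W23041 D T h) (mem_cons (W23042 D T h) (mem_cons (W2766 D T h) (mem_cons (W112 D T h) (mem_cons (W1428 D T h) (mem_cons (W2674 D T h) (mem_cons (W23038 D T h) (mem_cons (W23043 D T h) (mem_cons (W23044 D T h) (mem_cons (W11384 D T h) (mem_cons (W2548 D T h) (mem_cons (W23045 D T h) mem_nil))))))))))))))))))))) cl5150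
theorem W23046 : WFK w23046 := fun D T h => wf_of_chk h mem_nil (mem_cons (L5150 D T h) mem_nil) cw23046
theorem W23048 : WFK w23048 := fun D T h => wf_of_chk h mem_nil (mem_cons (L3340 D T h) mem_nil) cw23048
theorem W23049 : WFK w23049 := fun D T h => wf_of_chk h (mem_cons (W5605 D T h) mem_nil) mem_nil cw23049
theorem W23050 : WFK w23050 := fun D T h => wf_of_chk h (mem_cons (W20386 D T h) mem_nil) mem_nil cw23050
theorem W23051 : WFK w23051 := fun D T h => wf_of_chk h (mem_cons (W69 D T h) (mem_cons (W22139 D T h) mem_nil)) mem_nil cw23051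
theorem W23052 : WFK w23052 := fun D T h => wf_of_chk h (mem_cons (W16135 D T h) mem_nil) mem_nil cw23052
theorem W23053 : WFK w23053 := fun D T h => wf_of_chk h mem_nil (mem_cons (L3798 D T h) mem_nil) cw23053
theorem W23054 : WFK w23054 := fun D T h => wf_of_chk h (mem_cons (W69 D T h) (mem_cons (W9025 D T h) mem_nil)) mem_nil cw23054
theorem W23055 : WFK w23055 := fun D T h => wf_of_chk h mem_nil (mem_cons (L674 D T h) mem_nil) cw23055
theorem W23056 : WFK w23056 := fun D T h => wf_of_chk h (mem_cons (W17862 D T h) (mem_cons (W16 D T h) mem_nil)) mem_nil cw23056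
theorem W23057 : WFK w23057 := fun D T h => wf_of_chk h (mem_cons (W10715 D T h) mem_nil) mem_nil cw23057
theorem W23058 : WFK w23058 := fun D T h => wf_of_chk h (mem_cons (W23057 D T h) (mem_cons (W16 D T h) mem_nil)) mem_nil cw23058
theorem W23059 : WFK w23059 := fun D T h => wf_of_chk h mem_nil (mem_cons (L165 D T h) mem_nil) cw23059
theorem W23060 : WFK w23060 := fun D T h => wf_of_chk h mem_nil (mem_cons (L3222 D T h) mem_nil) cw23060
theorem L5151 : LFK l5151 := fun D T h => lf_of_chk h (mem_cons (W1654 D T h) (mem_cons (W11 D T h) (mem_cons (W13364 D T h) (mem_cons (W1424 D T h) (mem_cons (W23059 D T h) (mem_cons (W33 D T h) (mem_cons (W23060 D T h) (mem_cons (W12337 D T h) mem_nil)))))))) cl5151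
theorem W23061 : WFK w23061 := fun D T h => wf_of_chk h mem_nil (mem_cons (L5151 D T h) mem_nil) cw23061
theorem W23062 : WFK w23062 := fun D T h => wf_of_chk h (mem_cons (W23061 D T h) (mem_cons (W16 D T h) mem_nil)) mem_nil cw23062
theorem W23063 : WFK w23063 := fun D T h => wf_of_chk h (mem_cons (W2723 D T h) mem_nil) mem_nil cw23063
theorem W23064 : WFK w23064 := fun D T h => wf_of_chk h mem_nil (mem_cons (L349 D T h) mem_nil) cw23064
theorem W23065 : WFK w23065 := fun D T h => wf_of_chk h mem_nil (mem_cons (L349 D T h) mem_nil) cw23065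
theorem W23066 : WFK w23066 := fun D T h => wf_of_chk h (mem_cons (W158 D T h) (mem_cons (W2723 D T h) mem_nil)) mem_nil cw23066
theorem W23068 : WFK w23068 := fun D T h => wf_of_chk h (mem_cons (W281 D T h) (mem_cons (W2723 D T h) mem_nil)) mem_nil cw23068
theorem L5152 : LFK l5152 := fun D T h => lf_of_chk h (mem_cons (W7076 D T h) (mem_cons (W2723 D T h) (mem_cons (W1 D T h) (mem_cons (W1400 D T h) (mem_cons (W5580 D T h) (mem_cons (W5159 D T h) (mem_cons (W871 D T h) (mem_cons (W15786 D T h) (mem_cons (W23064 D T h) (mem_cons (W23065 D T h) (mem_cons (W2921 D T h) (mem_cons (W23066 D T h) (mem_cons (W1588 D T h) (mem_cons (W22315 D T h) (mem_cons (W19220 D T h) (mem_cons (W3582 D T h) (mem_cons (W13011 D T h) (mem_cons (W23063 D T h) (mem_cons (W2690 D T h) (mem_cons (W6103 D T h) (mem_cons (W6718 D T h) (mem_cons (W23068 D T h) mem_nil)))))))))))))))))))))) cl5152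
theorem W23069 : WFK w23069 := fun D T h => wf_of_chk h mem_nil (mem_cons (L5152 D T h) mem_nil) cw23069
theorem W23070 : WFK w23070 := fun D T h => wf_of_chk h (mem_cons (W23069 D T h) (mem_cons (W16 D T h) mem_nil)) mem_nil cw23070
theorem W23071 : WFK w23071 := fun D T h => wf_of_chk h (mem_cons (W6969 D T h) mem_nil) mem_nil cw23071
theorem W23072 : WFK w23072 := fun D T h => wf_of_chk h (mem_cons (W9411 D T h) mem_nil) mem_nil cw23072
theorem W23073 : WFK w23073 := fun D T h => wf_of_chk h (mem_cons (W22139 D T h) mem_nil) mem_nil cw23073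
theorem L5153 : LFK l5153 := fun D T h => lf_of_chk h (mem_cons (W11192 D T h) (mem_cons (W7114 D T h) (mem_cons (W1346 D T h) (mem_cons (W10483 D T h) (mem_cons (W14535 D T h) (mem_cons (W9025 D T h) (mem_cons (W22139 D T h) (mem_cons (W944 D T h) (mem_cons (W12629 D T h) (mem_cons (W2051 D T h) (mem_cons (W21399 D T h) (mem_cons (W23073 D T h) (mem_cons (W23049 D T h) (mem_cons (W13801 D T h) (mem_cons (W9660 D T h) (mem_cons (W11384 D T h) (mem_cons (W5721 D T h) (mem_cons (W23051 D T h) (mem_cons (W23052 D T h) (mem_cons (W23053 D T h) (mem_cons (W23054 D T h) (mem_cons (W16 D T h) (mem_cons (W19490 D T h) (mem_cons (W23048 D T h) (mem_cons (W23050 D T h) (mem_cons (W12634 D T h) (mem_cons (W8153 D T h) (mem_cons (W22033 D T h) (mem_cons (W15884 D T h) (mem_cons (W15883 D T h) (mem_cons (W284 D T h) (mem_cons (W22948 D T h) (mem_cons (W19580 D T h) (mem_cons (W9056 D T h) (mem_cons (W22338 D T h) (mem_cons (W23055 D T h) (mem_cons (W23056 D T h) (mem_cons (W22084 D T h) (mem_cons (W19582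 D T h) (mem_cons (W11936 D T h) (mem_cons (W23058 D T h) (mem_cons (W23062 D T h) (mem_cons (W23070 D T h) (mem_cons (W23071 D T h) (mem_cons (W23072 D T h) mem_nil))))))))))))))))))))))))))))))))))))))))))))) cl5153
theorem W23074 : WFK w23074 := fun D T h => wf_of_chk h mem_nil (mem_cons (L5153 D T h) mem_nil) cw23074
theorem W23075 : WFK w23075 := fun D T h => wf_of_chk h mem_nil (mem_cons (L2586 D T h) mem_nil) cw23075
theorem L5154 : LFK l5154 := fun D T h => lf_of_chk h (mem_cons (W852 D T h) (mem_cons (W8633 D T h) (mem_cons (W5165 D T h) mem_nil))) cl5154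
theorem W23076 : WFK w23076 := fun D T h => wf_of_chk h mem_nil (mem_cons (L5154 D T h) mem_nil) cw23076
theorem L5155 : LFK l5155 := fun D T h => lf_of_chk h (mem_cons (W257 D T h) (mem_cons (W10099 D T h) (mem_cons (W6204 D T h) (mem_cons (W2443 D T h) (mem_cons (W648 D T h) (mem_cons (W13 D T h) (mem_cons (W14045 D T h) (mem_cons (W12335 D T h) (mem_cons (W86 D T h) (mem_cons (W3 D T h) (mem_cons (W22622 D T h) (mem_cons (W4548 D T h) (mem_cons (W23076 D T h) mem_nil))))))))))))) cl5155
theorem W23077 : WFK w23077 := fun D T h => wf_of_chk h mem_nil (mem_cons (L5155 D T h) mem_nil) cw23077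
theorem W23078 : WFK w23078 := fun D T h => wf_of_chk h (mem_cons (W5633 D T h) mem_nil) mem_nil cw23078
theorem W23079 : WFK w23079 := fun D T h => wf_of_chk h (mem_cons (W651 D T h) (mem_cons (W16 D T h) mem_nil)) mem_nil cw23079
theorem W23080 : WFK w23080 := fun D T h => wf_of_chk h (mem_cons (W7114 D T h) mem_nil) mem_nil cw23080
theorem L5156 : LFK l5156 := fun D T h => lf_of_chk h (mem_cons (W11192 D T h) (mem_cons (W7114 D T h) (mem_cons (W9413 D T h) (mem_cons (W17950 D T h) (mem_cons (W13829 D T h) (mem_cons (W9025 D T h) (mem_cons (W944 D T h) (mem_cons (W17472 D T h) (mem_cons (W16 D T h) (mem_cons (W23075 D T h) (mem_cons (W12629 D T h) (mem_cons (W23080 D T h) (mem_cons (W22351 D T h) (mem_cons (W10822 D T h) (mem_cons (W22335 D T h) (mem_cons (W12634 D T h) (mem_cons (W8153 D T h) (mem_cons (W23077 D T h) (mem_cons (W15884 D T h) (mem_cons (W15883 D T h) (mem_cons (W284 D T h) (mem_cons (W23078 D T h) (mem_cons (W23079 D T h) (mem_cons (W9056 D T h) (mem_cons (W17403 D T h) mem_nil)))))))))))))))))))))))))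 cl5156
theorem W23081 : WFK w23081 := fun D T h => wf_of_chk h mem_nil (mem_cons (L5156 D T h) mem_nil) cw23081
theorem W23086 : WFK w23086 := fun D T h => wf_of_chk h (mem_cons (W18774 D T h) mem_nil) mem_nil cw23086
theorem L5159 : LFK l5159 := fun D T h => lf_of_chk h (mem_cons (W15786 D T h) (mem_cons (W6714 D T h) (mem_cons (W15760 D T h) (mem_cons (W69 D T h) (mem_cons (W1 D T h) (mem_cons (W17153 D T h) (mem_cons (W33 D T h) (mem_cons (W23086 D T h) (mem_cons (W19490 D T h) (mem_cons (W1204 D T h) (mem_cons (W1170 D T h) (mem_cons (W10225 D T h) mem_nil)))))))))))) cl5159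
theorem W23087 : WFK w23087 := fun D T h => wf_of_chk h mem_nil (mem_cons (L5159 D T h) mem_nil) cw23087
theorem W23090 : WFK w23090 := fun D T h => wf_of_chk h (mem_cons (W5841 D T h) (mem_cons (W126 D T h) mem_nil)) mem_nil cw23090
theorem W23105 : WFK w23105 := fun D T h => wf_of_chk h (mem_cons (W69 D T h) (mem_cons (W9025 D T h) mem_nil)) mem_nil cw23105
theorem L5164 : LFK l5164 := fun D T h => lf_of_chk h (mem_cons (W22814 D T h) (mem_cons (W5841 D T h) (mem_cons (W8633 D T h) (mem_cons (W3831 D T h) (mem_cons (W3763 D T h) (mem_cons (W10076 D T h) (mem_cons (W391 D T h) (mem_cons (W200 D T h) (mem_cons (W2304 D T h) (mem_cons (W10234 D T h) (mem_cons (W858 D T h) (mem_cons (W2120 D T h) (mem_cons (W21729 D T h) (mem_cons (W21932 D T h) (mem_cons (W14359 D T h) (mem_cons (W1448 D T h) mem_nil)))))))))))))))) cl5164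
theorem W23121 : WFK w23121 := fun D T h => wf_of_chk h mem_nil (mem_cons (L5164 D T h) mem_nil) cw23121
theorem W23122 : WFK w23122 := fun D T h => wf_of_chk h (mem_cons (W267 D T h) (mem_cons (W126 D T h) mem_nil)) mem_nil cw23122
theorem L5165 : LFK l5165 := fun D T h => lf_of_chk h (mem_cons (W4556 D T h) mem_nil) cl5165
theorem W23133 : WFK w23133 := fun D T h => wf_of_chk h mem_nil (mem_cons (L2365 D T h) mem_nil) cw23133
theorem W23134 : WFK w23134 := fun D T h => wf_of_chk h mem_nil (mem_cons (L110 D T h) mem_nil) cw23134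
theorem W23137 : WFK w23137 := fun D T h => wf_of_chk h (mem_cons (W5633 D T h) (mem_cons (W126 D T h) mem_nil)) mem_nil cw23137
theorem W23138 : WFK w23138 := fun D T h => wf_of_chk h (mem_cons (W42 D T h) (mem_cons (W126 D T h) mem_nil)) mem_nil cw23138
theorem W23139 : WFK w23139 := fun D T h => wf_of_chk h mem_nil (mem_cons (L1707 D T h) mem_nil) cw23139
theorem W23140 : WFK w23140 := fun D T h => wf_of_chk h (mem_cons (W20829 D T h) (mem_cons (W16 D T h) mem_nil)) mem_nil cw23140
theorem W23141 : WFK w23141 := fun D T h => wf_of_chk h (mem_cons (W7114 D T h) (mem_cons (W126 D T h) mem_nil)) mem_nil cw23141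
theorem W23142 : WFK w23142 := fun D T h => wf_of_chk h (mem_cons (W4513 D T h) (mem_cons (W16 D T h) mem_nil)) mem_nil cw23142
theorem W23143 : WFK w23143 := fun D T h => wf_of_chk h (mem_cons (W19479 D T h) (mem_cons (W16 D T h) mem_nil)) mem_nil cw23143
theorem L5170 : LFK l5170 := fun D T h => lf_of_chk h (mem_cons (W2766 D T h) (mem_cons (W831 D T h) (mem_cons (W1101 D T h) (mem_cons (W47 D T h) (mem_cons (W381 D T h) mem_nil))))) cl5170
theorem W23144 : WFK w23144 := fun D T h => wf_of_chk h mem_nil (mem_cons (L5170 D T h) mem_nil) cw23144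
theorem W23145 : WFK w23145 := fun D T h => wf_of_chk h (mem_cons (W23144 D T h) (mem_cons (W16 D T h) mem_nil)) mem_nil cw23145
theorem W23146 : WFK w23146 := fun D T h => wf_of_chk h (mem_cons (W23034 D T h) (mem_cons (W16 D T h) mem_nil)) mem_nil cw23146
theorem W23147 : WFK w23147 := fun D T h => wf_of_chk h mem_nil (mem_cons (L2365 D T h) mem_nil) cw23147
theorem W23148 : WFK w23148 := fun D T h => wf_of_chk h (mem_cons (W23147 D T h) (mem_cons (W16 D T h) mem_nil)) mem_nil cw23148
theorem W23149 : WFK w23149 := fun D T h => wf_of_chk h (mem_cons (W19479 D T h) (mem_cons (W16 D T h) mem_nil)) mem_nil cw23149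
theorem L5171 : LFK l5171 := fun D T h => lf_of_chk h (mem_cons (W11192 D T h) (mem_cons (W7114 D T h) (mem_cons (W126 D T h) (mem_cons (W20864 D T h) (mem_cons (W23138 D T h) (mem_cons (W9025 D T h) (mem_cons (W23139 D T h) (mem_cons (W2050 D T h) (mem_cons (W22196 D T h) (mem_cons (W2051 D T h) (mem_cons (W23137 D T h) (mem_cons (W13801 D T h) (mem_cons (W9660 D T h) (mem_cons (W11384 D T h) (mem_cons (W16 D T h) (mem_cons (W23087 D T h) (mem_cons (W23090 D T h) (mem_cons (W23121 D T h) (mem_cons (W23048 D T h) (mem_cons (W23141 D T h) (mem_cons (W22351 D T h) (mem_cons (W10822 D T h) (mem_cons (W22335 D T h) (mem_cons (W12634 D T h) (mem_cons (W8153 D T h) (mem_cons (W23122 D T h) (mem_cons (W15884 D T h) (mem_cons (W15883 D T h) (mem_cons (W284 D T h) (mem_cons (W9412 D T h) (mem_cons (W9411 D T h) (mem_cons (W23140 D T h) (mem_cons (W18058 D T h) (mem_cons (W23142 D T h) (mem_cons (W23056 D T h) (mem_cons (W22084 D T h) (mem_cons (W23143 D T h) (mem_cons (W11936 D T h) (mem_cons (W23145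 D T h) (mem_cons (W23146 D T h) (mem_cons (W23148 D T h) (mem_cons (W23149 D T h) mem_nil)))))))))))))))))))))))))))))))))))))))))) cl5171
theorem W23150 : WFK w23150 := fun D T h => wf_of_chk h mem_nil (mem_cons (L5171 D T h) mem_nil) cw23150
theorem W23153 : WFK w23153 := fun D T h => wf_of_chk h (mem_cons (W8188 D T h) mem_nil) mem_nil cw23153
theorem L5173 : LFK l5173 := fun D T h => lf_of_chk h (mem_cons (W15786 D T h) (mem_cons (W6714 D T h) (mem_cons (W15760 D T h) (mem_cons (W69 D T h) (mem_cons (W1 D T h) (mem_cons (W391 D T h) (mem_cons (W17153 D T h) (mem_cons (W33 D T h) (mem_cons (W23153 D T h) (mem_cons (W19490 D T h) (mem_cons (W1204 D T h) (mem_cons (W1170 D T h) (mem_cons (W10225 D T h) mem_nil))))))))))))) cl5173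
theorem W23154 : WFK w23154 := fun D T h => wf_of_chk h mem_nil (mem_cons (L5173 D T h) mem_nil) cw23154
theorem W23156 : WFK w23156 := fun D T h => wf_of_chk h (mem_cons (W5841 D T h) (mem_cons (W368 D T h) mem_nil)) mem_nil cw23156
theorem W23169 : WFK w23169 := fun D T h => wf_of_chk h (mem_cons (W267 D T h) (mem_cons (W368 D T h) mem_nil)) mem_nil cw23169
theorem W23170 : WFK w23170 := fun D T h => wf_of_chk h mem_nil (mem_cons (L1491 D T h) mem_nil) cw23170
theorem W23179 : WFK w23179 := fun D T h => wf_of_chk h mem_nil (mem_cons (L4631 D T h) mem_nil) cw23179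
theorem W23180 : WFK w23180 := fun D T h => wf_of_chk h (mem_cons (W5633 D T h) (mem_cons (W368 D T h) mem_nil)) mem_nil cw23180
theorem W23181 : WFK w23181 := fun D T h => wf_of_chk h (mem_cons (W42 D T h) (mem_cons (W368 D T h) mem_nil)) mem_nil cw23181
theorem L5178 : LFK l5178 := fun D T h => lf_of_chk h (mem_cons (W11192 D T h) (mem_cons (W7114 D T h) (mem_cons (W368 D T h) (mem_cons (W20864 D T h) (mem_cons (W23181 D T h) (mem_cons (W9025 D T h) (mem_cons (W23139 D T h) (mem_cons (W2050 D T h) (mem_cons (W22196 D T h) (mem_cons (W2051 D T h) (mem_cons (W23180 D T h) (mem_cons (W13801 D T h) (mem_cons (W9660 D T h) (mem_cons (W11384 D T h) (mem_cons (W16 D T h) (mem_cons (W23154 D T h) (mem_cons (W23156 D T h) (mem_cons (W23121 D T h) (mem_cons (W23048 D T h) (mem_cons (W17786 D T h) (mem_cons (W22351 D T h) (mem_cons (W10822 D T h) (mem_cons (W22335 D T h) (mem_cons (W12634 D T h) (mem_cons (W8153 D T h) (mem_cons (W23169 D T h) (mem_cons (W15884 D T h) (mem_cons (W15883 D T h) (mem_cons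 (W284 D T h) (mem_cons (W9412 D T h) (mem_cons (W9411 D T h) (mem_cons (W23140 D T h) (mem_cons (W18058 D T h) (mem_cons (W23145 D T h) (mem_cons (W23146 D T h) (mem_cons (W17032 D T h) mem_nil)))))))))))))))))))))))))))))))))))) cl5178
theorem W23182 : WFK w23182 := fun D T h => wf_of_chk h mem_nil (mem_cons (L5178 D T h) mem_nil) cw23182
theorem L5187 : LFK l5187 := fun D T h => lf_of_chk h (mem_cons (W7114 D T h) (mem_cons (W1342 D T h) (mem_cons (W3 D T h) (mem_cons (W39 D T h) (mem_cons (W10076 D T h) (mem_cons (W18098 D T h) (mem_cons (W2766 D T h) (mem_cons (W10125 D T h) (mem_cons (W4 D T h) (mem_cons (W320 D T h) (mem_cons (W330 D T h) (mem_cons (W172 D T h) (mem_cons (W329 D T h) (mem_cons (W328 D T h) (mem_cons (W870 D T h) mem_nil))))))))))))))) cl5187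
theorem W23218 : WFK w23218 := fun D T h => wf_of_chk h mem_nil (mem_cons (L5187 D T h) mem_nil) cw23218
theorem L5189 : LFK l5189 := fun D T h => lf_of_chk h (mem_cons (W86 D T h) (mem_cons (W281 D T h) (mem_cons (W8363 D T h) (mem_cons (W6645 D T h) (mem_cons (W11283 D T h) mem_nil))))) cl5189
theorem W23220 : WFK w23220 := fun D T h => wf_of_chk h mem_nil (mem_cons (L5189 D T h) mem_nil) cw23220
theorem L5199 : LFK l5199 := fun D T h => lf_of_chk h (mem_cons (W86 D T h) (mem_cons (W161 D T h) (mem_cons (W112 D T h) (mem_cons (W3 D T h) (mem_cons (W143 D T h) (mem_cons (W740 D T h) (mem_cons (W78 D T h) (mem_cons (W33 D T h) (mem_cons (W142 D T h) mem_nil))))))))) cl5199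
theorem W23249 : WFK w23249 := fun D T h => wf_of_chk h mem_nil (mem_cons (L5199 D T h) mem_nil) cw23249
theorem W23264 : WFK w23264 := fun D T h => wf_of_chk h (mem_cons (W6613 D T h) mem_nil) mem_nil cw23264
theorem W23267 : WFK w23267 := fun D T h => wf_of_chk h (mem_cons (W6613 D T h) mem_nil) mem_nil cw23267
theorem W23280 : WFK w23280 := fun D T h => wf_of_chk h mem_nil (mem_cons (L110 D T h) mem_nil) cw23280
theorem L5210 : LFK l5210 := fun D T h => lf_of_chk h (mem_cons (W4555 D T h) mem_nil) cl5210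
theorem W23281 : WFK w23281 := fun D T h => wf_of_chk h mem_nil (mem_cons (L5210 D T h) mem_nil) cw23281
theorem L5211 : LFK l5211 := fun D T h => lf_of_chk h (mem_cons (W15784 D T h) (mem_cons (W7114 D T h) (mem_cons (W15 D T h) (mem_cons (W15786 D T h) (mem_cons (W16972 D T h) (mem_cons (W16604 D T h) (mem_cons (W23280 D T h) (mem_cons (W23281 D T h) (mem_cons (W11384 D T h) (mem_cons (W2548 D T h) (mem_cons (W12280 D T h) (mem_cons (W42 D T h) (mem_cons (W164 D T h) (mem_cons (W12634 D T h) mem_nil)))))))))))))) cl5211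
theorem L5213 : LFK l5213 := fun D T h => lf_of_chk h (mem_cons (W15784 D T h) (mem_cons (W16972 D T h) (mem_cons (W15 D T h) (mem_cons (W15786 D T h) (mem_cons (W351 D T h) (mem_cons (W200 D T h) (mem_cons (W2304 D T h) (mem_cons (W2303 D T h) (mem_cons (W164 D T h) (mem_cons (W42 D T h) (mem_cons (W7924 D T h) (mem_cons (W5469 D T h) (mem_cons (W16604 D T h) mem_nil))))))))))))) cl5213
theorem W23305 : WFK w23305 := fun D T h => wf_of_chk h mem_nil (mem_cons (L5013 D T h) mem_nil) cw23305
theorem W23316 : WFK w23316 := fun D T h => wf_of_chk h (mem_cons (W8609 D T h) mem_nil) mem_nil cw23316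
theorem W23317 : WFK w23317 := fun D T h => wf_of_chk h mem_nil (mem_cons (L3227 D T h) mem_nil) cw23317
theorem W23318 : WFK w23318 := fun D T h => wf_of_chk h mem_nil (mem_cons (L4288 D T h) mem_nil) cw23318
theorem W23319 : WFK w23319 := fun D T h => wf_of_chk h mem_nil (mem_cons (L5170 D T h) mem_nil) cw23319
theorem W23321 : WFK w23321 := fun D T h => wf_of_chk h (mem_cons (W10 D T h) (mem_cons (W5841 D T h) mem_nil)) mem_nil cw23321
theorem W23322 : WFK w23322 := fun D T h => wf_of_chk h (mem_cons (W1 D T h) (mem_cons (W5841 D T h) mem_nil)) mem_nil cw23322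
theorem W23343 : WFK w23343 := fun D T h => wf_of_chk h (mem_cons (W6714 D T h) mem_nil) mem_nil cw23343
theorem L5237 : LFK l5237 := fun D T h => lf_of_chk h (mem_cons (W15784 D T h) (mem_cons (W6714 D T h) (mem_cons (W220 D T h) (mem_cons (W83 D T h) (mem_cons (W16604 D T h) (mem_cons (W16972 D T h) (mem_cons (W15786 D T h) (mem_cons (W201 D T h) (mem_cons (W199 D T h) (mem_cons (W1449 D T h) mem_nil)))))))))) cl5237
theorem W23368 : WFK w23368 := fun D T h => wf_of_chk h mem_nil (mem_cons (L5237 D T h) mem_nil) cw23368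
theorem W23374 : WFK w23374 := fun D T h => wf_of_chk h (mem_cons (W10 D T h) (mem_cons (W5633 D T h) mem_nil)) mem_nil cw23374
theorem W23376 : WFK w23376 := fun D T h => wf_of_chk h (mem_cons (W1 D T h) (mem_cons (W5605 D T h) mem_nil)) mem_nil cw23376
theorem L5240 : LFK l5240 := fun D T h => lf_of_chk h (mem_cons (W2766 D T h) (mem_cons (W4 D T h) (mem_cons (W315 D T h) (mem_cons (W8695 D T h) (mem_cons (W11153 D T h) (mem_cons (W3135 D T h) mem_nil)))))) cl5240
theorem W23380 : WFK w23380 := fun D T h => wf_of_chk h mem_nil (mem_cons (L5240 D T h) mem_nil) cw23380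
theorem W23387 : WFK w23387 := fun D T h => wf_of_chk h mem_nil (mem_cons (L3231 D T h) mem_nil) cw23387
theorem W23388 : WFK w23388 := fun D T h => wf_of_chk h mem_nil (mem_cons (L3178 D T h) mem_nil) cw23388
theorem W23389 : WFK w23389 := fun D T h => wf_of_chk h mem_nil (mem_cons (L3178 D T h) mem_nil) cw23389
theorem W23390 : WFK w23390 := fun D T h => wf_of_chk h mem_nil (mem_cons (L3178 D T h) mem_nil) cw23390
theorem W23407 : WFK w23407 := fun D T h => wf_of_chk h mem_nil (mem_cons (L82 D T h) mem_nil) cw23407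
theorem W23420 : WFK w23420 := fun D T h => wf_of_chk h mem_nil (mem_cons (L194 D T h) mem_nil) cw23420
theorem W23435 : WFK w23435 := fun D T h => wf_of_chk h mem_nil (mem_cons (L4288 D T h) mem_nil) cw23435
theorem W23436 : WFK w23436 := fun D T h => wf_of_chk h mem_nil (mem_cons (L4288 D T h) mem_nil) cw23436
theorem W23437 : WFK w23437 := fun D T h => wf_of_chk h mem_nil (mem_cons (L4288 D T h) mem_nil) cw23437
theorem L5261 : LFK l5261 := fun D T h => lf_of_chk h (mem_cons (W7114 D T h) (mem_cons (W3393 D T h) (mem_cons (W1718 D T h) (mem_cons (W39 D T h) (mem_cons (W3593 D T h) (mem_cons (W17584 D T h) (mem_cons (W151 D T h) (mem_cons (W2766 D T h) (mem_cons (W198 D T h) (mem_cons (W428 D T h) (mem_cons (W976 D T h) (mem_cons (W1099 D T h) (mem_cons (W4765 D T h) (mem_cons (W20340 D T h) (mem_cons (W888 D T h) mem_nil))))))))))))))) cl5261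
theorem W23440 : WFK w23440 := fun D T h => wf_of_chk h mem_nil (mem_cons (L5261 D T h) mem_nil) cw23440
theorem W23441 : WFK w23441 := fun D T h => wf_of_chk h mem_nil (mem_cons (L1315 D T h) mem_nil) cw23441
theorem L5262 : LFK l5262 := fun D T h => lf_of_chk h (mem_cons (W7114 D T h) (mem_cons (W1342 D T h) (mem_cons (W1343 D T h) (mem_cons (W39 D T h) (mem_cons (W3593 D T h) (mem_cons (W17584 D T h) (mem_cons (W151 D T h) (mem_cons (W2766 D T h) (mem_cons (W198 D T h) (mem_cons (W428 D T h) (mem_cons (W976 D T h) (mem_cons (W1099 D T h) (mem_cons (W888 D T h) (mem_cons (W23441 D T h) (mem_cons (W4765 D T h) mem_nil))))))))))))))) cl5262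
theorem W23442 : WFK w23442 := fun D T h => wf_of_chk h mem_nil (mem_cons (L5262 D T h) mem_nil) cw23442
theorem L5263 : LFK l5263 := fun D T h => lf_of_chk h (mem_cons (W10 D T h) mem_nil) cl5263
theorem W23443 : WFK w23443 := fun D T h => wf_of_chk h mem_nil (mem_cons (L5263 D T h) mem_nil) cw23443
theorem W23444 : WFK w23444 := fun D T h => wf_of_chk h (mem_cons (W10 D T h) mem_nil) mem_nil cw23444
theorem L5264 : LFK l5264 := fun D T h => lf_of_chk h (mem_cons (W5841 D T h) (mem_cons (W8633 D T h) (mem_cons (W86 D T h) (mem_cons (W39 D T h) (mem_cons (W10 D T h) (mem_cons (W603 D T h) (mem_cons (W23443 D T h) (mem_cons (W23444 D T h) (mem_cons (W10246 D T h) (mem_cons (W2766 D T h) (mem_cons (W3312 D T h) (mem_cons (W1554 D T h) (mem_cons (W1325 D T h) (mem_cons (W13890 D T h) (mem_cons (W3314 D T h) mem_nil))))))))))))))) cl5264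
theorem W23445 : WFK w23445 := fun D T h => wf_of_chk h mem_nil (mem_cons (L5264 D T h) mem_nil) cw23445
theorem W23446 : WFK w23446 := fun D T h => wf_of_chk h mem_nil (mem_cons (L5264 D T h) mem_nil) cw23446
theorem W23447 : WFK w23447 := fun D T h => wf_of_chk h (mem_cons (W267 D T h) (mem_cons (W10 D T h) mem_nil)) mem_nil cw23447
theorem W23448 : WFK w23448 := fun D T h => wf_of_chk h (mem_cons (W42 D T h) (mem_cons (W10 D T h) mem_nil)) mem_nil cw23448
theorem W23449 : WFK w23449 := fun D T h => wf_of_chk h mem_nil (mem_cons (L5264 D T h) mem_nil) cw23449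
theorem W23450 : WFK w23450 := fun D T h => wf_of_chk h (mem_cons (W1095 D T h) (mem_cons (W16 D T h) mem_nil)) mem_nil cw23450
theorem W23451 : WFK w23451 := fun D T h => wf_of_chk h (mem_cons (W7114 D T h) (mem_cons (W10 D T h) mem_nil)) mem_nil cw23451
theorem W23452 : WFK w23452 := fun D T h => wf_of_chk h (mem_cons (W6719 D T h) (mem_cons (W10 D T h) mem_nil)) mem_nil cw23452
theorem W23453 : WFK w23453 := fun D T h => wf_of_chk h (mem_cons (W1371 D T h) (mem_cons (W10 D T h) mem_nil)) mem_nil cw23453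
theorem W23454 : WFK w23454 := fun D T h => wf_of_chk h (mem_cons (W23453 D T h) (mem_cons (W16 D T h) mem_nil)) mem_nil cw23454
theorem L5265 : LFK l5265 := fun D T h => lf_of_chk h (mem_cons (W23374 D T h) (mem_cons (W11192 D T h) (mem_cons (W7114 D T h) (mem_cons (W10 D T h) (mem_cons (W10167 D T h) (mem_cons (W23448 D T h) (mem_cons (W9025 D T h) (mem_cons (W23449 D T h) (mem_cons (W23446 D T h) (mem_cons (W22196 D T h) (mem_cons (W23368 D T h) (mem_cons (W13801 D T h) (mem_cons (W17300 D T h) (mem_cons (W11384 D T h) (mem_cons (W16 D T h) (mem_cons (W23445 D T h) (mem_cons (W23321 D T h) (mem_cons (W23048 D T h) (mem_cons (W23451 D T h) (mem_cons (W22351 D T h) (mem_cons (W2934 D T h) (mem_cons (W22335 D T h) (mem_cons (W12634 D T h) (mem_cons (W8153 D T h) (mem_cons (W23447 D T h) (mem_cons (W15884 D T h) (mem_cons (W15883 D T h) (mem_cons (W284 D T h) (mem_cons (W9412 D T h) (mem_cons (W9411 D T h) (mem_cons (W23450 D T h) (mem_cons (W9056 D T h) (mem_cons (W23452 D T h) (mem_cons (W23146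 D T h) (mem_cons (W22084 D T h) (mem_cons (W23143 D T h) (mem_cons (W23149 D T h) (mem_cons (W23454 D T h) mem_nil)))))))))))))))))))))))))))))))))))))) cl5265
theorem W23455 : WFK w23455 := fun D T h => wf_of_chk h mem_nil (mem_cons (L5265 D T h) mem_nil) cw23455
theorem W23456 : WFK w23456 := fun D T h => wf_of_chk h mem_nil (mem_cons (L341 D T h) mem_nil) cw23456
theorem W23467 : WFK w23467 := fun D T h => wf_of_chk h (mem_cons (W42 D T h) mem_nil) mem_nil cw23467
theorem W23468 : WFK w23468 := fun D T h => wf_of_chk h (mem_cons (W7408 D T h) (mem_cons (W16 D T h) mem_nil)) mem_nil cw23468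
theorem W23470 : WFK w23470 := fun D T h => wf_of_chk h (mem_cons (W603 D T h) (mem_cons (W16 D T h) mem_nil)) mem_nil cw23470
theorem W23472 : WFK w23472 := fun D T h => wf_of_chk h (mem_cons (W1075 D T h) (mem_cons (W42 D T h) mem_nil)) mem_nil cw23472
theorem W23475 : WFK w23475 := fun D T h => wf_of_chk h (mem_cons (W959 D T h) mem_nil) mem_nil cw23475
theorem W23491 : WFK w23491 := fun D T h => wf_of_chk h mem_nil (mem_cons (L140 D T h) mem_nil) cw23491
theorem W23493 : WFK w23493 := fun D T h => wf_of_chk h mem_nil (mem_cons (L2915 D T h) mem_nil) cw23493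
theorem L5273 : LFK l5273 := fun D T h => lf_of_chk h (mem_cons (W1101 D T h) (mem_cons (W161 D T h) (mem_cons (W23491 D T h) (mem_cons (W23493 D T h) mem_nil)))) cl5273
theorem W23494 : WFK w23494 := fun D T h => wf_of_chk h mem_nil (mem_cons (L5273 D T h) mem_nil) cw23494
theorem L5274 : LFK l5274 := fun D T h => lf_of_chk h (mem_cons (W8695 D T h) (mem_cons (W860 D T h) mem_nil)) cl5274
theorem W23495 : WFK w23495 := fun D T h => wf_of_chk h mem_nil (mem_cons (L5274 D T h) mem_nil) cw23495
theorem L5275 : LFK l5275 := fun D T h => lf_of_chk h (mem_cons (W41 D T h) (mem_cons (W22463 D T h) (mem_cons (W161 D T h) (mem_cons (W3 D T h) (mem_cons (W154 D T h) (mem_cons (W6352 D T h) (mem_cons (W3205 D T h) (mem_cons (W23491 D T h) (mem_cons (W860 D T h) (mem_cons (W17411 D T h) mem_nil)))))))))) cl5275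
theorem W23496 : WFK w23496 := fun D T h => wf_of_chk h mem_nil (mem_cons (L5275 D T h) mem_nil) cw23496
theorem W23497 : WFK w23497 := fun D T h => wf_of_chk h (mem_cons (W105 D T h) (mem_cons (W161 D T h) mem_nil)) mem_nil cw23497
theorem W23498 : WFK w23498 := fun D T h => wf_of_chk h (mem_cons (W80 D T h) (mem_cons (W161 D T h) mem_nil)) mem_nil cw23498
theorem W23499 : WFK w23499 := fun D T h => wf_of_chk h (mem_cons (W69 D T h) (mem_cons (W161 D T h) mem_nil)) mem_nil cw23499
theorem W23500 : WFK w23500 := fun D T h => wf_of_chk h mem_nil (mem_cons (L3837 D T h) mem_nil) cw23500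
theorem L5276 : LFK l5276 := fun D T h => lf_of_chk h (mem_cons (W7212 D T h) (mem_cons (W2797 D T h) (mem_cons (W1 D T h) (mem_cons (W161 D T h) (mem_cons (W69 D T h) (mem_cons (W281 D T h) (mem_cons (W23494 D T h) (mem_cons (W23495 D T h) (mem_cons (W390 D T h) (mem_cons (W13889 D T h) (mem_cons (W18348 D T h) (mem_cons (W17413 D T h) (mem_cons (W14204 D T h) (mem_cons (W17178 D T h) (mem_cons (W23500 D T h) (mem_cons (W1566 D T h) (mem_cons (W23496 D T h) (mem_cons (W23497 D T h) (mem_cons (W23498 D T h) (mem_cons (W23499 D T h) mem_nil)))))))))))))))))))) cl5276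
theorem W23501 : WFK w23501 := fun D T h => wf_of_chk h mem_nil (mem_cons (L5276 D T h) mem_nil) cw23501
theorem L5277 : LFK l5277 := fun D T h => lf_of_chk h (mem_cons (W5841 D T h) (mem_cons (W3 D T h) (mem_cons (W1919 D T h) (mem_cons (W39 D T h) (mem_cons (W1 D T h) (mem_cons (W22463 D T h) (mem_cons (W1378 D T h) (mem_cons (W11224 D T h) (mem_cons (W8989 D T h) (mem_cons (W577 D T h) (mem_cons (W1379 D T h) (mem_cons (W3312 D T h) (mem_cons (W1554 D T h) (mem_cons (W1325 D T h) (mem_cons (W1556 D T h) (mem_cons (W6793 D T h) (mem_cons (W5482 D T h) (mem_cons (W18716 D T h) mem_nil)))))))))))))))))) cl5277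
theorem W23502 : WFK w23502 := fun D T h => wf_of_chk h mem_nil (mem_cons (L5277 D T h) mem_nil) cw23502
theorem W23503 : WFK w23503 := fun D T h => wf_of_chk h mem_nil (mem_cons (L5277 D T h) mem_nil) cw23503
theorem W23504 : WFK w23504 := fun D T h => wf_of_chk h (mem_cons (W267 D T h) (mem_cons (W1 D T h) mem_nil)) mem_nil cw23504
theorem W23505 : WFK w23505 := fun D T h => wf_of_chk h (mem_cons (W42 D T h) (mem_cons (W1 D T h) mem_nil)) mem_nil cw23505
theorem W23506 : WFK w23506 := fun D T h => wf_of_chk h mem_nil (mem_cons (L5277 D T h) mem_nil) cw23506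
theorem W23507 : WFK w23507 := fun D T h => wf_of_chk h (mem_cons (W501 D T h) (mem_cons (W16 D T h) mem_nil)) mem_nil cw23507
theorem W23508 : WFK w23508 := fun D T h => wf_of_chk h (mem_cons (W7114 D T h) (mem_cons (W1 D T h) mem_nil)) mem_nil cw23508
theorem W23509 : WFK w23509 := fun D T h => wf_of_chk h (mem_cons (W16464 D T h) (mem_cons (W16 D T h) mem_nil)) mem_nil cw23509
theorem W23510 : WFK w23510 := fun D T h => wf_of_chk h (mem_cons (W220 D T h) (mem_cons (W1 D T h) mem_nil)) mem_nil cw23510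
theorem W23511 : WFK w23511 := fun D T h => wf_of_chk h (mem_cons (W23510 D T h) (mem_cons (W16 D T h) mem_nil)) mem_nil cw23511
theorem W23512 : WFK w23512 := fun D T h => wf_of_chk h (mem_cons (W10715 D T h) (mem_cons (W1 D T h) mem_nil)) mem_nil cw23512
theorem W23513 : WFK w23513 := fun D T h => wf_of_chk h (mem_cons (W23512 D T h) (mem_cons (W16 D T h) mem_nil)) mem_nil cw23513
theorem W23514 : WFK w23514 := fun D T h => wf_of_chk h (mem_cons (W1371 D T h) (mem_cons (W1 D T h) mem_nil)) mem_nil cw23514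
theorem W23515 : WFK w23515 := fun D T h => wf_of_chk h (mem_cons (W23514 D T h) (mem_cons (W16 D T h) mem_nil)) mem_nil cw23515
theorem L5278 : LFK l5278 := fun D T h => lf_of_chk h (mem_cons (W11192 D T h) (mem_cons (W7114 D T h) (mem_cons (W1 D T h) (mem_cons (W16464 D T h) (mem_cons (W23505 D T h) (mem_cons (W9025 D T h) (mem_cons (W23506 D T h) (mem_cons (W23503 D T h) (mem_cons (W22196 D T h) (mem_cons (W23368 D T h) (mem_cons (W23509 D T h) (mem_cons (W13801 D T h) (mem_cons (W17300 D T h) (mem_cons (W11384 D T h) (mem_cons (W16 D T h) (mem_cons (W23502 D T h) (mem_cons (W23322 D T h) (mem_cons (W23048 D T h) (mem_cons (W23508 D T h) (mem_cons (W23376 D T h) (mem_cons (W12634 D T h) (mem_cons (W8153 D T h) (mem_cons (W23504 D T h) (mem_cons (W15884 D T h) (mem_cons (W15883 D T h) (mem_cons (W284 D T h) (mem_cons (W9412 D T h) (mem_cons (W9411 D T h) (mem_cons (W23507 D T h) (mem_cons (W9056 D T h) (mem_cons (W23511 D T h) (mem_cons (W23146 D T h) (mem_cons (W22084 D T h) (mem_cons (W23143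 D T h) (mem_cons (W23149 D T h) (mem_cons (W23513 D T h) (mem_cons (W23515 D T h) mem_nil))))))))))))))))))))))))))))))))))))) cl5278
theorem W23516 : WFK w23516 := fun D T h => wf_of_chk h mem_nil (mem_cons (L5278 D T h) mem_nil) cw23516
theorem W23517 : WFK w23517 := fun D T h => wf_of_chk h mem_nil (mem_cons (L1470 D T h) mem_nil) cw23517
theorem L5279 : LFK l5279 := fun D T h => lf_of_chk h (mem_cons (W860 D T h) (mem_cons (W6 D T h) (mem_cons (W731 D T h) (mem_cons (W11 D T h) (mem_cons (W1091 D T h) (mem_cons (W842 D T h) (mem_cons (W1944 D T h) (mem_cons (W861 D T h) (mem_cons (W137 D T h) mem_nil))))))))) cl5279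
theorem W23518 : WFK w23518 := fun D T h => wf_of_chk h mem_nil (mem_cons (L5279 D T h) mem_nil) cw23518
theorem L5280 : LFK l5280 := fun D T h => lf_of_chk h (mem_cons (W9025 D T h) (mem_cons (W42 D T h) (mem_cons (W16 D T h) (mem_cons (W5841 D T h) (mem_cons (W7114 D T h) (mem_cons (W16755 D T h) (mem_cons (W5633 D T h) (mem_cons (W18664 D T h) (mem_cons (W15 D T h) (mem_cons (W23518 D T h) (mem_cons (W5585 D T h) (mem_cons (W5655 D T h) (mem_cons (W5673 D T h) (mem_cons (W3766 D T h) (mem_cons (W799 D T h) (mem_cons (W9056 D T h) mem_nil)))))))))))))))) cl5280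
theorem W23519 : WFK w23519 := fun D T h => wf_of_chk h mem_nil (mem_cons (L5280 D T h) mem_nil) cw23519
theorem W23520 : WFK w23520 := fun D T h => wf_of_chk h mem_nil (mem_cons (L4912 D T h) mem_nil) cw23520
theorem L5281 : LFK l5281 := fun D T h => lf_of_chk h (mem_cons (W15786 D T h) (mem_cons (W18330 D T h) (mem_cons (W69 D T h) (mem_cons (W15760 D T h) (mem_cons (W158 D T h) (mem_cons (W17153 D T h) (mem_cons (W6006 D T h) (mem_cons (W18331 D T h) (mem_cons (W11224 D T h) (mem_cons (W22956 D T h) mem_nil)))))))))) cl5281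
theorem W23521 : WFK w23521 := fun D T h => wf_of_chk h mem_nil (mem_cons (L5281 D T h) mem_nil) cw23521
theorem L5282 : LFK l5282 := fun D T h => lf_of_chk h (mem_cons (W16972 D T h) (mem_cons (W69 D T h) (mem_cons (W2445 D T h) (mem_cons (W651 D T h) (mem_cons (W652 D T h) mem_nil))))) cl5282
theorem W23522 : WFK w23522 := fun D T h => wf_of_chk h mem_nil (mem_cons (L5282 D T h) mem_nil) cw23522
theorem W23523 : WFK w23523 := fun D T h => wf_of_chk h mem_nil (mem_cons (L5281 D T h) mem_nil) cw23523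
theorem W23524 : WFK w23524 := fun D T h => wf_of_chk h mem_nil (mem_cons (L4912 D T h) mem_nil) cw23524
theorem W23525 : WFK w23525 := fun D T h => wf_of_chk h mem_nil (mem_cons (L1234 D T h) mem_nil) cw23525
theorem W23526 : WFK w23526 := fun D T h => wf_of_chk h (mem_cons (W1528 D T h) (mem_cons (W158 D T h) mem_nil)) mem_nil cw23526
theorem W23527 : WFK w23527 := fun D T h => wf_of_chk h mem_nil (mem_cons (L3530 D T h) mem_nil) cw23527
theorem L5283 : LFK l5283 := fun D T h => lf_of_chk h (mem_cons (W23520 D T h) (mem_cons (W871 D T h) (mem_cons (W2732 D T h) (mem_cons (W15786 D T h) (mem_cons (W164 D T h) (mem_cons (W158 D T h) (mem_cons (W141 D T h) (mem_cons (W16 D T h) (mem_cons (W18330 D T h) (mem_cons (W6714 D T h) (mem_cons (W5841 D T h) (mem_cons (W23521 D T h) (mem_cons (W23524 D T h) (mem_cons (W23522 D T h) (mem_cons (W16178 D T h) (mem_cons (W15825 D T h) (mem_cons (W1139 D T h) (mem_cons (W6776 D T h) (mem_cons (W23523 D T h) (mem_cons (W6572 D T h) (mem_cons (W114 D T h) (mem_cons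 (W2515 D T h) (mem_cons (W3766 D T h) (mem_cons (W21556 D T h) (mem_cons (W17121 D T h) (mem_cons (W9412 D T h) (mem_cons (W21558 D T h) (mem_cons (W23525 D T h) (mem_cons (W23526 D T h) (mem_cons (W391 D T h) (mem_cons (W970 D T h) (mem_cons (W10759 D T h) (mem_cons (W23470 D T h) (mem_cons (W22683 D T h) (mem_cons (W140 D T h) (mem_cons (W23472 D T h) (mem_cons (W9206 D T h) (mem_cons (W23010 D T h) (mem_cons (W23527 D T h) (mem_cons (W23467 D T h) (mem_cons (W23468 D T h) (mem_cons (W2921 D T h) (mem_cons (W16414 D T h) (mem_cons (W7338 D T h) (mem_cons (W23475 D T h) mem_nil))))))))))))))))))))))))))))))))))))))))))))) cl5283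
theorem W23528 : WFK w23528 := fun D T h => wf_of_chk h mem_nil (mem_cons (L5283 D T h) mem_nil) cw23528
theorem W23529 : WFK w23529 := fun D T h => wf_of_chk h (mem_cons (W158 D T h) mem_nil) mem_nil cw23529
theorem L5284 : LFK l5284 := fun D T h => lf_of_chk h (mem_cons (W10620 D T h) (mem_cons (W141 D T h) (mem_cons (W158 D T h) (mem_cons (W3 D T h) (mem_cons (W15 D T h) (mem_cons (W2922 D T h) (mem_cons (W6352 D T h) (mem_cons (W857 D T h) (mem_cons (W1297 D T h) (mem_cons (W830 D T h) (mem_cons (W860 D T h) (mem_cons (W10992 D T h) mem_nil)))))))))))) cl5284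
theorem W23530 : WFK w23530 := fun D T h => wf_of_chk h mem_nil (mem_cons (L5284 D T h) mem_nil) cw23530
theorem L5285 : LFK l5285 := fun D T h => lf_of_chk h (mem_cons (W10620 D T h) (mem_cons (W141 D T h) (mem_cons (W158 D T h) (mem_cons (W3 D T h) (mem_cons (W15 D T h) (mem_cons (W2922 D T h) (mem_cons (W6352 D T h) (mem_cons (W857 D T h) (mem_cons (W262 D T h) (mem_cons (W830 D T h) (mem_cons (W860 D T h) (mem_cons (W10992 D T h) mem_nil)))))))))))) cl5285
theorem W23531 : WFK w23531 := fun D T h => wf_of_chk h mem_nil (mem_cons (L5285 D T h) mem_nil) cw23531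
theorem W23532 : WFK w23532 := fun D T h => wf_of_chk h (mem_cons (W1299 D T h) (mem_cons (W158 D T h) mem_nil)) mem_nil cw23532
theorem W23533 : WFK w23533 := fun D T h => wf_of_chk h mem_nil (mem_cons (L188 D T h) mem_nil) cw23533
theorem W23534 : WFK w23534 := fun D T h => wf_of_chk h mem_nil (mem_cons (L1546 D T h) mem_nil) cw23534
theorem W23535 : WFK w23535 := fun D T h => wf_of_chk h mem_nil (mem_cons (L4125 D T h) mem_nil) cw23535
theorem W23536 : WFK w23536 := fun D T h => wf_of_chk h mem_nil (mem_cons (L3285 D T h) mem_nil) cw23536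
theorem W23537 : WFK w23537 := fun D T h => wf_of_chk h mem_nil (mem_cons (L4912 D T h) mem_nil) cw23537
theorem W23538 : WFK w23538 := fun D T h => wf_of_chk h mem_nil (mem_cons (L4912 D T h) mem_nil) cw23538
theorem W23539 : WFK w23539 := fun D T h => wf_of_chk h mem_nil (mem_cons (L4912 D T h) mem_nil) cw23539
theorem W23540 : WFK w23540 := fun D T h => wf_of_chk h (mem_cons (W22 D T h) (mem_cons (W16 D T h) mem_nil)) mem_nil cw23540
theorem L5286 : LFK l5286 := fun D T h => lf_of_chk h (mem_cons (W23517 D T h) (mem_cons (W15784 D T h) (mem_cons (W16 D T h) (mem_cons (W158 D T h) (mem_cons (W219 D T h) (mem_cons (W23519 D T h) (mem_cons (W23528 D T h) (mem_cons (W23529 D T h) (mem_cons (W1566 D T h) (mem_cons (W50 D T h) (mem_cons (W23530 D T h) (mem_cons (W23531 D T h) (mem_cons (W23532 D T h) (mem_cons (W5841 D T h) (mem_cons (W6140 D T h) (mem_cons (W23533 D T h) (mem_cons (W15527 D T h) (mem_cons (W23534 D T h) (mem_cons (W23535 D T h) (mem_cons (W23536 D T h) (mem_cons (W21280 D T h)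 (mem_cons (W2050 D T h) (mem_cons (W23537 D T h) (mem_cons (W23538 D T h) (mem_cons (W23539 D T h) (mem_cons (W1408 D T h) (mem_cons (W19049 D T h) (mem_cons (W23540 D T h) (mem_cons (W1919 D T h) (mem_cons (W23456 D T h) (mem_cons (W1690 D T h) (mem_cons (W12702 D T h) (mem_cons (W181 D T h) mem_nil))))))))))))))))))))))))))))))))) cl5286
theorem W23541 : WFK w23541 := fun D T h => wf_of_chk h mem_nil (mem_cons (L5286 D T h) mem_nil) cw23541
theorem W23542 : WFK w23542 := fun D T h => wf_of_chk h mem_nil (mem_cons (L3684 D T h) mem_nil) cw23542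
theorem L5287 : LFK l5287 := fun D T h => lf_of_chk h (mem_cons (W23526 D T h) (mem_cons (W871 D T h) (mem_cons (W16972 D T h) (mem_cons (W1203 D T h) (mem_cons (W164 D T h) (mem_cons (W158 D T h) (mem_cons (W16 D T h) (mem_cons (W18330 D T h) (mem_cons (W18331 D T h) (mem_cons (W5447 D T h) (mem_cons (W23521 D T h) (mem_cons (W6714 D T h) (mem_cons (W23524 D T h) (mem_cons (W23520 D T h) (mem_cons (W23522 D T h) (mem_cons (W22956 D T h) (mem_cons (W16178 D T h) (mem_cons (W15825 D T h) (mem_cons (W1139 D T h) (mem_cons (W6776 D T h) (mem_cons (W6572 D T h) (mem_cons (W114 D T h) (mem_cons (W2515 D T h) (mem_cons (W3766 D T h) (mem_cons (W391 D T h) (mem_cons (W970 D T h) (mem_cons (W10759 D T h) (mem_cons (W23470 D T h) (mem_cons (W22683 D T h) (mem_cons (W140 D T h) (mem_cons (W23472 D T h) (mem_cons (W9206 D T h) (mem_cons (W23010 D T h) (mem_cons (W23527 D T h) (mem_cons (W23467 D T h) (mem_cons (W23468 D T h) (mem_cons (W2921 D T h) (mem_cons (W16414 D T h) (mem_cons (W7338 D T h) (mem_cons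 (W23475 D T h) (mem_cons (W23542 D T h) mem_nil))))))))))))))))))))))))))))))))))))))))) cl5287
theorem W23543 : WFK w23543 := fun D T h => wf_of_chk h mem_nil (mem_cons (L5287 D T h) mem_nil) cw23543
theorem W23544 : WFK w23544 := fun D T h => wf_of_chk h (mem_cons (W831 D T h) (mem_cons (W16 D T h) mem_nil)) mem_nil cw23544
theorem L5288 : LFK l5288 := fun D T h => lf_of_chk h (mem_cons (W23517 D T h) (mem_cons (W15784 D T h) (mem_cons (W16 D T h) (mem_cons (W158 D T h) (mem_cons (W219 D T h) (mem_cons (W23519 D T h) (mem_cons (W23543 D T h) (mem_cons (W23529 D T h) (mem_cons (W1566 D T h) (mem_cons (W50 D T h) (mem_cons (W23530 D T h) (mem_cons (W23531 D T h) (mem_cons (W23532 D T h) (mem_cons (W5841 D T h) (mem_cons (W6140 D T h) (mem_cons (W23533 D T h) (mem_cons (W15527 D T h) (mem_cons (W23538 D T h) (mem_cons (W23539 D T h) (mem_cons (W23537 D T h) (mem_cons (W1408 D T h) (mem_cons (W19049 D T h) (mem_cons (W23544 D T h) (mem_cons (W1919 D T h) (mem_cons (W23456 D T h) (mem_cons (W1690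 D T h) (mem_cons (W16183 D T h) (mem_cons (W21465 D T h) (mem_cons (W181 D T h) mem_nil))))))))))))))))))))))))))))) cl5288
theorem W23545 : WFK w23545 := fun D T h => wf_of_chk h mem_nil (mem_cons (L5288 D T h) mem_nil) cw23545
theorem L5293 : LFK l5293 := fun D T h => lf_of_chk h (mem_cons (W830 D T h) (mem_cons (W91 D T h) (mem_cons (W8 D T h) (mem_cons (W198 D T h) (mem_cons (W808 D T h) (mem_cons (W2471 D T h) (mem_cons (W218 D T h) (mem_cons (W1101 D T h) mem_nil)))))))) cl5293
theorem W23571 : WFK w23571 := fun D T h => wf_of_chk h mem_nil (mem_cons (L5293 D T h) mem_nil) cw23571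
theorem L5294 : LFK l5294 := fun D T h => lf_of_chk h (mem_cons (W10620 D T h) (mem_cons (W141 D T h) (mem_cons (W91 D T h) (mem_cons (W15 D T h) (mem_cons (W2922 D T h) (mem_cons (W3 D T h) (mem_cons (W6352 D T h) (mem_cons (W857 D T h) (mem_cons (W41 D T h) (mem_cons (W830 D T h) (mem_cons (W860 D T h) mem_nil))))))))))) cl5294
theorem W23572 : WFK w23572 := fun D T h => wf_of_chk h mem_nil (mem_cons (L5294 D T h) mem_nil) cw23572
theorem W23573 : WFK w23573 := fun D T h => wf_of_chk h (mem_cons (W105 D T h) (mem_cons (W91 D T h) mem_nil)) mem_nil cw23573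
theorem W23574 : WFK w23574 := fun D T h => wf_of_chk h (mem_cons (W80 D T h) (mem_cons (W91 D T h) mem_nil)) mem_nil cw23574
theorem W23575 : WFK w23575 := fun D T h => wf_of_chk h (mem_cons (W69 D T h) (mem_cons (W91 D T h) mem_nil)) mem_nil cw23575
theorem W23576 : WFK w23576 := fun D T h => wf_of_chk h mem_nil (mem_cons (L2396 D T h) mem_nil) cw23576
theorem W23577 : WFK w23577 := fun D T h => wf_of_chk h mem_nil (mem_cons (L1695 D T h) mem_nil) cw23577
theorem L5295 : LFK l5295 := fun D T h => lf_of_chk h (mem_cons (W7212 D T h) (mem_cons (W219 D T h) (mem_cons (W1 D T h) (mem_cons (W91 D T h) (mem_cons (W69 D T h) (mem_cons (W2766 D T h) (mem_cons (W23571 D T h) (mem_cons (W23495 D T h) (mem_cons (W390 D T h) (mem_cons (W13889 D T h) (mem_cons (W18348 D T h) (mem_cons (W23576 D T h) (mem_cons (W14204 D T h) (mem_cons (W17178 D T h) (mem_cons (W23577 D T h) (mem_cons (W1566 D T h) (mem_cons (W23572 D T h) (mem_cons (W23573 D T h) (mem_cons (W23574 D T h) (mem_cons (W23575 D T h) mem_nil))))))))))))))))))))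 cl5295
theorem W23578 : WFK w23578 := fun D T h => wf_of_chk h mem_nil (mem_cons (L5295 D T h) mem_nil) cw23578
theorem L5296 : LFK l5296 := fun D T h => lf_of_chk h (mem_cons (W5721 D T h) (mem_cons (W15784 D T h) (mem_cons (W7114 D T h) (mem_cons (W1 D T h) (mem_cons (W219 D T h) (mem_cons (W4038 D T h) (mem_cons (W1880 D T h) (mem_cons (W7076 D T h) (mem_cons (W23218 D T h) (mem_cons (W23440 D T h) (mem_cons (W23442 D T h) (mem_cons (W23455 D T h) (mem_cons (W1919 D T h) (mem_cons (W23501 D T h) (mem_cons (W1690 D T h) (mem_cons (W13427 D T h) (mem_cons (W23516 D T h) (mem_cons (W181 D T h) (mem_cons (W23541 D T h) (mem_cons (W8424 D T h) (mem_cons (W7719 D T h) (mem_cons (W23545 D T h) (mem_cons (W23578 D T h) mem_nil))))))))))))))))))))))) cl5296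
theorem W23579 : WFK w23579 := fun D T h => wf_of_chk h mem_nil (mem_cons (L5296 D T h) mem_nil) cw23579
theorem W23580 : WFK w23580 := fun D T h => wf_of_chk h (mem_cons (W1775 D T h) (mem_cons (W710 D T h) mem_nil)) mem_nil cw23580
theorem W23581 : WFK w23581 := fun D T h => wf_of_chk h mem_nil (mem_cons (L526 D T h) mem_nil) cw23581
theorem L5297 : LFK l5297 := fun D T h => lf_of_chk h (mem_cons (W2766 D T h) (mem_cons (W3204 D T h) (mem_cons (W18098 D T h) (mem_cons (W10 D T h) (mem_cons (W831 D T h) (mem_cons (W1101 D T h) mem_nil)))))) cl5297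
theorem W23582 : WFK w23582 := fun D T h => wf_of_chk h mem_nil (mem_cons (L5297 D T h) mem_nil) cw23582
theorem W23583 : WFK w23583 := fun D T h => wf_of_chk h (mem_cons (W69 D T h) (mem_cons (W1616 D T h) mem_nil)) mem_nil cw23583
theorem W23584 : WFK w23584 := fun D T h => wf_of_chk h mem_nil (mem_cons (L5170 D T h) mem_nil) cw23584
theorem L5298 : LFK l5298 := fun D T h => lf_of_chk h (mem_cons (W7114 D T h) (mem_cons (W3035 D T h) (mem_cons (W461 D T h) (mem_cons (W23581 D T h) (mem_cons (W1616 D T h) (mem_cons (W5841 D T h) (mem_cons (W6714 D T h) (mem_cons (W10253 D T h) (mem_cons (W23582 D T h) (mem_cons (W2766 D T h) (mem_cons (W16464 D T h) (mem_cons (W23583 D T h) (mem_cons (W18364 D T h) (mem_cons (W18366 D T h) (mem_cons (W401 D T h) (mem_cons (W2685 D T h) (mem_cons (W6645 D T h) (mem_cons (W23584 D T h) (mem_cons (W23034 D T h) (mem_cons (W6372 D T h) (mem_cons (W23436 D T h) (mem_cons (W9412 D T h) mem_nil)))))))))))))))))))))) cl5298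
theorem W23585 : WFK w23585 := fun D T h => wf_of_chk h mem_nil (mem_cons (L5298 D T h) mem_nil) cw23585
theorem W23586 : WFK w23586 := fun D T h => wf_of_chk h (mem_cons (W143 D T h) (mem_cons (W69 D T h) mem_nil)) mem_nil cw23586
theorem W23587 : WFK w23587 := fun D T h => wf_of_chk h (mem_cons (W143 D T h) (mem_cons (W69 D T h) mem_nil)) mem_nil cw23587
theorem L5299 : LFK l5299 := fun D T h => lf_of_chk h (mem_cons (W15786 D T h) (mem_cons (W1723 D T h) (mem_cons (W15760 D T h) (mem_cons (W1 D T h) (mem_cons (W69 D T h) (mem_cons (W33 D T h) (mem_cons (W17153 D T h) (mem_cons (W23586 D T h) (mem_cons (W23587 D T h) (mem_cons (W1204 D T h) (mem_cons (W1170 D T h) (mem_cons (W20911 D T h) (mem_cons (W23249 D T h) (mem_cons (W20905 D T h) (mem_cons (W114 D T h) (mem_cons (W2855 D T h) mem_nil)))))))))))))))) cl5299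
theorem W23588 : WFK w23588 := fun D T h => wf_of_chk h mem_nil (mem_cons (L5299 D T h) mem_nil) cw23588
theorem W23589 : WFK w23589 := fun D T h => wf_of_chk h (mem_cons (W267 D T h) (mem_cons (W69 D T h) mem_nil)) mem_nil cw23589
theorem W23590 : WFK w23590 := fun D T h => wf_of_chk h (mem_cons (W5633 D T h) (mem_cons (W69 D T h) mem_nil)) mem_nil cw23590
theorem W23591 : WFK w23591 := fun D T h => wf_of_chk h mem_nil (mem_cons (L891 D T h) mem_nil) cw23591
theorem W23592 : WFK w23592 := fun D T h => wf_of_chk h mem_nil (mem_cons (L891 D T h) mem_nil) cw23592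
theorem W23593 : WFK w23593 := fun D T h => wf_of_chk h (mem_cons (W7114 D T h) (mem_cons (W69 D T h) mem_nil)) mem_nil cw23593
theorem W23594 : WFK w23594 := fun D T h => wf_of_chk h (mem_cons (W6719 D T h) (mem_cons (W69 D T h) mem_nil)) mem_nil cw23594
theorem W23595 : WFK w23595 := fun D T h => wf_of_chk h (mem_cons (W9056 D T h) (mem_cons (W69 D T h) mem_nil)) mem_nil cw23595
theorem L5300 : LFK l5300 := fun D T h => lf_of_chk h (mem_cons (W11192 D T h) (mem_cons (W7114 D T h) (mem_cons (W126 D T h) (mem_cons (W69 D T h) (mem_cons (W23591 D T h) (mem_cons (W14442 D T h) (mem_cons (W1807 D T h) (mem_cons (W23592 D T h) (mem_cons (W1147 D T h) (mem_cons (W22196 D T h) (mem_cons (W23368 D T h) (mem_cons (W23590 D T h) (mem_cons (W13801 D T h) (mem_cons (W23576 D T h) (mem_cons (W11384 D T h) (mem_cons (W16 D T h) (mem_cons (W23588 D T h) (mem_cons (W1149 D T h) (mem_cons (W23048 D T h) (mem_cons (W23593 D T h) (mem_cons (W22351 D T h) (mem_cons (W10822 D T h) (mem_cons (W284 D T h) (mem_cons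 (W22335 D T h) (mem_cons (W12634 D T h) (mem_cons (W8153 D T h) (mem_cons (W23589 D T h) (mem_cons (W15884 D T h) (mem_cons (W15883 D T h) (mem_cons (W9412 D T h) (mem_cons (W9411 D T h) (mem_cons (W4527 D T h) (mem_cons (W18058 D T h) (mem_cons (W23594 D T h) (mem_cons (W23146 D T h) (mem_cons (W22084 D T h) (mem_cons (W23143 D T h) (mem_cons (W23149 D T h) (mem_cons (W23595 D T h) mem_nil))))))))))))))))))))))))))))))))))))))) cl5300
theorem W23596 : WFK w23596 := fun D T h => wf_of_chk h mem_nil (mem_cons (L5300 D T h) mem_nil) cw23596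
theorem W23598 : WFK w23598 := fun D T h => wf_of_chk h mem_nil (mem_cons (L526 D T h) mem_nil) cw23598
theorem W23599 : WFK w23599 := fun D T h => wf_of_chk h mem_nil (mem_cons (L5297 D T h) mem_nil) cw23599
theorem W23600 : WFK w23600 := fun D T h => wf_of_chk h (mem_cons (W69 D T h) (mem_cons (W140 D T h) mem_nil)) mem_nil cw23600
theorem W23601 : WFK w23601 := fun D T h => wf_of_chk h mem_nil (mem_cons (L2582 D T h) mem_nil) cw23601
theorem W23602 : WFK w23602 := fun D T h => wf_of_chk h mem_nil (mem_cons (L2582 D T h) mem_nil) cw23602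
theorem W23603 : WFK w23603 := fun D T h => wf_of_chk h mem_nil (mem_cons (L5170 D T h) mem_nil) cw23603
theorem W23604 : WFK w23604 := fun D T h => wf_of_chk h mem_nil (mem_cons (L3892 D T h) mem_nil) cw23604
theorem W23605 : WFK w23605 := fun D T h => wf_of_chk h mem_nil (mem_cons (L335 D T h) mem_nil) cw23605
theorem W23606 : WFK w23606 := fun D T h => wf_of_chk h mem_nil (mem_cons (L3815 D T h) mem_nil) cw23606
theorem W23607 : WFK w23607 := fun D T h => wf_of_chk h mem_nil (mem_cons (L194 D T h) mem_nil) cw23607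
theorem L5301 : LFK l5301 := fun D T h => lf_of_chk h (mem_cons (W7114 D T h) (mem_cons (W69 D T h) (mem_cons (W461 D T h) (mem_cons (W23598 D T h) (mem_cons (W140 D T h) (mem_cons (W2690 D T h) (mem_cons (W5841 D T h) (mem_cons (W6714 D T h) (mem_cons (W23604 D T h) (mem_cons (W23605 D T h) (mem_cons (W23606 D T h) (mem_cons (W23607 D T h) (mem_cons (W23599 D T h) (mem_cons (W2766 D T h) (mem_cons (W16464 D T h) (mem_cons (W23600 D T h) (mem_cons (W18366 D T h) (mem_cons (W23601 D T h) (mem_cons (W23602 D T h) (mem_cons (W401 D T h) (mem_cons (W1801 D T h) (mem_cons (W6645 D T h) (mem_cons (W23603 D T h) (mem_cons (W23034 D T h) (mem_cons (W6372 D T h) (mem_cons (W23437 D T h) (mem_cons (W9412 D T h) (mem_cons (W23435 D T h) mem_nil)))))))))))))))))))))))))))) cl5301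
theorem W23608 : WFK w23608 := fun D T h => wf_of_chk h mem_nil (mem_cons (L5301 D T h) mem_nil) cw23608
theorem W23609 : WFK w23609 := fun D T h => wf_of_chk h mem_nil (mem_cons (L526 D T h) mem_nil) cw23609
theorem L5302 : LFK l5302 := fun D T h => lf_of_chk h (mem_cons (W23607 D T h) (mem_cons (W69 D T h) (mem_cons (W461 D T h) (mem_cons (W871 D T h) (mem_cons (W2732 D T h) (mem_cons (W7114 D T h) (mem_cons (W23609 D T h) (mem_cons (W2690 D T h) (mem_cons (W140 D T h) (mem_cons (W5841 D T h) (mem_cons (W6714 D T h) (mem_cons (W23599 D T h) (mem_cons (W2766 D T h) (mem_cons (W16464 D T h) (mem_cons (W23600 D T h) (mem_cons (W18366 D T h) (mem_cons (W23602 D T h) (mem_cons (W23601 D T h) (mem_cons (W401 D T h) (mem_cons (W1801 D T h) (mem_cons (W19782 D T h) (mem_cons (W6645 D T h) (mem_cons (W23603 D T h) (mem_cons (W23034 D T h) (mem_cons (W6372 D T h) (mem_cons (W23435 D T h) (mem_cons (W9412 D T h) (mem_cons (W23437 D T h) mem_nil)))))))))))))))))))))))))))) cl5302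
theorem W23610 : WFK w23610 := fun D T h => wf_of_chk h mem_nil (mem_cons (L5302 D T h) mem_nil) cw23610
theorem W23611 : WFK w23611 := fun D T h => wf_of_chk h mem_nil (mem_cons (L526 D T h) mem_nil) cw23611
theorem W23612 : WFK w23612 := fun D T h => wf_of_chk h mem_nil (mem_cons (L5297 D T h) mem_nil) cw23612
theorem W23613 : WFK w23613 := fun D T h => wf_of_chk h (mem_cons (W69 D T h) (mem_cons (W461 D T h) mem_nil)) mem_nil cw23613
theorem L5303 : LFK l5303 := fun D T h => lf_of_chk h (mem_cons (W7114 D T h) (mem_cons (W3035 D T h) (mem_cons (W461 D T h) (mem_cons (W23611 D T h) (mem_cons (W5841 D T h) (mem_cons (W6714 D T h) (mem_cons (W6740 D T h) (mem_cons (W23612 D T h) (mem_cons (W2766 D T h) (mem_cons (W16464 D T h) (mem_cons (W23613 D T h) (mem_cons (W10253 D T h) (mem_cons (W6648 D T h) (mem_cons (W401 D T h) (mem_cons (W6645 D T h) (mem_cons (W23144 D T h) (mem_cons (W23034 D T h) (mem_cons (W19479 D T h) mem_nil)))))))))))))))))) cl5303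
theorem W23614 : WFK w23614 := fun D T h => wf_of_chk h mem_nil (mem_cons (L5303 D T h) mem_nil) cw23614
theorem L5304 : LFK l5304 := fun D T h => lf_of_chk h (mem_cons (W734 D T h) (mem_cons (W10 D T h) (mem_cons (W71 D T h) (mem_cons (W1101 D T h) (mem_cons (W2766 D T h) mem_nil))))) cl5304
theorem W23615 : WFK w23615 := fun D T h => wf_of_chk h mem_nil (mem_cons (L5304 D T h) mem_nil) cw23615
theorem L5305 : LFK l5305 := fun D T h => lf_of_chk h (mem_cons (W1166 D T h) (mem_cons (W15786 D T h) (mem_cons (W143 D T h) (mem_cons (W1 D T h) (mem_cons (W69 D T h) (mem_cons (W23615 D T h) (mem_cons (W8239 D T h) (mem_cons (W8242 D T h) (mem_cons (W370 D T h) (mem_cons (W111 D T h) (mem_cons (W267 D T h) (mem_cons (W721 D T h) (mem_cons (W8246 D T h) (mem_cons (W114 D T h) (mem_cons (W2698 D T h) (mem_cons (W8244 D T h) (mem_cons (W91 D T h) (mem_cons (W80 D T h) mem_nil)))))))))))))))))) cl5305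
theorem W23616 : WFK w23616 := fun D T h => wf_of_chk h mem_nil (mem_cons (L5305 D T h) mem_nil) cw23616
theorem L5306 : LFK l5306 := fun D T h => lf_of_chk h (mem_cons (W8249 D T h) (mem_cons (W2015 D T h) (mem_cons (W3035 D T h) (mem_cons (W1 D T h) (mem_cons (W69 D T h) (mem_cons (W15786 D T h) (mem_cons (W78 D T h) (mem_cons (W105 D T h) (mem_cons (W33 D T h) (mem_cons (W6725 D T h) (mem_cons (W12126 D T h) (mem_cons (W23616 D T h) (mem_cons (W1204 D T h) (mem_cons (W1170 D T h) (mem_cons (W267 D T h) (mem_cons (W114 D T h) (mem_cons (W721 D T h) (mem_cons (W8248 D T h) mem_nil)))))))))))))))))) cl5306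
theorem W23617 : WFK w23617 := fun D T h => wf_of_chk h mem_nil (mem_cons (L5306 D T h) mem_nil) cw23617
theorem L5307 : LFK l5307 := fun D T h => lf_of_chk h (mem_cons (W15786 D T h) (mem_cons (W42 D T h) (mem_cons (W15760 D T h) (mem_cons (W1 D T h) (mem_cons (W69 D T h) (mem_cons (W391 D T h) (mem_cons (W17153 D T h) (mem_cons (W19490 D T h) (mem_cons (W23075 D T h) (mem_cons (W1204 D T h) (mem_cons (W1170 D T h) (mem_cons (W23220 D T h) mem_nil)))))))))))) cl5307
theorem W23618 : WFK w23618 := fun D T h => wf_of_chk h mem_nil (mem_cons (L5307 D T h) mem_nil) cw23618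
theorem W23619 : WFK w23619 := fun D T h => wf_of_chk h mem_nil (mem_cons (L737 D T h) mem_nil) cw23619
theorem L5308 : LFK l5308 := fun D T h => lf_of_chk h (mem_cons (W2766 D T h) (mem_cons (W22 D T h) (mem_cons (W1101 D T h) (mem_cons (W831 D T h) (mem_cons (W23619 D T h) (mem_cons (W3092 D T h) (mem_cons (W7 D T h) (mem_cons (W5821 D T h) (mem_cons (W1072 D T h) (mem_cons (W377 D T h) mem_nil)))))))))) cl5308
theorem W23620 : WFK w23620 := fun D T h => wf_of_chk h mem_nil (mem_cons (L5308 D T h) mem_nil) cw23620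
theorem W23621 : WFK w23621 := fun D T h => wf_of_chk h (mem_cons (W69 D T h) (mem_cons (W1409 D T h) mem_nil)) mem_nil cw23621
theorem L5309 : LFK l5309 := fun D T h => lf_of_chk h (mem_cons (W4513 D T h) (mem_cons (W3515 D T h) (mem_cons (W1409 D T h) (mem_cons (W581 D T h) (mem_cons (W433 D T h) (mem_cons (W23620 D T h) (mem_cons (W381 D T h) (mem_cons (W428 D T h) (mem_cons (W18041 D T h) (mem_cons (W23584 D T h) (mem_cons (W23621 D T h) (mem_cons (W23603 D T h) (mem_cons (W401 D T h) (mem_cons (W6645 D T h) (mem_cons (W15496 D T h) (mem_cons (W19343 D T h) (mem_cons (W23144 D T h) mem_nil))))))))))))))))) cl5309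
theorem W23622 : WFK w23622 := fun D T h => wf_of_chk h mem_nil (mem_cons (L5309 D T h) mem_nil) cw23622
theorem W23623 : WFK w23623 := fun D T h => wf_of_chk h mem_nil (mem_cons (L5146 D T h) mem_nil) cw23623
theorem W23624 : WFK w23624 := fun D T h => wf_of_chk h mem_nil (mem_cons (L5146 D T h) mem_nil) cw23624
theorem L5310 : LFK l5310 := fun D T h => lf_of_chk h (mem_cons (W17178 D T h) (mem_cons (W5247 D T h) (mem_cons (W17197 D T h) (mem_cons (W13896 D T h) (mem_cons (W7114 D T h) (mem_cons (W281 D T h) (mem_cons (W4650 D T h) (mem_cons (W9025 D T h) (mem_cons (W16169 D T h) (mem_cons (W1449 D T h) (mem_cons (W22766 D T h) (mem_cons (W2089 D T h) (mem_cons (W11203 D T h) (mem_cons (W11326 D T h) (mem_cons (W11467 D T h) (mem_cons (W16 D T h) (mem_cons (W391 D T h) (mem_cons (W22230 D T h) (mem_cons (W22024 D T h) (mem_cons (W19771 D T h) (mem_cons (W22722 D T h) (mem_cons (W15784 D T h) (mem_cons (W14215 D T h) (mem_cons (W381 D T h) (mem_cons (W18058 D T h) (mem_cons (W7250 D T h) mem_nil))))))))))))))))))))))))))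 cl5310
theorem W23626 : WFK w23626 := fun D T h => wf_of_chk h mem_nil (mem_cons (L5310 D T h) mem_nil) cw23626
theorem L5311 : LFK l5311 := fun D T h => lf_of_chk h (mem_cons (W834 D T h) (mem_cons (W158 D T h) (mem_cons (W4 D T h) (mem_cons (W33 D T h) (mem_cons (W808 D T h) (mem_cons (W7 D T h) (mem_cons (W1072 D T h) (mem_cons (W4189 D T h) (mem_cons (W2572 D T h) (mem_cons (W142 D T h) (mem_cons (W1076 D T h) (mem_cons (W820 D T h) (mem_cons (W4035 D T h) (mem_cons (W10082 D T h) (mem_cons (W823 D T h) (mem_cons (W809 D T h) mem_nil)))))))))))))))) cl5311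
theorem W23627 : WFK w23627 := fun D T h => wf_of_chk h mem_nil (mem_cons (L5311 D T h) mem_nil) cw23627
theorem L5316 : LFK l5316 := fun D T h => lf_of_chk h (mem_cons (W15786 D T h) (mem_cons (W158 D T h) (mem_cons (W4 D T h) (mem_cons (W33 D T h) (mem_cons (W7 D T h) (mem_cons (W1072 D T h) (mem_cons (W808 D T h) (mem_cons (W823 D T h) (mem_cons (W632 D T h) (mem_cons (W576 D T h) mem_nil)))))))))) cl5316
theorem W23638 : WFK w23638 := fun D T h => wf_of_chk h mem_nil (mem_cons (L5316 D T h) mem_nil) cw23638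
theorem L5317 : LFK l5317 := fun D T h => lf_of_chk h (mem_cons (W5158 D T h) (mem_cons (W1 D T h) (mem_cons (W158 D T h) (mem_cons (W808 D T h) (mem_cons (W23627 D T h) (mem_cons (W576 D T h) (mem_cons (W9691 D T h) (mem_cons (W831 D T h) (mem_cons (W603 D T h) (mem_cons (W604 D T h) (mem_cons (W9981 D T h) (mem_cons (W889 D T h) (mem_cons (W10986 D T h) (mem_cons (W23638 D T h) mem_nil)))))))))))))) cl5317
theorem W23639 : WFK w23639 := fun D T h => wf_of_chk h mem_nil (mem_cons (L5317 D T h) mem_nil) cw23639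
theorem L5318 : LFK l5318 := fun D T h => lf_of_chk h (mem_cons (W2766 D T h) (mem_cons (W831 D T h) (mem_cons (W1101 D T h) (mem_cons (W23619 D T h) (mem_cons (W3092 D T h) (mem_cons (W7 D T h) (mem_cons (W5821 D T h) (mem_cons (W1072 D T h) (mem_cons (W377 D T h) mem_nil))))))))) cl5318
theorem W23640 : WFK w23640 := fun D T h => wf_of_chk h mem_nil (mem_cons (L5318 D T h) mem_nil) cw23640
theorem L5319 : LFK l5319 := fun D T h => lf_of_chk h (mem_cons (W2766 D T h) (mem_cons (W831 D T h) (mem_cons (W137 D T h) (mem_cons (W860 D T h) mem_nil)))) cl5319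
theorem W23641 : WFK w23641 := fun D T h => wf_of_chk h mem_nil (mem_cons (L5319 D T h) mem_nil) cw23641
theorem L5320 : LFK l5320 := fun D T h => lf_of_chk h (mem_cons (W23033 D T h) (mem_cons (W23639 D T h) (mem_cons (W1409 D T h) (mem_cons (W13890 D T h) (mem_cons (W433 D T h) (mem_cons (W23144 D T h) (mem_cons (W23640 D T h) (mem_cons (W2766 D T h) (mem_cons (W17428 D T h) (mem_cons (W23584 D T h) (mem_cons (W23621 D T h) (mem_cons (W23603 D T h) (mem_cons (W401 D T h) (mem_cons (W6645 D T h) (mem_cons (W15496 D T h) (mem_cons (W19343 D T h) (mem_cons (W23641 D T h) mem_nil))))))))))))))))) cl5320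
theorem W23642 : WFK w23642 := fun D T h => wf_of_chk h mem_nil (mem_cons (L5320 D T h) mem_nil) cw23642
theorem L5321 : LFK l5321 := fun D T h => lf_of_chk h (mem_cons (W23035 D T h) (mem_cons (W1309 D T h) (mem_cons (W19846 D T h) (mem_cons (W7114 D T h) (mem_cons (W710 D T h) (mem_cons (W23046 D T h) (mem_cons (W23074 D T h) (mem_cons (W23081 D T h) (mem_cons (W23150 D T h) (mem_cons (W5258 D T h) (mem_cons (W23182 D T h) (mem_cons (W23579 D T h) (mem_cons (W23580 D T h) (mem_cons (W7212 D T h) (mem_cons (W5721 D T h) (mem_cons (W23596 D T h) (mem_cons (W23585 D T h) (mem_cons (W23608 D T h) (mem_cons (W23610 D T h) (mem_cons (W23614 D T h) (mem_cons (W23617 D T h) (mem_cons (W23618 D T h) (mem_cons (W23622 D T h) (mem_cons (W23623 D T h) (mem_cons (W23624 D T h) (mem_cons (W23626 D T h) (mem_cons (W23642 D T h) mem_nil))))))))))))))))))))))))))) cl5321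
theorem W23643 : WFK w23643 := fun D T h => wf_of_chk h mem_nil (mem_cons (L5321 D T h) mem_nil) cw23643
theorem W23645 : WFK w23645 := fun D T h => wf_of_chk h mem_nil (mem_cons (L5013 D T h) mem_nil) cw23645
theorem W23648 : WFK w23648 := fun D T h => wf_of_chk h (mem_cons (W281 D T h) mem_nil) mem_nil cw23648
theorem L5322 : LFK l5322 := fun D T h => lf_of_chk h (mem_cons (W15786 D T h) (mem_cons (W10662 D T h) (mem_cons (W69 D T h) (mem_cons (W15760 D T h) (mem_cons (W281 D T h) (mem_cons (W17153 D T h) (mem_cons (W87 D T h) (mem_cons (W23648 D T h) (mem_cons (W10661 D T h) (mem_cons (W22956 D T h) mem_nil)))))))))) cl5322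
theorem W23649 : WFK w23649 := fun D T h => wf_of_chk h mem_nil (mem_cons (L5322 D T h) mem_nil) cw23649
theorem L5323 : LFK l5323 := fun D T h => lf_of_chk h (mem_cons (W141 D T h) mem_nil) cl5323
theorem W23650 : WFK w23650 := fun D T h => wf_of_chk h mem_nil (mem_cons (L5323 D T h) mem_nil) cw23650
theorem W23652 : WFK w23652 := fun D T h => wf_of_chk h (mem_cons (W267 D T h) (mem_cons (W281 D T h) mem_nil)) mem_nil cw23652
theorem W23653 : WFK w23653 := fun D T h => wf_of_chk h (mem_cons (W461 D T h) (mem_cons (W281 D T h) mem_nil)) mem_nil cw23653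
theorem W23654 : WFK w23654 := fun D T h => wf_of_chk h (mem_cons (W42 D T h) (mem_cons (W281 D T h) mem_nil)) mem_nil cw23654
theorem L5324 : LFK l5324 := fun D T h => lf_of_chk h (mem_cons (W2936 D T h) (mem_cons (W6714 D T h) (mem_cons (W281 D T h) (mem_cons (W16 D T h) (mem_cons (W10662 D T h) (mem_cons (W5841 D T h) (mem_cons (W23649 D T h) (mem_cons (W23653 D T h) (mem_cons (W23654 D T h) (mem_cons (W23648 D T h) (mem_cons (W871 D T h) (mem_cons (W23650 D T h) (mem_cons (W15786 D T h) (mem_cons (W16178 D T h) (mem_cons (W7353 D T h) (mem_cons (W1139 D T h) (mem_cons (W6776 D T h) (mem_cons (W6572 D T h) (mem_cons (W2515 D T h) (mem_cons (W114 D T h) (mem_cons (W3766 D T h) (mem_cons (W21556 D T h) (mem_cons (W9412 D T h) (mem_cons (W17121 D T h) (mem_cons (W7285 D T h) (mem_cons (W23652 D T h) (mem_cons (W959 D T h) (mem_cons (W2732 D T h) (mem_cons (W6568 D T h) (mem_cons (W391 D T h) (mem_cons (W2674 D T h) mem_nil))))))))))))))))))))))))))))))) cl5324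
theorem W23655 : WFK w23655 := fun D T h => wf_of_chk h mem_nil (mem_cons (L5324 D T h) mem_nil) cw23655
theorem W23656 : WFK w23656 := fun D T h => wf_of_chk h mem_nil (mem_cons (L660 D T h) mem_nil) cw23656
theorem W23657 : WFK w23657 := fun D T h => wf_of_chk h mem_nil (mem_cons (L660 D T h) mem_nil) cw23657
theorem W23658 : WFK w23658 := fun D T h => wf_of_chk h mem_nil (mem_cons (L4461 D T h) mem_nil) cw23658
theorem W23659 : WFK w23659 := fun D T h => wf_of_chk h mem_nil (mem_cons (L4479 D T h) mem_nil) cw23659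
theorem W23661 : WFK w23661 := fun D T h => wf_of_chk h mem_nil (mem_cons (L116 D T h) mem_nil) cw23661
theorem W23662 : WFK w23662 := fun D T h => wf_of_chk h mem_nil (mem_cons (L116 D T h) mem_nil) cw23662
theorem L5325 : LFK l5325 := fun D T h => lf_of_chk h (mem_cons (W1566 D T h) (mem_cons (W10984 D T h) (mem_cons (W23655 D T h) (mem_cons (W281 D T h) (mem_cons (W17 D T h) (mem_cons (W11704 D T h) (mem_cons (W11670 D T h) (mem_cons (W9143 D T h) (mem_cons (W15055 D T h) (mem_cons (W461 D T h) (mem_cons (W3482 D T h) (mem_cons (W23661 D T h) (mem_cons (W15119 D T h) (mem_cons (W23662 D T h) (mem_cons (W10661 D T h) (mem_cons (W14981 D T h) (mem_cons (W15492 D T h) (mem_cons (W495 D T h) (mem_cons (W757 D T h) (mem_cons (W23659 D T h) (mem_cons (W22140 D T h) (mem_cons (W342 D T h) (mem_cons (W15491 D T h) (mem_cons (W23656 D T h) (mem_cons (W23657 D T h) (mem_cons (W23658 D T h) mem_nil)))))))))))))))))))))))))) cl5325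
theorem W23663 : WFK w23663 := fun D T h => wf_of_chk h mem_nil (mem_cons (L5325 D T h) mem_nil) cw23663
theorem L5326 : LFK l5326 := fun D T h => lf_of_chk h (mem_cons (W5721 D T h) (mem_cons (W5157 D T h) (mem_cons (W4038 D T h) (mem_cons (W901 D T h) (mem_cons (W8563 D T h) (mem_cons (W1 D T h) (mem_cons (W209 D T h) (mem_cons (W2912 D T h) (mem_cons (W181 D T h) (mem_cons (W4392 D T h) (mem_cons (W7719 D T h) (mem_cons (W8424 D T h) (mem_cons (W3429 D T h) (mem_cons (W270 D T h) (mem_cons (W7212 D T h) (mem_cons (W1919 D T h) (mem_cons (W34 D T h) (mem_cons (W23663 D T h) mem_nil)))))))))))))))))) cl5326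
theorem W23664 : WFK w23664 := fun D T h => wf_of_chk h mem_nil (mem_cons (L5326 D T h) mem_nil) cw23664
theorem W23665 : WFK w23665 := fun D T h => wf_of_chk h mem_nil (mem_cons (L2670 D T h) mem_nil) cw23665
theorem W23666 : WFK w23666 := fun D T h => wf_of_chk h mem_nil (mem_cons (L5147 D T h) mem_nil) cw23666
theorem W23667 : WFK w23667 := fun D T h => wf_of_chk h (mem_cons (W195 D T h) mem_nil) mem_nil cw23667
theorem L5327 : LFK l5327 := fun D T h => lf_of_chk h (mem_cons (W15786 D T h) (mem_cons (W1929 D T h) (mem_cons (W15760 D T h) (mem_cons (W1 D T h) (mem_cons (W69 D T h) (mem_cons (W17153 D T h) (mem_cons (W33 D T h) (mem_cons (W23666 D T h) (mem_cons (W23667 D T h) (mem_cons (W1575 D T h) mem_nil)))))))))) cl5327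
theorem W23668 : WFK w23668 := fun D T h => wf_of_chk h mem_nil (mem_cons (L5327 D T h) mem_nil) cw23668
theorem W23669 : WFK w23669 := fun D T h => wf_of_chk h (mem_cons (W4276 D T h) mem_nil) mem_nil cw23669
theorem W23670 : WFK w23670 := fun D T h => wf_of_chk h mem_nil (mem_cons (L3530 D T h) mem_nil) cw23670
theorem W23671 : WFK w23671 := fun D T h => wf_of_chk h mem_nil (mem_cons (L5199 D T h) mem_nil) cw23671
theorem L5328 : LFK l5328 := fun D T h => lf_of_chk h (mem_cons (W15786 D T h) (mem_cons (W1929 D T h) (mem_cons (W15760 D T h) (mem_cons (W69 D T h) (mem_cons (W1 D T h) (mem_cons (W17153 D T h) (mem_cons (W33 D T h) (mem_cons (W23669 D T h) (mem_cons (W23666 D T h) (mem_cons (W1204 D T h) (mem_cons (W1170 D T h) (mem_cons (W20338 D T h) (mem_cons (W114 D T h) (mem_cons (W721 D T h) (mem_cons (W23671 D T h) (mem_cons (W1571 D T h) mem_nil)))))))))))))))) cl5328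
theorem W23672 : WFK w23672 := fun D T h => wf_of_chk h mem_nil (mem_cons (L5328 D T h) mem_nil) cw23672
theorem W23673 : WFK w23673 := fun D T h => wf_of_chk h (mem_cons (W5186 D T h) (mem_cons (W710 D T h) mem_nil)) mem_nil cw23673
theorem W23674 : WFK w23674 := fun D T h => wf_of_chk h mem_nil (mem_cons (L3515 D T h) mem_nil) cw23674
theorem W23675 : WFK w23675 := fun D T h => wf_of_chk h mem_nil (mem_cons (L205 D T h) mem_nil) cw23675
theorem L5329 : LFK l5329 := fun D T h => lf_of_chk h (mem_cons (W7114 D T h) (mem_cons (W3035 D T h) (mem_cons (W461 D T h) (mem_cons (W2325 D T h) (mem_cons (W23670 D T h) (mem_cons (W39 D T h) (mem_cons (W7110 D T h) (mem_cons (W18497 D T h) (mem_cons (W23674 D T h) (mem_cons (W2766 D T h) (mem_cons (W8363 D T h) (mem_cons (W14903 D T h) (mem_cons (W748 D T h) (mem_cons (W7109 D T h) (mem_cons (W257 D T h) (mem_cons (W21925 D T h) (mem_cons (W23675 D T h) (mem_cons (W13318 D T h) mem_nil)))))))))))))))))) cl5329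
theorem W23676 : WFK w23676 := fun D T h => wf_of_chk h mem_nil (mem_cons (L5329 D T h) mem_nil) cw23676
theorem W23677 : WFK w23677 := fun D T h => wf_of_chk h mem_nil (mem_cons (L5145 D T h) mem_nil) cw23677
theorem W23678 : WFK w23678 := fun D T h => wf_of_chk h mem_nil (mem_cons (L5329 D T h) mem_nil) cw23678
theorem W23679 : WFK w23679 := fun D T h => wf_of_chk h mem_nil (mem_cons (L5329 D T h) mem_nil) cw23679
theorem W23682 : WFK w23682 := fun D T h => wf_of_chk h (mem_cons (W281 D T h) (mem_cons (W5189 D T h) mem_nil)) mem_nil cw23682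
theorem L5330 : LFK l5330 := fun D T h => lf_of_chk h (mem_cons (W5721 D T h) (mem_cons (W5157 D T h) (mem_cons (W4038 D T h) (mem_cons (W7076 D T h) (mem_cons (W5582 D T h) (mem_cons (W1 D T h) (mem_cons (W209 D T h) (mem_cons (W2912 D T h) (mem_cons (W181 D T h) (mem_cons (W4392 D T h) (mem_cons (W7719 D T h) (mem_cons (W8424 D T h) (mem_cons (W7212 D T h) (mem_cons (W1919 D T h) (mem_cons (W34 D T h) (mem_cons (W23682 D T h) mem_nil)))))))))))))))) cl5330
theorem W23683 : WFK w23683 := fun D T h => wf_of_chk h mem_nil (mem_cons (L5330 D T h) mem_nil) cw23683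
theorem W23685 : WFK w23685 := fun D T h => wf_of_chk h mem_nil (mem_cons (L142 D T h) mem_nil) cw23685
theorem W23686 : WFK w23686 := fun D T h => wf_of_chk h mem_nil (mem_cons (L4602 D T h) mem_nil) cw23686
theorem W23687 : WFK w23687 := fun D T h => wf_of_chk h mem_nil (mem_cons (L1916 D T h) mem_nil) cw23687
theorem W23688 : WFK w23688 := fun D T h => wf_of_chk h mem_nil (mem_cons (L4929 D T h) mem_nil) cw23688
theorem W23689 : WFK w23689 := fun D T h => wf_of_chk h mem_nil (mem_cons (L987 D T h) mem_nil) cw23689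
theorem L5331 : LFK l5331 := fun D T h => lf_of_chk h (mem_cons (W7212 D T h) (mem_cons (W2318 D T h) (mem_cons (W69 D T h) (mem_cons (W1317 D T h) (mem_cons (W1 D T h) (mem_cons (W8595 D T h) (mem_cons (W2674 D T h) (mem_cons (W1170 D T h) (mem_cons (W112 D T h) (mem_cons (W281 D T h) (mem_cons (W1204 D T h) (mem_cons (W11448 D T h) (mem_cons (W11384 D T h) (mem_cons (W22001 D T h) (mem_cons (W2548 D T h) (mem_cons (W11192 D T h) (mem_cons (W15487 D T h) (mem_cons (W6656 D T h) (mem_cons (W22945 D T h) (mem_cons (W23677 D T h) (mem_cons (W23689 D T h) (mem_cons (W18916 D T h) (mem_cons (W17986 D T h) (mem_cons (W23685 D T h) (mem_cons (W23686 D T h) (mem_cons (W23687 D T h) (mem_cons (W23688 D T h) mem_nil))))))))))))))))))))))))))) cl5331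
theorem W23693 : WFK w23693 := fun D T h => wf_of_chk h mem_nil (mem_cons (L1146 D T h) mem_nil) cw23693
theorem W23694 : WFK w23694 := fun D T h => wf_of_chk h (mem_cons (W114 D T h) (mem_cons (W710 D T h) mem_nil)) mem_nil cw23694
theorem W23695 : WFK w23695 := fun D T h => wf_of_chk h mem_nil (mem_cons (L209 D T h) mem_nil) cw23695
theorem L5332 : LFK l5332 := fun D T h => lf_of_chk h (mem_cons (W15784 D T h) (mem_cons (W12631 D T h) (mem_cons (W16604 D T h) (mem_cons (W4531 D T h) (mem_cons (W2726 D T h) (mem_cons (W864 D T h) (mem_cons (W3797 D T h) (mem_cons (W1501 D T h) (mem_cons (W16972 D T h) (mem_cons (W15786 D T h) (mem_cons (W201 D T h) (mem_cons (W8275 D T h) (mem_cons (W21639 D T h) (mem_cons (W21638 D T h) (mem_cons (W14389 D T h) mem_nil))))))))))))))) cl5332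
theorem W23697 : WFK w23697 := fun D T h => wf_of_chk h mem_nil (mem_cons (L5332 D T h) mem_nil) cw23697
theorem W23698 : WFK w23698 := fun D T h => wf_of_chk h mem_nil (mem_cons (L1326 D T h) mem_nil) cw23698
theorem W23699 : WFK w23699 := fun D T h => wf_of_chk h mem_nil (mem_cons (L2338 D T h) mem_nil) cw23699
theorem L5333 : LFK l5333 := fun D T h => lf_of_chk h (mem_cons (W14371 D T h) (mem_cons (W858 D T h) (mem_cons (W501 D T h) (mem_cons (W281 D T h) (mem_cons (W774 D T h) (mem_cons (W23698 D T h) (mem_cons (W14364 D T h) (mem_cons (W14365 D T h) (mem_cons (W1538 D T h) (mem_cons (W22463 D T h) (mem_cons (W14374 D T h) (mem_cons (W1751 D T h) (mem_cons (W14372 D T h) (mem_cons (W13724 D T h) (mem_cons (W13364 D T h) (mem_cons (W14363 D T h) (mem_cons (W4116 D T h) (mem_cons (W13722 D T h) (mem_cons (W650 D T h) (mem_cons (W19142 D T h) (mem_cons (W23699 D T h) (mem_cons (W19060 D T h) (mem_cons (W14362 D T h) mem_nil))))))))))))))))))))))) cl5333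
theorem W23700 : WFK w23700 := fun D T h => wf_of_chk h mem_nil (mem_cons (L5333 D T h) mem_nil) cw23700
theorem L5334 : LFK l5334 := fun D T h => lf_of_chk h (mem_cons (W5721 D T h) (mem_cons (W5157 D T h) (mem_cons (W4038 D T h) (mem_cons (W7076 D T h) (mem_cons (W12631 D T h) (mem_cons (W1 D T h) (mem_cons (W21495 D T h) (mem_cons (W13637 D T h) (mem_cons (W181 D T h) (mem_cons (W23697 D T h) (mem_cons (W15053 D T h) (mem_cons (W23420 D T h) (mem_cons (W21639 D T h) (mem_cons (W1919 D T h) (mem_cons (W34 D T h) (mem_cons (W23700 D T h) mem_nil)))))))))))))))) cl5334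
theorem W23701 : WFK w23701 := fun D T h => wf_of_chk h mem_nil (mem_cons (L5334 D T h) mem_nil) cw23701
theorem L5335 : LFK l5335 := fun D T h => lf_of_chk h (mem_cons (W3766 D T h) (mem_cons (W181 D T h) (mem_cons (W16 D T h) (mem_cons (W2118 D T h) (mem_cons (W401 D T h) (mem_cons (W3 D T h) (mem_cons (W39 D T h) (mem_cons (W267 D T h) (mem_cons (W3445 D T h) (mem_cons (W91 D T h) (mem_cons (W21522 D T h) (mem_cons (W255 D T h) (mem_cons (W21469 D T h) (mem_cons (W257 D T h) mem_nil)))))))))))))) cl5335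
theorem W23702 : WFK w23702 := fun D T h => wf_of_chk h mem_nil (mem_cons (L5335 D T h) mem_nil) cw23702
theorem L5336 : LFK l5336 := fun D T h => lf_of_chk h (mem_cons (W495 D T h) mem_nil) cl5336
theorem W23703 : WFK w23703 := fun D T h => wf_of_chk h mem_nil (mem_cons (L5336 D T h) mem_nil) cw23703
theorem W23704 : WFK w23704 := fun D T h => wf_of_chk h mem_nil (mem_cons (L5013 D T h) mem_nil) cw23704
theorem W23705 : WFK w23705 := fun D T h => wf_of_chk h mem_nil (mem_cons (L5013 D T h) mem_nil) cw23705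
theorem W23706 : WFK w23706 := fun D T h => wf_of_chk h mem_nil (mem_cons (L5013 D T h) mem_nil) cw23706
theorem W23707 : WFK w23707 := fun D T h => wf_of_chk h mem_nil (mem_cons (L5165 D T h) mem_nil) cw23707
theorem W23708 : WFK w23708 := fun D T h => wf_of_chk h mem_nil (mem_cons (L1491 D T h) mem_nil) cw23708
theorem L5337 : LFK l5337 := fun D T h => lf_of_chk h (mem_cons (W7114 D T h) (mem_cons (W23702 D T h) (mem_cons (W461 D T h) (mem_cons (W11270 D T h) (mem_cons (W20098 D T h) (mem_cons (W39 D T h) (mem_cons (W7110 D T h) (mem_cons (W2840 D T h) (mem_cons (W16560 D T h) (mem_cons (W23707 D T h) (mem_cons (W20252 D T h) (mem_cons (W23708 D T h) (mem_cons (W13323 D T h) (mem_cons (W23703 D T h) (mem_cons (W2766 D T h) (mem_cons (W23645 D T h) (mem_cons (W23704 D T h) (mem_cons (W23705 D T h) (mem_cons (W23706 D T h) (mem_cons (W8363 D T h) (mem_cons (W13320 D T h) (mem_cons (W748 D T h) (mem_cons (W9056 D T h) (mem_cons (W18058 D T h) (mem_cons (W23675 D T h) (mem_cons (W13318 D T h) (mem_cons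 (W257 D T h) (mem_cons (W6749 D T h) (mem_cons (W16179 D T h) (mem_cons (W16499 D T h) mem_nil)))))))))))))))))))))))))))))) cl5337
theorem W23709 : WFK w23709 := fun D T h => wf_of_chk h mem_nil (mem_cons (L5337 D T h) mem_nil) cw23709
theorem W23710 : WFK w23710 := fun D T h => wf_of_chk h mem_nil (mem_cons (L1728 D T h) mem_nil) cw23710
theorem W23711 : WFK w23711 := fun D T h => wf_of_chk h mem_nil (mem_cons (L1728 D T h) mem_nil) cw23711
theorem W23712 : WFK w23712 := fun D T h => wf_of_chk h (mem_cons (W69 D T h) (mem_cons (W7114 D T h) mem_nil)) mem_nil cw23712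
theorem W23713 : WFK w23713 := fun D T h => wf_of_chk h (mem_cons (W220 D T h) (mem_cons (W7114 D T h) mem_nil)) mem_nil cw23713
theorem L5338 : LFK l5338 := fun D T h => lf_of_chk h (mem_cons (W15884 D T h) (mem_cons (W16178 D T h) (mem_cons (W17571 D T h) (mem_cons (W16179 D T h) (mem_cons (W18453 D T h) (mem_cons (W220 D T h) (mem_cons (W11479 D T h) (mem_cons (W11445 D T h) (mem_cons (W15784 D T h) (mem_cons (W23710 D T h) (mem_cons (W6714 D T h) (mem_cons (W3766 D T h) (mem_cons (W23712 D T h) (mem_cons (W23713 D T h) (mem_cons (W23711 D T h) (mem_cons (W6931 D T h) mem_nil)))))))))))))))) cl5338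
theorem W23714 : WFK w23714 := fun D T h => wf_of_chk h mem_nil (mem_cons (L5338 D T h) mem_nil) cw23714
theorem W23715 : WFK w23715 := fun D T h => wf_of_chk h mem_nil (mem_cons (L3530 D T h) mem_nil) cw23715
theorem L5339 : LFK l5339 := fun D T h => lf_of_chk h (mem_cons (W495 D T h) mem_nil) cl5339
theorem W23716 : WFK w23716 := fun D T h => wf_of_chk h mem_nil (mem_cons (L5339 D T h) mem_nil) cw23716
theorem W23717 : WFK w23717 := fun D T h => wf_of_chk h mem_nil (mem_cons (L5339 D T h) mem_nil) cw23717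
theorem W23718 : WFK w23718 := fun D T h => wf_of_chk h (mem_cons (W143 D T h) (mem_cons (W16 D T h) mem_nil)) mem_nil cw23718
theorem W23719 : WFK w23719 := fun D T h => wf_of_chk h mem_nil (mem_cons (L1896 D T h) mem_nil) cw23719
theorem W23720 : WFK w23720 := fun D T h => wf_of_chk h (mem_cons (W1307 D T h) (mem_cons (W16 D T h) mem_nil)) mem_nil cw23720
theorem W23721 : WFK w23721 := fun D T h => wf_of_chk h (mem_cons (W143 D T h) mem_nil) mem_nil cw23721
theorem W23722 : WFK w23722 := fun D T h => wf_of_chk h (mem_cons (W651 D T h) mem_nil) mem_nil cw23722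
theorem W23723 : WFK w23723 := fun D T h => wf_of_chk h (mem_cons (W3528 D T h) mem_nil) mem_nil cw23723
theorem W23724 : WFK w23724 := fun D T h => wf_of_chk h mem_nil (mem_cons (L3434 D T h) mem_nil) cw23724
theorem W23725 : WFK w23725 := fun D T h => wf_of_chk h mem_nil (mem_cons (L3443 D T h) mem_nil) cw23725
theorem L5340 : LFK l5340 := fun D T h => lf_of_chk h (mem_cons (W22453 D T h) (mem_cons (W7265 D T h) (mem_cons (W7266 D T h) (mem_cons (W390 D T h) (mem_cons (W179 D T h) (mem_cons (W497 D T h) (mem_cons (W23723 D T h) (mem_cons (W23724 D T h) (mem_cons (W69 D T h) (mem_cons (W19696 D T h) (mem_cons (W23725 D T h) (mem_cons (W281 D T h) (mem_cons (W16560 D T h) (mem_cons (W23721 D T h) (mem_cons (W13048 D T h) (mem_cons (W2089 D T h) (mem_cons (W1449 D T h) (mem_cons (W381 D T h) (mem_cons (W22622 D T h) (mem_cons (W23722 D T h) (mem_cons (W1986 D T h) (mem_cons (W14143 D T h) (mem_cons (W7313 D T h) (mem_cons (W23319 D T h) (mem_cons (W8751 D T h) (mem_cons (W14215 D T h) (mem_cons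 (W8755 D T h) mem_nil))))))))))))))))))))))))))) cl5340
theorem W23726 : WFK w23726 := fun D T h => wf_of_chk h mem_nil (mem_cons (L5340 D T h) mem_nil) cw23726
theorem W23727 : WFK w23727 := fun D T h => wf_of_chk h (mem_cons (W162 D T h) (mem_cons (W937 D T h) mem_nil)) mem_nil cw23727
theorem W23728 : WFK w23728 := fun D T h => wf_of_chk h (mem_cons (W61 D T h) (mem_cons (W16 D T h) mem_nil)) mem_nil cw23728
theorem W23729 : WFK w23729 := fun D T h => wf_of_chk h (mem_cons (W13182 D T h) (mem_cons (W16 D T h) mem_nil)) mem_nil cw23729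
theorem W23730 : WFK w23730 := fun D T h => wf_of_chk h (mem_cons (W2839 D T h) mem_nil) mem_nil cw23730
theorem W23731 : WFK w23731 := fun D T h => wf_of_chk h mem_nil (mem_cons (L5084 D T h) mem_nil) cw23731
theorem L5341 : LFK l5341 := fun D T h => lf_of_chk h (mem_cons (W13078 D T h) (mem_cons (W15147 D T h) (mem_cons (W7436 D T h) (mem_cons (W1599 D T h) (mem_cons (W179 D T h) (mem_cons (W937 D T h) (mem_cons (W16 D T h) (mem_cons (W12531 D T h) (mem_cons (W23726 D T h) (mem_cons (W23727 D T h) (mem_cons (W2934 D T h) (mem_cons (W284 D T h) (mem_cons (W23720 D T h) (mem_cons (W22142 D T h) (mem_cons (W7401 D T h) (mem_cons (W2405 D T h) (mem_cons (W15884 D T h) (mem_cons (W15883 D T h) (mem_cons (W9025 D T h) (mem_cons (W23718 D T h) (mem_cons (W14408 D T h) (mem_cons (W22763 D T h) (mem_cons (W22762 D T h) (mem_cons (W14067 D T h) (mem_cons (W23731 D T h) (mem_cons (W14063 D T h) (mem_cons (W18058 D T h) (mem_cons (W13623 D T h) (mem_cons (W23719 D T h) (mem_cons (W5211 D T h) (mem_cons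 (W14131 D T h) (mem_cons (W15877 D T h) (mem_cons (W3921 D T h) (mem_cons (W11111 D T h) (mem_cons (W23728 D T h) (mem_cons (W13534 D T h) (mem_cons (W181 D T h) (mem_cons (W23729 D T h) (mem_cons (W23730 D T h) mem_nil))))))))))))))))))))))))))))))))))))))) cl5341
theorem W23732 : WFK w23732 := fun D T h => wf_of_chk h mem_nil (mem_cons (L5341 D T h) mem_nil) cw23732
theorem L5342 : LFK l5342 := fun D T h => lf_of_chk h (mem_cons (W1297 D T h) (mem_cons (W1325 D T h) (mem_cons (W1326 D T h) (mem_cons (W220 D T h) (mem_cons (W1296 D T h) (mem_cons (W15 D T h) (mem_cons (W750 D T h) (mem_cons (W2353 D T h) (mem_cons (W1519 D T h) (mem_cons (W888 D T h) (mem_cons (W7257 D T h) (mem_cons (W1522 D T h) mem_nil)))))))))))) cl5342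
theorem W23733 : WFK w23733 := fun D T h => wf_of_chk h mem_nil (mem_cons (L5342 D T h) mem_nil) cw23733
theorem L5343 : LFK l5343 := fun D T h => lf_of_chk h (mem_cons (W7314 D T h) mem_nil) cl5343
theorem W23734 : WFK w23734 := fun D T h => wf_of_chk h mem_nil (mem_cons (L5343 D T h) mem_nil) cw23734
theorem L5344 : LFK l5344 := fun D T h => lf_of_chk h (mem_cons (W7314 D T h) mem_nil) cl5344
theorem W23735 : WFK w23735 := fun D T h => wf_of_chk h mem_nil (mem_cons (L5344 D T h) mem_nil) cw23735
theorem L5345 : LFK l5345 := fun D T h => lf_of_chk h (mem_cons (W12873 D T h) mem_nil) cl5345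
theorem W23736 : WFK w23736 := fun D T h => wf_of_chk h mem_nil (mem_cons (L5345 D T h) mem_nil) cw23736
theorem W23737 : WFK w23737 := fun D T h => wf_of_chk h mem_nil (mem_cons (L4588 D T h) mem_nil) cw23737
theorem L5346 : LFK l5346 := fun D T h => lf_of_chk h (mem_cons (W8569 D T h) (mem_cons (W3898 D T h) (mem_cons (W368 D T h) (mem_cons (W126 D T h) (mem_cons (W179 D T h) (mem_cons (W721 D T h) (mem_cons (W12631 D T h) (mem_cons (W267 D T h) (mem_cons (W16564 D T h) (mem_cons (W22221 D T h) (mem_cons (W15147 D T h) (mem_cons (W17571 D T h) (mem_cons (W1560 D T h) (mem_cons (W15825 D T h) (mem_cons (W16178 D T h) (mem_cons (W23733 D T h) (mem_cons (W23734 D T h) (mem_cons (W13626 D T h) (mem_cons (W23735 D T h) (mem_cons (W23736 D T h) (mem_cons (W13095 D T h) (mem_cons (W23715 D T h) (mem_cons (W23716 D T h) (mem_cons (W23717 D T h) (mem_cons (W23732 D T h) (mem_cons (W1 D T h) (mem_cons (W69 D T h) (mem_cons (W23737 D T h) mem_nil)))))))))))))))))))))))))))) cl5346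
theorem W23738 : WFK w23738 := fun D T h => wf_of_chk h mem_nil (mem_cons (L5346 D T h) mem_nil) cw23738
theorem W23739 : WFK w23739 := fun D T h => wf_of_chk h (mem_cons (W284 D T h) (mem_cons (W7114 D T h) mem_nil)) mem_nil cw23739
theorem L5347 : LFK l5347 := fun D T h => lf_of_chk h (mem_cons (W23713 D T h) (mem_cons (W16178 D T h) (mem_cons (W17571 D T h) (mem_cons (W16179 D T h) (mem_cons (W6776 D T h) (mem_cons (W15884 D T h) (mem_cons (W220 D T h) (mem_cons (W11445 D T h) (mem_cons (W11481 D T h) (mem_cons (W2538 D T h) (mem_cons (W5308 D T h) (mem_cons (W23710 D T h) (mem_cons (W6714 D T h) (mem_cons (W23712 D T h) (mem_cons (W3766 D T h) (mem_cons (W13637 D T h) (mem_cons (W19138 D T h) (mem_cons (W23711 D T h) (mem_cons (W6931 D T h) mem_nil))))))))))))))))))) cl5347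
theorem W23740 : WFK w23740 := fun D T h => wf_of_chk h mem_nil (mem_cons (L5347 D T h) mem_nil) cw23740
theorem L5348 : LFK l5348 := fun D T h => lf_of_chk h (mem_cons (W177 D T h) mem_nil) cl5348
theorem W23741 : WFK w23741 := fun D T h => wf_of_chk h mem_nil (mem_cons (L5348 D T h) mem_nil) cw23741
theorem L5349 : LFK l5349 := fun D T h => lf_of_chk h (mem_cons (W924 D T h) (mem_cons (W815 D T h) (mem_cons (W431 D T h) (mem_cons (W10076 D T h) (mem_cons (W920 D T h) (mem_cons (W852 D T h) (mem_cons (W926 D T h) (mem_cons (W927 D T h) (mem_cons (W160 D T h) (mem_cons (W170 D T h) (mem_cons (W1489 D T h) mem_nil))))))))))) cl5349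
theorem W23742 : WFK w23742 := fun D T h => wf_of_chk h mem_nil (mem_cons (L5349 D T h) mem_nil) cw23742
theorem L5350 : LFK l5350 := fun D T h => lf_of_chk h (mem_cons (W7114 D T h) (mem_cons (W15711 D T h) (mem_cons (W461 D T h) (mem_cons (W10522 D T h) (mem_cons (W23670 D T h) (mem_cons (W39 D T h) (mem_cons (W7110 D T h) (mem_cons (W2840 D T h) (mem_cons (W16560 D T h) (mem_cons (W23707 D T h) (mem_cons (W20252 D T h) (mem_cons (W23708 D T h) (mem_cons (W13323 D T h) (mem_cons (W23741 D T h) (mem_cons (W2766 D T h) (mem_cons (W23645 D T h) (mem_cons (W23704 D T h) (mem_cons (W23705 D T h) (mem_cons (W23706 D T h) (mem_cons (W8363 D T h) (mem_cons (W14903 D T h) (mem_cons (W748 D T h) (mem_cons (W7109 D T h) (mem_cons (W257 D T h) (mem_cons (W21925 D T h) (mem_cons (W23675 D T h) (mem_cons (W13318 D T h) (mem_cons (W13320 D T h) (mem_cons (W23742 D T h) mem_nil))))))))))))))))))))))))))))) cl5350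
theorem W23743 : WFK w23743 := fun D T h => wf_of_chk h mem_nil (mem_cons (L5350 D T h) mem_nil) cw23743
theorem L5351 : LFK l5351 := fun D T h => lf_of_chk h (mem_cons (W7114 D T h) (mem_cons (W17438 D T h) (mem_cons (W1397 D T h) (mem_cons (W6587 D T h) (mem_cons (W12721 D T h) (mem_cons (W39 D T h) (mem_cons (W7110 D T h) (mem_cons (W16213 D T h) (mem_cons (W8363 D T h) (mem_cons (W748 D T h) (mem_cons (W7109 D T h) (mem_cons (W257 D T h) (mem_cons (W13320 D T h) (mem_cons (W5841 D T h) (mem_cons (W13318 D T h) mem_nil))))))))))))))) cl5351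
theorem W23744 : WFK w23744 := fun D T h => wf_of_chk h mem_nil (mem_cons (L5351 D T h) mem_nil) cw23744
theorem W23745 : WFK w23745 := fun D T h => wf_of_chk h (mem_cons (W16 D T h) (mem_cons (W7114 D T h) mem_nil)) mem_nil cw23745
theorem W23746 : WFK w23746 := fun D T h => wf_of_chk h (mem_cons (W284 D T h) (mem_cons (W7114 D T h) mem_nil)) mem_nil cw23746
theorem W23747 : WFK w23747 := fun D T h => wf_of_chk h mem_nil (mem_cons (L1945 D T h) mem_nil) cw23747
theorem L5352 : LFK l5352 := fun D T h => lf_of_chk h (mem_cons (W7114 D T h) (mem_cons (W15711 D T h) (mem_cons (W461 D T h) (mem_cons (W2325 D T h) (mem_cons (W10443 D T h) (mem_cons (W39 D T h) (mem_cons (W7110 D T h) (mem_cons (W6787 D T h) (mem_cons (W8363 D T h) (mem_cons (W14903 D T h) (mem_cons (W748 D T h) (mem_cons (W7109 D T h) (mem_cons (W257 D T h) (mem_cons (W13320 D T h) (mem_cons (W9025 D T h) (mem_cons (W13318 D T h) mem_nil)))))))))))))))) cl5352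
theorem W23748 : WFK w23748 := fun D T h => wf_of_chk h mem_nil (mem_cons (L5352 D T h) mem_nil) cw23748
theorem W23749 : WFK w23749 := fun D T h => wf_of_chk h (mem_cons (W5191 D T h) (mem_cons (W710 D T h) mem_nil)) mem_nil cw23749
theorem W23750 : WFK w23750 := fun D T h => wf_of_chk h mem_nil (mem_cons (L1942 D T h) mem_nil) cw23750
theorem L5353 : LFK l5353 := fun D T h => lf_of_chk h (mem_cons (W1101 D T h) (mem_cons (W32 D T h) (mem_cons (W2324 D T h) (mem_cons (W1343 D T h) mem_nil)))) cl5353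
theorem W23755 : WFK w23755 := fun D T h => wf_of_chk h mem_nil (mem_cons (L5353 D T h) mem_nil) cw23755
theorem L5354 : LFK l5354 := fun D T h => lf_of_chk h (mem_cons (W7114 D T h) (mem_cons (W15711 D T h) (mem_cons (W461 D T h) (mem_cons (W2325 D T h) (mem_cons (W23755 D T h) (mem_cons (W39 D T h) (mem_cons (W7110 D T h) (mem_cons (W18497 D T h) (mem_cons (W23741 D T h) (mem_cons (W2766 D T h) (mem_cons (W8363 D T h) (mem_cons (W14903 D T h) (mem_cons (W748 D T h) (mem_cons (W7109 D T h) (mem_cons (W257 D T h) (mem_cons (W13320 D T h) (mem_cons (W23742 D T h) (mem_cons (W13318 D T h) mem_nil)))))))))))))))))) cl5354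
theorem W23756 : WFK w23756 := fun D T h => wf_of_chk h mem_nil (mem_cons (L5354 D T h) mem_nil) cw23756
theorem L5355 : LFK l5355 := fun D T h => lf_of_chk h (mem_cons (W18484 D T h) (mem_cons (W7114 D T h) (mem_cons (W11140 D T h) (mem_cons (W2318 D T h) (mem_cons (W6433 D T h) (mem_cons (W710 D T h) (mem_cons (W18211 D T h) (mem_cons (W18179 D T h) (mem_cons (W23693 D T h) (mem_cons (W7212 D T h) (mem_cons (W11479 D T h) (mem_cons (W8516 D T h) (mem_cons (W11445 D T h) (mem_cons (W11481 D T h) (mem_cons (W23694 D T h) (mem_cons (W13431 D T h) (mem_cons (W23695 D T h) (mem_cons (W23744 D T h) (mem_cons (W23745 D T h) (mem_cons (W22300 D T h) (mem_cons (W23746 D T h) (mem_cons (W23747 D T h) (mem_cons (W23748 D T h) (mem_cons (W23749 D T h) (mem_cons (W23750 D T h) (mem_cons (W23756 D T h) (mem_cons (W12628 D T h) (mem_cons (W7878 D T h) (mem_cons (W11192 D T h) (mem_cons (W23701 D T h) (mem_cons (W23709 D T h) (mem_cons (W23714 D T h) (mem_cons (W23738 D T h) (mem_cons (W23739 D T h) (mem_cons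 (W23740 D T h) (mem_cons (W23743 D T h) (mem_cons (W23668 D T h) (mem_cons (W14400 D T h) (mem_cons (W23672 D T h) (mem_cons (W23673 D T h) (mem_cons (W23676 D T h) (mem_cons (W23677 D T h) (mem_cons (W23678 D T h) (mem_cons (W23679 D T h) (mem_cons (W18916 D T h) (mem_cons (W17986 D T h) (mem_cons (W23665 D T h) (mem_cons (W23683 D T h) mem_nil)))))))))))))))))))))))))))))))))))))))))))))))) cl5355
theorem W23757 : WFK w23757 := fun D T h => wf_of_chk h mem_nil (mem_cons (L5355 D T h) mem_nil) cw23757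
theorem W23758 : WFK w23758 := fun D T h => wf_of_chk h mem_nil (mem_cons (L5355 D T h) mem_nil) cw23758
theorem L5356 : LFK l5356 := fun D T h => lf_of_chk h (mem_cons (W15784 D T h) (mem_cons (W8563 D T h) (mem_cons (W15 D T h) (mem_cons (W15786 D T h) (mem_cons (W16972 D T h) (mem_cons (W17 D T h) (mem_cons (W12445 D T h) (mem_cons (W270 D T h) (mem_cons (W7212 D T h) (mem_cons (W8655 D T h) mem_nil)))))))))) cl5356
theorem W23759 : WFK w23759 := fun D T h => wf_of_chk h mem_nil (mem_cons (L5356 D T h) mem_nil) cw23759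
theorem W23760 : WFK w23760 := fun D T h => wf_of_chk h mem_nil (mem_cons (L3995 D T h) mem_nil) cw23760
theorem W23761 : WFK w23761 := fun D T h => wf_of_chk h mem_nil (mem_cons (L3995 D T h) mem_nil) cw23761
theorem W23763 : WFK w23763 := fun D T h => wf_of_chk h (mem_cons (W368 D T h) (mem_cons (W16 D T h) mem_nil)) mem_nil cw23763
theorem L5357 : LFK l5357 := fun D T h => lf_of_chk h (mem_cons (W15786 D T h) (mem_cons (W112 D T h) (mem_cons (W69 D T h) (mem_cons (W1112 D T h) (mem_cons (W539 D T h) (mem_cons (W88 D T h) (mem_cons (W2204 D T h) (mem_cons (W85 D T h) (mem_cons (W86 D T h) (mem_cons (W5736 D T h) (mem_cons (W5739 D T h) (mem_cons (W2227 D T h) mem_nil)))))))))))) cl5357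
theorem W23764 : WFK w23764 := fun D T h => wf_of_chk h mem_nil (mem_cons (L5357 D T h) mem_nil) cw23764
theorem L5358 : LFK l5358 := fun D T h => lf_of_chk h (mem_cons (W1398 D T h) (mem_cons (W16 D T h) (mem_cons (W15 D T h) (mem_cons (W11901 D T h) (mem_cons (W220 D T h) (mem_cons (W659 D T h) (mem_cons (W17 D T h) (mem_cons (W11704 D T h) (mem_cons (W4413 D T h) (mem_cons (W39 D T h) (mem_cons (W1388 D T h) (mem_cons (W2228 D T h) (mem_cons (W2726 D T h) (mem_cons (W15502 D T h) (mem_cons (W13215 D T h) (mem_cons (W21542 D T h) (mem_cons (W8274 D T h) (mem_cons (W20314 D T h) (mem_cons (W23764 D T h) (mem_cons (W9657 D T h) (mem_cons (W3409 D T h) (mem_cons (W505 D T h) (mem_cons (W1640 D T h) (mem_cons (W12721 D T h) (mem_cons (W19049 D T h) (mem_cons (W18252 D T h) mem_nil)))))))))))))))))))))))))) cl5358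
theorem W23765 : WFK w23765 := fun D T h => wf_of_chk h mem_nil (mem_cons (L5358 D T h) mem_nil) cw23765
theorem L5359 : LFK l5359 := fun D T h => lf_of_chk h (mem_cons (W1205 D T h) (mem_cons (W164 D T h) (mem_cons (W281 D T h) (mem_cons (W16 D T h) (mem_cons (W69 D T h) (mem_cons (W1929 D T h) (mem_cons (W1576 D T h) (mem_cons (W86 D T h) (mem_cons (W6714 D T h) (mem_cons (W5841 D T h) (mem_cons (W22945 D T h) (mem_cons (W220 D T h) (mem_cons (W14626 D T h) (mem_cons (W15280 D T h) (mem_cons (W13756 D T h) (mem_cons (W18453 D T h) (mem_cons (W9478 D T h) (mem_cons (W1139 D T h) (mem_cons (W11971 D T h) (mem_cons (W33 D T h) (mem_cons (W78 D T h) (mem_cons (W3766 D T h) (mem_cons (W2515 D T h) (mem_cons (W6568 D T h) (mem_cons (W970 D T h) (mem_cons (W937 D T h) mem_nil)))))))))))))))))))))))))) cl5359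
theorem W23766 : WFK w23766 := fun D T h => wf_of_chk h mem_nil (mem_cons (L5359 D T h) mem_nil) cw23766
theorem L5360 : LFK l5360 := fun D T h => lf_of_chk h (mem_cons (W209 D T h) (mem_cons (W16 D T h) (mem_cons (W15 D T h) (mem_cons (W23766 D T h) (mem_cons (W220 D T h) (mem_cons (W659 D T h) (mem_cons (W17 D T h) (mem_cons (W11704 D T h) (mem_cons (W86 D T h) (mem_cons (W1576 D T h) (mem_cons (W2532 D T h) (mem_cons (W2561 D T h) (mem_cons (W21542 D T h) (mem_cons (W2551 D T h) (mem_cons (W20314 D T h) (mem_cons (W3409 D T h) (mem_cons (W505 D T h) (mem_cons (W1640 D T h) (mem_cons (W1398 D T h) mem_nil))))))))))))))))))) cl5360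
theorem W23767 : WFK w23767 := fun D T h => wf_of_chk h mem_nil (mem_cons (L5360 D T h) mem_nil) cw23767
theorem L5361 : LFK l5361 := fun D T h => lf_of_chk h (mem_cons (W15883 D T h) (mem_cons (W18179 D T h) (mem_cons (W209 D T h) (mem_cons (W15784 D T h) (mem_cons (W5721 D T h) (mem_cons (W23760 D T h) (mem_cons (W23761 D T h) (mem_cons (W23767 D T h) (mem_cons (W16 D T h) (mem_cons (W2914 D T h) (mem_cons (W16499 D T h) (mem_cons (W17572 D T h) (mem_cons (W15825 D T h) (mem_cons (W22403 D T h) (mem_cons (W23759 D T h) (mem_cons (W23763 D T h) (mem_cons (W2015 D T h) (mem_cons (W23765 D T h) (mem_cons (W2037 D T h) (mem_cons (W10362 D T h) (mem_cons (W21466 D T h) mem_nil))))))))))))))))))))) cl5361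
theorem W23768 : WFK w23768 := fun D T h => wf_of_chk h mem_nil (mem_cons (L5361 D T h) mem_nil) cw23768
theorem W23769 : WFK w23769 := fun D T h => wf_of_chk h mem_nil (mem_cons (L787 D T h) mem_nil) cw23769
theorem W23770 : WFK w23770 := fun D T h => wf_of_chk h mem_nil (mem_cons (L2670 D T h) mem_nil) cw23770
theorem W23771 : WFK w23771 := fun D T h => wf_of_chk h (mem_cons (W348 D T h) (mem_cons (W16 D T h) mem_nil)) mem_nil cw23771
theorem W23772 : WFK w23772 := fun D T h => wf_of_chk h (mem_cons (W315 D T h) (mem_cons (W16 D T h) mem_nil)) mem_nil cw23772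
theorem W23773 : WFK w23773 := fun D T h => wf_of_chk h (mem_cons (W22969 D T h) (mem_cons (W16 D T h) mem_nil)) mem_nil cw23773
theorem L5362 : LFK l5362 := fun D T h => lf_of_chk h (mem_cons (W13743 D T h) (mem_cons (W7632 D T h) (mem_cons (W682 D T h) (mem_cons (W3518 D T h) (mem_cons (W16 D T h) (mem_cons (W23769 D T h) (mem_cons (W18075 D T h) (mem_cons (W23770 D T h) (mem_cons (W2015 D T h) (mem_cons (W8544 D T h) (mem_cons (W4209 D T h) (mem_cons (W1717 D T h) (mem_cons (W1716 D T h) (mem_cons (W128 D T h) (mem_cons (W5719 D T h) (mem_cons (W9771 D T h) (mem_cons (W5722 D T h) (mem_cons (W348 D T h) (mem_cons (W799 D T h) (mem_cons (W5701 D T h) (mem_cons (W551 D T h) (mem_cons (W5703 D T h) (mem_cons (W23771 D T h) (mem_cons (W553 D T h) (mem_cons (W23772 D T h) (mem_cons (W301 D T h) (mem_cons (W5730 D T h) (mem_cons (W5729 D T h) (mem_cons (W23773 D T h) mem_nil))))))))))))))))))))))))))))) cl5362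
theorem W23774 : WFK w23774 := fun D T h => wf_of_chk h mem_nil (mem_cons (L5362 D T h) mem_nil) cw23774
theorem W23775 : WFK w23775 := fun D T h => wf_of_chk h mem_nil (mem_cons (L84 D T h) mem_nil) cw23775
theorem L5363 : LFK l5363 := fun D T h => lf_of_chk h (mem_cons (W18 D T h) (mem_cons (W30 D T h) (mem_cons (W407 D T h) (mem_cons (W25 D T h) (mem_cons (W4073 D T h) mem_nil))))) cl5363
theorem W23776 : WFK w23776 := fun D T h => wf_of_chk h mem_nil (mem_cons (L5363 D T h) mem_nil) cw23776
theorem L5364 : LFK l5364 := fun D T h => lf_of_chk h (mem_cons (W263 D T h) (mem_cons (W42 D T h) (mem_cons (W162 D T h) (mem_cons (W39 D T h) (mem_cons (W3 D T h) (mem_cons (W154 D T h) (mem_cons (W348 D T h) (mem_cons (W350 D T h) (mem_cons (W23776 D T h) (mem_cons (W10076 D T h) (mem_cons (W346 D T h) (mem_cons (W345 D T h) (mem_cons (W347 D T h) (mem_cons (W301 D T h) (mem_cons (W259 D T h) (mem_cons (W7259 D T h) (mem_cons (W38 D T h) mem_nil))))))))))))))))) cl5364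
theorem W23777 : WFK w23777 := fun D T h => wf_of_chk h mem_nil (mem_cons (L5364 D T h) mem_nil) cw23777
theorem L5365 : LFK l5365 := fun D T h => lf_of_chk h (mem_cons (W5189 D T h) (mem_cons (W37 D T h) (mem_cons (W3518 D T h) (mem_cons (W263 D T h) (mem_cons (W7552 D T h) (mem_cons (W702 D T h) (mem_cons (W16566 D T h) (mem_cons (W1643 D T h) (mem_cons (W1061 D T h) (mem_cons (W23777 D T h) (mem_cons (W7113 D T h) (mem_cons (W23774 D T h) (mem_cons (W15638 D T h) (mem_cons (W23775 D T h) (mem_cons (W21275 D T h) (mem_cons (W13362 D T h) (mem_cons (W6840 D T h) (mem_cons (W4592 D T h) (mem_cons (W1295 D T h) (mem_cons (W22268 D T h) (mem_cons (W48 D T h) mem_nil))))))))))))))))))))) cl5365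
theorem W23778 : WFK w23778 := fun D T h => wf_of_chk h mem_nil (mem_cons (L5365 D T h) mem_nil) cw23778
theorem W23779 : WFK w23779 := fun D T h => wf_of_chk h (mem_cons (W6714 D T h) (mem_cons (W69 D T h) mem_nil)) mem_nil cw23779
theorem W23780 : WFK w23780 := fun D T h => wf_of_chk h (mem_cons (W6714 D T h) (mem_cons (W69 D T h) mem_nil)) mem_nil cw23780
theorem W23781 : WFK w23781 := fun D T h => wf_of_chk h (mem_cons (W12631 D T h) (mem_cons (W69 D T h) mem_nil)) mem_nil cw23781
theorem W23782 : WFK w23782 := fun D T h => wf_of_chk h (mem_cons (W6613 D T h) (mem_cons (W69 D T h) mem_nil)) mem_nil cw23782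
theorem W23783 : WFK w23783 := fun D T h => wf_of_chk h (mem_cons (W183 D T h) (mem_cons (W69 D T h) mem_nil)) mem_nil cw23783
theorem W23784 : WFK w23784 := fun D T h => wf_of_chk h (mem_cons (W3766 D T h) (mem_cons (W69 D T h) mem_nil)) mem_nil cw23784
theorem W23785 : WFK w23785 := fun D T h => wf_of_chk h (mem_cons (W18058 D T h) (mem_cons (W69 D T h) mem_nil)) mem_nil cw23785
theorem W23786 : WFK w23786 := fun D T h => wf_of_chk h (mem_cons (W7114 D T h) (mem_cons (W69 D T h) mem_nil)) mem_nil cw23786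
theorem W23787 : WFK w23787 := fun D T h => wf_of_chk h (mem_cons (W162 D T h) (mem_cons (W4547 D T h) mem_nil)) mem_nil cw23787
theorem W23788 : WFK w23788 := fun D T h => wf_of_chk h (mem_cons (W13182 D T h) (mem_cons (W16 D T h) mem_nil)) mem_nil cw23788
theorem W23789 : WFK w23789 := fun D T h => wf_of_chk h (mem_cons (W105 D T h) (mem_cons (W6613 D T h) mem_nil)) mem_nil cw23789
theorem W23790 : WFK w23790 := fun D T h => wf_of_chk h (mem_cons (W162 D T h) mem_nil) mem_nil cw23790
theorem W23791 : WFK w23791 := fun D T h => wf_of_chk h mem_nil (mem_cons (L756 D T h) mem_nil) cw23791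
theorem W23792 : WFK w23792 := fun D T h => wf_of_chk h (mem_cons (W263 D T h) mem_nil) mem_nil cw23792
theorem L5366 : LFK l5366 := fun D T h => lf_of_chk h (mem_cons (W15786 D T h) (mem_cons (W1637 D T h) (mem_cons (W78 D T h) (mem_cons (W539 D T h) (mem_cons (W33 D T h) (mem_cons (W17153 D T h) (mem_cons (W23790 D T h) (mem_cons (W23791 D T h) (mem_cons (W23792 D T h) mem_nil))))))))) cl5366
theorem W23793 : WFK w23793 := fun D T h => wf_of_chk h mem_nil (mem_cons (L5366 D T h) mem_nil) cw23793
theorem W23794 : WFK w23794 := fun D T h => wf_of_chk h (mem_cons (W23793 D T h) (mem_cons (W16 D T h) mem_nil)) mem_nil cw23794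
theorem W23795 : WFK w23795 := fun D T h => wf_of_chk h (mem_cons (W1637 D T h) (mem_cons (W6613 D T h) mem_nil)) mem_nil cw23795
theorem W23796 : WFK w23796 := fun D T h => wf_of_chk h (mem_cons (W112 D T h) (mem_cons (W6613 D T h) mem_nil)) mem_nil cw23796
theorem L5367 : LFK l5367 := fun D T h => lf_of_chk h (mem_cons (W23105 D T h) (mem_cons (W8255 D T h) (mem_cons (W126 D T h) (mem_cons (W9025 D T h) (mem_cons (W2936 D T h) (mem_cons (W10366 D T h) (mem_cons (W8783 D T h) (mem_cons (W16 D T h) (mem_cons (W7395 D T h) (mem_cons (W1149 D T h) (mem_cons (W23779 D T h) (mem_cons (W23780 D T h) (mem_cons (W23786 D T h) (mem_cons (W10822 D T h) (mem_cons (W23787 D T h) (mem_cons (W23782 D T h) (mem_cons (W12634 D T h) (mem_cons (W23781 D T h) (mem_cons (W14935 D T h) (mem_cons (W15883 D T h) (mem_cons (W15884 D T h) (mem_cons (W284 D T h) (mem_cons (W23783 D T h) (mem_cons (W15166 D T h) (mem_cons (W12621 D T h) (mem_cons (W18058 D T h) (mem_cons (W23784 D T h) (mem_cons (W23785 D T h) (mem_cons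 (W7880 D T h) (mem_cons (W7401 D T h) (mem_cons (W181 D T h) (mem_cons (W13183 D T h) (mem_cons (W23788 D T h) (mem_cons (W23789 D T h) (mem_cons (W15786 D T h) (mem_cons (W14094 D T h) (mem_cons (W13801 D T h) (mem_cons (W14304 D T h) (mem_cons (W13897 D T h) (mem_cons (W461 D T h) (mem_cons (W23794 D T h) (mem_cons (W1929 D T h) (mem_cons (W23795 D T h) (mem_cons (W23796 D T h) (mem_cons (W2346 D T h) (mem_cons (W16535 D T h) mem_nil)))))))))))))))))))))))))))))))))))))))))))))) cl5367
theorem W23797 : WFK w23797 := fun D T h => wf_of_chk h mem_nil (mem_cons (L5367 D T h) mem_nil) cw23797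
theorem W23798 : WFK w23798 := fun D T h => wf_of_chk h (mem_cons (W162 D T h) mem_nil) mem_nil cw23798
theorem L5368 : LFK l5368 := fun D T h => lf_of_chk h (mem_cons (W15786 D T h) (mem_cons (W12631 D T h) (mem_cons (W15760 D T h) (mem_cons (W80 D T h) (mem_cons (W162 D T h) (mem_cons (W17153 D T h) (mem_cons (W87 D T h) (mem_cons (W23798 D T h) (mem_cons (W4162 D T h) (mem_cons (W5472 D T h) mem_nil)))))))))) cl5368
theorem W23799 : WFK w23799 := fun D T h => wf_of_chk h mem_nil (mem_cons (L5368 D T h) mem_nil) cw23799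
theorem W23800 : WFK w23800 := fun D T h => wf_of_chk h mem_nil (mem_cons (L3421 D T h) mem_nil) cw23800
theorem W23801 : WFK w23801 := fun D T h => wf_of_chk h (mem_cons (W267 D T h) (mem_cons (W368 D T h) mem_nil)) mem_nil cw23801
theorem W23802 : WFK w23802 := fun D T h => wf_of_chk h mem_nil (mem_cons (L117 D T h) mem_nil) cw23802
theorem W23803 : WFK w23803 := fun D T h => wf_of_chk h mem_nil (mem_cons (L5213 D T h) mem_nil) cw23803
theorem L5369 : LFK l5369 := fun D T h => lf_of_chk h (mem_cons (W870 D T h) (mem_cons (W6 D T h) (mem_cons (W860 D T h) (mem_cons (W11 D T h) (mem_cons (W10099 D T h) (mem_cons (W872 D T h) (mem_cons (W44 D T h) mem_nil))))))) cl5369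
theorem W23804 : WFK w23804 := fun D T h => wf_of_chk h mem_nil (mem_cons (L5369 D T h) mem_nil) cw23804
theorem L5370 : LFK l5370 := fun D T h => lf_of_chk h (mem_cons (W870 D T h) (mem_cons (W4 D T h) (mem_cons (W860 D T h) (mem_cons (W11 D T h) (mem_cons (W10099 D T h) (mem_cons (W872 D T h) (mem_cons (W44 D T h) mem_nil))))))) cl5370
theorem W23805 : WFK w23805 := fun D T h => wf_of_chk h mem_nil (mem_cons (L5370 D T h) mem_nil) cw23805
theorem L5371 : LFK l5371 := fun D T h => lf_of_chk h (mem_cons (W18348 D T h) (mem_cons (W7495 D T h) (mem_cons (W1535 D T h) (mem_cons (W287 D T h) (mem_cons (W390 D T h) (mem_cons (W22024 D T h) (mem_cons (W2304 D T h) (mem_cons (W23305 D T h) (mem_cons (W23316 D T h) (mem_cons (W4262 D T h) (mem_cons (W15784 D T h) (mem_cons (W2766 D T h) (mem_cons (W8107 D T h) (mem_cons (W4369 D T h) (mem_cons (W1654 D T h) (mem_cons (W23319 D T h) (mem_cons (W23317 D T h) (mem_cons (W18346 D T h) (mem_cons (W23318 D T h) (mem_cons (W23802 D T h) (mem_cons (W23803 D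 T h) (mem_cons (W23133 D T h) (mem_cons (W12934 D T h) (mem_cons (W23804 D T h) (mem_cons (W69 D T h) (mem_cons (W23805 D T h) mem_nil)))))))))))))))))))))))))) cl5371
theorem W23806 : WFK w23806 := fun D T h => wf_of_chk h mem_nil (mem_cons (L5371 D T h) mem_nil) cw23806
theorem W23807 : WFK w23807 := fun D T h => wf_of_chk h (mem_cons (W2685 D T h) (mem_cons (W16 D T h) mem_nil)) mem_nil cw23807
theorem W23808 : WFK w23808 := fun D T h => wf_of_chk h (mem_cons (W23584 D T h) (mem_cons (W16 D T h) mem_nil)) mem_nil cw23808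
theorem W23809 : WFK w23809 := fun D T h => wf_of_chk h (mem_cons (W13545 D T h) (mem_cons (W16 D T h) mem_nil)) mem_nil cw23809
theorem W23810 : WFK w23810 := fun D T h => wf_of_chk h (mem_cons (W23436 D T h) (mem_cons (W16 D T h) mem_nil)) mem_nil cw23810
theorem W23811 : WFK w23811 := fun D T h => wf_of_chk h (mem_cons (W23436 D T h) (mem_cons (W16 D T h) mem_nil)) mem_nil cw23811
theorem W23812 : WFK w23812 := fun D T h => wf_of_chk h (mem_cons (W10253 D T h) (mem_cons (W16 D T h) mem_nil)) mem_nil cw23812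
theorem W23813 : WFK w23813 := fun D T h => wf_of_chk h (mem_cons (W162 D T h) (mem_cons (W10253 D T h) mem_nil)) mem_nil cw23813
theorem W23814 : WFK w23814 := fun D T h => wf_of_chk h (mem_cons (W18364 D T h) (mem_cons (W16 D T h) mem_nil)) mem_nil cw23814
theorem W23815 : WFK w23815 := fun D T h => wf_of_chk h mem_nil (mem_cons (L4745 D T h) mem_nil) cw23815
theorem L5372 : LFK l5372 := fun D T h => lf_of_chk h (mem_cons (W7578 D T h) (mem_cons (W3006 D T h) (mem_cons (W368 D T h) (mem_cons (W2936 D T h) (mem_cons (W8783 D T h) (mem_cons (W9025 D T h) (mem_cons (W23368 D T h) (mem_cons (W2050 D T h) (mem_cons (W22196 D T h) (mem_cons (W23812 D T h) (mem_cons (W7994 D T h) (mem_cons (W2157 D T h) (mem_cons (W7441 D T h) (mem_cons (W23814 D T h) (mem_cons (W16 D T h) (mem_cons (W23799 D T h) (mem_cons (W13466 D T h) (mem_cons (W23800 D T h) (mem_cons (W15486 D T h) (mem_cons (W2934 D T h) (mem_cons (W23813 D T h) (mem_cons (W12634 D T h) (mem_cons (W8153 D T h) (mem_cons (W23801 D T h) (mem_cons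 (W15884 D T h) (mem_cons (W15883 D T h) (mem_cons (W284 D T h) (mem_cons (W23806 D T h) (mem_cons (W9412 D T h) (mem_cons (W23807 D T h) (mem_cons (W9411 D T h) (mem_cons (W18058 D T h) (mem_cons (W23808 D T h) (mem_cons (W22084 D T h) (mem_cons (W23809 D T h) (mem_cons (W23810 D T h) (mem_cons (W23811 D T h) (mem_cons (W457 D T h) (mem_cons (W7859 D T h) (mem_cons (W21424 D T h) (mem_cons (W23815 D T h) (mem_cons (W23805 D T h) (mem_cons (W21985 D T h) (mem_cons (W19874 D T h) mem_nil)))))))))))))))))))))))))))))))))))))))))))) cl5372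
theorem W23816 : WFK w23816 := fun D T h => wf_of_chk h mem_nil (mem_cons (L5372 D T h) mem_nil) cw23816
theorem W23817 : WFK w23817 := fun D T h => wf_of_chk h mem_nil (mem_cons (L3852 D T h) mem_nil) cw23817
theorem W23818 : WFK w23818 := fun D T h => wf_of_chk h mem_nil (mem_cons (L4791 D T h) mem_nil) cw23818
theorem W23819 : WFK w23819 := fun D T h => wf_of_chk h mem_nil (mem_cons (L4791 D T h) mem_nil) cw23819
theorem W23820 : WFK w23820 := fun D T h => wf_of_chk h (mem_cons (W12631 D T h) (mem_cons (W69 D T h) mem_nil)) mem_nil cw23820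
theorem W23821 : WFK w23821 := fun D T h => wf_of_chk h mem_nil (mem_cons (L4229 D T h) mem_nil) cw23821
theorem W23822 : WFK w23822 := fun D T h => wf_of_chk h mem_nil (mem_cons (L1262 D T h) mem_nil) cw23822
theorem W23824 : WFK w23824 := fun D T h => wf_of_chk h mem_nil (mem_cons (L3144 D T h) mem_nil) cw23824
theorem W23825 : WFK w23825 := fun D T h => wf_of_chk h (mem_cons (W16271 D T h) (mem_cons (W16 D T h) mem_nil)) mem_nil cw23825
theorem L5374 : LFK l5374 := fun D T h => lf_of_chk h (mem_cons (W15784 D T h) (mem_cons (W7114 D T h) (mem_cons (W16972 D T h) (mem_cons (W1198 D T h) (mem_cons (W16604 D T h) (mem_cons (W15786 D T h) (mem_cons (W14932 D T h) (mem_cons (W14336 D T h) (mem_cons (W14934 D T h) (mem_cons (W164 D T h) (mem_cons (W42 D T h) (mem_cons (W12275 D T h) (mem_cons (W14935 D T h) mem_nil))))))))))))) cl5374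
theorem W23826 : WFK w23826 := fun D T h => wf_of_chk h mem_nil (mem_cons (L5374 D T h) mem_nil) cw23826
theorem W23827 : WFK w23827 := fun D T h => wf_of_chk h (mem_cons (W162 D T h) (mem_cons (W22921 D T h) mem_nil)) mem_nil cw23827
theorem W23828 : WFK w23828 := fun D T h => wf_of_chk h (mem_cons (W69 D T h) mem_nil) mem_nil cw23828
theorem W23829 : WFK w23829 := fun D T h => wf_of_chk h mem_nil (mem_cons (L4017 D T h) mem_nil) cw23829
theorem W23830 : WFK w23830 := fun D T h => wf_of_chk h (mem_cons (W2740 D T h) (mem_cons (W69 D T h) mem_nil)) mem_nil cw23830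
theorem W23831 : WFK w23831 := fun D T h => wf_of_chk h (mem_cons (W112 D T h) (mem_cons (W69 D T h) mem_nil)) mem_nil cw23831
theorem W23832 : WFK w23832 := fun D T h => wf_of_chk h (mem_cons (W112 D T h) (mem_cons (W69 D T h) mem_nil)) mem_nil cw23832
theorem W23833 : WFK w23833 := fun D T h => wf_of_chk h (mem_cons (W2729 D T h) (mem_cons (W69 D T h) mem_nil)) mem_nil cw23833
theorem W23834 : WFK w23834 := fun D T h => wf_of_chk h mem_nil (mem_cons (L4122 D T h) mem_nil) cw23834
theorem L5375 : LFK l5375 := fun D T h => lf_of_chk h (mem_cons (W12634 D T h) (mem_cons (W15249 D T h) (mem_cons (W22368 D T h) (mem_cons (W23828 D T h) (mem_cons (W15 D T h) (mem_cons (W220 D T h) (mem_cons (W19138 D T h) (mem_cons (W22612 D T h) (mem_cons (W2538 D T h) (mem_cons (W13637 D T h) (mem_cons (W8249 D T h) (mem_cons (W8331 D T h) (mem_cons (W21495 D T h) (mem_cons (W22271 D T h) (mem_cons (W3783 D T h) (mem_cons (W23829 D T h) (mem_cons (W871 D T h) (mem_cons (W5450 D T h) (mem_cons (W638 D T h) (mem_cons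 (W23830 D T h) (mem_cons (W22585 D T h) (mem_cons (W23821 D T h) (mem_cons (W14204 D T h) (mem_cons (W23822 D T h) (mem_cons (W42 D T h) (mem_cons (W23833 D T h) (mem_cons (W23834 D T h) (mem_cons (W23831 D T h) (mem_cons (W23832 D T h) mem_nil))))))))))))))))))))))))))))) cl5375
theorem W23835 : WFK w23835 := fun D T h => wf_of_chk h mem_nil (mem_cons (L5375 D T h) mem_nil) cw23835
theorem W23836 : WFK w23836 := fun D T h => wf_of_chk h (mem_cons (W5991 D T h) (mem_cons (W16 D T h) mem_nil)) mem_nil cw23836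
theorem W23837 : WFK w23837 := fun D T h => wf_of_chk h (mem_cons (W12631 D T h) (mem_cons (W16 D T h) mem_nil)) mem_nil cw23837
theorem W23838 : WFK w23838 := fun D T h => wf_of_chk h mem_nil (mem_cons (L385 D T h) mem_nil) cw23838
theorem L5376 : LFK l5376 := fun D T h => lf_of_chk h (mem_cons (W8756 D T h) (mem_cons (W8255 D T h) (mem_cons (W281 D T h) (mem_cons (W2645 D T h) (mem_cons (W1637 D T h) (mem_cons (W2160 D T h) (mem_cons (W2107 D T h) (mem_cons (W2089 D T h) (mem_cons (W23838 D T h) (mem_cons (W11326 D T h) (mem_cons (W11446 D T h) (mem_cons (W17178 D T h) (mem_cons (W16 D T h) (mem_cons (W391 D T h) (mem_cons (W7265 D T h) (mem_cons (W22230 D T h) (mem_cons (W19771 D T h) (mem_cons (W14150 D T h) (mem_cons (W284 D T h) (mem_cons (W2934 D T h) (mem_cons (W14301 D T h) (mem_cons (W15784 D T h) (mem_cons (W14215 D T h) (mem_cons (W15883 D T h) (mem_cons (W20263 D T h) (mem_cons (W14274 D T h) (mem_cons (W15884 D T h) (mem_cons (W19693 D T h) (mem_cons (W381 D T h) (mem_cons (W14296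 D T h) (mem_cons (W23475 D T h) (mem_cons (W7250 D T h) (mem_cons (W5247 D T h) (mem_cons (W14336 D T h) (mem_cons (W11584 D T h) mem_nil))))))))))))))))))))))))))))))))))) cl5376
theorem W23839 : WFK w23839 := fun D T h => wf_of_chk h mem_nil (mem_cons (L5376 D T h) mem_nil) cw23839
theorem W23840 : WFK w23840 := fun D T h => wf_of_chk h mem_nil (mem_cons (L5376 D T h) mem_nil) cw23840
theorem L5377 : LFK l5377 := fun D T h => lf_of_chk h (mem_cons (W23817 D T h) (mem_cons (W8255 D T h) (mem_cons (W69 D T h) (mem_cons (W9025 D T h) (mem_cons (W10366 D T h) (mem_cons (W8783 D T h) (mem_cons (W2936 D T h) (mem_cons (W23368 D T h) (mem_cons (W21248 D T h) (mem_cons (W7424 D T h) (mem_cons (W8419 D T h) (mem_cons (W21081 D T h) (mem_cons (W21296 D T h) (mem_cons (W23836 D T h) (mem_cons (W12628 D T h) (mem_cons (W16 D T h) (mem_cons (W15249 D T h) (mem_cons (W13466 D T h) (mem_cons (W23818 D T h) (mem_cons (W23819 D T h) (mem_cons (W23826 D T h) (mem_cons (W2934 D T h) (mem_cons (W23827 D T h) (mem_cons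 (W23835 D T h) (mem_cons (W15784 D T h) (mem_cons (W23820 D T h) (mem_cons (W15883 D T h) (mem_cons (W15884 D T h) (mem_cons (W18086 D T h) (mem_cons (W23603 D T h) (mem_cons (W23824 D T h) (mem_cons (W12621 D T h) (mem_cons (W18058 D T h) (mem_cons (W23825 D T h) (mem_cons (W23837 D T h) (mem_cons (W3978 D T h) (mem_cons (W181 D T h) (mem_cons (W15887 D T h) (mem_cons (W13801 D T h) (mem_cons (W8756 D T h) (mem_cons (W13897 D T h) (mem_cons (W1919 D T h) (mem_cons (W1929 D T h) (mem_cons (W23839 D T h) (mem_cons (W23840 D T h) mem_nil))))))))))))))))))))))))))))))))))))))))))))) cl5377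
theorem W23841 : WFK w23841 := fun D T h => wf_of_chk h mem_nil (mem_cons (L5377 D T h) mem_nil) cw23841
theorem W23842 : WFK w23842 := fun D T h => wf_of_chk h mem_nil (mem_cons (L2627 D T h) mem_nil) cw23842
theorem W23843 : WFK w23843 := fun D T h => wf_of_chk h mem_nil (mem_cons (L2627 D T h) mem_nil) cw23843
theorem W23845 : WFK w23845 := fun D T h => wf_of_chk h (mem_cons (W1801 D T h) (mem_cons (W16 D T h) mem_nil)) mem_nil cw23845
theorem W23846 : WFK w23846 := fun D T h => wf_of_chk h (mem_cons (W1907 D T h) (mem_cons (W69 D T h) mem_nil)) mem_nil cw23846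
theorem W23847 : WFK w23847 := fun D T h => wf_of_chk h (mem_cons (W1193 D T h) (mem_cons (W69 D T h) mem_nil)) mem_nil cw23847
theorem W23848 : WFK w23848 := fun D T h => wf_of_chk h (mem_cons (W1907 D T h) (mem_cons (W69 D T h) mem_nil)) mem_nil cw23848
theorem W23849 : WFK w23849 := fun D T h => wf_of_chk h (mem_cons (W1346 D T h) (mem_cons (W69 D T h) mem_nil)) mem_nil cw23849
theorem W23850 : WFK w23850 := fun D T h => wf_of_chk h (mem_cons (W162 D T h) (mem_cons (W15249 D T h) mem_nil)) mem_nil cw23850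
theorem W23851 : WFK w23851 := fun D T h => wf_of_chk h (mem_cons (W2885 D T h) (mem_cons (W69 D T h) mem_nil)) mem_nil cw23851
theorem L5378 : LFK l5378 := fun D T h => lf_of_chk h (mem_cons (W7578 D T h) (mem_cons (W3006 D T h) (mem_cons (W69 D T h) (mem_cons (W2936 D T h) (mem_cons (W8783 D T h) (mem_cons (W9025 D T h) (mem_cons (W23368 D T h) (mem_cons (W23843 D T h) (mem_cons (W22196 D T h) (mem_cons (W23849 D T h) (mem_cons (W22596 D T h) (mem_cons (W2157 D T h) (mem_cons (W22598 D T h) (mem_cons (W7994 D T h) (mem_cons (W15883 D T h) (mem_cons (W23851 D T h) (mem_cons (W16 D T h) (mem_cons (W23842 D T h) (mem_cons (W13466 D T h) (mem_cons (W15486 D T h) (mem_cons (W10822 D T h) (mem_cons (W23850 D T h) (mem_cons (W12634 D T h) (mem_cons (W8153 D T h) (mem_cons (W22574 D T h) (mem_cons (W15884 D T h) (mem_cons (W284 D T h) (mem_cons (W9412 D T h) (mem_cons (W23845 D T h) (mem_cons (W9411 D T h) (mem_cons (W18058 D T h) (mem_cons (W23846 D T h) (mem_cons (W22084 D T h) (mem_cons (W22343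 D T h) (mem_cons (W23847 D T h) (mem_cons (W23848 D T h) (mem_cons (W2834 D T h) (mem_cons (W21985 D T h) (mem_cons (W21424 D T h) (mem_cons (W23815 D T h) (mem_cons (W23805 D T h) mem_nil))))))))))))))))))))))))))))))))))))))))) cl5378
theorem W23852 : WFK w23852 := fun D T h => wf_of_chk h mem_nil (mem_cons (L5378 D T h) mem_nil) cw23852
theorem W23853 : WFK w23853 := fun D T h => wf_of_chk h (mem_cons (W3878 D T h) (mem_cons (W2375 D T h) mem_nil)) mem_nil cw23853
theorem W23854 : WFK w23854 := fun D T h => wf_of_chk h (mem_cons (W1211 D T h) (mem_cons (W710 D T h) mem_nil)) mem_nil cw23854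
theorem W23855 : WFK w23855 := fun D T h => wf_of_chk h (mem_cons (W158 D T h) (mem_cons (W167 D T h) mem_nil)) mem_nil cw23855
theorem W23856 : WFK w23856 := fun D T h => wf_of_chk h (mem_cons (W161 D T h) (mem_cons (W167 D T h) mem_nil)) mem_nil cw23856
theorem W23857 : WFK w23857 := fun D T h => wf_of_chk h mem_nil (mem_cons (L3008 D T h) mem_nil) cw23857
theorem L5379 : LFK l5379 := fun D T h => lf_of_chk h (mem_cons (W5721 D T h) (mem_cons (W167 D T h) (mem_cons (W1 D T h) (mem_cons (W797 D T h) (mem_cons (W535 D T h) (mem_cons (W7076 D T h) (mem_cons (W4038 D T h) (mem_cons (W5157 D T h) (mem_cons (W2834 D T h) (mem_cons (W2828 D T h) (mem_cons (W181 D T h) (mem_cons (W23855 D T h) (mem_cons (W7719 D T h) (mem_cons (W8424 D T h) (mem_cons (W16080 D T h) (mem_cons (W7550 D T h) (mem_cons (W1919 D T h) (mem_cons (W34 D T h) (mem_cons (W23856 D T h) (mem_cons (W6740 D T h) (mem_cons (W1690 D T h) (mem_cons (W23857 D T h) mem_nil)))))))))))))))))))))) cl5379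
theorem W23858 : WFK w23858 := fun D T h => wf_of_chk h mem_nil (mem_cons (L5379 D T h) mem_nil) cw23858
theorem L5380 : LFK l5380 := fun D T h => lf_of_chk h (mem_cons (W19479 D T h) (mem_cons (W83 D T h) (mem_cons (W220 D T h) (mem_cons (W401 D T h) (mem_cons (W1326 D T h) (mem_cons (W13616 D T h) (mem_cons (W19343 D T h) (mem_cons (W888 D T h) (mem_cons (W6645 D T h) (mem_cons (W6797 D T h) mem_nil)))))))))) cl5380
theorem W23859 : WFK w23859 := fun D T h => wf_of_chk h mem_nil (mem_cons (L5380 D T h) mem_nil) cw23859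
theorem W23860 : WFK w23860 := fun D T h => wf_of_chk h mem_nil (mem_cons (L3113 D T h) mem_nil) cw23860
theorem W23861 : WFK w23861 := fun D T h => wf_of_chk h mem_nil (mem_cons (L2472 D T h) mem_nil) cw23861
theorem W23862 : WFK w23862 := fun D T h => wf_of_chk h (mem_cons (W255 D T h) (mem_cons (W16 D T h) mem_nil)) mem_nil cw23862
theorem W23863 : WFK w23863 := fun D T h => wf_of_chk h (mem_cons (W2357 D T h) (mem_cons (W16 D T h) mem_nil)) mem_nil cw23863
theorem W23864 : WFK w23864 := fun D T h => wf_of_chk h (mem_cons (W69 D T h) (mem_cons (W3356 D T h) mem_nil)) mem_nil cw23864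
theorem L5381 : LFK l5381 := fun D T h => lf_of_chk h (mem_cons (W7114 D T h) (mem_cons (W34 D T h) (mem_cons (W461 D T h) (mem_cons (W13539 D T h) (mem_cons (W3356 D T h) (mem_cons (W5841 D T h) (mem_cons (W6714 D T h) (mem_cons (W18528 D T h) (mem_cons (W23863 D T h) (mem_cons (W2766 D T h) (mem_cons (W16464 D T h) (mem_cons (W23864 D T h) (mem_cons (W18364 D T h) (mem_cons (W18366 D T h) (mem_cons (W401 D T h) (mem_cons (W21925 D T h) (mem_cons (W6645 D T h) (mem_cons (W23862 D T h) (mem_cons (W23034 D T h) (mem_cons (W6372 D T h) (mem_cons (W19479 D T h) mem_nil))))))))))))))))))))) cl5381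
theorem W23865 : WFK w23865 := fun D T h => wf_of_chk h mem_nil (mem_cons (L5381 D T h) mem_nil) cw23865
theorem W23866 : WFK w23866 := fun D T h => wf_of_chk h (mem_cons (W1846 D T h) (mem_cons (W16 D T h) mem_nil)) mem_nil cw23866
theorem L5382 : LFK l5382 := fun D T h => lf_of_chk h (mem_cons (W19479 D T h) (mem_cons (W83 D T h) (mem_cons (W220 D T h) (mem_cons (W401 D T h) (mem_cons (W19343 D T h) (mem_cons (W1326 D T h) (mem_cons (W16 D T h) (mem_cons (W257 D T h) (mem_cons (W2515 D T h) (mem_cons (W250 D T h) (mem_cons (W178 D T h) (mem_cons (W6797 D T h) (mem_cons (W6782 D T h) (mem_cons (W13623 D T h) (mem_cons (W2948 D T h) (mem_cons (W7282 D T h) (mem_cons (W23866 D T h) (mem_cons (W2766 D T h) (mem_cons (W6807 D T h) (mem_cons (W23435 D T h) (mem_cons (W23436 D T h) (mem_cons (W23437 D T h) (mem_cons (W21925 D T h) (mem_cons (W2724 D T h) mem_nil)))))))))))))))))))))))) cl5382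
theorem W23867 : WFK w23867 := fun D T h => wf_of_chk h mem_nil (mem_cons (L5382 D T h) mem_nil) cw23867
theorem W23868 : WFK w23868 := fun D T h => wf_of_chk h (mem_cons (W14154 D T h) mem_nil) mem_nil cw23868
theorem W23869 : WFK w23869 := fun D T h => wf_of_chk h (mem_cons (W112 D T h) (mem_cons (W14154 D T h) mem_nil)) mem_nil cw23869
theorem W23870 : WFK w23870 := fun D T h => wf_of_chk h (mem_cons (W69 D T h) (mem_cons (W14154 D T h) mem_nil)) mem_nil cw23870
theorem L5383 : LFK l5383 := fun D T h => lf_of_chk h (mem_cons (W15786 D T h) (mem_cons (W23859 D T h) (mem_cons (W1 D T h) (mem_cons (W69 D T h) (mem_cons (W15760 D T h) (mem_cons (W91 D T h) (mem_cons (W17153 D T h) (mem_cons (W13142 D T h) (mem_cons (W23868 D T h) (mem_cons (W111 D T h) (mem_cons (W370 D T h) (mem_cons (W23869 D T h) (mem_cons (W721 D T h) (mem_cons (W114 D T h) (mem_cons (W267 D T h) (mem_cons (W23870 D T h) mem_nil)))))))))))))))) cl5383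
theorem W23871 : WFK w23871 := fun D T h => wf_of_chk h mem_nil (mem_cons (L5383 D T h) mem_nil) cw23871
theorem W23872 : WFK w23872 := fun D T h => wf_of_chk h (mem_cons (W162 D T h) (mem_cons (W14154 D T h) mem_nil)) mem_nil cw23872
theorem W23873 : WFK w23873 := fun D T h => wf_of_chk h mem_nil (mem_cons (L5362 D T h) mem_nil) cw23873
theorem W23874 : WFK w23874 := fun D T h => wf_of_chk h (mem_cons (W433 D T h) (mem_cons (W16 D T h) mem_nil)) mem_nil cw23874
theorem L5384 : LFK l5384 := fun D T h => lf_of_chk h (mem_cons (W12 D T h) (mem_cons (W26 D T h) (mem_cons (W861 D T h) (mem_cons (W1246 D T h) mem_nil)))) cl5384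
theorem W23875 : WFK w23875 := fun D T h => wf_of_chk h mem_nil (mem_cons (L5384 D T h) mem_nil) cw23875
theorem L5385 : LFK l5385 := fun D T h => lf_of_chk h (mem_cons (W6960 D T h) (mem_cons (W12 D T h) (mem_cons (W831 D T h) mem_nil))) cl5385
theorem W23876 : WFK w23876 := fun D T h => wf_of_chk h mem_nil (mem_cons (L5385 D T h) mem_nil) cw23876
theorem W23877 : WFK w23877 := fun D T h => wf_of_chk h (mem_cons (W5580 D T h) mem_nil) mem_nil cw23877
theorem W23878 : WFK w23878 := fun D T h => wf_of_chk h mem_nil (mem_cons (L5385 D T h) mem_nil) cw23878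
theorem L5386 : LFK l5386 := fun D T h => lf_of_chk h (mem_cons (W11878 D T h) (mem_cons (W433 D T h) (mem_cons (W428 D T h) (mem_cons (W2122 D T h) (mem_cons (W4593 D T h) (mem_cons (W14815 D T h) (mem_cons (W11489 D T h) (mem_cons (W12 D T h) (mem_cons (W7305 D T h) (mem_cons (W13 D T h) (mem_cons (W23877 D T h) (mem_cons (W17299 D T h) (mem_cons (W17065 D T h) (mem_cons (W23878 D T h) (mem_cons (W4701 D T h) (mem_cons (W14359 D T h) (mem_cons (W23875 D T h) (mem_cons (W23876 D T h) mem_nil)))))))))))))))))) cl5386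
theorem W23879 : WFK w23879 := fun D T h => wf_of_chk h mem_nil (mem_cons (L5386 D T h) mem_nil) cw23879
theorem W23880 : WFK w23880 := fun D T h => wf_of_chk h (mem_cons (W23879 D T h) (mem_cons (W16 D T h) mem_nil)) mem_nil cw23880
theorem W23881 : WFK w23881 := fun D T h => wf_of_chk h mem_nil (mem_cons (L2400 D T h) mem_nil) cw23881
theorem W23882 : WFK w23882 := fun D T h => wf_of_chk h (mem_cons (W7559 D T h) (mem_cons (W16 D T h) mem_nil)) mem_nil cw23882
theorem W23883 : WFK w23883 := fun D T h => wf_of_chk h (mem_cons (W5415 D T h) (mem_cons (W16 D T h) mem_nil)) mem_nil cw23883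
theorem L5387 : LFK l5387 := fun D T h => lf_of_chk h (mem_cons (W19479 D T h) (mem_cons (W83 D T h) (mem_cons (W401 D T h) (mem_cons (W220 D T h) (mem_cons (W19343 D T h) (mem_cons (W1326 D T h) (mem_cons (W13616 D T h) (mem_cons (W257 D T h) (mem_cons (W367 D T h) (mem_cons (W179 D T h) (mem_cons (W6797 D T h) (mem_cons (W7534 D T h) (mem_cons (W23883 D T h) (mem_cons (W2766 D T h) (mem_cons (W2724 D T h) mem_nil))))))))))))))) cl5387
theorem W23884 : WFK w23884 := fun D T h => wf_of_chk h mem_nil (mem_cons (L5387 D T h) mem_nil) cw23884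
theorem W23885 : WFK w23885 := fun D T h => wf_of_chk h mem_nil (mem_cons (L274 D T h) mem_nil) cw23885
theorem W23886 : WFK w23886 := fun D T h => wf_of_chk h (mem_cons (W7689 D T h) (mem_cons (W16 D T h) mem_nil)) mem_nil cw23886
theorem W23887 : WFK w23887 := fun D T h => wf_of_chk h (mem_cons (W7408 D T h) (mem_cons (W16 D T h) mem_nil)) mem_nil cw23887
theorem W23888 : WFK w23888 := fun D T h => wf_of_chk h (mem_cons (W7156 D T h) (mem_cons (W16 D T h) mem_nil)) mem_nil cw23888
theorem L5388 : LFK l5388 := fun D T h => lf_of_chk h (mem_cons (W19343 D T h) (mem_cons (W2119 D T h) (mem_cons (W11283 D T h) (mem_cons (W2489 D T h) (mem_cons (W23380 D T h) (mem_cons (W1128 D T h) (mem_cons (W9311 D T h) (mem_cons (W5415 D T h) (mem_cons (W4548 D T h) (mem_cons (W2515 D T h) (mem_cons (W1801 D T h) (mem_cons (W15197 D T h) (mem_cons (W370 D T h) (mem_cons (W112 D T h) (mem_cons (W178 D T h) (mem_cons (W23013 D T h) (mem_cons (W23886 D T h) (mem_cons (W2766 D T h) (mem_cons (W12980 D T h) (mem_cons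 (W23387 D T h) (mem_cons (W23388 D T h) (mem_cons (W23389 D T h) (mem_cons (W23390 D T h) (mem_cons (W401 D T h) (mem_cons (W21925 D T h) (mem_cons (W6645 D T h) (mem_cons (W12907 D T h) (mem_cons (W23887 D T h) (mem_cons (W23888 D T h) mem_nil))))))))))))))))))))))))))))) cl5388
theorem W23889 : WFK w23889 := fun D T h => wf_of_chk h mem_nil (mem_cons (L5388 D T h) mem_nil) cw23889
theorem W23890 : WFK w23890 := fun D T h => wf_of_chk h mem_nil (mem_cons (L5374 D T h) mem_nil) cw23890
theorem W23891 : WFK w23891 := fun D T h => wf_of_chk h mem_nil (mem_cons (L5211 D T h) mem_nil) cw23891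
theorem W23892 : WFK w23892 := fun D T h => wf_of_chk h (mem_cons (W23048 D T h) (mem_cons (W16 D T h) mem_nil)) mem_nil cw23892
theorem L5389 : LFK l5389 := fun D T h => lf_of_chk h (mem_cons (W13102 D T h) (mem_cons (W13466 D T h) (mem_cons (W13104 D T h) (mem_cons (W3953 D T h) (mem_cons (W8783 D T h) (mem_cons (W1068 D T h) (mem_cons (W8257 D T h) (mem_cons (W1312 D T h) (mem_cons (W682 D T h) (mem_cons (W1207 D T h) (mem_cons (W1063 D T h) (mem_cons (W16 D T h) (mem_cons (W23048 D T h) (mem_cons (W23859 D T h) (mem_cons (W13068 D T h) (mem_cons (W13758 D T h) (mem_cons (W2015 D T h) (mem_cons (W23871 D T h) (mem_cons (W2037 D T h) (mem_cons (W23872 D T h) (mem_cons (W23867 D T h) (mem_cons (W5258 D T h) (mem_cons (W23141 D T h) (mem_cons (W5277 D T h) (mem_cons (W17572 D T h) (mem_cons (W128 D T h) (mem_cons (W23860 D T h) (mem_cons (W23861 D T h) (mem_cons (W20478 D T h) (mem_cons (W2520 D T h) (mem_cons (W19806 D T h) (mem_cons (W23865 D T h) (mem_cons (W22246 D T h) (mem_cons (W22433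 D T h) (mem_cons (W23873 D T h) (mem_cons (W22894 D T h) (mem_cons (W15834 D T h) (mem_cons (W23889 D T h) (mem_cons (W23890 D T h) (mem_cons (W23892 D T h) (mem_cons (W19479 D T h) (mem_cons (W10349 D T h) (mem_cons (W7698 D T h) (mem_cons (W7282 D T h) (mem_cons (W23874 D T h) (mem_cons (W23880 D T h) (mem_cons (W23881 D T h) (mem_cons (W23882 D T h) (mem_cons (W23884 D T h) (mem_cons (W12961 D T h) (mem_cons (W23885 D T h) (mem_cons (W2548 D T h) mem_nil)))))))))))))))))))))))))))))))))))))))))))))))))))) cl5389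
theorem W23893 : WFK w23893 := fun D T h => wf_of_chk h mem_nil (mem_cons (L5389 D T h) mem_nil) cw23893
theorem W23894 : WFK w23894 := fun D T h => wf_of_chk h mem_nil (mem_cons (L5376 D T h) mem_nil) cw23894
theorem W23895 : WFK w23895 := fun D T h => wf_of_chk h (mem_cons (W126 D T h) (mem_cons (W162 D T h) mem_nil)) mem_nil cw23895
theorem W23896 : WFK w23896 := fun D T h => wf_of_chk h mem_nil (mem_cons (L5385 D T h) mem_nil) cw23896
theorem W23897 : WFK w23897 := fun D T h => wf_of_chk h (mem_cons (W669 D T h) (mem_cons (W6714 D T h) mem_nil)) mem_nil cw23897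
theorem W23898 : WFK w23898 := fun D T h => wf_of_chk h (mem_cons (W50 D T h) (mem_cons (W6714 D T h) mem_nil)) mem_nil cw23898
theorem W23899 : WFK w23899 := fun D T h => wf_of_chk h (mem_cons (W667 D T h) (mem_cons (W6714 D T h) mem_nil)) mem_nil cw23899
theorem L5390 : LFK l5390 := fun D T h => lf_of_chk h (mem_cons (W181 D T h) (mem_cons (W16 D T h) mem_nil)) cl5390
theorem W23900 : WFK w23900 := fun D T h => wf_of_chk h mem_nil (mem_cons (L5390 D T h) mem_nil) cw23900
theorem L5391 : LFK l5391 := fun D T h => lf_of_chk h (mem_cons (W1919 D T h) (mem_cons (W143 D T h) (mem_cons (W67 D T h) (mem_cons (W181 D T h) (mem_cons (W1204 D T h) (mem_cons (W23900 D T h) (mem_cons (W3518 D T h) (mem_cons (W7171 D T h) (mem_cons (W3274 D T h) (mem_cons (W4353 D T h) (mem_cons (W20614 D T h) (mem_cons (W140 D T h) mem_nil)))))))))))) cl5391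
theorem W23901 : WFK w23901 := fun D T h => wf_of_chk h mem_nil (mem_cons (L5391 D T h) mem_nil) cw23901
theorem W23902 : WFK w23902 := fun D T h => wf_of_chk h (mem_cons (W12631 D T h) (mem_cons (W16 D T h) mem_nil)) mem_nil cw23902
theorem W23903 : WFK w23903 := fun D T h => wf_of_chk h (mem_cons (W12514 D T h) (mem_cons (W16 D T h) mem_nil)) mem_nil cw23903
theorem W23904 : WFK w23904 := fun D T h => wf_of_chk h (mem_cons (W162 D T h) (mem_cons (W6714 D T h) mem_nil)) mem_nil cw23904
theorem L5392 : LFK l5392 := fun D T h => lf_of_chk h (mem_cons (W12268 D T h) (mem_cons (W16 D T h) (mem_cons (W42 D T h) (mem_cons (W162 D T h) (mem_cons (W7114 D T h) (mem_cons (W682 D T h) (mem_cons (W8261 D T h) (mem_cons (W6714 D T h) (mem_cons (W18458 D T h) (mem_cons (W267 D T h) (mem_cons (W5375 D T h) (mem_cons (W1161 D T h) (mem_cons (W179 D T h) (mem_cons (W178 D T h) (mem_cons (W12250 D T h) (mem_cons (W6968 D T h) (mem_cons (W7282 D T h) (mem_cons (W23901 D T h) (mem_cons (W19815 D T h) (mem_cons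 (W23902 D T h) (mem_cons (W5212 D T h) (mem_cons (W22753 D T h) (mem_cons (W23903 D T h) (mem_cons (W22987 D T h) (mem_cons (W8253 D T h) (mem_cons (W8783 D T h) (mem_cons (W2037 D T h) (mem_cons (W23904 D T h) (mem_cons (W20252 D T h) (mem_cons (W4531 D T h) (mem_cons (W23895 D T h) (mem_cons (W12211 D T h) (mem_cons (W17572 D T h) (mem_cons (W17571 D T h) (mem_cons (W23897 D T h) (mem_cons (W10973 D T h) (mem_cons (W23898 D T h) (mem_cons (W23899 D T h) mem_nil)))))))))))))))))))))))))))))))))))))) cl5392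
theorem W23905 : WFK w23905 := fun D T h => wf_of_chk h mem_nil (mem_cons (L5392 D T h) mem_nil) cw23905
theorem W23906 : WFK w23906 := fun D T h => wf_of_chk h mem_nil (mem_cons (L117 D T h) mem_nil) cw23906
theorem L5393 : LFK l5393 := fun D T h => lf_of_chk h (mem_cons (W2766 D T h) (mem_cons (W10 D T h) (mem_cons (W109 D T h) (mem_cons (W8695 D T h) (mem_cons (W33 D T h) (mem_cons (W23906 D T h) (mem_cons (W16319 D T h) mem_nil))))))) cl5393
theorem W23907 : WFK w23907 := fun D T h => wf_of_chk h mem_nil (mem_cons (L5393 D T h) mem_nil) cw23907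
theorem L5394 : LFK l5394 := fun D T h => lf_of_chk h (mem_cons (W16464 D T h) (mem_cons (W16604 D T h) (mem_cons (W158 D T h) (mem_cons (W141 D T h) (mem_cons (W795 D T h) (mem_cons (W2521 D T h) (mem_cons (W18863 D T h) (mem_cons (W718 D T h) (mem_cons (W262 D T h) (mem_cons (W1673 D T h) (mem_cons (W576 D T h) (mem_cons (W501 D T h) (mem_cons (W17935 D T h) (mem_cons (W1092 D T h) (mem_cons (W331 D T h) (mem_cons (W889 D T h) (mem_cons (W16463 D T h) (mem_cons (W10624 D T h) (mem_cons (W9206 D T h) (mem_cons (W2922 D T h) mem_nil)))))))))))))))))))) cl5394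
theorem W23908 : WFK w23908 := fun D T h => wf_of_chk h mem_nil (mem_cons (L5394 D T h) mem_nil) cw23908
theorem L5395 : LFK l5395 := fun D T h => lf_of_chk h (mem_cons (W16463 D T h) (mem_cons (W161 D T h) (mem_cons (W141 D T h) (mem_cons (W1110 D T h) (mem_cons (W14710 D T h) (mem_cons (W1673 D T h) (mem_cons (W858 D T h) (mem_cons (W501 D T h) (mem_cons (W17406 D T h) (mem_cons (W154 D T h) (mem_cons (W6744 D T h) (mem_cons (W6678 D T h) (mem_cons (W2766 D T h) (mem_cons (W6700 D T h) (mem_cons (W1143 D T h) (mem_cons (W889 D T h) mem_nil)))))))))))))))) cl5395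
theorem W23909 : WFK w23909 := fun D T h => wf_of_chk h mem_nil (mem_cons (L5395 D T h) mem_nil) cw23909
theorem W23910 : WFK w23910 := fun D T h => wf_of_chk h mem_nil (mem_cons (L4288 D T h) mem_nil) cw23910
theorem W23911 : WFK w23911 := fun D T h => wf_of_chk h mem_nil (mem_cons (L2792 D T h) mem_nil) cw23911
theorem W23912 : WFK w23912 := fun D T h => wf_of_chk h mem_nil (mem_cons (L4288 D T h) mem_nil) cw23912
theorem L5396 : LFK l5396 := fun D T h => lf_of_chk h (mem_cons (W23910 D T h) (mem_cons (W858 D T h) (mem_cons (W501 D T h) (mem_cons (W16860 D T h) (mem_cons (W12980 D T h) (mem_cons (W6803 D T h) (mem_cons (W1326 D T h) (mem_cons (W14362 D T h) (mem_cons (W4403 D T h) (mem_cons (W257 D T h) (mem_cons (W281 D T h) (mem_cons (W638 D T h) (mem_cons (W149 D T h) (mem_cons (W2922 D T h) (mem_cons (W23911 D T h) (mem_cons (W2766 D T h) (mem_cons (W22463 D T h) (mem_cons (W1110 D T h) (mem_cons (W23912 D T h) mem_nil))))))))))))))))))) cl5396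
theorem W23913 : WFK w23913 := fun D T h => wf_of_chk h mem_nil (mem_cons (L5396 D T h) mem_nil) cw23913
theorem L5397 : LFK l5397 := fun D T h => lf_of_chk h (mem_cons (W5721 D T h) (mem_cons (W23905 D T h) (mem_cons (W1 D T h) (mem_cons (W5157 D T h) (mem_cons (W4038 D T h) (mem_cons (W7076 D T h) (mem_cons (W12634 D T h) (mem_cons (W14935 D T h) (mem_cons (W181 D T h) (mem_cons (W23908 D T h) (mem_cons (W7719 D T h) (mem_cons (W8424 D T h) (mem_cons (W2548 D T h) (mem_cons (W23907 D T h) (mem_cons (W1919 D T h) (mem_cons (W34 D T h) (mem_cons (W23909 D T h) (mem_cons (W6740 D T h) (mem_cons (W1690 D T h) (mem_cons (W23913 D T h) mem_nil)))))))))))))))))))) cl5397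
theorem W23914 : WFK w23914 := fun D T h => wf_of_chk h mem_nil (mem_cons (L5397 D T h) mem_nil) cw23914
theorem W23915 : WFK w23915 := fun D T h => wf_of_chk h (mem_cons (W56 D T h) (mem_cons (W22987 D T h) mem_nil)) mem_nil cw23915
theorem W23916 : WFK w23916 := fun D T h => wf_of_chk h (mem_cons (W267 D T h) (mem_cons (W22987 D T h) mem_nil)) mem_nil cw23916
theorem W23917 : WFK w23917 := fun D T h => wf_of_chk h mem_nil (mem_cons (L80 D T h) mem_nil) cw23917
theorem L5398 : LFK l5398 := fun D T h => lf_of_chk h (mem_cons (W3766 D T h) (mem_cons (W8153 D T h) (mem_cons (W12634 D T h) (mem_cons (W7114 D T h) (mem_cons (W1 D T h) (mem_cons (W581 D T h) (mem_cons (W21469 D T h) (mem_cons (W1326 D T h) (mem_cons (W21522 D T h) (mem_cons (W23917 D T h) (mem_cons (W39 D T h) (mem_cons (W461 D T h) (mem_cons (W3 D T h) (mem_cons (W42 D T h) (mem_cons (W181 D T h) mem_nil))))))))))))))) cl5398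
theorem W23918 : WFK w23918 := fun D T h => wf_of_chk h mem_nil (mem_cons (L5398 D T h) mem_nil) cw23918
theorem W23919 : WFK w23919 := fun D T h => wf_of_chk h (mem_cons (W368 D T h) (mem_cons (W22987 D T h) mem_nil)) mem_nil cw23919
theorem L5399 : LFK l5399 := fun D T h => lf_of_chk h (mem_cons (W1318 D T h) (mem_cons (W7578 D T h) (mem_cons (W12190 D T h) (mem_cons (W23891 D T h) (mem_cons (W7114 D T h) (mem_cons (W42 D T h) (mem_cons (W15147 D T h) (mem_cons (W15824 D T h) (mem_cons (W23534 D T h) (mem_cons (W3305 D T h) (mem_cons (W16 D T h) (mem_cons (W23624 D T h) (mem_cons (W18112 D T h) (mem_cons (W1408 D T h) (mem_cons (W1291 D T h) (mem_cons (W1310 D T h) (mem_cons (W7996 D T h) (mem_cons (W23919 D T h) (mem_cons (W5721 D T h) (mem_cons (W11995 D T h) (mem_cons (W15713 D T h) (mem_cons (W23918 D T h) (mem_cons (W177 D T h) (mem_cons (W23915 D T h) (mem_cons (W50 D T h) (mem_cons (W23916 D T h) mem_nil)))))))))))))))))))))))))) cl5399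
theorem W23920 : WFK w23920 := fun D T h => wf_of_chk h mem_nil (mem_cons (L5399 D T h) mem_nil) cw23920
theorem W23921 : WFK w23921 := fun D T h => wf_of_chk h (mem_cons (W164 D T h) (mem_cons (W162 D T h) mem_nil)) mem_nil cw23921
theorem W23922 : WFK w23922 := fun D T h => wf_of_chk h (mem_cons (W56 D T h) (mem_cons (W162 D T h) mem_nil)) mem_nil cw23922
theorem L5400 : LFK l5400 := fun D T h => lf_of_chk h (mem_cons (W2405 D T h) (mem_cons (W2388 D T h) (mem_cons (W154 D T h) (mem_cons (W220 D T h) (mem_cons (W15786 D T h) (mem_cons (W15784 D T h) (mem_cons (W638 D T h) (mem_cons (W871 D T h) (mem_cons (W2063 D T h) (mem_cons (W7955 D T h) (mem_cons (W2529 D T h) (mem_cons (W42 D T h) (mem_cons (W22205 D T h) (mem_cons (W164 D T h) mem_nil)))))))))))))) cl5400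
theorem W23923 : WFK w23923 := fun D T h => wf_of_chk h mem_nil (mem_cons (L5400 D T h) mem_nil) cw23923
theorem W23924 : WFK w23924 := fun D T h => wf_of_chk h (mem_cons (W220 D T h) (mem_cons (W162 D T h) mem_nil)) mem_nil cw23924
theorem W23925 : WFK w23925 := fun D T h => wf_of_chk h mem_nil (mem_cons (L1697 D T h) mem_nil) cw23925
theorem W23926 : WFK w23926 := fun D T h => wf_of_chk h (mem_cons (W103 D T h) (mem_cons (W162 D T h) mem_nil)) mem_nil cw23926
theorem L5401 : LFK l5401 := fun D T h => lf_of_chk h (mem_cons (W47 D T h) (mem_cons (W721 D T h) (mem_cons (W162 D T h) (mem_cons (W52 D T h) (mem_cons (W12 D T h) (mem_cons (W54 D T h) (mem_cons (W1546 D T h) (mem_cons (W55 D T h) (mem_cons (W707 D T h) (mem_cons (W29 D T h) (mem_cons (W137 D T h) (mem_cons (W8753 D T h) (mem_cons (W2383 D T h) mem_nil))))))))))))) cl5401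
theorem W23927 : WFK w23927 := fun D T h => wf_of_chk h mem_nil (mem_cons (L5401 D T h) mem_nil) cw23927
theorem W23928 : WFK w23928 := fun D T h => wf_of_chk h (mem_cons (W2137 D T h) (mem_cons (W162 D T h) mem_nil)) mem_nil cw23928
theorem W23929 : WFK w23929 := fun D T h => wf_of_chk h (mem_cons (W2090 D T h) (mem_cons (W162 D T h) mem_nil)) mem_nil cw23929
theorem L5402 : LFK l5402 := fun D T h => lf_of_chk h (mem_cons (W2529 D T h) (mem_cons (W2388 D T h) (mem_cons (W161 D T h) (mem_cons (W1637 D T h) (mem_cons (W162 D T h) (mem_cons (W2089 D T h) (mem_cons (W1449 D T h) (mem_cons (W2669 D T h) (mem_cons (W15502 D T h) (mem_cons (W2108 D T h) (mem_cons (W13889 D T h) (mem_cons (W370 D T h) (mem_cons (W391 D T h) (mem_cons (W4262 D T h) (mem_cons (W22024 D T h) (mem_cons (W14215 D T h) (mem_cons (W7266 D T h) (mem_cons (W22723 D T h) (mem_cons (W23926 D T h) (mem_cons (W381 D T h) (mem_cons (W7250 D T h) (mem_cons (W2667 D T h) (mem_cons (W7389 D T h) (mem_cons (W7251 D T h) (mem_cons (W13013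 D T h) (mem_cons (W7253 D T h) (mem_cons (W2063 D T h) (mem_cons (W23927 D T h) (mem_cons (W19696 D T h) (mem_cons (W23928 D T h) (mem_cons (W69 D T h) (mem_cons (W23929 D T h) mem_nil)))))))))))))))))))))))))))))))) cl5402
theorem W23930 : WFK w23930 := fun D T h => wf_of_chk h mem_nil (mem_cons (L5402 D T h) mem_nil) cw23930
theorem W23931 : WFK w23931 := fun D T h => wf_of_chk h (mem_cons (W162 D T h) (mem_cons (W8257 D T h) mem_nil)) mem_nil cw23931
theorem W23932 : WFK w23932 := fun D T h => wf_of_chk h mem_nil (mem_cons (L5076 D T h) mem_nil) cw23932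
theorem W23933 : WFK w23933 := fun D T h => wf_of_chk h (mem_cons (W220 D T h) (mem_cons (W455 D T h) mem_nil)) mem_nil cw23933
theorem W23934 : WFK w23934 := fun D T h => wf_of_chk h (mem_cons (W126 D T h) (mem_cons (W455 D T h) mem_nil)) mem_nil cw23934
theorem W23935 : WFK w23935 := fun D T h => wf_of_chk h (mem_cons (W3356 D T h) (mem_cons (W455 D T h) mem_nil)) mem_nil cw23935
theorem W23936 : WFK w23936 := fun D T h => wf_of_chk h (mem_cons (W2015 D T h) (mem_cons (W455 D T h) mem_nil)) mem_nil cw23936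
theorem L5403 : LFK l5403 := fun D T h => lf_of_chk h (mem_cons (W22882 D T h) (mem_cons (W16 D T h) (mem_cons (W2388 D T h) (mem_cons (W167 D T h) (mem_cons (W162 D T h) (mem_cons (W7432 D T h) (mem_cons (W7431 D T h) (mem_cons (W7480 D T h) (mem_cons (W7114 D T h) (mem_cons (W7502 D T h) (mem_cons (W15824 D T h) (mem_cons (W23923 D T h) (mem_cons (W23934 D T h) (mem_cons (W3982 D T h) (mem_cons (W21834 D T h) (mem_cons (W128 D T h) (mem_cons (W23935 D T h) (mem_cons (W5277 D T h) (mem_cons (W23936 D T h) (mem_cons (W22227 D T h) (mem_cons (W12273 D T h) (mem_cons (W1441 D T h) (mem_cons (W23932 D T h) (mem_cons (W7237 D T h) (mem_cons (W23933 D T h) (mem_cons (W22749 D T h) (mem_cons (W12203 D T h) (mem_cons (W2936 D T h) (mem_cons (W12268 D T h) (mem_cons (W2868 D T h) (mem_cons (W7424 D T h) (mem_cons (W22196 D T h) (mem_cons (W23924 D T h) (mem_cons (W18058 D T h) (mem_cons (W6841 D T h) (mem_cons (W22753 D T h) (mem_cons (W15931 D T h) (mem_cons (W7286 D T h) (mem_cons (W23925 D T h) (mem_cons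 (W11111 D T h) (mem_cons (W23921 D T h) (mem_cons (W23930 D T h) (mem_cons (W10822 D T h) (mem_cons (W23931 D T h) (mem_cons (W284 D T h) (mem_cons (W2405 D T h) (mem_cons (W23922 D T h) (mem_cons (W7401 D T h) (mem_cons (W15884 D T h) (mem_cons (W15883 D T h) mem_nil)))))))))))))))))))))))))))))))))))))))))))))))))) cl5403
theorem W23937 : WFK w23937 := fun D T h => wf_of_chk h mem_nil (mem_cons (L5403 D T h) mem_nil) cw23937
theorem W23938 : WFK w23938 := fun D T h => wf_of_chk h mem_nil (mem_cons (L3185 D T h) mem_nil) cw23938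
theorem W23939 : WFK w23939 := fun D T h => wf_of_chk h (mem_cons (W3286 D T h) mem_nil) mem_nil cw23939
theorem L5404 : LFK l5404 := fun D T h => lf_of_chk h (mem_cons (W495 D T h) mem_nil) cl5404
theorem W23940 : WFK w23940 := fun D T h => wf_of_chk h mem_nil (mem_cons (L5404 D T h) mem_nil) cw23940
theorem L5405 : LFK l5405 := fun D T h => lf_of_chk h (mem_cons (W2766 D T h) (mem_cons (W22 D T h) (mem_cons (W125 D T h) (mem_cons (W831 D T h) (mem_cons (W1101 D T h) (mem_cons (W23940 D T h) (mem_cons (W1075 D T h) (mem_cons (W33 D T h) (mem_cons (W817 D T h) (mem_cons (W7 D T h) (mem_cons (W161 D T h) mem_nil))))))))))) cl5405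
theorem W23941 : WFK w23941 := fun D T h => wf_of_chk h mem_nil (mem_cons (L5405 D T h) mem_nil) cw23941
theorem W23942 : WFK w23942 := fun D T h => wf_of_chk h (mem_cons (W2037 D T h) mem_nil) mem_nil cw23942
theorem W23943 : WFK w23943 := fun D T h => wf_of_chk h mem_nil (mem_cons (L5404 D T h) mem_nil) cw23943
theorem L5406 : LFK l5406 := fun D T h => lf_of_chk h (mem_cons (W2766 D T h) (mem_cons (W33 D T h) (mem_cons (W831 D T h) (mem_cons (W1101 D T h) (mem_cons (W23943 D T h) (mem_cons (W1092 D T h) (mem_cons (W878 D T h) (mem_cons (W4 D T h) (mem_cons (W17584 D T h) mem_nil))))))))) cl5406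
theorem W23944 : WFK w23944 := fun D T h => wf_of_chk h mem_nil (mem_cons (L5406 D T h) mem_nil) cw23944
theorem W23945 : WFK w23945 := fun D T h => wf_of_chk h mem_nil (mem_cons (L4288 D T h) mem_nil) cw23945
theorem W23946 : WFK w23946 := fun D T h => wf_of_chk h mem_nil (mem_cons (L5404 D T h) mem_nil) cw23946
theorem L5407 : LFK l5407 := fun D T h => lf_of_chk h (mem_cons (W41 D T h) (mem_cons (W1325 D T h) (mem_cons (W1326 D T h) (mem_cons (W220 D T h) (mem_cons (W40 D T h) (mem_cons (W15 D T h) (mem_cons (W652 D T h) (mem_cons (W3205 D T h) (mem_cons (W1519 D T h) (mem_cons (W888 D T h) (mem_cons (W7257 D T h) mem_nil))))))))))) cl5407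
theorem W23947 : WFK w23947 := fun D T h => wf_of_chk h mem_nil (mem_cons (L5407 D T h) mem_nil) cw23947
theorem L5408 : LFK l5408 := fun D T h => lf_of_chk h (mem_cons (W7314 D T h) mem_nil) cl5408
theorem W23948 : WFK w23948 := fun D T h => wf_of_chk h mem_nil (mem_cons (L5408 D T h) mem_nil) cw23948
theorem L5409 : LFK l5409 := fun D T h => lf_of_chk h (mem_cons (W12873 D T h) mem_nil) cl5409
theorem W23949 : WFK w23949 := fun D T h => wf_of_chk h mem_nil (mem_cons (L5409 D T h) mem_nil) cw23949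
theorem L5410 : LFK l5410 := fun D T h => lf_of_chk h (mem_cons (W23946 D T h) (mem_cons (W3898 D T h) (mem_cons (W32 D T h) (mem_cons (W179 D T h) (mem_cons (W23906 D T h) (mem_cons (W38 D T h) (mem_cons (W16564 D T h) (mem_cons (W15147 D T h) (mem_cons (W22221 D T h) (mem_cons (W17571 D T h) (mem_cons (W15825 D T h) (mem_cons (W16178 D T h) (mem_cons (W23947 D T h) (mem_cons (W13626 D T h) (mem_cons (W23948 D T h) (mem_cons (W23949 D T h) (mem_cons (W14246 D T h) (mem_cons (W23940 D T h) (mem_cons (W23943 D T h) mem_nil))))))))))))))))))) cl5410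
theorem W23950 : WFK w23950 := fun D T h => wf_of_chk h mem_nil (mem_cons (L5410 D T h) mem_nil) cw23950
theorem L5411 : LFK l5411 := fun D T h => lf_of_chk h (mem_cons (W158 D T h) (mem_cons (W22 D T h) (mem_cons (W125 D T h) (mem_cons (W1075 D T h) (mem_cons (W1092 D T h) (mem_cons (W3232 D T h) (mem_cons (W331 D T h) (mem_cons (W14247 D T h) (mem_cons (W20652 D T h) (mem_cons (W23946 D T h) (mem_cons (W33 D T h) (mem_cons (W802 D T h) (mem_cons (W4 D T h) mem_nil))))))))))))) cl5411
theorem W23951 : WFK w23951 := fun D T h => wf_of_chk h mem_nil (mem_cons (L5411 D T h) mem_nil) cw23951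
theorem L5412 : LFK l5412 := fun D T h => lf_of_chk h (mem_cons (W91 D T h) (mem_cons (W20 D T h) (mem_cons (W124 D T h) (mem_cons (W817 D T h) (mem_cons (W878 D T h) (mem_cons (W3153 D T h) (mem_cons (W265 D T h) (mem_cons (W14247 D T h) (mem_cons (W20652 D T h) (mem_cons (W23946 D T h) (mem_cons (W802 D T h) (mem_cons (W33 D T h) (mem_cons (W4 D T h) mem_nil))))))))))))) cl5412
theorem W23952 : WFK w23952 := fun D T h => wf_of_chk h mem_nil (mem_cons (L5412 D T h) mem_nil) cw23952
theorem L5413 : LFK l5413 := fun D T h => lf_of_chk h (mem_cons (W1 D T h) (mem_cons (W10 D T h) (mem_cons (W109 D T h) (mem_cons (W161 D T h) (mem_cons (W17584 D T h) (mem_cons (W1994 D T h) (mem_cons (W168 D T h) (mem_cons (W14247 D T h) (mem_cons (W20652 D T h) (mem_cons (W23946 D T h) (mem_cons (W158 D T h) (mem_cons (W33 D T h) (mem_cons (W91 D T h) (mem_cons (W4 D T h) (mem_cons (W6006 D T h) (mem_cons (W2764 D T h) mem_nil)))))))))))))))) cl5413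
theorem W23953 : WFK w23953 := fun D T h => wf_of_chk h mem_nil (mem_cons (L5413 D T h) mem_nil) cw23953
theorem W23954 : WFK w23954 := fun D T h => wf_of_chk h mem_nil (mem_cons (L5393 D T h) mem_nil) cw23954
theorem L5414 : LFK l5414 := fun D T h => lf_of_chk h (mem_cons (W7212 D T h) (mem_cons (W23937 D T h) (mem_cons (W1 D T h) (mem_cons (W9005 D T h) (mem_cons (W69 D T h) (mem_cons (W8595 D T h) (mem_cons (W2766 D T h) (mem_cons (W112 D T h) (mem_cons (W13262 D T h) (mem_cons (W2674 D T h) (mem_cons (W7332 D T h) (mem_cons (W23954 D T h) (mem_cons (W11384 D T h) (mem_cons (W23945 D T h) (mem_cons (W13897 D T h) (mem_cons (W23907 D T h) (mem_cons (W15884 D T h) (mem_cons (W23938 D T h) (mem_cons (W23939 D T h) (mem_cons (W23941 D T h) (mem_cons (W23942 D T h) (mem_cons (W23944 D T h) (mem_cons (W5177 D T h) (mem_cons (W18567 D T h) (mem_cons (W23950 D T h) (mem_cons (W23951 D T h) (mem_cons (W23952 D T h) (mem_cons (W23953 D T h) mem_nil)))))))))))))))))))))))))))) cl5414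
theorem W23955 : WFK w23955 := fun D T h => wf_of_chk h mem_nil (mem_cons (L5414 D T h) mem_nil) cw23955
theorem W23956 : WFK w23956 := fun D T h => wf_of_chk h (mem_cons (W267 D T h) (mem_cons (W7114 D T h) mem_nil)) mem_nil cw23956
theorem W23957 : WFK w23957 := fun D T h => wf_of_chk h (mem_cons (W56 D T h) (mem_cons (W7114 D T h) mem_nil)) mem_nil cw23957
theorem W23958 : WFK w23958 := fun D T h => wf_of_chk h (mem_cons (W42 D T h) (mem_cons (W7114 D T h) mem_nil)) mem_nil cw23958
theorem W23959 : WFK w23959 := fun D T h => wf_of_chk h mem_nil (mem_cons (L4937 D T h) mem_nil) cw23959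
theorem W23961 : WFK w23961 := fun D T h => wf_of_chk h (mem_cons (W281 D T h) (mem_cons (W7114 D T h) mem_nil)) mem_nil cw23961
theorem L5415 : LFK l5415 := fun D T h => lf_of_chk h (mem_cons (W5721 D T h) (mem_cons (W1 D T h) (mem_cons (W22987 D T h) (mem_cons (W901 D T h) (mem_cons (W4038 D T h) (mem_cons (W5157 D T h) (mem_cons (W12634 D T h) (mem_cons (W8153 D T h) (mem_cons (W181 D T h) (mem_cons (W7719 D T h) (mem_cons (W8424 D T h) (mem_cons (W23959 D T h) (mem_cons (W11384 D T h) (mem_cons (W23576 D T h) (mem_cons (W1919 D T h) (mem_cons (W34 D T h) (mem_cons (W23961 D T h) mem_nil))))))))))))))))) cl5415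
theorem W23962 : WFK w23962 := fun D T h => wf_of_chk h mem_nil (mem_cons (L5415 D T h) mem_nil) cw23962
theorem L5416 : LFK l5416 := fun D T h => lf_of_chk h (mem_cons (W1318 D T h) (mem_cons (W23894 D T h) (mem_cons (W7878 D T h) (mem_cons (W42 D T h) (mem_cons (W1063 D T h) (mem_cons (W22987 D T h) (mem_cons (W15147 D T h) (mem_cons (W3305 D T h) (mem_cons (W15824 D T h) (mem_cons (W23534 D T h) (mem_cons (W16 D T h) (mem_cons (W23962 D T h) (mem_cons (W18112 D T h) (mem_cons (W1408 D T h) (mem_cons (W23958 D T h) (mem_cons (W14295 D T h) (mem_cons (W15713 D T h) (mem_cons (W11995 D T h) (mem_cons (W177 D T h) (mem_cons (W50 D T h) (mem_cons (W23956 D T h) (mem_cons (W23957 D T h) mem_nil)))))))))))))))))))))) cl5416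
theorem W23963 : WFK w23963 := fun D T h => wf_of_chk h mem_nil (mem_cons (L5416 D T h) mem_nil) cw23963
theorem W23964 : WFK w23964 := fun D T h => wf_of_chk h mem_nil (mem_cons (L5346 D T h) mem_nil) cw23964
theorem L5417 : LFK l5417 := fun D T h => lf_of_chk h (mem_cons (W1101 D T h) (mem_cons (W14246 D T h) (mem_cons (W20652 D T h) (mem_cons (W32 D T h) mem_nil)))) cl5417
theorem W23965 : WFK w23965 := fun D T h => wf_of_chk h mem_nil (mem_cons (L5417 D T h) mem_nil) cw23965
theorem W23966 : WFK w23966 := fun D T h => wf_of_chk h mem_nil (mem_cons (L5410 D T h) mem_nil) cw23966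
theorem W23967 : WFK w23967 := fun D T h => wf_of_chk h mem_nil (mem_cons (L5411 D T h) mem_nil) cw23967
theorem W23968 : WFK w23968 := fun D T h => wf_of_chk h mem_nil (mem_cons (L5412 D T h) mem_nil) cw23968
theorem W23969 : WFK w23969 := fun D T h => wf_of_chk h mem_nil (mem_cons (L5413 D T h) mem_nil) cw23969
theorem L5418 : LFK l5418 := fun D T h => lf_of_chk h (mem_cons (W7212 D T h) (mem_cons (W23964 D T h) (mem_cons (W1 D T h) (mem_cons (W9005 D T h) (mem_cons (W69 D T h) (mem_cons (W281 D T h) (mem_cons (W370 D T h) (mem_cons (W4262 D T h) (mem_cons (W391 D T h) (mem_cons (W8756 D T h) (mem_cons (W18348 D T h) (mem_cons (W23576 D T h) (mem_cons (W23945 D T h) (mem_cons (W15884 D T h) (mem_cons (W23965 D T h) (mem_cons (W1631 D T h) (mem_cons (W2529 D T h) (mem_cons (W18567 D T h) (mem_cons (W23966 D T h) (mem_cons (W23967 D T h) (mem_cons (W23968 D T h) (mem_cons (W23969 D T h) mem_nil)))))))))))))))))))))) cl5418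
theorem W23970 : WFK w23970 := fun D T h => wf_of_chk h mem_nil (mem_cons (L5418 D T h) mem_nil) cw23970
theorem W23972 : WFK w23972 := fun D T h => wf_of_chk h (mem_cons (W2318 D T h) (mem_cons (W710 D T h) mem_nil)) mem_nil cw23972
theorem W23973 : WFK w23973 := fun D T h => wf_of_chk h mem_nil (mem_cons (L5331 D T h) mem_nil) cw23973
theorem W23974 : WFK w23974 := fun D T h => wf_of_chk h (mem_cons (W461 D T h) mem_nil) mem_nil cw23974
theorem L5419 : LFK l5419 := fun D T h => lf_of_chk h (mem_cons (W15786 D T h) (mem_cons (W448 D T h) (mem_cons (W1 D T h) (mem_cons (W69 D T h) (mem_cons (W15760 D T h) (mem_cons (W33 D T h) (mem_cons (W17153 D T h) (mem_cons (W23974 D T h) (mem_cons (W937 D T h) (mem_cons (W1170 D T h) (mem_cons (W1204 D T h) (mem_cons (W10225 D T h) mem_nil)))))))))))) cl5419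
theorem W23975 : WFK w23975 := fun D T h => wf_of_chk h mem_nil (mem_cons (L5419 D T h) mem_nil) cw23975
theorem L5420 : LFK l5420 := fun D T h => lf_of_chk h (mem_cons (W2304 D T h) (mem_cons (W200 D T h) (mem_cons (W1448 D T h) (mem_cons (W42 D T h) (mem_cons (W3 D T h) (mem_cons (W2118 D T h) (mem_cons (W22789 D T h) (mem_cons (W3763 D T h) (mem_cons (W391 D T h) (mem_cons (W10076 D T h) (mem_cons (W11 D T h) (mem_cons (W858 D T h) (mem_cons (W10234 D T h) (mem_cons (W12919 D T h) mem_nil)))))))))))))) cl5420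
theorem W23976 : WFK w23976 := fun D T h => wf_of_chk h mem_nil (mem_cons (L5420 D T h) mem_nil) cw23976
theorem W23977 : WFK w23977 := fun D T h => wf_of_chk h mem_nil (mem_cons (L1728 D T h) mem_nil) cw23977
theorem L5421 : LFK l5421 := fun D T h => lf_of_chk h (mem_cons (W23805 D T h) (mem_cons (W2543 D T h) (mem_cons (W1535 D T h) (mem_cons (W287 D T h) (mem_cons (W390 D T h) (mem_cons (W22024 D T h) (mem_cons (W2304 D T h) (mem_cons (W23305 D T h) (mem_cons (W23316 D T h) (mem_cons (W18348 D T h) (mem_cons (W14014 D T h) (mem_cons (W15784 D T h) (mem_cons (W870 D T h) (mem_cons (W8107 D T h) (mem_cons (W23179 D T h) (mem_cons (W1654 D T h) (mem_cons (W23319 D T h) (mem_cons (W23317 D T h) (mem_cons (W18346 D T h) (mem_cons (W23318 D T h) (mem_cons (W23134 D T h) (mem_cons (W12122 D T h) (mem_cons (W23803 D T h) (mem_cons (W23133 D T h) (mem_cons (W12934 D T h) (mem_cons (W23804 D T h) (mem_cons (W69 D T h) mem_nil))))))))))))))))))))))))))) cl5421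
theorem W23978 : WFK w23978 := fun D T h => wf_of_chk h mem_nil (mem_cons (L5421 D T h) mem_nil) cw23978
theorem W23979 : WFK w23979 := fun D T h => wf_of_chk h mem_nil (mem_cons (L4924 D T h) mem_nil) cw23979
theorem L5422 : LFK l5422 := fun D T h => lf_of_chk h (mem_cons (W15786 D T h) (mem_cons (W23976 D T h) (mem_cons (W69 D T h) (mem_cons (W1 D T h) (mem_cons (W15760 D T h) (mem_cons (W22280 D T h) (mem_cons (W23080 D T h) (mem_cons (W9005 D T h) (mem_cons (W126 D T h) (mem_cons (W114 D T h) (mem_cons (W721 D T h) (mem_cons (W8559 D T h) (mem_cons (W267 D T h) (mem_cons (W23979 D T h) mem_nil)))))))))))))) cl5422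
theorem W23980 : WFK w23980 := fun D T h => wf_of_chk h mem_nil (mem_cons (L5422 D T h) mem_nil) cw23980
theorem L5423 : LFK l5423 := fun D T h => lf_of_chk h (mem_cons (W7878 D T h) (mem_cons (W12168 D T h) (mem_cons (W12203 D T h) (mem_cons (W9025 D T h) (mem_cons (W2936 D T h) (mem_cons (W2618 D T h) (mem_cons (W2272 D T h) (mem_cons (W11192 D T h) (mem_cons (W16 D T h) (mem_cons (W23975 D T h) (mem_cons (W23048 D T h) (mem_cons (W23976 D T h) (mem_cons (W22624 D T h) (mem_cons (W23980 D T h) (mem_cons (W10822 D T h) (mem_cons (W22335 D T h) (mem_cons (W12634 D T h) (mem_cons (W8153 D T h) (mem_cons (W23977 D T h) (mem_cons (W23713 D T h) (mem_cons (W15883 D T h) (mem_cons (W284 D T h) (mem_cons (W7526 D T h) (mem_cons (W23978 D T h) (mem_cons (W9412 D T h) (mem_cons (W12733 D T h) (mem_cons (W9411 D T h) (mem_cons (W18058 D T h) (mem_cons (W23149 D T h) (mem_cons (W22084 D T h) (mem_cons (W23146 D T h) (mem_cons (W23143 D T h) (mem_cons (W23145 D T h) mem_nil)))))))))))))))))))))))))))))))))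 cl5423
theorem W23981 : WFK w23981 := fun D T h => wf_of_chk h mem_nil (mem_cons (L5423 D T h) mem_nil) cw23981
theorem W23982 : WFK w23982 := fun D T h => wf_of_chk h (mem_cons (W2375 D T h) mem_nil) mem_nil cw23982
theorem W23983 : WFK w23983 := fun D T h => wf_of_chk h mem_nil (mem_cons (L3135 D T h) mem_nil) cw23983
theorem W23984 : WFK w23984 := fun D T h => wf_of_chk h mem_nil (mem_cons (L5062 D T h) mem_nil) cw23984
theorem W23985 : WFK w23985 := fun D T h => wf_of_chk h (mem_cons (W9412 D T h) mem_nil) mem_nil cw23985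
theorem W23986 : WFK w23986 := fun D T h => wf_of_chk h (mem_cons (W162 D T h) (mem_cons (W937 D T h) mem_nil)) mem_nil cw23986
theorem W23987 : WFK w23987 := fun D T h => wf_of_chk h mem_nil (mem_cons (L4745 D T h) mem_nil) cw23987
theorem W23988 : WFK w23988 := fun D T h => wf_of_chk h (mem_cons (W23906 D T h) (mem_cons (W16 D T h) mem_nil)) mem_nil cw23988
theorem L5424 : LFK l5424 := fun D T h => lf_of_chk h (mem_cons (W7578 D T h) (mem_cons (W21280 D T h) (mem_cons (W21281 D T h) (mem_cons (W3006 D T h) (mem_cons (W794 D T h) (mem_cons (W937 D T h) (mem_cons (W2709 D T h) (mem_cons (W2936 D T h) (mem_cons (W22036 D T h) (mem_cons (W23983 D T h) (mem_cons (W2051 D T h) (mem_cons (W23984 D T h) (mem_cons (W7994 D T h) (mem_cons (W2157 D T h) (mem_cons (W22034 D T h) (mem_cons (W23052 D T h) (mem_cons (W16 D T h) (mem_cons (W13466 D T h) (mem_cons (W15486 D T h) (mem_cons (W2934 D T h) (mem_cons (W284 D T h) (mem_cons (W23986 D T h) (mem_cons (W19586 D T h) (mem_cons (W12634 D T h) (mem_cons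 (W8153 D T h) (mem_cons (W22033 D T h) (mem_cons (W15884 D T h) (mem_cons (W15883 D T h) (mem_cons (W9412 D T h) (mem_cons (W19580 D T h) (mem_cons (W9411 D T h) (mem_cons (W18058 D T h) (mem_cons (W23055 D T h) (mem_cons (W22084 D T h) (mem_cons (W23985 D T h) (mem_cons (W23071 D T h) (mem_cons (W23072 D T h) (mem_cons (W23987 D T h) (mem_cons (W23988 D T h) mem_nil))))))))))))))))))))))))))))))))))))))) cl5424
theorem W23989 : WFK w23989 := fun D T h => wf_of_chk h mem_nil (mem_cons (L5424 D T h) mem_nil) cw23989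
theorem L5425 : LFK l5425 := fun D T h => lf_of_chk h (mem_cons (W42 D T h) (mem_cons (W3 D T h) (mem_cons (W461 D T h) (mem_cons (W143 D T h) (mem_cons (W2503 D T h) (mem_cons (W281 D T h) (mem_cons (W1467 D T h) (mem_cons (W16208 D T h) (mem_cons (W39 D T h) (mem_cons (W5841 D T h) mem_nil)))))))))) cl5425
theorem W23990 : WFK w23990 := fun D T h => wf_of_chk h mem_nil (mem_cons (L5425 D T h) mem_nil) cw23990
theorem W23991 : WFK w23991 := fun D T h => wf_of_chk h mem_nil (mem_cons (L275 D T h) mem_nil) cw23991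
theorem W23993 : WFK w23993 := fun D T h => wf_of_chk h (mem_cons (W18058 D T h) mem_nil) mem_nil cw23993
theorem W23994 : WFK w23994 := fun D T h => wf_of_chk h (mem_cons (W162 D T h) (mem_cons (W937 D T h) mem_nil)) mem_nil cw23994
theorem L5426 : LFK l5426 := fun D T h => lf_of_chk h (mem_cons (W21399 D T h) (mem_cons (W2050 D T h) (mem_cons (W7436 D T h) (mem_cons (W2936 D T h) (mem_cons (W259 D T h) (mem_cons (W9715 D T h) (mem_cons (W9025 D T h) (mem_cons (W16 D T h) (mem_cons (W23990 D T h) (mem_cons (W18076 D T h) (mem_cons (W23983 D T h) (mem_cons (W22280 D T h) (mem_cons (W21035 D T h) (mem_cons (W2934 D T h) (mem_cons (W23994 D T h) (mem_cons (W23267 D T h) (mem_cons (W12634 D T h) (mem_cons (W8153 D T h) (mem_cons (W23991 D T h) (mem_cons (W15884 D T h) (mem_cons (W15883 D T h) (mem_cons (W284 D T h) (mem_cons (W9412 D T h) (mem_cons (W9411 D T h) (mem_cons (W553 D T h) (mem_cons (W18058 D T h) (mem_cons (W23993 D T h) (mem_cons (W21400 D T h) (mem_cons (W181 D T h) (mem_cons (W21401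 D T h) (mem_cons (W21402 D T h) (mem_cons (W21112 D T h) mem_nil)))))))))))))))))))))))))))))))) cl5426
theorem W23995 : WFK w23995 := fun D T h => wf_of_chk h mem_nil (mem_cons (L5426 D T h) mem_nil) cw23995
theorem W23996 : WFK w23996 := fun D T h => wf_of_chk h (mem_cons (W162 D T h) (mem_cons (W126 D T h) mem_nil)) mem_nil cw23996
theorem W23997 : WFK w23997 := fun D T h => wf_of_chk h (mem_cons (W42 D T h) (mem_cons (W126 D T h) mem_nil)) mem_nil cw23997
theorem W23998 : WFK w23998 := fun D T h => wf_of_chk h (mem_cons (W2753 D T h) (mem_cons (W16 D T h) mem_nil)) mem_nil cw23998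
theorem W23999 : WFK w23999 := fun D T h => wf_of_chk h (mem_cons (W1907 D T h) (mem_cons (W126 D T h) mem_nil)) mem_nil cw23999
theorem W24000 : WFK w24000 := fun D T h => wf_of_chk h (mem_cons (W6372 D T h) (mem_cons (W16 D T h) mem_nil)) mem_nil cw24000
theorem W24001 : WFK w24001 := fun D T h => wf_of_chk h (mem_cons (W1193 D T h) (mem_cons (W126 D T h) mem_nil)) mem_nil cw24001
theorem W24002 : WFK w24002 := fun D T h => wf_of_chk h (mem_cons (W1907 D T h) (mem_cons (W126 D T h) mem_nil)) mem_nil cw24002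
theorem W24003 : WFK w24003 := fun D T h => wf_of_chk h (mem_cons (W2887 D T h) (mem_cons (W126 D T h) mem_nil)) mem_nil cw24003
theorem W24004 : WFK w24004 := fun D T h => wf_of_chk h (mem_cons (W1092 D T h) (mem_cons (W16 D T h) mem_nil)) mem_nil cw24004
theorem W24005 : WFK w24005 := fun D T h => wf_of_chk h mem_nil (mem_cons (L4745 D T h) mem_nil) cw24005
theorem L5427 : LFK l5427 := fun D T h => lf_of_chk h (mem_cons (W7578 D T h) (mem_cons (W21280 D T h) (mem_cons (W21420 D T h) (mem_cons (W21281 D T h) (mem_cons (W3006 D T h) (mem_cons (W126 D T h) (mem_cons (W2936 D T h) (mem_cons (W8783 D T h) (mem_cons (W9025 D T h) (mem_cons (W23090 D T h) (mem_cons (W23997 D T h) (mem_cons (W22196 D T h) (mem_cons (W23368 D T h) (mem_cons (W23137 D T h) (mem_cons (W7994 D T h) (mem_cons (W2157 D T h) (mem_cons (W7441 D T h) (mem_cons (W16 D T h) (mem_cons (W23996 D T h) (mem_cons (W13466 D T h) (mem_cons (W23141 D T h) (mem_cons (W24003 D T h) (mem_cons (W12634 D T h) (mem_cons (W8153 D T h) (mem_cons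 (W23122 D T h) (mem_cons (W15884 D T h) (mem_cons (W15883 D T h) (mem_cons (W284 D T h) (mem_cons (W9412 D T h) (mem_cons (W23998 D T h) (mem_cons (W9411 D T h) (mem_cons (W18058 D T h) (mem_cons (W23999 D T h) (mem_cons (W23148 D T h) (mem_cons (W24000 D T h) (mem_cons (W24001 D T h) (mem_cons (W24002 D T h) (mem_cons (W23815 D T h) (mem_cons (W23133 D T h) (mem_cons (W24004 D T h) (mem_cons (W24005 D T h) mem_nil))))))))))))))))))))))))))))))))))))))))) cl5427
theorem W24006 : WFK w24006 := fun D T h => wf_of_chk h mem_nil (mem_cons (L5427 D T h) mem_nil) cw24006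
theorem W24007 : WFK w24007 := fun D T h => wf_of_chk h (mem_cons (W162 D T h) (mem_cons (W368 D T h) mem_nil)) mem_nil cw24007
theorem W24008 : WFK w24008 := fun D T h => wf_of_chk h (mem_cons (W42 D T h) (mem_cons (W368 D T h) mem_nil)) mem_nil cw24008
theorem W24009 : WFK w24009 := fun D T h => wf_of_chk h (mem_cons (W260 D T h) (mem_cons (W16 D T h) mem_nil)) mem_nil cw24009
theorem W24010 : WFK w24010 := fun D T h => wf_of_chk h (mem_cons (W2887 D T h) (mem_cons (W368 D T h) mem_nil)) mem_nil cw24010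
theorem L5428 : LFK l5428 := fun D T h => lf_of_chk h (mem_cons (W7578 D T h) (mem_cons (W21280 D T h) (mem_cons (W21420 D T h) (mem_cons (W21281 D T h) (mem_cons (W3006 D T h) (mem_cons (W368 D T h) (mem_cons (W2936 D T h) (mem_cons (W8783 D T h) (mem_cons (W9025 D T h) (mem_cons (W23156 D T h) (mem_cons (W24008 D T h) (mem_cons (W22196 D T h) (mem_cons (W23368 D T h) (mem_cons (W23180 D T h) (mem_cons (W7994 D T h) (mem_cons (W2157 D T h) (mem_cons (W17476 D T h) (mem_cons (W16 D T h) (mem_cons (W24007 D T h) (mem_cons (W13466 D T h) (mem_cons (W15486 D T h) (mem_cons (W24010 D T h) (mem_cons (W12634 D T h) (mem_cons (W8153 D T h) (mem_cons (W23169 D T h) (mem_cons (W15884 D T h) (mem_cons (W15883 D T h) (mem_cons (W284 D T h) (mem_cons (W9412 D T h) (mem_cons (W24009 D T h) (mem_cons (W9411 D T h) (mem_cons (W18058 D T h) (mem_cons (W17032 D T h) (mem_cons (W23815 D T h) (mem_cons (W23804 D T h) (mem_cons (W20367 D T h) (mem_cons (W24005 D T h) mem_nil)))))))))))))))))))))))))))))))))))))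 cl5428
theorem W24011 : WFK w24011 := fun D T h => wf_of_chk h mem_nil (mem_cons (L5428 D T h) mem_nil) cw24011
theorem W24012 : WFK w24012 := fun D T h => wf_of_chk h (mem_cons (W3878 D T h) (mem_cons (W2375 D T h) mem_nil)) mem_nil cw24012
theorem W24013 : WFK w24013 := fun D T h => wf_of_chk h mem_nil (mem_cons (L5399 D T h) mem_nil) cw24013
theorem W24014 : WFK w24014 := fun D T h => wf_of_chk h mem_nil (mem_cons (L5117 D T h) mem_nil) cw24014
theorem W24015 : WFK w24015 := fun D T h => wf_of_chk h mem_nil (mem_cons (L5353 D T h) mem_nil) cw24015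
theorem W24016 : WFK w24016 := fun D T h => wf_of_chk h mem_nil (mem_cons (L3546 D T h) mem_nil) cw24016
theorem W24017 : WFK w24017 := fun D T h => wf_of_chk h (mem_cons (W24016 D T h) (mem_cons (W16 D T h) mem_nil)) mem_nil cw24017
theorem L5429 : LFK l5429 := fun D T h => lf_of_chk h (mem_cons (W7212 D T h) (mem_cons (W18159 D T h) (mem_cons (W2766 D T h) (mem_cons (W9005 D T h) (mem_cons (W69 D T h) (mem_cons (W370 D T h) (mem_cons (W4262 D T h) (mem_cons (W391 D T h) (mem_cons (W2529 D T h) (mem_cons (W18348 D T h) (mem_cons (W2575 D T h) (mem_cons (W23945 D T h) (mem_cons (W2934 D T h) (mem_cons (W24015 D T h) (mem_cons (W1631 D T h) (mem_cons (W5177 D T h) (mem_cons (W24017 D T h) mem_nil))))))))))))))))) cl5429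
theorem W24018 : WFK w24018 := fun D T h => wf_of_chk h mem_nil (mem_cons (L5429 D T h) mem_nil) cw24018
theorem L5430 : LFK l5430 := fun D T h => lf_of_chk h (mem_cons (W2797 D T h) (mem_cons (W154 D T h) (mem_cons (W91 D T h) (mem_cons (W141 D T h) (mem_cons (W14518 D T h) (mem_cons (W2521 D T h) (mem_cons (W1937 D T h) (mem_cons (W1143 D T h) (mem_cons (W14484 D T h) (mem_cons (W4619 D T h) (mem_cons (W5906 D T h) (mem_cons (W1935 D T h) (mem_cons (W817 D T h) (mem_cons (W3560 D T h) (mem_cons (W16463 D T h) (mem_cons (W6861 D T h) (mem_cons (W9206 D T h) (mem_cons (W2879 D T h) mem_nil)))))))))))))))))) cl5430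
theorem W24019 : WFK w24019 := fun D T h => wf_of_chk h mem_nil (mem_cons (L5430 D T h) mem_nil) cw24019
theorem L5431 : LFK l5431 := fun D T h => lf_of_chk h (mem_cons (W2887 D T h) (mem_cons (W162 D T h) (mem_cons (W42 D T h) (mem_cons (W925 D T h) (mem_cons (W721 D T h) (mem_cons (W7959 D T h) (mem_cons (W18664 D T h) (mem_cons (W431 D T h) (mem_cons (W24019 D T h) (mem_cons (W6916 D T h) (mem_cons (W3193 D T h) (mem_cons (W5654 D T h) mem_nil)))))))))))) cl5431
theorem W24020 : WFK w24020 := fun D T h => wf_of_chk h mem_nil (mem_cons (L5431 D T h) mem_nil) cw24020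
theorem W24021 : WFK w24021 := fun D T h => wf_of_chk h (mem_cons (W24020 D T h) (mem_cons (W710 D T h) mem_nil)) mem_nil cw24021
theorem W24022 : WFK w24022 := fun D T h => wf_of_chk h (mem_cons (W284 D T h) (mem_cons (W22987 D T h) mem_nil)) mem_nil cw24022
theorem L5432 : LFK l5432 := fun D T h => lf_of_chk h (mem_cons (W219 D T h) (mem_cons (W499 D T h) (mem_cons (W15 D T h) (mem_cons (W91 D T h) (mem_cons (W141 D T h) (mem_cons (W14518 D T h) (mem_cons (W16464 D T h) (mem_cons (W9595 D T h) (mem_cons (W2797 D T h) (mem_cons (W5158 D T h) mem_nil)))))))))) cl5432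
theorem W24023 : WFK w24023 := fun D T h => wf_of_chk h mem_nil (mem_cons (L5432 D T h) mem_nil) cw24023
theorem L5433 : LFK l5433 := fun D T h => lf_of_chk h (mem_cons (W2887 D T h) (mem_cons (W162 D T h) (mem_cons (W42 D T h) (mem_cons (W929 D T h) (mem_cons (W5633 D T h) (mem_cons (W721 D T h) (mem_cons (W1690 D T h) (mem_cons (W431 D T h) (mem_cons (W24023 D T h) (mem_cons (W6916 D T h) (mem_cons (W5673 D T h) (mem_cons (W5654 D T h) (mem_cons (W925 D T h) (mem_cons (W24019 D T h) (mem_cons (W5585 D T h) (mem_cons (W5655 D T h) mem_nil)))))))))))))))) cl5433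
theorem W24024 : WFK w24024 := fun D T h => wf_of_chk h mem_nil (mem_cons (L5433 D T h) mem_nil) cw24024
theorem W24025 : WFK w24025 := fun D T h => wf_of_chk h (mem_cons (W24024 D T h) (mem_cons (W710 D T h) mem_nil)) mem_nil cw24025
theorem L5434 : LFK l5434 := fun D T h => lf_of_chk h (mem_cons (W22880 D T h) (mem_cons (W6197 D T h) (mem_cons (W23768 D T h) (mem_cons (W18483 D T h) (mem_cons (W22900 D T h) (mem_cons (W710 D T h) (mem_cons (W7114 D T h) (mem_cons (W11140 D T h) (mem_cons (W2318 D T h) (mem_cons (W15824 D T h) (mem_cons (W19846 D T h) (mem_cons (W23035 D T h) (mem_cons (W23972 D T h) (mem_cons (W23973 D T h) (mem_cons (W23981 D T h) (mem_cons (W18484 D T h) (mem_cons (W18533 D T h) (mem_cons (W23664 D T h) (mem_cons (W15883 D T h) (mem_cons (W23757 D T h) (mem_cons (W23758 D T h) (mem_cons (W22974 D T h) (mem_cons (W22985 D T h) (mem_cons (W22987 D T h) (mem_cons (W23854 D T h) (mem_cons (W23027 D T h) (mem_cons (W8150 D T h) (mem_cons (W23893 D T h) (mem_cons (W24013 D T h)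 (mem_cons (W23745 D T h) (mem_cons (W22300 D T h) (mem_cons (W23746 D T h) (mem_cons (W24014 D T h) (mem_cons (W24018 D T h) (mem_cons (W24021 D T h) (mem_cons (W24022 D T h) (mem_cons (W24025 D T h) (mem_cons (W23894 D T h) (mem_cons (W7878 D T h) (mem_cons (W11192 D T h) (mem_cons (W23914 D T h) (mem_cons (W23920 D T h) (mem_cons (W23955 D T h) (mem_cons (W23963 D T h) (mem_cons (W23739 D T h) (mem_cons (W23970 D T h) (mem_cons (W22988 D T h) (mem_cons (W23021 D T h) (mem_cons (W23022 D T h) (mem_cons (W23024 D T h) (mem_cons (W23026 D T h) (mem_cons (W23028 D T h) (mem_cons (W23029 D T h) (mem_cons (W23030 D T h) (mem_cons (W23643 D T h) (mem_cons (W23778 D T h) (mem_cons (W7212 D T h) (mem_cons (W5721 D T h) (mem_cons (W23797 D T h) (mem_cons (W23816 D T h) (mem_cons (W23841 D T h) (mem_cons (W23852 D T h) (mem_cons (W23853 D T h) (mem_cons (W23982 D T h) (mem_cons (W23989 D T h) (mem_cons (W23995 D T h) (mem_cons (W24006 D T h) (mem_cons (W5258 D T h) (mem_cons (W24011 D T h) (mem_cons (W24012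 D T h) mem_nil)))))))))))))))))))))))))))))))))))))))))))))))))))))))))))))))))))))) cl5434
theorem W24026 : WFK w24026 := fun D T h => wf_of_chk h mem_nil (mem_cons (L5434 D T h) mem_nil) cw24026
theorem L5435 : LFK l5435 := fun D T h => lf_of_chk h (mem_cons (W4038 D T h) (mem_cons (W1 D T h) (mem_cons (W1291 D T h) (mem_cons (W1108 D T h) (mem_cons (W795 D T h) (mem_cons (W5258 D T h) (mem_cons (W1070 D T h) (mem_cons (W4632 D T h) (mem_cons (W3278 D T h) (mem_cons (W8908 D T h) (mem_cons (W6891 D T h) (mem_cons (W3274 D T h) (mem_cons (W1109 D T h) (mem_cons (W10253 D T h) (mem_cons (W10073 D T h) (mem_cons (W10344 D T h) (mem_cons (W3199 D T h) mem_nil))))))))))))))))) cl5435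
theorem W24027 : WFK w24027 := fun D T h => wf_of_chk h mem_nil (mem_cons (L5435 D T h) mem_nil) cw24027
theorem W24028 : WFK w24028 := fun D T h => wf_of_chk h (mem_cons (W710 D T h) (mem_cons (W1291 D T h) mem_nil)) mem_nil cw24028
theorem W24029 : WFK w24029 := fun D T h => wf_of_chk h (mem_cons (W126 D T h) (mem_cons (W1291 D T h) mem_nil)) mem_nil cw24029
theorem W24030 : WFK w24030 := fun D T h => wf_of_chk h mem_nil (mem_cons (L4963 D T h) mem_nil) cw24030
theorem W24100 : WFK w24100 := fun D T h => wf_of_chk h (mem_cons (W368 D T h) (mem_cons (W667 D T h) mem_nil)) mem_nil cw24100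
theorem W24101 : WFK w24101 := fun D T h => wf_of_chk h (mem_cons (W370 D T h) (mem_cons (W667 D T h) mem_nil)) mem_nil cw24101
theorem W24102 : WFK w24102 := fun D T h => wf_of_chk h (mem_cons (W23945 D T h) (mem_cons (W667 D T h) mem_nil)) mem_nil cw24102
theorem W24103 : WFK w24103 := fun D T h => wf_of_chk h (mem_cons (W23576 D T h) (mem_cons (W667 D T h) mem_nil)) mem_nil cw24103
theorem W24104 : WFK w24104 := fun D T h => wf_of_chk h (mem_cons (W2529 D T h) (mem_cons (W667 D T h) mem_nil)) mem_nil cw24104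
theorem W24105 : WFK w24105 := fun D T h => wf_of_chk h (mem_cons (W7212 D T h) (mem_cons (W667 D T h) mem_nil)) mem_nil cw24105

end Pool.Agent.W319.GCI.K5
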