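import Pool.Agent.W319.GCI.K5A13
set_option autoImplicit false
set_option maxRecDepth 100000
set_option linter.all false
namespace Pool.Agent.W319.GCI.K5
open Pool.Agent.W319.GCI

theorem W24106 : WFK w24106 := fun D T h => wf_of_chk h (mem_cons (W181 D T h) (mem_cons (W508 D T h) mem_nil)) mem_nil cw24106
theorem W24107 : WFK w24107 := fun D T h => wf_of_chk h (mem_cons (W17153 D T h) (mem_cons (W667 D T h) mem_nil)) mem_nil cw24107
theorem W24108 : WFK w24108 := fun D T h => wf_of_chk h (mem_cons (W5745 D T h) (mem_cons (W667 D T h) mem_nil)) mem_nil cw24108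
theorem W24109 : WFK w24109 := fun D T h => wf_of_chk h (mem_cons (W17153 D T h) (mem_cons (W667 D T h) mem_nil)) mem_nil cw24109
theorem W24110 : WFK w24110 := fun D T h => wf_of_chk h (mem_cons (W4277 D T h) (mem_cons (W667 D T h) mem_nil)) mem_nil cw24110
theorem W24111 : WFK w24111 := fun D T h => wf_of_chk h (mem_cons (W177 D T h) (mem_cons (W676 D T h) mem_nil)) mem_nil cw24111
theorem W24112 : WFK w24112 := fun D T h => wf_of_chk h (mem_cons (W177 D T h) (mem_cons (W676 D T h) mem_nil)) mem_nil cw24112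
theorem W24113 : WFK w24113 := fun D T h => wf_of_chk h (mem_cons (W126 D T h) (mem_cons (W508 D T h) mem_nil)) mem_nil cw24113
theorem L5448 : LFK l5448 := fun D T h => lf_of_chk h (mem_cons (W22415 D T h) (mem_cons (W9858 D T h) (mem_cons (W20277 D T h) (mem_cons (W15786 D T h) (mem_cons (W24100 D T h) (mem_cons (W24105 D T h) (mem_cons (W267 D T h) (mem_cons (W24101 D T h) (mem_cons (W24019 D T h) (mem_cons (W24102 D T h) (mem_cons (W24016 D T h) (mem_cons (W24103 D T h) (mem_cons (W24104 D T h) (mem_cons (W508 D T h) (mem_cons (W676 D T h) (mem_cons (W667 D T h) (mem_cons (W24111 D T h) (mem_cons (W24112 D T h) (mem_cons (W24113 D T h) (mem_cons (W1051 D T h) (mem_cons (W24106 D T h) (mem_cons (W17031 D T h) (mem_cons (W24107 D T h) (mem_cons (W3696 D T h) (mem_cons (W24108 D T h) (mem_cons (W24109 D T h) (mem_cons (W24110 D T h) mem_nil))))))))))))))))))))))))))) cl5448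
theorem W24114 : WFK w24114 := fun D T h => wf_of_chk h mem_nil (mem_cons (L5448 D T h) mem_nil) cw24114
theorem W24115 : WFK w24115 := fun D T h => wf_of_chk h (mem_cons (W368 D T h) (mem_cons (W669 D T h) mem_nil)) mem_nil cw24115
theorem W24116 : WFK w24116 := fun D T h => wf_of_chk h (mem_cons (W370 D T h) (mem_cons (W669 D T h) mem_nil)) mem_nil cw24116
theorem W24117 : WFK w24117 := fun D T h => wf_of_chk h (mem_cons (W23945 D T h) (mem_cons (W669 D T h) mem_nil)) mem_nil cw24117
theorem W24118 : WFK w24118 := fun D T h => wf_of_chk h (mem_cons (W23576 D T h) (mem_cons (W669 D T h) mem_nil)) mem_nil cw24118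
theorem W24119 : WFK w24119 := fun D T h => wf_of_chk h (mem_cons (W2529 D T h) (mem_cons (W669 D T h) mem_nil)) mem_nil cw24119
theorem W24120 : WFK w24120 := fun D T h => wf_of_chk h (mem_cons (W7212 D T h) (mem_cons (W669 D T h) mem_nil)) mem_nil cw24120
theorem W24121 : WFK w24121 := fun D T h => wf_of_chk h (mem_cons (W17153 D T h) (mem_cons (W669 D T h) mem_nil)) mem_nil cw24121
theorem W24122 : WFK w24122 := fun D T h => wf_of_chk h (mem_cons (W5745 D T h) (mem_cons (W669 D T h) mem_nil)) mem_nil cw24122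
theorem W24123 : WFK w24123 := fun D T h => wf_of_chk h (mem_cons (W17153 D T h) (mem_cons (W669 D T h) mem_nil)) mem_nil cw24123
theorem W24124 : WFK w24124 := fun D T h => wf_of_chk h (mem_cons (W4277 D T h) (mem_cons (W669 D T h) mem_nil)) mem_nil cw24124
theorem W24125 : WFK w24125 := fun D T h => wf_of_chk h (mem_cons (W177 D T h) (mem_cons (W676 D T h) mem_nil)) mem_nil cw24125
theorem W24126 : WFK w24126 := fun D T h => wf_of_chk h (mem_cons (W2323 D T h) (mem_cons (W508 D T h) mem_nil)) mem_nil cw24126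
theorem L5449 : LFK l5449 := fun D T h => lf_of_chk h (mem_cons (W22415 D T h) (mem_cons (W9859 D T h) (mem_cons (W23018 D T h) (mem_cons (W15786 D T h) (mem_cons (W24115 D T h) (mem_cons (W24120 D T h) (mem_cons (W267 D T h) (mem_cons (W24116 D T h) (mem_cons (W24019 D T h) (mem_cons (W24117 D T h) (mem_cons (W24016 D T h) (mem_cons (W24118 D T h) (mem_cons (W24119 D T h) (mem_cons (W508 D T h) (mem_cons (W676 D T h) (mem_cons (W50 D T h) (mem_cons (W24125 D T h) (mem_cons (W24126 D T h) (mem_cons (W24113 D T h) (mem_cons (W241 D T h) (mem_cons (W24106 D T h) (mem_cons (W17031 D T h) (mem_cons (W24121 D T h) (mem_cons (W3696 D T h) (mem_cons (W24122 D T h) (mem_cons (W24123 D T h) (mem_cons (W24124 D T h) mem_nil))))))))))))))))))))))))))) cl5449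
theorem W24127 : WFK w24127 := fun D T h => wf_of_chk h mem_nil (mem_cons (L5449 D T h) mem_nil) cw24127
theorem W24128 : WFK w24128 := fun D T h => wf_of_chk h mem_nil (mem_cons (L1080 D T h) mem_nil) cw24128
theorem W24129 : WFK w24129 := fun D T h => wf_of_chk h (mem_cons (W370 D T h) (mem_cons (W50 D T h) mem_nil)) mem_nil cw24129
theorem W24130 : WFK w24130 := fun D T h => wf_of_chk h (mem_cons (W23945 D T h) (mem_cons (W50 D T h) mem_nil)) mem_nil cw24130
theorem W24131 : WFK w24131 := fun D T h => wf_of_chk h (mem_cons (W23576 D T h) (mem_cons (W50 D T h) mem_nil)) mem_nil cw24131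
theorem W24132 : WFK w24132 := fun D T h => wf_of_chk h (mem_cons (W2529 D T h) (mem_cons (W50 D T h) mem_nil)) mem_nil cw24132
theorem W24133 : WFK w24133 := fun D T h => wf_of_chk h (mem_cons (W23945 D T h) (mem_cons (W50 D T h) mem_nil)) mem_nil cw24133
theorem W24134 : WFK w24134 := fun D T h => wf_of_chk h (mem_cons (W7212 D T h) (mem_cons (W50 D T h) mem_nil)) mem_nil cw24134
theorem W24135 : WFK w24135 := fun D T h => wf_of_chk h (mem_cons (W17153 D T h) (mem_cons (W50 D T h) mem_nil)) mem_nil cw24135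
theorem W24136 : WFK w24136 := fun D T h => wf_of_chk h (mem_cons (W5745 D T h) (mem_cons (W50 D T h) mem_nil)) mem_nil cw24136
theorem W24137 : WFK w24137 := fun D T h => wf_of_chk h (mem_cons (W17153 D T h) (mem_cons (W669 D T h) mem_nil)) mem_nil cw24137
theorem W24138 : WFK w24138 := fun D T h => wf_of_chk h (mem_cons (W17153 D T h) (mem_cons (W50 D T h) mem_nil)) mem_nil cw24138
theorem W24139 : WFK w24139 := fun D T h => wf_of_chk h (mem_cons (W4277 D T h) (mem_cons (W50 D T h) mem_nil)) mem_nil cw24139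
theorem L5450 : LFK l5450 := fun D T h => lf_of_chk h (mem_cons (W22415 D T h) (mem_cons (W9860 D T h) (mem_cons (W23018 D T h) (mem_cons (W20277 D T h) (mem_cons (W15786 D T h) (mem_cons (W24128 D T h) (mem_cons (W24134 D T h) (mem_cons (W267 D T h) (mem_cons (W24129 D T h) (mem_cons (W24019 D T h) (mem_cons (W24130 D T h) (mem_cons (W24016 D T h) (mem_cons (W24131 D T h) (mem_cons (W24132 D T h) (mem_cons (W24133 D T h) (mem_cons (W508 D T h) (mem_cons (W676 D T h) (mem_cons (W669 D T h) (mem_cons (W24111 D T h) (mem_cons (W509 D T h) (mem_cons (W24112 D T h) (mem_cons (W24113 D T h) (mem_cons (W1051 D T h) (mem_cons (W24106 D T h) (mem_cons (W17031 D T h) (mem_cons (W24135 D T h) (mem_cons (W3696 D T h) (mem_cons (W24136 D T h) (mem_cons (W24137 D T h) (mem_cons (W24138 D T h) (mem_cons (W24139 D T h) mem_nil))))))))))))))))))))))))))))))) cl5450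
theorem W24140 : WFK w24140 := fun D T h => wf_of_chk h mem_nil (mem_cons (L5450 D T h) mem_nil) cw24140
theorem W24141 : WFK w24141 := fun D T h => wf_of_chk h mem_nil (mem_cons (L2524 D T h) mem_nil) cw24141
theorem W24142 : WFK w24142 := fun D T h => wf_of_chk h (mem_cons (W3953 D T h) (mem_cons (W181 D T h) mem_nil)) mem_nil cw24142
theorem W24143 : WFK w24143 := fun D T h => wf_of_chk h mem_nil (mem_cons (L265 D T h) mem_nil) cw24143
theorem W24144 : WFK w24144 := fun D T h => wf_of_chk h mem_nil (mem_cons (L265 D T h) mem_nil) cw24144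
theorem W24145 : WFK w24145 := fun D T h => wf_of_chk h (mem_cons (W162 D T h) (mem_cons (W1184 D T h) mem_nil)) mem_nil cw24145
theorem W24146 : WFK w24146 := fun D T h => wf_of_chk h (mem_cons (W162 D T h) (mem_cons (W1184 D T h) mem_nil)) mem_nil cw24146
theorem W24147 : WFK w24147 := fun D T h => wf_of_chk h (mem_cons (W4518 D T h) (mem_cons (W16 D T h) mem_nil)) mem_nil cw24147
theorem L5451 : LFK l5451 := fun D T h => lf_of_chk h (mem_cons (W13890 D T h) (mem_cons (W1616 D T h) (mem_cons (W1129 D T h) (mem_cons (W126 D T h) (mem_cons (W19264 D T h) (mem_cons (W24147 D T h) (mem_cons (W2766 D T h) (mem_cons (W5946 D T h) (mem_cons (W140 D T h) (mem_cons (W141 D T h) (mem_cons (W1128 D T h) (mem_cons (W3274 D T h) (mem_cons (W12 D T h) (mem_cons (W5358 D T h) mem_nil)))))))))))))) cl5451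
theorem W24148 : WFK w24148 := fun D T h => wf_of_chk h mem_nil (mem_cons (L5451 D T h) mem_nil) cw24148
theorem W24149 : WFK w24149 := fun D T h => wf_of_chk h mem_nil (mem_cons (L2227 D T h) mem_nil) cw24149
theorem W24150 : WFK w24150 := fun D T h => wf_of_chk h (mem_cons (W20825 D T h) (mem_cons (W16 D T h) mem_nil)) mem_nil cw24150
theorem W24151 : WFK w24151 := fun D T h => wf_of_chk h (mem_cons (W6782 D T h) (mem_cons (W16 D T h) mem_nil)) mem_nil cw24151
theorem W24152 : WFK w24152 := fun D T h => wf_of_chk h (mem_cons (W1139 D T h) (mem_cons (W1170 D T h) mem_nil)) mem_nil cw24152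
theorem W24153 : WFK w24153 := fun D T h => wf_of_chk h (mem_cons (W1066 D T h) (mem_cons (W1184 D T h) mem_nil)) mem_nil cw24153
theorem W24154 : WFK w24154 := fun D T h => wf_of_chk h (mem_cons (W12906 D T h) (mem_cons (W181 D T h) mem_nil)) mem_nil cw24154
theorem W24155 : WFK w24155 := fun D T h => wf_of_chk h (mem_cons (W7311 D T h) (mem_cons (W181 D T h) mem_nil)) mem_nil cw24155
theorem W24156 : WFK w24156 := fun D T h => wf_of_chk h (mem_cons (W15147 D T h) (mem_cons (W181 D T h) mem_nil)) mem_nil cw24156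
theorem W24157 : WFK w24157 := fun D T h => wf_of_chk h mem_nil (mem_cons (L5451 D T h) mem_nil) cw24157
theorem W24158 : WFK w24158 := fun D T h => wf_of_chk h (mem_cons (W162 D T h) (mem_cons (W1184 D T h) mem_nil)) mem_nil cw24158
theorem W24159 : WFK w24159 := fun D T h => wf_of_chk h (mem_cons (W11263 D T h) (mem_cons (W16 D T h) mem_nil)) mem_nil cw24159
theorem W24160 : WFK w24160 := fun D T h => wf_of_chk h (mem_cons (W114 D T h) (mem_cons (W1170 D T h) mem_nil)) mem_nil cw24160
theorem W24161 : WFK w24161 := fun D T h => wf_of_chk h (mem_cons (W114 D T h) (mem_cons (W1170 D T h) mem_nil)) mem_nil cw24161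
theorem W24162 : WFK w24162 := fun D T h => wf_of_chk h (mem_cons (W15491 D T h) (mem_cons (W181 D T h) mem_nil)) mem_nil cw24162
theorem W24163 : WFK w24163 := fun D T h => wf_of_chk h (mem_cons (W16 D T h) (mem_cons (W80 D T h) mem_nil)) mem_nil cw24163
theorem W24164 : WFK w24164 := fun D T h => wf_of_chk h (mem_cons (W126 D T h) (mem_cons (W181 D T h) mem_nil)) mem_nil cw24164
theorem W24169 : WFK w24169 := fun D T h => wf_of_chk h (mem_cons (W667 D T h) (mem_cons (W80 D T h) mem_nil)) mem_nil cw24169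
theorem W24170 : WFK w24170 := fun D T h => wf_of_chk h (mem_cons (W669 D T h) (mem_cons (W80 D T h) mem_nil)) mem_nil cw24170
theorem W24171 : WFK w24171 := fun D T h => wf_of_chk h (mem_cons (W669 D T h) (mem_cons (W80 D T h) mem_nil)) mem_nil cw24171
theorem W24172 : WFK w24172 := fun D T h => wf_of_chk h (mem_cons (W50 D T h) (mem_cons (W80 D T h) mem_nil)) mem_nil cw24172
theorem W24173 : WFK w24173 := fun D T h => wf_of_chk h (mem_cons (W50 D T h) (mem_cons (W80 D T h) mem_nil)) mem_nil cw24173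
theorem W24174 : WFK w24174 := fun D T h => wf_of_chk h (mem_cons (W10685 D T h) (mem_cons (W16 D T h) mem_nil)) mem_nil cw24174
theorem W24175 : WFK w24175 := fun D T h => wf_of_chk h (mem_cons (W112 D T h) (mem_cons (W80 D T h) mem_nil)) mem_nil cw24175
theorem W24176 : WFK w24176 := fun D T h => wf_of_chk h mem_nil (mem_cons (L3426 D T h) mem_nil) cw24176
theorem L5452 : LFK l5452 := fun D T h => lf_of_chk h (mem_cons (W15786 D T h) (mem_cons (W1675 D T h) (mem_cons (W15760 D T h) (mem_cons (W1 D T h) (mem_cons (W69 D T h) (mem_cons (W198 D T h) (mem_cons (W17153 D T h) (mem_cons (W2944 D T h) (mem_cons (W24174 D T h) (mem_cons (W1204 D T h) (mem_cons (W1170 D T h) (mem_cons (W267 D T h) (mem_cons (W24175 D T h) (mem_cons (W114 D T h) (mem_cons (W721 D T h) (mem_cons (W24176 D T h) mem_nil)))))))))))))))) cl5452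
theorem W24177 : WFK w24177 := fun D T h => wf_of_chk h mem_nil (mem_cons (L5452 D T h) mem_nil) cw24177
theorem W24178 : WFK w24178 := fun D T h => wf_of_chk h (mem_cons (W162 D T h) (mem_cons (W80 D T h) mem_nil)) mem_nil cw24178
theorem W24179 : WFK w24179 := fun D T h => wf_of_chk h mem_nil (mem_cons (L1167 D T h) mem_nil) cw24179
theorem W24180 : WFK w24180 := fun D T h => wf_of_chk h (mem_cons (W16 D T h) mem_nil) mem_nil cw24180
theorem W24181 : WFK w24181 := fun D T h => wf_of_chk h (mem_cons (W14058 D T h) (mem_cons (W16 D T h) mem_nil)) mem_nil cw24181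
theorem W24182 : WFK w24182 := fun D T h => wf_of_chk h (mem_cons (W22653 D T h) (mem_cons (W16 D T h) mem_nil)) mem_nil cw24182
theorem W24183 : WFK w24183 := fun D T h => wf_of_chk h (mem_cons (W539 D T h) (mem_cons (W16 D T h) mem_nil)) mem_nil cw24183
theorem L5453 : LFK l5453 := fun D T h => lf_of_chk h (mem_cons (W24163 D T h) (mem_cons (W56 D T h) (mem_cons (W1184 D T h) (mem_cons (W220 D T h) (mem_cons (W3283 D T h) (mem_cons (W16 D T h) (mem_cons (W1675 D T h) (mem_cons (W24164 D T h) (mem_cons (W9311 D T h) (mem_cons (W6714 D T h) (mem_cons (W5841 D T h) (mem_cons (W24177 D T h) (mem_cons (W24178 D T h) (mem_cons (W2936 D T h) (mem_cons (W24179 D T h) (mem_cons (W9025 D T h) (mem_cons (W7298 D T h) (mem_cons (W864 D T h) (mem_cons (W1663 D T h) (mem_cons (W5553 D T h) (mem_cons (W1657 D T h) (mem_cons (W16178 D T h) (mem_cons (W8346 D T h) (mem_cons (W15825 D T h) (mem_cons (W24169 D T h) (mem_cons (W24170 D T h) (mem_cons (W24171 D T h) (mem_cons (W24172 D T h) (mem_cons (W24173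 D T h) (mem_cons (W7552 D T h) (mem_cons (W20884 D T h) (mem_cons (W2515 D T h) (mem_cons (W24181 D T h) (mem_cons (W1128 D T h) (mem_cons (W16457 D T h) (mem_cons (W24182 D T h) (mem_cons (W24180 D T h) (mem_cons (W24183 D T h) (mem_cons (W4650 D T h) (mem_cons (W6568 D T h) (mem_cons (W6390 D T h) (mem_cons (W17153 D T h) mem_nil)))))))))))))))))))))))))))))))))))))))))) cl5453
theorem W24184 : WFK w24184 := fun D T h => wf_of_chk h mem_nil (mem_cons (L5453 D T h) mem_nil) cw24184
theorem W24185 : WFK w24185 := fun D T h => wf_of_chk h (mem_cons (W16 D T h) (mem_cons (W3031 D T h) mem_nil)) mem_nil cw24185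
theorem W24186 : WFK w24186 := fun D T h => wf_of_chk h (mem_cons (W4162 D T h) (mem_cons (W16 D T h) mem_nil)) mem_nil cw24186
theorem W24187 : WFK w24187 := fun D T h => wf_of_chk h (mem_cons (W20957 D T h) (mem_cons (W16 D T h) mem_nil)) mem_nil cw24187
theorem L5454 : LFK l5454 := fun D T h => lf_of_chk h (mem_cons (W20884 D T h) (mem_cons (W619 D T h) (mem_cons (W675 D T h) (mem_cons (W5829 D T h) (mem_cons (W5830 D T h) (mem_cons (W16 D T h) (mem_cons (W1399 D T h) (mem_cons (W4 D T h) (mem_cons (W33 D T h) (mem_cons (W866 D T h) (mem_cons (W248 D T h) (mem_cons (W17153 D T h) mem_nil)))))))))))) cl5454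
theorem W24188 : WFK w24188 := fun D T h => wf_of_chk h mem_nil (mem_cons (L5454 D T h) mem_nil) cw24188
theorem W24189 : WFK w24189 := fun D T h => wf_of_chk h (mem_cons (W368 D T h) (mem_cons (W3031 D T h) mem_nil)) mem_nil cw24189
theorem W24190 : WFK w24190 := fun D T h => wf_of_chk h mem_nil (mem_cons (L3461 D T h) mem_nil) cw24190
theorem W24191 : WFK w24191 := fun D T h => wf_of_chk h (mem_cons (W1326 D T h) mem_nil) mem_nil cw24191
theorem W24192 : WFK w24192 := fun D T h => wf_of_chk h (mem_cons (W24191 D T h) (mem_cons (W16 D T h) mem_nil)) mem_nil cw24192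
theorem W24193 : WFK w24193 := fun D T h => wf_of_chk h (mem_cons (W39 D T h) mem_nil) mem_nil cw24193
theorem W24194 : WFK w24194 := fun D T h => wf_of_chk h (mem_cons (W24193 D T h) (mem_cons (W16 D T h) mem_nil)) mem_nil cw24194
theorem L5455 : LFK l5455 := fun D T h => lf_of_chk h (mem_cons (W15147 D T h) (mem_cons (W7084 D T h) (mem_cons (W5875 D T h) (mem_cons (W5250 D T h) (mem_cons (W1063 D T h) (mem_cons (W42 D T h) (mem_cons (W24185 D T h) (mem_cons (W24186 D T h) (mem_cons (W495 D T h) (mem_cons (W497 D T h) (mem_cons (W24187 D T h) (mem_cons (W24188 D T h) (mem_cons (W2015 D T h) (mem_cons (W6714 D T h) (mem_cons (W1449 D T h) (mem_cons (W24194 D T h) (mem_cons (W21648 D T h) (mem_cons (W13466 D T h) (mem_cons (W22196 D T h) (mem_cons (W13596 D T h) (mem_cons (W21042 D T h) (mem_cons (W24189 D T h) (mem_cons (W7076 D T h) (mem_cons (W23896 D T h) (mem_cons (W1326 D T h) (mem_cons (W7559 D T h) (mem_cons (W24190 D T h) (mem_cons (W24192 D T h) (mem_cons (W7311 D T h) (mem_cons (W5874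 D T h) mem_nil)))))))))))))))))))))))))))))) cl5455
theorem W24195 : WFK w24195 := fun D T h => wf_of_chk h mem_nil (mem_cons (L5455 D T h) mem_nil) cw24195
theorem W24196 : WFK w24196 := fun D T h => wf_of_chk h (mem_cons (W20107 D T h) (mem_cons (W16 D T h) mem_nil)) mem_nil cw24196
theorem W24197 : WFK w24197 := fun D T h => wf_of_chk h mem_nil (mem_cons (L2082 D T h) mem_nil) cw24197
theorem W24198 : WFK w24198 := fun D T h => wf_of_chk h (mem_cons (W11439 D T h) (mem_cons (W16 D T h) mem_nil)) mem_nil cw24198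
theorem W24199 : WFK w24199 := fun D T h => wf_of_chk h (mem_cons (W11381 D T h) (mem_cons (W16 D T h) mem_nil)) mem_nil cw24199
theorem W24200 : WFK w24200 := fun D T h => wf_of_chk h (mem_cons (W1217 D T h) (mem_cons (W16 D T h) mem_nil)) mem_nil cw24200
theorem W24201 : WFK w24201 := fun D T h => wf_of_chk h (mem_cons (W3035 D T h) (mem_cons (W181 D T h) mem_nil)) mem_nil cw24201
theorem W24202 : WFK w24202 := fun D T h => wf_of_chk h mem_nil (mem_cons (L5304 D T h) mem_nil) cw24202
theorem W24203 : WFK w24203 := fun D T h => wf_of_chk h (mem_cons (W24202 D T h) (mem_cons (W16 D T h) mem_nil)) mem_nil cw24203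
theorem W24204 : WFK w24204 := fun D T h => wf_of_chk h (mem_cons (W112 D T h) mem_nil) mem_nil cw24204
theorem W24205 : WFK w24205 := fun D T h => wf_of_chk h (mem_cons (W24204 D T h) (mem_cons (W16 D T h) mem_nil)) mem_nil cw24205
theorem W24206 : WFK w24206 := fun D T h => wf_of_chk h (mem_cons (W20105 D T h) (mem_cons (W16 D T h) mem_nil)) mem_nil cw24206
theorem W24207 : WFK w24207 := fun D T h => wf_of_chk h (mem_cons (W20104 D T h) (mem_cons (W16 D T h) mem_nil)) mem_nil cw24207
theorem W24208 : WFK w24208 := fun D T h => wf_of_chk h (mem_cons (W965 D T h) (mem_cons (W16 D T h) mem_nil)) mem_nil cw24208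
theorem W24209 : WFK w24209 := fun D T h => wf_of_chk h (mem_cons (W20108 D T h) (mem_cons (W16 D T h) mem_nil)) mem_nil cw24209
theorem W24210 : WFK w24210 := fun D T h => wf_of_chk h mem_nil (mem_cons (L5013 D T h) mem_nil) cw24210
theorem W24211 : WFK w24211 := fun D T h => wf_of_chk h mem_nil (mem_cons (L5012 D T h) mem_nil) cw24211
theorem L5461 : LFK l5461 := fun D T h => lf_of_chk h (mem_cons (W15784 D T h) (mem_cons (W12514 D T h) (mem_cons (W86 D T h) (mem_cons (W1501 D T h) (mem_cons (W2724 D T h) (mem_cons (W39 D T h) (mem_cons (W4531 D T h) (mem_cons (W2726 D T h) (mem_cons (W16604 D T h) (mem_cons (W15786 D T h) (mem_cons (W16972 D T h) (mem_cons (W8275 D T h) (mem_cons (W201 D T h) (mem_cons (W24210 D T h) (mem_cons (W24211 D T h) (mem_cons (W11290 D T h) mem_nil)))))))))))))))) cl5461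
theorem W24220 : WFK w24220 := fun D T h => wf_of_chk h mem_nil (mem_cons (L5461 D T h) mem_nil) cw24220
theorem W24221 : WFK w24221 := fun D T h => wf_of_chk h (mem_cons (W199 D T h) (mem_cons (W181 D T h) mem_nil)) mem_nil cw24221
theorem W24222 : WFK w24222 := fun D T h => wf_of_chk h (mem_cons (W80 D T h) (mem_cons (W6714 D T h) mem_nil)) mem_nil cw24222
theorem W24223 : WFK w24223 := fun D T h => wf_of_chk h (mem_cons (W1265 D T h) (mem_cons (W16 D T h) mem_nil)) mem_nil cw24223
theorem W24224 : WFK w24224 := fun D T h => wf_of_chk h (mem_cons (W22548 D T h) (mem_cons (W6714 D T h) mem_nil)) mem_nil cw24224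
theorem W24225 : WFK w24225 := fun D T h => wf_of_chk h (mem_cons (W1679 D T h) (mem_cons (W6714 D T h) mem_nil)) mem_nil cw24225
theorem W24226 : WFK w24226 := fun D T h => wf_of_chk h (mem_cons (W2515 D T h) (mem_cons (W6714 D T h) mem_nil)) mem_nil cw24226
theorem W24227 : WFK w24227 := fun D T h => wf_of_chk h (mem_cons (W112 D T h) mem_nil) mem_nil cw24227
theorem L5462 : LFK l5462 := fun D T h => lf_of_chk h (mem_cons (W3 D T h) (mem_cons (W812 D T h) (mem_cons (W1072 D T h) (mem_cons (W6717 D T h) mem_nil)))) cl5462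
theorem W24228 : WFK w24228 := fun D T h => wf_of_chk h mem_nil (mem_cons (L5462 D T h) mem_nil) cw24228
theorem W24229 : WFK w24229 := fun D T h => wf_of_chk h mem_nil (mem_cons (L496 D T h) mem_nil) cw24229
theorem L5463 : LFK l5463 := fun D T h => lf_of_chk h (mem_cons (W1449 D T h) (mem_cons (W162 D T h) (mem_cons (W4555 D T h) (mem_cons (W3 D T h) (mem_cons (W3406 D T h) (mem_cons (W3407 D T h) (mem_cons (W154 D T h) (mem_cons (W2729 D T h) (mem_cons (W199 D T h) (mem_cons (W201 D T h) (mem_cons (W24228 D T h) (mem_cons (W2106 D T h) (mem_cons (W22271 D T h) (mem_cons (W24229 D T h) (mem_cons (W24227 D T h) (mem_cons (W12 D T h) (mem_cons (W13 D T h) (mem_cons (W2120 D T h) (mem_cons (W2121 D T h) (mem_cons (W19929 D T h) mem_nil)))))))))))))))))))) cl5463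
theorem W24230 : WFK w24230 := fun D T h => wf_of_chk h mem_nil (mem_cons (L5463 D T h) mem_nil) cw24230
theorem L5464 : LFK l5464 := fun D T h => lf_of_chk h mem_nil cl5464
theorem W24231 : WFK w24231 := fun D T h => wf_of_chk h mem_nil (mem_cons (L5464 D T h) mem_nil) cw24231
theorem L5465 : LFK l5465 := fun D T h => lf_of_chk h mem_nil cl5465
theorem W24232 : WFK w24232 := fun D T h => wf_of_chk h mem_nil (mem_cons (L5465 D T h) mem_nil) cw24232
theorem L5466 : LFK l5466 := fun D T h => lf_of_chk h mem_nil cl5466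
theorem W24233 : WFK w24233 := fun D T h => wf_of_chk h mem_nil (mem_cons (L5466 D T h) mem_nil) cw24233
theorem L5467 : LFK l5467 := fun D T h => lf_of_chk h (mem_cons (W201 D T h) (mem_cons (W922 D T h) (mem_cons (W13590 D T h) (mem_cons (W3 D T h) (mem_cons (W3081 D T h) (mem_cons (W234 D T h) (mem_cons (W2087 D T h) (mem_cons (W954 D T h) (mem_cons (W15790 D T h) (mem_cons (W3774 D T h) (mem_cons (W2086 D T h) (mem_cons (W13 D T h) (mem_cons (W24231 D T h) (mem_cons (W24232 D T h) (mem_cons (W24233 D T h) mem_nil))))))))))))))) cl5467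
theorem W24234 : WFK w24234 := fun D T h => wf_of_chk h mem_nil (mem_cons (L5467 D T h) mem_nil) cw24234
theorem W24235 : WFK w24235 := fun D T h => wf_of_chk h (mem_cons (W831 D T h) (mem_cons (W6714 D T h) mem_nil)) mem_nil cw24235
theorem W24236 : WFK w24236 := fun D T h => wf_of_chk h (mem_cons (W112 D T h) mem_nil) mem_nil cw24236
theorem W24237 : WFK w24237 := fun D T h => wf_of_chk h (mem_cons (W112 D T h) mem_nil) mem_nil cw24237
theorem W24238 : WFK w24238 := fun D T h => wf_of_chk h (mem_cons (W15870 D T h) mem_nil) mem_nil cw24238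
theorem W24239 : WFK w24239 := fun D T h => wf_of_chk h mem_nil (mem_cons (L5467 D T h) mem_nil) cw24239
theorem W24240 : WFK w24240 := fun D T h => wf_of_chk h mem_nil (mem_cons (L5467 D T h) mem_nil) cw24240
theorem W24241 : WFK w24241 := fun D T h => wf_of_chk h mem_nil (mem_cons (L5467 D T h) mem_nil) cw24241
theorem L5468 : LFK l5468 := fun D T h => lf_of_chk h (mem_cons (W1449 D T h) (mem_cons (W162 D T h) (mem_cons (W4100 D T h) (mem_cons (W7609 D T h) (mem_cons (W3 D T h) (mem_cons (W3406 D T h) (mem_cons (W3407 D T h) (mem_cons (W922 D T h) (mem_cons (W13590 D T h) (mem_cons (W199 D T h) (mem_cons (W201 D T h) (mem_cons (W24239 D T h) (mem_cons (W2106 D T h) (mem_cons (W24240 D T h) (mem_cons (W22271 D T h) (mem_cons (W24241 D T h) (mem_cons (W24236 D T h) (mem_cons (W12 D T h) (mem_cons (W24237 D T h) (mem_cons (W13 D T h) (mem_cons (W14736 D T h) (mem_cons (W24238 D T h) (mem_cons (W23876 D T h) mem_nil))))))))))))))))))))))) cl5468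
theorem W24242 : WFK w24242 := fun D T h => wf_of_chk h mem_nil (mem_cons (L5468 D T h) mem_nil) cw24242
theorem W24243 : WFK w24243 := fun D T h => wf_of_chk h (mem_cons (W112 D T h) mem_nil) mem_nil cw24243
theorem W24244 : WFK w24244 := fun D T h => wf_of_chk h mem_nil (mem_cons (L4861 D T h) mem_nil) cw24244
theorem W24245 : WFK w24245 := fun D T h => wf_of_chk h mem_nil (mem_cons (L778 D T h) mem_nil) cw24245
theorem L5469 : LFK l5469 := fun D T h => lf_of_chk h (mem_cons (W1449 D T h) (mem_cons (W162 D T h) (mem_cons (W4100 D T h) (mem_cons (W5638 D T h) (mem_cons (W3 D T h) (mem_cons (W3406 D T h) (mem_cons (W3407 D T h) (mem_cons (W7 D T h) (mem_cons (W1072 D T h) (mem_cons (W199 D T h) (mem_cons (W201 D T h) (mem_cons (W24245 D T h) (mem_cons (W24243 D T h) (mem_cons (W12 D T h) (mem_cons (W13 D T h) (mem_cons (W14736 D T h) (mem_cons (W24244 D T h) (mem_cons (W23876 D T h) mem_nil)))))))))))))))))) cl5469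
theorem W24246 : WFK w24246 := fun D T h => wf_of_chk h mem_nil (mem_cons (L5469 D T h) mem_nil) cw24246
theorem W24260 : WFK w24260 := fun D T h => wf_of_chk h (mem_cons (W112 D T h) mem_nil) mem_nil cw24260
theorem W24261 : WFK w24261 := fun D T h => wf_of_chk h (mem_cons (W112 D T h) mem_nil) mem_nil cw24261
theorem W24262 : WFK w24262 := fun D T h => wf_of_chk h (mem_cons (W15870 D T h) mem_nil) mem_nil cw24262
theorem W24263 : WFK w24263 := fun D T h => wf_of_chk h mem_nil (mem_cons (L485 D T h) mem_nil) cw24263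
theorem L5470 : LFK l5470 := fun D T h => lf_of_chk h (mem_cons (W1449 D T h) (mem_cons (W162 D T h) (mem_cons (W3445 D T h) (mem_cons (W3444 D T h) (mem_cons (W3 D T h) (mem_cons (W3406 D T h) (mem_cons (W3407 D T h) (mem_cons (W817 D T h) (mem_cons (W2090 D T h) (mem_cons (W199 D T h) (mem_cons (W201 D T h) (mem_cons (W20458 D T h) (mem_cons (W2106 D T h) (mem_cons (W24263 D T h) (mem_cons (W22271 D T h) (mem_cons (W2136 D T h) (mem_cons (W24260 D T h) (mem_cons (W12 D T h) (mem_cons (W24261 D T h) (mem_cons (W13 D T h) (mem_cons (W14736 D T h) (mem_cons (W24262 D T h) (mem_cons (W19934 D T h) mem_nil))))))))))))))))))))))) cl5470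
theorem W24264 : WFK w24264 := fun D T h => wf_of_chk h mem_nil (mem_cons (L5470 D T h) mem_nil) cw24264
theorem L5471 : LFK l5471 := fun D T h => lf_of_chk h (mem_cons (W24196 D T h) (mem_cons (W1449 D T h) (mem_cons (W24220 D T h) (mem_cons (W1184 D T h) (mem_cons (W162 D T h) (mem_cons (W2517 D T h) (mem_cons (W7114 D T h) (mem_cons (W24201 D T h) (mem_cons (W5841 D T h) (mem_cons (W24208 D T h) (mem_cons (W22476 D T h) (mem_cons (W21208 D T h) (mem_cons (W20457 D T h) (mem_cons (W24209 D T h) (mem_cons (W24197 D T h) (mem_cons (W24146 D T h) (mem_cons (W15491 D T h) (mem_cons (W5432 D T h) (mem_cons (W24198 D T h) (mem_cons (W2405 D T h) (mem_cons (W24199 D T h) (mem_cons (W12634 D T h) (mem_cons (W24200 D T h) (mem_cons (W24203 D T h) (mem_cons (W13890 D T h) (mem_cons (W24205 D T h) (mem_cons (W1326 D T h) (mem_cons (W12906 D T h) (mem_cons (W24206 D T h) (mem_cons (W7559 D T h) (mem_cons (W24207 D T h) (mem_cons (W24221 D T h) (mem_cons (W24222 D T h) (mem_cons (W15528 D T h) (mem_cons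 (W24223 D T h) (mem_cons (W3034 D T h) (mem_cons (W24224 D T h) (mem_cons (W24225 D T h) (mem_cons (W24226 D T h) (mem_cons (W11568 D T h) (mem_cons (W20107 D T h) (mem_cons (W24242 D T h) (mem_cons (W9005 D T h) (mem_cons (W1919 D T h) (mem_cons (W24264 D T h) (mem_cons (W24246 D T h) (mem_cons (W80 D T h) mem_nil))))))))))))))))))))))))))))))))))))))))))))))) cl5471
theorem W24265 : WFK w24265 := fun D T h => wf_of_chk h mem_nil (mem_cons (L5471 D T h) mem_nil) cw24265
theorem W24266 : WFK w24266 := fun D T h => wf_of_chk h (mem_cons (W6714 D T h) (mem_cons (W1170 D T h) mem_nil)) mem_nil cw24266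
theorem W24267 : WFK w24267 := fun D T h => wf_of_chk h (mem_cons (W13466 D T h) (mem_cons (W181 D T h) mem_nil)) mem_nil cw24267
theorem W24268 : WFK w24268 := fun D T h => wf_of_chk h (mem_cons (W8257 D T h) (mem_cons (W1184 D T h) mem_nil)) mem_nil cw24268
theorem W24269 : WFK w24269 := fun D T h => wf_of_chk h (mem_cons (W16 D T h) (mem_cons (W24144 D T h) mem_nil)) mem_nil cw24269
theorem W24270 : WFK w24270 := fun D T h => wf_of_chk h (mem_cons (W16 D T h) (mem_cons (W24144 D T h) mem_nil)) mem_nil cw24270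
theorem W24271 : WFK w24271 := fun D T h => wf_of_chk h (mem_cons (W16 D T h) (mem_cons (W15147 D T h) mem_nil)) mem_nil cw24271
theorem W24272 : WFK w24272 := fun D T h => wf_of_chk h (mem_cons (W178 D T h) mem_nil) mem_nil cw24272
theorem W24273 : WFK w24273 := fun D T h => wf_of_chk h (mem_cons (W15061 D T h) mem_nil) mem_nil cw24273
theorem L5472 : LFK l5472 := fun D T h => lf_of_chk h (mem_cons (W15786 D T h) (mem_cons (W1311 D T h) (mem_cons (W1 D T h) (mem_cons (W69 D T h) (mem_cons (W11568 D T h) (mem_cons (W24272 D T h) (mem_cons (W126 D T h) (mem_cons (W9005 D T h) (mem_cons (W24273 D T h) (mem_cons (W15760 D T h) mem_nil)))))))))) cl5472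
theorem W24274 : WFK w24274 := fun D T h => wf_of_chk h mem_nil (mem_cons (L5472 D T h) mem_nil) cw24274
theorem W24275 : WFK w24275 := fun D T h => wf_of_chk h (mem_cons (W126 D T h) (mem_cons (W1311 D T h) mem_nil)) mem_nil cw24275
theorem W24276 : WFK w24276 := fun D T h => wf_of_chk h mem_nil (mem_cons (L5472 D T h) mem_nil) cw24276
theorem W24277 : WFK w24277 := fun D T h => wf_of_chk h (mem_cons (W13858 D T h) (mem_cons (W16 D T h) mem_nil)) mem_nil cw24277
theorem W24278 : WFK w24278 := fun D T h => wf_of_chk h (mem_cons (W34 D T h) (mem_cons (W178 D T h) mem_nil)) mem_nil cw24278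
theorem W24279 : WFK w24279 := fun D T h => wf_of_chk h (mem_cons (W162 D T h) (mem_cons (W15147 D T h) mem_nil)) mem_nil cw24279
theorem W24280 : WFK w24280 := fun D T h => wf_of_chk h (mem_cons (W901 D T h) (mem_cons (W16 D T h) mem_nil)) mem_nil cw24280
theorem W24281 : WFK w24281 := fun D T h => wf_of_chk h (mem_cons (W1889 D T h) mem_nil) mem_nil cw24281
theorem W24282 : WFK w24282 := fun D T h => wf_of_chk h (mem_cons (W1326 D T h) mem_nil) mem_nil cw24282
theorem W24283 : WFK w24283 := fun D T h => wf_of_chk h (mem_cons (W24282 D T h) (mem_cons (W16 D T h) mem_nil)) mem_nil cw24283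
theorem W24284 : WFK w24284 := fun D T h => wf_of_chk h (mem_cons (W7311 D T h) (mem_cons (W16 D T h) mem_nil)) mem_nil cw24284
theorem W24285 : WFK w24285 := fun D T h => wf_of_chk h mem_nil (mem_cons (L139 D T h) mem_nil) cw24285
theorem W24286 : WFK w24286 := fun D T h => wf_of_chk h (mem_cons (W5874 D T h) (mem_cons (W16 D T h) mem_nil)) mem_nil cw24286
theorem W24287 : WFK w24287 := fun D T h => wf_of_chk h (mem_cons (W13466 D T h) (mem_cons (W16 D T h) mem_nil)) mem_nil cw24287
theorem W24288 : WFK w24288 := fun D T h => wf_of_chk h (mem_cons (W7436 D T h) (mem_cons (W16 D T h) mem_nil)) mem_nil cw24288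
theorem W24289 : WFK w24289 := fun D T h => wf_of_chk h (mem_cons (W22763 D T h) (mem_cons (W16 D T h) mem_nil)) mem_nil cw24289
theorem L5473 : LFK l5473 := fun D T h => lf_of_chk h (mem_cons (W24271 D T h) (mem_cons (W22871 D T h) (mem_cons (W8255 D T h) (mem_cons (W5018 D T h) (mem_cons (W1311 D T h) (mem_cons (W178 D T h) (mem_cons (W970 D T h) (mem_cons (W13858 D T h) (mem_cons (W11568 D T h) (mem_cons (W11574 D T h) (mem_cons (W24274 D T h) (mem_cons (W3955 D T h) (mem_cons (W2015 D T h) (mem_cons (W24278 D T h) (mem_cons (W8783 D T h) (mem_cons (W2037 D T h) (mem_cons (W24279 D T h) (mem_cons (W15786 D T h) (mem_cons (W24275 D T h) (mem_cons (W5277 D T h) (mem_cons (W17572 D T h) (mem_cons (W128 D T h) (mem_cons (W24276 D T h) (mem_cons (W2520 D T h) (mem_cons (W19954 D T h) (mem_cons (W24277 D T h) (mem_cons (W14398 D T h) (mem_cons (W12268 D T h) (mem_cons (W13466 D T h) (mem_cons (W24287 D T h) (mem_cons (W24288 D T h) (mem_cons (W24289 D T h) (mem_cons (W3980 D T h) (mem_cons (W12250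 D T h) (mem_cons (W24280 D T h) (mem_cons (W23874 D T h) (mem_cons (W7282 D T h) (mem_cons (W23882 D T h) (mem_cons (W24281 D T h) (mem_cons (W24283 D T h) (mem_cons (W24284 D T h) (mem_cons (W24285 D T h) (mem_cons (W24286 D T h) mem_nil))))))))))))))))))))))))))))))))))))))))))) cl5473
theorem W24290 : WFK w24290 := fun D T h => wf_of_chk h mem_nil (mem_cons (L5473 D T h) mem_nil) cw24290
theorem W24291 : WFK w24291 := fun D T h => wf_of_chk h mem_nil (mem_cons (L5468 D T h) mem_nil) cw24291
theorem W24292 : WFK w24292 := fun D T h => wf_of_chk h (mem_cons (W1207 D T h) mem_nil) mem_nil cw24292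
theorem W24293 : WFK w24293 := fun D T h => wf_of_chk h (mem_cons (W1207 D T h) mem_nil) mem_nil cw24293
theorem W24294 : WFK w24294 := fun D T h => wf_of_chk h (mem_cons (W1312 D T h) mem_nil) mem_nil cw24294
theorem W24295 : WFK w24295 := fun D T h => wf_of_chk h (mem_cons (W126 D T h) (mem_cons (W14028 D T h) mem_nil)) mem_nil cw24295
theorem W24296 : WFK w24296 := fun D T h => wf_of_chk h (mem_cons (W12203 D T h) mem_nil) mem_nil cw24296
theorem W24297 : WFK w24297 := fun D T h => wf_of_chk h mem_nil (mem_cons (L2472 D T h) mem_nil) cw24297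
theorem W24298 : WFK w24298 := fun D T h => wf_of_chk h (mem_cons (W15791 D T h) (mem_cons (W16 D T h) mem_nil)) mem_nil cw24298
theorem W24299 : WFK w24299 := fun D T h => wf_of_chk h (mem_cons (W10101 D T h) (mem_cons (W16 D T h) mem_nil)) mem_nil cw24299
theorem W24300 : WFK w24300 := fun D T h => wf_of_chk h (mem_cons (W2750 D T h) (mem_cons (W16 D T h) mem_nil)) mem_nil cw24300
theorem W24301 : WFK w24301 := fun D T h => wf_of_chk h (mem_cons (W40 D T h) (mem_cons (W16 D T h) mem_nil)) mem_nil cw24301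
theorem L5474 : LFK l5474 := fun D T h => lf_of_chk h (mem_cons (W922 D T h) (mem_cons (W831 D T h) (mem_cons (W315 D T h) (mem_cons (W1399 D T h) (mem_cons (W1531 D T h) (mem_cons (W1534 D T h) (mem_cons (W24299 D T h) (mem_cons (W24300 D T h) (mem_cons (W5336 D T h) (mem_cons (W5775 D T h) (mem_cons (W6685 D T h) (mem_cons (W381 D T h) (mem_cons (W24301 D T h) (mem_cons (W2871 D T h) (mem_cons (W30 D T h) mem_nil))))))))))))))) cl5474
theorem W24302 : WFK w24302 := fun D T h => wf_of_chk h mem_nil (mem_cons (L5474 D T h) mem_nil) cw24302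
theorem W24303 : WFK w24303 := fun D T h => wf_of_chk h (mem_cons (W164 D T h) mem_nil) mem_nil cw24303
theorem W24304 : WFK w24304 := fun D T h => wf_of_chk h (mem_cons (W24303 D T h) (mem_cons (W16 D T h) mem_nil)) mem_nil cw24304
theorem W24305 : WFK w24305 := fun D T h => wf_of_chk h mem_nil (mem_cons (L533 D T h) mem_nil) cw24305
theorem W24306 : WFK w24306 := fun D T h => wf_of_chk h (mem_cons (W220 D T h) mem_nil) mem_nil cw24306
theorem W24307 : WFK w24307 := fun D T h => wf_of_chk h (mem_cons (W220 D T h) mem_nil) mem_nil cw24307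
theorem W24308 : WFK w24308 := fun D T h => wf_of_chk h mem_nil (mem_cons (L533 D T h) mem_nil) cw24308
theorem W24309 : WFK w24309 := fun D T h => wf_of_chk h mem_nil (mem_cons (L2591 D T h) mem_nil) cw24309
theorem W24310 : WFK w24310 := fun D T h => wf_of_chk h mem_nil (mem_cons (L2400 D T h) mem_nil) cw24310
theorem W24311 : WFK w24311 := fun D T h => wf_of_chk h (mem_cons (W15624 D T h) (mem_cons (W16 D T h) mem_nil)) mem_nil cw24311
theorem W24312 : WFK w24312 := fun D T h => wf_of_chk h (mem_cons (W14741 D T h) (mem_cons (W16 D T h) mem_nil)) mem_nil cw24312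
theorem W24313 : WFK w24313 := fun D T h => wf_of_chk h (mem_cons (W14398 D T h) mem_nil) mem_nil cw24313
theorem W24314 : WFK w24314 := fun D T h => wf_of_chk h mem_nil (mem_cons (L274 D T h) mem_nil) cw24314
theorem W24315 : WFK w24315 := fun D T h => wf_of_chk h mem_nil (mem_cons (L5467 D T h) mem_nil) cw24315
theorem W24316 : WFK w24316 := fun D T h => wf_of_chk h (mem_cons (W461 D T h) mem_nil) mem_nil cw24316
theorem W24317 : WFK w24317 := fun D T h => wf_of_chk h (mem_cons (W24316 D T h) (mem_cons (W16 D T h) mem_nil)) mem_nil cw24317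
theorem L5475 : LFK l5475 := fun D T h => lf_of_chk h (mem_cons (W23885 D T h) (mem_cons (W1068 D T h) (mem_cons (W12606 D T h) (mem_cons (W14028 D T h) (mem_cons (W5830 D T h) (mem_cons (W20932 D T h) (mem_cons (W5875 D T h) (mem_cons (W16 D T h) (mem_cons (W24292 D T h) (mem_cons (W24293 D T h) (mem_cons (W24294 D T h) (mem_cons (W24296 D T h) (mem_cons (W24295 D T h) (mem_cons (W5258 D T h) (mem_cons (W2520 D T h) (mem_cons (W24297 D T h) (mem_cons (W24298 D T h) (mem_cons (W22433 D T h) (mem_cons (W24302 D T h) (mem_cons (W22586 D T h) (mem_cons (W24304 D T h) (mem_cons (W5722 D T h) (mem_cons (W5601 D T h) (mem_cons (W13590 D T h) (mem_cons (W15777 D T h) (mem_cons (W24234 D T h) (mem_cons (W24315 D T h) (mem_cons (W24317 D T h) (mem_cons (W24313 D T h) (mem_cons (W24305 D T h) (mem_cons (W5730 D T h) (mem_cons (W24306 D T h) (mem_cons (W24307 D T h) (mem_cons (W24308 D T h) (mem_cons (W24309 D T h) (mem_cons (W24310 D T h) (mem_cons (W24311 D T h) (mem_cons (W24312 D T h) (mem_cons (W497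 D T h) (mem_cons (W24314 D T h) mem_nil)))))))))))))))))))))))))))))))))))))))) cl5475
theorem W24318 : WFK w24318 := fun D T h => wf_of_chk h mem_nil (mem_cons (L5475 D T h) mem_nil) cw24318
theorem W24319 : WFK w24319 := fun D T h => wf_of_chk h (mem_cons (W56 D T h) (mem_cons (W831 D T h) mem_nil)) mem_nil cw24319
theorem W24320 : WFK w24320 := fun D T h => wf_of_chk h (mem_cons (W267 D T h) (mem_cons (W831 D T h) mem_nil)) mem_nil cw24320
theorem W24321 : WFK w24321 := fun D T h => wf_of_chk h (mem_cons (W42 D T h) (mem_cons (W831 D T h) mem_nil)) mem_nil cw24321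
theorem W24322 : WFK w24322 := fun D T h => wf_of_chk h (mem_cons (W368 D T h) (mem_cons (W831 D T h) mem_nil)) mem_nil cw24322
theorem W24323 : WFK w24323 := fun D T h => wf_of_chk h mem_nil (mem_cons (L2975 D T h) mem_nil) cw24323
theorem W24324 : WFK w24324 := fun D T h => wf_of_chk h (mem_cons (W39 D T h) (mem_cons (W831 D T h) mem_nil)) mem_nil cw24324
theorem L5476 : LFK l5476 := fun D T h => lf_of_chk h (mem_cons (W15147 D T h) (mem_cons (W7265 D T h) (mem_cons (W5875 D T h) (mem_cons (W831 D T h) (mem_cons (W1063 D T h) (mem_cons (W2446 D T h) (mem_cons (W5545 D T h) (mem_cons (W495 D T h) (mem_cons (W497 D T h) (mem_cons (W24319 D T h) (mem_cons (W24320 D T h) (mem_cons (W2405 D T h) (mem_cons (W12634 D T h) (mem_cons (W24321 D T h) (mem_cons (W855 D T h) (mem_cons (W2015 D T h) (mem_cons (W6714 D T h) (mem_cons (W1449 D T h) (mem_cons (W24324 D T h) (mem_cons (W21648 D T h) (mem_cons (W24322 D T h) (mem_cons (W7076 D T h) (mem_cons (W23896 D T h) (mem_cons (W1326 D T h) (mem_cons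 (W7559 D T h) (mem_cons (W24190 D T h) (mem_cons (W24323 D T h) (mem_cons (W7311 D T h) (mem_cons (W7084 D T h) mem_nil))))))))))))))))))))))))))))) cl5476
theorem W24325 : WFK w24325 := fun D T h => wf_of_chk h mem_nil (mem_cons (L5476 D T h) mem_nil) cw24325
theorem W24326 : WFK w24326 := fun D T h => wf_of_chk h mem_nil (mem_cons (L874 D T h) mem_nil) cw24326
theorem W24327 : WFK w24327 := fun D T h => wf_of_chk h (mem_cons (W16 D T h) (mem_cons (W922 D T h) mem_nil)) mem_nil cw24327
theorem W24328 : WFK w24328 := fun D T h => wf_of_chk h (mem_cons (W56 D T h) (mem_cons (W922 D T h) mem_nil)) mem_nil cw24328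
theorem W24329 : WFK w24329 := fun D T h => wf_of_chk h (mem_cons (W267 D T h) (mem_cons (W922 D T h) mem_nil)) mem_nil cw24329
theorem W24330 : WFK w24330 := fun D T h => wf_of_chk h (mem_cons (W42 D T h) (mem_cons (W922 D T h) mem_nil)) mem_nil cw24330
theorem W24331 : WFK w24331 := fun D T h => wf_of_chk h (mem_cons (W368 D T h) (mem_cons (W922 D T h) mem_nil)) mem_nil cw24331
theorem W24332 : WFK w24332 := fun D T h => wf_of_chk h (mem_cons (W1326 D T h) (mem_cons (W922 D T h) mem_nil)) mem_nil cw24332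
theorem W24333 : WFK w24333 := fun D T h => wf_of_chk h (mem_cons (W39 D T h) (mem_cons (W922 D T h) mem_nil)) mem_nil cw24333
theorem L5477 : LFK l5477 := fun D T h => lf_of_chk h (mem_cons (W15147 D T h) (mem_cons (W22137 D T h) (mem_cons (W22478 D T h) (mem_cons (W922 D T h) (mem_cons (W1063 D T h) (mem_cons (W24326 D T h) (mem_cons (W24327 D T h) (mem_cons (W495 D T h) (mem_cons (W497 D T h) (mem_cons (W24328 D T h) (mem_cons (W24329 D T h) (mem_cons (W2405 D T h) (mem_cons (W12634 D T h) (mem_cons (W24330 D T h) (mem_cons (W2790 D T h) (mem_cons (W2015 D T h) (mem_cons (W6714 D T h) (mem_cons (W1449 D T h) (mem_cons (W24333 D T h) (mem_cons (W21648 D T h) (mem_cons (W24331 D T h) (mem_cons (W7076 D T h) (mem_cons (W23896 D T h) (mem_cons (W1326 D T h) (mem_cons (W7559 D T h) (mem_cons (W24190 D T h) (mem_cons (W24332 D T h) (mem_cons (W7311 D T h) (mem_cons (W7084 D T h) (mem_cons (W5875 D T h) mem_nil)))))))))))))))))))))))))))))) cl5477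
theorem W24334 : WFK w24334 := fun D T h => wf_of_chk h mem_nil (mem_cons (L5477 D T h) mem_nil) cw24334
theorem W24335 : WFK w24335 := fun D T h => wf_of_chk h (mem_cons (W162 D T h) (mem_cons (W802 D T h) mem_nil)) mem_nil cw24335
theorem L5478 : LFK l5478 := fun D T h => lf_of_chk h (mem_cons (W802 D T h) mem_nil) cl5478
theorem W24336 : WFK w24336 := fun D T h => wf_of_chk h mem_nil (mem_cons (L5478 D T h) mem_nil) cw24336
theorem W24337 : WFK w24337 := fun D T h => wf_of_chk h mem_nil (mem_cons (L5478 D T h) mem_nil) cw24337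
theorem W24338 : WFK w24338 := fun D T h => wf_of_chk h (mem_cons (W802 D T h) mem_nil) mem_nil cw24338
theorem L5479 : LFK l5479 := fun D T h => lf_of_chk h (mem_cons (W743 D T h) (mem_cons (W141 D T h) (mem_cons (W24336 D T h) (mem_cons (W802 D T h) (mem_cons (W3 D T h) (mem_cons (W3797 D T h) (mem_cons (W652 D T h) (mem_cons (W234 D T h) (mem_cons (W1846 D T h) (mem_cons (W6783 D T h) (mem_cons (W24337 D T h) (mem_cons (W24338 D T h) (mem_cons (W258 D T h) (mem_cons (W6780 D T h) (mem_cons (W5489 D T h) (mem_cons (W6779 D T h) (mem_cons (W6781 D T h) (mem_cons (W11224 D T h) (mem_cons (W8989 D T h) mem_nil))))))))))))))))))) cl5479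
theorem W24339 : WFK w24339 := fun D T h => wf_of_chk h mem_nil (mem_cons (L5479 D T h) mem_nil) cw24339
theorem W24340 : WFK w24340 := fun D T h => wf_of_chk h (mem_cons (W802 D T h) mem_nil) mem_nil cw24340
theorem L5480 : LFK l5480 := fun D T h => lf_of_chk h (mem_cons (W8989 D T h) (mem_cons (W141 D T h) (mem_cons (W24336 D T h) (mem_cons (W802 D T h) (mem_cons (W3 D T h) (mem_cons (W86 D T h) (mem_cons (W750 D T h) (mem_cons (W12342 D T h) (mem_cons (W1560 D T h) (mem_cons (W234 D T h) (mem_cons (W1846 D T h) (mem_cons (W3230 D T h) (mem_cons (W24337 D T h) (mem_cons (W24340 D T h) (mem_cons (W1272 D T h) (mem_cons (W11338 D T h) (mem_cons (W5488 D T h) (mem_cons (W5465 D T h) (mem_cons (W5464 D T h) (mem_cons (W11224 D T h) mem_nil)))))))))))))))))))) cl5480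
theorem W24341 : WFK w24341 := fun D T h => wf_of_chk h mem_nil (mem_cons (L5480 D T h) mem_nil) cw24341
theorem W24342 : WFK w24342 := fun D T h => wf_of_chk h (mem_cons (W12514 D T h) (mem_cons (W802 D T h) mem_nil)) mem_nil cw24342
theorem W24343 : WFK w24343 := fun D T h => wf_of_chk h (mem_cons (W802 D T h) mem_nil) mem_nil cw24343
theorem L5481 : LFK l5481 := fun D T h => lf_of_chk h (mem_cons (W4038 D T h) (mem_cons (W576 D T h) (mem_cons (W3695 D T h) (mem_cons (W802 D T h) (mem_cons (W1 D T h) (mem_cons (W1070 D T h) (mem_cons (W14461 D T h) (mem_cons (W4632 D T h) (mem_cons (W8908 D T h) (mem_cons (W632 D T h) (mem_cons (W24343 D T h) (mem_cons (W3274 D T h) (mem_cons (W1109 D T h) (mem_cons (W14462 D T h) (mem_cons (W10253 D T h) (mem_cons (W10344 D T h) (mem_cons (W14463 D T h) (mem_cons (W5158 D T h) (mem_cons (W6095 D T h) mem_nil))))))))))))))))))) cl5481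
theorem W24344 : WFK w24344 := fun D T h => wf_of_chk h mem_nil (mem_cons (L5481 D T h) mem_nil) cw24344
theorem W24345 : WFK w24345 := fun D T h => wf_of_chk h (mem_cons (W112 D T h) (mem_cons (W802 D T h) mem_nil)) mem_nil cw24345
theorem W24346 : WFK w24346 := fun D T h => wf_of_chk h (mem_cons (W112 D T h) (mem_cons (W802 D T h) mem_nil)) mem_nil cw24346
theorem W24347 : WFK w24347 := fun D T h => wf_of_chk h (mem_cons (W1189 D T h) (mem_cons (W802 D T h) mem_nil)) mem_nil cw24347
theorem W24348 : WFK w24348 := fun D T h => wf_of_chk h (mem_cons (W433 D T h) (mem_cons (W802 D T h) mem_nil)) mem_nil cw24348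
theorem W24349 : WFK w24349 := fun D T h => wf_of_chk h (mem_cons (W448 D T h) (mem_cons (W802 D T h) mem_nil)) mem_nil cw24349
theorem W24350 : WFK w24350 := fun D T h => wf_of_chk h (mem_cons (W39 D T h) (mem_cons (W802 D T h) mem_nil)) mem_nil cw24350
theorem W24351 : WFK w24351 := fun D T h => wf_of_chk h (mem_cons (W155 D T h) (mem_cons (W802 D T h) mem_nil)) mem_nil cw24351
theorem W24352 : WFK w24352 := fun D T h => wf_of_chk h (mem_cons (W401 D T h) (mem_cons (W802 D T h) mem_nil)) mem_nil cw24352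
theorem W24353 : WFK w24353 := fun D T h => wf_of_chk h (mem_cons (W1929 D T h) (mem_cons (W802 D T h) mem_nil)) mem_nil cw24353
theorem W24354 : WFK w24354 := fun D T h => wf_of_chk h (mem_cons (W6714 D T h) (mem_cons (W802 D T h) mem_nil)) mem_nil cw24354
theorem W24355 : WFK w24355 := fun D T h => wf_of_chk h mem_nil (mem_cons (L5468 D T h) mem_nil) cw24355
theorem L5482 : LFK l5482 := fun D T h => lf_of_chk h (mem_cons (W24230 D T h) (mem_cons (W1449 D T h) (mem_cons (W2532 D T h) (mem_cons (W802 D T h) (mem_cons (W162 D T h) (mem_cons (W23533 D T h) (mem_cons (W24344 D T h) (mem_cons (W5841 D T h) (mem_cons (W24350 D T h) (mem_cons (W21541 D T h) (mem_cons (W24351 D T h) (mem_cons (W24349 D T h) (mem_cons (W24352 D T h) (mem_cons (W24353 D T h) (mem_cons (W24354 D T h) (mem_cons (W2797 D T h) (mem_cons (W24335 D T h) (mem_cons (W15491 D T h) (mem_cons (W21238 D T h) (mem_cons (W24339 D T h) (mem_cons (W2405 D T h) (mem_cons (W24341 D T h) (mem_cons (W12634 D T h) (mem_cons (W24342 D T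 h) (mem_cons (W24345 D T h) (mem_cons (W13890 D T h) (mem_cons (W24346 D T h) (mem_cons (W3312 D T h) (mem_cons (W12906 D T h) (mem_cons (W24347 D T h) (mem_cons (W15500 D T h) (mem_cons (W24348 D T h) (mem_cons (W24234 D T h) (mem_cons (W1172 D T h) (mem_cons (W24235 D T h) (mem_cons (W24355 D T h) (mem_cons (W181 D T h) mem_nil))))))))))))))))))))))))))))))))))))) cl5482
theorem W24356 : WFK w24356 := fun D T h => wf_of_chk h mem_nil (mem_cons (L5482 D T h) mem_nil) cw24356
theorem L5483 : LFK l5483 := fun D T h => lf_of_chk h (mem_cons (W3719 D T h) (mem_cons (W2405 D T h) (mem_cons (W7401 D T h) (mem_cons (W802 D T h) (mem_cons (W1211 D T h) (mem_cons (W16414 D T h) (mem_cons (W5780 D T h) (mem_cons (W2797 D T h) (mem_cons (W4619 D T h) (mem_cons (W24291 D T h) (mem_cons (W24318 D T h) (mem_cons (W1919 D T h) (mem_cons (W24325 D T h) (mem_cons (W14440 D T h) (mem_cons (W24334 D T h) (mem_cons (W1690 D T h) (mem_cons (W24356 D T h) (mem_cons (W181 D T h) (mem_cons (W3528 D T h) mem_nil)))))))))))))))))))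 cl5483
theorem W24357 : WFK w24357 := fun D T h => wf_of_chk h mem_nil (mem_cons (L5483 D T h) mem_nil) cw24357
theorem W24358 : WFK w24358 := fun D T h => wf_of_chk h (mem_cons (W13104 D T h) mem_nil) mem_nil cw24358
theorem W24359 : WFK w24359 := fun D T h => wf_of_chk h (mem_cons (W489 D T h) (mem_cons (W12203 D T h) mem_nil)) mem_nil cw24359
theorem W24360 : WFK w24360 := fun D T h => wf_of_chk h (mem_cons (W1311 D T h) (mem_cons (W3953 D T h) mem_nil)) mem_nil cw24360
theorem L5484 : LFK l5484 := fun D T h => lf_of_chk h (mem_cons (W24142 D T h) (mem_cons (W15147 D T h) (mem_cons (W13104 D T h) (mem_cons (W1184 D T h) (mem_cons (W1211 D T h) (mem_cons (W1170 D T h) (mem_cons (W24143 D T h) (mem_cons (W3046 D T h) (mem_cons (W7074 D T h) (mem_cons (W24157 D T h) (mem_cons (W24158 D T h) (mem_cons (W24159 D T h) (mem_cons (W24160 D T h) (mem_cons (W24161 D T h) (mem_cons (W24144 D T h) (mem_cons (W24145 D T h) (mem_cons (W24146 D T h) (mem_cons (W13466 D T h) (mem_cons (W24264 D T h) (mem_cons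 (W24266 D T h) (mem_cons (W24267 D T h) (mem_cons (W24268 D T h) (mem_cons (W24269 D T h) (mem_cons (W24270 D T h) (mem_cons (W24148 D T h) (mem_cons (W24149 D T h) (mem_cons (W24150 D T h) (mem_cons (W24151 D T h) (mem_cons (W24152 D T h) (mem_cons (W24153 D T h) (mem_cons (W24154 D T h) (mem_cons (W24155 D T h) (mem_cons (W24156 D T h) (mem_cons (W24162 D T h) (mem_cons (W2517 D T h) (mem_cons (W24184 D T h) (mem_cons (W8053 D T h) (mem_cons (W24195 D T h) (mem_cons (W3034 D T h) (mem_cons (W24265 D T h) (mem_cons (W24290 D T h) (mem_cons (W16 D T h) (mem_cons (W24357 D T h) (mem_cons (W9005 D T h) (mem_cons (W1919 D T h) (mem_cons (W24359 D T h) (mem_cons (W1929 D T h) (mem_cons (W24360 D T h) (mem_cons (W9404 D T h) (mem_cons (W2346 D T h) (mem_cons (W24358 D T h) (mem_cons (W17153 D T h) (mem_cons (W1064 D T h) (mem_cons (W6394 D T h) (mem_cons (W18630 D T h) (mem_cons (W19944 D T h) mem_nil)))))))))))))))))))))))))))))))))))))))))))))))))))))))) cl5484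
theorem W24361 : WFK w24361 := fun D T h => wf_of_chk h mem_nil (mem_cons (L5484 D T h) mem_nil) cw24361
theorem W24371 : WFK w24371 := fun D T h => wf_of_chk h (mem_cons (W15893 D T h) (mem_cons (W16 D T h) mem_nil)) mem_nil cw24371
theorem W24387 : WFK w24387 := fun D T h => wf_of_chk h mem_nil (mem_cons (L350 D T h) mem_nil) cw24387
theorem L5488 : LFK l5488 := fun D T h => lf_of_chk h (mem_cons (W263 D T h) (mem_cons (W39 D T h) (mem_cons (W3 D T h) (mem_cons (W143 D T h) (mem_cons (W720 D T h) (mem_cons (W754 D T h) (mem_cons (W734 D T h) (mem_cons (W3081 D T h) (mem_cons (W345 D T h) (mem_cons (W347 D T h) (mem_cons (W346 D T h) (mem_cons (W301 D T h) (mem_cons (W24387 D T h) (mem_cons (W990 D T h) (mem_cons (W9151 D T h) mem_nil))))))))))))))) cl5488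
theorem W24388 : WFK w24388 := fun D T h => wf_of_chk h mem_nil (mem_cons (L5488 D T h) mem_nil) cw24388
theorem W24389 : WFK w24389 := fun D T h => wf_of_chk h (mem_cons (W24388 D T h) (mem_cons (W16 D T h) mem_nil)) mem_nil cw24389
theorem L5489 : LFK l5489 := fun D T h => lf_of_chk h (mem_cons (W866 D T h) (mem_cons (W133 D T h) (mem_cons (W4 D T h) (mem_cons (W1399 D T h) (mem_cons (W33 D T h) (mem_cons (W124 D T h) (mem_cons (W20 D T h) (mem_cons (W734 D T h) (mem_cons (W1425 D T h) (mem_cons (W16 D T h) (mem_cons (W18671 D T h) (mem_cons (W18670 D T h) (mem_cons (W23407 D T h) (mem_cons (W1482 D T h) (mem_cons (W1483 D T h) (mem_cons (W20902 D T h) (mem_cons (W1484 D T h) mem_nil))))))))))))))))) cl5489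
theorem W24393 : WFK w24393 := fun D T h => wf_of_chk h mem_nil (mem_cons (L5489 D T h) mem_nil) cw24393
theorem W24394 : WFK w24394 := fun D T h => wf_of_chk h (mem_cons (W126 D T h) (mem_cons (W1184 D T h) mem_nil)) mem_nil cw24394
theorem W24395 : WFK w24395 := fun D T h => wf_of_chk h (mem_cons (W23991 D T h) (mem_cons (W16 D T h) mem_nil)) mem_nil cw24395
theorem W24396 : WFK w24396 := fun D T h => wf_of_chk h (mem_cons (W56 D T h) mem_nil) mem_nil cw24396
theorem W24397 : WFK w24397 := fun D T h => wf_of_chk h (mem_cons (W24396 D T h) (mem_cons (W16 D T h) mem_nil)) mem_nil cw24397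
theorem W24398 : WFK w24398 := fun D T h => wf_of_chk h (mem_cons (W11439 D T h) (mem_cons (W16 D T h) mem_nil)) mem_nil cw24398
theorem W24399 : WFK w24399 := fun D T h => wf_of_chk h (mem_cons (W11439 D T h) (mem_cons (W16 D T h) mem_nil)) mem_nil cw24399
theorem W24400 : WFK w24400 := fun D T h => wf_of_chk h (mem_cons (W1219 D T h) (mem_cons (W16 D T h) mem_nil)) mem_nil cw24400
theorem L5490 : LFK l5490 := fun D T h => lf_of_chk h (mem_cons (W16240 D T h) (mem_cons (W1931 D T h) (mem_cons (W15905 D T h) (mem_cons (W7212 D T h) (mem_cons (W24389 D T h) (mem_cons (W24400 D T h) (mem_cons (W1182 D T h) (mem_cons (W799 D T h) (mem_cons (W3034 D T h) (mem_cons (W2914 D T h) (mem_cons (W1170 D T h) (mem_cons (W7623 D T h) (mem_cons (W23 D T h) (mem_cons (W1184 D T h) (mem_cons (W2517 D T h) (mem_cons (W16441 D T h) (mem_cons (W267 D T h) (mem_cons (W24393 D T h) (mem_cons (W24394 D T h) (mem_cons (W24395 D T h) (mem_cons (W24397 D T h) (mem_cons (W21832 D T h) (mem_cons (W24398 D T h) (mem_cons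 (W24399 D T h) mem_nil)))))))))))))))))))))))) cl5490
theorem W24401 : WFK w24401 := fun D T h => wf_of_chk h mem_nil (mem_cons (L5490 D T h) mem_nil) cw24401
theorem W24416 : WFK w24416 := fun D T h => wf_of_chk h (mem_cons (W15786 D T h) (mem_cons (W162 D T h) mem_nil)) mem_nil cw24416
theorem W24422 : WFK w24422 := fun D T h => wf_of_chk h mem_nil (mem_cons (L184 D T h) mem_nil) cw24422
theorem W24433 : WFK w24433 := fun D T h => wf_of_chk h (mem_cons (W8627 D T h) (mem_cons (W16 D T h) mem_nil)) mem_nil cw24433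
theorem W24434 : WFK w24434 := fun D T h => wf_of_chk h (mem_cons (W710 D T h) (mem_cons (W7850 D T h) mem_nil)) mem_nil cw24434
theorem W24435 : WFK w24435 := fun D T h => wf_of_chk h (mem_cons (W759 D T h) (mem_cons (W16 D T h) mem_nil)) mem_nil cw24435
theorem W24436 : WFK w24436 := fun D T h => wf_of_chk h (mem_cons (W759 D T h) (mem_cons (W16 D T h) mem_nil)) mem_nil cw24436
theorem W24437 : WFK w24437 := fun D T h => wf_of_chk h (mem_cons (W3448 D T h) (mem_cons (W16 D T h) mem_nil)) mem_nil cw24437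
theorem W24438 : WFK w24438 := fun D T h => wf_of_chk h (mem_cons (W9380 D T h) (mem_cons (W16 D T h) mem_nil)) mem_nil cw24438
theorem W24439 : WFK w24439 := fun D T h => wf_of_chk h (mem_cons (W702 D T h) (mem_cons (W16 D T h) mem_nil)) mem_nil cw24439
theorem L5499 : LFK l5499 := fun D T h => lf_of_chk h (mem_cons (W1291 D T h) (mem_cons (W1183 D T h) (mem_cons (W3045 D T h) (mem_cons (W16 D T h) (mem_cons (W13539 D T h) (mem_cons (W3410 D T h) (mem_cons (W14 D T h) (mem_cons (W1309 D T h) (mem_cons (W24439 D T h) (mem_cons (W24435 D T h) (mem_cons (W1408 D T h) (mem_cons (W24436 D T h) (mem_cons (W12261 D T h) (mem_cons (W8110 D T h) (mem_cons (W24437 D T h) (mem_cons (W24438 D T h) (mem_cons (W5841 D T h) (mem_cons (W7114 D T h) (mem_cons (W24434 D T h) (mem_cons (W13466 D T h) (mem_cons (W3305 D T h) (mem_cons (W9582 D T h) (mem_cons (W5177 D T h) (mem_cons (W50 D T h) (mem_cons (W16240 D T h) (mem_cons (W17562 D T h) (mem_cons (W24433 D T h) mem_nil))))))))))))))))))))))))))) cl5499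
theorem W24440 : WFK w24440 := fun D T h => wf_of_chk h mem_nil (mem_cons (L5499 D T h) mem_nil) cw24440
theorem W24454 : WFK w24454 := fun D T h => wf_of_chk h (mem_cons (W433 D T h) mem_nil) mem_nil cw24454
theorem L5506 : LFK l5506 := fun D T h => lf_of_chk h (mem_cons (W1931 D T h) (mem_cons (W7719 D T h) (mem_cons (W2517 D T h) (mem_cons (W281 D T h) (mem_cons (W69 D T h) (mem_cons (W17 D T h) (mem_cons (W725 D T h) (mem_cons (W724 D T h) (mem_cons (W3479 D T h) (mem_cons (W6759 D T h) (mem_cons (W627 D T h) (mem_cons (W1430 D T h) (mem_cons (W1428 D T h) (mem_cons (W5432 D T h) (mem_cons (W21288 D T h) (mem_cons (W495 D T h) (mem_cons (W12967 D T h) mem_nil))))))))))))))))) cl5506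
theorem W24476 : WFK w24476 := fun D T h => wf_of_chk h (mem_cons (W9386 D T h) (mem_cons (W16 D T h) mem_nil)) mem_nil cw24476
theorem W24480 : WFK w24480 := fun D T h => wf_of_chk h mem_nil (mem_cons (L5391 D T h) mem_nil) cw24480
theorem L5509 : LFK l5509 := fun D T h => lf_of_chk h mem_nil cl5509
theorem W24481 : WFK w24481 := fun D T h => wf_of_chk h mem_nil (mem_cons (L5509 D T h) mem_nil) cw24481
theorem L5510 : LFK l5510 := fun D T h => lf_of_chk h (mem_cons (W7719 D T h) (mem_cons (W16 D T h) (mem_cons (W5576 D T h) (mem_cons (W281 D T h) (mem_cons (W2357 D T h) (mem_cons (W33 D T h) (mem_cons (W24481 D T h) (mem_cons (W4 D T h) (mem_cons (W181 D T h) (mem_cons (W241 D T h) (mem_cons (W1051 D T h) (mem_cons (W1932 D T h) mem_nil)))))))))))) cl5510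
theorem W24496 : WFK w24496 := fun D T h => wf_of_chk h (mem_cons (W153 D T h) (mem_cons (W16 D T h) mem_nil)) mem_nil cw24496
theorem W24514 : WFK w24514 := fun D T h => wf_of_chk h mem_nil (mem_cons (L878 D T h) mem_nil) cw24514
theorem L5544 : LFK l5544 := fun D T h => lf_of_chk h (mem_cons (W257 D T h) (mem_cons (W250 D T h) (mem_cons (W220 D T h) (mem_cons (W91 D T h) (mem_cons (W2520 D T h) (mem_cons (W6204 D T h) (mem_cons (W10099 D T h) (mem_cons (W4548 D T h) (mem_cons (W18271 D T h) (mem_cons (W7549 D T h) (mem_cons (W7719 D T h) (mem_cons (W179 D T h) (mem_cons (W13 D T h) (mem_cons (W1801 D T h) (mem_cons (W14045 D T h) (mem_cons (W8263 D T h) (mem_cons (W7250 D T h) (mem_cons (W345 D T h) (mem_cons (W888 D T h) (mem_cons (W11228 D T h) mem_nil)))))))))))))))))))) cl5544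
theorem W24608 : WFK w24608 := fun D T h => wf_of_chk h mem_nil (mem_cons (L5544 D T h) mem_nil) cw24608
theorem L5545 : LFK l5545 := fun D T h => lf_of_chk h (mem_cons (W748 D T h) (mem_cons (W250 D T h) (mem_cons (W220 D T h) (mem_cons (W158 D T h) (mem_cons (W2520 D T h) (mem_cons (W6204 D T h) (mem_cons (W10099 D T h) (mem_cons (W7298 D T h) (mem_cons (W16 D T h) (mem_cons (W7549 D T h) (mem_cons (W7719 D T h) (mem_cons (W22653 D T h) (mem_cons (W179 D T h) (mem_cons (W13 D T h) (mem_cons (W648 D T h) (mem_cons (W1800 D T h) (mem_cons (W4116 D T h) (mem_cons (W8263 D T h) (mem_cons (W345 D T h) (mem_cons (W19536 D T h) (mem_cons (W976 D T h) (mem_cons (W13011 D T h) mem_nil)))))))))))))))))))))) cl5545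
theorem W24609 : WFK w24609 := fun D T h => wf_of_chk h mem_nil (mem_cons (L5545 D T h) mem_nil) cw24609
theorem L5546 : LFK l5546 := fun D T h => lf_of_chk h (mem_cons (W1326 D T h) (mem_cons (W250 D T h) (mem_cons (W220 D T h) (mem_cons (W1 D T h) (mem_cons (W2520 D T h) (mem_cons (W6204 D T h) (mem_cons (W10099 D T h) (mem_cons (W1128 D T h) (mem_cons (W13588 D T h) (mem_cons (W7549 D T h) (mem_cons (W179 D T h) (mem_cons (W13 D T h) (mem_cons (W2690 D T h) (mem_cons (W14045 D T h) (mem_cons (W8263 D T h) (mem_cons (W257 D T h) (mem_cons (W871 D T h) (mem_cons (W748 D T h) (mem_cons (W1540 D T h) (mem_cons (W19538 D T h) (mem_cons (W7482 D T h) mem_nil))))))))))))))))))))) cl5546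
theorem W24610 : WFK w24610 := fun D T h => wf_of_chk h mem_nil (mem_cons (L5546 D T h) mem_nil) cw24610
theorem L5547 : LFK l5547 := fun D T h => lf_of_chk h (mem_cons (W15147 D T h) (mem_cons (W5874 D T h) (mem_cons (W12543 D T h) (mem_cons (W5875 D T h) (mem_cons (W1063 D T h) (mem_cons (W2520 D T h) (mem_cons (W42 D T h) (mem_cons (W1187 D T h) (mem_cons (W5209 D T h) (mem_cons (W495 D T h) (mem_cons (W497 D T h) (mem_cons (W24608 D T h) (mem_cons (W2405 D T h) (mem_cons (W24609 D T h) (mem_cons (W12634 D T h) (mem_cons (W24610 D T h) (mem_cons (W8231 D T h) (mem_cons (W2015 D T h) (mem_cons (W6714 D T h) (mem_cons (W1449 D T h) (mem_cons (W8270 D T h) (mem_cons (W14575 D T h) (mem_cons (W22558 D T h) (mem_cons (W7076 D T h) (mem_cons (W581 D T h) (mem_cons (W8262 D T h) (mem_cons (W8638 D T h) (mem_cons (W24190 D T h) (mem_cons (W8266 D T h) (mem_cons (W7559 D T h) (mem_cons (W7311 D T h) mem_nil))))))))))))))))))))))))))))))) cl5547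
theorem W24611 : WFK w24611 := fun D T h => wf_of_chk h mem_nil (mem_cons (L5547 D T h) mem_nil) cw24611
theorem L5549 : LFK l5549 := fun D T h => lf_of_chk h (mem_cons (W20252 D T h) (mem_cons (W4296 D T h) (mem_cons (W6647 D T h) (mem_cons (W1919 D T h) (mem_cons (W4262 D T h) (mem_cons (W22705 D T h) (mem_cons (W20419 D T h) (mem_cons (W19452 D T h) mem_nil)))))))) cl5549
theorem W24625 : WFK w24625 := fun D T h => wf_of_chk h mem_nil (mem_cons (L5549 D T h) mem_nil) cw24625
theorem W24648 : WFK w24648 := fun D T h => wf_of_chk h (mem_cons (W1929 D T h) mem_nil) mem_nil cw24648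
theorem W24673 : WFK w24673 := fun D T h => wf_of_chk h (mem_cons (W6714 D T h) mem_nil) mem_nil cw24673
theorem W24733 : WFK w24733 := fun D T h => wf_of_chk h (mem_cons (W15786 D T h) (mem_cons (W281 D T h) mem_nil)) mem_nil cw24733
theorem W24764 : WFK w24764 := fun D T h => wf_of_chk h (mem_cons (W15893 D T h) mem_nil) mem_nil cw24764
theorem W24809 : WFK w24809 := fun D T h => wf_of_chk h mem_nil (mem_cons (L3225 D T h) mem_nil) cw24809
theorem L5596 : LFK l5596 := fun D T h => lf_of_chk h (mem_cons (W872 D T h) (mem_cons (W4 D T h) (mem_cons (W731 D T h) (mem_cons (W3381 D T h) (mem_cons (W1245 D T h) (mem_cons (W9320 D T h) (mem_cons (W10132 D T h) mem_nil))))))) cl5596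
theorem W24815 : WFK w24815 := fun D T h => wf_of_chk h mem_nil (mem_cons (L5596 D T h) mem_nil) cw24815
theorem L5601 : LFK l5601 := fun D T h => lf_of_chk h (mem_cons (W281 D T h) mem_nil) cl5601
theorem W24880 : WFK w24880 := fun D T h => wf_of_chk h mem_nil (mem_cons (L1299 D T h) mem_nil) cw24880
theorem W24896 : WFK w24896 := fun D T h => wf_of_chk h (mem_cons (W1398 D T h) mem_nil) mem_nil cw24896
theorem W24974 : WFK w24974 := fun D T h => wf_of_chk h mem_nil (mem_cons (L4963 D T h) mem_nil) cw24974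
theorem W25016 : WFK w25016 := fun D T h => wf_of_chk h (mem_cons (W15786 D T h) mem_nil) mem_nil cw25016
theorem W25021 : WFK w25021 := fun D T h => wf_of_chk h (mem_cons (W10681 D T h) (mem_cons (W1291 D T h) mem_nil)) mem_nil cw25021
theorem W25022 : WFK w25022 := fun D T h => wf_of_chk h mem_nil (mem_cons (L4090 D T h) mem_nil) cw25022
theorem W25023 : WFK w25023 := fun D T h => wf_of_chk h mem_nil (mem_cons (L717 D T h) mem_nil) cw25023
theorem W25024 : WFK w25024 := fun D T h => wf_of_chk h mem_nil (mem_cons (L4090 D T h) mem_nil) cw25024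
theorem L5625 : LFK l5625 := fun D T h => lf_of_chk h (mem_cons (W22829 D T h) (mem_cons (W230 D T h) (mem_cons (W162 D T h) (mem_cons (W535 D T h) (mem_cons (W537 D T h) (mem_cons (W2413 D T h) (mem_cons (W4632 D T h) (mem_cons (W25016 D T h) (mem_cons (W932 D T h) (mem_cons (W16 D T h) (mem_cons (W4038 D T h) (mem_cons (W22921 D T h) (mem_cons (W11008 D T h) (mem_cons (W2438 D T h) (mem_cons (W22922 D T h) (mem_cons (W128 D T h) (mem_cons (W10709 D T h) (mem_cons (W17572 D T h) (mem_cons (W10710 D T h) (mem_cons (W17951 D T h) (mem_cons (W24023 D T h) (mem_cons (W24143 D T h) mem_nil)))))))))))))))))))))) cl5625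
theorem W25025 : WFK w25025 := fun D T h => wf_of_chk h mem_nil (mem_cons (L5625 D T h) mem_nil) cw25025
theorem W25026 : WFK w25026 := fun D T h => wf_of_chk h (mem_cons (W8595 D T h) (mem_cons (W16 D T h) mem_nil)) mem_nil cw25026
theorem W25027 : WFK w25027 := fun D T h => wf_of_chk h mem_nil (mem_cons (L1947 D T h) mem_nil) cw25027
theorem W25030 : WFK w25030 := fun D T h => wf_of_chk h mem_nil (mem_cons (L305 D T h) mem_nil) cw25030
theorem W25038 : WFK w25038 := fun D T h => wf_of_chk h mem_nil (mem_cons (L305 D T h) mem_nil) cw25038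
theorem W25040 : WFK w25040 := fun D T h => wf_of_chk h mem_nil (mem_cons (L3251 D T h) mem_nil) cw25040
theorem W25045 : WFK w25045 := fun D T h => wf_of_chk h mem_nil (mem_cons (L2575 D T h) mem_nil) cw25045
theorem L5632 : LFK l5632 := fun D T h => lf_of_chk h (mem_cons (W15786 D T h) (mem_cons (W25045 D T h) (mem_cons (W281 D T h) (mem_cons (W15760 D T h) (mem_cons (W17153 D T h) (mem_cons (W8207 D T h) (mem_cons (W564 D T h) (mem_cons (W25027 D T h) (mem_cons (W25030 D T h) (mem_cons (W565 D T h) (mem_cons (W267 D T h) (mem_cons (W721 D T h) (mem_cons (W114 D T h) (mem_cons (W563 D T h) mem_nil)))))))))))))) cl5632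
theorem W25046 : WFK w25046 := fun D T h => wf_of_chk h mem_nil (mem_cons (L5632 D T h) mem_nil) cw25046
theorem L5634 : LFK l5634 := fun D T h => lf_of_chk h (mem_cons (W25046 D T h) (mem_cons (W5721 D T h) (mem_cons (W15 D T h) (mem_cons (W5157 D T h) (mem_cons (W1064 D T h) (mem_cons (W128 D T h) (mem_cons (W219 D T h) (mem_cons (W4209 D T h) (mem_cons (W13890 D T h) (mem_cons (W4038 D T h) mem_nil)))))))))) cl5634
theorem W25048 : WFK w25048 := fun D T h => wf_of_chk h mem_nil (mem_cons (L5634 D T h) mem_nil) cw25048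
theorem L5635 : LFK l5635 := fun D T h => lf_of_chk h (mem_cons (W10979 D T h) (mem_cons (W5721 D T h) (mem_cons (W16 D T h) (mem_cons (W6326 D T h) (mem_cons (W2015 D T h) (mem_cons (W3743 D T h) (mem_cons (W25025 D T h) (mem_cons (W12203 D T h) (mem_cons (W2037 D T h) (mem_cons (W25026 D T h) (mem_cons (W4209 D T h) (mem_cons (W128 D T h) (mem_cons (W3029 D T h) (mem_cons (W9976 D T h) (mem_cons (W25048 D T h) (mem_cons (W799 D T h) (mem_cons (W1182 D T h) (mem_cons (W1185 D T h) (mem_cons (W1186 D T h) (mem_cons (W1183 D T h) mem_nil)))))))))))))))))))) cl5635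
theorem W25049 : WFK w25049 := fun D T h => wf_of_chk h mem_nil (mem_cons (L5635 D T h) mem_nil) cw25049
theorem W25050 : WFK w25050 := fun D T h => wf_of_chk h (mem_cons (W370 D T h) (mem_cons (W34 D T h) mem_nil)) mem_nil cw25050
theorem W25051 : WFK w25051 := fun D T h => wf_of_chk h mem_nil (mem_cons (L340 D T h) mem_nil) cw25051
theorem L5636 : LFK l5636 := fun D T h => lf_of_chk h (mem_cons (W4632 D T h) (mem_cons (W1070 D T h) (mem_cons (W2452 D T h) (mem_cons (W3019 D T h) (mem_cons (W1166 D T h) (mem_cons (W34 D T h) (mem_cons (W4 D T h) (mem_cons (W33 D T h) (mem_cons (W5158 D T h) (mem_cons (W22229 D T h) (mem_cons (W3788 D T h) (mem_cons (W576 D T h) (mem_cons (W10182 D T h) (mem_cons (W817 D T h) (mem_cons (W971 D T h) (mem_cons (W3274 D T h) (mem_cons (W25051 D T h) (mem_cons (W8076 D T h) mem_nil)))))))))))))))))) cl5636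
theorem W25052 : WFK w25052 := fun D T h => wf_of_chk h mem_nil (mem_cons (L5636 D T h) mem_nil) cw25052
theorem W25053 : WFK w25053 := fun D T h => wf_of_chk h (mem_cons (W368 D T h) (mem_cons (W34 D T h) mem_nil)) mem_nil cw25053
theorem L5637 : LFK l5637 := fun D T h => lf_of_chk h (mem_cons (W13890 D T h) (mem_cons (W25053 D T h) (mem_cons (W126 D T h) (mem_cons (W1616 D T h) (mem_cons (W12 D T h) (mem_cons (W1129 D T h) (mem_cons (W3274 D T h) (mem_cons (W5358 D T h) (mem_cons (W2766 D T h) (mem_cons (W25030 D T h) (mem_cons (W140 D T h) (mem_cons (W141 D T h) (mem_cons (W1128 D T h) (mem_cons (W4400 D T h) (mem_cons (W160 D T h) (mem_cons (W255 D T h) (mem_cons (W747 D T h) (mem_cons (W871 D T h) (mem_cons (W581 D T h) mem_nil))))))))))))))))))) cl5637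
theorem W25054 : WFK w25054 := fun D T h => wf_of_chk h mem_nil (mem_cons (L5637 D T h) mem_nil) cw25054
theorem L5638 : LFK l5638 := fun D T h => lf_of_chk h (mem_cons (W8397 D T h) (mem_cons (W1166 D T h) (mem_cons (W1952 D T h) (mem_cons (W581 D T h) (mem_cons (W2456 D T h) (mem_cons (W8210 D T h) (mem_cons (W7112 D T h) (mem_cons (W23896 D T h) (mem_cons (W4632 D T h) (mem_cons (W15168 D T h) (mem_cons (W14925 D T h) (mem_cons (W1320 D T h) (mem_cons (W20044 D T h) (mem_cons (W6483 D T h) (mem_cons (W34 D T h) (mem_cons (W638 D T h) (mem_cons (W153 D T h) (mem_cons (W25045 D T h) (mem_cons (W5578 D T h) (mem_cons (W15249 D T h) (mem_cons (W16464 D T h) (mem_cons (W267 D T h) (mem_cons (W14924 D T h) (mem_cons (W10253 D T h) (mem_cons (W16420 D T h) (mem_cons (W9411 D T h) (mem_cons (W18060 D T h) mem_nil))))))))))))))))))))))))))) cl5638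
theorem W25055 : WFK w25055 := fun D T h => wf_of_chk h mem_nil (mem_cons (L5638 D T h) mem_nil) cw25055
theorem L5639 : LFK l5639 := fun D T h => lf_of_chk h (mem_cons (W2456 D T h) (mem_cons (W18663 D T h) (mem_cons (W2463 D T h) (mem_cons (W1065 D T h) (mem_cons (W581 D T h) (mem_cons (W1166 D T h) (mem_cons (W34 D T h) (mem_cons (W924 D T h) (mem_cons (W3024 D T h) (mem_cons (W5157 D T h) (mem_cons (W2457 D T h) (mem_cons (W2442 D T h) (mem_cons (W2521 D T h) (mem_cons (W2753 D T h) (mem_cons (W9861 D T h) (mem_cons (W10051 D T h) (mem_cons (W2460 D T h) (mem_cons (W2459 D T h) (mem_cons (W18060 D T h) (mem_cons (W22337 D T h) (mem_cons (W23896 D T h) (mem_cons (W2452 D T h) (mem_cons (W14817 D T h) (mem_cons (W15163 D T h) (mem_cons (W2453 D T h) (mem_cons (W10800 D T h) mem_nil)))))))))))))))))))))))))) cl5639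
theorem W25056 : WFK w25056 := fun D T h => wf_of_chk h mem_nil (mem_cons (L5639 D T h) mem_nil) cw25056
theorem W25057 : WFK w25057 := fun D T h => wf_of_chk h (mem_cons (W33 D T h) (mem_cons (W3356 D T h) mem_nil)) mem_nil cw25057
theorem W25058 : WFK w25058 := fun D T h => wf_of_chk h (mem_cons (W33 D T h) (mem_cons (W3356 D T h) mem_nil)) mem_nil cw25058
theorem W25059 : WFK w25059 := fun D T h => wf_of_chk h (mem_cons (W103 D T h) (mem_cons (W5841 D T h) mem_nil)) mem_nil cw25059
theorem W25060 : WFK w25060 := fun D T h => wf_of_chk h (mem_cons (W10183 D T h) (mem_cons (W3356 D T h) mem_nil)) mem_nil cw25060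
theorem W25061 : WFK w25061 := fun D T h => wf_of_chk h (mem_cons (W3831 D T h) (mem_cons (W3356 D T h) mem_nil)) mem_nil cw25061
theorem L5640 : LFK l5640 := fun D T h => lf_of_chk h (mem_cons (W809 D T h) (mem_cons (W808 D T h) (mem_cons (W1 D T h) (mem_cons (W5 D T h) (mem_cons (W278 D T h) (mem_cons (W26 D T h) (mem_cons (W408 D T h) (mem_cons (W603 D T h) (mem_cons (W604 D T h) (mem_cons (W889 D T h) (mem_cons (W10986 D T h) (mem_cons (W14730 D T h) (mem_cons (W906 D T h) mem_nil))))))))))))) cl5640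
theorem W25062 : WFK w25062 := fun D T h => wf_of_chk h mem_nil (mem_cons (L5640 D T h) mem_nil) cw25062
theorem W25063 : WFK w25063 := fun D T h => wf_of_chk h (mem_cons (W25062 D T h) (mem_cons (W3356 D T h) mem_nil)) mem_nil cw25063
theorem W25064 : WFK w25064 := fun D T h => wf_of_chk h (mem_cons (W3356 D T h) mem_nil) mem_nil cw25064
theorem L5641 : LFK l5641 := fun D T h => lf_of_chk h (mem_cons (W15786 D T h) (mem_cons (W6714 D T h) (mem_cons (W69 D T h) (mem_cons (W1 D T h) (mem_cons (W15760 D T h) (mem_cons (W17153 D T h) (mem_cons (W33 D T h) (mem_cons (W937 D T h) (mem_cons (W25064 D T h) (mem_cons (W10225 D T h) mem_nil)))))))))) cl5641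
theorem W25065 : WFK w25065 := fun D T h => wf_of_chk h mem_nil (mem_cons (L5641 D T h) mem_nil) cw25065
theorem W25066 : WFK w25066 := fun D T h => wf_of_chk h (mem_cons (W25065 D T h) mem_nil) mem_nil cw25066
theorem W25067 : WFK w25067 := fun D T h => wf_of_chk h (mem_cons (W25065 D T h) mem_nil) mem_nil cw25067
theorem W25068 : WFK w25068 := fun D T h => wf_of_chk h (mem_cons (W3888 D T h) (mem_cons (W3356 D T h) mem_nil)) mem_nil cw25068
theorem W25069 : WFK w25069 := fun D T h => wf_of_chk h (mem_cons (W1412 D T h) (mem_cons (W3356 D T h) mem_nil)) mem_nil cw25069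
theorem L5642 : LFK l5642 := fun D T h => lf_of_chk h (mem_cons (W25030 D T h) (mem_cons (W7114 D T h) (mem_cons (W10 D T h) (mem_cons (W5841 D T h) (mem_cons (W3518 D T h) (mem_cons (W6714 D T h) (mem_cons (W489 D T h) (mem_cons (W3356 D T h) (mem_cons (W25069 D T h) (mem_cons (W22095 D T h) (mem_cons (W8695 D T h) (mem_cons (W25057 D T h) (mem_cons (W25058 D T h) (mem_cons (W25059 D T h) (mem_cons (W25016 D T h) (mem_cons (W25060 D T h) (mem_cons (W538 D T h) (mem_cons (W25061 D T h) (mem_cons (W18406 D T h) (mem_cons (W15218 D T h) (mem_cons (W25063 D T h) (mem_cons (W25066 D T h) (mem_cons (W80 D T h) (mem_cons (W25067 D T h) (mem_cons (W91 D T h) (mem_cons (W25068 D T h) mem_nil)))))))))))))))))))))))))) cl5642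
theorem W25070 : WFK w25070 := fun D T h => wf_of_chk h mem_nil (mem_cons (L5642 D T h) mem_nil) cw25070
theorem W25071 : WFK w25071 := fun D T h => wf_of_chk h (mem_cons (W13033 D T h) (mem_cons (W710 D T h) mem_nil)) mem_nil cw25071
theorem W25073 : WFK w25073 := fun D T h => wf_of_chk h (mem_cons (W368 D T h) (mem_cons (W162 D T h) mem_nil)) mem_nil cw25073
theorem W25074 : WFK w25074 := fun D T h => wf_of_chk h (mem_cons (W25073 D T h) (mem_cons (W710 D T h) mem_nil)) mem_nil cw25074
theorem W25075 : WFK w25075 := fun D T h => wf_of_chk h mem_nil (mem_cons (L2227 D T h) mem_nil) cw25075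
theorem W25076 : WFK w25076 := fun D T h => wf_of_chk h mem_nil (mem_cons (L1277 D T h) mem_nil) cw25076
theorem L5643 : LFK l5643 := fun D T h => lf_of_chk h (mem_cons (W5841 D T h) (mem_cons (W2015 D T h) (mem_cons (W3035 D T h) (mem_cons (W1919 D T h) (mem_cons (W3 D T h) (mem_cons (W39 D T h) (mem_cons (W281 D T h) (mem_cons (W25076 D T h) (mem_cons (W581 D T h) (mem_cons (W1325 D T h) (mem_cons (W1554 D T h) (mem_cons (W1326 D T h) (mem_cons (W12126 D T h) (mem_cons (W152 D T h) (mem_cons (W267 D T h) (mem_cons (W721 D T h) (mem_cons (W871 D T h) (mem_cons (W42 D T h) mem_nil)))))))))))))))))) cl5643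
theorem W25077 : WFK w25077 := fun D T h => wf_of_chk h mem_nil (mem_cons (L5643 D T h) mem_nil) cw25077
theorem W25078 : WFK w25078 := fun D T h => wf_of_chk h (mem_cons (W5600 D T h) mem_nil) mem_nil cw25078
theorem W25079 : WFK w25079 := fun D T h => wf_of_chk h (mem_cons (W2228 D T h) (mem_cons (W12514 D T h) mem_nil)) mem_nil cw25079
theorem W25080 : WFK w25080 := fun D T h => wf_of_chk h (mem_cons (W1576 D T h) (mem_cons (W12514 D T h) mem_nil)) mem_nil cw25080
theorem L5644 : LFK l5644 := fun D T h => lf_of_chk h (mem_cons (W15786 D T h) (mem_cons (W25077 D T h) (mem_cons (W15760 D T h) (mem_cons (W1 D T h) (mem_cons (W69 D T h) (mem_cons (W91 D T h) (mem_cons (W17153 D T h) (mem_cons (W25078 D T h) (mem_cons (W25027 D T h) (mem_cons (W25030 D T h) (mem_cons (W267 D T h) (mem_cons (W25079 D T h) (mem_cons (W721 D T h) (mem_cons (W114 D T h) (mem_cons (W25080 D T h) mem_nil))))))))))))))) cl5644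
theorem W25081 : WFK w25081 := fun D T h => wf_of_chk h mem_nil (mem_cons (L5644 D T h) mem_nil) cw25081
theorem W25082 : WFK w25082 := fun D T h => wf_of_chk h (mem_cons (W489 D T h) (mem_cons (W162 D T h) mem_nil)) mem_nil cw25082
theorem W25083 : WFK w25083 := fun D T h => wf_of_chk h (mem_cons (W85 D T h) (mem_cons (W162 D T h) mem_nil)) mem_nil cw25083
theorem W25085 : WFK w25085 := fun D T h => wf_of_chk h (mem_cons (W85 D T h) (mem_cons (W42 D T h) mem_nil)) mem_nil cw25085
theorem L5645 : LFK l5645 := fun D T h => lf_of_chk h (mem_cons (W15786 D T h) (mem_cons (W1170 D T h) (mem_cons (W15760 D T h) (mem_cons (W1 D T h) (mem_cons (W69 D T h) (mem_cons (W2204 D T h) (mem_cons (W17153 D T h) (mem_cons (W13836 D T h) (mem_cons (W25083 D T h) (mem_cons (W2210 D T h) (mem_cons (W489 D T h) (mem_cons (W25085 D T h) mem_nil)))))))))))) cl5645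
theorem W25086 : WFK w25086 := fun D T h => wf_of_chk h mem_nil (mem_cons (L5645 D T h) mem_nil) cw25086
theorem L5646 : LFK l5646 := fun D T h => lf_of_chk h (mem_cons (W23905 D T h) (mem_cons (W7114 D T h) (mem_cons (W710 D T h) (mem_cons (W34 D T h) (mem_cons (W5841 D T h) (mem_cons (W6714 D T h) (mem_cons (W3619 D T h) (mem_cons (W3630 D T h) (mem_cons (W2015 D T h) (mem_cons (W22914 D T h) (mem_cons (W25055 D T h) (mem_cons (W25056 D T h) (mem_cons (W267 D T h) (mem_cons (W5375 D T h) (mem_cons (W8397 D T h) (mem_cons (W25070 D T h) (mem_cons (W24416 D T h) (mem_cons (W7353 D T h) (mem_cons (W25050 D T h) (mem_cons (W25052 D T h) (mem_cons (W2726 D T h) (mem_cons (W25054 D T h) (mem_cons (W6968 D T h) (mem_cons (W14733 D T h) (mem_cons (W25071 D T h) (mem_cons (W25074 D T h) (mem_cons (W25075 D T h) (mem_cons (W25081 D T h) (mem_cons (W14519 D T h) (mem_cons (W25082 D T h) (mem_cons (W25086 D T h) mem_nil))))))))))))))))))))))))))))))) cl5646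
theorem W25087 : WFK w25087 := fun D T h => wf_of_chk h mem_nil (mem_cons (L5646 D T h) mem_nil) cw25087
theorem W25088 : WFK w25088 := fun D T h => wf_of_chk h (mem_cons (W23945 D T h) (mem_cons (W162 D T h) mem_nil)) mem_nil cw25088
theorem W25089 : WFK w25089 := fun D T h => wf_of_chk h (mem_cons (W23576 D T h) (mem_cons (W162 D T h) mem_nil)) mem_nil cw25089
theorem W25090 : WFK w25090 := fun D T h => wf_of_chk h (mem_cons (W2529 D T h) (mem_cons (W162 D T h) mem_nil)) mem_nil cw25090
theorem W25091 : WFK w25091 := fun D T h => wf_of_chk h (mem_cons (W1311 D T h) (mem_cons (W508 D T h) mem_nil)) mem_nil cw25091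
theorem W25092 : WFK w25092 := fun D T h => wf_of_chk h mem_nil (mem_cons (L3047 D T h) mem_nil) cw25092
theorem W25093 : WFK w25093 := fun D T h => wf_of_chk h (mem_cons (W177 D T h) (mem_cons (W676 D T h) mem_nil)) mem_nil cw25093
theorem W25094 : WFK w25094 := fun D T h => wf_of_chk h (mem_cons (W508 D T h) mem_nil) mem_nil cw25094
theorem W25095 : WFK w25095 := fun D T h => wf_of_chk h (mem_cons (W3207 D T h) (mem_cons (W508 D T h) mem_nil)) mem_nil cw25095
theorem W25096 : WFK w25096 := fun D T h => wf_of_chk h (mem_cons (W4277 D T h) (mem_cons (W177 D T h) mem_nil)) mem_nil cw25096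
theorem W25097 : WFK w25097 := fun D T h => wf_of_chk h (mem_cons (W111 D T h) (mem_cons (W508 D T h) mem_nil)) mem_nil cw25097
theorem W25098 : WFK w25098 := fun D T h => wf_of_chk h (mem_cons (W495 D T h) (mem_cons (W676 D T h) mem_nil)) mem_nil cw25098
theorem W25099 : WFK w25099 := fun D T h => wf_of_chk h (mem_cons (W497 D T h) (mem_cons (W676 D T h) mem_nil)) mem_nil cw25099
theorem W25100 : WFK w25100 := fun D T h => wf_of_chk h (mem_cons (W495 D T h) (mem_cons (W676 D T h) mem_nil)) mem_nil cw25100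
theorem W25101 : WFK w25101 := fun D T h => wf_of_chk h (mem_cons (W16 D T h) (mem_cons (W2301 D T h) mem_nil)) mem_nil cw25101
theorem W25102 : WFK w25102 := fun D T h => wf_of_chk h (mem_cons (W1640 D T h) (mem_cons (W508 D T h) mem_nil)) mem_nil cw25102
theorem W25103 : WFK w25103 := fun D T h => wf_of_chk h (mem_cons (W508 D T h) (mem_cons (W676 D T h) mem_nil)) mem_nil cw25103
theorem W25104 : WFK w25104 := fun D T h => wf_of_chk h (mem_cons (W368 D T h) (mem_cons (W177 D T h) mem_nil)) mem_nil cw25104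
theorem W25105 : WFK w25105 := fun D T h => wf_of_chk h (mem_cons (W370 D T h) (mem_cons (W177 D T h) mem_nil)) mem_nil cw25105
theorem W25106 : WFK w25106 := fun D T h => wf_of_chk h (mem_cons (W15491 D T h) (mem_cons (W726 D T h) mem_nil)) mem_nil cw25106
theorem W25107 : WFK w25107 := fun D T h => wf_of_chk h (mem_cons (W12633 D T h) (mem_cons (W726 D T h) mem_nil)) mem_nil cw25107
theorem W25108 : WFK w25108 := fun D T h => wf_of_chk h mem_nil (mem_cons (L3485 D T h) mem_nil) cw25108
theorem L5647 : LFK l5647 := fun D T h => lf_of_chk h (mem_cons (W25093 D T h) (mem_cons (W177 D T h) (mem_cons (W726 D T h) (mem_cons (W508 D T h) (mem_cons (W3640 D T h) (mem_cons (W763 D T h) (mem_cons (W4566 D T h) (mem_cons (W25104 D T h) (mem_cons (W3565 D T h) (mem_cons (W17438 D T h) (mem_cons (W1408 D T h) (mem_cons (W25108 D T h) (mem_cons (W15807 D T h) (mem_cons (W25096 D T h) (mem_cons (W267 D T h) (mem_cons (W25105 D T h) (mem_cons (W24019 D T h) (mem_cons (W25106 D T h) (mem_cons (W24016 D T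 h) (mem_cons (W3672 D T h) (mem_cons (W25107 D T h) (mem_cons (W3599 D T h) (mem_cons (W3598 D T h) (mem_cons (W397 D T h) (mem_cons (W3644 D T h) (mem_cons (W6095 D T h) (mem_cons (W25095 D T h) (mem_cons (W25094 D T h) (mem_cons (W2301 D T h) (mem_cons (W24113 D T h) (mem_cons (W25101 D T h) (mem_cons (W25102 D T h) (mem_cons (W2219 D T h) (mem_cons (W25103 D T h) (mem_cons (W6094 D T h) (mem_cons (W3766 D T h) (mem_cons (W25097 D T h) (mem_cons (W16280 D T h) (mem_cons (W25098 D T h) (mem_cons (W25099 D T h) (mem_cons (W1144 D T h) (mem_cons (W25100 D T h) mem_nil)))))))))))))))))))))))))))))))))))))))))) cl5647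
theorem W25109 : WFK w25109 := fun D T h => wf_of_chk h mem_nil (mem_cons (L5647 D T h) mem_nil) cw25109
theorem W25110 : WFK w25110 := fun D T h => wf_of_chk h (mem_cons (W370 D T h) (mem_cons (W508 D T h) mem_nil)) mem_nil cw25110
theorem L5648 : LFK l5648 := fun D T h => lf_of_chk h (mem_cons (W22415 D T h) (mem_cons (W13134 D T h) (mem_cons (W8047 D T h) (mem_cons (W4209 D T h) (mem_cons (W22978 D T h) (mem_cons (W22894 D T h) (mem_cons (W267 D T h) (mem_cons (W22979 D T h) (mem_cons (W24019 D T h) (mem_cons (W25088 D T h) (mem_cons (W24016 D T h) (mem_cons (W25089 D T h) (mem_cons (W25090 D T h) (mem_cons (W508 D T h) (mem_cons (W676 D T h) (mem_cons (W162 D T h) (mem_cons (W24880 D T h) (mem_cons (W25109 D T h) (mem_cons (W25110 D T h) (mem_cons (W4555 D T h) (mem_cons (W22983 D T h) (mem_cons (W1631 D T h) (mem_cons (W25091 D T h) (mem_cons (W13262 D T h) (mem_cons (W22976 D T h) (mem_cons (W13261 D T h) (mem_cons (W22977 D T h) (mem_cons (W22921 D T h) (mem_cons (W25092 D T h) mem_nil)))))))))))))))))))))))))))))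 cl5648
theorem W25111 : WFK w25111 := fun D T h => wf_of_chk h mem_nil (mem_cons (L5648 D T h) mem_nil) cw25111
theorem W25112 : WFK w25112 := fun D T h => wf_of_chk h mem_nil (mem_cons (L2592 D T h) mem_nil) cw25112
theorem W25113 : WFK w25113 := fun D T h => wf_of_chk h mem_nil (mem_cons (L2400 D T h) mem_nil) cw25113
theorem L5653 : LFK l5653 := fun D T h => lf_of_chk h (mem_cons (W19815 D T h) (mem_cons (W2015 D T h) (mem_cons (W18891 D T h) (mem_cons (W461 D T h) (mem_cons (W3 D T h) (mem_cons (W39 D T h) (mem_cons (W42 D T h) (mem_cons (W4556 D T h) (mem_cons (W716 D T h) (mem_cons (W9943 D T h) (mem_cons (W567 D T h) (mem_cons (W581 D T h) (mem_cons (W1554 D T h) (mem_cons (W1325 D T h) (mem_cons (W1326 D T h) mem_nil))))))))))))))) cl5653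
theorem W25126 : WFK w25126 := fun D T h => wf_of_chk h mem_nil (mem_cons (L5653 D T h) mem_nil) cw25126
theorem L5655 : LFK l5655 := fun D T h => lf_of_chk h (mem_cons (W1408 D T h) (mem_cons (W17 D T h) (mem_cons (W16 D T h) (mem_cons (W15786 D T h) (mem_cons (W24 D T h) (mem_cons (W15807 D T h) (mem_cons (W3392 D T h) (mem_cons (W3335 D T h) (mem_cons (W23 D T h) (mem_cons (W3 D T h) (mem_cons (W14519 D T h) (mem_cons (W23639 D T h) (mem_cons (W1449 D T h) (mem_cons (W1448 D T h) mem_nil)))))))))))))) cl5655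
theorem W25132 : WFK w25132 := fun D T h => wf_of_chk h mem_nil (mem_cons (L5655 D T h) mem_nil) cw25132
theorem W25134 : WFK w25134 := fun D T h => wf_of_chk h mem_nil (mem_cons (L5655 D T h) mem_nil) cw25134
theorem W25137 : WFK w25137 := fun D T h => wf_of_chk h (mem_cons (W39 D T h) mem_nil) mem_nil cw25137
theorem W25158 : WFK w25158 := fun D T h => wf_of_chk h (mem_cons (W8444 D T h) (mem_cons (W1063 D T h) mem_nil)) mem_nil cw25158
theorem W25159 : WFK w25159 := fun D T h => wf_of_chk h mem_nil (mem_cons (L2524 D T h) mem_nil) cw25159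
theorem W25160 : WFK w25160 := fun D T h => wf_of_chk h (mem_cons (W162 D T h) (mem_cons (W682 D T h) mem_nil)) mem_nil cw25160
theorem W25161 : WFK w25161 := fun D T h => wf_of_chk h mem_nil (mem_cons (L5484 D T h) mem_nil) cw25161
theorem W25162 : WFK w25162 := fun D T h => wf_of_chk h (mem_cons (W23858 D T h) (mem_cons (W16 D T h) mem_nil)) mem_nil cw25162
theorem W25163 : WFK w25163 := fun D T h => wf_of_chk h mem_nil (mem_cons (L1920 D T h) mem_nil) cw25163
theorem W25164 : WFK w25164 := fun D T h => wf_of_chk h (mem_cons (W178 D T h) (mem_cons (W16 D T h) mem_nil)) mem_nil cw25164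
theorem W25165 : WFK w25165 := fun D T h => wf_of_chk h (mem_cons (W970 D T h) (mem_cons (W16 D T h) mem_nil)) mem_nil cw25165
theorem L5660 : LFK l5660 := fun D T h => lf_of_chk h (mem_cons (W1208 D T h) (mem_cons (W16 D T h) (mem_cons (W682 D T h) (mem_cons (W1063 D T h) (mem_cons (W164 D T h) (mem_cons (W42 D T h) (mem_cons (W1312 D T h) (mem_cons (W7074 D T h) (mem_cons (W12203 D T h) (mem_cons (W799 D T h) (mem_cons (W25165 D T h) (mem_cons (W25164 D T h) (mem_cons (W114 D T h) (mem_cons (W267 D T h) (mem_cons (W1067 D T h) (mem_cons (W12522 D T h) (mem_cons (W10072 D T h) (mem_cons (W24280 D T h) (mem_cons (W11024 D T h) (mem_cons (W162 D T h) (mem_cons (W1188 D T h) (mem_cons (W2441 D T h) (mem_cons (W6714 D T h) (mem_cons (W11028 D T h) (mem_cons (W220 D T h) (mem_cons (W4209 D T h) (mem_cons (W25163 D T h) (mem_cons (W12329 D T h) (mem_cons (W16178 D T h) (mem_cons (W6968 D T h) (mem_cons (W1139 D T h) mem_nil))))))))))))))))))))))))))))))) cl5660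
theorem W25166 : WFK w25166 := fun D T h => wf_of_chk h mem_nil (mem_cons (L5660 D T h) mem_nil) cw25166
theorem W25167 : WFK w25167 := fun D T h => wf_of_chk h mem_nil (mem_cons (L2592 D T h) mem_nil) cw25167
theorem W25168 : WFK w25168 := fun D T h => wf_of_chk h mem_nil (mem_cons (L274 D T h) mem_nil) cw25168
theorem L5661 : LFK l5661 := fun D T h => lf_of_chk h (mem_cons (W22879 D T h) (mem_cons (W24026 D T h) (mem_cons (W16 D T h) (mem_cons (W1063 D T h) (mem_cons (W1291 D T h) (mem_cons (W12851 D T h) (mem_cons (W7632 D T h) (mem_cons (W682 D T h) (mem_cons (W1068 D T h) (mem_cons (W11893 D T h) (mem_cons (W6425 D T h) (mem_cons (W11897 D T h) (mem_cons (W25168 D T h) (mem_cons (W18561 D T h) (mem_cons (W3265 D T h) (mem_cons (W23905 D T h) (mem_cons (W12951 D T h) (mem_cons (W25160 D T h) (mem_cons (W25161 D T h) (mem_cons (W25162 D T h) (mem_cons (W11731 D T h) (mem_cons (W25166 D T h) (mem_cons (W25167 D T h) (mem_cons (W14681 D T h) (mem_cons (W677 D T h) (mem_cons (W14355 D T h)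 (mem_cons (W10974 D T h) (mem_cons (W25113 D T h) (mem_cons (W25158 D T h) (mem_cons (W11914 D T h) (mem_cons (W9599 D T h) (mem_cons (W25159 D T h) (mem_cons (W24023 D T h) (mem_cons (W24361 D T h) (mem_cons (W24401 D T h) (mem_cons (W3222 D T h) (mem_cons (W7790 D T h) (mem_cons (W24440 D T h) (mem_cons (W25021 D T h) (mem_cons (W25022 D T h) (mem_cons (W25023 D T h) (mem_cons (W25024 D T h) (mem_cons (W25049 D T h) (mem_cons (W24027 D T h) (mem_cons (W24028 D T h) (mem_cons (W2015 D T h) (mem_cons (W25087 D T h) (mem_cons (W25111 D T h) (mem_cons (W12203 D T h) (mem_cons (W2037 D T h) (mem_cons (W25112 D T h) (mem_cons (W24029 D T h) (mem_cons (W4209 D T h) (mem_cons (W128 D T h) (mem_cons (W9771 D T h) (mem_cons (W17572 D T h) (mem_cons (W24114 D T h) (mem_cons (W24127 D T h) (mem_cons (W10973 D T h) (mem_cons (W24140 D T h) (mem_cons (W24141 D T h) mem_nil))))))))))))))))))))))))))))))))))))))))))))))))))))))))))))) cl5661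
theorem W25169 : WFK w25169 := fun D T h => wf_of_chk h mem_nil (mem_cons (L5661 D T h) mem_nil) cw25169
theorem W25170 : WFK w25170 := fun D T h => wf_of_chk h (mem_cons (W368 D T h) (mem_cons (W1291 D T h) mem_nil)) mem_nil cw25170
theorem L5662 : LFK l5662 := fun D T h => lf_of_chk h (mem_cons (W3304 D T h) (mem_cons (W284 D T h) (mem_cons (W1063 D T h) (mem_cons (W42 D T h) (mem_cons (W35 D T h) (mem_cons (W7084 D T h) (mem_cons (W7114 D T h) (mem_cons (W5157 D T h) (mem_cons (W21522 D T h) (mem_cons (W25170 D T h) (mem_cons (W21212 D T h) (mem_cons (W7559 D T h) (mem_cons (W11997 D T h) (mem_cons (W11995 D T h) (mem_cons (W757 D T h) (mem_cons (W18669 D T h) mem_nil)))))))))))))))) cl5662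
theorem W25171 : WFK w25171 := fun D T h => wf_of_chk h mem_nil (mem_cons (L5662 D T h) mem_nil) cw25171
theorem W25172 : WFK w25172 := fun D T h => wf_of_chk h (mem_cons (W126 D T h) (mem_cons (W1153 D T h) mem_nil)) mem_nil cw25172
theorem W25182 : WFK w25182 := fun D T h => wf_of_chk h mem_nil (mem_cons (L630 D T h) mem_nil) cw25182
theorem W25196 : WFK w25196 := fun D T h => wf_of_chk h mem_nil (mem_cons (L277 D T h) mem_nil) cw25196
theorem W25197 : WFK w25197 := fun D T h => wf_of_chk h (mem_cons (W83 D T h) (mem_cons (W495 D T h) mem_nil)) mem_nil cw25197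
theorem W25199 : WFK w25199 := fun D T h => wf_of_chk h (mem_cons (W20252 D T h) (mem_cons (W495 D T h) mem_nil)) mem_nil cw25199
theorem W25200 : WFK w25200 := fun D T h => wf_of_chk h mem_nil (mem_cons (L5506 D T h) mem_nil) cw25200
theorem W25201 : WFK w25201 := fun D T h => wf_of_chk h mem_nil (mem_cons (L5506 D T h) mem_nil) cw25201
theorem W25202 : WFK w25202 := fun D T h => wf_of_chk h mem_nil (mem_cons (L940 D T h) mem_nil) cw25202
theorem L5671 : LFK l5671 := fun D T h => lf_of_chk h (mem_cons (W2159 D T h) (mem_cons (W495 D T h) (mem_cons (W946 D T h) (mem_cons (W281 D T h) (mem_cons (W14 D T h) (mem_cons (W21227 D T h) (mem_cons (W5140 D T h) (mem_cons (W69 D T h) (mem_cons (W932 D T h) (mem_cons (W25202 D T h) (mem_cons (W5280 D T h) (mem_cons (W616 D T h) (mem_cons (W25197 D T h) (mem_cons (W12426 D T h) (mem_cons (W42 D T h) (mem_cons (W25199 D T h) (mem_cons (W2347 D T h) (mem_cons (W1931 D T h) (mem_cons (W25200 D T h) (mem_cons (W25201 D T h) (mem_cons (W24030 D T h) (mem_cons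 (W21469 D T h) (mem_cons (W4038 D T h) mem_nil))))))))))))))))))))))) cl5671
theorem W25203 : WFK w25203 := fun D T h => wf_of_chk h mem_nil (mem_cons (L5671 D T h) mem_nil) cw25203
theorem L5672 : LFK l5672 := fun D T h => lf_of_chk h (mem_cons (W5258 D T h) (mem_cons (W1318 D T h) (mem_cons (W1153 D T h) (mem_cons (W1 D T h) (mem_cons (W69 D T h) (mem_cons (W15786 D T h) (mem_cons (W24764 D T h) (mem_cons (W25196 D T h) (mem_cons (W126 D T h) (mem_cons (W9005 D T h) (mem_cons (W267 D T h) (mem_cons (W721 D T h) (mem_cons (W8559 D T h) (mem_cons (W114 D T h) (mem_cons (W25203 D T h) mem_nil))))))))))))))) cl5672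
theorem W25204 : WFK w25204 := fun D T h => wf_of_chk h mem_nil (mem_cons (L5672 D T h) mem_nil) cw25204
theorem W25205 : WFK w25205 := fun D T h => wf_of_chk h (mem_cons (W8182 D T h) (mem_cons (W3898 D T h) mem_nil)) mem_nil cw25205
theorem W25206 : WFK w25206 := fun D T h => wf_of_chk h (mem_cons (W23170 D T h) (mem_cons (W16 D T h) mem_nil)) mem_nil cw25206
theorem W25207 : WFK w25207 := fun D T h => wf_of_chk h mem_nil (mem_cons (L5510 D T h) mem_nil) cw25207
theorem W25208 : WFK w25208 := fun D T h => wf_of_chk h (mem_cons (W80 D T h) (mem_cons (W2015 D T h) mem_nil)) mem_nil cw25208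
theorem W25209 : WFK w25209 := fun D T h => wf_of_chk h mem_nil (mem_cons (L814 D T h) mem_nil) cw25209
theorem W25210 : WFK w25210 := fun D T h => wf_of_chk h (mem_cons (W25209 D T h) (mem_cons (W16 D T h) mem_nil)) mem_nil cw25210
theorem W25211 : WFK w25211 := fun D T h => wf_of_chk h (mem_cons (W80 D T h) (mem_cons (W2015 D T h) mem_nil)) mem_nil cw25211
theorem W25212 : WFK w25212 := fun D T h => wf_of_chk h mem_nil (mem_cons (L1962 D T h) mem_nil) cw25212
theorem W25216 : WFK w25216 := fun D T h => wf_of_chk h (mem_cons (W1929 D T h) (mem_cons (W368 D T h) mem_nil)) mem_nil cw25216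
theorem W25217 : WFK w25217 := fun D T h => wf_of_chk h mem_nil (mem_cons (L1962 D T h) mem_nil) cw25217
theorem W25218 : WFK w25218 := fun D T h => wf_of_chk h mem_nil (mem_cons (L5549 D T h) mem_nil) cw25218
theorem W25219 : WFK w25219 := fun D T h => wf_of_chk h (mem_cons (W2015 D T h) mem_nil) mem_nil cw25219
theorem L5673 : LFK l5673 := fun D T h => lf_of_chk h (mem_cons (W24625 D T h) (mem_cons (W42 D T h) (mem_cons (W6714 D T h) (mem_cons (W368 D T h) (mem_cons (W2520 D T h) (mem_cons (W1919 D T h) (mem_cons (W16 D T h) (mem_cons (W6740 D T h) (mem_cons (W25212 D T h) (mem_cons (W25217 D T h) (mem_cons (W4256 D T h) (mem_cons (W25216 D T h) (mem_cons (W24480 D T h) (mem_cons (W7719 D T h) (mem_cons (W2517 D T h) (mem_cons (W8397 D T h) (mem_cons (W24476 D T h) (mem_cons (W22753 D T h) (mem_cons (W5212 D T h) (mem_cons (W24496 D T h) (mem_cons (W25218 D T h) (mem_cons (W260 D T h) (mem_cons (W178 D T h) (mem_cons (W24422 D T h) (mem_cons (W12250 D T h) (mem_cons (W10650 D T h) (mem_cons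 (W6372 D T h) (mem_cons (W7282 D T h) (mem_cons (W25206 D T h) (mem_cons (W25207 D T h) (mem_cons (W10076 D T h) (mem_cons (W878 D T h) (mem_cons (W16464 D T h) (mem_cons (W25208 D T h) (mem_cons (W25210 D T h) (mem_cons (W25211 D T h) (mem_cons (W25219 D T h) (mem_cons (W937 D T h) mem_nil)))))))))))))))))))))))))))))))))))))) cl5673
theorem W25220 : WFK w25220 := fun D T h => wf_of_chk h mem_nil (mem_cons (L5673 D T h) mem_nil) cw25220
theorem L5674 : LFK l5674 := fun D T h => lf_of_chk h (mem_cons (W9025 D T h) (mem_cons (W5721 D T h) (mem_cons (W42 D T h) (mem_cons (W16 D T h) (mem_cons (W7114 D T h) (mem_cons (W6613 D T h) (mem_cons (W2037 D T h) (mem_cons (W284 D T h) (mem_cons (W15 D T h) (mem_cons (W25220 D T h) (mem_cons (W128 D T h) (mem_cons (W1139 D T h) (mem_cons (W261 D T h) mem_nil))))))))))))) cl5674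
theorem W25221 : WFK w25221 := fun D T h => wf_of_chk h mem_nil (mem_cons (L5674 D T h) mem_nil) cw25221
theorem W25222 : WFK w25222 := fun D T h => wf_of_chk h (mem_cons (W8255 D T h) (mem_cons (W3898 D T h) mem_nil)) mem_nil cw25222
theorem W25223 : WFK w25223 := fun D T h => wf_of_chk h (mem_cons (W2839 D T h) (mem_cons (W3898 D T h) mem_nil)) mem_nil cw25223
theorem W25224 : WFK w25224 := fun D T h => wf_of_chk h (mem_cons (W1226 D T h) (mem_cons (W2839 D T h) mem_nil)) mem_nil cw25224
theorem W25225 : WFK w25225 := fun D T h => wf_of_chk h (mem_cons (W114 D T h) (mem_cons (W2839 D T h) mem_nil)) mem_nil cw25225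
theorem W25226 : WFK w25226 := fun D T h => wf_of_chk h mem_nil (mem_cons (L1879 D T h) mem_nil) cw25226
theorem W25227 : WFK w25227 := fun D T h => wf_of_chk h (mem_cons (W1092 D T h) (mem_cons (W16 D T h) mem_nil)) mem_nil cw25227
theorem W25228 : WFK w25228 := fun D T h => wf_of_chk h (mem_cons (W878 D T h) (mem_cons (W16 D T h) mem_nil)) mem_nil cw25228
theorem W25229 : WFK w25229 := fun D T h => wf_of_chk h (mem_cons (W3421 D T h) (mem_cons (W16 D T h) mem_nil)) mem_nil cw25229
theorem L5675 : LFK l5675 := fun D T h => lf_of_chk h (mem_cons (W6740 D T h) (mem_cons (W42 D T h) (mem_cons (W1398 D T h) (mem_cons (W22204 D T h) (mem_cons (W16 D T h) (mem_cons (W168 D T h) (mem_cons (W281 D T h) (mem_cons (W2799 D T h) (mem_cons (W10253 D T h) (mem_cons (W23607 D T h) (mem_cons (W6714 D T h) (mem_cons (W18845 D T h) (mem_cons (W505 D T h) (mem_cons (W3878 D T h) (mem_cons (W10381 D T h) (mem_cons (W461 D T h) (mem_cons (W10363 D T h) (mem_cons (W401 D T h) (mem_cons (W20829 D T h) (mem_cons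 (W220 D T h) (mem_cons (W4513 D T h) (mem_cons (W1139 D T h) (mem_cons (W6372 D T h) (mem_cons (W19479 D T h) (mem_cons (W23144 D T h) (mem_cons (W23034 D T h) (mem_cons (W10371 D T h) (mem_cons (W6591 D T h) (mem_cons (W11705 D T h) (mem_cons (W25227 D T h) (mem_cons (W2747 D T h) (mem_cons (W25228 D T h) (mem_cons (W24896 D T h) (mem_cons (W6712 D T h) (mem_cons (W25229 D T h) mem_nil))))))))))))))))))))))))))))))))))) cl5675
theorem W25230 : WFK w25230 := fun D T h => wf_of_chk h mem_nil (mem_cons (L5675 D T h) mem_nil) cw25230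
theorem W25231 : WFK w25231 := fun D T h => wf_of_chk h (mem_cons (W25230 D T h) (mem_cons (W16 D T h) mem_nil)) mem_nil cw25231
theorem W25232 : WFK w25232 := fun D T h => wf_of_chk h mem_nil (mem_cons (L1037 D T h) mem_nil) cw25232
theorem W25233 : WFK w25233 := fun D T h => wf_of_chk h (mem_cons (W12631 D T h) (mem_cons (W2839 D T h) mem_nil)) mem_nil cw25233
theorem W25235 : WFK w25235 := fun D T h => wf_of_chk h mem_nil (mem_cons (L2629 D T h) mem_nil) cw25235
theorem L5676 : LFK l5676 := fun D T h => lf_of_chk h (mem_cons (W9411 D T h) (mem_cons (W1125 D T h) (mem_cons (W581 D T h) (mem_cons (W267 D T h) (mem_cons (W114 D T h) (mem_cons (W39 D T h) (mem_cons (W16 D T h) (mem_cons (W25209 D T h) (mem_cons (W25235 D T h) (mem_cons (W255 D T h) (mem_cons (W871 D T h) (mem_cons (W12479 D T h) (mem_cons (W10912 D T h) (mem_cons (W153 D T h) (mem_cons (W10624 D T h) (mem_cons (W20339 D T h) (mem_cons (W11194 D T h) (mem_cons (W19354 D T h) (mem_cons (W12313 D T h) (mem_cons (W14620 D T h) (mem_cons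 (W13342 D T h) (mem_cons (W14618 D T h) (mem_cons (W14623 D T h) mem_nil))))))))))))))))))))))) cl5676
theorem W25236 : WFK w25236 := fun D T h => wf_of_chk h mem_nil (mem_cons (L5676 D T h) mem_nil) cw25236
theorem L5677 : LFK l5677 := fun D T h => lf_of_chk h (mem_cons (W9411 D T h) (mem_cons (W581 D T h) (mem_cons (W267 D T h) (mem_cons (W3 D T h) (mem_cons (W750 D T h) (mem_cons (W2902 D T h) (mem_cons (W40 D T h) (mem_cons (W153 D T h) (mem_cons (W10624 D T h) (mem_cons (W20339 D T h) (mem_cons (W41 D T h) (mem_cons (W19354 D T h) (mem_cons (W19398 D T h) (mem_cons (W55 D T h) (mem_cons (W46 D T h) (mem_cons (W44 D T h) (mem_cons (W45 D T h) mem_nil))))))))))))))))) cl5677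
theorem W25238 : WFK w25238 := fun D T h => wf_of_chk h mem_nil (mem_cons (L5677 D T h) mem_nil) cw25238
theorem L5678 : LFK l5678 := fun D T h => lf_of_chk h (mem_cons (W4277 D T h) (mem_cons (W15905 D T h) (mem_cons (W25238 D T h) (mem_cons (W9395 D T h) (mem_cons (W5745 D T h) (mem_cons (W4289 D T h) (mem_cons (W69 D T h) (mem_cons (W1067 D T h) (mem_cons (W1 D T h) (mem_cons (W267 D T h) (mem_cons (W7212 D T h) (mem_cons (W9411 D T h) (mem_cons (W9475 D T h) (mem_cons (W370 D T h) (mem_cons (W390 D T h) (mem_cons (W13889 D T h) (mem_cons (W17531 D T h) (mem_cons (W18348 D T h) (mem_cons (W14204 D T h) mem_nil))))))))))))))))))) cl5678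
theorem W25239 : WFK w25239 := fun D T h => wf_of_chk h mem_nil (mem_cons (L5678 D T h) mem_nil) cw25239
theorem L5679 : LFK l5679 := fun D T h => lf_of_chk h (mem_cons (W3766 D T h) (mem_cons (W181 D T h) (mem_cons (W16 D T h) (mem_cons (W7212 D T h) (mem_cons (W461 D T h) (mem_cons (W3 D T h) (mem_cons (W39 D T h) (mem_cons (W42 D T h) (mem_cons (W3207 D T h) (mem_cons (W212 D T h) (mem_cons (W8723 D T h) mem_nil))))))))))) cl5679
theorem W25240 : WFK w25240 := fun D T h => wf_of_chk h mem_nil (mem_cons (L5679 D T h) mem_nil) cw25240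
theorem L5680 : LFK l5680 := fun D T h => lf_of_chk h (mem_cons (W25225 D T h) (mem_cons (W2839 D T h) (mem_cons (W267 D T h) (mem_cons (W1067 D T h) (mem_cons (W1063 D T h) (mem_cons (W7353 D T h) (mem_cons (W16 D T h) (mem_cons (W12261 D T h) (mem_cons (W25239 D T h) (mem_cons (W25240 D T h) (mem_cons (W24371 D T h) (mem_cons (W5721 D T h) (mem_cons (W9411 D T h) (mem_cons (W13522 D T h) (mem_cons (W14398 D T h) (mem_cons (W12268 D T h) (mem_cons (W24271 D T h) (mem_cons (W22850 D T h) (mem_cons (W22853 D T h) (mem_cons (W8286 D T h) (mem_cons (W25226 D T h) (mem_cons (W2015 D T h) (mem_cons (W25232 D T h) (mem_cons (W5841 D T h) (mem_cons (W6714 D T h) (mem_cons (W6613 D T h) (mem_cons (W25233 D T h) (mem_cons (W8236 D T h) (mem_cons (W2936 D T h) (mem_cons (W21992 D T h) (mem_cons (W4209 D T h) (mem_cons (W220 D T h) (mem_cons (W15825 D T h) (mem_cons (W1139 D T h) (mem_cons (W6968 D T h) (mem_cons (W16178 D T h) (mem_cons (W25231 D T h) (mem_cons (W164 D T h) (mem_cons (W6740 D T h) (mem_cons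 (W5599 D T h) (mem_cons (W5594 D T h) mem_nil))))))))))))))))))))))))))))))))))))))))) cl5680
theorem W25241 : WFK w25241 := fun D T h => wf_of_chk h mem_nil (mem_cons (L5680 D T h) mem_nil) cw25241
theorem L5681 : LFK l5681 := fun D T h => lf_of_chk h (mem_cons (W128 D T h) (mem_cons (W1064 D T h) (mem_cons (W219 D T h) (mem_cons (W15 D T h) (mem_cons (W9380 D T h) (mem_cons (W5258 D T h) (mem_cons (W13890 D T h) (mem_cons (W4038 D T h) (mem_cons (W8397 D T h) (mem_cons (W18060 D T h) (mem_cons (W1192 D T h) mem_nil))))))))))) cl5681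
theorem W25242 : WFK w25242 := fun D T h => wf_of_chk h mem_nil (mem_cons (L5681 D T h) mem_nil) cw25242
theorem L5682 : LFK l5682 := fun D T h => lf_of_chk h (mem_cons (W9025 D T h) (mem_cons (W2839 D T h) (mem_cons (W42 D T h) (mem_cons (W16 D T h) (mem_cons (W7114 D T h) (mem_cons (W16755 D T h) (mem_cons (W2037 D T h) (mem_cons (W284 D T h) (mem_cons (W15 D T h) (mem_cons (W25242 D T h) (mem_cons (W128 D T h) (mem_cons (W1139 D T h) (mem_cons (W261 D T h) (mem_cons (W5721 D T h) mem_nil)))))))))))))) cl5682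
theorem W25243 : WFK w25243 := fun D T h => wf_of_chk h mem_nil (mem_cons (L5682 D T h) mem_nil) cw25243
theorem L5683 : LFK l5683 := fun D T h => lf_of_chk h (mem_cons (W8294 D T h) (mem_cons (W16 D T h) (mem_cons (W1318 D T h) (mem_cons (W1153 D T h) (mem_cons (W1063 D T h) (mem_cons (W2839 D T h) (mem_cons (W3305 D T h) (mem_cons (W8278 D T h) (mem_cons (W1291 D T h) (mem_cons (W10822 D T h) (mem_cons (W22877 D T h) (mem_cons (W9025 D T h) (mem_cons (W8293 D T h) (mem_cons (W1139 D T h) (mem_cons (W128 D T h) (mem_cons (W7118 D T h) (mem_cons (W2159 D T h) (mem_cons (W22165 D T h) (mem_cons (W25224 D T h) (mem_cons (W25241 D T h) (mem_cons (W25243 D T h) (mem_cons (W12203 D T h) (mem_cons (W11028 D T h) (mem_cons (W14398 D T h) (mem_cons (W24271 D T h) (mem_cons (W22850 D T h) (mem_cons (W22853 D T h) (mem_cons (W25221 D T h) (mem_cons (W24371 D T h) (mem_cons (W5721 D T h) (mem_cons (W8216 D T h) (mem_cons (W25205 D T h) (mem_cons (W8217 D T h) (mem_cons (W18375 D T h) (mem_cons (W2015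 D T h) (mem_cons (W11139 D T h) (mem_cons (W25222 D T h) (mem_cons (W25223 D T h) (mem_cons (W5258 D T h) (mem_cons (W25172 D T h) (mem_cons (W5277 D T h) (mem_cons (W17572 D T h) (mem_cons (W25204 D T h) mem_nil))))))))))))))))))))))))))))))))))))))))))) cl5683
theorem W25244 : WFK w25244 := fun D T h => wf_of_chk h mem_nil (mem_cons (L5683 D T h) mem_nil) cw25244
theorem W25245 : WFK w25245 := fun D T h => wf_of_chk h mem_nil (mem_cons (L5674 D T h) mem_nil) cw25245
theorem W25246 : WFK w25246 := fun D T h => wf_of_chk h (mem_cons (W2709 D T h) (mem_cons (W177 D T h) mem_nil)) mem_nil cw25246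
theorem W25247 : WFK w25247 := fun D T h => wf_of_chk h mem_nil (mem_cons (L159 D T h) mem_nil) cw25247
theorem L5684 : LFK l5684 := fun D T h => lf_of_chk h (mem_cons (W5721 D T h) (mem_cons (W16 D T h) (mem_cons (W7212 D T h) (mem_cons (W6437 D T h) (mem_cons (W1 D T h) (mem_cons (W25247 D T h) (mem_cons (W50 D T h) (mem_cons (W230 D T h) (mem_cons (W799 D T h) (mem_cons (W2378 D T h) (mem_cons (W2520 D T h) mem_nil))))))))))) cl5684
theorem W25248 : WFK w25248 := fun D T h => wf_of_chk h mem_nil (mem_cons (L5684 D T h) mem_nil) cw25248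
theorem L5685 : LFK l5685 := fun D T h => lf_of_chk h (mem_cons (W8286 D T h) (mem_cons (W177 D T h) (mem_cons (W50 D T h) (mem_cons (W1063 D T h) (mem_cons (W16 D T h) (mem_cons (W1408 D T h) (mem_cons (W2997 D T h) (mem_cons (W9407 D T h) (mem_cons (W5721 D T h) (mem_cons (W2344 D T h) (mem_cons (W25248 D T h) (mem_cons (W5278 D T h) (mem_cons (W42 D T h) (mem_cons (W3815 D T h) (mem_cons (W3038 D T h) (mem_cons (W24286 D T h) (mem_cons (W9582 D T h) (mem_cons (W25246 D T h) (mem_cons (W5177 D T h) mem_nil))))))))))))))))))) cl5685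
theorem W25249 : WFK w25249 := fun D T h => wf_of_chk h mem_nil (mem_cons (L5685 D T h) mem_nil) cw25249
theorem W25250 : WFK w25250 := fun D T h => wf_of_chk h mem_nil (mem_cons (L5685 D T h) mem_nil) cw25250
theorem W25251 : WFK w25251 := fun D T h => wf_of_chk h mem_nil (mem_cons (L3597 D T h) mem_nil) cw25251
theorem L5686 : LFK l5686 := fun D T h => lf_of_chk h (mem_cons (W8294 D T h) (mem_cons (W16 D T h) (mem_cons (W1318 D T h) (mem_cons (W2893 D T h) (mem_cons (W1063 D T h) (mem_cons (W2839 D T h) (mem_cons (W8278 D T h) (mem_cons (W1291 D T h) (mem_cons (W25251 D T h) (mem_cons (W8290 D T h) (mem_cons (W9025 D T h) (mem_cons (W8293 D T h) (mem_cons (W284 D T h) (mem_cons (W2326 D T h) (mem_cons (W8286 D T h) (mem_cons (W8280 D T h) (mem_cons (W8279 D T h) (mem_cons (W25249 D T h) (mem_cons (W25250 D T h) (mem_cons (W12203 D T h) (mem_cons (W10979 D T h) (mem_cons (W14398 D T h) (mem_cons (W22435 D T h) (mem_cons (W22436 D T h) (mem_cons (W22422 D T h) (mem_cons (W22429 D T h) (mem_cons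 (W10681 D T h) (mem_cons (W5721 D T h) (mem_cons (W8216 D T h) (mem_cons (W8215 D T h) (mem_cons (W8217 D T h) (mem_cons (W25245 D T h) (mem_cons (W7429 D T h) (mem_cons (W2015 D T h) (mem_cons (W11139 D T h) (mem_cons (W8256 D T h) (mem_cons (W5258 D T h) (mem_cons (W8181 D T h) (mem_cons (W5277 D T h) (mem_cons (W8183 D T h) (mem_cons (W128 D T h) mem_nil))))))))))))))))))))))))))))))))))))))))) cl5686
theorem W25252 : WFK w25252 := fun D T h => wf_of_chk h mem_nil (mem_cons (L5686 D T h) mem_nil) cw25252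
theorem W25253 : WFK w25253 := fun D T h => wf_of_chk h (mem_cons (W1070 D T h) (mem_cons (W37 D T h) mem_nil)) mem_nil cw25253
theorem L5687 : LFK l5687 := fun D T h => lf_of_chk h (mem_cons (W12020 D T h) (mem_cons (W1033 D T h) (mem_cons (W1258 D T h) (mem_cons (W2764 D T h) (mem_cons (W1262 D T h) (mem_cons (W1718 D T h) mem_nil)))))) cl5687
theorem W25254 : WFK w25254 := fun D T h => wf_of_chk h mem_nil (mem_cons (L5687 D T h) mem_nil) cw25254
theorem L5688 : LFK l5688 := fun D T h => lf_of_chk h (mem_cons (W15810 D T h) (mem_cons (W50 D T h) (mem_cons (W177 D T h) (mem_cons (W1255 D T h) (mem_cons (W1256 D T h) (mem_cons (W1274 D T h) (mem_cons (W772 D T h) (mem_cons (W42 D T h) (mem_cons (W1270 D T h) (mem_cons (W716 D T h) (mem_cons (W22984 D T h) (mem_cons (W25254 D T h) (mem_cons (W1265 D T h) (mem_cons (W1264 D T h) (mem_cons (W962 D T h) (mem_cons (W1266 D T h) mem_nil)))))))))))))))) cl5688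
theorem W25255 : WFK w25255 := fun D T h => wf_of_chk h mem_nil (mem_cons (L5688 D T h) mem_nil) cw25255
theorem W25256 : WFK w25256 := fun D T h => wf_of_chk h (mem_cons (W3278 D T h) (mem_cons (W37 D T h) mem_nil)) mem_nil cw25256
theorem W25257 : WFK w25257 := fun D T h => wf_of_chk h (mem_cons (W1319 D T h) (mem_cons (W37 D T h) mem_nil)) mem_nil cw25257
theorem W25258 : WFK w25258 := fun D T h => wf_of_chk h (mem_cons (W3280 D T h) (mem_cons (W37 D T h) mem_nil)) mem_nil cw25258
theorem W25259 : WFK w25259 := fun D T h => wf_of_chk h mem_nil (mem_cons (L1937 D T h) mem_nil) cw25259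
theorem W25260 : WFK w25260 := fun D T h => wf_of_chk h (mem_cons (W2027 D T h) (mem_cons (W368 D T h) mem_nil)) mem_nil cw25260
theorem W25261 : WFK w25261 := fun D T h => wf_of_chk h (mem_cons (W284 D T h) (mem_cons (W368 D T h) mem_nil)) mem_nil cw25261
theorem W25262 : WFK w25262 := fun D T h => wf_of_chk h mem_nil (mem_cons (L3088 D T h) mem_nil) cw25262
theorem W25263 : WFK w25263 := fun D T h => wf_of_chk h (mem_cons (W3199 D T h) (mem_cons (W37 D T h) mem_nil)) mem_nil cw25263
theorem W25264 : WFK w25264 := fun D T h => wf_of_chk h mem_nil (mem_cons (L1090 D T h) mem_nil) cw25264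
theorem L5689 : LFK l5689 := fun D T h => lf_of_chk h (mem_cons (W18845 D T h) (mem_cons (W281 D T h) (mem_cons (W3766 D T h) (mem_cons (W903 D T h) (mem_cons (W4905 D T h) (mem_cons (W4906 D T h) (mem_cons (W32 D T h) (mem_cons (W4884 D T h) (mem_cons (W1283 D T h) (mem_cons (W4902 D T h) (mem_cons (W851 D T h) (mem_cons (W4894 D T h) (mem_cons (W14514 D T h) (mem_cons (W25264 D T h) (mem_cons (W4189 D T h) (mem_cons (W861 D T h) (mem_cons (W864 D T h) (mem_cons (W4890 D T h) (mem_cons (W4891 D T h) (mem_cons (W14502 D T h) (mem_cons (W14513 D T h) mem_nil))))))))))))))))))))) cl5689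
theorem W25265 : WFK w25265 := fun D T h => wf_of_chk h mem_nil (mem_cons (L5689 D T h) mem_nil) cw25265
theorem W25266 : WFK w25266 := fun D T h => wf_of_chk h (mem_cons (W1299 D T h) mem_nil) mem_nil cw25266
theorem W25267 : WFK w25267 := fun D T h => wf_of_chk h mem_nil (mem_cons (L165 D T h) mem_nil) cw25267
theorem W25268 : WFK w25268 := fun D T h => wf_of_chk h mem_nil (mem_cons (L5601 D T h) mem_nil) cw25268
theorem L5690 : LFK l5690 := fun D T h => lf_of_chk h (mem_cons (W15786 D T h) (mem_cons (W69 D T h) (mem_cons (W807 D T h) (mem_cons (W895 D T h) (mem_cons (W25267 D T h) (mem_cons (W1170 D T h) (mem_cons (W1204 D T h) (mem_cons (W25268 D T h) (mem_cons (W17153 D T h) mem_nil))))))))) cl5690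
theorem W25269 : WFK w25269 := fun D T h => wf_of_chk h mem_nil (mem_cons (L5690 D T h) mem_nil) cw25269
theorem W25270 : WFK w25270 := fun D T h => wf_of_chk h mem_nil (mem_cons (L5690 D T h) mem_nil) cw25270
theorem W25271 : WFK w25271 := fun D T h => wf_of_chk h (mem_cons (W711 D T h) mem_nil) mem_nil cw25271
theorem W25272 : WFK w25272 := fun D T h => wf_of_chk h (mem_cons (W162 D T h) mem_nil) mem_nil cw25272
theorem L5691 : LFK l5691 := fun D T h => lf_of_chk h (mem_cons (W4905 D T h) (mem_cons (W3766 D T h) (mem_cons (W2 D T h) (mem_cons (W37 D T h) (mem_cons (W1475 D T h) (mem_cons (W25269 D T h) (mem_cons (W5841 D T h) (mem_cons (W6714 D T h) (mem_cons (W6613 D T h) (mem_cons (W21260 D T h) (mem_cons (W2936 D T h) (mem_cons (W9025 D T h) (mem_cons (W25272 D T h) (mem_cons (W25270 D T h) (mem_cons (W6552 D T h) (mem_cons (W21446 D T h) (mem_cons (W25271 D T h) (mem_cons (W2714 D T h) (mem_cons (W898 D T h) (mem_cons (W8218 D T h) (mem_cons (W4932 D T h) (mem_cons (W896 D T h) (mem_cons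 (W14511 D T h) (mem_cons (W14512 D T h) (mem_cons (W25266 D T h) (mem_cons (W61 D T h) mem_nil)))))))))))))))))))))))))) cl5691
theorem W25273 : WFK w25273 := fun D T h => wf_of_chk h mem_nil (mem_cons (L5691 D T h) mem_nil) cw25273
theorem W25274 : WFK w25274 := fun D T h => wf_of_chk h (mem_cons (W808 D T h) (mem_cons (W37 D T h) mem_nil)) mem_nil cw25274
theorem W25275 : WFK w25275 := fun D T h => wf_of_chk h mem_nil (mem_cons (L172 D T h) mem_nil) cw25275
theorem W25276 : WFK w25276 := fun D T h => wf_of_chk h mem_nil (mem_cons (L1093 D T h) mem_nil) cw25276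
theorem W25277 : WFK w25277 := fun D T h => wf_of_chk h mem_nil (mem_cons (L5689 D T h) mem_nil) cw25277
theorem W25278 : WFK w25278 := fun D T h => wf_of_chk h mem_nil (mem_cons (L1091 D T h) mem_nil) cw25278
theorem W25279 : WFK w25279 := fun D T h => wf_of_chk h (mem_cons (W16 D T h) mem_nil) mem_nil cw25279
theorem L5692 : LFK l5692 := fun D T h => lf_of_chk h (mem_cons (W15810 D T h) (mem_cons (W50 D T h) (mem_cons (W32 D T h) (mem_cons (W177 D T h) (mem_cons (W4232 D T h) (mem_cons (W4233 D T h) (mem_cons (W4244 D T h) (mem_cons (W5016 D T h) (mem_cons (W42 D T h) (mem_cons (W4242 D T h) (mem_cons (W6552 D T h) (mem_cons (W22984 D T h) (mem_cons (W4234 D T h) (mem_cons (W4908 D T h) (mem_cons (W4237 D T h) (mem_cons (W4982 D T h) (mem_cons (W4984 D T h) mem_nil))))))))))))))))) cl5692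
theorem W25280 : WFK w25280 := fun D T h => wf_of_chk h mem_nil (mem_cons (L5692 D T h) mem_nil) cw25280
theorem W25281 : WFK w25281 := fun D T h => wf_of_chk h mem_nil (mem_cons (L5692 D T h) mem_nil) cw25281
theorem W25282 : WFK w25282 := fun D T h => wf_of_chk h (mem_cons (W15099 D T h) (mem_cons (W16 D T h) mem_nil)) mem_nil cw25282
theorem W25283 : WFK w25283 := fun D T h => wf_of_chk h (mem_cons (W2844 D T h) mem_nil) mem_nil cw25283
theorem W25284 : WFK w25284 := fun D T h => wf_of_chk h mem_nil (mem_cons (L3233 D T h) mem_nil) cw25284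
theorem W25285 : WFK w25285 := fun D T h => wf_of_chk h (mem_cons (W267 D T h) mem_nil) mem_nil cw25285
theorem L5693 : LFK l5693 := fun D T h => lf_of_chk h (mem_cons (W25278 D T h) (mem_cons (W22001 D T h) (mem_cons (W18831 D T h) (mem_cons (W19585 D T h) (mem_cons (W794 D T h) (mem_cons (W32 D T h) (mem_cons (W4887 D T h) (mem_cons (W16 D T h) (mem_cons (W11212 D T h) (mem_cons (W15147 D T h) (mem_cons (W25285 D T h) (mem_cons (W8153 D T h) (mem_cons (W12634 D T h) (mem_cons (W2967 D T h) (mem_cons (W12203 D T h) (mem_cons (W2936 D T h) (mem_cons (W22196 D T h) (mem_cons (W2051 D T h) (mem_cons (W16111 D T h) (mem_cons (W22263 D T h) (mem_cons (W7578 D T h) (mem_cons (W9701 D T h) (mem_cons (W18060 D T h) (mem_cons (W9411 D T h) (mem_cons (W25282 D T h) (mem_cons (W9412 D T h) (mem_cons (W11111 D T h) (mem_cons (W25283 D T h) (mem_cons (W22084 D T h) (mem_cons (W25284 D T h) mem_nil)))))))))))))))))))))))))))))) cl5693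
theorem W25286 : WFK w25286 := fun D T h => wf_of_chk h mem_nil (mem_cons (L5693 D T h) mem_nil) cw25286
theorem W25287 : WFK w25287 := fun D T h => wf_of_chk h (mem_cons (W164 D T h) mem_nil) mem_nil cw25287
theorem W25288 : WFK w25288 := fun D T h => wf_of_chk h (mem_cons (W861 D T h) (mem_cons (W16 D T h) mem_nil)) mem_nil cw25288
theorem W25289 : WFK w25289 := fun D T h => wf_of_chk h (mem_cons (W3961 D T h) mem_nil) mem_nil cw25289
theorem W25290 : WFK w25290 := fun D T h => wf_of_chk h mem_nil (mem_cons (L943 D T h) mem_nil) cw25290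
theorem W25291 : WFK w25291 := fun D T h => wf_of_chk h (mem_cons (W3006 D T h) mem_nil) mem_nil cw25291
theorem L5694 : LFK l5694 := fun D T h => lf_of_chk h (mem_cons (W25278 D T h) (mem_cons (W22001 D T h) (mem_cons (W16005 D T h) (mem_cons (W67 D T h) (mem_cons (W11040 D T h) (mem_cons (W337 D T h) (mem_cons (W32 D T h) (mem_cons (W16 D T h) (mem_cons (W8025 D T h) (mem_cons (W15147 D T h) (mem_cons (W2405 D T h) (mem_cons (W25290 D T h) (mem_cons (W4904 D T h) (mem_cons (W2037 D T h) (mem_cons (W25287 D T h) (mem_cons (W13596 D T h) (mem_cons (W11212 D T h) (mem_cons (W25291 D T h) (mem_cons (W14502 D T h) (mem_cons (W18060 D T h) (mem_cons (W25288 D T h) (mem_cons (W6969 D T h) (mem_cons (W11111 D T h) (mem_cons (W25289 D T h) (mem_cons (W7557 D T h) mem_nil))))))))))))))))))))))))) cl5694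
theorem W25292 : WFK w25292 := fun D T h => wf_of_chk h mem_nil (mem_cons (L5694 D T h) mem_nil) cw25292
theorem W25293 : WFK w25293 := fun D T h => wf_of_chk h (mem_cons (W284 D T h) mem_nil) mem_nil cw25293
theorem W25294 : WFK w25294 := fun D T h => wf_of_chk h mem_nil (mem_cons (L1088 D T h) mem_nil) cw25294
theorem W25295 : WFK w25295 := fun D T h => wf_of_chk h (mem_cons (W2726 D T h) mem_nil) mem_nil cw25295
theorem W25296 : WFK w25296 := fun D T h => wf_of_chk h mem_nil (mem_cons (L1089 D T h) mem_nil) cw25296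
theorem W25297 : WFK w25297 := fun D T h => wf_of_chk h (mem_cons (W370 D T h) mem_nil) mem_nil cw25297
theorem W25298 : WFK w25298 := fun D T h => wf_of_chk h mem_nil (mem_cons (L943 D T h) mem_nil) cw25298
theorem W25299 : WFK w25299 := fun D T h => wf_of_chk h mem_nil (mem_cons (L942 D T h) mem_nil) cw25299
theorem W25300 : WFK w25300 := fun D T h => wf_of_chk h (mem_cons (W162 D T h) mem_nil) mem_nil cw25300
theorem L5695 : LFK l5695 := fun D T h => lf_of_chk h (mem_cons (W14514 D T h) (mem_cons (W2766 D T h) (mem_cons (W38 D T h) (mem_cons (W903 D T h) (mem_cons (W25272 D T h) (mem_cons (W25300 D T h) (mem_cons (W32 D T h) (mem_cons (W4884 D T h) (mem_cons (W1283 D T h) (mem_cons (W4902 D T h) (mem_cons (W851 D T h) (mem_cons (W4894 D T h) (mem_cons (W25297 D T h) (mem_cons (W2359 D T h) (mem_cons (W8397 D T h) (mem_cons (W25298 D T h) (mem_cons (W25299 D T h) (mem_cons (W25075 D T h) (mem_cons (W4189 D T h) (mem_cons (W861 D T h) (mem_cons (W10266 D T h) (mem_cons (W25294 D T h) (mem_cons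 (W25295 D T h) (mem_cons (W14502 D T h) (mem_cons (W14513 D T h) (mem_cons (W25296 D T h) mem_nil)))))))))))))))))))))))))) cl5695
theorem W25301 : WFK w25301 := fun D T h => wf_of_chk h mem_nil (mem_cons (L5695 D T h) mem_nil) cw25301
theorem W25302 : WFK w25302 := fun D T h => wf_of_chk h (mem_cons (W373 D T h) mem_nil) mem_nil cw25302
theorem W25303 : WFK w25303 := fun D T h => wf_of_chk h (mem_cons (W1227 D T h) mem_nil) mem_nil cw25303
theorem W25304 : WFK w25304 := fun D T h => wf_of_chk h (mem_cons (W1227 D T h) mem_nil) mem_nil cw25304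
theorem L5696 : LFK l5696 := fun D T h => lf_of_chk h (mem_cons (W5016 D T h) (mem_cons (W7212 D T h) (mem_cons (W3160 D T h) (mem_cons (W67 D T h) (mem_cons (W25303 D T h) (mem_cons (W25304 D T h) (mem_cons (W1226 D T h) (mem_cons (W32 D T h) (mem_cons (W495 D T h) (mem_cons (W497 D T h) (mem_cons (W4232 D T h) (mem_cons (W4233 D T h) (mem_cons (W1362 D T h) (mem_cons (W4244 D T h) (mem_cons (W164 D T h) (mem_cons (W4242 D T h) (mem_cons (W42 D T h) (mem_cons (W581 D T h) (mem_cons (W1326 D T h) (mem_cons (W851 D T h) (mem_cons (W25302 D T h) (mem_cons (W4234 D T h) (mem_cons (W1723 D T h) (mem_cons (W4908 D T h) (mem_cons (W4237 D T h) (mem_cons (W4982 D T h) (mem_cons (W4984 D T h) mem_nil))))))))))))))))))))))))))) cl5696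
theorem W25305 : WFK w25305 := fun D T h => wf_of_chk h mem_nil (mem_cons (L5696 D T h) mem_nil) cw25305
theorem W25306 : WFK w25306 := fun D T h => wf_of_chk h mem_nil (mem_cons (L1101 D T h) mem_nil) cw25306
theorem W25307 : WFK w25307 := fun D T h => wf_of_chk h (mem_cons (W382 D T h) mem_nil) mem_nil cw25307
theorem W25308 : WFK w25308 := fun D T h => wf_of_chk h (mem_cons (W1226 D T h) mem_nil) mem_nil cw25308
theorem W25309 : WFK w25309 := fun D T h => wf_of_chk h (mem_cons (W1227 D T h) mem_nil) mem_nil cw25309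
theorem W25310 : WFK w25310 := fun D T h => wf_of_chk h (mem_cons (W1226 D T h) mem_nil) mem_nil cw25310
theorem L5697 : LFK l5697 := fun D T h => lf_of_chk h (mem_cons (W5016 D T h) (mem_cons (W7212 D T h) (mem_cons (W3163 D T h) (mem_cons (W67 D T h) (mem_cons (W25308 D T h) (mem_cons (W25309 D T h) (mem_cons (W25310 D T h) (mem_cons (W1227 D T h) (mem_cons (W32 D T h) (mem_cons (W497 D T h) (mem_cons (W495 D T h) (mem_cons (W4232 D T h) (mem_cons (W4233 D T h) (mem_cons (W164 D T h) (mem_cons (W4244 D T h) (mem_cons (W1362 D T h) (mem_cons (W42 D T h) (mem_cons (W4242 D T h) (mem_cons (W1326 D T h) (mem_cons (W581 D T h) (mem_cons (W851 D T h) (mem_cons (W25307 D T h) (mem_cons (W4234 D T h) (mem_cons (W1723 D T h) (mem_cons (W4908 D T h) (mem_cons (W4237 D T h) (mem_cons (W4982 D T h) (mem_cons (W4984 D T h) mem_nil)))))))))))))))))))))))))))) cl5697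
theorem W25311 : WFK w25311 := fun D T h => wf_of_chk h mem_nil (mem_cons (L5697 D T h) mem_nil) cw25311
theorem L5698 : LFK l5698 := fun D T h => lf_of_chk h (mem_cons (W25265 D T h) (mem_cons (W2323 D T h) (mem_cons (W1254 D T h) (mem_cons (W67 D T h) (mem_cons (W25273 D T h) (mem_cons (W25274 D T h) (mem_cons (W804 D T h) (mem_cons (W32 D T h) (mem_cons (W808 D T h) (mem_cons (W37 D T h) (mem_cons (W25279 D T h) (mem_cons (W4878 D T h) (mem_cons (W12740 D T h) (mem_cons (W25286 D T h) (mem_cons (W25292 D T h) (mem_cons (W25293 D T h) (mem_cons (W9025 D T h) (mem_cons (W25301 D T h) (mem_cons (W25305 D T h) (mem_cons (W25306 D T h) (mem_cons (W18192 D T h) (mem_cons (W25311 D T h) (mem_cons (W15810 D T h) (mem_cons (W8977 D T h) (mem_cons (W25280 D T h) (mem_cons (W25281 D T h) (mem_cons (W18845 D T h) (mem_cons (W8025 D T h) (mem_cons (W25275 D T h) (mem_cons (W2319 D T h) (mem_cons (W25276 D T h) (mem_cons (W25277 D T h) (mem_cons (W25278 D T h) (mem_cons (W13644 D T h) mem_nil))))))))))))))))))))))))))))))))))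 cl5698
theorem W25312 : WFK w25312 := fun D T h => wf_of_chk h mem_nil (mem_cons (L5698 D T h) mem_nil) cw25312
theorem L5699 : LFK l5699 := fun D T h => lf_of_chk h (mem_cons (W7212 D T h) (mem_cons (W177 D T h) (mem_cons (W1254 D T h) (mem_cons (W4276 D T h) (mem_cons (W5745 D T h) (mem_cons (W4289 D T h) (mem_cons (W69 D T h) (mem_cons (W4277 D T h) (mem_cons (W804 D T h) (mem_cons (W1 D T h) (mem_cons (W368 D T h) (mem_cons (W3766 D T h) (mem_cons (W14014 D T h) (mem_cons (W25027 D T h) (mem_cons (W8755 D T h) (mem_cons (W2575 D T h) (mem_cons (W18348 D T h) (mem_cons (W23945 D T h) mem_nil)))))))))))))))))) cl5699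
theorem W25313 : WFK w25313 := fun D T h => wf_of_chk h mem_nil (mem_cons (L5699 D T h) mem_nil) cw25313
theorem L5700 : LFK l5700 := fun D T h => lf_of_chk h (mem_cons (W12020 D T h) (mem_cons (W1033 D T h) (mem_cons (W1718 D T h) (mem_cons (W696 D T h) (mem_cons (W2764 D T h) (mem_cons (W2772 D T h) mem_nil)))))) cl5700
theorem W25314 : WFK w25314 := fun D T h => wf_of_chk h mem_nil (mem_cons (L5700 D T h) mem_nil) cw25314
theorem W25315 : WFK w25315 := fun D T h => wf_of_chk h mem_nil (mem_cons (L1620 D T h) mem_nil) cw25315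
theorem W25316 : WFK w25316 := fun D T h => wf_of_chk h (mem_cons (W1125 D T h) (mem_cons (W177 D T h) mem_nil)) mem_nil cw25316
theorem L5701 : LFK l5701 := fun D T h => lf_of_chk h (mem_cons (W2359 D T h) (mem_cons (W1616 D T h) (mem_cons (W111 D T h) (mem_cons (W3 D T h) (mem_cons (W652 D T h) (mem_cons (W5647 D T h) (mem_cons (W2357 D T h) (mem_cons (W3144 D T h) (mem_cons (W5821 D T h) (mem_cons (W5646 D T h) (mem_cons (W256 D T h) (mem_cons (W258 D T h) (mem_cons (W5645 D T h) (mem_cons (W3142 D T h) (mem_cons (W281 D T h) (mem_cons (W3148 D T h) (mem_cons (W390 D T h) (mem_cons (W265 D T h) (mem_cons (W5399 D T h) mem_nil))))))))))))))))))) cl5701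
theorem W25317 : WFK w25317 := fun D T h => wf_of_chk h mem_nil (mem_cons (L5701 D T h) mem_nil) cw25317
theorem L5702 : LFK l5702 := fun D T h => lf_of_chk h (mem_cons (W7212 D T h) (mem_cons (W17 D T h) (mem_cons (W3160 D T h) (mem_cons (W3441 D T h) (mem_cons (W2307 D T h) (mem_cons (W6421 D T h) (mem_cons (W618 D T h) (mem_cons (W1226 D T h) (mem_cons (W1 D T h) (mem_cons (W69 D T h) (mem_cons (W3 D T h) (mem_cons (W2118 D T h) (mem_cons (W2119 D T h) (mem_cons (W24229 D T h) (mem_cons (W22814 D T h) (mem_cons (W2305 D T h) mem_nil)))))))))))))))) cl5702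
theorem W25318 : WFK w25318 := fun D T h => wf_of_chk h mem_nil (mem_cons (L5702 D T h) mem_nil) cw25318
theorem L5703 : LFK l5703 := fun D T h => lf_of_chk h (mem_cons (W2309 D T h) (mem_cons (W17 D T h) (mem_cons (W3163 D T h) (mem_cons (W3441 D T h) (mem_cons (W2307 D T h) (mem_cons (W6421 D T h) (mem_cons (W618 D T h) (mem_cons (W1227 D T h) (mem_cons (W1 D T h) (mem_cons (W69 D T h) (mem_cons (W3 D T h) (mem_cons (W2118 D T h) (mem_cons (W2119 D T h) (mem_cons (W24229 D T h) (mem_cons (W22814 D T h) (mem_cons (W2305 D T h) mem_nil)))))))))))))))) cl5703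
theorem W25319 : WFK w25319 := fun D T h => wf_of_chk h mem_nil (mem_cons (L5703 D T h) mem_nil) cw25319
theorem L5704 : LFK l5704 := fun D T h => lf_of_chk h (mem_cons (W7212 D T h) (mem_cons (W17 D T h) (mem_cons (W3166 D T h) (mem_cons (W3441 D T h) (mem_cons (W2307 D T h) (mem_cons (W6421 D T h) (mem_cons (W618 D T h) (mem_cons (W50 D T h) (mem_cons (W1 D T h) (mem_cons (W69 D T h) (mem_cons (W3 D T h) (mem_cons (W2118 D T h) (mem_cons (W2119 D T h) (mem_cons (W24229 D T h) (mem_cons (W22814 D T h) (mem_cons (W2305 D T h) mem_nil)))))))))))))))) cl5704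
theorem W25320 : WFK w25320 := fun D T h => wf_of_chk h mem_nil (mem_cons (L5704 D T h) mem_nil) cw25320
theorem L5705 : LFK l5705 := fun D T h => lf_of_chk h (mem_cons (W15810 D T h) (mem_cons (W177 D T h) (mem_cons (W50 D T h) (mem_cons (W368 D T h) (mem_cons (W716 D T h) (mem_cons (W4775 D T h) (mem_cons (W25314 D T h) (mem_cons (W25315 D T h) (mem_cons (W2331 D T h) (mem_cons (W10784 D T h) (mem_cons (W25316 D T h) (mem_cons (W3131 D T h) (mem_cons (W3132 D T h) (mem_cons (W5612 D T h) (mem_cons (W5222 D T h) (mem_cons (W1408 D T h) (mem_cons (W1502 D T h) (mem_cons (W17266 D T h) (mem_cons (W7041 D T h) (mem_cons (W25320 D T h) (mem_cons (W3766 D T h) (mem_cons (W22427 D T h) (mem_cons (W25317 D T h) (mem_cons (W25318 D T h) (mem_cons (W3159 D T h) (mem_cons (W11995 D T h) (mem_cons (W25319 D T h) mem_nil))))))))))))))))))))))))))) cl5705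
theorem W25321 : WFK w25321 := fun D T h => wf_of_chk h mem_nil (mem_cons (L5705 D T h) mem_nil) cw25321
theorem W25322 : WFK w25322 := fun D T h => wf_of_chk h mem_nil (mem_cons (L5705 D T h) mem_nil) cw25322
theorem W25323 : WFK w25323 := fun D T h => wf_of_chk h mem_nil (mem_cons (L3088 D T h) mem_nil) cw25323
theorem W25324 : WFK w25324 := fun D T h => wf_of_chk h (mem_cons (W284 D T h) (mem_cons (W368 D T h) mem_nil)) mem_nil cw25324
theorem W25325 : WFK w25325 := fun D T h => wf_of_chk h (mem_cons (W1211 D T h) (mem_cons (W368 D T h) mem_nil)) mem_nil cw25325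
theorem W25326 : WFK w25326 := fun D T h => wf_of_chk h (mem_cons (W1153 D T h) (mem_cons (W368 D T h) mem_nil)) mem_nil cw25326
theorem W25327 : WFK w25327 := fun D T h => wf_of_chk h (mem_cons (W1153 D T h) (mem_cons (W368 D T h) mem_nil)) mem_nil cw25327
theorem W25328 : WFK w25328 := fun D T h => wf_of_chk h (mem_cons (W2042 D T h) (mem_cons (W368 D T h) mem_nil)) mem_nil cw25328
theorem W25329 : WFK w25329 := fun D T h => wf_of_chk h (mem_cons (W1291 D T h) (mem_cons (W1065 D T h) mem_nil)) mem_nil cw25329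
theorem L5706 : LFK l5706 := fun D T h => lf_of_chk h (mem_cons (W18379 D T h) (mem_cons (W2059 D T h) (mem_cons (W10403 D T h) (mem_cons (W804 D T h) (mem_cons (W368 D T h) (mem_cons (W37 D T h) (mem_cons (W12820 D T h) (mem_cons (W3127 D T h) (mem_cons (W10361 D T h) (mem_cons (W11848 D T h) (mem_cons (W25323 D T h) (mem_cons (W25324 D T h) (mem_cons (W8977 D T h) (mem_cons (W25329 D T h) (mem_cons (W9025 D T h) (mem_cons (W25325 D T h) (mem_cons (W25326 D T h) (mem_cons (W25327 D T h) (mem_cons (W18192 D T h) (mem_cons (W25328 D T h) (mem_cons (W15810 D T h) (mem_cons (W25321 D T h) (mem_cons (W25322 D T h) (mem_cons (W10253 D T h) (mem_cons (W13539 D T h) (mem_cons (W25259 D T h) (mem_cons (W2319 D T h) (mem_cons (W25260 D T h) (mem_cons (W8258 D T h) (mem_cons (W25261 D T h) (mem_cons (W25262 D T h) (mem_cons (W25263 D T h) (mem_cons (W18378 D T h) (mem_cons (W7212 D T h) (mem_cons (W34 D T h) (mem_cons (W25312 D T h) (mem_cons (W25313 D T h) (mem_cons (W25253 D T h) (mem_cons (W25255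 D T h) (mem_cons (W25256 D T h) (mem_cons (W25257 D T h) (mem_cons (W4209 D T h) (mem_cons (W25258 D T h) mem_nil))))))))))))))))))))))))))))))))))))))))))) cl5706
theorem W25330 : WFK w25330 := fun D T h => wf_of_chk h mem_nil (mem_cons (L5706 D T h) mem_nil) cw25330
theorem W25388 : WFK w25388 := fun D T h => wf_of_chk h mem_nil mem_nil cw25388
theorem W25500 : WFK w25500 := fun D T h => wf_of_chk h mem_nil (mem_cons (L4592 D T h) mem_nil) cw25500
theorem W25648 : WFK w25648 := fun D T h => wf_of_chk h mem_nil (mem_cons (L494 D T h) mem_nil) cw25648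
theorem W25790 : WFK w25790 := fun D T h => wf_of_chk h mem_nil (mem_cons (L5170 D T h) mem_nil) cw25790
theorem W25872 : WFK w25872 := fun D T h => wf_of_chk h mem_nil (mem_cons (L4523 D T h) mem_nil) cw25872
theorem L5852 : LFK l5852 := fun D T h => lf_of_chk h (mem_cons (W24 D T h) (mem_cons (W15784 D T h) (mem_cons (W220 D T h) (mem_cons (W15 D T h) (mem_cons (W17 D T h) (mem_cons (W4555 D T h) (mem_cons (W8692 D T h) (mem_cons (W4683 D T h) (mem_cons (W1397 D T h) mem_nil))))))))) cl5852
theorem W26019 : WFK w26019 := fun D T h => wf_of_chk h mem_nil (mem_cons (L5852 D T h) mem_nil) cw26019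
theorem W26113 : WFK w26113 := fun D T h => wf_of_chk h mem_nil (mem_cons (L4288 D T h) mem_nil) cw26113
theorem W26256 : WFK w26256 := fun D T h => wf_of_chk h (mem_cons (W16 D T h) (mem_cons (W220 D T h) mem_nil)) mem_nil cw26256
theorem W26264 : WFK w26264 := fun D T h => wf_of_chk h mem_nil (mem_cons (L4999 D T h) mem_nil) cw26264
theorem L5893 : LFK l5893 := fun D T h => lf_of_chk h (mem_cons (W15784 D T h) (mem_cons (W6797 D T h) (mem_cons (W1805 D T h) (mem_cons (W3298 D T h) (mem_cons (W864 D T h) (mem_cons (W149 D T h) (mem_cons (W15786 D T h) (mem_cons (W16604 D T h) (mem_cons (W16972 D T h) (mem_cons (W14750 D T h) (mem_cons (W14815 D T h) (mem_cons (W17086 D T h) (mem_cons (W26113 D T h) (mem_cons (W25500 D T h) mem_nil)))))))))))))) cl5893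
theorem W26268 : WFK w26268 := fun D T h => wf_of_chk h mem_nil (mem_cons (L5893 D T h) mem_nil) cw26268
theorem W26430 : WFK w26430 := fun D T h => wf_of_chk h mem_nil (mem_cons (L2005 D T h) mem_nil) cw26430
theorem L5908 : LFK l5908 := fun D T h => lf_of_chk h (mem_cons (W15810 D T h) (mem_cons (W177 D T h) (mem_cons (W50 D T h) (mem_cons (W37 D T h) (mem_cons (W3766 D T h) (mem_cons (W22427 D T h) (mem_cons (W24974 D T h) (mem_cons (W8948 D T h) (mem_cons (W10784 D T h) (mem_cons (W11995 D T h) (mem_cons (W2059 D T h) (mem_cons (W8608 D T h) mem_nil)))))))))))) cl5908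
theorem W26431 : WFK w26431 := fun D T h => wf_of_chk h mem_nil (mem_cons (L5908 D T h) mem_nil) cw26431
theorem W26432 : WFK w26432 := fun D T h => wf_of_chk h (mem_cons (W8595 D T h) (mem_cons (W804 D T h) mem_nil)) mem_nil cw26432
theorem W26433 : WFK w26433 := fun D T h => wf_of_chk h (mem_cons (W22586 D T h) (mem_cons (W37 D T h) mem_nil)) mem_nil cw26433
theorem W26434 : WFK w26434 := fun D T h => wf_of_chk h mem_nil (mem_cons (L5306 D T h) mem_nil) cw26434
theorem W26435 : WFK w26435 := fun D T h => wf_of_chk h mem_nil (mem_cons (L2504 D T h) mem_nil) cw26435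
theorem L5909 : LFK l5909 := fun D T h => lf_of_chk h (mem_cons (W2319 D T h) (mem_cons (W2318 D T h) (mem_cons (W42 D T h) (mem_cons (W10772 D T h) (mem_cons (W3035 D T h) (mem_cons (W2 D T h) (mem_cons (W37 D T h) (mem_cons (W23617 D T h) (mem_cons (W6613 D T h) (mem_cons (W8236 D T h) (mem_cons (W2936 D T h) (mem_cons (W8783 D T h) (mem_cons (W9025 D T h) (mem_cons (W25077 D T h) (mem_cons (W26434 D T h) (mem_cons (W6552 D T h) (mem_cons (W8232 D T h) (mem_cons (W26435 D T h) (mem_cons (W8235 D T h) (mem_cons (W10767 D T h) (mem_cons (W2714 D T h) (mem_cons (W9706 D T h) (mem_cons (W220 D T h) (mem_cons (W8218 D T h) (mem_cons (W6968 D T h) (mem_cons (W1139 D T h) (mem_cons (W7232 D T h) (mem_cons (W10940 D T h) (mem_cons (W3766 D T h) (mem_cons (W114 D T h) mem_nil)))))))))))))))))))))))))))))) cl5909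
theorem W26436 : WFK w26436 := fun D T h => wf_of_chk h mem_nil (mem_cons (L5909 D T h) mem_nil) cw26436
theorem W26437 : WFK w26437 := fun D T h => wf_of_chk h mem_nil (mem_cons (L1864 D T h) mem_nil) cw26437
theorem W26438 : WFK w26438 := fun D T h => wf_of_chk h (mem_cons (W22829 D T h) (mem_cons (W37 D T h) mem_nil)) mem_nil cw26438
theorem W26439 : WFK w26439 := fun D T h => wf_of_chk h (mem_cons (W12217 D T h) (mem_cons (W16 D T h) mem_nil)) mem_nil cw26439
theorem W26440 : WFK w26440 := fun D T h => wf_of_chk h mem_nil (mem_cons (L2504 D T h) mem_nil) cw26440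
theorem L5910 : LFK l5910 := fun D T h => lf_of_chk h (mem_cons (W128 D T h) (mem_cons (W1064 D T h) (mem_cons (W5157 D T h) (mem_cons (W15 D T h) (mem_cons (W7188 D T h) (mem_cons (W5258 D T h) (mem_cons (W581 D T h) (mem_cons (W4038 D T h) (mem_cons (W8397 D T h) (mem_cons (W18059 D T h) (mem_cons (W1192 D T h) mem_nil))))))))))) cl5910
theorem W26441 : WFK w26441 := fun D T h => wf_of_chk h mem_nil (mem_cons (L5910 D T h) mem_nil) cw26441
theorem L5911 : LFK l5911 := fun D T h => lf_of_chk h (mem_cons (W7212 D T h) (mem_cons (W22586 D T h) (mem_cons (W1 D T h) (mem_cons (W368 D T h) (mem_cons (W69 D T h) (mem_cons (W5606 D T h) (mem_cons (W25027 D T h) (mem_cons (W14014 D T h) (mem_cons (W391 D T h) (mem_cons (W25790 D T h) (mem_cons (W18348 D T h) (mem_cons (W2575 D T h) (mem_cons (W23945 D T h) (mem_cons (W5177 D T h) (mem_cons (W26441 D T h) (mem_cons (W9395 D T h) (mem_cons (W5745 D T h) (mem_cons (W4277 D T h) mem_nil)))))))))))))))))) cl5911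
theorem W26442 : WFK w26442 := fun D T h => wf_of_chk h mem_nil (mem_cons (L5911 D T h) mem_nil) cw26442
theorem L5912 : LFK l5912 := fun D T h => lf_of_chk h (mem_cons (W2997 D T h) (mem_cons (W177 D T h) (mem_cons (W50 D T h) (mem_cons (W17562 D T h) (mem_cons (W15810 D T h) (mem_cons (W42 D T h) (mem_cons (W22984 D T h) (mem_cons (W3038 D T h) (mem_cons (W26440 D T h) (mem_cons (W9582 D T h) (mem_cons (W10784 D T h) (mem_cons (W5177 D T h) (mem_cons (W5222 D T h) (mem_cons (W1408 D T h) (mem_cons (W1502 D T h) (mem_cons (W17266 D T h) (mem_cons (W7041 D T h) (mem_cons (W22427 D T h) (mem_cons (W26442 D T h) (mem_cons (W10472 D T h) (mem_cons (W2159 D T h) (mem_cons (W11995 D T h) mem_nil)))))))))))))))))))))) cl5912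
theorem W26443 : WFK w26443 := fun D T h => wf_of_chk h mem_nil (mem_cons (L5912 D T h) mem_nil) cw26443
theorem W26444 : WFK w26444 := fun D T h => wf_of_chk h mem_nil (mem_cons (L5912 D T h) mem_nil) cw26444
theorem L5913 : LFK l5913 := fun D T h => lf_of_chk h (mem_cons (W128 D T h) (mem_cons (W1064 D T h) (mem_cons (W5157 D T h) (mem_cons (W15 D T h) (mem_cons (W14 D T h) (mem_cons (W5258 D T h) (mem_cons (W581 D T h) (mem_cons (W4038 D T h) (mem_cons (W25126 D T h) mem_nil))))))))) cl5913
theorem W26447 : WFK w26447 := fun D T h => wf_of_chk h mem_nil (mem_cons (L5913 D T h) mem_nil) cw26447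
theorem W26448 : WFK w26448 := fun D T h => wf_of_chk h (mem_cons (W8595 D T h) (mem_cons (W16 D T h) mem_nil)) mem_nil cw26448
theorem L5914 : LFK l5914 := fun D T h => lf_of_chk h (mem_cons (W8292 D T h) (mem_cons (W22586 D T h) (mem_cons (W16 D T h) (mem_cons (W5721 D T h) (mem_cons (W1408 D T h) (mem_cons (W6440 D T h) (mem_cons (W3504 D T h) (mem_cons (W15786 D T h) (mem_cons (W26448 D T h) (mem_cons (W5290 D T h) (mem_cons (W6436 D T h) (mem_cons (W6114 D T h) (mem_cons (W5278 D T h) (mem_cons (W42 D T h) (mem_cons (W3743 D T h) (mem_cons (W7114 D T h) (mem_cons (W6107 D T h) (mem_cons (W9582 D T h) (mem_cons (W3305 D T h) (mem_cons (W5177 D T h) (mem_cons (W50 D T h) (mem_cons (W17562 D T h) (mem_cons (W16240 D T h) (mem_cons (W26447 D T h) mem_nil)))))))))))))))))))))))) cl5914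
theorem W26449 : WFK w26449 := fun D T h => wf_of_chk h mem_nil (mem_cons (L5914 D T h) mem_nil) cw26449
theorem W26450 : WFK w26450 := fun D T h => wf_of_chk h mem_nil (mem_cons (L5914 D T h) mem_nil) cw26450
theorem L5915 : LFK l5915 := fun D T h => lf_of_chk h (mem_cons (W25245 D T h) (mem_cons (W16 D T h) (mem_cons (W1318 D T h) (mem_cons (W18392 D T h) (mem_cons (W2015 D T h) (mem_cons (W26436 D T h) (mem_cons (W8783 D T h) (mem_cons (W2037 D T h) (mem_cons (W8256 D T h) (mem_cons (W8180 D T h) (mem_cons (W15786 D T h) (mem_cons (W26432 D T h) (mem_cons (W17571 D T h) (mem_cons (W17572 D T h) (mem_cons (W128 D T h) (mem_cons (W26433 D T h) (mem_cons (W804 D T h) (mem_cons (W5721 D T h) (mem_cons (W22586 D T h) (mem_cons (W24611 D T h) (mem_cons (W8292 D T h) (mem_cons (W22165 D T h) (mem_cons (W8290 D T h) (mem_cons (W26450 D T h) (mem_cons (W9025 D T h) (mem_cons (W26449 D T h) (mem_cons (W2326 D T h) (mem_cons (W2997 D T h) (mem_cons (W8279 D T h) (mem_cons (W26443 D T h) (mem_cons (W26444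 D T h) (mem_cons (W2375 D T h) (mem_cons (W14398 D T h) (mem_cons (W22435 D T h) (mem_cons (W22436 D T h) (mem_cons (W26437 D T h) (mem_cons (W8214 D T h) (mem_cons (W8216 D T h) (mem_cons (W8215 D T h) (mem_cons (W8217 D T h) (mem_cons (W26438 D T h) (mem_cons (W26439 D T h) mem_nil)))))))))))))))))))))))))))))))))))))))))) cl5915
theorem W26451 : WFK w26451 := fun D T h => wf_of_chk h mem_nil (mem_cons (L5915 D T h) mem_nil) cw26451
theorem W26453 : WFK w26453 := fun D T h => wf_of_chk h (mem_cons (W16 D T h) (mem_cons (W111 D T h) mem_nil)) mem_nil cw26453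
theorem W26454 : WFK w26454 := fun D T h => wf_of_chk h (mem_cons (W16 D T h) (mem_cons (W111 D T h) mem_nil)) mem_nil cw26454
theorem L5917 : LFK l5917 := fun D T h => lf_of_chk h (mem_cons (W20252 D T h) (mem_cons (W259 D T h) (mem_cons (W1356 D T h) (mem_cons (W9351 D T h) (mem_cons (W42 D T h) (mem_cons (W281 D T h) (mem_cons (W112 D T h) (mem_cons (W25388 D T h) (mem_cons (W86 D T h) (mem_cons (W1412 D T h) (mem_cons (W8069 D T h) (mem_cons (W18547 D T h) (mem_cons (W16278 D T h) (mem_cons (W4 D T h) (mem_cons (W33 D T h) (mem_cons (W16734 D T h) (mem_cons (W9545 D T h) (mem_cons (W8076 D T h) (mem_cons (W9548 D T h) mem_nil))))))))))))))))))) cl5917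
theorem W26459 : WFK w26459 := fun D T h => wf_of_chk h mem_nil (mem_cons (L5917 D T h) mem_nil) cw26459
theorem L5925 : LFK l5925 := fun D T h => lf_of_chk h (mem_cons (W15810 D T h) (mem_cons (W8291 D T h) (mem_cons (W16 D T h) (mem_cons (W1291 D T h) (mem_cons (W3410 D T h) (mem_cons (W14 D T h) (mem_cons (W7223 D T h) (mem_cons (W7962 D T h) (mem_cons (W7130 D T h) (mem_cons (W18136 D T h) (mem_cons (W3502 D T h) (mem_cons (W10480 D T h) (mem_cons (W42 D T h) (mem_cons (W22427 D T h) (mem_cons (W24027 D T h) (mem_cons (W15147 D T h) (mem_cons (W3305 D T h) (mem_cons (W11995 D T h) (mem_cons (W1318 D T h) (mem_cons (W15905 D T h) (mem_cons (W6552 D T h) (mem_cons (W25134 D T h) (mem_cons (W25132 D T h) mem_nil))))))))))))))))))))))) cl5925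
theorem W26484 : WFK w26484 := fun D T h => wf_of_chk h mem_nil (mem_cons (L5925 D T h) mem_nil) cw26484
theorem W26485 : WFK w26485 := fun D T h => wf_of_chk h mem_nil (mem_cons (L5925 D T h) mem_nil) cw26485
theorem L5926 : LFK l5926 := fun D T h => lf_of_chk h (mem_cons (W8295 D T h) (mem_cons (W37 D T h) (mem_cons (W8977 D T h) (mem_cons (W3905 D T h) (mem_cons (W2321 D T h) (mem_cons (W7429 D T h) (mem_cons (W3939 D T h) (mem_cons (W26485 D T h) (mem_cons (W10403 D T h) (mem_cons (W2059 D T h) (mem_cons (W15883 D T h) (mem_cons (W25330 D T h) (mem_cons (W26430 D T h) (mem_cons (W2328 D T h) (mem_cons (W26431 D T h) (mem_cons (W26451 D T h) (mem_cons (W2709 D T h) (mem_cons (W2375 D T h) (mem_cons (W15477 D T h) (mem_cons (W22420 D T h) (mem_cons (W8258 D T h) (mem_cons (W22422 D T h) (mem_cons (W22718 D T h) (mem_cons (W22769 D T h) (mem_cons (W22770 D T h) (mem_cons (W22856 D T h) (mem_cons (W12851 D T h) (mem_cons (W1291 D T h) (mem_cons (W8291 D T h) (mem_cons (W22878 D T h) (mem_cons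 (W26484 D T h) (mem_cons (W9025 D T h) (mem_cons (W25169 D T h) (mem_cons (W25171 D T h) (mem_cons (W25244 D T h) (mem_cons (W18192 D T h) (mem_cons (W25252 D T h) (mem_cons (W8444 D T h) (mem_cons (W2997 D T h) (mem_cons (W22416 D T h) (mem_cons (W22417 D T h) mem_nil))))))))))))))))))))))))))))))))))))))))) cl5926
theorem W26496 : WFK w26496 := fun D T h => wf_of_chk h (mem_cons (W7212 D T h) mem_nil) mem_nil cw26496
theorem W26519 : WFK w26519 := fun D T h => wf_of_chk h (mem_cons (W7212 D T h) mem_nil) mem_nil cw26519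
theorem W26549 : WFK w26549 := fun D T h => wf_of_chk h (mem_cons (W16 D T h) (mem_cons (W3766 D T h) mem_nil)) mem_nil cw26549
theorem W26559 : WFK w26559 := fun D T h => wf_of_chk h (mem_cons (W16 D T h) (mem_cons (W9025 D T h) mem_nil)) mem_nil cw26559
theorem W26716 : WFK w26716 := fun D T h => wf_of_chk h mem_nil (mem_cons (L1268 D T h) mem_nil) cw26716
theorem W26755 : WFK w26755 := fun D T h => wf_of_chk h mem_nil (mem_cons (L3497 D T h) mem_nil) cw26755
theorem W26756 : WFK w26756 := fun D T h => wf_of_chk h mem_nil (mem_cons (L3497 D T h) mem_nil) cw26756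
theorem W26772 : WFK w26772 := fun D T h => wf_of_chk h mem_nil (mem_cons (L4597 D T h) mem_nil) cw26772
theorem W26818 : WFK w26818 := fun D T h => wf_of_chk h mem_nil (mem_cons (L14 D T h) mem_nil) cw26818
theorem L5996 : LFK l5996 := fun D T h => lf_of_chk h (mem_cons (W13 D T h) (mem_cons (W17 D T h) (mem_cons (W1797 D T h) (mem_cons (W26818 D T h) (mem_cons (W6339 D T h) (mem_cons (W1245 D T h) (mem_cons (W16714 D T h) mem_nil))))))) cl5996
theorem W26819 : WFK w26819 := fun D T h => wf_of_chk h mem_nil (mem_cons (L5996 D T h) mem_nil) cw26819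
theorem L5997 : LFK l5997 := fun D T h => lf_of_chk h (mem_cons (W8638 D T h) (mem_cons (W1326 D T h) (mem_cons (W14045 D T h) (mem_cons (W13 D T h) (mem_cons (W2690 D T h) (mem_cons (W648 D T h) (mem_cons (W69 D T h) (mem_cons (W220 D T h) (mem_cons (W8566 D T h) (mem_cons (W26819 D T h) (mem_cons (W748 D T h) (mem_cons (W871 D T h) (mem_cons (W257 D T h) (mem_cons (W1540 D T h) (mem_cons (W1317 D T h) (mem_cons (W2766 D T h) mem_nil)))))))))))))))) cl5997
theorem W26820 : WFK w26820 := fun D T h => wf_of_chk h mem_nil (mem_cons (L5997 D T h) mem_nil) cw26820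
theorem W26826 : WFK w26826 := fun D T h => wf_of_chk h mem_nil (mem_cons (L4963 D T h) mem_nil) cw26826
theorem L6018 : LFK l6018 := fun D T h => lf_of_chk h (mem_cons (W1408 D T h) (mem_cons (W17 D T h) (mem_cons (W16 D T h) (mem_cons (W15786 D T h) (mem_cons (W24 D T h) (mem_cons (W15807 D T h) (mem_cons (W3392 D T h) (mem_cons (W3335 D T h) (mem_cons (W16920 D T h) (mem_cons (W3 D T h) (mem_cons (W23639 D T h) (mem_cons (W14519 D T h) (mem_cons (W1449 D T h) (mem_cons (W1448 D T h) mem_nil)))))))))))))) cl6018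
theorem W26937 : WFK w26937 := fun D T h => wf_of_chk h mem_nil (mem_cons (L6018 D T h) mem_nil) cw26937
theorem W27026 : WFK w27026 := fun D T h => wf_of_chk h (mem_cons (W5721 D T h) (mem_cons (W16 D T h) mem_nil)) mem_nil cw27026
theorem W27037 : WFK w27037 := fun D T h => wf_of_chk h mem_nil (mem_cons (L6018 D T h) mem_nil) cw27037
theorem W27093 : WFK w27093 := fun D T h => wf_of_chk h (mem_cons (W1317 D T h) (mem_cons (W16 D T h) mem_nil)) mem_nil cw27093
theorem W27100 : WFK w27100 := fun D T h => wf_of_chk h (mem_cons (W3878 D T h) (mem_cons (W16 D T h) mem_nil)) mem_nil cw27100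
theorem L6066 : LFK l6066 := fun D T h => lf_of_chk h (mem_cons (W1025 D T h) (mem_cons (W341 D T h) (mem_cons (W1635 D T h) (mem_cons (W1533 D T h) (mem_cons (W284 D T h) (mem_cons (W1 D T h) (mem_cons (W16 D T h) (mem_cons (W204 D T h) (mem_cons (W1026 D T h) (mem_cons (W4028 D T h) (mem_cons (W16441 D T h) (mem_cons (W24 D T h) (mem_cons (W209 D T h) (mem_cons (W815 D T h) (mem_cons (W3666 D T h) (mem_cons (W3824 D T h) (mem_cons (W2642 D T h) (mem_cons (W1638 D T h) (mem_cons (W3571 D T h) (mem_cons (W18831 D T h) (mem_cons (W1639 D T h) mem_nil))))))))))))))))))))) cl6066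
theorem W27119 : WFK w27119 := fun D T h => wf_of_chk h mem_nil (mem_cons (L6066 D T h) mem_nil) cw27119
theorem W27245 : WFK w27245 := fun D T h => wf_of_chk h mem_nil (mem_cons (L4669 D T h) mem_nil) cw27245
theorem W27252 : WFK w27252 := fun D T h => wf_of_chk h mem_nil (mem_cons (L494 D T h) mem_nil) cw27252
theorem W27523 : WFK w27523 := fun D T h => wf_of_chk h mem_nil (mem_cons (L5679 D T h) mem_nil) cw27523
theorem W27679 : WFK w27679 := fun D T h => wf_of_chk h (mem_cons (W220 D T h) mem_nil) mem_nil cw27679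
theorem W27887 : WFK w27887 := fun D T h => wf_of_chk h mem_nil (mem_cons (L6018 D T h) mem_nil) cw27887
theorem W28003 : WFK w28003 := fun D T h => wf_of_chk h mem_nil (mem_cons (L1832 D T h) mem_nil) cw28003
theorem W28212 : WFK w28212 := fun D T h => wf_of_chk h (mem_cons (W6714 D T h) (mem_cons (W16 D T h) mem_nil)) mem_nil cw28212
theorem W28214 : WFK w28214 := fun D T h => wf_of_chk h mem_nil (mem_cons (L306 D T h) mem_nil) cw28214
theorem W28215 : WFK w28215 := fun D T h => wf_of_chk h mem_nil (mem_cons (L2206 D T h) mem_nil) cw28215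
theorem W28216 : WFK w28216 := fun D T h => wf_of_chk h (mem_cons (W28215 D T h) (mem_cons (W16 D T h) mem_nil)) mem_nil cw28216
theorem W28220 : WFK w28220 := fun D T h => wf_of_chk h (mem_cons (W42 D T h) (mem_cons (W16 D T h) mem_nil)) mem_nil cw28220
theorem W28223 : WFK w28223 := fun D T h => wf_of_chk h (mem_cons (W16755 D T h) (mem_cons (W16 D T h) mem_nil)) mem_nil cw28223
theorem W28225 : WFK w28225 := fun D T h => wf_of_chk h (mem_cons (W2623 D T h) (mem_cons (W16 D T h) mem_nil)) mem_nil cw28225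
theorem W28226 : WFK w28226 := fun D T h => wf_of_chk h (mem_cons (W162 D T h) (mem_cons (W9025 D T h) mem_nil)) mem_nil cw28226
theorem W28227 : WFK w28227 := fun D T h => wf_of_chk h mem_nil (mem_cons (L4716 D T h) mem_nil) cw28227
theorem W28279 : WFK w28279 := fun D T h => wf_of_chk h (mem_cons (W5606 D T h) mem_nil) mem_nil cw28279
theorem W28371 : WFK w28371 := fun D T h => wf_of_chk h mem_nil (mem_cons (L2299 D T h) mem_nil) cw28371
theorem W28387 : WFK w28387 := fun D T h => wf_of_chk h mem_nil (mem_cons (L3995 D T h) mem_nil) cw28387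
theorem W28441 : WFK w28441 := fun D T h => wf_of_chk h (mem_cons (W15 D T h) (mem_cons (W39 D T h) mem_nil)) mem_nil cw28441
theorem L6327 : LFK l6327 := fun D T h => lf_of_chk h (mem_cons (W8631 D T h) (mem_cons (W42 D T h) (mem_cons (W220 D T h) (mem_cons (W3 D T h) (mem_cons (W83 D T h) (mem_cons (W15 D T h) (mem_cons (W200 D T h) (mem_cons (W871 D T h) (mem_cons (W638 D T h) (mem_cons (W2448 D T h) (mem_cons (W848 D T h) (mem_cons (W7914 D T h) (mem_cons (W22814 D T h) mem_nil))))))))))))) cl6327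
theorem W28453 : WFK w28453 := fun D T h => wf_of_chk h mem_nil (mem_cons (L6327 D T h) mem_nil) cw28453
theorem W28454 : WFK w28454 := fun D T h => wf_of_chk h mem_nil (mem_cons (L369 D T h) mem_nil) cw28454
theorem W28468 : WFK w28468 := fun D T h => wf_of_chk h mem_nil (mem_cons (L369 D T h) mem_nil) cw28468
theorem W28469 : WFK w28469 := fun D T h => wf_of_chk h mem_nil (mem_cons (L6327 D T h) mem_nil) cw28469
theorem W28470 : WFK w28470 := fun D T h => wf_of_chk h mem_nil (mem_cons (L193 D T h) mem_nil) cw28470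
theorem W28471 : WFK w28471 := fun D T h => wf_of_chk h (mem_cons (W581 D T h) (mem_cons (W15 D T h) mem_nil)) mem_nil cw28471
theorem W28472 : WFK w28472 := fun D T h => wf_of_chk h (mem_cons (W1326 D T h) (mem_cons (W15 D T h) mem_nil)) mem_nil cw28472
theorem W28473 : WFK w28473 := fun D T h => wf_of_chk h (mem_cons (W1325 D T h) (mem_cons (W15 D T h) mem_nil)) mem_nil cw28473
theorem W28474 : WFK w28474 := fun D T h => wf_of_chk h (mem_cons (W281 D T h) (mem_cons (W42 D T h) mem_nil)) mem_nil cw28474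
theorem W28475 : WFK w28475 := fun D T h => wf_of_chk h (mem_cons (W154 D T h) (mem_cons (W42 D T h) mem_nil)) mem_nil cw28475
theorem W28476 : WFK w28476 := fun D T h => wf_of_chk h mem_nil (mem_cons (L2025 D T h) mem_nil) cw28476
theorem L6329 : LFK l6329 := fun D T h => lf_of_chk h (mem_cons (W28468 D T h) (mem_cons (W2843 D T h) (mem_cons (W2631 D T h) (mem_cons (W42 D T h) (mem_cons (W15 D T h) (mem_cons (W2554 D T h) (mem_cons (W8692 D T h) (mem_cons (W5721 D T h) (mem_cons (W3766 D T h) (mem_cons (W23535 D T h) (mem_cons (W28469 D T h) (mem_cons (W22536 D T h) (mem_cons (W22814 D T h) (mem_cons (W28474 D T h) (mem_cons (W9413 D T h) (mem_cons (W28475 D T h) (mem_cons (W9056 D T h) (mem_cons (W719 D T h) (mem_cons (W5176 D T h) (mem_cons (W10827 D T h) (mem_cons (W28454 D T h) (mem_cons (W28441 D T h) (mem_cons (W22843 D T h) (mem_cons (W1325 D T h) (mem_cons (W571 D T h) (mem_cons (W28470 D T h) (mem_cons (W28471 D T h) (mem_cons (W28472 D T h) (mem_cons (W28473 D T h) (mem_cons (W21212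 D T h) (mem_cons (W495 D T h) (mem_cons (W8153 D T h) (mem_cons (W28476 D T h) mem_nil))))))))))))))))))))))))))))))))) cl6329
theorem W28477 : WFK w28477 := fun D T h => wf_of_chk h mem_nil (mem_cons (L6329 D T h) mem_nil) cw28477
theorem L6334 : LFK l6334 := fun D T h => lf_of_chk h (mem_cons (W5447 D T h) (mem_cons (W141 D T h) (mem_cons (W10662 D T h) (mem_cons (W281 D T h) (mem_cons (W86 D T h) (mem_cons (W3 D T h) (mem_cons (W39 D T h) (mem_cons (W3378 D T h) (mem_cons (W1723 D T h) (mem_cons (W15380 D T h) (mem_cons (W10663 D T h) (mem_cons (W1556 D T h) (mem_cons (W6798 D T h) (mem_cons (W5482 D T h) (mem_cons (W1325 D T h) (mem_cons (W6793 D T h) (mem_cons (W10661 D T h) mem_nil))))))))))))))))) cl6334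
theorem W28494 : WFK w28494 := fun D T h => wf_of_chk h mem_nil (mem_cons (L6334 D T h) mem_nil) cw28494
theorem W28651 : WFK w28651 := fun D T h => wf_of_chk h (mem_cons (W8638 D T h) (mem_cons (W16 D T h) mem_nil)) mem_nil cw28651
theorem W28667 : WFK w28667 := fun D T h => wf_of_chk h mem_nil (mem_cons (L4036 D T h) mem_nil) cw28667
theorem W28668 : WFK w28668 := fun D T h => wf_of_chk h (mem_cons (W16 D T h) (mem_cons (W177 D T h) mem_nil)) mem_nil cw28668
theorem W28669 : WFK w28669 := fun D T h => wf_of_chk h (mem_cons (W7212 D T h) (mem_cons (W37 D T h) mem_nil)) mem_nil cw28669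
theorem L6363 : LFK l6363 := fun D T h => lf_of_chk h (mem_cons (W15810 D T h) (mem_cons (W177 D T h) (mem_cons (W3013 D T h) (mem_cons (W6811 D T h) (mem_cons (W6552 D T h) (mem_cons (W10899 D T h) (mem_cons (W2370 D T h) (mem_cons (W26937 D T h) (mem_cons (W27037 D T h) (mem_cons (W804 D T h) (mem_cons (W37 D T h) (mem_cons (W1408 D T h) (mem_cons (W28667 D T h) (mem_cons (W28668 D T h) (mem_cons (W17266 D T h) (mem_cons (W26019 D T h) (mem_cons (W3395 D T h) (mem_cons (W284 D T h) (mem_cons (W12016 D T h) (mem_cons (W6469 D T h) (mem_cons (W8851 D T h) (mem_cons (W8852 D T h) (mem_cons (W8855 D T h) (mem_cons (W28669 D T h) (mem_cons (W22427 D T h) (mem_cons (W3766 D T h) (mem_cons (W11995 D T h) (mem_cons (W10896 D T h) (mem_cons (W10898 D T h) mem_nil))))))))))))))))))))))))))))) cl6363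
theorem W28670 : WFK w28670 := fun D T h => wf_of_chk h mem_nil (mem_cons (L6363 D T h) mem_nil) cw28670
theorem L6364 : LFK l6364 := fun D T h => lf_of_chk h (mem_cons (W16 D T h) (mem_cons (W2983 D T h) (mem_cons (W8502 D T h) (mem_cons (W8597 D T h) (mem_cons (W15 D T h) (mem_cons (W220 D T h) (mem_cons (W18206 D T h) (mem_cons (W1300 D T h) (mem_cons (W7212 D T h) (mem_cons (W42 D T h) (mem_cons (W2015 D T h) (mem_cons (W164 D T h) mem_nil)))))))))))) cl6364
theorem W28671 : WFK w28671 := fun D T h => wf_of_chk h mem_nil (mem_cons (L6364 D T h) mem_nil) cw28671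
theorem L6365 : LFK l6365 := fun D T h => lf_of_chk h (mem_cons (W27887 D T h) (mem_cons (W15 D T h) (mem_cons (W161 D T h) (mem_cons (W25038 D T h) (mem_cons (W141 D T h) (mem_cons (W25040 D T h) (mem_cons (W1408 D T h) (mem_cons (W1 D T h) mem_nil)))))))) cl6365
theorem W28672 : WFK w28672 := fun D T h => wf_of_chk h mem_nil (mem_cons (L6365 D T h) mem_nil) cw28672
theorem W28673 : WFK w28673 := fun D T h => wf_of_chk h mem_nil (mem_cons (L4970 D T h) mem_nil) cw28673
theorem L6366 : LFK l6366 := fun D T h => lf_of_chk h (mem_cons (W5721 D T h) (mem_cons (W181 D T h) (mem_cons (W8424 D T h) (mem_cons (W10825 D T h) (mem_cons (W7719 D T h) (mem_cons (W16 D T h) (mem_cons (W37 D T h) (mem_cons (W281 D T h) (mem_cons (W4038 D T h) (mem_cons (W5157 D T h) (mem_cons (W7076 D T h) (mem_cons (W8640 D T h) (mem_cons (W5622 D T h) (mem_cons (W461 D T h) (mem_cons (W1690 D T h) (mem_cons (W28672 D T h) (mem_cons (W13427 D T h) (mem_cons (W28673 D T h) mem_nil)))))))))))))))))) cl6366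
theorem W28674 : WFK w28674 := fun D T h => wf_of_chk h mem_nil (mem_cons (L6366 D T h) mem_nil) cw28674
theorem W28675 : WFK w28675 := fun D T h => wf_of_chk h (mem_cons (W368 D T h) (mem_cons (W5721 D T h) mem_nil)) mem_nil cw28675
theorem L6367 : LFK l6367 := fun D T h => lf_of_chk h (mem_cons (W9025 D T h) (mem_cons (W1063 D T h) (mem_cons (W42 D T h) (mem_cons (W16 D T h) (mem_cons (W28673 D T h) (mem_cons (W6613 D T h) (mem_cons (W2037 D T h) (mem_cons (W284 D T h) (mem_cons (W15 D T h) (mem_cons (W28675 D T h) (mem_cons (W128 D T h) (mem_cons (W1139 D T h) (mem_cons (W261 D T h) mem_nil))))))))))))) cl6367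
theorem W28676 : WFK w28676 := fun D T h => wf_of_chk h mem_nil (mem_cons (L6367 D T h) mem_nil) cw28676
theorem W28677 : WFK w28677 := fun D T h => wf_of_chk h mem_nil (mem_cons (L5926 D T h) mem_nil) cw28677
theorem W28678 : WFK w28678 := fun D T h => wf_of_chk h (mem_cons (W22427 D T h) (mem_cons (W804 D T h) mem_nil)) mem_nil cw28678
theorem L6368 : LFK l6368 := fun D T h => lf_of_chk h (mem_cons (W12185 D T h) (mem_cons (W12167 D T h) (mem_cons (W2988 D T h) (mem_cons (W11038 D T h) (mem_cons (W3905 D T h) (mem_cons (W5721 D T h) (mem_cons (W8977 D T h) (mem_cons (W37 D T h) (mem_cons (W28674 D T h) (mem_cons (W12170 D T h) (mem_cons (W12178 D T h) (mem_cons (W28676 D T h) (mem_cons (W12184 D T h) (mem_cons (W12180 D T h) (mem_cons (W9025 D T h) (mem_cons (W18192 D T h) (mem_cons (W12181 D T h) (mem_cons (W12182 D T h) (mem_cons (W1318 D T h) (mem_cons (W12171 D T h) (mem_cons (W12175 D T h) (mem_cons (W12176 D T h) (mem_cons (W2024 D T h) (mem_cons (W9676 D T h) (mem_cons (W12177 D T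 h) (mem_cons (W28669 D T h) (mem_cons (W28673 D T h) (mem_cons (W11135 D T h) (mem_cons (W7178 D T h) (mem_cons (W28677 D T h) (mem_cons (W28678 D T h) (mem_cons (W12186 D T h) mem_nil)))))))))))))))))))))))))))))))) cl6368
theorem W28679 : WFK w28679 := fun D T h => wf_of_chk h mem_nil (mem_cons (L6368 D T h) mem_nil) cw28679
theorem L6369 : LFK l6369 := fun D T h => lf_of_chk h (mem_cons (W5606 D T h) (mem_cons (W40 D T h) (mem_cons (W1444 D T h) (mem_cons (W1613 D T h) (mem_cons (W2764 D T h) (mem_cons (W33 D T h) (mem_cons (W1531 D T h) (mem_cons (W7171 D T h) (mem_cons (W8695 D T h) mem_nil))))))))) cl6369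
theorem W28680 : WFK w28680 := fun D T h => wf_of_chk h mem_nil (mem_cons (L6369 D T h) mem_nil) cw28680
theorem L6370 : LFK l6370 := fun D T h => lf_of_chk h (mem_cons (W5633 D T h) (mem_cons (W42 D T h) (mem_cons (W1919 D T h) (mem_cons (W4313 D T h) (mem_cons (W2682 D T h) (mem_cons (W28680 D T h) (mem_cons (W15 D T h) (mem_cons (W261 D T h) (mem_cons (W5655 D T h) (mem_cons (W5585 D T h) (mem_cons (W5673 D T h) (mem_cons (W20472 D T h) (mem_cons (W3766 D T h) (mem_cons (W10045 D T h) (mem_cons (W8984 D T h) (mem_cons (W6486 D T h) (mem_cons (W1690 D T h) (mem_cons (W8609 D T h) mem_nil)))))))))))))))))) cl6370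
theorem W28681 : WFK w28681 := fun D T h => wf_of_chk h mem_nil (mem_cons (L6370 D T h) mem_nil) cw28681
theorem L6371 : LFK l6371 := fun D T h => lf_of_chk h (mem_cons (W5606 D T h) (mem_cons (W54 D T h) (mem_cons (W3093 D T h) (mem_cons (W1612 D T h) (mem_cons (W7 D T h) (mem_cons (W1072 D T h) (mem_cons (W913 D T h) (mem_cons (W7171 D T h) (mem_cons (W8695 D T h) mem_nil))))))))) cl6371
theorem W28682 : WFK w28682 := fun D T h => wf_of_chk h mem_nil (mem_cons (L6371 D T h) mem_nil) cw28682
theorem W28683 : WFK w28683 := fun D T h => wf_of_chk h mem_nil (mem_cons (L592 D T h) mem_nil) cw28683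
theorem L6372 : LFK l6372 := fun D T h => lf_of_chk h (mem_cons (W9056 D T h) (mem_cons (W6758 D T h) (mem_cons (W56 D T h) (mem_cons (W16 D T h) (mem_cons (W13890 D T h) (mem_cons (W11917 D T h) (mem_cons (W5841 D T h) (mem_cons (W28683 D T h) (mem_cons (W28682 D T h) (mem_cons (W638 D T h) (mem_cons (W5388 D T h) (mem_cons (W10043 D T h) (mem_cons (W10044 D T h) (mem_cons (W799 D T h) (mem_cons (W3766 D T h) mem_nil))))))))))))))) cl6372
theorem W28684 : WFK w28684 := fun D T h => wf_of_chk h mem_nil (mem_cons (L6372 D T h) mem_nil) cw28684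
theorem L6373 : LFK l6373 := fun D T h => lf_of_chk h (mem_cons (W15786 D T h) (mem_cons (W181 D T h) (mem_cons (W1 D T h) (mem_cons (W69 D T h) (mem_cons (W789 D T h) (mem_cons (W1927 D T h) (mem_cons (W1918 D T h) (mem_cons (W126 D T h) (mem_cons (W1926 D T h) (mem_cons (W15760 D T h) mem_nil)))))))))) cl6373
theorem W28685 : WFK w28685 := fun D T h => wf_of_chk h mem_nil (mem_cons (L6373 D T h) mem_nil) cw28685
theorem L6374 : LFK l6374 := fun D T h => lf_of_chk h (mem_cons (W15786 D T h) (mem_cons (W28685 D T h) (mem_cons (W126 D T h) (mem_cons (W9005 D T h) (mem_cons (W267 D T h) (mem_cons (W721 D T h) (mem_cons (W26459 D T h) (mem_cons (W114 D T h) (mem_cons (W22289 D T h) (mem_cons (W1309 D T h) (mem_cons (W15760 D T h) (mem_cons (W1 D T h) (mem_cons (W69 D T h) mem_nil))))))))))))) cl6374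
theorem W28686 : WFK w28686 := fun D T h => wf_of_chk h mem_nil (mem_cons (L6374 D T h) mem_nil) cw28686
theorem L6375 : LFK l6375 := fun D T h => lf_of_chk h (mem_cons (W18664 D T h) (mem_cons (W42 D T h) (mem_cons (W162 D T h) (mem_cons (W4313 D T h) (mem_cons (W11591 D T h) (mem_cons (W2805 D T h) (mem_cons (W721 D T h) (mem_cons (W5777 D T h) (mem_cons (W5655 D T h) (mem_cons (W5321 D T h) (mem_cons (W28680 D T h) (mem_cons (W431 D T h) (mem_cons (W3193 D T h) (mem_cons (W5654 D T h) (mem_cons (W6916 D T h) (mem_cons (W24019 D T h) (mem_cons (W28683 D T h) (mem_cons (W1924 D T h) (mem_cons (W2677 D T h) (mem_cons (W7959 D T h) (mem_cons (W815 D T h) mem_nil))))))))))))))))))))) cl6375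
theorem W28687 : WFK w28687 := fun D T h => wf_of_chk h mem_nil (mem_cons (L6375 D T h) mem_nil) cw28687
theorem W28688 : WFK w28688 := fun D T h => wf_of_chk h mem_nil (mem_cons (L6066 D T h) mem_nil) cw28688
theorem L6376 : LFK l6376 := fun D T h => lf_of_chk h (mem_cons (W7213 D T h) (mem_cons (W1062 D T h) (mem_cons (W4314 D T h) (mem_cons (W5098 D T h) (mem_cons (W5258 D T h) (mem_cons (W27119 D T h) (mem_cons (W22289 D T h) (mem_cons (W1310 D T h) (mem_cons (W284 D T h) (mem_cons (W3878 D T h) (mem_cons (W5721 D T h) (mem_cons (W16 D T h) (mem_cons (W1309 D T h) (mem_cons (W28686 D T h) (mem_cons (W28687 D T h) (mem_cons (W2934 D T h) (mem_cons (W7622 D T h) (mem_cons (W50 D T h) (mem_cons (W15883 D T h) (mem_cons (W5194 D T h) (mem_cons (W28681 D T h) (mem_cons (W5633 D T h) (mem_cons (W3815 D T h) (mem_cons (W3006 D T h) (mem_cons (W28684 D T h) (mem_cons (W8807 D T h) (mem_cons (W12509 D T h) (mem_cons (W12193 D T h) (mem_cons (W4028 D T h) (mem_cons (W28688 D T h) (mem_cons (W5255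 D T h) mem_nil))))))))))))))))))))))))))))))) cl6376
theorem W28689 : WFK w28689 := fun D T h => wf_of_chk h mem_nil (mem_cons (L6376 D T h) mem_nil) cw28689
theorem W28690 : WFK w28690 := fun D T h => wf_of_chk h mem_nil (mem_cons (L2006 D T h) mem_nil) cw28690
theorem L6377 : LFK l6377 := fun D T h => lf_of_chk h (mem_cons (W26019 D T h) (mem_cons (W15905 D T h) (mem_cons (W1676 D T h) (mem_cons (W15784 D T h) (mem_cons (W2219 D T h) (mem_cons (W16448 D T h) (mem_cons (W17839 D T h) (mem_cons (W16 D T h) (mem_cons (W14 D T h) (mem_cons (W4248 D T h) (mem_cons (W5273 D T h) (mem_cons (W18615 D T h) (mem_cons (W24 D T h) (mem_cons (W1398 D T h) (mem_cons (W9447 D T h) (mem_cons (W2053 D T h) (mem_cons (W2054 D T h) (mem_cons (W1523 D T h) (mem_cons (W284 D T h) (mem_cons (W5072 D T h) (mem_cons (W13427 D T h) (mem_cons (W42 D T h) (mem_cons (W28453 D T h) (mem_cons (W3571 D T h) (mem_cons (W2051 D T h) (mem_cons (W2049 D T h) (mem_cons (W1502 D T h) mem_nil))))))))))))))))))))))))))) cl6377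
theorem W28691 : WFK w28691 := fun D T h => wf_of_chk h mem_nil (mem_cons (L6377 D T h) mem_nil) cw28691
theorem W28692 : WFK w28692 := fun D T h => wf_of_chk h mem_nil (mem_cons (L1657 D T h) mem_nil) cw28692
theorem W28693 : WFK w28693 := fun D T h => wf_of_chk h mem_nil (mem_cons (L4096 D T h) mem_nil) cw28693
theorem L6378 : LFK l6378 := fun D T h => lf_of_chk h (mem_cons (W18615 D T h) (mem_cons (W16 D T h) (mem_cons (W14 D T h) (mem_cons (W67 D T h) (mem_cons (W15784 D T h) (mem_cons (W259 D T h) (mem_cons (W1307 D T h) (mem_cons (W181 D T h) (mem_cons (W10766 D T h) (mem_cons (W6497 D T h) (mem_cons (W937 D T h) (mem_cons (W1303 D T h) (mem_cons (W1398 D T h) (mem_cons (W28692 D T h) (mem_cons (W28693 D T h) (mem_cons (W8988 D T h) (mem_cons (W12125 D T h) (mem_cons (W8625 D T h) (mem_cons (W790 D T h) mem_nil))))))))))))))))))) cl6378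
theorem W28694 : WFK w28694 := fun D T h => wf_of_chk h mem_nil (mem_cons (L6378 D T h) mem_nil) cw28694
theorem W28695 : WFK w28695 := fun D T h => wf_of_chk h mem_nil (mem_cons (L1959 D T h) mem_nil) cw28695
theorem L6379 : LFK l6379 := fun D T h => lf_of_chk h (mem_cons (W16 D T h) (mem_cons (W42 D T h) (mem_cons (W2015 D T h) (mem_cons (W6714 D T h) (mem_cons (W15810 D T h) (mem_cons (W19845 D T h) (mem_cons (W28694 D T h) (mem_cons (W15773 D T h) (mem_cons (W15 D T h) (mem_cons (W220 D T h) (mem_cons (W28695 D T h) (mem_cons (W7212 D T h) mem_nil)))))))))))) cl6379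
theorem W28696 : WFK w28696 := fun D T h => wf_of_chk h mem_nil (mem_cons (L6379 D T h) mem_nil) cw28696
theorem W28697 : WFK w28697 := fun D T h => wf_of_chk h (mem_cons (W9705 D T h) (mem_cons (W15905 D T h) mem_nil)) mem_nil cw28697
theorem L6380 : LFK l6380 := fun D T h => lf_of_chk h (mem_cons (W15784 D T h) (mem_cons (W5177 D T h) (mem_cons (W8679 D T h) (mem_cons (W7212 D T h) (mem_cons (W42 D T h) (mem_cons (W18137 D T h) (mem_cons (W12279 D T h) (mem_cons (W16071 D T h) (mem_cons (W669 D T h) (mem_cons (W179 D T h) (mem_cons (W15786 D T h) (mem_cons (W15 D T h) (mem_cons (W220 D T h) mem_nil))))))))))))) cl6380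
theorem W28698 : WFK w28698 := fun D T h => wf_of_chk h mem_nil (mem_cons (L6380 D T h) mem_nil) cw28698
theorem W28699 : WFK w28699 := fun D T h => wf_of_chk h mem_nil (mem_cons (L1959 D T h) mem_nil) cw28699
theorem W28700 : WFK w28700 := fun D T h => wf_of_chk h (mem_cons (W1350 D T h) (mem_cons (W15905 D T h) mem_nil)) mem_nil cw28700
theorem W28701 : WFK w28701 := fun D T h => wf_of_chk h (mem_cons (W1350 D T h) (mem_cons (W15905 D T h) mem_nil)) mem_nil cw28701
theorem W28702 : WFK w28702 := fun D T h => wf_of_chk h mem_nil (mem_cons (L5679 D T h) mem_nil) cw28702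
theorem W28703 : WFK w28703 := fun D T h => wf_of_chk h (mem_cons (W164 D T h) mem_nil) mem_nil cw28703
theorem W28704 : WFK w28704 := fun D T h => wf_of_chk h (mem_cons (W1231 D T h) (mem_cons (W164 D T h) mem_nil)) mem_nil cw28704
theorem W28705 : WFK w28705 := fun D T h => wf_of_chk h (mem_cons (W114 D T h) (mem_cons (W15784 D T h) mem_nil)) mem_nil cw28705
theorem W28706 : WFK w28706 := fun D T h => wf_of_chk h mem_nil (mem_cons (L2163 D T h) mem_nil) cw28706
theorem L6381 : LFK l6381 := fun D T h => lf_of_chk h (mem_cons (W28695 D T h) (mem_cons (W19845 D T h) (mem_cons (W7212 D T h) (mem_cons (W42 D T h) (mem_cons (W15784 D T h) (mem_cons (W164 D T h) (mem_cons (W18766 D T h) (mem_cons (W18253 D T h) (mem_cons (W15806 D T h) (mem_cons (W16019 D T h) (mem_cons (W28706 D T h) (mem_cons (W28700 D T h) (mem_cons (W28701 D T h) (mem_cons (W50 D T h) (mem_cons (W28702 D T h) (mem_cons (W2997 D T h) (mem_cons (W28703 D T h) (mem_cons (W28704 D T h) (mem_cons (W28698 D T h) (mem_cons (W28699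 D T h) (mem_cons (W28697 D T h) (mem_cons (W28694 D T h) (mem_cons (W15773 D T h) (mem_cons (W15 D T h) (mem_cons (W220 D T h) (mem_cons (W28705 D T h) mem_nil)))))))))))))))))))))))))) cl6381
theorem W28707 : WFK w28707 := fun D T h => wf_of_chk h mem_nil (mem_cons (L6381 D T h) mem_nil) cw28707
theorem W28708 : WFK w28708 := fun D T h => wf_of_chk h (mem_cons (W15784 D T h) mem_nil) mem_nil cw28708
theorem W28709 : WFK w28709 := fun D T h => wf_of_chk h mem_nil (mem_cons (L3454 D T h) mem_nil) cw28709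
theorem W28710 : WFK w28710 := fun D T h => wf_of_chk h mem_nil (mem_cons (L3456 D T h) mem_nil) cw28710
theorem W28712 : WFK w28712 := fun D T h => wf_of_chk h (mem_cons (W15784 D T h) mem_nil) mem_nil cw28712
theorem L6382 : LFK l6382 := fun D T h => lf_of_chk h (mem_cons (W11528 D T h) (mem_cons (W5222 D T h) (mem_cons (W32 D T h) (mem_cons (W38 D T h) (mem_cons (W61 D T h) (mem_cons (W15905 D T h) (mem_cons (W17562 D T h) (mem_cons (W15784 D T h) (mem_cons (W3335 D T h) (mem_cons (W28712 D T h) (mem_cons (W28709 D T h) (mem_cons (W28710 D T h) (mem_cons (W42 D T h) (mem_cons (W26496 D T h) (mem_cons (W968 D T h) (mem_cons (W2331 D T h) (mem_cons (W3952 D T h) (mem_cons (W11328 D T h) (mem_cons (W28708 D T h) (mem_cons (W2905 D T h) mem_nil)))))))))))))))))))) cl6382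
theorem W28713 : WFK w28713 := fun D T h => wf_of_chk h mem_nil (mem_cons (L6382 D T h) mem_nil) cw28713
theorem L6383 : LFK l6383 := fun D T h => lf_of_chk h (mem_cons (W7212 D T h) (mem_cons (W15810 D T h) (mem_cons (W368 D T h) (mem_cons (W1 D T h) (mem_cons (W126 D T h) (mem_cons (W69 D T h) (mem_cons (W15806 D T h) (mem_cons (W28713 D T h) (mem_cons (W10701 D T h) (mem_cons (W8595 D T h) mem_nil)))))))))) cl6383
theorem W28714 : WFK w28714 := fun D T h => wf_of_chk h mem_nil (mem_cons (L6383 D T h) mem_nil) cw28714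
theorem L6384 : LFK l6384 := fun D T h => lf_of_chk h (mem_cons (W790 D T h) (mem_cons (W4248 D T h) (mem_cons (W32 D T h) (mem_cons (W38 D T h) (mem_cons (W61 D T h) (mem_cons (W15905 D T h) (mem_cons (W28709 D T h) (mem_cons (W15784 D T h) (mem_cons (W3335 D T h) (mem_cons (W28712 D T h) (mem_cons (W28710 D T h) (mem_cons (W27679 D T h) (mem_cons (W9031 D T h) (mem_cons (W26496 D T h) (mem_cons (W42 D T h) (mem_cons (W18840 D T h) (mem_cons (W968 D T h) (mem_cons (W3952 D T h) (mem_cons (W11355 D T h) (mem_cons (W28708 D T h) (mem_cons (W3173 D T h) (mem_cons (W20778 D T h) mem_nil)))))))))))))))))))))) cl6384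
theorem W28715 : WFK w28715 := fun D T h => wf_of_chk h mem_nil (mem_cons (L6384 D T h) mem_nil) cw28715
theorem L6385 : LFK l6385 := fun D T h => lf_of_chk h (mem_cons (W7212 D T h) (mem_cons (W15810 D T h) (mem_cons (W1 D T h) (mem_cons (W368 D T h) (mem_cons (W126 D T h) (mem_cons (W69 D T h) (mem_cons (W15806 D T h) (mem_cons (W28715 D T h) (mem_cons (W8595 D T h) (mem_cons (W10701 D T h) mem_nil)))))))))) cl6385
theorem W28716 : WFK w28716 := fun D T h => wf_of_chk h mem_nil (mem_cons (L6385 D T h) mem_nil) cw28716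
theorem W28717 : WFK w28717 := fun D T h => wf_of_chk h mem_nil (mem_cons (L6379 D T h) mem_nil) cw28717
theorem W28718 : WFK w28718 := fun D T h => wf_of_chk h (mem_cons (W2963 D T h) (mem_cons (W15905 D T h) mem_nil)) mem_nil cw28718
theorem W28719 : WFK w28719 := fun D T h => wf_of_chk h (mem_cons (W9376 D T h) (mem_cons (W15784 D T h) mem_nil)) mem_nil cw28719
theorem L6386 : LFK l6386 := fun D T h => lf_of_chk h (mem_cons (W1318 D T h) (mem_cons (W7223 D T h) (mem_cons (W14 D T h) (mem_cons (W15784 D T h) (mem_cons (W26019 D T h) (mem_cons (W3523 D T h) (mem_cons (W3389 D T h) (mem_cons (W12168 D T h) (mem_cons (W42 D T h) (mem_cons (W15752 D T h) (mem_cons (W26755 D T h) (mem_cons (W27887 D T h) (mem_cons (W26756 D T h) mem_nil))))))))))))) cl6386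
theorem W28720 : WFK w28720 := fun D T h => wf_of_chk h mem_nil (mem_cons (L6386 D T h) mem_nil) cw28720
theorem W28721 : WFK w28721 := fun D T h => wf_of_chk h (mem_cons (W2989 D T h) (mem_cons (W15905 D T h) mem_nil)) mem_nil cw28721
theorem W28722 : WFK w28722 := fun D T h => wf_of_chk h (mem_cons (W2989 D T h) (mem_cons (W15905 D T h) mem_nil)) mem_nil cw28722
theorem W28723 : WFK w28723 := fun D T h => wf_of_chk h mem_nil (mem_cons (L3471 D T h) mem_nil) cw28723
theorem L6387 : LFK l6387 := fun D T h => lf_of_chk h (mem_cons (W3 D T h) (mem_cons (W8695 D T h) (mem_cons (W11 D T h) (mem_cons (W12 D T h) (mem_cons (W13 D T h) mem_nil))))) cl6387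
theorem W28724 : WFK w28724 := fun D T h => wf_of_chk h mem_nil (mem_cons (L6387 D T h) mem_nil) cw28724
theorem L6393 : LFK l6393 := fun D T h => lf_of_chk h (mem_cons (W28695 D T h) (mem_cons (W1313 D T h) (mem_cons (W8590 D T h) (mem_cons (W15 D T h) (mem_cons (W220 D T h) (mem_cons (W15704 D T h) (mem_cons (W8630 D T h) (mem_cons (W3878 D T h) (mem_cons (W42 D T h) (mem_cons (W1362 D T h) (mem_cons (W164 D T h) (mem_cons (W50 D T h) (mem_cons (W7212 D T h) mem_nil))))))))))))) cl6393
theorem W28737 : WFK w28737 := fun D T h => wf_of_chk h mem_nil (mem_cons (L6393 D T h) mem_nil) cw28737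
theorem W28738 : WFK w28738 := fun D T h => wf_of_chk h mem_nil (mem_cons (L305 D T h) mem_nil) cw28738
theorem W28739 : WFK w28739 := fun D T h => wf_of_chk h mem_nil (mem_cons (L1947 D T h) mem_nil) cw28739
theorem L6394 : LFK l6394 := fun D T h => lf_of_chk h (mem_cons (W16 D T h) (mem_cons (W3766 D T h) (mem_cons (W16566 D T h) (mem_cons (W1927 D T h) (mem_cons (W15906 D T h) (mem_cons (W7212 D T h) (mem_cons (W42 D T h) (mem_cons (W2015 D T h) (mem_cons (W6714 D T h) mem_nil))))))))) cl6394
theorem W28740 : WFK w28740 := fun D T h => wf_of_chk h mem_nil (mem_cons (L6394 D T h) mem_nil) cw28740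
theorem W28741 : WFK w28741 := fun D T h => wf_of_chk h (mem_cons (W9376 D T h) mem_nil) mem_nil cw28741
theorem L6395 : LFK l6395 := fun D T h => lf_of_chk h (mem_cons (W12168 D T h) (mem_cons (W32 D T h) (mem_cons (W63 D T h) (mem_cons (W39 D T h) (mem_cons (W42 D T h) (mem_cons (W6714 D T h) (mem_cons (W38 D T h) (mem_cons (W3 D T h) (mem_cons (W1412 D T h) (mem_cons (W24809 D T h) (mem_cons (W23144 D T h) (mem_cons (W6372 D T h) (mem_cons (W41 D T h) (mem_cons (W5441 D T h) mem_nil)))))))))))))) cl6395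
theorem W28742 : WFK w28742 := fun D T h => wf_of_chk h mem_nil (mem_cons (L6395 D T h) mem_nil) cw28742
theorem L6396 : LFK l6396 := fun D T h => lf_of_chk h (mem_cons (W5606 D T h) (mem_cons (W28742 D T h) (mem_cons (W91 D T h) (mem_cons (W2764 D T h) (mem_cons (W158 D T h) (mem_cons (W33 D T h) (mem_cons (W1 D T h) (mem_cons (W10 D T h) (mem_cons (W109 D T h) mem_nil))))))))) cl6396
theorem W28743 : WFK w28743 := fun D T h => wf_of_chk h mem_nil (mem_cons (L6396 D T h) mem_nil) cw28743
theorem L6397 : LFK l6397 := fun D T h => lf_of_chk h (mem_cons (W15704 D T h) (mem_cons (W1313 D T h) (mem_cons (W15703 D T h) (mem_cons (W1 D T h) (mem_cons (W69 D T h) (mem_cons (W91 D T h) (mem_cons (W80 D T h) (mem_cons (W8630 D T h) (mem_cons (W111 D T h) (mem_cons (W370 D T h) (mem_cons (W721 D T h) (mem_cons (W267 D T h) (mem_cons (W16 D T h) (mem_cons (W114 D T h) (mem_cons (W15906 D T h) (mem_cons (W6433 D T h) (mem_cons (W15705 D T h) (mem_cons (W8687 D T h) (mem_cons (W16019 D T h) (mem_cons (W28705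 D T h) (mem_cons (W21077 D T h) (mem_cons (W28743 D T h) (mem_cons (W1318 D T h) (mem_cons (W15701 D T h) (mem_cons (W15702 D T h) (mem_cons (W15696 D T h) (mem_cons (W28741 D T h) (mem_cons (W22356 D T h) (mem_cons (W28738 D T h) (mem_cons (W28739 D T h) (mem_cons (W15693 D T h) (mem_cons (W28740 D T h) mem_nil)))))))))))))))))))))))))))))))) cl6397
theorem W28744 : WFK w28744 := fun D T h => wf_of_chk h mem_nil (mem_cons (L6397 D T h) mem_nil) cw28744
theorem W28748 : WFK w28748 := fun D T h => wf_of_chk h mem_nil (mem_cons (L977 D T h) mem_nil) cw28748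
theorem L6398 : LFK l6398 := fun D T h => lf_of_chk h (mem_cons (W28740 D T h) (mem_cons (W1313 D T h) (mem_cons (W1 D T h) (mem_cons (W69 D T h) (mem_cons (W15703 D T h) (mem_cons (W4 D T h) (mem_cons (W33 D T h) (mem_cons (W8630 D T h) (mem_cons (W1636 D T h) (mem_cons (W4262 D T h) (mem_cons (W20252 D T h) (mem_cons (W28748 D T h) (mem_cons (W14014 D T h) mem_nil))))))))))))) cl6398
theorem W28749 : WFK w28749 := fun D T h => wf_of_chk h mem_nil (mem_cons (L6398 D T h) mem_nil) cw28749
theorem W28757 : WFK w28757 := fun D T h => wf_of_chk h mem_nil (mem_cons (L2396 D T h) mem_nil) cw28757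
theorem L6405 : LFK l6405 := fun D T h => lf_of_chk h (mem_cons (W3 D T h) (mem_cons (W8695 D T h) (mem_cons (W8633 D T h) mem_nil))) cl6405
theorem W28767 : WFK w28767 := fun D T h => wf_of_chk h mem_nil (mem_cons (L6405 D T h) mem_nil) cw28767
theorem L6406 : LFK l6406 := fun D T h => lf_of_chk h (mem_cons (W42 D T h) (mem_cons (W181 D T h) (mem_cons (W3766 D T h) (mem_cons (W16 D T h) (mem_cons (W12976 D T h) (mem_cons (W3 D T h) (mem_cons (W39 D T h) (mem_cons (W461 D T h) (mem_cons (W3594 D T h) (mem_cons (W1 D T h) (mem_cons (W15854 D T h) mem_nil))))))))))) cl6406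
theorem W28769 : WFK w28769 := fun D T h => wf_of_chk h mem_nil (mem_cons (L6406 D T h) mem_nil) cw28769
theorem L6407 : LFK l6407 := fun D T h => lf_of_chk h (mem_cons (W42 D T h) (mem_cons (W181 D T h) (mem_cons (W1528 D T h) (mem_cons (W16 D T h) (mem_cons (W11384 D T h) (mem_cons (W3 D T h) (mem_cons (W39 D T h) (mem_cons (W461 D T h) (mem_cons (W1 D T h) (mem_cons (W11270 D T h) (mem_cons (W15858 D T h) mem_nil))))))))))) cl6407
theorem W28770 : WFK w28770 := fun D T h => wf_of_chk h mem_nil (mem_cons (L6407 D T h) mem_nil) cw28770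
theorem W28772 : WFK w28772 := fun D T h => wf_of_chk h (mem_cons (W461 D T h) mem_nil) mem_nil cw28772
theorem W28773 : WFK w28773 := fun D T h => wf_of_chk h (mem_cons (W8676 D T h) (mem_cons (W15784 D T h) mem_nil)) mem_nil cw28773
theorem L6409 : LFK l6409 := fun D T h => lf_of_chk h (mem_cons (W181 D T h) (mem_cons (W16 D T h) (mem_cons (W14 D T h) (mem_cons (W67 D T h) (mem_cons (W143 D T h) (mem_cons (W15784 D T h) (mem_cons (W1307 D T h) (mem_cons (W259 D T h) (mem_cons (W10766 D T h) (mem_cons (W28772 D T h) (mem_cons (W937 D T h) (mem_cons (W1303 D T h) (mem_cons (W28692 D T h) (mem_cons (W28693 D T h) (mem_cons (W8988 D T h) (mem_cons (W12125 D T h) (mem_cons (W8625 D T h) (mem_cons (W28712 D T h) (mem_cons (W2922 D T h) (mem_cons (W2921 D T h) (mem_cons (W28773 D T h) (mem_cons (W1070 D T h) mem_nil)))))))))))))))))))))) cl6409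
theorem W28774 : WFK w28774 := fun D T h => wf_of_chk h mem_nil (mem_cons (L6409 D T h) mem_nil) cw28774
theorem L6410 : LFK l6410 := fun D T h => lf_of_chk h (mem_cons (W16 D T h) (mem_cons (W42 D T h) (mem_cons (W6714 D T h) (mem_cons (W2015 D T h) (mem_cons (W28769 D T h) (mem_cons (W28770 D T h) (mem_cons (W19845 D T h) (mem_cons (W28774 D T h) (mem_cons (W28705 D T h) (mem_cons (W220 D T h) (mem_cons (W15 D T h) (mem_cons (W28695 D T h) (mem_cons (W7212 D T h) mem_nil))))))))))))) cl6410
theorem W28775 : WFK w28775 := fun D T h => wf_of_chk h mem_nil (mem_cons (L6410 D T h) mem_nil) cw28775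
theorem L6412 : LFK l6412 := fun D T h => lf_of_chk h (mem_cons (W28695 D T h) (mem_cons (W1313 D T h) (mem_cons (W8590 D T h) (mem_cons (W15 D T h) (mem_cons (W220 D T h) (mem_cons (W15704 D T h) (mem_cons (W17 D T h) (mem_cons (W8630 D T h) (mem_cons (W3878 D T h) (mem_cons (W42 D T h) (mem_cons (W164 D T h) (mem_cons (W4413 D T h) (mem_cons (W209 D T h) (mem_cons (W8640 D T h) mem_nil)))))))))))))) cl6412
theorem W28779 : WFK w28779 := fun D T h => wf_of_chk h mem_nil (mem_cons (L6412 D T h) mem_nil) cw28779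
theorem L6413 : LFK l6413 := fun D T h => lf_of_chk h (mem_cons (W28696 D T h) (mem_cons (W15806 D T h) (mem_cons (W16019 D T h) (mem_cons (W16 D T h) (mem_cons (W1408 D T h) (mem_cons (W3410 D T h) (mem_cons (W28779 D T h) (mem_cons (W28744 D T h) (mem_cons (W28749 D T h) (mem_cons (W42 D T h) (mem_cons (W3304 D T h) (mem_cons (W3305 D T h) (mem_cons (W28775 D T h) (mem_cons (W28737 D T h) (mem_cons (W15905 D T h) (mem_cons (W15810 D T h) (mem_cons (W15784 D T h) (mem_cons (W28691 D T h) (mem_cons (W28707 D T h) (mem_cons (W28714 D T h) (mem_cons (W28716 D T h) (mem_cons (W1318 D T h) (mem_cons (W28717 D T h) (mem_cons (W28718 D T h) (mem_cons (W28719 D T h) (mem_cons (W16233 D T h) (mem_cons (W28720 D T h) (mem_cons (W28721 D T h) (mem_cons (W28722 D T h) (mem_cons (W28695 D T h) (mem_cons (W15708 D T h) (mem_cons (W28723 D T h) mem_nil)))))))))))))))))))))))))))))))) cl6413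
theorem W28780 : WFK w28780 := fun D T h => wf_of_chk h mem_nil (mem_cons (L6413 D T h) mem_nil) cw28780
theorem W28781 : WFK w28781 := fun D T h => wf_of_chk h mem_nil (mem_cons (L6413 D T h) mem_nil) cw28781
theorem L6414 : LFK l6414 := fun D T h => lf_of_chk h (mem_cons (W10531 D T h) (mem_cons (W667 D T h) (mem_cons (W669 D T h) (mem_cons (W50 D T h) (mem_cons (W17 D T h) (mem_cons (W1275 D T h) (mem_cons (W3335 D T h) (mem_cons (W27037 D T h) (mem_cons (W26937 D T h) (mem_cons (W3 D T h) (mem_cons (W17908 D T h) mem_nil))))))))))) cl6414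
theorem W28782 : WFK w28782 := fun D T h => wf_of_chk h mem_nil (mem_cons (L6414 D T h) mem_nil) cw28782
theorem L6415 : LFK l6415 := fun D T h => lf_of_chk h (mem_cons (W15810 D T h) (mem_cons (W15905 D T h) (mem_cons (W2370 D T h) (mem_cons (W2059 D T h) (mem_cons (W50 D T h) (mem_cons (W27037 D T h) (mem_cons (W26937 D T h) (mem_cons (W26772 D T h) (mem_cons (W8608 D T h) (mem_cons (W804 D T h) (mem_cons (W1408 D T h) (mem_cons (W7130 D T h) (mem_cons (W7129 D T h) (mem_cons (W17266 D T h) (mem_cons (W26019 D T h) (mem_cons (W3395 D T h) (mem_cons (W284 D T h) (mem_cons (W18617 D T h) (mem_cons (W8852 D T h) (mem_cons (W28782 D T h) (mem_cons (W28669 D T h) (mem_cons (W22427 D T h) (mem_cons (W3766 D T h) (mem_cons (W11995 D T h) (mem_cons (W10896 D T h) (mem_cons (W10898 D T h) (mem_cons (W2326 D T h) mem_nil))))))))))))))))))))))))))) cl6415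
theorem W28783 : WFK w28783 := fun D T h => wf_of_chk h mem_nil (mem_cons (L6415 D T h) mem_nil) cw28783
theorem W28784 : WFK w28784 := fun D T h => wf_of_chk h (mem_cons (W27523 D T h) (mem_cons (W16 D T h) mem_nil)) mem_nil cw28784
theorem L6416 : LFK l6416 := fun D T h => lf_of_chk h (mem_cons (W18360 D T h) (mem_cons (W3125 D T h) (mem_cons (W6956 D T h) (mem_cons (W5197 D T h) (mem_cons (W3013 D T h) (mem_cons (W16 D T h) (mem_cons (W9731 D T h) (mem_cons (W5721 D T h) (mem_cons (W9732 D T h) (mem_cons (W22586 D T h) (mem_cons (W22433 D T h) (mem_cons (W9745 D T h) (mem_cons (W2037 D T h) (mem_cons (W9741 D T h) (mem_cons (W7119 D T h) (mem_cons (W9722 D T h) (mem_cons (W9723 D T h) (mem_cons (W2015 D T h) (mem_cons (W9733 D T h) (mem_cons (W12203 D T h) (mem_cons (W9734 D T h) (mem_cons (W10425 D T h) (mem_cons (W9724 D T h) (mem_cons (W1357 D T h) (mem_cons (W9727 D T h) (mem_cons (W9726 D T h) (mem_cons (W128 D T h) (mem_cons (W9728 D T h) (mem_cons (W9730 D T h) (mem_cons (W18434 D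 T h) (mem_cons (W8233 D T h) (mem_cons (W8449 D T h) (mem_cons (W28784 D T h) (mem_cons (W9737 D T h) (mem_cons (W9738 D T h) mem_nil))))))))))))))))))))))))))))))))))) cl6416
theorem W28785 : WFK w28785 := fun D T h => wf_of_chk h mem_nil (mem_cons (L6416 D T h) mem_nil) cw28785
theorem W28786 : WFK w28786 := fun D T h => wf_of_chk h mem_nil (mem_cons (L3848 D T h) mem_nil) cw28786
theorem W28787 : WFK w28787 := fun D T h => wf_of_chk h mem_nil (mem_cons (L665 D T h) mem_nil) cw28787
theorem L6417 : LFK l6417 := fun D T h => lf_of_chk h (mem_cons (W7212 D T h) (mem_cons (W16 D T h) (mem_cons (W368 D T h) (mem_cons (W1 D T h) (mem_cons (W126 D T h) (mem_cons (W1386 D T h) (mem_cons (W1929 D T h) (mem_cons (W5606 D T h) (mem_cons (W22479 D T h) (mem_cons (W28757 D T h) (mem_cons (W9760 D T h) (mem_cons (W23420 D T h) (mem_cons (W3409 D T h) (mem_cons (W28787 D T h) (mem_cons (W69 D T h) (mem_cons (W9754 D T h) (mem_cons (W9757 D T h) (mem_cons (W9758 D T h) mem_nil)))))))))))))))))) cl6417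
theorem W28788 : WFK w28788 := fun D T h => wf_of_chk h mem_nil (mem_cons (L6417 D T h) mem_nil) cw28788
theorem W28789 : WFK w28789 := fun D T h => wf_of_chk h mem_nil (mem_cons (L6417 D T h) mem_nil) cw28789
theorem W28790 : WFK w28790 := fun D T h => wf_of_chk h mem_nil (mem_cons (L6417 D T h) mem_nil) cw28790
theorem L6418 : LFK l6418 := fun D T h => lf_of_chk h (mem_cons (W10363 D T h) (mem_cons (W1566 D T h) (mem_cons (W10372 D T h) (mem_cons (W10373 D T h) (mem_cons (W10073 D T h) (mem_cons (W798 D T h) (mem_cons (W10366 D T h) (mem_cons (W161 D T h) (mem_cons (W16 D T h) (mem_cons (W1398 D T h) (mem_cons (W2918 D T h) (mem_cons (W1311 D T h) (mem_cons (W932 D T h) (mem_cons (W10364 D T h) (mem_cons (W10365 D T h) (mem_cons (W10356 D T h) (mem_cons (W24514 D T h) (mem_cons (W7212 D T h) (mem_cons (W461 D T h) (mem_cons (W5622 D T h) (mem_cons (W1409 D T h) (mem_cons (W10370 D T h) (mem_cons (W28790 D T h) (mem_cons (W10367 D T h) (mem_cons (W2015 D T h) (mem_cons (W25040 D T h) (mem_cons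 (W10772 D T h) (mem_cons (W22689 D T h) (mem_cons (W10379 D T h) (mem_cons (W10353 D T h) (mem_cons (W10380 D T h) mem_nil))))))))))))))))))))))))))))))) cl6418
theorem W28791 : WFK w28791 := fun D T h => wf_of_chk h mem_nil (mem_cons (L6418 D T h) mem_nil) cw28791
theorem L6419 : LFK l6419 := fun D T h => lf_of_chk h (mem_cons (W28790 D T h) (mem_cons (W1566 D T h) (mem_cons (W10382 D T h) (mem_cons (W10373 D T h) (mem_cons (W10363 D T h) (mem_cons (W3199 D T h) (mem_cons (W219 D T h) (mem_cons (W1945 D T h) (mem_cons (W281 D T h) (mem_cons (W16 D T h) (mem_cons (W1398 D T h) (mem_cons (W2912 D T h) (mem_cons (W6591 D T h) (mem_cons (W2925 D T h) (mem_cons (W932 D T h) (mem_cons (W10375 D T h) (mem_cons (W10376 D T h) (mem_cons (W10377 D T h) (mem_cons (W24514 D T h) (mem_cons (W7212 D T h) (mem_cons (W461 D T h) (mem_cons (W5622 D T h) (mem_cons (W10381 D T h) (mem_cons (W10378 D T h) (mem_cons (W2015 D T h) (mem_cons (W10772 D T h) (mem_cons (W22689 D T h) (mem_cons (W10379 D T h) (mem_cons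 (W10353 D T h) (mem_cons (W10380 D T h) mem_nil)))))))))))))))))))))))))))))) cl6419
theorem W28792 : WFK w28792 := fun D T h => wf_of_chk h mem_nil (mem_cons (L6419 D T h) mem_nil) cw28792
theorem L6420 : LFK l6420 := fun D T h => lf_of_chk h (mem_cons (W39 D T h) (mem_cons (W651 D T h) (mem_cons (W652 D T h) (mem_cons (W111 D T h) (mem_cons (W7212 D T h) (mem_cons (W143 D T h) (mem_cons (W18309 D T h) (mem_cons (W10099 D T h) (mem_cons (W7549 D T h) (mem_cons (W6204 D T h) (mem_cons (W5358 D T h) (mem_cons (W650 D T h) mem_nil)))))))))))) cl6420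
theorem W28793 : WFK w28793 := fun D T h => wf_of_chk h mem_nil (mem_cons (L6420 D T h) mem_nil) cw28793
theorem L6421 : LFK l6421 := fun D T h => lf_of_chk h (mem_cons (W2015 D T h) (mem_cons (W3356 D T h) (mem_cons (W581 D T h) (mem_cons (W669 D T h) (mem_cons (W667 D T h) (mem_cons (W9758 D T h) (mem_cons (W1929 D T h) (mem_cons (W461 D T h) (mem_cons (W642 D T h) (mem_cons (W28793 D T h) (mem_cons (W10397 D T h) (mem_cons (W433 D T h) mem_nil)))))))))))) cl6421
theorem W28794 : WFK w28794 := fun D T h => wf_of_chk h mem_nil (mem_cons (L6421 D T h) mem_nil) cw28794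
theorem W28795 : WFK w28795 := fun D T h => wf_of_chk h (mem_cons (W15905 D T h) (mem_cons (W128 D T h) mem_nil)) mem_nil cw28795
theorem L6422 : LFK l6422 := fun D T h => lf_of_chk h (mem_cons (W15784 D T h) (mem_cons (W15786 D T h) (mem_cons (W15 D T h) (mem_cons (W220 D T h) (mem_cons (W17 D T h) (mem_cons (W16932 D T h) (mem_cons (W7212 D T h) (mem_cons (W1398 D T h) mem_nil)))))))) cl6422
theorem W28796 : WFK w28796 := fun D T h => wf_of_chk h mem_nil (mem_cons (L6422 D T h) mem_nil) cw28796
theorem W28797 : WFK w28797 := fun D T h => wf_of_chk h (mem_cons (W15905 D T h) (mem_cons (W128 D T h) mem_nil)) mem_nil cw28797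
theorem W28798 : WFK w28798 := fun D T h => wf_of_chk h (mem_cons (W1070 D T h) (mem_cons (W15905 D T h) mem_nil)) mem_nil cw28798
theorem W28799 : WFK w28799 := fun D T h => wf_of_chk h mem_nil (mem_cons (L1939 D T h) mem_nil) cw28799
theorem W28800 : WFK w28800 := fun D T h => wf_of_chk h mem_nil (mem_cons (L4095 D T h) mem_nil) cw28800
theorem L6423 : LFK l6423 := fun D T h => lf_of_chk h (mem_cons (W2015 D T h) (mem_cons (W3356 D T h) (mem_cons (W581 D T h) (mem_cons (W669 D T h) (mem_cons (W667 D T h) (mem_cons (W9758 D T h) (mem_cons (W1929 D T h) (mem_cons (W461 D T h) (mem_cons (W642 D T h) (mem_cons (W10396 D T h) (mem_cons (W28798 D T h) (mem_cons (W220 D T h) (mem_cons (W154 D T h) (mem_cons (W28799 D T h) (mem_cons (W28800 D T h) (mem_cons (W433 D T h) mem_nil)))))))))))))))) cl6423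
theorem W28801 : WFK w28801 := fun D T h => wf_of_chk h mem_nil (mem_cons (L6423 D T h) mem_nil) cw28801
theorem L6424 : LFK l6424 := fun D T h => lf_of_chk h (mem_cons (W10358 D T h) (mem_cons (W435 D T h) (mem_cons (W10384 D T h) (mem_cons (W10385 D T h) (mem_cons (W10386 D T h) (mem_cons (W15784 D T h) (mem_cons (W2326 D T h) (mem_cons (W10394 D T h) (mem_cons (W10395 D T h) (mem_cons (W28794 D T h) (mem_cons (W28795 D T h) (mem_cons (W28796 D T h) (mem_cons (W28797 D T h) (mem_cons (W28801 D T h) (mem_cons (W667 D T h) (mem_cons (W669 D T h) (mem_cons (W10348 D T h) (mem_cons (W128 D T h) (mem_cons (W9771 D T h) (mem_cons (W1166 D T h) (mem_cons (W18146 D T h) (mem_cons (W23760 D T h) (mem_cons (W5721 D T h) (mem_cons (W23761 D T h) (mem_cons (W9740 D T h) (mem_cons (W28387 D T h) (mem_cons (W28786 D T h) (mem_cons (W28788 D T h) (mem_cons (W2015 D T h) (mem_cons (W28789 D T h) (mem_cons (W10362 D T h) (mem_cons (W2037 D T h) (mem_cons (W28791 D T h) (mem_cons (W21466 D T h) (mem_cons (W28792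 D T h) (mem_cons (W10349 D T h) (mem_cons (W10772 D T h) (mem_cons (W8449 D T h) (mem_cons (W10350 D T h) (mem_cons (W10354 D T h) (mem_cons (W10355 D T h) mem_nil))))))))))))))))))))))))))))))))))))))))) cl6424
theorem W28802 : WFK w28802 := fun D T h => wf_of_chk h mem_nil (mem_cons (L6424 D T h) mem_nil) cw28802
theorem L6425 : LFK l6425 := fun D T h => lf_of_chk h (mem_cons (W10404 D T h) (mem_cons (W177 D T h) (mem_cons (W10402 D T h) (mem_cons (W10403 D T h) (mem_cons (W667 D T h) (mem_cons (W669 D T h) (mem_cons (W3905 D T h) (mem_cons (W8977 D T h) (mem_cons (W37 D T h) (mem_cons (W3410 D T h) (mem_cons (W9720 D T h) (mem_cons (W17873 D T h) (mem_cons (W2963 D T h) (mem_cons (W10405 D T h) (mem_cons (W2321 D T h) (mem_cons (W284 D T h) (mem_cons (W28802 D T h) (mem_cons (W10400 D T h) (mem_cons (W18192 D T h) (mem_cons (W10401 D T h) (mem_cons (W5222 D T h) (mem_cons (W7119 D T h) (mem_cons (W28785 D T h) (mem_cons (W7044 D T h) (mem_cons (W7159 D T h) (mem_cons (W6990 D T h) (mem_cons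 (W9753 D T h) (mem_cons (W2318 D T h) (mem_cons (W2015 D T h) (mem_cons (W10772 D T h) (mem_cons (W8449 D T h) (mem_cons (W7582 D T h) (mem_cons (W7228 D T h) mem_nil))))))))))))))))))))))))))))))))) cl6425
theorem W28803 : WFK w28803 := fun D T h => wf_of_chk h mem_nil (mem_cons (L6425 D T h) mem_nil) cw28803
theorem W28804 : WFK w28804 := fun D T h => wf_of_chk h mem_nil (mem_cons (L6417 D T h) mem_nil) cw28804
theorem L6426 : LFK l6426 := fun D T h => lf_of_chk h (mem_cons (W2934 D T h) (mem_cons (W12203 D T h) (mem_cons (W9413 D T h) (mem_cons (W15828 D T h) (mem_cons (W42 D T h) (mem_cons (W164 D T h) (mem_cons (W16 D T h) (mem_cons (W3410 D T h) (mem_cons (W19846 D T h) (mem_cons (W16078 D T h) (mem_cons (W12199 D T h) (mem_cons (W21487 D T h) (mem_cons (W220 D T h) (mem_cons (W15773 D T h) (mem_cons (W6776 D T h) (mem_cons (W12197 D T h) (mem_cons (W5277 D T h) (mem_cons (W26820 D T h) (mem_cons (W28804 D T h) (mem_cons (W26256 D T h) (mem_cons (W25236 D T h) (mem_cons (W12201 D T h)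 (mem_cons (W11108 D T h) (mem_cons (W2936 D T h) mem_nil)))))))))))))))))))))))) cl6426
theorem W28805 : WFK w28805 := fun D T h => wf_of_chk h mem_nil (mem_cons (L6426 D T h) mem_nil) cw28805
theorem W28806 : WFK w28806 := fun D T h => wf_of_chk h (mem_cons (W3766 D T h) (mem_cons (W16 D T h) mem_nil)) mem_nil cw28806
theorem W28808 : WFK w28808 := fun D T h => wf_of_chk h (mem_cons (W281 D T h) (mem_cons (W9025 D T h) mem_nil)) mem_nil cw28808
theorem L6427 : LFK l6427 := fun D T h => lf_of_chk h (mem_cons (W15786 D T h) (mem_cons (W23264 D T h) (mem_cons (W9005 D T h) (mem_cons (W126 D T h) (mem_cons (W28808 D T h) (mem_cons (W22196 D T h) (mem_cons (W15760 D T h) (mem_cons (W1 D T h) (mem_cons (W69 D T h) mem_nil))))))))) cl6427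
theorem W28809 : WFK w28809 := fun D T h => wf_of_chk h mem_nil (mem_cons (L6427 D T h) mem_nil) cw28809
theorem L6428 : LFK l6428 := fun D T h => lf_of_chk h (mem_cons (W28223 D T h) (mem_cons (W15806 D T h) (mem_cons (W16019 D T h) (mem_cons (W16 D T h) (mem_cons (W21894 D T h) (mem_cons (W2037 D T h) (mem_cons (W8783 D T h) (mem_cons (W21883 D T h) (mem_cons (W284 D T h) (mem_cons (W2934 D T h) (mem_cons (W21989 D T h) (mem_cons (W18184 D T h) (mem_cons (W2219 D T h) (mem_cons (W15784 D T h) (mem_cons (W17892 D T h) (mem_cons (W28212 D T h) (mem_cons (W28220 D T h) (mem_cons (W17873 D T h) (mem_cons (W22300 D T h) (mem_cons (W28216 D T h) (mem_cons (W15883 D T h) (mem_cons (W12252 D T h) (mem_cons (W15884 D T h) (mem_cons (W8438 D T h) (mem_cons (W28806 D T h) (mem_cons (W9025 D T h) (mem_cons (W15829 D T h) (mem_cons (W28809 D T h) (mem_cons (W28225 D T h) (mem_cons (W26716 D T h) (mem_cons (W28226 D T h) (mem_cons (W28227 D T h) mem_nil)))))))))))))))))))))))))))))))) cl6428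
theorem W28810 : WFK w28810 := fun D T h => wf_of_chk h mem_nil (mem_cons (L6428 D T h) mem_nil) cw28810
theorem W28811 : WFK w28811 := fun D T h => wf_of_chk h (mem_cons (W17873 D T h) (mem_cons (W16 D T h) mem_nil)) mem_nil cw28811
theorem W28812 : WFK w28812 := fun D T h => wf_of_chk h (mem_cons (W17873 D T h) mem_nil) mem_nil cw28812
theorem W28813 : WFK w28813 := fun D T h => wf_of_chk h (mem_cons (W15061 D T h) (mem_cons (W16 D T h) mem_nil)) mem_nil cw28813
theorem L6429 : LFK l6429 := fun D T h => lf_of_chk h (mem_cons (W15786 D T h) (mem_cons (W15554 D T h) (mem_cons (W15760 D T h) (mem_cons (W1 D T h) (mem_cons (W69 D T h) (mem_cons (W28812 D T h) (mem_cons (W126 D T h) (mem_cons (W9005 D T h) (mem_cons (W28813 D T h) mem_nil))))))))) cl6429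
theorem W28814 : WFK w28814 := fun D T h => wf_of_chk h mem_nil (mem_cons (L6429 D T h) mem_nil) cw28814
theorem W28815 : WFK w28815 := fun D T h => wf_of_chk h (mem_cons (W162 D T h) (mem_cons (W17873 D T h) mem_nil)) mem_nil cw28815
theorem W28816 : WFK w28816 := fun D T h => wf_of_chk h (mem_cons (W164 D T h) (mem_cons (W455 D T h) mem_nil)) mem_nil cw28816
theorem W28817 : WFK w28817 := fun D T h => wf_of_chk h mem_nil (mem_cons (L3428 D T h) mem_nil) cw28817
theorem W28818 : WFK w28818 := fun D T h => wf_of_chk h (mem_cons (W17530 D T h) (mem_cons (W16 D T h) mem_nil)) mem_nil cw28818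
theorem L6430 : LFK l6430 := fun D T h => lf_of_chk h (mem_cons (W21896 D T h) (mem_cons (W15806 D T h) (mem_cons (W167 D T h) (mem_cons (W7303 D T h) (mem_cons (W16 D T h) (mem_cons (W3396 D T h) (mem_cons (W15554 D T h) (mem_cons (W28814 D T h) (mem_cons (W28815 D T h) (mem_cons (W9025 D T h) (mem_cons (W2934 D T h) (mem_cons (W28811 D T h) (mem_cons (W26549 D T h) (mem_cons (W15784 D T h) (mem_cons (W18157 D T h) (mem_cons (W15883 D T h) (mem_cons (W12252 D T h) (mem_cons (W28810 D T h) (mem_cons (W28220 D T h) (mem_cons (W28817 D T h) (mem_cons (W11093 D T h) (mem_cons (W28223 D T h) (mem_cons (W28818 D T h) (mem_cons (W22433 D T h) (mem_cons (W17530 D T h) (mem_cons (W8804 D T h) (mem_cons (W11040 D T h) (mem_cons (W22245 D T h) (mem_cons (W26559 D T h) (mem_cons (W28684 D T h) (mem_cons (W1318 D T h) (mem_cons (W28816 D T h) mem_nil)))))))))))))))))))))))))))))))) cl6430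
theorem W28819 : WFK w28819 := fun D T h => wf_of_chk h mem_nil (mem_cons (L6430 D T h) mem_nil) cw28819
theorem W28820 : WFK w28820 := fun D T h => wf_of_chk h (mem_cons (W7466 D T h) (mem_cons (W16 D T h) mem_nil)) mem_nil cw28820
theorem W28821 : WFK w28821 := fun D T h => wf_of_chk h (mem_cons (W114 D T h) (mem_cons (W16 D T h) mem_nil)) mem_nil cw28821
theorem L6431 : LFK l6431 := fun D T h => lf_of_chk h (mem_cons (W15784 D T h) (mem_cons (W15806 D T h) (mem_cons (W7212 D T h) (mem_cons (W42 D T h) (mem_cons (W10772 D T h) (mem_cons (W2015 D T h) (mem_cons (W16 D T h) (mem_cons (W8417 D T h) (mem_cons (W15786 D T h) (mem_cons (W220 D T h) (mem_cons (W15 D T h) mem_nil))))))))))) cl6431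
theorem W28822 : WFK w28822 := fun D T h => wf_of_chk h mem_nil (mem_cons (L6431 D T h) mem_nil) cw28822
theorem W28823 : WFK w28823 := fun D T h => wf_of_chk h mem_nil (mem_cons (L3449 D T h) mem_nil) cw28823
theorem W28824 : WFK w28824 := fun D T h => wf_of_chk h mem_nil (mem_cons (L3449 D T h) mem_nil) cw28824
theorem L6432 : LFK l6432 := fun D T h => lf_of_chk h (mem_cons (W15968 D T h) (mem_cons (W3912 D T h) (mem_cons (W8763 D T h) (mem_cons (W337 D T h) (mem_cons (W2839 D T h) (mem_cons (W16 D T h) (mem_cons (W1502 D T h) (mem_cons (W18184 D T h) (mem_cons (W37 D T h) (mem_cons (W21706 D T h) (mem_cons (W28823 D T h) (mem_cons (W28824 D T h) (mem_cons (W15552 D T h) (mem_cons (W15784 D T h) (mem_cons (W18080 D T h) (mem_cons (W15883 D T h) (mem_cons (W12252 D T h) (mem_cons (W28820 D T h) (mem_cons (W284 D T h) (mem_cons (W8286 D T h) (mem_cons (W2934 D T h) (mem_cons (W17873 D T h) (mem_cons (W12290 D T h) (mem_cons (W20207 D T h) (mem_cons (W28821 D T h) (mem_cons (W15828 D T h) (mem_cons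 (W22245 D T h) (mem_cons (W12262 D T h) (mem_cons (W28822 D T h) (mem_cons (W12222 D T h) (mem_cons (W12508 D T h) (mem_cons (W12509 D T h) mem_nil)))))))))))))))))))))))))))))))) cl6432
theorem W28825 : WFK w28825 := fun D T h => wf_of_chk h mem_nil (mem_cons (L6432 D T h) mem_nil) cw28825
theorem L6433 : LFK l6433 := fun D T h => lf_of_chk h (mem_cons (W3335 D T h) (mem_cons (W16 D T h) (mem_cons (W50 D T h) (mem_cons (W17 D T h) (mem_cons (W27037 D T h) (mem_cons (W26937 D T h) (mem_cons (W3 D T h) (mem_cons (W17547 D T h) (mem_cons (W23 D T h) (mem_cons (W1397 D T h) (mem_cons (W28724 D T h) mem_nil))))))))))) cl6433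
theorem W28826 : WFK w28826 := fun D T h => wf_of_chk h mem_nil (mem_cons (L6433 D T h) mem_nil) cw28826
theorem L6434 : LFK l6434 := fun D T h => lf_of_chk h (mem_cons (W1318 D T h) (mem_cons (W177 D T h) (mem_cons (W2370 D T h) (mem_cons (W2059 D T h) (mem_cons (W50 D T h) (mem_cons (W8608 D T h) (mem_cons (W804 D T h) (mem_cons (W1408 D T h) (mem_cons (W3410 D T h) (mem_cons (W7996 D T h) (mem_cons (W1336 D T h) (mem_cons (W3396 D T h) (mem_cons (W284 D T h) (mem_cons (W3335 D T h) (mem_cons (W6469 D T h) (mem_cons (W18617 D T h) (mem_cons (W6972 D T h) (mem_cons (W28826 D T h) (mem_cons (W28669 D T h) (mem_cons (W22427 D T h) (mem_cons (W42 D T h) (mem_cons (W11995 D T h) (mem_cons (W8450 D T h) (mem_cons (W8449 D T h) mem_nil)))))))))))))))))))))))) cl6434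
theorem W28827 : WFK w28827 := fun D T h => wf_of_chk h mem_nil (mem_cons (L6434 D T h) mem_nil) cw28827
theorem W28828 : WFK w28828 := fun D T h => wf_of_chk h (mem_cons (W1318 D T h) mem_nil) mem_nil cw28828
theorem W28829 : WFK w28829 := fun D T h => wf_of_chk h mem_nil (mem_cons (L5926 D T h) mem_nil) cw28829
theorem W28830 : WFK w28830 := fun D T h => wf_of_chk h (mem_cons (W1291 D T h) (mem_cons (W1318 D T h) mem_nil)) mem_nil cw28830
theorem L6435 : LFK l6435 := fun D T h => lf_of_chk h (mem_cons (W4020 D T h) (mem_cons (W3942 D T h) (mem_cons (W4018 D T h) (mem_cons (W3994 D T h) (mem_cons (W16 D T h) (mem_cons (W12186 D T h) (mem_cons (W10868 D T h) (mem_cons (W804 D T h) (mem_cons (W3905 D T h) (mem_cons (W26716 D T h) (mem_cons (W2990 D T h) (mem_cons (W2989 D T h) (mem_cons (W3910 D T h) (mem_cons (W3909 D T h) (mem_cons (W8977 D T h) (mem_cons (W28830 D T h) (mem_cons (W284 D T h) (mem_cons (W3911 D T h) (mem_cons (W3938 D T h) (mem_cons (W18192 D T h) (mem_cons (W3929 D T h) (mem_cons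 (W2991 D T h) (mem_cons (W9608 D T h) (mem_cons (W28828 D T h) (mem_cons (W2024 D T h) (mem_cons (W3396 D T h) (mem_cons (W3908 D T h) (mem_cons (W18782 D T h) (mem_cons (W21133 D T h) (mem_cons (W11783 D T h) (mem_cons (W9702 D T h) (mem_cons (W28829 D T h) mem_nil)))))))))))))))))))))))))))))))) cl6435
theorem W28831 : WFK w28831 := fun D T h => wf_of_chk h mem_nil (mem_cons (L6435 D T h) mem_nil) cw28831
theorem L6436 : LFK l6436 := fun D T h => lf_of_chk h (mem_cons (W16 D T h) (mem_cons (W1295 D T h) (mem_cons (W1298 D T h) (mem_cons (W15 D T h) (mem_cons (W220 D T h) (mem_cons (W1299 D T h) (mem_cons (W37 D T h) (mem_cons (W3878 D T h) (mem_cons (W42 D T h) (mem_cons (W10772 D T h) (mem_cons (W2015 D T h) (mem_cons (W7212 D T h) mem_nil)))))))))))) cl6436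
theorem W28832 : WFK w28832 := fun D T h => wf_of_chk h mem_nil (mem_cons (L6436 D T h) mem_nil) cw28832
theorem W28833 : WFK w28833 := fun D T h => wf_of_chk h mem_nil (mem_cons (L6417 D T h) mem_nil) cw28833
theorem L6437 : LFK l6437 := fun D T h => lf_of_chk h (mem_cons (W9741 D T h) (mem_cons (W9611 D T h) (mem_cons (W12732 D T h) (mem_cons (W3222 D T h) (mem_cons (W7790 D T h) (mem_cons (W12728 D T h) (mem_cons (W16 D T h) (mem_cons (W9731 D T h) (mem_cons (W5721 D T h) (mem_cons (W9732 D T h) (mem_cons (W6326 D T h) (mem_cons (W28789 D T h) (mem_cons (W7827 D T h) (mem_cons (W12734 D T h) (mem_cons (W28833 D T h) (mem_cons (W12820 D T h) (mem_cons (W2015 D T h) (mem_cons (W3617 D T h) (mem_cons (W12203 D T h) (mem_cons (W2037 D T h) (mem_cons (W12730 D T h) (mem_cons (W12731 D T h) (mem_cons (W4209 D T h) (mem_cons (W12722 D T h) (mem_cons (W12723 D T h) (mem_cons (W12725 D T h) (mem_cons (W128 D T h) (mem_cons (W12726 D T h) (mem_cons (W12727 D T h) (mem_cons (W12733 D T h) (mem_cons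 (W10772 D T h) mem_nil))))))))))))))))))))))))))))))) cl6437
theorem W28834 : WFK w28834 := fun D T h => wf_of_chk h mem_nil (mem_cons (L6437 D T h) mem_nil) cw28834
theorem W28840 : WFK w28840 := fun D T h => wf_of_chk h mem_nil (mem_cons (L6416 D T h) mem_nil) cw28840
theorem W28841 : WFK w28841 := fun D T h => wf_of_chk h mem_nil (mem_cons (L6437 D T h) mem_nil) cw28841
theorem W28842 : WFK w28842 := fun D T h => wf_of_chk h mem_nil (mem_cons (L5546 D T h) mem_nil) cw28842
theorem W28843 : WFK w28843 := fun D T h => wf_of_chk h mem_nil (mem_cons (L5546 D T h) mem_nil) cw28843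
theorem W28844 : WFK w28844 := fun D T h => wf_of_chk h mem_nil (mem_cons (L5546 D T h) mem_nil) cw28844
theorem L6438 : LFK l6438 := fun D T h => lf_of_chk h (mem_cons (W8449 D T h) (mem_cons (W495 D T h) (mem_cons (W497 D T h) (mem_cons (W8269 D T h) (mem_cons (W1068 D T h) (mem_cons (W2709 D T h) (mem_cons (W1063 D T h) (mem_cons (W42 D T h) (mem_cons (W7084 D T h) (mem_cons (W16 D T h) (mem_cons (W2520 D T h) (mem_cons (W11960 D T h) (mem_cons (W22481 D T h) (mem_cons (W18458 D T h) (mem_cons (W2015 D T h) (mem_cons (W10772 D T h) (mem_cons (W1449 D T h) (mem_cons (W8270 D T h) (mem_cons (W24220 D T h) (mem_cons (W22684 D T h) (mem_cons (W8262 D T h) (mem_cons (W7076 D T h) (mem_cons (W581 D T h) (mem_cons (W1326 D T h) (mem_cons (W7078 D T h) (mem_cons (W28842 D T h) (mem_cons (W28843 D T h) (mem_cons (W28844 D T h) mem_nil)))))))))))))))))))))))))))) cl6438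
theorem W28845 : WFK w28845 := fun D T h => wf_of_chk h mem_nil (mem_cons (L6438 D T h) mem_nil) cw28845
theorem W28846 : WFK w28846 := fun D T h => wf_of_chk h mem_nil (mem_cons (L3137 D T h) mem_nil) cw28846
theorem W28847 : WFK w28847 := fun D T h => wf_of_chk h mem_nil (mem_cons (L1631 D T h) mem_nil) cw28847
theorem L6439 : LFK l6439 := fun D T h => lf_of_chk h (mem_cons (W10772 D T h) (mem_cons (W8247 D T h) (mem_cons (W12631 D T h) (mem_cons (W2729 D T h) (mem_cons (W153 D T h) (mem_cons (W2732 D T h) (mem_cons (W8233 D T h) (mem_cons (W3619 D T h) (mem_cons (W2015 D T h) (mem_cons (W3878 D T h) (mem_cons (W39 D T h) (mem_cons (W1929 D T h) (mem_cons (W28846 D T h) (mem_cons (W28847 D T h) (mem_cons (W26496 D T h) (mem_cons (W26519 D T h) (mem_cons (W1326 D T h) (mem_cons (W1555 D T h) (mem_cons (W10769 D T h) (mem_cons (W19636 D T h) mem_nil)))))))))))))))))))) cl6439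
theorem W28848 : WFK w28848 := fun D T h => wf_of_chk h mem_nil (mem_cons (L6439 D T h) mem_nil) cw28848
theorem W28849 : WFK w28849 := fun D T h => wf_of_chk h (mem_cons (W710 D T h) (mem_cons (W19846 D T h) mem_nil)) mem_nil cw28849
theorem W28850 : WFK w28850 := fun D T h => wf_of_chk h (mem_cons (W710 D T h) (mem_cons (W19846 D T h) mem_nil)) mem_nil cw28850
theorem W28851 : WFK w28851 := fun D T h => wf_of_chk h (mem_cons (W126 D T h) (mem_cons (W19846 D T h) mem_nil)) mem_nil cw28851
theorem W28852 : WFK w28852 := fun D T h => wf_of_chk h mem_nil (mem_cons (L6417 D T h) mem_nil) cw28852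
theorem L6440 : LFK l6440 := fun D T h => lf_of_chk h (mem_cons (W9740 D T h) (mem_cons (W435 D T h) (mem_cons (W12808 D T h) (mem_cons (W12809 D T h) (mem_cons (W10386 D T h) (mem_cons (W12217 D T h) (mem_cons (W669 D T h) (mem_cons (W12810 D T h) (mem_cons (W12799 D T h) (mem_cons (W128 D T h) (mem_cons (W12800 D T h) (mem_cons (W4566 D T h) (mem_cons (W3688 D T h) (mem_cons (W16 D T h) (mem_cons (W209 D T h) (mem_cons (W1170 D T h) (mem_cons (W23760 D T h) (mem_cons (W5721 D T h) (mem_cons (W23761 D T h) (mem_cons (W28387 D T h) (mem_cons (W12786 D T h) (mem_cons (W12787 D T h) (mem_cons (W28852 D T h) (mem_cons (W2015 D T h) (mem_cons (W28789 D T h) (mem_cons (W12801 D T h) (mem_cons (W12802 D T h) (mem_cons (W10772 D T h) (mem_cons (W8449 D T h) (mem_cons (W10350 D T h) (mem_cons (W12803 D T h) (mem_cons (W10355 D T h) mem_nil)))))))))))))))))))))))))))))))) cl6440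
theorem W28853 : WFK w28853 := fun D T h => wf_of_chk h mem_nil (mem_cons (L6440 D T h) mem_nil) cw28853
theorem L6441 : LFK l6441 := fun D T h => lf_of_chk h (mem_cons (W15786 D T h) (mem_cons (W12168 D T h) (mem_cons (W69 D T h) (mem_cons (W1 D T h) (mem_cons (W15760 D T h) (mem_cons (W17153 D T h) (mem_cons (W91 D T h) (mem_cons (W15045 D T h) (mem_cons (W2717 D T h) (mem_cons (W28738 D T h) (mem_cons (W28739 D T h) (mem_cons (W114 D T h) (mem_cons (W2597 D T h) (mem_cons (W721 D T h) (mem_cons (W267 D T h) (mem_cons (W2404 D T h) mem_nil)))))))))))))))) cl6441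
theorem W28854 : WFK w28854 := fun D T h => wf_of_chk h mem_nil (mem_cons (L6441 D T h) mem_nil) cw28854
theorem W28855 : WFK w28855 := fun D T h => wf_of_chk h (mem_cons (W28854 D T h) (mem_cons (W16 D T h) mem_nil)) mem_nil cw28855
theorem L6442 : LFK l6442 := fun D T h => lf_of_chk h (mem_cons (W12834 D T h) (mem_cons (W5177 D T h) (mem_cons (W12831 D T h) (mem_cons (W12832 D T h) (mem_cons (W12833 D T h) (mem_cons (W12217 D T h) (mem_cons (W669 D T h) (mem_cons (W7856 D T h) (mem_cons (W12823 D T h) (mem_cons (W1188 D T h) (mem_cons (W2272 D T h) (mem_cons (W16 D T h) (mem_cons (W7632 D T h) (mem_cons (W682 D T h) (mem_cons (W27100 D T h) (mem_cons (W19846 D T h) (mem_cons (W28848 D T h) (mem_cons (W28849 D T h) (mem_cons (W28850 D T h) (mem_cons (W2015 D T h) (mem_cons (W12817 D T h) (mem_cons (W12818 D T h) (mem_cons (W12203 D T h) (mem_cons (W2037 D T h) (mem_cons (W12822 D T h) (mem_cons (W28851 D T h) (mem_cons (W4209 D T h) (mem_cons (W128 D T h) (mem_cons (W9771 D T h) (mem_cons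 (W12778 D T h) (mem_cons (W12779 D T h) (mem_cons (W12780 D T h) (mem_cons (W10973 D T h) (mem_cons (W12781 D T h) (mem_cons (W799 D T h) (mem_cons (W28853 D T h) (mem_cons (W12812 D T h) (mem_cons (W11864 D T h) (mem_cons (W3830 D T h) (mem_cons (W12814 D T h) (mem_cons (W12816 D T h) (mem_cons (W26453 D T h) (mem_cons (W26454 D T h) (mem_cons (W9976 D T h) (mem_cons (W6428 D T h) (mem_cons (W12819 D T h) (mem_cons (W12773 D T h) (mem_cons (W3815 D T h) (mem_cons (W3843 D T h) (mem_cons (W6925 D T h) (mem_cons (W12821 D T h) (mem_cons (W28792 D T h) (mem_cons (W12824 D T h) (mem_cons (W28855 D T h) (mem_cons (W10772 D T h) (mem_cons (W8449 D T h) (mem_cons (W12829 D T h) (mem_cons (W12830 D T h) mem_nil)))))))))))))))))))))))))))))))))))))))))))))))))))))))))) cl6442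
theorem W28856 : WFK w28856 := fun D T h => wf_of_chk h mem_nil (mem_cons (L6442 D T h) mem_nil) cw28856
theorem L6443 : LFK l6443 := fun D T h => lf_of_chk h (mem_cons (W12850 D T h) (mem_cons (W5177 D T h) (mem_cons (W12848 D T h) (mem_cons (W12849 D T h) (mem_cons (W12217 D T h) (mem_cons (W669 D T h) (mem_cons (W9609 D T h) (mem_cons (W3511 D T h) (mem_cons (W933 D T h) (mem_cons (W37 D T h) (mem_cons (W27100 D T h) (mem_cons (W19846 D T h) (mem_cons (W28845 D T h) (mem_cons (W27026 D T h) (mem_cons (W1291 D T h) (mem_cons (W19627 D T h) (mem_cons (W12845 D T h) (mem_cons (W12847 D T h) (mem_cons (W9025 D T h) (mem_cons (W28856 D T h) (mem_cons (W12836 D T h) (mem_cons (W3896 D T h) (mem_cons (W12837 D T h) (mem_cons (W10973 D T h) (mem_cons (W12715 D T h) (mem_cons (W12716 D T h) (mem_cons (W12717 D T h) (mem_cons (W12718 D T h) (mem_cons (W12719 D T h) (mem_cons (W8476 D T h) (mem_cons (W28833 D T h) (mem_cons (W12720 D T h) (mem_cons (W28834 D T h) (mem_cons (W12737 D T h) (mem_cons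 (W12767 D T h) (mem_cons (W28840 D T h) (mem_cons (W28841 D T h) (mem_cons (W12770 D T h) (mem_cons (W12838 D T h) (mem_cons (W2015 D T h) (mem_cons (W10772 D T h) (mem_cons (W8449 D T h) (mem_cons (W12839 D T h) (mem_cons (W12841 D T h) mem_nil)))))))))))))))))))))))))))))))))))))))))))) cl6443
theorem W28857 : WFK w28857 := fun D T h => wf_of_chk h mem_nil (mem_cons (L6443 D T h) mem_nil) cw28857
theorem W28858 : WFK w28858 := fun D T h => wf_of_chk h mem_nil (mem_cons (L2973 D T h) mem_nil) cw28858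
theorem W28859 : WFK w28859 := fun D T h => wf_of_chk h (mem_cons (W1326 D T h) mem_nil) mem_nil cw28859
theorem W28860 : WFK w28860 := fun D T h => wf_of_chk h (mem_cons (W69 D T h) (mem_cons (W1326 D T h) mem_nil)) mem_nil cw28860
theorem L6444 : LFK l6444 := fun D T h => lf_of_chk h (mem_cons (W15786 D T h) (mem_cons (W28859 D T h) (mem_cons (W126 D T h) (mem_cons (W9005 D T h) (mem_cons (W267 D T h) (mem_cons (W721 D T h) (mem_cons (W8559 D T h) (mem_cons (W114 D T h) (mem_cons (W28860 D T h) (mem_cons (W16366 D T h) (mem_cons (W15760 D T h) (mem_cons (W1 D T h) (mem_cons (W69 D T h) mem_nil))))))))))))) cl6444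
theorem W28861 : WFK w28861 := fun D T h => wf_of_chk h mem_nil (mem_cons (L6444 D T h) mem_nil) cw28861
theorem L6445 : LFK l6445 := fun D T h => lf_of_chk h (mem_cons (W15147 D T h) (mem_cons (W11772 D T h) (mem_cons (W7311 D T h) (mem_cons (W901 D T h) (mem_cons (W581 D T h) (mem_cons (W16 D T h) (mem_cons (W2254 D T h) (mem_cons (W26256 D T h) (mem_cons (W12873 D T h) (mem_cons (W12874 D T h) (mem_cons (W12875 D T h) (mem_cons (W2405 D T h) (mem_cons (W12876 D T h) (mem_cons (W12634 D T h) (mem_cons (W12925 D T h) (mem_cons (W5279 D T h) (mem_cons (W2015 D T h) (mem_cons (W10772 D T h) (mem_cons (W1449 D T h) (mem_cons (W12894 D T h) (mem_cons (W14930 D T h) (mem_cons (W5721 D T h) (mem_cons (W12820 D T h) (mem_cons (W3766 D T h) (mem_cons (W12896 D T h) (mem_cons (W12543 D T h) (mem_cons (W12897 D T h) (mem_cons (W7570 D T h) (mem_cons (W28861 D T h) mem_nil))))))))))))))))))))))))))))) cl6445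
theorem W28862 : WFK w28862 := fun D T h => wf_of_chk h mem_nil (mem_cons (L6445 D T h) mem_nil) cw28862
theorem L6446 : LFK l6446 := fun D T h => lf_of_chk h (mem_cons (W1397 D T h) mem_nil) cl6446
theorem W28863 : WFK w28863 := fun D T h => wf_of_chk h mem_nil (mem_cons (L6446 D T h) mem_nil) cw28863
theorem W28864 : WFK w28864 := fun D T h => wf_of_chk h mem_nil (mem_cons (L6417 D T h) mem_nil) cw28864
theorem L6447 : LFK l6447 := fun D T h => lf_of_chk h (mem_cons (W8638 D T h) (mem_cons (W1 D T h) (mem_cons (W368 D T h) (mem_cons (W3688 D T h) (mem_cons (W220 D T h) (mem_cons (W13459 D T h) (mem_cons (W24815 D T h) (mem_cons (W5576 D T h) (mem_cons (W6204 D T h) (mem_cons (W5415 D T h) (mem_cons (W8633 D T h) (mem_cons (W14045 D T h) (mem_cons (W1326 D T h) mem_nil))))))))))))) cl6447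
theorem W28865 : WFK w28865 := fun D T h => wf_of_chk h mem_nil (mem_cons (L6447 D T h) mem_nil) cw28865
theorem L6448 : LFK l6448 := fun D T h => lf_of_chk h (mem_cons (W15147 D T h) (mem_cons (W12906 D T h) (mem_cons (W7559 D T h) (mem_cons (W7311 D T h) (mem_cons (W581 D T h) (mem_cons (W1326 D T h) (mem_cons (W16 D T h) (mem_cons (W3766 D T h) (mem_cons (W5721 D T h) (mem_cons (W27093 D T h) (mem_cons (W12910 D T h) (mem_cons (W12911 D T h) (mem_cons (W22476 D T h) (mem_cons (W12912 D T h) (mem_cons (W12913 D T h) (mem_cons (W18693 D T h) (mem_cons (W20207 D T h) (mem_cons (W21440 D T h) (mem_cons (W6754 D T h) (mem_cons (W12874 D T h) (mem_cons (W28863 D T h) (mem_cons (W2405 D T h) (mem_cons (W12634 D T h) (mem_cons (W12902 D T h) (mem_cons (W12903 D T h) (mem_cons (W12904 D T h) (mem_cons (W2015 D T h) (mem_cons (W10772 D T h) (mem_cons (W28864 D T h) (mem_cons (W12915 D T h) (mem_cons (W12895 D T h) (mem_cons (W28767 D T h) (mem_cons (W12916 D T h) (mem_cons (W28865 D T h) (mem_cons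 (W12909 D T h) mem_nil))))))))))))))))))))))))))))))))))) cl6448
theorem W28866 : WFK w28866 := fun D T h => wf_of_chk h mem_nil (mem_cons (L6448 D T h) mem_nil) cw28866
theorem L6449 : LFK l6449 := fun D T h => lf_of_chk h (mem_cons (W7212 D T h) (mem_cons (W16 D T h) (mem_cons (W1 D T h) (mem_cons (W69 D T h) (mem_cons (W3831 D T h) (mem_cons (W2119 D T h) (mem_cons (W3 D T h) (mem_cons (W3763 D T h) (mem_cons (W17 D T h) (mem_cons (W7188 D T h) (mem_cons (W28724 D T h) mem_nil))))))))))) cl6449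
theorem W28867 : WFK w28867 := fun D T h => wf_of_chk h mem_nil (mem_cons (L6449 D T h) mem_nil) cw28867
theorem L6450 : LFK l6450 := fun D T h => lf_of_chk h (mem_cons (W1448 D T h) (mem_cons (W200 D T h) (mem_cons (W42 D T h) (mem_cons (W3766 D T h) (mem_cons (W8979 D T h) (mem_cons (W20829 D T h) (mem_cons (W8633 D T h) (mem_cons (W22789 D T h) (mem_cons (W25137 D T h) (mem_cons (W22822 D T h) (mem_cons (W28279 D T h) (mem_cons (W10234 D T h) (mem_cons (W22819 D T h) (mem_cons (W27245 D T h) (mem_cons (W22807 D T h) (mem_cons (W21729 D T h) mem_nil)))))))))))))))) cl6450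
theorem W28868 : WFK w28868 := fun D T h => wf_of_chk h mem_nil (mem_cons (L6450 D T h) mem_nil) cw28868
theorem L6451 : LFK l6451 := fun D T h => lf_of_chk h (mem_cons (W37 D T h) (mem_cons (W3156 D T h) (mem_cons (W12872 D T h) (mem_cons (W1063 D T h) (mem_cons (W42 D T h) (mem_cons (W16 D T h) (mem_cons (W1336 D T h) (mem_cons (W6935 D T h) (mem_cons (W17524 D T h) (mem_cons (W6509 D T h) (mem_cons (W12918 D T h) (mem_cons (W28867 D T h) (mem_cons (W28724 D T h) (mem_cons (W15562 D T h) (mem_cons (W15563 D T h) (mem_cons (W15559 D T h) (mem_cons (W12820 D T h) (mem_cons (W12924 D T h) (mem_cons (W15147 D T h) (mem_cons (W12926 D T h) (mem_cons (W28868 D T h) mem_nil))))))))))))))))))))) cl6451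
theorem W28869 : WFK w28869 := fun D T h => wf_of_chk h mem_nil (mem_cons (L6451 D T h) mem_nil) cw28869
theorem W28870 : WFK w28870 := fun D T h => wf_of_chk h mem_nil (mem_cons (L3234 D T h) mem_nil) cw28870
theorem L6452 : LFK l6452 := fun D T h => lf_of_chk h (mem_cons (W5158 D T h) (mem_cons (W808 D T h) (mem_cons (W28003 D T h) (mem_cons (W14484 D T h) (mem_cons (W848 D T h) (mem_cons (W25182 D T h) (mem_cons (W91 D T h) (mem_cons (W281 D T h) (mem_cons (W619 D T h) (mem_cons (W7174 D T h) (mem_cons (W603 D T h) (mem_cons (W10134 D T h) (mem_cons (W7175 D T h) (mem_cons (W5814 D T h) (mem_cons (W28870 D T h) mem_nil))))))))))))))) cl6452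
theorem W28871 : WFK w28871 := fun D T h => wf_of_chk h mem_nil (mem_cons (L6452 D T h) mem_nil) cw28871
theorem W28872 : WFK w28872 := fun D T h => wf_of_chk h mem_nil (mem_cons (L1220 D T h) mem_nil) cw28872
theorem L6453 : LFK l6453 := fun D T h => lf_of_chk h (mem_cons (W5606 D T h) (mem_cons (W2385 D T h) (mem_cons (W1613 D T h) (mem_cons (W1444 D T h) (mem_cons (W4 D T h) (mem_cons (W33 D T h) (mem_cons (W28371 D T h) (mem_cons (W7171 D T h) (mem_cons (W8695 D T h) mem_nil))))))))) cl6453
theorem W28873 : WFK w28873 := fun D T h => wf_of_chk h mem_nil (mem_cons (L6453 D T h) mem_nil) cw28873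
theorem W28874 : WFK w28874 := fun D T h => wf_of_chk h mem_nil (mem_cons (L4435 D T h) mem_nil) cw28874
theorem L6454 : LFK l6454 := fun D T h => lf_of_chk h (mem_cons (W925 D T h) (mem_cons (W259 D T h) (mem_cons (W7959 D T h) (mem_cons (W42 D T h) (mem_cons (W162 D T h) (mem_cons (W1919 D T h) (mem_cons (W921 D T h) (mem_cons (W4313 D T h) (mem_cons (W20377 D T h) (mem_cons (W28873 D T h) (mem_cons (W721 D T h) (mem_cons (W5776 D T h) (mem_cons (W5655 D T h) (mem_cons (W5321 D T h) (mem_cons (W28874 D T h) (mem_cons (W28871 D T h) (mem_cons (W154 D T h) (mem_cons (W1924 D T h) (mem_cons (W9538 D T h) (mem_cons (W12842 D T h) (mem_cons (W12843 D T h) (mem_cons (W281 D T h) (mem_cons (W3260 D T h) (mem_cons (W9595 D T h) (mem_cons (W28872 D T h) mem_nil))))))))))))))))))))))))) cl6454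
theorem W28875 : WFK w28875 := fun D T h => wf_of_chk h mem_nil (mem_cons (L6454 D T h) mem_nil) cw28875
theorem W28876 : WFK w28876 := fun D T h => wf_of_chk h (mem_cons (W1207 D T h) mem_nil) mem_nil cw28876
theorem W28877 : WFK w28877 := fun D T h => wf_of_chk h (mem_cons (W126 D T h) (mem_cons (W179 D T h) mem_nil)) mem_nil cw28877
theorem W28878 : WFK w28878 := fun D T h => wf_of_chk h (mem_cons (W12203 D T h) mem_nil) mem_nil cw28878
theorem W28879 : WFK w28879 := fun D T h => wf_of_chk h (mem_cons (W11342 D T h) (mem_cons (W16 D T h) mem_nil)) mem_nil cw28879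
theorem W28880 : WFK w28880 := fun D T h => wf_of_chk h mem_nil (mem_cons (L5547 D T h) mem_nil) cw28880
theorem W28881 : WFK w28881 := fun D T h => wf_of_chk h (mem_cons (W7311 D T h) (mem_cons (W16 D T h) mem_nil)) mem_nil cw28881
theorem W28882 : WFK w28882 := fun D T h => wf_of_chk h (mem_cons (W14398 D T h) mem_nil) mem_nil cw28882
theorem W28883 : WFK w28883 := fun D T h => wf_of_chk h (mem_cons (W21648 D T h) (mem_cons (W16 D T h) mem_nil)) mem_nil cw28883
theorem L6455 : LFK l6455 := fun D T h => lf_of_chk h (mem_cons (W13102 D T h) (mem_cons (W3953 D T h) (mem_cons (W13104 D T h) (mem_cons (W1068 D T h) (mem_cons (W2709 D T h) (mem_cons (W179 D T h) (mem_cons (W1063 D T h) (mem_cons (W937 D T h) (mem_cons (W11223 D T h) (mem_cons (W16 D T h) (mem_cons (W28876 D T h) (mem_cons (W13203 D T h) (mem_cons (W13750 D T h) (mem_cons (W28878 D T h) (mem_cons (W5258 D T h) (mem_cons (W28877 D T h) (mem_cons (W20478 D T h) (mem_cons (W2520 D T h) (mem_cons (W13193 D T h) (mem_cons (W23861 D T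 h) (mem_cons (W28879 D T h) (mem_cons (W22246 D T h) (mem_cons (W22433 D T h) (mem_cons (W19806 D T h) (mem_cons (W28880 D T h) (mem_cons (W10766 D T h) (mem_cons (W13134 D T h) (mem_cons (W25219 D T h) (mem_cons (W22986 D T h) (mem_cons (W15777 D T h) (mem_cons (W1217 D T h) (mem_cons (W11574 D T h) (mem_cons (W28883 D T h) (mem_cons (W28882 D T h) (mem_cons (W4602 D T h) (mem_cons (W12250 D T h) (mem_cons (W23874 D T h) (mem_cons (W6782 D T h) (mem_cons (W7282 D T h) (mem_cons (W23881 D T h) (mem_cons (W23882 D T h) (mem_cons (W13685 D T h) (mem_cons (W28881 D T h) (mem_cons (W22786 D T h) (mem_cons (W23885 D T h) mem_nil))))))))))))))))))))))))))))))))))))))))))))) cl6455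
theorem W28884 : WFK w28884 := fun D T h => wf_of_chk h mem_nil (mem_cons (L6455 D T h) mem_nil) cw28884
theorem W28885 : WFK w28885 := fun D T h => wf_of_chk h mem_nil (mem_cons (L119 D T h) mem_nil) cw28885
theorem L6456 : LFK l6456 := fun D T h => lf_of_chk h (mem_cons (W7074 D T h) (mem_cons (W937 D T h) (mem_cons (W11223 D T h) (mem_cons (W42 D T h) (mem_cons (W16 D T h) (mem_cons (W281 D T h) (mem_cons (W86 D T h) (mem_cons (W1576 D T h) (mem_cons (W1929 D T h) (mem_cons (W10772 D T h) (mem_cons (W24648 D T h) (mem_cons (W24673 D T h) (mem_cons (W4566 D T h) (mem_cons (W85 D T h) (mem_cons (W220 D T h) (mem_cons (W24733 D T h) (mem_cons (W18453 D T h) (mem_cons (W1139 D T h) (mem_cons (W24454 D T h) (mem_cons (W13756 D T h) (mem_cons (W78 D T h) (mem_cons (W33 D T h) (mem_cons (W105 D T h) (mem_cons (W1574 D T h) (mem_cons (W1588 D T h) (mem_cons (W28885 D T h) (mem_cons (W1202 D T h) (mem_cons (W11194 D T h) (mem_cons (W13155 D T h) (mem_cons (W16170 D T h) mem_nil))))))))))))))))))))))))))))))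 cl6456
theorem W28886 : WFK w28886 := fun D T h => wf_of_chk h mem_nil (mem_cons (L6456 D T h) mem_nil) cw28886
theorem L6457 : LFK l6457 := fun D T h => lf_of_chk h (mem_cons (W15786 D T h) (mem_cons (W28884 D T h) (mem_cons (W126 D T h) (mem_cons (W9005 D T h) (mem_cons (W267 D T h) (mem_cons (W721 D T h) (mem_cons (W24358 D T h) (mem_cons (W114 D T h) (mem_cons (W28886 D T h) (mem_cons (W3953 D T h) (mem_cons (W15760 D T h) (mem_cons (W1 D T h) (mem_cons (W69 D T h) mem_nil))))))))))))) cl6457
theorem W28887 : WFK w28887 := fun D T h => wf_of_chk h mem_nil (mem_cons (L6457 D T h) mem_nil) cw28887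
theorem W28888 : WFK w28888 := fun D T h => wf_of_chk h mem_nil (mem_cons (L1391 D T h) mem_nil) cw28888
theorem L6458 : LFK l6458 := fun D T h => lf_of_chk h (mem_cons (W1318 D T h) (mem_cons (W3304 D T h) (mem_cons (W15147 D T h) (mem_cons (W1063 D T h) (mem_cons (W42 D T h) (mem_cons (W2015 D T h) (mem_cons (W2049 D T h) (mem_cons (W7432 D T h) (mem_cons (W177 D T h) (mem_cons (W15533 D T h) (mem_cons (W50 D T h) (mem_cons (W15534 D T h) (mem_cons (W15535 D T h) (mem_cons (W28888 D T h) (mem_cons (W16 D T h) (mem_cons (W28724 D T h) (mem_cons (W15538 D T h) (mem_cons (W15539 D T h) (mem_cons (W11754 D T h) (mem_cons (W15537 D T h) (mem_cons (W11995 D T h) (mem_cons (W3305 D T h) mem_nil)))))))))))))))))))))) cl6458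
theorem W28889 : WFK w28889 := fun D T h => wf_of_chk h mem_nil (mem_cons (L6458 D T h) mem_nil) cw28889
theorem L6459 : LFK l6459 := fun D T h => lf_of_chk h (mem_cons (W26716 D T h) (mem_cons (W3304 D T h) (mem_cons (W15147 D T h) (mem_cons (W1063 D T h) (mem_cons (W42 D T h) (mem_cons (W164 D T h) (mem_cons (W2051 D T h) (mem_cons (W15967 D T h) (mem_cons (W13177 D T h) (mem_cons (W177 D T h) (mem_cons (W15541 D T h) (mem_cons (W50 D T h) (mem_cons (W15542 D T h) (mem_cons (W15543 D T h) (mem_cons (W19643 D T h) (mem_cons (W16 D T h) (mem_cons (W28724 D T h) (mem_cons (W15545 D T h) (mem_cons (W15546 D T h) (mem_cons (W15547 D T h) (mem_cons (W13553 D T h) (mem_cons (W15544 D T h) (mem_cons (W11995 D T h) (mem_cons (W3305 D T h) mem_nil)))))))))))))))))))))))) cl6459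
theorem W28890 : WFK w28890 := fun D T h => wf_of_chk h mem_nil (mem_cons (L6459 D T h) mem_nil) cw28890
theorem L6460 : LFK l6460 := fun D T h => lf_of_chk h (mem_cons (W26716 D T h) (mem_cons (W3304 D T h) (mem_cons (W15147 D T h) (mem_cons (W1063 D T h) (mem_cons (W42 D T h) (mem_cons (W16 D T h) (mem_cons (W1502 D T h) (mem_cons (W2963 D T h) (mem_cons (W177 D T h) (mem_cons (W12918 D T h) (mem_cons (W18319 D T h) (mem_cons (W28724 D T h) (mem_cons (W15562 D T h) (mem_cons (W15563 D T h) (mem_cons (W15559 D T h) (mem_cons (W12820 D T h) (mem_cons (W17875 D T h) (mem_cons (W3305 D T h) mem_nil)))))))))))))))))) cl6460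
theorem W28891 : WFK w28891 := fun D T h => wf_of_chk h mem_nil (mem_cons (L6460 D T h) mem_nil) cw28891
theorem W28892 : WFK w28892 := fun D T h => wf_of_chk h (mem_cons (W114 D T h) (mem_cons (W16 D T h) mem_nil)) mem_nil cw28892
theorem W28893 : WFK w28893 := fun D T h => wf_of_chk h (mem_cons (W1125 D T h) (mem_cons (W16 D T h) mem_nil)) mem_nil cw28893
theorem W28894 : WFK w28894 := fun D T h => wf_of_chk h (mem_cons (W4162 D T h) (mem_cons (W16 D T h) mem_nil)) mem_nil cw28894
theorem W28895 : WFK w28895 := fun D T h => wf_of_chk h (mem_cons (W1502 D T h) mem_nil) mem_nil cw28895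
theorem W28896 : WFK w28896 := fun D T h => wf_of_chk h (mem_cons (W4162 D T h) (mem_cons (W16 D T h) mem_nil)) mem_nil cw28896
theorem W28897 : WFK w28897 := fun D T h => wf_of_chk h (mem_cons (W9576 D T h) (mem_cons (W16 D T h) mem_nil)) mem_nil cw28897
theorem W28898 : WFK w28898 := fun D T h => wf_of_chk h (mem_cons (W13536 D T h) (mem_cons (W16 D T h) mem_nil)) mem_nil cw28898
theorem W28899 : WFK w28899 := fun D T h => wf_of_chk h (mem_cons (W4766 D T h) (mem_cons (W16 D T h) mem_nil)) mem_nil cw28899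
theorem W28900 : WFK w28900 := fun D T h => wf_of_chk h (mem_cons (W7552 D T h) (mem_cons (W16 D T h) mem_nil)) mem_nil cw28900
theorem W28901 : WFK w28901 := fun D T h => wf_of_chk h (mem_cons (W2433 D T h) (mem_cons (W16 D T h) mem_nil)) mem_nil cw28901
theorem W28902 : WFK w28902 := fun D T h => wf_of_chk h (mem_cons (W2433 D T h) (mem_cons (W16 D T h) mem_nil)) mem_nil cw28902
theorem W28903 : WFK w28903 := fun D T h => wf_of_chk h (mem_cons (W2685 D T h) (mem_cons (W16 D T h) mem_nil)) mem_nil cw28903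
theorem W28904 : WFK w28904 := fun D T h => wf_of_chk h (mem_cons (W2454 D T h) (mem_cons (W16 D T h) mem_nil)) mem_nil cw28904
theorem W28905 : WFK w28905 := fun D T h => wf_of_chk h (mem_cons (W13541 D T h) (mem_cons (W16 D T h) mem_nil)) mem_nil cw28905
theorem W28906 : WFK w28906 := fun D T h => wf_of_chk h (mem_cons (W10059 D T h) (mem_cons (W16 D T h) mem_nil)) mem_nil cw28906
theorem W28907 : WFK w28907 := fun D T h => wf_of_chk h (mem_cons (W13541 D T h) (mem_cons (W16 D T h) mem_nil)) mem_nil cw28907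
theorem W28908 : WFK w28908 := fun D T h => wf_of_chk h (mem_cons (W10253 D T h) (mem_cons (W16 D T h) mem_nil)) mem_nil cw28908
theorem W28909 : WFK w28909 := fun D T h => wf_of_chk h (mem_cons (W1883 D T h) (mem_cons (W16 D T h) mem_nil)) mem_nil cw28909
theorem W28910 : WFK w28910 := fun D T h => wf_of_chk h (mem_cons (W3347 D T h) (mem_cons (W16 D T h) mem_nil)) mem_nil cw28910
theorem W28911 : WFK w28911 := fun D T h => wf_of_chk h (mem_cons (W1883 D T h) (mem_cons (W16 D T h) mem_nil)) mem_nil cw28911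
theorem W28914 : WFK w28914 := fun D T h => wf_of_chk h (mem_cons (W7074 D T h) (mem_cons (W368 D T h) mem_nil)) mem_nil cw28914
theorem W28915 : WFK w28915 := fun D T h => wf_of_chk h (mem_cons (W7074 D T h) (mem_cons (W368 D T h) mem_nil)) mem_nil cw28915
theorem W28916 : WFK w28916 := fun D T h => wf_of_chk h (mem_cons (W164 D T h) (mem_cons (W1125 D T h) mem_nil)) mem_nil cw28916

end Pool.Agent.W319.GCI.K5
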