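import Pool.Agent.W319.GCI.K5A1
set_option autoImplicit false
set_option maxRecDepth 100000
set_option linter.all false
namespace Pool.Agent.W319.GCI.K5
open Pool.Agent.W319.GCI

theorem W2089 : WFK w2089 := fun D T h => wf_of_chk h mem_nil (mem_cons (L481 D T h) mem_nil) cw2089
theorem W2090 : WFK w2090 := fun D T h => wf_of_chk h mem_nil (mem_cons (L296 D T h) mem_nil) cw2090
theorem L482 : LFK l482 := fun D T h => lf_of_chk h mem_nil cl482
theorem W2091 : WFK w2091 := fun D T h => wf_of_chk h mem_nil (mem_cons (L482 D T h) mem_nil) cw2091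
theorem L483 : LFK l483 := fun D T h => lf_of_chk h mem_nil cl483
theorem W2092 : WFK w2092 := fun D T h => wf_of_chk h mem_nil (mem_cons (L483 D T h) mem_nil) cw2092
theorem W2093 : WFK w2093 := fun D T h => wf_of_chk h mem_nil mem_nil cw2093
theorem L484 : LFK l484 := fun D T h => lf_of_chk h mem_nil cl484
theorem W2094 : WFK w2094 := fun D T h => wf_of_chk h mem_nil (mem_cons (L484 D T h) mem_nil) cw2094
theorem W2095 : WFK w2095 := fun D T h => wf_of_chk h mem_nil (mem_cons (L484 D T h) mem_nil) cw2095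
theorem L485 : LFK l485 := fun D T h => lf_of_chk h (mem_cons (W201 D T h) (mem_cons (W817 D T h) (mem_cons (W2090 D T h) (mem_cons (W1000 D T h) (mem_cons (W2086 D T h) (mem_cons (W745 D T h) (mem_cons (W389 D T h) (mem_cons (W3 D T h) (mem_cons (W954 D T h) (mem_cons (W2087 D T h) (mem_cons (W1001 D T h) (mem_cons (W2091 D T h) (mem_cons (W2092 D T h) (mem_cons (W1797 D T h) (mem_cons (W2093 D T h) (mem_cons (W2094 D T h) (mem_cons (W957 D T h) (mem_cons (W2095 D T h) (mem_cons (W998 D T h) mem_nil))))))))))))))))))) cl485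
theorem W2096 : WFK w2096 := fun D T h => wf_of_chk h mem_nil (mem_cons (L485 D T h) mem_nil) cw2096
theorem L486 : LFK l486 := fun D T h => lf_of_chk h (mem_cons (W1528 D T h) (mem_cons (W162 D T h) (mem_cons (W16 D T h) (mem_cons (W2089 D T h) (mem_cons (W461 D T h) (mem_cons (W3 D T h) (mem_cons (W39 D T h) (mem_cons (W42 D T h) (mem_cons (W2096 D T h) (mem_cons (W1 D T h) (mem_cons (W1554 D T h) (mem_cons (W581 D T h) (mem_cons (W1325 D T h) (mem_cons (W1326 D T h) mem_nil)))))))))))))) cl486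
theorem W2097 : WFK w2097 := fun D T h => wf_of_chk h mem_nil (mem_cons (L486 D T h) mem_nil) cw2097
theorem W2098 : WFK w2098 := fun D T h => wf_of_chk h (mem_cons (W56 D T h) mem_nil) mem_nil cw2098
theorem W2099 : WFK w2099 := fun D T h => wf_of_chk h (mem_cons (W56 D T h) mem_nil) mem_nil cw2099
theorem L487 : LFK l487 := fun D T h => lf_of_chk h (mem_cons (W1528 D T h) (mem_cons (W56 D T h) (mem_cons (W16 D T h) (mem_cons (W2098 D T h) (mem_cons (W2099 D T h) mem_nil))))) cl487
theorem W2100 : WFK w2100 := fun D T h => wf_of_chk h mem_nil (mem_cons (L487 D T h) mem_nil) cw2100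
theorem W2101 : WFK w2101 := fun D T h => wf_of_chk h mem_nil (mem_cons (L45 D T h) mem_nil) cw2101
theorem W2102 : WFK w2102 := fun D T h => wf_of_chk h (mem_cons (W69 D T h) mem_nil) mem_nil cw2102
theorem W2103 : WFK w2103 := fun D T h => wf_of_chk h mem_nil (mem_cons (L267 D T h) mem_nil) cw2103
theorem W2104 : WFK w2104 := fun D T h => wf_of_chk h mem_nil (mem_cons (L257 D T h) mem_nil) cw2104
theorem W2105 : WFK w2105 := fun D T h => wf_of_chk h mem_nil (mem_cons (L104 D T h) mem_nil) cw2105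
theorem W2106 : WFK w2106 := fun D T h => wf_of_chk h mem_nil (mem_cons (L342 D T h) mem_nil) cw2106
theorem W2107 : WFK w2107 := fun D T h => wf_of_chk h mem_nil (mem_cons (L481 D T h) mem_nil) cw2107
theorem W2108 : WFK w2108 := fun D T h => wf_of_chk h mem_nil (mem_cons (L269 D T h) mem_nil) cw2108
theorem W2109 : WFK w2109 := fun D T h => wf_of_chk h mem_nil (mem_cons (L342 D T h) mem_nil) cw2109
theorem W2110 : WFK w2110 := fun D T h => wf_of_chk h mem_nil (mem_cons (L342 D T h) mem_nil) cw2110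
theorem L488 : LFK l488 := fun D T h => lf_of_chk h (mem_cons (W438 D T h) (mem_cons (W1231 D T h) (mem_cons (W154 D T h) (mem_cons (W220 D T h) (mem_cons (W199 D T h) (mem_cons (W201 D T h) (mem_cons (W83 D T h) (mem_cons (W2109 D T h) (mem_cons (W2110 D T h) (mem_cons (W2102 D T h) (mem_cons (W432 D T h) (mem_cons (W13 D T h) (mem_cons (W2103 D T h) (mem_cons (W2104 D T h) (mem_cons (W2105 D T h) (mem_cons (W2106 D T h) (mem_cons (W2107 D T h) (mem_cons (W42 D T h) (mem_cons (W2108 D T h) (mem_cons (W164 D T h) mem_nil)))))))))))))))))))) cl488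
theorem W2111 : WFK w2111 := fun D T h => wf_of_chk h mem_nil (mem_cons (L488 D T h) mem_nil) cw2111
theorem W2112 : WFK w2112 := fun D T h => wf_of_chk h (mem_cons (W220 D T h) (mem_cons (W164 D T h) mem_nil)) mem_nil cw2112
theorem W2113 : WFK w2113 := fun D T h => wf_of_chk h mem_nil (mem_cons (L357 D T h) mem_nil) cw2113
theorem W2114 : WFK w2114 := fun D T h => wf_of_chk h mem_nil (mem_cons (L488 D T h) mem_nil) cw2114
theorem W2115 : WFK w2115 := fun D T h => wf_of_chk h mem_nil (mem_cons (L209 D T h) mem_nil) cw2115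
theorem W2116 : WFK w2116 := fun D T h => wf_of_chk h (mem_cons (W39 D T h) (mem_cons (W16 D T h) mem_nil)) mem_nil cw2116
theorem W2117 : WFK w2117 := fun D T h => wf_of_chk h (mem_cons (W1929 D T h) (mem_cons (W16 D T h) mem_nil)) mem_nil cw2117
theorem W2118 : WFK w2118 := fun D T h => wf_of_chk h mem_nil (mem_cons (L15 D T h) mem_nil) cw2118
theorem W2119 : WFK w2119 := fun D T h => wf_of_chk h mem_nil (mem_cons (L37 D T h) mem_nil) cw2119
theorem W2120 : WFK w2120 := fun D T h => wf_of_chk h (mem_cons (W1326 D T h) mem_nil) mem_nil cw2120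
theorem W2121 : WFK w2121 := fun D T h => wf_of_chk h (mem_cons (W1555 D T h) mem_nil) mem_nil cw2121
theorem W2122 : WFK w2122 := fun D T h => wf_of_chk h mem_nil (mem_cons (L89 D T h) mem_nil) cw2122
theorem W2123 : WFK w2123 := fun D T h => wf_of_chk h mem_nil (mem_cons (L172 D T h) mem_nil) cw2123
theorem L489 : LFK l489 := fun D T h => lf_of_chk h mem_nil cl489
theorem W2124 : WFK w2124 := fun D T h => wf_of_chk h mem_nil (mem_cons (L489 D T h) mem_nil) cw2124
theorem W2125 : WFK w2125 := fun D T h => wf_of_chk h mem_nil (mem_cons (L287 D T h) mem_nil) cw2125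
theorem W2126 : WFK w2126 := fun D T h => wf_of_chk h mem_nil (mem_cons (L413 D T h) mem_nil) cw2126
theorem W2127 : WFK w2127 := fun D T h => wf_of_chk h mem_nil (mem_cons (L138 D T h) mem_nil) cw2127
theorem W2128 : WFK w2128 := fun D T h => wf_of_chk h mem_nil mem_nil cw2128
theorem W2129 : WFK w2129 := fun D T h => wf_of_chk h mem_nil (mem_cons (L172 D T h) mem_nil) cw2129
theorem W2130 : WFK w2130 := fun D T h => wf_of_chk h mem_nil (mem_cons (L480 D T h) mem_nil) cw2130
theorem W2131 : WFK w2131 := fun D T h => wf_of_chk h mem_nil mem_nil cw2131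
theorem L490 : LFK l490 := fun D T h => lf_of_chk h mem_nil cl490
theorem W2132 : WFK w2132 := fun D T h => wf_of_chk h mem_nil (mem_cons (L490 D T h) mem_nil) cw2132
theorem W2133 : WFK w2133 := fun D T h => wf_of_chk h mem_nil mem_nil cw2133
theorem L491 : LFK l491 := fun D T h => lf_of_chk h (mem_cons (W2084 D T h) (mem_cons (W428 D T h) (mem_cons (W2122 D T h) (mem_cons (W2124 D T h) (mem_cons (W2125 D T h) (mem_cons (W2132 D T h) (mem_cons (W2095 D T h) (mem_cons (W2133 D T h) (mem_cons (W69 D T h) (mem_cons (W2123 D T h) (mem_cons (W12 D T h) (mem_cons (W2126 D T h) (mem_cons (W2127 D T h) (mem_cons (W2128 D T h) (mem_cons (W2082 D T h) (mem_cons (W2081 D T h) (mem_cons (W2129 D T h) (mem_cons (W2130 D T h) (mem_cons (W2131 D T h) mem_nil))))))))))))))))))) cl491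
theorem W2134 : WFK w2134 := fun D T h => wf_of_chk h mem_nil (mem_cons (L491 D T h) mem_nil) cw2134
theorem W2135 : WFK w2135 := fun D T h => wf_of_chk h mem_nil (mem_cons (L283 D T h) mem_nil) cw2135
theorem W2136 : WFK w2136 := fun D T h => wf_of_chk h mem_nil (mem_cons (L485 D T h) mem_nil) cw2136
theorem W2137 : WFK w2137 := fun D T h => wf_of_chk h mem_nil (mem_cons (L241 D T h) mem_nil) cw2137
theorem L492 : LFK l492 := fun D T h => lf_of_chk h mem_nil cl492
theorem W2138 : WFK w2138 := fun D T h => wf_of_chk h mem_nil (mem_cons (L492 D T h) mem_nil) cw2138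
theorem L493 : LFK l493 := fun D T h => lf_of_chk h mem_nil cl493
theorem W2139 : WFK w2139 := fun D T h => wf_of_chk h mem_nil (mem_cons (L493 D T h) mem_nil) cw2139
theorem W2140 : WFK w2140 := fun D T h => wf_of_chk h mem_nil mem_nil cw2140
theorem L494 : LFK l494 := fun D T h => lf_of_chk h mem_nil cl494
theorem W2141 : WFK w2141 := fun D T h => wf_of_chk h mem_nil (mem_cons (L494 D T h) mem_nil) cw2141
theorem W2142 : WFK w2142 := fun D T h => wf_of_chk h mem_nil (mem_cons (L494 D T h) mem_nil) cw2142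
theorem L495 : LFK l495 := fun D T h => lf_of_chk h (mem_cons (W201 D T h) (mem_cons (W1075 D T h) (mem_cons (W2137 D T h) (mem_cons (W1000 D T h) (mem_cons (W2086 D T h) (mem_cons (W740 D T h) (mem_cons (W3 D T h) (mem_cons (W954 D T h) (mem_cons (W2087 D T h) (mem_cons (W2142 D T h) (mem_cons (W2138 D T h) (mem_cons (W2139 D T h) (mem_cons (W1797 D T h) (mem_cons (W2141 D T h) mem_nil)))))))))))))) cl495
theorem W2143 : WFK w2143 := fun D T h => wf_of_chk h mem_nil (mem_cons (L495 D T h) mem_nil) cw2143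
theorem W2144 : WFK w2144 := fun D T h => wf_of_chk h mem_nil (mem_cons (L203 D T h) mem_nil) cw2144
theorem W2145 : WFK w2145 := fun D T h => wf_of_chk h mem_nil (mem_cons (L185 D T h) mem_nil) cw2145
theorem L496 : LFK l496 := fun D T h => lf_of_chk h (mem_cons (W3 D T h) (mem_cons (W33 D T h) (mem_cons (W11 D T h) (mem_cons (W13 D T h) (mem_cons (W12 D T h) mem_nil))))) cl496
theorem W2146 : WFK w2146 := fun D T h => wf_of_chk h mem_nil (mem_cons (L496 D T h) mem_nil) cw2146
theorem W2147 : WFK w2147 := fun D T h => wf_of_chk h mem_nil (mem_cons (L481 D T h) mem_nil) cw2147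
theorem W2148 : WFK w2148 := fun D T h => wf_of_chk h mem_nil (mem_cons (L481 D T h) mem_nil) cw2148
theorem L497 : LFK l497 := fun D T h => lf_of_chk h (mem_cons (W2107 D T h) (mem_cons (W1231 D T h) (mem_cons (W161 D T h) (mem_cons (W1637 D T h) (mem_cons (W199 D T h) (mem_cons (W201 D T h) (mem_cons (W2106 D T h) (mem_cons (W2147 D T h) (mem_cons (W1335 D T h) (mem_cons (W2148 D T h) (mem_cons (W42 D T h) (mem_cons (W2118 D T h) (mem_cons (W2119 D T h) (mem_cons (W3 D T h) (mem_cons (W2144 D T h) (mem_cons (W2145 D T h) (mem_cons (W2146 D T h) (mem_cons (W2102 D T h) (mem_cons (W12 D T h) (mem_cons (W13 D T h) (mem_cons (W2120 D T h) (mem_cons (W2121 D T h) (mem_cons (W2134 D T h) (mem_cons (W2135 D T h) (mem_cons (W2136 D T h) (mem_cons (W2143 D T h) (mem_cons (W1 D T h) (mem_cons (W69 D T h) mem_nil)))))))))))))))))))))))))))) cl497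
theorem W2149 : WFK w2149 := fun D T h => wf_of_chk h mem_nil (mem_cons (L497 D T h) mem_nil) cw2149
theorem W2150 : WFK w2150 := fun D T h => wf_of_chk h (mem_cons (W162 D T h) (mem_cons (W164 D T h) mem_nil)) mem_nil cw2150
theorem L498 : LFK l498 := fun D T h => lf_of_chk h (mem_cons (W2049 D T h) (mem_cons (W177 D T h) (mem_cons (W1231 D T h) (mem_cons (W16 D T h) (mem_cons (W1449 D T h) (mem_cons (W2097 D T h) (mem_cons (W2149 D T h) (mem_cons (W284 D T h) (mem_cons (W2150 D T h) (mem_cons (W2027 D T h) (mem_cons (W2100 D T h) (mem_cons (W438 D T h) (mem_cons (W2101 D T h) (mem_cons (W2111 D T h) (mem_cons (W2112 D T h) (mem_cons (W2113 D T h) (mem_cons (W2114 D T h) (mem_cons (W2046 D T h) (mem_cons (W2048 D T h) (mem_cons (W42 D T h) (mem_cons (W2115 D T h) (mem_cons (W2116 D T h) (mem_cons (W2117 D T h) (mem_cons (W2070 D T h) (mem_cons (W184 D T h) (mem_cons (W581 D T h) (mem_cons (W2064 D T h) (mem_cons (W1326 D T h) (mem_cons (W2065 D T h) (mem_cons (W2066 D T h) (mem_cons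 (W2067 D T h) (mem_cons (W2069 D T h) (mem_cons (W495 D T h) (mem_cons (W2063 D T h) (mem_cons (W1226 D T h) (mem_cons (W2071 D T h) (mem_cons (W1227 D T h) (mem_cons (W2079 D T h) (mem_cons (W2080 D T h) mem_nil))))))))))))))))))))))))))))))))))))))) cl498
theorem W2151 : WFK w2151 := fun D T h => wf_of_chk h mem_nil (mem_cons (L498 D T h) mem_nil) cw2151
theorem W2152 : WFK w2152 := fun D T h => wf_of_chk h mem_nil (mem_cons (L470 D T h) mem_nil) cw2152
theorem W2153 : WFK w2153 := fun D T h => wf_of_chk h (mem_cons (W713 D T h) (mem_cons (W16 D T h) mem_nil)) mem_nil cw2153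
theorem W2154 : WFK w2154 := fun D T h => wf_of_chk h (mem_cons (W712 D T h) (mem_cons (W16 D T h) mem_nil)) mem_nil cw2154
theorem W2155 : WFK w2155 := fun D T h => wf_of_chk h (mem_cons (W714 D T h) (mem_cons (W16 D T h) mem_nil)) mem_nil cw2155
theorem W2156 : WFK w2156 := fun D T h => wf_of_chk h mem_nil (mem_cons (L385 D T h) mem_nil) cw2156
theorem W2157 : WFK w2157 := fun D T h => wf_of_chk h mem_nil (mem_cons (L298 D T h) mem_nil) cw2157
theorem W2158 : WFK w2158 := fun D T h => wf_of_chk h mem_nil (mem_cons (L344 D T h) mem_nil) cw2158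
theorem W2159 : WFK w2159 := fun D T h => wf_of_chk h mem_nil (mem_cons (L344 D T h) mem_nil) cw2159
theorem W2160 : WFK w2160 := fun D T h => wf_of_chk h mem_nil (mem_cons (L299 D T h) mem_nil) cw2160
theorem L499 : LFK l499 := fun D T h => lf_of_chk h (mem_cons (W2050 D T h) (mem_cons (W177 D T h) (mem_cons (W42 D T h) (mem_cons (W16 D T h) (mem_cons (W35 D T h) (mem_cons (W960 D T h) (mem_cons (W2159 D T h) (mem_cons (W2158 D T h) (mem_cons (W1334 D T h) (mem_cons (W2046 D T h) (mem_cons (W2116 D T h) (mem_cons (W2160 D T h) (mem_cons (W535 D T h) (mem_cons (W1325 D T h) (mem_cons (W2152 D T h) (mem_cons (W2153 D T h) (mem_cons (W2067 D T h) (mem_cons (W2154 D T h) (mem_cons (W2155 D T h) (mem_cons (W342 D T h) (mem_cons (W495 D T h) (mem_cons (W946 D T h) (mem_cons (W2156 D T h) (mem_cons (W2157 D T h) mem_nil)))))))))))))))))))))))) cl499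
theorem W2161 : WFK w2161 := fun D T h => wf_of_chk h mem_nil (mem_cons (L499 D T h) mem_nil) cw2161
theorem W2162 : WFK w2162 := fun D T h => wf_of_chk h mem_nil (mem_cons (L295 D T h) mem_nil) cw2162
theorem W2163 : WFK w2163 := fun D T h => wf_of_chk h (mem_cons (W167 D T h) (mem_cons (W37 D T h) mem_nil)) mem_nil cw2163
theorem W2164 : WFK w2164 := fun D T h => wf_of_chk h mem_nil (mem_cons (L209 D T h) mem_nil) cw2164
theorem W2165 : WFK w2165 := fun D T h => wf_of_chk h (mem_cons (W50 D T h) (mem_cons (W16 D T h) mem_nil)) mem_nil cw2165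
theorem W2166 : WFK w2166 := fun D T h => wf_of_chk h mem_nil (mem_cons (L472 D T h) mem_nil) cw2166
theorem W2167 : WFK w2167 := fun D T h => wf_of_chk h mem_nil (mem_cons (L472 D T h) mem_nil) cw2167
theorem W2168 : WFK w2168 := fun D T h => wf_of_chk h mem_nil (mem_cons (L309 D T h) mem_nil) cw2168
theorem W2169 : WFK w2169 := fun D T h => wf_of_chk h (mem_cons (W16 D T h) (mem_cons (W284 D T h) mem_nil)) mem_nil cw2169
theorem W2170 : WFK w2170 := fun D T h => wf_of_chk h mem_nil (mem_cons (L381 D T h) mem_nil) cw2170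
theorem W2171 : WFK w2171 := fun D T h => wf_of_chk h (mem_cons (W368 D T h) (mem_cons (W34 D T h) mem_nil)) mem_nil cw2171
theorem L500 : LFK l500 := fun D T h => lf_of_chk h (mem_cons (W1346 D T h) (mem_cons (W803 D T h) (mem_cons (W42 D T h) (mem_cons (W16 D T h) (mem_cons (W925 D T h) (mem_cons (W1903 D T h) (mem_cons (W1904 D T h) (mem_cons (W2171 D T h) (mem_cons (W15 D T h) (mem_cons (W801 D T h) (mem_cons (W1348 D T h) (mem_cons (W1347 D T h) (mem_cons (W799 D T h) (mem_cons (W1528 D T h) (mem_cons (W1193 D T h) (mem_cons (W1907 D T h) (mem_cons (W1690 D T h) (mem_cons (W1620 D T h) (mem_cons (W1906 D T h) (mem_cons (W1905 D T h) mem_nil)))))))))))))))))))) cl500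
theorem W2172 : WFK w2172 := fun D T h => wf_of_chk h mem_nil (mem_cons (L500 D T h) mem_nil) cw2172
theorem W2173 : WFK w2173 := fun D T h => wf_of_chk h (mem_cons (W126 D T h) (mem_cons (W1310 D T h) mem_nil)) mem_nil cw2173
theorem W2174 : WFK w2174 := fun D T h => wf_of_chk h (mem_cons (W2164 D T h) mem_nil) mem_nil cw2174
theorem W2175 : WFK w2175 := fun D T h => wf_of_chk h (mem_cons (W75 D T h) (mem_cons (W284 D T h) mem_nil)) mem_nil cw2175
theorem W2176 : WFK w2176 := fun D T h => wf_of_chk h (mem_cons (W91 D T h) (mem_cons (W2164 D T h) mem_nil)) mem_nil cw2176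
theorem W2177 : WFK w2177 := fun D T h => wf_of_chk h (mem_cons (W1108 D T h) (mem_cons (W284 D T h) mem_nil)) mem_nil cw2177
theorem W2178 : WFK w2178 := fun D T h => wf_of_chk h (mem_cons (W69 D T h) (mem_cons (W1310 D T h) mem_nil)) mem_nil cw2178
theorem W2179 : WFK w2179 := fun D T h => wf_of_chk h (mem_cons (W161 D T h) (mem_cons (W2164 D T h) mem_nil)) mem_nil cw2179
theorem W2180 : WFK w2180 := fun D T h => wf_of_chk h (mem_cons (W69 D T h) mem_nil) mem_nil cw2180
theorem W2181 : WFK w2181 := fun D T h => wf_of_chk h (mem_cons (W2180 D T h) (mem_cons (W16 D T h) mem_nil)) mem_nil cw2181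
theorem L501 : LFK l501 := fun D T h => lf_of_chk h (mem_cons (W1166 D T h) (mem_cons (W2170 D T h) (mem_cons (W1 D T h) (mem_cons (W1310 D T h) (mem_cons (W284 D T h) (mem_cons (W83 D T h) (mem_cons (W93 D T h) (mem_cons (W2181 D T h) (mem_cons (W1651 D T h) (mem_cons (W91 D T h) (mem_cons (W2175 D T h) (mem_cons (W80 D T h) (mem_cons (W2176 D T h) (mem_cons (W2177 D T h) (mem_cons (W1355 D T h) (mem_cons (W521 D T h) (mem_cons (W2178 D T h) (mem_cons (W2174 D T h) (mem_cons (W111 D T h) (mem_cons (W370 D T h) (mem_cons (W721 D T h) (mem_cons (W2179 D T h) (mem_cons (W267 D T h) (mem_cons (W114 D T h) mem_nil)))))))))))))))))))))))) cl501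
theorem W2182 : WFK w2182 := fun D T h => wf_of_chk h mem_nil (mem_cons (L501 D T h) mem_nil) cw2182
theorem W2183 : WFK w2183 := fun D T h => wf_of_chk h mem_nil (mem_cons (L501 D T h) mem_nil) cw2183
theorem W2184 : WFK w2184 := fun D T h => wf_of_chk h mem_nil (mem_cons (L501 D T h) mem_nil) cw2184
theorem W2185 : WFK w2185 := fun D T h => wf_of_chk h (mem_cons (W1061 D T h) (mem_cons (W16 D T h) mem_nil)) mem_nil cw2185
theorem W2186 : WFK w2186 := fun D T h => wf_of_chk h (mem_cons (W368 D T h) (mem_cons (W284 D T h) mem_nil)) mem_nil cw2186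
theorem W2187 : WFK w2187 := fun D T h => wf_of_chk h (mem_cons (W2186 D T h) (mem_cons (W16 D T h) mem_nil)) mem_nil cw2187
theorem W2188 : WFK w2188 := fun D T h => wf_of_chk h (mem_cons (W1184 D T h) (mem_cons (W1310 D T h) mem_nil)) mem_nil cw2188
theorem W2189 : WFK w2189 := fun D T h => wf_of_chk h (mem_cons (W144 D T h) (mem_cons (W1310 D T h) mem_nil)) mem_nil cw2189
theorem W2190 : WFK w2190 := fun D T h => wf_of_chk h (mem_cons (W229 D T h) (mem_cons (W16 D T h) mem_nil)) mem_nil cw2190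
theorem W2191 : WFK w2191 := fun D T h => wf_of_chk h (mem_cons (W287 D T h) (mem_cons (W16 D T h) mem_nil)) mem_nil cw2191
theorem W2192 : WFK w2192 := fun D T h => wf_of_chk h mem_nil (mem_cons (L298 D T h) mem_nil) cw2192
theorem W2193 : WFK w2193 := fun D T h => wf_of_chk h (mem_cons (W1026 D T h) (mem_cons (W16 D T h) mem_nil)) mem_nil cw2193
theorem W2194 : WFK w2194 := fun D T h => wf_of_chk h mem_nil (mem_cons (L116 D T h) mem_nil) cw2194
theorem W2195 : WFK w2195 := fun D T h => wf_of_chk h (mem_cons (W2194 D T h) (mem_cons (W16 D T h) mem_nil)) mem_nil cw2195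
theorem W2196 : WFK w2196 := fun D T h => wf_of_chk h (mem_cons (W128 D T h) (mem_cons (W178 D T h) mem_nil)) mem_nil cw2196
theorem W2197 : WFK w2197 := fun D T h => wf_of_chk h (mem_cons (W1 D T h) (mem_cons (W220 D T h) mem_nil)) mem_nil cw2197
theorem W2198 : WFK w2198 := fun D T h => wf_of_chk h (mem_cons (W2197 D T h) (mem_cons (W16 D T h) mem_nil)) mem_nil cw2198
theorem W2199 : WFK w2199 := fun D T h => wf_of_chk h mem_nil (mem_cons (L107 D T h) mem_nil) cw2199
theorem W2200 : WFK w2200 := fun D T h => wf_of_chk h (mem_cons (W2199 D T h) (mem_cons (W16 D T h) mem_nil)) mem_nil cw2200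
theorem L502 : LFK l502 := fun D T h => lf_of_chk h (mem_cons (W721 D T h) (mem_cons (W42 D T h) (mem_cons (W325 D T h) (mem_cons (W3 D T h) (mem_cons (W39 D T h) (mem_cons (W1296 D T h) (mem_cons (W15 D T h) (mem_cons (W1297 D T h) (mem_cons (W1051 D T h) (mem_cons (W1535 D T h) (mem_cons (W746 D T h) (mem_cons (W2074 D T h) (mem_cons (W258 D T h) (mem_cons (W748 D T h) (mem_cons (W282 D T h) (mem_cons (W1994 D T h) (mem_cons (W263 D T h) (mem_cons (W762 D T h) (mem_cons (W815 D T h) mem_nil))))))))))))))))))) cl502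
theorem W2201 : WFK w2201 := fun D T h => wf_of_chk h mem_nil (mem_cons (L502 D T h) mem_nil) cw2201
theorem W2203 : WFK w2203 := fun D T h => wf_of_chk h mem_nil mem_nil cw2203
theorem W2204 : WFK w2204 := fun D T h => wf_of_chk h mem_nil (mem_cons (L247 D T h) mem_nil) cw2204
theorem W2205 : WFK w2205 := fun D T h => wf_of_chk h (mem_cons (W91 D T h) mem_nil) mem_nil cw2205
theorem W2206 : WFK w2206 := fun D T h => wf_of_chk h (mem_cons (W78 D T h) mem_nil) mem_nil cw2206
theorem W2207 : WFK w2207 := fun D T h => wf_of_chk h mem_nil (mem_cons (L176 D T h) mem_nil) cw2207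
theorem W2208 : WFK w2208 := fun D T h => wf_of_chk h (mem_cons (W75 D T h) mem_nil) mem_nil cw2208
theorem W2209 : WFK w2209 := fun D T h => wf_of_chk h (mem_cons (W1 D T h) mem_nil) mem_nil cw2209
theorem W2210 : WFK w2210 := fun D T h => wf_of_chk h mem_nil (mem_cons (L37 D T h) mem_nil) cw2210
theorem W2211 : WFK w2211 := fun D T h => wf_of_chk h (mem_cons (W4 D T h) mem_nil) mem_nil cw2211
theorem L503 : LFK l503 := fun D T h => lf_of_chk h (mem_cons (W1501 D T h) (mem_cons (W33 D T h) (mem_cons (W69 D T h) (mem_cons (W2203 D T h) (mem_cons (W19 D T h) (mem_cons (W539 D T h) (mem_cons (W2204 D T h) (mem_cons (W2205 D T h) (mem_cons (W480 D T h) (mem_cons (W2206 D T h) (mem_cons (W2207 D T h) (mem_cons (W2208 D T h) (mem_cons (W2209 D T h) (mem_cons (W1611 D T h) (mem_cons (W1459 D T h) (mem_cons (W489 D T h) (mem_cons (W2210 D T h) (mem_cons (W2211 D T h) mem_nil)))))))))))))))))) cl503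
theorem W2212 : WFK w2212 := fun D T h => wf_of_chk h mem_nil (mem_cons (L503 D T h) mem_nil) cw2212
theorem W2213 : WFK w2213 := fun D T h => wf_of_chk h mem_nil (mem_cons (L8 D T h) mem_nil) cw2213
theorem W2214 : WFK w2214 := fun D T h => wf_of_chk h mem_nil (mem_cons (L8 D T h) mem_nil) cw2214
theorem L504 : LFK l504 := fun D T h => lf_of_chk h (mem_cons (W1994 D T h) (mem_cons (W109 D T h) (mem_cons (W3 D T h) (mem_cons (W920 D T h) (mem_cons (W39 D T h) (mem_cons (W2213 D T h) (mem_cons (W86 D T h) (mem_cons (W2214 D T h) (mem_cons (W2212 D T h) (mem_cons (W4 D T h) (mem_cons (W1529 D T h) (mem_cons (W976 D T h) (mem_cons (W172 D T h) (mem_cons (W1530 D T h) (mem_cons (W38 D T h) (mem_cons (W815 D T h) mem_nil)))))))))))))))) cl504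
theorem W2215 : WFK w2215 := fun D T h => wf_of_chk h mem_nil (mem_cons (L504 D T h) mem_nil) cw2215
theorem W2216 : WFK w2216 := fun D T h => wf_of_chk h (mem_cons (W2215 D T h) (mem_cons (W16 D T h) mem_nil)) mem_nil cw2216
theorem W2217 : WFK w2217 := fun D T h => wf_of_chk h (mem_cons (W162 D T h) (mem_cons (W251 D T h) mem_nil)) mem_nil cw2217
theorem W2218 : WFK w2218 := fun D T h => wf_of_chk h mem_nil (mem_cons (L126 D T h) mem_nil) cw2218
theorem L505 : LFK l505 := fun D T h => lf_of_chk h (mem_cons (W721 D T h) (mem_cons (W42 D T h) (mem_cons (W16 D T h) (mem_cons (W3 D T h) (mem_cons (W39 D T h) (mem_cons (W1296 D T h) (mem_cons (W15 D T h) (mem_cons (W1297 D T h) (mem_cons (W2218 D T h) (mem_cons (W1535 D T h) (mem_cons (W746 D T h) (mem_cons (W2074 D T h) (mem_cons (W258 D T h) (mem_cons (W748 D T h) (mem_cons (W259 D T h) (mem_cons (W815 D T h) (mem_cons (W1620 D T h) mem_nil))))))))))))))))) cl505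
theorem W2219 : WFK w2219 := fun D T h => wf_of_chk h mem_nil (mem_cons (L505 D T h) mem_nil) cw2219
theorem L506 : LFK l506 := fun D T h => lf_of_chk h (mem_cons (W1651 D T h) (mem_cons (W284 D T h) (mem_cons (W179 D T h) (mem_cons (W250 D T h) (mem_cons (W16 D T h) (mem_cons (W249 D T h) (mem_cons (W2193 D T h) (mem_cons (W2216 D T h) (mem_cons (W2217 D T h) (mem_cons (W2027 D T h) (mem_cons (W2219 D T h) (mem_cons (W2195 D T h) (mem_cons (W24 D T h) (mem_cons (W209 D T h) (mem_cons (W2196 D T h) (mem_cons (W2198 D T h) (mem_cons (W2200 D T h) (mem_cons (W2201 D T h) (mem_cons (W2190 D T h) (mem_cons (W1620 D T h) (mem_cons (W2191 D T h) (mem_cons (W721 D T h) (mem_cons (W1390 D T h) (mem_cons (W2079 D T h) (mem_cons (W2157 D T h) (mem_cons (W2192 D T h) (mem_cons (W342 D T h) (mem_cons (W341 D T h) (mem_cons (W1025 D T h) (mem_cons (W352 D T h) (mem_cons (W1696 D T h) (mem_cons (W183 D T h) mem_nil)))))))))))))))))))))))))))))))) cl506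
theorem W2220 : WFK w2220 := fun D T h => wf_of_chk h mem_nil (mem_cons (L506 D T h) mem_nil) cw2220
theorem W2221 : WFK w2221 := fun D T h => wf_of_chk h (mem_cons (W34 D T h) (mem_cons (W2164 D T h) mem_nil)) mem_nil cw2221
theorem W2222 : WFK w2222 := fun D T h => wf_of_chk h (mem_cons (W817 D T h) (mem_cons (W2164 D T h) mem_nil)) mem_nil cw2222
theorem W2223 : WFK w2223 := fun D T h => wf_of_chk h (mem_cons (W471 D T h) (mem_cons (W284 D T h) mem_nil)) mem_nil cw2223
theorem W2224 : WFK w2224 := fun D T h => wf_of_chk h (mem_cons (W22 D T h) (mem_cons (W2164 D T h) mem_nil)) mem_nil cw2224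
theorem W2225 : WFK w2225 := fun D T h => wf_of_chk h (mem_cons (W125 D T h) (mem_cons (W2164 D T h) mem_nil)) mem_nil cw2225
theorem W2226 : WFK w2226 := fun D T h => wf_of_chk h (mem_cons (W1120 D T h) (mem_cons (W2164 D T h) mem_nil)) mem_nil cw2226
theorem W2227 : WFK w2227 := fun D T h => wf_of_chk h (mem_cons (W161 D T h) mem_nil) mem_nil cw2227
theorem L507 : LFK l507 := fun D T h => lf_of_chk h (mem_cons (W1501 D T h) (mem_cons (W112 D T h) (mem_cons (W69 D T h) (mem_cons (W86 D T h) (mem_cons (W85 D T h) (mem_cons (W1112 D T h) (mem_cons (W539 D T h) (mem_cons (W88 D T h) (mem_cons (W2204 D T h) (mem_cons (W92 D T h) (mem_cons (W89 D T h) (mem_cons (W90 D T h) (mem_cons (W84 D T h) (mem_cons (W489 D T h) (mem_cons (W2210 D T h) (mem_cons (W2227 D T h) mem_nil)))))))))))))))) cl507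
theorem W2228 : WFK w2228 := fun D T h => wf_of_chk h mem_nil (mem_cons (L507 D T h) mem_nil) cw2228
theorem W2229 : WFK w2229 := fun D T h => wf_of_chk h (mem_cons (W2180 D T h) (mem_cons (W16 D T h) mem_nil)) mem_nil cw2229
theorem W2230 : WFK w2230 := fun D T h => wf_of_chk h (mem_cons (W1651 D T h) (mem_cons (W112 D T h) mem_nil)) mem_nil cw2230
theorem W2231 : WFK w2231 := fun D T h => wf_of_chk h mem_nil (mem_cons (L309 D T h) mem_nil) cw2231
theorem W2232 : WFK w2232 := fun D T h => wf_of_chk h (mem_cons (W2180 D T h) (mem_cons (W284 D T h) mem_nil)) mem_nil cw2232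
theorem W2233 : WFK w2233 := fun D T h => wf_of_chk h mem_nil (mem_cons (L507 D T h) mem_nil) cw2233
theorem W2234 : WFK w2234 := fun D T h => wf_of_chk h (mem_cons (W1502 D T h) (mem_cons (W112 D T h) mem_nil)) mem_nil cw2234
theorem W2235 : WFK w2235 := fun D T h => wf_of_chk h (mem_cons (W151 D T h) (mem_cons (W2164 D T h) mem_nil)) mem_nil cw2235
theorem W2236 : WFK w2236 := fun D T h => wf_of_chk h (mem_cons (W112 D T h) mem_nil) mem_nil cw2236
theorem W2237 : WFK w2237 := fun D T h => wf_of_chk h (mem_cons (W161 D T h) mem_nil) mem_nil cw2237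
theorem W2238 : WFK w2238 := fun D T h => wf_of_chk h (mem_cons (W1577 D T h) mem_nil) mem_nil cw2238
theorem W2239 : WFK w2239 := fun D T h => wf_of_chk h (mem_cons (W80 D T h) (mem_cons (W161 D T h) mem_nil)) mem_nil cw2239
theorem W2240 : WFK w2240 := fun D T h => wf_of_chk h (mem_cons (W103 D T h) (mem_cons (W161 D T h) mem_nil)) mem_nil cw2240
theorem W2241 : WFK w2241 := fun D T h => wf_of_chk h (mem_cons (W69 D T h) (mem_cons (W161 D T h) mem_nil)) mem_nil cw2241
theorem W2242 : WFK w2242 := fun D T h => wf_of_chk h (mem_cons (W112 D T h) (mem_cons (W161 D T h) mem_nil)) mem_nil cw2242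
theorem W2243 : WFK w2243 := fun D T h => wf_of_chk h (mem_cons (W488 D T h) mem_nil) mem_nil cw2243
theorem L508 : LFK l508 := fun D T h => lf_of_chk h (mem_cons (W1166 D T h) (mem_cons (W1447 D T h) (mem_cons (W69 D T h) (mem_cons (W1 D T h) (mem_cons (W112 D T h) (mem_cons (W93 D T h) (mem_cons (W1501 D T h) (mem_cons (W2243 D T h) (mem_cons (W971 D T h) (mem_cons (W80 D T h) (mem_cons (W91 D T h) (mem_cons (W2238 D T h) (mem_cons (W2239 D T h) (mem_cons (W521 D T h) (mem_cons (W2240 D T h) (mem_cons (W1355 D T h) (mem_cons (W2241 D T h) (mem_cons (W2236 D T h) (mem_cons (W2237 D T h) (mem_cons (W111 D T h) (mem_cons (W370 D T h) (mem_cons (W721 D T h) (mem_cons (W114 D T h) (mem_cons (W2242 D T h) (mem_cons (W267 D T h) mem_nil))))))))))))))))))))))))) cl508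
theorem W2244 : WFK w2244 := fun D T h => wf_of_chk h mem_nil (mem_cons (L508 D T h) mem_nil) cw2244
theorem W2245 : WFK w2245 := fun D T h => wf_of_chk h (mem_cons (W2244 D T h) (mem_cons (W16 D T h) mem_nil)) mem_nil cw2245
theorem W2246 : WFK w2246 := fun D T h => wf_of_chk h mem_nil (mem_cons (L270 D T h) mem_nil) cw2246
theorem W2247 : WFK w2247 := fun D T h => wf_of_chk h (mem_cons (W42 D T h) (mem_cons (W161 D T h) mem_nil)) mem_nil cw2247
theorem W2248 : WFK w2248 := fun D T h => wf_of_chk h (mem_cons (W2247 D T h) (mem_cons (W16 D T h) mem_nil)) mem_nil cw2248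
theorem W2249 : WFK w2249 := fun D T h => wf_of_chk h (mem_cons (W162 D T h) (mem_cons (W161 D T h) mem_nil)) mem_nil cw2249
theorem W2250 : WFK w2250 := fun D T h => wf_of_chk h (mem_cons (W2249 D T h) (mem_cons (W16 D T h) mem_nil)) mem_nil cw2250
theorem W2251 : WFK w2251 := fun D T h => wf_of_chk h (mem_cons (W42 D T h) (mem_cons (W112 D T h) mem_nil)) mem_nil cw2251
theorem W2252 : WFK w2252 := fun D T h => wf_of_chk h (mem_cons (W2251 D T h) (mem_cons (W16 D T h) mem_nil)) mem_nil cw2252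
theorem W2253 : WFK w2253 := fun D T h => wf_of_chk h (mem_cons (W23 D T h) (mem_cons (W161 D T h) mem_nil)) mem_nil cw2253
theorem W2254 : WFK w2254 := fun D T h => wf_of_chk h mem_nil (mem_cons (L310 D T h) mem_nil) cw2254
theorem W2255 : WFK w2255 := fun D T h => wf_of_chk h (mem_cons (W2254 D T h) (mem_cons (W112 D T h) mem_nil)) mem_nil cw2255
theorem W2256 : WFK w2256 := fun D T h => wf_of_chk h (mem_cons (W1139 D T h) (mem_cons (W1447 D T h) mem_nil)) mem_nil cw2256
theorem W2257 : WFK w2257 := fun D T h => wf_of_chk h (mem_cons (W16 D T h) (mem_cons (W161 D T h) mem_nil)) mem_nil cw2257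
theorem W2258 : WFK w2258 := fun D T h => wf_of_chk h (mem_cons (W220 D T h) (mem_cons (W2257 D T h) mem_nil)) mem_nil cw2258
theorem W2259 : WFK w2259 := fun D T h => wf_of_chk h (mem_cons (W1336 D T h) (mem_cons (W112 D T h) mem_nil)) mem_nil cw2259
theorem W2260 : WFK w2260 := fun D T h => wf_of_chk h (mem_cons (W1309 D T h) (mem_cons (W112 D T h) mem_nil)) mem_nil cw2260
theorem W2261 : WFK w2261 := fun D T h => wf_of_chk h (mem_cons (W162 D T h) (mem_cons (W2257 D T h) mem_nil)) mem_nil cw2261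
theorem L509 : LFK l509 := fun D T h => lf_of_chk h (mem_cons (W2179 D T h) (mem_cons (W2170 D T h) (mem_cons (W161 D T h) (mem_cons (W1310 D T h) (mem_cons (W284 D T h) (mem_cons (W1447 D T h) (mem_cons (W2228 D T h) (mem_cons (W1161 D T h) (mem_cons (W16 D T h) (mem_cons (W2233 D T h) (mem_cons (W1291 D T h) (mem_cons (W2260 D T h) (mem_cons (W2261 D T h) (mem_cons (W1458 D T h) (mem_cons (W2234 D T h) (mem_cons (W2253 D T h) (mem_cons (W50 D T h) (mem_cons (W2255 D T h) (mem_cons (W2256 D T h) (mem_cons (W2258 D T h) (mem_cons (W2259 D T h) (mem_cons (W2245 D T h) (mem_cons (W1346 D T h) (mem_cons (W2246 D T h) (mem_cons (W1595 D T h) (mem_cons (W2248 D T h) (mem_cons (W2250 D T h) (mem_cons (W2252 D T h) (mem_cons (W2229 D T h) (mem_cons (W2219 D T h) (mem_cons (W2230 D T h) (mem_cons (W2231 D T h) (mem_cons (W2232 D T h) (mem_cons (W817 D T h) (mem_cons (W2175 D T h) (mem_cons (W971 D T h) (mem_cons (W2222 D T h) (mem_cons (W2177 D T h) (mem_cons (W519 D T h) (mem_cons (W2223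 D T h) (mem_cons (W2174 D T h) (mem_cons (W111 D T h) (mem_cons (W370 D T h) (mem_cons (W1409 D T h) (mem_cons (W401 D T h) (mem_cons (W2235 D T h) (mem_cons (W2224 D T h) (mem_cons (W2225 D T h) (mem_cons (W2226 D T h) mem_nil))))))))))))))))))))))))))))))))))))))))))))))))) cl509
theorem W2262 : WFK w2262 := fun D T h => wf_of_chk h mem_nil (mem_cons (L509 D T h) mem_nil) cw2262
theorem W2263 : WFK w2263 := fun D T h => wf_of_chk h (mem_cons (W1312 D T h) (mem_cons (W2164 D T h) mem_nil)) mem_nil cw2263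
theorem W2264 : WFK w2264 := fun D T h => wf_of_chk h (mem_cons (W1166 D T h) (mem_cons (W16 D T h) mem_nil)) mem_nil cw2264
theorem W2265 : WFK w2265 := fun D T h => wf_of_chk h (mem_cons (W111 D T h) (mem_cons (W16 D T h) mem_nil)) mem_nil cw2265
theorem W2266 : WFK w2266 := fun D T h => wf_of_chk h (mem_cons (W1636 D T h) (mem_cons (W16 D T h) mem_nil)) mem_nil cw2266
theorem W2267 : WFK w2267 := fun D T h => wf_of_chk h (mem_cons (W1640 D T h) (mem_cons (W16 D T h) mem_nil)) mem_nil cw2267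
theorem W2268 : WFK w2268 := fun D T h => wf_of_chk h mem_nil (mem_cons (L116 D T h) mem_nil) cw2268
theorem W2269 : WFK w2269 := fun D T h => wf_of_chk h (mem_cons (W2268 D T h) (mem_cons (W16 D T h) mem_nil)) mem_nil cw2269
theorem L510 : LFK l510 := fun D T h => lf_of_chk h (mem_cons (W2219 D T h) (mem_cons (W284 D T h) (mem_cons (W179 D T h) (mem_cons (W366 D T h) (mem_cons (W16 D T h) (mem_cons (W620 D T h) (mem_cons (W2267 D T h) (mem_cons (W2046 D T h) (mem_cons (W2269 D T h) (mem_cons (W24 D T h) (mem_cons (W209 D T h) (mem_cons (W2265 D T h) (mem_cons (W721 D T h) (mem_cons (W2266 D T h) (mem_cons (W1390 D T h) (mem_cons (W2079 D T h) (mem_cons (W2157 D T h) (mem_cons (W2192 D T h) (mem_cons (W342 D T h) (mem_cons (W341 D T h) (mem_cons (W726 D T h) (mem_cons (W352 D T h) (mem_cons (W1696 D T h) (mem_cons (W183 D T h) mem_nil)))))))))))))))))))))))) cl510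
theorem W2270 : WFK w2270 := fun D T h => wf_of_chk h mem_nil (mem_cons (L510 D T h) mem_nil) cw2270
theorem W2271 : WFK w2271 := fun D T h => wf_of_chk h mem_nil (mem_cons (L510 D T h) mem_nil) cw2271
theorem W2272 : WFK w2272 := fun D T h => wf_of_chk h (mem_cons (W34 D T h) (mem_cons (W16 D T h) mem_nil)) mem_nil cw2272
theorem W2273 : WFK w2273 := fun D T h => wf_of_chk h (mem_cons (W2272 D T h) (mem_cons (W16 D T h) mem_nil)) mem_nil cw2273
theorem W2274 : WFK w2274 := fun D T h => wf_of_chk h (mem_cons (W1312 D T h) (mem_cons (W16 D T h) mem_nil)) mem_nil cw2274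
theorem W2275 : WFK w2275 := fun D T h => wf_of_chk h (mem_cons (W2274 D T h) (mem_cons (W16 D T h) mem_nil)) mem_nil cw2275
theorem W2276 : WFK w2276 := fun D T h => wf_of_chk h (mem_cons (W1312 D T h) (mem_cons (W16 D T h) mem_nil)) mem_nil cw2276
theorem W2277 : WFK w2277 := fun D T h => wf_of_chk h (mem_cons (W2276 D T h) (mem_cons (W16 D T h) mem_nil)) mem_nil cw2277
theorem W2278 : WFK w2278 := fun D T h => wf_of_chk h mem_nil (mem_cons (L505 D T h) mem_nil) cw2278
theorem W2279 : WFK w2279 := fun D T h => wf_of_chk h mem_nil (mem_cons (L297 D T h) mem_nil) cw2279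
theorem L511 : LFK l511 := fun D T h => lf_of_chk h (mem_cons (W2074 D T h) (mem_cons (W1528 D T h) (mem_cons (W16 D T h) (mem_cons (W12 D T h) (mem_cons (W2072 D T h) (mem_cons (W747 D T h) (mem_cons (W2073 D T h) (mem_cons (W432 D T h) (mem_cons (W2218 D T h) (mem_cons (W1143 D T h) (mem_cons (W2075 D T h) (mem_cons (W2076 D T h) (mem_cons (W2279 D T h) (mem_cons (W293 D T h) (mem_cons (W1530 D T h) (mem_cons (W301 D T h) (mem_cons (W2078 D T h) mem_nil))))))))))))))))) cl511
theorem W2280 : WFK w2280 := fun D T h => wf_of_chk h mem_nil (mem_cons (L511 D T h) mem_nil) cw2280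
theorem L512 : LFK l512 := fun D T h => lf_of_chk h (mem_cons (W2219 D T h) (mem_cons (W284 D T h) (mem_cons (W179 D T h) (mem_cons (W366 D T h) (mem_cons (W16 D T h) (mem_cons (W1408 D T h) (mem_cons (W2267 D T h) (mem_cons (W2216 D T h) (mem_cons (W2217 D T h) (mem_cons (W2027 D T h) (mem_cons (W2269 D T h) (mem_cons (W24 D T h) (mem_cons (W209 D T h) (mem_cons (W2196 D T h) (mem_cons (W2198 D T h) (mem_cons (W2200 D T h) (mem_cons (W2201 D T h) (mem_cons (W2265 D T h) (mem_cons (W721 D T h) (mem_cons (W2266 D T h) (mem_cons (W2278 D T h) (mem_cons (W2079 D T h) (mem_cons (W2157 D T h) (mem_cons (W2192 D T h) (mem_cons (W2280 D T h) (mem_cons (W2190 D T h) (mem_cons (W2191 D T h) (mem_cons (W342 D T h) (mem_cons (W341 D T h) (mem_cons (W1533 D T h) (mem_cons (W352 D T h) (mem_cons (W183 D T h) mem_nil)))))))))))))))))))))))))))))))) cl512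
theorem W2281 : WFK w2281 := fun D T h => wf_of_chk h mem_nil (mem_cons (L512 D T h) mem_nil) cw2281
theorem W2282 : WFK w2282 := fun D T h => wf_of_chk h (mem_cons (W23 D T h) (mem_cons (W1063 D T h) mem_nil)) mem_nil cw2282
theorem L513 : LFK l513 := fun D T h => lf_of_chk h (mem_cons (W2062 D T h) (mem_cons (W2170 D T h) (mem_cons (W16 D T h) (mem_cons (W2164 D T h) (mem_cons (W1310 D T h) (mem_cons (W284 D T h) (mem_cons (W682 D T h) (mem_cons (W1068 D T h) (mem_cons (W1291 D T h) (mem_cons (W2282 D T h) (mem_cons (W50 D T h) (mem_cons (W2273 D T h) (mem_cons (W1346 D T h) (mem_cons (W2246 D T h) (mem_cons (W1595 D T h) (mem_cons (W2275 D T h) (mem_cons (W2277 D T h) (mem_cons (W2281 D T h) (mem_cons (W2264 D T h) (mem_cons (W2219 D T h) (mem_cons (W2270 D T h) (mem_cons (W2231 D T h) (mem_cons (W2271 D T h) (mem_cons (W799 D T h) (mem_cons (W2185 D T h) (mem_cons (W2187 D T h) (mem_cons (W2188 D T h) (mem_cons (W2189 D T h) (mem_cons (W2220 D T h) (mem_cons (W2172 D T h) (mem_cons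 (W2221 D T h) (mem_cons (W2015 D T h) (mem_cons (W2037 D T h) (mem_cons (W2262 D T h) (mem_cons (W2263 D T h) (mem_cons (W2173 D T h) (mem_cons (W1166 D T h) (mem_cons (W2182 D T h) (mem_cons (W128 D T h) (mem_cons (W2183 D T h) (mem_cons (W2184 D T h) mem_nil))))))))))))))))))))))))))))))))))))))))) cl513
theorem W2283 : WFK w2283 := fun D T h => wf_of_chk h mem_nil (mem_cons (L513 D T h) mem_nil) cw2283
theorem W2284 : WFK w2284 := fun D T h => wf_of_chk h (mem_cons (W1228 D T h) (mem_cons (W16 D T h) mem_nil)) mem_nil cw2284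
theorem W2285 : WFK w2285 := fun D T h => wf_of_chk h (mem_cons (W42 D T h) (mem_cons (W495 D T h) mem_nil)) mem_nil cw2285
theorem W2286 : WFK w2286 := fun D T h => wf_of_chk h mem_nil (mem_cons (L279 D T h) mem_nil) cw2286
theorem W2287 : WFK w2287 := fun D T h => wf_of_chk h (mem_cons (W128 D T h) (mem_cons (W495 D T h) mem_nil)) mem_nil cw2287
theorem W2288 : WFK w2288 := fun D T h => wf_of_chk h (mem_cons (W220 D T h) (mem_cons (W1227 D T h) mem_nil)) mem_nil cw2288
theorem W2289 : WFK w2289 := fun D T h => wf_of_chk h (mem_cons (W1139 D T h) (mem_cons (W495 D T h) mem_nil)) mem_nil cw2289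
theorem W2290 : WFK w2290 := fun D T h => wf_of_chk h (mem_cons (W284 D T h) (mem_cons (W495 D T h) mem_nil)) mem_nil cw2290
theorem W2291 : WFK w2291 := fun D T h => wf_of_chk h mem_nil (mem_cons (L281 D T h) mem_nil) cw2291
theorem L514 : LFK l514 := fun D T h => lf_of_chk h (mem_cons (W1502 D T h) (mem_cons (W284 D T h) (mem_cons (W497 D T h) (mem_cons (W1226 D T h) (mem_cons (W16 D T h) (mem_cons (W14 D T h) (mem_cons (W1233 D T h) (mem_cons (W2291 D T h) (mem_cons (W1632 D T h) (mem_cons (W2027 D T h) (mem_cons (W2286 D T h) (mem_cons (W24 D T h) (mem_cons (W209 D T h) (mem_cons (W2287 D T h) (mem_cons (W2288 D T h) (mem_cons (W2289 D T h) (mem_cons (W2290 D T h) (mem_cons (W2284 D T h) (mem_cons (W42 D T h) (mem_cons (W2285 D T h) (mem_cons (W1390 D T h) (mem_cons (W2049 D T h) (mem_cons (W2050 D T h) (mem_cons (W2051 D T h) (mem_cons (W342 D T h) (mem_cons (W341 D T h) (mem_cons (W1231 D T h) (mem_cons (W1676 D T h) (mem_cons (W1680 D T h) (mem_cons (W1651 D T h) (mem_cons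 (W581 D T h) (mem_cons (W1326 D T h) mem_nil)))))))))))))))))))))))))))))))) cl514
theorem W2292 : WFK w2292 := fun D T h => wf_of_chk h mem_nil (mem_cons (L514 D T h) mem_nil) cw2292
theorem W2293 : WFK w2293 := fun D T h => wf_of_chk h (mem_cons (W42 D T h) (mem_cons (W495 D T h) mem_nil)) mem_nil cw2293
theorem W2294 : WFK w2294 := fun D T h => wf_of_chk h mem_nil (mem_cons (L276 D T h) mem_nil) cw2294
theorem W2295 : WFK w2295 := fun D T h => wf_of_chk h (mem_cons (W128 D T h) (mem_cons (W495 D T h) mem_nil)) mem_nil cw2295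
theorem W2296 : WFK w2296 := fun D T h => wf_of_chk h (mem_cons (W220 D T h) (mem_cons (W946 D T h) mem_nil)) mem_nil cw2296
theorem W2297 : WFK w2297 := fun D T h => wf_of_chk h (mem_cons (W1139 D T h) (mem_cons (W495 D T h) mem_nil)) mem_nil cw2297
theorem L515 : LFK l515 := fun D T h => lf_of_chk h (mem_cons (W1502 D T h) (mem_cons (W495 D T h) (mem_cons (W946 D T h) (mem_cons (W16 D T h) (mem_cons (W14 D T h) (mem_cons (W1221 D T h) (mem_cons (W2159 D T h) (mem_cons (W2294 D T h) (mem_cons (W24 D T h) (mem_cons (W209 D T h) (mem_cons (W2295 D T h) (mem_cons (W284 D T h) (mem_cons (W2296 D T h) (mem_cons (W2297 D T h) (mem_cons (W385 D T h) (mem_cons (W42 D T h) (mem_cons (W2293 D T h) (mem_cons (W1390 D T h) (mem_cons (W2049 D T h) (mem_cons (W2050 D T h) (mem_cons (W2051 D T h) (mem_cons (W342 D T h) (mem_cons (W341 D T h) (mem_cons (W1676 D T h) (mem_cons (W1651 D T h) (mem_cons (W1325 D T h) mem_nil)))))))))))))))))))))))))) cl515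
theorem W2298 : WFK w2298 := fun D T h => wf_of_chk h mem_nil (mem_cons (L515 D T h) mem_nil) cw2298
theorem L516 : LFK l516 := fun D T h => lf_of_chk h (mem_cons (W42 D T h) (mem_cons (W16 D T h) (mem_cons (W15 D T h) (mem_cons (W267 D T h) (mem_cons (W220 D T h) (mem_cons (W721 D T h) (mem_cons (W39 D T h) (mem_cons (W722 D T h) (mem_cons (W162 D T h) (mem_cons (W505 D T h) (mem_cons (W461 D T h) (mem_cons (W3 D T h) (mem_cons (W1398 D T h) (mem_cons (W759 D T h) (mem_cons (W161 D T h) (mem_cons (W1554 D T h) (mem_cons (W581 D T h) (mem_cons (W1325 D T h) (mem_cons (W1326 D T h) mem_nil))))))))))))))))))) cl516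
theorem W2299 : WFK w2299 := fun D T h => wf_of_chk h mem_nil (mem_cons (L516 D T h) mem_nil) cw2299
theorem L517 : LFK l517 := fun D T h => lf_of_chk h (mem_cons (W721 D T h) (mem_cons (W281 D T h) (mem_cons (W762 D T h) (mem_cons (W263 D T h) (mem_cons (W67 D T h) (mem_cons (W162 D T h) (mem_cons (W86 D T h) (mem_cons (W745 D T h) mem_nil)))))))) cl517
theorem W2300 : WFK w2300 := fun D T h => wf_of_chk h mem_nil (mem_cons (L517 D T h) mem_nil) cw2300
theorem L518 : LFK l518 := fun D T h => lf_of_chk h (mem_cons (W267 D T h) (mem_cons (W281 D T h) (mem_cons (W391 D T h) (mem_cons (W263 D T h) (mem_cons (W67 D T h) (mem_cons (W162 D T h) (mem_cons (W86 D T h) (mem_cons (W389 D T h) mem_nil)))))))) cl518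
theorem W2301 : WFK w2301 := fun D T h => wf_of_chk h mem_nil (mem_cons (L518 D T h) mem_nil) cw2301
theorem L519 : LFK l519 := fun D T h => lf_of_chk h (mem_cons (W17 D T h) (mem_cons (W50 D T h) (mem_cons (W508 D T h) (mem_cons (W202 D T h) (mem_cons (W203 D T h) (mem_cons (W2300 D T h) (mem_cons (W3 D T h) (mem_cons (W2301 D T h) (mem_cons (W200 D T h) (mem_cons (W199 D T h) (mem_cons (W201 D T h) mem_nil))))))))))) cl519
theorem W2302 : WFK w2302 := fun D T h => wf_of_chk h mem_nil (mem_cons (L519 D T h) mem_nil) cw2302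
theorem W2303 : WFK w2303 := fun D T h => wf_of_chk h mem_nil (mem_cons (L187 D T h) mem_nil) cw2303
theorem W2304 : WFK w2304 := fun D T h => wf_of_chk h mem_nil (mem_cons (L187 D T h) mem_nil) cw2304
theorem W2305 : WFK w2305 := fun D T h => wf_of_chk h mem_nil (mem_cons (L187 D T h) mem_nil) cw2305
theorem W2306 : WFK w2306 := fun D T h => wf_of_chk h mem_nil (mem_cons (L519 D T h) mem_nil) cw2306
theorem W2307 : WFK w2307 := fun D T h => wf_of_chk h mem_nil (mem_cons (L217 D T h) mem_nil) cw2307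
theorem W2308 : WFK w2308 := fun D T h => wf_of_chk h mem_nil (mem_cons (L519 D T h) mem_nil) cw2308
theorem W2309 : WFK w2309 := fun D T h => wf_of_chk h mem_nil (mem_cons (L187 D T h) mem_nil) cw2309
theorem L520 : LFK l520 := fun D T h => lf_of_chk h (mem_cons (W618 D T h) (mem_cons (W50 D T h) (mem_cons (W1 D T h) (mem_cons (W69 D T h) (mem_cons (W17 D T h) (mem_cons (W24 D T h) (mem_cons (W2309 D T h) (mem_cons (W2118 D T h) (mem_cons (W3 D T h) (mem_cons (W2119 D T h) (mem_cons (W2303 D T h) (mem_cons (W2107 D T h) (mem_cons (W2304 D T h) (mem_cons (W2305 D T h) (mem_cons (W2306 D T h) (mem_cons (W2308 D T h) mem_nil)))))))))))))))) cl520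
theorem W2310 : WFK w2310 := fun D T h => wf_of_chk h mem_nil (mem_cons (L520 D T h) mem_nil) cw2310
theorem L521 : LFK l521 := fun D T h => lf_of_chk h (mem_cons (W1502 D T h) (mem_cons (W508 D T h) (mem_cons (W50 D T h) (mem_cons (W16 D T h) (mem_cons (W1408 D T h) (mem_cons (W2299 D T h) (mem_cons (W2310 D T h) (mem_cons (W284 D T h) (mem_cons (W1632 D T h) (mem_cons (W2027 D T h) (mem_cons (W2302 D T h) (mem_cons (W24 D T h) (mem_cons (W209 D T h) (mem_cons (W2053 D T h) (mem_cons (W2054 D T h) (mem_cons (W1523 D T h) (mem_cons (W2055 D T h) (mem_cons (W2046 D T h) (mem_cons (W42 D T h) (mem_cons (W2048 D T h) (mem_cons (W1390 D T h) (mem_cons (W2070 D T h) (mem_cons (W2050 D T h) (mem_cons (W2051 D T h) (mem_cons (W342 D T h) (mem_cons (W341 D T h) (mem_cons (W1676 D T h) (mem_cons (W2219 D T h) mem_nil)))))))))))))))))))))))))))) cl521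
theorem W2311 : WFK w2311 := fun D T h => wf_of_chk h mem_nil (mem_cons (L521 D T h) mem_nil) cw2311
theorem W2312 : WFK w2312 := fun D T h => wf_of_chk h mem_nil (mem_cons (L513 D T h) mem_nil) cw2312
theorem W2313 : WFK w2313 := fun D T h => wf_of_chk h (mem_cons (W16 D T h) (mem_cons (W2169 D T h) mem_nil)) mem_nil cw2313
theorem L522 : LFK l522 := fun D T h => lf_of_chk h (mem_cons (W2057 D T h) (mem_cons (W804 D T h) (mem_cons (W16 D T h) (mem_cons (W284 D T h) (mem_cons (W2027 D T h) (mem_cons (W2164 D T h) (mem_cons (W1310 D T h) (mem_cons (W1333 D T h) (mem_cons (W2169 D T h) (mem_cons (W1318 D T h) (mem_cons (W2311 D T h) (mem_cons (W2312 D T h) (mem_cons (W2313 D T h) (mem_cons (W2283 D T h) (mem_cons (W1213 D T h) (mem_cons (W2292 D T h) (mem_cons (W2298 D T h) (mem_cons (W2061 D T h) (mem_cons (W2165 D T h) (mem_cons (W1502 D T h) (mem_cons (W2166 D T h) (mem_cons (W2062 D T h) (mem_cons (W1346 D T h) (mem_cons (W1019 D T h) (mem_cons (W1595 D T h) (mem_cons (W2151 D T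 h) (mem_cons (W2161 D T h) (mem_cons (W2162 D T h) (mem_cons (W2163 D T h) (mem_cons (W2059 D T h) (mem_cons (W50 D T h) (mem_cons (W2060 D T h) (mem_cons (W1327 D T h) mem_nil))))))))))))))))))))))))))))))))) cl522
theorem W2314 : WFK w2314 := fun D T h => wf_of_chk h mem_nil (mem_cons (L522 D T h) mem_nil) cw2314
theorem L523 : LFK l523 := fun D T h => lf_of_chk h (mem_cons (W581 D T h) (mem_cons (W1298 D T h) (mem_cons (W126 D T h) (mem_cons (W12 D T h) (mem_cons (W1616 D T h) (mem_cons (W1129 D T h) (mem_cons (W1317 D T h) (mem_cons (W1 D T h) (mem_cons (W1960 D T h) (mem_cons (W140 D T h) (mem_cons (W1128 D T h) (mem_cons (W1070 D T h) (mem_cons (W747 D T h) (mem_cons (W255 D T h) (mem_cons (W160 D T h) (mem_cons (W871 D T h) mem_nil)))))))))))))))) cl523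
theorem W2315 : WFK w2315 := fun D T h => wf_of_chk h mem_nil (mem_cons (L523 D T h) mem_nil) cw2315
theorem W2316 : WFK w2316 := fun D T h => wf_of_chk h (mem_cons (W1298 D T h) (mem_cons (W37 D T h) mem_nil)) mem_nil cw2316
theorem L524 : LFK l524 := fun D T h => lf_of_chk h (mem_cons (W42 D T h) (mem_cons (W1299 D T h) (mem_cons (W37 D T h) (mem_cons (W3 D T h) (mem_cons (W461 D T h) (mem_cons (W39 D T h) (mem_cons (W195 D T h) (mem_cons (W1 D T h) (mem_cons (W1554 D T h) (mem_cons (W1325 D T h) (mem_cons (W581 D T h) (mem_cons (W1326 D T h) (mem_cons (W1433 D T h) (mem_cons (W721 D T h) (mem_cons (W15 D T h) (mem_cons (W220 D T h) (mem_cons (W267 D T h) (mem_cons (W1528 D T h) mem_nil)))))))))))))))))) cl524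
theorem W2317 : WFK w2317 := fun D T h => wf_of_chk h mem_nil (mem_cons (L524 D T h) mem_nil) cw2317
theorem W2318 : WFK w2318 := fun D T h => wf_of_chk h mem_nil (mem_cons (L300 D T h) mem_nil) cw2318
theorem W2319 : WFK w2319 := fun D T h => wf_of_chk h mem_nil (mem_cons (L300 D T h) mem_nil) cw2319
theorem L525 : LFK l525 := fun D T h => lf_of_chk h (mem_cons (W2027 D T h) (mem_cons (W37 D T h) (mem_cons (W42 D T h) (mem_cons (W2318 D T h) (mem_cons (W164 D T h) (mem_cons (W2319 D T h) (mem_cons (W1298 D T h) (mem_cons (W220 D T h) (mem_cons (W1139 D T h) (mem_cons (W2315 D T h) (mem_cons (W2316 D T h) (mem_cons (W2317 D T h) mem_nil)))))))))))) cl525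
theorem W2320 : WFK w2320 := fun D T h => wf_of_chk h mem_nil (mem_cons (L525 D T h) mem_nil) cw2320
theorem W2321 : WFK w2321 := fun D T h => wf_of_chk h (mem_cons (W16 D T h) (mem_cons (W37 D T h) mem_nil)) mem_nil cw2321
theorem W2322 : WFK w2322 := fun D T h => wf_of_chk h mem_nil (mem_cons (L344 D T h) mem_nil) cw2322
theorem W2323 : WFK w2323 := fun D T h => wf_of_chk h mem_nil (mem_cons (L143 D T h) mem_nil) cw2323
theorem W2324 : WFK w2324 := fun D T h => wf_of_chk h mem_nil (mem_cons (L14 D T h) mem_nil) cw2324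
theorem L526 : LFK l526 := fun D T h => lf_of_chk h (mem_cons (W831 D T h) (mem_cons (W32 D T h) (mem_cons (W2324 D T h) (mem_cons (W1342 D T h) mem_nil)))) cl526
theorem W2325 : WFK w2325 := fun D T h => wf_of_chk h mem_nil (mem_cons (L526 D T h) mem_nil) cw2325
theorem L527 : LFK l527 := fun D T h => lf_of_chk h (mem_cons (W42 D T h) (mem_cons (W181 D T h) (mem_cons (W56 D T h) (mem_cons (W267 D T h) (mem_cons (W638 D T h) (mem_cons (W220 D T h) (mem_cons (W1528 D T h) (mem_cons (W16 D T h) (mem_cons (W2323 D T h) (mem_cons (W39 D T h) (mem_cons (W3 D T h) (mem_cons (W461 D T h) (mem_cons (W2325 D T h) (mem_cons (W1 D T h) (mem_cons (W1326 D T h) (mem_cons (W1554 D T h) (mem_cons (W1325 D T h) (mem_cons (W581 D T h) mem_nil)))))))))))))))))) cl527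
theorem W2326 : WFK w2326 := fun D T h => wf_of_chk h mem_nil (mem_cons (L527 D T h) mem_nil) cw2326
theorem W2327 : WFK w2327 := fun D T h => wf_of_chk h (mem_cons (W1327 D T h) (mem_cons (W37 D T h) mem_nil)) mem_nil cw2327
theorem W2328 : WFK w2328 := fun D T h => wf_of_chk h (mem_cons (W1322 D T h) (mem_cons (W37 D T h) mem_nil)) mem_nil cw2328
theorem W2329 : WFK w2329 := fun D T h => wf_of_chk h mem_nil (mem_cons (L308 D T h) mem_nil) cw2329
theorem W2330 : WFK w2330 := fun D T h => wf_of_chk h (mem_cons (W42 D T h) (mem_cons (W50 D T h) mem_nil)) mem_nil cw2330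
theorem W2331 : WFK w2331 := fun D T h => wf_of_chk h mem_nil (mem_cons (L344 D T h) mem_nil) cw2331
theorem W2332 : WFK w2332 := fun D T h => wf_of_chk h mem_nil (mem_cons (L488 D T h) mem_nil) cw2332
theorem W2333 : WFK w2333 := fun D T h => wf_of_chk h (mem_cons (W1231 D T h) (mem_cons (W50 D T h) mem_nil)) mem_nil cw2333
theorem W2334 : WFK w2334 := fun D T h => wf_of_chk h (mem_cons (W50 D T h) mem_nil) mem_nil cw2334
theorem L528 : LFK l528 := fun D T h => lf_of_chk h (mem_cons (W721 D T h) (mem_cons (W42 D T h) (mem_cons (W50 D T h) (mem_cons (W3 D T h) (mem_cons (W1296 D T h) (mem_cons (W15 D T h) (mem_cons (W1297 D T h) (mem_cons (W39 D T h) (mem_cons (W1535 D T h) (mem_cons (W2218 D T h) (mem_cons (W258 D T h) (mem_cons (W746 D T h) (mem_cons (W2074 D T h) (mem_cons (W748 D T h) (mem_cons (W282 D T h) (mem_cons (W263 D T h) (mem_cons (W815 D T h) (mem_cons (W762 D T h) mem_nil)))))))))))))))))) cl528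
theorem W2335 : WFK w2335 := fun D T h => wf_of_chk h mem_nil (mem_cons (L528 D T h) mem_nil) cw2335
theorem L529 : LFK l529 := fun D T h => lf_of_chk h (mem_cons (W267 D T h) (mem_cons (W42 D T h) (mem_cons (W50 D T h) (mem_cons (W3 D T h) (mem_cons (W260 D T h) (mem_cons (W15 D T h) (mem_cons (W1923 D T h) (mem_cons (W261 D T h) (mem_cons (W743 D T h) (mem_cons (W262 D T h) (mem_cons (W39 D T h) (mem_cons (W1535 D T h) (mem_cons (W354 D T h) (mem_cons (W1272 D T h) (mem_cons (W256 D T h) (mem_cons (W255 D T h) (mem_cons (W257 D T h) (mem_cons (W282 D T h) (mem_cons (W263 D T h) (mem_cons (W1807 D T h) mem_nil)))))))))))))))))))) cl529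
theorem W2336 : WFK w2336 := fun D T h => wf_of_chk h mem_nil (mem_cons (L529 D T h) mem_nil) cw2336
theorem W2337 : WFK w2337 := fun D T h => wf_of_chk h mem_nil (mem_cons (L344 D T h) mem_nil) cw2337
theorem W2338 : WFK w2338 := fun D T h => wf_of_chk h mem_nil (mem_cons (L159 D T h) mem_nil) cw2338
theorem W2339 : WFK w2339 := fun D T h => wf_of_chk h mem_nil (mem_cons (L159 D T h) mem_nil) cw2339
theorem W2340 : WFK w2340 := fun D T h => wf_of_chk h mem_nil (mem_cons (L159 D T h) mem_nil) cw2340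
theorem W2341 : WFK w2341 := fun D T h => wf_of_chk h (mem_cons (W16 D T h) (mem_cons (W341 D T h) mem_nil)) mem_nil cw2341
theorem W2342 : WFK w2342 := fun D T h => wf_of_chk h (mem_cons (W16 D T h) (mem_cons (W341 D T h) mem_nil)) mem_nil cw2342
theorem W2343 : WFK w2343 := fun D T h => wf_of_chk h (mem_cons (W220 D T h) (mem_cons (W50 D T h) mem_nil)) mem_nil cw2343
theorem W2344 : WFK w2344 := fun D T h => wf_of_chk h mem_nil (mem_cons (L471 D T h) mem_nil) cw2344
theorem L530 : LFK l530 := fun D T h => lf_of_chk h (mem_cons (W2322 D T h) (mem_cons (W177 D T h) (mem_cons (W50 D T h) (mem_cons (W24 D T h) (mem_cons (W2338 D T h) (mem_cons (W209 D T h) (mem_cons (W2343 D T h) (mem_cons (W284 D T h) (mem_cons (W1523 D T h) (mem_cons (W1019 D T h) (mem_cons (W2344 D T h) (mem_cons (W1346 D T h) (mem_cons (W2339 D T h) (mem_cons (W2340 D T h) (mem_cons (W2329 D T h) (mem_cons (W672 D T h) (mem_cons (W42 D T h) (mem_cons (W2330 D T h) (mem_cons (W2331 D T h) (mem_cons (W2332 D T h)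 (mem_cons (W2333 D T h) (mem_cons (W2334 D T h) (mem_cons (W449 D T h) (mem_cons (W341 D T h) (mem_cons (W2335 D T h) (mem_cons (W1408 D T h) (mem_cons (W2341 D T h) (mem_cons (W2342 D T h) (mem_cons (W2336 D T h) (mem_cons (W2159 D T h) (mem_cons (W2337 D T h) mem_nil))))))))))))))))))))))))))))))) cl530
theorem W2345 : WFK w2345 := fun D T h => wf_of_chk h mem_nil (mem_cons (L530 D T h) mem_nil) cw2345
theorem W2346 : WFK w2346 := fun D T h => wf_of_chk h mem_nil (mem_cons (L446 D T h) mem_nil) cw2346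
theorem L531 : LFK l531 := fun D T h => lf_of_chk h (mem_cons (W1929 D T h) mem_nil) cl531
theorem W2347 : WFK w2347 := fun D T h => wf_of_chk h mem_nil (mem_cons (L531 D T h) mem_nil) cw2347
theorem W2348 : WFK w2348 := fun D T h => wf_of_chk h mem_nil mem_nil cw2348
theorem W2349 : WFK w2349 := fun D T h => wf_of_chk h mem_nil mem_nil cw2349
theorem L532 : LFK l532 := fun D T h => lf_of_chk h (mem_cons (W193 D T h) (mem_cons (W2348 D T h) (mem_cons (W2349 D T h) (mem_cons (W25 D T h) mem_nil)))) cl532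
theorem W2350 : WFK w2350 := fun D T h => wf_of_chk h mem_nil (mem_cons (L532 D T h) mem_nil) cw2350
theorem L533 : LFK l533 := fun D T h => lf_of_chk h mem_nil cl533
theorem W2351 : WFK w2351 := fun D T h => wf_of_chk h mem_nil (mem_cons (L533 D T h) mem_nil) cw2351
theorem L534 : LFK l534 := fun D T h => lf_of_chk h mem_nil cl534
theorem W2353 : WFK w2353 := fun D T h => wf_of_chk h mem_nil (mem_cons (L534 D T h) mem_nil) cw2353
theorem L535 : LFK l535 := fun D T h => lf_of_chk h (mem_cons (W721 D T h) (mem_cons (W1919 D T h) (mem_cons (W10 D T h) (mem_cons (W3 D T h) (mem_cons (W2351 D T h) (mem_cons (W33 D T h) (mem_cons (W2353 D T h) (mem_cons (W2350 D T h) (mem_cons (W1412 D T h) (mem_cons (W746 D T h) (mem_cons (W258 D T h) (mem_cons (W747 D T h) (mem_cons (W748 D T h) (mem_cons (W1477 D T h) (mem_cons (W263 D T h) (mem_cons (W815 D T h) (mem_cons (W762 D T h) mem_nil))))))))))))))))) cl535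
theorem W2354 : WFK w2354 := fun D T h => wf_of_chk h mem_nil (mem_cons (L535 D T h) mem_nil) cw2354
theorem W2355 : WFK w2355 := fun D T h => wf_of_chk h mem_nil mem_nil cw2355
theorem L537 : LFK l537 := fun D T h => lf_of_chk h mem_nil cl537
theorem W2357 : WFK w2357 := fun D T h => wf_of_chk h mem_nil (mem_cons (L537 D T h) mem_nil) cw2357
theorem L538 : LFK l538 := fun D T h => lf_of_chk h mem_nil cl538
theorem W2359 : WFK w2359 := fun D T h => wf_of_chk h mem_nil (mem_cons (L538 D T h) mem_nil) cw2359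
theorem W2361 : WFK w2361 := fun D T h => wf_of_chk h mem_nil (mem_cons (L60 D T h) mem_nil) cw2361
theorem L540 : LFK l540 := fun D T h => lf_of_chk h (mem_cons (W42 D T h) (mem_cons (W1919 D T h) (mem_cons (W10 D T h) (mem_cons (W3 D T h) (mem_cons (W39 D T h) (mem_cons (W1172 D T h) (mem_cons (W851 D T h) (mem_cons (W2361 D T h) (mem_cons (W1412 D T h) (mem_cons (W1554 D T h) (mem_cons (W1325 D T h) (mem_cons (W581 D T h) (mem_cons (W1326 D T h) (mem_cons (W1477 D T h) (mem_cons (W721 D T h) (mem_cons (W267 D T h) (mem_cons (W152 D T h) (mem_cons (W722 D T h) (mem_cons (W431 D T h) (mem_cons (W959 D T h) mem_nil)))))))))))))))))))) cl540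
theorem W2362 : WFK w2362 := fun D T h => wf_of_chk h mem_nil (mem_cons (L540 D T h) mem_nil) cw2362
theorem L541 : LFK l541 := fun D T h => lf_of_chk h (mem_cons (W12 D T h) (mem_cons (W633 D T h) (mem_cons (W49 D T h) (mem_cons (W1432 D T h) (mem_cons (W861 D T h) (mem_cons (W1246 D T h) mem_nil)))))) cl541
theorem W2364 : WFK w2364 := fun D T h => wf_of_chk h mem_nil (mem_cons (L541 D T h) mem_nil) cw2364
theorem L542 : LFK l542 := fun D T h => lf_of_chk h (mem_cons (W831 D T h) (mem_cons (W1432 D T h) (mem_cons (W1033 D T h) (mem_cons (W32 D T h) mem_nil)))) cl542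
theorem W2365 : WFK w2365 := fun D T h => wf_of_chk h mem_nil (mem_cons (L542 D T h) mem_nil) cw2365
theorem L543 : LFK l543 := fun D T h => lf_of_chk h (mem_cons (W581 D T h) (mem_cons (W1298 D T h) (mem_cons (W126 D T h) (mem_cons (W12 D T h) (mem_cons (W1616 D T h) (mem_cons (W1129 D T h) (mem_cons (W281 D T h) (mem_cons (W2365 D T h) (mem_cons (W140 D T h) (mem_cons (W1960 D T h) (mem_cons (W1128 D T h) (mem_cons (W2364 D T h) (mem_cons (W255 D T h) (mem_cons (W747 D T h) (mem_cons (W160 D T h) (mem_cons (W871 D T h) mem_nil)))))))))))))))) cl543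
theorem W2366 : WFK w2366 := fun D T h => wf_of_chk h mem_nil (mem_cons (L543 D T h) mem_nil) cw2366
theorem W2367 : WFK w2367 := fun D T h => wf_of_chk h mem_nil (mem_cons (L135 D T h) mem_nil) cw2367
theorem W2368 : WFK w2368 := fun D T h => wf_of_chk h mem_nil (mem_cons (L300 D T h) mem_nil) cw2368
theorem W2369 : WFK w2369 := fun D T h => wf_of_chk h (mem_cons (W37 D T h) mem_nil) mem_nil cw2369
theorem L544 : LFK l544 := fun D T h => lf_of_chk h (mem_cons (W721 D T h) (mem_cons (W2 D T h) (mem_cons (W126 D T h) (mem_cons (W3 D T h) (mem_cons (W1409 D T h) (mem_cons (W39 D T h) (mem_cons (W2369 D T h) (mem_cons (W158 D T h) (mem_cons (W746 D T h) (mem_cons (W258 D T h) (mem_cons (W747 D T h) (mem_cons (W748 D T h) (mem_cons (W181 D T h) (mem_cons (W1528 D T h) mem_nil)))))))))))))) cl544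
theorem W2370 : WFK w2370 := fun D T h => wf_of_chk h mem_nil (mem_cons (L544 D T h) mem_nil) cw2370
theorem W2371 : WFK w2371 := fun D T h => wf_of_chk h (mem_cons (W16 D T h) (mem_cons (W177 D T h) mem_nil)) mem_nil cw2371
theorem L545 : LFK l545 := fun D T h => lf_of_chk h (mem_cons (W267 D T h) (mem_cons (W2 D T h) (mem_cons (W111 D T h) (mem_cons (W3 D T h) (mem_cons (W401 D T h) (mem_cons (W39 D T h) (mem_cons (W2058 D T h) (mem_cons (W91 D T h) (mem_cons (W256 D T h) (mem_cons (W1272 D T h) (mem_cons (W255 D T h) (mem_cons (W257 D T h) (mem_cons (W181 D T h) (mem_cons (W1528 D T h) mem_nil)))))))))))))) cl545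
theorem W2372 : WFK w2372 := fun D T h => wf_of_chk h mem_nil (mem_cons (L545 D T h) mem_nil) cw2372
theorem W2373 : WFK w2373 := fun D T h => wf_of_chk h mem_nil (mem_cons (L159 D T h) mem_nil) cw2373
theorem L546 : LFK l546 := fun D T h => lf_of_chk h (mem_cons (W2322 D T h) (mem_cons (W177 D T h) (mem_cons (W37 D T h) (mem_cons (W50 D T h) (mem_cons (W14 D T h) (mem_cons (W2373 D T h) (mem_cons (W2339 D T h) (mem_cons (W2367 D T h) (mem_cons (W2368 D T h) (mem_cons (W42 D T h) (mem_cons (W2331 D T h) (mem_cons (W2159 D T h) (mem_cons (W2337 D T h) (mem_cons (W2370 D T h) (mem_cons (W2371 D T h) (mem_cons (W2372 D T h) mem_nil)))))))))))))))) cl546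
theorem W2374 : WFK w2374 := fun D T h => wf_of_chk h mem_nil (mem_cons (L546 D T h) mem_nil) cw2374
theorem W2375 : WFK w2375 := fun D T h => wf_of_chk h mem_nil (mem_cons (L300 D T h) mem_nil) cw2375
theorem W2376 : WFK w2376 := fun D T h => wf_of_chk h mem_nil (mem_cons (L525 D T h) mem_nil) cw2376
theorem W2377 : WFK w2377 := fun D T h => wf_of_chk h mem_nil (mem_cons (L525 D T h) mem_nil) cw2377
theorem L547 : LFK l547 := fun D T h => lf_of_chk h (mem_cons (W219 D T h) (mem_cons (W15 D T h) (mem_cons (W158 D T h) (mem_cons (W795 D T h) (mem_cons (W141 D T h) (mem_cons (W798 D T h) (mem_cons (W796 D T h) (mem_cons (W797 D T h) (mem_cons (W499 D T h) mem_nil))))))))) cl547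
theorem W2378 : WFK w2378 := fun D T h => wf_of_chk h mem_nil (mem_cons (L547 D T h) mem_nil) cw2378
theorem L548 : LFK l548 := fun D T h => lf_of_chk h (mem_cons (W1690 D T h) (mem_cons (W16 D T h) (mem_cons (W42 D T h) (mem_cons (W1919 D T h) (mem_cons (W2378 D T h) (mem_cons (W912 D T h) (mem_cons (W815 D T h) mem_nil))))))) cl548
theorem W2379 : WFK w2379 := fun D T h => wf_of_chk h mem_nil (mem_cons (L548 D T h) mem_nil) cw2379
theorem W2380 : WFK w2380 := fun D T h => wf_of_chk h mem_nil (mem_cons (L257 D T h) mem_nil) cw2380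
theorem W2381 : WFK w2381 := fun D T h => wf_of_chk h mem_nil (mem_cons (L267 D T h) mem_nil) cw2381
theorem W2382 : WFK w2382 := fun D T h => wf_of_chk h (mem_cons (W368 D T h) (mem_cons (W37 D T h) mem_nil)) mem_nil cw2382
theorem W2383 : WFK w2383 := fun D T h => wf_of_chk h mem_nil (mem_cons (L17 D T h) mem_nil) cw2383
theorem W2384 : WFK w2384 := fun D T h => wf_of_chk h mem_nil (mem_cons (L25 D T h) mem_nil) cw2384
theorem L549 : LFK l549 := fun D T h => lf_of_chk h mem_nil cl549
theorem W2385 : WFK w2385 := fun D T h => wf_of_chk h mem_nil (mem_cons (L549 D T h) mem_nil) cw2385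
theorem L550 : LFK l550 := fun D T h => lf_of_chk h (mem_cons (W763 D T h) (mem_cons (W726 D T h) (mem_cons (W177 D T h) (mem_cons (W67 D T h) (mem_cons (W71 D T h) (mem_cons (W2385 D T h) (mem_cons (W1412 D T h) (mem_cons (W86 D T h) (mem_cons (W63 D T h) (mem_cons (W40 D T h) (mem_cons (W410 D T h) (mem_cons (W1718 D T h) (mem_cons (W696 D T h) (mem_cons (W137 D T h) (mem_cons (W2383 D T h) (mem_cons (W2384 D T h) mem_nil)))))))))))))))) cl550
theorem W2386 : WFK w2386 := fun D T h => wf_of_chk h mem_nil (mem_cons (L550 D T h) mem_nil) cw2386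
theorem L551 : LFK l551 := fun D T h => lf_of_chk h (mem_cons (W281 D T h) (mem_cons (W10 D T h) (mem_cons (W109 D T h) (mem_cons (W831 D T h) (mem_cons (W1101 D T h) (mem_cons (W1120 D T h) (mem_cons (W2386 D T h) (mem_cons (W1075 D T h) (mem_cons (W817 D T h) (mem_cons (W4 D T h) (mem_cons (W33 D T h) (mem_cons (W161 D T h) mem_nil)))))))))))) cl551
theorem W2387 : WFK w2387 := fun D T h => wf_of_chk h mem_nil (mem_cons (L551 D T h) mem_nil) cw2387
theorem W2388 : WFK w2388 := fun D T h => wf_of_chk h mem_nil (mem_cons (L269 D T h) mem_nil) cw2388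
theorem L552 : LFK l552 := fun D T h => lf_of_chk h (mem_cons (W2037 D T h) (mem_cons (W16 D T h) (mem_cons (W2015 D T h) (mem_cons (W2387 D T h) (mem_cons (W42 D T h) (mem_cons (W2388 D T h) (mem_cons (W1346 D T h) (mem_cons (W2246 D T h) (mem_cons (W2382 D T h) (mem_cons (W15 D T h) (mem_cons (W261 D T h) (mem_cons (W1192 D T h) (mem_cons (W1889 D T h) (mem_cons (W1063 D T h) (mem_cons (W803 D T h) (mem_cons (W2346 D T h) (mem_cons (W2379 D T h) (mem_cons (W1528 D T h) (mem_cons (W2380 D T h) (mem_cons (W1193 D T h) (mem_cons (W2381 D T h) mem_nil))))))))))))))))))))) cl552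
theorem W2389 : WFK w2389 := fun D T h => wf_of_chk h mem_nil (mem_cons (L552 D T h) mem_nil) cw2389
theorem L553 : LFK l553 := fun D T h => lf_of_chk h (mem_cons (W1528 D T h) (mem_cons (W831 D T h) (mem_cons (W3 D T h) (mem_cons (W173 D T h) (mem_cons (W39 D T h) (mem_cons (W1045 D T h) (mem_cons (W4 D T h) (mem_cons (W1718 D T h) mem_nil)))))))) cl553
theorem W2390 : WFK w2390 := fun D T h => wf_of_chk h mem_nil (mem_cons (L553 D T h) mem_nil) cw2390
theorem L554 : LFK l554 := fun D T h => lf_of_chk h (mem_cons (W2322 D T h) (mem_cons (W177 D T h) (mem_cons (W16 D T h) (mem_cons (W50 D T h) (mem_cons (W14 D T h) (mem_cons (W2373 D T h) (mem_cons (W24 D T h) (mem_cons (W2338 D T h) (mem_cons (W209 D T h) (mem_cons (W2343 D T h) (mem_cons (W2344 D T h) (mem_cons (W284 D T h) (mem_cons (W1523 D T h) (mem_cons (W2390 D T h) (mem_cons (W176 D T h) (mem_cons (W42 D T h) (mem_cons (W2050 D T h) (mem_cons (W2331 D T h) (mem_cons (W2049 D T h) (mem_cons (W2051 D T h) (mem_cons (W1502 D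 T h) (mem_cons (W342 D T h) (mem_cons (W341 D T h) (mem_cons (W1651 D T h) (mem_cons (W1676 D T h) mem_nil))))))))))))))))))))))))) cl554
theorem W2391 : WFK w2391 := fun D T h => wf_of_chk h mem_nil (mem_cons (L554 D T h) mem_nil) cw2391
theorem W2392 : WFK w2392 := fun D T h => wf_of_chk h (mem_cons (W1211 D T h) (mem_cons (W37 D T h) mem_nil)) mem_nil cw2392
theorem W2393 : WFK w2393 := fun D T h => wf_of_chk h (mem_cons (W1153 D T h) (mem_cons (W37 D T h) mem_nil)) mem_nil cw2393
theorem W2394 : WFK w2394 := fun D T h => wf_of_chk h (mem_cons (W2042 D T h) (mem_cons (W37 D T h) mem_nil)) mem_nil cw2394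
theorem W2395 : WFK w2395 := fun D T h => wf_of_chk h (mem_cons (W368 D T h) (mem_cons (W1299 D T h) mem_nil)) mem_nil cw2395
theorem L555 : LFK l555 := fun D T h => lf_of_chk h (mem_cons (W1528 D T h) (mem_cons (W281 D T h) (mem_cons (W39 D T h) (mem_cons (W924 D T h) (mem_cons (W3 D T h) (mem_cons (W152 D T h) (mem_cons (W878 D T h) (mem_cons (W4 D T h) (mem_cons (W1540 D T h) (mem_cons (W1489 D T h) (mem_cons (W160 D T h) (mem_cons (W926 D T h) mem_nil)))))))))))) cl555
theorem W2396 : WFK w2396 := fun D T h => wf_of_chk h mem_nil (mem_cons (L555 D T h) mem_nil) cw2396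
theorem W2397 : WFK w2397 := fun D T h => wf_of_chk h mem_nil (mem_cons (L555 D T h) mem_nil) cw2397
theorem L556 : LFK l556 := fun D T h => lf_of_chk h (mem_cons (W1528 D T h) (mem_cons (W920 D T h) (mem_cons (W3 D T h) (mem_cons (W924 D T h) (mem_cons (W852 D T h) (mem_cons (W1489 D T h) (mem_cons (W926 D T h) (mem_cons (W160 D T h) (mem_cons (W1540 D T h) mem_nil))))))))) cl556
theorem W2398 : WFK w2398 := fun D T h => wf_of_chk h mem_nil (mem_cons (L556 D T h) mem_nil) cw2398
theorem W2399 : WFK w2399 := fun D T h => wf_of_chk h mem_nil (mem_cons (L379 D T h) mem_nil) cw2399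
theorem W2400 : WFK w2400 := fun D T h => wf_of_chk h mem_nil (mem_cons (L385 D T h) mem_nil) cw2400
theorem W2401 : WFK w2401 := fun D T h => wf_of_chk h mem_nil (mem_cons (L369 D T h) mem_nil) cw2401
theorem W2402 : WFK w2402 := fun D T h => wf_of_chk h mem_nil (mem_cons (L385 D T h) mem_nil) cw2402
theorem L557 : LFK l557 := fun D T h => lf_of_chk h (mem_cons (W1346 D T h) (mem_cons (W42 D T h) (mem_cons (W16 D T h) (mem_cons (W2398 D T h) (mem_cons (W1904 D T h) (mem_cons (W2399 D T h) (mem_cons (W15 D T h) (mem_cons (W2395 D T h) (mem_cons (W1347 D T h) (mem_cons (W1348 D T h) (mem_cons (W801 D T h) (mem_cons (W1528 D T h) (mem_cons (W799 D T h) (mem_cons (W2396 D T h) (mem_cons (W1193 D T h) (mem_cons (W2397 D T h) (mem_cons (W929 D T h) (mem_cons (W267 D T h) (mem_cons (W1690 D T h) (mem_cons (W220 D T h) (mem_cons (W1139 D T h) (mem_cons (W1905 D T h) (mem_cons (W2400 D T h) (mem_cons (W2401 D T h) (mem_cons (W2402 D T h) mem_nil))))))))))))))))))))))))) cl557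
theorem W2403 : WFK w2403 := fun D T h => wf_of_chk h mem_nil (mem_cons (L557 D T h) mem_nil) cw2403
theorem W2404 : WFK w2404 := fun D T h => wf_of_chk h (mem_cons (W69 D T h) (mem_cons (W461 D T h) mem_nil)) mem_nil cw2404
theorem W2405 : WFK w2405 := fun D T h => wf_of_chk h mem_nil (mem_cons (L268 D T h) mem_nil) cw2405
theorem W2406 : WFK w2406 := fun D T h => wf_of_chk h (mem_cons (W69 D T h) (mem_cons (W461 D T h) mem_nil)) mem_nil cw2406
theorem L558 : LFK l558 := fun D T h => lf_of_chk h (mem_cons (W50 D T h) (mem_cons (W2346 D T h) (mem_cons (W220 D T h) (mem_cons (W15 D T h) (mem_cons (W155 D T h) (mem_cons (W209 D T h) (mem_cons (W24 D T h) (mem_cons (W1332 D T h) (mem_cons (W1166 D T h) (mem_cons (W932 D T h) (mem_cons (W1227 D T h) (mem_cons (W1331 D T h) (mem_cons (W2405 D T h) (mem_cons (W946 D T h) (mem_cons (W2404 D T h) (mem_cons (W341 D T h) (mem_cons (W2406 D T h) (mem_cons (W676 D T h) (mem_cons (W164 D T h) (mem_cons (W42 D T h) (mem_cons (W1231 D T h) mem_nil)))))))))))))))))))))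 cl558
theorem W2407 : WFK w2407 := fun D T h => wf_of_chk h mem_nil (mem_cons (L558 D T h) mem_nil) cw2407
theorem W2408 : WFK w2408 := fun D T h => wf_of_chk h mem_nil (mem_cons (L558 D T h) mem_nil) cw2408
theorem W2409 : WFK w2409 := fun D T h => wf_of_chk h mem_nil (mem_cons (L558 D T h) mem_nil) cw2409
theorem L559 : LFK l559 := fun D T h => lf_of_chk h (mem_cons (W1528 D T h) (mem_cons (W281 D T h) (mem_cons (W431 D T h) (mem_cons (W4 D T h) (mem_cons (W815 D T h) mem_nil))))) cl559
theorem W2410 : WFK w2410 := fun D T h => wf_of_chk h mem_nil (mem_cons (L559 D T h) mem_nil) cw2410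
theorem W2411 : WFK w2411 := fun D T h => wf_of_chk h (mem_cons (W144 D T h) (mem_cons (W155 D T h) mem_nil)) mem_nil cw2411
theorem W2412 : WFK w2412 := fun D T h => wf_of_chk h mem_nil (mem_cons (L265 D T h) mem_nil) cw2412
theorem W2413 : WFK w2413 := fun D T h => wf_of_chk h (mem_cons (W105 D T h) (mem_cons (W16 D T h) mem_nil)) mem_nil cw2413
theorem W2414 : WFK w2414 := fun D T h => wf_of_chk h mem_nil (mem_cons (L29 D T h) mem_nil) cw2414
theorem W2415 : WFK w2415 := fun D T h => wf_of_chk h mem_nil (mem_cons (L56 D T h) mem_nil) cw2415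
theorem W2416 : WFK w2416 := fun D T h => wf_of_chk h mem_nil (mem_cons (L232 D T h) mem_nil) cw2416
theorem L560 : LFK l560 := fun D T h => lf_of_chk h (mem_cons (W142 D T h) (mem_cons (W12 D T h) (mem_cons (W520 D T h) (mem_cons (W2415 D T h) (mem_cons (W239 D T h) (mem_cons (W2416 D T h) (mem_cons (W33 D T h) (mem_cons (W78 D T h) (mem_cons (W866 D T h) (mem_cons (W2414 D T h) (mem_cons (W216 D T h) mem_nil))))))))))) cl560
theorem W2417 : WFK w2417 := fun D T h => wf_of_chk h mem_nil (mem_cons (L560 D T h) mem_nil) cw2417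
theorem W2418 : WFK w2418 := fun D T h => wf_of_chk h (mem_cons (W220 D T h) (mem_cons (W144 D T h) mem_nil)) mem_nil cw2418
theorem W2419 : WFK w2419 := fun D T h => wf_of_chk h mem_nil (mem_cons (L119 D T h) mem_nil) cw2419
theorem W2420 : WFK w2420 := fun D T h => wf_of_chk h (mem_cons (W2419 D T h) (mem_cons (W16 D T h) mem_nil)) mem_nil cw2420
theorem W2421 : WFK w2421 := fun D T h => wf_of_chk h (mem_cons (W220 D T h) (mem_cons (W144 D T h) mem_nil)) mem_nil cw2421
theorem W2422 : WFK w2422 := fun D T h => wf_of_chk h mem_nil (mem_cons (L125 D T h) mem_nil) cw2422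
theorem W2423 : WFK w2423 := fun D T h => wf_of_chk h (mem_cons (W2422 D T h) (mem_cons (W16 D T h) mem_nil)) mem_nil cw2423
theorem W2424 : WFK w2424 := fun D T h => wf_of_chk h (mem_cons (W69 D T h) (mem_cons (W155 D T h) mem_nil)) mem_nil cw2424
theorem W2425 : WFK w2425 := fun D T h => wf_of_chk h (mem_cons (W105 D T h) (mem_cons (W155 D T h) mem_nil)) mem_nil cw2425
theorem W2426 : WFK w2426 := fun D T h => wf_of_chk h (mem_cons (W220 D T h) (mem_cons (W1198 D T h) mem_nil)) mem_nil cw2426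
theorem W2427 : WFK w2427 := fun D T h => wf_of_chk h (mem_cons (W521 D T h) (mem_cons (W155 D T h) mem_nil)) mem_nil cw2427
theorem W2428 : WFK w2428 := fun D T h => wf_of_chk h (mem_cons (W220 D T h) (mem_cons (W1198 D T h) mem_nil)) mem_nil cw2428
theorem W2429 : WFK w2429 := fun D T h => wf_of_chk h (mem_cons (W616 D T h) (mem_cons (W155 D T h) mem_nil)) mem_nil cw2429
theorem W2430 : WFK w2430 := fun D T h => wf_of_chk h (mem_cons (W1170 D T h) (mem_cons (W155 D T h) mem_nil)) mem_nil cw2430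
theorem W2431 : WFK w2431 := fun D T h => wf_of_chk h (mem_cons (W183 D T h) (mem_cons (W155 D T h) mem_nil)) mem_nil cw2431
theorem W2432 : WFK w2432 := fun D T h => wf_of_chk h (mem_cons (W93 D T h) (mem_cons (W16 D T h) mem_nil)) mem_nil cw2432
theorem W2433 : WFK w2433 := fun D T h => wf_of_chk h mem_nil (mem_cons (L319 D T h) mem_nil) cw2433
theorem W2434 : WFK w2434 := fun D T h => wf_of_chk h (mem_cons (W2433 D T h) (mem_cons (W144 D T h) mem_nil)) mem_nil cw2434
theorem W2435 : WFK w2435 := fun D T h => wf_of_chk h (mem_cons (W1128 D T h) (mem_cons (W144 D T h) mem_nil)) mem_nil cw2435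
theorem W2436 : WFK w2436 := fun D T h => wf_of_chk h (mem_cons (W93 D T h) (mem_cons (W155 D T h) mem_nil)) mem_nil cw2436
theorem W2437 : WFK w2437 := fun D T h => wf_of_chk h (mem_cons (W164 D T h) (mem_cons (W1198 D T h) mem_nil)) mem_nil cw2437
theorem W2438 : WFK w2438 := fun D T h => wf_of_chk h (mem_cons (W162 D T h) (mem_cons (W1198 D T h) mem_nil)) mem_nil cw2438
theorem W2439 : WFK w2439 := fun D T h => wf_of_chk h mem_nil (mem_cons (L272 D T h) mem_nil) cw2439
theorem W2440 : WFK w2440 := fun D T h => wf_of_chk h (mem_cons (W143 D T h) (mem_cons (W144 D T h) mem_nil)) mem_nil cw2440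
theorem L561 : LFK l561 := fun D T h => lf_of_chk h (mem_cons (W2411 D T h) (mem_cons (W461 D T h) (mem_cons (W230 D T h) (mem_cons (W144 D T h) (mem_cons (W535 D T h) (mem_cons (W537 D T h) (mem_cons (W2432 D T h) (mem_cons (W2015 D T h) (mem_cons (W1311 D T h) (mem_cons (W2440 D T h) (mem_cons (W2423 D T h) (mem_cons (W145 D T h) (mem_cons (W370 D T h) (mem_cons (W552 D T h) (mem_cons (W901 D T h) (mem_cons (W1189 D T h) (mem_cons (W2434 D T h) (mem_cons (W2435 D T h) (mem_cons (W401 D T h) (mem_cons (W2413 D T h) (mem_cons (W2417 D T h) (mem_cons (W2418 D T h) (mem_cons (W2420 D T h) (mem_cons (W1196 D T h) (mem_cons (W2421 D T h) (mem_cons (W16 D T h) (mem_cons (W932 D T h) (mem_cons (W1065 D T h) (mem_cons (W2424 D T h) (mem_cons (W2436 D T h) (mem_cons (W2437 D T h) (mem_cons (W2037 D T h) (mem_cons (W2438 D T h) (mem_cons (W2439 D T h) (mem_cons (W519 D T h) (mem_cons (W2425 D T h) (mem_cons (W521 D T h) (mem_cons (W2426 D T h) (mem_cons (W2427 D T h) (mem_cons (W128 D T h)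 (mem_cons (W2428 D T h) (mem_cons (W2429 D T h) (mem_cons (W799 D T h) (mem_cons (W2412 D T h) (mem_cons (W2430 D T h) (mem_cons (W549 D T h) (mem_cons (W548 D T h) (mem_cons (W2431 D T h) mem_nil)))))))))))))))))))))))))))))))))))))))))))))))) cl561
theorem W2441 : WFK w2441 := fun D T h => wf_of_chk h mem_nil (mem_cons (L561 D T h) mem_nil) cw2441
theorem W2442 : WFK w2442 := fun D T h => wf_of_chk h mem_nil (mem_cons (L391 D T h) mem_nil) cw2442
theorem W2443 : WFK w2443 := fun D T h => wf_of_chk h mem_nil (mem_cons (L28 D T h) mem_nil) cw2443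
theorem W2445 : WFK w2445 := fun D T h => wf_of_chk h mem_nil (mem_cons (L247 D T h) mem_nil) cw2445
theorem W2446 : WFK w2446 := fun D T h => wf_of_chk h (mem_cons (W831 D T h) (mem_cons (W16 D T h) mem_nil)) mem_nil cw2446
theorem W2448 : WFK w2448 := fun D T h => wf_of_chk h mem_nil (mem_cons (L176 D T h) mem_nil) cw2448
theorem W2452 : WFK w2452 := fun D T h => wf_of_chk h mem_nil (mem_cons (L178 D T h) mem_nil) cw2452
theorem W2453 : WFK w2453 := fun D T h => wf_of_chk h mem_nil (mem_cons (L267 D T h) mem_nil) cw2453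
theorem W2454 : WFK w2454 := fun D T h => wf_of_chk h mem_nil (mem_cons (L201 D T h) mem_nil) cw2454
theorem W2455 : WFK w2455 := fun D T h => wf_of_chk h mem_nil (mem_cons (L320 D T h) mem_nil) cw2455
theorem W2456 : WFK w2456 := fun D T h => wf_of_chk h mem_nil (mem_cons (L391 D T h) mem_nil) cw2456
theorem W2457 : WFK w2457 := fun D T h => wf_of_chk h mem_nil (mem_cons (L446 D T h) mem_nil) cw2457
theorem W2458 : WFK w2458 := fun D T h => wf_of_chk h mem_nil (mem_cons (L185 D T h) mem_nil) cw2458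
theorem W2459 : WFK w2459 := fun D T h => wf_of_chk h mem_nil (mem_cons (L326 D T h) mem_nil) cw2459
theorem W2460 : WFK w2460 := fun D T h => wf_of_chk h mem_nil (mem_cons (L338 D T h) mem_nil) cw2460
theorem W2461 : WFK w2461 := fun D T h => wf_of_chk h mem_nil (mem_cons (L325 D T h) mem_nil) cw2461
theorem W2462 : WFK w2462 := fun D T h => wf_of_chk h mem_nil (mem_cons (L69 D T h) mem_nil) cw2462
theorem W2463 : WFK w2463 := fun D T h => wf_of_chk h mem_nil (mem_cons (L69 D T h) mem_nil) cw2463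
theorem W2466 : WFK w2466 := fun D T h => wf_of_chk h (mem_cons (W461 D T h) mem_nil) mem_nil cw2466
theorem L563 : LFK l563 := fun D T h => lf_of_chk h (mem_cons (W216 D T h) (mem_cons (W461 D T h) (mem_cons (W155 D T h) (mem_cons (W1049 D T h) (mem_cons (W1739 D T h) (mem_cons (W404 D T h) (mem_cons (W473 D T h) (mem_cons (W91 D T h) (mem_cons (W80 D T h) (mem_cons (W633 D T h) (mem_cons (W2466 D T h) mem_nil))))))))))) cl563
theorem W2468 : WFK w2468 := fun D T h => wf_of_chk h (mem_cons (W16 D T h) mem_nil) mem_nil cw2468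
theorem W2471 : WFK w2471 := fun D T h => wf_of_chk h mem_nil mem_nil cw2471
theorem W2474 : WFK w2474 := fun D T h => wf_of_chk h mem_nil (mem_cons (L409 D T h) mem_nil) cw2474
theorem W2478 : WFK w2478 := fun D T h => wf_of_chk h mem_nil (mem_cons (L226 D T h) mem_nil) cw2478
theorem W2481 : WFK w2481 := fun D T h => wf_of_chk h mem_nil (mem_cons (L226 D T h) mem_nil) cw2481
theorem W2483 : WFK w2483 := fun D T h => wf_of_chk h mem_nil mem_nil cw2483
theorem W2485 : WFK w2485 := fun D T h => wf_of_chk h mem_nil (mem_cons (L226 D T h) mem_nil) cw2485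
theorem W2489 : WFK w2489 := fun D T h => wf_of_chk h mem_nil (mem_cons (L322 D T h) mem_nil) cw2489
theorem W2490 : WFK w2490 := fun D T h => wf_of_chk h mem_nil (mem_cons (L29 D T h) mem_nil) cw2490
theorem W2492 : WFK w2492 := fun D T h => wf_of_chk h mem_nil (mem_cons (L111 D T h) mem_nil) cw2492
theorem W2493 : WFK w2493 := fun D T h => wf_of_chk h mem_nil (mem_cons (L90 D T h) mem_nil) cw2493
theorem L566 : LFK l566 := fun D T h => lf_of_chk h mem_nil cl566
theorem W2503 : WFK w2503 := fun D T h => wf_of_chk h mem_nil (mem_cons (L165 D T h) mem_nil) cw2503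
theorem W2515 : WFK w2515 := fun D T h => wf_of_chk h (mem_cons (W16 D T h) mem_nil) mem_nil cw2515
theorem W2517 : WFK w2517 := fun D T h => wf_of_chk h (mem_cons (W16 D T h) mem_nil) mem_nil cw2517
theorem L570 : LFK l570 := fun D T h => lf_of_chk h (mem_cons (W4 D T h) (mem_cons (W192 D T h) (mem_cons (W852 D T h) mem_nil))) cl570
theorem W2518 : WFK w2518 := fun D T h => wf_of_chk h mem_nil (mem_cons (L570 D T h) mem_nil) cw2518
theorem W2519 : WFK w2519 := fun D T h => wf_of_chk h (mem_cons (W281 D T h) (mem_cons (W16 D T h) mem_nil)) mem_nil cw2519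
theorem L571 : LFK l571 := fun D T h => lf_of_chk h (mem_cons (W219 D T h) (mem_cons (W15 D T h) (mem_cons (W1 D T h) (mem_cons (W141 D T h) (mem_cons (W795 D T h) (mem_cons (W797 D T h) (mem_cons (W1997 D T h) (mem_cons (W798 D T h) (mem_cons (W499 D T h) mem_nil))))))))) cl571
theorem W2520 : WFK w2520 := fun D T h => wf_of_chk h mem_nil (mem_cons (L571 D T h) mem_nil) cw2520
theorem W2521 : WFK w2521 := fun D T h => wf_of_chk h mem_nil (mem_cons (L391 D T h) mem_nil) cw2521
theorem L572 : LFK l572 := fun D T h => lf_of_chk h (mem_cons (W2456 D T h) (mem_cons (W250 D T h) (mem_cons (W1065 D T h) (mem_cons (W581 D T h) (mem_cons (W2462 D T h) (mem_cons (W2463 D T h) (mem_cons (W301 D T h) (mem_cons (W2452 D T h) (mem_cons (W2078 D T h) (mem_cons (W901 D T h) (mem_cons (W2453 D T h) (mem_cons (W2454 D T h) (mem_cons (W2455 D T h) (mem_cons (W15 D T h) (mem_cons (W2520 D T h) (mem_cons (W2457 D T h) (mem_cons (W2521 D T h) (mem_cons (W2442 D T h) (mem_cons (W401 D T h) (mem_cons (W1385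 D T h) (mem_cons (W2458 D T h) (mem_cons (W2459 D T h) (mem_cons (W1193 D T h) (mem_cons (W2460 D T h) (mem_cons (W2461 D T h) mem_nil))))))))))))))))))))))))) cl572
theorem W2522 : WFK w2522 := fun D T h => wf_of_chk h mem_nil (mem_cons (L572 D T h) mem_nil) cw2522
theorem W2523 : WFK w2523 := fun D T h => wf_of_chk h mem_nil (mem_cons (L561 D T h) mem_nil) cw2523
theorem W2524 : WFK w2524 := fun D T h => wf_of_chk h (mem_cons (W1019 D T h) (mem_cons (W155 D T h) mem_nil)) mem_nil cw2524
theorem L573 : LFK l573 := fun D T h => lf_of_chk h (mem_cons (W914 D T h) (mem_cons (W161 D T h) (mem_cons (W3 D T h) (mem_cons (W1424 D T h) (mem_cons (W922 D T h) (mem_cons (W4 D T h) (mem_cons (W920 D T h) (mem_cons (W852 D T h) (mem_cons (W160 D T h) (mem_cons (W159 D T h) (mem_cons (W923 D T h) (mem_cons (W1563 D T h) (mem_cons (W924 D T h) mem_nil))))))))))))) cl573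
theorem W2525 : WFK w2525 := fun D T h => wf_of_chk h mem_nil (mem_cons (L573 D T h) mem_nil) cw2525
theorem W2526 : WFK w2526 := fun D T h => wf_of_chk h (mem_cons (W103 D T h) (mem_cons (W461 D T h) mem_nil)) mem_nil cw2526
theorem W2527 : WFK w2527 := fun D T h => wf_of_chk h (mem_cons (W220 D T h) mem_nil) mem_nil cw2527
theorem W2528 : WFK w2528 := fun D T h => wf_of_chk h (mem_cons (W1637 D T h) (mem_cons (W461 D T h) mem_nil)) mem_nil cw2528
theorem W2529 : WFK w2529 := fun D T h => wf_of_chk h mem_nil (mem_cons (L192 D T h) mem_nil) cw2529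
theorem W2530 : WFK w2530 := fun D T h => wf_of_chk h mem_nil (mem_cons (L44 D T h) mem_nil) cw2530
theorem W2531 : WFK w2531 := fun D T h => wf_of_chk h (mem_cons (W2530 D T h) (mem_cons (W461 D T h) mem_nil)) mem_nil cw2531
theorem W2532 : WFK w2532 := fun D T h => wf_of_chk h mem_nil (mem_cons (L268 D T h) mem_nil) cw2532
theorem W2533 : WFK w2533 := fun D T h => wf_of_chk h (mem_cons (W1528 D T h) mem_nil) mem_nil cw2533
theorem W2534 : WFK w2534 := fun D T h => wf_of_chk h mem_nil (mem_cons (L267 D T h) mem_nil) cw2534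
theorem W2535 : WFK w2535 := fun D T h => wf_of_chk h mem_nil (mem_cons (L267 D T h) mem_nil) cw2535
theorem W2536 : WFK w2536 := fun D T h => wf_of_chk h mem_nil (mem_cons (L257 D T h) mem_nil) cw2536
theorem W2537 : WFK w2537 := fun D T h => wf_of_chk h mem_nil (mem_cons (L267 D T h) mem_nil) cw2537
theorem W2538 : WFK w2538 := fun D T h => wf_of_chk h mem_nil (mem_cons (L446 D T h) mem_nil) cw2538
theorem W2539 : WFK w2539 := fun D T h => wf_of_chk h mem_nil (mem_cons (L391 D T h) mem_nil) cw2539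
theorem W2540 : WFK w2540 := fun D T h => wf_of_chk h mem_nil (mem_cons (L391 D T h) mem_nil) cw2540
theorem L574 : LFK l574 := fun D T h => lf_of_chk h (mem_cons (W2405 D T h) (mem_cons (W2525 D T h) (mem_cons (W220 D T h) (mem_cons (W154 D T h) (mem_cons (W155 D T h) (mem_cons (W2532 D T h) (mem_cons (W2106 D T h) (mem_cons (W2533 D T h) (mem_cons (W871 D T h) (mem_cons (W2526 D T h) (mem_cons (W160 D T h) (mem_cons (W2527 D T h) (mem_cons (W2534 D T h) (mem_cons (W2535 D T h) (mem_cons (W2536 D T h) (mem_cons (W2537 D T h) (mem_cons (W2531 D T h) (mem_cons (W2404 D T h) (mem_cons (W932 D T h) (mem_cons (W2538 D T h) (mem_cons (W2539 D T h) (mem_cons (W2540 D T h) (mem_cons (W2063 D T h) (mem_cons (W2528 D T h) (mem_cons (W2529 D T h) mem_nil))))))))))))))))))))))))) cl574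
theorem W2541 : WFK w2541 := fun D T h => wf_of_chk h mem_nil (mem_cons (L574 D T h) mem_nil) cw2541
theorem W2542 : WFK w2542 := fun D T h => wf_of_chk h mem_nil (mem_cons (L537 D T h) mem_nil) cw2542
theorem L575 : LFK l575 := fun D T h => lf_of_chk h (mem_cons (W924 D T h) (mem_cons (W281 D T h) (mem_cons (W3 D T h) (mem_cons (W1424 D T h) (mem_cons (W2542 D T h) (mem_cons (W4 D T h) (mem_cons (W1400 D T h) (mem_cons (W1402 D T h) (mem_cons (W1401 D T h) (mem_cons (W1403 D T h) (mem_cons (W920 D T h) (mem_cons (W852 D T h) (mem_cons (W1541 D T h) (mem_cons (W927 D T h) (mem_cons (W923 D T h) (mem_cons (W1404 D T h) mem_nil)))))))))))))))) cl575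
theorem W2543 : WFK w2543 := fun D T h => wf_of_chk h mem_nil (mem_cons (L575 D T h) mem_nil) cw2543
theorem W2544 : WFK w2544 := fun D T h => wf_of_chk h mem_nil (mem_cons (L24 D T h) mem_nil) cw2544
theorem W2545 : WFK w2545 := fun D T h => wf_of_chk h mem_nil (mem_cons (L474 D T h) mem_nil) cw2545
theorem W2546 : WFK w2546 := fun D T h => wf_of_chk h mem_nil (mem_cons (L1 D T h) mem_nil) cw2546
theorem W2547 : WFK w2547 := fun D T h => wf_of_chk h (mem_cons (W2546 D T h) (mem_cons (W461 D T h) mem_nil)) mem_nil cw2547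
theorem W2548 : WFK w2548 := fun D T h => wf_of_chk h mem_nil (mem_cons (L194 D T h) mem_nil) cw2548
theorem W2549 : WFK w2549 := fun D T h => wf_of_chk h mem_nil (mem_cons (L0 D T h) mem_nil) cw2549
theorem W2550 : WFK w2550 := fun D T h => wf_of_chk h (mem_cons (W2549 D T h) (mem_cons (W461 D T h) mem_nil)) mem_nil cw2550
theorem W2551 : WFK w2551 := fun D T h => wf_of_chk h mem_nil (mem_cons (L125 D T h) mem_nil) cw2551
theorem W2552 : WFK w2552 := fun D T h => wf_of_chk h mem_nil (mem_cons (L418 D T h) mem_nil) cw2552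
theorem W2553 : WFK w2553 := fun D T h => wf_of_chk h mem_nil (mem_cons (L391 D T h) mem_nil) cw2553
theorem W2554 : WFK w2554 := fun D T h => wf_of_chk h mem_nil (mem_cons (L81 D T h) mem_nil) cw2554
theorem W2555 : WFK w2555 := fun D T h => wf_of_chk h mem_nil (mem_cons (L475 D T h) mem_nil) cw2555
theorem W2556 : WFK w2556 := fun D T h => wf_of_chk h (mem_cons (W871 D T h) (mem_cons (W461 D T h) mem_nil)) mem_nil cw2556
theorem W2557 : WFK w2557 := fun D T h => wf_of_chk h (mem_cons (W1667 D T h) (mem_cons (W461 D T h) mem_nil)) mem_nil cw2557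
theorem W2558 : WFK w2558 := fun D T h => wf_of_chk h (mem_cons (W871 D T h) (mem_cons (W461 D T h) mem_nil)) mem_nil cw2558
theorem W2559 : WFK w2559 := fun D T h => wf_of_chk h mem_nil (mem_cons (L168 D T h) mem_nil) cw2559
theorem W2560 : WFK w2560 := fun D T h => wf_of_chk h mem_nil (mem_cons (L418 D T h) mem_nil) cw2560
theorem W2561 : WFK w2561 := fun D T h => wf_of_chk h mem_nil (mem_cons (L418 D T h) mem_nil) cw2561
theorem L576 : LFK l576 := fun D T h => lf_of_chk h (mem_cons (W1227 D T h) (mem_cons (W2543 D T h) (mem_cons (W220 D T h) (mem_cons (W15 D T h) (mem_cons (W616 D T h) (mem_cons (W2551 D T h) (mem_cons (W2552 D T h) (mem_cons (W1335 D T h) (mem_cons (W461 D T h) (mem_cons (W2553 D T h) (mem_cons (W2554 D T h) (mem_cons (W871 D T h) (mem_cons (W521 D T h) (mem_cons (W1540 D T h) (mem_cons (W1588 D T h) (mem_cons (W2555 D T h) (mem_cons (W2556 D T h) (mem_cons (W2534 D T h) (mem_cons (W2557 D T h) (mem_cons (W2558 D T h) (mem_cons (W2404 D T h) (mem_cons (W932 D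 T h) (mem_cons (W2559 D T h) (mem_cons (W2560 D T h) (mem_cons (W2538 D T h) (mem_cons (W2561 D T h) (mem_cons (W2544 D T h) (mem_cons (W2545 D T h) (mem_cons (W2547 D T h) (mem_cons (W2548 D T h) (mem_cons (W2550 D T h) mem_nil))))))))))))))))))))))))))))))) cl576
theorem W2562 : WFK w2562 := fun D T h => wf_of_chk h mem_nil (mem_cons (L576 D T h) mem_nil) cw2562
theorem W2563 : WFK w2563 := fun D T h => wf_of_chk h mem_nil (mem_cons (L194 D T h) mem_nil) cw2563
theorem L577 : LFK l577 := fun D T h => lf_of_chk h (mem_cons (W50 D T h) (mem_cons (W2346 D T h) (mem_cons (W220 D T h) (mem_cons (W15 D T h) (mem_cons (W155 D T h) (mem_cons (W209 D T h) (mem_cons (W24 D T h) (mem_cons (W1332 D T h) (mem_cons (W2404 D T h) (mem_cons (W932 D T h) (mem_cons (W1227 D T h) (mem_cons (W1331 D T h) (mem_cons (W2405 D T h) (mem_cons (W946 D T h) (mem_cons (W341 D T h) (mem_cons (W2406 D T h) (mem_cons (W2563 D T h) (mem_cons (W164 D T h) (mem_cons (W42 D T h) (mem_cons (W1231 D T h) mem_nil))))))))))))))))))))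 cl577
theorem W2564 : WFK w2564 := fun D T h => wf_of_chk h mem_nil (mem_cons (L577 D T h) mem_nil) cw2564
theorem W2565 : WFK w2565 := fun D T h => wf_of_chk h (mem_cons (W69 D T h) (mem_cons (W155 D T h) mem_nil)) mem_nil cw2565
theorem L578 : LFK l578 := fun D T h => lf_of_chk h (mem_cons (W4 D T h) (mem_cons (W1101 D T h) (mem_cons (W29 D T h) (mem_cons (W1535 D T h) mem_nil)))) cl578
theorem W2566 : WFK w2566 := fun D T h => wf_of_chk h mem_nil (mem_cons (L578 D T h) mem_nil) cw2566
theorem W2570 : WFK w2570 := fun D T h => wf_of_chk h mem_nil (mem_cons (L336 D T h) mem_nil) cw2570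
theorem W2572 : WFK w2572 := fun D T h => wf_of_chk h (mem_cons (W831 D T h) mem_nil) mem_nil cw2572
theorem W2573 : WFK w2573 := fun D T h => wf_of_chk h (mem_cons (W1386 D T h) mem_nil) mem_nil cw2573
theorem L580 : LFK l580 := fun D T h => lf_of_chk h (mem_cons (W2456 D T h) (mem_cons (W2521 D T h) (mem_cons (W15 D T h) (mem_cons (W10 D T h) (mem_cons (W554 D T h) (mem_cons (W621 D T h) (mem_cons (W1065 D T h) (mem_cons (W581 D T h) (mem_cons (W2462 D T h) (mem_cons (W2463 D T h) (mem_cons (W301 D T h) (mem_cons (W2452 D T h) (mem_cons (W2078 D T h) (mem_cons (W901 D T h) (mem_cons (W2453 D T h) (mem_cons (W2454 D T h) (mem_cons (W2455 D T h) (mem_cons (W401 D T h) (mem_cons (W2573 D T h) (mem_cons (W2458 D T h) (mem_cons (W2459 D T h) (mem_cons (W1193 D T h) (mem_cons (W2460 D T h) (mem_cons (W2461 D T h) (mem_cons (W2457 D T h) (mem_cons (W2442 D T h) mem_nil)))))))))))))))))))))))))) cl580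
theorem W2574 : WFK w2574 := fun D T h => wf_of_chk h mem_nil (mem_cons (L580 D T h) mem_nil) cw2574
theorem W2575 : WFK w2575 := fun D T h => wf_of_chk h mem_nil (mem_cons (L194 D T h) mem_nil) cw2575
theorem L581 : LFK l581 := fun D T h => lf_of_chk h (mem_cons (W1529 D T h) (mem_cons (W4 D T h) (mem_cons (W11 D T h) (mem_cons (W500 D T h) (mem_cons (W918 D T h) (mem_cons (W1473 D T h) (mem_cons (W44 D T h) mem_nil))))))) cl581
theorem W2576 : WFK w2576 := fun D T h => wf_of_chk h mem_nil (mem_cons (L581 D T h) mem_nil) cw2576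
theorem W2577 : WFK w2577 := fun D T h => wf_of_chk h (mem_cons (W1637 D T h) (mem_cons (W155 D T h) mem_nil)) mem_nil cw2577
theorem W2578 : WFK w2578 := fun D T h => wf_of_chk h (mem_cons (W112 D T h) (mem_cons (W155 D T h) mem_nil)) mem_nil cw2578
theorem W2579 : WFK w2579 := fun D T h => wf_of_chk h (mem_cons (W143 D T h) mem_nil) mem_nil cw2579
theorem L582 : LFK l582 := fun D T h => lf_of_chk h (mem_cons (W1620 D T h) (mem_cons (W42 D T h) (mem_cons (W143 D T h) (mem_cons (W3 D T h) (mem_cons (W39 D T h) (mem_cons (W38 D T h) (mem_cons (W40 D T h) (mem_cons (W990 D T h) (mem_cons (W41 D T h) (mem_cons (W1535 D T h) (mem_cons (W2579 D T h) (mem_cons (W46 D T h) (mem_cons (W44 D T h) (mem_cons (W47 D T h) (mem_cons (W2007 D T h) mem_nil))))))))))))))) cl582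
theorem W2580 : WFK w2580 := fun D T h => wf_of_chk h mem_nil (mem_cons (L582 D T h) mem_nil) cw2580
theorem L583 : LFK l583 := fun D T h => lf_of_chk h (mem_cons (W2517 D T h) (mem_cons (W1198 D T h) (mem_cons (W86 D T h) (mem_cons (W93 D T h) (mem_cons (W85 D T h) (mem_cons (W1929 D T h) (mem_cons (W1408 D T h) (mem_cons (W1 D T h) (mem_cons (W69 D T h) (mem_cons (W16 D T h) (mem_cons (W181 D T h) (mem_cons (W2580 D T h) (mem_cons (W78 D T h) (mem_cons (W105 D T h) (mem_cons (W33 D T h) (mem_cons (W1574 D T h) (mem_cons (W1588 D T h) (mem_cons (W573 D T h) (mem_cons (W521 D T h) (mem_cons (W1747 D T h) (mem_cons (W1826 D T h) (mem_cons (W616 D T h) (mem_cons (W1501 D T h) (mem_cons (W1206 D T h) mem_nil)))))))))))))))))))))))) cl583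
theorem W2581 : WFK w2581 := fun D T h => wf_of_chk h mem_nil (mem_cons (L583 D T h) mem_nil) cw2581
theorem W2582 : WFK w2582 := fun D T h => wf_of_chk h (mem_cons (W80 D T h) (mem_cons (W155 D T h) mem_nil)) mem_nil cw2582
theorem W2583 : WFK w2583 := fun D T h => wf_of_chk h (mem_cons (W105 D T h) (mem_cons (W155 D T h) mem_nil)) mem_nil cw2583
theorem W2584 : WFK w2584 := fun D T h => wf_of_chk h mem_nil (mem_cons (L116 D T h) mem_nil) cw2584
theorem W2585 : WFK w2585 := fun D T h => wf_of_chk h (mem_cons (W220 D T h) (mem_cons (W69 D T h) mem_nil)) mem_nil cw2585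
theorem L584 : LFK l584 := fun D T h => lf_of_chk h (mem_cons (W461 D T h) (mem_cons (W17 D T h) (mem_cons (W2309 D T h) (mem_cons (W281 D T h) (mem_cons (W15 D T h) (mem_cons (W1409 D T h) (mem_cons (W401 D T h) (mem_cons (W3 D T h) mem_nil)))))))) cl584
theorem W2586 : WFK w2586 := fun D T h => wf_of_chk h mem_nil (mem_cons (L584 D T h) mem_nil) cw2586
theorem W2587 : WFK w2587 := fun D T h => wf_of_chk h mem_nil (mem_cons (L584 D T h) mem_nil) cw2587
theorem W2588 : WFK w2588 := fun D T h => wf_of_chk h mem_nil (mem_cons (L584 D T h) mem_nil) cw2588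
theorem W2589 : WFK w2589 := fun D T h => wf_of_chk h (mem_cons (W1637 D T h) (mem_cons (W155 D T h) mem_nil)) mem_nil cw2589
theorem W2590 : WFK w2590 := fun D T h => wf_of_chk h (mem_cons (W112 D T h) (mem_cons (W155 D T h) mem_nil)) mem_nil cw2590
theorem L585 : LFK l585 := fun D T h => lf_of_chk h (mem_cons (W1473 D T h) (mem_cons (W109 D T h) (mem_cons (W3 D T h) (mem_cons (W281 D T h) (mem_cons (W1101 D T h) (mem_cons (W227 D T h) (mem_cons (W38 D T h) (mem_cons (W815 D T h) mem_nil)))))))) cl585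
theorem W2591 : WFK w2591 := fun D T h => wf_of_chk h mem_nil (mem_cons (L585 D T h) mem_nil) cw2591
theorem W2592 : WFK w2592 := fun D T h => wf_of_chk h (mem_cons (W2433 D T h) (mem_cons (W69 D T h) mem_nil)) mem_nil cw2592
theorem W2593 : WFK w2593 := fun D T h => wf_of_chk h (mem_cons (W1128 D T h) (mem_cons (W69 D T h) mem_nil)) mem_nil cw2593
theorem W2594 : WFK w2594 := fun D T h => wf_of_chk h (mem_cons (W143 D T h) (mem_cons (W69 D T h) mem_nil)) mem_nil cw2594
theorem W2595 : WFK w2595 := fun D T h => wf_of_chk h (mem_cons (W1929 D T h) (mem_cons (W69 D T h) mem_nil)) mem_nil cw2595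
theorem L586 : LFK l586 := fun D T h => lf_of_chk h (mem_cons (W2565 D T h) (mem_cons (W2346 D T h) (mem_cons (W126 D T h) (mem_cons (W281 D T h) (mem_cons (W69 D T h) (mem_cons (W1408 D T h) (mem_cons (W1640 D T h) (mem_cons (W2591 D T h) (mem_cons (W16 D T h) (mem_cons (W181 D T h) (mem_cons (W2594 D T h) (mem_cons (W2595 D T h) (mem_cons (W1360 D T h) (mem_cons (W1945 D T h) (mem_cons (W1064 D T h) (mem_cons (W2592 D T h) (mem_cons (W2593 D T h) (mem_cons (W461 D T h) (mem_cons (W1641 D T h) (mem_cons (W2584 D T h) (mem_cons (W2585 D T h) (mem_cons (W2586 D T h) (mem_cons (W2587 D T h) (mem_cons (W2588 D T h) (mem_cons (W1636 D T h) (mem_cons (W111 D T h) (mem_cons (W762 D T h) (mem_cons (W2575 D T h) (mem_cons (W2576 D T h) (mem_cons (W2577 D T h) (mem_cons (W2578 D T h) (mem_cons (W2566 D T h) (mem_cons (W2574 D T h) (mem_cons (W341 D T h) (mem_cons (W2581 D T h) (mem_cons (W1028 D T h) (mem_cons (W2582 D T h) (mem_cons (W2583 D T h) mem_nil))))))))))))))))))))))))))))))))))))))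 cl586
theorem W2596 : WFK w2596 := fun D T h => wf_of_chk h mem_nil (mem_cons (L586 D T h) mem_nil) cw2596
theorem W2597 : WFK w2597 := fun D T h => wf_of_chk h (mem_cons (W112 D T h) (mem_cons (W461 D T h) mem_nil)) mem_nil cw2597
theorem W2598 : WFK w2598 := fun D T h => wf_of_chk h mem_nil (mem_cons (L64 D T h) mem_nil) cw2598
theorem W2599 : WFK w2599 := fun D T h => wf_of_chk h (mem_cons (W2598 D T h) (mem_cons (W461 D T h) mem_nil)) mem_nil cw2599
theorem W2600 : WFK w2600 := fun D T h => wf_of_chk h (mem_cons (W2598 D T h) (mem_cons (W461 D T h) mem_nil)) mem_nil cw2600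
theorem W2601 : WFK w2601 := fun D T h => wf_of_chk h (mem_cons (W105 D T h) (mem_cons (W461 D T h) mem_nil)) mem_nil cw2601
theorem W2602 : WFK w2602 := fun D T h => wf_of_chk h (mem_cons (W105 D T h) (mem_cons (W461 D T h) mem_nil)) mem_nil cw2602
theorem W2603 : WFK w2603 := fun D T h => wf_of_chk h mem_nil (mem_cons (L103 D T h) mem_nil) cw2603
theorem W2604 : WFK w2604 := fun D T h => wf_of_chk h (mem_cons (W2603 D T h) (mem_cons (W461 D T h) mem_nil)) mem_nil cw2604
theorem W2605 : WFK w2605 := fun D T h => wf_of_chk h mem_nil (mem_cons (L106 D T h) mem_nil) cw2605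
theorem L587 : LFK l587 := fun D T h => lf_of_chk h (mem_cons (W1231 D T h) (mem_cons (W2346 D T h) (mem_cons (W220 D T h) (mem_cons (W15 D T h) (mem_cons (W155 D T h) (mem_cons (W1398 D T h) (mem_cons (W1408 D T h) (mem_cons (W461 D T h) (mem_cons (W1445 D T h) (mem_cons (W442 D T h) (mem_cons (W2605 D T h) (mem_cons (W722 D T h) (mem_cons (W2597 D T h) (mem_cons (W152 D T h) (mem_cons (W1440 D T h) (mem_cons (W2599 D T h) (mem_cons (W2600 D T h) (mem_cons (W341 D T h) (mem_cons (W2406 D T h) (mem_cons (W676 D T h) (mem_cons (W1372 D T h) (mem_cons (W2601 D T h) (mem_cons (W2602 D T h) (mem_cons (W2604 D T h) mem_nil)))))))))))))))))))))))) cl587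
theorem W2606 : WFK w2606 := fun D T h => wf_of_chk h mem_nil (mem_cons (L587 D T h) mem_nil) cw2606
theorem W2607 : WFK w2607 := fun D T h => wf_of_chk h (mem_cons (W69 D T h) (mem_cons (W461 D T h) mem_nil)) mem_nil cw2607
theorem W2608 : WFK w2608 := fun D T h => wf_of_chk h (mem_cons (W220 D T h) (mem_cons (W461 D T h) mem_nil)) mem_nil cw2608
theorem W2609 : WFK w2609 := fun D T h => wf_of_chk h mem_nil (mem_cons (L391 D T h) mem_nil) cw2609
theorem L588 : LFK l588 := fun D T h => lf_of_chk h (mem_cons (W50 D T h) (mem_cons (W2346 D T h) (mem_cons (W220 D T h) (mem_cons (W15 D T h) (mem_cons (W155 D T h) (mem_cons (W209 D T h) (mem_cons (W24 D T h) (mem_cons (W2609 D T h) (mem_cons (W2404 D T h) (mem_cons (W932 D T h) (mem_cons (W2599 D T h) (mem_cons (W2556 D T h) (mem_cons (W2531 D T h) (mem_cons (W2558 D T h) (mem_cons (W2550 D T h) (mem_cons (W341 D T h) (mem_cons (W2406 D T h) (mem_cons (W676 D T h) (mem_cons (W2608 D T h) (mem_cons (W2607 D T h) mem_nil))))))))))))))))))))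 cl588
theorem W2610 : WFK w2610 := fun D T h => wf_of_chk h mem_nil (mem_cons (L588 D T h) mem_nil) cw2610
theorem W2611 : WFK w2611 := fun D T h => wf_of_chk h (mem_cons (W1576 D T h) (mem_cons (W16 D T h) mem_nil)) mem_nil cw2611
theorem L589 : LFK l589 := fun D T h => lf_of_chk h (mem_cons (W461 D T h) (mem_cons (W341 D T h) (mem_cons (W1533 D T h) (mem_cons (W3 D T h) (mem_cons (W143 D T h) (mem_cons (W1396 D T h) (mem_cons (W1537 D T h) (mem_cons (W1960 D T h) (mem_cons (W140 D T h) (mem_cons (W1616 D T h) (mem_cons (W1722 D T h) (mem_cons (W284 D T h) (mem_cons (W1409 D T h) (mem_cons (W15 D T h) (mem_cons (W220 D T h) (mem_cons (W401 D T h) (mem_cons (W152 D T h) (mem_cons (W722 D T h) mem_nil)))))))))))))))))) cl589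
theorem W2612 : WFK w2612 := fun D T h => wf_of_chk h mem_nil (mem_cons (L589 D T h) mem_nil) cw2612
theorem W2613 : WFK w2613 := fun D T h => wf_of_chk h mem_nil (mem_cons (L589 D T h) mem_nil) cw2613
theorem W2615 : WFK w2615 := fun D T h => wf_of_chk h mem_nil (mem_cons (L338 D T h) mem_nil) cw2615
theorem W2616 : WFK w2616 := fun D T h => wf_of_chk h (mem_cons (W1637 D T h) (mem_cons (W461 D T h) mem_nil)) mem_nil cw2616
theorem W2618 : WFK w2618 := fun D T h => wf_of_chk h mem_nil (mem_cons (L325 D T h) mem_nil) cw2618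
theorem W2620 : WFK w2620 := fun D T h => wf_of_chk h mem_nil (mem_cons (L39 D T h) mem_nil) cw2620
theorem W2621 : WFK w2621 := fun D T h => wf_of_chk h mem_nil (mem_cons (L39 D T h) mem_nil) cw2621
theorem L592 : LFK l592 := fun D T h => lf_of_chk h (mem_cons (W152 D T h) (mem_cons (W281 D T h) (mem_cons (W815 D T h) (mem_cons (W1535 D T h) (mem_cons (W431 D T h) (mem_cons (W173 D T h) (mem_cons (W3 D T h) (mem_cons (W924 D T h) (mem_cons (W1613 D T h) (mem_cons (W4 D T h) (mem_cons (W1541 D T h) mem_nil))))))))))) cl592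
theorem W2623 : WFK w2623 := fun D T h => wf_of_chk h mem_nil (mem_cons (L592 D T h) mem_nil) cw2623
theorem W2624 : WFK w2624 := fun D T h => wf_of_chk h mem_nil (mem_cons (L563 D T h) mem_nil) cw2624
theorem W2625 : WFK w2625 := fun D T h => wf_of_chk h (mem_cons (W2603 D T h) (mem_cons (W461 D T h) mem_nil)) mem_nil cw2625
theorem W2626 : WFK w2626 := fun D T h => wf_of_chk h (mem_cons (W112 D T h) (mem_cons (W461 D T h) mem_nil)) mem_nil cw2626
theorem W2627 : WFK w2627 := fun D T h => wf_of_chk h mem_nil (mem_cons (L81 D T h) mem_nil) cw2627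
theorem W2628 : WFK w2628 := fun D T h => wf_of_chk h mem_nil (mem_cons (L168 D T h) mem_nil) cw2628
theorem W2629 : WFK w2629 := fun D T h => wf_of_chk h mem_nil (mem_cons (L168 D T h) mem_nil) cw2629
theorem L593 : LFK l593 := fun D T h => lf_of_chk h (mem_cons (W1227 D T h) (mem_cons (W2623 D T h) (mem_cons (W220 D T h) (mem_cons (W15 D T h) (mem_cons (W155 D T h) (mem_cons (W2621 D T h) (mem_cons (W1335 D T h) (mem_cons (W2620 D T h) (mem_cons (W461 D T h) (mem_cons (W2553 D T h) (mem_cons (W2627 D T h) (mem_cons (W1166 D T h) (mem_cons (W932 D T h) (mem_cons (W2560 D T h) (mem_cons (W2538 D T h) (mem_cons (W2561 D T h) (mem_cons (W2559 D T h) (mem_cons (W2628 D T h) (mem_cons (W2629 D T h) (mem_cons (W2625 D T h) (mem_cons (W2603 D T h) (mem_cons (W2624 D T h) (mem_cons (W1540 D T h) (mem_cons (W1588 D T h) (mem_cons (W871 D T h) (mem_cons (W2545 D T h) (mem_cons (W2544 D T h) (mem_cons (W2626 D T h) (mem_cons (W2548 D T h) (mem_cons (W2599 D T h) mem_nil))))))))))))))))))))))))))))))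 cl593
theorem W2630 : WFK w2630 := fun D T h => wf_of_chk h mem_nil (mem_cons (L593 D T h) mem_nil) cw2630
theorem W2631 : WFK w2631 := fun D T h => wf_of_chk h mem_nil (mem_cons (L168 D T h) mem_nil) cw2631
theorem W2632 : WFK w2632 := fun D T h => wf_of_chk h mem_nil (mem_cons (L196 D T h) mem_nil) cw2632
theorem W2633 : WFK w2633 := fun D T h => wf_of_chk h mem_nil (mem_cons (L531 D T h) mem_nil) cw2633
theorem W2634 : WFK w2634 := fun D T h => wf_of_chk h mem_nil (mem_cons (L531 D T h) mem_nil) cw2634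
theorem W2635 : WFK w2635 := fun D T h => wf_of_chk h mem_nil (mem_cons (L129 D T h) mem_nil) cw2635
theorem W2636 : WFK w2636 := fun D T h => wf_of_chk h mem_nil (mem_cons (L103 D T h) mem_nil) cw2636
theorem W2637 : WFK w2637 := fun D T h => wf_of_chk h mem_nil (mem_cons (L41 D T h) mem_nil) cw2637
theorem W2638 : WFK w2638 := fun D T h => wf_of_chk h mem_nil (mem_cons (L531 D T h) mem_nil) cw2638
theorem W2639 : WFK w2639 := fun D T h => wf_of_chk h mem_nil (mem_cons (L446 D T h) mem_nil) cw2639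
theorem L594 : LFK l594 := fun D T h => lf_of_chk h (mem_cons (W461 D T h) mem_nil) cl594
theorem W2640 : WFK w2640 := fun D T h => wf_of_chk h mem_nil (mem_cons (L594 D T h) mem_nil) cw2640
theorem W2642 : WFK w2642 := fun D T h => wf_of_chk h mem_nil (mem_cons (L330 D T h) mem_nil) cw2642
theorem W2643 : WFK w2643 := fun D T h => wf_of_chk h mem_nil (mem_cons (L168 D T h) mem_nil) cw2643
theorem W2645 : WFK w2645 := fun D T h => wf_of_chk h (mem_cons (W42 D T h) mem_nil) mem_nil cw2645
theorem W2646 : WFK w2646 := fun D T h => wf_of_chk h mem_nil (mem_cons (L559 D T h) mem_nil) cw2646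
theorem W2647 : WFK w2647 := fun D T h => wf_of_chk h mem_nil (mem_cons (L134 D T h) mem_nil) cw2647
theorem W2648 : WFK w2648 := fun D T h => wf_of_chk h mem_nil (mem_cons (L40 D T h) mem_nil) cw2648
theorem W2649 : WFK w2649 := fun D T h => wf_of_chk h (mem_cons (W220 D T h) (mem_cons (W429 D T h) mem_nil)) mem_nil cw2649
theorem L595 : LFK l595 := fun D T h => lf_of_chk h mem_nil cl595
theorem W2650 : WFK w2650 := fun D T h => wf_of_chk h mem_nil (mem_cons (L595 D T h) mem_nil) cw2650
theorem L596 : LFK l596 := fun D T h => lf_of_chk h (mem_cons (W2637 D T h) (mem_cons (W819 D T h) (mem_cons (W2636 D T h) (mem_cons (W1120 D T h) (mem_cons (W923 D T h) (mem_cons (W2492 D T h) (mem_cons (W2650 D T h) mem_nil))))))) cl596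
theorem W2651 : WFK w2651 := fun D T h => wf_of_chk h mem_nil (mem_cons (L596 D T h) mem_nil) cw2651
theorem W2652 : WFK w2652 := fun D T h => wf_of_chk h (mem_cons (W220 D T h) (mem_cons (W429 D T h) mem_nil)) mem_nil cw2652
theorem W2653 : WFK w2653 := fun D T h => wf_of_chk h (mem_cons (W220 D T h) (mem_cons (W153 D T h) mem_nil)) mem_nil cw2653
theorem L597 : LFK l597 := fun D T h => lf_of_chk h (mem_cons (W2650 D T h) (mem_cons (W428 D T h) (mem_cons (W923 D T h) (mem_cons (W2492 D T h) (mem_cons (W1092 D T h) (mem_cons (W2636 D T h) (mem_cons (W2637 D T h) mem_nil))))))) cl597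
theorem W2654 : WFK w2654 := fun D T h => wf_of_chk h mem_nil (mem_cons (L597 D T h) mem_nil) cw2654
theorem W2655 : WFK w2655 := fun D T h => wf_of_chk h (mem_cons (W220 D T h) (mem_cons (W153 D T h) mem_nil)) mem_nil cw2655
theorem L598 : LFK l598 := fun D T h => lf_of_chk h (mem_cons (W2637 D T h) (mem_cons (W281 D T h) (mem_cons (W1371 D T h) (mem_cons (W153 D T h) (mem_cons (W2492 D T h) (mem_cons (W2633 D T h) (mem_cons (W2634 D T h) mem_nil))))))) cl598
theorem W2656 : WFK w2656 := fun D T h => wf_of_chk h mem_nil (mem_cons (L598 D T h) mem_nil) cw2656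
theorem W2657 : WFK w2657 := fun D T h => wf_of_chk h mem_nil (mem_cons (L559 D T h) mem_nil) cw2657
theorem L599 : LFK l599 := fun D T h => lf_of_chk h (mem_cons (W2637 D T h) (mem_cons (W281 D T h) (mem_cons (W153 D T h) (mem_cons (W2492 D T h) mem_nil)))) cl599
theorem W2658 : WFK w2658 := fun D T h => wf_of_chk h mem_nil (mem_cons (L599 D T h) mem_nil) cw2658
theorem W2659 : WFK w2659 := fun D T h => wf_of_chk h mem_nil (mem_cons (L559 D T h) mem_nil) cw2659
theorem W2660 : WFK w2660 := fun D T h => wf_of_chk h mem_nil (mem_cons (L592 D T h) mem_nil) cw2660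
theorem W2661 : WFK w2661 := fun D T h => wf_of_chk h (mem_cons (W429 D T h) mem_nil) mem_nil cw2661
theorem L600 : LFK l600 := fun D T h => lf_of_chk h (mem_cons (W153 D T h) (mem_cons (W281 D T h) (mem_cons (W819 D T h) (mem_cons (W429 D T h) (mem_cons (W33 D T h) (mem_cons (W2637 D T h) mem_nil)))))) cl600
theorem W2664 : WFK w2664 := fun D T h => wf_of_chk h mem_nil (mem_cons (L600 D T h) mem_nil) cw2664
theorem W2665 : WFK w2665 := fun D T h => wf_of_chk h (mem_cons (W153 D T h) mem_nil) mem_nil cw2665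
theorem L601 : LFK l601 := fun D T h => lf_of_chk h (mem_cons (W2646 D T h) (mem_cons (W431 D T h) (mem_cons (W429 D T h) (mem_cons (W2647 D T h) (mem_cons (W1554 D T h) (mem_cons (W2660 D T h) (mem_cons (W2661 D T h) (mem_cons (W350 D T h) (mem_cons (W2664 D T h) (mem_cons (W1409 D T h) (mem_cons (W256 D T h) (mem_cons (W2648 D T h) (mem_cons (W2649 D T h) (mem_cons (W2651 D T h) (mem_cons (W2639 D T h) (mem_cons (W2652 D T h) (mem_cons (W16 D T h) (mem_cons (W718 D T h) (mem_cons (W2665 D T h) (mem_cons (W2656 D T h) (mem_cons (W572 D T h) (mem_cons (W2653 D T h) (mem_cons (W2654 D T h) (mem_cons (W1139 D T h) (mem_cons (W2655 D T h) (mem_cons (W2657 D T h) (mem_cons (W2658 D T h) (mem_cons (W2659 D T h) mem_nil)))))))))))))))))))))))))))) cl601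
theorem W2666 : WFK w2666 := fun D T h => wf_of_chk h mem_nil (mem_cons (L601 D T h) mem_nil) cw2666
theorem W2667 : WFK w2667 := fun D T h => wf_of_chk h (mem_cons (W2530 D T h) mem_nil) mem_nil cw2667
theorem W2668 : WFK w2668 := fun D T h => wf_of_chk h (mem_cons (W1637 D T h) (mem_cons (W461 D T h) mem_nil)) mem_nil cw2668
theorem W2669 : WFK w2669 := fun D T h => wf_of_chk h (mem_cons (W721 D T h) mem_nil) mem_nil cw2669
theorem L602 : LFK l602 := fun D T h => lf_of_chk h (mem_cons (W2405 D T h) (mem_cons (W2615 D T h) (mem_cons (W220 D T h) (mem_cons (W15 D T h) (mem_cons (W155 D T h) (mem_cons (W2101 D T h) (mem_cons (W438 D T h) (mem_cons (W2669 D T h) (mem_cons (W1166 D T h) (mem_cons (W932 D T h) (mem_cons (W2538 D T h) (mem_cons (W2539 D T h) (mem_cons (W2540 D T h) (mem_cons (W871 D T h) (mem_cons (W2526 D T h) (mem_cons (W160 D T h) (mem_cons (W2667 D T h) (mem_cons (W2625 D T h) (mem_cons (W2556 D T h) (mem_cons (W2536 D T h) (mem_cons (W2558 D T h) (mem_cons (W2534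 D T h) (mem_cons (W2063 D T h) (mem_cons (W2616 D T h) (mem_cons (W2668 D T h) (mem_cons (W2531 D T h) mem_nil)))))))))))))))))))))))))) cl602
theorem W2670 : WFK w2670 := fun D T h => wf_of_chk h mem_nil (mem_cons (L602 D T h) mem_nil) cw2670
theorem W2671 : WFK w2671 := fun D T h => wf_of_chk h mem_nil (mem_cons (L120 D T h) mem_nil) cw2671
theorem L603 : LFK l603 := fun D T h => lf_of_chk h (mem_cons (W153 D T h) (mem_cons (W281 D T h) (mem_cons (W2671 D T h) (mem_cons (W4 D T h) (mem_cons (W2635 D T h) (mem_cons (W2636 D T h) (mem_cons (W2637 D T h) (mem_cons (W1403 D T h) (mem_cons (W924 D T h) (mem_cons (W920 D T h) (mem_cons (W852 D T h) (mem_cons (W1404 D T h) mem_nil)))))))))))) cl603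
theorem W2672 : WFK w2672 := fun D T h => wf_of_chk h mem_nil (mem_cons (L603 D T h) mem_nil) cw2672
theorem W2673 : WFK w2673 := fun D T h => wf_of_chk h (mem_cons (W1574 D T h) (mem_cons (W461 D T h) mem_nil)) mem_nil cw2673
theorem W2674 : WFK w2674 := fun D T h => wf_of_chk h mem_nil (mem_cons (L1 D T h) mem_nil) cw2674
theorem W2675 : WFK w2675 := fun D T h => wf_of_chk h (mem_cons (W2674 D T h) (mem_cons (W461 D T h) mem_nil)) mem_nil cw2675
theorem L604 : LFK l604 := fun D T h => lf_of_chk h (mem_cons (W1227 D T h) (mem_cons (W2672 D T h) (mem_cons (W220 D T h) (mem_cons (W15 D T h) (mem_cons (W155 D T h) (mem_cons (W2620 D T h) (mem_cons (W2621 D T h) (mem_cons (W1335 D T h) (mem_cons (W2627 D T h) (mem_cons (W2553 D T h) (mem_cons (W2554 D T h) (mem_cons (W1166 D T h) (mem_cons (W932 D T h) (mem_cons (W2559 D T h) (mem_cons (W2560 D T h) (mem_cons (W2538 D T h) (mem_cons (W2561 D T h) (mem_cons (W2628 D T h) (mem_cons (W2629 D T h) (mem_cons (W2550 D T h) (mem_cons (W871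 D T h) (mem_cons (W2673 D T h) (mem_cons (W1540 D T h) (mem_cons (W1588 D T h) (mem_cons (W2625 D T h) (mem_cons (W2556 D T h) (mem_cons (W2534 D T h) (mem_cons (W2557 D T h) (mem_cons (W2558 D T h) (mem_cons (W2544 D T h) (mem_cons (W2545 D T h) (mem_cons (W2675 D T h) (mem_cons (W2548 D T h) mem_nil))))))))))))))))))))))))))))))))) cl604
theorem W2676 : WFK w2676 := fun D T h => wf_of_chk h mem_nil (mem_cons (L604 D T h) mem_nil) cw2676
theorem W2677 : WFK w2677 := fun D T h => wf_of_chk h mem_nil (mem_cons (L592 D T h) mem_nil) cw2677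
theorem W2678 : WFK w2678 := fun D T h => wf_of_chk h mem_nil (mem_cons (L385 D T h) mem_nil) cw2678
theorem W2679 : WFK w2679 := fun D T h => wf_of_chk h mem_nil (mem_cons (L298 D T h) mem_nil) cw2679
theorem W2680 : WFK w2680 := fun D T h => wf_of_chk h mem_nil (mem_cons (L380 D T h) mem_nil) cw2680
theorem W2681 : WFK w2681 := fun D T h => wf_of_chk h mem_nil (mem_cons (L585 D T h) mem_nil) cw2681
theorem W2682 : WFK w2682 := fun D T h => wf_of_chk h mem_nil (mem_cons (L592 D T h) mem_nil) cw2682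
theorem L605 : LFK l605 := fun D T h => lf_of_chk h (mem_cons (W794 D T h) (mem_cons (W42 D T h) (mem_cons (W16 D T h) (mem_cons (W2681 D T h) (mem_cons (W2682 D T h) (mem_cons (W152 D T h) (mem_cons (W2680 D T h) (mem_cons (W1347 D T h) (mem_cons (W801 D T h) (mem_cons (W1348 D T h) (mem_cons (W799 D T h) (mem_cons (W2677 D T h) (mem_cons (W1924 D T h) (mem_cons (W1193 D T h) (mem_cons (W815 D T h) (mem_cons (W1690 D T h) (mem_cons (W2678 D T h) (mem_cons (W2679 D T h) (mem_cons (W1703 D T h) mem_nil))))))))))))))))))) cl605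
theorem W2683 : WFK w2683 := fun D T h => wf_of_chk h mem_nil (mem_cons (L605 D T h) mem_nil) cw2683
theorem W2684 : WFK w2684 := fun D T h => wf_of_chk h mem_nil (mem_cons (L89 D T h) mem_nil) cw2684
theorem W2685 : WFK w2685 := fun D T h => wf_of_chk h mem_nil (mem_cons (L240 D T h) mem_nil) cw2685
theorem W2686 : WFK w2686 := fun D T h => wf_of_chk h mem_nil (mem_cons (L1 D T h) mem_nil) cw2686
theorem L606 : LFK l606 := fun D T h => lf_of_chk h (mem_cons (W1616 D T h) (mem_cons (W341 D T h) (mem_cons (W1436 D T h) (mem_cons (W12 D T h) (mem_cons (W1549 D T h) (mem_cons (W1537 D T h) (mem_cons (W1533 D T h) (mem_cons (W603 D T h) (mem_cons (W629 D T h) (mem_cons (W2686 D T h) (mem_cons (W284 D T h) (mem_cons (W2684 D T h) (mem_cons (W432 D T h) (mem_cons (W2603 D T h) (mem_cons (W2685 D T h) (mem_cons (W431 D T h) (mem_cons (W959 D T h) mem_nil))))))))))))))))) cl606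
theorem W2687 : WFK w2687 := fun D T h => wf_of_chk h mem_nil (mem_cons (L606 D T h) mem_nil) cw2687
theorem L607 : LFK l607 := fun D T h => lf_of_chk h (mem_cons (W1403 D T h) (mem_cons (W33 D T h) (mem_cons (W1797 D T h) (mem_cons (W149 D T h) (mem_cons (W802 D T h) (mem_cons (W210 D T h) (mem_cons (W915 D T h) (mem_cons (W919 D T h) (mem_cons (W854 D T h) mem_nil))))))))) cl607
theorem W2688 : WFK w2688 := fun D T h => wf_of_chk h mem_nil (mem_cons (L607 D T h) mem_nil) cw2688
theorem W2689 : WFK w2689 := fun D T h => wf_of_chk h (mem_cons (W1128 D T h) mem_nil) mem_nil cw2689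
theorem W2690 : WFK w2690 := fun D T h => wf_of_chk h mem_nil (mem_cons (L1 D T h) mem_nil) cw2690
theorem W2691 : WFK w2691 := fun D T h => wf_of_chk h (mem_cons (W2690 D T h) mem_nil) mem_nil cw2691
theorem W2692 : WFK w2692 := fun D T h => wf_of_chk h mem_nil (mem_cons (L320 D T h) mem_nil) cw2692
theorem W2693 : WFK w2693 := fun D T h => wf_of_chk h (mem_cons (W69 D T h) (mem_cons (W2690 D T h) mem_nil)) mem_nil cw2693
theorem W2694 : WFK w2694 := fun D T h => wf_of_chk h (mem_cons (W69 D T h) (mem_cons (W2690 D T h) mem_nil)) mem_nil cw2694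
theorem L608 : LFK l608 := fun D T h => lf_of_chk h (mem_cons (W50 D T h) (mem_cons (W2688 D T h) (mem_cons (W220 D T h) (mem_cons (W15 D T h) (mem_cons (W2692 D T h) (mem_cons (W209 D T h) (mem_cons (W24 D T h) (mem_cons (W2609 D T h) (mem_cons (W1166 D T h) (mem_cons (W932 D T h) (mem_cons (W1227 D T h) (mem_cons (W1331 D T h) (mem_cons (W2405 D T h) (mem_cons (W946 D T h) (mem_cons (W2693 D T h) (mem_cons (W2689 D T h) (mem_cons (W2691 D T h) (mem_cons (W2694 D T h) (mem_cons (W2563 D T h) (mem_cons (W164 D T h) (mem_cons (W42 D T h) (mem_cons (W1231 D T h) mem_nil)))))))))))))))))))))) cl608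
theorem W2695 : WFK w2695 := fun D T h => wf_of_chk h mem_nil (mem_cons (L608 D T h) mem_nil) cw2695
theorem L609 : LFK l609 := fun D T h => lf_of_chk h (mem_cons (W50 D T h) (mem_cons (W2346 D T h) (mem_cons (W220 D T h) (mem_cons (W15 D T h) (mem_cons (W1929 D T h) (mem_cons (W209 D T h) (mem_cons (W24 D T h) (mem_cons (W2609 D T h) (mem_cons (W2404 D T h) (mem_cons (W932 D T h) (mem_cons (W2625 D T h) (mem_cons (W2556 D T h) (mem_cons (W2531 D T h) (mem_cons (W2558 D T h) (mem_cons (W2550 D T h) (mem_cons (W341 D T h) (mem_cons (W2406 D T h) (mem_cons (W2607 D T h) (mem_cons (W2608 D T h) mem_nil))))))))))))))))))) cl609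
theorem W2696 : WFK w2696 := fun D T h => wf_of_chk h mem_nil (mem_cons (L609 D T h) mem_nil) cw2696
theorem W2697 : WFK w2697 := fun D T h => wf_of_chk h mem_nil (mem_cons (L382 D T h) mem_nil) cw2697
theorem W2698 : WFK w2698 := fun D T h => wf_of_chk h (mem_cons (W69 D T h) (mem_cons (W143 D T h) mem_nil)) mem_nil cw2698
theorem L610 : LFK l610 := fun D T h => lf_of_chk h (mem_cons (W50 D T h) (mem_cons (W209 D T h) (mem_cons (W24 D T h) (mem_cons (W143 D T h) (mem_cons (W15 D T h) (mem_cons (W220 D T h) (mem_cons (W2697 D T h) (mem_cons (W341 D T h) (mem_cons (W2594 D T h) (mem_cons (W2563 D T h) (mem_cons (W164 D T h) (mem_cons (W42 D T h) (mem_cons (W1231 D T h) (mem_cons (W1166 D T h) (mem_cons (W932 D T h) (mem_cons (W1227 D T h) (mem_cons (W1331 D T h) (mem_cons (W2405 D T h) (mem_cons (W946 D T h) (mem_cons (W2698 D T h) (mem_cons (W2609 D T h) mem_nil))))))))))))))))))))) cl610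
theorem W2699 : WFK w2699 := fun D T h => wf_of_chk h mem_nil (mem_cons (L610 D T h) mem_nil) cw2699
theorem W2700 : WFK w2700 := fun D T h => wf_of_chk h mem_nil (mem_cons (L559 D T h) mem_nil) cw2700
theorem W2701 : WFK w2701 := fun D T h => wf_of_chk h mem_nil (mem_cons (L298 D T h) mem_nil) cw2701
theorem W2702 : WFK w2702 := fun D T h => wf_of_chk h mem_nil (mem_cons (L387 D T h) mem_nil) cw2702
theorem W2703 : WFK w2703 := fun D T h => wf_of_chk h (mem_cons (W42 D T h) (mem_cons (W1919 D T h) mem_nil)) mem_nil cw2703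
theorem L611 : LFK l611 := fun D T h => lf_of_chk h (mem_cons (W1346 D T h) (mem_cons (W42 D T h) (mem_cons (W2682 D T h) (mem_cons (W2703 D T h) (mem_cons (W152 D T h) (mem_cons (W2702 D T h) (mem_cons (W1347 D T h) (mem_cons (W801 D T h) (mem_cons (W1348 D T h) (mem_cons (W799 D T h) (mem_cons (W2700 D T h) (mem_cons (W1193 D T h) (mem_cons (W1690 D T h) (mem_cons (W2402 D T h) (mem_cons (W2701 D T h) mem_nil))))))))))))))) cl611
theorem W2704 : WFK w2704 := fun D T h => wf_of_chk h mem_nil (mem_cons (L611 D T h) mem_nil) cw2704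
theorem L612 : LFK l612 := fun D T h => lf_of_chk h (mem_cons (W2407 D T h) (mem_cons (W2683 D T h) (mem_cons (W16 D T h) (mem_cons (W1310 D T h) (mem_cons (W461 D T h) (mem_cons (W284 D T h) (mem_cons (W155 D T h) (mem_cons (W2346 D T h) (mem_cons (W2596 D T h) (mem_cons (W2027 D T h) (mem_cons (W2606 D T h) (mem_cons (W2610 D T h) (mem_cons (W50 D T h) (mem_cons (W1417 D T h) (mem_cons (W1420 D T h) (mem_cons (W2408 D T h) (mem_cons (W2409 D T h) (mem_cons (W2410 D T h) (mem_cons (W2441 D T h) (mem_cons (W1346 D T h) (mem_cons (W2523 D T h) (mem_cons (W2524 D T h) (mem_cons (W2541 D T h) (mem_cons (W2562 D T h) (mem_cons (W2630 D T h) (mem_cons (W2666 D T h) (mem_cons (W2670 D T h) (mem_cons (W2676 D T h) (mem_cons (W2522 D T h) (mem_cons (W2564 D T h) (mem_cons (W2611 D T h) (mem_cons (W1372 D T h) (mem_cons (W1653 D T h) (mem_cons (W2612 D T h) (mem_cons (W2613 D T h) (mem_cons (W1643 D T h) (mem_cons (W126 D T h) (mem_cons (W1945 D T h) (mem_cons (W1064 D T h) (mem_cons (W2687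 D T h) (mem_cons (W2695 D T h) (mem_cons (W2696 D T h) (mem_cons (W181 D T h) (mem_cons (W2699 D T h) (mem_cons (W2704 D T h) mem_nil))))))))))))))))))))))))))))))))))))))))))))) cl612
theorem W2705 : WFK w2705 := fun D T h => wf_of_chk h mem_nil (mem_cons (L612 D T h) mem_nil) cw2705
theorem W2706 : WFK w2706 := fun D T h => wf_of_chk h (mem_cons (W177 D T h) (mem_cons (W16 D T h) mem_nil)) mem_nil cw2706
theorem W2707 : WFK w2707 := fun D T h => wf_of_chk h mem_nil (mem_cons (L344 D T h) mem_nil) cw2707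
theorem W2708 : WFK w2708 := fun D T h => wf_of_chk h mem_nil (mem_cons (L544 D T h) mem_nil) cw2708
theorem W2709 : WFK w2709 := fun D T h => wf_of_chk h mem_nil (mem_cons (L306 D T h) mem_nil) cw2709
theorem L613 : LFK l613 := fun D T h => lf_of_chk h (mem_cons (W2319 D T h) (mem_cons (W37 D T h) (mem_cons (W42 D T h) (mem_cons (W2318 D T h) (mem_cons (W164 D T h) (mem_cons (W2705 D T h) (mem_cons (W2708 D T h) (mem_cons (W1019 D T h) (mem_cons (W1599 D T h) (mem_cons (W2027 D T h) (mem_cons (W2709 D T h) (mem_cons (W1346 D T h) (mem_cons (W2706 D T h) (mem_cons (W2707 D T h) (mem_cons (W2017 D T h) (mem_cons (W1458 D T h) (mem_cons (W1298 D T h) (mem_cons (W220 D T h) (mem_cons (W1139 D T h) (mem_cons (W2366 D T h) (mem_cons (W2316 D T h) (mem_cons (W2403 D T h) mem_nil)))))))))))))))))))))) cl613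
theorem W2710 : WFK w2710 := fun D T h => wf_of_chk h mem_nil (mem_cons (L613 D T h) mem_nil) cw2710
theorem W2711 : WFK w2711 := fun D T h => wf_of_chk h (mem_cons (W16 D T h) (mem_cons (W2391 D T h) mem_nil)) mem_nil cw2711
theorem W2712 : WFK w2712 := fun D T h => wf_of_chk h (mem_cons (W1291 D T h) (mem_cons (W804 D T h) mem_nil)) mem_nil cw2712
theorem W2713 : WFK w2713 := fun D T h => wf_of_chk h mem_nil (mem_cons (L554 D T h) mem_nil) cw2713
theorem W2714 : WFK w2714 := fun D T h => wf_of_chk h mem_nil (mem_cons (L505 D T h) mem_nil) cw2714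
theorem W2715 : WFK w2715 := fun D T h => wf_of_chk h (mem_cons (W220 D T h) (mem_cons (W461 D T h) mem_nil)) mem_nil cw2715
theorem W2717 : WFK w2717 := fun D T h => wf_of_chk h (mem_cons (W461 D T h) mem_nil) mem_nil cw2717
theorem W2718 : WFK w2718 := fun D T h => wf_of_chk h (mem_cons (W1384 D T h) mem_nil) mem_nil cw2718
theorem W2719 : WFK w2719 := fun D T h => wf_of_chk h (mem_cons (W1384 D T h) mem_nil) mem_nil cw2719
theorem L614 : LFK l614 := fun D T h => lf_of_chk h (mem_cons (W2456 D T h) (mem_cons (W2521 D T h) (mem_cons (W15 D T h) (mem_cons (W281 D T h) (mem_cons (W621 D T h) (mem_cons (W554 D T h) (mem_cons (W1065 D T h) (mem_cons (W581 D T h) (mem_cons (W2462 D T h) (mem_cons (W2463 D T h) (mem_cons (W301 D T h) (mem_cons (W2452 D T h) (mem_cons (W2078 D T h) (mem_cons (W901 D T h) (mem_cons (W2453 D T h) (mem_cons (W2454 D T h) (mem_cons (W2455 D T h) (mem_cons (W401 D T h) (mem_cons (W2718 D T h) (mem_cons (W2719 D T h) (mem_cons (W2458 D T h) (mem_cons (W2459 D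 T h) (mem_cons (W1193 D T h) (mem_cons (W2460 D T h) (mem_cons (W2461 D T h) (mem_cons (W2457 D T h) (mem_cons (W2442 D T h) mem_nil))))))))))))))))))))))))))) cl614
theorem W2720 : WFK w2720 := fun D T h => wf_of_chk h mem_nil (mem_cons (L614 D T h) mem_nil) cw2720
theorem W2722 : WFK w2722 := fun D T h => wf_of_chk h mem_nil (mem_cons (L111 D T h) mem_nil) cw2722
theorem W2723 : WFK w2723 := fun D T h => wf_of_chk h mem_nil (mem_cons (L111 D T h) mem_nil) cw2723
theorem W2724 : WFK w2724 := fun D T h => wf_of_chk h mem_nil (mem_cons (L0 D T h) mem_nil) cw2724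
theorem W2726 : WFK w2726 := fun D T h => wf_of_chk h mem_nil (mem_cons (L0 D T h) mem_nil) cw2726
theorem W2727 : WFK w2727 := fun D T h => wf_of_chk h (mem_cons (W2726 D T h) (mem_cons (W461 D T h) mem_nil)) mem_nil cw2727
theorem W2729 : WFK w2729 := fun D T h => wf_of_chk h mem_nil (mem_cons (L44 D T h) mem_nil) cw2729
theorem W2732 : WFK w2732 := fun D T h => wf_of_chk h mem_nil (mem_cons (L0 D T h) mem_nil) cw2732
theorem W2740 : WFK w2740 := fun D T h => wf_of_chk h mem_nil (mem_cons (L103 D T h) mem_nil) cw2740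
theorem W2741 : WFK w2741 := fun D T h => wf_of_chk h (mem_cons (W2740 D T h) (mem_cons (W461 D T h) mem_nil)) mem_nil cw2741
theorem W2743 : WFK w2743 := fun D T h => wf_of_chk h mem_nil (mem_cons (L41 D T h) mem_nil) cw2743
theorem L621 : LFK l621 := fun D T h => lf_of_chk h (mem_cons (W4 D T h) (mem_cons (W8 D T h) (mem_cons (W1535 D T h) mem_nil))) cl621
theorem W2747 : WFK w2747 := fun D T h => wf_of_chk h mem_nil (mem_cons (L621 D T h) mem_nil) cw2747
theorem W2748 : WFK w2748 := fun D T h => wf_of_chk h mem_nil mem_nil cw2748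
theorem W2749 : WFK w2749 := fun D T h => wf_of_chk h mem_nil mem_nil cw2749
theorem W2750 : WFK w2750 := fun D T h => wf_of_chk h mem_nil mem_nil cw2750
theorem L622 : LFK l622 := fun D T h => lf_of_chk h (mem_cons (W192 D T h) (mem_cons (W25 D T h) (mem_cons (W2748 D T h) (mem_cons (W2749 D T h) (mem_cons (W2750 D T h) mem_nil))))) cl622
theorem W2752 : WFK w2752 := fun D T h => wf_of_chk h mem_nil (mem_cons (L111 D T h) mem_nil) cw2752
theorem W2753 : WFK w2753 := fun D T h => wf_of_chk h mem_nil (mem_cons (L242 D T h) mem_nil) cw2753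
theorem L627 : LFK l627 := fun D T h => lf_of_chk h (mem_cons (W2749 D T h) (mem_cons (W831 D T h) (mem_cons (W3 D T h) (mem_cons (W193 D T h) (mem_cons (W25 D T h) mem_nil))))) cl627
theorem W2761 : WFK w2761 := fun D T h => wf_of_chk h mem_nil (mem_cons (L627 D T h) mem_nil) cw2761
theorem L628 : LFK l628 := fun D T h => lf_of_chk h (mem_cons (W1620 D T h) (mem_cons (W42 D T h) (mem_cons (W461 D T h) (mem_cons (W3 D T h) (mem_cons (W39 D T h) (mem_cons (W815 D T h) (mem_cons (W1531 D T h) (mem_cons (W1371 D T h) (mem_cons (W1532 D T h) (mem_cons (W1535 D T h) (mem_cons (W2761 D T h) (mem_cons (W172 D T h) (mem_cons (W1529 D T h) (mem_cons (W1530 D T h) (mem_cons (W976 D T h) mem_nil))))))))))))))) cl628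
theorem W2762 : WFK w2762 := fun D T h => wf_of_chk h mem_nil (mem_cons (L628 D T h) mem_nil) cw2762
theorem L629 : LFK l629 := fun D T h => lf_of_chk h mem_nil cl629
theorem W2764 : WFK w2764 := fun D T h => wf_of_chk h mem_nil (mem_cons (L629 D T h) mem_nil) cw2764
theorem W2765 : WFK w2765 := fun D T h => wf_of_chk h mem_nil (mem_cons (L629 D T h) mem_nil) cw2765
theorem L630 : LFK l630 := fun D T h => lf_of_chk h (mem_cons (W2764 D T h) (mem_cons (W211 D T h) (mem_cons (W210 D T h) (mem_cons (W831 D T h) (mem_cons (W1101 D T h) (mem_cons (W815 D T h) (mem_cons (W2765 D T h) (mem_cons (W1535 D T h) (mem_cons (W819 D T h) mem_nil))))))))) cl630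
theorem W2766 : WFK w2766 := fun D T h => wf_of_chk h mem_nil (mem_cons (L630 D T h) mem_nil) cw2766
theorem L632 : LFK l632 := fun D T h => lf_of_chk h mem_nil cl632
theorem W2768 : WFK w2768 := fun D T h => wf_of_chk h mem_nil (mem_cons (L632 D T h) mem_nil) cw2768
theorem L633 : LFK l633 := fun D T h => lf_of_chk h mem_nil cl633
theorem W2769 : WFK w2769 := fun D T h => wf_of_chk h mem_nil (mem_cons (L633 D T h) mem_nil) cw2769
theorem W2771 : WFK w2771 := fun D T h => wf_of_chk h mem_nil (mem_cons (L622 D T h) mem_nil) cw2771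
theorem W2772 : WFK w2772 := fun D T h => wf_of_chk h mem_nil (mem_cons (L181 D T h) mem_nil) cw2772
theorem L635 : LFK l635 := fun D T h => lf_of_chk h (mem_cons (W852 D T h) (mem_cons (W619 D T h) (mem_cons (W3 D T h) (mem_cons (W734 D T h) (mem_cons (W865 D T h) (mem_cons (W2771 D T h) (mem_cons (W6 D T h) (mem_cons (W873 D T h) (mem_cons (W853 D T h) (mem_cons (W2772 D T h) (mem_cons (W854 D T h) (mem_cons (W63 D T h) mem_nil)))))))))))) cl635
theorem W2773 : WFK w2773 := fun D T h => wf_of_chk h mem_nil (mem_cons (L635 D T h) mem_nil) cw2773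
theorem L637 : LFK l637 := fun D T h => lf_of_chk h (mem_cons (W1489 D T h) (mem_cons (W4 D T h) (mem_cons (W11 D T h) (mem_cons (W638 D T h) (mem_cons (W870 D T h) (mem_cons (W1529 D T h) mem_nil)))))) cl637
theorem W2778 : WFK w2778 := fun D T h => wf_of_chk h mem_nil (mem_cons (L637 D T h) mem_nil) cw2778
theorem W2783 : WFK w2783 := fun D T h => wf_of_chk h mem_nil (mem_cons (L69 D T h) mem_nil) cw2783
theorem W2784 : WFK w2784 := fun D T h => wf_of_chk h mem_nil (mem_cons (L202 D T h) mem_nil) cw2784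
theorem W2785 : WFK w2785 := fun D T h => wf_of_chk h mem_nil (mem_cons (L201 D T h) mem_nil) cw2785
theorem W2786 : WFK w2786 := fun D T h => wf_of_chk h mem_nil (mem_cons (L320 D T h) mem_nil) cw2786
theorem W2787 : WFK w2787 := fun D T h => wf_of_chk h mem_nil (mem_cons (L446 D T h) mem_nil) cw2787
theorem W2788 : WFK w2788 := fun D T h => wf_of_chk h mem_nil (mem_cons (L391 D T h) mem_nil) cw2788
theorem W2789 : WFK w2789 := fun D T h => wf_of_chk h mem_nil (mem_cons (L592 D T h) mem_nil) cw2789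
theorem W2790 : WFK w2790 := fun D T h => wf_of_chk h mem_nil (mem_cons (L338 D T h) mem_nil) cw2790
theorem W2791 : WFK w2791 := fun D T h => wf_of_chk h mem_nil (mem_cons (L603 D T h) mem_nil) cw2791
theorem W2792 : WFK w2792 := fun D T h => wf_of_chk h mem_nil (mem_cons (L69 D T h) mem_nil) cw2792
theorem W2793 : WFK w2793 := fun D T h => wf_of_chk h mem_nil (mem_cons (L69 D T h) mem_nil) cw2793
theorem L639 : LFK l639 := fun D T h => lf_of_chk h (mem_cons (W2521 D T h) (mem_cons (W15 D T h) (mem_cons (W91 D T h) (mem_cons (W795 D T h) (mem_cons (W141 D T h) (mem_cons (W2792 D T h) (mem_cons (W2793 D T h) (mem_cons (W1730 D T h) (mem_cons (W834 D T h) (mem_cons (W1731 D T h) (mem_cons (W901 D T h) (mem_cons (W2784 D T h) (mem_cons (W2785 D T h) (mem_cons (W2786 D T h) (mem_cons (W865 D T h) (mem_cons (W866 D T h) (mem_cons (W855 D T h) (mem_cons (W2789 D T h) (mem_cons (W1707 D T h) (mem_cons (W2790 D T h) (mem_cons (W2791 D T h) (mem_cons (W2787 D T h) (mem_cons (W2788 D T h)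 mem_nil))))))))))))))))))))))) cl639
theorem W2794 : WFK w2794 := fun D T h => wf_of_chk h mem_nil (mem_cons (L639 D T h) mem_nil) cw2794
theorem W2795 : WFK w2795 := fun D T h => wf_of_chk h mem_nil (mem_cons (L222 D T h) mem_nil) cw2795
theorem L640 : LFK l640 := fun D T h => lf_of_chk h (mem_cons (W632 D T h) (mem_cons (W808 D T h) (mem_cons (W809 D T h) (mem_cons (W830 D T h) (mem_cons (W1 D T h) (mem_cons (W33 D T h) (mem_cons (W4 D T h) (mem_cons (W603 D T h) (mem_cons (W907 D T h) (mem_cons (W821 D T h) (mem_cons (W1122 D T h) (mem_cons (W816 D T h) (mem_cons (W820 D T h) mem_nil))))))))))))) cl640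
theorem W2796 : WFK w2796 := fun D T h => wf_of_chk h mem_nil (mem_cons (L640 D T h) mem_nil) cw2796
theorem W2797 : WFK w2797 := fun D T h => wf_of_chk h mem_nil (mem_cons (L268 D T h) mem_nil) cw2797
theorem W2798 : WFK w2798 := fun D T h => wf_of_chk h mem_nil (mem_cons (L198 D T h) mem_nil) cw2798
theorem W2799 : WFK w2799 := fun D T h => wf_of_chk h mem_nil (mem_cons (L222 D T h) mem_nil) cw2799
theorem L641 : LFK l641 := fun D T h => lf_of_chk h (mem_cons (W219 D T h) (mem_cons (W499 D T h) (mem_cons (W15 D T h) (mem_cons (W91 D T h) (mem_cons (W141 D T h) (mem_cons (W795 D T h) (mem_cons (W797 D T h) (mem_cons (W2797 D T h) (mem_cons (W796 D T h) (mem_cons (W2796 D T h) (mem_cons (W2798 D T h) (mem_cons (W2799 D T h) (mem_cons (W1707 D T h) mem_nil))))))))))))) cl641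
theorem W2800 : WFK w2800 := fun D T h => wf_of_chk h mem_nil (mem_cons (L641 D T h) mem_nil) cw2800
theorem W2801 : WFK w2801 := fun D T h => wf_of_chk h mem_nil (mem_cons (L325 D T h) mem_nil) cw2801
theorem W2802 : WFK w2802 := fun D T h => wf_of_chk h mem_nil (mem_cons (L352 D T h) mem_nil) cw2802
theorem W2803 : WFK w2803 := fun D T h => wf_of_chk h (mem_cons (W42 D T h) (mem_cons (W461 D T h) mem_nil)) mem_nil cw2803
theorem L642 : LFK l642 := fun D T h => lf_of_chk h (mem_cons (W431 D T h) (mem_cons (W161 D T h) (mem_cons (W914 D T h) (mem_cons (W39 D T h) (mem_cons (W3 D T h) (mem_cons (W154 D T h) (mem_cons (W2765 D T h) (mem_cons (W817 D T h) (mem_cons (W1539 D T h) (mem_cons (W1535 D T h) (mem_cons (W815 D T h) mem_nil))))))))))) cl642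
theorem W2804 : WFK w2804 := fun D T h => wf_of_chk h mem_nil (mem_cons (L642 D T h) mem_nil) cw2804
theorem L643 : LFK l643 := fun D T h => lf_of_chk h (mem_cons (W431 D T h) (mem_cons (W815 D T h) (mem_cons (W1535 D T h) (mem_cons (W151 D T h) (mem_cons (W1371 D T h) (mem_cons (W866 D T h) (mem_cons (W4 D T h) (mem_cons (W1540 D T h) (mem_cons (W1489 D T h) (mem_cons (W160 D T h) (mem_cons (W926 D T h) mem_nil))))))))))) cl643
theorem W2805 : WFK w2805 := fun D T h => wf_of_chk h mem_nil (mem_cons (L643 D T h) mem_nil) cw2805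
theorem L644 : LFK l644 := fun D T h => lf_of_chk h (mem_cons (W1346 D T h) (mem_cons (W929 D T h) (mem_cons (W42 D T h) (mem_cons (W16 D T h) (mem_cons (W2802 D T h) (mem_cons (W2803 D T h) (mem_cons (W2804 D T h) (mem_cons (W2703 D T h) (mem_cons (W2805 D T h) (mem_cons (W431 D T h) (mem_cons (W2794 D T h) (mem_cons (W1347 D T h) (mem_cons (W1348 D T h) (mem_cons (W2795 D T h) (mem_cons (W2800 D T h) (mem_cons (W1496 D T h) (mem_cons (W2801 D T h) (mem_cons (W1495 D T h) (mem_cons (W1620 D T h) (mem_cons (W1690 D T h) (mem_cons (W1953 D T h) (mem_cons (W1321 D T h) (mem_cons (W1493 D T h) (mem_cons (W1492 D T h) mem_nil)))))))))))))))))))))))) cl644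
theorem W2806 : WFK w2806 := fun D T h => wf_of_chk h mem_nil (mem_cons (L644 D T h) mem_nil) cw2806
theorem L645 : LFK l645 := fun D T h => lf_of_chk h (mem_cons (W2027 D T h) (mem_cons (W37 D T h) (mem_cons (W42 D T h) (mem_cons (W2318 D T h) (mem_cons (W164 D T h) (mem_cons (W2319 D T h) (mem_cons (W2806 D T h) (mem_cons (W2708 D T h) (mem_cons (W1019 D T h) (mem_cons (W1599 D T h) (mem_cons (W2709 D T h) (mem_cons (W1346 D T h) (mem_cons (W2706 D T h) (mem_cons (W2707 D T h) (mem_cons (W2017 D T h) (mem_cons (W2317 D T h) (mem_cons (W2714 D T h) (mem_cons (W220 D T h) (mem_cons (W1139 D T h) (mem_cons (W2315 D T h) (mem_cons (W2316 D T h) mem_nil))))))))))))))))))))) cl645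
theorem W2807 : WFK w2807 := fun D T h => wf_of_chk h mem_nil (mem_cons (L645 D T h) mem_nil) cw2807
theorem L646 : LFK l646 := fun D T h => lf_of_chk h (mem_cons (W2320 D T h) (mem_cons (W37 D T h) (mem_cons (W2321 D T h) (mem_cons (W2389 D T h) (mem_cons (W2391 D T h) (mem_cons (W2712 D T h) (mem_cons (W2711 D T h) (mem_cons (W2713 D T h) (mem_cons (W2807 D T h) (mem_cons (W2392 D T h) (mem_cons (W284 D T h) (mem_cons (W1213 D T h) (mem_cons (W2393 D T h) (mem_cons (W2394 D T h) (mem_cons (W2710 D T h) (mem_cons (W2322 D T h) (mem_cons (W2326 D T h) (mem_cons (W2328 D T h) (mem_cons (W2327 D T h) (mem_cons (W2345 D T h) (mem_cons (W2374 D T h) (mem_cons (W2375 D T h) (mem_cons (W2027 D T h) (mem_cons (W2376 D T h) (mem_cons (W2377 D T h) mem_nil))))))))))))))))))))))))) cl646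
theorem W2808 : WFK w2808 := fun D T h => wf_of_chk h mem_nil (mem_cons (L646 D T h) mem_nil) cw2808
theorem W2809 : WFK w2809 := fun D T h => wf_of_chk h (mem_cons (W178 D T h) (mem_cons (W37 D T h) mem_nil)) mem_nil cw2809
theorem W2821 : WFK w2821 := fun D T h => wf_of_chk h mem_nil (mem_cons (L471 D T h) mem_nil) cw2821
theorem W2824 : WFK w2824 := fun D T h => wf_of_chk h (mem_cons (W16 D T h) (mem_cons (W2783 D T h) mem_nil)) mem_nil cw2824
theorem W2825 : WFK w2825 := fun D T h => wf_of_chk h (mem_cons (W42 D T h) mem_nil) mem_nil cw2825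
theorem W2826 : WFK w2826 := fun D T h => wf_of_chk h (mem_cons (W164 D T h) mem_nil) mem_nil cw2826
theorem W2827 : WFK w2827 := fun D T h => wf_of_chk h (mem_cons (W114 D T h) mem_nil) mem_nil cw2827
theorem W2828 : WFK w2828 := fun D T h => wf_of_chk h mem_nil (mem_cons (L81 D T h) mem_nil) cw2828
theorem W2829 : WFK w2829 := fun D T h => wf_of_chk h mem_nil (mem_cons (L637 D T h) mem_nil) cw2829
theorem W2830 : WFK w2830 := fun D T h => wf_of_chk h mem_nil (mem_cons (L637 D T h) mem_nil) cw2830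
theorem W2831 : WFK w2831 := fun D T h => wf_of_chk h mem_nil (mem_cons (L637 D T h) mem_nil) cw2831
theorem W2832 : WFK w2832 := fun D T h => wf_of_chk h mem_nil (mem_cons (L278 D T h) mem_nil) cw2832
theorem W2833 : WFK w2833 := fun D T h => wf_of_chk h mem_nil (mem_cons (L270 D T h) mem_nil) cw2833
theorem W2834 : WFK w2834 := fun D T h => wf_of_chk h mem_nil (mem_cons (L222 D T h) mem_nil) cw2834
theorem L650 : LFK l650 := fun D T h => lf_of_chk h (mem_cons (W1331 D T h) (mem_cons (W2628 D T h) (mem_cons (W230 D T h) (mem_cons (W638 D T h) (mem_cons (W932 D T h) (mem_cons (W220 D T h) (mem_cons (W1334 D T h) (mem_cons (W2539 D T h) (mem_cons (W259 D T h) (mem_cons (W724 D T h) (mem_cons (W375 D T h) (mem_cons (W2832 D T h) (mem_cons (W42 D T h) (mem_cons (W2833 D T h) (mem_cons (W164 D T h) (mem_cons (W2834 D T h) (mem_cons (W572 D T h) (mem_cons (W108 D T h) (mem_cons (W871 D T h) (mem_cons (W2829 D T h) (mem_cons (W2535 D T h) (mem_cons (W2830 D T h) (mem_cons (W2831 D T h)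 mem_nil))))))))))))))))))))))) cl650
theorem W2835 : WFK w2835 := fun D T h => wf_of_chk h mem_nil (mem_cons (L650 D T h) mem_nil) cw2835
theorem W2836 : WFK w2836 := fun D T h => wf_of_chk h (mem_cons (W220 D T h) (mem_cons (W2783 D T h) mem_nil)) mem_nil cw2836
theorem W2837 : WFK w2837 := fun D T h => wf_of_chk h mem_nil (mem_cons (L650 D T h) mem_nil) cw2837
theorem W2838 : WFK w2838 := fun D T h => wf_of_chk h mem_nil (mem_cons (L650 D T h) mem_nil) cw2838
theorem W2839 : WFK w2839 := fun D T h => wf_of_chk h (mem_cons (W16 D T h) mem_nil) mem_nil cw2839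
theorem W2840 : WFK w2840 := fun D T h => wf_of_chk h mem_nil mem_nil cw2840
theorem L651 : LFK l651 := fun D T h => lf_of_chk h (mem_cons (W220 D T h) (mem_cons (W69 D T h) (mem_cons (W143 D T h) (mem_cons (W2840 D T h) (mem_cons (W33 D T h) (mem_cons (W80 D T h) (mem_cons (W871 D T h) mem_nil))))))) cl651
theorem W2841 : WFK w2841 := fun D T h => wf_of_chk h mem_nil (mem_cons (L651 D T h) mem_nil) cw2841
theorem W2842 : WFK w2842 := fun D T h => wf_of_chk h (mem_cons (W114 D T h) mem_nil) mem_nil cw2842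
theorem W2843 : WFK w2843 := fun D T h => wf_of_chk h mem_nil (mem_cons (L369 D T h) mem_nil) cw2843
theorem W2844 : WFK w2844 := fun D T h => wf_of_chk h mem_nil (mem_cons (L168 D T h) mem_nil) cw2844
theorem W2845 : WFK w2845 := fun D T h => wf_of_chk h (mem_cons (W2844 D T h) mem_nil) mem_nil cw2845
theorem W2846 : WFK w2846 := fun D T h => wf_of_chk h mem_nil (mem_cons (L69 D T h) mem_nil) cw2846
theorem W2847 : WFK w2847 := fun D T h => wf_of_chk h (mem_cons (W2846 D T h) (mem_cons (W16 D T h) mem_nil)) mem_nil cw2847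
theorem W2848 : WFK w2848 := fun D T h => wf_of_chk h (mem_cons (W261 D T h) (mem_cons (W16 D T h) mem_nil)) mem_nil cw2848
theorem W2849 : WFK w2849 := fun D T h => wf_of_chk h (mem_cons (W2463 D T h) (mem_cons (W16 D T h) mem_nil)) mem_nil cw2849
theorem W2850 : WFK w2850 := fun D T h => wf_of_chk h mem_nil (mem_cons (L143 D T h) mem_nil) cw2850
theorem W2851 : WFK w2851 := fun D T h => wf_of_chk h (mem_cons (W2783 D T h) mem_nil) mem_nil cw2851
theorem W2852 : WFK w2852 := fun D T h => wf_of_chk h (mem_cons (W1339 D T h) mem_nil) mem_nil cw2852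
theorem W2853 : WFK w2853 := fun D T h => wf_of_chk h (mem_cons (W80 D T h) (mem_cons (W2783 D T h) mem_nil)) mem_nil cw2853
theorem W2854 : WFK w2854 := fun D T h => wf_of_chk h (mem_cons (W75 D T h) (mem_cons (W259 D T h) mem_nil)) mem_nil cw2854
theorem W2855 : WFK w2855 := fun D T h => wf_of_chk h mem_nil (mem_cons (L125 D T h) mem_nil) cw2855
theorem W2856 : WFK w2856 := fun D T h => wf_of_chk h (mem_cons (W2855 D T h) mem_nil) mem_nil cw2856
theorem W2857 : WFK w2857 := fun D T h => wf_of_chk h (mem_cons (W112 D T h) (mem_cons (W2783 D T h) mem_nil)) mem_nil cw2857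
theorem W2858 : WFK w2858 := fun D T h => wf_of_chk h (mem_cons (W85 D T h) mem_nil) mem_nil cw2858
theorem L652 : LFK l652 := fun D T h => lf_of_chk h (mem_cons (W2850 D T h) (mem_cons (W366 D T h) (mem_cons (W932 D T h) (mem_cons (W1166 D T h) (mem_cons (W2855 D T h) (mem_cons (W259 D T h) (mem_cons (W1 D T h) (mem_cons (W69 D T h) (mem_cons (W2825 D T h) (mem_cons (W2851 D T h) (mem_cons (W1317 D T h) (mem_cons (W126 D T h) (mem_cons (W721 D T h) (mem_cons (W267 D T h) (mem_cons (W2857 D T h) (mem_cons (W114 D T h) (mem_cons (W2856 D T h) (mem_cons (W2852 D T h) (mem_cons (W2853 D T h) (mem_cons (W2854 D T h) (mem_cons (W616 D T h) (mem_cons (W1354 D T h) (mem_cons (W2858 D T h) (mem_cons (W2846 D T h) mem_nil)))))))))))))))))))))))) cl652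
theorem W2859 : WFK w2859 := fun D T h => wf_of_chk h mem_nil (mem_cons (L652 D T h) mem_nil) cw2859
theorem W2860 : WFK w2860 := fun D T h => wf_of_chk h (mem_cons (W162 D T h) (mem_cons (W2783 D T h) mem_nil)) mem_nil cw2860
theorem W2861 : WFK w2861 := fun D T h => wf_of_chk h (mem_cons (W42 D T h) (mem_cons (W16 D T h) mem_nil)) mem_nil cw2861
theorem W2862 : WFK w2862 := fun D T h => wf_of_chk h mem_nil (mem_cons (L20 D T h) mem_nil) cw2862
theorem W2863 : WFK w2863 := fun D T h => wf_of_chk h (mem_cons (W351 D T h) (mem_cons (W16 D T h) mem_nil)) mem_nil cw2863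
theorem W2864 : WFK w2864 := fun D T h => wf_of_chk h mem_nil (mem_cons (L71 D T h) mem_nil) cw2864
theorem W2865 : WFK w2865 := fun D T h => wf_of_chk h (mem_cons (W2864 D T h) (mem_cons (W16 D T h) mem_nil)) mem_nil cw2865
theorem W2866 : WFK w2866 := fun D T h => wf_of_chk h mem_nil (mem_cons (L168 D T h) mem_nil) cw2866
theorem W2867 : WFK w2867 := fun D T h => wf_of_chk h (mem_cons (W2866 D T h) (mem_cons (W16 D T h) mem_nil)) mem_nil cw2867
theorem W2868 : WFK w2868 := fun D T h => wf_of_chk h (mem_cons (W42 D T h) (mem_cons (W16 D T h) mem_nil)) mem_nil cw2868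
theorem W2869 : WFK w2869 := fun D T h => wf_of_chk h (mem_cons (W16 D T h) (mem_cons (W2841 D T h) mem_nil)) mem_nil cw2869
theorem W2870 : WFK w2870 := fun D T h => wf_of_chk h (mem_cons (W16 D T h) (mem_cons (W2841 D T h) mem_nil)) mem_nil cw2870
theorem W2871 : WFK w2871 := fun D T h => wf_of_chk h mem_nil (mem_cons (L68 D T h) mem_nil) cw2871
theorem L653 : LFK l653 := fun D T h => lf_of_chk h (mem_cons (W154 D T h) (mem_cons (W161 D T h) (mem_cons (W281 D T h) (mem_cons (W1424 D T h) (mem_cons (W1425 D T h) (mem_cons (W734 D T h) (mem_cons (W2871 D T h) (mem_cons (W1539 D T h) (mem_cons (W430 D T h) (mem_cons (W1546 D T h) mem_nil)))))))))) cl653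
theorem W2872 : WFK w2872 := fun D T h => wf_of_chk h mem_nil (mem_cons (L653 D T h) mem_nil) cw2872
theorem W2873 : WFK w2873 := fun D T h => wf_of_chk h (mem_cons (W2872 D T h) (mem_cons (W16 D T h) mem_nil)) mem_nil cw2873
theorem W2874 : WFK w2874 := fun D T h => wf_of_chk h (mem_cons (W16 D T h) (mem_cons (W1019 D T h) mem_nil)) mem_nil cw2874
theorem L654 : LFK l654 := fun D T h => lf_of_chk h (mem_cons (W2824 D T h) (mem_cons (W2861 D T h) (mem_cons (W2839 D T h) (mem_cons (W337 D T h) (mem_cons (W1311 D T h) (mem_cons (W2841 D T h) (mem_cons (W2050 D T h) (mem_cons (W2868 D T h) (mem_cons (W2869 D T h) (mem_cons (W2870 D T h) (mem_cons (W2873 D T h) (mem_cons (W2874 D T h) (mem_cons (W2838 D T h) (mem_cons (W259 D T h) (mem_cons (W16 D T h) (mem_cons (W2825 D T h) (mem_cons (W2826 D T h) (mem_cons (W2859 D T h) (mem_cons (W284 D T h) (mem_cons (W2860 D T h) (mem_cons (W2027 D T h) (mem_cons (W2827 D T h) (mem_cons (W1331 D T h) (mem_cons (W2828 D T h) (mem_cons (W2835 D T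 h) (mem_cons (W2836 D T h) (mem_cons (W2837 D T h) (mem_cons (W2462 D T h) (mem_cons (W2778 D T h) (mem_cons (W2842 D T h) (mem_cons (W2843 D T h) (mem_cons (W2845 D T h) (mem_cons (W2847 D T h) (mem_cons (W2848 D T h) (mem_cons (W2849 D T h) (mem_cons (W2862 D T h) (mem_cons (W2863 D T h) (mem_cons (W181 D T h) (mem_cons (W2865 D T h) (mem_cons (W2867 D T h) mem_nil)))))))))))))))))))))))))))))))))))))))) cl654
theorem W2875 : WFK w2875 := fun D T h => wf_of_chk h mem_nil (mem_cons (L654 D T h) mem_nil) cw2875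
theorem W2877 : WFK w2877 := fun D T h => wf_of_chk h mem_nil (mem_cons (L522 D T h) mem_nil) cw2877
theorem W2878 : WFK w2878 := fun D T h => wf_of_chk h mem_nil (mem_cons (L522 D T h) mem_nil) cw2878
theorem W2879 : WFK w2879 := fun D T h => wf_of_chk h mem_nil (mem_cons (L45 D T h) mem_nil) cw2879
theorem W2880 : WFK w2880 := fun D T h => wf_of_chk h mem_nil (mem_cons (L257 D T h) mem_nil) cw2880
theorem W2881 : WFK w2881 := fun D T h => wf_of_chk h mem_nil (mem_cons (L267 D T h) mem_nil) cw2881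
theorem W2882 : WFK w2882 := fun D T h => wf_of_chk h mem_nil (mem_cons (L269 D T h) mem_nil) cw2882
theorem W2883 : WFK w2883 := fun D T h => wf_of_chk h mem_nil (mem_cons (L270 D T h) mem_nil) cw2883
theorem L655 : LFK l655 := fun D T h => lf_of_chk h (mem_cons (W798 D T h) (mem_cons (W2879 D T h) (mem_cons (W154 D T h) (mem_cons (W91 D T h) (mem_cons (W795 D T h) (mem_cons (W141 D T h) (mem_cons (W1937 D T h) (mem_cons (W2521 D T h) (mem_cons (W826 D T h) (mem_cons (W1143 D T h) (mem_cons (W2880 D T h) (mem_cons (W1935 D T h) (mem_cons (W2881 D T h) (mem_cons (W2797 D T h) (mem_cons (W817 D T h) (mem_cons (W849 D T h) (mem_cons (W2882 D T h) (mem_cons (W1707 D T h) (mem_cons (W2883 D T h) mem_nil))))))))))))))))))) cl655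
theorem W2884 : WFK w2884 := fun D T h => wf_of_chk h mem_nil (mem_cons (L655 D T h) mem_nil) cw2884
theorem W2885 : WFK w2885 := fun D T h => wf_of_chk h mem_nil (mem_cons (L298 D T h) mem_nil) cw2885
theorem W2886 : WFK w2886 := fun D T h => wf_of_chk h mem_nil (mem_cons (L385 D T h) mem_nil) cw2886
theorem L656 : LFK l656 := fun D T h => lf_of_chk h (mem_cons (W431 D T h) (mem_cons (W281 D T h) (mem_cons (W815 D T h) (mem_cons (W331 D T h) (mem_cons (W161 D T h) (mem_cons (W154 D T h) (mem_cons (W817 D T h) (mem_cons (W2765 D T h) (mem_cons (W1539 D T h) mem_nil))))))))) cl656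
theorem W2887 : WFK w2887 := fun D T h => wf_of_chk h mem_nil (mem_cons (L656 D T h) mem_nil) cw2887
theorem L657 : LFK l657 := fun D T h => lf_of_chk h (mem_cons (W794 D T h) (mem_cons (W16 D T h) (mem_cons (W42 D T h) (mem_cons (W925 D T h) (mem_cons (W2887 D T h) (mem_cons (W2884 D T h) (mem_cons (W15 D T h) (mem_cons (W2795 D T h) (mem_cons (W1348 D T h) (mem_cons (W1347 D T h) (mem_cons (W803 D T h) (mem_cons (W931 D T h) (mem_cons (W721 D T h) (mem_cons (W2885 D T h) (mem_cons (W2886 D T h) (mem_cons (W799 D T h) (mem_cons (W154 D T h) (mem_cons (W1193 D T h) (mem_cons (W1907 D T h) mem_nil))))))))))))))))))) cl657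
theorem W2888 : WFK w2888 := fun D T h => wf_of_chk h mem_nil (mem_cons (L657 D T h) mem_nil) cw2888
theorem L658 : LFK l658 := fun D T h => lf_of_chk h (mem_cons (W219 D T h) (mem_cons (W499 D T h) (mem_cons (W15 D T h) (mem_cons (W91 D T h) (mem_cons (W795 D T h) (mem_cons (W141 D T h) (mem_cons (W2797 D T h) (mem_cons (W796 D T h) (mem_cons (W2799 D T h) (mem_cons (W839 D T h) (mem_cons (W908 D T h) (mem_cons (W1707 D T h) mem_nil)))))))))))) cl658
theorem W2892 : WFK w2892 := fun D T h => wf_of_chk h mem_nil (mem_cons (L658 D T h) mem_nil) cw2892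
theorem L659 : LFK l659 := fun D T h => lf_of_chk h (mem_cons (W794 D T h) (mem_cons (W16 D T h) (mem_cons (W42 D T h) (mem_cons (W929 D T h) (mem_cons (W1346 D T h) (mem_cons (W2892 D T h) (mem_cons (W1528 D T h) (mem_cons (W2795 D T h) (mem_cons (W1348 D T h) (mem_cons (W1347 D T h) mem_nil)))))))))) cl659
theorem W2893 : WFK w2893 := fun D T h => wf_of_chk h mem_nil (mem_cons (L659 D T h) mem_nil) cw2893
theorem W2895 : WFK w2895 := fun D T h => wf_of_chk h (mem_cons (W37 D T h) mem_nil) mem_nil cw2895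
theorem L660 : LFK l660 := fun D T h => lf_of_chk h (mem_cons (W669 D T h) mem_nil) cl660
theorem L662 : LFK l662 := fun D T h => lf_of_chk h mem_nil cl662
theorem W2902 : WFK w2902 := fun D T h => wf_of_chk h mem_nil (mem_cons (L662 D T h) mem_nil) cw2902
theorem L663 : LFK l663 := fun D T h => lf_of_chk h mem_nil cl663
theorem W2905 : WFK w2905 := fun D T h => wf_of_chk h (mem_cons (W50 D T h) mem_nil) mem_nil cw2905
theorem W2911 : WFK w2911 := fun D T h => wf_of_chk h mem_nil (mem_cons (L469 D T h) mem_nil) cw2911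
theorem W2912 : WFK w2912 := fun D T h => wf_of_chk h mem_nil (mem_cons (L7 D T h) mem_nil) cw2912
theorem W2913 : WFK w2913 := fun D T h => wf_of_chk h mem_nil (mem_cons (L350 D T h) mem_nil) cw2913
theorem W2914 : WFK w2914 := fun D T h => wf_of_chk h mem_nil (mem_cons (L143 D T h) mem_nil) cw2914
theorem W2915 : WFK w2915 := fun D T h => wf_of_chk h mem_nil (mem_cons (L45 D T h) mem_nil) cw2915
theorem W2916 : WFK w2916 := fun D T h => wf_of_chk h mem_nil (mem_cons (L81 D T h) mem_nil) cw2916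
theorem W2917 : WFK w2917 := fun D T h => wf_of_chk h mem_nil (mem_cons (L143 D T h) mem_nil) cw2917
theorem W2918 : WFK w2918 := fun D T h => wf_of_chk h mem_nil (mem_cons (L45 D T h) mem_nil) cw2918
theorem W2919 : WFK w2919 := fun D T h => wf_of_chk h mem_nil (mem_cons (L7 D T h) mem_nil) cw2919
theorem L665 : LFK l665 := fun D T h => lf_of_chk h (mem_cons (W2912 D T h) (mem_cons (W2919 D T h) (mem_cons (W15 D T h) (mem_cons (W2914 D T h) (mem_cons (W709 D T h) (mem_cons (W2913 D T h) (mem_cons (W2917 D T h) (mem_cons (W2918 D T h) (mem_cons (W164 D T h) (mem_cons (W42 D T h) (mem_cons (W220 D T h) (mem_cons (W1206 D T h) (mem_cons (W2915 D T h) (mem_cons (W2916 D T h) (mem_cons (W2559 D T h) mem_nil))))))))))))))) cl665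
theorem W2920 : WFK w2920 := fun D T h => wf_of_chk h mem_nil (mem_cons (L665 D T h) mem_nil) cw2920
theorem L666 : LFK l666 := fun D T h => lf_of_chk h (mem_cons (W11 D T h) (mem_cons (W903 D T h) (mem_cons (W32 D T h) (mem_cons (W806 D T h) (mem_cons (W861 D T h) (mem_cons (W1781 D T h) mem_nil)))))) cl666
theorem W2921 : WFK w2921 := fun D T h => wf_of_chk h mem_nil (mem_cons (L666 D T h) mem_nil) cw2921
theorem W2922 : WFK w2922 := fun D T h => wf_of_chk h mem_nil (mem_cons (L666 D T h) mem_nil) cw2922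
theorem W2923 : WFK w2923 := fun D T h => wf_of_chk h (mem_cons (W710 D T h) (mem_cons (W709 D T h) mem_nil)) mem_nil cw2923
theorem L667 : LFK l667 := fun D T h => lf_of_chk h (mem_cons (W67 D T h) (mem_cons (W16 D T h) (mem_cons (W903 D T h) (mem_cons (W633 D T h) (mem_cons (W1797 D T h) mem_nil))))) cl667
theorem W2924 : WFK w2924 := fun D T h => wf_of_chk h mem_nil (mem_cons (L667 D T h) mem_nil) cw2924
theorem W2925 : WFK w2925 := fun D T h => wf_of_chk h mem_nil (mem_cons (L667 D T h) mem_nil) cw2925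
theorem L668 : LFK l668 := fun D T h => lf_of_chk h (mem_cons (W181 D T h) (mem_cons (W209 D T h) (mem_cons (W16 D T h) (mem_cons (W499 D T h) (mem_cons (W2921 D T h) (mem_cons (W1070 D T h) (mem_cons (W2922 D T h) (mem_cons (W2923 D T h) (mem_cons (W2920 D T h) (mem_cons (W3 D T h) (mem_cons (W2924 D T h) (mem_cons (W143 D T h) (mem_cons (W2925 D T h) mem_nil))))))))))))) cl668
theorem W2926 : WFK w2926 := fun D T h => wf_of_chk h mem_nil (mem_cons (L668 D T h) mem_nil) cw2926
theorem W2927 : WFK w2927 := fun D T h => wf_of_chk h (mem_cons (W2914 D T h) mem_nil) mem_nil cw2927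
theorem L669 : LFK l669 := fun D T h => lf_of_chk h (mem_cons (W1452 D T h) (mem_cons (W1139 D T h) (mem_cons (W220 D T h) (mem_cons (W1453 D T h) mem_nil)))) cl669
theorem W2928 : WFK w2928 := fun D T h => wf_of_chk h mem_nil (mem_cons (L669 D T h) mem_nil) cw2928
theorem W2929 : WFK w2929 := fun D T h => wf_of_chk h (mem_cons (W220 D T h) (mem_cons (W181 D T h) mem_nil)) mem_nil cw2929
theorem W2930 : WFK w2930 := fun D T h => wf_of_chk h mem_nil (mem_cons (L391 D T h) mem_nil) cw2930
theorem L670 : LFK l670 := fun D T h => lf_of_chk h (mem_cons (W50 D T h) (mem_cons (W24 D T h) (mem_cons (W209 D T h) (mem_cons (W15 D T h) (mem_cons (W220 D T h) (mem_cons (W181 D T h) (mem_cons (W724 D T h) (mem_cons (W725 D T h) (mem_cons (W726 D T h) (mem_cons (W676 D T h) (mem_cons (W1231 D T h) (mem_cons (W164 D T h) (mem_cons (W42 D T h) (mem_cons (W1166 D T h) (mem_cons (W932 D T h) (mem_cons (W2405 D T h) (mem_cons (W1227 D T h) (mem_cons (W2834 D T h) (mem_cons (W946 D T h) (mem_cons (W2930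 D T h) mem_nil)))))))))))))))))))) cl670
theorem W2931 : WFK w2931 := fun D T h => wf_of_chk h mem_nil (mem_cons (L670 D T h) mem_nil) cw2931
theorem W2932 : WFK w2932 := fun D T h => wf_of_chk h mem_nil (mem_cons (L670 D T h) mem_nil) cw2932
theorem W2933 : WFK w2933 := fun D T h => wf_of_chk h mem_nil (mem_cons (L670 D T h) mem_nil) cw2933
theorem L671 : LFK l671 := fun D T h => lf_of_chk h (mem_cons (W42 D T h) (mem_cons (W16 D T h) (mem_cons (W710 D T h) (mem_cons (W3 D T h) (mem_cons (W39 D T h) (mem_cons (W461 D T h) (mem_cons (W368 D T h) (mem_cons (W1 D T h) (mem_cons (W170 D T h) (mem_cons (W1325 D T h) (mem_cons (W1326 D T h) (mem_cons (W581 D T h) (mem_cons (W181 D T h) (mem_cons (W56 D T h) (mem_cons (W267 D T h) (mem_cons (W220 D T h) (mem_cons (W638 D T h) mem_nil))))))))))))))))) cl671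
theorem W2934 : WFK w2934 := fun D T h => wf_of_chk h mem_nil (mem_cons (L671 D T h) mem_nil) cw2934
theorem W2935 : WFK w2935 := fun D T h => wf_of_chk h (mem_cons (W143 D T h) (mem_cons (W16 D T h) mem_nil)) mem_nil cw2935
theorem W2936 : WFK w2936 := fun D T h => wf_of_chk h mem_nil (mem_cons (L671 D T h) mem_nil) cw2936
theorem W2937 : WFK w2937 := fun D T h => wf_of_chk h (mem_cons (W455 D T h) mem_nil) mem_nil cw2937
theorem W2938 : WFK w2938 := fun D T h => wf_of_chk h mem_nil (mem_cons (L475 D T h) mem_nil) cw2938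
theorem W2939 : WFK w2939 := fun D T h => wf_of_chk h mem_nil (mem_cons (L475 D T h) mem_nil) cw2939
theorem L672 : LFK l672 := fun D T h => lf_of_chk h (mem_cons (W638 D T h) (mem_cons (W91 D T h) (mem_cons (W4 D T h) (mem_cons (W1928 D T h) (mem_cons (W915 D T h) (mem_cons (W291 D T h) (mem_cons (W1246 D T h) (mem_cons (W1380 D T h) (mem_cons (W1482 D T h) (mem_cons (W884 D T h) (mem_cons (W148 D T h) mem_nil))))))))))) cl672
theorem W2940 : WFK w2940 := fun D T h => wf_of_chk h mem_nil (mem_cons (L672 D T h) mem_nil) cw2940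
theorem W2941 : WFK w2941 := fun D T h => wf_of_chk h (mem_cons (W220 D T h) mem_nil) mem_nil cw2941
theorem L673 : LFK l673 := fun D T h => lf_of_chk h (mem_cons (W267 D T h) mem_nil) cl673
theorem W2942 : WFK w2942 := fun D T h => wf_of_chk h mem_nil (mem_cons (L673 D T h) mem_nil) cw2942
theorem W2943 : WFK w2943 := fun D T h => wf_of_chk h (mem_cons (W220 D T h) mem_nil) mem_nil cw2943
theorem W2944 : WFK w2944 := fun D T h => wf_of_chk h (mem_cons (W80 D T h) mem_nil) mem_nil cw2944
theorem W2945 : WFK w2945 := fun D T h => wf_of_chk h mem_nil (mem_cons (L475 D T h) mem_nil) cw2945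
theorem W2946 : WFK w2946 := fun D T h => wf_of_chk h mem_nil (mem_cons (L475 D T h) mem_nil) cw2946
theorem W2947 : WFK w2947 := fun D T h => wf_of_chk h (mem_cons (W220 D T h) (mem_cons (W488 D T h) mem_nil)) mem_nil cw2947
theorem W2948 : WFK w2948 := fun D T h => wf_of_chk h (mem_cons (W220 D T h) mem_nil) mem_nil cw2948
theorem L674 : LFK l674 := fun D T h => lf_of_chk h (mem_cons (W2938 D T h) (mem_cons (W1326 D T h) (mem_cons (W2939 D T h) (mem_cons (W267 D T h) (mem_cons (W3 D T h) (mem_cons (W16 D T h) (mem_cons (W719 D T h) (mem_cons (W2948 D T h) (mem_cons (W2944 D T h) (mem_cons (W1540 D T h) (mem_cons (W1393 D T h) (mem_cons (W261 D T h) (mem_cons (W2945 D T h) (mem_cons (W2946 D T h) (mem_cons (W2947 D T h) (mem_cons (W230 D T h) (mem_cons (W1528 D T h) (mem_cons (W2940 D T h) (mem_cons (W2007 D T h) (mem_cons (W2922 D T h) (mem_cons (W2921 D T h) (mem_cons (W2941 D T h) (mem_cons (W2942 D T h) (mem_cons (W2943 D T h) mem_nil)))))))))))))))))))))))) cl674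
theorem W2949 : WFK w2949 := fun D T h => wf_of_chk h mem_nil (mem_cons (L674 D T h) mem_nil) cw2949
theorem W2950 : WFK w2950 := fun D T h => wf_of_chk h (mem_cons (W259 D T h) (mem_cons (W16 D T h) mem_nil)) mem_nil cw2950
theorem W2951 : WFK w2951 := fun D T h => wf_of_chk h (mem_cons (W937 D T h) (mem_cons (W16 D T h) mem_nil)) mem_nil cw2951
theorem W2952 : WFK w2952 := fun D T h => wf_of_chk h (mem_cons (W181 D T h) (mem_cons (W16 D T h) mem_nil)) mem_nil cw2952
theorem W2953 : WFK w2953 := fun D T h => wf_of_chk h mem_nil (mem_cons (L445 D T h) mem_nil) cw2953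
theorem W2954 : WFK w2954 := fun D T h => wf_of_chk h (mem_cons (W181 D T h) mem_nil) mem_nil cw2954
theorem W2955 : WFK w2955 := fun D T h => wf_of_chk h (mem_cons (W1339 D T h) mem_nil) mem_nil cw2955
theorem W2956 : WFK w2956 := fun D T h => wf_of_chk h (mem_cons (W667 D T h) mem_nil) mem_nil cw2956
theorem W2957 : WFK w2957 := fun D T h => wf_of_chk h (mem_cons (W521 D T h) mem_nil) mem_nil cw2957
theorem W2958 : WFK w2958 := fun D T h => wf_of_chk h (mem_cons (W616 D T h) mem_nil) mem_nil cw2958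
theorem W2959 : WFK w2959 := fun D T h => wf_of_chk h (mem_cons (W183 D T h) mem_nil) mem_nil cw2959
theorem W2960 : WFK w2960 := fun D T h => wf_of_chk h (mem_cons (W85 D T h) mem_nil) mem_nil cw2960
theorem L675 : LFK l675 := fun D T h => lf_of_chk h (mem_cons (W2914 D T h) (mem_cons (W932 D T h) (mem_cons (W616 D T h) (mem_cons (W181 D T h) (mem_cons (W1 D T h) (mem_cons (W69 D T h) (mem_cons (W789 D T h) (mem_cons (W2953 D T h) (mem_cons (W2954 D T h) (mem_cons (W126 D T h) (mem_cons (W1317 D T h) (mem_cons (W2959 D T h) (mem_cons (W2955 D T h) (mem_cons (W2956 D T h) (mem_cons (W2957 D T h) (mem_cons (W2958 D T h) (mem_cons (W2855 D T h) (mem_cons (W2960 D T h) (mem_cons (W1166 D T h) mem_nil))))))))))))))))))) cl675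
theorem W2961 : WFK w2961 := fun D T h => wf_of_chk h mem_nil (mem_cons (L675 D T h) mem_nil) cw2961
theorem W2962 : WFK w2962 := fun D T h => wf_of_chk h (mem_cons (W162 D T h) (mem_cons (W181 D T h) mem_nil)) mem_nil cw2962
theorem W2963 : WFK w2963 := fun D T h => wf_of_chk h (mem_cons (W16 D T h) mem_nil) mem_nil cw2963
theorem W2964 : WFK w2964 := fun D T h => wf_of_chk h (mem_cons (W709 D T h) (mem_cons (W16 D T h) mem_nil)) mem_nil cw2964
theorem W2965 : WFK w2965 := fun D T h => wf_of_chk h mem_nil (mem_cons (L665 D T h) mem_nil) cw2965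
theorem W2966 : WFK w2966 := fun D T h => wf_of_chk h (mem_cons (W1070 D T h) (mem_cons (W16 D T h) mem_nil)) mem_nil cw2966
theorem W2967 : WFK w2967 := fun D T h => wf_of_chk h mem_nil (mem_cons (L671 D T h) mem_nil) cw2967
theorem W2968 : WFK w2968 := fun D T h => wf_of_chk h mem_nil (mem_cons (L511 D T h) mem_nil) cw2968
theorem W2969 : WFK w2969 := fun D T h => wf_of_chk h mem_nil (mem_cons (L161 D T h) mem_nil) cw2969
theorem L676 : LFK l676 := fun D T h => lf_of_chk h (mem_cons (W220 D T h) mem_nil) cl676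
theorem W2970 : WFK w2970 := fun D T h => wf_of_chk h mem_nil (mem_cons (L676 D T h) mem_nil) cw2970
theorem W2971 : WFK w2971 := fun D T h => wf_of_chk h mem_nil (mem_cons (L298 D T h) mem_nil) cw2971
theorem L677 : LFK l677 := fun D T h => lf_of_chk h (mem_cons (W153 D T h) (mem_cons (W15 D T h) (mem_cons (W1 D T h) (mem_cons (W281 D T h) (mem_cons (W685 D T h) (mem_cons (W1053 D T h) (mem_cons (W149 D T h) mem_nil))))))) cl677
theorem W2972 : WFK w2972 := fun D T h => wf_of_chk h mem_nil (mem_cons (L677 D T h) mem_nil) cw2972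
theorem W2973 : WFK w2973 := fun D T h => wf_of_chk h mem_nil (mem_cons (L409 D T h) mem_nil) cw2973
theorem L678 : LFK l678 := fun D T h => lf_of_chk h (mem_cons (W368 D T h) mem_nil) cl678
theorem W2974 : WFK w2974 := fun D T h => wf_of_chk h mem_nil (mem_cons (L678 D T h) mem_nil) cw2974
theorem L679 : LFK l679 := fun D T h => lf_of_chk h (mem_cons (W220 D T h) (mem_cons (W13 D T h) (mem_cons (W80 D T h) (mem_cons (W812 D T h) (mem_cons (W871 D T h) (mem_cons (W783 D T h) (mem_cons (W717 D T h) mem_nil))))))) cl679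
theorem W2975 : WFK w2975 := fun D T h => wf_of_chk h mem_nil (mem_cons (L679 D T h) mem_nil) cw2975
theorem W2976 : WFK w2976 := fun D T h => wf_of_chk h mem_nil (mem_cons (L677 D T h) mem_nil) cw2976
theorem W2977 : WFK w2977 := fun D T h => wf_of_chk h mem_nil (mem_cons (L677 D T h) mem_nil) cw2977
theorem W2978 : WFK w2978 := fun D T h => wf_of_chk h mem_nil (mem_cons (L677 D T h) mem_nil) cw2978
theorem W2979 : WFK w2979 := fun D T h => wf_of_chk h mem_nil (mem_cons (L166 D T h) mem_nil) cw2979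
theorem L680 : LFK l680 := fun D T h => lf_of_chk h (mem_cons (W461 D T h) mem_nil) cl680
theorem W2980 : WFK w2980 := fun D T h => wf_of_chk h mem_nil (mem_cons (L680 D T h) mem_nil) cw2980
theorem L681 : LFK l681 := fun D T h => lf_of_chk h (mem_cons (W2967 D T h) (mem_cons (W721 D T h) (mem_cons (W2729 D T h) (mem_cons (W42 D T h) (mem_cons (W13 D T h) (mem_cons (W16 D T h) (mem_cons (W2972 D T h) (mem_cons (W785 D T h) (mem_cons (W2973 D T h) (mem_cons (W2980 D T h) (mem_cons (W2979 D T h) (mem_cons (W2974 D T h) (mem_cons (W153 D T h) (mem_cons (W152 D T h) (mem_cons (W261 D T h) (mem_cons (W2975 D T h) (mem_cons (W2976 D T h) (mem_cons (W2977 D T h) (mem_cons (W2978 D T h) (mem_cons (W1528 D T h) (mem_cons (W2485 D T h) (mem_cons (W2968 D T h) (mem_cons (W2942 D T h) (mem_cons (W2969 D T h) (mem_cons (W1661 D T h) (mem_cons (W2970 D T h) (mem_cons (W2971 D T h) (mem_cons (W2346 D T h) (mem_cons (W62 D T h) mem_nil))))))))))))))))))))))))))))) cl681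
theorem W2981 : WFK w2981 := fun D T h => wf_of_chk h mem_nil (mem_cons (L681 D T h) mem_nil) cw2981
theorem W2982 : WFK w2982 := fun D T h => wf_of_chk h (mem_cons (W1289 D T h) (mem_cons (W16 D T h) mem_nil)) mem_nil cw2982
theorem L682 : LFK l682 := fun D T h => lf_of_chk h (mem_cons (W2911 D T h) (mem_cons (W1310 D T h) (mem_cons (W2963 D T h) (mem_cons (W284 D T h) (mem_cons (W2934 D T h) (mem_cons (W181 D T h) (mem_cons (W16 D T h) (mem_cons (W1350 D T h) (mem_cons (W789 D T h) (mem_cons (W2926 D T h) (mem_cons (W2961 D T h) (mem_cons (W2962 D T h) (mem_cons (W2952 D T h) (mem_cons (W2927 D T h) (mem_cons (W669 D T h) (mem_cons (W50 D T h) (mem_cons (W2928 D T h) (mem_cons (W2929 D T h) (mem_cons (W2931 D T h) (mem_cons (W2932 D T h) (mem_cons (W2933 D T h) (mem_cons (W1019 D T h) (mem_cons (W937 D T h) (mem_cons (W2709 D T h) (mem_cons (W2935 D T h) (mem_cons (W2936 D T h) (mem_cons (W2937 D T h) (mem_cons (W2949 D T h) (mem_cons (W2950 D T h) (mem_cons (W1153 D T h) (mem_cons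 (W2951 D T h) (mem_cons (W2964 D T h) (mem_cons (W2965 D T h) (mem_cons (W2966 D T h) (mem_cons (W2981 D T h) (mem_cons (W2982 D T h) mem_nil)))))))))))))))))))))))))))))))))))) cl682
theorem W2983 : WFK w2983 := fun D T h => wf_of_chk h mem_nil (mem_cons (L682 D T h) mem_nil) cw2983
theorem W2984 : WFK w2984 := fun D T h => wf_of_chk h mem_nil (mem_cons (L544 D T h) mem_nil) cw2984
theorem W2985 : WFK w2985 := fun D T h => wf_of_chk h mem_nil (mem_cons (L473 D T h) mem_nil) cw2985
theorem L683 : LFK l683 := fun D T h => lf_of_chk h (mem_cons (W2 D T h) (mem_cons (W1300 D T h) (mem_cons (W710 D T h) (mem_cons (W42 D T h) (mem_cons (W162 D T h) (mem_cons (W448 D T h) (mem_cons (W2983 D T h) (mem_cons (W2984 D T h) (mem_cons (W2985 D T h) (mem_cons (W0 D T h) (mem_cons (W220 D T h) (mem_cons (W50 D T h) (mem_cons (W667 D T h) (mem_cons (W669 D T h) mem_nil)))))))))))))) cl683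
theorem W2986 : WFK w2986 := fun D T h => wf_of_chk h mem_nil (mem_cons (L683 D T h) mem_nil) cw2986
theorem W2987 : WFK w2987 := fun D T h => wf_of_chk h mem_nil (mem_cons (L522 D T h) mem_nil) cw2987
theorem W2988 : WFK w2988 := fun D T h => wf_of_chk h (mem_cons (W37 D T h) mem_nil) mem_nil cw2988
theorem W2989 : WFK w2989 := fun D T h => wf_of_chk h (mem_cons (W16 D T h) mem_nil) mem_nil cw2989
theorem W2990 : WFK w2990 := fun D T h => wf_of_chk h (mem_cons (W16 D T h) mem_nil) mem_nil cw2990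
theorem W2991 : WFK w2991 := fun D T h => wf_of_chk h (mem_cons (W1322 D T h) (mem_cons (W16 D T h) mem_nil)) mem_nil cw2991
theorem W2992 : WFK w2992 := fun D T h => wf_of_chk h (mem_cons (W284 D T h) (mem_cons (W16 D T h) mem_nil)) mem_nil cw2992
theorem W2993 : WFK w2993 := fun D T h => wf_of_chk h (mem_cons (W1327 D T h) (mem_cons (W16 D T h) mem_nil)) mem_nil cw2993
theorem W2994 : WFK w2994 := fun D T h => wf_of_chk h mem_nil (mem_cons (L472 D T h) mem_nil) cw2994
theorem W2995 : WFK w2995 := fun D T h => wf_of_chk h (mem_cons (W2994 D T h) (mem_cons (W37 D T h) mem_nil)) mem_nil cw2995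
theorem W2996 : WFK w2996 := fun D T h => wf_of_chk h (mem_cons (W2326 D T h) (mem_cons (W37 D T h) mem_nil)) mem_nil cw2996
theorem W2997 : WFK w2997 := fun D T h => wf_of_chk h mem_nil (mem_cons (L344 D T h) mem_nil) cw2997
theorem W2998 : WFK w2998 := fun D T h => wf_of_chk h (mem_cons (W2997 D T h) (mem_cons (W37 D T h) mem_nil)) mem_nil cw2998
theorem W2999 : WFK w2999 := fun D T h => wf_of_chk h (mem_cons (W1318 D T h) (mem_cons (W37 D T h) mem_nil)) mem_nil cw2999
theorem W3000 : WFK w3000 := fun D T h => wf_of_chk h mem_nil (mem_cons (L552 D T h) mem_nil) cw3000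
theorem W3001 : WFK w3001 := fun D T h => wf_of_chk h (mem_cons (W177 D T h) (mem_cons (W37 D T h) mem_nil)) mem_nil cw3001
theorem W3002 : WFK w3002 := fun D T h => wf_of_chk h (mem_cons (W1051 D T h) (mem_cons (W16 D T h) mem_nil)) mem_nil cw3002
theorem W3003 : WFK w3003 := fun D T h => wf_of_chk h mem_nil (mem_cons (L257 D T h) mem_nil) cw3003
theorem W3004 : WFK w3004 := fun D T h => wf_of_chk h (mem_cons (W1409 D T h) (mem_cons (W16 D T h) mem_nil)) mem_nil cw3004
theorem L684 : LFK l684 := fun D T h => lf_of_chk h (mem_cons (W549 D T h) (mem_cons (W1932 D T h) (mem_cons (W1075 D T h) (mem_cons (W1401 D T h) (mem_cons (W1546 D T h) mem_nil))))) cl684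
theorem W3005 : WFK w3005 := fun D T h => wf_of_chk h mem_nil (mem_cons (L684 D T h) mem_nil) cw3005
theorem W3006 : WFK w3006 := fun D T h => wf_of_chk h mem_nil (mem_cons (L671 D T h) mem_nil) cw3006
theorem L685 : LFK l685 := fun D T h => lf_of_chk h (mem_cons (W549 D T h) (mem_cons (W1932 D T h) (mem_cons (W158 D T h) (mem_cons (W1401 D T h) (mem_cons (W432 D T h) mem_nil))))) cl685
theorem W3007 : WFK w3007 := fun D T h => wf_of_chk h mem_nil (mem_cons (L685 D T h) mem_nil) cw3007
theorem W3008 : WFK w3008 := fun D T h => wf_of_chk h mem_nil (mem_cons (L201 D T h) mem_nil) cw3008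
theorem L686 : LFK l686 := fun D T h => lf_of_chk h (mem_cons (W1401 D T h) (mem_cons (W158 D T h) (mem_cons (W432 D T h) (mem_cons (W7 D T h) (mem_cons (W802 D T h) (mem_cons (W915 D T h) (mem_cons (W377 D T h) (mem_cons (W913 D T h) mem_nil)))))))) cl686
theorem W3009 : WFK w3009 := fun D T h => wf_of_chk h mem_nil (mem_cons (L686 D T h) mem_nil) cw3009
theorem W3010 : WFK w3010 := fun D T h => wf_of_chk h mem_nil (mem_cons (L686 D T h) mem_nil) cw3010
theorem W3011 : WFK w3011 := fun D T h => wf_of_chk h (mem_cons (W1528 D T h) mem_nil) mem_nil cw3011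
theorem L687 : LFK l687 := fun D T h => lf_of_chk h (mem_cons (W2380 D T h) (mem_cons (W2378 D T h) (mem_cons (W721 D T h) (mem_cons (W916 D T h) (mem_cons (W3008 D T h) (mem_cons (W1355 D T h) (mem_cons (W3009 D T h) (mem_cons (W360 D T h) (mem_cons (W16 D T h) (mem_cons (W549 D T h) (mem_cons (W3004 D T h) (mem_cons (W716 D T h) (mem_cons (W3005 D T h) (mem_cons (W2885 D T h) (mem_cons (W3006 D T h) (mem_cons (W3007 D T h) (mem_cons (W3002 D T h) (mem_cons (W261 D T h) (mem_cons (W1138 D T h) (mem_cons (W3003 D T h) (mem_cons (W3010 D T h) (mem_cons (W3011 D T h) mem_nil)))))))))))))))))))))) cl687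
theorem W3012 : WFK w3012 := fun D T h => wf_of_chk h mem_nil (mem_cons (L687 D T h) mem_nil) cw3012
theorem W3013 : WFK w3013 := fun D T h => wf_of_chk h (mem_cons (W177 D T h) (mem_cons (W16 D T h) mem_nil)) mem_nil cw3013
theorem W3014 : WFK w3014 := fun D T h => wf_of_chk h (mem_cons (W726 D T h) (mem_cons (W16 D T h) mem_nil)) mem_nil cw3014
theorem W3015 : WFK w3015 := fun D T h => wf_of_chk h (mem_cons (W726 D T h) (mem_cons (W16 D T h) mem_nil)) mem_nil cw3015
theorem W3016 : WFK w3016 := fun D T h => wf_of_chk h mem_nil (mem_cons (L407 D T h) mem_nil) cw3016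
theorem W3017 : WFK w3017 := fun D T h => wf_of_chk h (mem_cons (W3016 D T h) (mem_cons (W16 D T h) mem_nil)) mem_nil cw3017
theorem W3018 : WFK w3018 := fun D T h => wf_of_chk h (mem_cons (W1 D T h) (mem_cons (W16 D T h) mem_nil)) mem_nil cw3018
theorem W3019 : WFK w3019 := fun D T h => wf_of_chk h mem_nil (mem_cons (L176 D T h) mem_nil) cw3019
theorem W3020 : WFK w3020 := fun D T h => wf_of_chk h (mem_cons (W3019 D T h) (mem_cons (W16 D T h) mem_nil)) mem_nil cw3020
theorem W3021 : WFK w3021 := fun D T h => wf_of_chk h mem_nil (mem_cons (L684 D T h) mem_nil) cw3021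
theorem W3022 : WFK w3022 := fun D T h => wf_of_chk h mem_nil (mem_cons (L685 D T h) mem_nil) cw3022
theorem W3023 : WFK w3023 := fun D T h => wf_of_chk h mem_nil (mem_cons (L95 D T h) mem_nil) cw3023
theorem L688 : LFK l688 := fun D T h => lf_of_chk h mem_nil cl688
theorem W3024 : WFK w3024 := fun D T h => wf_of_chk h mem_nil (mem_cons (L688 D T h) mem_nil) cw3024
theorem L689 : LFK l689 := fun D T h => lf_of_chk h (mem_cons (W432 D T h) (mem_cons (W158 D T h) (mem_cons (W248 D T h) (mem_cons (W3024 D T h) (mem_cons (W1120 D T h) (mem_cons (W150 D T h) mem_nil)))))) cl689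
theorem W3025 : WFK w3025 := fun D T h => wf_of_chk h mem_nil (mem_cons (L689 D T h) mem_nil) cw3025
theorem L690 : LFK l690 := fun D T h => lf_of_chk h (mem_cons (W3024 D T h) (mem_cons (W617 D T h) (mem_cons (W158 D T h) (mem_cons (W432 D T h) (mem_cons (W1120 D T h) (mem_cons (W150 D T h) mem_nil)))))) cl690
theorem W3026 : WFK w3026 := fun D T h => wf_of_chk h mem_nil (mem_cons (L690 D T h) mem_nil) cw3026
theorem L691 : LFK l691 := fun D T h => lf_of_chk h (mem_cons (W432 D T h) (mem_cons (W16 D T h) (mem_cons (W915 D T h) (mem_cons (W158 D T h) (mem_cons (W1120 D T h) (mem_cons (W1401 D T h) mem_nil)))))) cl691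
theorem W3027 : WFK w3027 := fun D T h => wf_of_chk h mem_nil (mem_cons (L691 D T h) mem_nil) cw3027
theorem L692 : LFK l692 := fun D T h => lf_of_chk h (mem_cons (W2380 D T h) (mem_cons (W721 D T h) (mem_cons (W2378 D T h) (mem_cons (W3008 D T h) (mem_cons (W916 D T h) (mem_cons (W3023 D T h) (mem_cons (W3025 D T h) (mem_cons (W2478 D T h) (mem_cons (W16 D T h) (mem_cons (W548 D T h) (mem_cons (W549 D T h) (mem_cons (W716 D T h) (mem_cons (W3004 D T h) (mem_cons (W3021 D T h) (mem_cons (W3006 D T h) (mem_cons (W2885 D T h) (mem_cons (W3022 D T h) (mem_cons (W3020 D T h) (mem_cons (W432 D T h) (mem_cons (W261 D T h) (mem_cons (W3003 D T h) (mem_cons (W1138 D T h) (mem_cons (W3026 D T h) (mem_cons (W3027 D T h) mem_nil)))))))))))))))))))))))) cl692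
theorem W3028 : WFK w3028 := fun D T h => wf_of_chk h mem_nil (mem_cons (L692 D T h) mem_nil) cw3028
theorem W3029 : WFK w3029 := fun D T h => wf_of_chk h (mem_cons (W1945 D T h) (mem_cons (W16 D T h) mem_nil)) mem_nil cw3029
theorem W3030 : WFK w3030 := fun D T h => wf_of_chk h (mem_cons (W1945 D T h) (mem_cons (W16 D T h) mem_nil)) mem_nil cw3030
theorem W3031 : WFK w3031 := fun D T h => wf_of_chk h (mem_cons (W16 D T h) mem_nil) mem_nil cw3031
theorem W3032 : WFK w3032 := fun D T h => wf_of_chk h (mem_cons (W230 D T h) (mem_cons (W16 D T h) mem_nil)) mem_nil cw3032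
theorem L693 : LFK l693 := fun D T h => lf_of_chk h (mem_cons (W3007 D T h) (mem_cons (W721 D T h) (mem_cons (W2378 D T h) (mem_cons (W3008 D T h) (mem_cons (W2380 D T h) (mem_cons (W3011 D T h) (mem_cons (W3010 D T h) (mem_cons (W16 D T h) (mem_cons (W549 D T h) (mem_cons (W716 D T h) (mem_cons (W3032 D T h) (mem_cons (W3002 D T h) (mem_cons (W261 D T h) (mem_cons (W3003 D T h) (mem_cons (W1138 D T h) (mem_cons (W916 D T h) (mem_cons (W3009 D T h) (mem_cons (W1355 D T h) (mem_cons (W360 D T h) mem_nil))))))))))))))))))) cl693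
theorem W3033 : WFK w3033 := fun D T h => wf_of_chk h mem_nil (mem_cons (L693 D T h) mem_nil) cw3033
theorem W3034 : WFK w3034 := fun D T h => wf_of_chk h (mem_cons (W181 D T h) (mem_cons (W16 D T h) mem_nil)) mem_nil cw3034
theorem W3035 : WFK w3035 := fun D T h => wf_of_chk h mem_nil (mem_cons (L454 D T h) mem_nil) cw3035

end Pool.Agent.W319.GCI.K5
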