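import Pool.Agent.W319.GCI.K5A2
set_option autoImplicit false
set_option maxRecDepth 100000
set_option linter.all false
namespace Pool.Agent.W319.GCI.K5
open Pool.Agent.W319.GCI

theorem W3036 : WFK w3036 := fun D T h => wf_of_chk h (mem_cons (W3035 D T h) (mem_cons (W16 D T h) mem_nil)) mem_nil cw3036
theorem L694 : LFK l694 := fun D T h => lf_of_chk h (mem_cons (W6 D T h) (mem_cons (W30 D T h) (mem_cons (W193 D T h) (mem_cons (W18 D T h) (mem_cons (W19 D T h) (mem_cons (W1091 D T h) mem_nil)))))) cl694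
theorem W3037 : WFK w3037 := fun D T h => wf_of_chk h mem_nil (mem_cons (L694 D T h) mem_nil) cw3037
theorem L695 : LFK l695 := fun D T h => lf_of_chk h (mem_cons (W1528 D T h) (mem_cons (W16 D T h) (mem_cons (W1636 D T h) (mem_cons (W3 D T h) (mem_cons (W1409 D T h) (mem_cons (W39 D T h) (mem_cons (W721 D T h) (mem_cons (W3037 D T h) (mem_cons (W158 D T h) (mem_cons (W746 D T h) (mem_cons (W258 D T h) (mem_cons (W747 D T h) (mem_cons (W748 D T h) (mem_cons (W162 D T h) mem_nil)))))))))))))) cl695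
theorem W3038 : WFK w3038 := fun D T h => wf_of_chk h mem_nil (mem_cons (L695 D T h) mem_nil) cw3038
theorem W3039 : WFK w3039 := fun D T h => wf_of_chk h (mem_cons (W3038 D T h) (mem_cons (W16 D T h) mem_nil)) mem_nil cw3039
theorem W3040 : WFK w3040 := fun D T h => wf_of_chk h (mem_cons (W2218 D T h) (mem_cons (W16 D T h) mem_nil)) mem_nil cw3040
theorem L696 : LFK l696 := fun D T h => lf_of_chk h (mem_cons (W3022 D T h) (mem_cons (W721 D T h) (mem_cons (W16 D T h) (mem_cons (W3008 D T h) (mem_cons (W3027 D T h) (mem_cons (W2380 D T h) (mem_cons (W3023 D T h) (mem_cons (W3025 D T h) (mem_cons (W548 D T h) (mem_cons (W716 D T h) (mem_cons (W3004 D T h) (mem_cons (W3021 D T h) (mem_cons (W3006 D T h) (mem_cons (W2885 D T h) (mem_cons (W3040 D T h) (mem_cons (W549 D T h) (mem_cons (W432 D T h) (mem_cons (W261 D T h) (mem_cons (W3003 D T h) (mem_cons (W1138 D T h) mem_nil)))))))))))))))))))) cl696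
theorem W3041 : WFK w3041 := fun D T h => wf_of_chk h mem_nil (mem_cons (L696 D T h) mem_nil) cw3041
theorem W3042 : WFK w3042 := fun D T h => wf_of_chk h mem_nil (mem_cons (L687 D T h) mem_nil) cw3042
theorem W3043 : WFK w3043 := fun D T h => wf_of_chk h (mem_cons (W230 D T h) (mem_cons (W16 D T h) mem_nil)) mem_nil cw3043
theorem W3044 : WFK w3044 := fun D T h => wf_of_chk h (mem_cons (W16 D T h) (mem_cons (W3002 D T h) mem_nil)) mem_nil cw3044
theorem W3045 : WFK w3045 := fun D T h => wf_of_chk h (mem_cons (W799 D T h) (mem_cons (W16 D T h) mem_nil)) mem_nil cw3045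
theorem W3046 : WFK w3046 := fun D T h => wf_of_chk h (mem_cons (W179 D T h) (mem_cons (W16 D T h) mem_nil)) mem_nil cw3046
theorem W3047 : WFK w3047 := fun D T h => wf_of_chk h (mem_cons (W178 D T h) (mem_cons (W16 D T h) mem_nil)) mem_nil cw3047
theorem W3048 : WFK w3048 := fun D T h => wf_of_chk h (mem_cons (W111 D T h) (mem_cons (W16 D T h) mem_nil)) mem_nil cw3048
theorem W3049 : WFK w3049 := fun D T h => wf_of_chk h (mem_cons (W111 D T h) (mem_cons (W16 D T h) mem_nil)) mem_nil cw3049
theorem W3050 : WFK w3050 := fun D T h => wf_of_chk h (mem_cons (W91 D T h) (mem_cons (W16 D T h) mem_nil)) mem_nil cw3050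
theorem W3051 : WFK w3051 := fun D T h => wf_of_chk h (mem_cons (W22 D T h) (mem_cons (W16 D T h) mem_nil)) mem_nil cw3051
theorem W3052 : WFK w3052 := fun D T h => wf_of_chk h (mem_cons (W3051 D T h) (mem_cons (W16 D T h) mem_nil)) mem_nil cw3052
theorem W3053 : WFK w3053 := fun D T h => wf_of_chk h (mem_cons (W91 D T h) (mem_cons (W16 D T h) mem_nil)) mem_nil cw3053
theorem W3054 : WFK w3054 := fun D T h => wf_of_chk h (mem_cons (W3019 D T h) (mem_cons (W16 D T h) mem_nil)) mem_nil cw3054
theorem W3055 : WFK w3055 := fun D T h => wf_of_chk h (mem_cons (W3054 D T h) (mem_cons (W16 D T h) mem_nil)) mem_nil cw3055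
theorem W3056 : WFK w3056 := fun D T h => wf_of_chk h (mem_cons (W1519 D T h) (mem_cons (W16 D T h) mem_nil)) mem_nil cw3056
theorem W3057 : WFK w3057 := fun D T h => wf_of_chk h (mem_cons (W3056 D T h) (mem_cons (W16 D T h) mem_nil)) mem_nil cw3057
theorem W3058 : WFK w3058 := fun D T h => wf_of_chk h (mem_cons (W220 D T h) (mem_cons (W799 D T h) mem_nil)) mem_nil cw3058
theorem W3059 : WFK w3059 := fun D T h => wf_of_chk h (mem_cons (W372 D T h) (mem_cons (W16 D T h) mem_nil)) mem_nil cw3059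
theorem L697 : LFK l697 := fun D T h => lf_of_chk h (mem_cons (W128 D T h) (mem_cons (W219 D T h) (mem_cons (W22 D T h) (mem_cons (W15 D T h) (mem_cons (W1501 D T h) (mem_cons (W437 D T h) (mem_cons (W1065 D T h) (mem_cons (W581 D T h) (mem_cons (W2795 D T h) (mem_cons (W1192 D T h) (mem_cons (W1209 D T h) (mem_cons (W1064 D T h) mem_nil)))))))))))) cl697
theorem W3060 : WFK w3060 := fun D T h => wf_of_chk h mem_nil (mem_cons (L697 D T h) mem_nil) cw3060
theorem W3061 : WFK w3061 := fun D T h => wf_of_chk h (mem_cons (W3060 D T h) (mem_cons (W16 D T h) mem_nil)) mem_nil cw3061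
theorem W3062 : WFK w3062 := fun D T h => wf_of_chk h (mem_cons (W3019 D T h) (mem_cons (W16 D T h) mem_nil)) mem_nil cw3062
theorem W3063 : WFK w3063 := fun D T h => wf_of_chk h (mem_cons (W3062 D T h) (mem_cons (W16 D T h) mem_nil)) mem_nil cw3063
theorem W3064 : WFK w3064 := fun D T h => wf_of_chk h (mem_cons (W2527 D T h) (mem_cons (W16 D T h) mem_nil)) mem_nil cw3064
theorem W3065 : WFK w3065 := fun D T h => wf_of_chk h (mem_cons (W3064 D T h) (mem_cons (W16 D T h) mem_nil)) mem_nil cw3065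
theorem W3066 : WFK w3066 := fun D T h => wf_of_chk h (mem_cons (W2118 D T h) (mem_cons (W16 D T h) mem_nil)) mem_nil cw3066
theorem W3067 : WFK w3067 := fun D T h => wf_of_chk h (mem_cons (W3066 D T h) (mem_cons (W16 D T h) mem_nil)) mem_nil cw3067
theorem W3068 : WFK w3068 := fun D T h => wf_of_chk h (mem_cons (W162 D T h) (mem_cons (W799 D T h) mem_nil)) mem_nil cw3068
theorem W3069 : WFK w3069 := fun D T h => wf_of_chk h (mem_cons (W2118 D T h) (mem_cons (W16 D T h) mem_nil)) mem_nil cw3069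
theorem W3070 : WFK w3070 := fun D T h => wf_of_chk h (mem_cons (W3069 D T h) (mem_cons (W16 D T h) mem_nil)) mem_nil cw3070
theorem L698 : LFK l698 := fun D T h => lf_of_chk h (mem_cons (W3044 D T h) (mem_cons (W799 D T h) (mem_cons (W3046 D T h) (mem_cons (W3048 D T h) (mem_cons (W3049 D T h) (mem_cons (W3067 D T h) (mem_cons (W2015 D T h) (mem_cons (W2037 D T h) (mem_cons (W2709 D T h) (mem_cons (W3068 D T h) (mem_cons (W3050 D T h) (mem_cons (W3052 D T h) (mem_cons (W3053 D T h) (mem_cons (W3055 D T h) (mem_cons (W3057 D T h) (mem_cons (W128 D T h) (mem_cons (W3058 D T h) (mem_cons (W3059 D T h) (mem_cons (W3034 D T h) (mem_cons (W3002 D T h) (mem_cons (W16 D T h) (mem_cons (W3045 D T h) (mem_cons (W3040 D T h) (mem_cons (W3047 D T h) (mem_cons (W3070 D T h) (mem_cons (W3061 D T h) (mem_cons (W3063 D T h) (mem_cons (W3065 D T h) mem_nil)))))))))))))))))))))))))))) cl698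
theorem W3071 : WFK w3071 := fun D T h => wf_of_chk h mem_nil (mem_cons (L698 D T h) mem_nil) cw3071
theorem W3072 : WFK w3072 := fun D T h => wf_of_chk h mem_nil (mem_cons (L687 D T h) mem_nil) cw3072
theorem W3073 : WFK w3073 := fun D T h => wf_of_chk h mem_nil (mem_cons (L687 D T h) mem_nil) cw3073
theorem W3074 : WFK w3074 := fun D T h => wf_of_chk h mem_nil (mem_cons (L687 D T h) mem_nil) cw3074
theorem W3075 : WFK w3075 := fun D T h => wf_of_chk h (mem_cons (W16 D T h) (mem_cons (W799 D T h) mem_nil)) mem_nil cw3075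
theorem W3076 : WFK w3076 := fun D T h => wf_of_chk h mem_nil (mem_cons (L45 D T h) mem_nil) cw3076
theorem W3077 : WFK w3077 := fun D T h => wf_of_chk h mem_nil (mem_cons (L684 D T h) mem_nil) cw3077
theorem W3078 : WFK w3078 := fun D T h => wf_of_chk h mem_nil (mem_cons (L684 D T h) mem_nil) cw3078
theorem W3079 : WFK w3079 := fun D T h => wf_of_chk h mem_nil (mem_cons (L249 D T h) mem_nil) cw3079
theorem L699 : LFK l699 := fun D T h => lf_of_chk h (mem_cons (W1919 D T h) (mem_cons (W7 D T h) (mem_cons (W1072 D T h) (mem_cons (W1459 D T h) (mem_cons (W412 D T h) (mem_cons (W218 D T h) (mem_cons (W239 D T h) (mem_cons (W141 D T h) (mem_cons (W140 D T h) (mem_cons (W3079 D T h) (mem_cons (W1830 D T h) mem_nil))))))))))) cl699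
theorem W3080 : WFK w3080 := fun D T h => wf_of_chk h mem_nil (mem_cons (L699 D T h) mem_nil) cw3080
theorem W3081 : WFK w3081 := fun D T h => wf_of_chk h mem_nil mem_nil cw3081
theorem L700 : LFK l700 := fun D T h => lf_of_chk h (mem_cons (W1919 D T h) (mem_cons (W7 D T h) (mem_cons (W1072 D T h) (mem_cons (W3081 D T h) (mem_cons (W235 D T h) (mem_cons (W1101 D T h) (mem_cons (W239 D T h) (mem_cons (W141 D T h) (mem_cons (W140 D T h) (mem_cons (W3079 D T h) (mem_cons (W1830 D T h) mem_nil))))))))))) cl700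
theorem W3082 : WFK w3082 := fun D T h => wf_of_chk h mem_nil (mem_cons (L700 D T h) mem_nil) cw3082
theorem L701 : LFK l701 := fun D T h => lf_of_chk h (mem_cons (W3031 D T h) (mem_cons (W16 D T h) (mem_cons (W922 D T h) (mem_cons (W833 D T h) (mem_cons (W1115 D T h) (mem_cons (W1075 D T h) (mem_cons (W831 D T h) (mem_cons (W1101 D T h) (mem_cons (W3080 D T h) (mem_cons (W3082 D T h) mem_nil)))))))))) cl701
theorem W3083 : WFK w3083 := fun D T h => wf_of_chk h mem_nil (mem_cons (L701 D T h) mem_nil) cw3083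
theorem W3084 : WFK w3084 := fun D T h => wf_of_chk h mem_nil (mem_cons (L180 D T h) mem_nil) cw3084
theorem W3085 : WFK w3085 := fun D T h => wf_of_chk h mem_nil (mem_cons (L534 D T h) mem_nil) cw3085
theorem W3086 : WFK w3086 := fun D T h => wf_of_chk h mem_nil (mem_cons (L538 D T h) mem_nil) cw3086
theorem L702 : LFK l702 := fun D T h => lf_of_chk h (mem_cons (W1401 D T h) (mem_cons (W1075 D T h) (mem_cons (W1546 D T h) (mem_cons (W922 D T h) (mem_cons (W833 D T h) (mem_cons (W914 D T h) (mem_cons (W913 D T h) (mem_cons (W1120 D T h) (mem_cons (W3084 D T h) (mem_cons (W2772 D T h) (mem_cons (W3085 D T h) (mem_cons (W160 D T h) (mem_cons (W3086 D T h) mem_nil))))))))))))) cl702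
theorem W3087 : WFK w3087 := fun D T h => wf_of_chk h mem_nil (mem_cons (L702 D T h) mem_nil) cw3087
theorem W3088 : WFK w3088 := fun D T h => wf_of_chk h mem_nil (mem_cons (L241 D T h) mem_nil) cw3088
theorem L703 : LFK l703 := fun D T h => lf_of_chk h mem_nil cl703
theorem W3089 : WFK w3089 := fun D T h => wf_of_chk h mem_nil (mem_cons (L703 D T h) mem_nil) cw3089
theorem W3090 : WFK w3090 := fun D T h => wf_of_chk h mem_nil (mem_cons (L688 D T h) mem_nil) cw3090
theorem L704 : LFK l704 := fun D T h => lf_of_chk h (mem_cons (W1546 D T h) (mem_cons (W1932 D T h) (mem_cons (W1075 D T h) (mem_cons (W1115 D T h) (mem_cons (W914 D T h) (mem_cons (W1375 D T h) (mem_cons (W1376 D T h) (mem_cons (W3090 D T h) (mem_cons (W1120 D T h) (mem_cons (W150 D T h) (mem_cons (W3088 D T h) (mem_cons (W3089 D T h) mem_nil)))))))))))) cl704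
theorem W3091 : WFK w3091 := fun D T h => wf_of_chk h mem_nil (mem_cons (L704 D T h) mem_nil) cw3091
theorem W3092 : WFK w3092 := fun D T h => wf_of_chk h mem_nil (mem_cons (L241 D T h) mem_nil) cw3092
theorem W3093 : WFK w3093 := fun D T h => wf_of_chk h mem_nil (mem_cons (L241 D T h) mem_nil) cw3093
theorem L705 : LFK l705 := fun D T h => lf_of_chk h (mem_cons (W1401 D T h) (mem_cons (W1932 D T h) (mem_cons (W1546 D T h) (mem_cons (W7 D T h) (mem_cons (W16 D T h) (mem_cons (W914 D T h) (mem_cons (W377 D T h) (mem_cons (W913 D T h) (mem_cons (W3092 D T h) (mem_cons (W3093 D T h) (mem_cons (W3085 D T h) (mem_cons (W160 D T h) (mem_cons (W3086 D T h) mem_nil))))))))))))) cl705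
theorem W3094 : WFK w3094 := fun D T h => wf_of_chk h mem_nil (mem_cons (L705 D T h) mem_nil) cw3094
theorem W3095 : WFK w3095 := fun D T h => wf_of_chk h mem_nil (mem_cons (L702 D T h) mem_nil) cw3095
theorem W3096 : WFK w3096 := fun D T h => wf_of_chk h mem_nil (mem_cons (L704 D T h) mem_nil) cw3096
theorem W3097 : WFK w3097 := fun D T h => wf_of_chk h mem_nil (mem_cons (L705 D T h) mem_nil) cw3097
theorem W3098 : WFK w3098 := fun D T h => wf_of_chk h (mem_cons (W3031 D T h) mem_nil) mem_nil cw3098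
theorem W3099 : WFK w3099 := fun D T h => wf_of_chk h (mem_cons (W3031 D T h) mem_nil) mem_nil cw3099
theorem L706 : LFK l706 := fun D T h => lf_of_chk h (mem_cons (W3005 D T h) (mem_cons (W16 D T h) (mem_cons (W721 D T h) (mem_cons (W3087 D T h) (mem_cons (W3091 D T h) (mem_cons (W2478 D T h) (mem_cons (W3094 D T h) (mem_cons (W360 D T h) (mem_cons (W162 D T h) (mem_cons (W549 D T h) (mem_cons (W3032 D T h) (mem_cons (W3002 D T h) (mem_cons (W3076 D T h) (mem_cons (W3077 D T h) (mem_cons (W3078 D T h) (mem_cons (W3083 D T h) (mem_cons (W3095 D T h) (mem_cons (W3096 D T h) (mem_cons (W3021 D T h) (mem_cons (W3097 D T h) (mem_cons (W3098 D T h) (mem_cons (W3099 D T h) mem_nil)))))))))))))))))))))) cl706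
theorem W3100 : WFK w3100 := fun D T h => wf_of_chk h mem_nil (mem_cons (L706 D T h) mem_nil) cw3100
theorem W3101 : WFK w3101 := fun D T h => wf_of_chk h mem_nil (mem_cons (L698 D T h) mem_nil) cw3101
theorem W3102 : WFK w3102 := fun D T h => wf_of_chk h (mem_cons (W16 D T h) (mem_cons (W3042 D T h) mem_nil)) mem_nil cw3102
theorem W3103 : WFK w3103 := fun D T h => wf_of_chk h mem_nil (mem_cons (L685 D T h) mem_nil) cw3103
theorem W3104 : WFK w3104 := fun D T h => wf_of_chk h mem_nil (mem_cons (L685 D T h) mem_nil) cw3104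
theorem W3105 : WFK w3105 := fun D T h => wf_of_chk h mem_nil (mem_cons (L249 D T h) mem_nil) cw3105
theorem W3106 : WFK w3106 := fun D T h => wf_of_chk h mem_nil (mem_cons (L478 D T h) mem_nil) cw3106
theorem L707 : LFK l707 := fun D T h => lf_of_chk h (mem_cons (W1919 D T h) (mem_cons (W192 D T h) (mem_cons (W3106 D T h) (mem_cons (W1459 D T h) (mem_cons (W412 D T h) (mem_cons (W218 D T h) (mem_cons (W239 D T h) (mem_cons (W141 D T h) (mem_cons (W140 D T h) (mem_cons (W3079 D T h) (mem_cons (W1830 D T h) mem_nil))))))))))) cl707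
theorem W3107 : WFK w3107 := fun D T h => wf_of_chk h mem_nil (mem_cons (L707 D T h) mem_nil) cw3107
theorem W3108 : WFK w3108 := fun D T h => wf_of_chk h mem_nil (mem_cons (L478 D T h) mem_nil) cw3108
theorem L708 : LFK l708 := fun D T h => lf_of_chk h (mem_cons (W1919 D T h) (mem_cons (W1101 D T h) (mem_cons (W3108 D T h) (mem_cons (W1459 D T h) (mem_cons (W412 D T h) (mem_cons (W218 D T h) (mem_cons (W239 D T h) (mem_cons (W141 D T h) (mem_cons (W140 D T h) (mem_cons (W3079 D T h) (mem_cons (W1830 D T h) mem_nil))))))))))) cl708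
theorem W3109 : WFK w3109 := fun D T h => wf_of_chk h mem_nil (mem_cons (L708 D T h) mem_nil) cw3109
theorem W3110 : WFK w3110 := fun D T h => wf_of_chk h mem_nil mem_nil cw3110
theorem W3111 : WFK w3111 := fun D T h => wf_of_chk h mem_nil mem_nil cw3111
theorem W3112 : WFK w3112 := fun D T h => wf_of_chk h mem_nil mem_nil cw3112
theorem L709 : LFK l709 := fun D T h => lf_of_chk h (mem_cons (W7 D T h) (mem_cons (W16 D T h) (mem_cons (W18 D T h) (mem_cons (W1101 D T h) (mem_cons (W233 D T h) (mem_cons (W21 D T h) (mem_cons (W359 D T h) (mem_cons (W3107 D T h) (mem_cons (W3109 D T h) (mem_cons (W3110 D T h) (mem_cons (W1091 D T h) (mem_cons (W3111 D T h) (mem_cons (W3112 D T h) mem_nil))))))))))))) cl709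
theorem W3113 : WFK w3113 := fun D T h => wf_of_chk h mem_nil (mem_cons (L709 D T h) mem_nil) cw3113
theorem W3114 : WFK w3114 := fun D T h => wf_of_chk h mem_nil (mem_cons (L478 D T h) mem_nil) cw3114
theorem L710 : LFK l710 := fun D T h => lf_of_chk h (mem_cons (W1919 D T h) (mem_cons (W18 D T h) (mem_cons (W3114 D T h) (mem_cons (W3081 D T h) (mem_cons (W235 D T h) (mem_cons (W1101 D T h) (mem_cons (W239 D T h) (mem_cons (W141 D T h) (mem_cons (W140 D T h) (mem_cons (W3079 D T h) (mem_cons (W1830 D T h) mem_nil))))))))))) cl710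
theorem W3115 : WFK w3115 := fun D T h => wf_of_chk h mem_nil (mem_cons (L710 D T h) mem_nil) cw3115
theorem W3116 : WFK w3116 := fun D T h => wf_of_chk h mem_nil (mem_cons (L478 D T h) mem_nil) cw3116
theorem L711 : LFK l711 := fun D T h => lf_of_chk h (mem_cons (W1919 D T h) (mem_cons (W193 D T h) (mem_cons (W3116 D T h) (mem_cons (W3081 D T h) (mem_cons (W235 D T h) (mem_cons (W1101 D T h) (mem_cons (W239 D T h) (mem_cons (W141 D T h) (mem_cons (W140 D T h) (mem_cons (W3079 D T h) (mem_cons (W1830 D T h) mem_nil))))))))))) cl711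
theorem W3117 : WFK w3117 := fun D T h => wf_of_chk h mem_nil (mem_cons (L711 D T h) mem_nil) cw3117
theorem L712 : LFK l712 := fun D T h => lf_of_chk h (mem_cons (W7 D T h) (mem_cons (W16 D T h) (mem_cons (W192 D T h) (mem_cons (W6 D T h) (mem_cons (W812 D T h) (mem_cons (W21 D T h) (mem_cons (W359 D T h) (mem_cons (W3115 D T h) (mem_cons (W3117 D T h) (mem_cons (W3110 D T h) (mem_cons (W3112 D T h) (mem_cons (W3111 D T h) (mem_cons (W1091 D T h) mem_nil))))))))))))) cl712
theorem W3118 : WFK w3118 := fun D T h => wf_of_chk h mem_nil (mem_cons (L712 D T h) mem_nil) cw3118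
theorem L713 : LFK l713 := fun D T h => lf_of_chk h (mem_cons (W3031 D T h) (mem_cons (W16 D T h) (mem_cons (W802 D T h) (mem_cons (W1101 D T h) (mem_cons (W33 D T h) (mem_cons (W158 D T h) (mem_cons (W1928 D T h) (mem_cons (W359 D T h) (mem_cons (W831 D T h) (mem_cons (W3113 D T h) (mem_cons (W3118 D T h) mem_nil))))))))))) cl713
theorem W3119 : WFK w3119 := fun D T h => wf_of_chk h mem_nil (mem_cons (L713 D T h) mem_nil) cw3119
theorem W3120 : WFK w3120 := fun D T h => wf_of_chk h mem_nil (mem_cons (L278 D T h) mem_nil) cw3120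
theorem W3121 : WFK w3121 := fun D T h => wf_of_chk h mem_nil (mem_cons (L89 D T h) mem_nil) cw3121
theorem L714 : LFK l714 := fun D T h => lf_of_chk h (mem_cons (W432 D T h) (mem_cons (W1932 D T h) (mem_cons (W158 D T h) (mem_cons (W33 D T h) (mem_cons (W3024 D T h) (mem_cons (W1120 D T h) (mem_cons (W150 D T h) (mem_cons (W3121 D T h) mem_nil)))))))) cl714
theorem W3122 : WFK w3122 := fun D T h => wf_of_chk h mem_nil (mem_cons (L714 D T h) mem_nil) cw3122
theorem L715 : LFK l715 := fun D T h => lf_of_chk h (mem_cons (W1401 D T h) (mem_cons (W210 D T h) (mem_cons (W802 D T h) (mem_cons (W915 D T h) (mem_cons (W158 D T h) (mem_cons (W432 D T h) (mem_cons (W1120 D T h) (mem_cons (W377 D T h) (mem_cons (W913 D T h) mem_nil))))))))) cl715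
theorem W3123 : WFK w3123 := fun D T h => wf_of_chk h mem_nil (mem_cons (L715 D T h) mem_nil) cw3123
theorem L716 : LFK l716 := fun D T h => lf_of_chk h (mem_cons (W3007 D T h) (mem_cons (W16 D T h) (mem_cons (W721 D T h) (mem_cons (W3120 D T h) (mem_cons (W3122 D T h) (mem_cons (W2478 D T h) (mem_cons (W3009 D T h) (mem_cons (W3023 D T h) (mem_cons (W549 D T h) (mem_cons (W3032 D T h) (mem_cons (W3002 D T h) (mem_cons (W261 D T h) (mem_cons (W3103 D T h) (mem_cons (W3104 D T h) (mem_cons (W3119 D T h) (mem_cons (W3123 D T h) (mem_cons (W3022 D T h) (mem_cons (W3010 D T h) mem_nil)))))))))))))))))) cl716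
theorem W3124 : WFK w3124 := fun D T h => wf_of_chk h mem_nil (mem_cons (L716 D T h) mem_nil) cw3124
theorem L717 : LFK l717 := fun D T h => lf_of_chk h (mem_cons (W3012 D T h) (mem_cons (W16 D T h) (mem_cons (W3013 D T h) (mem_cons (W3014 D T h) (mem_cons (W3015 D T h) (mem_cons (W3036 D T h) (mem_cons (W2015 D T h) (mem_cons (W2037 D T h) (mem_cons (W2709 D T h) (mem_cons (W3039 D T h) (mem_cons (W3041 D T h) (mem_cons (W3018 D T h) (mem_cons (W3017 D T h) (mem_cons (W251 D T h) (mem_cons (W3028 D T h) (mem_cons (W3029 D T h) (mem_cons (W128 D T h) (mem_cons (W3030 D T h) (mem_cons (W3033 D T h) (mem_cons (W799 D T h) (mem_cons (W3034 D T h) (mem_cons (W3042 D T h) (mem_cons (W3043 D T h) (mem_cons (W3075 D T h) (mem_cons (W3100 D T h) (mem_cons (W3101 D T h) (mem_cons (W3102 D T h) (mem_cons (W3124 D T h) (mem_cons (W3071 D T h) (mem_cons (W2380 D T h) (mem_cons (W3072 D T h) (mem_cons (W3073 D T h) (mem_cons (W3074 D T h) mem_nil))))))))))))))))))))))))))))))))) cl717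
theorem W3125 : WFK w3125 := fun D T h => wf_of_chk h mem_nil (mem_cons (L717 D T h) mem_nil) cw3125
theorem W3126 : WFK w3126 := fun D T h => wf_of_chk h (mem_cons (W37 D T h) (mem_cons (W1065 D T h) mem_nil)) mem_nil cw3126
theorem L718 : LFK l718 := fun D T h => lf_of_chk h (mem_cons (W618 D T h) (mem_cons (W17 D T h) (mem_cons (W1408 D T h) (mem_cons (W16 D T h) (mem_cons (W1 D T h) (mem_cons (W69 D T h) (mem_cons (W2309 D T h) (mem_cons (W2118 D T h) (mem_cons (W2119 D T h) (mem_cons (W3 D T h) (mem_cons (W2303 D T h) (mem_cons (W2304 D T h) (mem_cons (W1449 D T h) mem_nil))))))))))))) cl718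
theorem W3127 : WFK w3127 := fun D T h => wf_of_chk h mem_nil (mem_cons (L718 D T h) mem_nil) cw3127
theorem W3128 : WFK w3128 := fun D T h => wf_of_chk h (mem_cons (W16 D T h) (mem_cons (W368 D T h) mem_nil)) mem_nil cw3128
theorem W3129 : WFK w3129 := fun D T h => wf_of_chk h mem_nil (mem_cons (L294 D T h) mem_nil) cw3129
theorem W3130 : WFK w3130 := fun D T h => wf_of_chk h (mem_cons (W50 D T h) (mem_cons (W368 D T h) mem_nil)) mem_nil cw3130
theorem L719 : LFK l719 := fun D T h => lf_of_chk h (mem_cons (W2433 D T h) mem_nil) cl719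
theorem W3131 : WFK w3131 := fun D T h => wf_of_chk h mem_nil (mem_cons (L719 D T h) mem_nil) cw3131
theorem W3132 : WFK w3132 := fun D T h => wf_of_chk h mem_nil (mem_cons (L116 D T h) mem_nil) cw3132
theorem W3133 : WFK w3133 := fun D T h => wf_of_chk h (mem_cons (W726 D T h) (mem_cons (W368 D T h) mem_nil)) mem_nil cw3133
theorem W3134 : WFK w3134 := fun D T h => wf_of_chk h mem_nil (mem_cons (L181 D T h) mem_nil) cw3134
theorem W3135 : WFK w3135 := fun D T h => wf_of_chk h mem_nil (mem_cons (L181 D T h) mem_nil) cw3135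
theorem L720 : LFK l720 := fun D T h => lf_of_chk h (mem_cons (W2772 D T h) (mem_cons (W187 D T h) (mem_cons (W12 D T h) (mem_cons (W53 D T h) (mem_cons (W377 D T h) (mem_cons (W4 D T h) (mem_cons (W2047 D T h) (mem_cons (W3134 D T h) (mem_cons (W842 D T h) (mem_cons (W3135 D T h) (mem_cons (W696 D T h) mem_nil))))))))))) cl720
theorem W3136 : WFK w3136 := fun D T h => wf_of_chk h mem_nil (mem_cons (L720 D T h) mem_nil) cw3136
theorem W3137 : WFK w3137 := fun D T h => wf_of_chk h mem_nil (mem_cons (L1 D T h) mem_nil) cw3137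
theorem L721 : LFK l721 := fun D T h => lf_of_chk h (mem_cons (W1554 D T h) (mem_cons (W432 D T h) (mem_cons (W1 D T h) (mem_cons (W11 D T h) (mem_cons (W141 D T h) (mem_cons (W500 D T h) (mem_cons (W3121 D T h) (mem_cons (W3137 D T h) (mem_cons (W1960 D T h) (mem_cons (W2922 D T h) (mem_cons (W256 D T h) (mem_cons (W2648 D T h) (mem_cons (W1489 D T h) (mem_cons (W746 D T h) mem_nil)))))))))))))) cl721
theorem W3138 : WFK w3138 := fun D T h => wf_of_chk h mem_nil (mem_cons (L721 D T h) mem_nil) cw3138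
theorem W3139 : WFK w3139 := fun D T h => wf_of_chk h mem_nil (mem_cons (L497 D T h) mem_nil) cw3139
theorem W3140 : WFK w3140 := fun D T h => wf_of_chk h (mem_cons (W1125 D T h) (mem_cons (W177 D T h) mem_nil)) mem_nil cw3140
theorem L722 : LFK l722 := fun D T h => lf_of_chk h (mem_cons (W831 D T h) (mem_cons (W1033 D T h) mem_nil)) cl722
theorem W3141 : WFK w3141 := fun D T h => wf_of_chk h mem_nil (mem_cons (L722 D T h) mem_nil) cw3141
theorem L723 : LFK l723 := fun D T h => lf_of_chk h (mem_cons (W281 D T h) (mem_cons (W67 D T h) (mem_cons (W26 D T h) (mem_cons (W27 D T h) (mem_cons (W2766 D T h) mem_nil))))) cl723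
theorem W3142 : WFK w3142 := fun D T h => wf_of_chk h mem_nil (mem_cons (L723 D T h) mem_nil) cw3142
theorem L724 : LFK l724 := fun D T h => lf_of_chk h (mem_cons (W716 D T h) (mem_cons (W1616 D T h) (mem_cons (W175 D T h) (mem_cons (W3 D T h) (mem_cons (W39 D T h) (mem_cons (W1172 D T h) (mem_cons (W851 D T h) (mem_cons (W3141 D T h) (mem_cons (W2772 D T h) (mem_cons (W1554 D T h) (mem_cons (W1325 D T h) (mem_cons (W765 D T h) (mem_cons (W766 D T h) (mem_cons (W3142 D T h) (mem_cons (W2359 D T h) (mem_cons (W152 D T h) (mem_cons (W871 D T h) (mem_cons (W2353 D T h) (mem_cons (W722 D T h) mem_nil))))))))))))))))))) cl724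
theorem W3143 : WFK w3143 := fun D T h => wf_of_chk h mem_nil (mem_cons (L724 D T h) mem_nil) cw3143
theorem W3144 : WFK w3144 := fun D T h => wf_of_chk h (mem_cons (W368 D T h) mem_nil) mem_nil cw3144
theorem W3145 : WFK w3145 := fun D T h => wf_of_chk h mem_nil (mem_cons (L538 D T h) mem_nil) cw3145
theorem W3146 : WFK w3146 := fun D T h => wf_of_chk h mem_nil (mem_cons (L538 D T h) mem_nil) cw3146
theorem W3147 : WFK w3147 := fun D T h => wf_of_chk h mem_nil mem_nil cw3147
theorem W3148 : WFK w3148 := fun D T h => wf_of_chk h mem_nil (mem_cons (L703 D T h) mem_nil) cw3148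
theorem L725 : LFK l725 := fun D T h => lf_of_chk h (mem_cons (W2359 D T h) (mem_cons (W1616 D T h) (mem_cons (W368 D T h) (mem_cons (W3 D T h) (mem_cons (W750 D T h) (mem_cons (W3147 D T h) (mem_cons (W742 D T h) (mem_cons (W2357 D T h) (mem_cons (W281 D T h) (mem_cons (W3144 D T h) (mem_cons (W2772 D T h) (mem_cons (W256 D T h) (mem_cons (W258 D T h) (mem_cons (W3145 D T h) (mem_cons (W3146 D T h) (mem_cons (W3142 D T h) (mem_cons (W3148 D T h) (mem_cons (W390 D T h) mem_nil)))))))))))))))))) cl725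
theorem W3149 : WFK w3149 := fun D T h => wf_of_chk h mem_nil (mem_cons (L725 D T h) mem_nil) cw3149
theorem W3150 : WFK w3150 := fun D T h => wf_of_chk h (mem_cons (W368 D T h) mem_nil) mem_nil cw3150
theorem W3151 : WFK w3151 := fun D T h => wf_of_chk h mem_nil (mem_cons (L534 D T h) mem_nil) cw3151
theorem W3152 : WFK w3152 := fun D T h => wf_of_chk h mem_nil (mem_cons (L534 D T h) mem_nil) cw3152
theorem W3153 : WFK w3153 := fun D T h => wf_of_chk h mem_nil (mem_cons (L29 D T h) mem_nil) cw3153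
theorem W3154 : WFK w3154 := fun D T h => wf_of_chk h mem_nil (mem_cons (L29 D T h) mem_nil) cw3154
theorem L726 : LFK l726 := fun D T h => lf_of_chk h (mem_cons (W2353 D T h) (mem_cons (W1616 D T h) (mem_cons (W370 D T h) (mem_cons (W3 D T h) (mem_cons (W750 D T h) (mem_cons (W3147 D T h) (mem_cons (W742 D T h) (mem_cons (W2351 D T h) (mem_cons (W3150 D T h) (mem_cons (W2772 D T h) (mem_cons (W746 D T h) (mem_cons (W1272 D T h) (mem_cons (W3151 D T h) (mem_cons (W3152 D T h) (mem_cons (W3142 D T h) (mem_cons (W3148 D T h) (mem_cons (W281 D T h) (mem_cons (W761 D T h) (mem_cons (W3153 D T h) (mem_cons (W3154 D T h) mem_nil)))))))))))))))))))) cl726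
theorem W3155 : WFK w3155 := fun D T h => wf_of_chk h mem_nil (mem_cons (L726 D T h) mem_nil) cw3155
theorem W3156 : WFK w3156 := fun D T h => wf_of_chk h mem_nil (mem_cons (L571 D T h) mem_nil) cw3156
theorem W3157 : WFK w3157 := fun D T h => wf_of_chk h mem_nil (mem_cons (L276 D T h) mem_nil) cw3157
theorem W3158 : WFK w3158 := fun D T h => wf_of_chk h mem_nil (mem_cons (L276 D T h) mem_nil) cw3158
theorem L727 : LFK l727 := fun D T h => lf_of_chk h (mem_cons (W2309 D T h) (mem_cons (W17 D T h) (mem_cons (W3157 D T h) (mem_cons (W3158 D T h) (mem_cons (W946 D T h) (mem_cons (W1 D T h) (mem_cons (W69 D T h) (mem_cons (W2118 D T h) (mem_cons (W2119 D T h) (mem_cons (W281 D T h) (mem_cons (W3 D T h) (mem_cons (W2303 D T h) (mem_cons (W2304 D T h) (mem_cons (W2107 D T h) (mem_cons (W2305 D T h) mem_nil))))))))))))))) cl727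
theorem W3159 : WFK w3159 := fun D T h => wf_of_chk h mem_nil (mem_cons (L727 D T h) mem_nil) cw3159
theorem W3160 : WFK w3160 := fun D T h => wf_of_chk h mem_nil (mem_cons (L280 D T h) mem_nil) cw3160
theorem W3161 : WFK w3161 := fun D T h => wf_of_chk h mem_nil (mem_cons (L280 D T h) mem_nil) cw3161
theorem L728 : LFK l728 := fun D T h => lf_of_chk h (mem_cons (W2309 D T h) (mem_cons (W17 D T h) (mem_cons (W3160 D T h) (mem_cons (W3161 D T h) (mem_cons (W1226 D T h) (mem_cons (W1 D T h) (mem_cons (W69 D T h) (mem_cons (W2118 D T h) (mem_cons (W2119 D T h) (mem_cons (W281 D T h) (mem_cons (W3 D T h) (mem_cons (W2303 D T h) (mem_cons (W2304 D T h) (mem_cons (W2107 D T h) (mem_cons (W2305 D T h) mem_nil))))))))))))))) cl728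
theorem W3162 : WFK w3162 := fun D T h => wf_of_chk h mem_nil (mem_cons (L728 D T h) mem_nil) cw3162
theorem W3163 : WFK w3163 := fun D T h => wf_of_chk h mem_nil (mem_cons (L280 D T h) mem_nil) cw3163
theorem W3164 : WFK w3164 := fun D T h => wf_of_chk h mem_nil (mem_cons (L280 D T h) mem_nil) cw3164
theorem L729 : LFK l729 := fun D T h => lf_of_chk h (mem_cons (W2309 D T h) (mem_cons (W17 D T h) (mem_cons (W3163 D T h) (mem_cons (W3164 D T h) (mem_cons (W1227 D T h) (mem_cons (W1 D T h) (mem_cons (W69 D T h) (mem_cons (W2118 D T h) (mem_cons (W2119 D T h) (mem_cons (W281 D T h) (mem_cons (W3 D T h) (mem_cons (W2303 D T h) (mem_cons (W2304 D T h) (mem_cons (W2107 D T h) (mem_cons (W2305 D T h) mem_nil))))))))))))))) cl729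
theorem W3165 : WFK w3165 := fun D T h => wf_of_chk h mem_nil (mem_cons (L729 D T h) mem_nil) cw3165
theorem W3166 : WFK w3166 := fun D T h => wf_of_chk h mem_nil (mem_cons (L159 D T h) mem_nil) cw3166
theorem W3167 : WFK w3167 := fun D T h => wf_of_chk h mem_nil (mem_cons (L159 D T h) mem_nil) cw3167
theorem L730 : LFK l730 := fun D T h => lf_of_chk h (mem_cons (W2309 D T h) (mem_cons (W17 D T h) (mem_cons (W3166 D T h) (mem_cons (W3167 D T h) (mem_cons (W50 D T h) (mem_cons (W1 D T h) (mem_cons (W69 D T h) (mem_cons (W2118 D T h) (mem_cons (W2119 D T h) (mem_cons (W281 D T h) (mem_cons (W3 D T h) (mem_cons (W2303 D T h) (mem_cons (W2304 D T h) (mem_cons (W2107 D T h) (mem_cons (W2305 D T h) mem_nil))))))))))))))) cl730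
theorem W3168 : WFK w3168 := fun D T h => wf_of_chk h mem_nil (mem_cons (L730 D T h) mem_nil) cw3168
theorem W3169 : WFK w3169 := fun D T h => wf_of_chk h mem_nil (mem_cons (L159 D T h) mem_nil) cw3169
theorem W3170 : WFK w3170 := fun D T h => wf_of_chk h (mem_cons (W16 D T h) (mem_cons (W3132 D T h) mem_nil)) mem_nil cw3170
theorem W3171 : WFK w3171 := fun D T h => wf_of_chk h (mem_cons (W16 D T h) (mem_cons (W3132 D T h) mem_nil)) mem_nil cw3171
theorem W3172 : WFK w3172 := fun D T h => wf_of_chk h mem_nil (mem_cons (L520 D T h) mem_nil) cw3172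
theorem W3173 : WFK w3173 := fun D T h => wf_of_chk h (mem_cons (W50 D T h) mem_nil) mem_nil cw3173
theorem W3174 : WFK w3174 := fun D T h => wf_of_chk h mem_nil (mem_cons (L294 D T h) mem_nil) cw3174
theorem W3175 : WFK w3175 := fun D T h => wf_of_chk h mem_nil (mem_cons (L294 D T h) mem_nil) cw3175
theorem W3176 : WFK w3176 := fun D T h => wf_of_chk h mem_nil (mem_cons (L294 D T h) mem_nil) cw3176
theorem W3177 : WFK w3177 := fun D T h => wf_of_chk h mem_nil (mem_cons (L294 D T h) mem_nil) cw3177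
theorem W3178 : WFK w3178 := fun D T h => wf_of_chk h (mem_cons (W177 D T h) mem_nil) mem_nil cw3178
theorem W3179 : WFK w3179 := fun D T h => wf_of_chk h mem_nil (mem_cons (L159 D T h) mem_nil) cw3179
theorem W3180 : WFK w3180 := fun D T h => wf_of_chk h mem_nil (mem_cons (L278 D T h) mem_nil) cw3180
theorem W3181 : WFK w3181 := fun D T h => wf_of_chk h mem_nil (mem_cons (L481 D T h) mem_nil) cw3181
theorem W3182 : WFK w3182 := fun D T h => wf_of_chk h mem_nil (mem_cons (L134 D T h) mem_nil) cw3182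
theorem L731 : LFK l731 := fun D T h => lf_of_chk h (mem_cons (W201 D T h) (mem_cons (W281 D T h) (mem_cons (W112 D T h) (mem_cons (W1000 D T h) (mem_cons (W999 D T h) (mem_cons (W86 D T h) (mem_cons (W3 D T h) (mem_cons (W2088 D T h) (mem_cons (W1825 D T h) (mem_cons (W1797 D T h) (mem_cons (W2085 D T h) mem_nil))))))))))) cl731
theorem W3183 : WFK w3183 := fun D T h => wf_of_chk h mem_nil (mem_cons (L731 D T h) mem_nil) cw3183
theorem W3184 : WFK w3184 := fun D T h => wf_of_chk h mem_nil (mem_cons (L143 D T h) mem_nil) cw3184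
theorem W3185 : WFK w3185 := fun D T h => wf_of_chk h mem_nil (mem_cons (L116 D T h) mem_nil) cw3185
theorem L732 : LFK l732 := fun D T h => lf_of_chk h (mem_cons (W1640 D T h) (mem_cons (W17 D T h) (mem_cons (W3178 D T h) (mem_cons (W764 D T h) (mem_cons (W3179 D T h) (mem_cons (W50 D T h) (mem_cons (W1 D T h) (mem_cons (W177 D T h) (mem_cons (W69 D T h) (mem_cons (W659 D T h) (mem_cons (W3184 D T h) (mem_cons (W2268 D T h) (mem_cons (W209 D T h) (mem_cons (W2930 D T h) (mem_cons (W3185 D T h) (mem_cons (W42 D T h) (mem_cons (W489 D T h) (mem_cons (W1746 D T h) (mem_cons (W39 D T h) (mem_cons (W86 D T h) (mem_cons (W3180 D T h) (mem_cons (W2158 D T h) (mem_cons (W3181 D T h) (mem_cons (W3182 D T h) (mem_cons (W3183 D T h) mem_nil))))))))))))))))))))))))) cl732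
theorem W3186 : WFK w3186 := fun D T h => wf_of_chk h mem_nil (mem_cons (L732 D T h) mem_nil) cw3186
theorem W3187 : WFK w3187 := fun D T h => wf_of_chk h mem_nil (mem_cons (L732 D T h) mem_nil) cw3187
theorem L733 : LFK l733 := fun D T h => lf_of_chk h (mem_cons (W3129 D T h) (mem_cons (W177 D T h) (mem_cons (W368 D T h) (mem_cons (W50 D T h) (mem_cons (W1275 D T h) (mem_cons (W1276 D T h) (mem_cons (W3173 D T h) (mem_cons (W772 D T h) (mem_cons (W3174 D T h) (mem_cons (W3175 D T h) (mem_cons (W3176 D T h) (mem_cons (W3177 D T h) (mem_cons (W618 D T h) (mem_cons (W3169 D T h) (mem_cons (W1640 D T h) (mem_cons (W3186 D T h) (mem_cons (W34 D T h) (mem_cons (W3187 D T h) (mem_cons (W3143 D T h) (mem_cons (W3133 D T h) (mem_cons (W3136 D T h) (mem_cons (W716 D T h) (mem_cons (W3138 D T h) (mem_cons (W2159 D T h) (mem_cons (W3139 D T h) (mem_cons (W3140 D T h) (mem_cons (W3131 D T h) (mem_cons (W3132 D T h) (mem_cons (W3149 D T h) (mem_cons (W1408 D T h) (mem_cons (W3170 D T h) (mem_cons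 (W3171 D T h) (mem_cons (W3172 D T h) (mem_cons (W2165 D T h) (mem_cons (W1502 D T h) (mem_cons (W3155 D T h) (mem_cons (W2520 D T h) (mem_cons (W1528 D T h) (mem_cons (W3156 D T h) (mem_cons (W3159 D T h) (mem_cons (W3162 D T h) (mem_cons (W3165 D T h) (mem_cons (W3168 D T h) mem_nil))))))))))))))))))))))))))))))))))))))))))) cl733
theorem W3188 : WFK w3188 := fun D T h => wf_of_chk h mem_nil (mem_cons (L733 D T h) mem_nil) cw3188
theorem W3190 : WFK w3190 := fun D T h => wf_of_chk h mem_nil (mem_cons (L733 D T h) mem_nil) cw3190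
theorem W3191 : WFK w3191 := fun D T h => wf_of_chk h mem_nil (mem_cons (L733 D T h) mem_nil) cw3191
theorem W3192 : WFK w3192 := fun D T h => wf_of_chk h (mem_cons (W1109 D T h) (mem_cons (W37 D T h) mem_nil)) mem_nil cw3192
theorem W3193 : WFK w3193 := fun D T h => wf_of_chk h mem_nil (mem_cons (L268 D T h) mem_nil) cw3193
theorem W3194 : WFK w3194 := fun D T h => wf_of_chk h mem_nil (mem_cons (L715 D T h) mem_nil) cw3194
theorem W3195 : WFK w3195 := fun D T h => wf_of_chk h mem_nil (mem_cons (L222 D T h) mem_nil) cw3195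
theorem L734 : LFK l734 := fun D T h => lf_of_chk h (mem_cons (W261 D T h) (mem_cons (W15 D T h) (mem_cons (W219 D T h) (mem_cons (W746 D T h) (mem_cons (W170 D T h) (mem_cons (W432 D T h) (mem_cons (W2785 D T h) (mem_cons (W1554 D T h) (mem_cons (W3193 D T h) (mem_cons (W1348 D T h) (mem_cons (W2631 D T h) (mem_cons (W3194 D T h) (mem_cons (W3195 D T h) mem_nil))))))))))))) cl734
theorem W3196 : WFK w3196 := fun D T h => wf_of_chk h mem_nil (mem_cons (L734 D T h) mem_nil) cw3196
theorem W3197 : WFK w3197 := fun D T h => wf_of_chk h (mem_cons (W1125 D T h) (mem_cons (W37 D T h) mem_nil)) mem_nil cw3197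
theorem W3198 : WFK w3198 := fun D T h => wf_of_chk h (mem_cons (W2027 D T h) (mem_cons (W368 D T h) mem_nil)) mem_nil cw3198
theorem L735 : LFK l735 := fun D T h => lf_of_chk h (mem_cons (W1110 D T h) (mem_cons (W281 D T h) (mem_cons (W808 D T h) (mem_cons (W908 D T h) (mem_cons (W576 D T h) (mem_cons (W1105 D T h) (mem_cons (W1951 D T h) (mem_cons (W10 D T h) (mem_cons (W604 D T h) (mem_cons (W603 D T h) mem_nil)))))))))) cl735
theorem W3199 : WFK w3199 := fun D T h => wf_of_chk h mem_nil (mem_cons (L735 D T h) mem_nil) cw3199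
theorem W3200 : WFK w3200 := fun D T h => wf_of_chk h (mem_cons (W3199 D T h) (mem_cons (W37 D T h) mem_nil)) mem_nil cw3200
theorem W3201 : WFK w3201 := fun D T h => wf_of_chk h (mem_cons (W284 D T h) (mem_cons (W368 D T h) mem_nil)) mem_nil cw3201
theorem W3202 : WFK w3202 := fun D T h => wf_of_chk h mem_nil (mem_cons (L381 D T h) mem_nil) cw3202
theorem L736 : LFK l736 := fun D T h => lf_of_chk h (mem_cons (W602 D T h) (mem_cons (W808 D T h) (mem_cons (W1 D T h) (mem_cons (W25 D T h) (mem_cons (W685 D T h) (mem_cons (W604 D T h) (mem_cons (W603 D T h) (mem_cons (W1947 D T h) (mem_cons (W889 D T h) (mem_cons (W1114 D T h) mem_nil)))))))))) cl736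
theorem W3203 : WFK w3203 := fun D T h => wf_of_chk h mem_nil (mem_cons (L736 D T h) mem_nil) cw3203
theorem L737 : LFK l737 := fun D T h => lf_of_chk h mem_nil cl737
theorem W3204 : WFK w3204 := fun D T h => wf_of_chk h mem_nil (mem_cons (L737 D T h) mem_nil) cw3204
theorem L738 : LFK l738 := fun D T h => lf_of_chk h mem_nil cl738
theorem W3205 : WFK w3205 := fun D T h => wf_of_chk h mem_nil (mem_cons (L738 D T h) mem_nil) cw3205
theorem L739 : LFK l739 := fun D T h => lf_of_chk h (mem_cons (W38 D T h) (mem_cons (W461 D T h) (mem_cons (W32 D T h) (mem_cons (W3 D T h) (mem_cons (W39 D T h) (mem_cons (W3204 D T h) (mem_cons (W281 D T h) (mem_cons (W3205 D T h) (mem_cons (W3203 D T h) (mem_cons (W852 D T h) (mem_cons (W44 D T h) (mem_cons (W46 D T h) (mem_cons (W47 D T h) (mem_cons (W2007 D T h) mem_nil)))))))))))))) cl739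
theorem W3206 : WFK w3206 := fun D T h => wf_of_chk h mem_nil (mem_cons (L739 D T h) mem_nil) cw3206
theorem W3207 : WFK w3207 := fun D T h => wf_of_chk h mem_nil (mem_cons (L542 D T h) mem_nil) cw3207
theorem L740 : LFK l740 := fun D T h => lf_of_chk h (mem_cons (W815 D T h) (mem_cons (W38 D T h) (mem_cons (W109 D T h) (mem_cons (W3 D T h) (mem_cons (W39 D T h) (mem_cons (W1027 D T h) (mem_cons (W281 D T h) (mem_cons (W1994 D T h) (mem_cons (W227 D T h) (mem_cons (W852 D T h) (mem_cons (W1529 D T h) (mem_cons (W172 D T h) (mem_cons (W1530 D T h) (mem_cons (W976 D T h) mem_nil)))))))))))))) cl740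
theorem W3208 : WFK w3208 := fun D T h => wf_of_chk h mem_nil (mem_cons (L740 D T h) mem_nil) cw3208
theorem L741 : LFK l741 := fun D T h => lf_of_chk h (mem_cons (W2766 D T h) (mem_cons (W47 D T h) (mem_cons (W1530 D T h) (mem_cons (W125 D T h) (mem_cons (W227 D T h) (mem_cons (W1101 D T h) mem_nil)))))) cl741
theorem W3209 : WFK w3209 := fun D T h => wf_of_chk h mem_nil (mem_cons (L741 D T h) mem_nil) cw3209
theorem W3210 : WFK w3210 := fun D T h => wf_of_chk h mem_nil (mem_cons (L585 D T h) mem_nil) cw3210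
theorem L742 : LFK l742 := fun D T h => lf_of_chk h (mem_cons (W2766 D T h) (mem_cons (W3204 D T h) (mem_cons (W1613 D T h) (mem_cons (W4 D T h) (mem_cons (W1444 D T h) (mem_cons (W33 D T h) (mem_cons (W1027 D T h) (mem_cons (W109 D T h) (mem_cons (W831 D T h) (mem_cons (W1101 D T h) mem_nil)))))))))) cl742
theorem W3211 : WFK w3211 := fun D T h => wf_of_chk h mem_nil (mem_cons (L742 D T h) mem_nil) cw3211
theorem W3212 : WFK w3212 := fun D T h => wf_of_chk h mem_nil (mem_cons (L143 D T h) mem_nil) cw3212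
theorem L743 : LFK l743 := fun D T h => lf_of_chk h (mem_cons (W726 D T h) (mem_cons (W462 D T h) (mem_cons (W3206 D T h) (mem_cons (W3207 D T h) (mem_cons (W1028 D T h) (mem_cons (W3016 D T h) (mem_cons (W69 D T h) (mem_cons (W3208 D T h) (mem_cons (W1063 D T h) (mem_cons (W126 D T h) (mem_cons (W1 D T h) (mem_cons (W618 D T h) (mem_cons (W1640 D T h) (mem_cons (W2309 D T h) (mem_cons (W3211 D T h) (mem_cons (W3212 D T h) (mem_cons (W111 D T h) (mem_cons (W1636 D T h) (mem_cons (W1473 D T h) (mem_cons (W762 D T h) (mem_cons (W2832 D T h) (mem_cons (W2575 D T h) (mem_cons (W3209 D T h) (mem_cons (W3210 D T h) mem_nil)))))))))))))))))))))))) cl743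
theorem W3213 : WFK w3213 := fun D T h => wf_of_chk h mem_nil (mem_cons (L743 D T h) mem_nil) cw3213
theorem W3214 : WFK w3214 := fun D T h => wf_of_chk h (mem_cons (W682 D T h) (mem_cons (W368 D T h) mem_nil)) mem_nil cw3214
theorem W3215 : WFK w3215 := fun D T h => wf_of_chk h (mem_cons (W126 D T h) (mem_cons (W3127 D T h) mem_nil)) mem_nil cw3215
theorem W3216 : WFK w3216 := fun D T h => wf_of_chk h (mem_cons (W1065 D T h) (mem_cons (W3128 D T h) mem_nil)) mem_nil cw3216
theorem W3217 : WFK w3217 := fun D T h => wf_of_chk h (mem_cons (W901 D T h) (mem_cons (W3127 D T h) mem_nil)) mem_nil cw3217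
theorem W3218 : WFK w3218 := fun D T h => wf_of_chk h (mem_cons (W1063 D T h) (mem_cons (W3128 D T h) mem_nil)) mem_nil cw3218
theorem W3219 : WFK w3219 := fun D T h => wf_of_chk h (mem_cons (W799 D T h) (mem_cons (W368 D T h) mem_nil)) mem_nil cw3219
theorem W3220 : WFK w3220 := fun D T h => wf_of_chk h (mem_cons (W799 D T h) (mem_cons (W3128 D T h) mem_nil)) mem_nil cw3220
theorem W3221 : WFK w3221 := fun D T h => wf_of_chk h (mem_cons (W2914 D T h) (mem_cons (W16 D T h) mem_nil)) mem_nil cw3221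
theorem W3222 : WFK w3222 := fun D T h => wf_of_chk h (mem_cons (W2914 D T h) (mem_cons (W16 D T h) mem_nil)) mem_nil cw3222
theorem W3223 : WFK w3223 := fun D T h => wf_of_chk h (mem_cons (W2520 D T h) (mem_cons (W3128 D T h) mem_nil)) mem_nil cw3223
theorem W3224 : WFK w3224 := fun D T h => wf_of_chk h (mem_cons (W34 D T h) (mem_cons (W3128 D T h) mem_nil)) mem_nil cw3224
theorem W3225 : WFK w3225 := fun D T h => wf_of_chk h (mem_cons (W1063 D T h) (mem_cons (W368 D T h) mem_nil)) mem_nil cw3225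
theorem W3226 : WFK w3226 := fun D T h => wf_of_chk h (mem_cons (W162 D T h) (mem_cons (W3225 D T h) mem_nil)) mem_nil cw3226
theorem L744 : LFK l744 := fun D T h => lf_of_chk h (mem_cons (W219 D T h) (mem_cons (W15 D T h) (mem_cons (W499 D T h) (mem_cons (W1 D T h) (mem_cons (W795 D T h) (mem_cons (W141 D T h) (mem_cons (W796 D T h) (mem_cons (W2799 D T h) (mem_cons (W2797 D T h) (mem_cons (W1110 D T h) (mem_cons (W1997 D T h) mem_nil))))))))))) cl744
theorem W3227 : WFK w3227 := fun D T h => wf_of_chk h mem_nil (mem_cons (L744 D T h) mem_nil) cw3227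
theorem W3228 : WFK w3228 := fun D T h => wf_of_chk h (mem_cons (W3227 D T h) (mem_cons (W3128 D T h) mem_nil)) mem_nil cw3228
theorem W3229 : WFK w3229 := fun D T h => wf_of_chk h (mem_cons (W726 D T h) (mem_cons (W16 D T h) mem_nil)) mem_nil cw3229
theorem W3230 : WFK w3230 := fun D T h => wf_of_chk h mem_nil (mem_cons (L534 D T h) mem_nil) cw3230
theorem W3231 : WFK w3231 := fun D T h => wf_of_chk h mem_nil (mem_cons (L726 D T h) mem_nil) cw3231
theorem W3232 : WFK w3232 := fun D T h => wf_of_chk h mem_nil (mem_cons (L32 D T h) mem_nil) cw3232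
theorem L745 : LFK l745 := fun D T h => lf_of_chk h (mem_cons (W2766 D T h) (mem_cons (W109 D T h) (mem_cons (W831 D T h) (mem_cons (W1101 D T h) (mem_cons (W2902 D T h) (mem_cons (W3153 D T h) (mem_cons (W4 D T h) (mem_cons (W33 D T h) (mem_cons (W3232 D T h) (mem_cons (W1994 D T h) mem_nil)))))))))) cl745
theorem W3233 : WFK w3233 := fun D T h => wf_of_chk h mem_nil (mem_cons (L745 D T h) mem_nil) cw3233
theorem W3234 : WFK w3234 := fun D T h => wf_of_chk h (mem_cons (W3233 D T h) (mem_cons (W16 D T h) mem_nil)) mem_nil cw3234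
theorem W3235 : WFK w3235 := fun D T h => wf_of_chk h mem_nil (mem_cons (L726 D T h) mem_nil) cw3235
theorem W3236 : WFK w3236 := fun D T h => wf_of_chk h (mem_cons (W181 D T h) (mem_cons (W3131 D T h) mem_nil)) mem_nil cw3236
theorem W3237 : WFK w3237 := fun D T h => wf_of_chk h (mem_cons (W3207 D T h) (mem_cons (W16 D T h) mem_nil)) mem_nil cw3237
theorem W3238 : WFK w3238 := fun D T h => wf_of_chk h mem_nil mem_nil cw3238
theorem W3239 : WFK w3239 := fun D T h => wf_of_chk h mem_nil mem_nil cw3239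
theorem W3240 : WFK w3240 := fun D T h => wf_of_chk h (mem_cons (W6 D T h) mem_nil) mem_nil cw3240
theorem W3241 : WFK w3241 := fun D T h => wf_of_chk h mem_nil (mem_cons (L176 D T h) mem_nil) cw3241
theorem W3242 : WFK w3242 := fun D T h => wf_of_chk h mem_nil (mem_cons (L60 D T h) mem_nil) cw3242
theorem W3243 : WFK w3243 := fun D T h => wf_of_chk h (mem_cons (W91 D T h) mem_nil) mem_nil cw3243
theorem L746 : LFK l746 := fun D T h => lf_of_chk h (mem_cons (W2205 D T h) (mem_cons (W1053 D T h) (mem_cons (W80 D T h) (mem_cons (W3243 D T h) (mem_cons (W19 D T h) (mem_cons (W2203 D T h) (mem_cons (W539 D T h) (mem_cons (W2204 D T h) (mem_cons (W2206 D T h) (mem_cons (W3241 D T h) (mem_cons (W3242 D T h) (mem_cons (W2208 D T h) (mem_cons (W3238 D T h) (mem_cons (W3239 D T h) (mem_cons (W3240 D T h) mem_nil))))))))))))))) cl746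
theorem W3244 : WFK w3244 := fun D T h => wf_of_chk h mem_nil (mem_cons (L746 D T h) mem_nil) cw3244
theorem W3245 : WFK w3245 := fun D T h => wf_of_chk h mem_nil (mem_cons (L90 D T h) mem_nil) cw3245
theorem W3246 : WFK w3246 := fun D T h => wf_of_chk h mem_nil (mem_cons (L240 D T h) mem_nil) cw3246
theorem W3247 : WFK w3247 := fun D T h => wf_of_chk h mem_nil (mem_cons (L89 D T h) mem_nil) cw3247
theorem L747 : LFK l747 := fun D T h => lf_of_chk h (mem_cons (W1994 D T h) (mem_cons (W109 D T h) (mem_cons (W3 D T h) (mem_cons (W1027 D T h) (mem_cons (W750 D T h) (mem_cons (W2213 D T h) (mem_cons (W2214 D T h) (mem_cons (W3244 D T h) (mem_cons (W7 D T h) (mem_cons (W1529 D T h) (mem_cons (W3245 D T h) (mem_cons (W3246 D T h) (mem_cons (W3247 D T h) (mem_cons (W2902 D T h) (mem_cons (W3153 D T h) (mem_cons (W4 D T h) (mem_cons (W33 D T h) (mem_cons (W3232 D T h) mem_nil)))))))))))))))))) cl747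
theorem W3248 : WFK w3248 := fun D T h => wf_of_chk h mem_nil (mem_cons (L747 D T h) mem_nil) cw3248
theorem W3249 : WFK w3249 := fun D T h => wf_of_chk h (mem_cons (W3248 D T h) (mem_cons (W16 D T h) mem_nil)) mem_nil cw3249
theorem W3250 : WFK w3250 := fun D T h => wf_of_chk h (mem_cons (W2309 D T h) (mem_cons (W16 D T h) mem_nil)) mem_nil cw3250
theorem W3251 : WFK w3251 := fun D T h => wf_of_chk h (mem_cons (W3212 D T h) (mem_cons (W16 D T h) mem_nil)) mem_nil cw3251
theorem W3252 : WFK w3252 := fun D T h => wf_of_chk h (mem_cons (W3212 D T h) (mem_cons (W16 D T h) mem_nil)) mem_nil cw3252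
theorem W3253 : WFK w3253 := fun D T h => wf_of_chk h (mem_cons (W93 D T h) (mem_cons (W368 D T h) mem_nil)) mem_nil cw3253
theorem W3254 : WFK w3254 := fun D T h => wf_of_chk h (mem_cons (W126 D T h) (mem_cons (W3132 D T h) mem_nil)) mem_nil cw3254
theorem L748 : LFK l748 := fun D T h => lf_of_chk h (mem_cons (W3155 D T h) (mem_cons (W178 D T h) (mem_cons (W179 D T h) (mem_cons (W368 D T h) (mem_cons (W366 D T h) (mem_cons (W3250 D T h) (mem_cons (W3251 D T h) (mem_cons (W2046 D T h) (mem_cons (W3252 D T h) (mem_cons (W2265 D T h) (mem_cons (W2266 D T h) (mem_cons (W2353 D T h) (mem_cons (W3230 D T h) (mem_cons (W3231 D T h) (mem_cons (W385 D T h) (mem_cons (W3234 D T h) (mem_cons (W3235 D T h) (mem_cons (W3131 D T h) (mem_cons (W3132 D T h) (mem_cons (W16 D T h) (mem_cons (W726 D T h) (mem_cons (W3035 D T h) (mem_cons (W3253 D T h) (mem_cons (W83 D T h) (mem_cons (W3254 D T h) (mem_cons (W1501 D T h) (mem_cons (W3236 D T h) (mem_cons (W241 D T h) (mem_cons (W2517 D T h) (mem_cons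 (W3237 D T h) (mem_cons (W535 D T h) (mem_cons (W184 D T h) (mem_cons (W537 D T h) (mem_cons (W3249 D T h) mem_nil)))))))))))))))))))))))))))))))))) cl748
theorem W3255 : WFK w3255 := fun D T h => wf_of_chk h mem_nil (mem_cons (L748 D T h) mem_nil) cw3255
theorem W3256 : WFK w3256 := fun D T h => wf_of_chk h mem_nil (mem_cons (L748 D T h) mem_nil) cw3256
theorem W3257 : WFK w3257 := fun D T h => wf_of_chk h mem_nil (mem_cons (L748 D T h) mem_nil) cw3257
theorem W3258 : WFK w3258 := fun D T h => wf_of_chk h (mem_cons (W2272 D T h) (mem_cons (W368 D T h) mem_nil)) mem_nil cw3258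
theorem L749 : LFK l749 := fun D T h => lf_of_chk h (mem_cons (W1401 D T h) (mem_cons (W1075 D T h) (mem_cons (W1546 D T h) (mem_cons (W4 D T h) (mem_cons (W922 D T h) (mem_cons (W914 D T h) (mem_cons (W377 D T h) (mem_cons (W913 D T h) (mem_cons (W2772 D T h) (mem_cons (W3084 D T h) (mem_cons (W3085 D T h) (mem_cons (W160 D T h) (mem_cons (W3086 D T h) mem_nil))))))))))))) cl749
theorem W3259 : WFK w3259 := fun D T h => wf_of_chk h mem_nil (mem_cons (L749 D T h) mem_nil) cw3259
theorem W3260 : WFK w3260 := fun D T h => wf_of_chk h mem_nil (mem_cons (L749 D T h) mem_nil) cw3260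
theorem W3261 : WFK w3261 := fun D T h => wf_of_chk h mem_nil (mem_cons (L209 D T h) mem_nil) cw3261
theorem W3262 : WFK w3262 := fun D T h => wf_of_chk h (mem_cons (W3261 D T h) (mem_cons (W16 D T h) mem_nil)) mem_nil cw3262
theorem W3263 : WFK w3263 := fun D T h => wf_of_chk h (mem_cons (W2276 D T h) (mem_cons (W368 D T h) mem_nil)) mem_nil cw3263
theorem W3264 : WFK w3264 := fun D T h => wf_of_chk h (mem_cons (W2274 D T h) (mem_cons (W368 D T h) mem_nil)) mem_nil cw3264
theorem W3265 : WFK w3265 := fun D T h => wf_of_chk h mem_nil (mem_cons (L274 D T h) mem_nil) cw3265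
theorem W3266 : WFK w3266 := fun D T h => wf_of_chk h (mem_cons (W1408 D T h) (mem_cons (W1063 D T h) mem_nil)) mem_nil cw3266
theorem L750 : LFK l750 := fun D T h => lf_of_chk h (mem_cons (W2062 D T h) (mem_cons (W3265 D T h) (mem_cons (W368 D T h) (mem_cons (W1068 D T h) (mem_cons (W682 D T h) (mem_cons (W1065 D T h) (mem_cons (W3127 D T h) (mem_cons (W1063 D T h) (mem_cons (W16 D T h) (mem_cons (W3213 D T h) (mem_cons (W3214 D T h) (mem_cons (W3224 D T h) (mem_cons (W2015 D T h) (mem_cons (W2037 D T h) (mem_cons (W2709 D T h) (mem_cons (W3226 D T h) (mem_cons (W3228 D T h) (mem_cons (W1166 D T h) (mem_cons (W3215 D T h) (mem_cons (W3216 D T h) (mem_cons (W3217 D T h) (mem_cons (W128 D T h) (mem_cons (W3218 D T h) (mem_cons (W3219 D T h) (mem_cons (W799 D T h) (mem_cons (W3220 D T h) (mem_cons (W3221 D T h) (mem_cons (W3222 D T h) (mem_cons (W3223 D T h) (mem_cons (W3155 D T h) (mem_cons (W3229 D T h) (mem_cons (W3255 D T h) (mem_cons (W3256 D T h) (mem_cons (W1134 D T h) (mem_cons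 (W3257 D T h) (mem_cons (W3258 D T h) (mem_cons (W3259 D T h) (mem_cons (W3260 D T h) (mem_cons (W3262 D T h) (mem_cons (W3263 D T h) (mem_cons (W3264 D T h) (mem_cons (W3266 D T h) mem_nil)))))))))))))))))))))))))))))))))))))))))) cl750
theorem W3267 : WFK w3267 := fun D T h => wf_of_chk h mem_nil (mem_cons (L750 D T h) mem_nil) cw3267
theorem W3268 : WFK w3268 := fun D T h => wf_of_chk h (mem_cons (W2042 D T h) (mem_cons (W368 D T h) mem_nil)) mem_nil cw3268
theorem W3269 : WFK w3269 := fun D T h => wf_of_chk h (mem_cons (W1153 D T h) (mem_cons (W368 D T h) mem_nil)) mem_nil cw3269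
theorem W3270 : WFK w3270 := fun D T h => wf_of_chk h (mem_cons (W37 D T h) mem_nil) mem_nil cw3270
theorem L751 : LFK l751 := fun D T h => lf_of_chk h (mem_cons (W1528 D T h) (mem_cons (W181 D T h) (mem_cons (W2 D T h) (mem_cons (W37 D T h) (mem_cons (W2489 D T h) (mem_cons (W3 D T h) (mem_cons (W39 D T h) (mem_cons (W263 D T h) (mem_cons (W3270 D T h) (mem_cons (W802 D T h) (mem_cons (W170 D T h) (mem_cons (W301 D T h) (mem_cons (W347 D T h) (mem_cons (W345 D T h) mem_nil)))))))))))))) cl751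
theorem W3271 : WFK w3271 := fun D T h => wf_of_chk h mem_nil (mem_cons (L751 D T h) mem_nil) cw3271
theorem W3272 : WFK w3272 := fun D T h => wf_of_chk h (mem_cons (W1291 D T h) (mem_cons (W1065 D T h) mem_nil)) mem_nil cw3272
theorem W3273 : WFK w3273 := fun D T h => wf_of_chk h (mem_cons (W1319 D T h) (mem_cons (W37 D T h) mem_nil)) mem_nil cw3273
theorem W3274 : WFK w3274 := fun D T h => wf_of_chk h mem_nil (mem_cons (L715 D T h) mem_nil) cw3274
theorem W3275 : WFK w3275 := fun D T h => wf_of_chk h mem_nil (mem_cons (L751 D T h) mem_nil) cw3275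
theorem W3276 : WFK w3276 := fun D T h => wf_of_chk h mem_nil (mem_cons (L715 D T h) mem_nil) cw3276
theorem L752 : LFK l752 := fun D T h => lf_of_chk h (mem_cons (W2478 D T h) (mem_cons (W721 D T h) (mem_cons (W91 D T h) (mem_cons (W80 D T h) (mem_cons (W3274 D T h) (mem_cons (W716 D T h) (mem_cons (W1355 D T h) (mem_cons (W2448 D T h) (mem_cons (W1401 D T h) (mem_cons (W4 D T h) (mem_cons (W2368 D T h) (mem_cons (W1528 D T h) (mem_cons (W3275 D T h) (mem_cons (W848 D T h) (mem_cons (W1940 D T h) (mem_cons (W3276 D T h) mem_nil)))))))))))))))) cl752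
theorem W3277 : WFK w3277 := fun D T h => wf_of_chk h mem_nil (mem_cons (L752 D T h) mem_nil) cw3277
theorem W3278 : WFK w3278 := fun D T h => wf_of_chk h mem_nil (mem_cons (L245 D T h) mem_nil) cw3278
theorem W3279 : WFK w3279 := fun D T h => wf_of_chk h (mem_cons (W3278 D T h) (mem_cons (W37 D T h) mem_nil)) mem_nil cw3279
theorem W3280 : WFK w3280 := fun D T h => wf_of_chk h mem_nil (mem_cons (L454 D T h) mem_nil) cw3280
theorem W3281 : WFK w3281 := fun D T h => wf_of_chk h (mem_cons (W3280 D T h) (mem_cons (W37 D T h) mem_nil)) mem_nil cw3281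
theorem W3282 : WFK w3282 := fun D T h => wf_of_chk h mem_nil (mem_cons (L381 D T h) mem_nil) cw3282
theorem W3283 : WFK w3283 := fun D T h => wf_of_chk h (mem_cons (W16 D T h) mem_nil) mem_nil cw3283
theorem W3284 : WFK w3284 := fun D T h => wf_of_chk h (mem_cons (W16 D T h) mem_nil) mem_nil cw3284
theorem L753 : LFK l753 := fun D T h => lf_of_chk h (mem_cons (W267 D T h) (mem_cons (W164 D T h) (mem_cons (W368 D T h) (mem_cons (W401 D T h) (mem_cons (W39 D T h) (mem_cons (W3 D T h) (mem_cons (W1412 D T h) (mem_cons (W220 D T h) (mem_cons (W1414 D T h) (mem_cons (W1139 D T h) (mem_cons (W262 D T h) (mem_cons (W743 D T h) (mem_cons (W3283 D T h) (mem_cons (W815 D T h) (mem_cons (W256 D T h) (mem_cons (W1272 D T h) (mem_cons (W255 D T h) (mem_cons (W257 D T h) (mem_cons (W3284 D T h) mem_nil))))))))))))))))))) cl753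
theorem W3285 : WFK w3285 := fun D T h => wf_of_chk h mem_nil (mem_cons (L753 D T h) mem_nil) cw3285
theorem W3286 : WFK w3286 := fun D T h => wf_of_chk h (mem_cons (W2934 D T h) mem_nil) mem_nil cw3286
theorem W3287 : WFK w3287 := fun D T h => wf_of_chk h mem_nil (mem_cons (L278 D T h) mem_nil) cw3287
theorem W3288 : WFK w3288 := fun D T h => wf_of_chk h (mem_cons (W1408 D T h) mem_nil) mem_nil cw3288
theorem L754 : LFK l754 := fun D T h => lf_of_chk h (mem_cons (W1528 D T h) (mem_cons (W16 D T h) (mem_cons (W368 D T h) (mem_cons (W3 D T h) (mem_cons (W401 D T h) (mem_cons (W39 D T h) (mem_cons (W267 D T h) (mem_cons (W3288 D T h) (mem_cons (W91 D T h) (mem_cons (W256 D T h) (mem_cons (W1272 D T h) (mem_cons (W255 D T h) (mem_cons (W257 D T h) (mem_cons (W181 D T h) mem_nil)))))))))))))) cl754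
theorem W3289 : WFK w3289 := fun D T h => wf_of_chk h mem_nil (mem_cons (L754 D T h) mem_nil) cw3289
theorem W3290 : WFK w3290 := fun D T h => wf_of_chk h mem_nil (mem_cons (L203 D T h) mem_nil) cw3290
theorem L755 : LFK l755 := fun D T h => lf_of_chk h (mem_cons (W726 D T h) (mem_cons (W3285 D T h) (mem_cons (W1 D T h) (mem_cons (W69 D T h) (mem_cons (W126 D T h) (mem_cons (W3290 D T h) (mem_cons (W1640 D T h) (mem_cons (W618 D T h) (mem_cons (W111 D T h) (mem_cons (W281 D T h) (mem_cons (W762 D T h) (mem_cons (W1636 D T h) (mem_cons (W2832 D T h) (mem_cons (W3286 D T h) (mem_cons (W1228 D T h) (mem_cons (W2575 D T h) (mem_cons (W3287 D T h) (mem_cons (W177 D T h) (mem_cons (W3289 D T h) mem_nil))))))))))))))))))) cl755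
theorem W3291 : WFK w3291 := fun D T h => wf_of_chk h mem_nil (mem_cons (L755 D T h) mem_nil) cw3291
theorem W3292 : WFK w3292 := fun D T h => wf_of_chk h (mem_cons (W16 D T h) mem_nil) mem_nil cw3292
theorem W3293 : WFK w3293 := fun D T h => wf_of_chk h mem_nil (mem_cons (L479 D T h) mem_nil) cw3293
theorem L756 : LFK l756 := fun D T h => lf_of_chk h (mem_cons (W785 D T h) (mem_cons (W3 D T h) (mem_cons (W39 D T h) (mem_cons (W1279 D T h) (mem_cons (W405 D T h) (mem_cons (W1281 D T h) (mem_cons (W768 D T h) (mem_cons (W3293 D T h) (mem_cons (W1259 D T h) (mem_cons (W1554 D T h) (mem_cons (W1325 D T h) (mem_cons (W780 D T h) (mem_cons (W782 D T h) (mem_cons (W781 D T h) (mem_cons (W1177 D T h) mem_nil))))))))))))))) cl756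
theorem W3294 : WFK w3294 := fun D T h => wf_of_chk h mem_nil (mem_cons (L756 D T h) mem_nil) cw3294
theorem W3295 : WFK w3295 := fun D T h => wf_of_chk h (mem_cons (W17 D T h) mem_nil) mem_nil cw3295
theorem W3296 : WFK w3296 := fun D T h => wf_of_chk h (mem_cons (W78 D T h) (mem_cons (W16 D T h) mem_nil)) mem_nil cw3296
theorem W3297 : WFK w3297 := fun D T h => wf_of_chk h (mem_cons (W69 D T h) mem_nil) mem_nil cw3297
theorem L757 : LFK l757 := fun D T h => lf_of_chk h (mem_cons (W142 D T h) (mem_cons (W539 D T h) (mem_cons (W33 D T h) (mem_cons (W404 D T h) (mem_cons (W78 D T h) (mem_cons (W1834 D T h) (mem_cons (W405 D T h) mem_nil))))))) cl757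
theorem W3298 : WFK w3298 := fun D T h => wf_of_chk h mem_nil (mem_cons (L757 D T h) mem_nil) cw3298
theorem W3299 : WFK w3299 := fun D T h => wf_of_chk h mem_nil mem_nil cw3299
theorem W3300 : WFK w3300 := fun D T h => wf_of_chk h mem_nil (mem_cons (L256 D T h) mem_nil) cw3300
theorem W3301 : WFK w3301 := fun D T h => wf_of_chk h (mem_cons (W88 D T h) mem_nil) mem_nil cw3301
theorem L758 : LFK l758 := fun D T h => lf_of_chk h (mem_cons (W92 D T h) (mem_cons (W80 D T h) (mem_cons (W216 D T h) (mem_cons (W3299 D T h) (mem_cons (W88 D T h) (mem_cons (W87 D T h) (mem_cons (W90 D T h) (mem_cons (W89 D T h) (mem_cons (W3241 D T h) (mem_cons (W3300 D T h) (mem_cons (W3301 D T h) mem_nil))))))))))) cl758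
theorem W3302 : WFK w3302 := fun D T h => wf_of_chk h mem_nil (mem_cons (L758 D T h) mem_nil) cw3302
theorem W3303 : WFK w3303 := fun D T h => wf_of_chk h mem_nil (mem_cons (L203 D T h) mem_nil) cw3303
theorem W3304 : WFK w3304 := fun D T h => wf_of_chk h mem_nil (mem_cons (L671 D T h) mem_nil) cw3304
theorem W3305 : WFK w3305 := fun D T h => wf_of_chk h mem_nil (mem_cons (L671 D T h) mem_nil) cw3305
theorem W3306 : WFK w3306 := fun D T h => wf_of_chk h (mem_cons (W164 D T h) (mem_cons (W33 D T h) mem_nil)) mem_nil cw3306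
theorem W3307 : WFK w3307 := fun D T h => wf_of_chk h (mem_cons (W162 D T h) (mem_cons (W33 D T h) mem_nil)) mem_nil cw3307
theorem W3308 : WFK w3308 := fun D T h => wf_of_chk h (mem_cons (W164 D T h) (mem_cons (W33 D T h) mem_nil)) mem_nil cw3308
theorem W3309 : WFK w3309 := fun D T h => wf_of_chk h mem_nil (mem_cons (L178 D T h) mem_nil) cw3309
theorem W3310 : WFK w3310 := fun D T h => wf_of_chk h mem_nil mem_nil cw3310
theorem W3311 : WFK w3311 := fun D T h => wf_of_chk h mem_nil (mem_cons (L256 D T h) mem_nil) cw3311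
theorem W3312 : WFK w3312 := fun D T h => wf_of_chk h mem_nil (mem_cons (L688 D T h) mem_nil) cw3312
theorem W3313 : WFK w3313 := fun D T h => wf_of_chk h mem_nil (mem_cons (L184 D T h) mem_nil) cw3313
theorem W3314 : WFK w3314 := fun D T h => wf_of_chk h mem_nil (mem_cons (L184 D T h) mem_nil) cw3314
theorem W3315 : WFK w3315 := fun D T h => wf_of_chk h mem_nil mem_nil cw3315
theorem L759 : LFK l759 := fun D T h => lf_of_chk h (mem_cons (W1723 D T h) (mem_cons (W39 D T h) (mem_cons (W158 D T h) (mem_cons (W3315 D T h) (mem_cons (W1820 D T h) (mem_cons (W1709 D T h) (mem_cons (W3309 D T h) (mem_cons (W3310 D T h) (mem_cons (W1430 D T h) (mem_cons (W3311 D T h) (mem_cons (W1554 D T h) (mem_cons (W1325 D T h) (mem_cons (W3312 D T h) (mem_cons (W3313 D T h) (mem_cons (W3314 D T h) mem_nil))))))))))))))) cl759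
theorem W3316 : WFK w3316 := fun D T h => wf_of_chk h mem_nil (mem_cons (L759 D T h) mem_nil) cw3316
theorem W3317 : WFK w3317 := fun D T h => wf_of_chk h (mem_cons (W396 D T h) (mem_cons (W16 D T h) mem_nil)) mem_nil cw3317
theorem W3318 : WFK w3318 := fun D T h => wf_of_chk h mem_nil mem_nil cw3318
theorem W3319 : WFK w3319 := fun D T h => wf_of_chk h (mem_cons (W3318 D T h) (mem_cons (W16 D T h) mem_nil)) mem_nil cw3319
theorem L760 : LFK l760 := fun D T h => lf_of_chk h (mem_cons (W1576 D T h) (mem_cons (W3290 D T h) (mem_cons (W539 D T h) (mem_cons (W78 D T h) (mem_cons (W33 D T h) (mem_cons (W1804 D T h) (mem_cons (W469 D T h) (mem_cons (W3297 D T h) (mem_cons (W3298 D T h) (mem_cons (W3302 D T h) (mem_cons (W3303 D T h) (mem_cons (W851 D T h) (mem_cons (W1723 D T h) (mem_cons (W3304 D T h) (mem_cons (W3305 D T h) (mem_cons (W3306 D T h) (mem_cons (W3307 D T h) (mem_cons (W3308 D T h) (mem_cons (W3295 D T h) (mem_cons (W1 D T h) (mem_cons (W69 D T h) (mem_cons (W86 D T h)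 (mem_cons (W85 D T h) (mem_cons (W3316 D T h) (mem_cons (W3317 D T h) (mem_cons (W3319 D T h) (mem_cons (W419 D T h) (mem_cons (W621 D T h) (mem_cons (W84 D T h) (mem_cons (W3296 D T h) (mem_cons (W3292 D T h) (mem_cons (W3294 D T h) mem_nil)))))))))))))))))))))))))))))))) cl760
theorem W3320 : WFK w3320 := fun D T h => wf_of_chk h mem_nil (mem_cons (L760 D T h) mem_nil) cw3320
theorem W3321 : WFK w3321 := fun D T h => wf_of_chk h (mem_cons (W128 D T h) (mem_cons (W3320 D T h) mem_nil)) mem_nil cw3321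
theorem W3322 : WFK w3322 := fun D T h => wf_of_chk h (mem_cons (W284 D T h) (mem_cons (W3320 D T h) mem_nil)) mem_nil cw3322
theorem W3323 : WFK w3323 := fun D T h => wf_of_chk h mem_nil (mem_cons (L718 D T h) mem_nil) cw3323
theorem W3324 : WFK w3324 := fun D T h => wf_of_chk h (mem_cons (W167 D T h) (mem_cons (W3320 D T h) mem_nil)) mem_nil cw3324
theorem W3325 : WFK w3325 := fun D T h => wf_of_chk h mem_nil (mem_cons (L659 D T h) mem_nil) cw3325
theorem W3326 : WFK w3326 := fun D T h => wf_of_chk h (mem_cons (W1063 D T h) (mem_cons (W3320 D T h) mem_nil)) mem_nil cw3326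
theorem W3327 : WFK w3327 := fun D T h => wf_of_chk h (mem_cons (W162 D T h) (mem_cons (W3282 D T h) mem_nil)) mem_nil cw3327
theorem W3328 : WFK w3328 := fun D T h => wf_of_chk h mem_nil (mem_cons (L116 D T h) mem_nil) cw3328
theorem W3329 : WFK w3329 := fun D T h => wf_of_chk h mem_nil (mem_cons (L116 D T h) mem_nil) cw3329
theorem W3330 : WFK w3330 := fun D T h => wf_of_chk h (mem_cons (W16 D T h) (mem_cons (W3328 D T h) mem_nil)) mem_nil cw3330
theorem W3331 : WFK w3331 := fun D T h => wf_of_chk h (mem_cons (W16 D T h) (mem_cons (W3328 D T h) mem_nil)) mem_nil cw3331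
theorem W3332 : WFK w3332 := fun D T h => wf_of_chk h (mem_cons (W3328 D T h) mem_nil) mem_nil cw3332
theorem W3333 : WFK w3333 := fun D T h => wf_of_chk h (mem_cons (W3328 D T h) mem_nil) mem_nil cw3333
theorem L761 : LFK l761 := fun D T h => lf_of_chk h (mem_cons (W17 D T h) (mem_cons (W50 D T h) (mem_cons (W3328 D T h) (mem_cons (W202 D T h) (mem_cons (W203 D T h) (mem_cons (W3332 D T h) (mem_cons (W3 D T h) (mem_cons (W3333 D T h) (mem_cons (W200 D T h) (mem_cons (W199 D T h) (mem_cons (W201 D T h) mem_nil))))))))))) cl761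
theorem W3334 : WFK w3334 := fun D T h => wf_of_chk h mem_nil (mem_cons (L761 D T h) mem_nil) cw3334
theorem L762 : LFK l762 := fun D T h => lf_of_chk h (mem_cons (W3 D T h) (mem_cons (W1033 D T h) (mem_cons (W1244 D T h) (mem_cons (W11 D T h) (mem_cons (W12 D T h) (mem_cons (W13 D T h) mem_nil)))))) cl762
theorem W3335 : WFK w3335 := fun D T h => wf_of_chk h mem_nil (mem_cons (L762 D T h) mem_nil) cw3335
theorem L763 : LFK l763 := fun D T h => lf_of_chk h (mem_cons (W2309 D T h) (mem_cons (W50 D T h) (mem_cons (W1 D T h) (mem_cons (W69 D T h) (mem_cons (W17 D T h) (mem_cons (W2118 D T h) (mem_cons (W3 D T h) (mem_cons (W2119 D T h) (mem_cons (W2303 D T h) (mem_cons (W2107 D T h) (mem_cons (W2305 D T h) (mem_cons (W2304 D T h) (mem_cons (W3335 D T h) mem_nil))))))))))))) cl763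
theorem W3336 : WFK w3336 := fun D T h => wf_of_chk h mem_nil (mem_cons (L763 D T h) mem_nil) cw3336
theorem L764 : LFK l764 := fun D T h => lf_of_chk h (mem_cons (W1502 D T h) (mem_cons (W342 D T h) (mem_cons (W341 D T h) (mem_cons (W50 D T h) (mem_cons (W1676 D T h) (mem_cons (W2219 D T h) (mem_cons (W1723 D T h) (mem_cons (W3328 D T h) (mem_cons (W3329 D T h) (mem_cons (W16 D T h) (mem_cons (W3330 D T h) (mem_cons (W1408 D T h) (mem_cons (W3331 D T h) (mem_cons (W3336 D T h) (mem_cons (W3334 D T h) (mem_cons (W1398 D T h) (mem_cons (W24 D T h) (mem_cons (W2046 D T h) (mem_cons (W42 D T h) (mem_cons (W2048 D T h) (mem_cons (W1390 D T h) (mem_cons (W2070 D T h) (mem_cons (W2051 D T h) (mem_cons (W2050 D T h) mem_nil)))))))))))))))))))))))) cl764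
theorem W3337 : WFK w3337 := fun D T h => wf_of_chk h mem_nil (mem_cons (L764 D T h) mem_nil) cw3337
theorem W3338 : WFK w3338 := fun D T h => wf_of_chk h mem_nil (mem_cons (L764 D T h) mem_nil) cw3338
theorem W3339 : WFK w3339 := fun D T h => wf_of_chk h mem_nil (mem_cons (L15 D T h) mem_nil) cw3339
theorem W3340 : WFK w3340 := fun D T h => wf_of_chk h (mem_cons (W3339 D T h) (mem_cons (W2164 D T h) mem_nil)) mem_nil cw3340
theorem W3341 : WFK w3341 := fun D T h => wf_of_chk h mem_nil (mem_cons (L278 D T h) mem_nil) cw3341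
theorem W3342 : WFK w3342 := fun D T h => wf_of_chk h mem_nil (mem_cons (L180 D T h) mem_nil) cw3342
theorem W3343 : WFK w3343 := fun D T h => wf_of_chk h mem_nil (mem_cons (L538 D T h) mem_nil) cw3343
theorem L765 : LFK l765 := fun D T h => lf_of_chk h (mem_cons (W915 D T h) (mem_cons (W802 D T h) (mem_cons (W4 D T h) (mem_cons (W33 D T h) (mem_cons (W3024 D T h) (mem_cons (W2766 D T h) (mem_cons (W3090 D T h) (mem_cons (W431 D T h) (mem_cons (W3343 D T h) (mem_cons (W3342 D T h) (mem_cons (W3135 D T h) mem_nil))))))))))) cl765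
theorem W3344 : WFK w3344 := fun D T h => wf_of_chk h mem_nil (mem_cons (L765 D T h) mem_nil) cw3344
theorem W3345 : WFK w3345 := fun D T h => wf_of_chk h mem_nil (mem_cons (L278 D T h) mem_nil) cw3345
theorem W3346 : WFK w3346 := fun D T h => wf_of_chk h (mem_cons (W3345 D T h) (mem_cons (W2164 D T h) mem_nil)) mem_nil cw3346
theorem L766 : LFK l766 := fun D T h => lf_of_chk h (mem_cons (W281 D T h) (mem_cons (W61 D T h) (mem_cons (W819 D T h) (mem_cons (W10 D T h) (mem_cons (W109 D T h) (mem_cons (W33 D T h) (mem_cons (W1379 D T h) mem_nil))))))) cl766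
theorem W3347 : WFK w3347 := fun D T h => wf_of_chk h mem_nil (mem_cons (L766 D T h) mem_nil) cw3347
theorem W3348 : WFK w3348 := fun D T h => wf_of_chk h (mem_cons (W3347 D T h) (mem_cons (W1310 D T h) mem_nil)) mem_nil cw3348
theorem W3349 : WFK w3349 := fun D T h => wf_of_chk h (mem_cons (W3347 D T h) (mem_cons (W2164 D T h) mem_nil)) mem_nil cw3349
theorem W3350 : WFK w3350 := fun D T h => wf_of_chk h (mem_cons (W1883 D T h) (mem_cons (W2164 D T h) mem_nil)) mem_nil cw3350
theorem L767 : LFK l767 := fun D T h => lf_of_chk h (mem_cons (W2893 D T h) (mem_cons (W2168 D T h) (mem_cons (W2169 D T h) (mem_cons (W2164 D T h) (mem_cons (W1310 D T h) (mem_cons (W3320 D T h) (mem_cons (W3323 D T h) (mem_cons (W3282 D T h) (mem_cons (W16 D T h) (mem_cons (W37 D T h) (mem_cons (W3326 D T h) (mem_cons (W284 D T h) (mem_cons (W3327 D T h) (mem_cons (W1458 D T h) (mem_cons (W3322 D T h) (mem_cons (W3291 D T h) (mem_cons (W50 D T h) (mem_cons (W3321 D T h) (mem_cons (W1327 D T h) (mem_cons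 (W2062 D T h) (mem_cons (W1346 D T h) (mem_cons (W3006 D T h) (mem_cons (W1595 D T h) (mem_cons (W3324 D T h) (mem_cons (W3325 D T h) (mem_cons (W2165 D T h) (mem_cons (W1502 D T h) (mem_cons (W3337 D T h) (mem_cons (W3338 D T h) (mem_cons (W3340 D T h) (mem_cons (W3341 D T h) (mem_cons (W3344 D T h) (mem_cons (W3346 D T h) (mem_cons (W3348 D T h) (mem_cons (W3349 D T h) (mem_cons (W3350 D T h) mem_nil)))))))))))))))))))))))))))))))))))) cl767
theorem W3351 : WFK w3351 := fun D T h => wf_of_chk h mem_nil (mem_cons (L767 D T h) mem_nil) cw3351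
theorem L768 : LFK l768 := fun D T h => lf_of_chk h (mem_cons (W3126 D T h) (mem_cons (W2370 D T h) (mem_cons (W1288 D T h) (mem_cons (W3273 D T h) (mem_cons (W3277 D T h) (mem_cons (W3279 D T h) (mem_cons (W3281 D T h) (mem_cons (W368 D T h) (mem_cons (W804 D T h) (mem_cons (W37 D T h) (mem_cons (W3127 D T h) (mem_cons (W3128 D T h) (mem_cons (W3201 D T h) (mem_cons (W3202 D T h) (mem_cons (W3272 D T h) (mem_cons (W2893 D T h) (mem_cons (W3267 D T h) (mem_cons (W284 D T h) (mem_cons (W1213 D T h) (mem_cons (W3268 D T h) (mem_cons (W3269 D T h) (mem_cons (W3129 D T h) (mem_cons (W3130 D T h) (mem_cons (W3188 D T h) (mem_cons (W3190 D T h) (mem_cons (W3191 D T h) (mem_cons (W3192 D T h) (mem_cons (W3123 D T h) (mem_cons (W3120 D T h) (mem_cons (W3196 D T h) (mem_cons (W3197 D T h) (mem_cons (W3198 D T h) (mem_cons (W3200 D T h) (mem_cons (W726 D T h) (mem_cons (W3271 D T h) (mem_cons (W3351 D T h) (mem_cons (W34 D T h) mem_nil))))))))))))))))))))))))))))))))))))) cl768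
theorem W3352 : WFK w3352 := fun D T h => wf_of_chk h mem_nil (mem_cons (L768 D T h) mem_nil) cw3352
theorem W3353 : WFK w3353 := fun D T h => wf_of_chk h (mem_cons (W2914 D T h) (mem_cons (W3352 D T h) mem_nil)) mem_nil cw3353
theorem W3354 : WFK w3354 := fun D T h => wf_of_chk h (mem_cons (W2914 D T h) (mem_cons (W3352 D T h) mem_nil)) mem_nil cw3354
theorem W3356 : WFK w3356 := fun D T h => wf_of_chk h mem_nil (mem_cons (L257 D T h) mem_nil) cw3356
theorem L770 : LFK l770 := fun D T h => lf_of_chk h (mem_cons (W3 D T h) (mem_cons (W414 D T h) mem_nil)) cl770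
theorem W3359 : WFK w3359 := fun D T h => wf_of_chk h mem_nil (mem_cons (L770 D T h) mem_nil) cw3359
theorem W3362 : WFK w3362 := fun D T h => wf_of_chk h (mem_cons (W16 D T h) (mem_cons (W17 D T h) mem_nil)) mem_nil cw3362
theorem W3374 : WFK w3374 := fun D T h => wf_of_chk h mem_nil (mem_cons (L14 D T h) mem_nil) cw3374
theorem W3378 : WFK w3378 := fun D T h => wf_of_chk h mem_nil (mem_cons (L409 D T h) mem_nil) cw3378
theorem W3381 : WFK w3381 := fun D T h => wf_of_chk h mem_nil (mem_cons (L409 D T h) mem_nil) cw3381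
theorem W3383 : WFK w3383 := fun D T h => wf_of_chk h mem_nil (mem_cons (L409 D T h) mem_nil) cw3383
theorem W3384 : WFK w3384 := fun D T h => wf_of_chk h mem_nil mem_nil cw3384
theorem L777 : LFK l777 := fun D T h => lf_of_chk h (mem_cons (W14 D T h) (mem_cons (W16 D T h) (mem_cons (W50 D T h) (mem_cons (W17 D T h) (mem_cons (W3335 D T h) (mem_cons (W3035 D T h) (mem_cons (W3 D T h) (mem_cons (W1448 D T h) (mem_cons (W1449 D T h) (mem_cons (W23 D T h) (mem_cons (W24 D T h) (mem_cons (W1408 D T h) mem_nil)))))))))))) cl777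
theorem W3389 : WFK w3389 := fun D T h => wf_of_chk h mem_nil (mem_cons (L777 D T h) mem_nil) cw3389
theorem W3390 : WFK w3390 := fun D T h => wf_of_chk h mem_nil (mem_cons (L694 D T h) mem_nil) cw3390
theorem L778 : LFK l778 := fun D T h => lf_of_chk h (mem_cons (W7 D T h) (mem_cons (W30 D T h) (mem_cons (W18 D T h) (mem_cons (W192 D T h) (mem_cons (W21 D T h) (mem_cons (W3112 D T h) mem_nil)))))) cl778
theorem W3391 : WFK w3391 := fun D T h => wf_of_chk h mem_nil (mem_cons (L778 D T h) mem_nil) cw3391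
theorem L779 : LFK l779 := fun D T h => lf_of_chk h (mem_cons (W3 D T h) (mem_cons (W3390 D T h) (mem_cons (W3391 D T h) (mem_cons (W11 D T h) (mem_cons (W12 D T h) (mem_cons (W13 D T h) mem_nil)))))) cl779
theorem W3392 : WFK w3392 := fun D T h => wf_of_chk h mem_nil (mem_cons (L779 D T h) mem_nil) cw3392
theorem W3393 : WFK w3393 := fun D T h => wf_of_chk h mem_nil (mem_cons (L340 D T h) mem_nil) cw3393
theorem L780 : LFK l780 := fun D T h => lf_of_chk h (mem_cons (W3 D T h) (mem_cons (W3393 D T h) (mem_cons (W11 D T h) (mem_cons (W12 D T h) (mem_cons (W13 D T h) mem_nil))))) cl780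
theorem W3394 : WFK w3394 := fun D T h => wf_of_chk h mem_nil (mem_cons (L780 D T h) mem_nil) cw3394
theorem L781 : LFK l781 := fun D T h => lf_of_chk h (mem_cons (W1408 D T h) (mem_cons (W16 D T h) (mem_cons (W667 D T h) (mem_cons (W669 D T h) (mem_cons (W17 D T h) (mem_cons (W3392 D T h) (mem_cons (W1397 D T h) (mem_cons (W3394 D T h) (mem_cons (W3035 D T h) (mem_cons (W3 D T h) (mem_cons (W1448 D T h) (mem_cons (W1449 D T h) mem_nil)))))))))))) cl781
theorem W3395 : WFK w3395 := fun D T h => wf_of_chk h mem_nil (mem_cons (L781 D T h) mem_nil) cw3395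
theorem L782 : LFK l782 := fun D T h => lf_of_chk h (mem_cons (W1408 D T h) (mem_cons (W16 D T h) (mem_cons (W17 D T h) (mem_cons (W23 D T h) (mem_cons (W1397 D T h) (mem_cons (W14 D T h) (mem_cons (W3035 D T h) (mem_cons (W3 D T h) (mem_cons (W1448 D T h) (mem_cons (W1449 D T h) mem_nil)))))))))) cl782
theorem W3396 : WFK w3396 := fun D T h => wf_of_chk h mem_nil (mem_cons (L782 D T h) mem_nil) cw3396
theorem W3397 : WFK w3397 := fun D T h => wf_of_chk h (mem_cons (W710 D T h) (mem_cons (W3352 D T h) mem_nil)) mem_nil cw3397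
theorem W3398 : WFK w3398 := fun D T h => wf_of_chk h mem_nil (mem_cons (L550 D T h) mem_nil) cw3398
theorem L783 : LFK l783 := fun D T h => lf_of_chk h (mem_cons (W2766 D T h) (mem_cons (W10 D T h) (mem_cons (W109 D T h) (mem_cons (W831 D T h) (mem_cons (W1101 D T h) (mem_cons (W3398 D T h) (mem_cons (W1075 D T h) (mem_cons (W817 D T h) (mem_cons (W4 D T h) (mem_cons (W33 D T h) (mem_cons (W161 D T h) mem_nil))))))))))) cl783
theorem W3399 : WFK w3399 := fun D T h => wf_of_chk h mem_nil (mem_cons (L783 D T h) mem_nil) cw3399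
theorem W3400 : WFK w3400 := fun D T h => wf_of_chk h mem_nil (mem_cons (L15 D T h) mem_nil) cw3400
theorem W3401 : WFK w3401 := fun D T h => wf_of_chk h mem_nil (mem_cons (L3 D T h) mem_nil) cw3401
theorem L784 : LFK l784 := fun D T h => lf_of_chk h (mem_cons (W11 D T h) (mem_cons (W10 D T h) (mem_cons (W3401 D T h) (mem_cons (W1245 D T h) (mem_cons (W861 D T h) mem_nil))))) cl784
theorem W3402 : WFK w3402 := fun D T h => wf_of_chk h mem_nil (mem_cons (L784 D T h) mem_nil) cw3402
theorem W3403 : WFK w3403 := fun D T h => wf_of_chk h mem_nil (mem_cons (L15 D T h) mem_nil) cw3403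
theorem L785 : LFK l785 := fun D T h => lf_of_chk h (mem_cons (W13 D T h) (mem_cons (W10 D T h) (mem_cons (W1245 D T h) (mem_cons (W1246 D T h) (mem_cons (W3403 D T h) mem_nil))))) cl785
theorem W3404 : WFK w3404 := fun D T h => wf_of_chk h mem_nil (mem_cons (L785 D T h) mem_nil) cw3404
theorem W3405 : WFK w3405 := fun D T h => wf_of_chk h mem_nil (mem_cons (L785 D T h) mem_nil) cw3405
theorem W3406 : WFK w3406 := fun D T h => wf_of_chk h mem_nil (mem_cons (L330 D T h) mem_nil) cw3406
theorem W3407 : WFK w3407 := fun D T h => wf_of_chk h mem_nil (mem_cons (L330 D T h) mem_nil) cw3407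
theorem L786 : LFK l786 := fun D T h => lf_of_chk h (mem_cons (W36 D T h) (mem_cons (W162 D T h) (mem_cons (W164 D T h) (mem_cons (W199 D T h) (mem_cons (W201 D T h) (mem_cons (W1449 D T h) (mem_cons (W34 D T h) (mem_cons (W3 D T h) (mem_cons (W3406 D T h) (mem_cons (W3407 D T h) (mem_cons (W3400 D T h) (mem_cons (W12 D T h) (mem_cons (W13 D T h) (mem_cons (W3402 D T h) (mem_cons (W3404 D T h) (mem_cons (W3405 D T h) mem_nil)))))))))))))))) cl786
theorem W3408 : WFK w3408 := fun D T h => wf_of_chk h mem_nil (mem_cons (L786 D T h) mem_nil) cw3408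
theorem L787 : LFK l787 := fun D T h => lf_of_chk h (mem_cons (W710 D T h) mem_nil) cl787
theorem W3409 : WFK w3409 := fun D T h => wf_of_chk h mem_nil (mem_cons (L787 D T h) mem_nil) cw3409
theorem L788 : LFK l788 := fun D T h => lf_of_chk h (mem_cons (W209 D T h) (mem_cons (W16 D T h) (mem_cons (W2914 D T h) (mem_cons (W15 D T h) (mem_cons (W220 D T h) (mem_cons (W17 D T h) (mem_cons (W659 D T h) (mem_cons (W2919 D T h) (mem_cons (W93 D T h) (mem_cons (W86 D T h) (mem_cons (W2628 D T h) (mem_cons (W2621 D T h) (mem_cons (W2629 D T h) (mem_cons (W2101 D T h) (mem_cons (W2620 D T h) (mem_cons (W3409 D T h) (mem_cons (W1640 D T h) (mem_cons (W505 D T h) (mem_cons (W1398 D T h) mem_nil))))))))))))))))))) cl788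
theorem W3410 : WFK w3410 := fun D T h => wf_of_chk h mem_nil (mem_cons (L788 D T h) mem_nil) cw3410
theorem W3411 : WFK w3411 := fun D T h => wf_of_chk h (mem_cons (W761 D T h) mem_nil) mem_nil cw3411
theorem L789 : LFK l789 := fun D T h => lf_of_chk h (mem_cons (W1355 D T h) (mem_cons (W56 D T h) (mem_cons (W80 D T h) (mem_cons (W91 D T h) (mem_cons (W142 D T h) (mem_cons (W3274 D T h) (mem_cons (W2448 D T h) (mem_cons (W1401 D T h) (mem_cons (W2478 D T h) (mem_cons (W815 D T h) (mem_cons (W912 D T h) (mem_cons (W2481 D T h) (mem_cons (W848 D T h) (mem_cons (W3411 D T h) (mem_cons (W293 D T h) (mem_cons (W3276 D T h) mem_nil)))))))))))))))) cl789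
theorem W3412 : WFK w3412 := fun D T h => wf_of_chk h mem_nil (mem_cons (L789 D T h) mem_nil) cw3412
theorem L790 : LFK l790 := fun D T h => lf_of_chk h (mem_cons (W1 D T h) (mem_cons (W158 D T h) (mem_cons (W4 D T h) (mem_cons (W10 D T h) (mem_cons (W109 D T h) (mem_cons (W1994 D T h) (mem_cons (W819 D T h) (mem_cons (W161 D T h) (mem_cons (W1535 D T h) (mem_cons (W91 D T h) (mem_cons (W1030 D T h) mem_nil))))))))))) cl790
theorem W3413 : WFK w3413 := fun D T h => wf_of_chk h mem_nil (mem_cons (L790 D T h) mem_nil) cw3413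
theorem L791 : LFK l791 := fun D T h => lf_of_chk h (mem_cons (W125 D T h) mem_nil) cl791
theorem W3414 : WFK w3414 := fun D T h => wf_of_chk h mem_nil (mem_cons (L791 D T h) mem_nil) cw3414
theorem L793 : LFK l793 := fun D T h => lf_of_chk h (mem_cons (W1529 D T h) (mem_cons (W44 D T h) (mem_cons (W15 D T h) (mem_cons (W210 D T h) (mem_cons (W500 D T h) (mem_cons (W918 D T h) (mem_cons (W11 D T h) mem_nil))))))) cl793
theorem W3416 : WFK w3416 := fun D T h => wf_of_chk h mem_nil (mem_cons (L793 D T h) mem_nil) cw3416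
theorem W3421 : WFK w3421 := fun D T h => wf_of_chk h mem_nil (mem_cons (L240 D T h) mem_nil) cw3421
theorem W3423 : WFK w3423 := fun D T h => wf_of_chk h mem_nil (mem_cons (L28 D T h) mem_nil) cw3423
theorem W3424 : WFK w3424 := fun D T h => wf_of_chk h mem_nil (mem_cons (L23 D T h) mem_nil) cw3424
theorem W3425 : WFK w3425 := fun D T h => wf_of_chk h mem_nil (mem_cons (L553 D T h) mem_nil) cw3425
theorem L795 : LFK l795 := fun D T h => lf_of_chk h (mem_cons (W1101 D T h) mem_nil) cl795
theorem W3426 : WFK w3426 := fun D T h => wf_of_chk h mem_nil (mem_cons (L795 D T h) mem_nil) cw3426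
theorem W3427 : WFK w3427 := fun D T h => wf_of_chk h mem_nil (mem_cons (L795 D T h) mem_nil) cw3427
theorem L796 : LFK l796 := fun D T h => lf_of_chk h (mem_cons (W3413 D T h) (mem_cons (W3016 D T h) (mem_cons (W1 D T h) (mem_cons (W203 D T h) (mem_cons (W2913 D T h) (mem_cons (W69 D T h) (mem_cons (W3414 D T h) (mem_cons (W1640 D T h) (mem_cons (W3427 D T h) (mem_cons (W1031 D T h) (mem_cons (W3423 D T h) (mem_cons (W3424 D T h) (mem_cons (W949 D T h) (mem_cons (W3425 D T h) (mem_cons (W3426 D T h) mem_nil))))))))))))))) cl796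
theorem W3428 : WFK w3428 := fun D T h => wf_of_chk h mem_nil (mem_cons (L796 D T h) mem_nil) cw3428
theorem W3429 : WFK w3429 := fun D T h => wf_of_chk h mem_nil (mem_cons (L116 D T h) mem_nil) cw3429
theorem W3430 : WFK w3430 := fun D T h => wf_of_chk h mem_nil (mem_cons (L106 D T h) mem_nil) cw3430
theorem L797 : LFK l797 := fun D T h => lf_of_chk h (mem_cons (W209 D T h) (mem_cons (W3412 D T h) (mem_cons (W2914 D T h) (mem_cons (W15 D T h) (mem_cons (W220 D T h) (mem_cons (W17 D T h) (mem_cons (W659 D T h) (mem_cons (W2919 D T h) (mem_cons (W1501 D T h) (mem_cons (W86 D T h) (mem_cons (W2628 D T h) (mem_cons (W2629 D T h) (mem_cons (W2554 D T h) (mem_cons (W2532 D T h) (mem_cons (W2627 D T h) (mem_cons (W3428 D T h) (mem_cons (W3185 D T h) (mem_cons (W3429 D T h) (mem_cons (W3430 D T h) mem_nil))))))))))))))))))) cl797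
theorem W3431 : WFK w3431 := fun D T h => wf_of_chk h mem_nil (mem_cons (L797 D T h) mem_nil) cw3431
theorem W3432 : WFK w3432 := fun D T h => wf_of_chk h (mem_cons (W177 D T h) (mem_cons (W23 D T h) mem_nil)) mem_nil cw3432
theorem W3433 : WFK w3433 := fun D T h => wf_of_chk h (mem_cons (W16 D T h) mem_nil) mem_nil cw3433
theorem W3434 : WFK w3434 := fun D T h => wf_of_chk h mem_nil (mem_cons (L294 D T h) mem_nil) cw3434
theorem W3435 : WFK w3435 := fun D T h => wf_of_chk h (mem_cons (W17 D T h) (mem_cons (W177 D T h) mem_nil)) mem_nil cw3435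
theorem W3436 : WFK w3436 := fun D T h => wf_of_chk h (mem_cons (W80 D T h) (mem_cons (W16 D T h) mem_nil)) mem_nil cw3436
theorem L798 : LFK l798 := fun D T h => lf_of_chk h (mem_cons (W1949 D T h) (mem_cons (W808 D T h) (mem_cons (W809 D T h) (mem_cons (W1 D T h) (mem_cons (W7 D T h) (mem_cons (W248 D T h) (mem_cons (W811 D T h) (mem_cons (W604 D T h) (mem_cons (W603 D T h) (mem_cons (W1947 D T h) (mem_cons (W1114 D T h) (mem_cons (W889 D T h) mem_nil)))))))))))) cl798
theorem W3437 : WFK w3437 := fun D T h => wf_of_chk h mem_nil (mem_cons (L798 D T h) mem_nil) cw3437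
theorem L799 : LFK l799 := fun D T h => lf_of_chk h (mem_cons (W795 D T h) (mem_cons (W808 D T h) (mem_cons (W1 D T h) (mem_cons (W7 D T h) (mem_cons (W248 D T h) (mem_cons (W834 D T h) (mem_cons (W604 D T h) (mem_cons (W603 D T h) (mem_cons (W1118 D T h) (mem_cons (W1947 D T h) (mem_cons (W889 D T h) (mem_cons (W825 D T h) mem_nil)))))))))))) cl799
theorem W3438 : WFK w3438 := fun D T h => wf_of_chk h mem_nil (mem_cons (L799 D T h) mem_nil) cw3438
theorem L800 : LFK l800 := fun D T h => lf_of_chk h (mem_cons (W17 D T h) (mem_cons (W158 D T h) (mem_cons (W105 D T h) (mem_cons (W202 D T h) (mem_cons (W203 D T h) (mem_cons (W740 D T h) (mem_cons (W3 D T h) (mem_cons (W2142 D T h) mem_nil)))))))) cl800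
theorem W3439 : WFK w3439 := fun D T h => wf_of_chk h mem_nil (mem_cons (L800 D T h) mem_nil) cw3439
theorem W3440 : WFK w3440 := fun D T h => wf_of_chk h mem_nil (mem_cons (L800 D T h) mem_nil) cw3440
theorem W3441 : WFK w3441 := fun D T h => wf_of_chk h mem_nil (mem_cons (L800 D T h) mem_nil) cw3441
theorem L801 : LFK l801 := fun D T h => lf_of_chk h (mem_cons (W1408 D T h) (mem_cons (W17 D T h) (mem_cons (W16 D T h) (mem_cons (W158 D T h) (mem_cons (W105 D T h) (mem_cons (W3439 D T h) (mem_cons (W3440 D T h) (mem_cons (W24 D T h) (mem_cons (W3441 D T h) (mem_cons (W3437 D T h) (mem_cons (W3438 D T h) (mem_cons (W3 D T h) (mem_cons (W1448 D T h) (mem_cons (W1449 D T h) mem_nil)))))))))))))) cl801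
theorem W3442 : WFK w3442 := fun D T h => wf_of_chk h mem_nil (mem_cons (L801 D T h) mem_nil) cw3442
theorem W3443 : WFK w3443 := fun D T h => wf_of_chk h mem_nil (mem_cons (L760 D T h) mem_nil) cw3443
theorem L802 : LFK l802 := fun D T h => lf_of_chk h (mem_cons (W795 D T h) (mem_cons (W808 D T h) (mem_cons (W1 D T h) (mem_cons (W211 D T h) (mem_cons (W2204 D T h) (mem_cons (W830 D T h) (mem_cons (W827 D T h) (mem_cons (W831 D T h) (mem_cons (W604 D T h) (mem_cons (W603 D T h) (mem_cons (W1047 D T h) mem_nil))))))))))) cl802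
theorem W3444 : WFK w3444 := fun D T h => wf_of_chk h mem_nil (mem_cons (L802 D T h) mem_nil) cw3444
theorem L803 : LFK l803 := fun D T h => lf_of_chk h (mem_cons (W795 D T h) (mem_cons (W808 D T h) (mem_cons (W1 D T h) (mem_cons (W8 D T h) (mem_cons (W617 D T h) (mem_cons (W834 D T h) (mem_cons (W604 D T h) (mem_cons (W603 D T h) (mem_cons (W1104 D T h) mem_nil))))))))) cl803
theorem W3445 : WFK w3445 := fun D T h => wf_of_chk h mem_nil (mem_cons (L803 D T h) mem_nil) cw3445
theorem W3446 : WFK w3446 := fun D T h => wf_of_chk h mem_nil (mem_cons (L156 D T h) mem_nil) cw3446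
theorem W3447 : WFK w3447 := fun D T h => wf_of_chk h mem_nil (mem_cons (L156 D T h) mem_nil) cw3447
theorem L804 : LFK l804 := fun D T h => lf_of_chk h (mem_cons (W1408 D T h) (mem_cons (W17 D T h) (mem_cons (W16 D T h) (mem_cons (W91 D T h) (mem_cons (W80 D T h) (mem_cons (W3446 D T h) (mem_cons (W3447 D T h) (mem_cons (W24 D T h) (mem_cons (W2307 D T h) (mem_cons (W3444 D T h) (mem_cons (W3445 D T h) (mem_cons (W3 D T h) (mem_cons (W1448 D T h) (mem_cons (W1449 D T h) mem_nil)))))))))))))) cl804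
theorem W3448 : WFK w3448 := fun D T h => wf_of_chk h mem_nil (mem_cons (L804 D T h) mem_nil) cw3448
theorem W3449 : WFK w3449 := fun D T h => wf_of_chk h (mem_cons (W495 D T h) (mem_cons (W23 D T h) mem_nil)) mem_nil cw3449
theorem W3450 : WFK w3450 := fun D T h => wf_of_chk h (mem_cons (W495 D T h) (mem_cons (W23 D T h) mem_nil)) mem_nil cw3450
theorem W3451 : WFK w3451 := fun D T h => wf_of_chk h (mem_cons (W497 D T h) (mem_cons (W23 D T h) mem_nil)) mem_nil cw3451
theorem L805 : LFK l805 := fun D T h => lf_of_chk h (mem_cons (W1528 D T h) (mem_cons (W16 D T h) (mem_cons (W216 D T h) (mem_cons (W1271 D T h) mem_nil)))) cl805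
theorem W3452 : WFK w3452 := fun D T h => wf_of_chk h mem_nil (mem_cons (L805 D T h) mem_nil) cw3452
theorem L806 : LFK l806 := fun D T h => lf_of_chk h (mem_cons (W3274 D T h) (mem_cons (W177 D T h) (mem_cons (W3207 D T h) (mem_cons (W3452 D T h) (mem_cons (W397 D T h) (mem_cons (W1101 D T h) (mem_cons (W2686 D T h) (mem_cons (W603 D T h) (mem_cons (W629 D T h) (mem_cons (W520 D T h) (mem_cons (W12 D T h) mem_nil))))))))))) cl806
theorem W3453 : WFK w3453 := fun D T h => wf_of_chk h mem_nil (mem_cons (L806 D T h) mem_nil) cw3453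
theorem L807 : LFK l807 := fun D T h => lf_of_chk h (mem_cons (W92 D T h) (mem_cons (W80 D T h) (mem_cons (W216 D T h) (mem_cons (W3299 D T h) (mem_cons (W87 D T h) (mem_cons (W88 D T h) (mem_cons (W89 D T h) (mem_cons (W90 D T h) mem_nil)))))))) cl807
theorem W3454 : WFK w3454 := fun D T h => wf_of_chk h mem_nil (mem_cons (L807 D T h) mem_nil) cw3454
theorem W3455 : WFK w3455 := fun D T h => wf_of_chk h mem_nil (mem_cons (L722 D T h) mem_nil) cw3455
theorem W3456 : WFK w3456 := fun D T h => wf_of_chk h (mem_cons (W20 D T h) (mem_cons (W177 D T h) mem_nil)) mem_nil cw3456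
theorem L808 : LFK l808 := fun D T h => lf_of_chk h (mem_cons (W830 D T h) (mem_cons (W177 D T h) (mem_cons (W809 D T h) (mem_cons (W91 D T h) (mem_cons (W4 D T h) (mem_cons (W33 D T h) (mem_cons (W646 D T h) (mem_cons (W904 D T h) (mem_cons (W6 D T h) (mem_cons (W812 D T h) (mem_cons (W2572 D T h) (mem_cons (W814 D T h) (mem_cons (W816 D T h) (mem_cons (W818 D T h) (mem_cons (W879 D T h) (mem_cons (W821 D T h) (mem_cons (W632 D T h) mem_nil))))))))))))))))) cl808
theorem W3457 : WFK w3457 := fun D T h => wf_of_chk h mem_nil (mem_cons (L808 D T h) mem_nil) cw3457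
theorem L809 : LFK l809 := fun D T h => lf_of_chk h (mem_cons (W830 D T h) (mem_cons (W177 D T h) (mem_cons (W809 D T h) (mem_cons (W158 D T h) (mem_cons (W4 D T h) (mem_cons (W33 D T h) (mem_cons (W646 D T h) (mem_cons (W904 D T h) (mem_cons (W7 D T h) (mem_cons (W1072 D T h) (mem_cons (W2572 D T h) (mem_cons (W1074 D T h) (mem_cons (W816 D T h) (mem_cons (W1076 D T h) (mem_cons (W1093 D T h) (mem_cons (W821 D T h) (mem_cons (W632 D T h) mem_nil))))))))))))))))) cl809
theorem W3458 : WFK w3458 := fun D T h => wf_of_chk h mem_nil (mem_cons (L809 D T h) mem_nil) cw3458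
theorem W3459 : WFK w3459 := fun D T h => wf_of_chk h mem_nil (mem_cons (L640 D T h) mem_nil) cw3459
theorem W3460 : WFK w3460 := fun D T h => wf_of_chk h (mem_cons (W161 D T h) (mem_cons (W3207 D T h) mem_nil)) mem_nil cw3460
theorem L810 : LFK l810 := fun D T h => lf_of_chk h (mem_cons (W632 D T h) (mem_cons (W808 D T h) (mem_cons (W906 D T h) (mem_cons (W91 D T h) (mem_cons (W811 D T h) (mem_cons (W80 D T h) (mem_cons (W1949 D T h) (mem_cons (W281 D T h) (mem_cons (W4 D T h) (mem_cons (W33 D T h) (mem_cons (W604 D T h) (mem_cons (W603 D T h) (mem_cons (W858 D T h) (mem_cons (W2572 D T h) mem_nil)))))))))))))) cl810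
theorem W3461 : WFK w3461 := fun D T h => wf_of_chk h mem_nil (mem_cons (L810 D T h) mem_nil) cw3461
theorem L811 : LFK l811 := fun D T h => lf_of_chk h (mem_cons (W1065 D T h) (mem_cons (W177 D T h) (mem_cons (W3207 D T h) (mem_cons (W1 D T h) (mem_cons (W2448 D T h) (mem_cons (W3454 D T h) (mem_cons (W1070 D T h) (mem_cons (W3457 D T h) (mem_cons (W3458 D T h) (mem_cons (W519 D T h) (mem_cons (W3459 D T h) (mem_cons (W3455 D T h) (mem_cons (W3456 D T h) (mem_cons (W1109 D T h) (mem_cons (W3274 D T h) (mem_cons (W3120 D T h) (mem_cons (W3460 D T h) (mem_cons (W1125 D T h) (mem_cons (W3461 D T h) (mem_cons (W795 D T h) (mem_cons (W1108 D T h) mem_nil))))))))))))))))))))) cl811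
theorem W3462 : WFK w3462 := fun D T h => wf_of_chk h mem_nil (mem_cons (L811 D T h) mem_nil) cw3462
theorem W3463 : WFK w3463 := fun D T h => wf_of_chk h mem_nil (mem_cons (L806 D T h) mem_nil) cw3463
theorem W3464 : WFK w3464 := fun D T h => wf_of_chk h (mem_cons (W1449 D T h) (mem_cons (W177 D T h) mem_nil)) mem_nil cw3464
theorem W3465 : WFK w3465 := fun D T h => wf_of_chk h (mem_cons (W1449 D T h) (mem_cons (W177 D T h) mem_nil)) mem_nil cw3465
theorem W3466 : WFK w3466 := fun D T h => wf_of_chk h mem_nil (mem_cons (L760 D T h) mem_nil) cw3466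
theorem W3467 : WFK w3467 := fun D T h => wf_of_chk h mem_nil (mem_cons (L718 D T h) mem_nil) cw3467
theorem W3468 : WFK w3468 := fun D T h => wf_of_chk h (mem_cons (W1408 D T h) (mem_cons (W177 D T h) mem_nil)) mem_nil cw3468
theorem W3469 : WFK w3469 := fun D T h => wf_of_chk h (mem_cons (W16 D T h) (mem_cons (W3434 D T h) mem_nil)) mem_nil cw3469
theorem W3470 : WFK w3470 := fun D T h => wf_of_chk h (mem_cons (W16 D T h) (mem_cons (W3434 D T h) mem_nil)) mem_nil cw3470
theorem W3471 : WFK w3471 := fun D T h => wf_of_chk h (mem_cons (W508 D T h) (mem_cons (W23 D T h) mem_nil)) mem_nil cw3471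
theorem W3472 : WFK w3472 := fun D T h => wf_of_chk h (mem_cons (W16 D T h) (mem_cons (W3436 D T h) mem_nil)) mem_nil cw3472
theorem L812 : LFK l812 := fun D T h => lf_of_chk h (mem_cons (W432 D T h) (mem_cons (W158 D T h) (mem_cons (W1928 D T h) (mem_cons (W3024 D T h) (mem_cons (W3121 D T h) (mem_cons (W150 D T h) mem_nil)))))) cl812
theorem W3473 : WFK w3473 := fun D T h => wf_of_chk h mem_nil (mem_cons (L812 D T h) mem_nil) cw3473
theorem L813 : LFK l813 := fun D T h => lf_of_chk h (mem_cons (W3473 D T h) mem_nil) cl813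
theorem W3474 : WFK w3474 := fun D T h => wf_of_chk h mem_nil (mem_cons (L813 D T h) mem_nil) cw3474
theorem W3475 : WFK w3475 := fun D T h => wf_of_chk h (mem_cons (W3207 D T h) mem_nil) mem_nil cw3475
theorem W3476 : WFK w3476 := fun D T h => wf_of_chk h mem_nil (mem_cons (L806 D T h) mem_nil) cw3476
theorem W3477 : WFK w3477 := fun D T h => wf_of_chk h mem_nil (mem_cons (L481 D T h) mem_nil) cw3477
theorem L814 : LFK l814 := fun D T h => lf_of_chk h (mem_cons (W3274 D T h) mem_nil) cl814
theorem W3478 : WFK w3478 := fun D T h => wf_of_chk h mem_nil (mem_cons (L814 D T h) mem_nil) cw3478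
theorem W3479 : WFK w3479 := fun D T h => wf_of_chk h (mem_cons (W203 D T h) mem_nil) mem_nil cw3479
theorem W3480 : WFK w3480 := fun D T h => wf_of_chk h (mem_cons (W203 D T h) mem_nil) mem_nil cw3480
theorem L815 : LFK l815 := fun D T h => lf_of_chk h (mem_cons (W1528 D T h) (mem_cons (W203 D T h) (mem_cons (W16 D T h) (mem_cons (W3479 D T h) (mem_cons (W3480 D T h) mem_nil))))) cl815
theorem W3481 : WFK w3481 := fun D T h => wf_of_chk h mem_nil (mem_cons (L815 D T h) mem_nil) cw3481
theorem W3482 : WFK w3482 := fun D T h => wf_of_chk h mem_nil (mem_cons (L116 D T h) mem_nil) cw3482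
theorem W3483 : WFK w3483 := fun D T h => wf_of_chk h mem_nil (mem_cons (L814 D T h) mem_nil) cw3483
theorem L816 : LFK l816 := fun D T h => lf_of_chk h (mem_cons (W3132 D T h) (mem_cons (W3280 D T h) (mem_cons (W3453 D T h) (mem_cons (W3207 D T h) (mem_cons (W17 D T h) (mem_cons (W177 D T h) (mem_cons (W1255 D T h) (mem_cons (W1256 D T h) (mem_cons (W3483 D T h) (mem_cons (W3481 D T h) (mem_cons (W3413 D T h) (mem_cons (W3328 D T h) (mem_cons (W3482 D T h) (mem_cons (W3329 D T h) (mem_cons (W3475 D T h) (mem_cons (W3476 D T h) (mem_cons (W757 D T h) (mem_cons (W495 D T h) (mem_cons (W3477 D T h) (mem_cons (W3478 D T h) mem_nil)))))))))))))))))))) cl816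
theorem W3484 : WFK w3484 := fun D T h => wf_of_chk h mem_nil (mem_cons (L816 D T h) mem_nil) cw3484
theorem W3485 : WFK w3485 := fun D T h => wf_of_chk h mem_nil (mem_cons (L816 D T h) mem_nil) cw3485
theorem W3486 : WFK w3486 := fun D T h => wf_of_chk h mem_nil (mem_cons (L816 D T h) mem_nil) cw3486
theorem L817 : LFK l817 := fun D T h => lf_of_chk h (mem_cons (W3432 D T h) (mem_cons (W177 D T h) (mem_cons (W3207 D T h) (mem_cons (W16 D T h) (mem_cons (W3280 D T h) (mem_cons (W3453 D T h) (mem_cons (W3474 D T h) (mem_cons (W3132 D T h) (mem_cons (W3484 D T h) (mem_cons (W3485 D T h) (mem_cons (W50 D T h) (mem_cons (W3486 D T h) (mem_cons (W3462 D T h) (mem_cons (W3463 D T h) (mem_cons (W716 D T h) (mem_cons (W3304 D T h) (mem_cons (W3305 D T h) (mem_cons (W3464 D T h) (mem_cons (W3465 D T h) (mem_cons (W1408 D T h) (mem_cons (W3435 D T h) (mem_cons (W1640 D T h) (mem_cons (W3466 D T h) (mem_cons (W3467 D T h) (mem_cons (W3323 D T h) (mem_cons (W3468 D T h) (mem_cons (W3433 D T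 h) (mem_cons (W3434 D T h) (mem_cons (W3436 D T h) (mem_cons (W3442 D T h) (mem_cons (W3443 D T h) (mem_cons (W3469 D T h) (mem_cons (W3470 D T h) (mem_cons (W3471 D T h) (mem_cons (W2219 D T h) (mem_cons (W3472 D T h) (mem_cons (W3448 D T h) (mem_cons (W721 D T h) (mem_cons (W2378 D T h) (mem_cons (W1144 D T h) (mem_cons (W3449 D T h) (mem_cons (W3450 D T h) (mem_cons (W3451 D T h) mem_nil))))))))))))))))))))))))))))))))))))))))))) cl817
theorem W3487 : WFK w3487 := fun D T h => wf_of_chk h mem_nil (mem_cons (L817 D T h) mem_nil) cw3487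
theorem W3488 : WFK w3488 := fun D T h => wf_of_chk h (mem_cons (W3412 D T h) (mem_cons (W16 D T h) mem_nil)) mem_nil cw3488
theorem L818 : LFK l818 := fun D T h => lf_of_chk h (mem_cons (W831 D T h) (mem_cons (W32 D T h) (mem_cons (W410 D T h) (mem_cons (W414 D T h) mem_nil)))) cl818
theorem W3490 : WFK w3490 := fun D T h => wf_of_chk h mem_nil (mem_cons (L818 D T h) mem_nil) cw3490
theorem W3491 : WFK w3491 := fun D T h => wf_of_chk h mem_nil (mem_cons (L100 D T h) mem_nil) cw3491
theorem L819 : LFK l819 := fun D T h => lf_of_chk h (mem_cons (W1408 D T h) (mem_cons (W17 D T h) (mem_cons (W16 D T h) (mem_cons (W397 D T h) (mem_cons (W3359 D T h) (mem_cons (W3490 D T h) (mem_cons (W3491 D T h) (mem_cons (W1448 D T h) (mem_cons (W1449 D T h) mem_nil))))))))) cl819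
theorem W3498 : WFK w3498 := fun D T h => wf_of_chk h mem_nil (mem_cons (L55 D T h) mem_nil) cw3498
theorem W3501 : WFK w3501 := fun D T h => wf_of_chk h mem_nil (mem_cons (L777 D T h) mem_nil) cw3501
theorem W3502 : WFK w3502 := fun D T h => wf_of_chk h mem_nil (mem_cons (L777 D T h) mem_nil) cw3502
theorem W3503 : WFK w3503 := fun D T h => wf_of_chk h mem_nil (mem_cons (L781 D T h) mem_nil) cw3503
theorem W3504 : WFK w3504 := fun D T h => wf_of_chk h mem_nil (mem_cons (L782 D T h) mem_nil) cw3504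
theorem W3505 : WFK w3505 := fun D T h => wf_of_chk h (mem_cons (W368 D T h) (mem_cons (W16 D T h) mem_nil)) mem_nil cw3505
theorem W3506 : WFK w3506 := fun D T h => wf_of_chk h mem_nil (mem_cons (L819 D T h) mem_nil) cw3506
theorem L822 : LFK l822 := fun D T h => lf_of_chk h (mem_cons (W1291 D T h) (mem_cons (W3125 D T h) (mem_cons (W3352 D T h) (mem_cons (W14 D T h) (mem_cons (W3410 D T h) (mem_cons (W3505 D T h) (mem_cons (W1309 D T h) (mem_cons (W3506 D T h) (mem_cons (W1408 D T h) (mem_cons (W3431 D T h) (mem_cons (W3487 D T h) (mem_cons (W3488 D T h) (mem_cons (W2254 D T h) (mem_cons (W3501 D T h) (mem_cons (W3502 D T h) (mem_cons (W3503 D T h) (mem_cons (W3504 D T h) (mem_cons (W3397 D T h) (mem_cons (W3399 D T h) (mem_cons (W42 D T h) (mem_cons (W3304 D T h) (mem_cons (W3305 D T h) (mem_cons (W3408 D T h) (mem_cons (W508 D T h) (mem_cons (W3353 D T h) (mem_cons (W3354 D T h) (mem_cons (W50 D T h) (mem_cons (W3389 D T h) (mem_cons (W2997 D T h) (mem_cons (W3395 D T h) (mem_cons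 (W3396 D T h) mem_nil))))))))))))))))))))))))))))))) cl822
theorem W3507 : WFK w3507 := fun D T h => wf_of_chk h mem_nil (mem_cons (L822 D T h) mem_nil) cw3507
theorem W3508 : WFK w3508 := fun D T h => wf_of_chk h (mem_cons (W2994 D T h) (mem_cons (W37 D T h) mem_nil)) mem_nil cw3508
theorem W3509 : WFK w3509 := fun D T h => wf_of_chk h (mem_cons (W2997 D T h) (mem_cons (W37 D T h) mem_nil)) mem_nil cw3509
theorem W3510 : WFK w3510 := fun D T h => wf_of_chk h (mem_cons (W1318 D T h) (mem_cons (W37 D T h) mem_nil)) mem_nil cw3510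
theorem W3511 : WFK w3511 := fun D T h => wf_of_chk h mem_nil (mem_cons (L552 D T h) mem_nil) cw3511
theorem W3512 : WFK w3512 := fun D T h => wf_of_chk h (mem_cons (W34 D T h) (mem_cons (W37 D T h) mem_nil)) mem_nil cw3512
theorem W3513 : WFK w3513 := fun D T h => wf_of_chk h (mem_cons (W710 D T h) (mem_cons (W37 D T h) mem_nil)) mem_nil cw3513
theorem W3514 : WFK w3514 := fun D T h => wf_of_chk h (mem_cons (W909 D T h) (mem_cons (W37 D T h) mem_nil)) mem_nil cw3514
theorem W3515 : WFK w3515 := fun D T h => wf_of_chk h mem_nil (mem_cons (L245 D T h) mem_nil) cw3515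
theorem W3516 : WFK w3516 := fun D T h => wf_of_chk h (mem_cons (W3515 D T h) (mem_cons (W37 D T h) mem_nil)) mem_nil cw3516
theorem W3517 : WFK w3517 := fun D T h => wf_of_chk h (mem_cons (W3035 D T h) (mem_cons (W37 D T h) mem_nil)) mem_nil cw3517
theorem L823 : LFK l823 := fun D T h => lf_of_chk h (mem_cons (W802 D T h) (mem_cons (W709 D T h) (mem_cons (W5 D T h) (mem_cons (W278 D T h) (mem_cons (W831 D T h) (mem_cons (W315 D T h) (mem_cons (W815 D T h) (mem_cons (W922 D T h) (mem_cons (W174 D T h) (mem_cons (W2671 D T h) mem_nil)))))))))) cl823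
theorem W3518 : WFK w3518 := fun D T h => wf_of_chk h mem_nil (mem_cons (L823 D T h) mem_nil) cw3518
theorem W3519 : WFK w3519 := fun D T h => wf_of_chk h (mem_cons (W3518 D T h) (mem_cons (W37 D T h) mem_nil)) mem_nil cw3519
theorem W3520 : WFK w3520 := fun D T h => wf_of_chk h (mem_cons (W3400 D T h) (mem_cons (W37 D T h) mem_nil)) mem_nil cw3520
theorem W3521 : WFK w3521 := fun D T h => wf_of_chk h mem_nil (mem_cons (L295 D T h) mem_nil) cw3521
theorem W3522 : WFK w3522 := fun D T h => wf_of_chk h (mem_cons (W16 D T h) (mem_cons (W489 D T h) mem_nil)) mem_nil cw3522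
theorem W3523 : WFK w3523 := fun D T h => wf_of_chk h mem_nil (mem_cons (L777 D T h) mem_nil) cw3523
theorem W3524 : WFK w3524 := fun D T h => wf_of_chk h (mem_cons (W1322 D T h) (mem_cons (W489 D T h) mem_nil)) mem_nil cw3524
theorem W3525 : WFK w3525 := fun D T h => wf_of_chk h (mem_cons (W1327 D T h) (mem_cons (W489 D T h) mem_nil)) mem_nil cw3525
theorem W3526 : WFK w3526 := fun D T h => wf_of_chk h (mem_cons (W1327 D T h) (mem_cons (W489 D T h) mem_nil)) mem_nil cw3526
theorem W3527 : WFK w3527 := fun D T h => wf_of_chk h (mem_cons (W284 D T h) (mem_cons (W489 D T h) mem_nil)) mem_nil cw3527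
theorem W3528 : WFK w3528 := fun D T h => wf_of_chk h mem_nil (mem_cons (L14 D T h) mem_nil) cw3528
theorem W3531 : WFK w3531 := fun D T h => wf_of_chk h mem_nil (mem_cons (L777 D T h) mem_nil) cw3531
theorem W3532 : WFK w3532 := fun D T h => wf_of_chk h (mem_cons (W726 D T h) mem_nil) mem_nil cw3532
theorem W3533 : WFK w3533 := fun D T h => wf_of_chk h (mem_cons (W175 D T h) mem_nil) mem_nil cw3533
theorem W3534 : WFK w3534 := fun D T h => wf_of_chk h mem_nil (mem_cons (L762 D T h) mem_nil) cw3534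
theorem W3535 : WFK w3535 := fun D T h => wf_of_chk h mem_nil (mem_cons (L762 D T h) mem_nil) cw3535
theorem L824 : LFK l824 := fun D T h => lf_of_chk h (mem_cons (W3335 D T h) (mem_cons (W91 D T h) (mem_cons (W80 D T h) (mem_cons (W50 D T h) (mem_cons (W17 D T h) (mem_cons (W3532 D T h) (mem_cons (W3533 D T h) (mem_cons (W3 D T h) (mem_cons (W3534 D T h) (mem_cons (W3535 D T h) (mem_cons (W2136 D T h) (mem_cons (W994 D T h) (mem_cons (W3447 D T h) (mem_cons (W24 D T h) (mem_cons (W2307 D T h) (mem_cons (W3446 D T h) (mem_cons (W42 D T h) mem_nil))))))))))))))))) cl824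
theorem W3536 : WFK w3536 := fun D T h => wf_of_chk h mem_nil (mem_cons (L824 D T h) mem_nil) cw3536
theorem W3538 : WFK w3538 := fun D T h => wf_of_chk h (mem_cons (W2994 D T h) (mem_cons (W799 D T h) mem_nil)) mem_nil cw3538
theorem W3539 : WFK w3539 := fun D T h => wf_of_chk h (mem_cons (W2326 D T h) (mem_cons (W799 D T h) mem_nil)) mem_nil cw3539
theorem W3540 : WFK w3540 := fun D T h => wf_of_chk h (mem_cons (W2997 D T h) (mem_cons (W799 D T h) mem_nil)) mem_nil cw3540
theorem W3541 : WFK w3541 := fun D T h => wf_of_chk h (mem_cons (W1318 D T h) (mem_cons (W799 D T h) mem_nil)) mem_nil cw3541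
theorem W3542 : WFK w3542 := fun D T h => wf_of_chk h (mem_cons (W933 D T h) (mem_cons (W489 D T h) mem_nil)) mem_nil cw3542
theorem L825 : LFK l825 := fun D T h => lf_of_chk h (mem_cons (W261 D T h) (mem_cons (W219 D T h) (mem_cons (W1554 D T h) (mem_cons (W15 D T h) (mem_cons (W2521 D T h) (mem_cons (W3193 D T h) (mem_cons (W1348 D T h) (mem_cons (W3195 D T h) (mem_cons (W170 D T h) mem_nil))))))))) cl825
theorem W3543 : WFK w3543 := fun D T h => wf_of_chk h mem_nil (mem_cons (L825 D T h) mem_nil) cw3543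
theorem W3544 : WFK w3544 := fun D T h => wf_of_chk h (mem_cons (W2027 D T h) (mem_cons (W489 D T h) mem_nil)) mem_nil cw3544
theorem W3545 : WFK w3545 := fun D T h => wf_of_chk h (mem_cons (W2027 D T h) (mem_cons (W489 D T h) mem_nil)) mem_nil cw3545
theorem W3546 : WFK w3546 := fun D T h => wf_of_chk h (mem_cons (W2027 D T h) (mem_cons (W489 D T h) mem_nil)) mem_nil cw3546
theorem W3547 : WFK w3547 := fun D T h => wf_of_chk h (mem_cons (W2800 D T h) (mem_cons (W37 D T h) mem_nil)) mem_nil cw3547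
theorem W3548 : WFK w3548 := fun D T h => wf_of_chk h (mem_cons (W368 D T h) (mem_cons (W489 D T h) mem_nil)) mem_nil cw3548
theorem L826 : LFK l826 := fun D T h => lf_of_chk h (mem_cons (W1346 D T h) (mem_cons (W803 D T h) (mem_cons (W42 D T h) (mem_cons (W16 D T h) (mem_cons (W2802 D T h) (mem_cons (W2805 D T h) (mem_cons (W3548 D T h) (mem_cons (W431 D T h) (mem_cons (W2795 D T h) (mem_cons (W1348 D T h) (mem_cons (W1347 D T h) (mem_cons (W799 D T h) (mem_cons (W1193 D T h) (mem_cons (W1496 D T h) (mem_cons (W1495 D T h) (mem_cons (W1690 D T h) (mem_cons (W1620 D T h) (mem_cons (W1493 D T h) (mem_cons (W1321 D T h) (mem_cons (W1851 D T h) (mem_cons (W1492 D T h) mem_nil))))))))))))))))))))) cl826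
theorem W3549 : WFK w3549 := fun D T h => wf_of_chk h mem_nil (mem_cons (L826 D T h) mem_nil) cw3549
theorem W3550 : WFK w3550 := fun D T h => wf_of_chk h (mem_cons (W368 D T h) (mem_cons (W489 D T h) mem_nil)) mem_nil cw3550
theorem L827 : LFK l827 := fun D T h => lf_of_chk h (mem_cons (W2768 D T h) (mem_cons (W173 D T h) (mem_cons (W3 D T h) (mem_cons (W924 D T h) (mem_cons (W8 D T h) (mem_cons (W920 D T h) (mem_cons (W1401 D T h) (mem_cons (W1550 D T h) (mem_cons (W1541 D T h) (mem_cons (W1403 D T h) (mem_cons (W4 D T h) (mem_cons (W1531 D T h) mem_nil)))))))))))) cl827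
theorem W3551 : WFK w3551 := fun D T h => wf_of_chk h mem_nil (mem_cons (L827 D T h) mem_nil) cw3551
theorem L828 : LFK l828 := fun D T h => lf_of_chk h (mem_cons (W1346 D T h) (mem_cons (W42 D T h) (mem_cons (W16 D T h) (mem_cons (W3551 D T h) (mem_cons (W2682 D T h) (mem_cons (W431 D T h) (mem_cons (W3550 D T h) (mem_cons (W2795 D T h) (mem_cons (W1347 D T h) (mem_cons (W1348 D T h) (mem_cons (W799 D T h) (mem_cons (W1689 D T h) (mem_cons (W1193 D T h) (mem_cons (W815 D T h) (mem_cons (W1690 D T h) (mem_cons (W2679 D T h) (mem_cons (W2678 D T h) (mem_cons (W1703 D T h) mem_nil)))))))))))))))))) cl828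
theorem W3552 : WFK w3552 := fun D T h => wf_of_chk h mem_nil (mem_cons (L828 D T h) mem_nil) cw3552
theorem W3554 : WFK w3554 := fun D T h => wf_of_chk h (mem_cons (W1211 D T h) (mem_cons (W489 D T h) mem_nil)) mem_nil cw3554
theorem W3555 : WFK w3555 := fun D T h => wf_of_chk h (mem_cons (W1153 D T h) (mem_cons (W489 D T h) mem_nil)) mem_nil cw3555
theorem W3556 : WFK w3556 := fun D T h => wf_of_chk h (mem_cons (W1153 D T h) (mem_cons (W489 D T h) mem_nil)) mem_nil cw3556
theorem W3557 : WFK w3557 := fun D T h => wf_of_chk h (mem_cons (W2042 D T h) (mem_cons (W489 D T h) mem_nil)) mem_nil cw3557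
theorem W3558 : WFK w3558 := fun D T h => wf_of_chk h mem_nil (mem_cons (L173 D T h) mem_nil) cw3558
theorem L829 : LFK l829 := fun D T h => lf_of_chk h (mem_cons (W632 D T h) (mem_cons (W158 D T h) (mem_cons (W1072 D T h) (mem_cons (W7 D T h) (mem_cons (W2572 D T h) (mem_cons (W142 D T h) (mem_cons (W1074 D T h) (mem_cons (W816 D T h) (mem_cons (W821 D T h) (mem_cons (W1076 D T h) (mem_cons (W1093 D T h) (mem_cons (W33 D T h) (mem_cons (W4 D T h) (mem_cons (W808 D T h) (mem_cons (W809 D T h) (mem_cons (W830 D T h) mem_nil)))))))))))))))) cl829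
theorem W3559 : WFK w3559 := fun D T h => wf_of_chk h mem_nil (mem_cons (L829 D T h) mem_nil) cw3559
theorem L830 : LFK l830 := fun D T h => lf_of_chk h (mem_cons (W848 D T h) (mem_cons (W817 D T h) (mem_cons (W4 D T h) (mem_cons (W33 D T h) (mem_cons (W844 D T h) (mem_cons (W6 D T h) (mem_cons (W812 D T h) (mem_cons (W2572 D T h) (mem_cons (W814 D T h) (mem_cons (W845 D T h) (mem_cons (W846 D T h) (mem_cons (W1739 D T h) (mem_cons (W818 D T h) mem_nil))))))))))))) cl830
theorem W3560 : WFK w3560 := fun D T h => wf_of_chk h mem_nil (mem_cons (L830 D T h) mem_nil) cw3560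
theorem L831 : LFK l831 := fun D T h => lf_of_chk h (mem_cons (W795 D T h) (mem_cons (W1 D T h) (mem_cons (W619 D T h) (mem_cons (W604 D T h) (mem_cons (W603 D T h) (mem_cons (W1947 D T h) (mem_cons (W850 D T h) (mem_cons (W3560 D T h) (mem_cons (W2798 D T h) (mem_cons (W91 D T h) (mem_cons (W808 D T h) (mem_cons (W3558 D T h) (mem_cons (W576 D T h) (mem_cons (W3559 D T h) (mem_cons (W2796 D T h) mem_nil))))))))))))))) cl831
theorem W3561 : WFK w3561 := fun D T h => wf_of_chk h mem_nil (mem_cons (L831 D T h) mem_nil) cw3561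
theorem W3562 : WFK w3562 := fun D T h => wf_of_chk h (mem_cons (W3561 D T h) (mem_cons (W37 D T h) mem_nil)) mem_nil cw3562
theorem W3563 : WFK w3563 := fun D T h => wf_of_chk h (mem_cons (W1064 D T h) (mem_cons (W37 D T h) mem_nil)) mem_nil cw3563
theorem W3565 : WFK w3565 := fun D T h => wf_of_chk h mem_nil (mem_cons (L823 D T h) mem_nil) cw3565
theorem W3566 : WFK w3566 := fun D T h => wf_of_chk h mem_nil (mem_cons (L823 D T h) mem_nil) cw3566
theorem W3570 : WFK w3570 := fun D T h => wf_of_chk h (mem_cons (W619 D T h) (mem_cons (W37 D T h) mem_nil)) mem_nil cw3570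
theorem W3571 : WFK w3571 := fun D T h => wf_of_chk h (mem_cons (W16 D T h) (mem_cons (W1528 D T h) mem_nil)) mem_nil cw3571
theorem W3572 : WFK w3572 := fun D T h => wf_of_chk h (mem_cons (W164 D T h) mem_nil) mem_nil cw3572
theorem W3573 : WFK w3573 := fun D T h => wf_of_chk h (mem_cons (W1312 D T h) mem_nil) mem_nil cw3573
theorem W3574 : WFK w3574 := fun D T h => wf_of_chk h (mem_cons (W162 D T h) (mem_cons (W1528 D T h) mem_nil)) mem_nil cw3574
theorem W3575 : WFK w3575 := fun D T h => wf_of_chk h mem_nil (mem_cons (L212 D T h) mem_nil) cw3575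
theorem W3576 : WFK w3576 := fun D T h => wf_of_chk h (mem_cons (W1067 D T h) mem_nil) mem_nil cw3576
theorem W3577 : WFK w3577 := fun D T h => wf_of_chk h (mem_cons (W220 D T h) (mem_cons (W1528 D T h) mem_nil)) mem_nil cw3577
theorem W3578 : WFK w3578 := fun D T h => wf_of_chk h (mem_cons (W220 D T h) (mem_cons (W1528 D T h) mem_nil)) mem_nil cw3578
theorem W3579 : WFK w3579 := fun D T h => wf_of_chk h (mem_cons (W1019 D T h) mem_nil) mem_nil cw3579
theorem W3580 : WFK w3580 := fun D T h => wf_of_chk h (mem_cons (W619 D T h) (mem_cons (W16 D T h) mem_nil)) mem_nil cw3580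
theorem W3581 : WFK w3581 := fun D T h => wf_of_chk h (mem_cons (W267 D T h) mem_nil) mem_nil cw3581
theorem W3582 : WFK w3582 := fun D T h => wf_of_chk h mem_nil (mem_cons (L90 D T h) mem_nil) cw3582
theorem W3583 : WFK w3583 := fun D T h => wf_of_chk h mem_nil (mem_cons (L64 D T h) mem_nil) cw3583
theorem L832 : LFK l832 := fun D T h => lf_of_chk h (mem_cons (W1529 D T h) (mem_cons (W44 D T h) (mem_cons (W8 D T h) (mem_cons (W11 D T h) (mem_cons (W918 D T h) (mem_cons (W500 D T h) (mem_cons (W3583 D T h) (mem_cons (W871 D T h) mem_nil)))))))) cl832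
theorem W3584 : WFK w3584 := fun D T h => wf_of_chk h mem_nil (mem_cons (L832 D T h) mem_nil) cw3584
theorem L833 : LFK l833 := fun D T h => lf_of_chk h (mem_cons (W170 D T h) (mem_cons (W6 D T h) (mem_cons (W11 D T h) (mem_cons (W860 D T h) (mem_cons (W500 D T h) (mem_cons (W870 D T h) mem_nil)))))) cl833
theorem W3585 : WFK w3585 := fun D T h => wf_of_chk h mem_nil (mem_cons (L833 D T h) mem_nil) cw3585
theorem W3586 : WFK w3586 := fun D T h => wf_of_chk h (mem_cons (W2938 D T h) mem_nil) mem_nil cw3586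
theorem W3587 : WFK w3587 := fun D T h => wf_of_chk h (mem_cons (W2381 D T h) mem_nil) mem_nil cw3587
theorem W3588 : WFK w3588 := fun D T h => wf_of_chk h (mem_cons (W2938 D T h) mem_nil) mem_nil cw3588
theorem W3589 : WFK w3589 := fun D T h => wf_of_chk h (mem_cons (W448 D T h) mem_nil) mem_nil cw3589
theorem W3590 : WFK w3590 := fun D T h => wf_of_chk h (mem_cons (W448 D T h) mem_nil) mem_nil cw3590
theorem L834 : LFK l834 := fun D T h => lf_of_chk h (mem_cons (W3571 D T h) (mem_cons (W342 D T h) (mem_cons (W495 D T h) (mem_cons (W1599 D T h) (mem_cons (W16 D T h) (mem_cons (W1528 D T h) (mem_cons (W1448 D T h) (mem_cons (W3572 D T h) (mem_cons (W958 D T h) (mem_cons (W3573 D T h) (mem_cons (W284 D T h) (mem_cons (W2934 D T h) (mem_cons (W3574 D T h) (mem_cons (W1334 D T h) (mem_cons (W2554 D T h) (mem_cons (W3575 D T h) (mem_cons (W3576 D T h) (mem_cons (W3577 D T h) (mem_cons (W3578 D T h) (mem_cons (W3579 D T h) (mem_cons (W3580 D T h) (mem_cons (W815 D T h) (mem_cons (W762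 D T h) (mem_cons (W3589 D T h) (mem_cons (W2116 D T h) (mem_cons (W3590 D T h) (mem_cons (W3019 D T h) (mem_cons (W3581 D T h) (mem_cons (W3245 D T h) (mem_cons (W3582 D T h) (mem_cons (W3584 D T h) (mem_cons (W3585 D T h) (mem_cons (W3586 D T h) (mem_cons (W3587 D T h) (mem_cons (W3588 D T h) mem_nil))))))))))))))))))))))))))))))))))) cl834
theorem W3591 : WFK w3591 := fun D T h => wf_of_chk h mem_nil (mem_cons (L834 D T h) mem_nil) cw3591
theorem W3592 : WFK w3592 := fun D T h => wf_of_chk h (mem_cons (W2027 D T h) mem_nil) mem_nil cw3592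
theorem L835 : LFK l835 := fun D T h => lf_of_chk h (mem_cons (W15 D T h) (mem_cons (W1 D T h) (mem_cons (W149 D T h) (mem_cons (W432 D T h) (mem_cons (W638 D T h) (mem_cons (W281 D T h) (mem_cons (W153 D T h) (mem_cons (W154 D T h) (mem_cons (W152 D T h) mem_nil))))))))) cl835
theorem W3593 : WFK w3593 := fun D T h => wf_of_chk h mem_nil (mem_cons (L835 D T h) mem_nil) cw3593
theorem L836 : LFK l836 := fun D T h => lf_of_chk h (mem_cons (W819 D T h) (mem_cons (W61 D T h) (mem_cons (W619 D T h) (mem_cons (W1101 D T h) (mem_cons (W39 D T h) (mem_cons (W866 D T h) (mem_cons (W3593 D T h) (mem_cons (W878 D T h) (mem_cons (W812 D T h) (mem_cons (W359 D T h) (mem_cons (W976 D T h) (mem_cons (W888 D T h) (mem_cons (W979 D T h) (mem_cons (W1099 D T h) (mem_cons (W983 D T h) mem_nil))))))))))))))) cl836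
theorem W3594 : WFK w3594 := fun D T h => wf_of_chk h mem_nil (mem_cons (L836 D T h) mem_nil) cw3594
theorem W3597 : WFK w3597 := fun D T h => wf_of_chk h (mem_cons (W91 D T h) (mem_cons (W37 D T h) mem_nil)) mem_nil cw3597
theorem W3598 : WFK w3598 := fun D T h => wf_of_chk h mem_nil (mem_cons (L823 D T h) mem_nil) cw3598
theorem L837 : LFK l837 := fun D T h => lf_of_chk h (mem_cons (W1528 D T h) (mem_cons (W2 D T h) (mem_cons (W33 D T h) (mem_cons (W812 D T h) mem_nil)))) cl837
theorem W3599 : WFK w3599 := fun D T h => wf_of_chk h mem_nil (mem_cons (L837 D T h) mem_nil) cw3599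
theorem W3600 : WFK w3600 := fun D T h => wf_of_chk h (mem_cons (W16 D T h) mem_nil) mem_nil cw3600
theorem W3601 : WFK w3601 := fun D T h => wf_of_chk h (mem_cons (W50 D T h) mem_nil) mem_nil cw3601
theorem W3602 : WFK w3602 := fun D T h => wf_of_chk h mem_nil (mem_cons (L824 D T h) mem_nil) cw3602
theorem W3603 : WFK w3603 := fun D T h => wf_of_chk h (mem_cons (W50 D T h) (mem_cons (W91 D T h) mem_nil)) mem_nil cw3603
theorem W3604 : WFK w3604 := fun D T h => wf_of_chk h mem_nil (mem_cons (L824 D T h) mem_nil) cw3604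
theorem W3605 : WFK w3605 := fun D T h => wf_of_chk h (mem_cons (W16 D T h) (mem_cons (W91 D T h) mem_nil)) mem_nil cw3605
theorem W3606 : WFK w3606 := fun D T h => wf_of_chk h mem_nil (mem_cons (L804 D T h) mem_nil) cw3606
theorem W3607 : WFK w3607 := fun D T h => wf_of_chk h mem_nil (mem_cons (L804 D T h) mem_nil) cw3607
theorem W3608 : WFK w3608 := fun D T h => wf_of_chk h mem_nil (mem_cons (L804 D T h) mem_nil) cw3608
theorem L838 : LFK l838 := fun D T h => lf_of_chk h (mem_cons (W3536 D T h) (mem_cons (W177 D T h) (mem_cons (W1254 D T h) (mem_cons (W3598 D T h) (mem_cons (W3599 D T h) (mem_cons (W1033 D T h) (mem_cons (W103 D T h) (mem_cons (W804 D T h) (mem_cons (W37 D T h) (mem_cons (W1408 D T h) (mem_cons (W3600 D T h) (mem_cons (W759 D T h) (mem_cons (W3605 D T h) (mem_cons (W1533 D T h) (mem_cons (W3606 D T h) (mem_cons (W3608 D T h) (mem_cons (W3607 D T h) (mem_cons (W284 D T h) (mem_cons (W3335 D T h) (mem_cons (W3601 D T h) (mem_cons (W3602 D T h) (mem_cons (W3603 D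 T h) (mem_cons (W3604 D T h) (mem_cons (W3570 D T h) (mem_cons (W2368 D T h) (mem_cons (W1528 D T h) (mem_cons (W3416 D T h) (mem_cons (W3591 D T h) (mem_cons (W3592 D T h) (mem_cons (W3594 D T h) (mem_cons (W3597 D T h) mem_nil))))))))))))))))))))))))))))))) cl838
theorem W3609 : WFK w3609 := fun D T h => wf_of_chk h mem_nil (mem_cons (L838 D T h) mem_nil) cw3609
theorem W3610 : WFK w3610 := fun D T h => wf_of_chk h (mem_cons (W1291 D T h) (mem_cons (W799 D T h) mem_nil)) mem_nil cw3610
theorem W3611 : WFK w3611 := fun D T h => wf_of_chk h mem_nil (mem_cons (L295 D T h) mem_nil) cw3611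
theorem W3612 : WFK w3612 := fun D T h => wf_of_chk h mem_nil (mem_cons (L295 D T h) mem_nil) cw3612
theorem L839 : LFK l839 := fun D T h => lf_of_chk h (mem_cons (W3521 D T h) (mem_cons (W37 D T h) (mem_cons (W804 D T h) (mem_cons (W1309 D T h) (mem_cons (W3522 D T h) (mem_cons (W3549 D T h) (mem_cons (W3552 D T h) (mem_cons (W3527 D T h) (mem_cons (W3610 D T h) (mem_cons (W2893 D T h) (mem_cons (W3541 D T h) (mem_cons (W3554 D T h) (mem_cons (W284 D T h) (mem_cons (W1213 D T h) (mem_cons (W3555 D T h) (mem_cons (W3556 D T h) (mem_cons (W3557 D T h) (mem_cons (W3523 D T h) (mem_cons (W3524 D T h) (mem_cons (W3525 D T h) (mem_cons (W3526 D T h) (mem_cons (W3538 D T h) (mem_cons (W3539 D T h) (mem_cons (W3540 D T h) (mem_cons (W3542 D T h) (mem_cons (W2346 D T h) (mem_cons (W1690 D T h) (mem_cons (W3543 D T h) (mem_cons (W3544 D T h) (mem_cons (W3545 D T h) (mem_cons (W3546 D T h) (mem_cons (W3547 D T h) (mem_cons (W3536 D T h) (mem_cons (W3271 D T h) (mem_cons (W3562 D T h) (mem_cons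 (W3563 D T h) (mem_cons (W2004 D T h) (mem_cons (W3609 D T h) (mem_cons (W788 D T h) (mem_cons (W3611 D T h) (mem_cons (W1317 D T h) (mem_cons (W3270 D T h) (mem_cons (W3612 D T h) mem_nil))))))))))))))))))))))))))))))))))))))))))) cl839
theorem W3613 : WFK w3613 := fun D T h => wf_of_chk h mem_nil (mem_cons (L839 D T h) mem_nil) cw3613
theorem W3614 : WFK w3614 := fun D T h => wf_of_chk h (mem_cons (W909 D T h) (mem_cons (W37 D T h) mem_nil)) mem_nil cw3614
theorem W3615 : WFK w3615 := fun D T h => wf_of_chk h (mem_cons (W3515 D T h) (mem_cons (W37 D T h) mem_nil)) mem_nil cw3615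
theorem W3616 : WFK w3616 := fun D T h => wf_of_chk h (mem_cons (W83 D T h) (mem_cons (W37 D T h) mem_nil)) mem_nil cw3616
theorem W3617 : WFK w3617 := fun D T h => wf_of_chk h (mem_cons (W3035 D T h) (mem_cons (W37 D T h) mem_nil)) mem_nil cw3617
theorem W3618 : WFK w3618 := fun D T h => wf_of_chk h (mem_cons (W710 D T h) mem_nil) mem_nil cw3618
theorem W3619 : WFK w3619 := fun D T h => wf_of_chk h (mem_cons (W710 D T h) mem_nil) mem_nil cw3619
theorem W3620 : WFK w3620 := fun D T h => wf_of_chk h (mem_cons (W726 D T h) (mem_cons (W710 D T h) mem_nil)) mem_nil cw3620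
theorem W3621 : WFK w3621 := fun D T h => wf_of_chk h (mem_cons (W177 D T h) (mem_cons (W34 D T h) mem_nil)) mem_nil cw3621
theorem L840 : LFK l840 := fun D T h => lf_of_chk h (mem_cons (W128 D T h) (mem_cons (W34 D T h) (mem_cons (W15 D T h) (mem_cons (W219 D T h) (mem_cons (W1064 D T h) (mem_cons (W1166 D T h) (mem_cons (W1065 D T h) (mem_cons (W581 D T h) (mem_cons (W2795 D T h) (mem_cons (W1192 D T h) (mem_cons (W1067 D T h) mem_nil))))))))))) cl840
theorem W3622 : WFK w3622 := fun D T h => wf_of_chk h mem_nil (mem_cons (L840 D T h) mem_nil) cw3622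
theorem W3623 : WFK w3623 := fun D T h => wf_of_chk h (mem_cons (W50 D T h) (mem_cons (W34 D T h) mem_nil)) mem_nil cw3623
theorem W3624 : WFK w3624 := fun D T h => wf_of_chk h (mem_cons (W2994 D T h) (mem_cons (W34 D T h) mem_nil)) mem_nil cw3624
theorem W3625 : WFK w3625 := fun D T h => wf_of_chk h (mem_cons (W2997 D T h) (mem_cons (W34 D T h) mem_nil)) mem_nil cw3625
theorem W3626 : WFK w3626 := fun D T h => wf_of_chk h (mem_cons (W2326 D T h) (mem_cons (W34 D T h) mem_nil)) mem_nil cw3626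
theorem W3627 : WFK w3627 := fun D T h => wf_of_chk h (mem_cons (W1318 D T h) (mem_cons (W34 D T h) mem_nil)) mem_nil cw3627
theorem W3628 : WFK w3628 := fun D T h => wf_of_chk h mem_nil (mem_cons (L735 D T h) mem_nil) cw3628
theorem L841 : LFK l841 := fun D T h => lf_of_chk h (mem_cons (W1065 D T h) (mem_cons (W1188 D T h) (mem_cons (W1 D T h) (mem_cons (W795 D T h) (mem_cons (W1108 D T h) (mem_cons (W1166 D T h) (mem_cons (W1070 D T h) (mem_cons (W1071 D T h) (mem_cons (W1106 D T h) (mem_cons (W519 D T h) (mem_cons (W1952 D T h) (mem_cons (W111 D T h) (mem_cons (W1109 D T h) (mem_cons (W3274 D T h) (mem_cons (W3120 D T h) (mem_cons (W1124 D T h) (mem_cons (W1125 D T h) (mem_cons (W3628 D T h) mem_nil)))))))))))))))))) cl841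
theorem W3629 : WFK w3629 := fun D T h => wf_of_chk h mem_nil (mem_cons (L841 D T h) mem_nil) cw3629
theorem L842 : LFK l842 := fun D T h => lf_of_chk h (mem_cons (W1065 D T h) (mem_cons (W34 D T h) (mem_cons (W1 D T h) (mem_cons (W795 D T h) (mem_cons (W1108 D T h) (mem_cons (W1166 D T h) (mem_cons (W1070 D T h) (mem_cons (W1071 D T h) (mem_cons (W1106 D T h) (mem_cons (W519 D T h) (mem_cons (W1952 D T h) (mem_cons (W111 D T h) (mem_cons (W1109 D T h) (mem_cons (W3274 D T h) (mem_cons (W3120 D T h) (mem_cons (W1124 D T h) (mem_cons (W1125 D T h) (mem_cons (W3628 D T h) mem_nil)))))))))))))))))) cl842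
theorem W3630 : WFK w3630 := fun D T h => wf_of_chk h mem_nil (mem_cons (L842 D T h) mem_nil) cw3630
theorem W3631 : WFK w3631 := fun D T h => wf_of_chk h (mem_cons (W3619 D T h) (mem_cons (W710 D T h) mem_nil)) mem_nil cw3631
theorem W3632 : WFK w3632 := fun D T h => wf_of_chk h (mem_cons (W3515 D T h) (mem_cons (W34 D T h) mem_nil)) mem_nil cw3632
theorem W3633 : WFK w3633 := fun D T h => wf_of_chk h (mem_cons (W710 D T h) (mem_cons (W34 D T h) mem_nil)) mem_nil cw3633
theorem W3634 : WFK w3634 := fun D T h => wf_of_chk h (mem_cons (W2914 D T h) (mem_cons (W3633 D T h) mem_nil)) mem_nil cw3634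
theorem L843 : LFK l843 := fun D T h => lf_of_chk h (mem_cons (W581 D T h) (mem_cons (W93 D T h) (mem_cons (W1 D T h) (mem_cons (W368 D T h) (mem_cons (W141 D T h) (mem_cons (W1128 D T h) (mem_cons (W140 D T h) (mem_cons (W2119 D T h) (mem_cons (W3274 D T h) (mem_cons (W12 D T h) (mem_cons (W1129 D T h) (mem_cons (W1070 D T h) (mem_cons (W160 D T h) (mem_cons (W255 D T h) (mem_cons (W747 D T h) (mem_cons (W871 D T h) mem_nil)))))))))))))))) cl843
theorem W3635 : WFK w3635 := fun D T h => wf_of_chk h mem_nil (mem_cons (L843 D T h) mem_nil) cw3635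
theorem W3636 : WFK w3636 := fun D T h => wf_of_chk h (mem_cons (W3635 D T h) (mem_cons (W34 D T h) mem_nil)) mem_nil cw3636
theorem W3638 : WFK w3638 := fun D T h => wf_of_chk h (mem_cons (W111 D T h) (mem_cons (W177 D T h) mem_nil)) mem_nil cw3638
theorem W3639 : WFK w3639 := fun D T h => wf_of_chk h (mem_cons (W177 D T h) (mem_cons (W726 D T h) mem_nil)) mem_nil cw3639
theorem W3640 : WFK w3640 := fun D T h => wf_of_chk h (mem_cons (W177 D T h) mem_nil) mem_nil cw3640
theorem W3641 : WFK w3641 := fun D T h => wf_of_chk h (mem_cons (W3207 D T h) (mem_cons (W177 D T h) mem_nil)) mem_nil cw3641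
theorem W3642 : WFK w3642 := fun D T h => wf_of_chk h mem_nil (mem_cons (L178 D T h) mem_nil) cw3642
theorem L844 : LFK l844 := fun D T h => lf_of_chk h (mem_cons (W1528 D T h) (mem_cons (W69 D T h) (mem_cons (W16 D T h) (mem_cons (W3642 D T h) (mem_cons (W3 D T h) (mem_cons (W39 D T h) (mem_cons (W1409 D T h) (mem_cons (W721 D T h) (mem_cons (W2207 D T h) (mem_cons (W746 D T h) (mem_cons (W258 D T h) (mem_cons (W748 D T h) (mem_cons (W747 D T h) mem_nil))))))))))))) cl844
theorem W3643 : WFK w3643 := fun D T h => wf_of_chk h mem_nil (mem_cons (L844 D T h) mem_nil) cw3643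
theorem W3644 : WFK w3644 := fun D T h => wf_of_chk h (mem_cons (W69 D T h) (mem_cons (W177 D T h) mem_nil)) mem_nil cw3644
theorem W3646 : WFK w3646 := fun D T h => wf_of_chk h mem_nil mem_nil cw3646
theorem L845 : LFK l845 := fun D T h => lf_of_chk h (mem_cons (W1528 D T h) (mem_cons (W16 D T h) (mem_cons (W235 D T h) (mem_cons (W3646 D T h) mem_nil)))) cl845
theorem W3647 : WFK w3647 := fun D T h => wf_of_chk h mem_nil (mem_cons (L845 D T h) mem_nil) cw3647
theorem L846 : LFK l846 := fun D T h => lf_of_chk h (mem_cons (W1101 D T h) (mem_cons (W410 D T h) (mem_cons (W3647 D T h) (mem_cons (W32 D T h) mem_nil)))) cl846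
theorem W3650 : WFK w3650 := fun D T h => wf_of_chk h mem_nil (mem_cons (L101 D T h) mem_nil) cw3650
theorem W3654 : WFK w3654 := fun D T h => wf_of_chk h (mem_cons (W1026 D T h) (mem_cons (W177 D T h) mem_nil)) mem_nil cw3654
theorem L847 : LFK l847 := fun D T h => lf_of_chk h (mem_cons (W1528 D T h) (mem_cons (W16 D T h) (mem_cons (W86 D T h) (mem_cons (W745 D T h) mem_nil)))) cl847
theorem W3655 : WFK w3655 := fun D T h => wf_of_chk h mem_nil (mem_cons (L847 D T h) mem_nil) cw3655
theorem W3656 : WFK w3656 := fun D T h => wf_of_chk h (mem_cons (W16 D T h) (mem_cons (W3655 D T h) mem_nil)) mem_nil cw3656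
theorem W3657 : WFK w3657 := fun D T h => wf_of_chk h (mem_cons (W2194 D T h) (mem_cons (W177 D T h) mem_nil)) mem_nil cw3657
theorem W3658 : WFK w3658 := fun D T h => wf_of_chk h mem_nil (mem_cons (L107 D T h) mem_nil) cw3658
theorem W3659 : WFK w3659 := fun D T h => wf_of_chk h (mem_cons (W3658 D T h) (mem_cons (W177 D T h) mem_nil)) mem_nil cw3659
theorem W3660 : WFK w3660 := fun D T h => wf_of_chk h (mem_cons (W220 D T h) (mem_cons (W3565 D T h) mem_nil)) mem_nil cw3660
theorem W3661 : WFK w3661 := fun D T h => wf_of_chk h (mem_cons (W220 D T h) (mem_cons (W3650 D T h) mem_nil)) mem_nil cw3661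
theorem W3662 : WFK w3662 := fun D T h => wf_of_chk h (mem_cons (W220 D T h) (mem_cons (W3565 D T h) mem_nil)) mem_nil cw3662
theorem W3663 : WFK w3663 := fun D T h => wf_of_chk h (mem_cons (W1533 D T h) (mem_cons (W177 D T h) mem_nil)) mem_nil cw3663
theorem W3664 : WFK w3664 := fun D T h => wf_of_chk h (mem_cons (W10 D T h) (mem_cons (W16 D T h) mem_nil)) mem_nil cw3664
theorem W3665 : WFK w3665 := fun D T h => wf_of_chk h (mem_cons (W3664 D T h) (mem_cons (W177 D T h) mem_nil)) mem_nil cw3665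
theorem W3666 : WFK w3666 := fun D T h => wf_of_chk h mem_nil (mem_cons (L671 D T h) mem_nil) cw3666
theorem W3667 : WFK w3667 := fun D T h => wf_of_chk h (mem_cons (W3208 D T h) (mem_cons (W177 D T h) mem_nil)) mem_nil cw3667
theorem W3668 : WFK w3668 := fun D T h => wf_of_chk h (mem_cons (W162 D T h) (mem_cons (W3565 D T h) mem_nil)) mem_nil cw3668
theorem W3669 : WFK w3669 := fun D T h => wf_of_chk h (mem_cons (W69 D T h) (mem_cons (W16 D T h) mem_nil)) mem_nil cw3669
theorem L848 : LFK l848 := fun D T h => lf_of_chk h (mem_cons (W2219 D T h) (mem_cons (W341 D T h) (mem_cons (W342 D T h) (mem_cons (W352 D T h) (mem_cons (W1025 D T h) (mem_cons (W3669 D T h) (mem_cons (W3598 D T h) (mem_cons (W1533 D T h) (mem_cons (W3599 D T h) (mem_cons (W3655 D T h) (mem_cons (W3640 D T h) (mem_cons (W16 D T h) (mem_cons (W3650 D T h) (mem_cons (W1408 D T h) (mem_cons (W3654 D T h) (mem_cons (W3656 D T h) (mem_cons (W3667 D T h) (mem_cons (W284 D T h) (mem_cons (W2934 D T h) (mem_cons (W3668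 D T h) (mem_cons (W24 D T h) (mem_cons (W3430 D T h) (mem_cons (W3657 D T h) (mem_cons (W3659 D T h) (mem_cons (W3660 D T h) (mem_cons (W3661 D T h) (mem_cons (W3662 D T h) (mem_cons (W3663 D T h) (mem_cons (W3665 D T h) (mem_cons (W3666 D T h) (mem_cons (W721 D T h) (mem_cons (W2278 D T h) (mem_cons (W2157 D T h) (mem_cons (W2192 D T h) (mem_cons (W2280 D T h) mem_nil))))))))))))))))))))))))))))))))))) cl848
theorem W3670 : WFK w3670 := fun D T h => wf_of_chk h mem_nil (mem_cons (L848 D T h) mem_nil) cw3670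
theorem W3671 : WFK w3671 := fun D T h => wf_of_chk h (mem_cons (W126 D T h) (mem_cons (W177 D T h) mem_nil)) mem_nil cw3671
theorem W3672 : WFK w3672 := fun D T h => wf_of_chk h (mem_cons (W495 D T h) (mem_cons (W726 D T h) mem_nil)) mem_nil cw3672
theorem W3673 : WFK w3673 := fun D T h => wf_of_chk h (mem_cons (W497 D T h) (mem_cons (W726 D T h) mem_nil)) mem_nil cw3673
theorem W3674 : WFK w3674 := fun D T h => wf_of_chk h (mem_cons (W495 D T h) (mem_cons (W726 D T h) mem_nil)) mem_nil cw3674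
theorem W3675 : WFK w3675 := fun D T h => wf_of_chk h (mem_cons (W1640 D T h) (mem_cons (W177 D T h) mem_nil)) mem_nil cw3675
theorem W3676 : WFK w3676 := fun D T h => wf_of_chk h (mem_cons (W16 D T h) (mem_cons (W763 D T h) mem_nil)) mem_nil cw3676
theorem L849 : LFK l849 := fun D T h => lf_of_chk h (mem_cons (W3639 D T h) (mem_cons (W177 D T h) (mem_cons (W763 D T h) (mem_cons (W3640 D T h) (mem_cons (W3565 D T h) (mem_cons (W3671 D T h) (mem_cons (W1501 D T h) (mem_cons (W3675 D T h) (mem_cons (W1408 D T h) (mem_cons (W3676 D T h) (mem_cons (W3638 D T h) (mem_cons (W1528 D T h) (mem_cons (W2378 D T h) (mem_cons (W1144 D T h) (mem_cons (W3673 D T h) (mem_cons (W3672 D T h) (mem_cons (W3674 D T h) (mem_cons (W3598 D T h) (mem_cons (W3599 D T h) (mem_cons (W3641 D T h) (mem_cons (W3643 D T h) (mem_cons (W3644 D T h) (mem_cons (W3670 D T h) mem_nil))))))))))))))))))))))) cl849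
theorem W3677 : WFK w3677 := fun D T h => wf_of_chk h mem_nil (mem_cons (L849 D T h) mem_nil) cw3677
theorem W3679 : WFK w3679 := fun D T h => wf_of_chk h (mem_cons (W281 D T h) mem_nil) mem_nil cw3679
theorem W3680 : WFK w3680 := fun D T h => wf_of_chk h (mem_cons (W154 D T h) mem_nil) mem_nil cw3680
theorem W3681 : WFK w3681 := fun D T h => wf_of_chk h (mem_cons (W431 D T h) mem_nil) mem_nil cw3681
theorem W3682 : WFK w3682 := fun D T h => wf_of_chk h (mem_cons (W429 D T h) mem_nil) mem_nil cw3682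
theorem W3683 : WFK w3683 := fun D T h => wf_of_chk h mem_nil (mem_cons (L59 D T h) mem_nil) cw3683
theorem W3684 : WFK w3684 := fun D T h => wf_of_chk h mem_nil (mem_cons (L176 D T h) mem_nil) cw3684
theorem W3685 : WFK w3685 := fun D T h => wf_of_chk h mem_nil mem_nil cw3685
theorem L850 : LFK l850 := fun D T h => lf_of_chk h (mem_cons (W1330 D T h) (mem_cons (W15 D T h) (mem_cons (W218 D T h) (mem_cons (W193 D T h) (mem_cons (W3679 D T h) (mem_cons (W141 D T h) (mem_cons (W1707 D T h) (mem_cons (W3680 D T h) (mem_cons (W3681 D T h) (mem_cons (W3682 D T h) (mem_cons (W3683 D T h) (mem_cons (W830 D T h) (mem_cons (W3684 D T h) (mem_cons (W3685 D T h) mem_nil)))))))))))))) cl850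
theorem W3686 : WFK w3686 := fun D T h => wf_of_chk h mem_nil (mem_cons (L850 D T h) mem_nil) cw3686
theorem W3688 : WFK w3688 := fun D T h => wf_of_chk h mem_nil (mem_cons (L176 D T h) mem_nil) cw3688
theorem L852 : LFK l852 := fun D T h => lf_of_chk h (mem_cons (W915 D T h) (mem_cons (W802 D T h) (mem_cons (W2766 D T h) (mem_cons (W290 D T h) (mem_cons (W278 D T h) (mem_cons (W1475 D T h) (mem_cons (W891 D T h) mem_nil))))))) cl852
theorem W3694 : WFK w3694 := fun D T h => wf_of_chk h mem_nil (mem_cons (L852 D T h) mem_nil) cw3694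
theorem L853 : LFK l853 := fun D T h => lf_of_chk h (mem_cons (W142 D T h) (mem_cons (W2204 D T h) (mem_cons (W2445 D T h) (mem_cons (W1049 D T h) (mem_cons (W78 D T h) (mem_cons (W861 D T h) (mem_cons (W3694 D T h) mem_nil))))))) cl853
theorem W3695 : WFK w3695 := fun D T h => wf_of_chk h mem_nil (mem_cons (L853 D T h) mem_nil) cw3695
theorem W3696 : WFK w3696 := fun D T h => wf_of_chk h mem_nil (mem_cons (L450 D T h) mem_nil) cw3696
theorem W3699 : WFK w3699 := fun D T h => wf_of_chk h (mem_cons (W726 D T h) mem_nil) mem_nil cw3699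
theorem W3701 : WFK w3701 := fun D T h => wf_of_chk h mem_nil mem_nil cw3701
theorem W3707 : WFK w3707 := fun D T h => wf_of_chk h (mem_cons (W2448 D T h) mem_nil) mem_nil cw3707
theorem W3709 : WFK w3709 := fun D T h => wf_of_chk h (mem_cons (W3688 D T h) mem_nil) mem_nil cw3709
theorem L856 : LFK l856 := fun D T h => lf_of_chk h (mem_cons (W3 D T h) (mem_cons (W67 D T h) (mem_cons (W3019 D T h) (mem_cons (W2452 D T h) (mem_cons (W11 D T h) (mem_cons (W12 D T h) (mem_cons (W13 D T h) mem_nil))))))) cl856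
theorem W3716 : WFK w3716 := fun D T h => wf_of_chk h mem_nil (mem_cons (L856 D T h) mem_nil) cw3716
theorem W3719 : WFK w3719 := fun D T h => wf_of_chk h mem_nil (mem_cons (L823 D T h) mem_nil) cw3719
theorem W3721 : WFK w3721 := fun D T h => wf_of_chk h mem_nil (mem_cons (L111 D T h) mem_nil) cw3721
theorem W3727 : WFK w3727 := fun D T h => wf_of_chk h (mem_cons (W177 D T h) mem_nil) mem_nil cw3727
theorem W3732 : WFK w3732 := fun D T h => wf_of_chk h (mem_cons (W1063 D T h) (mem_cons (W3618 D T h) mem_nil)) mem_nil cw3732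
theorem W3733 : WFK w3733 := fun D T h => wf_of_chk h (mem_cons (W1184 D T h) (mem_cons (W34 D T h) mem_nil)) mem_nil cw3733
theorem W3734 : WFK w3734 := fun D T h => wf_of_chk h (mem_cons (W368 D T h) (mem_cons (W34 D T h) mem_nil)) mem_nil cw3734
theorem W3735 : WFK w3735 := fun D T h => wf_of_chk h (mem_cons (W3734 D T h) (mem_cons (W16 D T h) mem_nil)) mem_nil cw3735
theorem W3736 : WFK w3736 := fun D T h => wf_of_chk h (mem_cons (W1065 D T h) (mem_cons (W34 D T h) mem_nil)) mem_nil cw3736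
theorem W3737 : WFK w3737 := fun D T h => wf_of_chk h (mem_cons (W536 D T h) (mem_cons (W34 D T h) mem_nil)) mem_nil cw3737
theorem W3738 : WFK w3738 := fun D T h => wf_of_chk h (mem_cons (W80 D T h) (mem_cons (W69 D T h) mem_nil)) mem_nil cw3738
theorem W3739 : WFK w3739 := fun D T h => wf_of_chk h (mem_cons (W75 D T h) (mem_cons (W1 D T h) mem_nil)) mem_nil cw3739
theorem W3740 : WFK w3740 := fun D T h => wf_of_chk h (mem_cons (W69 D T h) mem_nil) mem_nil cw3740
theorem W3741 : WFK w3741 := fun D T h => wf_of_chk h (mem_cons (W112 D T h) (mem_cons (W69 D T h) mem_nil)) mem_nil cw3741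
theorem L857 : LFK l857 := fun D T h => lf_of_chk h (mem_cons (W1166 D T h) (mem_cons (W83 D T h) (mem_cons (W1 D T h) (mem_cons (W69 D T h) (mem_cons (W3688 D T h) (mem_cons (W3565 D T h) (mem_cons (W80 D T h) (mem_cons (W3738 D T h) (mem_cons (W1355 D T h) (mem_cons (W3739 D T h) (mem_cons (W521 D T h) (mem_cons (W3740 D T h) (mem_cons (W627 D T h) (mem_cons (W111 D T h) (mem_cons (W370 D T h) (mem_cons (W721 D T h) (mem_cons (W267 D T h) (mem_cons (W3741 D T h) (mem_cons (W114 D T h) mem_nil))))))))))))))))))) cl857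
theorem W3742 : WFK w3742 := fun D T h => wf_of_chk h mem_nil (mem_cons (L857 D T h) mem_nil) cw3742
theorem L858 : LFK l858 := fun D T h => lf_of_chk h (mem_cons (W128 D T h) (mem_cons (W3035 D T h) (mem_cons (W15 D T h) (mem_cons (W219 D T h) (mem_cons (W1064 D T h) (mem_cons (W3742 D T h) (mem_cons (W1065 D T h) (mem_cons (W581 D T h) (mem_cons (W2795 D T h) (mem_cons (W1192 D T h) (mem_cons (W1067 D T h) mem_nil))))))))))) cl858
theorem W3743 : WFK w3743 := fun D T h => wf_of_chk h mem_nil (mem_cons (L858 D T h) mem_nil) cw3743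
theorem W3744 : WFK w3744 := fun D T h => wf_of_chk h mem_nil (mem_cons (L506 D T h) mem_nil) cw3744
theorem W3745 : WFK w3745 := fun D T h => wf_of_chk h (mem_cons (W3036 D T h) (mem_cons (W710 D T h) mem_nil)) mem_nil cw3745
theorem W3746 : WFK w3746 := fun D T h => wf_of_chk h (mem_cons (W710 D T h) (mem_cons (W3633 D T h) mem_nil)) mem_nil cw3746
theorem W3747 : WFK w3747 := fun D T h => wf_of_chk h (mem_cons (W34 D T h) (mem_cons (W162 D T h) mem_nil)) mem_nil cw3747
theorem W3748 : WFK w3748 := fun D T h => wf_of_chk h (mem_cons (W3747 D T h) (mem_cons (W710 D T h) mem_nil)) mem_nil cw3748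
theorem W3749 : WFK w3749 := fun D T h => wf_of_chk h (mem_cons (W111 D T h) (mem_cons (W16 D T h) mem_nil)) mem_nil cw3749
theorem W3750 : WFK w3750 := fun D T h => wf_of_chk h (mem_cons (W368 D T h) (mem_cons (W16 D T h) mem_nil)) mem_nil cw3750
theorem W3751 : WFK w3751 := fun D T h => wf_of_chk h (mem_cons (W3750 D T h) (mem_cons (W34 D T h) mem_nil)) mem_nil cw3751
theorem W3752 : WFK w3752 := fun D T h => wf_of_chk h mem_nil (mem_cons (L842 D T h) mem_nil) cw3752
theorem W3753 : WFK w3753 := fun D T h => wf_of_chk h (mem_cons (W1166 D T h) (mem_cons (W34 D T h) mem_nil)) mem_nil cw3753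
theorem W3757 : WFK w3757 := fun D T h => wf_of_chk h mem_nil mem_nil cw3757
theorem L859 : LFK l859 := fun D T h => lf_of_chk h (mem_cons (W3757 D T h) (mem_cons (W25 D T h) mem_nil)) cl859
theorem W3758 : WFK w3758 := fun D T h => wf_of_chk h mem_nil (mem_cons (L859 D T h) mem_nil) cw3758
theorem W3759 : WFK w3759 := fun D T h => wf_of_chk h mem_nil mem_nil cw3759
theorem W3760 : WFK w3760 := fun D T h => wf_of_chk h mem_nil (mem_cons (L629 D T h) mem_nil) cw3760
theorem W3761 : WFK w3761 := fun D T h => wf_of_chk h mem_nil mem_nil cw3761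
theorem W3762 : WFK w3762 := fun D T h => wf_of_chk h mem_nil mem_nil cw3762
theorem L860 : LFK l860 := fun D T h => lf_of_chk h (mem_cons (W2766 D T h) (mem_cons (W3758 D T h) (mem_cons (W3759 D T h) (mem_cons (W3760 D T h) (mem_cons (W3761 D T h) (mem_cons (W3762 D T h) (mem_cons (W4 D T h) mem_nil))))))) cl860
theorem W3763 : WFK w3763 := fun D T h => wf_of_chk h mem_nil (mem_cons (L860 D T h) mem_nil) cw3763
theorem W3764 : WFK w3764 := fun D T h => wf_of_chk h (mem_cons (W220 D T h) mem_nil) mem_nil cw3764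
theorem W3765 : WFK w3765 := fun D T h => wf_of_chk h mem_nil (mem_cons (L859 D T h) mem_nil) cw3765
theorem W3766 : WFK w3766 := fun D T h => wf_of_chk h mem_nil (mem_cons (L330 D T h) mem_nil) cw3766
theorem W3767 : WFK w3767 := fun D T h => wf_of_chk h (mem_cons (W3766 D T h) mem_nil) mem_nil cw3767
theorem W3768 : WFK w3768 := fun D T h => wf_of_chk h (mem_cons (W3766 D T h) mem_nil) mem_nil cw3768
theorem W3769 : WFK w3769 := fun D T h => wf_of_chk h (mem_cons (W3766 D T h) mem_nil) mem_nil cw3769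
theorem L861 : LFK l861 := fun D T h => lf_of_chk h (mem_cons (W2766 D T h) (mem_cons (W3765 D T h) (mem_cons (W3767 D T h) (mem_cons (W812 D T h) (mem_cons (W6 D T h) (mem_cons (W3768 D T h) (mem_cons (W3769 D T h) (mem_cons (W194 D T h) (mem_cons (W1101 D T h) mem_nil))))))))) cl861
theorem W3770 : WFK w3770 := fun D T h => wf_of_chk h mem_nil (mem_cons (L861 D T h) mem_nil) cw3770
theorem W3773 : WFK w3773 := fun D T h => wf_of_chk h (mem_cons (W281 D T h) (mem_cons (W16 D T h) mem_nil)) mem_nil cw3773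
theorem W3774 : WFK w3774 := fun D T h => wf_of_chk h mem_nil (mem_cons (L489 D T h) mem_nil) cw3774
theorem W3775 : WFK w3775 := fun D T h => wf_of_chk h mem_nil (mem_cons (L861 D T h) mem_nil) cw3775
theorem L862 : LFK l862 := fun D T h => lf_of_chk h (mem_cons (W1249 D T h) (mem_cons (W5 D T h) (mem_cons (W2766 D T h) (mem_cons (W431 D T h) (mem_cons (W1822 D T h) (mem_cons (W429 D T h) mem_nil)))))) cl862
theorem W3776 : WFK w3776 := fun D T h => wf_of_chk h mem_nil (mem_cons (L862 D T h) mem_nil) cw3776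
theorem W3778 : WFK w3778 := fun D T h => wf_of_chk h mem_nil mem_nil cw3778
theorem L863 : LFK l863 := fun D T h => lf_of_chk h mem_nil cl863
theorem W3779 : WFK w3779 := fun D T h => wf_of_chk h mem_nil (mem_cons (L863 D T h) mem_nil) cw3779
theorem W3780 : WFK w3780 := fun D T h => wf_of_chk h (mem_cons (W16 D T h) (mem_cons (W3773 D T h) mem_nil)) mem_nil cw3780
theorem W3781 : WFK w3781 := fun D T h => wf_of_chk h mem_nil mem_nil cw3781
theorem W3783 : WFK w3783 := fun D T h => wf_of_chk h (mem_cons (W220 D T h) mem_nil) mem_nil cw3783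
theorem W3785 : WFK w3785 := fun D T h => wf_of_chk h (mem_cons (W659 D T h) (mem_cons (W16 D T h) mem_nil)) mem_nil cw3785
theorem W3788 : WFK w3788 := fun D T h => wf_of_chk h mem_nil (mem_cons (L630 D T h) mem_nil) cw3788
theorem W3790 : WFK w3790 := fun D T h => wf_of_chk h (mem_cons (W3766 D T h) mem_nil) mem_nil cw3790
theorem L864 : LFK l864 := fun D T h => lf_of_chk h (mem_cons (W2766 D T h) (mem_cons (W3765 D T h) (mem_cons (W3790 D T h) (mem_cons (W233 D T h) (mem_cons (W3767 D T h) (mem_cons (W3768 D T h) (mem_cons (W3769 D T h) (mem_cons (W831 D T h) (mem_cons (W197 D T h) mem_nil))))))))) cl864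
theorem W3791 : WFK w3791 := fun D T h => wf_of_chk h mem_nil (mem_cons (L864 D T h) mem_nil) cw3791
theorem W3792 : WFK w3792 := fun D T h => wf_of_chk h (mem_cons (W281 D T h) mem_nil) mem_nil cw3792
theorem W3794 : WFK w3794 := fun D T h => wf_of_chk h mem_nil mem_nil cw3794
theorem W3795 : WFK w3795 := fun D T h => wf_of_chk h mem_nil (mem_cons (L863 D T h) mem_nil) cw3795
theorem W3797 : WFK w3797 := fun D T h => wf_of_chk h mem_nil mem_nil cw3797
theorem W3803 : WFK w3803 := fun D T h => wf_of_chk h (mem_cons (W2272 D T h) (mem_cons (W710 D T h) mem_nil)) mem_nil cw3803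
theorem W3804 : WFK w3804 := fun D T h => wf_of_chk h mem_nil (mem_cons (L173 D T h) mem_nil) cw3804
theorem W3805 : WFK w3805 := fun D T h => wf_of_chk h mem_nil (mem_cons (L829 D T h) mem_nil) cw3805
theorem W3806 : WFK w3806 := fun D T h => wf_of_chk h mem_nil (mem_cons (L640 D T h) mem_nil) cw3806
theorem W3807 : WFK w3807 := fun D T h => wf_of_chk h mem_nil (mem_cons (L198 D T h) mem_nil) cw3807
theorem L865 : LFK l865 := fun D T h => lf_of_chk h (mem_cons (W795 D T h) (mem_cons (W808 D T h) (mem_cons (W1 D T h) (mem_cons (W91 D T h) (mem_cons (W3804 D T h) (mem_cons (W3805 D T h) (mem_cons (W576 D T h) (mem_cons (W3806 D T h) (mem_cons (W619 D T h) (mem_cons (W604 D T h) (mem_cons (W603 D T h) (mem_cons (W1947 D T h) (mem_cons (W3560 D T h) (mem_cons (W850 D T h) (mem_cons (W3807 D T h) mem_nil))))))))))))))) cl865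
theorem W3808 : WFK w3808 := fun D T h => wf_of_chk h mem_nil (mem_cons (L865 D T h) mem_nil) cw3808
theorem W3809 : WFK w3809 := fun D T h => wf_of_chk h mem_nil (mem_cons (L831 D T h) mem_nil) cw3809
theorem W3810 : WFK w3810 := fun D T h => wf_of_chk h (mem_cons (W3809 D T h) (mem_cons (W16 D T h) mem_nil)) mem_nil cw3810
theorem W3811 : WFK w3811 := fun D T h => wf_of_chk h (mem_cons (W368 D T h) (mem_cons (W1063 D T h) mem_nil)) mem_nil cw3811
theorem W3812 : WFK w3812 := fun D T h => wf_of_chk h (mem_cons (W3811 D T h) (mem_cons (W710 D T h) mem_nil)) mem_nil cw3812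
theorem W3813 : WFK w3813 := fun D T h => wf_of_chk h (mem_cons (W1065 D T h) (mem_cons (W1063 D T h) mem_nil)) mem_nil cw3813
theorem W3814 : WFK w3814 := fun D T h => wf_of_chk h (mem_cons (W93 D T h) (mem_cons (W682 D T h) mem_nil)) mem_nil cw3814
theorem L866 : LFK l866 := fun D T h => lf_of_chk h (mem_cons (W128 D T h) (mem_cons (W219 D T h) (mem_cons (W1064 D T h) (mem_cons (W3035 D T h) (mem_cons (W15 D T h) (mem_cons (W1166 D T h) (mem_cons (W1065 D T h) (mem_cons (W581 D T h) (mem_cons (W2795 D T h) (mem_cons (W1192 D T h) (mem_cons (W1067 D T h) mem_nil))))))))))) cl866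
theorem W3815 : WFK w3815 := fun D T h => wf_of_chk h mem_nil (mem_cons (L866 D T h) mem_nil) cw3815
theorem W3816 : WFK w3816 := fun D T h => wf_of_chk h (mem_cons (W85 D T h) mem_nil) mem_nil cw3816
theorem W3817 : WFK w3817 := fun D T h => wf_of_chk h (mem_cons (W80 D T h) (mem_cons (W1 D T h) mem_nil)) mem_nil cw3817
theorem W3818 : WFK w3818 := fun D T h => wf_of_chk h (mem_cons (W75 D T h) (mem_cons (W69 D T h) mem_nil)) mem_nil cw3818
theorem W3819 : WFK w3819 := fun D T h => wf_of_chk h (mem_cons (W69 D T h) (mem_cons (W1 D T h) mem_nil)) mem_nil cw3819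
theorem W3820 : WFK w3820 := fun D T h => wf_of_chk h (mem_cons (W112 D T h) (mem_cons (W1 D T h) mem_nil)) mem_nil cw3820
theorem L867 : LFK l867 := fun D T h => lf_of_chk h (mem_cons (W1166 D T h) (mem_cons (W83 D T h) (mem_cons (W69 D T h) (mem_cons (W1 D T h) (mem_cons (W1501 D T h) (mem_cons (W3565 D T h) (mem_cons (W80 D T h) (mem_cons (W3688 D T h) (mem_cons (W3816 D T h) (mem_cons (W3817 D T h) (mem_cons (W521 D T h) (mem_cons (W3818 D T h) (mem_cons (W1355 D T h) (mem_cons (W3819 D T h) (mem_cons (W627 D T h) (mem_cons (W1054 D T h) (mem_cons (W111 D T h) (mem_cons (W370 D T h) (mem_cons (W721 D T h) (mem_cons (W114 D T h) (mem_cons (W3820 D T h) (mem_cons (W267 D T h) mem_nil)))))))))))))))))))))) cl867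
theorem W3821 : WFK w3821 := fun D T h => wf_of_chk h mem_nil (mem_cons (L867 D T h) mem_nil) cw3821
theorem W3822 : WFK w3822 := fun D T h => wf_of_chk h (mem_cons (W3821 D T h) (mem_cons (W16 D T h) mem_nil)) mem_nil cw3822
theorem L868 : LFK l868 := fun D T h => lf_of_chk h (mem_cons (W128 D T h) (mem_cons (W219 D T h) (mem_cons (W10 D T h) (mem_cons (W15 D T h) (mem_cons (W437 D T h) (mem_cons (W621 D T h) (mem_cons (W1065 D T h) (mem_cons (W581 D T h) (mem_cons (W2795 D T h) (mem_cons (W1192 D T h) (mem_cons (W1067 D T h) (mem_cons (W1064 D T h) mem_nil)))))))))))) cl868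
theorem W3824 : WFK w3824 := fun D T h => wf_of_chk h mem_nil (mem_cons (L868 D T h) mem_nil) cw3824
theorem W3827 : WFK w3827 := fun D T h => wf_of_chk h (mem_cons (W3518 D T h) (mem_cons (W16 D T h) mem_nil)) mem_nil cw3827
theorem W3830 : WFK w3830 := fun D T h => wf_of_chk h (mem_cons (W1166 D T h) (mem_cons (W16 D T h) mem_nil)) mem_nil cw3830
theorem L870 : LFK l870 := fun D T h => lf_of_chk h (mem_cons (W4 D T h) (mem_cons (W26 D T h) (mem_cons (W827 D T h) mem_nil))) cl870
theorem W3831 : WFK w3831 := fun D T h => wf_of_chk h mem_nil (mem_cons (L870 D T h) mem_nil) cw3831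
theorem W3837 : WFK w3837 := fun D T h => wf_of_chk h (mem_cons (W80 D T h) (mem_cons (W16 D T h) mem_nil)) mem_nil cw3837
theorem W3843 : WFK w3843 := fun D T h => wf_of_chk h (mem_cons (W3035 D T h) (mem_cons (W16 D T h) mem_nil)) mem_nil cw3843
theorem W3844 : WFK w3844 := fun D T h => wf_of_chk h (mem_cons (W3843 D T h) (mem_cons (W710 D T h) mem_nil)) mem_nil cw3844
theorem W3845 : WFK w3845 := fun D T h => wf_of_chk h (mem_cons (W682 D T h) mem_nil) mem_nil cw3845
theorem L871 : LFK l871 := fun D T h => lf_of_chk h (mem_cons (W831 D T h) (mem_cons (W135 D T h) (mem_cons (W412 D T h) mem_nil))) cl871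
theorem W3846 : WFK w3846 := fun D T h => wf_of_chk h mem_nil (mem_cons (L871 D T h) mem_nil) cw3846
theorem W3847 : WFK w3847 := fun D T h => wf_of_chk h (mem_cons (W3846 D T h) (mem_cons (W16 D T h) mem_nil)) mem_nil cw3847
theorem W3848 : WFK w3848 := fun D T h => wf_of_chk h mem_nil (mem_cons (L823 D T h) mem_nil) cw3848
theorem W3849 : WFK w3849 := fun D T h => wf_of_chk h (mem_cons (W3848 D T h) (mem_cons (W1063 D T h) mem_nil)) mem_nil cw3849
theorem W3850 : WFK w3850 := fun D T h => wf_of_chk h (mem_cons (W1166 D T h) mem_nil) mem_nil cw3850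
theorem W3851 : WFK w3851 := fun D T h => wf_of_chk h (mem_cons (W281 D T h) mem_nil) mem_nil cw3851
theorem L872 : LFK l872 := fun D T h => lf_of_chk h (mem_cons (W1166 D T h) (mem_cons (W83 D T h) (mem_cons (W69 D T h) (mem_cons (W1 D T h) (mem_cons (W93 D T h) (mem_cons (W91 D T h) (mem_cons (W3565 D T h) (mem_cons (W80 D T h) (mem_cons (W3816 D T h) (mem_cons (W3817 D T h) (mem_cons (W521 D T h) (mem_cons (W3818 D T h) (mem_cons (W1355 D T h) (mem_cons (W3819 D T h) (mem_cons (W627 D T h) (mem_cons (W3851 D T h) (mem_cons (W111 D T h) (mem_cons (W370 D T h) (mem_cons (W721 D T h) (mem_cons (W114 D T h) (mem_cons (W3820 D T h) (mem_cons (W267 D T h) mem_nil)))))))))))))))))))))) cl872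
theorem W3852 : WFK w3852 := fun D T h => wf_of_chk h mem_nil (mem_cons (L872 D T h) mem_nil) cw3852
theorem W3853 : WFK w3853 := fun D T h => wf_of_chk h (mem_cons (W3852 D T h) (mem_cons (W16 D T h) mem_nil)) mem_nil cw3853
theorem L873 : LFK l873 := fun D T h => lf_of_chk h (mem_cons (W1166 D T h) (mem_cons (W1188 D T h) (mem_cons (W1 D T h) (mem_cons (W682 D T h) (mem_cons (W3565 D T h) (mem_cons (W83 D T h) (mem_cons (W93 D T h) (mem_cons (W3688 D T h) (mem_cons (W1501 D T h) (mem_cons (W91 D T h) (mem_cons (W3847 D T h) (mem_cons (W80 D T h) (mem_cons (W3849 D T h) (mem_cons (W3850 D T h) (mem_cons (W1355 D T h) (mem_cons (W521 D T h) (mem_cons (W3822 D T h) (mem_cons (W3845 D T h) (mem_cons (W111 D T h) (mem_cons (W370 D T h) (mem_cons (W721 D T h) (mem_cons (W2245 D T h) (mem_cons (W267 D T h) (mem_cons (W114 D T h) (mem_cons (W3853 D T h) mem_nil))))))))))))))))))))))))) cl873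
theorem W3854 : WFK w3854 := fun D T h => wf_of_chk h mem_nil (mem_cons (L873 D T h) mem_nil) cw3854
theorem W3855 : WFK w3855 := fun D T h => wf_of_chk h mem_nil (mem_cons (L823 D T h) mem_nil) cw3855
theorem W3856 : WFK w3856 := fun D T h => wf_of_chk h mem_nil (mem_cons (L340 D T h) mem_nil) cw3856
theorem W3857 : WFK w3857 := fun D T h => wf_of_chk h (mem_cons (W922 D T h) mem_nil) mem_nil cw3857
theorem L874 : LFK l874 := fun D T h => lf_of_chk h (mem_cons (W848 D T h) (mem_cons (W922 D T h) (mem_cons (W4 D T h) (mem_cons (W33 D T h) (mem_cons (W844 D T h) (mem_cons (W18 D T h) (mem_cons (W411 D T h) (mem_cons (W2572 D T h) (mem_cons (W846 D T h) (mem_cons (W142 D T h) (mem_cons (W845 D T h) (mem_cons (W3781 D T h) (mem_cons (W3856 D T h) (mem_cons (W3857 D T h) mem_nil)))))))))))))) cl874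
theorem W3858 : WFK w3858 := fun D T h => wf_of_chk h mem_nil (mem_cons (L874 D T h) mem_nil) cw3858
theorem W3860 : WFK w3860 := fun D T h => wf_of_chk h mem_nil (mem_cons (L871 D T h) mem_nil) cw3860
theorem W3861 : WFK w3861 := fun D T h => wf_of_chk h mem_nil (mem_cons (L871 D T h) mem_nil) cw3861
theorem W3864 : WFK w3864 := fun D T h => wf_of_chk h mem_nil (mem_cons (L256 D T h) mem_nil) cw3864
theorem L876 : LFK l876 := fun D T h => lf_of_chk h (mem_cons (W3860 D T h) (mem_cons (W808 D T h) (mem_cons (W281 D T h) (mem_cons (W802 D T h) (mem_cons (W3864 D T h) (mem_cons (W831 D T h) (mem_cons (W3861 D T h) (mem_cons (W603 D T h) (mem_cons (W906 D T h) mem_nil))))))))) cl876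
theorem W3865 : WFK w3865 := fun D T h => wf_of_chk h mem_nil (mem_cons (L876 D T h) mem_nil) cw3865
theorem L877 : LFK l877 := fun D T h => lf_of_chk h (mem_cons (W795 D T h) (mem_cons (W1 D T h) (mem_cons (W802 D T h) (mem_cons (W808 D T h) (mem_cons (W3855 D T h) (mem_cons (W831 D T h) (mem_cons (W604 D T h) (mem_cons (W603 D T h) (mem_cons (W1947 D T h) (mem_cons (W3858 D T h) (mem_cons (W850 D T h) (mem_cons (W3865 D T h) mem_nil)))))))))))) cl877
theorem W3866 : WFK w3866 := fun D T h => wf_of_chk h mem_nil (mem_cons (L877 D T h) mem_nil) cw3866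
theorem W3867 : WFK w3867 := fun D T h => wf_of_chk h (mem_cons (W3866 D T h) (mem_cons (W1063 D T h) mem_nil)) mem_nil cw3867
theorem W3868 : WFK w3868 := fun D T h => wf_of_chk h (mem_cons (W126 D T h) (mem_cons (W2272 D T h) mem_nil)) mem_nil cw3868
theorem W3871 : WFK w3871 := fun D T h => wf_of_chk h (mem_cons (W831 D T h) mem_nil) mem_nil cw3871
theorem L878 : LFK l878 := fun D T h => lf_of_chk h (mem_cons (W1 D T h) (mem_cons (W709 D T h) (mem_cons (W91 D T h) (mem_cons (W4 D T h) (mem_cons (W158 D T h) (mem_cons (W33 D T h) (mem_cons (W10 D T h) (mem_cons (W109 D T h) (mem_cons (W815 D T h) (mem_cons (W174 D T h) (mem_cons (W161 D T h) (mem_cons (W819 D T h) mem_nil)))))))))))) cl878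
theorem W3878 : WFK w3878 := fun D T h => wf_of_chk h mem_nil (mem_cons (L878 D T h) mem_nil) cw3878
theorem W3879 : WFK w3879 := fun D T h => wf_of_chk h (mem_cons (W3878 D T h) (mem_cons (W2272 D T h) mem_nil)) mem_nil cw3879
theorem W3880 : WFK w3880 := fun D T h => wf_of_chk h (mem_cons (W2272 D T h) mem_nil) mem_nil cw3880
theorem W3881 : WFK w3881 := fun D T h => wf_of_chk h (mem_cons (W368 D T h) (mem_cons (W2272 D T h) mem_nil)) mem_nil cw3881
theorem W3882 : WFK w3882 := fun D T h => wf_of_chk h (mem_cons (W126 D T h) (mem_cons (W2272 D T h) mem_nil)) mem_nil cw3882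
theorem W3884 : WFK w3884 := fun D T h => wf_of_chk h (mem_cons (W80 D T h) mem_nil) mem_nil cw3884
theorem W3888 : WFK w3888 := fun D T h => wf_of_chk h mem_nil (mem_cons (L640 D T h) mem_nil) cw3888
theorem W3894 : WFK w3894 := fun D T h => wf_of_chk h (mem_cons (W3878 D T h) (mem_cons (W2272 D T h) mem_nil)) mem_nil cw3894
theorem L879 : LFK l879 := fun D T h => lf_of_chk h (mem_cons (W3629 D T h) (mem_cons (W3854 D T h) (mem_cons (W1188 D T h) (mem_cons (W2272 D T h) (mem_cons (W34 D T h) (mem_cons (W682 D T h) (mem_cons (W1063 D T h) (mem_cons (W3619 D T h) (mem_cons (W3630 D T h) (mem_cons (W16 D T h) (mem_cons (W3631 D T h) (mem_cons (W3746 D T h) (mem_cons (W2015 D T h) (mem_cons (W2037 D T h) (mem_cons (W3748 D T h) (mem_cons (W2709 D T h) (mem_cons (W3745 D T h) (mem_cons (W3632 D T h) (mem_cons (W1166 D T h) (mem_cons (W3634 D T h) (mem_cons (W128 D T h) (mem_cons (W3636 D T h) (mem_cons (W3732 D T h) (mem_cons (W799 D T h) (mem_cons (W3733 D T h) (mem_cons (W3735 D T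 h) (mem_cons (W3736 D T h) (mem_cons (W3737 D T h) (mem_cons (W3749 D T h) (mem_cons (W2265 D T h) (mem_cons (W3751 D T h) (mem_cons (W3752 D T h) (mem_cons (W3753 D T h) (mem_cons (W3803 D T h) (mem_cons (W3808 D T h) (mem_cons (W3810 D T h) (mem_cons (W3812 D T h) (mem_cons (W3813 D T h) (mem_cons (W3814 D T h) (mem_cons (W3844 D T h) (mem_cons (W3867 D T h) (mem_cons (W111 D T h) (mem_cons (W3258 D T h) (mem_cons (W1065 D T h) (mem_cons (W3868 D T h) (mem_cons (W3879 D T h) (mem_cons (W3880 D T h) (mem_cons (W3881 D T h) (mem_cons (W3882 D T h) (mem_cons (W3894 D T h) mem_nil)))))))))))))))))))))))))))))))))))))))))))))))))) cl879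
theorem W3895 : WFK w3895 := fun D T h => wf_of_chk h mem_nil (mem_cons (L879 D T h) mem_nil) cw3895
theorem L880 : LFK l880 := fun D T h => lf_of_chk h (mem_cons (W261 D T h) (mem_cons (W15 D T h) (mem_cons (W219 D T h) (mem_cons (W170 D T h) (mem_cons (W2797 D T h) (mem_cons (W1554 D T h) (mem_cons (W3193 D T h) mem_nil))))))) cl880
theorem W3896 : WFK w3896 := fun D T h => wf_of_chk h mem_nil (mem_cons (L880 D T h) mem_nil) cw3896
theorem W3897 : WFK w3897 := fun D T h => wf_of_chk h (mem_cons (W3305 D T h) (mem_cons (W34 D T h) mem_nil)) mem_nil cw3897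
theorem W3898 : WFK w3898 := fun D T h => wf_of_chk h mem_nil (mem_cons (L786 D T h) mem_nil) cw3898
theorem W3899 : WFK w3899 := fun D T h => wf_of_chk h (mem_cons (W3898 D T h) (mem_cons (W34 D T h) mem_nil)) mem_nil cw3899
theorem W3900 : WFK w3900 := fun D T h => wf_of_chk h (mem_cons (W1291 D T h) (mem_cons (W34 D T h) mem_nil)) mem_nil cw3900
theorem W3901 : WFK w3901 := fun D T h => wf_of_chk h (mem_cons (W1310 D T h) (mem_cons (W34 D T h) mem_nil)) mem_nil cw3901
theorem L881 : LFK l881 := fun D T h => lf_of_chk h (mem_cons (W3512 D T h) (mem_cons (W3513 D T h) (mem_cons (W933 D T h) (mem_cons (W34 D T h) (mem_cons (W37 D T h) (mem_cons (W3618 D T h) (mem_cons (W3619 D T h) (mem_cons (W1188 D T h) (mem_cons (W2272 D T h) (mem_cons (W3504 D T h) (mem_cons (W3900 D T h) (mem_cons (W2221 D T h) (mem_cons (W3901 D T h) (mem_cons (W3895 D T h) (mem_cons (W2037 D T h) (mem_cons (W3896 D T h) (mem_cons (W3897 D T h) (mem_cons (W3899 D T h) (mem_cons (W3620 D T h) (mem_cons (W3621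 D T h) (mem_cons (W3397 D T h) (mem_cons (W3622 D T h) (mem_cons (W3623 D T h) (mem_cons (W3624 D T h) (mem_cons (W3625 D T h) (mem_cons (W3626 D T h) (mem_cons (W3627 D T h) (mem_cons (W909 D T h) (mem_cons (W3613 D T h) (mem_cons (W3614 D T h) (mem_cons (W3615 D T h) (mem_cons (W3616 D T h) (mem_cons (W3617 D T h) (mem_cons (W3519 D T h) (mem_cons (W111 D T h) (mem_cons (W3192 D T h) (mem_cons (W1065 D T h) (mem_cons (W3520 D T h) (mem_cons (W934 D T h) (mem_cons (W3514 D T h) (mem_cons (W3516 D T h) (mem_cons (W1166 D T h) (mem_cons (W3517 D T h) mem_nil))))))))))))))))))))))))))))))))))))))))))) cl881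
theorem W3902 : WFK w3902 := fun D T h => wf_of_chk h mem_nil (mem_cons (L881 D T h) mem_nil) cw3902
theorem W3903 : WFK w3903 := fun D T h => wf_of_chk h mem_nil (mem_cons (L552 D T h) mem_nil) cw3903
theorem W3904 : WFK w3904 := fun D T h => wf_of_chk h (mem_cons (W1291 D T h) (mem_cons (W37 D T h) mem_nil)) mem_nil cw3904
theorem L882 : LFK l882 := fun D T h => lf_of_chk h (mem_cons (W3000 D T h) (mem_cons (W37 D T h) (mem_cons (W933 D T h) (mem_cons (W3511 D T h) (mem_cons (W3504 D T h) (mem_cons (W3904 D T h) (mem_cons (W2888 D T h) (mem_cons (W3902 D T h) (mem_cons (W2037 D T h) (mem_cons (W3896 D T h) (mem_cons (W3903 D T h) (mem_cons (W3001 D T h) (mem_cons (W3507 D T h) (mem_cons (W1322 D T h) (mem_cons (W3508 D T h) (mem_cons (W3509 D T h) (mem_cons (W3510 D T h) mem_nil))))))))))))))))) cl882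
theorem W3905 : WFK w3905 := fun D T h => wf_of_chk h mem_nil (mem_cons (L882 D T h) mem_nil) cw3905
theorem W3906 : WFK w3906 := fun D T h => wf_of_chk h (mem_cons (W284 D T h) (mem_cons (W16 D T h) mem_nil)) mem_nil cw3906
theorem W3907 : WFK w3907 := fun D T h => wf_of_chk h (mem_cons (W1310 D T h) (mem_cons (W37 D T h) mem_nil)) mem_nil cw3907
theorem W3908 : WFK w3908 := fun D T h => wf_of_chk h (mem_cons (W2027 D T h) (mem_cons (W16 D T h) mem_nil)) mem_nil cw3908
theorem W3909 : WFK w3909 := fun D T h => wf_of_chk h (mem_cons (W284 D T h) (mem_cons (W16 D T h) mem_nil)) mem_nil cw3909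
theorem L883 : LFK l883 := fun D T h => lf_of_chk h (mem_cons (W284 D T h) (mem_cons (W1019 D T h) (mem_cons (W1063 D T h) (mem_cons (W16 D T h) (mem_cons (W3227 D T h) (mem_cons (W42 D T h) (mem_cons (W1346 D T h) (mem_cons (W2037 D T h) (mem_cons (W15 D T h) (mem_cons (W3505 D T h) (mem_cons (W128 D T h) (mem_cons (W1139 D T h) (mem_cons (W261 D T h) (mem_cons (W2520 D T h) mem_nil)))))))))))))) cl883
theorem W3910 : WFK w3910 := fun D T h => wf_of_chk h mem_nil (mem_cons (L883 D T h) mem_nil) cw3910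
theorem W3911 : WFK w3911 := fun D T h => wf_of_chk h (mem_cons (W1211 D T h) (mem_cons (W16 D T h) mem_nil)) mem_nil cw3911
theorem W3912 : WFK w3912 := fun D T h => wf_of_chk h (mem_cons (W16 D T h) (mem_cons (W284 D T h) mem_nil)) mem_nil cw3912
theorem W3913 : WFK w3913 := fun D T h => wf_of_chk h (mem_cons (W164 D T h) (mem_cons (W2990 D T h) mem_nil)) mem_nil cw3913
theorem W3914 : WFK w3914 := fun D T h => wf_of_chk h (mem_cons (W114 D T h) (mem_cons (W2989 D T h) mem_nil)) mem_nil cw3914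
theorem W3915 : WFK w3915 := fun D T h => wf_of_chk h (mem_cons (W220 D T h) (mem_cons (W284 D T h) mem_nil)) mem_nil cw3915
theorem W3916 : WFK w3916 := fun D T h => wf_of_chk h (mem_cons (W1067 D T h) (mem_cons (W2990 D T h) mem_nil)) mem_nil cw3916
theorem W3917 : WFK w3917 := fun D T h => wf_of_chk h (mem_cons (W220 D T h) (mem_cons (W284 D T h) mem_nil)) mem_nil cw3917
theorem W3918 : WFK w3918 := fun D T h => wf_of_chk h (mem_cons (W1019 D T h) (mem_cons (W2990 D T h) mem_nil)) mem_nil cw3918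
theorem W3919 : WFK w3919 := fun D T h => wf_of_chk h (mem_cons (W267 D T h) (mem_cons (W2990 D T h) mem_nil)) mem_nil cw3919
theorem W3920 : WFK w3920 := fun D T h => wf_of_chk h (mem_cons (W1139 D T h) (mem_cons (W16 D T h) mem_nil)) mem_nil cw3920
theorem W3921 : WFK w3921 := fun D T h => wf_of_chk h (mem_cons (W1139 D T h) (mem_cons (W16 D T h) mem_nil)) mem_nil cw3921
theorem W3922 : WFK w3922 := fun D T h => wf_of_chk h (mem_cons (W128 D T h) (mem_cons (W16 D T h) mem_nil)) mem_nil cw3922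
theorem W3923 : WFK w3923 := fun D T h => wf_of_chk h (mem_cons (W1312 D T h) (mem_cons (W2990 D T h) mem_nil)) mem_nil cw3923
theorem W3924 : WFK w3924 := fun D T h => wf_of_chk h (mem_cons (W162 D T h) (mem_cons (W284 D T h) mem_nil)) mem_nil cw3924
theorem W3925 : WFK w3925 := fun D T h => wf_of_chk h (mem_cons (W2037 D T h) (mem_cons (W16 D T h) mem_nil)) mem_nil cw3925
theorem W3926 : WFK w3926 := fun D T h => wf_of_chk h (mem_cons (W1019 D T h) (mem_cons (W16 D T h) mem_nil)) mem_nil cw3926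
theorem W3927 : WFK w3927 := fun D T h => wf_of_chk h (mem_cons (W167 D T h) (mem_cons (W16 D T h) mem_nil)) mem_nil cw3927
theorem W3928 : WFK w3928 := fun D T h => wf_of_chk h (mem_cons (W16 D T h) mem_nil) mem_nil cw3928
theorem L884 : LFK l884 := fun D T h => lf_of_chk h (mem_cons (W3912 D T h) (mem_cons (W3925 D T h) (mem_cons (W16 D T h) (mem_cons (W3926 D T h) (mem_cons (W3571 D T h) (mem_cons (W2868 D T h) (mem_cons (W2861 D T h) (mem_cons (W2839 D T h) (mem_cons (W337 D T h) (mem_cons (W1599 D T h) (mem_cons (W3918 D T h) (mem_cons (W284 D T h) (mem_cons (W3304 D T h) (mem_cons (W3913 D T h) (mem_cons (W3923 D T h) (mem_cons (W2934 D T h) (mem_cons (W3924 D T h) (mem_cons (W2834 D T h) (mem_cons (W3914 D T h) (mem_cons (W2828 D T h) (mem_cons (W3915 D T h) (mem_cons (W3916 D T h) (mem_cons (W3917 D T h) (mem_cons (W3919 D T h) (mem_cons (W128 D T h) (mem_cons (W1139 D T h) (mem_cons (W2848 D T h) (mem_cons (W3920 D T h) (mem_cons (W3921 D T h) (mem_cons (W3922 D T h) (mem_cons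 (W3909 D T h) (mem_cons (W3928 D T h) mem_nil)))))))))))))))))))))))))))))))) cl884
theorem W3929 : WFK w3929 := fun D T h => wf_of_chk h mem_nil (mem_cons (L884 D T h) mem_nil) cw3929
theorem W3930 : WFK w3930 := fun D T h => wf_of_chk h (mem_cons (W164 D T h) (mem_cons (W2989 D T h) mem_nil)) mem_nil cw3930
theorem W3931 : WFK w3931 := fun D T h => wf_of_chk h (mem_cons (W114 D T h) (mem_cons (W2989 D T h) mem_nil)) mem_nil cw3931
theorem W3932 : WFK w3932 := fun D T h => wf_of_chk h (mem_cons (W1067 D T h) (mem_cons (W2989 D T h) mem_nil)) mem_nil cw3932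
theorem W3933 : WFK w3933 := fun D T h => wf_of_chk h (mem_cons (W1019 D T h) (mem_cons (W2989 D T h) mem_nil)) mem_nil cw3933
theorem W3934 : WFK w3934 := fun D T h => wf_of_chk h (mem_cons (W267 D T h) (mem_cons (W2989 D T h) mem_nil)) mem_nil cw3934
theorem W3935 : WFK w3935 := fun D T h => wf_of_chk h (mem_cons (W1312 D T h) (mem_cons (W2989 D T h) mem_nil)) mem_nil cw3935
theorem W3936 : WFK w3936 := fun D T h => wf_of_chk h (mem_cons (W16 D T h) (mem_cons (W337 D T h) mem_nil)) mem_nil cw3936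
theorem W3937 : WFK w3937 := fun D T h => wf_of_chk h (mem_cons (W16 D T h) (mem_cons (W337 D T h) mem_nil)) mem_nil cw3937
theorem L885 : LFK l885 := fun D T h => lf_of_chk h (mem_cons (W3912 D T h) (mem_cons (W3927 D T h) (mem_cons (W16 D T h) (mem_cons (W3936 D T h) (mem_cons (W2868 D T h) (mem_cons (W3571 D T h) (mem_cons (W2861 D T h) (mem_cons (W337 D T h) (mem_cons (W2839 D T h) (mem_cons (W1599 D T h) (mem_cons (W2050 D T h) (mem_cons (W3933 D T h) (mem_cons (W284 D T h) (mem_cons (W3304 D T h) (mem_cons (W3930 D T h) (mem_cons (W3935 D T h) (mem_cons (W2934 D T h) (mem_cons (W3924 D T h) (mem_cons (W2834 D T h) (mem_cons (W3931 D T h) (mem_cons (W2828 D T h) (mem_cons (W3915 D T h) (mem_cons (W3932 D T h) (mem_cons (W3917 D T h) (mem_cons (W3934 D T h) (mem_cons (W1139 D T h) (mem_cons (W128 D T h) (mem_cons (W2848 D T h) (mem_cons (W3921 D T h) (mem_cons (W3920 D T h) (mem_cons (W3922 D T h) (mem_cons (W3926 D T h) (mem_cons (W3909 D T h) (mem_cons (W2874 D T h) mem_nil))))))))))))))))))))))))))))))))))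 cl885
theorem W3938 : WFK w3938 := fun D T h => wf_of_chk h mem_nil (mem_cons (L885 D T h) mem_nil) cw3938
theorem W3939 : WFK w3939 := fun D T h => wf_of_chk h (mem_cons (W710 D T h) (mem_cons (W804 D T h) mem_nil)) mem_nil cw3939
theorem W3940 : WFK w3940 := fun D T h => wf_of_chk h (mem_cons (W3898 D T h) (mem_cons (W37 D T h) mem_nil)) mem_nil cw3940
theorem W3941 : WFK w3941 := fun D T h => wf_of_chk h (mem_cons (W1291 D T h) (mem_cons (W37 D T h) mem_nil)) mem_nil cw3941
theorem W3942 : WFK w3942 := fun D T h => wf_of_chk h mem_nil (mem_cons (L295 D T h) mem_nil) cw3942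
theorem W3943 : WFK w3943 := fun D T h => wf_of_chk h mem_nil (mem_cons (L753 D T h) mem_nil) cw3943
theorem W3944 : WFK w3944 := fun D T h => wf_of_chk h (mem_cons (W105 D T h) (mem_cons (W37 D T h) mem_nil)) mem_nil cw3944
theorem W3945 : WFK w3945 := fun D T h => wf_of_chk h (mem_cons (W255 D T h) (mem_cons (W37 D T h) mem_nil)) mem_nil cw3945
theorem W3946 : WFK w3946 := fun D T h => wf_of_chk h mem_nil (mem_cons (L660 D T h) mem_nil) cw3946
theorem W3947 : WFK w3947 := fun D T h => wf_of_chk h (mem_cons (W3766 D T h) (mem_cons (W37 D T h) mem_nil)) mem_nil cw3947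
theorem W3948 : WFK w3948 := fun D T h => wf_of_chk h (mem_cons (W181 D T h) (mem_cons (W37 D T h) mem_nil)) mem_nil cw3948
theorem W3949 : WFK w3949 := fun D T h => wf_of_chk h mem_nil (mem_cons (L753 D T h) mem_nil) cw3949
theorem W3950 : WFK w3950 := fun D T h => wf_of_chk h mem_nil (mem_cons (L385 D T h) mem_nil) cw3950
theorem W3951 : WFK w3951 := fun D T h => wf_of_chk h (mem_cons (W16 D T h) (mem_cons (W267 D T h) mem_nil)) mem_nil cw3951
theorem W3952 : WFK w3952 := fun D T h => wf_of_chk h (mem_cons (W164 D T h) mem_nil) mem_nil cw3952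
theorem W3953 : WFK w3953 := fun D T h => wf_of_chk h mem_nil (mem_cons (L671 D T h) mem_nil) cw3953
theorem W3954 : WFK w3954 := fun D T h => wf_of_chk h (mem_cons (W164 D T h) mem_nil) mem_nil cw3954
theorem W3955 : WFK w3955 := fun D T h => wf_of_chk h (mem_cons (W1312 D T h) mem_nil) mem_nil cw3955
theorem W3956 : WFK w3956 := fun D T h => wf_of_chk h (mem_cons (W162 D T h) (mem_cons (W267 D T h) mem_nil)) mem_nil cw3956
theorem W3957 : WFK w3957 := fun D T h => wf_of_chk h (mem_cons (W114 D T h) mem_nil) mem_nil cw3957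
theorem W3958 : WFK w3958 := fun D T h => wf_of_chk h mem_nil (mem_cons (L81 D T h) mem_nil) cw3958
theorem W3959 : WFK w3959 := fun D T h => wf_of_chk h (mem_cons (W1067 D T h) mem_nil) mem_nil cw3959
theorem W3960 : WFK w3960 := fun D T h => wf_of_chk h (mem_cons (W220 D T h) (mem_cons (W267 D T h) mem_nil)) mem_nil cw3960
theorem W3961 : WFK w3961 := fun D T h => wf_of_chk h mem_nil (mem_cons (L81 D T h) mem_nil) cw3961
theorem W3962 : WFK w3962 := fun D T h => wf_of_chk h (mem_cons (W3961 D T h) mem_nil) mem_nil cw3962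
theorem W3963 : WFK w3963 := fun D T h => wf_of_chk h (mem_cons (W220 D T h) (mem_cons (W267 D T h) mem_nil)) mem_nil cw3963
theorem W3964 : WFK w3964 := fun D T h => wf_of_chk h (mem_cons (W1019 D T h) mem_nil) mem_nil cw3964
theorem W3965 : WFK w3965 := fun D T h => wf_of_chk h mem_nil (mem_cons (L745 D T h) mem_nil) cw3965
theorem W3966 : WFK w3966 := fun D T h => wf_of_chk h (mem_cons (W220 D T h) mem_nil) mem_nil cw3966
theorem W3967 : WFK w3967 := fun D T h => wf_of_chk h (mem_cons (W220 D T h) mem_nil) mem_nil cw3967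
theorem W3968 : WFK w3968 := fun D T h => wf_of_chk h (mem_cons (W2844 D T h) mem_nil) mem_nil cw3968
theorem W3969 : WFK w3969 := fun D T h => wf_of_chk h (mem_cons (W262 D T h) (mem_cons (W16 D T h) mem_nil)) mem_nil cw3969
theorem W3970 : WFK w3970 := fun D T h => wf_of_chk h (mem_cons (W220 D T h) mem_nil) mem_nil cw3970
theorem W3971 : WFK w3971 := fun D T h => wf_of_chk h (mem_cons (W3970 D T h) (mem_cons (W16 D T h) mem_nil)) mem_nil cw3971
theorem W3972 : WFK w3972 := fun D T h => wf_of_chk h (mem_cons (W3970 D T h) (mem_cons (W16 D T h) mem_nil)) mem_nil cw3972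
theorem W3973 : WFK w3973 := fun D T h => wf_of_chk h (mem_cons (W162 D T h) (mem_cons (W16 D T h) mem_nil)) mem_nil cw3973
theorem W3974 : WFK w3974 := fun D T h => wf_of_chk h (mem_cons (W162 D T h) (mem_cons (W16 D T h) mem_nil)) mem_nil cw3974
theorem W3975 : WFK w3975 := fun D T h => wf_of_chk h (mem_cons (W817 D T h) (mem_cons (W16 D T h) mem_nil)) mem_nil cw3975
theorem W3976 : WFK w3976 := fun D T h => wf_of_chk h (mem_cons (W1932 D T h) (mem_cons (W16 D T h) mem_nil)) mem_nil cw3976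
theorem W3977 : WFK w3977 := fun D T h => wf_of_chk h (mem_cons (W337 D T h) mem_nil) mem_nil cw3977
theorem W3978 : WFK w3978 := fun D T h => wf_of_chk h (mem_cons (W337 D T h) mem_nil) mem_nil cw3978
theorem W3979 : WFK w3979 := fun D T h => wf_of_chk h (mem_cons (W337 D T h) mem_nil) mem_nil cw3979
theorem W3980 : WFK w3980 := fun D T h => wf_of_chk h (mem_cons (W337 D T h) mem_nil) mem_nil cw3980
theorem L886 : LFK l886 := fun D T h => lf_of_chk h (mem_cons (W3951 D T h) (mem_cons (W3973 D T h) (mem_cons (W3974 D T h) (mem_cons (W2839 D T h) (mem_cons (W126 D T h) (mem_cons (W16 D T h) (mem_cons (W267 D T h) (mem_cons (W970 D T h) (mem_cons (W3952 D T h) (mem_cons (W3953 D T h) (mem_cons (W3954 D T h) (mem_cons (W3955 D T h) (mem_cons (W284 D T h) (mem_cons (W2934 D T h) (mem_cons (W3956 D T h) (mem_cons (W1227 D T h) (mem_cons (W3957 D T h) (mem_cons (W3958 D T h) (mem_cons (W3959 D T h) (mem_cons (W3960 D T h) (mem_cons (W3962 D T h) (mem_cons (W3963 D T h) (mem_cons (W3964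 D T h) (mem_cons (W721 D T h) (mem_cons (W2709 D T h) (mem_cons (W1019 D T h) (mem_cons (W2936 D T h) (mem_cons (W3965 D T h) (mem_cons (W3966 D T h) (mem_cons (W1414 D T h) (mem_cons (W2938 D T h) (mem_cons (W3967 D T h) (mem_cons (W3968 D T h) (mem_cons (W3969 D T h) (mem_cons (W3922 D T h) (mem_cons (W3971 D T h) (mem_cons (W3972 D T h) (mem_cons (W3975 D T h) (mem_cons (W3976 D T h) (mem_cons (W3979 D T h) mem_nil)))))))))))))))))))))))))))))))))))))))) cl886
theorem W3981 : WFK w3981 := fun D T h => wf_of_chk h mem_nil (mem_cons (L886 D T h) mem_nil) cw3981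
theorem W3982 : WFK w3982 := fun D T h => wf_of_chk h mem_nil (mem_cons (L753 D T h) mem_nil) cw3982
theorem W3983 : WFK w3983 := fun D T h => wf_of_chk h (mem_cons (W711 D T h) mem_nil) mem_nil cw3983
theorem W3984 : WFK w3984 := fun D T h => wf_of_chk h (mem_cons (W711 D T h) mem_nil) mem_nil cw3984
theorem L887 : LFK l887 := fun D T h => lf_of_chk h (mem_cons (W267 D T h) (mem_cons (W448 D T h) (mem_cons (W368 D T h) (mem_cons (W401 D T h) (mem_cons (W39 D T h) (mem_cons (W3 D T h) (mem_cons (W1412 D T h) (mem_cons (W652 D T h) (mem_cons (W1890 D T h) (mem_cons (W262 D T h) (mem_cons (W1414 D T h) (mem_cons (W743 D T h) (mem_cons (W815 D T h) (mem_cons (W3983 D T h) (mem_cons (W1272 D T h) (mem_cons (W255 D T h) (mem_cons (W256 D T h) (mem_cons (W257 D T h) (mem_cons (W3984 D T h) mem_nil))))))))))))))))))) cl887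
theorem W3985 : WFK w3985 := fun D T h => wf_of_chk h mem_nil (mem_cons (L887 D T h) mem_nil) cw3985
theorem W3986 : WFK w3986 := fun D T h => wf_of_chk h (mem_cons (W50 D T h) (mem_cons (W267 D T h) mem_nil)) mem_nil cw3986
theorem W3987 : WFK w3987 := fun D T h => wf_of_chk h (mem_cons (W50 D T h) (mem_cons (W114 D T h) mem_nil)) mem_nil cw3987
theorem W3988 : WFK w3988 := fun D T h => wf_of_chk h (mem_cons (W284 D T h) mem_nil) mem_nil cw3988
theorem W3989 : WFK w3989 := fun D T h => wf_of_chk h (mem_cons (W16 D T h) (mem_cons (W267 D T h) mem_nil)) mem_nil cw3989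
theorem W3990 : WFK w3990 := fun D T h => wf_of_chk h (mem_cons (W16 D T h) (mem_cons (W114 D T h) mem_nil)) mem_nil cw3990
theorem W3991 : WFK w3991 := fun D T h => wf_of_chk h (mem_cons (W162 D T h) mem_nil) mem_nil cw3991
theorem W3992 : WFK w3992 := fun D T h => wf_of_chk h (mem_cons (W162 D T h) mem_nil) mem_nil cw3992
theorem L888 : LFK l888 := fun D T h => lf_of_chk h (mem_cons (W267 D T h) (mem_cons (W448 D T h) (mem_cons (W368 D T h) (mem_cons (W401 D T h) (mem_cons (W39 D T h) (mem_cons (W3 D T h) (mem_cons (W1412 D T h) (mem_cons (W652 D T h) (mem_cons (W1890 D T h) (mem_cons (W262 D T h) (mem_cons (W1414 D T h) (mem_cons (W743 D T h) (mem_cons (W815 D T h) (mem_cons (W3991 D T h) (mem_cons (W1272 D T h) (mem_cons (W255 D T h) (mem_cons (W256 D T h) (mem_cons (W257 D T h) (mem_cons (W3992 D T h) mem_nil))))))))))))))))))) cl888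
theorem W3993 : WFK w3993 := fun D T h => wf_of_chk h mem_nil (mem_cons (L888 D T h) mem_nil) cw3993
theorem L889 : LFK l889 := fun D T h => lf_of_chk h (mem_cons (W3943 D T h) (mem_cons (W2321 D T h) (mem_cons (W368 D T h) (mem_cons (W126 D T h) (mem_cons (W37 D T h) (mem_cons (W267 D T h) (mem_cons (W702 D T h) (mem_cons (W2022 D T h) (mem_cons (W1350 D T h) (mem_cons (W3989 D T h) (mem_cons (W3990 D T h) (mem_cons (W3988 D T h) (mem_cons (W3993 D T h) (mem_cons (W284 D T h) (mem_cons (W2997 D T h) (mem_cons (W2326 D T h) (mem_cons (W3985 D T h) (mem_cons (W3986 D T h) (mem_cons (W3987 D T h) (mem_cons (W721 D T h) (mem_cons (W178 D T h) (mem_cons (W970 D T h) (mem_cons (W3949 D T h) (mem_cons (W3950 D T h) (mem_cons (W3981 D T h) (mem_cons (W3982 D T h) (mem_cons (W3207 D T h) (mem_cons (W3944 D T h) (mem_cons (W3945 D T h) (mem_cons (W3946 D T h) (mem_cons (W3947 D T h) (mem_cons (W3948 D T h) mem_nil)))))))))))))))))))))))))))))))) cl889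
theorem W3994 : WFK w3994 := fun D T h => wf_of_chk h mem_nil (mem_cons (L889 D T h) mem_nil) cw3994
theorem W3995 : WFK w3995 := fun D T h => wf_of_chk h (mem_cons (W80 D T h) (mem_cons (W37 D T h) mem_nil)) mem_nil cw3995
theorem W3996 : WFK w3996 := fun D T h => wf_of_chk h (mem_cons (W747 D T h) (mem_cons (W37 D T h) mem_nil)) mem_nil cw3996
theorem W3997 : WFK w3997 := fun D T h => wf_of_chk h mem_nil (mem_cons (L660 D T h) mem_nil) cw3997
theorem W3998 : WFK w3998 := fun D T h => wf_of_chk h (mem_cons (W284 D T h) mem_nil) mem_nil cw3998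
theorem W3999 : WFK w3999 := fun D T h => wf_of_chk h mem_nil (mem_cons (L298 D T h) mem_nil) cw3999
theorem W4000 : WFK w4000 := fun D T h => wf_of_chk h (mem_cons (W162 D T h) (mem_cons (W721 D T h) mem_nil)) mem_nil cw4000
theorem W4001 : WFK w4001 := fun D T h => wf_of_chk h (mem_cons (W220 D T h) (mem_cons (W721 D T h) mem_nil)) mem_nil cw4001

end Pool.Agent.W319.GCI.K5
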