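import Pool.Agent.W319.GCI.K5A3
set_option autoImplicit false
set_option maxRecDepth 100000
set_option linter.all false
namespace Pool.Agent.W319.GCI.K5
open Pool.Agent.W319.GCI

theorem W4002 : WFK w4002 := fun D T h => wf_of_chk h (mem_cons (W220 D T h) (mem_cons (W721 D T h) mem_nil)) mem_nil cw4002
theorem W4003 : WFK w4003 := fun D T h => wf_of_chk h (mem_cons (W1297 D T h) (mem_cons (W16 D T h) mem_nil)) mem_nil cw4003
theorem W4004 : WFK w4004 := fun D T h => wf_of_chk h (mem_cons (W1075 D T h) (mem_cons (W16 D T h) mem_nil)) mem_nil cw4004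
theorem W4005 : WFK w4005 := fun D T h => wf_of_chk h (mem_cons (W337 D T h) mem_nil) mem_nil cw4005
theorem L890 : LFK l890 := fun D T h => lf_of_chk h (mem_cons (W3980 D T h) (mem_cons (W3973 D T h) (mem_cons (W3974 D T h) (mem_cons (W2839 D T h) (mem_cons (W368 D T h) (mem_cons (W16 D T h) (mem_cons (W3965 D T h) (mem_cons (W970 D T h) (mem_cons (W3952 D T h) (mem_cons (W3953 D T h) (mem_cons (W3954 D T h) (mem_cons (W3955 D T h) (mem_cons (W284 D T h) (mem_cons (W2934 D T h) (mem_cons (W4000 D T h) (mem_cons (W3964 D T h) (mem_cons (W1227 D T h) (mem_cons (W3957 D T h) (mem_cons (W3958 D T h) (mem_cons (W3959 D T h) (mem_cons (W4001 D T h) (mem_cons (W3962 D T h) (mem_cons (W4002 D T h) (mem_cons (W267 D T h) (mem_cons (W2709 D T h) (mem_cons (W1019 D T h) (mem_cons (W2936 D T h) (mem_cons (W2051 D T h) (mem_cons (W2861 D T h) (mem_cons (W1414 D T h) (mem_cons (W3966 D T h) (mem_cons (W3967 D T h) (mem_cons (W3968 D T h) (mem_cons (W4003 D T h) (mem_cons (W3922 D T h) (mem_cons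 (W3971 D T h) (mem_cons (W3972 D T h) (mem_cons (W4004 D T h) (mem_cons (W3976 D T h) (mem_cons (W4005 D T h) mem_nil)))))))))))))))))))))))))))))))))))))))) cl890
theorem W4006 : WFK w4006 := fun D T h => wf_of_chk h mem_nil (mem_cons (L890 D T h) mem_nil) cw4006
theorem L891 : LFK l891 := fun D T h => lf_of_chk h (mem_cons (W721 D T h) (mem_cons (W42 D T h) (mem_cons (W164 D T h) (mem_cons (W16 D T h) (mem_cons (W3 D T h) (mem_cons (W1409 D T h) (mem_cons (W39 D T h) (mem_cons (W3781 D T h) (mem_cons (W750 D T h) (mem_cons (W1560 D T h) (mem_cons (W819 D T h) (mem_cons (W3031 D T h) (mem_cons (W258 D T h) (mem_cons (W747 D T h) (mem_cons (W746 D T h) (mem_cons (W748 D T h) (mem_cons (W937 D T h) (mem_cons (W2642 D T h) mem_nil)))))))))))))))))) cl891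
theorem W4007 : WFK w4007 := fun D T h => wf_of_chk h mem_nil (mem_cons (L891 D T h) mem_nil) cw4007
theorem W4008 : WFK w4008 := fun D T h => wf_of_chk h (mem_cons (W711 D T h) mem_nil) mem_nil cw4008
theorem L892 : LFK l892 := fun D T h => lf_of_chk h (mem_cons (W721 D T h) (mem_cons (W448 D T h) (mem_cons (W126 D T h) (mem_cons (W1409 D T h) (mem_cons (W39 D T h) (mem_cons (W3 D T h) (mem_cons (W1412 D T h) (mem_cons (W750 D T h) (mem_cons (W1890 D T h) (mem_cons (W1297 D T h) (mem_cons (W3965 D T h) (mem_cons (W1560 D T h) (mem_cons (W815 D T h) (mem_cons (W4008 D T h) (mem_cons (W258 D T h) (mem_cons (W747 D T h) (mem_cons (W746 D T h) (mem_cons (W748 D T h) (mem_cons (W3984 D T h) mem_nil))))))))))))))))))) cl892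
theorem W4009 : WFK w4009 := fun D T h => wf_of_chk h mem_nil (mem_cons (L892 D T h) mem_nil) cw4009
theorem W4010 : WFK w4010 := fun D T h => wf_of_chk h (mem_cons (W50 D T h) (mem_cons (W56 D T h) mem_nil)) mem_nil cw4010
theorem W4011 : WFK w4011 := fun D T h => wf_of_chk h (mem_cons (W50 D T h) (mem_cons (W114 D T h) mem_nil)) mem_nil cw4011
theorem W4012 : WFK w4012 := fun D T h => wf_of_chk h (mem_cons (W16 D T h) mem_nil) mem_nil cw4012
theorem L893 : LFK l893 := fun D T h => lf_of_chk h (mem_cons (W721 D T h) (mem_cons (W448 D T h) (mem_cons (W126 D T h) (mem_cons (W1409 D T h) (mem_cons (W39 D T h) (mem_cons (W3 D T h) (mem_cons (W1412 D T h) (mem_cons (W750 D T h) (mem_cons (W1139 D T h) (mem_cons (W1297 D T h) (mem_cons (W3965 D T h) (mem_cons (W1560 D T h) (mem_cons (W815 D T h) (mem_cons (W4012 D T h) (mem_cons (W258 D T h) (mem_cons (W747 D T h) (mem_cons (W746 D T h) (mem_cons (W748 D T h) (mem_cons (W3284 D T h) mem_nil))))))))))))))))))) cl893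
theorem W4013 : WFK w4013 := fun D T h => wf_of_chk h mem_nil (mem_cons (L893 D T h) mem_nil) cw4013
theorem W4014 : WFK w4014 := fun D T h => wf_of_chk h (mem_cons (W16 D T h) (mem_cons (W56 D T h) mem_nil)) mem_nil cw4014
theorem W4015 : WFK w4015 := fun D T h => wf_of_chk h (mem_cons (W16 D T h) (mem_cons (W114 D T h) mem_nil)) mem_nil cw4015
theorem W4016 : WFK w4016 := fun D T h => wf_of_chk h (mem_cons (W162 D T h) mem_nil) mem_nil cw4016
theorem L894 : LFK l894 := fun D T h => lf_of_chk h (mem_cons (W721 D T h) (mem_cons (W448 D T h) (mem_cons (W126 D T h) (mem_cons (W1409 D T h) (mem_cons (W39 D T h) (mem_cons (W3 D T h) (mem_cons (W1412 D T h) (mem_cons (W750 D T h) (mem_cons (W1890 D T h) (mem_cons (W1297 D T h) (mem_cons (W3965 D T h) (mem_cons (W1560 D T h) (mem_cons (W815 D T h) (mem_cons (W4016 D T h) (mem_cons (W258 D T h) (mem_cons (W747 D T h) (mem_cons (W746 D T h) (mem_cons (W748 D T h) (mem_cons (W3992 D T h) mem_nil))))))))))))))))))) cl894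
theorem W4017 : WFK w4017 := fun D T h => wf_of_chk h mem_nil (mem_cons (L894 D T h) mem_nil) cw4017
theorem L895 : LFK l895 := fun D T h => lf_of_chk h (mem_cons (W3947 D T h) (mem_cons (W2321 D T h) (mem_cons (W126 D T h) (mem_cons (W368 D T h) (mem_cons (W37 D T h) (mem_cons (W721 D T h) (mem_cons (W702 D T h) (mem_cons (W2022 D T h) (mem_cons (W1350 D T h) (mem_cons (W4014 D T h) (mem_cons (W4015 D T h) (mem_cons (W3988 D T h) (mem_cons (W4013 D T h) (mem_cons (W4017 D T h) (mem_cons (W284 D T h) (mem_cons (W2997 D T h) (mem_cons (W2326 D T h) (mem_cons (W4009 D T h) (mem_cons (W4010 D T h) (mem_cons (W4011 D T h) (mem_cons (W267 D T h) (mem_cons (W178 D T h) (mem_cons (W970 D T h) (mem_cons (W3998 D T h) (mem_cons (W3999 D T h) (mem_cons (W4006 D T h) (mem_cons (W4007 D T h) (mem_cons (W3016 D T h) (mem_cons (W3995 D T h) (mem_cons (W3996 D T h) (mem_cons (W3997 D T h) (mem_cons (W3948 D T h) mem_nil)))))))))))))))))))))))))))))))) cl895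
theorem W4018 : WFK w4018 := fun D T h => wf_of_chk h mem_nil (mem_cons (L895 D T h) mem_nil) cw4018
theorem W4019 : WFK w4019 := fun D T h => wf_of_chk h (mem_cons (W2326 D T h) (mem_cons (W37 D T h) mem_nil)) mem_nil cw4019
theorem W4020 : WFK w4020 := fun D T h => wf_of_chk h (mem_cons (W1318 D T h) (mem_cons (W37 D T h) mem_nil)) mem_nil cw4020
theorem L896 : LFK l896 := fun D T h => lf_of_chk h (mem_cons (W2988 D T h) (mem_cons (W2808 D T h) (mem_cons (W3905 D T h) (mem_cons (W16 D T h) (mem_cons (W804 D T h) (mem_cons (W37 D T h) (mem_cons (W2989 D T h) (mem_cons (W2990 D T h) (mem_cons (W2992 D T h) (mem_cons (W3910 D T h) (mem_cons (W3941 D T h) (mem_cons (W2893 D T h) (mem_cons (W3911 D T h) (mem_cons (W284 D T h) (mem_cons (W1213 D T h) (mem_cons (W3929 D T h) (mem_cons (W3938 D T h) (mem_cons (W1318 D T h) (mem_cons (W2991 D T h) (mem_cons (W2993 D T h) (mem_cons (W2995 D T h) (mem_cons (W2996 D T h) (mem_cons (W2998 D T h) (mem_cons (W2999 D T h) (mem_cons (W3504 D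 T h) (mem_cons (W2024 D T h) (mem_cons (W3906 D T h) (mem_cons (W3907 D T h) (mem_cons (W3908 D T h) (mem_cons (W2162 D T h) (mem_cons (W3939 D T h) (mem_cons (W3940 D T h) (mem_cons (W3942 D T h) (mem_cons (W3994 D T h) (mem_cons (W4018 D T h) (mem_cons (W4019 D T h) (mem_cons (W4020 D T h) mem_nil))))))))))))))))))))))))))))))))))))) cl896
theorem W4021 : WFK w4021 := fun D T h => wf_of_chk h mem_nil (mem_cons (L896 D T h) mem_nil) cw4021
theorem W4022 : WFK w4022 := fun D T h => wf_of_chk h mem_nil (mem_cons (L658 D T h) mem_nil) cw4022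
theorem L897 : LFK l897 := fun D T h => lf_of_chk h (mem_cons (W1346 D T h) (mem_cons (W4022 D T h) (mem_cons (W15 D T h) (mem_cons (W1348 D T h) (mem_cons (W1347 D T h) (mem_cons (W1193 D T h) (mem_cons (W16 D T h) (mem_cons (W42 D T h) (mem_cons (W1690 D T h) mem_nil))))))))) cl897
theorem W4023 : WFK w4023 := fun D T h => wf_of_chk h mem_nil (mem_cons (L897 D T h) mem_nil) cw4023
theorem L898 : LFK l898 := fun D T h => lf_of_chk h (mem_cons (W91 D T h) (mem_cons (W124 D T h) (mem_cons (W20 D T h) (mem_cons (W265 D T h) (mem_cons (W3153 D T h) (mem_cons (W878 D T h) (mem_cons (W817 D T h) (mem_cons (W2047 D T h) (mem_cons (W188 D T h) (mem_cons (W48 D T h) (mem_cons (W802 D T h) (mem_cons (W4 D T h) (mem_cons (W2204 D T h) mem_nil))))))))))))) cl898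
theorem W4024 : WFK w4024 := fun D T h => wf_of_chk h mem_nil (mem_cons (L898 D T h) mem_nil) cw4024
theorem W4025 : WFK w4025 := fun D T h => wf_of_chk h mem_nil (mem_cons (L391 D T h) mem_nil) cw4025
theorem W4026 : WFK w4026 := fun D T h => wf_of_chk h mem_nil (mem_cons (L672 D T h) mem_nil) cw4026
theorem L899 : LFK l899 := fun D T h => lf_of_chk h (mem_cons (W1193 D T h) (mem_cons (W56 D T h) (mem_cons (W581 D T h) (mem_cons (W916 D T h) (mem_cons (W16 D T h) (mem_cons (W4025 D T h) (mem_cons (W716 D T h) (mem_cons (W2795 D T h) (mem_cons (W160 D T h) (mem_cons (W4024 D T h) (mem_cons (W1190 D T h) (mem_cons (W1320 D T h) (mem_cons (W261 D T h) (mem_cons (W2892 D T h) (mem_cons (W3766 D T h) (mem_cons (W1997 D T h) (mem_cons (W4026 D T h) mem_nil))))))))))))))))) cl899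
theorem W4027 : WFK w4027 := fun D T h => wf_of_chk h mem_nil (mem_cons (L899 D T h) mem_nil) cw4027
theorem W4028 : WFK w4028 := fun D T h => wf_of_chk h mem_nil (mem_cons (L878 D T h) mem_nil) cw4028
theorem W4032 : WFK w4032 := fun D T h => wf_of_chk h mem_nil (mem_cons (L804 D T h) mem_nil) cw4032
theorem W4033 : WFK w4033 := fun D T h => wf_of_chk h (mem_cons (W4032 D T h) mem_nil) mem_nil cw4033
theorem L900 : LFK l900 := fun D T h => lf_of_chk h (mem_cons (W3766 D T h) (mem_cons (W16 D T h) (mem_cons (W216 D T h) (mem_cons (W243 D T h) mem_nil)))) cl900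
theorem W4034 : WFK w4034 := fun D T h => wf_of_chk h mem_nil (mem_cons (L900 D T h) mem_nil) cw4034
theorem W4035 : WFK w4035 := fun D T h => wf_of_chk h (mem_cons (W3766 D T h) mem_nil) mem_nil cw4035
theorem W4036 : WFK w4036 := fun D T h => wf_of_chk h mem_nil mem_nil cw4036
theorem W4037 : WFK w4037 := fun D T h => wf_of_chk h mem_nil (mem_cons (L862 D T h) mem_nil) cw4037
theorem W4038 : WFK w4038 := fun D T h => wf_of_chk h mem_nil (mem_cons (L878 D T h) mem_nil) cw4038
theorem W4039 : WFK w4039 := fun D T h => wf_of_chk h mem_nil (mem_cons (L340 D T h) mem_nil) cw4039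
theorem L901 : LFK l901 := fun D T h => lf_of_chk h (mem_cons (W833 D T h) (mem_cons (W30 D T h) (mem_cons (W8 D T h) (mem_cons (W3110 D T h) mem_nil)))) cl901
theorem W4040 : WFK w4040 := fun D T h => wf_of_chk h mem_nil (mem_cons (L901 D T h) mem_nil) cw4040
theorem L902 : LFK l902 := fun D T h => lf_of_chk h (mem_cons (W4034 D T h) (mem_cons (W177 D T h) (mem_cons (W4032 D T h) (mem_cons (W397 D T h) (mem_cons (W2047 D T h) (mem_cons (W603 D T h) (mem_cons (W629 D T h) (mem_cons (W2686 D T h) (mem_cons (W520 D T h) (mem_cons (W12 D T h) (mem_cons (W142 D T h) (mem_cons (W3274 D T h) mem_nil)))))))))))) cl902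
theorem W4042 : WFK w4042 := fun D T h => wf_of_chk h mem_nil (mem_cons (L902 D T h) mem_nil) cw4042
theorem W4044 : WFK w4044 := fun D T h => wf_of_chk h mem_nil (mem_cons (L542 D T h) mem_nil) cw4044
theorem W4050 : WFK w4050 := fun D T h => wf_of_chk h mem_nil mem_nil cw4050
theorem W4054 : WFK w4054 := fun D T h => wf_of_chk h (mem_cons (W3766 D T h) mem_nil) mem_nil cw4054
theorem W4058 : WFK w4058 := fun D T h => wf_of_chk h mem_nil (mem_cons (L100 D T h) mem_nil) cw4058
theorem W4065 : WFK w4065 := fun D T h => wf_of_chk h mem_nil mem_nil cw4065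
theorem W4068 : WFK w4068 := fun D T h => wf_of_chk h mem_nil (mem_cons (L55 D T h) mem_nil) cw4068
theorem W4071 : WFK w4071 := fun D T h => wf_of_chk h mem_nil (mem_cons (L123 D T h) mem_nil) cw4071
theorem W4072 : WFK w4072 := fun D T h => wf_of_chk h mem_nil mem_nil cw4072
theorem W4073 : WFK w4073 := fun D T h => wf_of_chk h mem_nil mem_nil cw4073
theorem W4077 : WFK w4077 := fun D T h => wf_of_chk h (mem_cons (W23 D T h) (mem_cons (W177 D T h) mem_nil)) mem_nil cw4077
theorem L910 : LFK l910 := fun D T h => lf_of_chk h (mem_cons (W3274 D T h) (mem_cons (W177 D T h) (mem_cons (W195 D T h) (mem_cons (W4034 D T h) (mem_cons (W397 D T h) (mem_cons (W2047 D T h) (mem_cons (W603 D T h) (mem_cons (W2686 D T h) (mem_cons (W629 D T h) (mem_cons (W520 D T h) (mem_cons (W12 D T h) mem_nil))))))))))) cl910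
theorem W4078 : WFK w4078 := fun D T h => wf_of_chk h mem_nil (mem_cons (L910 D T h) mem_nil) cw4078
theorem W4079 : WFK w4079 := fun D T h => wf_of_chk h mem_nil (mem_cons (L910 D T h) mem_nil) cw4079
theorem W4080 : WFK w4080 := fun D T h => wf_of_chk h (mem_cons (W195 D T h) mem_nil) mem_nil cw4080
theorem W4081 : WFK w4081 := fun D T h => wf_of_chk h (mem_cons (W203 D T h) mem_nil) mem_nil cw4081
theorem L911 : LFK l911 := fun D T h => lf_of_chk h (mem_cons (W3766 D T h) (mem_cons (W203 D T h) (mem_cons (W16 D T h) (mem_cons (W3518 D T h) (mem_cons (W3479 D T h) (mem_cons (W4081 D T h) mem_nil)))))) cl911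
theorem W4082 : WFK w4082 := fun D T h => wf_of_chk h mem_nil (mem_cons (L911 D T h) mem_nil) cw4082
theorem L912 : LFK l912 := fun D T h => lf_of_chk h (mem_cons (W3483 D T h) (mem_cons (W4038 D T h) (mem_cons (W4078 D T h) (mem_cons (W195 D T h) (mem_cons (W17 D T h) (mem_cons (W177 D T h) (mem_cons (W1255 D T h) (mem_cons (W1256 D T h) (mem_cons (W4082 D T h) (mem_cons (W3427 D T h) (mem_cons (W3482 D T h) (mem_cons (W3328 D T h) (mem_cons (W3329 D T h) (mem_cons (W4079 D T h) (mem_cons (W4080 D T h) (mem_cons (W3477 D T h) (mem_cons (W495 D T h) (mem_cons (W757 D T h) (mem_cons (W3478 D T h) mem_nil))))))))))))))))))) cl912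
theorem W4083 : WFK w4083 := fun D T h => wf_of_chk h mem_nil (mem_cons (L912 D T h) mem_nil) cw4083
theorem W4084 : WFK w4084 := fun D T h => wf_of_chk h mem_nil (mem_cons (L912 D T h) mem_nil) cw4084
theorem W4085 : WFK w4085 := fun D T h => wf_of_chk h mem_nil (mem_cons (L912 D T h) mem_nil) cw4085
theorem W4086 : WFK w4086 := fun D T h => wf_of_chk h mem_nil (mem_cons (L910 D T h) mem_nil) cw4086
theorem W4087 : WFK w4087 := fun D T h => wf_of_chk h mem_nil (mem_cons (L807 D T h) mem_nil) cw4087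
theorem W4088 : WFK w4088 := fun D T h => wf_of_chk h (mem_cons (W20 D T h) (mem_cons (W177 D T h) mem_nil)) mem_nil cw4088
theorem W4089 : WFK w4089 := fun D T h => wf_of_chk h mem_nil (mem_cons (L829 D T h) mem_nil) cw4089
theorem L913 : LFK l913 := fun D T h => lf_of_chk h (mem_cons (W4032 D T h) (mem_cons (W177 D T h) (mem_cons (W809 D T h) (mem_cons (W91 D T h) (mem_cons (W810 D T h) (mem_cons (W80 D T h) (mem_cons (W830 D T h) (mem_cons (W4 D T h) (mem_cons (W2204 D T h) (mem_cons (W6 D T h) (mem_cons (W812 D T h) mem_nil))))))))))) cl913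
theorem W4090 : WFK w4090 := fun D T h => wf_of_chk h mem_nil (mem_cons (L913 D T h) mem_nil) cw4090
theorem W4091 : WFK w4091 := fun D T h => wf_of_chk h (mem_cons (W161 D T h) (mem_cons (W195 D T h) mem_nil)) mem_nil cw4091
theorem L914 : LFK l914 := fun D T h => lf_of_chk h (mem_cons (W4032 D T h) (mem_cons (W177 D T h) (mem_cons (W906 D T h) (mem_cons (W91 D T h) (mem_cons (W810 D T h) (mem_cons (W80 D T h) (mem_cons (W1949 D T h) (mem_cons (W281 D T h) (mem_cons (W1244 D T h) (mem_cons (W2204 D T h) (mem_cons (W33 D T h) mem_nil))))))))))) cl914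
theorem W4092 : WFK w4092 := fun D T h => wf_of_chk h mem_nil (mem_cons (L914 D T h) mem_nil) cw4092
theorem L915 : LFK l915 := fun D T h => lf_of_chk h (mem_cons (W4038 D T h) (mem_cons (W177 D T h) (mem_cons (W1 D T h) (mem_cons (W195 D T h) (mem_cons (W545 D T h) (mem_cons (W4087 D T h) (mem_cons (W1070 D T h) (mem_cons (W519 D T h) (mem_cons (W4089 D T h) (mem_cons (W4090 D T h) (mem_cons (W4033 D T h) (mem_cons (W4088 D T h) (mem_cons (W3274 D T h) (mem_cons (W1109 D T h) (mem_cons (W1125 D T h) (mem_cons (W4091 D T h) (mem_cons (W3120 D T h) (mem_cons (W4092 D T h) (mem_cons (W1108 D T h) (mem_cons (W4032 D T h) mem_nil)))))))))))))))))))) cl915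
theorem W4093 : WFK w4093 := fun D T h => wf_of_chk h mem_nil (mem_cons (L915 D T h) mem_nil) cw4093
theorem W4094 : WFK w4094 := fun D T h => wf_of_chk h (mem_cons (W1449 D T h) (mem_cons (W177 D T h) mem_nil)) mem_nil cw4094
theorem W4095 : WFK w4095 := fun D T h => wf_of_chk h (mem_cons (W1449 D T h) (mem_cons (W177 D T h) mem_nil)) mem_nil cw4095
theorem W4096 : WFK w4096 := fun D T h => wf_of_chk h (mem_cons (W17 D T h) (mem_cons (W177 D T h) mem_nil)) mem_nil cw4096
theorem W4097 : WFK w4097 := fun D T h => wf_of_chk h mem_nil (mem_cons (L760 D T h) mem_nil) cw4097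
theorem W4098 : WFK w4098 := fun D T h => wf_of_chk h (mem_cons (W16 D T h) (mem_cons (W1408 D T h) mem_nil)) mem_nil cw4098
theorem W4099 : WFK w4099 := fun D T h => wf_of_chk h (mem_cons (W1408 D T h) (mem_cons (W177 D T h) mem_nil)) mem_nil cw4099
theorem L916 : LFK l916 := fun D T h => lf_of_chk h (mem_cons (W795 D T h) (mem_cons (W808 D T h) (mem_cons (W1 D T h) (mem_cons (W210 D T h) (mem_cons (W1928 D T h) (mem_cons (W834 D T h) (mem_cons (W831 D T h) (mem_cons (W603 D T h) (mem_cons (W604 D T h) (mem_cons (W889 D T h) (mem_cons (W1947 D T h) (mem_cons (W1117 D T h) (mem_cons (W1948 D T h) mem_nil))))))))))))) cl916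
theorem W4100 : WFK w4100 := fun D T h => wf_of_chk h mem_nil (mem_cons (L916 D T h) mem_nil) cw4100
theorem L917 : LFK l917 := fun D T h => lf_of_chk h (mem_cons (W1408 D T h) (mem_cons (W17 D T h) (mem_cons (W16 D T h) (mem_cons (W158 D T h) (mem_cons (W105 D T h) (mem_cons (W24 D T h) (mem_cons (W3440 D T h) (mem_cons (W3439 D T h) (mem_cons (W3441 D T h) (mem_cons (W3 D T h) (mem_cons (W4100 D T h) (mem_cons (W3437 D T h) (mem_cons (W1449 D T h) (mem_cons (W1448 D T h) mem_nil)))))))))))))) cl917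
theorem W4101 : WFK w4101 := fun D T h => wf_of_chk h mem_nil (mem_cons (L917 D T h) mem_nil) cw4101
theorem W4102 : WFK w4102 := fun D T h => wf_of_chk h (mem_cons (W495 D T h) (mem_cons (W23 D T h) mem_nil)) mem_nil cw4102
theorem W4103 : WFK w4103 := fun D T h => wf_of_chk h (mem_cons (W497 D T h) (mem_cons (W23 D T h) mem_nil)) mem_nil cw4103
theorem W4104 : WFK w4104 := fun D T h => wf_of_chk h (mem_cons (W16 D T h) (mem_cons (W3434 D T h) mem_nil)) mem_nil cw4104
theorem W4105 : WFK w4105 := fun D T h => wf_of_chk h (mem_cons (W16 D T h) (mem_cons (W3434 D T h) mem_nil)) mem_nil cw4105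
theorem W4106 : WFK w4106 := fun D T h => wf_of_chk h (mem_cons (W508 D T h) (mem_cons (W23 D T h) mem_nil)) mem_nil cw4106
theorem W4107 : WFK w4107 := fun D T h => wf_of_chk h (mem_cons (W16 D T h) (mem_cons (W3436 D T h) mem_nil)) mem_nil cw4107
theorem L918 : LFK l918 := fun D T h => lf_of_chk h (mem_cons (W4077 D T h) (mem_cons (W177 D T h) (mem_cons (W16 D T h) (mem_cons (W195 D T h) (mem_cons (W4038 D T h) (mem_cons (W4078 D T h) (mem_cons (W3474 D T h) (mem_cons (W3483 D T h) (mem_cons (W50 D T h) (mem_cons (W4083 D T h) (mem_cons (W4084 D T h) (mem_cons (W4085 D T h) (mem_cons (W716 D T h) (mem_cons (W4086 D T h) (mem_cons (W4093 D T h) (mem_cons (W4094 D T h) (mem_cons (W3305 D T h) (mem_cons (W3304 D T h) (mem_cons (W4095 D T h) (mem_cons (W4096 D T h) (mem_cons (W1408 D T h) (mem_cons (W1640 D T h) (mem_cons (W3467 D T h) (mem_cons (W4097 D T h) (mem_cons (W3323 D T h) (mem_cons (W4099 D T h) (mem_cons (W3433 D T h) (mem_cons (W3434 D T h) (mem_cons (W3436 D T h) (mem_cons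 (W3448 D T h) (mem_cons (W3443 D T h) (mem_cons (W4104 D T h) (mem_cons (W4105 D T h) (mem_cons (W4106 D T h) (mem_cons (W358 D T h) (mem_cons (W4107 D T h) (mem_cons (W4101 D T h) (mem_cons (W3766 D T h) (mem_cons (W502 D T h) (mem_cons (W4102 D T h) (mem_cons (W3450 D T h) (mem_cons (W4103 D T h) mem_nil)))))))))))))))))))))))))))))))))))))))))) cl918
theorem W4109 : WFK w4109 := fun D T h => wf_of_chk h mem_nil (mem_cons (L294 D T h) mem_nil) cw4109
theorem W4110 : WFK w4110 := fun D T h => wf_of_chk h mem_nil (mem_cons (L294 D T h) mem_nil) cw4110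
theorem W4112 : WFK w4112 := fun D T h => wf_of_chk h (mem_cons (W933 D T h) mem_nil) mem_nil cw4112
theorem L919 : LFK l919 := fun D T h => lf_of_chk h (mem_cons (W12 D T h) mem_nil) cl919
theorem W4113 : WFK w4113 := fun D T h => wf_of_chk h mem_nil (mem_cons (L919 D T h) mem_nil) cw4113
theorem W4114 : WFK w4114 := fun D T h => wf_of_chk h (mem_cons (W69 D T h) mem_nil) mem_nil cw4114
theorem W4115 : WFK w4115 := fun D T h => wf_of_chk h mem_nil (mem_cons (L288 D T h) mem_nil) cw4115
theorem W4116 : WFK w4116 := fun D T h => wf_of_chk h mem_nil (mem_cons (L89 D T h) mem_nil) cw4116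
theorem W4117 : WFK w4117 := fun D T h => wf_of_chk h mem_nil (mem_cons (L17 D T h) mem_nil) cw4117
theorem W4118 : WFK w4118 := fun D T h => wf_of_chk h mem_nil (mem_cons (L68 D T h) mem_nil) cw4118
theorem W4119 : WFK w4119 := fun D T h => wf_of_chk h mem_nil (mem_cons (L412 D T h) mem_nil) cw4119
theorem L920 : LFK l920 := fun D T h => lf_of_chk h (mem_cons (W766 D T h) (mem_cons (W13 D T h) (mem_cons (W4116 D T h) (mem_cons (W12 D T h) (mem_cons (W2740 D T h) (mem_cons (W4119 D T h) (mem_cons (W871 D T h) (mem_cons (W638 D T h) (mem_cons (W1269 D T h) (mem_cons (W959 D T h) (mem_cons (W431 D T h) (mem_cons (W1273 D T h) (mem_cons (W216 D T h) (mem_cons (W53 D T h) (mem_cons (W2474 D T h) (mem_cons (W4117 D T h) (mem_cons (W4118 D T h) (mem_cons (W3312 D T h) (mem_cons (W781 D T h) mem_nil))))))))))))))))))) cl920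
theorem W4120 : WFK w4120 := fun D T h => wf_of_chk h mem_nil (mem_cons (L920 D T h) mem_nil) cw4120
theorem W4121 : WFK w4121 := fun D T h => wf_of_chk h mem_nil (mem_cons (L287 D T h) mem_nil) cw4121
theorem W4122 : WFK w4122 := fun D T h => wf_of_chk h mem_nil (mem_cons (L715 D T h) mem_nil) cw4122
theorem L921 : LFK l921 := fun D T h => lf_of_chk h (mem_cons (W765 D T h) (mem_cons (W12 D T h) (mem_cons (W2072 D T h) (mem_cons (W4121 D T h) (mem_cons (W1268 D T h) (mem_cons (W216 D T h) (mem_cons (W53 D T h) (mem_cons (W2474 D T h) (mem_cons (W52 D T h) (mem_cons (W4122 D T h) (mem_cons (W3313 D T h) (mem_cons (W780 D T h) mem_nil)))))))))))) cl921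
theorem W4123 : WFK w4123 := fun D T h => wf_of_chk h mem_nil (mem_cons (L921 D T h) mem_nil) cw4123
theorem W4124 : WFK w4124 := fun D T h => wf_of_chk h mem_nil (mem_cons (L921 D T h) mem_nil) cw4124
theorem W4125 : WFK w4125 := fun D T h => wf_of_chk h mem_nil (mem_cons (L921 D T h) mem_nil) cw4125
theorem W4126 : WFK w4126 := fun D T h => wf_of_chk h mem_nil (mem_cons (L921 D T h) mem_nil) cw4126
theorem W4127 : WFK w4127 := fun D T h => wf_of_chk h mem_nil (mem_cons (L921 D T h) mem_nil) cw4127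
theorem W4128 : WFK w4128 := fun D T h => wf_of_chk h mem_nil (mem_cons (L289 D T h) mem_nil) cw4128
theorem W4129 : WFK w4129 := fun D T h => wf_of_chk h mem_nil (mem_cons (L290 D T h) mem_nil) cw4129
theorem W4130 : WFK w4130 := fun D T h => wf_of_chk h mem_nil (mem_cons (L762 D T h) mem_nil) cw4130
theorem W4131 : WFK w4131 := fun D T h => wf_of_chk h (mem_cons (W114 D T h) (mem_cons (W177 D T h) mem_nil)) mem_nil cw4131
theorem W4132 : WFK w4132 := fun D T h => wf_of_chk h mem_nil (mem_cons (L766 D T h) mem_nil) cw4132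
theorem W4133 : WFK w4133 := fun D T h => wf_of_chk h mem_nil (mem_cons (L836 D T h) mem_nil) cw4133
theorem L922 : LFK l922 := fun D T h => lf_of_chk h (mem_cons (W3766 D T h) (mem_cons (W16 D T h) (mem_cons (W4132 D T h) (mem_cons (W39 D T h) (mem_cons (W461 D T h) (mem_cons (W3 D T h) (mem_cons (W42 D T h) (mem_cons (W4133 D T h) (mem_cons (W1 D T h) (mem_cons (W1326 D T h) (mem_cons (W581 D T h) (mem_cons (W1554 D T h) (mem_cons (W1325 D T h) mem_nil))))))))))))) cl922
theorem W4134 : WFK w4134 := fun D T h => wf_of_chk h mem_nil (mem_cons (L922 D T h) mem_nil) cw4134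
theorem L923 : LFK l923 := fun D T h => lf_of_chk h (mem_cons (W3766 D T h) (mem_cons (W16 D T h) (mem_cons (W2081 D T h) (mem_cons (W1409 D T h) (mem_cons (W39 D T h) (mem_cons (W3 D T h) (mem_cons (W721 D T h) (mem_cons (W2091 D T h) (mem_cons (W158 D T h) (mem_cons (W747 D T h) (mem_cons (W748 D T h) (mem_cons (W746 D T h) (mem_cons (W258 D T h) mem_nil))))))))))))) cl923
theorem W4135 : WFK w4135 := fun D T h => wf_of_chk h mem_nil (mem_cons (L923 D T h) mem_nil) cw4135
theorem L924 : LFK l924 := fun D T h => lf_of_chk h (mem_cons (W1528 D T h) (mem_cons (W16 D T h) (mem_cons (W2082 D T h) (mem_cons (W401 D T h) (mem_cons (W39 D T h) (mem_cons (W3 D T h) (mem_cons (W267 D T h) (mem_cons (W2092 D T h) (mem_cons (W91 D T h) (mem_cons (W255 D T h) (mem_cons (W257 D T h) (mem_cons (W256 D T h) (mem_cons (W258 D T h) mem_nil))))))))))))) cl924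
theorem W4136 : WFK w4136 := fun D T h => wf_of_chk h mem_nil (mem_cons (L924 D T h) mem_nil) cw4136
theorem W4137 : WFK w4137 := fun D T h => wf_of_chk h mem_nil (mem_cons (L425 D T h) mem_nil) cw4137
theorem W4138 : WFK w4138 := fun D T h => wf_of_chk h mem_nil (mem_cons (L541 D T h) mem_nil) cw4138
theorem W4139 : WFK w4139 := fun D T h => wf_of_chk h mem_nil (mem_cons (L425 D T h) mem_nil) cw4139
theorem W4140 : WFK w4140 := fun D T h => wf_of_chk h mem_nil (mem_cons (L425 D T h) mem_nil) cw4140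
theorem W4141 : WFK w4141 := fun D T h => wf_of_chk h mem_nil (mem_cons (L425 D T h) mem_nil) cw4141
theorem W4142 : WFK w4142 := fun D T h => wf_of_chk h mem_nil (mem_cons (L335 D T h) mem_nil) cw4142
theorem L925 : LFK l925 := fun D T h => lf_of_chk h (mem_cons (W201 D T h) (mem_cons (W1231 D T h) (mem_cons (W164 D T h) (mem_cons (W177 D T h) (mem_cons (W999 D T h) (mem_cons (W1000 D T h) (mem_cons (W2086 D T h) (mem_cons (W3 D T h) (mem_cons (W763 D T h) (mem_cons (W392 D T h) (mem_cons (W2087 D T h) (mem_cons (W954 D T h) (mem_cons (W4142 D T h) (mem_cons (W13 D T h) (mem_cons (W4135 D T h) (mem_cons (W4136 D T h) (mem_cons (W4137 D T h) (mem_cons (W4138 D T h) (mem_cons (W4139 D T h) (mem_cons (W4140 D T h) (mem_cons (W4141 D T h) mem_nil))))))))))))))))))))) cl925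
theorem W4143 : WFK w4143 := fun D T h => wf_of_chk h mem_nil (mem_cons (L925 D T h) mem_nil) cw4143
theorem W4144 : WFK w4144 := fun D T h => wf_of_chk h mem_nil (mem_cons (L25 D T h) mem_nil) cw4144
theorem W4145 : WFK w4145 := fun D T h => wf_of_chk h mem_nil (mem_cons (L89 D T h) mem_nil) cw4145
theorem W4146 : WFK w4146 := fun D T h => wf_of_chk h mem_nil (mem_cons (L68 D T h) mem_nil) cw4146
theorem W4147 : WFK w4147 := fun D T h => wf_of_chk h mem_nil (mem_cons (L414 D T h) mem_nil) cw4147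
theorem W4148 : WFK w4148 := fun D T h => wf_of_chk h mem_nil (mem_cons (L409 D T h) mem_nil) cw4148
theorem W4149 : WFK w4149 := fun D T h => wf_of_chk h mem_nil (mem_cons (L409 D T h) mem_nil) cw4149
theorem W4150 : WFK w4150 := fun D T h => wf_of_chk h mem_nil (mem_cons (L409 D T h) mem_nil) cw4150
theorem W4151 : WFK w4151 := fun D T h => wf_of_chk h mem_nil (mem_cons (L184 D T h) mem_nil) cw4151
theorem L926 : LFK l926 := fun D T h => lf_of_chk h (mem_cons (W2474 D T h) (mem_cons (W1246 D T h) (mem_cons (W4145 D T h) (mem_cons (W12 D T h) (mem_cons (W4144 D T h) (mem_cons (W4147 D T h) (mem_cons (W3024 D T h) (mem_cons (W871 D T h) (mem_cons (W1269 D T h) (mem_cons (W1542 D T h) (mem_cons (W959 D T h) (mem_cons (W1273 D T h) (mem_cons (W216 D T h) (mem_cons (W53 D T h) (mem_cons (W4146 D T h) (mem_cons (W1842 D T h) (mem_cons (W4148 D T h) (mem_cons (W4149 D T h) (mem_cons (W4150 D T h) (mem_cons (W4151 D T h) mem_nil)))))))))))))))))))) cl926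
theorem W4152 : WFK w4152 := fun D T h => wf_of_chk h mem_nil (mem_cons (L926 D T h) mem_nil) cw4152
theorem W4153 : WFK w4153 := fun D T h => wf_of_chk h mem_nil (mem_cons (L160 D T h) mem_nil) cw4153
theorem W4154 : WFK w4154 := fun D T h => wf_of_chk h mem_nil (mem_cons (L160 D T h) mem_nil) cw4154
theorem W4155 : WFK w4155 := fun D T h => wf_of_chk h mem_nil (mem_cons (L160 D T h) mem_nil) cw4155
theorem W4156 : WFK w4156 := fun D T h => wf_of_chk h mem_nil (mem_cons (L497 D T h) mem_nil) cw4156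
theorem W4157 : WFK w4157 := fun D T h => wf_of_chk h mem_nil (mem_cons (L293 D T h) mem_nil) cw4157
theorem W4158 : WFK w4158 := fun D T h => wf_of_chk h mem_nil (mem_cons (L756 D T h) mem_nil) cw4158
theorem W4159 : WFK w4159 := fun D T h => wf_of_chk h (mem_cons (W164 D T h) mem_nil) mem_nil cw4159
theorem L927 : LFK l927 := fun D T h => lf_of_chk h (mem_cons (W1265 D T h) (mem_cons (W4130 D T h) (mem_cons (W4131 D T h) (mem_cons (W1231 D T h) (mem_cons (W164 D T h) (mem_cons (W177 D T h) (mem_cons (W1255 D T h) (mem_cons (W4113 D T h) (mem_cons (W2405 D T h) (mem_cons (W1227 D T h) (mem_cons (W4128 D T h) (mem_cons (W42 D T h) (mem_cons (W4129 D T h) (mem_cons (W716 D T h) (mem_cons (W1257 D T h) (mem_cons (W1263 D T h) (mem_cons (W4152 D T h) (mem_cons (W4153 D T h) (mem_cons (W4154 D T h) (mem_cons (W4155 D T h) (mem_cons (W765 D T h) (mem_cons (W766 D T h) (mem_cons (W4114 D T h) (mem_cons (W4115 D T h) (mem_cons (W4120 D T h) (mem_cons (W4123 D T h) (mem_cons (W4124 D T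 h) (mem_cons (W4125 D T h) (mem_cons (W4126 D T h) (mem_cons (W4127 D T h) (mem_cons (W4134 D T h) (mem_cons (W4143 D T h) (mem_cons (W4156 D T h) (mem_cons (W4157 D T h) (mem_cons (W4158 D T h) (mem_cons (W4159 D T h) mem_nil)))))))))))))))))))))))))))))))))))) cl927
theorem W4160 : WFK w4160 := fun D T h => wf_of_chk h mem_nil (mem_cons (L927 D T h) mem_nil) cw4160
theorem W4161 : WFK w4161 := fun D T h => wf_of_chk h (mem_cons (W284 D T h) mem_nil) mem_nil cw4161
theorem W4162 : WFK w4162 := fun D T h => wf_of_chk h mem_nil (mem_cons (L232 D T h) mem_nil) cw4162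
theorem W4163 : WFK w4163 := fun D T h => wf_of_chk h (mem_cons (W397 D T h) mem_nil) mem_nil cw4163
theorem W4164 : WFK w4164 := fun D T h => wf_of_chk h mem_nil (mem_cons (L288 D T h) mem_nil) cw4164
theorem W4165 : WFK w4165 := fun D T h => wf_of_chk h (mem_cons (W581 D T h) mem_nil) mem_nil cw4165
theorem W4166 : WFK w4166 := fun D T h => wf_of_chk h mem_nil (mem_cons (L287 D T h) mem_nil) cw4166
theorem W4167 : WFK w4167 := fun D T h => wf_of_chk h mem_nil (mem_cons (L64 D T h) mem_nil) cw4167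
theorem W4168 : WFK w4168 := fun D T h => wf_of_chk h mem_nil (mem_cons (L4 D T h) mem_nil) cw4168
theorem W4169 : WFK w4169 := fun D T h => wf_of_chk h mem_nil (mem_cons (L4 D T h) mem_nil) cw4169
theorem W4170 : WFK w4170 := fun D T h => wf_of_chk h mem_nil mem_nil cw4170
theorem L928 : LFK l928 := fun D T h => lf_of_chk h (mem_cons (W766 D T h) (mem_cons (W4167 D T h) (mem_cons (W13 D T h) (mem_cons (W12 D T h) (mem_cons (W4166 D T h) (mem_cons (W4170 D T h) (mem_cons (W216 D T h) (mem_cons (W53 D T h) (mem_cons (W2474 D T h) (mem_cons (W4168 D T h) (mem_cons (W4169 D T h) (mem_cons (W782 D T h) mem_nil)))))))))))) cl928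
theorem W4171 : WFK w4171 := fun D T h => wf_of_chk h mem_nil (mem_cons (L928 D T h) mem_nil) cw4171
theorem W4172 : WFK w4172 := fun D T h => wf_of_chk h mem_nil (mem_cons (L928 D T h) mem_nil) cw4172
theorem W4173 : WFK w4173 := fun D T h => wf_of_chk h mem_nil (mem_cons (L928 D T h) mem_nil) cw4173
theorem W4174 : WFK w4174 := fun D T h => wf_of_chk h mem_nil (mem_cons (L289 D T h) mem_nil) cw4174
theorem W4175 : WFK w4175 := fun D T h => wf_of_chk h mem_nil (mem_cons (L290 D T h) mem_nil) cw4175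
theorem W4176 : WFK w4176 := fun D T h => wf_of_chk h mem_nil (mem_cons (L925 D T h) mem_nil) cw4176
theorem W4177 : WFK w4177 := fun D T h => wf_of_chk h mem_nil (mem_cons (L160 D T h) mem_nil) cw4177
theorem W4178 : WFK w4178 := fun D T h => wf_of_chk h mem_nil (mem_cons (L160 D T h) mem_nil) cw4178
theorem W4179 : WFK w4179 := fun D T h => wf_of_chk h mem_nil (mem_cons (L293 D T h) mem_nil) cw4179
theorem W4180 : WFK w4180 := fun D T h => wf_of_chk h mem_nil (mem_cons (L497 D T h) mem_nil) cw4180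
theorem W4181 : WFK w4181 := fun D T h => wf_of_chk h mem_nil (mem_cons (L756 D T h) mem_nil) cw4181
theorem L929 : LFK l929 := fun D T h => lf_of_chk h (mem_cons (W1266 D T h) (mem_cons (W4134 D T h) (mem_cons (W4130 D T h) (mem_cons (W164 D T h) (mem_cons (W4162 D T h) (mem_cons (W177 D T h) (mem_cons (W1255 D T h) (mem_cons (W495 D T h) (mem_cons (W1227 D T h) (mem_cons (W2405 D T h) (mem_cons (W4174 D T h) (mem_cons (W42 D T h) (mem_cons (W4175 D T h) (mem_cons (W716 D T h) (mem_cons (W1257 D T h) (mem_cons (W1263 D T h) (mem_cons (W4155 D T h) (mem_cons (W4177 D T h) (mem_cons (W4178 D T h) (mem_cons (W766 D T h) (mem_cons (W4163 D T h) (mem_cons (W765 D T h) (mem_cons (W4164 D T h) (mem_cons (W4126 D T h) (mem_cons (W4165 D T h) (mem_cons (W4171 D T h) (mem_cons (W4172 D T h) (mem_cons (W4173 D T h) (mem_cons (W4176 D T h) (mem_cons (W4179 D T h) (mem_cons (W4180 D T h) (mem_cons (W4181 D T h) mem_nil)))))))))))))))))))))))))))))))) cl929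
theorem W4182 : WFK w4182 := fun D T h => wf_of_chk h mem_nil (mem_cons (L929 D T h) mem_nil) cw4182
theorem W4189 : WFK w4189 := fun D T h => wf_of_chk h mem_nil mem_nil cw4189
theorem W4192 : WFK w4192 := fun D T h => wf_of_chk h mem_nil mem_nil cw4192
theorem W4194 : WFK w4194 := fun D T h => wf_of_chk h mem_nil (mem_cons (L482 D T h) mem_nil) cw4194
theorem L931 : LFK l931 := fun D T h => lf_of_chk h (mem_cons (W193 D T h) (mem_cons (W25 D T h) (mem_cons (W2471 D T h) (mem_cons (W2349 D T h) (mem_cons (W1854 D T h) mem_nil))))) cl931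
theorem W4199 : WFK w4199 := fun D T h => wf_of_chk h mem_nil mem_nil cw4199
theorem L934 : LFK l934 := fun D T h => lf_of_chk h (mem_cons (W193 D T h) (mem_cons (W25 D T h) (mem_cons (W4199 D T h) (mem_cons (W2355 D T h) (mem_cons (W3110 D T h) mem_nil))))) cl934
theorem W4204 : WFK w4204 := fun D T h => wf_of_chk h mem_nil (mem_cons (L50 D T h) mem_nil) cw4204
theorem W4207 : WFK w4207 := fun D T h => wf_of_chk h mem_nil mem_nil cw4207
theorem W4209 : WFK w4209 := fun D T h => wf_of_chk h mem_nil (mem_cons (L878 D T h) mem_nil) cw4209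
theorem W4215 : WFK w4215 := fun D T h => wf_of_chk h (mem_cons (W1070 D T h) (mem_cons (W37 D T h) mem_nil)) mem_nil cw4215
theorem W4216 : WFK w4216 := fun D T h => wf_of_chk h (mem_cons (W16 D T h) (mem_cons (W1070 D T h) mem_nil)) mem_nil cw4216
theorem W4217 : WFK w4217 := fun D T h => wf_of_chk h (mem_cons (W284 D T h) mem_nil) mem_nil cw4217
theorem W4218 : WFK w4218 := fun D T h => wf_of_chk h (mem_cons (W1211 D T h) mem_nil) mem_nil cw4218
theorem W4219 : WFK w4219 := fun D T h => wf_of_chk h (mem_cons (W1228 D T h) mem_nil) mem_nil cw4219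
theorem W4220 : WFK w4220 := fun D T h => wf_of_chk h (mem_cons (W520 D T h) (mem_cons (W495 D T h) mem_nil)) mem_nil cw4220
theorem W4221 : WFK w4221 := fun D T h => wf_of_chk h mem_nil (mem_cons (L280 D T h) mem_nil) cw4221
theorem W4222 : WFK w4222 := fun D T h => wf_of_chk h mem_nil (mem_cons (L280 D T h) mem_nil) cw4222
theorem W4223 : WFK w4223 := fun D T h => wf_of_chk h mem_nil (mem_cons (L729 D T h) mem_nil) cw4223
theorem L939 : LFK l939 := fun D T h => lf_of_chk h (mem_cons (W772 D T h) (mem_cons (W4221 D T h) (mem_cons (W4222 D T h) (mem_cons (W1226 D T h) (mem_cons (W1227 D T h) (mem_cons (W495 D T h) (mem_cons (W497 D T h) (mem_cons (W1255 D T h) (mem_cons (W1256 D T h) (mem_cons (W1362 D T h) (mem_cons (W164 D T h) (mem_cons (W1270 D T h) (mem_cons (W42 D T h) (mem_cons (W1274 D T h) (mem_cons (W581 D T h) (mem_cons (W1326 D T h) (mem_cons (W716 D T h) (mem_cons (W4219 D T h) (mem_cons (W4220 D T h) (mem_cons (W1265 D T h) (mem_cons (W1264 D T h) (mem_cons (W962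 D T h) (mem_cons (W1266 D T h) (mem_cons (W1236 D T h) (mem_cons (W1239 D T h) (mem_cons (W1286 D T h) (mem_cons (W3294 D T h) (mem_cons (W4223 D T h) mem_nil)))))))))))))))))))))))))))) cl939
theorem W4224 : WFK w4224 := fun D T h => wf_of_chk h mem_nil (mem_cons (L939 D T h) mem_nil) cw4224
theorem W4225 : WFK w4225 := fun D T h => wf_of_chk h (mem_cons (W384 D T h) mem_nil) mem_nil cw4225
theorem W4226 : WFK w4226 := fun D T h => wf_of_chk h (mem_cons (W520 D T h) (mem_cons (W495 D T h) mem_nil)) mem_nil cw4226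
theorem W4227 : WFK w4227 := fun D T h => wf_of_chk h mem_nil (mem_cons (L276 D T h) mem_nil) cw4227
theorem W4228 : WFK w4228 := fun D T h => wf_of_chk h mem_nil (mem_cons (L276 D T h) mem_nil) cw4228
theorem W4229 : WFK w4229 := fun D T h => wf_of_chk h mem_nil (mem_cons (L727 D T h) mem_nil) cw4229
theorem L940 : LFK l940 := fun D T h => lf_of_chk h (mem_cons (W772 D T h) (mem_cons (W4227 D T h) (mem_cons (W4228 D T h) (mem_cons (W946 D T h) (mem_cons (W495 D T h) (mem_cons (W1255 D T h) (mem_cons (W1256 D T h) (mem_cons (W42 D T h) (mem_cons (W1270 D T h) (mem_cons (W1274 D T h) (mem_cons (W1325 D T h) (mem_cons (W716 D T h) (mem_cons (W4225 D T h) (mem_cons (W4226 D T h) (mem_cons (W1265 D T h) (mem_cons (W1264 D T h) (mem_cons (W962 D T h) (mem_cons (W1266 D T h) (mem_cons (W1223 D T h) (mem_cons (W1286 D T h) (mem_cons (W3294 D T h) (mem_cons (W4229 D T h) mem_nil)))))))))))))))))))))) cl940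
theorem W4230 : WFK w4230 := fun D T h => wf_of_chk h mem_nil (mem_cons (L940 D T h) mem_nil) cw4230
theorem W4231 : WFK w4231 := fun D T h => wf_of_chk h (mem_cons (W1291 D T h) (mem_cons (W1070 D T h) mem_nil)) mem_nil cw4231
theorem W4232 : WFK w4232 := fun D T h => wf_of_chk h mem_nil mem_nil cw4232
theorem W4233 : WFK w4233 := fun D T h => wf_of_chk h mem_nil (mem_cons (L116 D T h) mem_nil) cw4233
theorem W4234 : WFK w4234 := fun D T h => wf_of_chk h mem_nil (mem_cons (L172 D T h) mem_nil) cw4234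
theorem W4235 : WFK w4235 := fun D T h => wf_of_chk h (mem_cons (W726 D T h) mem_nil) mem_nil cw4235
theorem W4236 : WFK w4236 := fun D T h => wf_of_chk h (mem_cons (W164 D T h) mem_nil) mem_nil cw4236
theorem W4237 : WFK w4237 := fun D T h => wf_of_chk h (mem_cons (W42 D T h) mem_nil) mem_nil cw4237
theorem W4238 : WFK w4238 := fun D T h => wf_of_chk h mem_nil (mem_cons (L430 D T h) mem_nil) cw4238
theorem L941 : LFK l941 := fun D T h => lf_of_chk h (mem_cons (W1765 D T h) (mem_cons (W1538 D T h) (mem_cons (W3498 D T h) (mem_cons (W69 D T h) (mem_cons (W4238 D T h) (mem_cons (W864 D T h) (mem_cons (W861 D T h) (mem_cons (W4189 D T h) (mem_cons (W1758 D T h) (mem_cons (W13 D T h) (mem_cons (W903 D T h) (mem_cons (W781 D T h) (mem_cons (W782 D T h) mem_nil))))))))))))) cl941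
theorem W4239 : WFK w4239 := fun D T h => wf_of_chk h mem_nil (mem_cons (L941 D T h) mem_nil) cw4239
theorem W4240 : WFK w4240 := fun D T h => wf_of_chk h (mem_cons (W50 D T h) mem_nil) mem_nil cw4240
theorem W4241 : WFK w4241 := fun D T h => wf_of_chk h mem_nil mem_nil cw4241
theorem L942 : LFK l942 := fun D T h => lf_of_chk h (mem_cons (W2359 D T h) (mem_cons (W281 D T h) (mem_cons (W32 D T h) (mem_cons (W1283 D T h) (mem_cons (W1468 D T h) (mem_cons (W861 D T h) (mem_cons (W4241 D T h) (mem_cons (W3145 D T h) (mem_cons (W258 D T h) (mem_cons (W256 D T h) (mem_cons (W3146 D T h) (mem_cons (W3 D T h) (mem_cons (W903 D T h) (mem_cons (W890 D T h) mem_nil)))))))))))))) cl942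
theorem W4242 : WFK w4242 := fun D T h => wf_of_chk h mem_nil (mem_cons (L942 D T h) mem_nil) cw4242
theorem W4243 : WFK w4243 := fun D T h => wf_of_chk h mem_nil mem_nil cw4243
theorem L943 : LFK l943 := fun D T h => lf_of_chk h (mem_cons (W2353 D T h) (mem_cons (W750 D T h) (mem_cons (W32 D T h) (mem_cons (W1283 D T h) (mem_cons (W1468 D T h) (mem_cons (W861 D T h) (mem_cons (W4243 D T h) (mem_cons (W3151 D T h) (mem_cons (W1272 D T h) (mem_cons (W746 D T h) (mem_cons (W3152 D T h) (mem_cons (W3 D T h) (mem_cons (W903 D T h) (mem_cons (W890 D T h) mem_nil)))))))))))))) cl943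
theorem W4244 : WFK w4244 := fun D T h => wf_of_chk h mem_nil (mem_cons (L943 D T h) mem_nil) cw4244
theorem W4245 : WFK w4245 := fun D T h => wf_of_chk h (mem_cons (W1227 D T h) mem_nil) mem_nil cw4245
theorem W4246 : WFK w4246 := fun D T h => wf_of_chk h (mem_cons (W946 D T h) mem_nil) mem_nil cw4246
theorem W4247 : WFK w4247 := fun D T h => wf_of_chk h (mem_cons (W1226 D T h) mem_nil) mem_nil cw4247
theorem W4248 : WFK w4248 := fun D T h => wf_of_chk h mem_nil (mem_cons (L788 D T h) mem_nil) cw4248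
theorem L944 : LFK l944 := fun D T h => lf_of_chk h (mem_cons (W3523 D T h) (mem_cons (W1640 D T h) (mem_cons (W50 D T h) (mem_cons (W32 D T h) (mem_cons (W177 D T h) (mem_cons (W4232 D T h) (mem_cons (W4233 D T h) (mem_cons (W4242 D T h) (mem_cons (W4248 D T h) (mem_cons (W3335 D T h) (mem_cons (W4240 D T h) (mem_cons (W3766 D T h) (mem_cons (W4244 D T h) (mem_cons (W4245 D T h) (mem_cons (W4246 D T h) (mem_cons (W3156 D T h) (mem_cons (W4247 D T h) (mem_cons (W851 D T h) (mem_cons (W4234 D T h) (mem_cons (W4235 D T h) (mem_cons (W1723 D T h) (mem_cons (W4236 D T h) (mem_cons (W2159 D T h) (mem_cons (W4237 D T h) (mem_cons (W4239 D T h) mem_nil))))))))))))))))))))))))) cl944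
theorem W4249 : WFK w4249 := fun D T h => wf_of_chk h mem_nil (mem_cons (L944 D T h) mem_nil) cw4249
theorem W4250 : WFK w4250 := fun D T h => wf_of_chk h mem_nil (mem_cons (L291 D T h) mem_nil) cw4250
theorem W4251 : WFK w4251 := fun D T h => wf_of_chk h (mem_cons (W405 D T h) (mem_cons (W37 D T h) mem_nil)) mem_nil cw4251
theorem W4252 : WFK w4252 := fun D T h => wf_of_chk h mem_nil (mem_cons (L291 D T h) mem_nil) cw4252
theorem W4253 : WFK w4253 := fun D T h => wf_of_chk h mem_nil (mem_cons (L291 D T h) mem_nil) cw4253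
theorem W4254 : WFK w4254 := fun D T h => wf_of_chk h mem_nil (mem_cons (L676 D T h) mem_nil) cw4254
theorem W4255 : WFK w4255 := fun D T h => wf_of_chk h (mem_cons (W220 D T h) mem_nil) mem_nil cw4255
theorem W4256 : WFK w4256 := fun D T h => wf_of_chk h mem_nil (mem_cons (L630 D T h) mem_nil) cw4256
theorem W4257 : WFK w4257 := fun D T h => wf_of_chk h mem_nil mem_nil cw4257
theorem W4258 : WFK w4258 := fun D T h => wf_of_chk h (mem_cons (W405 D T h) mem_nil) mem_nil cw4258
theorem W4259 : WFK w4259 := fun D T h => wf_of_chk h mem_nil (mem_cons (L630 D T h) mem_nil) cw4259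
theorem W4260 : WFK w4260 := fun D T h => wf_of_chk h mem_nil (mem_cons (L630 D T h) mem_nil) cw4260
theorem W4262 : WFK w4262 := fun D T h => wf_of_chk h mem_nil (mem_cons (L15 D T h) mem_nil) cw4262
theorem W4263 : WFK w4263 := fun D T h => wf_of_chk h (mem_cons (W405 D T h) mem_nil) mem_nil cw4263
theorem L945 : LFK l945 := fun D T h => lf_of_chk h (mem_cons (W4256 D T h) (mem_cons (W1412 D T h) (mem_cons (W86 D T h) (mem_cons (W69 D T h) (mem_cons (W3694 D T h) (mem_cons (W4257 D T h) (mem_cons (W771 D T h) (mem_cons (W4262 D T h) (mem_cons (W1636 D T h) (mem_cons (W4263 D T h) (mem_cons (W3760 D T h) (mem_cons (W4258 D T h) (mem_cons (W192 D T h) (mem_cons (W3688 D T h) mem_nil)))))))))))))) cl945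
theorem W4264 : WFK w4264 := fun D T h => wf_of_chk h mem_nil (mem_cons (L945 D T h) mem_nil) cw4264
theorem W4265 : WFK w4265 := fun D T h => wf_of_chk h mem_nil (mem_cons (L945 D T h) mem_nil) cw4265
theorem W4266 : WFK w4266 := fun D T h => wf_of_chk h mem_nil (mem_cons (L308 D T h) mem_nil) cw4266
theorem W4267 : WFK w4267 := fun D T h => wf_of_chk h mem_nil (mem_cons (L308 D T h) mem_nil) cw4267
theorem W4268 : WFK w4268 := fun D T h => wf_of_chk h mem_nil (mem_cons (L756 D T h) mem_nil) cw4268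
theorem W4269 : WFK w4269 := fun D T h => wf_of_chk h mem_nil (mem_cons (L195 D T h) mem_nil) cw4269
theorem W4270 : WFK w4270 := fun D T h => wf_of_chk h mem_nil (mem_cons (L285 D T h) mem_nil) cw4270
theorem W4271 : WFK w4271 := fun D T h => wf_of_chk h mem_nil (mem_cons (L285 D T h) mem_nil) cw4271
theorem W4272 : WFK w4272 := fun D T h => wf_of_chk h mem_nil (mem_cons (L751 D T h) mem_nil) cw4272
theorem W4273 : WFK w4273 := fun D T h => wf_of_chk h mem_nil (mem_cons (L671 D T h) mem_nil) cw4273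
theorem L946 : LFK l946 := fun D T h => lf_of_chk h (mem_cons (W4250 D T h) (mem_cons (W1528 D T h) (mem_cons (W2 D T h) (mem_cons (W405 D T h) (mem_cons (W3694 D T h) (mem_cons (W1279 D T h) (mem_cons (W4264 D T h) (mem_cons (W4257 D T h) (mem_cons (W785 D T h) (mem_cons (W4273 D T h) (mem_cons (W3006 D T h) (mem_cons (W1346 D T h) (mem_cons (W1019 D T h) (mem_cons (W4268 D T h) (mem_cons (W4265 D T h) (mem_cons (W4266 D T h) (mem_cons (W4267 D T h) (mem_cons (W4251 D T h) (mem_cons (W915 D T h) (mem_cons (W3024 D T h) (mem_cons (W4252 D T h) (mem_cons (W4253 D T h) (mem_cons (W261 D T h) (mem_cons (W4254 D T h) (mem_cons (W4255 D T h) (mem_cons (W2368 D T h) (mem_cons (W4269 D T h) (mem_cons (W4270 D T h) (mem_cons (W4271 D T h) (mem_cons (W4272 D T h) mem_nil)))))))))))))))))))))))))))))) cl946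
theorem W4274 : WFK w4274 := fun D T h => wf_of_chk h mem_nil (mem_cons (L946 D T h) mem_nil) cw4274
theorem L947 : LFK l947 := fun D T h => lf_of_chk h (mem_cons (W1288 D T h) (mem_cons (W2370 D T h) (mem_cons (W804 D T h) (mem_cons (W1070 D T h) (mem_cons (W37 D T h) (mem_cons (W3433 D T h) (mem_cons (W3434 D T h) (mem_cons (W4216 D T h) (mem_cons (W4217 D T h) (mem_cons (W2893 D T h) (mem_cons (W4231 D T h) (mem_cons (W284 D T h) (mem_cons (W4218 D T h) (mem_cons (W4224 D T h) (mem_cons (W1213 D T h) (mem_cons (W4230 D T h) (mem_cons (W4215 D T h) (mem_cons (W3173 D T h) (mem_cons (W772 D T h) (mem_cons (W4109 D T h) (mem_cons (W4110 D T h) (mem_cons (W1940 D T h) (mem_cons (W4112 D T h) (mem_cons (W2864 D T h) (mem_cons (W4160 D T h) (mem_cons (W4161 D T h) (mem_cons (W4182 D T h) (mem_cons (W1254 D T h) (mem_cons (W4249 D T h) (mem_cons (W4274 D T h) mem_nil)))))))))))))))))))))))))))))) cl947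
theorem W4275 : WFK w4275 := fun D T h => wf_of_chk h mem_nil (mem_cons (L947 D T h) mem_nil) cw4275
theorem W4276 : WFK w4276 := fun D T h => wf_of_chk h mem_nil (mem_cons (L917 D T h) mem_nil) cw4276
theorem W4277 : WFK w4277 := fun D T h => wf_of_chk h mem_nil (mem_cons (L878 D T h) mem_nil) cw4277
theorem W4278 : WFK w4278 := fun D T h => wf_of_chk h mem_nil (mem_cons (L511 D T h) mem_nil) cw4278
theorem L948 : LFK l948 := fun D T h => lf_of_chk h (mem_cons (W3766 D T h) (mem_cons (W161 D T h) (mem_cons (W3 D T h) (mem_cons (W154 D T h) (mem_cons (W817 D T h) (mem_cons (W7 D T h) (mem_cons (W1539 D T h) mem_nil))))))) cl948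
theorem W4279 : WFK w4279 := fun D T h => wf_of_chk h mem_nil (mem_cons (L948 D T h) mem_nil) cw4279
theorem W4280 : WFK w4280 := fun D T h => wf_of_chk h mem_nil (mem_cons (L948 D T h) mem_nil) cw4280
theorem W4281 : WFK w4281 := fun D T h => wf_of_chk h mem_nil (mem_cons (L948 D T h) mem_nil) cw4281
theorem W4282 : WFK w4282 := fun D T h => wf_of_chk h mem_nil (mem_cons (L573 D T h) mem_nil) cw4282
theorem L949 : LFK l949 := fun D T h => lf_of_chk h (mem_cons (W1362 D T h) (mem_cons (W177 D T h) (mem_cons (W3016 D T h) (mem_cons (W4276 D T h) (mem_cons (W581 D T h) (mem_cons (W1439 D T h) (mem_cons (W1438 D T h) (mem_cons (W4028 D T h) (mem_cons (W4277 D T h) (mem_cons (W461 D T h) (mem_cons (W1383 D T h) (mem_cons (W4275 D T h) (mem_cons (W4278 D T h) (mem_cons (W154 D T h) (mem_cons (W2726 D T h) (mem_cons (W1408 D T h) (mem_cons (W4282 D T h) (mem_cons (W1398 D T h) (mem_cons (W4279 D T h) (mem_cons (W4280 D T h) (mem_cons (W3286 D T h) (mem_cons (W4281 D T h) mem_nil))))))))))))))))))))))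 cl949
theorem W4285 : WFK w4285 := fun D T h => wf_of_chk h mem_nil (mem_cons (L949 D T h) mem_nil) cw4285
theorem W4286 : WFK w4286 := fun D T h => wf_of_chk h mem_nil (mem_cons (L295 D T h) mem_nil) cw4286
theorem W4287 : WFK w4287 := fun D T h => wf_of_chk h (mem_cons (W16 D T h) (mem_cons (W126 D T h) mem_nil)) mem_nil cw4287
theorem W4288 : WFK w4288 := fun D T h => wf_of_chk h (mem_cons (W726 D T h) (mem_cons (W126 D T h) mem_nil)) mem_nil cw4288
theorem W4289 : WFK w4289 := fun D T h => wf_of_chk h mem_nil (mem_cons (L630 D T h) mem_nil) cw4289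
theorem L950 : LFK l950 := fun D T h => lf_of_chk h (mem_cons (W173 D T h) (mem_cons (W10 D T h) (mem_cons (W4289 D T h) (mem_cons (W7 D T h) (mem_cons (W2047 D T h) (mem_cons (W2385 D T h) (mem_cons (W865 D T h) (mem_cons (W192 D T h) (mem_cons (W3760 D T h) (mem_cons (W1086 D T h) (mem_cons (W617 D T h) mem_nil))))))))))) cl950
theorem W4290 : WFK w4290 := fun D T h => wf_of_chk h mem_nil (mem_cons (L950 D T h) mem_nil) cw4290
theorem L951 : LFK l951 := fun D T h => lf_of_chk h (mem_cons (W1554 D T h) (mem_cons (W924 D T h) (mem_cons (W3024 D T h) (mem_cons (W1 D T h) (mem_cons (W11 D T h) (mem_cons (W141 D T h) (mem_cons (W500 D T h) (mem_cons (W151 D T h) (mem_cons (W2788 D T h) (mem_cons (W256 D T h) (mem_cons (W2648 D T h) (mem_cons (W1489 D T h) (mem_cons (W746 D T h) mem_nil))))))))))))) cl951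
theorem W4291 : WFK w4291 := fun D T h => wf_of_chk h mem_nil (mem_cons (L951 D T h) mem_nil) cw4291
theorem W4292 : WFK w4292 := fun D T h => wf_of_chk h (mem_cons (W164 D T h) (mem_cons (W126 D T h) mem_nil)) mem_nil cw4292
theorem W4293 : WFK w4293 := fun D T h => wf_of_chk h (mem_cons (W1231 D T h) (mem_cons (W126 D T h) mem_nil)) mem_nil cw4293
theorem W4294 : WFK w4294 := fun D T h => wf_of_chk h (mem_cons (W50 D T h) (mem_cons (W126 D T h) mem_nil)) mem_nil cw4294
theorem W4295 : WFK w4295 := fun D T h => wf_of_chk h (mem_cons (W126 D T h) mem_nil) mem_nil cw4295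
theorem W4296 : WFK w4296 := fun D T h => wf_of_chk h mem_nil (mem_cons (L48 D T h) mem_nil) cw4296
theorem L952 : LFK l952 := fun D T h => lf_of_chk h (mem_cons (W267 D T h) (mem_cons (W1919 D T h) (mem_cons (W368 D T h) (mem_cons (W3 D T h) (mem_cons (W39 D T h) (mem_cons (W2357 D T h) (mem_cons (W652 D T h) (mem_cons (W2359 D T h) (mem_cons (W4295 D T h) (mem_cons (W865 D T h) (mem_cons (W256 D T h) (mem_cons (W1272 D T h) (mem_cons (W255 D T h) (mem_cons (W257 D T h) (mem_cons (W4296 D T h) (mem_cons (W263 D T h) (mem_cons (W1535 D T h) (mem_cons (W390 D T h) mem_nil)))))))))))))))))) cl952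
theorem W4297 : WFK w4297 := fun D T h => wf_of_chk h mem_nil (mem_cons (L952 D T h) mem_nil) cw4297
theorem W4298 : WFK w4298 := fun D T h => wf_of_chk h (mem_cons (W126 D T h) mem_nil) mem_nil cw4298
theorem L953 : LFK l953 := fun D T h => lf_of_chk h (mem_cons (W721 D T h) (mem_cons (W1919 D T h) (mem_cons (W370 D T h) (mem_cons (W3 D T h) (mem_cons (W39 D T h) (mem_cons (W2351 D T h) (mem_cons (W750 D T h) (mem_cons (W2353 D T h) (mem_cons (W4298 D T h) (mem_cons (W1086 D T h) (mem_cons (W746 D T h) (mem_cons (W258 D T h) (mem_cons (W747 D T h) (mem_cons (W748 D T h) (mem_cons (W4296 D T h) (mem_cons (W263 D T h) (mem_cons (W815 D T h) (mem_cons (W762 D T h) mem_nil)))))))))))))))))) cl953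
theorem W4299 : WFK w4299 := fun D T h => wf_of_chk h mem_nil (mem_cons (L953 D T h) mem_nil) cw4299
theorem W4300 : WFK w4300 := fun D T h => wf_of_chk h mem_nil (mem_cons (L281 D T h) mem_nil) cw4300
theorem W4301 : WFK w4301 := fun D T h => wf_of_chk h mem_nil (mem_cons (L281 D T h) mem_nil) cw4301
theorem L954 : LFK l954 := fun D T h => lf_of_chk h (mem_cons (W3523 D T h) (mem_cons (W177 D T h) (mem_cons (W126 D T h) (mem_cons (W50 D T h) (mem_cons (W14 D T h) (mem_cons (W760 D T h) (mem_cons (W3335 D T h) (mem_cons (W3169 D T h) (mem_cons (W3179 D T h) (mem_cons (W4288 D T h) (mem_cons (W4290 D T h) (mem_cons (W42 D T h) (mem_cons (W4291 D T h) (mem_cons (W2159 D T h) (mem_cons (W4292 D T h) (mem_cons (W4293 D T h) (mem_cons (W4294 D T h) (mem_cons (W2347 D T h) (mem_cons (W1931 D T h) (mem_cons (W4297 D T h) (mem_cons (W4248 D T h) (mem_cons (W4299 D T h) (mem_cons (W2520 D T h) (mem_cons (W3156 D T h) (mem_cons (W4300 D T h) (mem_cons (W4301 D T h) mem_nil))))))))))))))))))))))))))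 cl954
theorem W4302 : WFK w4302 := fun D T h => wf_of_chk h mem_nil (mem_cons (L954 D T h) mem_nil) cw4302
theorem W4304 : WFK w4304 := fun D T h => wf_of_chk h mem_nil (mem_cons (L954 D T h) mem_nil) cw4304
theorem W4305 : WFK w4305 := fun D T h => wf_of_chk h mem_nil (mem_cons (L954 D T h) mem_nil) cw4305
theorem W4306 : WFK w4306 := fun D T h => wf_of_chk h (mem_cons (W2027 D T h) (mem_cons (W126 D T h) mem_nil)) mem_nil cw4306
theorem W4307 : WFK w4307 := fun D T h => wf_of_chk h (mem_cons (W2027 D T h) (mem_cons (W126 D T h) mem_nil)) mem_nil cw4307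
theorem L955 : LFK l955 := fun D T h => lf_of_chk h (mem_cons (W219 D T h) (mem_cons (W15 D T h) (mem_cons (W158 D T h) (mem_cons (W795 D T h) (mem_cons (W141 D T h) (mem_cons (W796 D T h) (mem_cons (W2799 D T h) (mem_cons (W2797 D T h) (mem_cons (W1082 D T h) (mem_cons (W1105 D T h) (mem_cons (W1707 D T h) (mem_cons (W499 D T h) mem_nil)))))))))))) cl955
theorem W4308 : WFK w4308 := fun D T h => wf_of_chk h mem_nil (mem_cons (L955 D T h) mem_nil) cw4308
theorem W4309 : WFK w4309 := fun D T h => wf_of_chk h (mem_cons (W4308 D T h) (mem_cons (W37 D T h) mem_nil)) mem_nil cw4309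
theorem W4310 : WFK w4310 := fun D T h => wf_of_chk h (mem_cons (W284 D T h) (mem_cons (W126 D T h) mem_nil)) mem_nil cw4310
theorem W4311 : WFK w4311 := fun D T h => wf_of_chk h (mem_cons (W368 D T h) (mem_cons (W126 D T h) mem_nil)) mem_nil cw4311
theorem W4312 : WFK w4312 := fun D T h => wf_of_chk h mem_nil (mem_cons (L120 D T h) mem_nil) cw4312
theorem L956 : LFK l956 := fun D T h => lf_of_chk h (mem_cons (W924 D T h) (mem_cons (W173 D T h) (mem_cons (W852 D T h) (mem_cons (W920 D T h) (mem_cons (W1547 D T h) (mem_cons (W1550 D T h) (mem_cons (W1541 D T h) (mem_cons (W1404 D T h) (mem_cons (W4 D T h) (mem_cons (W4312 D T h) mem_nil)))))))))) cl956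
theorem W4313 : WFK w4313 := fun D T h => wf_of_chk h mem_nil (mem_cons (L956 D T h) mem_nil) cw4313
theorem L957 : LFK l957 := fun D T h => lf_of_chk h (mem_cons (W4273 D T h) (mem_cons (W42 D T h) (mem_cons (W16 D T h) (mem_cons (W4313 D T h) (mem_cons (W2682 D T h) (mem_cons (W638 D T h) (mem_cons (W4311 D T h) (mem_cons (W2795 D T h) (mem_cons (W1347 D T h) (mem_cons (W1348 D T h) (mem_cons (W799 D T h) (mem_cons (W3766 D T h) (mem_cons (W1689 D T h) (mem_cons (W1193 D T h) (mem_cons (W815 D T h) (mem_cons (W1690 D T h) mem_nil)))))))))))))))) cl957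
theorem W4314 : WFK w4314 := fun D T h => wf_of_chk h mem_nil (mem_cons (L957 D T h) mem_nil) cw4314
theorem W4315 : WFK w4315 := fun D T h => wf_of_chk h (mem_cons (W1211 D T h) (mem_cons (W126 D T h) mem_nil)) mem_nil cw4315
theorem W4316 : WFK w4316 := fun D T h => wf_of_chk h (mem_cons (W2042 D T h) (mem_cons (W126 D T h) mem_nil)) mem_nil cw4316
theorem W4317 : WFK w4317 := fun D T h => wf_of_chk h (mem_cons (W1153 D T h) (mem_cons (W126 D T h) mem_nil)) mem_nil cw4317
theorem W4318 : WFK w4318 := fun D T h => wf_of_chk h mem_nil (mem_cons (L547 D T h) mem_nil) cw4318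
theorem W4319 : WFK w4319 := fun D T h => wf_of_chk h mem_nil (mem_cons (L178 D T h) mem_nil) cw4319
theorem L958 : LFK l958 := fun D T h => lf_of_chk h (mem_cons (W158 D T h) (mem_cons (W220 D T h) (mem_cons (W248 D T h) (mem_cons (W9 D T h) (mem_cons (W1928 D T h) (mem_cons (W802 D T h) (mem_cons (W6 D T h) (mem_cons (W831 D T h) (mem_cons (W1101 D T h) (mem_cons (W3232 D T h) (mem_cons (W1092 D T h) (mem_cons (W1075 D T h) (mem_cons (W1535 D T h) mem_nil))))))))))))) cl958
theorem W4320 : WFK w4320 := fun D T h => wf_of_chk h mem_nil (mem_cons (L958 D T h) mem_nil) cw4320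
theorem L959 : LFK l959 := fun D T h => lf_of_chk h (mem_cons (W4319 D T h) (mem_cons (W15 D T h) (mem_cons (W6 D T h) (mem_cons (W1053 D T h) (mem_cons (W1047 D T h) (mem_cons (W141 D T h) (mem_cons (W158 D T h) mem_nil))))))) cl959
theorem W4321 : WFK w4321 := fun D T h => wf_of_chk h mem_nil (mem_cons (L959 D T h) mem_nil) cw4321
theorem L960 : LFK l960 := fun D T h => lf_of_chk h (mem_cons (W158 D T h) (mem_cons (W210 D T h) (mem_cons (W1928 D T h) (mem_cons (W831 D T h) (mem_cons (W1101 D T h) (mem_cons (W1075 D T h) (mem_cons (W1092 D T h) (mem_cons (W3232 D T h) (mem_cons (W1535 D T h) mem_nil))))))))) cl960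
theorem W4322 : WFK w4322 := fun D T h => wf_of_chk h mem_nil (mem_cons (L960 D T h) mem_nil) cw4322
theorem W4323 : WFK w4323 := fun D T h => wf_of_chk h mem_nil (mem_cons (L430 D T h) mem_nil) cw4323
theorem W4324 : WFK w4324 := fun D T h => wf_of_chk h mem_nil mem_nil cw4324
theorem W4325 : WFK w4325 := fun D T h => wf_of_chk h mem_nil (mem_cons (L55 D T h) mem_nil) cw4325
theorem W4326 : WFK w4326 := fun D T h => wf_of_chk h mem_nil (mem_cons (L120 D T h) mem_nil) cw4326
theorem L961 : LFK l961 := fun D T h => lf_of_chk h (mem_cons (W1074 D T h) (mem_cons (W1101 D T h) (mem_cons (W2452 D T h) (mem_cons (W4322 D T h) (mem_cons (W861 D T h) (mem_cons (W4323 D T h) (mem_cons (W4324 D T h) (mem_cons (W4325 D T h) (mem_cons (W4326 D T h) (mem_cons (W158 D T h) mem_nil)))))))))) cl961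
theorem W4327 : WFK w4327 := fun D T h => wf_of_chk h mem_nil (mem_cons (L961 D T h) mem_nil) cw4327
theorem W4328 : WFK w4328 := fun D T h => wf_of_chk h mem_nil mem_nil cw4328
theorem W4329 : WFK w4329 := fun D T h => wf_of_chk h mem_nil (mem_cons (L178 D T h) mem_nil) cw4329
theorem L962 : LFK l962 := fun D T h => lf_of_chk h (mem_cons (W4329 D T h) (mem_cons (W1928 D T h) (mem_cons (W158 D T h) (mem_cons (W6 D T h) mem_nil)))) cl962
theorem W4330 : WFK w4330 := fun D T h => wf_of_chk h mem_nil (mem_cons (L962 D T h) mem_nil) cw4330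
theorem W4331 : WFK w4331 := fun D T h => wf_of_chk h mem_nil (mem_cons (L483 D T h) mem_nil) cw4331
theorem W4332 : WFK w4332 := fun D T h => wf_of_chk h (mem_cons (W1473 D T h) mem_nil) mem_nil cw4332
theorem W4333 : WFK w4333 := fun D T h => wf_of_chk h mem_nil (mem_cons (L129 D T h) mem_nil) cw4333
theorem W4334 : WFK w4334 := fun D T h => wf_of_chk h (mem_cons (W429 D T h) mem_nil) mem_nil cw4334
theorem W4335 : WFK w4335 := fun D T h => wf_of_chk h mem_nil (mem_cons (L901 D T h) mem_nil) cw4335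
theorem W4336 : WFK w4336 := fun D T h => wf_of_chk h (mem_cons (W431 D T h) mem_nil) mem_nil cw4336
theorem W4337 : WFK w4337 := fun D T h => wf_of_chk h (mem_cons (W638 D T h) mem_nil) mem_nil cw4337
theorem L963 : LFK l963 := fun D T h => lf_of_chk h (mem_cons (W4319 D T h) (mem_cons (W2922 D T h) (mem_cons (W638 D T h) (mem_cons (W1854 D T h) (mem_cons (W4331 D T h) (mem_cons (W4332 D T h) (mem_cons (W4328 D T h) (mem_cons (W4333 D T h) (mem_cons (W4054 D T h) (mem_cons (W4334 D T h) (mem_cons (W4335 D T h) (mem_cons (W4336 D T h) (mem_cons (W4337 D T h) (mem_cons (W8 D T h) (mem_cons (W617 D T h) (mem_cons (W824 D T h) (mem_cons (W4329 D T h) (mem_cons (W1132 D T h) mem_nil)))))))))))))))))) cl963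
theorem W4338 : WFK w4338 := fun D T h => wf_of_chk h mem_nil (mem_cons (L963 D T h) mem_nil) cw4338
theorem W4339 : WFK w4339 := fun D T h => wf_of_chk h mem_nil mem_nil cw4339
theorem W4340 : WFK w4340 := fun D T h => wf_of_chk h mem_nil (mem_cons (L483 D T h) mem_nil) cw4340
theorem W4341 : WFK w4341 := fun D T h => wf_of_chk h (mem_cons (W1379 D T h) mem_nil) mem_nil cw4341
theorem W4342 : WFK w4342 := fun D T h => wf_of_chk h mem_nil (mem_cons (L129 D T h) mem_nil) cw4342
theorem W4343 : WFK w4343 := fun D T h => wf_of_chk h (mem_cons (W149 D T h) mem_nil) mem_nil cw4343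
theorem L964 : LFK l964 := fun D T h => lf_of_chk h (mem_cons (W4319 D T h) (mem_cons (W2922 D T h) (mem_cons (W638 D T h) (mem_cons (W4339 D T h) (mem_cons (W4340 D T h) (mem_cons (W4341 D T h) (mem_cons (W4328 D T h) (mem_cons (W4342 D T h) (mem_cons (W4054 D T h) (mem_cons (W4334 D T h) (mem_cons (W4335 D T h) (mem_cons (W4336 D T h) (mem_cons (W4343 D T h) (mem_cons (W8 D T h) (mem_cons (W617 D T h) (mem_cons (W834 D T h) (mem_cons (W4329 D T h) (mem_cons (W1132 D T h) mem_nil)))))))))))))))))) cl964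
theorem W4344 : WFK w4344 := fun D T h => wf_of_chk h mem_nil (mem_cons (L964 D T h) mem_nil) cw4344
theorem W4345 : WFK w4345 := fun D T h => wf_of_chk h mem_nil (mem_cons (L483 D T h) mem_nil) cw4345
theorem W4346 : WFK w4346 := fun D T h => wf_of_chk h (mem_cons (W1120 D T h) mem_nil) mem_nil cw4346
theorem W4347 : WFK w4347 := fun D T h => wf_of_chk h mem_nil (mem_cons (L103 D T h) mem_nil) cw4347
theorem W4348 : WFK w4348 := fun D T h => wf_of_chk h (mem_cons (W432 D T h) mem_nil) mem_nil cw4348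
theorem L965 : LFK l965 := fun D T h => lf_of_chk h (mem_cons (W4319 D T h) (mem_cons (W2922 D T h) (mem_cons (W432 D T h) (mem_cons (W3110 D T h) (mem_cons (W4345 D T h) (mem_cons (W4346 D T h) (mem_cons (W4328 D T h) (mem_cons (W4347 D T h) (mem_cons (W4054 D T h) (mem_cons (W4334 D T h) (mem_cons (W4335 D T h) (mem_cons (W4336 D T h) (mem_cons (W4348 D T h) (mem_cons (W8 D T h) (mem_cons (W617 D T h) (mem_cons (W834 D T h) (mem_cons (W4329 D T h) (mem_cons (W1132 D T h) mem_nil)))))))))))))))))) cl965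
theorem W4349 : WFK w4349 := fun D T h => wf_of_chk h mem_nil (mem_cons (L965 D T h) mem_nil) cw4349
theorem L966 : LFK l966 := fun D T h => lf_of_chk h (mem_cons (W1047 D T h) (mem_cons (W281 D T h) (mem_cons (W6 D T h) (mem_cons (W1053 D T h) (mem_cons (W158 D T h) (mem_cons (W1101 D T h) (mem_cons (W831 D T h) mem_nil))))))) cl966
theorem W4350 : WFK w4350 := fun D T h => wf_of_chk h mem_nil (mem_cons (L966 D T h) mem_nil) cw4350
theorem W4351 : WFK w4351 := fun D T h => wf_of_chk h (mem_cons (W16 D T h) (mem_cons (W2452 D T h) mem_nil)) mem_nil cw4351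
theorem L967 : LFK l967 := fun D T h => lf_of_chk h (mem_cons (W158 D T h) (mem_cons (W6 D T h) (mem_cons (W1053 D T h) (mem_cons (W831 D T h) (mem_cons (W1101 D T h) (mem_cons (W1075 D T h) (mem_cons (W1092 D T h) (mem_cons (W3232 D T h) (mem_cons (W1535 D T h) (mem_cons (W685 D T h) mem_nil)))))))))) cl967
theorem W4352 : WFK w4352 := fun D T h => wf_of_chk h mem_nil (mem_cons (L967 D T h) mem_nil) cw4352
theorem W4353 : WFK w4353 := fun D T h => wf_of_chk h mem_nil (mem_cons (L32 D T h) mem_nil) cw4353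
theorem L968 : LFK l968 := fun D T h => lf_of_chk h (mem_cons (W141 D T h) (mem_cons (W281 D T h) (mem_cons (W2452 D T h) (mem_cons (W4352 D T h) (mem_cons (W1400 D T h) (mem_cons (W501 D T h) (mem_cons (W1143 D T h) (mem_cons (W1673 D T h) (mem_cons (W4322 D T h) (mem_cons (W861 D T h) (mem_cons (W1944 D T h) (mem_cons (W4353 D T h) (mem_cons (W11 D T h) (mem_cons (W784 D T h) mem_nil)))))))))))))) cl968
theorem W4354 : WFK w4354 := fun D T h => wf_of_chk h mem_nil (mem_cons (L968 D T h) mem_nil) cw4354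
theorem W4355 : WFK w4355 := fun D T h => wf_of_chk h mem_nil (mem_cons (L968 D T h) mem_nil) cw4355
theorem L969 : LFK l969 := fun D T h => lf_of_chk h (mem_cons (W4319 D T h) (mem_cons (W15 D T h) (mem_cons (W6 D T h) (mem_cons (W1053 D T h) (mem_cons (W831 D T h) mem_nil))))) cl969
theorem W4356 : WFK w4356 := fun D T h => wf_of_chk h mem_nil (mem_cons (L969 D T h) mem_nil) cw4356
theorem W4357 : WFK w4357 := fun D T h => wf_of_chk h (mem_cons (W633 D T h) (mem_cons (W15 D T h) mem_nil)) mem_nil cw4357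
theorem W4358 : WFK w4358 := fun D T h => wf_of_chk h mem_nil (mem_cons (L32 D T h) mem_nil) cw4358
theorem L970 : LFK l970 := fun D T h => lf_of_chk h (mem_cons (W3274 D T h) (mem_cons (W12 D T h) (mem_cons (W520 D T h) (mem_cons (W2922 D T h) (mem_cons (W4319 D T h) (mem_cons (W4357 D T h) (mem_cons (W3518 D T h) (mem_cons (W1074 D T h) (mem_cons (W629 D T h) (mem_cons (W4358 D T h) mem_nil)))))))))) cl970
theorem W4359 : WFK w4359 := fun D T h => wf_of_chk h mem_nil (mem_cons (L970 D T h) mem_nil) cw4359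
theorem W4360 : WFK w4360 := fun D T h => wf_of_chk h mem_nil (mem_cons (L970 D T h) mem_nil) cw4360
theorem W4361 : WFK w4361 := fun D T h => wf_of_chk h mem_nil (mem_cons (L959 D T h) mem_nil) cw4361
theorem L971 : LFK l971 := fun D T h => lf_of_chk h (mem_cons (W4321 D T h) (mem_cons (W15 D T h) (mem_cons (W2452 D T h) (mem_cons (W4350 D T h) (mem_cons (W141 D T h) (mem_cons (W1707 D T h) (mem_cons (W4351 D T h) (mem_cons (W4354 D T h) (mem_cons (W4355 D T h) (mem_cons (W4327 D T h) (mem_cons (W4330 D T h) (mem_cons (W4338 D T h) (mem_cons (W4344 D T h) (mem_cons (W4349 D T h) (mem_cons (W2922 D T h) (mem_cons (W4319 D T h) (mem_cons (W3274 D T h) (mem_cons (W4356 D T h) (mem_cons (W4359 D T h) (mem_cons (W4360 D T h) (mem_cons (W3276 D T h) (mem_cons (W3566 D T h) (mem_cons (W795 D T h) (mem_cons (W4361 D T h) mem_nil)))))))))))))))))))))))) cl971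
theorem W4362 : WFK w4362 := fun D T h => wf_of_chk h mem_nil (mem_cons (L971 D T h) mem_nil) cw4362
theorem W4363 : WFK w4363 := fun D T h => wf_of_chk h mem_nil (mem_cons (L959 D T h) mem_nil) cw4363
theorem W4364 : WFK w4364 := fun D T h => wf_of_chk h mem_nil (mem_cons (L962 D T h) mem_nil) cw4364
theorem W4365 : WFK w4365 := fun D T h => wf_of_chk h mem_nil (mem_cons (L960 D T h) mem_nil) cw4365
theorem L972 : LFK l972 := fun D T h => lf_of_chk h (mem_cons (W1074 D T h) (mem_cons (W861 D T h) (mem_cons (W4323 D T h) (mem_cons (W4189 D T h) (mem_cons (W4325 D T h) (mem_cons (W158 D T h) (mem_cons (W4326 D T h) (mem_cons (W1101 D T h) (mem_cons (W1932 D T h) (mem_cons (W4365 D T h) mem_nil)))))))))) cl972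
theorem W4366 : WFK w4366 := fun D T h => wf_of_chk h mem_nil (mem_cons (L972 D T h) mem_nil) cw4366
theorem W4367 : WFK w4367 := fun D T h => wf_of_chk h (mem_cons (W1546 D T h) mem_nil) mem_nil cw4367
theorem W4368 : WFK w4368 := fun D T h => wf_of_chk h (mem_cons (W429 D T h) mem_nil) mem_nil cw4368
theorem W4369 : WFK w4369 := fun D T h => wf_of_chk h (mem_cons (W431 D T h) mem_nil) mem_nil cw4369
theorem W4370 : WFK w4370 := fun D T h => wf_of_chk h mem_nil (mem_cons (L33 D T h) mem_nil) cw4370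
theorem L973 : LFK l973 := fun D T h => lf_of_chk h (mem_cons (W4319 D T h) (mem_cons (W2922 D T h) (mem_cons (W432 D T h) (mem_cons (W7 D T h) (mem_cons (W1072 D T h) (mem_cons (W4347 D T h) (mem_cons (W1121 D T h) (mem_cons (W4367 D T h) (mem_cons (W4368 D T h) (mem_cons (W4035 D T h) (mem_cons (W4369 D T h) (mem_cons (W4370 D T h) (mem_cons (W4 D T h) (mem_cons (W1928 D T h) (mem_cons (W4192 D T h) (mem_cons (W834 D T h) (mem_cons (W4329 D T h) (mem_cons (W1132 D T h) mem_nil)))))))))))))))))) cl973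
theorem W4371 : WFK w4371 := fun D T h => wf_of_chk h mem_nil (mem_cons (L973 D T h) mem_nil) cw4371
theorem W4372 : WFK w4372 := fun D T h => wf_of_chk h mem_nil (mem_cons (L478 D T h) mem_nil) cw4372
theorem W4373 : WFK w4373 := fun D T h => wf_of_chk h (mem_cons (W1379 D T h) mem_nil) mem_nil cw4373
theorem W4374 : WFK w4374 := fun D T h => wf_of_chk h (mem_cons (W430 D T h) mem_nil) mem_nil cw4374
theorem L974 : LFK l974 := fun D T h => lf_of_chk h (mem_cons (W4370 D T h) (mem_cons (W2922 D T h) (mem_cons (W638 D T h) (mem_cons (W8 D T h) (mem_cons (W4372 D T h) (mem_cons (W4192 D T h) (mem_cons (W4373 D T h) (mem_cons (W4342 D T h) (mem_cons (W4374 D T h) (mem_cons (W4368 D T h) (mem_cons (W4035 D T h) (mem_cons (W4369 D T h) (mem_cons (W4 D T h) (mem_cons (W1928 D T h) (mem_cons (W834 D T h) (mem_cons (W4329 D T h) (mem_cons (W1132 D T h) (mem_cons (W4319 D T h) mem_nil)))))))))))))))))) cl974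
theorem W4375 : WFK w4375 := fun D T h => wf_of_chk h mem_nil (mem_cons (L974 D T h) mem_nil) cw4375
theorem W4376 : WFK w4376 := fun D T h => wf_of_chk h (mem_cons (W1473 D T h) mem_nil) mem_nil cw4376
theorem W4377 : WFK w4377 := fun D T h => wf_of_chk h (mem_cons (W1539 D T h) mem_nil) mem_nil cw4377
theorem L975 : LFK l975 := fun D T h => lf_of_chk h (mem_cons (W4370 D T h) (mem_cons (W2922 D T h) (mem_cons (W638 D T h) (mem_cons (W6 D T h) (mem_cons (W812 D T h) (mem_cons (W4333 D T h) (mem_cons (W4376 D T h) (mem_cons (W4377 D T h) (mem_cons (W4368 D T h) (mem_cons (W4035 D T h) (mem_cons (W4369 D T h) (mem_cons (W4 D T h) (mem_cons (W1928 D T h) (mem_cons (W4192 D T h) (mem_cons (W823 D T h) (mem_cons (W4329 D T h) (mem_cons (W1132 D T h) (mem_cons (W4319 D T h) mem_nil)))))))))))))))))) cl975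
theorem W4378 : WFK w4378 := fun D T h => wf_of_chk h mem_nil (mem_cons (L975 D T h) mem_nil) cw4378
theorem W4379 : WFK w4379 := fun D T h => wf_of_chk h mem_nil (mem_cons (L966 D T h) mem_nil) cw4379
theorem W4380 : WFK w4380 := fun D T h => wf_of_chk h mem_nil (mem_cons (L967 D T h) mem_nil) cw4380
theorem L976 : LFK l976 := fun D T h => lf_of_chk h (mem_cons (W4353 D T h) (mem_cons (W11 D T h) (mem_cons (W784 D T h) (mem_cons (W4192 D T h) (mem_cons (W141 D T h) (mem_cons (W281 D T h) (mem_cons (W1932 D T h) (mem_cons (W4380 D T h) (mem_cons (W1143 D T h) (mem_cons (W501 D T h) (mem_cons (W1400 D T h) (mem_cons (W1673 D T h) (mem_cons (W861 D T h) (mem_cons (W4365 D T h) (mem_cons (W1944 D T h) mem_nil))))))))))))))) cl976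
theorem W4381 : WFK w4381 := fun D T h => wf_of_chk h mem_nil (mem_cons (L976 D T h) mem_nil) cw4381
theorem W4382 : WFK w4382 := fun D T h => wf_of_chk h mem_nil (mem_cons (L976 D T h) mem_nil) cw4382
theorem W4383 : WFK w4383 := fun D T h => wf_of_chk h mem_nil (mem_cons (L976 D T h) mem_nil) cw4383
theorem W4384 : WFK w4384 := fun D T h => wf_of_chk h mem_nil (mem_cons (L969 D T h) mem_nil) cw4384
theorem L977 : LFK l977 := fun D T h => lf_of_chk h (mem_cons (W4319 D T h) (mem_cons (W2922 D T h) (mem_cons (W15 D T h) (mem_cons (W4 D T h) (mem_cons (W33 D T h) (mem_cons (W4192 D T h) (mem_cons (W858 D T h) (mem_cons (W141 D T h) (mem_cons (W1367 D T h) (mem_cons (W4368 D T h) (mem_cons (W4035 D T h) (mem_cons (W4369 D T h) (mem_cons (W4370 D T h) (mem_cons (W834 D T h) (mem_cons (W4329 D T h) (mem_cons (W1132 D T h) mem_nil)))))))))))))))) cl977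
theorem W4386 : WFK w4386 := fun D T h => wf_of_chk h mem_nil (mem_cons (L977 D T h) mem_nil) cw4386
theorem W4387 : WFK w4387 := fun D T h => wf_of_chk h mem_nil (mem_cons (L959 D T h) mem_nil) cw4387
theorem W4388 : WFK w4388 := fun D T h => wf_of_chk h mem_nil (mem_cons (L959 D T h) mem_nil) cw4388
theorem L978 : LFK l978 := fun D T h => lf_of_chk h (mem_cons (W4363 D T h) (mem_cons (W2922 D T h) (mem_cons (W4319 D T h) (mem_cons (W4384 D T h) (mem_cons (W1919 D T h) (mem_cons (W4386 D T h) (mem_cons (W3566 D T h) (mem_cons (W4321 D T h) (mem_cons (W4387 D T h) (mem_cons (W219 D T h) (mem_cons (W4388 D T h) (mem_cons (W15 D T h) (mem_cons (W1932 D T h) (mem_cons (W4353 D T h) (mem_cons (W4379 D T h) (mem_cons (W4381 D T h) (mem_cons (W4382 D T h) (mem_cons (W1707 D T h) (mem_cons (W4383 D T h) (mem_cons (W4364 D T h) (mem_cons (W4366 D T h) (mem_cons (W4371 D T h) (mem_cons (W4375 D T h) (mem_cons (W4378 D T h) mem_nil)))))))))))))))))))))))) cl978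
theorem W4389 : WFK w4389 := fun D T h => wf_of_chk h mem_nil (mem_cons (L978 D T h) mem_nil) cw4389
theorem L979 : LFK l979 := fun D T h => lf_of_chk h (mem_cons (W1932 D T h) (mem_cons (W32 D T h) (mem_cons (W4 D T h) (mem_cons (W831 D T h) mem_nil)))) cl979
theorem W4390 : WFK w4390 := fun D T h => wf_of_chk h mem_nil (mem_cons (L979 D T h) mem_nil) cw4390
theorem W4391 : WFK w4391 := fun D T h => wf_of_chk h mem_nil (mem_cons (L978 D T h) mem_nil) cw4391
theorem L980 : LFK l980 := fun D T h => lf_of_chk h (mem_cons (W2378 D T h) (mem_cons (W181 D T h) (mem_cons (W1932 D T h) (mem_cons (W3719 D T h) (mem_cons (W1919 D T h) (mem_cons (W4390 D T h) (mem_cons (W4391 D T h) (mem_cons (W219 D T h) (mem_cons (W4320 D T h) (mem_cons (W4362 D T h) (mem_cons (W4389 D T h) mem_nil))))))))))) cl980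
theorem W4392 : WFK w4392 := fun D T h => wf_of_chk h mem_nil (mem_cons (L980 D T h) mem_nil) cw4392
theorem W4393 : WFK w4393 := fun D T h => wf_of_chk h (mem_cons (W4392 D T h) (mem_cons (W37 D T h) mem_nil)) mem_nil cw4393
theorem W4394 : WFK w4394 := fun D T h => wf_of_chk h (mem_cons (W1291 D T h) (mem_cons (W2378 D T h) mem_nil)) mem_nil cw4394
theorem L981 : LFK l981 := fun D T h => lf_of_chk h (mem_cons (W4286 D T h) (mem_cons (W37 D T h) (mem_cons (W126 D T h) (mem_cons (W804 D T h) (mem_cons (W1309 D T h) (mem_cons (W4287 D T h) (mem_cons (W4310 D T h) (mem_cons (W4314 D T h) (mem_cons (W4394 D T h) (mem_cons (W2893 D T h) (mem_cons (W4309 D T h) (mem_cons (W4315 D T h) (mem_cons (W284 D T h) (mem_cons (W1213 D T h) (mem_cons (W4316 D T h) (mem_cons (W4317 D T h) (mem_cons (W3523 D T h) (mem_cons (W4302 D T h) (mem_cons (W4304 D T h) (mem_cons (W4305 D T h) (mem_cons (W3516 D T h) (mem_cons (W2346 D T h) (mem_cons (W1690 D T h) (mem_cons (W3543 D T h) (mem_cons (W4306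 D T h) (mem_cons (W4307 D T h) (mem_cons (W3016 D T h) (mem_cons (W3271 D T h) (mem_cons (W3279 D T h) (mem_cons (W3563 D T h) (mem_cons (W4318 D T h) (mem_cons (W4393 D T h) (mem_cons (W788 D T h) (mem_cons (W3611 D T h) mem_nil)))))))))))))))))))))))))))))))))) cl981
theorem W4396 : WFK w4396 := fun D T h => wf_of_chk h (mem_cons (W177 D T h) (mem_cons (W37 D T h) mem_nil)) mem_nil cw4396
theorem W4397 : WFK w4397 := fun D T h => wf_of_chk h mem_nil (mem_cons (L344 D T h) mem_nil) cw4397
theorem L982 : LFK l982 := fun D T h => lf_of_chk h (mem_cons (W2766 D T h) (mem_cons (W109 D T h) (mem_cons (W10 D T h) (mem_cons (W1101 D T h) (mem_cons (W191 D T h) (mem_cons (W698 D T h) (mem_cons (W1075 D T h) (mem_cons (W7 D T h) (mem_cons (W817 D T h) (mem_cons (W33 D T h) (mem_cons (W161 D T h) mem_nil))))))))))) cl982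
theorem W4399 : WFK w4399 := fun D T h => wf_of_chk h mem_nil (mem_cons (L982 D T h) mem_nil) cw4399
theorem W4400 : WFK w4400 := fun D T h => wf_of_chk h mem_nil (mem_cons (L232 D T h) mem_nil) cw4400
theorem W4402 : WFK w4402 := fun D T h => wf_of_chk h mem_nil (mem_cons (L778 D T h) mem_nil) cw4402
theorem W4403 : WFK w4403 := fun D T h => wf_of_chk h mem_nil (mem_cons (L66 D T h) mem_nil) cw4403
theorem W4404 : WFK w4404 := fun D T h => wf_of_chk h mem_nil (mem_cons (L653 D T h) mem_nil) cw4404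
theorem L984 : LFK l984 := fun D T h => lf_of_chk h (mem_cons (W262 D T h) (mem_cons (W581 D T h) (mem_cons (W368 D T h) (mem_cons (W3 D T h) (mem_cons (W750 D T h) (mem_cons (W2359 D T h) (mem_cons (W747 D T h) (mem_cons (W260 D T h) (mem_cons (W652 D T h) (mem_cons (W381 D T h) (mem_cons (W4402 D T h) (mem_cons (W296 D T h) (mem_cons (W258 D T h) (mem_cons (W256 D T h) (mem_cons (W4403 D T h) (mem_cons (W4404 D T h) (mem_cons (W281 D T h) (mem_cons (W3148 D T h) (mem_cons (W390 D T h) mem_nil))))))))))))))))))) cl984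
theorem W4406 : WFK w4406 := fun D T h => wf_of_chk h mem_nil (mem_cons (L694 D T h) mem_nil) cw4406
theorem W4407 : WFK w4407 := fun D T h => wf_of_chk h mem_nil (mem_cons (L297 D T h) mem_nil) cw4407
theorem W4411 : WFK w4411 := fun D T h => wf_of_chk h mem_nil (mem_cons (L777 D T h) mem_nil) cw4411
theorem W4413 : WFK w4413 := fun D T h => wf_of_chk h mem_nil (mem_cons (L45 D T h) mem_nil) cw4413
theorem W4414 : WFK w4414 := fun D T h => wf_of_chk h (mem_cons (W16 D T h) (mem_cons (W1192 D T h) mem_nil)) mem_nil cw4414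
theorem W4416 : WFK w4416 := fun D T h => wf_of_chk h mem_nil (mem_cons (L106 D T h) mem_nil) cw4416
theorem W4421 : WFK w4421 := fun D T h => wf_of_chk h mem_nil (mem_cons (L446 D T h) mem_nil) cw4421
theorem L987 : LFK l987 := fun D T h => lf_of_chk h (mem_cons (W161 D T h) (mem_cons (W22 D T h) (mem_cons (W125 D T h) (mem_cons (W1120 D T h) (mem_cons (W10 D T h) (mem_cons (W2047 D T h) (mem_cons (W281 D T h) (mem_cons (W60 D T h) (mem_cons (W817 D T h) (mem_cons (W7 D T h) (mem_cons (W1075 D T h) (mem_cons (W33 D T h) mem_nil)))))))))))) cl987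
theorem W4423 : WFK w4423 := fun D T h => wf_of_chk h mem_nil (mem_cons (L987 D T h) mem_nil) cw4423
theorem W4424 : WFK w4424 := fun D T h => wf_of_chk h (mem_cons (W16 D T h) (mem_cons (W4423 D T h) mem_nil)) mem_nil cw4424
theorem W4427 : WFK w4427 := fun D T h => wf_of_chk h mem_nil (mem_cons (L331 D T h) mem_nil) cw4427
theorem L988 : LFK l988 := fun D T h => lf_of_chk h (mem_cons (W50 D T h) (mem_cons (W1196 D T h) (mem_cons (W15 D T h) (mem_cons (W401 D T h) (mem_cons (W220 D T h) (mem_cons (W24 D T h) (mem_cons (W3430 D T h) (mem_cons (W1332 D T h) (mem_cons (W209 D T h) (mem_cons (W1352 D T h) (mem_cons (W4209 D T h) (mem_cons (W2405 D T h) (mem_cons (W946 D T h) (mem_cons (W2834 D T h) (mem_cons (W1227 D T h) (mem_cons (W435 D T h) (mem_cons (W3878 D T h) (mem_cons (W1362 D T h) (mem_cons (W42 D T h) (mem_cons (W1361 D T h) mem_nil)))))))))))))))))))) cl988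
theorem W4435 : WFK w4435 := fun D T h => wf_of_chk h mem_nil (mem_cons (L860 D T h) mem_nil) cw4435
theorem W4436 : WFK w4436 := fun D T h => wf_of_chk h mem_nil (mem_cons (L862 D T h) mem_nil) cw4436
theorem W4437 : WFK w4437 := fun D T h => wf_of_chk h mem_nil mem_nil cw4437
theorem W4438 : WFK w4438 := fun D T h => wf_of_chk h mem_nil (mem_cons (L863 D T h) mem_nil) cw4438
theorem L990 : LFK l990 := fun D T h => lf_of_chk h (mem_cons (W4435 D T h) (mem_cons (W1249 D T h) (mem_cons (W4436 D T h) (mem_cons (W4437 D T h) (mem_cons (W4438 D T h) (mem_cons (W3762 D T h) (mem_cons (W4 D T h) mem_nil))))))) cl990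
theorem W4439 : WFK w4439 := fun D T h => wf_of_chk h mem_nil (mem_cons (L990 D T h) mem_nil) cw4439
theorem W4442 : WFK w4442 := fun D T h => wf_of_chk h mem_nil (mem_cons (L40 D T h) mem_nil) cw4442
theorem W4444 : WFK w4444 := fun D T h => wf_of_chk h mem_nil (mem_cons (L335 D T h) mem_nil) cw4444
theorem W4447 : WFK w4447 := fun D T h => wf_of_chk h mem_nil (mem_cons (L409 D T h) mem_nil) cw4447
theorem W4448 : WFK w4448 := fun D T h => wf_of_chk h mem_nil mem_nil cw4448
theorem W4451 : WFK w4451 := fun D T h => wf_of_chk h mem_nil (mem_cons (L787 D T h) mem_nil) cw4451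
theorem W4452 : WFK w4452 := fun D T h => wf_of_chk h mem_nil (mem_cons (L409 D T h) mem_nil) cw4452
theorem L994 : LFK l994 := fun D T h => lf_of_chk h (mem_cons (W401 D T h) mem_nil) cl994
theorem W4454 : WFK w4454 := fun D T h => wf_of_chk h mem_nil (mem_cons (L994 D T h) mem_nil) cw4454
theorem W4455 : WFK w4455 := fun D T h => wf_of_chk h mem_nil (mem_cons (L643 D T h) mem_nil) cw4455
theorem W4456 : WFK w4456 := fun D T h => wf_of_chk h mem_nil (mem_cons (L990 D T h) mem_nil) cw4456
theorem W4457 : WFK w4457 := fun D T h => wf_of_chk h mem_nil (mem_cons (L994 D T h) mem_nil) cw4457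
theorem W4458 : WFK w4458 := fun D T h => wf_of_chk h mem_nil (mem_cons (L185 D T h) mem_nil) cw4458
theorem W4459 : WFK w4459 := fun D T h => wf_of_chk h mem_nil (mem_cons (L787 D T h) mem_nil) cw4459
theorem W4460 : WFK w4460 := fun D T h => wf_of_chk h mem_nil (mem_cons (L419 D T h) mem_nil) cw4460
theorem W4467 : WFK w4467 := fun D T h => wf_of_chk h mem_nil (mem_cons (L32 D T h) mem_nil) cw4467
theorem W4470 : WFK w4470 := fun D T h => wf_of_chk h mem_nil (mem_cons (L413 D T h) mem_nil) cw4470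
theorem W4471 : WFK w4471 := fun D T h => wf_of_chk h mem_nil (mem_cons (L46 D T h) mem_nil) cw4471
theorem L1008 : LFK l1008 := fun D T h => lf_of_chk h mem_nil cl1008
theorem W4489 : WFK w4489 := fun D T h => wf_of_chk h mem_nil mem_nil cw4489
theorem W4495 : WFK w4495 := fun D T h => wf_of_chk h mem_nil mem_nil cw4495
theorem L1011 : LFK l1011 := fun D T h => lf_of_chk h mem_nil cl1011
theorem W4499 : WFK w4499 := fun D T h => wf_of_chk h mem_nil (mem_cons (L1011 D T h) mem_nil) cw4499
theorem W4506 : WFK w4506 := fun D T h => wf_of_chk h (mem_cons (W2914 D T h) (mem_cons (W710 D T h) mem_nil)) mem_nil cw4506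
theorem L1013 : LFK l1013 := fun D T h => lf_of_chk h (mem_cons (W7 D T h) (mem_cons (W4199 D T h) (mem_cons (W852 D T h) mem_nil))) cl1013
theorem W4507 : WFK w4507 := fun D T h => wf_of_chk h mem_nil (mem_cons (L1013 D T h) mem_nil) cw4507
theorem L1014 : LFK l1014 := fun D T h => lf_of_chk h (mem_cons (W4454 D T h) (mem_cons (W581 D T h) (mem_cons (W401 D T h) (mem_cons (W3 D T h) (mem_cons (W750 D T h) (mem_cons (W2359 D T h) (mem_cons (W262 D T h) (mem_cons (W3147 D T h) (mem_cons (W1269 D T h) (mem_cons (W260 D T h) (mem_cons (W652 D T h) (mem_cons (W381 D T h) (mem_cons (W4507 D T h) (mem_cons (W296 D T h) (mem_cons (W258 D T h) (mem_cons (W256 D T h) (mem_cons (W4403 D T h) mem_nil))))))))))))))))) cl1014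
theorem W4508 : WFK w4508 := fun D T h => wf_of_chk h mem_nil (mem_cons (L1014 D T h) mem_nil) cw4508
theorem L1015 : LFK l1015 := fun D T h => lf_of_chk h (mem_cons (W6 D T h) (mem_cons (W2471 D T h) (mem_cons (W852 D T h) mem_nil))) cl1015
theorem W4509 : WFK w4509 := fun D T h => wf_of_chk h mem_nil (mem_cons (L1015 D T h) mem_nil) cw4509
theorem L1016 : LFK l1016 := fun D T h => lf_of_chk h (mem_cons (W4454 D T h) (mem_cons (W581 D T h) (mem_cons (W401 D T h) (mem_cons (W3 D T h) (mem_cons (W750 D T h) (mem_cons (W2353 D T h) (mem_cons (W1297 D T h) (mem_cons (W3147 D T h) (mem_cons (W1273 D T h) (mem_cons (W1296 D T h) (mem_cons (W381 D T h) (mem_cons (W4509 D T h) (mem_cons (W2074 D T h) (mem_cons (W1272 D T h) (mem_cons (W746 D T h) (mem_cons (W4407 D T h) mem_nil)))))))))))))))) cl1016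
theorem W4510 : WFK w4510 := fun D T h => wf_of_chk h mem_nil (mem_cons (L1016 D T h) mem_nil) cw4510
theorem L1017 : LFK l1017 := fun D T h => lf_of_chk h (mem_cons (W4 D T h) (mem_cons (W192 D T h) (mem_cons (W852 D T h) mem_nil))) cl1017
theorem W4511 : WFK w4511 := fun D T h => wf_of_chk h mem_nil (mem_cons (L1017 D T h) mem_nil) cw4511
theorem L1018 : LFK l1018 := fun D T h => lf_of_chk h (mem_cons (W4454 D T h) (mem_cons (W581 D T h) (mem_cons (W401 D T h) (mem_cons (W3 D T h) (mem_cons (W750 D T h) (mem_cons (W716 D T h) (mem_cons (W642 D T h) (mem_cons (W1737 D T h) (mem_cons (W851 D T h) (mem_cons (W718 D T h) (mem_cons (W381 D T h) (mem_cons (W4511 D T h) (mem_cons (W765 D T h) (mem_cons (W1325 D T h) (mem_cons (W1554 D T h) (mem_cons (W766 D T h) mem_nil)))))))))))))))) cl1018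
theorem W4512 : WFK w4512 := fun D T h => wf_of_chk h mem_nil (mem_cons (L1018 D T h) mem_nil) cw4512
theorem W4513 : WFK w4513 := fun D T h => wf_of_chk h mem_nil (mem_cons (L192 D T h) mem_nil) cw4513
theorem L1019 : LFK l1019 := fun D T h => lf_of_chk h (mem_cons (W3 D T h) (mem_cons (W67 D T h) (mem_cons (W4100 D T h) (mem_cons (W3203 D T h) (mem_cons (W12 D T h) (mem_cons (W11 D T h) (mem_cons (W13 D T h) mem_nil))))))) cl1019
theorem W4514 : WFK w4514 := fun D T h => wf_of_chk h mem_nil (mem_cons (L1019 D T h) mem_nil) cw4514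
theorem W4515 : WFK w4515 := fun D T h => wf_of_chk h (mem_cons (W368 D T h) mem_nil) mem_nil cw4515
theorem W4516 : WFK w4516 := fun D T h => wf_of_chk h (mem_cons (W651 D T h) mem_nil) mem_nil cw4516
theorem W4517 : WFK w4517 := fun D T h => wf_of_chk h (mem_cons (W651 D T h) mem_nil) mem_nil cw4517
theorem W4518 : WFK w4518 := fun D T h => wf_of_chk h mem_nil mem_nil cw4518
theorem W4519 : WFK w4519 := fun D T h => wf_of_chk h (mem_cons (W4518 D T h) mem_nil) mem_nil cw4519
theorem W4520 : WFK w4520 := fun D T h => wf_of_chk h (mem_cons (W91 D T h) (mem_cons (W651 D T h) mem_nil)) mem_nil cw4520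
theorem W4521 : WFK w4521 := fun D T h => wf_of_chk h (mem_cons (W75 D T h) (mem_cons (W651 D T h) mem_nil)) mem_nil cw4521
theorem W4523 : WFK w4523 := fun D T h => wf_of_chk h (mem_cons (W281 D T h) (mem_cons (W651 D T h) mem_nil)) mem_nil cw4523
theorem L1020 : LFK l1020 := fun D T h => lf_of_chk h (mem_cons (W4209 D T h) (mem_cons (W557 D T h) (mem_cons (W3565 D T h) (mem_cons (W69 D T h) (mem_cons (W651 D T h) (mem_cons (W4515 D T h) (mem_cons (W4516 D T h) (mem_cons (W4517 D T h) (mem_cons (W370 D T h) (mem_cons (W111 D T h) (mem_cons (W4523 D T h) (mem_cons (W80 D T h) (mem_cons (W4519 D T h) (mem_cons (W91 D T h) (mem_cons (W521 D T h) (mem_cons (W4259 D T h) (mem_cons (W4520 D T h) (mem_cons (W4521 D T h) (mem_cons (W1501 D T h) mem_nil))))))))))))))))))) cl1020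
theorem W4524 : WFK w4524 := fun D T h => wf_of_chk h mem_nil (mem_cons (L1020 D T h) mem_nil) cw4524
theorem W4525 : WFK w4525 := fun D T h => wf_of_chk h mem_nil (mem_cons (L111 D T h) mem_nil) cw4525
theorem L1021 : LFK l1021 := fun D T h => lf_of_chk h (mem_cons (W3797 D T h) (mem_cons (W91 D T h) (mem_cons (W80 D T h) (mem_cons (W12 D T h) (mem_cons (W4166 D T h) (mem_cons (W3318 D T h) (mem_cons (W233 D T h) (mem_cons (W216 D T h) mem_nil)))))))) cl1021
theorem W4526 : WFK w4526 := fun D T h => wf_of_chk h mem_nil (mem_cons (L1021 D T h) mem_nil) cw4526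
theorem W4527 : WFK w4527 := fun D T h => wf_of_chk h mem_nil (mem_cons (L257 D T h) mem_nil) cw4527
theorem W4528 : WFK w4528 := fun D T h => wf_of_chk h (mem_cons (W2740 D T h) mem_nil) mem_nil cw4528
theorem W4529 : WFK w4529 := fun D T h => wf_of_chk h mem_nil (mem_cons (L419 D T h) mem_nil) cw4529
theorem L1022 : LFK l1022 := fun D T h => lf_of_chk h (mem_cons (W3797 D T h) (mem_cons (W33 D T h) (mem_cons (W105 D T h) (mem_cons (W13 D T h) (mem_cons (W4529 D T h) (mem_cons (W3318 D T h) (mem_cons (W233 D T h) (mem_cons (W1825 D T h) mem_nil)))))))) cl1022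
theorem W4530 : WFK w4530 := fun D T h => wf_of_chk h mem_nil (mem_cons (L1022 D T h) mem_nil) cw4530
theorem W4531 : WFK w4531 := fun D T h => wf_of_chk h mem_nil (mem_cons (L878 D T h) mem_nil) cw4531
theorem L1023 : LFK l1023 := fun D T h => lf_of_chk h (mem_cons (W3797 D T h) (mem_cons (W161 D T h) (mem_cons (W112 D T h) (mem_cons (W3 D T h) (mem_cons (W651 D T h) (mem_cons (W740 D T h) (mem_cons (W3318 D T h) (mem_cons (W233 D T h) mem_nil)))))))) cl1023
theorem W4532 : WFK w4532 := fun D T h => wf_of_chk h mem_nil (mem_cons (L1023 D T h) mem_nil) cw4532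
theorem L1024 : LFK l1024 := fun D T h => lf_of_chk h (mem_cons (W3797 D T h) (mem_cons (W281 D T h) (mem_cons (W69 D T h) (mem_cons (W3 D T h) (mem_cons (W651 D T h) (mem_cons (W3318 D T h) (mem_cons (W233 D T h) (mem_cons (W86 D T h) mem_nil)))))))) cl1024
theorem W4533 : WFK w4533 := fun D T h => wf_of_chk h mem_nil (mem_cons (L1024 D T h) mem_nil) cw4533
theorem L1025 : LFK l1025 := fun D T h => lf_of_chk h (mem_cons (W1198 D T h) (mem_cons (W3356 D T h) (mem_cons (W909 D T h) (mem_cons (W1 D T h) (mem_cons (W69 D T h) (mem_cons (W1501 D T h) (mem_cons (W3797 D T h) (mem_cons (W85 D T h) (mem_cons (W1206 D T h) (mem_cons (W3318 D T h) (mem_cons (W105 D T h) (mem_cons (W248 D T h) (mem_cons (W4525 D T h) (mem_cons (W4526 D T h) (mem_cons (W4260 D T h) (mem_cons (W4527 D T h) (mem_cons (W4528 D T h) (mem_cons (W4530 D T h) (mem_cons (W4531 D T h) (mem_cons (W4514 D T h) (mem_cons (W4524 D T h) (mem_cons (W1170 D T h) (mem_cons (W1204 D T h) (mem_cons (W721 D T h) (mem_cons (W267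 D T h) (mem_cons (W114 D T h) (mem_cons (W4532 D T h) (mem_cons (W4533 D T h) mem_nil)))))))))))))))))))))))))))) cl1025
theorem W4534 : WFK w4534 := fun D T h => wf_of_chk h mem_nil (mem_cons (L1025 D T h) mem_nil) cw4534
theorem L1026 : LFK l1026 := fun D T h => lf_of_chk h (mem_cons (W461 D T h) (mem_cons (W201 D T h) (mem_cons (W1449 D T h) (mem_cons (W162 D T h) (mem_cons (W154 D T h) (mem_cons (W2724 D T h) (mem_cons (W1409 D T h) (mem_cons (W401 D T h) (mem_cons (W3762 D T h) (mem_cons (W13 D T h) mem_nil)))))))))) cl1026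
theorem W4535 : WFK w4535 := fun D T h => wf_of_chk h mem_nil (mem_cons (L1026 D T h) mem_nil) cw4535
theorem L1027 : LFK l1027 := fun D T h => lf_of_chk h (mem_cons (W461 D T h) (mem_cons (W199 D T h) (mem_cons (W201 D T h) (mem_cons (W1449 D T h) (mem_cons (W164 D T h) (mem_cons (W153 D T h) (mem_cons (W2726 D T h) (mem_cons (W2724 D T h) (mem_cons (W3 D T h) (mem_cons (W1409 D T h) (mem_cons (W401 D T h) (mem_cons (W3762 D T h) (mem_cons (W12 D T h) (mem_cons (W13 D T h) mem_nil)))))))))))))) cl1027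
theorem W4536 : WFK w4536 := fun D T h => wf_of_chk h mem_nil (mem_cons (L1027 D T h) mem_nil) cw4536
theorem L1028 : LFK l1028 := fun D T h => lf_of_chk h (mem_cons (W20 D T h) mem_nil) cl1028
theorem W4537 : WFK w4537 := fun D T h => wf_of_chk h mem_nil (mem_cons (L1028 D T h) mem_nil) cw4537
theorem L1029 : LFK l1029 := fun D T h => lf_of_chk h (mem_cons (W22 D T h) mem_nil) cl1029
theorem W4538 : WFK w4538 := fun D T h => wf_of_chk h mem_nil (mem_cons (L1029 D T h) mem_nil) cw4538
theorem W4539 : WFK w4539 := fun D T h => wf_of_chk h mem_nil (mem_cons (L878 D T h) mem_nil) cw4539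
theorem W4540 : WFK w4540 := fun D T h => wf_of_chk h mem_nil (mem_cons (L37 D T h) mem_nil) cw4540
theorem W4541 : WFK w4541 := fun D T h => wf_of_chk h mem_nil (mem_cons (L278 D T h) mem_nil) cw4541
theorem L1030 : LFK l1030 := fun D T h => lf_of_chk h (mem_cons (W10 D T h) mem_nil) cl1030
theorem W4542 : WFK w4542 := fun D T h => wf_of_chk h mem_nil (mem_cons (L1030 D T h) mem_nil) cw4542
theorem L1031 : LFK l1031 := fun D T h => lf_of_chk h (mem_cons (W3878 D T h) (mem_cons (W368 D T h) (mem_cons (W1 D T h) (mem_cons (W203 D T h) (mem_cons (W2913 D T h) (mem_cons (W4537 D T h) (mem_cons (W69 D T h) (mem_cons (W4538 D T h) (mem_cons (W4539 D T h) (mem_cons (W2443 D T h) (mem_cons (W4540 D T h) (mem_cons (W4541 D T h) (mem_cons (W949 D T h) (mem_cons (W3424 D T h) (mem_cons (W4542 D T h) mem_nil))))))))))))))) cl1031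
theorem W4543 : WFK w4543 := fun D T h => wf_of_chk h mem_nil (mem_cons (L1031 D T h) mem_nil) cw4543
theorem L1032 : LFK l1032 := fun D T h => lf_of_chk h (mem_cons (W209 D T h) (mem_cons (W93 D T h) (mem_cons (W2914 D T h) (mem_cons (W15 D T h) (mem_cons (W220 D T h) (mem_cons (W17 D T h) (mem_cons (W659 D T h) (mem_cons (W2919 D T h) (mem_cons (W3797 D T h) (mem_cons (W1501 D T h) (mem_cons (W2554 D T h) (mem_cons (W2629 D T h) (mem_cons (W2628 D T h) (mem_cons (W2532 D T h) (mem_cons (W2627 D T h) (mem_cons (W4543 D T h) (mem_cons (W270 D T h) (mem_cons (W3212 D T h) (mem_cons (W164 D T h) (mem_cons (W42 D T h) (mem_cons (W4413 D T h) mem_nil))))))))))))))))))))) cl1032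
theorem W4544 : WFK w4544 := fun D T h => wf_of_chk h mem_nil (mem_cons (L1032 D T h) mem_nil) cw4544
theorem L1033 : LFK l1033 := fun D T h => lf_of_chk h (mem_cons (W109 D T h) (mem_cons (W1408 D T h) (mem_cons (W16 D T h) (mem_cons (W4 D T h) (mem_cons (W33 D T h) (mem_cons (W1101 D T h) mem_nil)))))) cl1033
theorem W4545 : WFK w4545 := fun D T h => wf_of_chk h mem_nil (mem_cons (L1033 D T h) mem_nil) cw4545
theorem L1034 : LFK l1034 := fun D T h => lf_of_chk h (mem_cons (W1408 D T h) (mem_cons (W17 D T h) (mem_cons (W16 D T h) (mem_cons (W432 D T h) (mem_cons (W2740 D T h) (mem_cons (W1616 D T h) (mem_cons (W3 D T h) (mem_cons (W2684 D T h) (mem_cons (W2685 D T h) mem_nil))))))))) cl1034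
theorem W4546 : WFK w4546 := fun D T h => wf_of_chk h mem_nil (mem_cons (L1034 D T h) mem_nil) cw4546
theorem W4547 : WFK w4547 := fun D T h => wf_of_chk h mem_nil (mem_cons (L268 D T h) mem_nil) cw4547
theorem W4548 : WFK w4548 := fun D T h => wf_of_chk h mem_nil (mem_cons (L64 D T h) mem_nil) cw4548
theorem W4549 : WFK w4549 := fun D T h => wf_of_chk h (mem_cons (W4548 D T h) (mem_cons (W16 D T h) mem_nil)) mem_nil cw4549
theorem W4550 : WFK w4550 := fun D T h => wf_of_chk h mem_nil (mem_cons (L185 D T h) mem_nil) cw4550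
theorem W4551 : WFK w4551 := fun D T h => wf_of_chk h (mem_cons (W1384 D T h) (mem_cons (W16 D T h) mem_nil)) mem_nil cw4551
theorem W4552 : WFK w4552 := fun D T h => wf_of_chk h mem_nil (mem_cons (L718 D T h) mem_nil) cw4552
theorem W4553 : WFK w4553 := fun D T h => wf_of_chk h (mem_cons (W651 D T h) (mem_cons (W16 D T h) mem_nil)) mem_nil cw4553
theorem L1035 : LFK l1035 := fun D T h => lf_of_chk h (mem_cons (W1408 D T h) (mem_cons (W17 D T h) (mem_cons (W16 D T h) (mem_cons (W924 D T h) (mem_cons (W864 D T h) (mem_cons (W642 D T h) (mem_cons (W1296 D T h) (mem_cons (W260 D T h) (mem_cons (W3 D T h) mem_nil))))))))) cl1035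
theorem W4554 : WFK w4554 := fun D T h => wf_of_chk h mem_nil (mem_cons (L1035 D T h) mem_nil) cw4554
theorem W4555 : WFK w4555 := fun D T h => wf_of_chk h mem_nil (mem_cons (L450 D T h) mem_nil) cw4555
theorem W4556 : WFK w4556 := fun D T h => wf_of_chk h mem_nil (mem_cons (L32 D T h) mem_nil) cw4556
theorem L1036 : LFK l1036 := fun D T h => lf_of_chk h (mem_cons (W1408 D T h) (mem_cons (W17 D T h) (mem_cons (W16 D T h) (mem_cons (W924 D T h) (mem_cons (W864 D T h) (mem_cons (W4556 D T h) (mem_cons (W4555 D T h) (mem_cons (W3 D T h) mem_nil)))))))) cl1036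
theorem W4557 : WFK w4557 := fun D T h => wf_of_chk h mem_nil (mem_cons (L1036 D T h) mem_nil) cw4557
theorem W4558 : WFK w4558 := fun D T h => wf_of_chk h (mem_cons (W85 D T h) (mem_cons (W16 D T h) mem_nil)) mem_nil cw4558
theorem L1037 : LFK l1037 := fun D T h => lf_of_chk h (mem_cons (W4427 D T h) (mem_cons (W1196 D T h) (mem_cons (W4506 D T h) (mem_cons (W16 D T h) (mem_cons (W401 D T h) (mem_cons (W23 D T h) (mem_cons (W710 D T h) (mem_cons (W3127 D T h) (mem_cons (W2015 D T h) (mem_cons (W1305 D T h) (mem_cons (W4553 D T h) (mem_cons (W4554 D T h) (mem_cons (W4557 D T h) (mem_cons (W4558 D T h) (mem_cons (W4531 D T h) (mem_cons (W4512 D T h) (mem_cons (W3433 D T h) (mem_cons (W4545 D T h) (mem_cons (W112 D T h) (mem_cons (W4546 D T h) (mem_cons (W901 D T h) (mem_cons (W4547 D T h) (mem_cons (W4549 D T h) (mem_cons (W4544 D T h) (mem_cons (W1397 D T h) (mem_cons (W1398 D T h) (mem_cons (W4550 D T h) (mem_cons (W4551 D T h) (mem_cons (W4552 D T h) (mem_cons (W4454 D T h) (mem_cons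 (W4513 D T h) (mem_cons (W4534 D T h) (mem_cons (W4457 D T h) (mem_cons (W4535 D T h) (mem_cons (W3305 D T h) (mem_cons (W3304 D T h) (mem_cons (W4536 D T h) (mem_cons (W434 D T h) (mem_cons (W435 D T h) (mem_cons (W50 D T h) (mem_cons (W4508 D T h) (mem_cons (W4510 D T h) mem_nil)))))))))))))))))))))))))))))))))))))))))) cl1037
theorem W4562 : WFK w4562 := fun D T h => wf_of_chk h mem_nil mem_nil cw4562
theorem W4566 : WFK w4566 := fun D T h => wf_of_chk h mem_nil (mem_cons (L878 D T h) mem_nil) cw4566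
theorem W4572 : WFK w4572 := fun D T h => wf_of_chk h mem_nil (mem_cons (L573 D T h) mem_nil) cw4572
theorem W4573 : WFK w4573 := fun D T h => wf_of_chk h mem_nil (mem_cons (L656 D T h) mem_nil) cw4573
theorem W4574 : WFK w4574 := fun D T h => wf_of_chk h mem_nil (mem_cons (L511 D T h) mem_nil) cw4574
theorem L1042 : LFK l1042 := fun D T h => lf_of_chk h (mem_cons (W1120 D T h) (mem_cons (W125 D T h) (mem_cons (W217 D T h) (mem_cons (W8 D T h) (mem_cons (W841 D T h) (mem_cons (W3134 D T h) (mem_cons (W2766 D T h) (mem_cons (W54 D T h) (mem_cons (W1612 D T h) (mem_cons (W7 D T h) (mem_cons (W3093 D T h) (mem_cons (W1072 D T h) (mem_cons (W913 D T h) mem_nil))))))))))))) cl1042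
theorem W4578 : WFK w4578 := fun D T h => wf_of_chk h mem_nil (mem_cons (L1042 D T h) mem_nil) cw4578
theorem W4585 : WFK w4585 := fun D T h => wf_of_chk h (mem_cons (W16 D T h) mem_nil) mem_nil cw4585
theorem L1043 : LFK l1043 := fun D T h => lf_of_chk h (mem_cons (W128 D T h) (mem_cons (W219 D T h) (mem_cons (W15 D T h) (mem_cons (W125 D T h) (mem_cons (W436 D T h) (mem_cons (W4566 D T h) (mem_cons (W4038 D T h) (mem_cons (W581 D T h) (mem_cons (W2795 D T h) (mem_cons (W1067 D T h) (mem_cons (W1192 D T h) (mem_cons (W1064 D T h) mem_nil)))))))))))) cl1043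
theorem W4586 : WFK w4586 := fun D T h => wf_of_chk h mem_nil (mem_cons (L1043 D T h) mem_nil) cw4586
theorem W4587 : WFK w4587 := fun D T h => wf_of_chk h mem_nil (mem_cons (L120 D T h) mem_nil) cw4587
theorem W4588 : WFK w4588 := fun D T h => wf_of_chk h mem_nil (mem_cons (L82 D T h) mem_nil) cw4588
theorem W4589 : WFK w4589 := fun D T h => wf_of_chk h mem_nil (mem_cons (L83 D T h) mem_nil) cw4589
theorem W4590 : WFK w4590 := fun D T h => wf_of_chk h mem_nil (mem_cons (L322 D T h) mem_nil) cw4590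
theorem W4591 : WFK w4591 := fun D T h => wf_of_chk h mem_nil (mem_cons (L83 D T h) mem_nil) cw4591
theorem L1044 : LFK l1044 := fun D T h => lf_of_chk h (mem_cons (W301 D T h) (mem_cons (W56 D T h) (mem_cons (W16 D T h) (mem_cons (W12 D T h) (mem_cons (W4587 D T h) (mem_cons (W4588 D T h) (mem_cons (W432 D T h) (mem_cons (W4589 D T h) (mem_cons (W344 D T h) (mem_cons (W1535 D T h) (mem_cons (W1730 D T h) (mem_cons (W4590 D T h) (mem_cons (W4591 D T h) (mem_cons (W293 D T h) (mem_cons (W47 D T h) (mem_cons (W1243 D T h) mem_nil)))))))))))))))) cl1044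
theorem W4592 : WFK w4592 := fun D T h => wf_of_chk h mem_nil (mem_cons (L1044 D T h) mem_nil) cw4592
theorem W4593 : WFK w4593 := fun D T h => wf_of_chk h mem_nil (mem_cons (L89 D T h) mem_nil) cw4593
theorem L1046 : LFK l1046 := fun D T h => lf_of_chk h (mem_cons (W3797 D T h) (mem_cons (W1 D T h) (mem_cons (W69 D T h) (mem_cons (W86 D T h) (mem_cons (W3318 D T h) (mem_cons (W233 D T h) (mem_cons (W3 D T h) (mem_cons (W651 D T h) mem_nil)))))))) cl1046
theorem W4599 : WFK w4599 := fun D T h => wf_of_chk h mem_nil (mem_cons (L1046 D T h) mem_nil) cw4599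
theorem W4601 : WFK w4601 := fun D T h => wf_of_chk h mem_nil mem_nil cw4601
theorem W4602 : WFK w4602 := fun D T h => wf_of_chk h mem_nil (mem_cons (L303 D T h) mem_nil) cw4602
theorem W4603 : WFK w4603 := fun D T h => wf_of_chk h mem_nil mem_nil cw4603
theorem L1048 : LFK l1048 := fun D T h => lf_of_chk h mem_nil cl1048
theorem W4605 : WFK w4605 := fun D T h => wf_of_chk h mem_nil (mem_cons (L1048 D T h) mem_nil) cw4605
theorem W4606 : WFK w4606 := fun D T h => wf_of_chk h mem_nil (mem_cons (L232 D T h) mem_nil) cw4606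
theorem W4607 : WFK w4607 := fun D T h => wf_of_chk h mem_nil (mem_cons (L184 D T h) mem_nil) cw4607
theorem W4609 : WFK w4609 := fun D T h => wf_of_chk h mem_nil (mem_cons (L1048 D T h) mem_nil) cw4609
theorem L1051 : LFK l1051 := fun D T h => lf_of_chk h (mem_cons (W431 D T h) (mem_cons (W815 D T h) (mem_cons (W174 D T h) (mem_cons (W428 D T h) (mem_cons (W4452 D T h) (mem_cons (W923 D T h) (mem_cons (W979 D T h) (mem_cons (W7 D T h) (mem_cons (W1489 D T h) (mem_cons (W1540 D T h) (mem_cons (W160 D T h) (mem_cons (W926 D T h) mem_nil)))))))))))) cl1051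
theorem L1052 : LFK l1052 := fun D T h => lf_of_chk h mem_nil cl1052
theorem W4613 : WFK w4613 := fun D T h => wf_of_chk h mem_nil (mem_cons (L1052 D T h) mem_nil) cw4613
theorem W4614 : WFK w4614 := fun D T h => wf_of_chk h mem_nil (mem_cons (L595 D T h) mem_nil) cw4614
theorem L1053 : LFK l1053 := fun D T h => lf_of_chk h (mem_cons (W430 D T h) (mem_cons (W1075 D T h) (mem_cons (W1546 D T h) (mem_cons (W33 D T h) (mem_cons (W428 D T h) (mem_cons (W923 D T h) (mem_cons (W1098 D T h) (mem_cons (W160 D T h) (mem_cons (W4613 D T h) (mem_cons (W4614 D T h) (mem_cons (W2650 D T h) mem_nil))))))))))) cl1053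
theorem L1054 : LFK l1054 := fun D T h => lf_of_chk h mem_nil cl1054
theorem W4616 : WFK w4616 := fun D T h => wf_of_chk h mem_nil (mem_cons (L1054 D T h) mem_nil) cw4616
theorem W4617 : WFK w4617 := fun D T h => wf_of_chk h mem_nil (mem_cons (L56 D T h) mem_nil) cw4617
theorem L1055 : LFK l1055 := fun D T h => lf_of_chk h (mem_cons (W819 D T h) (mem_cons (W827 D T h) (mem_cons (W828 D T h) (mem_cons (W39 D T h) (mem_cons (W3593 D T h) (mem_cons (W4451 D T h) (mem_cons (W4617 D T h) (mem_cons (W411 D T h) (mem_cons (W359 D T h) (mem_cons (W976 D T h) (mem_cons (W4616 D T h) (mem_cons (W4609 D T h) (mem_cons (W1099 D T h) (mem_cons (W888 D T h) mem_nil)))))))))))))) cl1055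
theorem W4618 : WFK w4618 := fun D T h => wf_of_chk h mem_nil (mem_cons (L1055 D T h) mem_nil) cw4618
theorem L1056 : LFK l1056 := fun D T h => lf_of_chk h (mem_cons (W149 D T h) (mem_cons (W158 D T h) (mem_cons (W432 D T h) (mem_cons (W33 D T h) (mem_cons (W428 D T h) (mem_cons (W923 D T h) mem_nil)))))) cl1056
theorem W4619 : WFK w4619 := fun D T h => wf_of_chk h mem_nil (mem_cons (L1056 D T h) mem_nil) cw4619
theorem W4623 : WFK w4623 := fun D T h => wf_of_chk h (mem_cons (W69 D T h) mem_nil) mem_nil cw4623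
theorem W4624 : WFK w4624 := fun D T h => wf_of_chk h mem_nil (mem_cons (L408 D T h) mem_nil) cw4624
theorem W4632 : WFK w4632 := fun D T h => wf_of_chk h mem_nil (mem_cons (L630 D T h) mem_nil) cw4632
theorem W4636 : WFK w4636 := fun D T h => wf_of_chk h (mem_cons (W368 D T h) (mem_cons (W177 D T h) mem_nil)) mem_nil cw4636
theorem W4637 : WFK w4637 := fun D T h => wf_of_chk h (mem_cons (W1070 D T h) (mem_cons (W177 D T h) mem_nil)) mem_nil cw4637
theorem W4638 : WFK w4638 := fun D T h => wf_of_chk h mem_nil (mem_cons (L915 D T h) mem_nil) cw4638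
theorem W4639 : WFK w4639 := fun D T h => wf_of_chk h (mem_cons (W177 D T h) mem_nil) mem_nil cw4639
theorem W4640 : WFK w4640 := fun D T h => wf_of_chk h mem_nil mem_nil cw4640
theorem W4641 : WFK w4641 := fun D T h => wf_of_chk h mem_nil (mem_cons (L111 D T h) mem_nil) cw4641
theorem W4642 : WFK w4642 := fun D T h => wf_of_chk h mem_nil (mem_cons (L759 D T h) mem_nil) cw4642
theorem W4643 : WFK w4643 := fun D T h => wf_of_chk h mem_nil (mem_cons (L823 D T h) mem_nil) cw4643
theorem W4644 : WFK w4644 := fun D T h => wf_of_chk h mem_nil (mem_cons (L958 D T h) mem_nil) cw4644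
theorem W4645 : WFK w4645 := fun D T h => wf_of_chk h mem_nil (mem_cons (L17 D T h) mem_nil) cw4645
theorem W4646 : WFK w4646 := fun D T h => wf_of_chk h (mem_cons (W4645 D T h) mem_nil) mem_nil cw4646
theorem W4647 : WFK w4647 := fun D T h => wf_of_chk h mem_nil (mem_cons (L17 D T h) mem_nil) cw4647
theorem W4648 : WFK w4648 := fun D T h => wf_of_chk h (mem_cons (W4647 D T h) mem_nil) mem_nil cw4648
theorem W4649 : WFK w4649 := fun D T h => wf_of_chk h (mem_cons (W220 D T h) mem_nil) mem_nil cw4649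
theorem W4650 : WFK w4650 := fun D T h => wf_of_chk h (mem_cons (W3766 D T h) mem_nil) mem_nil cw4650
theorem W4651 : WFK w4651 := fun D T h => wf_of_chk h (mem_cons (W1253 D T h) mem_nil) mem_nil cw4651
theorem W4652 : WFK w4652 := fun D T h => wf_of_chk h (mem_cons (W1709 D T h) mem_nil) mem_nil cw4652
theorem W4653 : WFK w4653 := fun D T h => wf_of_chk h (mem_cons (W3284 D T h) mem_nil) mem_nil cw4653
theorem W4654 : WFK w4654 := fun D T h => wf_of_chk h mem_nil (mem_cons (L759 D T h) mem_nil) cw4654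
theorem W4655 : WFK w4655 := fun D T h => wf_of_chk h (mem_cons (W16 D T h) mem_nil) mem_nil cw4655
theorem W4656 : WFK w4656 := fun D T h => wf_of_chk h (mem_cons (W16 D T h) mem_nil) mem_nil cw4656
theorem L1059 : LFK l1059 := fun D T h => lf_of_chk h (mem_cons (W4642 D T h) (mem_cons (W158 D T h) (mem_cons (W75 D T h) (mem_cons (W4655 D T h) (mem_cons (W4656 D T h) (mem_cons (W4650 D T h) (mem_cons (W1709 D T h) (mem_cons (W4643 D T h) (mem_cons (W3309 D T h) (mem_cons (W3310 D T h) (mem_cons (W1723 D T h) (mem_cons (W4651 D T h) (mem_cons (W4652 D T h) (mem_cons (W1011 D T h) (mem_cons (W4653 D T h) (mem_cons (W1807 D T h) (mem_cons (W4654 D T h) (mem_cons (W2936 D T h) (mem_cons (W4644 D T h) (mem_cons (W4646 D T h) (mem_cons (W1139 D T h) (mem_cons (W4648 D T h) (mem_cons (W4649 D T h) mem_nil))))))))))))))))))))))) cl1059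
theorem W4657 : WFK w4657 := fun D T h => wf_of_chk h mem_nil (mem_cons (L1059 D T h) mem_nil) cw4657
theorem W4658 : WFK w4658 := fun D T h => wf_of_chk h mem_nil (mem_cons (L823 D T h) mem_nil) cw4658
theorem W4659 : WFK w4659 := fun D T h => wf_of_chk h mem_nil mem_nil cw4659
theorem W4660 : WFK w4660 := fun D T h => wf_of_chk h (mem_cons (W112 D T h) mem_nil) mem_nil cw4660
theorem W4661 : WFK w4661 := fun D T h => wf_of_chk h (mem_cons (W2674 D T h) mem_nil) mem_nil cw4661
theorem W4662 : WFK w4662 := fun D T h => wf_of_chk h (mem_cons (W75 D T h) mem_nil) mem_nil cw4662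
theorem W4663 : WFK w4663 := fun D T h => wf_of_chk h (mem_cons (W105 D T h) mem_nil) mem_nil cw4663
theorem L1060 : LFK l1060 := fun D T h => lf_of_chk h (mem_cons (W3297 D T h) (mem_cons (W4276 D T h) (mem_cons (W158 D T h) (mem_cons (W75 D T h) (mem_cons (W103 D T h) (mem_cons (W4640 D T h) (mem_cons (W4641 D T h) (mem_cons (W4657 D T h) (mem_cons (W1663 D T h) (mem_cons (W4662 D T h) (mem_cons (W476 D T h) (mem_cons (W89 D T h) (mem_cons (W4663 D T h) (mem_cons (W539 D T h) (mem_cons (W78 D T h) (mem_cons (W2445 D T h) (mem_cons (W4658 D T h) (mem_cons (W2686 D T h) (mem_cons (W4036 D T h) (mem_cons (W4659 D T h) (mem_cons (W3011 D T h) (mem_cons (W4660 D T h) (mem_cons (W4650 D T h) (mem_cons (W4661 D T h) (mem_cons (W4136 D T h) (mem_cons (W4639 D T h) mem_nil)))))))))))))))))))))))))) cl1060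
theorem W4664 : WFK w4664 := fun D T h => wf_of_chk h mem_nil (mem_cons (L1060 D T h) mem_nil) cw4664
theorem W4665 : WFK w4665 := fun D T h => wf_of_chk h mem_nil (mem_cons (L902 D T h) mem_nil) cw4665
theorem W4683 : WFK w4683 := fun D T h => wf_of_chk h mem_nil (mem_cons (L878 D T h) mem_nil) cw4683
theorem W4692 : WFK w4692 := fun D T h => wf_of_chk h mem_nil (mem_cons (L14 D T h) mem_nil) cw4692
theorem W4693 : WFK w4693 := fun D T h => wf_of_chk h mem_nil mem_nil cw4693
theorem W4694 : WFK w4694 := fun D T h => wf_of_chk h mem_nil (mem_cons (L478 D T h) mem_nil) cw4694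
theorem L1064 : LFK l1064 := fun D T h => lf_of_chk h (mem_cons (W473 D T h) (mem_cons (W4693 D T h) (mem_cons (W396 D T h) (mem_cons (W3721 D T h) (mem_cons (W897 D T h) (mem_cons (W405 D T h) (mem_cons (W3310 D T h) (mem_cons (W3293 D T h) (mem_cons (W4694 D T h) mem_nil))))))))) cl1064
theorem W4695 : WFK w4695 := fun D T h => wf_of_chk h mem_nil (mem_cons (L1064 D T h) mem_nil) cw4695
theorem W4696 : WFK w4696 := fun D T h => wf_of_chk h mem_nil (mem_cons (L240 D T h) mem_nil) cw4696
theorem W4697 : WFK w4697 := fun D T h => wf_of_chk h mem_nil (mem_cons (L89 D T h) mem_nil) cw4697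
theorem W4698 : WFK w4698 := fun D T h => wf_of_chk h mem_nil (mem_cons (L111 D T h) mem_nil) cw4698
theorem W4699 : WFK w4699 := fun D T h => wf_of_chk h mem_nil mem_nil cw4699
theorem L1065 : LFK l1065 := fun D T h => lf_of_chk h (mem_cons (W2686 D T h) (mem_cons (W4698 D T h) (mem_cons (W4037 D T h) (mem_cons (W4699 D T h) (mem_cons (W1834 D T h) (mem_cons (W1841 D T h) (mem_cons (W4036 D T h) (mem_cons (W142 D T h) (mem_cons (W4358 D T h) (mem_cons (W33 D T h) (mem_cons (W78 D T h) (mem_cons (W4695 D T h) (mem_cons (W915 D T h) (mem_cons (W4696 D T h) (mem_cons (W864 D T h) (mem_cons (W4697 D T h) (mem_cons (W3694 D T h) (mem_cons (W1283 D T h) mem_nil)))))))))))))))))) cl1065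
theorem W4701 : WFK w4701 := fun D T h => wf_of_chk h (mem_cons (W69 D T h) mem_nil) mem_nil cw4701
theorem L1067 : LFK l1067 := fun D T h => lf_of_chk h (mem_cons (W805 D T h) mem_nil) cl1067
theorem W4719 : WFK w4719 := fun D T h => wf_of_chk h mem_nil (mem_cons (L1067 D T h) mem_nil) cw4719
theorem L1068 : LFK l1068 := fun D T h => lf_of_chk h (mem_cons (W158 D T h) (mem_cons (W802 D T h) (mem_cons (W4 D T h) (mem_cons (W1928 D T h) (mem_cons (W210 D T h) (mem_cons (W831 D T h) (mem_cons (W1101 D T h) (mem_cons (W1075 D T h) (mem_cons (W3232 D T h) (mem_cons (W1092 D T h) (mem_cons (W1535 D T h) mem_nil))))))))))) cl1068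
theorem W4720 : WFK w4720 := fun D T h => wf_of_chk h mem_nil (mem_cons (L1068 D T h) mem_nil) cw4720
theorem L1069 : LFK l1069 := fun D T h => lf_of_chk h (mem_cons (W3274 D T h) (mem_cons (W86 D T h) (mem_cons (W629 D T h) (mem_cons (W603 D T h) (mem_cons (W2686 D T h) (mem_cons (W4720 D T h) (mem_cons (W12 D T h) (mem_cons (W520 D T h) (mem_cons (W4719 D T h) mem_nil))))))))) cl1069
theorem W4721 : WFK w4721 := fun D T h => wf_of_chk h mem_nil (mem_cons (L1069 D T h) mem_nil) cw4721
theorem W4735 : WFK w4735 := fun D T h => wf_of_chk h mem_nil mem_nil cw4735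
theorem W4736 : WFK w4736 := fun D T h => wf_of_chk h mem_nil (mem_cons (L483 D T h) mem_nil) cw4736
theorem L1072 : LFK l1072 := fun D T h => lf_of_chk h (mem_cons (W3766 D T h) (mem_cons (W16 D T h) (mem_cons (W904 D T h) (mem_cons (W91 D T h) (mem_cons (W4736 D T h) (mem_cons (W258 D T h) (mem_cons (W257 D T h) (mem_cons (W256 D T h) (mem_cons (W255 D T h) mem_nil))))))))) cl1072
theorem W4737 : WFK w4737 := fun D T h => wf_of_chk h mem_nil (mem_cons (L1072 D T h) mem_nil) cw4737
theorem W4748 : WFK w4748 := fun D T h => wf_of_chk h mem_nil (mem_cons (L829 D T h) mem_nil) cw4748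
theorem W4765 : WFK w4765 := fun D T h => wf_of_chk h mem_nil (mem_cons (L240 D T h) mem_nil) cw4765
theorem L1073 : LFK l1073 := fun D T h => lf_of_chk h (mem_cons (W819 D T h) (mem_cons (W61 D T h) (mem_cons (W10 D T h) (mem_cons (W109 D T h) (mem_cons (W39 D T h) (mem_cons (W151 D T h) (mem_cons (W3593 D T h) (mem_cons (W3421 D T h) (mem_cons (W33 D T h) (mem_cons (W3246 D T h) (mem_cons (W428 D T h) (mem_cons (W1099 D T h) (mem_cons (W888 D T h) (mem_cons (W4765 D T h) mem_nil)))))))))))))) cl1073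
theorem W4766 : WFK w4766 := fun D T h => wf_of_chk h mem_nil (mem_cons (L1073 D T h) mem_nil) cw4766
theorem W4769 : WFK w4769 := fun D T h => wf_of_chk h (mem_cons (W3280 D T h) (mem_cons (W177 D T h) mem_nil)) mem_nil cw4769
theorem W4770 : WFK w4770 := fun D T h => wf_of_chk h mem_nil (mem_cons (L199 D T h) mem_nil) cw4770
theorem W4771 : WFK w4771 := fun D T h => wf_of_chk h mem_nil (mem_cons (L252 D T h) mem_nil) cw4771
theorem L1074 : LFK l1074 := fun D T h => lf_of_chk h (mem_cons (W516 D T h) (mem_cons (W177 D T h) (mem_cons (W175 D T h) (mem_cons (W1 D T h) (mem_cons (W83 D T h) (mem_cons (W487 D T h) (mem_cons (W1070 D T h) (mem_cons (W4770 D T h) (mem_cons (W4748 D T h) (mem_cons (W4632 D T h) (mem_cons (W2118 D T h) (mem_cons (W489 D T h) (mem_cons (W1109 D T h) (mem_cons (W3274 D T h) (mem_cons (W3120 D T h) (mem_cons (W4771 D T h) (mem_cons (W1125 D T h) (mem_cons (W4032 D T h) (mem_cons (W1108 D T h) (mem_cons (W4038 D T h) mem_nil)))))))))))))))))))) cl1074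
theorem W4772 : WFK w4772 := fun D T h => wf_of_chk h mem_nil (mem_cons (L1074 D T h) mem_nil) cw4772
theorem W4773 : WFK w4773 := fun D T h => wf_of_chk h (mem_cons (W16 D T h) (mem_cons (W83 D T h) mem_nil)) mem_nil cw4773
theorem W4774 : WFK w4774 := fun D T h => wf_of_chk h mem_nil (mem_cons (L1074 D T h) mem_nil) cw4774
theorem W4775 : WFK w4775 := fun D T h => wf_of_chk h (mem_cons (W368 D T h) (mem_cons (W175 D T h) mem_nil)) mem_nil cw4775
theorem W4776 : WFK w4776 := fun D T h => wf_of_chk h (mem_cons (W175 D T h) mem_nil) mem_nil cw4776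
theorem W4777 : WFK w4777 := fun D T h => wf_of_chk h (mem_cons (W175 D T h) mem_nil) mem_nil cw4777
theorem L1075 : LFK l1075 := fun D T h => lf_of_chk h (mem_cons (W3356 D T h) (mem_cons (W1616 D T h) (mem_cons (W2433 D T h) (mem_cons (W175 D T h) (mem_cons (W126 D T h) (mem_cons (W4777 D T h) (mem_cons (W2119 D T h) (mem_cons (W3473 D T h) (mem_cons (W492 D T h) (mem_cons (W4776 D T h) (mem_cons (W3274 D T h) mem_nil))))))))))) cl1075
theorem W4778 : WFK w4778 := fun D T h => wf_of_chk h mem_nil (mem_cons (L1075 D T h) mem_nil) cw4778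
theorem W4779 : WFK w4779 := fun D T h => wf_of_chk h (mem_cons (W114 D T h) (mem_cons (W175 D T h) mem_nil)) mem_nil cw4779
theorem W4780 : WFK w4780 := fun D T h => wf_of_chk h mem_nil (mem_cons (L1075 D T h) mem_nil) cw4780
theorem W4781 : WFK w4781 := fun D T h => wf_of_chk h mem_nil (mem_cons (L1075 D T h) mem_nil) cw4781
theorem W4782 : WFK w4782 := fun D T h => wf_of_chk h (mem_cons (W2914 D T h) mem_nil) mem_nil cw4782
theorem W4783 : WFK w4783 := fun D T h => wf_of_chk h mem_nil (mem_cons (L143 D T h) mem_nil) cw4783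
theorem W4784 : WFK w4784 := fun D T h => wf_of_chk h (mem_cons (W69 D T h) mem_nil) mem_nil cw4784
theorem L1076 : LFK l1076 := fun D T h => lf_of_chk h (mem_cons (W3274 D T h) (mem_cons (W4467 D T h) (mem_cons (W1074 D T h) (mem_cons (W4540 D T h) (mem_cons (W12 D T h) (mem_cons (W520 D T h) (mem_cons (W740 D T h) (mem_cons (W4719 D T h) (mem_cons (W4358 D T h) mem_nil))))))))) cl1076
theorem W4785 : WFK w4785 := fun D T h => wf_of_chk h mem_nil (mem_cons (L1076 D T h) mem_nil) cw4785
theorem W4786 : WFK w4786 := fun D T h => wf_of_chk h (mem_cons (W519 D T h) mem_nil) mem_nil cw4786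
theorem W4787 : WFK w4787 := fun D T h => wf_of_chk h (mem_cons (W220 D T h) (mem_cons (W86 D T h) mem_nil)) mem_nil cw4787
theorem W4788 : WFK w4788 := fun D T h => wf_of_chk h (mem_cons (W220 D T h) (mem_cons (W86 D T h) mem_nil)) mem_nil cw4788
theorem W4789 : WFK w4789 := fun D T h => wf_of_chk h (mem_cons (W67 D T h) (mem_cons (W16 D T h) mem_nil)) mem_nil cw4789
theorem W4790 : WFK w4790 := fun D T h => wf_of_chk h (mem_cons (W83 D T h) mem_nil) mem_nil cw4790
theorem W4791 : WFK w4791 := fun D T h => wf_of_chk h (mem_cons (W162 D T h) (mem_cons (W86 D T h) mem_nil)) mem_nil cw4791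
theorem W4792 : WFK w4792 := fun D T h => wf_of_chk h (mem_cons (W96 D T h) (mem_cons (W16 D T h) mem_nil)) mem_nil cw4792
theorem W4793 : WFK w4793 := fun D T h => wf_of_chk h (mem_cons (W230 D T h) mem_nil) mem_nil cw4793
theorem W4794 : WFK w4794 := fun D T h => wf_of_chk h (mem_cons (W4641 D T h) (mem_cons (W16 D T h) mem_nil)) mem_nil cw4794
theorem W4795 : WFK w4795 := fun D T h => wf_of_chk h (mem_cons (W230 D T h) mem_nil) mem_nil cw4795
theorem W4796 : WFK w4796 := fun D T h => wf_of_chk h (mem_cons (W241 D T h) mem_nil) mem_nil cw4796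
theorem L1077 : LFK l1077 := fun D T h => lf_of_chk h (mem_cons (W553 D T h) (mem_cons (W4038 D T h) (mem_cons (W536 D T h) (mem_cons (W144 D T h) (mem_cons (W16 D T h) (mem_cons (W4783 D T h) (mem_cons (W4784 D T h) (mem_cons (W4790 D T h) (mem_cons (W2015 D T h) (mem_cons (W2037 D T h) (mem_cons (W2709 D T h) (mem_cons (W4791 D T h) (mem_cons (W4632 D T h) (mem_cons (W521 D T h) (mem_cons (W4785 D T h) (mem_cons (W4786 D T h) (mem_cons (W4787 D T h) (mem_cons (W4788 D T h) (mem_cons (W128 D T h) (mem_cons (W4789 D T h) (mem_cons (W799 D T h) (mem_cons (W4796 D T h) (mem_cons (W3356 D T h) (mem_cons (W4792 D T h) (mem_cons (W4793 D T h) (mem_cons (W4794 D T h) (mem_cons (W1070 D T h) (mem_cons (W4795 D T h) mem_nil)))))))))))))))))))))))))))) cl1077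
theorem W4797 : WFK w4797 := fun D T h => wf_of_chk h mem_nil (mem_cons (L1077 D T h) mem_nil) cw4797
theorem W4798 : WFK w4798 := fun D T h => wf_of_chk h (mem_cons (W126 D T h) (mem_cons (W368 D T h) mem_nil)) mem_nil cw4798
theorem W4799 : WFK w4799 := fun D T h => wf_of_chk h (mem_cons (W126 D T h) (mem_cons (W368 D T h) mem_nil)) mem_nil cw4799
theorem W4800 : WFK w4800 := fun D T h => wf_of_chk h (mem_cons (W105 D T h) (mem_cons (W368 D T h) mem_nil)) mem_nil cw4800
theorem W4801 : WFK w4801 := fun D T h => wf_of_chk h (mem_cons (W519 D T h) (mem_cons (W368 D T h) mem_nil)) mem_nil cw4801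
theorem W4802 : WFK w4802 := fun D T h => wf_of_chk h (mem_cons (W220 D T h) (mem_cons (W557 D T h) mem_nil)) mem_nil cw4802
theorem W4803 : WFK w4803 := fun D T h => wf_of_chk h mem_nil (mem_cons (L14 D T h) mem_nil) cw4803
theorem W4804 : WFK w4804 := fun D T h => wf_of_chk h mem_nil mem_nil cw4804
theorem W4805 : WFK w4805 := fun D T h => wf_of_chk h mem_nil mem_nil cw4805
theorem W4806 : WFK w4806 := fun D T h => wf_of_chk h mem_nil (mem_cons (L419 D T h) mem_nil) cw4806
theorem W4807 : WFK w4807 := fun D T h => wf_of_chk h mem_nil (mem_cons (L56 D T h) mem_nil) cw4807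
theorem W4808 : WFK w4808 := fun D T h => wf_of_chk h mem_nil mem_nil cw4808
theorem W4809 : WFK w4809 := fun D T h => wf_of_chk h mem_nil (mem_cons (L4 D T h) mem_nil) cw4809
theorem L1078 : LFK l1078 := fun D T h => lf_of_chk h (mem_cons (W1831 D T h) (mem_cons (W4806 D T h) (mem_cons (W4809 D T h) (mem_cons (W69 D T h) (mem_cons (W411 D T h) (mem_cons (W4804 D T h) (mem_cons (W4805 D T h) (mem_cons (W1101 D T h) (mem_cons (W2203 D T h) (mem_cons (W4807 D T h) (mem_cons (W4808 D T h) mem_nil))))))))))) cl1078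
theorem W4810 : WFK w4810 := fun D T h => wf_of_chk h mem_nil (mem_cons (L1078 D T h) mem_nil) cw4810
theorem W4811 : WFK w4811 := fun D T h => wf_of_chk h (mem_cons (W105 D T h) mem_nil) mem_nil cw4811
theorem W4812 : WFK w4812 := fun D T h => wf_of_chk h (mem_cons (W831 D T h) (mem_cons (W220 D T h) mem_nil)) mem_nil cw4812
theorem W4813 : WFK w4813 := fun D T h => wf_of_chk h (mem_cons (W819 D T h) (mem_cons (W220 D T h) mem_nil)) mem_nil cw4813
theorem W4814 : WFK w4814 := fun D T h => wf_of_chk h mem_nil (mem_cons (L1055 D T h) mem_nil) cw4814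
theorem W4815 : WFK w4815 := fun D T h => wf_of_chk h mem_nil (mem_cons (L126 D T h) mem_nil) cw4815
theorem L1079 : LFK l1079 := fun D T h => lf_of_chk h (mem_cons (W3019 D T h) (mem_cons (W1070 D T h) (mem_cons (W4803 D T h) (mem_cons (W1588 D T h) (mem_cons (W220 D T h) (mem_cons (W6 D T h) (mem_cons (W1053 D T h) (mem_cons (W848 D T h) (mem_cons (W4811 D T h) (mem_cons (W2207 D T h) (mem_cons (W1519 D T h) (mem_cons (W4810 D T h) (mem_cons (W4812 D T h) (mem_cons (W3274 D T h) (mem_cons (W3276 D T h) (mem_cons (W4406 D T h) (mem_cons (W4813 D T h) (mem_cons (W4814 D T h) (mem_cons (W4815 D T h) mem_nil))))))))))))))))))) cl1079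
theorem W4816 : WFK w4816 := fun D T h => wf_of_chk h mem_nil (mem_cons (L1079 D T h) mem_nil) cw4816
theorem W4817 : WFK w4817 := fun D T h => wf_of_chk h (mem_cons (W220 D T h) (mem_cons (W557 D T h) mem_nil)) mem_nil cw4817
theorem W4818 : WFK w4818 := fun D T h => wf_of_chk h (mem_cons (W50 D T h) (mem_cons (W557 D T h) mem_nil)) mem_nil cw4818
theorem W4819 : WFK w4819 := fun D T h => wf_of_chk h (mem_cons (W669 D T h) (mem_cons (W557 D T h) mem_nil)) mem_nil cw4819
theorem W4820 : WFK w4820 := fun D T h => wf_of_chk h (mem_cons (W50 D T h) (mem_cons (W557 D T h) mem_nil)) mem_nil cw4820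
theorem W4821 : WFK w4821 := fun D T h => wf_of_chk h (mem_cons (W667 D T h) (mem_cons (W557 D T h) mem_nil)) mem_nil cw4821
theorem W4822 : WFK w4822 := fun D T h => wf_of_chk h (mem_cons (W669 D T h) (mem_cons (W557 D T h) mem_nil)) mem_nil cw4822
theorem W4823 : WFK w4823 := fun D T h => wf_of_chk h (mem_cons (W181 D T h) (mem_cons (W368 D T h) mem_nil)) mem_nil cw4823
theorem W4824 : WFK w4824 := fun D T h => wf_of_chk h (mem_cons (W181 D T h) (mem_cons (W368 D T h) mem_nil)) mem_nil cw4824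
theorem W4825 : WFK w4825 := fun D T h => wf_of_chk h (mem_cons (W83 D T h) (mem_cons (W368 D T h) mem_nil)) mem_nil cw4825
theorem W4826 : WFK w4826 := fun D T h => wf_of_chk h (mem_cons (W162 D T h) (mem_cons (W557 D T h) mem_nil)) mem_nil cw4826
theorem W4827 : WFK w4827 := fun D T h => wf_of_chk h (mem_cons (W144 D T h) mem_nil) mem_nil cw4827
theorem W4828 : WFK w4828 := fun D T h => wf_of_chk h (mem_cons (W812 D T h) (mem_cons (W16 D T h) mem_nil)) mem_nil cw4828
theorem W4829 : WFK w4829 := fun D T h => wf_of_chk h (mem_cons (W2448 D T h) (mem_cons (W16 D T h) mem_nil)) mem_nil cw4829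
theorem W4830 : WFK w4830 := fun D T h => wf_of_chk h (mem_cons (W80 D T h) (mem_cons (W230 D T h) mem_nil)) mem_nil cw4830
theorem W4831 : WFK w4831 := fun D T h => wf_of_chk h mem_nil (mem_cons (L179 D T h) mem_nil) cw4831
theorem W4832 : WFK w4832 := fun D T h => wf_of_chk h (mem_cons (W80 D T h) (mem_cons (W144 D T h) mem_nil)) mem_nil cw4832
theorem W4833 : WFK w4833 := fun D T h => wf_of_chk h (mem_cons (W80 D T h) (mem_cons (W230 D T h) mem_nil)) mem_nil cw4833
theorem W4834 : WFK w4834 := fun D T h => wf_of_chk h (mem_cons (W241 D T h) (mem_cons (W368 D T h) mem_nil)) mem_nil cw4834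
theorem W4835 : WFK w4835 := fun D T h => wf_of_chk h mem_nil (mem_cons (L179 D T h) mem_nil) cw4835
theorem W4836 : WFK w4836 := fun D T h => wf_of_chk h (mem_cons (W4835 D T h) (mem_cons (W16 D T h) mem_nil)) mem_nil cw4836
theorem W4837 : WFK w4837 := fun D T h => wf_of_chk h mem_nil (mem_cons (L1077 D T h) mem_nil) cw4837
theorem W4838 : WFK w4838 := fun D T h => wf_of_chk h mem_nil (mem_cons (L1077 D T h) mem_nil) cw4838
theorem L1080 : LFK l1080 := fun D T h => lf_of_chk h (mem_cons (W558 D T h) (mem_cons (W4038 D T h) (mem_cons (W536 D T h) (mem_cons (W537 D T h) (mem_cons (W368 D T h) (mem_cons (W144 D T h) (mem_cons (W16 D T h) (mem_cons (W4566 D T h) (mem_cons (W4798 D T h) (mem_cons (W4799 D T h) (mem_cons (W4825 D T h) (mem_cons (W2015 D T h) (mem_cons (W2037 D T h) (mem_cons (W2709 D T h) (mem_cons (W4826 D T h) (mem_cons (W4632 D T h) (mem_cons (W521 D T h) (mem_cons (W4800 D T h) (mem_cons (W4801 D T h) (mem_cons (W4802 D T h) (mem_cons (W4816 D T h) (mem_cons (W128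 D T h) (mem_cons (W4817 D T h) (mem_cons (W4818 D T h) (mem_cons (W4819 D T h) (mem_cons (W4820 D T h) (mem_cons (W4821 D T h) (mem_cons (W4822 D T h) (mem_cons (W4823 D T h) (mem_cons (W2800 D T h) (mem_cons (W4824 D T h) (mem_cons (W4834 D T h) (mem_cons (W3356 D T h) (mem_cons (W4836 D T h) (mem_cons (W4815 D T h) (mem_cons (W540 D T h) (mem_cons (W4827 D T h) (mem_cons (W4828 D T h) (mem_cons (W4829 D T h) (mem_cons (W4830 D T h) (mem_cons (W4831 D T h) (mem_cons (W4832 D T h) (mem_cons (W4833 D T h) (mem_cons (W551 D T h) (mem_cons (W552 D T h) (mem_cons (W553 D T h) (mem_cons (W111 D T h) (mem_cons (W4837 D T h) (mem_cons (W4838 D T h) mem_nil))))))))))))))))))))))))))))))))))))))))))))))))) cl1080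
theorem W4839 : WFK w4839 := fun D T h => wf_of_chk h mem_nil (mem_cons (L1080 D T h) mem_nil) cw4839
theorem W4843 : WFK w4843 := fun D T h => wf_of_chk h (mem_cons (W370 D T h) (mem_cons (W2914 D T h) mem_nil)) mem_nil cw4843
theorem W4844 : WFK w4844 := fun D T h => wf_of_chk h mem_nil (mem_cons (L735 D T h) mem_nil) cw4844
theorem L1081 : LFK l1081 := fun D T h => lf_of_chk h (mem_cons (W4038 D T h) (mem_cons (W495 D T h) (mem_cons (W384 D T h) (mem_cons (W1 D T h) (mem_cons (W3688 D T h) (mem_cons (W4566 D T h) (mem_cons (W1070 D T h) (mem_cons (W4770 D T h) (mem_cons (W4748 D T h) (mem_cons (W4632 D T h) (mem_cons (W2118 D T h) (mem_cons (W489 D T h) (mem_cons (W1109 D T h) (mem_cons (W3274 D T h) (mem_cons (W3120 D T h) (mem_cons (W4771 D T h) (mem_cons (W1125 D T h) (mem_cons (W4844 D T h) (mem_cons (W795 D T h) (mem_cons (W1108 D T h) mem_nil)))))))))))))))))))) cl1081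
theorem W4845 : WFK w4845 := fun D T h => wf_of_chk h mem_nil (mem_cons (L1081 D T h) mem_nil) cw4845
theorem L1082 : LFK l1082 := fun D T h => lf_of_chk h (mem_cons (W4844 D T h) (mem_cons (W495 D T h) (mem_cons (W497 D T h) (mem_cons (W382 D T h) (mem_cons (W1 D T h) (mem_cons (W3688 D T h) (mem_cons (W4566 D T h) (mem_cons (W1070 D T h) (mem_cons (W4770 D T h) (mem_cons (W4748 D T h) (mem_cons (W4632 D T h) (mem_cons (W4038 D T h) (mem_cons (W2118 D T h) (mem_cons (W489 D T h) (mem_cons (W1109 D T h) (mem_cons (W3274 D T h) (mem_cons (W3120 D T h) (mem_cons (W4771 D T h) (mem_cons (W1125 D T h) (mem_cons (W795 D T h) (mem_cons (W1108 D T h) mem_nil))))))))))))))))))))) cl1082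
theorem W4846 : WFK w4846 := fun D T h => wf_of_chk h mem_nil (mem_cons (L1082 D T h) mem_nil) cw4846
theorem W4847 : WFK w4847 := fun D T h => wf_of_chk h (mem_cons (W368 D T h) (mem_cons (W497 D T h) mem_nil)) mem_nil cw4847
theorem W4848 : WFK w4848 := fun D T h => wf_of_chk h (mem_cons (W368 D T h) (mem_cons (W497 D T h) mem_nil)) mem_nil cw4848
theorem W4849 : WFK w4849 := fun D T h => wf_of_chk h (mem_cons (W382 D T h) mem_nil) mem_nil cw4849
theorem W4850 : WFK w4850 := fun D T h => wf_of_chk h (mem_cons (W382 D T h) mem_nil) mem_nil cw4850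
theorem L1083 : LFK l1083 := fun D T h => lf_of_chk h (mem_cons (W3356 D T h) (mem_cons (W1616 D T h) (mem_cons (W495 D T h) (mem_cons (W2433 D T h) (mem_cons (W373 D T h) (mem_cons (W126 D T h) (mem_cons (W4850 D T h) (mem_cons (W2119 D T h) (mem_cons (W3473 D T h) (mem_cons (W4847 D T h) (mem_cons (W4848 D T h) (mem_cons (W4849 D T h) (mem_cons (W3274 D T h) mem_nil))))))))))))) cl1083
theorem W4851 : WFK w4851 := fun D T h => wf_of_chk h mem_nil (mem_cons (L1083 D T h) mem_nil) cw4851
theorem W4852 : WFK w4852 := fun D T h => wf_of_chk h (mem_cons (W69 D T h) (mem_cons (W505 D T h) mem_nil)) mem_nil cw4852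
theorem W4853 : WFK w4853 := fun D T h => wf_of_chk h (mem_cons (W69 D T h) (mem_cons (W505 D T h) mem_nil)) mem_nil cw4853
theorem W4854 : WFK w4854 := fun D T h => wf_of_chk h (mem_cons (W105 D T h) (mem_cons (W505 D T h) mem_nil)) mem_nil cw4854
theorem W4855 : WFK w4855 := fun D T h => wf_of_chk h (mem_cons (W519 D T h) (mem_cons (W505 D T h) mem_nil)) mem_nil cw4855
theorem W4856 : WFK w4856 := fun D T h => wf_of_chk h (mem_cons (W220 D T h) (mem_cons (W644 D T h) mem_nil)) mem_nil cw4856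
theorem W4857 : WFK w4857 := fun D T h => wf_of_chk h (mem_cons (W230 D T h) (mem_cons (W505 D T h) mem_nil)) mem_nil cw4857
theorem W4858 : WFK w4858 := fun D T h => wf_of_chk h (mem_cons (W1303 D T h) (mem_cons (W16 D T h) mem_nil)) mem_nil cw4858
theorem W4859 : WFK w4859 := fun D T h => wf_of_chk h (mem_cons (W17 D T h) mem_nil) mem_nil cw4859
theorem W4860 : WFK w4860 := fun D T h => wf_of_chk h (mem_cons (W4859 D T h) (mem_cons (W16 D T h) mem_nil)) mem_nil cw4860
theorem W4861 : WFK w4861 := fun D T h => wf_of_chk h (mem_cons (W83 D T h) (mem_cons (W505 D T h) mem_nil)) mem_nil cw4861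
theorem W4862 : WFK w4862 := fun D T h => wf_of_chk h (mem_cons (W241 D T h) (mem_cons (W505 D T h) mem_nil)) mem_nil cw4862
theorem L1084 : LFK l1084 := fun D T h => lf_of_chk h (mem_cons (W515 D T h) (mem_cons (W17 D T h) (mem_cons (W536 D T h) (mem_cons (W537 D T h) (mem_cons (W3878 D T h) (mem_cons (W144 D T h) (mem_cons (W16 D T h) (mem_cons (W644 D T h) (mem_cons (W645 D T h) (mem_cons (W4852 D T h) (mem_cons (W4853 D T h) (mem_cons (W4861 D T h) (mem_cons (W2015 D T h) (mem_cons (W2037 D T h) (mem_cons (W531 D T h) (mem_cons (W532 D T h) (mem_cons (W533 D T h) (mem_cons (W534 D T h) (mem_cons (W1355 D T h) (mem_cons (W521 D T h) (mem_cons (W4854 D T h) (mem_cons (W4855 D T h) (mem_cons (W523 D T h) (mem_cons (W4856 D T h) (mem_cons (W128 D T h) (mem_cons (W526 D T h) (mem_cons (W4857 D T h) (mem_cons (W4858 D T h) (mem_cons (W2800 D T h) (mem_cons (W4860 D T h) (mem_cons (W4862 D T h) (mem_cons (W548 D T h) (mem_cons (W549 D T h) (mem_cons (W538 D T h) (mem_cons (W540 D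 T h) (mem_cons (W541 D T h) (mem_cons (W362 D T h) (mem_cons (W546 D T h) (mem_cons (W542 D T h) (mem_cons (W543 D T h) (mem_cons (W544 D T h) (mem_cons (W547 D T h) (mem_cons (W551 D T h) (mem_cons (W558 D T h) (mem_cons (W556 D T h) (mem_cons (W642 D T h) (mem_cons (W401 D T h) (mem_cons (W560 D T h) (mem_cons (W39 D T h) mem_nil))))))))))))))))))))))))))))))))))))))))))))))))) cl1084
theorem W4863 : WFK w4863 := fun D T h => wf_of_chk h mem_nil (mem_cons (L1084 D T h) mem_nil) cw4863
theorem W4864 : WFK w4864 := fun D T h => wf_of_chk h (mem_cons (W69 D T h) (mem_cons (W505 D T h) mem_nil)) mem_nil cw4864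
theorem W4865 : WFK w4865 := fun D T h => wf_of_chk h (mem_cons (W69 D T h) (mem_cons (W505 D T h) mem_nil)) mem_nil cw4865
theorem W4866 : WFK w4866 := fun D T h => wf_of_chk h (mem_cons (W105 D T h) mem_nil) mem_nil cw4866
theorem W4867 : WFK w4867 := fun D T h => wf_of_chk h (mem_cons (W4866 D T h) (mem_cons (W16 D T h) mem_nil)) mem_nil cw4867
theorem W4868 : WFK w4868 := fun D T h => wf_of_chk h (mem_cons (W519 D T h) (mem_cons (W505 D T h) mem_nil)) mem_nil cw4868
theorem W4869 : WFK w4869 := fun D T h => wf_of_chk h (mem_cons (W1588 D T h) (mem_cons (W505 D T h) mem_nil)) mem_nil cw4869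
theorem W4870 : WFK w4870 := fun D T h => wf_of_chk h (mem_cons (W230 D T h) (mem_cons (W505 D T h) mem_nil)) mem_nil cw4870
theorem W4871 : WFK w4871 := fun D T h => wf_of_chk h (mem_cons (W1303 D T h) (mem_cons (W16 D T h) mem_nil)) mem_nil cw4871
theorem W4872 : WFK w4872 := fun D T h => wf_of_chk h (mem_cons (W83 D T h) (mem_cons (W505 D T h) mem_nil)) mem_nil cw4872
theorem W4873 : WFK w4873 := fun D T h => wf_of_chk h (mem_cons (W241 D T h) (mem_cons (W505 D T h) mem_nil)) mem_nil cw4873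
theorem L1085 : LFK l1085 := fun D T h => lf_of_chk h (mem_cons (W515 D T h) (mem_cons (W4038 D T h) (mem_cons (W17 D T h) (mem_cons (W536 D T h) (mem_cons (W505 D T h) (mem_cons (W144 D T h) (mem_cons (W16 D T h) (mem_cons (W4566 D T h) (mem_cons (W4864 D T h) (mem_cons (W4865 D T h) (mem_cons (W4872 D T h) (mem_cons (W2015 D T h) (mem_cons (W2037 D T h) (mem_cons (W531 D T h) (mem_cons (W532 D T h) (mem_cons (W534 D T h) (mem_cons (W533 D T h) (mem_cons (W4632 D T h) (mem_cons (W521 D T h) (mem_cons (W4867 D T h) (mem_cons (W4868 D T h) (mem_cons (W523 D T h) (mem_cons (W4869 D T h) (mem_cons (W526 D T h) (mem_cons (W128 D T h) (mem_cons (W4870 D T h) (mem_cons (W4858 D T h) (mem_cons (W4871 D T h) (mem_cons (W2800 D T h) (mem_cons (W4873 D T h) (mem_cons (W3356 D T h) (mem_cons (W3019 D T h) (mem_cons (W540 D T h) (mem_cons (W362 D T h) (mem_cons (W541 D T h) (mem_cons (W4829 D T h) (mem_cons (W542 D T h) (mem_cons (W543 D T h) (mem_cons (W547 D T h) (mem_cons (W544 D T h) (mem_cons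 (W553 D T h) (mem_cons (W558 D T h) (mem_cons (W555 D T h) (mem_cons (W556 D T h) (mem_cons (W642 D T h) (mem_cons (W39 D T h) (mem_cons (W560 D T h) (mem_cons (W401 D T h) mem_nil)))))))))))))))))))))))))))))))))))))))))))))))) cl1085
theorem W4874 : WFK w4874 := fun D T h => wf_of_chk h mem_nil (mem_cons (L1085 D T h) mem_nil) cw4874
theorem W4875 : WFK w4875 := fun D T h => wf_of_chk h (mem_cons (W16 D T h) (mem_cons (W4209 D T h) mem_nil)) mem_nil cw4875
theorem L1086 : LFK l1086 := fun D T h => lf_of_chk h (mem_cons (W4038 D T h) (mem_cons (W508 D T h) (mem_cons (W676 D T h) (mem_cons (W1 D T h) (mem_cons (W3688 D T h) (mem_cons (W4566 D T h) (mem_cons (W1070 D T h) (mem_cons (W4770 D T h) (mem_cons (W4748 D T h) (mem_cons (W4632 D T h) (mem_cons (W2118 D T h) (mem_cons (W489 D T h) (mem_cons (W1109 D T h) (mem_cons (W3274 D T h) (mem_cons (W3120 D T h) (mem_cons (W4771 D T h) (mem_cons (W1125 D T h) (mem_cons (W4844 D T h) (mem_cons (W795 D T h) (mem_cons (W1108 D T h) mem_nil))))))))))))))))))))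 cl1086
theorem W4876 : WFK w4876 := fun D T h => wf_of_chk h mem_nil (mem_cons (L1086 D T h) mem_nil) cw4876
theorem L1087 : LFK l1087 := fun D T h => lf_of_chk h (mem_cons (W562 D T h) (mem_cons (W177 D T h) (mem_cons (W175 D T h) (mem_cons (W2914 D T h) (mem_cons (W512 D T h) (mem_cons (W83 D T h) (mem_cons (W487 D T h) (mem_cons (W516 D T h) (mem_cons (W517 D T h) (mem_cons (W518 D T h) (mem_cons (W4772 D T h) (mem_cons (W4773 D T h) (mem_cons (W4774 D T h) (mem_cons (W515 D T h) (mem_cons (W4769 D T h) (mem_cons (W4636 D T h) (mem_cons (W492 D T h) (mem_cons (W4775 D T h) (mem_cons (W3356 D T h) (mem_cons (W2380 D T h) (mem_cons (W4778 D T h) (mem_cons (W4779 D T h) (mem_cons (W4780 D T h) (mem_cons (W4781 D T h) (mem_cons (W3019 D T h) (mem_cons (W4637 D T h) (mem_cons (W4032 D T h) (mem_cons (W4638 D T h) (mem_cons (W4664 D T h) (mem_cons (W4042 D T h) (mem_cons (W4665 D T h) (mem_cons (W4782 D T h) (mem_cons (W4797 D T h) (mem_cons (W4839 D T h) (mem_cons (W1166 D T h) (mem_cons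 (W1408 D T h) (mem_cons (W4863 D T h) (mem_cons (W4874 D T h) (mem_cons (W4875 D T h) (mem_cons (W358 D T h) (mem_cons (W4876 D T h) (mem_cons (W799 D T h) (mem_cons (W3766 D T h) (mem_cons (W4843 D T h) (mem_cons (W4845 D T h) (mem_cons (W4846 D T h) (mem_cons (W502 D T h) (mem_cons (W4851 D T h) mem_nil)))))))))))))))))))))))))))))))))))))))))))))))) cl1087
theorem W4877 : WFK w4877 := fun D T h => wf_of_chk h mem_nil (mem_cons (L1087 D T h) mem_nil) cw4877
theorem W4878 : WFK w4878 := fun D T h => wf_of_chk h mem_nil (mem_cons (L944 D T h) mem_nil) cw4878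
theorem W4879 : WFK w4879 := fun D T h => wf_of_chk h mem_nil (mem_cons (L718 D T h) mem_nil) cw4879
theorem W4880 : WFK w4880 := fun D T h => wf_of_chk h (mem_cons (W284 D T h) (mem_cons (W32 D T h) mem_nil)) mem_nil cw4880
theorem W4881 : WFK w4881 := fun D T h => wf_of_chk h mem_nil (mem_cons (L944 D T h) mem_nil) cw4881
theorem W4882 : WFK w4882 := fun D T h => wf_of_chk h mem_nil (mem_cons (L944 D T h) mem_nil) cw4882
theorem W4884 : WFK w4884 := fun D T h => wf_of_chk h mem_nil (mem_cons (L15 D T h) mem_nil) cw4884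
theorem W4885 : WFK w4885 := fun D T h => wf_of_chk h (mem_cons (W4884 D T h) (mem_cons (W37 D T h) mem_nil)) mem_nil cw4885
theorem W4886 : WFK w4886 := fun D T h => wf_of_chk h mem_nil (mem_cons (L285 D T h) mem_nil) cw4886
theorem W4887 : WFK w4887 := fun D T h => wf_of_chk h mem_nil (mem_cons (L766 D T h) mem_nil) cw4887
theorem W4888 : WFK w4888 := fun D T h => wf_of_chk h mem_nil (mem_cons (L430 D T h) mem_nil) cw4888
theorem W4889 : WFK w4889 := fun D T h => wf_of_chk h mem_nil mem_nil cw4889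
theorem L1088 : LFK l1088 := fun D T h => lf_of_chk h (mem_cons (W4607 D T h) (mem_cons (W4068 D T h) (mem_cons (W32 D T h) (mem_cons (W4888 D T h) (mem_cons (W4889 D T h) (mem_cons (W861 D T h) (mem_cons (W4189 D T h) (mem_cons (W1758 D T h) (mem_cons (W12 D T h) (mem_cons (W903 D T h) (mem_cons (W780 D T h) mem_nil))))))))))) cl1088
theorem W4890 : WFK w4890 := fun D T h => wf_of_chk h mem_nil (mem_cons (L1088 D T h) mem_nil) cw4890
theorem W4891 : WFK w4891 := fun D T h => wf_of_chk h (mem_cons (W220 D T h) mem_nil) mem_nil cw4891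
theorem W4892 : WFK w4892 := fun D T h => wf_of_chk h (mem_cons (W220 D T h) mem_nil) mem_nil cw4892
theorem L1089 : LFK l1089 := fun D T h => lf_of_chk h (mem_cons (W851 D T h) (mem_cons (W39 D T h) (mem_cons (W32 D T h) (mem_cons (W1283 D T h) (mem_cons (W1468 D T h) (mem_cons (W861 D T h) (mem_cons (W4189 D T h) (mem_cons (W1758 D T h) (mem_cons (W3 D T h) (mem_cons (W903 D T h) (mem_cons (W890 D T h) mem_nil))))))))))) cl1089
theorem W4893 : WFK w4893 := fun D T h => wf_of_chk h mem_nil (mem_cons (L1089 D T h) mem_nil) cw4893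
theorem W4894 : WFK w4894 := fun D T h => wf_of_chk h mem_nil mem_nil cw4894
theorem W4895 : WFK w4895 := fun D T h => wf_of_chk h mem_nil mem_nil cw4895
theorem W4896 : WFK w4896 := fun D T h => wf_of_chk h mem_nil (mem_cons (L111 D T h) mem_nil) cw4896
theorem W4897 : WFK w4897 := fun D T h => wf_of_chk h (mem_cons (W91 D T h) mem_nil) mem_nil cw4897
theorem W4898 : WFK w4898 := fun D T h => wf_of_chk h (mem_cons (W33 D T h) mem_nil) mem_nil cw4898
theorem W4899 : WFK w4899 := fun D T h => wf_of_chk h (mem_cons (W158 D T h) mem_nil) mem_nil cw4899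
theorem W4900 : WFK w4900 := fun D T h => wf_of_chk h (mem_cons (W33 D T h) mem_nil) mem_nil cw4900
theorem W4901 : WFK w4901 := fun D T h => wf_of_chk h (mem_cons (W1283 D T h) mem_nil) mem_nil cw4901
theorem L1090 : LFK l1090 := fun D T h => lf_of_chk h (mem_cons (W4531 D T h) (mem_cons (W281 D T h) (mem_cons (W32 D T h) (mem_cons (W1283 D T h) (mem_cons (W1468 D T h) (mem_cons (W4894 D T h) (mem_cons (W1204 D T h) (mem_cons (W1170 D T h) (mem_cons (W4901 D T h) (mem_cons (W861 D T h) (mem_cons (W105 D T h) (mem_cons (W4895 D T h) (mem_cons (W4896 D T h) (mem_cons (W4260 D T h) (mem_cons (W4897 D T h) (mem_cons (W4898 D T h) (mem_cons (W4899 D T h) (mem_cons (W4900 D T h) (mem_cons (W86 D T h) mem_nil))))))))))))))))))) cl1090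
theorem W4902 : WFK w4902 := fun D T h => wf_of_chk h mem_nil (mem_cons (L1090 D T h) mem_nil) cw4902
theorem W4903 : WFK w4903 := fun D T h => wf_of_chk h mem_nil (mem_cons (L942 D T h) mem_nil) cw4903
theorem W4904 : WFK w4904 := fun D T h => wf_of_chk h mem_nil (mem_cons (L943 D T h) mem_nil) cw4904
theorem W4905 : WFK w4905 := fun D T h => wf_of_chk h (mem_cons (W16 D T h) mem_nil) mem_nil cw4905
theorem W4906 : WFK w4906 := fun D T h => wf_of_chk h (mem_cons (W16 D T h) mem_nil) mem_nil cw4906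
theorem L1091 : LFK l1091 := fun D T h => lf_of_chk h (mem_cons (W4887 D T h) (mem_cons (W281 D T h) (mem_cons (W32 D T h) (mem_cons (W4884 D T h) (mem_cons (W1283 D T h) (mem_cons (W4902 D T h) (mem_cons (W851 D T h) (mem_cons (W4894 D T h) (mem_cons (W4903 D T h) (mem_cons (W2967 D T h) (mem_cons (W4904 D T h) (mem_cons (W2936 D T h) (mem_cons (W861 D T h) (mem_cons (W4189 D T h) (mem_cons (W864 D T h) (mem_cons (W1139 D T h) (mem_cons (W4890 D T h) (mem_cons (W4891 D T h) (mem_cons (W4892 D T h) (mem_cons (W4893 D T h) (mem_cons (W38 D T h) (mem_cons (W903 D T h) (mem_cons (W4905 D T h) (mem_cons (W4906 D T h) mem_nil)))))))))))))))))))))))) cl1091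
theorem W4907 : WFK w4907 := fun D T h => wf_of_chk h mem_nil (mem_cons (L1091 D T h) mem_nil) cw4907
theorem W4908 : WFK w4908 := fun D T h => wf_of_chk h mem_nil (mem_cons (L1088 D T h) mem_nil) cw4908
theorem W4909 : WFK w4909 := fun D T h => wf_of_chk h (mem_cons (W16 D T h) mem_nil) mem_nil cw4909
theorem W4910 : WFK w4910 := fun D T h => wf_of_chk h mem_nil (mem_cons (L481 D T h) mem_nil) cw4910
theorem W4911 : WFK w4911 := fun D T h => wf_of_chk h (mem_cons (W114 D T h) mem_nil) mem_nil cw4911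
theorem W4912 : WFK w4912 := fun D T h => wf_of_chk h (mem_cons (W114 D T h) mem_nil) mem_nil cw4912
theorem W4913 : WFK w4913 := fun D T h => wf_of_chk h mem_nil mem_nil cw4913
theorem W4914 : WFK w4914 := fun D T h => wf_of_chk h (mem_cons (W158 D T h) mem_nil) mem_nil cw4914
theorem W4915 : WFK w4915 := fun D T h => wf_of_chk h (mem_cons (W91 D T h) mem_nil) mem_nil cw4915
theorem W4916 : WFK w4916 := fun D T h => wf_of_chk h (mem_cons (W161 D T h) mem_nil) mem_nil cw4916
theorem L1092 : LFK l1092 := fun D T h => lf_of_chk h (mem_cons (W4038 D T h) (mem_cons (W1108 D T h) (mem_cons (W32 D T h) (mem_cons (W1 D T h) (mem_cons (W4189 D T h) (mem_cons (W4913 D T h) (mem_cons (W1070 D T h) (mem_cons (W4914 D T h) (mem_cons (W4632 D T h) (mem_cons (W4915 D T h) (mem_cons (W3274 D T h) (mem_cons (W1109 D T h) (mem_cons (W4916 D T h) (mem_cons (W1125 D T h) (mem_cons (W3120 D T h) (mem_cons (W628 D T h) (mem_cons (W809 D T h) mem_nil))))))))))))))))) cl1092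
theorem W4917 : WFK w4917 := fun D T h => wf_of_chk h mem_nil (mem_cons (L1092 D T h) mem_nil) cw4917
theorem W4918 : WFK w4918 := fun D T h => wf_of_chk h (mem_cons (W69 D T h) mem_nil) mem_nil cw4918
theorem W4919 : WFK w4919 := fun D T h => wf_of_chk h (mem_cons (W69 D T h) mem_nil) mem_nil cw4919
theorem W4920 : WFK w4920 := fun D T h => wf_of_chk h mem_nil (mem_cons (L1088 D T h) mem_nil) cw4920
theorem W4921 : WFK w4921 := fun D T h => wf_of_chk h (mem_cons (W981 D T h) mem_nil) mem_nil cw4921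
theorem W4922 : WFK w4922 := fun D T h => wf_of_chk h mem_nil (mem_cons (L1088 D T h) mem_nil) cw4922
theorem W4923 : WFK w4923 := fun D T h => wf_of_chk h mem_nil (mem_cons (L1088 D T h) mem_nil) cw4923
theorem W4924 : WFK w4924 := fun D T h => wf_of_chk h mem_nil (mem_cons (L481 D T h) mem_nil) cw4924
theorem W4925 : WFK w4925 := fun D T h => wf_of_chk h (mem_cons (W39 D T h) mem_nil) mem_nil cw4925
theorem W4926 : WFK w4926 := fun D T h => wf_of_chk h (mem_cons (W39 D T h) mem_nil) mem_nil cw4926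
theorem W4927 : WFK w4927 := fun D T h => wf_of_chk h (mem_cons (W155 D T h) mem_nil) mem_nil cw4927
theorem W4928 : WFK w4928 := fun D T h => wf_of_chk h (mem_cons (W164 D T h) mem_nil) mem_nil cw4928
theorem L1093 : LFK l1093 := fun D T h => lf_of_chk h (mem_cons (W4908 D T h) (mem_cons (W4924 D T h) (mem_cons (W32 D T h) (mem_cons (W162 D T h) (mem_cons (W844 D T h) (mem_cons (W4909 D T h) (mem_cons (W4232 D T h) (mem_cons (W4910 D T h) (mem_cons (W4911 D T h) (mem_cons (W2405 D T h) (mem_cons (W4912 D T h) (mem_cons (W1227 D T h) (mem_cons (W4234 D T h) (mem_cons (W4917 D T h) (mem_cons (W1723 D T h) (mem_cons (W4925 D T h) (mem_cons (W4926 D T h) (mem_cons (W4927 D T h) (mem_cons (W4918 D T h) (mem_cons (W4607 D T h) (mem_cons (W4919 D T h) (mem_cons (W3312 D T h) (mem_cons (W4920 D T h) (mem_cons (W4921 D T h) (mem_cons (W4922 D T h) (mem_cons (W4923 D T h) (mem_cons (W1449 D T h) (mem_cons (W67 D T h) (mem_cons (W4928 D T h) (mem_cons (W4236 D T h) mem_nil))))))))))))))))))))))))))))))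 cl1093
theorem W4929 : WFK w4929 := fun D T h => wf_of_chk h mem_nil (mem_cons (L1093 D T h) mem_nil) cw4929
theorem W4930 : WFK w4930 := fun D T h => wf_of_chk h (mem_cons (W284 D T h) mem_nil) mem_nil cw4930
theorem W4931 : WFK w4931 := fun D T h => wf_of_chk h mem_nil (mem_cons (L192 D T h) mem_nil) cw4931
theorem W4932 : WFK w4932 := fun D T h => wf_of_chk h mem_nil (mem_cons (L862 D T h) mem_nil) cw4932
theorem W4933 : WFK w4933 := fun D T h => wf_of_chk h mem_nil (mem_cons (L676 D T h) mem_nil) cw4933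
theorem W4934 : WFK w4934 := fun D T h => wf_of_chk h mem_nil (mem_cons (L194 D T h) mem_nil) cw4934
theorem W4935 : WFK w4935 := fun D T h => wf_of_chk h mem_nil (mem_cons (L409 D T h) mem_nil) cw4935
theorem W4936 : WFK w4936 := fun D T h => wf_of_chk h (mem_cons (W16 D T h) mem_nil) mem_nil cw4936
theorem L1094 : LFK l1094 := fun D T h => lf_of_chk h (mem_cons (W877 D T h) (mem_cons (W168 D T h) (mem_cons (W281 D T h) (mem_cons (W16 D T h) (mem_cons (W861 D T h) (mem_cons (W4884 D T h) (mem_cons (W1283 D T h) (mem_cons (W4894 D T h) (mem_cons (W859 D T h) (mem_cons (W851 D T h) (mem_cons (W4935 D T h) (mem_cons (W1739 D T h) (mem_cons (W4238 D T h) (mem_cons (W864 D T h) (mem_cons (W4892 D T h) (mem_cons (W4931 D T h) (mem_cons (W4932 D T h) (mem_cons (W1139 D T h) (mem_cons (W4933 D T h) (mem_cons (W4934 D T h) (mem_cons (W61 D T h) (mem_cons (W903 D T h) (mem_cons (W4905 D T h) (mem_cons (W4936 D T h) mem_nil)))))))))))))))))))))))) cl1094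
theorem W4937 : WFK w4937 := fun D T h => wf_of_chk h mem_nil (mem_cons (L1094 D T h) mem_nil) cw4937
theorem L1095 : LFK l1095 := fun D T h => lf_of_chk h (mem_cons (W861 D T h) (mem_cons (W1244 D T h) (mem_cons (W806 D T h) (mem_cons (W1475 D T h) mem_nil)))) cl1095
theorem W4938 : WFK w4938 := fun D T h => wf_of_chk h mem_nil (mem_cons (L1095 D T h) mem_nil) cw4938
theorem W4954 : WFK w4954 := fun D T h => wf_of_chk h mem_nil (mem_cons (L823 D T h) mem_nil) cw4954
theorem W4955 : WFK w4955 := fun D T h => wf_of_chk h mem_nil (mem_cons (L176 D T h) mem_nil) cw4955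
theorem W4964 : WFK w4964 := fun D T h => wf_of_chk h mem_nil mem_nil cw4964
theorem W4970 : WFK w4970 := fun D T h => wf_of_chk h (mem_cons (W16 D T h) (mem_cons (W4209 D T h) mem_nil)) mem_nil cw4970
theorem W4971 : WFK w4971 := fun D T h => wf_of_chk h (mem_cons (W16 D T h) (mem_cons (W4964 D T h) mem_nil)) mem_nil cw4971
theorem W4972 : WFK w4972 := fun D T h => wf_of_chk h (mem_cons (W2194 D T h) mem_nil) mem_nil cw4972
theorem W4973 : WFK w4973 := fun D T h => wf_of_chk h (mem_cons (W220 D T h) (mem_cons (W4209 D T h) mem_nil)) mem_nil cw4973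
theorem W4974 : WFK w4974 := fun D T h => wf_of_chk h (mem_cons (W128 D T h) (mem_cons (W4964 D T h) mem_nil)) mem_nil cw4974
theorem W4975 : WFK w4975 := fun D T h => wf_of_chk h (mem_cons (W220 D T h) (mem_cons (W4209 D T h) mem_nil)) mem_nil cw4975
theorem W4976 : WFK w4976 := fun D T h => wf_of_chk h (mem_cons (W284 D T h) (mem_cons (W4964 D T h) mem_nil)) mem_nil cw4976
theorem W4977 : WFK w4977 := fun D T h => wf_of_chk h (mem_cons (W10 D T h) mem_nil) mem_nil cw4977
theorem W4978 : WFK w4978 := fun D T h => wf_of_chk h (mem_cons (W4977 D T h) (mem_cons (W16 D T h) mem_nil)) mem_nil cw4978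
theorem W4979 : WFK w4979 := fun D T h => wf_of_chk h (mem_cons (W2215 D T h) mem_nil) mem_nil cw4979
theorem W4980 : WFK w4980 := fun D T h => wf_of_chk h (mem_cons (W162 D T h) (mem_cons (W4209 D T h) mem_nil)) mem_nil cw4980
theorem L1097 : LFK l1097 := fun D T h => lf_of_chk h (mem_cons (W2219 D T h) (mem_cons (W342 D T h) (mem_cons (W341 D T h) (mem_cons (W352 D T h) (mem_cons (W1025 D T h) (mem_cons (W4189 D T h) (mem_cons (W4913 D T h) (mem_cons (W284 D T h) (mem_cons (W1035 D T h) (mem_cons (W16 D T h) (mem_cons (W4209 D T h) (mem_cons (W1408 D T h) (mem_cons (W4971 D T h) (mem_cons (W4979 D T h) (mem_cons (W2934 D T h) (mem_cons (W4980 D T h) (mem_cons (W24 D T h) (mem_cons (W4972 D T h) (mem_cons (W209 D T h) (mem_cons (W4973 D T h) (mem_cons (W4974 D T h) (mem_cons (W4975 D T h) (mem_cons (W4976 D T h) (mem_cons (W3666 D T h) (mem_cons (W721 D T h) (mem_cons (W4978 D T h) (mem_cons (W2157 D T h) (mem_cons (W2280 D T h) (mem_cons (W2278 D T h) (mem_cons (W2192 D T h)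 mem_nil)))))))))))))))))))))))))))))) cl1097
theorem W4981 : WFK w4981 := fun D T h => wf_of_chk h mem_nil (mem_cons (L1097 D T h) mem_nil) cw4981
theorem W4982 : WFK w4982 := fun D T h => wf_of_chk h mem_nil (mem_cons (L1089 D T h) mem_nil) cw4982
theorem W4983 : WFK w4983 := fun D T h => wf_of_chk h mem_nil (mem_cons (L1089 D T h) mem_nil) cw4983
theorem W4984 : WFK w4984 := fun D T h => wf_of_chk h mem_nil (mem_cons (L1089 D T h) mem_nil) cw4984
theorem W4985 : WFK w4985 := fun D T h => wf_of_chk h (mem_cons (W50 D T h) mem_nil) mem_nil cw4985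
theorem L1098 : LFK l1098 := fun D T h => lf_of_chk h (mem_cons (W4240 D T h) (mem_cons (W1640 D T h) (mem_cons (W32 D T h) (mem_cons (W50 D T h) (mem_cons (W177 D T h) (mem_cons (W4232 D T h) (mem_cons (W4233 D T h) (mem_cons (W4242 D T h) (mem_cons (W4983 D T h) (mem_cons (W3766 D T h) (mem_cons (W4244 D T h) (mem_cons (W4234 D T h) (mem_cons (W851 D T h) (mem_cons (W4235 D T h) (mem_cons (W1723 D T h) (mem_cons (W4982 D T h) (mem_cons (W4908 D T h) (mem_cons (W4237 D T h) (mem_cons (W4239 D T h) (mem_cons (W4984 D T h) (mem_cons (W4938 D T h) (mem_cons (W4981 D T h) (mem_cons (W3335 D T h) (mem_cons (W67 D T h) (mem_cons (W4985 D T h) mem_nil))))))))))))))))))))))))) cl1098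
theorem W4986 : WFK w4986 := fun D T h => wf_of_chk h mem_nil (mem_cons (L1098 D T h) mem_nil) cw4986
theorem W4988 : WFK w4988 := fun D T h => wf_of_chk h mem_nil (mem_cons (L381 D T h) mem_nil) cw4988
theorem W4989 : WFK w4989 := fun D T h => wf_of_chk h (mem_cons (W284 D T h) mem_nil) mem_nil cw4989
theorem W4990 : WFK w4990 := fun D T h => wf_of_chk h (mem_cons (W1063 D T h) (mem_cons (W32 D T h) mem_nil)) mem_nil cw4990
theorem W4991 : WFK w4991 := fun D T h => wf_of_chk h (mem_cons (W34 D T h) (mem_cons (W808 D T h) mem_nil)) mem_nil cw4991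
theorem W4992 : WFK w4992 := fun D T h => wf_of_chk h (mem_cons (W4879 D T h) mem_nil) mem_nil cw4992
theorem W4993 : WFK w4993 := fun D T h => wf_of_chk h (mem_cons (W4878 D T h) mem_nil) mem_nil cw4993
theorem W4994 : WFK w4994 := fun D T h => wf_of_chk h (mem_cons (W912 D T h) mem_nil) mem_nil cw4994
theorem W4995 : WFK w4995 := fun D T h => wf_of_chk h (mem_cons (W75 D T h) (mem_cons (W4879 D T h) mem_nil)) mem_nil cw4995
theorem W4996 : WFK w4996 := fun D T h => wf_of_chk h (mem_cons (W80 D T h) (mem_cons (W4879 D T h) mem_nil)) mem_nil cw4996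
theorem W4997 : WFK w4997 := fun D T h => wf_of_chk h (mem_cons (W112 D T h) (mem_cons (W4879 D T h) mem_nil)) mem_nil cw4997
theorem W4998 : WFK w4998 := fun D T h => wf_of_chk h (mem_cons (W69 D T h) (mem_cons (W4879 D T h) mem_nil)) mem_nil cw4998
theorem L1099 : LFK l1099 := fun D T h => lf_of_chk h (mem_cons (W4209 D T h) (mem_cons (W2123 D T h) (mem_cons (W93 D T h) (mem_cons (W83 D T h) (mem_cons (W1 D T h) (mem_cons (W69 D T h) (mem_cons (W4879 D T h) (mem_cons (W4990 D T h) (mem_cons (W4992 D T h) (mem_cons (W4993 D T h) (mem_cons (W111 D T h) (mem_cons (W370 D T h) (mem_cons (W4997 D T h) (mem_cons (W114 D T h) (mem_cons (W721 D T h) (mem_cons (W267 D T h) (mem_cons (W4998 D T h) (mem_cons (W91 D T h) (mem_cons (W80 D T h) (mem_cons (W4994 D T h) (mem_cons (W4995 D T h) (mem_cons (W521 D T h) (mem_cons (W4996 D T h) (mem_cons (W4259 D T h) (mem_cons (W4244 D T h) (mem_cons (W4566 D T h) mem_nil)))))))))))))))))))))))))) cl1099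
theorem W4999 : WFK w4999 := fun D T h => wf_of_chk h mem_nil (mem_cons (L1099 D T h) mem_nil) cw4999
theorem W5000 : WFK w5000 := fun D T h => wf_of_chk h (mem_cons (W126 D T h) (mem_cons (W3292 D T h) mem_nil)) mem_nil cw5000
theorem W5001 : WFK w5001 := fun D T h => wf_of_chk h mem_nil (mem_cons (L1099 D T h) mem_nil) cw5001
theorem W5002 : WFK w5002 := fun D T h => wf_of_chk h mem_nil (mem_cons (L1099 D T h) mem_nil) cw5002
theorem W5003 : WFK w5003 := fun D T h => wf_of_chk h mem_nil (mem_cons (L1099 D T h) mem_nil) cw5003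
theorem W5004 : WFK w5004 := fun D T h => wf_of_chk h mem_nil (mem_cons (L1099 D T h) mem_nil) cw5004
theorem W5005 : WFK w5005 := fun D T h => wf_of_chk h (mem_cons (W181 D T h) (mem_cons (W4878 D T h) mem_nil)) mem_nil cw5005
theorem W5006 : WFK w5006 := fun D T h => wf_of_chk h (mem_cons (W799 D T h) mem_nil) mem_nil cw5006
theorem W5007 : WFK w5007 := fun D T h => wf_of_chk h (mem_cons (W368 D T h) (mem_cons (W2123 D T h) mem_nil)) mem_nil cw5007
theorem W5008 : WFK w5008 := fun D T h => wf_of_chk h (mem_cons (W5007 D T h) (mem_cons (W16 D T h) mem_nil)) mem_nil cw5008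
theorem W5009 : WFK w5009 := fun D T h => wf_of_chk h (mem_cons (W2520 D T h) (mem_cons (W4878 D T h) mem_nil)) mem_nil cw5009
theorem W5010 : WFK w5010 := fun D T h => wf_of_chk h (mem_cons (W34 D T h) (mem_cons (W4878 D T h) mem_nil)) mem_nil cw5010
theorem W5011 : WFK w5011 := fun D T h => wf_of_chk h mem_nil (mem_cons (L743 D T h) mem_nil) cw5011
theorem W5012 : WFK w5012 := fun D T h => wf_of_chk h (mem_cons (W162 D T h) (mem_cons (W5011 D T h) mem_nil)) mem_nil cw5012
theorem W5013 : WFK w5013 := fun D T h => wf_of_chk h (mem_cons (W3227 D T h) (mem_cons (W4878 D T h) mem_nil)) mem_nil cw5013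
theorem W5014 : WFK w5014 := fun D T h => wf_of_chk h (mem_cons (W1063 D T h) (mem_cons (W16 D T h) mem_nil)) mem_nil cw5014
theorem W5015 : WFK w5015 := fun D T h => wf_of_chk h (mem_cons (W3750 D T h) (mem_cons (W2123 D T h) mem_nil)) mem_nil cw5015
theorem W5016 : WFK w5016 := fun D T h => wf_of_chk h mem_nil (mem_cons (L1089 D T h) mem_nil) cw5016
theorem W5017 : WFK w5017 := fun D T h => wf_of_chk h (mem_cons (W5016 D T h) (mem_cons (W1063 D T h) mem_nil)) mem_nil cw5017
theorem W5018 : WFK w5018 := fun D T h => wf_of_chk h mem_nil (mem_cons (L717 D T h) mem_nil) cw5018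
theorem W5019 : WFK w5019 := fun D T h => wf_of_chk h (mem_cons (W2272 D T h) mem_nil) mem_nil cw5019
theorem W5020 : WFK w5020 := fun D T h => wf_of_chk h (mem_cons (W2015 D T h) mem_nil) mem_nil cw5020
theorem W5021 : WFK w5021 := fun D T h => wf_of_chk h mem_nil (mem_cons (L1093 D T h) mem_nil) cw5021
theorem L1100 : LFK l1100 := fun D T h => lf_of_chk h (mem_cons (W2062 D T h) (mem_cons (W4028 D T h) (mem_cons (W32 D T h) (mem_cons (W5014 D T h) (mem_cons (W2123 D T h) (mem_cons (W808 D T h) (mem_cons (W682 D T h) (mem_cons (W4878 D T h) (mem_cons (W3292 D T h) (mem_cons (W4879 D T h) (mem_cons (W4990 D T h) (mem_cons (W16 D T h) (mem_cons (W4991 D T h) (mem_cons (W4999 D T h) (mem_cons (W2015 D T h) (mem_cons (W5010 D T h) (mem_cons (W5012 D T h) (mem_cons (W2709 D T h) (mem_cons (W2037 D T h) (mem_cons (W5013 D T h) (mem_cons (W5000 D T h) (mem_cons (W4209 D T h) (mem_cons (W128 D T h) (mem_cons (W5001 D T h) (mem_cons (W5002 D T h) (mem_cons (W5003 D T h) (mem_cons (W5004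 D T h) (mem_cons (W799 D T h) (mem_cons (W5005 D T h) (mem_cons (W5006 D T h) (mem_cons (W3222 D T h) (mem_cons (W3221 D T h) (mem_cons (W5008 D T h) (mem_cons (W5009 D T h) (mem_cons (W4244 D T h) (mem_cons (W2046 D T h) (mem_cons (W1134 D T h) (mem_cons (W5015 D T h) (mem_cons (W5017 D T h) (mem_cons (W1996 D T h) (mem_cons (W1995 D T h) (mem_cons (W5019 D T h) (mem_cons (W5020 D T h) (mem_cons (W4907 D T h) (mem_cons (W5021 D T h) (mem_cons (W3262 D T h) (mem_cons (W4937 D T h) (mem_cons (W3266 D T h) mem_nil)))))))))))))))))))))))))))))))))))))))))))))))) cl1100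
theorem W5022 : WFK w5022 := fun D T h => wf_of_chk h mem_nil (mem_cons (L1100 D T h) mem_nil) cw5022
theorem W5023 : WFK w5023 := fun D T h => wf_of_chk h (mem_cons (W384 D T h) mem_nil) mem_nil cw5023
theorem W5024 : WFK w5024 := fun D T h => wf_of_chk h (mem_cons (W946 D T h) mem_nil) mem_nil cw5024
theorem L1101 : LFK l1101 := fun D T h => lf_of_chk h (mem_cons (W4246 D T h) (mem_cons (W1640 D T h) (mem_cons (W32 D T h) (mem_cons (W946 D T h) (mem_cons (W495 D T h) (mem_cons (W4232 D T h) (mem_cons (W4233 D T h) (mem_cons (W4242 D T h) (mem_cons (W42 D T h) (mem_cons (W4983 D T h) (mem_cons (W4244 D T h) (mem_cons (W1325 D T h) (mem_cons (W4234 D T h) (mem_cons (W851 D T h) (mem_cons (W5023 D T h) (mem_cons (W1723 D T h) (mem_cons (W4982 D T h) (mem_cons (W4908 D T h) (mem_cons (W4237 D T h) (mem_cons (W4984 D T h) (mem_cons (W3157 D T h) (mem_cons (W67 D T h) (mem_cons (W5024 D T h) mem_nil))))))))))))))))))))))) cl1101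
theorem W5025 : WFK w5025 := fun D T h => wf_of_chk h mem_nil (mem_cons (L1101 D T h) mem_nil) cw5025
theorem W5026 : WFK w5026 := fun D T h => wf_of_chk h (mem_cons (W1228 D T h) mem_nil) mem_nil cw5026
theorem W5027 : WFK w5027 := fun D T h => wf_of_chk h (mem_cons (W1227 D T h) mem_nil) mem_nil cw5027
theorem L1102 : LFK l1102 := fun D T h => lf_of_chk h (mem_cons (W4245 D T h) (mem_cons (W1640 D T h) (mem_cons (W32 D T h) (mem_cons (W1226 D T h) (mem_cons (W495 D T h) (mem_cons (W497 D T h) (mem_cons (W4232 D T h) (mem_cons (W4233 D T h) (mem_cons (W4242 D T h) (mem_cons (W1362 D T h) (mem_cons (W164 D T h) (mem_cons (W4983 D T h) (mem_cons (W4244 D T h) (mem_cons (W42 D T h) (mem_cons (W581 D T h) (mem_cons (W1326 D T h) (mem_cons (W4234 D T h) (mem_cons (W851 D T h) (mem_cons (W5026 D T h) (mem_cons (W1723 D T h) (mem_cons (W4982 D T h) (mem_cons (W4908 D T h) (mem_cons (W4237 D T h) (mem_cons (W4984 D T h) (mem_cons (W3160 D T h) (mem_cons (W67 D T h) (mem_cons (W5027 D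 T h) mem_nil))))))))))))))))))))))))))) cl1102
theorem W5028 : WFK w5028 := fun D T h => wf_of_chk h mem_nil (mem_cons (L1102 D T h) mem_nil) cw5028
theorem L1103 : LFK l1103 := fun D T h => lf_of_chk h (mem_cons (W1120 D T h) (mem_cons (W47 D T h) (mem_cons (W1530 D T h) (mem_cons (W125 D T h) (mem_cons (W4 D T h) (mem_cons (W20 D T h) (mem_cons (W853 D T h) (mem_cons (W1482 D T h) (mem_cons (W918 D T h) mem_nil))))))))) cl1103
theorem W5029 : WFK w5029 := fun D T h => wf_of_chk h mem_nil (mem_cons (L1103 D T h) mem_nil) cw5029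
theorem W5030 : WFK w5030 := fun D T h => wf_of_chk h (mem_cons (W5029 D T h) mem_nil) mem_nil cw5030
theorem W5031 : WFK w5031 := fun D T h => wf_of_chk h (mem_cons (W1226 D T h) mem_nil) mem_nil cw5031
theorem W5032 : WFK w5032 := fun D T h => wf_of_chk h (mem_cons (W1227 D T h) mem_nil) mem_nil cw5032
theorem L1104 : LFK l1104 := fun D T h => lf_of_chk h (mem_cons (W4247 D T h) (mem_cons (W1640 D T h) (mem_cons (W32 D T h) (mem_cons (W1227 D T h) (mem_cons (W497 D T h) (mem_cons (W495 D T h) (mem_cons (W4232 D T h) (mem_cons (W4233 D T h) (mem_cons (W4242 D T h) (mem_cons (W164 D T h) (mem_cons (W1362 D T h) (mem_cons (W4983 D T h) (mem_cons (W3766 D T h) (mem_cons (W4244 D T h) (mem_cons (W1326 D T h) (mem_cons (W581 D T h) (mem_cons (W4234 D T h) (mem_cons (W851 D T h) (mem_cons (W5030 D T h) (mem_cons (W1723 D T h) (mem_cons (W4982 D T h) (mem_cons (W4908 D T h) (mem_cons (W4237 D T h) (mem_cons (W4984 D T h) (mem_cons (W3163 D T h) (mem_cons (W67 D T h) (mem_cons (W5031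 D T h) (mem_cons (W5032 D T h) mem_nil)))))))))))))))))))))))))))) cl1104
theorem W5033 : WFK w5033 := fun D T h => wf_of_chk h mem_nil (mem_cons (L1104 D T h) mem_nil) cw5033
theorem W5034 : WFK w5034 := fun D T h => wf_of_chk h (mem_cons (W3878 D T h) mem_nil) mem_nil cw5034
theorem L1105 : LFK l1105 := fun D T h => lf_of_chk h (mem_cons (W4240 D T h) (mem_cons (W1640 D T h) (mem_cons (W32 D T h) (mem_cons (W50 D T h) (mem_cons (W177 D T h) (mem_cons (W4232 D T h) (mem_cons (W4233 D T h) (mem_cons (W4242 D T h) (mem_cons (W4983 D T h) (mem_cons (W3766 D T h) (mem_cons (W4244 D T h) (mem_cons (W4234 D T h) (mem_cons (W851 D T h) (mem_cons (W5034 D T h) (mem_cons (W1723 D T h) (mem_cons (W4982 D T h) (mem_cons (W4908 D T h) (mem_cons (W4237 D T h) (mem_cons (W4984 D T h) (mem_cons (W3166 D T h) (mem_cons (W67 D T h) (mem_cons (W4985 D T h) mem_nil)))))))))))))))))))))) cl1105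
theorem W5035 : WFK w5035 := fun D T h => wf_of_chk h mem_nil (mem_cons (L1105 D T h) mem_nil) cw5035
theorem W5036 : WFK w5036 := fun D T h => wf_of_chk h (mem_cons (W1291 D T h) (mem_cons (W2123 D T h) mem_nil)) mem_nil cw5036
theorem W5037 : WFK w5037 := fun D T h => wf_of_chk h (mem_cons (W807 D T h) (mem_cons (W37 D T h) mem_nil)) mem_nil cw5037
theorem L1106 : LFK l1106 := fun D T h => lf_of_chk h (mem_cons (W1475 D T h) (mem_cons (W5 D T h) mem_nil)) cl1106
theorem W5038 : WFK w5038 := fun D T h => wf_of_chk h mem_nil (mem_cons (L1106 D T h) mem_nil) cw5038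
theorem W5039 : WFK w5039 := fun D T h => wf_of_chk h (mem_cons (W220 D T h) mem_nil) mem_nil cw5039
theorem W5040 : WFK w5040 := fun D T h => wf_of_chk h mem_nil (mem_cons (L676 D T h) mem_nil) cw5040
theorem W5041 : WFK w5041 := fun D T h => wf_of_chk h mem_nil (mem_cons (L1106 D T h) mem_nil) cw5041
theorem W5042 : WFK w5042 := fun D T h => wf_of_chk h mem_nil (mem_cons (L1106 D T h) mem_nil) cw5042
theorem L1107 : LFK l1107 := fun D T h => lf_of_chk h (mem_cons (W2766 D T h) (mem_cons (W1475 D T h) (mem_cons (W26 D T h) mem_nil))) cl1107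
theorem W5043 : WFK w5043 := fun D T h => wf_of_chk h mem_nil (mem_cons (L1107 D T h) mem_nil) cw5043
theorem W5044 : WFK w5044 := fun D T h => wf_of_chk h mem_nil mem_nil cw5044
theorem W5045 : WFK w5045 := fun D T h => wf_of_chk h (mem_cons (W177 D T h) (mem_cons (W807 D T h) mem_nil)) mem_nil cw5045
theorem W5046 : WFK w5046 := fun D T h => wf_of_chk h (mem_cons (W711 D T h) mem_nil) mem_nil cw5046
theorem W5047 : WFK w5047 := fun D T h => wf_of_chk h (mem_cons (W162 D T h) mem_nil) mem_nil cw5047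
theorem L1108 : LFK l1108 := fun D T h => lf_of_chk h (mem_cons (W4270 D T h) (mem_cons (W351 D T h) (mem_cons (W3766 D T h) (mem_cons (W2 D T h) (mem_cons (W807 D T h) (mem_cons (W37 D T h) (mem_cons (W5043 D T h) (mem_cons (W5044 D T h) (mem_cons (W785 D T h) (mem_cons (W1796 D T h) (mem_cons (W3006 D T h) (mem_cons (W5042 D T h) (mem_cons (W1019 D T h) (mem_cons (W5047 D T h) (mem_cons (W5045 D T h) (mem_cons (W4267 D T h) (mem_cons (W5046 D T h) (mem_cons (W5037 D T h) (mem_cons (W891 D T h) (mem_cons (W5038 D T h) (mem_cons (W5039 D T h) (mem_cons (W261 D T h) (mem_cons (W5040 D T h) (mem_cons (W5041 D T h) (mem_cons (W2368 D T h) mem_nil))))))))))))))))))))))))) cl1108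
theorem W5048 : WFK w5048 := fun D T h => wf_of_chk h mem_nil (mem_cons (L1108 D T h) mem_nil) cw5048
theorem W5049 : WFK w5049 := fun D T h => wf_of_chk h (mem_cons (W2123 D T h) (mem_cons (W37 D T h) mem_nil)) mem_nil cw5049
theorem L1109 : LFK l1109 := fun D T h => lf_of_chk h (mem_cons (W4249 D T h) (mem_cons (W726 D T h) (mem_cons (W32 D T h) (mem_cons (W804 D T h) (mem_cons (W2123 D T h) (mem_cons (W808 D T h) (mem_cons (W37 D T h) (mem_cons (W4878 D T h) (mem_cons (W3292 D T h) (mem_cons (W4879 D T h) (mem_cons (W4880 D T h) (mem_cons (W4988 D T h) (mem_cons (W4989 D T h) (mem_cons (W2893 D T h) (mem_cons (W5036 D T h) (mem_cons (W5035 D T h) (mem_cons (W284 D T h) (mem_cons (W5022 D T h) (mem_cons (W5025 D T h) (mem_cons (W5028 D T h) (mem_cons (W1213 D T h) (mem_cons (W5033 D T h) (mem_cons (W3523 D T h) (mem_cons (W4881 D T h) (mem_cons (W4882 D T h) (mem_cons (W1996 D T h) (mem_cons (W1995 D T h) (mem_cons (W4885 D T h) (mem_cons (W4886 D T h) (mem_cons (W4907 D T h)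 (mem_cons (W4929 D T h) (mem_cons (W4930 D T h) (mem_cons (W4937 D T h) (mem_cons (W4986 D T h) (mem_cons (W1254 D T h) (mem_cons (W67 D T h) (mem_cons (W5048 D T h) (mem_cons (W5049 D T h) mem_nil)))))))))))))))))))))))))))))))))))))) cl1109
theorem W5050 : WFK w5050 := fun D T h => wf_of_chk h mem_nil (mem_cons (L1109 D T h) mem_nil) cw5050
theorem L1110 : LFK l1110 := fun D T h => lf_of_chk h (mem_cons (W461 D T h) (mem_cons (W726 D T h) (mem_cons (W109 D T h) (mem_cons (W3518 D T h) (mem_cons (W140 D T h) (mem_cons (W141 D T h) (mem_cons (W2690 D T h) (mem_cons (W3274 D T h) (mem_cons (W175 D T h) (mem_cons (W67 D T h) (mem_cons (W143 D T h) (mem_cons (W1919 D T h) (mem_cons (W5050 D T h) (mem_cons (W401 D T h) (mem_cons (W1409 D T h) (mem_cons (W924 D T h) (mem_cons (W2724 D T h) mem_nil))))))))))))))))) cl1110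
theorem W5052 : WFK w5052 := fun D T h => wf_of_chk h mem_nil (mem_cons (L233 D T h) mem_nil) cw5052
theorem L1111 : LFK l1111 := fun D T h => lf_of_chk h (mem_cons (W2797 D T h) (mem_cons (W432 D T h) (mem_cons (W158 D T h) (mem_cons (W141 D T h) (mem_cons (W795 D T h) (mem_cons (W2521 D T h) (mem_cons (W1937 D T h) (mem_cons (W1143 D T h) (mem_cons (W5052 D T h) (mem_cons (W2880 D T h) (mem_cons (W4619 D T h) (mem_cons (W1935 D T h) (mem_cons (W1075 D T h) (mem_cons (W1084 D T h) (mem_cons (W2882 D T h) (mem_cons (W2883 D T h) (mem_cons (W1707 D T h) (mem_cons (W2922 D T h) mem_nil)))))))))))))))))) cl1111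
theorem L1112 : LFK l1112 := fun D T h => lf_of_chk h (mem_cons (W37 D T h) mem_nil) cl1112
theorem W5059 : WFK w5059 := fun D T h => wf_of_chk h mem_nil (mem_cons (L1112 D T h) mem_nil) cw5059
theorem W5071 : WFK w5071 := fun D T h => wf_of_chk h mem_nil (mem_cons (L1031 D T h) mem_nil) cw5071
theorem W5072 : WFK w5072 := fun D T h => wf_of_chk h (mem_cons (W3878 D T h) (mem_cons (W16 D T h) mem_nil)) mem_nil cw5072
theorem W5078 : WFK w5078 := fun D T h => wf_of_chk h mem_nil (mem_cons (L782 D T h) mem_nil) cw5078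
theorem W5080 : WFK w5080 := fun D T h => wf_of_chk h (mem_cons (W726 D T h) (mem_cons (W368 D T h) mem_nil)) mem_nil cw5080
theorem L1118 : LFK l1118 := fun D T h => lf_of_chk h (mem_cons (W4289 D T h) (mem_cons (W10 D T h) (mem_cons (W1244 D T h) (mem_cons (W2047 D T h) (mem_cons (W40 D T h) (mem_cons (W865 D T h) (mem_cons (W2764 D T h) (mem_cons (W3760 D T h) (mem_cons (W173 D T h) (mem_cons (W1086 D T h) (mem_cons (W8 D T h) (mem_cons (W33 D T h) mem_nil)))))))))))) cl1118
theorem W5081 : WFK w5081 := fun D T h => wf_of_chk h mem_nil (mem_cons (L1118 D T h) mem_nil) cw5081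
theorem W5082 : WFK w5082 := fun D T h => wf_of_chk h (mem_cons (W164 D T h) (mem_cons (W368 D T h) mem_nil)) mem_nil cw5082
theorem W5083 : WFK w5083 := fun D T h => wf_of_chk h (mem_cons (W1231 D T h) (mem_cons (W368 D T h) mem_nil)) mem_nil cw5083
theorem W5084 : WFK w5084 := fun D T h => wf_of_chk h (mem_cons (W50 D T h) (mem_cons (W368 D T h) mem_nil)) mem_nil cw5084
theorem W5085 : WFK w5085 := fun D T h => wf_of_chk h (mem_cons (W368 D T h) mem_nil) mem_nil cw5085
theorem L1119 : LFK l1119 := fun D T h => lf_of_chk h (mem_cons (W267 D T h) (mem_cons (W1919 D T h) (mem_cons (W368 D T h) (mem_cons (W3 D T h) (mem_cons (W39 D T h) (mem_cons (W2357 D T h) (mem_cons (W652 D T h) (mem_cons (W2359 D T h) (mem_cons (W5085 D T h) (mem_cons (W865 D T h) (mem_cons (W256 D T h) (mem_cons (W1272 D T h) (mem_cons (W255 D T h) (mem_cons (W257 D T h) (mem_cons (W4296 D T h) (mem_cons (W263 D T h) (mem_cons (W1535 D T h) (mem_cons (W390 D T h) mem_nil)))))))))))))))))) cl1119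
theorem W5086 : WFK w5086 := fun D T h => wf_of_chk h mem_nil (mem_cons (L1119 D T h) mem_nil) cw5086
theorem W5087 : WFK w5087 := fun D T h => wf_of_chk h (mem_cons (W368 D T h) mem_nil) mem_nil cw5087
theorem L1120 : LFK l1120 := fun D T h => lf_of_chk h (mem_cons (W721 D T h) (mem_cons (W1919 D T h) (mem_cons (W370 D T h) (mem_cons (W3 D T h) (mem_cons (W39 D T h) (mem_cons (W2351 D T h) (mem_cons (W750 D T h) (mem_cons (W2353 D T h) (mem_cons (W5087 D T h) (mem_cons (W1086 D T h) (mem_cons (W746 D T h) (mem_cons (W258 D T h) (mem_cons (W747 D T h) (mem_cons (W748 D T h) (mem_cons (W4296 D T h) (mem_cons (W263 D T h) (mem_cons (W281 D T h) (mem_cons (W762 D T h) (mem_cons (W815 D T h) mem_nil))))))))))))))))))) cl1120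
theorem W5088 : WFK w5088 := fun D T h => wf_of_chk h mem_nil (mem_cons (L1120 D T h) mem_nil) cw5088
theorem W5089 : WFK w5089 := fun D T h => wf_of_chk h mem_nil (mem_cons (L281 D T h) mem_nil) cw5089
theorem W5090 : WFK w5090 := fun D T h => wf_of_chk h mem_nil (mem_cons (L281 D T h) mem_nil) cw5090
theorem L1121 : LFK l1121 := fun D T h => lf_of_chk h (mem_cons (W3523 D T h) (mem_cons (W177 D T h) (mem_cons (W368 D T h) (mem_cons (W50 D T h) (mem_cons (W14 D T h) (mem_cons (W760 D T h) (mem_cons (W3335 D T h) (mem_cons (W3169 D T h) (mem_cons (W759 D T h) (mem_cons (W5080 D T h) (mem_cons (W5081 D T h) (mem_cons (W851 D T h) (mem_cons (W42 D T h) (mem_cons (W4291 D T h) (mem_cons (W2159 D T h) (mem_cons (W5082 D T h) (mem_cons (W5083 D T h) (mem_cons (W5084 D T h) (mem_cons (W2347 D T h) (mem_cons (W1931 D T h) (mem_cons (W5086 D T h) (mem_cons (W4248 D T h) (mem_cons (W5088 D T h) (mem_cons (W2520 D T h) (mem_cons (W3156 D T h) (mem_cons (W5089 D T h) (mem_cons (W5090 D T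 h) mem_nil))))))))))))))))))))))))))) cl1121
theorem W5091 : WFK w5091 := fun D T h => wf_of_chk h mem_nil (mem_cons (L1121 D T h) mem_nil) cw5091
theorem W5092 : WFK w5092 := fun D T h => wf_of_chk h mem_nil (mem_cons (L1121 D T h) mem_nil) cw5092
theorem W5093 : WFK w5093 := fun D T h => wf_of_chk h mem_nil (mem_cons (L1121 D T h) mem_nil) cw5093
theorem W5094 : WFK w5094 := fun D T h => wf_of_chk h (mem_cons (W2027 D T h) (mem_cons (W368 D T h) mem_nil)) mem_nil cw5094
theorem W5095 : WFK w5095 := fun D T h => wf_of_chk h (mem_cons (W2027 D T h) (mem_cons (W368 D T h) mem_nil)) mem_nil cw5095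
theorem W5096 : WFK w5096 := fun D T h => wf_of_chk h (mem_cons (W2892 D T h) (mem_cons (W37 D T h) mem_nil)) mem_nil cw5096
theorem W5097 : WFK w5097 := fun D T h => wf_of_chk h (mem_cons (W368 D T h) mem_nil) mem_nil cw5097
theorem L1122 : LFK l1122 := fun D T h => lf_of_chk h (mem_cons (W4273 D T h) (mem_cons (W42 D T h) (mem_cons (W16 D T h) (mem_cons (W4313 D T h) (mem_cons (W2682 D T h) (mem_cons (W15 D T h) (mem_cons (W5097 D T h) (mem_cons (W2795 D T h) (mem_cons (W1347 D T h) (mem_cons (W1348 D T h) (mem_cons (W799 D T h) (mem_cons (W3766 D T h) (mem_cons (W1689 D T h) (mem_cons (W1193 D T h) (mem_cons (W815 D T h) (mem_cons (W1690 D T h) mem_nil)))))))))))))))) cl1122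
theorem W5098 : WFK w5098 := fun D T h => wf_of_chk h mem_nil (mem_cons (L1122 D T h) mem_nil) cw5098
theorem W5099 : WFK w5099 := fun D T h => wf_of_chk h (mem_cons (W1211 D T h) (mem_cons (W368 D T h) mem_nil)) mem_nil cw5099
theorem W5100 : WFK w5100 := fun D T h => wf_of_chk h (mem_cons (W2042 D T h) (mem_cons (W368 D T h) mem_nil)) mem_nil cw5100
theorem W5101 : WFK w5101 := fun D T h => wf_of_chk h (mem_cons (W1153 D T h) (mem_cons (W368 D T h) mem_nil)) mem_nil cw5101
theorem W5102 : WFK w5102 := fun D T h => wf_of_chk h mem_nil (mem_cons (L643 D T h) mem_nil) cw5102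
theorem W5103 : WFK w5103 := fun D T h => wf_of_chk h mem_nil (mem_cons (L643 D T h) mem_nil) cw5103
theorem L1123 : LFK l1123 := fun D T h => lf_of_chk h (mem_cons (W3207 D T h) (mem_cons (W177 D T h) (mem_cons (W1254 D T h) (mem_cons (W1033 D T h) (mem_cons (W3598 D T h) (mem_cons (W3599 D T h) (mem_cons (W3597 D T h) (mem_cons (W804 D T h) (mem_cons (W37 D T h) (mem_cons (W1408 D T h) (mem_cons (W3600 D T h) (mem_cons (W759 D T h) (mem_cons (W3335 D T h) (mem_cons (W3601 D T h) (mem_cons (W3570 D T h) (mem_cons (W2368 D T h) (mem_cons (W3766 D T h) (mem_cons (W3416 D T h) (mem_cons (W3591 D T h) (mem_cons (W3592 D T h) (mem_cons (W3594 D T h) mem_nil))))))))))))))))))))) cl1123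
theorem W5104 : WFK w5104 := fun D T h => wf_of_chk h mem_nil (mem_cons (L1123 D T h) mem_nil) cw5104
theorem L1124 : LFK l1124 := fun D T h => lf_of_chk h (mem_cons (W3521 D T h) (mem_cons (W37 D T h) (mem_cons (W368 D T h) (mem_cons (W804 D T h) (mem_cons (W1309 D T h) (mem_cons (W3505 D T h) (mem_cons (W2186 D T h) (mem_cons (W5098 D T h) (mem_cons (W3610 D T h) (mem_cons (W2893 D T h) (mem_cons (W5096 D T h) (mem_cons (W5099 D T h) (mem_cons (W284 D T h) (mem_cons (W1213 D T h) (mem_cons (W5100 D T h) (mem_cons (W5101 D T h) (mem_cons (W3523 D T h) (mem_cons (W5091 D T h) (mem_cons (W5092 D T h) (mem_cons (W5093 D T h) (mem_cons (W3514 D T h) (mem_cons (W2346 D T h) (mem_cons (W1690 D T h) (mem_cons (W3543 D T h) (mem_cons (W5094 D T h) (mem_cons (W5095 D T h) (mem_cons (W3207 D T h) (mem_cons (W3271 D T h) (mem_cons (W3273 D T h) (mem_cons (W3563 D T h) (mem_cons (W2004 D T h) (mem_cons (W5104 D T h) (mem_cons (W788 D T h) (mem_cons (W3611 D T h) mem_nil))))))))))))))))))))))))))))))))))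 cl1124
theorem W5105 : WFK w5105 := fun D T h => wf_of_chk h mem_nil (mem_cons (L1124 D T h) mem_nil) cw5105
theorem L1125 : LFK l1125 := fun D T h => lf_of_chk h (mem_cons (W128 D T h) (mem_cons (W37 D T h) (mem_cons (W581 D T h) (mem_cons (W1065 D T h) (mem_cons (W1067 D T h) (mem_cons (W2795 D T h) (mem_cons (W1192 D T h) (mem_cons (W4038 D T h) (mem_cons (W1298 D T h) (mem_cons (W3199 D T h) (mem_cons (W1209 D T h) (mem_cons (W5105 D T h) (mem_cons (W15 D T h) (mem_cons (W219 D T h) (mem_cons (W1064 D T h) mem_nil))))))))))))))) cl1125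
theorem W5106 : WFK w5106 := fun D T h => wf_of_chk h mem_nil (mem_cons (L1125 D T h) mem_nil) cw5106
theorem W5109 : WFK w5109 := fun D T h => wf_of_chk h mem_nil (mem_cons (L948 D T h) mem_nil) cw5109
theorem W5110 : WFK w5110 := fun D T h => wf_of_chk h mem_nil (mem_cons (L948 D T h) mem_nil) cw5110
theorem L1135 : LFK l1135 := fun D T h => lf_of_chk h (mem_cons (W15 D T h) (mem_cons (W1 D T h) (mem_cons (W6 D T h) (mem_cons (W91 D T h) (mem_cons (W638 D T h) (mem_cons (W281 D T h) (mem_cons (W152 D T h) mem_nil))))))) cl1135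
theorem W5131 : WFK w5131 := fun D T h => wf_of_chk h mem_nil (mem_cons (L1135 D T h) mem_nil) cw5131
theorem W5132 : WFK w5132 := fun D T h => wf_of_chk h mem_nil (mem_cons (L297 D T h) mem_nil) cw5132
theorem W5133 : WFK w5133 := fun D T h => wf_of_chk h mem_nil (mem_cons (L342 D T h) mem_nil) cw5133
theorem W5134 : WFK w5134 := fun D T h => wf_of_chk h mem_nil (mem_cons (L297 D T h) mem_nil) cw5134
theorem W5136 : WFK w5136 := fun D T h => wf_of_chk h mem_nil (mem_cons (L595 D T h) mem_nil) cw5136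
theorem W5137 : WFK w5137 := fun D T h => wf_of_chk h mem_nil (mem_cons (L104 D T h) mem_nil) cw5137
theorem W5140 : WFK w5140 := fun D T h => wf_of_chk h mem_nil (mem_cons (L630 D T h) mem_nil) cw5140
theorem W5146 : WFK w5146 := fun D T h => wf_of_chk h mem_nil (mem_cons (L1135 D T h) mem_nil) cw5146
theorem W5157 : WFK w5157 := fun D T h => wf_of_chk h mem_nil (mem_cons (L878 D T h) mem_nil) cw5157
theorem W5158 : WFK w5158 := fun D T h => wf_of_chk h mem_nil (mem_cons (L878 D T h) mem_nil) cw5158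
theorem W5159 : WFK w5159 := fun D T h => wf_of_chk h mem_nil (mem_cons (L878 D T h) mem_nil) cw5159
theorem W5161 : WFK w5161 := fun D T h => wf_of_chk h mem_nil (mem_cons (L1073 D T h) mem_nil) cw5161
theorem W5165 : WFK w5165 := fun D T h => wf_of_chk h mem_nil mem_nil cw5165
theorem W5174 : WFK w5174 := fun D T h => wf_of_chk h mem_nil (mem_cons (L158 D T h) mem_nil) cw5174
theorem L1140 : LFK l1140 := fun D T h => lf_of_chk h (mem_cons (W17 D T h) (mem_cons (W946 D T h) (mem_cons (W495 D T h) (mem_cons (W202 D T h) (mem_cons (W203 D T h) (mem_cons (W3 D T h) (mem_cons (W5174 D T h) (mem_cons (W1222 D T h) (mem_cons (W199 D T h) (mem_cons (W200 D T h) (mem_cons (W201 D T h) mem_nil))))))))))) cl1140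
theorem W5176 : WFK w5176 := fun D T h => wf_of_chk h mem_nil (mem_cons (L129 D T h) mem_nil) cw5176
theorem L1141 : LFK l1141 := fun D T h => lf_of_chk h (mem_cons (W2015 D T h) mem_nil) cl1141
theorem W5177 : WFK w5177 := fun D T h => wf_of_chk h mem_nil (mem_cons (L1141 D T h) mem_nil) cw5177
theorem L1142 : LFK l1142 := fun D T h => lf_of_chk h (mem_cons (W41 D T h) (mem_cons (W581 D T h) (mem_cons (W32 D T h) (mem_cons (W3 D T h) (mem_cons (W750 D T h) (mem_cons (W2902 D T h) (mem_cons (W40 D T h) (mem_cons (W15 D T h) (mem_cons (W381 D T h) (mem_cons (W3019 D T h) (mem_cons (W46 D T h) (mem_cons (W55 D T h) (mem_cons (W44 D T h) (mem_cons (W45 D T h) mem_nil)))))))))))))) cl1142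
theorem W5178 : WFK w5178 := fun D T h => wf_of_chk h mem_nil (mem_cons (L1142 D T h) mem_nil) cw5178
theorem W5186 : WFK w5186 := fun D T h => wf_of_chk h mem_nil (mem_cons (L21 D T h) mem_nil) cw5186
theorem W5187 : WFK w5187 := fun D T h => wf_of_chk h mem_nil (mem_cons (L24 D T h) mem_nil) cw5187
theorem W5188 : WFK w5188 := fun D T h => wf_of_chk h mem_nil (mem_cons (L891 D T h) mem_nil) cw5188
theorem W5189 : WFK w5189 := fun D T h => wf_of_chk h mem_nil (mem_cons (L84 D T h) mem_nil) cw5189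
theorem W5190 : WFK w5190 := fun D T h => wf_of_chk h mem_nil (mem_cons (L778 D T h) mem_nil) cw5190
theorem L1145 : LFK l1145 := fun D T h => lf_of_chk h (mem_cons (W267 D T h) (mem_cons (W42 D T h) (mem_cons (W162 D T h) (mem_cons (W3 D T h) (mem_cons (W39 D T h) (mem_cons (W260 D T h) (mem_cons (W652 D T h) (mem_cons (W262 D T h) (mem_cons (W5190 D T h) (mem_cons (W265 D T h) (mem_cons (W255 D T h) (mem_cons (W256 D T h) (mem_cons (W1272 D T h) (mem_cons (W4403 D T h) (mem_cons (W259 D T h) (mem_cons (W1535 D T h) (mem_cons (W263 D T h) (mem_cons (W1620 D T h) mem_nil)))))))))))))))))) cl1145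
theorem W5191 : WFK w5191 := fun D T h => wf_of_chk h mem_nil (mem_cons (L1145 D T h) mem_nil) cw5191
theorem L1146 : LFK l1146 := fun D T h => lf_of_chk h (mem_cons (W1298 D T h) (mem_cons (W37 D T h) (mem_cons (W126 D T h) (mem_cons (W368 D T h) (mem_cons (W267 D T h) (mem_cons (W721 D T h) (mem_cons (W114 D T h) (mem_cons (W702 D T h) (mem_cons (W703 D T h) (mem_cons (W5191 D T h) (mem_cons (W1643 D T h) (mem_cons (W1061 D T h) (mem_cons (W2714 D T h) (mem_cons (W4399 D T h) (mem_cons (W5187 D T h) (mem_cons (W936 D T h) (mem_cons (W3999 D T h) (mem_cons (W3950 D T h) (mem_cons (W5188 D T h) (mem_cons (W4276 D T h) (mem_cons (W195 D T h) (mem_cons (W4278 D T h) (mem_cons (W5186 D T h) (mem_cons (W1295 D T h) (mem_cons (W1 D T h) (mem_cons (W5189 D T h) (mem_cons (W69 D T h) mem_nil))))))))))))))))))))))))))) cl1146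
theorem W5192 : WFK w5192 := fun D T h => wf_of_chk h mem_nil (mem_cons (L1146 D T h) mem_nil) cw5192
theorem L1147 : LFK l1147 := fun D T h => lf_of_chk h (mem_cons (W3766 D T h) (mem_cons (W50 D T h) (mem_cons (W1 D T h) (mem_cons (W368 D T h) (mem_cons (W1325 D T h) (mem_cons (W170 D T h) (mem_cons (W1326 D T h) (mem_cons (W1554 D T h) (mem_cons (W581 D T h) (mem_cons (W3878 D T h) (mem_cons (W3 D T h) (mem_cons (W461 D T h) (mem_cons (W39 D T h) (mem_cons (W42 D T h) (mem_cons (W181 D T h) mem_nil))))))))))))))) cl1147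
theorem W5194 : WFK w5194 := fun D T h => wf_of_chk h mem_nil (mem_cons (L1147 D T h) mem_nil) cw5194
theorem W5197 : WFK w5197 := fun D T h => wf_of_chk h (mem_cons (W16 D T h) (mem_cons (W50 D T h) mem_nil)) mem_nil cw5197
theorem W5208 : WFK w5208 := fun D T h => wf_of_chk h (mem_cons (W1362 D T h) (mem_cons (W16 D T h) mem_nil)) mem_nil cw5208

end Pool.Agent.W319.GCI.K5
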