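import Pool.Agent.W319.GCI.K5A4
set_option autoImplicit false
set_option maxRecDepth 100000
set_option linter.all false
namespace Pool.Agent.W319.GCI.K5
open Pool.Agent.W319.GCI

theorem W5209 : WFK w5209 := fun D T h => wf_of_chk h (mem_cons (W164 D T h) (mem_cons (W16 D T h) mem_nil)) mem_nil cw5209
theorem W5210 : WFK w5210 := fun D T h => wf_of_chk h (mem_cons (W42 D T h) (mem_cons (W16 D T h) mem_nil)) mem_nil cw5210
theorem W5211 : WFK w5211 := fun D T h => wf_of_chk h (mem_cons (W220 D T h) (mem_cons (W16 D T h) mem_nil)) mem_nil cw5211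
theorem W5212 : WFK w5212 := fun D T h => wf_of_chk h (mem_cons (W220 D T h) (mem_cons (W16 D T h) mem_nil)) mem_nil cw5212
theorem L1153 : LFK l1153 := fun D T h => lf_of_chk h (mem_cons (W15 D T h) (mem_cons (W281 D T h) (mem_cons (W152 D T h) (mem_cons (W1 D T h) (mem_cons (W7 D T h) (mem_cons (W91 D T h) (mem_cons (W638 D T h) mem_nil))))))) cl1153
theorem W5213 : WFK w5213 := fun D T h => wf_of_chk h mem_nil (mem_cons (L1153 D T h) mem_nil) cw5213
theorem W5216 : WFK w5216 := fun D T h => wf_of_chk h mem_nil (mem_cons (L307 D T h) mem_nil) cw5216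
theorem W5222 : WFK w5222 := fun D T h => wf_of_chk h mem_nil (mem_cons (L788 D T h) mem_nil) cw5222
theorem W5223 : WFK w5223 := fun D T h => wf_of_chk h (mem_cons (W128 D T h) (mem_cons (W16 D T h) mem_nil)) mem_nil cw5223
theorem L1155 : LFK l1155 := fun D T h => lf_of_chk h (mem_cons (W15 D T h) (mem_cons (W281 D T h) (mem_cons (W152 D T h) (mem_cons (W1 D T h) (mem_cons (W8 D T h) (mem_cons (W91 D T h) (mem_cons (W638 D T h) mem_nil))))))) cl1155
theorem W5227 : WFK w5227 := fun D T h => wf_of_chk h mem_nil (mem_cons (L297 D T h) mem_nil) cw5227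
theorem L1163 : LFK l1163 := fun D T h => lf_of_chk h (mem_cons (W676 D T h) (mem_cons (W284 D T h) (mem_cons (W1 D T h) (mem_cons (W16 D T h) (mem_cons (W618 D T h) (mem_cons (W505 D T h) (mem_cons (W3878 D T h) (mem_cons (W281 D T h) (mem_cons (W370 D T h) (mem_cons (W4262 D T h) (mem_cons (W390 D T h) (mem_cons (W3791 D T h) (mem_cons (W341 D T h) (mem_cons (W1635 D T h) (mem_cons (W1697 D T h) mem_nil))))))))))))))) cl1163
theorem W5240 : WFK w5240 := fun D T h => wf_of_chk h (mem_cons (W50 D T h) (mem_cons (W16 D T h) mem_nil)) mem_nil cw5240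
theorem W5247 : WFK w5247 := fun D T h => wf_of_chk h (mem_cons (W16 D T h) mem_nil) mem_nil cw5247
theorem W5248 : WFK w5248 := fun D T h => wf_of_chk h (mem_cons (W128 D T h) (mem_cons (W16 D T h) mem_nil)) mem_nil cw5248
theorem W5250 : WFK w5250 := fun D T h => wf_of_chk h (mem_cons (W16 D T h) mem_nil) mem_nil cw5250
theorem L1165 : LFK l1165 := fun D T h => lf_of_chk h (mem_cons (W91 D T h) (mem_cons (W16 D T h) (mem_cons (W802 D T h) (mem_cons (W4 D T h) (mem_cons (W33 D T h) (mem_cons (W248 D T h) (mem_cons (W9 D T h) (mem_cons (W87 D T h) (mem_cons (W619 D T h) (mem_cons (W675 D T h) (mem_cons (W1679 D T h) mem_nil))))))))))) cl1165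
theorem W5251 : WFK w5251 := fun D T h => wf_of_chk h mem_nil (mem_cons (L1165 D T h) mem_nil) cw5251
theorem W5255 : WFK w5255 := fun D T h => wf_of_chk h (mem_cons (W1064 D T h) (mem_cons (W16 D T h) mem_nil)) mem_nil cw5255
theorem W5258 : WFK w5258 := fun D T h => wf_of_chk h mem_nil (mem_cons (L878 D T h) mem_nil) cw5258
theorem W5259 : WFK w5259 := fun D T h => wf_of_chk h (mem_cons (W3016 D T h) (mem_cons (W284 D T h) mem_nil)) mem_nil cw5259
theorem L1167 : LFK l1167 := fun D T h => lf_of_chk h (mem_cons (W721 D T h) (mem_cons (W164 D T h) (mem_cons (W126 D T h) (mem_cons (W1409 D T h) (mem_cons (W39 D T h) (mem_cons (W1412 D T h) (mem_cons (W3 D T h) (mem_cons (W750 D T h) (mem_cons (W1297 D T h) (mem_cons (W1139 D T h) (mem_cons (W3965 D T h) (mem_cons (W1560 D T h) (mem_cons (W815 D T h) (mem_cons (W5250 D T h) (mem_cons (W747 D T h) (mem_cons (W258 D T h) (mem_cons (W746 D T h) (mem_cons (W748 D T h) (mem_cons (W3284 D T h) mem_nil))))))))))))))))))) cl1167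
theorem W5267 : WFK w5267 := fun D T h => wf_of_chk h mem_nil (mem_cons (L1167 D T h) mem_nil) cw5267
theorem W5273 : WFK w5273 := fun D T h => wf_of_chk h mem_nil (mem_cons (L763 D T h) mem_nil) cw5273
theorem L1170 : LFK l1170 := fun D T h => lf_of_chk h (mem_cons (W581 D T h) (mem_cons (W2914 D T h) (mem_cons (W126 D T h) (mem_cons (W12 D T h) (mem_cons (W1616 D T h) (mem_cons (W1129 D T h) (mem_cons (W1 D T h) (mem_cons (W368 D T h) (mem_cons (W140 D T h) (mem_cons (W141 D T h) (mem_cons (W1128 D T h) (mem_cons (W1070 D T h) (mem_cons (W255 D T h) (mem_cons (W747 D T h) (mem_cons (W160 D T h) (mem_cons (W871 D T h) mem_nil)))))))))))))))) cl1170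
theorem W5277 : WFK w5277 := fun D T h => wf_of_chk h mem_nil (mem_cons (L1170 D T h) mem_nil) cw5277
theorem W5278 : WFK w5278 := fun D T h => wf_of_chk h (mem_cons (W16 D T h) (mem_cons (W2930 D T h) mem_nil)) mem_nil cw5278
theorem W5279 : WFK w5279 := fun D T h => wf_of_chk h (mem_cons (W69 D T h) (mem_cons (W16 D T h) mem_nil)) mem_nil cw5279
theorem W5280 : WFK w5280 := fun D T h => wf_of_chk h (mem_cons (W2930 D T h) mem_nil) mem_nil cw5280
theorem W5281 : WFK w5281 := fun D T h => wf_of_chk h (mem_cons (W220 D T h) (mem_cons (W2930 D T h) mem_nil)) mem_nil cw5281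
theorem L1171 : LFK l1171 := fun D T h => lf_of_chk h mem_nil cl1171
theorem W5282 : WFK w5282 := fun D T h => wf_of_chk h mem_nil (mem_cons (L1171 D T h) mem_nil) cw5282
theorem L1172 : LFK l1172 := fun D T h => lf_of_chk h (mem_cons (W39 D T h) (mem_cons (W633 D T h) (mem_cons (W216 D T h) (mem_cons (W5282 D T h) (mem_cons (W2072 D T h) (mem_cons (W648 D T h) (mem_cons (W1271 D T h) (mem_cons (W243 D T h) (mem_cons (W4116 D T h) mem_nil))))))))) cl1172
theorem W5283 : WFK w5283 := fun D T h => wf_of_chk h mem_nil (mem_cons (L1172 D T h) mem_nil) cw5283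
theorem L1173 : LFK l1173 := fun D T h => lf_of_chk h (mem_cons (W3274 D T h) (mem_cons (W520 D T h) (mem_cons (W12 D T h) (mem_cons (W17 D T h) (mem_cons (W759 D T h) (mem_cons (W5283 D T h) (mem_cons (W109 D T h) (mem_cons (W3518 D T h) (mem_cons (W2686 D T h) (mem_cons (W629 D T h) (mem_cons (W603 D T h) mem_nil))))))))))) cl1173
theorem W5284 : WFK w5284 := fun D T h => wf_of_chk h mem_nil (mem_cons (L1173 D T h) mem_nil) cw5284
theorem L1174 : LFK l1174 := fun D T h => lf_of_chk h (mem_cons (W2015 D T h) (mem_cons (W5284 D T h) (mem_cons (W16 D T h) (mem_cons (W2452 D T h) (mem_cons (W581 D T h) (mem_cons (W433 D T h) (mem_cons (W3356 D T h) (mem_cons (W3878 D T h) (mem_cons (W1919 D T h) (mem_cons (W1929 D T h) (mem_cons (W3433 D T h) mem_nil))))))))))) cl1174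
theorem W5285 : WFK w5285 := fun D T h => wf_of_chk h mem_nil (mem_cons (L1174 D T h) mem_nil) cw5285
theorem W5286 : WFK w5286 := fun D T h => wf_of_chk h (mem_cons (W2930 D T h) mem_nil) mem_nil cw5286
theorem L1175 : LFK l1175 := fun D T h => lf_of_chk h (mem_cons (W2015 D T h) (mem_cons (W5279 D T h) (mem_cons (W2930 D T h) (mem_cons (W23 D T h) (mem_cons (W1351 D T h) (mem_cons (W1919 D T h) (mem_cons (W85 D T h) (mem_cons (W1929 D T h) (mem_cons (W5280 D T h) (mem_cons (W1932 D T h) (mem_cons (W581 D T h) (mem_cons (W3356 D T h) (mem_cons (W433 D T h) (mem_cons (W5286 D T h) mem_nil)))))))))))))) cl1175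
theorem W5287 : WFK w5287 := fun D T h => wf_of_chk h mem_nil (mem_cons (L1175 D T h) mem_nil) cw5287
theorem W5288 : WFK w5288 := fun D T h => wf_of_chk h mem_nil (mem_cons (L346 D T h) mem_nil) cw5288
theorem L1176 : LFK l1176 := fun D T h => lf_of_chk h (mem_cons (W39 D T h) (mem_cons (W67 D T h) (mem_cons (W86 D T h) (mem_cons (W5288 D T h) (mem_cons (W389 D T h) (mem_cons (W648 D T h) (mem_cons (W745 D T h) (mem_cons (W2072 D T h) (mem_cons (W4116 D T h) mem_nil))))))))) cl1176
theorem W5289 : WFK w5289 := fun D T h => wf_of_chk h mem_nil (mem_cons (L1176 D T h) mem_nil) cw5289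
theorem L1177 : LFK l1177 := fun D T h => lf_of_chk h (mem_cons (W1919 D T h) (mem_cons (W67 D T h) (mem_cons (W143 D T h) (mem_cons (W17 D T h) (mem_cons (W1640 D T h) (mem_cons (W5289 D T h) (mem_cons (W3518 D T h) (mem_cons (W109 D T h) (mem_cons (W1960 D T h) (mem_cons (W140 D T h) (mem_cons (W3274 D T h) (mem_cons (W2690 D T h) mem_nil)))))))))))) cl1177
theorem W5290 : WFK w5290 := fun D T h => wf_of_chk h mem_nil (mem_cons (L1177 D T h) mem_nil) cw5290
theorem W5291 : WFK w5291 := fun D T h => wf_of_chk h (mem_cons (W2930 D T h) mem_nil) mem_nil cw5291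
theorem W5292 : WFK w5292 := fun D T h => wf_of_chk h (mem_cons (W158 D T h) (mem_cons (W2930 D T h) mem_nil)) mem_nil cw5292
theorem W5293 : WFK w5293 := fun D T h => wf_of_chk h (mem_cons (W91 D T h) (mem_cons (W2930 D T h) mem_nil)) mem_nil cw5293
theorem W5295 : WFK w5295 := fun D T h => wf_of_chk h (mem_cons (W3565 D T h) (mem_cons (W16 D T h) mem_nil)) mem_nil cw5295
theorem L1178 : LFK l1178 := fun D T h => lf_of_chk h (mem_cons (W4209 D T h) (mem_cons (W5279 D T h) (mem_cons (W1 D T h) (mem_cons (W23 D T h) (mem_cons (W69 D T h) (mem_cons (W2180 D T h) (mem_cons (W3688 D T h) (mem_cons (W4566 D T h) (mem_cons (W3565 D T h) (mem_cons (W91 D T h) (mem_cons (W3719 D T h) (mem_cons (W80 D T h) (mem_cons (W5292 D T h) (mem_cons (W4259 D T h) (mem_cons (W5293 D T h) (mem_cons (W521 D T h) (mem_cons (W5291 D T h) (mem_cons (W370 D T h) (mem_cons (W111 D T h) (mem_cons (W5295 D T h) mem_nil)))))))))))))))))))) cl1178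
theorem W5296 : WFK w5296 := fun D T h => wf_of_chk h mem_nil (mem_cons (L1178 D T h) mem_nil) cw5296
theorem W5297 : WFK w5297 := fun D T h => wf_of_chk h (mem_cons (W162 D T h) (mem_cons (W2930 D T h) mem_nil)) mem_nil cw5297
theorem W5298 : WFK w5298 := fun D T h => wf_of_chk h (mem_cons (W75 D T h) (mem_cons (W16 D T h) mem_nil)) mem_nil cw5298
theorem W5299 : WFK w5299 := fun D T h => wf_of_chk h (mem_cons (W158 D T h) mem_nil) mem_nil cw5299
theorem W5300 : WFK w5300 := fun D T h => wf_of_chk h (mem_cons (W5299 D T h) (mem_cons (W16 D T h) mem_nil)) mem_nil cw5300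
theorem W5301 : WFK w5301 := fun D T h => wf_of_chk h (mem_cons (W91 D T h) mem_nil) mem_nil cw5301
theorem W5302 : WFK w5302 := fun D T h => wf_of_chk h (mem_cons (W5301 D T h) (mem_cons (W16 D T h) mem_nil)) mem_nil cw5302
theorem W5305 : WFK w5305 := fun D T h => wf_of_chk h (mem_cons (W281 D T h) mem_nil) mem_nil cw5305
theorem W5306 : WFK w5306 := fun D T h => wf_of_chk h (mem_cons (W5305 D T h) (mem_cons (W16 D T h) mem_nil)) mem_nil cw5306
theorem L1179 : LFK l1179 := fun D T h => lf_of_chk h (mem_cons (W4038 D T h) (mem_cons (W1 D T h) (mem_cons (W2378 D T h) (mem_cons (W1108 D T h) (mem_cons (W795 D T h) (mem_cons (W5298 D T h) (mem_cons (W1070 D T h) (mem_cons (W4632 D T h) (mem_cons (W5300 D T h) (mem_cons (W5302 D T h) (mem_cons (W3274 D T h) (mem_cons (W1109 D T h) (mem_cons (W5306 D T h) mem_nil))))))))))))) cl1179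
theorem W5307 : WFK w5307 := fun D T h => wf_of_chk h mem_nil (mem_cons (L1179 D T h) mem_nil) cw5307
theorem W5308 : WFK w5308 := fun D T h => wf_of_chk h mem_nil (mem_cons (L391 D T h) mem_nil) cw5308
theorem W5309 : WFK w5309 := fun D T h => wf_of_chk h (mem_cons (W5308 D T h) (mem_cons (W16 D T h) mem_nil)) mem_nil cw5309
theorem W5310 : WFK w5310 := fun D T h => wf_of_chk h (mem_cons (W1184 D T h) (mem_cons (W16 D T h) mem_nil)) mem_nil cw5310
theorem L1180 : LFK l1180 := fun D T h => lf_of_chk h (mem_cons (W5278 D T h) (mem_cons (W16 D T h) (mem_cons (W2378 D T h) (mem_cons (W5211 D T h) (mem_cons (W434 D T h) (mem_cons (W716 D T h) (mem_cons (W4025 D T h) (mem_cons (W5307 D T h) (mem_cons (W5309 D T h) (mem_cons (W3305 D T h) (mem_cons (W3304 D T h) (mem_cons (W5290 D T h) (mem_cons (W2015 D T h) (mem_cons (W5310 D T h) (mem_cons (W23 D T h) (mem_cons (W5279 D T h) (mem_cons (W5296 D T h) (mem_cons (W2709 D T h) (mem_cons (W5297 D T h) (mem_cons (W2037 D T h) (mem_cons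 (W5280 D T h) (mem_cons (W4392 D T h) (mem_cons (W5281 D T h) (mem_cons (W128 D T h) (mem_cons (W5285 D T h) (mem_cons (W5287 D T h) mem_nil)))))))))))))))))))))))))) cl1180
theorem W5311 : WFK w5311 := fun D T h => wf_of_chk h mem_nil (mem_cons (L1180 D T h) mem_nil) cw5311
theorem L1181 : LFK l1181 := fun D T h => lf_of_chk h (mem_cons (W262 D T h) (mem_cons (W581 D T h) (mem_cons (W368 D T h) (mem_cons (W3 D T h) (mem_cons (W750 D T h) (mem_cons (W2359 D T h) (mem_cons (W260 D T h) (mem_cons (W15 D T h) (mem_cons (W381 D T h) (mem_cons (W3019 D T h) (mem_cons (W258 D T h) (mem_cons (W296 D T h) (mem_cons (W256 D T h) (mem_cons (W4403 D T h) (mem_cons (W2462 D T h) (mem_cons (W281 D T h) (mem_cons (W3148 D T h) (mem_cons (W390 D T h) mem_nil)))))))))))))))))) cl1181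
theorem W5312 : WFK w5312 := fun D T h => wf_of_chk h mem_nil (mem_cons (L1181 D T h) mem_nil) cw5312
theorem L1182 : LFK l1182 := fun D T h => lf_of_chk h (mem_cons (W91 D T h) (mem_cons (W6 D T h) (mem_cons (W1053 D T h) (mem_cons (W3239 D T h) (mem_cons (W1101 D T h) (mem_cons (W243 D T h) (mem_cons (W802 D T h) (mem_cons (W685 D T h) mem_nil)))))))) cl1182
theorem W5313 : WFK w5313 := fun D T h => wf_of_chk h mem_nil (mem_cons (L1182 D T h) mem_nil) cw5313
theorem W5314 : WFK w5314 := fun D T h => wf_of_chk h mem_nil (mem_cons (L29 D T h) mem_nil) cw5314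
theorem L1183 : LFK l1183 := fun D T h => lf_of_chk h (mem_cons (W3274 D T h) (mem_cons (W126 D T h) (mem_cons (W3019 D T h) (mem_cons (W5313 D T h) (mem_cons (W2073 D T h) (mem_cons (W295 D T h) (mem_cons (W1401 D T h) (mem_cons (W2740 D T h) (mem_cons (W5314 D T h) (mem_cons (W3518 D T h) (mem_cons (W603 D T h) (mem_cons (W629 D T h) (mem_cons (W1841 D T h) (mem_cons (W12 D T h) (mem_cons (W520 D T h) mem_nil))))))))))))))) cl1183
theorem W5315 : WFK w5315 := fun D T h => wf_of_chk h mem_nil (mem_cons (L1183 D T h) mem_nil) cw5315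
theorem L1184 : LFK l1184 := fun D T h => lf_of_chk h (mem_cons (W160 D T h) (mem_cons (W1530 D T h) (mem_cons (W381 D T h) mem_nil))) cl1184
theorem W5316 : WFK w5316 := fun D T h => wf_of_chk h mem_nil (mem_cons (L1184 D T h) mem_nil) cw5316
theorem L1185 : LFK l1185 := fun D T h => lf_of_chk h (mem_cons (W160 D T h) (mem_cons (W1530 D T h) (mem_cons (W381 D T h) (mem_cons (W1098 D T h) (mem_cons (W4452 D T h) (mem_cons (W5136 D T h) (mem_cons (W12 D T h) (mem_cons (W979 D T h) (mem_cons (W7 D T h) (mem_cons (W5132 D T h) mem_nil)))))))))) cl1185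
theorem W5317 : WFK w5317 := fun D T h => wf_of_chk h mem_nil (mem_cons (L1185 D T h) mem_nil) cw5317
theorem W5318 : WFK w5318 := fun D T h => wf_of_chk h mem_nil (mem_cons (L1184 D T h) mem_nil) cw5318
theorem W5319 : WFK w5319 := fun D T h => wf_of_chk h mem_nil (mem_cons (L1170 D T h) mem_nil) cw5319
theorem W5320 : WFK w5320 := fun D T h => wf_of_chk h mem_nil (mem_cons (L745 D T h) mem_nil) cw5320
theorem W5321 : WFK w5321 := fun D T h => wf_of_chk h mem_nil (mem_cons (L1170 D T h) mem_nil) cw5321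
theorem L1186 : LFK l1186 := fun D T h => lf_of_chk h (mem_cons (W5213 D T h) (mem_cons (W581 D T h) (mem_cons (W433 D T h) (mem_cons (W3965 D T h) (mem_cons (W5320 D T h) (mem_cons (W5321 D T h) (mem_cons (W5319 D T h) (mem_cons (W152 D T h) (mem_cons (W160 D T h) (mem_cons (W5315 D T h) (mem_cons (W5316 D T h) (mem_cons (W5317 D T h) (mem_cons (W5137 D T h) (mem_cons (W5318 D T h) (mem_cons (W4025 D T h) (mem_cons (W1297 D T h) (mem_cons (W262 D T h) (mem_cons (W871 D T h) (mem_cons (W5131 D T h) mem_nil))))))))))))))))))) cl1186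
theorem W5322 : WFK w5322 := fun D T h => wf_of_chk h mem_nil (mem_cons (L1186 D T h) mem_nil) cw5322
theorem W5323 : WFK w5323 := fun D T h => wf_of_chk h (mem_cons (W667 D T h) (mem_cons (W128 D T h) mem_nil)) mem_nil cw5323
theorem W5324 : WFK w5324 := fun D T h => wf_of_chk h (mem_cons (W50 D T h) (mem_cons (W128 D T h) mem_nil)) mem_nil cw5324
theorem W5325 : WFK w5325 := fun D T h => wf_of_chk h (mem_cons (W50 D T h) (mem_cons (W128 D T h) mem_nil)) mem_nil cw5325
theorem W5326 : WFK w5326 := fun D T h => wf_of_chk h (mem_cons (W669 D T h) (mem_cons (W128 D T h) mem_nil)) mem_nil cw5326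
theorem W5327 : WFK w5327 := fun D T h => wf_of_chk h (mem_cons (W1065 D T h) (mem_cons (W16 D T h) mem_nil)) mem_nil cw5327
theorem W5328 : WFK w5328 := fun D T h => wf_of_chk h (mem_cons (W1067 D T h) (mem_cons (W16 D T h) mem_nil)) mem_nil cw5328
theorem W5329 : WFK w5329 := fun D T h => wf_of_chk h (mem_cons (W1066 D T h) (mem_cons (W16 D T h) mem_nil)) mem_nil cw5329
theorem W5330 : WFK w5330 := fun D T h => wf_of_chk h (mem_cons (W1067 D T h) (mem_cons (W16 D T h) mem_nil)) mem_nil cw5330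
theorem W5331 : WFK w5331 := fun D T h => wf_of_chk h (mem_cons (W158 D T h) (mem_cons (W1070 D T h) mem_nil)) mem_nil cw5331
theorem W5332 : WFK w5332 := fun D T h => wf_of_chk h (mem_cons (W91 D T h) (mem_cons (W1070 D T h) mem_nil)) mem_nil cw5332
theorem W5333 : WFK w5333 := fun D T h => wf_of_chk h mem_nil (mem_cons (L876 D T h) mem_nil) cw5333
theorem L1187 : LFK l1187 := fun D T h => lf_of_chk h (mem_cons (W5158 D T h) (mem_cons (W808 D T h) (mem_cons (W1 D T h) (mem_cons (W91 D T h) (mem_cons (W5331 D T h) (mem_cons (W576 D T h) (mem_cons (W5332 D T h) (mem_cons (W619 D T h) (mem_cons (W603 D T h) (mem_cons (W604 D T h) (mem_cons (W3560 D T h) (mem_cons (W889 D T h) (mem_cons (W1947 D T h) (mem_cons (W5333 D T h) mem_nil)))))))))))))) cl1187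
theorem W5334 : WFK w5334 := fun D T h => wf_of_chk h mem_nil (mem_cons (L1187 D T h) mem_nil) cw5334
theorem L1188 : LFK l1188 := fun D T h => lf_of_chk h (mem_cons (W160 D T h) (mem_cons (W920 D T h) (mem_cons (W3762 D T h) (mem_cons (W1401 D T h) (mem_cons (W1737 D T h) (mem_cons (W852 D T h) (mem_cons (W1402 D T h) (mem_cons (W1550 D T h) (mem_cons (W1120 D T h) (mem_cons (W381 D T h) (mem_cons (W7 D T h) mem_nil))))))))))) cl1188
theorem W5335 : WFK w5335 := fun D T h => wf_of_chk h mem_nil (mem_cons (L1188 D T h) mem_nil) cw5335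
theorem W5336 : WFK w5336 := fun D T h => wf_of_chk h mem_nil (mem_cons (L533 D T h) mem_nil) cw5336
theorem L1189 : LFK l1189 := fun D T h => lf_of_chk h (mem_cons (W923 D T h) (mem_cons (W920 D T h) (mem_cons (W852 D T h) (mem_cons (W1547 D T h) (mem_cons (W1404 D T h) (mem_cons (W428 D T h) (mem_cons (W5336 D T h) (mem_cons (W7 D T h) (mem_cons (W3086 D T h) mem_nil))))))))) cl1189
theorem W5337 : WFK w5337 := fun D T h => wf_of_chk h mem_nil (mem_cons (L1189 D T h) mem_nil) cw5337
theorem W5338 : WFK w5338 := fun D T h => wf_of_chk h mem_nil (mem_cons (L1189 D T h) mem_nil) cw5338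
theorem W5339 : WFK w5339 := fun D T h => wf_of_chk h mem_nil (mem_cons (L745 D T h) mem_nil) cw5339
theorem L1190 : LFK l1190 := fun D T h => lf_of_chk h (mem_cons (W281 D T h) (mem_cons (W109 D T h) (mem_cons (W7 D T h) (mem_cons (W831 D T h) (mem_cons (W2766 D T h) (mem_cons (W2385 D T h) (mem_cons (W1444 D T h) (mem_cons (W4 D T h) (mem_cons (W1613 D T h) (mem_cons (W33 D T h) (mem_cons (W1027 D T h) mem_nil))))))))))) cl1190
theorem W5340 : WFK w5340 := fun D T h => wf_of_chk h mem_nil (mem_cons (L1190 D T h) mem_nil) cw5340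
theorem W5341 : WFK w5341 := fun D T h => wf_of_chk h mem_nil (mem_cons (L585 D T h) mem_nil) cw5341
theorem W5342 : WFK w5342 := fun D T h => wf_of_chk h (mem_cons (W69 D T h) (mem_cons (W461 D T h) mem_nil)) mem_nil cw5342
theorem L1191 : LFK l1191 := fun D T h => lf_of_chk h (mem_cons (W5321 D T h) (mem_cons (W461 D T h) (mem_cons (W581 D T h) (mem_cons (W433 D T h) (mem_cons (W716 D T h) (mem_cons (W5319 D T h) (mem_cons (W2766 D T h) (mem_cons (W160 D T h) (mem_cons (W5334 D T h) (mem_cons (W923 D T h) (mem_cons (W5335 D T h) (mem_cons (W5337 D T h) (mem_cons (W1924 D T h) (mem_cons (W5338 D T h) (mem_cons (W5339 D T h) (mem_cons (W5340 D T h) (mem_cons (W721 D T h) (mem_cons (W4256 D T h) (mem_cons (W267 D T h) (mem_cons (W871 D T h) (mem_cons (W5341 D T h) (mem_cons (W901 D T h) (mem_cons (W5342 D T h) mem_nil))))))))))))))))))))))) cl1191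
theorem W5343 : WFK w5343 := fun D T h => wf_of_chk h mem_nil (mem_cons (L1191 D T h) mem_nil) cw5343
theorem W5344 : WFK w5344 := fun D T h => wf_of_chk h (mem_cons (W162 D T h) (mem_cons (W128 D T h) mem_nil)) mem_nil cw5344
theorem W5345 : WFK w5345 := fun D T h => wf_of_chk h (mem_cons (W69 D T h) (mem_cons (W284 D T h) mem_nil)) mem_nil cw5345
theorem L1192 : LFK l1192 := fun D T h => lf_of_chk h (mem_cons (W5248 D T h) (mem_cons (W284 D T h) (mem_cons (W2934 D T h) (mem_cons (W5277 D T h) (mem_cons (W16 D T h) (mem_cons (W5311 D T h) (mem_cons (W2254 D T h) (mem_cons (W5343 D T h) (mem_cons (W5344 D T h) (mem_cons (W5312 D T h) (mem_cons (W50 D T h) (mem_cons (W5194 D T h) (mem_cons (W5322 D T h) (mem_cons (W5323 D T h) (mem_cons (W5324 D T h) (mem_cons (W5325 D T h) (mem_cons (W5326 D T h) (mem_cons (W2886 D T h) (mem_cons (W5131 D T h) (mem_cons (W5327 D T h) (mem_cons (W5321 D T h) (mem_cons (W5328 D T h) (mem_cons (W5329 D T h) (mem_cons (W5216 D T h) (mem_cons (W5330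 D T h) (mem_cons (W5267 D T h) (mem_cons (W1651 D T h) (mem_cons (W2015 D T h) (mem_cons (W3201 D T h) (mem_cons (W4397 D T h) (mem_cons (W4414 D T h) (mem_cons (W2037 D T h) (mem_cons (W1676 D T h) (mem_cons (W5255 D T h) (mem_cons (W1063 D T h) (mem_cons (W5345 D T h) mem_nil)))))))))))))))))))))))))))))))))))) cl1192
theorem W5346 : WFK w5346 := fun D T h => wf_of_chk h mem_nil (mem_cons (L1192 D T h) mem_nil) cw5346
theorem W5347 : WFK w5347 := fun D T h => wf_of_chk h mem_nil (mem_cons (L1146 D T h) mem_nil) cw5347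
theorem W5348 : WFK w5348 := fun D T h => wf_of_chk h mem_nil (mem_cons (L864 D T h) mem_nil) cw5348
theorem W5350 : WFK w5350 := fun D T h => wf_of_chk h mem_nil (mem_cons (L861 D T h) mem_nil) cw5350
theorem W5355 : WFK w5355 := fun D T h => wf_of_chk h (mem_cons (W2766 D T h) mem_nil) mem_nil cw5355
theorem W5357 : WFK w5357 := fun D T h => wf_of_chk h mem_nil (mem_cons (L492 D T h) mem_nil) cw5357
theorem L1193 : LFK l1193 := fun D T h => lf_of_chk h mem_nil cl1193
theorem W5358 : WFK w5358 := fun D T h => wf_of_chk h mem_nil (mem_cons (L1193 D T h) mem_nil) cw5358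
theorem W5359 : WFK w5359 := fun D T h => wf_of_chk h mem_nil (mem_cons (L1193 D T h) mem_nil) cw5359
theorem W5360 : WFK w5360 := fun D T h => wf_of_chk h mem_nil (mem_cons (L1054 D T h) mem_nil) cw5360
theorem L1194 : LFK l1194 := fun D T h => lf_of_chk h (mem_cons (W1269 D T h) (mem_cons (W12 D T h) (mem_cons (W5358 D T h) (mem_cons (W3 D T h) (mem_cons (W750 D T h) (mem_cons (W5360 D T h) (mem_cons (W652 D T h) (mem_cons (W2359 D T h) (mem_cons (W768 D T h) (mem_cons (W770 D T h) (mem_cons (W771 D T h) (mem_cons (W5359 D T h) (mem_cons (W1267 D T h) (mem_cons (W767 D T h) mem_nil)))))))))))))) cl1194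
theorem W5363 : WFK w5363 := fun D T h => wf_of_chk h mem_nil (mem_cons (L662 D T h) mem_nil) cw5363
theorem W5364 : WFK w5364 := fun D T h => wf_of_chk h (mem_cons (W2914 D T h) (mem_cons (W5192 D T h) mem_nil)) mem_nil cw5364
theorem L1197 : LFK l1197 := fun D T h => lf_of_chk h (mem_cons (W160 D T h) (mem_cons (W1530 D T h) (mem_cons (W381 D T h) (mem_cons (W1075 D T h) (mem_cons (W5358 D T h) (mem_cons (W1401 D T h) (mem_cons (W12 D T h) (mem_cons (W817 D T h) (mem_cons (W7 D T h) (mem_cons (W1539 D T h) mem_nil)))))))))) cl1197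
theorem W5368 : WFK w5368 := fun D T h => wf_of_chk h mem_nil (mem_cons (L1197 D T h) mem_nil) cw5368
theorem L1198 : LFK l1198 := fun D T h => lf_of_chk h (mem_cons (W152 D T h) (mem_cons (W281 D T h) (mem_cons (W815 D T h) (mem_cons (W1535 D T h) (mem_cons (W431 D T h) (mem_cons (W265 D T h) (mem_cons (W4 D T h) (mem_cons (W1551 D T h) mem_nil)))))))) cl1198
theorem W5370 : WFK w5370 := fun D T h => wf_of_chk h mem_nil (mem_cons (L1198 D T h) mem_nil) cw5370
theorem W5375 : WFK w5375 := fun D T h => wf_of_chk h mem_nil (mem_cons (L1141 D T h) mem_nil) cw5375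
theorem W5376 : WFK w5376 := fun D T h => wf_of_chk h (mem_cons (W103 D T h) mem_nil) mem_nil cw5376
theorem W5377 : WFK w5377 := fun D T h => wf_of_chk h mem_nil (mem_cons (L481 D T h) mem_nil) cw5377
theorem W5378 : WFK w5378 := fun D T h => wf_of_chk h mem_nil (mem_cons (L481 D T h) mem_nil) cw5378
theorem L1201 : LFK l1201 := fun D T h => lf_of_chk h (mem_cons (W2106 D T h) (mem_cons (W161 D T h) (mem_cons (W154 D T h) (mem_cons (W201 D T h) (mem_cons (W554 D T h) (mem_cons (W3 D T h) (mem_cons (W3764 D T h) (mem_cons (W5376 D T h) (mem_cons (W12 D T h) (mem_cons (W13 D T h) (mem_cons (W2103 D T h) (mem_cons (W2104 D T h) (mem_cons (W2105 D T h) (mem_cons (W5377 D T h) (mem_cons (W5378 D T h) (mem_cons (W42 D T h) (mem_cons (W2108 D T h) (mem_cons (W164 D T h) mem_nil)))))))))))))))))) cl1201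
theorem W5379 : WFK w5379 := fun D T h => wf_of_chk h mem_nil (mem_cons (L1201 D T h) mem_nil) cw5379
theorem L1202 : LFK l1202 := fun D T h => lf_of_chk h (mem_cons (W3878 D T h) (mem_cons (W435 D T h) (mem_cons (W5178 D T h) (mem_cons (W1 D T h) (mem_cons (W3016 D T h) (mem_cons (W3207 D T h) (mem_cons (W69 D T h) (mem_cons (W3658 D T h) (mem_cons (W128 D T h) (mem_cons (W126 D T h) (mem_cons (W1636 D T h) (mem_cons (W2766 D T h) (mem_cons (W111 D T h) (mem_cons (W5133 D T h) (mem_cons (W2575 D T h) (mem_cons (W5379 D T h) (mem_cons (W2832 D T h) (mem_cons (W3233 D T h) mem_nil)))))))))))))))))) cl1202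
theorem L1205 : LFK l1205 := fun D T h => lf_of_chk h (mem_cons (W91 D T h) (mem_cons (W6 D T h) (mem_cons (W1053 D T h) (mem_cons (W802 D T h) (mem_cons (W2204 D T h) (mem_cons (W1101 D T h) (mem_cons (W831 D T h) (mem_cons (W243 D T h) mem_nil)))))))) cl1205
theorem W5388 : WFK w5388 := fun D T h => wf_of_chk h mem_nil (mem_cons (L267 D T h) mem_nil) cw5388
theorem W5390 : WFK w5390 := fun D T h => wf_of_chk h mem_nil (mem_cons (L1193 D T h) mem_nil) cw5390
theorem W5391 : WFK w5391 := fun D T h => wf_of_chk h mem_nil (mem_cons (L1193 D T h) mem_nil) cw5391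
theorem L1208 : LFK l1208 := fun D T h => lf_of_chk h (mem_cons (W1273 D T h) (mem_cons (W5358 D T h) (mem_cons (W12 D T h) (mem_cons (W750 D T h) (mem_cons (W3 D T h) (mem_cons (W4605 D T h) (mem_cons (W771 D T h) (mem_cons (W2353 D T h) (mem_cons (W768 D T h) (mem_cons (W3230 D T h) (mem_cons (W1271 D T h) (mem_cons (W5359 D T h) (mem_cons (W767 D T h) mem_nil))))))))))))) cl1208
theorem W5396 : WFK w5396 := fun D T h => wf_of_chk h mem_nil (mem_cons (L670 D T h) mem_nil) cw5396
theorem W5397 : WFK w5397 := fun D T h => wf_of_chk h mem_nil (mem_cons (L360 D T h) mem_nil) cw5397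
theorem W5398 : WFK w5398 := fun D T h => wf_of_chk h mem_nil (mem_cons (L360 D T h) mem_nil) cw5398
theorem W5399 : WFK w5399 := fun D T h => wf_of_chk h mem_nil (mem_cons (L187 D T h) mem_nil) cw5399
theorem L1211 : LFK l1211 := fun D T h => lf_of_chk h (mem_cons (W1532 D T h) (mem_cons (W581 D T h) (mem_cons (W1101 D T h) (mem_cons (W3 D T h) (mem_cons (W750 D T h) (mem_cons (W5399 D T h) (mem_cons (W1531 D T h) (mem_cons (W15 D T h) (mem_cons (W381 D T h) (mem_cons (W3019 D T h) (mem_cons (W3245 D T h) (mem_cons (W5397 D T h) (mem_cons (W1529 D T h) (mem_cons (W5398 D T h) (mem_cons (W41 D T h) mem_nil))))))))))))))) cl1211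
theorem W5400 : WFK w5400 := fun D T h => wf_of_chk h mem_nil (mem_cons (L1211 D T h) mem_nil) cw5400
theorem L1212 : LFK l1212 := fun D T h => lf_of_chk h (mem_cons (W91 D T h) (mem_cons (W211 D T h) (mem_cons (W2204 D T h) (mem_cons (W619 D T h) (mem_cons (W1101 D T h) (mem_cons (W878 D T h) (mem_cons (W817 D T h) (mem_cons (W3153 D T h) (mem_cons (W1535 D T h) mem_nil))))))))) cl1212
theorem W5401 : WFK w5401 := fun D T h => wf_of_chk h mem_nil (mem_cons (L1212 D T h) mem_nil) cw5401
theorem W5406 : WFK w5406 := fun D T h => wf_of_chk h mem_nil (mem_cons (L172 D T h) mem_nil) cw5406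
theorem W5407 : WFK w5407 := fun D T h => wf_of_chk h mem_nil (mem_cons (L1170 D T h) mem_nil) cw5407
theorem L1214 : LFK l1214 := fun D T h => lf_of_chk h (mem_cons (W5401 D T h) (mem_cons (W1101 D T h) (mem_cons (W3019 D T h) (mem_cons (W861 D T h) (mem_cons (W4323 D T h) (mem_cons (W4243 D T h) (mem_cons (W4050 D T h) (mem_cons (W5314 D T h) (mem_cons (W814 D T h) (mem_cons (W91 D T h) (mem_cons (W4326 D T h) mem_nil))))))))))) cl1214
theorem W5409 : WFK w5409 := fun D T h => wf_of_chk h mem_nil (mem_cons (L1214 D T h) mem_nil) cw5409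
theorem W5412 : WFK w5412 := fun D T h => wf_of_chk h mem_nil (mem_cons (L1153 D T h) mem_nil) cw5412
theorem L1217 : LFK l1217 := fun D T h => lf_of_chk h (mem_cons (W915 D T h) (mem_cons (W210 D T h) (mem_cons (W802 D T h) (mem_cons (W33 D T h) (mem_cons (W13 D T h) (mem_cons (W149 D T h) (mem_cons (W1379 D T h) (mem_cons (W1403 D T h) mem_nil)))))))) cl1217
theorem W5415 : WFK w5415 := fun D T h => wf_of_chk h mem_nil (mem_cons (L1217 D T h) mem_nil) cw5415
theorem W5416 : WFK w5416 := fun D T h => wf_of_chk h mem_nil (mem_cons (L1214 D T h) mem_nil) cw5416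
theorem W5417 : WFK w5417 := fun D T h => wf_of_chk h mem_nil (mem_cons (L242 D T h) mem_nil) cw5417
theorem W5418 : WFK w5418 := fun D T h => wf_of_chk h mem_nil (mem_cons (L359 D T h) mem_nil) cw5418
theorem L1218 : LFK l1218 := fun D T h => lf_of_chk h (mem_cons (W160 D T h) (mem_cons (W1530 D T h) (mem_cons (W381 D T h) (mem_cons (W5417 D T h) (mem_cons (W5391 D T h) (mem_cons (W5136 D T h) (mem_cons (W12 D T h) (mem_cons (W5418 D T h) (mem_cons (W192 D T h) (mem_cons (W148 D T h) (mem_cons (W1400 D T h) (mem_cons (W1402 D T h) mem_nil)))))))))))) cl1218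
theorem W5419 : WFK w5419 := fun D T h => wf_of_chk h mem_nil (mem_cons (L1218 D T h) mem_nil) cw5419
theorem W5420 : WFK w5420 := fun D T h => wf_of_chk h mem_nil (mem_cons (L1218 D T h) mem_nil) cw5420
theorem W5421 : WFK w5421 := fun D T h => wf_of_chk h mem_nil (mem_cons (L1218 D T h) mem_nil) cw5421
theorem W5422 : WFK w5422 := fun D T h => wf_of_chk h mem_nil (mem_cons (L184 D T h) mem_nil) cw5422
theorem L1219 : LFK l1219 := fun D T h => lf_of_chk h (mem_cons (W141 D T h) (mem_cons (W1944 D T h) (mem_cons (W861 D T h) (mem_cons (W1101 D T h) (mem_cons (W1531 D T h) (mem_cons (W5406 D T h) (mem_cons (W1673 D T h) (mem_cons (W1143 D T h) (mem_cons (W1400 D T h) (mem_cons (W501 D T h) (mem_cons (W281 D T h) (mem_cons (W784 D T h) (mem_cons (W903 D T h) (mem_cons (W4326 D T h) (mem_cons (W5422 D T h) mem_nil))))))))))))))) cl1219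
theorem W5423 : WFK w5423 := fun D T h => wf_of_chk h mem_nil (mem_cons (L1219 D T h) mem_nil) cw5423
theorem W5424 : WFK w5424 := fun D T h => wf_of_chk h mem_nil (mem_cons (L725 D T h) mem_nil) cw5424
theorem W5425 : WFK w5425 := fun D T h => wf_of_chk h mem_nil (mem_cons (L1198 D T h) mem_nil) cw5425
theorem W5426 : WFK w5426 := fun D T h => wf_of_chk h mem_nil (mem_cons (L984 D T h) mem_nil) cw5426
theorem W5427 : WFK w5427 := fun D T h => wf_of_chk h mem_nil (mem_cons (L1218 D T h) mem_nil) cw5427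
theorem W5428 : WFK w5428 := fun D T h => wf_of_chk h (mem_cons (W69 D T h) (mem_cons (W5415 D T h) mem_nil)) mem_nil cw5428
theorem L1220 : LFK l1220 := fun D T h => lf_of_chk h (mem_cons (W5407 D T h) (mem_cons (W1532 D T h) (mem_cons (W4025 D T h) (mem_cons (W581 D T h) (mem_cons (W5415 D T h) (mem_cons (W140 D T h) (mem_cons (W2353 D T h) (mem_cons (W5424 D T h) (mem_cons (W5425 D T h) (mem_cons (W5426 D T h) (mem_cons (W1193 D T h) (mem_cons (W5427 D T h) (mem_cons (W152 D T h) (mem_cons (W5423 D T h) (mem_cons (W5146 D T h) (mem_cons (W1997 D T h) (mem_cons (W5428 D T h) (mem_cons (W160 D T h) (mem_cons (W5416 D T h) (mem_cons (W5419 D T h) (mem_cons (W5420 D T h) (mem_cons (W5388 D T h) (mem_cons (W5421 D T h) (mem_cons (W871 D T h) (mem_cons (W262 D T h) mem_nil))))))))))))))))))))))))) cl1220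
theorem L1221 : LFK l1221 := fun D T h => lf_of_chk h (mem_cons (W1919 D T h) mem_nil) cl1221
theorem W5432 : WFK w5432 := fun D T h => wf_of_chk h mem_nil (mem_cons (L1221 D T h) mem_nil) cw5432
theorem W5433 : WFK w5433 := fun D T h => wf_of_chk h mem_nil (mem_cons (L447 D T h) mem_nil) cw5433
theorem W5441 : WFK w5441 := fun D T h => wf_of_chk h mem_nil (mem_cons (L663 D T h) mem_nil) cw5441
theorem L1225 : LFK l1225 := fun D T h => lf_of_chk h (mem_cons (W2766 D T h) (mem_cons (W5441 D T h) (mem_cons (W3232 D T h) (mem_cons (W33 D T h) (mem_cons (W3153 D T h) (mem_cons (W4 D T h) (mem_cons (W1994 D T h) (mem_cons (W109 D T h) (mem_cons (W831 D T h) (mem_cons (W9 D T h) mem_nil)))))))))) cl1225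
theorem W5442 : WFK w5442 := fun D T h => wf_of_chk h mem_nil (mem_cons (L1225 D T h) mem_nil) cw5442
theorem W5447 : WFK w5447 := fun D T h => wf_of_chk h mem_nil (mem_cons (L129 D T h) mem_nil) cw5447
theorem W5448 : WFK w5448 := fun D T h => wf_of_chk h mem_nil (mem_cons (L766 D T h) mem_nil) cw5448
theorem W5449 : WFK w5449 := fun D T h => wf_of_chk h mem_nil (mem_cons (L787 D T h) mem_nil) cw5449
theorem W5450 : WFK w5450 := fun D T h => wf_of_chk h mem_nil (mem_cons (L1021 D T h) mem_nil) cw5450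
theorem W5452 : WFK w5452 := fun D T h => wf_of_chk h mem_nil mem_nil cw5452
theorem W5453 : WFK w5453 := fun D T h => wf_of_chk h mem_nil (mem_cons (L823 D T h) mem_nil) cw5453
theorem L1228 : LFK l1228 := fun D T h => lf_of_chk h (mem_cons (W3766 D T h) (mem_cons (W831 D T h) (mem_cons (W396 D T h) (mem_cons (W18 D T h) (mem_cons (W235 D T h) mem_nil))))) cl1228
theorem W5456 : WFK w5456 := fun D T h => wf_of_chk h mem_nil (mem_cons (L1228 D T h) mem_nil) cw5456
theorem L1229 : LFK l1229 := fun D T h => lf_of_chk h (mem_cons (W396 D T h) (mem_cons (W30 D T h) (mem_cons (W2871 D T h) (mem_cons (W922 D T h) (mem_cons (W831 D T h) (mem_cons (W315 D T h) (mem_cons (W412 D T h) (mem_cons (W235 D T h) mem_nil)))))))) cl1229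
theorem W5457 : WFK w5457 := fun D T h => wf_of_chk h mem_nil (mem_cons (L1229 D T h) mem_nil) cw5457
theorem W5458 : WFK w5458 := fun D T h => wf_of_chk h mem_nil (mem_cons (L66 D T h) mem_nil) cw5458
theorem W5459 : WFK w5459 := fun D T h => wf_of_chk h mem_nil (mem_cons (L787 D T h) mem_nil) cw5459
theorem L1230 : LFK l1230 := fun D T h => lf_of_chk h (mem_cons (W396 D T h) (mem_cons (W31 D T h) (mem_cons (W819 D T h) (mem_cons (W831 D T h) (mem_cons (W315 D T h) (mem_cons (W412 D T h) (mem_cons (W235 D T h) mem_nil))))))) cl1230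
theorem W5460 : WFK w5460 := fun D T h => wf_of_chk h mem_nil (mem_cons (L1230 D T h) mem_nil) cw5460
theorem W5464 : WFK w5464 := fun D T h => wf_of_chk h mem_nil (mem_cons (L297 D T h) mem_nil) cw5464
theorem W5465 : WFK w5465 := fun D T h => wf_of_chk h mem_nil (mem_cons (L595 D T h) mem_nil) cw5465
theorem W5469 : WFK w5469 := fun D T h => wf_of_chk h mem_nil (mem_cons (L342 D T h) mem_nil) cw5469
theorem W5471 : WFK w5471 := fun D T h => wf_of_chk h (mem_cons (W16 D T h) mem_nil) mem_nil cw5471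
theorem W5472 : WFK w5472 := fun D T h => wf_of_chk h (mem_cons (W267 D T h) mem_nil) mem_nil cw5472
theorem W5473 : WFK w5473 := fun D T h => wf_of_chk h mem_nil (mem_cons (L807 D T h) mem_nil) cw5473
theorem L1233 : LFK l1233 := fun D T h => lf_of_chk h (mem_cons (W91 D T h) mem_nil) cl1233
theorem W5474 : WFK w5474 := fun D T h => wf_of_chk h mem_nil (mem_cons (L1233 D T h) mem_nil) cw5474
theorem W5475 : WFK w5475 := fun D T h => wf_of_chk h mem_nil (mem_cons (L807 D T h) mem_nil) cw5475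
theorem W5476 : WFK w5476 := fun D T h => wf_of_chk h mem_nil (mem_cons (L807 D T h) mem_nil) cw5476
theorem W5477 : WFK w5477 := fun D T h => wf_of_chk h mem_nil (mem_cons (L812 D T h) mem_nil) cw5477
theorem W5478 : WFK w5478 := fun D T h => wf_of_chk h mem_nil (mem_cons (L1021 D T h) mem_nil) cw5478
theorem W5479 : WFK w5479 := fun D T h => wf_of_chk h mem_nil (mem_cons (L757 D T h) mem_nil) cw5479
theorem W5480 : WFK w5480 := fun D T h => wf_of_chk h mem_nil (mem_cons (L813 D T h) mem_nil) cw5480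
theorem L1234 : LFK l1234 := fun D T h => lf_of_chk h (mem_cons (W1199 D T h) (mem_cons (W114 D T h) (mem_cons (W16 D T h) (mem_cons (W80 D T h) (mem_cons (W142 D T h) (mem_cons (W3473 D T h) (mem_cons (W5473 D T h) (mem_cons (W5480 D T h) (mem_cons (W1011 D T h) (mem_cons (W716 D T h) (mem_cons (W1584 D T h) (mem_cons (W864 D T h) (mem_cons (W2740 D T h) (mem_cons (W92 D T h) (mem_cons (W5474 D T h) (mem_cons (W5475 D T h) (mem_cons (W5476 D T h) (mem_cons (W5477 D T h) (mem_cons (W1139 D T h) (mem_cons (W5478 D T h) (mem_cons (W5472 D T h) (mem_cons (W78 D T h) (mem_cons (W33 D T h) (mem_cons (W391 D T h) (mem_cons (W105 D T h) (mem_cons (W4955 D T h) (mem_cons (W4954 D T h) (mem_cons (W5479 D T h) (mem_cons (W1883 D T h) (mem_cons (W5471 D T h) (mem_cons (W4162 D T h) mem_nil))))))))))))))))))))))))))))))) cl1234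
theorem W5481 : WFK w5481 := fun D T h => wf_of_chk h mem_nil (mem_cons (L1234 D T h) mem_nil) cw5481
theorem W5482 : WFK w5482 := fun D T h => wf_of_chk h mem_nil (mem_cons (L129 D T h) mem_nil) cw5482
theorem W5483 : WFK w5483 := fun D T h => wf_of_chk h mem_nil (mem_cons (L129 D T h) mem_nil) cw5483
theorem W5488 : WFK w5488 := fun D T h => wf_of_chk h mem_nil (mem_cons (L297 D T h) mem_nil) cw5488
theorem W5489 : WFK w5489 := fun D T h => wf_of_chk h mem_nil (mem_cons (L66 D T h) mem_nil) cw5489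
theorem W5490 : WFK w5490 := fun D T h => wf_of_chk h mem_nil (mem_cons (L409 D T h) mem_nil) cw5490
theorem W5491 : WFK w5491 := fun D T h => wf_of_chk h mem_nil (mem_cons (L184 D T h) mem_nil) cw5491
theorem L1237 : LFK l1237 := fun D T h => lf_of_chk h (mem_cons (W4 D T h) (mem_cons (W27 D T h) (mem_cons (W828 D T h) (mem_cons (W26 D T h) (mem_cons (W831 D T h) mem_nil))))) cl1237
theorem W5496 : WFK w5496 := fun D T h => wf_of_chk h mem_nil (mem_cons (L1237 D T h) mem_nil) cw5496
theorem W5499 : WFK w5499 := fun D T h => wf_of_chk h mem_nil (mem_cons (L1008 D T h) mem_nil) cw5499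
theorem L1238 : LFK l1238 := fun D T h => lf_of_chk h mem_nil cl1238
theorem W5500 : WFK w5500 := fun D T h => wf_of_chk h mem_nil (mem_cons (L1238 D T h) mem_nil) cw5500
theorem W5502 : WFK w5502 := fun D T h => wf_of_chk h mem_nil (mem_cons (L430 D T h) mem_nil) cw5502
theorem W5507 : WFK w5507 := fun D T h => wf_of_chk h mem_nil (mem_cons (L1155 D T h) mem_nil) cw5507
theorem W5510 : WFK w5510 := fun D T h => wf_of_chk h mem_nil (mem_cons (L25 D T h) mem_nil) cw5510
theorem W5514 : WFK w5514 := fun D T h => wf_of_chk h mem_nil mem_nil cw5514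
theorem L1244 : LFK l1244 := fun D T h => lf_of_chk h mem_nil cl1244
theorem W5520 : WFK w5520 := fun D T h => wf_of_chk h mem_nil (mem_cons (L1244 D T h) mem_nil) cw5520
theorem W5523 : WFK w5523 := fun D T h => wf_of_chk h mem_nil (mem_cons (L242 D T h) mem_nil) cw5523
theorem W5529 : WFK w5529 := fun D T h => wf_of_chk h mem_nil mem_nil cw5529
theorem L1247 : LFK l1247 := fun D T h => lf_of_chk h mem_nil cl1247
theorem L1248 : LFK l1248 := fun D T h => lf_of_chk h mem_nil cl1248
theorem W5537 : WFK w5537 := fun D T h => wf_of_chk h mem_nil (mem_cons (L1248 D T h) mem_nil) cw5537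
theorem W5545 : WFK w5545 := fun D T h => wf_of_chk h (mem_cons (W16 D T h) (mem_cons (W831 D T h) mem_nil)) mem_nil cw5545
theorem L1251 : LFK l1251 := fun D T h => lf_of_chk h mem_nil cl1251
theorem W5547 : WFK w5547 := fun D T h => wf_of_chk h mem_nil (mem_cons (L1251 D T h) mem_nil) cw5547
theorem L1253 : LFK l1253 := fun D T h => lf_of_chk h mem_nil cl1253
theorem W5553 : WFK w5553 := fun D T h => wf_of_chk h mem_nil (mem_cons (L688 D T h) mem_nil) cw5553
theorem W5565 : WFK w5565 := fun D T h => wf_of_chk h (mem_cons (W50 D T h) (mem_cons (W16 D T h) mem_nil)) mem_nil cw5565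
theorem W5567 : WFK w5567 := fun D T h => wf_of_chk h (mem_cons (W2015 D T h) (mem_cons (W16 D T h) mem_nil)) mem_nil cw5567
theorem W5574 : WFK w5574 := fun D T h => wf_of_chk h (mem_cons (W50 D T h) mem_nil) mem_nil cw5574
theorem W5575 : WFK w5575 := fun D T h => wf_of_chk h mem_nil (mem_cons (L1225 D T h) mem_nil) cw5575
theorem W5576 : WFK w5576 := fun D T h => wf_of_chk h mem_nil (mem_cons (L1 D T h) mem_nil) cw5576
theorem W5577 : WFK w5577 := fun D T h => wf_of_chk h mem_nil (mem_cons (L391 D T h) mem_nil) cw5577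
theorem W5578 : WFK w5578 := fun D T h => wf_of_chk h mem_nil (mem_cons (L81 D T h) mem_nil) cw5578
theorem W5580 : WFK w5580 := fun D T h => wf_of_chk h mem_nil (mem_cons (L143 D T h) mem_nil) cw5580
theorem L1258 : LFK l1258 := fun D T h => lf_of_chk h (mem_cons (W152 D T h) (mem_cons (W1994 D T h) (mem_cons (W281 D T h) (mem_cons (W168 D T h) (mem_cons (W1 D T h) (mem_cons (W15 D T h) (mem_cons (W91 D T h) (mem_cons (W2764 D T h) (mem_cons (W638 D T h) mem_nil))))))))) cl1258
theorem W5581 : WFK w5581 := fun D T h => wf_of_chk h mem_nil (mem_cons (L1258 D T h) mem_nil) cw5581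
theorem L1259 : LFK l1259 := fun D T h => lf_of_chk h (mem_cons (W177 D T h) mem_nil) cl1259
theorem W5582 : WFK w5582 := fun D T h => wf_of_chk h mem_nil (mem_cons (L1259 D T h) mem_nil) cw5582
theorem W5583 : WFK w5583 := fun D T h => wf_of_chk h mem_nil (mem_cons (L25 D T h) mem_nil) cw5583
theorem L1260 : LFK l1260 := fun D T h => lf_of_chk h (mem_cons (W2766 D T h) (mem_cons (W315 D T h) (mem_cons (W831 D T h) (mem_cons (W5583 D T h) (mem_cons (W3134 D T h) mem_nil))))) cl1260
theorem W5585 : WFK w5585 := fun D T h => wf_of_chk h mem_nil (mem_cons (L1258 D T h) mem_nil) cw5585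
theorem W5588 : WFK w5588 := fun D T h => wf_of_chk h mem_nil (mem_cons (L180 D T h) mem_nil) cw5588
theorem W5593 : WFK w5593 := fun D T h => wf_of_chk h (mem_cons (W69 D T h) mem_nil) mem_nil cw5593
theorem W5594 : WFK w5594 := fun D T h => wf_of_chk h (mem_cons (W16 D T h) (mem_cons (W3878 D T h) mem_nil)) mem_nil cw5594
theorem W5595 : WFK w5595 := fun D T h => wf_of_chk h mem_nil (mem_cons (L1008 D T h) mem_nil) cw5595
theorem W5596 : WFK w5596 := fun D T h => wf_of_chk h mem_nil (mem_cons (L1 D T h) mem_nil) cw5596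
theorem W5597 : WFK w5597 := fun D T h => wf_of_chk h mem_nil (mem_cons (L1 D T h) mem_nil) cw5597
theorem L1262 : LFK l1262 := fun D T h => lf_of_chk h (mem_cons (W1994 D T h) (mem_cons (W41 D T h) (mem_cons (W1532 D T h) (mem_cons (W109 D T h) (mem_cons (W281 D T h) (mem_cons (W8 D T h) (mem_cons (W831 D T h) (mem_cons (W1473 D T h) mem_nil)))))))) cl1262
theorem W5599 : WFK w5599 := fun D T h => wf_of_chk h (mem_cons (W16 D T h) (mem_cons (W3878 D T h) mem_nil)) mem_nil cw5599
theorem W5600 : WFK w5600 := fun D T h => wf_of_chk h (mem_cons (W162 D T h) (mem_cons (W3878 D T h) mem_nil)) mem_nil cw5600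
theorem W5601 : WFK w5601 := fun D T h => wf_of_chk h (mem_cons (W16 D T h) (mem_cons (W1929 D T h) mem_nil)) mem_nil cw5601
theorem L1263 : LFK l1263 := fun D T h => lf_of_chk h (mem_cons (W2766 D T h) (mem_cons (W4 D T h) (mem_cons (W315 D T h) (mem_cons (W831 D T h) (mem_cons (W63 D T h) (mem_cons (W852 D T h) mem_nil)))))) cl1263
theorem W5602 : WFK w5602 := fun D T h => wf_of_chk h mem_nil (mem_cons (L1263 D T h) mem_nil) cw5602
theorem W5605 : WFK w5605 := fun D T h => wf_of_chk h mem_nil (mem_cons (L643 D T h) mem_nil) cw5605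
theorem W5606 : WFK w5606 := fun D T h => wf_of_chk h mem_nil (mem_cons (L630 D T h) mem_nil) cw5606
theorem W5608 : WFK w5608 := fun D T h => wf_of_chk h mem_nil (mem_cons (L309 D T h) mem_nil) cw5608
theorem W5611 : WFK w5611 := fun D T h => wf_of_chk h (mem_cons (W284 D T h) (mem_cons (W3878 D T h) mem_nil)) mem_nil cw5611
theorem L1264 : LFK l1264 := fun D T h => lf_of_chk h (mem_cons (W2353 D T h) (mem_cons (W1616 D T h) (mem_cons (W126 D T h) (mem_cons (W3 D T h) (mem_cons (W750 D T h) (mem_cons (W3147 D T h) (mem_cons (W767 D T h) (mem_cons (W2351 D T h) (mem_cons (W2772 D T h) (mem_cons (W3150 D T h) (mem_cons (W3151 D T h) (mem_cons (W1272 D T h) (mem_cons (W746 D T h) (mem_cons (W3152 D T h) (mem_cons (W3142 D T h) (mem_cons (W5399 D T h) mem_nil)))))))))))))))) cl1264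
theorem W5612 : WFK w5612 := fun D T h => wf_of_chk h mem_nil (mem_cons (L1264 D T h) mem_nil) cw5612
theorem W5615 : WFK w5615 := fun D T h => wf_of_chk h (mem_cons (W2766 D T h) mem_nil) mem_nil cw5615
theorem W5619 : WFK w5619 := fun D T h => wf_of_chk h (mem_cons (W2914 D T h) (mem_cons (W5192 D T h) mem_nil)) mem_nil cw5619
theorem L1265 : LFK l1265 := fun D T h => lf_of_chk h (mem_cons (W10 D T h) (mem_cons (W2324 D T h) (mem_cons (W33 D T h) (mem_cons (W1342 D T h) (mem_cons (W1316 D T h) (mem_cons (W619 D T h) (mem_cons (W22 D T h) (mem_cons (W4 D T h) (mem_cons (W3113 D T h) mem_nil))))))))) cl1265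
theorem W5620 : WFK w5620 := fun D T h => wf_of_chk h mem_nil (mem_cons (L1265 D T h) mem_nil) cw5620
theorem L1266 : LFK l1266 := fun D T h => lf_of_chk h (mem_cons (W14 D T h) (mem_cons (W17 D T h) (mem_cons (W1397 D T h) (mem_cons (W3392 D T h) (mem_cons (W3394 D T h) (mem_cons (W667 D T h) (mem_cons (W669 D T h) (mem_cons (W16 D T h) (mem_cons (W23 D T h) (mem_cons (W3362 D T h) (mem_cons (W3 D T h) (mem_cons (W5620 D T h) (mem_cons (W36 D T h) (mem_cons (W35 D T h) mem_nil)))))))))))))) cl1266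
theorem W5621 : WFK w5621 := fun D T h => wf_of_chk h mem_nil (mem_cons (L1266 D T h) mem_nil) cw5621
theorem L1267 : LFK l1267 := fun D T h => lf_of_chk h (mem_cons (W10 D T h) (mem_cons (W1316 D T h) (mem_cons (W4 D T h) (mem_cons (W619 D T h) (mem_cons (W22 D T h) (mem_cons (W33 D T h) mem_nil)))))) cl1267
theorem W5622 : WFK w5622 := fun D T h => wf_of_chk h mem_nil (mem_cons (L1267 D T h) mem_nil) cw5622
theorem L1268 : LFK l1268 := fun D T h => lf_of_chk h (mem_cons (W14 D T h) (mem_cons (W17 D T h) (mem_cons (W1397 D T h) (mem_cons (W23 D T h) (mem_cons (W16 D T h) (mem_cons (W3 D T h) (mem_cons (W5622 D T h) (mem_cons (W36 D T h) (mem_cons (W35 D T h) mem_nil))))))))) cl1268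
theorem W5623 : WFK w5623 := fun D T h => wf_of_chk h mem_nil (mem_cons (L1268 D T h) mem_nil) cw5623
theorem L1269 : LFK l1269 := fun D T h => lf_of_chk h (mem_cons (W5157 D T h) (mem_cons (W1 D T h) (mem_cons (W1143 D T h) (mem_cons (W795 D T h) (mem_cons (W5159 D T h) (mem_cons (W15 D T h) (mem_cons (W2922 D T h) (mem_cons (W2797 D T h) (mem_cons (W281 D T h) (mem_cons (W141 D T h) (mem_cons (W1110 D T h) (mem_cons (W2647 D T h) (mem_cons (W1707 D T h) (mem_cons (W2882 D T h) mem_nil)))))))))))))) cl1269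
theorem W5624 : WFK w5624 := fun D T h => wf_of_chk h mem_nil (mem_cons (L1269 D T h) mem_nil) cw5624
theorem L1270 : LFK l1270 := fun D T h => lf_of_chk h (mem_cons (W3766 D T h) (mem_cons (W1120 D T h) (mem_cons (W39 D T h) (mem_cons (W1547 D T h) (mem_cons (W3 D T h) (mem_cons (W5227 D T h) (mem_cons (W1901 D T h) (mem_cons (W2764 D T h) mem_nil)))))))) cl1270
theorem W5625 : WFK w5625 := fun D T h => wf_of_chk h mem_nil (mem_cons (L1270 D T h) mem_nil) cw5625
theorem W5626 : WFK w5626 := fun D T h => wf_of_chk h mem_nil (mem_cons (L119 D T h) mem_nil) cw5626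
theorem W5627 : WFK w5627 := fun D T h => wf_of_chk h (mem_cons (W1296 D T h) mem_nil) mem_nil cw5627
theorem W5628 : WFK w5628 := fun D T h => wf_of_chk h (mem_cons (W1296 D T h) mem_nil) mem_nil cw5628
theorem W5629 : WFK w5629 := fun D T h => wf_of_chk h mem_nil (mem_cons (L234 D T h) mem_nil) cw5629
theorem W5630 : WFK w5630 := fun D T h => wf_of_chk h mem_nil (mem_cons (L251 D T h) mem_nil) cw5630
theorem W5631 : WFK w5631 := fun D T h => wf_of_chk h mem_nil (mem_cons (L453 D T h) mem_nil) cw5631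
theorem L1271 : LFK l1271 := fun D T h => lf_of_chk h (mem_cons (W4038 D T h) (mem_cons (W368 D T h) (mem_cons (W1 D T h) (mem_cons (W1296 D T h) (mem_cons (W4259 D T h) (mem_cons (W5626 D T h) (mem_cons (W1070 D T h) (mem_cons (W4632 D T h) (mem_cons (W5629 D T h) (mem_cons (W4831 D T h) (mem_cons (W5627 D T h) (mem_cons (W5628 D T h) (mem_cons (W3274 D T h) (mem_cons (W1109 D T h) (mem_cons (W1125 D T h) (mem_cons (W5630 D T h) (mem_cons (W3120 D T h) (mem_cons (W5631 D T h) (mem_cons (W1108 D T h) mem_nil))))))))))))))))))) cl1271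
theorem W5632 : WFK w5632 := fun D T h => wf_of_chk h mem_nil (mem_cons (L1271 D T h) mem_nil) cw5632
theorem W5633 : WFK w5633 := fun D T h => wf_of_chk h mem_nil (mem_cons (L1258 D T h) mem_nil) cw5633
theorem L1272 : LFK l1272 := fun D T h => lf_of_chk h (mem_cons (W152 D T h) (mem_cons (W161 D T h) (mem_cons (W154 D T h) (mem_cons (W2765 D T h) (mem_cons (W817 D T h) (mem_cons (W1539 D T h) (mem_cons (W281 D T h) (mem_cons (W331 D T h) (mem_cons (W3232 D T h) (mem_cons (W1548 D T h) mem_nil)))))))))) cl1272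
theorem W5634 : WFK w5634 := fun D T h => wf_of_chk h mem_nil (mem_cons (L1272 D T h) mem_nil) cw5634
theorem L1273 : LFK l1273 := fun D T h => lf_of_chk h (mem_cons (W1906 D T h) (mem_cons (W42 D T h) (mem_cons (W16 D T h) (mem_cons (W716 D T h) (mem_cons (W5339 D T h) (mem_cons (W5634 D T h) (mem_cons (W3006 D T h) (mem_cons (W5633 D T h) (mem_cons (W5632 D T h) (mem_cons (W15 D T h) (mem_cons (W261 D T h) (mem_cons (W5585 D T h) (mem_cons (W5213 D T h) (mem_cons (W5227 D T h) (mem_cons (W799 D T h) (mem_cons (W4574 D T h) (mem_cons (W5625 D T h) (mem_cons (W1348 D T h) (mem_cons (W931 D T h) (mem_cons (W721 D T h) mem_nil)))))))))))))))))))) cl1273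
theorem W5635 : WFK w5635 := fun D T h => wf_of_chk h mem_nil (mem_cons (L1273 D T h) mem_nil) cw5635
theorem W5636 : WFK w5636 := fun D T h => wf_of_chk h mem_nil (mem_cons (L1087 D T h) mem_nil) cw5636
theorem L1274 : LFK l1274 := fun D T h => lf_of_chk h (mem_cons (W831 D T h) (mem_cons (W32 D T h) (mem_cons (W4100 D T h) mem_nil))) cl1274
theorem W5637 : WFK w5637 := fun D T h => wf_of_chk h mem_nil (mem_cons (L1274 D T h) mem_nil) cw5637
theorem L1275 : LFK l1275 := fun D T h => lf_of_chk h (mem_cons (W831 D T h) (mem_cons (W706 D T h) (mem_cons (W2355 D T h) mem_nil))) cl1275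
theorem W5638 : WFK w5638 := fun D T h => wf_of_chk h mem_nil (mem_cons (L1275 D T h) mem_nil) cw5638
theorem L1276 : LFK l1276 := fun D T h => lf_of_chk h (mem_cons (W831 D T h) (mem_cons (W2348 D T h) (mem_cons (W2349 D T h) mem_nil))) cl1276
theorem W5639 : WFK w5639 := fun D T h => wf_of_chk h mem_nil (mem_cons (L1276 D T h) mem_nil) cw5639
theorem L1277 : LFK l1277 := fun D T h => lf_of_chk h (mem_cons (W227 D T h) (mem_cons (W32 D T h) (mem_cons (W4 D T h) (mem_cons (W33 D T h) (mem_cons (W831 D T h) (mem_cons (W3203 D T h) (mem_cons (W6 D T h) (mem_cons (W5638 D T h) (mem_cons (W5639 D T h) (mem_cons (W812 D T h) mem_nil)))))))))) cl1277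
theorem W5640 : WFK w5640 := fun D T h => wf_of_chk h mem_nil (mem_cons (L1277 D T h) mem_nil) cw5640
theorem L1278 : LFK l1278 := fun D T h => lf_of_chk h (mem_cons (W1408 D T h) (mem_cons (W16 D T h) (mem_cons (W83 D T h) (mem_cons (W17 D T h) (mem_cons (W3035 D T h) (mem_cons (W3 D T h) (mem_cons (W5637 D T h) (mem_cons (W5640 D T h) (mem_cons (W1449 D T h) (mem_cons (W1448 D T h) mem_nil)))))))))) cl1278
theorem W5641 : WFK w5641 := fun D T h => wf_of_chk h mem_nil (mem_cons (L1278 D T h) mem_nil) cw5641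
theorem W5642 : WFK w5642 := fun D T h => wf_of_chk h (mem_cons (W16 D T h) (mem_cons (W909 D T h) mem_nil)) mem_nil cw5642
theorem W5643 : WFK w5643 := fun D T h => wf_of_chk h mem_nil (mem_cons (L725 D T h) mem_nil) cw5643
theorem W5644 : WFK w5644 := fun D T h => wf_of_chk h (mem_cons (W909 D T h) mem_nil) mem_nil cw5644
theorem L1279 : LFK l1279 := fun D T h => lf_of_chk h mem_nil cl1279
theorem W5645 : WFK w5645 := fun D T h => wf_of_chk h mem_nil (mem_cons (L1279 D T h) mem_nil) cw5645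
theorem W5646 : WFK w5646 := fun D T h => wf_of_chk h mem_nil (mem_cons (L1279 D T h) mem_nil) cw5646
theorem W5647 : WFK w5647 := fun D T h => wf_of_chk h mem_nil (mem_cons (L1279 D T h) mem_nil) cw5647
theorem W5648 : WFK w5648 := fun D T h => wf_of_chk h (mem_cons (W909 D T h) mem_nil) mem_nil cw5648
theorem L1280 : LFK l1280 := fun D T h => lf_of_chk h (mem_cons (W5643 D T h) (mem_cons (W3356 D T h) (mem_cons (W368 D T h) (mem_cons (W3 D T h) (mem_cons (W750 D T h) (mem_cons (W2753 D T h) (mem_cons (W5647 D T h) (mem_cons (W1901 D T h) (mem_cons (W5644 D T h) (mem_cons (W258 D T h) (mem_cons (W5645 D T h) (mem_cons (W256 D T h) (mem_cons (W5646 D T h) (mem_cons (W5648 D T h) mem_nil)))))))))))))) cl1280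
theorem W5649 : WFK w5649 := fun D T h => wf_of_chk h mem_nil (mem_cons (L1280 D T h) mem_nil) cw5649
theorem W5650 : WFK w5650 := fun D T h => wf_of_chk h (mem_cons (W1070 D T h) (mem_cons (W909 D T h) mem_nil)) mem_nil cw5650
theorem W5651 : WFK w5651 := fun D T h => wf_of_chk h mem_nil (mem_cons (L241 D T h) mem_nil) cw5651
theorem L1281 : LFK l1281 := fun D T h => lf_of_chk h (mem_cons (W5227 D T h) (mem_cons (W1530 D T h) (mem_cons (W381 D T h) (mem_cons (W160 D T h) (mem_cons (W5651 D T h) (mem_cons (W12 D T h) (mem_cons (W3085 D T h) (mem_cons (W5391 D T h) (mem_cons (W1901 D T h) (mem_cons (W7 D T h) mem_nil)))))))))) cl1281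
theorem W5652 : WFK w5652 := fun D T h => wf_of_chk h mem_nil (mem_cons (L1281 D T h) mem_nil) cw5652
theorem W5653 : WFK w5653 := fun D T h => wf_of_chk h mem_nil (mem_cons (L1281 D T h) mem_nil) cw5653
theorem W5654 : WFK w5654 := fun D T h => wf_of_chk h mem_nil (mem_cons (L1272 D T h) mem_nil) cw5654
theorem W5655 : WFK w5655 := fun D T h => wf_of_chk h mem_nil (mem_cons (L1258 D T h) mem_nil) cw5655
theorem L1282 : LFK l1282 := fun D T h => lf_of_chk h (mem_cons (W5213 D T h) (mem_cons (W581 D T h) (mem_cons (W3356 D T h) (mem_cons (W3965 D T h) (mem_cons (W5320 D T h) (mem_cons (W5654 D T h) (mem_cons (W5425 D T h) (mem_cons (W1193 D T h) (mem_cons (W5655 D T h) (mem_cons (W5632 D T h) (mem_cons (W15 D T h) (mem_cons (W5412 D T h) (mem_cons (W5581 D T h) (mem_cons (W5227 D T h) (mem_cons (W5650 D T h) (mem_cons (W5652 D T h) (mem_cons (W5653 D T h) (mem_cons (W5388 D T h) (mem_cons (W4025 D T h) (mem_cons (W1297 D T h) mem_nil)))))))))))))))))))) cl1282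
theorem W5656 : WFK w5656 := fun D T h => wf_of_chk h mem_nil (mem_cons (L1282 D T h) mem_nil) cw5656
theorem W5657 : WFK w5657 := fun D T h => wf_of_chk h mem_nil (mem_cons (L694 D T h) mem_nil) cw5657
theorem W5658 : WFK w5658 := fun D T h => wf_of_chk h (mem_cons (W429 D T h) mem_nil) mem_nil cw5658
theorem W5659 : WFK w5659 := fun D T h => wf_of_chk h mem_nil (mem_cons (L126 D T h) mem_nil) cw5659
theorem W5660 : WFK w5660 := fun D T h => wf_of_chk h mem_nil mem_nil cw5660
theorem L1283 : LFK l1283 := fun D T h => lf_of_chk h (mem_cons (W1330 D T h) (mem_cons (W2922 D T h) (mem_cons (W15 D T h) (mem_cons (W6 D T h) (mem_cons (W1053 D T h) (mem_cons (W141 D T h) (mem_cons (W1047 D T h) (mem_cons (W5657 D T h) (mem_cons (W5658 D T h) (mem_cons (W1707 D T h) (mem_cons (W4618 D T h) (mem_cons (W5659 D T h) (mem_cons (W830 D T h) (mem_cons (W5660 D T h) (mem_cons (W4194 D T h) (mem_cons (W1132 D T h) mem_nil)))))))))))))))) cl1283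
theorem W5661 : WFK w5661 := fun D T h => wf_of_chk h mem_nil (mem_cons (L1283 D T h) mem_nil) cw5661
theorem W5662 : WFK w5662 := fun D T h => wf_of_chk h (mem_cons (W1051 D T h) mem_nil) mem_nil cw5662
theorem W5663 : WFK w5663 := fun D T h => wf_of_chk h (mem_cons (W1051 D T h) mem_nil) mem_nil cw5663
theorem W5664 : WFK w5664 := fun D T h => wf_of_chk h (mem_cons (W158 D T h) (mem_cons (W1051 D T h) mem_nil)) mem_nil cw5664
theorem W5665 : WFK w5665 := fun D T h => wf_of_chk h (mem_cons (W91 D T h) (mem_cons (W1051 D T h) mem_nil)) mem_nil cw5665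
theorem W5667 : WFK w5667 := fun D T h => wf_of_chk h (mem_cons (W281 D T h) (mem_cons (W1051 D T h) mem_nil)) mem_nil cw5667
theorem L1284 : LFK l1284 := fun D T h => lf_of_chk h (mem_cons (W4038 D T h) (mem_cons (W181 D T h) (mem_cons (W1 D T h) (mem_cons (W1051 D T h) (mem_cons (W2448 D T h) (mem_cons (W5662 D T h) (mem_cons (W1070 D T h) (mem_cons (W4632 D T h) (mem_cons (W5664 D T h) (mem_cons (W5665 D T h) (mem_cons (W5663 D T h) (mem_cons (W3274 D T h) (mem_cons (W1109 D T h) (mem_cons (W5667 D T h) (mem_cons (W1108 D T h) mem_nil))))))))))))))) cl1284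
theorem W5668 : WFK w5668 := fun D T h => wf_of_chk h mem_nil (mem_cons (L1284 D T h) mem_nil) cw5668
theorem W5669 : WFK w5669 := fun D T h => wf_of_chk h mem_nil (mem_cons (L89 D T h) mem_nil) cw5669
theorem L1285 : LFK l1285 := fun D T h => lf_of_chk h (mem_cons (W5227 D T h) (mem_cons (W3232 D T h) (mem_cons (W331 D T h) (mem_cons (W1401 D T h) (mem_cons (W5134 D T h) (mem_cons (W5669 D T h) (mem_cons (W3 D T h) (mem_cons (W1547 D T h) (mem_cons (W1564 D T h) (mem_cons (W1901 D T h) (mem_cons (W7 D T h) mem_nil))))))))))) cl1285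
theorem W5670 : WFK w5670 := fun D T h => wf_of_chk h mem_nil (mem_cons (L1285 D T h) mem_nil) cw5670
theorem W5671 : WFK w5671 := fun D T h => wf_of_chk h mem_nil (mem_cons (L1285 D T h) mem_nil) cw5671
theorem W5672 : WFK w5672 := fun D T h => wf_of_chk h mem_nil (mem_cons (L1198 D T h) mem_nil) cw5672
theorem W5673 : WFK w5673 := fun D T h => wf_of_chk h mem_nil (mem_cons (L1258 D T h) mem_nil) cw5673
theorem L1286 : LFK l1286 := fun D T h => lf_of_chk h (mem_cons (W5633 D T h) (mem_cons (W42 D T h) (mem_cons (W3356 D T h) (mem_cons (W716 D T h) (mem_cons (W5339 D T h) (mem_cons (W5634 D T h) (mem_cons (W5672 D T h) (mem_cons (W5632 D T h) (mem_cons (W15 D T h) (mem_cons (W261 D T h) (mem_cons (W5585 D T h) (mem_cons (W5213 D T h) (mem_cons (W5673 D T h) (mem_cons (W5227 D T h) (mem_cons (W5668 D T h) (mem_cons (W5670 D T h) (mem_cons (W5671 D T h) (mem_cons (W1690 D T h) (mem_cons (W1297 D T h) mem_nil))))))))))))))))))) cl1286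
theorem W5674 : WFK w5674 := fun D T h => wf_of_chk h mem_nil (mem_cons (L1286 D T h) mem_nil) cw5674
theorem L1287 : LFK l1287 := fun D T h => lf_of_chk h (mem_cons (W128 D T h) (mem_cons (W1109 D T h) (mem_cons (W15 D T h) (mem_cons (W219 D T h) (mem_cons (W1064 D T h) (mem_cons (W4209 D T h) (mem_cons (W581 D T h) (mem_cons (W4038 D T h) (mem_cons (W1192 D T h) (mem_cons (W1209 D T h) (mem_cons (W5655 D T h) mem_nil))))))))))) cl1287
theorem W5675 : WFK w5675 := fun D T h => wf_of_chk h mem_nil (mem_cons (L1287 D T h) mem_nil) cw5675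
theorem W5676 : WFK w5676 := fun D T h => wf_of_chk h (mem_cons (W3750 D T h) mem_nil) mem_nil cw5676
theorem W5677 : WFK w5677 := fun D T h => wf_of_chk h mem_nil (mem_cons (L871 D T h) mem_nil) cw5677
theorem W5678 : WFK w5678 := fun D T h => wf_of_chk h (mem_cons (W5677 D T h) (mem_cons (W16 D T h) mem_nil)) mem_nil cw5678
theorem W5679 : WFK w5679 := fun D T h => wf_of_chk h (mem_cons (W2448 D T h) (mem_cons (W16 D T h) mem_nil)) mem_nil cw5679
theorem W5680 : WFK w5680 := fun D T h => wf_of_chk h (mem_cons (W5679 D T h) mem_nil) mem_nil cw5680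
theorem W5681 : WFK w5681 := fun D T h => wf_of_chk h (mem_cons (W1109 D T h) (mem_cons (W16 D T h) mem_nil)) mem_nil cw5681
theorem W5682 : WFK w5682 := fun D T h => wf_of_chk h (mem_cons (W5681 D T h) mem_nil) mem_nil cw5682
theorem L1288 : LFK l1288 := fun D T h => lf_of_chk h (mem_cons (W4209 D T h) (mem_cons (W5675 D T h) (mem_cons (W1 D T h) (mem_cons (W369 D T h) (mem_cons (W3565 D T h) (mem_cons (W557 D T h) (mem_cons (W4566 D T h) (mem_cons (W3688 D T h) (mem_cons (W91 D T h) (mem_cons (W5678 D T h) (mem_cons (W80 D T h) (mem_cons (W5680 D T h) (mem_cons (W4259 D T h) (mem_cons (W3849 D T h) (mem_cons (W521 D T h) (mem_cons (W5676 D T h) (mem_cons (W370 D T h) (mem_cons (W111 D T h) (mem_cons (W5682 D T h) mem_nil))))))))))))))))))) cl1288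
theorem W5683 : WFK w5683 := fun D T h => wf_of_chk h mem_nil (mem_cons (L1288 D T h) mem_nil) cw5683
theorem W5684 : WFK w5684 := fun D T h => wf_of_chk h (mem_cons (W455 D T h) (mem_cons (W909 D T h) mem_nil)) mem_nil cw5684
theorem W5685 : WFK w5685 := fun D T h => wf_of_chk h mem_nil (mem_cons (L1273 D T h) mem_nil) cw5685
theorem W5686 : WFK w5686 := fun D T h => wf_of_chk h mem_nil (mem_cons (L1273 D T h) mem_nil) cw5686
theorem W5698 : WFK w5698 := fun D T h => wf_of_chk h mem_nil (mem_cons (L745 D T h) mem_nil) cw5698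
theorem W5701 : WFK w5701 := fun D T h => wf_of_chk h (mem_cons (W181 D T h) mem_nil) mem_nil cw5701
theorem W5703 : WFK w5703 := fun D T h => wf_of_chk h (mem_cons (W86 D T h) (mem_cons (W16 D T h) mem_nil)) mem_nil cw5703
theorem W5705 : WFK w5705 := fun D T h => wf_of_chk h (mem_cons (W2520 D T h) mem_nil) mem_nil cw5705
theorem W5713 : WFK w5713 := fun D T h => wf_of_chk h mem_nil (mem_cons (L743 D T h) mem_nil) cw5713
theorem W5715 : WFK w5715 := fun D T h => wf_of_chk h (mem_cons (W4209 D T h) mem_nil) mem_nil cw5715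
theorem W5719 : WFK w5719 := fun D T h => wf_of_chk h (mem_cons (W4038 D T h) mem_nil) mem_nil cw5719
theorem W5721 : WFK w5721 := fun D T h => wf_of_chk h mem_nil (mem_cons (L878 D T h) mem_nil) cw5721
theorem W5722 : WFK w5722 := fun D T h => wf_of_chk h (mem_cons (W5721 D T h) mem_nil) mem_nil cw5722
theorem W5725 : WFK w5725 := fun D T h => wf_of_chk h (mem_cons (W3035 D T h) mem_nil) mem_nil cw5725
theorem W5729 : WFK w5729 := fun D T h => wf_of_chk h (mem_cons (W5721 D T h) mem_nil) mem_nil cw5729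
theorem W5730 : WFK w5730 := fun D T h => wf_of_chk h (mem_cons (W5721 D T h) mem_nil) mem_nil cw5730
theorem W5735 : WFK w5735 := fun D T h => wf_of_chk h (mem_cons (W831 D T h) mem_nil) mem_nil cw5735
theorem W5736 : WFK w5736 := fun D T h => wf_of_chk h (mem_cons (W831 D T h) mem_nil) mem_nil cw5736
theorem W5738 : WFK w5738 := fun D T h => wf_of_chk h (mem_cons (W1101 D T h) mem_nil) mem_nil cw5738
theorem W5739 : WFK w5739 := fun D T h => wf_of_chk h (mem_cons (W1101 D T h) mem_nil) mem_nil cw5739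
theorem W5741 : WFK w5741 := fun D T h => wf_of_chk h (mem_cons (W5713 D T h) (mem_cons (W710 D T h) mem_nil)) mem_nil cw5741
theorem L1297 : LFK l1297 := fun D T h => lf_of_chk h (mem_cons (W3356 D T h) mem_nil) cl1297
theorem W5742 : WFK w5742 := fun D T h => wf_of_chk h mem_nil (mem_cons (L1297 D T h) mem_nil) cw5742
theorem L1298 : LFK l1298 := fun D T h => lf_of_chk h (mem_cons (W5742 D T h) mem_nil) cl1298
theorem W5743 : WFK w5743 := fun D T h => wf_of_chk h mem_nil (mem_cons (L1298 D T h) mem_nil) cw5743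
theorem W5744 : WFK w5744 := fun D T h => wf_of_chk h (mem_cons (W181 D T h) (mem_cons (W909 D T h) mem_nil)) mem_nil cw5744
theorem L1299 : LFK l1299 := fun D T h => lf_of_chk h (mem_cons (W831 D T h) (mem_cons (W32 D T h) (mem_cons (W49 D T h) (mem_cons (W1244 D T h) mem_nil)))) cl1299
theorem W5745 : WFK w5745 := fun D T h => wf_of_chk h mem_nil (mem_cons (L1299 D T h) mem_nil) cw5745
theorem W5746 : WFK w5746 := fun D T h => wf_of_chk h (mem_cons (W2119 D T h) mem_nil) mem_nil cw5746
theorem W5747 : WFK w5747 := fun D T h => wf_of_chk h (mem_cons (W2118 D T h) mem_nil) mem_nil cw5747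
theorem W5748 : WFK w5748 := fun D T h => wf_of_chk h mem_nil (mem_cons (L495 D T h) mem_nil) cw5748
theorem W5749 : WFK w5749 := fun D T h => wf_of_chk h (mem_cons (W3766 D T h) mem_nil) mem_nil cw5749
theorem L1300 : LFK l1300 := fun D T h => lf_of_chk h (mem_cons (W199 D T h) (mem_cons (W819 D T h) (mem_cons (W972 D T h) (mem_cons (W952 D T h) (mem_cons (W999 D T h) (mem_cons (W740 D T h) (mem_cons (W2087 D T h) (mem_cons (W2142 D T h) (mem_cons (W5357 D T h) (mem_cons (W2123 D T h) (mem_cons (W12 D T h) (mem_cons (W2133 D T h) mem_nil)))))))))))) cl1300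
theorem W5750 : WFK w5750 := fun D T h => wf_of_chk h mem_nil (mem_cons (L1300 D T h) mem_nil) cw5750
theorem W5751 : WFK w5751 := fun D T h => wf_of_chk h mem_nil (mem_cons (L800 D T h) mem_nil) cw5751
theorem L1301 : LFK l1301 := fun D T h => lf_of_chk h (mem_cons (W3035 D T h) (mem_cons (W158 D T h) (mem_cons (W105 D T h) (mem_cons (W83 D T h) (mem_cons (W3 D T h) (mem_cons (W5746 D T h) (mem_cons (W5747 D T h) (mem_cons (W5748 D T h) (mem_cons (W5749 D T h) (mem_cons (W5750 D T h) (mem_cons (W17 D T h) (mem_cons (W3878 D T h) (mem_cons (W3440 D T h) (mem_cons (W831 D T h) (mem_cons (W5751 D T h) mem_nil))))))))))))))) cl1301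
theorem W5752 : WFK w5752 := fun D T h => wf_of_chk h mem_nil (mem_cons (L1301 D T h) mem_nil) cw5752
theorem W5753 : WFK w5753 := fun D T h => wf_of_chk h mem_nil (mem_cons (L1298 D T h) mem_nil) cw5753
theorem L1302 : LFK l1302 := fun D T h => lf_of_chk h (mem_cons (W5742 D T h) mem_nil) cl1302
theorem W5754 : WFK w5754 := fun D T h => wf_of_chk h mem_nil (mem_cons (L1302 D T h) mem_nil) cw5754
theorem W5755 : WFK w5755 := fun D T h => wf_of_chk h (mem_cons (W401 D T h) (mem_cons (W909 D T h) mem_nil)) mem_nil cw5755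
theorem L1303 : LFK l1303 := fun D T h => lf_of_chk h (mem_cons (W716 D T h) mem_nil) cl1303
theorem W5756 : WFK w5756 := fun D T h => wf_of_chk h mem_nil (mem_cons (L1303 D T h) mem_nil) cw5756
theorem W5757 : WFK w5757 := fun D T h => wf_of_chk h mem_nil (mem_cons (L753 D T h) mem_nil) cw5757
theorem W5758 : WFK w5758 := fun D T h => wf_of_chk h mem_nil (mem_cons (L1167 D T h) mem_nil) cw5758
theorem W5759 : WFK w5759 := fun D T h => wf_of_chk h mem_nil (mem_cons (L298 D T h) mem_nil) cw5759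
theorem L1304 : LFK l1304 := fun D T h => lf_of_chk h (mem_cons (W721 D T h) (mem_cons (W39 D T h) (mem_cons (W126 D T h) (mem_cons (W3 D T h) (mem_cons (W1181 D T h) (mem_cons (W1272 D T h) (mem_cons (W256 D T h) (mem_cons (W3147 D T h) (mem_cons (W1560 D T h) (mem_cons (W3701 D T h) (mem_cons (W746 D T h) (mem_cons (W748 D T h) (mem_cons (W267 D T h) mem_nil))))))))))))) cl1304
theorem W5760 : WFK w5760 := fun D T h => wf_of_chk h mem_nil (mem_cons (L1304 D T h) mem_nil) cw5760
theorem W5761 : WFK w5761 := fun D T h => wf_of_chk h mem_nil (mem_cons (L952 D T h) mem_nil) cw5761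
theorem L1305 : LFK l1305 := fun D T h => lf_of_chk h (mem_cons (W721 D T h) (mem_cons (W3 D T h) (mem_cons (W39 D T h) (mem_cons (W745 D T h) (mem_cons (W750 D T h) (mem_cons (W3384 D T h) mem_nil)))))) cl1305
theorem W5762 : WFK w5762 := fun D T h => wf_of_chk h mem_nil (mem_cons (L1305 D T h) mem_nil) cw5762
theorem W5763 : WFK w5763 := fun D T h => wf_of_chk h (mem_cons (W93 D T h) mem_nil) mem_nil cw5763
theorem W5764 : WFK w5764 := fun D T h => wf_of_chk h mem_nil (mem_cons (L286 D T h) mem_nil) cw5764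
theorem W5765 : WFK w5765 := fun D T h => wf_of_chk h mem_nil (mem_cons (L1208 D T h) mem_nil) cw5765
theorem L1306 : LFK l1306 := fun D T h => lf_of_chk h (mem_cons (W721 D T h) (mem_cons (W3 D T h) (mem_cons (W39 D T h) (mem_cons (W5520 D T h) (mem_cons (W263 D T h) (mem_cons (W815 D T h) (mem_cons (W762 D T h) (mem_cons (W745 D T h) (mem_cons (W990 D T h) (mem_cons (W3384 D T h) (mem_cons (W4605 D T h) (mem_cons (W750 D T h) (mem_cons (W767 D T h) (mem_cons (W717 D T h) (mem_cons (W1297 D T h) (mem_cons (W1560 D T h) mem_nil)))))))))))))))) cl1306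
theorem W5766 : WFK w5766 := fun D T h => wf_of_chk h mem_nil (mem_cons (L1306 D T h) mem_nil) cw5766
theorem L1307 : LFK l1307 := fun D T h => lf_of_chk h (mem_cons (W3878 D T h) (mem_cons (W56 D T h) (mem_cons (W1 D T h) (mem_cons (W69 D T h) (mem_cons (W721 D T h) (mem_cons (W267 D T h) (mem_cons (W111 D T h) (mem_cons (W1636 D T h) (mem_cons (W762 D T h) (mem_cons (W5765 D T h) (mem_cons (W5448 D T h) (mem_cons (W2576 D T h) (mem_cons (W2575 D T h) (mem_cons (W724 D T h) (mem_cons (W5764 D T h) (mem_cons (W5766 D T h) (mem_cons (W3016 D T h) (mem_cons (W3207 D T h) (mem_cons (W4028 D T h) mem_nil))))))))))))))))))) cl1307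
theorem W5767 : WFK w5767 := fun D T h => wf_of_chk h mem_nil (mem_cons (L1307 D T h) mem_nil) cw5767
theorem W5768 : WFK w5768 := fun D T h => wf_of_chk h (mem_cons (W1616 D T h) mem_nil) mem_nil cw5768
theorem L1308 : LFK l1308 := fun D T h => lf_of_chk h (mem_cons (W721 D T h) (mem_cons (W716 D T h) (mem_cons (W2433 D T h) (mem_cons (W3 D T h) (mem_cons (W39 D T h) (mem_cons (W1296 D T h) (mem_cons (W750 D T h) (mem_cons (W1297 D T h) (mem_cons (W5768 D T h) (mem_cons (W331 D T h) (mem_cons (W746 D T h) (mem_cons (W258 D T h) (mem_cons (W747 D T h) (mem_cons (W748 D T h) (mem_cons (W259 D T h) (mem_cons (W263 D T h) (mem_cons (W815 D T h) (mem_cons (W762 D T h) mem_nil)))))))))))))))))) cl1308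
theorem W5769 : WFK w5769 := fun D T h => wf_of_chk h mem_nil (mem_cons (L1308 D T h) mem_nil) cw5769
theorem L1309 : LFK l1309 := fun D T h => lf_of_chk h (mem_cons (W3483 D T h) mem_nil) cl1309
theorem W5770 : WFK w5770 := fun D T h => wf_of_chk h mem_nil (mem_cons (L1309 D T h) mem_nil) cw5770
theorem W5771 : WFK w5771 := fun D T h => wf_of_chk h (mem_cons (W2118 D T h) (mem_cons (W267 D T h) mem_nil)) mem_nil cw5771
theorem L1310 : LFK l1310 := fun D T h => lf_of_chk h (mem_cons (W5743 D T h) (mem_cons (W5642 D T h) (mem_cons (W368 D T h) (mem_cons (W126 D T h) (mem_cons (W721 D T h) (mem_cons (W267 D T h) (mem_cons (W114 D T h) (mem_cons (W5760 D T h) (mem_cons (W5761 D T h) (mem_cons (W5762 D T h) (mem_cons (W5767 D T h) (mem_cons (W5769 D T h) (mem_cons (W4044 D T h) (mem_cons (W5770 D T h) (mem_cons (W5763 D T h) (mem_cons (W3035 D T h) (mem_cons (W5771 D T h) (mem_cons (W5755 D T h) (mem_cons (W5756 D T h) (mem_cons (W5757 D T h) (mem_cons (W5758 D T h) (mem_cons (W5759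 D T h) (mem_cons (W5188 D T h) (mem_cons (W5745 D T h) (mem_cons (W5752 D T h) (mem_cons (W5753 D T h) (mem_cons (W5186 D T h) (mem_cons (W5744 D T h) (mem_cons (W5754 D T h) (mem_cons (W281 D T h) (mem_cons (W69 D T h) mem_nil))))))))))))))))))))))))))))))) cl1310
theorem W5772 : WFK w5772 := fun D T h => wf_of_chk h mem_nil (mem_cons (L1310 D T h) mem_nil) cw5772
theorem L1311 : LFK l1311 := fun D T h => lf_of_chk h (mem_cons (W810 D T h) (mem_cons (W808 D T h) (mem_cons (W281 D T h) (mem_cons (W6 D T h) (mem_cons (W831 D T h) (mem_cons (W603 D T h) (mem_cons (W604 D T h) (mem_cons (W1047 D T h) (mem_cons (W3871 D T h) (mem_cons (W2204 D T h) (mem_cons (W906 D T h) (mem_cons (W4204 D T h) (mem_cons (W1949 D T h) mem_nil))))))))))))) cl1311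
theorem W5773 : WFK w5773 := fun D T h => wf_of_chk h mem_nil (mem_cons (L1311 D T h) mem_nil) cw5773
theorem L1312 : LFK l1312 := fun D T h => lf_of_chk h (mem_cons (W5661 D T h) (mem_cons (W499 D T h) (mem_cons (W219 D T h) (mem_cons (W15 D T h) (mem_cons (W91 D T h) (mem_cons (W141 D T h) (mem_cons (W5158 D T h) (mem_cons (W5773 D T h) (mem_cons (W2797 D T h) (mem_cons (W2799 D T h) (mem_cons (W1707 D T h) mem_nil))))))))))) cl1312
theorem W5774 : WFK w5774 := fun D T h => wf_of_chk h mem_nil (mem_cons (L1312 D T h) mem_nil) cw5774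
theorem W5775 : WFK w5775 := fun D T h => wf_of_chk h mem_nil (mem_cons (L533 D T h) mem_nil) cw5775
theorem L1313 : LFK l1313 := fun D T h => lf_of_chk h (mem_cons (W1547 D T h) (mem_cons (W920 D T h) (mem_cons (W852 D T h) (mem_cons (W5606 D T h) (mem_cons (W3 D T h) (mem_cons (W1424 D T h) (mem_cons (W5775 D T h) (mem_cons (W7 D T h) (mem_cons (W3085 D T h) mem_nil))))))))) cl1313
theorem W5776 : WFK w5776 := fun D T h => wf_of_chk h mem_nil (mem_cons (L1313 D T h) mem_nil) cw5776
theorem W5777 : WFK w5777 := fun D T h => wf_of_chk h mem_nil (mem_cons (L1285 D T h) mem_nil) cw5777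
theorem L1314 : LFK l1314 := fun D T h => lf_of_chk h (mem_cons (W5633 D T h) (mem_cons (W42 D T h) (mem_cons (W16 D T h) (mem_cons (W716 D T h) (mem_cons (W5339 D T h) (mem_cons (W5777 D T h) (mem_cons (W5776 D T h) (mem_cons (W5632 D T h) (mem_cons (W15 D T h) (mem_cons (W5673 D T h) (mem_cons (W5585 D T h) (mem_cons (W5655 D T h) (mem_cons (W431 D T h) (mem_cons (W5774 D T h) (mem_cons (W5670 D T h) (mem_cons (W5671 D T h) (mem_cons (W1690 D T h) (mem_cons (W721 D T h) mem_nil)))))))))))))))))) cl1314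
theorem W5778 : WFK w5778 := fun D T h => wf_of_chk h mem_nil (mem_cons (L1314 D T h) mem_nil) cw5778
theorem W5779 : WFK w5779 := fun D T h => wf_of_chk h (mem_cons (W93 D T h) (mem_cons (W16 D T h) mem_nil)) mem_nil cw5779
theorem W5780 : WFK w5780 := fun D T h => wf_of_chk h mem_nil (mem_cons (L823 D T h) mem_nil) cw5780
theorem W5781 : WFK w5781 := fun D T h => wf_of_chk h (mem_cons (W5780 D T h) (mem_cons (W16 D T h) mem_nil)) mem_nil cw5781
theorem W5782 : WFK w5782 := fun D T h => wf_of_chk h (mem_cons (W69 D T h) (mem_cons (W1651 D T h) mem_nil)) mem_nil cw5782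
theorem W5783 : WFK w5783 := fun D T h => wf_of_chk h (mem_cons (W368 D T h) (mem_cons (W1651 D T h) mem_nil)) mem_nil cw5783
theorem W5784 : WFK w5784 := fun D T h => wf_of_chk h (mem_cons (W69 D T h) (mem_cons (W1651 D T h) mem_nil)) mem_nil cw5784
theorem W5787 : WFK w5787 := fun D T h => wf_of_chk h (mem_cons (W831 D T h) (mem_cons (W1296 D T h) mem_nil)) mem_nil cw5787
theorem W5793 : WFK w5793 := fun D T h => wf_of_chk h mem_nil (mem_cons (L409 D T h) mem_nil) cw5793
theorem W5794 : WFK w5794 := fun D T h => wf_of_chk h mem_nil (mem_cons (L409 D T h) mem_nil) cw5794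
theorem L1315 : LFK l1315 := fun D T h => lf_of_chk h (mem_cons (W3766 D T h) mem_nil) cl1315
theorem W5795 : WFK w5795 := fun D T h => wf_of_chk h mem_nil (mem_cons (L1315 D T h) mem_nil) cw5795
theorem L1316 : LFK l1316 := fun D T h => lf_of_chk h (mem_cons (W5606 D T h) (mem_cons (W138 D T h) (mem_cons (W4489 D T h) (mem_cons (W831 D T h) (mem_cons (W315 D T h) mem_nil))))) cl1316
theorem L1317 : LFK l1317 := fun D T h => lf_of_chk h (mem_cons (W5606 D T h) (mem_cons (W138 D T h) (mem_cons (W4495 D T h) (mem_cons (W831 D T h) (mem_cons (W1101 D T h) mem_nil))))) cl1317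
theorem L1319 : LFK l1319 := fun D T h => lf_of_chk h (mem_cons (W3766 D T h) (mem_cons (W16 D T h) mem_nil)) cl1319
theorem W5803 : WFK w5803 := fun D T h => wf_of_chk h mem_nil (mem_cons (L864 D T h) mem_nil) cw5803
theorem W5806 : WFK w5806 := fun D T h => wf_of_chk h (mem_cons (W3766 D T h) mem_nil) mem_nil cw5806
theorem W5808 : WFK w5808 := fun D T h => wf_of_chk h mem_nil (mem_cons (L829 D T h) mem_nil) cw5808
theorem W5810 : WFK w5810 := fun D T h => wf_of_chk h (mem_cons (W281 D T h) mem_nil) mem_nil cw5810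
theorem W5814 : WFK w5814 := fun D T h => wf_of_chk h mem_nil (mem_cons (L836 D T h) mem_nil) cw5814
theorem W5815 : WFK w5815 := fun D T h => wf_of_chk h (mem_cons (W281 D T h) mem_nil) mem_nil cw5815
theorem L1322 : LFK l1322 := fun D T h => lf_of_chk h (mem_cons (W5615 D T h) (mem_cons (W281 D T h) (mem_cons (W396 D T h) (mem_cons (W812 D T h) (mem_cons (W1928 D T h) (mem_cons (W158 D T h) (mem_cons (W5810 D T h) (mem_cons (W1101 D T h) (mem_cons (W5815 D T h) mem_nil))))))))) cl1322
theorem W5821 : WFK w5821 := fun D T h => wf_of_chk h mem_nil (mem_cons (L296 D T h) mem_nil) cw5821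
theorem W5822 : WFK w5822 := fun D T h => wf_of_chk h mem_nil (mem_cons (L860 D T h) mem_nil) cw5822
theorem W5823 : WFK w5823 := fun D T h => wf_of_chk h mem_nil (mem_cons (L870 D T h) mem_nil) cw5823
theorem W5829 : WFK w5829 := fun D T h => wf_of_chk h (mem_cons (W16 D T h) mem_nil) mem_nil cw5829
theorem W5830 : WFK w5830 := fun D T h => wf_of_chk h (mem_cons (W16 D T h) mem_nil) mem_nil cw5830
theorem W5831 : WFK w5831 := fun D T h => wf_of_chk h mem_nil mem_nil cw5831
theorem W5837 : WFK w5837 := fun D T h => wf_of_chk h (mem_cons (W16 D T h) mem_nil) mem_nil cw5837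
theorem L1325 : LFK l1325 := fun D T h => lf_of_chk h (mem_cons (W831 D T h) (mem_cons (W32 D T h) (mem_cons (W5837 D T h) (mem_cons (W4585 D T h) mem_nil)))) cl1325
theorem W5841 : WFK w5841 := fun D T h => wf_of_chk h mem_nil (mem_cons (L1258 D T h) mem_nil) cw5841
theorem L1326 : LFK l1326 := fun D T h => lf_of_chk h (mem_cons (W4 D T h) (mem_cons (W833 D T h) (mem_cons (W829 D T h) (mem_cons (W2765 D T h) (mem_cons (W7 D T h) mem_nil))))) cl1326
theorem W5849 : WFK w5849 := fun D T h => wf_of_chk h mem_nil (mem_cons (L1326 D T h) mem_nil) cw5849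
theorem W5852 : WFK w5852 := fun D T h => wf_of_chk h mem_nil (mem_cons (L152 D T h) mem_nil) cw5852
theorem W5856 : WFK w5856 := fun D T h => wf_of_chk h mem_nil (mem_cons (L444 D T h) mem_nil) cw5856
theorem L1329 : LFK l1329 := fun D T h => lf_of_chk h mem_nil cl1329
theorem W5857 : WFK w5857 := fun D T h => wf_of_chk h mem_nil (mem_cons (L1329 D T h) mem_nil) cw5857
theorem W5858 : WFK w5858 := fun D T h => wf_of_chk h mem_nil (mem_cons (L55 D T h) mem_nil) cw5858
theorem L1330 : LFK l1330 := fun D T h => lf_of_chk h (mem_cons (W819 D T h) (mem_cons (W832 D T h) (mem_cons (W831 D T h) (mem_cons (W39 D T h) (mem_cons (W4451 D T h) (mem_cons (W3593 D T h) (mem_cons (W5858 D T h) (mem_cons (W359 D T h) (mem_cons (W411 D T h) (mem_cons (W1099 D T h) (mem_cons (W888 D T h) (mem_cons (W976 D T h) (mem_cons (W5856 D T h) (mem_cons (W5857 D T h) mem_nil)))))))))))))) cl1330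
theorem W5863 : WFK w5863 := fun D T h => wf_of_chk h mem_nil mem_nil cw5863
theorem W5865 : WFK w5865 := fun D T h => wf_of_chk h mem_nil mem_nil cw5865
theorem W5868 : WFK w5868 := fun D T h => wf_of_chk h mem_nil (mem_cons (L258 D T h) mem_nil) cw5868
theorem L1340 : LFK l1340 := fun D T h => lf_of_chk h (mem_cons (W9 D T h) (mem_cons (W4617 D T h) (mem_cons (W5858 D T h) (mem_cons (W3111 D T h) (mem_cons (W5863 D T h) (mem_cons (W5865 D T h) (mem_cons (W4 D T h) mem_nil))))))) cl1340
theorem W5874 : WFK w5874 := fun D T h => wf_of_chk h mem_nil (mem_cons (L671 D T h) mem_nil) cw5874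
theorem W5875 : WFK w5875 := fun D T h => wf_of_chk h mem_nil (mem_cons (L671 D T h) mem_nil) cw5875
theorem W5879 : WFK w5879 := fun D T h => wf_of_chk h mem_nil (mem_cons (L1326 D T h) mem_nil) cw5879
theorem L1342 : LFK l1342 := fun D T h => lf_of_chk h (mem_cons (W8 D T h) (mem_cons (W829 D T h) (mem_cons (W2765 D T h) (mem_cons (W3110 D T h) mem_nil)))) cl1342
theorem L1343 : LFK l1343 := fun D T h => lf_of_chk h (mem_cons (W2765 D T h) (mem_cons (W1101 D T h) (mem_cons (W831 D T h) (mem_cons (W25 D T h) (mem_cons (W706 D T h) mem_nil))))) cl1343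
theorem W5886 : WFK w5886 := fun D T h => wf_of_chk h mem_nil (mem_cons (L863 D T h) mem_nil) cw5886
theorem L1346 : LFK l1346 := fun D T h => lf_of_chk h (mem_cons (W9 D T h) (mem_cons (W833 D T h) (mem_cons (W829 D T h) (mem_cons (W2765 D T h) (mem_cons (W3111 D T h) mem_nil))))) cl1346
theorem W5893 : WFK w5893 := fun D T h => wf_of_chk h mem_nil (mem_cons (L27 D T h) mem_nil) cw5893
theorem W5894 : WFK w5894 := fun D T h => wf_of_chk h (mem_cons (W1258 D T h) mem_nil) mem_nil cw5894
theorem W5895 : WFK w5895 := fun D T h => wf_of_chk h (mem_cons (W696 D T h) mem_nil) mem_nil cw5895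
theorem W5896 : WFK w5896 := fun D T h => wf_of_chk h (mem_cons (W75 D T h) mem_nil) mem_nil cw5896
theorem W5897 : WFK w5897 := fun D T h => wf_of_chk h mem_nil (mem_cons (L1205 D T h) mem_nil) cw5897
theorem W5898 : WFK w5898 := fun D T h => wf_of_chk h mem_nil (mem_cons (L1205 D T h) mem_nil) cw5898
theorem W5899 : WFK w5899 := fun D T h => wf_of_chk h mem_nil (mem_cons (L1205 D T h) mem_nil) cw5899
theorem L1348 : LFK l1348 := fun D T h => lf_of_chk h (mem_cons (W4209 D T h) (mem_cons (W557 D T h) (mem_cons (W4566 D T h) (mem_cons (W1 D T h) (mem_cons (W69 D T h) (mem_cons (W696 D T h) (mem_cons (W4207 D T h) (mem_cons (W5893 D T h) (mem_cons (W5895 D T h) (mem_cons (W91 D T h) (mem_cons (W5894 D T h) (mem_cons (W80 D T h) (mem_cons (W5896 D T h) (mem_cons (W4259 D T h) (mem_cons (W5897 D T h) (mem_cons (W521 D T h) (mem_cons (W5898 D T h) (mem_cons (W5899 D T h) (mem_cons (W3565 D T h) mem_nil))))))))))))))))))) cl1348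
theorem W5900 : WFK w5900 := fun D T h => wf_of_chk h mem_nil (mem_cons (L1348 D T h) mem_nil) cw5900
theorem L1349 : LFK l1349 := fun D T h => lf_of_chk h (mem_cons (W5606 D T h) (mem_cons (W22 D T h) (mem_cons (W125 D T h) (mem_cons (W831 D T h) (mem_cons (W1101 D T h) (mem_cons (W5900 D T h) (mem_cons (W1901 D T h) (mem_cons (W1072 D T h) (mem_cons (W5651 D T h) (mem_cons (W7 D T h) (mem_cons (W5669 D T h) mem_nil))))))))))) cl1349
theorem W5901 : WFK w5901 := fun D T h => wf_of_chk h mem_nil (mem_cons (L1349 D T h) mem_nil) cw5901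
theorem W5902 : WFK w5902 := fun D T h => wf_of_chk h mem_nil (mem_cons (L1285 D T h) mem_nil) cw5902
theorem W5903 : WFK w5903 := fun D T h => wf_of_chk h mem_nil (mem_cons (L836 D T h) mem_nil) cw5903
theorem L1350 : LFK l1350 := fun D T h => lf_of_chk h mem_nil cl1350
theorem W5904 : WFK w5904 := fun D T h => wf_of_chk h mem_nil (mem_cons (L1350 D T h) mem_nil) cw5904
theorem L1351 : LFK l1351 := fun D T h => lf_of_chk h (mem_cons (W1546 D T h) (mem_cons (W1075 D T h) (mem_cons (W5669 D T h) (mem_cons (W1547 D T h) (mem_cons (W159 D T h) (mem_cons (W5651 D T h) (mem_cons (W5904 D T h) mem_nil))))))) cl1351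
theorem W5905 : WFK w5905 := fun D T h => wf_of_chk h mem_nil (mem_cons (L1351 D T h) mem_nil) cw5905
theorem L1352 : LFK l1352 := fun D T h => lf_of_chk h (mem_cons (W432 D T h) (mem_cons (W158 D T h) (mem_cons (W5669 D T h) (mem_cons (W159 D T h) mem_nil)))) cl1352
theorem W5906 : WFK w5906 := fun D T h => wf_of_chk h mem_nil (mem_cons (L1352 D T h) mem_nil) cw5906
theorem W5907 : WFK w5907 := fun D T h => wf_of_chk h mem_nil (mem_cons (L715 D T h) mem_nil) cw5907
theorem L1353 : LFK l1353 := fun D T h => lf_of_chk h (mem_cons (W2880 D T h) (mem_cons (W432 D T h) (mem_cons (W91 D T h) (mem_cons (W826 D T h) (mem_cons (W1143 D T h) (mem_cons (W5907 D T h) (mem_cons (W3194 D T h) (mem_cons (W5808 D T h) (mem_cons (W1901 D T h) (mem_cons (W5901 D T h) (mem_cons (W4347 D T h) (mem_cons (W5902 D T h) (mem_cons (W5903 D T h) (mem_cons (W5905 D T h) (mem_cons (W5906 D T h) (mem_cons (W2922 D T h) mem_nil)))))))))))))))) cl1353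
theorem W5908 : WFK w5908 := fun D T h => wf_of_chk h mem_nil (mem_cons (L1353 D T h) mem_nil) cw5908
theorem L1354 : LFK l1354 := fun D T h => lf_of_chk h (mem_cons (W5777 D T h) (mem_cons (W42 D T h) (mem_cons (W3356 D T h) (mem_cons (W716 D T h) (mem_cons (W5776 D T h) (mem_cons (W5908 D T h) (mem_cons (W15 D T h) (mem_cons (W5673 D T h) (mem_cons (W5585 D T h) (mem_cons (W5655 D T h) (mem_cons (W5227 D T h) (mem_cons (W5774 D T h) (mem_cons (W5670 D T h) (mem_cons (W5671 D T h) (mem_cons (W931 D T h) (mem_cons (W721 D T h) (mem_cons (W5633 D T h) mem_nil))))))))))))))))) cl1354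
theorem W5909 : WFK w5909 := fun D T h => wf_of_chk h mem_nil (mem_cons (L1354 D T h) mem_nil) cw5909
theorem W5910 : WFK w5910 := fun D T h => wf_of_chk h (mem_cons (W103 D T h) mem_nil) mem_nil cw5910
theorem W5911 : WFK w5911 := fun D T h => wf_of_chk h (mem_cons (W5910 D T h) (mem_cons (W284 D T h) mem_nil)) mem_nil cw5911
theorem W5912 : WFK w5912 := fun D T h => wf_of_chk h (mem_cons (W3848 D T h) (mem_cons (W284 D T h) mem_nil)) mem_nil cw5912
theorem W5913 : WFK w5913 := fun D T h => wf_of_chk h (mem_cons (W112 D T h) mem_nil) mem_nil cw5913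
theorem W5914 : WFK w5914 := fun D T h => wf_of_chk h (mem_cons (W5913 D T h) (mem_cons (W284 D T h) mem_nil)) mem_nil cw5914
theorem W5915 : WFK w5915 := fun D T h => wf_of_chk h (mem_cons (W2180 D T h) (mem_cons (W284 D T h) mem_nil)) mem_nil cw5915
theorem L1355 : LFK l1355 := fun D T h => lf_of_chk h (mem_cons (W4209 D T h) (mem_cons (W3282 D T h) (mem_cons (W1 D T h) (mem_cons (W352 D T h) (mem_cons (W69 D T h) (mem_cons (W3565 D T h) (mem_cons (W3688 D T h) (mem_cons (W4566 D T h) (mem_cons (W91 D T h) (mem_cons (W3846 D T h) (mem_cons (W80 D T h) (mem_cons (W5911 D T h) (mem_cons (W4259 D T h) (mem_cons (W5912 D T h) (mem_cons (W521 D T h) (mem_cons (W3699 D T h) (mem_cons (W370 D T h) (mem_cons (W111 D T h) (mem_cons (W5914 D T h) (mem_cons (W267 D T h) (mem_cons (W721 D T h) (mem_cons (W114 D T h) (mem_cons (W5915 D T h) mem_nil))))))))))))))))))))))) cl1355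
theorem W5916 : WFK w5916 := fun D T h => wf_of_chk h mem_nil (mem_cons (L1355 D T h) mem_nil) cw5916
theorem W5917 : WFK w5917 := fun D T h => wf_of_chk h (mem_cons (W489 D T h) (mem_cons (W284 D T h) mem_nil)) mem_nil cw5917
theorem W5918 : WFK w5918 := fun D T h => wf_of_chk h (mem_cons (W1651 D T h) mem_nil) mem_nil cw5918
theorem W5919 : WFK w5919 := fun D T h => wf_of_chk h (mem_cons (W1651 D T h) mem_nil) mem_nil cw5919
theorem W5920 : WFK w5920 := fun D T h => wf_of_chk h (mem_cons (W126 D T h) (mem_cons (W1651 D T h) mem_nil)) mem_nil cw5920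
theorem W5921 : WFK w5921 := fun D T h => wf_of_chk h (mem_cons (W368 D T h) (mem_cons (W1651 D T h) mem_nil)) mem_nil cw5921
theorem W5925 : WFK w5925 := fun D T h => wf_of_chk h mem_nil (mem_cons (L934 D T h) mem_nil) cw5925
theorem W5933 : WFK w5933 := fun D T h => wf_of_chk h mem_nil mem_nil cw5933
theorem W5934 : WFK w5934 := fun D T h => wf_of_chk h mem_nil mem_nil cw5934
theorem W5936 : WFK w5936 := fun D T h => wf_of_chk h mem_nil mem_nil cw5936
theorem W5942 : WFK w5942 := fun D T h => wf_of_chk h (mem_cons (W220 D T h) (mem_cons (W4566 D T h) mem_nil)) mem_nil cw5942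
theorem L1358 : LFK l1358 := fun D T h => lf_of_chk h (mem_cons (W142 D T h) (mem_cons (W13 D T h) (mem_cons (W4806 D T h) (mem_cons (W33 D T h) (mem_cons (W105 D T h) (mem_cons (W1825 D T h) (mem_cons (W78 D T h) mem_nil))))))) cl1358
theorem W5943 : WFK w5943 := fun D T h => wf_of_chk h mem_nil (mem_cons (L1358 D T h) mem_nil) cw5943
theorem W5946 : WFK w5946 := fun D T h => wf_of_chk h (mem_cons (W85 D T h) (mem_cons (W16 D T h) mem_nil)) mem_nil cw5946
theorem W5947 : WFK w5947 := fun D T h => wf_of_chk h (mem_cons (W85 D T h) (mem_cons (W16 D T h) mem_nil)) mem_nil cw5947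
theorem W5952 : WFK w5952 := fun D T h => wf_of_chk h (mem_cons (W220 D T h) (mem_cons (W4566 D T h) mem_nil)) mem_nil cw5952
theorem W5991 : WFK w5991 := fun D T h => wf_of_chk h (mem_cons (W69 D T h) mem_nil) mem_nil cw5991
theorem L1370 : LFK l1370 := fun D T h => lf_of_chk h mem_nil cl1370
theorem W6006 : WFK w6006 := fun D T h => wf_of_chk h mem_nil (mem_cons (L1370 D T h) mem_nil) cw6006
theorem W6021 : WFK w6021 := fun D T h => wf_of_chk h mem_nil mem_nil cw6021
theorem W6027 : WFK w6027 := fun D T h => wf_of_chk h mem_nil (mem_cons (L50 D T h) mem_nil) cw6027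
theorem W6029 : WFK w6029 := fun D T h => wf_of_chk h mem_nil mem_nil cw6029
theorem W6032 : WFK w6032 := fun D T h => wf_of_chk h mem_nil (mem_cons (L1350 D T h) mem_nil) cw6032
theorem L1375 : LFK l1375 := fun D T h => lf_of_chk h (mem_cons (W721 D T h) (mem_cons (W164 D T h) (mem_cons (W5738 D T h) (mem_cons (W39 D T h) (mem_cons (W1409 D T h) (mem_cons (W3 D T h) (mem_cons (W750 D T h) (mem_cons (W1412 D T h) (mem_cons (W1139 D T h) (mem_cons (W1560 D T h) (mem_cons (W6032 D T h) (mem_cons (W1297 D T h) (mem_cons (W815 D T h) (mem_cons (W5250 D T h) (mem_cons (W258 D T h) (mem_cons (W748 D T h) (mem_cons (W746 D T h) (mem_cons (W747 D T h) (mem_cons (W3284 D T h) mem_nil))))))))))))))))))) cl1375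
theorem W6033 : WFK w6033 := fun D T h => wf_of_chk h mem_nil (mem_cons (L1375 D T h) mem_nil) cw6033
theorem L1377 : LFK l1377 := fun D T h => lf_of_chk h (mem_cons (W638 D T h) (mem_cons (W91 D T h) (mem_cons (W2204 D T h) (mem_cons (W915 D T h) (mem_cons (W1245 D T h) (mem_cons (W1737 D T h) (mem_cons (W1473 D T h) (mem_cons (W1538 D T h) (mem_cons (W1539 D T h) (mem_cons (W1542 D T h) (mem_cons (W1551 D T h) (mem_cons (W2635 D T h) mem_nil)))))))))))) cl1377
theorem W6036 : WFK w6036 := fun D T h => wf_of_chk h mem_nil (mem_cons (L1377 D T h) mem_nil) cw6036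
theorem W6037 : WFK w6037 := fun D T h => wf_of_chk h mem_nil (mem_cons (L46 D T h) mem_nil) cw6037
theorem L1378 : LFK l1378 := fun D T h => lf_of_chk h mem_nil cl1378
theorem W6038 : WFK w6038 := fun D T h => wf_of_chk h mem_nil (mem_cons (L1378 D T h) mem_nil) cw6038
theorem L1379 : LFK l1379 := fun D T h => lf_of_chk h (mem_cons (W762 D T h) (mem_cons (W42 D T h) (mem_cons (W16 D T h) (mem_cons (W39 D T h) (mem_cons (W3 D T h) (mem_cons (W6038 D T h) (mem_cons (W15 D T h) (mem_cons (W5547 D T h) (mem_cons (W1051 D T h) (mem_cons (W1535 D T h) (mem_cons (W2078 D T h) (mem_cons (W6036 D T h) (mem_cons (W6037 D T h) (mem_cons (W3582 D T h) (mem_cons (W259 D T h) (mem_cons (W351 D T h) (mem_cons (W1620 D T h) mem_nil))))))))))))))))) cl1379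
theorem W6073 : WFK w6073 := fun D T h => wf_of_chk h (mem_cons (W16 D T h) (mem_cons (W3688 D T h) mem_nil)) mem_nil cw6073
theorem W6074 : WFK w6074 := fun D T h => wf_of_chk h (mem_cons (W16 D T h) (mem_cons (W4566 D T h) mem_nil)) mem_nil cw6074
theorem W6075 : WFK w6075 := fun D T h => wf_of_chk h mem_nil mem_nil cw6075
theorem W6077 : WFK w6077 := fun D T h => wf_of_chk h mem_nil mem_nil cw6077
theorem W6094 : WFK w6094 := fun D T h => wf_of_chk h (mem_cons (W3565 D T h) (mem_cons (W16 D T h) mem_nil)) mem_nil cw6094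
theorem W6095 : WFK w6095 := fun D T h => wf_of_chk h mem_nil (mem_cons (L878 D T h) mem_nil) cw6095
theorem W6096 : WFK w6096 := fun D T h => wf_of_chk h (mem_cons (W161 D T h) (mem_cons (W1296 D T h) mem_nil)) mem_nil cw6096
theorem W6097 : WFK w6097 := fun D T h => wf_of_chk h (mem_cons (W1 D T h) (mem_cons (W1296 D T h) mem_nil)) mem_nil cw6097
theorem W6098 : WFK w6098 := fun D T h => wf_of_chk h (mem_cons (W158 D T h) (mem_cons (W1296 D T h) mem_nil)) mem_nil cw6098
theorem W6099 : WFK w6099 := fun D T h => wf_of_chk h (mem_cons (W91 D T h) (mem_cons (W1296 D T h) mem_nil)) mem_nil cw6099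
theorem L1387 : LFK l1387 := fun D T h => lf_of_chk h (mem_cons (W4038 D T h) (mem_cons (W4259 D T h) (mem_cons (W5626 D T h) (mem_cons (W1 D T h) (mem_cons (W1296 D T h) (mem_cons (W368 D T h) (mem_cons (W6095 D T h) (mem_cons (W5627 D T h) (mem_cons (W5628 D T h) (mem_cons (W3274 D T h) (mem_cons (W5787 D T h) (mem_cons (W4766 D T h) (mem_cons (W6096 D T h) (mem_cons (W3276 D T h) (mem_cons (W6097 D T h) (mem_cons (W1070 D T h) (mem_cons (W4632 D T h) (mem_cons (W5629 D T h) (mem_cons (W4831 D T h) (mem_cons (W6098 D T h) (mem_cons (W6099 D T h) mem_nil))))))))))))))))))))) cl1387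
theorem W6100 : WFK w6100 := fun D T h => wf_of_chk h mem_nil (mem_cons (L1387 D T h) mem_nil) cw6100
theorem L1388 : LFK l1388 := fun D T h => lf_of_chk h (mem_cons (W5633 D T h) (mem_cons (W931 D T h) (mem_cons (W721 D T h) (mem_cons (W42 D T h) (mem_cons (W16 D T h) (mem_cons (W5841 D T h) (mem_cons (W5339 D T h) (mem_cons (W5777 D T h) (mem_cons (W6100 D T h) (mem_cons (W15 D T h) (mem_cons (W5673 D T h) (mem_cons (W5585 D T h) (mem_cons (W5655 D T h) (mem_cons (W431 D T h) (mem_cons (W799 D T h) (mem_cons (W5670 D T h) (mem_cons (W5671 D T h) mem_nil))))))))))))))))) cl1388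
theorem W6101 : WFK w6101 := fun D T h => wf_of_chk h mem_nil (mem_cons (L1388 D T h) mem_nil) cw6101
theorem L1389 : LFK l1389 := fun D T h => lf_of_chk h (mem_cons (W5635 D T h) (mem_cons (W284 D T h) (mem_cons (W909 D T h) (mem_cons (W2934 D T h) (mem_cons (W5636 D T h) (mem_cons (W16 D T h) (mem_cons (W5641 D T h) (mem_cons (W5642 D T h) (mem_cons (W5741 D T h) (mem_cons (W5772 D T h) (mem_cons (W5778 D T h) (mem_cons (W5649 D T h) (mem_cons (W50 D T h) (mem_cons (W5194 D T h) (mem_cons (W5656 D T h) (mem_cons (W5674 D T h) (mem_cons (W1906 D T h) (mem_cons (W3006 D T h) (mem_cons (W5683 D T h) (mem_cons (W5684 D T h) (mem_cons (W5685 D T h) (mem_cons (W1595 D T h) (mem_cons (W5686 D T h) (mem_cons (W5267 D T h) (mem_cons (W1651 D T h) (mem_cons (W3202 D T h) (mem_cons (W3201 D T h) (mem_cons (W5918 D T h) (mem_cons (W5919 D T h) (mem_cons (W4209 D T h) (mem_cons (W5920 D T h) (mem_cons (W5921 D T h) (mem_cons (W6101 D T h) (mem_cons (W4044 D T h) (mem_cons (W5781 D T h) (mem_cons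 (W5782 D T h) (mem_cons (W4038 D T h) (mem_cons (W5783 D T h) (mem_cons (W5784 D T h) (mem_cons (W5909 D T h) (mem_cons (W5779 D T h) (mem_cons (W5916 D T h) (mem_cons (W5917 D T h) mem_nil))))))))))))))))))))))))))))))))))))))))))) cl1389
theorem W6102 : WFK w6102 := fun D T h => wf_of_chk h mem_nil (mem_cons (L1389 D T h) mem_nil) cw6102
theorem W6103 : WFK w6103 := fun D T h => wf_of_chk h mem_nil (mem_cons (L305 D T h) mem_nil) cw6103
theorem L1390 : LFK l1390 := fun D T h => lf_of_chk h (mem_cons (W13 D T h) (mem_cons (W10 D T h) (mem_cons (W1245 D T h) (mem_cons (W1246 D T h) (mem_cons (W4439 D T h) mem_nil))))) cl1390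
theorem W6104 : WFK w6104 := fun D T h => wf_of_chk h mem_nil (mem_cons (L1390 D T h) mem_nil) cw6104
theorem W6105 : WFK w6105 := fun D T h => wf_of_chk h mem_nil (mem_cons (L1390 D T h) mem_nil) cw6105
theorem W6106 : WFK w6106 := fun D T h => wf_of_chk h mem_nil (mem_cons (L11 D T h) mem_nil) cw6106
theorem L1391 : LFK l1391 := fun D T h => lf_of_chk h (mem_cons (W36 D T h) (mem_cons (W199 D T h) (mem_cons (W201 D T h) (mem_cons (W438 D T h) (mem_cons (W1449 D T h) (mem_cons (W162 D T h) (mem_cons (W164 D T h) (mem_cons (W6106 D T h) (mem_cons (W1335 D T h) (mem_cons (W3035 D T h) (mem_cons (W3 D T h) (mem_cons (W3406 D T h) (mem_cons (W3407 D T h) (mem_cons (W12 D T h) (mem_cons (W6103 D T h) (mem_cons (W13 D T h) (mem_cons (W6104 D T h) (mem_cons (W3402 D T h) (mem_cons (W6105 D T h) mem_nil))))))))))))))))))) cl1391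
theorem W6107 : WFK w6107 := fun D T h => wf_of_chk h mem_nil (mem_cons (L1391 D T h) mem_nil) cw6107
theorem L1392 : LFK l1392 := fun D T h => lf_of_chk h (mem_cons (W126 D T h) mem_nil) cl1392
theorem W6108 : WFK w6108 := fun D T h => wf_of_chk h mem_nil (mem_cons (L1392 D T h) mem_nil) cw6108
theorem L1393 : LFK l1393 := fun D T h => lf_of_chk h (mem_cons (W3430 D T h) (mem_cons (W2914 D T h) (mem_cons (W15 D T h) (mem_cons (W220 D T h) (mem_cons (W17 D T h) (mem_cons (W659 D T h) (mem_cons (W2919 D T h) (mem_cons (W209 D T h) (mem_cons (W3781 D T h) (mem_cons (W4566 D T h) (mem_cons (W2554 D T h) (mem_cons (W2629 D T h) (mem_cons (W2628 D T h) (mem_cons (W2532 D T h) (mem_cons (W2627 D T h) (mem_cons (W6108 D T h) (mem_cons (W3429 D T h) (mem_cons (W3212 D T h) mem_nil)))))))))))))))))) cl1393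
theorem W6109 : WFK w6109 := fun D T h => wf_of_chk h mem_nil (mem_cons (L1393 D T h) mem_nil) cw6109
theorem W6110 : WFK w6110 := fun D T h => wf_of_chk h mem_nil (mem_cons (L817 D T h) mem_nil) cw6110
theorem W6111 : WFK w6111 := fun D T h => wf_of_chk h mem_nil (mem_cons (L819 D T h) mem_nil) cw6111
theorem W6112 : WFK w6112 := fun D T h => wf_of_chk h mem_nil (mem_cons (L817 D T h) mem_nil) cw6112
theorem W6113 : WFK w6113 := fun D T h => wf_of_chk h mem_nil (mem_cons (L817 D T h) mem_nil) cw6113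
theorem L1394 : LFK l1394 := fun D T h => lf_of_chk h (mem_cons (W2520 D T h) (mem_cons (W16 D T h) (mem_cons (W618 D T h) (mem_cons (W1408 D T h) (mem_cons (W230 D T h) (mem_cons (W2378 D T h) (mem_cons (W799 D T h) mem_nil))))))) cl1394
theorem W6114 : WFK w6114 := fun D T h => wf_of_chk h mem_nil (mem_cons (L1394 D T h) mem_nil) cw6114
theorem W6116 : WFK w6116 := fun D T h => wf_of_chk h (mem_cons (W34 D T h) (mem_cons (W23 D T h) mem_nil)) mem_nil cw6116
theorem W6118 : WFK w6118 := fun D T h => wf_of_chk h mem_nil (mem_cons (L244 D T h) mem_nil) cw6118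
theorem W6126 : WFK w6126 := fun D T h => wf_of_chk h (mem_cons (W126 D T h) (mem_cons (W3127 D T h) mem_nil)) mem_nil cw6126
theorem W6127 : WFK w6127 := fun D T h => wf_of_chk h (mem_cons (W3127 D T h) mem_nil) mem_nil cw6127
theorem W6140 : WFK w6140 := fun D T h => wf_of_chk h mem_nil (mem_cons (L829 D T h) mem_nil) cw6140
theorem W6162 : WFK w6162 := fun D T h => wf_of_chk h mem_nil (mem_cons (L842 D T h) mem_nil) cw6162
theorem W6163 : WFK w6163 := fun D T h => wf_of_chk h (mem_cons (W2914 D T h) (mem_cons (W34 D T h) mem_nil)) mem_nil cw6163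
theorem W6165 : WFK w6165 := fun D T h => wf_of_chk h (mem_cons (W368 D T h) (mem_cons (W710 D T h) mem_nil)) mem_nil cw6165
theorem W6167 : WFK w6167 := fun D T h => wf_of_chk h (mem_cons (W368 D T h) (mem_cons (W162 D T h) mem_nil)) mem_nil cw6167
theorem L1405 : LFK l1405 := fun D T h => lf_of_chk h (mem_cons (W142 D T h) (mem_cons (W78 D T h) (mem_cons (W33 D T h) (mem_cons (W1834 D T h) (mem_cons (W1246 D T h) (mem_cons (W539 D T h) (mem_cons (W1053 D T h) (mem_cons (W404 D T h) mem_nil)))))))) cl1405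
theorem W6169 : WFK w6169 := fun D T h => wf_of_chk h mem_nil (mem_cons (L1405 D T h) mem_nil) cw6169
theorem W6170 : WFK w6170 := fun D T h => wf_of_chk h mem_nil (mem_cons (L475 D T h) mem_nil) cw6170
theorem W6171 : WFK w6171 := fun D T h => wf_of_chk h mem_nil (mem_cons (L1377 D T h) mem_nil) cw6171
theorem W6172 : WFK w6172 := fun D T h => wf_of_chk h (mem_cons (W747 D T h) mem_nil) mem_nil cw6172
theorem W6173 : WFK w6173 := fun D T h => wf_of_chk h mem_nil (mem_cons (L419 D T h) mem_nil) cw6173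
theorem L1406 : LFK l1406 := fun D T h => lf_of_chk h (mem_cons (W1825 D T h) (mem_cons (W105 D T h) (mem_cons (W33 D T h) (mem_cons (W13 D T h) (mem_cons (W6173 D T h) (mem_cons (W359 D T h) (mem_cons (W396 D T h) (mem_cons (W3781 D T h) mem_nil)))))))) cl1406
theorem W6174 : WFK w6174 := fun D T h => wf_of_chk h mem_nil (mem_cons (L1406 D T h) mem_nil) cw6174
theorem W6175 : WFK w6175 := fun D T h => wf_of_chk h mem_nil (mem_cons (L104 D T h) mem_nil) cw6175
theorem W6176 : WFK w6176 := fun D T h => wf_of_chk h mem_nil (mem_cons (L766 D T h) mem_nil) cw6176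
theorem W6177 : WFK w6177 := fun D T h => wf_of_chk h mem_nil (mem_cons (L766 D T h) mem_nil) cw6177
theorem W6178 : WFK w6178 := fun D T h => wf_of_chk h mem_nil (mem_cons (L337 D T h) mem_nil) cw6178
theorem W6179 : WFK w6179 := fun D T h => wf_of_chk h mem_nil (mem_cons (L1406 D T h) mem_nil) cw6179
theorem W6180 : WFK w6180 := fun D T h => wf_of_chk h (mem_cons (W401 D T h) mem_nil) mem_nil cw6180
theorem W6181 : WFK w6181 := fun D T h => wf_of_chk h mem_nil (mem_cons (L1405 D T h) mem_nil) cw6181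
theorem W6182 : WFK w6182 := fun D T h => wf_of_chk h mem_nil (mem_cons (L39 D T h) mem_nil) cw6182
theorem W6183 : WFK w6183 := fun D T h => wf_of_chk h mem_nil (mem_cons (L446 D T h) mem_nil) cw6183
theorem L1407 : LFK l1407 := fun D T h => lf_of_chk h (mem_cons (W2627 D T h) (mem_cons (W114 D T h) (mem_cons (W144 D T h) (mem_cons (W220 D T h) (mem_cons (W15 D T h) (mem_cons (W201 D T h) (mem_cons (W949 D T h) (mem_cons (W659 D T h) (mem_cons (W3781 D T h) (mem_cons (W4566 D T h) (mem_cons (W6180 D T h) (mem_cons (W6181 D T h) (mem_cons (W6182 D T h) (mem_cons (W6183 D T h) (mem_cons (W864 D T h) (mem_cons (W6169 D T h) (mem_cons (W2740 D T h) (mem_cons (W149 D T h) (mem_cons (W6170 D T h) (mem_cons (W6171 D T h) (mem_cons (W6172 D T h) (mem_cons (W6174 D T h) (mem_cons (W6175 D T h) (mem_cons (W6176 D T h) (mem_cons (W6177 D T h) (mem_cons (W164 D T h) (mem_cons (W42 D T h) (mem_cons (W6178 D T h) (mem_cons (W6179 D T h) mem_nil))))))))))))))))))))))))))))) cl1407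
theorem W6184 : WFK w6184 := fun D T h => wf_of_chk h mem_nil (mem_cons (L1407 D T h) mem_nil) cw6184
theorem W6186 : WFK w6186 := fun D T h => wf_of_chk h (mem_cons (W85 D T h) mem_nil) mem_nil cw6186
theorem L1408 : LFK l1408 := fun D T h => lf_of_chk h (mem_cons (W4209 D T h) (mem_cons (W83 D T h) (mem_cons (W281 D T h) (mem_cons (W69 D T h) (mem_cons (W91 D T h) (mem_cons (W6186 D T h) (mem_cons (W80 D T h) (mem_cons (W4259 D T h) (mem_cons (W3739 D T h) (mem_cons (W3738 D T h) (mem_cons (W521 D T h) (mem_cons (W627 D T h) (mem_cons (W370 D T h) (mem_cons (W111 D T h) (mem_cons (W267 D T h) (mem_cons (W3741 D T h) (mem_cons (W721 D T h) (mem_cons (W114 D T h) (mem_cons (W3740 D T h) mem_nil))))))))))))))))))) cl1408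
theorem W6197 : WFK w6197 := fun D T h => wf_of_chk h mem_nil (mem_cons (L300 D T h) mem_nil) cw6197
theorem W6202 : WFK w6202 := fun D T h => wf_of_chk h (mem_cons (W368 D T h) (mem_cons (W3127 D T h) mem_nil)) mem_nil cw6202
theorem W6203 : WFK w6203 := fun D T h => wf_of_chk h (mem_cons (W3035 D T h) (mem_cons (W23 D T h) mem_nil)) mem_nil cw6203
theorem W6204 : WFK w6204 := fun D T h => wf_of_chk h mem_nil (mem_cons (L1253 D T h) mem_nil) cw6204
theorem L1416 : LFK l1416 := fun D T h => lf_of_chk h (mem_cons (W5735 D T h) (mem_cons (W396 D T h) (mem_cons (W831 D T h) (mem_cons (W3721 D T h) (mem_cons (W897 D T h) (mem_cons (W473 D T h) (mem_cons (W3310 D T h) (mem_cons (W405 D T h) mem_nil)))))))) cl1416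
theorem W6226 : WFK w6226 := fun D T h => wf_of_chk h mem_nil (mem_cons (L1416 D T h) mem_nil) cw6226
theorem L1417 : LFK l1417 := fun D T h => lf_of_chk h (mem_cons (W5596 D T h) (mem_cons (W78 D T h) (mem_cons (W33 D T h) (mem_cons (W6226 D T h) (mem_cons (W864 D T h) (mem_cons (W5595 D T h) (mem_cons (W4696 D T h) (mem_cons (W4697 D T h) (mem_cons (W608 D T h) (mem_cons (W1834 D T h) (mem_cons (W4699 D T h) (mem_cons (W1246 D T h) (mem_cons (W5735 D T h) (mem_cons (W142 D T h) (mem_cons (W1841 D T h) (mem_cons (W5736 D T h) (mem_cons (W4358 D T h) (mem_cons (W3694 D T h) (mem_cons (W1283 D T h) mem_nil))))))))))))))))))) cl1417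
theorem W6227 : WFK w6227 := fun D T h => wf_of_chk h mem_nil (mem_cons (L1417 D T h) mem_nil) cw6227
theorem W6230 : WFK w6230 := fun D T h => wf_of_chk h (mem_cons (W220 D T h) (mem_cons (W33 D T h) mem_nil)) mem_nil cw6230
theorem W6231 : WFK w6231 := fun D T h => wf_of_chk h (mem_cons (W220 D T h) (mem_cons (W33 D T h) mem_nil)) mem_nil cw6231
theorem W6232 : WFK w6232 := fun D T h => wf_of_chk h (mem_cons (W616 D T h) mem_nil) mem_nil cw6232
theorem W6237 : WFK w6237 := fun D T h => wf_of_chk h mem_nil (mem_cons (L1325 D T h) mem_nil) cw6237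
theorem W6239 : WFK w6239 := fun D T h => wf_of_chk h (mem_cons (W144 D T h) mem_nil) mem_nil cw6239
theorem W6263 : WFK w6263 := fun D T h => wf_of_chk h (mem_cons (W3518 D T h) (mem_cons (W6109 D T h) mem_nil)) mem_nil cw6263
theorem W6264 : WFK w6264 := fun D T h => wf_of_chk h (mem_cons (W126 D T h) (mem_cons (W3127 D T h) mem_nil)) mem_nil cw6264
theorem W6265 : WFK w6265 := fun D T h => wf_of_chk h (mem_cons (W368 D T h) (mem_cons (W3127 D T h) mem_nil)) mem_nil cw6265
theorem W6266 : WFK w6266 := fun D T h => wf_of_chk h (mem_cons (W3444 D T h) (mem_cons (W16 D T h) mem_nil)) mem_nil cw6266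
theorem W6267 : WFK w6267 := fun D T h => wf_of_chk h (mem_cons (W83 D T h) (mem_cons (W23 D T h) mem_nil)) mem_nil cw6267
theorem L1428 : LFK l1428 := fun D T h => lf_of_chk h (mem_cons (W831 D T h) (mem_cons (W32 D T h) (mem_cons (W684 D T h) (mem_cons (W2452 D T h) mem_nil)))) cl1428
theorem W6268 : WFK w6268 := fun D T h => wf_of_chk h mem_nil (mem_cons (L1428 D T h) mem_nil) cw6268
theorem L1429 : LFK l1429 := fun D T h => lf_of_chk h (mem_cons (W831 D T h) (mem_cons (W32 D T h) (mem_cons (W3019 D T h) mem_nil))) cl1429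
theorem W6269 : WFK w6269 := fun D T h => wf_of_chk h mem_nil (mem_cons (L1429 D T h) mem_nil) cw6269
theorem L1430 : LFK l1430 := fun D T h => lf_of_chk h (mem_cons (W1408 D T h) (mem_cons (W17 D T h) (mem_cons (W16 D T h) (mem_cons (W519 D T h) (mem_cons (W3716 D T h) (mem_cons (W6268 D T h) (mem_cons (W6269 D T h) (mem_cons (W1449 D T h) (mem_cons (W1448 D T h) mem_nil))))))))) cl1430
theorem W6270 : WFK w6270 := fun D T h => wf_of_chk h mem_nil (mem_cons (L1430 D T h) mem_nil) cw6270
theorem W6271 : WFK w6271 := fun D T h => wf_of_chk h (mem_cons (W909 D T h) (mem_cons (W23 D T h) mem_nil)) mem_nil cw6271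
theorem W6272 : WFK w6272 := fun D T h => wf_of_chk h (mem_cons (W3035 D T h) (mem_cons (W23 D T h) mem_nil)) mem_nil cw6272
theorem W6273 : WFK w6273 := fun D T h => wf_of_chk h (mem_cons (W17 D T h) (mem_cons (W34 D T h) mem_nil)) mem_nil cw6273
theorem L1431 : LFK l1431 := fun D T h => lf_of_chk h (mem_cons (W5906 D T h) (mem_cons (W1 D T h) (mem_cons (W1143 D T h) (mem_cons (W34 D T h) (mem_cons (W2785 D T h) (mem_cons (W5907 D T h) (mem_cons (W3194 D T h) (mem_cons (W6118 D T h) (mem_cons (W432 D T h) (mem_cons (W2922 D T h) (mem_cons (W5669 D T h) (mem_cons (W4347 D T h) (mem_cons (W1110 D T h) (mem_cons (W2647 D T h) (mem_cons (W5902 D T h) (mem_cons (W5905 D T h) mem_nil)))))))))))))))) cl1431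
theorem W6274 : WFK w6274 := fun D T h => wf_of_chk h mem_nil (mem_cons (L1431 D T h) mem_nil) cw6274
theorem W6275 : WFK w6275 := fun D T h => wf_of_chk h (mem_cons (W909 D T h) (mem_cons (W34 D T h) mem_nil)) mem_nil cw6275
theorem W6276 : WFK w6276 := fun D T h => wf_of_chk h (mem_cons (W1449 D T h) (mem_cons (W34 D T h) mem_nil)) mem_nil cw6276
theorem W6277 : WFK w6277 := fun D T h => wf_of_chk h (mem_cons (W1408 D T h) (mem_cons (W34 D T h) mem_nil)) mem_nil cw6277
theorem W6278 : WFK w6278 := fun D T h => wf_of_chk h (mem_cons (W3149 D T h) (mem_cons (W710 D T h) mem_nil)) mem_nil cw6278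
theorem W6279 : WFK w6279 := fun D T h => wf_of_chk h (mem_cons (W5612 D T h) (mem_cons (W710 D T h) mem_nil)) mem_nil cw6279
theorem W6280 : WFK w6280 := fun D T h => wf_of_chk h (mem_cons (W3392 D T h) (mem_cons (W34 D T h) mem_nil)) mem_nil cw6280
theorem L1432 : LFK l1432 := fun D T h => lf_of_chk h (mem_cons (W6116 D T h) (mem_cons (W5642 D T h) (mem_cons (W3127 D T h) (mem_cons (W3128 D T h) (mem_cons (W6109 D T h) (mem_cons (W23 D T h) (mem_cons (W16 D T h) (mem_cons (W6165 D T h) (mem_cons (W6163 D T h) (mem_cons (W5742 D T h) (mem_cons (W50 D T h) (mem_cons (W6278 D T h) (mem_cons (W6279 D T h) (mem_cons (W6280 D T h) (mem_cons (W4411 D T h) (mem_cons (W3523 D T h) (mem_cons (W5841 D T h) (mem_cons (W6274 D T h) (mem_cons (W6275 D T h) (mem_cons (W6276 D T h) (mem_cons (W3305 D T h) (mem_cons (W3304 D T h) (mem_cons (W6273 D T h) (mem_cons (W1408 D T h) (mem_cons (W3630 D T h) (mem_cons (W6277 D T h) (mem_cons (W3448 D T h) (mem_cons (W6266 D T h) (mem_cons (W6267 D T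 h) (mem_cons (W6270 D T h) (mem_cons (W6271 D T h) (mem_cons (W6272 D T h) (mem_cons (W111 D T h) (mem_cons (W6263 D T h) (mem_cons (W6264 D T h) (mem_cons (W3628 D T h) (mem_cons (W6265 D T h) (mem_cons (W6127 D T h) (mem_cons (W4209 D T h) (mem_cons (W6126 D T h) (mem_cons (W6202 D T h) (mem_cons (W6203 D T h) mem_nil)))))))))))))))))))))))))))))))))))))))))) cl1432
theorem W6281 : WFK w6281 := fun D T h => wf_of_chk h mem_nil (mem_cons (L1432 D T h) mem_nil) cw6281
theorem W6282 : WFK w6282 := fun D T h => wf_of_chk h (mem_cons (W3898 D T h) (mem_cons (W23 D T h) mem_nil)) mem_nil cw6282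
theorem W6283 : WFK w6283 := fun D T h => wf_of_chk h (mem_cons (W3305 D T h) (mem_cons (W23 D T h) mem_nil)) mem_nil cw6283
theorem W6284 : WFK w6284 := fun D T h => wf_of_chk h (mem_cons (W37 D T h) (mem_cons (W23 D T h) mem_nil)) mem_nil cw6284
theorem L1433 : LFK l1433 := fun D T h => lf_of_chk h (mem_cons (W2037 D T h) (mem_cons (W42 D T h) (mem_cons (W1063 D T h) (mem_cons (W16 D T h) (mem_cons (W2015 D T h) (mem_cons (W5624 D T h) (mem_cons (W2246 D T h) (mem_cons (W5634 D T h) (mem_cons (W2388 D T h) (mem_cons (W15 D T h) (mem_cons (W4839 D T h) (mem_cons (W1889 D T h) (mem_cons (W1192 D T h) (mem_cons (W3193 D T h) (mem_cons (W3766 D T h) (mem_cons (W2378 D T h) (mem_cons (W2381 D T h) (mem_cons (W1193 D T h) (mem_cons (W2380 D T h) (mem_cons (W930 D T h) (mem_cons (W2346 D T h) (mem_cons (W932 D T h) mem_nil)))))))))))))))))))))) cl1433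
theorem W6285 : WFK w6285 := fun D T h => wf_of_chk h mem_nil (mem_cons (L1433 D T h) mem_nil) cw6285
theorem W6286 : WFK w6286 := fun D T h => wf_of_chk h (mem_cons (W1409 D T h) (mem_cons (W37 D T h) mem_nil)) mem_nil cw6286
theorem W6287 : WFK w6287 := fun D T h => wf_of_chk h (mem_cons (W1449 D T h) (mem_cons (W37 D T h) mem_nil)) mem_nil cw6287
theorem W6288 : WFK w6288 := fun D T h => wf_of_chk h (mem_cons (W1408 D T h) (mem_cons (W37 D T h) mem_nil)) mem_nil cw6288
theorem W6289 : WFK w6289 := fun D T h => wf_of_chk h (mem_cons (W1310 D T h) (mem_cons (W23 D T h) mem_nil)) mem_nil cw6289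
theorem W6290 : WFK w6290 := fun D T h => wf_of_chk h (mem_cons (W2164 D T h) (mem_cons (W23 D T h) mem_nil)) mem_nil cw6290
theorem W6291 : WFK w6291 := fun D T h => wf_of_chk h (mem_cons (W1291 D T h) (mem_cons (W23 D T h) mem_nil)) mem_nil cw6291
theorem W6292 : WFK w6292 := fun D T h => wf_of_chk h (mem_cons (W2914 D T h) (mem_cons (W5105 D T h) mem_nil)) mem_nil cw6292
theorem W6293 : WFK w6293 := fun D T h => wf_of_chk h (mem_cons (W2914 D T h) (mem_cons (W5105 D T h) mem_nil)) mem_nil cw6293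
theorem L1439 : LFK l1439 := fun D T h => lf_of_chk h (mem_cons (W4603 D T h) (mem_cons (W5514 D T h) (mem_cons (W4 D T h) (mem_cons (W33 D T h) (mem_cons (W1459 D T h) (mem_cons (W412 D T h) (mem_cons (W6075 D T h) mem_nil))))))) cl1439
theorem W6311 : WFK w6311 := fun D T h => wf_of_chk h mem_nil (mem_cons (L1439 D T h) mem_nil) cw6311
theorem L1442 : LFK l1442 := fun D T h => lf_of_chk h (mem_cons (W4603 D T h) (mem_cons (W5514 D T h) (mem_cons (W4 D T h) (mem_cons (W33 D T h) (mem_cons (W1459 D T h) (mem_cons (W412 D T h) (mem_cons (W218 D T h) mem_nil))))))) cl1442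
theorem W6316 : WFK w6316 := fun D T h => wf_of_chk h mem_nil (mem_cons (L1442 D T h) mem_nil) cw6316
theorem W6326 : WFK w6326 := fun D T h => wf_of_chk h (mem_cons (W3878 D T h) (mem_cons (W16 D T h) mem_nil)) mem_nil cw6326
theorem W6327 : WFK w6327 := fun D T h => wf_of_chk h (mem_cons (W3878 D T h) (mem_cons (W16 D T h) mem_nil)) mem_nil cw6327
theorem W6339 : WFK w6339 := fun D T h => wf_of_chk h mem_nil (mem_cons (L14 D T h) mem_nil) cw6339
theorem W6345 : WFK w6345 := fun D T h => wf_of_chk h mem_nil (mem_cons (L106 D T h) mem_nil) cw6345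
theorem W6352 : WFK w6352 := fun D T h => wf_of_chk h mem_nil (mem_cons (L8 D T h) mem_nil) cw6352
theorem W6360 : WFK w6360 := fun D T h => wf_of_chk h mem_nil (mem_cons (L106 D T h) mem_nil) cw6360
theorem W6372 : WFK w6372 := fun D T h => wf_of_chk h mem_nil (mem_cons (L391 D T h) mem_nil) cw6372
theorem W6380 : WFK w6380 := fun D T h => wf_of_chk h (mem_cons (W3878 D T h) (mem_cons (W37 D T h) mem_nil)) mem_nil cw6380
theorem W6390 : WFK w6390 := fun D T h => wf_of_chk h (mem_cons (W220 D T h) mem_nil) mem_nil cw6390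
theorem L1457 : LFK l1457 := fun D T h => lf_of_chk h (mem_cons (W91 D T h) (mem_cons (W220 D T h) (mem_cons (W248 D T h) (mem_cons (W9 D T h) (mem_cons (W87 D T h) (mem_cons (W802 D T h) (mem_cons (W8 D T h) (mem_cons (W2204 D T h) (mem_cons (W222 D T h) (mem_cons (W317 D T h) (mem_cons (W1519 D T h) mem_nil))))))))))) cl1457
theorem L1458 : LFK l1458 := fun D T h => lf_of_chk h (mem_cons (W141 D T h) (mem_cons (W11 D T h) (mem_cons (W784 D T h) (mem_cons (W1 D T h) (mem_cons (W1101 D T h) (mem_cons (W861 D T h) (mem_cons (W603 D T h) (mem_cons (W1944 D T h) (mem_cons (W91 D T h) (mem_cons (W808 D T h) (mem_cons (W1143 D T h) (mem_cons (W501 D T h) (mem_cons (W1400 D T h) (mem_cons (W1673 D T h) mem_nil)))))))))))))) cl1458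
theorem W6394 : WFK w6394 := fun D T h => wf_of_chk h mem_nil (mem_cons (L1458 D T h) mem_nil) cw6394
theorem L1460 : LFK l1460 := fun D T h => lf_of_chk h mem_nil cl1460
theorem W6415 : WFK w6415 := fun D T h => wf_of_chk h mem_nil (mem_cons (L106 D T h) mem_nil) cw6415
theorem W6416 : WFK w6416 := fun D T h => wf_of_chk h mem_nil (mem_cons (L481 D T h) mem_nil) cw6416
theorem L1465 : LFK l1465 := fun D T h => lf_of_chk h (mem_cons (W3878 D T h) (mem_cons (W17 D T h) (mem_cons (W6415 D T h) (mem_cons (W6345 D T h) (mem_cons (W220 D T h) (mem_cons (W69 D T h) (mem_cons (W3 D T h) (mem_cons (W2119 D T h) (mem_cons (W2118 D T h) (mem_cons (W2305 D T h) (mem_cons (W2304 D T h) (mem_cons (W2303 D T h) (mem_cons (W6416 D T h) mem_nil))))))))))))) cl1465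
theorem W6421 : WFK w6421 := fun D T h => wf_of_chk h (mem_cons (W17 D T h) mem_nil) mem_nil cw6421
theorem W6425 : WFK w6425 := fun D T h => wf_of_chk h (mem_cons (W16 D T h) (mem_cons (W5721 D T h) mem_nil)) mem_nil cw6425
theorem W6428 : WFK w6428 := fun D T h => wf_of_chk h (mem_cons (W4038 D T h) (mem_cons (W16 D T h) mem_nil)) mem_nil cw6428
theorem W6430 : WFK w6430 := fun D T h => wf_of_chk h mem_nil (mem_cons (L1393 D T h) mem_nil) cw6430
theorem W6431 : WFK w6431 := fun D T h => wf_of_chk h (mem_cons (W6430 D T h) (mem_cons (W37 D T h) mem_nil)) mem_nil cw6431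
theorem L1469 : LFK l1469 := fun D T h => lf_of_chk h (mem_cons (W6110 D T h) (mem_cons (W6109 D T h) (mem_cons (W1408 D T h) (mem_cons (W3127 D T h) (mem_cons (W3128 D T h) (mem_cons (W4098 D T h) (mem_cons (W6114 D T h) (mem_cons (W3504 D T h) (mem_cons (W6289 D T h) (mem_cons (W6290 D T h) (mem_cons (W6291 D T h) (mem_cons (W6284 D T h) (mem_cons (W2037 D T h) (mem_cons (W6281 D T h) (mem_cons (W6282 D T h) (mem_cons (W6283 D T h) (mem_cons (W3896 D T h) (mem_cons (W3432 D T h) (mem_cons (W6111 D T h) (mem_cons (W6112 D T h) (mem_cons (W6113 D T h) (mem_cons (W3487 D T h) (mem_cons (W5105 D T h) (mem_cons (W6285 D T h) (mem_cons (W5742 D T h) (mem_cons (W50 D T h) (mem_cons (W6292 D T h) (mem_cons (W6293 D T h) (mem_cons (W6431 D T h) (mem_cons (W4411 D T h) (mem_cons (W3523 D T h) (mem_cons (W5841 D T h) (mem_cons (W6286 D T h) (mem_cons (W3614 D T h) (mem_cons (W6287 D T h) (mem_cons (W3305 D T h) (mem_cons (W3304 D T h) (mem_cons (W6288 D T h) mem_nil))))))))))))))))))))))))))))))))))))))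 cl1469
theorem W6432 : WFK w6432 := fun D T h => wf_of_chk h mem_nil (mem_cons (L1469 D T h) mem_nil) cw6432
theorem W6433 : WFK w6433 := fun D T h => wf_of_chk h mem_nil (mem_cons (L891 D T h) mem_nil) cw6433
theorem W6434 : WFK w6434 := fun D T h => wf_of_chk h (mem_cons (W6433 D T h) (mem_cons (W16 D T h) mem_nil)) mem_nil cw6434
theorem W6435 : WFK w6435 := fun D T h => wf_of_chk h mem_nil (mem_cons (L918 D T h) mem_nil) cw6435
theorem L1470 : LFK l1470 := fun D T h => lf_of_chk h (mem_cons (W1408 D T h) (mem_cons (W17 D T h) (mem_cons (W16 D T h) (mem_cons (W220 D T h) (mem_cons (W15 D T h) (mem_cons (W24 D T h) (mem_cons (W83 D T h) (mem_cons (W1449 D T h) (mem_cons (W1448 D T h) mem_nil))))))))) cl1470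
theorem W6436 : WFK w6436 := fun D T h => wf_of_chk h mem_nil (mem_cons (L1470 D T h) mem_nil) cw6436
theorem W6437 : WFK w6437 := fun D T h => wf_of_chk h mem_nil (mem_cons (L159 D T h) mem_nil) cw6437
theorem L1471 : LFK l1471 := fun D T h => lf_of_chk h (mem_cons (W1408 D T h) (mem_cons (W17 D T h) (mem_cons (W16 D T h) (mem_cons (W50 D T h) (mem_cons (W1397 D T h) (mem_cons (W1275 D T h) (mem_cons (W6437 D T h) (mem_cons (W2339 D T h) (mem_cons (W3 D T h) (mem_cons (W3035 D T h) (mem_cons (W1449 D T h) (mem_cons (W1448 D T h) mem_nil)))))))))))) cl1471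
theorem W6438 : WFK w6438 := fun D T h => wf_of_chk h mem_nil (mem_cons (L1471 D T h) mem_nil) cw6438
theorem W6439 : WFK w6439 := fun D T h => wf_of_chk h mem_nil (mem_cons (L1471 D T h) mem_nil) cw6439
theorem W6440 : WFK w6440 := fun D T h => wf_of_chk h mem_nil (mem_cons (L718 D T h) mem_nil) cw6440
theorem W6441 : WFK w6441 := fun D T h => wf_of_chk h (mem_cons (W3878 D T h) (mem_cons (W16 D T h) mem_nil)) mem_nil cw6441
theorem L1472 : LFK l1472 := fun D T h => lf_of_chk h (mem_cons (W3504 D T h) (mem_cons (W5106 D T h) (mem_cons (W5346 D T h) (mem_cons (W16 D T h) (mem_cons (W5192 D T h) (mem_cons (W6109 D T h) (mem_cons (W23 D T h) (mem_cons (W2254 D T h) (mem_cons (W5311 D T h) (mem_cons (W6432 D T h) (mem_cons (W6438 D T h) (mem_cons (W6439 D T h) (mem_cons (W3503 D T h) (mem_cons (W3502 D T h) (mem_cons (W3501 D T h) (mem_cons (W5347 D T h) (mem_cons (W6434 D T h) (mem_cons (W6435 D T h) (mem_cons (W6436 D T h) (mem_cons (W3410 D T h) (mem_cons (W1408 D T h) (mem_cons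 (W6440 D T h) (mem_cons (W6441 D T h) (mem_cons (W42 D T h) (mem_cons (W5624 D T h) (mem_cons (W6102 D T h) (mem_cons (W6107 D T h) (mem_cons (W3305 D T h) (mem_cons (W3304 D T h) (mem_cons (W5623 D T h) (mem_cons (W5177 D T h) (mem_cons (W50 D T h) (mem_cons (W5364 D T h) (mem_cons (W5619 D T h) (mem_cons (W5621 D T h) (mem_cons (W2997 D T h) (mem_cons (W3523 D T h) mem_nil))))))))))))))))))))))))))))))))))))) cl1472
theorem W6442 : WFK w6442 := fun D T h => wf_of_chk h mem_nil (mem_cons (L1472 D T h) mem_nil) cw6442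
theorem W6443 : WFK w6443 := fun D T h => wf_of_chk h mem_nil (mem_cons (L898 D T h) mem_nil) cw6443
theorem L1473 : LFK l1473 := fun D T h => lf_of_chk h (mem_cons (W5633 D T h) (mem_cons (W42 D T h) (mem_cons (W1690 D T h) (mem_cons (W16 D T h) (mem_cons (W15 D T h) (mem_cons (W6443 D T h) (mem_cons (W5655 D T h) (mem_cons (W5585 D T h) (mem_cons (W5673 D T h) (mem_cons (W2892 D T h) mem_nil)))))))))) cl1473
theorem W6444 : WFK w6444 := fun D T h => wf_of_chk h mem_nil (mem_cons (L1473 D T h) mem_nil) cw6444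
theorem W6446 : WFK w6446 := fun D T h => wf_of_chk h mem_nil (mem_cons (L1146 D T h) mem_nil) cw6446
theorem W6456 : WFK w6456 := fun D T h => wf_of_chk h mem_nil (mem_cons (L382 D T h) mem_nil) cw6456
theorem L1476 : LFK l1476 := fun D T h => lf_of_chk h (mem_cons (W721 D T h) (mem_cons (W42 D T h) (mem_cons (W1299 D T h) (mem_cons (W3 D T h) (mem_cons (W750 D T h) (mem_cons (W1296 D T h) (mem_cons (W1297 D T h) (mem_cons (W2218 D T h) (mem_cons (W1535 D T h) (mem_cons (W5350 D T h) (mem_cons (W6456 D T h) (mem_cons (W281 D T h) (mem_cons (W263 D T h) (mem_cons (W762 D T h) mem_nil)))))))))))))) cl1476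
theorem W6457 : WFK w6457 := fun D T h => wf_of_chk h mem_nil (mem_cons (L1476 D T h) mem_nil) cw6457
theorem W6458 : WFK w6458 := fun D T h => wf_of_chk h (mem_cons (W1299 D T h) mem_nil) mem_nil cw6458
theorem L1477 : LFK l1477 := fun D T h => lf_of_chk h (mem_cons (W267 D T h) (mem_cons (W42 D T h) (mem_cons (W448 D T h) (mem_cons (W1299 D T h) (mem_cons (W3 D T h) (mem_cons (W401 D T h) (mem_cons (W39 D T h) (mem_cons (W652 D T h) (mem_cons (W86 D T h) (mem_cons (W743 D T h) (mem_cons (W6458 D T h) (mem_cons (W878 D T h) (mem_cons (W257 D T h) (mem_cons (W256 D T h) (mem_cons (W1272 D T h) (mem_cons (W255 D T h) (mem_cons (W1307 D T h) (mem_cons (W391 D T h) (mem_cons (W263 D T h) (mem_cons (W281 D T h) (mem_cons (W1535 D T h) mem_nil))))))))))))))))))))) cl1477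
theorem W6459 : WFK w6459 := fun D T h => wf_of_chk h mem_nil (mem_cons (L1477 D T h) mem_nil) cw6459
theorem W6469 : WFK w6469 := fun D T h => wf_of_chk h mem_nil (mem_cons (L159 D T h) mem_nil) cw6469
theorem W6472 : WFK w6472 := fun D T h => wf_of_chk h (mem_cons (W1139 D T h) (mem_cons (W37 D T h) mem_nil)) mem_nil cw6472
theorem W6474 : WFK w6474 := fun D T h => wf_of_chk h (mem_cons (W284 D T h) (mem_cons (W16 D T h) mem_nil)) mem_nil cw6474
theorem W6475 : WFK w6475 := fun D T h => wf_of_chk h (mem_cons (W2027 D T h) (mem_cons (W16 D T h) mem_nil)) mem_nil cw6475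
theorem W6476 : WFK w6476 := fun D T h => wf_of_chk h (mem_cons (W2027 D T h) (mem_cons (W16 D T h) mem_nil)) mem_nil cw6476
theorem L1482 : LFK l1482 := fun D T h => lf_of_chk h (mem_cons (W3766 D T h) (mem_cons (W177 D T h) (mem_cons (W4028 D T h) (mem_cons (W3 D T h) (mem_cons (W461 D T h) (mem_cons (W39 D T h) (mem_cons (W42 D T h) (mem_cons (W1 D T h) (mem_cons (W5745 D T h) (mem_cons (W1325 D T h) (mem_cons (W170 D T h) (mem_cons (W581 D T h) (mem_cons (W1326 D T h) (mem_cons (W1554 D T h) (mem_cons (W181 D T h) mem_nil))))))))))))))) cl1482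
theorem W6477 : WFK w6477 := fun D T h => wf_of_chk h mem_nil (mem_cons (L1482 D T h) mem_nil) cw6477
theorem W6478 : WFK w6478 := fun D T h => wf_of_chk h (mem_cons (W2037 D T h) (mem_cons (W37 D T h) mem_nil)) mem_nil cw6478
theorem W6479 : WFK w6479 := fun D T h => wf_of_chk h mem_nil (mem_cons (L1112 D T h) mem_nil) cw6479
theorem L1483 : LFK l1483 := fun D T h => lf_of_chk h (mem_cons (W15 D T h) (mem_cons (W281 D T h) (mem_cons (W152 D T h) (mem_cons (W153 D T h) (mem_cons (W154 D T h) (mem_cons (W212 D T h) (mem_cons (W6479 D T h) (mem_cons (W432 D T h) (mem_cons (W638 D T h) (mem_cons (W149 D T h) mem_nil)))))))))) cl1483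
theorem W6480 : WFK w6480 := fun D T h => wf_of_chk h mem_nil (mem_cons (L1483 D T h) mem_nil) cw6480
theorem L1484 : LFK l1484 := fun D T h => lf_of_chk h (mem_cons (W3766 D T h) (mem_cons (W281 D T h) (mem_cons (W429 D T h) (mem_cons (W819 D T h) mem_nil)))) cl1484
theorem W6481 : WFK w6481 := fun D T h => wf_of_chk h mem_nil (mem_cons (L1484 D T h) mem_nil) cw6481
theorem W6482 : WFK w6482 := fun D T h => wf_of_chk h mem_nil (mem_cons (L836 D T h) mem_nil) cw6482
theorem L1485 : LFK l1485 := fun D T h => lf_of_chk h (mem_cons (W638 D T h) (mem_cons (W91 D T h) (mem_cons (W3245 D T h) (mem_cons (W926 D T h) mem_nil)))) cl1485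
theorem W6483 : WFK w6483 := fun D T h => wf_of_chk h mem_nil (mem_cons (L1485 D T h) mem_nil) cw6483
theorem W6484 : WFK w6484 := fun D T h => wf_of_chk h (mem_cons (W220 D T h) (mem_cons (W2729 D T h) mem_nil)) mem_nil cw6484
theorem W6485 : WFK w6485 := fun D T h => wf_of_chk h mem_nil (mem_cons (L1485 D T h) mem_nil) cw6485
theorem W6486 : WFK w6486 := fun D T h => wf_of_chk h mem_nil (mem_cons (L1485 D T h) mem_nil) cw6486
theorem W6487 : WFK w6487 := fun D T h => wf_of_chk h mem_nil (mem_cons (L603 D T h) mem_nil) cw6487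
theorem L1486 : LFK l1486 := fun D T h => lf_of_chk h (mem_cons (W152 D T h) (mem_cons (W281 D T h) (mem_cons (W815 D T h) (mem_cons (W233 D T h) (mem_cons (W431 D T h) (mem_cons (W153 D T h) (mem_cons (W878 D T h) (mem_cons (W4 D T h) (mem_cons (W2635 D T h) mem_nil))))))))) cl1486
theorem W6488 : WFK w6488 := fun D T h => wf_of_chk h mem_nil (mem_cons (L1486 D T h) mem_nil) cw6488
theorem W6489 : WFK w6489 := fun D T h => wf_of_chk h mem_nil (mem_cons (L1051 D T h) mem_nil) cw6489
theorem W6490 : WFK w6490 := fun D T h => wf_of_chk h (mem_cons (W220 D T h) (mem_cons (W1528 D T h) mem_nil)) mem_nil cw6490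
theorem W6491 : WFK w6491 := fun D T h => wf_of_chk h (mem_cons (W220 D T h) (mem_cons (W1528 D T h) mem_nil)) mem_nil cw6491
theorem W6492 : WFK w6492 := fun D T h => wf_of_chk h mem_nil (mem_cons (L1486 D T h) mem_nil) cw6492
theorem W6493 : WFK w6493 := fun D T h => wf_of_chk h mem_nil (mem_cons (L1486 D T h) mem_nil) cw6493
theorem L1487 : LFK l1487 := fun D T h => lf_of_chk h (mem_cons (W6481 D T h) (mem_cons (W3766 D T h) (mem_cons (W917 D T h) (mem_cons (W1326 D T h) (mem_cons (W6486 D T h) (mem_cons (W1272 D T h) (mem_cons (W871 D T h) (mem_cons (W6489 D T h) (mem_cons (W1139 D T h) (mem_cons (W6490 D T h) (mem_cons (W6491 D T h) (mem_cons (W16 D T h) (mem_cons (W1325 D T h) (mem_cons (W6487 D T h) (mem_cons (W5841 D T h) (mem_cons (W6488 D T h) (mem_cons (W638 D T h) (mem_cons (W6482 D T h) (mem_cons (W6483 D T h) (mem_cons (W6484 D T h) (mem_cons (W261 D T h) (mem_cons (W6485 D T h) (mem_cons (W799 D T h) (mem_cons (W1554 D T h) (mem_cons (W4026 D T h) (mem_cons (W6492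 D T h) (mem_cons (W6493 D T h) mem_nil))))))))))))))))))))))))))) cl1487
theorem W6494 : WFK w6494 := fun D T h => wf_of_chk h mem_nil (mem_cons (L1487 D T h) mem_nil) cw6494
theorem W6496 : WFK w6496 := fun D T h => wf_of_chk h (mem_cons (W16 D T h) mem_nil) mem_nil cw6496
theorem L1488 : LFK l1488 := fun D T h => lf_of_chk h (mem_cons (W4289 D T h) (mem_cons (W10 D T h) (mem_cons (W1244 D T h) (mem_cons (W2047 D T h) (mem_cons (W38 D T h) (mem_cons (W1535 D T h) mem_nil)))))) cl1488
theorem W6497 : WFK w6497 := fun D T h => wf_of_chk h mem_nil (mem_cons (L1488 D T h) mem_nil) cw6497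
theorem W6498 : WFK w6498 := fun D T h => wf_of_chk h mem_nil (mem_cons (L299 D T h) mem_nil) cw6498
theorem L1491 : LFK l1491 := fun D T h => lf_of_chk h (mem_cons (W642 D T h) mem_nil) cl1491
theorem L1492 : LFK l1492 := fun D T h => lf_of_chk h (mem_cons (W91 D T h) (mem_cons (W124 D T h) (mem_cons (W20 D T h) (mem_cons (W265 D T h) (mem_cons (W3153 D T h) (mem_cons (W878 D T h) (mem_cons (W817 D T h) (mem_cons (W2047 D T h) (mem_cons (W1244 D T h) (mem_cons (W708 D T h) (mem_cons (W802 D T h) (mem_cons (W4 D T h) (mem_cons (W33 D T h) mem_nil))))))))))))) cl1492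
theorem W6504 : WFK w6504 := fun D T h => wf_of_chk h mem_nil (mem_cons (L1492 D T h) mem_nil) cw6504
theorem L1493 : LFK l1493 := fun D T h => lf_of_chk h (mem_cons (W5633 D T h) (mem_cons (W42 D T h) (mem_cons (W1690 D T h) (mem_cons (W16 D T h) (mem_cons (W15 D T h) (mem_cons (W6504 D T h) (mem_cons (W5655 D T h) (mem_cons (W5585 D T h) (mem_cons (W5673 D T h) (mem_cons (W2892 D T h) mem_nil)))))))))) cl1493
theorem W6505 : WFK w6505 := fun D T h => wf_of_chk h mem_nil (mem_cons (L1493 D T h) mem_nil) cw6505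
theorem W6509 : WFK w6509 := fun D T h => wf_of_chk h (mem_cons (W16 D T h) mem_nil) mem_nil cw6509
theorem L1495 : LFK l1495 := fun D T h => lf_of_chk h (mem_cons (W14 D T h) mem_nil) cl1495
theorem W6510 : WFK w6510 := fun D T h => wf_of_chk h mem_nil (mem_cons (L1495 D T h) mem_nil) cw6510
theorem L1496 : LFK l1496 := fun D T h => lf_of_chk h (mem_cons (W16 D T h) (mem_cons (W37 D T h) (mem_cons (W15 D T h) (mem_cons (W220 D T h) (mem_cons (W5258 D T h) (mem_cons (W50 D T h) (mem_cons (W669 D T h) (mem_cons (W667 D T h) (mem_cons (W6509 D T h) (mem_cons (W6510 D T h) (mem_cons (W3878 D T h) (mem_cons (W2015 D T h) (mem_cons (W164 D T h) (mem_cons (W42 D T h) mem_nil)))))))))))))) cl1496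
theorem W6512 : WFK w6512 := fun D T h => wf_of_chk h mem_nil (mem_cons (L782 D T h) mem_nil) cw6512
theorem W6516 : WFK w6516 := fun D T h => wf_of_chk h mem_nil (mem_cons (L1393 D T h) mem_nil) cw6516
theorem L1499 : LFK l1499 := fun D T h => lf_of_chk h (mem_cons (W267 D T h) (mem_cons (W282 D T h) (mem_cons (W1535 D T h) (mem_cons (W390 D T h) (mem_cons (W263 D T h) (mem_cons (W42 D T h) (mem_cons (W1317 D T h) (mem_cons (W39 D T h) (mem_cons (W3 D T h) (mem_cons (W260 D T h) (mem_cons (W15 D T h) (mem_cons (W262 D T h) (mem_cons (W354 D T h) (mem_cons (W5348 D T h) mem_nil)))))))))))))) cl1499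
theorem L1502 : LFK l1502 := fun D T h => lf_of_chk h (mem_cons (W261 D T h) (mem_cons (W638 D T h) (mem_cons (W149 D T h) (mem_cons (W1554 D T h) (mem_cons (W5157 D T h) (mem_cons (W3195 D T h) (mem_cons (W5673 D T h) (mem_cons (W3193 D T h) (mem_cons (W15 D T h) (mem_cons (W256 D T h) (mem_cons (W170 D T h) (mem_cons (W219 D T h) mem_nil)))))))))))) cl1502
theorem L1503 : LFK l1503 := fun D T h => lf_of_chk h (mem_cons (W261 D T h) (mem_cons (W638 D T h) (mem_cons (W1554 D T h) (mem_cons (W5157 D T h) (mem_cons (W2631 D T h) (mem_cons (W5673 D T h) (mem_cons (W3193 D T h) (mem_cons (W15 D T h) (mem_cons (W170 D T h) (mem_cons (W219 D T h) mem_nil)))))))))) cl1503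
theorem W6534 : WFK w6534 := fun D T h => wf_of_chk h mem_nil (mem_cons (L1503 D T h) mem_nil) cw6534
theorem L1504 : LFK l1504 := fun D T h => lf_of_chk h (mem_cons (W261 D T h) (mem_cons (W432 D T h) (mem_cons (W1554 D T h) (mem_cons (W5157 D T h) (mem_cons (W3195 D T h) (mem_cons (W5673 D T h) (mem_cons (W3193 D T h) (mem_cons (W15 D T h) (mem_cons (W170 D T h) (mem_cons (W219 D T h) mem_nil)))))))))) cl1504
theorem W6542 : WFK w6542 := fun D T h => wf_of_chk h (mem_cons (W16 D T h) mem_nil) mem_nil cw6542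
theorem W6549 : WFK w6549 := fun D T h => wf_of_chk h mem_nil (mem_cons (L199 D T h) mem_nil) cw6549
theorem L1508 : LFK l1508 := fun D T h => lf_of_chk h (mem_cons (W1690 D T h) (mem_cons (W42 D T h) (mem_cons (W259 D T h) (mem_cons (W16 D T h) (mem_cons (W1919 D T h) (mem_cons (W921 D T h) (mem_cons (W5575 D T h) (mem_cons (W5633 D T h) (mem_cons (W5339 D T h) (mem_cons (W15 D T h) (mem_cons (W6549 D T h) (mem_cons (W6372 D T h) (mem_cons (W4025 D T h) (mem_cons (W1924 D T h) (mem_cons (W281 D T h) (mem_cons (W912 D T h) (mem_cons (W796 D T h) (mem_cons (W916 D T h) (mem_cons (W917 D T h) (mem_cons (W1707 D T h) mem_nil)))))))))))))))))))) cl1508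
theorem W6550 : WFK w6550 := fun D T h => wf_of_chk h mem_nil (mem_cons (L1508 D T h) mem_nil) cw6550
theorem L1509 : LFK l1509 := fun D T h => lf_of_chk h (mem_cons (W1408 D T h) (mem_cons (W17 D T h) (mem_cons (W16 D T h) (mem_cons (W15 D T h) (mem_cons (W220 D T h) (mem_cons (W6360 D T h) (mem_cons (W24 D T h) (mem_cons (W1397 D T h) (mem_cons (W4555 D T h) (mem_cons (W3 D T h) (mem_cons (W1448 D T h) (mem_cons (W1449 D T h) mem_nil)))))))))))) cl1509
theorem W6552 : WFK w6552 := fun D T h => wf_of_chk h mem_nil (mem_cons (L1509 D T h) mem_nil) cw6552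
theorem L1510 : LFK l1510 := fun D T h => lf_of_chk h (mem_cons (W1330 D T h) (mem_cons (W15 D T h) (mem_cons (W4 D T h) (mem_cons (W33 D T h) (mem_cons (W4192 D T h) (mem_cons (W830 D T h) (mem_cons (W904 D T h) (mem_cons (W5823 D T h) (mem_cons (W4368 D T h) (mem_cons (W1367 D T h) (mem_cons (W4035 D T h) (mem_cons (W4369 D T h) (mem_cons (W569 D T h) (mem_cons (W2922 D T h) (mem_cons (W1132 D T h) mem_nil))))))))))))))) cl1510
theorem W6553 : WFK w6553 := fun D T h => wf_of_chk h mem_nil (mem_cons (L1510 D T h) mem_nil) cw6553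
theorem W6558 : WFK w6558 := fun D T h => wf_of_chk h (mem_cons (W16 D T h) mem_nil) mem_nil cw6558
theorem L1511 : LFK l1511 := fun D T h => lf_of_chk h (mem_cons (W864 D T h) (mem_cons (W411 D T h) (mem_cons (W1475 D T h) (mem_cons (W5537 D T h) (mem_cons (W805 D T h) (mem_cons (W861 D T h) mem_nil)))))) cl1511
theorem W6562 : WFK w6562 := fun D T h => wf_of_chk h mem_nil (mem_cons (L1511 D T h) mem_nil) cw6562
theorem W6563 : WFK w6563 := fun D T h => wf_of_chk h mem_nil (mem_cons (L172 D T h) mem_nil) cw6563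
theorem W6568 : WFK w6568 := fun D T h => wf_of_chk h (mem_cons (W3766 D T h) mem_nil) mem_nil cw6568
theorem W6569 : WFK w6569 := fun D T h => wf_of_chk h (mem_cons (W16 D T h) mem_nil) mem_nil cw6569
theorem W6570 : WFK w6570 := fun D T h => wf_of_chk h mem_nil (mem_cons (L666 D T h) mem_nil) cw6570
theorem W6572 : WFK w6572 := fun D T h => wf_of_chk h mem_nil (mem_cons (L23 D T h) mem_nil) cw6572
theorem W6577 : WFK w6577 := fun D T h => wf_of_chk h mem_nil (mem_cons (L1319 D T h) mem_nil) cw6577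
theorem W6579 : WFK w6579 := fun D T h => wf_of_chk h mem_nil mem_nil cw6579
theorem W6582 : WFK w6582 := fun D T h => wf_of_chk h (mem_cons (W3766 D T h) mem_nil) mem_nil cw6582
theorem W6584 : WFK w6584 := fun D T h => wf_of_chk h mem_nil (mem_cons (L1319 D T h) mem_nil) cw6584
theorem W6585 : WFK w6585 := fun D T h => wf_of_chk h mem_nil (mem_cons (L1509 D T h) mem_nil) cw6585
theorem W6587 : WFK w6587 := fun D T h => wf_of_chk h mem_nil (mem_cons (L156 D T h) mem_nil) cw6587
theorem W6591 : WFK w6591 := fun D T h => wf_of_chk h (mem_cons (W16 D T h) mem_nil) mem_nil cw6591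
theorem W6596 : WFK w6596 := fun D T h => wf_of_chk h (mem_cons (W16 D T h) mem_nil) mem_nil cw6596
theorem L1514 : LFK l1514 := fun D T h => lf_of_chk h (mem_cons (W432 D T h) (mem_cons (W16 D T h) (mem_cons (W915 D T h) (mem_cons (W3024 D T h) (mem_cons (W158 D T h) (mem_cons (W1120 D T h) (mem_cons (W2636 D T h) (mem_cons (W1546 D T h) (mem_cons (W1548 D T h) mem_nil))))))))) cl1514
theorem W6601 : WFK w6601 := fun D T h => wf_of_chk h (mem_cons (W3766 D T h) (mem_cons (W16 D T h) mem_nil)) mem_nil cw6601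
theorem W6603 : WFK w6603 := fun D T h => wf_of_chk h mem_nil (mem_cons (L1303 D T h) mem_nil) cw6603
theorem L1518 : LFK l1518 := fun D T h => lf_of_chk h (mem_cons (W5606 D T h) (mem_cons (W10 D T h) (mem_cons (W7 D T h) (mem_cons (W1101 D T h) (mem_cons (W2902 D T h) (mem_cons (W265 D T h) (mem_cons (W4 D T h) (mem_cons (W331 D T h) (mem_cons (W33 D T h) (mem_cons (W168 D T h) mem_nil)))))))))) cl1518
theorem W6613 : WFK w6613 := fun D T h => wf_of_chk h mem_nil (mem_cons (L1258 D T h) mem_nil) cw6613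
theorem W6614 : WFK w6614 := fun D T h => wf_of_chk h mem_nil (mem_cons (L862 D T h) mem_nil) cw6614
theorem W6619 : WFK w6619 := fun D T h => wf_of_chk h mem_nil (mem_cons (L777 D T h) mem_nil) cw6619
theorem W6623 : WFK w6623 := fun D T h => wf_of_chk h mem_nil (mem_cons (L159 D T h) mem_nil) cw6623
theorem W6635 : WFK w6635 := fun D T h => wf_of_chk h (mem_cons (W16 D T h) mem_nil) mem_nil cw6635
theorem W6636 : WFK w6636 := fun D T h => wf_of_chk h (mem_cons (W3766 D T h) mem_nil) mem_nil cw6636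
theorem W6645 : WFK w6645 := fun D T h => wf_of_chk h mem_nil (mem_cons (L787 D T h) mem_nil) cw6645
theorem W6646 : WFK w6646 := fun D T h => wf_of_chk h (mem_cons (W6552 D T h) mem_nil) mem_nil cw6646
theorem W6647 : WFK w6647 := fun D T h => wf_of_chk h mem_nil (mem_cons (L330 D T h) mem_nil) cw6647
theorem L1527 : LFK l1527 := fun D T h => lf_of_chk h (mem_cons (W5606 D T h) (mem_cons (W10 D T h) (mem_cons (W831 D T h) (mem_cons (W1101 D T h) (mem_cons (W5441 D T h) (mem_cons (W265 D T h) (mem_cons (W8 D T h) (mem_cons (W331 D T h) (mem_cons (W33 D T h) (mem_cons (W168 D T h) mem_nil)))))))))) cl1527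
theorem W6648 : WFK w6648 := fun D T h => wf_of_chk h mem_nil (mem_cons (L1527 D T h) mem_nil) cw6648
theorem W6655 : WFK w6655 := fun D T h => wf_of_chk h mem_nil (mem_cons (L836 D T h) mem_nil) cw6655
theorem W6656 : WFK w6656 := fun D T h => wf_of_chk h mem_nil (mem_cons (L1299 D T h) mem_nil) cw6656
theorem W6659 : WFK w6659 := fun D T h => wf_of_chk h mem_nil mem_nil cw6659
theorem W6660 : WFK w6660 := fun D T h => wf_of_chk h mem_nil (mem_cons (L862 D T h) mem_nil) cw6660
theorem L1528 : LFK l1528 := fun D T h => lf_of_chk h (mem_cons (W638 D T h) (mem_cons (W915 D T h) (mem_cons (W3762 D T h) (mem_cons (W1473 D T h) (mem_cons (W1538 D T h) (mem_cons (W2635 D T h) (mem_cons (W1539 D T h) (mem_cons (W1542 D T h) (mem_cons (W1551 D T h) (mem_cons (W91 D T h) (mem_cons (W4 D T h) (mem_cons (W6659 D T h) (mem_cons (W6660 D T h) mem_nil))))))))))))) cl1528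
theorem W6661 : WFK w6661 := fun D T h => wf_of_chk h mem_nil (mem_cons (L1528 D T h) mem_nil) cw6661
theorem W6678 : WFK w6678 := fun D T h => wf_of_chk h mem_nil (mem_cons (L666 D T h) mem_nil) cw6678
theorem L1531 : LFK l1531 := fun D T h => lf_of_chk h (mem_cons (W1367 D T h) (mem_cons (W154 D T h) (mem_cons (W4 D T h) (mem_cons (W33 D T h) (mem_cons (W4192 D T h) (mem_cons (W848 D T h) (mem_cons (W904 D T h) (mem_cons (W572 D T h) (mem_cons (W6678 D T h) mem_nil))))))))) cl1531
theorem W6679 : WFK w6679 := fun D T h => wf_of_chk h mem_nil (mem_cons (L1531 D T h) mem_nil) cw6679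
theorem W6680 : WFK w6680 := fun D T h => wf_of_chk h mem_nil (mem_cons (L1326 D T h) mem_nil) cw6680
theorem L1532 : LFK l1532 := fun D T h => lf_of_chk h (mem_cons (W572 D T h) (mem_cons (W15 D T h) (mem_cons (W4 D T h) (mem_cons (W33 D T h) (mem_cons (W4192 D T h) (mem_cons (W848 D T h) (mem_cons (W904 D T h) (mem_cons (W2922 D T h) (mem_cons (W4370 D T h) (mem_cons (W569 D T h) (mem_cons (W6680 D T h) (mem_cons (W267 D T h) (mem_cons (W721 D T h) (mem_cons (W114 D T h) mem_nil)))))))))))))) cl1532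
theorem W6681 : WFK w6681 := fun D T h => wf_of_chk h mem_nil (mem_cons (L1532 D T h) mem_nil) cw6681
theorem W6682 : WFK w6682 := fun D T h => wf_of_chk h mem_nil (mem_cons (L143 D T h) mem_nil) cw6682
theorem W6683 : WFK w6683 := fun D T h => wf_of_chk h mem_nil (mem_cons (L977 D T h) mem_nil) cw6683
theorem L1533 : LFK l1533 := fun D T h => lf_of_chk h (mem_cons (W5157 D T h) (mem_cons (W5606 D T h) (mem_cons (W6682 D T h) (mem_cons (W795 D T h) (mem_cons (W1960 D T h) (mem_cons (W1110 D T h) (mem_cons (W2647 D T h) (mem_cons (W6679 D T h) (mem_cons (W1707 D T h) (mem_cons (W6681 D T h) (mem_cons (W15 D T h) (mem_cons (W2922 D T h) (mem_cons (W572 D T h) (mem_cons (W6683 D T h) (mem_cons (W6553 D T h) mem_nil))))))))))))))) cl1533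
theorem W6684 : WFK w6684 := fun D T h => wf_of_chk h mem_nil (mem_cons (L1533 D T h) mem_nil) cw6684
theorem W6685 : WFK w6685 := fun D T h => wf_of_chk h mem_nil (mem_cons (L46 D T h) mem_nil) cw6685
theorem W6691 : WFK w6691 := fun D T h => wf_of_chk h mem_nil (mem_cons (L1056 D T h) mem_nil) cw6691
theorem W6698 : WFK w6698 := fun D T h => wf_of_chk h mem_nil (mem_cons (L1247 D T h) mem_nil) cw6698
theorem W6699 : WFK w6699 := fun D T h => wf_of_chk h (mem_cons (W220 D T h) (mem_cons (W6552 D T h) mem_nil)) mem_nil cw6699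
theorem W6700 : WFK w6700 := fun D T h => wf_of_chk h mem_nil (mem_cons (L194 D T h) mem_nil) cw6700
theorem W6701 : WFK w6701 := fun D T h => wf_of_chk h mem_nil (mem_cons (L1272 D T h) mem_nil) cw6701
theorem W6702 : WFK w6702 := fun D T h => wf_of_chk h mem_nil (mem_cons (L637 D T h) mem_nil) cw6702
theorem W6703 : WFK w6703 := fun D T h => wf_of_chk h mem_nil (mem_cons (L555 D T h) mem_nil) cw6703
theorem W6704 : WFK w6704 := fun D T h => wf_of_chk h mem_nil (mem_cons (L81 D T h) mem_nil) cw6704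
theorem W6705 : WFK w6705 := fun D T h => wf_of_chk h mem_nil (mem_cons (L1258 D T h) mem_nil) cw6705
theorem W6706 : WFK w6706 := fun D T h => wf_of_chk h mem_nil (mem_cons (L391 D T h) mem_nil) cw6706
theorem W6707 : WFK w6707 := fun D T h => wf_of_chk h (mem_cons (W15 D T h) mem_nil) mem_nil cw6707
theorem W6708 : WFK w6708 := fun D T h => wf_of_chk h mem_nil (mem_cons (L1485 D T h) mem_nil) cw6708
theorem W6709 : WFK w6709 := fun D T h => wf_of_chk h mem_nil (mem_cons (L475 D T h) mem_nil) cw6709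
theorem W6710 : WFK w6710 := fun D T h => wf_of_chk h mem_nil (mem_cons (L637 D T h) mem_nil) cw6710
theorem L1536 : LFK l1536 := fun D T h => lf_of_chk h (mem_cons (W3195 D T h) (mem_cons (W3766 D T h) (mem_cons (W153 D T h) (mem_cons (W6704 D T h) (mem_cons (W2799 D T h) (mem_cons (W6705 D T h) (mem_cons (W1554 D T h) (mem_cons (W6700 D T h) (mem_cons (W2646 D T h) (mem_cons (W6701 D T h) (mem_cons (W6702 D T h) (mem_cons (W6703 D T h) (mem_cons (W15 D T h) (mem_cons (W5157 D T h) (mem_cons (W6706 D T h) (mem_cons (W5176 D T h) (mem_cons (W6707 D T h) (mem_cons (W256 D T h) (mem_cons (W572 D T h) (mem_cons (W871 D T h) (mem_cons (W1139 D T h) (mem_cons (W5137 D T h) (mem_cons (W6708 D T h) (mem_cons (W6709 D T h) (mem_cons (W6710 D T h) mem_nil))))))))))))))))))))))))) cl1536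
theorem W6712 : WFK w6712 := fun D T h => wf_of_chk h (mem_cons (W3766 D T h) mem_nil) mem_nil cw6712
theorem L1537 : LFK l1537 := fun D T h => lf_of_chk h (mem_cons (W15 D T h) (mem_cons (W1 D T h) (mem_cons (W6006 D T h) (mem_cons (W149 D T h) (mem_cons (W281 D T h) (mem_cons (W153 D T h) mem_nil)))))) cl1537
theorem W6714 : WFK w6714 := fun D T h => wf_of_chk h mem_nil (mem_cons (L1537 D T h) mem_nil) cw6714
theorem W6716 : WFK w6716 := fun D T h => wf_of_chk h mem_nil (mem_cons (L278 D T h) mem_nil) cw6716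
theorem W6717 : WFK w6717 := fun D T h => wf_of_chk h mem_nil mem_nil cw6717
theorem W6718 : WFK w6718 := fun D T h => wf_of_chk h mem_nil (mem_cons (L1 D T h) mem_nil) cw6718
theorem W6719 : WFK w6719 := fun D T h => wf_of_chk h mem_nil (mem_cons (L1502 D T h) mem_nil) cw6719
theorem L1538 : LFK l1538 := fun D T h => lf_of_chk h (mem_cons (W149 D T h) (mem_cons (W33 D T h) (mem_cons (W3024 D T h) (mem_cons (W6006 D T h) (mem_cons (W1379 D T h) (mem_cons (W1714 D T h) mem_nil)))))) cl1538
theorem W6720 : WFK w6720 := fun D T h => wf_of_chk h mem_nil (mem_cons (L1538 D T h) mem_nil) cw6720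
theorem W6721 : WFK w6721 := fun D T h => wf_of_chk h mem_nil (mem_cons (L176 D T h) mem_nil) cw6721
theorem L1539 : LFK l1539 := fun D T h => lf_of_chk h (mem_cons (W3024 D T h) (mem_cons (W211 D T h) (mem_cons (W1475 D T h) (mem_cons (W6721 D T h) (mem_cons (W1246 D T h) mem_nil))))) cl1539
theorem W6722 : WFK w6722 := fun D T h => wf_of_chk h mem_nil (mem_cons (L1539 D T h) mem_nil) cw6722
theorem W6723 : WFK w6723 := fun D T h => wf_of_chk h mem_nil mem_nil cw6723
theorem L1540 : LFK l1540 := fun D T h => lf_of_chk h (mem_cons (W3024 D T h) (mem_cons (W33 D T h) (mem_cons (W2204 D T h) (mem_cons (W891 D T h) (mem_cons (W6723 D T h) (mem_cons (W5606 D T h) (mem_cons (W1380 D T h) mem_nil))))))) cl1540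
theorem W6724 : WFK w6724 := fun D T h => wf_of_chk h mem_nil (mem_cons (L1540 D T h) mem_nil) cw6724
theorem W6725 : WFK w6725 := fun D T h => wf_of_chk h mem_nil (mem_cons (L1370 D T h) mem_nil) cw6725
theorem W6726 : WFK w6726 := fun D T h => wf_of_chk h mem_nil (mem_cons (L542 D T h) mem_nil) cw6726
theorem W6727 : WFK w6727 := fun D T h => wf_of_chk h mem_nil (mem_cons (L407 D T h) mem_nil) cw6727
theorem L1542 : LFK l1542 := fun D T h => lf_of_chk h (mem_cons (W15 D T h) (mem_cons (W16 D T h) (mem_cons (W638 D T h) (mem_cons (W149 D T h) (mem_cons (W432 D T h) (mem_cons (W1 D T h) (mem_cons (W281 D T h) (mem_cons (W153 D T h) (mem_cons (W154 D T h) (mem_cons (W152 D T h) mem_nil)))))))))) cl1542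
theorem W6740 : WFK w6740 := fun D T h => wf_of_chk h mem_nil (mem_cons (L194 D T h) mem_nil) cw6740
theorem L1543 : LFK l1543 := fun D T h => lf_of_chk h (mem_cons (W15 D T h) (mem_cons (W1 D T h) (mem_cons (W638 D T h) (mem_cons (W432 D T h) (mem_cons (W149 D T h) (mem_cons (W281 D T h) (mem_cons (W152 D T h) (mem_cons (W154 D T h) (mem_cons (W153 D T h) mem_nil))))))))) cl1543
theorem W6742 : WFK w6742 := fun D T h => wf_of_chk h mem_nil (mem_cons (L1543 D T h) mem_nil) cw6742
theorem L1544 : LFK l1544 := fun D T h => lf_of_chk h (mem_cons (W429 D T h) (mem_cons (W819 D T h) (mem_cons (W5606 D T h) (mem_cons (W1371 D T h) (mem_cons (W39 D T h) (mem_cons (W6742 D T h) (mem_cons (W153 D T h) (mem_cons (W33 D T h) (mem_cons (W2632 D T h) (mem_cons (W923 D T h) (mem_cons (W1540 D T h) (mem_cons (W1393 D T h) mem_nil)))))))))))) cl1544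
theorem W6743 : WFK w6743 := fun D T h => wf_of_chk h mem_nil (mem_cons (L1544 D T h) mem_nil) cw6743
theorem W6744 : WFK w6744 := fun D T h => wf_of_chk h mem_nil (mem_cons (L666 D T h) mem_nil) cw6744
theorem W6745 : WFK w6745 := fun D T h => wf_of_chk h (mem_cons (W16 D T h) (mem_cons (W3766 D T h) mem_nil)) mem_nil cw6745
theorem W6746 : WFK w6746 := fun D T h => wf_of_chk h mem_nil (mem_cons (L267 D T h) mem_nil) cw6746
theorem L1545 : LFK l1545 := fun D T h => lf_of_chk h (mem_cons (W638 D T h) (mem_cons (W976 D T h) (mem_cons (W169 D T h) (mem_cons (W927 D T h) (mem_cons (W33 D T h) (mem_cons (W149 D T h) (mem_cons (W91 D T h) (mem_cons (W4 D T h) mem_nil)))))))) cl1545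
theorem W6747 : WFK w6747 := fun D T h => wf_of_chk h mem_nil (mem_cons (L1545 D T h) mem_nil) cw6747
theorem W6748 : WFK w6748 := fun D T h => wf_of_chk h mem_nil (mem_cons (L310 D T h) mem_nil) cw6748
theorem L1546 : LFK l1546 := fun D T h => lf_of_chk h (mem_cons (W1554 D T h) (mem_cons (W149 D T h) (mem_cons (W638 D T h) (mem_cons (W1 D T h) (mem_cons (W500 D T h) (mem_cons (W141 D T h) (mem_cons (W11 D T h) (mem_cons (W1379 D T h) (mem_cons (W5483 D T h) (mem_cons (W1960 D T h) (mem_cons (W874 D T h) (mem_cons (W2922 D T h) (mem_cons (W2648 D T h) (mem_cons (W746 D T h) (mem_cons (W256 D T h) mem_nil))))))))))))))) cl1546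
theorem W6749 : WFK w6749 := fun D T h => wf_of_chk h mem_nil (mem_cons (L1546 D T h) mem_nil) cw6749
theorem W6750 : WFK w6750 := fun D T h => wf_of_chk h (mem_cons (W16 D T h) (mem_cons (W1139 D T h) mem_nil)) mem_nil cw6750
theorem W6754 : WFK w6754 := fun D T h => wf_of_chk h mem_nil (mem_cons (L788 D T h) mem_nil) cw6754
theorem W6756 : WFK w6756 := fun D T h => wf_of_chk h mem_nil (mem_cons (L330 D T h) mem_nil) cw6756
theorem W6757 : WFK w6757 := fun D T h => wf_of_chk h mem_nil (mem_cons (L168 D T h) mem_nil) cw6757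
theorem W6758 : WFK w6758 := fun D T h => wf_of_chk h mem_nil (mem_cons (L1504 D T h) mem_nil) cw6758
theorem W6759 : WFK w6759 := fun D T h => wf_of_chk h (mem_cons (W17 D T h) mem_nil) mem_nil cw6759
theorem W6760 : WFK w6760 := fun D T h => wf_of_chk h (mem_cons (W16 D T h) (mem_cons (W3766 D T h) mem_nil)) mem_nil cw6760
theorem L1547 : LFK l1547 := fun D T h => lf_of_chk h (mem_cons (W261 D T h) (mem_cons (W15 D T h) (mem_cons (W170 D T h) (mem_cons (W219 D T h) (mem_cons (W1554 D T h) (mem_cons (W5157 D T h) (mem_cons (W3195 D T h) (mem_cons (W3193 D T h) (mem_cons (W5673 D T h) mem_nil))))))))) cl1547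
theorem W6766 : WFK w6766 := fun D T h => wf_of_chk h mem_nil (mem_cons (L1547 D T h) mem_nil) cw6766
theorem W6768 : WFK w6768 := fun D T h => wf_of_chk h mem_nil (mem_cons (L106 D T h) mem_nil) cw6768
theorem W6769 : WFK w6769 := fun D T h => wf_of_chk h mem_nil (mem_cons (L286 D T h) mem_nil) cw6769
theorem L1548 : LFK l1548 := fun D T h => lf_of_chk h (mem_cons (W50 D T h) (mem_cons (W24 D T h) (mem_cons (W209 D T h) (mem_cons (W15 D T h) (mem_cons (W220 D T h) (mem_cons (W2922 D T h) (mem_cons (W6768 D T h) (mem_cons (W6769 D T h) (mem_cons (W3878 D T h) (mem_cons (W42 D T h) (mem_cons (W1362 D T h) (mem_cons (W1361 D T h) (mem_cons (W1354 D T h) (mem_cons (W624 D T h) (mem_cons (W946 D T h) (mem_cons (W2405 D T h) (mem_cons (W5507 D T h) (mem_cons (W1227 D T h) mem_nil)))))))))))))))))) cl1548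
theorem W6770 : WFK w6770 := fun D T h => wf_of_chk h mem_nil (mem_cons (L1548 D T h) mem_nil) cw6770
theorem W6773 : WFK w6773 := fun D T h => wf_of_chk h mem_nil (mem_cons (L1 D T h) mem_nil) cw6773
theorem L1549 : LFK l1549 := fun D T h => lf_of_chk h (mem_cons (W149 D T h) (mem_cons (W33 D T h) (mem_cons (W2204 D T h) (mem_cons (W1737 D T h) (mem_cons (W776 D T h) (mem_cons (W3024 D T h) (mem_cons (W2766 D T h) (mem_cons (W774 D T h) mem_nil)))))))) cl1549
theorem W6774 : WFK w6774 := fun D T h => wf_of_chk h mem_nil (mem_cons (L1549 D T h) mem_nil) cw6774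
theorem W6775 : WFK w6775 := fun D T h => wf_of_chk h (mem_cons (W16 D T h) (mem_cons (W3766 D T h) mem_nil)) mem_nil cw6775
theorem L1550 : LFK l1550 := fun D T h => lf_of_chk h (mem_cons (W1554 D T h) (mem_cons (W15 D T h) (mem_cons (W1 D T h) (mem_cons (W500 D T h) (mem_cons (W141 D T h) (mem_cons (W11 D T h) (mem_cons (W5606 D T h) (mem_cons (W2922 D T h) (mem_cons (W871 D T h) (mem_cons (W746 D T h) (mem_cons (W1489 D T h) (mem_cons (W256 D T h) mem_nil)))))))))))) cl1550
theorem W6776 : WFK w6776 := fun D T h => wf_of_chk h mem_nil (mem_cons (L1550 D T h) mem_nil) cw6776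
theorem W6777 : WFK w6777 := fun D T h => wf_of_chk h (mem_cons (W16 D T h) (mem_cons (W220 D T h) mem_nil)) mem_nil cw6777
theorem W6778 : WFK w6778 := fun D T h => wf_of_chk h (mem_cons (W220 D T h) mem_nil) mem_nil cw6778
theorem W6779 : WFK w6779 := fun D T h => wf_of_chk h mem_nil (mem_cons (L66 D T h) mem_nil) cw6779
theorem W6780 : WFK w6780 := fun D T h => wf_of_chk h mem_nil (mem_cons (L1052 D T h) mem_nil) cw6780
theorem W6781 : WFK w6781 := fun D T h => wf_of_chk h mem_nil (mem_cons (L66 D T h) mem_nil) cw6781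
theorem W6782 : WFK w6782 := fun D T h => wf_of_chk h (mem_cons (W220 D T h) mem_nil) mem_nil cw6782
theorem W6783 : WFK w6783 := fun D T h => wf_of_chk h mem_nil (mem_cons (L538 D T h) mem_nil) cw6783
theorem L1551 : LFK l1551 := fun D T h => lf_of_chk h (mem_cons (W743 D T h) (mem_cons (W1326 D T h) (mem_cons (W2939 D T h) (mem_cons (W368 D T h) (mem_cons (W3797 D T h) (mem_cons (W652 D T h) (mem_cons (W1412 D T h) (mem_cons (W3 D T h) (mem_cons (W6783 D T h) (mem_cons (W4447 D T h) (mem_cons (W976 D T h) (mem_cons (W6778 D T h) (mem_cons (W6779 D T h) (mem_cons (W258 D T h) (mem_cons (W5489 D T h) (mem_cons (W6780 D T h) (mem_cons (W6781 D T h) (mem_cons (W6782 D T h) mem_nil)))))))))))))))))) cl1551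
theorem W6787 : WFK w6787 := fun D T h => wf_of_chk h (mem_cons (W284 D T h) mem_nil) mem_nil cw6787
theorem L1553 : LFK l1553 := fun D T h => lf_of_chk h mem_nil cl1553
theorem W6789 : WFK w6789 := fun D T h => wf_of_chk h mem_nil (mem_cons (L1553 D T h) mem_nil) cw6789
theorem L1554 : LFK l1554 := fun D T h => lf_of_chk h (mem_cons (W743 D T h) (mem_cons (W1326 D T h) (mem_cons (W2939 D T h) (mem_cons (W368 D T h) (mem_cons (W1412 D T h) (mem_cons (W3 D T h) (mem_cons (W220 D T h) (mem_cons (W717 D T h) (mem_cons (W6783 D T h) (mem_cons (W1809 D T h) (mem_cons (W6789 D T h) (mem_cons (W86 D T h) (mem_cons (W652 D T h) (mem_cons (W6390 D T h) (mem_cons (W976 D T h) (mem_cons (W6779 D T h) (mem_cons (W6780 D T h) (mem_cons (W5489 D T h) (mem_cons (W258 D T h) (mem_cons (W6781 D T h) (mem_cons (W2948 D T h) mem_nil))))))))))))))))))))) cl1554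
theorem W6790 : WFK w6790 := fun D T h => wf_of_chk h mem_nil (mem_cons (L1554 D T h) mem_nil) cw6790
theorem W6793 : WFK w6793 := fun D T h => wf_of_chk h mem_nil (mem_cons (L129 D T h) mem_nil) cw6793
theorem L1556 : LFK l1556 := fun D T h => lf_of_chk h (mem_cons (W2743 D T h) mem_nil) cl1556
theorem W6794 : WFK w6794 := fun D T h => wf_of_chk h mem_nil (mem_cons (L1556 D T h) mem_nil) cw6794
theorem L1557 : LFK l1557 := fun D T h => lf_of_chk h (mem_cons (W149 D T h) (mem_cons (W33 D T h) (mem_cons (W6006 D T h) (mem_cons (W1379 D T h) (mem_cons (W1393 D T h) mem_nil))))) cl1557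
theorem W6797 : WFK w6797 := fun D T h => wf_of_chk h mem_nil (mem_cons (L1557 D T h) mem_nil) cw6797
theorem W6798 : WFK w6798 := fun D T h => wf_of_chk h mem_nil (mem_cons (L41 D T h) mem_nil) cw6798
theorem W6803 : WFK w6803 := fun D T h => wf_of_chk h mem_nil (mem_cons (L129 D T h) mem_nil) cw6803
theorem W6805 : WFK w6805 := fun D T h => wf_of_chk h mem_nil (mem_cons (L199 D T h) mem_nil) cw6805
theorem L1559 : LFK l1559 := fun D T h => lf_of_chk h (mem_cons (W6684 D T h) (mem_cons (W16 D T h) (mem_cons (W461 D T h) (mem_cons (W924 D T h) (mem_cons (W6805 D T h) (mem_cons (W6372 D T h) (mem_cons (W4025 D T h) (mem_cons (W1924 D T h) (mem_cons (W281 D T h) (mem_cons (W912 D T h) (mem_cons (W917 D T h) (mem_cons (W796 D T h) (mem_cons (W1690 D T h) (mem_cons (W1707 D T h) (mem_cons (W6758 D T h) (mem_cons (W42 D T h) (mem_cons (W259 D T h) mem_nil))))))))))))))))) cl1559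
theorem W6806 : WFK w6806 := fun D T h => wf_of_chk h mem_nil (mem_cons (L1559 D T h) mem_nil) cw6806
theorem W6807 : WFK w6807 := fun D T h => wf_of_chk h mem_nil (mem_cons (L1545 D T h) mem_nil) cw6807
theorem W6808 : WFK w6808 := fun D T h => wf_of_chk h mem_nil (mem_cons (L830 D T h) mem_nil) cw6808
theorem L1560 : LFK l1560 := fun D T h => lf_of_chk h (mem_cons (W6807 D T h) (mem_cons (W638 D T h) (mem_cons (W149 D T h) (mem_cons (W888 D T h) (mem_cons (W983 D T h) (mem_cons (W4342 D T h) (mem_cons (W887 D T h) (mem_cons (W5903 D T h) (mem_cons (W6808 D T h) (mem_cons (W6491 D T h) (mem_cons (W91 D T h) (mem_cons (W576 D T h) (mem_cons (W501 D T h) (mem_cons (W1673 D T h) (mem_cons (W2786 D T h) (mem_cons (W6803 D T h) (mem_cons (W1326 D T h) (mem_cons (W6797 D T h) (mem_cons (W2922 D T h) mem_nil))))))))))))))))))) cl1560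
theorem W6809 : WFK w6809 := fun D T h => wf_of_chk h mem_nil (mem_cons (L1560 D T h) mem_nil) cw6809
theorem L1561 : LFK l1561 := fun D T h => lf_of_chk h (mem_cons (W6699 D T h) (mem_cons (W714 D T h) (mem_cons (W2068 D T h) (mem_cons (W5447 D T h) (mem_cons (W6782 D T h) (mem_cons (W6809 D T h) (mem_cons (W638 D T h) (mem_cons (W5585 D T h) (mem_cons (W5655 D T h) (mem_cons (W5673 D T h) (mem_cons (W431 D T h) (mem_cons (W799 D T h) (mem_cons (W6719 D T h) (mem_cons (W6491 D T h) (mem_cons (W42 D T h) (mem_cons (W4256 D T h) (mem_cons (W6756 D T h) (mem_cons (W5633 D T h) mem_nil)))))))))))))))))) cl1561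
theorem W6810 : WFK w6810 := fun D T h => wf_of_chk h mem_nil (mem_cons (L1561 D T h) mem_nil) cw6810
theorem W6811 : WFK w6811 := fun D T h => wf_of_chk h (mem_cons (W177 D T h) (mem_cons (W16 D T h) mem_nil)) mem_nil cw6811
theorem W6812 : WFK w6812 := fun D T h => wf_of_chk h mem_nil (mem_cons (L639 D T h) mem_nil) cw6812
theorem L1562 : LFK l1562 := fun D T h => lf_of_chk h (mem_cons (W5633 D T h) (mem_cons (W16 D T h) (mem_cons (W5841 D T h) (mem_cons (W2802 D T h) (mem_cons (W2805 D T h) (mem_cons (W638 D T h) (mem_cons (W6812 D T h) (mem_cons (W5585 D T h) (mem_cons (W5655 D T h) (mem_cons (W5673 D T h) (mem_cons (W152 D T h) (mem_cons (W799 D T h) (mem_cons (W6719 D T h) (mem_cons (W6702 D T h) (mem_cons (W6758 D T h) (mem_cons (W42 D T h) (mem_cons (W6684 D T h) (mem_cons (W6756 D T h) (mem_cons (W1690 D T h) mem_nil))))))))))))))))))) cl1562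
theorem W6813 : WFK w6813 := fun D T h => wf_of_chk h mem_nil (mem_cons (L1562 D T h) mem_nil) cw6813
theorem L1563 : LFK l1563 := fun D T h => lf_of_chk h (mem_cons (W42 D T h) (mem_cons (W1311 D T h) (mem_cons (W721 D T h) (mem_cons (W15 D T h) (mem_cons (W220 D T h) (mem_cons (W431 D T h) (mem_cons (W267 D T h) (mem_cons (W722 D T h) (mem_cons (W162 D T h) (mem_cons (W726 D T h) (mem_cons (W461 D T h) (mem_cons (W3 D T h) (mem_cons (W39 D T h) (mem_cons (W6552 D T h) (mem_cons (W4032 D T h) (mem_cons (W161 D T h) (mem_cons (W1554 D T h) (mem_cons (W581 D T h) (mem_cons (W1325 D T h) (mem_cons (W1326 D T h) mem_nil)))))))))))))))))))) cl1563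
theorem W6814 : WFK w6814 := fun D T h => wf_of_chk h mem_nil (mem_cons (L1563 D T h) mem_nil) cw6814
theorem L1564 : LFK l1564 := fun D T h => lf_of_chk h (mem_cons (W6477 D T h) (mem_cons (W42 D T h) (mem_cons (W6811 D T h) (mem_cons (W164 D T h) (mem_cons (W6494 D T h) (mem_cons (W6613 D T h) (mem_cons (W2017 D T h) (mem_cons (W5633 D T h) (mem_cons (W4397 D T h) (mem_cons (W2994 D T h) (mem_cons (W6806 D T h) (mem_cons (W16 D T h) (mem_cons (W6813 D T h) (mem_cons (W6814 D T h) (mem_cons (W455 D T h) (mem_cons (W1599 D T h) (mem_cons (W2714 D T h) (mem_cons (W1357 D T h) (mem_cons (W220 D T h) (mem_cons (W1139 D T h) (mem_cons (W2366 D T h) (mem_cons (W6810 D T h) mem_nil)))))))))))))))))))))) cl1564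
theorem W6815 : WFK w6815 := fun D T h => wf_of_chk h mem_nil (mem_cons (L1564 D T h) mem_nil) cw6815
theorem W6816 : WFK w6816 := fun D T h => wf_of_chk h mem_nil (mem_cons (L1560 D T h) mem_nil) cw6816
theorem L1565 : LFK l1565 := fun D T h => lf_of_chk h (mem_cons (W5633 D T h) (mem_cons (W42 D T h) (mem_cons (W6756 D T h) (mem_cons (W4256 D T h) (mem_cons (W16 D T h) (mem_cons (W5841 D T h) (mem_cons (W5575 D T h) (mem_cons (W3006 D T h) (mem_cons (W5634 D T h) (mem_cons (W638 D T h) (mem_cons (W6816 D T h) (mem_cons (W5585 D T h) (mem_cons (W5655 D T h) (mem_cons (W5673 D T h) (mem_cons (W431 D T h) (mem_cons (W799 D T h) (mem_cons (W6758 D T h) (mem_cons (W6719 D T h) (mem_cons (W6491 D T h) mem_nil))))))))))))))))))) cl1565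
theorem W6817 : WFK w6817 := fun D T h => wf_of_chk h mem_nil (mem_cons (L1565 D T h) mem_nil) cw6817
theorem W6818 : WFK w6818 := fun D T h => wf_of_chk h mem_nil (mem_cons (L1560 D T h) mem_nil) cw6818
theorem L1566 : LFK l1566 := fun D T h => lf_of_chk h (mem_cons (W5633 D T h) (mem_cons (W42 D T h) (mem_cons (W6756 D T h) (mem_cons (W4256 D T h) (mem_cons (W16 D T h) (mem_cons (W5841 D T h) (mem_cons (W5575 D T h) (mem_cons (W3006 D T h) (mem_cons (W5634 D T h) (mem_cons (W638 D T h) (mem_cons (W6818 D T h) (mem_cons (W5585 D T h) (mem_cons (W5655 D T h) (mem_cons (W5673 D T h) (mem_cons (W431 D T h) (mem_cons (W799 D T h) (mem_cons (W6758 D T h) (mem_cons (W6719 D T h) (mem_cons (W6491 D T h) mem_nil))))))))))))))))))) cl1566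
theorem W6819 : WFK w6819 := fun D T h => wf_of_chk h mem_nil (mem_cons (L1566 D T h) mem_nil) cw6819
theorem W6820 : WFK w6820 := fun D T h => wf_of_chk h (mem_cons (W177 D T h) (mem_cons (W16 D T h) mem_nil)) mem_nil cw6820
theorem W6821 : WFK w6821 := fun D T h => wf_of_chk h mem_nil (mem_cons (L1110 D T h) mem_nil) cw6821
theorem W6822 : WFK w6822 := fun D T h => wf_of_chk h mem_nil (mem_cons (L594 D T h) mem_nil) cw6822
theorem W6823 : WFK w6823 := fun D T h => wf_of_chk h (mem_cons (W220 D T h) (mem_cons (W461 D T h) mem_nil)) mem_nil cw6823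
theorem W6824 : WFK w6824 := fun D T h => wf_of_chk h mem_nil (mem_cons (L676 D T h) mem_nil) cw6824
theorem W6825 : WFK w6825 := fun D T h => wf_of_chk h mem_nil mem_nil cw6825
theorem W6826 : WFK w6826 := fun D T h => wf_of_chk h mem_nil mem_nil cw6826
theorem L1567 : LFK l1567 := fun D T h => lf_of_chk h (mem_cons (W5415 D T h) (mem_cons (W4806 D T h) (mem_cons (W69 D T h) (mem_cons (W411 D T h) (mem_cons (W2483 D T h) (mem_cons (W6825 D T h) (mem_cons (W1101 D T h) (mem_cons (W4562 D T h) (mem_cons (W1842 D T h) (mem_cons (W6826 D T h) mem_nil)))))))))) cl1567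
theorem W6827 : WFK w6827 := fun D T h => wf_of_chk h mem_nil (mem_cons (L1567 D T h) mem_nil) cw6827
theorem W6828 : WFK w6828 := fun D T h => wf_of_chk h mem_nil (mem_cons (L46 D T h) mem_nil) cw6828
theorem L1568 : LFK l1568 := fun D T h => lf_of_chk h (mem_cons (W390 D T h) (mem_cons (W714 D T h) (mem_cons (W5831 D T h) (mem_cons (W6827 D T h) (mem_cons (W2970 D T h) (mem_cons (W6828 D T h) (mem_cons (W1654 D T h) (mem_cons (W302 D T h) (mem_cons (W220 D T h) (mem_cons (W86 D T h) (mem_cons (W652 D T h) (mem_cons (W6824 D T h) mem_nil)))))))))))) cl1568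
theorem W6829 : WFK w6829 := fun D T h => wf_of_chk h mem_nil (mem_cons (L1568 D T h) mem_nil) cw6829
theorem L1569 : LFK l1569 := fun D T h => lf_of_chk h (mem_cons (W6552 D T h) mem_nil) cl1569
theorem W6830 : WFK w6830 := fun D T h => wf_of_chk h mem_nil (mem_cons (L1569 D T h) mem_nil) cw6830
theorem W6831 : WFK w6831 := fun D T h => wf_of_chk h mem_nil (mem_cons (L541 D T h) mem_nil) cw6831
theorem L1570 : LFK l1570 := fun D T h => lf_of_chk h (mem_cons (W6646 D T h) (mem_cons (W267 D T h) (mem_cons (W6830 D T h) (mem_cons (W6552 D T h) (mem_cons (W12 D T h) (mem_cons (W5358 D T h) (mem_cons (W3274 D T h) (mem_cons (W581 D T h) (mem_cons (W1556 D T h) (mem_cons (W281 D T h) (mem_cons (W6726 D T h) (mem_cons (W6831 D T h) (mem_cons (W6779 D T h) (mem_cons (W871 D T h) (mem_cons (W747 D T h) (mem_cons (W160 D T h) mem_nil)))))))))))))))) cl1570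
theorem W6832 : WFK w6832 := fun D T h => wf_of_chk h mem_nil (mem_cons (L1570 D T h) mem_nil) cw6832
theorem W6833 : WFK w6833 := fun D T h => wf_of_chk h mem_nil (mem_cons (L1569 D T h) mem_nil) cw6833
theorem W6834 : WFK w6834 := fun D T h => wf_of_chk h mem_nil (mem_cons (L335 D T h) mem_nil) cw6834
theorem L1571 : LFK l1571 := fun D T h => lf_of_chk h (mem_cons (W5841 D T h) (mem_cons (W42 D T h) (mem_cons (W6833 D T h) (mem_cons (W6552 D T h) (mem_cons (W1919 D T h) (mem_cons (W3 D T h) (mem_cons (W39 D T h) (mem_cons (W281 D T h) (mem_cons (W6726 D T h) (mem_cons (W6646 D T h) (mem_cons (W6834 D T h) (mem_cons (W267 D T h) (mem_cons (W722 D T h) (mem_cons (W721 D T h) (mem_cons (W431 D T h) mem_nil))))))))))))))) cl1571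
theorem W6835 : WFK w6835 := fun D T h => wf_of_chk h mem_nil (mem_cons (L1571 D T h) mem_nil) cw6835
theorem W6836 : WFK w6836 := fun D T h => wf_of_chk h (mem_cons (W461 D T h) mem_nil) mem_nil cw6836
theorem L1572 : LFK l1572 := fun D T h => lf_of_chk h (mem_cons (W4531 D T h) (mem_cons (W6714 D T h) (mem_cons (W6552 D T h) (mem_cons (W69 D T h) (mem_cons (W487 D T h) (mem_cons (W86 D T h) (mem_cons (W1206 D T h) (mem_cons (W85 D T h) (mem_cons (W4566 D T h) (mem_cons (W88 D T h) (mem_cons (W6725 D T h) (mem_cons (W105 D T h) (mem_cons (W6006 D T h) (mem_cons (W4260 D T h) (mem_cons (W5943 D T h) (mem_cons (W573 D T h) (mem_cons (W1202 D T h) (mem_cons (W5472 D T h) (mem_cons (W6836 D T h) (mem_cons (W6834 D T h) (mem_cons (W1205 D T h) mem_nil))))))))))))))))))))) cl1572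
theorem W6837 : WFK w6837 := fun D T h => wf_of_chk h mem_nil (mem_cons (L1572 D T h) mem_nil) cw6837
theorem W6838 : WFK w6838 := fun D T h => wf_of_chk h mem_nil (mem_cons (L1571 D T h) mem_nil) cw6838
theorem W6839 : WFK w6839 := fun D T h => wf_of_chk h (mem_cons (W16 D T h) (mem_cons (W6714 D T h) mem_nil)) mem_nil cw6839
theorem W6840 : WFK w6840 := fun D T h => wf_of_chk h mem_nil (mem_cons (L1259 D T h) mem_nil) cw6840
theorem W6841 : WFK w6841 := fun D T h => wf_of_chk h (mem_cons (W220 D T h) (mem_cons (W16 D T h) mem_nil)) mem_nil cw6841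
theorem W6842 : WFK w6842 := fun D T h => wf_of_chk h (mem_cons (W1409 D T h) (mem_cons (W16 D T h) mem_nil)) mem_nil cw6842
theorem W6843 : WFK w6843 := fun D T h => wf_of_chk h (mem_cons (W401 D T h) (mem_cons (W16 D T h) mem_nil)) mem_nil cw6843
theorem W6844 : WFK w6844 := fun D T h => wf_of_chk h (mem_cons (W461 D T h) (mem_cons (W16 D T h) mem_nil)) mem_nil cw6844
theorem L1573 : LFK l1573 := fun D T h => lf_of_chk h (mem_cons (W2017 D T h) (mem_cons (W6552 D T h) (mem_cons (W6811 D T h) (mem_cons (W6714 D T h) (mem_cons (W5594 D T h) (mem_cons (W42 D T h) (mem_cons (W970 D T h) (mem_cons (W6568 D T h) (mem_cons (W6840 D T h) (mem_cons (W390 D T h) (mem_cons (W3766 D T h) (mem_cons (W114 D T h) (mem_cons (W2724 D T h) (mem_cons (W2517 D T h) (mem_cons (W6841 D T h) (mem_cons (W2843 D T h) (mem_cons (W6842 D T h) (mem_cons (W2844 D T h) (mem_cons (W6844 D T h) (mem_cons (W6719 D T h) (mem_cons (W6843 D T h) (mem_cons (W16 D T h) (mem_cons (W6821 D T h) (mem_cons (W6837 D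 T h) (mem_cons (W6838 D T h) (mem_cons (W2936 D T h) (mem_cons (W6839 D T h) (mem_cons (W6822 D T h) (mem_cons (W220 D T h) (mem_cons (W1571 D T h) (mem_cons (W1139 D T h) (mem_cons (W6823 D T h) (mem_cons (W6829 D T h) (mem_cons (W6832 D T h) (mem_cons (W6835 D T h) mem_nil))))))))))))))))))))))))))))))))))) cl1573
theorem W6845 : WFK w6845 := fun D T h => wf_of_chk h mem_nil (mem_cons (L1573 D T h) mem_nil) cw6845
theorem W6846 : WFK w6846 := fun D T h => wf_of_chk h mem_nil (mem_cons (L527 D T h) mem_nil) cw6846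
theorem W6847 : WFK w6847 := fun D T h => wf_of_chk h (mem_cons (W50 D T h) (mem_cons (W16 D T h) mem_nil)) mem_nil cw6847
theorem W6848 : WFK w6848 := fun D T h => wf_of_chk h mem_nil (mem_cons (L527 D T h) mem_nil) cw6848
theorem W6849 : WFK w6849 := fun D T h => wf_of_chk h mem_nil (mem_cons (L527 D T h) mem_nil) cw6849
theorem W6850 : WFK w6850 := fun D T h => wf_of_chk h mem_nil (mem_cons (L527 D T h) mem_nil) cw6850
theorem L1574 : LFK l1574 := fun D T h => lf_of_chk h (mem_cons (W6477 D T h) (mem_cons (W16 D T h) (mem_cons (W2326 D T h) (mem_cons (W6550 D T h) (mem_cons (W164 D T h) (mem_cons (W6845 D T h) (mem_cons (W42 D T h) (mem_cons (W1599 D T h) (mem_cons (W6613 D T h) (mem_cons (W455 D T h) (mem_cons (W6814 D T h) (mem_cons (W220 D T h) (mem_cons (W1357 D T h) (mem_cons (W2714 D T h) (mem_cons (W6817 D T h) (mem_cons (W2366 D T h) (mem_cons (W1139 D T h) (mem_cons (W6819 D T h) (mem_cons (W6820 D T h) (mem_cons (W6846 D T h) (mem_cons (W6847 D T h) (mem_cons (W6848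 D T h) (mem_cons (W6850 D T h) (mem_cons (W5633 D T h) (mem_cons (W6849 D T h) (mem_cons (W6811 D T h) (mem_cons (W4397 D T h) (mem_cons (W6494 D T h) (mem_cons (W2017 D T h) (mem_cons (W6775 D T h) mem_nil)))))))))))))))))))))))))))))) cl1574
theorem W6851 : WFK w6851 := fun D T h => wf_of_chk h mem_nil (mem_cons (L1574 D T h) mem_nil) cw6851
theorem L1579 : LFK l1579 := fun D T h => lf_of_chk h (mem_cons (W154 D T h) (mem_cons (W1075 D T h) (mem_cons (W1546 D T h) (mem_cons (W161 D T h) mem_nil)))) cl1579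
theorem W6861 : WFK w6861 := fun D T h => wf_of_chk h mem_nil (mem_cons (L1579 D T h) mem_nil) cw6861
theorem W6865 : WFK w6865 := fun D T h => wf_of_chk h mem_nil mem_nil cw6865
theorem W6867 : WFK w6867 := fun D T h => wf_of_chk h mem_nil mem_nil cw6867
theorem W6871 : WFK w6871 := fun D T h => wf_of_chk h mem_nil mem_nil cw6871
theorem W6891 : WFK w6891 := fun D T h => wf_of_chk h mem_nil (mem_cons (L305 D T h) mem_nil) cw6891
theorem L1583 : LFK l1583 := fun D T h => lf_of_chk h (mem_cons (W5841 D T h) (mem_cons (W50 D T h) (mem_cons (W669 D T h) (mem_cons (W2323 D T h) (mem_cons (W39 D T h) (mem_cons (W1919 D T h) (mem_cons (W3 D T h) (mem_cons (W368 D T h) (mem_cons (W1 D T h) (mem_cons (W170 D T h) (mem_cons (W581 D T h) (mem_cons (W1325 D T h) (mem_cons (W1326 D T h) (mem_cons (W1554 D T h) (mem_cons (W181 D T h) (mem_cons (W3766 D T h) mem_nil)))))))))))))))) cl1583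
theorem W6892 : WFK w6892 := fun D T h => wf_of_chk h mem_nil (mem_cons (L1583 D T h) mem_nil) cw6892
theorem L1587 : LFK l1587 := fun D T h => lf_of_chk h (mem_cons (W3766 D T h) mem_nil) cl1587
theorem W6899 : WFK w6899 := fun D T h => wf_of_chk h mem_nil (mem_cons (L342 D T h) mem_nil) cw6899
theorem W6902 : WFK w6902 := fun D T h => wf_of_chk h mem_nil (mem_cons (L330 D T h) mem_nil) cw6902
theorem L1590 : LFK l1590 := fun D T h => lf_of_chk h (mem_cons (W5841 D T h) (mem_cons (W669 D T h) (mem_cons (W726 D T h) (mem_cons (W3 D T h) (mem_cons (W1919 D T h) (mem_cons (W39 D T h) (mem_cons (W1 D T h) (mem_cons (W368 D T h) (mem_cons (W170 D T h) (mem_cons (W581 D T h) (mem_cons (W1326 D T h) (mem_cons (W1325 D T h) (mem_cons (W1554 D T h) (mem_cons (W181 D T h) (mem_cons (W3766 D T h) mem_nil))))))))))))))) cl1590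
theorem W6904 : WFK w6904 := fun D T h => wf_of_chk h mem_nil (mem_cons (L1590 D T h) mem_nil) cw6904
theorem W6909 : WFK w6909 := fun D T h => wf_of_chk h mem_nil (mem_cons (L1587 D T h) mem_nil) cw6909
theorem L1593 : LFK l1593 := fun D T h => lf_of_chk h (mem_cons (W220 D T h) mem_nil) cl1593
theorem W6911 : WFK w6911 := fun D T h => wf_of_chk h mem_nil (mem_cons (L1593 D T h) mem_nil) cw6911
theorem W6916 : WFK w6916 := fun D T h => wf_of_chk h mem_nil (mem_cons (L1272 D T h) mem_nil) cw6916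
theorem W6925 : WFK w6925 := fun D T h => wf_of_chk h (mem_cons (W16 D T h) (mem_cons (W4209 D T h) mem_nil)) mem_nil cw6925
theorem L1598 : LFK l1598 := fun D T h => lf_of_chk h (mem_cons (W2766 D T h) (mem_cons (W4 D T h) (mem_cons (W124 D T h) (mem_cons (W831 D T h) (mem_cons (W47 D T h) (mem_cons (W381 D T h) mem_nil)))))) cl1598
theorem W6928 : WFK w6928 := fun D T h => wf_of_chk h mem_nil (mem_cons (L1598 D T h) mem_nil) cw6928
theorem W6930 : WFK w6930 := fun D T h => wf_of_chk h mem_nil (mem_cons (L267 D T h) mem_nil) cw6930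
theorem W6931 : WFK w6931 := fun D T h => wf_of_chk h mem_nil (mem_cons (L672 D T h) mem_nil) cw6931
theorem W6932 : WFK w6932 := fun D T h => wf_of_chk h mem_nil (mem_cons (L1545 D T h) mem_nil) cw6932
theorem W6935 : WFK w6935 := fun D T h => wf_of_chk h mem_nil (mem_cons (L788 D T h) mem_nil) cw6935
theorem W6938 : WFK w6938 := fun D T h => wf_of_chk h mem_nil (mem_cons (L1537 D T h) mem_nil) cw6938
theorem L1599 : LFK l1599 := fun D T h => lf_of_chk h (mem_cons (W15 D T h) (mem_cons (W1 D T h) (mem_cons (W2204 D T h) (mem_cons (W638 D T h) (mem_cons (W432 D T h) (mem_cons (W149 D T h) (mem_cons (W281 D T h) (mem_cons (W1564 D T h) mem_nil)))))))) cl1599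
theorem L1603 : LFK l1603 := fun D T h => lf_of_chk h (mem_cons (W667 D T h) (mem_cons (W669 D T h) (mem_cons (W3727 D T h) (mem_cons (W17 D T h) mem_nil)))) cl1603
theorem W6955 : WFK w6955 := fun D T h => wf_of_chk h (mem_cons (W16 D T h) (mem_cons (W50 D T h) mem_nil)) mem_nil cw6955
theorem W6956 : WFK w6956 := fun D T h => wf_of_chk h (mem_cons (W16 D T h) (mem_cons (W50 D T h) mem_nil)) mem_nil cw6956
theorem L1607 : LFK l1607 := fun D T h => lf_of_chk h mem_nil cl1607
theorem W6958 : WFK w6958 := fun D T h => wf_of_chk h mem_nil (mem_cons (L1607 D T h) mem_nil) cw6958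
theorem W6959 : WFK w6959 := fun D T h => wf_of_chk h mem_nil (mem_cons (L1607 D T h) mem_nil) cw6959
theorem L1608 : LFK l1608 := fun D T h => lf_of_chk h (mem_cons (W6958 D T h) (mem_cons (W1249 D T h) (mem_cons (W211 D T h) (mem_cons (W2766 D T h) (mem_cons (W431 D T h) (mem_cons (W6959 D T h) (mem_cons (W429 D T h) mem_nil))))))) cl1608
theorem W6960 : WFK w6960 := fun D T h => wf_of_chk h mem_nil (mem_cons (L1608 D T h) mem_nil) cw6960
theorem L1609 : LFK l1609 := fun D T h => lf_of_chk h mem_nil cl1609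
theorem W6961 : WFK w6961 := fun D T h => wf_of_chk h mem_nil (mem_cons (L1609 D T h) mem_nil) cw6961
theorem W6962 : WFK w6962 := fun D T h => wf_of_chk h mem_nil (mem_cons (L1609 D T h) mem_nil) cw6962
theorem W6967 : WFK w6967 := fun D T h => wf_of_chk h mem_nil (mem_cons (L104 D T h) mem_nil) cw6967
theorem W6968 : WFK w6968 := fun D T h => wf_of_chk h mem_nil (mem_cons (L268 D T h) mem_nil) cw6968

end Pool.Agent.W319.GCI.K5
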