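import Pool.Agent.W319.GCI.K5A5
set_option autoImplicit false
set_option maxRecDepth 100000
set_option linter.all false
namespace Pool.Agent.W319.GCI.K5
open Pool.Agent.W319.GCI

theorem W6969 : WFK w6969 := fun D T h => wf_of_chk h mem_nil (mem_cons (L1544 D T h) mem_nil) cw6969
theorem W6971 : WFK w6971 := fun D T h => wf_of_chk h mem_nil (mem_cons (L1607 D T h) mem_nil) cw6971
theorem W6972 : WFK w6972 := fun D T h => wf_of_chk h (mem_cons (W16 D T h) (mem_cons (W50 D T h) mem_nil)) mem_nil cw6972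
theorem W6976 : WFK w6976 := fun D T h => wf_of_chk h (mem_cons (W16 D T h) (mem_cons (W2930 D T h) mem_nil)) mem_nil cw6976
theorem W6977 : WFK w6977 := fun D T h => wf_of_chk h mem_nil (mem_cons (L446 D T h) mem_nil) cw6977
theorem W6980 : WFK w6980 := fun D T h => wf_of_chk h (mem_cons (W16 D T h) (mem_cons (W667 D T h) mem_nil)) mem_nil cw6980
theorem W6984 : WFK w6984 := fun D T h => wf_of_chk h (mem_cons (W1318 D T h) mem_nil) mem_nil cw6984
theorem L1614 : LFK l1614 := fun D T h => lf_of_chk h (mem_cons (W177 D T h) (mem_cons (W4023 D T h) (mem_cons (W1318 D T h) (mem_cons (W17 D T h) (mem_cons (W3178 D T h) (mem_cons (W449 D T h) (mem_cons (W5177 D T h) (mem_cons (W341 D T h) (mem_cons (W3409 D T h) (mem_cons (W1433 D T h) (mem_cons (W6984 D T h) (mem_cons (W495 D T h) (mem_cons (W757 D T h) (mem_cons (W497 D T h) mem_nil)))))))))))))) cl1614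
theorem W6985 : WFK w6985 := fun D T h => wf_of_chk h mem_nil (mem_cons (L1614 D T h) mem_nil) cw6985
theorem W6986 : WFK w6986 := fun D T h => wf_of_chk h mem_nil (mem_cons (L1614 D T h) mem_nil) cw6986
theorem W6987 : WFK w6987 := fun D T h => wf_of_chk h mem_nil (mem_cons (L1614 D T h) mem_nil) cw6987
theorem W6988 : WFK w6988 := fun D T h => wf_of_chk h mem_nil (mem_cons (L655 D T h) mem_nil) cw6988
theorem L1615 : LFK l1615 := fun D T h => lf_of_chk h (mem_cons (W5633 D T h) (mem_cons (W42 D T h) (mem_cons (W1690 D T h) (mem_cons (W16 D T h) (mem_cons (W15 D T h) (mem_cons (W6988 D T h) (mem_cons (W1193 D T h) (mem_cons (W5585 D T h) (mem_cons (W5673 D T h) (mem_cons (W799 D T h) mem_nil)))))))))) cl1615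
theorem W6989 : WFK w6989 := fun D T h => wf_of_chk h mem_nil (mem_cons (L1615 D T h) mem_nil) cw6989
theorem W6990 : WFK w6990 := fun D T h => wf_of_chk h (mem_cons (W16 D T h) (mem_cons (W2326 D T h) mem_nil)) mem_nil cw6990
theorem W6991 : WFK w6991 := fun D T h => wf_of_chk h mem_nil (mem_cons (L1574 D T h) mem_nil) cw6991
theorem W6992 : WFK w6992 := fun D T h => wf_of_chk h (mem_cons (W2326 D T h) mem_nil) mem_nil cw6992
theorem W6993 : WFK w6993 := fun D T h => wf_of_chk h mem_nil (mem_cons (L1557 D T h) mem_nil) cw6993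
theorem W6994 : WFK w6994 := fun D T h => wf_of_chk h mem_nil (mem_cons (L104 D T h) mem_nil) cw6994
theorem W6995 : WFK w6995 := fun D T h => wf_of_chk h mem_nil (mem_cons (L1537 D T h) mem_nil) cw6995
theorem W6996 : WFK w6996 := fun D T h => wf_of_chk h mem_nil (mem_cons (L1031 D T h) mem_nil) cw6996
theorem W6997 : WFK w6997 := fun D T h => wf_of_chk h mem_nil (mem_cons (L787 D T h) mem_nil) cw6997
theorem L1616 : LFK l1616 := fun D T h => lf_of_chk h (mem_cons (W164 D T h) (mem_cons (W114 D T h) (mem_cons (W15 D T h) (mem_cons (W203 D T h) (mem_cons (W3184 D T h) (mem_cons (W3878 D T h) (mem_cons (W6996 D T h) (mem_cons (W39 D T h) (mem_cons (W6997 D T h) (mem_cons (W6995 D T h) (mem_cons (W69 D T h) (mem_cons (W1555 D T h) (mem_cons (W6993 D T h) (mem_cons (W1326 D T h) (mem_cons (W6994 D T h) (mem_cons (W2723 D T h) mem_nil)))))))))))))))) cl1616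
theorem W6998 : WFK w6998 := fun D T h => wf_of_chk h mem_nil (mem_cons (L1616 D T h) mem_nil) cw6998
theorem L1617 : LFK l1617 := fun D T h => lf_of_chk h (mem_cons (W177 D T h) (mem_cons (W6991 D T h) (mem_cons (W2997 D T h) (mem_cons (W2326 D T h) (mem_cons (W17 D T h) (mem_cons (W6998 D T h) (mem_cons (W449 D T h) (mem_cons (W6623 D T h) (mem_cons (W5177 D T h) (mem_cons (W3178 D T h) (mem_cons (W341 D T h) (mem_cons (W1433 D T h) (mem_cons (W6992 D T h) (mem_cons (W495 D T h) (mem_cons (W757 D T h) (mem_cons (W497 D T h) mem_nil)))))))))))))))) cl1617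
theorem W6999 : WFK w6999 := fun D T h => wf_of_chk h mem_nil (mem_cons (L1617 D T h) mem_nil) cw6999
theorem W7000 : WFK w7000 := fun D T h => wf_of_chk h (mem_cons (W128 D T h) (mem_cons (W2997 D T h) mem_nil)) mem_nil cw7000
theorem W7001 : WFK w7001 := fun D T h => wf_of_chk h (mem_cons (W284 D T h) (mem_cons (W2997 D T h) mem_nil)) mem_nil cw7001
theorem W7002 : WFK w7002 := fun D T h => wf_of_chk h (mem_cons (W1439 D T h) (mem_cons (W16 D T h) mem_nil)) mem_nil cw7002
theorem W7003 : WFK w7003 := fun D T h => wf_of_chk h (mem_cons (W1361 D T h) (mem_cons (W16 D T h) mem_nil)) mem_nil cw7003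
theorem L1618 : LFK l1618 := fun D T h => lf_of_chk h (mem_cons (W6758 D T h) (mem_cons (W56 D T h) (mem_cons (W16 D T h) (mem_cons (W12 D T h) (mem_cons (W5358 D T h) (mem_cons (W255 D T h) (mem_cons (W295 D T h) (mem_cons (W6961 D T h) (mem_cons (W296 D T h) (mem_cons (W1051 D T h) (mem_cons (W3766 D T h) (mem_cons (W501 D T h) (mem_cons (W299 D T h) (mem_cons (W6722 D T h) mem_nil)))))))))))))) cl1618
theorem W7004 : WFK w7004 := fun D T h => wf_of_chk h mem_nil (mem_cons (L1618 D T h) mem_nil) cw7004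
theorem W7005 : WFK w7005 := fun D T h => wf_of_chk h mem_nil (mem_cons (L925 D T h) mem_nil) cw7005
theorem W7006 : WFK w7006 := fun D T h => wf_of_chk h mem_nil (mem_cons (L836 D T h) mem_nil) cw7006
theorem L1619 : LFK l1619 := fun D T h => lf_of_chk h (mem_cons (W3766 D T h) (mem_cons (W16 D T h) (mem_cons (W2098 D T h) (mem_cons (W1 D T h) (mem_cons (W7006 D T h) (mem_cons (W1326 D T h) (mem_cons (W1325 D T h) (mem_cons (W1554 D T h) (mem_cons (W581 D T h) mem_nil))))))))) cl1619
theorem W7007 : WFK w7007 := fun D T h => wf_of_chk h mem_nil (mem_cons (L1619 D T h) mem_nil) cw7007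
theorem W7008 : WFK w7008 := fun D T h => wf_of_chk h mem_nil (mem_cons (L488 D T h) mem_nil) cw7008
theorem L1620 : LFK l1620 := fun D T h => lf_of_chk h (mem_cons (W4130 D T h) (mem_cons (W1231 D T h) (mem_cons (W161 D T h) (mem_cons (W1637 D T h) (mem_cons (W199 D T h) (mem_cons (W201 D T h) (mem_cons (W2106 D T h) (mem_cons (W2148 D T h) (mem_cons (W1335 D T h) (mem_cons (W2107 D T h) (mem_cons (W42 D T h) (mem_cons (W2147 D T h) (mem_cons (W2118 D T h) (mem_cons (W2119 D T h) (mem_cons (W3 D T h) (mem_cons (W2144 D T h) (mem_cons (W2145 D T h) (mem_cons (W2146 D T h) (mem_cons (W12 D T h) (mem_cons (W2102 D T h) (mem_cons (W13 D T h) (mem_cons (W2121 D T h) (mem_cons (W2120 D T h) (mem_cons (W2134 D T h) mem_nil)))))))))))))))))))))))) cl1620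
theorem W7009 : WFK w7009 := fun D T h => wf_of_chk h mem_nil (mem_cons (L1620 D T h) mem_nil) cw7009
theorem L1621 : LFK l1621 := fun D T h => lf_of_chk h (mem_cons (W2049 D T h) (mem_cons (W177 D T h) (mem_cons (W1231 D T h) (mem_cons (W16 D T h) (mem_cons (W1449 D T h) (mem_cons (W7005 D T h) (mem_cons (W7009 D T h) (mem_cons (W2150 D T h) (mem_cons (W284 D T h) (mem_cons (W2934 D T h) (mem_cons (W7007 D T h) (mem_cons (W438 D T h) (mem_cons (W2532 D T h) (mem_cons (W7008 D T h) (mem_cons (W2112 D T h) (mem_cons (W2113 D T h) (mem_cons (W2332 D T h) (mem_cons (W176 D T h) (mem_cons (W2390 D T h) (mem_cons (W42 D T h) (mem_cons (W2115 D T h) (mem_cons (W2116 D T h) (mem_cons (W2117 D T h) (mem_cons (W7003 D T h) (mem_cons (W581 D T h) (mem_cons (W184 D T h) (mem_cons (W2064 D T h) (mem_cons (W1326 D T h) (mem_cons (W2066 D T h) (mem_cons (W2065 D T h) (mem_cons (W2067 D T h) (mem_cons (W7002 D T h) (mem_cons (W495 D T h) (mem_cons (W2063 D T h) (mem_cons (W1226 D T h) (mem_cons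 (W2280 D T h) (mem_cons (W1227 D T h) (mem_cons (W7004 D T h) mem_nil)))))))))))))))))))))))))))))))))))))) cl1621
theorem W7010 : WFK w7010 := fun D T h => wf_of_chk h mem_nil (mem_cons (L1621 D T h) mem_nil) cw7010
theorem W7011 : WFK w7011 := fun D T h => wf_of_chk h mem_nil (mem_cons (L1574 D T h) mem_nil) cw7011
theorem W7012 : WFK w7012 := fun D T h => wf_of_chk h (mem_cons (W1063 D T h) (mem_cons (W2997 D T h) mem_nil)) mem_nil cw7012
theorem W7013 : WFK w7013 := fun D T h => wf_of_chk h (mem_cons (W167 D T h) (mem_cons (W2997 D T h) mem_nil)) mem_nil cw7013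
theorem W7014 : WFK w7014 := fun D T h => wf_of_chk h (mem_cons (W669 D T h) (mem_cons (W16 D T h) mem_nil)) mem_nil cw7014
theorem W7015 : WFK w7015 := fun D T h => wf_of_chk h mem_nil (mem_cons (L309 D T h) mem_nil) cw7015
theorem W7016 : WFK w7016 := fun D T h => wf_of_chk h (mem_cons (W50 D T h) (mem_cons (W284 D T h) mem_nil)) mem_nil cw7016
theorem W7017 : WFK w7017 := fun D T h => wf_of_chk h (mem_cons (W50 D T h) (mem_cons (W284 D T h) mem_nil)) mem_nil cw7017
theorem W7018 : WFK w7018 := fun D T h => wf_of_chk h mem_nil (mem_cons (L135 D T h) mem_nil) cw7018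
theorem W7019 : WFK w7019 := fun D T h => wf_of_chk h (mem_cons (W7018 D T h) (mem_cons (W284 D T h) mem_nil)) mem_nil cw7019
theorem W7020 : WFK w7020 := fun D T h => wf_of_chk h mem_nil (mem_cons (L280 D T h) mem_nil) cw7020
theorem W7021 : WFK w7021 := fun D T h => wf_of_chk h mem_nil (mem_cons (L279 D T h) mem_nil) cw7021
theorem W7022 : WFK w7022 := fun D T h => wf_of_chk h (mem_cons (W128 D T h) (mem_cons (W495 D T h) mem_nil)) mem_nil cw7022
theorem W7023 : WFK w7023 := fun D T h => wf_of_chk h (mem_cons (W220 D T h) (mem_cons (W1227 D T h) mem_nil)) mem_nil cw7023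
theorem W7024 : WFK w7024 := fun D T h => wf_of_chk h (mem_cons (W1139 D T h) (mem_cons (W495 D T h) mem_nil)) mem_nil cw7024
theorem L1622 : LFK l1622 := fun D T h => lf_of_chk h (mem_cons (W1502 D T h) (mem_cons (W284 D T h) (mem_cons (W497 D T h) (mem_cons (W1226 D T h) (mem_cons (W16 D T h) (mem_cons (W14 D T h) (mem_cons (W7020 D T h) (mem_cons (W2337 D T h) (mem_cons (W7021 D T h) (mem_cons (W24 D T h) (mem_cons (W209 D T h) (mem_cons (W7022 D T h) (mem_cons (W7023 D T h) (mem_cons (W7024 D T h) (mem_cons (W42 D T h) (mem_cons (W374 D T h) (mem_cons (W3666 D T h) (mem_cons (W2049 D T h) (mem_cons (W6498 D T h) (mem_cons (W2050 D T h) (mem_cons (W2051 D T h) (mem_cons (W342 D T h) (mem_cons (W341 D T h) (mem_cons (W1231 D T h) (mem_cons (W2219 D T h) (mem_cons (W1680 D T h) (mem_cons (W1676 D T h) (mem_cons (W581 D T h) (mem_cons (W1326 D T h) mem_nil))))))))))))))))))))))))))))) cl1622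
theorem W7025 : WFK w7025 := fun D T h => wf_of_chk h mem_nil (mem_cons (L1622 D T h) mem_nil) cw7025
theorem W7026 : WFK w7026 := fun D T h => wf_of_chk h mem_nil (mem_cons (L515 D T h) mem_nil) cw7026
theorem W7027 : WFK w7027 := fun D T h => wf_of_chk h mem_nil (mem_cons (L279 D T h) mem_nil) cw7027
theorem W7028 : WFK w7028 := fun D T h => wf_of_chk h mem_nil (mem_cons (L280 D T h) mem_nil) cw7028
theorem L1623 : LFK l1623 := fun D T h => lf_of_chk h (mem_cons (W24 D T h) (mem_cons (W1227 D T h) (mem_cons (W15 D T h) (mem_cons (W220 D T h) (mem_cons (W17 D T h) (mem_cons (W83 D T h) (mem_cons (W2106 D T h) (mem_cons (W5469 D T h) (mem_cons (W1335 D T h) (mem_cons (W2309 D T h) (mem_cons (W1397 D T h) mem_nil))))))))))) cl1623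
theorem W7029 : WFK w7029 := fun D T h => wf_of_chk h mem_nil (mem_cons (L1623 D T h) mem_nil) cw7029
theorem W7030 : WFK w7030 := fun D T h => wf_of_chk h (mem_cons (W220 D T h) (mem_cons (W1226 D T h) mem_nil)) mem_nil cw7030
theorem W7031 : WFK w7031 := fun D T h => wf_of_chk h mem_nil (mem_cons (L1623 D T h) mem_nil) cw7031
theorem L1624 : LFK l1624 := fun D T h => lf_of_chk h (mem_cons (W1502 D T h) (mem_cons (W497 D T h) (mem_cons (W495 D T h) (mem_cons (W1227 D T h) (mem_cons (W16 D T h) (mem_cons (W14 D T h) (mem_cons (W7027 D T h) (mem_cons (W7020 D T h) (mem_cons (W2337 D T h) (mem_cons (W7028 D T h) (mem_cons (W24 D T h) (mem_cons (W209 D T h) (mem_cons (W284 D T h) (mem_cons (W7029 D T h) (mem_cons (W7030 D T h) (mem_cons (W7024 D T h) (mem_cons (W7031 D T h) (mem_cons (W42 D T h) (mem_cons (W383 D T h) (mem_cons (W3666 D T h) (mem_cons (W2049 D T h) (mem_cons (W6498 D T h) (mem_cons (W2050 D T h) (mem_cons (W2051 D T h) (mem_cons (W342 D T h) (mem_cons (W341 D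 T h) (mem_cons (W164 D T h) (mem_cons (W2219 D T h) (mem_cons (W1362 D T h) (mem_cons (W1676 D T h) (mem_cons (W1326 D T h) (mem_cons (W581 D T h) mem_nil)))))))))))))))))))))))))))))))) cl1624
theorem W7032 : WFK w7032 := fun D T h => wf_of_chk h mem_nil (mem_cons (L1624 D T h) mem_nil) cw7032
theorem W7033 : WFK w7033 := fun D T h => wf_of_chk h (mem_cons (W50 D T h) (mem_cons (W284 D T h) mem_nil)) mem_nil cw7033
theorem W7034 : WFK w7034 := fun D T h => wf_of_chk h mem_nil (mem_cons (L554 D T h) mem_nil) cw7034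
theorem W7035 : WFK w7035 := fun D T h => wf_of_chk h mem_nil (mem_cons (L554 D T h) mem_nil) cw7035
theorem W7036 : WFK w7036 := fun D T h => wf_of_chk h mem_nil (mem_cons (L554 D T h) mem_nil) cw7036
theorem W7037 : WFK w7037 := fun D T h => wf_of_chk h mem_nil (mem_cons (L781 D T h) mem_nil) cw7037
theorem W7038 : WFK w7038 := fun D T h => wf_of_chk h (mem_cons (W16 D T h) (mem_cons (W7016 D T h) mem_nil)) mem_nil cw7038
theorem W7039 : WFK w7039 := fun D T h => wf_of_chk h mem_nil (mem_cons (L519 D T h) mem_nil) cw7039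
theorem W7041 : WFK w7041 := fun D T h => wf_of_chk h mem_nil (mem_cons (L777 D T h) mem_nil) cw7041
theorem L1625 : LFK l1625 := fun D T h => lf_of_chk h (mem_cons (W1502 D T h) (mem_cons (W508 D T h) (mem_cons (W50 D T h) (mem_cons (W16 D T h) (mem_cons (W1408 D T h) (mem_cons (W5222 D T h) (mem_cons (W7041 D T h) (mem_cons (W7039 D T h) (mem_cons (W24 D T h) (mem_cons (W209 D T h) (mem_cons (W42 D T h) (mem_cons (W677 D T h) (mem_cons (W2390 D T h) (mem_cons (W7003 D T h) (mem_cons (W6498 D T h) (mem_cons (W2050 D T h) (mem_cons (W2051 D T h) (mem_cons (W342 D T h) (mem_cons (W341 D T h) (mem_cons (W1651 D T h) (mem_cons (W358 D T h) mem_nil))))))))))))))))))))) cl1625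
theorem W7042 : WFK w7042 := fun D T h => wf_of_chk h mem_nil (mem_cons (L1625 D T h) mem_nil) cw7042
theorem L1626 : LFK l1626 := fun D T h => lf_of_chk h (mem_cons (W2391 D T h) (mem_cons (W284 D T h) (mem_cons (W2326 D T h) (mem_cons (W6989 D T h) (mem_cons (W16 D T h) (mem_cons (W3531 D T h) (mem_cons (W6990 D T h) (mem_cons (W7012 D T h) (mem_cons (W7013 D T h) (mem_cons (W2934 D T h) (mem_cons (W7001 D T h) (mem_cons (W6999 D T h) (mem_cons (W50 D T h) (mem_cons (W669 D T h) (mem_cons (W7000 D T h) (mem_cons (W6904 D T h) (mem_cons (W6892 D T h) (mem_cons (W6613 D T h) (mem_cons (W2839 D T h) (mem_cons (W2709 D T h) (mem_cons (W1599 D T h) (mem_cons (W7010 D T h) (mem_cons (W3325 D T h) (mem_cons (W3912 D T h) (mem_cons (W7011 D T h) (mem_cons (W1502 D T h) (mem_cons (W7014 D T h) (mem_cons (W7015 D T h) (mem_cons (W7016 D T h) (mem_cons (W7017 D T h) (mem_cons (W7037 D T h) (mem_cons (W7038 D T h) (mem_cons (W2713 D T h) (mem_cons (W7042 D T h) (mem_cons (W7019 D T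 h) (mem_cons (W7025 D T h) (mem_cons (W7026 D T h) (mem_cons (W1213 D T h) (mem_cons (W7032 D T h) (mem_cons (W7033 D T h) (mem_cons (W7034 D T h) (mem_cons (W7035 D T h) (mem_cons (W7036 D T h) (mem_cons (W6477 D T h) mem_nil)))))))))))))))))))))))))))))))))))))))))))) cl1626
theorem W7043 : WFK w7043 := fun D T h => wf_of_chk h mem_nil (mem_cons (L1626 D T h) mem_nil) cw7043
theorem W7044 : WFK w7044 := fun D T h => wf_of_chk h mem_nil (mem_cons (L1617 D T h) mem_nil) cw7044
theorem W7045 : WFK w7045 := fun D T h => wf_of_chk h (mem_cons (W284 D T h) (mem_cons (W763 D T h) mem_nil)) mem_nil cw7045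
theorem W7046 : WFK w7046 := fun D T h => wf_of_chk h (mem_cons (W1438 D T h) mem_nil) mem_nil cw7046
theorem W7047 : WFK w7047 := fun D T h => wf_of_chk h (mem_cons (W128 D T h) (mem_cons (W763 D T h) mem_nil)) mem_nil cw7047
theorem W7048 : WFK w7048 := fun D T h => wf_of_chk h (mem_cons (W1139 D T h) (mem_cons (W763 D T h) mem_nil)) mem_nil cw7048
theorem W7049 : WFK w7049 := fun D T h => wf_of_chk h (mem_cons (W1139 D T h) (mem_cons (W763 D T h) mem_nil)) mem_nil cw7049
theorem W7050 : WFK w7050 := fun D T h => wf_of_chk h (mem_cons (W177 D T h) (mem_cons (W284 D T h) mem_nil)) mem_nil cw7050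
theorem W7051 : WFK w7051 := fun D T h => wf_of_chk h (mem_cons (W757 D T h) mem_nil) mem_nil cw7051
theorem W7052 : WFK w7052 := fun D T h => wf_of_chk h (mem_cons (W757 D T h) mem_nil) mem_nil cw7052
theorem W7055 : WFK w7055 := fun D T h => wf_of_chk h (mem_cons (W726 D T h) (mem_cons (W284 D T h) mem_nil)) mem_nil cw7055
theorem W7056 : WFK w7056 := fun D T h => wf_of_chk h (mem_cons (W726 D T h) (mem_cons (W284 D T h) mem_nil)) mem_nil cw7056
theorem W7057 : WFK w7057 := fun D T h => wf_of_chk h (mem_cons (W1432 D T h) (mem_cons (W284 D T h) mem_nil)) mem_nil cw7057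
theorem W7058 : WFK w7058 := fun D T h => wf_of_chk h (mem_cons (W2331 D T h) mem_nil) mem_nil cw7058
theorem W7059 : WFK w7059 := fun D T h => wf_of_chk h (mem_cons (W2331 D T h) mem_nil) mem_nil cw7059
theorem W7060 : WFK w7060 := fun D T h => wf_of_chk h (mem_cons (W4135 D T h) (mem_cons (W284 D T h) mem_nil)) mem_nil cw7060
theorem W7061 : WFK w7061 := fun D T h => wf_of_chk h (mem_cons (W2331 D T h) mem_nil) mem_nil cw7061
theorem W7062 : WFK w7062 := fun D T h => wf_of_chk h (mem_cons (W1331 D T h) mem_nil) mem_nil cw7062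
theorem W7063 : WFK w7063 := fun D T h => wf_of_chk h (mem_cons (W1145 D T h) mem_nil) mem_nil cw7063
theorem W7064 : WFK w7064 := fun D T h => wf_of_chk h mem_nil (mem_cons (L1077 D T h) mem_nil) cw7064
theorem W7065 : WFK w7065 := fun D T h => wf_of_chk h (mem_cons (W502 D T h) mem_nil) mem_nil cw7065
theorem W7067 : WFK w7067 := fun D T h => wf_of_chk h (mem_cons (W3156 D T h) mem_nil) mem_nil cw7067
theorem L1627 : LFK l1627 := fun D T h => lf_of_chk h (mem_cons (W7045 D T h) (mem_cons (W7055 D T h) (mem_cons (W7056 D T h) (mem_cons (W7050 D T h) (mem_cons (W7051 D T h) (mem_cons (W502 D T h) (mem_cons (W7052 D T h) (mem_cons (W7062 D T h) (mem_cons (W7063 D T h) (mem_cons (W7064 D T h) (mem_cons (W7067 D T h) (mem_cons (W2037 D T h) (mem_cons (W7065 D T h) (mem_cons (W284 D T h) (mem_cons (W3640 D T h) (mem_cons (W4397 D T h) (mem_cons (W5722 D T h) (mem_cons (W3953 D T h) (mem_cons (W3305 D T h) (mem_cons (W7061 D T h) (mem_cons (W1139 D T h) (mem_cons (W7046 D T h)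 (mem_cons (W128 D T h) (mem_cons (W7047 D T h) (mem_cons (W1141 D T h) (mem_cons (W7048 D T h) (mem_cons (W7049 D T h) (mem_cons (W7057 D T h) (mem_cons (W1070 D T h) (mem_cons (W7058 D T h) (mem_cons (W7059 D T h) (mem_cons (W7060 D T h) mem_nil)))))))))))))))))))))))))))))))) cl1627
theorem W7068 : WFK w7068 := fun D T h => wf_of_chk h mem_nil (mem_cons (L1627 D T h) mem_nil) cw7068
theorem W7069 : WFK w7069 := fun D T h => wf_of_chk h (mem_cons (W177 D T h) mem_nil) mem_nil cw7069
theorem W7070 : WFK w7070 := fun D T h => wf_of_chk h (mem_cons (W177 D T h) mem_nil) mem_nil cw7070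
theorem L1628 : LFK l1628 := fun D T h => lf_of_chk h (mem_cons (W177 D T h) (mem_cons (W6989 D T h) (mem_cons (W6991 D T h) (mem_cons (W2326 D T h) (mem_cons (W17 D T h) (mem_cons (W7069 D T h) (mem_cons (W7070 D T h) (mem_cons (W449 D T h) (mem_cons (W341 D T h) (mem_cons (W5177 D T h) (mem_cons (W3178 D T h) (mem_cons (W1433 D T h) (mem_cons (W7068 D T h) (mem_cons (W495 D T h) (mem_cons (W497 D T h) (mem_cons (W757 D T h) mem_nil)))))))))))))))) cl1628
theorem W7071 : WFK w7071 := fun D T h => wf_of_chk h mem_nil (mem_cons (L1628 D T h) mem_nil) cw7071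
theorem W7072 : WFK w7072 := fun D T h => wf_of_chk h (mem_cons (W128 D T h) (mem_cons (W2326 D T h) mem_nil)) mem_nil cw7072
theorem W7073 : WFK w7073 := fun D T h => wf_of_chk h (mem_cons (W284 D T h) (mem_cons (W2326 D T h) mem_nil)) mem_nil cw7073
theorem W7074 : WFK w7074 := fun D T h => wf_of_chk h mem_nil (mem_cons (L671 D T h) mem_nil) cw7074
theorem W7075 : WFK w7075 := fun D T h => wf_of_chk h mem_nil (mem_cons (L806 D T h) mem_nil) cw7075
theorem W7076 : WFK w7076 := fun D T h => wf_of_chk h mem_nil (mem_cons (L878 D T h) mem_nil) cw7076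
theorem W7077 : WFK w7077 := fun D T h => wf_of_chk h (mem_cons (W1326 D T h) (mem_cons (W16 D T h) mem_nil)) mem_nil cw7077
theorem W7078 : WFK w7078 := fun D T h => wf_of_chk h mem_nil (mem_cons (L571 D T h) mem_nil) cw7078
theorem W7079 : WFK w7079 := fun D T h => wf_of_chk h (mem_cons (W713 D T h) (mem_cons (W16 D T h) mem_nil)) mem_nil cw7079
theorem W7080 : WFK w7080 := fun D T h => wf_of_chk h (mem_cons (W1326 D T h) (mem_cons (W16 D T h) mem_nil)) mem_nil cw7080
theorem W7081 : WFK w7081 := fun D T h => wf_of_chk h (mem_cons (W581 D T h) (mem_cons (W16 D T h) mem_nil)) mem_nil cw7081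
theorem W7082 : WFK w7082 := fun D T h => wf_of_chk h (mem_cons (W267 D T h) (mem_cons (W16 D T h) mem_nil)) mem_nil cw7082
theorem W7083 : WFK w7083 := fun D T h => wf_of_chk h (mem_cons (W3766 D T h) (mem_cons (W16 D T h) mem_nil)) mem_nil cw7083
theorem W7084 : WFK w7084 := fun D T h => wf_of_chk h mem_nil (mem_cons (L671 D T h) mem_nil) cw7084
theorem W7085 : WFK w7085 := fun D T h => wf_of_chk h mem_nil (mem_cons (L806 D T h) mem_nil) cw7085
theorem W7086 : WFK w7086 := fun D T h => wf_of_chk h (mem_cons (W164 D T h) (mem_cons (W177 D T h) mem_nil)) mem_nil cw7086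
theorem W7087 : WFK w7087 := fun D T h => wf_of_chk h (mem_cons (W114 D T h) (mem_cons (W177 D T h) mem_nil)) mem_nil cw7087
theorem W7088 : WFK w7088 := fun D T h => wf_of_chk h (mem_cons (W220 D T h) (mem_cons (W42 D T h) mem_nil)) mem_nil cw7088
theorem W7089 : WFK w7089 := fun D T h => wf_of_chk h (mem_cons (W220 D T h) (mem_cons (W42 D T h) mem_nil)) mem_nil cw7089
theorem W7090 : WFK w7090 := fun D T h => wf_of_chk h (mem_cons (W1067 D T h) (mem_cons (W177 D T h) mem_nil)) mem_nil cw7090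
theorem W7091 : WFK w7091 := fun D T h => wf_of_chk h (mem_cons (W2844 D T h) (mem_cons (W177 D T h) mem_nil)) mem_nil cw7091
theorem W7093 : WFK w7093 := fun D T h => wf_of_chk h (mem_cons (W1019 D T h) (mem_cons (W177 D T h) mem_nil)) mem_nil cw7093
theorem W7094 : WFK w7094 := fun D T h => wf_of_chk h (mem_cons (W1312 D T h) (mem_cons (W177 D T h) mem_nil)) mem_nil cw7094
theorem W7095 : WFK w7095 := fun D T h => wf_of_chk h (mem_cons (W162 D T h) (mem_cons (W42 D T h) mem_nil)) mem_nil cw7095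
theorem L1629 : LFK l1629 := fun D T h => lf_of_chk h (mem_cons (W2861 D T h) (mem_cons (W177 D T h) (mem_cons (W42 D T h) (mem_cons (W16 D T h) (mem_cons (W7084 D T h) (mem_cons (W7085 D T h) (mem_cons (W7086 D T h) (mem_cons (W7094 D T h) (mem_cons (W7095 D T h) (mem_cons (W2934 D T h) (mem_cons (W284 D T h) (mem_cons (W7087 D T h) (mem_cons (W2628 D T h) (mem_cons (W2554 D T h) (mem_cons (W2916 D T h) (mem_cons (W7088 D T h) (mem_cons (W7089 D T h) (mem_cons (W7090 D T h) (mem_cons (W7091 D T h) (mem_cons (W7093 D T h) (mem_cons (W1361 D T h) (mem_cons (W7074 D T h) (mem_cons (W1362 D T h) (mem_cons (W2097 D T h) (mem_cons (W1449 D T h) (mem_cons (W2160 D T h) (mem_cons (W1326 D T h) (mem_cons (W7075 D T h) (mem_cons (W7076 D T h) (mem_cons (W581 D T h) (mem_cons (W7077 D T h) (mem_cons (W7078 D T h) (mem_cons (W7079 D T h) (mem_cons (W7080 D T h) (mem_cons (W7081 D T h) (mem_cons (W5247 D T h) (mem_cons (W495 D T h) (mem_cons (W497 D T h) (mem_cons (W1227 D T h) (mem_cons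 (W7082 D T h) (mem_cons (W2405 D T h) (mem_cons (W7083 D T h) mem_nil)))))))))))))))))))))))))))))))))))))))))) cl1629
theorem W7096 : WFK w7096 := fun D T h => wf_of_chk h mem_nil (mem_cons (L1629 D T h) mem_nil) cw7096
theorem W7097 : WFK w7097 := fun D T h => wf_of_chk h (mem_cons (W1063 D T h) (mem_cons (W2326 D T h) mem_nil)) mem_nil cw7097
theorem W7098 : WFK w7098 := fun D T h => wf_of_chk h (mem_cons (W167 D T h) (mem_cons (W2326 D T h) mem_nil)) mem_nil cw7098
theorem W7099 : WFK w7099 := fun D T h => wf_of_chk h (mem_cons (W667 D T h) (mem_cons (W16 D T h) mem_nil)) mem_nil cw7099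
theorem W7100 : WFK w7100 := fun D T h => wf_of_chk h (mem_cons (W667 D T h) (mem_cons (W16 D T h) mem_nil)) mem_nil cw7100
theorem W7101 : WFK w7101 := fun D T h => wf_of_chk h (mem_cons (W667 D T h) (mem_cons (W284 D T h) mem_nil)) mem_nil cw7101
theorem W7102 : WFK w7102 := fun D T h => wf_of_chk h (mem_cons (W669 D T h) (mem_cons (W284 D T h) mem_nil)) mem_nil cw7102
theorem W7103 : WFK w7103 := fun D T h => wf_of_chk h (mem_cons (W669 D T h) (mem_cons (W284 D T h) mem_nil)) mem_nil cw7103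
theorem L1630 : LFK l1630 := fun D T h => lf_of_chk h (mem_cons (W1063 D T h) mem_nil) cl1630
theorem W7104 : WFK w7104 := fun D T h => wf_of_chk h mem_nil (mem_cons (L1630 D T h) mem_nil) cw7104
theorem W7105 : WFK w7105 := fun D T h => wf_of_chk h (mem_cons (W164 D T h) (mem_cons (W16 D T h) mem_nil)) mem_nil cw7105
theorem W7106 : WFK w7106 := fun D T h => wf_of_chk h mem_nil (mem_cons (L171 D T h) mem_nil) cw7106
theorem W7107 : WFK w7107 := fun D T h => wf_of_chk h (mem_cons (W1231 D T h) (mem_cons (W16 D T h) mem_nil)) mem_nil cw7107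
theorem W7108 : WFK w7108 := fun D T h => wf_of_chk h mem_nil (mem_cons (L1393 D T h) mem_nil) cw7108
theorem W7109 : WFK w7109 := fun D T h => wf_of_chk h mem_nil (mem_cons (L196 D T h) mem_nil) cw7109
theorem L1631 : LFK l1631 := fun D T h => lf_of_chk h (mem_cons (W15 D T h) (mem_cons (W1 D T h) (mem_cons (W432 D T h) (mem_cons (W149 D T h) (mem_cons (W638 D T h) (mem_cons (W281 D T h) (mem_cons (W154 D T h) (mem_cons (W153 D T h) (mem_cons (W152 D T h) mem_nil))))))))) cl1631
theorem W7110 : WFK w7110 := fun D T h => wf_of_chk h mem_nil (mem_cons (L1631 D T h) mem_nil) cw7110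
theorem L1632 : LFK l1632 := fun D T h => lf_of_chk h (mem_cons (W368 D T h) mem_nil) cl1632
theorem W7111 : WFK w7111 := fun D T h => wf_of_chk h mem_nil (mem_cons (L1632 D T h) mem_nil) cw7111
theorem W7112 : WFK w7112 := fun D T h => wf_of_chk h mem_nil (mem_cons (L1599 D T h) mem_nil) cw7112
theorem W7113 : WFK w7113 := fun D T h => wf_of_chk h mem_nil (mem_cons (L1599 D T h) mem_nil) cw7113
theorem W7114 : WFK w7114 := fun D T h => wf_of_chk h mem_nil (mem_cons (L1533 D T h) mem_nil) cw7114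
theorem L1633 : LFK l1633 := fun D T h => lf_of_chk h (mem_cons (W5187 D T h) (mem_cons (W1063 D T h) (mem_cons (W42 D T h) (mem_cons (W16 D T h) (mem_cons (W39 D T h) (mem_cons (W7110 D T h) (mem_cons (W7114 D T h) (mem_cons (W7111 D T h) (mem_cons (W15 D T h) (mem_cons (W6707 D T h) (mem_cons (W6776 D T h) (mem_cons (W7112 D T h) (mem_cons (W3766 D T h) (mem_cons (W6758 D T h) (mem_cons (W6719 D T h) (mem_cons (W7109 D T h) (mem_cons (W2783 D T h) (mem_cons (W281 D T h) (mem_cons (W7113 D T h) mem_nil))))))))))))))))))) cl1633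
theorem W7115 : WFK w7115 := fun D T h => wf_of_chk h mem_nil (mem_cons (L1633 D T h) mem_nil) cw7115
theorem W7116 : WFK w7116 := fun D T h => wf_of_chk h mem_nil (mem_cons (L527 D T h) mem_nil) cw7116
theorem W7117 : WFK w7117 := fun D T h => wf_of_chk h mem_nil (mem_cons (L527 D T h) mem_nil) cw7117
theorem W7118 : WFK w7118 := fun D T h => wf_of_chk h mem_nil (mem_cons (L527 D T h) mem_nil) cw7118
theorem W7119 : WFK w7119 := fun D T h => wf_of_chk h (mem_cons (W16 D T h) (mem_cons (W177 D T h) mem_nil)) mem_nil cw7119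
theorem W7120 : WFK w7120 := fun D T h => wf_of_chk h mem_nil (mem_cons (L483 D T h) mem_nil) cw7120
theorem W7121 : WFK w7121 := fun D T h => wf_of_chk h mem_nil (mem_cons (L483 D T h) mem_nil) cw7121
theorem W7122 : WFK w7122 := fun D T h => wf_of_chk h mem_nil (mem_cons (L4 D T h) mem_nil) cw7122
theorem L1634 : LFK l1634 := fun D T h => lf_of_chk h (mem_cons (W6 D T h) (mem_cons (W7120 D T h) (mem_cons (W7121 D T h) (mem_cons (W1091 D T h) (mem_cons (W876 D T h) (mem_cons (W1854 D T h) (mem_cons (W5863 D T h) (mem_cons (W7122 D T h) (mem_cons (W193 D T h) (mem_cons (W18 D T h) (mem_cons (W19 D T h) mem_nil))))))))))) cl1634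
theorem W7123 : WFK w7123 := fun D T h => wf_of_chk h mem_nil (mem_cons (L1634 D T h) mem_nil) cw7123
theorem L1635 : LFK l1635 := fun D T h => lf_of_chk h (mem_cons (W7 D T h) (mem_cons (W7121 D T h) (mem_cons (W7120 D T h) (mem_cons (W3112 D T h) (mem_cons (W3110 D T h) (mem_cons (W1091 D T h) (mem_cons (W3111 D T h) (mem_cons (W7122 D T h) (mem_cons (W192 D T h) (mem_cons (W18 D T h) (mem_cons (W21 D T h) mem_nil))))))))))) cl1635
theorem W7124 : WFK w7124 := fun D T h => wf_of_chk h mem_nil (mem_cons (L1635 D T h) mem_nil) cw7124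
theorem L1636 : LFK l1636 := fun D T h => lf_of_chk h (mem_cons (W3 D T h) (mem_cons (W7123 D T h) (mem_cons (W7124 D T h) (mem_cons (W12 D T h) (mem_cons (W11 D T h) (mem_cons (W13 D T h) mem_nil)))))) cl1636
theorem W7125 : WFK w7125 := fun D T h => wf_of_chk h mem_nil (mem_cons (L1636 D T h) mem_nil) cw7125
theorem L1637 : LFK l1637 := fun D T h => lf_of_chk h (mem_cons (W4 D T h) (mem_cons (W21 D T h) (mem_cons (W7122 D T h) (mem_cons (W8 D T h) (mem_cons (W6 D T h) (mem_cons (W7 D T h) (mem_cons (W9 D T h) mem_nil))))))) cl1637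
theorem W7126 : WFK w7126 := fun D T h => wf_of_chk h mem_nil (mem_cons (L1637 D T h) mem_nil) cw7126
theorem L1638 : LFK l1638 := fun D T h => lf_of_chk h (mem_cons (W3 D T h) (mem_cons (W7126 D T h) (mem_cons (W12 D T h) (mem_cons (W11 D T h) (mem_cons (W13 D T h) mem_nil))))) cl1638
theorem W7127 : WFK w7127 := fun D T h => wf_of_chk h mem_nil (mem_cons (L1638 D T h) mem_nil) cw7127
theorem L1639 : LFK l1639 := fun D T h => lf_of_chk h (mem_cons (W1408 D T h) (mem_cons (W17 D T h) (mem_cons (W16 D T h) (mem_cons (W6977 D T h) (mem_cons (W2912 D T h) (mem_cons (W1397 D T h) (mem_cons (W7125 D T h) (mem_cons (W7127 D T h) (mem_cons (W3 D T h) (mem_cons (W3035 D T h) (mem_cons (W1449 D T h) (mem_cons (W1448 D T h) mem_nil)))))))))))) cl1639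
theorem W7128 : WFK w7128 := fun D T h => wf_of_chk h mem_nil (mem_cons (L1639 D T h) mem_nil) cw7128
theorem W7129 : WFK w7129 := fun D T h => wf_of_chk h mem_nil (mem_cons (L788 D T h) mem_nil) cw7129
theorem W7130 : WFK w7130 := fun D T h => wf_of_chk h mem_nil (mem_cons (L788 D T h) mem_nil) cw7130
theorem L1640 : LFK l1640 := fun D T h => lf_of_chk h (mem_cons (W5240 D T h) (mem_cons (W177 D T h) (mem_cons (W50 D T h) (mem_cons (W16 D T h) (mem_cons (W760 D T h) (mem_cons (W2373 D T h) (mem_cons (W7119 D T h) (mem_cons (W2326 D T h) (mem_cons (W7128 D T h) (mem_cons (W209 D T h) (mem_cons (W2912 D T h) (mem_cons (W1361 D T h) (mem_cons (W7074 D T h) (mem_cons (W1362 D T h) (mem_cons (W7105 D T h) (mem_cons (W2861 D T h) (mem_cons (W7106 D T h) (mem_cons (W7107 D T h) (mem_cons (W5247 D T h) (mem_cons (W341 D T h) (mem_cons (W7104 D T h) (mem_cons (W669 D T h) (mem_cons (W7108 D T h) (mem_cons (W667 D T h) (mem_cons (W7129 D T h) (mem_cons (W1408 D T h) (mem_cons (W7130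 D T h) (mem_cons (W42 D T h) (mem_cons (W7115 D T h) (mem_cons (W7116 D T h) (mem_cons (W3156 D T h) (mem_cons (W7117 D T h) (mem_cons (W7118 D T h) mem_nil))))))))))))))))))))))))))))))))) cl1640
theorem W7131 : WFK w7131 := fun D T h => wf_of_chk h mem_nil (mem_cons (L1640 D T h) mem_nil) cw7131
theorem W7132 : WFK w7132 := fun D T h => wf_of_chk h mem_nil (mem_cons (L1640 D T h) mem_nil) cw7132
theorem L1641 : LFK l1641 := fun D T h => lf_of_chk h (mem_cons (W2391 D T h) (mem_cons (W2326 D T h) (mem_cons (W2997 D T h) (mem_cons (W6991 D T h) (mem_cons (W16 D T h) (mem_cons (W7044 D T h) (mem_cons (W3531 D T h) (mem_cons (W6990 D T h) (mem_cons (W7097 D T h) (mem_cons (W7098 D T h) (mem_cons (W2934 D T h) (mem_cons (W284 D T h) (mem_cons (W7073 D T h) (mem_cons (W7071 D T h) (mem_cons (W669 D T h) (mem_cons (W50 D T h) (mem_cons (W6892 D T h) (mem_cons (W6904 D T h) (mem_cons (W7072 D T h) (mem_cons (W6613 D T h) (mem_cons (W1599 D T h) (mem_cons (W2709 D T h) (mem_cons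 (W2839 D T h) (mem_cons (W7011 D T h) (mem_cons (W7096 D T h) (mem_cons (W3912 D T h) (mem_cons (W3325 D T h) (mem_cons (W7099 D T h) (mem_cons (W1502 D T h) (mem_cons (W7100 D T h) (mem_cons (W7015 D T h) (mem_cons (W7101 D T h) (mem_cons (W7102 D T h) (mem_cons (W7103 D T h) (mem_cons (W7037 D T h) (mem_cons (W7132 D T h) (mem_cons (W7131 D T h) (mem_cons (W7034 D T h) (mem_cons (W7033 D T h) (mem_cons (W7035 D T h) (mem_cons (W6850 D T h) (mem_cons (W6477 D T h) mem_nil)))))))))))))))))))))))))))))))))))))))))) cl1641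
theorem W7133 : WFK w7133 := fun D T h => wf_of_chk h mem_nil (mem_cons (L1641 D T h) mem_nil) cw7133
theorem W7152 : WFK w7152 := fun D T h => wf_of_chk h mem_nil (mem_cons (L29 D T h) mem_nil) cw7152
theorem L1646 : LFK l1646 := fun D T h => lf_of_chk h (mem_cons (W149 D T h) (mem_cons (W6006 D T h) (mem_cons (W278 D T h) (mem_cons (W891 D T h) (mem_cons (W1379 D T h) (mem_cons (W774 D T h) mem_nil)))))) cl1646
theorem W7156 : WFK w7156 := fun D T h => wf_of_chk h mem_nil (mem_cons (L1646 D T h) mem_nil) cw7156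
theorem W7158 : WFK w7158 := fun D T h => wf_of_chk h mem_nil (mem_cons (L1564 D T h) mem_nil) cw7158
theorem W7159 : WFK w7159 := fun D T h => wf_of_chk h (mem_cons (W16 D T h) (mem_cons (W2994 D T h) mem_nil)) mem_nil cw7159
theorem W7160 : WFK w7160 := fun D T h => wf_of_chk h (mem_cons (W2994 D T h) mem_nil) mem_nil cw7160
theorem L1647 : LFK l1647 := fun D T h => lf_of_chk h (mem_cons (W177 D T h) (mem_cons (W7158 D T h) (mem_cons (W2994 D T h) (mem_cons (W17 D T h) (mem_cons (W3178 D T h) (mem_cons (W449 D T h) (mem_cons (W341 D T h) (mem_cons (W5177 D T h) (mem_cons (W1433 D T h) (mem_cons (W7160 D T h) (mem_cons (W495 D T h) (mem_cons (W757 D T h) (mem_cons (W497 D T h) mem_nil))))))))))))) cl1647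
theorem W7161 : WFK w7161 := fun D T h => wf_of_chk h mem_nil (mem_cons (L1647 D T h) mem_nil) cw7161
theorem W7162 : WFK w7162 := fun D T h => wf_of_chk h (mem_cons (W128 D T h) (mem_cons (W2994 D T h) mem_nil)) mem_nil cw7162
theorem W7163 : WFK w7163 := fun D T h => wf_of_chk h (mem_cons (W284 D T h) (mem_cons (W2994 D T h) mem_nil)) mem_nil cw7163
theorem W7164 : WFK w7164 := fun D T h => wf_of_chk h mem_nil (mem_cons (L1564 D T h) mem_nil) cw7164
theorem W7165 : WFK w7165 := fun D T h => wf_of_chk h (mem_cons (W1063 D T h) (mem_cons (W2994 D T h) mem_nil)) mem_nil cw7165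
theorem W7166 : WFK w7166 := fun D T h => wf_of_chk h (mem_cons (W167 D T h) (mem_cons (W2994 D T h) mem_nil)) mem_nil cw7166
theorem L1648 : LFK l1648 := fun D T h => lf_of_chk h (mem_cons (W2391 D T h) (mem_cons (W2994 D T h) (mem_cons (W7158 D T h) (mem_cons (W16 D T h) (mem_cons (W3531 D T h) (mem_cons (W7159 D T h) (mem_cons (W7165 D T h) (mem_cons (W7166 D T h) (mem_cons (W284 D T h) (mem_cons (W2934 D T h) (mem_cons (W7163 D T h) (mem_cons (W7161 D T h) (mem_cons (W50 D T h) (mem_cons (W669 D T h) (mem_cons (W7162 D T h) (mem_cons (W6904 D T h) (mem_cons (W6892 D T h) (mem_cons (W6613 D T h) (mem_cons (W2839 D T h) (mem_cons (W2709 D T h) (mem_cons (W1599 D T h) (mem_cons (W7010 D T h) (mem_cons (W3325 D T h) (mem_cons (W3912 D T h) (mem_cons (W7164 D T h) (mem_cons (W5565 D T h) (mem_cons (W2322 D T h) (mem_cons (W5240 D T h) (mem_cons (W7015 D T h) (mem_cons (W7033 D T h) (mem_cons (W7035 D T h) (mem_cons (W7034 D T h) mem_nil)))))))))))))))))))))))))))))))) cl1648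
theorem W7167 : WFK w7167 := fun D T h => wf_of_chk h mem_nil (mem_cons (L1648 D T h) mem_nil) cw7167
theorem W7168 : WFK w7168 := fun D T h => wf_of_chk h mem_nil (mem_cons (L199 D T h) mem_nil) cw7168
theorem L1649 : LFK l1649 := fun D T h => lf_of_chk h (mem_cons (W1690 D T h) (mem_cons (W42 D T h) (mem_cons (W259 D T h) (mem_cons (W16 D T h) (mem_cons (W1919 D T h) (mem_cons (W7114 D T h) (mem_cons (W5633 D T h) (mem_cons (W5575 D T h) (mem_cons (W5339 D T h) (mem_cons (W15 D T h) (mem_cons (W7168 D T h) (mem_cons (W4025 D T h) (mem_cons (W6372 D T h) (mem_cons (W1924 D T h) (mem_cons (W912 D T h) (mem_cons (W281 D T h) (mem_cons (W796 D T h) (mem_cons (W917 D T h) (mem_cons (W916 D T h) (mem_cons (W1997 D T h) mem_nil)))))))))))))))))))) cl1649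
theorem W7169 : WFK w7169 := fun D T h => wf_of_chk h mem_nil (mem_cons (L1649 D T h) mem_nil) cw7169
theorem W7170 : WFK w7170 := fun D T h => wf_of_chk h (mem_cons (W177 D T h) (mem_cons (W1318 D T h) mem_nil)) mem_nil cw7170
theorem W7171 : WFK w7171 := fun D T h => wf_of_chk h mem_nil (mem_cons (L178 D T h) mem_nil) cw7171
theorem L1650 : LFK l1650 := fun D T h => lf_of_chk h (mem_cons (W91 D T h) (mem_cons (W619 D T h) (mem_cons (W7171 D T h) (mem_cons (W3766 D T h) (mem_cons (W878 D T h) (mem_cons (W6756 D T h) (mem_cons (W817 D T h) (mem_cons (W188 D T h) (mem_cons (W2047 D T h) (mem_cons (W48 D T h) (mem_cons (W4 D T h) (mem_cons (W802 D T h) (mem_cons (W33 D T h) mem_nil))))))))))))) cl1650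
theorem W7172 : WFK w7172 := fun D T h => wf_of_chk h mem_nil (mem_cons (L1650 D T h) mem_nil) cw7172
theorem L1651 : LFK l1651 := fun D T h => lf_of_chk h (mem_cons (W5633 D T h) (mem_cons (W42 D T h) (mem_cons (W1690 D T h) (mem_cons (W16 D T h) (mem_cons (W7172 D T h) (mem_cons (W638 D T h) (mem_cons (W5673 D T h) (mem_cons (W5585 D T h) (mem_cons (W5655 D T h) (mem_cons (W2892 D T h) mem_nil)))))))))) cl1651
theorem W7173 : WFK w7173 := fun D T h => wf_of_chk h mem_nil (mem_cons (L1651 D T h) mem_nil) cw7173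
theorem W7174 : WFK w7174 := fun D T h => wf_of_chk h mem_nil (mem_cons (L305 D T h) mem_nil) cw7174
theorem W7175 : WFK w7175 := fun D T h => wf_of_chk h mem_nil (mem_cons (L830 D T h) mem_nil) cw7175
theorem L1652 : LFK l1652 := fun D T h => lf_of_chk h (mem_cons (W848 D T h) (mem_cons (W91 D T h) (mem_cons (W4 D T h) (mem_cons (W33 D T h) (mem_cons (W808 D T h) (mem_cons (W6 D T h) (mem_cons (W812 D T h) (mem_cons (W813 D T h) (mem_cons (W814 D T h) (mem_cons (W845 D T h) (mem_cons (W632 D T h) (mem_cons (W823 D T h) (mem_cons (W576 D T h) mem_nil))))))))))))) cl1652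
theorem W7176 : WFK w7176 := fun D T h => wf_of_chk h mem_nil (mem_cons (L1652 D T h) mem_nil) cw7176
theorem L1653 : LFK l1653 := fun D T h => lf_of_chk h (mem_cons (W795 D T h) (mem_cons (W91 D T h) (mem_cons (W281 D T h) (mem_cons (W808 D T h) (mem_cons (W619 D T h) (mem_cons (W7174 D T h) (mem_cons (W603 D T h) (mem_cons (W1947 D T h) (mem_cons (W5814 D T h) (mem_cons (W7175 D T h) (mem_cons (W7176 D T h) (mem_cons (W822 D T h) (mem_cons (W576 D T h) (mem_cons (W826 D T h) (mem_cons (W5158 D T h) mem_nil))))))))))))))) cl1653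
theorem W7177 : WFK w7177 := fun D T h => wf_of_chk h mem_nil (mem_cons (L1653 D T h) mem_nil) cw7177
theorem L1654 : LFK l1654 := fun D T h => lf_of_chk h (mem_cons (W1690 D T h) (mem_cons (W42 D T h) (mem_cons (W16 D T h) (mem_cons (W1919 D T h) (mem_cons (W921 D T h) (mem_cons (W925 D T h) (mem_cons (W928 D T h) (mem_cons (W5633 D T h) (mem_cons (W7177 D T h) (mem_cons (W15 D T h) (mem_cons (W1924 D T h) (mem_cons (W6372 D T h) (mem_cons (W4025 D T h) (mem_cons (W281 D T h) (mem_cons (W3719 D T h) (mem_cons (W3276 D T h) (mem_cons (W6716 D T h) (mem_cons (W1707 D T h) (mem_cons (W259 D T h) mem_nil))))))))))))))))))) cl1654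
theorem W7178 : WFK w7178 := fun D T h => wf_of_chk h mem_nil (mem_cons (L1654 D T h) mem_nil) cw7178
theorem W7179 : WFK w7179 := fun D T h => wf_of_chk h (mem_cons (W2840 D T h) (mem_cons (W16 D T h) mem_nil)) mem_nil cw7179
theorem W7180 : WFK w7180 := fun D T h => wf_of_chk h mem_nil mem_nil cw7180
theorem W7181 : WFK w7181 := fun D T h => wf_of_chk h (mem_cons (W7180 D T h) (mem_cons (W16 D T h) mem_nil)) mem_nil cw7181
theorem L1655 : LFK l1655 := fun D T h => lf_of_chk h (mem_cons (W4531 D T h) (mem_cons (W1929 D T h) (mem_cons (W2517 D T h) (mem_cons (W69 D T h) (mem_cons (W4566 D T h) (mem_cons (W1919 D T h) (mem_cons (W86 D T h) (mem_cons (W1206 D T h) (mem_cons (W85 D T h) (mem_cons (W4562 D T h) (mem_cons (W105 D T h) (mem_cons (W6725 D T h) (mem_cons (W33 D T h) (mem_cons (W1584 D T h) (mem_cons (W4260 D T h) (mem_cons (W2442 D T h) (mem_cons (W5943 D T h) (mem_cons (W1202 D T h) (mem_cons (W7179 D T h) (mem_cons (W7181 D T h) (mem_cons (W1575 D T h) mem_nil)))))))))))))))))))))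 cl1655
theorem W7182 : WFK w7182 := fun D T h => wf_of_chk h mem_nil (mem_cons (L1655 D T h) mem_nil) cw7182
theorem W7183 : WFK w7183 := fun D T h => wf_of_chk h (mem_cons (W3473 D T h) (mem_cons (W144 D T h) mem_nil)) mem_nil cw7183
theorem W7184 : WFK w7184 := fun D T h => wf_of_chk h mem_nil (mem_cons (L856 D T h) mem_nil) cw7184
theorem L1656 : LFK l1656 := fun D T h => lf_of_chk h (mem_cons (W2431 D T h) (mem_cons (W230 D T h) (mem_cons (W1919 D T h) (mem_cons (W1929 D T h) (mem_cons (W3696 D T h) (mem_cons (W537 D T h) (mem_cons (W6074 D T h) (mem_cons (W2015 D T h) (mem_cons (W7184 D T h) (mem_cons (W2440 D T h) (mem_cons (W2423 D T h) (mem_cons (W145 D T h) (mem_cons (W112 D T h) (mem_cons (W7183 D T h) (mem_cons (W7076 D T h) (mem_cons (W4547 D T h) (mem_cons (W2435 D T h) (mem_cons (W2413 D T h) (mem_cons (W401 D T h) (mem_cons (W2417 D T h) (mem_cons (W1196 D T h) (mem_cons (W2418 D T h) (mem_cons (W2420 D T h) (mem_cons (W2421 D T h) (mem_cons (W2518 D T h) (mem_cons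 (W16 D T h) (mem_cons (W2424 D T h) (mem_cons (W2436 D T h) (mem_cons (W2438 D T h) (mem_cons (W2437 D T h) (mem_cons (W2037 D T h) (mem_cons (W2439 D T h) (mem_cons (W2425 D T h) (mem_cons (W519 D T h) (mem_cons (W521 D T h) (mem_cons (W128 D T h) (mem_cons (W2426 D T h) (mem_cons (W2427 D T h) (mem_cons (W2428 D T h) (mem_cons (W2429 D T h) (mem_cons (W2773 D T h) (mem_cons (W7182 D T h) mem_nil)))))))))))))))))))))))))))))))))))))))))) cl1656
theorem W7185 : WFK w7185 := fun D T h => wf_of_chk h mem_nil (mem_cons (L1656 D T h) mem_nil) cw7185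
theorem L1657 : LFK l1657 := fun D T h => lf_of_chk h (mem_cons (W3 D T h) (mem_cons (W67 D T h) (mem_cons (W3374 D T h) (mem_cons (W12 D T h) (mem_cons (W11 D T h) (mem_cons (W13 D T h) mem_nil)))))) cl1657
theorem W7186 : WFK w7186 := fun D T h => wf_of_chk h mem_nil (mem_cons (L1657 D T h) mem_nil) cw7186
theorem L1658 : LFK l1658 := fun D T h => lf_of_chk h (mem_cons (W38 D T h) (mem_cons (W42 D T h) (mem_cons (W143 D T h) (mem_cons (W3 D T h) (mem_cons (W39 D T h) (mem_cons (W40 D T h) (mem_cons (W990 D T h) (mem_cons (W41 D T h) (mem_cons (W1535 D T h) (mem_cons (W2579 D T h) (mem_cons (W47 D T h) (mem_cons (W46 D T h) (mem_cons (W44 D T h) (mem_cons (W2007 D T h) mem_nil)))))))))))))) cl1658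
theorem W7187 : WFK w7187 := fun D T h => wf_of_chk h mem_nil (mem_cons (L1658 D T h) mem_nil) cw7187
theorem L1659 : LFK l1659 := fun D T h => lf_of_chk h (mem_cons (W3 D T h) (mem_cons (W26 D T h) (mem_cons (W3758 D T h) mem_nil))) cl1659
theorem W7188 : WFK w7188 := fun D T h => wf_of_chk h mem_nil (mem_cons (L1659 D T h) mem_nil) cw7188
theorem L1660 : LFK l1660 := fun D T h => lf_of_chk h (mem_cons (W4531 D T h) (mem_cons (W4566 D T h) (mem_cons (W1919 D T h) (mem_cons (W1929 D T h) (mem_cons (W7188 D T h) (mem_cons (W1 D T h) (mem_cons (W69 D T h) (mem_cons (W16 D T h) (mem_cons (W7186 D T h) (mem_cons (W7187 D T h) (mem_cons (W2517 D T h) (mem_cons (W78 D T h) (mem_cons (W105 D T h) (mem_cons (W33 D T h) (mem_cons (W6725 D T h) (mem_cons (W521 D T h) (mem_cons (W4260 D T h) (mem_cons (W573 D T h) (mem_cons (W1747 D T h) (mem_cons (W5943 D T h) (mem_cons (W86 D T h) (mem_cons (W85 D T h) (mem_cons (W1206 D T h) mem_nil))))))))))))))))))))))) cl1660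
theorem W7189 : WFK w7189 := fun D T h => wf_of_chk h mem_nil (mem_cons (L1660 D T h) mem_nil) cw7189
theorem L1661 : LFK l1661 := fun D T h => lf_of_chk h (mem_cons (W3878 D T h) (mem_cons (W2346 D T h) (mem_cons (W1 D T h) (mem_cons (W1919 D T h) (mem_cons (W69 D T h) (mem_cons (W5606 D T h) (mem_cons (W2566 D T h) (mem_cons (W111 D T h) (mem_cons (W762 D T h) (mem_cons (W2589 D T h) (mem_cons (W2575 D T h) (mem_cons (W2576 D T h) (mem_cons (W2590 D T h) (mem_cons (W341 D T h) (mem_cons (W7189 D T h) (mem_cons (W2583 D T h) (mem_cons (W2582 D T h) (mem_cons (W2595 D T h) mem_nil)))))))))))))))))) cl1661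
theorem W7190 : WFK w7190 := fun D T h => wf_of_chk h mem_nil (mem_cons (L1661 D T h) mem_nil) cw7190
theorem L1662 : LFK l1662 := fun D T h => lf_of_chk h (mem_cons (W1362 D T h) (mem_cons (W2346 D T h) (mem_cons (W154 D T h) (mem_cons (W220 D T h) (mem_cons (W1929 D T h) (mem_cons (W1398 D T h) (mem_cons (W1397 D T h) (mem_cons (W1445 D T h) (mem_cons (W461 D T h) (mem_cons (W442 D T h) (mem_cons (W4413 D T h) (mem_cons (W722 D T h) (mem_cons (W2597 D T h) (mem_cons (W2747 D T h) (mem_cons (W2600 D T h) (mem_cons (W341 D T h) (mem_cons (W3878 D T h) (mem_cons (W4421 D T h) (mem_cons (W2715 D T h) (mem_cons (W2601 D T h) (mem_cons (W2602 D T h) (mem_cons (W2741 D T h) mem_nil)))))))))))))))))))))) cl1662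
theorem W7191 : WFK w7191 := fun D T h => wf_of_chk h mem_nil (mem_cons (L1662 D T h) mem_nil) cw7191
theorem W7192 : WFK w7192 := fun D T h => wf_of_chk h mem_nil (mem_cons (L1538 D T h) mem_nil) cw7192
theorem L1663 : LFK l1663 := fun D T h => lf_of_chk h (mem_cons (W50 D T h) (mem_cons (W2940 D T h) (mem_cons (W15 D T h) (mem_cons (W220 D T h) (mem_cons (W7192 D T h) (mem_cons (W209 D T h) (mem_cons (W1397 D T h) (mem_cons (W2930 D T h) (mem_cons (W24 D T h) (mem_cons (W2693 D T h) (mem_cons (W932 D T h) (mem_cons (W2405 D T h) (mem_cons (W1227 D T h) (mem_cons (W5507 D T h) (mem_cons (W946 D T h) (mem_cons (W2689 D T h) (mem_cons (W2691 D T h) (mem_cons (W3878 D T h) (mem_cons (W1362 D T h) (mem_cons (W1361 D T h) (mem_cons (W42 D T h) mem_nil))))))))))))))))))))) cl1663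
theorem W7193 : WFK w7193 := fun D T h => wf_of_chk h mem_nil (mem_cons (L1663 D T h) mem_nil) cw7193
theorem W7194 : WFK w7194 := fun D T h => wf_of_chk h mem_nil (mem_cons (L988 D T h) mem_nil) cw7194
theorem L1664 : LFK l1664 := fun D T h => lf_of_chk h (mem_cons (W642 D T h) (mem_cons (W341 D T h) (mem_cons (W726 D T h) (mem_cons (W3 D T h) (mem_cons (W143 D T h) (mem_cons (W1172 D T h) (mem_cons (W1412 D T h) (mem_cons (W86 D T h) (mem_cons (W1537 D T h) (mem_cons (W1718 D T h) (mem_cons (W5314 D T h) (mem_cons (W141 D T h) (mem_cons (W7152 D T h) (mem_cons (W1675 D T h) (mem_cons (W284 D T h) (mem_cons (W924 D T h) (mem_cons (W1296 D T h) (mem_cons (W864 D T h) (mem_cons (W260 D T h) (mem_cons (W722 D T h) mem_nil)))))))))))))))))))) cl1664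
theorem W7195 : WFK w7195 := fun D T h => wf_of_chk h mem_nil (mem_cons (L1664 D T h) mem_nil) cw7195
theorem W7196 : WFK w7196 := fun D T h => wf_of_chk h mem_nil (mem_cons (L241 D T h) mem_nil) cw7196
theorem L1665 : LFK l1665 := fun D T h => lf_of_chk h (mem_cons (W1396 D T h) (mem_cons (W341 D T h) (mem_cons (W726 D T h) (mem_cons (W1537 D T h) (mem_cons (W1533 D T h) (mem_cons (W1549 D T h) (mem_cons (W1552 D T h) (mem_cons (W1543 D T h) (mem_cons (W1545 D T h) (mem_cons (W284 D T h) (mem_cons (W924 D T h) (mem_cons (W16 D T h) (mem_cons (W4556 D T h) (mem_cons (W2747 D T h) (mem_cons (W2753 D T h) (mem_cons (W722 D T h) mem_nil)))))))))))))))) cl1665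
theorem W7197 : WFK w7197 := fun D T h => wf_of_chk h mem_nil (mem_cons (L1665 D T h) mem_nil) cw7197
theorem L1666 : LFK l1666 := fun D T h => lf_of_chk h (mem_cons (W2696 D T h) (mem_cons (W1502 D T h) (mem_cons (W2683 D T h) (mem_cons (W16 D T h) (mem_cons (W1433 D T h) (mem_cons (W2699 D T h) (mem_cons (W7195 D T h) (mem_cons (W7197 D T h) (mem_cons (W1184 D T h) (mem_cons (W2517 D T h) (mem_cons (W1643 D T h) (mem_cons (W1719 D T h) (mem_cons (W2687 D T h) (mem_cons (W1945 D T h) (mem_cons (W1064 D T h) (mem_cons (W7193 D T h) (mem_cons (W284 D T h) (mem_cons (W1919 D T h) (mem_cons (W1929 D T h) (mem_cons (W2346 D T h) (mem_cons (W1410 D T h) (mem_cons (W1407 D T h) (mem_cons (W7190 D T h) (mem_cons (W7191 D T h) (mem_cons (W2934 D T h) (mem_cons (W1417 D T h) (mem_cons (W50 D T h) (mem_cons (W1420 D T h) (mem_cons (W2408 D T h) (mem_cons (W2409 D T h) (mem_cons (W5633 D T h) (mem_cons (W2410 D T h) (mem_cons (W7185 D T h) (mem_cons (W2670 D T h) (mem_cons (W2630 D T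 h) (mem_cons (W2524 D T h) (mem_cons (W2676 D T h) (mem_cons (W1634 D T h) (mem_cons (W461 D T h) (mem_cons (W1372 D T h) (mem_cons (W1653 D T h) (mem_cons (W7194 D T h) (mem_cons (W2613 D T h) mem_nil))))))))))))))))))))))))))))))))))))))))))) cl1666
theorem W7198 : WFK w7198 := fun D T h => wf_of_chk h mem_nil (mem_cons (L1666 D T h) mem_nil) cw7198
theorem W7199 : WFK w7199 := fun D T h => wf_of_chk h (mem_cons (W126 D T h) (mem_cons (W16 D T h) mem_nil)) mem_nil cw7199
theorem L1667 : LFK l1667 := fun D T h => lf_of_chk h (mem_cons (W91 D T h) (mem_cons (W619 D T h) (mem_cons (W7171 D T h) (mem_cons (W3153 D T h) (mem_cons (W878 D T h) (mem_cons (W265 D T h) (mem_cons (W817 D T h) (mem_cons (W6316 D T h) (mem_cons (W5830 D T h) (mem_cons (W16 D T h) (mem_cons (W802 D T h) (mem_cons (W4 D T h) (mem_cons (W33 D T h) (mem_cons (W2204 D T h) (mem_cons (W233 D T h) mem_nil))))))))))))))) cl1667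
theorem W7200 : WFK w7200 := fun D T h => wf_of_chk h mem_nil (mem_cons (L1667 D T h) mem_nil) cw7200
theorem W7201 : WFK w7201 := fun D T h => wf_of_chk h (mem_cons (W162 D T h) (mem_cons (W7114 D T h) mem_nil)) mem_nil cw7201
theorem W7202 : WFK w7202 := fun D T h => wf_of_chk h (mem_cons (W16 D T h) (mem_cons (W7114 D T h) mem_nil)) mem_nil cw7202
theorem W7203 : WFK w7203 := fun D T h => wf_of_chk h (mem_cons (W1719 D T h) (mem_cons (W16 D T h) mem_nil)) mem_nil cw7203
theorem W7204 : WFK w7204 := fun D T h => wf_of_chk h mem_nil (mem_cons (L316 D T h) mem_nil) cw7204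
theorem W7205 : WFK w7205 := fun D T h => wf_of_chk h (mem_cons (W7204 D T h) (mem_cons (W16 D T h) mem_nil)) mem_nil cw7205
theorem W7206 : WFK w7206 := fun D T h => wf_of_chk h (mem_cons (W1721 D T h) (mem_cons (W16 D T h) mem_nil)) mem_nil cw7206
theorem W7207 : WFK w7207 := fun D T h => wf_of_chk h (mem_cons (W1369 D T h) (mem_cons (W16 D T h) mem_nil)) mem_nil cw7207
theorem L1668 : LFK l1668 := fun D T h => lf_of_chk h (mem_cons (W6425 D T h) (mem_cons (W1318 D T h) (mem_cons (W16 D T h) (mem_cons (W7169 D T h) (mem_cons (W7198 D T h) (mem_cons (W6327 D T h) (mem_cons (W6326 D T h) (mem_cons (W3036 D T h) (mem_cons (W2015 D T h) (mem_cons (W7202 D T h) (mem_cons (W7199 D T h) (mem_cons (W4209 D T h) (mem_cons (W6428 D T h) (mem_cons (W128 D T h) (mem_cons (W3029 D T h) (mem_cons (W3030 D T h) (mem_cons (W799 D T h) (mem_cons (W7200 D T h) (mem_cons (W3034 D T h) (mem_cons (W3045 D T h) (mem_cons (W3032 D T h) (mem_cons (W3043 D T h) (mem_cons (W2714 D T h) (mem_cons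 (W7203 D T h) (mem_cons (W7205 D T h) (mem_cons (W7206 D T h) (mem_cons (W7207 D T h) (mem_cons (W3843 D T h) (mem_cons (W1362 D T h) mem_nil))))))))))))))))))))))))))))) cl1668
theorem W7208 : WFK w7208 := fun D T h => wf_of_chk h mem_nil (mem_cons (L1668 D T h) mem_nil) cw7208
theorem W7209 : WFK w7209 := fun D T h => wf_of_chk h mem_nil (mem_cons (L449 D T h) mem_nil) cw7209
theorem W7210 : WFK w7210 := fun D T h => wf_of_chk h (mem_cons (W3473 D T h) (mem_cons (W144 D T h) mem_nil)) mem_nil cw7210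
theorem L1669 : LFK l1669 := fun D T h => lf_of_chk h (mem_cons (W2431 D T h) (mem_cons (W1919 D T h) (mem_cons (W230 D T h) (mem_cons (W1929 D T h) (mem_cons (W535 D T h) (mem_cons (W537 D T h) (mem_cons (W6074 D T h) (mem_cons (W2015 D T h) (mem_cons (W7184 D T h) (mem_cons (W2440 D T h) (mem_cons (W2423 D T h) (mem_cons (W145 D T h) (mem_cons (W552 D T h) (mem_cons (W1189 D T h) (mem_cons (W901 D T h) (mem_cons (W2434 D T h) (mem_cons (W2435 D T h) (mem_cons (W7209 D T h) (mem_cons (W7210 D T h) (mem_cons (W519 D T h) (mem_cons (W2413 D T h) (mem_cons (W2417 D T h) (mem_cons (W2420 D T h) (mem_cons (W2418 D T h) (mem_cons (W1196 D T h) (mem_cons (W2421 D T h) (mem_cons (W16 D T h) (mem_cons (W2518 D T h) (mem_cons (W3696 D T h) (mem_cons (W2424 D T h) (mem_cons (W2436 D T h) (mem_cons (W2037 D T h) (mem_cons (W2437 D T h) (mem_cons (W2438 D T h) (mem_cons (W2439 D T h) (mem_cons (W2425 D T h) (mem_cons (W521 D T h) (mem_cons (W2427 D T h) (mem_cons (W2426 D T h) (mem_cons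 (W128 D T h) (mem_cons (W2428 D T h) (mem_cons (W2429 D T h) (mem_cons (W2773 D T h) (mem_cons (W7182 D T h) mem_nil)))))))))))))))))))))))))))))))))))))))))))) cl1669
theorem W7211 : WFK w7211 := fun D T h => wf_of_chk h mem_nil (mem_cons (L1669 D T h) mem_nil) cw7211
theorem W7212 : WFK w7212 := fun D T h => wf_of_chk h mem_nil (mem_cons (L878 D T h) mem_nil) cw7212
theorem L1670 : LFK l1670 := fun D T h => lf_of_chk h (mem_cons (W4028 D T h) (mem_cons (W341 D T h) (mem_cons (W1635 D T h) (mem_cons (W1533 D T h) (mem_cons (W284 D T h) (mem_cons (W16 D T h) (mem_cons (W281 D T h) (mem_cons (W1408 D T h) (mem_cons (W3212 D T h) (mem_cons (W24 D T h) (mem_cons (W7212 D T h) (mem_cons (W228 D T h) (mem_cons (W3666 D T h) (mem_cons (W762 D T h) (mem_cons (W2832 D T h) (mem_cons (W3571 D T h) (mem_cons (W1638 D T h) (mem_cons (W1639 D T h) mem_nil)))))))))))))))))) cl1670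
theorem W7213 : WFK w7213 := fun D T h => wf_of_chk h mem_nil (mem_cons (L1670 D T h) mem_nil) cw7213
theorem L1671 : LFK l1671 := fun D T h => lf_of_chk h (mem_cons (W1616 D T h) (mem_cons (W341 D T h) (mem_cons (W1436 D T h) (mem_cons (W12 D T h) (mem_cons (W1549 D T h) (mem_cons (W7171 D T h) (mem_cons (W1537 D T h) (mem_cons (W5597 D T h) (mem_cons (W603 D T h) (mem_cons (W5596 D T h) (mem_cons (W284 D T h) (mem_cons (W2684 D T h) (mem_cons (W432 D T h) (mem_cons (W2740 D T h) (mem_cons (W2685 D T h) (mem_cons (W431 D T h) (mem_cons (W959 D T h) mem_nil))))))))))))))))) cl1671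
theorem W7214 : WFK w7214 := fun D T h => wf_of_chk h mem_nil (mem_cons (L1671 D T h) mem_nil) cw7214
theorem L1672 : LFK l1672 := fun D T h => lf_of_chk h (mem_cons (W50 D T h) (mem_cons (W2940 D T h) (mem_cons (W220 D T h) (mem_cons (W15 D T h) (mem_cons (W2692 D T h) (mem_cons (W209 D T h) (mem_cons (W24 D T h) (mem_cons (W2930 D T h) (mem_cons (W1166 D T h) (mem_cons (W932 D T h) (mem_cons (W5507 D T h) (mem_cons (W1227 D T h) (mem_cons (W2405 D T h) (mem_cons (W946 D T h) (mem_cons (W2689 D T h) (mem_cons (W2691 D T h) (mem_cons (W7212 D T h) (mem_cons (W42 D T h) (mem_cons (W1361 D T h) (mem_cons (W1362 D T h) mem_nil)))))))))))))))))))) cl1672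
theorem W7215 : WFK w7215 := fun D T h => wf_of_chk h mem_nil (mem_cons (L1672 D T h) mem_nil) cw7215
theorem L1673 : LFK l1673 := fun D T h => lf_of_chk h (mem_cons (W50 D T h) (mem_cons (W6719 D T h) (mem_cons (W220 D T h) (mem_cons (W15 D T h) (mem_cons (W6720 D T h) (mem_cons (W209 D T h) (mem_cons (W24 D T h) (mem_cons (W2930 D T h) (mem_cons (W2693 D T h) (mem_cons (W932 D T h) (mem_cons (W2834 D T h) (mem_cons (W1227 D T h) (mem_cons (W2405 D T h) (mem_cons (W946 D T h) (mem_cons (W2689 D T h) (mem_cons (W2691 D T h) (mem_cons (W4028 D T h) (mem_cons (W4277 D T h) (mem_cons (W42 D T h) (mem_cons (W1361 D T h) (mem_cons (W1362 D T h) mem_nil))))))))))))))))))))) cl1673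
theorem W7216 : WFK w7216 := fun D T h => wf_of_chk h mem_nil (mem_cons (L1673 D T h) mem_nil) cw7216
theorem L1674 : LFK l1674 := fun D T h => lf_of_chk h (mem_cons (W2696 D T h) (mem_cons (W1310 D T h) (mem_cons (W1919 D T h) (mem_cons (W284 D T h) (mem_cons (W1929 D T h) (mem_cons (W16 D T h) (mem_cons (W2346 D T h) (mem_cons (W7190 D T h) (mem_cons (W2934 D T h) (mem_cons (W7191 D T h) (mem_cons (W50 D T h) (mem_cons (W1417 D T h) (mem_cons (W2408 D T h) (mem_cons (W1420 D T h) (mem_cons (W2409 D T h) (mem_cons (W7211 D T h) (mem_cons (W2410 D T h) (mem_cons (W5633 D T h) (mem_cons (W2524 D T h) (mem_cons (W2630 D T h) (mem_cons (W2670 D T h) (mem_cons (W2676 D T h) (mem_cons (W461 D T h) (mem_cons (W2611 D T h) (mem_cons (W1396 D T h) (mem_cons (W2612 D T h) (mem_cons (W1653 D T h) (mem_cons (W2613 D T h) (mem_cons (W7213 D T h) (mem_cons (W1433 D T h) (mem_cons (W2699 D T h) (mem_cons (W2704 D T h) (mem_cons (W1719 D T h) (mem_cons (W1643 D T h) (mem_cons (W1064 D T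 h) (mem_cons (W7076 D T h) (mem_cons (W7214 D T h) (mem_cons (W7215 D T h) (mem_cons (W1945 D T h) (mem_cons (W7216 D T h) mem_nil)))))))))))))))))))))))))))))))))))))))) cl1674
theorem W7217 : WFK w7217 := fun D T h => wf_of_chk h mem_nil (mem_cons (L1674 D T h) mem_nil) cw7217
theorem W7218 : WFK w7218 := fun D T h => wf_of_chk h (mem_cons (W386 D T h) (mem_cons (W16 D T h) mem_nil)) mem_nil cw7218
theorem W7219 : WFK w7219 := fun D T h => wf_of_chk h (mem_cons (W6740 D T h) (mem_cons (W16 D T h) mem_nil)) mem_nil cw7219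
theorem W7220 : WFK w7220 := fun D T h => wf_of_chk h (mem_cons (W6740 D T h) (mem_cons (W16 D T h) mem_nil)) mem_nil cw7220
theorem W7221 : WFK w7221 := fun D T h => wf_of_chk h mem_nil (mem_cons (L1146 D T h) mem_nil) cw7221
theorem L1675 : LFK l1675 := fun D T h => lf_of_chk h (mem_cons (W7207 D T h) (mem_cons (W37 D T h) (mem_cons (W2015 D T h) (mem_cons (W2272 D T h) (mem_cons (W7219 D T h) (mem_cons (W2037 D T h) (mem_cons (W7220 D T h) (mem_cons (W6425 D T h) (mem_cons (W7201 D T h) (mem_cons (W5633 D T h) (mem_cons (W1362 D T h) (mem_cons (W7218 D T h) (mem_cons (W4424 D T h) (mem_cons (W7178 D T h) (mem_cons (W16 D T h) (mem_cons (W7217 D T h) (mem_cons (W6327 D T h) (mem_cons (W6326 D T h) (mem_cons (W7202 D T h) (mem_cons (W3018 D T h) (mem_cons (W7199 D T h) (mem_cons (W251 D T h) (mem_cons (W3029 D T h) (mem_cons (W128 D T h) (mem_cons (W6428 D T h) (mem_cons (W3030 D T h) (mem_cons (W7200 D T h) (mem_cons (W799 D T h) (mem_cons (W3034 D T h) (mem_cons (W3032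 D T h) (mem_cons (W3045 D T h) (mem_cons (W3043 D T h) (mem_cons (W7221 D T h) mem_nil))))))))))))))))))))))))))))))))) cl1675
theorem W7222 : WFK w7222 := fun D T h => wf_of_chk h mem_nil (mem_cons (L1675 D T h) mem_nil) cw7222
theorem W7223 : WFK w7223 := fun D T h => wf_of_chk h mem_nil (mem_cons (L1509 D T h) mem_nil) cw7223
theorem W7224 : WFK w7224 := fun D T h => wf_of_chk h (mem_cons (W3396 D T h) (mem_cons (W37 D T h) mem_nil)) mem_nil cw7224
theorem L1676 : LFK l1676 := fun D T h => lf_of_chk h (mem_cons (W6444 D T h) (mem_cons (W37 D T h) (mem_cons (W16 D T h) (mem_cons (W7169 D T h) (mem_cons (W6477 D T h) (mem_cons (W284 D T h) (mem_cons (W1502 D T h) (mem_cons (W6496 D T h) (mem_cons (W6505 D T h) (mem_cons (W2169 D T h) (mem_cons (W2168 D T h) (mem_cons (W7208 D T h) (mem_cons (W6719 D T h) (mem_cons (W5633 D T h) (mem_cons (W6474 D T h) (mem_cons (W6475 D T h) (mem_cons (W6476 D T h) (mem_cons (W7173 D T h) (mem_cons (W50 D T h) (mem_cons (W7170 D T h) (mem_cons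 (W4285 D T h) (mem_cons (W7178 D T h) (mem_cons (W7223 D T h) (mem_cons (W7224 D T h) (mem_cons (W7222 D T h) (mem_cons (W4027 D T h) mem_nil)))))))))))))))))))))))))) cl1676
theorem W7225 : WFK w7225 := fun D T h => wf_of_chk h mem_nil (mem_cons (L1676 D T h) mem_nil) cw7225
theorem W7226 : WFK w7226 := fun D T h => wf_of_chk h (mem_cons (W37 D T h) mem_nil) mem_nil cw7226
theorem W7227 : WFK w7227 := fun D T h => wf_of_chk h mem_nil (mem_cons (L1621 D T h) mem_nil) cw7227
theorem W7228 : WFK w7228 := fun D T h => wf_of_chk h (mem_cons (W162 D T h) (mem_cons (W37 D T h) mem_nil)) mem_nil cw7228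
theorem W7229 : WFK w7229 := fun D T h => wf_of_chk h (mem_cons (W56 D T h) (mem_cons (W37 D T h) mem_nil)) mem_nil cw7229
theorem W7230 : WFK w7230 := fun D T h => wf_of_chk h mem_nil (mem_cons (L45 D T h) mem_nil) cw7230
theorem W7231 : WFK w7231 := fun D T h => wf_of_chk h (mem_cons (W1066 D T h) (mem_cons (W37 D T h) mem_nil)) mem_nil cw7231
theorem W7232 : WFK w7232 := fun D T h => wf_of_chk h mem_nil (mem_cons (L1146 D T h) mem_nil) cw7232
theorem W7233 : WFK w7233 := fun D T h => wf_of_chk h (mem_cons (W69 D T h) (mem_cons (W220 D T h) mem_nil)) mem_nil cw7233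
theorem W7234 : WFK w7234 := fun D T h => wf_of_chk h mem_nil (mem_cons (L1557 D T h) mem_nil) cw7234
theorem W7235 : WFK w7235 := fun D T h => wf_of_chk h (mem_cons (W220 D T h) mem_nil) mem_nil cw7235
theorem L1677 : LFK l1677 := fun D T h => lf_of_chk h (mem_cons (W7232 D T h) (mem_cons (W748 D T h) (mem_cons (W1202 D T h) (mem_cons (W2743 D T h) (mem_cons (W1326 D T h) (mem_cons (W6798 D T h) (mem_cons (W7233 D T h) (mem_cons (W6797 D T h) (mem_cons (W7235 D T h) (mem_cons (W7234 D T h) (mem_cons (W1298 D T h) (mem_cons (W5258 D T h) (mem_cons (W220 D T h) mem_nil))))))))))))) cl1677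
theorem W7236 : WFK w7236 := fun D T h => wf_of_chk h mem_nil (mem_cons (L1677 D T h) mem_nil) cw7236
theorem W7237 : WFK w7237 := fun D T h => wf_of_chk h (mem_cons (W16 D T h) (mem_cons (W3961 D T h) mem_nil)) mem_nil cw7237
theorem W7238 : WFK w7238 := fun D T h => wf_of_chk h (mem_cons (W164 D T h) (mem_cons (W220 D T h) mem_nil)) mem_nil cw7238
theorem W7239 : WFK w7239 := fun D T h => wf_of_chk h (mem_cons (W164 D T h) (mem_cons (W220 D T h) mem_nil)) mem_nil cw7239
theorem W7240 : WFK w7240 := fun D T h => wf_of_chk h mem_nil (mem_cons (L1358 D T h) mem_nil) cw7240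
theorem W7241 : WFK w7241 := fun D T h => wf_of_chk h mem_nil (mem_cons (L1358 D T h) mem_nil) cw7241
theorem W7242 : WFK w7242 := fun D T h => wf_of_chk h mem_nil (mem_cons (L1599 D T h) mem_nil) cw7242
theorem W7243 : WFK w7243 := fun D T h => wf_of_chk h mem_nil (mem_cons (L39 D T h) mem_nil) cw7243
theorem L1678 : LFK l1678 := fun D T h => lf_of_chk h (mem_cons (W2620 D T h) (mem_cons (W164 D T h) (mem_cons (W220 D T h) (mem_cons (W144 D T h) (mem_cons (W15 D T h) (mem_cons (W949 D T h) (mem_cons (W201 D T h) (mem_cons (W659 D T h) (mem_cons (W2627 D T h) (mem_cons (W86 D T h) (mem_cons (W93 D T h) (mem_cons (W7242 D T h) (mem_cons (W6182 D T h) (mem_cons (W6183 D T h) (mem_cons (W7243 D T h) (mem_cons (W1805 D T h) (mem_cons (W142 D T h) (mem_cons (W3298 D T h) (mem_cons (W149 D T h) (mem_cons (W864 D T h) (mem_cons (W7240 D T h) (mem_cons (W6171 D T h) (mem_cons (W7241 D T h) (mem_cons (W6175 D T h) (mem_cons (W6170 D T h) (mem_cons (W6176 D T h) (mem_cons (W6177 D T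 h) (mem_cons (W42 D T h) (mem_cons (W6178 D T h) mem_nil))))))))))))))))))))))))))))) cl1678
theorem W7244 : WFK w7244 := fun D T h => wf_of_chk h mem_nil (mem_cons (L1678 D T h) mem_nil) cw7244
theorem W7245 : WFK w7245 := fun D T h => wf_of_chk h mem_nil (mem_cons (L1201 D T h) mem_nil) cw7245
theorem W7246 : WFK w7246 := fun D T h => wf_of_chk h (mem_cons (W220 D T h) mem_nil) mem_nil cw7246
theorem L1679 : LFK l1679 := fun D T h => lf_of_chk h (mem_cons (W1325 D T h) mem_nil) cl1679
theorem W7247 : WFK w7247 := fun D T h => wf_of_chk h mem_nil (mem_cons (L1679 D T h) mem_nil) cw7247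
theorem W7248 : WFK w7248 := fun D T h => wf_of_chk h (mem_cons (W75 D T h) (mem_cons (W220 D T h) mem_nil)) mem_nil cw7248
theorem W7249 : WFK w7249 := fun D T h => wf_of_chk h (mem_cons (W871 D T h) mem_nil) mem_nil cw7249
theorem W7250 : WFK w7250 := fun D T h => wf_of_chk h mem_nil (mem_cons (L89 D T h) mem_nil) cw7250
theorem W7251 : WFK w7251 := fun D T h => wf_of_chk h (mem_cons (W1139 D T h) mem_nil) mem_nil cw7251
theorem W7252 : WFK w7252 := fun D T h => wf_of_chk h mem_nil (mem_cons (L1598 D T h) mem_nil) cw7252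
theorem W7253 : WFK w7253 := fun D T h => wf_of_chk h mem_nil (mem_cons (L1103 D T h) mem_nil) cw7253
theorem W7254 : WFK w7254 := fun D T h => wf_of_chk h (mem_cons (W2122 D T h) (mem_cons (W220 D T h) mem_nil)) mem_nil cw7254
theorem W7255 : WFK w7255 := fun D T h => wf_of_chk h (mem_cons (W4593 D T h) (mem_cons (W220 D T h) mem_nil)) mem_nil cw7255
theorem W7256 : WFK w7256 := fun D T h => wf_of_chk h (mem_cons (W1637 D T h) (mem_cons (W220 D T h) mem_nil)) mem_nil cw7256
theorem W7257 : WFK w7257 := fun D T h => wf_of_chk h mem_nil (mem_cons (L1608 D T h) mem_nil) cw7257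
theorem W7258 : WFK w7258 := fun D T h => wf_of_chk h mem_nil (mem_cons (L1632 D T h) mem_nil) cw7258
theorem W7259 : WFK w7259 := fun D T h => wf_of_chk h mem_nil (mem_cons (L663 D T h) mem_nil) cw7259
theorem W7260 : WFK w7260 := fun D T h => wf_of_chk h mem_nil (mem_cons (L342 D T h) mem_nil) cw7260
theorem L1680 : LFK l1680 := fun D T h => lf_of_chk h (mem_cons (W6776 D T h) (mem_cons (W1325 D T h) (mem_cons (W1326 D T h) (mem_cons (W220 D T h) (mem_cons (W3 D T h) (mem_cons (W7258 D T h) (mem_cons (W15 D T h) (mem_cons (W7259 D T h) (mem_cons (W652 D T h) (mem_cons (W7260 D T h) (mem_cons (W1519 D T h) (mem_cons (W888 D T h) (mem_cons (W7257 D T h) mem_nil))))))))))))) cl1680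
theorem W7261 : WFK w7261 := fun D T h => wf_of_chk h mem_nil (mem_cons (L1680 D T h) mem_nil) cw7261
theorem W7262 : WFK w7262 := fun D T h => wf_of_chk h (mem_cons (W2137 D T h) (mem_cons (W220 D T h) mem_nil)) mem_nil cw7262
theorem W7263 : WFK w7263 := fun D T h => wf_of_chk h (mem_cons (W2090 D T h) (mem_cons (W220 D T h) mem_nil)) mem_nil cw7263
theorem W7264 : WFK w7264 := fun D T h => wf_of_chk h mem_nil (mem_cons (L481 D T h) mem_nil) cw7264
theorem W7265 : WFK w7265 := fun D T h => wf_of_chk h mem_nil (mem_cons (L185 D T h) mem_nil) cw7265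
theorem W7266 : WFK w7266 := fun D T h => wf_of_chk h mem_nil (mem_cons (L203 D T h) mem_nil) cw7266
theorem W7267 : WFK w7267 := fun D T h => wf_of_chk h (mem_cons (W1929 D T h) (mem_cons (W220 D T h) mem_nil)) mem_nil cw7267
theorem W7268 : WFK w7268 := fun D T h => wf_of_chk h (mem_cons (W1929 D T h) (mem_cons (W220 D T h) mem_nil)) mem_nil cw7268
theorem W7269 : WFK w7269 := fun D T h => wf_of_chk h (mem_cons (W69 D T h) (mem_cons (W1637 D T h) mem_nil)) mem_nil cw7269
theorem W7270 : WFK w7270 := fun D T h => wf_of_chk h (mem_cons (W220 D T h) (mem_cons (W1637 D T h) mem_nil)) mem_nil cw7270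
theorem W7271 : WFK w7271 := fun D T h => wf_of_chk h mem_nil (mem_cons (L1201 D T h) mem_nil) cw7271
theorem L1681 : LFK l1681 := fun D T h => lf_of_chk h (mem_cons (W7245 D T h) (mem_cons (W1889 D T h) (mem_cons (W161 D T h) (mem_cons (W220 D T h) (mem_cons (W1637 D T h) (mem_cons (W1335 D T h) (mem_cons (W7264 D T h) (mem_cons (W2627 D T h) (mem_cons (W7269 D T h) (mem_cons (W6714 D T h) (mem_cons (W3766 D T h) (mem_cons (W7270 D T h) (mem_cons (W2669 D T h) (mem_cons (W2106 D T h) (mem_cons (W2532 D T h) (mem_cons (W7271 D T h) (mem_cons (W370 D T h) (mem_cons (W4262 D T h) (mem_cons (W6899 D T h) (mem_cons (W6824 D T h) (mem_cons (W7265 D T h) (mem_cons (W7266 D T h) (mem_cons (W7267 D T h) (mem_cons (W7268 D T h) (mem_cons (W6911 D T h) (mem_cons (W7248 D T h) (mem_cons (W7249 D T h) (mem_cons (W7250 D T h) (mem_cons (W7251 D T h) (mem_cons (W7252 D T h) (mem_cons (W7253 D T h) (mem_cons (W7254 D T h) (mem_cons (W7255 D T h) (mem_cons (W7246 D T h) (mem_cons (W7247 D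 T h) (mem_cons (W7261 D T h) (mem_cons (W7262 D T h) (mem_cons (W1 D T h) (mem_cons (W7263 D T h) (mem_cons (W69 D T h) mem_nil)))))))))))))))))))))))))))))))))))))))) cl1681
theorem W7272 : WFK w7272 := fun D T h => wf_of_chk h mem_nil (mem_cons (L1681 D T h) mem_nil) cw7272
theorem W7273 : WFK w7273 := fun D T h => wf_of_chk h (mem_cons (W162 D T h) (mem_cons (W3961 D T h) mem_nil)) mem_nil cw7273
theorem W7274 : WFK w7274 := fun D T h => wf_of_chk h (mem_cons (W56 D T h) (mem_cons (W220 D T h) mem_nil)) mem_nil cw7274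
theorem W7275 : WFK w7275 := fun D T h => wf_of_chk h (mem_cons (W220 D T h) (mem_cons (W3961 D T h) mem_nil)) mem_nil cw7275
theorem W7276 : WFK w7276 := fun D T h => wf_of_chk h mem_nil (mem_cons (L104 D T h) mem_nil) cw7276
theorem W7277 : WFK w7277 := fun D T h => wf_of_chk h mem_nil (mem_cons (L1201 D T h) mem_nil) cw7277
theorem L1682 : LFK l1682 := fun D T h => lf_of_chk h (mem_cons (W2405 D T h) (mem_cons (W1889 D T h) (mem_cons (W154 D T h) (mem_cons (W220 D T h) (mem_cons (W2106 D T h) (mem_cons (W2532 D T h) (mem_cons (W2669 D T h) (mem_cons (W4209 D T h) (mem_cons (W4256 D T h) (mem_cons (W2539 D T h) (mem_cons (W5308 D T h) (mem_cons (W2538 D T h) (mem_cons (W638 D T h) (mem_cons (W7248 D T h) (mem_cons (W7249 D T h) (mem_cons (W871 D T h) (mem_cons (W2536 D T h) (mem_cons (W2535 D T h) (mem_cons (W2537 D T h) (mem_cons (W7276 D T h) (mem_cons (W7246 D T h) (mem_cons (W7247 D T h) (mem_cons (W7277 D T h) (mem_cons (W7245 D T h) (mem_cons (W1441 D T h) (mem_cons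 (W42 D T h) (mem_cons (W164 D T h) mem_nil))))))))))))))))))))))))))) cl1682
theorem W7278 : WFK w7278 := fun D T h => wf_of_chk h mem_nil (mem_cons (L1682 D T h) mem_nil) cw7278
theorem W7279 : WFK w7279 := fun D T h => wf_of_chk h mem_nil (mem_cons (L1682 D T h) mem_nil) cw7279
theorem W7280 : WFK w7280 := fun D T h => wf_of_chk h mem_nil (mem_cons (L1682 D T h) mem_nil) cw7280
theorem W7281 : WFK w7281 := fun D T h => wf_of_chk h mem_nil (mem_cons (L1682 D T h) mem_nil) cw7281
theorem W7282 : WFK w7282 := fun D T h => wf_of_chk h (mem_cons (W1326 D T h) (mem_cons (W16 D T h) mem_nil)) mem_nil cw7282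
theorem W7283 : WFK w7283 := fun D T h => wf_of_chk h (mem_cons (W220 D T h) mem_nil) mem_nil cw7283
theorem W7284 : WFK w7284 := fun D T h => wf_of_chk h (mem_cons (W871 D T h) (mem_cons (W16 D T h) mem_nil)) mem_nil cw7284
theorem W7285 : WFK w7285 := fun D T h => wf_of_chk h (mem_cons (W871 D T h) (mem_cons (W16 D T h) mem_nil)) mem_nil cw7285
theorem W7286 : WFK w7286 := fun D T h => wf_of_chk h (mem_cons (W1139 D T h) (mem_cons (W16 D T h) mem_nil)) mem_nil cw7286
theorem W7287 : WFK w7287 := fun D T h => wf_of_chk h (mem_cons (W6749 D T h) (mem_cons (W16 D T h) mem_nil)) mem_nil cw7287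
theorem W7288 : WFK w7288 := fun D T h => wf_of_chk h mem_nil (mem_cons (L307 D T h) mem_nil) cw7288
theorem W7289 : WFK w7289 := fun D T h => wf_of_chk h (mem_cons (W6967 D T h) (mem_cons (W16 D T h) mem_nil)) mem_nil cw7289
theorem W7290 : WFK w7290 := fun D T h => wf_of_chk h (mem_cons (W6749 D T h) (mem_cons (W16 D T h) mem_nil)) mem_nil cw7290
theorem W7291 : WFK w7291 := fun D T h => wf_of_chk h (mem_cons (W114 D T h) (mem_cons (W16 D T h) mem_nil)) mem_nil cw7291
theorem W7292 : WFK w7292 := fun D T h => wf_of_chk h (mem_cons (W56 D T h) (mem_cons (W16 D T h) mem_nil)) mem_nil cw7292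
theorem W7293 : WFK w7293 := fun D T h => wf_of_chk h (mem_cons (W6776 D T h) (mem_cons (W16 D T h) mem_nil)) mem_nil cw7293
theorem W7294 : WFK w7294 := fun D T h => wf_of_chk h (mem_cons (W5578 D T h) (mem_cons (W16 D T h) mem_nil)) mem_nil cw7294
theorem W7295 : WFK w7295 := fun D T h => wf_of_chk h (mem_cons (W69 D T h) mem_nil) mem_nil cw7295
theorem L1683 : LFK l1683 := fun D T h => lf_of_chk h (mem_cons (W53 D T h) (mem_cons (W158 D T h) (mem_cons (W33 D T h) (mem_cons (W6961 D T h) mem_nil)))) cl1683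
theorem W7296 : WFK w7296 := fun D T h => wf_of_chk h mem_nil (mem_cons (L1683 D T h) mem_nil) cw7296
theorem W7297 : WFK w7297 := fun D T h => wf_of_chk h mem_nil (mem_cons (L812 D T h) mem_nil) cw7297
theorem W7298 : WFK w7298 := fun D T h => wf_of_chk h mem_nil (mem_cons (L44 D T h) mem_nil) cw7298
theorem W7299 : WFK w7299 := fun D T h => wf_of_chk h (mem_cons (W220 D T h) (mem_cons (W7298 D T h) mem_nil)) mem_nil cw7299
theorem W7300 : WFK w7300 := fun D T h => wf_of_chk h (mem_cons (W747 D T h) (mem_cons (W69 D T h) mem_nil)) mem_nil cw7300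
theorem L1684 : LFK l1684 := fun D T h => lf_of_chk h (mem_cons (W6719 D T h) (mem_cons (W16 D T h) (mem_cons (W1520 D T h) (mem_cons (W7295 D T h) (mem_cons (W7296 D T h) (mem_cons (W6930 D T h) (mem_cons (W7297 D T h) (mem_cons (W638 D T h) (mem_cons (W149 D T h) (mem_cons (W261 D T h) (mem_cons (W7299 D T h) (mem_cons (W7300 D T h) (mem_cons (W6749 D T h) (mem_cons (W69 D T h) (mem_cons (W56 D T h) (mem_cons (W302 D T h) (mem_cons (W6758 D T h) (mem_cons (W3766 D T h) (mem_cons (W4548 D T h) mem_nil))))))))))))))))))) cl1684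
theorem W7301 : WFK w7301 := fun D T h => wf_of_chk h mem_nil (mem_cons (L1684 D T h) mem_nil) cw7301
theorem L1685 : LFK l1685 := fun D T h => lf_of_chk h (mem_cons (W7237 D T h) (mem_cons (W167 D T h) (mem_cons (W220 D T h) (mem_cons (W455 D T h) (mem_cons (W1889 D T h) (mem_cons (W16 D T h) (mem_cons (W6776 D T h) (mem_cons (W7238 D T h) (mem_cons (W7239 D T h) (mem_cons (W7244 D T h) (mem_cons (W7272 D T h) (mem_cons (W7273 D T h) (mem_cons (W2934 D T h) (mem_cons (W284 D T h) (mem_cons (W7274 D T h) (mem_cons (W2405 D T h) (mem_cons (W7230 D T h) (mem_cons (W7275 D T h) (mem_cons (W7278 D T h) (mem_cons (W7279 D T h) (mem_cons (W7280 D T h) (mem_cons (W7281 D T h) (mem_cons (W2709 D T h) (mem_cons (W7282 D T h) (mem_cons (W2936 D T h) (mem_cons (W7293 D T h) (mem_cons (W6719 D T h) (mem_cons (W7283 D T h) (mem_cons (W7284 D T h) (mem_cons (W6749 D T h) (mem_cons (W7285 D T h) (mem_cons (W7286 D T h) (mem_cons (W7287 D T h) (mem_cons (W7288 D T h) (mem_cons (W7289 D T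 h) (mem_cons (W7290 D T h) (mem_cons (W1227 D T h) (mem_cons (W7291 D T h) (mem_cons (W3958 D T h) (mem_cons (W7294 D T h) (mem_cons (W6714 D T h) (mem_cons (W3766 D T h) (mem_cons (W7292 D T h) (mem_cons (W7301 D T h) mem_nil)))))))))))))))))))))))))))))))))))))))))))) cl1685
theorem W7302 : WFK w7302 := fun D T h => wf_of_chk h mem_nil (mem_cons (L1685 D T h) mem_nil) cw7302
theorem W7303 : WFK w7303 := fun D T h => wf_of_chk h (mem_cons (W16 D T h) mem_nil) mem_nil cw7303
theorem L1686 : LFK l1686 := fun D T h => lf_of_chk h (mem_cons (W1226 D T h) (mem_cons (W167 D T h) (mem_cons (W154 D T h) (mem_cons (W16 D T h) (mem_cons (W438 D T h) (mem_cons (W2101 D T h) (mem_cons (W2669 D T h) (mem_cons (W932 D T h) (mem_cons (W366 D T h) (mem_cons (W871 D T h) (mem_cons (W5308 D T h) (mem_cons (W2539 D T h) (mem_cons (W2538 D T h) (mem_cons (W638 D T h) (mem_cons (W2667 D T h) (mem_cons (W5298 D T h) (mem_cons (W2536 D T h) (mem_cons (W2537 D T h) (mem_cons (W2535 D T h) (mem_cons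 (W2534 D T h) (mem_cons (W2405 D T h) (mem_cons (W2063 D T h) (mem_cons (W2529 D T h) (mem_cons (W1638 D T h) (mem_cons (W1694 D T h) mem_nil))))))))))))))))))))))))) cl1686
theorem W7304 : WFK w7304 := fun D T h => wf_of_chk h mem_nil (mem_cons (L1686 D T h) mem_nil) cw7304
theorem W7305 : WFK w7305 := fun D T h => wf_of_chk h (mem_cons (W69 D T h) mem_nil) mem_nil cw7305
theorem W7308 : WFK w7308 := fun D T h => wf_of_chk h (mem_cons (W167 D T h) (mem_cons (W37 D T h) mem_nil)) mem_nil cw7308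
theorem W7309 : WFK w7309 := fun D T h => wf_of_chk h (mem_cons (W5258 D T h) (mem_cons (W16 D T h) mem_nil)) mem_nil cw7309
theorem W7310 : WFK w7310 := fun D T h => wf_of_chk h (mem_cons (W16 D T h) (mem_cons (W2381 D T h) mem_nil)) mem_nil cw7310
theorem W7311 : WFK w7311 := fun D T h => wf_of_chk h mem_nil (mem_cons (L1170 D T h) mem_nil) cw7311
theorem W7312 : WFK w7312 := fun D T h => wf_of_chk h (mem_cons (W433 D T h) (mem_cons (W16 D T h) mem_nil)) mem_nil cw7312
theorem W7313 : WFK w7313 := fun D T h => wf_of_chk h mem_nil (mem_cons (L1598 D T h) mem_nil) cw7313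
theorem L1688 : LFK l1688 := fun D T h => lf_of_chk h (mem_cons (W220 D T h) mem_nil) cl1688
theorem W7314 : WFK w7314 := fun D T h => wf_of_chk h mem_nil (mem_cons (L1688 D T h) mem_nil) cw7314
theorem L1689 : LFK l1689 := fun D T h => lf_of_chk h (mem_cons (W230 D T h) mem_nil) cl1689
theorem W7315 : WFK w7315 := fun D T h => wf_of_chk h mem_nil (mem_cons (L1689 D T h) mem_nil) cw7315
theorem W7316 : WFK w7316 := fun D T h => wf_of_chk h mem_nil (mem_cons (L90 D T h) mem_nil) cw7316
theorem W7317 : WFK w7317 := fun D T h => wf_of_chk h (mem_cons (W4647 D T h) (mem_cons (W16 D T h) mem_nil)) mem_nil cw7317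
theorem W7320 : WFK w7320 := fun D T h => wf_of_chk h (mem_cons (W1519 D T h) (mem_cons (W16 D T h) mem_nil)) mem_nil cw7320
theorem W7321 : WFK w7321 := fun D T h => wf_of_chk h (mem_cons (W433 D T h) mem_nil) mem_nil cw7321
theorem W7322 : WFK w7322 := fun D T h => wf_of_chk h mem_nil (mem_cons (L188 D T h) mem_nil) cw7322
theorem W7323 : WFK w7323 := fun D T h => wf_of_chk h (mem_cons (W433 D T h) mem_nil) mem_nil cw7323
theorem W7324 : WFK w7324 := fun D T h => wf_of_chk h (mem_cons (W748 D T h) mem_nil) mem_nil cw7324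
theorem W7325 : WFK w7325 := fun D T h => wf_of_chk h mem_nil (mem_cons (L104 D T h) mem_nil) cw7325
theorem W7326 : WFK w7326 := fun D T h => wf_of_chk h mem_nil (mem_cons (L104 D T h) mem_nil) cw7326
theorem W7327 : WFK w7327 := fun D T h => wf_of_chk h (mem_cons (W1326 D T h) mem_nil) mem_nil cw7327
theorem W7328 : WFK w7328 := fun D T h => wf_of_chk h mem_nil (mem_cons (L1598 D T h) mem_nil) cw7328
theorem W7329 : WFK w7329 := fun D T h => wf_of_chk h mem_nil (mem_cons (L1598 D T h) mem_nil) cw7329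
theorem W7330 : WFK w7330 := fun D T h => wf_of_chk h mem_nil (mem_cons (L1598 D T h) mem_nil) cw7330
theorem W7331 : WFK w7331 := fun D T h => wf_of_chk h mem_nil (mem_cons (L491 D T h) mem_nil) cw7331
theorem W7332 : WFK w7332 := fun D T h => wf_of_chk h (mem_cons (W6758 D T h) mem_nil) mem_nil cw7332
theorem L1690 : LFK l1690 := fun D T h => lf_of_chk h (mem_cons (W7313 D T h) (mem_cons (W5211 D T h) (mem_cons (W7316 D T h) (mem_cons (W16 D T h) (mem_cons (W7321 D T h) (mem_cons (W7322 D T h) (mem_cons (W7323 D T h) (mem_cons (W7324 D T h) (mem_cons (W7325 D T h) (mem_cons (W7326 D T h) (mem_cons (W5606 D T h) (mem_cons (W1986 D T h) (mem_cons (W4650 D T h) (mem_cons (W7250 D T h) (mem_cons (W7327 D T h) (mem_cons (W7328 D T h) (mem_cons (W7329 D T h) (mem_cons (W7330 D T h) (mem_cons (W4593 D T h) (mem_cons (W2122 D T h) (mem_cons (W7331 D T h) (mem_cons (W7332 D T h) (mem_cons (W7314 D T h) (mem_cons (W7315 D T h) (mem_cons (W7317 D T h) (mem_cons (W7320 D T h) mem_nil))))))))))))))))))))))))))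 cl1690
theorem W7333 : WFK w7333 := fun D T h => wf_of_chk h mem_nil (mem_cons (L1690 D T h) mem_nil) cw7333
theorem W7334 : WFK w7334 := fun D T h => wf_of_chk h (mem_cons (W162 D T h) (mem_cons (W2381 D T h) mem_nil)) mem_nil cw7334
theorem W7335 : WFK w7335 := fun D T h => wf_of_chk h mem_nil (mem_cons (L511 D T h) mem_nil) cw7335
theorem W7336 : WFK w7336 := fun D T h => wf_of_chk h (mem_cons (W7283 D T h) (mem_cons (W16 D T h) mem_nil)) mem_nil cw7336
theorem W7337 : WFK w7337 := fun D T h => wf_of_chk h (mem_cons (W16 D T h) mem_nil) mem_nil cw7337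
theorem W7338 : WFK w7338 := fun D T h => wf_of_chk h mem_nil (mem_cons (L178 D T h) mem_nil) cw7338
theorem W7339 : WFK w7339 := fun D T h => wf_of_chk h (mem_cons (W7338 D T h) (mem_cons (W16 D T h) mem_nil)) mem_nil cw7339
theorem W7340 : WFK w7340 := fun D T h => wf_of_chk h mem_nil (mem_cons (L1053 D T h) mem_nil) cw7340
theorem W7341 : WFK w7341 := fun D T h => wf_of_chk h mem_nil (mem_cons (L1056 D T h) mem_nil) cw7341
theorem W7342 : WFK w7342 := fun D T h => wf_of_chk h mem_nil (mem_cons (L672 D T h) mem_nil) cw7342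
theorem W7343 : WFK w7343 := fun D T h => wf_of_chk h mem_nil (mem_cons (L1217 D T h) mem_nil) cw7343
theorem W7344 : WFK w7344 := fun D T h => wf_of_chk h mem_nil (mem_cons (L715 D T h) mem_nil) cw7344
theorem W7345 : WFK w7345 := fun D T h => wf_of_chk h mem_nil (mem_cons (L812 D T h) mem_nil) cw7345
theorem W7346 : WFK w7346 := fun D T h => wf_of_chk h mem_nil (mem_cons (L1683 D T h) mem_nil) cw7346
theorem W7347 : WFK w7347 := fun D T h => wf_of_chk h mem_nil (mem_cons (L1683 D T h) mem_nil) cw7347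
theorem W7348 : WFK w7348 := fun D T h => wf_of_chk h mem_nil (mem_cons (L267 D T h) mem_nil) cw7348
theorem L1691 : LFK l1691 := fun D T h => lf_of_chk h (mem_cons (W7276 D T h) (mem_cons (W5211 D T h) (mem_cons (W521 D T h) (mem_cons (W1588 D T h) (mem_cons (W871 D T h) (mem_cons (W7321 D T h) (mem_cons (W7342 D T h) (mem_cons (W7323 D T h) (mem_cons (W7343 D T h) (mem_cons (W7344 D T h) (mem_cons (W7345 D T h) (mem_cons (W149 D T h) (mem_cons (W1747 D T h) (mem_cons (W2740 D T h) (mem_cons (W2743 D T h) (mem_cons (W2105 D T h) (mem_cons (W7325 D T h) (mem_cons (W6175 D T h) (mem_cons (W3123 D T h) (mem_cons (W638 D T h) (mem_cons (W1986 D T h) (mem_cons (W7346 D T h) (mem_cons (W7327 D T h) (mem_cons (W7347 D T h) (mem_cons (W7348 D T h) (mem_cons (W7314 D T h) (mem_cons (W7337 D T h) (mem_cons (W7339 D T h) (mem_cons (W7313 D T h) (mem_cons (W42 D T h) (mem_cons (W7340 D T h) (mem_cons (W164 D T h) (mem_cons (W7341 D T h) mem_nil))))))))))))))))))))))))))))))))) cl1691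
theorem W7349 : WFK w7349 := fun D T h => wf_of_chk h mem_nil (mem_cons (L1691 D T h) mem_nil) cw7349
theorem W7350 : WFK w7350 := fun D T h => wf_of_chk h mem_nil (mem_cons (L1691 D T h) mem_nil) cw7350
theorem W7351 : WFK w7351 := fun D T h => wf_of_chk h mem_nil (mem_cons (L1691 D T h) mem_nil) cw7351
theorem W7352 : WFK w7352 := fun D T h => wf_of_chk h mem_nil (mem_cons (L1691 D T h) mem_nil) cw7352
theorem W7353 : WFK w7353 := fun D T h => wf_of_chk h mem_nil (mem_cons (L1170 D T h) mem_nil) cw7353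
theorem W7354 : WFK w7354 := fun D T h => wf_of_chk h (mem_cons (W267 D T h) (mem_cons (W16 D T h) mem_nil)) mem_nil cw7354
theorem W7355 : WFK w7355 := fun D T h => wf_of_chk h (mem_cons (W144 D T h) (mem_cons (W16 D T h) mem_nil)) mem_nil cw7355
theorem W7356 : WFK w7356 := fun D T h => wf_of_chk h (mem_cons (W433 D T h) (mem_cons (W16 D T h) mem_nil)) mem_nil cw7356
theorem W7357 : WFK w7357 := fun D T h => wf_of_chk h (mem_cons (W433 D T h) (mem_cons (W16 D T h) mem_nil)) mem_nil cw7357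
theorem W7358 : WFK w7358 := fun D T h => wf_of_chk h (mem_cons (W747 D T h) (mem_cons (W16 D T h) mem_nil)) mem_nil cw7358
theorem W7359 : WFK w7359 := fun D T h => wf_of_chk h mem_nil (mem_cons (L104 D T h) mem_nil) cw7359
theorem W7360 : WFK w7360 := fun D T h => wf_of_chk h (mem_cons (W1191 D T h) (mem_cons (W16 D T h) mem_nil)) mem_nil cw7360
theorem W7361 : WFK w7361 := fun D T h => wf_of_chk h (mem_cons (W6749 D T h) (mem_cons (W16 D T h) mem_nil)) mem_nil cw7361
theorem W7362 : WFK w7362 := fun D T h => wf_of_chk h (mem_cons (W6967 D T h) (mem_cons (W16 D T h) mem_nil)) mem_nil cw7362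
theorem W7363 : WFK w7363 := fun D T h => wf_of_chk h (mem_cons (W6749 D T h) (mem_cons (W16 D T h) mem_nil)) mem_nil cw7363
theorem W7364 : WFK w7364 := fun D T h => wf_of_chk h (mem_cons (W1326 D T h) (mem_cons (W16 D T h) mem_nil)) mem_nil cw7364
theorem W7365 : WFK w7365 := fun D T h => wf_of_chk h (mem_cons (W6797 D T h) (mem_cons (W16 D T h) mem_nil)) mem_nil cw7365
theorem W7366 : WFK w7366 := fun D T h => wf_of_chk h (mem_cons (W6928 D T h) (mem_cons (W16 D T h) mem_nil)) mem_nil cw7366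
theorem W7367 : WFK w7367 := fun D T h => wf_of_chk h (mem_cons (W5321 D T h) (mem_cons (W16 D T h) mem_nil)) mem_nil cw7367
theorem L1692 : LFK l1692 := fun D T h => lf_of_chk h (mem_cons (W7310 D T h) (mem_cons (W16 D T h) (mem_cons (W5211 D T h) (mem_cons (W7353 D T h) (mem_cons (W7356 D T h) (mem_cons (W7311 D T h) (mem_cons (W7357 D T h) (mem_cons (W7366 D T h) (mem_cons (W7367 D T h) (mem_cons (W7358 D T h) (mem_cons (W7276 D T h) (mem_cons (W7359 D T h) (mem_cons (W284 D T h) (mem_cons (W7360 D T h) (mem_cons (W7361 D T h) (mem_cons (W7362 D T h) (mem_cons (W7363 D T h) (mem_cons (W2381 D T h) (mem_cons (W7354 D T h) (mem_cons (W7355 D T h) (mem_cons (W7364 D T h) (mem_cons (W6841 D T h) (mem_cons (W7077 D T h) (mem_cons (W7365 D T h) (mem_cons (W7312 D T h) (mem_cons (W7333 D T h) (mem_cons (W2934 D T h) (mem_cons (W7334 D T h) (mem_cons (W7335 D T h) (mem_cons (W7336 D T h) (mem_cons (W7349 D T h) (mem_cons (W7350 D T h) (mem_cons (W7351 D T h) (mem_cons (W7352 D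 T h) mem_nil)))))))))))))))))))))))))))))))))) cl1692
theorem W7368 : WFK w7368 := fun D T h => wf_of_chk h mem_nil (mem_cons (L1692 D T h) mem_nil) cw7368
theorem W7369 : WFK w7369 := fun D T h => wf_of_chk h (mem_cons (W69 D T h) (mem_cons (W16 D T h) mem_nil)) mem_nil cw7369
theorem W7370 : WFK w7370 := fun D T h => wf_of_chk h (mem_cons (W2740 D T h) (mem_cons (W16 D T h) mem_nil)) mem_nil cw7370
theorem W7371 : WFK w7371 := fun D T h => wf_of_chk h (mem_cons (W1637 D T h) (mem_cons (W16 D T h) mem_nil)) mem_nil cw7371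
theorem W7372 : WFK w7372 := fun D T h => wf_of_chk h (mem_cons (W2726 D T h) (mem_cons (W16 D T h) mem_nil)) mem_nil cw7372
theorem W7373 : WFK w7373 := fun D T h => wf_of_chk h (mem_cons (W16 D T h) (mem_cons (W6572 D T h) mem_nil)) mem_nil cw7373
theorem W7374 : WFK w7374 := fun D T h => wf_of_chk h (mem_cons (W16 D T h) (mem_cons (W2517 D T h) mem_nil)) mem_nil cw7374
theorem L1693 : LFK l1693 := fun D T h => lf_of_chk h (mem_cons (W6841 D T h) (mem_cons (W56 D T h) (mem_cons (W16 D T h) (mem_cons (W1326 D T h) (mem_cons (W7369 D T h) (mem_cons (W6797 D T h) (mem_cons (W748 D T h) (mem_cons (W871 D T h) (mem_cons (W1202 D T h) (mem_cons (W2743 D T h) (mem_cons (W1139 D T h) (mem_cons (W7235 D T h) (mem_cons (W7370 D T h) (mem_cons (W6749 D T h) (mem_cons (W7285 D T h) (mem_cons (W2517 D T h) (mem_cons (W6572 D T h) (mem_cons (W7371 D T h) (mem_cons (W7372 D T h) (mem_cons (W7373 D T h) (mem_cons (W2938 D T h) (mem_cons (W7374 D T h) mem_nil)))))))))))))))))))))) cl1693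
theorem W7375 : WFK w7375 := fun D T h => wf_of_chk h mem_nil (mem_cons (L1693 D T h) mem_nil) cw7375
theorem W7376 : WFK w7376 := fun D T h => wf_of_chk h (mem_cons (W448 D T h) (mem_cons (W16 D T h) mem_nil)) mem_nil cw7376
theorem W7377 : WFK w7377 := fun D T h => wf_of_chk h (mem_cons (W448 D T h) (mem_cons (W16 D T h) mem_nil)) mem_nil cw7377
theorem L1694 : LFK l1694 := fun D T h => lf_of_chk h (mem_cons (W831 D T h) (mem_cons (W29 D T h) (mem_cons (W1535 D T h) mem_nil))) cl1694
theorem W7378 : WFK w7378 := fun D T h => wf_of_chk h mem_nil (mem_cons (L1694 D T h) mem_nil) cw7378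
theorem W7379 : WFK w7379 := fun D T h => wf_of_chk h mem_nil (mem_cons (L22 D T h) mem_nil) cw7379
theorem W7380 : WFK w7380 := fun D T h => wf_of_chk h (mem_cons (W2137 D T h) (mem_cons (W16 D T h) mem_nil)) mem_nil cw7380
theorem W7381 : WFK w7381 := fun D T h => wf_of_chk h (mem_cons (W2090 D T h) (mem_cons (W16 D T h) mem_nil)) mem_nil cw7381
theorem W7382 : WFK w7382 := fun D T h => wf_of_chk h (mem_cons (W1637 D T h) (mem_cons (W16 D T h) mem_nil)) mem_nil cw7382
theorem W7383 : WFK w7383 := fun D T h => wf_of_chk h mem_nil (mem_cons (L1579 D T h) mem_nil) cw7383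
theorem L1695 : LFK l1695 := fun D T h => lf_of_chk h (mem_cons (W3764 D T h) (mem_cons (W161 D T h) (mem_cons (W154 D T h) (mem_cons (W201 D T h) (mem_cons (W2106 D T h) (mem_cons (W436 D T h) (mem_cons (W554 D T h) (mem_cons (W3 D T h) (mem_cons (W12 D T h) (mem_cons (W5376 D T h) (mem_cons (W13 D T h) (mem_cons (W2104 D T h) (mem_cons (W2103 D T h) (mem_cons (W2105 D T h) (mem_cons (W5377 D T h) (mem_cons (W5378 D T h) (mem_cons (W7383 D T h) (mem_cons (W42 D T h) (mem_cons (W164 D T h) mem_nil))))))))))))))))))) cl1695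
theorem W7384 : WFK w7384 := fun D T h => wf_of_chk h mem_nil (mem_cons (L1695 D T h) mem_nil) cw7384
theorem W7385 : WFK w7385 := fun D T h => wf_of_chk h (mem_cons (W220 D T h) (mem_cons (W1637 D T h) mem_nil)) mem_nil cw7385
theorem W7386 : WFK w7386 := fun D T h => wf_of_chk h mem_nil (mem_cons (L864 D T h) mem_nil) cw7386
theorem W7387 : WFK w7387 := fun D T h => wf_of_chk h (mem_cons (W15 D T h) (mem_cons (W16 D T h) mem_nil)) mem_nil cw7387
theorem W7388 : WFK w7388 := fun D T h => wf_of_chk h (mem_cons (W7387 D T h) mem_nil) mem_nil cw7388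
theorem W7389 : WFK w7389 := fun D T h => wf_of_chk h mem_nil (mem_cons (L192 D T h) mem_nil) cw7389
theorem W7390 : WFK w7390 := fun D T h => wf_of_chk h mem_nil (mem_cons (L864 D T h) mem_nil) cw7390
theorem L1696 : LFK l1696 := fun D T h => lf_of_chk h (mem_cons (W3791 D T h) (mem_cons (W2037 D T h) (mem_cons (W161 D T h) (mem_cons (W16 D T h) (mem_cons (W2107 D T h) (mem_cons (W2089 D T h) (mem_cons (W2529 D T h) (mem_cons (W2669 D T h) (mem_cons (W3764 D T h) (mem_cons (W2532 D T h) (mem_cons (W284 D T h) (mem_cons (W7384 D T h) (mem_cons (W7385 D T h) (mem_cons (W7256 D T h) (mem_cons (W325 D T h) (mem_cons (W7378 D T h) (mem_cons (W390 D T h) (mem_cons (W330 D T h) (mem_cons (W5298 D T h) (mem_cons (W2667 D T h) (mem_cons (W7250 D T h) (mem_cons (W7251 D T h) (mem_cons (W7252 D T h) (mem_cons (W7253 D T h) (mem_cons (W7386 D T h) (mem_cons (W7388 D T h) (mem_cons (W7389 D T h) (mem_cons (W7390 D T h) (mem_cons (W2063 D T h) (mem_cons (W7379 D T h) (mem_cons (W7380 D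 T h) (mem_cons (W1 D T h) (mem_cons (W7381 D T h) (mem_cons (W69 D T h) (mem_cons (W7382 D T h) mem_nil))))))))))))))))))))))))))))))))))) cl1696
theorem W7391 : WFK w7391 := fun D T h => wf_of_chk h mem_nil (mem_cons (L1696 D T h) mem_nil) cw7391
theorem W7392 : WFK w7392 := fun D T h => wf_of_chk h mem_nil (mem_cons (L129 D T h) mem_nil) cw7392
theorem W7393 : WFK w7393 := fun D T h => wf_of_chk h mem_nil (mem_cons (L1315 D T h) mem_nil) cw7393
theorem W7394 : WFK w7394 := fun D T h => wf_of_chk h (mem_cons (W220 D T h) mem_nil) mem_nil cw7394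
theorem W7395 : WFK w7395 := fun D T h => wf_of_chk h (mem_cons (W69 D T h) (mem_cons (W162 D T h) mem_nil)) mem_nil cw7395
theorem W7396 : WFK w7396 := fun D T h => wf_of_chk h (mem_cons (W2740 D T h) (mem_cons (W162 D T h) mem_nil)) mem_nil cw7396
theorem W7397 : WFK w7397 := fun D T h => wf_of_chk h (mem_cons (W1202 D T h) (mem_cons (W162 D T h) mem_nil)) mem_nil cw7397
theorem W7398 : WFK w7398 := fun D T h => wf_of_chk h mem_nil (mem_cons (L1554 D T h) mem_nil) cw7398
theorem W7399 : WFK w7399 := fun D T h => wf_of_chk h (mem_cons (W16 D T h) (mem_cons (W6572 D T h) mem_nil)) mem_nil cw7399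
theorem L1697 : LFK l1697 := fun D T h => lf_of_chk h (mem_cons (W6841 D T h) (mem_cons (W56 D T h) (mem_cons (W162 D T h) (mem_cons (W1326 D T h) (mem_cons (W7369 D T h) (mem_cons (W6797 D T h) (mem_cons (W748 D T h) (mem_cons (W7392 D T h) (mem_cons (W1202 D T h) (mem_cons (W7393 D T h) (mem_cons (W1889 D T h) (mem_cons (W7394 D T h) (mem_cons (W7370 D T h) (mem_cons (W2945 D T h) (mem_cons (W7285 D T h) (mem_cons (W721 D T h) (mem_cons (W16 D T h) (mem_cons (W7395 D T h) (mem_cons (W7398 D T h) (mem_cons (W871 D T h) (mem_cons (W2743 D T h) (mem_cons (W1139 D T h) (mem_cons (W7396 D T h) (mem_cons (W7397 D T h) (mem_cons (W2517 D T h) (mem_cons (W114 D T h) (mem_cons (W6572 D T h) (mem_cons (W7371 D T h) (mem_cons (W7372 D T h) (mem_cons (W7373 D T h) (mem_cons (W7399 D T h) (mem_cons (W2938 D T h) (mem_cons (W7374 D T h) mem_nil))))))))))))))))))))))))))))))))) cl1697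
theorem W7400 : WFK w7400 := fun D T h => wf_of_chk h mem_nil (mem_cons (L1697 D T h) mem_nil) cw7400
theorem W7401 : WFK w7401 := fun D T h => wf_of_chk h mem_nil (mem_cons (L268 D T h) mem_nil) cw7401
theorem W7402 : WFK w7402 := fun D T h => wf_of_chk h mem_nil (mem_cons (L1253 D T h) mem_nil) cw7402
theorem L1699 : LFK l1699 := fun D T h => lf_of_chk h mem_nil cl1699
theorem L1700 : LFK l1700 := fun D T h => lf_of_chk h mem_nil cl1700
theorem L1701 : LFK l1701 := fun D T h => lf_of_chk h mem_nil cl1701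
theorem W7408 : WFK w7408 := fun D T h => wf_of_chk h mem_nil (mem_cons (L419 D T h) mem_nil) cw7408
theorem W7409 : WFK w7409 := fun D T h => wf_of_chk h mem_nil (mem_cons (L1253 D T h) mem_nil) cw7409
theorem W7410 : WFK w7410 := fun D T h => wf_of_chk h (mem_cons (W16 D T h) (mem_cons (W220 D T h) mem_nil)) mem_nil cw7410
theorem W7411 : WFK w7411 := fun D T h => wf_of_chk h (mem_cons (W2743 D T h) mem_nil) mem_nil cw7411
theorem W7412 : WFK w7412 := fun D T h => wf_of_chk h (mem_cons (W2740 D T h) (mem_cons (W220 D T h) mem_nil)) mem_nil cw7412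
theorem W7413 : WFK w7413 := fun D T h => wf_of_chk h (mem_cons (W220 D T h) (mem_cons (W2743 D T h) mem_nil)) mem_nil cw7413
theorem W7414 : WFK w7414 := fun D T h => wf_of_chk h (mem_cons (W871 D T h) (mem_cons (W220 D T h) mem_nil)) mem_nil cw7414
theorem W7415 : WFK w7415 := fun D T h => wf_of_chk h (mem_cons (W1637 D T h) (mem_cons (W220 D T h) mem_nil)) mem_nil cw7415
theorem W7416 : WFK w7416 := fun D T h => wf_of_chk h (mem_cons (W2726 D T h) (mem_cons (W220 D T h) mem_nil)) mem_nil cw7416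
theorem W7417 : WFK w7417 := fun D T h => wf_of_chk h (mem_cons (W3766 D T h) (mem_cons (W220 D T h) mem_nil)) mem_nil cw7417
theorem W7418 : WFK w7418 := fun D T h => wf_of_chk h (mem_cons (W69 D T h) (mem_cons (W220 D T h) mem_nil)) mem_nil cw7418
theorem L1702 : LFK l1702 := fun D T h => lf_of_chk h (mem_cons (W7235 D T h) (mem_cons (W56 D T h) (mem_cons (W1184 D T h) (mem_cons (W220 D T h) (mem_cons (W748 D T h) (mem_cons (W1747 D T h) (mem_cons (W2743 D T h) (mem_cons (W1326 D T h) (mem_cons (W7418 D T h) (mem_cons (W6798 D T h) (mem_cons (W6797 D T h) (mem_cons (W7394 D T h) (mem_cons (W1202 D T h) (mem_cons (W7233 D T h) (mem_cons (W871 D T h) (mem_cons (W7411 D T h) (mem_cons (W1139 D T h) (mem_cons (W7412 D T h) (mem_cons (W7413 D T h) (mem_cons (W6749 D T h) (mem_cons (W7414 D T h) (mem_cons (W6572 D T h) (mem_cons (W7415 D T h) (mem_cons (W7416 D T h) (mem_cons (W7373 D T h) (mem_cons (W7399 D T h) (mem_cons (W6719 D T h) (mem_cons (W7417 D T h) mem_nil))))))))))))))))))))))))))))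 cl1702
theorem W7419 : WFK w7419 := fun D T h => wf_of_chk h mem_nil (mem_cons (L1702 D T h) mem_nil) cw7419
theorem L1703 : LFK l1703 := fun D T h => lf_of_chk h (mem_cons (W2405 D T h) (mem_cons (W2037 D T h) (mem_cons (W154 D T h) (mem_cons (W16 D T h) (mem_cons (W2106 D T h) (mem_cons (W2532 D T h) (mem_cons (W2669 D T h) (mem_cons (W250 D T h) (mem_cons (W932 D T h) (mem_cons (W871 D T h) (mem_cons (W2539 D T h) (mem_cons (W5308 D T h) (mem_cons (W2538 D T h) (mem_cons (W638 D T h) (mem_cons (W5298 D T h) (mem_cons (W2667 D T h) (mem_cons (W2536 D T h) (mem_cons (W2535 D T h) (mem_cons (W2537 D T h) (mem_cons (W2534 D T h) (mem_cons (W1694 D T h) (mem_cons (W2063 D T h) (mem_cons (W1638 D T h) (mem_cons (W3791 D T h) mem_nil)))))))))))))))))))))))) cl1703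
theorem W7420 : WFK w7420 := fun D T h => wf_of_chk h mem_nil (mem_cons (L1703 D T h) mem_nil) cw7420
theorem W7421 : WFK w7421 := fun D T h => wf_of_chk h mem_nil (mem_cons (L1703 D T h) mem_nil) cw7421
theorem W7422 : WFK w7422 := fun D T h => wf_of_chk h (mem_cons (W164 D T h) (mem_cons (W16 D T h) mem_nil)) mem_nil cw7422
theorem W7423 : WFK w7423 := fun D T h => wf_of_chk h (mem_cons (W220 D T h) (mem_cons (W16 D T h) mem_nil)) mem_nil cw7423
theorem W7424 : WFK w7424 := fun D T h => wf_of_chk h (mem_cons (W2015 D T h) (mem_cons (W16 D T h) mem_nil)) mem_nil cw7424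
theorem W7425 : WFK w7425 := fun D T h => wf_of_chk h mem_nil (mem_cons (L1693 D T h) mem_nil) cw7425
theorem W7426 : WFK w7426 := fun D T h => wf_of_chk h mem_nil (mem_cons (L1693 D T h) mem_nil) cw7426
theorem W7427 : WFK w7427 := fun D T h => wf_of_chk h mem_nil (mem_cons (L1693 D T h) mem_nil) cw7427
theorem L1704 : LFK l1704 := fun D T h => lf_of_chk h (mem_cons (W7375 D T h) (mem_cons (W2037 D T h) (mem_cons (W16 D T h) (mem_cons (W7376 D T h) (mem_cons (W7377 D T h) (mem_cons (W7391 D T h) (mem_cons (W7400 D T h) (mem_cons (W284 D T h) (mem_cons (W2934 D T h) (mem_cons (W7292 D T h) (mem_cons (W2405 D T h) (mem_cons (W7401 D T h) (mem_cons (W7420 D T h) (mem_cons (W7419 D T h) (mem_cons (W7237 D T h) (mem_cons (W7421 D T h) (mem_cons (W5209 D T h) (mem_cons (W7422 D T h) (mem_cons (W2868 D T h) (mem_cons (W7424 D T h) (mem_cons (W2381 D T h) (mem_cons (W7423 D T h) (mem_cons (W6841 D T h) (mem_cons (W7286 D T h) (mem_cons (W7288 D T h) (mem_cons (W7425 D T h) (mem_cons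 (W7426 D T h) (mem_cons (W7427 D T h) mem_nil)))))))))))))))))))))))))))) cl1704
theorem W7428 : WFK w7428 := fun D T h => wf_of_chk h mem_nil (mem_cons (L1704 D T h) mem_nil) cw7428
theorem W7429 : WFK w7429 := fun D T h => wf_of_chk h (mem_cons (W7114 D T h) (mem_cons (W37 D T h) mem_nil)) mem_nil cw7429
theorem W7430 : WFK w7430 := fun D T h => wf_of_chk h (mem_cons (W162 D T h) (mem_cons (W2027 D T h) mem_nil)) mem_nil cw7430
theorem W7431 : WFK w7431 := fun D T h => wf_of_chk h mem_nil (mem_cons (L786 D T h) mem_nil) cw7431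
theorem W7432 : WFK w7432 := fun D T h => wf_of_chk h (mem_cons (W164 D T h) (mem_cons (W16 D T h) mem_nil)) mem_nil cw7432
theorem W7433 : WFK w7433 := fun D T h => wf_of_chk h (mem_cons (W50 D T h) (mem_cons (W167 D T h) mem_nil)) mem_nil cw7433
theorem W7434 : WFK w7434 := fun D T h => wf_of_chk h mem_nil (mem_cons (L1621 D T h) mem_nil) cw7434
theorem W7435 : WFK w7435 := fun D T h => wf_of_chk h mem_nil (mem_cons (L1621 D T h) mem_nil) cw7435
theorem W7436 : WFK w7436 := fun D T h => wf_of_chk h mem_nil (mem_cons (L209 D T h) mem_nil) cw7436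
theorem W7438 : WFK w7438 := fun D T h => wf_of_chk h mem_nil (mem_cons (L1692 D T h) mem_nil) cw7438
theorem W7439 : WFK w7439 := fun D T h => wf_of_chk h mem_nil (mem_cons (L1685 D T h) mem_nil) cw7439
theorem W7440 : WFK w7440 := fun D T h => wf_of_chk h (mem_cons (W16 D T h) (mem_cons (W2936 D T h) mem_nil)) mem_nil cw7440
theorem W7441 : WFK w7441 := fun D T h => wf_of_chk h mem_nil (mem_cons (L1167 D T h) mem_nil) cw7441
theorem W7442 : WFK w7442 := fun D T h => wf_of_chk h (mem_cons (W80 D T h) (mem_cons (W16 D T h) mem_nil)) mem_nil cw7442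
theorem W7443 : WFK w7443 := fun D T h => wf_of_chk h (mem_cons (W390 D T h) (mem_cons (W16 D T h) mem_nil)) mem_nil cw7443
theorem W7444 : WFK w7444 := fun D T h => wf_of_chk h (mem_cons (W762 D T h) (mem_cons (W16 D T h) mem_nil)) mem_nil cw7444
theorem W7445 : WFK w7445 := fun D T h => wf_of_chk h mem_nil (mem_cons (L715 D T h) mem_nil) cw7445
theorem L1705 : LFK l1705 := fun D T h => lf_of_chk h (mem_cons (W2405 D T h) (mem_cons (W5567 D T h) (mem_cons (W2346 D T h) (mem_cons (W15 D T h) (mem_cons (W220 D T h) (mem_cons (W2106 D T h) (mem_cons (W7445 D T h) (mem_cons (W2532 D T h) (mem_cons (W932 D T h) (mem_cons (W16 D T h) (mem_cons (W2539 D T h) (mem_cons (W2538 D T h) (mem_cons (W5308 D T h) (mem_cons (W3011 D T h) (mem_cons (W638 D T h) (mem_cons (W7442 D T h) (mem_cons (W871 D T h) (mem_cons (W2537 D T h) (mem_cons (W2536 D T h) (mem_cons (W2535 D T h) (mem_cons (W2534 D T h) (mem_cons (W5247 D T h) (mem_cons (W7443 D T h) (mem_cons (W7444 D T h) (mem_cons (W42 D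 T h) (mem_cons (W1441 D T h) (mem_cons (W164 D T h) mem_nil))))))))))))))))))))))))))) cl1705
theorem W7446 : WFK w7446 := fun D T h => wf_of_chk h mem_nil (mem_cons (L1705 D T h) mem_nil) cw7446
theorem W7447 : WFK w7447 := fun D T h => wf_of_chk h (mem_cons (W6776 D T h) (mem_cons (W16 D T h) mem_nil)) mem_nil cw7447
theorem W7448 : WFK w7448 := fun D T h => wf_of_chk h mem_nil (mem_cons (L1705 D T h) mem_nil) cw7448
theorem W7449 : WFK w7449 := fun D T h => wf_of_chk h mem_nil (mem_cons (L1167 D T h) mem_nil) cw7449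
theorem W7450 : WFK w7450 := fun D T h => wf_of_chk h (mem_cons (W114 D T h) (mem_cons (W16 D T h) mem_nil)) mem_nil cw7450
theorem W7451 : WFK w7451 := fun D T h => wf_of_chk h (mem_cons (W1209 D T h) (mem_cons (W16 D T h) mem_nil)) mem_nil cw7451
theorem W7452 : WFK w7452 := fun D T h => wf_of_chk h (mem_cons (W1889 D T h) (mem_cons (W16 D T h) mem_nil)) mem_nil cw7452
theorem L1706 : LFK l1706 := fun D T h => lf_of_chk h (mem_cons (W6719 D T h) (mem_cons (W230 D T h) (mem_cons (W220 D T h) (mem_cons (W267 D T h) (mem_cons (W16 D T h) (mem_cons (W433 D T h) (mem_cons (W581 D T h) (mem_cons (W6928 D T h) (mem_cons (W5841 D T h) (mem_cons (W5211 D T h) (mem_cons (W3837 D T h) (mem_cons (W149 D T h) (mem_cons (W638 D T h) (mem_cons (W1191 D T h) (mem_cons (W6691 D T h) (mem_cons (W6746 D T h) (mem_cons (W6967 D T h) (mem_cons (W2378 D T h) (mem_cons (W721 D T h) (mem_cons (W3008 D T h) (mem_cons (W6758 D T h) mem_nil))))))))))))))))))))) cl1706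
theorem W7453 : WFK w7453 := fun D T h => wf_of_chk h mem_nil (mem_cons (L1706 D T h) mem_nil) cw7453
theorem L1707 : LFK l1707 := fun D T h => lf_of_chk h (mem_cons (W42 D T h) (mem_cons (W164 D T h) (mem_cons (W16 D T h) (mem_cons (W3 D T h) (mem_cons (W461 D T h) (mem_cons (W39 D T h) (mem_cons (W142 D T h) (mem_cons (W5841 D T h) (mem_cons (W1170 D T h) (mem_cons (W281 D T h) (mem_cons (W1554 D T h) (mem_cons (W1326 D T h) (mem_cons (W1325 D T h) (mem_cons (W581 D T h) (mem_cons (W937 D T h) (mem_cons (W2642 D T h) mem_nil)))))))))))))))) cl1707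
theorem W7454 : WFK w7454 := fun D T h => wf_of_chk h mem_nil (mem_cons (L1707 D T h) mem_nil) cw7454
theorem W7455 : WFK w7455 := fun D T h => wf_of_chk h (mem_cons (W7454 D T h) (mem_cons (W16 D T h) mem_nil)) mem_nil cw7455
theorem W7456 : WFK w7456 := fun D T h => wf_of_chk h (mem_cons (W5600 D T h) (mem_cons (W16 D T h) mem_nil)) mem_nil cw7456
theorem W7457 : WFK w7457 := fun D T h => wf_of_chk h (mem_cons (W162 D T h) (mem_cons (W2936 D T h) mem_nil)) mem_nil cw7457
theorem W7458 : WFK w7458 := fun D T h => wf_of_chk h (mem_cons (W267 D T h) (mem_cons (W16 D T h) mem_nil)) mem_nil cw7458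
theorem W7459 : WFK w7459 := fun D T h => wf_of_chk h mem_nil (mem_cons (L474 D T h) mem_nil) cw7459
theorem W7460 : WFK w7460 := fun D T h => wf_of_chk h (mem_cons (W7459 D T h) (mem_cons (W16 D T h) mem_nil)) mem_nil cw7460
theorem L1708 : LFK l1708 := fun D T h => lf_of_chk h (mem_cons (W7440 D T h) (mem_cons (W5567 D T h) (mem_cons (W16 D T h) (mem_cons (W2037 D T h) (mem_cons (W7449 D T h) (mem_cons (W7376 D T h) (mem_cons (W7377 D T h) (mem_cons (W7458 D T h) (mem_cons (W7460 D T h) (mem_cons (W2868 D T h) (mem_cons (W7424 D T h) (mem_cons (W7456 D T h) (mem_cons (W7457 D T h) (mem_cons (W284 D T h) (mem_cons (W2934 D T h) (mem_cons (W7441 D T h) (mem_cons (W2405 D T h) (mem_cons (W7401 D T h) (mem_cons (W7446 D T h) (mem_cons (W7447 D T h) (mem_cons (W7448 D T h) (mem_cons (W2381 D T h) (mem_cons (W7450 D T h) (mem_cons (W7373 D T h) (mem_cons (W7451 D T h) (mem_cons (W7452 D T h) (mem_cons (W7453 D T h) (mem_cons (W7455 D T h) mem_nil)))))))))))))))))))))))))))) cl1708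
theorem W7461 : WFK w7461 := fun D T h => wf_of_chk h mem_nil (mem_cons (L1708 D T h) mem_nil) cw7461
theorem W7462 : WFK w7462 := fun D T h => wf_of_chk h (mem_cons (W1312 D T h) (mem_cons (W16 D T h) mem_nil)) mem_nil cw7462
theorem W7465 : WFK w7465 := fun D T h => wf_of_chk h (mem_cons (W3006 D T h) (mem_cons (W16 D T h) mem_nil)) mem_nil cw7465
theorem W7466 : WFK w7466 := fun D T h => wf_of_chk h mem_nil (mem_cons (L1707 D T h) mem_nil) cw7466
theorem W7467 : WFK w7467 := fun D T h => wf_of_chk h (mem_cons (W267 D T h) (mem_cons (W167 D T h) mem_nil)) mem_nil cw7467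
theorem W7468 : WFK w7468 := fun D T h => wf_of_chk h (mem_cons (W42 D T h) (mem_cons (W167 D T h) mem_nil)) mem_nil cw7468
theorem W7469 : WFK w7469 := fun D T h => wf_of_chk h mem_nil (mem_cons (L753 D T h) mem_nil) cw7469
theorem L1709 : LFK l1709 := fun D T h => lf_of_chk h (mem_cons (W2934 D T h) (mem_cons (W3953 D T h) (mem_cons (W16 D T h) (mem_cons (W42 D T h) (mem_cons (W164 D T h) (mem_cons (W455 D T h) (mem_cons (W7469 D T h) (mem_cons (W2709 D T h) (mem_cons (W3006 D T h) (mem_cons (W2936 D T h) (mem_cons (W2381 D T h) (mem_cons (W7291 D T h) (mem_cons (W7281 D T h) (mem_cons (W7466 D T h) (mem_cons (W7467 D T h) (mem_cons (W6613 D T h) (mem_cons (W7468 D T h) (mem_cons (W7462 D T h) (mem_cons (W7465 D T h) (mem_cons (W3982 D T h) (mem_cons (W220 D T h) (mem_cons (W5258 D T h) mem_nil)))))))))))))))))))))) cl1709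
theorem W7470 : WFK w7470 := fun D T h => wf_of_chk h mem_nil (mem_cons (L1709 D T h) mem_nil) cw7470
theorem W7472 : WFK w7472 := fun D T h => wf_of_chk h (mem_cons (W6775 D T h) (mem_cons (W16 D T h) mem_nil)) mem_nil cw7472
theorem L1710 : LFK l1710 := fun D T h => lf_of_chk h (mem_cons (W7465 D T h) (mem_cons (W16 D T h) (mem_cons (W7431 D T h) (mem_cons (W164 D T h) (mem_cons (W42 D T h) (mem_cons (W455 D T h) (mem_cons (W2936 D T h) (mem_cons (W5210 D T h) (mem_cons (W3006 D T h) (mem_cons (W2934 D T h) (mem_cons (W2709 D T h) (mem_cons (W7423 D T h) (mem_cons (W7291 D T h) (mem_cons (W7472 D T h) (mem_cons (W7462 D T h) (mem_cons (W220 D T h) (mem_cons (W3951 D T h) (mem_cons (W5258 D T h) mem_nil)))))))))))))))))) cl1710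
theorem W7473 : WFK w7473 := fun D T h => wf_of_chk h mem_nil (mem_cons (L1710 D T h) mem_nil) cw7473
theorem W7474 : WFK w7474 := fun D T h => wf_of_chk h mem_nil (mem_cons (L22 D T h) mem_nil) cw7474
theorem W7475 : WFK w7475 := fun D T h => wf_of_chk h (mem_cons (W2137 D T h) (mem_cons (W16 D T h) mem_nil)) mem_nil cw7475
theorem W7476 : WFK w7476 := fun D T h => wf_of_chk h (mem_cons (W2090 D T h) (mem_cons (W16 D T h) mem_nil)) mem_nil cw7476
theorem W7477 : WFK w7477 := fun D T h => wf_of_chk h mem_nil (mem_cons (L1695 D T h) mem_nil) cw7477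
theorem W7478 : WFK w7478 := fun D T h => wf_of_chk h mem_nil (mem_cons (L1201 D T h) mem_nil) cw7478
theorem W7479 : WFK w7479 := fun D T h => wf_of_chk h (mem_cons (W220 D T h) (mem_cons (W1637 D T h) mem_nil)) mem_nil cw7479
theorem L1711 : LFK l1711 := fun D T h => lf_of_chk h (mem_cons (W2529 D T h) (mem_cons (W167 D T h) (mem_cons (W161 D T h) (mem_cons (W16 D T h) (mem_cons (W1449 D T h) (mem_cons (W2089 D T h) (mem_cons (W2669 D T h) (mem_cons (W2106 D T h) (mem_cons (W2532 D T h) (mem_cons (W284 D T h) (mem_cons (W7478 D T h) (mem_cons (W7479 D T h) (mem_cons (W7245 D T h) (mem_cons (W370 D T h) (mem_cons (W4262 D T h) (mem_cons (W390 D T h) (mem_cons (W3791 D T h) (mem_cons (W330 D T h) (mem_cons (W5298 D T h) (mem_cons (W2667 D T h) (mem_cons (W7250 D T h) (mem_cons (W7251 D T h) (mem_cons (W7252 D T h) (mem_cons (W7253 D T h) (mem_cons (W7386 D T h) (mem_cons (W2063 D T h) (mem_cons (W7474 D T h) (mem_cons (W7475 D T h) (mem_cons (W1 D T h) (mem_cons (W7476 D T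 h) (mem_cons (W69 D T h) (mem_cons (W7477 D T h) mem_nil)))))))))))))))))))))))))))))))) cl1711
theorem W7480 : WFK w7480 := fun D T h => wf_of_chk h mem_nil (mem_cons (L1711 D T h) mem_nil) cw7480
theorem W7481 : WFK w7481 := fun D T h => wf_of_chk h (mem_cons (W1326 D T h) mem_nil) mem_nil cw7481
theorem W7482 : WFK w7482 := fun D T h => wf_of_chk h mem_nil (mem_cons (L1688 D T h) mem_nil) cw7482
theorem W7483 : WFK w7483 := fun D T h => wf_of_chk h (mem_cons (W220 D T h) mem_nil) mem_nil cw7483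
theorem W7484 : WFK w7484 := fun D T h => wf_of_chk h (mem_cons (W871 D T h) (mem_cons (W220 D T h) mem_nil)) mem_nil cw7484
theorem W7485 : WFK w7485 := fun D T h => wf_of_chk h (mem_cons (W69 D T h) (mem_cons (W1326 D T h) mem_nil)) mem_nil cw7485
theorem W7486 : WFK w7486 := fun D T h => wf_of_chk h (mem_cons (W2740 D T h) (mem_cons (W1326 D T h) mem_nil)) mem_nil cw7486
theorem W7487 : WFK w7487 := fun D T h => wf_of_chk h (mem_cons (W871 D T h) (mem_cons (W1326 D T h) mem_nil)) mem_nil cw7487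
theorem W7488 : WFK w7488 := fun D T h => wf_of_chk h (mem_cons (W220 D T h) (mem_cons (W1326 D T h) mem_nil)) mem_nil cw7488
theorem L1712 : LFK l1712 := fun D T h => lf_of_chk h (mem_cons (W6841 D T h) (mem_cons (W56 D T h) (mem_cons (W1326 D T h) (mem_cons (W220 D T h) (mem_cons (W6797 D T h) (mem_cons (W748 D T h) (mem_cons (W7482 D T h) (mem_cons (W7483 D T h) (mem_cons (W6747 D T h) (mem_cons (W7484 D T h) (mem_cons (W7370 D T h) (mem_cons (W7285 D T h) (mem_cons (W2945 D T h) (mem_cons (W1560 D T h) (mem_cons (W7481 D T h) (mem_cons (W7485 D T h) (mem_cons (W7488 D T h) (mem_cons (W871 D T h) (mem_cons (W2743 D T h) (mem_cons (W1202 D T h) (mem_cons (W1139 D T h) (mem_cons (W7486 D T h) (mem_cons (W7235 D T h) (mem_cons (W7487 D T h) (mem_cons (W2517 D T h) (mem_cons (W114 D T h) (mem_cons (W6572 D T h) (mem_cons (W7371 D T h) (mem_cons (W7372 D T h) (mem_cons (W7373 D T h) (mem_cons (W7399 D T h) (mem_cons (W7374 D T h) (mem_cons (W2938 D T h) mem_nil)))))))))))))))))))))))))))))))))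 cl1712
theorem W7489 : WFK w7489 := fun D T h => wf_of_chk h mem_nil (mem_cons (L1712 D T h) mem_nil) cw7489
theorem L1713 : LFK l1713 := fun D T h => lf_of_chk h (mem_cons (W1393 D T h) (mem_cons (W1379 D T h) (mem_cons (W1100 D T h) (mem_cons (W4614 D T h) (mem_cons (W5458 D T h) (mem_cons (W4613 D T h) (mem_cons (W33 D T h) (mem_cons (W430 D T h) mem_nil)))))))) cl1713
theorem W7490 : WFK w7490 := fun D T h => wf_of_chk h mem_nil (mem_cons (L1713 D T h) mem_nil) cw7490
theorem W7491 : WFK w7491 := fun D T h => wf_of_chk h (mem_cons (W1326 D T h) mem_nil) mem_nil cw7491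
theorem W7492 : WFK w7492 := fun D T h => wf_of_chk h (mem_cons (W103 D T h) (mem_cons (W1326 D T h) mem_nil)) mem_nil cw7492
theorem W7493 : WFK w7493 := fun D T h => wf_of_chk h (mem_cons (W1637 D T h) (mem_cons (W1326 D T h) mem_nil)) mem_nil cw7493
theorem L1714 : LFK l1714 := fun D T h => lf_of_chk h (mem_cons (W2405 D T h) (mem_cons (W7490 D T h) (mem_cons (W154 D T h) (mem_cons (W6797 D T h) (mem_cons (W220 D T h) (mem_cons (W438 D T h) (mem_cons (W2101 D T h) (mem_cons (W7445 D T h) (mem_cons (W932 D T h) (mem_cons (W4209 D T h) (mem_cons (W5308 D T h) (mem_cons (W2539 D T h) (mem_cons (W2538 D T h) (mem_cons (W638 D T h) (mem_cons (W2667 D T h) (mem_cons (W7492 D T h) (mem_cons (W871 D T h) (mem_cons (W2536 D T h) (mem_cons (W2537 D T h) (mem_cons (W2535 D T h) (mem_cons (W2534 D T h) (mem_cons (W7491 D T h) (mem_cons (W2529 D T h) (mem_cons (W7493 D T h) (mem_cons (W1441 D T h) (mem_cons (W42 D T h) (mem_cons (W164 D T h) mem_nil))))))))))))))))))))))))))) cl1714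
theorem W7494 : WFK w7494 := fun D T h => wf_of_chk h mem_nil (mem_cons (L1714 D T h) mem_nil) cw7494
theorem W7495 : WFK w7495 := fun D T h => wf_of_chk h mem_nil (mem_cons (L1272 D T h) mem_nil) cw7495
theorem W7496 : WFK w7496 := fun D T h => wf_of_chk h (mem_cons (W103 D T h) (mem_cons (W42 D T h) mem_nil)) mem_nil cw7496
theorem W7497 : WFK w7497 := fun D T h => wf_of_chk h (mem_cons (W1637 D T h) (mem_cons (W42 D T h) mem_nil)) mem_nil cw7497
theorem L1715 : LFK l1715 := fun D T h => lf_of_chk h (mem_cons (W2405 D T h) (mem_cons (W7495 D T h) (mem_cons (W154 D T h) (mem_cons (W448 D T h) (mem_cons (W220 D T h) (mem_cons (W438 D T h) (mem_cons (W2101 D T h) (mem_cons (W7445 D T h) (mem_cons (W932 D T h) (mem_cons (W4209 D T h) (mem_cons (W5308 D T h) (mem_cons (W2539 D T h) (mem_cons (W2538 D T h) (mem_cons (W638 D T h) (mem_cons (W2667 D T h) (mem_cons (W7496 D T h) (mem_cons (W871 D T h) (mem_cons (W2536 D T h) (mem_cons (W2537 D T h) (mem_cons (W2535 D T h) (mem_cons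 (W2534 D T h) (mem_cons (W2063 D T h) (mem_cons (W2529 D T h) (mem_cons (W7497 D T h) (mem_cons (W1441 D T h) (mem_cons (W42 D T h) (mem_cons (W164 D T h) mem_nil))))))))))))))))))))))))))) cl1715
theorem W7498 : WFK w7498 := fun D T h => wf_of_chk h mem_nil (mem_cons (L1715 D T h) mem_nil) cw7498
theorem W7499 : WFK w7499 := fun D T h => wf_of_chk h (mem_cons (W495 D T h) (mem_cons (W16 D T h) mem_nil)) mem_nil cw7499
theorem W7500 : WFK w7500 := fun D T h => wf_of_chk h (mem_cons (W267 D T h) (mem_cons (W455 D T h) mem_nil)) mem_nil cw7500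
theorem L1716 : LFK l1716 := fun D T h => lf_of_chk h (mem_cons (W2405 D T h) (mem_cons (W7495 D T h) (mem_cons (W154 D T h) (mem_cons (W164 D T h) (mem_cons (W220 D T h) (mem_cons (W2106 D T h) (mem_cons (W2532 D T h) (mem_cons (W7445 D T h) (mem_cons (W932 D T h) (mem_cons (W4209 D T h) (mem_cons (W5308 D T h) (mem_cons (W2539 D T h) (mem_cons (W2538 D T h) (mem_cons (W638 D T h) (mem_cons (W2667 D T h) (mem_cons (W7496 D T h) (mem_cons (W871 D T h) (mem_cons (W2536 D T h) (mem_cons (W2537 D T h) (mem_cons (W2535 D T h) (mem_cons (W2534 D T h) (mem_cons (W2063 D T h) (mem_cons (W2529 D T h) (mem_cons (W7497 D T h) (mem_cons (W1441 D T h) (mem_cons (W42 D T h) mem_nil)))))))))))))))))))))))))) cl1716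
theorem W7501 : WFK w7501 := fun D T h => wf_of_chk h mem_nil (mem_cons (L1716 D T h) mem_nil) cw7501
theorem W7502 : WFK w7502 := fun D T h => wf_of_chk h mem_nil (mem_cons (L602 D T h) mem_nil) cw7502
theorem L1717 : LFK l1717 := fun D T h => lf_of_chk h (mem_cons (W2934 D T h) (mem_cons (W16 D T h) (mem_cons (W7432 D T h) (mem_cons (W167 D T h) (mem_cons (W164 D T h) (mem_cons (W42 D T h) (mem_cons (W3006 D T h) (mem_cons (W2709 D T h) (mem_cons (W6839 D T h) (mem_cons (W7454 D T h) (mem_cons (W2936 D T h) (mem_cons (W6841 D T h) (mem_cons (W7499 D T h) (mem_cons (W6613 D T h) (mem_cons (W7466 D T h) (mem_cons (W7500 D T h) (mem_cons (W7237 D T h) (mem_cons (W7501 D T h) (mem_cons (W7480 D T h) (mem_cons (W7502 D T h) (mem_cons (W7498 D T h) (mem_cons (W220 D T h) (mem_cons (W5258 D T h) (mem_cons (W2937 D T h) (mem_cons (W5277 D T h) (mem_cons (W7489 D T h) (mem_cons (W6776 D T h) (mem_cons (W1139 D T h) (mem_cons (W7494 D T h) mem_nil))))))))))))))))))))))))))))) cl1717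
theorem W7503 : WFK w7503 := fun D T h => wf_of_chk h mem_nil (mem_cons (L1717 D T h) mem_nil) cw7503
theorem L1718 : LFK l1718 := fun D T h => lf_of_chk h (mem_cons (W7227 D T h) (mem_cons (W2375 D T h) (mem_cons (W16 D T h) (mem_cons (W167 D T h) (mem_cons (W7303 D T h) (mem_cons (W455 D T h) (mem_cons (W3953 D T h) (mem_cons (W7431 D T h) (mem_cons (W7432 D T h) (mem_cons (W7304 D T h) (mem_cons (W7438 D T h) (mem_cons (W7439 D T h) (mem_cons (W6512 D T h) (mem_cons (W7428 D T h) (mem_cons (W284 D T h) (mem_cons (W7461 D T h) (mem_cons (W7470 D T h) (mem_cons (W7473 D T h) (mem_cons (W1213 D T h) (mem_cons (W7503 D T h) (mem_cons (W7308 D T h) (mem_cons (W2337 D T h) (mem_cons (W2049 D T h) (mem_cons (W7433 D T h) (mem_cons (W7434 D T h) (mem_cons (W7435 D T h) (mem_cons (W2709 D T h) (mem_cons (W2936 D T h) (mem_cons (W7436 D T h) (mem_cons (W7228 D T h) (mem_cons (W6719 D T h) (mem_cons (W5211 D T h) (mem_cons (W7309 D T h) (mem_cons (W7232 D T h) (mem_cons (W7286 D T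 h) (mem_cons (W7288 D T h) (mem_cons (W3921 D T h) (mem_cons (W7368 D T h) (mem_cons (W7429 D T h) (mem_cons (W7430 D T h) (mem_cons (W2934 D T h) (mem_cons (W7229 D T h) (mem_cons (W2405 D T h) (mem_cons (W7230 D T h) (mem_cons (W7231 D T h) (mem_cons (W7236 D T h) (mem_cons (W7302 D T h) mem_nil))))))))))))))))))))))))))))))))))))))))))))))) cl1718
theorem W7504 : WFK w7504 := fun D T h => wf_of_chk h mem_nil (mem_cons (L1718 D T h) mem_nil) cw7504
theorem W7505 : WFK w7505 := fun D T h => wf_of_chk h (mem_cons (W267 D T h) (mem_cons (W37 D T h) mem_nil)) mem_nil cw7505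
theorem W7506 : WFK w7506 := fun D T h => wf_of_chk h mem_nil (mem_cons (L307 D T h) mem_nil) cw7506
theorem W7507 : WFK w7507 := fun D T h => wf_of_chk h (mem_cons (W16 D T h) (mem_cons (W800 D T h) mem_nil)) mem_nil cw7507
theorem W7508 : WFK w7508 := fun D T h => wf_of_chk h (mem_cons (W164 D T h) (mem_cons (W220 D T h) mem_nil)) mem_nil cw7508
theorem W7509 : WFK w7509 := fun D T h => wf_of_chk h (mem_cons (W164 D T h) (mem_cons (W220 D T h) mem_nil)) mem_nil cw7509
theorem W7510 : WFK w7510 := fun D T h => wf_of_chk h (mem_cons (W1312 D T h) (mem_cons (W220 D T h) mem_nil)) mem_nil cw7510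
theorem W7511 : WFK w7511 := fun D T h => wf_of_chk h (mem_cons (W162 D T h) (mem_cons (W800 D T h) mem_nil)) mem_nil cw7511
theorem W7512 : WFK w7512 := fun D T h => wf_of_chk h (mem_cons (W114 D T h) (mem_cons (W220 D T h) mem_nil)) mem_nil cw7512
theorem W7513 : WFK w7513 := fun D T h => wf_of_chk h (mem_cons (W2844 D T h) (mem_cons (W220 D T h) mem_nil)) mem_nil cw7513
theorem W7514 : WFK w7514 := fun D T h => wf_of_chk h (mem_cons (W220 D T h) (mem_cons (W800 D T h) mem_nil)) mem_nil cw7514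
theorem W7515 : WFK w7515 := fun D T h => wf_of_chk h (mem_cons (W1067 D T h) (mem_cons (W220 D T h) mem_nil)) mem_nil cw7515
theorem W7516 : WFK w7516 := fun D T h => wf_of_chk h (mem_cons (W2844 D T h) (mem_cons (W220 D T h) mem_nil)) mem_nil cw7516
theorem W7517 : WFK w7517 := fun D T h => wf_of_chk h (mem_cons (W1019 D T h) (mem_cons (W220 D T h) mem_nil)) mem_nil cw7517
theorem W7518 : WFK w7518 := fun D T h => wf_of_chk h mem_nil (mem_cons (L1545 D T h) mem_nil) cw7518
theorem W7519 : WFK w7519 := fun D T h => wf_of_chk h mem_nil (mem_cons (L1234 D T h) mem_nil) cw7519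
theorem W7520 : WFK w7520 := fun D T h => wf_of_chk h (mem_cons (W6749 D T h) (mem_cons (W16 D T h) mem_nil)) mem_nil cw7520
theorem W7521 : WFK w7521 := fun D T h => wf_of_chk h (mem_cons (W6749 D T h) (mem_cons (W16 D T h) mem_nil)) mem_nil cw7521
theorem W7522 : WFK w7522 := fun D T h => wf_of_chk h (mem_cons (W911 D T h) (mem_cons (W16 D T h) mem_nil)) mem_nil cw7522
theorem W7523 : WFK w7523 := fun D T h => wf_of_chk h (mem_cons (W69 D T h) (mem_cons (W337 D T h) mem_nil)) mem_nil cw7523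
theorem W7524 : WFK w7524 := fun D T h => wf_of_chk h (mem_cons (W6719 D T h) (mem_cons (W16 D T h) mem_nil)) mem_nil cw7524
theorem L1719 : LFK l1719 := fun D T h => lf_of_chk h (mem_cons (W7507 D T h) (mem_cons (W1599 D T h) (mem_cons (W2839 D T h) (mem_cons (W220 D T h) (mem_cons (W16 D T h) (mem_cons (W2938 D T h) (mem_cons (W7508 D T h) (mem_cons (W3304 D T h) (mem_cons (W7509 D T h) (mem_cons (W7510 D T h) (mem_cons (W2934 D T h) (mem_cons (W284 D T h) (mem_cons (W7511 D T h) (mem_cons (W2828 D T h) (mem_cons (W1331 D T h) (mem_cons (W7512 D T h) (mem_cons (W7513 D T h) (mem_cons (W7514 D T h) (mem_cons (W7515 D T h) (mem_cons (W7516 D T h) (mem_cons (W7517 D T h) (mem_cons (W3961 D T h) (mem_cons (W1889 D T h) (mem_cons (W6613 D T h) (mem_cons (W7417 D T h) (mem_cons (W7522 D T h) (mem_cons (W2050 D T h) (mem_cons (W2113 D T h) (mem_cons (W7518 D T h) (mem_cons (W7519 D T h) (mem_cons (W6483 D T h) (mem_cons (W2945 D T h) (mem_cons (W7520 D T h) (mem_cons (W2848 D T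 h) (mem_cons (W7521 D T h) (mem_cons (W7287 D T h) (mem_cons (W3571 D T h) (mem_cons (W2405 D T h) (mem_cons (W7523 D T h) (mem_cons (W42 D T h) (mem_cons (W6714 D T h) (mem_cons (W7524 D T h) (mem_cons (W7082 D T h) (mem_cons (W1227 D T h) mem_nil)))))))))))))))))))))))))))))))))))))))))))) cl1719
theorem W7525 : WFK w7525 := fun D T h => wf_of_chk h mem_nil (mem_cons (L1719 D T h) mem_nil) cw7525
theorem W7526 : WFK w7526 := fun D T h => wf_of_chk h (mem_cons (W1312 D T h) (mem_cons (W220 D T h) mem_nil)) mem_nil cw7526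
theorem W7527 : WFK w7527 := fun D T h => wf_of_chk h (mem_cons (W162 D T h) (mem_cons (W800 D T h) mem_nil)) mem_nil cw7527
theorem W7528 : WFK w7528 := fun D T h => wf_of_chk h mem_nil (mem_cons (L134 D T h) mem_nil) cw7528
theorem L1720 : LFK l1720 := fun D T h => lf_of_chk h (mem_cons (W42 D T h) (mem_cons (W1325 D T h) (mem_cons (W581 D T h) (mem_cons (W712 D T h) (mem_cons (W114 D T h) (mem_cons (W2629 D T h) (mem_cons (W181 D T h) (mem_cons (W3766 D T h) (mem_cons (W7528 D T h) (mem_cons (W3 D T h) (mem_cons (W1919 D T h) (mem_cons (W39 D T h) (mem_cons (W1326 D T h) mem_nil))))))))))))) cl1720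
theorem W7529 : WFK w7529 := fun D T h => wf_of_chk h mem_nil (mem_cons (L1720 D T h) mem_nil) cw7529
theorem W7530 : WFK w7530 := fun D T h => wf_of_chk h (mem_cons (W2844 D T h) (mem_cons (W220 D T h) mem_nil)) mem_nil cw7530
theorem W7531 : WFK w7531 := fun D T h => wf_of_chk h (mem_cons (W220 D T h) (mem_cons (W800 D T h) mem_nil)) mem_nil cw7531
theorem W7532 : WFK w7532 := fun D T h => wf_of_chk h (mem_cons (W1067 D T h) (mem_cons (W220 D T h) mem_nil)) mem_nil cw7532
theorem W7533 : WFK w7533 := fun D T h => wf_of_chk h (mem_cons (W1019 D T h) (mem_cons (W220 D T h) mem_nil)) mem_nil cw7533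
theorem W7534 : WFK w7534 := fun D T h => wf_of_chk h (mem_cons (W1326 D T h) (mem_cons (W16 D T h) mem_nil)) mem_nil cw7534
theorem W7535 : WFK w7535 := fun D T h => wf_of_chk h (mem_cons (W267 D T h) (mem_cons (W220 D T h) mem_nil)) mem_nil cw7535
theorem W7536 : WFK w7536 := fun D T h => wf_of_chk h (mem_cons (W7518 D T h) (mem_cons (W16 D T h) mem_nil)) mem_nil cw7536
theorem W7537 : WFK w7537 := fun D T h => wf_of_chk h (mem_cons (W911 D T h) (mem_cons (W16 D T h) mem_nil)) mem_nil cw7537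
theorem W7538 : WFK w7538 := fun D T h => wf_of_chk h (mem_cons (W6776 D T h) (mem_cons (W16 D T h) mem_nil)) mem_nil cw7538
theorem L1721 : LFK l1721 := fun D T h => lf_of_chk h (mem_cons (W7524 D T h) (mem_cons (W1599 D T h) (mem_cons (W220 D T h) (mem_cons (W16 D T h) (mem_cons (W2938 D T h) (mem_cons (W7509 D T h) (mem_cons (W3304 D T h) (mem_cons (W7526 D T h) (mem_cons (W2934 D T h) (mem_cons (W284 D T h) (mem_cons (W7527 D T h) (mem_cons (W2828 D T h) (mem_cons (W1331 D T h) (mem_cons (W7529 D T h) (mem_cons (W7530 D T h) (mem_cons (W7531 D T h) (mem_cons (W7532 D T h) (mem_cons (W7533 D T h) (mem_cons (W6749 D T h) (mem_cons (W7534 D T h) (mem_cons (W6613 D T h) (mem_cons (W7537 D T h) (mem_cons (W2050 D T h) (mem_cons (W7538 D T h) (mem_cons (W7535 D T h) (mem_cons (W2946 D T h) (mem_cons (W6747 D T h) (mem_cons (W7536 D T h) (mem_cons (W2848 D T h) (mem_cons (W7521 D T h) (mem_cons (W7287 D T h) (mem_cons (W3571 D T h) (mem_cons (W7082 D T h) (mem_cons (W1227 D T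 h) mem_nil)))))))))))))))))))))))))))))))))) cl1721
theorem W7539 : WFK w7539 := fun D T h => wf_of_chk h mem_nil (mem_cons (L1721 D T h) mem_nil) cw7539
theorem W7541 : WFK w7541 := fun D T h => wf_of_chk h mem_nil (mem_cons (L168 D T h) mem_nil) cw7541
theorem W7544 : WFK w7544 := fun D T h => wf_of_chk h mem_nil (mem_cons (L1599 D T h) mem_nil) cw7544
theorem W7549 : WFK w7549 := fun D T h => wf_of_chk h mem_nil (mem_cons (L1253 D T h) mem_nil) cw7549
theorem W7550 : WFK w7550 := fun D T h => wf_of_chk h mem_nil (mem_cons (L766 D T h) mem_nil) cw7550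
theorem W7552 : WFK w7552 := fun D T h => wf_of_chk h mem_nil (mem_cons (L23 D T h) mem_nil) cw7552
theorem W7556 : WFK w7556 := fun D T h => wf_of_chk h (mem_cons (W794 D T h) (mem_cons (W37 D T h) mem_nil)) mem_nil cw7556
theorem W7557 : WFK w7557 := fun D T h => wf_of_chk h mem_nil (mem_cons (L1547 D T h) mem_nil) cw7557
theorem W7558 : WFK w7558 := fun D T h => wf_of_chk h (mem_cons (W433 D T h) (mem_cons (W16 D T h) mem_nil)) mem_nil cw7558
theorem W7559 : WFK w7559 := fun D T h => wf_of_chk h mem_nil (mem_cons (L1550 D T h) mem_nil) cw7559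
theorem W7560 : WFK w7560 := fun D T h => wf_of_chk h (mem_cons (W433 D T h) (mem_cons (W16 D T h) mem_nil)) mem_nil cw7560
theorem W7561 : WFK w7561 := fun D T h => wf_of_chk h (mem_cons (W6928 D T h) (mem_cons (W16 D T h) mem_nil)) mem_nil cw7561
theorem W7562 : WFK w7562 := fun D T h => wf_of_chk h (mem_cons (W162 D T h) (mem_cons (W800 D T h) mem_nil)) mem_nil cw7562
theorem W7563 : WFK w7563 := fun D T h => wf_of_chk h mem_nil (mem_cons (L104 D T h) mem_nil) cw7563
theorem W7564 : WFK w7564 := fun D T h => wf_of_chk h (mem_cons (W748 D T h) (mem_cons (W16 D T h) mem_nil)) mem_nil cw7564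
theorem W7565 : WFK w7565 := fun D T h => wf_of_chk h (mem_cons (W220 D T h) (mem_cons (W2844 D T h) mem_nil)) mem_nil cw7565
theorem W7566 : WFK w7566 := fun D T h => wf_of_chk h (mem_cons (W220 D T h) (mem_cons (W2844 D T h) mem_nil)) mem_nil cw7566
theorem W7567 : WFK w7567 := fun D T h => wf_of_chk h (mem_cons (W1191 D T h) (mem_cons (W16 D T h) mem_nil)) mem_nil cw7567
theorem W7568 : WFK w7568 := fun D T h => wf_of_chk h (mem_cons (W220 D T h) (mem_cons (W800 D T h) mem_nil)) mem_nil cw7568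
theorem W7569 : WFK w7569 := fun D T h => wf_of_chk h (mem_cons (W2381 D T h) (mem_cons (W16 D T h) mem_nil)) mem_nil cw7569
theorem W7570 : WFK w7570 := fun D T h => wf_of_chk h mem_nil (mem_cons (L1170 D T h) mem_nil) cw7570
theorem W7571 : WFK w7571 := fun D T h => wf_of_chk h (mem_cons (W1325 D T h) (mem_cons (W16 D T h) mem_nil)) mem_nil cw7571
theorem W7572 : WFK w7572 := fun D T h => wf_of_chk h mem_nil (mem_cons (L1690 D T h) mem_nil) cw7572
theorem W7573 : WFK w7573 := fun D T h => wf_of_chk h mem_nil (mem_cons (L1485 D T h) mem_nil) cw7573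
theorem W7574 : WFK w7574 := fun D T h => wf_of_chk h (mem_cons (W911 D T h) (mem_cons (W16 D T h) mem_nil)) mem_nil cw7574
theorem L1724 : LFK l1724 := fun D T h => lf_of_chk h (mem_cons (W7287 D T h) (mem_cons (W16 D T h) (mem_cons (W1067 D T h) (mem_cons (W6841 D T h) (mem_cons (W7423 D T h) (mem_cons (W2381 D T h) (mem_cons (W7570 D T h) (mem_cons (W7571 D T h) (mem_cons (W7311 D T h) (mem_cons (W7574 D T h) (mem_cons (W7572 D T h) (mem_cons (W7573 D T h) (mem_cons (W2555 D T h) (mem_cons (W7356 D T h) (mem_cons (W2067 D T h) (mem_cons (W7077 D T h) (mem_cons (W7569 D T h) (mem_cons (W5585 D T h) (mem_cons (W6601 D T h) (mem_cons (W2844 D T h) (mem_cons (W7558 D T h) (mem_cons (W7559 D T h) (mem_cons (W7080 D T h) (mem_cons (W7560 D T h) (mem_cons (W7561 D T h) (mem_cons (W2934 D T h) (mem_cons (W284 D T h) (mem_cons (W7562 D T h) (mem_cons (W7563 D T h) (mem_cons (W2535 D T h) (mem_cons (W7564 D T h) (mem_cons (W7565 D T h) (mem_cons (W7566 D T h) (mem_cons (W7567 D T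 h) (mem_cons (W7568 D T h) mem_nil))))))))))))))))))))))))))))))))))) cl1724
theorem W7575 : WFK w7575 := fun D T h => wf_of_chk h mem_nil (mem_cons (L1724 D T h) mem_nil) cw7575
theorem W7576 : WFK w7576 := fun D T h => wf_of_chk h (mem_cons (W164 D T h) (mem_cons (W16 D T h) mem_nil)) mem_nil cw7576
theorem W7577 : WFK w7577 := fun D T h => wf_of_chk h mem_nil (mem_cons (L274 D T h) mem_nil) cw7577
theorem W7578 : WFK w7578 := fun D T h => wf_of_chk h mem_nil (mem_cons (L657 D T h) mem_nil) cw7578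
theorem W7579 : WFK w7579 := fun D T h => wf_of_chk h mem_nil (mem_cons (L1487 D T h) mem_nil) cw7579
theorem W7580 : WFK w7580 := fun D T h => wf_of_chk h (mem_cons (W16 D T h) (mem_cons (W6719 D T h) mem_nil)) mem_nil cw7580
theorem L1725 : LFK l1725 := fun D T h => lf_of_chk h (mem_cons (W3325 D T h) (mem_cons (W2027 D T h) (mem_cons (W16 D T h) (mem_cons (W794 D T h) (mem_cons (W37 D T h) (mem_cons (W6719 D T h) (mem_cons (W7576 D T h) (mem_cons (W3304 D T h) (mem_cons (W7106 D T h) (mem_cons (W2331 D T h) (mem_cons (W2709 D T h) (mem_cons (W2936 D T h) (mem_cons (W7436 D T h) (mem_cons (W3305 D T h) (mem_cons (W2051 D T h) (mem_cons (W7577 D T h) (mem_cons (W7578 D T h) (mem_cons (W7579 D T h) (mem_cons (W7580 D T h) (mem_cons (W7221 D T h) (mem_cons (W1209 D T h) (mem_cons (W6776 D T h) (mem_cons (W7288 D T h) (mem_cons (W7557 D T h) (mem_cons (W3920 D T h) (mem_cons (W7575 D T h) (mem_cons (W7556 D T h) (mem_cons (W3953 D T h) (mem_cons (W7429 D T h) (mem_cons (W7505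 D T h) (mem_cons (W946 D T h) (mem_cons (W1227 D T h) (mem_cons (W284 D T h) (mem_cons (W7506 D T h) (mem_cons (W7525 D T h) (mem_cons (W7539 D T h) mem_nil)))))))))))))))))))))))))))))))))))) cl1725
theorem W7581 : WFK w7581 := fun D T h => wf_of_chk h mem_nil (mem_cons (L1725 D T h) mem_nil) cw7581
theorem W7582 : WFK w7582 := fun D T h => wf_of_chk h (mem_cons (W164 D T h) (mem_cons (W37 D T h) mem_nil)) mem_nil cw7582
theorem W7583 : WFK w7583 := fun D T h => wf_of_chk h (mem_cons (W114 D T h) (mem_cons (W37 D T h) mem_nil)) mem_nil cw7583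
theorem W7584 : WFK w7584 := fun D T h => wf_of_chk h (mem_cons (W1067 D T h) (mem_cons (W37 D T h) mem_nil)) mem_nil cw7584
theorem W7586 : WFK w7586 := fun D T h => wf_of_chk h (mem_cons (W667 D T h) (mem_cons (W284 D T h) mem_nil)) mem_nil cw7586
theorem W7587 : WFK w7587 := fun D T h => wf_of_chk h (mem_cons (W50 D T h) (mem_cons (W284 D T h) mem_nil)) mem_nil cw7587
theorem W7588 : WFK w7588 := fun D T h => wf_of_chk h (mem_cons (W669 D T h) (mem_cons (W284 D T h) mem_nil)) mem_nil cw7588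
theorem W7589 : WFK w7589 := fun D T h => wf_of_chk h (mem_cons (W50 D T h) (mem_cons (W284 D T h) mem_nil)) mem_nil cw7589
theorem W7590 : WFK w7590 := fun D T h => wf_of_chk h (mem_cons (W267 D T h) (mem_cons (W37 D T h) mem_nil)) mem_nil cw7590
theorem W7591 : WFK w7591 := fun D T h => wf_of_chk h mem_nil (mem_cons (L1629 D T h) mem_nil) cw7591
theorem L1726 : LFK l1726 := fun D T h => lf_of_chk h (mem_cons (W3912 D T h) (mem_cons (W284 D T h) (mem_cons (W16 D T h) (mem_cons (W337 D T h) (mem_cons (W2839 D T h) (mem_cons (W1599 D T h) (mem_cons (W2868 D T h) (mem_cons (W3571 D T h) (mem_cons (W2861 D T h) (mem_cons (W3926 D T h) (mem_cons (W3937 D T h) (mem_cons (W7524 D T h) (mem_cons (W3925 D T h) (mem_cons (W7591 D T h) (mem_cons (W2874 D T h) (mem_cons (W1139 D T h) (mem_cons (W128 D T h) (mem_cons (W7590 D T h) (mem_cons (W3921 D T h) (mem_cons (W3920 D T h) (mem_cons (W2848 D T h) (mem_cons (W3922 D T h) (mem_cons (W3304 D T h) (mem_cons (W7582 D T h) (mem_cons (W7429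 D T h) (mem_cons (W3924 D T h) (mem_cons (W2934 D T h) (mem_cons (W7583 D T h) (mem_cons (W2834 D T h) (mem_cons (W2828 D T h) (mem_cons (W7584 D T h) (mem_cons (W3915 D T h) (mem_cons (W3917 D T h) (mem_cons (W7586 D T h) (mem_cons (W7587 D T h) (mem_cons (W7588 D T h) (mem_cons (W7589 D T h) mem_nil))))))))))))))))))))))))))))))))))))) cl1726
theorem W7592 : WFK w7592 := fun D T h => wf_of_chk h mem_nil (mem_cons (L1726 D T h) mem_nil) cw7592
theorem L1727 : LFK l1727 := fun D T h => lf_of_chk h (mem_cons (W2024 D T h) (mem_cons (W37 D T h) (mem_cons (W933 D T h) (mem_cons (W2 D T h) (mem_cons (W284 D T h) (mem_cons (W2027 D T h) (mem_cons (W1346 D T h) (mem_cons (W6719 D T h) (mem_cons (W2375 D T h) (mem_cons (W4396 D T h) (mem_cons (W50 D T h) (mem_cons (W5194 D T h) (mem_cons (W4027 D T h) (mem_cons (W6444 D T h) mem_nil)))))))))))))) cl1727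
theorem W7594 : WFK w7594 := fun D T h => wf_of_chk h mem_nil (mem_cons (L683 D T h) mem_nil) cw7594
theorem W7595 : WFK w7595 := fun D T h => wf_of_chk h mem_nil (mem_cons (L683 D T h) mem_nil) cw7595
theorem L1728 : LFK l1728 := fun D T h => lf_of_chk h (mem_cons (W267 D T h) (mem_cons (W461 D T h) (mem_cons (W368 D T h) (mem_cons (W3 D T h) (mem_cons (W39 D T h) (mem_cons (W2357 D T h) (mem_cons (W281 D T h) (mem_cons (W2359 D T h) (mem_cons (W852 D T h) (mem_cons (W3437 D T h) (mem_cons (W1272 D T h) (mem_cons (W255 D T h) (mem_cons (W256 D T h) (mem_cons (W257 D T h) (mem_cons (W4296 D T h) (mem_cons (W1535 D T h) (mem_cons (W6647 D T h) mem_nil))))))))))))))))) cl1728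
theorem W7596 : WFK w7596 := fun D T h => wf_of_chk h mem_nil (mem_cons (L1728 D T h) mem_nil) cw7596
theorem W7599 : WFK w7599 := fun D T h => wf_of_chk h (mem_cons (W34 D T h) mem_nil) mem_nil cw7599
theorem L1730 : LFK l1730 := fun D T h => lf_of_chk h (mem_cons (W267 D T h) (mem_cons (W2015 D T h) (mem_cons (W368 D T h) (mem_cons (W3 D T h) (mem_cons (W401 D T h) (mem_cons (W39 D T h) (mem_cons (W2753 D T h) (mem_cons (W652 D T h) (mem_cons (W5647 D T h) (mem_cons (W817 D T h) (mem_cons (W7599 D T h) (mem_cons (W1272 D T h) (mem_cons (W255 D T h) (mem_cons (W256 D T h) (mem_cons (W257 D T h) (mem_cons (W1311 D T h) (mem_cons (W1535 D T h) (mem_cons (W263 D T h) (mem_cons (W390 D T h) mem_nil))))))))))))))))))) cl1730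
theorem W7600 : WFK w7600 := fun D T h => wf_of_chk h mem_nil (mem_cons (L1730 D T h) mem_nil) cw7600
theorem W7602 : WFK w7602 := fun D T h => wf_of_chk h (mem_cons (W901 D T h) (mem_cons (W23 D T h) mem_nil)) mem_nil cw7602
theorem W7603 : WFK w7603 := fun D T h => wf_of_chk h (mem_cons (W368 D T h) (mem_cons (W23 D T h) mem_nil)) mem_nil cw7603
theorem W7604 : WFK w7604 := fun D T h => wf_of_chk h (mem_cons (W7596 D T h) mem_nil) mem_nil cw7604
theorem L1731 : LFK l1731 := fun D T h => lf_of_chk h (mem_cons (W3356 D T h) (mem_cons (W1616 D T h) (mem_cons (W2433 D T h) (mem_cons (W126 D T h) (mem_cons (W7603 D T h) (mem_cons (W7604 D T h) (mem_cons (W370 D T h) (mem_cons (W3473 D T h) (mem_cons (W3274 D T h) mem_nil))))))))) cl1731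
theorem L1732 : LFK l1732 := fun D T h => lf_of_chk h (mem_cons (W795 D T h) (mem_cons (W1 D T h) (mem_cons (W18 D T h) (mem_cons (W6075 D T h) (mem_cons (W808 D T h) (mem_cons (W830 D T h) (mem_cons (W603 D T h) (mem_cons (W7174 D T h) (mem_cons (W850 D T h) (mem_cons (W1947 D T h) (mem_cons (W1114 D T h) (mem_cons (W1949 D T h) mem_nil)))))))))))) cl1732
theorem W7609 : WFK w7609 := fun D T h => wf_of_chk h mem_nil (mem_cons (L1732 D T h) mem_nil) cw7609
theorem W7613 : WFK w7613 := fun D T h => wf_of_chk h (mem_cons (W7 D T h) mem_nil) mem_nil cw7613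
theorem L1733 : LFK l1733 := fun D T h => lf_of_chk h (mem_cons (W4566 D T h) (mem_cons (W1072 D T h) (mem_cons (W69 D T h) (mem_cons (W539 D T h) (mem_cons (W2204 D T h) (mem_cons (W2445 D T h) (mem_cons (W2203 D T h) (mem_cons (W2207 D T h) (mem_cons (W2208 D T h) (mem_cons (W2205 D T h) (mem_cons (W2206 D T h) (mem_cons (W480 D T h) (mem_cons (W1459 D T h) (mem_cons (W1611 D T h) (mem_cons (W489 D T h) (mem_cons (W2210 D T h) (mem_cons (W7613 D T h) mem_nil))))))))))))))))) cl1733
theorem W7618 : WFK w7618 := fun D T h => wf_of_chk h (mem_cons (W16 D T h) mem_nil) mem_nil cw7618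
theorem W7622 : WFK w7622 := fun D T h => wf_of_chk h (mem_cons (W710 D T h) (mem_cons (W2914 D T h) mem_nil)) mem_nil cw7622
theorem L1735 : LFK l1735 := fun D T h => lf_of_chk h (mem_cons (W209 D T h) (mem_cons (W2914 D T h) (mem_cons (W15 D T h) (mem_cons (W220 D T h) (mem_cons (W17 D T h) (mem_cons (W659 D T h) (mem_cons (W2919 D T h) (mem_cons (W3797 D T h) (mem_cons (W1501 D T h) (mem_cons (W2554 D T h) (mem_cons (W2629 D T h) (mem_cons (W2628 D T h) (mem_cons (W2532 D T h) (mem_cons (W2627 D T h) (mem_cons (W5071 D T h) (mem_cons (W3878 D T h) (mem_cons (W6938 D T h) (mem_cons (W3766 D T h) (mem_cons (W4413 D T h) (mem_cons (W164 D T h) mem_nil)))))))))))))))))))) cl1735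
theorem W7623 : WFK w7623 := fun D T h => wf_of_chk h mem_nil (mem_cons (L1735 D T h) mem_nil) cw7623
theorem W7624 : WFK w7624 := fun D T h => wf_of_chk h (mem_cons (W126 D T h) (mem_cons (W7623 D T h) mem_nil)) mem_nil cw7624
theorem W7625 : WFK w7625 := fun D T h => wf_of_chk h mem_nil (mem_cons (L1731 D T h) mem_nil) cw7625
theorem W7626 : WFK w7626 := fun D T h => wf_of_chk h (mem_cons (W744 D T h) (mem_cons (W16 D T h) mem_nil)) mem_nil cw7626
theorem W7627 : WFK w7627 := fun D T h => wf_of_chk h (mem_cons (W799 D T h) (mem_cons (W23 D T h) mem_nil)) mem_nil cw7627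
theorem W7628 : WFK w7628 := fun D T h => wf_of_chk h (mem_cons (W2520 D T h) (mem_cons (W23 D T h) mem_nil)) mem_nil cw7628
theorem W7629 : WFK w7629 := fun D T h => wf_of_chk h (mem_cons (W34 D T h) (mem_cons (W23 D T h) mem_nil)) mem_nil cw7629
theorem W7630 : WFK w7630 := fun D T h => wf_of_chk h (mem_cons (W162 D T h) (mem_cons (W7596 D T h) mem_nil)) mem_nil cw7630
theorem W7631 : WFK w7631 := fun D T h => wf_of_chk h (mem_cons (W3227 D T h) (mem_cons (W23 D T h) mem_nil)) mem_nil cw7631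
theorem W7632 : WFK w7632 := fun D T h => wf_of_chk h (mem_cons (W710 D T h) (mem_cons (W16 D T h) mem_nil)) mem_nil cw7632
theorem W7633 : WFK w7633 := fun D T h => wf_of_chk h (mem_cons (W2309 D T h) (mem_cons (W16 D T h) mem_nil)) mem_nil cw7633
theorem W7634 : WFK w7634 := fun D T h => wf_of_chk h (mem_cons (W69 D T h) mem_nil) mem_nil cw7634
theorem W7635 : WFK w7635 := fun D T h => wf_of_chk h (mem_cons (W7634 D T h) (mem_cons (W16 D T h) mem_nil)) mem_nil cw7635
theorem W7636 : WFK w7636 := fun D T h => wf_of_chk h (mem_cons (W69 D T h) mem_nil) mem_nil cw7636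
theorem W7637 : WFK w7637 := fun D T h => wf_of_chk h (mem_cons (W7636 D T h) (mem_cons (W16 D T h) mem_nil)) mem_nil cw7637
theorem L1736 : LFK l1736 := fun D T h => lf_of_chk h (mem_cons (W5647 D T h) (mem_cons (W433 D T h) (mem_cons (W368 D T h) (mem_cons (W3 D T h) (mem_cons (W1412 D T h) (mem_cons (W220 D T h) (mem_cons (W7076 D T h) (mem_cons (W7636 D T h) (mem_cons (W6783 D T h) (mem_cons (W1853 D T h) (mem_cons (W2359 D T h) (mem_cons (W2753 D T h) (mem_cons (W652 D T h) (mem_cons (W6685 D T h) (mem_cons (W7635 D T h) (mem_cons (W258 D T h) (mem_cons (W5646 D T h) (mem_cons (W256 D T h) (mem_cons (W5645 D T h) (mem_cons (W7637 D T h) mem_nil)))))))))))))))))))) cl1736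
theorem W7638 : WFK w7638 := fun D T h => wf_of_chk h mem_nil (mem_cons (L1736 D T h) mem_nil) cw7638
theorem W7639 : WFK w7639 := fun D T h => wf_of_chk h (mem_cons (W3149 D T h) (mem_cons (W16 D T h) mem_nil)) mem_nil cw7639
theorem W7640 : WFK w7640 := fun D T h => wf_of_chk h (mem_cons (W281 D T h) mem_nil) mem_nil cw7640
theorem W7646 : WFK w7646 := fun D T h => wf_of_chk h (mem_cons (W1275 D T h) (mem_cons (W1063 D T h) mem_nil)) mem_nil cw7646
theorem W7647 : WFK w7647 := fun D T h => wf_of_chk h mem_nil (mem_cons (L135 D T h) mem_nil) cw7647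
theorem W7648 : WFK w7648 := fun D T h => wf_of_chk h (mem_cons (W3335 D T h) (mem_cons (W1063 D T h) mem_nil)) mem_nil cw7648
theorem W7649 : WFK w7649 := fun D T h => wf_of_chk h (mem_cons (W6 D T h) (mem_cons (W16 D T h) mem_nil)) mem_nil cw7649
theorem W7650 : WFK w7650 := fun D T h => wf_of_chk h (mem_cons (W233 D T h) (mem_cons (W16 D T h) mem_nil)) mem_nil cw7650
theorem L1737 : LFK l1737 := fun D T h => lf_of_chk h (mem_cons (W817 D T h) (mem_cons (W20 D T h) (mem_cons (W124 D T h) (mem_cons (W920 D T h) (mem_cons (W852 D T h) (mem_cons (W866 D T h) (mem_cons (W1531 D T h) (mem_cons (W865 D T h) (mem_cons (W7649 D T h) (mem_cons (W7650 D T h) (mem_cons (W6685 D T h) (mem_cons (W381 D T h) (mem_cons (W1901 D T h) (mem_cons (W979 D T h) (mem_cons (W64 D T h) (mem_cons (W4 D T h) (mem_cons (W922 D T h) (mem_cons (W33 D T h) mem_nil)))))))))))))))))) cl1737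
theorem W7651 : WFK w7651 := fun D T h => wf_of_chk h mem_nil (mem_cons (L1737 D T h) mem_nil) cw7651
theorem W7652 : WFK w7652 := fun D T h => wf_of_chk h (mem_cons (W3515 D T h) (mem_cons (W1063 D T h) mem_nil)) mem_nil cw7652
theorem W7653 : WFK w7653 := fun D T h => wf_of_chk h (mem_cons (W1448 D T h) (mem_cons (W1063 D T h) mem_nil)) mem_nil cw7653
theorem W7654 : WFK w7654 := fun D T h => wf_of_chk h (mem_cons (W1449 D T h) (mem_cons (W1063 D T h) mem_nil)) mem_nil cw7654
theorem L1738 : LFK l1738 := fun D T h => lf_of_chk h (mem_cons (W256 D T h) (mem_cons (W15 D T h) (mem_cons (W91 D T h) (mem_cons (W11 D T h) (mem_cons (W501 D T h) (mem_cons (W500 D T h) (mem_cons (W7402 D T h) (mem_cons (W817 D T h) (mem_cons (W2879 D T h) (mem_cons (W1538 D T h) (mem_cons (W346 D T h) (mem_cons (W1654 D T h) mem_nil)))))))))))) cl1738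
theorem W7655 : WFK w7655 := fun D T h => wf_of_chk h mem_nil (mem_cons (L1738 D T h) mem_nil) cw7655
theorem L1739 : LFK l1739 := fun D T h => lf_of_chk h (mem_cons (W2282 D T h) (mem_cons (W5018 D T h) (mem_cons (W7632 D T h) (mem_cons (W682 D T h) (mem_cons (W23 D T h) (mem_cons (W7623 D T h) (mem_cons (W7622 D T h) (mem_cons (W16 D T h) (mem_cons (W7600 D T h) (mem_cons (W2015 D T h) (mem_cons (W7629 D T h) (mem_cons (W7630 D T h) (mem_cons (W2709 D T h) (mem_cons (W2037 D T h) (mem_cons (W7631 D T h) (mem_cons (W7624 D T h) (mem_cons (W4209 D T h) (mem_cons (W128 D T h) (mem_cons (W7602 D T h) (mem_cons (W7625 D T h) (mem_cons (W4022 D T h) (mem_cons (W7626 D T h) (mem_cons (W3222 D T h) (mem_cons (W3221 D T h) (mem_cons (W7627 D T h) (mem_cons (W7628 D T h) (mem_cons (W7633 D T h) (mem_cons (W2269 D T h) (mem_cons (W7638 D T h) (mem_cons (W5312 D T h) (mem_cons (W7639 D T h) (mem_cons (W7646 D T h) (mem_cons (W7647 D T h) (mem_cons (W7648 D T h) (mem_cons (W7651 D T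 h) (mem_cons (W267 D T h) (mem_cons (W7652 D T h) (mem_cons (W7653 D T h) (mem_cons (W7654 D T h) (mem_cons (W7655 D T h) (mem_cons (W5177 D T h) (mem_cons (W3266 D T h) mem_nil)))))))))))))))))))))))))))))))))))))))))) cl1739
theorem W7656 : WFK w7656 := fun D T h => wf_of_chk h mem_nil (mem_cons (L1739 D T h) mem_nil) cw7656
theorem L1740 : LFK l1740 := fun D T h => lf_of_chk h (mem_cons (W5721 D T h) (mem_cons (W50 D T h) (mem_cons (W1211 D T h) (mem_cons (W219 D T h) (mem_cons (W901 D T h) (mem_cons (W796 D T h) (mem_cons (W4038 D T h) (mem_cons (W4028 D T h) (mem_cons (W1919 D T h) (mem_cons (W1969 D T h) (mem_cons (W6684 D T h) (mem_cons (W181 D T h) (mem_cons (W4318 D T h) (mem_cons (W230 D T h) (mem_cons (W2004 D T h) mem_nil))))))))))))))) cl1740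
theorem W7657 : WFK w7657 := fun D T h => wf_of_chk h mem_nil (mem_cons (L1740 D T h) mem_nil) cw7657
theorem L1741 : LFK l1741 := fun D T h => lf_of_chk h (mem_cons (W41 D T h) (mem_cons (W42 D T h) (mem_cons (W32 D T h) (mem_cons (W3 D T h) (mem_cons (W39 D T h) (mem_cons (W3205 D T h) (mem_cons (W40 D T h) (mem_cons (W15 D T h) (mem_cons (W1535 D T h) (mem_cons (W43 D T h) (mem_cons (W3765 D T h) mem_nil))))))))))) cl1741
theorem W7658 : WFK w7658 := fun D T h => wf_of_chk h mem_nil (mem_cons (L1741 D T h) mem_nil) cw7658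
theorem L1742 : LFK l1742 := fun D T h => lf_of_chk h (mem_cons (W1025 D T h) (mem_cons (W284 D T h) (mem_cons (W1 D T h) (mem_cons (W126 D T h) (mem_cons (W69 D T h) (mem_cons (W618 D T h) (mem_cons (W3878 D T h) (mem_cons (W815 D T h) (mem_cons (W2566 D T h) (mem_cons (W111 D T h) (mem_cons (W762 D T h) (mem_cons (W3770 D T h) (mem_cons (W341 D T h) (mem_cons (W7658 D T h) (mem_cons (W1533 D T h) mem_nil))))))))))))))) cl1742
theorem W7659 : WFK w7659 := fun D T h => wf_of_chk h mem_nil (mem_cons (L1742 D T h) mem_nil) cw7659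
theorem W7660 : WFK w7660 := fun D T h => wf_of_chk h (mem_cons (W181 D T h) (mem_cons (W34 D T h) mem_nil)) mem_nil cw7660
theorem L1743 : LFK l1743 := fun D T h => lf_of_chk h (mem_cons (W1346 D T h) (mem_cons (W2015 D T h) (mem_cons (W42 D T h) (mem_cons (W803 D T h) (mem_cons (W1690 D T h) (mem_cons (W721 D T h) (mem_cons (W5633 D T h) (mem_cons (W154 D T h) (mem_cons (W7660 D T h) (mem_cons (W1193 D T h) (mem_cons (W6916 D T h) (mem_cons (W6702 D T h) (mem_cons (W925 D T h) (mem_cons (W5634 D T h) (mem_cons (W2171 D T h) (mem_cons (W15 D T h) (mem_cons (W1348 D T h) (mem_cons (W1347 D T h) (mem_cons (W801 D T h) mem_nil))))))))))))))))))) cl1743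
theorem W7661 : WFK w7661 := fun D T h => wf_of_chk h mem_nil (mem_cons (L1743 D T h) mem_nil) cw7661
theorem W7662 : WFK w7662 := fun D T h => wf_of_chk h (mem_cons (W126 D T h) (mem_cons (W1336 D T h) mem_nil)) mem_nil cw7662
theorem W7663 : WFK w7663 := fun D T h => wf_of_chk h mem_nil (mem_cons (L1742 D T h) mem_nil) cw7663
theorem W7670 : WFK w7670 := fun D T h => wf_of_chk h mem_nil (mem_cons (L1407 D T h) mem_nil) cw7670
theorem L1744 : LFK l1744 := fun D T h => lf_of_chk h (mem_cons (W581 D T h) (mem_cons (W140 D T h) (mem_cons (W141 D T h) (mem_cons (W86 D T h) (mem_cons (W1070 D T h) (mem_cons (W255 D T h) (mem_cons (W747 D T h) (mem_cons (W160 D T h) (mem_cons (W871 D T h) (mem_cons (W4540 D T h) (mem_cons (W12 D T h) (mem_cons (W3274 D T h) (mem_cons (W5358 D T h) (mem_cons (W1128 D T h) mem_nil)))))))))))))) cl1744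
theorem W7673 : WFK w7673 := fun D T h => wf_of_chk h mem_nil (mem_cons (L1744 D T h) mem_nil) cw7673
theorem W7675 : WFK w7675 := fun D T h => wf_of_chk h (mem_cons (W111 D T h) (mem_cons (W220 D T h) mem_nil)) mem_nil cw7675
theorem W7677 : WFK w7677 := fun D T h => wf_of_chk h (mem_cons (W167 D T h) (mem_cons (W3970 D T h) mem_nil)) mem_nil cw7677
theorem W7679 : WFK w7679 := fun D T h => wf_of_chk h (mem_cons (W1019 D T h) (mem_cons (W3970 D T h) mem_nil)) mem_nil cw7679
theorem W7680 : WFK w7680 := fun D T h => wf_of_chk h mem_nil (mem_cons (L101 D T h) mem_nil) cw7680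
theorem W7689 : WFK w7689 := fun D T h => wf_of_chk h mem_nil (mem_cons (L120 D T h) mem_nil) cw7689
theorem W7693 : WFK w7693 := fun D T h => wf_of_chk h (mem_cons (W284 D T h) mem_nil) mem_nil cw7693
theorem W7695 : WFK w7695 := fun D T h => wf_of_chk h (mem_cons (W220 D T h) mem_nil) mem_nil cw7695
theorem W7698 : WFK w7698 := fun D T h => wf_of_chk h (mem_cons (W3878 D T h) (mem_cons (W220 D T h) mem_nil)) mem_nil cw7698
theorem W7699 : WFK w7699 := fun D T h => wf_of_chk h mem_nil (mem_cons (L1742 D T h) mem_nil) cw7699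
theorem W7700 : WFK w7700 := fun D T h => wf_of_chk h (mem_cons (W901 D T h) (mem_cons (W1336 D T h) mem_nil)) mem_nil cw7700
theorem W7701 : WFK w7701 := fun D T h => wf_of_chk h (mem_cons (W1336 D T h) mem_nil) mem_nil cw7701
theorem W7702 : WFK w7702 := fun D T h => wf_of_chk h (mem_cons (W69 D T h) (mem_cons (W1336 D T h) mem_nil)) mem_nil cw7702
theorem L1746 : LFK l1746 := fun D T h => lf_of_chk h (mem_cons (W4209 D T h) (mem_cons (W7659 D T h) (mem_cons (W1 D T h) (mem_cons (W1336 D T h) (mem_cons (W69 D T h) (mem_cons (W3565 D T h) (mem_cons (W83 D T h) (mem_cons (W93 D T h) (mem_cons (W7699 D T h) (mem_cons (W91 D T h) (mem_cons (W2175 D T h) (mem_cons (W80 D T h) (mem_cons (W2177 D T h) (mem_cons (W4259 D T h) (mem_cons (W5912 D T h) (mem_cons (W2223 D T h) (mem_cons (W7701 D T h) (mem_cons (W370 D T h) (mem_cons (W111 D T h) (mem_cons (W2259 D T h) (mem_cons (W267 D T h) (mem_cons (W721 D T h) (mem_cons (W114 D T h) (mem_cons (W7702 D T h) mem_nil))))))))))))))))))))))))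 cl1746
theorem W7703 : WFK w7703 := fun D T h => wf_of_chk h mem_nil (mem_cons (L1746 D T h) mem_nil) cw7703
theorem W7704 : WFK w7704 := fun D T h => wf_of_chk h mem_nil (mem_cons (L1746 D T h) mem_nil) cw7704
theorem W7705 : WFK w7705 := fun D T h => wf_of_chk h (mem_cons (W2517 D T h) (mem_cons (W1336 D T h) mem_nil)) mem_nil cw7705
theorem W7706 : WFK w7706 := fun D T h => wf_of_chk h mem_nil (mem_cons (L55 D T h) mem_nil) cw7706
theorem L1747 : LFK l1747 := fun D T h => lf_of_chk h (mem_cons (W1400 D T h) (mem_cons (W1473 D T h) (mem_cons (W918 D T h) (mem_cons (W860 D T h) (mem_cons (W7706 D T h) (mem_cons (W4470 D T h) (mem_cons (W840 D T h) (mem_cons (W861 D T h) (mem_cons (W1550 D T h) (mem_cons (W4 D T h) mem_nil)))))))))) cl1747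
theorem W7707 : WFK w7707 := fun D T h => wf_of_chk h mem_nil (mem_cons (L1747 D T h) mem_nil) cw7707
theorem W7708 : WFK w7708 := fun D T h => wf_of_chk h (mem_cons (W16 D T h) (mem_cons (W1051 D T h) mem_nil)) mem_nil cw7708
theorem W7712 : WFK w7712 := fun D T h => wf_of_chk h (mem_cons (W539 D T h) (mem_cons (W16 D T h) mem_nil)) mem_nil cw7712
theorem W7718 : WFK w7718 := fun D T h => wf_of_chk h (mem_cons (W16 D T h) mem_nil) mem_nil cw7718
theorem W7719 : WFK w7719 := fun D T h => wf_of_chk h mem_nil (mem_cons (L630 D T h) mem_nil) cw7719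
theorem W7720 : WFK w7720 := fun D T h => wf_of_chk h mem_nil (mem_cons (L1536 D T h) mem_nil) cw7720
theorem W7722 : WFK w7722 := fun D T h => wf_of_chk h mem_nil mem_nil cw7722
theorem W7723 : WFK w7723 := fun D T h => wf_of_chk h mem_nil (mem_cons (L566 D T h) mem_nil) cw7723
theorem W7724 : WFK w7724 := fun D T h => wf_of_chk h mem_nil mem_nil cw7724
theorem L1750 : LFK l1750 := fun D T h => lf_of_chk h (mem_cons (W8 D T h) (mem_cons (W7724 D T h) (mem_cons (W5865 D T h) (mem_cons (W3110 D T h) (mem_cons (W1854 D T h) (mem_cons (W4339 D T h) (mem_cons (W193 D T h) (mem_cons (W192 D T h) mem_nil)))))))) cl1750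
theorem W7748 : WFK w7748 := fun D T h => wf_of_chk h (mem_cons (W16 D T h) (mem_cons (W7719 D T h) mem_nil)) mem_nil cw7748
theorem W7749 : WFK w7749 := fun D T h => wf_of_chk h (mem_cons (W16 D T h) (mem_cons (W7719 D T h) mem_nil)) mem_nil cw7749
theorem W7752 : WFK w7752 := fun D T h => wf_of_chk h mem_nil (mem_cons (L55 D T h) mem_nil) cw7752
theorem L1755 : LFK l1755 := fun D T h => lf_of_chk h (mem_cons (W91 D T h) (mem_cons (W2766 D T h) (mem_cons (W802 D T h) (mem_cons (W831 D T h) (mem_cons (W33 D T h) (mem_cons (W19 D T h) (mem_cons (W2204 D T h) (mem_cons (W675 D T h) (mem_cons (W817 D T h) (mem_cons (W265 D T h) (mem_cons (W3153 D T h) (mem_cons (W878 D T h) mem_nil)))))))))))) cl1755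
theorem W7754 : WFK w7754 := fun D T h => wf_of_chk h mem_nil (mem_cons (L1755 D T h) mem_nil) cw7754
theorem W7755 : WFK w7755 := fun D T h => wf_of_chk h mem_nil mem_nil cw7755
theorem W7756 : WFK w7756 := fun D T h => wf_of_chk h mem_nil mem_nil cw7756
theorem W7757 : WFK w7757 := fun D T h => wf_of_chk h mem_nil (mem_cons (L630 D T h) mem_nil) cw7757
theorem L1756 : LFK l1756 := fun D T h => lf_of_chk h (mem_cons (W2766 D T h) mem_nil) cl1756
theorem W7758 : WFK w7758 := fun D T h => wf_of_chk h mem_nil (mem_cons (L1756 D T h) mem_nil) cw7758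
theorem L1757 : LFK l1757 := fun D T h => lf_of_chk h (mem_cons (W866 D T h) (mem_cons (W20 D T h) (mem_cons (W124 D T h) (mem_cons (W1425 D T h) (mem_cons (W734 D T h) (mem_cons (W7755 D T h) (mem_cons (W7756 D T h) (mem_cons (W1482 D T h) (mem_cons (W1484 D T h) (mem_cons (W1483 D T h) (mem_cons (W7757 D T h) (mem_cons (W884 D T h) (mem_cons (W7758 D T h) (mem_cons (W33 D T h) (mem_cons (W1399 D T h) (mem_cons (W4 D T h) mem_nil)))))))))))))))) cl1757
theorem W7759 : WFK w7759 := fun D T h => wf_of_chk h mem_nil (mem_cons (L1757 D T h) mem_nil) cw7759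
theorem W7760 : WFK w7760 := fun D T h => wf_of_chk h (mem_cons (W461 D T h) (mem_cons (W2766 D T h) mem_nil)) mem_nil cw7760
theorem L1758 : LFK l1758 := fun D T h => lf_of_chk h (mem_cons (W5633 D T h) (mem_cons (W803 D T h) (mem_cons (W42 D T h) (mem_cons (W1929 D T h) (mem_cons (W1919 D T h) (mem_cons (W7760 D T h) (mem_cons (W2805 D T h) (mem_cons (W7759 D T h) (mem_cons (W431 D T h) (mem_cons (W5673 D T h) (mem_cons (W5585 D T h) (mem_cons (W5655 D T h) (mem_cons (W7754 D T h) (mem_cons (W1193 D T h) (mem_cons (W5103 D T h) (mem_cons (W6702 D T h) (mem_cons (W5102 D T h) (mem_cons (W1690 D T h) (mem_cons (W762 D T h) (mem_cons (W263 D T h) mem_nil)))))))))))))))))))) cl1758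
theorem W7761 : WFK w7761 := fun D T h => wf_of_chk h mem_nil (mem_cons (L1758 D T h) mem_nil) cw7761
theorem W7762 : WFK w7762 := fun D T h => wf_of_chk h (mem_cons (W7761 D T h) (mem_cons (W16 D T h) mem_nil)) mem_nil cw7762
theorem W7766 : WFK w7766 := fun D T h => wf_of_chk h mem_nil (mem_cons (L50 D T h) mem_nil) cw7766
theorem W7767 : WFK w7767 := fun D T h => wf_of_chk h mem_nil (mem_cons (L50 D T h) mem_nil) cw7767
theorem W7768 : WFK w7768 := fun D T h => wf_of_chk h mem_nil mem_nil cw7768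
theorem W7769 : WFK w7769 := fun D T h => wf_of_chk h mem_nil (mem_cons (L934 D T h) mem_nil) cw7769
theorem W7770 : WFK w7770 := fun D T h => wf_of_chk h mem_nil (mem_cons (L931 D T h) mem_nil) cw7770
theorem W7771 : WFK w7771 := fun D T h => wf_of_chk h mem_nil mem_nil cw7771
theorem W7772 : WFK w7772 := fun D T h => wf_of_chk h mem_nil mem_nil cw7772
theorem W7773 : WFK w7773 := fun D T h => wf_of_chk h mem_nil mem_nil cw7773
theorem L1761 : LFK l1761 := fun D T h => lf_of_chk h (mem_cons (W7767 D T h) (mem_cons (W8 D T h) (mem_cons (W617 D T h) (mem_cons (W7768 D T h) (mem_cons (W7769 D T h) (mem_cons (W812 D T h) (mem_cons (W7770 D T h) (mem_cons (W6 D T h) (mem_cons (W685 D T h) (mem_cons (W861 D T h) (mem_cons (W5934 D T h) (mem_cons (W4323 D T h) (mem_cons (W7771 D T h) (mem_cons (W7772 D T h) (mem_cons (W7773 D T h) mem_nil))))))))))))))) cl1761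
theorem W7774 : WFK w7774 := fun D T h => wf_of_chk h mem_nil (mem_cons (L1761 D T h) mem_nil) cw7774
theorem W7775 : WFK w7775 := fun D T h => wf_of_chk h mem_nil (mem_cons (L29 D T h) mem_nil) cw7775
theorem L1762 : LFK l1762 := fun D T h => lf_of_chk h (mem_cons (W141 D T h) (mem_cons (W11 D T h) (mem_cons (W784 D T h) (mem_cons (W281 D T h) (mem_cons (W7766 D T h) (mem_cons (W7774 D T h) (mem_cons (W1143 D T h) (mem_cons (W501 D T h) (mem_cons (W1400 D T h) (mem_cons (W1673 D T h) (mem_cons (W675 D T h) (mem_cons (W861 D T h) (mem_cons (W603 D T h) (mem_cons (W1944 D T h) (mem_cons (W814 D T h) (mem_cons (W7775 D T h) mem_nil)))))))))))))))) cl1762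
theorem W7776 : WFK w7776 := fun D T h => wf_of_chk h mem_nil (mem_cons (L1762 D T h) mem_nil) cw7776
theorem W7777 : WFK w7777 := fun D T h => wf_of_chk h mem_nil (mem_cons (L50 D T h) mem_nil) cw7777
theorem W7788 : WFK w7788 := fun D T h => wf_of_chk h (mem_cons (W50 D T h) (mem_cons (W230 D T h) mem_nil)) mem_nil cw7788
theorem W7789 : WFK w7789 := fun D T h => wf_of_chk h (mem_cons (W3837 D T h) (mem_cons (W284 D T h) mem_nil)) mem_nil cw7789
theorem W7790 : WFK w7790 := fun D T h => wf_of_chk h (mem_cons (W5258 D T h) (mem_cons (W16 D T h) mem_nil)) mem_nil cw7790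
theorem W7793 : WFK w7793 := fun D T h => wf_of_chk h (mem_cons (W69 D T h) (mem_cons (W220 D T h) mem_nil)) mem_nil cw7793
theorem W7794 : WFK w7794 := fun D T h => wf_of_chk h (mem_cons (W7793 D T h) (mem_cons (W284 D T h) mem_nil)) mem_nil cw7794
theorem W7796 : WFK w7796 := fun D T h => wf_of_chk h (mem_cons (W69 D T h) (mem_cons (W220 D T h) mem_nil)) mem_nil cw7796
theorem W7797 : WFK w7797 := fun D T h => wf_of_chk h (mem_cons (W7796 D T h) (mem_cons (W284 D T h) mem_nil)) mem_nil cw7797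
theorem W7798 : WFK w7798 := fun D T h => wf_of_chk h (mem_cons (W616 D T h) (mem_cons (W1336 D T h) mem_nil)) mem_nil cw7798
theorem W7800 : WFK w7800 := fun D T h => wf_of_chk h (mem_cons (W162 D T h) (mem_cons (W7761 D T h) mem_nil)) mem_nil cw7800
theorem W7805 : WFK w7805 := fun D T h => wf_of_chk h (mem_cons (W103 D T h) (mem_cons (W284 D T h) mem_nil)) mem_nil cw7805
theorem W7813 : WFK w7813 := fun D T h => wf_of_chk h (mem_cons (W16 D T h) mem_nil) mem_nil cw7813
theorem W7816 : WFK w7816 := fun D T h => wf_of_chk h (mem_cons (W667 D T h) (mem_cons (W1211 D T h) mem_nil)) mem_nil cw7816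
theorem W7817 : WFK w7817 := fun D T h => wf_of_chk h (mem_cons (W50 D T h) (mem_cons (W1211 D T h) mem_nil)) mem_nil cw7817
theorem L1770 : LFK l1770 := fun D T h => lf_of_chk h (mem_cons (W5633 D T h) (mem_cons (W799 D T h) (mem_cons (W3766 D T h) (mem_cons (W261 D T h) (mem_cons (W800 D T h) (mem_cons (W5673 D T h) (mem_cons (W6758 D T h) (mem_cons (W42 D T h) (mem_cons (W6684 D T h) (mem_cons (W16 D T h) (mem_cons (W6766 D T h) (mem_cons (W2004 D T h) (mem_cons (W6534 D T h) mem_nil))))))))))))) cl1770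
theorem W7818 : WFK w7818 := fun D T h => wf_of_chk h mem_nil (mem_cons (L1770 D T h) mem_nil) cw7818
theorem W7819 : WFK w7819 := fun D T h => wf_of_chk h mem_nil (mem_cons (L897 D T h) mem_nil) cw7819
theorem L1771 : LFK l1771 := fun D T h => lf_of_chk h (mem_cons (W263 D T h) (mem_cons (W42 D T h) (mem_cons (W16 D T h) (mem_cons (W3 D T h) (mem_cons (W39 D T h) (mem_cons (W348 D T h) (mem_cons (W15 D T h) (mem_cons (W261 D T h) (mem_cons (W1923 D T h) (mem_cons (W3148 D T h) (mem_cons (W6899 D T h) (mem_cons (W1535 D T h) (mem_cons (W344 D T h) (mem_cons (W4589 D T h) (mem_cons (W347 D T h) (mem_cons (W346 D T h) (mem_cons (W345 D T h) (mem_cons (W6456 D T h) (mem_cons (W38 D T h) (mem_cons (W7259 D T h) mem_nil)))))))))))))))))))) cl1771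
theorem W7820 : WFK w7820 := fun D T h => wf_of_chk h mem_nil (mem_cons (L1771 D T h) mem_nil) cw7820
theorem W7821 : WFK w7821 := fun D T h => wf_of_chk h mem_nil (mem_cons (L542 D T h) mem_nil) cw7821
theorem L1772 : LFK l1772 := fun D T h => lf_of_chk h (mem_cons (W721 D T h) (mem_cons (W42 D T h) (mem_cons (W16 D T h) (mem_cons (W3 D T h) (mem_cons (W39 D T h) (mem_cons (W1296 D T h) (mem_cons (W15 D T h) (mem_cons (W261 D T h) (mem_cons (W1923 D T h) (mem_cons (W6032 D T h) (mem_cons (W6899 D T h) (mem_cons (W1535 D T h) (mem_cons (W2218 D T h) (mem_cons (W747 D T h) (mem_cons (W258 D T h) (mem_cons (W746 D T h) (mem_cons (W748 D T h) (mem_cons (W6456 D T h) (mem_cons (W815 D T h) (mem_cons (W263 D T h) (mem_cons (W762 D T h) mem_nil))))))))))))))))))))) cl1772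
theorem W7822 : WFK w7822 := fun D T h => wf_of_chk h mem_nil (mem_cons (L1772 D T h) mem_nil) cw7822
theorem L1773 : LFK l1773 := fun D T h => lf_of_chk h (mem_cons (W721 D T h) (mem_cons (W42 D T h) (mem_cons (W16 D T h) (mem_cons (W3 D T h) (mem_cons (W39 D T h) (mem_cons (W1296 D T h) (mem_cons (W15 D T h) (mem_cons (W261 D T h) (mem_cons (W1923 D T h) (mem_cons (W6032 D T h) (mem_cons (W6899 D T h) (mem_cons (W1535 D T h) (mem_cons (W2218 D T h) (mem_cons (W747 D T h) (mem_cons (W258 D T h) (mem_cons (W746 D T h) (mem_cons (W748 D T h) (mem_cons (W6456 D T h) (mem_cons (W263 D T h) (mem_cons (W762 D T h) (mem_cons (W815 D T h) mem_nil))))))))))))))))))))) cl1773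
theorem W7823 : WFK w7823 := fun D T h => wf_of_chk h mem_nil (mem_cons (L1773 D T h) mem_nil) cw7823
theorem W7824 : WFK w7824 := fun D T h => wf_of_chk h (mem_cons (W4209 D T h) (mem_cons (W16 D T h) mem_nil)) mem_nil cw7824
theorem W7825 : WFK w7825 := fun D T h => wf_of_chk h (mem_cons (W4259 D T h) (mem_cons (W16 D T h) mem_nil)) mem_nil cw7825
theorem W7826 : WFK w7826 := fun D T h => wf_of_chk h (mem_cons (W7820 D T h) (mem_cons (W16 D T h) mem_nil)) mem_nil cw7826
theorem W7827 : WFK w7827 := fun D T h => wf_of_chk h (mem_cons (W4028 D T h) (mem_cons (W16 D T h) mem_nil)) mem_nil cw7827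
theorem L1774 : LFK l1774 := fun D T h => lf_of_chk h (mem_cons (W2201 D T h) (mem_cons (W284 D T h) (mem_cons (W179 D T h) (mem_cons (W250 D T h) (mem_cons (W16 D T h) (mem_cons (W620 D T h) (mem_cons (W2267 D T h) (mem_cons (W7827 D T h) (mem_cons (W2195 D T h) (mem_cons (W24 D T h) (mem_cons (W209 D T h) (mem_cons (W721 D T h) (mem_cons (W2191 D T h) (mem_cons (W2190 D T h) (mem_cons (W2280 D T h) (mem_cons (W3571 D T h) (mem_cons (W7819 D T h) (mem_cons (W7670 D T h) (mem_cons (W449 D T h) (mem_cons (W341 D T h) (mem_cons (W1533 D T h) (mem_cons (W7820 D T h) (mem_cons (W7821 D T h) (mem_cons (W7822 D T h) (mem_cons (W7824 D T h) (mem_cons (W7823 D T h) (mem_cons (W83 D T h) (mem_cons (W7693 D T h) (mem_cons (W535 D T h) (mem_cons (W3237 D T h) (mem_cons (W7825 D T h) (mem_cons (W7826 D T h) mem_nil)))))))))))))))))))))))))))))))) cl1774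
theorem W7828 : WFK w7828 := fun D T h => wf_of_chk h mem_nil (mem_cons (L1774 D T h) mem_nil) cw7828
theorem W7829 : WFK w7829 := fun D T h => wf_of_chk h (mem_cons (W34 D T h) (mem_cons (W6496 D T h) mem_nil)) mem_nil cw7829
theorem W7830 : WFK w7830 := fun D T h => wf_of_chk h (mem_cons (W817 D T h) (mem_cons (W6496 D T h) mem_nil)) mem_nil cw7830
theorem W7831 : WFK w7831 := fun D T h => wf_of_chk h (mem_cons (W125 D T h) (mem_cons (W6496 D T h) mem_nil)) mem_nil cw7831
theorem W7832 : WFK w7832 := fun D T h => wf_of_chk h (mem_cons (W22 D T h) (mem_cons (W6496 D T h) mem_nil)) mem_nil cw7832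
theorem W7833 : WFK w7833 := fun D T h => wf_of_chk h (mem_cons (W1120 D T h) (mem_cons (W6496 D T h) mem_nil)) mem_nil cw7833
theorem W7834 : WFK w7834 := fun D T h => wf_of_chk h (mem_cons (W6516 D T h) (mem_cons (W112 D T h) mem_nil)) mem_nil cw7834
theorem L1775 : LFK l1775 := fun D T h => lf_of_chk h (mem_cons (W42 D T h) (mem_cons (W16 D T h) (mem_cons (W39 D T h) (mem_cons (W3 D T h) (mem_cons (W642 D T h) (mem_cons (W261 D T h) (mem_cons (W718 D T h) (mem_cons (W241 D T h) (mem_cons (W1535 D T h) (mem_cons (W581 D T h) (mem_cons (W1326 D T h) (mem_cons (W1554 D T h) (mem_cons (W1325 D T h) (mem_cons (W6456 D T h) (mem_cons (W431 D T h) (mem_cons (W722 D T h) (mem_cons (W721 D T h) (mem_cons (W267 D T h) (mem_cons (W959 D T h) mem_nil))))))))))))))))))) cl1775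
theorem W7835 : WFK w7835 := fun D T h => wf_of_chk h mem_nil (mem_cons (L1775 D T h) mem_nil) cw7835
theorem W7836 : WFK w7836 := fun D T h => wf_of_chk h (mem_cons (W7835 D T h) (mem_cons (W112 D T h) mem_nil)) mem_nil cw7836
theorem W7837 : WFK w7837 := fun D T h => wf_of_chk h mem_nil (mem_cons (L1536 D T h) mem_nil) cw7837
theorem W7838 : WFK w7838 := fun D T h => wf_of_chk h (mem_cons (W6440 D T h) (mem_cons (W112 D T h) mem_nil)) mem_nil cw7838
theorem L1776 : LFK l1776 := fun D T h => lf_of_chk h (mem_cons (W2259 D T h) (mem_cons (W7659 D T h) (mem_cons (W161 D T h) (mem_cons (W1336 D T h) (mem_cons (W112 D T h) (mem_cons (W284 D T h) (mem_cons (W1447 D T h) (mem_cons (W2228 D T h) (mem_cons (W1161 D T h) (mem_cons (W16 D T h) (mem_cons (W3396 D T h) (mem_cons (W7838 D T h) (mem_cons (W2261 D T h) (mem_cons (W1458 D T h) (mem_cons (W7833 D T h) (mem_cons (W2253 D T h) (mem_cons (W50 D T h) (mem_cons (W2256 D T h) (mem_cons (W2255 D T h) (mem_cons (W2258 D T h) (mem_cons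 (W5633 D T h) (mem_cons (W7495 D T h) (mem_cons (W2245 D T h) (mem_cons (W2248 D T h) (mem_cons (W2250 D T h) (mem_cons (W7837 D T h) (mem_cons (W2252 D T h) (mem_cons (W6033 D T h) (mem_cons (W7822 D T h) (mem_cons (W2231 D T h) (mem_cons (W5914 D T h) (mem_cons (W7834 D T h) (mem_cons (W5248 D T h) (mem_cons (W7836 D T h) (mem_cons (W817 D T h) (mem_cons (W2175 D T h) (mem_cons (W7805 D T h) (mem_cons (W2177 D T h) (mem_cons (W519 D T h) (mem_cons (W7830 D T h) (mem_cons (W2223 D T h) (mem_cons (W7701 D T h) (mem_cons (W370 D T h) (mem_cons (W111 D T h) (mem_cons (W401 D T h) (mem_cons (W1409 D T h) (mem_cons (W4459 D T h) (mem_cons (W7831 D T h) (mem_cons (W7832 D T h) mem_nil))))))))))))))))))))))))))))))))))))))))))))))))) cl1776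
theorem W7839 : WFK w7839 := fun D T h => wf_of_chk h mem_nil (mem_cons (L1776 D T h) mem_nil) cw7839
theorem L1777 : LFK l1777 := fun D T h => lf_of_chk h (mem_cons (W7827 D T h) (mem_cons (W284 D T h) (mem_cons (W179 D T h) (mem_cons (W366 D T h) (mem_cons (W16 D T h) (mem_cons (W620 D T h) (mem_cons (W2267 D T h) (mem_cons (W2269 D T h) (mem_cons (W24 D T h) (mem_cons (W209 D T h) (mem_cons (W721 D T h) (mem_cons (W2191 D T h) (mem_cons (W2190 D T h) (mem_cons (W3780 D T h) (mem_cons (W449 D T h) (mem_cons (W341 D T h) (mem_cons (W4028 D T h) (mem_cons (W7820 D T h) (mem_cons (W7821 D T h) (mem_cons (W7822 D T h) (mem_cons (W7824 D T h) (mem_cons (W7823 D T h) (mem_cons (W83 D T h) (mem_cons (W241 D T h) (mem_cons (W7693 D T h) (mem_cons (W7826 D T h) mem_nil)))))))))))))))))))))))))) cl1777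
theorem W7840 : WFK w7840 := fun D T h => wf_of_chk h mem_nil (mem_cons (L1777 D T h) mem_nil) cw7840
theorem L1778 : LFK l1778 := fun D T h => lf_of_chk h (mem_cons (W721 D T h) (mem_cons (W42 D T h) (mem_cons (W16 D T h) (mem_cons (W3 D T h) (mem_cons (W39 D T h) (mem_cons (W1296 D T h) (mem_cons (W15 D T h) (mem_cons (W261 D T h) (mem_cons (W1923 D T h) (mem_cons (W6032 D T h) (mem_cons (W6899 D T h) (mem_cons (W1535 D T h) (mem_cons (W2218 D T h) (mem_cons (W3775 D T h) (mem_cons (W6456 D T h) (mem_cons (W815 D T h) (mem_cons (W263 D T h) (mem_cons (W762 D T h) mem_nil)))))))))))))))))) cl1778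
theorem W7842 : WFK w7842 := fun D T h => wf_of_chk h mem_nil (mem_cons (L1778 D T h) mem_nil) cw7842
theorem L1779 : LFK l1779 := fun D T h => lf_of_chk h (mem_cons (W7826 D T h) (mem_cons (W284 D T h) (mem_cons (W179 D T h) (mem_cons (W366 D T h) (mem_cons (W16 D T h) (mem_cons (W620 D T h) (mem_cons (W2267 D T h) (mem_cons (W5072 D T h) (mem_cons (W721 D T h) (mem_cons (W2191 D T h) (mem_cons (W2190 D T h) (mem_cons (W3780 D T h) (mem_cons (W342 D T h) (mem_cons (W341 D T h) (mem_cons (W1533 D T h) (mem_cons (W7820 D T h) (mem_cons (W3035 D T h) (mem_cons (W7822 D T h) (mem_cons (W7842 D T h) (mem_cons (W7823 D T h) (mem_cons (W83 D T h) (mem_cons (W7693 D T h) mem_nil)))))))))))))))))))))) cl1779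
theorem W7843 : WFK w7843 := fun D T h => wf_of_chk h mem_nil (mem_cons (L1779 D T h) mem_nil) cw7843
theorem L1780 : LFK l1780 := fun D T h => lf_of_chk h (mem_cons (W7704 D T h) (mem_cons (W1068 D T h) (mem_cons (W16 D T h) (mem_cons (W284 D T h) (mem_cons (W682 D T h) (mem_cons (W6496 D T h) (mem_cons (W1336 D T h) (mem_cons (W7659 D T h) (mem_cons (W7661 D T h) (mem_cons (W2015 D T h) (mem_cons (W7829 D T h) (mem_cons (W7839 D T h) (mem_cons (W2709 D T h) (mem_cons (W2037 D T h) (mem_cons (W7828 D T h) (mem_cons (W7662 D T h) (mem_cons (W4209 D T h) (mem_cons (W128 D T h) (mem_cons (W7700 D T h) (mem_cons (W7703 D T h) (mem_cons (W799 D T h) (mem_cons (W2185 D T h) (mem_cons (W3222 D T h) (mem_cons (W7705 D T h) (mem_cons (W2187 D T h) (mem_cons (W4970 D T h) (mem_cons (W7827 D T h) (mem_cons (W2231 D T h) (mem_cons (W5248 D T h) (mem_cons (W7840 D T h) (mem_cons (W5633 D T h) (mem_cons (W7720 D T h) (mem_cons (W2273 D T h) (mem_cons (W2275 D T h) (mem_cons (W2277 D T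 h) (mem_cons (W7837 D T h) (mem_cons (W7843 D T h) (mem_cons (W5623 D T h) (mem_cons (W2062 D T h) (mem_cons (W2282 D T h) (mem_cons (W50 D T h) mem_nil))))))))))))))))))))))))))))))))))))))))) cl1780
theorem W7844 : WFK w7844 := fun D T h => wf_of_chk h mem_nil (mem_cons (L1780 D T h) mem_nil) cw7844
theorem W7845 : WFK w7845 := fun D T h => wf_of_chk h mem_nil (mem_cons (L873 D T h) mem_nil) cw7845
theorem W7846 : WFK w7846 := fun D T h => wf_of_chk h mem_nil (mem_cons (L841 D T h) mem_nil) cw7846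
theorem W7847 : WFK w7847 := fun D T h => wf_of_chk h mem_nil (mem_cons (L873 D T h) mem_nil) cw7847
theorem W7848 : WFK w7848 := fun D T h => wf_of_chk h mem_nil (mem_cons (L1325 D T h) mem_nil) cw7848
theorem W7849 : WFK w7849 := fun D T h => wf_of_chk h (mem_cons (W7848 D T h) (mem_cons (W16 D T h) mem_nil)) mem_nil cw7849
theorem W7850 : WFK w7850 := fun D T h => wf_of_chk h (mem_cons (W368 D T h) (mem_cons (W16 D T h) mem_nil)) mem_nil cw7850
theorem W7851 : WFK w7851 := fun D T h => wf_of_chk h (mem_cons (W7850 D T h) (mem_cons (W1063 D T h) mem_nil)) mem_nil cw7851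
theorem W7852 : WFK w7852 := fun D T h => wf_of_chk h (mem_cons (W3843 D T h) (mem_cons (W16 D T h) mem_nil)) mem_nil cw7852
theorem W7853 : WFK w7853 := fun D T h => wf_of_chk h mem_nil (mem_cons (L879 D T h) mem_nil) cw7853
theorem W7854 : WFK w7854 := fun D T h => wf_of_chk h mem_nil (mem_cons (L254 D T h) mem_nil) cw7854
theorem W7855 : WFK w7855 := fun D T h => wf_of_chk h mem_nil (mem_cons (L1288 D T h) mem_nil) cw7855
theorem L1781 : LFK l1781 := fun D T h => lf_of_chk h (mem_cons (W2273 D T h) (mem_cons (W1188 D T h) (mem_cons (W16 D T h) (mem_cons (W1063 D T h) (mem_cons (W682 D T h) (mem_cons (W3854 D T h) (mem_cons (W2015 D T h) (mem_cons (W3629 D T h) (mem_cons (W7853 D T h) (mem_cons (W2709 D T h) (mem_cons (W2037 D T h) (mem_cons (W7652 D T h) (mem_cons (W1166 D T h) (mem_cons (W128 D T h) (mem_cons (W7845 D T h) (mem_cons (W7846 D T h) (mem_cons (W7847 D T h) (mem_cons (W799 D T h) (mem_cons (W7849 D T h) (mem_cons (W3813 D T h) (mem_cons (W3830 D T h) (mem_cons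 (W7851 D T h) (mem_cons (W7852 D T h) (mem_cons (W3749 D T h) (mem_cons (W2265 D T h) (mem_cons (W7854 D T h) (mem_cons (W6428 D T h) (mem_cons (W7855 D T h) mem_nil)))))))))))))))))))))))))))) cl1781
theorem W7856 : WFK w7856 := fun D T h => wf_of_chk h mem_nil (mem_cons (L1781 D T h) mem_nil) cw7856
theorem W7857 : WFK w7857 := fun D T h => wf_of_chk h mem_nil (mem_cons (L209 D T h) mem_nil) cw7857
theorem W7858 : WFK w7858 := fun D T h => wf_of_chk h (mem_cons (W448 D T h) (mem_cons (W16 D T h) mem_nil)) mem_nil cw7858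
theorem W7859 : WFK w7859 := fun D T h => wf_of_chk h (mem_cons (W5375 D T h) (mem_cons (W16 D T h) mem_nil)) mem_nil cw7859
theorem W7860 : WFK w7860 := fun D T h => wf_of_chk h mem_nil (mem_cons (L1433 D T h) mem_nil) cw7860
theorem W7861 : WFK w7861 := fun D T h => wf_of_chk h (mem_cons (W220 D T h) (mem_cons (W7720 D T h) mem_nil)) mem_nil cw7861
theorem W7862 : WFK w7862 := fun D T h => wf_of_chk h (mem_cons (W3766 D T h) (mem_cons (W16 D T h) mem_nil)) mem_nil cw7862
theorem W7863 : WFK w7863 := fun D T h => wf_of_chk h (mem_cons (W6719 D T h) (mem_cons (W16 D T h) mem_nil)) mem_nil cw7863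
theorem W7864 : WFK w7864 := fun D T h => wf_of_chk h (mem_cons (W7114 D T h) (mem_cons (W16 D T h) mem_nil)) mem_nil cw7864
theorem W7865 : WFK w7865 := fun D T h => wf_of_chk h (mem_cons (W162 D T h) (mem_cons (W7720 D T h) mem_nil)) mem_nil cw7865
theorem W7866 : WFK w7866 := fun D T h => wf_of_chk h mem_nil (mem_cons (L1705 D T h) mem_nil) cw7866
theorem W7867 : WFK w7867 := fun D T h => wf_of_chk h (mem_cons (W7490 D T h) (mem_cons (W16 D T h) mem_nil)) mem_nil cw7867
theorem W7868 : WFK w7868 := fun D T h => wf_of_chk h mem_nil (mem_cons (L1705 D T h) mem_nil) cw7868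
theorem W7869 : WFK w7869 := fun D T h => wf_of_chk h (mem_cons (W2525 D T h) (mem_cons (W16 D T h) mem_nil)) mem_nil cw7869
theorem W7870 : WFK w7870 := fun D T h => wf_of_chk h (mem_cons (W162 D T h) (mem_cons (W6719 D T h) mem_nil)) mem_nil cw7870
theorem L1782 : LFK l1782 := fun D T h => lf_of_chk h (mem_cons (W3937 D T h) (mem_cons (W7720 D T h) (mem_cons (W16 D T h) (mem_cons (W6758 D T h) (mem_cons (W6719 D T h) (mem_cons (W2936 D T h) (mem_cons (W2050 D T h) (mem_cons (W2868 D T h) (mem_cons (W2861 D T h) (mem_cons (W2156 D T h) (mem_cons (W2280 D T h) (mem_cons (W7863 D T h) (mem_cons (W5567 D T h) (mem_cons (W7869 D T h) (mem_cons (W7870 D T h) (mem_cons (W2934 D T h) (mem_cons (W284 D T h) (mem_cons (W2157 D T h) (mem_cons (W2405 D T h) (mem_cons (W7867 D T h) (mem_cons (W7868 D T h) (mem_cons (W7517 D T h) (mem_cons (W7866 D T h) (mem_cons (W7862 D T h) (mem_cons (W6969 D T h) (mem_cons (W7857 D T h) (mem_cons (W7858 D T h) (mem_cons (W7864 D T h) (mem_cons (W7865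 D T h) (mem_cons (W7859 D T h) (mem_cons (W1331 D T h) (mem_cons (W2828 D T h) (mem_cons (W7860 D T h) (mem_cons (W7447 D T h) (mem_cons (W7861 D T h) mem_nil))))))))))))))))))))))))))))))))))) cl1782
theorem W7871 : WFK w7871 := fun D T h => wf_of_chk h mem_nil (mem_cons (L1782 D T h) mem_nil) cw7871
theorem W7872 : WFK w7872 := fun D T h => wf_of_chk h (mem_cons (W42 D T h) (mem_cons (W16 D T h) mem_nil)) mem_nil cw7872
theorem W7873 : WFK w7873 := fun D T h => wf_of_chk h (mem_cons (W448 D T h) (mem_cons (W16 D T h) mem_nil)) mem_nil cw7873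
theorem W7874 : WFK w7874 := fun D T h => wf_of_chk h mem_nil (mem_cons (L1633 D T h) mem_nil) cw7874
theorem W7875 : WFK w7875 := fun D T h => wf_of_chk h (mem_cons (W1209 D T h) (mem_cons (W16 D T h) mem_nil)) mem_nil cw7875
theorem W7876 : WFK w7876 := fun D T h => wf_of_chk h (mem_cons (W220 D T h) (mem_cons (W5633 D T h) mem_nil)) mem_nil cw7876
theorem W7877 : WFK w7877 := fun D T h => wf_of_chk h (mem_cons (W6719 D T h) (mem_cons (W16 D T h) mem_nil)) mem_nil cw7877
theorem W7878 : WFK w7878 := fun D T h => wf_of_chk h (mem_cons (W7114 D T h) (mem_cons (W16 D T h) mem_nil)) mem_nil cw7878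
theorem W7879 : WFK w7879 := fun D T h => wf_of_chk h (mem_cons (W162 D T h) (mem_cons (W5633 D T h) mem_nil)) mem_nil cw7879
theorem W7880 : WFK w7880 := fun D T h => wf_of_chk h mem_nil (mem_cons (L1633 D T h) mem_nil) cw7880
theorem W7881 : WFK w7881 := fun D T h => wf_of_chk h (mem_cons (W5655 D T h) (mem_cons (W16 D T h) mem_nil)) mem_nil cw7881
theorem W7882 : WFK w7882 := fun D T h => wf_of_chk h (mem_cons (W5633 D T h) (mem_cons (W16 D T h) mem_nil)) mem_nil cw7882
theorem W7883 : WFK w7883 := fun D T h => wf_of_chk h (mem_cons (W162 D T h) (mem_cons (W6719 D T h) mem_nil)) mem_nil cw7883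
theorem L1783 : LFK l1783 := fun D T h => lf_of_chk h (mem_cons (W2874 D T h) (mem_cons (W16 D T h) (mem_cons (W7720 D T h) (mem_cons (W6719 D T h) (mem_cons (W2709 D T h) (mem_cons (W2936 D T h) (mem_cons (W2861 D T h) (mem_cons (W2050 D T h) (mem_cons (W2051 D T h) (mem_cons (W7880 D T h) (mem_cons (W2157 D T h) (mem_cons (W2192 D T h) (mem_cons (W7877 D T h) (mem_cons (W2868 D T h) (mem_cons (W7878 D T h) (mem_cons (W7883 D T h) (mem_cons (W2934 D T h) (mem_cons (W284 D T h) (mem_cons (W7082 D T h) (mem_cons (W946 D T h) (mem_cons (W1227 D T h) (mem_cons (W7517 D T h) (mem_cons (W7881 D T h) (mem_cons (W7293 D T h) (mem_cons (W7538 D T h) (mem_cons (W7882 D T h) (mem_cons (W6601 D T h) (mem_cons (W6745 D T h) (mem_cons (W7858 D T h) (mem_cons (W7872 D T h) (mem_cons (W7873 D T h) (mem_cons (W7879 D T h) (mem_cons (W2828 D T h) (mem_cons (W1331 D T h) (mem_cons (W7874 D T h) (mem_cons (W7875 D T h) (mem_cons (W7876 D T h) mem_nil))))))))))))))))))))))))))))))))))))) cl1783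
theorem W7884 : WFK w7884 := fun D T h => wf_of_chk h mem_nil (mem_cons (L1783 D T h) mem_nil) cw7884
theorem L1784 : LFK l1784 := fun D T h => lf_of_chk h (mem_cons (W5415 D T h) (mem_cons (W4806 D T h) (mem_cons (W69 D T h) (mem_cons (W2483 D T h) (mem_cons (W411 D T h) (mem_cons (W4805 D T h) (mem_cons (W7171 D T h) (mem_cons (W2203 D T h) (mem_cons (W1842 D T h) (mem_cons (W4807 D T h) (mem_cons (W4808 D T h) mem_nil))))))))))) cl1784
theorem W7885 : WFK w7885 := fun D T h => wf_of_chk h mem_nil (mem_cons (L1784 D T h) mem_nil) cw7885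
theorem W7886 : WFK w7886 := fun D T h => wf_of_chk h (mem_cons (W105 D T h) mem_nil) mem_nil cw7886
theorem L1785 : LFK l1785 := fun D T h => lf_of_chk h (mem_cons (W3019 D T h) (mem_cons (W1070 D T h) (mem_cons (W4803 D T h) (mem_cons (W1588 D T h) (mem_cons (W33 D T h) (mem_cons (W4 D T h) (mem_cons (W220 D T h) (mem_cons (W7886 D T h) (mem_cons (W830 D T h) (mem_cons (W2207 D T h) (mem_cons (W1519 D T h) (mem_cons (W7885 D T h) (mem_cons (W216 D T h) (mem_cons (W7248 D T h) (mem_cons (W4812 D T h) (mem_cons (W4813 D T h) (mem_cons (W3276 D T h) (mem_cons (W4039 D T h) (mem_cons (W6712 D T h) (mem_cons (W538 D T h) mem_nil)))))))))))))))))))) cl1785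
theorem W7887 : WFK w7887 := fun D T h => wf_of_chk h mem_nil (mem_cons (L1785 D T h) mem_nil) cw7887
theorem W7888 : WFK w7888 := fun D T h => wf_of_chk h (mem_cons (W7887 D T h) (mem_cons (W16 D T h) mem_nil)) mem_nil cw7888
theorem W7889 : WFK w7889 := fun D T h => wf_of_chk h (mem_cons (W164 D T h) (mem_cons (W3970 D T h) mem_nil)) mem_nil cw7889
theorem L1786 : LFK l1786 := fun D T h => lf_of_chk h (mem_cons (W7842 D T h) (mem_cons (W3970 D T h) (mem_cons (W7673 D T h) (mem_cons (W7680 D T h) (mem_cons (W16 D T h) (mem_cons (W7698 D T h) (mem_cons (W721 D T h) (mem_cons (W7675 D T h) (mem_cons (W3666 D T h) (mem_cons (W2280 D T h) (mem_cons (W2192 D T h) (mem_cons (W2278 D T h) (mem_cons (W2157 D T h) (mem_cons (W7888 D T h) (mem_cons (W7889 D T h) (mem_cons (W342 D T h) (mem_cons (W341 D T h) (mem_cons (W1533 D T h) (mem_cons (W7212 D T h) (mem_cons (W7820 D T h) (mem_cons (W2219 D T h) (mem_cons (W7693 D T h) mem_nil)))))))))))))))))))))) cl1786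
theorem W7890 : WFK w7890 := fun D T h => wf_of_chk h mem_nil (mem_cons (L1786 D T h) mem_nil) cw7890
theorem L1787 : LFK l1787 := fun D T h => lf_of_chk h (mem_cons (W2178 D T h) (mem_cons (W2683 D T h) (mem_cons (W1 D T h) (mem_cons (W1502 D T h) (mem_cons (W69 D T h) (mem_cons (W284 D T h) (mem_cons (W83 D T h) (mem_cons (W93 D T h) (mem_cons (W4209 D T h) (mem_cons (W6033 D T h) (mem_cons (W7822 D T h) (mem_cons (W91 D T h) (mem_cons (W2175 D T h) (mem_cons (W7805 D T h) (mem_cons (W2177 D T h) (mem_cons (W519 D T h) (mem_cons (W2176 D T h) (mem_cons (W2223 D T h) (mem_cons (W2174 D T h) (mem_cons (W370 D T h) (mem_cons (W111 D T h) (mem_cons (W2234 D T h) (mem_cons (W267 D T h) (mem_cons (W721 D T h) (mem_cons (W114 D T h) mem_nil))))))))))))))))))))))))) cl1787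
theorem W7891 : WFK w7891 := fun D T h => wf_of_chk h mem_nil (mem_cons (L1787 D T h) mem_nil) cw7891
theorem W7892 : WFK w7892 := fun D T h => wf_of_chk h mem_nil (mem_cons (L1787 D T h) mem_nil) cw7892
theorem W7899 : WFK w7899 := fun D T h => wf_of_chk h (mem_cons (W2520 D T h) (mem_cons (W2164 D T h) mem_nil)) mem_nil cw7899
theorem W7900 : WFK w7900 := fun D T h => wf_of_chk h (mem_cons (W7848 D T h) (mem_cons (W162 D T h) mem_nil)) mem_nil cw7900
theorem L1788 : LFK l1788 := fun D T h => lf_of_chk h (mem_cons (W7720 D T h) (mem_cons (W42 D T h) (mem_cons (W164 D T h) (mem_cons (W1312 D T h) (mem_cons (W721 D T h) (mem_cons (W3666 D T h) (mem_cons (W3006 D T h) (mem_cons (W2015 D T h) (mem_cons (W7114 D T h) (mem_cons (W7201 D T h) (mem_cons (W3766 D T h) (mem_cons (W7900 D T h) (mem_cons (W153 D T h) (mem_cons (W6969 D T h) (mem_cons (W5109 D T h) (mem_cons (W3193 D T h) (mem_cons (W5110 D T h) mem_nil))))))))))))))))) cl1788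
theorem W7901 : WFK w7901 := fun D T h => wf_of_chk h mem_nil (mem_cons (L1788 D T h) mem_nil) cw7901
theorem W7902 : WFK w7902 := fun D T h => wf_of_chk h (mem_cons (W3018 D T h) (mem_cons (W16 D T h) mem_nil)) mem_nil cw7902
theorem W7903 : WFK w7903 := fun D T h => wf_of_chk h mem_nil (mem_cons (L273 D T h) mem_nil) cw7903
theorem W7904 : WFK w7904 := fun D T h => wf_of_chk h mem_nil (mem_cons (L512 D T h) mem_nil) cw7904
theorem W7905 : WFK w7905 := fun D T h => wf_of_chk h (mem_cons (W7202 D T h) (mem_cons (W16 D T h) mem_nil)) mem_nil cw7905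
theorem W7906 : WFK w7906 := fun D T h => wf_of_chk h (mem_cons (W126 D T h) (mem_cons (W16 D T h) mem_nil)) mem_nil cw7906
theorem W7907 : WFK w7907 := fun D T h => wf_of_chk h (mem_cons (W581 D T h) mem_nil) mem_nil cw7907
theorem W7908 : WFK w7908 := fun D T h => wf_of_chk h (mem_cons (W7907 D T h) (mem_cons (W16 D T h) mem_nil)) mem_nil cw7908
theorem W7909 : WFK w7909 := fun D T h => wf_of_chk h (mem_cons (W1412 D T h) (mem_cons (W16 D T h) mem_nil)) mem_nil cw7909
theorem W7910 : WFK w7910 := fun D T h => wf_of_chk h (mem_cons (W3664 D T h) mem_nil) mem_nil cw7910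
theorem W7911 : WFK w7911 := fun D T h => wf_of_chk h (mem_cons (W158 D T h) mem_nil) mem_nil cw7911
theorem W7912 : WFK w7912 := fun D T h => wf_of_chk h (mem_cons (W7911 D T h) (mem_cons (W16 D T h) mem_nil)) mem_nil cw7912
theorem L1789 : LFK l1789 := fun D T h => lf_of_chk h (mem_cons (W3688 D T h) (mem_cons (W3824 D T h) (mem_cons (W1 D T h) (mem_cons (W69 D T h) (mem_cons (W418 D T h) (mem_cons (W86 D T h) (mem_cons (W6 D T h) (mem_cons (W3827 D T h) (mem_cons (W411 D T h) (mem_cons (W3884 D T h) (mem_cons (W848 D T h) (mem_cons (W2448 D T h) (mem_cons (W4955 D T h) (mem_cons (W7912 D T h) (mem_cons (W7909 D T h) (mem_cons (W7910 D T h) mem_nil)))))))))))))))) cl1789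
theorem W7913 : WFK w7913 := fun D T h => wf_of_chk h mem_nil (mem_cons (L1789 D T h) mem_nil) cw7913
theorem W7914 : WFK w7914 := fun D T h => wf_of_chk h mem_nil (mem_cons (L1608 D T h) mem_nil) cw7914
theorem W7915 : WFK w7915 := fun D T h => wf_of_chk h mem_nil (mem_cons (L1608 D T h) mem_nil) cw7915
theorem W7917 : WFK w7917 := fun D T h => wf_of_chk h mem_nil (mem_cons (L1225 D T h) mem_nil) cw7917
theorem W7918 : WFK w7918 := fun D T h => wf_of_chk h (mem_cons (W7917 D T h) (mem_cons (W16 D T h) mem_nil)) mem_nil cw7918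
theorem W7919 : WFK w7919 := fun D T h => wf_of_chk h (mem_cons (W1209 D T h) (mem_cons (W178 D T h) mem_nil)) mem_nil cw7919
theorem W7920 : WFK w7920 := fun D T h => wf_of_chk h (mem_cons (W181 D T h) (mem_cons (W434 D T h) mem_nil)) mem_nil cw7920
theorem W7921 : WFK w7921 := fun D T h => wf_of_chk h (mem_cons (W128 D T h) mem_nil) mem_nil cw7921
theorem W7922 : WFK w7922 := fun D T h => wf_of_chk h (mem_cons (W7921 D T h) (mem_cons (W16 D T h) mem_nil)) mem_nil cw7922
theorem W7924 : WFK w7924 := fun D T h => wf_of_chk h mem_nil (mem_cons (L1272 D T h) mem_nil) cw7924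
theorem L1791 : LFK l1791 := fun D T h => lf_of_chk h (mem_cons (W7915 D T h) (mem_cons (W267 D T h) (mem_cons (W15 D T h) (mem_cons (W220 D T h) (mem_cons (W200 D T h) (mem_cons (W3688 D T h) (mem_cons (W11 D T h) (mem_cons (W2448 D T h) (mem_cons (W848 D T h) (mem_cons (W7914 D T h) (mem_cons (W2303 D T h) (mem_cons (W2304 D T h) (mem_cons (W7924 D T h) (mem_cons (W42 D T h) (mem_cons (W164 D T h) (mem_cons (W5469 D T h) mem_nil)))))))))))))))) cl1791
theorem W7925 : WFK w7925 := fun D T h => wf_of_chk h mem_nil (mem_cons (L1791 D T h) mem_nil) cw7925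
theorem L1792 : LFK l1792 := fun D T h => lf_of_chk h (mem_cons (W7915 D T h) (mem_cons (W1576 D T h) (mem_cons (W15 D T h) (mem_cons (W220 D T h) (mem_cons (W17 D T h) (mem_cons (W3688 D T h) (mem_cons (W2309 D T h) (mem_cons (W6360 D T h) mem_nil)))))))) cl1792
theorem W7927 : WFK w7927 := fun D T h => wf_of_chk h mem_nil (mem_cons (L1792 D T h) mem_nil) cw7927
theorem W7928 : WFK w7928 := fun D T h => wf_of_chk h (mem_cons (W126 D T h) (mem_cons (W435 D T h) mem_nil)) mem_nil cw7928
theorem L1793 : LFK l1793 := fun D T h => lf_of_chk h (mem_cons (W7171 D T h) (mem_cons (W381 D T h) mem_nil)) cl1793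
theorem W7930 : WFK w7930 := fun D T h => wf_of_chk h mem_nil (mem_cons (L1793 D T h) mem_nil) cw7930
theorem W7931 : WFK w7931 := fun D T h => wf_of_chk h mem_nil (mem_cons (L1429 D T h) mem_nil) cw7931
theorem W7932 : WFK w7932 := fun D T h => wf_of_chk h mem_nil (mem_cons (L1695 D T h) mem_nil) cw7932
theorem W7933 : WFK w7933 := fun D T h => wf_of_chk h mem_nil (mem_cons (L745 D T h) mem_nil) cw7933
theorem L1794 : LFK l1794 := fun D T h => lf_of_chk h (mem_cons (W3878 D T h) (mem_cons (W128 D T h) (mem_cons (W281 D T h) (mem_cons (W126 D T h) (mem_cons (W69 D T h) (mem_cons (W1636 D T h) (mem_cons (W111 D T h) (mem_cons (W5133 D T h) (mem_cons (W7932 D T h) (mem_cons (W2575 D T h) (mem_cons (W7933 D T h) (mem_cons (W3233 D T h) (mem_cons (W7930 D T h) (mem_cons (W7931 D T h) (mem_cons (W435 D T h) (mem_cons (W5178 D T h) (mem_cons (W5400 D T h) mem_nil))))))))))))))))) cl1794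
theorem W7934 : WFK w7934 := fun D T h => wf_of_chk h mem_nil (mem_cons (L1794 D T h) mem_nil) cw7934
theorem L1795 : LFK l1795 := fun D T h => lf_of_chk h (mem_cons (W2196 D T h) (mem_cons (W128 D T h) (mem_cons (W179 D T h) (mem_cons (W366 D T h) (mem_cons (W7906 D T h) (mem_cons (W251 D T h) (mem_cons (W5072 D T h) (mem_cons (W6032 D T h) (mem_cons (W2266 D T h) (mem_cons (W2265 D T h) (mem_cons (W3234 D T h) (mem_cons (W385 D T h) (mem_cons (W7918 D T h) (mem_cons (W7919 D T h) (mem_cons (W7925 D T h) (mem_cons (W7908 D T h) (mem_cons (W7913 D T h) (mem_cons (W434 D T h) (mem_cons (W435 D T h) (mem_cons (W3878 D T h) (mem_cons (W16 D T h) (mem_cons (W3035 D T h) (mem_cons (W7927 D T h) (mem_cons (W7934 D T h) (mem_cons (W7928 D T h) (mem_cons (W3688 D T h) (mem_cons (W4566 D T h) (mem_cons (W1051 D T h) (mem_cons (W7920 D T h) (mem_cons (W2517 D T h) (mem_cons (W184 D T h) (mem_cons (W535 D T h) (mem_cons (W7922 D T h) (mem_cons (W537 D T h) mem_nil))))))))))))))))))))))))))))))))))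 cl1795
theorem W7935 : WFK w7935 := fun D T h => wf_of_chk h mem_nil (mem_cons (L1795 D T h) mem_nil) cw7935
theorem W7937 : WFK w7937 := fun D T h => wf_of_chk h mem_nil (mem_cons (L1225 D T h) mem_nil) cw7937
theorem W7938 : WFK w7938 := fun D T h => wf_of_chk h (mem_cons (W7937 D T h) (mem_cons (W16 D T h) mem_nil)) mem_nil cw7938
theorem W7939 : WFK w7939 := fun D T h => wf_of_chk h mem_nil (mem_cons (L1791 D T h) mem_nil) cw7939
theorem W7940 : WFK w7940 := fun D T h => wf_of_chk h mem_nil (mem_cons (L1225 D T h) mem_nil) cw7940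
theorem W7941 : WFK w7941 := fun D T h => wf_of_chk h (mem_cons (W7940 D T h) (mem_cons (W16 D T h) mem_nil)) mem_nil cw7941
theorem W7942 : WFK w7942 := fun D T h => wf_of_chk h mem_nil (mem_cons (L1470 D T h) mem_nil) cw7942
theorem W7943 : WFK w7943 := fun D T h => wf_of_chk h (mem_cons (W69 D T h) (mem_cons (W7942 D T h) mem_nil)) mem_nil cw7943
theorem W7944 : WFK w7944 := fun D T h => wf_of_chk h (mem_cons (W105 D T h) (mem_cons (W7942 D T h) mem_nil)) mem_nil cw7944
theorem W7945 : WFK w7945 := fun D T h => wf_of_chk h (mem_cons (W521 D T h) (mem_cons (W7942 D T h) mem_nil)) mem_nil cw7945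
theorem W7946 : WFK w7946 := fun D T h => wf_of_chk h (mem_cons (W616 D T h) (mem_cons (W7942 D T h) mem_nil)) mem_nil cw7946
theorem W7947 : WFK w7947 := fun D T h => wf_of_chk h (mem_cons (W6891 D T h) (mem_cons (W16 D T h) mem_nil)) mem_nil cw7947
theorem W7948 : WFK w7948 := fun D T h => wf_of_chk h (mem_cons (W93 D T h) (mem_cons (W7942 D T h) mem_nil)) mem_nil cw7948
theorem L1796 : LFK l1796 := fun D T h => lf_of_chk h (mem_cons (W7762 D T h) (mem_cons (W230 D T h) (mem_cons (W7942 D T h) (mem_cons (W144 D T h) (mem_cons (W536 D T h) (mem_cons (W535 D T h) (mem_cons (W537 D T h) (mem_cons (W1133 D T h) (mem_cons (W3032 D T h) (mem_cons (W3043 D T h) (mem_cons (W7790 D T h) (mem_cons (W5633 D T h) (mem_cons (W7495 D T h) (mem_cons (W3830 D T h) (mem_cons (W7788 D T h) (mem_cons (W7789 D T h) (mem_cons (W5258 D T h) (mem_cons (W16 D T h) (mem_cons (W4038 D T h) (mem_cons (W7943 D T h) (mem_cons (W2015 D T h) (mem_cons (W7948 D T h) (mem_cons (W7800 D T h) (mem_cons (W2709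 D T h) (mem_cons (W2037 D T h) (mem_cons (W7944 D T h) (mem_cons (W4632 D T h) (mem_cons (W521 D T h) (mem_cons (W128 D T h) (mem_cons (W7794 D T h) (mem_cons (W7945 D T h) (mem_cons (W7797 D T h) (mem_cons (W7946 D T h) (mem_cons (W2892 D T h) (mem_cons (W2185 D T h) (mem_cons (W3356 D T h) (mem_cons (W7947 D T h) mem_nil))))))))))))))))))))))))))))))))))))) cl1796
theorem W7949 : WFK w7949 := fun D T h => wf_of_chk h mem_nil (mem_cons (L1796 D T h) mem_nil) cw7949
theorem W7950 : WFK w7950 := fun D T h => wf_of_chk h mem_nil (mem_cons (L879 D T h) mem_nil) cw7950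
theorem W7951 : WFK w7951 := fun D T h => wf_of_chk h (mem_cons (W16 D T h) (mem_cons (W162 D T h) mem_nil)) mem_nil cw7951
theorem W7952 : WFK w7952 := fun D T h => wf_of_chk h (mem_cons (W7951 D T h) (mem_cons (W1063 D T h) mem_nil)) mem_nil cw7952
theorem L1797 : LFK l1797 := fun D T h => lf_of_chk h (mem_cons (W2281 D T h) (mem_cons (W2683 D T h) (mem_cons (W16 D T h) (mem_cons (W2164 D T h) (mem_cons (W1502 D T h) (mem_cons (W284 D T h) (mem_cons (W682 D T h) (mem_cons (W1210 D T h) (mem_cons (W1291 D T h) (mem_cons (W7950 D T h) (mem_cons (W7952 D T h) (mem_cons (W2934 D T h) (mem_cons (W7905 D T h) (mem_cons (W7631 D T h) (mem_cons (W50 D T h) (mem_cons (W5194 D T h) (mem_cons (W7935 D T h) (mem_cons (W7949 D T h) (mem_cons (W1346 D T h) (mem_cons (W2246 D T h) (mem_cons (W2273 D T h) (mem_cons (W7852 D T h) (mem_cons (W7902 D T h) (mem_cons (W2219 D T h) (mem_cons (W7903 D T h) (mem_cons (W5248 D T h) (mem_cons (W7904 D T h) (mem_cons (W4022 D T h) (mem_cons (W2185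 D T h) (mem_cons (W2188 D T h) (mem_cons (W7762 D T h) (mem_cons (W2187 D T h) (mem_cons (W7899 D T h) (mem_cons (W7661 D T h) (mem_cons (W2015 D T h) (mem_cons (W2221 D T h) (mem_cons (W7901 D T h) (mem_cons (W2263 D T h) (mem_cons (W2037 D T h) (mem_cons (W2173 D T h) (mem_cons (W2178 D T h) (mem_cons (W128 D T h) (mem_cons (W7890 D T h) (mem_cons (W7891 D T h) (mem_cons (W7892 D T h) mem_nil))))))))))))))))))))))))))))))))))))))))))))) cl1797
theorem W7953 : WFK w7953 := fun D T h => wf_of_chk h mem_nil (mem_cons (L1797 D T h) mem_nil) cw7953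
theorem W7954 : WFK w7954 := fun D T h => wf_of_chk h mem_nil (mem_cons (L1740 D T h) mem_nil) cw7954
theorem W7955 : WFK w7955 := fun D T h => wf_of_chk h (mem_cons (W1637 D T h) (mem_cons (W162 D T h) mem_nil)) mem_nil cw7955
theorem W7956 : WFK w7956 := fun D T h => wf_of_chk h mem_nil (mem_cons (L141 D T h) mem_nil) cw7956
theorem L1798 : LFK l1798 := fun D T h => lf_of_chk h (mem_cons (W7212 D T h) (mem_cons (W167 D T h) (mem_cons (W1 D T h) (mem_cons (W162 D T h) (mem_cons (W69 D T h) (mem_cons (W815 D T h) (mem_cons (W2566 D T h) (mem_cons (W111 D T h) (mem_cons (W762 D T h) (mem_cons (W7955 D T h) (mem_cons (W2575 D T h) (mem_cons (W2576 D T h) (mem_cons (W5448 D T h) (mem_cons (W341 D T h) (mem_cons (W7956 D T h) (mem_cons (W3016 D T h) (mem_cons (W3207 D T h) (mem_cons (W4028 D T h) mem_nil)))))))))))))))))) cl1798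
theorem W7957 : WFK w7957 := fun D T h => wf_of_chk h mem_nil (mem_cons (L1798 D T h) mem_nil) cw7957
theorem W7958 : WFK w7958 := fun D T h => wf_of_chk h (mem_cons (W1311 D T h) (mem_cons (W34 D T h) mem_nil)) mem_nil cw7958
theorem W7959 : WFK w7959 := fun D T h => wf_of_chk h mem_nil (mem_cons (L338 D T h) mem_nil) cw7959
theorem W7960 : WFK w7960 := fun D T h => wf_of_chk h (mem_cons (W111 D T h) (mem_cons (W34 D T h) mem_nil)) mem_nil cw7960
theorem L1799 : LFK l1799 := fun D T h => lf_of_chk h (mem_cons (W1903 D T h) (mem_cons (W5634 D T h) (mem_cons (W925 D T h) (mem_cons (W42 D T h) (mem_cons (W162 D T h) (mem_cons (W721 D T h) (mem_cons (W7959 D T h) (mem_cons (W7960 D T h) (mem_cons (W431 D T h) (mem_cons (W3193 D T h) (mem_cons (W6916 D T h) (mem_cons (W4573 D T h) (mem_cons (W7958 D T h) mem_nil))))))))))))) cl1799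
theorem W7961 : WFK w7961 := fun D T h => wf_of_chk h mem_nil (mem_cons (L1799 D T h) mem_nil) cw7961
theorem W7962 : WFK w7962 := fun D T h => wf_of_chk h (mem_cons (W16 D T h) (mem_cons (W162 D T h) mem_nil)) mem_nil cw7962
theorem W7963 : WFK w7963 := fun D T h => wf_of_chk h (mem_cons (W901 D T h) (mem_cons (W7962 D T h) mem_nil)) mem_nil cw7963
theorem W7964 : WFK w7964 := fun D T h => wf_of_chk h (mem_cons (W7962 D T h) mem_nil) mem_nil cw7964
theorem W7965 : WFK w7965 := fun D T h => wf_of_chk h (mem_cons (W75 D T h) (mem_cons (W167 D T h) mem_nil)) mem_nil cw7965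
theorem W7966 : WFK w7966 := fun D T h => wf_of_chk h (mem_cons (W1108 D T h) (mem_cons (W167 D T h) mem_nil)) mem_nil cw7966
theorem W7967 : WFK w7967 := fun D T h => wf_of_chk h (mem_cons (W91 D T h) (mem_cons (W7962 D T h) mem_nil)) mem_nil cw7967
theorem L1800 : LFK l1800 := fun D T h => lf_of_chk h (mem_cons (W4209 D T h) (mem_cons (W7957 D T h) (mem_cons (W1 D T h) (mem_cons (W1310 D T h) (mem_cons (W3565 D T h) (mem_cons (W83 D T h) (mem_cons (W93 D T h) (mem_cons (W4566 D T h) (mem_cons (W91 D T h) (mem_cons (W7965 D T h) (mem_cons (W80 D T h) (mem_cons (W7966 D T h) (mem_cons (W4259 D T h) (mem_cons (W7967 D T h) (mem_cons (W521 D T h) (mem_cons (W7964 D T h) (mem_cons (W370 D T h) (mem_cons (W111 D T h) (mem_cons (W2261 D T h) (mem_cons (W267 D T h) (mem_cons (W721 D T h) (mem_cons (W114 D T h) (mem_cons (W2178 D T h) mem_nil))))))))))))))))))))))) cl1800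
theorem W7968 : WFK w7968 := fun D T h => wf_of_chk h mem_nil (mem_cons (L1800 D T h) mem_nil) cw7968
theorem W7969 : WFK w7969 := fun D T h => wf_of_chk h (mem_cons (W167 D T h) mem_nil) mem_nil cw7969
theorem W7970 : WFK w7970 := fun D T h => wf_of_chk h (mem_cons (W7969 D T h) (mem_cons (W16 D T h) mem_nil)) mem_nil cw7970
theorem W7971 : WFK w7971 := fun D T h => wf_of_chk h (mem_cons (W368 D T h) (mem_cons (W167 D T h) mem_nil)) mem_nil cw7971
theorem W7972 : WFK w7972 := fun D T h => wf_of_chk h (mem_cons (W7971 D T h) (mem_cons (W16 D T h) mem_nil)) mem_nil cw7972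
theorem W7973 : WFK w7973 := fun D T h => wf_of_chk h (mem_cons (W2520 D T h) (mem_cons (W7962 D T h) mem_nil)) mem_nil cw7973
theorem W7974 : WFK w7974 := fun D T h => wf_of_chk h (mem_cons (W34 D T h) (mem_cons (W7962 D T h) mem_nil)) mem_nil cw7974
theorem W7975 : WFK w7975 := fun D T h => wf_of_chk h (mem_cons (W1063 D T h) (mem_cons (W162 D T h) mem_nil)) mem_nil cw7975
theorem W7976 : WFK w7976 := fun D T h => wf_of_chk h (mem_cons (W162 D T h) (mem_cons (W7975 D T h) mem_nil)) mem_nil cw7976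
theorem W7978 : WFK w7978 := fun D T h => wf_of_chk h (mem_cons (W3750 D T h) (mem_cons (W167 D T h) mem_nil)) mem_nil cw7978
theorem W7979 : WFK w7979 := fun D T h => wf_of_chk h mem_nil mem_nil cw7979
theorem L1801 : LFK l1801 := fun D T h => lf_of_chk h (mem_cons (W407 D T h) (mem_cons (W30 D T h) (mem_cons (W7979 D T h) mem_nil))) cl1801
theorem W7980 : WFK w7980 := fun D T h => wf_of_chk h mem_nil (mem_cons (L1801 D T h) mem_nil) cw7980
theorem L1802 : LFK l1802 := fun D T h => lf_of_chk h (mem_cons (W5841 D T h) (mem_cons (W3 D T h) (mem_cons (W39 D T h) (mem_cons (W6960 D T h) (mem_cons (W6774 D T h) (mem_cons (W783 D T h) (mem_cons (W717 D T h) (mem_cons (W2082 D T h) (mem_cons (W1473 D T h) (mem_cons (W3383 D T h) (mem_cons (W1919 D T h) mem_nil))))))))))) cl1802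
theorem W7981 : WFK w7981 := fun D T h => wf_of_chk h mem_nil (mem_cons (L1802 D T h) mem_nil) cw7981
theorem L1803 : LFK l1803 := fun D T h => lf_of_chk h mem_nil cl1803
theorem W7982 : WFK w7982 := fun D T h => wf_of_chk h mem_nil (mem_cons (L1803 D T h) mem_nil) cw7982
theorem L1804 : LFK l1804 := fun D T h => lf_of_chk h (mem_cons (W7259 D T h) (mem_cons (W259 D T h) (mem_cons (W42 D T h) (mem_cons (W162 D T h) (mem_cons (W3 D T h) (mem_cons (W39 D T h) (mem_cons (W6647 D T h) (mem_cons (W721 D T h) (mem_cons (W7982 D T h) (mem_cons (W154 D T h) (mem_cons (W1535 D T h) (mem_cons (W7980 D T h) (mem_cons (W4645 D T h) (mem_cons (W989 D T h) (mem_cons (W988 D T h) (mem_cons (W7981 D T h) mem_nil)))))))))))))))) cl1804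
theorem W7983 : WFK w7983 := fun D T h => wf_of_chk h mem_nil (mem_cons (L1804 D T h) mem_nil) cw7983
theorem W7984 : WFK w7984 := fun D T h => wf_of_chk h (mem_cons (W7983 D T h) (mem_cons (W16 D T h) mem_nil)) mem_nil cw7984
theorem W7985 : WFK w7985 := fun D T h => wf_of_chk h mem_nil (mem_cons (L1798 D T h) mem_nil) cw7985
theorem W7986 : WFK w7986 := fun D T h => wf_of_chk h (mem_cons (W162 D T h) mem_nil) mem_nil cw7986
theorem L1805 : LFK l1805 := fun D T h => lf_of_chk h (mem_cons (W721 D T h) (mem_cons (W42 D T h) (mem_cons (W6714 D T h) (mem_cons (W162 D T h) (mem_cons (W3 D T h) (mem_cons (W1409 D T h) (mem_cons (W39 D T h) (mem_cons (W652 D T h) (mem_cons (W86 D T h) (mem_cons (W750 D T h) (mem_cons (W1560 D T h) (mem_cons (W1092 D T h) (mem_cons (W7986 D T h) (mem_cons (W748 D T h) (mem_cons (W258 D T h) (mem_cons (W746 D T h) (mem_cons (W747 D T h) (mem_cons (W937 D T h) (mem_cons (W263 D T h) (mem_cons (W815 D T h) (mem_cons (W762 D T h) mem_nil)))))))))))))))))))))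 cl1805
theorem W7987 : WFK w7987 := fun D T h => wf_of_chk h mem_nil (mem_cons (L1805 D T h) mem_nil) cw7987
theorem L1806 : LFK l1806 := fun D T h => lf_of_chk h (mem_cons (W5072 D T h) (mem_cons (W167 D T h) (mem_cons (W179 D T h) (mem_cons (W366 D T h) (mem_cons (W162 D T h) (mem_cons (W721 D T h) (mem_cons (W2191 D T h) (mem_cons (W2265 D T h) (mem_cons (W7938 D T h) (mem_cons (W385 D T h) (mem_cons (W7918 D T h) (mem_cons (W7941 D T h) (mem_cons (W449 D T h) (mem_cons (W341 D T h) (mem_cons (W7212 D T h) (mem_cons (W16 D T h) (mem_cons (W7821 D T h) (mem_cons (W7985 D T h) (mem_cons (W4980 D T h) (mem_cons (W7987 D T h) (mem_cons (W83 D T h) (mem_cons (W241 D T h) (mem_cons (W7984 D T h) (mem_cons (W2517 D T h) (mem_cons (W535 D T h) (mem_cons (W3237 D T h) (mem_cons (W537 D T h) mem_nil))))))))))))))))))))))))))) cl1806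
theorem W7988 : WFK w7988 := fun D T h => wf_of_chk h mem_nil (mem_cons (L1806 D T h) mem_nil) cw7988
theorem W7989 : WFK w7989 := fun D T h => wf_of_chk h (mem_cons (W2274 D T h) (mem_cons (W162 D T h) mem_nil)) mem_nil cw7989

end Pool.Agent.W319.GCI.K5
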