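import Pool.Agent.W319.GCI.K5A6
set_option autoImplicit false
set_option maxRecDepth 100000
set_option linter.all false
namespace Pool.Agent.W319.GCI.K5
open Pool.Agent.W319.GCI

theorem W7990 : WFK w7990 := fun D T h => wf_of_chk h (mem_cons (W2276 D T h) (mem_cons (W162 D T h) mem_nil)) mem_nil cw7990
theorem L1807 : LFK l1807 := fun D T h => lf_of_chk h (mem_cons (W2062 D T h) (mem_cons (W7957 D T h) (mem_cons (W16 D T h) (mem_cons (W7962 D T h) (mem_cons (W1310 D T h) (mem_cons (W2037 D T h) (mem_cons (W682 D T h) (mem_cons (W1068 D T h) (mem_cons (W2015 D T h) (mem_cons (W1291 D T h) (mem_cons (W3266 D T h) (mem_cons (W1362 D T h) (mem_cons (W5634 D T h) (mem_cons (W7495 D T h) (mem_cons (W7853 D T h) (mem_cons (W7989 D T h) (mem_cons (W7990 D T h) (mem_cons (W3262 D T h) (mem_cons (W7952 D T h) (mem_cons (W3229 D T h) (mem_cons (W5072 D T h) (mem_cons (W7903 D T h) (mem_cons (W5344 D T h) (mem_cons (W7978 D T h) (mem_cons (W7988 D T h) (mem_cons (W799 D T h) (mem_cons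 (W7970 D T h) (mem_cons (W2188 D T h) (mem_cons (W2189 D T h) (mem_cons (W7972 D T h) (mem_cons (W7973 D T h) (mem_cons (W7961 D T h) (mem_cons (W7974 D T h) (mem_cons (W7976 D T h) (mem_cons (W2709 D T h) (mem_cons (W2173 D T h) (mem_cons (W4209 D T h) (mem_cons (W128 D T h) (mem_cons (W7963 D T h) (mem_cons (W7968 D T h) mem_nil)))))))))))))))))))))))))))))))))))))))) cl1807
theorem W7991 : WFK w7991 := fun D T h => wf_of_chk h mem_nil (mem_cons (L1807 D T h) mem_nil) cw7991
theorem L1808 : LFK l1808 := fun D T h => lf_of_chk h (mem_cons (W7212 D T h) (mem_cons (W284 D T h) (mem_cons (W1 D T h) (mem_cons (W16 D T h) (mem_cons (W815 D T h) (mem_cons (W2566 D T h) (mem_cons (W228 D T h) (mem_cons (W762 D T h) (mem_cons (W3770 D T h) (mem_cons (W341 D T h) (mem_cons (W1635 D T h) (mem_cons (W1533 D T h) mem_nil)))))))))))) cl1808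
theorem W7992 : WFK w7992 := fun D T h => wf_of_chk h mem_nil (mem_cons (L1808 D T h) mem_nil) cw7992
theorem L1809 : LFK l1809 := fun D T h => lf_of_chk h (mem_cons (W1346 D T h) (mem_cons (W929 D T h) (mem_cons (W42 D T h) (mem_cons (W16 D T h) (mem_cons (W925 D T h) (mem_cons (W5634 D T h) (mem_cons (W2171 D T h) (mem_cons (W431 D T h) (mem_cons (W5673 D T h) (mem_cons (W5585 D T h) (mem_cons (W5655 D T h) (mem_cons (W7660 D T h) (mem_cons (W4573 D T h) (mem_cons (W6916 D T h) (mem_cons (W1690 D T h) (mem_cons (W721 D T h) (mem_cons (W5633 D T h) mem_nil))))))))))))))))) cl1809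
theorem W7993 : WFK w7993 := fun D T h => wf_of_chk h mem_nil (mem_cons (L1809 D T h) mem_nil) cw7993
theorem W7994 : WFK w7994 := fun D T h => wf_of_chk h mem_nil (mem_cons (L891 D T h) mem_nil) cw7994
theorem L1810 : LFK l1810 := fun D T h => lf_of_chk h (mem_cons (W7842 D T h) (mem_cons (W3970 D T h) (mem_cons (W7673 D T h) (mem_cons (W4209 D T h) (mem_cons (W16 D T h) (mem_cons (W7698 D T h) (mem_cons (W721 D T h) (mem_cons (W7675 D T h) (mem_cons (W7889 D T h) (mem_cons (W7677 D T h) (mem_cons (W7994 D T h) (mem_cons (W2278 D T h) (mem_cons (W7679 D T h) (mem_cons (W342 D T h) (mem_cons (W341 D T h) (mem_cons (W7212 D T h) (mem_cons (W7820 D T h) (mem_cons (W2219 D T h) (mem_cons (W1533 D T h) (mem_cons (W7693 D T h) mem_nil)))))))))))))))))))) cl1810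
theorem W7995 : WFK w7995 := fun D T h => wf_of_chk h mem_nil (mem_cons (L1810 D T h) mem_nil) cw7995
theorem W7996 : WFK w7996 := fun D T h => wf_of_chk h (mem_cons (W16 D T h) mem_nil) mem_nil cw7996
theorem W7997 : WFK w7997 := fun D T h => wf_of_chk h (mem_cons (W7996 D T h) mem_nil) mem_nil cw7997
theorem L1811 : LFK l1811 := fun D T h => lf_of_chk h (mem_cons (W2178 D T h) (mem_cons (W7992 D T h) (mem_cons (W1 D T h) (mem_cons (W1502 D T h) (mem_cons (W69 D T h) (mem_cons (W3565 D T h) (mem_cons (W83 D T h) (mem_cons (W93 D T h) (mem_cons (W4209 D T h) (mem_cons (W7822 D T h) (mem_cons (W91 D T h) (mem_cons (W2175 D T h) (mem_cons (W80 D T h) (mem_cons (W2177 D T h) (mem_cons (W519 D T h) (mem_cons (W5912 D T h) (mem_cons (W2223 D T h) (mem_cons (W7997 D T h) (mem_cons (W370 D T h) (mem_cons (W111 D T h) (mem_cons (W2234 D T h) (mem_cons (W267 D T h) (mem_cons (W721 D T h) (mem_cons (W114 D T h) mem_nil)))))))))))))))))))))))) cl1811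
theorem W7998 : WFK w7998 := fun D T h => wf_of_chk h mem_nil (mem_cons (L1811 D T h) mem_nil) cw7998
theorem W7999 : WFK w7999 := fun D T h => wf_of_chk h mem_nil (mem_cons (L1811 D T h) mem_nil) cw7999
theorem L1812 : LFK l1812 := fun D T h => lf_of_chk h (mem_cons (W2219 D T h) (mem_cons (W284 D T h) (mem_cons (W179 D T h) (mem_cons (W250 D T h) (mem_cons (W16 D T h) (mem_cons (W249 D T h) (mem_cons (W2193 D T h) (mem_cons (W7827 D T h) (mem_cons (W2269 D T h) (mem_cons (W6360 D T h) (mem_cons (W209 D T h) (mem_cons (W721 D T h) (mem_cons (W2191 D T h) (mem_cons (W2190 D T h) (mem_cons (W2280 D T h) (mem_cons (W3571 D T h) (mem_cons (W2278 D T h) (mem_cons (W7994 D T h) (mem_cons (W342 D T h) (mem_cons (W341 D T h) (mem_cons (W1533 D T h) (mem_cons (W7820 D T h) (mem_cons (W7693 D T h) mem_nil))))))))))))))))))))))) cl1812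
theorem W8000 : WFK w8000 := fun D T h => wf_of_chk h mem_nil (mem_cons (L1812 D T h) mem_nil) cw8000
theorem W8001 : WFK w8001 := fun D T h => wf_of_chk h (mem_cons (W34 D T h) (mem_cons (W7996 D T h) mem_nil)) mem_nil cw8001
theorem W8002 : WFK w8002 := fun D T h => wf_of_chk h (mem_cons (W817 D T h) (mem_cons (W7996 D T h) mem_nil)) mem_nil cw8002
theorem W8003 : WFK w8003 := fun D T h => wf_of_chk h (mem_cons (W125 D T h) (mem_cons (W7996 D T h) mem_nil)) mem_nil cw8003
theorem W8004 : WFK w8004 := fun D T h => wf_of_chk h (mem_cons (W22 D T h) (mem_cons (W7996 D T h) mem_nil)) mem_nil cw8004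
theorem W8005 : WFK w8005 := fun D T h => wf_of_chk h (mem_cons (W2219 D T h) (mem_cons (W112 D T h) mem_nil)) mem_nil cw8005
theorem W8006 : WFK w8006 := fun D T h => wf_of_chk h (mem_cons (W6436 D T h) (mem_cons (W112 D T h) mem_nil)) mem_nil cw8006
theorem W8008 : WFK w8008 := fun D T h => wf_of_chk h mem_nil (mem_cons (L379 D T h) mem_nil) cw8008
theorem W8009 : WFK w8009 := fun D T h => wf_of_chk h (mem_cons (W2015 D T h) (mem_cons (W2257 D T h) mem_nil)) mem_nil cw8009
theorem W8010 : WFK w8010 := fun D T h => wf_of_chk h (mem_cons (W42 D T h) (mem_cons (W2257 D T h) mem_nil)) mem_nil cw8010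
theorem W8011 : WFK w8011 := fun D T h => wf_of_chk h (mem_cons (W7223 D T h) (mem_cons (W112 D T h) mem_nil)) mem_nil cw8011
theorem L1813 : LFK l1813 := fun D T h => lf_of_chk h (mem_cons (W2234 D T h) (mem_cons (W7992 D T h) (mem_cons (W161 D T h) (mem_cons (W1502 D T h) (mem_cons (W112 D T h) (mem_cons (W284 D T h) (mem_cons (W1447 D T h) (mem_cons (W2228 D T h) (mem_cons (W1161 D T h) (mem_cons (W16 D T h) (mem_cons (W1291 D T h) (mem_cons (W2260 D T h) (mem_cons (W8009 D T h) (mem_cons (W8010 D T h) (mem_cons (W8011 D T h) (mem_cons (W8008 D T h) (mem_cons (W2253 D T h) (mem_cons (W50 D T h) (mem_cons (W2256 D T h) (mem_cons (W8006 D T h) (mem_cons (W2258 D T h) (mem_cons (W5634 D T h) (mem_cons (W7495 D T h) (mem_cons (W2245 D T h) (mem_cons (W2248 D T h) (mem_cons (W2250 D T h) (mem_cons (W7837 D T h) (mem_cons (W2252 D T h) (mem_cons (W6033 D T h) (mem_cons (W7822 D T h) (mem_cons (W2231 D T h) (mem_cons (W5914 D T h) (mem_cons (W8005 D T h) (mem_cons (W5248 D T h)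 (mem_cons (W817 D T h) (mem_cons (W2175 D T h) (mem_cons (W7805 D T h) (mem_cons (W2177 D T h) (mem_cons (W519 D T h) (mem_cons (W8002 D T h) (mem_cons (W2223 D T h) (mem_cons (W7997 D T h) (mem_cons (W370 D T h) (mem_cons (W111 D T h) (mem_cons (W401 D T h) (mem_cons (W1409 D T h) (mem_cons (W4459 D T h) (mem_cons (W8003 D T h) (mem_cons (W8004 D T h) (mem_cons (W7833 D T h) mem_nil)))))))))))))))))))))))))))))))))))))))))))))))))) cl1813
theorem W8012 : WFK w8012 := fun D T h => wf_of_chk h mem_nil (mem_cons (L1813 D T h) mem_nil) cw8012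
theorem L1814 : LFK l1814 := fun D T h => lf_of_chk h (mem_cons (W5072 D T h) (mem_cons (W284 D T h) (mem_cons (W179 D T h) (mem_cons (W366 D T h) (mem_cons (W16 D T h) (mem_cons (W721 D T h) (mem_cons (W2191 D T h) (mem_cons (W2190 D T h) (mem_cons (W3780 D T h) (mem_cons (W342 D T h) (mem_cons (W341 D T h) (mem_cons (W7212 D T h) (mem_cons (W7820 D T h) (mem_cons (W2219 D T h) (mem_cons (W241 D T h) (mem_cons (W7693 D T h) mem_nil)))))))))))))))) cl1814
theorem W8013 : WFK w8013 := fun D T h => wf_of_chk h mem_nil (mem_cons (L1814 D T h) mem_nil) cw8013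
theorem L1815 : LFK l1815 := fun D T h => lf_of_chk h (mem_cons (W7905 D T h) (mem_cons (W7992 D T h) (mem_cons (W16 D T h) (mem_cons (W7996 D T h) (mem_cons (W1502 D T h) (mem_cons (W284 D T h) (mem_cons (W682 D T h) (mem_cons (W1068 D T h) (mem_cons (W1291 D T h) (mem_cons (W2062 D T h) (mem_cons (W3266 D T h) (mem_cons (W50 D T h) (mem_cons (W5634 D T h) (mem_cons (W7495 D T h) (mem_cons (W7852 D T h) (mem_cons (W7902 D T h) (mem_cons (W5072 D T h) (mem_cons (W2231 D T h) (mem_cons (W5248 D T h) (mem_cons (W8013 D T h) (mem_cons (W8000 D T h) (mem_cons (W4022 D T h) (mem_cons (W2185 D T h) (mem_cons (W2188 D T h) (mem_cons (W2189 D T h) (mem_cons (W2187 D T h) (mem_cons (W7993 D T h) (mem_cons (W2015 D T h) (mem_cons (W8001 D T h) (mem_cons (W8012 D T h) (mem_cons (W2709 D T h) (mem_cons (W2037 D T h) (mem_cons (W2173 D T h) (mem_cons (W2178 D T h) (mem_cons (W128 D T h) (mem_cons (W7995 D T h) (mem_cons (W7998 D T h) (mem_cons (W7999 D T h) mem_nil))))))))))))))))))))))))))))))))))))))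 cl1815
theorem W8014 : WFK w8014 := fun D T h => wf_of_chk h mem_nil (mem_cons (L1815 D T h) mem_nil) cw8014
theorem W8015 : WFK w8015 := fun D T h => wf_of_chk h mem_nil (mem_cons (L1389 D T h) mem_nil) cw8015
theorem W8016 : WFK w8016 := fun D T h => wf_of_chk h (mem_cons (W368 D T h) (mem_cons (W3035 D T h) mem_nil)) mem_nil cw8016
theorem L1816 : LFK l1816 := fun D T h => lf_of_chk h (mem_cons (W1346 D T h) (mem_cons (W42 D T h) (mem_cons (W16 D T h) (mem_cons (W7114 D T h) (mem_cons (W5634 D T h) (mem_cons (W5672 D T h) (mem_cons (W8016 D T h) (mem_cons (W431 D T h) (mem_cons (W5673 D T h) (mem_cons (W5585 D T h) (mem_cons (W5655 D T h) (mem_cons (W799 D T h) (mem_cons (W1193 D T h) (mem_cons (W6719 D T h) (mem_cons (W929 D T h) (mem_cons (W1690 D T h) (mem_cons (W1620 D T h) (mem_cons (W5633 D T h) mem_nil)))))))))))))))))) cl1816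
theorem W8017 : WFK w8017 := fun D T h => wf_of_chk h mem_nil (mem_cons (L1816 D T h) mem_nil) cw8017
theorem W8018 : WFK w8018 := fun D T h => wf_of_chk h (mem_cons (W126 D T h) (mem_cons (W1502 D T h) mem_nil)) mem_nil cw8018
theorem W8019 : WFK w8019 := fun D T h => wf_of_chk h (mem_cons (W1502 D T h) mem_nil) mem_nil cw8019
theorem W8020 : WFK w8020 := fun D T h => wf_of_chk h (mem_cons (W6095 D T h) (mem_cons (W284 D T h) mem_nil)) mem_nil cw8020
theorem W8021 : WFK w8021 := fun D T h => wf_of_chk h (mem_cons (W367 D T h) (mem_cons (W16 D T h) mem_nil)) mem_nil cw8021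
theorem L1817 : LFK l1817 := fun D T h => lf_of_chk h (mem_cons (W4209 D T h) (mem_cons (W1642 D T h) (mem_cons (W1 D T h) (mem_cons (W1502 D T h) (mem_cons (W69 D T h) (mem_cons (W284 D T h) (mem_cons (W83 D T h) (mem_cons (W1501 D T h) (mem_cons (W2181 D T h) (mem_cons (W91 D T h) (mem_cons (W2175 D T h) (mem_cons (W7805 D T h) (mem_cons (W8020 D T h) (mem_cons (W4259 D T h) (mem_cons (W5912 D T h) (mem_cons (W2223 D T h) (mem_cons (W8019 D T h) (mem_cons (W370 D T h) (mem_cons (W111 D T h) (mem_cons (W2234 D T h) (mem_cons (W267 D T h) (mem_cons (W721 D T h) (mem_cons (W114 D T h) (mem_cons (W8021 D T h) mem_nil)))))))))))))))))))))))) cl1817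
theorem W8022 : WFK w8022 := fun D T h => wf_of_chk h mem_nil (mem_cons (L1817 D T h) mem_nil) cw8022
theorem W8023 : WFK w8023 := fun D T h => wf_of_chk h mem_nil (mem_cons (L1817 D T h) mem_nil) cw8023
theorem W8024 : WFK w8024 := fun D T h => wf_of_chk h (mem_cons (W1184 D T h) (mem_cons (W1502 D T h) mem_nil)) mem_nil cw8024
theorem W8025 : WFK w8025 := fun D T h => wf_of_chk h (mem_cons (W16 D T h) mem_nil) mem_nil cw8025
theorem L1818 : LFK l1818 := fun D T h => lf_of_chk h (mem_cons (W5841 D T h) (mem_cons (W12 D T h) (mem_cons (W5358 D T h) (mem_cons (W767 D T h) (mem_cons (W216 D T h) (mem_cons (W1120 D T h) (mem_cons (W2474 D T h) (mem_cons (W1919 D T h) (mem_cons (W39 D T h) (mem_cons (W3 D T h) mem_nil)))))))))) cl1818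
theorem W8039 : WFK w8039 := fun D T h => wf_of_chk h mem_nil (mem_cons (L261 D T h) mem_nil) cw8039
theorem L1820 : LFK l1820 := fun D T h => lf_of_chk h (mem_cons (W12 D T h) (mem_cons (W828 D T h) (mem_cons (W827 D T h) (mem_cons (W861 D T h) (mem_cons (W1246 D T h) mem_nil))))) cl1820
theorem W8040 : WFK w8040 := fun D T h => wf_of_chk h mem_nil (mem_cons (L1820 D T h) mem_nil) cw8040
theorem W8043 : WFK w8043 := fun D T h => wf_of_chk h (mem_cons (W7018 D T h) (mem_cons (W284 D T h) mem_nil)) mem_nil cw8043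
theorem W8044 : WFK w8044 := fun D T h => wf_of_chk h mem_nil (mem_cons (L554 D T h) mem_nil) cw8044
theorem W8045 : WFK w8045 := fun D T h => wf_of_chk h (mem_cons (W1317 D T h) (mem_cons (W284 D T h) mem_nil)) mem_nil cw8045
theorem W8046 : WFK w8046 := fun D T h => wf_of_chk h (mem_cons (W8045 D T h) (mem_cons (W16 D T h) mem_nil)) mem_nil cw8046
theorem W8047 : WFK w8047 := fun D T h => wf_of_chk h (mem_cons (W162 D T h) mem_nil) mem_nil cw8047
theorem W8048 : WFK w8048 := fun D T h => wf_of_chk h (mem_cons (W1640 D T h) (mem_cons (W162 D T h) mem_nil)) mem_nil cw8048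
theorem W8049 : WFK w8049 := fun D T h => wf_of_chk h (mem_cons (W2268 D T h) (mem_cons (W162 D T h) mem_nil)) mem_nil cw8049
theorem W8050 : WFK w8050 := fun D T h => wf_of_chk h mem_nil (mem_cons (L743 D T h) mem_nil) cw8050
theorem L1822 : LFK l1822 := fun D T h => lf_of_chk h (mem_cons (W2219 D T h) (mem_cons (W284 D T h) (mem_cons (W8047 D T h) (mem_cons (W4209 D T h) (mem_cons (W16 D T h) (mem_cons (W1408 D T h) (mem_cons (W8048 D T h) (mem_cons (W8050 D T h) (mem_cons (W4980 D T h) (mem_cons (W2934 D T h) (mem_cons (W8049 D T h) (mem_cons (W6360 D T h) (mem_cons (W209 D T h) (mem_cons (W4973 D T h) (mem_cons (W7934 D T h) (mem_cons (W4975 D T h) (mem_cons (W7663 D T h) (mem_cons (W721 D T h) (mem_cons (W3666 D T h) (mem_cons (W2265 D T h) (mem_cons (W2280 D T h) (mem_cons (W2157 D T h) (mem_cons (W2278 D T h) (mem_cons (W7994 D T h) (mem_cons (W342 D T h) (mem_cons (W341 D T h) (mem_cons (W726 D T h) (mem_cons (W7820 D T h) (mem_cons (W1533 D T h) (mem_cons (W7693 D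 T h) mem_nil)))))))))))))))))))))))))))))) cl1822
theorem W8051 : WFK w8051 := fun D T h => wf_of_chk h mem_nil (mem_cons (L1822 D T h) mem_nil) cw8051
theorem W8052 : WFK w8052 := fun D T h => wf_of_chk h mem_nil (mem_cons (L273 D T h) mem_nil) cw8052
theorem W8053 : WFK w8053 := fun D T h => wf_of_chk h mem_nil (mem_cons (L1165 D T h) mem_nil) cw8053
theorem W8054 : WFK w8054 := fun D T h => wf_of_chk h (mem_cons (W8053 D T h) mem_nil) mem_nil cw8054
theorem W8055 : WFK w8055 := fun D T h => wf_of_chk h (mem_cons (W69 D T h) (mem_cons (W758 D T h) mem_nil)) mem_nil cw8055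
theorem W8056 : WFK w8056 := fun D T h => wf_of_chk h (mem_cons (W105 D T h) (mem_cons (W758 D T h) mem_nil)) mem_nil cw8056
theorem W8057 : WFK w8057 := fun D T h => wf_of_chk h (mem_cons (W1588 D T h) (mem_cons (W758 D T h) mem_nil)) mem_nil cw8057
theorem W8058 : WFK w8058 := fun D T h => wf_of_chk h (mem_cons (W521 D T h) (mem_cons (W758 D T h) mem_nil)) mem_nil cw8058
theorem W8059 : WFK w8059 := fun D T h => wf_of_chk h (mem_cons (W1202 D T h) (mem_cons (W758 D T h) mem_nil)) mem_nil cw8059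
theorem W8060 : WFK w8060 := fun D T h => wf_of_chk h (mem_cons (W616 D T h) (mem_cons (W758 D T h) mem_nil)) mem_nil cw8060
theorem W8061 : WFK w8061 := fun D T h => wf_of_chk h (mem_cons (W241 D T h) (mem_cons (W702 D T h) mem_nil)) mem_nil cw8061
theorem W8062 : WFK w8062 := fun D T h => wf_of_chk h (mem_cons (W2517 D T h) (mem_cons (W758 D T h) mem_nil)) mem_nil cw8062
theorem W8063 : WFK w8063 := fun D T h => wf_of_chk h (mem_cons (W755 D T h) (mem_cons (W144 D T h) mem_nil)) mem_nil cw8063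
theorem W8064 : WFK w8064 := fun D T h => wf_of_chk h (mem_cons (W83 D T h) (mem_cons (W702 D T h) mem_nil)) mem_nil cw8064
theorem W8065 : WFK w8065 := fun D T h => wf_of_chk h (mem_cons (W4531 D T h) (mem_cons (W758 D T h) mem_nil)) mem_nil cw8065
theorem L1823 : LFK l1823 := fun D T h => lf_of_chk h (mem_cons (W7790 D T h) (mem_cons (W1133 D T h) (mem_cons (W3032 D T h) (mem_cons (W536 D T h) (mem_cons (W537 D T h) (mem_cons (W3696 D T h) (mem_cons (W702 D T h) (mem_cons (W144 D T h) (mem_cons (W5258 D T h) (mem_cons (W16 D T h) (mem_cons (W8055 D T h) (mem_cons (W4038 D T h) (mem_cons (W2015 D T h) (mem_cons (W8064 D T h) (mem_cons (W8065 D T h) (mem_cons (W8056 D T h) (mem_cons (W521 D T h) (mem_cons (W4632 D T h) (mem_cons (W128 D T h) (mem_cons (W8057 D T h) (mem_cons (W8058 D T h) (mem_cons (W8059 D T h) (mem_cons (W8060 D T h) (mem_cons (W2892 D T h) (mem_cons (W8054 D T h) (mem_cons (W3356 D T h) (mem_cons (W8061 D T h) (mem_cons (W8062 D T h) (mem_cons (W3043 D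 T h) (mem_cons (W8063 D T h) (mem_cons (W7788 D T h) (mem_cons (W259 D T h) (mem_cons (W2872 D T h) (mem_cons (W3830 D T h) mem_nil)))))))))))))))))))))))))))))))))) cl1823
theorem W8066 : WFK w8066 := fun D T h => wf_of_chk h mem_nil (mem_cons (L1823 D T h) mem_nil) cw8066
theorem L1824 : LFK l1824 := fun D T h => lf_of_chk h (mem_cons (W263 D T h) (mem_cons (W1919 D T h) (mem_cons (W78 D T h) (mem_cons (W396 D T h) (mem_cons (W38 D T h) (mem_cons (W351 D T h) mem_nil)))))) cl1824
theorem W8067 : WFK w8067 := fun D T h => wf_of_chk h mem_nil (mem_cons (L1824 D T h) mem_nil) cw8067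
theorem W8068 : WFK w8068 := fun D T h => wf_of_chk h (mem_cons (W8067 D T h) (mem_cons (W16 D T h) mem_nil)) mem_nil cw8068
theorem W8069 : WFK w8069 := fun D T h => wf_of_chk h mem_nil (mem_cons (L694 D T h) mem_nil) cw8069
theorem W8070 : WFK w8070 := fun D T h => wf_of_chk h (mem_cons (W401 D T h) (mem_cons (W161 D T h) mem_nil)) mem_nil cw8070
theorem W8071 : WFK w8071 := fun D T h => wf_of_chk h mem_nil (mem_cons (L1342 D T h) mem_nil) cw8071
theorem W8072 : WFK w8072 := fun D T h => wf_of_chk h mem_nil (mem_cons (L1346 D T h) mem_nil) cw8072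
theorem W8073 : WFK w8073 := fun D T h => wf_of_chk h mem_nil (mem_cons (L1326 D T h) mem_nil) cw8073
theorem W8074 : WFK w8074 := fun D T h => wf_of_chk h mem_nil mem_nil cw8074
theorem L1825 : LFK l1825 := fun D T h => lf_of_chk h (mem_cons (W852 D T h) (mem_cons (W217 D T h) (mem_cons (W3 D T h) (mem_cons (W5452 D T h) (mem_cons (W18 D T h) (mem_cons (W8074 D T h) (mem_cons (W63 D T h) mem_nil))))))) cl1825
theorem W8075 : WFK w8075 := fun D T h => wf_of_chk h mem_nil (mem_cons (L1825 D T h) mem_nil) cw8075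
theorem W8076 : WFK w8076 := fun D T h => wf_of_chk h mem_nil (mem_cons (L1326 D T h) mem_nil) cw8076
theorem W8077 : WFK w8077 := fun D T h => wf_of_chk h mem_nil (mem_cons (L1326 D T h) mem_nil) cw8077
theorem W8078 : WFK w8078 := fun D T h => wf_of_chk h (mem_cons (W5841 D T h) mem_nil) mem_nil cw8078
theorem L1826 : LFK l1826 := fun D T h => lf_of_chk h (mem_cons (W1356 D T h) (mem_cons (W42 D T h) (mem_cons (W161 D T h) (mem_cons (W112 D T h) (mem_cons (W1412 D T h) (mem_cons (W1388 D T h) (mem_cons (W8073 D T h) (mem_cons (W8069 D T h) (mem_cons (W86 D T h) (mem_cons (W8070 D T h) (mem_cons (W8071 D T h) (mem_cons (W1924 D T h) (mem_cons (W8072 D T h) (mem_cons (W8075 D T h) (mem_cons (W815 D T h) (mem_cons (W6680 D T h) (mem_cons (W2527 D T h) (mem_cons (W8076 D T h) (mem_cons (W8077 D T h) (mem_cons (W259 D T h) (mem_cons (W8078 D T h) mem_nil))))))))))))))))))))) cl1826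
theorem W8079 : WFK w8079 := fun D T h => wf_of_chk h mem_nil (mem_cons (L1826 D T h) mem_nil) cw8079
theorem W8080 : WFK w8080 := fun D T h => wf_of_chk h (mem_cons (W8079 D T h) (mem_cons (W16 D T h) mem_nil)) mem_nil cw8080
theorem W8081 : WFK w8081 := fun D T h => wf_of_chk h mem_nil (mem_cons (L126 D T h) mem_nil) cw8081
theorem W8082 : WFK w8082 := fun D T h => wf_of_chk h mem_nil (mem_cons (L226 D T h) mem_nil) cw8082
theorem L1827 : LFK l1827 := fun D T h => lf_of_chk h (mem_cons (W932 D T h) (mem_cons (W42 D T h) (mem_cons (W281 D T h) (mem_cons (W69 D T h) (mem_cons (W1412 D T h) (mem_cons (W86 D T h) (mem_cons (W8081 D T h) (mem_cons (W8082 D T h) (mem_cons (W8075 D T h) (mem_cons (W815 D T h) (mem_cons (W572 D T h) (mem_cons (W2527 D T h) (mem_cons (W1355 D T h) (mem_cons (W1588 D T h) (mem_cons (W259 D T h) (mem_cons (W1356 D T h) mem_nil)))))))))))))))) cl1827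
theorem W8083 : WFK w8083 := fun D T h => wf_of_chk h mem_nil (mem_cons (L1827 D T h) mem_nil) cw8083
theorem W8084 : WFK w8084 := fun D T h => wf_of_chk h (mem_cons (W8083 D T h) (mem_cons (W16 D T h) mem_nil)) mem_nil cw8084
theorem L1828 : LFK l1828 := fun D T h => lf_of_chk h (mem_cons (W5258 D T h) (mem_cons (W5623 D T h) (mem_cons (W1068 D T h) (mem_cons (W1 D T h) (mem_cons (W69 D T h) (mem_cons (W4256 D T h) (mem_cons (W1184 D T h) (mem_cons (W4531 D T h) (mem_cons (W2615 D T h) (mem_cons (W4209 D T h) (mem_cons (W8068 D T h) (mem_cons (W5574 D T h) (mem_cons (W8066 D T h) (mem_cons (W1719 D T h) (mem_cons (W6891 D T h) (mem_cons (W267 D T h) (mem_cons (W8080 D T h) (mem_cons (W721 D T h) (mem_cons (W114 D T h) (mem_cons (W8084 D T h) mem_nil)))))))))))))))))))) cl1828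
theorem W8085 : WFK w8085 := fun D T h => wf_of_chk h mem_nil (mem_cons (L1828 D T h) mem_nil) cw8085
theorem L1829 : LFK l1829 := fun D T h => lf_of_chk h (mem_cons (W8023 D T h) (mem_cons (W284 D T h) (mem_cons (W5072 D T h) (mem_cons (W1068 D T h) (mem_cons (W16 D T h) (mem_cons (W5623 D T h) (mem_cons (W8085 D T h) (mem_cons (W7988 D T h) (mem_cons (W2934 D T h) (mem_cons (W8000 D T h) (mem_cons (W7631 D T h) (mem_cons (W50 D T h) (mem_cons (W5194 D T h) (mem_cons (W7935 D T h) (mem_cons (W7704 D T h) (mem_cons (W5633 D T h) (mem_cons (W3006 D T h) (mem_cons (W2273 D T h) (mem_cons (W2275 D T h) (mem_cons (W2277 D T h) (mem_cons (W7837 D T h) (mem_cons (W7843 D T h) (mem_cons (W7996 D T h) (mem_cons (W1502 D T h) (mem_cons (W2683 D T h) (mem_cons (W8017 D T h) (mem_cons (W2015 D T h) (mem_cons (W8001 D T h) (mem_cons (W8051 D T h) (mem_cons (W2709 D T h) (mem_cons (W2037 D T h) (mem_cons (W8018 D T h) (mem_cons (W8021 D T h) (mem_cons (W128 D T h) (mem_cons (W7995 D T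 h) (mem_cons (W8022 D T h) (mem_cons (W4022 D T h) (mem_cons (W2185 D T h) (mem_cons (W8024 D T h) (mem_cons (W7798 D T h) (mem_cons (W8046 D T h) (mem_cons (W2264 D T h) (mem_cons (W2231 D T h) (mem_cons (W2271 D T h) (mem_cons (W2270 D T h) (mem_cons (W8052 D T h) mem_nil)))))))))))))))))))))))))))))))))))))))))))))) cl1829
theorem W8086 : WFK w8086 := fun D T h => wf_of_chk h mem_nil (mem_cons (L1829 D T h) mem_nil) cw8086
theorem W8087 : WFK w8087 := fun D T h => wf_of_chk h (mem_cons (W1063 D T h) (mem_cons (W16 D T h) mem_nil)) mem_nil cw8087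
theorem W8088 : WFK w8088 := fun D T h => wf_of_chk h (mem_cons (W4038 D T h) (mem_cons (W284 D T h) mem_nil)) mem_nil cw8088
theorem W8089 : WFK w8089 := fun D T h => wf_of_chk h (mem_cons (W1061 D T h) (mem_cons (W16 D T h) mem_nil)) mem_nil cw8089
theorem W8090 : WFK w8090 := fun D T h => wf_of_chk h mem_nil (mem_cons (L179 D T h) mem_nil) cw8090
theorem W8091 : WFK w8091 := fun D T h => wf_of_chk h (mem_cons (W8090 D T h) (mem_cons (W284 D T h) mem_nil)) mem_nil cw8091
theorem W8093 : WFK w8093 := fun D T h => wf_of_chk h (mem_cons (W7748 D T h) (mem_cons (W16 D T h) mem_nil)) mem_nil cw8093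
theorem L1830 : LFK l1830 := fun D T h => lf_of_chk h (mem_cons (W7790 D T h) (mem_cons (W2164 D T h) (mem_cons (W230 D T h) (mem_cons (W144 D T h) (mem_cons (W4038 D T h) (mem_cons (W536 D T h) (mem_cons (W537 D T h) (mem_cons (W3042 D T h) (mem_cons (W16 D T h) (mem_cons (W5633 D T h) (mem_cons (W3006 D T h) (mem_cons (W3830 D T h) (mem_cons (W7788 D T h) (mem_cons (W5248 D T h) (mem_cons (W8091 D T h) (mem_cons (W5258 D T h) (mem_cons (W2177 D T h) (mem_cons (W8088 D T h) (mem_cons (W4632 D T h) (mem_cons (W2892 D T h) (mem_cons (W8089 D T h) (mem_cons (W3356 D T h) (mem_cons (W7947 D T h) (mem_cons (W8093 D T h) mem_nil)))))))))))))))))))))))) cl1830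
theorem W8094 : WFK w8094 := fun D T h => wf_of_chk h mem_nil (mem_cons (L1830 D T h) mem_nil) cw8094
theorem L1832 : LFK l1832 := fun D T h => lf_of_chk h (mem_cons (W91 D T h) (mem_cons (W124 D T h) (mem_cons (W20 D T h) (mem_cons (W174 D T h) (mem_cons (W817 D T h) (mem_cons (W815 D T h) (mem_cons (W819 D T h) (mem_cons (W709 D T h) (mem_cons (W4 D T h) (mem_cons (W802 D T h) (mem_cons (W33 D T h) mem_nil))))))))))) cl1832
theorem W8105 : WFK w8105 := fun D T h => wf_of_chk h mem_nil (mem_cons (L1832 D T h) mem_nil) cw8105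
theorem L1833 : LFK l1833 := fun D T h => lf_of_chk h (mem_cons (W158 D T h) (mem_cons (W709 D T h) (mem_cons (W802 D T h) (mem_cons (W8 D T h) (mem_cons (W617 D T h) (mem_cons (W831 D T h) (mem_cons (W7171 D T h) (mem_cons (W3232 D T h) (mem_cons (W331 D T h) (mem_cons (W1075 D T h) (mem_cons (W1092 D T h) mem_nil))))))))))) cl1833
theorem W8107 : WFK w8107 := fun D T h => wf_of_chk h mem_nil (mem_cons (L1833 D T h) mem_nil) cw8107
theorem W8110 : WFK w8110 := fun D T h => wf_of_chk h (mem_cons (W16 D T h) (mem_cons (W8105 D T h) mem_nil)) mem_nil cw8110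
theorem W8111 : WFK w8111 := fun D T h => wf_of_chk h mem_nil (mem_cons (L786 D T h) mem_nil) cw8111
theorem W8112 : WFK w8112 := fun D T h => wf_of_chk h mem_nil (mem_cons (L788 D T h) mem_nil) cw8112
theorem L1835 : LFK l1835 := fun D T h => lf_of_chk h (mem_cons (W1310 D T h) (mem_cons (W284 D T h) (mem_cons (W2934 D T h) (mem_cons (W16 D T h) (mem_cons (W14 D T h) (mem_cons (W3410 D T h) (mem_cons (W1309 D T h) (mem_cons (W7623 D T h) (mem_cons (W24 D T h) (mem_cons (W209 D T h) (mem_cons (W8112 D T h) (mem_cons (W2254 D T h) (mem_cons (W6748 D T h) (mem_cons (W1336 D T h) (mem_cons (W5841 D T h) (mem_cons (W1312 D T h) (mem_cons (W682 D T h) (mem_cons (W7431 D T h) (mem_cons (W3571 D T h) (mem_cons (W3304 D T h) (mem_cons (W8111 D T h) (mem_cons (W342 D T h) (mem_cons (W341 D T h) (mem_cons (W50 D T h) (mem_cons (W1676 D T h) (mem_cons (W1651 D T h) (mem_cons (W1502 D T h) mem_nil))))))))))))))))))))))))))) cl1835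
theorem W8113 : WFK w8113 := fun D T h => wf_of_chk h mem_nil (mem_cons (L1835 D T h) mem_nil) cw8113
theorem L1836 : LFK l1836 := fun D T h => lf_of_chk h (mem_cons (W2283 D T h) (mem_cons (W1211 D T h) (mem_cons (W16 D T h) (mem_cons (W284 D T h) (mem_cons (W2934 D T h) (mem_cons (W2164 D T h) (mem_cons (W1310 D T h) (mem_cons (W2170 D T h) (mem_cons (W8087 D T h) (mem_cons (W8113 D T h) (mem_cons (W5098 D T h) (mem_cons (W2186 D T h) (mem_cons (W2264 D T h) (mem_cons (W1651 D T h) (mem_cons (W2231 D T h) (mem_cons (W5248 D T h) (mem_cons (W8015 D T h) (mem_cons (W8043 D T h) (mem_cons (W8044 D T h) (mem_cons (W2166 D T h) (mem_cons (W8086 D T h) (mem_cons (W5633 D T h) (mem_cons (W7720 D T h) (mem_cons (W7856 D T h) (mem_cons (W7871 D T h) (mem_cons (W7884 D T h) (mem_cons (W7837 D T h) (mem_cons (W7953 D T h) (mem_cons (W1291 D T h) (mem_cons (W7954 D T h) (mem_cons (W7991 D T h) (mem_cons (W8014 D T h) (mem_cons (W7656 D T h) (mem_cons (W50 D T h) (mem_cons (W5194 D T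 h) (mem_cons (W7657 D T h) (mem_cons (W7816 D T h) (mem_cons (W7817 D T h) (mem_cons (W7818 D T h) (mem_cons (W7844 D T h) mem_nil)))))))))))))))))))))))))))))))))))))))) cl1836
theorem W8114 : WFK w8114 := fun D T h => wf_of_chk h mem_nil (mem_cons (L1836 D T h) mem_nil) cw8114
theorem L1837 : LFK l1837 := fun D T h => lf_of_chk h (mem_cons (W284 D T h) (mem_cons (W5633 D T h) (mem_cons (W6613 D T h) (mem_cons (W42 D T h) (mem_cons (W1063 D T h) (mem_cons (W16 D T h) (mem_cons (W7114 D T h) (mem_cons (W2037 D T h) (mem_cons (W15 D T h) (mem_cons (W5086 D T h) (mem_cons (W1139 D T h) (mem_cons (W128 D T h) (mem_cons (W261 D T h) (mem_cons (W5721 D T h) mem_nil)))))))))))))) cl1837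
theorem W8115 : WFK w8115 := fun D T h => wf_of_chk h mem_nil (mem_cons (L1837 D T h) mem_nil) cw8115
theorem W8116 : WFK w8116 := fun D T h => wf_of_chk h (mem_cons (W128 D T h) (mem_cons (W3305 D T h) mem_nil)) mem_nil cw8116
theorem W8117 : WFK w8117 := fun D T h => wf_of_chk h (mem_cons (W164 D T h) (mem_cons (W1336 D T h) mem_nil)) mem_nil cw8117
theorem W8118 : WFK w8118 := fun D T h => wf_of_chk h (mem_cons (W114 D T h) (mem_cons (W1336 D T h) mem_nil)) mem_nil cw8118
theorem W8119 : WFK w8119 := fun D T h => wf_of_chk h (mem_cons (W1067 D T h) (mem_cons (W1336 D T h) mem_nil)) mem_nil cw8119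
theorem W8120 : WFK w8120 := fun D T h => wf_of_chk h (mem_cons (W1019 D T h) (mem_cons (W1336 D T h) mem_nil)) mem_nil cw8120
theorem W8121 : WFK w8121 := fun D T h => wf_of_chk h (mem_cons (W267 D T h) (mem_cons (W1336 D T h) mem_nil)) mem_nil cw8121
theorem W8122 : WFK w8122 := fun D T h => wf_of_chk h (mem_cons (W1312 D T h) (mem_cons (W1336 D T h) mem_nil)) mem_nil cw8122
theorem W8123 : WFK w8123 := fun D T h => wf_of_chk h mem_nil (mem_cons (L1719 D T h) mem_nil) cw8123
theorem L1838 : LFK l1838 := fun D T h => lf_of_chk h (mem_cons (W3912 D T h) (mem_cons (W3937 D T h) (mem_cons (W3926 D T h) (mem_cons (W7524 D T h) (mem_cons (W284 D T h) (mem_cons (W2868 D T h) (mem_cons (W2861 D T h) (mem_cons (W2839 D T h) (mem_cons (W337 D T h) (mem_cons (W1599 D T h) (mem_cons (W3571 D T h) (mem_cons (W8120 D T h) (mem_cons (W16 D T h) (mem_cons (W3304 D T h) (mem_cons (W8117 D T h) (mem_cons (W8122 D T h) (mem_cons (W3924 D T h) (mem_cons (W2934 D T h) (mem_cons (W8118 D T h)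 (mem_cons (W2834 D T h) (mem_cons (W2828 D T h) (mem_cons (W8119 D T h) (mem_cons (W3915 D T h) (mem_cons (W3917 D T h) (mem_cons (W128 D T h) (mem_cons (W1139 D T h) (mem_cons (W8121 D T h) (mem_cons (W3920 D T h) (mem_cons (W3921 D T h) (mem_cons (W2848 D T h) (mem_cons (W3922 D T h) (mem_cons (W8123 D T h) (mem_cons (W3925 D T h) (mem_cons (W5633 D T h) mem_nil)))))))))))))))))))))))))))))))))) cl1838
theorem W8124 : WFK w8124 := fun D T h => wf_of_chk h mem_nil (mem_cons (L1838 D T h) mem_nil) cw8124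
theorem W8125 : WFK w8125 := fun D T h => wf_of_chk h (mem_cons (W1063 D T h) (mem_cons (W3305 D T h) mem_nil)) mem_nil cw8125
theorem W8126 : WFK w8126 := fun D T h => wf_of_chk h mem_nil (mem_cons (L1073 D T h) mem_nil) cw8126
theorem W8127 : WFK w8127 := fun D T h => wf_of_chk h (mem_cons (W8126 D T h) (mem_cons (W16 D T h) mem_nil)) mem_nil cw8127
theorem W8128 : WFK w8128 := fun D T h => wf_of_chk h mem_nil (mem_cons (L1544 D T h) mem_nil) cw8128
theorem W8129 : WFK w8129 := fun D T h => wf_of_chk h (mem_cons (W8128 D T h) (mem_cons (W16 D T h) mem_nil)) mem_nil cw8129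
theorem W8130 : WFK w8130 := fun D T h => wf_of_chk h mem_nil (mem_cons (L847 D T h) mem_nil) cw8130
theorem L1839 : LFK l1839 := fun D T h => lf_of_chk h (mem_cons (W17 D T h) (mem_cons (W8128 D T h) (mem_cons (W495 D T h) (mem_cons (W3774 D T h) (mem_cons (W203 D T h) (mem_cons (W3 D T h) (mem_cons (W1235 D T h) (mem_cons (W1234 D T h) (mem_cons (W199 D T h) (mem_cons (W200 D T h) (mem_cons (W201 D T h) (mem_cons (W8130 D T h) mem_nil)))))))))))) cl1839
theorem W8131 : WFK w8131 := fun D T h => wf_of_chk h mem_nil (mem_cons (L1839 D T h) mem_nil) cw8131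
theorem W8132 : WFK w8132 := fun D T h => wf_of_chk h (mem_cons (W220 D T h) (mem_cons (W8128 D T h) mem_nil)) mem_nil cw8132
theorem L1840 : LFK l1840 := fun D T h => lf_of_chk h (mem_cons (W42 D T h) (mem_cons (W461 D T h) (mem_cons (W382 D T h) (mem_cons (W3 D T h) (mem_cons (W39 D T h) (mem_cons (W1172 D T h) (mem_cons (W3592 D T h) (mem_cons (W4296 D T h) (mem_cons (W431 D T h) (mem_cons (W267 D T h) (mem_cons (W6647 D T h) mem_nil))))))))))) cl1840
theorem W8133 : WFK w8133 := fun D T h => wf_of_chk h mem_nil (mem_cons (L1840 D T h) mem_nil) cw8133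
theorem L1841 : LFK l1841 := fun D T h => lf_of_chk h (mem_cons (W1502 D T h) (mem_cons (W284 D T h) (mem_cons (W497 D T h) (mem_cons (W2405 D T h) (mem_cons (W16 D T h) (mem_cons (W1408 D T h) (mem_cons (W1233 D T h) (mem_cons (W8133 D T h) (mem_cons (W1632 D T h) (mem_cons (W2934 D T h) (mem_cons (W8131 D T h) (mem_cons (W24 D T h) (mem_cons (W209 D T h) (mem_cons (W8132 D T h) (mem_cons (W2287 D T h) (mem_cons (W2289 D T h) (mem_cons (W2290 D T h) (mem_cons (W42 D T h) (mem_cons (W2285 D T h) (mem_cons (W2284 D T h) (mem_cons (W8129 D T h) (mem_cons (W8127 D T h) (mem_cons (W342 D T h) (mem_cons (W341 D T h) (mem_cons (W1396 D T h) (mem_cons (W358 D T h) (mem_cons (W164 D T h) (mem_cons (W2219 D T h) (mem_cons (W581 D T h) (mem_cons (W1945 D T h) (mem_cons (W7693 D T h) mem_nil))))))))))))))))))))))))))))))) cl1841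
theorem W8134 : WFK w8134 := fun D T h => wf_of_chk h mem_nil (mem_cons (L1841 D T h) mem_nil) cw8134
theorem W8135 : WFK w8135 := fun D T h => wf_of_chk h (mem_cons (W1063 D T h) (mem_cons (W3305 D T h) mem_nil)) mem_nil cw8135
theorem W8136 : WFK w8136 := fun D T h => wf_of_chk h (mem_cons (W162 D T h) (mem_cons (W1153 D T h) mem_nil)) mem_nil cw8136
theorem W8137 : WFK w8137 := fun D T h => wf_of_chk h (mem_cons (W1227 D T h) mem_nil) mem_nil cw8137
theorem W8138 : WFK w8138 := fun D T h => wf_of_chk h mem_nil (mem_cons (L370 D T h) mem_nil) cw8138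
theorem W8139 : WFK w8139 := fun D T h => wf_of_chk h (mem_cons (W2015 D T h) (mem_cons (W1227 D T h) mem_nil)) mem_nil cw8139
theorem W8140 : WFK w8140 := fun D T h => wf_of_chk h (mem_cons (W448 D T h) (mem_cons (W1227 D T h) mem_nil)) mem_nil cw8140
theorem W8141 : WFK w8141 := fun D T h => wf_of_chk h (mem_cons (W42 D T h) (mem_cons (W1227 D T h) mem_nil)) mem_nil cw8141
theorem W8143 : WFK w8143 := fun D T h => wf_of_chk h (mem_cons (W42 D T h) (mem_cons (W1227 D T h) mem_nil)) mem_nil cw8143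
theorem L1842 : LFK l1842 := fun D T h => lf_of_chk h (mem_cons (W2290 D T h) (mem_cons (W495 D T h) (mem_cons (W497 D T h) (mem_cons (W1226 D T h) (mem_cons (W16 D T h) (mem_cons (W14 D T h) (mem_cons (W1233 D T h) (mem_cons (W2291 D T h) (mem_cons (W8139 D T h) (mem_cons (W8140 D T h) (mem_cons (W284 D T h) (mem_cons (W8141 D T h) (mem_cons (W8143 D T h) (mem_cons (W8137 D T h) (mem_cons (W8138 D T h) (mem_cons (W8131 D T h) (mem_cons (W24 D T h) (mem_cons (W209 D T h) (mem_cons (W8132 D T h) (mem_cons (W2287 D T h) (mem_cons (W2289 D T h) (mem_cons (W42 D T h) (mem_cons (W2285 D T h) (mem_cons (W2284 D T h) (mem_cons (W8129 D T h) (mem_cons (W342 D T h) (mem_cons (W341 D T h) (mem_cons (W1362 D T h) (mem_cons (W358 D T h) (mem_cons (W164 D T h) (mem_cons (W1502 D T h) (mem_cons (W2219 D T h) (mem_cons (W581 D T h) (mem_cons (W1945 D T h) (mem_cons (W7693 D T h) mem_nil))))))))))))))))))))))))))))))))))) cl1842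
theorem W8145 : WFK w8145 := fun D T h => wf_of_chk h mem_nil (mem_cons (L1842 D T h) mem_nil) cw8145
theorem W8146 : WFK w8146 := fun D T h => wf_of_chk h mem_nil (mem_cons (L514 D T h) mem_nil) cw8146
theorem W8147 : WFK w8147 := fun D T h => wf_of_chk h mem_nil (mem_cons (L1835 D T h) mem_nil) cw8147
theorem W8148 : WFK w8148 := fun D T h => wf_of_chk h mem_nil (mem_cons (L1835 D T h) mem_nil) cw8148
theorem L1843 : LFK l1843 := fun D T h => lf_of_chk h (mem_cons (W2292 D T h) (mem_cons (W2042 D T h) (mem_cons (W16 D T h) (mem_cons (W284 D T h) (mem_cons (W2934 D T h) (mem_cons (W2164 D T h) (mem_cons (W1502 D T h) (mem_cons (W8147 D T h) (mem_cons (W8148 D T h) (mem_cons (W2283 D T h) (mem_cons (W6776 D T h) (mem_cons (W8094 D T h) (mem_cons (W2159 D T h) (mem_cons (W2168 D T h) (mem_cons (W2169 D T h) (mem_cons (W8146 D T h) (mem_cons (W5633 D T h) (mem_cons (W3006 D T h) (mem_cons (W8125 D T h) (mem_cons (W6476 D T h) (mem_cons (W6475 D T h) (mem_cons (W6474 D T h) (mem_cons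 (W8134 D T h) (mem_cons (W6512 D T h) (mem_cons (W8135 D T h) (mem_cons (W8136 D T h) (mem_cons (W8145 D T h) (mem_cons (W8115 D T h) (mem_cons (W50 D T h) (mem_cons (W5194 D T h) (mem_cons (W8116 D T h) (mem_cons (W8124 D T h) mem_nil)))))))))))))))))))))))))))))))) cl1843
theorem W8149 : WFK w8149 := fun D T h => wf_of_chk h mem_nil (mem_cons (L1843 D T h) mem_nil) cw8149
theorem W8150 : WFK w8150 := fun D T h => wf_of_chk h mem_nil (mem_cons (L209 D T h) mem_nil) cw8150
theorem W8151 : WFK w8151 := fun D T h => wf_of_chk h mem_nil (mem_cons (L1087 D T h) mem_nil) cw8151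
theorem W8152 : WFK w8152 := fun D T h => wf_of_chk h mem_nil (mem_cons (L470 D T h) mem_nil) cw8152
theorem W8153 : WFK w8153 := fun D T h => wf_of_chk h mem_nil (mem_cons (L1258 D T h) mem_nil) cw8153
theorem L1844 : LFK l1844 := fun D T h => lf_of_chk h (mem_cons (W50 D T h) (mem_cons (W177 D T h) (mem_cons (W726 D T h) (mem_cons (W175 D T h) (mem_cons (W6552 D T h) (mem_cons (W3286 D T h) (mem_cons (W8152 D T h) (mem_cons (W2875 D T h) (mem_cons (W3950 D T h) (mem_cons (W15 D T h) (mem_cons (W220 D T h) (mem_cons (W24 D T h) (mem_cons (W2930 D T h) (mem_cons (W209 D T h) (mem_cons (W3999 D T h) (mem_cons (W2834 D T h) (mem_cons (W8153 D T h) (mem_cons (W2405 D T h) (mem_cons (W8128 D T h) mem_nil))))))))))))))))))) cl1844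
theorem W8154 : WFK w8154 := fun D T h => wf_of_chk h mem_nil (mem_cons (L1844 D T h) mem_nil) cw8154
theorem W8155 : WFK w8155 := fun D T h => wf_of_chk h (mem_cons (W495 D T h) (mem_cons (W37 D T h) mem_nil)) mem_nil cw8155
theorem W8156 : WFK w8156 := fun D T h => wf_of_chk h mem_nil (mem_cons (L1473 D T h) mem_nil) cw8156
theorem W8157 : WFK w8157 := fun D T h => wf_of_chk h (mem_cons (W164 D T h) (mem_cons (W162 D T h) mem_nil)) mem_nil cw8157
theorem W8158 : WFK w8158 := fun D T h => wf_of_chk h (mem_cons (W164 D T h) (mem_cons (W162 D T h) mem_nil)) mem_nil cw8158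
theorem W8159 : WFK w8159 := fun D T h => wf_of_chk h (mem_cons (W114 D T h) (mem_cons (W162 D T h) mem_nil)) mem_nil cw8159
theorem W8160 : WFK w8160 := fun D T h => wf_of_chk h (mem_cons (W220 D T h) (mem_cons (W6719 D T h) mem_nil)) mem_nil cw8160
theorem W8161 : WFK w8161 := fun D T h => wf_of_chk h (mem_cons (W1067 D T h) (mem_cons (W162 D T h) mem_nil)) mem_nil cw8161
theorem W8162 : WFK w8162 := fun D T h => wf_of_chk h (mem_cons (W220 D T h) (mem_cons (W5633 D T h) mem_nil)) mem_nil cw8162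
theorem W8163 : WFK w8163 := fun D T h => wf_of_chk h (mem_cons (W220 D T h) (mem_cons (W5633 D T h) mem_nil)) mem_nil cw8163
theorem W8164 : WFK w8164 := fun D T h => wf_of_chk h (mem_cons (W1019 D T h) (mem_cons (W162 D T h) mem_nil)) mem_nil cw8164
theorem W8165 : WFK w8165 := fun D T h => wf_of_chk h (mem_cons (W267 D T h) (mem_cons (W162 D T h) mem_nil)) mem_nil cw8165
theorem W8166 : WFK w8166 := fun D T h => wf_of_chk h (mem_cons (W1312 D T h) (mem_cons (W162 D T h) mem_nil)) mem_nil cw8166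
theorem W8167 : WFK w8167 := fun D T h => wf_of_chk h (mem_cons (W162 D T h) (mem_cons (W5633 D T h) mem_nil)) mem_nil cw8167
theorem W8168 : WFK w8168 := fun D T h => wf_of_chk h (mem_cons (W1690 D T h) (mem_cons (W16 D T h) mem_nil)) mem_nil cw8168
theorem W8169 : WFK w8169 := fun D T h => wf_of_chk h mem_nil (mem_cons (L298 D T h) mem_nil) cw8169
theorem L1845 : LFK l1845 := fun D T h => lf_of_chk h (mem_cons (W7883 D T h) (mem_cons (W16 D T h) (mem_cons (W6719 D T h) (mem_cons (W1599 D T h) (mem_cons (W162 D T h) (mem_cons (W3571 D T h) (mem_cons (W2868 D T h) (mem_cons (W2861 D T h) (mem_cons (W8150 D T h) (mem_cons (W7524 D T h) (mem_cons (W3999 D T h) (mem_cons (W8168 D T h) (mem_cons (W8169 D T h) (mem_cons (W7082 D T h) (mem_cons (W4281 D T h) (mem_cons (W7495 D T h) (mem_cons (W5210 D T h) (mem_cons (W2936 D T h) (mem_cons (W2050 D T h) (mem_cons (W5585 D T h) (mem_cons (W1209 D T h) (mem_cons (W8165 D T h) (mem_cons (W2844 D T h) (mem_cons (W8157 D T h) (mem_cons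 (W3304 D T h) (mem_cons (W8158 D T h) (mem_cons (W8166 D T h) (mem_cons (W2934 D T h) (mem_cons (W284 D T h) (mem_cons (W8167 D T h) (mem_cons (W2828 D T h) (mem_cons (W1331 D T h) (mem_cons (W8159 D T h) (mem_cons (W8160 D T h) (mem_cons (W8161 D T h) (mem_cons (W8162 D T h) (mem_cons (W8163 D T h) (mem_cons (W8164 D T h) mem_nil)))))))))))))))))))))))))))))))))))))) cl1845
theorem W8170 : WFK w8170 := fun D T h => wf_of_chk h mem_nil (mem_cons (L1845 D T h) mem_nil) cw8170
theorem L1846 : LFK l1846 := fun D T h => lf_of_chk h (mem_cons (W2024 D T h) (mem_cons (W37 D T h) (mem_cons (W933 D T h) (mem_cons (W16 D T h) (mem_cons (W1019 D T h) (mem_cons (W2709 D T h) (mem_cons (W2936 D T h) (mem_cons (W5633 D T h) (mem_cons (W2375 D T h) (mem_cons (W6776 D T h) (mem_cons (W1209 D T h) (mem_cons (W8155 D T h) (mem_cons (W8153 D T h) (mem_cons (W8128 D T h) (mem_cons (W284 D T h) (mem_cons (W6446 D T h) (mem_cons (W5347 D T h) (mem_cons (W8156 D T h) (mem_cons (W8150 D T h) (mem_cons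 (W2934 D T h) (mem_cons (W6475 D T h) (mem_cons (W8170 D T h) (mem_cons (W50 D T h) (mem_cons (W8151 D T h) (mem_cons (W8154 D T h) (mem_cons (W5194 D T h) mem_nil)))))))))))))))))))))))))) cl1846
theorem W8171 : WFK w8171 := fun D T h => wf_of_chk h mem_nil (mem_cons (L1846 D T h) mem_nil) cw8171
theorem L1847 : LFK l1847 := fun D T h => lf_of_chk h (mem_cons (W8 D T h) (mem_cons (W5 D T h) (mem_cons (W193 D T h) (mem_cons (W192 D T h) (mem_cons (W210 D T h) mem_nil))))) cl1847
theorem W8172 : WFK w8172 := fun D T h => wf_of_chk h mem_nil (mem_cons (L1847 D T h) mem_nil) cw8172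
theorem L1848 : LFK l1848 := fun D T h => lf_of_chk h (mem_cons (W91 D T h) (mem_cons (W20 D T h) (mem_cons (W124 D T h) (mem_cons (W3153 D T h) (mem_cons (W265 D T h) (mem_cons (W878 D T h) (mem_cons (W817 D T h) (mem_cons (W188 D T h) (mem_cons (W8172 D T h) (mem_cons (W48 D T h) (mem_cons (W4 D T h) (mem_cons (W802 D T h) (mem_cons (W33 D T h) mem_nil))))))))))))) cl1848
theorem W8173 : WFK w8173 := fun D T h => wf_of_chk h mem_nil (mem_cons (L1848 D T h) mem_nil) cw8173
theorem L1849 : LFK l1849 := fun D T h => lf_of_chk h (mem_cons (W6758 D T h) (mem_cons (W56 D T h) (mem_cons (W16 D T h) (mem_cons (W581 D T h) (mem_cons (W5841 D T h) (mem_cons (W4025 D T h) (mem_cons (W5655 D T h) (mem_cons (W8173 D T h) (mem_cons (W160 D T h) (mem_cons (W5388 D T h) (mem_cons (W1320 D T h) (mem_cons (W1190 D T h) (mem_cons (W3766 D T h) (mem_cons (W799 D T h) (mem_cons (W4026 D T h) (mem_cons (W1707 D T h) mem_nil)))))))))))))))) cl1849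
theorem W8174 : WFK w8174 := fun D T h => wf_of_chk h mem_nil (mem_cons (L1849 D T h) mem_nil) cw8174
theorem W8175 : WFK w8175 := fun D T h => wf_of_chk h mem_nil (mem_cons (L1848 D T h) mem_nil) cw8175
theorem L1850 : LFK l1850 := fun D T h => lf_of_chk h (mem_cons (W5633 D T h) (mem_cons (W3766 D T h) (mem_cons (W803 D T h) (mem_cons (W5841 D T h) (mem_cons (W42 D T h) (mem_cons (W16 D T h) (mem_cons (W7114 D T h) (mem_cons (W8175 D T h) (mem_cons (W5673 D T h) (mem_cons (W5585 D T h) (mem_cons (W5655 D T h) (mem_cons (W799 D T h) mem_nil)))))))))))) cl1850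
theorem W8176 : WFK w8176 := fun D T h => wf_of_chk h mem_nil (mem_cons (L1850 D T h) mem_nil) cw8176
theorem W8177 : WFK w8177 := fun D T h => wf_of_chk h mem_nil (mem_cons (L265 D T h) mem_nil) cw8177
theorem L1851 : LFK l1851 := fun D T h => lf_of_chk h (mem_cons (W6425 D T h) (mem_cons (W2705 D T h) (mem_cons (W16 D T h) (mem_cons (W933 D T h) (mem_cons (W7632 D T h) (mem_cons (W5072 D T h) (mem_cons (W3036 D T h) (mem_cons (W2015 D T h) (mem_cons (W7202 D T h) (mem_cons (W3843 D T h) (mem_cons (W1362 D T h) (mem_cons (W3018 D T h) (mem_cons (W7906 D T h) (mem_cons (W251 D T h) (mem_cons (W7205 D T h) (mem_cons (W3029 D T h) (mem_cons (W128 D T h) (mem_cons (W3030 D T h) (mem_cons (W7207 D T h) (mem_cons (W8053 D T h) (mem_cons (W8177 D T h) (mem_cons (W3034 D T h) (mem_cons (W3045 D T h) (mem_cons (W3032 D T h) (mem_cons (W7748 D T h) (mem_cons (W6428 D T h) mem_nil)))))))))))))))))))))))))) cl1851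
theorem W8178 : WFK w8178 := fun D T h => wf_of_chk h mem_nil (mem_cons (L1851 D T h) mem_nil) cw8178
theorem L1852 : LFK l1852 := fun D T h => lf_of_chk h (mem_cons (W2024 D T h) (mem_cons (W37 D T h) (mem_cons (W933 D T h) (mem_cons (W16 D T h) (mem_cons (W284 D T h) (mem_cons (W2934 D T h) (mem_cons (W5633 D T h) (mem_cons (W6719 D T h) (mem_cons (W8178 D T h) (mem_cons (W6613 D T h) (mem_cons (W2375 D T h) (mem_cons (W4396 D T h) (mem_cons (W50 D T h) (mem_cons (W5194 D T h) (mem_cons (W8174 D T h) (mem_cons (W8176 D T h) (mem_cons (W1502 D T h) (mem_cons (W7996 D T h) (mem_cons (W6505 D T h) (mem_cons (W2169 D T h) (mem_cons (W2168 D T h) (mem_cons (W7837 D T h) (mem_cons (W6475 D T h) (mem_cons (W6476 D T h) mem_nil)))))))))))))))))))))))) cl1852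
theorem W8179 : WFK w8179 := fun D T h => wf_of_chk h mem_nil (mem_cons (L1852 D T h) mem_nil) cw8179
theorem W8180 : WFK w8180 := fun D T h => wf_of_chk h (mem_cons (W2839 D T h) (mem_cons (W37 D T h) mem_nil)) mem_nil cw8180
theorem W8181 : WFK w8181 := fun D T h => wf_of_chk h (mem_cons (W126 D T h) (mem_cons (W804 D T h) mem_nil)) mem_nil cw8181
theorem W8182 : WFK w8182 := fun D T h => wf_of_chk h mem_nil (mem_cons (L1433 D T h) mem_nil) cw8182
theorem W8183 : WFK w8183 := fun D T h => wf_of_chk h (mem_cons (W8182 D T h) (mem_cons (W37 D T h) mem_nil)) mem_nil cw8183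
theorem W8184 : WFK w8184 := fun D T h => wf_of_chk h (mem_cons (W15 D T h) (mem_cons (W16 D T h) mem_nil)) mem_nil cw8184
theorem W8185 : WFK w8185 := fun D T h => wf_of_chk h mem_nil (mem_cons (L523 D T h) mem_nil) cw8185
theorem W8188 : WFK w8188 := fun D T h => wf_of_chk h mem_nil (mem_cons (L1632 D T h) mem_nil) cw8188
theorem W8195 : WFK w8195 := fun D T h => wf_of_chk h (mem_cons (W16 D T h) (mem_cons (W368 D T h) mem_nil)) mem_nil cw8195
theorem L1856 : LFK l1856 := fun D T h => lf_of_chk h (mem_cons (W67 D T h) mem_nil) cl1856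
theorem W8201 : WFK w8201 := fun D T h => wf_of_chk h mem_nil (mem_cons (L1856 D T h) mem_nil) cw8201
theorem W8205 : WFK w8205 := fun D T h => wf_of_chk h mem_nil (mem_cons (L630 D T h) mem_nil) cw8205
theorem W8206 : WFK w8206 := fun D T h => wf_of_chk h mem_nil (mem_cons (L1342 D T h) mem_nil) cw8206
theorem W8207 : WFK w8207 := fun D T h => wf_of_chk h (mem_cons (W15 D T h) mem_nil) mem_nil cw8207
theorem W8208 : WFK w8208 := fun D T h => wf_of_chk h mem_nil (mem_cons (L630 D T h) mem_nil) cw8208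
theorem L1857 : LFK l1857 := fun D T h => lf_of_chk h (mem_cons (W8205 D T h) (mem_cons (W2922 D T h) (mem_cons (W1330 D T h) (mem_cons (W4319 D T h) (mem_cons (W15 D T h) (mem_cons (W8 D T h) (mem_cons (W617 D T h) (mem_cons (W1104 D T h) (mem_cons (W141 D T h) (mem_cons (W4054 D T h) (mem_cons (W4334 D T h) (mem_cons (W8206 D T h) (mem_cons (W4336 D T h) (mem_cons (W8207 D T h) (mem_cons (W1079 D T h) (mem_cons (W4328 D T h) (mem_cons (W8208 D T h) mem_nil))))))))))))))))) cl1857
theorem W8209 : WFK w8209 := fun D T h => wf_of_chk h mem_nil (mem_cons (L1857 D T h) mem_nil) cw8209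
theorem W8210 : WFK w8210 := fun D T h => wf_of_chk h mem_nil (mem_cons (L1608 D T h) mem_nil) cw8210
theorem W8212 : WFK w8212 := fun D T h => wf_of_chk h (mem_cons (W2520 D T h) (mem_cons (W37 D T h) mem_nil)) mem_nil cw8212
theorem L1859 : LFK l1859 := fun D T h => lf_of_chk h (mem_cons (W2015 D T h) (mem_cons (W8212 D T h) (mem_cons (W2321 D T h) (mem_cons (W1318 D T h) (mem_cons (W461 D T h) (mem_cons (W1929 D T h) (mem_cons (W126 D T h) (mem_cons (W3356 D T h) (mem_cons (W581 D T h) (mem_cons (W433 D T h) (mem_cons (W2809 D T h) mem_nil))))))))))) cl1859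
theorem W8213 : WFK w8213 := fun D T h => wf_of_chk h mem_nil (mem_cons (L1859 D T h) mem_nil) cw8213
theorem L1860 : LFK l1860 := fun D T h => lf_of_chk h (mem_cons (W114 D T h) (mem_cons (W181 D T h) (mem_cons (W2 D T h) (mem_cons (W1170 D T h) (mem_cons (W1204 D T h) (mem_cons (W2517 D T h) (mem_cons (W80 D T h) (mem_cons (W105 D T h) (mem_cons (W3031 D T h) (mem_cons (W7618 D T h) (mem_cons (W7109 D T h) (mem_cons (W2468 D T h) (mem_cons (W2515 D T h) (mem_cons (W7552 D T h) (mem_cons (W281 D T h) (mem_cons (W972 D T h) (mem_cons (W2137 D T h) (mem_cons (W33 D T h) mem_nil)))))))))))))))))) cl1860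
theorem W8214 : WFK w8214 := fun D T h => wf_of_chk h mem_nil (mem_cons (L1860 D T h) mem_nil) cw8214
theorem W8215 : WFK w8215 := fun D T h => wf_of_chk h (mem_cons (W8182 D T h) (mem_cons (W37 D T h) mem_nil)) mem_nil cw8215
theorem W8216 : WFK w8216 := fun D T h => wf_of_chk h (mem_cons (W669 D T h) (mem_cons (W16 D T h) mem_nil)) mem_nil cw8216
theorem W8217 : WFK w8217 := fun D T h => wf_of_chk h mem_nil (mem_cons (L1180 D T h) mem_nil) cw8217
theorem W8218 : WFK w8218 := fun D T h => wf_of_chk h mem_nil (mem_cons (L1146 D T h) mem_nil) cw8218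
theorem L1861 : LFK l1861 := fun D T h => lf_of_chk h (mem_cons (W1299 D T h) mem_nil) cl1861
theorem W8219 : WFK w8219 := fun D T h => wf_of_chk h mem_nil (mem_cons (L1861 D T h) mem_nil) cw8219
theorem W8220 : WFK w8220 := fun D T h => wf_of_chk h (mem_cons (W8219 D T h) (mem_cons (W16 D T h) mem_nil)) mem_nil cw8220
theorem W8230 : WFK w8230 := fun D T h => wf_of_chk h (mem_cons (W924 D T h) mem_nil) mem_nil cw8230
theorem L1863 : LFK l1863 := fun D T h => lf_of_chk h (mem_cons (W128 D T h) (mem_cons (W15 D T h) (mem_cons (W461 D T h) (mem_cons (W219 D T h) (mem_cons (W1064 D T h) (mem_cons (W932 D T h) (mem_cons (W2422 D T h) (mem_cons (W3696 D T h) (mem_cons (W581 D T h) (mem_cons (W5655 D T h) (mem_cons (W1209 D T h) (mem_cons (W1192 D T h) mem_nil)))))))))))) cl1863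
theorem W8231 : WFK w8231 := fun D T h => wf_of_chk h mem_nil (mem_cons (L1863 D T h) mem_nil) cw8231
theorem W8232 : WFK w8232 := fun D T h => wf_of_chk h (mem_cons (W50 D T h) (mem_cons (W2015 D T h) mem_nil)) mem_nil cw8232
theorem W8233 : WFK w8233 := fun D T h => wf_of_chk h mem_nil (mem_cons (L1141 D T h) mem_nil) cw8233
theorem W8234 : WFK w8234 := fun D T h => wf_of_chk h (mem_cons (W8233 D T h) (mem_cons (W16 D T h) mem_nil)) mem_nil cw8234
theorem W8235 : WFK w8235 := fun D T h => wf_of_chk h mem_nil (mem_cons (L1147 D T h) mem_nil) cw8235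
theorem W8236 : WFK w8236 := fun D T h => wf_of_chk h (mem_cons (W16 D T h) (mem_cons (W2015 D T h) mem_nil)) mem_nil cw8236
theorem L1864 : LFK l1864 := fun D T h => lf_of_chk h (mem_cons (W5209 D T h) (mem_cons (W2520 D T h) (mem_cons (W2 D T h) (mem_cons (W37 D T h) (mem_cons (W42 D T h) (mem_cons (W8231 D T h) (mem_cons (W6714 D T h) (mem_cons (W8236 D T h) (mem_cons (W6613 D T h) (mem_cons (W2936 D T h) (mem_cons (W5633 D T h) (mem_cons (W8234 D T h) (mem_cons (W1361 D T h) (mem_cons (W8232 D T h) (mem_cons (W8235 D T h) (mem_cons (W366 D T h) (mem_cons (W178 D T h) (mem_cons (W220 D T h) (mem_cons (W6968 D T h) (mem_cons (W8218 D T h) (mem_cons (W1139 D T h) (mem_cons (W7282 D T h) (mem_cons (W8220 D T h) (mem_cons (W2318 D T h) (mem_cons (W6740 D T h) (mem_cons (W2319 D T h) (mem_cons (W267 D T h) (mem_cons (W114 D T h) mem_nil)))))))))))))))))))))))))))) cl1864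
theorem W8237 : WFK w8237 := fun D T h => wf_of_chk h mem_nil (mem_cons (L1864 D T h) mem_nil) cw8237
theorem L1865 : LFK l1865 := fun D T h => lf_of_chk h (mem_cons (W42 D T h) (mem_cons (W177 D T h) (mem_cons (W34 D T h) (mem_cons (W461 D T h) (mem_cons (W3 D T h) (mem_cons (W39 D T h) (mem_cons (W6552 D T h) (mem_cons (W4032 D T h) (mem_cons (W1028 D T h) (mem_cons (W1554 D T h) (mem_cons (W581 D T h) (mem_cons (W1325 D T h) (mem_cons (W1326 D T h) (mem_cons (W1311 D T h) (mem_cons (W721 D T h) (mem_cons (W15 D T h) (mem_cons (W220 D T h) (mem_cons (W3766 D T h) (mem_cons (W267 D T h) mem_nil))))))))))))))))))) cl1865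
theorem W8238 : WFK w8238 := fun D T h => wf_of_chk h mem_nil (mem_cons (L1865 D T h) mem_nil) cw8238
theorem W8239 : WFK w8239 := fun D T h => wf_of_chk h (mem_cons (W143 D T h) mem_nil) mem_nil cw8239
theorem W8240 : WFK w8240 := fun D T h => wf_of_chk h mem_nil (mem_cons (L28 D T h) mem_nil) cw8240
theorem W8241 : WFK w8241 := fun D T h => wf_of_chk h mem_nil mem_nil cw8241
theorem L1866 : LFK l1866 := fun D T h => lf_of_chk h (mem_cons (W86 D T h) (mem_cons (W67 D T h) (mem_cons (W734 D T h) (mem_cons (W2443 D T h) (mem_cons (W8240 D T h) (mem_cons (W8241 D T h) (mem_cons (W651 D T h) (mem_cons (W1711 D T h) (mem_cons (W745 D T h) (mem_cons (W740 D T h) (mem_cons (W389 D T h) (mem_cons (W7722 D T h) (mem_cons (W7723 D T h) mem_nil))))))))))))) cl1866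
theorem W8242 : WFK w8242 := fun D T h => wf_of_chk h mem_nil (mem_cons (L1866 D T h) mem_nil) cw8242
theorem W8243 : WFK w8243 := fun D T h => wf_of_chk h mem_nil mem_nil cw8243
theorem W8244 : WFK w8244 := fun D T h => wf_of_chk h (mem_cons (W8243 D T h) mem_nil) mem_nil cw8244
theorem W8245 : WFK w8245 := fun D T h => wf_of_chk h (mem_cons (W75 D T h) (mem_cons (W143 D T h) mem_nil)) mem_nil cw8245
theorem W8246 : WFK w8246 := fun D T h => wf_of_chk h (mem_cons (W112 D T h) (mem_cons (W143 D T h) mem_nil)) mem_nil cw8246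
theorem L1867 : LFK l1867 := fun D T h => lf_of_chk h (mem_cons (W1166 D T h) (mem_cons (W83 D T h) (mem_cons (W93 D T h) (mem_cons (W1 D T h) (mem_cons (W143 D T h) (mem_cons (W69 D T h) (mem_cons (W7114 D T h) (mem_cons (W8239 D T h) (mem_cons (W8242 D T h) (mem_cons (W111 D T h) (mem_cons (W370 D T h) (mem_cons (W721 D T h) (mem_cons (W8246 D T h) (mem_cons (W267 D T h) (mem_cons (W114 D T h) (mem_cons (W2698 D T h) (mem_cons (W91 D T h) (mem_cons (W8244 D T h) (mem_cons (W80 D T h) (mem_cons (W8105 D T h) (mem_cons (W8245 D T h) (mem_cons (W4259 D T h) (mem_cons (W521 D T h) (mem_cons (W3565 D T h) (mem_cons (W3688 D T h) (mem_cons (W4566 D T h) mem_nil)))))))))))))))))))))))))) cl1867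
theorem W8247 : WFK w8247 := fun D T h => wf_of_chk h mem_nil (mem_cons (L1867 D T h) mem_nil) cw8247
theorem W8248 : WFK w8248 := fun D T h => wf_of_chk h mem_nil (mem_cons (L1023 D T h) mem_nil) cw8248
theorem W8249 : WFK w8249 := fun D T h => wf_of_chk h mem_nil (mem_cons (L1046 D T h) mem_nil) cw8249
theorem L1868 : LFK l1868 := fun D T h => lf_of_chk h (mem_cons (W4531 D T h) (mem_cons (W2015 D T h) (mem_cons (W34 D T h) (mem_cons (W1 D T h) (mem_cons (W69 D T h) (mem_cons (W93 D T h) (mem_cons (W86 D T h) (mem_cons (W85 D T h) (mem_cons (W1929 D T h) (mem_cons (W1501 D T h) (mem_cons (W1206 D T h) (mem_cons (W105 D T h) (mem_cons (W78 D T h) (mem_cons (W33 D T h) (mem_cons (W6725 D T h) (mem_cons (W573 D T h) (mem_cons (W5450 D T h) (mem_cons (W4260 D T h) (mem_cons (W1202 D T h) (mem_cons (W5943 D T h) (mem_cons (W1311 D T h) (mem_cons (W8247 D T h) (mem_cons (W1170 D T h) (mem_cons (W1204 D T h) (mem_cons (W114 D T h) (mem_cons (W7986 D T h) (mem_cons (W267 D T h)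 (mem_cons (W8248 D T h) (mem_cons (W8249 D T h) mem_nil))))))))))))))))))))))))))))) cl1868
theorem W8250 : WFK w8250 := fun D T h => wf_of_chk h mem_nil (mem_cons (L1868 D T h) mem_nil) cw8250
theorem W8251 : WFK w8251 := fun D T h => wf_of_chk h mem_nil (mem_cons (L1868 D T h) mem_nil) cw8251
theorem W8252 : WFK w8252 := fun D T h => wf_of_chk h mem_nil (mem_cons (L1563 D T h) mem_nil) cw8252
theorem L1869 : LFK l1869 := fun D T h => lf_of_chk h (mem_cons (W42 D T h) (mem_cons (W2015 D T h) (mem_cons (W34 D T h) (mem_cons (W461 D T h) (mem_cons (W3 D T h) (mem_cons (W39 D T h) (mem_cons (W1919 D T h) (mem_cons (W5841 D T h) (mem_cons (W111 D T h) (mem_cons (W281 D T h) (mem_cons (W1554 D T h) (mem_cons (W581 D T h) (mem_cons (W1325 D T h) (mem_cons (W1326 D T h) (mem_cons (W1311 D T h) (mem_cons (W721 D T h) (mem_cons (W15 D T h) (mem_cons (W267 D T h) (mem_cons (W722 D T h) mem_nil))))))))))))))))))) cl1869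
theorem W8253 : WFK w8253 := fun D T h => wf_of_chk h mem_nil (mem_cons (L1869 D T h) mem_nil) cw8253
theorem L1870 : LFK l1870 := fun D T h => lf_of_chk h (mem_cons (W2709 D T h) (mem_cons (W2319 D T h) (mem_cons (W2318 D T h) (mem_cons (W42 D T h) (mem_cons (W6714 D T h) (mem_cons (W34 D T h) (mem_cons (W2 D T h) (mem_cons (W37 D T h) (mem_cons (W8250 D T h) (mem_cons (W8236 D T h) (mem_cons (W6613 D T h) (mem_cons (W2936 D T h) (mem_cons (W5633 D T h) (mem_cons (W8253 D T h) (mem_cons (W8251 D T h) (mem_cons (W8233 D T h) (mem_cons (W8232 D T h) (mem_cons (W8252 D T h) (mem_cons (W6838 D T h) (mem_cons (W8238 D T h) (mem_cons (W2714 D T h) (mem_cons (W2058 D T h) (mem_cons (W220 D T h) (mem_cons (W6968 D T h) (mem_cons (W8185 D T h) (mem_cons (W1139 D T h) (mem_cons (W7232 D T h) (mem_cons (W3766 D T h) (mem_cons (W114 D T h) mem_nil))))))))))))))))))))))))))))) cl1870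
theorem W8254 : WFK w8254 := fun D T h => wf_of_chk h mem_nil (mem_cons (L1870 D T h) mem_nil) cw8254
theorem W8255 : WFK w8255 := fun D T h => wf_of_chk h (mem_cons (W16 D T h) (mem_cons (W162 D T h) mem_nil)) mem_nil cw8255
theorem W8256 : WFK w8256 := fun D T h => wf_of_chk h (mem_cons (W8255 D T h) (mem_cons (W37 D T h) mem_nil)) mem_nil cw8256
theorem W8257 : WFK w8257 := fun D T h => wf_of_chk h (mem_cons (W2015 D T h) (mem_cons (W16 D T h) mem_nil)) mem_nil cw8257
theorem W8258 : WFK w8258 := fun D T h => wf_of_chk h (mem_cons (W6758 D T h) (mem_cons (W37 D T h) mem_nil)) mem_nil cw8258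
theorem W8259 : WFK w8259 := fun D T h => wf_of_chk h (mem_cons (W8255 D T h) (mem_cons (W37 D T h) mem_nil)) mem_nil cw8259
theorem W8260 : WFK w8260 := fun D T h => wf_of_chk h mem_nil (mem_cons (L273 D T h) mem_nil) cw8260
theorem W8261 : WFK w8261 := fun D T h => wf_of_chk h (mem_cons (W155 D T h) (mem_cons (W16 D T h) mem_nil)) mem_nil cw8261
theorem W8262 : WFK w8262 := fun D T h => wf_of_chk h (mem_cons (W1616 D T h) (mem_cons (W16 D T h) mem_nil)) mem_nil cw8262
theorem W8263 : WFK w8263 := fun D T h => wf_of_chk h (mem_cons (W4806 D T h) (mem_cons (W16 D T h) mem_nil)) mem_nil cw8263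
theorem W8264 : WFK w8264 := fun D T h => wf_of_chk h mem_nil (mem_cons (L143 D T h) mem_nil) cw8264
theorem W8265 : WFK w8265 := fun D T h => wf_of_chk h mem_nil (mem_cons (L1 D T h) mem_nil) cw8265
theorem L1871 : LFK l1871 := fun D T h => lf_of_chk h (mem_cons (W1326 D T h) (mem_cons (W366 D T h) (mem_cons (W220 D T h) (mem_cons (W8263 D T h) (mem_cons (W871 D T h) (mem_cons (W257 D T h) (mem_cons (W748 D T h) (mem_cons (W1540 D T h) (mem_cons (W1 D T h) (mem_cons (W368 D T h) (mem_cons (W648 D T h) (mem_cons (W500 D T h) (mem_cons (W1128 D T h) (mem_cons (W8264 D T h) (mem_cons (W112 D T h) (mem_cons (W13 D T h) (mem_cons (W2690 D T h) (mem_cons (W8265 D T h) mem_nil)))))))))))))))))) cl1871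
theorem W8266 : WFK w8266 := fun D T h => wf_of_chk h mem_nil (mem_cons (L1871 D T h) mem_nil) cw8266
theorem W8267 : WFK w8267 := fun D T h => wf_of_chk h mem_nil (mem_cons (L255 D T h) mem_nil) cw8267
theorem W8268 : WFK w8268 := fun D T h => wf_of_chk h mem_nil (mem_cons (L1871 D T h) mem_nil) cw8268
theorem W8269 : WFK w8269 := fun D T h => wf_of_chk h mem_nil (mem_cons (L274 D T h) mem_nil) cw8269
theorem L1872 : LFK l1872 := fun D T h => lf_of_chk h (mem_cons (W2520 D T h) (mem_cons (W461 D T h) (mem_cons (W39 D T h) (mem_cons (W799 D T h) (mem_cons (W3 D T h) (mem_cons (W230 D T h) (mem_cons (W7719 D T h) (mem_cons (W2378 D T h) (mem_cons (W955 D T h) (mem_cons (W954 D T h) (mem_cons (W2145 D T h) (mem_cons (W3763 D T h) (mem_cons (W3406 D T h) mem_nil))))))))))))) cl1872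
theorem W8270 : WFK w8270 := fun D T h => wf_of_chk h mem_nil (mem_cons (L1872 D T h) mem_nil) cw8270
theorem W8271 : WFK w8271 := fun D T h => wf_of_chk h mem_nil (mem_cons (L787 D T h) mem_nil) cw8271
theorem W8272 : WFK w8272 := fun D T h => wf_of_chk h mem_nil (mem_cons (L757 D T h) mem_nil) cw8272
theorem W8273 : WFK w8273 := fun D T h => wf_of_chk h mem_nil (mem_cons (L731 D T h) mem_nil) cw8273
theorem W8274 : WFK w8274 := fun D T h => wf_of_chk h mem_nil (mem_cons (L429 D T h) mem_nil) cw8274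
theorem W8275 : WFK w8275 := fun D T h => wf_of_chk h mem_nil (mem_cons (L1141 D T h) mem_nil) cw8275
theorem L1873 : LFK l1873 := fun D T h => lf_of_chk h (mem_cons (W2627 D T h) (mem_cons (W6714 D T h) (mem_cons (W220 D T h) (mem_cons (W4531 D T h) (mem_cons (W15 D T h) (mem_cons (W8275 D T h) (mem_cons (W201 D T h) (mem_cons (W659 D T h) (mem_cons (W93 D T h) (mem_cons (W86 D T h) (mem_cons (W7243 D T h) (mem_cons (W6182 D T h) (mem_cons (W7242 D T h) (mem_cons (W6183 D T h) (mem_cons (W2620 D T h) (mem_cons (W5358 D T h) (mem_cons (W2743 D T h) (mem_cons (W8272 D T h) (mem_cons (W142 D T h) (mem_cons (W149 D T h) (mem_cons (W7240 D T h) (mem_cons (W6170 D T h) (mem_cons (W7241 D T h) (mem_cons (W6171 D T h) (mem_cons (W6175 D T h) (mem_cons (W3183 D T h) (mem_cons (W8273 D T h) (mem_cons (W164 D T h) (mem_cons (W42 D T h) (mem_cons (W8274 D T h) mem_nil)))))))))))))))))))))))))))))) cl1873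
theorem W8276 : WFK w8276 := fun D T h => wf_of_chk h mem_nil (mem_cons (L1873 D T h) mem_nil) cw8276
theorem L1874 : LFK l1874 := fun D T h => lf_of_chk h (mem_cons (W1449 D T h) (mem_cons (W162 D T h) (mem_cons (W6714 D T h) (mem_cons (W199 D T h) (mem_cons (W201 D T h) (mem_cons (W34 D T h) (mem_cons (W3 D T h) (mem_cons (W3406 D T h) (mem_cons (W3407 D T h) (mem_cons (W12 D T h) (mem_cons (W6103 D T h) (mem_cons (W13 D T h) (mem_cons (W3404 D T h) (mem_cons (W3402 D T h) (mem_cons (W3405 D T h) mem_nil))))))))))))))) cl1874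
theorem W8277 : WFK w8277 := fun D T h => wf_of_chk h mem_nil (mem_cons (L1874 D T h) mem_nil) cw8277
theorem L1875 : LFK l1875 := fun D T h => lf_of_chk h (mem_cons (W3953 D T h) (mem_cons (W1068 D T h) (mem_cons (W2709 D T h) (mem_cons (W1063 D T h) (mem_cons (W42 D T h) (mem_cons (W5874 D T h) (mem_cons (W7084 D T h) (mem_cons (W5875 D T h) (mem_cons (W162 D T h) (mem_cons (W8261 D T h) (mem_cons (W6714 D T h) (mem_cons (W8270 D T h) (mem_cons (W1449 D T h) (mem_cons (W8276 D T h) (mem_cons (W7376 D T h) (mem_cons (W7436 D T h) (mem_cons (W8277 D T h) (mem_cons (W2051 D T h) (mem_cons (W581 D T h) (mem_cons (W7076 D T h) (mem_cons (W8262 D T h) (mem_cons (W1326 D T h) (mem_cons (W8266 D T h) (mem_cons (W8267 D T h) (mem_cons (W7559 D T h) (mem_cons (W7311 D T h) (mem_cons (W8268 D T h) (mem_cons (W495 D T h) (mem_cons (W497 D T h) (mem_cons (W8269 D T h) mem_nil)))))))))))))))))))))))))))))) cl1875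
theorem W8278 : WFK w8278 := fun D T h => wf_of_chk h mem_nil (mem_cons (L1875 D T h) mem_nil) cw8278
theorem W8279 : WFK w8279 := fun D T h => wf_of_chk h (mem_cons (W50 D T h) (mem_cons (W2839 D T h) mem_nil)) mem_nil cw8279
theorem W8280 : WFK w8280 := fun D T h => wf_of_chk h (mem_cons (W50 D T h) (mem_cons (W2839 D T h) mem_nil)) mem_nil cw8280
theorem W8281 : WFK w8281 := fun D T h => wf_of_chk h mem_nil (mem_cons (L1563 D T h) mem_nil) cw8281
theorem W8282 : WFK w8282 := fun D T h => wf_of_chk h mem_nil (mem_cons (L1563 D T h) mem_nil) cw8282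
theorem W8283 : WFK w8283 := fun D T h => wf_of_chk h mem_nil (mem_cons (L1563 D T h) mem_nil) cw8283
theorem L1876 : LFK l1876 := fun D T h => lf_of_chk h (mem_cons (W128 D T h) (mem_cons (W219 D T h) (mem_cons (W15 D T h) (mem_cons (W20 D T h) (mem_cons (W437 D T h) (mem_cons (W1501 D T h) (mem_cons (W1065 D T h) (mem_cons (W581 D T h) (mem_cons (W3686 D T h) (mem_cons (W1064 D T h) mem_nil)))))))))) cl1876
theorem W8284 : WFK w8284 := fun D T h => wf_of_chk h mem_nil (mem_cons (L1876 D T h) mem_nil) cw8284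
theorem L1877 : LFK l1877 := fun D T h => lf_of_chk h (mem_cons (W721 D T h) (mem_cons (W2015 D T h) (mem_cons (W126 D T h) (mem_cons (W1409 D T h) (mem_cons (W3 D T h) (mem_cons (W39 D T h) (mem_cons (W7196 D T h) (mem_cons (W2517 D T h) (mem_cons (W6032 D T h) (mem_cons (W8284 D T h) (mem_cons (W178 D T h) (mem_cons (W746 D T h) (mem_cons (W747 D T h) (mem_cons (W258 D T h) (mem_cons (W748 D T h) (mem_cons (W1311 D T h) (mem_cons (W281 D T h) (mem_cons (W263 D T h) (mem_cons (W762 D T h) mem_nil))))))))))))))))))) cl1877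
theorem W8285 : WFK w8285 := fun D T h => wf_of_chk h mem_nil (mem_cons (L1877 D T h) mem_nil) cw8285
theorem L1878 : LFK l1878 := fun D T h => lf_of_chk h (mem_cons (W128 D T h) (mem_cons (W1064 D T h) (mem_cons (W219 D T h) (mem_cons (W15 D T h) (mem_cons (W1408 D T h) (mem_cons (W5258 D T h) (mem_cons (W4038 D T h) (mem_cons (W581 D T h) (mem_cons (W5655 D T h) (mem_cons (W1209 D T h) (mem_cons (W1192 D T h) mem_nil))))))))))) cl1878
theorem W8286 : WFK w8286 := fun D T h => wf_of_chk h mem_nil (mem_cons (L1878 D T h) mem_nil) cw8286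
theorem L1879 : LFK l1879 := fun D T h => lf_of_chk h (mem_cons (W7212 D T h) (mem_cons (W2839 D T h) (mem_cons (W1 D T h) (mem_cons (W368 D T h) (mem_cons (W69 D T h) (mem_cons (W370 D T h) (mem_cons (W5606 D T h) (mem_cons (W4262 D T h) (mem_cons (W390 D T h) (mem_cons (W375 D T h) (mem_cons (W2529 D T h) (mem_cons (W2575 D T h) (mem_cons (W2548 D T h) (mem_cons (W5177 D T h) (mem_cons (W8286 D T h) mem_nil))))))))))))))) cl1879
theorem L1880 : LFK l1880 := fun D T h => lf_of_chk h (mem_cons (W7041 D T h) (mem_cons (W177 D T h) (mem_cons (W50 D T h) (mem_cons (W1063 D T h) (mem_cons (W16 D T h) (mem_cons (W14 D T h) (mem_cons (W4411 D T h) (mem_cons (W5290 D T h) (mem_cons (W5721 D T h) (mem_cons (W3815 D T h) (mem_cons (W42 D T h) (mem_cons (W3038 D T h) (mem_cons (W2331 D T h) (mem_cons (W8281 D T h) (mem_cons (W8282 D T h) (mem_cons (W8283 D T h) (mem_cons (W5177 D T h) (mem_cons (W8285 D T h) (mem_cons (W8286 D T h) mem_nil))))))))))))))))))) cl1880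
theorem W8288 : WFK w8288 := fun D T h => wf_of_chk h mem_nil (mem_cons (L1880 D T h) mem_nil) cw8288
theorem W8289 : WFK w8289 := fun D T h => wf_of_chk h mem_nil (mem_cons (L1880 D T h) mem_nil) cw8289
theorem W8290 : WFK w8290 := fun D T h => wf_of_chk h (mem_cons (W16 D T h) (mem_cons (W2839 D T h) mem_nil)) mem_nil cw8290
theorem W8291 : WFK w8291 := fun D T h => wf_of_chk h mem_nil (mem_cons (L1835 D T h) mem_nil) cw8291
theorem W8292 : WFK w8292 := fun D T h => wf_of_chk h mem_nil (mem_cons (L1394 D T h) mem_nil) cw8292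
theorem L1881 : LFK l1881 := fun D T h => lf_of_chk h (mem_cons (W1291 D T h) (mem_cons (W2839 D T h) (mem_cons (W16 D T h) (mem_cons (W1063 D T h) (mem_cons (W14 D T h) (mem_cons (W1309 D T h) (mem_cons (W4287 D T h) (mem_cons (W5290 D T h) (mem_cons (W2520 D T h) (mem_cons (W6114 D T h) (mem_cons (W6436 D T h) (mem_cons (W5278 D T h) (mem_cons (W8292 D T h) (mem_cons (W1188 D T h) (mem_cons (W42 D T h) (mem_cons (W7114 D T h) (mem_cons (W3304 D T h) (mem_cons (W3408 D T h) (mem_cons (W3305 D T h) (mem_cons (W5177 D T h) (mem_cons (W8286 D T h) mem_nil))))))))))))))))))))) cl1881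
theorem W8293 : WFK w8293 := fun D T h => wf_of_chk h mem_nil (mem_cons (L1881 D T h) mem_nil) cw8293
theorem W8294 : WFK w8294 := fun D T h => wf_of_chk h mem_nil (mem_cons (L1881 D T h) mem_nil) cw8294
theorem L1882 : LFK l1882 := fun D T h => lf_of_chk h (mem_cons (W8180 D T h) (mem_cons (W16 D T h) (mem_cons (W1318 D T h) (mem_cons (W804 D T h) (mem_cons (W1063 D T h) (mem_cons (W1291 D T h) (mem_cons (W8278 D T h) (mem_cons (W8290 D T h) (mem_cons (W8291 D T h) (mem_cons (W8294 D T h) (mem_cons (W284 D T h) (mem_cons (W8293 D T h) (mem_cons (W7041 D T h) (mem_cons (W2326 D T h) (mem_cons (W8279 D T h) (mem_cons (W8280 D T h) (mem_cons (W8288 D T h) (mem_cons (W8289 D T h) (mem_cons (W2375 D T h) (mem_cons (W2709 D T h) (mem_cons (W8257 D T h) (mem_cons (W8258 D T h) (mem_cons (W8259 D T h) (mem_cons (W8260 D T h) (mem_cons (W8214 D T h) (mem_cons (W5721 D T h) (mem_cons (W8215 D T h) (mem_cons (W8216 D T h) (mem_cons (W8217 D T h) (mem_cons (W8237 D T h) (mem_cons (W7429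 D T h) (mem_cons (W8254 D T h) (mem_cons (W2015 D T h) (mem_cons (W2037 D T h) (mem_cons (W8256 D T h) (mem_cons (W5258 D T h) (mem_cons (W8181 D T h) (mem_cons (W8183 D T h) (mem_cons (W5277 D T h) (mem_cons (W128 D T h) (mem_cons (W8213 D T h) mem_nil))))))))))))))))))))))))))))))))))))))))) cl1882
theorem W8295 : WFK w8295 := fun D T h => wf_of_chk h mem_nil (mem_cons (L1882 D T h) mem_nil) cw8295
theorem W8296 : WFK w8296 := fun D T h => wf_of_chk h (mem_cons (W1299 D T h) (mem_cons (W337 D T h) mem_nil)) mem_nil cw8296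
theorem W8297 : WFK w8297 := fun D T h => wf_of_chk h mem_nil (mem_cons (L654 D T h) mem_nil) cw8297
theorem W8298 : WFK w8298 := fun D T h => wf_of_chk h (mem_cons (W711 D T h) (mem_cons (W337 D T h) mem_nil)) mem_nil cw8298
theorem L1883 : LFK l1883 := fun D T h => lf_of_chk h (mem_cons (W7863 D T h) (mem_cons (W2868 D T h) (mem_cons (W2861 D T h) (mem_cons (W8297 D T h) (mem_cons (W2 D T h) (mem_cons (W284 D T h) (mem_cons (W2934 D T h) (mem_cons (W5633 D T h) (mem_cons (W6613 D T h) (mem_cons (W7870 D T h) (mem_cons (W50 D T h) (mem_cons (W1327 D T h) (mem_cons (W8298 D T h) (mem_cons (W2839 D T h) (mem_cons (W6480 D T h) (mem_cons (W2936 D T h) (mem_cons (W2050 D T h) (mem_cons (W2024 D T h) (mem_cons (W7862 D T h) (mem_cons (W6719 D T h) (mem_cons (W5655 D T h) (mem_cons (W3961 D T h) (mem_cons (W2405 D T h) (mem_cons (W7939 D T h) (mem_cons (W5347 D T h) (mem_cons (W6446 D T h) (mem_cons (W8296 D T h) mem_nil))))))))))))))))))))))))))) cl1883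
theorem W8299 : WFK w8299 := fun D T h => wf_of_chk h mem_nil (mem_cons (L1883 D T h) mem_nil) cw8299
theorem W8300 : WFK w8300 := fun D T h => wf_of_chk h mem_nil (mem_cons (L895 D T h) mem_nil) cw8300
theorem W8301 : WFK w8301 := fun D T h => wf_of_chk h (mem_cons (W220 D T h) (mem_cons (W2391 D T h) mem_nil)) mem_nil cw8301
theorem W8302 : WFK w8302 := fun D T h => wf_of_chk h (mem_cons (W16 D T h) (mem_cons (W2828 D T h) mem_nil)) mem_nil cw8302
theorem W8303 : WFK w8303 := fun D T h => wf_of_chk h (mem_cons (W69 D T h) (mem_cons (W284 D T h) mem_nil)) mem_nil cw8303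
theorem W8304 : WFK w8304 := fun D T h => wf_of_chk h (mem_cons (W69 D T h) (mem_cons (W284 D T h) mem_nil)) mem_nil cw8304
theorem W8305 : WFK w8305 := fun D T h => wf_of_chk h (mem_cons (W105 D T h) (mem_cons (W284 D T h) mem_nil)) mem_nil cw8305
theorem W8306 : WFK w8306 := fun D T h => wf_of_chk h (mem_cons (W1588 D T h) (mem_cons (W284 D T h) mem_nil)) mem_nil cw8306
theorem W8307 : WFK w8307 := fun D T h => wf_of_chk h (mem_cons (W220 D T h) (mem_cons (W2828 D T h) mem_nil)) mem_nil cw8307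
theorem W8308 : WFK w8308 := fun D T h => wf_of_chk h (mem_cons (W519 D T h) (mem_cons (W284 D T h) mem_nil)) mem_nil cw8308
theorem W8309 : WFK w8309 := fun D T h => wf_of_chk h (mem_cons (W1588 D T h) (mem_cons (W284 D T h) mem_nil)) mem_nil cw8309
theorem W8310 : WFK w8310 := fun D T h => wf_of_chk h (mem_cons (W230 D T h) (mem_cons (W284 D T h) mem_nil)) mem_nil cw8310
theorem W8311 : WFK w8311 := fun D T h => wf_of_chk h (mem_cons (W757 D T h) (mem_cons (W16 D T h) mem_nil)) mem_nil cw8311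
theorem W8312 : WFK w8312 := fun D T h => wf_of_chk h (mem_cons (W83 D T h) (mem_cons (W284 D T h) mem_nil)) mem_nil cw8312
theorem W8313 : WFK w8313 := fun D T h => wf_of_chk h (mem_cons (W162 D T h) (mem_cons (W1331 D T h) mem_nil)) mem_nil cw8313
theorem W8314 : WFK w8314 := fun D T h => wf_of_chk h (mem_cons (W2740 D T h) (mem_cons (W16 D T h) mem_nil)) mem_nil cw8314
theorem W8315 : WFK w8315 := fun D T h => wf_of_chk h (mem_cons (W1139 D T h) (mem_cons (W230 D T h) mem_nil)) mem_nil cw8315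
theorem W8316 : WFK w8316 := fun D T h => wf_of_chk h mem_nil (mem_cons (L1545 D T h) mem_nil) cw8316
theorem W8317 : WFK w8317 := fun D T h => wf_of_chk h (mem_cons (W8316 D T h) (mem_cons (W16 D T h) mem_nil)) mem_nil cw8317
theorem W8318 : WFK w8318 := fun D T h => wf_of_chk h (mem_cons (W128 D T h) (mem_cons (W230 D T h) mem_nil)) mem_nil cw8318
theorem W8319 : WFK w8319 := fun D T h => wf_of_chk h (mem_cons (W1139 D T h) (mem_cons (W230 D T h) mem_nil)) mem_nil cw8319
theorem W8320 : WFK w8320 := fun D T h => wf_of_chk h (mem_cons (W241 D T h) (mem_cons (W284 D T h) mem_nil)) mem_nil cw8320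
theorem L1884 : LFK l1884 := fun D T h => lf_of_chk h (mem_cons (W8302 D T h) (mem_cons (W616 D T h) (mem_cons (W284 D T h) (mem_cons (W7719 D T h) (mem_cons (W1209 D T h) (mem_cons (W3043 D T h) (mem_cons (W5211 D T h) (mem_cons (W5212 D T h) (mem_cons (W3953 D T h) (mem_cons (W3305 D T h) (mem_cons (W8314 D T h) (mem_cons (W1139 D T h) (mem_cons (W128 D T h) (mem_cons (W1141 D T h) (mem_cons (W8315 D T h) (mem_cons (W8317 D T h) (mem_cons (W8318 D T h) (mem_cons (W8319 D T h) (mem_cons (W502 D T h) (mem_cons (W2520 D T h) (mem_cons (W8311 D T h) (mem_cons (W2015 D T h) (mem_cons (W8320 D T h) (mem_cons (W8310 D T h) (mem_cons (W16 D T h) (mem_cons (W2828 D T h) (mem_cons (W8303 D T h) (mem_cons (W5721 D T h) (mem_cons (W8304 D T h) (mem_cons (W8312 D T h) (mem_cons (W2709 D T h) (mem_cons (W2037 D T h) (mem_cons (W8313 D T h) (mem_cons (W8305 D T h) (mem_cons (W8306 D T h) (mem_cons (W8307 D T h) (mem_cons (W8308 D T h) (mem_cons (W8309 D T h) mem_nil))))))))))))))))))))))))))))))))))))))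 cl1884
theorem W8321 : WFK w8321 := fun D T h => wf_of_chk h mem_nil (mem_cons (L1884 D T h) mem_nil) cw8321
theorem W8322 : WFK w8322 := fun D T h => wf_of_chk h (mem_cons (W8321 D T h) (mem_cons (W37 D T h) mem_nil)) mem_nil cw8322
theorem W8323 : WFK w8323 := fun D T h => wf_of_chk h (mem_cons (W220 D T h) (mem_cons (W2391 D T h) mem_nil)) mem_nil cw8323
theorem W8325 : WFK w8325 := fun D T h => wf_of_chk h mem_nil mem_nil cw8325
theorem L1885 : LFK l1885 := fun D T h => lf_of_chk h (mem_cons (W6743 D T h) (mem_cons (W2828 D T h) (mem_cons (W1227 D T h) (mem_cons (W15 D T h) (mem_cons (W144 D T h) (mem_cons (W220 D T h) (mem_cons (W6759 D T h) (mem_cons (W5258 D T h) (mem_cons (W6977 D T h) (mem_cons (W209 D T h) (mem_cons (W2912 D T h) (mem_cons (W669 D T h) (mem_cons (W341 D T h) (mem_cons (W177 D T h) (mem_cons (W8325 D T h) (mem_cons (W7212 D T h) (mem_cons (W4531 D T h) (mem_cons (W7401 D T h) (mem_cons (W3958 D T h) mem_nil))))))))))))))))))) cl1885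
theorem W8328 : WFK w8328 := fun D T h => wf_of_chk h (mem_cons (W15 D T h) (mem_cons (W284 D T h) mem_nil)) mem_nil cw8328
theorem W8329 : WFK w8329 := fun D T h => wf_of_chk h mem_nil (mem_cons (L1514 D T h) mem_nil) cw8329
theorem W8330 : WFK w8330 := fun D T h => wf_of_chk h (mem_cons (W337 D T h) mem_nil) mem_nil cw8330
theorem W8331 : WFK w8331 := fun D T h => wf_of_chk h mem_nil (mem_cons (L391 D T h) mem_nil) cw8331
theorem W8332 : WFK w8332 := fun D T h => wf_of_chk h mem_nil (mem_cons (L446 D T h) mem_nil) cw8332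
theorem W8333 : WFK w8333 := fun D T h => wf_of_chk h mem_nil (mem_cons (L1514 D T h) mem_nil) cw8333
theorem L1886 : LFK l1886 := fun D T h => lf_of_chk h (mem_cons (W7401 D T h) (mem_cons (W2839 D T h) (mem_cons (W220 D T h) (mem_cons (W144 D T h) (mem_cons (W5875 D T h) (mem_cons (W8331 D T h) (mem_cons (W7541 D T h) (mem_cons (W8332 D T h) (mem_cons (W15 D T h) (mem_cons (W2645 D T h) (mem_cons (W8333 D T h) (mem_cons (W2740 D T h) (mem_cons (W149 D T h) (mem_cons (W1747 D T h) (mem_cons (W2743 D T h) (mem_cons (W8329 D T h) (mem_cons (W497 D T h) (mem_cons (W5247 D T h) (mem_cons (W8330 D T h) mem_nil))))))))))))))))))) cl1886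
theorem W8335 : WFK w8335 := fun D T h => wf_of_chk h mem_nil (mem_cons (L108 D T h) mem_nil) cw8335
theorem L1887 : LFK l1887 := fun D T h => lf_of_chk h (mem_cons (W149 D T h) (mem_cons (W33 D T h) (mem_cons (W4 D T h) (mem_cons (W91 D T h) (mem_cons (W638 D T h) (mem_cons (W1538 D T h) (mem_cons (W1473 D T h) (mem_cons (W1540 D T h) mem_nil)))))))) cl1887
theorem W8336 : WFK w8336 := fun D T h => wf_of_chk h mem_nil (mem_cons (L1887 D T h) mem_nil) cw8336
theorem L1888 : LFK l1888 := fun D T h => lf_of_chk h (mem_cons (W1227 D T h) (mem_cons (W7466 D T h) (mem_cons (W932 D T h) (mem_cons (W1166 D T h) (mem_cons (W15 D T h) (mem_cons (W871 D T h) (mem_cons (W2629 D T h) (mem_cons (W2628 D T h) (mem_cons (W2538 D T h) (mem_cons (W7541 D T h) (mem_cons (W220 D T h) (mem_cons (W144 D T h) (mem_cons (W2554 D T h) (mem_cons (W8331 D T h) (mem_cons (W2627 D T h) (mem_cons (W7915 D T h) (mem_cons (W1588 D T h) (mem_cons (W6232 D T h) (mem_cons (W149 D T h) (mem_cons (W8336 D T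 h) (mem_cons (W7573 D T h) (mem_cons (W2831 D T h) (mem_cons (W7276 D T h) (mem_cons (W2555 D T h) (mem_cons (W495 D T h) (mem_cons (W8335 D T h) (mem_cons (W2548 D T h) (mem_cons (W5448 D T h) (mem_cons (W8128 D T h) mem_nil))))))))))))))))))))))))))))) cl1888
theorem W8337 : WFK w8337 := fun D T h => wf_of_chk h mem_nil (mem_cons (L1888 D T h) mem_nil) cw8337
theorem W8338 : WFK w8338 := fun D T h => wf_of_chk h (mem_cons (W16 D T h) (mem_cons (W7466 D T h) mem_nil)) mem_nil cw8338
theorem W8342 : WFK w8342 := fun D T h => wf_of_chk h mem_nil (mem_cons (L766 D T h) mem_nil) cw8342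
theorem W8344 : WFK w8344 := fun D T h => wf_of_chk h (mem_cons (W3766 D T h) mem_nil) mem_nil cw8344
theorem W8346 : WFK w8346 := fun D T h => wf_of_chk h mem_nil (mem_cons (L1217 D T h) mem_nil) cw8346
theorem W8349 : WFK w8349 := fun D T h => wf_of_chk h (mem_cons (W7466 D T h) mem_nil) mem_nil cw8349
theorem W8350 : WFK w8350 := fun D T h => wf_of_chk h mem_nil (mem_cons (L108 D T h) mem_nil) cw8350
theorem W8355 : WFK w8355 := fun D T h => wf_of_chk h mem_nil (mem_cons (L1608 D T h) mem_nil) cw8355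
theorem W8359 : WFK w8359 := fun D T h => wf_of_chk h mem_nil (mem_cons (L391 D T h) mem_nil) cw8359
theorem W8363 : WFK w8363 := fun D T h => wf_of_chk h mem_nil (mem_cons (L1247 D T h) mem_nil) cw8363
theorem W8364 : WFK w8364 := fun D T h => wf_of_chk h mem_nil (mem_cons (L240 D T h) mem_nil) cw8364
theorem W8378 : WFK w8378 := fun D T h => wf_of_chk h mem_nil (mem_cons (L1832 D T h) mem_nil) cw8378
theorem W8380 : WFK w8380 := fun D T h => wf_of_chk h mem_nil (mem_cons (L1537 D T h) mem_nil) cw8380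
theorem W8383 : WFK w8383 := fun D T h => wf_of_chk h (mem_cons (W16 D T h) (mem_cons (W1019 D T h) mem_nil)) mem_nil cw8383
theorem W8384 : WFK w8384 := fun D T h => wf_of_chk h (mem_cons (W16 D T h) (mem_cons (W1019 D T h) mem_nil)) mem_nil cw8384
theorem W8385 : WFK w8385 := fun D T h => wf_of_chk h mem_nil (mem_cons (L1835 D T h) mem_nil) cw8385
theorem W8386 : WFK w8386 := fun D T h => wf_of_chk h (mem_cons (W284 D T h) (mem_cons (W1019 D T h) mem_nil)) mem_nil cw8386
theorem W8387 : WFK w8387 := fun D T h => wf_of_chk h (mem_cons (W284 D T h) (mem_cons (W7466 D T h) mem_nil)) mem_nil cw8387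
theorem W8393 : WFK w8393 := fun D T h => wf_of_chk h (mem_cons (W284 D T h) mem_nil) mem_nil cw8393
theorem W8396 : WFK w8396 := fun D T h => wf_of_chk h mem_nil (mem_cons (L1599 D T h) mem_nil) cw8396
theorem W8397 : WFK w8397 := fun D T h => wf_of_chk h mem_nil (mem_cons (L1258 D T h) mem_nil) cw8397
theorem W8398 : WFK w8398 := fun D T h => wf_of_chk h mem_nil (mem_cons (L1537 D T h) mem_nil) cw8398
theorem L1892 : LFK l1892 := fun D T h => lf_of_chk h (mem_cons (W153 D T h) (mem_cons (W281 D T h) (mem_cons (W1092 D T h) (mem_cons (W2636 D T h) (mem_cons (W161 D T h) (mem_cons (W154 D T h) (mem_cons (W33 D T h) (mem_cons (W1393 D T h) (mem_cons (W2632 D T h) (mem_cons (W1546 D T h) (mem_cons (W1540 D T h) (mem_cons (W430 D T h) mem_nil)))))))))))) cl1892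
theorem W8400 : WFK w8400 := fun D T h => wf_of_chk h mem_nil (mem_cons (L1892 D T h) mem_nil) cw8400
theorem W8401 : WFK w8401 := fun D T h => wf_of_chk h mem_nil (mem_cons (L660 D T h) mem_nil) cw8401
theorem W8402 : WFK w8402 := fun D T h => wf_of_chk h (mem_cons (W669 D T h) mem_nil) mem_nil cw8402
theorem L1893 : LFK l1893 := fun D T h => lf_of_chk h (mem_cons (W42 D T h) (mem_cons (W8401 D T h) (mem_cons (W669 D T h) (mem_cons (W39 D T h) (mem_cons (W220 D T h) (mem_cons (W142 D T h) (mem_cons (W1139 D T h) (mem_cons (W6782 D T h) (mem_cons (W716 D T h) (mem_cons (W6824 D T h) (mem_cons (W5447 D T h) (mem_cons (W3 D T h) (mem_cons (W1919 D T h) (mem_cons (W281 D T h) (mem_cons (W8402 D T h) (mem_cons (W1326 D T h) (mem_cons (W1325 D T h) (mem_cons (W581 D T h) (mem_cons (W1554 D T h) (mem_cons (W1307 D T h) (mem_cons (W267 D T h) (mem_cons (W431 D T h) (mem_cons (W721 D T h) mem_nil))))))))))))))))))))))) cl1893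
theorem W8403 : WFK w8403 := fun D T h => wf_of_chk h mem_nil (mem_cons (L1893 D T h) mem_nil) cw8403
theorem W8406 : WFK w8406 := fun D T h => wf_of_chk h mem_nil (mem_cons (L1835 D T h) mem_nil) cw8406
theorem W8409 : WFK w8409 := fun D T h => wf_of_chk h (mem_cons (W497 D T h) (mem_cons (W368 D T h) mem_nil)) mem_nil cw8409
theorem L1894 : LFK l1894 := fun D T h => lf_of_chk h (mem_cons (W669 D T h) (mem_cons (W8406 D T h) (mem_cons (W220 D T h) (mem_cons (W15 D T h) (mem_cons (W144 D T h) (mem_cons (W2828 D T h) (mem_cons (W7401 D T h) (mem_cons (W1227 D T h) (mem_cons (W3958 D T h) (mem_cons (W5258 D T h) (mem_cons (W6977 D T h) (mem_cons (W209 D T h) (mem_cons (W2912 D T h) (mem_cons (W4531 D T h) (mem_cons (W177 D T h) (mem_cons (W8409 D T h) (mem_cons (W7212 D T h) (mem_cons (W6743 D T h) mem_nil)))))))))))))))))) cl1894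
theorem W8410 : WFK w8410 := fun D T h => wf_of_chk h mem_nil (mem_cons (L1894 D T h) mem_nil) cw8410
theorem L1895 : LFK l1895 := fun D T h => lf_of_chk h (mem_cons (W284 D T h) (mem_cons (W6613 D T h) (mem_cons (W2037 D T h) (mem_cons (W5633 D T h) (mem_cons (W42 D T h) (mem_cons (W1063 D T h) (mem_cons (W16 D T h) (mem_cons (W7114 D T h) (mem_cons (W15 D T h) (mem_cons (W8410 D T h) (mem_cons (W1139 D T h) (mem_cons (W261 D T h) (mem_cons (W128 D T h) mem_nil))))))))))))) cl1895
theorem W8411 : WFK w8411 := fun D T h => wf_of_chk h mem_nil (mem_cons (L1895 D T h) mem_nil) cw8411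
theorem W8412 : WFK w8412 := fun D T h => wf_of_chk h mem_nil (mem_cons (L1091 D T h) mem_nil) cw8412
theorem L1896 : LFK l1896 := fun D T h => lf_of_chk h (mem_cons (W581 D T h) (mem_cons (W114 D T h) (mem_cons (W281 D T h) (mem_cons (W1184 D T h) (mem_cons (W140 D T h) (mem_cons (W141 D T h) (mem_cons (W1128 D T h) (mem_cons (W126 D T h) (mem_cons (W1616 D T h) (mem_cons (W1129 D T h) (mem_cons (W3274 D T h) (mem_cons (W12 D T h) (mem_cons (W5358 D T h) (mem_cons (W1520 D T h) (mem_cons (W1666 D T h) (mem_cons (W765 D T h) (mem_cons (W1556 D T h) (mem_cons (W8412 D T h) (mem_cons (W160 D T h) (mem_cons (W255 D T h) (mem_cons (W747 D T h) (mem_cons (W871 D T h) mem_nil)))))))))))))))))))))) cl1896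
theorem W8413 : WFK w8413 := fun D T h => wf_of_chk h mem_nil (mem_cons (L1896 D T h) mem_nil) cw8413
theorem W8414 : WFK w8414 := fun D T h => wf_of_chk h (mem_cons (W8413 D T h) (mem_cons (W37 D T h) mem_nil)) mem_nil cw8414
theorem W8415 : WFK w8415 := fun D T h => wf_of_chk h (mem_cons (W6892 D T h) (mem_cons (W16 D T h) mem_nil)) mem_nil cw8415
theorem W8416 : WFK w8416 := fun D T h => wf_of_chk h mem_nil (mem_cons (L1615 D T h) mem_nil) cw8416
theorem W8417 : WFK w8417 := fun D T h => wf_of_chk h (mem_cons (W128 D T h) (mem_cons (W16 D T h) mem_nil)) mem_nil cw8417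
theorem W8418 : WFK w8418 := fun D T h => wf_of_chk h (mem_cons (W8417 D T h) (mem_cons (W37 D T h) mem_nil)) mem_nil cw8418
theorem W8419 : WFK w8419 := fun D T h => wf_of_chk h (mem_cons (W2015 D T h) (mem_cons (W16 D T h) mem_nil)) mem_nil cw8419
theorem W8421 : WFK w8421 := fun D T h => wf_of_chk h (mem_cons (W284 D T h) (mem_cons (W37 D T h) mem_nil)) mem_nil cw8421
theorem W8422 : WFK w8422 := fun D T h => wf_of_chk h (mem_cons (W8421 D T h) (mem_cons (W16 D T h) mem_nil)) mem_nil cw8422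
theorem W8423 : WFK w8423 := fun D T h => wf_of_chk h (mem_cons (W158 D T h) (mem_cons (W284 D T h) mem_nil)) mem_nil cw8423
theorem W8424 : WFK w8424 := fun D T h => wf_of_chk h mem_nil (mem_cons (L1832 D T h) mem_nil) cw8424
theorem W8426 : WFK w8426 := fun D T h => wf_of_chk h (mem_cons (W281 D T h) (mem_cons (W284 D T h) mem_nil)) mem_nil cw8426
theorem L1897 : LFK l1897 := fun D T h => lf_of_chk h (mem_cons (W5721 D T h) (mem_cons (W1 D T h) (mem_cons (W284 D T h) (mem_cons (W797 D T h) (mem_cons (W535 D T h) (mem_cons (W7076 D T h) (mem_cons (W1139 D T h) (mem_cons (W128 D T h) (mem_cons (W1331 D T h) (mem_cons (W2828 D T h) (mem_cons (W181 D T h) (mem_cons (W7719 D T h) (mem_cons (W8423 D T h) (mem_cons (W8424 D T h) (mem_cons (W375 D T h) (mem_cons (W7550 D T h) (mem_cons (W1919 D T h) (mem_cons (W34 D T h) (mem_cons (W8426 D T h) mem_nil))))))))))))))))))) cl1897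
theorem W8427 : WFK w8427 := fun D T h => wf_of_chk h mem_nil (mem_cons (L1897 D T h) mem_nil) cw8427
theorem W8428 : WFK w8428 := fun D T h => wf_of_chk h (mem_cons (W8427 D T h) (mem_cons (W37 D T h) mem_nil)) mem_nil cw8428
theorem W8429 : WFK w8429 := fun D T h => wf_of_chk h (mem_cons (W162 D T h) (mem_cons (W2391 D T h) mem_nil)) mem_nil cw8429
theorem W8430 : WFK w8430 := fun D T h => wf_of_chk h mem_nil (mem_cons (L1718 D T h) mem_nil) cw8430
theorem W8431 : WFK w8431 := fun D T h => wf_of_chk h mem_nil (mem_cons (L1883 D T h) mem_nil) cw8431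
theorem W8432 : WFK w8432 := fun D T h => wf_of_chk h mem_nil (mem_cons (L1726 D T h) mem_nil) cw8432
theorem W8433 : WFK w8433 := fun D T h => wf_of_chk h mem_nil (mem_cons (L1719 D T h) mem_nil) cw8433
theorem W8434 : WFK w8434 := fun D T h => wf_of_chk h (mem_cons (W3927 D T h) (mem_cons (W37 D T h) mem_nil)) mem_nil cw8434
theorem L1898 : LFK l1898 := fun D T h => lf_of_chk h (mem_cons (W6613 D T h) (mem_cons (W16 D T h) (mem_cons (W5841 D T h) (mem_cons (W448 D T h) (mem_cons (W2346 D T h) (mem_cons (W431 D T h) (mem_cons (W15 D T h) (mem_cons (W267 D T h) (mem_cons (W722 D T h) (mem_cons (W6719 D T h) mem_nil)))))))))) cl1898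
theorem W8435 : WFK w8435 := fun D T h => wf_of_chk h mem_nil (mem_cons (L1898 D T h) mem_nil) cw8435
theorem W8436 : WFK w8436 := fun D T h => wf_of_chk h mem_nil (mem_cons (L1882 D T h) mem_nil) cw8436
theorem W8437 : WFK w8437 := fun D T h => wf_of_chk h mem_nil (mem_cons (L1783 D T h) mem_nil) cw8437
theorem W8438 : WFK w8438 := fun D T h => wf_of_chk h (mem_cons (W16 D T h) (mem_cons (W337 D T h) mem_nil)) mem_nil cw8438
theorem W8439 : WFK w8439 := fun D T h => wf_of_chk h (mem_cons (W337 D T h) mem_nil) mem_nil cw8439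
theorem W8440 : WFK w8440 := fun D T h => wf_of_chk h mem_nil (mem_cons (L1885 D T h) mem_nil) cw8440
theorem W8441 : WFK w8441 := fun D T h => wf_of_chk h (mem_cons (W337 D T h) mem_nil) mem_nil cw8441
theorem W8442 : WFK w8442 := fun D T h => wf_of_chk h (mem_cons (W7436 D T h) (mem_cons (W177 D T h) mem_nil)) mem_nil cw8442
theorem W8443 : WFK w8443 := fun D T h => wf_of_chk h mem_nil (mem_cons (L135 D T h) mem_nil) cw8443
theorem W8444 : WFK w8444 := fun D T h => wf_of_chk h mem_nil (mem_cons (L781 D T h) mem_nil) cw8444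
theorem W8445 : WFK w8445 := fun D T h => wf_of_chk h mem_nil (mem_cons (L1471 D T h) mem_nil) cw8445
theorem W8446 : WFK w8446 := fun D T h => wf_of_chk h mem_nil (mem_cons (L782 D T h) mem_nil) cw8446
theorem W8447 : WFK w8447 := fun D T h => wf_of_chk h (mem_cons (W1651 D T h) (mem_cons (W16 D T h) mem_nil)) mem_nil cw8447
theorem W8448 : WFK w8448 := fun D T h => wf_of_chk h (mem_cons (W1676 D T h) (mem_cons (W16 D T h) mem_nil)) mem_nil cw8448
theorem W8449 : WFK w8449 := fun D T h => wf_of_chk h mem_nil (mem_cons (L306 D T h) mem_nil) cw8449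
theorem W8450 : WFK w8450 := fun D T h => wf_of_chk h mem_nil (mem_cons (L306 D T h) mem_nil) cw8450
theorem L1899 : LFK l1899 := fun D T h => lf_of_chk h (mem_cons (W1318 D T h) (mem_cons (W177 D T h) (mem_cons (W50 D T h) (mem_cons (W2839 D T h) (mem_cons (W1599 D T h) (mem_cons (W8444 D T h) (mem_cons (W3523 D T h) (mem_cons (W2934 D T h) (mem_cons (W1502 D T h) (mem_cons (W7466 D T h) (mem_cons (W8442 D T h) (mem_cons (W8443 D T h) (mem_cons (W8445 D T h) (mem_cons (W2997 D T h) (mem_cons (W8446 D T h) (mem_cons (W8439 D T h) (mem_cons (W8440 D T h) (mem_cons (W8441 D T h) (mem_cons (W16 D T h) (mem_cons (W8447 D T h) (mem_cons (W3410 D T h) (mem_cons (W1408 D T h) (mem_cons (W5623 D T h) (mem_cons (W7996 D T h) (mem_cons (W3766 D T h) (mem_cons (W8448 D T h) (mem_cons (W8449 D T h) (mem_cons (W3156 D T h) (mem_cons (W8450 D T h) mem_nil))))))))))))))))))))))))))))) cl1899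
theorem W8451 : WFK w8451 := fun D T h => wf_of_chk h mem_nil (mem_cons (L1899 D T h) mem_nil) cw8451
theorem W8452 : WFK w8452 := fun D T h => wf_of_chk h mem_nil (mem_cons (L1899 D T h) mem_nil) cw8452
theorem W8453 : WFK w8453 := fun D T h => wf_of_chk h mem_nil (mem_cons (L1726 D T h) mem_nil) cw8453
theorem L1900 : LFK l1900 := fun D T h => lf_of_chk h (mem_cons (W16 D T h) (mem_cons (W8453 D T h) (mem_cons (W15 D T h) (mem_cons (W5258 D T h) (mem_cons (W220 D T h) (mem_cons (W50 D T h) (mem_cons (W669 D T h) (mem_cons (W667 D T h) (mem_cons (W8440 D T h) (mem_cons (W7212 D T h) (mem_cons (W2015 D T h) (mem_cons (W42 D T h) (mem_cons (W164 D T h) mem_nil))))))))))))) cl1900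
theorem W8454 : WFK w8454 := fun D T h => wf_of_chk h mem_nil (mem_cons (L1900 D T h) mem_nil) cw8454
theorem W8457 : WFK w8457 := fun D T h => wf_of_chk h (mem_cons (W6719 D T h) (mem_cons (W16 D T h) mem_nil)) mem_nil cw8457
theorem W8458 : WFK w8458 := fun D T h => wf_of_chk h mem_nil (mem_cons (L654 D T h) mem_nil) cw8458
theorem W8459 : WFK w8459 := fun D T h => wf_of_chk h (mem_cons (W267 D T h) (mem_cons (W162 D T h) mem_nil)) mem_nil cw8459
theorem W8460 : WFK w8460 := fun D T h => wf_of_chk h (mem_cons (W114 D T h) (mem_cons (W162 D T h) mem_nil)) mem_nil cw8460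
theorem W8461 : WFK w8461 := fun D T h => wf_of_chk h (mem_cons (W220 D T h) (mem_cons (W6719 D T h) mem_nil)) mem_nil cw8461
theorem W8462 : WFK w8462 := fun D T h => wf_of_chk h (mem_cons (W1067 D T h) (mem_cons (W162 D T h) mem_nil)) mem_nil cw8462
theorem W8463 : WFK w8463 := fun D T h => wf_of_chk h (mem_cons (W220 D T h) (mem_cons (W6719 D T h) mem_nil)) mem_nil cw8463
theorem W8464 : WFK w8464 := fun D T h => wf_of_chk h (mem_cons (W1019 D T h) (mem_cons (W162 D T h) mem_nil)) mem_nil cw8464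
theorem W8465 : WFK w8465 := fun D T h => wf_of_chk h (mem_cons (W1312 D T h) (mem_cons (W162 D T h) mem_nil)) mem_nil cw8465
theorem W8466 : WFK w8466 := fun D T h => wf_of_chk h (mem_cons (W162 D T h) (mem_cons (W6719 D T h) mem_nil)) mem_nil cw8466
theorem L1901 : LFK l1901 := fun D T h => lf_of_chk h (mem_cons (W7870 D T h) (mem_cons (W2868 D T h) (mem_cons (W2861 D T h) (mem_cons (W8297 D T h) (mem_cons (W16 D T h) (mem_cons (W8457 D T h) (mem_cons (W8458 D T h) (mem_cons (W3950 D T h) (mem_cons (W162 D T h) (mem_cons (W2839 D T h) (mem_cons (W6613 D T h) (mem_cons (W2388 D T h) (mem_cons (W2936 D T h) (mem_cons (W2050 D T h) (mem_cons (W3304 D T h) (mem_cons (W8157 D T h) (mem_cons (W8465 D T h) (mem_cons (W2934 D T h) (mem_cons (W8466 D T h) (mem_cons (W284 D T h) (mem_cons (W1331 D T h) (mem_cons (W8460 D T h) (mem_cons (W2828 D T h) (mem_cons (W8461 D T h) (mem_cons (W8462 D T h) (mem_cons (W8463 D T h) (mem_cons (W8464 D T h) (mem_cons (W8459 D T h) (mem_cons (W6719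 D T h) (mem_cons (W5655 D T h) (mem_cons (W8398 D T h) (mem_cons (W1441 D T h) (mem_cons (W7939 D T h) mem_nil))))))))))))))))))))))))))))))))) cl1901
theorem W8467 : WFK w8467 := fun D T h => wf_of_chk h mem_nil (mem_cons (L1901 D T h) mem_nil) cw8467
theorem W8470 : WFK w8470 := fun D T h => wf_of_chk h mem_nil (mem_cons (L1835 D T h) mem_nil) cw8470
theorem W8471 : WFK w8471 := fun D T h => wf_of_chk h (mem_cons (W8470 D T h) (mem_cons (W16 D T h) mem_nil)) mem_nil cw8471
theorem L1902 : LFK l1902 := fun D T h => lf_of_chk h (mem_cons (W8299 D T h) (mem_cons (W16 D T h) (mem_cons (W2391 D T h) (mem_cons (W804 D T h) (mem_cons (W6613 D T h) (mem_cons (W2839 D T h) (mem_cons (W3912 D T h) (mem_cons (W37 D T h) (mem_cons (W8438 D T h) (mem_cons (W8385 D T h) (mem_cons (W8454 D T h) (mem_cons (W8386 D T h) (mem_cons (W8387 D T h) (mem_cons (W8471 D T h) (mem_cons (W284 D T h) (mem_cons (W8467 D T h) (mem_cons (W1318 D T h) (mem_cons (W8451 D T h) (mem_cons (W8452 D T h) (mem_cons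 (W7863 D T h) (mem_cons (W8338 D T h) (mem_cons (W7578 D T h) (mem_cons (W8383 D T h) (mem_cons (W8430 D T h) (mem_cons (W8431 D T h) (mem_cons (W8432 D T h) (mem_cons (W8433 D T h) (mem_cons (W3511 D T h) (mem_cons (W2934 D T h) (mem_cons (W3928 D T h) (mem_cons (W1502 D T h) (mem_cons (W2963 D T h) (mem_cons (W8434 D T h) (mem_cons (W8435 D T h) (mem_cons (W8436 D T h) (mem_cons (W8437 D T h) (mem_cons (W8422 D T h) (mem_cons (W8414 D T h) (mem_cons (W5197 D T h) (mem_cons (W8403 D T h) (mem_cons (W8415 D T h) (mem_cons (W8416 D T h) (mem_cons (W8418 D T h) (mem_cons (W3940 D T h) (mem_cons (W8428 D T h) (mem_cons (W8429 D T h) (mem_cons (W50 D T h) (mem_cons (W8300 D T h) (mem_cons (W669 D T h) (mem_cons (W8301 D T h) (mem_cons (W8322 D T h) (mem_cons (W8323 D T h) (mem_cons (W8411 D T h) mem_nil))))))))))))))))))))))))))))))))))))))))))))))))))))) cl1902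
theorem W8472 : WFK w8472 := fun D T h => wf_of_chk h mem_nil (mem_cons (L1902 D T h) mem_nil) cw8472
theorem W8473 : WFK w8473 := fun D T h => wf_of_chk h (mem_cons (W177 D T h) (mem_cons (W23 D T h) mem_nil)) mem_nil cw8473
theorem L1903 : LFK l1903 := fun D T h => lf_of_chk h (mem_cons (W17 D T h) mem_nil) cl1903
theorem W8474 : WFK w8474 := fun D T h => wf_of_chk h mem_nil (mem_cons (L1903 D T h) mem_nil) cw8474
theorem L1904 : LFK l1904 := fun D T h => lf_of_chk h (mem_cons (W50 D T h) (mem_cons (W177 D T h) (mem_cons (W726 D T h) (mem_cons (W175 D T h) (mem_cons (W6552 D T h) (mem_cons (W4028 D T h) (mem_cons (W4277 D T h) (mem_cons (W744 D T h) (mem_cons (W220 D T h) (mem_cons (W15 D T h) (mem_cons (W8474 D T h) (mem_cons (W8138 D T h) mem_nil)))))))))))) cl1904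
theorem W8475 : WFK w8475 := fun D T h => wf_of_chk h mem_nil (mem_cons (L1904 D T h) mem_nil) cw8475
theorem W8476 : WFK w8476 := fun D T h => wf_of_chk h (mem_cons (W17 D T h) (mem_cons (W37 D T h) mem_nil)) mem_nil cw8476
theorem W8477 : WFK w8477 := fun D T h => wf_of_chk h mem_nil (mem_cons (L1145 D T h) mem_nil) cw8477
theorem L1905 : LFK l1905 := fun D T h => lf_of_chk h (mem_cons (W2024 D T h) (mem_cons (W284 D T h) (mem_cons (W6477 D T h) (mem_cons (W933 D T h) (mem_cons (W16 D T h) (mem_cons (W23 D T h) (mem_cons (W37 D T h) (mem_cons (W7596 D T h) (mem_cons (W2934 D T h) (mem_cons (W358 D T h) (mem_cons (W8477 D T h) (mem_cons (W6613 D T h) (mem_cons (W5633 D T h) (mem_cons (W50 D T h) (mem_cons (W8473 D T h) (mem_cons (W8475 D T h) (mem_cons (W1327 D T h) (mem_cons (W8476 D T h) (mem_cons (W24 D T h) (mem_cons (W209 D T h) (mem_cons (W5347 D T h) (mem_cons (W6459 D T h) (mem_cons (W267 D T h) (mem_cons (W2319 D T h) (mem_cons (W2375 D T h) mem_nil)))))))))))))))))))))))))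 cl1905
theorem W8478 : WFK w8478 := fun D T h => wf_of_chk h mem_nil (mem_cons (L1905 D T h) mem_nil) cw8478
theorem W8479 : WFK w8479 := fun D T h => wf_of_chk h (mem_cons (W177 D T h) (mem_cons (W23 D T h) mem_nil)) mem_nil cw8479
theorem L1906 : LFK l1906 := fun D T h => lf_of_chk h (mem_cons (W50 D T h) (mem_cons (W177 D T h) (mem_cons (W726 D T h) (mem_cons (W175 D T h) (mem_cons (W6552 D T h) (mem_cons (W4028 D T h) (mem_cons (W4277 D T h) (mem_cons (W755 D T h) (mem_cons (W220 D T h) (mem_cons (W15 D T h) (mem_cons (W5762 D T h) (mem_cons (W8138 D T h) mem_nil)))))))))))) cl1906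
theorem W8480 : WFK w8480 := fun D T h => wf_of_chk h mem_nil (mem_cons (L1906 D T h) mem_nil) cw8480
theorem W8481 : WFK w8481 := fun D T h => wf_of_chk h mem_nil (mem_cons (L1798 D T h) mem_nil) cw8481
theorem L1907 : LFK l1907 := fun D T h => lf_of_chk h (mem_cons (W2024 D T h) (mem_cons (W284 D T h) (mem_cons (W6477 D T h) (mem_cons (W933 D T h) (mem_cons (W16 D T h) (mem_cons (W23 D T h) (mem_cons (W37 D T h) (mem_cons (W5713 D T h) (mem_cons (W2934 D T h) (mem_cons (W2219 D T h) (mem_cons (W8481 D T h) (mem_cons (W6613 D T h) (mem_cons (W5633 D T h) (mem_cons (W50 D T h) (mem_cons (W8479 D T h) (mem_cons (W8480 D T h) (mem_cons (W1327 D T h) (mem_cons (W8476 D T h) (mem_cons (W24 D T h) (mem_cons (W209 D T h) (mem_cons (W5347 D T h) (mem_cons (W6457 D T h) (mem_cons (W6480 D T h) (mem_cons (W3666 D T h) (mem_cons (W2375 D T h) (mem_cons (W721 D T h) mem_nil)))))))))))))))))))))))))) cl1907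
theorem W8482 : WFK w8482 := fun D T h => wf_of_chk h mem_nil (mem_cons (L1907 D T h) mem_nil) cw8482
theorem W8483 : WFK w8483 := fun D T h => wf_of_chk h mem_nil (mem_cons (L865 D T h) mem_nil) cw8483
theorem L1908 : LFK l1908 := fun D T h => lf_of_chk h (mem_cons (W801 D T h) (mem_cons (W2015 D T h) (mem_cons (W581 D T h) (mem_cons (W910 D T h) (mem_cons (W718 D T h) (mem_cons (W4025 D T h) (mem_cons (W8210 D T h) (mem_cons (W5655 D T h) (mem_cons (W160 D T h) (mem_cons (W8483 D T h) (mem_cons (W1190 D T h) (mem_cons (W5368 D T h) (mem_cons (W3193 D T h) (mem_cons (W721 D T h) (mem_cons (W5320 D T h) (mem_cons (W5654 D T h) (mem_cons (W5370 D T h) (mem_cons (W1193 D T h) (mem_cons (W2171 D T h) (mem_cons (W15 D T h) (mem_cons (W796 D T h) (mem_cons (W5581 D T h) mem_nil)))))))))))))))))))))) cl1908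
theorem W8484 : WFK w8484 := fun D T h => wf_of_chk h mem_nil (mem_cons (L1908 D T h) mem_nil) cw8484
theorem L1909 : LFK l1909 := fun D T h => lf_of_chk h (mem_cons (W5606 D T h) (mem_cons (W125 D T h) (mem_cons (W831 D T h) (mem_cons (W7171 D T h) (mem_cons (W47 D T h) (mem_cons (W6685 D T h) mem_nil)))))) cl1909
theorem W8485 : WFK w8485 := fun D T h => wf_of_chk h mem_nil (mem_cons (L1909 D T h) mem_nil) cw8485
theorem W8486 : WFK w8486 := fun D T h => wf_of_chk h (mem_cons (W34 D T h) mem_nil) mem_nil cw8486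
theorem L1910 : LFK l1910 := fun D T h => lf_of_chk h (mem_cons (W38 D T h) (mem_cons (W2015 D T h) (mem_cons (W32 D T h) (mem_cons (W63 D T h) (mem_cons (W39 D T h) (mem_cons (W3 D T h) (mem_cons (W2385 D T h) (mem_cons (W750 D T h) (mem_cons (W2902 D T h) (mem_cons (W8486 D T h) (mem_cons (W30 D T h) (mem_cons (W47 D T h) (mem_cons (W2007 D T h) (mem_cons (W44 D T h) (mem_cons (W46 D T h) mem_nil))))))))))))))) cl1910
theorem W8487 : WFK w8487 := fun D T h => wf_of_chk h mem_nil (mem_cons (L1910 D T h) mem_nil) cw8487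
theorem L1911 : LFK l1911 := fun D T h => lf_of_chk h (mem_cons (W7212 D T h) (mem_cons (W682 D T h) (mem_cons (W1 D T h) (mem_cons (W69 D T h) (mem_cons (W126 D T h) (mem_cons (W5606 D T h) (mem_cons (W762 D T h) (mem_cons (W111 D T h) (mem_cons (W1636 D T h) (mem_cons (W8485 D T h) (mem_cons (W3233 D T h) (mem_cons (W7933 D T h) (mem_cons (W2575 D T h) (mem_cons (W5177 D T h) (mem_cons (W8487 D T h) (mem_cons (W3016 D T h) (mem_cons (W3207 D T h) (mem_cons (W4028 D T h) mem_nil)))))))))))))))))) cl1911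
theorem W8488 : WFK w8488 := fun D T h => wf_of_chk h mem_nil (mem_cons (L1911 D T h) mem_nil) cw8488
theorem W8489 : WFK w8489 := fun D T h => wf_of_chk h mem_nil (mem_cons (L1835 D T h) mem_nil) cw8489
theorem L1912 : LFK l1912 := fun D T h => lf_of_chk h (mem_cons (W2172 D T h) (mem_cons (W2170 D T h) (mem_cons (W8087 D T h) (mem_cons (W2164 D T h) (mem_cons (W1310 D T h) (mem_cons (W284 D T h) (mem_cons (W34 D T h) (mem_cons (W2934 D T h) (mem_cons (W682 D T h) (mem_cons (W16 D T h) (mem_cons (W1291 D T h) (mem_cons (W8488 D T h) (mem_cons (W7961 D T h) (mem_cons (W7993 D T h) (mem_cons (W7600 D T h) (mem_cons (W50 D T h) (mem_cons (W5194 D T h) (mem_cons (W8484 D T h) (mem_cons (W7661 D T h) (mem_cons (W1346 D T h) (mem_cons (W3006 D T h) (mem_cons (W3854 D T h) (mem_cons (W7871 D T h) (mem_cons (W7884 D T h) (mem_cons (W7837 D T h) (mem_cons (W5779 D T h) (mem_cons (W2219 D T h) (mem_cons (W2231 D T h) (mem_cons (W5248 D T h) (mem_cons (W5635 D T h) (mem_cons (W8017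 D T h) (mem_cons (W6891 D T h) (mem_cons (W8489 D T h) (mem_cons (W8113 D T h) mem_nil)))))))))))))))))))))))))))))))))) cl1912
theorem W8490 : WFK w8490 := fun D T h => wf_of_chk h mem_nil (mem_cons (L1912 D T h) mem_nil) cw8490
theorem L1913 : LFK l1913 := fun D T h => lf_of_chk h (mem_cons (W8446 D T h) (mem_cons (W7594 D T h) (mem_cons (W7595 D T h) (mem_cons (W16 D T h) (mem_cons (W1300 D T h) (mem_cons (W3410 D T h) (mem_cons (W14 D T h) (mem_cons (W7835 D T h) (mem_cons (W7996 D T h) (mem_cons (W3504 D T h) (mem_cons (W6512 D T h) (mem_cons (W3766 D T h) (mem_cons (W7114 D T h) (mem_cons (W8490 D T h) (mem_cons (W8449 D T h) (mem_cons (W8450 D T h) (mem_cons (W3304 D T h) (mem_cons (W1318 D T h) (mem_cons (W177 D T h) (mem_cons (W6552 D T h) (mem_cons (W8478 D T h) (mem_cons (W8482 D T h) (mem_cons (W8444 D T h) (mem_cons (W4411 D T h) (mem_cons (W3523 D T h) mem_nil))))))))))))))))))))))))) cl1913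
theorem W8491 : WFK w8491 := fun D T h => wf_of_chk h mem_nil (mem_cons (L1913 D T h) mem_nil) cw8491
theorem W8492 : WFK w8492 := fun D T h => wf_of_chk h mem_nil (mem_cons (L1913 D T h) mem_nil) cw8492
theorem W8493 : WFK w8493 := fun D T h => wf_of_chk h mem_nil (mem_cons (L896 D T h) mem_nil) cw8493
theorem W8494 : WFK w8494 := fun D T h => wf_of_chk h mem_nil (mem_cons (L896 D T h) mem_nil) cw8494
theorem W8495 : WFK w8495 := fun D T h => wf_of_chk h mem_nil (mem_cons (L1882 D T h) mem_nil) cw8495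
theorem W8496 : WFK w8496 := fun D T h => wf_of_chk h mem_nil (mem_cons (L896 D T h) mem_nil) cw8496
theorem L1914 : LFK l1914 := fun D T h => lf_of_chk h (mem_cons (W2987 D T h) (mem_cons (W37 D T h) (mem_cons (W4023 D T h) (mem_cons (W3905 D T h) (mem_cons (W2808 D T h) (mem_cons (W2314 D T h) (mem_cons (W2895 D T h) (mem_cons (W2988 D T h) (mem_cons (W8493 D T h) (mem_cons (W8494 D T h) (mem_cons (W8495 D T h) (mem_cons (W8496 D T h) (mem_cons (W8295 D T h) (mem_cons (W2391 D T h) (mem_cons (W2057 D T h) (mem_cons (W2878 D T h) (mem_cons (W2877 D T h) (mem_cons (W8472 D T h) (mem_cons (W2024 D T h) (mem_cons (W7226 D T h) (mem_cons (W7504 D T h) (mem_cons (W7581 D T h) (mem_cons (W7592 D T h) (mem_cons (W7225 D T h) (mem_cons (W4021 D T h) (mem_cons (W1300 D T h) (mem_cons (W7594 D T h) (mem_cons (W7595 D T h) (mem_cons (W2893 D T h) (mem_cons (W8491 D T h) (mem_cons (W8492 D T h) (mem_cons (W284 D T h) (mem_cons (W8114 D T h) (mem_cons (W8149 D T h) (mem_cons (W8171 D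 T h) (mem_cons (W1213 D T h) (mem_cons (W8179 D T h) (mem_cons (W1318 D T h) (mem_cons (W6442 D T h) (mem_cons (W7043 D T h) (mem_cons (W7133 D T h) (mem_cons (W7167 D T h) mem_nil)))))))))))))))))))))))))))))))))))))))))) cl1914
theorem W8497 : WFK w8497 := fun D T h => wf_of_chk h mem_nil (mem_cons (L1914 D T h) mem_nil) cw8497
theorem W8498 : WFK w8498 := fun D T h => wf_of_chk h (mem_cons (W37 D T h) mem_nil) mem_nil cw8498
theorem L1915 : LFK l1915 := fun D T h => lf_of_chk h (mem_cons (W177 D T h) (mem_cons (W804 D T h) (mem_cons (W37 D T h) (mem_cons (W17 D T h) (mem_cons (W3409 D T h) (mem_cons (W449 D T h) (mem_cons (W341 D T h) (mem_cons (W5177 D T h) (mem_cons (W3178 D T h) (mem_cons (W8498 D T h) (mem_cons (W181 D T h) (mem_cons (W757 D T h) (mem_cons (W495 D T h) (mem_cons (W497 D T h) mem_nil)))))))))))))) cl1915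
theorem W8499 : WFK w8499 := fun D T h => wf_of_chk h mem_nil (mem_cons (L1915 D T h) mem_nil) cw8499
theorem L1916 : LFK l1916 := fun D T h => lf_of_chk h (mem_cons (W158 D T h) (mem_cons (W48 D T h) (mem_cons (W802 D T h) (mem_cons (W4 D T h) (mem_cons (W33 D T h) (mem_cons (W22 D T h) (mem_cons (W125 D T h) (mem_cons (W3232 D T h) (mem_cons (W1535 D T h) (mem_cons (W1092 D T h) (mem_cons (W1075 D T h) (mem_cons (W187 D T h) (mem_cons (W2047 D T h) mem_nil))))))))))))) cl1916
theorem W8500 : WFK w8500 := fun D T h => wf_of_chk h mem_nil (mem_cons (L1916 D T h) mem_nil) cw8500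
theorem L1917 : LFK l1917 := fun D T h => lf_of_chk h (mem_cons (W5059 D T h) mem_nil) cl1917
theorem W8501 : WFK w8501 := fun D T h => wf_of_chk h mem_nil (mem_cons (L1917 D T h) mem_nil) cw8501
theorem W8502 : WFK w8502 := fun D T h => wf_of_chk h mem_nil (mem_cons (L1917 D T h) mem_nil) cw8502
theorem W8503 : WFK w8503 := fun D T h => wf_of_chk h (mem_cons (W50 D T h) mem_nil) mem_nil cw8503
theorem W8504 : WFK w8504 := fun D T h => wf_of_chk h mem_nil (mem_cons (L783 D T h) mem_nil) cw8504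
theorem W8505 : WFK w8505 := fun D T h => wf_of_chk h mem_nil (mem_cons (L1046 D T h) mem_nil) cw8505
theorem W8506 : WFK w8506 := fun D T h => wf_of_chk h mem_nil (mem_cons (L551 D T h) mem_nil) cw8506
theorem W8507 : WFK w8507 := fun D T h => wf_of_chk h (mem_cons (W37 D T h) mem_nil) mem_nil cw8507
theorem W8508 : WFK w8508 := fun D T h => wf_of_chk h mem_nil (mem_cons (L241 D T h) mem_nil) cw8508
theorem W8509 : WFK w8509 := fun D T h => wf_of_chk h mem_nil (mem_cons (L240 D T h) mem_nil) cw8509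
theorem L1918 : LFK l1918 := fun D T h => lf_of_chk h (mem_cons (W2684 D T h) (mem_cons (W177 D T h) (mem_cons (W3207 D T h) (mem_cons (W3452 D T h) (mem_cons (W4058 D T h) (mem_cons (W1718 D T h) (mem_cons (W1111 D T h) (mem_cons (W8509 D T h) (mem_cons (W4697 D T h) (mem_cons (W12 D T h) (mem_cons (W4121 D T h) (mem_cons (W8508 D T h) (mem_cons (W6029 D T h) (mem_cons (W216 D T h) (mem_cons (W2073 D T h) mem_nil))))))))))))))) cl1918
theorem W8510 : WFK w8510 := fun D T h => wf_of_chk h mem_nil (mem_cons (L1918 D T h) mem_nil) cw8510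
theorem L1919 : LFK l1919 := fun D T h => lf_of_chk h (mem_cons (W5258 D T h) mem_nil) cl1919
theorem W8511 : WFK w8511 := fun D T h => wf_of_chk h mem_nil (mem_cons (L1919 D T h) mem_nil) cw8511
theorem L1920 : LFK l1920 := fun D T h => lf_of_chk h (mem_cons (W4209 D T h) (mem_cons (W401 D T h) (mem_cons (W368 D T h) (mem_cons (W1 D T h) (mem_cons (W93 D T h) (mem_cons (W436 D T h) (mem_cons (W3565 D T h) (mem_cons (W2351 D T h) (mem_cons (W91 D T h) (mem_cons (W80 D T h) (mem_cons (W4259 D T h) (mem_cons (W104 D T h) (mem_cons (W108 D T h) (mem_cons (W106 D T h) (mem_cons (W66 D T h) (mem_cons (W370 D T h) (mem_cons (W111 D T h) (mem_cons (W267 D T h) (mem_cons (W113 D T h) (mem_cons (W721 D T h) (mem_cons (W114 D T h) (mem_cons (W101 D T h) mem_nil)))))))))))))))))))))) cl1920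
theorem W8512 : WFK w8512 := fun D T h => wf_of_chk h mem_nil (mem_cons (L1920 D T h) mem_nil) cw8512
theorem L1921 : LFK l1921 := fun D T h => lf_of_chk h (mem_cons (W4209 D T h) (mem_cons (W1409 D T h) (mem_cons (W1 D T h) (mem_cons (W126 D T h) (mem_cons (W93 D T h) (mem_cons (W3565 D T h) (mem_cons (W436 D T h) (mem_cons (W91 D T h) (mem_cons (W2357 D T h) (mem_cons (W80 D T h) (mem_cons (W104 D T h) (mem_cons (W4259 D T h) (mem_cons (W108 D T h) (mem_cons (W106 D T h) (mem_cons (W66 D T h) (mem_cons (W370 D T h) (mem_cons (W111 D T h) (mem_cons (W113 D T h) (mem_cons (W267 D T h) (mem_cons (W721 D T h) (mem_cons (W114 D T h) (mem_cons (W101 D T h) mem_nil)))))))))))))))))))))) cl1921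
theorem W8513 : WFK w8513 := fun D T h => wf_of_chk h mem_nil (mem_cons (L1921 D T h) mem_nil) cw8513
theorem L1922 : LFK l1922 := fun D T h => lf_of_chk h (mem_cons (W67 D T h) mem_nil) cl1922
theorem W8514 : WFK w8514 := fun D T h => wf_of_chk h mem_nil (mem_cons (L1922 D T h) mem_nil) cw8514
theorem W8515 : WFK w8515 := fun D T h => wf_of_chk h (mem_cons (W651 D T h) mem_nil) mem_nil cw8515
theorem L1923 : LFK l1923 := fun D T h => lf_of_chk h (mem_cons (W4209 D T h) (mem_cons (W1409 D T h) (mem_cons (W1 D T h) (mem_cons (W69 D T h) (mem_cons (W93 D T h) (mem_cons (W83 D T h) (mem_cons (W490 D T h) (mem_cons (W4566 D T h) (mem_cons (W91 D T h) (mem_cons (W80 D T h) (mem_cons (W8515 D T h) (mem_cons (W76 D T h) (mem_cons (W79 D T h) (mem_cons (W81 D T h) (mem_cons (W82 D T h) (mem_cons (W4259 D T h) (mem_cons (W66 D T h) (mem_cons (W8514 D T h) (mem_cons (W111 D T h) (mem_cons (W370 D T h) (mem_cons (W2236 D T h) (mem_cons (W114 D T h) (mem_cons (W721 D T h) (mem_cons (W267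 D T h) (mem_cons (W627 D T h) mem_nil))))))))))))))))))))))))) cl1923
theorem W8516 : WFK w8516 := fun D T h => wf_of_chk h mem_nil (mem_cons (L1923 D T h) mem_nil) cw8516
theorem W8517 : WFK w8517 := fun D T h => wf_of_chk h (mem_cons (W401 D T h) mem_nil) mem_nil cw8517
theorem W8518 : WFK w8518 := fun D T h => wf_of_chk h (mem_cons (W1409 D T h) mem_nil) mem_nil cw8518
theorem W8519 : WFK w8519 := fun D T h => wf_of_chk h (mem_cons (W1409 D T h) mem_nil) mem_nil cw8519
theorem W8520 : WFK w8520 := fun D T h => wf_of_chk h (mem_cons (W368 D T h) (mem_cons (W1409 D T h) mem_nil)) mem_nil cw8520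
theorem W8521 : WFK w8521 := fun D T h => wf_of_chk h (mem_cons (W126 D T h) (mem_cons (W1409 D T h) mem_nil)) mem_nil cw8521
theorem W8522 : WFK w8522 := fun D T h => wf_of_chk h (mem_cons (W3035 D T h) mem_nil) mem_nil cw8522
theorem L1924 : LFK l1924 := fun D T h => lf_of_chk h (mem_cons (W3866 D T h) mem_nil) cl1924
theorem W8523 : WFK w8523 := fun D T h => wf_of_chk h mem_nil (mem_cons (L1924 D T h) mem_nil) cw8523
theorem W8524 : WFK w8524 := fun D T h => wf_of_chk h mem_nil (mem_cons (L1923 D T h) mem_nil) cw8524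
theorem W8525 : WFK w8525 := fun D T h => wf_of_chk h mem_nil (mem_cons (L1920 D T h) mem_nil) cw8525
theorem W8526 : WFK w8526 := fun D T h => wf_of_chk h (mem_cons (W368 D T h) (mem_cons (W1409 D T h) mem_nil)) mem_nil cw8526
theorem W8527 : WFK w8527 := fun D T h => wf_of_chk h (mem_cons (W69 D T h) (mem_cons (W1409 D T h) mem_nil)) mem_nil cw8527
theorem W8528 : WFK w8528 := fun D T h => wf_of_chk h (mem_cons (W34 D T h) mem_nil) mem_nil cw8528
theorem L1925 : LFK l1925 := fun D T h => lf_of_chk h (mem_cons (W2118 D T h) mem_nil) cl1925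
theorem W8529 : WFK w8529 := fun D T h => wf_of_chk h mem_nil (mem_cons (L1925 D T h) mem_nil) cw8529
theorem W8530 : WFK w8530 := fun D T h => wf_of_chk h (mem_cons (W1304 D T h) (mem_cons (W710 D T h) mem_nil)) mem_nil cw8530
theorem W8531 : WFK w8531 := fun D T h => wf_of_chk h (mem_cons (W83 D T h) mem_nil) mem_nil cw8531
theorem W8532 : WFK w8532 := fun D T h => wf_of_chk h (mem_cons (W368 D T h) (mem_cons (W126 D T h) mem_nil)) mem_nil cw8532
theorem W8533 : WFK w8533 := fun D T h => wf_of_chk h (mem_cons (W1296 D T h) mem_nil) mem_nil cw8533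
theorem W8534 : WFK w8534 := fun D T h => wf_of_chk h (mem_cons (W1296 D T h) mem_nil) mem_nil cw8534
theorem W8535 : WFK w8535 := fun D T h => wf_of_chk h (mem_cons (W4207 D T h) mem_nil) mem_nil cw8535
theorem W8536 : WFK w8536 := fun D T h => wf_of_chk h (mem_cons (W158 D T h) (mem_cons (W1296 D T h) mem_nil)) mem_nil cw8536
theorem W8538 : WFK w8538 := fun D T h => wf_of_chk h (mem_cons (W281 D T h) (mem_cons (W1296 D T h) mem_nil)) mem_nil cw8538
theorem L1926 : LFK l1926 := fun D T h => lf_of_chk h (mem_cons (W4209 D T h) (mem_cons (W8532 D T h) (mem_cons (W1 D T h) (mem_cons (W69 D T h) (mem_cons (W7111 D T h) (mem_cons (W3565 D T h) (mem_cons (W4566 D T h) (mem_cons (W8529 D T h) (mem_cons (W91 D T h) (mem_cons (W80 D T h) (mem_cons (W8535 D T h) (mem_cons (W8536 D T h) (mem_cons (W521 D T h) (mem_cons (W3707 D T h) (mem_cons (W4259 D T h) (mem_cons (W8533 D T h) (mem_cons (W8534 D T h) (mem_cons (W111 D T h) (mem_cons (W370 D T h) (mem_cons (W8538 D T h) mem_nil))))))))))))))))))))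 cl1926
theorem W8539 : WFK w8539 := fun D T h => wf_of_chk h mem_nil (mem_cons (L1926 D T h) mem_nil) cw8539
theorem W8540 : WFK w8540 := fun D T h => wf_of_chk h (mem_cons (W34 D T h) mem_nil) mem_nil cw8540
theorem W8543 : WFK w8543 := fun D T h => wf_of_chk h (mem_cons (W34 D T h) mem_nil) mem_nil cw8543
theorem W8544 : WFK w8544 := fun D T h => wf_of_chk h (mem_cons (W34 D T h) mem_nil) mem_nil cw8544
theorem L1927 : LFK l1927 := fun D T h => lf_of_chk h (mem_cons (W5725 D T h) (mem_cons (W3618 D T h) (mem_cons (W3619 D T h) (mem_cons (W368 D T h) (mem_cons (W126 D T h) (mem_cons (W1409 D T h) (mem_cons (W401 D T h) (mem_cons (W4459 D T h) (mem_cons (W8512 D T h) (mem_cons (W8513 D T h) (mem_cons (W8516 D T h) (mem_cons (W8517 D T h) (mem_cons (W8518 D T h) (mem_cons (W8519 D T h) (mem_cons (W3709 D T h) (mem_cons (W8520 D T h) (mem_cons (W8521 D T h) (mem_cons (W4209 D T h) (mem_cons (W8522 D T h) (mem_cons (W111 D T h) (mem_cons (W8523 D T h) (mem_cons (W8524 D T h)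 (mem_cons (W8525 D T h) (mem_cons (W8526 D T h) (mem_cons (W3628 D T h) (mem_cons (W8527 D T h) (mem_cons (W8528 D T h) (mem_cons (W1296 D T h) (mem_cons (W260 D T h) (mem_cons (W8529 D T h) (mem_cons (W8530 D T h) (mem_cons (W8531 D T h) (mem_cons (W8539 D T h) (mem_cons (W4599 D T h) (mem_cons (W8540 D T h) (mem_cons (W7599 D T h) (mem_cons (W8543 D T h) mem_nil))))))))))))))))))))))))))))))))))))) cl1927
theorem W8545 : WFK w8545 := fun D T h => wf_of_chk h mem_nil (mem_cons (L1927 D T h) mem_nil) cw8545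
theorem W8546 : WFK w8546 := fun D T h => wf_of_chk h mem_nil mem_nil cw8546
theorem L1928 : LFK l1928 := fun D T h => lf_of_chk h (mem_cons (W347 D T h) (mem_cons (W46 D T h) (mem_cons (W989 D T h) (mem_cons (W220 D T h) (mem_cons (W8546 D T h) (mem_cons (W4065 D T h) mem_nil)))))) cl1928
theorem W8547 : WFK w8547 := fun D T h => wf_of_chk h mem_nil (mem_cons (L1928 D T h) mem_nil) cw8547
theorem L1929 : LFK l1929 := fun D T h => lf_of_chk h (mem_cons (W3766 D T h) (mem_cons (W831 D T h) (mem_cons (W852 D T h) (mem_cons (W3 D T h) (mem_cons (W39 D T h) (mem_cons (W3110 D T h) mem_nil)))))) cl1929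
theorem W8548 : WFK w8548 := fun D T h => wf_of_chk h mem_nil (mem_cons (L1929 D T h) mem_nil) cw8548
theorem W8549 : WFK w8549 := fun D T h => wf_of_chk h mem_nil (mem_cons (L64 D T h) mem_nil) cw8549
theorem L1930 : LFK l1930 := fun D T h => lf_of_chk h (mem_cons (W1409 D T h) (mem_cons (W495 D T h) (mem_cons (W384 D T h) (mem_cons (W1222 D T h) (mem_cons (W8547 D T h) (mem_cons (W8548 D T h) (mem_cons (W1143 D T h) (mem_cons (W8549 D T h) (mem_cons (W2684 D T h) (mem_cons (W1800 D T h) (mem_cons (W3 D T h) (mem_cons (W1304 D T h) (mem_cons (W7196 D T h) (mem_cons (W3766 D T h) (mem_cons (W721 D T h) (mem_cons (W1296 D T h) (mem_cons (W258 D T h) mem_nil))))))))))))))))) cl1930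
theorem W8550 : WFK w8550 := fun D T h => wf_of_chk h mem_nil (mem_cons (L1930 D T h) mem_nil) cw8550
theorem L1931 : LFK l1931 := fun D T h => lf_of_chk h (mem_cons (W3766 D T h) (mem_cons (W16 D T h) (mem_cons (W3518 D T h) (mem_cons (W3 D T h) (mem_cons (W39 D T h) (mem_cons (W396 D T h) (mem_cons (W802 D T h) (mem_cons (W4065 D T h) mem_nil)))))))) cl1931
theorem W8551 : WFK w8551 := fun D T h => wf_of_chk h mem_nil (mem_cons (L1931 D T h) mem_nil) cw8551
theorem L1932 : LFK l1932 := fun D T h => lf_of_chk h (mem_cons (W7 D T h) (mem_cons (W30 D T h) (mem_cons (W192 D T h) (mem_cons (W6 D T h) (mem_cons (W812 D T h) (mem_cons (W3112 D T h) mem_nil)))))) cl1932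
theorem W8552 : WFK w8552 := fun D T h => wf_of_chk h mem_nil (mem_cons (L1932 D T h) mem_nil) cw8552
theorem L1933 : LFK l1933 := fun D T h => lf_of_chk h (mem_cons (W1409 D T h) (mem_cons (W495 D T h) (mem_cons (W1228 D T h) (mem_cons (W1234 D T h) (mem_cons (W8551 D T h) (mem_cons (W8552 D T h) (mem_cons (W1143 D T h) (mem_cons (W8549 D T h) (mem_cons (W2684 D T h) (mem_cons (W1800 D T h) (mem_cons (W3 D T h) (mem_cons (W1304 D T h) (mem_cons (W7196 D T h) (mem_cons (W1412 D T h) (mem_cons (W114 D T h) (mem_cons (W1296 D T h) (mem_cons (W3766 D T h) (mem_cons (W747 D T h) (mem_cons (W748 D T h) mem_nil))))))))))))))))))) cl1933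
theorem W8553 : WFK w8553 := fun D T h => wf_of_chk h mem_nil (mem_cons (L1933 D T h) mem_nil) cw8553
theorem W8554 : WFK w8554 := fun D T h => wf_of_chk h mem_nil (mem_cons (L1931 D T h) mem_nil) cw8554
theorem W8555 : WFK w8555 := fun D T h => wf_of_chk h mem_nil (mem_cons (L1330 D T h) mem_nil) cw8555
theorem L1934 : LFK l1934 := fun D T h => lf_of_chk h (mem_cons (W1409 D T h) (mem_cons (W497 D T h) (mem_cons (W5029 D T h) (mem_cons (W1228 D T h) (mem_cons (W1237 D T h) (mem_cons (W8554 D T h) (mem_cons (W8555 D T h) (mem_cons (W1143 D T h) (mem_cons (W8549 D T h) (mem_cons (W2684 D T h) (mem_cons (W1800 D T h) (mem_cons (W3 D T h) (mem_cons (W1304 D T h) (mem_cons (W7196 D T h) (mem_cons (W114 D T h) (mem_cons (W86 D T h) (mem_cons (W721 D T h) (mem_cons (W1296 D T h) (mem_cons (W748 D T h) (mem_cons (W747 D T h) mem_nil)))))))))))))))))))) cl1934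
theorem W8556 : WFK w8556 := fun D T h => wf_of_chk h mem_nil (mem_cons (L1934 D T h) mem_nil) cw8556
theorem L1935 : LFK l1935 := fun D T h => lf_of_chk h (mem_cons (W263 D T h) (mem_cons (W38 D T h) (mem_cons (W5363 D T h) (mem_cons (W162 D T h) (mem_cons (W3518 D T h) (mem_cons (W3 D T h) (mem_cons (W39 D T h) (mem_cons (W396 D T h) (mem_cons (W922 D T h) (mem_cons (W4065 D T h) mem_nil)))))))))) cl1935
theorem W8557 : WFK w8557 := fun D T h => wf_of_chk h mem_nil (mem_cons (L1935 D T h) mem_nil) cw8557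
theorem L1936 : LFK l1936 := fun D T h => lf_of_chk h (mem_cons (W1409 D T h) (mem_cons (W508 D T h) (mem_cons (W7212 D T h) (mem_cons (W2300 D T h) (mem_cons (W8557 D T h) (mem_cons (W1718 D T h) (mem_cons (W1143 D T h) (mem_cons (W8549 D T h) (mem_cons (W2684 D T h) (mem_cons (W1800 D T h) (mem_cons (W3 D T h) (mem_cons (W1304 D T h) (mem_cons (W7196 D T h) (mem_cons (W1412 D T h) (mem_cons (W3781 D T h) (mem_cons (W1296 D T h) mem_nil)))))))))))))))) cl1936
theorem W8558 : WFK w8558 := fun D T h => wf_of_chk h mem_nil (mem_cons (L1936 D T h) mem_nil) cw8558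
theorem L1937 : LFK l1937 := fun D T h => lf_of_chk h (mem_cons (W8498 D T h) (mem_cons (W933 D T h) (mem_cons (W368 D T h) (mem_cons (W126 D T h) (mem_cons (W1409 D T h) (mem_cons (W401 D T h) (mem_cons (W4459 D T h) (mem_cons (W178 D T h) (mem_cons (W8505 D T h) (mem_cons (W1291 D T h) (mem_cons (W8113 D T h) (mem_cons (W8558 D T h) (mem_cons (W2037 D T h) (mem_cons (W8545 D T h) (mem_cons (W8550 D T h) (mem_cons (W8553 D T h) (mem_cons (W3896 D T h) (mem_cons (W8556 D T h) (mem_cons (W3640 D T h) (mem_cons (W8503 D T h) (mem_cons (W8504 D T h) (mem_cons (W8506 D T h) (mem_cons (W8507 D T h) (mem_cons (W2058 D T h) (mem_cons (W747 D T h) (mem_cons (W255 D T h) (mem_cons (W8510 D T h) (mem_cons (W8511 D T h) mem_nil)))))))))))))))))))))))))))) cl1937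
theorem W8559 : WFK w8559 := fun D T h => wf_of_chk h mem_nil (mem_cons (L1937 D T h) mem_nil) cw8559
theorem W8560 : WFK w8560 := fun D T h => wf_of_chk h mem_nil (mem_cons (L818 D T h) mem_nil) cw8560
theorem L1938 : LFK l1938 := fun D T h => lf_of_chk h (mem_cons (W1409 D T h) (mem_cons (W177 D T h) (mem_cons (W175 D T h) (mem_cons (W392 D T h) (mem_cons (W8560 D T h) (mem_cons (W2047 D T h) (mem_cons (W1143 D T h) (mem_cons (W8549 D T h) (mem_cons (W2684 D T h) (mem_cons (W1800 D T h) (mem_cons (W3 D T h) (mem_cons (W1304 D T h) (mem_cons (W1412 D T h) (mem_cons (W1296 D T h) (mem_cons (W3781 D T h) (mem_cons (W7196 D T h) mem_nil)))))))))))))))) cl1938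
theorem W8561 : WFK w8561 := fun D T h => wf_of_chk h mem_nil (mem_cons (L1938 D T h) mem_nil) cw8561
theorem W8562 : WFK w8562 := fun D T h => wf_of_chk h mem_nil (mem_cons (L751 D T h) mem_nil) cw8562
theorem W8563 : WFK w8563 := fun D T h => wf_of_chk h mem_nil (mem_cons (L1167 D T h) mem_nil) cw8563
theorem W8564 : WFK w8564 := fun D T h => wf_of_chk h mem_nil (mem_cons (L1835 D T h) mem_nil) cw8564
theorem W8565 : WFK w8565 := fun D T h => wf_of_chk h (mem_cons (W284 D T h) (mem_cons (W267 D T h) mem_nil)) mem_nil cw8565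
theorem L1939 : LFK l1939 := fun D T h => lf_of_chk h (mem_cons (W17 D T h) mem_nil) cl1939
theorem W8566 : WFK w8566 := fun D T h => wf_of_chk h mem_nil (mem_cons (L1939 D T h) mem_nil) cw8566
theorem L1940 : LFK l1940 := fun D T h => lf_of_chk h (mem_cons (W50 D T h) (mem_cons (W267 D T h) (mem_cons (W220 D T h) (mem_cons (W15 D T h) (mem_cons (W24 D T h) (mem_cons (W209 D T h) (mem_cons (W2930 D T h) (mem_cons (W627 D T h) (mem_cons (W932 D T h) (mem_cons (W5765 D T h) (mem_cons (W2405 D T h) (mem_cons (W2834 D T h) (mem_cons (W8153 D T h) (mem_cons (W1227 D T h) (mem_cons (W724 D T h) (mem_cons (W5764 D T h) (mem_cons (W8474 D T h) mem_nil))))))))))))))))) cl1940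
theorem W8567 : WFK w8567 := fun D T h => wf_of_chk h mem_nil (mem_cons (L1940 D T h) mem_nil) cw8567
theorem W8568 : WFK w8568 := fun D T h => wf_of_chk h mem_nil (mem_cons (L1940 D T h) mem_nil) cw8568
theorem W8569 : WFK w8569 := fun D T h => wf_of_chk h mem_nil (mem_cons (L891 D T h) mem_nil) cw8569
theorem W8570 : WFK w8570 := fun D T h => wf_of_chk h (mem_cons (W721 D T h) (mem_cons (W16 D T h) mem_nil)) mem_nil cw8570
theorem L1941 : LFK l1941 := fun D T h => lf_of_chk h (mem_cons (W7212 D T h) (mem_cons (W267 D T h) (mem_cons (W69 D T h) (mem_cons (W1 D T h) (mem_cons (W721 D T h) (mem_cons (W370 D T h) (mem_cons (W4262 D T h) (mem_cons (W390 D T h) (mem_cons (W2548 D T h) (mem_cons (W2529 D T h) (mem_cons (W375 D T h) (mem_cons (W2575 D T h) (mem_cons (W724 D T h) (mem_cons (W5764 D T h) (mem_cons (W8474 D T h) mem_nil))))))))))))))) cl1941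
theorem W8571 : WFK w8571 := fun D T h => wf_of_chk h mem_nil (mem_cons (L1941 D T h) mem_nil) cw8571
theorem W8572 : WFK w8572 := fun D T h => wf_of_chk h (mem_cons (W162 D T h) (mem_cons (W56 D T h) mem_nil)) mem_nil cw8572
theorem W8573 : WFK w8573 := fun D T h => wf_of_chk h (mem_cons (W158 D T h) (mem_cons (W16 D T h) mem_nil)) mem_nil cw8573
theorem W8574 : WFK w8574 := fun D T h => wf_of_chk h (mem_cons (W747 D T h) (mem_cons (W16 D T h) mem_nil)) mem_nil cw8574
theorem W8575 : WFK w8575 := fun D T h => wf_of_chk h (mem_cons (W748 D T h) (mem_cons (W16 D T h) mem_nil)) mem_nil cw8575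
theorem W8576 : WFK w8576 := fun D T h => wf_of_chk h (mem_cons (W748 D T h) (mem_cons (W16 D T h) mem_nil)) mem_nil cw8576
theorem L1942 : LFK l1942 := fun D T h => lf_of_chk h (mem_cons (W8564 D T h) (mem_cons (W1310 D T h) (mem_cons (W2963 D T h) (mem_cons (W368 D T h) (mem_cons (W284 D T h) (mem_cons (W721 D T h) (mem_cons (W267 D T h) (mem_cons (W16 D T h) (mem_cons (W1350 D T h) (mem_cons (W703 D T h) (mem_cons (W8566 D T h) (mem_cons (W8571 D T h) (mem_cons (W2934 D T h) (mem_cons (W8572 D T h) (mem_cons (W8570 D T h) (mem_cons (W669 D T h) (mem_cons (W2927 D T h) (mem_cons (W50 D T h) (mem_cons (W2928 D T h) (mem_cons (W6904 D T h) (mem_cons (W8567 D T h) (mem_cons (W6892 D T h) (mem_cons (W8568 D T h) (mem_cons (W2709 D T h) (mem_cons (W5375 D T h) (mem_cons (W2936 D T h) (mem_cons (W2325 D T h) (mem_cons (W8573 D T h) (mem_cons (W8574 D T h) (mem_cons (W8575 D T h) (mem_cons (W8576 D T h) (mem_cons (W2911 D T h) mem_nil)))))))))))))))))))))))))))))))) cl1942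
theorem W8577 : WFK w8577 := fun D T h => wf_of_chk h mem_nil (mem_cons (L1942 D T h) mem_nil) cw8577
theorem L1943 : LFK l1943 := fun D T h => lf_of_chk h (mem_cons (W8474 D T h) (mem_cons (W56 D T h) (mem_cons (W15 D T h) (mem_cons (W220 D T h) (mem_cons (W24 D T h) (mem_cons (W209 D T h) (mem_cons (W50 D T h) (mem_cons (W2930 D T h) (mem_cons (W4209 D T h) (mem_cons (W4256 D T h) (mem_cons (W2405 D T h) (mem_cons (W1227 D T h) (mem_cons (W1331 D T h) (mem_cons (W8153 D T h) (mem_cons (W724 D T h) (mem_cons (W5764 D T h) mem_nil)))))))))))))))) cl1943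
theorem W8578 : WFK w8578 := fun D T h => wf_of_chk h mem_nil (mem_cons (L1943 D T h) mem_nil) cw8578
theorem W8579 : WFK w8579 := fun D T h => wf_of_chk h mem_nil (mem_cons (L1943 D T h) mem_nil) cw8579
theorem W8580 : WFK w8580 := fun D T h => wf_of_chk h mem_nil (mem_cons (L1167 D T h) mem_nil) cw8580
theorem W8581 : WFK w8581 := fun D T h => wf_of_chk h (mem_cons (W3766 D T h) (mem_cons (W16 D T h) mem_nil)) mem_nil cw8581
theorem L1944 : LFK l1944 := fun D T h => lf_of_chk h (mem_cons (W8474 D T h) (mem_cons (W56 D T h) (mem_cons (W1 D T h) (mem_cons (W69 D T h) (mem_cons (W618 D T h) (mem_cons (W505 D T h) (mem_cons (W7212 D T h) (mem_cons (W721 D T h) (mem_cons (W267 D T h) (mem_cons (W370 D T h) (mem_cons (W4262 D T h) (mem_cons (W390 D T h) (mem_cons (W5765 D T h) (mem_cons (W2548 D T h) (mem_cons (W375 D T h) (mem_cons (W2575 D T h) (mem_cons (W724 D T h) (mem_cons (W5764 D T h) mem_nil)))))))))))))))))) cl1944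
theorem W8582 : WFK w8582 := fun D T h => wf_of_chk h mem_nil (mem_cons (L1944 D T h) mem_nil) cw8582
theorem W8583 : WFK w8583 := fun D T h => wf_of_chk h (mem_cons (W162 D T h) (mem_cons (W267 D T h) mem_nil)) mem_nil cw8583
theorem W8584 : WFK w8584 := fun D T h => wf_of_chk h (mem_cons (W105 D T h) (mem_cons (W16 D T h) mem_nil)) mem_nil cw8584
theorem W8585 : WFK w8585 := fun D T h => wf_of_chk h (mem_cons (W255 D T h) (mem_cons (W16 D T h) mem_nil)) mem_nil cw8585
theorem W8586 : WFK w8586 := fun D T h => wf_of_chk h (mem_cons (W257 D T h) (mem_cons (W16 D T h) mem_nil)) mem_nil cw8586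
theorem W8587 : WFK w8587 := fun D T h => wf_of_chk h (mem_cons (W257 D T h) (mem_cons (W16 D T h) mem_nil)) mem_nil cw8587
theorem L1945 : LFK l1945 := fun D T h => lf_of_chk h (mem_cons (W8564 D T h) (mem_cons (W1310 D T h) (mem_cons (W2963 D T h) (mem_cons (W284 D T h) (mem_cons (W126 D T h) (mem_cons (W56 D T h) (mem_cons (W267 D T h) (mem_cons (W16 D T h) (mem_cons (W1350 D T h) (mem_cons (W703 D T h) (mem_cons (W8566 D T h) (mem_cons (W8582 D T h) (mem_cons (W8583 D T h) (mem_cons (W2934 D T h) (mem_cons (W8581 D T h) (mem_cons (W2927 D T h) (mem_cons (W669 D T h) (mem_cons (W8474 D T h) (mem_cons (W2928 D T h) (mem_cons (W6904 D T h) (mem_cons (W8578 D T h) (mem_cons (W6892 D T h) (mem_cons (W8579 D T h) (mem_cons (W721 D T h) (mem_cons (W2709 D T h) (mem_cons (W5375 D T h) (mem_cons (W2936 D T h) (mem_cons (W3982 D T h) (mem_cons (W8580 D T h) (mem_cons (W8169 D T h) (mem_cons (W3325 D T h) (mem_cons (W8569 D T h) (mem_cons (W2325 D T h) (mem_cons (W8584 D T h) (mem_cons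 (W8585 D T h) (mem_cons (W8586 D T h) (mem_cons (W8587 D T h) (mem_cons (W2911 D T h) mem_nil)))))))))))))))))))))))))))))))))))))) cl1945
theorem W8588 : WFK w8588 := fun D T h => wf_of_chk h mem_nil (mem_cons (L1945 D T h) mem_nil) cw8588
theorem W8589 : WFK w8589 := fun D T h => wf_of_chk h mem_nil (mem_cons (L1945 D T h) mem_nil) cw8589
theorem W8590 : WFK w8590 := fun D T h => wf_of_chk h mem_nil (mem_cons (L1146 D T h) mem_nil) cw8590
theorem W8591 : WFK w8591 := fun D T h => wf_of_chk h (mem_cons (W16 D T h) (mem_cons (W267 D T h) mem_nil)) mem_nil cw8591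
theorem W8592 : WFK w8592 := fun D T h => wf_of_chk h mem_nil (mem_cons (L1146 D T h) mem_nil) cw8592
theorem W8593 : WFK w8593 := fun D T h => wf_of_chk h mem_nil (mem_cons (L1146 D T h) mem_nil) cw8593
theorem L1946 : LFK l1946 := fun D T h => lf_of_chk h (mem_cons (W2984 D T h) (mem_cons (W1300 D T h) (mem_cons (W368 D T h) (mem_cons (W126 D T h) (mem_cons (W721 D T h) (mem_cons (W267 D T h) (mem_cons (W8559 D T h) (mem_cons (W114 D T h) (mem_cons (W4013 D T h) (mem_cons (W2714 D T h) (mem_cons (W6433 D T h) (mem_cons (W8590 D T h) (mem_cons (W8591 D T h) (mem_cons (W8592 D T h) (mem_cons (W8593 D T h) (mem_cons (W3993 D T h) (mem_cons (W4015 D T h) (mem_cons (W1643 D T h) (mem_cons (W8564 D T h) (mem_cons (W8565 D T h) (mem_cons (W8577 D T h) (mem_cons (W8588 D T h) (mem_cons (W8589 D T h) (mem_cons (W8561 D T h) (mem_cons (W3943 D T h) (mem_cons (W1317 D T h) (mem_cons (W8500 D T h) (mem_cons (W8501 D T h) (mem_cons (W8502 D T h) (mem_cons (W2983 D T h) (mem_cons (W8562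 D T h) (mem_cons (W1 D T h) (mem_cons (W69 D T h) mem_nil))))))))))))))))))))))))))))))))) cl1946
theorem W8594 : WFK w8594 := fun D T h => wf_of_chk h mem_nil (mem_cons (L1946 D T h) mem_nil) cw8594
theorem L1947 : LFK l1947 := fun D T h => lf_of_chk h (mem_cons (W7171 D T h) (mem_cons (W1316 D T h) mem_nil)) cl1947
theorem W8595 : WFK w8595 := fun D T h => wf_of_chk h mem_nil (mem_cons (L1947 D T h) mem_nil) cw8595
theorem L1948 : LFK l1948 := fun D T h => lf_of_chk h (mem_cons (W5059 D T h) mem_nil) cl1948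
theorem W8596 : WFK w8596 := fun D T h => wf_of_chk h mem_nil (mem_cons (L1948 D T h) mem_nil) cw8596
theorem W8597 : WFK w8597 := fun D T h => wf_of_chk h mem_nil (mem_cons (L1948 D T h) mem_nil) cw8597
theorem W8598 : WFK w8598 := fun D T h => wf_of_chk h mem_nil (mem_cons (L846 D T h) mem_nil) cw8598
theorem L1949 : LFK l1949 := fun D T h => lf_of_chk h (mem_cons (W401 D T h) (mem_cons (W177 D T h) (mem_cons (W175 D T h) (mem_cons (W392 D T h) (mem_cons (W8598 D T h) (mem_cons (W2047 D T h) (mem_cons (W4737 D T h) (mem_cons (W2075 D T h) (mem_cons (W2685 D T h) (mem_cons (W1801 D T h) (mem_cons (W3 D T h) (mem_cons (W651 D T h) (mem_cons (W1412 D T h) (mem_cons (W260 D T h) (mem_cons (W3797 D T h) (mem_cons (W2753 D T h) mem_nil)))))))))))))))) cl1949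
theorem W8599 : WFK w8599 := fun D T h => wf_of_chk h mem_nil (mem_cons (L1949 D T h) mem_nil) cw8599
theorem W8600 : WFK w8600 := fun D T h => wf_of_chk h mem_nil (mem_cons (L753 D T h) mem_nil) cw8600
theorem W8601 : WFK w8601 := fun D T h => wf_of_chk h mem_nil (mem_cons (L1942 D T h) mem_nil) cw8601
theorem W8602 : WFK w8602 := fun D T h => wf_of_chk h mem_nil (mem_cons (L1942 D T h) mem_nil) cw8602
theorem W8603 : WFK w8603 := fun D T h => wf_of_chk h mem_nil (mem_cons (L1942 D T h) mem_nil) cw8603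
theorem W8604 : WFK w8604 := fun D T h => wf_of_chk h (mem_cons (W16 D T h) (mem_cons (W56 D T h) mem_nil)) mem_nil cw8604
theorem W8605 : WFK w8605 := fun D T h => wf_of_chk h mem_nil (mem_cons (L754 D T h) mem_nil) cw8605
theorem W8606 : WFK w8606 := fun D T h => wf_of_chk h mem_nil (mem_cons (L1146 D T h) mem_nil) cw8606
theorem L1950 : LFK l1950 := fun D T h => lf_of_chk h (mem_cons (W2985 D T h) (mem_cons (W1300 D T h) (mem_cons (W126 D T h) (mem_cons (W368 D T h) (mem_cons (W267 D T h) (mem_cons (W721 D T h) (mem_cons (W8559 D T h) (mem_cons (W114 D T h) (mem_cons (W3943 D T h) (mem_cons (W2714 D T h) (mem_cons (W6433 D T h) (mem_cons (W8590 D T h) (mem_cons (W8604 D T h) (mem_cons (W8605 D T h) (mem_cons (W8606 D T h) (mem_cons (W4017 D T h) (mem_cons (W3990 D T h) (mem_cons (W1643 D T h) (mem_cons (W8564 D T h) (mem_cons (W8601 D T h) (mem_cons (W8577 D T h) (mem_cons (W8602 D T h) (mem_cons (W8603 D T h) (mem_cons (W8599 D T h) (mem_cons (W8563 D T h) (mem_cons (W8595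 D T h) (mem_cons (W1317 D T h) (mem_cons (W8596 D T h) (mem_cons (W8597 D T h) (mem_cons (W2983 D T h) (mem_cons (W8562 D T h) (mem_cons (W1 D T h) (mem_cons (W69 D T h) mem_nil))))))))))))))))))))))))))))))))) cl1950
theorem W8607 : WFK w8607 := fun D T h => wf_of_chk h mem_nil (mem_cons (L1950 D T h) mem_nil) cw8607
theorem W8608 : WFK w8608 := fun D T h => wf_of_chk h mem_nil (mem_cons (L1915 D T h) mem_nil) cw8608
theorem W8609 : WFK w8609 := fun D T h => wf_of_chk h mem_nil (mem_cons (L1608 D T h) mem_nil) cw8609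
theorem W8611 : WFK w8611 := fun D T h => wf_of_chk h mem_nil (mem_cons (L409 D T h) mem_nil) cw8611
theorem L1957 : LFK l1957 := fun D T h => lf_of_chk h (mem_cons (W42 D T h) (mem_cons (W1919 D T h) (mem_cons (W20 D T h) (mem_cons (W3 D T h) (mem_cons (W1172 D T h) (mem_cons (W6352 D T h) (mem_cons (W851 D T h) (mem_cons (W173 D T h) (mem_cons (W2350 D T h) (mem_cons (W1325 D T h) (mem_cons (W1554 D T h) (mem_cons (W581 D T h) (mem_cons (W1326 D T h) (mem_cons (W4296 D T h) (mem_cons (W267 D T h) (mem_cons (W721 D T h) (mem_cons (W431 D T h) (mem_cons (W722 D T h) (mem_cons (W6647 D T h) mem_nil))))))))))))))))))) cl1957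
theorem W8619 : WFK w8619 := fun D T h => wf_of_chk h mem_nil (mem_cons (L1957 D T h) mem_nil) cw8619
theorem L1958 : LFK l1958 := fun D T h => lf_of_chk h (mem_cons (W3766 D T h) (mem_cons (W8138 D T h) (mem_cons (W14 D T h) (mem_cons (W3 D T h) (mem_cons (W1409 D T h) (mem_cons (W39 D T h) (mem_cons (W721 D T h) (mem_cons (W158 D T h) (mem_cons (W8619 D T h) (mem_cons (W258 D T h) (mem_cons (W746 D T h) (mem_cons (W747 D T h) (mem_cons (W748 D T h) (mem_cons (W181 D T h) mem_nil)))))))))))))) cl1958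
theorem L1959 : LFK l1959 := fun D T h => lf_of_chk h (mem_cons (W3766 D T h) (mem_cons (W8138 D T h) (mem_cons (W14 D T h) (mem_cons (W3 D T h) (mem_cons (W461 D T h) (mem_cons (W39 D T h) (mem_cons (W42 D T h) (mem_cons (W1 D T h) (mem_cons (W2362 D T h) (mem_cons (W1325 D T h) (mem_cons (W1554 D T h) (mem_cons (W581 D T h) (mem_cons (W1326 D T h) (mem_cons (W181 D T h) mem_nil)))))))))))))) cl1959
theorem W8623 : WFK w8623 := fun D T h => wf_of_chk h mem_nil (mem_cons (L479 D T h) mem_nil) cw8623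
theorem L1960 : LFK l1960 := fun D T h => lf_of_chk h (mem_cons (W830 D T h) (mem_cons (W808 D T h) (mem_cons (W4 D T h) (mem_cons (W33 D T h) (mem_cons (W5 D T h) (mem_cons (W278 D T h) (mem_cons (W809 D T h) (mem_cons (W25 D T h) (mem_cons (W8623 D T h) (mem_cons (W2572 D T h) (mem_cons (W4189 D T h) (mem_cons (W142 D T h) (mem_cons (W816 D T h) (mem_cons (W820 D T h) (mem_cons (W3856 D T h) (mem_cons (W821 D T h) (mem_cons (W632 D T h) mem_nil))))))))))))))))) cl1960
theorem W8624 : WFK w8624 := fun D T h => wf_of_chk h mem_nil (mem_cons (L1960 D T h) mem_nil) cw8624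
theorem L1961 : LFK l1961 := fun D T h => lf_of_chk h (mem_cons (W42 D T h) (mem_cons (W3 D T h) (mem_cons (W39 D T h) (mem_cons (W32 D T h) (mem_cons (W1177 D T h) (mem_cons (W4296 D T h) (mem_cons (W721 D T h) (mem_cons (W267 D T h) (mem_cons (W431 D T h) (mem_cons (W722 D T h) (mem_cons (W6647 D T h) (mem_cons (W8624 D T h) (mem_cons (W173 D T h) (mem_cons (W1554 D T h) (mem_cons (W1325 D T h) (mem_cons (W581 D T h) (mem_cons (W1326 D T h) (mem_cons (W1172 D T h) (mem_cons (W851 D T h) mem_nil))))))))))))))))))) cl1961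
theorem W8625 : WFK w8625 := fun D T h => wf_of_chk h mem_nil (mem_cons (L1961 D T h) mem_nil) cw8625
theorem W8626 : WFK w8626 := fun D T h => wf_of_chk h (mem_cons (W368 D T h) mem_nil) mem_nil cw8626
theorem L1962 : LFK l1962 := fun D T h => lf_of_chk h (mem_cons (W42 D T h) (mem_cons (W1919 D T h) (mem_cons (W368 D T h) (mem_cons (W3 D T h) (mem_cons (W39 D T h) (mem_cons (W1172 D T h) (mem_cons (W851 D T h) (mem_cons (W8626 D T h) (mem_cons (W173 D T h) (mem_cons (W1554 D T h) (mem_cons (W1325 D T h) (mem_cons (W581 D T h) (mem_cons (W1326 D T h) (mem_cons (W4296 D T h) (mem_cons (W721 D T h) (mem_cons (W267 D T h) (mem_cons (W15 D T h) (mem_cons (W722 D T h) (mem_cons (W431 D T h) mem_nil))))))))))))))))))) cl1962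
theorem W8627 : WFK w8627 := fun D T h => wf_of_chk h mem_nil (mem_cons (L1962 D T h) mem_nil) cw8627
theorem L1963 : LFK l1963 := fun D T h => lf_of_chk h (mem_cons (W284 D T h) (mem_cons (W5633 D T h) (mem_cons (W6613 D T h) (mem_cons (W42 D T h) (mem_cons (W1063 D T h) (mem_cons (W16 D T h) (mem_cons (W7114 D T h) (mem_cons (W2037 D T h) (mem_cons (W8627 D T h) (mem_cons (W15 D T h) (mem_cons (W261 D T h) (mem_cons (W1139 D T h) (mem_cons (W128 D T h) (mem_cons (W5721 D T h) mem_nil)))))))))))))) cl1963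
theorem W8628 : WFK w8628 := fun D T h => wf_of_chk h mem_nil (mem_cons (L1963 D T h) mem_nil) cw8628
theorem W8629 : WFK w8629 := fun D T h => wf_of_chk h (mem_cons (W164 D T h) (mem_cons (W16 D T h) mem_nil)) mem_nil cw8629
theorem W8630 : WFK w8630 := fun D T h => wf_of_chk h mem_nil (mem_cons (L1496 D T h) mem_nil) cw8630
theorem W8631 : WFK w8631 := fun D T h => wf_of_chk h mem_nil (mem_cons (L1608 D T h) mem_nil) cw8631
theorem W8632 : WFK w8632 := fun D T h => wf_of_chk h mem_nil (mem_cons (L862 D T h) mem_nil) cw8632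
theorem W8633 : WFK w8633 := fun D T h => wf_of_chk h mem_nil (mem_cons (L1608 D T h) mem_nil) cw8633
theorem L1964 : LFK l1964 := fun D T h => lf_of_chk h (mem_cons (W6960 D T h) (mem_cons (W4037 D T h) (mem_cons (W831 D T h) (mem_cons (W8632 D T h) (mem_cons (W8633 D T h) mem_nil))))) cl1964
theorem W8636 : WFK w8636 := fun D T h => wf_of_chk h mem_nil (mem_cons (L1608 D T h) mem_nil) cw8636
theorem W8638 : WFK w8638 := fun D T h => wf_of_chk h mem_nil (mem_cons (L1964 D T h) mem_nil) cw8638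
theorem W8639 : WFK w8639 := fun D T h => wf_of_chk h (mem_cons (W177 D T h) (mem_cons (W16 D T h) mem_nil)) mem_nil cw8639
theorem W8640 : WFK w8640 := fun D T h => wf_of_chk h (mem_cons (W69 D T h) (mem_cons (W16 D T h) mem_nil)) mem_nil cw8640
theorem W8641 : WFK w8641 := fun D T h => wf_of_chk h mem_nil (mem_cons (L862 D T h) mem_nil) cw8641
theorem W8642 : WFK w8642 := fun D T h => wf_of_chk h mem_nil (mem_cons (L1608 D T h) mem_nil) cw8642
theorem L1966 : LFK l1966 := fun D T h => lf_of_chk h (mem_cons (W8633 D T h) (mem_cons (W4037 D T h) (mem_cons (W831 D T h) (mem_cons (W8641 D T h) (mem_cons (W8642 D T h) mem_nil))))) cl1966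
theorem W8643 : WFK w8643 := fun D T h => wf_of_chk h mem_nil (mem_cons (L1966 D T h) mem_nil) cw8643
theorem L1967 : LFK l1967 := fun D T h => lf_of_chk h (mem_cons (W8609 D T h) (mem_cons (W1051 D T h) (mem_cons (W3766 D T h) (mem_cons (W16 D T h) (mem_cons (W4435 D T h) (mem_cons (W1737 D T h) (mem_cons (W638 D T h) (mem_cons (W4437 D T h) (mem_cons (W915 D T h) (mem_cons (W6961 D T h) mem_nil)))))))))) cl1967
theorem W8644 : WFK w8644 := fun D T h => wf_of_chk h mem_nil (mem_cons (L1967 D T h) mem_nil) cw8644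
theorem W8645 : WFK w8645 := fun D T h => wf_of_chk h (mem_cons (W16 D T h) mem_nil) mem_nil cw8645
theorem L1968 : LFK l1968 := fun D T h => lf_of_chk h (mem_cons (W8609 D T h) (mem_cons (W1051 D T h) (mem_cons (W3766 D T h) (mem_cons (W16 D T h) (mem_cons (W3762 D T h) (mem_cons (W1737 D T h) (mem_cons (W1539 D T h) (mem_cons (W6958 D T h) (mem_cons (W914 D T h) (mem_cons (W6961 D T h) mem_nil)))))))))) cl1968
theorem W8646 : WFK w8646 := fun D T h => wf_of_chk h mem_nil (mem_cons (L1968 D T h) mem_nil) cw8646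
theorem L1969 : LFK l1969 := fun D T h => lf_of_chk h (mem_cons (W638 D T h) (mem_cons (W1473 D T h) (mem_cons (W1538 D T h) (mem_cons (W6577 D T h) (mem_cons (W91 D T h) (mem_cons (W2764 D T h) (mem_cons (W16 D T h) (mem_cons (W4435 D T h) (mem_cons (W915 D T h) (mem_cons (W1737 D T h) (mem_cons (W4438 D T h) (mem_cons (W3794 D T h) (mem_cons (W6961 D T h) mem_nil))))))))))))) cl1969
theorem W8647 : WFK w8647 := fun D T h => wf_of_chk h mem_nil (mem_cons (L1969 D T h) mem_nil) cw8647
theorem W8651 : WFK w8651 := fun D T h => wf_of_chk h mem_nil (mem_cons (L409 D T h) mem_nil) cw8651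
theorem W8654 : WFK w8654 := fun D T h => wf_of_chk h (mem_cons (W16 D T h) (mem_cons (W8645 D T h) mem_nil)) mem_nil cw8654
theorem W8655 : WFK w8655 := fun D T h => wf_of_chk h mem_nil (mem_cons (L106 D T h) mem_nil) cw8655
theorem W8656 : WFK w8656 := fun D T h => wf_of_chk h (mem_cons (W8655 D T h) (mem_cons (W16 D T h) mem_nil)) mem_nil cw8656
theorem L1971 : LFK l1971 := fun D T h => lf_of_chk h (mem_cons (W1397 D T h) (mem_cons (W8644 D T h) (mem_cons (W15 D T h) (mem_cons (W220 D T h) (mem_cons (W17 D T h) (mem_cons (W8631 D T h) (mem_cons (W83 D T h) (mem_cons (W2309 D T h) mem_nil)))))))) cl1971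
theorem W8657 : WFK w8657 := fun D T h => wf_of_chk h mem_nil (mem_cons (L1971 D T h) mem_nil) cw8657
theorem W8658 : WFK w8658 := fun D T h => wf_of_chk h (mem_cons (W220 D T h) (mem_cons (W8647 D T h) mem_nil)) mem_nil cw8658
theorem W8659 : WFK w8659 := fun D T h => wf_of_chk h mem_nil (mem_cons (L1971 D T h) mem_nil) cw8659
theorem W8660 : WFK w8660 := fun D T h => wf_of_chk h mem_nil (mem_cons (L1971 D T h) mem_nil) cw8660
theorem W8661 : WFK w8661 := fun D T h => wf_of_chk h mem_nil (mem_cons (L1465 D T h) mem_nil) cw8661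
theorem W8662 : WFK w8662 := fun D T h => wf_of_chk h (mem_cons (W8661 D T h) (mem_cons (W16 D T h) mem_nil)) mem_nil cw8662
theorem L1972 : LFK l1972 := fun D T h => lf_of_chk h (mem_cons (W1502 D T h) (mem_cons (W342 D T h) (mem_cons (W8645 D T h) (mem_cons (W16 D T h) (mem_cons (W8644 D T h) (mem_cons (W1408 D T h) (mem_cons (W8654 D T h) (mem_cons (W8662 D T h) (mem_cons (W284 D T h) (mem_cons (W2934 D T h) (mem_cons (W1632 D T h) (mem_cons (W1397 D T h) (mem_cons (W8656 D T h) (mem_cons (W209 D T h) (mem_cons (W8657 D T h) (mem_cons (W8658 D T h) (mem_cons (W8659 D T h) (mem_cons (W8660 D T h) (mem_cons (W3780 D T h) (mem_cons (W3666 D T h) (mem_cons (W8609 D T h) (mem_cons (W42 D T h) (mem_cons (W6498 D T h) (mem_cons (W2050 D T h) (mem_cons (W2049 D T h) (mem_cons (W2051 D T h) (mem_cons (W2219 D T h) (mem_cons (W358 D T h) (mem_cons (W1396 D T h) (mem_cons (W1676 D T h) (mem_cons (W7693 D T h) mem_nil))))))))))))))))))))))))))))))) cl1972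
theorem W8663 : WFK w8663 := fun D T h => wf_of_chk h mem_nil (mem_cons (L1972 D T h) mem_nil) cw8663
theorem L1977 : LFK l1977 := fun D T h => lf_of_chk h (mem_cons (W17 D T h) mem_nil) cl1977
theorem W8671 : WFK w8671 := fun D T h => wf_of_chk h mem_nil (mem_cons (L1977 D T h) mem_nil) cw8671
theorem W8674 : WFK w8674 := fun D T h => wf_of_chk h mem_nil (mem_cons (L1866 D T h) mem_nil) cw8674
theorem W8675 : WFK w8675 := fun D T h => wf_of_chk h (mem_cons (W17 D T h) mem_nil) mem_nil cw8675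
theorem W8676 : WFK w8676 := fun D T h => wf_of_chk h mem_nil (mem_cons (L0 D T h) mem_nil) cw8676
theorem W8677 : WFK w8677 := fun D T h => wf_of_chk h (mem_cons (W8676 D T h) mem_nil) mem_nil cw8677
theorem W8679 : WFK w8679 := fun D T h => wf_of_chk h (mem_cons (W6997 D T h) mem_nil) mem_nil cw8679
theorem W8683 : WFK w8683 := fun D T h => wf_of_chk h mem_nil (mem_cons (L57 D T h) mem_nil) cw8683
theorem L1983 : LFK l1983 := fun D T h => lf_of_chk h (mem_cons (W8671 D T h) mem_nil) cl1983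
theorem W8687 : WFK w8687 := fun D T h => wf_of_chk h mem_nil (mem_cons (L1983 D T h) mem_nil) cw8687
theorem L1986 : LFK l1986 := fun D T h => lf_of_chk h (mem_cons (W6958 D T h) (mem_cons (W5606 D T h) (mem_cons (W3762 D T h) (mem_cons (W211 D T h) (mem_cons (W1249 D T h) mem_nil))))) cl1986
theorem W8692 : WFK w8692 := fun D T h => wf_of_chk h mem_nil (mem_cons (L1986 D T h) mem_nil) cw8692
theorem W8695 : WFK w8695 := fun D T h => wf_of_chk h mem_nil (mem_cons (L176 D T h) mem_nil) cw8695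
theorem W8702 : WFK w8702 := fun D T h => wf_of_chk h (mem_cons (W220 D T h) mem_nil) mem_nil cw8702
theorem W8703 : WFK w8703 := fun D T h => wf_of_chk h (mem_cons (W15 D T h) mem_nil) mem_nil cw8703
theorem W8715 : WFK w8715 := fun D T h => wf_of_chk h mem_nil (mem_cons (L676 D T h) mem_nil) cw8715
theorem W8723 : WFK w8723 := fun D T h => wf_of_chk h mem_nil (mem_cons (L1966 D T h) mem_nil) cw8723
theorem W8743 : WFK w8743 := fun D T h => wf_of_chk h mem_nil (mem_cons (L1886 D T h) mem_nil) cw8743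
theorem W8744 : WFK w8744 := fun D T h => wf_of_chk h mem_nil (mem_cons (L1886 D T h) mem_nil) cw8744
theorem W8745 : WFK w8745 := fun D T h => wf_of_chk h mem_nil (mem_cons (L1886 D T h) mem_nil) cw8745
theorem W8746 : WFK w8746 := fun D T h => wf_of_chk h mem_nil (mem_cons (L1886 D T h) mem_nil) cw8746
theorem W8747 : WFK w8747 := fun D T h => wf_of_chk h (mem_cons (W2844 D T h) (mem_cons (W16 D T h) mem_nil)) mem_nil cw8747
theorem W8748 : WFK w8748 := fun D T h => wf_of_chk h (mem_cons (W800 D T h) (mem_cons (W16 D T h) mem_nil)) mem_nil cw8748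
theorem W8749 : WFK w8749 := fun D T h => wf_of_chk h (mem_cons (W2938 D T h) (mem_cons (W16 D T h) mem_nil)) mem_nil cw8749
theorem W8750 : WFK w8750 := fun D T h => wf_of_chk h (mem_cons (W2844 D T h) mem_nil) mem_nil cw8750
theorem W8751 : WFK w8751 := fun D T h => wf_of_chk h mem_nil (mem_cons (L1598 D T h) mem_nil) cw8751
theorem W8752 : WFK w8752 := fun D T h => wf_of_chk h (mem_cons (W164 D T h) mem_nil) mem_nil cw8752
theorem W8753 : WFK w8753 := fun D T h => wf_of_chk h mem_nil (mem_cons (L17 D T h) mem_nil) cw8753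
theorem L1997 : LFK l1997 := fun D T h => lf_of_chk h (mem_cons (W5606 D T h) (mem_cons (W124 D T h) (mem_cons (W4 D T h) (mem_cons (W8695 D T h) (mem_cons (W8753 D T h) (mem_cons (W884 D T h) mem_nil)))))) cl1997
theorem W8754 : WFK w8754 := fun D T h => wf_of_chk h mem_nil (mem_cons (L1997 D T h) mem_nil) cw8754
theorem W8755 : WFK w8755 := fun D T h => wf_of_chk h mem_nil (mem_cons (L1598 D T h) mem_nil) cw8755
theorem W8756 : WFK w8756 := fun D T h => wf_of_chk h (mem_cons (W391 D T h) (mem_cons (W16 D T h) mem_nil)) mem_nil cw8756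
theorem L1998 : LFK l1998 := fun D T h => lf_of_chk h (mem_cons (W7083 D T h) (mem_cons (W2839 D T h) (mem_cons (W16 D T h) (mem_cons (W390 D T h) (mem_cons (W7265 D T h) (mem_cons (W7266 D T h) (mem_cons (W8752 D T h) (mem_cons (W8755 D T h) (mem_cons (W3783 D T h) (mem_cons (W8754 D T h) (mem_cons (W281 D T h) (mem_cons (W1637 D T h) (mem_cons (W2645 D T h) (mem_cons (W2160 D T h) (mem_cons (W2089 D T h) (mem_cons (W2107 D T h) (mem_cons (W8756 D T h) (mem_cons (W5606 D T h) (mem_cons (W4650 D T h) (mem_cons (W7250 D T h) (mem_cons (W8750 D T h) (mem_cons (W7252 D T h) (mem_cons (W7313 D T h) (mem_cons (W8751 D T h) (mem_cons (W5247 D T h) (mem_cons (W497 D T h) mem_nil)))))))))))))))))))))))))) cl1998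
theorem W8757 : WFK w8757 := fun D T h => wf_of_chk h mem_nil (mem_cons (L1998 D T h) mem_nil) cw8757
theorem W8758 : WFK w8758 := fun D T h => wf_of_chk h mem_nil (mem_cons (L886 D T h) mem_nil) cw8758
theorem W8759 : WFK w8759 := fun D T h => wf_of_chk h (mem_cons (W114 D T h) (mem_cons (W16 D T h) mem_nil)) mem_nil cw8759
theorem W8760 : WFK w8760 := fun D T h => wf_of_chk h mem_nil (mem_cons (L1433 D T h) mem_nil) cw8760
theorem W8761 : WFK w8761 := fun D T h => wf_of_chk h (mem_cons (W1889 D T h) (mem_cons (W16 D T h) mem_nil)) mem_nil cw8761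
theorem W8762 : WFK w8762 := fun D T h => wf_of_chk h (mem_cons (W3006 D T h) (mem_cons (W16 D T h) mem_nil)) mem_nil cw8762
theorem L1999 : LFK l1999 := fun D T h => lf_of_chk h (mem_cons (W8743 D T h) (mem_cons (W2839 D T h) (mem_cons (W16 D T h) (mem_cons (W2709 D T h) (mem_cons (W1599 D T h) (mem_cons (W2868 D T h) (mem_cons (W7436 D T h) (mem_cons (W3973 D T h) (mem_cons (W7864 D T h) (mem_cons (W8762 D T h) (mem_cons (W1227 D T h) (mem_cons (W8759 D T h) (mem_cons (W3958 D T h) (mem_cons (W8760 D T h) (mem_cons (W8761 D T h) (mem_cons (W284 D T h) (mem_cons (W7361 D T h) (mem_cons (W7363 D T h) (mem_cons (W8383 D T h) (mem_cons (W6758 D T h) (mem_cons (W6719 D T h) (mem_cons (W2936 D T h) (mem_cons (W2051 D T h) (mem_cons (W2861 D T h) (mem_cons (W3974 D T h) (mem_cons (W7354 D T h) (mem_cons (W5211 D T h) (mem_cons (W7355 D T h) (mem_cons (W8748 D T h) (mem_cons (W8417 D T h) (mem_cons (W7310 D T h) (mem_cons (W7863 D T h) (mem_cons (W8749 D T h) (mem_cons (W8757 D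 T h) (mem_cons (W8758 D T h) (mem_cons (W2934 D T h) (mem_cons (W2192 D T h) (mem_cons (W2405 D T h) (mem_cons (W7401 D T h) (mem_cons (W8744 D T h) (mem_cons (W8745 D T h) (mem_cons (W8746 D T h) (mem_cons (W8747 D T h) mem_nil))))))))))))))))))))))))))))))))))))))))))) cl1999
theorem W8763 : WFK w8763 := fun D T h => wf_of_chk h mem_nil (mem_cons (L1999 D T h) mem_nil) cw8763
theorem W8766 : WFK w8766 := fun D T h => wf_of_chk h (mem_cons (W267 D T h) (mem_cons (W16 D T h) mem_nil)) mem_nil cw8766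
theorem W8767 : WFK w8767 := fun D T h => wf_of_chk h (mem_cons (W114 D T h) (mem_cons (W16 D T h) mem_nil)) mem_nil cw8767
theorem W8768 : WFK w8768 := fun D T h => wf_of_chk h (mem_cons (W2844 D T h) (mem_cons (W16 D T h) mem_nil)) mem_nil cw8768
theorem W8769 : WFK w8769 := fun D T h => wf_of_chk h (mem_cons (W1067 D T h) (mem_cons (W16 D T h) mem_nil)) mem_nil cw8769
theorem W8770 : WFK w8770 := fun D T h => wf_of_chk h (mem_cons (W114 D T h) (mem_cons (W16 D T h) mem_nil)) mem_nil cw8770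
theorem L2000 : LFK l2000 := fun D T h => lf_of_chk h (mem_cons (W3325 D T h) (mem_cons (W3571 D T h) (mem_cons (W2861 D T h) (mem_cons (W16 D T h) (mem_cons (W8150 D T h) (mem_cons (W3926 D T h) (mem_cons (W337 D T h) (mem_cons (W794 D T h) (mem_cons (W3304 D T h) (mem_cons (W7106 D T h) (mem_cons (W1331 D T h) (mem_cons (W8770 D T h) (mem_cons (W2709 D T h) (mem_cons (W2936 D T h) (mem_cons (W2050 D T h) (mem_cons (W7436 D T h) (mem_cons (W3937 D T h) (mem_cons (W7578 D T h) (mem_cons (W7577 D T h) (mem_cons (W2874 D T h) (mem_cons (W8397 D T h) (mem_cons (W8767 D T h) (mem_cons (W6719 D T h) (mem_cons (W2844 D T h) (mem_cons (W8768 D T h) (mem_cons (W2848 D T h) (mem_cons (W7288 D T h) (mem_cons (W8769 D T h) (mem_cons (W8766 D T h) (mem_cons (W1227 D T h) (mem_cons (W8457 D T h) (mem_cons (W7506 D T h) (mem_cons (W284 D T h) (mem_cons (W7524 D T h) mem_nil)))))))))))))))))))))))))))))))))) cl2000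
theorem W8771 : WFK w8771 := fun D T h => wf_of_chk h mem_nil (mem_cons (L2000 D T h) mem_nil) cw8771
theorem W8781 : WFK w8781 := fun D T h => wf_of_chk h mem_nil (mem_cons (L682 D T h) mem_nil) cw8781
theorem W8783 : WFK w8783 := fun D T h => wf_of_chk h mem_nil (mem_cons (L306 D T h) mem_nil) cw8783
theorem W8800 : WFK w8800 := fun D T h => wf_of_chk h (mem_cons (W16 D T h) (mem_cons (W284 D T h) mem_nil)) mem_nil cw8800
theorem W8804 : WFK w8804 := fun D T h => wf_of_chk h (mem_cons (W284 D T h) (mem_cons (W16 D T h) mem_nil)) mem_nil cw8804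
theorem W8807 : WFK w8807 := fun D T h => wf_of_chk h mem_nil (mem_cons (L659 D T h) mem_nil) cw8807
theorem W8815 : WFK w8815 := fun D T h => wf_of_chk h mem_nil (mem_cons (L21 D T h) mem_nil) cw8815
theorem W8817 : WFK w8817 := fun D T h => wf_of_chk h mem_nil (mem_cons (L24 D T h) mem_nil) cw8817
theorem W8819 : WFK w8819 := fun D T h => wf_of_chk h mem_nil (mem_cons (L299 D T h) mem_nil) cw8819
theorem W8829 : WFK w8829 := fun D T h => wf_of_chk h mem_nil (mem_cons (L878 D T h) mem_nil) cw8829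
theorem W8839 : WFK w8839 := fun D T h => wf_of_chk h mem_nil mem_nil cw8839
theorem L2003 : LFK l2003 := fun D T h => lf_of_chk h (mem_cons (W351 D T h) (mem_cons (W259 D T h) (mem_cons (W42 D T h) (mem_cons (W16 D T h) (mem_cons (W3 D T h) (mem_cons (W39 D T h) (mem_cons (W15 D T h) (mem_cons (W7258 D T h) (mem_cons (W7259 D T h) (mem_cons (W174 D T h) (mem_cons (W1051 D T h) (mem_cons (W8609 D T h) mem_nil)))))))))))) cl2003
theorem W8849 : WFK w8849 := fun D T h => wf_of_chk h (mem_cons (W726 D T h) (mem_cons (W177 D T h) mem_nil)) mem_nil cw8849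
theorem W8850 : WFK w8850 := fun D T h => wf_of_chk h (mem_cons (W175 D T h) (mem_cons (W177 D T h) mem_nil)) mem_nil cw8850
theorem L2004 : LFK l2004 := fun D T h => lf_of_chk h (mem_cons (W2339 D T h) (mem_cons (W667 D T h) (mem_cons (W669 D T h) (mem_cons (W50 D T h) (mem_cons (W17 D T h) (mem_cons (W3335 D T h) (mem_cons (W8849 D T h) (mem_cons (W8850 D T h) (mem_cons (W3 D T h) (mem_cons (W3534 D T h) (mem_cons (W3535 D T h) (mem_cons (W4130 D T h) (mem_cons (W3392 D T h) (mem_cons (W1397 D T h) (mem_cons (W3394 D T h) mem_nil))))))))))))))) cl2004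
theorem W8851 : WFK w8851 := fun D T h => wf_of_chk h mem_nil (mem_cons (L2004 D T h) mem_nil) cw8851
theorem W8852 : WFK w8852 := fun D T h => wf_of_chk h (mem_cons (W50 D T h) (mem_cons (W667 D T h) mem_nil)) mem_nil cw8852
theorem W8853 : WFK w8853 := fun D T h => wf_of_chk h mem_nil (mem_cons (L2004 D T h) mem_nil) cw8853
theorem W8854 : WFK w8854 := fun D T h => wf_of_chk h mem_nil (mem_cons (L2004 D T h) mem_nil) cw8854
theorem W8855 : WFK w8855 := fun D T h => wf_of_chk h mem_nil (mem_cons (L2004 D T h) mem_nil) cw8855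
theorem W8856 : WFK w8856 := fun D T h => wf_of_chk h (mem_cons (W2323 D T h) (mem_cons (W37 D T h) mem_nil)) mem_nil cw8856
theorem W8857 : WFK w8857 := fun D T h => wf_of_chk h mem_nil (mem_cons (L527 D T h) mem_nil) cw8857
theorem W8858 : WFK w8858 := fun D T h => wf_of_chk h (mem_cons (W16 D T h) (mem_cons (W667 D T h) mem_nil)) mem_nil cw8858
theorem L2005 : LFK l2005 := fun D T h => lf_of_chk h (mem_cons (W8608 D T h) (mem_cons (W177 D T h) (mem_cons (W804 D T h) (mem_cons (W37 D T h) (mem_cons (W1408 D T h) (mem_cons (W7130 D T h) (mem_cons (W7129 D T h) (mem_cons (W8858 D T h) (mem_cons (W1502 D T h) (mem_cons (W2326 D T h) (mem_cons (W3395 D T h) (mem_cons (W284 D T h) (mem_cons (W2339 D T h) (mem_cons (W6469 D T h) (mem_cons (W8851 D T h) (mem_cons (W8852 D T h) (mem_cons (W8853 D T h) (mem_cons (W8854 D T h) (mem_cons (W8855 D T h) (mem_cons (W8856 D T h) (mem_cons (W2368 D T h) (mem_cons (W3766 D T h) (mem_cons (W8857 D T h) (mem_cons (W7117 D T h) (mem_cons (W7118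 D T h) (mem_cons (W7116 D T h) (mem_cons (W2370 D T h) (mem_cons (W2059 D T h) (mem_cons (W50 D T h) (mem_cons (W3013 D T h) (mem_cons (W6811 D T h) (mem_cons (W6552 D T h) mem_nil)))))))))))))))))))))))))))))))) cl2005
theorem W8859 : WFK w8859 := fun D T h => wf_of_chk h mem_nil (mem_cons (L2005 D T h) mem_nil) cw8859
theorem L2006 : LFK l2006 := fun D T h => lf_of_chk h (mem_cons (W16 D T h) (mem_cons (W1300 D T h) (mem_cons (W3878 D T h) (mem_cons (W42 D T h) (mem_cons (W2015 D T h) (mem_cons (W164 D T h) (mem_cons (W7212 D T h) (mem_cons (W2983 D T h) (mem_cons (W2984 D T h) (mem_cons (W2985 D T h) (mem_cons (W0 D T h) (mem_cons (W220 D T h) (mem_cons (W50 D T h) (mem_cons (W667 D T h) (mem_cons (W669 D T h) (mem_cons (W8502 D T h) (mem_cons (W8597 D T h) mem_nil))))))))))))))))) cl2006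
theorem W8860 : WFK w8860 := fun D T h => wf_of_chk h mem_nil (mem_cons (L2006 D T h) mem_nil) cw8860
theorem W8862 : WFK w8862 := fun D T h => wf_of_chk h (mem_cons (W281 D T h) mem_nil) mem_nil cw8862
theorem W8875 : WFK w8875 := fun D T h => wf_of_chk h (mem_cons (W16 D T h) (mem_cons (W2994 D T h) mem_nil)) mem_nil cw8875
theorem W8876 : WFK w8876 := fun D T h => wf_of_chk h mem_nil (mem_cons (L1832 D T h) mem_nil) cw8876
theorem W8877 : WFK w8877 := fun D T h => wf_of_chk h mem_nil (mem_cons (L672 D T h) mem_nil) cw8877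
theorem L2009 : LFK l2009 := fun D T h => lf_of_chk h (mem_cons (W4026 D T h) (mem_cons (W799 D T h) (mem_cons (W638 D T h) (mem_cons (W263 D T h) (mem_cons (W762 D T h) (mem_cons (W3345 D T h) (mem_cons (W140 D T h) (mem_cons (W1128 D T h) (mem_cons (W16 D T h) (mem_cons (W5841 D T h) (mem_cons (W5577 D T h) (mem_cons (W5581 D T h) (mem_cons (W8876 D T h) (mem_cons (W261 D T h) (mem_cons (W8877 D T h) (mem_cons (W2453 D T h) (mem_cons (W6931 D T h) (mem_cons (W2922 D T h) (mem_cons (W2866 D T h) mem_nil))))))))))))))))))) cl2009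
theorem W8878 : WFK w8878 := fun D T h => wf_of_chk h mem_nil (mem_cons (L2009 D T h) mem_nil) cw8878
theorem W8879 : WFK w8879 := fun D T h => wf_of_chk h (mem_cons (W16 D T h) (mem_cons (W3016 D T h) mem_nil)) mem_nil cw8879
theorem W8880 : WFK w8880 := fun D T h => wf_of_chk h mem_nil (mem_cons (L917 D T h) mem_nil) cw8880
theorem W8881 : WFK w8881 := fun D T h => wf_of_chk h (mem_cons (W3016 D T h) mem_nil) mem_nil cw8881
theorem W8882 : WFK w8882 := fun D T h => wf_of_chk h mem_nil (mem_cons (L335 D T h) mem_nil) cw8882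
theorem L2010 : LFK l2010 := fun D T h => lf_of_chk h (mem_cons (W267 D T h) (mem_cons (W1919 D T h) (mem_cons (W368 D T h) (mem_cons (W2357 D T h) (mem_cons (W3 D T h) (mem_cons (W652 D T h) (mem_cons (W262 D T h) (mem_cons (W2359 D T h) (mem_cons (W8881 D T h) (mem_cons (W865 D T h) (mem_cons (W256 D T h) (mem_cons (W255 D T h) (mem_cons (W1272 D T h) (mem_cons (W257 D T h) (mem_cons (W8882 D T h) (mem_cons (W263 D T h) (mem_cons (W281 D T h) (mem_cons (W390 D T h) mem_nil)))))))))))))))))) cl2010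
theorem W8883 : WFK w8883 := fun D T h => wf_of_chk h mem_nil (mem_cons (L2010 D T h) mem_nil) cw8883
theorem W8884 : WFK w8884 := fun D T h => wf_of_chk h (mem_cons (W128 D T h) (mem_cons (W3016 D T h) mem_nil)) mem_nil cw8884
theorem W8885 : WFK w8885 := fun D T h => wf_of_chk h (mem_cons (W1063 D T h) (mem_cons (W3016 D T h) mem_nil)) mem_nil cw8885
theorem W8886 : WFK w8886 := fun D T h => wf_of_chk h (mem_cons (W337 D T h) (mem_cons (W3016 D T h) mem_nil)) mem_nil cw8886
theorem W8887 : WFK w8887 := fun D T h => wf_of_chk h mem_nil (mem_cons (L498 D T h) mem_nil) cw8887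
theorem W8888 : WFK w8888 := fun D T h => wf_of_chk h mem_nil (mem_cons (L499 D T h) mem_nil) cw8888
theorem W8889 : WFK w8889 := fun D T h => wf_of_chk h (mem_cons (W1063 D T h) (mem_cons (W3016 D T h) mem_nil)) mem_nil cw8889
theorem W8890 : WFK w8890 := fun D T h => wf_of_chk h (mem_cons (W167 D T h) (mem_cons (W3016 D T h) mem_nil)) mem_nil cw8890
theorem W8891 : WFK w8891 := fun D T h => wf_of_chk h mem_nil (mem_cons (L309 D T h) mem_nil) cw8891
theorem W8892 : WFK w8892 := fun D T h => wf_of_chk h (mem_cons (W105 D T h) (mem_cons (W284 D T h) mem_nil)) mem_nil cw8892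
theorem W8893 : WFK w8893 := fun D T h => wf_of_chk h (mem_cons (W1106 D T h) (mem_cons (W16 D T h) mem_nil)) mem_nil cw8893
theorem W8894 : WFK w8894 := fun D T h => wf_of_chk h (mem_cons (W5029 D T h) (mem_cons (W16 D T h) mem_nil)) mem_nil cw8894
theorem W8895 : WFK w8895 := fun D T h => wf_of_chk h mem_nil (mem_cons (L157 D T h) mem_nil) cw8895
theorem W8896 : WFK w8896 := fun D T h => wf_of_chk h mem_nil (mem_cons (L280 D T h) mem_nil) cw8896
theorem W8897 : WFK w8897 := fun D T h => wf_of_chk h mem_nil (mem_cons (L1623 D T h) mem_nil) cw8897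
theorem W8898 : WFK w8898 := fun D T h => wf_of_chk h (mem_cons (W220 D T h) (mem_cons (W1226 D T h) mem_nil)) mem_nil cw8898
theorem W8899 : WFK w8899 := fun D T h => wf_of_chk h mem_nil (mem_cons (L1623 D T h) mem_nil) cw8899
theorem W8900 : WFK w8900 := fun D T h => wf_of_chk h mem_nil (mem_cons (L1623 D T h) mem_nil) cw8900
theorem W8901 : WFK w8901 := fun D T h => wf_of_chk h mem_nil (mem_cons (L729 D T h) mem_nil) cw8901
theorem L2011 : LFK l2011 := fun D T h => lf_of_chk h (mem_cons (W1502 D T h) (mem_cons (W495 D T h) (mem_cons (W497 D T h) (mem_cons (W1226 D T h) (mem_cons (W1227 D T h) (mem_cons (W16 D T h) (mem_cons (W8895 D T h) (mem_cons (W14 D T h) (mem_cons (W1233 D T h) (mem_cons (W8901 D T h) (mem_cons (W284 D T h) (mem_cons (W2934 D T h) (mem_cons (W1632 D T h) (mem_cons (W209 D T h) (mem_cons (W8896 D T h) (mem_cons (W24 D T h) (mem_cons (W8897 D T h) (mem_cons (W2289 D T h) (mem_cons (W8898 D T h) (mem_cons (W8899 D T h) (mem_cons (W8900 D T h) (mem_cons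 (W8894 D T h) (mem_cons (W42 D T h) (mem_cons (W3666 D T h) (mem_cons (W6498 D T h) (mem_cons (W2051 D T h) (mem_cons (W2049 D T h) (mem_cons (W2050 D T h) (mem_cons (W341 D T h) (mem_cons (W342 D T h) (mem_cons (W1362 D T h) (mem_cons (W164 D T h) (mem_cons (W358 D T h) (mem_cons (W1651 D T h) (mem_cons (W581 D T h) (mem_cons (W1326 D T h) (mem_cons (W1676 D T h) mem_nil))))))))))))))))))))))))))))))))))))) cl2011
theorem W8902 : WFK w8902 := fun D T h => wf_of_chk h mem_nil (mem_cons (L2011 D T h) mem_nil) cw8902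
theorem W8903 : WFK w8903 := fun D T h => wf_of_chk h mem_nil (mem_cons (L514 D T h) mem_nil) cw8903
theorem W8904 : WFK w8904 := fun D T h => wf_of_chk h mem_nil (mem_cons (L2011 D T h) mem_nil) cw8904
theorem W8905 : WFK w8905 := fun D T h => wf_of_chk h mem_nil (mem_cons (L730 D T h) mem_nil) cw8905
theorem L2012 : LFK l2012 := fun D T h => lf_of_chk h (mem_cons (W1502 D T h) (mem_cons (W177 D T h) (mem_cons (W50 D T h) (mem_cons (W16 D T h) (mem_cons (W6469 D T h) (mem_cons (W1408 D T h) (mem_cons (W8905 D T h) (mem_cons (W284 D T h) (mem_cons (W2934 D T h) (mem_cons (W1632 D T h) (mem_cons (W209 D T h) (mem_cons (W2052 D T h) (mem_cons (W24 D T h) (mem_cons (W2053 D T h) (mem_cons (W1523 D T h) (mem_cons (W2054 D T h) (mem_cons (W2055 D T h) (mem_cons (W5072 D T h) (mem_cons (W42 D T h) (mem_cons (W3666 D T h) (mem_cons (W6498 D T h) (mem_cons (W2051 D T h) (mem_cons (W2049 D T h) (mem_cons (W2050 D T h) (mem_cons (W341 D T h) (mem_cons (W342 D T h) (mem_cons (W358 D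 T h) (mem_cons (W1651 D T h) mem_nil)))))))))))))))))))))))))))) cl2012
theorem W8906 : WFK w8906 := fun D T h => wf_of_chk h mem_nil (mem_cons (L2012 D T h) mem_nil) cw8906
theorem L2013 : LFK l2013 := fun D T h => lf_of_chk h (mem_cons (W5259 D T h) (mem_cons (W2165 D T h) (mem_cons (W1502 D T h) (mem_cons (W2934 D T h) (mem_cons (W3016 D T h) (mem_cons (W4318 D T h) (mem_cons (W8878 D T h) (mem_cons (W8879 D T h) (mem_cons (W8880 D T h) (mem_cons (W8889 D T h) (mem_cons (W16 D T h) (mem_cons (W284 D T h) (mem_cons (W8890 D T h) (mem_cons (W50 D T h) (mem_cons (W8883 D T h) (mem_cons (W8884 D T h) (mem_cons (W5194 D T h) (mem_cons (W8885 D T h) (mem_cons (W3006 D T h) (mem_cons (W5633 D T h) (mem_cons (W8807 D T h) (mem_cons (W8886 D T h) (mem_cons (W8887 D T h) (mem_cons (W8888 D T h) (mem_cons (W352 D T h) (mem_cons (W8891 D T h) (mem_cons (W8892 D T h) (mem_cons (W8893 D T h) (mem_cons (W1690 D T h) (mem_cons (W2346 D T h) (mem_cons (W3543 D T h) (mem_cons (W8902 D T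 h) (mem_cons (W8903 D T h) (mem_cons (W8904 D T h) (mem_cons (W8906 D T h) (mem_cons (W1062 D T h) (mem_cons (W1061 D T h) mem_nil))))))))))))))))))))))))))))))))))))) cl2013
theorem W8907 : WFK w8907 := fun D T h => wf_of_chk h mem_nil (mem_cons (L2013 D T h) mem_nil) cw8907
theorem W8908 : WFK w8908 := fun D T h => wf_of_chk h mem_nil (mem_cons (L1832 D T h) mem_nil) cw8908
theorem W8909 : WFK w8909 := fun D T h => wf_of_chk h (mem_cons (W158 D T h) (mem_cons (W2994 D T h) mem_nil)) mem_nil cw8909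
theorem W8910 : WFK w8910 := fun D T h => wf_of_chk h (mem_cons (W161 D T h) (mem_cons (W2994 D T h) mem_nil)) mem_nil cw8910
theorem W8911 : WFK w8911 := fun D T h => wf_of_chk h mem_nil (mem_cons (L1311 D T h) mem_nil) cw8911
theorem W8912 : WFK w8912 := fun D T h => wf_of_chk h mem_nil (mem_cons (L1579 D T h) mem_nil) cw8912
theorem L2014 : LFK l2014 := fun D T h => lf_of_chk h (mem_cons (W6758 D T h) (mem_cons (W16 D T h) (mem_cons (W2015 D T h) (mem_cons (W42 D T h) (mem_cons (W7114 D T h) (mem_cons (W8912 D T h) (mem_cons (W7720 D T h) (mem_cons (W5633 D T h) (mem_cons (W2037 D T h) (mem_cons (W8911 D T h) (mem_cons (W15 D T h) (mem_cons (W3193 D T h) (mem_cons (W6968 D T h) (mem_cons (W1192 D T h) (mem_cons (W3766 D T h) (mem_cons (W2378 D T h) (mem_cons (W281 D T h) (mem_cons (W1690 D T h) (mem_cons (W8344 D T h) mem_nil))))))))))))))))))) cl2014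
theorem W8913 : WFK w8913 := fun D T h => wf_of_chk h mem_nil (mem_cons (L2014 D T h) mem_nil) cw8913
theorem L2015 : LFK l2015 := fun D T h => lf_of_chk h (mem_cons (W4038 D T h) (mem_cons (W1357 D T h) (mem_cons (W2994 D T h) (mem_cons (W795 D T h) (mem_cons (W6095 D T h) (mem_cons (W2365 D T h) (mem_cons (W1109 D T h) (mem_cons (W3274 D T h) (mem_cons (W3276 D T h) (mem_cons (W8910 D T h) (mem_cons (W1125 D T h) (mem_cons (W8913 D T h) (mem_cons (W1070 D T h) (mem_cons (W8908 D T h) (mem_cons (W8909 D T h) (mem_cons (W4632 D T h) mem_nil)))))))))))))))) cl2015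
theorem W8914 : WFK w8914 := fun D T h => wf_of_chk h mem_nil (mem_cons (L2015 D T h) mem_nil) cw8914
theorem W8915 : WFK w8915 := fun D T h => wf_of_chk h (mem_cons (W220 D T h) (mem_cons (W2994 D T h) mem_nil)) mem_nil cw8915
theorem W8916 : WFK w8916 := fun D T h => wf_of_chk h mem_nil (mem_cons (L1283 D T h) mem_nil) cw8916
theorem L2016 : LFK l2016 := fun D T h => lf_of_chk h (mem_cons (W6758 D T h) (mem_cons (W16 D T h) (mem_cons (W2015 D T h) (mem_cons (W42 D T h) (mem_cons (W7114 D T h) (mem_cons (W8912 D T h) (mem_cons (W7720 D T h) (mem_cons (W5633 D T h) (mem_cons (W2037 D T h) (mem_cons (W8916 D T h) (mem_cons (W15 D T h) (mem_cons (W3193 D T h) (mem_cons (W6968 D T h) (mem_cons (W1192 D T h) (mem_cons (W3766 D T h) (mem_cons (W2378 D T h) (mem_cons (W1690 D T h) (mem_cons (W8344 D T h) mem_nil)))))))))))))))))) cl2016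
theorem W8919 : WFK w8919 := fun D T h => wf_of_chk h mem_nil (mem_cons (L2016 D T h) mem_nil) cw8919
theorem L2017 : LFK l2017 := fun D T h => lf_of_chk h (mem_cons (W819 D T h) (mem_cons (W61 D T h) (mem_cons (W22 D T h) (mem_cons (W125 D T h) (mem_cons (W39 D T h) (mem_cons (W1087 D T h) (mem_cons (W3593 D T h) (mem_cons (W1092 D T h) (mem_cons (W1072 D T h) (mem_cons (W5523 D T h) (mem_cons (W1098 D T h) (mem_cons (W1099 D T h) (mem_cons (W888 D T h) (mem_cons (W1100 D T h) mem_nil)))))))))))))) cl2017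
theorem W8921 : WFK w8921 := fun D T h => wf_of_chk h (mem_cons (W50 D T h) (mem_cons (W2994 D T h) mem_nil)) mem_nil cw8921
theorem W8922 : WFK w8922 := fun D T h => wf_of_chk h (mem_cons (W667 D T h) (mem_cons (W2994 D T h) mem_nil)) mem_nil cw8922
theorem W8923 : WFK w8923 := fun D T h => wf_of_chk h (mem_cons (W50 D T h) (mem_cons (W2994 D T h) mem_nil)) mem_nil cw8923
theorem W8924 : WFK w8924 := fun D T h => wf_of_chk h mem_nil (mem_cons (L2015 D T h) mem_nil) cw8924
theorem W8925 : WFK w8925 := fun D T h => wf_of_chk h (mem_cons (W162 D T h) (mem_cons (W2994 D T h) mem_nil)) mem_nil cw8925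
theorem W8926 : WFK w8926 := fun D T h => wf_of_chk h (mem_cons (W69 D T h) (mem_cons (W726 D T h) mem_nil)) mem_nil cw8926
theorem W8927 : WFK w8927 := fun D T h => wf_of_chk h (mem_cons (W69 D T h) (mem_cons (W726 D T h) mem_nil)) mem_nil cw8927
theorem W8928 : WFK w8928 := fun D T h => wf_of_chk h (mem_cons (W105 D T h) (mem_cons (W726 D T h) mem_nil)) mem_nil cw8928
theorem W8929 : WFK w8929 := fun D T h => wf_of_chk h (mem_cons (W519 D T h) (mem_cons (W726 D T h) mem_nil)) mem_nil cw8929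
theorem W8930 : WFK w8930 := fun D T h => wf_of_chk h mem_nil (mem_cons (L1785 D T h) mem_nil) cw8930
theorem W8931 : WFK w8931 := fun D T h => wf_of_chk h (mem_cons (W230 D T h) (mem_cons (W726 D T h) mem_nil)) mem_nil cw8931
theorem W8932 : WFK w8932 := fun D T h => wf_of_chk h (mem_cons (W763 D T h) (mem_cons (W16 D T h) mem_nil)) mem_nil cw8932
theorem W8933 : WFK w8933 := fun D T h => wf_of_chk h (mem_cons (W763 D T h) (mem_cons (W16 D T h) mem_nil)) mem_nil cw8933
theorem W8934 : WFK w8934 := fun D T h => wf_of_chk h (mem_cons (W83 D T h) (mem_cons (W726 D T h) mem_nil)) mem_nil cw8934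
theorem W8935 : WFK w8935 := fun D T h => wf_of_chk h (mem_cons (W241 D T h) (mem_cons (W726 D T h) mem_nil)) mem_nil cw8935
theorem L2018 : LFK l2018 := fun D T h => lf_of_chk h (mem_cons (W6073 D T h) (mem_cons (W1065 D T h) (mem_cons (W536 D T h) (mem_cons (W537 D T h) (mem_cons (W726 D T h) (mem_cons (W144 D T h) (mem_cons (W8932 D T h) (mem_cons (W2800 D T h) (mem_cons (W8933 D T h) (mem_cons (W8935 D T h) (mem_cons (W3356 D T h) (mem_cons (W8931 D T h) (mem_cons (W16 D T h) (mem_cons (W1501 D T h) (mem_cons (W8926 D T h) (mem_cons (W8927 D T h) (mem_cons (W8934 D T h) (mem_cons (W2015 D T h) (mem_cons (W2037 D T h) (mem_cons (W531 D T h) (mem_cons (W2439 D T h) (mem_cons (W533 D T h) (mem_cons (W4632 D T h) (mem_cons (W521 D T h) (mem_cons (W8928 D T h) (mem_cons (W8929 D T h) (mem_cons (W5952 D T h) (mem_cons (W8930 D T h) (mem_cons (W128 D T h) (mem_cons (W526 D T h) (mem_cons (W3019 D T h) (mem_cons (W540 D T h) (mem_cons (W6232 D T h) (mem_cons (W362 D T h) (mem_cons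 (W4829 D T h) (mem_cons (W542 D T h) (mem_cons (W543 D T h) (mem_cons (W544 D T h) (mem_cons (W547 D T h) (mem_cons (W551 D T h) (mem_cons (W552 D T h) (mem_cons (W553 D T h) mem_nil)))))))))))))))))))))))))))))))))))))))))) cl2018
theorem W8936 : WFK w8936 := fun D T h => wf_of_chk h mem_nil (mem_cons (L2018 D T h) mem_nil) cw8936
theorem W8937 : WFK w8937 := fun D T h => wf_of_chk h (mem_cons (W220 D T h) (mem_cons (W726 D T h) mem_nil)) mem_nil cw8937
theorem W8938 : WFK w8938 := fun D T h => wf_of_chk h mem_nil (mem_cons (L849 D T h) mem_nil) cw8938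
theorem W8939 : WFK w8939 := fun D T h => wf_of_chk h (mem_cons (W667 D T h) (mem_cons (W726 D T h) mem_nil)) mem_nil cw8939
theorem W8940 : WFK w8940 := fun D T h => wf_of_chk h (mem_cons (W669 D T h) (mem_cons (W726 D T h) mem_nil)) mem_nil cw8940
theorem W8941 : WFK w8941 := fun D T h => wf_of_chk h mem_nil (mem_cons (L2018 D T h) mem_nil) cw8941
theorem W8942 : WFK w8942 := fun D T h => wf_of_chk h (mem_cons (W181 D T h) (mem_cons (W177 D T h) mem_nil)) mem_nil cw8942
theorem W8943 : WFK w8943 := fun D T h => wf_of_chk h mem_nil (mem_cons (L1822 D T h) mem_nil) cw8943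
theorem W8944 : WFK w8944 := fun D T h => wf_of_chk h (mem_cons (W126 D T h) (mem_cons (W16 D T h) mem_nil)) mem_nil cw8944
theorem L2019 : LFK l2019 := fun D T h => lf_of_chk h (mem_cons (W2046 D T h) (mem_cons (W177 D T h) (mem_cons (W726 D T h) (mem_cons (W16 D T h) (mem_cons (W3035 D T h) (mem_cons (W3677 D T h) (mem_cons (W3621 D T h) (mem_cons (W2015 D T h) (mem_cons (W2037 D T h) (mem_cons (W8943 D T h) (mem_cons (W8783 D T h) (mem_cons (W3671 D T h) (mem_cons (W83 D T h) (mem_cons (W1501 D T h) (mem_cons (W8936 D T h) (mem_cons (W128 D T h) (mem_cons (W8937 D T h) (mem_cons (W7698 D T h) (mem_cons (W8938 D T h) (mem_cons (W8939 D T h) (mem_cons (W8940 D T h) (mem_cons (W8941 D T h) (mem_cons (W1051 D T h) (mem_cons (W8942 D T h) (mem_cons (W2517 D T h) (mem_cons (W3237 D T h) (mem_cons (W184 D T h) (mem_cons (W535 D T h) (mem_cons (W537 D T h) (mem_cons (W3744 D T h) (mem_cons (W178 D T h) (mem_cons (W179 D T h) (mem_cons (W366 D T h) (mem_cons (W8944 D T h) (mem_cons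 (W367 D T h) (mem_cons (W5072 D T h) (mem_cons (W2265 D T h) (mem_cons (W721 D T h) (mem_cons (W2378 D T h) (mem_cons (W1144 D T h) (mem_cons (W2284 D T h) (mem_cons (W385 D T h) (mem_cons (W8894 D T h) mem_nil))))))))))))))))))))))))))))))))))))))))))) cl2019
theorem W8945 : WFK w8945 := fun D T h => wf_of_chk h mem_nil (mem_cons (L2019 D T h) mem_nil) cw8945
theorem W8946 : WFK w8946 := fun D T h => wf_of_chk h (mem_cons (W8945 D T h) (mem_cons (W16 D T h) mem_nil)) mem_nil cw8946
theorem W8947 : WFK w8947 := fun D T h => wf_of_chk h mem_nil (mem_cons (L1547 D T h) mem_nil) cw8947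
theorem W8948 : WFK w8948 := fun D T h => wf_of_chk h mem_nil (mem_cons (L2011 D T h) mem_nil) cw8948
theorem W8949 : WFK w8949 := fun D T h => wf_of_chk h (mem_cons (W8948 D T h) (mem_cons (W16 D T h) mem_nil)) mem_nil cw8949
theorem W8950 : WFK w8950 := fun D T h => wf_of_chk h (mem_cons (W2159 D T h) (mem_cons (W16 D T h) mem_nil)) mem_nil cw8950
theorem W8951 : WFK w8951 := fun D T h => wf_of_chk h (mem_cons (W8445 D T h) (mem_cons (W16 D T h) mem_nil)) mem_nil cw8951
theorem W8952 : WFK w8952 := fun D T h => wf_of_chk h (mem_cons (W3523 D T h) (mem_cons (W16 D T h) mem_nil)) mem_nil cw8952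
theorem L2020 : LFK l2020 := fun D T h => lf_of_chk h (mem_cons (W8875 D T h) (mem_cons (W5721 D T h) (mem_cons (W3013 D T h) (mem_cons (W6956 D T h) (mem_cons (W5197 D T h) (mem_cons (W6439 D T h) (mem_cons (W8952 D T h) (mem_cons (W8946 D T h) (mem_cons (W2037 D T h) (mem_cons (W8947 D T h) (mem_cons (W8949 D T h) (mem_cons (W8950 D T h) (mem_cons (W8951 D T h) (mem_cons (W2994 D T h) (mem_cons (W6806 D T h) (mem_cons (W8924 D T h) (mem_cons (W2015 D T h) (mem_cons (W8925 D T h) (mem_cons (W2709 D T h) (mem_cons (W8907 D T h) (mem_cons (W1357 D T h) (mem_cons (W8914 D T h) (mem_cons (W128 D T h) (mem_cons (W8915 D T h) (mem_cons (W8921 D T h) (mem_cons (W8922 D T h) (mem_cons (W8923 D T h) mem_nil))))))))))))))))))))))))))) cl2020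
theorem W8953 : WFK w8953 := fun D T h => wf_of_chk h mem_nil (mem_cons (L2020 D T h) mem_nil) cw8953
theorem L2021 : LFK l2021 := fun D T h => lf_of_chk h (mem_cons (W831 D T h) mem_nil) cl2021
theorem L2022 : LFK l2022 := fun D T h => lf_of_chk h (mem_cons (W3284 D T h) (mem_cons (W164 D T h) (mem_cons (W32 D T h) (mem_cons (W39 D T h) (mem_cons (W63 D T h) (mem_cons (W38 D T h) (mem_cons (W3 D T h) (mem_cons (W220 D T h) (mem_cons (W1412 D T h) (mem_cons (W2902 D T h) (mem_cons (W1139 D T h) (mem_cons (W5441 D T h) (mem_cons (W41 D T h) (mem_cons (W5837 D T h) (mem_cons (W28 D T h) (mem_cons (W44 D T h) (mem_cons (W46 D T h) (mem_cons (W2007 D T h) (mem_cons (W47 D T h) mem_nil))))))))))))))))))) cl2022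
theorem W8971 : WFK w8971 := fun D T h => wf_of_chk h mem_nil (mem_cons (L2022 D T h) mem_nil) cw8971
theorem L2023 : LFK l2023 := fun D T h => lf_of_chk h (mem_cons (W5633 D T h) (mem_cons (W16 D T h) (mem_cons (W42 D T h) (mem_cons (W803 D T h) (mem_cons (W8424 D T h) (mem_cons (W3766 D T h) (mem_cons (W5673 D T h) (mem_cons (W5585 D T h) (mem_cons (W5655 D T h) (mem_cons (W1690 D T h) (mem_cons (W2892 D T h) mem_nil))))))))))) cl2023
theorem W8977 : WFK w8977 := fun D T h => wf_of_chk h mem_nil (mem_cons (L2023 D T h) mem_nil) cw8977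
theorem W8979 : WFK w8979 := fun D T h => wf_of_chk h (mem_cons (W3766 D T h) mem_nil) mem_nil cw8979
theorem W8980 : WFK w8980 := fun D T h => wf_of_chk h mem_nil (mem_cons (L342 D T h) mem_nil) cw8980
theorem W8981 : WFK w8981 := fun D T h => wf_of_chk h mem_nil (mem_cons (L1599 D T h) mem_nil) cw8981
theorem W8982 : WFK w8982 := fun D T h => wf_of_chk h mem_nil (mem_cons (L1608 D T h) mem_nil) cw8982
theorem W8983 : WFK w8983 := fun D T h => wf_of_chk h mem_nil (mem_cons (L187 D T h) mem_nil) cw8983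
theorem W8984 : WFK w8984 := fun D T h => wf_of_chk h mem_nil (mem_cons (L637 D T h) mem_nil) cw8984
theorem L2024 : LFK l2024 := fun D T h => lf_of_chk h (mem_cons (W154 D T h) mem_nil) cl2024
theorem W8985 : WFK w8985 := fun D T h => wf_of_chk h mem_nil (mem_cons (L2024 D T h) mem_nil) cw8985
theorem W8986 : WFK w8986 := fun D T h => wf_of_chk h mem_nil (mem_cons (L1550 D T h) mem_nil) cw8986
theorem W8987 : WFK w8987 := fun D T h => wf_of_chk h mem_nil (mem_cons (L1599 D T h) mem_nil) cw8987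
theorem L2025 : LFK l2025 := fun D T h => lf_of_chk h (mem_cons (W8981 D T h) (mem_cons (W3 D T h) (mem_cons (W1564 D T h) (mem_cons (W8983 D T h) (mem_cons (W1554 D T h) (mem_cons (W8984 D T h) (mem_cons (W8985 D T h) (mem_cons (W6584 D T h) (mem_cons (W6582 D T h) (mem_cons (W8986 D T h) (mem_cons (W15 D T h) (mem_cons (W2002 D T h) (mem_cons (W1330 D T h) (mem_cons (W870 D T h) (mem_cons (W8982 D T h) (mem_cons (W8987 D T h) (mem_cons (W1471 D T h) (mem_cons (W751 D T h) mem_nil)))))))))))))))))) cl2025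
theorem W8988 : WFK w8988 := fun D T h => wf_of_chk h mem_nil (mem_cons (L2025 D T h) mem_nil) cw8988
theorem W8989 : WFK w8989 := fun D T h => wf_of_chk h mem_nil (mem_cons (L342 D T h) mem_nil) cw8989
theorem W8991 : WFK w8991 := fun D T h => wf_of_chk h mem_nil (mem_cons (L1460 D T h) mem_nil) cw8991
theorem L2026 : LFK l2026 := fun D T h => lf_of_chk h (mem_cons (W86 D T h) (mem_cons (W6352 D T h) (mem_cons (W2214 D T h) (mem_cons (W67 D T h) (mem_cons (W8991 D T h) (mem_cons (W745 D T h) (mem_cons (W389 D T h) (mem_cons (W7723 D T h) (mem_cons (W740 D T h) (mem_cons (W7722 D T h) (mem_cons (W2213 D T h) (mem_cons (W8241 D T h) (mem_cons (W750 D T h) mem_nil))))))))))))) cl2026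
theorem W8992 : WFK w8992 := fun D T h => wf_of_chk h mem_nil (mem_cons (L2026 D T h) mem_nil) cw8992
theorem L2027 : LFK l2027 := fun D T h => lf_of_chk h mem_nil cl2027
theorem W8993 : WFK w8993 := fun D T h => wf_of_chk h mem_nil (mem_cons (L2027 D T h) mem_nil) cw8993
theorem W8994 : WFK w8994 := fun D T h => wf_of_chk h mem_nil (mem_cons (L8 D T h) mem_nil) cw8994
theorem L2028 : LFK l2028 := fun D T h => lf_of_chk h (mem_cons (W86 D T h) (mem_cons (W281 D T h) (mem_cons (W8994 D T h) (mem_cons (W67 D T h) (mem_cons (W8993 D T h) (mem_cons (W389 D T h) (mem_cons (W745 D T h) (mem_cons (W7723 D T h) (mem_cons (W740 D T h) (mem_cons (W7722 D T h) (mem_cons (W2213 D T h) (mem_cons (W8241 D T h) (mem_cons (W652 D T h) mem_nil))))))))))))) cl2028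
theorem W8995 : WFK w8995 := fun D T h => wf_of_chk h mem_nil (mem_cons (L2028 D T h) mem_nil) cw8995
theorem L2029 : LFK l2029 := fun D T h => lf_of_chk h (mem_cons (W17 D T h) (mem_cons (W209 D T h) (mem_cons (W202 D T h) (mem_cons (W203 D T h) (mem_cons (W8992 D T h) (mem_cons (W8995 D T h) (mem_cons (W3 D T h) (mem_cons (W200 D T h) (mem_cons (W199 D T h) (mem_cons (W201 D T h) mem_nil)))))))))) cl2029
theorem W8996 : WFK w8996 := fun D T h => wf_of_chk h mem_nil (mem_cons (L2029 D T h) mem_nil) cw8996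
theorem W8997 : WFK w8997 := fun D T h => wf_of_chk h mem_nil (mem_cons (L2029 D T h) mem_nil) cw8997
theorem W8998 : WFK w8998 := fun D T h => wf_of_chk h mem_nil (mem_cons (L2029 D T h) mem_nil) cw8998
theorem L2030 : LFK l2030 := fun D T h => lf_of_chk h (mem_cons (W1408 D T h) (mem_cons (W17 D T h) (mem_cons (W16 D T h) (mem_cons (W2930 D T h) (mem_cons (W209 D T h) (mem_cons (W8996 D T h) (mem_cons (W8997 D T h) (mem_cons (W24 D T h) (mem_cons (W8998 D T h) (mem_cons (W3035 D T h) (mem_cons (W3 D T h) (mem_cons (W1448 D T h) (mem_cons (W1449 D T h) mem_nil))))))))))))) cl2030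
theorem W9005 : WFK w9005 := fun D T h => wf_of_chk h mem_nil (mem_cons (L1832 D T h) mem_nil) cw9005
theorem W9025 : WFK w9025 := fun D T h => wf_of_chk h mem_nil (mem_cons (L1547 D T h) mem_nil) cw9025
theorem W9031 : WFK w9031 := fun D T h => wf_of_chk h (mem_cons (W15 D T h) mem_nil) mem_nil cw9031
theorem W9043 : WFK w9043 := fun D T h => wf_of_chk h mem_nil (mem_cons (L1542 D T h) mem_nil) cw9043
theorem W9044 : WFK w9044 := fun D T h => wf_of_chk h (mem_cons (W16 D T h) mem_nil) mem_nil cw9044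
theorem W9051 : WFK w9051 := fun D T h => wf_of_chk h (mem_cons (W17 D T h) mem_nil) mem_nil cw9051
theorem W9056 : WFK w9056 := fun D T h => wf_of_chk h mem_nil (mem_cons (L1503 D T h) mem_nil) cw9056
theorem W9066 : WFK w9066 := fun D T h => wf_of_chk h (mem_cons (W284 D T h) mem_nil) mem_nil cw9066
theorem W9070 : WFK w9070 := fun D T h => wf_of_chk h mem_nil mem_nil cw9070
theorem W9075 : WFK w9075 := fun D T h => wf_of_chk h mem_nil (mem_cons (L180 D T h) mem_nil) cw9075
theorem W9076 : WFK w9076 := fun D T h => wf_of_chk h mem_nil (mem_cons (L25 D T h) mem_nil) cw9076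
theorem W9081 : WFK w9081 := fun D T h => wf_of_chk h mem_nil (mem_cons (L862 D T h) mem_nil) cw9081
theorem W9100 : WFK w9100 := fun D T h => wf_of_chk h (mem_cons (W67 D T h) mem_nil) mem_nil cw9100
theorem W9119 : WFK w9119 := fun D T h => wf_of_chk h mem_nil mem_nil cw9119
theorem W9123 : WFK w9123 := fun D T h => wf_of_chk h mem_nil (mem_cons (L1317 D T h) mem_nil) cw9123
theorem W9125 : WFK w9125 := fun D T h => wf_of_chk h mem_nil (mem_cons (L1008 D T h) mem_nil) cw9125
theorem L2051 : LFK l2051 := fun D T h => lf_of_chk h (mem_cons (W915 D T h) (mem_cons (W1249 D T h) (mem_cons (W891 D T h) (mem_cons (W802 D T h) (mem_cons (W210 D T h) (mem_cons (W4495 D T h) (mem_cons (W4489 D T h) (mem_cons (W914 D T h) (mem_cons (W3343 D T h) (mem_cons (W431 D T h) mem_nil)))))))))) cl2051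
theorem L2055 : LFK l2055 := fun D T h => lf_of_chk h (mem_cons (W4037 D T h) mem_nil) cl2055
theorem W9143 : WFK w9143 := fun D T h => wf_of_chk h mem_nil (mem_cons (L2055 D T h) mem_nil) cw9143
theorem W9146 : WFK w9146 := fun D T h => wf_of_chk h mem_nil (mem_cons (L164 D T h) mem_nil) cw9146
theorem L2057 : LFK l2057 := fun D T h => lf_of_chk h mem_nil cl2057
theorem W9151 : WFK w9151 := fun D T h => wf_of_chk h mem_nil (mem_cons (L2055 D T h) mem_nil) cw9151
theorem W9166 : WFK w9166 := fun D T h => wf_of_chk h mem_nil (mem_cons (L8 D T h) mem_nil) cw9166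
theorem W9182 : WFK w9182 := fun D T h => wf_of_chk h mem_nil (mem_cons (L261 D T h) mem_nil) cw9182
theorem L2067 : LFK l2067 := fun D T h => lf_of_chk h (mem_cons (W1400 D T h) (mem_cons (W4 D T h) (mem_cons (W11 D T h) (mem_cons (W4460 D T h) (mem_cons (W8 D T h) (mem_cons (W840 D T h) (mem_cons (W3762 D T h) (mem_cons (W4470 D T h) (mem_cons (W861 D T h) (mem_cons (W4471 D T h) (mem_cons (W918 D T h) (mem_cons (W860 D T h) mem_nil)))))))))))) cl2067
theorem W9193 : WFK w9193 := fun D T h => wf_of_chk h mem_nil (mem_cons (L778 D T h) mem_nil) cw9193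
theorem W9194 : WFK w9194 := fun D T h => wf_of_chk h (mem_cons (W429 D T h) mem_nil) mem_nil cw9194
theorem W9195 : WFK w9195 := fun D T h => wf_of_chk h mem_nil (mem_cons (L85 D T h) mem_nil) cw9195
theorem L2068 : LFK l2068 := fun D T h => lf_of_chk h (mem_cons (W1330 D T h) (mem_cons (W15 D T h) (mem_cons (W7 D T h) (mem_cons (W248 D T h) (mem_cons (W7640 D T h) (mem_cons (W141 D T h) (mem_cons (W1707 D T h) (mem_cons (W9193 D T h) (mem_cons (W9194 D T h) (mem_cons (W4618 D T h) (mem_cons (W9195 D T h) (mem_cons (W830 D T h) (mem_cons (W4735 D T h) (mem_cons (W3684 D T h) (mem_cons (W2922 D T h) (mem_cons (W1132 D T h) mem_nil)))))))))))))))) cl2068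
theorem L2069 : LFK l2069 := fun D T h => lf_of_chk h (mem_cons (W1330 D T h) (mem_cons (W15 D T h) (mem_cons (W4 D T h) (mem_cons (W33 D T h) (mem_cons (W858 D T h) (mem_cons (W141 D T h) (mem_cons (W4035 D T h) (mem_cons (W1367 D T h) (mem_cons (W4368 D T h) (mem_cons (W4369 D T h) (mem_cons (W569 D T h) (mem_cons (W830 D T h) (mem_cons (W4192 D T h) (mem_cons (W3684 D T h) (mem_cons (W2922 D T h) (mem_cons (W1132 D T h) mem_nil)))))))))))))))) cl2069
theorem W9198 : WFK w9198 := fun D T h => wf_of_chk h mem_nil (mem_cons (L632 D T h) mem_nil) cw9198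
theorem L2072 : LFK l2072 := fun D T h => lf_of_chk h (mem_cons (W261 D T h) (mem_cons (W170 D T h) (mem_cons (W15 D T h) (mem_cons (W915 D T h) (mem_cons (W5157 D T h) (mem_cons (W1554 D T h) (mem_cons (W3193 D T h) (mem_cons (W5673 D T h) (mem_cons (W3195 D T h) (mem_cons (W219 D T h) mem_nil)))))))))) cl2072
theorem W9206 : WFK w9206 := fun D T h => wf_of_chk h mem_nil (mem_cons (L2072 D T h) mem_nil) cw9206
theorem W9249 : WFK w9249 := fun D T h => wf_of_chk h mem_nil (mem_cons (L346 D T h) mem_nil) cw9249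
theorem L2082 : LFK l2082 := fun D T h => lf_of_chk h (mem_cons (W1171 D T h) (mem_cons (W181 D T h) (mem_cons (W183 D T h) (mem_cons (W1178 D T h) (mem_cons (W675 D T h) (mem_cons (W1179 D T h) (mem_cons (W141 D T h) (mem_cons (W140 D T h) (mem_cons (W1180 D T h) (mem_cons (W67 D T h) (mem_cons (W143 D T h) (mem_cons (W1919 D T h) mem_nil)))))))))))) cl2082
theorem W9256 : WFK w9256 := fun D T h => wf_of_chk h mem_nil (mem_cons (L2082 D T h) mem_nil) cw9256
theorem L2083 : LFK l2083 := fun D T h => lf_of_chk h (mem_cons (W1919 D T h) (mem_cons (W67 D T h) (mem_cons (W86 D T h) (mem_cons (W1461 D T h) (mem_cons (W1173 D T h) (mem_cons (W675 D T h) (mem_cons (W3274 D T h) (mem_cons (W141 D T h) (mem_cons (W140 D T h) (mem_cons (W1675 D T h) (mem_cons (W7775 D T h) (mem_cons (W7152 D T h) mem_nil)))))))))))) cl2083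
theorem W9257 : WFK w9257 := fun D T h => wf_of_chk h mem_nil (mem_cons (L2083 D T h) mem_nil) cw9257
theorem W9277 : WFK w9277 := fun D T h => wf_of_chk h mem_nil (mem_cons (L1609 D T h) mem_nil) cw9277
theorem L2095 : LFK l2095 := fun D T h => lf_of_chk h (mem_cons (W3024 D T h) (mem_cons (W33 D T h) (mem_cons (W149 D T h) (mem_cons (W1928 D T h) (mem_cons (W1379 D T h) (mem_cons (W1714 D T h) mem_nil)))))) cl2095
theorem W9311 : WFK w9311 := fun D T h => wf_of_chk h mem_nil (mem_cons (L2095 D T h) mem_nil) cw9311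
theorem W9320 : WFK w9320 := fun D T h => wf_of_chk h mem_nil (mem_cons (L413 D T h) mem_nil) cw9320
theorem W9324 : WFK w9324 := fun D T h => wf_of_chk h mem_nil mem_nil cw9324
theorem W9334 : WFK w9334 := fun D T h => wf_of_chk h mem_nil (mem_cons (L1887 D T h) mem_nil) cw9334
theorem W9336 : WFK w9336 := fun D T h => wf_of_chk h mem_nil (mem_cons (L1253 D T h) mem_nil) cw9336
theorem W9351 : WFK w9351 := fun D T h => wf_of_chk h (mem_cons (W42 D T h) mem_nil) mem_nil cw9351
theorem W9356 : WFK w9356 := fun D T h => wf_of_chk h mem_nil (mem_cons (L359 D T h) mem_nil) cw9356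
theorem W9360 : WFK w9360 := fun D T h => wf_of_chk h mem_nil (mem_cons (L18 D T h) mem_nil) cw9360
theorem L2105 : LFK l2105 := fun D T h => lf_of_chk h (mem_cons (W9356 D T h) (mem_cons (W832 D T h) (mem_cons (W861 D T h) (mem_cons (W5606 D T h) (mem_cons (W9360 D T h) mem_nil))))) cl2105
theorem W9366 : WFK w9366 := fun D T h => wf_of_chk h mem_nil (mem_cons (L430 D T h) mem_nil) cw9366
theorem W9376 : WFK w9376 := fun D T h => wf_of_chk h (mem_cons (W16 D T h) mem_nil) mem_nil cw9376
theorem W9380 : WFK w9380 := fun D T h => wf_of_chk h mem_nil (mem_cons (L804 D T h) mem_nil) cw9380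
theorem W9382 : WFK w9382 := fun D T h => wf_of_chk h mem_nil (mem_cons (L1735 D T h) mem_nil) cw9382
theorem W9384 : WFK w9384 := fun D T h => wf_of_chk h (mem_cons (W16 D T h) (mem_cons (W3531 D T h) mem_nil)) mem_nil cw9384
theorem W9386 : WFK w9386 := fun D T h => wf_of_chk h mem_nil (mem_cons (L447 D T h) mem_nil) cw9386
theorem W9393 : WFK w9393 := fun D T h => wf_of_chk h mem_nil (mem_cons (L1283 D T h) mem_nil) cw9393
theorem L2116 : LFK l2116 := fun D T h => lf_of_chk h (mem_cons (W7171 D T h) (mem_cons (W32 D T h) (mem_cons (W49 D T h) (mem_cons (W2047 D T h) mem_nil)))) cl2116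
theorem W9395 : WFK w9395 := fun D T h => wf_of_chk h mem_nil (mem_cons (L2116 D T h) mem_nil) cw9395
theorem W9404 : WFK w9404 := fun D T h => wf_of_chk h (mem_cons (W16 D T h) (mem_cons (W368 D T h) mem_nil)) mem_nil cw9404
theorem W9407 : WFK w9407 := fun D T h => wf_of_chk h mem_nil (mem_cons (L159 D T h) mem_nil) cw9407
theorem W9410 : WFK w9410 := fun D T h => wf_of_chk h mem_nil (mem_cons (L1393 D T h) mem_nil) cw9410
theorem W9411 : WFK w9411 := fun D T h => wf_of_chk h mem_nil (mem_cons (L1544 D T h) mem_nil) cw9411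
theorem W9412 : WFK w9412 := fun D T h => wf_of_chk h mem_nil (mem_cons (L1544 D T h) mem_nil) cw9412
theorem W9413 : WFK w9413 := fun D T h => wf_of_chk h mem_nil (mem_cons (L1544 D T h) mem_nil) cw9413
theorem W9431 : WFK w9431 := fun D T h => wf_of_chk h mem_nil (mem_cons (L1352 D T h) mem_nil) cw9431
theorem W9432 : WFK w9432 := fun D T h => wf_of_chk h mem_nil (mem_cons (L1056 D T h) mem_nil) cw9432
theorem W9439 : WFK w9439 := fun D T h => wf_of_chk h mem_nil (mem_cons (L2022 D T h) mem_nil) cw9439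
theorem W9443 : WFK w9443 := fun D T h => wf_of_chk h (mem_cons (W1502 D T h) (mem_cons (W284 D T h) mem_nil)) mem_nil cw9443
theorem W9447 : WFK w9447 := fun D T h => wf_of_chk h mem_nil (mem_cons (L1735 D T h) mem_nil) cw9447
theorem L2133 : LFK l2133 := fun D T h => lf_of_chk h (mem_cons (W1502 D T h) (mem_cons (W284 D T h) (mem_cons (W341 D T h) (mem_cons (W16 D T h) (mem_cons (W50 D T h) (mem_cons (W3335 D T h) (mem_cons (W4248 D T h) (mem_cons (W2055 D T h) (mem_cons (W9447 D T h) (mem_cons (W209 D T h) (mem_cons (W5072 D T h) (mem_cons (W6497 D T h) (mem_cons (W42 D T h) (mem_cons (W8660 D T h) (mem_cons (W1676 D T h) (mem_cons (W2219 D T h) mem_nil)))))))))))))))) cl2133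
theorem W9448 : WFK w9448 := fun D T h => wf_of_chk h mem_nil (mem_cons (L2133 D T h) mem_nil) cw9448
theorem W9449 : WFK w9449 := fun D T h => wf_of_chk h mem_nil (mem_cons (L2069 D T h) mem_nil) cw9449
theorem W9450 : WFK w9450 := fun D T h => wf_of_chk h mem_nil (mem_cons (L1212 D T h) mem_nil) cw9450
theorem L2134 : LFK l2134 := fun D T h => lf_of_chk h (mem_cons (W814 D T h) (mem_cons (W1101 D T h) (mem_cons (W224 D T h) (mem_cons (W9450 D T h) (mem_cons (W861 D T h) (mem_cons (W4323 D T h) (mem_cons (W4036 D T h) (mem_cons (W1739 D T h) (mem_cons (W91 D T h) (mem_cons (W4326 D T h) mem_nil)))))))))) cl2134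
theorem W9451 : WFK w9451 := fun D T h => wf_of_chk h mem_nil (mem_cons (L2134 D T h) mem_nil) cw9451
theorem L2135 : LFK l2135 := fun D T h => lf_of_chk h (mem_cons (W91 D T h) (mem_cons (W2204 D T h) (mem_cons (W8 D T h) (mem_cons (W8695 D T h) (mem_cons (W7171 D T h) (mem_cons (W3684 D T h) mem_nil)))))) cl2135
theorem W9452 : WFK w9452 := fun D T h => wf_of_chk h mem_nil (mem_cons (L2135 D T h) mem_nil) cw9452
theorem L2136 : LFK l2136 := fun D T h => lf_of_chk h (mem_cons (W1330 D T h) (mem_cons (W2922 D T h) (mem_cons (W638 D T h) (mem_cons (W6 D T h) (mem_cons (W812 D T h) (mem_cons (W4376 D T h) (mem_cons (W4036 D T h) (mem_cons (W142 D T h) (mem_cons (W4035 D T h) (mem_cons (W4368 D T h) (mem_cons (W4377 D T h) (mem_cons (W4369 D T h) (mem_cons (W569 D T h) (mem_cons (W4 D T h) (mem_cons (W33 D T h) (mem_cons (W632 D T h) (mem_cons (W1400 D T h) (mem_cons (W4192 D T h) (mem_cons (W3684 D T h) (mem_cons (W1132 D T h) mem_nil)))))))))))))))))))) cl2136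
theorem W9453 : WFK w9453 := fun D T h => wf_of_chk h mem_nil (mem_cons (L2136 D T h) mem_nil) cw9453
theorem W9454 : WFK w9454 := fun D T h => wf_of_chk h mem_nil (mem_cons (L479 D T h) mem_nil) cw9454
theorem L2137 : LFK l2137 := fun D T h => lf_of_chk h (mem_cons (W1330 D T h) (mem_cons (W2922 D T h) (mem_cons (W638 D T h) (mem_cons (W8 D T h) (mem_cons (W9454 D T h) (mem_cons (W4373 D T h) (mem_cons (W4036 D T h) (mem_cons (W142 D T h) (mem_cons (W4035 D T h) (mem_cons (W4368 D T h) (mem_cons (W4374 D T h) (mem_cons (W4369 D T h) (mem_cons (W569 D T h) (mem_cons (W4 D T h) (mem_cons (W33 D T h) (mem_cons (W830 D T h) (mem_cons (W4192 D T h) (mem_cons (W3684 D T h) (mem_cons (W1132 D T h) mem_nil))))))))))))))))))) cl2137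
theorem W9455 : WFK w9455 := fun D T h => wf_of_chk h mem_nil (mem_cons (L2137 D T h) mem_nil) cw9455
theorem L2138 : LFK l2138 := fun D T h => lf_of_chk h (mem_cons (W1330 D T h) (mem_cons (W2922 D T h) (mem_cons (W432 D T h) (mem_cons (W7 D T h) (mem_cons (W1072 D T h) (mem_cons (W1121 D T h) (mem_cons (W4036 D T h) (mem_cons (W142 D T h) (mem_cons (W4035 D T h) (mem_cons (W4368 D T h) (mem_cons (W4367 D T h) (mem_cons (W4369 D T h) (mem_cons (W569 D T h) (mem_cons (W4 D T h) (mem_cons (W33 D T h) (mem_cons (W830 D T h) (mem_cons (W4192 D T h) (mem_cons (W3684 D T h) (mem_cons (W1132 D T h) mem_nil))))))))))))))))))) cl2138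
theorem W9456 : WFK w9456 := fun D T h => wf_of_chk h mem_nil (mem_cons (L2138 D T h) mem_nil) cw9456
theorem L2139 : LFK l2139 := fun D T h => lf_of_chk h (mem_cons (W91 D T h) (mem_cons (W281 D T h) (mem_cons (W8 D T h) (mem_cons (W617 D T h) (mem_cons (W619 D T h) (mem_cons (W592 D T h) (mem_cons (W3153 D T h) (mem_cons (W265 D T h) (mem_cons (W817 D T h) (mem_cons (W878 D T h) mem_nil)))))))))) cl2139
theorem W9457 : WFK w9457 := fun D T h => wf_of_chk h mem_nil (mem_cons (L2139 D T h) mem_nil) cw9457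
theorem L2140 : LFK l2140 := fun D T h => lf_of_chk h (mem_cons (W91 D T h) (mem_cons (W8 D T h) (mem_cons (W617 D T h) (mem_cons (W619 D T h) (mem_cons (W7171 D T h) (mem_cons (W3153 D T h) (mem_cons (W878 D T h) (mem_cons (W817 D T h) (mem_cons (W265 D T h) (mem_cons (W685 D T h) mem_nil)))))))))) cl2140
theorem W9475 : WFK w9475 := fun D T h => wf_of_chk h mem_nil (mem_cons (L2137 D T h) mem_nil) cw9475
theorem W9478 : WFK w9478 := fun D T h => wf_of_chk h (mem_cons (W1326 D T h) mem_nil) mem_nil cw9478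
theorem L2150 : LFK l2150 := fun D T h => lf_of_chk h (mem_cons (W192 D T h) (mem_cons (W4072 D T h) (mem_cons (W4601 D T h) (mem_cons (W25 D T h) mem_nil)))) cl2150
theorem W9486 : WFK w9486 := fun D T h => wf_of_chk h mem_nil (mem_cons (L2150 D T h) mem_nil) cw9486
theorem L2158 : LFK l2158 := fun D T h => lf_of_chk h (mem_cons (W42 D T h) (mem_cons (W2015 D T h) (mem_cons (W3 D T h) (mem_cons (W39 D T h) (mem_cons (W642 D T h) (mem_cons (W5176 D T h) (mem_cons (W1631 D T h) (mem_cons (W1535 D T h) (mem_cons (W1554 D T h) (mem_cons (W581 D T h) (mem_cons (W1325 D T h) (mem_cons (W1326 D T h) (mem_cons (W259 D T h) (mem_cons (W721 D T h) (mem_cons (W431 D T h) (mem_cons (W267 D T h) (mem_cons (W722 D T h) (mem_cons (W6756 D T h) mem_nil)))))))))))))))))) cl2158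
theorem W9505 : WFK w9505 := fun D T h => wf_of_chk h mem_nil (mem_cons (L2158 D T h) mem_nil) cw9505
theorem L2163 : LFK l2163 := fun D T h => lf_of_chk h (mem_cons (W3766 D T h) (mem_cons (W8138 D T h) (mem_cons (W1408 D T h) (mem_cons (W3 D T h) (mem_cons (W461 D T h) (mem_cons (W39 D T h) (mem_cons (W42 D T h) (mem_cons (W2354 D T h) (mem_cons (W1 D T h) (mem_cons (W1554 D T h) (mem_cons (W1325 D T h) (mem_cons (W581 D T h) (mem_cons (W1326 D T h) (mem_cons (W181 D T h) mem_nil)))))))))))))) cl2163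
theorem W9538 : WFK w9538 := fun D T h => wf_of_chk h mem_nil (mem_cons (L338 D T h) mem_nil) cw9538
theorem W9545 : WFK w9545 := fun D T h => wf_of_chk h (mem_cons (W722 D T h) mem_nil) mem_nil cw9545
theorem W9548 : WFK w9548 := fun D T h => wf_of_chk h (mem_cons (W267 D T h) mem_nil) mem_nil cw9548
theorem W9551 : WFK w9551 := fun D T h => wf_of_chk h mem_nil (mem_cons (L1283 D T h) mem_nil) cw9551
theorem W9557 : WFK w9557 := fun D T h => wf_of_chk h (mem_cons (W1120 D T h) mem_nil) mem_nil cw9557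
theorem W9559 : WFK w9559 := fun D T h => wf_of_chk h mem_nil (mem_cons (L482 D T h) mem_nil) cw9559
theorem W9560 : WFK w9560 := fun D T h => wf_of_chk h (mem_cons (W1379 D T h) mem_nil) mem_nil cw9560
theorem L2170 : LFK l2170 := fun D T h => lf_of_chk h (mem_cons (W1330 D T h) (mem_cons (W2922 D T h) (mem_cons (W638 D T h) (mem_cons (W1854 D T h) (mem_cons (W9559 D T h) (mem_cons (W9560 D T h) (mem_cons (W5660 D T h) (mem_cons (W4050 D T h) (mem_cons (W9056 D T h) (mem_cons (W5657 D T h) (mem_cons (W5658 D T h) (mem_cons (W4618 D T h) (mem_cons (W5659 D T h) (mem_cons (W6 D T h) (mem_cons (W1053 D T h) (mem_cons (W848 D T h) (mem_cons (W871 D T h) (mem_cons (W810 D T h) (mem_cons (W4194 D T h) (mem_cons (W1132 D T h) mem_nil)))))))))))))))))))) cl2170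
theorem W9562 : WFK w9562 := fun D T h => wf_of_chk h mem_nil (mem_cons (L1429 D T h) mem_nil) cw9562
theorem W9566 : WFK w9566 := fun D T h => wf_of_chk h (mem_cons (W16 D T h) (mem_cons (W91 D T h) mem_nil)) mem_nil cw9566
theorem L2172 : LFK l2172 := fun D T h => lf_of_chk h (mem_cons (W91 D T h) (mem_cons (W619 D T h) (mem_cons (W7171 D T h) (mem_cons (W2207 D T h) (mem_cons (W69 D T h) (mem_cons (W19 D T h) (mem_cons (W2204 D T h) (mem_cons (W802 D T h) (mem_cons (W8 D T h) mem_nil))))))))) cl2172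
theorem W9567 : WFK w9567 := fun D T h => wf_of_chk h mem_nil (mem_cons (L2172 D T h) mem_nil) cw9567
theorem L2173 : LFK l2173 := fun D T h => lf_of_chk h (mem_cons (W91 D T h) (mem_cons (W619 D T h) (mem_cons (W7171 D T h) (mem_cons (W2207 D T h) (mem_cons (W105 D T h) (mem_cons (W2204 D T h) (mem_cons (W19 D T h) (mem_cons (W802 D T h) (mem_cons (W8 D T h) mem_nil))))))))) cl2173
theorem W9568 : WFK w9568 := fun D T h => wf_of_chk h mem_nil (mem_cons (L2173 D T h) mem_nil) cw9568
theorem L2174 : LFK l2174 := fun D T h => lf_of_chk h (mem_cons (W576 D T h) (mem_cons (W91 D T h) (mem_cons (W4 D T h) (mem_cons (W33 D T h) (mem_cons (W808 D T h) (mem_cons (W6 D T h) (mem_cons (W812 D T h) (mem_cons (W2572 D T h) (mem_cons (W4036 D T h) (mem_cons (W142 D T h) (mem_cons (W848 D T h) (mem_cons (W830 D T h) (mem_cons (W834 D T h) mem_nil))))))))))))) cl2174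
theorem W9569 : WFK w9569 := fun D T h => wf_of_chk h mem_nil (mem_cons (L2174 D T h) mem_nil) cw9569
theorem W9570 : WFK w9570 := fun D T h => wf_of_chk h (mem_cons (W220 D T h) (mem_cons (W91 D T h) mem_nil)) mem_nil cw9570
theorem W9571 : WFK w9571 := fun D T h => wf_of_chk h mem_nil (mem_cons (L2174 D T h) mem_nil) cw9571
theorem W9572 : WFK w9572 := fun D T h => wf_of_chk h mem_nil (mem_cons (L2174 D T h) mem_nil) cw9572
theorem L2175 : LFK l2175 := fun D T h => lf_of_chk h (mem_cons (W91 D T h) (mem_cons (W831 D T h) (mem_cons (W7171 D T h) (mem_cons (W3019 D T h) (mem_cons (W83 D T h) (mem_cons (W6 D T h) (mem_cons (W2204 D T h) (mem_cons (W802 D T h) (mem_cons (W8 D T h) mem_nil))))))))) cl2175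
theorem W9573 : WFK w9573 := fun D T h => wf_of_chk h mem_nil (mem_cons (L2175 D T h) mem_nil) cw9573
theorem W9574 : WFK w9574 := fun D T h => wf_of_chk h (mem_cons (W162 D T h) (mem_cons (W91 D T h) mem_nil)) mem_nil cw9574
theorem W9575 : WFK w9575 := fun D T h => wf_of_chk h mem_nil (mem_cons (L830 D T h) mem_nil) cw9575
theorem W9576 : WFK w9576 := fun D T h => wf_of_chk h mem_nil (mem_cons (L836 D T h) mem_nil) cw9576
theorem L2176 : LFK l2176 := fun D T h => lf_of_chk h (mem_cons (W9566 D T h) (mem_cons (W1070 D T h) (mem_cons (W3019 D T h) (mem_cons (W5780 D T h) (mem_cons (W230 D T h) (mem_cons (W144 D T h) (mem_cons (W1051 D T h) (mem_cons (W2218 D T h) (mem_cons (W2446 D T h) (mem_cons (W3274 D T h) (mem_cons (W3276 D T h) (mem_cons (W9575 D T h) (mem_cons (W9576 D T h) (mem_cons (W16 D T h) (mem_cons (W91 D T h) (mem_cons (W5158 D T h) (mem_cons (W9567 D T h) (mem_cons (W9573 D T h) (mem_cons (W2015 D T h) (mem_cons (W2037 D T h) (mem_cons (W8783 D T h) (mem_cons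 (W9574 D T h) (mem_cons (W576 D T h) (mem_cons (W9568 D T h) (mem_cons (W3695 D T h) (mem_cons (W9569 D T h) (mem_cons (W9570 D T h) (mem_cons (W579 D T h) (mem_cons (W9571 D T h) (mem_cons (W9572 D T h) mem_nil)))))))))))))))))))))))))))))) cl2176
theorem W9577 : WFK w9577 := fun D T h => wf_of_chk h mem_nil (mem_cons (L2176 D T h) mem_nil) cw9577
theorem L2179 : LFK l2179 := fun D T h => lf_of_chk h (mem_cons (W1554 D T h) (mem_cons (W15 D T h) (mem_cons (W1 D T h) (mem_cons (W141 D T h) (mem_cons (W11 D T h) (mem_cons (W500 D T h) (mem_cons (W161 D T h) (mem_cons (W2879 D T h) (mem_cons (W746 D T h) (mem_cons (W1489 D T h) (mem_cons (W256 D T h) (mem_cons (W2648 D T h) mem_nil)))))))))))) cl2179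
theorem W9582 : WFK w9582 := fun D T h => wf_of_chk h mem_nil (mem_cons (L2179 D T h) mem_nil) cw9582

end Pool.Agent.W319.GCI.K5
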