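import Pool.Agent.W319.GCI.K5A7
set_option autoImplicit false
set_option maxRecDepth 100000
set_option linter.all false
namespace Pool.Agent.W319.GCI.K5
open Pool.Agent.W319.GCI

theorem L2182 : LFK l2182 := fun D T h => lf_of_chk h (mem_cons (W3195 D T h) (mem_cons (W638 D T h) (mem_cons (W149 D T h) (mem_cons (W5157 D T h) (mem_cons (W1554 D T h) (mem_cons (W6706 D T h) (mem_cons (W5176 D T h) (mem_cons (W7544 D T h) (mem_cons (W8205 D T h) (mem_cons (W256 D T h) (mem_cons (W2648 D T h) (mem_cons (W6691 D T h) (mem_cons (W6708 D T h) (mem_cons (W1139 D T h) (mem_cons (W6709 D T h) (mem_cons (W6710 D T h) (mem_cons (W2799 D T h) (mem_cons (W6705 D T h) (mem_cons (W3766 D T h) (mem_cons (W2637 D T h) (mem_cons (W6700 D T h) (mem_cons (W6701 D T h) (mem_cons (W9056 D T h) (mem_cons (W2646 D T h) (mem_cons (W6775 D T h) mem_nil))))))))))))))))))))))))) cl2182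
theorem W9591 : WFK w9591 := fun D T h => wf_of_chk h mem_nil (mem_cons (L2182 D T h) mem_nil) cw9591
theorem W9592 : WFK w9592 := fun D T h => wf_of_chk h mem_nil (mem_cons (L1258 D T h) mem_nil) cw9592
theorem W9595 : WFK w9595 := fun D T h => wf_of_chk h mem_nil (mem_cons (L1258 D T h) mem_nil) cw9595
theorem W9596 : WFK w9596 := fun D T h => wf_of_chk h mem_nil (mem_cons (L1647 D T h) mem_nil) cw9596
theorem W9597 : WFK w9597 := fun D T h => wf_of_chk h (mem_cons (W128 D T h) (mem_cons (W2994 D T h) mem_nil)) mem_nil cw9597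
theorem W9598 : WFK w9598 := fun D T h => wf_of_chk h (mem_cons (W284 D T h) (mem_cons (W2994 D T h) mem_nil)) mem_nil cw9598
theorem W9599 : WFK w9599 := fun D T h => wf_of_chk h mem_nil (mem_cons (L2019 D T h) mem_nil) cw9599
theorem W9600 : WFK w9600 := fun D T h => wf_of_chk h (mem_cons (W1063 D T h) (mem_cons (W2994 D T h) mem_nil)) mem_nil cw9600
theorem W9601 : WFK w9601 := fun D T h => wf_of_chk h (mem_cons (W167 D T h) (mem_cons (W2994 D T h) mem_nil)) mem_nil cw9601
theorem L2184 : LFK l2184 := fun D T h => lf_of_chk h (mem_cons (W2057 D T h) (mem_cons (W2994 D T h) (mem_cons (W7158 D T h) (mem_cons (W3531 D T h) (mem_cons (W9600 D T h) (mem_cons (W16 D T h) (mem_cons (W284 D T h) (mem_cons (W9601 D T h) (mem_cons (W6477 D T h) (mem_cons (W9598 D T h) (mem_cons (W9596 D T h) (mem_cons (W50 D T h) (mem_cons (W9597 D T h) (mem_cons (W5194 D T h) (mem_cons (W9599 D T h) (mem_cons (W9056 D T h) (mem_cons (W9413 D T h) (mem_cons (W8807 D T h) (mem_cons (W2151 D T h) (mem_cons (W2161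 D T h) (mem_cons (W2165 D T h) (mem_cons (W1502 D T h) (mem_cons (W1333 D T h) (mem_cons (W2167 D T h) (mem_cons (W2166 D T h) mem_nil))))))))))))))))))))))))) cl2184
theorem W9602 : WFK w9602 := fun D T h => wf_of_chk h mem_nil (mem_cons (L2184 D T h) mem_nil) cw9602
theorem W9603 : WFK w9603 := fun D T h => wf_of_chk h (mem_cons (W128 D T h) (mem_cons (W1318 D T h) mem_nil)) mem_nil cw9603
theorem W9604 : WFK w9604 := fun D T h => wf_of_chk h (mem_cons (W284 D T h) (mem_cons (W1318 D T h) mem_nil)) mem_nil cw9604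
theorem W9605 : WFK w9605 := fun D T h => wf_of_chk h (mem_cons (W1063 D T h) (mem_cons (W1318 D T h) mem_nil)) mem_nil cw9605
theorem W9606 : WFK w9606 := fun D T h => wf_of_chk h (mem_cons (W167 D T h) (mem_cons (W1318 D T h) mem_nil)) mem_nil cw9606
theorem W9607 : WFK w9607 := fun D T h => wf_of_chk h mem_nil (mem_cons (L472 D T h) mem_nil) cw9607
theorem L2185 : LFK l2185 := fun D T h => lf_of_chk h (mem_cons (W2057 D T h) (mem_cons (W1318 D T h) (mem_cons (W8977 D T h) (mem_cons (W3531 D T h) (mem_cons (W9605 D T h) (mem_cons (W16 D T h) (mem_cons (W284 D T h) (mem_cons (W9606 D T h) (mem_cons (W6477 D T h) (mem_cons (W9604 D T h) (mem_cons (W6985 D T h) (mem_cons (W50 D T h) (mem_cons (W9603 D T h) (mem_cons (W5194 D T h) (mem_cons (W9599 D T h) (mem_cons (W5633 D T h) (mem_cons (W9413 D T h) (mem_cons (W8807 D T h) (mem_cons (W2151 D T h) (mem_cons (W2161 D T h) (mem_cons (W7996 D T h) (mem_cons (W1502 D T h) (mem_cons (W2168 D T h) (mem_cons (W2169 D T h) (mem_cons (W2311 D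 T h) (mem_cons (W9448 D T h) (mem_cons (W9443 D T h) (mem_cons (W8086 D T h) (mem_cons (W1213 D T h) (mem_cons (W2292 D T h) (mem_cons (W2298 D T h) (mem_cons (W2165 D T h) (mem_cons (W2166 D T h) (mem_cons (W9607 D T h) mem_nil)))))))))))))))))))))))))))))))))) cl2185
theorem W9608 : WFK w9608 := fun D T h => wf_of_chk h mem_nil (mem_cons (L2185 D T h) mem_nil) cw9608
theorem W9609 : WFK w9609 := fun D T h => wf_of_chk h mem_nil (mem_cons (L1836 D T h) mem_nil) cw9609
theorem W9610 : WFK w9610 := fun D T h => wf_of_chk h mem_nil (mem_cons (L1726 D T h) mem_nil) cw9610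
theorem W9611 : WFK w9611 := fun D T h => wf_of_chk h (mem_cons (W2520 D T h) (mem_cons (W37 D T h) mem_nil)) mem_nil cw9611
theorem W9612 : WFK w9612 := fun D T h => wf_of_chk h mem_nil (mem_cons (L899 D T h) mem_nil) cw9612
theorem W9613 : WFK w9613 := fun D T h => wf_of_chk h mem_nil (mem_cons (L1473 D T h) mem_nil) cw9613
theorem W9614 : WFK w9614 := fun D T h => wf_of_chk h mem_nil (mem_cons (L881 D T h) mem_nil) cw9614
theorem W9615 : WFK w9615 := fun D T h => wf_of_chk h mem_nil (mem_cons (L2030 D T h) mem_nil) cw9615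
theorem L2186 : LFK l2186 := fun D T h => lf_of_chk h (mem_cons (W24 D T h) (mem_cons (W50 D T h) (mem_cons (W15 D T h) (mem_cons (W220 D T h) (mem_cons (W17 D T h) (mem_cons (W83 D T h) (mem_cons (W8692 D T h) (mem_cons (W3335 D T h) mem_nil)))))))) cl2186
theorem W9616 : WFK w9616 := fun D T h => wf_of_chk h mem_nil (mem_cons (L2186 D T h) mem_nil) cw9616
theorem W9617 : WFK w9617 := fun D T h => wf_of_chk h mem_nil (mem_cons (L2186 D T h) mem_nil) cw9617
theorem L2187 : LFK l2187 := fun D T h => lf_of_chk h (mem_cons (W9592 D T h) (mem_cons (W461 D T h) (mem_cons (W175 D T h) (mem_cons (W3 D T h) (mem_cons (W39 D T h) (mem_cons (W1172 D T h) (mem_cons (W3888 D T h) (mem_cons (W212 D T h) (mem_cons (W1554 D T h) (mem_cons (W581 D T h) (mem_cons (W1325 D T h) (mem_cons (W1326 D T h) (mem_cons (W4296 D T h) (mem_cons (W638 D T h) (mem_cons (W267 D T h) (mem_cons (W871 D T h) (mem_cons (W42 D T h) (mem_cons (W721 D T h) (mem_cons (W431 D T h) (mem_cons (W722 D T h) mem_nil))))))))))))))))))))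 cl2187
theorem W9618 : WFK w9618 := fun D T h => wf_of_chk h mem_nil (mem_cons (L2187 D T h) mem_nil) cw9618
theorem L2188 : LFK l2188 := fun D T h => lf_of_chk h (mem_cons (W1502 D T h) (mem_cons (W177 D T h) (mem_cons (W50 D T h) (mem_cons (W16 D T h) (mem_cons (W3335 D T h) (mem_cons (W760 D T h) (mem_cons (W9618 D T h) (mem_cons (W284 D T h) (mem_cons (W9505 D T h) (mem_cons (W2934 D T h) (mem_cons (W9615 D T h) (mem_cons (W9616 D T h) (mem_cons (W2054 D T h) (mem_cons (W1523 D T h) (mem_cons (W9617 D T h) (mem_cons (W2046 D T h) (mem_cons (W42 D T h) (mem_cons (W2048 D T h) (mem_cons (W8663 D T h) (mem_cons (W3744 D T h) (mem_cons (W342 D T h) (mem_cons (W341 D T h) (mem_cons (W358 D T h) (mem_cons (W2219 D T h) mem_nil)))))))))))))))))))))))) cl2188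
theorem W9619 : WFK w9619 := fun D T h => wf_of_chk h mem_nil (mem_cons (L2188 D T h) mem_nil) cw9619
theorem W9620 : WFK w9620 := fun D T h => wf_of_chk h mem_nil (mem_cons (L2188 D T h) mem_nil) cw9620
theorem W9621 : WFK w9621 := fun D T h => wf_of_chk h (mem_cons (W1184 D T h) (mem_cons (W177 D T h) mem_nil)) mem_nil cw9621
theorem W9622 : WFK w9622 := fun D T h => wf_of_chk h mem_nil (mem_cons (L1073 D T h) mem_nil) cw9622
theorem W9623 : WFK w9623 := fun D T h => wf_of_chk h (mem_cons (W1326 D T h) (mem_cons (W16 D T h) mem_nil)) mem_nil cw9623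
theorem W9624 : WFK w9624 := fun D T h => wf_of_chk h (mem_cons (W15 D T h) mem_nil) mem_nil cw9624
theorem L2189 : LFK l2189 := fun D T h => lf_of_chk h (mem_cons (W3766 D T h) (mem_cons (W15 D T h) (mem_cons (W16 D T h) (mem_cons (W573 D T h) (mem_cons (W9624 D T h) mem_nil))))) cl2189
theorem W9625 : WFK w9625 := fun D T h => wf_of_chk h mem_nil (mem_cons (L2189 D T h) mem_nil) cw9625
theorem W9626 : WFK w9626 := fun D T h => wf_of_chk h (mem_cons (W9625 D T h) (mem_cons (W16 D T h) mem_nil)) mem_nil cw9626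
theorem L2190 : LFK l2190 := fun D T h => lf_of_chk h (mem_cons (W6758 D T h) (mem_cons (W1528 D T h) (mem_cons (W16 D T h) (mem_cons (W6960 D T h) (mem_cons (W5358 D T h) (mem_cons (W255 D T h) (mem_cons (W295 D T h) (mem_cons (W432 D T h) (mem_cons (W296 D T h) (mem_cons (W354 D T h) (mem_cons (W501 D T h) (mem_cons (W299 D T h) (mem_cons (W298 D T h) mem_nil))))))))))))) cl2190
theorem W9627 : WFK w9627 := fun D T h => wf_of_chk h mem_nil (mem_cons (L2190 D T h) mem_nil) cw9627
theorem W9628 : WFK w9628 := fun D T h => wf_of_chk h (mem_cons (W495 D T h) (mem_cons (W9025 D T h) mem_nil)) mem_nil cw9628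
theorem W9629 : WFK w9629 := fun D T h => wf_of_chk h (mem_cons (W8128 D T h) (mem_cons (W16 D T h) mem_nil)) mem_nil cw9629
theorem W9630 : WFK w9630 := fun D T h => wf_of_chk h mem_nil (mem_cons (L1486 D T h) mem_nil) cw9630
theorem W9631 : WFK w9631 := fun D T h => wf_of_chk h (mem_cons (W9630 D T h) (mem_cons (W16 D T h) mem_nil)) mem_nil cw9631
theorem W9632 : WFK w9632 := fun D T h => wf_of_chk h mem_nil (mem_cons (L1949 D T h) mem_nil) cw9632
theorem W9634 : WFK w9634 := fun D T h => wf_of_chk h (mem_cons (W103 D T h) mem_nil) mem_nil cw9634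
theorem L2191 : LFK l2191 := fun D T h => lf_of_chk h (mem_cons (W3766 D T h) (mem_cons (W158 D T h) (mem_cons (W16 D T h) (mem_cons (W5376 D T h) (mem_cons (W9634 D T h) mem_nil))))) cl2191
theorem W9635 : WFK w9635 := fun D T h => wf_of_chk h mem_nil (mem_cons (L2191 D T h) mem_nil) cw9635
theorem W9636 : WFK w9636 := fun D T h => wf_of_chk h (mem_cons (W103 D T h) mem_nil) mem_nil cw9636
theorem L2192 : LFK l2192 := fun D T h => lf_of_chk h (mem_cons (W3766 D T h) (mem_cons (W158 D T h) (mem_cons (W16 D T h) (mem_cons (W5376 D T h) (mem_cons (W9636 D T h) mem_nil))))) cl2192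
theorem W9637 : WFK w9637 := fun D T h => wf_of_chk h mem_nil (mem_cons (L2192 D T h) mem_nil) cw9637
theorem L2193 : LFK l2193 := fun D T h => lf_of_chk h (mem_cons (W8631 D T h) (mem_cons (W6552 D T h) (mem_cons (W15 D T h) (mem_cons (W220 D T h) (mem_cons (W199 D T h) (mem_cons (W201 D T h) (mem_cons (W83 D T h) (mem_cons (W9635 D T h) (mem_cons (W432 D T h) (mem_cons (W9637 D T h) (mem_cons (W13 D T h) (mem_cons (W7914 D T h) (mem_cons (W2104 D T h) (mem_cons (W8355 D T h) (mem_cons (W4130 D T h) mem_nil))))))))))))))) cl2193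
theorem W9638 : WFK w9638 := fun D T h => wf_of_chk h mem_nil (mem_cons (L2193 D T h) mem_nil) cw9638
theorem W9639 : WFK w9639 := fun D T h => wf_of_chk h (mem_cons (W220 D T h) (mem_cons (W6552 D T h) mem_nil)) mem_nil cw9639
theorem W9640 : WFK w9640 := fun D T h => wf_of_chk h mem_nil (mem_cons (L2193 D T h) mem_nil) cw9640
theorem W9641 : WFK w9641 := fun D T h => wf_of_chk h (mem_cons (W16 D T h) (mem_cons (W8645 D T h) mem_nil)) mem_nil cw9641
theorem W9642 : WFK w9642 := fun D T h => wf_of_chk h mem_nil (mem_cons (L479 D T h) mem_nil) cw9642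
theorem W9643 : WFK w9643 := fun D T h => wf_of_chk h mem_nil mem_nil cw9643
theorem W9644 : WFK w9644 := fun D T h => wf_of_chk h (mem_cons (W103 D T h) mem_nil) mem_nil cw9644
theorem W9645 : WFK w9645 := fun D T h => wf_of_chk h (mem_cons (W103 D T h) mem_nil) mem_nil cw9645
theorem L2194 : LFK l2194 := fun D T h => lf_of_chk h (mem_cons (W3766 D T h) (mem_cons (W103 D T h) (mem_cons (W16 D T h) (mem_cons (W9644 D T h) (mem_cons (W9645 D T h) mem_nil))))) cl2194
theorem W9646 : WFK w9646 := fun D T h => wf_of_chk h mem_nil (mem_cons (L2194 D T h) mem_nil) cw9646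
theorem W9648 : WFK w9648 := fun D T h => wf_of_chk h (mem_cons (W103 D T h) mem_nil) mem_nil cw9648
theorem L2195 : LFK l2195 := fun D T h => lf_of_chk h (mem_cons (W9644 D T h) (mem_cons (W103 D T h) (mem_cons (W391 D T h) (mem_cons (W1535 D T h) (mem_cons (W267 D T h) (mem_cons (W263 D T h) (mem_cons (W9643 D T h) (mem_cons (W2081 D T h) (mem_cons (W9648 D T h) mem_nil))))))))) cl2195
theorem W9649 : WFK w9649 := fun D T h => wf_of_chk h mem_nil (mem_cons (L2195 D T h) mem_nil) cw9649
theorem W9650 : WFK w9650 := fun D T h => wf_of_chk h mem_nil (mem_cons (L762 D T h) mem_nil) cw9650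
theorem W9651 : WFK w9651 := fun D T h => wf_of_chk h mem_nil (mem_cons (L762 D T h) mem_nil) cw9651
theorem L2196 : LFK l2196 := fun D T h => lf_of_chk h (mem_cons (W4130 D T h) (mem_cons (W6552 D T h) (mem_cons (W161 D T h) (mem_cons (W1637 D T h) (mem_cons (W199 D T h) (mem_cons (W201 D T h) (mem_cons (W2106 D T h) (mem_cons (W2147 D T h) (mem_cons (W1335 D T h) (mem_cons (W2107 D T h) (mem_cons (W2148 D T h) (mem_cons (W3766 D T h) (mem_cons (W2118 D T h) (mem_cons (W2119 D T h) (mem_cons (W2144 D T h) (mem_cons (W2145 D T h) (mem_cons (W2146 D T h) (mem_cons (W9650 D T h) (mem_cons (W9651 D T h) (mem_cons (W9646 D T h) (mem_cons (W2766 D T h) (mem_cons (W9649 D T h) (mem_cons (W13 D T h) (mem_cons (W2120 D T h) (mem_cons (W2121 D T h) (mem_cons (W2134 D T h) mem_nil)))))))))))))))))))))))))) cl2196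
theorem W9652 : WFK w9652 := fun D T h => wf_of_chk h mem_nil (mem_cons (L2196 D T h) mem_nil) cw9652
theorem W9653 : WFK w9653 := fun D T h => wf_of_chk h (mem_cons (W162 D T h) (mem_cons (W6552 D T h) mem_nil)) mem_nil cw9653
theorem L2197 : LFK l2197 := fun D T h => lf_of_chk h (mem_cons (W8663 D T h) (mem_cons (W177 D T h) (mem_cons (W6552 D T h) (mem_cons (W16 D T h) (mem_cons (W1449 D T h) (mem_cons (W2097 D T h) (mem_cons (W9652 D T h) (mem_cons (W9025 D T h) (mem_cons (W9653 D T h) (mem_cons (W2934 D T h) (mem_cons (W9631 D T h) (mem_cons (W9632 D T h) (mem_cons (W8631 D T h) (mem_cons (W2532 D T h) (mem_cons (W9638 D T h) (mem_cons (W284 D T h) (mem_cons (W9639 D T h) (mem_cons (W2113 D T h) (mem_cons (W9640 D T h) (mem_cons (W2046 D T h) (mem_cons (W2048 D T h) (mem_cons (W9621 D T h) (mem_cons (W8609 D T h) (mem_cons (W9622 D T h) (mem_cons (W1326 D T h) (mem_cons (W9623 D T h) (mem_cons (W9626 D T h) (mem_cons (W2067 D T h) (mem_cons (W2069 D T h) (mem_cons (W342 D T h) (mem_cons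 (W8645 D T h) (mem_cons (W8644 D T h) (mem_cons (W9627 D T h) (mem_cons (W8647 D T h) (mem_cons (W9641 D T h) (mem_cons (W1408 D T h) (mem_cons (W8654 D T h) (mem_cons (W2280 D T h) (mem_cons (W3766 D T h) (mem_cons (W3156 D T h) (mem_cons (W8129 D T h) (mem_cons (W9628 D T h) (mem_cons (W9629 D T h) mem_nil))))))))))))))))))))))))))))))))))))))))))) cl2197
theorem W9654 : WFK w9654 := fun D T h => wf_of_chk h mem_nil (mem_cons (L2197 D T h) mem_nil) cw9654
theorem W9655 : WFK w9655 := fun D T h => wf_of_chk h mem_nil (mem_cons (L274 D T h) mem_nil) cw9655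
theorem W9656 : WFK w9656 := fun D T h => wf_of_chk h (mem_cons (W164 D T h) mem_nil) mem_nil cw9656
theorem L2198 : LFK l2198 := fun D T h => lf_of_chk h (mem_cons (W200 D T h) (mem_cons (W3766 D T h) (mem_cons (W951 D T h) (mem_cons (W952 D T h) (mem_cons (W86 D T h) (mem_cons (W67 D T h) (mem_cons (W2088 D T h) (mem_cons (W808 D T h) (mem_cons (W216 D T h) (mem_cons (W11 D T h) (mem_cons (W950 D T h) mem_nil))))))))))) cl2198
theorem W9657 : WFK w9657 := fun D T h => wf_of_chk h mem_nil (mem_cons (L2198 D T h) mem_nil) cw9657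
theorem W9658 : WFK w9658 := fun D T h => wf_of_chk h mem_nil (mem_cons (L2198 D T h) mem_nil) cw9658
theorem W9659 : WFK w9659 := fun D T h => wf_of_chk h (mem_cons (W1067 D T h) mem_nil) mem_nil cw9659
theorem W9660 : WFK w9660 := fun D T h => wf_of_chk h (mem_cons (W1019 D T h) mem_nil) mem_nil cw9660
theorem L2199 : LFK l2199 := fun D T h => lf_of_chk h (mem_cons (W1529 D T h) (mem_cons (W44 D T h) (mem_cons (W4 D T h) (mem_cons (W11 D T h) (mem_cons (W9075 D T h) (mem_cons (W500 D T h) (mem_cons (W3794 D T h) (mem_cons (W918 D T h) (mem_cons (W871 D T h) mem_nil))))))))) cl2199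
theorem W9661 : WFK w9661 := fun D T h => wf_of_chk h mem_nil (mem_cons (L2199 D T h) mem_nil) cw9661
theorem W9662 : WFK w9662 := fun D T h => wf_of_chk h (mem_cons (W2381 D T h) mem_nil) mem_nil cw9662
theorem W9663 : WFK w9663 := fun D T h => wf_of_chk h mem_nil (mem_cons (L193 D T h) mem_nil) cw9663
theorem W9664 : WFK w9664 := fun D T h => wf_of_chk h (mem_cons (W2938 D T h) mem_nil) mem_nil cw9664
theorem W9665 : WFK w9665 := fun D T h => wf_of_chk h (mem_cons (W2938 D T h) mem_nil) mem_nil cw9665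
theorem W9666 : WFK w9666 := fun D T h => wf_of_chk h mem_nil (mem_cons (L504 D T h) mem_nil) cw9666
theorem W9667 : WFK w9667 := fun D T h => wf_of_chk h mem_nil (mem_cons (L1379 D T h) mem_nil) cw9667
theorem W9668 : WFK w9668 := fun D T h => wf_of_chk h mem_nil (mem_cons (L1379 D T h) mem_nil) cw9668
theorem L2200 : LFK l2200 := fun D T h => lf_of_chk h (mem_cons (W3571 D T h) (mem_cons (W342 D T h) (mem_cons (W495 D T h) (mem_cons (W1599 D T h) (mem_cons (W3766 D T h) (mem_cons (W16 D T h) (mem_cons (W8979 D T h) (mem_cons (W9656 D T h) (mem_cons (W9657 D T h) (mem_cons (W9666 D T h) (mem_cons (W284 D T h) (mem_cons (W3574 D T h) (mem_cons (W2934 D T h) (mem_cons (W9658 D T h) (mem_cons (W3783 D T h) (mem_cons (W8703 D T h) (mem_cons (W9659 D T h) (mem_cons (W3577 D T h) (mem_cons (W3578 D T h) (mem_cons (W9660 D T h) (mem_cons (W3664 D T h) (mem_cons (W6756 D T h) (mem_cons (W815 D T h) (mem_cons (W762 D T h) (mem_cons (W1448 D T h) (mem_cons (W2116 D T h) (mem_cons (W9667 D T h)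 (mem_cons (W9668 D T h) (mem_cons (W538 D T h) (mem_cons (W3582 D T h) (mem_cons (W6712 D T h) (mem_cons (W3245 D T h) (mem_cons (W9661 D T h) (mem_cons (W9662 D T h) (mem_cons (W9663 D T h) (mem_cons (W9664 D T h) (mem_cons (W9665 D T h) mem_nil))))))))))))))))))))))))))))))))))))) cl2200
theorem W9669 : WFK w9669 := fun D T h => wf_of_chk h mem_nil (mem_cons (L2200 D T h) mem_nil) cw9669
theorem W9670 : WFK w9670 := fun D T h => wf_of_chk h (mem_cons (W9669 D T h) (mem_cons (W16 D T h) mem_nil)) mem_nil cw9670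
theorem L2201 : LFK l2201 := fun D T h => lf_of_chk h (mem_cons (W17 D T h) (mem_cons (W8153 D T h) (mem_cons (W495 D T h) (mem_cons (W3774 D T h) (mem_cons (W203 D T h) (mem_cons (W1222 D T h) (mem_cons (W3 D T h) (mem_cons (W200 D T h) (mem_cons (W199 D T h) (mem_cons (W201 D T h) mem_nil)))))))))) cl2201
theorem W9671 : WFK w9671 := fun D T h => wf_of_chk h mem_nil (mem_cons (L2201 D T h) mem_nil) cw9671
theorem W9672 : WFK w9672 := fun D T h => wf_of_chk h (mem_cons (W220 D T h) (mem_cons (W8153 D T h) mem_nil)) mem_nil cw9672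
theorem W9673 : WFK w9673 := fun D T h => wf_of_chk h (mem_cons (W284 D T h) (mem_cons (W495 D T h) mem_nil)) mem_nil cw9673
theorem L2202 : LFK l2202 := fun D T h => lf_of_chk h (mem_cons (W42 D T h) (mem_cons (W461 D T h) (mem_cons (W384 D T h) (mem_cons (W3 D T h) (mem_cons (W39 D T h) (mem_cons (W1172 D T h) (mem_cons (W851 D T h) (mem_cons (W3888 D T h) (mem_cons (W173 D T h) (mem_cons (W1554 D T h) (mem_cons (W581 D T h) (mem_cons (W1325 D T h) (mem_cons (W1326 D T h) (mem_cons (W4296 D T h) (mem_cons (W431 D T h) (mem_cons (W267 D T h) (mem_cons (W722 D T h) (mem_cons (W721 D T h) (mem_cons (W6647 D T h) mem_nil))))))))))))))))))) cl2202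
theorem W9674 : WFK w9674 := fun D T h => wf_of_chk h mem_nil (mem_cons (L2202 D T h) mem_nil) cw9674
theorem L2203 : LFK l2203 := fun D T h => lf_of_chk h (mem_cons (W1502 D T h) (mem_cons (W495 D T h) (mem_cons (W8153 D T h) (mem_cons (W16 D T h) (mem_cons (W1408 D T h) (mem_cons (W1221 D T h) (mem_cons (W9674 D T h) (mem_cons (W284 D T h) (mem_cons (W9505 D T h) (mem_cons (W2934 D T h) (mem_cons (W9671 D T h) (mem_cons (W8631 D T h) (mem_cons (W209 D T h) (mem_cons (W2295 D T h) (mem_cons (W9672 D T h) (mem_cons (W2297 D T h) (mem_cons (W9673 D T h) (mem_cons (W385 D T h) (mem_cons (W42 D T h) (mem_cons (W2293 D T h) (mem_cons (W9628 D T h) (mem_cons (W9670 D T h) (mem_cons (W342 D T h) (mem_cons (W341 D T h) (mem_cons (W358 D T h) (mem_cons (W2219 D T h) (mem_cons (W1325 D T h) (mem_cons (W1676 D T h) mem_nil)))))))))))))))))))))))))))) cl2203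
theorem W9675 : WFK w9675 := fun D T h => wf_of_chk h mem_nil (mem_cons (L2203 D T h) mem_nil) cw9675
theorem L2204 : LFK l2204 := fun D T h => lf_of_chk h (mem_cons (W2061 D T h) (mem_cons (W2024 D T h) (mem_cons (W16 D T h) (mem_cons (W284 D T h) (mem_cons (W2934 D T h) (mem_cons (W2164 D T h) (mem_cons (W1502 D T h) (mem_cons (W9655 D T h) (mem_cons (W2169 D T h) (mem_cons (W37 D T h) (mem_cons (W8977 D T h) (mem_cons (W7953 D T h) (mem_cons (W1213 D T h) (mem_cons (W8134 D T h) (mem_cons (W9675 D T h) (mem_cons (W2165 D T h) (mem_cons (W9619 D T h) (mem_cons (W9620 D T h) (mem_cons (W2062 D T h) (mem_cons (W1346 D T h) (mem_cons (W1019 D T h) (mem_cons (W6474 D T h) (mem_cons (W9612 D T h) (mem_cons (W9613 D T h) (mem_cons (W8807 D T h) (mem_cons (W9654 D T h) (mem_cons (W9611 D T h) (mem_cons (W9614 D T h) (mem_cons (W6478 D T h) (mem_cons (W2059 D T h) (mem_cons (W50 D T h) (mem_cons (W2060 D T h) (mem_cons (W6472 D T h) mem_nil))))))))))))))))))))))))))))))))) cl2204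
theorem W9676 : WFK w9676 := fun D T h => wf_of_chk h mem_nil (mem_cons (L2204 D T h) mem_nil) cw9676
theorem W9677 : WFK w9677 := fun D T h => wf_of_chk h mem_nil (mem_cons (L1124 D T h) mem_nil) cw9677
theorem W9678 : WFK w9678 := fun D T h => wf_of_chk h mem_nil (mem_cons (L981 D T h) mem_nil) cw9678
theorem W9679 : WFK w9679 := fun D T h => wf_of_chk h mem_nil (mem_cons (L768 D T h) mem_nil) cw9679
theorem W9680 : WFK w9680 := fun D T h => wf_of_chk h (mem_cons (W8608 D T h) (mem_cons (W16 D T h) mem_nil)) mem_nil cw9680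
theorem W9681 : WFK w9681 := fun D T h => wf_of_chk h (mem_cons (W162 D T h) (mem_cons (W1318 D T h) mem_nil)) mem_nil cw9681
theorem W9682 : WFK w9682 := fun D T h => wf_of_chk h mem_nil (mem_cons (L881 D T h) mem_nil) cw9682
theorem W9683 : WFK w9683 := fun D T h => wf_of_chk h (mem_cons (W2709 D T h) (mem_cons (W37 D T h) mem_nil)) mem_nil cw9683
theorem W9684 : WFK w9684 := fun D T h => wf_of_chk h (mem_cons (W2839 D T h) (mem_cons (W37 D T h) mem_nil)) mem_nil cw9684
theorem W9685 : WFK w9685 := fun D T h => wf_of_chk h (mem_cons (W3501 D T h) (mem_cons (W16 D T h) mem_nil)) mem_nil cw9685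
theorem W9686 : WFK w9686 := fun D T h => wf_of_chk h mem_nil (mem_cons (L1881 D T h) mem_nil) cw9686
theorem L2205 : LFK l2205 := fun D T h => lf_of_chk h (mem_cons (W3511 D T h) (mem_cons (W1318 D T h) (mem_cons (W16 D T h) (mem_cons (W1063 D T h) (mem_cons (W804 D T h) (mem_cons (W7303 D T h) (mem_cons (W2839 D T h) (mem_cons (W1291 D T h) (mem_cons (W8113 D T h) (mem_cons (W9686 D T h) (mem_cons (W9025 D T h) (mem_cons (W3523 D T h) (mem_cons (W9685 D T h) (mem_cons (W8977 D T h) (mem_cons (W9384 D T h) (mem_cons (W9682 D T h) (mem_cons (W2037 D T h) (mem_cons (W3896 D T h) (mem_cons (W9683 D T h) (mem_cons (W9684 D T h) (mem_cons (W2371 D T h) (mem_cons (W3013 D T h) (mem_cons (W9679 D T h) (mem_cons (W6956 D T h) (mem_cons (W5197 D T h) (mem_cons (W9680 D T h) (mem_cons (W2162 D T h) (mem_cons (W6380 D T h) (mem_cons (W2015 D T h) (mem_cons (W9681 D T h) (mem_cons (W8783 D T h) (mem_cons (W4286 D T h) (mem_cons (W5258 D T h) (mem_cons (W9677 D T h) (mem_cons (W128 D T h) (mem_cons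 (W5277 D T h) (mem_cons (W9678 D T h) mem_nil))))))))))))))))))))))))))))))))))))) cl2205
theorem W9687 : WFK w9687 := fun D T h => wf_of_chk h mem_nil (mem_cons (L2205 D T h) mem_nil) cw9687
theorem L2206 : LFK l2206 := fun D T h => lf_of_chk h (mem_cons (W6714 D T h) mem_nil) cl2206
theorem W9688 : WFK w9688 := fun D T h => wf_of_chk h mem_nil (mem_cons (L2206 D T h) mem_nil) cw9688
theorem W9691 : WFK w9691 := fun D T h => wf_of_chk h mem_nil (mem_cons (L1832 D T h) mem_nil) cw9691
theorem W9695 : WFK w9695 := fun D T h => wf_of_chk h mem_nil (mem_cons (L1835 D T h) mem_nil) cw9695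
theorem W9698 : WFK w9698 := fun D T h => wf_of_chk h (mem_cons (W1063 D T h) (mem_cons (W37 D T h) mem_nil)) mem_nil cw9698
theorem W9699 : WFK w9699 := fun D T h => wf_of_chk h (mem_cons (W16 D T h) (mem_cons (W6613 D T h) mem_nil)) mem_nil cw9699
theorem W9700 : WFK w9700 := fun D T h => wf_of_chk h (mem_cons (W167 D T h) (mem_cons (W37 D T h) mem_nil)) mem_nil cw9700
theorem W9701 : WFK w9701 := fun D T h => wf_of_chk h mem_nil (mem_cons (L2023 D T h) mem_nil) cw9701
theorem W9702 : WFK w9702 := fun D T h => wf_of_chk h (mem_cons (W1063 D T h) (mem_cons (W37 D T h) mem_nil)) mem_nil cw9702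
theorem L2209 : LFK l2209 := fun D T h => lf_of_chk h (mem_cons (W2061 D T h) (mem_cons (W2893 D T h) (mem_cons (W16 D T h) (mem_cons (W284 D T h) (mem_cons (W1318 D T h) (mem_cons (W2164 D T h) (mem_cons (W1310 D T h) (mem_cons (W2168 D T h) (mem_cons (W2169 D T h) (mem_cons (W8113 D T h) (mem_cons (W8148 D T h) (mem_cons (W2165 D T h) (mem_cons (W2055 D T h) (mem_cons (W2166 D T h) (mem_cons (W2057 D T h) (mem_cons (W9698 D T h) (mem_cons (W5633 D T h) (mem_cons (W6613 D T h) (mem_cons (W8807 D T h) (mem_cons (W9700 D T h) (mem_cons (W9701 D T h) (mem_cons (W9702 D T h) (mem_cons (W6478 D T h) (mem_cons (W6477 D T h) (mem_cons (W2059 D T h) (mem_cons (W50 D T h) (mem_cons (W2060 D T h) (mem_cons (W6472 D T h) mem_nil)))))))))))))))))))))))))))) cl2209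
theorem W9703 : WFK w9703 := fun D T h => wf_of_chk h mem_nil (mem_cons (L2209 D T h) mem_nil) cw9703
theorem L2210 : LFK l2210 := fun D T h => lf_of_chk h (mem_cons (W2314 D T h) (mem_cons (W37 D T h) (mem_cons (W804 D T h) (mem_cons (W9687 D T h) (mem_cons (W2057 D T h) (mem_cons (W9703 D T h) (mem_cons (W9609 D T h) (mem_cons (W284 D T h) (mem_cons (W1213 D T h) (mem_cons (W9610 D T h) (mem_cons (W9676 D T h) (mem_cons (W2994 D T h) (mem_cons (W8953 D T h) (mem_cons (W7158 D T h) (mem_cons (W9602 D T h) (mem_cons (W6815 D T h) (mem_cons (W9608 D T h) mem_nil))))))))))))))))) cl2210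
theorem W9704 : WFK w9704 := fun D T h => wf_of_chk h mem_nil (mem_cons (L2210 D T h) mem_nil) cw9704
theorem L2211 : LFK l2211 := fun D T h => lf_of_chk h (mem_cons (W6758 D T h) (mem_cons (W56 D T h) (mem_cons (W16 D T h) (mem_cons (W5358 D T h) (mem_cons (W6960 D T h) (mem_cons (W581 D T h) (mem_cons (W432 D T h) (mem_cons (W5314 D T h) (mem_cons (W1520 D T h) (mem_cons (W1051 D T h) (mem_cons (W3766 D T h) (mem_cons (W141 D T h) (mem_cons (W8609 D T h) mem_nil))))))))))))) cl2211
theorem W9705 : WFK w9705 := fun D T h => wf_of_chk h mem_nil (mem_cons (L2211 D T h) mem_nil) cw9705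
theorem W9706 : WFK w9706 := fun D T h => wf_of_chk h (mem_cons (W710 D T h) mem_nil) mem_nil cw9706
theorem L2212 : LFK l2212 := fun D T h => lf_of_chk h (mem_cons (W67 D T h) mem_nil) cl2212
theorem W9707 : WFK w9707 := fun D T h => wf_of_chk h mem_nil (mem_cons (L2212 D T h) mem_nil) cw9707
theorem W9708 : WFK w9708 := fun D T h => wf_of_chk h (mem_cons (W143 D T h) mem_nil) mem_nil cw9708
theorem L2213 : LFK l2213 := fun D T h => lf_of_chk h (mem_cons (W4209 D T h) (mem_cons (W461 D T h) (mem_cons (W1 D T h) (mem_cons (W69 D T h) (mem_cons (W93 D T h) (mem_cons (W83 D T h) (mem_cons (W3565 D T h) (mem_cons (W4566 D T h) (mem_cons (W91 D T h) (mem_cons (W80 D T h) (mem_cons (W9708 D T h) (mem_cons (W76 D T h) (mem_cons (W82 D T h) (mem_cons (W4259 D T h) (mem_cons (W79 D T h) (mem_cons (W81 D T h) (mem_cons (W9707 D T h) (mem_cons (W66 D T h) (mem_cons (W370 D T h) (mem_cons (W111 D T h) (mem_cons (W2236 D T h) (mem_cons (W114 D T h) (mem_cons (W267 D T h) (mem_cons (W721 D T h) (mem_cons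 (W627 D T h) mem_nil))))))))))))))))))))))))) cl2213
theorem W9709 : WFK w9709 := fun D T h => wf_of_chk h mem_nil (mem_cons (L2213 D T h) mem_nil) cw9709
theorem W9710 : WFK w9710 := fun D T h => wf_of_chk h (mem_cons (W220 D T h) (mem_cons (W461 D T h) mem_nil)) mem_nil cw9710
theorem W9711 : WFK w9711 := fun D T h => wf_of_chk h (mem_cons (W642 D T h) (mem_cons (W16 D T h) mem_nil)) mem_nil cw9711
theorem W9712 : WFK w9712 := fun D T h => wf_of_chk h (mem_cons (W162 D T h) (mem_cons (W461 D T h) mem_nil)) mem_nil cw9712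
theorem W9713 : WFK w9713 := fun D T h => wf_of_chk h (mem_cons (W16 D T h) (mem_cons (W461 D T h) mem_nil)) mem_nil cw9713
theorem W9714 : WFK w9714 := fun D T h => wf_of_chk h (mem_cons (W2690 D T h) (mem_cons (W16 D T h) mem_nil)) mem_nil cw9714
theorem W9715 : WFK w9715 := fun D T h => wf_of_chk h mem_nil (mem_cons (L1077 D T h) mem_nil) cw9715
theorem L2214 : LFK l2214 := fun D T h => lf_of_chk h (mem_cons (W5705 D T h) (mem_cons (W7632 D T h) (mem_cons (W682 D T h) (mem_cons (W3878 D T h) (mem_cons (W16 D T h) (mem_cons (W6997 D T h) (mem_cons (W9706 D T h) (mem_cons (W9709 D T h) (mem_cons (W2015 D T h) (mem_cons (W8544 D T h) (mem_cons (W8783 D T h) (mem_cons (W9712 D T h) (mem_cons (W2037 D T h) (mem_cons (W9713 D T h) (mem_cons (W4209 D T h) (mem_cons (W1717 D T h) (mem_cons (W1716 D T h) (mem_cons (W128 D T h) (mem_cons (W9710 D T h) (mem_cons (W5719 D T h) (mem_cons (W5722 D T h) (mem_cons (W642 D T h) (mem_cons (W799 D T h) (mem_cons (W5701 D T h) (mem_cons (W551 D T h)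 (mem_cons (W5703 D T h) (mem_cons (W553 D T h) (mem_cons (W9711 D T h) (mem_cons (W452 D T h) (mem_cons (W581 D T h) (mem_cons (W5730 D T h) (mem_cons (W9714 D T h) (mem_cons (W5729 D T h) mem_nil))))))))))))))))))))))))))))))))) cl2214
theorem W9716 : WFK w9716 := fun D T h => wf_of_chk h mem_nil (mem_cons (L2214 D T h) mem_nil) cw9716
theorem W9717 : WFK w9717 := fun D T h => wf_of_chk h mem_nil (mem_cons (L299 D T h) mem_nil) cw9717
theorem W9718 : WFK w9718 := fun D T h => wf_of_chk h mem_nil (mem_cons (L299 D T h) mem_nil) cw9718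
theorem L2215 : LFK l2215 := fun D T h => lf_of_chk h (mem_cons (W1299 D T h) (mem_cons (W1298 D T h) (mem_cons (W1295 D T h) (mem_cons (W37 D T h) (mem_cons (W3878 D T h) (mem_cons (W42 D T h) (mem_cons (W164 D T h) (mem_cons (W9044 D T h) (mem_cons (W8138 D T h) (mem_cons (W1643 D T h) (mem_cons (W9066 D T h) (mem_cons (W8008 D T h) (mem_cons (W8817 D T h) (mem_cons (W9716 D T h) (mem_cons (W9717 D T h) (mem_cons (W9718 D T h) (mem_cons (W8819 D T h) (mem_cons (W4277 D T h) (mem_cons (W6833 D T h) (mem_cons (W9705 D T h) (mem_cons (W220 D T h) (mem_cons (W15 D T h) mem_nil)))))))))))))))))))))) cl2215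
theorem W9719 : WFK w9719 := fun D T h => wf_of_chk h mem_nil (mem_cons (L2215 D T h) mem_nil) cw9719
theorem L2216 : LFK l2216 := fun D T h => lf_of_chk h (mem_cons (W2912 D T h) (mem_cons (W16 D T h) (mem_cons (W2914 D T h) (mem_cons (W15 D T h) (mem_cons (W2919 D T h) (mem_cons (W9719 D T h) (mem_cons (W1929 D T h) (mem_cons (W220 D T h) (mem_cons (W7541 D T h) (mem_cons (W2916 D T h) (mem_cons (W2915 D T h) (mem_cons (W3409 D T h) (mem_cons (W3878 D T h) (mem_cons (W42 D T h) (mem_cons (W164 D T h) (mem_cons (W2918 D T h) mem_nil)))))))))))))))) cl2216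
theorem W9720 : WFK w9720 := fun D T h => wf_of_chk h mem_nil (mem_cons (L2216 D T h) mem_nil) cw9720
theorem W9721 : WFK w9721 := fun D T h => wf_of_chk h (mem_cons (W16 D T h) (mem_cons (W2373 D T h) mem_nil)) mem_nil cw9721
theorem W9722 : WFK w9722 := fun D T h => wf_of_chk h (mem_cons (W726 D T h) (mem_cons (W16 D T h) mem_nil)) mem_nil cw9722
theorem W9723 : WFK w9723 := fun D T h => wf_of_chk h (mem_cons (W726 D T h) (mem_cons (W16 D T h) mem_nil)) mem_nil cw9723
theorem W9724 : WFK w9724 := fun D T h => wf_of_chk h (mem_cons (W3016 D T h) (mem_cons (W16 D T h) mem_nil)) mem_nil cw9724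
theorem W9725 : WFK w9725 := fun D T h => wf_of_chk h (mem_cons (W3019 D T h) (mem_cons (W16 D T h) mem_nil)) mem_nil cw9725
theorem L2217 : LFK l2217 := fun D T h => lf_of_chk h (mem_cons (W9025 D T h) (mem_cons (W721 D T h) (mem_cons (W16 D T h) (mem_cons (W2380 D T h) (mem_cons (W2381 D T h) (mem_cons (W1193 D T h) (mem_cons (W2015 D T h) (mem_cons (W42 D T h) (mem_cons (W7114 D T h) (mem_cons (W8912 D T h) (mem_cons (W7720 D T h) (mem_cons (W5633 D T h) (mem_cons (W2037 D T h) (mem_cons (W9725 D T h) (mem_cons (W432 D T h) (mem_cons (W3193 D T h) (mem_cons (W6968 D T h) (mem_cons (W1192 D T h) (mem_cons (W5721 D T h) mem_nil))))))))))))))))))) cl2217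
theorem W9726 : WFK w9726 := fun D T h => wf_of_chk h mem_nil (mem_cons (L2217 D T h) mem_nil) cw9726
theorem W9727 : WFK w9727 := fun D T h => wf_of_chk h (mem_cons (W220 D T h) (mem_cons (W2373 D T h) mem_nil)) mem_nil cw9727
theorem W9728 : WFK w9728 := fun D T h => wf_of_chk h (mem_cons (W220 D T h) (mem_cons (W2373 D T h) mem_nil)) mem_nil cw9728
theorem W9729 : WFK w9729 := fun D T h => wf_of_chk h (mem_cons (W1051 D T h) (mem_cons (W16 D T h) mem_nil)) mem_nil cw9729
theorem L2218 : LFK l2218 := fun D T h => lf_of_chk h (mem_cons (W9025 D T h) (mem_cons (W3766 D T h) (mem_cons (W16 D T h) (mem_cons (W6758 D T h) (mem_cons (W2015 D T h) (mem_cons (W42 D T h) (mem_cons (W7114 D T h) (mem_cons (W8912 D T h) (mem_cons (W7720 D T h) (mem_cons (W5633 D T h) (mem_cons (W2037 D T h) (mem_cons (W9729 D T h) (mem_cons (W432 D T h) (mem_cons (W3193 D T h) (mem_cons (W6968 D T h) (mem_cons (W1192 D T h) (mem_cons (W5721 D T h) mem_nil))))))))))))))))) cl2218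
theorem W9730 : WFK w9730 := fun D T h => wf_of_chk h mem_nil (mem_cons (L2218 D T h) mem_nil) cw9730
theorem W9731 : WFK w9731 := fun D T h => wf_of_chk h (mem_cons (W17 D T h) (mem_cons (W16 D T h) mem_nil)) mem_nil cw9731
theorem W9732 : WFK w9732 := fun D T h => wf_of_chk h (mem_cons (W181 D T h) (mem_cons (W16 D T h) mem_nil)) mem_nil cw9732
theorem W9733 : WFK w9733 := fun D T h => wf_of_chk h (mem_cons (W3035 D T h) (mem_cons (W16 D T h) mem_nil)) mem_nil cw9733
theorem W9734 : WFK w9734 := fun D T h => wf_of_chk h (mem_cons (W162 D T h) (mem_cons (W2373 D T h) mem_nil)) mem_nil cw9734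
theorem W9735 : WFK w9735 := fun D T h => wf_of_chk h (mem_cons (W461 D T h) (mem_cons (W16 D T h) mem_nil)) mem_nil cw9735
theorem W9736 : WFK w9736 := fun D T h => wf_of_chk h (mem_cons (W7085 D T h) (mem_cons (W16 D T h) mem_nil)) mem_nil cw9736
theorem W9737 : WFK w9737 := fun D T h => wf_of_chk h (mem_cons (W7005 D T h) (mem_cons (W16 D T h) mem_nil)) mem_nil cw9737
theorem W9738 : WFK w9738 := fun D T h => wf_of_chk h mem_nil (mem_cons (L717 D T h) mem_nil) cw9738
theorem W9739 : WFK w9739 := fun D T h => wf_of_chk h (mem_cons (W230 D T h) (mem_cons (W16 D T h) mem_nil)) mem_nil cw9739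
theorem W9740 : WFK w9740 := fun D T h => wf_of_chk h mem_nil (mem_cons (L788 D T h) mem_nil) cw9740
theorem W9741 : WFK w9741 := fun D T h => wf_of_chk h (mem_cons (W799 D T h) (mem_cons (W16 D T h) mem_nil)) mem_nil cw9741
theorem W9745 : WFK w9745 := fun D T h => wf_of_chk h (mem_cons (W2520 D T h) (mem_cons (W16 D T h) mem_nil)) mem_nil cw9745
theorem W9746 : WFK w9746 := fun D T h => wf_of_chk h mem_nil mem_nil cw9746
theorem W9747 : WFK w9747 := fun D T h => wf_of_chk h (mem_cons (W9746 D T h) (mem_cons (W16 D T h) mem_nil)) mem_nil cw9747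
theorem L2219 : LFK l2219 := fun D T h => lf_of_chk h (mem_cons (W9025 D T h) (mem_cons (W6758 D T h) (mem_cons (W2378 D T h) (mem_cons (W1528 D T h) (mem_cons (W16 D T h) (mem_cons (W2015 D T h) (mem_cons (W7114 D T h) (mem_cons (W42 D T h) (mem_cons (W9747 D T h) mem_nil))))))))) cl2219
theorem W9748 : WFK w9748 := fun D T h => wf_of_chk h mem_nil (mem_cons (L2219 D T h) mem_nil) cw9748
theorem W9749 : WFK w9749 := fun D T h => wf_of_chk h (mem_cons (W1051 D T h) mem_nil) mem_nil cw9749
theorem L2220 : LFK l2220 := fun D T h => lf_of_chk h (mem_cons (W9025 D T h) (mem_cons (W6758 D T h) (mem_cons (W2378 D T h) (mem_cons (W1528 D T h) (mem_cons (W16 D T h) (mem_cons (W2015 D T h) (mem_cons (W7114 D T h) (mem_cons (W42 D T h) (mem_cons (W8912 D T h) (mem_cons (W5633 D T h) (mem_cons (W7720 D T h) (mem_cons (W2037 D T h) (mem_cons (W9749 D T h) (mem_cons (W432 D T h) (mem_cons (W3193 D T h) (mem_cons (W1192 D T h) (mem_cons (W6968 D T h) mem_nil))))))))))))))))) cl2220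
theorem W9750 : WFK w9750 := fun D T h => wf_of_chk h mem_nil (mem_cons (L2220 D T h) mem_nil) cw9750
theorem W9751 : WFK w9751 := fun D T h => wf_of_chk h (mem_cons (W9410 D T h) (mem_cons (W16 D T h) mem_nil)) mem_nil cw9751
theorem L2221 : LFK l2221 := fun D T h => lf_of_chk h (mem_cons (W9721 D T h) (mem_cons (W3013 D T h) (mem_cons (W5721 D T h) (mem_cons (W3125 D T h) (mem_cons (W6956 D T h) (mem_cons (W5197 D T h) (mem_cons (W5177 D T h) (mem_cons (W9748 D T h) (mem_cons (W9750 D T h) (mem_cons (W667 D T h) (mem_cons (W9751 D T h) (mem_cons (W669 D T h) (mem_cons (W2015 D T h) (mem_cons (W9735 D T h) (mem_cons (W8233 D T h) (mem_cons (W9736 D T h) (mem_cons (W8449 D T h) (mem_cons (W9737 D T h) (mem_cons (W9738 D T h) (mem_cons (W9730 D T h) (mem_cons (W9731 D T h) (mem_cons (W9732 D T h) (mem_cons (W9739 D T h) (mem_cons (W9740 D T h) (mem_cons (W9745 D T h) (mem_cons (W9741 D T h) (mem_cons (W2037 D T h) (mem_cons (W16 D T h) (mem_cons (W7119 D T h) (mem_cons (W9722 D T h) (mem_cons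 (W9723 D T h) (mem_cons (W9733 D T h) (mem_cons (W8783 D T h) (mem_cons (W9734 D T h) (mem_cons (W5258 D T h) (mem_cons (W9724 D T h) (mem_cons (W9726 D T h) (mem_cons (W9727 D T h) (mem_cons (W128 D T h) (mem_cons (W9728 D T h) mem_nil)))))))))))))))))))))))))))))))))))))))) cl2221
theorem W9752 : WFK w9752 := fun D T h => wf_of_chk h mem_nil (mem_cons (L2221 D T h) mem_nil) cw9752
theorem W9753 : WFK w9753 := fun D T h => wf_of_chk h mem_nil (mem_cons (L1614 D T h) mem_nil) cw9753
theorem W9754 : WFK w9754 := fun D T h => wf_of_chk h mem_nil (mem_cons (L1832 D T h) mem_nil) cw9754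
theorem W9755 : WFK w9755 := fun D T h => wf_of_chk h mem_nil (mem_cons (L14 D T h) mem_nil) cw9755
theorem W9756 : WFK w9756 := fun D T h => wf_of_chk h mem_nil (mem_cons (L178 D T h) mem_nil) cw9756
theorem L2222 : LFK l2222 := fun D T h => lf_of_chk h (mem_cons (W7171 D T h) (mem_cons (W16 D T h) (mem_cons (W9755 D T h) (mem_cons (W9756 D T h) mem_nil)))) cl2222
theorem W9757 : WFK w9757 := fun D T h => wf_of_chk h mem_nil (mem_cons (L2222 D T h) mem_nil) cw9757
theorem W9758 : WFK w9758 := fun D T h => wf_of_chk h mem_nil (mem_cons (L878 D T h) mem_nil) cw9758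
theorem W9759 : WFK w9759 := fun D T h => wf_of_chk h mem_nil (mem_cons (L278 D T h) mem_nil) cw9759
theorem L2223 : LFK l2223 := fun D T h => lf_of_chk h (mem_cons (W1 D T h) (mem_cons (W162 D T h) (mem_cons (W158 D T h) (mem_cons (W91 D T h) (mem_cons (W4 D T h) (mem_cons (W33 D T h) (mem_cons (W6006 D T h) (mem_cons (W7 D T h) (mem_cons (W10 D T h) (mem_cons (W109 D T h) (mem_cons (W161 D T h) (mem_cons (W3421 D T h) (mem_cons (W1994 D T h) (mem_cons (W168 D T h) mem_nil)))))))))))))) cl2223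
theorem W9760 : WFK w9760 := fun D T h => wf_of_chk h mem_nil (mem_cons (L2223 D T h) mem_nil) cw9760
theorem L2224 : LFK l2224 := fun D T h => lf_of_chk h (mem_cons (W3878 D T h) (mem_cons (W16 D T h) (mem_cons (W126 D T h) (mem_cons (W368 D T h) (mem_cons (W1 D T h) (mem_cons (W1929 D T h) (mem_cons (W1386 D T h) (mem_cons (W2766 D T h) (mem_cons (W7528 D T h) (mem_cons (W5875 D T h) (mem_cons (W9759 D T h) (mem_cons (W9760 D T h) (mem_cons (W3409 D T h) (mem_cons (W2920 D T h) (mem_cons (W69 D T h) (mem_cons (W9754 D T h) (mem_cons (W9757 D T h) (mem_cons (W9758 D T h) mem_nil)))))))))))))))))) cl2224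
theorem W9761 : WFK w9761 := fun D T h => wf_of_chk h mem_nil (mem_cons (L2224 D T h) mem_nil) cw9761
theorem W9762 : WFK w9762 := fun D T h => wf_of_chk h mem_nil (mem_cons (L1031 D T h) mem_nil) cw9762
theorem L2225 : LFK l2225 := fun D T h => lf_of_chk h (mem_cons (W209 D T h) (mem_cons (W1166 D T h) (mem_cons (W2914 D T h) (mem_cons (W15 D T h) (mem_cons (W220 D T h) (mem_cons (W17 D T h) (mem_cons (W659 D T h) (mem_cons (W2919 D T h) (mem_cons (W4566 D T h) (mem_cons (W86 D T h) (mem_cons (W2554 D T h) (mem_cons (W2628 D T h) (mem_cons (W2629 D T h) (mem_cons (W2532 D T h) (mem_cons (W8380 D T h) (mem_cons (W9762 D T h) (mem_cons (W3212 D T h) (mem_cons (W270 D T h) (mem_cons (W8655 D T h) mem_nil))))))))))))))))))) cl2225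
theorem W9763 : WFK w9763 := fun D T h => wf_of_chk h mem_nil (mem_cons (L2225 D T h) mem_nil) cw9763
theorem W9764 : WFK w9764 := fun D T h => wf_of_chk h mem_nil (mem_cons (L2224 D T h) mem_nil) cw9764
theorem W9765 : WFK w9765 := fun D T h => wf_of_chk h (mem_cons (W126 D T h) (mem_cons (W2914 D T h) mem_nil)) mem_nil cw9765
theorem W9766 : WFK w9766 := fun D T h => wf_of_chk h mem_nil (mem_cons (L1183 D T h) mem_nil) cw9766
theorem W9767 : WFK w9767 := fun D T h => wf_of_chk h mem_nil (mem_cons (L2172 D T h) mem_nil) cw9767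
theorem W9768 : WFK w9768 := fun D T h => wf_of_chk h mem_nil (mem_cons (L1429 D T h) mem_nil) cw9768
theorem W9769 : WFK w9769 := fun D T h => wf_of_chk h mem_nil (mem_cons (L1183 D T h) mem_nil) cw9769
theorem L2226 : LFK l2226 := fun D T h => lf_of_chk h (mem_cons (W9766 D T h) (mem_cons (W1070 D T h) (mem_cons (W91 D T h) (mem_cons (W5780 D T h) (mem_cons (W9767 D T h) (mem_cons (W5158 D T h) (mem_cons (W3019 D T h) (mem_cons (W9768 D T h) (mem_cons (W3274 D T h) (mem_cons (W3276 D T h) (mem_cons (W9576 D T h) (mem_cons (W9769 D T h) mem_nil)))))))))))) cl2226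
theorem W9770 : WFK w9770 := fun D T h => wf_of_chk h mem_nil (mem_cons (L2226 D T h) mem_nil) cw9770
theorem L2227 : LFK l2227 := fun D T h => lf_of_chk h (mem_cons (W581 D T h) (mem_cons (W4209 D T h) (mem_cons (W368 D T h) (mem_cons (W1 D T h) (mem_cons (W141 D T h) (mem_cons (W1128 D T h) (mem_cons (W140 D T h) (mem_cons (W370 D T h) (mem_cons (W3274 D T h) (mem_cons (W5358 D T h) (mem_cons (W12 D T h) (mem_cons (W1070 D T h) (mem_cons (W160 D T h) (mem_cons (W747 D T h) (mem_cons (W871 D T h) (mem_cons (W255 D T h) mem_nil)))))))))))))))) cl2227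
theorem W9771 : WFK w9771 := fun D T h => wf_of_chk h mem_nil (mem_cons (L2227 D T h) mem_nil) cw9771
theorem W9773 : WFK w9773 := fun D T h => wf_of_chk h (mem_cons (W69 D T h) (mem_cons (W16 D T h) mem_nil)) mem_nil cw9773
theorem W9776 : WFK w9776 := fun D T h => wf_of_chk h (mem_cons (W4209 D T h) (mem_cons (W16 D T h) mem_nil)) mem_nil cw9776
theorem L2228 : LFK l2228 := fun D T h => lf_of_chk h (mem_cons (W915 D T h) (mem_cons (W210 D T h) (mem_cons (W802 D T h) (mem_cons (W33 D T h) (mem_cons (W1249 D T h) (mem_cons (W291 D T h) (mem_cons (W292 D T h) (mem_cons (W2766 D T h) (mem_cons (W914 D T h) (mem_cons (W431 D T h) (mem_cons (W3343 D T h) mem_nil))))))))))) cl2228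
theorem W9783 : WFK w9783 := fun D T h => wf_of_chk h mem_nil (mem_cons (L92 D T h) mem_nil) cw9783
theorem W9784 : WFK w9784 := fun D T h => wf_of_chk h (mem_cons (W396 D T h) (mem_cons (W16 D T h) mem_nil)) mem_nil cw9784
theorem W9785 : WFK w9785 := fun D T h => wf_of_chk h mem_nil (mem_cons (L2192 D T h) mem_nil) cw9785
theorem W9786 : WFK w9786 := fun D T h => wf_of_chk h (mem_cons (W112 D T h) mem_nil) mem_nil cw9786
theorem L2230 : LFK l2230 := fun D T h => lf_of_chk h (mem_cons (W3766 D T h) (mem_cons (W161 D T h) (mem_cons (W16 D T h) (mem_cons (W7777 D T h) (mem_cons (W3 D T h) (mem_cons (W39 D T h) (mem_cons (W401 D T h) (mem_cons (W9786 D T h) mem_nil)))))))) cl2230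
theorem W9787 : WFK w9787 := fun D T h => wf_of_chk h mem_nil (mem_cons (L2230 D T h) mem_nil) cw9787
theorem L2231 : LFK l2231 := fun D T h => lf_of_chk h (mem_cons (W3766 D T h) (mem_cons (W281 D T h) (mem_cons (W16 D T h) (mem_cons (W7777 D T h) (mem_cons (W3 D T h) (mem_cons (W39 D T h) (mem_cons (W401 D T h) (mem_cons (W267 D T h) (mem_cons (W91 D T h) (mem_cons (W436 D T h) (mem_cons (W1272 D T h) (mem_cons (W256 D T h) (mem_cons (W257 D T h) (mem_cons (W255 D T h) mem_nil)))))))))))))) cl2231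
theorem W9788 : WFK w9788 := fun D T h => wf_of_chk h mem_nil (mem_cons (L2231 D T h) mem_nil) cw9788
theorem L2232 : LFK l2232 := fun D T h => lf_of_chk h (mem_cons (W4209 D T h) (mem_cons (W1125 D T h) (mem_cons (W267 D T h) (mem_cons (W69 D T h) (mem_cons (W1 D T h) (mem_cons (W114 D T h) (mem_cons (W3565 D T h) (mem_cons (W557 D T h) (mem_cons (W16 D T h) (mem_cons (W9784 D T h) (mem_cons (W80 D T h) (mem_cons (W91 D T h) (mem_cons (W8105 D T h) (mem_cons (W4259 D T h) (mem_cons (W521 D T h) (mem_cons (W9785 D T h) (mem_cons (W9783 D T h) (mem_cons (W111 D T h) (mem_cons (W370 D T h) (mem_cons (W721 D T h) (mem_cons (W9787 D T h) (mem_cons (W9788 D T h) mem_nil)))))))))))))))))))))) cl2232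
theorem W9808 : WFK w9808 := fun D T h => wf_of_chk h (mem_cons (W86 D T h) (mem_cons (W112 D T h) mem_nil)) mem_nil cw9808
theorem W9809 : WFK w9809 := fun D T h => wf_of_chk h (mem_cons (W69 D T h) (mem_cons (W112 D T h) mem_nil)) mem_nil cw9809
theorem W9810 : WFK w9810 := fun D T h => wf_of_chk h (mem_cons (W96 D T h) (mem_cons (W112 D T h) mem_nil)) mem_nil cw9810
theorem W9811 : WFK w9811 := fun D T h => wf_of_chk h (mem_cons (W1709 D T h) (mem_cons (W112 D T h) mem_nil)) mem_nil cw9811
theorem W9812 : WFK w9812 := fun D T h => wf_of_chk h (mem_cons (W216 D T h) (mem_cons (W112 D T h) mem_nil)) mem_nil cw9812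
theorem W9813 : WFK w9813 := fun D T h => wf_of_chk h (mem_cons (W4641 D T h) (mem_cons (W112 D T h) mem_nil)) mem_nil cw9813
theorem W9814 : WFK w9814 := fun D T h => wf_of_chk h (mem_cons (W1825 D T h) (mem_cons (W112 D T h) mem_nil)) mem_nil cw9814
theorem W9815 : WFK w9815 := fun D T h => wf_of_chk h (mem_cons (W1577 D T h) mem_nil) mem_nil cw9815
theorem W9816 : WFK w9816 := fun D T h => wf_of_chk h mem_nil mem_nil cw9816
theorem W9817 : WFK w9817 := fun D T h => wf_of_chk h (mem_cons (W9816 D T h) mem_nil) mem_nil cw9817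
theorem W9818 : WFK w9818 := fun D T h => wf_of_chk h (mem_cons (W971 D T h) (mem_cons (W86 D T h) mem_nil)) mem_nil cw9818
theorem W9819 : WFK w9819 := fun D T h => wf_of_chk h (mem_cons (W78 D T h) (mem_cons (W86 D T h) mem_nil)) mem_nil cw9819
theorem W9820 : WFK w9820 := fun D T h => wf_of_chk h (mem_cons (W8839 D T h) (mem_cons (W86 D T h) mem_nil)) mem_nil cw9820
theorem W9821 : WFK w9821 := fun D T h => wf_of_chk h (mem_cons (W78 D T h) (mem_cons (W86 D T h) mem_nil)) mem_nil cw9821
theorem L2235 : LFK l2235 := fun D T h => lf_of_chk h (mem_cons (W86 D T h) (mem_cons (W1070 D T h) mem_nil)) cl2235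
theorem W9822 : WFK w9822 := fun D T h => wf_of_chk h mem_nil (mem_cons (L2235 D T h) mem_nil) cw9822
theorem W9823 : WFK w9823 := fun D T h => wf_of_chk h (mem_cons (W86 D T h) mem_nil) mem_nil cw9823
theorem W9824 : WFK w9824 := fun D T h => wf_of_chk h (mem_cons (W4784 D T h) mem_nil) mem_nil cw9824
theorem L2236 : LFK l2236 := fun D T h => lf_of_chk h (mem_cons (W9808 D T h) (mem_cons (W4844 D T h) (mem_cons (W9809 D T h) (mem_cons (W554 D T h) (mem_cons (W621 D T h) (mem_cons (W86 D T h) (mem_cons (W161 D T h) (mem_cons (W112 D T h) (mem_cons (W4038 D T h) (mem_cons (W9822 D T h) (mem_cons (W9823 D T h) (mem_cons (W111 D T h) (mem_cons (W370 D T h) (mem_cons (W1409 D T h) (mem_cons (W401 D T h) (mem_cons (W4459 D T h) (mem_cons (W9824 D T h) (mem_cons (W9817 D T h) (mem_cons (W971 D T h) (mem_cons (W3019 D T h) (mem_cons (W9818 D T h) (mem_cons (W8076 D T h) (mem_cons (W9819 D T h) (mem_cons (W9820 D T h) (mem_cons (W9821 D T h) (mem_cons (W8069 D T h) (mem_cons (W9815 D T h) (mem_cons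 (W1647 D T h) (mem_cons (W9810 D T h) (mem_cons (W9811 D T h) (mem_cons (W9812 D T h) (mem_cons (W1070 D T h) (mem_cons (W9813 D T h) (mem_cons (W9814 D T h) mem_nil)))))))))))))))))))))))))))))))))) cl2236
theorem W9830 : WFK w9830 := fun D T h => wf_of_chk h mem_nil (mem_cons (L542 D T h) mem_nil) cw9830
theorem L2247 : LFK l2247 := fun D T h => lf_of_chk h (mem_cons (W193 D T h) (mem_cons (W2355 D T h) (mem_cons (W25 D T h) mem_nil))) cl2247
theorem W9858 : WFK w9858 := fun D T h => wf_of_chk h (mem_cons (W667 D T h) mem_nil) mem_nil cw9858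
theorem W9859 : WFK w9859 := fun D T h => wf_of_chk h (mem_cons (W669 D T h) mem_nil) mem_nil cw9859
theorem W9860 : WFK w9860 := fun D T h => wf_of_chk h (mem_cons (W50 D T h) mem_nil) mem_nil cw9860
theorem W9861 : WFK w9861 := fun D T h => wf_of_chk h mem_nil (mem_cons (L1392 D T h) mem_nil) cw9861
theorem L2256 : LFK l2256 := fun D T h => lf_of_chk h (mem_cons (W91 D T h) (mem_cons (W831 D T h) (mem_cons (W211 D T h) (mem_cons (W2204 D T h) (mem_cons (W802 D T h) (mem_cons (W7171 D T h) (mem_cons (W3153 D T h) (mem_cons (W265 D T h) (mem_cons (W817 D T h) (mem_cons (W878 D T h) mem_nil)))))))))) cl2256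
theorem W9898 : WFK w9898 := fun D T h => wf_of_chk h mem_nil (mem_cons (L2256 D T h) mem_nil) cw9898
theorem W9899 : WFK w9899 := fun D T h => wf_of_chk h mem_nil (mem_cons (L184 D T h) mem_nil) cw9899
theorem L2257 : LFK l2257 := fun D T h => lf_of_chk h (mem_cons (W831 D T h) mem_nil) cl2257
theorem W9900 : WFK w9900 := fun D T h => wf_of_chk h mem_nil (mem_cons (L2257 D T h) mem_nil) cw9900
theorem L2258 : LFK l2258 := fun D T h => lf_of_chk h (mem_cons (W851 D T h) (mem_cons (W3 D T h) (mem_cons (W831 D T h) (mem_cons (W142 D T h) (mem_cons (W9900 D T h) (mem_cons (W9898 D T h) (mem_cons (W2766 D T h) (mem_cons (W5491 D T h) (mem_cons (W1325 D T h) (mem_cons (W4607 D T h) (mem_cons (W9899 D T h) (mem_cons (W1172 D T h) (mem_cons (W33 D T h) (mem_cons (W5841 D T h) mem_nil)))))))))))))) cl2258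
theorem W9901 : WFK w9901 := fun D T h => wf_of_chk h mem_nil (mem_cons (L2258 D T h) mem_nil) cw9901
theorem L2259 : LFK l2259 := fun D T h => lf_of_chk h (mem_cons (W194 D T h) (mem_cons (W32 D T h) (mem_cons (W4 D T h) (mem_cons (W831 D T h) (mem_cons (W43 D T h) (mem_cons (W224 D T h) mem_nil)))))) cl2259
theorem W9902 : WFK w9902 := fun D T h => wf_of_chk h mem_nil (mem_cons (L2259 D T h) mem_nil) cw9902
theorem W9903 : WFK w9903 := fun D T h => wf_of_chk h mem_nil (mem_cons (L2134 D T h) mem_nil) cw9903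
theorem L2260 : LFK l2260 := fun D T h => lf_of_chk h (mem_cons (W831 D T h) (mem_cons (W32 D T h) (mem_cons (W602 D T h) (mem_cons (W830 D T h) mem_nil)))) cl2260
theorem W9904 : WFK w9904 := fun D T h => wf_of_chk h mem_nil (mem_cons (L2260 D T h) mem_nil) cw9904
theorem W9905 : WFK w9905 := fun D T h => wf_of_chk h mem_nil (mem_cons (L836 D T h) mem_nil) cw9905
theorem W9906 : WFK w9906 := fun D T h => wf_of_chk h mem_nil (mem_cons (L2247 D T h) mem_nil) cw9906
theorem W9907 : WFK w9907 := fun D T h => wf_of_chk h mem_nil (mem_cons (L2140 D T h) mem_nil) cw9907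
theorem L2261 : LFK l2261 := fun D T h => lf_of_chk h (mem_cons (W141 D T h) (mem_cons (W11 D T h) (mem_cons (W784 D T h) (mem_cons (W281 D T h) (mem_cons (W830 D T h) (mem_cons (W9907 D T h) (mem_cons (W1400 D T h) (mem_cons (W501 D T h) (mem_cons (W1673 D T h) (mem_cons (W1143 D T h) (mem_cons (W603 D T h) (mem_cons (W861 D T h) (mem_cons (W1944 D T h) (mem_cons (W814 D T h) (mem_cons (W7775 D T h) mem_nil))))))))))))))) cl2261
theorem W9908 : WFK w9908 := fun D T h => wf_of_chk h mem_nil (mem_cons (L2261 D T h) mem_nil) cw9908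
theorem W9909 : WFK w9909 := fun D T h => wf_of_chk h mem_nil (mem_cons (L1212 D T h) mem_nil) cw9909
theorem L2263 : LFK l2263 := fun D T h => lf_of_chk h (mem_cons (W91 D T h) (mem_cons (W2204 D T h) (mem_cons (W8 D T h) (mem_cons (W619 D T h) (mem_cons (W7171 D T h) (mem_cons (W3153 D T h) (mem_cons (W878 D T h) (mem_cons (W265 D T h) (mem_cons (W817 D T h) mem_nil))))))))) cl2263
theorem W9912 : WFK w9912 := fun D T h => wf_of_chk h mem_nil (mem_cons (L2263 D T h) mem_nil) cw9912
theorem L2266 : LFK l2266 := fun D T h => lf_of_chk h (mem_cons (W9912 D T h) (mem_cons (W11 D T h) (mem_cons (W7408 D T h) (mem_cons (W91 D T h) (mem_cons (W4347 D T h) (mem_cons (W1120 D T h) (mem_cons (W830 D T h) (mem_cons (W9909 D T h) (mem_cons (W861 D T h) (mem_cons (W1944 D T h) mem_nil)))))))))) cl2266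
theorem W9917 : WFK w9917 := fun D T h => wf_of_chk h (mem_cons (W16 D T h) (mem_cons (W642 D T h) mem_nil)) mem_nil cw9917
theorem L2267 : LFK l2267 := fun D T h => lf_of_chk h (mem_cons (W830 D T h) (mem_cons (W63 D T h) (mem_cons (W8 D T h) (mem_cons (W2204 D T h) (mem_cons (W852 D T h) mem_nil))))) cl2267
theorem W9918 : WFK w9918 := fun D T h => wf_of_chk h mem_nil (mem_cons (L2267 D T h) mem_nil) cw9918
theorem L2268 : LFK l2268 := fun D T h => lf_of_chk h (mem_cons (W91 D T h) (mem_cons (W4556 D T h) (mem_cons (W4 D T h) (mem_cons (W33 D T h) (mem_cons (W8 D T h) (mem_cons (W2204 D T h) (mem_cons (W802 D T h) (mem_cons (W619 D T h) (mem_cons (W675 D T h) (mem_cons (W3153 D T h) (mem_cons (W265 D T h) (mem_cons (W878 D T h) (mem_cons (W817 D T h) mem_nil))))))))))))) cl2268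
theorem W9919 : WFK w9919 := fun D T h => wf_of_chk h mem_nil (mem_cons (L2268 D T h) mem_nil) cw9919
theorem W9920 : WFK w9920 := fun D T h => wf_of_chk h (mem_cons (W642 D T h) mem_nil) mem_nil cw9920
theorem W9921 : WFK w9921 := fun D T h => wf_of_chk h (mem_cons (W220 D T h) (mem_cons (W642 D T h) mem_nil)) mem_nil cw9921
theorem L2269 : LFK l2269 := fun D T h => lf_of_chk h (mem_cons (W91 D T h) (mem_cons (W4782 D T h) (mem_cons (W4 D T h) (mem_cons (W33 D T h) (mem_cons (W802 D T h) (mem_cons (W831 D T h) (mem_cons (W7171 D T h) (mem_cons (W3153 D T h) (mem_cons (W265 D T h) (mem_cons (W878 D T h) (mem_cons (W817 D T h) mem_nil))))))))))) cl2269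
theorem W9922 : WFK w9922 := fun D T h => wf_of_chk h mem_nil (mem_cons (L2269 D T h) mem_nil) cw9922
theorem W9923 : WFK w9923 := fun D T h => wf_of_chk h (mem_cons (W667 D T h) (mem_cons (W642 D T h) mem_nil)) mem_nil cw9923
theorem W9924 : WFK w9924 := fun D T h => wf_of_chk h (mem_cons (W50 D T h) (mem_cons (W642 D T h) mem_nil)) mem_nil cw9924
theorem W9925 : WFK w9925 := fun D T h => wf_of_chk h (mem_cons (W50 D T h) (mem_cons (W642 D T h) mem_nil)) mem_nil cw9925
theorem W9926 : WFK w9926 := fun D T h => wf_of_chk h (mem_cons (W1296 D T h) (mem_cons (W16 D T h) mem_nil)) mem_nil cw9926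
theorem L2270 : LFK l2270 := fun D T h => lf_of_chk h (mem_cons (W91 D T h) (mem_cons (W9706 D T h) (mem_cons (W4 D T h) (mem_cons (W33 D T h) (mem_cons (W802 D T h) (mem_cons (W831 D T h) (mem_cons (W7171 D T h) (mem_cons (W3153 D T h) (mem_cons (W265 D T h) (mem_cons (W878 D T h) (mem_cons (W817 D T h) mem_nil))))))))))) cl2270
theorem W9927 : WFK w9927 := fun D T h => wf_of_chk h mem_nil (mem_cons (L2270 D T h) mem_nil) cw9927
theorem W9928 : WFK w9928 := fun D T h => wf_of_chk h (mem_cons (W162 D T h) (mem_cons (W642 D T h) mem_nil)) mem_nil cw9928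
theorem W9929 : WFK w9929 := fun D T h => wf_of_chk h (mem_cons (W3274 D T h) (mem_cons (W16 D T h) mem_nil)) mem_nil cw9929
theorem W9930 : WFK w9930 := fun D T h => wf_of_chk h mem_nil (mem_cons (L2266 D T h) mem_nil) cw9930
theorem W9931 : WFK w9931 := fun D T h => wf_of_chk h (mem_cons (W140 D T h) (mem_cons (W16 D T h) mem_nil)) mem_nil cw9931
theorem L2271 : LFK l2271 := fun D T h => lf_of_chk h (mem_cons (W9917 D T h) (mem_cons (W1311 D T h) (mem_cons (W91 D T h) (mem_cons (W9906 D T h) (mem_cons (W178 D T h) (mem_cons (W632 D T h) (mem_cons (W9904 D T h) (mem_cons (W642 D T h) (mem_cons (W9918 D T h) (mem_cons (W2015 D T h) (mem_cons (W9927 D T h) (mem_cons (W9928 D T h) (mem_cons (W8783 D T h) (mem_cons (W2037 D T h) (mem_cons (W9919 D T h) (mem_cons (W9920 D T h) (mem_cons (W128 D T h) (mem_cons (W9921 D T h) (mem_cons (W9922 D T h) (mem_cons (W9923 D T h) (mem_cons (W9924 D T h) (mem_cons (W9925 D T h) (mem_cons (W2378 D T h) (mem_cons (W1184 D T h) (mem_cons (W4025 D T h)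 (mem_cons (W5211 D T h) (mem_cons (W9926 D T h) (mem_cons (W3855 D T h) (mem_cons (W9929 D T h) (mem_cons (W9930 D T h) (mem_cons (W9908 D T h) (mem_cons (W9931 D T h) mem_nil)))))))))))))))))))))))))))))))) cl2271
theorem W9932 : WFK w9932 := fun D T h => wf_of_chk h mem_nil (mem_cons (L2271 D T h) mem_nil) cw9932
theorem L2272 : LFK l2272 := fun D T h => lf_of_chk h (mem_cons (W91 D T h) (mem_cons (W2204 D T h) (mem_cons (W193 D T h) (mem_cons (W619 D T h) (mem_cons (W1101 D T h) (mem_cons (W5936 D T h) (mem_cons (W5934 D T h) (mem_cons (W5933 D T h) mem_nil)))))))) cl2272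
theorem W9933 : WFK w9933 := fun D T h => wf_of_chk h mem_nil (mem_cons (L2272 D T h) mem_nil) cw9933
theorem L2273 : LFK l2273 := fun D T h => lf_of_chk h (mem_cons (W814 D T h) (mem_cons (W1101 D T h) (mem_cons (W861 D T h) (mem_cons (W4323 D T h) (mem_cons (W224 D T h) (mem_cons (W9933 D T h) (mem_cons (W4036 D T h) (mem_cons (W1739 D T h) (mem_cons (W91 D T h) (mem_cons (W4326 D T h) mem_nil)))))))))) cl2273
theorem W9934 : WFK w9934 := fun D T h => wf_of_chk h mem_nil (mem_cons (L2273 D T h) mem_nil) cw9934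
theorem W9935 : WFK w9935 := fun D T h => wf_of_chk h mem_nil (mem_cons (L1457 D T h) mem_nil) cw9935
theorem W9936 : WFK w9936 := fun D T h => wf_of_chk h mem_nil (mem_cons (L2261 D T h) mem_nil) cw9936
theorem L2274 : LFK l2274 := fun D T h => lf_of_chk h (mem_cons (W9451 D T h) (mem_cons (W181 D T h) (mem_cons (W91 D T h) (mem_cons (W808 D T h) (mem_cons (W224 D T h) (mem_cons (W9902 D T h) (mem_cons (W814 D T h) (mem_cons (W9206 D T h) (mem_cons (W5814 D T h) (mem_cons (W9903 D T h) (mem_cons (W632 D T h) (mem_cons (W9904 D T h) (mem_cons (W642 D T h) (mem_cons (W9905 D T h) (mem_cons (W9932 D T h) (mem_cons (W9934 D T h) (mem_cons (W3855 D T h) (mem_cons (W5409 D T h) (mem_cons (W6394 D T h) (mem_cons (W219 D T h) (mem_cons (W9935 D T h) (mem_cons (W9936 D T h) mem_nil)))))))))))))))))))))) cl2274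
theorem W9937 : WFK w9937 := fun D T h => wf_of_chk h mem_nil (mem_cons (L2274 D T h) mem_nil) cw9937
theorem L2275 : LFK l2275 := fun D T h => lf_of_chk h (mem_cons (W261 D T h) (mem_cons (W219 D T h) (mem_cons (W170 D T h) (mem_cons (W15 D T h) (mem_cons (W915 D T h) (mem_cons (W3024 D T h) (mem_cons (W5157 D T h) (mem_cons (W1554 D T h) (mem_cons (W3193 D T h) (mem_cons (W5673 D T h) (mem_cons (W3195 D T h) mem_nil))))))))))) cl2275
theorem W9939 : WFK w9939 := fun D T h => wf_of_chk h mem_nil (mem_cons (L2275 D T h) mem_nil) cw9939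
theorem L2276 : LFK l2276 := fun D T h => lf_of_chk h (mem_cons (W1330 D T h) (mem_cons (W2922 D T h) (mem_cons (W15 D T h) (mem_cons (W218 D T h) (mem_cons (W193 D T h) (mem_cons (W3679 D T h) (mem_cons (W141 D T h) (mem_cons (W1707 D T h) (mem_cons (W3681 D T h) (mem_cons (W3682 D T h) (mem_cons (W3680 D T h) (mem_cons (W3683 D T h) (mem_cons (W830 D T h) (mem_cons (W3684 D T h) (mem_cons (W3685 D T h) mem_nil))))))))))))))) cl2276
theorem W9943 : WFK w9943 := fun D T h => wf_of_chk h mem_nil (mem_cons (L2276 D T h) mem_nil) cw9943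
theorem W9945 : WFK w9945 := fun D T h => wf_of_chk h (mem_cons (W220 D T h) mem_nil) mem_nil cw9945
theorem L2277 : LFK l2277 := fun D T h => lf_of_chk h (mem_cons (W128 D T h) (mem_cons (W15 D T h) (mem_cons (W4038 D T h) (mem_cons (W1064 D T h) (mem_cons (W219 D T h) (mem_cons (W1166 D T h) (mem_cons (W581 D T h) (mem_cons (W5655 D T h) (mem_cons (W8397 D T h) (mem_cons (W1192 D T h) mem_nil)))))))))) cl2277
theorem W9959 : WFK w9959 := fun D T h => wf_of_chk h mem_nil (mem_cons (L2277 D T h) mem_nil) cw9959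
theorem W9960 : WFK w9960 := fun D T h => wf_of_chk h mem_nil (mem_cons (L2277 D T h) mem_nil) cw9960
theorem W9961 : WFK w9961 := fun D T h => wf_of_chk h (mem_cons (W69 D T h) (mem_cons (W112 D T h) mem_nil)) mem_nil cw9961
theorem W9962 : WFK w9962 := fun D T h => wf_of_chk h (mem_cons (W105 D T h) (mem_cons (W112 D T h) mem_nil)) mem_nil cw9962
theorem W9963 : WFK w9963 := fun D T h => wf_of_chk h (mem_cons (W519 D T h) (mem_cons (W112 D T h) mem_nil)) mem_nil cw9963
theorem W9964 : WFK w9964 := fun D T h => wf_of_chk h (mem_cons (W220 D T h) (mem_cons (W621 D T h) mem_nil)) mem_nil cw9964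
theorem W9965 : WFK w9965 := fun D T h => wf_of_chk h (mem_cons (W220 D T h) (mem_cons (W554 D T h) mem_nil)) mem_nil cw9965
theorem W9966 : WFK w9966 := fun D T h => wf_of_chk h (mem_cons (W230 D T h) (mem_cons (W112 D T h) mem_nil)) mem_nil cw9966
theorem W9967 : WFK w9967 := fun D T h => wf_of_chk h (mem_cons (W740 D T h) (mem_cons (W16 D T h) mem_nil)) mem_nil cw9967
theorem W9968 : WFK w9968 := fun D T h => wf_of_chk h mem_nil (mem_cons (L2236 D T h) mem_nil) cw9968
theorem W9969 : WFK w9969 := fun D T h => wf_of_chk h (mem_cons (W162 D T h) (mem_cons (W554 D T h) mem_nil)) mem_nil cw9969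
theorem W9970 : WFK w9970 := fun D T h => wf_of_chk h (mem_cons (W1829 D T h) (mem_cons (W230 D T h) mem_nil)) mem_nil cw9970
theorem W9971 : WFK w9971 := fun D T h => wf_of_chk h (mem_cons (W8839 D T h) (mem_cons (W144 D T h) mem_nil)) mem_nil cw9971
theorem W9972 : WFK w9972 := fun D T h => wf_of_chk h (mem_cons (W6725 D T h) (mem_cons (W230 D T h) mem_nil)) mem_nil cw9972
theorem W9973 : WFK w9973 := fun D T h => wf_of_chk h (mem_cons (W7777 D T h) (mem_cons (W16 D T h) mem_nil)) mem_nil cw9973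
theorem L2278 : LFK l2278 := fun D T h => lf_of_chk h (mem_cons (W6073 D T h) (mem_cons (W535 D T h) (mem_cons (W144 D T h) (mem_cons (W112 D T h) (mem_cons (W161 D T h) (mem_cons (W16 D T h) (mem_cons (W621 D T h) (mem_cons (W9961 D T h) (mem_cons (W4844 D T h) (mem_cons (W9809 D T h) (mem_cons (W9968 D T h) (mem_cons (W2015 D T h) (mem_cons (W2037 D T h) (mem_cons (W2439 D T h) (mem_cons (W9969 D T h) (mem_cons (W8783 D T h) (mem_cons (W521 D T h) (mem_cons (W9962 D T h) (mem_cons (W519 D T h) (mem_cons (W9963 D T h) (mem_cons (W9964 D T h) (mem_cons (W128 D T h) (mem_cons (W5952 D T h) (mem_cons (W9965 D T h) (mem_cons (W9966 D T h) (mem_cons (W8069 D T h) (mem_cons (W5662 D T h) (mem_cons (W9967 D T h) (mem_cons (W9973 D T h) (mem_cons (W3356 D T h) (mem_cons (W540 D T h) (mem_cons (W971 D T h) (mem_cons (W3019 D T h) (mem_cons (W4829 D T h) (mem_cons (W9970 D T h) (mem_cons (W9971 D T h) (mem_cons (W9972 D T h) (mem_cons (W552 D T h) (mem_cons (W553 D T h) mem_nil)))))))))))))))))))))))))))))))))))))))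 cl2278
theorem W9974 : WFK w9974 := fun D T h => wf_of_chk h mem_nil (mem_cons (L2278 D T h) mem_nil) cw9974
theorem L2279 : LFK l2279 := fun D T h => lf_of_chk h (mem_cons (W1192 D T h) (mem_cons (W154 D T h) (mem_cons (W4038 D T h) (mem_cons (W1189 D T h) (mem_cons (W798 D T h) (mem_cons (W9974 D T h) (mem_cons (W1124 D T h) (mem_cons (W581 D T h) (mem_cons (W1193 D T h) (mem_cons (W1195 D T h) (mem_cons (W1194 D T h) (mem_cons (W1166 D T h) (mem_cons (W4025 D T h) (mem_cons (W1196 D T h) (mem_cons (W1106 D T h) (mem_cons (W747 D T h) (mem_cons (W1190 D T h) (mem_cons (W1191 D T h) (mem_cons (W1138 D T h) mem_nil))))))))))))))))))) cl2279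
theorem W9975 : WFK w9975 := fun D T h => wf_of_chk h mem_nil (mem_cons (L2279 D T h) mem_nil) cw9975
theorem W9976 : WFK w9976 := fun D T h => wf_of_chk h mem_nil (mem_cons (L2277 D T h) mem_nil) cw9976
theorem L2280 : LFK l2280 := fun D T h => lf_of_chk h (mem_cons (W1179 D T h) (mem_cons (W126 D T h) (mem_cons (W1178 D T h) (mem_cons (W675 D T h) (mem_cons (W814 D T h) (mem_cons (W1841 D T h) (mem_cons (W9182 D T h) (mem_cons (W3031 D T h) (mem_cons (W8039 D T h) (mem_cons (W520 D T h) (mem_cons (W12 D T h) (mem_cons (W3274 D T h) mem_nil)))))))))))) cl2280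
theorem W9977 : WFK w9977 := fun D T h => wf_of_chk h mem_nil (mem_cons (L2280 D T h) mem_nil) cw9977
theorem L2281 : LFK l2281 := fun D T h => lf_of_chk h (mem_cons (W128 D T h) (mem_cons (W15 D T h) (mem_cons (W1319 D T h) (mem_cons (W1064 D T h) (mem_cons (W219 D T h) (mem_cons (W8105 D T h) (mem_cons (W4038 D T h) (mem_cons (W581 D T h) (mem_cons (W5655 D T h) (mem_cons (W8397 D T h) (mem_cons (W1192 D T h) mem_nil))))))))))) cl2281
theorem W9978 : WFK w9978 := fun D T h => wf_of_chk h mem_nil (mem_cons (L2281 D T h) mem_nil) cw9978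
theorem W9979 : WFK w9979 := fun D T h => wf_of_chk h (mem_cons (W521 D T h) (mem_cons (W16 D T h) mem_nil)) mem_nil cw9979
theorem W9980 : WFK w9980 := fun D T h => wf_of_chk h mem_nil (mem_cons (L1179 D T h) mem_nil) cw9980
theorem L2282 : LFK l2282 := fun D T h => lf_of_chk h (mem_cons (W848 D T h) (mem_cons (W1075 D T h) (mem_cons (W4 D T h) (mem_cons (W33 D T h) (mem_cons (W844 D T h) (mem_cons (W7 D T h) (mem_cons (W1072 D T h) (mem_cons (W2572 D T h) (mem_cons (W4036 D T h) (mem_cons (W142 D T h) (mem_cons (W845 D T h) (mem_cons (W4189 D T h) (mem_cons (W1739 D T h) (mem_cons (W3856 D T h) (mem_cons (W1076 D T h) mem_nil))))))))))))))) cl2282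
theorem W9981 : WFK w9981 := fun D T h => wf_of_chk h mem_nil (mem_cons (L2282 D T h) mem_nil) cw9981
theorem W9985 : WFK w9985 := fun D T h => wf_of_chk h mem_nil (mem_cons (L296 D T h) mem_nil) cw9985
theorem W9986 : WFK w9986 := fun D T h => wf_of_chk h mem_nil (mem_cons (L1326 D T h) mem_nil) cw9986
theorem W9989 : WFK w9989 := fun D T h => wf_of_chk h (mem_cons (W16 D T h) (mem_cons (W814 D T h) mem_nil)) mem_nil cw9989
theorem W9990 : WFK w9990 := fun D T h => wf_of_chk h mem_nil (mem_cons (L2105 D T h) mem_nil) cw9990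
theorem L2283 : LFK l2283 := fun D T h => lf_of_chk h (mem_cons (W833 D T h) (mem_cons (W30 D T h) (mem_cons (W4 D T h) (mem_cons (W7 D T h) mem_nil)))) cl2283
theorem W9994 : WFK w9994 := fun D T h => wf_of_chk h mem_nil (mem_cons (L2283 D T h) mem_nil) cw9994
theorem L2284 : LFK l2284 := fun D T h => lf_of_chk h (mem_cons (W915 D T h) (mem_cons (W210 D T h) (mem_cons (W2766 D T h) (mem_cons (W840 D T h) mem_nil)))) cl2284
theorem W9997 : WFK w9997 := fun D T h => wf_of_chk h mem_nil (mem_cons (L2284 D T h) mem_nil) cw9997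
theorem L2285 : LFK l2285 := fun D T h => lf_of_chk h (mem_cons (W2766 D T h) (mem_cons (W4 D T h) (mem_cons (W832 D T h) (mem_cons (W5510 D T h) (mem_cons (W841 D T h) mem_nil))))) cl2285
theorem W9999 : WFK w9999 := fun D T h => wf_of_chk h mem_nil (mem_cons (L2285 D T h) mem_nil) cw9999
theorem W10003 : WFK w10003 := fun D T h => wf_of_chk h mem_nil (mem_cons (L25 D T h) mem_nil) cw10003
theorem W10010 : WFK w10010 := fun D T h => wf_of_chk h mem_nil (mem_cons (L150 D T h) mem_nil) cw10010
theorem W10012 : WFK w10012 := fun D T h => wf_of_chk h mem_nil (mem_cons (L2284 D T h) mem_nil) cw10012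
theorem L2290 : LFK l2290 := fun D T h => lf_of_chk h (mem_cons (W864 D T h) (mem_cons (W96 D T h) (mem_cons (W807 D T h) (mem_cons (W5537 D T h) (mem_cons (W805 D T h) mem_nil))))) cl2290
theorem W10025 : WFK w10025 := fun D T h => wf_of_chk h (mem_cons (W16 D T h) (mem_cons (W603 D T h) mem_nil)) mem_nil cw10025
theorem W10029 : WFK w10029 := fun D T h => wf_of_chk h mem_nil (mem_cons (L430 D T h) mem_nil) cw10029
theorem L2298 : LFK l2298 := fun D T h => lf_of_chk h (mem_cons (W5606 D T h) (mem_cons (W832 D T h) (mem_cons (W10029 D T h) (mem_cons (W9366 D T h) mem_nil)))) cl2298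
theorem L2299 : LFK l2299 := fun D T h => lf_of_chk h mem_nil cl2299
theorem L2302 : LFK l2302 := fun D T h => lf_of_chk h (mem_cons (W432 D T h) (mem_cons (W158 D T h) (mem_cons (W91 D T h) (mem_cons (W2764 D T h) (mem_cons (W915 D T h) (mem_cons (W3024 D T h) (mem_cons (W1473 D T h) (mem_cons (W1120 D T h) (mem_cons (W1563 D T h) mem_nil))))))))) cl2302
theorem W10043 : WFK w10043 := fun D T h => wf_of_chk h mem_nil (mem_cons (L2302 D T h) mem_nil) cw10043
theorem W10044 : WFK w10044 := fun D T h => wf_of_chk h mem_nil (mem_cons (L2302 D T h) mem_nil) cw10044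
theorem W10045 : WFK w10045 := fun D T h => wf_of_chk h mem_nil (mem_cons (L2302 D T h) mem_nil) cw10045
theorem W10049 : WFK w10049 := fun D T h => wf_of_chk h (mem_cons (W16 D T h) (mem_cons (W3274 D T h) mem_nil)) mem_nil cw10049
theorem W10050 : WFK w10050 := fun D T h => wf_of_chk h mem_nil (mem_cons (L203 D T h) mem_nil) cw10050
theorem L2306 : LFK l2306 := fun D T h => lf_of_chk h (mem_cons (W281 D T h) (mem_cons (W2385 D T h) (mem_cons (W865 D T h) (mem_cons (W192 D T h) (mem_cons (W3760 D T h) (mem_cons (W1086 D T h) (mem_cons (W173 D T h) (mem_cons (W10 D T h) (mem_cons (W831 D T h) (mem_cons (W315 D T h) (mem_cons (W2766 D T h) mem_nil))))))))))) cl2306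
theorem W10051 : WFK w10051 := fun D T h => wf_of_chk h mem_nil (mem_cons (L2306 D T h) mem_nil) cw10051
theorem W10052 : WFK w10052 := fun D T h => wf_of_chk h (mem_cons (W220 D T h) (mem_cons (W3274 D T h) mem_nil)) mem_nil cw10052
theorem W10053 : WFK w10053 := fun D T h => wf_of_chk h (mem_cons (W220 D T h) (mem_cons (W3274 D T h) mem_nil)) mem_nil cw10053
theorem L2307 : LFK l2307 := fun D T h => lf_of_chk h (mem_cons (W2766 D T h) (mem_cons (W139 D T h) (mem_cons (W817 D T h) (mem_cons (W33 D T h) (mem_cons (W7 D T h) (mem_cons (W1075 D T h) (mem_cons (W161 D T h) (mem_cons (W10 D T h) (mem_cons (W109 D T h) (mem_cons (W831 D T h) (mem_cons (W7171 D T h) mem_nil))))))))))) cl2307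
theorem W10054 : WFK w10054 := fun D T h => wf_of_chk h mem_nil (mem_cons (L2307 D T h) mem_nil) cw10054
theorem W10055 : WFK w10055 := fun D T h => wf_of_chk h mem_nil (mem_cons (L38 D T h) mem_nil) cw10055
theorem L2308 : LFK l2308 := fun D T h => lf_of_chk h (mem_cons (W2766 D T h) (mem_cons (W10055 D T h) (mem_cons (W817 D T h) (mem_cons (W33 D T h) (mem_cons (W7 D T h) (mem_cons (W1075 D T h) (mem_cons (W161 D T h) (mem_cons (W10 D T h) (mem_cons (W109 D T h) (mem_cons (W831 D T h) (mem_cons (W7171 D T h) mem_nil))))))))))) cl2308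
theorem W10056 : WFK w10056 := fun D T h => wf_of_chk h mem_nil (mem_cons (L2308 D T h) mem_nil) cw10056
theorem L2309 : LFK l2309 := fun D T h => lf_of_chk h (mem_cons (W831 D T h) (mem_cons (W5837 D T h) (mem_cons (W4585 D T h) (mem_cons (W32 D T h) mem_nil)))) cl2309
theorem W10057 : WFK w10057 := fun D T h => wf_of_chk h mem_nil (mem_cons (L2309 D T h) mem_nil) cw10057
theorem W10058 : WFK w10058 := fun D T h => wf_of_chk h mem_nil (mem_cons (L715 D T h) mem_nil) cw10058
theorem W10059 : WFK w10059 := fun D T h => wf_of_chk h mem_nil (mem_cons (L1598 D T h) mem_nil) cw10059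
theorem W10060 : WFK w10060 := fun D T h => wf_of_chk h (mem_cons (W2684 D T h) (mem_cons (W16 D T h) mem_nil)) mem_nil cw10060
theorem W10061 : WFK w10061 := fun D T h => wf_of_chk h (mem_cons (W1616 D T h) (mem_cons (W16 D T h) mem_nil)) mem_nil cw10061
theorem W10062 : WFK w10062 := fun D T h => wf_of_chk h (mem_cons (W34 D T h) (mem_cons (W228 D T h) mem_nil)) mem_nil cw10062
theorem W10063 : WFK w10063 := fun D T h => wf_of_chk h (mem_cons (W162 D T h) (mem_cons (W3274 D T h) mem_nil)) mem_nil cw10063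
theorem W10064 : WFK w10064 := fun D T h => wf_of_chk h (mem_cons (W5596 D T h) (mem_cons (W16 D T h) mem_nil)) mem_nil cw10064
theorem W10065 : WFK w10065 := fun D T h => wf_of_chk h (mem_cons (W9182 D T h) (mem_cons (W16 D T h) mem_nil)) mem_nil cw10065
theorem L2310 : LFK l2310 := fun D T h => lf_of_chk h (mem_cons (W10049 D T h) (mem_cons (W178 D T h) (mem_cons (W179 D T h) (mem_cons (W4400 D T h) (mem_cons (W2520 D T h) (mem_cons (W10064 D T h) (mem_cons (W16 D T h) (mem_cons (W10025 D T h) (mem_cons (W10065 D T h) (mem_cons (W228 D T h) (mem_cons (W3274 D T h) (mem_cons (W10050 D T h) (mem_cons (W2458 D T h) (mem_cons (W2015 D T h) (mem_cons (W10062 D T h) (mem_cons (W2709 D T h) (mem_cons (W10063 D T h) (mem_cons (W2037 D T h) (mem_cons (W1352 D T h) (mem_cons (W10051 D T h) (mem_cons (W4531 D T h) (mem_cons (W10052 D T h) (mem_cons (W128 D T h) (mem_cons (W10053 D T h) (mem_cons (W10054 D T h) (mem_cons (W10056 D T h) (mem_cons (W10057 D T h) (mem_cons (W2684 D T h) (mem_cons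 (W10058 D T h) (mem_cons (W10059 D T h) (mem_cons (W10060 D T h) (mem_cons (W10061 D T h) mem_nil)))))))))))))))))))))))))))))))) cl2310
theorem W10066 : WFK w10066 := fun D T h => wf_of_chk h mem_nil (mem_cons (L2310 D T h) mem_nil) cw10066
theorem L2311 : LFK l2311 := fun D T h => lf_of_chk h (mem_cons (W128 D T h) (mem_cons (W15 D T h) (mem_cons (W1951 D T h) (mem_cons (W1064 D T h) (mem_cons (W219 D T h) (mem_cons (W622 D T h) (mem_cons (W4038 D T h) (mem_cons (W581 D T h) (mem_cons (W10045 D T h) (mem_cons (W8397 D T h) (mem_cons (W1192 D T h) mem_nil))))))))))) cl2311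
theorem W10067 : WFK w10067 := fun D T h => wf_of_chk h mem_nil (mem_cons (L2311 D T h) mem_nil) cw10067
theorem L2312 : LFK l2312 := fun D T h => lf_of_chk h (mem_cons (W1065 D T h) (mem_cons (W250 D T h) (mem_cons (W1 D T h) (mem_cons (W2520 D T h) (mem_cons (W1108 D T h) (mem_cons (W795 D T h) (mem_cons (W228 D T h) (mem_cons (W1109 D T h) (mem_cons (W3274 D T h) (mem_cons (W3276 D T h) (mem_cons (W1125 D T h) (mem_cons (W10066 D T h) (mem_cons (W10067 D T h) (mem_cons (W1070 D T h) (mem_cons (W9937 D T h) mem_nil))))))))))))))) cl2312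
theorem W10068 : WFK w10068 := fun D T h => wf_of_chk h mem_nil (mem_cons (L2312 D T h) mem_nil) cw10068
theorem W10069 : WFK w10069 := fun D T h => wf_of_chk h mem_nil (mem_cons (L2279 D T h) mem_nil) cw10069
theorem L2313 : LFK l2313 := fun D T h => lf_of_chk h (mem_cons (W4038 D T h) (mem_cons (W4209 D T h) (mem_cons (W1 D T h) (mem_cons (W3227 D T h) (mem_cons (W6095 D T h) (mem_cons (W795 D T h) (mem_cons (W228 D T h) (mem_cons (W1109 D T h) (mem_cons (W3274 D T h) (mem_cons (W3276 D T h) (mem_cons (W1125 D T h) (mem_cons (W1124 D T h) (mem_cons (W3628 D T h) (mem_cons (W1070 D T h) (mem_cons (W8908 D T h) (mem_cons (W4632 D T h) (mem_cons (W1106 D T h) mem_nil))))))))))))))))) cl2313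
theorem W10070 : WFK w10070 := fun D T h => wf_of_chk h mem_nil (mem_cons (L2313 D T h) mem_nil) cw10070
theorem W10071 : WFK w10071 := fun D T h => wf_of_chk h (mem_cons (W3400 D T h) (mem_cons (W16 D T h) mem_nil)) mem_nil cw10071
theorem W10072 : WFK w10072 := fun D T h => wf_of_chk h mem_nil (mem_cons (L2232 D T h) mem_nil) cw10072
theorem W10073 : WFK w10073 := fun D T h => wf_of_chk h mem_nil (mem_cons (L252 D T h) mem_nil) cw10073
theorem L2314 : LFK l2314 := fun D T h => lf_of_chk h (mem_cons (W128 D T h) (mem_cons (W15 D T h) (mem_cons (W10073 D T h) (mem_cons (W1064 D T h) (mem_cons (W219 D T h) (mem_cons (W4209 D T h) (mem_cons (W4038 D T h) (mem_cons (W581 D T h) (mem_cons (W10045 D T h) (mem_cons (W8397 D T h) (mem_cons (W1192 D T h) mem_nil))))))))))) cl2314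
theorem W10074 : WFK w10074 := fun D T h => wf_of_chk h mem_nil (mem_cons (L2314 D T h) mem_nil) cw10074
theorem W10076 : WFK w10076 := fun D T h => wf_of_chk h mem_nil (mem_cons (L90 D T h) mem_nil) cw10076
theorem L2316 : LFK l2316 := fun D T h => lf_of_chk h (mem_cons (W870 D T h) (mem_cons (W44 D T h) (mem_cons (W6 D T h) (mem_cons (W11 D T h) (mem_cons (W500 D T h) (mem_cons (W860 D T h) (mem_cons (W872 D T h) mem_nil))))))) cl2316
theorem W10079 : WFK w10079 := fun D T h => wf_of_chk h mem_nil (mem_cons (L362 D T h) mem_nil) cw10079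
theorem W10082 : WFK w10082 := fun D T h => wf_of_chk h (mem_cons (W10076 D T h) mem_nil) mem_nil cw10082
theorem L2318 : LFK l2318 := fun D T h => lf_of_chk h mem_nil cl2318
theorem W10083 : WFK w10083 := fun D T h => wf_of_chk h mem_nil (mem_cons (L2318 D T h) mem_nil) cw10083
theorem L2319 : LFK l2319 := fun D T h => lf_of_chk h mem_nil cl2319
theorem L2324 : LFK l2324 := fun D T h => lf_of_chk h mem_nil cl2324
theorem W10099 : WFK w10099 := fun D T h => wf_of_chk h mem_nil (mem_cons (L1253 D T h) mem_nil) cw10099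
theorem W10101 : WFK w10101 := fun D T h => wf_of_chk h mem_nil mem_nil cw10101
theorem W10112 : WFK w10112 := fun D T h => wf_of_chk h mem_nil (mem_cons (L2284 D T h) mem_nil) cw10112
theorem W10113 : WFK w10113 := fun D T h => wf_of_chk h mem_nil (mem_cons (L2284 D T h) mem_nil) cw10113
theorem W10114 : WFK w10114 := fun D T h => wf_of_chk h mem_nil (mem_cons (L2284 D T h) mem_nil) cw10114
theorem W10115 : WFK w10115 := fun D T h => wf_of_chk h mem_nil (mem_cons (L2105 D T h) mem_nil) cw10115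
theorem L2331 : LFK l2331 := fun D T h => lf_of_chk h (mem_cons (W9198 D T h) (mem_cons (W833 D T h) (mem_cons (W861 D T h) (mem_cons (W914 D T h) (mem_cons (W10079 D T h) (mem_cons (W9356 D T h) mem_nil)))))) cl2331
theorem W10116 : WFK w10116 := fun D T h => wf_of_chk h mem_nil (mem_cons (L2331 D T h) mem_nil) cw10116
theorem L2332 : LFK l2332 := fun D T h => lf_of_chk h (mem_cons (W9198 D T h) (mem_cons (W815 D T h) (mem_cons (W861 D T h) (mem_cons (W431 D T h) (mem_cons (W9356 D T h) (mem_cons (W10079 D T h) mem_nil)))))) cl2332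
theorem W10117 : WFK w10117 := fun D T h => wf_of_chk h mem_nil (mem_cons (L2332 D T h) mem_nil) cw10117
theorem L2333 : LFK l2333 := fun D T h => lf_of_chk h (mem_cons (W9198 D T h) (mem_cons (W210 D T h) (mem_cons (W861 D T h) (mem_cons (W915 D T h) (mem_cons (W10079 D T h) (mem_cons (W9356 D T h) mem_nil)))))) cl2333
theorem W10118 : WFK w10118 := fun D T h => wf_of_chk h mem_nil (mem_cons (L2333 D T h) mem_nil) cw10118
theorem L2335 : LFK l2335 := fun D T h => lf_of_chk h mem_nil cl2335
theorem W10125 : WFK w10125 := fun D T h => wf_of_chk h mem_nil (mem_cons (L2335 D T h) mem_nil) cw10125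
theorem W10132 : WFK w10132 := fun D T h => wf_of_chk h mem_nil (mem_cons (L1253 D T h) mem_nil) cw10132
theorem L2337 : LFK l2337 := fun D T h => lf_of_chk h (mem_cons (W10112 D T h) (mem_cons (W1529 D T h) (mem_cons (W9081 D T h) (mem_cons (W15 D T h) (mem_cons (W915 D T h) (mem_cons (W10113 D T h) (mem_cons (W10114 D T h) (mem_cons (W9198 D T h) (mem_cons (W1554 D T h) (mem_cons (W10115 D T h) (mem_cons (W10116 D T h) (mem_cons (W10117 D T h) (mem_cons (W9056 D T h) (mem_cons (W10118 D T h) mem_nil)))))))))))))) cl2337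
theorem W10134 : WFK w10134 := fun D T h => wf_of_chk h mem_nil (mem_cons (L2337 D T h) mem_nil) cw10134
theorem L2338 : LFK l2338 := fun D T h => lf_of_chk h (mem_cons (W860 D T h) (mem_cons (W9076 D T h) (mem_cons (W6 D T h) (mem_cons (W861 D T h) (mem_cons (W1944 D T h) (mem_cons (W842 D T h) (mem_cons (W9320 D T h) (mem_cons (W873 D T h) (mem_cons (W11 D T h) (mem_cons (W731 D T h) mem_nil)))))))))) cl2338
theorem W10143 : WFK w10143 := fun D T h => wf_of_chk h mem_nil (mem_cons (L165 D T h) mem_nil) cw10143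
theorem W10144 : WFK w10144 := fun D T h => wf_of_chk h (mem_cons (W4323 D T h) mem_nil) mem_nil cw10144
theorem W10145 : WFK w10145 := fun D T h => wf_of_chk h mem_nil (mem_cons (L373 D T h) mem_nil) cw10145
theorem W10146 : WFK w10146 := fun D T h => wf_of_chk h mem_nil (mem_cons (L862 D T h) mem_nil) cw10146
theorem W10147 : WFK w10147 := fun D T h => wf_of_chk h (mem_cons (W75 D T h) mem_nil) mem_nil cw10147
theorem W10148 : WFK w10148 := fun D T h => wf_of_chk h mem_nil (mem_cons (L1832 D T h) mem_nil) cw10148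
theorem W10149 : WFK w10149 := fun D T h => wf_of_chk h mem_nil (mem_cons (L2290 D T h) mem_nil) cw10149
theorem W10150 : WFK w10150 := fun D T h => wf_of_chk h (mem_cons (W78 D T h) mem_nil) mem_nil cw10150
theorem W10151 : WFK w10151 := fun D T h => wf_of_chk h (mem_cons (W80 D T h) mem_nil) mem_nil cw10151
theorem W10152 : WFK w10152 := fun D T h => wf_of_chk h (mem_cons (W78 D T h) mem_nil) mem_nil cw10152
theorem L2339 : LFK l2339 := fun D T h => lf_of_chk h (mem_cons (W4531 D T h) (mem_cons (W86 D T h) (mem_cons (W10145 D T h) (mem_cons (W85 D T h) (mem_cons (W1 D T h) (mem_cons (W105 D T h) (mem_cons (W861 D T h) (mem_cons (W235 D T h) (mem_cons (W6725 D T h) (mem_cons (W10146 D T h) (mem_cons (W10147 D T h) (mem_cons (W1588 D T h) (mem_cons (W10148 D T h) (mem_cons (W10149 D T h) (mem_cons (W10150 D T h) (mem_cons (W10151 D T h) (mem_cons (W10152 D T h) (mem_cons (W10144 D T h) (mem_cons (W1285 D T h) (mem_cons (W10143 D T h) mem_nil)))))))))))))))))))) cl2339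
theorem W10153 : WFK w10153 := fun D T h => wf_of_chk h mem_nil (mem_cons (L2339 D T h) mem_nil) cw10153
theorem L2340 : LFK l2340 := fun D T h => lf_of_chk h mem_nil cl2340
theorem W10156 : WFK w10156 := fun D T h => wf_of_chk h mem_nil (mem_cons (L2340 D T h) mem_nil) cw10156
theorem L2343 : LFK l2343 := fun D T h => lf_of_chk h (mem_cons (W177 D T h) mem_nil) cl2343
theorem L2346 : LFK l2346 := fun D T h => lf_of_chk h (mem_cons (W10083 D T h) (mem_cons (W5441 D T h) (mem_cons (W42 D T h) (mem_cons (W164 D T h) (mem_cons (W819 D T h) (mem_cons (W5830 D T h) (mem_cons (W3245 D T h) (mem_cons (W888 D T h) (mem_cons (W381 D T h) (mem_cons (W870 D T h) (mem_cons (W16 D T h) (mem_cons (W3 D T h) (mem_cons (W39 D T h) (mem_cons (W852 D T h) (mem_cons (W10076 D T h) (mem_cons (W9166 D T h) (mem_cons (W86 D T h) mem_nil))))))))))))))))) cl2346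
theorem W10167 : WFK w10167 := fun D T h => wf_of_chk h mem_nil (mem_cons (L2346 D T h) mem_nil) cw10167
theorem L2348 : LFK l2348 := fun D T h => lf_of_chk h (mem_cons (W128 D T h) (mem_cons (W5 D T h) (mem_cons (W278 D T h) (mem_cons (W219 D T h) (mem_cons (W15 D T h) (mem_cons (W906 D T h) (mem_cons (W4209 D T h) (mem_cons (W4038 D T h) (mem_cons (W581 D T h) (mem_cons (W10045 D T h) (mem_cons (W8397 D T h) (mem_cons (W1192 D T h) (mem_cons (W1064 D T h) mem_nil))))))))))))) cl2348
theorem W10178 : WFK w10178 := fun D T h => wf_of_chk h mem_nil (mem_cons (L2348 D T h) mem_nil) cw10178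
theorem W10179 : WFK w10179 := fun D T h => wf_of_chk h mem_nil (mem_cons (L85 D T h) mem_nil) cw10179
theorem W10180 : WFK w10180 := fun D T h => wf_of_chk h (mem_cons (W103 D T h) (mem_cons (W16 D T h) mem_nil)) mem_nil cw10180
theorem W10181 : WFK w10181 := fun D T h => wf_of_chk h (mem_cons (W69 D T h) mem_nil) mem_nil cw10181
theorem W10182 : WFK w10182 := fun D T h => wf_of_chk h (mem_cons (W80 D T h) mem_nil) mem_nil cw10182
theorem W10183 : WFK w10183 := fun D T h => wf_of_chk h mem_nil (mem_cons (L870 D T h) mem_nil) cw10183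
theorem W10184 : WFK w10184 := fun D T h => wf_of_chk h (mem_cons (W3824 D T h) mem_nil) mem_nil cw10184
theorem W10185 : WFK w10185 := fun D T h => wf_of_chk h mem_nil (mem_cons (L1694 D T h) mem_nil) cw10185
theorem W10186 : WFK w10186 := fun D T h => wf_of_chk h (mem_cons (W721 D T h) mem_nil) mem_nil cw10186
theorem W10187 : WFK w10187 := fun D T h => wf_of_chk h (mem_cons (W267 D T h) mem_nil) mem_nil cw10187
theorem L2349 : LFK l2349 := fun D T h => lf_of_chk h (mem_cons (W538 D T h) (mem_cons (W366 D T h) (mem_cons (W4 D T h) (mem_cons (W33 D T h) (mem_cons (W1063 D T h) (mem_cons (W10181 D T h) (mem_cons (W399 D T h) (mem_cons (W858 D T h) (mem_cons (W10182 D T h) (mem_cons (W632 D T h) (mem_cons (W619 D T h) (mem_cons (W10180 D T h) (mem_cons (W10183 D T h) (mem_cons (W3274 D T h) (mem_cons (W3276 D T h) (mem_cons (W10185 D T h) (mem_cons (W6712 D T h) (mem_cons (W4039 D T h) (mem_cons (W10186 D T h) (mem_cons (W10187 D T h) (mem_cons (W10184 D T h) (mem_cons (W4036 D T h) (mem_cons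 (W142 D T h) (mem_cons (W1070 D T h) (mem_cons (W10178 D T h) (mem_cons (W4815 D T h) (mem_cons (W10179 D T h) (mem_cons (W80 D T h) (mem_cons (W91 D T h) mem_nil))))))))))))))))))))))))))))) cl2349
theorem W10188 : WFK w10188 := fun D T h => wf_of_chk h mem_nil (mem_cons (L2349 D T h) mem_nil) cw10188
theorem L2351 : LFK l2351 := fun D T h => lf_of_chk h mem_nil cl2351
theorem W10191 : WFK w10191 := fun D T h => wf_of_chk h mem_nil (mem_cons (L2351 D T h) mem_nil) cw10191
theorem L2359 : LFK l2359 := fun D T h => lf_of_chk h (mem_cons (W860 D T h) (mem_cons (W9076 D T h) (mem_cons (W7 D T h) (mem_cons (W861 D T h) (mem_cons (W1944 D T h) (mem_cons (W842 D T h) (mem_cons (W9320 D T h) (mem_cons (W873 D T h) (mem_cons (W11 D T h) (mem_cons (W731 D T h) mem_nil)))))))))) cl2359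
theorem W10207 : WFK w10207 := fun D T h => wf_of_chk h (mem_cons (W16 D T h) (mem_cons (W1074 D T h) mem_nil)) mem_nil cw10207
theorem L2365 : LFK l2365 := fun D T h => lf_of_chk h (mem_cons (W870 D T h) (mem_cons (W44 D T h) (mem_cons (W7 D T h) (mem_cons (W11 D T h) (mem_cons (W10099 D T h) (mem_cons (W860 D T h) (mem_cons (W872 D T h) mem_nil))))))) cl2365
theorem W10225 : WFK w10225 := fun D T h => wf_of_chk h (mem_cons (W5841 D T h) mem_nil) mem_nil cw10225
theorem L2366 : LFK l2366 := fun D T h => lf_of_chk h (mem_cons (W861 D T h) (mem_cons (W1316 D T h) (mem_cons (W1475 D T h) (mem_cons (W806 D T h) (mem_cons (W805 D T h) mem_nil))))) cl2366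
theorem W10229 : WFK w10229 := fun D T h => wf_of_chk h mem_nil (mem_cons (L2366 D T h) mem_nil) cw10229
theorem W10230 : WFK w10230 := fun D T h => wf_of_chk h mem_nil (mem_cons (L33 D T h) mem_nil) cw10230
theorem W10231 : WFK w10231 := fun D T h => wf_of_chk h mem_nil (mem_cons (L36 D T h) mem_nil) cw10231
theorem W10232 : WFK w10232 := fun D T h => wf_of_chk h mem_nil (mem_cons (L1847 D T h) mem_nil) cw10232
theorem W10233 : WFK w10233 := fun D T h => wf_of_chk h mem_nil (mem_cons (L33 D T h) mem_nil) cw10233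
theorem W10234 : WFK w10234 := fun D T h => wf_of_chk h mem_nil (mem_cons (L1237 D T h) mem_nil) cw10234
theorem W10235 : WFK w10235 := fun D T h => wf_of_chk h mem_nil (mem_cons (L578 D T h) mem_nil) cw10235
theorem W10236 : WFK w10236 := fun D T h => wf_of_chk h mem_nil (mem_cons (L2283 D T h) mem_nil) cw10236
theorem L2367 : LFK l2367 := fun D T h => lf_of_chk h (mem_cons (W10230 D T h) (mem_cons (W366 D T h) (mem_cons (W210 D T h) (mem_cons (W33 D T h) (mem_cons (W1063 D T h) (mem_cons (W10181 D T h) (mem_cons (W10233 D T h) (mem_cons (W858 D T h) (mem_cons (W10182 D T h) (mem_cons (W823 D T h) (mem_cons (W675 D T h) (mem_cons (W10180 D T h) (mem_cons (W10234 D T h) (mem_cons (W3274 D T h) (mem_cons (W10186 D T h) (mem_cons (W10235 D T h) (mem_cons (W10187 D T h) (mem_cons (W10236 D T h) (mem_cons (W10184 D T h) (mem_cons (W4036 D T h) (mem_cons (W142 D T h) (mem_cons (W1070 D T h) (mem_cons (W10178 D T h) (mem_cons (W158 D T h) (mem_cons (W10231 D T h) (mem_cons (W105 D T h) (mem_cons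 (W10232 D T h) mem_nil))))))))))))))))))))))))))) cl2367
theorem W10237 : WFK w10237 := fun D T h => wf_of_chk h mem_nil (mem_cons (L2367 D T h) mem_nil) cw10237
theorem L2368 : LFK l2368 := fun D T h => lf_of_chk h (mem_cons (W128 D T h) (mem_cons (W1 D T h) (mem_cons (W219 D T h) (mem_cons (W15 D T h) (mem_cons (W1951 D T h) (mem_cons (W622 D T h) (mem_cons (W3628 D T h) (mem_cons (W581 D T h) (mem_cons (W10045 D T h) (mem_cons (W8397 D T h) (mem_cons (W1192 D T h) (mem_cons (W1064 D T h) mem_nil)))))))))))) cl2368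
theorem W10238 : WFK w10238 := fun D T h => wf_of_chk h mem_nil (mem_cons (L2368 D T h) mem_nil) cw10238
theorem W10239 : WFK w10239 := fun D T h => wf_of_chk h mem_nil (mem_cons (L261 D T h) mem_nil) cw10239
theorem L2369 : LFK l2369 := fun D T h => lf_of_chk h (mem_cons (W9182 D T h) (mem_cons (W181 D T h) (mem_cons (W1178 D T h) (mem_cons (W861 D T h) (mem_cons (W3694 D T h) (mem_cons (W10239 D T h) (mem_cons (W5597 D T h) mem_nil))))))) cl2369
theorem W10240 : WFK w10240 := fun D T h => wf_of_chk h mem_nil (mem_cons (L2369 D T h) mem_nil) cw10240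
theorem L2370 : LFK l2370 := fun D T h => lf_of_chk h (mem_cons (W848 D T h) (mem_cons (W802 D T h) (mem_cons (W4 D T h) (mem_cons (W33 D T h) (mem_cons (W808 D T h) (mem_cons (W211 D T h) (mem_cons (W411 D T h) (mem_cons (W845 D T h) (mem_cons (W4036 D T h) (mem_cons (W142 D T h) (mem_cons (W632 D T h) (mem_cons (W823 D T h) (mem_cons (W576 D T h) mem_nil))))))))))))) cl2370
theorem W10242 : WFK w10242 := fun D T h => wf_of_chk h mem_nil (mem_cons (L2370 D T h) mem_nil) cw10242
theorem W10243 : WFK w10243 := fun D T h => wf_of_chk h mem_nil (mem_cons (L1277 D T h) mem_nil) cw10243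
theorem W10244 : WFK w10244 := fun D T h => wf_of_chk h mem_nil (mem_cons (L198 D T h) mem_nil) cw10244
theorem L2371 : LFK l2371 := fun D T h => lf_of_chk h (mem_cons (W799 D T h) (mem_cons (W281 D T h) (mem_cons (W1051 D T h) (mem_cons (W16 D T h) (mem_cons (W858 D T h) (mem_cons (W10243 D T h) (mem_cons (W1919 D T h) (mem_cons (W10244 D T h) (mem_cons (W91 D T h) (mem_cons (W10242 D T h) (mem_cons (W9562 D T h) (mem_cons (W9935 D T h) (mem_cons (W219 D T h) (mem_cons (W9457 D T h) mem_nil)))))))))))))) cl2371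
theorem W10245 : WFK w10245 := fun D T h => wf_of_chk h mem_nil (mem_cons (L2371 D T h) mem_nil) cw10245
theorem W10246 : WFK w10246 := fun D T h => wf_of_chk h (mem_cons (W10 D T h) mem_nil) mem_nil cw10246
theorem W10247 : WFK w10247 := fun D T h => wf_of_chk h mem_nil (mem_cons (L829 D T h) mem_nil) cw10247
theorem W10249 : WFK w10249 := fun D T h => wf_of_chk h mem_nil (mem_cons (L198 D T h) mem_nil) cw10249
theorem L2373 : LFK l2373 := fun D T h => lf_of_chk h (mem_cons (W128 D T h) (mem_cons (W1064 D T h) (mem_cons (W219 D T h) (mem_cons (W15 D T h) (mem_cons (W604 D T h) (mem_cons (W4209 D T h) (mem_cons (W4038 D T h) (mem_cons (W581 D T h) (mem_cons (W10045 D T h) (mem_cons (W8397 D T h) (mem_cons (W1192 D T h) mem_nil))))))))))) cl2373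
theorem W10252 : WFK w10252 := fun D T h => wf_of_chk h mem_nil (mem_cons (L2373 D T h) mem_nil) cw10252
theorem W10253 : WFK w10253 := fun D T h => wf_of_chk h mem_nil (mem_cons (L194 D T h) mem_nil) cw10253
theorem W10255 : WFK w10255 := fun D T h => wf_of_chk h mem_nil (mem_cons (L2298 D T h) mem_nil) cw10255
theorem W10256 : WFK w10256 := fun D T h => wf_of_chk h (mem_cons (W16 D T h) (mem_cons (W861 D T h) mem_nil)) mem_nil cw10256
theorem W10266 : WFK w10266 := fun D T h => wf_of_chk h mem_nil (mem_cons (L17 D T h) mem_nil) cw10266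
theorem L2374 : LFK l2374 := fun D T h => lf_of_chk h (mem_cons (W4531 D T h) (mem_cons (W281 D T h) (mem_cons (W138 D T h) (mem_cons (W32 D T h) (mem_cons (W105 D T h) (mem_cons (W861 D T h) (mem_cons (W4895 D T h) (mem_cons (W4896 D T h) (mem_cons (W4898 D T h) (mem_cons (W4260 D T h) (mem_cons (W4899 D T h) (mem_cons (W4897 D T h) (mem_cons (W4900 D T h) (mem_cons (W4901 D T h) (mem_cons (W1283 D T h) (mem_cons (W1468 D T h) (mem_cons (W4894 D T h) mem_nil))))))))))))))))) cl2374
theorem W10270 : WFK w10270 := fun D T h => wf_of_chk h mem_nil (mem_cons (L2374 D T h) mem_nil) cw10270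
theorem W10271 : WFK w10271 := fun D T h => wf_of_chk h mem_nil (mem_cons (L2306 D T h) mem_nil) cw10271
theorem W10272 : WFK w10272 := fun D T h => wf_of_chk h mem_nil (mem_cons (L2374 D T h) mem_nil) cw10272
theorem W10273 : WFK w10273 := fun D T h => wf_of_chk h mem_nil (mem_cons (L2339 D T h) mem_nil) cw10273
theorem W10274 : WFK w10274 := fun D T h => wf_of_chk h mem_nil (mem_cons (L2374 D T h) mem_nil) cw10274
theorem W10275 : WFK w10275 := fun D T h => wf_of_chk h mem_nil (mem_cons (L2374 D T h) mem_nil) cw10275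
theorem W10276 : WFK w10276 := fun D T h => wf_of_chk h mem_nil (mem_cons (L2374 D T h) mem_nil) cw10276
theorem W10277 : WFK w10277 := fun D T h => wf_of_chk h mem_nil (mem_cons (L2309 D T h) mem_nil) cw10277
theorem W10278 : WFK w10278 := fun D T h => wf_of_chk h (mem_cons (W1283 D T h) mem_nil) mem_nil cw10278
theorem W10279 : WFK w10279 := fun D T h => wf_of_chk h (mem_cons (W861 D T h) mem_nil) mem_nil cw10279
theorem W10280 : WFK w10280 := fun D T h => wf_of_chk h (mem_cons (W4894 D T h) mem_nil) mem_nil cw10280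
theorem W10281 : WFK w10281 := fun D T h => wf_of_chk h (mem_cons (W103 D T h) (mem_cons (W861 D T h) mem_nil)) mem_nil cw10281
theorem W10282 : WFK w10282 := fun D T h => wf_of_chk h (mem_cons (W112 D T h) (mem_cons (W861 D T h) mem_nil)) mem_nil cw10282
theorem W10283 : WFK w10283 := fun D T h => wf_of_chk h (mem_cons (W69 D T h) (mem_cons (W861 D T h) mem_nil)) mem_nil cw10283
theorem L2375 : LFK l2375 := fun D T h => lf_of_chk h (mem_cons (W4209 D T h) (mem_cons (W1501 D T h) (mem_cons (W3565 D T h) (mem_cons (W3688 D T h) (mem_cons (W1 D T h) (mem_cons (W69 D T h) (mem_cons (W1283 D T h) (mem_cons (W10255 D T h) (mem_cons (W10278 D T h) (mem_cons (W10279 D T h) (mem_cons (W370 D T h) (mem_cons (W111 D T h) (mem_cons (W10282 D T h) (mem_cons (W114 D T h) (mem_cons (W267 D T h) (mem_cons (W721 D T h) (mem_cons (W10283 D T h) (mem_cons (W91 D T h) (mem_cons (W80 D T h) (mem_cons (W10280 D T h) (mem_cons (W10281 D T h) (mem_cons (W521 D T h) (mem_cons (W4259 D T h) (mem_cons (W8105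 D T h) mem_nil)))))))))))))))))))))))) cl2375
theorem W10284 : WFK w10284 := fun D T h => wf_of_chk h mem_nil (mem_cons (L2375 D T h) mem_nil) cw10284
theorem W10285 : WFK w10285 := fun D T h => wf_of_chk h (mem_cons (W162 D T h) (mem_cons (W861 D T h) mem_nil)) mem_nil cw10285
theorem W10286 : WFK w10286 := fun D T h => wf_of_chk h (mem_cons (W1475 D T h) (mem_cons (W16 D T h) mem_nil)) mem_nil cw10286
theorem W10287 : WFK w10287 := fun D T h => wf_of_chk h (mem_cons (W1475 D T h) (mem_cons (W16 D T h) mem_nil)) mem_nil cw10287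
theorem L2376 : LFK l2376 := fun D T h => lf_of_chk h (mem_cons (W10256 D T h) (mem_cons (W2766 D T h) (mem_cons (W179 D T h) (mem_cons (W903 D T h) (mem_cons (W10286 D T h) (mem_cons (W10287 D T h) (mem_cons (W32 D T h) (mem_cons (W10277 D T h) (mem_cons (W861 D T h) (mem_cons (W7719 D T h) (mem_cons (W7813 D T h) (mem_cons (W16 D T h) (mem_cons (W1283 D T h) (mem_cons (W10255 D T h) (mem_cons (W10270 D T h) (mem_cons (W10153 D T h) (mem_cons (W2015 D T h) (mem_cons (W10284 D T h) (mem_cons (W8783 D T h) (mem_cons (W10285 D T h) (mem_cons (W2037 D T h) (mem_cons (W4256 D T h) (mem_cons (W4531 D T h) (mem_cons (W10271 D T h) (mem_cons (W10272 D T h) (mem_cons (W10273 D T h) (mem_cons (W128 D T h) (mem_cons (W10274 D T h) (mem_cons (W10275 D T h) (mem_cons (W10276 D T h) mem_nil)))))))))))))))))))))))))))))) cl2376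
theorem W10288 : WFK w10288 := fun D T h => wf_of_chk h mem_nil (mem_cons (L2376 D T h) mem_nil) cw10288
theorem W10289 : WFK w10289 := fun D T h => wf_of_chk h mem_nil (mem_cons (L1263 D T h) mem_nil) cw10289
theorem W10290 : WFK w10290 := fun D T h => wf_of_chk h mem_nil (mem_cons (L2306 D T h) mem_nil) cw10290
theorem W10291 : WFK w10291 := fun D T h => wf_of_chk h (mem_cons (W220 D T h) (mem_cons (W814 D T h) mem_nil)) mem_nil cw10291
theorem W10292 : WFK w10292 := fun D T h => wf_of_chk h (mem_cons (W220 D T h) (mem_cons (W814 D T h) mem_nil)) mem_nil cw10292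
theorem L2377 : LFK l2377 := fun D T h => lf_of_chk h (mem_cons (W138 D T h) (mem_cons (W1 D T h) (mem_cons (W69 D T h) (mem_cons (W135 D T h) (mem_cons (W136 D T h) (mem_cons (W3 D T h) (mem_cons (W71 D T h) mem_nil))))))) cl2377
theorem W10293 : WFK w10293 := fun D T h => wf_of_chk h mem_nil (mem_cons (L2377 D T h) mem_nil) cw10293
theorem L2378 : LFK l2378 := fun D T h => lf_of_chk h (mem_cons (W2766 D T h) (mem_cons (W10293 D T h) (mem_cons (W817 D T h) (mem_cons (W33 D T h) (mem_cons (W7 D T h) (mem_cons (W1075 D T h) (mem_cons (W161 D T h) (mem_cons (W831 D T h) (mem_cons (W7171 D T h) mem_nil))))))))) cl2378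
theorem W10294 : WFK w10294 := fun D T h => wf_of_chk h mem_nil (mem_cons (L2378 D T h) mem_nil) cw10294
theorem W10295 : WFK w10295 := fun D T h => wf_of_chk h mem_nil (mem_cons (L2377 D T h) mem_nil) cw10295
theorem L2379 : LFK l2379 := fun D T h => lf_of_chk h (mem_cons (W2766 D T h) (mem_cons (W10295 D T h) (mem_cons (W817 D T h) (mem_cons (W33 D T h) (mem_cons (W7 D T h) (mem_cons (W1075 D T h) (mem_cons (W161 D T h) (mem_cons (W831 D T h) (mem_cons (W7171 D T h) mem_nil))))))))) cl2379
theorem W10296 : WFK w10296 := fun D T h => wf_of_chk h mem_nil (mem_cons (L2379 D T h) mem_nil) cw10296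
theorem W10297 : WFK w10297 := fun D T h => wf_of_chk h mem_nil (mem_cons (L2309 D T h) mem_nil) cw10297
theorem W10298 : WFK w10298 := fun D T h => wf_of_chk h (mem_cons (W814 D T h) mem_nil) mem_nil cw10298
theorem W10299 : WFK w10299 := fun D T h => wf_of_chk h (mem_cons (W78 D T h) (mem_cons (W20 D T h) mem_nil)) mem_nil cw10299
theorem W10300 : WFK w10300 := fun D T h => wf_of_chk h (mem_cons (W75 D T h) (mem_cons (W814 D T h) mem_nil)) mem_nil cw10300
theorem W10301 : WFK w10301 := fun D T h => wf_of_chk h (mem_cons (W112 D T h) (mem_cons (W814 D T h) mem_nil)) mem_nil cw10301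
theorem W10302 : WFK w10302 := fun D T h => wf_of_chk h (mem_cons (W69 D T h) (mem_cons (W814 D T h) mem_nil)) mem_nil cw10302
theorem L2380 : LFK l2380 := fun D T h => lf_of_chk h (mem_cons (W4209 D T h) (mem_cons (W9990 D T h) (mem_cons (W1 D T h) (mem_cons (W814 D T h) (mem_cons (W83 D T h) (mem_cons (W20 D T h) (mem_cons (W3565 D T h) (mem_cons (W9985 D T h) (mem_cons (W91 D T h) (mem_cons (W10299 D T h) (mem_cons (W80 D T h) (mem_cons (W10300 D T h) (mem_cons (W4259 D T h) (mem_cons (W521 D T h) (mem_cons (W8105 D T h) (mem_cons (W10298 D T h) (mem_cons (W370 D T h) (mem_cons (W111 D T h) (mem_cons (W10301 D T h) (mem_cons (W267 D T h) (mem_cons (W114 D T h) (mem_cons (W721 D T h) (mem_cons (W10302 D T h) mem_nil))))))))))))))))))))))) cl2380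
theorem W10303 : WFK w10303 := fun D T h => wf_of_chk h mem_nil (mem_cons (L2380 D T h) mem_nil) cw10303
theorem W10304 : WFK w10304 := fun D T h => wf_of_chk h (mem_cons (W162 D T h) (mem_cons (W814 D T h) mem_nil)) mem_nil cw10304
theorem W10305 : WFK w10305 := fun D T h => wf_of_chk h mem_nil (mem_cons (L1598 D T h) mem_nil) cw10305
theorem W10306 : WFK w10306 := fun D T h => wf_of_chk h (mem_cons (W1111 D T h) (mem_cons (W16 D T h) mem_nil)) mem_nil cw10306
theorem L2381 : LFK l2381 := fun D T h => lf_of_chk h (mem_cons (W840 D T h) (mem_cons (W8 D T h) (mem_cons (W861 D T h) (mem_cons (W5502 D T h) (mem_cons (W4 D T h) (mem_cons (W842 D T h) (mem_cons (W841 D T h) (mem_cons (W9198 D T h) mem_nil)))))))) cl2381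
theorem W10307 : WFK w10307 := fun D T h => wf_of_chk h mem_nil (mem_cons (L2381 D T h) mem_nil) cw10307
theorem W10308 : WFK w10308 := fun D T h => wf_of_chk h (mem_cons (W813 D T h) (mem_cons (W16 D T h) mem_nil)) mem_nil cw10308
theorem W10309 : WFK w10309 := fun D T h => wf_of_chk h (mem_cons (W230 D T h) (mem_cons (W20 D T h) mem_nil)) mem_nil cw10309
theorem W10310 : WFK w10310 := fun D T h => wf_of_chk h mem_nil (mem_cons (L2339 D T h) mem_nil) cw10310
theorem L2382 : LFK l2382 := fun D T h => lf_of_chk h (mem_cons (W9989 D T h) (mem_cons (W2766 D T h) (mem_cons (W817 D T h) (mem_cons (W10310 D T h) (mem_cons (W10256 D T h) (mem_cons (W20 D T h) (mem_cons (W10297 D T h) (mem_cons (W9985 D T h) (mem_cons (W10012 D T h) (mem_cons (W10305 D T h) (mem_cons (W10306 D T h) (mem_cons (W10307 D T h) (mem_cons (W10308 D T h) (mem_cons (W10309 D T h) (mem_cons (W16 D T h) (mem_cons (W814 D T h) (mem_cons (W9990 D T h) (mem_cons (W10289 D T h) (mem_cons (W2015 D T h) (mem_cons (W10303 D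 T h) (mem_cons (W2709 D T h) (mem_cons (W10304 D T h) (mem_cons (W2037 D T h) (mem_cons (W9123 D T h) (mem_cons (W10290 D T h) (mem_cons (W4531 D T h) (mem_cons (W10291 D T h) (mem_cons (W128 D T h) (mem_cons (W10292 D T h) (mem_cons (W10294 D T h) (mem_cons (W10296 D T h) mem_nil))))))))))))))))))))))))))))))) cl2382
theorem W10311 : WFK w10311 := fun D T h => wf_of_chk h mem_nil (mem_cons (L2382 D T h) mem_nil) cw10311
theorem W10312 : WFK w10312 := fun D T h => wf_of_chk h (mem_cons (W220 D T h) (mem_cons (W603 D T h) mem_nil)) mem_nil cw10312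
theorem W10313 : WFK w10313 := fun D T h => wf_of_chk h (mem_cons (W220 D T h) (mem_cons (W603 D T h) mem_nil)) mem_nil cw10313
theorem W10314 : WFK w10314 := fun D T h => wf_of_chk h (mem_cons (W603 D T h) mem_nil) mem_nil cw10314
theorem W10315 : WFK w10315 := fun D T h => wf_of_chk h (mem_cons (W78 D T h) (mem_cons (W22 D T h) mem_nil)) mem_nil cw10315
theorem W10316 : WFK w10316 := fun D T h => wf_of_chk h (mem_cons (W75 D T h) (mem_cons (W603 D T h) mem_nil)) mem_nil cw10316
theorem W10317 : WFK w10317 := fun D T h => wf_of_chk h (mem_cons (W112 D T h) (mem_cons (W603 D T h) mem_nil)) mem_nil cw10317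
theorem W10318 : WFK w10318 := fun D T h => wf_of_chk h (mem_cons (W69 D T h) (mem_cons (W603 D T h) mem_nil)) mem_nil cw10318
theorem L2383 : LFK l2383 := fun D T h => lf_of_chk h (mem_cons (W4209 D T h) (mem_cons (W9999 D T h) (mem_cons (W1 D T h) (mem_cons (W603 D T h) (mem_cons (W83 D T h) (mem_cons (W1501 D T h) (mem_cons (W3565 D T h) (mem_cons (W3688 D T h) (mem_cons (W91 D T h) (mem_cons (W10315 D T h) (mem_cons (W80 D T h) (mem_cons (W10316 D T h) (mem_cons (W4259 D T h) (mem_cons (W521 D T h) (mem_cons (W8105 D T h) (mem_cons (W10314 D T h) (mem_cons (W370 D T h) (mem_cons (W111 D T h) (mem_cons (W10317 D T h) (mem_cons (W267 D T h) (mem_cons (W114 D T h) (mem_cons (W721 D T h) (mem_cons (W10318 D T h) mem_nil))))))))))))))))))))))) cl2383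
theorem W10319 : WFK w10319 := fun D T h => wf_of_chk h mem_nil (mem_cons (L2383 D T h) mem_nil) cw10319
theorem W10320 : WFK w10320 := fun D T h => wf_of_chk h (mem_cons (W162 D T h) (mem_cons (W603 D T h) mem_nil)) mem_nil cw10320
theorem L2384 : LFK l2384 := fun D T h => lf_of_chk h (mem_cons (W840 D T h) (mem_cons (W7 D T h) (mem_cons (W861 D T h) (mem_cons (W5502 D T h) (mem_cons (W4 D T h) (mem_cons (W842 D T h) (mem_cons (W841 D T h) (mem_cons (W5500 D T h) mem_nil)))))))) cl2384
theorem W10321 : WFK w10321 := fun D T h => wf_of_chk h mem_nil (mem_cons (L2384 D T h) mem_nil) cw10321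
theorem W10322 : WFK w10322 := fun D T h => wf_of_chk h (mem_cons (W1073 D T h) (mem_cons (W16 D T h) mem_nil)) mem_nil cw10322
theorem W10323 : WFK w10323 := fun D T h => wf_of_chk h (mem_cons (W230 D T h) (mem_cons (W22 D T h) mem_nil)) mem_nil cw10323
theorem L2385 : LFK l2385 := fun D T h => lf_of_chk h (mem_cons (W10296 D T h) (mem_cons (W2766 D T h) (mem_cons (W1075 D T h) (mem_cons (W10310 D T h) (mem_cons (W10256 D T h) (mem_cons (W10207 D T h) (mem_cons (W22 D T h) (mem_cons (W10297 D T h) (mem_cons (W7719 D T h) (mem_cons (W1111 D T h) (mem_cons (W10012 D T h) (mem_cons (W10305 D T h) (mem_cons (W10306 D T h) (mem_cons (W10321 D T h) (mem_cons (W10322 D T h) (mem_cons (W10323 D T h) (mem_cons (W16 D T h) (mem_cons (W603 D T h) (mem_cons (W9999 D T h) (mem_cons (W10289 D T h) (mem_cons (W2015 D T h) (mem_cons (W10319 D T h) (mem_cons (W2709 D T h) (mem_cons (W10320 D T h) (mem_cons (W2037 D T h) (mem_cons (W9123 D T h) (mem_cons (W10290 D T h) (mem_cons (W4531 D T h) (mem_cons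 (W10312 D T h) (mem_cons (W128 D T h) (mem_cons (W10313 D T h) (mem_cons (W10294 D T h) mem_nil)))))))))))))))))))))))))))))))) cl2385
theorem W10324 : WFK w10324 := fun D T h => wf_of_chk h mem_nil (mem_cons (L2385 D T h) mem_nil) cw10324
theorem W10336 : WFK w10336 := fun D T h => wf_of_chk h (mem_cons (W78 D T h) (mem_cons (W10 D T h) mem_nil)) mem_nil cw10336
theorem L2392 : LFK l2392 := fun D T h => lf_of_chk h (mem_cons (W10318 D T h) (mem_cons (W9999 D T h) (mem_cons (W1 D T h) (mem_cons (W603 D T h) (mem_cons (W83 D T h) (mem_cons (W1501 D T h) (mem_cons (W4209 D T h) (mem_cons (W3565 D T h) (mem_cons (W3688 D T h) (mem_cons (W91 D T h) (mem_cons (W10336 D T h) (mem_cons (W80 D T h) (mem_cons (W10316 D T h) (mem_cons (W519 D T h) (mem_cons (W521 D T h) (mem_cons (W8105 D T h) (mem_cons (W10314 D T h) (mem_cons (W370 D T h) (mem_cons (W111 D T h) (mem_cons (W10317 D T h) (mem_cons (W267 D T h) (mem_cons (W114 D T h) (mem_cons (W721 D T h) mem_nil))))))))))))))))))))))) cl2392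
theorem W10337 : WFK w10337 := fun D T h => wf_of_chk h mem_nil (mem_cons (L2392 D T h) mem_nil) cw10337
theorem L2393 : LFK l2393 := fun D T h => lf_of_chk h (mem_cons (W840 D T h) (mem_cons (W4 D T h) (mem_cons (W861 D T h) (mem_cons (W5502 D T h) (mem_cons (W842 D T h) (mem_cons (W841 D T h) (mem_cons (W5499 D T h) mem_nil))))))) cl2393
theorem W10338 : WFK w10338 := fun D T h => wf_of_chk h mem_nil (mem_cons (L2393 D T h) mem_nil) cw10338
theorem W10339 : WFK w10339 := fun D T h => wf_of_chk h (mem_cons (W907 D T h) (mem_cons (W16 D T h) mem_nil)) mem_nil cw10339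
theorem W10340 : WFK w10340 := fun D T h => wf_of_chk h (mem_cons (W230 D T h) (mem_cons (W10 D T h) mem_nil)) mem_nil cw10340
theorem L2394 : LFK l2394 := fun D T h => lf_of_chk h (mem_cons (W10296 D T h) (mem_cons (W161 D T h) (mem_cons (W10310 D T h) (mem_cons (W10256 D T h) (mem_cons (W10025 D T h) (mem_cons (W10 D T h) (mem_cons (W10297 D T h) (mem_cons (W7719 D T h) (mem_cons (W1111 D T h) (mem_cons (W10012 D T h) (mem_cons (W10305 D T h) (mem_cons (W10306 D T h) (mem_cons (W10338 D T h) (mem_cons (W10339 D T h) (mem_cons (W10340 D T h) (mem_cons (W16 D T h) (mem_cons (W603 D T h) (mem_cons (W9999 D T h) (mem_cons (W10289 D T h) (mem_cons (W2015 D T h) (mem_cons (W10337 D T h) (mem_cons (W2709 D T h) (mem_cons (W10320 D T h) (mem_cons (W2037 D T h) (mem_cons (W9123 D T h) (mem_cons (W10290 D T h) (mem_cons (W4531 D T h) (mem_cons (W10312 D T h) (mem_cons (W128 D T h) (mem_cons (W10313 D T h) (mem_cons (W10294 D T h) mem_nil))))))))))))))))))))))))))))))) cl2394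
theorem W10341 : WFK w10341 := fun D T h => wf_of_chk h mem_nil (mem_cons (L2394 D T h) mem_nil) cw10341
theorem L2395 : LFK l2395 := fun D T h => lf_of_chk h (mem_cons (W1110 D T h) (mem_cons (W161 D T h) (mem_cons (W10288 D T h) (mem_cons (W10311 D T h) (mem_cons (W9986 D T h) (mem_cons (W10324 D T h) (mem_cons (W10341 D T h) (mem_cons (W10 D T h) (mem_cons (W604 D T h) (mem_cons (W1111 D T h) (mem_cons (W603 D T h) mem_nil))))))))))) cl2395
theorem W10342 : WFK w10342 := fun D T h => wf_of_chk h mem_nil (mem_cons (L2395 D T h) mem_nil) cw10342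
theorem W10343 : WFK w10343 := fun D T h => wf_of_chk h (mem_cons (W126 D T h) (mem_cons (W281 D T h) mem_nil)) mem_nil cw10343
theorem L2396 : LFK l2396 := fun D T h => lf_of_chk h (mem_cons (W2766 D T h) (mem_cons (W38 D T h) (mem_cons (W815 D T h) (mem_cons (W109 D T h) (mem_cons (W831 D T h) (mem_cons (W4 D T h) mem_nil)))))) cl2396
theorem W10344 : WFK w10344 := fun D T h => wf_of_chk h mem_nil (mem_cons (L2396 D T h) mem_nil) cw10344
theorem L2397 : LFK l2397 := fun D T h => lf_of_chk h (mem_cons (W9986 D T h) (mem_cons (W161 D T h) (mem_cons (W7 D T h) (mem_cons (W33 D T h) (mem_cons (W844 D T h) (mem_cons (W4 D T h) (mem_cons (W604 D T h) (mem_cons (W603 D T h) (mem_cons (W858 D T h) (mem_cons (W2572 D T h) (mem_cons (W4189 D T h) (mem_cons (W1739 D T h) (mem_cons (W1121 D T h) (mem_cons (W1114 D T h) (mem_cons (W1117 D T h) (mem_cons (W9557 D T h) (mem_cons (W7640 D T h) (mem_cons (W1950 D T h) (mem_cons (W1104 D T h) mem_nil))))))))))))))))))) cl2397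
theorem W10345 : WFK w10345 := fun D T h => wf_of_chk h mem_nil (mem_cons (L2397 D T h) mem_nil) cw10345
theorem L2398 : LFK l2398 := fun D T h => lf_of_chk h (mem_cons (W1110 D T h) (mem_cons (W161 D T h) (mem_cons (W844 D T h) (mem_cons (W3560 D T h) (mem_cons (W9986 D T h) (mem_cons (W9981 D T h) (mem_cons (W10345 D T h) (mem_cons (W10 D T h) (mem_cons (W604 D T h) (mem_cons (W603 D T h) (mem_cons (W1111 D T h) mem_nil))))))))))) cl2398
theorem W10346 : WFK w10346 := fun D T h => wf_of_chk h mem_nil (mem_cons (L2398 D T h) mem_nil) cw10346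
theorem L2399 : LFK l2399 := fun D T h => lf_of_chk h (mem_cons (W1126 D T h) (mem_cons (W366 D T h) (mem_cons (W281 D T h) (mem_cons (W1063 D T h) (mem_cons (W16 D T h) (mem_cons (W1110 D T h) (mem_cons (W4844 D T h) (mem_cons (W3628 D T h) (mem_cons (W10343 D T h) (mem_cons (W10240 D T h) (mem_cons (W799 D T h) (mem_cons (W10245 D T h) (mem_cons (W5631 D T h) (mem_cons (W5306 D T h) (mem_cons (W10067 D T h) (mem_cons (W111 D T h) (mem_cons (W1109 D T h) (mem_cons (W214 D T h) (mem_cons (W3276 D T h) (mem_cons (W10253 D T h) (mem_cons (W1124 D T h) (mem_cons (W10344 D T h) (mem_cons (W10346 D T h) (mem_cons (W10252 D T h) (mem_cons (W10342 D T h) (mem_cons (W1070 D T h) (mem_cons (W10188 D T h) (mem_cons (W519 D T h) (mem_cons (W10237 D T h) (mem_cons (W10238 D T h) mem_nil)))))))))))))))))))))))))))))) cl2399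
theorem W10347 : WFK w10347 := fun D T h => wf_of_chk h mem_nil (mem_cons (L2399 D T h) mem_nil) cw10347
theorem L2400 : LFK l2400 := fun D T h => lf_of_chk h (mem_cons (W1127 D T h) (mem_cons (W1166 D T h) (mem_cons (W1069 D T h) (mem_cons (W10071 D T h) (mem_cons (W1065 D T h) (mem_cons (W9976 D T h) (mem_cons (W2914 D T h) (mem_cons (W1063 D T h) (mem_cons (W16 D T h) (mem_cons (W5636 D T h) (mem_cons (W6162 D T h) (mem_cons (W2015 D T h) (mem_cons (W2037 D T h) (mem_cons (W8783 D T h) (mem_cons (W10069 D T h) (mem_cons (W10070 D T h) (mem_cons (W9765 D T h) (mem_cons (W9770 D T h) (mem_cons (W9771 D T h) (mem_cons (W128 D T h) (mem_cons (W9959 D T h) (mem_cons (W9960 D T h) (mem_cons (W9975 D T h) (mem_cons (W9977 D T h) (mem_cons (W799 D T h) (mem_cons (W9978 D T h) (mem_cons (W9979 D T h) (mem_cons (W9980 D T h) (mem_cons (W10068 D T h) (mem_cons (W369 D T h) (mem_cons (W5675 D T h) (mem_cons (W3356 D T h) (mem_cons (W9431 D T h) (mem_cons (W10072 D T h) (mem_cons (W10074 D T h)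 (mem_cons (W10347 D T h) mem_nil)))))))))))))))))))))))))))))))))))) cl2400
theorem W10348 : WFK w10348 := fun D T h => wf_of_chk h mem_nil (mem_cons (L2400 D T h) mem_nil) cw10348
theorem W10349 : WFK w10349 := fun D T h => wf_of_chk h mem_nil (mem_cons (L2227 D T h) mem_nil) cw10349
theorem L2401 : LFK l2401 := fun D T h => lf_of_chk h (mem_cons (W6758 D T h) (mem_cons (W16 D T h) (mem_cons (W581 D T h) (mem_cons (W5841 D T h) (mem_cons (W4025 D T h) (mem_cons (W5655 D T h) (mem_cons (W8908 D T h) (mem_cons (W638 D T h) (mem_cons (W5388 D T h) (mem_cons (W10044 D T h) (mem_cons (W10043 D T h) (mem_cons (W799 D T h) (mem_cons (W1321 D T h) (mem_cons (W796 D T h) (mem_cons (W3766 D T h) mem_nil))))))))))))))) cl2401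
theorem W10350 : WFK w10350 := fun D T h => wf_of_chk h mem_nil (mem_cons (L2401 D T h) mem_nil) cw10350
theorem W10351 : WFK w10351 := fun D T h => wf_of_chk h (mem_cons (W158 D T h) (mem_cons (W164 D T h) mem_nil)) mem_nil cw10351
theorem W10352 : WFK w10352 := fun D T h => wf_of_chk h (mem_cons (W161 D T h) (mem_cons (W164 D T h) mem_nil)) mem_nil cw10352
theorem W10353 : WFK w10353 := fun D T h => wf_of_chk h (mem_cons (W281 D T h) (mem_cons (W164 D T h) mem_nil)) mem_nil cw10353
theorem L2402 : LFK l2402 := fun D T h => lf_of_chk h (mem_cons (W5721 D T h) (mem_cons (W2101 D T h) (mem_cons (W2915 D T h) (mem_cons (W1 D T h) (mem_cons (W162 D T h) (mem_cons (W1065 D T h) (mem_cons (W798 D T h) (mem_cons (W7076 D T h) (mem_cons (W5157 D T h) (mem_cons (W2089 D T h) (mem_cons (W9760 D T h) (mem_cons (W34 D T h) (mem_cons (W1919 D T h) (mem_cons (W10353 D T h) (mem_cons (W181 D T h) (mem_cons (W8424 D T h) (mem_cons (W7719 D T h) (mem_cons (W10351 D T h) mem_nil)))))))))))))))))) cl2402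
theorem W10354 : WFK w10354 := fun D T h => wf_of_chk h mem_nil (mem_cons (L2402 D T h) mem_nil) cw10354
theorem W10355 : WFK w10355 := fun D T h => wf_of_chk h mem_nil (mem_cons (L1678 D T h) mem_nil) cw10355
theorem W10356 : WFK w10356 := fun D T h => wf_of_chk h (mem_cons (W161 D T h) (mem_cons (W16 D T h) mem_nil)) mem_nil cw10356
theorem W10357 : WFK w10357 := fun D T h => wf_of_chk h (mem_cons (W281 D T h) (mem_cons (W16 D T h) mem_nil)) mem_nil cw10357
theorem L2403 : LFK l2403 := fun D T h => lf_of_chk h (mem_cons (W5721 D T h) (mem_cons (W209 D T h) (mem_cons (W2912 D T h) (mem_cons (W1 D T h) (mem_cons (W16 D T h) (mem_cons (W4038 D T h) (mem_cons (W219 D T h) (mem_cons (W7076 D T h) (mem_cons (W5157 D T h) (mem_cons (W7212 D T h) (mem_cons (W34 D T h) (mem_cons (W1919 D T h) (mem_cons (W10357 D T h) (mem_cons (W181 D T h) (mem_cons (W8424 D T h) (mem_cons (W7719 D T h) (mem_cons (W4392 D T h) mem_nil))))))))))))))))) cl2403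
theorem W10358 : WFK w10358 := fun D T h => wf_of_chk h mem_nil (mem_cons (L2403 D T h) mem_nil) cw10358
theorem W10359 : WFK w10359 := fun D T h => wf_of_chk h mem_nil (mem_cons (L788 D T h) mem_nil) cw10359
theorem W10360 : WFK w10360 := fun D T h => wf_of_chk h mem_nil (mem_cons (L788 D T h) mem_nil) cw10360
theorem W10361 : WFK w10361 := fun D T h => wf_of_chk h mem_nil (mem_cons (L2224 D T h) mem_nil) cw10361
theorem W10362 : WFK w10362 := fun D T h => wf_of_chk h mem_nil (mem_cons (L157 D T h) mem_nil) cw10362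
theorem W10363 : WFK w10363 := fun D T h => wf_of_chk h mem_nil (mem_cons (L1533 D T h) mem_nil) cw10363
theorem W10364 : WFK w10364 := fun D T h => wf_of_chk h mem_nil (mem_cons (L655 D T h) mem_nil) cw10364
theorem W10365 : WFK w10365 := fun D T h => wf_of_chk h (mem_cons (W1075 D T h) (mem_cons (W16 D T h) mem_nil)) mem_nil cw10365
theorem L2404 : LFK l2404 := fun D T h => lf_of_chk h (mem_cons (W141 D T h) (mem_cons (W161 D T h) (mem_cons (W7408 D T h) (mem_cons (W11 D T h) (mem_cons (W109 D T h) (mem_cons (W603 D T h) (mem_cons (W1944 D T h) (mem_cons (W861 D T h) (mem_cons (W4347 D T h) (mem_cons (W844 D T h) (mem_cons (W1400 D T h) (mem_cons (W1673 D T h) (mem_cons (W1143 D T h) (mem_cons (W501 D T h) mem_nil)))))))))))))) cl2404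
theorem W10366 : WFK w10366 := fun D T h => wf_of_chk h mem_nil (mem_cons (L2404 D T h) mem_nil) cw10366
theorem W10367 : WFK w10367 := fun D T h => wf_of_chk h mem_nil (mem_cons (L2404 D T h) mem_nil) cw10367
theorem W10368 : WFK w10368 := fun D T h => wf_of_chk h (mem_cons (W164 D T h) (mem_cons (W161 D T h) mem_nil)) mem_nil cw10368
theorem W10369 : WFK w10369 := fun D T h => wf_of_chk h (mem_cons (W162 D T h) (mem_cons (W161 D T h) mem_nil)) mem_nil cw10369
theorem W10370 : WFK w10370 := fun D T h => wf_of_chk h mem_nil (mem_cons (L245 D T h) mem_nil) cw10370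
theorem W10371 : WFK w10371 := fun D T h => wf_of_chk h mem_nil (mem_cons (L2224 D T h) mem_nil) cw10371
theorem W10372 : WFK w10372 := fun D T h => wf_of_chk h (mem_cons (W161 D T h) mem_nil) mem_nil cw10372
theorem W10373 : WFK w10373 := fun D T h => wf_of_chk h mem_nil (mem_cons (L1533 D T h) mem_nil) cw10373
theorem L2405 : LFK l2405 := fun D T h => lf_of_chk h (mem_cons (W10363 D T h) (mem_cons (W1398 D T h) (mem_cons (W2918 D T h) (mem_cons (W161 D T h) (mem_cons (W16 D T h) (mem_cons (W10073 D T h) (mem_cons (W798 D T h) (mem_cons (W10366 D T h) (mem_cons (W1566 D T h) (mem_cons (W10372 D T h) (mem_cons (W10373 D T h) (mem_cons (W2015 D T h) (mem_cons (W10367 D T h) (mem_cons (W6679 D T h) (mem_cons (W6714 D T h) (mem_cons (W10368 D T h) (mem_cons (W8449 D T h) (mem_cons (W10352 D T h) (mem_cons (W10369 D T h) (mem_cons (W10356 D T h) (mem_cons (W505 D T h) (mem_cons (W3878 D T h) (mem_cons (W34 D T h) (mem_cons (W1919 D T h) (mem_cons (W10370 D T h) (mem_cons (W1409 D T h) (mem_cons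 (W10371 D T h) (mem_cons (W1311 D T h) (mem_cons (W10364 D T h) (mem_cons (W932 D T h) (mem_cons (W10365 D T h) mem_nil))))))))))))))))))))))))))))))) cl2405
theorem W10374 : WFK w10374 := fun D T h => wf_of_chk h mem_nil (mem_cons (L2405 D T h) mem_nil) cw10374
theorem W10375 : WFK w10375 := fun D T h => wf_of_chk h mem_nil (mem_cons (L658 D T h) mem_nil) cw10375
theorem W10376 : WFK w10376 := fun D T h => wf_of_chk h mem_nil (mem_cons (L955 D T h) mem_nil) cw10376
theorem W10377 : WFK w10377 := fun D T h => wf_of_chk h (mem_cons (W1 D T h) (mem_cons (W16 D T h) mem_nil)) mem_nil cw10377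
theorem W10378 : WFK w10378 := fun D T h => wf_of_chk h mem_nil (mem_cons (L449 D T h) mem_nil) cw10378
theorem W10379 : WFK w10379 := fun D T h => wf_of_chk h (mem_cons (W164 D T h) (mem_cons (W281 D T h) mem_nil)) mem_nil cw10379
theorem W10380 : WFK w10380 := fun D T h => wf_of_chk h (mem_cons (W162 D T h) (mem_cons (W281 D T h) mem_nil)) mem_nil cw10380
theorem W10381 : WFK w10381 := fun D T h => wf_of_chk h mem_nil (mem_cons (L454 D T h) mem_nil) cw10381
theorem W10382 : WFK w10382 := fun D T h => wf_of_chk h (mem_cons (W281 D T h) mem_nil) mem_nil cw10382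
theorem L2406 : LFK l2406 := fun D T h => lf_of_chk h (mem_cons (W10371 D T h) (mem_cons (W1398 D T h) (mem_cons (W2912 D T h) (mem_cons (W281 D T h) (mem_cons (W16 D T h) (mem_cons (W3199 D T h) (mem_cons (W219 D T h) (mem_cons (W1945 D T h) (mem_cons (W1566 D T h) (mem_cons (W10382 D T h) (mem_cons (W10373 D T h) (mem_cons (W10363 D T h) (mem_cons (W2015 D T h) (mem_cons (W10378 D T h) (mem_cons (W6714 D T h) (mem_cons (W10379 D T h) (mem_cons (W8449 D T h) (mem_cons (W10353 D T h) (mem_cons (W10380 D T h) (mem_cons (W10377 D T h) (mem_cons (W505 D T h) (mem_cons (W3878 D T h) (mem_cons (W34 D T h) (mem_cons (W1919 D T h) (mem_cons (W10381 D T h) (mem_cons (W461 D T h) (mem_cons (W6591 D T h) (mem_cons (W2925 D T h) (mem_cons (W10375 D T h) (mem_cons (W230 D T h) (mem_cons (W10376 D T h) mem_nil))))))))))))))))))))))))))))))) cl2406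
theorem W10383 : WFK w10383 := fun D T h => wf_of_chk h mem_nil (mem_cons (L2406 D T h) mem_nil) cw10383
theorem W10384 : WFK w10384 := fun D T h => wf_of_chk h (mem_cons (W1166 D T h) mem_nil) mem_nil cw10384
theorem L2407 : LFK l2407 := fun D T h => lf_of_chk h (mem_cons (W10373 D T h) (mem_cons (W1065 D T h) (mem_cons (W219 D T h) (mem_cons (W1 D T h) (mem_cons (W2919 D T h) (mem_cons (W181 D T h) (mem_cons (W8424 D T h) (mem_cons (W7719 D T h) (mem_cons (W4392 D T h) (mem_cons (W5721 D T h) (mem_cons (W3878 D T h) (mem_cons (W34 D T h) (mem_cons (W1919 D T h) (mem_cons (W7076 D T h) mem_nil)))))))))))))) cl2407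
theorem W10385 : WFK w10385 := fun D T h => wf_of_chk h mem_nil (mem_cons (L2407 D T h) mem_nil) cw10385
theorem W10386 : WFK w10386 := fun D T h => wf_of_chk h mem_nil (mem_cons (L1393 D T h) mem_nil) cw10386
theorem W10393 : WFK w10393 := fun D T h => wf_of_chk h mem_nil mem_nil cw10393
theorem L2408 : LFK l2408 := fun D T h => lf_of_chk h (mem_cons (W209 D T h) (mem_cons (W669 D T h) (mem_cons (W177 D T h) (mem_cons (W15 D T h) (mem_cons (W220 D T h) (mem_cons (W17 D T h) (mem_cons (W659 D T h) (mem_cons (W2919 D T h) (mem_cons (W142 D T h) (mem_cons (W1501 D T h) (mem_cons (W2561 D T h) (mem_cons (W2560 D T h) (mem_cons (W2621 D T h) (mem_cons (W2532 D T h) (mem_cons (W8380 D T h) (mem_cons (W6998 D T h) (mem_cons (W505 D T h) (mem_cons (W3212 D T h) (mem_cons (W1398 D T h) mem_nil))))))))))))))))))) cl2408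
theorem W10394 : WFK w10394 := fun D T h => wf_of_chk h mem_nil (mem_cons (L2408 D T h) mem_nil) cw10394
theorem W10395 : WFK w10395 := fun D T h => wf_of_chk h (mem_cons (W177 D T h) (mem_cons (W128 D T h) mem_nil)) mem_nil cw10395
theorem W10396 : WFK w10396 := fun D T h => wf_of_chk h mem_nil (mem_cons (L2225 D T h) mem_nil) cw10396
theorem W10397 : WFK w10397 := fun D T h => wf_of_chk h mem_nil (mem_cons (L1603 D T h) mem_nil) cw10397
theorem L2409 : LFK l2409 := fun D T h => lf_of_chk h (mem_cons (W2015 D T h) (mem_cons (W3356 D T h) (mem_cons (W581 D T h) (mem_cons (W669 D T h) (mem_cons (W667 D T h) (mem_cons (W9758 D T h) (mem_cons (W1929 D T h) (mem_cons (W1919 D T h) (mem_cons (W10396 D T h) (mem_cons (W10397 D T h) (mem_cons (W433 D T h) mem_nil))))))))))) cl2409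
theorem W10398 : WFK w10398 := fun D T h => wf_of_chk h mem_nil (mem_cons (L2409 D T h) mem_nil) cw10398
theorem L2410 : LFK l2410 := fun D T h => lf_of_chk h (mem_cons (W9740 D T h) (mem_cons (W1166 D T h) (mem_cons (W16 D T h) (mem_cons (W10348 D T h) (mem_cons (W128 D T h) (mem_cons (W9771 D T h) (mem_cons (W435 D T h) (mem_cons (W10384 D T h) (mem_cons (W10385 D T h) (mem_cons (W667 D T h) (mem_cons (W10386 D T h) (mem_cons (W669 D T h) (mem_cons (W10394 D T h) (mem_cons (W2326 D T h) (mem_cons (W10395 D T h) (mem_cons (W10398 D T h) (mem_cons (W2015 D T h) (mem_cons (W10349 D T h) (mem_cons (W6714 D T h) (mem_cons (W10350 D T h) (mem_cons (W8449 D T h) (mem_cons (W10354 D T h) (mem_cons (W10355 D T h) (mem_cons (W10358 D T h) (mem_cons (W209 D T h) (mem_cons (W9761 D T h) (mem_cons (W2912 D T h) (mem_cons (W10359 D T h) (mem_cons (W5721 D T h) (mem_cons (W10360 D T h) (mem_cons (W8424 D T h) (mem_cons (W9763 D T h) (mem_cons (W9764 D T h) (mem_cons (W10361 D T h) (mem_cons (W2037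 D T h) (mem_cons (W10362 D T h) (mem_cons (W10374 D T h) (mem_cons (W6760 D T h) (mem_cons (W10383 D T h) mem_nil))))))))))))))))))))))))))))))))))))))) cl2410
theorem W10399 : WFK w10399 := fun D T h => wf_of_chk h mem_nil (mem_cons (L2410 D T h) mem_nil) cw10399
theorem W10400 : WFK w10400 := fun D T h => wf_of_chk h (mem_cons (W3898 D T h) (mem_cons (W16 D T h) mem_nil)) mem_nil cw10400
theorem W10401 : WFK w10401 := fun D T h => wf_of_chk h (mem_cons (W3305 D T h) (mem_cons (W16 D T h) mem_nil)) mem_nil cw10401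
theorem W10402 : WFK w10402 := fun D T h => wf_of_chk h (mem_cons (W37 D T h) mem_nil) mem_nil cw10402
theorem W10403 : WFK w10403 := fun D T h => wf_of_chk h mem_nil (mem_cons (L1915 D T h) mem_nil) cw10403
theorem W10404 : WFK w10404 := fun D T h => wf_of_chk h mem_nil (mem_cons (L1915 D T h) mem_nil) cw10404
theorem W10405 : WFK w10405 := fun D T h => wf_of_chk h (mem_cons (W1291 D T h) (mem_cons (W16 D T h) mem_nil)) mem_nil cw10405
theorem L2411 : LFK l2411 := fun D T h => lf_of_chk h (mem_cons (W2321 D T h) (mem_cons (W3905 D T h) (mem_cons (W8977 D T h) (mem_cons (W37 D T h) (mem_cons (W3410 D T h) (mem_cons (W9720 D T h) (mem_cons (W9376 D T h) (mem_cons (W2963 D T h) (mem_cons (W10405 D T h) (mem_cons (W10399 D T h) (mem_cons (W9025 D T h) (mem_cons (W1213 D T h) (mem_cons (W10400 D T h) (mem_cons (W10401 D T h) (mem_cons (W2373 D T h) (mem_cons (W7119 D T h) (mem_cons (W9752 D T h) (mem_cons (W7159 D T h) (mem_cons (W7044 D T h) (mem_cons (W6990 D T h) (mem_cons (W9753 D T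 h) (mem_cons (W2015 D T h) (mem_cons (W2318 D T h) (mem_cons (W164 D T h) (mem_cons (W7582 D T h) (mem_cons (W3953 D T h) (mem_cons (W7228 D T h) (mem_cons (W177 D T h) (mem_cons (W10402 D T h) (mem_cons (W667 D T h) (mem_cons (W10403 D T h) (mem_cons (W669 D T h) mem_nil)))))))))))))))))))))))))))))))) cl2411
theorem W10406 : WFK w10406 := fun D T h => wf_of_chk h mem_nil (mem_cons (L2411 D T h) mem_nil) cw10406
theorem W10407 : WFK w10407 := fun D T h => wf_of_chk h mem_nil (mem_cons (L2221 D T h) mem_nil) cw10407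
theorem W10413 : WFK w10413 := fun D T h => wf_of_chk h mem_nil (mem_cons (L287 D T h) mem_nil) cw10413
theorem W10415 : WFK w10415 := fun D T h => wf_of_chk h (mem_cons (W2914 D T h) mem_nil) mem_nil cw10415
theorem W10416 : WFK w10416 := fun D T h => wf_of_chk h mem_nil (mem_cons (L670 D T h) mem_nil) cw10416
theorem W10417 : WFK w10417 := fun D T h => wf_of_chk h mem_nil (mem_cons (L1091 D T h) mem_nil) cw10417
theorem W10418 : WFK w10418 := fun D T h => wf_of_chk h (mem_cons (W10417 D T h) (mem_cons (W16 D T h) mem_nil)) mem_nil cw10418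
theorem W10419 : WFK w10419 := fun D T h => wf_of_chk h (mem_cons (W2031 D T h) mem_nil) mem_nil cw10419
theorem W10420 : WFK w10420 := fun D T h => wf_of_chk h (mem_cons (W758 D T h) mem_nil) mem_nil cw10420
theorem L2412 : LFK l2412 := fun D T h => lf_of_chk h (mem_cons (W5258 D T h) (mem_cons (W4256 D T h) (mem_cons (W4531 D T h) (mem_cons (W181 D T h) (mem_cons (W1 D T h) (mem_cons (W69 D T h) (mem_cons (W758 D T h) (mem_cons (W1927 D T h) (mem_cons (W1918 D T h) (mem_cons (W126 D T h) (mem_cons (W6891 D T h) (mem_cons (W10420 D T h) (mem_cons (W10419 D T h) (mem_cons (W4209 D T h) (mem_cons (W5574 D T h) (mem_cons (W1930 D T h) mem_nil)))))))))))))))) cl2412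
theorem W10421 : WFK w10421 := fun D T h => wf_of_chk h mem_nil (mem_cons (L2412 D T h) mem_nil) cw10421
theorem W10422 : WFK w10422 := fun D T h => wf_of_chk h (mem_cons (W1289 D T h) (mem_cons (W16 D T h) mem_nil)) mem_nil cw10422
theorem L2413 : LFK l2413 := fun D T h => lf_of_chk h (mem_cons (W1062 D T h) (mem_cons (W1502 D T h) (mem_cons (W8971 D T h) (mem_cons (W1635 D T h) (mem_cons (W4216 D T h) (mem_cons (W10422 D T h) (mem_cons (W181 D T h) (mem_cons (W6770 D T h) (mem_cons (W970 D T h) (mem_cons (W3284 D T h) (mem_cons (W284 D T h) (mem_cons (W2934 D T h) (mem_cons (W16 D T h) (mem_cons (W758 D T h) (mem_cons (W702 D T h) (mem_cons (W10421 D T h) (mem_cons (W2016 D T h) (mem_cons (W10415 D T h) (mem_cons (W50 D T h) (mem_cons (W5396 D T h) (mem_cons (W5194 D T h) (mem_cons (W10416 D T h) (mem_cons (W259 D T h) (mem_cons (W10418 D T h) (mem_cons (W3006 D T h) (mem_cons (W1911 D T h) (mem_cons (W8807 D T h) (mem_cons (W1914 D T h) (mem_cons (W1912 D T h) mem_nil)))))))))))))))))))))))))))))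 cl2413
theorem W10423 : WFK w10423 := fun D T h => wf_of_chk h mem_nil (mem_cons (L2413 D T h) mem_nil) cw10423
theorem L2414 : LFK l2414 := fun D T h => lf_of_chk h (mem_cons (W9025 D T h) (mem_cons (W3766 D T h) (mem_cons (W3719 D T h) (mem_cons (W6758 D T h) (mem_cons (W9206 D T h) (mem_cons (W16 D T h) (mem_cons (W1919 D T h) (mem_cons (W7114 D T h) (mem_cons (W5841 D T h) (mem_cons (W9351 D T h) (mem_cons (W8069 D T h) (mem_cons (W15 D T h) (mem_cons (W4025 D T h) (mem_cons (W1924 D T h) (mem_cons (W6372 D T h) mem_nil))))))))))))))) cl2414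
theorem W10424 : WFK w10424 := fun D T h => wf_of_chk h mem_nil (mem_cons (L2414 D T h) mem_nil) cw10424
theorem L2415 : LFK l2415 := fun D T h => lf_of_chk h (mem_cons (W9025 D T h) (mem_cons (W3766 D T h) (mem_cons (W3719 D T h) (mem_cons (W6758 D T h) (mem_cons (W9206 D T h) (mem_cons (W16 D T h) (mem_cons (W1919 D T h) (mem_cons (W932 D T h) (mem_cons (W8081 D T h) (mem_cons (W15 D T h) (mem_cons (W8082 D T h) mem_nil))))))))))) cl2415
theorem W10425 : WFK w10425 := fun D T h => wf_of_chk h mem_nil (mem_cons (L2415 D T h) mem_nil) cw10425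
theorem W10426 : WFK w10426 := fun D T h => wf_of_chk h (mem_cons (W16 D T h) (mem_cons (W69 D T h) mem_nil)) mem_nil cw10426
theorem W10427 : WFK w10427 := fun D T h => wf_of_chk h (mem_cons (W669 D T h) mem_nil) mem_nil cw10427
theorem L2416 : LFK l2416 := fun D T h => lf_of_chk h (mem_cons (W5258 D T h) (mem_cons (W2326 D T h) (mem_cons (W397 D T h) (mem_cons (W1 D T h) (mem_cons (W69 D T h) (mem_cons (W3412 D T h) (mem_cons (W8878 D T h) (mem_cons (W4256 D T h) (mem_cons (W3018 D T h) (mem_cons (W10426 D T h) (mem_cons (W4531 D T h) (mem_cons (W10427 D T h) (mem_cons (W4209 D T h) (mem_cons (W9025 D T h) (mem_cons (W10423 D T h) (mem_cons (W1719 D T h) (mem_cons (W2365 D T h) (mem_cons (W267 D T h) (mem_cons (W721 D T h) (mem_cons (W10424 D T h) (mem_cons (W114 D T h) (mem_cons (W10425 D T h) mem_nil)))))))))))))))))))))) cl2416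
theorem W10428 : WFK w10428 := fun D T h => wf_of_chk h mem_nil (mem_cons (L2416 D T h) mem_nil) cw10428
theorem W10429 : WFK w10429 := fun D T h => wf_of_chk h mem_nil (mem_cons (L554 D T h) mem_nil) cw10429
theorem W10430 : WFK w10430 := fun D T h => wf_of_chk h (mem_cons (W16 D T h) (mem_cons (W3016 D T h) mem_nil)) mem_nil cw10430
theorem W10431 : WFK w10431 := fun D T h => wf_of_chk h (mem_cons (W2914 D T h) (mem_cons (W3016 D T h) mem_nil)) mem_nil cw10431
theorem W10432 : WFK w10432 := fun D T h => wf_of_chk h (mem_cons (W128 D T h) (mem_cons (W3016 D T h) mem_nil)) mem_nil cw10432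
theorem W10433 : WFK w10433 := fun D T h => wf_of_chk h (mem_cons (W284 D T h) (mem_cons (W3016 D T h) mem_nil)) mem_nil cw10433
theorem W10434 : WFK w10434 := fun D T h => wf_of_chk h (mem_cons (W2839 D T h) (mem_cons (W3016 D T h) mem_nil)) mem_nil cw10434
theorem W10435 : WFK w10435 := fun D T h => wf_of_chk h mem_nil (mem_cons (L1621 D T h) mem_nil) cw10435
theorem W10436 : WFK w10436 := fun D T h => wf_of_chk h (mem_cons (W2839 D T h) (mem_cons (W3016 D T h) mem_nil)) mem_nil cw10436
theorem W10437 : WFK w10437 := fun D T h => wf_of_chk h (mem_cons (W1063 D T h) (mem_cons (W3016 D T h) mem_nil)) mem_nil cw10437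
theorem W10438 : WFK w10438 := fun D T h => wf_of_chk h (mem_cons (W167 D T h) (mem_cons (W3016 D T h) mem_nil)) mem_nil cw10438
theorem W10439 : WFK w10439 := fun D T h => wf_of_chk h mem_nil (mem_cons (L1632 D T h) mem_nil) cw10439
theorem W10440 : WFK w10440 := fun D T h => wf_of_chk h mem_nil (mem_cons (L24 D T h) mem_nil) cw10440
theorem L2417 : LFK l2417 := fun D T h => lf_of_chk h (mem_cons (W9025 D T h) (mem_cons (W1063 D T h) (mem_cons (W42 D T h) (mem_cons (W16 D T h) (mem_cons (W39 D T h) (mem_cons (W1011 D T h) (mem_cons (W7114 D T h) (mem_cons (W10440 D T h) (mem_cons (W15 D T h) (mem_cons (W10439 D T h) (mem_cons (W7112 D T h) (mem_cons (W8396 D T h) (mem_cons (W7544 D T h) (mem_cons (W6776 D T h) (mem_cons (W3766 D T h) (mem_cons (W9056 D T h) (mem_cons (W6719 D T h) (mem_cons (W6758 D T h) mem_nil)))))))))))))))))) cl2417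
theorem W10441 : WFK w10441 := fun D T h => wf_of_chk h mem_nil (mem_cons (L2417 D T h) mem_nil) cw10441
theorem W10442 : WFK w10442 := fun D T h => wf_of_chk h (mem_cons (W158 D T h) (mem_cons (W16 D T h) mem_nil)) mem_nil cw10442
theorem W10443 : WFK w10443 := fun D T h => wf_of_chk h (mem_cons (W284 D T h) mem_nil) mem_nil cw10443
theorem W10444 : WFK w10444 := fun D T h => wf_of_chk h (mem_cons (W105 D T h) (mem_cons (W284 D T h) mem_nil)) mem_nil cw10444
theorem W10445 : WFK w10445 := fun D T h => wf_of_chk h (mem_cons (W105 D T h) (mem_cons (W284 D T h) mem_nil)) mem_nil cw10445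
theorem W10446 : WFK w10446 := fun D T h => wf_of_chk h (mem_cons (W1106 D T h) (mem_cons (W16 D T h) mem_nil)) mem_nil cw10446
theorem W10447 : WFK w10447 := fun D T h => wf_of_chk h mem_nil (mem_cons (L515 D T h) mem_nil) cw10447
theorem W10448 : WFK w10448 := fun D T h => wf_of_chk h mem_nil (mem_cons (L1624 D T h) mem_nil) cw10448
theorem W10449 : WFK w10449 := fun D T h => wf_of_chk h mem_nil (mem_cons (L1622 D T h) mem_nil) cw10449
theorem W10450 : WFK w10450 := fun D T h => wf_of_chk h mem_nil (mem_cons (L1624 D T h) mem_nil) cw10450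
theorem L2418 : LFK l2418 := fun D T h => lf_of_chk h (mem_cons (W1502 D T h) (mem_cons (W177 D T h) (mem_cons (W16 D T h) (mem_cons (W50 D T h) (mem_cons (W1408 D T h) (mem_cons (W2373 D T h) (mem_cons (W2997 D T h) (mem_cons (W24 D T h) (mem_cons (W209 D T h) (mem_cons (W2338 D T h) (mem_cons (W2344 D T h) (mem_cons (W2343 D T h) (mem_cons (W2821 D T h) (mem_cons (W1561 D T h) (mem_cons (W176 D T h) (mem_cons (W3666 D T h) (mem_cons (W42 D T h) (mem_cons (W6498 D T h) (mem_cons (W2050 D T h) (mem_cons (W2051 D T h) (mem_cons (W2049 D T h) (mem_cons (W341 D T h) (mem_cons (W342 D T h) (mem_cons (W2219 D T h) (mem_cons (W1676 D T h) mem_nil))))))))))))))))))))))))) cl2418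
theorem W10451 : WFK w10451 := fun D T h => wf_of_chk h mem_nil (mem_cons (L2418 D T h) mem_nil) cw10451
theorem W10452 : WFK w10452 := fun D T h => wf_of_chk h mem_nil (mem_cons (L554 D T h) mem_nil) cw10452
theorem W10453 : WFK w10453 := fun D T h => wf_of_chk h (mem_cons (W16 D T h) (mem_cons (W10442 D T h) mem_nil)) mem_nil cw10453
theorem L2419 : LFK l2419 := fun D T h => lf_of_chk h (mem_cons (W10429 D T h) (mem_cons (W2322 D T h) (mem_cons (W5565 D T h) (mem_cons (W5240 D T h) (mem_cons (W3016 D T h) (mem_cons (W2934 D T h) (mem_cons (W16 D T h) (mem_cons (W4392 D T h) (mem_cons (W8878 D T h) (mem_cons (W8880 D T h) (mem_cons (W10430 D T h) (mem_cons (W9724 D T h) (mem_cons (W10437 D T h) (mem_cons (W284 D T h) (mem_cons (W10438 D T h) (mem_cons (W10433 D T h) (mem_cons (W50 D T h) (mem_cons (W669 D T h) (mem_cons (W10431 D T h) (mem_cons (W10432 D T h) (mem_cons (W6904 D T h) (mem_cons (W6892 D T h) (mem_cons (W5601 D T h) (mem_cons (W8783 D T h) (mem_cons (W2936 D T h) (mem_cons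 (W6613 D T h) (mem_cons (W9701 D T h) (mem_cons (W8168 D T h) (mem_cons (W10434 D T h) (mem_cons (W10435 D T h) (mem_cons (W10436 D T h) (mem_cons (W9395 D T h) (mem_cons (W10441 D T h) (mem_cons (W10442 D T h) (mem_cons (W10443 D T h) (mem_cons (W10444 D T h) (mem_cons (W5608 D T h) (mem_cons (W10445 D T h) (mem_cons (W10453 D T h) (mem_cons (W2346 D T h) (mem_cons (W10446 D T h) (mem_cons (W1690 D T h) (mem_cons (W10447 D T h) (mem_cons (W3543 D T h) (mem_cons (W10448 D T h) (mem_cons (W10449 D T h) (mem_cons (W10450 D T h) (mem_cons (W10451 D T h) (mem_cons (W8393 D T h) (mem_cons (W2952 D T h) (mem_cons (W10452 D T h) mem_nil))))))))))))))))))))))))))))))))))))))))))))))))))) cl2419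
theorem W10454 : WFK w10454 := fun D T h => wf_of_chk h mem_nil (mem_cons (L2419 D T h) mem_nil) cw10454
theorem W10455 : WFK w10455 := fun D T h => wf_of_chk h (mem_cons (W220 D T h) (mem_cons (W2326 D T h) mem_nil)) mem_nil cw10455
theorem W10456 : WFK w10456 := fun D T h => wf_of_chk h mem_nil (mem_cons (L2416 D T h) mem_nil) cw10456
theorem W10457 : WFK w10457 := fun D T h => wf_of_chk h mem_nil (mem_cons (L2416 D T h) mem_nil) cw10457
theorem W10458 : WFK w10458 := fun D T h => wf_of_chk h mem_nil (mem_cons (L2416 D T h) mem_nil) cw10458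
theorem W10459 : WFK w10459 := fun D T h => wf_of_chk h mem_nil (mem_cons (L2416 D T h) mem_nil) cw10459
theorem W10460 : WFK w10460 := fun D T h => wf_of_chk h (mem_cons (W161 D T h) (mem_cons (W2997 D T h) mem_nil)) mem_nil cw10460
theorem L2420 : LFK l2420 := fun D T h => lf_of_chk h (mem_cons (W4038 D T h) (mem_cons (W1 D T h) (mem_cons (W2326 D T h) (mem_cons (W6095 D T h) (mem_cons (W795 D T h) (mem_cons (W5258 D T h) (mem_cons (W1070 D T h) (mem_cons (W10459 D T h) (mem_cons (W2365 D T h) (mem_cons (W3274 D T h) (mem_cons (W1109 D T h) (mem_cons (W10253 D T h) (mem_cons (W10344 D T h) (mem_cons (W10460 D T h) (mem_cons (W8913 D T h) mem_nil))))))))))))))) cl2420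
theorem W10461 : WFK w10461 := fun D T h => wf_of_chk h mem_nil (mem_cons (L2420 D T h) mem_nil) cw10461
theorem W10462 : WFK w10462 := fun D T h => wf_of_chk h (mem_cons (W162 D T h) (mem_cons (W2997 D T h) mem_nil)) mem_nil cw10462
theorem W10463 : WFK w10463 := fun D T h => wf_of_chk h (mem_cons (W16 D T h) (mem_cons (W2997 D T h) mem_nil)) mem_nil cw10463
theorem W10464 : WFK w10464 := fun D T h => wf_of_chk h mem_nil (mem_cons (L1884 D T h) mem_nil) cw10464
theorem W10465 : WFK w10465 := fun D T h => wf_of_chk h mem_nil (mem_cons (L717 D T h) mem_nil) cw10465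
theorem W10466 : WFK w10466 := fun D T h => wf_of_chk h mem_nil (mem_cons (L717 D T h) mem_nil) cw10466
theorem W10467 : WFK w10467 := fun D T h => wf_of_chk h mem_nil (mem_cons (L717 D T h) mem_nil) cw10467
theorem W10468 : WFK w10468 := fun D T h => wf_of_chk h (mem_cons (W50 D T h) (mem_cons (W16 D T h) mem_nil)) mem_nil cw10468
theorem W10469 : WFK w10469 := fun D T h => wf_of_chk h mem_nil (mem_cons (L1884 D T h) mem_nil) cw10469
theorem W10470 : WFK w10470 := fun D T h => wf_of_chk h (mem_cons (W7018 D T h) (mem_cons (W16 D T h) mem_nil)) mem_nil cw10470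
theorem W10471 : WFK w10471 := fun D T h => wf_of_chk h (mem_cons (W2159 D T h) (mem_cons (W16 D T h) mem_nil)) mem_nil cw10471
theorem W10472 : WFK w10472 := fun D T h => wf_of_chk h mem_nil (mem_cons (L344 D T h) mem_nil) cw10472
theorem W10473 : WFK w10473 := fun D T h => wf_of_chk h (mem_cons (W10472 D T h) (mem_cons (W16 D T h) mem_nil)) mem_nil cw10473
theorem W10474 : WFK w10474 := fun D T h => wf_of_chk h (mem_cons (W7116 D T h) (mem_cons (W16 D T h) mem_nil)) mem_nil cw10474
theorem W10475 : WFK w10475 := fun D T h => wf_of_chk h (mem_cons (W2373 D T h) (mem_cons (W16 D T h) mem_nil)) mem_nil cw10475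
theorem W10477 : WFK w10477 := fun D T h => wf_of_chk h (mem_cons (W2997 D T h) (mem_cons (W16 D T h) mem_nil)) mem_nil cw10477
theorem L2421 : LFK l2421 := fun D T h => lf_of_chk h (mem_cons (W10407 D T h) (mem_cons (W3013 D T h) (mem_cons (W5721 D T h) (mem_cons (W3125 D T h) (mem_cons (W6956 D T h) (mem_cons (W5197 D T h) (mem_cons (W6439 D T h) (mem_cons (W10475 D T h) (mem_cons (W9721 D T h) (mem_cons (W10463 D T h) (mem_cons (W5208 D T h) (mem_cons (W3012 D T h) (mem_cons (W7862 D T h) (mem_cons (W6601 D T h) (mem_cons (W10464 D T h) (mem_cons (W8950 D T h) (mem_cons (W10465 D T h) (mem_cons (W10466 D T h) (mem_cons (W10467 D T h) (mem_cons (W6811 D T h) (mem_cons (W6820 D T h) (mem_cons (W6980 D T h) (mem_cons (W10468 D T h) (mem_cons (W10469 D T h) (mem_cons (W6438 D T h) (mem_cons (W8292 D T h) (mem_cons (W4098 D T h) (mem_cons (W10477 D T h) (mem_cons (W2037 D T h) (mem_cons (W10470 D T h) (mem_cons (W10471 D T h) (mem_cons (W8947 D T h) (mem_cons (W10473 D T h) (mem_cons (W10474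 D T h) (mem_cons (W16 D T h) (mem_cons (W2326 D T h) (mem_cons (W10428 D T h) (mem_cons (W6550 D T h) (mem_cons (W2015 D T h) (mem_cons (W10461 D T h) (mem_cons (W2709 D T h) (mem_cons (W10462 D T h) (mem_cons (W5258 D T h) (mem_cons (W10454 D T h) (mem_cons (W10455 D T h) (mem_cons (W10456 D T h) (mem_cons (W8919 D T h) (mem_cons (W10457 D T h) (mem_cons (W10458 D T h) mem_nil))))))))))))))))))))))))))))))))))))))))))))))))) cl2421
theorem W10478 : WFK w10478 := fun D T h => wf_of_chk h mem_nil (mem_cons (L2421 D T h) mem_nil) cw10478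
theorem W10480 : WFK w10480 := fun D T h => wf_of_chk h mem_nil (mem_cons (L777 D T h) mem_nil) cw10480
theorem W10482 : WFK w10482 := fun D T h => wf_of_chk h mem_nil (mem_cons (L1511 D T h) mem_nil) cw10482
theorem W10483 : WFK w10483 := fun D T h => wf_of_chk h mem_nil (mem_cons (L1315 D T h) mem_nil) cw10483
theorem W10489 : WFK w10489 := fun D T h => wf_of_chk h (mem_cons (W284 D T h) mem_nil) mem_nil cw10489
theorem W10490 : WFK w10490 := fun D T h => wf_of_chk h mem_nil (mem_cons (L444 D T h) mem_nil) cw10490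
theorem W10503 : WFK w10503 := fun D T h => wf_of_chk h mem_nil (mem_cons (L1055 D T h) mem_nil) cw10503
theorem W10504 : WFK w10504 := fun D T h => wf_of_chk h mem_nil (mem_cons (L2346 D T h) mem_nil) cw10504
theorem W10505 : WFK w10505 := fun D T h => wf_of_chk h mem_nil (mem_cons (L1194 D T h) mem_nil) cw10505
theorem W10506 : WFK w10506 := fun D T h => wf_of_chk h (mem_cons (W42 D T h) mem_nil) mem_nil cw10506
theorem W10507 : WFK w10507 := fun D T h => wf_of_chk h mem_nil (mem_cons (L2346 D T h) mem_nil) cw10507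
theorem W10508 : WFK w10508 := fun D T h => wf_of_chk h mem_nil (mem_cons (L187 D T h) mem_nil) cw10508
theorem W10509 : WFK w10509 := fun D T h => wf_of_chk h (mem_cons (W581 D T h) mem_nil) mem_nil cw10509
theorem L2430 : LFK l2430 := fun D T h => lf_of_chk h (mem_cons (W1326 D T h) mem_nil) cl2430
theorem W10510 : WFK w10510 := fun D T h => wf_of_chk h mem_nil (mem_cons (L2430 D T h) mem_nil) cw10510
theorem W10511 : WFK w10511 := fun D T h => wf_of_chk h (mem_cons (W220 D T h) (mem_cons (W3 D T h) mem_nil)) mem_nil cw10511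
theorem W10512 : WFK w10512 := fun D T h => wf_of_chk h (mem_cons (W461 D T h) mem_nil) mem_nil cw10512
theorem W10513 : WFK w10513 := fun D T h => wf_of_chk h (mem_cons (W42 D T h) mem_nil) mem_nil cw10513
theorem L2431 : LFK l2431 := fun D T h => lf_of_chk h (mem_cons (W9413 D T h) (mem_cons (W39 D T h) (mem_cons (W3 D T h) (mem_cons (W10508 D T h) (mem_cons (W42 D T h) (mem_cons (W10512 D T h) (mem_cons (W6714 D T h) (mem_cons (W10513 D T h) (mem_cons (W267 D T h) (mem_cons (W932 D T h) (mem_cons (W722 D T h) (mem_cons (W1139 D T h) (mem_cons (W5585 D T h) (mem_cons (W10509 D T h) (mem_cons (W10510 D T h) (mem_cons (W10511 D T h) (mem_cons (W164 D T h) (mem_cons (W10503 D T h) (mem_cons (W10083 D T h) (mem_cons (W10504 D T h) (mem_cons (W6757 D T h) (mem_cons (W10505 D T h) (mem_cons (W10506 D T h) (mem_cons (W10507 D T h) (mem_cons (W3766 D T h) (mem_cons (W4789 D T h) (mem_cons (W1564 D T h) (mem_cons (W6582 D T h) mem_nil)))))))))))))))))))))))))))) cl2431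
theorem W10522 : WFK w10522 := fun D T h => wf_of_chk h mem_nil (mem_cons (L836 D T h) mem_nil) cw10522
theorem W10530 : WFK w10530 := fun D T h => wf_of_chk h (mem_cons (W9143 D T h) (mem_cons (W16 D T h) mem_nil)) mem_nil cw10530
theorem L2436 : LFK l2436 := fun D T h => lf_of_chk h (mem_cons (W3 D T h) (mem_cons (W1342 D T h) (mem_cons (W8636 D T h) mem_nil))) cl2436
theorem W10531 : WFK w10531 := fun D T h => wf_of_chk h mem_nil (mem_cons (L2436 D T h) mem_nil) cw10531
theorem W10536 : WFK w10536 := fun D T h => wf_of_chk h mem_nil (mem_cons (L2257 D T h) mem_nil) cw10536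
theorem L2437 : LFK l2437 := fun D T h => lf_of_chk h (mem_cons (W5841 D T h) (mem_cons (W3 D T h) (mem_cons (W3378 D T h) (mem_cons (W4447 D T h) (mem_cons (W8201 D T h) (mem_cons (W10536 D T h) (mem_cons (W1379 D T h) (mem_cons (W1556 D T h) (mem_cons (W5482 D T h) (mem_cons (W6798 D T h) (mem_cons (W1325 D T h) (mem_cons (W6793 D T h) (mem_cons (W1919 D T h) (mem_cons (W39 D T h) mem_nil)))))))))))))) cl2437
theorem W10537 : WFK w10537 := fun D T h => wf_of_chk h mem_nil (mem_cons (L2437 D T h) mem_nil) cw10537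
theorem L2440 : LFK l2440 := fun D T h => lf_of_chk h (mem_cons (W154 D T h) (mem_cons (W16 D T h) (mem_cons (W9125 D T h) (mem_cons (W1371 D T h) (mem_cons (W86 D T h) (mem_cons (W3031 D T h) (mem_cons (W923 D T h) (mem_cons (W7718 D T h) (mem_cons (W1563 D T h) (mem_cons (W179 D T h) mem_nil)))))))))) cl2440
theorem L2451 : LFK l2451 := fun D T h => lf_of_chk h (mem_cons (W1489 D T h) (mem_cons (W4 D T h) (mem_cons (W11 D T h) (mem_cons (W1737 D T h) (mem_cons (W1400 D T h) (mem_cons (W170 D T h) mem_nil)))))) cl2451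
theorem W10579 : WFK w10579 := fun D T h => wf_of_chk h mem_nil (mem_cons (L2451 D T h) mem_nil) cw10579
theorem W10605 : WFK w10605 := fun D T h => wf_of_chk h mem_nil (mem_cons (L777 D T h) mem_nil) cw10605
theorem W10619 : WFK w10619 := fun D T h => wf_of_chk h mem_nil mem_nil cw10619
theorem W10620 : WFK w10620 := fun D T h => wf_of_chk h mem_nil (mem_cons (L1608 D T h) mem_nil) cw10620
theorem W10624 : WFK w10624 := fun D T h => wf_of_chk h mem_nil (mem_cons (L1544 D T h) mem_nil) cw10624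
theorem W10650 : WFK w10650 := fun D T h => wf_of_chk h mem_nil (mem_cons (L2440 D T h) mem_nil) cw10650
theorem L2466 : LFK l2466 := fun D T h => lf_of_chk h (mem_cons (W281 D T h) mem_nil) cl2466
theorem W10661 : WFK w10661 := fun D T h => wf_of_chk h mem_nil (mem_cons (L2466 D T h) mem_nil) cw10661
theorem L2467 : LFK l2467 := fun D T h => lf_of_chk h (mem_cons (W281 D T h) mem_nil) cl2467
theorem W10662 : WFK w10662 := fun D T h => wf_of_chk h mem_nil (mem_cons (L2467 D T h) mem_nil) cw10662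
theorem W10663 : WFK w10663 := fun D T h => wf_of_chk h mem_nil (mem_cons (L2467 D T h) mem_nil) cw10663
theorem W10664 : WFK w10664 := fun D T h => wf_of_chk h mem_nil (mem_cons (L413 D T h) mem_nil) cw10664
theorem W10668 : WFK w10668 := fun D T h => wf_of_chk h mem_nil (mem_cons (L1514 D T h) mem_nil) cw10668
theorem W10673 : WFK w10673 := fun D T h => wf_of_chk h mem_nil mem_nil cw10673
theorem W10675 : WFK w10675 := fun D T h => wf_of_chk h mem_nil (mem_cons (L409 D T h) mem_nil) cw10675
theorem W10676 : WFK w10676 := fun D T h => wf_of_chk h mem_nil mem_nil cw10676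
theorem L2472 : LFK l2472 := fun D T h => lf_of_chk h (mem_cons (W2517 D T h) (mem_cons (W16 D T h) (mem_cons (W7552 D T h) (mem_cons (W281 D T h) (mem_cons (W972 D T h) (mem_cons (W114 D T h) (mem_cons (W2137 D T h) (mem_cons (W33 D T h) (mem_cons (W181 D T h) (mem_cons (W105 D T h) (mem_cons (W80 D T h) (mem_cons (W7109 D T h) (mem_cons (W7618 D T h) (mem_cons (W3031 D T h) (mem_cons (W2468 D T h) (mem_cons (W2515 D T h) mem_nil)))))))))))))))) cl2472
theorem W10681 : WFK w10681 := fun D T h => wf_of_chk h mem_nil (mem_cons (L2472 D T h) mem_nil) cw10681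
theorem W10682 : WFK w10682 := fun D T h => wf_of_chk h (mem_cons (W220 D T h) (mem_cons (W6552 D T h) mem_nil)) mem_nil cw10682
theorem W10683 : WFK w10683 := fun D T h => wf_of_chk h (mem_cons (W6552 D T h) mem_nil) mem_nil cw10683
theorem L2473 : LFK l2473 := fun D T h => lf_of_chk h (mem_cons (W4531 D T h) (mem_cons (W6714 D T h) (mem_cons (W461 D T h) (mem_cons (W69 D T h) (mem_cons (W1 D T h) (mem_cons (W86 D T h) (mem_cons (W487 D T h) (mem_cons (W6552 D T h) (mem_cons (W1206 D T h) (mem_cons (W1501 D T h) (mem_cons (W85 D T h) (mem_cons (W78 D T h) (mem_cons (W105 D T h) (mem_cons (W6725 D T h) (mem_cons (W33 D T h) (mem_cons (W4260 D T h) (mem_cons (W573 D T h) (mem_cons (W5943 D T h) (mem_cons (W5472 D T h) (mem_cons (W1202 D T h) (mem_cons (W6834 D T h) (mem_cons (W10683 D T h) (mem_cons (W10225 D T h) mem_nil))))))))))))))))))))))) cl2473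
theorem W10684 : WFK w10684 := fun D T h => wf_of_chk h mem_nil (mem_cons (L2473 D T h) mem_nil) cw10684
theorem W10685 : WFK w10685 := fun D T h => wf_of_chk h mem_nil (mem_cons (L165 D T h) mem_nil) cw10685
theorem L2474 : LFK l2474 := fun D T h => lf_of_chk h (mem_cons (W871 D T h) (mem_cons (W864 D T h) (mem_cons (W2743 D T h) (mem_cons (W80 D T h) (mem_cons (W33 D T h) (mem_cons (W220 D T h) (mem_cons (W10685 D T h) mem_nil))))))) cl2474
theorem W10686 : WFK w10686 := fun D T h => wf_of_chk h mem_nil (mem_cons (L2474 D T h) mem_nil) cw10686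
theorem W10687 : WFK w10687 := fun D T h => wf_of_chk h (mem_cons (W75 D T h) (mem_cons (W220 D T h) mem_nil)) mem_nil cw10687
theorem W10688 : WFK w10688 := fun D T h => wf_of_chk h (mem_cons (W78 D T h) (mem_cons (W220 D T h) mem_nil)) mem_nil cw10688
theorem W10689 : WFK w10689 := fun D T h => wf_of_chk h mem_nil (mem_cons (L507 D T h) mem_nil) cw10689
theorem W10690 : WFK w10690 := fun D T h => wf_of_chk h mem_nil (mem_cons (L101 D T h) mem_nil) cw10690
theorem L2475 : LFK l2475 := fun D T h => lf_of_chk h (mem_cons (W4531 D T h) (mem_cons (W1326 D T h) (mem_cons (W220 D T h) (mem_cons (W1 D T h) (mem_cons (W69 D T h) (mem_cons (W86 D T h) (mem_cons (W1501 D T h) (mem_cons (W85 D T h) (mem_cons (W1206 D T h) (mem_cons (W88 D T h) (mem_cons (W105 D T h) (mem_cons (W6006 D T h) (mem_cons (W6725 D T h) (mem_cons (W4260 D T h) (mem_cons (W6932 D T h) (mem_cons (W10148 D T h) (mem_cons (W10687 D T h) (mem_cons (W10688 D T h) (mem_cons (W6824 D T h) (mem_cons (W10686 D T h) (mem_cons (W1204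 D T h) (mem_cons (W1170 D T h) (mem_cons (W267 D T h) (mem_cons (W114 D T h) (mem_cons (W721 D T h) (mem_cons (W10689 D T h) (mem_cons (W10690 D T h) mem_nil))))))))))))))))))))))))))) cl2475
theorem W10691 : WFK w10691 := fun D T h => wf_of_chk h mem_nil (mem_cons (L2475 D T h) mem_nil) cw10691
theorem L2476 : LFK l2476 := fun D T h => lf_of_chk h (mem_cons (W581 D T h) (mem_cons (W267 D T h) (mem_cons (W114 D T h) (mem_cons (W281 D T h) (mem_cons (W1170 D T h) (mem_cons (W1128 D T h) (mem_cons (W140 D T h) (mem_cons (W10482 D T h) (mem_cons (W16 D T h) (mem_cons (W3274 D T h) (mem_cons (W12 D T h) (mem_cons (W5358 D T h) (mem_cons (W1556 D T h) (mem_cons (W4162 D T h) (mem_cons (W871 D T h) (mem_cons (W160 D T h) (mem_cons (W255 D T h) (mem_cons (W747 D T h) mem_nil)))))))))))))))))) cl2476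
theorem W10692 : WFK w10692 := fun D T h => wf_of_chk h mem_nil (mem_cons (L2476 D T h) mem_nil) cw10692
theorem W10693 : WFK w10693 := fun D T h => wf_of_chk h mem_nil (mem_cons (L1707 D T h) mem_nil) cw10693
theorem L2477 : LFK l2477 := fun D T h => lf_of_chk h (mem_cons (W6835 D T h) (mem_cons (W42 D T h) (mem_cons (W6811 D T h) (mem_cons (W164 D T h) (mem_cons (W5594 D T h) (mem_cons (W6714 D T h) (mem_cons (W970 D T h) (mem_cons (W6727 D T h) (mem_cons (W8980 D T h) (mem_cons (W2674 D T h) (mem_cons (W2017 D T h) (mem_cons (W722 D T h) (mem_cons (W114 D T h) (mem_cons (W2517 D T h) (mem_cons (W6572 D T h) (mem_cons (W6841 D T h) (mem_cons (W2843 D T h) (mem_cons (W2844 D T h) (mem_cons (W10691 D T h) (mem_cons (W10693 D T h) (mem_cons (W6719 D T h) (mem_cons (W10692 D T h) (mem_cons (W461 D T h) (mem_cons (W16 D T h) (mem_cons (W6821 D T h) (mem_cons (W10684 D T h) (mem_cons (W6838 D T h) (mem_cons (W6839 D T h) (mem_cons (W2936 D T h) (mem_cons (W6830 D T h) (mem_cons (W2422 D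 T h) (mem_cons (W220 D T h) (mem_cons (W1139 D T h) (mem_cons (W10682 D T h) (mem_cons (W6832 D T h) (mem_cons (W6829 D T h) mem_nil)))))))))))))))))))))))))))))))))))) cl2477
theorem W10694 : WFK w10694 := fun D T h => wf_of_chk h mem_nil (mem_cons (L2477 D T h) mem_nil) cw10694
theorem W10695 : WFK w10695 := fun D T h => wf_of_chk h mem_nil (mem_cons (L1693 D T h) mem_nil) cw10695
theorem L2478 : LFK l2478 := fun D T h => lf_of_chk h (mem_cons (W42 D T h) (mem_cons (W16 D T h) (mem_cons (W175 D T h) (mem_cons (W3 D T h) (mem_cons (W6552 D T h) (mem_cons (W3207 D T h) (mem_cons (W1 D T h) (mem_cons (W8723 D T h) (mem_cons (W181 D T h) (mem_cons (W267 D T h) (mem_cons (W638 D T h) (mem_cons (W220 D T h) (mem_cons (W3766 D T h) mem_nil))))))))))))) cl2478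
theorem W10696 : WFK w10696 := fun D T h => wf_of_chk h mem_nil (mem_cons (L2478 D T h) mem_nil) cw10696
theorem W10697 : WFK w10697 := fun D T h => wf_of_chk h mem_nil (mem_cons (L2478 D T h) mem_nil) cw10697
theorem L2479 : LFK l2479 := fun D T h => lf_of_chk h (mem_cons (W1458 D T h) (mem_cons (W2997 D T h) (mem_cons (W16 D T h) (mem_cons (W6550 D T h) (mem_cons (W42 D T h) (mem_cons (W10694 D T h) (mem_cons (W164 D T h) (mem_cons (W6814 D T h) (mem_cons (W455 D T h) (mem_cons (W6613 D T h) (mem_cons (W1599 D T h) (mem_cons (W2714 D T h) (mem_cons (W1357 D T h) (mem_cons (W220 D T h) (mem_cons (W1139 D T h) (mem_cons (W2366 D T h) (mem_cons (W6817 D T h) (mem_cons (W6477 D T h) (mem_cons (W10681 D T h) (mem_cons (W10695 D T h) (mem_cons (W7466 D T h) (mem_cons (W10697 D T h) (mem_cons (W10696 D T h) (mem_cons (W9025 D T h) (mem_cons (W6811 D T h) (mem_cons (W4397 D T h) (mem_cons (W6494 D T h) (mem_cons (W9413 D T h) (mem_cons (W6835 D T h) mem_nil))))))))))))))))))))))))))))) cl2479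
theorem W10698 : WFK w10698 := fun D T h => wf_of_chk h mem_nil (mem_cons (L2479 D T h) mem_nil) cw10698
theorem W10699 : WFK w10699 := fun D T h => wf_of_chk h (mem_cons (W1322 D T h) (mem_cons (W1318 D T h) mem_nil)) mem_nil cw10699
theorem W10701 : WFK w10701 := fun D T h => wf_of_chk h mem_nil (mem_cons (L1832 D T h) mem_nil) cw10701
theorem L2481 : LFK l2481 := fun D T h => lf_of_chk h (mem_cons (W581 D T h) (mem_cons (W1298 D T h) (mem_cons (W8595 D T h) (mem_cons (W8633 D T h) (mem_cons (W1616 D T h) (mem_cons (W5358 D T h) (mem_cons (W10701 D T h) (mem_cons (W1 D T h) (mem_cons (W141 D T h) (mem_cons (W140 D T h) (mem_cons (W1128 D T h) (mem_cons (W2364 D T h) (mem_cons (W747 D T h) (mem_cons (W255 D T h) (mem_cons (W160 D T h) (mem_cons (W871 D T h) mem_nil)))))))))))))))) cl2481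
theorem W10702 : WFK w10702 := fun D T h => wf_of_chk h mem_nil (mem_cons (L2481 D T h) mem_nil) cw10702
theorem W10703 : WFK w10703 := fun D T h => wf_of_chk h (mem_cons (W1298 D T h) (mem_cons (W1318 D T h) mem_nil)) mem_nil cw10703
theorem W10705 : WFK w10705 := fun D T h => wf_of_chk h mem_nil (mem_cons (L2082 D T h) mem_nil) cw10705
theorem W10706 : WFK w10706 := fun D T h => wf_of_chk h (mem_cons (W69 D T h) (mem_cons (W6997 D T h) mem_nil)) mem_nil cw10706
theorem W10707 : WFK w10707 := fun D T h => wf_of_chk h (mem_cons (W105 D T h) (mem_cons (W6997 D T h) mem_nil)) mem_nil cw10707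
theorem W10708 : WFK w10708 := fun D T h => wf_of_chk h (mem_cons (W521 D T h) (mem_cons (W6997 D T h) mem_nil)) mem_nil cw10708
theorem W10709 : WFK w10709 := fun D T h => wf_of_chk h (mem_cons (W220 D T h) (mem_cons (W4531 D T h) mem_nil)) mem_nil cw10709
theorem W10710 : WFK w10710 := fun D T h => wf_of_chk h (mem_cons (W220 D T h) (mem_cons (W4531 D T h) mem_nil)) mem_nil cw10710
theorem W10711 : WFK w10711 := fun D T h => wf_of_chk h (mem_cons (W616 D T h) (mem_cons (W6997 D T h) mem_nil)) mem_nil cw10711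
theorem W10712 : WFK w10712 := fun D T h => wf_of_chk h (mem_cons (W1170 D T h) (mem_cons (W6997 D T h) mem_nil)) mem_nil cw10712
theorem W10713 : WFK w10713 := fun D T h => wf_of_chk h (mem_cons (W183 D T h) (mem_cons (W6997 D T h) mem_nil)) mem_nil cw10713
theorem W10714 : WFK w10714 := fun D T h => wf_of_chk h (mem_cons (W4531 D T h) (mem_cons (W16 D T h) mem_nil)) mem_nil cw10714
theorem W10715 : WFK w10715 := fun D T h => wf_of_chk h mem_nil (mem_cons (L42 D T h) mem_nil) cw10715
theorem W10716 : WFK w10716 := fun D T h => wf_of_chk h (mem_cons (W10715 D T h) (mem_cons (W144 D T h) mem_nil)) mem_nil cw10716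
theorem W10717 : WFK w10717 := fun D T h => wf_of_chk h (mem_cons (W1371 D T h) (mem_cons (W144 D T h) mem_nil)) mem_nil cw10717
theorem W10718 : WFK w10718 := fun D T h => wf_of_chk h mem_nil (mem_cons (L0 D T h) mem_nil) cw10718
theorem W10719 : WFK w10719 := fun D T h => wf_of_chk h (mem_cons (W10718 D T h) (mem_cons (W144 D T h) mem_nil)) mem_nil cw10719
theorem W10720 : WFK w10720 := fun D T h => wf_of_chk h (mem_cons (W93 D T h) (mem_cons (W6997 D T h) mem_nil)) mem_nil cw10720
theorem W10721 : WFK w10721 := fun D T h => wf_of_chk h (mem_cons (W162 D T h) (mem_cons (W4531 D T h) mem_nil)) mem_nil cw10721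
theorem L2483 : LFK l2483 := fun D T h => lf_of_chk h (mem_cons (W2423 D T h) (mem_cons (W6074 D T h) (mem_cons (W2015 D T h) (mem_cons (W535 D T h) (mem_cons (W537 D T h) (mem_cons (W461 D T h) (mem_cons (W230 D T h) (mem_cons (W144 D T h) (mem_cons (W16 D T h) (mem_cons (W932 D T h) (mem_cons (W3696 D T h) (mem_cons (W10706 D T h) (mem_cons (W10720 D T h) (mem_cons (W2037 D T h) (mem_cons (W8783 D T h) (mem_cons (W10721 D T h) (mem_cons (W519 D T h) (mem_cons (W10707 D T h) (mem_cons (W521 D T h) (mem_cons (W10708 D T h) (mem_cons (W10709 D T h) (mem_cons (W128 D T h) (mem_cons (W10710 D T h) (mem_cons (W10711 D T h) (mem_cons (W2773 D T h) (mem_cons (W10705 D T h) (mem_cons (W10712 D T h) (mem_cons (W3356 D T h) (mem_cons (W10713 D T h) (mem_cons (W2413 D T h) (mem_cons (W2417 D T h) (mem_cons (W2420 D T h) (mem_cons (W2418 D T h) (mem_cons (W1196 D T h) (mem_cons (W2421 D T h) (mem_cons (W10716 D T h) (mem_cons (W10717 D T h) (mem_cons (W10719 D T h) (mem_cons (W145 D T h) (mem_cons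 (W112 D T h) (mem_cons (W10714 D T h) mem_nil))))))))))))))))))))))))))))))))))))))))) cl2483
theorem W10723 : WFK w10723 := fun D T h => wf_of_chk h mem_nil (mem_cons (L2483 D T h) mem_nil) cw10723
theorem L2487 : LFK l2487 := fun D T h => lf_of_chk h (mem_cons (W1362 D T h) (mem_cons (W2346 D T h) (mem_cons (W220 D T h) (mem_cons (W154 D T h) (mem_cons (W6997 D T h) (mem_cons (W1398 D T h) (mem_cons (W1397 D T h) (mem_cons (W461 D T h) (mem_cons (W1445 D T h) (mem_cons (W2597 D T h) (mem_cons (W722 D T h) (mem_cons (W8073 D T h) (mem_cons (W2600 D T h) (mem_cons (W341 D T h) (mem_cons (W7212 D T h) (mem_cons (W2715 D T h) (mem_cons (W2601 D T h) (mem_cons (W2602 D T h) (mem_cons (W2741 D T h) mem_nil))))))))))))))))))) cl2487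
theorem W10730 : WFK w10730 := fun D T h => wf_of_chk h mem_nil (mem_cons (L2487 D T h) mem_nil) cw10730
theorem W10732 : WFK w10732 := fun D T h => wf_of_chk h mem_nil (mem_cons (L823 D T h) mem_nil) cw10732
theorem W10734 : WFK w10734 := fun D T h => wf_of_chk h mem_nil mem_nil cw10734
theorem L2493 : LFK l2493 := fun D T h => lf_of_chk h (mem_cons (W1919 D T h) (mem_cons (W4 D T h) (mem_cons (W33 D T h) (mem_cons (W3081 D T h) (mem_cons (W235 D T h) (mem_cons (W6075 D T h) (mem_cons (W239 D T h) (mem_cons (W3079 D T h) (mem_cons (W141 D T h) (mem_cons (W140 D T h) (mem_cons (W1830 D T h) mem_nil))))))))))) cl2493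
theorem W10741 : WFK w10741 := fun D T h => wf_of_chk h mem_nil (mem_cons (L2493 D T h) mem_nil) cw10741
theorem W10742 : WFK w10742 := fun D T h => wf_of_chk h (mem_cons (W1502 D T h) mem_nil) mem_nil cw10742
theorem L2494 : LFK l2494 := fun D T h => lf_of_chk h (mem_cons (W2690 D T h) (mem_cons (W915 D T h) (mem_cons (W864 D T h) (mem_cons (W202 D T h) (mem_cons (W203 D T h) (mem_cons (W17 D T h) (mem_cons (W7723 D T h) (mem_cons (W3 D T h) mem_nil)))))))) cl2494
theorem W10743 : WFK w10743 := fun D T h => wf_of_chk h mem_nil (mem_cons (L2494 D T h) mem_nil) cw10743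
theorem L2496 : LFK l2496 := fun D T h => lf_of_chk h (mem_cons (W461 D T h) (mem_cons (W341 D T h) (mem_cons (W1025 D T h) (mem_cons (W3 D T h) (mem_cons (W143 D T h) (mem_cons (W1527 D T h) (mem_cons (W1533 D T h) (mem_cons (W1537 D T h) (mem_cons (W6718 D T h) (mem_cons (W1960 D T h) (mem_cons (W1616 D T h) (mem_cons (W2690 D T h) (mem_cons (W284 D T h) (mem_cons (W1409 D T h) (mem_cons (W915 D T h) (mem_cons (W220 D T h) (mem_cons (W401 D T h) (mem_cons (W431 D T h) (mem_cons (W722 D T h) mem_nil))))))))))))))))))) cl2496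
theorem W10745 : WFK w10745 := fun D T h => wf_of_chk h mem_nil (mem_cons (L2496 D T h) mem_nil) cw10745
theorem L2497 : LFK l2497 := fun D T h => lf_of_chk h (mem_cons (W50 D T h) (mem_cons (W2639 D T h) (mem_cons (W220 D T h) (mem_cons (W15 D T h) (mem_cons (W10715 D T h) (mem_cons (W209 D T h) (mem_cons (W8631 D T h) (mem_cons (W2930 D T h) (mem_cons (W4209 D T h) (mem_cons (W4256 D T h) (mem_cons (W5507 D T h) (mem_cons (W1227 D T h) (mem_cons (W2405 D T h) (mem_cons (W8153 D T h) (mem_cons (W4416 D T h) (mem_cons (W1452 D T h) (mem_cons (W7212 D T h) (mem_cons (W42 D T h) (mem_cons (W1361 D T h) (mem_cons (W1362 D T h) mem_nil)))))))))))))))))))) cl2497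
theorem W10746 : WFK w10746 := fun D T h => wf_of_chk h mem_nil (mem_cons (L2497 D T h) mem_nil) cw10746
theorem W10748 : WFK w10748 := fun D T h => wf_of_chk h mem_nil (mem_cons (L2496 D T h) mem_nil) cw10748
theorem W10759 : WFK w10759 := fun D T h => wf_of_chk h (mem_cons (W42 D T h) mem_nil) mem_nil cw10759
theorem L2503 : LFK l2503 := fun D T h => lf_of_chk h (mem_cons (W3 D T h) (mem_cons (W67 D T h) (mem_cons (W1316 D T h) (mem_cons (W8632 D T h) mem_nil)))) cl2503
theorem W10766 : WFK w10766 := fun D T h => wf_of_chk h mem_nil (mem_cons (L2503 D T h) mem_nil) cw10766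
theorem L2504 : LFK l2504 := fun D T h => lf_of_chk h (mem_cons (W42 D T h) (mem_cons (W2015 D T h) (mem_cons (W726 D T h) (mem_cons (W3 D T h) (mem_cons (W461 D T h) (mem_cons (W6552 D T h) (mem_cons (W161 D T h) (mem_cons (W4032 D T h) (mem_cons (W1325 D T h) (mem_cons (W1554 D T h) (mem_cons (W581 D T h) (mem_cons (W1326 D T h) (mem_cons (W10766 D T h) (mem_cons (W721 D T h) (mem_cons (W431 D T h) (mem_cons (W722 D T h) (mem_cons (W267 D T h) mem_nil))))))))))))))))) cl2504
theorem W10767 : WFK w10767 := fun D T h => wf_of_chk h mem_nil (mem_cons (L2504 D T h) mem_nil) cw10767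
theorem W10769 : WFK w10769 := fun D T h => wf_of_chk h mem_nil (mem_cons (L1056 D T h) mem_nil) cw10769
theorem W10772 : WFK w10772 := fun D T h => wf_of_chk h mem_nil (mem_cons (L1537 D T h) mem_nil) cw10772
theorem W10774 : WFK w10774 := fun D T h => wf_of_chk h mem_nil (mem_cons (L2476 D T h) mem_nil) cw10774
theorem W10775 : WFK w10775 := fun D T h => wf_of_chk h mem_nil (mem_cons (L2472 D T h) mem_nil) cw10775
theorem W10778 : WFK w10778 := fun D T h => wf_of_chk h mem_nil (mem_cons (L1707 D T h) mem_nil) cw10778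
theorem W10780 : WFK w10780 := fun D T h => wf_of_chk h mem_nil (mem_cons (L2503 D T h) mem_nil) cw10780
theorem L2506 : LFK l2506 := fun D T h => lf_of_chk h (mem_cons (W42 D T h) (mem_cons (W16 D T h) (mem_cons (W726 D T h) (mem_cons (W3 D T h) (mem_cons (W461 D T h) (mem_cons (W6552 D T h) (mem_cons (W1 D T h) (mem_cons (W4032 D T h) (mem_cons (W1325 D T h) (mem_cons (W1554 D T h) (mem_cons (W581 D T h) (mem_cons (W1326 D T h) (mem_cons (W10780 D T h) (mem_cons (W721 D T h) (mem_cons (W431 D T h) (mem_cons (W722 D T h) (mem_cons (W267 D T h) mem_nil))))))))))))))))) cl2506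
theorem W10781 : WFK w10781 := fun D T h => wf_of_chk h mem_nil (mem_cons (L2506 D T h) mem_nil) cw10781
theorem W10783 : WFK w10783 := fun D T h => wf_of_chk h (mem_cons (W175 D T h) (mem_cons (W1318 D T h) mem_nil)) mem_nil cw10783
theorem W10784 : WFK w10784 := fun D T h => wf_of_chk h mem_nil (mem_cons (L2478 D T h) mem_nil) cw10784
theorem W10785 : WFK w10785 := fun D T h => wf_of_chk h mem_nil (mem_cons (L2506 D T h) mem_nil) cw10785
theorem W10786 : WFK w10786 := fun D T h => wf_of_chk h mem_nil (mem_cons (L1471 D T h) mem_nil) cw10786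
theorem L2507 : LFK l2507 := fun D T h => lf_of_chk h (mem_cons (W2997 D T h) (mem_cons (W177 D T h) (mem_cons (W1318 D T h) (mem_cons (W50 D T h) (mem_cons (W3335 D T h) (mem_cons (W5222 D T h) (mem_cons (W2340 D T h) (mem_cons (W2371 D T h) (mem_cons (W10783 D T h) (mem_cons (W42 D T h) (mem_cons (W10784 D T h) (mem_cons (W2331 D T h) (mem_cons (W10785 D T h) (mem_cons (W10786 D T h) (mem_cons (W6986 D T h) (mem_cons (W6987 D T h) (mem_cons (W6985 D T h) mem_nil))))))))))))))))) cl2507
theorem W10787 : WFK w10787 := fun D T h => wf_of_chk h mem_nil (mem_cons (L2507 D T h) mem_nil) cw10787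
theorem W10788 : WFK w10788 := fun D T h => wf_of_chk h (mem_cons (W16 D T h) (mem_cons (W37 D T h) mem_nil)) mem_nil cw10788
theorem W10789 : WFK w10789 := fun D T h => wf_of_chk h (mem_cons (W284 D T h) (mem_cons (W1318 D T h) mem_nil)) mem_nil cw10789
theorem W10790 : WFK w10790 := fun D T h => wf_of_chk h (mem_cons (W2027 D T h) (mem_cons (W1318 D T h) mem_nil)) mem_nil cw10790
theorem W10792 : WFK w10792 := fun D T h => wf_of_chk h (mem_cons (W368 D T h) (mem_cons (W1318 D T h) mem_nil)) mem_nil cw10792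
theorem L2509 : LFK l2509 := fun D T h => lf_of_chk h (mem_cons (W9025 D T h) (mem_cons (W1063 D T h) (mem_cons (W42 D T h) (mem_cons (W16 D T h) (mem_cons (W2015 D T h) (mem_cons (W7114 D T h) (mem_cons (W5633 D T h) (mem_cons (W8912 D T h) (mem_cons (W7720 D T h) (mem_cons (W2037 D T h) (mem_cons (W10792 D T h) (mem_cons (W15 D T h) (mem_cons (W1192 D T h) (mem_cons (W3193 D T h) (mem_cons (W6968 D T h) (mem_cons (W2378 D T h) (mem_cons (W3766 D T h) (mem_cons (W6758 D T h) mem_nil)))))))))))))))))) cl2509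
theorem W10793 : WFK w10793 := fun D T h => wf_of_chk h mem_nil (mem_cons (L2509 D T h) mem_nil) cw10793
theorem W10794 : WFK w10794 := fun D T h => wf_of_chk h (mem_cons (W1211 D T h) (mem_cons (W1318 D T h) mem_nil)) mem_nil cw10794
theorem W10795 : WFK w10795 := fun D T h => wf_of_chk h (mem_cons (W1153 D T h) (mem_cons (W1318 D T h) mem_nil)) mem_nil cw10795
theorem W10796 : WFK w10796 := fun D T h => wf_of_chk h (mem_cons (W2042 D T h) (mem_cons (W1318 D T h) mem_nil)) mem_nil cw10796
theorem L2510 : LFK l2510 := fun D T h => lf_of_chk h (mem_cons (W10714 D T h) (mem_cons (W2432 D T h) (mem_cons (W2015 D T h) (mem_cons (W535 D T h) (mem_cons (W537 D T h) (mem_cons (W1919 D T h) (mem_cons (W230 D T h) (mem_cons (W144 D T h) (mem_cons (W16 D T h) (mem_cons (W4256 D T h) (mem_cons (W4038 D T h) (mem_cons (W2424 D T h) (mem_cons (W2436 D T h) (mem_cons (W2037 D T h) (mem_cons (W2437 D T h) (mem_cons (W10721 D T h) (mem_cons (W2439 D T h) (mem_cons (W519 D T h) (mem_cons (W2425 D T h)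 (mem_cons (W521 D T h) (mem_cons (W2427 D T h) (mem_cons (W10709 D T h) (mem_cons (W128 D T h) (mem_cons (W10710 D T h) (mem_cons (W2429 D T h) (mem_cons (W2773 D T h) (mem_cons (W10705 D T h) (mem_cons (W2431 D T h) (mem_cons (W2413 D T h) (mem_cons (W2417 D T h) (mem_cons (W2420 D T h) (mem_cons (W2418 D T h) (mem_cons (W1196 D T h) (mem_cons (W2421 D T h) (mem_cons (W6074 D T h) (mem_cons (W145 D T h) (mem_cons (W112 D T h) mem_nil))))))))))))))))))))))))))))))))))))) cl2510
theorem W10797 : WFK w10797 := fun D T h => wf_of_chk h mem_nil (mem_cons (L2510 D T h) mem_nil) cw10797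
theorem W10800 : WFK w10800 := fun D T h => wf_of_chk h mem_nil (mem_cons (L672 D T h) mem_nil) cw10800
theorem L2512 : LFK l2512 := fun D T h => lf_of_chk h (mem_cons (W1196 D T h) (mem_cons (W1065 D T h) (mem_cons (W581 D T h) (mem_cons (W250 D T h) (mem_cons (W15 D T h) (mem_cons (W2520 D T h) (mem_cons (W2457 D T h) (mem_cons (W2521 D T h) (mem_cons (W2442 D T h) (mem_cons (W401 D T h) (mem_cons (W1385 D T h) (mem_cons (W2458 D T h) (mem_cons (W10045 D T h) (mem_cons (W2459 D T h) (mem_cons (W2460 D T h) (mem_cons (W2461 D T h) (mem_cons (W10230 D T h) (mem_cons (W301 D T h) (mem_cons (W2078 D T h) (mem_cons (W2453 D T h) (mem_cons (W7076 D T h) (mem_cons (W2454 D T h) (mem_cons (W10800 D T h) (mem_cons (W2456 D T h) (mem_cons (W2462 D T h) (mem_cons (W2463 D T h) mem_nil)))))))))))))))))))))))))) cl2512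
theorem W10804 : WFK w10804 := fun D T h => wf_of_chk h mem_nil (mem_cons (L2512 D T h) mem_nil) cw10804
theorem L2513 : LFK l2513 := fun D T h => lf_of_chk h (mem_cons (W1196 D T h) (mem_cons (W1065 D T h) (mem_cons (W581 D T h) (mem_cons (W554 D T h) (mem_cons (W621 D T h) (mem_cons (W15 D T h) (mem_cons (W10 D T h) (mem_cons (W2521 D T h) (mem_cons (W2442 D T h) (mem_cons (W2457 D T h) (mem_cons (W401 D T h) (mem_cons (W2573 D T h) (mem_cons (W2458 D T h) (mem_cons (W10045 D T h) (mem_cons (W2459 D T h) (mem_cons (W2460 D T h) (mem_cons (W2461 D T h) (mem_cons (W10230 D T h) (mem_cons (W301 D T h) (mem_cons (W2078 D T h) (mem_cons (W2453 D T h) (mem_cons (W7076 D T h) (mem_cons (W2454 D T h) (mem_cons (W10800 D T h) (mem_cons (W9943 D T h) mem_nil))))))))))))))))))))))))) cl2513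
theorem W10806 : WFK w10806 := fun D T h => wf_of_chk h mem_nil (mem_cons (L2513 D T h) mem_nil) cw10806
theorem W10807 : WFK w10807 := fun D T h => wf_of_chk h mem_nil (mem_cons (L583 D T h) mem_nil) cw10807
theorem L2514 : LFK l2514 := fun D T h => lf_of_chk h (mem_cons (W7212 D T h) (mem_cons (W2346 D T h) (mem_cons (W1919 D T h) (mem_cons (W281 D T h) (mem_cons (W69 D T h) (mem_cons (W111 D T h) (mem_cons (W1636 D T h) (mem_cons (W762 D T h) (mem_cons (W2576 D T h) (mem_cons (W2575 D T h) (mem_cons (W2589 D T h) (mem_cons (W2590 D T h) (mem_cons (W10806 D T h) (mem_cons (W2566 D T h) (mem_cons (W341 D T h) (mem_cons (W10807 D T h) (mem_cons (W2762 D T h) mem_nil))))))))))))))))) cl2514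
theorem W10808 : WFK w10808 := fun D T h => wf_of_chk h mem_nil (mem_cons (L2514 D T h) mem_nil) cw10808
theorem L2515 : LFK l2515 := fun D T h => lf_of_chk h (mem_cons (W50 D T h) (mem_cons (W2940 D T h) (mem_cons (W220 D T h) (mem_cons (W15 D T h) (mem_cons (W9311 D T h) (mem_cons (W209 D T h) (mem_cons (W24 D T h) (mem_cons (W2930 D T h) (mem_cons (W2693 D T h) (mem_cons (W932 D T h) (mem_cons (W2834 D T h) (mem_cons (W1227 D T h) (mem_cons (W2405 D T h) (mem_cons (W8153 D T h) (mem_cons (W2689 D T h) (mem_cons (W2691 D T h) (mem_cons (W2694 D T h) (mem_cons (W676 D T h) (mem_cons (W9592 D T h) (mem_cons (W9630 D T h) (mem_cons (W1362 D T h) (mem_cons (W42 D T h) mem_nil)))))))))))))))))))))) cl2515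
theorem W10809 : WFK w10809 := fun D T h => wf_of_chk h mem_nil (mem_cons (L2515 D T h) mem_nil) cw10809
theorem L2516 : LFK l2516 := fun D T h => lf_of_chk h (mem_cons (W10745 D T h) (mem_cons (W2683 D T h) (mem_cons (W16 D T h) (mem_cons (W1310 D T h) (mem_cons (W1919 D T h) (mem_cons (W284 D T h) (mem_cons (W1929 D T h) (mem_cons (W2346 D T h) (mem_cons (W10808 D T h) (mem_cons (W2934 D T h) (mem_cons (W10730 D T h) (mem_cons (W2696 D T h) (mem_cons (W50 D T h) (mem_cons (W1417 D T h) (mem_cons (W2408 D T h) (mem_cons (W1420 D T h) (mem_cons (W2409 D T h) (mem_cons (W10797 D T h) (mem_cons (W7720 D T h) (mem_cons (W5633 D T h) (mem_cons (W2524 D T h) (mem_cons (W2630 D T h) (mem_cons (W2541 D T h) (mem_cons (W2562 D T h) (mem_cons (W2666 D T h) (mem_cons (W2670 D T h) (mem_cons (W2676 D T h) (mem_cons (W10804 D T h) (mem_cons (W9413 D T h) (mem_cons (W10723 D T h) (mem_cons (W461 D T h) (mem_cons (W2611 D T h) (mem_cons (W1527 D T h) (mem_cons (W2612 D T h) (mem_cons (W1653 D T h)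 (mem_cons (W10742 D T h) (mem_cons (W1643 D T h) (mem_cons (W1064 D T h) (mem_cons (W1945 D T h) (mem_cons (W2687 D T h) (mem_cons (W10809 D T h) (mem_cons (W181 D T h) (mem_cons (W2699 D T h) (mem_cons (W2704 D T h) mem_nil)))))))))))))))))))))))))))))))))))))))))))) cl2516
theorem W10810 : WFK w10810 := fun D T h => wf_of_chk h mem_nil (mem_cons (L2516 D T h) mem_nil) cw10810
theorem W10813 : WFK w10813 := fun D T h => wf_of_chk h (mem_cons (W3878 D T h) mem_nil) mem_nil cw10813
theorem L2517 : LFK l2517 := fun D T h => lf_of_chk h (mem_cons (W632 D T h) (mem_cons (W91 D T h) (mem_cons (W4 D T h) (mem_cons (W33 D T h) (mem_cons (W10229 D T h) (mem_cons (W6 D T h) (mem_cons (W812 D T h) (mem_cons (W4036 D T h) (mem_cons (W2572 D T h) (mem_cons (W142 D T h) (mem_cons (W879 D T h) (mem_cons (W10134 D T h) (mem_cons (W3856 D T h) (mem_cons (W10082 D T h) (mem_cons (W809 D T h) (mem_cons (W830 D T h) mem_nil)))))))))))))))) cl2517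
theorem W10818 : WFK w10818 := fun D T h => wf_of_chk h mem_nil (mem_cons (L2517 D T h) mem_nil) cw10818
theorem L2518 : LFK l2518 := fun D T h => lf_of_chk h (mem_cons (W9025 D T h) (mem_cons (W42 D T h) (mem_cons (W16 D T h) (mem_cons (W1919 D T h) (mem_cons (W7114 D T h) (mem_cons (W1356 D T h) (mem_cons (W915 D T h) (mem_cons (W10818 D T h) (mem_cons (W6372 D T h) (mem_cons (W1924 D T h) (mem_cons (W4025 D T h) (mem_cons (W3766 D T h) (mem_cons (W3719 D T h) (mem_cons (W6719 D T h) (mem_cons (W6758 D T h) (mem_cons (W9056 D T h) mem_nil)))))))))))))))) cl2518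
theorem W10819 : WFK w10819 := fun D T h => wf_of_chk h mem_nil (mem_cons (L2518 D T h) mem_nil) cw10819
theorem L2519 : LFK l2519 := fun D T h => lf_of_chk h (mem_cons (W42 D T h) (mem_cons (W16 D T h) (mem_cons (W3878 D T h) (mem_cons (W3 D T h) (mem_cons (W461 D T h) (mem_cons (W39 D T h) (mem_cons (W1 D T h) (mem_cons (W10819 D T h) (mem_cons (W1325 D T h) (mem_cons (W1554 D T h) (mem_cons (W581 D T h) (mem_cons (W1326 D T h) (mem_cons (W1433 D T h) (mem_cons (W721 D T h) (mem_cons (W431 D T h) (mem_cons (W220 D T h) (mem_cons (W267 D T h) (mem_cons (W722 D T h) mem_nil)))))))))))))))))) cl2519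
theorem W10820 : WFK w10820 := fun D T h => wf_of_chk h mem_nil (mem_cons (L2519 D T h) mem_nil) cw10820
theorem W10821 : WFK w10821 := fun D T h => wf_of_chk h mem_nil (mem_cons (L2519 D T h) mem_nil) cw10821
theorem W10822 : WFK w10822 := fun D T h => wf_of_chk h mem_nil (mem_cons (L306 D T h) mem_nil) cw10822
theorem L2520 : LFK l2520 := fun D T h => lf_of_chk h (mem_cons (W10781 D T h) (mem_cons (W1318 D T h) (mem_cons (W16 D T h) (mem_cons (W42 D T h) (mem_cons (W7198 D T h) (mem_cons (W164 D T h) (mem_cons (W455 D T h) (mem_cons (W6613 D T h) (mem_cons (W7466 D T h) (mem_cons (W10767 D T h) (mem_cons (W9025 D T h) (mem_cons (W5633 D T h) (mem_cons (W2706 D T h) (mem_cons (W10820 D T h) (mem_cons (W6955 D T h) (mem_cons (W10821 D T h) (mem_cons (W2714 D T h) (mem_cons (W220 D T h) (mem_cons (W1139 D T h) (mem_cons (W2366 D T h) (mem_cons (W2316 D T h) (mem_cons (W6477 D T h) (mem_cons (W10810 D T h) (mem_cons (W10822 D T h) (mem_cons (W8783 D T h) (mem_cons (W2707 D T h) mem_nil))))))))))))))))))))))))))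 cl2520
theorem W10823 : WFK w10823 := fun D T h => wf_of_chk h mem_nil (mem_cons (L2520 D T h) mem_nil) cw10823
theorem W10824 : WFK w10824 := fun D T h => wf_of_chk h (mem_cons (W1291 D T h) (mem_cons (W8977 D T h) mem_nil)) mem_nil cw10824
theorem W10825 : WFK w10825 := fun D T h => wf_of_chk h mem_nil (mem_cons (L955 D T h) mem_nil) cw10825
theorem L2521 : LFK l2521 := fun D T h => lf_of_chk h (mem_cons (W2037 D T h) (mem_cons (W16 D T h) (mem_cons (W5721 D T h) (mem_cons (W42 D T h) (mem_cons (W1690 D T h) (mem_cons (W2346 D T h) (mem_cons (W10825 D T h) (mem_cons (W3766 D T h) (mem_cons (W9431 D T h) (mem_cons (W10045 D T h) (mem_cons (W9432 D T h) (mem_cons (W2015 D T h) (mem_cons (W2387 D T h) (mem_cons (W8912 D T h) (mem_cons (W5633 D T h) (mem_cons (W7495 D T h) (mem_cons (W2382 D T h) (mem_cons (W15 D T h) (mem_cons (W261 D T h) (mem_cons (W1192 D T h) (mem_cons (W1889 D T h) mem_nil))))))))))))))))))))) cl2521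
theorem W10826 : WFK w10826 := fun D T h => wf_of_chk h mem_nil (mem_cons (L2521 D T h) mem_nil) cw10826
theorem W10827 : WFK w10827 := fun D T h => wf_of_chk h mem_nil (mem_cons (L2069 D T h) mem_nil) cw10827
theorem W10828 : WFK w10828 := fun D T h => wf_of_chk h mem_nil (mem_cons (L169 D T h) mem_nil) cw10828
theorem W10829 : WFK w10829 := fun D T h => wf_of_chk h mem_nil (mem_cons (L231 D T h) mem_nil) cw10829
theorem W10830 : WFK w10830 := fun D T h => wf_of_chk h mem_nil (mem_cons (L271 D T h) mem_nil) cw10830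
theorem W10831 : WFK w10831 := fun D T h => wf_of_chk h mem_nil (mem_cons (L231 D T h) mem_nil) cw10831
theorem L2522 : LFK l2522 := fun D T h => lf_of_chk h (mem_cons (W10828 D T h) (mem_cons (W16 D T h) (mem_cons (W241 D T h) (mem_cons (W1051 D T h) (mem_cons (W912 D T h) (mem_cons (W3719 D T h) mem_nil)))))) cl2522
theorem W10832 : WFK w10832 := fun D T h => wf_of_chk h mem_nil (mem_cons (L2522 D T h) mem_nil) cw10832
theorem W10833 : WFK w10833 := fun D T h => wf_of_chk h mem_nil (mem_cons (L2522 D T h) mem_nil) cw10833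
theorem W10834 : WFK w10834 := fun D T h => wf_of_chk h mem_nil (mem_cons (L840 D T h) mem_nil) cw10834
theorem L2523 : LFK l2523 := fun D T h => lf_of_chk h (mem_cons (W128 D T h) (mem_cons (W4209 D T h) (mem_cons (W581 D T h) (mem_cons (W4038 D T h) (mem_cons (W8397 D T h) (mem_cons (W10045 D T h) (mem_cons (W1192 D T h) (mem_cons (W15 D T h) (mem_cons (W3227 D T h) (mem_cons (W1064 D T h) (mem_cons (W219 D T h) mem_nil))))))))))) cl2523
theorem W10835 : WFK w10835 := fun D T h => wf_of_chk h mem_nil (mem_cons (L2523 D T h) mem_nil) cw10835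
theorem W10836 : WFK w10836 := fun D T h => wf_of_chk h mem_nil (mem_cons (L271 D T h) mem_nil) cw10836
theorem W10837 : WFK w10837 := fun D T h => wf_of_chk h mem_nil (mem_cons (L273 D T h) mem_nil) cw10837
theorem W10838 : WFK w10838 := fun D T h => wf_of_chk h mem_nil (mem_cons (L273 D T h) mem_nil) cw10838
theorem W10841 : WFK w10841 := fun D T h => wf_of_chk h mem_nil (mem_cons (L2400 D T h) mem_nil) cw10841
theorem L2524 : LFK l2524 := fun D T h => lf_of_chk h (mem_cons (W1068 D T h) (mem_cons (W5072 D T h) (mem_cons (W2015 D T h) (mem_cons (W10834 D T h) (mem_cons (W8783 D T h) (mem_cons (W2037 D T h) (mem_cons (W10836 D T h) (mem_cons (W10837 D T h) (mem_cons (W16 D T h) (mem_cons (W5721 D T h) (mem_cons (W10835 D T h) (mem_cons (W4209 D T h) (mem_cons (W1069 D T h) (mem_cons (W9771 D T h) (mem_cons (W9976 D T h) (mem_cons (W128 D T h) (mem_cons (W10829 D T h) (mem_cons (W1134 D T h) (mem_cons (W10830 D T h) (mem_cons (W10831 D T h) (mem_cons (W9256 D T h) (mem_cons (W10828 D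 T h) (mem_cons (W1133 D T h) (mem_cons (W10832 D T h) (mem_cons (W1185 D T h) (mem_cons (W10833 D T h) (mem_cons (W10841 D T h) (mem_cons (W10838 D T h) (mem_cons (W7903 D T h) mem_nil))))))))))))))))))))))))))))) cl2524
theorem W10842 : WFK w10842 := fun D T h => wf_of_chk h mem_nil (mem_cons (L2524 D T h) mem_nil) cw10842
theorem W10843 : WFK w10843 := fun D T h => wf_of_chk h (mem_cons (W10842 D T h) (mem_cons (W37 D T h) mem_nil)) mem_nil cw10843
theorem W10844 : WFK w10844 := fun D T h => wf_of_chk h (mem_cons (W9701 D T h) (mem_cons (W37 D T h) mem_nil)) mem_nil cw10844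
theorem W10845 : WFK w10845 := fun D T h => wf_of_chk h (mem_cons (W114 D T h) (mem_cons (W16 D T h) mem_nil)) mem_nil cw10845
theorem W10846 : WFK w10846 := fun D T h => wf_of_chk h (mem_cons (W1067 D T h) (mem_cons (W16 D T h) mem_nil)) mem_nil cw10846
theorem W10847 : WFK w10847 := fun D T h => wf_of_chk h (mem_cons (W2346 D T h) (mem_cons (W16 D T h) mem_nil)) mem_nil cw10847
theorem L2525 : LFK l2525 := fun D T h => lf_of_chk h (mem_cons (W9699 D T h) (mem_cons (W2868 D T h) (mem_cons (W7083 D T h) (mem_cons (W9717 D T h) (mem_cons (W10847 D T h) (mem_cons (W16 D T h) (mem_cons (W2839 D T h) (mem_cons (W6613 D T h) (mem_cons (W2037 D T h) (mem_cons (W6839 D T h) (mem_cons (W2050 D T h) (mem_cons (W7376 D T h) (mem_cons (W3937 D T h) (mem_cons (W3304 D T h) (mem_cons (W7858 D T h) (mem_cons (W7864 D T h) (mem_cons (W7865 D T h) (mem_cons (W10822 D T h) (mem_cons (W284 D T h) (mem_cons (W10845 D T h) (mem_cons (W2834 D T h) (mem_cons (W2828 D T h) (mem_cons (W7447 D T h) (mem_cons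 (W10846 D T h) (mem_cons (W7861 D T h) (mem_cons (W2778 D T h) (mem_cons (W7862 D T h) (mem_cons (W5655 D T h) (mem_cons (W2843 D T h) (mem_cons (W7863 D T h) (mem_cons (W2405 D T h) (mem_cons (W3571 D T h) (mem_cons (W8457 D T h) mem_nil))))))))))))))))))))))))))))))))) cl2525
theorem W10848 : WFK w10848 := fun D T h => wf_of_chk h mem_nil (mem_cons (L2525 D T h) mem_nil) cw10848
theorem W10849 : WFK w10849 := fun D T h => wf_of_chk h (mem_cons (W10848 D T h) (mem_cons (W37 D T h) mem_nil)) mem_nil cw10849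
theorem L2526 : LFK l2526 := fun D T h => lf_of_chk h (mem_cons (W9025 D T h) (mem_cons (W42 D T h) (mem_cons (W16 D T h) (mem_cons (W1919 D T h) (mem_cons (W7114 D T h) (mem_cons (W1356 D T h) (mem_cons (W8626 D T h) (mem_cons (W15 D T h) (mem_cons (W1924 D T h) (mem_cons (W6372 D T h) (mem_cons (W4025 D T h) (mem_cons (W3766 D T h) (mem_cons (W3719 D T h) (mem_cons (W9206 D T h) mem_nil)))))))))))))) cl2526
theorem W10850 : WFK w10850 := fun D T h => wf_of_chk h mem_nil (mem_cons (L2526 D T h) mem_nil) cw10850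
theorem L2527 : LFK l2527 := fun D T h => lf_of_chk h (mem_cons (W3766 D T h) (mem_cons (W1299 D T h) (mem_cons (W37 D T h) (mem_cons (W3 D T h) (mem_cons (W461 D T h) (mem_cons (W39 D T h) (mem_cons (W42 D T h) (mem_cons (W10850 D T h) (mem_cons (W1 D T h) (mem_cons (W1554 D T h) (mem_cons (W1325 D T h) (mem_cons (W581 D T h) (mem_cons (W1326 D T h) (mem_cons (W1433 D T h) mem_nil)))))))))))))) cl2527
theorem W10851 : WFK w10851 := fun D T h => wf_of_chk h mem_nil (mem_cons (L2527 D T h) mem_nil) cw10851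
theorem W10852 : WFK w10852 := fun D T h => wf_of_chk h mem_nil (mem_cons (L572 D T h) mem_nil) cw10852
theorem W10853 : WFK w10853 := fun D T h => wf_of_chk h mem_nil (mem_cons (L580 D T h) mem_nil) cw10853
theorem L2528 : LFK l2528 := fun D T h => lf_of_chk h (mem_cons (W4531 D T h) (mem_cons (W1919 D T h) (mem_cons (W4566 D T h) (mem_cons (W1929 D T h) (mem_cons (W7188 D T h) (mem_cons (W1 D T h) (mem_cons (W69 D T h) (mem_cons (W16 D T h) (mem_cons (W10780 D T h) (mem_cons (W7187 D T h) (mem_cons (W2517 D T h) (mem_cons (W78 D T h) (mem_cons (W105 D T h) (mem_cons (W33 D T h) (mem_cons (W6725 D T h) (mem_cons (W4260 D T h) (mem_cons (W573 D T h) (mem_cons (W521 D T h) (mem_cons (W1747 D T h) (mem_cons (W5943 D T h) (mem_cons (W86 D T h) (mem_cons (W85 D T h) (mem_cons (W1206 D T h) mem_nil))))))))))))))))))))))) cl2528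
theorem W10854 : WFK w10854 := fun D T h => wf_of_chk h mem_nil (mem_cons (L2528 D T h) mem_nil) cw10854
theorem L2529 : LFK l2529 := fun D T h => lf_of_chk h (mem_cons (W3878 D T h) (mem_cons (W2346 D T h) (mem_cons (W1919 D T h) (mem_cons (W281 D T h) (mem_cons (W69 D T h) (mem_cons (W2566 D T h) (mem_cons (W111 D T h) (mem_cons (W762 D T h) (mem_cons (W2575 D T h) (mem_cons (W2576 D T h) (mem_cons (W2589 D T h) (mem_cons (W2590 D T h) (mem_cons (W10853 D T h) (mem_cons (W341 D T h) (mem_cons (W10854 D T h) (mem_cons (W1028 D T h) (mem_cons (W2582 D T h) (mem_cons (W2583 D T h) (mem_cons (W2595 D T h) mem_nil))))))))))))))))))) cl2529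
theorem W10855 : WFK w10855 := fun D T h => wf_of_chk h mem_nil (mem_cons (L2529 D T h) mem_nil) cw10855
theorem W10856 : WFK w10856 := fun D T h => wf_of_chk h (mem_cons (W281 D T h) mem_nil) mem_nil cw10856
theorem L2530 : LFK l2530 := fun D T h => lf_of_chk h (mem_cons (W153 D T h) (mem_cons (W281 D T h) (mem_cons (W1371 D T h) (mem_cons (W39 D T h) (mem_cons (W6742 D T h) (mem_cons (W1564 D T h) (mem_cons (W10856 D T h) (mem_cons (W33 D T h) (mem_cons (W927 D T h) (mem_cons (W923 D T h) (mem_cons (W2632 D T h) (mem_cons (W1393 D T h) (mem_cons (W2633 D T h) (mem_cons (W2634 D T h) (mem_cons (W2638 D T h) mem_nil))))))))))))))) cl2530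
theorem W10857 : WFK w10857 := fun D T h => wf_of_chk h mem_nil (mem_cons (L2530 D T h) mem_nil) cw10857
theorem W10858 : WFK w10858 := fun D T h => wf_of_chk h (mem_cons (W10857 D T h) (mem_cons (W16 D T h) mem_nil)) mem_nil cw10858
theorem L2531 : LFK l2531 := fun D T h => lf_of_chk h (mem_cons (W50 D T h) (mem_cons (W2940 D T h) (mem_cons (W2690 D T h) (mem_cons (W15 D T h) (mem_cons (W220 D T h) (mem_cons (W8631 D T h) (mem_cons (W209 D T h) (mem_cons (W2930 D T h) (mem_cons (W932 D T h) (mem_cons (W4209 D T h) (mem_cons (W8153 D T h) (mem_cons (W1331 D T h) (mem_cons (W2405 D T h) (mem_cons (W1227 D T h) (mem_cons (W10743 D T h) (mem_cons (W2689 D T h) (mem_cons (W676 D T h) (mem_cons (W2593 D T h) (mem_cons (W42 D T h) (mem_cons (W1362 D T h) (mem_cons (W9630 D T h) mem_nil))))))))))))))))))))) cl2531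
theorem W10859 : WFK w10859 := fun D T h => wf_of_chk h mem_nil (mem_cons (L2531 D T h) mem_nil) cw10859
theorem L2532 : LFK l2532 := fun D T h => lf_of_chk h (mem_cons (W1527 D T h) (mem_cons (W341 D T h) (mem_cons (W1533 D T h) (mem_cons (W1537 D T h) (mem_cons (W1552 D T h) (mem_cons (W1543 D T h) (mem_cons (W1549 D T h) (mem_cons (W1545 D T h) (mem_cons (W284 D T h) (mem_cons (W16 D T h) (mem_cons (W15 D T h) (mem_cons (W4556 D T h) (mem_cons (W2747 D T h) (mem_cons (W2753 D T h) (mem_cons (W431 D T h) (mem_cons (W722 D T h) mem_nil)))))))))))))))) cl2532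
theorem W10860 : WFK w10860 := fun D T h => wf_of_chk h mem_nil (mem_cons (L2532 D T h) mem_nil) cw10860
theorem L2533 : LFK l2533 := fun D T h => lf_of_chk h (mem_cons (W1527 D T h) (mem_cons (W341 D T h) (mem_cons (W1533 D T h) (mem_cons (W1537 D T h) (mem_cons (W141 D T h) (mem_cons (W1543 D T h) (mem_cons (W1549 D T h) (mem_cons (W1545 D T h) (mem_cons (W284 D T h) (mem_cons (W16 D T h) (mem_cons (W15 D T h) (mem_cons (W642 D T h) (mem_cons (W2747 D T h) (mem_cons (W260 D T h) (mem_cons (W431 D T h) (mem_cons (W722 D T h) mem_nil)))))))))))))))) cl2533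
theorem W10861 : WFK w10861 := fun D T h => wf_of_chk h mem_nil (mem_cons (L2533 D T h) mem_nil) cw10861
theorem L2534 : LFK l2534 := fun D T h => lf_of_chk h (mem_cons (W2696 D T h) (mem_cons (W1502 D T h) (mem_cons (W7992 D T h) (mem_cons (W16 D T h) (mem_cons (W10780 D T h) (mem_cons (W2699 D T h) (mem_cons (W10860 D T h) (mem_cons (W1184 D T h) (mem_cons (W10861 D T h) (mem_cons (W2517 D T h) (mem_cons (W1643 D T h) (mem_cons (W10742 D T h) (mem_cons (W1945 D T h) (mem_cons (W1064 D T h) (mem_cons (W2687 D T h) (mem_cons (W10859 D T h) (mem_cons (W1919 D T h) (mem_cons (W284 D T h) (mem_cons (W1929 D T h) (mem_cons (W2346 D T h) (mem_cons (W1410 D T h) (mem_cons (W1407 D T h) (mem_cons (W10855 D T h) (mem_cons (W10822 D T h) (mem_cons (W10730 D T h) (mem_cons (W50 D T h) (mem_cons (W1417 D T h) (mem_cons (W1420 D T h) (mem_cons (W2408 D T h) (mem_cons (W2409 D T h) (mem_cons (W2410 D T h) (mem_cons (W7185 D T h) (mem_cons (W5633 D T h) (mem_cons (W2630 D T h) (mem_cons (W2524 D T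 h) (mem_cons (W2670 D T h) (mem_cons (W2562 D T h) (mem_cons (W10858 D T h) (mem_cons (W2676 D T h) (mem_cons (W10852 D T h) (mem_cons (W10723 D T h) (mem_cons (W2541 D T h) (mem_cons (W461 D T h) (mem_cons (W2611 D T h) (mem_cons (W1372 D T h) (mem_cons (W1653 D T h) (mem_cons (W2612 D T h) (mem_cons (W2613 D T h) mem_nil)))))))))))))))))))))))))))))))))))))))))))))))) cl2534
theorem W10862 : WFK w10862 := fun D T h => wf_of_chk h mem_nil (mem_cons (L2534 D T h) mem_nil) cw10862
theorem W10863 : WFK w10863 := fun D T h => wf_of_chk h mem_nil (mem_cons (L2506 D T h) mem_nil) cw10863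
theorem W10864 : WFK w10864 := fun D T h => wf_of_chk h (mem_cons (W162 D T h) (mem_cons (W1318 D T h) mem_nil)) mem_nil cw10864
theorem L2535 : LFK l2535 := fun D T h => lf_of_chk h (mem_cons (W10822 D T h) (mem_cons (W1318 D T h) (mem_cons (W2 D T h) (mem_cons (W42 D T h) (mem_cons (W10862 D T h) (mem_cons (W10772 D T h) (mem_cons (W455 D T h) (mem_cons (W6613 D T h) (mem_cons (W7466 D T h) (mem_cons (W10864 D T h) (mem_cons (W9025 D T h) (mem_cons (W6811 D T h) (mem_cons (W164 D T h) (mem_cons (W10863 D T h) (mem_cons (W6955 D T h) (mem_cons (W10781 D T h) (mem_cons (W2714 D T h) (mem_cons (W220 D T h) (mem_cons (W1139 D T h) (mem_cons (W10702 D T h) (mem_cons (W10703 D T h) (mem_cons (W10851 D T h) (mem_cons (W2318 D T h) (mem_cons (W5633 D T h) (mem_cons (W2319 D T h) mem_nil))))))))))))))))))))))))) cl2535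
theorem W10865 : WFK w10865 := fun D T h => wf_of_chk h mem_nil (mem_cons (L2535 D T h) mem_nil) cw10865
theorem W10866 : WFK w10866 := fun D T h => wf_of_chk h (mem_cons (W16 D T h) (mem_cons (W8421 D T h) mem_nil)) mem_nil cw10866
theorem W10867 : WFK w10867 := fun D T h => wf_of_chk h (mem_cons (W3396 D T h) (mem_cons (W804 D T h) mem_nil)) mem_nil cw10867
theorem L2536 : LFK l2536 := fun D T h => lf_of_chk h (mem_cons (W2374 D T h) (mem_cons (W1318 D T h) (mem_cons (W8977 D T h) (mem_cons (W3531 D T h) (mem_cons (W9753 D T h) (mem_cons (W10793 D T h) (mem_cons (W2391 D T h) (mem_cons (W10824 D T h) (mem_cons (W10787 D T h) (mem_cons (W10794 D T h) (mem_cons (W9025 D T h) (mem_cons (W1213 D T h) (mem_cons (W10795 D T h) (mem_cons (W10796 D T h) (mem_cons (W10823 D T h) (mem_cons (W2997 D T h) (mem_cons (W10699 D T h) (mem_cons (W10788 D T h) (mem_cons (W2375 D T h) (mem_cons (W10781 D T h) (mem_cons (W10789 D T h) (mem_cons (W10790 D T h) (mem_cons (W10826 D T h) (mem_cons (W8421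 D T h) (mem_cons (W10480 D T h) (mem_cons (W7037 D T h) (mem_cons (W10866 D T h) (mem_cons (W10867 D T h) (mem_cons (W2713 D T h) (mem_cons (W10843 D T h) (mem_cons (W10844 D T h) (mem_cons (W10849 D T h) (mem_cons (W10865 D T h) (mem_cons (W2327 D T h) mem_nil)))))))))))))))))))))))))))))))))) cl2536
theorem W10868 : WFK w10868 := fun D T h => wf_of_chk h mem_nil (mem_cons (L2536 D T h) mem_nil) cw10868
theorem W10869 : WFK w10869 := fun D T h => wf_of_chk h mem_nil (mem_cons (L1725 D T h) mem_nil) cw10869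
theorem W10870 : WFK w10870 := fun D T h => wf_of_chk h mem_nil (mem_cons (L1718 D T h) mem_nil) cw10870
theorem W10871 : WFK w10871 := fun D T h => wf_of_chk h mem_nil (mem_cons (L33 D T h) mem_nil) cw10871
theorem L2537 : LFK l2537 := fun D T h => lf_of_chk h (mem_cons (W3766 D T h) (mem_cons (W1299 D T h) (mem_cons (W16 D T h) (mem_cons (W10871 D T h) (mem_cons (W3 D T h) (mem_cons (W1409 D T h) (mem_cons (W39 D T h) (mem_cons (W2485 D T h) (mem_cons (W2218 D T h) (mem_cons (W158 D T h) mem_nil)))))))))) cl2537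
theorem W10872 : WFK w10872 := fun D T h => wf_of_chk h mem_nil (mem_cons (L2537 D T h) mem_nil) cw10872
theorem W10888 : WFK w10888 := fun D T h => wf_of_chk h (mem_cons (W205 D T h) (mem_cons (W368 D T h) mem_nil)) mem_nil cw10888
theorem W10889 : WFK w10889 := fun D T h => wf_of_chk h (mem_cons (W206 D T h) (mem_cons (W368 D T h) mem_nil)) mem_nil cw10889
theorem W10891 : WFK w10891 := fun D T h => wf_of_chk h (mem_cons (W204 D T h) (mem_cons (W368 D T h) mem_nil)) mem_nil cw10891
theorem W10892 : WFK w10892 := fun D T h => wf_of_chk h (mem_cons (W4100 D T h) (mem_cons (W368 D T h) mem_nil)) mem_nil cw10892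
theorem W10893 : WFK w10893 := fun D T h => wf_of_chk h (mem_cons (W3888 D T h) (mem_cons (W368 D T h) mem_nil)) mem_nil cw10893
theorem L2541 : LFK l2541 := fun D T h => lf_of_chk h (mem_cons (W1408 D T h) (mem_cons (W17 D T h) (mem_cons (W16 D T h) (mem_cons (W4209 D T h) (mem_cons (W10888 D T h) (mem_cons (W10889 D T h) (mem_cons (W24 D T h) (mem_cons (W10891 D T h) (mem_cons (W10892 D T h) (mem_cons (W10893 D T h) (mem_cons (W3 D T h) (mem_cons (W1448 D T h) (mem_cons (W1449 D T h) mem_nil))))))))))))) cl2541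
theorem W10894 : WFK w10894 := fun D T h => wf_of_chk h mem_nil (mem_cons (L2541 D T h) mem_nil) cw10894
theorem L2542 : LFK l2542 := fun D T h => lf_of_chk h (mem_cons (W9025 D T h) (mem_cons (W1063 D T h) (mem_cons (W42 D T h) (mem_cons (W16 D T h) (mem_cons (W2015 D T h) (mem_cons (W7114 D T h) (mem_cons (W5633 D T h) (mem_cons (W8912 D T h) (mem_cons (W7720 D T h) (mem_cons (W2037 D T h) (mem_cons (W10894 D T h) (mem_cons (W15 D T h) (mem_cons (W1192 D T h) (mem_cons (W3193 D T h) (mem_cons (W6968 D T h) (mem_cons (W2378 D T h) (mem_cons (W3766 D T h) (mem_cons (W6758 D T h) mem_nil)))))))))))))))))) cl2542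
theorem W10895 : WFK w10895 := fun D T h => wf_of_chk h mem_nil (mem_cons (L2542 D T h) mem_nil) cw10895
theorem W10896 : WFK w10896 := fun D T h => wf_of_chk h mem_nil (mem_cons (L2527 D T h) mem_nil) cw10896
theorem W10897 : WFK w10897 := fun D T h => wf_of_chk h mem_nil (mem_cons (L2527 D T h) mem_nil) cw10897
theorem W10898 : WFK w10898 := fun D T h => wf_of_chk h mem_nil (mem_cons (L2527 D T h) mem_nil) cw10898
theorem W10899 : WFK w10899 := fun D T h => wf_of_chk h mem_nil (mem_cons (L2527 D T h) mem_nil) cw10899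
theorem W10900 : WFK w10900 := fun D T h => wf_of_chk h mem_nil (mem_cons (L2030 D T h) mem_nil) cw10900
theorem W10901 : WFK w10901 := fun D T h => wf_of_chk h (mem_cons (W726 D T h) (mem_cons (W177 D T h) mem_nil)) mem_nil cw10901
theorem L2543 : LFK l2543 := fun D T h => lf_of_chk h (mem_cons (W1033 D T h) (mem_cons (W1432 D T h) (mem_cons (W49 D T h) (mem_cons (W187 D T h) (mem_cons (W4 D T h) (mem_cons (W33 D T h) (mem_cons (W1244 D T h) mem_nil))))))) cl2543
theorem W10902 : WFK w10902 := fun D T h => wf_of_chk h mem_nil (mem_cons (L2543 D T h) mem_nil) cw10902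
theorem L2544 : LFK l2544 := fun D T h => lf_of_chk h (mem_cons (W3335 D T h) (mem_cons (W50 D T h) (mem_cons (W17 D T h) (mem_cons (W10901 D T h) (mem_cons (W3 D T h) (mem_cons (W3535 D T h) (mem_cons (W4130 D T h) (mem_cons (W10902 D T h) mem_nil)))))))) cl2544
theorem W10903 : WFK w10903 := fun D T h => wf_of_chk h mem_nil (mem_cons (L2544 D T h) mem_nil) cw10903
theorem W10904 : WFK w10904 := fun D T h => wf_of_chk h (mem_cons (W16 D T h) (mem_cons (W50 D T h) mem_nil)) mem_nil cw10904
theorem L2545 : LFK l2545 := fun D T h => lf_of_chk h (mem_cons (W2322 D T h) (mem_cons (W177 D T h) (mem_cons (W37 D T h) (mem_cons (W50 D T h) (mem_cons (W3335 D T h) (mem_cons (W10900 D T h) (mem_cons (W10904 D T h) (mem_cons (W1502 D T h) (mem_cons (W284 D T h) (mem_cons (W8283 D T h) (mem_cons (W8977 D T h) (mem_cons (W10903 D T h) (mem_cons (W10786 D T h) (mem_cons (W2368 D T h) (mem_cons (W2367 D T h) (mem_cons (W42 D T h) (mem_cons (W10896 D T h) (mem_cons (W10897 D T h) (mem_cons (W10898 D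 T h) (mem_cons (W10872 D T h) (mem_cons (W10895 D T h) (mem_cons (W10899 D T h) (mem_cons (W2370 D T h) (mem_cons (W2372 D T h) (mem_cons (W2371 D T h) mem_nil))))))))))))))))))))))))) cl2545
theorem W10905 : WFK w10905 := fun D T h => wf_of_chk h mem_nil (mem_cons (L2545 D T h) mem_nil) cw10905
theorem W10906 : WFK w10906 := fun D T h => wf_of_chk h mem_nil (mem_cons (L2545 D T h) mem_nil) cw10906
theorem W10907 : WFK w10907 := fun D T h => wf_of_chk h (mem_cons (W6446 D T h) (mem_cons (W37 D T h) mem_nil)) mem_nil cw10907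
theorem W10908 : WFK w10908 := fun D T h => wf_of_chk h (mem_cons (W1929 D T h) mem_nil) mem_nil cw10908
theorem W10909 : WFK w10909 := fun D T h => wf_of_chk h (mem_cons (W1929 D T h) mem_nil) mem_nil cw10909
theorem L2546 : LFK l2546 := fun D T h => lf_of_chk h (mem_cons (W267 D T h) (mem_cons (W6714 D T h) (mem_cons (W368 D T h) (mem_cons (W401 D T h) (mem_cons (W39 D T h) (mem_cons (W1412 D T h) (mem_cons (W3 D T h) (mem_cons (W10715 D T h) (mem_cons (W5647 D T h) (mem_cons (W262 D T h) (mem_cons (W2639 D T h) (mem_cons (W743 D T h) (mem_cons (W10908 D T h) (mem_cons (W815 D T h) (mem_cons (W256 D T h) (mem_cons (W255 D T h) (mem_cons (W1272 D T h) (mem_cons (W257 D T h) (mem_cons (W10909 D T h) mem_nil))))))))))))))))))) cl2546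
theorem W10910 : WFK w10910 := fun D T h => wf_of_chk h mem_nil (mem_cons (L2546 D T h) mem_nil) cw10910
theorem L2547 : LFK l2547 := fun D T h => lf_of_chk h (mem_cons (W50 D T h) (mem_cons (W9025 D T h) (mem_cons (W220 D T h) (mem_cons (W15 D T h) (mem_cons (W1929 D T h) (mem_cons (W209 D T h) (mem_cons (W24 D T h) (mem_cons (W2930 D T h) (mem_cons (W2404 D T h) (mem_cons (W932 D T h) (mem_cons (W2834 D T h) (mem_cons (W2727 D T h) (mem_cons (W2531 D T h) (mem_cons (W8153 D T h) (mem_cons (W2550 D T h) (mem_cons (W341 D T h) (mem_cons (W4028 D T h) (mem_cons (W4277 D T h) (mem_cons (W2715 D T h) mem_nil))))))))))))))))))) cl2547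
theorem W10911 : WFK w10911 := fun D T h => wf_of_chk h mem_nil (mem_cons (L2547 D T h) mem_nil) cw10911
theorem W10912 : WFK w10912 := fun D T h => wf_of_chk h (mem_cons (W143 D T h) (mem_cons (W16 D T h) mem_nil)) mem_nil cw10912
theorem W10913 : WFK w10913 := fun D T h => wf_of_chk h mem_nil (mem_cons (L1358 D T h) mem_nil) cw10913
theorem W10914 : WFK w10914 := fun D T h => wf_of_chk h (mem_cons (W9257 D T h) mem_nil) mem_nil cw10914
theorem L2548 : LFK l2548 := fun D T h => lf_of_chk h (mem_cons (W4531 D T h) (mem_cons (W10912 D T h) (mem_cons (W1170 D T h) (mem_cons (W69 D T h) (mem_cons (W142 D T h) (mem_cons (W1576 D T h) (mem_cons (W85 D T h) (mem_cons (W86 D T h) (mem_cons (W4566 D T h) (mem_cons (W1578 D T h) (mem_cons (W105 D T h) (mem_cons (W78 D T h) (mem_cons (W6725 D T h) (mem_cons (W33 D T h) (mem_cons (W573 D T h) (mem_cons (W1588 D T h) (mem_cons (W10148 D T h) (mem_cons (W5943 D T h) (mem_cons (W1202 D T h) (mem_cons (W8230 D T h) (mem_cons (W1584 D T h) (mem_cons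 (W10913 D T h) (mem_cons (W10914 D T h) (mem_cons (W7179 D T h) (mem_cons (W7181 D T h) mem_nil))))))))))))))))))))))))) cl2548
theorem W10915 : WFK w10915 := fun D T h => wf_of_chk h mem_nil (mem_cons (L2548 D T h) mem_nil) cw10915
theorem W10916 : WFK w10916 := fun D T h => wf_of_chk h (mem_cons (W10148 D T h) (mem_cons (W16 D T h) mem_nil)) mem_nil cw10916
theorem W10917 : WFK w10917 := fun D T h => wf_of_chk h (mem_cons (W69 D T h) (mem_cons (W1929 D T h) mem_nil)) mem_nil cw10917
theorem W10918 : WFK w10918 := fun D T h => wf_of_chk h (mem_cons (W105 D T h) (mem_cons (W1929 D T h) mem_nil)) mem_nil cw10918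
theorem W10919 : WFK w10919 := fun D T h => wf_of_chk h (mem_cons (W521 D T h) (mem_cons (W1929 D T h) mem_nil)) mem_nil cw10919
theorem W10920 : WFK w10920 := fun D T h => wf_of_chk h (mem_cons (W616 D T h) (mem_cons (W1929 D T h) mem_nil)) mem_nil cw10920
theorem W10921 : WFK w10921 := fun D T h => wf_of_chk h (mem_cons (W1170 D T h) (mem_cons (W1929 D T h) mem_nil)) mem_nil cw10921
theorem W10922 : WFK w10922 := fun D T h => wf_of_chk h (mem_cons (W183 D T h) (mem_cons (W1929 D T h) mem_nil)) mem_nil cw10922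
theorem W10923 : WFK w10923 := fun D T h => wf_of_chk h (mem_cons (W93 D T h) (mem_cons (W1929 D T h) mem_nil)) mem_nil cw10923
theorem L2549 : LFK l2549 := fun D T h => lf_of_chk h (mem_cons (W2423 D T h) (mem_cons (W461 D T h) (mem_cons (W230 D T h) (mem_cons (W144 D T h) (mem_cons (W535 D T h) (mem_cons (W537 D T h) (mem_cons (W6074 D T h) (mem_cons (W552 D T h) (mem_cons (W10714 D T h) (mem_cons (W145 D T h) (mem_cons (W401 D T h) (mem_cons (W2413 D T h) (mem_cons (W2417 D T h) (mem_cons (W10916 D T h) (mem_cons (W10716 D T h) (mem_cons (W10717 D T h) (mem_cons (W10719 D T h) (mem_cons (W16 D T h) (mem_cons (W932 D T h) (mem_cons (W4038 D T h) (mem_cons (W10917 D T h) (mem_cons (W10923 D T h) (mem_cons (W2015 D T h) (mem_cons (W2037 D T h) (mem_cons (W2437 D T h) (mem_cons (W10721 D T h) (mem_cons (W2439 D T h) (mem_cons (W519 D T h) (mem_cons (W10918 D T h) (mem_cons (W521 D T h) (mem_cons (W10919 D T h) (mem_cons (W10709 D T h) (mem_cons (W128 D T h) (mem_cons (W10710 D T h) (mem_cons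 (W10920 D T h) (mem_cons (W10828 D T h) (mem_cons (W10915 D T h) (mem_cons (W10921 D T h) (mem_cons (W3356 D T h) (mem_cons (W10922 D T h) mem_nil)))))))))))))))))))))))))))))))))))))))) cl2549
theorem W10924 : WFK w10924 := fun D T h => wf_of_chk h mem_nil (mem_cons (L2549 D T h) mem_nil) cw10924
theorem W10925 : WFK w10925 := fun D T h => wf_of_chk h mem_nil (mem_cons (L2549 D T h) mem_nil) cw10925
theorem L2550 : LFK l2550 := fun D T h => lf_of_chk h (mem_cons (W2531 D T h) (mem_cons (W2525 D T h) (mem_cons (W220 D T h) (mem_cons (W154 D T h) (mem_cons (W1929 D T h) (mem_cons (W2101 D T h) (mem_cons (W438 D T h) (mem_cons (W2405 D T h) (mem_cons (W7445 D T h) (mem_cons (W2404 D T h) (mem_cons (W932 D T h) (mem_cons (W2539 D T h) (mem_cons (W2538 D T h) (mem_cons (W5308 D T h) (mem_cons (W2526 D T h) (mem_cons (W871 D T h) (mem_cons (W160 D T h) (mem_cons (W2667 D T h) (mem_cons (W2556 D T h) (mem_cons (W7341 D T h) (mem_cons (W2536 D T h) (mem_cons (W2537 D T h) (mem_cons (W2063 D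 T h) (mem_cons (W2616 D T h) (mem_cons (W2668 D T h) mem_nil))))))))))))))))))))))))) cl2550
theorem W10926 : WFK w10926 := fun D T h => wf_of_chk h mem_nil (mem_cons (L2550 D T h) mem_nil) cw10926
theorem L2551 : LFK l2551 := fun D T h => lf_of_chk h (mem_cons (W2550 D T h) (mem_cons (W9413 D T h) (mem_cons (W220 D T h) (mem_cons (W15 D T h) (mem_cons (W144 D T h) (mem_cons (W2620 D T h) (mem_cons (W2621 D T h) (mem_cons (W1335 D T h) (mem_cons (W8128 D T h) (mem_cons (W461 D T h) (mem_cons (W8331 D T h) (mem_cons (W2554 D T h) (mem_cons (W2404 D T h) (mem_cons (W932 D T h) (mem_cons (W2628 D T h) (mem_cons (W7541 D T h) (mem_cons (W2538 D T h) (mem_cons (W2629 D T h) (mem_cons (W521 D T h) (mem_cons (W871 D T h) (mem_cons (W638 D T h) (mem_cons (W1588 D T h) (mem_cons (W2556 D T h) (mem_cons (W2625 D T h) (mem_cons (W2534 D T h) (mem_cons (W2557 D T h) (mem_cons (W2558 D T h) (mem_cons (W2544 D T h) (mem_cons (W495 D T h) (mem_cons (W8126 D T h) (mem_cons (W2548 D T h) mem_nil)))))))))))))))))))))))))))))))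 cl2551
theorem W10927 : WFK w10927 := fun D T h => wf_of_chk h mem_nil (mem_cons (L2551 D T h) mem_nil) cw10927
theorem W10928 : WFK w10928 := fun D T h => wf_of_chk h (mem_cons (W8138 D T h) mem_nil) mem_nil cw10928
theorem W10929 : WFK w10929 := fun D T h => wf_of_chk h mem_nil (mem_cons (L373 D T h) mem_nil) cw10929
theorem L2552 : LFK l2552 := fun D T h => lf_of_chk h (mem_cons (W4531 D T h) (mem_cons (W142 D T h) (mem_cons (W1576 D T h) (mem_cons (W85 D T h) (mem_cons (W1929 D T h) (mem_cons (W1408 D T h) (mem_cons (W1 D T h) (mem_cons (W69 D T h) (mem_cons (W8138 D T h) (mem_cons (W181 D T h) (mem_cons (W7187 D T h) (mem_cons (W10928 D T h) (mem_cons (W105 D T h) (mem_cons (W78 D T h) (mem_cons (W33 D T h) (mem_cons (W6725 D T h) (mem_cons (W1064 D T h) (mem_cons (W1588 D T h) (mem_cons (W521 D T h) (mem_cons (W1202 D T h) (mem_cons (W5943 D T h) (mem_cons (W573 D T h) (mem_cons (W1747 D T h) (mem_cons (W4566 D T h) (mem_cons (W10929 D T h) mem_nil))))))))))))))))))))))))) cl2552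
theorem W10930 : WFK w10930 := fun D T h => wf_of_chk h mem_nil (mem_cons (L2552 D T h) mem_nil) cw10930
theorem L2553 : LFK l2553 := fun D T h => lf_of_chk h (mem_cons (W7212 D T h) (mem_cons (W9025 D T h) (mem_cons (W461 D T h) (mem_cons (W1 D T h) (mem_cons (W69 D T h) (mem_cons (W111 D T h) (mem_cons (W1636 D T h) (mem_cons (W5606 D T h) (mem_cons (W762 D T h) (mem_cons (W2576 D T h) (mem_cons (W2575 D T h) (mem_cons (W8485 D T h) (mem_cons (W5448 D T h) (mem_cons (W341 D T h) (mem_cons (W10930 D T h) (mem_cons (W3207 D T h) (mem_cons (W3016 D T h) (mem_cons (W2595 D T h) mem_nil)))))))))))))))))) cl2553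
theorem W10931 : WFK w10931 := fun D T h => wf_of_chk h mem_nil (mem_cons (L2553 D T h) mem_nil) cw10931
theorem L2554 : LFK l2554 := fun D T h => lf_of_chk h (mem_cons (W1362 D T h) (mem_cons (W9025 D T h) (mem_cons (W220 D T h) (mem_cons (W154 D T h) (mem_cons (W1929 D T h) (mem_cons (W1398 D T h) (mem_cons (W442 D T h) (mem_cons (W461 D T h) (mem_cons (W1445 D T h) (mem_cons (W4413 D T h) (mem_cons (W2597 D T h) (mem_cons (W722 D T h) (mem_cons (W2747 D T h) (mem_cons (W2600 D T h) (mem_cons (W341 D T h) (mem_cons (W4028 D T h) (mem_cons (W4277 D T h) (mem_cons (W2715 D T h) (mem_cons (W2601 D T h) (mem_cons (W2602 D T h) (mem_cons (W2741 D T h) mem_nil))))))))))))))))))))) cl2554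
theorem W10932 : WFK w10932 := fun D T h => wf_of_chk h mem_nil (mem_cons (L2554 D T h) mem_nil) cw10932
theorem W10933 : WFK w10933 := fun D T h => wf_of_chk h (mem_cons (W1576 D T h) (mem_cons (W16 D T h) mem_nil)) mem_nil cw10933
theorem L2555 : LFK l2555 := fun D T h => lf_of_chk h (mem_cons (W461 D T h) (mem_cons (W341 D T h) (mem_cons (W1025 D T h) (mem_cons (W3 D T h) (mem_cons (W143 D T h) (mem_cons (W1527 D T h) (mem_cons (W7171 D T h) (mem_cons (W1537 D T h) (mem_cons (W1543 D T h) (mem_cons (W1960 D T h) (mem_cons (W1616 D T h) (mem_cons (W2690 D T h) (mem_cons (W284 D T h) (mem_cons (W1409 D T h) (mem_cons (W15 D T h) (mem_cons (W220 D T h) (mem_cons (W401 D T h) (mem_cons (W431 D T h) (mem_cons (W722 D T h) mem_nil))))))))))))))))))) cl2555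
theorem W10934 : WFK w10934 := fun D T h => wf_of_chk h mem_nil (mem_cons (L2555 D T h) mem_nil) cw10934
theorem W10935 : WFK w10935 := fun D T h => wf_of_chk h mem_nil (mem_cons (L2555 D T h) mem_nil) cw10935
theorem W10936 : WFK w10936 := fun D T h => wf_of_chk h mem_nil (mem_cons (L1835 D T h) mem_nil) cw10936
theorem L2556 : LFK l2556 := fun D T h => lf_of_chk h (mem_cons (W8147 D T h) (mem_cons (W10936 D T h) (mem_cons (W1643 D T h) (mem_cons (W7223 D T h) (mem_cons (W461 D T h) (mem_cons (W9025 D T h) (mem_cons (W1929 D T h) (mem_cons (W16 D T h) (mem_cons (W10931 D T h) (mem_cons (W10822 D T h) (mem_cons (W10932 D T h) (mem_cons (W2696 D T h) (mem_cons (W50 D T h) (mem_cons (W10910 D T h) (mem_cons (W10911 D T h) (mem_cons (W1420 D T h) (mem_cons (W6766 D T h) (mem_cons (W5194 D T h) (mem_cons (W10924 D T h) (mem_cons (W9413 D T h) (mem_cons (W8807 D T h) (mem_cons (W10925 D T h) (mem_cons (W10926 D T h) (mem_cons (W10927 D T h) (mem_cons (W10933 D T h) (mem_cons (W1383 D T h)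 (mem_cons (W10934 D T h) (mem_cons (W10746 D T h) (mem_cons (W10748 D T h) (mem_cons (W10935 D T h) mem_nil)))))))))))))))))))))))))))))) cl2556
theorem W10937 : WFK w10937 := fun D T h => wf_of_chk h mem_nil (mem_cons (L2556 D T h) mem_nil) cw10937
theorem W10938 : WFK w10938 := fun D T h => wf_of_chk h (mem_cons (W177 D T h) (mem_cons (W1299 D T h) mem_nil)) mem_nil cw10938
theorem W10939 : WFK w10939 := fun D T h => wf_of_chk h (mem_cons (W50 D T h) (mem_cons (W1299 D T h) mem_nil)) mem_nil cw10939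
theorem W10940 : WFK w10940 := fun D T h => wf_of_chk h mem_nil (mem_cons (L2527 D T h) mem_nil) cw10940

end Pool.Agent.W319.GCI.K5
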