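import Pool.Agent.W319.GCI.K5A8
set_option autoImplicit false
set_option maxRecDepth 100000
set_option linter.all false
namespace Pool.Agent.W319.GCI.K5
open Pool.Agent.W319.GCI

theorem W10941 : WFK w10941 := fun D T h => wf_of_chk h mem_nil (mem_cons (L1146 D T h) mem_nil) cw10941
theorem W10942 : WFK w10942 := fun D T h => wf_of_chk h (mem_cons (W16 D T h) (mem_cons (W1299 D T h) mem_nil)) mem_nil cw10942
theorem L2557 : LFK l2557 := fun D T h => lf_of_chk h (mem_cons (W2317 D T h) (mem_cons (W37 D T h) (mem_cons (W42 D T h) (mem_cons (W10937 D T h) (mem_cons (W448 D T h) (mem_cons (W10942 D T h) (mem_cons (W6613 D T h) (mem_cons (W7466 D T h) (mem_cons (W10851 D T h) (mem_cons (W10940 D T h) (mem_cons (W1346 D T h) (mem_cons (W10938 D T h) (mem_cons (W1361 D T h) (mem_cons (W10939 D T h) (mem_cons (W6835 D T h) (mem_cons (W1298 D T h) (mem_cons (W220 D T h) (mem_cons (W1139 D T h) (mem_cons (W2315 D T h) (mem_cons (W2316 D T h) (mem_cons (W6776 D T h) (mem_cons (W10941 D T h) mem_nil))))))))))))))))))))))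 cl2557
theorem W10943 : WFK w10943 := fun D T h => wf_of_chk h mem_nil (mem_cons (L2557 D T h) mem_nil) cw10943
theorem L2558 : LFK l2558 := fun D T h => lf_of_chk h (mem_cons (W91 D T h) (mem_cons (W16 D T h) (mem_cons (W4 D T h) (mem_cons (W33 D T h) (mem_cons (W8 D T h) (mem_cons (W802 D T h) (mem_cons (W2204 D T h) (mem_cons (W619 D T h) (mem_cons (W197 D T h) (mem_cons (W3153 D T h) (mem_cons (W265 D T h) (mem_cons (W817 D T h) (mem_cons (W878 D T h) mem_nil))))))))))))) cl2558
theorem W10945 : WFK w10945 := fun D T h => wf_of_chk h mem_nil (mem_cons (L2558 D T h) mem_nil) cw10945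
theorem W10951 : WFK w10951 := fun D T h => wf_of_chk h mem_nil mem_nil cw10951
theorem L2561 : LFK l2561 := fun D T h => lf_of_chk h (mem_cons (W91 D T h) (mem_cons (W8 D T h) (mem_cons (W2204 D T h) (mem_cons (W619 D T h) (mem_cons (W7171 D T h) (mem_cons (W3153 D T h) (mem_cons (W878 D T h) (mem_cons (W817 D T h) (mem_cons (W265 D T h) (mem_cons (W7767 D T h) (mem_cons (W10951 D T h) mem_nil))))))))))) cl2561
theorem L2567 : LFK l2567 := fun D T h => lf_of_chk h (mem_cons (W8 D T h) (mem_cons (W193 D T h) (mem_cons (W192 D T h) mem_nil))) cl2567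
theorem W10963 : WFK w10963 := fun D T h => wf_of_chk h mem_nil (mem_cons (L2567 D T h) mem_nil) cw10963
theorem W10964 : WFK w10964 := fun D T h => wf_of_chk h mem_nil (mem_cons (L2259 D T h) mem_nil) cw10964
theorem W10965 : WFK w10965 := fun D T h => wf_of_chk h mem_nil (mem_cons (L2561 D T h) mem_nil) cw10965
theorem L2568 : LFK l2568 := fun D T h => lf_of_chk h (mem_cons (W141 D T h) (mem_cons (W11 D T h) (mem_cons (W784 D T h) (mem_cons (W281 D T h) (mem_cons (W10963 D T h) (mem_cons (W10965 D T h) (mem_cons (W1400 D T h) (mem_cons (W501 D T h) (mem_cons (W1143 D T h) (mem_cons (W1673 D T h) (mem_cons (W675 D T h) (mem_cons (W814 D T h) (mem_cons (W861 D T h) (mem_cons (W1944 D T h) (mem_cons (W7775 D T h) mem_nil))))))))))))))) cl2568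
theorem W10966 : WFK w10966 := fun D T h => wf_of_chk h mem_nil (mem_cons (L2568 D T h) mem_nil) cw10966
theorem W10967 : WFK w10967 := fun D T h => wf_of_chk h mem_nil (mem_cons (L2568 D T h) mem_nil) cw10967
theorem W10968 : WFK w10968 := fun D T h => wf_of_chk h mem_nil (mem_cons (L2068 D T h) mem_nil) cw10968
theorem W10969 : WFK w10969 := fun D T h => wf_of_chk h (mem_cons (W15 D T h) (mem_cons (W2922 D T h) mem_nil)) mem_nil cw10969
theorem L2569 : LFK l2569 := fun D T h => lf_of_chk h (mem_cons (W9449 D T h) (mem_cons (W2922 D T h) (mem_cons (W1330 D T h) (mem_cons (W7776 D T h) (mem_cons (W1919 D T h) (mem_cons (W642 D T h) (mem_cons (W3566 D T h) (mem_cons (W9551 D T h) (mem_cons (W6394 D T h) (mem_cons (W219 D T h) (mem_cons (W10968 D T h) (mem_cons (W10969 D T h) (mem_cons (W15 D T h) (mem_cons (W10963 D T h) (mem_cons (W10964 D T h) (mem_cons (W141 D T h) (mem_cons (W1707 D T h) (mem_cons (W10624 D T h) (mem_cons (W10966 D T h) (mem_cons (W10967 D T h) (mem_cons (W9934 D T h) (mem_cons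 (W9452 D T h) (mem_cons (W9453 D T h) (mem_cons (W9455 D T h) (mem_cons (W9456 D T h) mem_nil))))))))))))))))))))))))) cl2569
theorem L2570 : LFK l2570 := fun D T h => lf_of_chk h (mem_cons (W219 D T h) (mem_cons (W15 D T h) (mem_cons (W802 D T h) (mem_cons (W10242 D T h) (mem_cons (W141 D T h) (mem_cons (W3566 D T h) (mem_cons (W3855 D T h) (mem_cons (W1707 D T h) (mem_cons (W2799 D T h) (mem_cons (W2797 D T h) (mem_cons (W499 D T h) mem_nil))))))))))) cl2570
theorem W10971 : WFK w10971 := fun D T h => wf_of_chk h mem_nil (mem_cons (L2570 D T h) mem_nil) cw10971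
theorem W10972 : WFK w10972 := fun D T h => wf_of_chk h mem_nil (mem_cons (L2259 D T h) mem_nil) cw10972
theorem W10973 : WFK w10973 := fun D T h => wf_of_chk h mem_nil (mem_cons (L2401 D T h) mem_nil) cw10973
theorem W10974 : WFK w10974 := fun D T h => wf_of_chk h mem_nil (mem_cons (L2523 D T h) mem_nil) cw10974
theorem W10975 : WFK w10975 := fun D T h => wf_of_chk h (mem_cons (W69 D T h) (mem_cons (W1145 D T h) mem_nil)) mem_nil cw10975
theorem L2571 : LFK l2571 := fun D T h => lf_of_chk h (mem_cons (W1167 D T h) (mem_cons (W1145 D T h) (mem_cons (W1144 D T h) (mem_cons (W16 D T h) (mem_cons (W1063 D T h) (mem_cons (W1164 D T h) (mem_cons (W10975 D T h) (mem_cons (W1165 D T h) (mem_cons (W1154 D T h) (mem_cons (W10945 D T h) (mem_cons (W1155 D T h) (mem_cons (W1133 D T h) (mem_cons (W1157 D T h) (mem_cons (W1135 D T h) (mem_cons (W1146 D T h) (mem_cons (W1158 D T h) (mem_cons (W2015 D T h) (mem_cons (W2037 D T h) (mem_cons (W1163 D T h) (mem_cons (W1162 D T h) (mem_cons (W284 D T h) (mem_cons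 (W1069 D T h) (mem_cons (W9776 D T h) (mem_cons (W1137 D T h) (mem_cons (W1148 D T h) (mem_cons (W1150 D T h) (mem_cons (W1151 D T h) (mem_cons (W9701 D T h) (mem_cons (W1152 D T h) (mem_cons (W128 D T h) (mem_cons (W1139 D T h) (mem_cons (W1138 D T h) (mem_cons (W1140 D T h) (mem_cons (W1142 D T h) (mem_cons (W1141 D T h) mem_nil))))))))))))))))))))))))))))))))))) cl2571
theorem W10976 : WFK w10976 := fun D T h => wf_of_chk h mem_nil (mem_cons (L2571 D T h) mem_nil) cw10976
theorem W10977 : WFK w10977 := fun D T h => wf_of_chk h mem_nil (mem_cons (L2569 D T h) mem_nil) cw10977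
theorem L2572 : LFK l2572 := fun D T h => lf_of_chk h (mem_cons (W10828 D T h) (mem_cons (W16 D T h) (mem_cons (W241 D T h) (mem_cons (W1051 D T h) (mem_cons (W10971 D T h) (mem_cons (W10972 D T h) (mem_cons (W1919 D T h) (mem_cons (W10977 D T h) (mem_cons (W91 D T h) (mem_cons (W9577 D T h) (mem_cons (W6394 D T h) (mem_cons (W9449 D T h) (mem_cons (W10945 D T h) mem_nil))))))))))))) cl2572
theorem W10978 : WFK w10978 := fun D T h => wf_of_chk h mem_nil (mem_cons (L2572 D T h) mem_nil) cw10978
theorem W10979 : WFK w10979 := fun D T h => wf_of_chk h mem_nil (mem_cons (L2572 D T h) mem_nil) cw10979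
theorem W10980 : WFK w10980 := fun D T h => wf_of_chk h mem_nil (mem_cons (L2313 D T h) mem_nil) cw10980
theorem L2573 : LFK l2573 := fun D T h => lf_of_chk h (mem_cons (W1192 D T h) (mem_cons (W154 D T h) (mem_cons (W3227 D T h) (mem_cons (W1189 D T h) (mem_cons (W798 D T h) (mem_cons (W4209 D T h) (mem_cons (W4038 D T h) (mem_cons (W581 D T h) (mem_cons (W4025 D T h) (mem_cons (W1196 D T h) (mem_cons (W1106 D T h) (mem_cons (W747 D T h) (mem_cons (W10043 D T h) (mem_cons (W1191 D T h) (mem_cons (W1138 D T h) (mem_cons (W1161 D T h) (mem_cons (W1124 D T h) (mem_cons (W10045 D T h) (mem_cons (W1195 D T h) (mem_cons (W1194 D T h) mem_nil)))))))))))))))))))) cl2573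
theorem W10981 : WFK w10981 := fun D T h => wf_of_chk h mem_nil (mem_cons (L2573 D T h) mem_nil) cw10981
theorem L2574 : LFK l2574 := fun D T h => lf_of_chk h (mem_cons (W128 D T h) (mem_cons (W15 D T h) (mem_cons (W3227 D T h) (mem_cons (W1064 D T h) (mem_cons (W219 D T h) (mem_cons (W4209 D T h) (mem_cons (W4038 D T h) (mem_cons (W581 D T h) (mem_cons (W5655 D T h) (mem_cons (W8397 D T h) (mem_cons (W1192 D T h) (mem_cons (W366 D T h) (mem_cons (W3628 D T h) mem_nil))))))))))))) cl2574
theorem W10982 : WFK w10982 := fun D T h => wf_of_chk h mem_nil (mem_cons (L2574 D T h) mem_nil) cw10982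
theorem W10983 : WFK w10983 := fun D T h => wf_of_chk h mem_nil (mem_cons (L33 D T h) mem_nil) cw10983
theorem L2575 : LFK l2575 := fun D T h => lf_of_chk h (mem_cons (W572 D T h) (mem_cons (W15 D T h) (mem_cons (W4 D T h) (mem_cons (W33 D T h) (mem_cons (W848 D T h) (mem_cons (W141 D T h) (mem_cons (W4192 D T h) (mem_cons (W904 D T h) (mem_cons (W2922 D T h) (mem_cons (W569 D T h) (mem_cons (W10983 D T h) (mem_cons (W721 D T h) (mem_cons (W6680 D T h) (mem_cons (W8207 D T h) (mem_cons (W114 D T h) mem_nil))))))))))))))) cl2575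
theorem W10984 : WFK w10984 := fun D T h => wf_of_chk h mem_nil (mem_cons (L2575 D T h) mem_nil) cw10984
theorem W10986 : WFK w10986 := fun D T h => wf_of_chk h mem_nil (mem_cons (L2396 D T h) mem_nil) cw10986
theorem W10987 : WFK w10987 := fun D T h => wf_of_chk h mem_nil (mem_cons (L203 D T h) mem_nil) cw10987
theorem W10992 : WFK w10992 := fun D T h => wf_of_chk h mem_nil (mem_cons (L862 D T h) mem_nil) cw10992
theorem L2581 : LFK l2581 := fun D T h => lf_of_chk h (mem_cons (W281 D T h) (mem_cons (W10 D T h) (mem_cons (W8 D T h) (mem_cons (W1101 D T h) (mem_cons (W2766 D T h) (mem_cons (W41 D T h) (mem_cons (W1536 D T h) mem_nil))))))) cl2581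
theorem L2582 : LFK l2582 := fun D T h => lf_of_chk h (mem_cons (W2766 D T h) (mem_cons (W10 D T h) (mem_cons (W9 D T h) (mem_cons (W7171 D T h) (mem_cons (W5441 D T h) (mem_cons (W10083 D T h) mem_nil)))))) cl2582
theorem W10998 : WFK w10998 := fun D T h => wf_of_chk h mem_nil (mem_cons (L1352 D T h) mem_nil) cw10998
theorem W10999 : WFK w10999 := fun D T h => wf_of_chk h mem_nil (mem_cons (L1352 D T h) mem_nil) cw10999
theorem W11000 : WFK w11000 := fun D T h => wf_of_chk h (mem_cons (W3824 D T h) (mem_cons (W284 D T h) mem_nil)) mem_nil cw11000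
theorem W11001 : WFK w11001 := fun D T h => wf_of_chk h (mem_cons (W281 D T h) (mem_cons (W284 D T h) mem_nil)) mem_nil cw11001
theorem W11002 : WFK w11002 := fun D T h => wf_of_chk h (mem_cons (W126 D T h) (mem_cons (W10999 D T h) mem_nil)) mem_nil cw11002
theorem W11003 : WFK w11003 := fun D T h => wf_of_chk h mem_nil (mem_cons (L2172 D T h) mem_nil) cw11003
theorem W11004 : WFK w11004 := fun D T h => wf_of_chk h (mem_cons (W105 D T h) (mem_cons (W69 D T h) mem_nil)) mem_nil cw11004
theorem W11005 : WFK w11005 := fun D T h => wf_of_chk h (mem_cons (W521 D T h) (mem_cons (W69 D T h) mem_nil)) mem_nil cw11005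
theorem W11006 : WFK w11006 := fun D T h => wf_of_chk h (mem_cons (W616 D T h) (mem_cons (W69 D T h) mem_nil)) mem_nil cw11006
theorem W11007 : WFK w11007 := fun D T h => wf_of_chk h mem_nil (mem_cons (L2175 D T h) mem_nil) cw11007
theorem W11008 : WFK w11008 := fun D T h => wf_of_chk h (mem_cons (W162 D T h) (mem_cons (W4566 D T h) mem_nil)) mem_nil cw11008
theorem W11009 : WFK w11009 := fun D T h => wf_of_chk h (mem_cons (W8839 D T h) (mem_cons (W16 D T h) mem_nil)) mem_nil cw11009
theorem W11010 : WFK w11010 := fun D T h => wf_of_chk h (mem_cons (W80 D T h) (mem_cons (W144 D T h) mem_nil)) mem_nil cw11010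
theorem W11011 : WFK w11011 := fun D T h => wf_of_chk h (mem_cons (W75 D T h) (mem_cons (W230 D T h) mem_nil)) mem_nil cw11011
theorem W11012 : WFK w11012 := fun D T h => wf_of_chk h (mem_cons (W621 D T h) (mem_cons (W16 D T h) mem_nil)) mem_nil cw11012
theorem L2583 : LFK l2583 := fun D T h => lf_of_chk h (mem_cons (W6074 D T h) (mem_cons (W552 D T h) (mem_cons (W4038 D T h) (mem_cons (W230 D T h) (mem_cons (W281 D T h) (mem_cons (W69 D T h) (mem_cons (W5663 D T h) (mem_cons (W5947 D T h) (mem_cons (W11012 D T h) (mem_cons (W3688 D T h) (mem_cons (W16 D T h) (mem_cons (W11003 D T h) (mem_cons (W11007 D T h) (mem_cons (W2015 D T h) (mem_cons (W2037 D T h) (mem_cons (W11008 D T h) (mem_cons (W8783 D T h) (mem_cons (W11004 D T h) (mem_cons (W4259 D T h) (mem_cons (W521 D T h) (mem_cons (W11005 D T h) (mem_cons (W128 D T h) (mem_cons (W5942 D T h) (mem_cons (W9964 D T h) (mem_cons (W11006 D T h) (mem_cons (W11009 D T h) (mem_cons (W91 D T h) (mem_cons (W80 D T h) (mem_cons (W11010 D T h) (mem_cons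 (W1355 D T h) (mem_cons (W11011 D T h) mem_nil))))))))))))))))))))))))))))))) cl2583
theorem W11013 : WFK w11013 := fun D T h => wf_of_chk h mem_nil (mem_cons (L2583 D T h) mem_nil) cw11013
theorem W11014 : WFK w11014 := fun D T h => wf_of_chk h (mem_cons (W11013 D T h) (mem_cons (W284 D T h) mem_nil)) mem_nil cw11014
theorem W11015 : WFK w11015 := fun D T h => wf_of_chk h (mem_cons (W101 D T h) (mem_cons (W284 D T h) mem_nil)) mem_nil cw11015
theorem W11016 : WFK w11016 := fun D T h => wf_of_chk h (mem_cons (W69 D T h) (mem_cons (W284 D T h) mem_nil)) mem_nil cw11016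
theorem L2584 : LFK l2584 := fun D T h => lf_of_chk h (mem_cons (W2015 D T h) (mem_cons (W1164 D T h) (mem_cons (W11016 D T h) (mem_cons (W11001 D T h) (mem_cons (W461 D T h) (mem_cons (W1929 D T h) (mem_cons (W1919 D T h) (mem_cons (W370 D T h) (mem_cons (W3356 D T h) (mem_cons (W581 D T h) (mem_cons (W10769 D T h) (mem_cons (W11015 D T h) mem_nil)))))))))))) cl2584
theorem W11017 : WFK w11017 := fun D T h => wf_of_chk h mem_nil (mem_cons (L2584 D T h) mem_nil) cw11017
theorem W11018 : WFK w11018 := fun D T h => wf_of_chk h (mem_cons (W34 D T h) (mem_cons (W1144 D T h) mem_nil)) mem_nil cw11018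
theorem W11019 : WFK w11019 := fun D T h => wf_of_chk h (mem_cons (W162 D T h) (mem_cons (W11016 D T h) mem_nil)) mem_nil cw11019
theorem L2585 : LFK l2585 := fun D T h => lf_of_chk h (mem_cons (W1135 D T h) (mem_cons (W1146 D T h) (mem_cons (W1158 D T h) (mem_cons (W1159 D T h) (mem_cons (W1160 D T h) (mem_cons (W1163 D T h) (mem_cons (W1162 D T h) (mem_cons (W11000 D T h) (mem_cons (W10999 D T h) (mem_cons (W1144 D T h) (mem_cons (W16 D T h) (mem_cons (W11001 D T h) (mem_cons (W1164 D T h) (mem_cons (W11018 D T h) (mem_cons (W2015 D T h) (mem_cons (W2037 D T h) (mem_cons (W8783 D T h) (mem_cons (W11019 D T h) (mem_cons (W4209 D T h) (mem_cons (W11002 D T h) (mem_cons (W11014 D T h) (mem_cons (W9771 D T h) (mem_cons (W128 D T h) (mem_cons (W11017 D T h) (mem_cons (W1154 D T h) (mem_cons (W10828 D T h) (mem_cons (W1155 D T h) (mem_cons (W1133 D T h) (mem_cons (W1157 D T h) (mem_cons (W284 D T h) (mem_cons (W1069 D T h) (mem_cons (W1136 D T h) (mem_cons (W1137 D T h) (mem_cons (W1148 D T h) (mem_cons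 (W1150 D T h) (mem_cons (W1151 D T h) (mem_cons (W9701 D T h) (mem_cons (W1152 D T h) (mem_cons (W1139 D T h) (mem_cons (W10998 D T h) (mem_cons (W1140 D T h) (mem_cons (W1142 D T h) (mem_cons (W1141 D T h) mem_nil))))))))))))))))))))))))))))))))))))))))))) cl2585
theorem W11020 : WFK w11020 := fun D T h => wf_of_chk h mem_nil (mem_cons (L2585 D T h) mem_nil) cw11020
theorem W11021 : WFK w11021 := fun D T h => wf_of_chk h mem_nil (mem_cons (L2213 D T h) mem_nil) cw11021
theorem L2586 : LFK l2586 := fun D T h => lf_of_chk h (mem_cons (W42 D T h) (mem_cons (W3 D T h) (mem_cons (W461 D T h) (mem_cons (W1467 D T h) (mem_cons (W281 D T h) (mem_cons (W1554 D T h) (mem_cons (W1325 D T h) (mem_cons (W581 D T h) (mem_cons (W1326 D T h) (mem_cons (W143 D T h) (mem_cons (W2503 D T h) (mem_cons (W39 D T h) (mem_cons (W5841 D T h) mem_nil))))))))))))) cl2586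
theorem L2587 : LFK l2587 := fun D T h => lf_of_chk h (mem_cons (W128 D T h) (mem_cons (W219 D T h) (mem_cons (W15 D T h) (mem_cons (W124 D T h) (mem_cons (W436 D T h) (mem_cons (W601 D T h) (mem_cons (W606 D T h) (mem_cons (W581 D T h) (mem_cons (W600 D T h) (mem_cons (W1064 D T h) mem_nil)))))))))) cl2587
theorem W11023 : WFK w11023 := fun D T h => wf_of_chk h mem_nil (mem_cons (L2587 D T h) mem_nil) cw11023
theorem L2588 : LFK l2588 := fun D T h => lf_of_chk h (mem_cons (W3766 D T h) (mem_cons (W179 D T h) (mem_cons (W91 D T h) (mem_cons (W11023 D T h) (mem_cons (W1272 D T h) (mem_cons (W256 D T h) (mem_cons (W255 D T h) (mem_cons (W257 D T h) (mem_cons (W3824 D T h) (mem_cons (W3 D T h) (mem_cons (W401 D T h) (mem_cons (W39 D T h) (mem_cons (W267 D T h) (mem_cons (W181 D T h) mem_nil)))))))))))))) cl2588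
theorem W11024 : WFK w11024 := fun D T h => wf_of_chk h mem_nil (mem_cons (L2588 D T h) mem_nil) cw11024
theorem W11025 : WFK w11025 := fun D T h => wf_of_chk h mem_nil (mem_cons (L1579 D T h) mem_nil) cw11025
theorem L2591 : LFK l2591 := fun D T h => lf_of_chk h (mem_cons (W128 D T h) (mem_cons (W15 D T h) (mem_cons (W7114 D T h) (mem_cons (W1064 D T h) (mem_cons (W219 D T h) (mem_cons (W4209 D T h) (mem_cons (W4038 D T h) (mem_cons (W581 D T h) (mem_cons (W10045 D T h) (mem_cons (W8397 D T h) (mem_cons (W1192 D T h) mem_nil))))))))))) cl2591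
theorem W11028 : WFK w11028 := fun D T h => wf_of_chk h mem_nil (mem_cons (L2591 D T h) mem_nil) cw11028
theorem L2592 : LFK l2592 := fun D T h => lf_of_chk h (mem_cons (W1210 D T h) (mem_cons (W16 D T h) (mem_cons (W3227 D T h) (mem_cons (W6326 D T h) (mem_cons (W10980 D T h) (mem_cons (W2015 D T h) (mem_cons (W2037 D T h) (mem_cons (W8783 D T h) (mem_cons (W10981 D T h) (mem_cons (W11028 D T h) (mem_cons (W3815 D T h) (mem_cons (W11021 D T h) (mem_cons (W366 D T h) (mem_cons (W1069 D T h) (mem_cons (W10347 D T h) (mem_cons (W9771 D T h) (mem_cons (W128 D T h) (mem_cons (W8052 D T h) (mem_cons (W1169 D T h) (mem_cons (W11020 D T h) (mem_cons (W10837 D T h) (mem_cons (W9256 D T h) (mem_cons (W10828 D T h) (mem_cons (W10978 D T h) (mem_cons (W1133 D T h) (mem_cons (W1185 D T h) (mem_cons (W10979 D T h) (mem_cons (W10982 D T h) (mem_cons (W10070 D T h) (mem_cons (W10973 D T h) (mem_cons (W10974 D T h) (mem_cons (W10976 D T h) (mem_cons (W10835 D T h) mem_nil))))))))))))))))))))))))))))))))) cl2592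
theorem W11029 : WFK w11029 := fun D T h => wf_of_chk h mem_nil (mem_cons (L2592 D T h) mem_nil) cw11029
theorem W11030 : WFK w11030 := fun D T h => wf_of_chk h (mem_cons (W11029 D T h) (mem_cons (W37 D T h) mem_nil)) mem_nil cw11030
theorem W11031 : WFK w11031 := fun D T h => wf_of_chk h mem_nil (mem_cons (L659 D T h) mem_nil) cw11031
theorem W11032 : WFK w11032 := fun D T h => wf_of_chk h (mem_cons (W11031 D T h) (mem_cons (W37 D T h) mem_nil)) mem_nil cw11032
theorem W11033 : WFK w11033 := fun D T h => wf_of_chk h (mem_cons (W114 D T h) (mem_cons (W16 D T h) mem_nil)) mem_nil cw11033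
theorem W11034 : WFK w11034 := fun D T h => wf_of_chk h (mem_cons (W1067 D T h) (mem_cons (W16 D T h) mem_nil)) mem_nil cw11034
theorem L2593 : LFK l2593 := fun D T h => lf_of_chk h (mem_cons (W7863 D T h) (mem_cons (W16 D T h) (mem_cons (W6613 D T h) (mem_cons (W2839 D T h) (mem_cons (W2936 D T h) (mem_cons (W2868 D T h) (mem_cons (W2861 D T h) (mem_cons (W8297 D T h) (mem_cons (W9699 D T h) (mem_cons (W9717 D T h) (mem_cons (W2405 D T h) (mem_cons (W3571 D T h) (mem_cons (W8457 D T h) (mem_cons (W2037 D T h) (mem_cons (W2050 D T h) (mem_cons (W7862 D T h) (mem_cons (W6719 D T h) (mem_cons (W8184 D T h) (mem_cons (W2843 D T h) (mem_cons (W3304 D T h) (mem_cons (W7858 D T h) (mem_cons (W7864 D T h) (mem_cons (W2934 D T h) (mem_cons (W7865 D T h) (mem_cons (W284 D T h) (mem_cons (W1331 D T h) (mem_cons (W11033 D T h) (mem_cons (W2828 D T h) (mem_cons (W7447 D T h) (mem_cons (W11034 D T h) (mem_cons (W7861 D T h) (mem_cons (W3937 D T h) mem_nil)))))))))))))))))))))))))))))))) cl2593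
theorem W11035 : WFK w11035 := fun D T h => wf_of_chk h mem_nil (mem_cons (L2593 D T h) mem_nil) cw11035
theorem W11036 : WFK w11036 := fun D T h => wf_of_chk h (mem_cons (W11035 D T h) (mem_cons (W37 D T h) mem_nil)) mem_nil cw11036
theorem W11037 : WFK w11037 := fun D T h => wf_of_chk h (mem_cons (W1291 D T h) (mem_cons (W2024 D T h) mem_nil)) mem_nil cw11037
theorem L2594 : LFK l2594 := fun D T h => lf_of_chk h (mem_cons (W2320 D T h) (mem_cons (W37 D T h) (mem_cons (W2321 D T h) (mem_cons (W2389 D T h) (mem_cons (W8421 D T h) (mem_cons (W10866 D T h) (mem_cons (W11037 D T h) (mem_cons (W8977 D T h) (mem_cons (W2807 D T h) (mem_cons (W9025 D T h) (mem_cons (W11030 D T h) (mem_cons (W11032 D T h) (mem_cons (W1213 D T h) (mem_cons (W11036 D T h) (mem_cons (W2710 D T h) (mem_cons (W2322 D T h) (mem_cons (W8444 D T h) (mem_cons (W10905 D T h) (mem_cons (W10906 D T h) (mem_cons (W2375 D T h) (mem_cons (W2027 D T h) (mem_cons (W10789 D T h) (mem_cons (W10907 D T h) (mem_cons (W2376 D T h) (mem_cons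 (W2377 D T h) (mem_cons (W5347 D T h) (mem_cons (W2317 D T h) (mem_cons (W10943 D T h) mem_nil)))))))))))))))))))))))))))) cl2594
theorem W11038 : WFK w11038 := fun D T h => wf_of_chk h mem_nil (mem_cons (L2594 D T h) mem_nil) cw11038
theorem W11039 : WFK w11039 := fun D T h => wf_of_chk h (mem_cons (W1322 D T h) (mem_cons (W16 D T h) mem_nil)) mem_nil cw11039
theorem W11040 : WFK w11040 := fun D T h => wf_of_chk h mem_nil (mem_cons (L2401 D T h) mem_nil) cw11040
theorem W11042 : WFK w11042 := fun D T h => wf_of_chk h (mem_cons (W391 D T h) (mem_cons (W16 D T h) mem_nil)) mem_nil cw11042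
theorem W11043 : WFK w11043 := fun D T h => wf_of_chk h (mem_cons (W114 D T h) mem_nil) mem_nil cw11043
theorem W11044 : WFK w11044 := fun D T h => wf_of_chk h (mem_cons (W2452 D T h) (mem_cons (W16 D T h) mem_nil)) mem_nil cw11044
theorem W11045 : WFK w11045 := fun D T h => wf_of_chk h mem_nil (mem_cons (L2009 D T h) mem_nil) cw11045
theorem W11046 : WFK w11046 := fun D T h => wf_of_chk h mem_nil (mem_cons (L1283 D T h) mem_nil) cw11046
theorem W11047 : WFK w11047 := fun D T h => wf_of_chk h (mem_cons (W7316 D T h) (mem_cons (W16 D T h) mem_nil)) mem_nil cw11047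
theorem W11048 : WFK w11048 := fun D T h => wf_of_chk h (mem_cons (W164 D T h) mem_nil) mem_nil cw11048
theorem W11049 : WFK w11049 := fun D T h => wf_of_chk h (mem_cons (W114 D T h) mem_nil) mem_nil cw11049
theorem W11050 : WFK w11050 := fun D T h => wf_of_chk h mem_nil (mem_cons (L446 D T h) mem_nil) cw11050
theorem W11051 : WFK w11051 := fun D T h => wf_of_chk h mem_nil (mem_cons (L715 D T h) mem_nil) cw11051
theorem W11052 : WFK w11052 := fun D T h => wf_of_chk h mem_nil (mem_cons (L202 D T h) mem_nil) cw11052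
theorem W11053 : WFK w11053 := fun D T h => wf_of_chk h mem_nil (mem_cons (L403 D T h) mem_nil) cw11053
theorem W11054 : WFK w11054 := fun D T h => wf_of_chk h mem_nil (mem_cons (L188 D T h) mem_nil) cw11054
theorem W11055 : WFK w11055 := fun D T h => wf_of_chk h (mem_cons (W391 D T h) mem_nil) mem_nil cw11055
theorem L2595 : LFK l2595 := fun D T h => lf_of_chk h (mem_cons (W2539 D T h) (mem_cons (W1051 D T h) (mem_cons (W230 D T h) (mem_cons (W220 D T h) (mem_cons (W3424 D T h) (mem_cons (W915 D T h) (mem_cons (W1412 D T h) (mem_cons (W3406 D T h) (mem_cons (W8359 D T h) (mem_cons (W860 D T h) (mem_cons (W3848 D T h) (mem_cons (W871 D T h) (mem_cons (W11051 D T h) (mem_cons (W11052 D T h) (mem_cons (W11053 D T h) (mem_cons (W7343 D T h) (mem_cons (W11054 D T h) (mem_cons (W11055 D T h) mem_nil)))))))))))))))))) cl2595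
theorem W11056 : WFK w11056 := fun D T h => wf_of_chk h mem_nil (mem_cons (L2595 D T h) mem_nil) cw11056
theorem W11057 : WFK w11057 := fun D T h => wf_of_chk h (mem_cons (W220 D T h) (mem_cons (W391 D T h) mem_nil)) mem_nil cw11057
theorem W11058 : WFK w11058 := fun D T h => wf_of_chk h mem_nil (mem_cons (L2595 D T h) mem_nil) cw11058
theorem W11059 : WFK w11059 := fun D T h => wf_of_chk h mem_nil (mem_cons (L2595 D T h) mem_nil) cw11059
theorem W11060 : WFK w11060 := fun D T h => wf_of_chk h (mem_cons (W5841 D T h) mem_nil) mem_nil cw11060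
theorem W11061 : WFK w11061 := fun D T h => wf_of_chk h mem_nil (mem_cons (L485 D T h) mem_nil) cw11061
theorem W11062 : WFK w11062 := fun D T h => wf_of_chk h (mem_cons (W391 D T h) mem_nil) mem_nil cw11062
theorem W11063 : WFK w11063 := fun D T h => wf_of_chk h (mem_cons (W391 D T h) mem_nil) mem_nil cw11063
theorem W11064 : WFK w11064 := fun D T h => wf_of_chk h (mem_cons (W200 D T h) mem_nil) mem_nil cw11064
theorem W11065 : WFK w11065 := fun D T h => wf_of_chk h mem_nil (mem_cons (L1832 D T h) mem_nil) cw11065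
theorem W11066 : WFK w11066 := fun D T h => wf_of_chk h (mem_cons (W158 D T h) (mem_cons (W391 D T h) mem_nil)) mem_nil cw11066
theorem W11067 : WFK w11067 := fun D T h => wf_of_chk h (mem_cons (W281 D T h) (mem_cons (W391 D T h) mem_nil)) mem_nil cw11067
theorem W11068 : WFK w11068 := fun D T h => wf_of_chk h mem_nil (mem_cons (L296 D T h) mem_nil) cw11068
theorem L2596 : LFK l2596 := fun D T h => lf_of_chk h (mem_cons (W5258 D T h) (mem_cons (W11048 D T h) (mem_cons (W1051 D T h) (mem_cons (W69 D T h) (mem_cons (W1 D T h) (mem_cons (W367 D T h) (mem_cons (W4531 D T h) (mem_cons (W4256 D T h) (mem_cons (W4209 D T h) (mem_cons (W2090 D T h) (mem_cons (W11068 D T h) (mem_cons (W11064 D T h) (mem_cons (W11065 D T h) (mem_cons (W616 D T h) (mem_cons (W11066 D T h) (mem_cons (W11062 D T h) (mem_cons (W11063 D T h) (mem_cons (W126 D T h) (mem_cons (W6891 D T h) (mem_cons (W11067 D T h) mem_nil)))))))))))))))))))) cl2596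
theorem W11069 : WFK w11069 := fun D T h => wf_of_chk h mem_nil (mem_cons (L2596 D T h) mem_nil) cw11069
theorem W11070 : WFK w11070 := fun D T h => wf_of_chk h (mem_cons (W162 D T h) (mem_cons (W391 D T h) mem_nil)) mem_nil cw11070
theorem L2597 : LFK l2597 := fun D T h => lf_of_chk h (mem_cons (W11042 D T h) (mem_cons (W2839 D T h) (mem_cons (W1051 D T h) (mem_cons (W16 D T h) (mem_cons (W7084 D T h) (mem_cons (W11048 D T h) (mem_cons (W11069 D T h) (mem_cons (W11070 D T h) (mem_cons (W284 D T h) (mem_cons (W2934 D T h) (mem_cons (W11049 D T h) (mem_cons (W2539 D T h) (mem_cons (W11050 D T h) (mem_cons (W11056 D T h) (mem_cons (W11057 D T h) (mem_cons (W11058 D T h) (mem_cons (W11059 D T h) (mem_cons (W2346 D T h) (mem_cons (W817 D T h) (mem_cons (W970 D T h) (mem_cons (W1449 D T h) (mem_cons (W11060 D T h) (mem_cons (W11061 D T h) (mem_cons (W1706 D T h) (mem_cons (W6558 D T h) (mem_cons (W11043 D T h) (mem_cons (W6569 D T h) (mem_cons (W11044 D T h) (mem_cons (W11045 D T h) (mem_cons (W11046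 D T h) (mem_cons (W11047 D T h) (mem_cons (W5247 D T h) (mem_cons (W2863 D T h) mem_nil))))))))))))))))))))))))))))))))) cl2597
theorem W11073 : WFK w11073 := fun D T h => wf_of_chk h (mem_cons (W284 D T h) (mem_cons (W16 D T h) mem_nil)) mem_nil cw11073
theorem W11086 : WFK w11086 := fun D T h => wf_of_chk h (mem_cons (W368 D T h) (mem_cons (W2994 D T h) mem_nil)) mem_nil cw11086
theorem L2600 : LFK l2600 := fun D T h => lf_of_chk h (mem_cons (W2037 D T h) (mem_cons (W1063 D T h) (mem_cons (W42 D T h) (mem_cons (W16 D T h) (mem_cons (W2015 D T h) (mem_cons (W7114 D T h) (mem_cons (W8912 D T h) (mem_cons (W5633 D T h) (mem_cons (W7720 D T h) (mem_cons (W11086 D T h) (mem_cons (W154 D T h) (mem_cons (W3193 D T h) (mem_cons (W1192 D T h) (mem_cons (W6968 D T h) (mem_cons (W2378 D T h) (mem_cons (W3766 D T h) (mem_cons (W6758 D T h) (mem_cons (W9025 D T h) mem_nil)))))))))))))))))) cl2600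
theorem W11087 : WFK w11087 := fun D T h => wf_of_chk h mem_nil (mem_cons (L2600 D T h) mem_nil) cw11087
theorem W11088 : WFK w11088 := fun D T h => wf_of_chk h (mem_cons (W368 D T h) (mem_cons (W2326 D T h) mem_nil)) mem_nil cw11088
theorem L2601 : LFK l2601 := fun D T h => lf_of_chk h (mem_cons (W9025 D T h) (mem_cons (W1063 D T h) (mem_cons (W42 D T h) (mem_cons (W16 D T h) (mem_cons (W2015 D T h) (mem_cons (W7114 D T h) (mem_cons (W8912 D T h) (mem_cons (W5633 D T h) (mem_cons (W7720 D T h) (mem_cons (W2037 D T h) (mem_cons (W11088 D T h) (mem_cons (W154 D T h) (mem_cons (W3193 D T h) (mem_cons (W1192 D T h) (mem_cons (W6968 D T h) (mem_cons (W2378 D T h) (mem_cons (W3766 D T h) (mem_cons (W6758 D T h) mem_nil)))))))))))))))))) cl2601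
theorem W11089 : WFK w11089 := fun D T h => wf_of_chk h mem_nil (mem_cons (L2601 D T h) mem_nil) cw11089
theorem W11090 : WFK w11090 := fun D T h => wf_of_chk h (mem_cons (W368 D T h) (mem_cons (W2997 D T h) mem_nil)) mem_nil cw11090
theorem L2602 : LFK l2602 := fun D T h => lf_of_chk h (mem_cons (W2037 D T h) (mem_cons (W1063 D T h) (mem_cons (W42 D T h) (mem_cons (W16 D T h) (mem_cons (W2015 D T h) (mem_cons (W7114 D T h) (mem_cons (W8912 D T h) (mem_cons (W5633 D T h) (mem_cons (W7720 D T h) (mem_cons (W11090 D T h) (mem_cons (W154 D T h) (mem_cons (W3193 D T h) (mem_cons (W1192 D T h) (mem_cons (W6968 D T h) (mem_cons (W2378 D T h) (mem_cons (W721 D T h) (mem_cons (W6758 D T h) (mem_cons (W9025 D T h) mem_nil)))))))))))))))))) cl2602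
theorem W11091 : WFK w11091 := fun D T h => wf_of_chk h mem_nil (mem_cons (L2602 D T h) mem_nil) cw11091
theorem W11092 : WFK w11092 := fun D T h => wf_of_chk h mem_nil (mem_cons (L552 D T h) mem_nil) cw11092
theorem L2603 : LFK l2603 := fun D T h => lf_of_chk h (mem_cons (W2037 D T h) (mem_cons (W16 D T h) (mem_cons (W2015 D T h) (mem_cons (W7114 D T h) (mem_cons (W42 D T h) (mem_cons (W8912 D T h) (mem_cons (W5633 D T h) (mem_cons (W7720 D T h) (mem_cons (W3750 D T h) (mem_cons (W15 D T h) (mem_cons (W3193 D T h) (mem_cons (W1192 D T h) (mem_cons (W6968 D T h) (mem_cons (W1063 D T h) (mem_cons (W2346 D T h) (mem_cons (W931 D T h) (mem_cons (W2378 D T h) (mem_cons (W721 D T h) (mem_cons (W6758 D T h) mem_nil))))))))))))))))))) cl2603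
theorem W11093 : WFK w11093 := fun D T h => wf_of_chk h mem_nil (mem_cons (L2603 D T h) mem_nil) cw11093
theorem W11094 : WFK w11094 := fun D T h => wf_of_chk h mem_nil (mem_cons (L1999 D T h) mem_nil) cw11094
theorem W11095 : WFK w11095 := fun D T h => wf_of_chk h (mem_cons (W1211 D T h) (mem_cons (W16 D T h) mem_nil)) mem_nil cw11095
theorem W11096 : WFK w11096 := fun D T h => wf_of_chk h (mem_cons (W164 D T h) (mem_cons (W9376 D T h) mem_nil)) mem_nil cw11096
theorem W11097 : WFK w11097 := fun D T h => wf_of_chk h (mem_cons (W114 D T h) (mem_cons (W9376 D T h) mem_nil)) mem_nil cw11097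
theorem W11098 : WFK w11098 := fun D T h => wf_of_chk h mem_nil (mem_cons (L1897 D T h) mem_nil) cw11098
theorem W11099 : WFK w11099 := fun D T h => wf_of_chk h (mem_cons (W11031 D T h) (mem_cons (W16 D T h) mem_nil)) mem_nil cw11099
theorem W11100 : WFK w11100 := fun D T h => wf_of_chk h (mem_cons (W267 D T h) (mem_cons (W9376 D T h) mem_nil)) mem_nil cw11100
theorem L2604 : LFK l2604 := fun D T h => lf_of_chk h (mem_cons (W3912 D T h) (mem_cons (W16 D T h) (mem_cons (W284 D T h) (mem_cons (W2839 D T h) (mem_cons (W337 D T h) (mem_cons (W1599 D T h) (mem_cons (W3571 D T h) (mem_cons (W2868 D T h) (mem_cons (W2861 D T h) (mem_cons (W3925 D T h) (mem_cons (W3926 D T h) (mem_cons (W7524 D T h) (mem_cons (W9699 D T h) (mem_cons (W7882 D T h) (mem_cons (W11100 D T h) (mem_cons (W128 D T h) (mem_cons (W1139 D T h) (mem_cons (W2848 D T h) (mem_cons (W3920 D T h) (mem_cons (W3921 D T h) (mem_cons (W8417 D T h) (mem_cons (W3304 D T h) (mem_cons (W11096 D T h) (mem_cons (W11099 D T h) (mem_cons (W10579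 D T h) (mem_cons (W11097 D T h) (mem_cons (W10489 D T h) mem_nil))))))))))))))))))))))))))) cl2604
theorem W11101 : WFK w11101 := fun D T h => wf_of_chk h mem_nil (mem_cons (L2604 D T h) mem_nil) cw11101
theorem W11102 : WFK w11102 := fun D T h => wf_of_chk h (mem_cons (W164 D T h) (mem_cons (W2164 D T h) mem_nil)) mem_nil cw11102
theorem W11103 : WFK w11103 := fun D T h => wf_of_chk h (mem_cons (W114 D T h) (mem_cons (W9376 D T h) mem_nil)) mem_nil cw11103
theorem W11104 : WFK w11104 := fun D T h => wf_of_chk h (mem_cons (W1019 D T h) (mem_cons (W2164 D T h) mem_nil)) mem_nil cw11104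
theorem W11105 : WFK w11105 := fun D T h => wf_of_chk h (mem_cons (W267 D T h) (mem_cons (W2164 D T h) mem_nil)) mem_nil cw11105
theorem L2605 : LFK l2605 := fun D T h => lf_of_chk h (mem_cons (W3912 D T h) (mem_cons (W16 D T h) (mem_cons (W9025 D T h) (mem_cons (W2839 D T h) (mem_cons (W1599 D T h) (mem_cons (W2868 D T h) (mem_cons (W3571 D T h) (mem_cons (W7083 D T h) (mem_cons (W3925 D T h) (mem_cons (W9699 D T h) (mem_cons (W7524 D T h) (mem_cons (W3926 D T h) (mem_cons (W11104 D T h) (mem_cons (W11105 D T h) (mem_cons (W1139 D T h) (mem_cons (W128 D T h) (mem_cons (W2848 D T h) (mem_cons (W3921 D T h) (mem_cons (W3920 D T h) (mem_cons (W8417 D T h) (mem_cons (W3304 D T h) (mem_cons (W11102 D T h) (mem_cons (W8427 D T h) (mem_cons (W10822 D T h) (mem_cons (W3924 D T h) (mem_cons (W10579 D T h) (mem_cons (W11103 D T h) (mem_cons (W10489 D T h) (mem_cons (W3915 D T h) (mem_cons (W8328 D T h) (mem_cons (W11098 D T h) (mem_cons (W3917 D T h) mem_nil)))))))))))))))))))))))))))))))) cl2605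
theorem W11106 : WFK w11106 := fun D T h => wf_of_chk h mem_nil (mem_cons (L2605 D T h) mem_nil) cw11106
theorem W11107 : WFK w11107 := fun D T h => wf_of_chk h (mem_cons (W1919 D T h) (mem_cons (W16 D T h) mem_nil)) mem_nil cw11107
theorem W11108 : WFK w11108 := fun D T h => wf_of_chk h (mem_cons (W1919 D T h) (mem_cons (W16 D T h) mem_nil)) mem_nil cw11108
theorem W11109 : WFK w11109 := fun D T h => wf_of_chk h (mem_cons (W260 D T h) (mem_cons (W16 D T h) mem_nil)) mem_nil cw11109
theorem W11110 : WFK w11110 := fun D T h => wf_of_chk h (mem_cons (W6776 D T h) (mem_cons (W16 D T h) mem_nil)) mem_nil cw11110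
theorem W11111 : WFK w11111 := fun D T h => wf_of_chk h mem_nil (mem_cons (L2401 D T h) mem_nil) cw11111
theorem W11112 : WFK w11112 := fun D T h => wf_of_chk h (mem_cons (W267 D T h) (mem_cons (W368 D T h) mem_nil)) mem_nil cw11112
theorem W11113 : WFK w11113 := fun D T h => wf_of_chk h (mem_cons (W2381 D T h) (mem_cons (W368 D T h) mem_nil)) mem_nil cw11113
theorem W11114 : WFK w11114 := fun D T h => wf_of_chk h (mem_cons (W2938 D T h) (mem_cons (W368 D T h) mem_nil)) mem_nil cw11114
theorem W11115 : WFK w11115 := fun D T h => wf_of_chk h (mem_cons (W800 D T h) (mem_cons (W368 D T h) mem_nil)) mem_nil cw11115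
theorem W11116 : WFK w11116 := fun D T h => wf_of_chk h mem_nil (mem_cons (L2316 D T h) mem_nil) cw11116
theorem W11117 : WFK w11117 := fun D T h => wf_of_chk h mem_nil (mem_cons (L836 D T h) mem_nil) cw11117
theorem W11118 : WFK w11118 := fun D T h => wf_of_chk h (mem_cons (W20 D T h) (mem_cons (W6613 D T h) mem_nil)) mem_nil cw11118
theorem W11119 : WFK w11119 := fun D T h => wf_of_chk h (mem_cons (W817 D T h) (mem_cons (W6613 D T h) mem_nil)) mem_nil cw11119
theorem W11120 : WFK w11120 := fun D T h => wf_of_chk h (mem_cons (W91 D T h) (mem_cons (W6613 D T h) mem_nil)) mem_nil cw11120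
theorem L2606 : LFK l2606 := fun D T h => lf_of_chk h (mem_cons (W8424 D T h) (mem_cons (W1331 D T h) (mem_cons (W2828 D T h) (mem_cons (W91 D T h) (mem_cons (W6613 D T h) (mem_cons (W8090 D T h) (mem_cons (W797 D T h) (mem_cons (W8378 D T h) (mem_cons (W5655 D T h) (mem_cons (W8398 D T h) (mem_cons (W11116 D T h) (mem_cons (W11117 D T h) (mem_cons (W11118 D T h) (mem_cons (W1919 D T h) (mem_cons (W1690 D T h) (mem_cons (W9905 D T h) (mem_cons (W11119 D T h) (mem_cons (W11120 D T h) (mem_cons (W181 D T h) (mem_cons (W1051 D T h) (mem_cons (W3719 D T h) mem_nil))))))))))))))))))))) cl2606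
theorem W11121 : WFK w11121 := fun D T h => wf_of_chk h mem_nil (mem_cons (L2606 D T h) mem_nil) cw11121
theorem W11122 : WFK w11122 := fun D T h => wf_of_chk h mem_nil (mem_cons (L2009 D T h) mem_nil) cw11122
theorem W11123 : WFK w11123 := fun D T h => wf_of_chk h (mem_cons (W42 D T h) (mem_cons (W16 D T h) mem_nil)) mem_nil cw11123
theorem W11125 : WFK w11125 := fun D T h => wf_of_chk h (mem_cons (W3006 D T h) (mem_cons (W368 D T h) mem_nil)) mem_nil cw11125
theorem W11126 : WFK w11126 := fun D T h => wf_of_chk h (mem_cons (W2346 D T h) (mem_cons (W368 D T h) mem_nil)) mem_nil cw11126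
theorem L2607 : LFK l2607 := fun D T h => lf_of_chk h (mem_cons (W11040 D T h) (mem_cons (W3304 D T h) (mem_cons (W7576 D T h) (mem_cons (W368 D T h) (mem_cons (W337 D T h) (mem_cons (W369 D T h) (mem_cons (W16 D T h) (mem_cons (W8449 D T h) (mem_cons (W11126 D T h) (mem_cons (W11121 D T h) (mem_cons (W11112 D T h) (mem_cons (W2405 D T h) (mem_cons (W284 D T h) (mem_cons (W11113 D T h) (mem_cons (W11114 D T h) (mem_cons (W11115 D T h) (mem_cons (W9025 D T h) (mem_cons (W11107 D T h) (mem_cons (W11108 D T h) (mem_cons (W11123 D T h) (mem_cons (W7376 D T h) (mem_cons (W11125 D T h) (mem_cons (W9056 D T h) (mem_cons (W11109 D T h) (mem_cons (W8398 D T h) (mem_cons (W11110 D T h) (mem_cons (W7557 D T h) (mem_cons (W11111 D T h) (mem_cons (W11116 D T h) (mem_cons (W11122 D T h) mem_nil)))))))))))))))))))))))))))))) cl2607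
theorem W11127 : WFK w11127 := fun D T h => wf_of_chk h mem_nil (mem_cons (L2607 D T h) mem_nil) cw11127
theorem L2608 : LFK l2608 := fun D T h => lf_of_chk h (mem_cons (W284 D T h) (mem_cons (W16 D T h) (mem_cons (W42 D T h) (mem_cons (W1063 D T h) (mem_cons (W9025 D T h) (mem_cons (W5721 D T h) (mem_cons (W7114 D T h) (mem_cons (W2037 D T h) (mem_cons (W7720 D T h) (mem_cons (W5633 D T h) (mem_cons (W11127 D T h) (mem_cons (W15 D T h) (mem_cons (W261 D T h) (mem_cons (W1139 D T h) (mem_cons (W128 D T h) mem_nil))))))))))))))) cl2608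
theorem W11128 : WFK w11128 := fun D T h => wf_of_chk h mem_nil (mem_cons (L2608 D T h) mem_nil) cw11128
theorem L2609 : LFK l2609 := fun D T h => lf_of_chk h (mem_cons (W1192 D T h) (mem_cons (W933 D T h) (mem_cons (W37 D T h) (mem_cons (W581 D T h) (mem_cons (W910 D T h) (mem_cons (W1196 D T h) (mem_cons (W3278 D T h) (mem_cons (W747 D T h) (mem_cons (W10998 D T h) (mem_cons (W10043 D T h) (mem_cons (W1191 D T h) (mem_cons (W8498 D T h) (mem_cons (W10073 D T h) (mem_cons (W11025 D T h) (mem_cons (W10045 D T h) (mem_cons (W1195 D T h) (mem_cons (W2382 D T h) (mem_cons (W2797 D T h) (mem_cons (W4547 D T h) mem_nil))))))))))))))))))) cl2609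
theorem W11129 : WFK w11129 := fun D T h => wf_of_chk h mem_nil (mem_cons (L2609 D T h) mem_nil) cw11129
theorem W11130 : WFK w11130 := fun D T h => wf_of_chk h mem_nil (mem_cons (L980 D T h) mem_nil) cw11130
theorem L2610 : LFK l2610 := fun D T h => lf_of_chk h (mem_cons (W2037 D T h) (mem_cons (W933 D T h) (mem_cons (W1063 D T h) (mem_cons (W42 D T h) (mem_cons (W803 D T h) (mem_cons (W1370 D T h) (mem_cons (W11130 D T h) (mem_cons (W3766 D T h) (mem_cons (W9431 D T h) (mem_cons (W10045 D T h) (mem_cons (W9432 D T h) (mem_cons (W8498 D T h) (mem_cons (W2387 D T h) (mem_cons (W8912 D T h) (mem_cons (W5633 D T h) (mem_cons (W7495 D T h) (mem_cons (W2382 D T h) (mem_cons (W261 D T h) (mem_cons (W1192 D T h) (mem_cons (W1889 D T h) (mem_cons (W3193 D T h) mem_nil))))))))))))))))))))) cl2610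
theorem W11131 : WFK w11131 := fun D T h => wf_of_chk h mem_nil (mem_cons (L2610 D T h) mem_nil) cw11131
theorem W11132 : WFK w11132 := fun D T h => wf_of_chk h (mem_cons (W368 D T h) (mem_cons (W1291 D T h) mem_nil)) mem_nil cw11132
theorem L2611 : LFK l2611 := fun D T h => lf_of_chk h (mem_cons (W9025 D T h) (mem_cons (W16 D T h) (mem_cons (W2015 D T h) (mem_cons (W7114 D T h) (mem_cons (W42 D T h) (mem_cons (W8912 D T h) (mem_cons (W5633 D T h) (mem_cons (W7720 D T h) (mem_cons (W2037 D T h) (mem_cons (W11132 D T h) (mem_cons (W154 D T h) (mem_cons (W3193 D T h) (mem_cons (W1192 D T h) (mem_cons (W6968 D T h) (mem_cons (W1063 D T h) (mem_cons (W2378 D T h) (mem_cons (W3766 D T h) (mem_cons (W6758 D T h) mem_nil)))))))))))))))))) cl2611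
theorem W11133 : WFK w11133 := fun D T h => wf_of_chk h mem_nil (mem_cons (L2611 D T h) mem_nil) cw11133
theorem W11135 : WFK w11135 := fun D T h => wf_of_chk h mem_nil (mem_cons (L2411 D T h) mem_nil) cw11135
theorem L2612 : LFK l2612 := fun D T h => lf_of_chk h (mem_cons (W2389 D T h) (mem_cons (W37 D T h) (mem_cons (W3905 D T h) (mem_cons (W8977 D T h) (mem_cons (W2321 D T h) (mem_cons (W3939 D T h) (mem_cons (W16 D T h) (mem_cons (W11135 D T h) (mem_cons (W2370 D T h) (mem_cons (W667 D T h) (mem_cons (W284 D T h) (mem_cons (W11129 D T h) (mem_cons (W6904 D T h) (mem_cons (W11131 D T h) (mem_cons (W2037 D T h) (mem_cons (W2375 D T h) (mem_cons (W455 D T h) (mem_cons (W8804 D T h) (mem_cons (W11040 D T h) (mem_cons (W11092 D T h) (mem_cons (W2164 D T h) (mem_cons (W9376 D T h) (mem_cons (W11093 D T h) (mem_cons (W11094 D T h) (mem_cons (W11133 D T h) (mem_cons (W11095 D T h) (mem_cons (W1213 D T h) (mem_cons (W11101 D T h) (mem_cons (W11106 D T h) (mem_cons (W10793 D T h) (mem_cons (W2997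 D T h) (mem_cons (W2326 D T h) (mem_cons (W11039 D T h) (mem_cons (W11087 D T h) (mem_cons (W11089 D T h) (mem_cons (W11091 D T h) mem_nil)))))))))))))))))))))))))))))))))))) cl2612
theorem W11136 : WFK w11136 := fun D T h => wf_of_chk h mem_nil (mem_cons (L2612 D T h) mem_nil) cw11136
theorem W11137 : WFK w11137 := fun D T h => wf_of_chk h mem_nil (mem_cons (L1835 D T h) mem_nil) cw11137
theorem L2613 : LFK l2613 := fun D T h => lf_of_chk h (mem_cons (W4038 D T h) (mem_cons (W37 D T h) (mem_cons (W1 D T h) (mem_cons (W795 D T h) (mem_cons (W1108 D T h) (mem_cons (W5258 D T h) (mem_cons (W1070 D T h) (mem_cons (W3278 D T h) (mem_cons (W8908 D T h) (mem_cons (W4632 D T h) (mem_cons (W1317 D T h) (mem_cons (W1109 D T h) (mem_cons (W3274 D T h) (mem_cons (W10073 D T h) (mem_cons (W10344 D T h) (mem_cons (W10253 D T h) (mem_cons (W3199 D T h) mem_nil))))))))))))))))) cl2613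
theorem W11139 : WFK w11139 := fun D T h => wf_of_chk h mem_nil (mem_cons (L2613 D T h) mem_nil) cw11139
theorem W11140 : WFK w11140 := fun D T h => wf_of_chk h (mem_cons (W710 D T h) (mem_cons (W37 D T h) mem_nil)) mem_nil cw11140
theorem W11144 : WFK w11144 := fun D T h => wf_of_chk h (mem_cons (W1063 D T h) (mem_cons (W37 D T h) mem_nil)) mem_nil cw11144
theorem W11145 : WFK w11145 := fun D T h => wf_of_chk h (mem_cons (W16 D T h) (mem_cons (W710 D T h) mem_nil)) mem_nil cw11145
theorem W11146 : WFK w11146 := fun D T h => wf_of_chk h (mem_cons (W16 D T h) (mem_cons (W710 D T h) mem_nil)) mem_nil cw11146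
theorem W11147 : WFK w11147 := fun D T h => wf_of_chk h (mem_cons (W1322 D T h) (mem_cons (W710 D T h) mem_nil)) mem_nil cw11147
theorem L2614 : LFK l2614 := fun D T h => lf_of_chk h (mem_cons (W858 D T h) (mem_cons (W808 D T h) (mem_cons (W281 D T h) (mem_cons (W33 D T h) (mem_cons (W4 D T h) (mem_cons (W823 D T h) (mem_cons (W2572 D T h) (mem_cons (W603 D T h) (mem_cons (W906 D T h) (mem_cons (W1104 D T h) (mem_cons (W1047 D T h) (mem_cons (W105 D T h) (mem_cons (W825 D T h) (mem_cons (W1950 D T h) (mem_cons (W7640 D T h) mem_nil))))))))))))))) cl2614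
theorem W11149 : WFK w11149 := fun D T h => wf_of_chk h mem_nil (mem_cons (L2614 D T h) mem_nil) cw11149
theorem W11153 : WFK w11153 := fun D T h => wf_of_chk h mem_nil (mem_cons (L25 D T h) mem_nil) cw11153
theorem L2619 : LFK l2619 := fun D T h => lf_of_chk h (mem_cons (W2766 D T h) (mem_cons (W20 D T h) (mem_cons (W4 D T h) (mem_cons (W7171 D T h) (mem_cons (W47 D T h) (mem_cons (W6685 D T h) mem_nil)))))) cl2619
theorem W11172 : WFK w11172 := fun D T h => wf_of_chk h mem_nil (mem_cons (L2619 D T h) mem_nil) cw11172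
theorem W11189 : WFK w11189 := fun D T h => wf_of_chk h (mem_cons (W5576 D T h) mem_nil) mem_nil cw11189
theorem L2622 : LFK l2622 := fun D T h => lf_of_chk h (mem_cons (W1449 D T h) (mem_cons (W2015 D T h) (mem_cons (W2118 D T h) (mem_cons (W3 D T h) (mem_cons (W2119 D T h) (mem_cons (W3406 D T h) (mem_cons (W3763 D T h) (mem_cons (W281 D T h) (mem_cons (W1637 D T h) (mem_cons (W199 D T h) (mem_cons (W201 D T h) (mem_cons (W2106 D T h) (mem_cons (W2148 D T h) (mem_cons (W1335 D T h) (mem_cons (W2147 D T h) (mem_cons (W2107 D T h) (mem_cons (W2766 D T h) (mem_cons (W11189 D T h) (mem_cons (W13 D T h) (mem_cons (W2121 D T h) (mem_cons (W2120 D T h) (mem_cons (W2134 D T h) mem_nil)))))))))))))))))))))) cl2622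
theorem W11192 : WFK w11192 := fun D T h => wf_of_chk h (mem_cons (W7114 D T h) (mem_cons (W16 D T h) mem_nil)) mem_nil cw11192
theorem W11194 : WFK w11194 := fun D T h => wf_of_chk h mem_nil (mem_cons (L1544 D T h) mem_nil) cw11194
theorem W11203 : WFK w11203 := fun D T h => wf_of_chk h mem_nil (mem_cons (L84 D T h) mem_nil) cw11203
theorem W11212 : WFK w11212 := fun D T h => wf_of_chk h (mem_cons (W42 D T h) mem_nil) mem_nil cw11212
theorem W11220 : WFK w11220 := fun D T h => wf_of_chk h mem_nil (mem_cons (L1550 D T h) mem_nil) cw11220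
theorem W11223 : WFK w11223 := fun D T h => wf_of_chk h mem_nil (mem_cons (L671 D T h) mem_nil) cw11223
theorem W11224 : WFK w11224 := fun D T h => wf_of_chk h mem_nil (mem_cons (L303 D T h) mem_nil) cw11224
theorem W11225 : WFK w11225 := fun D T h => wf_of_chk h (mem_cons (W651 D T h) mem_nil) mem_nil cw11225
theorem W11226 : WFK w11226 := fun D T h => wf_of_chk h (mem_cons (W3582 D T h) mem_nil) mem_nil cw11226
theorem W11227 : WFK w11227 := fun D T h => wf_of_chk h (mem_cons (W11068 D T h) mem_nil) mem_nil cw11227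
theorem W11228 : WFK w11228 := fun D T h => wf_of_chk h mem_nil (mem_cons (L90 D T h) mem_nil) cw11228
theorem W11229 : WFK w11229 := fun D T h => wf_of_chk h (mem_cons (W11228 D T h) mem_nil) mem_nil cw11229
theorem W11230 : WFK w11230 := fun D T h => wf_of_chk h (mem_cons (W7316 D T h) mem_nil) mem_nil cw11230
theorem W11231 : WFK w11231 := fun D T h => wf_of_chk h (mem_cons (W351 D T h) mem_nil) mem_nil cw11231
theorem W11232 : WFK w11232 := fun D T h => wf_of_chk h (mem_cons (W61 D T h) mem_nil) mem_nil cw11232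
theorem W11233 : WFK w11233 := fun D T h => wf_of_chk h mem_nil (mem_cons (L23 D T h) mem_nil) cw11233
theorem W11234 : WFK w11234 := fun D T h => wf_of_chk h (mem_cons (W11233 D T h) mem_nil) mem_nil cw11234
theorem W11235 : WFK w11235 := fun D T h => wf_of_chk h (mem_cons (W391 D T h) mem_nil) mem_nil cw11235
theorem W11236 : WFK w11236 := fun D T h => wf_of_chk h mem_nil mem_nil cw11236
theorem L2625 : LFK l2625 := fun D T h => lf_of_chk h (mem_cons (W1051 D T h) (mem_cons (W391 D T h) (mem_cons (W11236 D T h) (mem_cons (W3424 D T h) mem_nil)))) cl2625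
theorem W11237 : WFK w11237 := fun D T h => wf_of_chk h mem_nil (mem_cons (L2625 D T h) mem_nil) cw11237
theorem W11238 : WFK w11238 := fun D T h => wf_of_chk h (mem_cons (W391 D T h) mem_nil) mem_nil cw11238
theorem L2626 : LFK l2626 := fun D T h => lf_of_chk h (mem_cons (W11063 D T h) (mem_cons (W7084 D T h) (mem_cons (W11048 D T h) (mem_cons (W1051 D T h) (mem_cons (W391 D T h) (mem_cons (W179 D T h) (mem_cons (W497 D T h) (mem_cons (W11231 D T h) (mem_cons (W1572 D T h) (mem_cons (W817 D T h) (mem_cons (W2090 D T h) (mem_cons (W1449 D T h) (mem_cons (W11060 D T h) (mem_cons (W11061 D T h) (mem_cons (W11224 D T h) (mem_cons (W381 D T h) (mem_cons (W11225 D T h) (mem_cons (W11068 D T h) (mem_cons (W11226 D T h) (mem_cons (W11227 D T h) (mem_cons (W11046 D T h) (mem_cons (W11229 D T h) (mem_cons (W11230 D T h) (mem_cons (W11232 D T h) (mem_cons (W11234 D T h) (mem_cons (W181 D T h) (mem_cons (W11235 D T h) (mem_cons (W11237 D T h) (mem_cons (W11238 D T h) mem_nil)))))))))))))))))))))))))))))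 cl2626
theorem L2627 : LFK l2627 := fun D T h => lf_of_chk h (mem_cons (W5841 D T h) (mem_cons (W2690 D T h) (mem_cons (W1128 D T h) (mem_cons (W69 D T h) (mem_cons (W220 D T h) (mem_cons (W39 D T h) (mem_cons (W86 D T h) (mem_cons (W3 D T h) (mem_cons (W6227 D T h) (mem_cons (W1379 D T h) (mem_cons (W6793 D T h) (mem_cons (W5482 D T h) (mem_cons (W1325 D T h) (mem_cons (W6798 D T h) (mem_cons (W1556 D T h) (mem_cons (W4624 D T h) mem_nil)))))))))))))))) cl2627
theorem W11263 : WFK w11263 := fun D T h => wf_of_chk h (mem_cons (W1528 D T h) mem_nil) mem_nil cw11263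
theorem W11265 : WFK w11265 := fun D T h => wf_of_chk h (mem_cons (W871 D T h) mem_nil) mem_nil cw11265
theorem W11267 : WFK w11267 := fun D T h => wf_of_chk h (mem_cons (W2732 D T h) mem_nil) mem_nil cw11267
theorem W11270 : WFK w11270 := fun D T h => wf_of_chk h mem_nil (mem_cons (L836 D T h) mem_nil) cw11270
theorem W11272 : WFK w11272 := fun D T h => wf_of_chk h (mem_cons (W10718 D T h) mem_nil) mem_nil cw11272
theorem W11283 : WFK w11283 := fun D T h => wf_of_chk h mem_nil (mem_cons (L787 D T h) mem_nil) cw11283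
theorem W11286 : WFK w11286 := fun D T h => wf_of_chk h (mem_cons (W461 D T h) mem_nil) mem_nil cw11286
theorem L2629 : LFK l2629 := fun D T h => lf_of_chk h (mem_cons (W1564 D T h) (mem_cons (W281 D T h) (mem_cons (W1424 D T h) (mem_cons (W33 D T h) (mem_cons (W1737 D T h) (mem_cons (W39 D T h) mem_nil)))))) cl2629
theorem W11288 : WFK w11288 := fun D T h => wf_of_chk h mem_nil (mem_cons (L2629 D T h) mem_nil) cw11288
theorem W11290 : WFK w11290 := fun D T h => wf_of_chk h mem_nil (mem_cons (L2629 D T h) mem_nil) cw11290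
theorem W11291 : WFK w11291 := fun D T h => wf_of_chk h mem_nil (mem_cons (L1756 D T h) mem_nil) cw11291
theorem W11298 : WFK w11298 := fun D T h => wf_of_chk h (mem_cons (W871 D T h) mem_nil) mem_nil cw11298
theorem L2635 : LFK l2635 := fun D T h => lf_of_chk h (mem_cons (W67 D T h) mem_nil) cl2635
theorem W11312 : WFK w11312 := fun D T h => wf_of_chk h mem_nil (mem_cons (L303 D T h) mem_nil) cw11312
theorem W11313 : WFK w11313 := fun D T h => wf_of_chk h mem_nil (mem_cons (L303 D T h) mem_nil) cw11313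
theorem W11319 : WFK w11319 := fun D T h => wf_of_chk h mem_nil (mem_cons (L1557 D T h) mem_nil) cw11319
theorem W11320 : WFK w11320 := fun D T h => wf_of_chk h mem_nil (mem_cons (L1544 D T h) mem_nil) cw11320
theorem L2637 : LFK l2637 := fun D T h => lf_of_chk h (mem_cons (W3958 D T h) (mem_cons (W9905 D T h) (mem_cons (W144 D T h) (mem_cons (W220 D T h) (mem_cons (W15 D T h) (mem_cons (W2627 D T h) (mem_cons (W2916 D T h) (mem_cons (W8332 D T h) (mem_cons (W2422 D T h) (mem_cons (W2740 D T h) (mem_cons (W5943 D T h) (mem_cons (W149 D T h) (mem_cons (W11319 D T h) (mem_cons (W2555 D T h) (mem_cons (W7359 D T h) (mem_cons (W5433 D T h) (mem_cons (W497 D T h) (mem_cons (W8342 D T h) (mem_cons (W11320 D T h) mem_nil))))))))))))))))))) cl2637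
theorem W11321 : WFK w11321 := fun D T h => wf_of_chk h mem_nil (mem_cons (L2637 D T h) mem_nil) cw11321
theorem W11324 : WFK w11324 := fun D T h => wf_of_chk h mem_nil (mem_cons (L419 D T h) mem_nil) cw11324
theorem W11326 : WFK w11326 := fun D T h => wf_of_chk h mem_nil (mem_cons (L1820 D T h) mem_nil) cw11326
theorem W11328 : WFK w11328 := fun D T h => wf_of_chk h (mem_cons (W1231 D T h) mem_nil) mem_nil cw11328
theorem L2640 : LFK l2640 := fun D T h => lf_of_chk h (mem_cons (W1709 D T h) mem_nil) cl2640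
theorem W11337 : WFK w11337 := fun D T h => wf_of_chk h mem_nil (mem_cons (L1350 D T h) mem_nil) cw11337
theorem W11338 : WFK w11338 := fun D T h => wf_of_chk h mem_nil (mem_cons (L595 D T h) mem_nil) cw11338
theorem W11339 : WFK w11339 := fun D T h => wf_of_chk h mem_nil mem_nil cw11339
theorem W11341 : WFK w11341 := fun D T h => wf_of_chk h mem_nil (mem_cons (L2640 D T h) mem_nil) cw11341
theorem L2642 : LFK l2642 := fun D T h => lf_of_chk h (mem_cons (W11339 D T h) (mem_cons (W648 D T h) (mem_cons (W650 D T h) (mem_cons (W80 D T h) (mem_cons (W651 D T h) (mem_cons (W2723 D T h) (mem_cons (W3 D T h) (mem_cons (W1181 D T h) (mem_cons (W4448 D T h) (mem_cons (W10099 D T h) (mem_cons (W4548 D T h) (mem_cons (W4447 D T h) (mem_cons (W13 D T h) (mem_cons (W11341 D T h) (mem_cons (W2921 D T h) (mem_cons (W5645 D T h) (mem_cons (W6780 D T h) (mem_cons (W4403 D T h) (mem_cons (W6781 D T h) mem_nil))))))))))))))))))) cl2642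
theorem W11342 : WFK w11342 := fun D T h => wf_of_chk h mem_nil (mem_cons (L2642 D T h) mem_nil) cw11342
theorem W11353 : WFK w11353 := fun D T h => wf_of_chk h mem_nil mem_nil cw11353
theorem W11355 : WFK w11355 := fun D T h => wf_of_chk h (mem_cons (W164 D T h) mem_nil) mem_nil cw11355
theorem W11373 : WFK w11373 := fun D T h => wf_of_chk h mem_nil (mem_cons (L531 D T h) mem_nil) cw11373
theorem W11374 : WFK w11374 := fun D T h => wf_of_chk h mem_nil (mem_cons (L1299 D T h) mem_nil) cw11374
theorem W11375 : WFK w11375 := fun D T h => wf_of_chk h mem_nil (mem_cons (L1966 D T h) mem_nil) cw11375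
theorem L2651 : LFK l2651 := fun D T h => lf_of_chk h (mem_cons (W1449 D T h) (mem_cons (W2015 D T h) (mem_cons (W448 D T h) (mem_cons (W3035 D T h) (mem_cons (W3 D T h) (mem_cons (W3406 D T h) (mem_cons (W8643 D T h) (mem_cons (W1362 D T h) (mem_cons (W1361 D T h) (mem_cons (W199 D T h) (mem_cons (W201 D T h) (mem_cons (W4130 D T h) (mem_cons (W9830 D T h) (mem_cons (W12 D T h) (mem_cons (W11374 D T h) (mem_cons (W13 D T h) (mem_cons (W11375 D T h) mem_nil))))))))))))))))) cl2651
theorem W11381 : WFK w11381 := fun D T h => wf_of_chk h mem_nil (mem_cons (L153 D T h) mem_nil) cw11381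
theorem W11384 : WFK w11384 := fun D T h => wf_of_chk h mem_nil (mem_cons (L2396 D T h) mem_nil) cw11384
theorem W11388 : WFK w11388 := fun D T h => wf_of_chk h mem_nil (mem_cons (L493 D T h) mem_nil) cw11388
theorem W11389 : WFK w11389 := fun D T h => wf_of_chk h mem_nil (mem_cons (L493 D T h) mem_nil) cw11389
theorem W11390 : WFK w11390 := fun D T h => wf_of_chk h mem_nil (mem_cons (L531 D T h) mem_nil) cw11390
theorem W11394 : WFK w11394 := fun D T h => wf_of_chk h (mem_cons (W1409 D T h) mem_nil) mem_nil cw11394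
theorem L2658 : LFK l2658 := fun D T h => lf_of_chk h (mem_cons (W91 D T h) (mem_cons (W20 D T h) (mem_cons (W124 D T h) (mem_cons (W3153 D T h) (mem_cons (W817 D T h) (mem_cons (W878 D T h) (mem_cons (W265 D T h) (mem_cons (W3390 D T h) (mem_cons (W1718 D T h) (mem_cons (W9439 D T h) (mem_cons (W4 D T h) (mem_cons (W802 D T h) (mem_cons (W33 D T h) mem_nil))))))))))))) cl2658
theorem W11409 : WFK w11409 := fun D T h => wf_of_chk h mem_nil (mem_cons (L2658 D T h) mem_nil) cw11409
theorem L2659 : LFK l2659 := fun D T h => lf_of_chk h (mem_cons (W9025 D T h) (mem_cons (W3766 D T h) (mem_cons (W16 D T h) (mem_cons (W5841 D T h) (mem_cons (W7114 D T h) (mem_cons (W5633 D T h) (mem_cons (W11409 D T h) (mem_cons (W5673 D T h) (mem_cons (W5585 D T h) (mem_cons (W5655 D T h) (mem_cons (W10828 D T h) mem_nil))))))))))) cl2659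
theorem W11439 : WFK w11439 := fun D T h => wf_of_chk h mem_nil (mem_cons (L275 D T h) mem_nil) cw11439
theorem W11441 : WFK w11441 := fun D T h => wf_of_chk h mem_nil (mem_cons (L419 D T h) mem_nil) cw11441
theorem W11445 : WFK w11445 := fun D T h => wf_of_chk h mem_nil (mem_cons (L594 D T h) mem_nil) cw11445
theorem W11446 : WFK w11446 := fun D T h => wf_of_chk h mem_nil (mem_cons (L481 D T h) mem_nil) cw11446
theorem W11447 : WFK w11447 := fun D T h => wf_of_chk h mem_nil (mem_cons (L594 D T h) mem_nil) cw11447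
theorem L2668 : LFK l2668 := fun D T h => lf_of_chk h (mem_cons (W281 D T h) (mem_cons (W10 D T h) (mem_cons (W109 D T h) (mem_cons (W831 D T h) (mem_cons (W7171 D T h) (mem_cons (W2766 D T h) (mem_cons (W11447 D T h) (mem_cons (W2640 D T h) mem_nil)))))))) cl2668
theorem W11448 : WFK w11448 := fun D T h => wf_of_chk h mem_nil (mem_cons (L2668 D T h) mem_nil) cw11448
theorem W11459 : WFK w11459 := fun D T h => wf_of_chk h mem_nil (mem_cons (L240 D T h) mem_nil) cw11459
theorem W11467 : WFK w11467 := fun D T h => wf_of_chk h mem_nil (mem_cons (L481 D T h) mem_nil) cw11467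
theorem L2670 : LFK l2670 := fun D T h => lf_of_chk h (mem_cons (W34 D T h) mem_nil) cl2670
theorem W11478 : WFK w11478 := fun D T h => wf_of_chk h (mem_cons (W368 D T h) mem_nil) mem_nil cw11478
theorem L2671 : LFK l2671 := fun D T h => lf_of_chk h (mem_cons (W4531 D T h) (mem_cons (W1929 D T h) (mem_cons (W368 D T h) (mem_cons (W69 D T h) (mem_cons (W86 D T h) (mem_cons (W93 D T h) (mem_cons (W4566 D T h) (mem_cons (W1206 D T h) (mem_cons (W85 D T h) (mem_cons (W78 D T h) (mem_cons (W105 D T h) (mem_cons (W6725 D T h) (mem_cons (W33 D T h) (mem_cons (W4260 D T h) (mem_cons (W1584 D T h) (mem_cons (W8230 D T h) (mem_cons (W10913 D T h) (mem_cons (W1202 D T h) (mem_cons (W1572 D T h) (mem_cons (W11478 D T h) (mem_cons (W1204 D T h) (mem_cons (W1170 D T h) (mem_cons (W1575 D T h) mem_nil))))))))))))))))))))))) cl2671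
theorem W11479 : WFK w11479 := fun D T h => wf_of_chk h mem_nil (mem_cons (L2671 D T h) mem_nil) cw11479
theorem W11480 : WFK w11480 := fun D T h => wf_of_chk h (mem_cons (W126 D T h) mem_nil) mem_nil cw11480
theorem L2672 : LFK l2672 := fun D T h => lf_of_chk h (mem_cons (W4531 D T h) (mem_cons (W1929 D T h) (mem_cons (W126 D T h) (mem_cons (W69 D T h) (mem_cons (W86 D T h) (mem_cons (W93 D T h) (mem_cons (W4566 D T h) (mem_cons (W1206 D T h) (mem_cons (W85 D T h) (mem_cons (W78 D T h) (mem_cons (W6725 D T h) (mem_cons (W105 D T h) (mem_cons (W33 D T h) (mem_cons (W4260 D T h) (mem_cons (W1584 D T h) (mem_cons (W10913 D T h) (mem_cons (W8230 D T h) (mem_cons (W1202 D T h) (mem_cons (W11480 D T h) (mem_cons (W1572 D T h) (mem_cons (W1204 D T h) (mem_cons (W1170 D T h) (mem_cons (W267 D T h) (mem_cons (W721 D T h) (mem_cons (W114 D T h) (mem_cons (W2570 D T h) (mem_cons (W1571 D T h) mem_nil))))))))))))))))))))))))))) cl2672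
theorem W11481 : WFK w11481 := fun D T h => wf_of_chk h mem_nil (mem_cons (L2672 D T h) mem_nil) cw11481
theorem W11485 : WFK w11485 := fun D T h => wf_of_chk h mem_nil (mem_cons (L2619 D T h) mem_nil) cw11485
theorem W11487 : WFK w11487 := fun D T h => wf_of_chk h mem_nil (mem_cons (L489 D T h) mem_nil) cw11487
theorem L2673 : LFK l2673 := fun D T h => lf_of_chk h mem_nil cl2673
theorem W11488 : WFK w11488 := fun D T h => wf_of_chk h mem_nil (mem_cons (L2673 D T h) mem_nil) cw11488
theorem W11489 : WFK w11489 := fun D T h => wf_of_chk h mem_nil (mem_cons (L1193 D T h) mem_nil) cw11489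
theorem L2674 : LFK l2674 := fun D T h => lf_of_chk h (mem_cons (W2085 D T h) (mem_cons (W1379 D T h) (mem_cons (W4593 D T h) (mem_cons (W11487 D T h) (mem_cons (W2125 D T h) (mem_cons (W11489 D T h) (mem_cons (W1825 D T h) (mem_cons (W1797 D T h) (mem_cons (W2082 D T h) (mem_cons (W2081 D T h) (mem_cons (W11488 D T h) mem_nil))))))))))) cl2674
theorem W11520 : WFK w11520 := fun D T h => wf_of_chk h mem_nil (mem_cons (L1537 D T h) mem_nil) cw11520
theorem W11522 : WFK w11522 := fun D T h => wf_of_chk h mem_nil (mem_cons (L1258 D T h) mem_nil) cw11522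
theorem W11528 : WFK w11528 := fun D T h => wf_of_chk h (mem_cons (W50 D T h) mem_nil) mem_nil cw11528
theorem W11550 : WFK w11550 := fun D T h => wf_of_chk h (mem_cons (W16 D T h) mem_nil) mem_nil cw11550
theorem W11565 : WFK w11565 := fun D T h => wf_of_chk h (mem_cons (W7466 D T h) mem_nil) mem_nil cw11565
theorem L2693 : LFK l2693 := fun D T h => lf_of_chk h (mem_cons (W1227 D T h) (mem_cons (W2621 D T h) (mem_cons (W2620 D T h) (mem_cons (W144 D T h) (mem_cons (W15 D T h) (mem_cons (W937 D T h) (mem_cons (W724 D T h) (mem_cons (W2548 D T h) (mem_cons (W5448 D T h) (mem_cons (W8128 D T h) (mem_cons (W932 D T h) (mem_cons (W101 D T h) (mem_cons (W220 D T h) (mem_cons (W2629 D T h) (mem_cons (W2628 D T h) (mem_cons (W2538 D T h) (mem_cons (W11272 D T h) (mem_cons (W11313 D T h) (mem_cons (W106 D T h) (mem_cons (W638 D T h) (mem_cons (W871 D T h) (mem_cons (W7573 D T h) (mem_cons (W2831 D T h) (mem_cons (W7276 D T h) (mem_cons (W8336 D T h) (mem_cons (W2555 D T h) (mem_cons (W1335 D T h) (mem_cons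 (W8331 D T h) mem_nil)))))))))))))))))))))))))))) cl2693
theorem W11568 : WFK w11568 := fun D T h => wf_of_chk h (mem_cons (W6714 D T h) mem_nil) mem_nil cw11568
theorem W11569 : WFK w11569 := fun D T h => wf_of_chk h mem_nil (mem_cons (L2206 D T h) mem_nil) cw11569
theorem W11570 : WFK w11570 := fun D T h => wf_of_chk h (mem_cons (W11569 D T h) mem_nil) mem_nil cw11570
theorem W11573 : WFK w11573 := fun D T h => wf_of_chk h (mem_cons (W42 D T h) mem_nil) mem_nil cw11573
theorem W11574 : WFK w11574 := fun D T h => wf_of_chk h (mem_cons (W6714 D T h) mem_nil) mem_nil cw11574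
theorem W11576 : WFK w11576 := fun D T h => wf_of_chk h (mem_cons (W11569 D T h) mem_nil) mem_nil cw11576
theorem W11579 : WFK w11579 := fun D T h => wf_of_chk h (mem_cons (W3766 D T h) mem_nil) mem_nil cw11579
theorem W11580 : WFK w11580 := fun D T h => wf_of_chk h (mem_cons (W3766 D T h) mem_nil) mem_nil cw11580
theorem W11581 : WFK w11581 := fun D T h => wf_of_chk h (mem_cons (W6719 D T h) mem_nil) mem_nil cw11581
theorem W11584 : WFK w11584 := fun D T h => wf_of_chk h (mem_cons (W351 D T h) (mem_cons (W16 D T h) mem_nil)) mem_nil cw11584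
theorem W11586 : WFK w11586 := fun D T h => wf_of_chk h mem_nil (mem_cons (L1537 D T h) mem_nil) cw11586
theorem W11588 : WFK w11588 := fun D T h => wf_of_chk h (mem_cons (W9025 D T h) mem_nil) mem_nil cw11588
theorem W11591 : WFK w11591 := fun D T h => wf_of_chk h mem_nil (mem_cons (L1262 D T h) mem_nil) cw11591
theorem W11618 : WFK w11618 := fun D T h => wf_of_chk h mem_nil (mem_cons (L1316 D T h) mem_nil) cw11618
theorem W11643 : WFK w11643 := fun D T h => wf_of_chk h mem_nil (mem_cons (L1272 D T h) mem_nil) cw11643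
theorem W11645 : WFK w11645 := fun D T h => wf_of_chk h mem_nil (mem_cons (L1258 D T h) mem_nil) cw11645
theorem W11657 : WFK w11657 := fun D T h => wf_of_chk h mem_nil (mem_cons (L1599 D T h) mem_nil) cw11657
theorem W11670 : WFK w11670 := fun D T h => wf_of_chk h mem_nil mem_nil cw11670
theorem W11676 : WFK w11676 := fun D T h => wf_of_chk h mem_nil (mem_cons (L41 D T h) mem_nil) cw11676
theorem W11692 : WFK w11692 := fun D T h => wf_of_chk h mem_nil mem_nil cw11692
theorem L2712 : LFK l2712 := fun D T h => lf_of_chk h (mem_cons (W39 D T h) (mem_cons (W1379 D T h) (mem_cons (W1424 D T h) (mem_cons (W1564 D T h) (mem_cons (W9454 D T h) (mem_cons (W1736 D T h) mem_nil)))))) cl2712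
theorem W11704 : WFK w11704 := fun D T h => wf_of_chk h mem_nil (mem_cons (L1756 D T h) mem_nil) cw11704
theorem W11705 : WFK w11705 := fun D T h => wf_of_chk h mem_nil (mem_cons (L667 D T h) mem_nil) cw11705
theorem W11727 : WFK w11727 := fun D T h => wf_of_chk h (mem_cons (W8977 D T h) (mem_cons (W710 D T h) mem_nil)) mem_nil cw11727
theorem W11728 : WFK w11728 := fun D T h => wf_of_chk h mem_nil (mem_cons (L1837 D T h) mem_nil) cw11728
theorem W11729 : WFK w11729 := fun D T h => wf_of_chk h (mem_cons (W128 D T h) (mem_cons (W3953 D T h) mem_nil)) mem_nil cw11729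
theorem W11730 : WFK w11730 := fun D T h => wf_of_chk h (mem_cons (W284 D T h) (mem_cons (W3953 D T h) mem_nil)) mem_nil cw11730
theorem W11731 : WFK w11731 := fun D T h => wf_of_chk h (mem_cons (W1063 D T h) (mem_cons (W3953 D T h) mem_nil)) mem_nil cw11731
theorem W11732 : WFK w11732 := fun D T h => wf_of_chk h (mem_cons (W1063 D T h) (mem_cons (W3953 D T h) mem_nil)) mem_nil cw11732
theorem W11733 : WFK w11733 := fun D T h => wf_of_chk h (mem_cons (W167 D T h) (mem_cons (W3953 D T h) mem_nil)) mem_nil cw11733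
theorem W11734 : WFK w11734 := fun D T h => wf_of_chk h mem_nil (mem_cons (L2651 D T h) mem_nil) cw11734
theorem W11735 : WFK w11735 := fun D T h => wf_of_chk h (mem_cons (W2575 D T h) (mem_cons (W16 D T h) mem_nil)) mem_nil cw11735
theorem W11736 : WFK w11736 := fun D T h => wf_of_chk h mem_nil (mem_cons (L1140 D T h) mem_nil) cw11736
theorem L2715 : LFK l2715 := fun D T h => lf_of_chk h (mem_cons (W1502 D T h) (mem_cons (W342 D T h) (mem_cons (W341 D T h) (mem_cons (W1651 D T h) (mem_cons (W42 D T h) (mem_cons (W1676 D T h) (mem_cons (W1325 D T h) (mem_cons (W495 D T h) (mem_cons (W16 D T h) (mem_cons (W8153 D T h) (mem_cons (W1408 D T h) (mem_cons (W1221 D T h) (mem_cons (W9674 D T h) (mem_cons (W284 D T h) (mem_cons (W2934 D T h) (mem_cons (W9505 D T h) (mem_cons (W8631 D T h) (mem_cons (W11736 D T h) (mem_cons (W209 D T h) (mem_cons (W2295 D T h) (mem_cons (W9672 D T h) (mem_cons (W2297 D T h) (mem_cons (W9673 D T h) (mem_cons (W11735 D T h) (mem_cons (W2293 D T h) (mem_cons (W9628 D T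 h) mem_nil)))))))))))))))))))))))))) cl2715
theorem W11737 : WFK w11737 := fun D T h => wf_of_chk h mem_nil (mem_cons (L2715 D T h) mem_nil) cw11737
theorem W11738 : WFK w11738 := fun D T h => wf_of_chk h mem_nil (mem_cons (L2715 D T h) mem_nil) cw11738
theorem L2716 : LFK l2716 := fun D T h => lf_of_chk h (mem_cons (W8148 D T h) (mem_cons (W16 D T h) (mem_cons (W3325 D T h) (mem_cons (W3305 D T h) (mem_cons (W284 D T h) (mem_cons (W3953 D T h) (mem_cons (W1310 D T h) (mem_cons (W2164 D T h) (mem_cons (W2283 D T h) (mem_cons (W9695 D T h) (mem_cons (W8147 D T h) (mem_cons (W8113 D T h) (mem_cons (W1502 D T h) (mem_cons (W11734 D T h) (mem_cons (W11737 D T h) (mem_cons (W2169 D T h) (mem_cons (W2168 D T h) (mem_cons (W11738 D T h) (mem_cons (W11731 D T h) (mem_cons (W7720 D T h) (mem_cons (W9056 D T h) (mem_cons (W8807 D T h) (mem_cons (W6475 D T h) (mem_cons (W6476 D T h) (mem_cons (W11730 D T h) (mem_cons (W1318 D T h) (mem_cons (W11732 D T h) (mem_cons (W1458 D T h) (mem_cons (W11733 D T h)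 (mem_cons (W50 D T h) (mem_cons (W11728 D T h) (mem_cons (W11729 D T h) (mem_cons (W5194 D T h) mem_nil))))))))))))))))))))))))))))))))) cl2716
theorem W11739 : WFK w11739 := fun D T h => wf_of_chk h mem_nil (mem_cons (L2716 D T h) mem_nil) cw11739
theorem W11740 : WFK w11740 := fun D T h => wf_of_chk h (mem_cons (W2346 D T h) (mem_cons (W37 D T h) mem_nil)) mem_nil cw11740
theorem W11741 : WFK w11741 := fun D T h => wf_of_chk h (mem_cons (W1207 D T h) (mem_cons (W37 D T h) mem_nil)) mem_nil cw11741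
theorem W11742 : WFK w11742 := fun D T h => wf_of_chk h (mem_cons (W2024 D T h) (mem_cons (W710 D T h) mem_nil)) mem_nil cw11742
theorem W11743 : WFK w11743 := fun D T h => wf_of_chk h (mem_cons (W2934 D T h) (mem_cons (W710 D T h) mem_nil)) mem_nil cw11743
theorem W11744 : WFK w11744 := fun D T h => wf_of_chk h (mem_cons (W284 D T h) (mem_cons (W710 D T h) mem_nil)) mem_nil cw11744
theorem W11745 : WFK w11745 := fun D T h => wf_of_chk h (mem_cons (W1211 D T h) (mem_cons (W710 D T h) mem_nil)) mem_nil cw11745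
theorem W11746 : WFK w11746 := fun D T h => wf_of_chk h (mem_cons (W1153 D T h) (mem_cons (W710 D T h) mem_nil)) mem_nil cw11746
theorem W11747 : WFK w11747 := fun D T h => wf_of_chk h (mem_cons (W1153 D T h) (mem_cons (W710 D T h) mem_nil)) mem_nil cw11747
theorem W11748 : WFK w11748 := fun D T h => wf_of_chk h mem_nil (mem_cons (L812 D T h) mem_nil) cw11748
theorem W11749 : WFK w11749 := fun D T h => wf_of_chk h (mem_cons (W1139 D T h) (mem_cons (W368 D T h) mem_nil)) mem_nil cw11749
theorem W11750 : WFK w11750 := fun D T h => wf_of_chk h mem_nil (mem_cons (L2275 D T h) mem_nil) cw11750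
theorem W11751 : WFK w11751 := fun D T h => wf_of_chk h (mem_cons (W8218 D T h) (mem_cons (W368 D T h) mem_nil)) mem_nil cw11751
theorem W11752 : WFK w11752 := fun D T h => wf_of_chk h (mem_cons (W6446 D T h) (mem_cons (W368 D T h) mem_nil)) mem_nil cw11752
theorem W11753 : WFK w11753 := fun D T h => wf_of_chk h mem_nil (mem_cons (L751 D T h) mem_nil) cw11753
theorem W11754 : WFK w11754 := fun D T h => wf_of_chk h (mem_cons (W164 D T h) (mem_cons (W368 D T h) mem_nil)) mem_nil cw11754
theorem W11755 : WFK w11755 := fun D T h => wf_of_chk h (mem_cons (W4397 D T h) (mem_cons (W368 D T h) mem_nil)) mem_nil cw11755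
theorem W11756 : WFK w11756 := fun D T h => wf_of_chk h (mem_cons (W1458 D T h) (mem_cons (W368 D T h) mem_nil)) mem_nil cw11756
theorem L2717 : LFK l2717 := fun D T h => lf_of_chk h (mem_cons (W11326 D T h) (mem_cons (W2015 D T h) (mem_cons (W2118 D T h) (mem_cons (W2119 D T h) (mem_cons (W3 D T h) (mem_cons (W3406 D T h) (mem_cons (W3763 D T h) (mem_cons (W281 D T h) (mem_cons (W1637 D T h) (mem_cons (W199 D T h) (mem_cons (W201 D T h) (mem_cons (W2766 D T h) (mem_cons (W7305 D T h) (mem_cons (W13 D T h) (mem_cons (W2121 D T h) (mem_cons (W2120 D T h) (mem_cons (W2134 D T h) (mem_cons (W1449 D T h) mem_nil)))))))))))))))))) cl2717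
theorem W11757 : WFK w11757 := fun D T h => wf_of_chk h mem_nil (mem_cons (L2717 D T h) mem_nil) cw11757
theorem W11758 : WFK w11758 := fun D T h => wf_of_chk h mem_nil (mem_cons (L552 D T h) mem_nil) cw11758
theorem W11759 : WFK w11759 := fun D T h => wf_of_chk h (mem_cons (W2709 D T h) (mem_cons (W368 D T h) mem_nil)) mem_nil cw11759
theorem W11760 : WFK w11760 := fun D T h => wf_of_chk h (mem_cons (W6719 D T h) (mem_cons (W368 D T h) mem_nil)) mem_nil cw11760
theorem W11761 : WFK w11761 := fun D T h => wf_of_chk h (mem_cons (W3345 D T h) (mem_cons (W37 D T h) mem_nil)) mem_nil cw11761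
theorem W11762 : WFK w11762 := fun D T h => wf_of_chk h (mem_cons (W16 D T h) (mem_cons (W6758 D T h) mem_nil)) mem_nil cw11762
theorem W11763 : WFK w11763 := fun D T h => wf_of_chk h (mem_cons (W16 D T h) (mem_cons (W6758 D T h) mem_nil)) mem_nil cw11763
theorem W11764 : WFK w11764 := fun D T h => wf_of_chk h mem_nil (mem_cons (L240 D T h) mem_nil) cw11764
theorem L2718 : LFK l2718 := fun D T h => lf_of_chk h (mem_cons (W256 D T h) (mem_cons (W150 D T h) (mem_cons (W91 D T h) (mem_cons (W501 D T h) (mem_cons (W3583 D T h) (mem_cons (W11 D T h) (mem_cons (W1612 D T h) (mem_cons (W11764 D T h) (mem_cons (W10099 D T h) (mem_cons (W2922 D T h) (mem_cons (W346 D T h) (mem_cons (W1538 D T h) (mem_cons (W1654 D T h) mem_nil))))))))))))) cl2718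
theorem W11765 : WFK w11765 := fun D T h => wf_of_chk h mem_nil (mem_cons (L2718 D T h) mem_nil) cw11765
theorem W11766 : WFK w11766 := fun D T h => wf_of_chk h mem_nil (mem_cons (L89 D T h) mem_nil) cw11766
theorem L2719 : LFK l2719 := fun D T h => lf_of_chk h (mem_cons (W746 D T h) (mem_cons (W150 D T h) (mem_cons (W158 D T h) (mem_cons (W1143 D T h) (mem_cons (W7402 D T h) (mem_cons (W11 D T h) (mem_cons (W3093 D T h) (mem_cons (W11766 D T h) (mem_cons (W2922 D T h) (mem_cons (W346 D T h) (mem_cons (W1473 D T h) (mem_cons (W6037 D T h) mem_nil)))))))))))) cl2719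
theorem W11767 : WFK w11767 := fun D T h => wf_of_chk h mem_nil (mem_cons (L2719 D T h) mem_nil) cw11767
theorem L2720 : LFK l2720 := fun D T h => lf_of_chk h (mem_cons (W1554 D T h) (mem_cons (W150 D T h) (mem_cons (W1 D T h) (mem_cons (W141 D T h) (mem_cons (W10099 D T h) (mem_cons (W11 D T h) (mem_cons (W913 D T h) (mem_cons (W1960 D T h) (mem_cons (W2922 D T h) (mem_cons (W256 D T h) (mem_cons (W746 D T h) (mem_cons (W1489 D T h) (mem_cons (W2648 D T h) mem_nil))))))))))))) cl2720
theorem W11768 : WFK w11768 := fun D T h => wf_of_chk h mem_nil (mem_cons (L2720 D T h) mem_nil) cw11768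
theorem W11769 : WFK w11769 := fun D T h => wf_of_chk h (mem_cons (W368 D T h) mem_nil) mem_nil cw11769
theorem L2721 : LFK l2721 := fun D T h => lf_of_chk h (mem_cons (W1554 D T h) (mem_cons (W1 D T h) (mem_cons (W141 D T h) (mem_cons (W500 D T h) (mem_cons (W11 D T h) (mem_cons (W150 D T h) (mem_cons (W2922 D T h) (mem_cons (W256 D T h) (mem_cons (W746 D T h) (mem_cons (W1489 D T h) (mem_cons (W2648 D T h) (mem_cons (W913 D T h) (mem_cons (W1960 D T h) (mem_cons (W10099 D T h) mem_nil)))))))))))))) cl2721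
theorem W11770 : WFK w11770 := fun D T h => wf_of_chk h mem_nil (mem_cons (L2721 D T h) mem_nil) cw11770
theorem W11771 : WFK w11771 := fun D T h => wf_of_chk h mem_nil (mem_cons (L2721 D T h) mem_nil) cw11771
theorem W11772 : WFK w11772 := fun D T h => wf_of_chk h mem_nil (mem_cons (L1170 D T h) mem_nil) cw11772
theorem L2722 : LFK l2722 := fun D T h => lf_of_chk h (mem_cons (W10099 D T h) (mem_cons (W1245 D T h) (mem_cons (W1944 D T h) (mem_cons (W6773 D T h) (mem_cons (W1120 D T h) (mem_cons (W7408 D T h) (mem_cons (W913 D T h) mem_nil))))))) cl2722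
theorem W11773 : WFK w11773 := fun D T h => wf_of_chk h mem_nil (mem_cons (L2722 D T h) mem_nil) cw11773
theorem W11774 : WFK w11774 := fun D T h => wf_of_chk h mem_nil (mem_cons (L103 D T h) mem_nil) cw11774
theorem L2723 : LFK l2723 := fun D T h => lf_of_chk h (mem_cons (W1554 D T h) (mem_cons (W161 D T h) (mem_cons (W141 D T h) (mem_cons (W10099 D T h) (mem_cons (W11 D T h) (mem_cons (W150 D T h) (mem_cons (W6678 D T h) (mem_cons (W256 D T h) (mem_cons (W746 D T h) (mem_cons (W1489 D T h) (mem_cons (W2648 D T h) (mem_cons (W913 D T h) (mem_cons (W1960 D T h) (mem_cons (W4347 D T h) (mem_cons (W11774 D T h) mem_nil))))))))))))))) cl2723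
theorem W11775 : WFK w11775 := fun D T h => wf_of_chk h mem_nil (mem_cons (L2723 D T h) mem_nil) cw11775
theorem W11776 : WFK w11776 := fun D T h => wf_of_chk h (mem_cons (W16 D T h) (mem_cons (W716 D T h) mem_nil)) mem_nil cw11776
theorem L2724 : LFK l2724 := fun D T h => lf_of_chk h (mem_cons (W3304 D T h) (mem_cons (W6758 D T h) (mem_cons (W1063 D T h) (mem_cons (W42 D T h) (mem_cons (W7084 D T h) (mem_cons (W1448 D T h) (mem_cons (W10050 D T h) (mem_cons (W716 D T h) (mem_cons (W11773 D T h) (mem_cons (W7857 D T h) (mem_cons (W11775 D T h) (mem_cons (W11776 D T h) (mem_cons (W5907 D T h) (mem_cons (W11769 D T h) (mem_cons (W1554 D T h) (mem_cons (W11770 D T h) (mem_cons (W11771 D T h) (mem_cons (W11772 D T h) (mem_cons (W11768 D T h) (mem_cons (W757 D T h) (mem_cons (W11765 D T h) (mem_cons (W11767 D T h) (mem_cons (W2834 D T h) mem_nil))))))))))))))))))))))) cl2724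
theorem W11777 : WFK w11777 := fun D T h => wf_of_chk h mem_nil (mem_cons (L2724 D T h) mem_nil) cw11777
theorem L2725 : LFK l2725 := fun D T h => lf_of_chk h (mem_cons (W8258 D T h) (mem_cons (W3511 D T h) (mem_cons (W368 D T h) (mem_cons (W37 D T h) (mem_cons (W3304 D T h) (mem_cons (W11754 D T h) (mem_cons (W11762 D T h) (mem_cons (W11763 D T h) (mem_cons (W11756 D T h) (mem_cons (W11777 D T h) (mem_cons (W284 D T h) (mem_cons (W3198 D T h) (mem_cons (W2331 D T h) (mem_cons (W11755 D T h) (mem_cons (W8977 D T h) (mem_cons (W10073 D T h) (mem_cons (W2319 D T h) (mem_cons (W10896 D T h) (mem_cons (W11757 D T h) (mem_cons (W11758 D T h) (mem_cons (W11759 D T h) (mem_cons (W11760 D T h) (mem_cons (W10058 D T h) (mem_cons (W7221 D T h) (mem_cons (W11748 D T h) (mem_cons (W11749 D T h) (mem_cons (W11750 D T h) (mem_cons (W11751 D T h) (mem_cons (W11752 D T h) (mem_cons (W7229 D T h) (mem_cons (W11753 D T h) (mem_cons (W3286 D T h) (mem_cons (W34 D T h) (mem_cons (W11761 D T h) mem_nil))))))))))))))))))))))))))))))))))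 cl2725
theorem W11778 : WFK w11778 := fun D T h => wf_of_chk h mem_nil (mem_cons (L2725 D T h) mem_nil) cw11778
theorem W11779 : WFK w11779 := fun D T h => wf_of_chk h (mem_cons (W1064 D T h) (mem_cons (W37 D T h) mem_nil)) mem_nil cw11779
theorem W11780 : WFK w11780 := fun D T h => wf_of_chk h (mem_cons (W3878 D T h) (mem_cons (W804 D T h) mem_nil)) mem_nil cw11780
theorem W11781 : WFK w11781 := fun D T h => wf_of_chk h (mem_cons (W2888 D T h) (mem_cons (W710 D T h) mem_nil)) mem_nil cw11781
theorem W11782 : WFK w11782 := fun D T h => wf_of_chk h (mem_cons (W2893 D T h) (mem_cons (W710 D T h) mem_nil)) mem_nil cw11782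
theorem W11783 : WFK w11783 := fun D T h => wf_of_chk h mem_nil (mem_cons (L2411 D T h) mem_nil) cw11783
theorem L2726 : LFK l2726 := fun D T h => lf_of_chk h (mem_cons (W3939 D T h) (mem_cons (W2321 D T h) (mem_cons (W3905 D T h) (mem_cons (W3878 D T h) (mem_cons (W37 D T h) (mem_cons (W11145 D T h) (mem_cons (W11146 D T h) (mem_cons (W11743 D T h) (mem_cons (W5611 D T h) (mem_cons (W11781 D T h) (mem_cons (W8977 D T h) (mem_cons (W11782 D T h) (mem_cons (W11745 D T h) (mem_cons (W284 D T h) (mem_cons (W1213 D T h) (mem_cons (W11746 D T h) (mem_cons (W11747 D T h) (mem_cons (W2997 D T h) (mem_cons (W2326 D T h) (mem_cons (W11147 D T h) (mem_cons (W11727 D T h) (mem_cons (W2387 D T h) (mem_cons (W6327 D T h) (mem_cons (W5599 D T h) (mem_cons (W11739 D T h) (mem_cons (W11740 D T h) (mem_cons (W11741 D T h) (mem_cons (W11742 D T h) (mem_cons (W3271 D T h) (mem_cons (W5721 D T h) (mem_cons (W11778 D T h) (mem_cons (W11779 D T h) (mem_cons (W11780 D T h) (mem_cons (W3948 D T h) (mem_cons (W11783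 D T h) mem_nil))))))))))))))))))))))))))))))))))) cl2726
theorem W11784 : WFK w11784 := fun D T h => wf_of_chk h mem_nil (mem_cons (L2726 D T h) mem_nil) cw11784
theorem W11785 : WFK w11785 := fun D T h => wf_of_chk h (mem_cons (W6109 D T h) (mem_cons (W126 D T h) mem_nil)) mem_nil cw11785
theorem L2727 : LFK l2727 := fun D T h => lf_of_chk h (mem_cons (W4038 D T h) (mem_cons (W795 D T h) (mem_cons (W126 D T h) (mem_cons (W3515 D T h) (mem_cons (W1 D T h) (mem_cons (W4209 D T h) (mem_cons (W1070 D T h) (mem_cons (W1106 D T h) (mem_cons (W8908 D T h) (mem_cons (W4632 D T h) (mem_cons (W111 D T h) (mem_cons (W1109 D T h) (mem_cons (W3274 D T h) (mem_cons (W10346 D T h) (mem_cons (W10344 D T h) (mem_cons (W10253 D T h) (mem_cons (W3628 D T h) (mem_cons (W6095 D T h) mem_nil)))))))))))))))))) cl2727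
theorem W11786 : WFK w11786 := fun D T h => wf_of_chk h mem_nil (mem_cons (L2727 D T h) mem_nil) cw11786
theorem W11787 : WFK w11787 := fun D T h => wf_of_chk h (mem_cons (W203 D T h) (mem_cons (W126 D T h) mem_nil)) mem_nil cw11787
theorem L2728 : LFK l2728 := fun D T h => lf_of_chk h (mem_cons (W209 D T h) (mem_cons (W1501 D T h) (mem_cons (W2914 D T h) (mem_cons (W15 D T h) (mem_cons (W220 D T h) (mem_cons (W17 D T h) (mem_cons (W659 D T h) (mem_cons (W2919 D T h) (mem_cons (W86 D T h) (mem_cons (W2629 D T h) (mem_cons (W2628 D T h) (mem_cons (W2554 D T h) (mem_cons (W2532 D T h) (mem_cons (W8380 D T h) (mem_cons (W11787 D T h) (mem_cons (W3429 D T h) (mem_cons (W3212 D T h) (mem_cons (W3430 D T h) mem_nil)))))))))))))))))) cl2728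
theorem W11788 : WFK w11788 := fun D T h => wf_of_chk h mem_nil (mem_cons (L2728 D T h) mem_nil) cw11788
theorem W11796 : WFK w11796 := fun D T h => wf_of_chk h mem_nil (mem_cons (L2673 D T h) mem_nil) cw11796
theorem W11803 : WFK w11803 := fun D T h => wf_of_chk h (mem_cons (W126 D T h) mem_nil) mem_nil cw11803
theorem W11804 : WFK w11804 := fun D T h => wf_of_chk h (mem_cons (W126 D T h) mem_nil) mem_nil cw11804
theorem W11805 : WFK w11805 := fun D T h => wf_of_chk h (mem_cons (W105 D T h) (mem_cons (W126 D T h) mem_nil)) mem_nil cw11805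
theorem W11806 : WFK w11806 := fun D T h => wf_of_chk h mem_nil mem_nil cw11806
theorem L2735 : LFK l2735 := fun D T h => lf_of_chk h (mem_cons (W5415 D T h) (mem_cons (W4806 D T h) (mem_cons (W69 D T h) (mem_cons (W11806 D T h) (mem_cons (W411 D T h) (mem_cons (W4805 D T h) (mem_cons (W7171 D T h) (mem_cons (W2203 D T h) (mem_cons (W4807 D T h) (mem_cons (W4808 D T h) mem_nil)))))))))) cl2735
theorem W11807 : WFK w11807 := fun D T h => wf_of_chk h mem_nil (mem_cons (L2735 D T h) mem_nil) cw11807
theorem W11808 : WFK w11808 := fun D T h => wf_of_chk h (mem_cons (W105 D T h) mem_nil) mem_nil cw11808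
theorem L2736 : LFK l2736 := fun D T h => lf_of_chk h (mem_cons (W10179 D T h) (mem_cons (W1588 D T h) (mem_cons (W9945 D T h) (mem_cons (W1519 D T h) (mem_cons (W11807 D T h) (mem_cons (W3274 D T h) (mem_cons (W4812 D T h) (mem_cons (W4813 D T h) (mem_cons (W3276 D T h) (mem_cons (W4402 D T h) (mem_cons (W4814 D T h) (mem_cons (W7 D T h) (mem_cons (W220 D T h) (mem_cons (W248 D T h) (mem_cons (W11808 D T h) (mem_cons (W576 D T h) (mem_cons (W2207 D T h) (mem_cons (W1070 D T h) (mem_cons (W4803 D T h) (mem_cons (W3019 D T h) mem_nil)))))))))))))))))))) cl2736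
theorem W11809 : WFK w11809 := fun D T h => wf_of_chk h mem_nil (mem_cons (L2736 D T h) mem_nil) cw11809
theorem W11810 : WFK w11810 := fun D T h => wf_of_chk h (mem_cons (W519 D T h) (mem_cons (W126 D T h) mem_nil)) mem_nil cw11810
theorem W11811 : WFK w11811 := fun D T h => wf_of_chk h (mem_cons (W220 D T h) (mem_cons (W3688 D T h) mem_nil)) mem_nil cw11811
theorem W11813 : WFK w11813 := fun D T h => wf_of_chk h (mem_cons (W50 D T h) (mem_cons (W3688 D T h) mem_nil)) mem_nil cw11813
theorem W11814 : WFK w11814 := fun D T h => wf_of_chk h (mem_cons (W669 D T h) (mem_cons (W3688 D T h) mem_nil)) mem_nil cw11814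
theorem W11815 : WFK w11815 := fun D T h => wf_of_chk h (mem_cons (W667 D T h) (mem_cons (W3688 D T h) mem_nil)) mem_nil cw11815
theorem W11816 : WFK w11816 := fun D T h => wf_of_chk h (mem_cons (W669 D T h) (mem_cons (W3688 D T h) mem_nil)) mem_nil cw11816
theorem W11817 : WFK w11817 := fun D T h => wf_of_chk h (mem_cons (W181 D T h) (mem_cons (W126 D T h) mem_nil)) mem_nil cw11817
theorem W11818 : WFK w11818 := fun D T h => wf_of_chk h (mem_cons (W181 D T h) (mem_cons (W126 D T h) mem_nil)) mem_nil cw11818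
theorem W11819 : WFK w11819 := fun D T h => wf_of_chk h (mem_cons (W83 D T h) (mem_cons (W126 D T h) mem_nil)) mem_nil cw11819
theorem W11820 : WFK w11820 := fun D T h => wf_of_chk h (mem_cons (W162 D T h) (mem_cons (W3688 D T h) mem_nil)) mem_nil cw11820
theorem W11821 : WFK w11821 := fun D T h => wf_of_chk h (mem_cons (W241 D T h) (mem_cons (W126 D T h) mem_nil)) mem_nil cw11821
theorem W11822 : WFK w11822 := fun D T h => wf_of_chk h (mem_cons (W4295 D T h) (mem_cons (W16 D T h) mem_nil)) mem_nil cw11822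
theorem W11823 : WFK w11823 := fun D T h => wf_of_chk h (mem_cons (W1072 D T h) (mem_cons (W16 D T h) mem_nil)) mem_nil cw11823
theorem W11824 : WFK w11824 := fun D T h => wf_of_chk h (mem_cons (W105 D T h) (mem_cons (W230 D T h) mem_nil)) mem_nil cw11824
theorem W11825 : WFK w11825 := fun D T h => wf_of_chk h (mem_cons (W105 D T h) (mem_cons (W144 D T h) mem_nil)) mem_nil cw11825
theorem W11826 : WFK w11826 := fun D T h => wf_of_chk h (mem_cons (W105 D T h) (mem_cons (W230 D T h) mem_nil)) mem_nil cw11826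
theorem L2738 : LFK l2738 := fun D T h => lf_of_chk h (mem_cons (W6073 D T h) (mem_cons (W4038 D T h) (mem_cons (W536 D T h) (mem_cons (W537 D T h) (mem_cons (W144 D T h) (mem_cons (W126 D T h) (mem_cons (W11817 D T h) (mem_cons (W10828 D T h) (mem_cons (W11818 D T h) (mem_cons (W10668 D T h) (mem_cons (W11821 D T h) (mem_cons (W3356 D T h) (mem_cons (W6601 D T h) (mem_cons (W9431 D T h) (mem_cons (W11822 D T h) (mem_cons (W8767 D T h) (mem_cons (W560 D T h) (mem_cons (W16 D T h) (mem_cons (W1501 D T h) (mem_cons (W11803 D T h) (mem_cons (W11804 D T h) (mem_cons (W2015 D T h) (mem_cons (W11819 D T h) (mem_cons (W2439 D T h) (mem_cons (W2037 D T h) (mem_cons (W2709 D T h) (mem_cons (W11820 D T h) (mem_cons (W521 D T h) (mem_cons (W519 D T h) (mem_cons (W11805 D T h) (mem_cons (W11809 D T h) (mem_cons (W11810 D T h) (mem_cons (W5952 D T h) (mem_cons (W128 D T h) (mem_cons (W11811 D T h) (mem_cons (W11813 D T h) (mem_cons (W10973 D T h) (mem_cons (W11814 D T h) (mem_cons (W11815 D T h) (mem_cons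 (W11816 D T h) (mem_cons (W540 D T h) (mem_cons (W10179 D T h) (mem_cons (W6239 D T h) (mem_cons (W11823 D T h) (mem_cons (W5629 D T h) (mem_cons (W4829 D T h) (mem_cons (W11824 D T h) (mem_cons (W11825 D T h) (mem_cons (W11826 D T h) (mem_cons (W551 D T h) (mem_cons (W552 D T h) (mem_cons (W553 D T h) mem_nil)))))))))))))))))))))))))))))))))))))))))))))))))))) cl2738
theorem W11827 : WFK w11827 := fun D T h => wf_of_chk h mem_nil (mem_cons (L2738 D T h) mem_nil) cw11827
theorem L2739 : LFK l2739 := fun D T h => lf_of_chk h (mem_cons (W50 D T h) (mem_cons (W11827 D T h) (mem_cons (W2914 D T h) (mem_cons (W15 D T h) (mem_cons (W220 D T h) (mem_cons (W24 D T h) (mem_cons (W2930 D T h) (mem_cons (W3430 D T h) (mem_cons (W4256 D T h) (mem_cons (W4209 D T h) (mem_cons (W8153 D T h) (mem_cons (W1331 D T h) (mem_cons (W2405 D T h) (mem_cons (W1227 D T h) (mem_cons (W5742 D T h) (mem_cons (W4277 D T h) (mem_cons (W4028 D T h) (mem_cons (W11645 D T h) (mem_cons (W42 D T h) (mem_cons (W1362 D T h) (mem_cons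 (W11520 D T h) mem_nil))))))))))))))))))))) cl2739
theorem W11828 : WFK w11828 := fun D T h => wf_of_chk h mem_nil (mem_cons (L2739 D T h) mem_nil) cw11828
theorem W11829 : WFK w11829 := fun D T h => wf_of_chk h (mem_cons (W3518 D T h) (mem_cons (W16 D T h) mem_nil)) mem_nil cw11829
theorem L2740 : LFK l2740 := fun D T h => lf_of_chk h (mem_cons (W1291 D T h) (mem_cons (W1309 D T h) (mem_cons (W14 D T h) (mem_cons (W126 D T h) (mem_cons (W3515 D T h) (mem_cons (W16 D T h) (mem_cons (W8944 D T h) (mem_cons (W5177 D T h) (mem_cons (W7624 D T h) (mem_cons (W11785 D T h) (mem_cons (W50 D T h) (mem_cons (W2997 D T h) (mem_cons (W3389 D T h) (mem_cons (W3395 D T h) (mem_cons (W3396 D T h) (mem_cons (W7114 D T h) (mem_cons (W11786 D T h) (mem_cons (W5841 D T h) (mem_cons (W3305 D T h) (mem_cons (W9582 D T h) (mem_cons (W3408 D T h) (mem_cons (W1408 D T h) (mem_cons (W11788 D T h) (mem_cons (W5295 D T h) (mem_cons (W11828 D T h) (mem_cons (W6436 D T h) (mem_cons (W3502 D T h) (mem_cons (W3501 D T h)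 (mem_cons (W3503 D T h) (mem_cons (W3504 D T h) (mem_cons (W11829 D T h) mem_nil))))))))))))))))))))))))))))))) cl2740
theorem W11830 : WFK w11830 := fun D T h => wf_of_chk h mem_nil (mem_cons (L2740 D T h) mem_nil) cw11830
theorem W11831 : WFK w11831 := fun D T h => wf_of_chk h (mem_cons (W1065 D T h) (mem_cons (W37 D T h) mem_nil)) mem_nil cw11831
theorem W11832 : WFK w11832 := fun D T h => wf_of_chk h (mem_cons (W181 D T h) (mem_cons (W37 D T h) mem_nil)) mem_nil cw11832
theorem W11833 : WFK w11833 := fun D T h => wf_of_chk h (mem_cons (W799 D T h) (mem_cons (W37 D T h) mem_nil)) mem_nil cw11833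
theorem W11834 : WFK w11834 := fun D T h => wf_of_chk h (mem_cons (W2520 D T h) (mem_cons (W37 D T h) mem_nil)) mem_nil cw11834
theorem W11835 : WFK w11835 := fun D T h => wf_of_chk h (mem_cons (W34 D T h) (mem_cons (W37 D T h) mem_nil)) mem_nil cw11835
theorem W11836 : WFK w11836 := fun D T h => wf_of_chk h (mem_cons (W7114 D T h) (mem_cons (W37 D T h) mem_nil)) mem_nil cw11836
theorem W11837 : WFK w11837 := fun D T h => wf_of_chk h (mem_cons (W175 D T h) (mem_cons (W16 D T h) mem_nil)) mem_nil cw11837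
theorem W11840 : WFK w11840 := fun D T h => wf_of_chk h mem_nil (mem_cons (L1432 D T h) mem_nil) cw11840
theorem W11842 : WFK w11842 := fun D T h => wf_of_chk h (mem_cons (W369 D T h) mem_nil) mem_nil cw11842
theorem W11843 : WFK w11843 := fun D T h => wf_of_chk h (mem_cons (W369 D T h) mem_nil) mem_nil cw11843
theorem W11844 : WFK w11844 := fun D T h => wf_of_chk h (mem_cons (W3142 D T h) (mem_cons (W16 D T h) mem_nil)) mem_nil cw11844
theorem W11845 : WFK w11845 := fun D T h => wf_of_chk h mem_nil (mem_cons (L1297 D T h) mem_nil) cw11845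
theorem L2741 : LFK l2741 := fun D T h => lf_of_chk h (mem_cons (W5742 D T h) (mem_cons (W5327 D T h) (mem_cons (W3750 D T h) (mem_cons (W369 D T h) (mem_cons (W17 D T h) (mem_cons (W6108 D T h) (mem_cons (W3131 D T h) (mem_cons (W3132 D T h) (mem_cons (W3474 D T h) (mem_cons (W10530 D T h) (mem_cons (W3785 D T h) (mem_cons (W11842 D T h) (mem_cons (W11843 D T h) (mem_cons (W11844 D T h) (mem_cons (W495 D T h) (mem_cons (W757 D T h) (mem_cons (W11845 D T h) mem_nil))))))))))))))))) cl2741
theorem L2742 : LFK l2742 := fun D T h => lf_of_chk h (mem_cons (W676 D T h) (mem_cons (W284 D T h) (mem_cons (W368 D T h) (mem_cons (W1 D T h) (mem_cons (W69 D T h) (mem_cons (W618 D T h) (mem_cons (W7212 D T h) (mem_cons (W370 D T h) (mem_cons (W4262 D T h) (mem_cons (W355 D T h) (mem_cons (W391 D T h) (mem_cons (W3791 D T h) (mem_cons (W341 D T h) (mem_cons (W7658 D T h) (mem_cons (W1537 D T h) mem_nil))))))))))))))) cl2742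
theorem W11848 : WFK w11848 := fun D T h => wf_of_chk h mem_nil (mem_cons (L2742 D T h) mem_nil) cw11848
theorem W11850 : WFK w11850 := fun D T h => wf_of_chk h (mem_cons (W3356 D T h) (mem_cons (W16 D T h) mem_nil)) mem_nil cw11850
theorem L2744 : LFK l2744 := fun D T h => lf_of_chk h (mem_cons (W3878 D T h) (mem_cons (W167 D T h) (mem_cons (W162 D T h) (mem_cons (W1 D T h) (mem_cons (W69 D T h) (mem_cons (W370 D T h) (mem_cons (W4262 D T h) (mem_cons (W1535 D T h) (mem_cons (W391 D T h) (mem_cons (W375 D T h) (mem_cons (W2575 D T h) (mem_cons (W2529 D T h) (mem_cons (W2548 D T h) (mem_cons (W341 D T h) (mem_cons (W7956 D T h) (mem_cons (W5745 D T h) (mem_cons (W9395 D T h) (mem_cons (W4277 D T h) mem_nil)))))))))))))))))) cl2744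
theorem W11864 : WFK w11864 := fun D T h => wf_of_chk h (mem_cons (W4209 D T h) (mem_cons (W16 D T h) mem_nil)) mem_nil cw11864
theorem W11869 : WFK w11869 := fun D T h => wf_of_chk h (mem_cons (W3766 D T h) (mem_cons (W16 D T h) mem_nil)) mem_nil cw11869
theorem W11870 : WFK w11870 := fun D T h => wf_of_chk h mem_nil (mem_cons (L2741 D T h) mem_nil) cw11870
theorem W11871 : WFK w11871 := fun D T h => wf_of_chk h mem_nil (mem_cons (L2741 D T h) mem_nil) cw11871
theorem L2746 : LFK l2746 := fun D T h => lf_of_chk h (mem_cons (W377 D T h) (mem_cons (W22 D T h) (mem_cons (W12 D T h) (mem_cons (W1120 D T h) (mem_cons (W4 D T h) (mem_cons (W315 D T h) (mem_cons (W5588 D T h) (mem_cons (W842 D T h) (mem_cons (W3135 D T h) (mem_cons (W696 D T h) (mem_cons (W2772 D T h) mem_nil))))))))))) cl2746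
theorem W11872 : WFK w11872 := fun D T h => wf_of_chk h mem_nil (mem_cons (L2746 D T h) mem_nil) cw11872
theorem W11873 : WFK w11873 := fun D T h => wf_of_chk h (mem_cons (W11872 D T h) (mem_cons (W16 D T h) mem_nil)) mem_nil cw11873
theorem W11874 : WFK w11874 := fun D T h => wf_of_chk h (mem_cons (W909 D T h) (mem_cons (W1063 D T h) mem_nil)) mem_nil cw11874
theorem W11875 : WFK w11875 := fun D T h => wf_of_chk h mem_nil (mem_cons (L1820 D T h) mem_nil) cw11875
theorem W11876 : WFK w11876 := fun D T h => wf_of_chk h mem_nil (mem_cons (L1820 D T h) mem_nil) cw11876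
theorem W11877 : WFK w11877 := fun D T h => wf_of_chk h (mem_cons (W981 D T h) mem_nil) mem_nil cw11877
theorem W11878 : WFK w11878 := fun D T h => wf_of_chk h mem_nil (mem_cons (L1820 D T h) mem_nil) cw11878
theorem L2747 : LFK l2747 := fun D T h => lf_of_chk h (mem_cons (W1449 D T h) (mem_cons (W162 D T h) (mem_cons (W161 D T h) (mem_cons (W1637 D T h) (mem_cons (W199 D T h) (mem_cons (W201 D T h) (mem_cons (W11326 D T h) (mem_cons (W2119 D T h) (mem_cons (W2118 D T h) (mem_cons (W3 D T h) (mem_cons (W2145 D T h) (mem_cons (W3406 D T h) (mem_cons (W3763 D T h) (mem_cons (W7305 D T h) (mem_cons (W12 D T h) (mem_cons (W13 D T h) (mem_cons (W11875 D T h) (mem_cons (W11876 D T h) (mem_cons (W11877 D T h) (mem_cons (W11878 D T h) mem_nil)))))))))))))))))))) cl2747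
theorem W11879 : WFK w11879 := fun D T h => wf_of_chk h mem_nil (mem_cons (L2747 D T h) mem_nil) cw11879
theorem W11880 : WFK w11880 := fun D T h => wf_of_chk h (mem_cons (W11879 D T h) (mem_cons (W16 D T h) mem_nil)) mem_nil cw11880
theorem L2748 : LFK l2748 := fun D T h => lf_of_chk h (mem_cons (W1408 D T h) (mem_cons (W16 D T h) (mem_cons (W281 D T h) (mem_cons (W69 D T h) (mem_cons (W17 D T h) (mem_cons (W2309 D T h) (mem_cons (W2119 D T h) (mem_cons (W2118 D T h) (mem_cons (W3 D T h) (mem_cons (W3763 D T h) (mem_cons (W5496 D T h) (mem_cons (W3831 D T h) mem_nil)))))))))))) cl2748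
theorem W11881 : WFK w11881 := fun D T h => wf_of_chk h mem_nil (mem_cons (L2748 D T h) mem_nil) cw11881
theorem W11883 : WFK w11883 := fun D T h => wf_of_chk h (mem_cons (W799 D T h) (mem_cons (W23 D T h) mem_nil)) mem_nil cw11883
theorem W11884 : WFK w11884 := fun D T h => wf_of_chk h (mem_cons (W230 D T h) (mem_cons (W23 D T h) mem_nil)) mem_nil cw11884
theorem L2749 : LFK l2749 := fun D T h => lf_of_chk h (mem_cons (W204 D T h) (mem_cons (W16 D T h) (mem_cons (W1 D T h) (mem_cons (W69 D T h) (mem_cons (W17 D T h) (mem_cons (W4683 D T h) (mem_cons (W4100 D T h) (mem_cons (W3888 D T h) (mem_cons (W3 D T h) (mem_cons (W8979 D T h) (mem_cons (W1449 D T h) (mem_cons (W1408 D T h) mem_nil)))))))))))) cl2749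
theorem W11885 : WFK w11885 := fun D T h => wf_of_chk h mem_nil (mem_cons (L2749 D T h) mem_nil) cw11885
theorem W11886 : WFK w11886 := fun D T h => wf_of_chk h (mem_cons (W11885 D T h) (mem_cons (W16 D T h) mem_nil)) mem_nil cw11886
theorem W11887 : WFK w11887 := fun D T h => wf_of_chk h (mem_cons (W1065 D T h) (mem_cons (W23 D T h) mem_nil)) mem_nil cw11887
theorem W11888 : WFK w11888 := fun D T h => wf_of_chk h (mem_cons (W1063 D T h) (mem_cons (W23 D T h) mem_nil)) mem_nil cw11888
theorem W11889 : WFK w11889 := fun D T h => wf_of_chk h mem_nil (mem_cons (L1432 D T h) mem_nil) cw11889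
theorem L2750 : LFK l2750 := fun D T h => lf_of_chk h (mem_cons (W11840 D T h) (mem_cons (W5327 D T h) (mem_cons (W3750 D T h) (mem_cons (W16 D T h) (mem_cons (W23 D T h) (mem_cons (W6109 D T h) (mem_cons (W3128 D T h) (mem_cons (W11885 D T h) (mem_cons (W5642 D T h) (mem_cons (W6116 D T h) (mem_cons (W2015 D T h) (mem_cons (W11889 D T h) (mem_cons (W2037 D T h) (mem_cons (W2709 D T h) (mem_cons (W11828 D T h) (mem_cons (W4209 D T h) (mem_cons (W128 D T h) (mem_cons (W11887 D T h) (mem_cons (W9771 D T h) (mem_cons (W11888 D T h) (mem_cons (W10828 D T h) (mem_cons (W3448 D T h) (mem_cons (W6270 D T h) (mem_cons (W11883 D T h) (mem_cons (W11884 D T h) (mem_cons (W11886 D T h) (mem_cons (W1408 D T h) (mem_cons (W5072 D T h) (mem_cons (W10834 D T h) (mem_cons (W11873 D T h) (mem_cons (W11874 D T h) (mem_cons (W5841 D T h) (mem_cons (W3305 D T h) (mem_cons (W3304 D T h) (mem_cons (W11880 D T h) (mem_cons (W5742 D T h) (mem_cons (W7639 D T h) (mem_cons (W11870 D T h) (mem_cons (W50 D T h) (mem_cons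 (W11871 D T h) mem_nil)))))))))))))))))))))))))))))))))))))))) cl2750
theorem W11890 : WFK w11890 := fun D T h => wf_of_chk h mem_nil (mem_cons (L2750 D T h) mem_nil) cw11890
theorem W11891 : WFK w11891 := fun D T h => wf_of_chk h (mem_cons (W2994 D T h) (mem_cons (W1063 D T h) mem_nil)) mem_nil cw11891
theorem W11892 : WFK w11892 := fun D T h => wf_of_chk h (mem_cons (W1318 D T h) (mem_cons (W1063 D T h) mem_nil)) mem_nil cw11892
theorem W11893 : WFK w11893 := fun D T h => wf_of_chk h mem_nil (mem_cons (L2400 D T h) mem_nil) cw11893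
theorem W11894 : WFK w11894 := fun D T h => wf_of_chk h (mem_cons (W1063 D T h) mem_nil) mem_nil cw11894
theorem W11895 : WFK w11895 := fun D T h => wf_of_chk h mem_nil (mem_cons (L260 D T h) mem_nil) cw11895
theorem W11896 : WFK w11896 := fun D T h => wf_of_chk h (mem_cons (W3898 D T h) (mem_cons (W1063 D T h) mem_nil)) mem_nil cw11896
theorem W11897 : WFK w11897 := fun D T h => wf_of_chk h (mem_cons (W16 D T h) (mem_cons (W682 D T h) mem_nil)) mem_nil cw11897
theorem W11898 : WFK w11898 := fun D T h => wf_of_chk h mem_nil (mem_cons (L1739 D T h) mem_nil) cw11898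
theorem W11899 : WFK w11899 := fun D T h => wf_of_chk h (mem_cons (W2164 D T h) (mem_cons (W1063 D T h) mem_nil)) mem_nil cw11899
theorem L2751 : LFK l2751 := fun D T h => lf_of_chk h (mem_cons (W11144 D T h) (mem_cons (W11784 D T h) (mem_cons (W16 D T h) (mem_cons (W1063 D T h) (mem_cons (W10406 D T h) (mem_cons (W7632 D T h) (mem_cons (W682 D T h) (mem_cons (W11893 D T h) (mem_cons (W6425 D T h) (mem_cons (W1291 D T h) (mem_cons (W11897 D T h) (mem_cons (W11898 D T h) (mem_cons (W11899 D T h) (mem_cons (W8291 D T h) (mem_cons (W1197 D T h) (mem_cons (W11894 D T h) (mem_cons (W2274 D T h) (mem_cons (W11895 D T h) (mem_cons (W8125 D T h) (mem_cons (W11896 D T h) (mem_cons (W11837 D T h) (mem_cons (W5072 D T h) (mem_cons (W1168 D T h) (mem_cons (W11890 D T h) (mem_cons (W11891 D T h) (mem_cons (W9599 D T h) (mem_cons (W7647 D T h) (mem_cons (W11892 D T h) (mem_cons (W8424 D T h) (mem_cons (W11832 D T h) (mem_cons (W3222 D T h) (mem_cons (W11833 D T h) (mem_cons (W7790 D T h) (mem_cons (W11834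 D T h) (mem_cons (W11140 D T h) (mem_cons (W11835 D T h) (mem_cons (W2015 D T h) (mem_cons (W11836 D T h) (mem_cons (W11830 D T h) (mem_cons (W4209 D T h) (mem_cons (W128 D T h) (mem_cons (W11831 D T h) (mem_cons (W9771 D T h) mem_nil))))))))))))))))))))))))))))))))))))))))))) cl2751
theorem W11900 : WFK w11900 := fun D T h => wf_of_chk h mem_nil (mem_cons (L2751 D T h) mem_nil) cw11900
theorem W11901 : WFK w11901 := fun D T h => wf_of_chk h (mem_cons (W37 D T h) mem_nil) mem_nil cw11901
theorem L2752 : LFK l2752 := fun D T h => lf_of_chk h (mem_cons (W3766 D T h) (mem_cons (W16 D T h) (mem_cons (W368 D T h) (mem_cons (W39 D T h) (mem_cons (W3 D T h) (mem_cons (W401 D T h) (mem_cons (W267 D T h) (mem_cons (W11901 D T h) (mem_cons (W91 D T h) (mem_cons (W257 D T h) (mem_cons (W256 D T h) (mem_cons (W1272 D T h) (mem_cons (W255 D T h) (mem_cons (W181 D T h) mem_nil)))))))))))))) cl2752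
theorem W11902 : WFK w11902 := fun D T h => wf_of_chk h mem_nil (mem_cons (L2752 D T h) mem_nil) cw11902
theorem W11903 : WFK w11903 := fun D T h => wf_of_chk h (mem_cons (W1312 D T h) (mem_cons (W220 D T h) mem_nil)) mem_nil cw11903
theorem W11904 : WFK w11904 := fun D T h => wf_of_chk h (mem_cons (W1326 D T h) (mem_cons (W1889 D T h) mem_nil)) mem_nil cw11904
theorem W11905 : WFK w11905 := fun D T h => wf_of_chk h (mem_cons (W1326 D T h) (mem_cons (W1889 D T h) mem_nil)) mem_nil cw11905
theorem W11906 : WFK w11906 := fun D T h => wf_of_chk h (mem_cons (W42 D T h) (mem_cons (W1889 D T h) mem_nil)) mem_nil cw11906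
theorem W11907 : WFK w11907 := fun D T h => wf_of_chk h mem_nil (mem_cons (L2472 D T h) mem_nil) cw11907
theorem W11908 : WFK w11908 := fun D T h => wf_of_chk h mem_nil (mem_cons (L1693 D T h) mem_nil) cw11908
theorem W11909 : WFK w11909 := fun D T h => wf_of_chk h (mem_cons (W267 D T h) (mem_cons (W1889 D T h) mem_nil)) mem_nil cw11909
theorem W11910 : WFK w11910 := fun D T h => wf_of_chk h (mem_cons (W7720 D T h) (mem_cons (W220 D T h) mem_nil)) mem_nil cw11910
theorem L2753 : LFK l2753 := fun D T h => lf_of_chk h (mem_cons (W2934 D T h) (mem_cons (W7469 D T h) (mem_cons (W2936 D T h) (mem_cons (W220 D T h) (mem_cons (W42 D T h) (mem_cons (W164 D T h) (mem_cons (W6841 D T h) (mem_cons (W3305 D T h) (mem_cons (W16 D T h) (mem_cons (W11903 D T h) (mem_cons (W11910 D T h) (mem_cons (W5757 D T h) (mem_cons (W5258 D T h) (mem_cons (W1139 D T h) (mem_cons (W11904 D T h) (mem_cons (W5277 D T h) (mem_cons (W11905 D T h) (mem_cons (W11907 D T h) (mem_cons (W11908 D T h) (mem_cons (W11909 D T h) (mem_cons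 (W7466 D T h) (mem_cons (W9413 D T h) (mem_cons (W11906 D T h) (mem_cons (W2709 D T h) (mem_cons (W1320 D T h) (mem_cons (W3006 D T h) mem_nil)))))))))))))))))))))))))) cl2753
theorem W11911 : WFK w11911 := fun D T h => wf_of_chk h mem_nil (mem_cons (L2753 D T h) mem_nil) cw11911
theorem L2754 : LFK l2754 := fun D T h => lf_of_chk h (mem_cons (W8153 D T h) (mem_cons (W2934 D T h) (mem_cons (W4209 D T h) (mem_cons (W638 D T h) (mem_cons (W220 D T h) (mem_cons (W1334 D T h) (mem_cons (W5308 D T h) (mem_cons (W2629 D T h) (mem_cons (W519 D T h) (mem_cons (W871 D T h) (mem_cons (W2829 D T h) (mem_cons (W2537 D T h) (mem_cons (W7573 D T h) (mem_cons (W495 D T h) (mem_cons (W2575 D T h) (mem_cons (W42 D T h) (mem_cons (W4280 D T h) (mem_cons (W164 D T h) mem_nil)))))))))))))))))) cl2754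
theorem W11912 : WFK w11912 := fun D T h => wf_of_chk h mem_nil (mem_cons (L2754 D T h) mem_nil) cw11912
theorem W11913 : WFK w11913 := fun D T h => wf_of_chk h mem_nil (mem_cons (L2754 D T h) mem_nil) cw11913
theorem W11914 : WFK w11914 := fun D T h => wf_of_chk h mem_nil (mem_cons (L135 D T h) mem_nil) cw11914
theorem W11915 : WFK w11915 := fun D T h => wf_of_chk h mem_nil (mem_cons (L1536 D T h) mem_nil) cw11915
theorem W11916 : WFK w11916 := fun D T h => wf_of_chk h (mem_cons (W6841 D T h) (mem_cons (W16 D T h) mem_nil)) mem_nil cw11916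
theorem W11917 : WFK w11917 := fun D T h => wf_of_chk h mem_nil (mem_cons (L1909 D T h) mem_nil) cw11917
theorem L2755 : LFK l2755 := fun D T h => lf_of_chk h (mem_cons (W1193 D T h) (mem_cons (W56 D T h) (mem_cons (W6758 D T h) (mem_cons (W16 D T h) (mem_cons (W581 D T h) (mem_cons (W5841 D T h) (mem_cons (W11917 D T h) (mem_cons (W638 D T h) (mem_cons (W4578 D T h) (mem_cons (W10044 D T h) (mem_cons (W10043 D T h) (mem_cons (W5388 D T h) (mem_cons (W152 D T h) (mem_cons (W799 D T h) (mem_cons (W9056 D T h) mem_nil))))))))))))))) cl2755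
theorem W11918 : WFK w11918 := fun D T h => wf_of_chk h mem_nil (mem_cons (L2755 D T h) mem_nil) cw11918
theorem W11919 : WFK w11919 := fun D T h => wf_of_chk h (mem_cons (W162 D T h) (mem_cons (W6841 D T h) mem_nil)) mem_nil cw11919
theorem W11920 : WFK w11920 := fun D T h => wf_of_chk h (mem_cons (W747 D T h) (mem_cons (W16 D T h) mem_nil)) mem_nil cw11920
theorem W11921 : WFK w11921 := fun D T h => wf_of_chk h (mem_cons (W6967 D T h) (mem_cons (W16 D T h) mem_nil)) mem_nil cw11921
theorem W11922 : WFK w11922 := fun D T h => wf_of_chk h mem_nil (mem_cons (L1968 D T h) mem_nil) cw11922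
theorem W11923 : WFK w11923 := fun D T h => wf_of_chk h mem_nil (mem_cons (L1967 D T h) mem_nil) cw11923
theorem W11924 : WFK w11924 := fun D T h => wf_of_chk h mem_nil (mem_cons (L715 D T h) mem_nil) cw11924
theorem L2756 : LFK l2756 := fun D T h => lf_of_chk h (mem_cons (W2537 D T h) (mem_cons (W7314 D T h) (mem_cons (W7253 D T h) (mem_cons (W8751 D T h) (mem_cons (W42 D T h) (mem_cons (W11922 D T h) (mem_cons (W164 D T h) (mem_cons (W11923 D T h) (mem_cons (W2381 D T h) (mem_cons (W16 D T h) (mem_cons (W160 D T h) (mem_cons (W871 D T h) (mem_cons (W2103 D T h) (mem_cons (W7347 D T h) (mem_cons (W11924 D T h) (mem_cons (W7325 D T h) (mem_cons (W5298 D T h) (mem_cons (W1355 D T h) mem_nil)))))))))))))))))) cl2756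
theorem W11925 : WFK w11925 := fun D T h => wf_of_chk h mem_nil (mem_cons (L2756 D T h) mem_nil) cw11925
theorem W11926 : WFK w11926 := fun D T h => wf_of_chk h mem_nil (mem_cons (L2756 D T h) mem_nil) cw11926
theorem W11927 : WFK w11927 := fun D T h => wf_of_chk h mem_nil (mem_cons (L2756 D T h) mem_nil) cw11927
theorem W11928 : WFK w11928 := fun D T h => wf_of_chk h (mem_cons (W8638 D T h) (mem_cons (W16 D T h) mem_nil)) mem_nil cw11928
theorem W11929 : WFK w11929 := fun D T h => wf_of_chk h (mem_cons (W6797 D T h) (mem_cons (W16 D T h) mem_nil)) mem_nil cw11929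
theorem W11930 : WFK w11930 := fun D T h => wf_of_chk h (mem_cons (W8638 D T h) (mem_cons (W16 D T h) mem_nil)) mem_nil cw11930
theorem W11931 : WFK w11931 := fun D T h => wf_of_chk h mem_nil (mem_cons (L1896 D T h) mem_nil) cw11931
theorem W11932 : WFK w11932 := fun D T h => wf_of_chk h mem_nil (mem_cons (L1706 D T h) mem_nil) cw11932
theorem W11933 : WFK w11933 := fun D T h => wf_of_chk h (mem_cons (W7372 D T h) (mem_cons (W16 D T h) mem_nil)) mem_nil cw11933
theorem L2757 : LFK l2757 := fun D T h => lf_of_chk h (mem_cons (W11916 D T h) (mem_cons (W7570 D T h) (mem_cons (W7365 D T h) (mem_cons (W16 D T h) (mem_cons (W11918 D T h) (mem_cons (W2934 D T h) (mem_cons (W284 D T h) (mem_cons (W11919 D T h) (mem_cons (W2381 D T h) (mem_cons (W2537 D T h) (mem_cons (W11920 D T h) (mem_cons (W2534 D T h) (mem_cons (W11921 D T h) (mem_cons (W11925 D T h) (mem_cons (W11926 D T h) (mem_cons (W11927 D T h) (mem_cons (W1185 D T h) (mem_cons (W9056 D T h) (mem_cons (W6969 D T h) (mem_cons (W9623 D T h) (mem_cons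 (W11928 D T h) (mem_cons (W11929 D T h) (mem_cons (W9411 D T h) (mem_cons (W1186 D T h) (mem_cons (W9412 D T h) (mem_cons (W11930 D T h) (mem_cons (W11931 D T h) (mem_cons (W7558 D T h) (mem_cons (W7863 D T h) (mem_cons (W11932 D T h) (mem_cons (W11933 D T h) mem_nil))))))))))))))))))))))))))))))) cl2757
theorem W11934 : WFK w11934 := fun D T h => wf_of_chk h mem_nil (mem_cons (L2757 D T h) mem_nil) cw11934
theorem L2758 : LFK l2758 := fun D T h => lf_of_chk h (mem_cons (W169 D T h) (mem_cons (W2007 D T h) (mem_cons (W888 D T h) (mem_cons (W33 D T h) (mem_cons (W2766 D T h) (mem_cons (W124 D T h) (mem_cons (W4 D T h) mem_nil))))))) cl2758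
theorem W11935 : WFK w11935 := fun D T h => wf_of_chk h mem_nil (mem_cons (L2758 D T h) mem_nil) cw11935
theorem W11936 : WFK w11936 := fun D T h => wf_of_chk h (mem_cons (W11935 D T h) (mem_cons (W16 D T h) mem_nil)) mem_nil cw11936
theorem W11937 : WFK w11937 := fun D T h => wf_of_chk h (mem_cons (W162 D T h) (mem_cons (W2938 D T h) mem_nil)) mem_nil cw11937
theorem W11938 : WFK w11938 := fun D T h => wf_of_chk h mem_nil (mem_cons (L676 D T h) mem_nil) cw11938
theorem L2759 : LFK l2759 := fun D T h => lf_of_chk h (mem_cons (W91 D T h) (mem_cons (W220 D T h) (mem_cons (W802 D T h) (mem_cons (W9 D T h) (mem_cons (W248 D T h) (mem_cons (W7171 D T h) (mem_cons (W831 D T h) (mem_cons (W878 D T h) (mem_cons (W817 D T h) (mem_cons (W265 D T h) (mem_cons (W3153 D T h) mem_nil))))))))))) cl2759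
theorem W11939 : WFK w11939 := fun D T h => wf_of_chk h mem_nil (mem_cons (L2759 D T h) mem_nil) cw11939
theorem L2760 : LFK l2760 := fun D T h => lf_of_chk h (mem_cons (W5841 D T h) (mem_cons (W1326 D T h) (mem_cons (W220 D T h) (mem_cons (W86 D T h) (mem_cons (W39 D T h) (mem_cons (W1379 D T h) (mem_cons (W11939 D T h) (mem_cons (W6798 D T h) (mem_cons (W1556 D T h) (mem_cons (W1325 D T h) (mem_cons (W5482 D T h) (mem_cons (W11938 D T h) mem_nil)))))))))))) cl2760
theorem W11940 : WFK w11940 := fun D T h => wf_of_chk h mem_nil (mem_cons (L2760 D T h) mem_nil) cw11940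
theorem W11941 : WFK w11941 := fun D T h => wf_of_chk h mem_nil (mem_cons (L65 D T h) mem_nil) cw11941
theorem L2761 : LFK l2761 := fun D T h => lf_of_chk h (mem_cons (W6719 D T h) (mem_cons (W220 D T h) (mem_cons (W267 D T h) (mem_cons (W80 D T h) (mem_cons (W6774 D T h) (mem_cons (W648 D T h) (mem_cons (W13 D T h) (mem_cons (W5841 D T h) (mem_cons (W257 D T h) (mem_cons (W149 D T h) (mem_cons (W11941 D T h) (mem_cons (W638 D T h) (mem_cons (W4403 D T h) (mem_cons (W354 D T h) (mem_cons (W174 D T h) (mem_cons (W8609 D T h) mem_nil)))))))))))))))) cl2761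
theorem W11942 : WFK w11942 := fun D T h => wf_of_chk h mem_nil (mem_cons (L2761 D T h) mem_nil) cw11942
theorem W11943 : WFK w11943 := fun D T h => wf_of_chk h (mem_cons (W220 D T h) (mem_cons (W2938 D T h) mem_nil)) mem_nil cw11943
theorem W11944 : WFK w11944 := fun D T h => wf_of_chk h (mem_cons (W2946 D T h) (mem_cons (W16 D T h) mem_nil)) mem_nil cw11944
theorem W11945 : WFK w11945 := fun D T h => wf_of_chk h (mem_cons (W6749 D T h) (mem_cons (W16 D T h) mem_nil)) mem_nil cw11945
theorem W11946 : WFK w11946 := fun D T h => wf_of_chk h (mem_cons (W2938 D T h) (mem_cons (W16 D T h) mem_nil)) mem_nil cw11946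
theorem L2762 : LFK l2762 := fun D T h => lf_of_chk h (mem_cons (W7580 D T h) (mem_cons (W7570 D T h) (mem_cons (W7356 D T h) (mem_cons (W16 D T h) (mem_cons (W11936 D T h) (mem_cons (W2934 D T h) (mem_cons (W284 D T h) (mem_cons (W11937 D T h) (mem_cons (W11940 D T h) (mem_cons (W6719 D T h) (mem_cons (W7573 D T h) (mem_cons (W11942 D T h) (mem_cons (W2555 D T h) (mem_cons (W11943 D T h) (mem_cons (W11944 D T h) (mem_cons (W11945 D T h) (mem_cons (W11946 D T h) (mem_cons (W3043 D T h) (mem_cons (W6775 D T h) mem_nil))))))))))))))))))) cl2762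
theorem W11947 : WFK w11947 := fun D T h => wf_of_chk h mem_nil (mem_cons (L2762 D T h) mem_nil) cw11947
theorem W11948 : WFK w11948 := fun D T h => wf_of_chk h mem_nil (mem_cons (L2659 D T h) mem_nil) cw11948
theorem W11949 : WFK w11949 := fun D T h => wf_of_chk h mem_nil (mem_cons (L793 D T h) mem_nil) cw11949
theorem W11950 : WFK w11950 := fun D T h => wf_of_chk h mem_nil (mem_cons (L2758 D T h) mem_nil) cw11950
theorem W11951 : WFK w11951 := fun D T h => wf_of_chk h mem_nil (mem_cons (L766 D T h) mem_nil) cw11951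
theorem W11952 : WFK w11952 := fun D T h => wf_of_chk h (mem_cons (W158 D T h) (mem_cons (W38 D T h) mem_nil)) mem_nil cw11952
theorem W11954 : WFK w11954 := fun D T h => wf_of_chk h (mem_cons (W281 D T h) (mem_cons (W38 D T h) mem_nil)) mem_nil cw11954
theorem L2763 : LFK l2763 := fun D T h => lf_of_chk h (mem_cons (W5721 D T h) (mem_cons (W7076 D T h) (mem_cons (W797 D T h) (mem_cons (W1 D T h) (mem_cons (W351 D T h) (mem_cons (W8631 D T h) (mem_cons (W2554 D T h) (mem_cons (W181 D T h) (mem_cons (W7719 D T h) (mem_cons (W8424 D T h) (mem_cons (W11952 D T h) (mem_cons (W2304 D T h) (mem_cons (W11951 D T h) (mem_cons (W1919 D T h) (mem_cons (W34 D T h) (mem_cons (W11954 D T h) (mem_cons (W4038 D T h) (mem_cons (W5157 D T h) mem_nil)))))))))))))))))) cl2763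
theorem W11955 : WFK w11955 := fun D T h => wf_of_chk h mem_nil (mem_cons (L2763 D T h) mem_nil) cw11955
theorem W11956 : WFK w11956 := fun D T h => wf_of_chk h mem_nil (mem_cons (L753 D T h) mem_nil) cw11956
theorem W11957 : WFK w11957 := fun D T h => wf_of_chk h (mem_cons (W1326 D T h) (mem_cons (W38 D T h) mem_nil)) mem_nil cw11957
theorem W11958 : WFK w11958 := fun D T h => wf_of_chk h (mem_cons (W1326 D T h) (mem_cons (W351 D T h) mem_nil)) mem_nil cw11958
theorem W11959 : WFK w11959 := fun D T h => wf_of_chk h (mem_cons (W448 D T h) (mem_cons (W38 D T h) mem_nil)) mem_nil cw11959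
theorem W11960 : WFK w11960 := fun D T h => wf_of_chk h mem_nil (mem_cons (L2472 D T h) mem_nil) cw11960
theorem W11961 : WFK w11961 := fun D T h => wf_of_chk h mem_nil (mem_cons (L1693 D T h) mem_nil) cw11961
theorem W11962 : WFK w11962 := fun D T h => wf_of_chk h (mem_cons (W38 D T h) mem_nil) mem_nil cw11962
theorem L2764 : LFK l2764 := fun D T h => lf_of_chk h (mem_cons (W3766 D T h) (mem_cons (W351 D T h) (mem_cons (W16 D T h) (mem_cons (W2304 D T h) (mem_cons (W3 D T h) (mem_cons (W39 D T h) (mem_cons (W461 D T h) (mem_cons (W11962 D T h) mem_nil)))))))) cl2764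
theorem W11963 : WFK w11963 := fun D T h => wf_of_chk h mem_nil (mem_cons (L2764 D T h) mem_nil) cw11963
theorem W11964 : WFK w11964 := fun D T h => wf_of_chk h mem_nil (mem_cons (L2764 D T h) mem_nil) cw11964
theorem W11965 : WFK w11965 := fun D T h => wf_of_chk h (mem_cons (W155 D T h) (mem_cons (W38 D T h) mem_nil)) mem_nil cw11965
theorem W11966 : WFK w11966 := fun D T h => wf_of_chk h mem_nil (mem_cons (L753 D T h) mem_nil) cw11966
theorem L2765 : LFK l2765 := fun D T h => lf_of_chk h (mem_cons (W2934 D T h) (mem_cons (W2936 D T h) (mem_cons (W9413 D T h) (mem_cons (W42 D T h) (mem_cons (W38 D T h) (mem_cons (W351 D T h) (mem_cons (W1448 D T h) (mem_cons (W16 D T h) (mem_cons (W11955 D T h) (mem_cons (W164 D T h) (mem_cons (W11965 D T h) (mem_cons (W11959 D T h) (mem_cons (W11956 D T h) (mem_cons (W5258 D T h) (mem_cons (W220 D T h) (mem_cons (W6776 D T h) (mem_cons (W11957 D T h) (mem_cons (W5277 D T h) (mem_cons (W11958 D T h) (mem_cons (W11960 D T h) (mem_cons (W11961 D T h) (mem_cons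 (W11963 D T h) (mem_cons (W3578 D T h) (mem_cons (W11964 D T h) (mem_cons (W2709 D T h) (mem_cons (W11966 D T h) (mem_cons (W3006 D T h) mem_nil))))))))))))))))))))))))))) cl2765
theorem W11967 : WFK w11967 := fun D T h => wf_of_chk h mem_nil (mem_cons (L2765 D T h) mem_nil) cw11967
theorem W11968 : WFK w11968 := fun D T h => wf_of_chk h mem_nil (mem_cons (L834 D T h) mem_nil) cw11968
theorem W11969 : WFK w11969 := fun D T h => wf_of_chk h mem_nil (mem_cons (L1733 D T h) mem_nil) cw11969
theorem W11970 : WFK w11970 := fun D T h => wf_of_chk h (mem_cons (W220 D T h) (mem_cons (W1072 D T h) mem_nil)) mem_nil cw11970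
theorem W11971 : WFK w11971 := fun D T h => wf_of_chk h mem_nil (mem_cons (L1170 D T h) mem_nil) cw11971
theorem W11972 : WFK w11972 := fun D T h => wf_of_chk h mem_nil (mem_cons (L1733 D T h) mem_nil) cw11972
theorem L2766 : LFK l2766 := fun D T h => lf_of_chk h (mem_cons (W4603 D T h) (mem_cons (W7 D T h) (mem_cons (W1072 D T h) (mem_cons (W226 D T h) (mem_cons (W412 D T h) (mem_cons (W218 D T h) (mem_cons (W1459 D T h) mem_nil))))))) cl2766
theorem W11973 : WFK w11973 := fun D T h => wf_of_chk h mem_nil (mem_cons (L2766 D T h) mem_nil) cw11973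
theorem W11974 : WFK w11974 := fun D T h => wf_of_chk h mem_nil (mem_cons (L492 D T h) mem_nil) cw11974
theorem W11975 : WFK w11975 := fun D T h => wf_of_chk h (mem_cons (W220 D T h) mem_nil) mem_nil cw11975
theorem W11976 : WFK w11976 := fun D T h => wf_of_chk h mem_nil (mem_cons (L482 D T h) mem_nil) cw11976
theorem L2767 : LFK l2767 := fun D T h => lf_of_chk h (mem_cons (W4603 D T h) (mem_cons (W1091 D T h) (mem_cons (W11976 D T h) (mem_cons (W3239 D T h) (mem_cons (W412 D T h) (mem_cons (W218 D T h) (mem_cons (W5514 D T h) mem_nil))))))) cl2767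
theorem W11977 : WFK w11977 := fun D T h => wf_of_chk h mem_nil (mem_cons (L2767 D T h) mem_nil) cw11977
theorem W11978 : WFK w11978 := fun D T h => wf_of_chk h mem_nil mem_nil cw11978
theorem L2768 : LFK l2768 := fun D T h => lf_of_chk h (mem_cons (W4603 D T h) (mem_cons (W5886 D T h) (mem_cons (W11974 D T h) (mem_cons (W11978 D T h) (mem_cons (W412 D T h) (mem_cons (W218 D T h) (mem_cons (W5514 D T h) mem_nil))))))) cl2768
theorem W11979 : WFK w11979 := fun D T h => wf_of_chk h mem_nil (mem_cons (L2768 D T h) mem_nil) cw11979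
theorem L2769 : LFK l2769 := fun D T h => lf_of_chk h (mem_cons (W1919 D T h) (mem_cons (W7 D T h) (mem_cons (W1072 D T h) (mem_cons (W1459 D T h) (mem_cons (W412 D T h) (mem_cons (W218 D T h) (mem_cons (W4603 D T h) mem_nil))))))) cl2769
theorem W11980 : WFK w11980 := fun D T h => wf_of_chk h mem_nil (mem_cons (L2769 D T h) mem_nil) cw11980
theorem L2770 : LFK l2770 := fun D T h => lf_of_chk h (mem_cons (W7074 D T h) (mem_cons (W42 D T h) (mem_cons (W7 D T h) (mem_cons (W16 D T h) (mem_cons (W11969 D T h) (mem_cons (W1919 D T h) (mem_cons (W1929 D T h) (mem_cons (W6714 D T h) (mem_cons (W11980 D T h) (mem_cons (W11973 D T h) (mem_cons (W1611 D T h) (mem_cons (W4566 D T h) (mem_cons (W220 D T h) (mem_cons (W1139 D T h) (mem_cons (W6776 D T h) (mem_cons (W11970 D T h) (mem_cons (W11971 D T h) (mem_cons (W11972 D T h) (mem_cons (W3766 D T h) (mem_cons (W412 D T h) (mem_cons (W11974 D T h) (mem_cons (W972 D T h) (mem_cons (W11975 D T h) (mem_cons (W11977 D T h) (mem_cons (W1519 D T h) (mem_cons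 (W11194 D T h) (mem_cons (W11979 D T h) mem_nil))))))))))))))))))))))))))) cl2770
theorem W11981 : WFK w11981 := fun D T h => wf_of_chk h mem_nil (mem_cons (L2770 D T h) mem_nil) cw11981
theorem L2771 : LFK l2771 := fun D T h => lf_of_chk h (mem_cons (W3766 D T h) (mem_cons (W125 D T h) (mem_cons (W3 D T h) (mem_cons (W920 D T h) (mem_cons (W39 D T h) (mem_cons (W815 D T h) (mem_cons (W7 D T h) (mem_cons (W11981 D T h) (mem_cons (W172 D T h) (mem_cons (W1529 D T h) (mem_cons (W6685 D T h) (mem_cons (W976 D T h) mem_nil)))))))))))) cl2771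
theorem W11982 : WFK w11982 := fun D T h => wf_of_chk h mem_nil (mem_cons (L2771 D T h) mem_nil) cw11982
theorem W11983 : WFK w11983 := fun D T h => wf_of_chk h mem_nil (mem_cons (L2200 D T h) mem_nil) cw11983
theorem L2772 : LFK l2772 := fun D T h => lf_of_chk h (mem_cons (W2575 D T h) (mem_cons (W2934 D T h) (mem_cons (W370 D T h) (mem_cons (W168 D T h) (mem_cons (W390 D T h) (mem_cons (W2304 D T h) (mem_cons (W7266 D T h) (mem_cons (W3182 D T h) (mem_cons (W111 D T h) (mem_cons (W3766 D T h) (mem_cons (W1448 D T h) (mem_cons (W9656 D T h) (mem_cons (W9657 D T h) (mem_cons (W10230 D T h) (mem_cons (W538 D T h) (mem_cons (W1538 D T h) (mem_cons (W3582 D T h) (mem_cons (W9663 D T h) (mem_cons (W11949 D T h) (mem_cons (W8751 D T h) (mem_cons (W11950 D T h) (mem_cons (W495 D T h) (mem_cons (W11967 D T h) (mem_cons (W1 D T h) (mem_cons (W11968 D T h) (mem_cons (W11982 D T h) (mem_cons (W69 D T h) (mem_cons (W11983 D T h) mem_nil)))))))))))))))))))))))))))) cl2772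
theorem W11984 : WFK w11984 := fun D T h => wf_of_chk h mem_nil (mem_cons (L2772 D T h) mem_nil) cw11984
theorem W11985 : WFK w11985 := fun D T h => wf_of_chk h (mem_cons (W162 D T h) (mem_cons (W2934 D T h) mem_nil)) mem_nil cw11985
theorem W11986 : WFK w11986 := fun D T h => wf_of_chk h mem_nil (mem_cons (L269 D T h) mem_nil) cw11986
theorem W11987 : WFK w11987 := fun D T h => wf_of_chk h (mem_cons (W11986 D T h) (mem_cons (W16 D T h) mem_nil)) mem_nil cw11987
theorem W11988 : WFK w11988 := fun D T h => wf_of_chk h (mem_cons (W667 D T h) (mem_cons (W337 D T h) mem_nil)) mem_nil cw11988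
theorem W11989 : WFK w11989 := fun D T h => wf_of_chk h (mem_cons (W669 D T h) (mem_cons (W1599 D T h) mem_nil)) mem_nil cw11989
theorem W11990 : WFK w11990 := fun D T h => wf_of_chk h mem_nil (mem_cons (L1888 D T h) mem_nil) cw11990
theorem W11991 : WFK w11991 := fun D T h => wf_of_chk h mem_nil (mem_cons (L2478 D T h) mem_nil) cw11991
theorem L2773 : LFK l2773 := fun D T h => lf_of_chk h (mem_cons (W2050 D T h) (mem_cons (W342 D T h) (mem_cons (W495 D T h) (mem_cons (W3571 D T h) (mem_cons (W177 D T h) (mem_cons (W16 D T h) (mem_cons (W42 D T h) (mem_cons (W1448 D T h) (mem_cons (W7085 D T h) (mem_cons (W10784 D T h) (mem_cons (W1334 D T h) (mem_cons (W11991 D T h) (mem_cons (W176 D T h) (mem_cons (W3535 D T h) (mem_cons (W2116 D T h) (mem_cons (W2160 D T h) (mem_cons (W4766 D T h) (mem_cons (W185 D T h) (mem_cons (W1325 D T h) (mem_cons (W2154 D T h) (mem_cons (W2153 D T h) (mem_cons (W2067 D T h) (mem_cons (W2155 D T h) mem_nil))))))))))))))))))))))) cl2773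
theorem W11992 : WFK w11992 := fun D T h => wf_of_chk h mem_nil (mem_cons (L2773 D T h) mem_nil) cw11992
theorem W11993 : WFK w11993 := fun D T h => wf_of_chk h (mem_cons (W162 D T h) (mem_cons (W337 D T h) mem_nil)) mem_nil cw11993
theorem L2774 : LFK l2774 := fun D T h => lf_of_chk h (mem_cons (W9701 D T h) (mem_cons (W16 D T h) (mem_cons (W2934 D T h) (mem_cons (W37 D T h) (mem_cons (W337 D T h) (mem_cons (W1599 D T h) (mem_cons (W3305 D T h) (mem_cons (W7436 D T h) (mem_cons (W8111 D T h) (mem_cons (W7884 D T h) (mem_cons (W7577 D T h) (mem_cons (W11990 D T h) (mem_cons (W11993 D T h) (mem_cons (W6475 D T h) (mem_cons (W2050 D T h) (mem_cons (W11987 D T h) (mem_cons (W2051 D T h) (mem_cons (W11988 D T h) (mem_cons (W11989 D T h) (mem_cons (W11992 D T h) (mem_cons (W11914 D T h) (mem_cons (W5633 D T h) (mem_cons (W6613 D T h) (mem_cons (W3304 D T h) (mem_cons (W7858 D T h) (mem_cons (W7873 D T h) (mem_cons (W9411 D T h) (mem_cons (W7790 D T h) (mem_cons (W6776 D T h) (mem_cons (W3920 D T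 h) (mem_cons (W11915 D T h) (mem_cons (W11934 D T h) (mem_cons (W11947 D T h) (mem_cons (W11948 D T h) (mem_cons (W3953 D T h) (mem_cons (W11984 D T h) (mem_cons (W284 D T h) (mem_cons (W11985 D T h) (mem_cons (W8153 D T h) (mem_cons (W11902 D T h) (mem_cons (W1227 D T h) (mem_cons (W11911 D T h) (mem_cons (W11912 D T h) (mem_cons (W11913 D T h) mem_nil)))))))))))))))))))))))))))))))))))))))))))) cl2774
theorem W11994 : WFK w11994 := fun D T h => wf_of_chk h mem_nil (mem_cons (L2774 D T h) mem_nil) cw11994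
theorem L2775 : LFK l2775 := fun D T h => lf_of_chk h (mem_cons (W1554 D T h) (mem_cons (W15 D T h) (mem_cons (W1 D T h) (mem_cons (W141 D T h) (mem_cons (W11 D T h) (mem_cons (W500 D T h) (mem_cons (W499 D T h) (mem_cons (W1489 D T h) (mem_cons (W170 D T h) mem_nil))))))))) cl2775
theorem W11995 : WFK w11995 := fun D T h => wf_of_chk h mem_nil (mem_cons (L2775 D T h) mem_nil) cw11995
theorem W11996 : WFK w11996 := fun D T h => wf_of_chk h (mem_cons (W368 D T h) (mem_cons (W37 D T h) mem_nil)) mem_nil cw11996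
theorem W11997 : WFK w11997 := fun D T h => wf_of_chk h mem_nil (mem_cons (L2775 D T h) mem_nil) cw11997
theorem L2776 : LFK l2776 := fun D T h => lf_of_chk h (mem_cons (W3304 D T h) (mem_cons (W9025 D T h) (mem_cons (W42 D T h) (mem_cons (W1063 D T h) (mem_cons (W7084 D T h) (mem_cons (W35 D T h) (mem_cons (W7114 D T h) (mem_cons (W1554 D T h) (mem_cons (W11996 D T h) (mem_cons (W5157 D T h) (mem_cons (W7559 D T h) (mem_cons (W11997 D T h) (mem_cons (W11220 D T h) (mem_cons (W11995 D T h) (mem_cons (W757 D T h) (mem_cons (W10579 D T h) (mem_cons (W1144 D T h) (mem_cons (W502 D T h) mem_nil)))))))))))))))))) cl2776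
theorem W11998 : WFK w11998 := fun D T h => wf_of_chk h mem_nil (mem_cons (L2776 D T h) mem_nil) cw11998
theorem L2781 : LFK l2781 := fun D T h => lf_of_chk h (mem_cons (W3335 D T h) (mem_cons (W16 D T h) (mem_cons (W50 D T h) (mem_cons (W17 D T h) (mem_cons (W386 D T h) (mem_cons (W3035 D T h) (mem_cons (W3 D T h) (mem_cons (W8643 D T h) (mem_cons (W7821 D T h) (mem_cons (W1408 D T h) mem_nil)))))))))) cl2781
theorem W12011 : WFK w12011 := fun D T h => wf_of_chk h mem_nil (mem_cons (L85 D T h) mem_nil) cw12011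
theorem L2783 : LFK l2783 := fun D T h => lf_of_chk h (mem_cons (W3 D T h) (mem_cons (W188 D T h) (mem_cons (W12011 D T h) (mem_cons (W11 D T h) (mem_cons (W12 D T h) (mem_cons (W13 D T h) mem_nil)))))) cl2783
theorem W12012 : WFK w12012 := fun D T h => wf_of_chk h mem_nil (mem_cons (L2783 D T h) mem_nil) cw12012
theorem W12013 : WFK w12013 := fun D T h => wf_of_chk h mem_nil (mem_cons (L126 D T h) mem_nil) cw12013
theorem L2784 : LFK l2784 := fun D T h => lf_of_chk h (mem_cons (W3 D T h) (mem_cons (W187 D T h) (mem_cons (W12013 D T h) (mem_cons (W11 D T h) (mem_cons (W12 D T h) (mem_cons (W13 D T h) mem_nil)))))) cl2784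
theorem W12014 : WFK w12014 := fun D T h => wf_of_chk h mem_nil (mem_cons (L2784 D T h) mem_nil) cw12014
theorem W12015 : WFK w12015 := fun D T h => wf_of_chk h mem_nil (mem_cons (L5 D T h) mem_nil) cw12015
theorem L2785 : LFK l2785 := fun D T h => lf_of_chk h (mem_cons (W3 D T h) (mem_cons (W189 D T h) (mem_cons (W12015 D T h) (mem_cons (W11 D T h) (mem_cons (W12 D T h) (mem_cons (W13 D T h) mem_nil)))))) cl2785
theorem W12016 : WFK w12016 := fun D T h => wf_of_chk h mem_nil (mem_cons (L2785 D T h) mem_nil) cw12016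
theorem L2786 : LFK l2786 := fun D T h => lf_of_chk h (mem_cons (W1408 D T h) (mem_cons (W16 D T h) (mem_cons (W50 D T h) (mem_cons (W17 D T h) (mem_cons (W12012 D T h) (mem_cons (W12014 D T h) (mem_cons (W1397 D T h) (mem_cons (W12016 D T h) (mem_cons (W3035 D T h) (mem_cons (W3 D T h) (mem_cons (W1448 D T h) (mem_cons (W1449 D T h) mem_nil)))))))))))) cl2786
theorem W12017 : WFK w12017 := fun D T h => wf_of_chk h mem_nil (mem_cons (L2786 D T h) mem_nil) cw12017
theorem W12020 : WFK w12020 := fun D T h => wf_of_chk h mem_nil (mem_cons (L630 D T h) mem_nil) cw12020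
theorem L2790 : LFK l2790 := fun D T h => lf_of_chk h (mem_cons (W3762 D T h) (mem_cons (W193 D T h) (mem_cons (W3759 D T h) (mem_cons (W431 D T h) (mem_cons (W831 D T h) mem_nil))))) cl2790
theorem W12045 : WFK w12045 := fun D T h => wf_of_chk h mem_nil (mem_cons (L1056 D T h) mem_nil) cw12045
theorem L2792 : LFK l2792 := fun D T h => lf_of_chk h (mem_cons (W149 D T h) (mem_cons (W33 D T h) (mem_cons (W1379 D T h) (mem_cons (W1393 D T h) (mem_cons (W4765 D T h) mem_nil))))) cl2792
theorem L2793 : LFK l2793 := fun D T h => lf_of_chk h (mem_cons (W15 D T h) (mem_cons (W1 D T h) (mem_cons (W33 D T h) (mem_cons (W149 D T h) (mem_cons (W281 D T h) (mem_cons (W153 D T h) (mem_cons (W3421 D T h) mem_nil))))))) cl2793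
theorem W12047 : WFK w12047 := fun D T h => wf_of_chk h mem_nil (mem_cons (L2793 D T h) mem_nil) cw12047
theorem L2794 : LFK l2794 := fun D T h => lf_of_chk h (mem_cons (W6960 D T h) (mem_cons (W9125 D T h) (mem_cons (W831 D T h) mem_nil))) cl2794
theorem L2795 : LFK l2795 := fun D T h => lf_of_chk h (mem_cons (W5841 D T h) (mem_cons (W9043 D T h) (mem_cons (W1408 D T h) (mem_cons (W3 D T h) (mem_cons (W1919 D T h) (mem_cons (W39 D T h) (mem_cons (W281 D T h) (mem_cons (W9901 D T h) (mem_cons (W1325 D T h) (mem_cons (W1554 D T h) (mem_cons (W581 D T h) (mem_cons (W1326 D T h) (mem_cons (W10537 D T h) (mem_cons (W267 D T h) (mem_cons (W721 D T h) (mem_cons (W431 D T h) (mem_cons (W722 D T h) (mem_cons (W42 D T h) mem_nil)))))))))))))))))) cl2795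
theorem W12054 : WFK w12054 := fun D T h => wf_of_chk h mem_nil (mem_cons (L2795 D T h) mem_nil) cw12054
theorem W12113 : WFK w12113 := fun D T h => wf_of_chk h mem_nil (mem_cons (L184 D T h) mem_nil) cw12113
theorem L2816 : LFK l2816 := fun D T h => lf_of_chk h (mem_cons (W3766 D T h) (mem_cons (W16 D T h) (mem_cons (W3878 D T h) (mem_cons (W3 D T h) (mem_cons (W461 D T h) (mem_cons (W39 D T h) (mem_cons (W42 D T h) (mem_cons (W10850 D T h) (mem_cons (W1 D T h) (mem_cons (W1554 D T h) (mem_cons (W1325 D T h) (mem_cons (W581 D T h) (mem_cons (W1326 D T h) (mem_cons (W181 D T h) mem_nil)))))))))))))) cl2816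
theorem W12120 : WFK w12120 := fun D T h => wf_of_chk h (mem_cons (W143 D T h) mem_nil) mem_nil cw12120
theorem W12121 : WFK w12121 := fun D T h => wf_of_chk h mem_nil (mem_cons (L196 D T h) mem_nil) cw12121
theorem W12122 : WFK w12122 := fun D T h => wf_of_chk h mem_nil (mem_cons (L24 D T h) mem_nil) cw12122
theorem L2819 : LFK l2819 := fun D T h => lf_of_chk h (mem_cons (W341 D T h) (mem_cons (W6456 D T h) (mem_cons (W1307 D T h) (mem_cons (W3 D T h) (mem_cons (W143 D T h) (mem_cons (W17 D T h) (mem_cons (W16 D T h) (mem_cons (W724 D T h) (mem_cons (W1931 D T h) (mem_cons (W2921 D T h) (mem_cons (W499 D T h) (mem_cons (W6603 D T h) (mem_cons (W8675 D T h) (mem_cons (W8677 D T h) (mem_cons (W8674 D T h) (mem_cons (W9051 D T h) (mem_cons (W9100 D T h) (mem_cons (W12120 D T h) (mem_cons (W8201 D T h) (mem_cons (W2545 D T h) (mem_cons (W12121 D T h) (mem_cons (W2063 D T h) (mem_cons (W2544 D T h) (mem_cons (W12122 D T h) mem_nil)))))))))))))))))))))))) cl2819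
theorem W12125 : WFK w12125 := fun D T h => wf_of_chk h mem_nil (mem_cons (L2819 D T h) mem_nil) cw12125
theorem W12126 : WFK w12126 := fun D T h => wf_of_chk h mem_nil (mem_cons (L1019 D T h) mem_nil) cw12126
theorem W12128 : WFK w12128 := fun D T h => wf_of_chk h mem_nil (mem_cons (L1253 D T h) mem_nil) cw12128
theorem W12138 : WFK w12138 := fun D T h => wf_of_chk h (mem_cons (W8977 D T h) (mem_cons (W37 D T h) mem_nil)) mem_nil cw12138
theorem W12139 : WFK w12139 := fun D T h => wf_of_chk h mem_nil (mem_cons (L2411 D T h) mem_nil) cw12139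
theorem W12140 : WFK w12140 := fun D T h => wf_of_chk h mem_nil (mem_cons (L2411 D T h) mem_nil) cw12140
theorem L2822 : LFK l2822 := fun D T h => lf_of_chk h (mem_cons (W2710 D T h) (mem_cons (W37 D T h) (mem_cons (W8977 D T h) (mem_cons (W2321 D T h) (mem_cons (W11135 D T h) (mem_cons (W8421 D T h) (mem_cons (W12140 D T h) (mem_cons (W2392 D T h) (mem_cons (W9025 D T h) (mem_cons (W12139 D T h) (mem_cons (W284 D T h) (mem_cons (W2997 D T h) (mem_cons (W2326 D T h) (mem_cons (W2328 D T h) (mem_cons (W12138 D T h) (mem_cons (W10788 D T h) (mem_cons (W2319 D T h) (mem_cons (W10789 D T h) (mem_cons (W10907 D T h) (mem_cons (W11128 D T h) (mem_cons (W10824 D T h) (mem_cons (W1213 D T h) (mem_cons (W11032 D T h) (mem_cons (W2394 D T h) mem_nil)))))))))))))))))))))))) cl2822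
theorem W12141 : WFK w12141 := fun D T h => wf_of_chk h mem_nil (mem_cons (L2822 D T h) mem_nil) cw12141
theorem W12142 : WFK w12142 := fun D T h => wf_of_chk h (mem_cons (W1326 D T h) mem_nil) mem_nil cw12142
theorem L2823 : LFK l2823 := fun D T h => lf_of_chk h (mem_cons (W267 D T h) (mem_cons (W5841 D T h) (mem_cons (W1326 D T h) (mem_cons (W3 D T h) (mem_cons (W39 D T h) (mem_cons (W260 D T h) (mem_cons (W1564 D T h) (mem_cons (W262 D T h) (mem_cons (W265 D T h) (mem_cons (W12142 D T h) (mem_cons (W1272 D T h) (mem_cons (W256 D T h) (mem_cons (W255 D T h) (mem_cons (W257 D T h) (mem_cons (W259 D T h) (mem_cons (W263 D T h) (mem_cons (W281 D T h) (mem_cons (W391 D T h) mem_nil)))))))))))))))))) cl2823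
theorem W12143 : WFK w12143 := fun D T h => wf_of_chk h mem_nil (mem_cons (L2823 D T h) mem_nil) cw12143
theorem L2824 : LFK l2824 := fun D T h => lf_of_chk h (mem_cons (W3766 D T h) (mem_cons (W7 D T h) (mem_cons (W3110 D T h) mem_nil))) cl2824
theorem W12144 : WFK w12144 := fun D T h => wf_of_chk h mem_nil (mem_cons (L2824 D T h) mem_nil) cw12144
theorem L2825 : LFK l2825 := fun D T h => lf_of_chk h (mem_cons (W267 D T h) (mem_cons (W42 D T h) (mem_cons (W3 D T h) (mem_cons (W39 D T h) (mem_cons (W260 D T h) (mem_cons (W153 D T h) (mem_cons (W262 D T h) (mem_cons (W265 D T h) (mem_cons (W12144 D T h) (mem_cons (W1272 D T h) (mem_cons (W256 D T h) (mem_cons (W255 D T h) (mem_cons (W257 D T h) (mem_cons (W259 D T h) (mem_cons (W263 D T h) (mem_cons (W281 D T h) (mem_cons (W391 D T h) mem_nil))))))))))))))))) cl2825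
theorem W12145 : WFK w12145 := fun D T h => wf_of_chk h mem_nil (mem_cons (L2825 D T h) mem_nil) cw12145
theorem L2826 : LFK l2826 := fun D T h => lf_of_chk h (mem_cons (W1919 D T h) (mem_cons (W17 D T h) (mem_cons (W3878 D T h) (mem_cons (W8995 D T h) (mem_cons (W401 D T h) (mem_cons (W1409 D T h) (mem_cons (W9125 D T h) (mem_cons (W2724 D T h) (mem_cons (W461 D T h) (mem_cons (W109 D T h) (mem_cons (W3518 D T h) (mem_cons (W6718 D T h) (mem_cons (W1960 D T h) (mem_cons (W3274 D T h) (mem_cons (W2690 D T h) (mem_cons (W67 D T h) (mem_cons (W143 D T h) mem_nil))))))))))))))))) cl2826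
theorem W12146 : WFK w12146 := fun D T h => wf_of_chk h mem_nil (mem_cons (L2826 D T h) mem_nil) cw12146
theorem L2827 : LFK l2827 := fun D T h => lf_of_chk h (mem_cons (W3766 D T h) (mem_cons (W7 D T h) (mem_cons (W3110 D T h) mem_nil))) cl2827
theorem W12147 : WFK w12147 := fun D T h => wf_of_chk h mem_nil (mem_cons (L2827 D T h) mem_nil) cw12147
theorem L2828 : LFK l2828 := fun D T h => lf_of_chk h (mem_cons (W262 D T h) (mem_cons (W581 D T h) (mem_cons (W267 D T h) (mem_cons (W3 D T h) (mem_cons (W750 D T h) (mem_cons (W2359 D T h) (mem_cons (W255 D T h) (mem_cons (W871 D T h) (mem_cons (W260 D T h) (mem_cons (W153 D T h) (mem_cons (W381 D T h) (mem_cons (W12147 D T h) (mem_cons (W258 D T h) (mem_cons (W256 D T h) (mem_cons (W296 D T h) (mem_cons (W4403 D T h) (mem_cons (W6584 D T h) mem_nil))))))))))))))))) cl2828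
theorem W12148 : WFK w12148 := fun D T h => wf_of_chk h mem_nil (mem_cons (L2828 D T h) mem_nil) cw12148
theorem L2829 : LFK l2829 := fun D T h => lf_of_chk h (mem_cons (W267 D T h) (mem_cons (W42 D T h) (mem_cons (W3 D T h) (mem_cons (W39 D T h) (mem_cons (W260 D T h) (mem_cons (W153 D T h) (mem_cons (W6584 D T h) (mem_cons (W265 D T h) (mem_cons (W12144 D T h) (mem_cons (W1272 D T h) (mem_cons (W256 D T h) (mem_cons (W255 D T h) (mem_cons (W257 D T h) mem_nil))))))))))))) cl2829
theorem W12149 : WFK w12149 := fun D T h => wf_of_chk h mem_nil (mem_cons (L2829 D T h) mem_nil) cw12149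
theorem W12150 : WFK w12150 := fun D T h => wf_of_chk h mem_nil (mem_cons (L2068 D T h) mem_nil) cw12150
theorem L2830 : LFK l2830 := fun D T h => lf_of_chk h (mem_cons (W267 D T h) (mem_cons (W42 D T h) (mem_cons (W461 D T h) (mem_cons (W3 D T h) (mem_cons (W39 D T h) (mem_cons (W260 D T h) (mem_cons (W652 D T h) (mem_cons (W262 D T h) (mem_cons (W265 D T h) (mem_cons (W12150 D T h) (mem_cons (W1272 D T h) (mem_cons (W256 D T h) (mem_cons (W255 D T h) (mem_cons (W257 D T h) (mem_cons (W259 D T h) (mem_cons (W263 D T h) (mem_cons (W281 D T h) (mem_cons (W391 D T h) mem_nil)))))))))))))))))) cl2830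
theorem W12151 : WFK w12151 := fun D T h => wf_of_chk h mem_nil (mem_cons (L2830 D T h) mem_nil) cw12151
theorem L2831 : LFK l2831 := fun D T h => lf_of_chk h (mem_cons (W2934 D T h) (mem_cons (W9413 D T h) (mem_cons (W7466 D T h) (mem_cons (W42 D T h) (mem_cons (W5258 D T h) (mem_cons (W23 D T h) (mem_cons (W16 D T h) (mem_cons (W7596 D T h) (mem_cons (W12151 D T h) (mem_cons (W164 D T h) (mem_cons (W2709 D T h) (mem_cons (W455 D T h) (mem_cons (W6613 D T h) (mem_cons (W10415 D T h) (mem_cons (W220 D T h) (mem_cons (W1139 D T h) (mem_cons (W5277 D T h) (mem_cons (W12143 D T h) (mem_cons (W12145 D T h) (mem_cons (W12146 D T h) (mem_cons (W6790 D T h) (mem_cons (W12148 D T h) (mem_cons (W12149 D T h) (mem_cons (W11107 D T h) (mem_cons (W2936 D T h) mem_nil))))))))))))))))))))))))) cl2831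
theorem W12152 : WFK w12152 := fun D T h => wf_of_chk h mem_nil (mem_cons (L2831 D T h) mem_nil) cw12152
theorem W12153 : WFK w12153 := fun D T h => wf_of_chk h mem_nil (mem_cons (L2170 D T h) mem_nil) cw12153
theorem L2832 : LFK l2832 := fun D T h => lf_of_chk h (mem_cons (W6756 D T h) (mem_cons (W5841 D T h) (mem_cons (W1326 D T h) (mem_cons (W3 D T h) (mem_cons (W39 D T h) (mem_cons (W721 D T h) (mem_cons (W1296 D T h) (mem_cons (W1564 D T h) (mem_cons (W1297 D T h) (mem_cons (W10083 D T h) (mem_cons (W12153 D T h) (mem_cons (W258 D T h) (mem_cons (W746 D T h) (mem_cons (W747 D T h) (mem_cons (W748 D T h) (mem_cons (W259 D T h) mem_nil)))))))))))))))) cl2832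
theorem W12154 : WFK w12154 := fun D T h => wf_of_chk h mem_nil (mem_cons (L2832 D T h) mem_nil) cw12154
theorem W12155 : WFK w12155 := fun D T h => wf_of_chk h mem_nil (mem_cons (L2163 D T h) mem_nil) cw12155
theorem W12156 : WFK w12156 := fun D T h => wf_of_chk h (mem_cons (W2930 D T h) (mem_cons (W16 D T h) mem_nil)) mem_nil cw12156
theorem L2833 : LFK l2833 := fun D T h => lf_of_chk h (mem_cons (W3766 D T h) (mem_cons (W6 D T h) (mem_cons (W1854 D T h) mem_nil))) cl2833
theorem W12157 : WFK w12157 := fun D T h => wf_of_chk h mem_nil (mem_cons (L2833 D T h) mem_nil) cw12157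
theorem L2834 : LFK l2834 := fun D T h => lf_of_chk h (mem_cons (W9411 D T h) (mem_cons (W581 D T h) (mem_cons (W267 D T h) (mem_cons (W3 D T h) (mem_cons (W750 D T h) (mem_cons (W2353 D T h) (mem_cons (W1297 D T h) (mem_cons (W3147 D T h) (mem_cons (W871 D T h) (mem_cons (W1296 D T h) (mem_cons (W381 D T h) (mem_cons (W12157 D T h) (mem_cons (W1272 D T h) (mem_cons (W746 D T h) (mem_cons (W6909 D T h) (mem_cons (W11337 D T h) mem_nil)))))))))))))))) cl2834
theorem W12158 : WFK w12158 := fun D T h => wf_of_chk h mem_nil (mem_cons (L2834 D T h) mem_nil) cw12158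
theorem W12159 : WFK w12159 := fun D T h => wf_of_chk h mem_nil (mem_cons (L2833 D T h) mem_nil) cw12159
theorem L2835 : LFK l2835 := fun D T h => lf_of_chk h (mem_cons (W9413 D T h) (mem_cons (W42 D T h) (mem_cons (W3 D T h) (mem_cons (W750 D T h) (mem_cons (W721 D T h) (mem_cons (W1296 D T h) (mem_cons (W1297 D T h) (mem_cons (W3284 D T h) (mem_cons (W12159 D T h) (mem_cons (W258 D T h) (mem_cons (W746 D T h) (mem_cons (W747 D T h) (mem_cons (W748 D T h) mem_nil))))))))))))) cl2835
theorem W12160 : WFK w12160 := fun D T h => wf_of_chk h mem_nil (mem_cons (L2835 D T h) mem_nil) cw12160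
theorem L2836 : LFK l2836 := fun D T h => lf_of_chk h (mem_cons (W721 D T h) (mem_cons (W42 D T h) (mem_cons (W461 D T h) (mem_cons (W3 D T h) (mem_cons (W39 D T h) (mem_cons (W1296 D T h) (mem_cons (W1564 D T h) (mem_cons (W1297 D T h) (mem_cons (W1535 D T h) (mem_cons (W9393 D T h) (mem_cons (W258 D T h) (mem_cons (W746 D T h) (mem_cons (W747 D T h) (mem_cons (W748 D T h) (mem_cons (W259 D T h) (mem_cons (W263 D T h) (mem_cons (W281 D T h) (mem_cons (W6756 D T h) mem_nil)))))))))))))))))) cl2836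
theorem W12161 : WFK w12161 := fun D T h => wf_of_chk h mem_nil (mem_cons (L2836 D T h) mem_nil) cw12161
theorem L2837 : LFK l2837 := fun D T h => lf_of_chk h (mem_cons (W2934 D T h) (mem_cons (W9413 D T h) (mem_cons (W7466 D T h) (mem_cons (W42 D T h) (mem_cons (W5258 D T h) (mem_cons (W23 D T h) (mem_cons (W16 D T h) (mem_cons (W5713 D T h) (mem_cons (W12161 D T h) (mem_cons (W164 D T h) (mem_cons (W2709 D T h) (mem_cons (W455 D T h) (mem_cons (W6613 D T h) (mem_cons (W5760 D T h) (mem_cons (W220 D T h) (mem_cons (W1139 D T h) (mem_cons (W5277 D T h) (mem_cons (W12154 D T h) (mem_cons (W12155 D T h) (mem_cons (W12146 D T h) (mem_cons (W12156 D T h) (mem_cons (W12158 D T h) (mem_cons (W12160 D T h) (mem_cons (W11107 D T h) (mem_cons (W2936 D T h) mem_nil))))))))))))))))))))))))) cl2837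
theorem W12162 : WFK w12162 := fun D T h => wf_of_chk h mem_nil (mem_cons (L2837 D T h) mem_nil) cw12162
theorem W12163 : WFK w12163 := fun D T h => wf_of_chk h mem_nil (mem_cons (L1180 D T h) mem_nil) cw12163
theorem L2838 : LFK l2838 := fun D T h => lf_of_chk h (mem_cons (W1318 D T h) (mem_cons (W11137 D T h) (mem_cons (W16 D T h) (mem_cons (W14 D T h) (mem_cons (W3410 D T h) (mem_cons (W1291 D T h) (mem_cons (W1310 D T h) (mem_cons (W7962 D T h) (mem_cons (W7130 D T h) (mem_cons (W12163 D T h) (mem_cons (W3502 D T h) (mem_cons (W6619 D T h) (mem_cons (W10480 D T h) (mem_cons (W7114 D T h) (mem_cons (W11139 D T h) (mem_cons (W3766 D T h) (mem_cons (W3305 D T h) (mem_cons (W3304 D T h) (mem_cons (W3953 D T h) (mem_cons (W177 D T h) (mem_cons (W12152 D T h) (mem_cons (W12162 D T h) (mem_cons (W6552 D T h) (mem_cons (W12017 D T h) (mem_cons (W3523 D T h) (mem_cons (W8444 D T h) mem_nil)))))))))))))))))))))))))) cl2838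
theorem W12164 : WFK w12164 := fun D T h => wf_of_chk h mem_nil (mem_cons (L2838 D T h) mem_nil) cw12164
theorem W12165 : WFK w12165 := fun D T h => wf_of_chk h mem_nil (mem_cons (L2838 D T h) mem_nil) cw12165
theorem L2839 : LFK l2839 := fun D T h => lf_of_chk h (mem_cons (W2808 D T h) (mem_cons (W37 D T h) (mem_cons (W3905 D T h) (mem_cons (W804 D T h) (mem_cons (W2321 D T h) (mem_cons (W8295 D T h) (mem_cons (W2389 D T h) (mem_cons (W11137 D T h) (mem_cons (W12140 D T h) (mem_cons (W2375 D T h) (mem_cons (W3511 D T h) (mem_cons (W2027 D T h) (mem_cons (W10869 D T h) (mem_cons (W9610 D T h) (mem_cons (W10870 D T h) (mem_cons (W11038 D T h) (mem_cons (W10406 D T h) (mem_cons (W11136 D T h) (mem_cons (W8977 D T h) (mem_cons (W12164 D T h) (mem_cons (W12165 D T h) (mem_cons (W9025 D T h) (mem_cons (W11900 D T h) (mem_cons (W11994 D T h) (mem_cons (W1213 D T h) (mem_cons (W11998 D T h) (mem_cons (W12141 D T h) (mem_cons (W2997 D T h) (mem_cons (W2326 D T h) (mem_cons (W10478 D T h) (mem_cons (W10698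 D T h) (mem_cons (W6815 D T h) (mem_cons (W6851 D T h) (mem_cons (W10868 D T h) mem_nil)))))))))))))))))))))))))))))))))) cl2839
theorem W12166 : WFK w12166 := fun D T h => wf_of_chk h mem_nil (mem_cons (L2839 D T h) mem_nil) cw12166
theorem W12167 : WFK w12167 := fun D T h => wf_of_chk h mem_nil (mem_cons (L2839 D T h) mem_nil) cw12167
theorem W12168 : WFK w12168 := fun D T h => wf_of_chk h mem_nil (mem_cons (L1533 D T h) mem_nil) cw12168
theorem L2840 : LFK l2840 := fun D T h => lf_of_chk h (mem_cons (W5721 D T h) (mem_cons (W16 D T h) (mem_cons (W181 D T h) (mem_cons (W8424 D T h) (mem_cons (W10825 D T h) (mem_cons (W7719 D T h) (mem_cons (W37 D T h) (mem_cons (W1 D T h) (mem_cons (W1065 D T h) (mem_cons (W219 D T h) (mem_cons (W7076 D T h) (mem_cons (W3878 D T h) (mem_cons (W34 D T h) (mem_cons (W1919 D T h) (mem_cons (W12168 D T h) mem_nil))))))))))))))) cl2840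
theorem W12169 : WFK w12169 := fun D T h => wf_of_chk h mem_nil (mem_cons (L2840 D T h) mem_nil) cw12169
theorem W12170 : WFK w12170 := fun D T h => wf_of_chk h (mem_cons (W16 D T h) (mem_cons (W1063 D T h) mem_nil)) mem_nil cw12170
theorem W12171 : WFK w12171 := fun D T h => wf_of_chk h (mem_cons (W1322 D T h) (mem_cons (W1063 D T h) mem_nil)) mem_nil cw12171
theorem W12175 : WFK w12175 := fun D T h => wf_of_chk h (mem_cons (W8977 D T h) (mem_cons (W1063 D T h) mem_nil)) mem_nil cw12175
theorem W12176 : WFK w12176 := fun D T h => wf_of_chk h (mem_cons (W1309 D T h) (mem_cons (W37 D T h) mem_nil)) mem_nil cw12176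
theorem W12177 : WFK w12177 := fun D T h => wf_of_chk h (mem_cons (W2024 D T h) (mem_cons (W1063 D T h) mem_nil)) mem_nil cw12177
theorem W12178 : WFK w12178 := fun D T h => wf_of_chk h (mem_cons (W284 D T h) (mem_cons (W1063 D T h) mem_nil)) mem_nil cw12178
theorem W12179 : WFK w12179 := fun D T h => wf_of_chk h mem_nil (mem_cons (L1912 D T h) mem_nil) cw12179
theorem W12180 : WFK w12180 := fun D T h => wf_of_chk h (mem_cons (W1211 D T h) (mem_cons (W1063 D T h) mem_nil)) mem_nil cw12180
theorem W12181 : WFK w12181 := fun D T h => wf_of_chk h (mem_cons (W2042 D T h) (mem_cons (W1063 D T h) mem_nil)) mem_nil cw12181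
theorem W12182 : WFK w12182 := fun D T h => wf_of_chk h (mem_cons (W1153 D T h) (mem_cons (W1063 D T h) mem_nil)) mem_nil cw12182
theorem W12183 : WFK w12183 := fun D T h => wf_of_chk h (mem_cons (W7114 D T h) (mem_cons (W804 D T h) mem_nil)) mem_nil cw12183
theorem W12184 : WFK w12184 := fun D T h => wf_of_chk h (mem_cons (W2888 D T h) (mem_cons (W1063 D T h) mem_nil)) mem_nil cw12184
theorem W12185 : WFK w12185 := fun D T h => wf_of_chk h (mem_cons (W2893 D T h) (mem_cons (W1063 D T h) mem_nil)) mem_nil cw12185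
theorem W12186 : WFK w12186 := fun D T h => wf_of_chk h mem_nil (mem_cons (L2839 D T h) mem_nil) cw12186
theorem L2841 : LFK l2841 := fun D T h => lf_of_chk h (mem_cons (W12167 D T h) (mem_cons (W2988 D T h) (mem_cons (W10868 D T h) (mem_cons (W3905 D T h) (mem_cons (W1063 D T h) (mem_cons (W8977 D T h) (mem_cons (W37 D T h) (mem_cons (W12169 D T h) (mem_cons (W12170 D T h) (mem_cons (W12178 D T h) (mem_cons (W12179 D T h) (mem_cons (W12184 D T h) (mem_cons (W12185 D T h) (mem_cons (W12180 D T h) (mem_cons (W9025 D T h) (mem_cons (W1213 D T h) (mem_cons (W12181 D T h) (mem_cons (W12182 D T h) (mem_cons (W1318 D T h) (mem_cons (W12171 D T h) (mem_cons (W12175 D T h) (mem_cons (W12176 D T h) (mem_cons (W11743 D T h) (mem_cons (W7864 D T h) (mem_cons (W9676 D T h) (mem_cons (W11038 D T h) (mem_cons (W12177 D T h) (mem_cons (W6380 D T h) (mem_cons (W12168 D T h) (mem_cons (W11135 D T h) (mem_cons (W12183 D T h) (mem_cons (W12186 D T h) mem_nil)))))))))))))))))))))))))))))))) cl2841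
theorem W12187 : WFK w12187 := fun D T h => wf_of_chk h mem_nil (mem_cons (L2841 D T h) mem_nil) cw12187
theorem W12188 : WFK w12188 := fun D T h => wf_of_chk h mem_nil (mem_cons (L1202 D T h) mem_nil) cw12188
theorem W12189 : WFK w12189 := fun D T h => wf_of_chk h mem_nil (mem_cons (L2755 D T h) mem_nil) cw12189
theorem W12190 : WFK w12190 := fun D T h => wf_of_chk h mem_nil (mem_cons (L605 D T h) mem_nil) cw12190
theorem W12191 : WFK w12191 := fun D T h => wf_of_chk h mem_nil (mem_cons (L743 D T h) mem_nil) cw12191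
theorem W12192 : WFK w12192 := fun D T h => wf_of_chk h (mem_cons (W16 D T h) mem_nil) mem_nil cw12192
theorem L2842 : LFK l2842 := fun D T h => lf_of_chk h (mem_cons (W263 D T h) (mem_cons (W3284 D T h) (mem_cons (W164 D T h) (mem_cons (W3518 D T h) (mem_cons (W2489 D T h) (mem_cons (W39 D T h) (mem_cons (W3 D T h) (mem_cons (W1412 D T h) (mem_cons (W220 D T h) (mem_cons (W1139 D T h) (mem_cons (W3148 D T h) (mem_cons (W350 D T h) (mem_cons (W349 D T h) (mem_cons (W815 D T h) (mem_cons (W12192 D T h) (mem_cons (W347 D T h) (mem_cons (W346 D T h) (mem_cons (W301 D T h) (mem_cons (W345 D T h) mem_nil))))))))))))))))))) cl2842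
theorem W12193 : WFK w12193 := fun D T h => wf_of_chk h mem_nil (mem_cons (L2842 D T h) mem_nil) cw12193
theorem L2843 : LFK l2843 := fun D T h => lf_of_chk h (mem_cons (W2170 D T h) (mem_cons (W1310 D T h) (mem_cons (W284 D T h) (mem_cons (W710 D T h) (mem_cons (W1063 D T h) (mem_cons (W16 D T h) (mem_cons (W1309 D T h) (mem_cons (W12191 D T h) (mem_cons (W7957 D T h) (mem_cons (W1458 D T h) (mem_cons (W7992 D T h) (mem_cons (W7622 D T h) (mem_cons (W50 D T h) (mem_cons (W12188 D T h) (mem_cons (W5194 D T h) (mem_cons (W7659 D T h) (mem_cons (W794 D T h) (mem_cons (W1188 D T h) (mem_cons (W7720 D T h) (mem_cons (W12189 D T h) (mem_cons (W8807 D T h) (mem_cons (W12190 D T h) (mem_cons (W12193 D T h) (mem_cons (W726 D T h) (mem_cons (W3202 D T h) (mem_cons (W5255 D T h) (mem_cons (W1062 D T h) (mem_cons (W10936 D T h) mem_nil)))))))))))))))))))))))))))) cl2843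
theorem W12194 : WFK w12194 := fun D T h => wf_of_chk h mem_nil (mem_cons (L2843 D T h) mem_nil) cw12194
theorem W12195 : WFK w12195 := fun D T h => wf_of_chk h mem_nil (mem_cons (L683 D T h) mem_nil) cw12195
theorem W12196 : WFK w12196 := fun D T h => wf_of_chk h mem_nil (mem_cons (L2224 D T h) mem_nil) cw12196
theorem W12197 : WFK w12197 := fun D T h => wf_of_chk h (mem_cons (W6797 D T h) (mem_cons (W16 D T h) mem_nil)) mem_nil cw12197
theorem W12198 : WFK w12198 := fun D T h => wf_of_chk h (mem_cons (W1326 D T h) (mem_cons (W16 D T h) mem_nil)) mem_nil cw12198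
theorem W12199 : WFK w12199 := fun D T h => wf_of_chk h (mem_cons (W448 D T h) (mem_cons (W16 D T h) mem_nil)) mem_nil cw12199
theorem W12200 : WFK w12200 := fun D T h => wf_of_chk h mem_nil (mem_cons (L2224 D T h) mem_nil) cw12200
theorem W12201 : WFK w12201 := fun D T h => wf_of_chk h mem_nil (mem_cons (L157 D T h) mem_nil) cw12201
theorem W12202 : WFK w12202 := fun D T h => wf_of_chk h (mem_cons (W155 D T h) (mem_cons (W16 D T h) mem_nil)) mem_nil cw12202
theorem W12203 : WFK w12203 := fun D T h => wf_of_chk h mem_nil (mem_cons (L671 D T h) mem_nil) cw12203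
theorem L2844 : LFK l2844 := fun D T h => lf_of_chk h (mem_cons (W2934 D T h) (mem_cons (W12203 D T h) (mem_cons (W9413 D T h) (mem_cons (W7466 D T h) (mem_cons (W42 D T h) (mem_cons (W164 D T h) (mem_cons (W16 D T h) (mem_cons (W3410 D T h) (mem_cons (W12196 D T h) (mem_cons (W12202 D T h) (mem_cons (W12199 D T h) (mem_cons (W1350 D T h) (mem_cons (W5258 D T h) (mem_cons (W220 D T h) (mem_cons (W6776 D T h) (mem_cons (W12197 D T h) (mem_cons (W5277 D T h) (mem_cons (W12198 D T h) (mem_cons (W12200 D T h) (mem_cons (W6976 D T h) (mem_cons (W10362 D T h) (mem_cons (W12201 D T h) (mem_cons (W11108 D T h) (mem_cons (W2936 D T h) mem_nil)))))))))))))))))))))))) cl2844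
theorem W12204 : WFK w12204 := fun D T h => wf_of_chk h mem_nil (mem_cons (L2844 D T h) mem_nil) cw12204
theorem W12205 : WFK w12205 := fun D T h => wf_of_chk h mem_nil (mem_cons (L2838 D T h) mem_nil) cw12205
theorem W12206 : WFK w12206 := fun D T h => wf_of_chk h (mem_cons (W8600 D T h) (mem_cons (W16 D T h) mem_nil)) mem_nil cw12206
theorem W12207 : WFK w12207 := fun D T h => wf_of_chk h (mem_cons (W1139 D T h) (mem_cons (W16 D T h) mem_nil)) mem_nil cw12207
theorem W12208 : WFK w12208 := fun D T h => wf_of_chk h mem_nil (mem_cons (L2844 D T h) mem_nil) cw12208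
theorem W12209 : WFK w12209 := fun D T h => wf_of_chk h (mem_cons (W6714 D T h) (mem_cons (W16 D T h) mem_nil)) mem_nil cw12209
theorem W12210 : WFK w12210 := fun D T h => wf_of_chk h (mem_cons (W8350 D T h) (mem_cons (W16 D T h) mem_nil)) mem_nil cw12210
theorem W12211 : WFK w12211 := fun D T h => wf_of_chk h (mem_cons (W448 D T h) (mem_cons (W220 D T h) mem_nil)) mem_nil cw12211
theorem W12212 : WFK w12212 := fun D T h => wf_of_chk h (mem_cons (W12211 D T h) (mem_cons (W16 D T h) mem_nil)) mem_nil cw12212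
theorem W12213 : WFK w12213 := fun D T h => wf_of_chk h (mem_cons (W7353 D T h) (mem_cons (W16 D T h) mem_nil)) mem_nil cw12213
theorem W12214 : WFK w12214 := fun D T h => wf_of_chk h (mem_cons (W6776 D T h) (mem_cons (W16 D T h) mem_nil)) mem_nil cw12214
theorem L2845 : LFK l2845 := fun D T h => lf_of_chk h (mem_cons (W220 D T h) (mem_cons (W42 D T h) (mem_cons (W69 D T h) (mem_cons (W33 D T h) (mem_cons (W80 D T h) (mem_cons (W871 D T h) (mem_cons (W1307 D T h) (mem_cons (W391 D T h) (mem_cons (W762 D T h) (mem_cons (W722 D T h) mem_nil)))))))))) cl2845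
theorem W12215 : WFK w12215 := fun D T h => wf_of_chk h mem_nil (mem_cons (L2845 D T h) mem_nil) cw12215
theorem W12216 : WFK w12216 := fun D T h => wf_of_chk h (mem_cons (W12215 D T h) (mem_cons (W16 D T h) mem_nil)) mem_nil cw12216
theorem W12217 : WFK w12217 := fun D T h => wf_of_chk h mem_nil (mem_cons (L268 D T h) mem_nil) cw12217
theorem L2846 : LFK l2846 := fun D T h => lf_of_chk h (mem_cons (W16 D T h) (mem_cons (W1318 D T h) (mem_cons (W15 D T h) (mem_cons (W5258 D T h) (mem_cons (W220 D T h) (mem_cons (W50 D T h) (mem_cons (W669 D T h) (mem_cons (W12217 D T h) (mem_cons (W6509 D T h) (mem_cons (W3878 D T h) (mem_cons (W2015 D T h) (mem_cons (W42 D T h) (mem_cons (W164 D T h) mem_nil))))))))))))) cl2846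
theorem W12218 : WFK w12218 := fun D T h => wf_of_chk h mem_nil (mem_cons (L2846 D T h) mem_nil) cw12218
theorem W12219 : WFK w12219 := fun D T h => wf_of_chk h mem_nil (mem_cons (L1881 D T h) mem_nil) cw12219
theorem W12220 : WFK w12220 := fun D T h => wf_of_chk h mem_nil (mem_cons (L1180 D T h) mem_nil) cw12220
theorem W12221 : WFK w12221 := fun D T h => wf_of_chk h mem_nil (mem_cons (L2023 D T h) mem_nil) cw12221
theorem W12222 : WFK w12222 := fun D T h => wf_of_chk h (mem_cons (W6935 D T h) (mem_cons (W16 D T h) mem_nil)) mem_nil cw12222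
theorem W12223 : WFK w12223 := fun D T h => wf_of_chk h (mem_cons (W970 D T h) (mem_cons (W16 D T h) mem_nil)) mem_nil cw12223
theorem W12224 : WFK w12224 := fun D T h => wf_of_chk h (mem_cons (W164 D T h) (mem_cons (W220 D T h) mem_nil)) mem_nil cw12224
theorem W12225 : WFK w12225 := fun D T h => wf_of_chk h (mem_cons (W12224 D T h) (mem_cons (W16 D T h) mem_nil)) mem_nil cw12225
theorem W12226 : WFK w12226 := fun D T h => wf_of_chk h mem_nil (mem_cons (L2845 D T h) mem_nil) cw12226
theorem W12227 : WFK w12227 := fun D T h => wf_of_chk h (mem_cons (W12226 D T h) (mem_cons (W16 D T h) mem_nil)) mem_nil cw12227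
theorem W12228 : WFK w12228 := fun D T h => wf_of_chk h (mem_cons (W10693 D T h) (mem_cons (W16 D T h) mem_nil)) mem_nil cw12228
theorem W12229 : WFK w12229 := fun D T h => wf_of_chk h (mem_cons (W164 D T h) (mem_cons (W16 D T h) mem_nil)) mem_nil cw12229
theorem W12230 : WFK w12230 := fun D T h => wf_of_chk h (mem_cons (W162 D T h) (mem_cons (W12229 D T h) mem_nil)) mem_nil cw12230
theorem W12231 : WFK w12231 := fun D T h => wf_of_chk h mem_nil (mem_cons (L1898 D T h) mem_nil) cw12231
theorem W12232 : WFK w12232 := fun D T h => wf_of_chk h mem_nil (mem_cons (L1898 D T h) mem_nil) cw12232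
theorem W12233 : WFK w12233 := fun D T h => wf_of_chk h (mem_cons (W178 D T h) (mem_cons (W16 D T h) mem_nil)) mem_nil cw12233
theorem W12237 : WFK w12237 := fun D T h => wf_of_chk h mem_nil (mem_cons (L1350 D T h) mem_nil) cw12237
theorem L2848 : LFK l2848 := fun D T h => lf_of_chk h (mem_cons (W871 D T h) (mem_cons (W903 D T h) (mem_cons (W96 D T h) (mem_cons (W1245 D T h) (mem_cons (W864 D T h) (mem_cons (W6960 D T h) (mem_cons (W5537 D T h) mem_nil))))))) cl2848
theorem L2851 : LFK l2851 := fun D T h => lf_of_chk h (mem_cons (W128 D T h) (mem_cons (W581 D T h) (mem_cons (W15 D T h) (mem_cons (W219 D T h) (mem_cons (W1064 D T h) (mem_cons (W1352 D T h) (mem_cons (W4531 D T h) (mem_cons (W4038 D T h) (mem_cons (W8209 D T h) mem_nil))))))))) cl2851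
theorem W12250 : WFK w12250 := fun D T h => wf_of_chk h mem_nil (mem_cons (L2851 D T h) mem_nil) cw12250
theorem W12251 : WFK w12251 := fun D T h => wf_of_chk h (mem_cons (W12250 D T h) (mem_cons (W16 D T h) mem_nil)) mem_nil cw12251
theorem W12252 : WFK w12252 := fun D T h => wf_of_chk h (mem_cons (W6776 D T h) (mem_cons (W16 D T h) mem_nil)) mem_nil cw12252
theorem W12253 : WFK w12253 := fun D T h => wf_of_chk h (mem_cons (W10693 D T h) (mem_cons (W16 D T h) mem_nil)) mem_nil cw12253
theorem W12254 : WFK w12254 := fun D T h => wf_of_chk h (mem_cons (W162 D T h) (mem_cons (W12201 D T h) mem_nil)) mem_nil cw12254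
theorem L2852 : LFK l2852 := fun D T h => lf_of_chk h (mem_cons (W8435 D T h) (mem_cons (W3926 D T h) (mem_cons (W12231 D T h) (mem_cons (W9025 D T h) (mem_cons (W5209 D T h) (mem_cons (W16 D T h) (mem_cons (W1502 D T h) (mem_cons (W2963 D T h) (mem_cons (W12228 D T h) (mem_cons (W12230 D T h) (mem_cons (W2934 D T h) (mem_cons (W12223 D T h) (mem_cons (W50 D T h) (mem_cons (W669 D T h) (mem_cons (W284 D T h) (mem_cons (W12225 D T h) (mem_cons (W12227 D T h) (mem_cons (W6750 D T h) (mem_cons (W12216 D T h) (mem_cons (W12253 D T h) (mem_cons (W12254 D T h) (mem_cons (W12233 D T h) (mem_cons (W12251 D T h) (mem_cons (W12252 D T h) (mem_cons (W12215 D T h) (mem_cons (W7421 D T h) (mem_cons (W12232 D T h) mem_nil))))))))))))))))))))))))))) cl2852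
theorem W12255 : WFK w12255 := fun D T h => wf_of_chk h mem_nil (mem_cons (L2852 D T h) mem_nil) cw12255
theorem W12256 : WFK w12256 := fun D T h => wf_of_chk h mem_nil (mem_cons (L2116 D T h) mem_nil) cw12256
theorem W12257 : WFK w12257 := fun D T h => wf_of_chk h mem_nil (mem_cons (L142 D T h) mem_nil) cw12257
theorem W12258 : WFK w12258 := fun D T h => wf_of_chk h mem_nil (mem_cons (L898 D T h) mem_nil) cw12258
theorem L2853 : LFK l2853 := fun D T h => lf_of_chk h (mem_cons (W3878 D T h) (mem_cons (W1318 D T h) (mem_cons (W1 D T h) (mem_cons (W1317 D T h) (mem_cons (W126 D T h) (mem_cons (W69 D T h) (mem_cons (W9005 D T h) (mem_cons (W12256 D T h) (mem_cons (W6509 D T h) (mem_cons (W12257 D T h) (mem_cons (W8500 D T h) (mem_cons (W12258 D T h) (mem_cons (W8640 D T h) mem_nil))))))))))))) cl2853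
theorem W12259 : WFK w12259 := fun D T h => wf_of_chk h mem_nil (mem_cons (L2853 D T h) mem_nil) cw12259
theorem W12260 : WFK w12260 := fun D T h => wf_of_chk h (mem_cons (W12199 D T h) (mem_cons (W162 D T h) mem_nil)) mem_nil cw12260
theorem W12261 : WFK w12261 := fun D T h => wf_of_chk h mem_nil (mem_cons (L1509 D T h) mem_nil) cw12261
theorem W12262 : WFK w12262 := fun D T h => wf_of_chk h mem_nil (mem_cons (L2023 D T h) mem_nil) cw12262
theorem W12263 : WFK w12263 := fun D T h => wf_of_chk h (mem_cons (W5212 D T h) (mem_cons (W16 D T h) mem_nil)) mem_nil cw12263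
theorem W12264 : WFK w12264 := fun D T h => wf_of_chk h (mem_cons (W155 D T h) (mem_cons (W162 D T h) mem_nil)) mem_nil cw12264
theorem W12265 : WFK w12265 := fun D T h => wf_of_chk h (mem_cons (W12264 D T h) (mem_cons (W16 D T h) mem_nil)) mem_nil cw12265
theorem W12266 : WFK w12266 := fun D T h => wf_of_chk h (mem_cons (W1599 D T h) (mem_cons (W162 D T h) mem_nil)) mem_nil cw12266
theorem W12267 : WFK w12267 := fun D T h => wf_of_chk h (mem_cons (W2623 D T h) (mem_cons (W16 D T h) mem_nil)) mem_nil cw12267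
theorem W12268 : WFK w12268 := fun D T h => wf_of_chk h (mem_cons (W6714 D T h) (mem_cons (W16 D T h) mem_nil)) mem_nil cw12268
theorem W12271 : WFK w12271 := fun D T h => wf_of_chk h mem_nil (mem_cons (L268 D T h) mem_nil) cw12271
theorem W12273 : WFK w12273 := fun D T h => wf_of_chk h mem_nil (mem_cons (L1579 D T h) mem_nil) cw12273
theorem W12275 : WFK w12275 := fun D T h => wf_of_chk h mem_nil (mem_cons (L1713 D T h) mem_nil) cw12275
theorem W12279 : WFK w12279 := fun D T h => wf_of_chk h mem_nil (mem_cons (L268 D T h) mem_nil) cw12279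
theorem W12280 : WFK w12280 := fun D T h => wf_of_chk h mem_nil (mem_cons (L1272 D T h) mem_nil) cw12280
theorem W12283 : WFK w12283 := fun D T h => wf_of_chk h (mem_cons (W2934 D T h) (mem_cons (W162 D T h) mem_nil)) mem_nil cw12283
theorem L2855 : LFK l2855 := fun D T h => lf_of_chk h (mem_cons (W12208 D T h) (mem_cons (W12262 D T h) (mem_cons (W12266 D T h) (mem_cons (W9025 D T h) (mem_cons (W12203 D T h) (mem_cons (W16 D T h) (mem_cons (W2037 D T h) (mem_cons (W9505 D T h) (mem_cons (W12209 D T h) (mem_cons (W12265 D T h) (mem_cons (W12260 D T h) (mem_cons (W12210 D T h) (mem_cons (W50 D T h) (mem_cons (W669 D T h) (mem_cons (W284 D T h) (mem_cons (W12212 D T h) (mem_cons (W12213 D T h) (mem_cons (W12214 D T h) (mem_cons (W162 D T h) (mem_cons (W1502 D T h) (mem_cons (W2963 D T h) (mem_cons (W12233 D T h) (mem_cons (W1362 D T h) (mem_cons (W12271 D T h) (mem_cons (W12261 D T h) (mem_cons (W8234 D T h) (mem_cons (W10778 D T h) (mem_cons (W7400 D T h) (mem_cons (W3926 D T h) (mem_cons (W12263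 D T h) (mem_cons (W12254 D T h) (mem_cons (W7864 D T h) (mem_cons (W12267 D T h) (mem_cons (W12283 D T h) mem_nil)))))))))))))))))))))))))))))))))) cl2855
theorem W12284 : WFK w12284 := fun D T h => wf_of_chk h mem_nil (mem_cons (L2855 D T h) mem_nil) cw12284
theorem L2856 : LFK l2856 := fun D T h => lf_of_chk h (mem_cons (W12208 D T h) (mem_cons (W3926 D T h) (mem_cons (W12231 D T h) (mem_cons (W9025 D T h) (mem_cons (W12268 D T h) (mem_cons (W16 D T h) (mem_cons (W284 D T h) (mem_cons (W7942 D T h) (mem_cons (W12209 D T h) (mem_cons (W12228 D T h) (mem_cons (W12230 D T h) (mem_cons (W2934 D T h) (mem_cons (W12216 D T h) (mem_cons (W12210 D T h) (mem_cons (W50 D T h) (mem_cons (W669 D T h) (mem_cons (W12212 D T h) (mem_cons (W12227 D T h) (mem_cons (W6750 D T h) (mem_cons (W2963 D T h) (mem_cons (W12233 D T h) (mem_cons (W12261 D T h) (mem_cons (W5209 D T h) (mem_cons (W12215 D T h) (mem_cons (W7375 D T h) (mem_cons (W7864 D T h) (mem_cons (W12267 D T h) (mem_cons (W8435 D T h) mem_nil))))))))))))))))))))))))))))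 cl2856
theorem W12285 : WFK w12285 := fun D T h => wf_of_chk h mem_nil (mem_cons (L2856 D T h) mem_nil) cw12285
theorem W12286 : WFK w12286 := fun D T h => wf_of_chk h (mem_cons (W1599 D T h) (mem_cons (W164 D T h) mem_nil)) mem_nil cw12286
theorem W12287 : WFK w12287 := fun D T h => wf_of_chk h (mem_cons (W1599 D T h) (mem_cons (W162 D T h) mem_nil)) mem_nil cw12287
theorem W12288 : WFK w12288 := fun D T h => wf_of_chk h (mem_cons (W2934 D T h) (mem_cons (W162 D T h) mem_nil)) mem_nil cw12288
theorem W12289 : WFK w12289 := fun D T h => wf_of_chk h (mem_cons (W12229 D T h) (mem_cons (W164 D T h) mem_nil)) mem_nil cw12289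
theorem W12290 : WFK w12290 := fun D T h => wf_of_chk h mem_nil (mem_cons (L883 D T h) mem_nil) cw12290
theorem W12291 : WFK w12291 := fun D T h => wf_of_chk h mem_nil (mem_cons (L1881 D T h) mem_nil) cw12291
theorem W12292 : WFK w12292 := fun D T h => wf_of_chk h (mem_cons (W2022 D T h) (mem_cons (W162 D T h) mem_nil)) mem_nil cw12292
theorem W12293 : WFK w12293 := fun D T h => wf_of_chk h mem_nil (mem_cons (L2846 D T h) mem_nil) cw12293
theorem W12294 : WFK w12294 := fun D T h => wf_of_chk h (mem_cons (W155 D T h) (mem_cons (W16 D T h) mem_nil)) mem_nil cw12294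
theorem W12295 : WFK w12295 := fun D T h => wf_of_chk h (mem_cons (W12294 D T h) (mem_cons (W162 D T h) mem_nil)) mem_nil cw12295
theorem W12296 : WFK w12296 := fun D T h => wf_of_chk h (mem_cons (W12203 D T h) (mem_cons (W162 D T h) mem_nil)) mem_nil cw12296
theorem L2857 : LFK l2857 := fun D T h => lf_of_chk h (mem_cons (W12218 D T h) (mem_cons (W12286 D T h) (mem_cons (W12287 D T h) (mem_cons (W9025 D T h) (mem_cons (W3408 D T h) (mem_cons (W16 D T h) (mem_cons (W1291 D T h) (mem_cons (W12229 D T h) (mem_cons (W12290 D T h) (mem_cons (W11743 D T h) (mem_cons (W2683 D T h) (mem_cons (W12291 D T h) (mem_cons (W5255 D T h) (mem_cons (W1318 D T h) (mem_cons (W2989 D T h) (mem_cons (W12295 D T h) (mem_cons (W12296 D T h) (mem_cons (W2934 D T h) (mem_cons (W12288 D T h) (mem_cons (W12292 D T h) (mem_cons (W284 D T h) (mem_cons (W12293 D T h) (mem_cons (W12207 D T h) (mem_cons (W8292 D T h) (mem_cons (W12220 D T h) (mem_cons (W12221 D T h) (mem_cons (W12222 D T h) (mem_cons (W12289 D T h) mem_nil))))))))))))))))))))))))))))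 cl2857
theorem W12297 : WFK w12297 := fun D T h => wf_of_chk h mem_nil (mem_cons (L2857 D T h) mem_nil) cw12297
theorem W12298 : WFK w12298 := fun D T h => wf_of_chk h mem_nil (mem_cons (L1915 D T h) mem_nil) cw12298
theorem W12299 : WFK w12299 := fun D T h => wf_of_chk h mem_nil (mem_cons (L2597 D T h) mem_nil) cw12299
theorem W12300 : WFK w12300 := fun D T h => wf_of_chk h mem_nil (mem_cons (L1898 D T h) mem_nil) cw12300
theorem W12301 : WFK w12301 := fun D T h => wf_of_chk h (mem_cons (W39 D T h) (mem_cons (W16 D T h) mem_nil)) mem_nil cw12301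
theorem W12306 : WFK w12306 := fun D T h => wf_of_chk h (mem_cons (W8980 D T h) (mem_cons (W16 D T h) mem_nil)) mem_nil cw12306
theorem W12313 : WFK w12313 := fun D T h => wf_of_chk h mem_nil (mem_cons (L1818 D T h) mem_nil) cw12313
theorem W12320 : WFK w12320 := fun D T h => wf_of_chk h (mem_cons (W39 D T h) (mem_cons (W16 D T h) mem_nil)) mem_nil cw12320
theorem W12321 : WFK w12321 := fun D T h => wf_of_chk h mem_nil (mem_cons (L1898 D T h) mem_nil) cw12321
theorem L2859 : LFK l2859 := fun D T h => lf_of_chk h (mem_cons (W1737 D T h) (mem_cons (W891 D T h) (mem_cons (W6961 D T h) (mem_cons (W3381 D T h) (mem_cons (W10675 D T h) mem_nil))))) cl2859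
theorem W12322 : WFK w12322 := fun D T h => wf_of_chk h mem_nil (mem_cons (L2859 D T h) mem_nil) cw12322
theorem W12323 : WFK w12323 := fun D T h => wf_of_chk h mem_nil mem_nil cw12323
theorem W12324 : WFK w12324 := fun D T h => wf_of_chk h mem_nil (mem_cons (L1609 D T h) mem_nil) cw12324
theorem L2860 : LFK l2860 := fun D T h => lf_of_chk h (mem_cons (W6719 D T h) (mem_cons (W13 D T h) (mem_cons (W12322 D T h) (mem_cons (W7719 D T h) (mem_cons (W3766 D T h) (mem_cons (W16 D T h) (mem_cons (W10099 D T h) (mem_cons (W6204 D T h) (mem_cons (W12323 D T h) (mem_cons (W9277 D T h) (mem_cons (W12324 D T h) (mem_cons (W149 D T h) (mem_cons (W9939 D T h) mem_nil))))))))))))) cl2860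
theorem W12325 : WFK w12325 := fun D T h => wf_of_chk h mem_nil (mem_cons (L2860 D T h) mem_nil) cw12325
theorem W12326 : WFK w12326 := fun D T h => wf_of_chk h mem_nil mem_nil cw12326
theorem W12327 : WFK w12327 := fun D T h => wf_of_chk h (mem_cons (W12326 D T h) (mem_cons (W16 D T h) mem_nil)) mem_nil cw12327
theorem W12328 : WFK w12328 := fun D T h => wf_of_chk h (mem_cons (W220 D T h) (mem_cons (W2936 D T h) mem_nil)) mem_nil cw12328
theorem W12329 : WFK w12329 := fun D T h => wf_of_chk h mem_nil (mem_cons (L1170 D T h) mem_nil) cw12329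
theorem W12330 : WFK w12330 := fun D T h => wf_of_chk h (mem_cons (W12329 D T h) (mem_cons (W16 D T h) mem_nil)) mem_nil cw12330
theorem W12333 : WFK w12333 := fun D T h => wf_of_chk h mem_nil (mem_cons (L1700 D T h) mem_nil) cw12333
theorem W12335 : WFK w12335 := fun D T h => wf_of_chk h mem_nil (mem_cons (L1700 D T h) mem_nil) cw12335
theorem W12337 : WFK w12337 := fun D T h => wf_of_chk h mem_nil (mem_cons (L1253 D T h) mem_nil) cw12337
theorem W12342 : WFK w12342 := fun D T h => wf_of_chk h mem_nil mem_nil cw12342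
theorem W12344 : WFK w12344 := fun D T h => wf_of_chk h mem_nil (mem_cons (L1700 D T h) mem_nil) cw12344
theorem W12346 : WFK w12346 := fun D T h => wf_of_chk h (mem_cons (W448 D T h) mem_nil) mem_nil cw12346
theorem W12347 : WFK w12347 := fun D T h => wf_of_chk h (mem_cons (W12346 D T h) (mem_cons (W16 D T h) mem_nil)) mem_nil cw12347
theorem W12348 : WFK w12348 := fun D T h => wf_of_chk h mem_nil (mem_cons (L2472 D T h) mem_nil) cw12348
theorem W12349 : WFK w12349 := fun D T h => wf_of_chk h (mem_cons (W8210 D T h) (mem_cons (W16 D T h) mem_nil)) mem_nil cw12349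
theorem L2864 : LFK l2864 := fun D T h => lf_of_chk h (mem_cons (W3766 D T h) (mem_cons (W16 D T h) (mem_cons (W11796 D T h) (mem_cons (W39 D T h) (mem_cons (W3779 D T h) (mem_cons (W12344 D T h) (mem_cons (W1713 D T h) (mem_cons (W12333 D T h) mem_nil)))))))) cl2864
theorem W12350 : WFK w12350 := fun D T h => wf_of_chk h mem_nil (mem_cons (L2864 D T h) mem_nil) cw12350
theorem W12351 : WFK w12351 := fun D T h => wf_of_chk h (mem_cons (W12350 D T h) (mem_cons (W16 D T h) mem_nil)) mem_nil cw12351
theorem W12352 : WFK w12352 := fun D T h => wf_of_chk h (mem_cons (W155 D T h) mem_nil) mem_nil cw12352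
theorem W12353 : WFK w12353 := fun D T h => wf_of_chk h (mem_cons (W12352 D T h) (mem_cons (W16 D T h) mem_nil)) mem_nil cw12353
theorem W12354 : WFK w12354 := fun D T h => wf_of_chk h (mem_cons (W970 D T h) (mem_cons (W16 D T h) mem_nil)) mem_nil cw12354
theorem W12355 : WFK w12355 := fun D T h => wf_of_chk h mem_nil mem_nil cw12355
theorem L2865 : LFK l2865 := fun D T h => lf_of_chk h (mem_cons (W6719 D T h) (mem_cons (W8609 D T h) (mem_cons (W12322 D T h) (mem_cons (W390 D T h) (mem_cons (W16 D T h) (mem_cons (W6204 D T h) (mem_cons (W10099 D T h) (mem_cons (W12355 D T h) (mem_cons (W7719 D T h) (mem_cons (W3766 D T h) (mem_cons (W9939 D T h) (mem_cons (W13 D T h) mem_nil)))))))))))) cl2865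
theorem W12356 : WFK w12356 := fun D T h => wf_of_chk h mem_nil (mem_cons (L2865 D T h) mem_nil) cw12356
theorem W12357 : WFK w12357 := fun D T h => wf_of_chk h mem_nil mem_nil cw12357
theorem W12358 : WFK w12358 := fun D T h => wf_of_chk h (mem_cons (W12357 D T h) (mem_cons (W16 D T h) mem_nil)) mem_nil cw12358
theorem W12359 : WFK w12359 := fun D T h => wf_of_chk h (mem_cons (W448 D T h) mem_nil) mem_nil cw12359
theorem W12360 : WFK w12360 := fun D T h => wf_of_chk h (mem_cons (W12359 D T h) (mem_cons (W16 D T h) mem_nil)) mem_nil cw12360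
theorem W12362 : WFK w12362 := fun D T h => wf_of_chk h mem_nil mem_nil cw12362
theorem W12364 : WFK w12364 := fun D T h => wf_of_chk h (mem_cons (W2489 D T h) mem_nil) mem_nil cw12364
theorem W12365 : WFK w12365 := fun D T h => wf_of_chk h mem_nil (mem_cons (L1557 D T h) mem_nil) cw12365
theorem W12366 : WFK w12366 := fun D T h => wf_of_chk h mem_nil (mem_cons (L1557 D T h) mem_nil) cw12366
theorem W12367 : WFK w12367 := fun D T h => wf_of_chk h (mem_cons (W401 D T h) mem_nil) mem_nil cw12367
theorem L2867 : LFK l2867 := fun D T h => lf_of_chk h (mem_cons (W6719 D T h) (mem_cons (W3766 D T h) (mem_cons (W16 D T h) (mem_cons (W1326 D T h) (mem_cons (W9277 D T h) (mem_cons (W6797 D T h) (mem_cons (W5841 D T h) (mem_cons (W12367 D T h) (mem_cons (W12364 D T h) (mem_cons (W149 D T h) (mem_cons (W7719 D T h) mem_nil))))))))))) cl2867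
theorem W12368 : WFK w12368 := fun D T h => wf_of_chk h mem_nil (mem_cons (L2867 D T h) mem_nil) cw12368
theorem L2868 : LFK l2868 := fun D T h => lf_of_chk h (mem_cons (W12231 D T h) (mem_cons (W12300 D T h) (mem_cons (W12321 D T h) (mem_cons (W9025 D T h) (mem_cons (W2709 D T h) (mem_cons (W16 D T h) (mem_cons (W2051 D T h) (mem_cons (W12325 D T h) (mem_cons (W8419 D T h) (mem_cons (W12353 D T h) (mem_cons (W12347 D T h) (mem_cons (W12327 D T h) (mem_cons (W1695 D T h) (mem_cons (W1227 D T h) (mem_cons (W3958 D T h) (mem_cons (W284 D T h) (mem_cons (W12328 D T h) (mem_cons (W7293 D T h) (mem_cons (W12330 D T h) (mem_cons (W12356 D T h) (mem_cons (W12368 D T h) (mem_cons (W12360 D T h) (mem_cons (W12358 D T h) (mem_cons (W6719 D T h) (mem_cons (W12348 D T h) (mem_cons (W10774 D T h) (mem_cons (W10775 D T h) (mem_cons (W7425 D T h) (mem_cons (W8769 D T h) (mem_cons (W12349 D T h) (mem_cons (W12351 D T h) (mem_cons (W12354 D T h) mem_nil)))))))))))))))))))))))))))))))) cl2868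
theorem W12369 : WFK w12369 := fun D T h => wf_of_chk h mem_nil (mem_cons (L2868 D T h) mem_nil) cw12369
theorem W12370 : WFK w12370 := fun D T h => wf_of_chk h mem_nil (mem_cons (L654 D T h) mem_nil) cw12370
theorem W12371 : WFK w12371 := fun D T h => wf_of_chk h (mem_cons (W10695 D T h) mem_nil) mem_nil cw12371
theorem W12372 : WFK w12372 := fun D T h => wf_of_chk h mem_nil (mem_cons (L1181 D T h) mem_nil) cw12372
theorem W12373 : WFK w12373 := fun D T h => wf_of_chk h (mem_cons (W8505 D T h) (mem_cons (W16 D T h) mem_nil)) mem_nil cw12373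
theorem W12374 : WFK w12374 := fun D T h => wf_of_chk h mem_nil (mem_cons (L751 D T h) mem_nil) cw12374
theorem W12375 : WFK w12375 := fun D T h => wf_of_chk h (mem_cons (W8350 D T h) (mem_cons (W16 D T h) mem_nil)) mem_nil cw12375
theorem W12376 : WFK w12376 := fun D T h => wf_of_chk h mem_nil mem_nil cw12376
theorem W12377 : WFK w12377 := fun D T h => wf_of_chk h mem_nil (mem_cons (L2642 D T h) mem_nil) cw12377
theorem L2869 : LFK l2869 := fun D T h => lf_of_chk h (mem_cons (W2031 D T h) (mem_cons (W114 D T h) (mem_cons (W368 D T h) (mem_cons (W126 D T h) (mem_cons (W3409 D T h) (mem_cons (W17 D T h) (mem_cons (W721 D T h) (mem_cons (W267 D T h) (mem_cons (W12376 D T h) (mem_cons (W12377 D T h) (mem_cons (W12357 D T h) mem_nil))))))))))) cl2869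
theorem W12378 : WFK w12378 := fun D T h => wf_of_chk h mem_nil (mem_cons (L2869 D T h) mem_nil) cw12378
theorem W12379 : WFK w12379 := fun D T h => wf_of_chk h mem_nil (mem_cons (L544 D T h) mem_nil) cw12379
theorem L2870 : LFK l2870 := fun D T h => lf_of_chk h (mem_cons (W4015 D T h) (mem_cons (W2963 D T h) (mem_cons (W284 D T h) (mem_cons (W126 D T h) (mem_cons (W6719 D T h) (mem_cons (W267 D T h) (mem_cons (W12203 D T h) (mem_cons (W2936 D T h) (mem_cons (W12262 D T h) (mem_cons (W12372 D T h) (mem_cons (W12373 D T h) (mem_cons (W12375 D T h) (mem_cons (W7577 D T h) (mem_cons (W12232 D T h) (mem_cons (W12231 D T h) (mem_cons (W721 D T h) (mem_cons (W16 D T h) (mem_cons (W702 D T h) (mem_cons (W1350 D T h) (mem_cons (W12379 D T h) (mem_cons (W12378 D T h) (mem_cons (W50 D T h) (mem_cons (W669 D T h) (mem_cons (W10696 D T h) (mem_cons (W11569 D T h) (mem_cons (W12299 D T h) (mem_cons (W1533 D T h) (mem_cons (W12369 D T h) (mem_cons (W12370 D T h) (mem_cons (W12374 D T h) (mem_cons (W281 D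 T h) (mem_cons (W69 D T h) mem_nil)))))))))))))))))))))))))))))))) cl2870
theorem W12380 : WFK w12380 := fun D T h => wf_of_chk h mem_nil (mem_cons (L2870 D T h) mem_nil) cw12380
theorem W12381 : WFK w12381 := fun D T h => wf_of_chk h (mem_cons (W105 D T h) (mem_cons (W16 D T h) mem_nil)) mem_nil cw12381
theorem W12382 : WFK w12382 := fun D T h => wf_of_chk h mem_nil mem_nil cw12382
theorem L2871 : LFK l2871 := fun D T h => lf_of_chk h (mem_cons (W6719 D T h) (mem_cons (W13 D T h) (mem_cons (W12322 D T h) (mem_cons (W7719 D T h) (mem_cons (W3766 D T h) (mem_cons (W16 D T h) (mem_cons (W10099 D T h) (mem_cons (W6204 D T h) (mem_cons (W12382 D T h) (mem_cons (W9277 D T h) (mem_cons (W12324 D T h) (mem_cons (W149 D T h) (mem_cons (W9939 D T h) mem_nil))))))))))))) cl2871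
theorem W12383 : WFK w12383 := fun D T h => wf_of_chk h mem_nil (mem_cons (L2871 D T h) mem_nil) cw12383
theorem W12384 : WFK w12384 := fun D T h => wf_of_chk h mem_nil mem_nil cw12384
theorem W12385 : WFK w12385 := fun D T h => wf_of_chk h (mem_cons (W12384 D T h) (mem_cons (W16 D T h) mem_nil)) mem_nil cw12385
theorem W12386 : WFK w12386 := fun D T h => wf_of_chk h mem_nil (mem_cons (L1699 D T h) mem_nil) cw12386
theorem W12390 : WFK w12390 := fun D T h => wf_of_chk h mem_nil (mem_cons (L1699 D T h) mem_nil) cw12390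
theorem W12392 : WFK w12392 := fun D T h => wf_of_chk h (mem_cons (W448 D T h) mem_nil) mem_nil cw12392
theorem W12393 : WFK w12393 := fun D T h => wf_of_chk h (mem_cons (W12392 D T h) (mem_cons (W16 D T h) mem_nil)) mem_nil cw12393
theorem W12394 : WFK w12394 := fun D T h => wf_of_chk h mem_nil (mem_cons (L2673 D T h) mem_nil) cw12394
theorem L2875 : LFK l2875 := fun D T h => lf_of_chk h (mem_cons (W3766 D T h) (mem_cons (W16 D T h) (mem_cons (W12394 D T h) (mem_cons (W39 D T h) (mem_cons (W3795 D T h) (mem_cons (W12390 D T h) (mem_cons (W1713 D T h) (mem_cons (W12386 D T h) mem_nil)))))))) cl2875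
theorem W12395 : WFK w12395 := fun D T h => wf_of_chk h mem_nil (mem_cons (L2875 D T h) mem_nil) cw12395
theorem W12396 : WFK w12396 := fun D T h => wf_of_chk h (mem_cons (W12395 D T h) (mem_cons (W16 D T h) mem_nil)) mem_nil cw12396
theorem W12397 : WFK w12397 := fun D T h => wf_of_chk h (mem_cons (W155 D T h) mem_nil) mem_nil cw12397
theorem W12398 : WFK w12398 := fun D T h => wf_of_chk h (mem_cons (W12397 D T h) (mem_cons (W16 D T h) mem_nil)) mem_nil cw12398
theorem W12399 : WFK w12399 := fun D T h => wf_of_chk h mem_nil mem_nil cw12399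
theorem L2876 : LFK l2876 := fun D T h => lf_of_chk h (mem_cons (W6719 D T h) (mem_cons (W8609 D T h) (mem_cons (W12322 D T h) (mem_cons (W390 D T h) (mem_cons (W16 D T h) (mem_cons (W6204 D T h) (mem_cons (W10099 D T h) (mem_cons (W12399 D T h) (mem_cons (W7719 D T h) (mem_cons (W3766 D T h) (mem_cons (W9939 D T h) (mem_cons (W13 D T h) mem_nil)))))))))))) cl2876
theorem W12400 : WFK w12400 := fun D T h => wf_of_chk h mem_nil (mem_cons (L2876 D T h) mem_nil) cw12400
theorem W12401 : WFK w12401 := fun D T h => wf_of_chk h (mem_cons (W12357 D T h) (mem_cons (W16 D T h) mem_nil)) mem_nil cw12401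
theorem W12402 : WFK w12402 := fun D T h => wf_of_chk h (mem_cons (W448 D T h) mem_nil) mem_nil cw12402
theorem W12403 : WFK w12403 := fun D T h => wf_of_chk h (mem_cons (W12402 D T h) (mem_cons (W16 D T h) mem_nil)) mem_nil cw12403
theorem L2877 : LFK l2877 := fun D T h => lf_of_chk h (mem_cons (W831 D T h) (mem_cons (W12362 D T h) (mem_cons (W2355 D T h) (mem_cons (W2349 D T h) (mem_cons (W4601 D T h) (mem_cons (W233 D T h) (mem_cons (W193 D T h) mem_nil))))))) cl2877
theorem W12405 : WFK w12405 := fun D T h => wf_of_chk h (mem_cons (W2489 D T h) mem_nil) mem_nil cw12405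
theorem W12406 : WFK w12406 := fun D T h => wf_of_chk h (mem_cons (W401 D T h) mem_nil) mem_nil cw12406
theorem L2878 : LFK l2878 := fun D T h => lf_of_chk h (mem_cons (W6719 D T h) (mem_cons (W3766 D T h) (mem_cons (W16 D T h) (mem_cons (W1326 D T h) (mem_cons (W9277 D T h) (mem_cons (W6797 D T h) (mem_cons (W5841 D T h) (mem_cons (W12406 D T h) (mem_cons (W12405 D T h) (mem_cons (W149 D T h) (mem_cons (W7719 D T h) mem_nil))))))))))) cl2878
theorem W12407 : WFK w12407 := fun D T h => wf_of_chk h mem_nil (mem_cons (L2878 D T h) mem_nil) cw12407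
theorem L2879 : LFK l2879 := fun D T h => lf_of_chk h (mem_cons (W12231 D T h) (mem_cons (W12300 D T h) (mem_cons (W12321 D T h) (mem_cons (W6719 D T h) (mem_cons (W2709 D T h) (mem_cons (W16 D T h) (mem_cons (W2051 D T h) (mem_cons (W12383 D T h) (mem_cons (W8419 D T h) (mem_cons (W12398 D T h) (mem_cons (W12393 D T h) (mem_cons (W12385 D T h) (mem_cons (W1695 D T h) (mem_cons (W1227 D T h) (mem_cons (W3958 D T h) (mem_cons (W284 D T h) (mem_cons (W12328 D T h) (mem_cons (W7293 D T h) (mem_cons (W12330 D T h) (mem_cons (W12400 D T h) (mem_cons (W12407 D T h) (mem_cons (W12403 D T h) (mem_cons (W12401 D T h) (mem_cons (W12348 D T h) (mem_cons (W10774 D T h) (mem_cons (W10775 D T h) (mem_cons (W7425 D T h) (mem_cons (W8769 D T h) (mem_cons (W12349 D T h) (mem_cons (W12396 D T h) (mem_cons (W12354 D T h) mem_nil))))))))))))))))))))))))))))))) cl2879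
theorem W12408 : WFK w12408 := fun D T h => wf_of_chk h mem_nil (mem_cons (L2879 D T h) mem_nil) cw12408
theorem W12409 : WFK w12409 := fun D T h => wf_of_chk h mem_nil (mem_cons (L1499 D T h) mem_nil) cw12409
theorem W12410 : WFK w12410 := fun D T h => wf_of_chk h mem_nil (mem_cons (L1551 D T h) mem_nil) cw12410
theorem W12411 : WFK w12411 := fun D T h => wf_of_chk h mem_nil (mem_cons (L1877 D T h) mem_nil) cw12411
theorem W12412 : WFK w12412 := fun D T h => wf_of_chk h mem_nil (mem_cons (L2869 D T h) mem_nil) cw12412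
theorem W12413 : WFK w12413 := fun D T h => wf_of_chk h mem_nil (mem_cons (L473 D T h) mem_nil) cw12413
theorem L2880 : LFK l2880 := fun D T h => lf_of_chk h (mem_cons (W3990 D T h) (mem_cons (W2963 D T h) (mem_cons (W284 D T h) (mem_cons (W368 D T h) (mem_cons (W6719 D T h) (mem_cons (W721 D T h) (mem_cons (W12203 D T h) (mem_cons (W2936 D T h) (mem_cons (W12262 D T h) (mem_cons (W12409 D T h) (mem_cons (W12410 D T h) (mem_cons (W12411 D T h) (mem_cons (W7577 D T h) (mem_cons (W12232 D T h) (mem_cons (W12231 D T h) (mem_cons (W1528 D T h) (mem_cons (W16 D T h) (mem_cons (W702 D T h) (mem_cons (W1350 D T h) (mem_cons (W12413 D T h) (mem_cons (W12412 D T h) (mem_cons (W50 D T h) (mem_cons (W669 D T h) (mem_cons (W10696 D T h) (mem_cons (W8350 D T h) (mem_cons (W12371 D T h) (mem_cons (W12381 D T h) (mem_cons (W1696 D T h) (mem_cons (W12408 D T h) (mem_cons (W12370 D T h) (mem_cons (W12374 D T h) (mem_cons (W281 D T h) (mem_cons (W69 D T h) mem_nil))))))))))))))))))))))))))))))))) cl2880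
theorem W12414 : WFK w12414 := fun D T h => wf_of_chk h mem_nil (mem_cons (L2880 D T h) mem_nil) cw12414
theorem W12417 : WFK w12417 := fun D T h => wf_of_chk h (mem_cons (W724 D T h) (mem_cons (W16 D T h) mem_nil)) mem_nil cw12417
theorem W12426 : WFK w12426 := fun D T h => wf_of_chk h (mem_cons (W1919 D T h) mem_nil) mem_nil cw12426
theorem W12445 : WFK w12445 := fun D T h => wf_of_chk h mem_nil (mem_cons (L1632 D T h) mem_nil) cw12445
theorem W12452 : WFK w12452 := fun D T h => wf_of_chk h mem_nil (mem_cons (L1193 D T h) mem_nil) cw12452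
theorem W12479 : WFK w12479 := fun D T h => wf_of_chk h mem_nil (mem_cons (L2712 D T h) mem_nil) cw12479
theorem W12485 : WFK w12485 := fun D T h => wf_of_chk h (mem_cons (W448 D T h) mem_nil) mem_nil cw12485
theorem W12491 : WFK w12491 := fun D T h => wf_of_chk h mem_nil (mem_cons (L1898 D T h) mem_nil) cw12491
theorem W12500 : WFK w12500 := fun D T h => wf_of_chk h mem_nil (mem_cons (L363 D T h) mem_nil) cw12500
theorem W12501 : WFK w12501 := fun D T h => wf_of_chk h mem_nil (mem_cons (L363 D T h) mem_nil) cw12501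
theorem W12508 : WFK w12508 := fun D T h => wf_of_chk h (mem_cons (W7074 D T h) (mem_cons (W16 D T h) mem_nil)) mem_nil cw12508
theorem W12509 : WFK w12509 := fun D T h => wf_of_chk h (mem_cons (W7074 D T h) (mem_cons (W16 D T h) mem_nil)) mem_nil cw12509
theorem W12514 : WFK w12514 := fun D T h => wf_of_chk h mem_nil (mem_cons (L117 D T h) mem_nil) cw12514
theorem W12517 : WFK w12517 := fun D T h => wf_of_chk h (mem_cons (W7718 D T h) (mem_cons (W16 D T h) mem_nil)) mem_nil cw12517
theorem W12519 : WFK w12519 := fun D T h => wf_of_chk h (mem_cons (W179 D T h) (mem_cons (W16 D T h) mem_nil)) mem_nil cw12519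
theorem W12520 : WFK w12520 := fun D T h => wf_of_chk h mem_nil (mem_cons (L2693 D T h) mem_nil) cw12520
theorem W12522 : WFK w12522 := fun D T h => wf_of_chk h mem_nil (mem_cons (L2476 D T h) mem_nil) cw12522
theorem W12525 : WFK w12525 := fun D T h => wf_of_chk h (mem_cons (W2844 D T h) mem_nil) mem_nil cw12525
theorem W12531 : WFK w12531 := fun D T h => wf_of_chk h (mem_cons (W162 D T h) mem_nil) mem_nil cw12531
theorem W12533 : WFK w12533 := fun D T h => wf_of_chk h mem_nil (mem_cons (L361 D T h) mem_nil) cw12533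
theorem L2904 : LFK l2904 := fun D T h => lf_of_chk h (mem_cons (W500 D T h) (mem_cons (W1 D T h) (mem_cons (W784 D T h) (mem_cons (W1944 D T h) (mem_cons (W1245 D T h) (mem_cons (W6773 D T h) mem_nil)))))) cl2904
theorem W12543 : WFK w12543 := fun D T h => wf_of_chk h mem_nil (mem_cons (L2904 D T h) mem_nil) cw12543
theorem W12544 : WFK w12544 := fun D T h => wf_of_chk h mem_nil (mem_cons (L1 D T h) mem_nil) cw12544
theorem L2905 : LFK l2905 := fun D T h => lf_of_chk h (mem_cons (W6773 D T h) (mem_cons (W12544 D T h) mem_nil)) cl2905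
theorem L2906 : LFK l2906 := fun D T h => lf_of_chk h (mem_cons (W209 D T h) (mem_cons (W8138 D T h) (mem_cons (W15 D T h) (mem_cons (W86 D T h) (mem_cons (W93 D T h) (mem_cons (W220 D T h) (mem_cons (W2560 D T h) (mem_cons (W2552 D T h) (mem_cons (W8380 D T h) (mem_cons (W2532 D T h) (mem_cons (W2561 D T h) (mem_cons (W5258 D T h) (mem_cons (W659 D T h) (mem_cons (W17 D T h) (mem_cons (W11704 D T h) (mem_cons (W4566 D T h) (mem_cons (W3409 D T h) (mem_cons (W505 D T h) (mem_cons (W1640 D T h) (mem_cons (W1398 D T h) mem_nil)))))))))))))))))))) cl2906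
theorem W12550 : WFK w12550 := fun D T h => wf_of_chk h mem_nil (mem_cons (L2906 D T h) mem_nil) cw12550
theorem W12551 : WFK w12551 := fun D T h => wf_of_chk h mem_nil (mem_cons (L268 D T h) mem_nil) cw12551
theorem W12553 : WFK w12553 := fun D T h => wf_of_chk h (mem_cons (W1409 D T h) (mem_cons (W16 D T h) mem_nil)) mem_nil cw12553
theorem W12554 : WFK w12554 := fun D T h => wf_of_chk h (mem_cons (W750 D T h) (mem_cons (W16 D T h) mem_nil)) mem_nil cw12554
theorem W12556 : WFK w12556 := fun D T h => wf_of_chk h (mem_cons (W2090 D T h) mem_nil) mem_nil cw12556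
theorem W12559 : WFK w12559 := fun D T h => wf_of_chk h (mem_cons (W750 D T h) mem_nil) mem_nil cw12559
theorem W12561 : WFK w12561 := fun D T h => wf_of_chk h (mem_cons (W263 D T h) (mem_cons (W16 D T h) mem_nil)) mem_nil cw12561
theorem W12562 : WFK w12562 := fun D T h => wf_of_chk h (mem_cons (W721 D T h) (mem_cons (W16 D T h) mem_nil)) mem_nil cw12562
theorem W12564 : WFK w12564 := fun D T h => wf_of_chk h (mem_cons (W164 D T h) (mem_cons (W16 D T h) mem_nil)) mem_nil cw12564
theorem W12566 : WFK w12566 := fun D T h => wf_of_chk h (mem_cons (W970 D T h) mem_nil) mem_nil cw12566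
theorem W12585 : WFK w12585 := fun D T h => wf_of_chk h mem_nil (mem_cons (L2276 D T h) mem_nil) cw12585
theorem L2912 : LFK l2912 := fun D T h => lf_of_chk h (mem_cons (W815 D T h) (mem_cons (W42 D T h) (mem_cons (W1101 D T h) (mem_cons (W3 D T h) (mem_cons (W39 D T h) (mem_cons (W1531 D T h) (mem_cons (W6352 D T h) (mem_cons (W1532 D T h) (mem_cons (W12585 D T h) (mem_cons (W10076 D T h) (mem_cons (W1529 D T h) (mem_cons (W172 D T h) (mem_cons (W6685 D T h) (mem_cons (W976 D T h) (mem_cons (W38 D T h) mem_nil))))))))))))))) cl2912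
theorem W12588 : WFK w12588 := fun D T h => wf_of_chk h mem_nil (mem_cons (L44 D T h) mem_nil) cw12588
theorem L2915 : LFK l2915 := fun D T h => lf_of_chk h (mem_cons (W192 D T h) (mem_cons (W25 D T h) (mem_cons (W4199 D T h) mem_nil))) cl2915
theorem W12591 : WFK w12591 := fun D T h => wf_of_chk h mem_nil (mem_cons (L2915 D T h) mem_nil) cw12591
theorem L2916 : LFK l2916 := fun D T h => lf_of_chk h (mem_cons (W10076 D T h) (mem_cons (W42 D T h) (mem_cons (W831 D T h) (mem_cons (W3 D T h) (mem_cons (W39 D T h) (mem_cons (W1534 D T h) (mem_cons (W154 D T h) (mem_cons (W1536 D T h) (mem_cons (W12591 D T h) (mem_cons (W870 D T h) (mem_cons (W3245 D T h) (mem_cons (W12500 D T h) (mem_cons (W12501 D T h) (mem_cons (W38 D T h) mem_nil)))))))))))))) cl2916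
theorem W12598 : WFK w12598 := fun D T h => wf_of_chk h mem_nil (mem_cons (L1279 D T h) mem_nil) cw12598
theorem W12599 : WFK w12599 := fun D T h => wf_of_chk h mem_nil (mem_cons (L103 D T h) mem_nil) cw12599
theorem W12602 : WFK w12602 := fun D T h => wf_of_chk h mem_nil (mem_cons (L1052 D T h) mem_nil) cw12602
theorem W12606 : WFK w12606 := fun D T h => wf_of_chk h mem_nil (mem_cons (L120 D T h) mem_nil) cw12606
theorem L2922 : LFK l2922 := fun D T h => lf_of_chk h (mem_cons (W1489 D T h) (mem_cons (W4 D T h) (mem_cons (W1400 D T h) (mem_cons (W1737 D T h) (mem_cons (W11 D T h) (mem_cons (W9336 D T h) (mem_cons (W1529 D T h) (mem_cons (W870 D T h) mem_nil)))))))) cl2922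
theorem W12617 : WFK w12617 := fun D T h => wf_of_chk h (mem_cons (W971 D T h) mem_nil) mem_nil cw12617
theorem W12618 : WFK w12618 := fun D T h => wf_of_chk h mem_nil (mem_cons (L1019 D T h) mem_nil) cw12618
theorem W12619 : WFK w12619 := fun D T h => wf_of_chk h mem_nil (mem_cons (L2792 D T h) mem_nil) cw12619
theorem L2925 : LFK l2925 := fun D T h => lf_of_chk h (mem_cons (W6719 D T h) (mem_cons (W8073 D T h) (mem_cons (W7719 D T h) (mem_cons (W267 D T h) (mem_cons (W3766 D T h) (mem_cons (W16 D T h) (mem_cons (W1326 D T h) (mem_cons (W6797 D T h) (mem_cons (W12618 D T h) (mem_cons (W5841 D T h) (mem_cons (W7490 D T h) (mem_cons (W5633 D T h) (mem_cons (W9591 D T h) (mem_cons (W3006 D T h) (mem_cons (W12619 D T h) (mem_cons (W12617 D T h) (mem_cons (W1540 D T h) (mem_cons (W149 D T h) (mem_cons (W6709 D T h) (mem_cons (W12365 D T h) (mem_cons (W2945 D T h) (mem_cons (W6749 D T h) mem_nil)))))))))))))))))))))) cl2925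
theorem W12620 : WFK w12620 := fun D T h => wf_of_chk h mem_nil (mem_cons (L2925 D T h) mem_nil) cw12620
theorem W12621 : WFK w12621 := fun D T h => wf_of_chk h mem_nil (mem_cons (L2476 D T h) mem_nil) cw12621
theorem W12628 : WFK w12628 := fun D T h => wf_of_chk h mem_nil (mem_cons (L1633 D T h) mem_nil) cw12628
theorem W12629 : WFK w12629 := fun D T h => wf_of_chk h (mem_cons (W42 D T h) mem_nil) mem_nil cw12629
theorem W12631 : WFK w12631 := fun D T h => wf_of_chk h mem_nil (mem_cons (L117 D T h) mem_nil) cw12631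
theorem W12633 : WFK w12633 := fun D T h => wf_of_chk h mem_nil (mem_cons (L117 D T h) mem_nil) cw12633
theorem W12634 : WFK w12634 := fun D T h => wf_of_chk h mem_nil (mem_cons (L1258 D T h) mem_nil) cw12634
theorem W12661 : WFK w12661 := fun D T h => wf_of_chk h mem_nil (mem_cons (L505 D T h) mem_nil) cw12661
theorem W12662 : WFK w12662 := fun D T h => wf_of_chk h mem_nil (mem_cons (L87 D T h) mem_nil) cw12662
theorem W12685 : WFK w12685 := fun D T h => wf_of_chk h mem_nil (mem_cons (L241 D T h) mem_nil) cw12685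
theorem W12702 : WFK w12702 := fun D T h => wf_of_chk h mem_nil (mem_cons (L2017 D T h) mem_nil) cw12702
theorem L2947 : LFK l2947 := fun D T h => lf_of_chk h (mem_cons (W16 D T h) (mem_cons (W8608 D T h) (mem_cons (W15 D T h) (mem_cons (W5258 D T h) (mem_cons (W220 D T h) (mem_cons (W50 D T h) (mem_cons (W669 D T h) (mem_cons (W12217 D T h) (mem_cons (W5059 D T h) (mem_cons (W7212 D T h) (mem_cons (W2015 D T h) (mem_cons (W42 D T h) (mem_cons (W164 D T h) mem_nil))))))))))))) cl2947
theorem W12708 : WFK w12708 := fun D T h => wf_of_chk h mem_nil (mem_cons (L2947 D T h) mem_nil) cw12708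
theorem L2948 : LFK l2948 := fun D T h => lf_of_chk h (mem_cons (W3910 D T h) (mem_cons (W8771 D T h) (mem_cons (W284 D T h) (mem_cons (W12219 D T h) (mem_cons (W16 D T h) (mem_cons (W1291 D T h) (mem_cons (W2934 D T h) (mem_cons (W12221 D T h) (mem_cons (W12222 D T h) (mem_cons (W12291 D T h) (mem_cons (W9655 D T h) (mem_cons (W12290 D T h) (mem_cons (W1318 D T h) (mem_cons (W2989 D T h) (mem_cons (W12259 D T h) (mem_cons (W12284 D T h) (mem_cons (W12285 D T h) (mem_cons (W12206 D T h) (mem_cons (W5106 D T h) (mem_cons (W12207 D T h) (mem_cons (W12218 D T h) (mem_cons (W8292 D T h) (mem_cons (W10697 D T h) (mem_cons (W12220 D T h) (mem_cons (W12255 D T h) (mem_cons (W11743 D T h) (mem_cons (W7992 D T h) (mem_cons (W12297 D T h) (mem_cons (W12298 D T h) (mem_cons (W12380 D T h) (mem_cons (W12414 D T h) (mem_cons (W12708 D T h) mem_nil)))))))))))))))))))))))))))))))) cl2948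
theorem W12709 : WFK w12709 := fun D T h => wf_of_chk h mem_nil (mem_cons (L2948 D T h) mem_nil) cw12709
theorem W12710 : WFK w12710 := fun D T h => wf_of_chk h mem_nil (mem_cons (L1835 D T h) mem_nil) cw12710
theorem W12711 : WFK w12711 := fun D T h => wf_of_chk h mem_nil (mem_cons (L2838 D T h) mem_nil) cw12711
theorem W12712 : WFK w12712 := fun D T h => wf_of_chk h (mem_cons (W933 D T h) (mem_cons (W16 D T h) mem_nil)) mem_nil cw12712
theorem W12713 : WFK w12713 := fun D T h => wf_of_chk h (mem_cons (W726 D T h) (mem_cons (W16 D T h) mem_nil)) mem_nil cw12713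
theorem W12714 : WFK w12714 := fun D T h => wf_of_chk h (mem_cons (W726 D T h) (mem_cons (W16 D T h) mem_nil)) mem_nil cw12714
theorem W12715 : WFK w12715 := fun D T h => wf_of_chk h (mem_cons (W3352 D T h) (mem_cons (W16 D T h) mem_nil)) mem_nil cw12715
theorem W12716 : WFK w12716 := fun D T h => wf_of_chk h mem_nil (mem_cons (L2421 D T h) mem_nil) cw12716
theorem W12717 : WFK w12717 := fun D T h => wf_of_chk h mem_nil (mem_cons (L2020 D T h) mem_nil) cw12717
theorem W12718 : WFK w12718 := fun D T h => wf_of_chk h mem_nil (mem_cons (L2421 D T h) mem_nil) cw12718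
theorem W12719 : WFK w12719 := fun D T h => wf_of_chk h (mem_cons (W7169 D T h) (mem_cons (W16 D T h) mem_nil)) mem_nil cw12719
theorem W12720 : WFK w12720 := fun D T h => wf_of_chk h (mem_cons (W5258 D T h) (mem_cons (W16 D T h) mem_nil)) mem_nil cw12720
theorem W12721 : WFK w12721 := fun D T h => wf_of_chk h mem_nil (mem_cons (L800 D T h) mem_nil) cw12721
theorem W12722 : WFK w12722 := fun D T h => wf_of_chk h (mem_cons (W12721 D T h) (mem_cons (W37 D T h) mem_nil)) mem_nil cw12722
theorem W12723 : WFK w12723 := fun D T h => wf_of_chk h (mem_cons (W6394 D T h) (mem_cons (W16 D T h) mem_nil)) mem_nil cw12723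
theorem W12724 : WFK w12724 := fun D T h => wf_of_chk h (mem_cons (W1070 D T h) (mem_cons (W16 D T h) mem_nil)) mem_nil cw12724
theorem W12725 : WFK w12725 := fun D T h => wf_of_chk h (mem_cons (W12724 D T h) (mem_cons (W37 D T h) mem_nil)) mem_nil cw12725
theorem W12726 : WFK w12726 := fun D T h => wf_of_chk h (mem_cons (W6394 D T h) (mem_cons (W16 D T h) mem_nil)) mem_nil cw12726
theorem W12727 : WFK w12727 := fun D T h => wf_of_chk h (mem_cons (W8424 D T h) (mem_cons (W16 D T h) mem_nil)) mem_nil cw12727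
theorem W12728 : WFK w12728 := fun D T h => wf_of_chk h (mem_cons (W181 D T h) (mem_cons (W37 D T h) mem_nil)) mem_nil cw12728
theorem W12729 : WFK w12729 := fun D T h => wf_of_chk h (mem_cons (W17 D T h) (mem_cons (W162 D T h) mem_nil)) mem_nil cw12729
theorem W12730 : WFK w12730 := fun D T h => wf_of_chk h (mem_cons (W12729 D T h) (mem_cons (W37 D T h) mem_nil)) mem_nil cw12730
theorem W12731 : WFK w12731 := fun D T h => wf_of_chk h (mem_cons (W2892 D T h) (mem_cons (W16 D T h) mem_nil)) mem_nil cw12731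
theorem W12732 : WFK w12732 := fun D T h => wf_of_chk h (mem_cons (W799 D T h) (mem_cons (W37 D T h) mem_nil)) mem_nil cw12732
theorem W12733 : WFK w12733 := fun D T h => wf_of_chk h (mem_cons (W401 D T h) (mem_cons (W16 D T h) mem_nil)) mem_nil cw12733
theorem W12734 : WFK w12734 := fun D T h => wf_of_chk h (mem_cons (W4028 D T h) (mem_cons (W16 D T h) mem_nil)) mem_nil cw12734
theorem L2949 : LFK l2949 := fun D T h => lf_of_chk h (mem_cons (W9741 D T h) (mem_cons (W12728 D T h) (mem_cons (W16 D T h) (mem_cons (W12732 D T h) (mem_cons (W3222 D T h) (mem_cons (W7790 D T h) (mem_cons (W9611 D T h) (mem_cons (W12733 D T h) (mem_cons (W6714 D T h) (mem_cons (W9731 D T h) (mem_cons (W5721 D T h) (mem_cons (W9732 D T h) (mem_cons (W6326 D T h) (mem_cons (W6327 D T h) (mem_cons (W7827 D T h) (mem_cons (W12734 D T h) (mem_cons (W9761 D T h) (mem_cons (W6380 D T h) (mem_cons (W2015 D T h) (mem_cons (W3617 D T h) (mem_cons (W12203 D T h) (mem_cons (W2037 D T h) (mem_cons (W12730 D T h) (mem_cons (W12731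 D T h) (mem_cons (W4209 D T h) (mem_cons (W12722 D T h) (mem_cons (W12723 D T h) (mem_cons (W12725 D T h) (mem_cons (W128 D T h) (mem_cons (W12726 D T h) (mem_cons (W12727 D T h) mem_nil))))))))))))))))))))))))))))))) cl2949
theorem W12735 : WFK w12735 := fun D T h => wf_of_chk h mem_nil (mem_cons (L2949 D T h) mem_nil) cw12735
theorem L2950 : LFK l2950 := fun D T h => lf_of_chk h (mem_cons (W1690 D T h) (mem_cons (W42 D T h) (mem_cons (W16 D T h) (mem_cons (W86 D T h) (mem_cons (W1412 D T h) (mem_cons (W12168 D T h) (mem_cons (W1356 D T h) (mem_cons (W4835 D T h) (mem_cons (W6372 D T h) (mem_cons (W1924 D T h) (mem_cons (W4025 D T h) (mem_cons (W33 D T h) (mem_cons (W815 D T h) (mem_cons (W10971 D T h) (mem_cons (W4035 D T h) (mem_cons (W259 D T h) mem_nil)))))))))))))))) cl2950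
theorem W12736 : WFK w12736 := fun D T h => wf_of_chk h mem_nil (mem_cons (L2950 D T h) mem_nil) cw12736
theorem W12737 : WFK w12737 := fun D T h => wf_of_chk h (mem_cons (W12736 D T h) (mem_cons (W16 D T h) mem_nil)) mem_nil cw12737
theorem W12740 : WFK w12740 := fun D T h => wf_of_chk h (mem_cons (W16 D T h) mem_nil) mem_nil cw12740
theorem W12743 : WFK w12743 := fun D T h => wf_of_chk h (mem_cons (W831 D T h) mem_nil) mem_nil cw12743
theorem W12767 : WFK w12767 := fun D T h => wf_of_chk h (mem_cons (W760 D T h) (mem_cons (W37 D T h) mem_nil)) mem_nil cw12767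
theorem W12768 : WFK w12768 := fun D T h => wf_of_chk h mem_nil (mem_cons (L2221 D T h) mem_nil) cw12768

end Pool.Agent.W319.GCI.K5
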