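import Pool.Agent.W319.GCI.K4Base

set_option autoImplicit false

namespace Pool.Agent.W319.GCI


namespace K5
abbrev WFK (R : Root) : Prop := ∀ (D : ℕ) (T : Bool → Stt 5 → Prop), Good D T → WF D T R
abbrev LFK (R : Root) : Prop := ∀ (D : ℕ) (T : Bool → Stt 5 → Prop), Good D T → LF D T R
end K5

end Pool.Agent.W319.GCI
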