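import Pool.Agent.W319.GCI.K5D0
import Pool.Agent.W319.GCI.K5D1
import Pool.Agent.W319.GCI.K5D2
import Pool.Agent.W319.GCI.K5D3
import Pool.Agent.W319.GCI.K5D4
import Pool.Agent.W319.GCI.K5D5
import Pool.Agent.W319.GCI.K5D6
import Pool.Agent.W319.GCI.K5D7
import Pool.Agent.W319.GCI.K5D8
import Pool.Agent.W319.GCI.K5D9
import Pool.Agent.W319.GCI.K5D10
import Pool.Agent.W319.GCI.K5D11
import Pool.Agent.W319.GCI.K5D12
import Pool.Agent.W319.GCI.K5D13
import Pool.Agent.W319.GCI.K5D14
import Pool.Agent.W319.GCI.K5D15
set_option autoImplicit false
set_option maxRecDepth 100000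
set_option linter.all false
namespace Pool.Agent.W319.GCI.K5
open Pool.Agent.W319.GCI

theorem cl0 : lchk (nat_lit 5) [] (nat_lit 337) .nil .nil (.nod (nat_lit 67108954) .nil .nil (.dwn (nat_lit 3885356542769914587273208032374204726764005704607022300554748810989098078019631710468) (nat_lit 16777297))) (.nod (nat_lit 1237943027657920215846486788) .nil (.dwn (nat_lit 3885430649707026469638283135149720934500720652302439163422859342358362829483656872098) (nat_lit 16777617)) (.opn (nat_lit 3885430649707026469638283135149720934500720652302439163422240377061086622215282098586))) l0 = true := by decide +kernel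
theorem cw0 : wchk (nat_lit 5) [] [l0] (nat_lit 3) (nat_lit 1) (nat_lit 3) (nat_lit 0) (nat_lit 22597888) (nat_lit 0) w0 = true := by decide +kernel
theorem cl1 : lchk (nat_lit 5) [] (nat_lit 465) .nil .nil (.nod (nat_lit 1237943027657920215846486788) .nil .nil (.dwn (nat_lit 210629617572706153513808651670458277186874877898179912743268647074) (nat_lit 16777617))) (.nod (nat_lit 67109018) .nil .nil (.dwn (nat_lit 3885356542769914587273208032374204726764005704607022300554748810989098078019631710468) (nat_lit 16777297))) l1 = true := by decide +kernel
theorem cw1 : wchk (nat_lit 5) [] [l1] (nat_lit 4) (nat_lit 2) (nat_lit 3) (nat_lit 0) (nat_lit 22597888) (nat_lit 0) w1 = true := by decide +kernel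
theorem cl2 : lchk (nat_lit 5) [w0, w1] (nat_lit 23282688) .nil .nil (.nod (nat_lit 1237941847066299498502291546) (.nod (nat_lit 20933254237303728337808024820309273186864727923073776492343562321075406719695628272026) (.opn (nat_lit 145264062413413674984864100073547927711931133519057751822780702801484093470000502179840)) .dup .dup) .nil (.dwn (nat_lit 20933254237303728337808024820309273186864727923073776492343562319894815098978216968538) (nat_lit 90391552))) (.nod (nat_lit 1237940666474678781090988058) .nil (.dwn (nat_lit 20933254237303728337808024820309273186864727923073776492343562321075406719695628272026) (nat_lit 90391552)) .dup) l2 = true := by decide +kernel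
theorem cw2 : wchk (nat_lit 5) [] [l2] (nat_lit 4) (nat_lit 1) (nat_lit 2) (nat_lit 0) (nat_lit 22597888) (nat_lit 0) w2 = true := by decide +kernel
theorem cl3 : lchk (nat_lit 5) [] (nat_lit 17) (.nod (nat_lit 260) .nil .nil .nil) (.nod (nat_lit 260) .nil .nil (.opn (nat_lit 11418080223534086121239667503430587817062826244))) .nil .nil l3 = true := by decide +kernel
theorem cw3 : wchk (nat_lit 5) [] [l3] (nat_lit 1) (nat_lit 3) (nat_lit 3) (nat_lit 0) (nat_lit 5705984) (nat_lit 0) w3 = true := by decide +kernel
theorem cw4 : wchk (nat_lit 5) [] [] (nat_lit 0) (nat_lit 1) (nat_lit 3) (nat_lit 2) (nat_lit 33554481) (nat_lit 16777297) w4 = true := by decide +kernel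
theorem cl4 : lchk (nat_lit 5) [] (nat_lit 142606737) (.nod (nat_lit 618973026461974152676901027) (.nod (nat_lit 1237943046104664289556038405) .nil .nil (.nod (nat_lit 33554458) .nil .nil (.dwn (nat_lit 3885341721382492210800193011819101485216662715067938927981250499316848173742620147972) (nat_lit 16777233)))) .nil .nil) .nil .nil .nil l4 = true := by decide +kernel
theorem cw5 : wchk (nat_lit 5) [] [l4] (nat_lit 273) (nat_lit 2) (nat_lit 3) (nat_lit 0) (nat_lit 1230557440) (nat_lit 0) w5 = true := by decide +kernel
theorem cw6 : wchk (nat_lit 5) [] [] (nat_lit 0) (nat_lit 0) (nat_lit 3) (nat_lit 2) (nat_lit 16777297) (nat_lit 33554481) w6 = true := by decide +kernel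
theorem cw7 : wchk (nat_lit 5) [] [] (nat_lit 0) (nat_lit 0) (nat_lit 3) (nat_lit 2) (nat_lit 16777297) (nat_lit 33554481) w7 = true := by decide +kernel
theorem cw8 : wchk (nat_lit 5) [] [] (nat_lit 0) (nat_lit 0) (nat_lit 3) (nat_lit 2) (nat_lit 16777297) (nat_lit 33554481) w8 = true := by decide +kernel
theorem cw9 : wchk (nat_lit 5) [] [] (nat_lit 0) (nat_lit 0) (nat_lit 3) (nat_lit 2) (nat_lit 16777297) (nat_lit 33554481) w9 = true := by decide +kernel
theorem cl5 : lchk (nat_lit 5) [w4, w5, w6, w7, w8, w9] (nat_lit 23282688) .nil (.nod (nat_lit 1237941847066299498502291546) (.nod (nat_lit 618973008015230078430478490) .nil .nil (.nod (nat_lit 15845379084102397192160979177741529209049710618) (.opn (nat_lit 145264064266087102781923227001334129500217997514325488371483752250827825464512362219560)) .nil .nil)) .nil .nil) .nil (.nod (nat_lit 928455656653333712349429786) .nil (.dwn (nat_lit 20933253310967014439278551370055057737723449336104754886663459919963542937077091926426) (nat_lit 90391552)) .dup) l5 = true := by decide +kernel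
theorem cw10 : wchk (nat_lit 5) [] [l5] (nat_lit 33) (nat_lit 1) (nat_lit 2) (nat_lit 0) (nat_lit 22597888) (nat_lit 0) w10 = true := by decide +kernel
theorem cw11 : wchk (nat_lit 5) [] [l3] (nat_lit 0) (nat_lit 3) (nat_lit 3) (nat_lit 0) (nat_lit 5705984) (nat_lit 0) w11 = true := by decide +kernel
theorem cw12 : wchk (nat_lit 5) [] [l3] (nat_lit 0) (nat_lit 3) (nat_lit 3) (nat_lit 0) (nat_lit 5705984) (nat_lit 0) w12 = true := by decide +kernel
theorem cw13 : wchk (nat_lit 5) [] [l3] (nat_lit 0) (nat_lit 3) (nat_lit 4) (nat_lit 0) (nat_lit 4673792) (nat_lit 0) w13 = true := by decide +kernel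
theorem cl6 : lchk (nat_lit 5) [w3, w10, w11, w12, w13] (nat_lit 23275520) .nil (.nod (nat_lit 7729185766884302127515) (.nod (nat_lit 7710739022810592575898) .nil .nil (.dwn (nat_lit 426887833573147728995627419733827127204055613466) (nat_lit 23282688))) .nil (.nod (nat_lit 5391903099497895769609831232372664440142128989187296863777902278779187927302061162842) (.opn (nat_lit 20933255163640442236337588259093967139522954170615180187253163393054105047634797824032)) .nil .nil)) .nil (.dwn (nat_lit 449728674944455265666681691193212536284000550938) (nat_lit 23275520)) l6 = true := by decide +kernel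
theorem cw14 : wchk (nat_lit 5) [] [l6] (nat_lit 1) (nat_lit 2) (nat_lit 2) (nat_lit 0) (nat_lit 30986496) (nat_lit 0) w14 = true := by decide +kernel
theorem cw15 : wchk (nat_lit 5) [] [l0] (nat_lit 2) (nat_lit 2) (nat_lit 3) (nat_lit 0) (nat_lit 22596096) (nat_lit 0) w15 = true := by decide +kernel
theorem cl7 : lchk (nat_lit 5) [w15, w1] (nat_lit 23282688) .nil (.nod (nat_lit 1237941847066299498502291546) .nil (.dwn (nat_lit 20933254237303728337808024820309273186864727923073776492343562321075406719695628272026) (nat_lit 90391552)) .dup) .nil .dup l7 = true := by decide +kernel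
theorem cw16 : wchk (nat_lit 5) [] [l7] (nat_lit 4) (nat_lit 1) (nat_lit 2) (nat_lit 0) (nat_lit 22597888) (nat_lit 0) w16 = true := by decide +kernel
theorem cl8 : lchk (nat_lit 5) [] (nat_lit 8388625) (.nod (nat_lit 403) (.nod (nat_lit 142238029372952277727690585906479112388868) .nil .nil (.opn (nat_lit 11417993111248154360993020879531085284434247826))) .nil (.dwn (nat_lit 40990399590009933182166222707402404370575903985342285797334253177172362056958212) (nat_lit 177))) .nil .nil .nil l8 = true := by decide +kernel
theorem cw17 : wchk (nat_lit 5) [] [l8] (nat_lit 1) (nat_lit 2) (nat_lit 3) (nat_lit 0) (nat_lit 22597888) (nat_lit 0) w17 = true := by decide +kernel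
theorem cw18 : wchk (nat_lit 5) [] [] (nat_lit 0) (nat_lit 0) (nat_lit 3) (nat_lit 2) (nat_lit 16777297) (nat_lit 33554481) w18 = true := by decide +kernel
theorem cw19 : wchk (nat_lit 5) [] [] (nat_lit 0) (nat_lit 0) (nat_lit 3) (nat_lit 2) (nat_lit 16777297) (nat_lit 33554481) w19 = true := by decide +kernel
theorem cl9 : lchk (nat_lit 5) [w6, w5, w18, w8, w19] (nat_lit 90391552) .nil (.nod (nat_lit 1237941847066299498502291546) (.nod (nat_lit 618973008015230078430478490) .nil .nil (.nod (nat_lit 15845379084102397192160979177741529209049710618) .nil (.dwn (nat_lit 7874780703068278504023863671373326724725973846251896578350813448224) (nat_lit 627262464)) .dup)) .nil .nil) .nil (.nod (nat_lit 928455656653333712349429786) .nil (.dwn (nat_lit 207429466964637005257656874425294362698394636542742510429451380413351068997190961594778) (nat_lit 895697920)) .dup) l9 = true := by decide +kernel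
theorem cw20 : wchk (nat_lit 5) [] [l9] (nat_lit 33) (nat_lit 1) (nat_lit 2) (nat_lit 0) (nat_lit 22597888) (nat_lit 0) w20 = true := by decide +kernel
theorem cw21 : wchk (nat_lit 5) [] [] (nat_lit 0) (nat_lit 0) (nat_lit 3) (nat_lit 2) (nat_lit 16777297) (nat_lit 33554481) w21 = true := by decide +kernel
theorem cl10 : lchk (nat_lit 5) [w7, w5, w18, w8, w21] (nat_lit 90384384) .nil (.nod (nat_lit 1237941847066299498502291546) (.nod (nat_lit 618973008015230078430478490) .nil .nil (.nod (nat_lit 15840500796090218618348768239369387379970277402) .nil (.dwn (nat_lit 7874690714537800000568428443208143441046420391945872600122957137952) (nat_lit 627255296)) .dup)) .nil .nil) .nil (.nod (nat_lit 928455656653333712349429786) .nil (.dwn (nat_lit 207427806969245699092679192123122799645092221714365172701219569506059079718165666595226) (nat_lit 895690752)) .dup) l10 = true := by decide +kernel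
theorem cw22 : wchk (nat_lit 5) [] [l10] (nat_lit 33) (nat_lit 1) (nat_lit 2) (nat_lit 0) (nat_lit 22597888) (nat_lit 0) w22 = true := by decide +kernel
theorem cl11 : lchk (nat_lit 5) [w3, w20, w22, w11, w12, w13] (nat_lit 23282688) (.nod (nat_lit 7729185766884302127515) (.nod (nat_lit 7710739022810592575898) .nil .nil (.dwn (nat_lit 426892711861159907569439630672199269033135046682) (nat_lit 23275520))) .nil (.nod (nat_lit 5391903099497895769609921271119956826691005449750783354544974850965683319413114143066) (.opn (nat_lit 20933256089977156134867151697878661092119658231895619654832702269997296296166721736744)) .nil .nil)) .nil .nil (.nod (nat_lit 426887833573147728995627419733827127204055613466) .nil (.dwn (nat_lit 1134793935846990788804842260746285749320773710460143118615780427776) (nat_lit 90391552)) .dup) l11 = true := by decide +kernel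
theorem cw23 : wchk (nat_lit 5) [] [l11] (nat_lit 1) (nat_lit 2) (nat_lit 2) (nat_lit 0) (nat_lit 22597888) (nat_lit 0) w23 = true := by decide +kernel
theorem cw24 : wchk (nat_lit 5) [] [l7] (nat_lit 1) (nat_lit 1) (nat_lit 2) (nat_lit 0) (nat_lit 22596096) (nat_lit 0) w24 = true := by decide +kernel
theorem cw25 : wchk (nat_lit 5) [] [] (nat_lit 274) (nat_lit 0) (nat_lit 3) (nat_lit 2) (nat_lit 33554481) (nat_lit 16777233) w25 = true := by decide +kernel
theorem cl12 : lchk (nat_lit 5) [w25] (nat_lit 23282688) .nil (.nod (nat_lit 618973026461974152140030107) (.nod (nat_lit 1237943046104664289623146651) .nil .nil (.nod (nat_lit 618970646831988643607871514) .nil .nil (.nod (nat_lit 618970646831988643607871514) .nil (.dwn (nat_lit 9097082317789573233773869786113688398809038798613300159039066646470081317274403041444250) (nat_lit 39281968128)) .dup))) .nil .nil) .nil .nil l12 = true := by decide +kernel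
theorem cw26 : wchk (nat_lit 5) [] [l12] (nat_lit 2322) (nat_lit 1) (nat_lit 1) (nat_lit 0) (nat_lit 9820492032) (nat_lit 0) w26 = true := by decide +kernel
theorem cl13 : lchk (nat_lit 5) [w25] (nat_lit 23275520) .nil (.nod (nat_lit 618973026461974152140030107) (.nod (nat_lit 1237943046104664289623146651) .nil .nil (.nod (nat_lit 618970646831988643607871514) .nil .nil (.nod (nat_lit 618970646831988643607871514) .nil (.dwn (nat_lit 493153730622815688564694837251978340516733019312650132234524403171738) (nat_lit 39281960960)) .dup))) .nil .nil) .nil .nil l13 = true := by decide +kernel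
theorem cw27 : wchk (nat_lit 5) [] [l13] (nat_lit 2322) (nat_lit 1) (nat_lit 0) (nat_lit 0) (nat_lit 9820492032) (nat_lit 0) w27 = true := by decide +kernel
theorem cw28 : wchk (nat_lit 5) [] [l4] (nat_lit 274) (nat_lit 2) (nat_lit 3) (nat_lit 0) (nat_lit 1230557440) (nat_lit 0) w28 = true := by decide +kernel
theorem cw29 : wchk (nat_lit 5) [] [l4] (nat_lit 274) (nat_lit 2) (nat_lit 3) (nat_lit 0) (nat_lit 1230557440) (nat_lit 0) w29 = true := by decide +kernel
theorem cw30 : wchk (nat_lit 5) [] [l4] (nat_lit 274) (nat_lit 2) (nat_lit 3) (nat_lit 0) (nat_lit 1230557440) (nat_lit 0) w30 = true := by decide +kernel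
theorem cw31 : wchk (nat_lit 5) [] [l4] (nat_lit 274) (nat_lit 2) (nat_lit 4) (nat_lit 0) (nat_lit 1229639936) (nat_lit 0) w31 = true := by decide +kernel
theorem cl14 : lchk (nat_lit 5) [w5, w26, w27, w28, w29, w30, w31] (nat_lit 23282688) .nil (.nod (nat_lit 618973026461974152140030107) (.nod (nat_lit 1237941865513043572211843163) .nil .nil (.nod (nat_lit 618970646831988643607871514) .nil (.nod (nat_lit 1139910536159323673248078053190492395337440727623463796239838157853587058472489899262362) (.dwn (nat_lit 9097082320568583375962612297091605461591338721844462458600549721199913015211607127918640) (nat_lit 39281968128)) .nil .nil) .dup)) .nil .nil) .nil .nil l14 = true := by decide +kernel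
theorem cw32 : wchk (nat_lit 5) [] [l14] (nat_lit 274) (nat_lit 1) (nat_lit 2) (nat_lit 0) (nat_lit 1230557440) (nat_lit 0) w32 = true := by decide +kernel
theorem cw33 : wchk (nat_lit 5) [] [] (nat_lit 0) (nat_lit 1) (nat_lit 4) (nat_lit 2) (nat_lit 33554473) (nat_lit 16777293) w33 = true := by decide +kernel
theorem cl15 : lchk (nat_lit 5) [w10, w32, w20, w22, w4, w33] (nat_lit 23282688) (.nod (nat_lit 618973008015230078430478490) .nil .nil (.nod (nat_lit 15845379084102397192160979177741529209049710618) (.dwn (nat_lit 145264064266087102781923137012803650996397191755115591536807282758652536788800142477352) (nat_lit 627262464)) .nil .nil)) (.nod (nat_lit 618973008015230078430478490) .nil .nil (.nod (nat_lit 15845379084102397192160979177741529209049710618) (.dwn (nat_lit 145264064266087102781923137012803650996397191755115591536807282758652536788800142477352) (nat_lit 627262464)) .nil .nil)) .nil .nil l15 = true := by decide +kernel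
theorem cw34 : wchk (nat_lit 5) [] [l15] (nat_lit 2) (nat_lit 3) (nat_lit 2) (nat_lit 0) (nat_lit 5820672) (nat_lit 0) w34 = true := by decide +kernel
theorem cw35 : wchk (nat_lit 5) [] [l6] (nat_lit 2) (nat_lit 2) (nat_lit 2) (nat_lit 0) (nat_lit 22597888) (nat_lit 0) w35 = true := by decide +kernel
theorem cw36 : wchk (nat_lit 5) [] [l6] (nat_lit 2) (nat_lit 2) (nat_lit 3) (nat_lit 0) (nat_lit 22483200) (nat_lit 0) w36 = true := by decide +kernel
theorem cl16 : lchk (nat_lit 5) [w14, w16, w17, w23, w24, w34, w3, w35, w36] (nat_lit 23282688) (.nod (nat_lit 61517305590975480309663557873552901752158324745) (.nod (nat_lit 61512426962680934814912619000836367717469147144) .nil .nil (.nod (nat_lit 15840503518349153986079295754452574847110893584) (.dwn (nat_lit 20933256089977156134867151697878661092119658231895619654832685344888247738768597602336) (nat_lit 90384384)) .nil .nil)) (.nod (nat_lit 20933257942650583931926278575448048997313080989320535125713200524947315783420079671344) (.opn (nat_lit 145264068897770672274570954156510306876652660870593988997542099331957247675735828222016)) .nil .nil) .dup) .nil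 .nil (.nod (nat_lit 15845381806361332559891771145347757376322308112) (.dwn (nat_lit 20933256089977156134867151697878661092119663110183631833406497820279142921297809016864) (nat_lit 90391552)) .nil .nil) l16 = true := by decide +kernel
theorem cw37 : wchk (nat_lit 5) [] [l16] (nat_lit 18) (nat_lit 2) (nat_lit 1) (nat_lit 0) (nat_lit 5818880) (nat_lit 0) w37 = true := by decide +kernel
theorem cl17 : lchk (nat_lit 5) [] (nat_lit 16777617) .nil (.nod (nat_lit 421249788107300550073067730477834626834555575735385446956660687621) .nil .nil (.nod (nat_lit 50331795) .nil (.nod (nat_lit 11417993111248154360374045510332613771181162756) (.opn (nat_lit 210626403696617635533257709984302967813947563543961495070962614674)) .nil (.dwn (nat_lit 210626403696617635544675560857521749222043881363708202363333378082) (nat_lit 16777361))) .nil)) .nil .nil l17 = true := by decide +kernel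
theorem cw38 : wchk (nat_lit 5) [] [l17] (nat_lit 34) (nat_lit 3) (nat_lit 1) (nat_lit 0) (nat_lit 156815616) (nat_lit 0) w38 = true := by decide +kernel
theorem cw39 : wchk (nat_lit 5) [] [l8] (nat_lit 28) (nat_lit 3) (nat_lit 2) (nat_lit 0) (nat_lit 5802752) (nat_lit 0) w39 = true := by decide +kernel
theorem cl18 : lchk (nat_lit 5) [] (nat_lit 16777617) .nil (.nod (nat_lit 421249788107300550073067730477834626834555575735385446956660687621) .nil .nil (.nod (nat_lit 50331667) .nil (.nod (nat_lit 11417993111248154360374045510332613771181162756) (.nod (nat_lit 210626403696617635544675560857521749221424905994509730850113847330) .nil (.opn (nat_lit 34968073639769002100142610228802525461859308494475780448767918199071602130681595953442)) .dup) .nil .nil) .nil)) .nil .nil l18 = true := by decide +kernel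
theorem cw40 : wchk (nat_lit 5) [] [l18] (nat_lit 34) (nat_lit 3) (nat_lit 1) (nat_lit 0) (nat_lit 156815616) (nat_lit 0) w40 = true := by decide +kernel
theorem cl19 : lchk (nat_lit 5) [] (nat_lit 16777617) .nil (.nod (nat_lit 421249788107300550073067730477834626834555575735385446956660687621) .nil .nil (.nod (nat_lit 50331667) .nil (.nod (nat_lit 11417993111248154360374045510332613771181162756) (.nod (nat_lit 210626403696617635544675560857521749221424905994509730850113847330) .nil (.opn (nat_lit 34968073639769002100142610228802525461859308494475780448767918199071602130681595953442)) .dup) .nil (.opn (nat_lit 210626403696617635533257688206231484873885901887986619437797081426))) .nil)) .nil .nil l19 = true := by decide +kernel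
theorem cw41 : wchk (nat_lit 5) [] [l19] (nat_lit 34) (nat_lit 3) (nat_lit 1) (nat_lit 0) (nat_lit 156815616) (nat_lit 0) w41 = true := by decide +kernel
theorem cw42 : wchk (nat_lit 5) [] [l0] (nat_lit 3) (nat_lit 3) (nat_lit 2) (nat_lit 0) (nat_lit 5573376) (nat_lit 0) w42 = true := by decide +kernel
theorem cw43 : wchk (nat_lit 5) [] [l12] (nat_lit 226) (nat_lit 3) (nat_lit 2) (nat_lit 0) (nat_lit 1230299392) (nat_lit 0) w43 = true := by decide +kernel
theorem cw44 : wchk (nat_lit 5) [] [l17] (nat_lit 34) (nat_lit 2) (nat_lit 1) (nat_lit 0) (nat_lit 156815616) (nat_lit 0) w44 = true := by decide +kernel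
theorem cw45 : wchk (nat_lit 5) [] [l19] (nat_lit 34) (nat_lit 3) (nat_lit 4) (nat_lit 0) (nat_lit 153676032) (nat_lit 0) w45 = true := by decide +kernel
theorem cw46 : wchk (nat_lit 5) [] [l17] (nat_lit 34) (nat_lit 2) (nat_lit 1) (nat_lit 0) (nat_lit 156783360) (nat_lit 0) w46 = true := by decide +kernel
theorem cw47 : wchk (nat_lit 5) [] [l17] (nat_lit 34) (nat_lit 3) (nat_lit 1) (nat_lit 0) (nat_lit 156815616) (nat_lit 0) w47 = true := by decide +kernel
theorem cl20 : lchk (nat_lit 5) [w38, w42, w16, w39, w3, w15, w40, w41, w43, w29, w44, w45, w46, w47] (nat_lit 23282688) .nil (.nod (nat_lit 421249788107300550073067730477834626834555575735385446956727795787) .nil .nil (.nod (nat_lit 292295658992448913640107611270592921617376380678313885746319411209) .nil (.nod (nat_lit 2623828525391647741218336966314246089422867245504662979215754) (.nod (nat_lit 7874780753285092386705589245536903956800799513209726109533344319512) .nil (.dwn (nat_lit 9097082317789573234267023606725034565850455148909626270404244071572697533807416366761984) (nat_lit 39281968128)) .dup) .nil (.dwn (nat_lit 286536587631978489494841081546312874577173952673036973783705536552)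 (nat_lit 4922229788))) (.nod (nat_lit 145264069824107386165225829203284842922178926423566347574199387050023174723368069890442) (.opn (nat_lit 1139910544496354098334844124139554640914160916265085384391150011894471052061859511748696)) .nil .nil))) .nil .nil l20 = true := by decide +kernel
theorem cw48 : wchk (nat_lit 5) [] [l20] (nat_lit 226) (nat_lit 2) (nat_lit 0) (nat_lit 0) (nat_lit 1230557440) (nat_lit 0) w48 = true := by decide +kernel
theorem cw49 : wchk (nat_lit 5) [] [l14] (nat_lit 226) (nat_lit 1) (nat_lit 2) (nat_lit 0) (nat_lit 1230299392) (nat_lit 0) w49 = true := by decide +kernel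
theorem cw50 : wchk (nat_lit 5) [] [l7] (nat_lit 3) (nat_lit 1) (nat_lit 1) (nat_lit 0) (nat_lit 20098048) (nat_lit 0) w50 = true := by decide +kernel
theorem cl21 : lchk (nat_lit 5) [w50] (nat_lit 33554481) .nil .nil .nil (.nod (nat_lit 46565377) .nil (.nod (nat_lit 48401093301198169689676500259023178042092451598511512608151745277000133728272644) (.nod (nat_lit 3885371364157336963746223052929307968322766774369639759248867814795580098600520122786) .nil (.opn (nat_lit 34968073639769002100142610228802525461859308494475780448767918199071602130681595953442)) .dup) (.dwn (nat_lit 3885371364157336963746223052929307968322766774369639759249486790164778570113739653538) (nat_lit 16777361)) .dup) (.nod (nat_lit 48401093301198169687052671733631545482809091619610708046220960701214167301882116) .nil (.dwn (nat_lit 3885371364157336963535596649232690332789509206623366164388435929680601453035108958626) (nat_lit 16777361)) .dup)) l21 = true := by decide +kernel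
theorem cw51 : wchk (nat_lit 5) [] [l21] (nat_lit 2) (nat_lit 0) (nat_lit 1) (nat_lit 0) (nat_lit 5820672) (nat_lit 0) w51 = true := by decide +kernel
theorem cw52 : wchk (nat_lit 5) [] [l4] (nat_lit 34) (nat_lit 3) (nat_lit 2) (nat_lit 0) (nat_lit 156525312) (nat_lit 0) w52 = true := by decide +kernel
theorem cw53 : wchk (nat_lit 5) [] [] (nat_lit 0) (nat_lit 0) (nat_lit 4) (nat_lit 2) (nat_lit 16777257) (nat_lit 197) w53 = true := by decide +kernel
theorem cw54 : wchk (nat_lit 5) [] [l18] (nat_lit 34) (nat_lit 3) (nat_lit 1) (nat_lit 0) (nat_lit 156815616) (nat_lit 0) w54 = true := by decide +kernel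
theorem cw55 : wchk (nat_lit 5) [] [l19] (nat_lit 34) (nat_lit 3) (nat_lit 1) (nat_lit 0) (nat_lit 156815616) (nat_lit 0) w55 = true := by decide +kernel
theorem cw56 : wchk (nat_lit 5) [] [l11] (nat_lit 19) (nat_lit 2) (nat_lit 1) (nat_lit 0) (nat_lit 156652544) (nat_lit 0) w56 = true := by decide +kernel
theorem cw57 : wchk (nat_lit 5) [] [l19] (nat_lit 290) (nat_lit 0) (nat_lit 1) (nat_lit 1) (nat_lit 156815616) (nat_lit 0) w57 = true := by decide +kernel
theorem cw58 : wchk (nat_lit 5) [] [l19] (nat_lit 290) (nat_lit 0) (nat_lit 4) (nat_lit 1) (nat_lit 153676032) (nat_lit 0) w58 = true := by decide +kernel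
theorem cw59 : wchk (nat_lit 5) [] [l19] (nat_lit 290) (nat_lit 0) (nat_lit 1) (nat_lit 1) (nat_lit 156815616) (nat_lit 0) w59 = true := by decide +kernel
theorem cl22 : lchk (nat_lit 5) [w47, w56, w16, w52, w12, w53, w54, w55, w43, w29, w57, w58, w59] (nat_lit 23282688) .nil (.nod (nat_lit 421249788107300550073067730477834626834555575735385446956727795787) .nil .nil (.nod (nat_lit 292295658992448913640107611270592921617376380678313885746319411209) .nil (.nod (nat_lit 2623828525391647741218336966314246089422867245504662979215754) (.nod (nat_lit 61794674087586371976085301102318780377416577931189999199771561510936) .nil (.dwn (nat_lit 9097082317789573234267023606725034565850455148909626270404244071572697533807416366761984) (nat_lit 39281968128)) (.dwn (nat_lit 9097082317789573234267023606725034565850455148909626270404244071572697533807416366761984) (nat_lit 39281968128))) .nil (.dwn (nat_lit 292295853582602710688065156427878674686103101101882631327826004008) (nat_lit 4922229788))) (.nod (nat_lit 145264069824107386165225829203284842922178926423566347574199387050023174723368069890442) .nil (.dwn (nat_lit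 1139910544496354098334844124139554640914161004074269603605297033464133855653996085594200) (nat_lit 4922229760)) .dup))) .nil .nil l22 = true := by decide +kernel
theorem cw60 : wchk (nat_lit 5) [] [l22] (nat_lit 226) (nat_lit 2) (nat_lit 0) (nat_lit 0) (nat_lit 1230557440) (nat_lit 0) w60 = true := by decide +kernel
theorem cl23 : lchk (nat_lit 5) [w16] (nat_lit 33554481) .nil .nil .nil (.nod (nat_lit 26566657) .nil (.nod (nat_lit 48401093301198169687052671733631545482809091619610708046220960701214167301882116) .nil (.dwn (nat_lit 3885371364157336963535596649232690332789509206623366164388435929680601453035108958626) (nat_lit 16777361)) .dup) (.dwn (nat_lit 48401093301198169689676500259023178042092451598511512608151745277000133728272644) (nat_lit 209))) l23 = true := by decide +kernel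
theorem cw61 : wchk (nat_lit 5) [] [l23] (nat_lit 2) (nat_lit 0) (nat_lit 1) (nat_lit 0) (nat_lit 5820672) (nat_lit 0) w61 = true := by decide +kernel
theorem cl24 : lchk (nat_lit 5) [w42] (nat_lit 33554481) .nil .nil .nil (.nod (nat_lit 29577217) .nil (.nod (nat_lit 48401093301198169687052671733631545482809091619610708046220960701214167301882116) (.nod (nat_lit 3885371364157336963535596649232690332789509206623366164387816954311402981521889427874) .nil (.dwn (nat_lit 34968073639769002100142610228802525461859308494475780448767918199071602130681595953442) (nat_lit 150995089)) (.opn (nat_lit 34968073639769002100142610228802525461859308494475780448767918199071602130681595953442))) .nil (.dwn (nat_lit 3885371364157336963535596649232690332789509206623366164388435929680601453035108958626) (nat_lit 16777361))) (.dwn (nat_lit 48401093301198169689676500259023178042092451598511512608151745277000133728272644) (nat_lit 209))) l24 = true := by decide +kernel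
theorem cw62 : wchk (nat_lit 5) [] [l24] (nat_lit 2) (nat_lit 0) (nat_lit 1) (nat_lit 0) (nat_lit 5820672) (nat_lit 0) w62 = true := by decide +kernel
theorem cl25 : lchk (nat_lit 5) [] (nat_lit 16777617) .nil (.nod (nat_lit 421249788107300550073067730477834626834555575735385446956660687621) .nil .nil (.nod (nat_lit 50331779) .nil (.nod (nat_lit 3885341721382492210589568215060528108673680689283757674282802161035664839456824754436) .nil .nil (.dwn (nat_lit 3885341721382492210800194618757145744206938257030031269143853021519841956535757439010) (nat_lit 16777361))) .nil)) .nil .nil l25 = true := by decide +kernel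
theorem cw63 : wchk (nat_lit 5) [] [l25] (nat_lit 34) (nat_lit 3) (nat_lit 1) (nat_lit 0) (nat_lit 156815616) (nat_lit 0) w63 = true := by decide +kernel
theorem cw64 : wchk (nat_lit 5) [w16, w63] [] (nat_lit 1250) (nat_lit 0) (nat_lit 2) (nat_lit 2) (nat_lit 22114304) (nat_lit 4922229764) w64 = true := by decide +kernel
theorem cw65 : wchk (nat_lit 5) [w63] [] (nat_lit 1250) (nat_lit 0) (nat_lit 2) (nat_lit 2) (nat_lit 33554481) (nat_lit 4922229760) w65 = true := by decide +kernel
theorem cw66 : wchk (nat_lit 5) [] [] (nat_lit 1) (nat_lit 1) (nat_lit 4) (nat_lit 2) (nat_lit 193) (nat_lit 197) w66 = true := by decide +kernel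
theorem cl26 : lchk (nat_lit 5) [] (nat_lit 8388745) (.nod (nat_lit 88813697766364938963940772539691503190016) (.nod (nat_lit 88473415399444000500477397932259734978560) .nil .nil .nil) .nil .nil) .nil .nil .nil l26 = true := by decide +kernel
theorem cw67 : wchk (nat_lit 5) [] [l26] (nat_lit 3) (nat_lit 3) (nat_lit 0) (nat_lit 0) (nat_lit 19458304) (nat_lit 0) w67 = true := by decide +kernel
theorem cl27 : lchk (nat_lit 5) [w67] (nat_lit 16777617) .nil (.nod (nat_lit 421249788107300550073067730477834626834555575735385446956660687621) .nil .nil (.nod (nat_lit 46565377) .nil (.nod (nat_lit 3885341721382492210589568215060528108685098682395005828643176206545997453228005916932) (.nod (nat_lit 3885371364157336963535596649232690332789509206623366164387816954311402981521855873024) .nil .nil .nil) .nil (.dwn (nat_lit 68780501006966030708004861712796150522606800373065658522180119600913039965028386) (nat_lit 16777361))) .nil)) .nil .nil l27 = true := by decide +kernel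
theorem cw68 : wchk (nat_lit 5) [] [l27] (nat_lit 34) (nat_lit 3) (nat_lit 1) (nat_lit 0) (nat_lit 156815616) (nat_lit 0) w68 = true := by decide +kernel
theorem cw69 : wchk (nat_lit 5) [] [l1] (nat_lit 4) (nat_lit 2) (nat_lit 2) (nat_lit 0) (nat_lit 22205440) (nat_lit 0) w69 = true := by decide +kernel
theorem cw70 : wchk (nat_lit 5) [] [l5] (nat_lit 1) (nat_lit 1) (nat_lit 1) (nat_lit 0) (nat_lit 156652544) (nat_lit 0) w70 = true := by decide +kernel
theorem cl28 : lchk (nat_lit 5) [] (nat_lit 33554481) .nil .nil .nil (.nod (nat_lit 643) .nil (.nod (nat_lit 48401093301198169687052671733631545482666853590237755768493270115307688189493508) .nil .nil .nil) (.dwn (nat_lit 48401093301198169689676500259023178042092451598511512608151745277000133728272644) (nat_lit 209))) l28 = true := by decide +kernel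
theorem cw71 : wchk (nat_lit 5) [] [l28] (nat_lit 17) (nat_lit 1) (nat_lit 1) (nat_lit 0) (nat_lit 5820672) (nat_lit 0) w71 = true := by decide +kernel
theorem cw72 : wchk (nat_lit 5) [w71] [] (nat_lit 226) (nat_lit 1) (nat_lit 2) (nat_lit 2) (nat_lit 23282688) (nat_lit 33554481) w72 = true := by decide +kernel
theorem cw73 : wchk (nat_lit 5) [w71] [] (nat_lit 226) (nat_lit 1) (nat_lit 4) (nat_lit 2) (nat_lit 10724352) (nat_lit 33554473) w73 = true := by decide +kernel
theorem cw74 : wchk (nat_lit 5) [w71] [] (nat_lit 226) (nat_lit 1) (nat_lit 2) (nat_lit 2) (nat_lit 10724352) (nat_lit 33554481) w74 = true := by decide +kernel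
theorem cw75 : wchk (nat_lit 5) [] [] (nat_lit 0) (nat_lit 1) (nat_lit 2) (nat_lit 2) (nat_lit 33554481) (nat_lit 33554481) w75 = true := by decide +kernel
theorem cw76 : wchk (nat_lit 5) [w75] [] (nat_lit 1) (nat_lit 1) (nat_lit 1) (nat_lit 2) (nat_lit 23282688) (nat_lit 209) w76 = true := by decide +kernel
theorem cw77 : wchk (nat_lit 5) [w33] [] (nat_lit 1) (nat_lit 1) (nat_lit 4) (nat_lit 2) (nat_lit 80564224) (nat_lit 197) w77 = true := by decide +kernel
theorem cw78 : wchk (nat_lit 5) [] [] (nat_lit 0) (nat_lit 1) (nat_lit 4) (nat_lit 2) (nat_lit 33554465) (nat_lit 33554473) w78 = true := by decide +kernel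
theorem cw79 : wchk (nat_lit 5) [w78] [] (nat_lit 1) (nat_lit 1) (nat_lit 1) (nat_lit 2) (nat_lit 23282688) (nat_lit 209) w79 = true := by decide +kernel
theorem cl29 : lchk (nat_lit 5) [] (nat_lit 393) (.nod (nat_lit 7770692474547944931842379468657886895004174196324306531494093193488079233462820667392) .nil .nil (.nod (nat_lit 3885354690096486790214085172149927469240382421709103846170510385035375320553305931776) .nil (.opn (nat_lit 34968131072645263808975543433453550522855262747719782510275702034635375795912048640786)) .dup)) .nil .nil (.nod (nat_lit 11418025778355378770466537994294927220929462272) .nil .nil (.dwn (nat_lit 210624696324945610356089892884965881820405151472578238585199656960) (nat_lit 16777225))) l29 = true := by decide +kernel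
theorem cw80 : wchk (nat_lit 5) [] [l29] (nat_lit 34) (nat_lit 2) (nat_lit 4) (nat_lit 0) (nat_lit 22597888) (nat_lit 0) w80 = true := by decide +kernel
theorem cw81 : wchk (nat_lit 5) [w80] [] (nat_lit 1) (nat_lit 1) (nat_lit 4) (nat_lit 2) (nat_lit 23282688) (nat_lit 197) w81 = true := by decide +kernel
theorem cw82 : wchk (nat_lit 5) [w78] [] (nat_lit 1) (nat_lit 1) (nat_lit 1) (nat_lit 2) (nat_lit 15025152) (nat_lit 209) w82 = true := by decide +kernel
theorem cw83 : wchk (nat_lit 5) [] [l5] (nat_lit 1) (nat_lit 3) (nat_lit 0) (nat_lit 0) (nat_lit 22434816) (nat_lit 0) w83 = true := by decide +kernel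
theorem cw84 : wchk (nat_lit 5) [w1] [] (nat_lit 3) (nat_lit 1) (nat_lit 2) (nat_lit 2) (nat_lit 76263424) (nat_lit 33554481) w84 = true := by decide +kernel
theorem cw85 : wchk (nat_lit 5) [] [] (nat_lit 1) (nat_lit 0) (nat_lit 2) (nat_lit 2) (nat_lit 197) (nat_lit 33554481) w85 = true := by decide +kernel
theorem cw86 : wchk (nat_lit 5) [] [] (nat_lit 1) (nat_lit 0) (nat_lit 2) (nat_lit 2) (nat_lit 193) (nat_lit 33554481) w86 = true := by decide +kernel
theorem cw87 : wchk (nat_lit 5) [] [] (nat_lit 0) (nat_lit 1) (nat_lit 2) (nat_lit 2) (nat_lit 16777285) (nat_lit 33554481) w87 = true := by decide +kernel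
theorem cw88 : wchk (nat_lit 5) [] [] (nat_lit 0) (nat_lit 1) (nat_lit 2) (nat_lit 2) (nat_lit 16777281) (nat_lit 33554481) w88 = true := by decide +kernel
theorem cw89 : wchk (nat_lit 5) [w75] [] (nat_lit 3) (nat_lit 0) (nat_lit 1) (nat_lit 2) (nat_lit 23282688) (nat_lit 33554465) w89 = true := by decide +kernel
theorem cw90 : wchk (nat_lit 5) [w4] [] (nat_lit 3) (nat_lit 0) (nat_lit 0) (nat_lit 2) (nat_lit 22687744) (nat_lit 33554469) w90 = true := by decide +kernel
theorem cw91 : wchk (nat_lit 5) [] [l29] (nat_lit 33) (nat_lit 2) (nat_lit 0) (nat_lit 0) (nat_lit 20490496) (nat_lit 0) w91 = true := by decide +kernel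
theorem cw92 : wchk (nat_lit 5) [w91] [] (nat_lit 3) (nat_lit 1) (nat_lit 2) (nat_lit 2) (nat_lit 23282688) (nat_lit 33554481) w92 = true := by decide +kernel
theorem cl30 : lchk (nat_lit 5) [w84, w69, w85, w86, w87, w88, w89, w90, w92] (nat_lit 23282688) .nil .nil (.nod (nat_lit 7770684137517519845497558552509909551848928327675182483696898026191157498397407051776) (.nod (nat_lit 17995062394691816326334925678056293789343696255523107390614968141259972810957236731987) .nil .nil (.nod (nat_lit 418258147524121702656222714520669961828450916376) .nil (.dwn (nat_lit 61794673936935930326744109046250049960116990302677815341687764943250) (nat_lit 4922229760)) .dup)) .nil (.nod (nat_lit 5391905878508037465185653239085134186906372695446045479322218503665427414405306587176) (.dwn (nat_lit 145264067971433958376041480756472905310778886402039583874489989487773447857245849344056) (nat_lit 627262464)) .nil .nil)) (.nod (nat_lit 160805415403892935350121420589270738246513703725461772350987418900071323253098804150272) .nil (.dwn (nat_lit 45622083159502580999309929363282294469028988675620742405346769518303187159963648) (nat_lit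 5446413312)) .dup) l30 = true := by decide +kernel
theorem cw93 : wchk (nat_lit 5) [] [l30] (nat_lit 273) (nat_lit 1) (nat_lit 2) (nat_lit 0) (nat_lit 22597888) (nat_lit 0) w93 = true := by decide +kernel
theorem cw94 : wchk (nat_lit 5) [w69] [] (nat_lit 34) (nat_lit 2) (nat_lit 4) (nat_lit 2) (nat_lit 16777221) (nat_lit 82134016) w94 = true := by decide +kernel
theorem cw95 : wchk (nat_lit 5) [w69] [] (nat_lit 34) (nat_lit 2) (nat_lit 4) (nat_lit 2) (nat_lit 16777221) (nat_lit 82134016) w95 = true := by decide +kernel
theorem cw96 : wchk (nat_lit 5) [] [l4] (nat_lit 290) (nat_lit 2) (nat_lit 2) (nat_lit 0) (nat_lit 1230299392) (nat_lit 0) w96 = true := by decide +kernel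
theorem cw97 : wchk (nat_lit 5) [w96, w1] [] (nat_lit 34) (nat_lit 2) (nat_lit 0) (nat_lit 2) (nat_lit 627262464) (nat_lit 89739268) w97 = true := by decide +kernel
theorem cw98 : wchk (nat_lit 5) [w69] [] (nat_lit 17) (nat_lit 0) (nat_lit 4) (nat_lit 2) (nat_lit 197) (nat_lit 82134016) w98 = true := by decide +kernel
theorem cw99 : wchk (nat_lit 5) [w96, w1] [] (nat_lit 34) (nat_lit 2) (nat_lit 0) (nat_lit 2) (nat_lit 614704128) (nat_lit 89739268) w99 = true := by decide +kernel
theorem cl31 : lchk (nat_lit 5) [w65, w83, w93, w1, w69, w63, w66, w68, w70, w72, w73, w74, w76, w77, w79, w81, w82, w94, w95, w47, w97, w98, w99] (nat_lit 23282688) .nil (.nod (nat_lit 421249788107300550073067730477834626834555575735385446956727795787) .nil .nil (.nod (nat_lit 8296029825802795102681877715229545777853403631120046341075245631505) .nil (.nod (nat_lit 20782196625160384358087745105972523521796309763239088439119112759538423414167445701002) (.nod (nat_lit 1139880659947627017810804971061854835628626953189849915386574905014558368383082174611539) .nil .nil (.nod (nat_lit 15845392695397074029080547065893837914709116984)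 .nil (.dwn (nat_lit 3944026994006628060758794281577076866975274642550574317234077969678738) (nat_lit 314159875072)) .dup)) .nil (.nod (nat_lit 5391909583854893120819243677050211529801992188683219901931883472240728137211429947480) (.dwn (nat_lit 207429478080677572040011635740927504013258170350222286212065270063035016881485067487360) (nat_lit 39281968128)) .nil .nil)) (.nod (nat_lit 145264078161137811251991899700395763547709082166163546847585145432348482004511583371658) (.dwn (nat_lit 1139910552833384523421610195088616886487531296715756931335814965690544828354310173001904) (nat_lit 4922229760)) .nil .nil))) .nil .nil l31 = true := by decide +kernel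
theorem cw100 : wchk (nat_lit 5) [] [l31] (nat_lit 17634) (nat_lit 1) (nat_lit 0) (nat_lit 0) (nat_lit 78539968768) (nat_lit 0) w100 = true := by decide +kernel
theorem cw101 : wchk (nat_lit 5) [w69] [] (nat_lit 1) (nat_lit 1) (nat_lit 1) (nat_lit 2) (nat_lit 90334208) (nat_lit 209) w101 = true := by decide +kernel
theorem cw102 : wchk (nat_lit 5) [w71] [] (nat_lit 226) (nat_lit 1) (nat_lit 1) (nat_lit 2) (nat_lit 23282688) (nat_lit 33554481) w102 = true := by decide +kernel
theorem cw103 : wchk (nat_lit 5) [] [] (nat_lit 0) (nat_lit 1) (nat_lit 4) (nat_lit 2) (nat_lit 33554473) (nat_lit 33554469) w103 = true := by decide +kernel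
theorem cw104 : wchk (nat_lit 5) [w103] [] (nat_lit 1) (nat_lit 1) (nat_lit 1) (nat_lit 2) (nat_lit 23282688) (nat_lit 209) w104 = true := by decide +kernel
theorem cl32 : lchk (nat_lit 5) [] (nat_lit 401) (.nod (nat_lit 7770694327221372728901506245793647034010699585946073918778624031084226422747835663108) .nil .nil (.nod (nat_lit 3885356542769914587062582432146609220737304162289900825916113196988448973707156652194) .nil (.opn (nat_lit 34968132925318691604139044026753317287368183532247500608299398052680523248473795986210)) .dup)) .nil .nil (.nod (nat_lit 33554562) .nil .nil (.dwn (nat_lit 11417993111248154360993016157164602414755479812) (nat_lit 16777233))) l32 = true := by decide +kernel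
theorem cw105 : wchk (nat_lit 5) [] [l32] (nat_lit 34) (nat_lit 2) (nat_lit 1) (nat_lit 0) (nat_lit 22597888) (nat_lit 0) w105 = true := by decide +kernel
theorem cw106 : wchk (nat_lit 5) [w105] [] (nat_lit 1) (nat_lit 1) (nat_lit 1) (nat_lit 2) (nat_lit 23282688) (nat_lit 209) w106 = true := by decide +kernel
theorem cw107 : wchk (nat_lit 5) [w33] [] (nat_lit 1) (nat_lit 1) (nat_lit 1) (nat_lit 2) (nat_lit 88764416) (nat_lit 209) w107 = true := by decide +kernel
theorem cw108 : wchk (nat_lit 5) [w80] [] (nat_lit 1) (nat_lit 1) (nat_lit 1) (nat_lit 2) (nat_lit 10839040) (nat_lit 209) w108 = true := by decide +kernel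
theorem cl33 : lchk (nat_lit 5) [w4, w5, w7, w9, w8, w6] (nat_lit 22228992) .nil (.nod (nat_lit 421249781830198814686386966642045203626889159633030002492693282890) .nil .nil (.nod (nat_lit 210625600227595506038119796765227424279749599382680225682246598794) .nil .nil (.nod (nat_lit 210624796758573376542982025784181253699268443481638360941896663050) (.opn (nat_lit 145020044943565096530203928582114360664762300634519052071057114996443809615999904669720)) .nil .nil))) .nil (.nod (nat_lit 315937891896152692736037824448897856598644694783229336936574353546) .nil (.dwn (nat_lit 20689233988445008186437689952797163513105965321722388616639537832329719693146484375946) (nat_lit 89337856)) .dup) l33 = true := by decide +kernel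
theorem cw109 : wchk (nat_lit 5) [] [l33] (nat_lit 33) (nat_lit 1) (nat_lit 2) (nat_lit 0) (nat_lit 22597888) (nat_lit 0) w109 = true := by decide +kernel
theorem cw110 : wchk (nat_lit 5) [w109, w32] [] (nat_lit 226) (nat_lit 0) (nat_lit 0) (nat_lit 2) (nat_lit 89932800) (nat_lit 626230276) w110 = true := by decide +kernel
theorem cw111 : wchk (nat_lit 5) [] [l15] (nat_lit 1) (nat_lit 1) (nat_lit 0) (nat_lit 0) (nat_lit 22334464) (nat_lit 0) w111 = true := by decide +kernel
theorem cw112 : wchk (nat_lit 5) [] [l1] (nat_lit 4) (nat_lit 2) (nat_lit 1) (nat_lit 0) (nat_lit 22191104) (nat_lit 0) w112 = true := by decide +kernel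
theorem cw113 : wchk (nat_lit 5) [w112] [] (nat_lit 1) (nat_lit 1) (nat_lit 1) (nat_lit 2) (nat_lit 90391552) (nat_lit 209) w113 = true := by decide +kernel
theorem cw114 : wchk (nat_lit 5) [] [l23] (nat_lit 0) (nat_lit 0) (nat_lit 1) (nat_lit 0) (nat_lit 5444352) (nat_lit 0) w114 = true := by decide +kernel
theorem cw115 : wchk (nat_lit 5) [] [l23] (nat_lit 0) (nat_lit 0) (nat_lit 1) (nat_lit 0) (nat_lit 5413888) (nat_lit 0) w115 = true := by decide +kernel
theorem cw116 : wchk (nat_lit 5) [] [l23] (nat_lit 0) (nat_lit 0) (nat_lit 1) (nat_lit 0) (nat_lit 5415680) (nat_lit 0) w116 = true := by decide +kernel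
theorem cw117 : wchk (nat_lit 5) [w69] [] (nat_lit 34) (nat_lit 2) (nat_lit 1) (nat_lit 2) (nat_lit 16777233) (nat_lit 90334208) w117 = true := by decide +kernel
theorem cw118 : wchk (nat_lit 5) [w69] [] (nat_lit 34) (nat_lit 2) (nat_lit 1) (nat_lit 2) (nat_lit 16777233) (nat_lit 90334208) w118 = true := by decide +kernel
theorem cw119 : wchk (nat_lit 5) [] [l30] (nat_lit 4) (nat_lit 0) (nat_lit 4) (nat_lit 0) (nat_lit 5806336) (nat_lit 0) w119 = true := by decide +kernel
theorem cw120 : wchk (nat_lit 5) [w69] [] (nat_lit 17) (nat_lit 0) (nat_lit 1) (nat_lit 2) (nat_lit 209) (nat_lit 90334208) w120 = true := by decide +kernel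
theorem cl34 : lchk (nat_lit 5) [w101, w93, w32, w63, w66, w110, w111, w113, w114, w115, w116, w91, w80, w102, w104, w106, w107, w108, w117, w118, w47, w119, w120] (nat_lit 41966322688) .nil (.nod (nat_lit 421249788107300550073067730477834626834555575735385446956727795787) .nil .nil (.nod (nat_lit 8139809736892113104054790328460507314286605144876458352798586947593) .nil (.nod (nat_lit 145025024929739015017275155707561387327193584543527277345725727597005572589140217692554) (.nod (nat_lit 1139880658094953590014167094072826376036343599267873734942346707094979492086456640340043) .nil .nil (.nod (nat_lit 292295803365788827533765179493749655393703951032489108419104950304) .nil (.nod (nat_lit 2623828525605438691059144259542952241566460030766466480472458) (.dwn (nat_lit 145264068897770672274571044195257599263201542212167746602250509012498257619818021079104) (nat_lit 627262464)) .nil .nil) .dup)) .nil (.nod (nat_lit 3424817824167229256302443905371022788704296430658555498197851578296127099397764073568) (.dwn (nat_lit 207429479933350999837070762618496891918451588229359189504371972767703189743607313025144) (nat_lit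 895697920)) .nil .nil)) (.nod (nat_lit 145264079087474525150521463088963643617212344995045683108077165455716150927270766182794) (.dwn (nat_lit 1139910553759721237266219865193100300850793975481286121634694028197797769823155472779432) (nat_lit 5459100672)) .nil .nil))) .nil .nil l34 = true := by decide +kernel
theorem cw121 : wchk (nat_lit 5) [] [l34] (nat_lit 17634) (nat_lit 1) (nat_lit 0) (nat_lit 0) (nat_lit 78539968768) (nat_lit 0) w121 = true := by decide +kernel
theorem cw122 : wchk (nat_lit 5) [] [l13] (nat_lit 4) (nat_lit 3) (nat_lit 3) (nat_lit 0) (nat_lit 5677312) (nat_lit 0) w122 = true := by decide +kernel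
theorem cw123 : wchk (nat_lit 5) [] [l14] (nat_lit 4) (nat_lit 0) (nat_lit 3) (nat_lit 1) (nat_lit 5657600) (nat_lit 0) w123 = true := by decide +kernel
theorem cl35 : lchk (nat_lit 5) [w8, w5, w122, w123, w6] (nat_lit 89739264) .nil (.nod (nat_lit 22835996430967316348901994921903450495475777618) .nil (.nod (nat_lit 11418036667391120240497368822282365037545783442) .nil .nil (.nod (nat_lit 11417993111248154361208960052077919634672582674) .nil (.dwn (nat_lit 1134794036280618554991734490285693326765749607476208098351398946840) (nat_lit 626610176)) .dup)) .nil) .nil (.nod (nat_lit 17127005660143476824668851044105469949928013906) .nil (.dwn (nat_lit 11236584979754936897299293919265671882276314494064082490629896012178) (nat_lit 895045632)) .dup) l35 = true := by decide +kernel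
theorem cw124 : wchk (nat_lit 5) [] [l35] (nat_lit 273) (nat_lit 1) (nat_lit 0) (nat_lit 0) (nat_lit 22597888) (nat_lit 0) w124 = true := by decide +kernel
theorem cl36 : lchk (nat_lit 5) [w7, w5, w122, w21, w6] (nat_lit 89739264) .nil (.nod (nat_lit 22835996430967316348901994921903450495475777618) .nil (.nod (nat_lit 11418036667391120240497368822282365037545783442) .nil .nil (.nod (nat_lit 11417993111248154361208960052077919634672582674) .nil (.dwn (nat_lit 20933255163640442235202884211343827088413108582601510786238127130153603608721474392088) (nat_lit 626610176)) .dup)) .nil) .nil (.nod (nat_lit 17127005660143476824668851044105469949928013906) .nil (.dwn (nat_lit 11236584979754936897299293919265671882276314494064082490629896012178) (nat_lit 895045632)) .dup) l36 = true := by decide +kernel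
theorem cw125 : wchk (nat_lit 5) [] [l36] (nat_lit 273) (nat_lit 1) (nat_lit 0) (nat_lit 0) (nat_lit 22597888) (nat_lit 0) w125 = true := by decide +kernel
theorem cl37 : lchk (nat_lit 5) [w109, w32, w4, w125, w33, w124] (nat_lit 23160832) (.nod (nat_lit 17127027438214959764730512700080345583093547154) .nil .nil (.nod (nat_lit 5285663394454301210751717495158384575148543882508320227705910767049445081632621985874) (.dwn (nat_lit 20782195583031581223357070268327773233256552543076182640541102847970300981669249851424) (nat_lit 625764352)) .nil .nil)) .nil (.nod (nat_lit 11418036667391120240497368822282365037545783442) .nil .nil (.nod (nat_lit 11417993111248154361208960052077919634672582674) (.dwn (nat_lit 20933257942650583931926368463544899734581306901947778160037282194617173902066217158688) (nat_lit 627140608)) .nil .nil)) .nil l37 = true := by decide +kernel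
theorem cw126 : wchk (nat_lit 5) [] [l37] (nat_lit 3) (nat_lit 2) (nat_lit 1) (nat_lit 0) (nat_lit 22205440) (nat_lit 0) w126 = true := by decide +kernel
theorem cw127 : wchk (nat_lit 5) [w126] [] (nat_lit 1) (nat_lit 1) (nat_lit 1) (nat_lit 2) (nat_lit 90391552) (nat_lit 209) w127 = true := by decide +kernel
theorem cw128 : wchk (nat_lit 5) [] [l7] (nat_lit 0) (nat_lit 0) (nat_lit 1) (nat_lit 0) (nat_lit 5657600) (nat_lit 0) w128 = true := by decide +kernel
theorem cw129 : wchk (nat_lit 5) [] [l31] (nat_lit 1250) (nat_lit 3) (nat_lit 4) (nat_lit 0) (nat_lit 9817352448) (nat_lit 0) w129 = true := by decide +kernel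
theorem cw130 : wchk (nat_lit 5) [] [l31] (nat_lit 1250) (nat_lit 2) (nat_lit 1) (nat_lit 0) (nat_lit 9820459776) (nat_lit 0) w130 = true := by decide +kernel
theorem cw131 : wchk (nat_lit 5) [] [l31] (nat_lit 1250) (nat_lit 3) (nat_lit 1) (nat_lit 0) (nat_lit 9820492032) (nat_lit 0) w131 = true := by decide +kernel
theorem cw132 : wchk (nat_lit 5) [] [l31] (nat_lit 1250) (nat_lit 3) (nat_lit 1) (nat_lit 0) (nat_lit 9820492032) (nat_lit 0) w132 = true := by decide +kernel
theorem cw133 : wchk (nat_lit 5) [w71, w16] [] (nat_lit 226) (nat_lit 1) (nat_lit 2) (nat_lit 2) (nat_lit 23282688) (nat_lit 22114308) w133 = true := by decide +kernel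
theorem cw134 : wchk (nat_lit 5) [w85, w16] [] (nat_lit 0) (nat_lit 1) (nat_lit 1) (nat_lit 2) (nat_lit 15025152) (nat_lit 22630404) w134 = true := by decide +kernel
theorem cw135 : wchk (nat_lit 5) [] [] (nat_lit 34) (nat_lit 2) (nat_lit 4) (nat_lit 2) (nat_lit 16777221) (nat_lit 33554473) w135 = true := by decide +kernel
theorem cw136 : wchk (nat_lit 5) [] [] (nat_lit 34) (nat_lit 2) (nat_lit 4) (nat_lit 2) (nat_lit 16777221) (nat_lit 33554473) w136 = true := by decide +kernel
theorem cw137 : wchk (nat_lit 5) [] [l17] (nat_lit 34) (nat_lit 2) (nat_lit 1) (nat_lit 0) (nat_lit 156815616) (nat_lit 0) w137 = true := by decide +kernel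
theorem cw138 : wchk (nat_lit 5) [] [] (nat_lit 34) (nat_lit 2) (nat_lit 4) (nat_lit 2) (nat_lit 16777221) (nat_lit 33554473) w138 = true := by decide +kernel
theorem cl38 : lchk (nat_lit 5) [w86, w1, w69, w67, w71, w135, w136, w138] (nat_lit 7598319616) .nil (.nod (nat_lit 421249788107300550073067730477834626834555575735385446956727795787) .nil .nil (.nod (nat_lit 1548574110985419367214404903669436385667594325969800799699772002321) .nil (.nod (nat_lit 2623828525391655395280131228584074402389169853843893603271050) .nil .nil (.nod (nat_lit 10220718450578372321078212001823730545167915040) .nil (.dwn (nat_lit 19019278624791006218979819806037580975407020809432816223960905682114083587049180365202) (nat_lit 82126848)) .dup)) (.dwn (nat_lit 145264067045097244469637139037581202713669928219577911721680905151936454931401389638026) (nat_lit 627262492)))) .nil .nil l38 = true := by decide +kernel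
theorem cw139 : wchk (nat_lit 5) [] [l38] (nat_lit 226) (nat_lit 1) (nat_lit 0) (nat_lit 0) (nat_lit 1230557440) (nat_lit 0) w139 = true := by decide +kernel
theorem cw140 : wchk (nat_lit 5) [] [l0] (nat_lit 2) (nat_lit 0) (nat_lit 2) (nat_lit 0) (nat_lit 5530368) (nat_lit 0) w140 = true := by decide +kernel
theorem cw141 : wchk (nat_lit 5) [] [l0] (nat_lit 2) (nat_lit 0) (nat_lit 2) (nat_lit 0) (nat_lit 5415680) (nat_lit 0) w141 = true := by decide +kernel
theorem cw142 : wchk (nat_lit 5) [] [] (nat_lit 2) (nat_lit 0) (nat_lit 4) (nat_lit 2) (nat_lit 25165897) (nat_lit 33554465) w142 = true := by decide +kernel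
theorem cw143 : wchk (nat_lit 5) [] [l28] (nat_lit 26) (nat_lit 3) (nat_lit 4) (nat_lit 0) (nat_lit 3713280) (nat_lit 0) w143 = true := by decide +kernel
theorem cl39 : lchk (nat_lit 5) [w86, w1, w69, w33, w78, w142, w67, w143] (nat_lit 6638592) .nil (.nod (nat_lit 7770686916527661540664999137250606477984597206357652989415988343576709932751148548162) .nil (.nod (nat_lit 60448960176026005720532964049794324361441351696) .nil .nil (.dwn (nat_lit 11417993111248154382901887032737009998762082322) (nat_lit 610618368))) (.dwn (nat_lit 20782196509368295121062223068390188886750344489240572103288188972855771138716365488978) (nat_lit 90391572))) .nil (.nod (nat_lit 1537398432568550183996090236428871368162487545042152197362735497032552458075553302584) .nil (.dwn (nat_lit 48401093301199095527620747639396779535210280135753526861593437897277161909256578) (nat_lit 73747456)) .dup) l39 = true := by decide +kernel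
theorem cw144 : wchk (nat_lit 5) [] [l39] (nat_lit 26) (nat_lit 2) (nat_lit 1) (nat_lit 0) (nat_lit 156815616) (nat_lit 0) w144 = true := by decide +kernel
theorem cw145 : wchk (nat_lit 5) [w144] [] (nat_lit 0) (nat_lit 0) (nat_lit 1) (nat_lit 2) (nat_lit 23282688) (nat_lit 209) w145 = true := by decide +kernel
theorem cw146 : wchk (nat_lit 5) [w40, w16] [] (nat_lit 226) (nat_lit 1) (nat_lit 2) (nat_lit 2) (nat_lit 4922100736) (nat_lit 22114308) w146 = true := by decide +kernel
theorem cw147 : wchk (nat_lit 5) [w63] [] (nat_lit 1250) (nat_lit 0) (nat_lit 2) (nat_lit 2) (nat_lit 337) (nat_lit 4922229760) w147 = true := by decide +kernel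
theorem cl40 : lchk (nat_lit 5) [] (nat_lit 325) .nil .nil (.nod (nat_lit 421249681396571048499494745269414432304226501995342891068073967616) .nil .nil (.nod (nat_lit 1632046451200536998597305250033993268186612415560649006907530) .nil (.opn (nat_lit 3885368585147195269842528599803118968204190627621965567309834023543331551858701369354)) .dup)) (.nod (nat_lit 4845922539718540385691271696709504913764475290874000781082624) .nil (.dwn (nat_lit 3580618782970983831102576379084349415638991895816222484841925444362) (nat_lit 16777605)) (.opn (nat_lit 2523394897625445667196058600696332272862087693582142063772426))) l40 = true := by decide +kernel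
theorem cw148 : wchk (nat_lit 5) [] [l40] (nat_lit 1) (nat_lit 1) (nat_lit 4) (nat_lit 0) (nat_lit 5820672) (nat_lit 0) w148 = true := by decide +kernel
theorem cl41 : lchk (nat_lit 5) [] (nat_lit 389) (.nod (nat_lit 4845922539718517549681229434716318473231018403126234711064714) (.opn (nat_lit 3885427870696884773838965975701899964121101051793656955205600310523783055798467297418)) .nil (.nod (nat_lit 3885427870696884773838963351873374572488541768433678054401038379739207269832040906890) .nil (.opn (nat_lit 34968130146308549908550353861049677078858395045601091826823337982134794622427218313994)) .dup)) .nil .nil (.nod (nat_lit 210625600227595506038119796765227424279749599382680225682213044224) .nil .nil (.dwn (nat_lit 3885338942372350515000879681403339100712308793053847081160384323055406245599430836224) (nat_lit 16777221))) l41 = true := by decide +kernel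
theorem cw149 : wchk (nat_lit 5) [] [l41] (nat_lit 4) (nat_lit 2) (nat_lit 4) (nat_lit 0) (nat_lit 22597888) (nat_lit 0) w149 = true := by decide +kernel
theorem cl42 : lchk (nat_lit 5) [] (nat_lit 273) (.nod (nat_lit 5828025434995643657982044338970128127385419774332149357291542134045402483125670380036) .nil .nil (.opn (nat_lit 3885401006932181716481625083404852556893919730851726500132457702076808509816142037154))) .nil (.nod (nat_lit 67108939) .nil .nil (.nod (nat_lit 210624796758573376542982025784181253698448338281183334285795393796) .nil (.dwn (nat_lit 3885371364157336963746221445991263709332491232407547418086265292592586315807953256482) (nat_lit 16777361)) (.opn (nat_lit 3885371364157336963535599273061215724422068489983345065192378885095978767488282263946)))) .nil l42 = true := by decide +kernel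
theorem cw150 : wchk (nat_lit 5) [] [l42] (nat_lit 1) (nat_lit 3) (nat_lit 1) (nat_lit 0) (nat_lit 5820672) (nat_lit 0) w150 = true := by decide +kernel
theorem cw151 : wchk (nat_lit 5) [] [l1] (nat_lit 1) (nat_lit 1) (nat_lit 4) (nat_lit 0) (nat_lit 19601664) (nat_lit 0) w151 = true := by decide +kernel
theorem cw152 : wchk (nat_lit 5) [] [l0] (nat_lit 4) (nat_lit 2) (nat_lit 1) (nat_lit 0) (nat_lit 22354176) (nat_lit 0) w152 = true := by decide +kernel
theorem cw153 : wchk (nat_lit 5) [] [l0] (nat_lit 4) (nat_lit 2) (nat_lit 4) (nat_lit 0) (nat_lit 19601664) (nat_lit 0) w153 = true := by decide +kernel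
theorem cw154 : wchk (nat_lit 5) [] [l0] (nat_lit 4) (nat_lit 2) (nat_lit 1) (nat_lit 0) (nat_lit 22354176) (nat_lit 0) w154 = true := by decide +kernel
theorem cl43 : lchk (nat_lit 5) [w15, w1, w33, w148, w149, w150, w151, w152, w153, w154] (nat_lit 22293504) (.nod (nat_lit 421249781830198814686386966642045203626889159633030002492693282890) (.nod (nat_lit 20707494864086089899720766167588448239354342229529132365542280585300013817277332849034) .nil .nil (.dwn (nat_lit 145034983049413424210081580188443609095636523552316317948465036665552615017313693358080) (nat_lit 626273280))) .nil (.nod (nat_lit 5152864689486521911073898014533514983781675910783392284559797106052261009388799525002) (.dwn (nat_lit 145264065192423816680452790440118823452814618639265202932573468390709645671152082176032) (nat_lit 626273280)) .nil .nil)) .nil .nil (.nod (nat_lit 210624796758573376542982025784181253698448338281183334285828948106) .nil (.nod (nat_lit 20933258868987297829321140389443872757693690127883914742809882239237483433735669940618) (.opn (nat_lit 145264068897770672274571044195257599263201454397539009517186873800045991395396623484992))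 .nil .nil) .dup) l43 = true := by decide +kernel
theorem cw155 : wchk (nat_lit 5) [] [l43] (nat_lit 282) (nat_lit 1) (nat_lit 3) (nat_lit 0) (nat_lit 22597888) (nat_lit 0) w155 = true := by decide +kernel
theorem cw156 : wchk (nat_lit 5) [w155] [] (nat_lit 17) (nat_lit 1) (nat_lit 1) (nat_lit 2) (nat_lit 23282688) (nat_lit 209) w156 = true := by decide +kernel
theorem cw157 : wchk (nat_lit 5) [w34, w32] [] (nat_lit 226) (nat_lit 0) (nat_lit 0) (nat_lit 2) (nat_lit 22687744) (nat_lit 626230276) w157 = true := by decide +kernel
theorem cw158 : wchk (nat_lit 5) [] [l32] (nat_lit 33) (nat_lit 2) (nat_lit 1) (nat_lit 0) (nat_lit 22481408) (nat_lit 0) w158 = true := by decide +kernel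
theorem cl44 : lchk (nat_lit 5) [] (nat_lit 49) (.nod (nat_lit 67108939) .nil .nil (.nod (nat_lit 210625198493084441290550911274704338989098968831931779984004219140) .nil (.dwn (nat_lit 210624796758573376554400106007715339819688005784613922103160209506) (nat_lit 16777361)) (.opn (nat_lit 2623828525391643977363583512986925801598288006373783489216906)))) .nil (.nod (nat_lit 11418036667391120241116341830297595115909153028) .nil (.opn (nat_lit 210626403696617635544675647969807680982290527987607704895995510946)) .dup) .nil l44 = true := by decide +kernel
theorem cw159 : wchk (nat_lit 5) [] [l44] (nat_lit 3) (nat_lit 3) (nat_lit 1) (nat_lit 0) (nat_lit 5820672) (nat_lit 0) w159 = true := by decide +kernel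
theorem cw160 : wchk (nat_lit 5) [] [l40] (nat_lit 3) (nat_lit 2) (nat_lit 1) (nat_lit 0) (nat_lit 2304768) (nat_lit 0) w160 = true := by decide +kernel
theorem cw161 : wchk (nat_lit 5) [] [l1] (nat_lit 3) (nat_lit 2) (nat_lit 1) (nat_lit 0) (nat_lit 22307584) (nat_lit 0) w161 = true := by decide +kernel
theorem cl45 : lchk (nat_lit 5) [w154, w1, w15, w158, w159, w149, w160, w161] (nat_lit 21777408) .nil .nil (.nod (nat_lit 421249781830198814686386966642045203626889159633030002492693282890) .nil (.nod (nat_lit 2623828525391693286305952699085235682672360239330589002432906) .nil (.opn (nat_lit 7860112572600282440787921477726192549591209980606587728455230742544)) .dup) (.nod (nat_lit 2623828525391648404667888599168731961409784494355386533413258) (.dwn (nat_lit 145264066118760530578963456287503031679771041919256459591584776923180064125493345605672) (nat_lit 625757184)) .nil .nil)) (.nod (nat_lit 421249781830198814686386966642045203626889159633030002492693282890) .nil (.dwn (nat_lit 2623828525391694076604944225626398333272303732208475867971978) (nat_lit 88886272)) .dup) l45 = true := by decide +kernel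
theorem cw162 : wchk (nat_lit 5) [] [l45] (nat_lit 4) (nat_lit 1) (nat_lit 0) (nat_lit 0) (nat_lit 22597888) (nat_lit 0) w162 = true := by decide +kernel
theorem cw163 : wchk (nat_lit 5) [w162, w63] [] (nat_lit 1250) (nat_lit 0) (nat_lit 2) (nat_lit 2) (nat_lit 23282688) (nat_lit 4922229764) w163 = true := by decide +kernel
theorem cw164 : wchk (nat_lit 5) [] [l23] (nat_lit 0) (nat_lit 3) (nat_lit 1) (nat_lit 0) (nat_lit 5428224) (nat_lit 0) w164 = true := by decide +kernel
theorem cw165 : wchk (nat_lit 5) [w164, w63] [] (nat_lit 1250) (nat_lit 0) (nat_lit 2) (nat_lit 2) (nat_lit 23282688) (nat_lit 4922229764) w165 = true := by decide +kernel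
theorem cw166 : wchk (nat_lit 5) [w42, w63] [] (nat_lit 1250) (nat_lit 0) (nat_lit 2) (nat_lit 2) (nat_lit 22709248) (nat_lit 4922229764) w166 = true := by decide +kernel
theorem cw167 : wchk (nat_lit 5) [] [l45] (nat_lit 0) (nat_lit 3) (nat_lit 1) (nat_lit 0) (nat_lit 5413888) (nat_lit 0) w167 = true := by decide +kernel
theorem cw168 : wchk (nat_lit 5) [] [l1] (nat_lit 4) (nat_lit 1) (nat_lit 0) (nat_lit 0) (nat_lit 22205440) (nat_lit 0) w168 = true := by decide +kernel
theorem cw169 : wchk (nat_lit 5) [] [l5] (nat_lit 4) (nat_lit 3) (nat_lit 3) (nat_lit 0) (nat_lit 5413888) (nat_lit 0) w169 = true := by decide +kernel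
theorem cw170 : wchk (nat_lit 5) [] [l7] (nat_lit 4) (nat_lit 0) (nat_lit 0) (nat_lit 0) (nat_lit 5802752) (nat_lit 0) w170 = true := by decide +kernel
theorem cw171 : wchk (nat_lit 5) [] [l5] (nat_lit 4) (nat_lit 3) (nat_lit 3) (nat_lit 0) (nat_lit 5413888) (nat_lit 0) w171 = true := by decide +kernel
theorem cl46 : lchk (nat_lit 5) [] (nat_lit 81) (.nod (nat_lit 67108938) .nil .nil (.nod (nat_lit 3885356542769914587062582432146609220725885907841794876274999211606417852337418666244) .nil .nil (.opn (nat_lit 3885341721382492210800194618757145744206938257030031269143853021519841956535757439138)))) .nil .nil (.nod (nat_lit 210625600227595506038119796765227424279749599382680225682213044484) .nil (.dwn (nat_lit 3885371364157336963746221445991263709332491232407547418086265292592586315807953256610) (nat_lit 16777361)) (.opn (nat_lit 3885371364157336963535599273061215724422068489983345065192378885095978767488282263946))) l46 = true := by decide +kernel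
theorem cw172 : wchk (nat_lit 5) [] [l46] (nat_lit 4) (nat_lit 1) (nat_lit 0) (nat_lit 0) (nat_lit 5820672) (nat_lit 0) w172 = true := by decide +kernel
theorem cw173 : wchk (nat_lit 5) [] [l1] (nat_lit 20) (nat_lit 0) (nat_lit 0) (nat_lit 1) (nat_lit 22205440) (nat_lit 0) w173 = true := by decide +kernel
theorem cw174 : wchk (nat_lit 5) [] [l23] (nat_lit 0) (nat_lit 0) (nat_lit 0) (nat_lit 1) (nat_lit 5657600) (nat_lit 0) w174 = true := by decide +kernel
theorem cl47 : lchk (nat_lit 5) [w168, w38, w174, w10, w39, w173, w3, w124, w4, w169, w170, w171, w172] (nat_lit 23282688) .nil .nil (.nod (nat_lit 7770679505833950352428492028707565921958494367388036716786426980513473409867308859394) .nil .nil (.dwn (nat_lit 3885356542769914587349028830380853674376340013260476542811528357285006927699210403970) (nat_lit 23282696))) (.nod (nat_lit 7770694327221372728901506245793647034010699585946073918778624031084226422747902771330) (.nod (nat_lit 48401093301198169687052671733631545482666853590237759043322642445744062850924930) .nil (.dwn (nat_lit 145156166418325629847564072638514301512480115004824966057190596108058942311148270735392)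 (nat_lit 627262464)) .dup) .nil (.nod (nat_lit 40990399590010223946093126788993591167621215358662340565718255306796797842686274) (.dwn (nat_lit 145264070750444100071630171072826987168394960091304649894557211717166430481940283304008) (nat_lit 627262464)) .nil .nil)) l47 = true := by decide +kernel
theorem cw175 : wchk (nat_lit 5) [] [l47] (nat_lit 4) (nat_lit 2) (nat_lit 2) (nat_lit 0) (nat_lit 22597888) (nat_lit 0) w175 = true := by decide +kernel
theorem cw176 : wchk (nat_lit 5) [w175, w16] [] (nat_lit 3) (nat_lit 1) (nat_lit 2) (nat_lit 2) (nat_lit 90391552) (nat_lit 22114308) w176 = true := by decide +kernel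
theorem cw177 : wchk (nat_lit 5) [] [l23] (nat_lit 4) (nat_lit 2) (nat_lit 2) (nat_lit 0) (nat_lit 22483200) (nat_lit 0) w177 = true := by decide +kernel
theorem cw178 : wchk (nat_lit 5) [w16] [] (nat_lit 3) (nat_lit 1) (nat_lit 2) (nat_lit 2) (nat_lit 209) (nat_lit 22114304) w178 = true := by decide +kernel
theorem cw179 : wchk (nat_lit 5) [w16] [] (nat_lit 3) (nat_lit 1) (nat_lit 4) (nat_lit 2) (nat_lit 193) (nat_lit 13742080) w179 = true := by decide +kernel
theorem cw180 : wchk (nat_lit 5) [] [l5] (nat_lit 2) (nat_lit 3) (nat_lit 1) (nat_lit 0) (nat_lit 5657600) (nat_lit 0) w180 = true := by decide +kernel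
theorem cl48 : lchk (nat_lit 5) [w67, w32, w11, w13, w12] (nat_lit 6638592) .nil (.nod (nat_lit 229690597671633462837777860016443542733459) .nil (.nod (nat_lit 142238029372952277727690585906479112389010) .nil .nil (.dwn (nat_lit 11417993111248154360618966325600165050577846290) (nat_lit 610618368))) (.nod (nat_lit 20827014532260133779236357481329237775510179049162191258459941974367939745745268113810) (.opn (nat_lit 20827015458596847677765920920113931728168088065744773973119454425958604325617168568344)) .nil .nil)) .nil .nil l48 = true := by decide +kernel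
theorem cw181 : wchk (nat_lit 5) [] [l48] (nat_lit 26) (nat_lit 2) (nat_lit 1) (nat_lit 0) (nat_lit 156815616) (nat_lit 0) w181 = true := by decide +kernel
theorem cw182 : wchk (nat_lit 5) [w181, w177] [] (nat_lit 0) (nat_lit 0) (nat_lit 0) (nat_lit 2) (nat_lit 23282688) (nat_lit 21712900) w182 = true := by decide +kernel
theorem cw183 : wchk (nat_lit 5) [w16] [] (nat_lit 0) (nat_lit 1) (nat_lit 4) (nat_lit 2) (nat_lit 16777281) (nat_lit 13742080) w183 = true := by decide +kernel
theorem cw184 : wchk (nat_lit 5) [w69, w16] [] (nat_lit 3) (nat_lit 1) (nat_lit 2) (nat_lit 2) (nat_lit 23225344) (nat_lit 22114308) w184 = true := by decide +kernel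
theorem cw185 : wchk (nat_lit 5) [w1, w16] [] (nat_lit 3) (nat_lit 1) (nat_lit 2) (nat_lit 2) (nat_lit 21655552) (nat_lit 22114308) w185 = true := by decide +kernel
theorem cw186 : wchk (nat_lit 5) [w69, w16] [] (nat_lit 3) (nat_lit 1) (nat_lit 4) (nat_lit 2) (nat_lit 6466560) (nat_lit 13742084) w186 = true := by decide +kernel
theorem cw187 : wchk (nat_lit 5) [] [l10] (nat_lit 273) (nat_lit 1) (nat_lit 2) (nat_lit 0) (nat_lit 22209024) (nat_lit 0) w187 = true := by decide +kernel
theorem cw188 : wchk (nat_lit 5) [] [l9] (nat_lit 273) (nat_lit 1) (nat_lit 2) (nat_lit 0) (nat_lit 22205440) (nat_lit 0) w188 = true := by decide +kernel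
theorem cw189 : wchk (nat_lit 5) [] [l5] (nat_lit 273) (nat_lit 1) (nat_lit 2) (nat_lit 0) (nat_lit 22205440) (nat_lit 0) w189 = true := by decide +kernel
theorem cw190 : wchk (nat_lit 5) [] [l12] (nat_lit 0) (nat_lit 1) (nat_lit 3) (nat_lit 0) (nat_lit 5413888) (nat_lit 0) w190 = true := by decide +kernel
theorem cl49 : lchk (nat_lit 5) [w7, w5, w21, w8, w18, w190] (nat_lit 55267328) (.nod (nat_lit 7770686916527661540664999137250606477984596976667055317782525505798849916307605815362) (.nod (nat_lit 3885356542769914587062582432146609220725885907841794876274999211606417852337452220546) .nil .nil (.nod (nat_lit 3885341721382492210589568215060528108688457723293192963809469974063075319453904273410) (.nod (nat_lit 144903845266173664973910914187933689796730880269960699713401375869732803065599587979280) .nil (.opn (nat_lit 1139546996242290909157661099077157440761865690521831075728291468563631586404589658087424)) .dup) .nil (.dwn (nat_lit 144903845266173664973910914187933689796320901284980568246056479121448841245798044209168) (nat_lit 625692672)))) .nil .nil) .nil .nil (.nod (nat_lit 3885341721382492210589568215060528108673680689283757674282802161035664839456858308610)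 .nil (.dwn (nat_lit 48401093301206024760167131592112216314773725877459330345685529373020841496805762) (nat_lit 625692672)) .dup) l49 = true := by decide +kernel
theorem cw191 : wchk (nat_lit 5) [] [l49] (nat_lit 291) (nat_lit 1) (nat_lit 2) (nat_lit 0) (nat_lit 22597888) (nat_lit 0) w191 = true := by decide +kernel
theorem cw192 : wchk (nat_lit 5) [] [] (nat_lit 0) (nat_lit 2) (nat_lit 0) (nat_lit 2) (nat_lit 33554449) (nat_lit 33554513) w192 = true := by decide +kernel
theorem cw193 : wchk (nat_lit 5) [] [] (nat_lit 0) (nat_lit 2) (nat_lit 0) (nat_lit 2) (nat_lit 33554449) (nat_lit 33554513) w193 = true := by decide +kernel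
theorem cl50 : lchk (nat_lit 5) [w8, w25, w193, w192] (nat_lit 55209984) (.nod (nat_lit 3885349132076203398826075323603568664699783298562776275278900686321041345897155264578) .nil .nil (.nod (nat_lit 3885341721382492210589568215060528108673680689283757674282802161035664839456858308610) .nil .nil (.nod (nat_lit 3885341721382492210589568215060528108673680689283757674282802161035664839456858308610) .nil .nil (.dwn (nat_lit 3885341721382492210589568215060528108688457723293192963809469974063075319453904273410) (nat_lit 627262472))))) (.nod (nat_lit 3885356542769914587062582432146609220725885907841794876274999211606417852337452220546) .nil (.dwn (nat_lit 3885341721382492210589568215060528109100573409311694387977287844758075505322150068226) (nat_lit 625635328)) (.opn (nat_lit 48401093301198169687052671733631972375384159268016082746469285529114099335561602))) .nil .nil l50 = true := by decide +kernel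
theorem cw194 : wchk (nat_lit 5) [] [l50] (nat_lit 4) (nat_lit 3) (nat_lit 2) (nat_lit 0) (nat_lit 5820672) (nat_lit 0) w194 = true := by decide +kernel
theorem cl51 : lchk (nat_lit 5) [w10, w32, w33, w4, w20, w191, w194, w49, w187, w188, w189] (nat_lit 21712896) (.nod (nat_lit 7770694327221372728901506245793647034010699585946073918778624031084226422747902771330) .nil .nil (.nod (nat_lit 3885356542769914587062582432146609220740662941851230165801667024633828332334498185346) (.nod (nat_lit 20569716172944392105110167523946310671557498204290711377482321110415183172298150944784) .nil (.dwn (nat_lit 1139546996242290909157661099077157440761865690521831075728291468563631586404589658087424) (nat_lit 4920659968)) (.opn (nat_lit 1139546996242290909157661099077157440761865690521831075728291468563631586404589658087424))) (.dwn (nat_lit 20569716172944392106244961710877370875768053715940139877068768028240036460573865975824) (nat_lit 625692672)) .dup)) .nil .nil (.nod (nat_lit 3885356542769914587062582432146609220725885907841794876274999211606417852337452220546) .nil .nil (.nod (nat_lit 3885341721382492210589568215060528108688808976363623433328995407867850687872497614850)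 (.dwn (nat_lit 20569716172944392106244961861527812525048392047999086034052762015139288985479723524112) (nat_lit 90391592)) .nil .nil)) l51 = true := by decide +kernel
theorem cw195 : wchk (nat_lit 5) [] [l51] (nat_lit 4) (nat_lit 2) (nat_lit 1) (nat_lit 0) (nat_lit 22597888) (nat_lit 0) w195 = true := by decide +kernel
theorem cw196 : wchk (nat_lit 5) [w195, w16] [] (nat_lit 3) (nat_lit 1) (nat_lit 2) (nat_lit 2) (nat_lit 23282688) (nat_lit 22114308) w196 = true := by decide +kernel
theorem cl52 : lchk (nat_lit 5) [w192, w25] (nat_lit 55862272) (.nod (nat_lit 5828018024301932469745537230427087571342190137614915796530713096059945631102380539970) (.nod (nat_lit 3885349132076203398826075323603568664699783298562776275278900686321041345897155264578) .nil .nil (.nod (nat_lit 3885341721382492210589568215060528108673680689283757674282802161035664839456858308610) .nil .nil (.opn (nat_lit 3885341721382492210863056264905868064742164412389800205592592261772389473394746195970)))) .nil .nil) .nil (.nod (nat_lit 3885341721382492210589568215060528108673680689283757674282802161035664839456858308610) .nil (.dwn (nat_lit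 48401093301206032229215161307899017033813531079183106890834603887820050930860418) (nat_lit 626287616)) .dup) .nil l52 = true := by decide +kernel
theorem cw197 : wchk (nat_lit 5) [] [l52] (nat_lit 2) (nat_lit 3) (nat_lit 3) (nat_lit 0) (nat_lit 5820672) (nat_lit 0) w197 = true := by decide +kernel
theorem cw198 : wchk (nat_lit 5) [] [] (nat_lit 0) (nat_lit 0) (nat_lit 4) (nat_lit 2) (nat_lit 25165869) (nat_lit 16777281) w198 = true := by decide +kernel
theorem cw199 : wchk (nat_lit 5) [] [l8] (nat_lit 1) (nat_lit 2) (nat_lit 2) (nat_lit 0) (nat_lit 22438400) (nat_lit 0) w199 = true := by decide +kernel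
theorem cw200 : wchk (nat_lit 5) [] [l8] (nat_lit 1) (nat_lit 2) (nat_lit 2) (nat_lit 0) (nat_lit 22438400) (nat_lit 0) w200 = true := by decide +kernel
theorem cw201 : wchk (nat_lit 5) [] [l8] (nat_lit 1) (nat_lit 2) (nat_lit 4) (nat_lit 0) (nat_lit 20603392) (nat_lit 0) w201 = true := by decide +kernel
theorem cl53 : lchk (nat_lit 5) [] (nat_lit 33554449) .nil .nil .nil (.nod (nat_lit 261) (.nod (nat_lit 260) .nil .nil .nil) .nil (.dwn (nat_lit 40990399590009933182166222707402404370455444027452273581274748713543609291374852) (nat_lit 177))) l53 = true := by decide +kernel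
theorem cw202 : wchk (nat_lit 5) [] [l53] (nat_lit 4) (nat_lit 2) (nat_lit 2) (nat_lit 0) (nat_lit 22597888) (nat_lit 0) w202 = true := by decide +kernel
theorem cw203 : wchk (nat_lit 5) [] [l28] (nat_lit 4) (nat_lit 2) (nat_lit 0) (nat_lit 0) (nat_lit 20124928) (nat_lit 0) w203 = true := by decide +kernel
theorem cl54 : lchk (nat_lit 5) [w17, w1, w69, w202, w203, w67, w86, w199, w200, w201] (nat_lit 22644736) (.nod (nat_lit 60448960516308372641471427513168931793209305105) (.nod (nat_lit 7770694443013461966217701669364632042698607559676016474431404136576421461506912158034) .nil .nil (.nod (nat_lit 5147885629649317314670682240084127076843939804424925521190717585484473980837358372896) .nil .nil (.nod (nat_lit 3885341721382492272376233172783871627884488454227549906854945850992447258053306220546) (.opn (nat_lit 9096934578199746985584009881831765454106539795016410128699992839339458479707683061698560)) .dup .dup))) (.nod (nat_lit 17689626948038337565910325210030370208493198575787146666447735200139808996970461135186) (.opn (nat_lit 145264068897770672274571044195257599263201542212167746602250470931039791853819673610312))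 .nil .nil) .dup) .nil .nil .nil l54 = true := by decide +kernel
theorem cw204 : wchk (nat_lit 5) [] [l54] (nat_lit 20) (nat_lit 3) (nat_lit 0) (nat_lit 0) (nat_lit 5820672) (nat_lit 0) w204 = true := by decide +kernel
theorem cw205 : wchk (nat_lit 5) [] [l54] (nat_lit 0) (nat_lit 3) (nat_lit 0) (nat_lit 0) (nat_lit 5820672) (nat_lit 0) w205 = true := by decide +kernel
theorem cw206 : wchk (nat_lit 5) [] [l54] (nat_lit 0) (nat_lit 3) (nat_lit 0) (nat_lit 0) (nat_lit 5820672) (nat_lit 0) w206 = true := by decide +kernel
theorem cw207 : wchk (nat_lit 5) [w16, w69] [] (nat_lit 20) (nat_lit 0) (nat_lit 0) (nat_lit 2) (nat_lit 23275520) (nat_lit 90391556) w207 = true := by decide +kernel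
theorem cw208 : wchk (nat_lit 5) [] [l54] (nat_lit 20) (nat_lit 3) (nat_lit 3) (nat_lit 0) (nat_lit 5820672) (nat_lit 0) w208 = true := by decide +kernel
theorem cw209 : wchk (nat_lit 5) [] [l7] (nat_lit 1) (nat_lit 1) (nat_lit 2) (nat_lit 0) (nat_lit 22597888) (nat_lit 0) w209 = true := by decide +kernel
theorem cl55 : lchk (nat_lit 5) [] (nat_lit 465) .nil .nil (.nod (nat_lit 7770694327221372728901506245793647034010699585946073918778624031084226422747835663108) .nil .nil (.nod (nat_lit 3885356542769914587062582432146609220725885907841794876274999211606417852337989091490) (.opn (nat_lit 3885341721382492210589568215060528108673680689283757674288372906006737797808964763650)) .nil .nil)) (.nod (nat_lit 67108994) .nil .nil (.dwn (nat_lit 210625600227595506038119796765227424280368572390695455760609968388) (nat_lit 16777297))) l55 = true := by decide +kernel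
theorem cw210 : wchk (nat_lit 5) [] [l55] (nat_lit 33) (nat_lit 2) (nat_lit 0) (nat_lit 0) (nat_lit 22597888) (nat_lit 0) w210 = true := by decide +kernel
theorem cl56 : lchk (nat_lit 5) [] (nat_lit 465) .nil .nil (.nod (nat_lit 7770694327221372728901506245793647034010699585946073918778624031084226422747835663108) .nil .nil (.nod (nat_lit 3885356542769914587062582432146609220725885907841794876274999211606417852337989091490) (.opn (nat_lit 3885341721382492210589568215060528108776442796065045056311646448462463649554521653250)) .nil .nil)) (.nod (nat_lit 67108994) .nil .nil (.dwn (nat_lit 210625600227595506038119796765227424280368572390695455760609968388) (nat_lit 16777297))) l56 = true := by decide +kernel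
theorem cw211 : wchk (nat_lit 5) [] [l56] (nat_lit 33) (nat_lit 2) (nat_lit 0) (nat_lit 0) (nat_lit 22597888) (nat_lit 0) w211 = true := by decide +kernel
theorem cl57 : lchk (nat_lit 5) [w4, w210, w211, w9, w7, w8, w6] (nat_lit 21712896) .nil .nil (.nod (nat_lit 7770686916527661540664999137250606477984596976667055317782525505798849916307605815362) .nil .nil (.nod (nat_lit 3885356542769914587062582432146609220725885907841794876274999211606417852337452220546) (.opn (nat_lit 48401093301198169687052671733631605892598003259879521570891035544216568334385538)) .nil (.nod (nat_lit 3885341721382492210589568215060528108735197994534450787671544180536444947101489561602) (.opn (nat_lit 144900526201727766550340366264546514779584790694182310427205582795610214815136570843160)) .nil .nil))) (.nod (nat_lit 7770694327221372728901506245793647034010699585946073918778624031084226422747902771330) .nil (.dwn (nat_lit 48401093301199284773500343932163549561001970969790901252539265663816167208255874) (nat_lit 88821760)) .dup) l57 = true := by decide +kernel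
theorem cw212 : wchk (nat_lit 5) [] [l57] (nat_lit 33) (nat_lit 1) (nat_lit 2) (nat_lit 0) (nat_lit 22597888) (nat_lit 0) w212 = true := by decide +kernel
theorem cw213 : wchk (nat_lit 5) [w212, w16] [] (nat_lit 3) (nat_lit 1) (nat_lit 2) (nat_lit 2) (nat_lit 23282688) (nat_lit 22114308) w213 = true := by decide +kernel
theorem cw214 : wchk (nat_lit 5) [] [l1] (nat_lit 3) (nat_lit 1) (nat_lit 2) (nat_lit 0) (nat_lit 5413888) (nat_lit 0) w214 = true := by decide +kernel
theorem cw216 : wchk (nat_lit 5) [] [] (nat_lit 0) (nat_lit 2) (nat_lit 4) (nat_lit 2) (nat_lit 33554465) (nat_lit 425) w216 = true := by decide +kernel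
theorem cl58 : lchk (nat_lit 5) [w211, w5, w18] (nat_lit 56765440) (.nod (nat_lit 22835996430967316348901994921903450495475777618) .nil .nil (.nod (nat_lit 11418036667391120240497368822282365037545783442) (.nod (nat_lit 284826604685631391464125800740849928993560810571188633954989113362) .nil (.opn (nat_lit 7873880717329865703282619160182086310482111621561778393992587925504)) .nil) .nil .nil)) .nil .nil (.nod (nat_lit 11418036667391120240497368822282365037545783442) .nil (.dwn (nat_lit 145126284648608691080908284215839019475800976156267786979240554940889733115885933035922) (nat_lit 626667528)) .dup) l58 = true := by decide +kernel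
theorem cw217 : wchk (nat_lit 5) [] [l58] (nat_lit 2321) (nat_lit 1) (nat_lit 1) (nat_lit 0) (nat_lit 22597888) (nat_lit 0) w217 = true := by decide +kernel
theorem cw218 : wchk (nat_lit 5) [] [] (nat_lit 0) (nat_lit 0) (nat_lit 4) (nat_lit 2) (nat_lit 25165861) (nat_lit 16777289) w218 = true := by decide +kernel
theorem cw219 : wchk (nat_lit 5) [] [l7] (nat_lit 2) (nat_lit 0) (nat_lit 1) (nat_lit 0) (nat_lit 5657600) (nat_lit 0) w219 = true := by decide +kernel
theorem cw220 : wchk (nat_lit 5) [] [l0] (nat_lit 3) (nat_lit 2) (nat_lit 1) (nat_lit 0) (nat_lit 22192896) (nat_lit 0) w220 = true := by decide +kernel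
theorem cw221 : wchk (nat_lit 5) [w220] [] (nat_lit 2) (nat_lit 0) (nat_lit 2) (nat_lit 2) (nat_lit 23282688) (nat_lit 16777297) w221 = true := by decide +kernel
theorem cw222 : wchk (nat_lit 5) [] [l50] (nat_lit 2) (nat_lit 3) (nat_lit 1) (nat_lit 0) (nat_lit 5802752) (nat_lit 0) w222 = true := by decide +kernel
theorem cw223 : wchk (nat_lit 5) [] [l50] (nat_lit 2) (nat_lit 3) (nat_lit 1) (nat_lit 0) (nat_lit 5802752) (nat_lit 0) w223 = true := by decide +kernel
theorem cl59 : lchk (nat_lit 5) [w211, w193] (nat_lit 56708096) (.nod (nat_lit 17127005660143476824668851044105469949928013906) (.nod (nat_lit 11418014889319637300435707166307489404380250194) .nil .nil (.nod (nat_lit 11417993111248154360374045510332613771214716946) .nil .nil (.opn (nat_lit 7873160809086037675223750425294927502165857169489250454473600401426)))) .nil .nil) .nil (.nod (nat_lit 11417993111248154360374045510332613771214716946) .nil (.dwn (nat_lit 7873880767546679585949221484125392947288161383332810441606320619922) (nat_lit 627190788)) .dup) .nil l59 = true := by decide +kernel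
theorem cw224 : wchk (nat_lit 5) [] [l59] (nat_lit 161) (nat_lit 3) (nat_lit 1) (nat_lit 0) (nat_lit 5820672) (nat_lit 0) w224 = true := by decide +kernel
theorem cw225 : wchk (nat_lit 5) [] [] (nat_lit 2) (nat_lit 0) (nat_lit 2) (nat_lit 2) (nat_lit 337) (nat_lit 16777297) w225 = true := by decide +kernel
theorem cw226 : wchk (nat_lit 5) [] [l56] (nat_lit 2) (nat_lit 3) (nat_lit 1) (nat_lit 0) (nat_lit 5788416) (nat_lit 0) w226 = true := by decide +kernel
theorem cl60 : lchk (nat_lit 5) [w193, w25] (nat_lit 56765440) (.nod (nat_lit 17127027438214959764730512700080345583093547154) (.nod (nat_lit 11418014889319637300435707166307489404380250194) .nil .nil (.nod (nat_lit 11417993111248154360374045510332613771214716946) .nil .nil (.dwn (nat_lit 284826604685631391464125800740849928993560810571188633954989113362) (nat_lit 627190784)))) .nil .nil) .nil (.nod (nat_lit 11417993111248154360374045510332613771214716946) .nil .nil (.dwn (nat_lit 284826604685631391464125800740849928993560810571188633954989113362) (nat_lit 627190784))) .nil l60 = true := by decide +kernel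
theorem cw227 : wchk (nat_lit 5) [] [l60] (nat_lit 2) (nat_lit 3) (nat_lit 1) (nat_lit 0) (nat_lit 5820672) (nat_lit 0) w227 = true := by decide +kernel
theorem cl61 : lchk (nat_lit 5) [w194, w43, w224, w16, w4, w33, w225, w226, w227, w217, w8, w218, w219, w221, w222, w223] (nat_lit 23211008) (.nod (nat_lit 22836018549321166209902120041252933560409522323) .nil .nil (.nod (nat_lit 11417993111248154360374045510332613771214716946) .nil .nil (.dwn (nat_lit 271868256296726893882155418428210793766821765629324192531118817298) (nat_lit 23282696)))) (.nod (nat_lit 284106803152532865394256030488044248558083260681966249919691882642) .nil (.nod (nat_lit 1127325088684530534377502779392629423397365997218172628287934980136) .nil (.dwn (nat_lit 7874780903935534036397648125007624008841329992945554049375197104184) (nat_lit 627190784)) .dup) (.nod (nat_lit 5391910510191606958680738158472422126619704733473809685627050702620614782311159466072) (.dwn (nat_lit 145264073529454241767218861389181069026185086910010004833017265774168689775123706316912) (nat_lit 627190784)) .nil .nil)) .nil .nil l61 = true := by decide +kernel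
theorem cw228 : wchk (nat_lit 5) [] [l61] (nat_lit 3) (nat_lit 3) (nat_lit 0) (nat_lit 0) (nat_lit 5820672) (nat_lit 0) w228 = true := by decide +kernel
theorem cw229 : wchk (nat_lit 5) [w10, w16] [] (nat_lit 3) (nat_lit 1) (nat_lit 2) (nat_lit 2) (nat_lit 88764416) (nat_lit 22114308) w229 = true := by decide +kernel
theorem cw230 : wchk (nat_lit 5) [] [l57] (nat_lit 2) (nat_lit 3) (nat_lit 1) (nat_lit 0) (nat_lit 5788416) (nat_lit 0) w230 = true := by decide +kernel
theorem cw233 : wchk (nat_lit 5) [] [] (nat_lit 0) (nat_lit 0) (nat_lit 0) (nat_lit 2) (nat_lit 16777285) (nat_lit 33554449) w233 = true := by decide +kernel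
theorem cw234 : wchk (nat_lit 5) [] [] (nat_lit 2) (nat_lit 0) (nat_lit 4) (nat_lit 2) (nat_lit 325) (nat_lit 16777281) w234 = true := by decide +kernel
theorem cw235 : wchk (nat_lit 5) [] [] (nat_lit 0) (nat_lit 0) (nat_lit 4) (nat_lit 2) (nat_lit 25165893) (nat_lit 16777281) w235 = true := by decide +kernel
theorem cw236 : wchk (nat_lit 5) [] [] (nat_lit 2) (nat_lit 0) (nat_lit 4) (nat_lit 2) (nat_lit 25165893) (nat_lit 16777281) w236 = true := by decide +kernel
theorem cw239 : wchk (nat_lit 5) [] [l55] (nat_lit 3) (nat_lit 1) (nat_lit 2) (nat_lit 0) (nat_lit 5806336) (nat_lit 0) w239 = true := by decide +kernel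
theorem cw241 : wchk (nat_lit 5) [] [l5] (nat_lit 2) (nat_lit 3) (nat_lit 1) (nat_lit 0) (nat_lit 5657600) (nat_lit 0) w241 = true := by decide +kernel
theorem cw243 : wchk (nat_lit 5) [] [] (nat_lit 3) (nat_lit 0) (nat_lit 4) (nat_lit 2) (nat_lit 425) (nat_lit 33554433) w243 = true := by decide +kernel
theorem cw245 : wchk (nat_lit 5) [] [l49] (nat_lit 2) (nat_lit 3) (nat_lit 3) (nat_lit 0) (nat_lit 5562624) (nat_lit 0) w245 = true := by decide +kernel

end Pool.Agent.W319.GCI.K5
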