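import Pool.Agent.W319.GCI.K5D0
import Pool.Agent.W319.GCI.K5D1
import Pool.Agent.W319.GCI.K5D2
import Pool.Agent.W319.GCI.K5D3
import Pool.Agent.W319.GCI.K5D4
import Pool.Agent.W319.GCI.K5D5
import Pool.Agent.W319.GCI.K5D6
import Pool.Agent.W319.GCI.K5D7
import Pool.Agent.W319.GCI.K5D8
import Pool.Agent.W319.GCI.K5D9
import Pool.Agent.W319.GCI.K5D10
import Pool.Agent.W319.GCI.K5D11
import Pool.Agent.W319.GCI.K5D12
import Pool.Agent.W319.GCI.K5D13
import Pool.Agent.W319.GCI.K5D14
import Pool.Agent.W319.GCI.K5D15
set_option autoImplicit false
set_option maxRecDepth 100000
set_option linter.all false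
namespace Pool.Agent.W319.GCI.K5
open Pool.Agent.W319.GCI

theorem cl1026 : lchk (nat_lit 5) [w461, w201, w1449, w162, w154, w2724, w1409, w401, w3762, w13] (nat_lit 23275520) .nil (.nod (nat_lit 815873960086375453992085512) (.nod (nat_lit 61468525092830263014792765587307848903633666458) .nil .nil (.dwn (nat_lit 426843934425555992588853222106461981120286447632) (nat_lit 627190792))) .nil (.dwn (nat_lit 1133894150975833520437382205911601554579582387329392751227472707930) (nat_lit 90319880))) (.nod (nat_lit 20694216869421157614275349859166516988212055805612526226224918350282957931984013230106) (.nod (nat_lit 20558098057878676747326148105594478961574683541488755789561362530913512574385970126888) .nil .nil (.dwn (nat_lit 145262402418022368812011727157272192424247177598723666052376986708485214810403955429376) (nat_lit 627255296))) (.nod (nat_lit 1122375819941840610515818450437598677732844494757863367537279541288) .nil (.opn (nat_lit 7874690614104172234381536213668735863621234346144376059277137563648)) .dup) (.dwn (nat_lit 20573041721747287827365108302577600798726413603067363375545413370198138870553623842888) (nat_lit 90384384))) .nil l1026 = true :=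 by decide +kernel
theorem cw4535 : wchk (nat_lit 5) [] [l1026] (nat_lit 0) (nat_lit 3) (nat_lit 1) (nat_lit 0) (nat_lit 5820672) (nat_lit 0) w4535 = true := by decide +kernel
theorem cl1027 : lchk (nat_lit 5) [w461, w199, w201, w1449, w164, w153, w2726, w2724, w3, w1409, w401, w3762, w12, w13] (nat_lit 23275520) .nil (.nod (nat_lit 815873960086375453967312912) (.nod (nat_lit 60414817604458626438862910605922073276621783450) .nil .nil (.dwn (nat_lit 425790226937184356012866245527673366854443014168) (nat_lit 625642508))) .nil (.dwn (nat_lit 1114456678609290657156819035640586600824875293754053869176931483994) (nat_lit 88771596))) (.nod (nat_lit 20694217795757871512804913247734397057715318631772403551349430665943629995289050349594) (.nod (nat_lit 20558098984215390645855711494162359031077946367648633114498029799470921320556620587064) .nil .nil (.dwn (nat_lit 145262402418022368812011727157272192424247177598723666052376986708485214810403955429376) (nat_lit 627255296))) (.nod (nat_lit 20903380804617214657905978867803867867556663164826244340718989890394193074775024902200) .nil (.dwn (nat_lit 145262402418022368819886417771376364658628713812392401915951937782972827147212153049088)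 (nat_lit 627255296)) .dup) (.dwn (nat_lit 20573044500757429522953798618931682656516540421772718314005467427200398163737007804520) (nat_lit 90384384))) .nil l1027 = true := by decide +kernel
theorem cw4536 : wchk (nat_lit 5) [] [l1027] (nat_lit 0) (nat_lit 3) (nat_lit 1) (nat_lit 0) (nat_lit 5820672) (nat_lit 0) w4536 = true := by decide +kernel
theorem cl1028 : lchk (nat_lit 5) [w20] (nat_lit 8388621) (.nod (nat_lit 3296778507467700790295003136) (.nod (nat_lit 2573611711508539113172673663515143230606761885689418633707930) .nil (.nod (nat_lit 210626353479803752439811457059958209199719531665333561366388146458) .nil .nil (.nod (nat_lit 210624796758573376645743955618637836839291624753186279864022335498) .nil (.dwn (nat_lit 15375596353752038637773520192008408505408483788810448246215656079642) (nat_lit 1224736909)) .dup)) .nil) .nil (.dwn (nat_lit 2171877200443791544404920839384497288334538751415112226046298) (nat_lit 173))) .nil .nil .nil l1028 = true := by decide +kernel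
theorem cw4537 : wchk (nat_lit 5) [] [l1028] (nat_lit 1) (nat_lit 2) (nat_lit 0) (nat_lit 0) (nat_lit 22597888) (nat_lit 0) w4537 = true := by decide +kernel
theorem cl1029 : lchk (nat_lit 5) [w22] (nat_lit 8388621) (.nod (nat_lit 3295985149898578689899102208) (.nod (nat_lit 2573611711508539113172673663515143230606761885689418633707930) .nil (.nod (nat_lit 210626353479803752439811457059958209199719531665333561366388146458) .nil .nil (.nod (nat_lit 210624796758573376645743955618637836839291624753186279864022335498) .nil (.dwn (nat_lit 283629690918325609292784144197003571457554933315756454318766969921093265908858743685402) (nat_lit 1224736909)) .dup)) .nil) .nil (.dwn (nat_lit 2171877200443791544404920839384497288334538751415112226046298) (nat_lit 173))) .nil .nil .nil l1029 = true := by decide +kernel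
theorem cw4538 : wchk (nat_lit 5) [] [l1029] (nat_lit 1) (nat_lit 2) (nat_lit 0) (nat_lit 0) (nat_lit 22597888) (nat_lit 0) w4538 = true := by decide +kernel
theorem cw4539 : wchk (nat_lit 5) [] [l878] (nat_lit 1) (nat_lit 0) (nat_lit 3) (nat_lit 0) (nat_lit 22354176) (nat_lit 0) w4539 = true := by decide +kernel
theorem cw4540 : wchk (nat_lit 5) [] [l37] (nat_lit 1) (nat_lit 0) (nat_lit 3) (nat_lit 0) (nat_lit 22454528) (nat_lit 0) w4540 = true := by decide +kernel
theorem cw4541 : wchk (nat_lit 5) [] [l278] (nat_lit 1) (nat_lit 0) (nat_lit 3) (nat_lit 0) (nat_lit 21666048) (nat_lit 0) w4541 = true := by decide +kernel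
theorem cl1030 : lchk (nat_lit 5) [w10] (nat_lit 8388621) (.nod (nat_lit 3296778507467700790295003136) (.nod (nat_lit 2573611711508539113172673663515143230606761885689418633707930) .nil (.nod (nat_lit 210626353479803752439811457059958209199719531665333561366388146458) .nil .nil (.dwn (nat_lit 210624796758573376645743955618637836839291624753186279864022335498) (nat_lit 150995085))) .nil) .nil (.dwn (nat_lit 2171877200443791544404920839384497288334538751415112226046298) (nat_lit 173))) .nil .nil .nil l1030 = true := by decide +kernel
theorem cw4542 : wchk (nat_lit 5) [] [l1030] (nat_lit 1) (nat_lit 2) (nat_lit 0) (nat_lit 0) (nat_lit 22597888) (nat_lit 0) w4542 = true := by decide +kernel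
theorem cl1031 : lchk (nat_lit 5) [w3878, w368, w1, w203, w2913, w4537, w69, w4538, w4539, w2443, w4540, w4541, w949, w3424, w4542] (nat_lit 592675840) (.nod (nat_lit 20586315316312829093672722695360261109151539050781941072783736002645826632508615163904) (.nod (nat_lit 315937898173254428122718588284687279806311116825436373135084486795) .nil (.nod (nat_lit 75963325878652637585757964088097595530423566378630850047207100440) .nil .nil (.nod (nat_lit 210624796758573379884589811863491342237723110272835124197846941706) (.dwn (nat_lit 9097082322421256803267632869782561837967357621093770945642348943271554980013006912956464) (nat_lit 39281968160)) .nil .nil)) .nil) (.nod (nat_lit 40064062876112432224477394494665254161660498503860804988372862707896870144462920) (.dwn (nat_lit 145264072603117527868486103848575914271226560138604978643771567100786058202700933847136) (nat_lit 894665728)) .nil .nil) (.nod (nat_lit 40064062876112432224477394494665254161660498503860804988372862707896870144462920) (.dwn (nat_lit 145264072603117527868486103848575914271226560138604978643771567100786058202700933847136) (nat_lit 894665728)) .nil .nil)) .nil .nil .nil l1031 = true := by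 decide +kernel
theorem cw4543 : wchk (nat_lit 5) [] [l1031] (nat_lit 209) (nat_lit 1) (nat_lit 3) (nat_lit 0) (nat_lit 1230557440) (nat_lit 0) w4543 = true := by decide +kernel
theorem cl1032 : lchk (nat_lit 5) [w209, w93, w2914, w15, w220, w17, w659, w2919, w3797, w1501, w2554, w2629, w2628, w2532, w2627, w4543, w270, w3212, w164, w42, w4413] (nat_lit 21784576) (.nod (nat_lit 7770686916527661540664999137250606477984596976667055317785343360934664861748585037890) (.nod (nat_lit 1017898935189042566326192689145216810267606511537204573995037829152) .nil (.nod (nat_lit 290766048564468151884895342268156254258104832864058239382061735992) (.nod (nat_lit 3348876424328420422230981194070273748227113668608) .nil .nil (.dwn (nat_lit 26732902621622867114757589117759031464287457038336) (nat_lit 39280470016))) .nil (.dwn (nat_lit 61775866334065923107908042204011680042114175679908835798970336333824) (nat_lit 4920731648))) .nil) (.nod (nat_lit 20689237693791863782099026039106984502237169683076639536298371992980286525661468123168) (.dwn (nat_lit 204169245279478836223585452272923606012922966266905711388361804005055254367592562354288) (nat_lit 625764352)) .nil .nil)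 (.nod (nat_lit 20689237693791863782099026039106984502237169683076639536298371992980286525661468123168) (.dwn (nat_lit 204169245279478836223585452272923606012922966266905711388361804005055254367592562354288) (nat_lit 625764352)) .nil .nil)) .nil .nil (.nod (nat_lit 5378626841714302043615140613330639644581307968267840785963425502288722632533451638904) .nil (.nod (nat_lit 48401093301198449745018494212589610945183606664371427896351546807480736118997378) (.dwn (nat_lit 145020059764952518906675503786181807851023031250985963792584852844601032260982254559376) (nat_lit 625764352)) .nil .nil) (.nod (nat_lit 48401093301198449745018494212589610945183606664371427896351546807480736118997378) (.dwn (nat_lit 145020059764952518906675503786181807851023031250985963792584852844601032260982254559376) (nat_lit 625764352)) .nil .nil)) l1032 = true := by decide +kernel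
theorem cw4544 : wchk (nat_lit 5) [] [l1032] (nat_lit 275) (nat_lit 1) (nat_lit 3) (nat_lit 0) (nat_lit 22597888) (nat_lit 0) w4544 = true := by decide +kernel
theorem cl1033 : lchk (nat_lit 5) [w109, w1408, w16, w4, w33, w1101] (nat_lit 88836096) .nil (.nod (nat_lit 618973026461974152140030107) (.nod (nat_lit 618971827423609361019175002) .nil .nil (.dwn (nat_lit 426219510837738199750862228883840556074318954522) (nat_lit 626273284))) .nil .nil) (.nod (nat_lit 20905035357780326667900010303016374749275821748973810038111253353013141082246777667610) (.nod (nat_lit 20903376172933645164135785954372185260244192243363536074471533609732458256591909722144) .nil .nil (.dwn (nat_lit 1636873552642860163642998531851260449958666982634730827778775497346104634462241176358912) (nat_lit 7068157952))) (.dwn (nat_lit 20903376172933645175379030336466600829322059963976027703321069890688377816415300917280) (nat_lit 894142464)) .dup) .nil l1033 = true := by decide +kernel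
theorem cw4545 : wchk (nat_lit 5) [] [l1033] (nat_lit 1) (nat_lit 3) (nat_lit 1) (nat_lit 0) (nat_lit 5820672) (nat_lit 0) w4545 = true := by decide +kernel
theorem cl1034 : lchk (nat_lit 5) [w1408, w17, w16, w432, w2740, w1616, w3, w2684, w2685] (nat_lit 22293504) .nil (.nod (nat_lit 803444691503462547789092872) (.nod (nat_lit 60844098782753534831814350061679975873174831514) .nil .nil (.dwn (nat_lit 426219508115479264405840956362736993293581178880) (nat_lit 626273280))) .nil (.nod (nat_lit 1122375518640957311954780773950992601539062163106642707729021403482) .nil (.opn (nat_lit 7862362185428617260986909955038625999522374876223434466142741616640)) .dup)) (.nod (nat_lit 20905035357780326667900010303016374749275821748973810038111253353013141082246777667610) (.nod (nat_lit 19095641191801231503537756399231110476878095156682083490181631250513142334794535987232) .nil .nil (.dwn (nat_lit 5362023182454384799720963922648273868098411878626665254205483045094163415595864463368) (nat_lit 626689044))) (.dwn (nat_lit 20903378951943786860857740602422378880470546900363617159179430873118474974086584506416) (nat_lit 89818132)) .dup) .nil l1034 = true := by decide +kernel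
theorem cw4546 : wchk (nat_lit 5) [] [l1034] (nat_lit 1) (nat_lit 3) (nat_lit 1) (nat_lit 0) (nat_lit 5820672) (nat_lit 0) w4546 = true := by decide +kernel
theorem cw4547 : wchk (nat_lit 5) [] [l268] (nat_lit 0) (nat_lit 1) (nat_lit 3) (nat_lit 0) (nat_lit 5576960) (nat_lit 0) w4547 = true := by decide +kernel
theorem cw4548 : wchk (nat_lit 5) [] [l64] (nat_lit 2) (nat_lit 1) (nat_lit 4) (nat_lit 0) (nat_lit 2516224) (nat_lit 0) w4548 = true := by decide +kernel
theorem cw4549 : wchk (nat_lit 5) [w4548, w16] [] (nat_lit 1) (nat_lit 2) (nat_lit 3) (nat_lit 2) (nat_lit 23282688) (nat_lit 88893444) w4549 = true := by decide +kernel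
theorem cw4550 : wchk (nat_lit 5) [] [l185] (nat_lit 1) (nat_lit 3) (nat_lit 1) (nat_lit 0) (nat_lit 5802752) (nat_lit 0) w4550 = true := by decide +kernel
theorem cw4551 : wchk (nat_lit 5) [w1384, w16] [] (nat_lit 1) (nat_lit 3) (nat_lit 3) (nat_lit 2) (nat_lit 22293504) (nat_lit 88893444) w4551 = true := by decide +kernel
theorem cw4552 : wchk (nat_lit 5) [] [l718] (nat_lit 1) (nat_lit 2) (nat_lit 1) (nat_lit 0) (nat_lit 5444352) (nat_lit 0) w4552 = true := by decide +kernel
theorem cw4553 : wchk (nat_lit 5) [w651, w16] [] (nat_lit 17) (nat_lit 2) (nat_lit 3) (nat_lit 2) (nat_lit 626624512) (nat_lit 88893444) w4553 = true := by decide +kernel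
theorem cl1035 : lchk (nat_lit 5) [w1408, w17, w16, w924, w864, w642, w1296, w260, w3] (nat_lit 22293504) .nil (.nod (nat_lit 803444691503462547789092872) (.nod (nat_lit 60844098782753534831814350061679975873174831514) .nil .nil (.nod (nat_lit 426219508115479264405840956362736993293581178880) .nil (.opn (nat_lit 61782255519729896853243943403739693183362489711765674142857505036288)) .dup)) .nil (.dwn (nat_lit 1122375518640957311954780773950992601539062163106642707729021403482) (nat_lit 89402368))) (.nod (nat_lit 20905035357780326667900010303016374749275821748973810038111253353013141082246777667610) (.nod (nat_lit 20933256089977156133732447599911707157489912856366535290740775395554472351663163869216) .nil .nil (.dwn (nat_lit 5362023182454384799720963922648273868098411878626665254205483045094163415595864463368) (nat_lit 41427946516))) (.dwn (nat_lit 20933256089977156198889916089104070484225918820012575345037406075513315696675967899712) (nat_lit 5189159956)) .dup) .nil l1035 = true := by decide +kernel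
theorem cw4554 : wchk (nat_lit 5) [] [l1035] (nat_lit 17) (nat_lit 3) (nat_lit 1) (nat_lit 0) (nat_lit 5820672) (nat_lit 0) w4554 = true := by decide +kernel
theorem cw4555 : wchk (nat_lit 5) [] [l450] (nat_lit 35) (nat_lit 1) (nat_lit 2) (nat_lit 0) (nat_lit 156797696) (nat_lit 0) w4555 = true := by decide +kernel
theorem cw4556 : wchk (nat_lit 5) [] [l32] (nat_lit 2) (nat_lit 3) (nat_lit 3) (nat_lit 0) (nat_lit 5444352) (nat_lit 0) w4556 = true := by decide +kernel
theorem cl1036 : lchk (nat_lit 5) [w1408, w17, w16, w924, w864, w4556, w4555, w3] (nat_lit 22293504) .nil (.nod (nat_lit 803444691503462547789092872) (.nod (nat_lit 60844098782753534831814350061679975873174831514) .nil .nil (.nod (nat_lit 426219508115479264405840956362736993293581178880) .nil (.opn (nat_lit 1139681455868986708520846076482085289299471828421673558665981921848165429042203750586368)) .dup)) .nil (.dwn (nat_lit 1122375518640957311954780773950992601539062163106642707729021403482) (nat_lit 89402368))) (.nod (nat_lit 20905035357780326667900010303016374749275821748973810038111253353013141082246777667610) (.nod (nat_lit 20933256089977156133732447599911707157489912856366535290740775395554472351663163869216)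 .nil .nil (.dwn (nat_lit 5362023182454384799720963922648273868098411878626665254205483045094163415595864463368) (nat_lit 627262484))) (.dwn (nat_lit 20933256089977156134867241837059581244855392771260169537640712168384699924658830088248) (nat_lit 90391572)) .dup) .nil l1036 = true := by decide +kernel
theorem cw4557 : wchk (nat_lit 5) [] [l1036] (nat_lit 17) (nat_lit 3) (nat_lit 1) (nat_lit 0) (nat_lit 5820672) (nat_lit 0) w4557 = true := by decide +kernel
theorem cw4558 : wchk (nat_lit 5) [w85, w16] [] (nat_lit 17) (nat_lit 2) (nat_lit 3) (nat_lit 2) (nat_lit 621628416) (nat_lit 88893444) w4558 = true := by decide +kernel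
theorem cl1037 : lchk (nat_lit 5) [w4427, w1196, w4506, w16, w401, w23, w710, w3127, w2015, w1305, w4553, w4554, w4557, w4558, w4531, w4512, w3433, w4545, w112, w4546, w901, w4547, w4549, w4544, w1397, w1398, w4550, w4551, w4552, w4454, w4513, w4534, w4457, w4535, w3305, w3304, w4536, w434, w435, w50, w4508, w4510] (nat_lit 23282688) (.nod (nat_lit 1202059340872426031043246432458635581767284808416015927995973580210385916655170609383441) (.nod (nat_lit 20905036168324951329399914811705536151864080273054291049431483554682447996264939966488) .nil (.nod (nat_lit 290676060033989648429464992390985149152508773950002491429459519537) (.nod (nat_lit 3349808196394559077220940621961839867238841276480) .nil .nil (.nod (nat_lit 15757591677954665803842854345693446157771376720) (.dwn (nat_lit 20933263500670867323103749246903505099442211090016990428767905844101949131339890854000) (nat_lit 314159875132)) .nil .nil)) .nil (.nod (nat_lit 1133174945767399856056561854050063213049967058488391560226961791120) (.dwn (nat_lit 20933270911364578521449336872057761608661709765425254049551233387550836896255058544816) (nat_lit 39281968128)) .nil .nil)) (.nod (nat_lit 5391923478905601537260226935852745280363171710489851886728616268432164954411572549832)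 .nil (.dwn (nat_lit 5391926257915743232849007240737305641608728870905601124191924940129265122249532672224) (nat_lit 4922229760)) .dup)) (.nod (nat_lit 28703955743634633780734987938996300619567107432275655231909230722223795778735494826240) (.dwn (nat_lit 207429497533748563909130848161857463955591223974186471675053686284542400325667488434464) (nat_lit 627262464)) .nil .nil) .dup) .nil .nil (.nod (nat_lit 5166177074401957679429352901443979488271705157362587429811302516716615602064695281968) (.dwn (nat_lit 17927037784443391707511845528870815999261170834131882039749104211876881160819715950904) (nat_lit 90391612)) .nil .nil) l1037 = true := by decide +kernel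
theorem cw4562 : wchk (nat_lit 5) [] [] (nat_lit 0) (nat_lit 1) (nat_lit 2) (nat_lit 2) (nat_lit 16777233) (nat_lit 33554469) w4562 = true := by decide +kernel
theorem cw4566 : wchk (nat_lit 5) [] [l878] (nat_lit 2) (nat_lit 0) (nat_lit 4) (nat_lit 0) (nat_lit 20275456) (nat_lit 0) w4566 = true := by decide +kernel
theorem cw4572 : wchk (nat_lit 5) [] [l573] (nat_lit 17) (nat_lit 3) (nat_lit 1) (nat_lit 0) (nat_lit 5788416) (nat_lit 0) w4572 = true := by decide +kernel
theorem cw4573 : wchk (nat_lit 5) [] [l656] (nat_lit 0) (nat_lit 3) (nat_lit 1) (nat_lit 0) (nat_lit 5802752) (nat_lit 0) w4573 = true := by decide +kernel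
theorem cw4574 : wchk (nat_lit 5) [] [l511] (nat_lit 0) (nat_lit 1) (nat_lit 1) (nat_lit 0) (nat_lit 5806336) (nat_lit 0) w4574 = true := by decide +kernel
theorem cl1042 : lchk (nat_lit 5) [w1120, w125, w217, w8, w841, w3134, w2766, w54, w1612, w7, w3093, w1072, w913] (nat_lit 22307840) (.nod (nat_lit 618973008015230078430478490) .nil (.nod (nat_lit 273488049845339956068483723106042531309790108447463656748480463258) (.nod (nat_lit 7862542162489574267471551146677488945351122341333772512363993942016) .nil (.opn (nat_lit 1139684775859769320912583696606158312252622155916613357104046261740633718369422555006976)) .dup) .nil .nil) (.nod (nat_lit 36126007269271980157556399365922719314244052976519046443779446384969744334463592038810) .nil (.dwn (nat_lit 145247466164847468929205530857187886871960374381494300861698478976161183146677612480560) (nat_lit 626287616)) .dup)) (.nod (nat_lit 618971827423609361019175002) .nil .nil (.nod (nat_lit 285096871577950200379675521379007403919017438723704852297369518106) (.dwn (nat_lit 144995150570715787446729932915942768112577859617174891517255067891535560811137660012632) (nat_lit 627190832)) .nil .nil)) .nil .nil l1042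 = true := by decide +kernel
theorem cw4578 : wchk (nat_lit 5) [] [l1042] (nat_lit 25) (nat_lit 3) (nat_lit 1) (nat_lit 0) (nat_lit 5820672) (nat_lit 0) w4578 = true := by decide +kernel
theorem cw4585 : wchk (nat_lit 5) [w16] [] (nat_lit 2) (nat_lit 0) (nat_lit 1) (nat_lit 2) (nat_lit 21777408) (nat_lit 16777265) w4585 = true := by decide +kernel
theorem cl1043 : lchk (nat_lit 5) [w128, w219, w15, w125, w436, w4566, w4038, w581, w2795, w1067, w1192, w1064] (nat_lit 625757184) (.nod (nat_lit 23086365251066354907513133056) .nil .nil (.nod (nat_lit 1139561936200812664642459429899927201707139723186884276699933858069436133453936929538074) .nil (.dwn (nat_lit 9096733718757398939621710323269006324630214112766567935041777826682969148009498153621504) (nat_lit 39280462848)) .dup)) (.nod (nat_lit 14820938941827263612535147944149593968959553690) (.nod (nat_lit 292295709209262797159426879790299699024120305247782503352814225425) .nil (.nod (nat_lit 7862362386295872792934474889668408277784696486848303474029834569768) .nil (.nod (nat_lit 5362027814137954292642179228103418966788456046772815620000077223324732928269764352056) (.dwn (nat_lit 145235849902455181368480818393900027840390657782579173656273291269653063505094229280840)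 (nat_lit 625757184)) .nil .nil) (.nod (nat_lit 5362027814137954292642179228103418966788456046772815620000077223324732928269764352056) (.dwn (nat_lit 145235849902455181368480818393900027840390657782579173656273291269653063505094229280840) (nat_lit 625757184)) .nil .nil)) .dup) .nil (.dwn (nat_lit 291576246639657981559266093882133410868894032949887063927881910360) (nat_lit 122440704))) .nil .nil l1043 = true := by decide +kernel
theorem cw4586 : wchk (nat_lit 5) [] [l1043] (nat_lit 2194) (nat_lit 1) (nat_lit 2) (nat_lit 0) (nat_lit 1230557440) (nat_lit 0) w4586 = true := by decide +kernel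
theorem cw4587 : wchk (nat_lit 5) [] [l120] (nat_lit 1) (nat_lit 3) (nat_lit 1) (nat_lit 0) (nat_lit 3492864) (nat_lit 0) w4587 = true := by decide +kernel
theorem cw4588 : wchk (nat_lit 5) [] [l82] (nat_lit 1) (nat_lit 3) (nat_lit 3) (nat_lit 0) (nat_lit 5557248) (nat_lit 0) w4588 = true := by decide +kernel
theorem cw4589 : wchk (nat_lit 5) [] [l83] (nat_lit 1) (nat_lit 3) (nat_lit 3) (nat_lit 0) (nat_lit 5557248) (nat_lit 0) w4589 = true := by decide +kernel
theorem cw4590 : wchk (nat_lit 5) [] [l322] (nat_lit 1) (nat_lit 2) (nat_lit 3) (nat_lit 0) (nat_lit 22350592) (nat_lit 0) w4590 = true := by decide +kernel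
theorem cw4591 : wchk (nat_lit 5) [] [l83] (nat_lit 33) (nat_lit 0) (nat_lit 4) (nat_lit 1) (nat_lit 4508928) (nat_lit 0) w4591 = true := by decide +kernel
theorem cl1044 : lchk (nat_lit 5) [w301, w56, w16, w12, w4587, w4588, w432, w4589, w344, w1535, w1730, w4590, w4591, w293, w47, w1243] (nat_lit 89402368) (.nod (nat_lit 837823537945497638656100361) .nil (.nod (nat_lit 292295709209262796733553721956908307278707717207896464269158384026) (.nod (nat_lit 1134794086497432438023663290276797728306675286289239155035222738976) .nil (.dwn (nat_lit 9096853238425572983500103449025358864467987980409736251474468231048574035029728896243712) (nat_lit 39280978944)) (.dwn (nat_lit 9096853238425572983500103449025358864467987980409736251474468231048574035029728896243712) (nat_lit 39280978944))) .nil (.dwn (nat_lit 1134794086497432438039508680249935866945825309851458663277404540976) (nat_lit 627262492))) (.nod (nat_lit 5147890261332886807596217095435868107581532988047919703383558341065682710551699915162) .nil (.dwn (nat_lit 145234191759737303000563072866072159223319055673341835192462395966205539399295166744672) (nat_lit 4921240576)) .dup)) (.nod (nat_lit 15172208005528978416168363346939890963247530074)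 (.opn (nat_lit 15455151432494271065022199819290387372901189752)) .nil .nil) .nil .nil l1044 = true := by decide +kernel
theorem cw4592 : wchk (nat_lit 5) [] [l1044] (nat_lit 209) (nat_lit 2) (nat_lit 0) (nat_lit 0) (nat_lit 156815616) (nat_lit 0) w4592 = true := by decide +kernel
theorem cw4593 : wchk (nat_lit 5) [] [l89] (nat_lit 1) (nat_lit 3) (nat_lit 3) (nat_lit 0) (nat_lit 5444352) (nat_lit 0) w4593 = true := by decide +kernel
theorem cl1046 : lchk (nat_lit 5) [w3797, w1, w69, w86, w3318, w233, w3, w651] (nat_lit 592088064) (.nod (nat_lit 22835996430967316348902002651089217379777904722) (.nod (nat_lit 3317934838438165316980350992) .nil .nil (.nod (nat_lit 142988211510943064488298947634689999342388230531975024345012561413943384729397749612570) .nil (.opn (nat_lit 1137634684330516348860734743740632023281929969681139840870116995570042272223341202546712)) .dup)) .nil (.dwn (nat_lit 290765998347654268849005377855680721516025533458023432136475804250) (nat_lit 122326016))) .nil .nil (.nod (nat_lit 426804919010494305445247109376649884191008401464) .nil (.dwn (nat_lit 1139535376274551766064592289410717637455404821504890990935953995552278969121712159850898)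 (nat_lit 4920609792)) .dup) l1046 = true := by decide +kernel
theorem cw4599 : wchk (nat_lit 5) [] [l1046] (nat_lit 18) (nat_lit 1) (nat_lit 1) (nat_lit 0) (nat_lit 5820672) (nat_lit 0) w4599 = true := by decide +kernel
theorem cw4601 : wchk (nat_lit 5) [] [] (nat_lit 0) (nat_lit 0) (nat_lit 3) (nat_lit 2) (nat_lit 16777233) (nat_lit 25165841) w4601 = true := by decide +kernel
theorem cw4602 : wchk (nat_lit 5) [] [l303] (nat_lit 17) (nat_lit 3) (nat_lit 1) (nat_lit 0) (nat_lit 156785152) (nat_lit 0) w4602 = true := by decide +kernel
theorem cw4603 : wchk (nat_lit 5) [] [] (nat_lit 2) (nat_lit 0) (nat_lit 4) (nat_lit 2) (nat_lit 25165893) (nat_lit 16777229) w4603 = true := by decide +kernel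
theorem cl1048 : lchk (nat_lit 5) [] (nat_lit 17) (.nod (nat_lit 33554442) .nil .nil (.nod (nat_lit 3885341721382492210589568215060528108673680689283757674283421131682496828100399071492) .nil (.opn (nat_lit 3885371364157336963746223052929307968311348694146105673128866098030546453810164793378)) .dup)) (.nod (nat_lit 210625600227595506038119796765227424279749599382680225682213044484) (.nod (nat_lit 210624796758573376542982025784181253698448338281183334286097383586) .nil .nil (.opn (nat_lit 210624796758573376645743958340896772206799332460183139318168027146))) .nil .nil) .nil .nil l1048 = true := by decide +kernel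
theorem cw4605 : wchk (nat_lit 5) [] [l1048] (nat_lit 2) (nat_lit 3) (nat_lit 3) (nat_lit 0) (nat_lit 5820672) (nat_lit 0) w4605 = true := by decide +kernel
theorem cw4606 : wchk (nat_lit 5) [] [l232] (nat_lit 25) (nat_lit 1) (nat_lit 3) (nat_lit 0) (nat_lit 156525312) (nat_lit 0) w4606 = true := by decide +kernel
theorem cw4607 : wchk (nat_lit 5) [] [l184] (nat_lit 17) (nat_lit 3) (nat_lit 1) (nat_lit 0) (nat_lit 5576960) (nat_lit 0) w4607 = true := by decide +kernel
theorem cw4609 : wchk (nat_lit 5) [] [l1048] (nat_lit 1) (nat_lit 2) (nat_lit 1) (nat_lit 0) (nat_lit 21680384) (nat_lit 0) w4609 = true := by decide +kernel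
theorem cl1051 : lchk (nat_lit 5) [w431, w815, w174, w428, w4452, w923, w979, w7, w1489, w1540, w160, w926] (nat_lit 23160832) (.nod (nat_lit 421249731613384931592940855955729817966795772218530888509756014592) .nil (.nod (nat_lit 20070056633824522548325320303023692606590571556633800130075438190262230266431835361296) .nil (.opn (nat_lit 145235842491761470180243500936631355805789998505746803407061967891287044413542161895424)) .dup) (.nod (nat_lit 20070056633824522548535943279422762720996132070039048653550625866128351871189185351696) .nil (.opn (nat_lit 145235842491761470180243500936631355805363188724781850535271092221802016754278716329984)) .dup)) .nil .nil (.nod (nat_lit 210625550010781622944673686078912038619037241948538421561893322752) .nil (.nod (nat_lit 2573611711508539113172673663515143230609233749395295859040280) .nil (.dwn (nat_lit 7861822455113001772620150946096280155909299513443021929789171914792) (nat_lit 627140608)) .dup) (.nod (nat_lit 20707499495769659392368585684039560095348925431497170036108750722779185716581674182712) (.dwn (nat_lit 144055593179236498069367329175727747158010626173856836154364712345805854131787059648600) (nat_lit 627140608))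 .nil .nil)) l1051 = true := by decide +kernel
theorem cl1052 : lchk (nat_lit 5) [] (nat_lit 77) (.nod (nat_lit 618971403148495665665933312) (.nod (nat_lit 210625550010781622944673686078912038618418275359990129134420361216) .nil (.nod (nat_lit 3885370437820623065216658007206569756724364215337820621179800955978838580486528303386) .nil (.opn (nat_lit 34968072713432288201613046790017831509262599554907328802614566846885089652210137039130)) .dup) (.opn (nat_lit 3885370437820623065216658007206569756724364215337820621179800963246855745528091640090))) .nil .nil) .nil .nil (.nod (nat_lit 3885340795045778312060004826492648039170417863123880349158289850171146235316304609306) .nil (.opn (nat_lit 3885370437820623065006033260664810263286246377741229903901367661600133615916201017626)) .dup) l1052 = true := by decide +kernel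
theorem cw4613 : wchk (nat_lit 5) [] [l1052] (nat_lit 4) (nat_lit 2) (nat_lit 1) (nat_lit 0) (nat_lit 5820672) (nat_lit 0) w4613 = true := by decide +kernel
theorem cw4614 : wchk (nat_lit 5) [] [l595] (nat_lit 4) (nat_lit 2) (nat_lit 1) (nat_lit 0) (nat_lit 2824448) (nat_lit 0) w4614 = true := by decide +kernel
theorem cl1053 : lchk (nat_lit 5) [w430, w1075, w1546, w33, w428, w923, w1098, w160, w4613, w4614, w2650] (nat_lit 22114304) (.nod (nat_lit 421249731613384931592940855955729817966795772218530888509756014592) .nil (.nod (nat_lit 20070056633824522548325320303023692606590571556633800130075438190262230266431965292552) .nil (.dwn (nat_lit 144414146625738346313349888239277032326285661585535502830585227071631166047569728407568) (nat_lit 626094080)) (.opn (nat_lit 144414146625738346313349888239277032326285661585535502830585227071631166047569728407568))) (.nod (nat_lit 2510152952863821165487121414411558992930277153739073412484439887544131482311536601112) .nil (.opn (nat_lit 144993483164630770093501884819583150023210623781690542213426661147103218074366377123840)) .dup)) .nil .nil (.nod (nat_lit 210625550010781622944673686078912038619037241948538421561893322752)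 .nil (.nod (nat_lit 20662677767530965140914466438594517110473818859672916561455845165500730639055585992736) .nil (.opn (nat_lit 142325875202485332467014242423804793129213539263539776498835326376807368133640167053352)) .dup) (.nod (nat_lit 18157746574723389986786791931333691530380766455241236914465746934996873842249820596272) (.dwn (nat_lit 144384271340378404836434159617093883346717798224766797210206405923039024535718910924856) (nat_lit 626094080)) .nil .nil)) l1053 = true := by decide +kernel
theorem cl1054 : lchk (nat_lit 5) [] (nat_lit 77) (.nod (nat_lit 928455232378220016979410944) .nil (.nod (nat_lit 210625550010781622944673686078912038618418275359990129134420361216) (.nod (nat_lit 210624746541759493449535915097865868042687742479922577161836298240) .nil .nil (.opn (nat_lit 210624746541759493552297844932322451178579266138452855026257756160))) .nil .nil) .nil) .nil .nil (.nod (nat_lit 3885348205739489500296511935035688595196520472402898950154388375456522741756601565274) .nil (.opn (nat_lit 3885370437820623065006033260664810263286246377741229903901367662780725236633612321050)) .dup) l1054 = true := by decide +kernel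
theorem cw4616 : wchk (nat_lit 5) [] [l1054] (nat_lit 4) (nat_lit 2) (nat_lit 1) (nat_lit 0) (nat_lit 5820672) (nat_lit 0) w4616 = true := by decide +kernel
theorem cw4617 : wchk (nat_lit 5) [] [l56] (nat_lit 4) (nat_lit 2) (nat_lit 1) (nat_lit 0) (nat_lit 21162496) (nat_lit 0) w4617 = true := by decide +kernel
theorem cl1055 : lchk (nat_lit 5) [w819, w827, w828, w39, w3593, w4451, w4617, w411, w359, w976, w4616, w4609, w1099, w888] (nat_lit 11297792) .nil (.nod (nat_lit 421250133347895996340509741446252903257446402769279334207964839936) (.nod (nat_lit 210625550010781622944673686078912038619037243129130042279304626176) .nil .nil (.opn (nat_lit 210624746541759493868272129402663200192539950733596051616779206656))) .nil .nil) .nil (.nod (nat_lit 315937038210316680147453942781536300356940560076820365771100127232) .nil (.nod (nat_lit 19751337518693738872627596083935459035969551684601808489870062716789441282140487206928) .nil (.dwn (nat_lit 142262793524942270400900375726849606813901444756774088525679471981117228360537231009816) (nat_lit 627262488)) .dup) (.nod (nat_lit 2120057741253727989871180861293698992154407125348903193065467497416772272601869633600)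 (.dwn (nat_lit 145038311377226461634664658069250583891623100632969350014184556213896149792689308223592) (nat_lit 627262488)) .nil .nil)) l1055 = true := by decide +kernel
theorem cw4618 : wchk (nat_lit 5) [] [l1055] (nat_lit 1) (nat_lit 1) (nat_lit 4) (nat_lit 0) (nat_lit 5820672) (nat_lit 0) w4618 = true := by decide +kernel
theorem cl1056 : lchk (nat_lit 5) [w149, w158, w432, w33, w428, w923] (nat_lit 10064896) (.nod (nat_lit 421249731613384931592940855955729817966795772218530888509756014592) .nil (.nod (nat_lit 4512105542105628331193701912024695854981472059215017728800242273107621558524982237192) .nil (.dwn (nat_lit 145235844344434897977302627814200743710983416384883706699368670595660069370485079724048) (nat_lit 614044672)) (.opn (nat_lit 145235844344434897977302627814200743710983416384883706699368670595660069370485079724048))) (.nod (nat_lit 2510152952863821165487121414411558992930277153739073412484439887544131482311536601112) .nil (.opn (nat_lit 142203030911845106766017934869185657421851297279385821055752081444578008615923622291456)) .dup)) .nil .nil (.nod (nat_lit 210625550010781622944673686078912038619037241948538421561893322752) .nil (.nod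 (nat_lit 20662677767530965140914466438594517110473818859672916561455845165500730639055585992736) (.opn (nat_lit 142325875202485332467014242423804793129631797419230675007594072214449028673829825894440)) .dup .dup) (.dwn (nat_lit 20662677767530965140914466438594517110473818859672916561455845165500730639055585992736) (nat_lit 77704212))) l1056 = true := by decide +kernel
theorem cw4619 : wchk (nat_lit 5) [] [l1056] (nat_lit 1) (nat_lit 0) (nat_lit 4) (nat_lit 0) (nat_lit 5820672) (nat_lit 0) w4619 = true := by decide +kernel
theorem cw4623 : wchk (nat_lit 5) [w69] [] (nat_lit 2) (nat_lit 0) (nat_lit 4) (nat_lit 2) (nat_lit 197) (nat_lit 5943296) w4623 = true := by decide +kernel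
theorem cw4624 : wchk (nat_lit 5) [] [l408] (nat_lit 2) (nat_lit 3) (nat_lit 1) (nat_lit 0) (nat_lit 5820672) (nat_lit 0) w4624 = true := by decide +kernel
theorem cw4632 : wchk (nat_lit 5) [] [l630] (nat_lit 2) (nat_lit 1) (nat_lit 2) (nat_lit 0) (nat_lit 5820672) (nat_lit 0) w4632 = true := by decide +kernel
theorem cw4636 : wchk (nat_lit 5) [w368, w177] [] (nat_lit 1) (nat_lit 1) (nat_lit 1) (nat_lit 2) (nat_lit 88764416) (nat_lit 22307844) w4636 = true := by decide +kernel
theorem cw4637 : wchk (nat_lit 5) [w1070, w177] [] (nat_lit 0) (nat_lit 0) (nat_lit 1) (nat_lit 2) (nat_lit 23282688) (nat_lit 22307844) w4637 = true := by decide +kernel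
theorem cw4638 : wchk (nat_lit 5) [] [l915] (nat_lit 146) (nat_lit 2) (nat_lit 1) (nat_lit 0) (nat_lit 1230525184) (nat_lit 0) w4638 = true := by decide +kernel
theorem cw4639 : wchk (nat_lit 5) [w177] [] (nat_lit 2) (nat_lit 0) (nat_lit 1) (nat_lit 2) (nat_lit 201) (nat_lit 22307840) w4639 = true := by decide +kernel
theorem cw4640 : wchk (nat_lit 5) [] [] (nat_lit 1) (nat_lit 0) (nat_lit 4) (nat_lit 2) (nat_lit 205) (nat_lit 33554473) w4640 = true := by decide +kernel
theorem cw4641 : wchk (nat_lit 5) [] [l111] (nat_lit 1) (nat_lit 3) (nat_lit 4) (nat_lit 0) (nat_lit 5415680) (nat_lit 0) w4641 = true := by decide +kernel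
theorem cw4642 : wchk (nat_lit 5) [] [l759] (nat_lit 226) (nat_lit 2) (nat_lit 0) (nat_lit 0) (nat_lit 1230313728) (nat_lit 0) w4642 = true := by decide +kernel
theorem cw4643 : wchk (nat_lit 5) [] [l823] (nat_lit 2) (nat_lit 0) (nat_lit 1) (nat_lit 0) (nat_lit 22483200) (nat_lit 0) w4643 = true := by decide +kernel
theorem cw4644 : wchk (nat_lit 5) [] [l958] (nat_lit 2) (nat_lit 0) (nat_lit 1) (nat_lit 0) (nat_lit 22583552) (nat_lit 0) w4644 = true := by decide +kernel
theorem cw4645 : wchk (nat_lit 5) [] [l17] (nat_lit 34) (nat_lit 3) (nat_lit 4) (nat_lit 0) (nat_lit 155865856) (nat_lit 0) w4645 = true := by decide +kernel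
theorem cw4646 : wchk (nat_lit 5) [w4645] [] (nat_lit 2) (nat_lit 1) (nat_lit 2) (nat_lit 2) (nat_lit 90391552) (nat_lit 33554481) w4646 = true := by decide +kernel
theorem cw4647 : wchk (nat_lit 5) [] [l17] (nat_lit 34) (nat_lit 3) (nat_lit 4) (nat_lit 0) (nat_lit 155865856) (nat_lit 0) w4647 = true := by decide +kernel
theorem cw4648 : wchk (nat_lit 5) [w4647] [] (nat_lit 2) (nat_lit 1) (nat_lit 2) (nat_lit 2) (nat_lit 90391552) (nat_lit 33554481) w4648 = true := by decide +kernel
theorem cw4649 : wchk (nat_lit 5) [w220] [] (nat_lit 33) (nat_lit 0) (nat_lit 3) (nat_lit 2) (nat_lit 5549056) (nat_lit 293) w4649 = true := by decide +kernel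
theorem cw4650 : wchk (nat_lit 5) [w3766] [] (nat_lit 1) (nat_lit 0) (nat_lit 2) (nat_lit 2) (nat_lit 22816768) (nat_lit 33554481) w4650 = true := by decide +kernel
theorem cw4651 : wchk (nat_lit 5) [w1253] [] (nat_lit 2) (nat_lit 1) (nat_lit 2) (nat_lit 2) (nat_lit 86592512) (nat_lit 33554481) w4651 = true := by decide +kernel
theorem cw4652 : wchk (nat_lit 5) [w1709] [] (nat_lit 34) (nat_lit 0) (nat_lit 4) (nat_lit 2) (nat_lit 321) (nat_lit 81101824) w4652 = true := by decide +kernel
theorem cw4653 : wchk (nat_lit 5) [w3284] [] (nat_lit 1) (nat_lit 0) (nat_lit 2) (nat_lit 2) (nat_lit 23211008) (nat_lit 33554481) w4653 = true := by decide +kernel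
theorem cw4654 : wchk (nat_lit 5) [] [l759] (nat_lit 226) (nat_lit 2) (nat_lit 0) (nat_lit 0) (nat_lit 1230313728) (nat_lit 0) w4654 = true := by decide +kernel
theorem cw4655 : wchk (nat_lit 5) [w16] [] (nat_lit 1) (nat_lit 3) (nat_lit 3) (nat_lit 2) (nat_lit 293) (nat_lit 21727232) w4655 = true := by decide +kernel
theorem cw4656 : wchk (nat_lit 5) [w16] [] (nat_lit 1) (nat_lit 3) (nat_lit 3) (nat_lit 2) (nat_lit 293) (nat_lit 21727232) w4656 = true := by decide +kernel
theorem cl1059 : lchk (nat_lit 5) [w4642, w158, w75, w4655, w4656, w4650, w1709, w4643, w3309, w3310, w1723, w4651, w4652, w1011, w4653, w1807, w4654, w2936, w4644, w4646, w1139, w4648, w4649] (nat_lit 23282688) .nil (.nod (nat_lit 290765853974314354897791663358684134820576837118095541277298786304) (.nod (nat_lit 2573611711508561949169444913198413071060351010288181394276435) .nil .nil (.nod (nat_lit 15845384528620267926557423944903259473779787808) .nil (.dwn (nat_lit 20933257942650583930791574377047467296496438650924319313942094679675450942150301188498) (nat_lit 90391572)) (.dwn (nat_lit 20933257942650583930791574377047467296496438650924319313942094679675450942150301188498) (nat_lit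 90391572)))) .nil (.nod (nat_lit 60814845388234075593987329050114803137294043184) .nil (.nod (nat_lit 145264068897770672266696263190888437460617001860342973951374606882124237822365327214664) .nil (.nod (nat_lit 5244171846702072234872654640563074495263895462115220767813701496486146075444542900328) (.dwn (nat_lit 13075668222036580365604208431104879712762012153853075585750642236644155901867086159489160) (nat_lit 39281968128)) .nil .nil) .dup) (.nod (nat_lit 145264068897770672266696263190888437461037533309136583416999873847875303892722584701000) (.dwn (nat_lit 1139910551907047809523080631649832192531646257880518587780156653948915828134417860561072) (nat_lit 7069713428)) .nil .nil))) .nil .nil l1059 = true := by decide +kernel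
theorem cw4657 : wchk (nat_lit 5) [] [l1059] (nat_lit 226) (nat_lit 1) (nat_lit 2) (nat_lit 0) (nat_lit 1230557440) (nat_lit 0) w4657 = true := by decide +kernel
theorem cw4658 : wchk (nat_lit 5) [] [l823] (nat_lit 2) (nat_lit 0) (nat_lit 1) (nat_lit 0) (nat_lit 22483200) (nat_lit 0) w4658 = true := by decide +kernel
theorem cw4659 : wchk (nat_lit 5) [] [] (nat_lit 2) (nat_lit 1) (nat_lit 2) (nat_lit 2) (nat_lit 429) (nat_lit 33554481) w4659 = true := by decide +kernel
theorem cw4660 : wchk (nat_lit 5) [w112] [] (nat_lit 2) (nat_lit 1) (nat_lit 4) (nat_lit 2) (nat_lit 17655808) (nat_lit 33554473) w4660 = true := by decide +kernel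
theorem cw4661 : wchk (nat_lit 5) [w2674] [] (nat_lit 2) (nat_lit 1) (nat_lit 4) (nat_lit 2) (nat_lit 23275520) (nat_lit 33554473) w4661 = true := by decide +kernel
theorem cw4662 : wchk (nat_lit 5) [w75] [] (nat_lit 0) (nat_lit 1) (nat_lit 3) (nat_lit 2) (nat_lit 25165873) (nat_lit 21727232) w4662 = true := by decide +kernel
theorem cw4663 : wchk (nat_lit 5) [w105] [] (nat_lit 2) (nat_lit 1) (nat_lit 4) (nat_lit 2) (nat_lit 84764672) (nat_lit 33554473) w4663 = true := by decide +kernel
theorem cl1060 : lchk (nat_lit 5) [w3297, w4276, w158, w75, w103, w4640, w4641, w4657, w1663, w4662, w476, w89, w4663, w539, w78, w2445, w4658, w2686, w4036, w4659, w3011, w4660, w4650, w4661, w4136, w4639] (nat_lit 22307840) (.nod (nat_lit 291395773687663879108640108929849186908865941923698972253996712018) (.nod (nat_lit 290765897914026502604557010209210097274241749963710861041534062624) .nil (.nod (nat_lit 7874780853718720152877309283404336168038624049857217291913813198904) (.nod (nat_lit 1138059647782374296527109687551087040388229212707907191414269356087088249768440076374104) .nil (.dwn (nat_lit 9096856558416355595830058813629701990574592810066490926930931853392063059669179750205440)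 (nat_lit 39280993280)) (.dwn (nat_lit 9096856558416355595830058813629701990574592810066490926930931853392063059669179750205440) (nat_lit 39280993280))) (.dwn (nat_lit 1138059647782374296527109687551087040388290730043102732816697348031418508607365368713304) (nat_lit 4921254912)) .dup) .nil) .nil (.nod (nat_lit 57687881828240157353715660857427923864879650936) .nil (.nod (nat_lit 207429481786024427622885114706351963098719143758906360706296272800411706696389181737112) (.dwn (nat_lit 1139804314054677642788533797121522809044588101932963086860660059308599855415994297780400) (nat_lit 4921254912)) .nil .nil) (.nod (nat_lit 207429481786024427622885114706351963098719143758906360706296272800411706696389181737112) (.dwn (nat_lit 1139804314054677642788533797121522809044588101932963086860660059308599855415994297780400) (nat_lit 4921254912)) .nil .nil))) .nil .nil (.nod (nat_lit 425834188696731605871755871366537130380033951944) .nil (.dwn (nat_lit 20707493937749376001191202779020568169790235444102271943174022841381195130252321358226) (nat_lit 89416704)) (.dwn (nat_lit 20707493937749376001191202779020568169790235444102271943174022841381195130252321358226) (nat_lit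 89416704))) l1060 = true := by decide +kernel
theorem cw4664 : wchk (nat_lit 5) [] [l1060] (nat_lit 18) (nat_lit 1) (nat_lit 3) (nat_lit 0) (nat_lit 5820672) (nat_lit 0) w4664 = true := by decide +kernel
theorem cw4665 : wchk (nat_lit 5) [] [l902] (nat_lit 34) (nat_lit 2) (nat_lit 2) (nat_lit 0) (nat_lit 156783360) (nat_lit 0) w4665 = true := by decide +kernel
theorem cw4683 : wchk (nat_lit 5) [] [l878] (nat_lit 25) (nat_lit 1) (nat_lit 3) (nat_lit 0) (nat_lit 22354176) (nat_lit 0) w4683 = true := by decide +kernel
theorem cw4692 : wchk (nat_lit 5) [] [l14] (nat_lit 1) (nat_lit 1) (nat_lit 1) (nat_lit 0) (nat_lit 21408000) (nat_lit 0) w4692 = true := by decide +kernel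
theorem cw4693 : wchk (nat_lit 5) [] [] (nat_lit 0) (nat_lit 1) (nat_lit 1) (nat_lit 2) (nat_lit 16777297) (nat_lit 33554473) w4693 = true := by decide +kernel
theorem cw4694 : wchk (nat_lit 5) [] [l478] (nat_lit 1) (nat_lit 1) (nat_lit 2) (nat_lit 0) (nat_lit 3498240) (nat_lit 0) w4694 = true := by decide +kernel
theorem cl1064 : lchk (nat_lit 5) [w473, w4693, w396, w3721, w897, w405, w3310, w3293, w4694] (nat_lit 852273152) (.nod (nat_lit 15845379424384764112820596031441000577143668736) (.nod (nat_lit 421250189841811614820636733706056666769914564613748064046737784971) .nil .nil (.nod (nat_lit 175670617648834466202585627993682052691721217736865579892002605088) (.opn (nat_lit 1634947957988945012268991450651430897527797546857897523853338942359731049589279362646410)) .nil (.dwn (nat_lit 1634947957988945012269202072824360945512707969600321726206232828767227657137598765203466) (nat_lit 7059843072)))) (.nod (nat_lit 421249687673672783909011497709676732679210259596985312010676731904) .nil .nil (.nod (nat_lit 168111681522267942559908977445874086182004838703329793872586866688) .nil (.dwn (nat_lit 17931988127842465448363800614497258937600694228763390675633208225430388315711257086016)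 (nat_lit 80521216)) .dup)) .nil) .nil .nil .nil l1064 = true := by decide +kernel
theorem cw4695 : wchk (nat_lit 5) [] [l1064] (nat_lit 281) (nat_lit 1) (nat_lit 3) (nat_lit 0) (nat_lit 1230557440) (nat_lit 0) w4695 = true := by decide +kernel
theorem cw4696 : wchk (nat_lit 5) [] [l240] (nat_lit 1) (nat_lit 1) (nat_lit 2) (nat_lit 0) (nat_lit 4630784) (nat_lit 0) w4696 = true := by decide +kernel
theorem cw4697 : wchk (nat_lit 5) [] [l89] (nat_lit 1) (nat_lit 1) (nat_lit 2) (nat_lit 0) (nat_lit 21191168) (nat_lit 0) w4697 = true := by decide +kernel
theorem cw4698 : wchk (nat_lit 5) [] [l111] (nat_lit 4) (nat_lit 3) (nat_lit 3) (nat_lit 0) (nat_lit 19064064) (nat_lit 0) w4698 = true := by decide +kernel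
theorem cw4699 : wchk (nat_lit 5) [] [] (nat_lit 2) (nat_lit 0) (nat_lit 1) (nat_lit 2) (nat_lit 205) (nat_lit 33554513) w4699 = true := by decide +kernel
theorem cl1065 : lchk (nat_lit 5) [w2686, w4698, w4037, w4699, w1834, w1841, w4036, w142, w4358, w33, w78, w4695, w915, w4696, w864, w4697, w3694, w1283] (nat_lit 1155617792) .nil (.nod (nat_lit 421250183564709879433956144435121474003679905222566232079795749002) (.nod (nat_lit 292295652715347178276262862921583362331165929126572370609802575872) .nil .nil (.nod (nat_lit 231463456328692725902849161181388546261811553864415145642174709760) (.dwn (nat_lit 1137701085998842023196300495207246662938043422886882960638305221157075590189136683903040) (nat_lit 9208681472)) .nil .nil)) .nil (.nod (nat_lit 7688903305811304717929222048149332802486140928) .nil .nil (.nod (nat_lit 5391912362865034754613259453866596460388178765395498423652603677458449266790195265536) (.dwn (nat_lit 19831027487180287676512016428008057953637674911801938317475365941303435381261411453048) (nat_lit 81875968)) .nil .nil))) .nil (.nod (nat_lit 232544021729829130249366189287920493117494300737792408178572052616) (.opn (nat_lit 2194750338078911849874561427094769322561890782941445197744777264510590662456909013975434))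 .nil (.dwn (nat_lit 2194750338078911849874772049669433881611548774569359923182961801548638018450926625357898) (nat_lit 9477116928))) l1065 = true := by decide +kernel
theorem cw4701 : wchk (nat_lit 5) [w69] [] (nat_lit 0) (nat_lit 1) (nat_lit 3) (nat_lit 2) (nat_lit 33554501) (nat_lit 13469696) w4701 = true := by decide +kernel
theorem cl1067 : lchk (nat_lit 5) [w805] (nat_lit 17) (.nod (nat_lit 37046272) .nil .nil .nil) (.nod (nat_lit 292302553185086140130736966990615722066180) (.nod (nat_lit 210626403696617635533257859708544413026252527739322756188874997760) .nil .nil (.opn (nat_lit 1895623070393532622802707943241716030477294116598302694792761442304))) .nil (.nod (nat_lit 11418080223534086121239667503430587817062825984) .nil .nil .nil)) .nil .nil l1067 = true := by decide +kernel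
theorem cw4719 : wchk (nat_lit 5) [] [l1067] (nat_lit 1) (nat_lit 3) (nat_lit 1) (nat_lit 0) (nat_lit 5820672) (nat_lit 0) w4719 = true := by decide +kernel
theorem cl1068 : lchk (nat_lit 5) [w158, w802, w4, w1928, w210, w831, w1101, w1075, w3232, w1092, w1535] (nat_lit 53109760) (.nod (nat_lit 22835993708708380982632228766824985360345333760) (.nod (nat_lit 11418033945132184873608633828152830482410635659) (.nod (nat_lit 1074231705051771846332145601568013220797013941350665434940076347408) .nil .nil .nil) .nil (.nod (nat_lit 3829032058585935992967868786211842649979721626291771443206176) (.opn (nat_lit 144400864809934469196469302944335139994672886053075800283856543806384173461657166858240)) .dup .dup)) .nil .nil) .nil .nil (.nod (nat_lit 11417990388989218993485308155019837781256962048) .nil (.nod (nat_lit 1077111538894339489279701379898520564410829071790078587206247286832) (.dwn (nat_lit 144412491262030609694913999818769223513230322102257227487786372126575099525850042918992) (nat_lit 4918502400)) .nil .nil) .dup) l1068 = true := by decide +kernel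
theorem cw4720 : wchk (nat_lit 5) [] [l1068] (nat_lit 36) (nat_lit 1) (nat_lit 0) (nat_lit 0) (nat_lit 22597888) (nat_lit 0) w4720 = true := by decide +kernel
theorem cl1069 : lchk (nat_lit 5) [w3274, w86, w629, w603, w2686, w4720, w12, w520, w4719] (nat_lit 857555968) (.nod (nat_lit 11884209558495762177454994053728919049660792832) (.nod (nat_lit 2630105627127019240164933467278656936711449544898736090513803) (.nod (nat_lit 221564717976057345378617954664630270958424006420458587555940968472) .nil .nil .nil) .nil (.nod (nat_lit 3829032058586298860939885511089841138450224436325345369522762) (.opn (nat_lit 1636171374592337655946174011125662013288136523818328564564333840817229888627788668897280)) .dup .dup)) (.nod (nat_lit 292295853582602710627211407917763995699743644413946332436989214720) .nil .nil (.dwn (nat_lit 1073961990544405751442213098192962947044267802112209227260710879232) (nat_lit 18695168))) .nil) .nil .nil (.dwn (nat_lit 20933260721660725626380264542751107505017644977554911135353504346731692482883586359296) (nat_lit 90391584)) l1069 = true := by decide +kernel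
theorem cw4721 : wchk (nat_lit 5) [] [l1069] (nat_lit 34) (nat_lit 2) (nat_lit 4) (nat_lit 0) (nat_lit 5820672) (nat_lit 0) w4721 = true := by decide +kernel
theorem cw4735 : wchk (nat_lit 5) [] [] (nat_lit 1) (nat_lit 0) (nat_lit 1) (nat_lit 2) (nat_lit 209) (nat_lit 16777265) w4735 = true := by decide +kernel
theorem cw4736 : wchk (nat_lit 5) [] [l483] (nat_lit 25) (nat_lit 3) (nat_lit 4) (nat_lit 0) (nat_lit 5530368) (nat_lit 0) w4736 = true := by decide +kernel
theorem cl1072 : lchk (nat_lit 5) [w3766, w16, w904, w91, w4736, w258, w257, w256, w255] (nat_lit 22687744) .nil (.nod (nat_lit 315937088427130563240900053467851686017343441410918212424458829834) (.nod (nat_lit 3312910092926439424815030272) .nil .nil .nil) .nil (.nod (nat_lit 1127324887817275001942605918412649847523016210698919239468812599898) (.opn (nat_lit 145126282795935263291716468993308194287403810051877560471971554886664203652400535592960)) .nil .dup)) (.nod (nat_lit 272588170817656656900860988170120903460044083162561714414171938825) (.nod (nat_lit 20919975200509992915382148326043676080843333485565303881408949764002516510226388091274) .nil (.dwn (nat_lit 145250784302956653462101768533744811190278340053870275510929080056756806775021538428944)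 (nat_lit 627205128)) (.dwn (nat_lit 145250784302956653462101768533744811190278340053870275510929080056756806775021538428944) (nat_lit 627205128))) .nil (.nod (nat_lit 19603599781540917986681006595496997056956181362853405185563633088764748243932224160074) (.dwn (nat_lit 144887248091270745027578034724743398258358850919996414465067298438815311984822794772528) (nat_lit 626667520)) .nil .nil)) .nil l1072 = true := by decide +kernel
theorem cw4737 : wchk (nat_lit 5) [] [l1072] (nat_lit 3) (nat_lit 2) (nat_lit 3) (nat_lit 0) (nat_lit 22597888) (nat_lit 0) w4737 = true := by decide +kernel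
theorem cw4748 : wchk (nat_lit 5) [] [l829] (nat_lit 17) (nat_lit 3) (nat_lit 1) (nat_lit 0) (nat_lit 5677312) (nat_lit 0) w4748 = true := by decide +kernel
theorem cw4765 : wchk (nat_lit 5) [] [l240] (nat_lit 4) (nat_lit 2) (nat_lit 4) (nat_lit 0) (nat_lit 20533504) (nat_lit 0) w4765 = true := by decide +kernel
theorem cl1073 : lchk (nat_lit 5) [w819, w61, w10, w109, w39, w151, w3593, w3421, w33, w3246, w428, w1099, w888, w4765] (nat_lit 23282688) (.nod (nat_lit 22835996430967316348901994921903450495475777682) .nil .nil (.nod (nat_lit 11418036667391120241320383000490839395065135250) (.opn (nat_lit 145264062413413674984864100073547927711931133519057751822780702801484093470000502179840)) .dup .dup)) .nil .nil (.nod (nat_lit 11418036667391120240497368822282365037545783442) .nil (.nod (nat_lit 20827015458596847676636976138314415897779643406195994085547817017857212920577321337234) .nil (.dwn (nat_lit 145038306745542892142017560783570942155856106005949747104490261551314130450189563267120) (nat_lit 627205148)) .dup) (.nod (nat_lit 5285669878811298500458661215133545061659965792976171239230173912773190915833840271378) (.dwn (nat_lit 145025031414096012314809183987357205159051109752379970458360304202244890847561499969640)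 (nat_lit 627205148)) .nil .nil)) l1073 = true := by decide +kernel
theorem cw4766 : wchk (nat_lit 5) [] [l1073] (nat_lit 2) (nat_lit 1) (nat_lit 3) (nat_lit 0) (nat_lit 5820672) (nat_lit 0) w4766 = true := by decide +kernel
theorem cw4769 : wchk (nat_lit 5) [w3280, w177] [] (nat_lit 2) (nat_lit 0) (nat_lit 1) (nat_lit 2) (nat_lit 23225344) (nat_lit 22307844) w4769 = true := by decide +kernel
theorem cw4770 : wchk (nat_lit 5) [] [l199] (nat_lit 17) (nat_lit 1) (nat_lit 1) (nat_lit 0) (nat_lit 156815616) (nat_lit 0) w4770 = true := by decide +kernel
theorem cw4771 : wchk (nat_lit 5) [] [l252] (nat_lit 2) (nat_lit 0) (nat_lit 1) (nat_lit 0) (nat_lit 5820672) (nat_lit 0) w4771 = true := by decide +kernel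
theorem cl1074 : lchk (nat_lit 5) [w516, w177, w175, w1, w83, w487, w1070, w4770, w4748, w4632, w2118, w489, w1109, w3274, w3120, w4771, w1125, w4032, w1108, w4038] (nat_lit 21784576) .nil (.nod (nat_lit 280057212570270708314899264139533204029757730676466375023050147848) (.nod (nat_lit 1114366639861998270563334116037446689879217601413699973167063945232) (.nod (nat_lit 14825825056333881368116755266444790256904097832) .nil .nil (.nod (nat_lit 15845392695397074029922602563631005551610726448) (.dwn (nat_lit 20933259795324011728985495491764729289055375331743183844154483509656554849697225410632) (nat_lit 39280470016)) .nil .nil)) .nil (.nod (nat_lit 15845403584432815499912972893462979196382302296) .nil (.nod (nat_lit 5391913289201748653142822842434476530489565005001106550407977066418817384588772722792) (.dwn (nat_lit 1637233784611487596515703772715924493536753228747543412572184481838936609777312973097088) (nat_lit 39280470016)) .nil .nil) (.nod (nat_lit 5391913289201748653142822842434476530489565005001106550407977066418817384588772722792) (.dwn (nat_lit 1637233784611487596515703772715924493536753228747543412572184481838936609777312973097088) (nat_lit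 39280470016)) .nil .nil))) .nil (.dwn (nat_lit 290676662635756245566663745989274075527658025383371086375554341000) (nat_lit 660695116))) (.nod (nat_lit 62214394252711488293568941169874785857209220514047671007566354370712) (.nod (nat_lit 9159219520019541923807257487276773614003808040179017696609720955762351519305942717091992) .nil (.dwn (nat_lit 73251751612330795435056607843927348085487806043526859684824713494767223791806330750292120) (nat_lit 316307236940)) (.dwn (nat_lit 73251751612330795435056607843927348085487806043526859684824713494767223791806330750292120) (nat_lit 316307236940))) (.dwn (nat_lit 9159219520019541923807257487276773614030724567188328184645959402875840130236130439385240) (nat_lit 39550281804)) .dup) .nil l1074 = true := by decide +kernel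
theorem cw4772 : wchk (nat_lit 5) [] [l1074] (nat_lit 146) (nat_lit 2) (nat_lit 1) (nat_lit 0) (nat_lit 1230557440) (nat_lit 0) w4772 = true := by decide +kernel
theorem cw4773 : wchk (nat_lit 5) [w16, w83] [] (nat_lit 146) (nat_lit 0) (nat_lit 2) (nat_lit 2) (nat_lit 23225344) (nat_lit 21784580) w4773 = true := by decide +kernel
theorem cw4774 : wchk (nat_lit 5) [] [l1074] (nat_lit 146) (nat_lit 2) (nat_lit 1) (nat_lit 0) (nat_lit 1230557440) (nat_lit 0) w4774 = true := by decide +kernel
theorem cw4775 : wchk (nat_lit 5) [w368, w175] [] (nat_lit 18) (nat_lit 0) (nat_lit 3) (nat_lit 2) (nat_lit 21662720) (nat_lit 88893444) w4775 = true := by decide +kernel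
theorem cw4776 : wchk (nat_lit 5) [w175] [] (nat_lit 18) (nat_lit 0) (nat_lit 3) (nat_lit 2) (nat_lit 433) (nat_lit 88893440) w4776 = true := by decide +kernel
theorem cw4777 : wchk (nat_lit 5) [w175] [] (nat_lit 0) (nat_lit 0) (nat_lit 3) (nat_lit 2) (nat_lit 33554513) (nat_lit 88893440) w4777 = true := by decide +kernel
theorem cl1075 : lchk (nat_lit 5) [w3356, w1616, w2433, w175, w126, w4777, w2119, w3473, w492, w4776, w3274] (nat_lit 9217139712) .nil (.nod (nat_lit 14607568243477946028122531386076083308570734761784315036306165114897) (.nod (nat_lit 1114366690078812153656507045317339010774572825538274398494713892888) (.nod (nat_lit 292295853582602710642968873691242900755496046001408316876571804506) .nil (.dwn (nat_lit 14607568237200844293527416272682684743178813405249280945010509547576) (nat_lit 1164076032)) .dup) .nil (.nod (nat_lit 803710177044171375655964736) .nil .nil (.dwn (nat_lit 1139910543570017384374519886261665877800535829107358163482529098334493044975251069337626) (nat_lit 4922229796)))) .nil (.dwn (nat_lit 291576196422844098466844448178705944015252089723160840829172123704) (nat_lit 1197630464))) (.nod (nat_lit 116135096529667610635226368389768594823028344004176985881122334623744)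 (.nod (nat_lit 17116406224934252390137470039682952174706162957984213644485761818711566769622695952041984) .nil (.dwn (nat_lit 136909140795141609825809146215498332394443955540381198621488953499276444431221384351631360) (nat_lit 591185208320)) .dup) (.dwn (nat_lit 17116406224934252390137470039682952174756463555043687769048440886600528317814211541780480) (nat_lit 73910084608)) (.dwn (nat_lit 17116406224934252390137470039682952174756463555043687769048440886600528317814211541780480) (nat_lit 73910084608))) .nil l1075 = true := by decide +kernel
theorem cw4778 : wchk (nat_lit 5) [] [l1075] (nat_lit 274) (nat_lit 2) (nat_lit 2) (nat_lit 0) (nat_lit 1230557440) (nat_lit 0) w4778 = true := by decide +kernel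
theorem cw4779 : wchk (nat_lit 5) [w114, w175] [] (nat_lit 18) (nat_lit 0) (nat_lit 3) (nat_lit 2) (nat_lit 21784576) (nat_lit 88893444) w4779 = true := by decide +kernel
theorem cw4780 : wchk (nat_lit 5) [] [l1075] (nat_lit 274) (nat_lit 2) (nat_lit 2) (nat_lit 0) (nat_lit 1230557440) (nat_lit 0) w4780 = true := by decide +kernel
theorem cw4781 : wchk (nat_lit 5) [] [l1075] (nat_lit 274) (nat_lit 2) (nat_lit 2) (nat_lit 0) (nat_lit 1230557440) (nat_lit 0) w4781 = true := by decide +kernel
theorem cw4782 : wchk (nat_lit 5) [w2914] [] (nat_lit 1) (nat_lit 0) (nat_lit 3) (nat_lit 2) (nat_lit 209) (nat_lit 17655808) w4782 = true := by decide +kernel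
theorem cw4783 : wchk (nat_lit 5) [] [l143] (nat_lit 2) (nat_lit 0) (nat_lit 1) (nat_lit 0) (nat_lit 21257472) (nat_lit 0) w4783 = true := by decide +kernel
theorem cw4784 : wchk (nat_lit 5) [w69] [] (nat_lit 1) (nat_lit 1) (nat_lit 4) (nat_lit 2) (nat_lit 17541120) (nat_lit 197) w4784 = true := by decide +kernel
theorem cl1076 : lchk (nat_lit 5) [w3274, w4467, w1074, w4540, w12, w520, w740, w4719, w4358] (nat_lit 4917642240) .nil (.nod (nat_lit 224984238194528328978205903146606302522926341674740259461222713361) (.nod (nat_lit 2623828525391632559575662532085890702061521542776582148456842) (.nod (nat_lit 7827176820661964058767762268970461613920903416820505747174474121216) .nil (.nod (nat_lit 1073961890110777985255320871375814304986589728765380491748514463744) .nil (.opn (nat_lit 19870856260531068853561877980254703624236354372809248709085729306705383862393536249856)) .dup) .nil) .nil (.nod (nat_lit 7298632098060212710465717715271214373200199680) .nil .nil (.dwn (nat_lit 20933259795324011727850701154183227435514382151395033810228992031071020419578549239808) (nat_lit 90391580)))) .nil (.dwn (nat_lit 2222094014327331421371895749848246737274990203093184845709642)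 (nat_lit 656229376))) .nil .nil l1076 = true := by decide +kernel
theorem cw4785 : wchk (nat_lit 5) [] [l1076] (nat_lit 274) (nat_lit 2) (nat_lit 4) (nat_lit 0) (nat_lit 1230557440) (nat_lit 0) w4785 = true := by decide +kernel
theorem cw4786 : wchk (nat_lit 5) [w519] [] (nat_lit 1) (nat_lit 1) (nat_lit 4) (nat_lit 2) (nat_lit 17462272) (nat_lit 197) w4786 = true := by decide +kernel
theorem cw4787 : wchk (nat_lit 5) [w220, w86] [] (nat_lit 0) (nat_lit 0) (nat_lit 2) (nat_lit 2) (nat_lit 17519616) (nat_lit 17655812) w4787 = true := by decide +kernel
theorem cw4788 : wchk (nat_lit 5) [w220, w86] [] (nat_lit 0) (nat_lit 0) (nat_lit 3) (nat_lit 2) (nat_lit 9204736) (nat_lit 13469700) w4788 = true := by decide +kernel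
theorem cw4789 : wchk (nat_lit 5) [w67, w16] [] (nat_lit 0) (nat_lit 1) (nat_lit 3) (nat_lit 2) (nat_lit 17655808) (nat_lit 13992964) w4789 = true := by decide +kernel
theorem cw4790 : wchk (nat_lit 5) [w83] [] (nat_lit 17) (nat_lit 1) (nat_lit 4) (nat_lit 2) (nat_lit 17541120) (nat_lit 197) w4790 = true := by decide +kernel
theorem cw4791 : wchk (nat_lit 5) [w162, w86] [] (nat_lit 2) (nat_lit 0) (nat_lit 2) (nat_lit 2) (nat_lit 17519616) (nat_lit 17655812) w4791 = true := by decide +kernel
theorem cw4792 : wchk (nat_lit 5) [w96, w16] [] (nat_lit 18) (nat_lit 1) (nat_lit 3) (nat_lit 2) (nat_lit 627262464) (nat_lit 13992964) w4792 = true := by decide +kernel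
theorem cw4793 : wchk (nat_lit 5) [w230] [] (nat_lit 0) (nat_lit 1) (nat_lit 4) (nat_lit 2) (nat_lit 197) (nat_lit 17519616) w4793 = true := by decide +kernel
theorem cw4794 : wchk (nat_lit 5) [w4641, w16] [] (nat_lit 2) (nat_lit 1) (nat_lit 2) (nat_lit 2) (nat_lit 22823936) (nat_lit 18179076) w4794 = true := by decide +kernel
theorem cw4795 : wchk (nat_lit 5) [w230] [] (nat_lit 0) (nat_lit 1) (nat_lit 4) (nat_lit 2) (nat_lit 197) (nat_lit 17519616) w4795 = true := by decide +kernel
theorem cw4796 : wchk (nat_lit 5) [w241] [] (nat_lit 1) (nat_lit 1) (nat_lit 4) (nat_lit 2) (nat_lit 17519616) (nat_lit 197) w4796 = true := by decide +kernel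
theorem cl1077 : lchk (nat_lit 5) [w553, w4038, w536, w144, w16, w4783, w4784, w4790, w2015, w2037, w2709, w4791, w4632, w521, w4785, w4786, w4787, w4788, w128, w4789, w799, w4796, w3356, w4792, w4793, w4794, w1070, w4795] (nat_lit 621635584) .nil (.nod (nat_lit 290765853974314354897791663358684134819775243428232666967118106641) (.nod (nat_lit 2623828525391644443498362992533717032340547446329103731392906) (.nod (nat_lit 234703150136648351457394068466522236588200268544628865769438349352) .nil (.nod (nat_lit 290765847697212619526956292218291785642031429889508228054621618176) .nil (.nod (nat_lit 5391908657518179160729709244321878330808207206513676151795958980658875840978688671744) (.dwn (nat_lit 143929434455833943483508251580190046472197575560695314737440776375651220497408224299096) (nat_lit 4916602880)) .nil .nil) .dup) (.nod (nat_lit 234703545594057680817926099256414914169504686666989499268691560560) (.dwn (nat_lit 20933267206017722917222003002042280909829046848290797013381294328329246298186305677456) (nat_lit 621635584)) .nil .nil)) .nil (.nod (nat_lit 15845428084763233807522804673051562121298086048) .nil (.dwn (nat_lit 5391921626232173739908893339545397155425234451078751012874225792490939184678908364976)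 (nat_lit 84764672)) (.dwn (nat_lit 5391921626232173739908893339545397155425234451078751012874225792490939184678908364976) (nat_lit 84764672)))) .nil (.nod (nat_lit 2222094014326946507763009845506987805967426116755478812819786) (.dwn (nat_lit 20933275543048148003988073951104526483564139266569931272293702904323206472283543996632) (nat_lit 890071040)) .nil .nil)) .nil .nil l1077 = true := by decide +kernel
theorem cw4797 : wchk (nat_lit 5) [] [l1077] (nat_lit 1682) (nat_lit 1) (nat_lit 4) (nat_lit 0) (nat_lit 9820492032) (nat_lit 0) w4797 = true := by decide +kernel
theorem cw4798 : wchk (nat_lit 5) [w126, w368] [] (nat_lit 18) (nat_lit 0) (nat_lit 1) (nat_lit 2) (nat_lit 21784576) (nat_lit 88764420) w4798 = true := by decide +kernel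
theorem cw4799 : wchk (nat_lit 5) [w126, w368] [] (nat_lit 18) (nat_lit 0) (nat_lit 1) (nat_lit 2) (nat_lit 17541120) (nat_lit 88764420) w4799 = true := by decide +kernel
theorem cw4800 : wchk (nat_lit 5) [w105, w368] [] (nat_lit 1) (nat_lit 1) (nat_lit 4) (nat_lit 2) (nat_lit 80578560) (nat_lit 84764676) w4800 = true := by decide +kernel
theorem cw4801 : wchk (nat_lit 5) [w519, w368] [] (nat_lit 18) (nat_lit 0) (nat_lit 3) (nat_lit 2) (nat_lit 21655552) (nat_lit 88893444) w4801 = true := by decide +kernel
theorem cw4802 : wchk (nat_lit 5) [w220, w557] [] (nat_lit 146) (nat_lit 0) (nat_lit 2) (nat_lit 2) (nat_lit 21712896) (nat_lit 21784580) w4802 = true := by decide +kernel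
theorem cw4803 : wchk (nat_lit 5) [] [l14] (nat_lit 18) (nat_lit 1) (nat_lit 2) (nat_lit 0) (nat_lit 156801280) (nat_lit 0) w4803 = true := by decide +kernel
theorem cw4804 : wchk (nat_lit 5) [] [] (nat_lit 0) (nat_lit 0) (nat_lit 3) (nat_lit 2) (nat_lit 16777285) (nat_lit 16777265) w4804 = true := by decide +kernel
theorem cw4805 : wchk (nat_lit 5) [] [] (nat_lit 2) (nat_lit 0) (nat_lit 2) (nat_lit 2) (nat_lit 325) (nat_lit 16777229) w4805 = true := by decide +kernel
theorem cw4806 : wchk (nat_lit 5) [] [l419] (nat_lit 26) (nat_lit 3) (nat_lit 2) (nat_lit 0) (nat_lit 2518016) (nat_lit 0) w4806 = true := by decide +kernel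
theorem cw4807 : wchk (nat_lit 5) [] [l56] (nat_lit 34) (nat_lit 0) (nat_lit 1) (nat_lit 1) (nat_lit 3363840) (nat_lit 0) w4807 = true := by decide +kernel
theorem cw4808 : wchk (nat_lit 5) [] [] (nat_lit 2) (nat_lit 0) (nat_lit 2) (nat_lit 2) (nat_lit 25165893) (nat_lit 16777229) w4808 = true := by decide +kernel
theorem cw4809 : wchk (nat_lit 5) [] [l4] (nat_lit 18) (nat_lit 3) (nat_lit 1) (nat_lit 0) (nat_lit 154751232) (nat_lit 0) w4809 = true := by decide +kernel
theorem cl1078 : lchk (nat_lit 5) [w1831, w4806, w4809, w69, w411, w4804, w4805, w1101, w2203, w4807, w4808] (nat_lit 43626496) (.nod (nat_lit 15845379084102397192160980376779894000137011200) (.nod (nat_lit 618970351684083464268056592) .nil (.nod (nat_lit 968945074175108920385190134591504861421275346031548099851089608730) .nil (.opn (nat_lit 7708931740962768869469845933401127325883284392900767193922704465920)) .dup) .nil) .nil .nil) (.nod (nat_lit 315937797739626661947244357301045727476914152601125346292212432896) .nil (.nod (nat_lit 219405093678201028696699095124883374598734813615782448156085583872) .nil .nil (.dwn (nat_lit 145264067971433958368377324498645503001481246823539118456860625233578041029895586316288)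 (nat_lit 627262488))) (.nod (nat_lit 5335536475078678649260421009726516966763708776283770418841664) .nil (.dwn (nat_lit 145264070750444100071630171072826987167968067349498641697945806272068949842375834241104) (nat_lit 4909019136)) .dup)) .nil .nil l1078 = true := by decide +kernel
theorem cw4810 : wchk (nat_lit 5) [] [l1078] (nat_lit 26) (nat_lit 2) (nat_lit 4) (nat_lit 0) (nat_lit 156815616) (nat_lit 0) w4810 = true := by decide +kernel
theorem cw4811 : wchk (nat_lit 5) [w105] [] (nat_lit 1) (nat_lit 1) (nat_lit 3) (nat_lit 2) (nat_lit 88893440) (nat_lit 16777265) w4811 = true := by decide +kernel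
theorem cw4812 : wchk (nat_lit 5) [w831, w220] [] (nat_lit 2) (nat_lit 1) (nat_lit 4) (nat_lit 2) (nat_lit 18695168) (nat_lit 9269252) w4812 = true := by decide +kernel
theorem cw4813 : wchk (nat_lit 5) [w819, w220] [] (nat_lit 2) (nat_lit 1) (nat_lit 4) (nat_lit 2) (nat_lit 19612672) (nat_lit 9269252) w4813 = true := by decide +kernel
theorem cw4814 : wchk (nat_lit 5) [] [l1055] (nat_lit 2) (nat_lit 1) (nat_lit 2) (nat_lit 0) (nat_lit 3842304) (nat_lit 0) w4814 = true := by decide +kernel
theorem cw4815 : wchk (nat_lit 5) [] [l126] (nat_lit 2) (nat_lit 1) (nat_lit 2) (nat_lit 0) (nat_lit 5446144) (nat_lit 0) w4815 = true := by decide +kernel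
theorem cl1079 : lchk (nat_lit 5) [w3019, w1070, w4803, w1588, w220, w6, w1053, w848, w4811, w2207, w1519, w4810, w4812, w3274, w3276, w4406, w4813, w4814, w4815] (nat_lit 22823936) (.nod (nat_lit 842054759867404767058364424) .nil (.nod (nat_lit 292295702932161061346872958121118884071660264041633985638139166746) .nil (.opn (nat_lit 7869021336684026516689116839262188991809350064355913866813875193856)) .dup) .nil) (.nod (nat_lit 15533174436123206124133359179884399205436883034) (.nod (nat_lit 271868413224270278599234811047329645863465241392869100377625774128) .nil (.nod (nat_lit 292295954016230476829948909692610757141793899968907332301617580104) .nil (.dwn (nat_lit 1139804295527943364790976822362510852093745607335871859851807293631292762659980989466624) (nat_lit 4921771008)) (.dwn (nat_lit 1139804295527943364790976822362510852093745607335871859851807293631292762659980989466624) (nat_lit 4921771008))) (.nod (nat_lit 286536688065606255666561119413745085633362182405054860457494923336) .nil (.dwn (nat_lit 1139804295527943364790976822362510852090396023559781673536736666106238605389653297629184) (nat_lit 4921771008)) .dup)) .nil (.nod (nat_lit 15181956414776529461471590161459708961548044376)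 .nil (.nod (nat_lit 145264073529454241759344080133727837808560169712088789215753106443216107499707063158888) (.dwn (nat_lit 1139897268238570504609140109580546605767029648056630168418285861726944267021838033782920) (nat_lit 4922229832)) .nil .nil) .dup)) .nil .nil l1079 = true := by decide +kernel
theorem cw4816 : wchk (nat_lit 5) [] [l1079] (nat_lit 2) (nat_lit 3) (nat_lit 1) (nat_lit 0) (nat_lit 5820672) (nat_lit 0) w4816 = true := by decide +kernel
theorem cw4817 : wchk (nat_lit 5) [w220, w557] [] (nat_lit 146) (nat_lit 0) (nat_lit 2) (nat_lit 2) (nat_lit 9154560) (nat_lit 21784580) w4817 = true := by decide +kernel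
theorem cw4818 : wchk (nat_lit 5) [w50, w557] [] (nat_lit 146) (nat_lit 0) (nat_lit 2) (nat_lit 2) (nat_lit 13469696) (nat_lit 21784580) w4818 = true := by decide +kernel
theorem cw4819 : wchk (nat_lit 5) [w669, w557] [] (nat_lit 146) (nat_lit 0) (nat_lit 2) (nat_lit 2) (nat_lit 21712896) (nat_lit 21784580) w4819 = true := by decide +kernel
theorem cw4820 : wchk (nat_lit 5) [w50, w557] [] (nat_lit 146) (nat_lit 0) (nat_lit 2) (nat_lit 2) (nat_lit 6129664) (nat_lit 21784580) w4820 = true := by decide +kernel
theorem cw4821 : wchk (nat_lit 5) [w667, w557] [] (nat_lit 146) (nat_lit 0) (nat_lit 2) (nat_lit 2) (nat_lit 21712896) (nat_lit 21784580) w4821 = true := by decide +kernel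
theorem cw4822 : wchk (nat_lit 5) [w669, w557] [] (nat_lit 146) (nat_lit 0) (nat_lit 2) (nat_lit 2) (nat_lit 9154560) (nat_lit 21784580) w4822 = true := by decide +kernel
theorem cw4823 : wchk (nat_lit 5) [w181, w368] [] (nat_lit 0) (nat_lit 0) (nat_lit 3) (nat_lit 2) (nat_lit 21655552) (nat_lit 88893444) w4823 = true := by decide +kernel
theorem cw4824 : wchk (nat_lit 5) [w181, w368] [] (nat_lit 0) (nat_lit 0) (nat_lit 3) (nat_lit 2) (nat_lit 13283328) (nat_lit 88893444) w4824 = true := by decide +kernel
theorem cw4825 : wchk (nat_lit 5) [w83, w368] [] (nat_lit 18) (nat_lit 0) (nat_lit 3) (nat_lit 2) (nat_lit 21727232) (nat_lit 88893444) w4825 = true := by decide +kernel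
theorem cw4826 : wchk (nat_lit 5) [w162, w557] [] (nat_lit 146) (nat_lit 0) (nat_lit 2) (nat_lit 2) (nat_lit 21712896) (nat_lit 21784580) w4826 = true := by decide +kernel
theorem cw4827 : wchk (nat_lit 5) [w144] [] (nat_lit 0) (nat_lit 1) (nat_lit 4) (nat_lit 2) (nat_lit 16777253) (nat_lit 13283328) w4827 = true := by decide +kernel
theorem cw4828 : wchk (nat_lit 5) [w812, w16] [] (nat_lit 2) (nat_lit 1) (nat_lit 2) (nat_lit 2) (nat_lit 86664192) (nat_lit 22307844) w4828 = true := by decide +kernel
theorem cw4829 : wchk (nat_lit 5) [w2448, w16] [] (nat_lit 18) (nat_lit 1) (nat_lit 2) (nat_lit 2) (nat_lit 23211008) (nat_lit 22307844) w4829 = true := by decide +kernel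
theorem cw4830 : wchk (nat_lit 5) [w80, w230] [] (nat_lit 2) (nat_lit 1) (nat_lit 3) (nat_lit 2) (nat_lit 80578560) (nat_lit 21712900) w4830 = true := by decide +kernel
theorem cw4831 : wchk (nat_lit 5) [] [l179] (nat_lit 18) (nat_lit 1) (nat_lit 2) (nat_lit 0) (nat_lit 5806336) (nat_lit 0) w4831 = true := by decide +kernel
theorem cw4832 : wchk (nat_lit 5) [w80, w144] [] (nat_lit 2) (nat_lit 1) (nat_lit 4) (nat_lit 2) (nat_lit 80392192) (nat_lit 13283332) w4832 = true := by decide +kernel
theorem cw4833 : wchk (nat_lit 5) [w80, w230] [] (nat_lit 2) (nat_lit 1) (nat_lit 3) (nat_lit 2) (nat_lit 80385024) (nat_lit 21712900) w4833 = true := by decide +kernel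
theorem cw4834 : wchk (nat_lit 5) [w241, w368] [] (nat_lit 18) (nat_lit 0) (nat_lit 3) (nat_lit 2) (nat_lit 21712896) (nat_lit 88893444) w4834 = true := by decide +kernel
theorem cw4835 : wchk (nat_lit 5) [] [l179] (nat_lit 33) (nat_lit 1) (nat_lit 2) (nat_lit 0) (nat_lit 156801280) (nat_lit 0) w4835 = true := by decide +kernel
theorem cw4836 : wchk (nat_lit 5) [w4835, w16] [] (nat_lit 18) (nat_lit 1) (nat_lit 2) (nat_lit 2) (nat_lit 23282688) (nat_lit 22307844) w4836 = true := by decide +kernel
theorem cw4837 : wchk (nat_lit 5) [] [l1077] (nat_lit 3) (nat_lit 0) (nat_lit 4) (nat_lit 1) (nat_lit 4673792) (nat_lit 0) w4837 = true := by decide +kernel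
theorem cw4838 : wchk (nat_lit 5) [] [l1077] (nat_lit 3) (nat_lit 0) (nat_lit 4) (nat_lit 1) (nat_lit 4673792) (nat_lit 0) w4838 = true := by decide +kernel
theorem cl1080 : lchk (nat_lit 5) [w558, w4038, w536, w537, w368, w144, w16, w4566, w4798, w4799, w4825, w2015, w2037, w2709, w4826, w4632, w521, w4800, w4801, w4802, w4816, w128, w4817, w4818, w4819, w4820, w4821, w4822, w4823, w2800, w4824, w4834, w3356, w4836, w4815, w540, w4827, w4828, w4829, w4830, w4831, w4832, w4833, w551, w552, w553, w111, w4837, w4838] (nat_lit 21784576) .nil (.nod (nat_lit 290765853974314354897791663358684134820578952738279866878398091289) (.nod (nat_lit 1114366740295626036749157997779928224272021479257029648110864486432) (.nod (nat_lit 286536644125894107974977718429242278090834583887395205932931139640) .nil (.nod (nat_lit 290765847697212622861006907823931938528360814439785417847450536008) .nil (.nod (nat_lit 9097082327052940372759451956888300061265393032212377561948160364045275780565681926916184) (.dwn (nat_lit 144900534538758191691040278770134207980804313725143715615483571641332194499780982425704) (nat_lit 314158376960)) .nil .nil) .dup) (.nod (nat_lit 286537089800117320428955862627709276679173512608660732842742468736)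 (.nod (nat_lit 9097082334463634084440555748673375870880289355937989233291404019603936441603113079965872) (.dwn (nat_lit 72754456599548007853273004502055648767406110343413207623668773140045713700746846768892120) (nat_lit 314158376960)) .nil .nil) .nil .nil)) .nil (.nod (nat_lit 15845452585093652115066259164504834492449851632) .nil (.dwn (nat_lit 1139910563949425090142170280810159239329623456746349594028852873315163470498009263540480) (nat_lit 4922229892)) .dup)) .nil (.nod (nat_lit 292297309870205320351974409529572102994554784933251249730348288296) (.dwn (nat_lit 145264097614208803128987510797583111793699519338789747633004400934854936982713241340240) (nat_lit 625764352)) .nil .nil)) (.nod (nat_lit 8277224325761869235034990475890241585346057737806015119009475285352) .nil (.dwn (nat_lit 1115268734706594161274977556916833644068969379261206482986949060976) (nat_lit 90391744)) .dup) .nil l1080 = true := by decide +kernel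
theorem cw4839 : wchk (nat_lit 5) [] [l1080] (nat_lit 1682) (nat_lit 1) (nat_lit 3) (nat_lit 0) (nat_lit 9820492032) (nat_lit 0) w4839 = true := by decide +kernel
theorem cw4843 : wchk (nat_lit 5) [w370, w2914] [] (nat_lit 2) (nat_lit 1) (nat_lit 3) (nat_lit 2) (nat_lit 88893440) (nat_lit 17655812) w4843 = true := by decide +kernel
theorem cw4844 : wchk (nat_lit 5) [] [l735] (nat_lit 2) (nat_lit 0) (nat_lit 1) (nat_lit 0) (nat_lit 5806336) (nat_lit 0) w4844 = true := by decide +kernel
theorem cl1081 : lchk (nat_lit 5) [w4038, w495, w384, w1, w3688, w4566, w1070, w4770, w4748, w4632, w2118, w489, w1109, w3274, w3120, w4771, w1125, w4844, w795, w1108] (nat_lit 4922107904) .nil (.nod (nat_lit 277717510777829618473710167333084471280482758592288221653531531272) (.nod (nat_lit 1114366639861998270563334116037446689879217601413699973167063945232) (.nod (nat_lit 15533176818099774592766443034859051321287821352) .nil .nil (.nod (nat_lit 15845392695397074029922602563631005551610726448) (.dwn (nat_lit 20933259795324011728985495491764729289055375331743183844154483509656554849697225410632) (nat_lit 90269696)) .nil .nil)) .nil (.nod (nat_lit 15845403584432815499912972893462979196382302296)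 .nil (.nod (nat_lit 5391913289201748653142822842434476530489565005001106550407977066418817384588772722792) (.dwn (nat_lit 1637233784611487596515703772715924493536753228747543412572184481838936609777312973097088) (nat_lit 39281968196)) .nil .nil) (.nod (nat_lit 5391913289201748653142822842434476530489565005001106550407977066418817384588772722792) (.dwn (nat_lit 1637233784611487596515703772715924493536753228747543412572184481838936609777312973097088) (nat_lit 39281968196)) .nil .nil))) .nil (.dwn (nat_lit 291576598157355163214413358169559447613935412228135759322032015512) (nat_lit 660695040))) (.nod (nat_lit 62214393298592024514793465066834793529643925263685738349829256564736) (.nod (nat_lit 9159219502419144359735195781939864428904470570378940035104789926514436817445409914015744) .nil (.dwn (nat_lit 73251751594730397870984546138590438900388468573726782023319782465519309089945797947215872) (nat_lit 316307236864)) .dup) (.nod (nat_lit 496522284139721862483923938191879224678299415543109170826656868388864) .nil (.opn (nat_lit 3970985410868760566209986531042554241336996815258362239994964436242432)) .dup) (.dwn (nat_lit 9159219502419144359735195781939864428931387097336527603369045727181492488045968868167680)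 (nat_lit 39550281728))) .nil l1081 = true := by decide +kernel
theorem cw4845 : wchk (nat_lit 5) [] [l1081] (nat_lit 146) (nat_lit 2) (nat_lit 1) (nat_lit 0) (nat_lit 1230557440) (nat_lit 0) w4845 = true := by decide +kernel
theorem cl1082 : lchk (nat_lit 5) [w4844, w495, w497, w382, w1, w3688, w4566, w1070, w4770, w4748, w4632, w4038, w2118, w489, w1109, w3274, w3120, w4771, w1125, w795, w1108] (nat_lit 23282688) .nil (.nod (nat_lit 272768141601511928425040924088673690464661218561879991583950415888) (.nod (nat_lit 1114366690078812153656780229446021010905614872550036527353641125921) (.nod (nat_lit 15533179540358709960274150889429863365109925936) .nil .nil (.nod (nat_lit 15845395417656009397430310418201817595432831032) (.dwn (nat_lit 20933260721660725627515058930549423241652084271311635490307834861990641280758360737872) (nat_lit 90269740)) .nil .nil)) .nil (.nod (nat_lit 15845409028950686234928388602604603284026511464) .nil (.nod (nat_lit 5391915141875176450201949619570236669496090662765379071392017113449303135286491170936) (.dwn (nat_lit 1637233786464161024312762899593493881441946646626680315864491184543604782639435243751568) (nat_lit 39281968128))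 .nil .nil) (.nod (nat_lit 5391915141875176450201949619570236669496090662765379071392017113449303135286491170936) (.dwn (nat_lit 1637233786464161024312762899593493881441946646626680315864491184543604782639435243751568) (nat_lit 39281968128)) .nil .nil))) .nil (.dwn (nat_lit 291576648374169046307859471578133768642774448901550127078130223264) (nat_lit 660695084))) (.nod (nat_lit 62214393850976977228821372284384262771918569882316330941150734241880) (.nod (nat_lit 20933253310967014439278551370055057737723449336104754886666794771905142731802268829696) .nil (.dwn (nat_lit 145264062413413674984864100073547927711504240807196591915211882141458726189610975004672) (nat_lit 627262464)) .dup) (.nod (nat_lit 20933253310967014438143757434208066949041641680415337493385154824789931481673345959936) .nil (.dwn (nat_lit 145264062413413674976989319470913276974521054789084992583071877296887442574120132708352) (nat_lit 627262464)) .dup) (.dwn (nat_lit 20933253310967014439278551370055057737784966638633189064684694223751439257277812869120) (nat_lit 90391552))) .nil l1082 = true := by decide +kernel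
theorem cw4846 : wchk (nat_lit 5) [] [l1082] (nat_lit 146) (nat_lit 2) (nat_lit 1) (nat_lit 0) (nat_lit 1230557440) (nat_lit 0) w4846 = true := by decide +kernel
theorem cw4847 : wchk (nat_lit 5) [w368, w497] [] (nat_lit 1) (nat_lit 1) (nat_lit 1) (nat_lit 2) (nat_lit 88771584) (nat_lit 21727236) w4847 = true := by decide +kernel
theorem cw4848 : wchk (nat_lit 5) [w368, w497] [] (nat_lit 1) (nat_lit 1) (nat_lit 1) (nat_lit 2) (nat_lit 84585472) (nat_lit 21727236) w4848 = true := by decide +kernel
theorem cw4849 : wchk (nat_lit 5) [w382] [] (nat_lit 18) (nat_lit 0) (nat_lit 3) (nat_lit 2) (nat_lit 433) (nat_lit 88893440) w4849 = true := by decide +kernel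
theorem cw4850 : wchk (nat_lit 5) [w382] [] (nat_lit 0) (nat_lit 0) (nat_lit 3) (nat_lit 2) (nat_lit 33554513) (nat_lit 88893440) w4850 = true := by decide +kernel
theorem cl1083 : lchk (nat_lit 5) [w3356, w1616, w495, w2433, w373, w126, w4850, w2119, w3473, w4847, w4848, w4849, w3274] (nat_lit 9217139712) .nil (.nod (nat_lit 14607568243477946028122531386076083308528610950507216153268993566745) (.nod (nat_lit 1114366740295626036749953158725913331800132288539696756590263328800) (.nod (nat_lit 292295903799416593736414987099817221784335082527248732042993599322) .nil (.dwn (nat_lit 14607568237200844293527416272682684743178813405396854897600185960512) (nat_lit 1164076032)) .dup) .nil (.nod (nat_lit 858980901933630292924729424) .nil .nil (.dwn (nat_lit 1139910545422690812171579013038801637939542354759677918132778122965814389101861143576602) (nat_lit 4922229804)))) .nil (.dwn (nat_lit 291576296856471864653736674995854586072930162922415623751692126272) (nat_lit 1197630464))) (.nod (nat_lit 116135096529667610635226368389768594823028344004176985881122334623744) (.nod (nat_lit 17116406224934252390137470039682952174706162957984213644485761818711566769622695952041984)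 .nil (.dwn (nat_lit 136909140795141609825809146215498332394443955540381198621488953499276444431221384351631360) (nat_lit 591185208320)) .dup) (.nod (nat_lit 17116406224934252390137470039682952174756463555043687769045714085770068326717498935527424) .nil (.dwn (nat_lit 136909140795141609825809146215498332394846295344332753986452134266769857238357965187368960) (nat_lit 591185208320)) .dup) (.dwn (nat_lit 17116406224934252390137470039682952174756463555043687769048440886600528317814211541780480) (nat_lit 73910084608))) .nil l1083 = true := by decide +kernel
theorem cw4851 : wchk (nat_lit 5) [] [l1083] (nat_lit 274) (nat_lit 2) (nat_lit 2) (nat_lit 0) (nat_lit 1230557440) (nat_lit 0) w4851 = true := by decide +kernel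
theorem cw4852 : wchk (nat_lit 5) [w69, w505] [] (nat_lit 18) (nat_lit 0) (nat_lit 3) (nat_lit 2) (nat_lit 21727232) (nat_lit 88821764) w4852 = true := by decide +kernel
theorem cw4853 : wchk (nat_lit 5) [w69, w505] [] (nat_lit 18) (nat_lit 0) (nat_lit 3) (nat_lit 2) (nat_lit 13469696) (nat_lit 88821764) w4853 = true := by decide +kernel
theorem cw4854 : wchk (nat_lit 5) [w105, w505] [] (nat_lit 1) (nat_lit 1) (nat_lit 4) (nat_lit 2) (nat_lit 80578560) (nat_lit 84628484) w4854 = true := by decide +kernel
theorem cw4855 : wchk (nat_lit 5) [w519, w505] [] (nat_lit 18) (nat_lit 0) (nat_lit 3) (nat_lit 2) (nat_lit 21655552) (nat_lit 88821764) w4855 = true := by decide +kernel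
theorem cw4856 : wchk (nat_lit 5) [w220, w644] [] (nat_lit 146) (nat_lit 0) (nat_lit 4) (nat_lit 2) (nat_lit 9269248) (nat_lit 17655812) w4856 = true := by decide +kernel
theorem cw4857 : wchk (nat_lit 5) [w230, w505] [] (nat_lit 18) (nat_lit 0) (nat_lit 3) (nat_lit 2) (nat_lit 21712896) (nat_lit 88821764) w4857 = true := by decide +kernel
theorem cw4858 : wchk (nat_lit 5) [w1303, w16] [] (nat_lit 0) (nat_lit 1) (nat_lit 1) (nat_lit 2) (nat_lit 627133440) (nat_lit 22823940) w4858 = true := by decide +kernel
theorem cw4859 : wchk (nat_lit 5) [w17] [] (nat_lit 2) (nat_lit 0) (nat_lit 1) (nat_lit 2) (nat_lit 205) (nat_lit 23160832) w4859 = true := by decide +kernel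
theorem cw4860 : wchk (nat_lit 5) [w4859, w16] [] (nat_lit 0) (nat_lit 1) (nat_lit 2) (nat_lit 2) (nat_lit 627262464) (nat_lit 22307844) w4860 = true := by decide +kernel
theorem cw4861 : wchk (nat_lit 5) [w83, w505] [] (nat_lit 18) (nat_lit 0) (nat_lit 3) (nat_lit 2) (nat_lit 21727232) (nat_lit 88821764) w4861 = true := by decide +kernel
theorem cw4862 : wchk (nat_lit 5) [w241, w505] [] (nat_lit 18) (nat_lit 0) (nat_lit 3) (nat_lit 2) (nat_lit 21712896) (nat_lit 88821764) w4862 = true := by decide +kernel
theorem cl1084 : lchk (nat_lit 5) [w515, w17, w536, w537, w3878, w144, w16, w644, w645, w4852, w4853, w4861, w2015, w2037, w531, w532, w533, w534, w1355, w521, w4854, w4855, w523, w4856, w128, w526, w4857, w4858, w2800, w4860, w4862, w548, w549, w538, w540, w541, w362, w546, w542, w543, w544, w547, w551, w558, w556, w642, w401, w560, w39] (nat_lit 21784576) .nil (.nod (nat_lit 290765847697212619511110899522894711612912536635924422414363578393) (.nod (nat_lit 1134794136714246321131847419897769083275300913127994156141794248736) (.nod (nat_lit 286536644125894107974977718429242278068955482182941510085065232440) .nil (.nod (nat_lit 61775866735800434172656630676197078867457604811210215551239979436112)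 .nil (.nod (nat_lit 9097082327979277086657981520327084755217989741151946013594313715397462293044153385830496) (.dwn (nat_lit 144900535465094909471789113941691649574869674126696564145863016501120045715205566025864) (nat_lit 314158376960)) .nil .nil) (.nod (nat_lit 9097082327979277086657981520327084755217989741151946013594313715397462293044153385830496) (.dwn (nat_lit 144900535465094909471789113941691649574869674126696564145863016501120045715205566025864) (nat_lit 314158376960)) .nil .nil)) (.nod (nat_lit 292296506401183190856836594992382966533130198158621365632757223576) (.dwn (nat_lit 9097082337242644226136125631386859945515894539632365827262764153797099467088952114729160) (nat_lit 39281968232)) .nil .nil)) .nil (.nod (nat_lit 15845449862834716747558551309934022448627747048) .nil (.dwn (nat_lit 1139910563023088376243640717421591359260119169476984900267862726529200381650174052182264) (nat_lit 4922229864)) .dup)) .nil (.nod (nat_lit 273489656783384215073585171792236814865740613843287568302281679136) (.dwn (nat_lit 144917157651089100750122346204941739700897091706163165464475762601797998086760265470280) (nat_lit 625764352)) .nil .nil)) (.nod (nat_lit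 8277224275545055351941544365203926199663681422729956644288787566641) (.nod (nat_lit 20586354106662723594598189591640239019600669896226804062372669922081946576990280274272) .nil .nil (.dwn (nat_lit 144917123376630686496672525919926606056074406070689008442154441606098234278460733837312) (nat_lit 625764352))) (.dwn (nat_lit 20586355959336151392773305011726421347524596342286215875606615353169936096251859868032) (nat_lit 88893440)) (.dwn (nat_lit 20586355959336151392773305011726421347524596342286215875606615353169936096251859868032) (nat_lit 88893440))) .nil l1084 = true := by decide +kernel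
theorem cw4863 : wchk (nat_lit 5) [] [l1084] (nat_lit 1682) (nat_lit 1) (nat_lit 3) (nat_lit 0) (nat_lit 9820492032) (nat_lit 0) w4863 = true := by decide +kernel
theorem cw4864 : wchk (nat_lit 5) [w69, w505] [] (nat_lit 18) (nat_lit 0) (nat_lit 4) (nat_lit 2) (nat_lit 17541120) (nat_lit 76256260) w4864 = true := by decide +kernel
theorem cw4865 : wchk (nat_lit 5) [w69, w505] [] (nat_lit 18) (nat_lit 0) (nat_lit 4) (nat_lit 2) (nat_lit 13412352) (nat_lit 76256260) w4865 = true := by decide +kernel
theorem cw4866 : wchk (nat_lit 5) [w105] [] (nat_lit 17) (nat_lit 0) (nat_lit 3) (nat_lit 2) (nat_lit 209) (nat_lit 80521216) w4866 = true := by decide +kernel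
theorem cw4867 : wchk (nat_lit 5) [w4866, w16] [] (nat_lit 145) (nat_lit 2) (nat_lit 1) (nat_lit 2) (nat_lit 4922229760) (nat_lit 88764420) w4867 = true := by decide +kernel
theorem cw4868 : wchk (nat_lit 5) [w519, w505] [] (nat_lit 18) (nat_lit 0) (nat_lit 4) (nat_lit 2) (nat_lit 17462272) (nat_lit 76256260) w4868 = true := by decide +kernel
theorem cw4869 : wchk (nat_lit 5) [w1588, w505] [] (nat_lit 18) (nat_lit 0) (nat_lit 4) (nat_lit 2) (nat_lit 19612672) (nat_lit 76256260) w4869 = true := by decide +kernel
theorem cw4870 : wchk (nat_lit 5) [w230, w505] [] (nat_lit 18) (nat_lit 0) (nat_lit 4) (nat_lit 2) (nat_lit 17519616) (nat_lit 76256260) w4870 = true := by decide +kernel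
theorem cw4871 : wchk (nat_lit 5) [w1303, w16] [] (nat_lit 0) (nat_lit 1) (nat_lit 2) (nat_lit 2) (nat_lit 626101248) (nat_lit 18179076) w4871 = true := by decide +kernel
theorem cw4872 : wchk (nat_lit 5) [w83, w505] [] (nat_lit 18) (nat_lit 0) (nat_lit 4) (nat_lit 2) (nat_lit 17541120) (nat_lit 76256260) w4872 = true := by decide +kernel
theorem cw4873 : wchk (nat_lit 5) [w241, w505] [] (nat_lit 18) (nat_lit 0) (nat_lit 4) (nat_lit 2) (nat_lit 17519616) (nat_lit 76256260) w4873 = true := by decide +kernel
theorem cl1085 : lchk (nat_lit 5) [w515, w4038, w17, w536, w505, w144, w16, w4566, w4864, w4865, w4872, w2015, w2037, w531, w532, w534, w533, w4632, w521, w4867, w4868, w523, w4869, w526, w128, w4870, w4858, w4871, w2800, w4873, w3356, w3019, w540, w362, w541, w4829, w542, w543, w547, w544, w553, w558, w555, w556, w642, w39, w560, w401] (nat_lit 17655808) .nil (.nod (nat_lit 290765853974314354897791663358684134820591117535892995010750763033) (.nod (nat_lit 1115266625600411071300607698064514809646500728928445667144090724384) (.nod (nat_lit 234703250570276117644286295283670878668044903617583746687696422968) .nil (.nod (nat_lit 290765847697212622861006907823931938709959041077384568265756377088)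 .nil (.nod (nat_lit 9097082327052940372759400123494744443275062340789231990548738090615733189894537866117120) (.dwn (nat_lit 143929437234844089061316213629316875971456353841385066571535969748125472445110073086080) (nat_lit 314154248192)) .nil .nil) (.nod (nat_lit 9097082327052940372759400123494744443275062340789231990548738090615733189894537866117120) (.dwn (nat_lit 143929437234844089061316213629316875971456353841385066571535969748125472445110073086080) (nat_lit 314154248192)) .nil .nil)) (.nod (nat_lit 234703796678127096285156666299286519313699870034061338039384705176) (.dwn (nat_lit 9097082336316307512237544234554519633572969949163546819077149762875408477460200611555520) (nat_lit 39281968228)) .nil .nil)) .nil (.nod (nat_lit 7649923280115777375579308298897530972725795040) .nil (.dwn (nat_lit 1139910562096751662345111154033023479190616931088585321507868833268132984747311545092336) (nat_lit 4922229860)) (.dwn (nat_lit 1139910562096751662345111154033023479190616931088585321507868833268132984747311545092336) (nat_lit 4922229860)))) .nil (.nod (nat_lit 286537893269139449921283783269883554624395423158772106006342848784) (.dwn (nat_lit 144414177194849904964800914900568115201736685418330203965547009723132497206281747747128)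 (nat_lit 621635584)) .nil .nil)) (.nod (nat_lit 1114366847006355538307992964053692449495949354239063359135227240497) (.nod (nat_lit 19630194908596944771510045205767326834886321581274854752572818440520203814832212463960) .nil .nil (.dwn (nat_lit 143960966031238335477383492868870930869108600530986475253217178016966237252820414418944) (nat_lit 621635584))) (.dwn (nat_lit 20556475115955926524651309388334695160084583340046792094637959717397742808778560182632) (nat_lit 84764672)) (.dwn (nat_lit 20556475115955926524651309388334695160084583340046792094637959717397742808778560182632) (nat_lit 84764672))) .nil l1085 = true := by decide +kernel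
theorem cw4874 : wchk (nat_lit 5) [] [l1085] (nat_lit 1682) (nat_lit 1) (nat_lit 4) (nat_lit 0) (nat_lit 9820492032) (nat_lit 0) w4874 = true := by decide +kernel
theorem cw4875 : wchk (nat_lit 5) [w16, w4209] [] (nat_lit 19) (nat_lit 0) (nat_lit 3) (nat_lit 2) (nat_lit 22121472) (nat_lit 85567492) w4875 = true := by decide +kernel
theorem cl1086 : lchk (nat_lit 5) [w4038, w508, w676, w1, w3688, w4566, w1070, w4770, w4748, w4632, w2118, w489, w1109, w3274, w3120, w4771, w1125, w4844, w795, w1108] (nat_lit 4922107904) .nil (.nod (nat_lit 272768141601511928425040924088673690464661218414306038994274002952) (.nod (nat_lit 1114366639861998270563334116037446689879217601413699973167063945232) (.nod (nat_lit 15533176818099774592766443034859051321287821352) .nil .nil (.nod (nat_lit 15845392695397074029922602563631005551610726448) (.dwn (nat_lit 20933259795324011728985495491764729289055375331743183844154483509656554849697225410632) (nat_lit 90269696)) .nil .nil)) .nil (.nod (nat_lit 15845403584432815499912972893462979196382302296) .nil (.nod (nat_lit 5391913289201748653142822842434476530489565005001106550407977066418817384588772722792) (.dwn (nat_lit 1637233784611487596515703772715924493536753228747543412572184481838936609777312973097088)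 (nat_lit 39281968196)) .nil .nil) (.nod (nat_lit 5391913289201748653142822842434476530489565005001106550407977066418817384588772722792) (.dwn (nat_lit 1637233784611487596515703772715924493536753228747543412572184481838936609777312973097088) (nat_lit 39281968196)) .nil .nil))) .nil (.dwn (nat_lit 291576598157355163214413358169559447613935412228135759322032015512) (nat_lit 660695040))) (.nod (nat_lit 62214393298592024514793465066834793529643925263685738349829256564736) (.nod (nat_lit 9159219502419144359735195781939864428904470570378940035104789926514436817445409914015744) .nil (.nod (nat_lit 73251751594730397870984546138590438900388468573726782023319782465519309089945797947215872) .nil (.opn (nat_lit 585992008333220425960979348991795034672260452600509517929039722777558287269948902212816896)) .dup) (.dwn (nat_lit 73251751594730397870984546138590438900388468573726782023319782465519309089945797947215872) (nat_lit 316307236864))) (.dwn (nat_lit 9159219502419144359735195781939864428931387097336527603369045727181492488045968868167680) (nat_lit 39550281728)) (.dwn (nat_lit 9159219502419144359735195781939864428931387097336527603369045727181492488045968868167680)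 (nat_lit 39550281728))) .nil l1086 = true := by decide +kernel
theorem cw4876 : wchk (nat_lit 5) [] [l1086] (nat_lit 146) (nat_lit 2) (nat_lit 1) (nat_lit 0) (nat_lit 1230557440) (nat_lit 0) w4876 = true := by decide +kernel
theorem cl1087 : lchk (nat_lit 5) [w562, w177, w175, w2914, w512, w83, w487, w516, w517, w518, w4772, w4773, w4774, w515, w4769, w4636, w492, w4775, w3356, w2380, w4778, w4779, w4780, w4781, w3019, w4637, w4032, w4638, w4664, w4042, w4665, w4782, w4797, w4839, w1166, w1408, w4863, w4874, w4875, w358, w4876, w799, w3766, w4843, w4845, w4846, w502, w4851] (nat_lit 21784576) .nil (.nod (nat_lit 280057212570270708314899264139533204029757730676466375023050147848) (.nod (nat_lit 1114366639861998270556694766052871650920798514289214943789955338256) (.nod (nat_lit 273488200495781605363647882943581505029408550314270903375442399280) .nil (.nod (nat_lit 61775866685583620289562165000593959224683404319971609694620509327432) (.dwn (nat_lit 9097082327052940373252319241163098319259515684421441620123623125395674304722707490197608) (nat_lit 39281968184)) .nil .nil) (.nod (nat_lit 61775866685583620289562165000593959224683404319971609694620509327432)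 (.dwn (nat_lit 9097082327052940373252319241163098319259515684421441620123623125395674304722707490197608) (nat_lit 39281968184)) .nil .nil)) .nil (.nod (nat_lit 15845417195727492337453627786501365016548790400) .nil (.nod (nat_lit 1139910550980711095562756393370208918356577777141999686381964592985950070243125234403472) (.dwn (nat_lit 145264080013811239542204845469385443024675350525298771010651758760387451882984533559472) (nat_lit 39281968220)) .nil .nil) .dup)) .nil (.nod (nat_lit 286537541751442268270990445499423487865434087480435091503858276560) (.dwn (nat_lit 145264087424504950245162312970951478315135633194352560310988916262289287688117315602672) (nat_lit 627262520)) .nil .nil)) (.nod (nat_lit 8296031326030109860098580271983217924486519138917657503025199745280) (.nod (nat_lit 20933283880078573090754144900166772056508290362715429728260928292402198242315865639184) .nil (.nod (nat_lit 144915495803024366788104434616601274467615759222464661321903111608409989705178428115240) (.dwn (nat_lit 1139910570433782087493651473029107451302486164960068408838769152041386740410465459556664) (nat_lit 4920731648)) .nil .nil) (.nod (nat_lit 144915495803024366788104434616601274467615759222464661321903111608409989705178428115240)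 (.dwn (nat_lit 1139910570433782087493651473029107451302486164960068408838769152041386740410465459556664) (nat_lit 4920731648)) .nil .nil)) (.nod (nat_lit 20933291290772284278984803155963220952740506535054417981495243645372612413963145341264) (.dwn (nat_lit 145264103172229086520164891430291275509278714387701814759407259275232700792169808955768) (nat_lit 625764352)) .nil .nil) .dup) .nil l1087 = true := by decide +kernel
theorem cw4877 : wchk (nat_lit 5) [] [l1087] (nat_lit 274) (nat_lit 1) (nat_lit 1) (nat_lit 0) (nat_lit 1230557440) (nat_lit 0) w4877 = true := by decide +kernel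
theorem cw4878 : wchk (nat_lit 5) [] [l944] (nat_lit 10393) (nat_lit 1) (nat_lit 2) (nat_lit 0) (nat_lit 78539966976) (nat_lit 0) w4878 = true := by decide +kernel
theorem cw4879 : wchk (nat_lit 5) [] [l718] (nat_lit 1) (nat_lit 0) (nat_lit 3) (nat_lit 0) (nat_lit 5415680) (nat_lit 0) w4879 = true := by decide +kernel
theorem cw4880 : wchk (nat_lit 5) [w284, w32] [] (nat_lit 25) (nat_lit 0) (nat_lit 0) (nat_lit 2) (nat_lit 90334208) (nat_lit 90262532) w4880 = true := by decide +kernel
theorem cw4881 : wchk (nat_lit 5) [] [l944] (nat_lit 153) (nat_lit 3) (nat_lit 0) (nat_lit 0) (nat_lit 1230555648) (nat_lit 0) w4881 = true := by decide +kernel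
theorem cw4882 : wchk (nat_lit 5) [] [l944] (nat_lit 153) (nat_lit 3) (nat_lit 0) (nat_lit 0) (nat_lit 1230555648) (nat_lit 0) w4882 = true := by decide +kernel
theorem cw4884 : wchk (nat_lit 5) [] [l15] (nat_lit 1) (nat_lit 0) (nat_lit 3) (nat_lit 0) (nat_lit 5444352) (nat_lit 0) w4884 = true := by decide +kernel
theorem cw4885 : wchk (nat_lit 5) [w4884, w37] [] (nat_lit 25) (nat_lit 1) (nat_lit 1) (nat_lit 2) (nat_lit 627262464) (nat_lit 23153668) w4885 = true := by decide +kernel
theorem cw4886 : wchk (nat_lit 5) [] [l285] (nat_lit 1) (nat_lit 3) (nat_lit 0) (nat_lit 0) (nat_lit 22307584) (nat_lit 0) w4886 = true := by decide +kernel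
theorem cw4887 : wchk (nat_lit 5) [] [l766] (nat_lit 1) (nat_lit 0) (nat_lit 3) (nat_lit 0) (nat_lit 5802752) (nat_lit 0) w4887 = true := by decide +kernel
theorem cw4888 : wchk (nat_lit 5) [] [l430] (nat_lit 25) (nat_lit 3) (nat_lit 0) (nat_lit 0) (nat_lit 5818880) (nat_lit 0) w4888 = true := by decide +kernel
theorem cw4889 : wchk (nat_lit 5) [] [] (nat_lit 0) (nat_lit 0) (nat_lit 3) (nat_lit 2) (nat_lit 337) (nat_lit 337) w4889 = true := by decide +kernel
theorem cl1088 : lchk (nat_lit 5) [w4607, w4068, w32, w4888, w4889, w861, w4189, w1758, w12, w903, w780] (nat_lit 1128958976) (.nod (nat_lit 647153268833152843514318857) .nil (.nod (nat_lit 20903375246596931265606222565804305190740929417203658749343691201685305320805373051290) .nil (.nod (nat_lit 23141900723626759704251107352) .nil .nil (.dwn (nat_lit 1134794136714246321117109400963113113945483684883713987097179193370) (nat_lit 90391568))) (.nod (nat_lit 5378626841714302043615140613330639645372873632321526320659255257584433769006822851418) .nil (.opn (nat_lit 2134181855578482047603289392895286689603294909695846018657330213529811746895515859884088)) .dup)) (.nod (nat_lit 36458011905553496543960036660928413259675636914581371855113821684955271523289408733594)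 .nil .nil (.dwn (nat_lit 5362030593148095987957471031191314424124514487905683855201634462212313635369646315600) (nat_lit 21662720)))) .nil .nil .nil l1088 = true := by decide +kernel
theorem cw4890 : wchk (nat_lit 5) [] [l1088] (nat_lit 217) (nat_lit 2) (nat_lit 2) (nat_lit 0) (nat_lit 1230557440) (nat_lit 0) w4890 = true := by decide +kernel
theorem cw4891 : wchk (nat_lit 5) [w220] [] (nat_lit 0) (nat_lit 0) (nat_lit 3) (nat_lit 2) (nat_lit 22307840) (nat_lit 337) w4891 = true := by decide +kernel
theorem cw4892 : wchk (nat_lit 5) [w220] [] (nat_lit 0) (nat_lit 0) (nat_lit 4) (nat_lit 2) (nat_lit 13992960) (nat_lit 333) w4892 = true := by decide +kernel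
theorem cl1089 : lchk (nat_lit 5) [w851, w39, w32, w1283, w1468, w861, w4189, w1758, w3, w903, w890] (nat_lit 7304465408) (.nod (nat_lit 822485291609137031001298953) .nil (.nod (nat_lit 20903375246596931265606222565804305190740929417203658749343691201685305320805373051290) .nil (.nod (nat_lit 22927694179963792597361956888) .nil .nil (.dwn (nat_lit 115509933553796348590803307900109450466447760062640871060968904327194) (nat_lit 9200897040))) (.nod (nat_lit 5378626841714302043615140613330639645372873632321526320659255257584433769006822851418) (.opn (nat_lit 2134181855578482047718983623110153454920099912476460838537319415025213277579673028859960)) .dup .dup)) (.nod (nat_lit 5378629620724443739203830779034279853091096446747472761336962456981477845259109007770) .nil .nil (.dwn (nat_lit 5362030593148095987957471031191314424124514487905683855223915267299266154717982660688) (nat_lit 7606455296)))) .nil .nil .nil l1089 = true := by decide +kernel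
theorem cw4893 : wchk (nat_lit 5) [] [l1089] (nat_lit 217) (nat_lit 2) (nat_lit 2) (nat_lit 0) (nat_lit 1230557440) (nat_lit 0) w4893 = true := by decide +kernel
theorem cw4894 : wchk (nat_lit 5) [] [] (nat_lit 3) (nat_lit 0) (nat_lit 3) (nat_lit 2) (nat_lit 329) (nat_lit 337) w4894 = true := by decide +kernel
theorem cw4895 : wchk (nat_lit 5) [] [] (nat_lit 0) (nat_lit 0) (nat_lit 4) (nat_lit 2) (nat_lit 25165897) (nat_lit 333) w4895 = true := by decide +kernel
theorem cw4896 : wchk (nat_lit 5) [] [l111] (nat_lit 1) (nat_lit 3) (nat_lit 0) (nat_lit 0) (nat_lit 22350592) (nat_lit 0) w4896 = true := by decide +kernel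
theorem cw4897 : wchk (nat_lit 5) [w91] [] (nat_lit 1) (nat_lit 1) (nat_lit 3) (nat_lit 2) (nat_lit 5549056) (nat_lit 337) w4897 = true := by decide +kernel
theorem cw4898 : wchk (nat_lit 5) [w33] [] (nat_lit 1) (nat_lit 1) (nat_lit 3) (nat_lit 2) (nat_lit 22644736) (nat_lit 337) w4898 = true := by decide +kernel
theorem cw4899 : wchk (nat_lit 5) [w158] [] (nat_lit 1) (nat_lit 1) (nat_lit 3) (nat_lit 2) (nat_lit 21655552) (nat_lit 337) w4899 = true := by decide +kernel
theorem cw4900 : wchk (nat_lit 5) [w33] [] (nat_lit 1) (nat_lit 1) (nat_lit 3) (nat_lit 2) (nat_lit 15304704) (nat_lit 337) w4900 = true := by decide +kernel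
theorem cw4901 : wchk (nat_lit 5) [w1283] [] (nat_lit 217) (nat_lit 0) (nat_lit 4) (nat_lit 2) (nat_lit 33554505) (nat_lit 625642496) w4901 = true := by decide +kernel
theorem cl1090 : lchk (nat_lit 5) [w4531, w281, w32, w1283, w1468, w4894, w1204, w1170, w4901, w861, w105, w4895, w4896, w4260, w4897, w4898, w4899, w4900, w86] (nat_lit 7304587264) (.nod (nat_lit 803709162473247321630625801) .nil (.nod (nat_lit 20903375246596931265606222565804305190740929417203658749343691201685305320805373051290) .nil (.nod (nat_lit 22835996771249683292768152565241850524538837016) .nil .nil (.nod (nat_lit 6261806045134113245004623147860236277504463505448) .nil (.dwn (nat_lit 19630162486811958323044436039710529147772017639563547969229843517784353409965834109330) (nat_lit 39281968160)) (.dwn (nat_lit 19630162486811958323044436039710529147772017639563547969229843517784353409965834109330) (nat_lit 39281968160)))) (.nod (nat_lit 5378630547061157637733394167602159922609409515545797794430054741067714578738636556384) (.dwn (nat_lit 269566663636585411406714904199560195605529226595500186644123441417521693894256739387528) (nat_lit 1164126208)) .nil .nil)) (.nod (nat_lit 220814500763196979681407521318307044239616328938470761937029139378025839990457935856026)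 .nil .nil (.dwn (nat_lit 1761562920749828955817004033634439922750729667690103747734142403139424939198330402394112) (nat_lit 7606577152)))) .nil .nil .nil l1090 = true := by decide +kernel
theorem cw4902 : wchk (nat_lit 5) [] [l1090] (nat_lit 2265) (nat_lit 1) (nat_lit 3) (nat_lit 0) (nat_lit 9820492032) (nat_lit 0) w4902 = true := by decide +kernel
theorem cw4903 : wchk (nat_lit 5) [] [l942] (nat_lit 217) (nat_lit 3) (nat_lit 2) (nat_lit 0) (nat_lit 1230555648) (nat_lit 0) w4903 = true := by decide +kernel
theorem cw4904 : wchk (nat_lit 5) [] [l943] (nat_lit 217) (nat_lit 3) (nat_lit 2) (nat_lit 0) (nat_lit 1230555648) (nat_lit 0) w4904 = true := by decide +kernel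
theorem cw4905 : wchk (nat_lit 5) [w16] [] (nat_lit 1) (nat_lit 3) (nat_lit 3) (nat_lit 2) (nat_lit 433) (nat_lit 22644736) w4905 = true := by decide +kernel
theorem cw4906 : wchk (nat_lit 5) [w16] [] (nat_lit 1) (nat_lit 3) (nat_lit 3) (nat_lit 2) (nat_lit 433) (nat_lit 22644736) w4906 = true := by decide +kernel
theorem cl1091 : lchk (nat_lit 5) [w4887, w281, w32, w4884, w1283, w4902, w851, w4894, w4903, w2967, w4904, w2936, w861, w4189, w864, w1139, w4890, w4891, w4892, w4893, w38, w903, w4905, w4906] (nat_lit 23282688) (.nod (nat_lit 803709162473247321630625801) .nil (.nod (nat_lit 20903375246596931265606222565804305190740929417203658749343691201685305320805373051290) .nil (.nod (nat_lit 426892720027936713694271477473895603939002619936) .nil (.nod (nat_lit 61794674188019999742227097040954775375013238245569334653157107992632) (.dwn (nat_lit 9097082325200266945023881440100004859389821639226644496243749689228974167873999229888600) (nat_lit 39281968128)) .nil .nil) .dup) (.nod (nat_lit 5378633326071299333322084333305800131895713434496480144104249626677624521127554619504) (.dwn (nat_lit 20916667252104661328105959866720374949359986009083299797804189564911208511802373998736)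 (nat_lit 4922229836)) .nil .nil)) (.nod (nat_lit 20694232501353204651961732041249493161079615997060456087700135229110884689354757767578) .nil .nil (.dwn (nat_lit 5362041709188662770312231694005875258163668401824211756695784896436496233107528517808) (nat_lit 23282780)))) .nil .nil .nil l1091 = true := by decide +kernel
theorem cw4907 : wchk (nat_lit 5) [] [l1091] (nat_lit 25) (nat_lit 1) (nat_lit 1) (nat_lit 0) (nat_lit 156815616) (nat_lit 0) w4907 = true := by decide +kernel
theorem cw4908 : wchk (nat_lit 5) [] [l1088] (nat_lit 25) (nat_lit 3) (nat_lit 1) (nat_lit 0) (nat_lit 156815616) (nat_lit 0) w4908 = true := by decide +kernel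
theorem cw4909 : wchk (nat_lit 5) [w16] [] (nat_lit 3) (nat_lit 0) (nat_lit 4) (nat_lit 2) (nat_lit 13283328) (nat_lit 333) w4909 = true := by decide +kernel
theorem cw4910 : wchk (nat_lit 5) [] [l481] (nat_lit 17) (nat_lit 2) (nat_lit 3) (nat_lit 0) (nat_lit 156423168) (nat_lit 0) w4910 = true := by decide +kernel
theorem cw4911 : wchk (nat_lit 5) [w114] [] (nat_lit 1) (nat_lit 1) (nat_lit 3) (nat_lit 2) (nat_lit 88821760) (nat_lit 337) w4911 = true := by decide +kernel
theorem cw4912 : wchk (nat_lit 5) [w114] [] (nat_lit 1) (nat_lit 1) (nat_lit 3) (nat_lit 2) (nat_lit 89739264) (nat_lit 337) w4912 = true := by decide +kernel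
theorem cw4913 : wchk (nat_lit 5) [] [] (nat_lit 0) (nat_lit 0) (nat_lit 4) (nat_lit 2) (nat_lit 33554469) (nat_lit 333) w4913 = true := by decide +kernel
theorem cw4914 : wchk (nat_lit 5) [w158] [] (nat_lit 1) (nat_lit 1) (nat_lit 3) (nat_lit 2) (nat_lit 90391552) (nat_lit 337) w4914 = true := by decide +kernel
theorem cw4915 : wchk (nat_lit 5) [w91] [] (nat_lit 1) (nat_lit 1) (nat_lit 3) (nat_lit 2) (nat_lit 85567488) (nat_lit 337) w4915 = true := by decide +kernel
theorem cw4916 : wchk (nat_lit 5) [w161] [] (nat_lit 0) (nat_lit 0) (nat_lit 3) (nat_lit 2) (nat_lit 23282688) (nat_lit 337) w4916 = true := by decide +kernel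
theorem cl1092 : lchk (nat_lit 5) [w4038, w1108, w32, w1, w4189, w4913, w1070, w4914, w4632, w4915, w3274, w1109, w4916, w1125, w3120, w628, w809] (nat_lit 5157110784) (.nod (nat_lit 822485291609137031001298953) .nil (.nod (nat_lit 20903375246596931265896898531681768808370182952057802550380387859383573262798231175578) (.nod (nat_lit 14601809121900661720868646562160289315537556860876941617515717888040) .nil .nil (.nod (nat_lit 291396018494631559166353902094669375659776661004690011761540749360) (.dwn (nat_lit 20933259795324011728984595606459944254501071832971472793097051506345757521310013610048) (nat_lit 90391552)) .nil .nil)) .nil (.nod (nat_lit 14601809121900661720868646562160289315537556860876941617515717888040) .nil (.nod (nat_lit 11243154644648006480495967048350857003784939021964276551389536278608) (.dwn (nat_lit 145264073529454241767217961503876283996015239540350880750832749234513971530015382853736) (nat_lit 7069247548)) .nil .nil) (.nod (nat_lit 11243154644648006480495967048350857003784939021964276551389536278608) (.dwn (nat_lit 145264073529454241767217961503876283996015239540350880750832749234513971530015382853736) (nat_lit 7069247548)) .nil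 .nil))) (.nod (nat_lit 20916668178441375164840848514883302562562484811443274286095420932329413748088037704090) .nil .nil (.dwn (nat_lit 1264241344335433619826599377801260167200120501371256196916725268012128038331525838047232) (nat_lit 5459100672)))) .nil .nil .nil l1092 = true := by decide +kernel

end Pool.Agent.W319.GCI.K5
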