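import Pool.Agent.W319.GCI.K5Base
set_option autoImplicit false
set_option maxRecDepth 100000
set_option linter.all false
namespace Pool.Agent.W319.GCI.K5
open Pool.Agent.W319.GCI

def l0 : Root := .mk (.col (nat_lit 0)) (.col (nat_lit 1)) (.node (.col (nat_lit 3)) (.col (nat_lit 2)) (.slot (nat_lit 1))) (.node (.col (nat_lit 2)) (.slot (nat_lit 1)) (.slot (nat_lit 0)))
def w0 : Root := .mk (.col (nat_lit 0)) (.col (nat_lit 1)) (.node (.node (.slot (nat_lit 0)) (.slot (nat_lit 0)) (.slot (nat_lit 0))) (.col (nat_lit 2)) (.slot (nat_lit 1))) (.node (.col (nat_lit 2)) (.slot (nat_lit 1)) (.slot (nat_lit 0)))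
def l1 : Root := .mk (.col (nat_lit 0)) (.col (nat_lit 1)) (.node (.col (nat_lit 0)) (.col (nat_lit 2)) (.slot (nat_lit 1))) (.node (.col (nat_lit 2)) (.col (nat_lit 3)) (.slot (nat_lit 1)))
def w1 : Root := .mk (.col (nat_lit 0)) (.col (nat_lit 1)) (.node (.col (nat_lit 0)) (.col (nat_lit 2)) (.slot (nat_lit 1))) (.node (.col (nat_lit 2)) (.slot (nat_lit 1)) (.slot (nat_lit 1)))
def l2 : Root := .mk (.col (nat_lit 0)) (.col (nat_lit 1)) (.node (.node (.slot (nat_lit 0)) (.slot (nat_lit 0)) (.slot (nat_lit 0))) (.col (nat_lit 2)) (.slot (nat_lit 1))) (.node (.col (nat_lit 2)) (.slot (nat_lit 1)) (.slot (nat_lit 1)))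
def w2 : Root := .mk (.col (nat_lit 0)) (.col (nat_lit 1)) (.node (.node (.slot (nat_lit 0)) (.slot (nat_lit 0)) (.slot (nat_lit 0))) (.col (nat_lit 2)) (.slot (nat_lit 1))) (.slot (nat_lit 2))
def l3 : Root := .mk (.node (.col (nat_lit 1)) (.col (nat_lit 0)) .junk) (.node (.col (nat_lit 0)) (.col (nat_lit 1)) (.slot (nat_lit 0))) (.col (nat_lit 2)) (.col (nat_lit 3))
def w3 : Root := .mk (.node (.node (.col (nat_lit 1)) (.col (nat_lit 0)) .junk) (.col (nat_lit 2)) (.slot (nat_lit 1))) (.col (nat_lit 0)) (.col (nat_lit 1)) (.slot (nat_lit 0))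
def w4 : Root := .mk (.col (nat_lit 1)) (.node (.node .junk (.col (nat_lit 1)) (.slot (nat_lit 1))) (.col (nat_lit 2)) (.col (nat_lit 0))) (.col (nat_lit 0)) (.node (.col (nat_lit 2)) (.slot (nat_lit 1)) .junk)
def l4 : Root := .mk (.node (.node (.col (nat_lit 1)) (.col (nat_lit 0)) (.node (.col (nat_lit 2)) (.col (nat_lit 3)) (.slot (nat_lit 1)))) (.col (nat_lit 2)) (.col (nat_lit 0))) (.col (nat_lit 0)) (.col (nat_lit 1)) (.col (nat_lit 2))
def w5 : Root := .mk (.node (.node (.col (nat_lit 1)) (.col (nat_lit 0)) (.node (.col (nat_lit 2)) (.slot (nat_lit 1)) (.slot (nat_lit 1)))) (.col (nat_lit 2)) (.col (nat_lit 0))) (.col (nat_lit 0)) (.col (nat_lit 1)) (.col (nat_lit 2))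
def w6 : Root := .mk (.node (.col (nat_lit 1)) (.col (nat_lit 0)) (.node (.col (nat_lit 2)) (.slot (nat_lit 1)) .junk)) (.node .junk (.col (nat_lit 1)) (.node (.col (nat_lit 0)) (.slot (nat_lit 0)) (.slot (nat_lit 0)))) (.col (nat_lit 2)) (.col (nat_lit 0))
def w7 : Root := .mk (.node (.col (nat_lit 1)) (.col (nat_lit 0)) (.node (.col (nat_lit 2)) (.slot (nat_lit 1)) .junk)) (.node .junk (.col (nat_lit 1)) (.node (.col (nat_lit 1)) (.slot (nat_lit 0)) (.slot (nat_lit 0)))) (.col (nat_lit 2)) (.col (nat_lit 0))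
def w8 : Root := .mk (.node (.col (nat_lit 1)) (.col (nat_lit 0)) (.node (.col (nat_lit 2)) (.slot (nat_lit 1)) .junk)) (.node .junk (.col (nat_lit 1)) (.node (.col (nat_lit 2)) (.slot (nat_lit 0)) (.slot (nat_lit 0)))) (.col (nat_lit 2)) (.col (nat_lit 0))
def w9 : Root := .mk (.node (.col (nat_lit 1)) (.col (nat_lit 0)) (.node (.col (nat_lit 2)) (.slot (nat_lit 1)) .junk)) (.node .junk (.col (nat_lit 1)) (.node (.col (nat_lit 3)) (.slot (nat_lit 0)) (.slot (nat_lit 0)))) (.col (nat_lit 2)) (.col (nat_lit 0))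
def l5 : Root := .mk (.col (nat_lit 1)) (.node (.node (.col (nat_lit 0)) (.col (nat_lit 1)) (.slot (nat_lit 1))) (.col (nat_lit 2)) (.col (nat_lit 0))) (.col (nat_lit 0)) (.node (.col (nat_lit 2)) (.slot (nat_lit 1)) (.slot (nat_lit 1)))
def w10 : Root := .mk (.node (.col (nat_lit 1)) (.col (nat_lit 0)) (.slot (nat_lit 2))) (.node (.col (nat_lit 0)) (.col (nat_lit 1)) (.slot (nat_lit 1))) (.col (nat_lit 2)) (.col (nat_lit 0))
def w11 : Root := .mk (.node (.col (nat_lit 1)) (.col (nat_lit 0)) .junk) (.node (.col (nat_lit 0)) (.col (nat_lit 1)) (.slot (nat_lit 0))) (.col (nat_lit 2)) (.node (.col (nat_lit 0)) (.slot (nat_lit 0)) (.slot (nat_lit 0)))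
def w12 : Root := .mk (.node (.col (nat_lit 1)) (.col (nat_lit 0)) .junk) (.node (.col (nat_lit 0)) (.col (nat_lit 1)) (.slot (nat_lit 0))) (.col (nat_lit 2)) (.node (.col (nat_lit 2)) (.slot (nat_lit 0)) (.slot (nat_lit 0)))
def w13 : Root := .mk (.node (.col (nat_lit 1)) (.col (nat_lit 0)) .junk) (.node (.col (nat_lit 0)) (.col (nat_lit 1)) (.slot (nat_lit 0))) (.col (nat_lit 2)) (.node (.col (nat_lit 3)) (.slot (nat_lit 0)) (.slot (nat_lit 0)))
def l6 : Root := .mk (.col (nat_lit 1)) (.node (.node (.col (nat_lit 0)) (.col (nat_lit 1)) (.slot (nat_lit 1))) (.col (nat_lit 2)) (.slot (nat_lit 1))) (.col (nat_lit 0)) (.slot (nat_lit 2))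
def w14 : Root := .mk (.node (.node (.col (nat_lit 1)) (.col (nat_lit 0)) (.slot (nat_lit 2))) (.slot (nat_lit 1)) (.slot (nat_lit 1))) (.col (nat_lit 0)) (.col (nat_lit 1)) (.slot (nat_lit 1))
def w15 : Root := .mk (.col (nat_lit 1)) (.node (.col (nat_lit 2)) (.slot (nat_lit 1)) (.slot (nat_lit 1))) (.col (nat_lit 0)) (.node (.col (nat_lit 2)) (.slot (nat_lit 1)) (.slot (nat_lit 0)))
def l7 : Root := .mk (.col (nat_lit 1)) (.node (.col (nat_lit 2)) (.slot (nat_lit 1)) (.slot (nat_lit 1))) (.col (nat_lit 0)) (.node (.col (nat_lit 2)) (.slot (nat_lit 1)) (.slot (nat_lit 1)))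
def w16 : Root := .mk (.col (nat_lit 1)) (.node (.col (nat_lit 2)) (.slot (nat_lit 1)) (.slot (nat_lit 1))) (.col (nat_lit 0)) (.slot (nat_lit 2))
def l8 : Root := .mk (.node (.node (.col (nat_lit 1)) (.col (nat_lit 0)) (.slot (nat_lit 0))) (.col (nat_lit 3)) (.slot (nat_lit 1))) (.col (nat_lit 0)) (.col (nat_lit 1)) (.col (nat_lit 2))
def w17 : Root := .mk (.node (.node (.col (nat_lit 1)) (.col (nat_lit 0)) (.slot (nat_lit 0))) (.slot (nat_lit 1)) (.slot (nat_lit 1))) (.col (nat_lit 0)) (.col (nat_lit 1)) (.col (nat_lit 2))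
def w18 : Root := .mk (.node (.col (nat_lit 1)) (.col (nat_lit 0)) (.node (.col (nat_lit 2)) (.slot (nat_lit 1)) .junk)) (.node .junk (.col (nat_lit 1)) (.node (.col (nat_lit 0)) (.col (nat_lit 1)) (.slot (nat_lit 0)))) (.col (nat_lit 2)) (.col (nat_lit 0))
def w19 : Root := .mk (.node (.col (nat_lit 1)) (.col (nat_lit 0)) (.node (.col (nat_lit 2)) (.slot (nat_lit 1)) .junk)) (.node .junk (.col (nat_lit 1)) (.node (.col (nat_lit 0)) (.col (nat_lit 3)) (.slot (nat_lit 0)))) (.col (nat_lit 2)) (.col (nat_lit 0))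
def l9 : Root := .mk (.col (nat_lit 1)) (.node (.node (.col (nat_lit 0)) (.col (nat_lit 1)) (.node (.col (nat_lit 0)) (.slot (nat_lit 1)) (.slot (nat_lit 1)))) (.col (nat_lit 2)) (.col (nat_lit 0))) (.col (nat_lit 0)) (.node (.col (nat_lit 2)) (.slot (nat_lit 1)) (.slot (nat_lit 1)))
def w20 : Root := .mk (.node (.col (nat_lit 1)) (.col (nat_lit 0)) (.slot (nat_lit 2))) (.node (.col (nat_lit 0)) (.col (nat_lit 1)) (.node (.col (nat_lit 0)) (.slot (nat_lit 1)) (.slot (nat_lit 1)))) (.col (nat_lit 2)) (.col (nat_lit 0))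
def w21 : Root := .mk (.node (.col (nat_lit 1)) (.col (nat_lit 0)) (.node (.col (nat_lit 2)) (.slot (nat_lit 1)) .junk)) (.node (.col (nat_lit 0)) .junk (.node (.col (nat_lit 0)) (.col (nat_lit 3)) (.slot (nat_lit 0)))) (.col (nat_lit 2)) (.col (nat_lit 1))
def l10 : Root := .mk (.col (nat_lit 1)) (.node (.node (.col (nat_lit 0)) (.col (nat_lit 1)) (.node (.col (nat_lit 0)) (.slot (nat_lit 1)) (.slot (nat_lit 1)))) (.col (nat_lit 2)) (.col (nat_lit 1))) (.col (nat_lit 0)) (.node (.col (nat_lit 2)) (.slot (nat_lit 1)) (.slot (nat_lit 1)))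
def w22 : Root := .mk (.node (.col (nat_lit 1)) (.col (nat_lit 0)) (.slot (nat_lit 2))) (.node (.col (nat_lit 0)) (.col (nat_lit 1)) (.node (.col (nat_lit 0)) (.slot (nat_lit 1)) (.slot (nat_lit 1)))) (.col (nat_lit 2)) (.col (nat_lit 1))
def l11 : Root := .mk (.node (.node (.col (nat_lit 1)) (.col (nat_lit 0)) (.slot (nat_lit 2))) (.col (nat_lit 2)) (.slot (nat_lit 1))) (.col (nat_lit 0)) (.col (nat_lit 1)) (.node (.col (nat_lit 0)) (.slot (nat_lit 1)) (.slot (nat_lit 1)))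
def w23 : Root := .mk (.node (.node (.col (nat_lit 1)) (.col (nat_lit 0)) (.slot (nat_lit 2))) (.slot (nat_lit 1)) (.slot (nat_lit 1))) (.col (nat_lit 0)) (.col (nat_lit 1)) (.node (.col (nat_lit 0)) (.slot (nat_lit 1)) (.slot (nat_lit 1)))
def w24 : Root := .mk (.node (.node (.col (nat_lit 1)) (.col (nat_lit 0)) (.slot (nat_lit 0))) (.slot (nat_lit 1)) (.slot (nat_lit 1))) (.col (nat_lit 0)) (.col (nat_lit 1)) (.node (.col (nat_lit 2)) (.slot (nat_lit 1)) (.slot (nat_lit 1)))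
def w25 : Root := .mk (.col (nat_lit 1)) (.node (.node (.col (nat_lit 0)) (.col (nat_lit 1)) (.node (.col (nat_lit 2)) (.col (nat_lit 0)) (.node (.col (nat_lit 1)) (.slot (nat_lit 1)) .junk))) .junk (.col (nat_lit 2))) (.col (nat_lit 0)) (.col (nat_lit 2))
def l12 : Root := .mk (.col (nat_lit 1)) (.node (.node (.col (nat_lit 0)) (.col (nat_lit 1)) (.node (.col (nat_lit 2)) (.col (nat_lit 0)) (.node (.col (nat_lit 1)) (.slot (nat_lit 1)) (.slot (nat_lit 1))))) (.col (nat_lit 0)) (.col (nat_lit 2))) (.col (nat_lit 0)) (.col (nat_lit 2))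
def w26 : Root := .mk (.col (nat_lit 1)) (.node (.node (.col (nat_lit 0)) (.col (nat_lit 1)) (.node (.col (nat_lit 2)) (.col (nat_lit 0)) (.slot (nat_lit 2)))) (.col (nat_lit 0)) (.col (nat_lit 2))) (.col (nat_lit 0)) (.col (nat_lit 2))
def l13 : Root := .mk (.col (nat_lit 1)) (.node (.node (.col (nat_lit 0)) (.col (nat_lit 1)) (.node (.col (nat_lit 2)) (.col (nat_lit 1)) (.node (.col (nat_lit 0)) (.slot (nat_lit 1)) (.slot (nat_lit 1))))) (.col (nat_lit 0)) (.col (nat_lit 2))) (.col (nat_lit 0)) (.col (nat_lit 2))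
def w27 : Root := .mk (.col (nat_lit 1)) (.node (.node (.col (nat_lit 0)) (.col (nat_lit 1)) (.node (.col (nat_lit 2)) (.col (nat_lit 1)) (.slot (nat_lit 2)))) (.col (nat_lit 0)) (.col (nat_lit 2))) (.col (nat_lit 0)) (.col (nat_lit 2))
def w28 : Root := .mk (.col (nat_lit 1)) (.node (.node (.col (nat_lit 0)) (.col (nat_lit 1)) (.node (.col (nat_lit 2)) (.node (.col (nat_lit 0)) (.slot (nat_lit 0)) (.slot (nat_lit 0))) (.slot (nat_lit 1)))) (.col (nat_lit 0)) (.col (nat_lit 2))) (.col (nat_lit 0)) (.col (nat_lit 2))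
def w29 : Root := .mk (.col (nat_lit 1)) (.node (.node (.col (nat_lit 0)) (.col (nat_lit 1)) (.node (.col (nat_lit 2)) (.node (.col (nat_lit 1)) (.slot (nat_lit 0)) (.slot (nat_lit 0))) (.slot (nat_lit 1)))) (.col (nat_lit 0)) (.col (nat_lit 2))) (.col (nat_lit 0)) (.col (nat_lit 2))
def w30 : Root := .mk (.col (nat_lit 1)) (.node (.node (.col (nat_lit 0)) (.col (nat_lit 1)) (.node (.col (nat_lit 2)) (.node (.col (nat_lit 2)) (.slot (nat_lit 0)) (.slot (nat_lit 0))) (.slot (nat_lit 1)))) (.col (nat_lit 0)) (.col (nat_lit 2))) (.col (nat_lit 0)) (.col (nat_lit 2))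
def w31 : Root := .mk (.col (nat_lit 1)) (.node (.node (.col (nat_lit 0)) (.col (nat_lit 1)) (.node (.col (nat_lit 2)) (.node (.col (nat_lit 3)) (.slot (nat_lit 0)) (.slot (nat_lit 0))) (.slot (nat_lit 1)))) (.col (nat_lit 0)) (.col (nat_lit 2))) (.col (nat_lit 0)) (.col (nat_lit 2))
def l14 : Root := .mk (.col (nat_lit 1)) (.node (.node (.col (nat_lit 0)) (.col (nat_lit 1)) (.node (.col (nat_lit 2)) (.slot (nat_lit 2)) (.slot (nat_lit 2)))) (.col (nat_lit 0)) (.col (nat_lit 2))) (.col (nat_lit 0)) (.col (nat_lit 2))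
def w32 : Root := .mk (.col (nat_lit 1)) (.node (.node (.col (nat_lit 0)) (.col (nat_lit 1)) (.slot (nat_lit 3))) (.col (nat_lit 0)) (.col (nat_lit 2))) (.col (nat_lit 0)) (.col (nat_lit 2))
def w33 : Root := .mk (.col (nat_lit 1)) (.node (.node .junk (.col (nat_lit 1)) (.slot (nat_lit 1))) (.col (nat_lit 0)) (.col (nat_lit 2))) (.col (nat_lit 0)) (.node (.col (nat_lit 3)) (.slot (nat_lit 1)) .junk)
def l15 : Root := .mk (.node (.col (nat_lit 1)) (.col (nat_lit 0)) (.slot (nat_lit 3))) (.node (.col (nat_lit 0)) (.col (nat_lit 1)) (.slot (nat_lit 3))) (.col (nat_lit 0)) (.col (nat_lit 2))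
def w34 : Root := .mk (.col (nat_lit 1)) (.node (.node (.col (nat_lit 0)) (.col (nat_lit 1)) (.slot (nat_lit 3))) (.col (nat_lit 0)) (.slot (nat_lit 1))) (.col (nat_lit 0)) (.slot (nat_lit 3))
def w35 : Root := .mk (.col (nat_lit 1)) (.node (.node (.col (nat_lit 0)) (.col (nat_lit 1)) (.slot (nat_lit 1))) (.node (.col (nat_lit 0)) (.slot (nat_lit 0)) (.slot (nat_lit 0))) (.slot (nat_lit 1))) (.col (nat_lit 0)) (.slot (nat_lit 2))
def w36 : Root := .mk (.col (nat_lit 1)) (.node (.node (.col (nat_lit 0)) (.col (nat_lit 1)) (.slot (nat_lit 1))) (.node (.col (nat_lit 2)) (.slot (nat_lit 0)) (.slot (nat_lit 0))) (.slot (nat_lit 1))) (.col (nat_lit 0)) (.slot (nat_lit 2))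
def l16 : Root := .mk (.node (.node (.col (nat_lit 1)) (.col (nat_lit 0)) (.slot (nat_lit 3))) (.slot (nat_lit 1)) (.slot (nat_lit 1))) (.col (nat_lit 0)) (.col (nat_lit 1)) (.slot (nat_lit 3))
def w37 : Root := .mk (.col (nat_lit 1)) (.node (.node (.col (nat_lit 0)) (.slot (nat_lit 1)) (.slot (nat_lit 3))) (.slot (nat_lit 1)) (.slot (nat_lit 1))) (.col (nat_lit 0)) (.slot (nat_lit 3))
def l17 : Root := .mk (.col (nat_lit 3)) (.node (.col (nat_lit 2)) (.col (nat_lit 0)) (.node (.col (nat_lit 3)) (.node (.slot (nat_lit 0)) (.col (nat_lit 0)) (.slot (nat_lit 1))) (.col (nat_lit 1)))) (.col (nat_lit 2)) (.col (nat_lit 0))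
def w38 : Root := .mk (.col (nat_lit 3)) (.node (.col (nat_lit 2)) (.col (nat_lit 0)) (.node (.col (nat_lit 3)) (.node (.slot (nat_lit 0)) (.col (nat_lit 0)) (.slot (nat_lit 1))) (.slot (nat_lit 1)))) (.col (nat_lit 2)) (.col (nat_lit 0))
def w39 : Root := .mk (.slot (nat_lit 0)) (.col (nat_lit 2)) (.col (nat_lit 0)) (.node (.col (nat_lit 3)) (.node (.col (nat_lit 1)) (.col (nat_lit 0)) (.slot (nat_lit 1))) (.slot (nat_lit 1)))
def l18 : Root := .mk (.col (nat_lit 3)) (.node (.col (nat_lit 2)) (.col (nat_lit 0)) (.node (.col (nat_lit 3)) (.node (.node (.col (nat_lit 3)) (.slot (nat_lit 0)) (.slot (nat_lit 0))) (.col (nat_lit 0)) (.col (nat_lit 3))) (.col (nat_lit 1)))) (.col (nat_lit 2)) (.col (nat_lit 0))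
def w40 : Root := .mk (.col (nat_lit 3)) (.node (.col (nat_lit 2)) (.col (nat_lit 0)) (.node (.col (nat_lit 3)) (.node (.node (.col (nat_lit 3)) (.slot (nat_lit 0)) (.slot (nat_lit 0))) (.col (nat_lit 0)) (.col (nat_lit 3))) (.slot (nat_lit 1)))) (.col (nat_lit 2)) (.col (nat_lit 0))
def l19 : Root := .mk (.col (nat_lit 3)) (.node (.col (nat_lit 2)) (.col (nat_lit 0)) (.node (.col (nat_lit 3)) (.node (.node (.col (nat_lit 3)) (.slot (nat_lit 0)) (.slot (nat_lit 0))) (.col (nat_lit 0)) (.slot (nat_lit 0))) (.col (nat_lit 1)))) (.col (nat_lit 2)) (.col (nat_lit 0))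
def w41 : Root := .mk (.col (nat_lit 3)) (.node (.col (nat_lit 2)) (.col (nat_lit 0)) (.node (.col (nat_lit 3)) (.node (.node (.col (nat_lit 3)) (.slot (nat_lit 0)) (.slot (nat_lit 0))) (.col (nat_lit 0)) (.slot (nat_lit 0))) (.slot (nat_lit 1)))) (.col (nat_lit 2)) (.col (nat_lit 0))
def w42 : Root := .mk (.col (nat_lit 1)) (.col (nat_lit 3)) (.node (.node (.col (nat_lit 3)) (.slot (nat_lit 1)) (.slot (nat_lit 0))) (.col (nat_lit 0)) (.slot (nat_lit 1))) (.slot (nat_lit 1))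
def w43 : Root := .mk (.col (nat_lit 3)) (.node (.col (nat_lit 2)) (.col (nat_lit 0)) (.node (.col (nat_lit 3)) (.node (.node (.col (nat_lit 3)) (.slot (nat_lit 1)) (.slot (nat_lit 1))) (.col (nat_lit 0)) (.slot (nat_lit 1))) (.col (nat_lit 0)))) (.col (nat_lit 2)) (.col (nat_lit 0))
def w44 : Root := .mk (.col (nat_lit 3)) (.node (.col (nat_lit 2)) (.col (nat_lit 0)) (.node (.col (nat_lit 3)) (.node (.slot (nat_lit 0)) (.col (nat_lit 0)) (.slot (nat_lit 0))) (.node (.col (nat_lit 0)) (.slot (nat_lit 1)) (.slot (nat_lit 0))))) (.col (nat_lit 2)) (.col (nat_lit 0))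
def w45 : Root := .mk (.col (nat_lit 3)) (.node (.col (nat_lit 2)) (.col (nat_lit 0)) (.node (.col (nat_lit 3)) (.node (.node (.col (nat_lit 3)) (.slot (nat_lit 0)) (.slot (nat_lit 0))) (.col (nat_lit 0)) (.slot (nat_lit 0))) (.node (.col (nat_lit 1)) (.slot (nat_lit 0)) (.slot (nat_lit 0))))) (.col (nat_lit 2)) (.col (nat_lit 0))
def w46 : Root := .mk (.col (nat_lit 3)) (.node (.col (nat_lit 2)) (.col (nat_lit 0)) (.node (.col (nat_lit 3)) (.node (.slot (nat_lit 0)) (.col (nat_lit 0)) (.slot (nat_lit 0))) (.node (.col (nat_lit 2)) (.slot (nat_lit 1)) (.slot (nat_lit 0))))) (.col (nat_lit 2)) (.col (nat_lit 0))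
def w47 : Root := .mk (.col (nat_lit 3)) (.node (.col (nat_lit 2)) (.col (nat_lit 0)) (.node (.col (nat_lit 3)) (.node (.slot (nat_lit 0)) (.col (nat_lit 0)) (.slot (nat_lit 1))) (.node (.col (nat_lit 3)) (.slot (nat_lit 0)) (.slot (nat_lit 0))))) (.col (nat_lit 2)) (.col (nat_lit 0))
def l20 : Root := .mk (.col (nat_lit 3)) (.node (.col (nat_lit 2)) (.col (nat_lit 0)) (.node (.col (nat_lit 3)) (.node (.node (.col (nat_lit 3)) (.slot (nat_lit 1)) (.slot (nat_lit 1))) (.col (nat_lit 0)) (.slot (nat_lit 2))) (.slot (nat_lit 1)))) (.col (nat_lit 2)) (.col (nat_lit 0))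
def w48 : Root := .mk (.col (nat_lit 3)) (.node (.col (nat_lit 2)) (.col (nat_lit 0)) (.node (.col (nat_lit 3)) (.node (.node (.col (nat_lit 3)) (.slot (nat_lit 1)) (.slot (nat_lit 1))) (.slot (nat_lit 1)) (.slot (nat_lit 2))) (.slot (nat_lit 1)))) (.col (nat_lit 2)) (.col (nat_lit 0))
def w49 : Root := .mk (.col (nat_lit 3)) (.node (.col (nat_lit 2)) (.col (nat_lit 0)) (.node (.col (nat_lit 3)) (.node (.node (.col (nat_lit 3)) (.slot (nat_lit 0)) (.slot (nat_lit 0))) (.slot (nat_lit 2)) (.slot (nat_lit 2))) (.col (nat_lit 0)))) (.col (nat_lit 2)) (.col (nat_lit 0))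
def w50 : Root := .mk (.col (nat_lit 4)) (.col (nat_lit 3)) (.node (.node (.col (nat_lit 3)) (.slot (nat_lit 0)) (.slot (nat_lit 0))) (.slot (nat_lit 1)) (.slot (nat_lit 1))) (.node (.col (nat_lit 1)) (.slot (nat_lit 1)) (.slot (nat_lit 1)))
def l21 : Root := .mk (.col (nat_lit 1)) (.col (nat_lit 2)) (.col (nat_lit 0)) (.node (.col (nat_lit 3)) (.node (.node (.col (nat_lit 3)) (.slot (nat_lit 0)) (.slot (nat_lit 0))) (.slot (nat_lit 1)) (.slot (nat_lit 1))) (.node (.col (nat_lit 1)) (.slot (nat_lit 1)) (.slot (nat_lit 1))))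
def w51 : Root := .mk (.col (nat_lit 3)) (.node (.col (nat_lit 2)) (.col (nat_lit 0)) (.node (.col (nat_lit 3)) (.node (.node (.col (nat_lit 3)) (.slot (nat_lit 0)) (.slot (nat_lit 0))) (.slot (nat_lit 1)) (.slot (nat_lit 1))) (.node (.col (nat_lit 1)) (.slot (nat_lit 1)) (.slot (nat_lit 1))))) (.col (nat_lit 2)) (.col (nat_lit 0))
def w52 : Root := .mk (.col (nat_lit 3)) (.node (.col (nat_lit 2)) (.col (nat_lit 0)) (.node (.col (nat_lit 3)) (.node (.col (nat_lit 1)) (.col (nat_lit 0)) (.slot (nat_lit 1))) (.node (.col (nat_lit 3)) (.slot (nat_lit 0)) (.slot (nat_lit 0))))) (.col (nat_lit 2)) (.col (nat_lit 0))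
def w53 : Root := .mk (.node (.node .junk (.col (nat_lit 2)) (.col (nat_lit 0))) (.col (nat_lit 3)) (.node (.col (nat_lit 3)) (.slot (nat_lit 0)) (.slot (nat_lit 0)))) (.node (.col (nat_lit 3)) (.slot (nat_lit 1)) .junk) (.col (nat_lit 0)) (.col (nat_lit 1))
def w54 : Root := .mk (.col (nat_lit 3)) (.node (.col (nat_lit 2)) (.col (nat_lit 0)) (.node (.col (nat_lit 3)) (.node (.node (.col (nat_lit 3)) (.slot (nat_lit 0)) (.slot (nat_lit 0))) (.col (nat_lit 0)) (.col (nat_lit 3))) (.node (.col (nat_lit 3)) (.slot (nat_lit 0)) (.slot (nat_lit 0))))) (.col (nat_lit 2)) (.col (nat_lit 0))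
def w55 : Root := .mk (.col (nat_lit 3)) (.node (.col (nat_lit 2)) (.col (nat_lit 0)) (.node (.col (nat_lit 3)) (.node (.node (.col (nat_lit 3)) (.slot (nat_lit 0)) (.slot (nat_lit 0))) (.col (nat_lit 0)) (.slot (nat_lit 0))) (.node (.col (nat_lit 3)) (.slot (nat_lit 0)) (.slot (nat_lit 0))))) (.col (nat_lit 2)) (.col (nat_lit 0))
def w56 : Root := .mk (.col (nat_lit 1)) (.col (nat_lit 3)) (.node (.node (.col (nat_lit 3)) (.slot (nat_lit 1)) (.slot (nat_lit 2))) (.col (nat_lit 0)) (.slot (nat_lit 1))) (.node (.col (nat_lit 3)) (.slot (nat_lit 1)) (.slot (nat_lit 1)))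
def w57 : Root := .mk (.col (nat_lit 3)) (.node (.col (nat_lit 2)) (.col (nat_lit 0)) (.node (.col (nat_lit 3)) (.node (.node (.col (nat_lit 3)) (.slot (nat_lit 0)) (.slot (nat_lit 0))) (.col (nat_lit 0)) (.slot (nat_lit 0))) (.node (.col (nat_lit 3)) (.col (nat_lit 0)) (.slot (nat_lit 0))))) (.col (nat_lit 2)) (.col (nat_lit 0))
def w58 : Root := .mk (.col (nat_lit 3)) (.node (.col (nat_lit 2)) (.col (nat_lit 0)) (.node (.col (nat_lit 3)) (.node (.node (.col (nat_lit 3)) (.slot (nat_lit 0)) (.slot (nat_lit 0))) (.col (nat_lit 0)) (.slot (nat_lit 0))) (.node (.col (nat_lit 3)) (.col (nat_lit 1)) (.slot (nat_lit 0))))) (.col (nat_lit 2)) (.col (nat_lit 0))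
def w59 : Root := .mk (.col (nat_lit 3)) (.node (.col (nat_lit 2)) (.col (nat_lit 0)) (.node (.col (nat_lit 3)) (.node (.node (.col (nat_lit 3)) (.slot (nat_lit 0)) (.slot (nat_lit 0))) (.col (nat_lit 0)) (.slot (nat_lit 0))) (.node (.col (nat_lit 3)) (.col (nat_lit 2)) (.slot (nat_lit 0))))) (.col (nat_lit 2)) (.col (nat_lit 0))
def l22 : Root := .mk (.col (nat_lit 3)) (.node (.col (nat_lit 2)) (.col (nat_lit 0)) (.node (.col (nat_lit 3)) (.node (.node (.col (nat_lit 3)) (.slot (nat_lit 2)) (.slot (nat_lit 1))) (.col (nat_lit 0)) (.slot (nat_lit 2))) (.node (.col (nat_lit 3)) (.slot (nat_lit 1)) (.slot (nat_lit 1))))) (.col (nat_lit 2)) (.col (nat_lit 0))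
def w60 : Root := .mk (.col (nat_lit 3)) (.node (.col (nat_lit 2)) (.col (nat_lit 0)) (.node (.col (nat_lit 3)) (.node (.node (.col (nat_lit 3)) (.slot (nat_lit 2)) (.slot (nat_lit 1))) (.slot (nat_lit 1)) (.slot (nat_lit 2))) (.node (.col (nat_lit 3)) (.slot (nat_lit 1)) (.slot (nat_lit 1))))) (.col (nat_lit 2)) (.col (nat_lit 0))
def l23 : Root := .mk (.col (nat_lit 1)) (.col (nat_lit 2)) (.col (nat_lit 0)) (.node (.col (nat_lit 3)) (.node (.col (nat_lit 1)) (.slot (nat_lit 1)) (.slot (nat_lit 1))) (.slot (nat_lit 2)))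
def w61 : Root := .mk (.col (nat_lit 3)) (.node (.col (nat_lit 2)) (.col (nat_lit 0)) (.node (.col (nat_lit 3)) (.node (.col (nat_lit 1)) (.slot (nat_lit 1)) (.slot (nat_lit 1))) (.slot (nat_lit 2)))) (.col (nat_lit 2)) (.col (nat_lit 0))
def l24 : Root := .mk (.col (nat_lit 1)) (.col (nat_lit 2)) (.col (nat_lit 0)) (.node (.col (nat_lit 3)) (.node (.node (.col (nat_lit 3)) (.slot (nat_lit 1)) (.slot (nat_lit 0))) (.col (nat_lit 1)) (.slot (nat_lit 1))) (.slot (nat_lit 1)))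
def w62 : Root := .mk (.col (nat_lit 3)) (.node (.col (nat_lit 2)) (.col (nat_lit 0)) (.node (.col (nat_lit 3)) (.node (.node (.col (nat_lit 3)) (.slot (nat_lit 1)) (.slot (nat_lit 0))) (.col (nat_lit 1)) (.slot (nat_lit 1))) (.slot (nat_lit 1)))) (.col (nat_lit 2)) (.col (nat_lit 0))
def l25 : Root := .mk (.col (nat_lit 3)) (.node (.col (nat_lit 2)) (.col (nat_lit 0)) (.node (.col (nat_lit 3)) (.node (.col (nat_lit 2)) (.col (nat_lit 3)) (.slot (nat_lit 1))) (.col (nat_lit 1)))) (.col (nat_lit 2)) (.col (nat_lit 0))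
def w63 : Root := .mk (.col (nat_lit 3)) (.node (.col (nat_lit 2)) (.col (nat_lit 0)) (.node (.col (nat_lit 3)) (.node (.col (nat_lit 2)) (.col (nat_lit 3)) (.slot (nat_lit 1))) (.slot (nat_lit 1)))) (.col (nat_lit 2)) (.col (nat_lit 0))
def w64 : Root := .mk (.col (nat_lit 3)) (.node (.col (nat_lit 2)) (.col (nat_lit 0)) (.node (.col (nat_lit 3)) (.node (.node (.col (nat_lit 3)) (.node (.col (nat_lit 0)) (.slot (nat_lit 1)) (.slot (nat_lit 1))) (.slot (nat_lit 2))) (.col (nat_lit 3)) (.slot (nat_lit 1))) (.slot (nat_lit 1)))) (.col (nat_lit 2)) (.col (nat_lit 0))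
def w65 : Root := .mk (.col (nat_lit 3)) (.node (.col (nat_lit 2)) (.col (nat_lit 0)) (.node (.col (nat_lit 3)) (.node (.node (.col (nat_lit 3)) (.col (nat_lit 1)) (.node (.col (nat_lit 0)) (.slot (nat_lit 1)) .junk)) (.col (nat_lit 3)) (.slot (nat_lit 1))) (.slot (nat_lit 1)))) (.col (nat_lit 2)) (.col (nat_lit 0))
def w66 : Root := .mk (.node (.node (.node .junk (.col (nat_lit 2)) (.col (nat_lit 0))) (.col (nat_lit 3)) (.slot (nat_lit 1))) (.col (nat_lit 3)) (.slot (nat_lit 1))) .junk (.col (nat_lit 1)) (.col (nat_lit 2))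
def l26 : Root := .mk (.node (.node (.col (nat_lit 4)) .junk (.col (nat_lit 1))) (.col (nat_lit 3)) (.col (nat_lit 0))) (.col (nat_lit 3)) (.col (nat_lit 1)) (.col (nat_lit 4))
def w67 : Root := .mk (.col (nat_lit 4)) (.col (nat_lit 3)) (.node (.node .junk (.col (nat_lit 1)) (.col (nat_lit 4))) (.col (nat_lit 3)) (.slot (nat_lit 1))) (.col (nat_lit 1))
def l27 : Root := .mk (.col (nat_lit 3)) (.node (.col (nat_lit 2)) (.col (nat_lit 0)) (.node (.col (nat_lit 3)) (.node (.node .junk (.col (nat_lit 1)) (.col (nat_lit 4))) (.col (nat_lit 3)) (.slot (nat_lit 1))) (.col (nat_lit 1)))) (.col (nat_lit 2)) (.col (nat_lit 0))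
def w68 : Root := .mk (.col (nat_lit 3)) (.node (.col (nat_lit 2)) (.col (nat_lit 0)) (.node (.col (nat_lit 3)) (.node (.node .junk (.col (nat_lit 1)) (.col (nat_lit 4))) (.col (nat_lit 3)) (.slot (nat_lit 1))) (.slot (nat_lit 1)))) (.col (nat_lit 2)) (.col (nat_lit 0))
def w69 : Root := .mk (.node (.col (nat_lit 2)) (.col (nat_lit 3)) (.slot (nat_lit 1))) (.col (nat_lit 3)) (.col (nat_lit 1)) (.node (.col (nat_lit 0)) (.slot (nat_lit 1)) (.slot (nat_lit 1)))
def w70 : Root := .mk (.node (.node (.slot (nat_lit 0)) (.col (nat_lit 2)) (.col (nat_lit 0))) (.col (nat_lit 3)) (.slot (nat_lit 1))) (.node (.col (nat_lit 3)) (.col (nat_lit 1)) (.node (.col (nat_lit 0)) (.slot (nat_lit 1)) (.slot (nat_lit 1)))) (.col (nat_lit 3)) (.col (nat_lit 0))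
def l28 : Root := .mk (.col (nat_lit 1)) (.col (nat_lit 2)) (.col (nat_lit 0)) (.node (.col (nat_lit 3)) (.node (.col (nat_lit 2)) (.col (nat_lit 3)) (.col (nat_lit 1))) (.slot (nat_lit 1)))
def w71 : Root := .mk (.node (.node (.node (.col (nat_lit 3)) (.col (nat_lit 2)) (.col (nat_lit 0))) (.col (nat_lit 2)) (.col (nat_lit 0))) (.col (nat_lit 3)) (.slot (nat_lit 1))) (.col (nat_lit 2)) (.col (nat_lit 3)) (.col (nat_lit 1))
def w72 : Root := .mk (.col (nat_lit 3)) (.node (.col (nat_lit 2)) (.col (nat_lit 0)) (.node (.col (nat_lit 3)) (.node (.node (.col (nat_lit 3)) (.col (nat_lit 1)) (.node (.col (nat_lit 0)) (.slot (nat_lit 1)) .junk)) (.col (nat_lit 3)) (.col (nat_lit 1))) (.slot (nat_lit 1)))) (.col (nat_lit 2)) (.col (nat_lit 0))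
def w73 : Root := .mk (.col (nat_lit 3)) (.node (.col (nat_lit 2)) (.col (nat_lit 0)) (.node (.col (nat_lit 3)) (.node (.node (.col (nat_lit 3)) (.col (nat_lit 1)) (.node (.col (nat_lit 0)) (.slot (nat_lit 1)) .junk)) (.col (nat_lit 3)) (.col (nat_lit 2))) (.slot (nat_lit 1)))) (.col (nat_lit 2)) (.col (nat_lit 0))
def w74 : Root := .mk (.col (nat_lit 3)) (.node (.col (nat_lit 2)) (.col (nat_lit 0)) (.node (.col (nat_lit 3)) (.node (.node (.col (nat_lit 3)) (.col (nat_lit 1)) (.node (.col (nat_lit 0)) (.slot (nat_lit 1)) .junk)) (.col (nat_lit 3)) (.col (nat_lit 4))) (.slot (nat_lit 1)))) (.col (nat_lit 2)) (.col (nat_lit 0))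
def w75 : Root := .mk (.col (nat_lit 1)) (.node (.col (nat_lit 3)) (.col (nat_lit 1)) (.node (.col (nat_lit 0)) (.slot (nat_lit 1)) .junk)) (.col (nat_lit 3)) (.node (.col (nat_lit 0)) (.slot (nat_lit 1)) .junk)
def w76 : Root := .mk (.node (.node (.node .junk (.col (nat_lit 2)) (.col (nat_lit 0))) (.col (nat_lit 3)) (.slot (nat_lit 1))) (.col (nat_lit 3)) (.node (.col (nat_lit 0)) (.slot (nat_lit 1)) .junk)) (.col (nat_lit 3)) (.col (nat_lit 1)) (.node (.col (nat_lit 0)) (.slot (nat_lit 1)) .junk)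
def w77 : Root := .mk (.node (.node (.node .junk (.col (nat_lit 2)) (.col (nat_lit 0))) (.col (nat_lit 3)) (.slot (nat_lit 1))) (.col (nat_lit 3)) (.node (.col (nat_lit 1)) (.slot (nat_lit 1)) .junk)) (.col (nat_lit 3)) (.col (nat_lit 1)) (.node (.col (nat_lit 0)) (.slot (nat_lit 1)) .junk)
def w78 : Root := .mk (.col (nat_lit 1)) (.node (.col (nat_lit 3)) (.col (nat_lit 1)) (.node (.col (nat_lit 0)) (.slot (nat_lit 1)) .junk)) (.col (nat_lit 3)) (.node (.col (nat_lit 2)) (.slot (nat_lit 1)) .junk)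
def w79 : Root := .mk (.node (.node (.node .junk (.col (nat_lit 2)) (.col (nat_lit 0))) (.col (nat_lit 3)) (.slot (nat_lit 1))) (.col (nat_lit 3)) (.node (.col (nat_lit 2)) (.slot (nat_lit 1)) .junk)) (.col (nat_lit 3)) (.col (nat_lit 1)) (.node (.col (nat_lit 0)) (.slot (nat_lit 1)) .junk)
def l29 : Root := .mk (.node (.col (nat_lit 4)) (.col (nat_lit 3)) (.node (.col (nat_lit 3)) (.slot (nat_lit 0)) (.slot (nat_lit 0)))) (.col (nat_lit 3)) (.col (nat_lit 1)) (.node (.col (nat_lit 0)) (.col (nat_lit 4)) (.slot (nat_lit 1)))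
def w80 : Root := .mk (.col (nat_lit 4)) (.node (.col (nat_lit 3)) (.col (nat_lit 1)) (.node (.col (nat_lit 0)) (.slot (nat_lit 1)) (.slot (nat_lit 1)))) (.col (nat_lit 3)) (.node (.col (nat_lit 3)) (.slot (nat_lit 0)) (.slot (nat_lit 0)))
def w81 : Root := .mk (.node (.node (.node .junk (.col (nat_lit 2)) (.col (nat_lit 0))) (.col (nat_lit 3)) (.slot (nat_lit 1))) (.col (nat_lit 3)) (.node (.col (nat_lit 3)) (.slot (nat_lit 0)) (.slot (nat_lit 0)))) (.col (nat_lit 3)) (.col (nat_lit 1)) (.node (.col (nat_lit 0)) (.slot (nat_lit 1)) (.slot (nat_lit 1)))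
def w82 : Root := .mk (.node (.node (.node .junk (.col (nat_lit 2)) (.col (nat_lit 0))) (.col (nat_lit 3)) (.slot (nat_lit 1))) (.col (nat_lit 3)) (.node (.col (nat_lit 4)) (.slot (nat_lit 1)) .junk)) (.col (nat_lit 3)) (.col (nat_lit 1)) (.node (.col (nat_lit 0)) (.slot (nat_lit 1)) .junk)
def w83 : Root := .mk (.node (.node (.col (nat_lit 1)) (.col (nat_lit 3)) (.slot (nat_lit 1))) (.col (nat_lit 3)) (.slot (nat_lit 1))) (.col (nat_lit 3)) (.col (nat_lit 1)) (.node (.col (nat_lit 0)) (.slot (nat_lit 1)) (.slot (nat_lit 1)))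
def w84 : Root := .mk (.col (nat_lit 4)) (.col (nat_lit 3)) (.node (.node (.col (nat_lit 3)) (.col (nat_lit 1)) (.node (.col (nat_lit 0)) (.slot (nat_lit 1)) .junk)) (.col (nat_lit 3)) (.slot (nat_lit 1))) (.node (.col (nat_lit 2)) (.slot (nat_lit 1)) (.slot (nat_lit 1)))
def w85 : Root := .mk (.node (.node (.col (nat_lit 4)) .junk (.col (nat_lit 0))) (.col (nat_lit 3)) (.slot (nat_lit 1))) (.col (nat_lit 3)) (.col (nat_lit 1)) (.node (.col (nat_lit 0)) (.slot (nat_lit 1)) .junk)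
def w86 : Root := .mk (.node (.node (.col (nat_lit 4)) .junk (.col (nat_lit 1))) (.col (nat_lit 3)) (.slot (nat_lit 1))) (.col (nat_lit 3)) (.col (nat_lit 1)) (.node (.col (nat_lit 0)) (.slot (nat_lit 1)) .junk)
def w87 : Root := .mk (.node (.col (nat_lit 4)) .junk (.node (.col (nat_lit 2)) (.slot (nat_lit 0)) (.slot (nat_lit 0)))) (.node (.col (nat_lit 3)) (.col (nat_lit 1)) (.node (.col (nat_lit 0)) (.slot (nat_lit 1)) .junk)) (.col (nat_lit 3)) (.col (nat_lit 0))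
def w88 : Root := .mk (.node (.col (nat_lit 4)) .junk (.node (.col (nat_lit 2)) (.slot (nat_lit 0)) (.slot (nat_lit 0)))) (.node (.col (nat_lit 3)) (.col (nat_lit 1)) (.node (.col (nat_lit 0)) (.slot (nat_lit 1)) .junk)) (.col (nat_lit 3)) (.col (nat_lit 1))
def w89 : Root := .mk (.col (nat_lit 4)) (.col (nat_lit 3)) (.node (.node (.col (nat_lit 3)) (.col (nat_lit 1)) (.node (.col (nat_lit 0)) (.slot (nat_lit 1)) .junk)) (.col (nat_lit 3)) (.node (.col (nat_lit 0)) (.slot (nat_lit 1)) .junk)) (.node (.col (nat_lit 2)) (.slot (nat_lit 1)) .junk)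
def w90 : Root := .mk (.col (nat_lit 4)) (.col (nat_lit 3)) (.node (.node (.col (nat_lit 3)) (.col (nat_lit 1)) (.node (.col (nat_lit 0)) (.slot (nat_lit 1)) .junk)) (.col (nat_lit 3)) (.node (.col (nat_lit 1)) (.slot (nat_lit 1)) .junk)) (.node (.col (nat_lit 2)) (.slot (nat_lit 1)) .junk)
def w91 : Root := .mk (.node (.col (nat_lit 4)) (.col (nat_lit 3)) (.node (.col (nat_lit 2)) (.slot (nat_lit 1)) (.slot (nat_lit 1)))) (.col (nat_lit 2)) (.col (nat_lit 3)) (.node (.col (nat_lit 3)) (.slot (nat_lit 0)) (.slot (nat_lit 0)))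
def w92 : Root := .mk (.col (nat_lit 4)) (.col (nat_lit 3)) (.node (.node (.col (nat_lit 3)) (.col (nat_lit 1)) (.node (.col (nat_lit 0)) (.slot (nat_lit 1)) .junk)) (.col (nat_lit 3)) (.node (.col (nat_lit 3)) (.slot (nat_lit 0)) (.slot (nat_lit 0)))) (.node (.col (nat_lit 2)) (.slot (nat_lit 1)) (.slot (nat_lit 1)))
def l30 : Root := .mk (.col (nat_lit 4)) (.col (nat_lit 3)) (.node (.node (.col (nat_lit 3)) (.col (nat_lit 1)) (.node (.col (nat_lit 0)) (.slot (nat_lit 1)) (.slot (nat_lit 1)))) (.col (nat_lit 3)) (.slot (nat_lit 2))) (.node (.col (nat_lit 2)) (.slot (nat_lit 1)) (.slot (nat_lit 1)))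
def w93 : Root := .mk (.node (.node (.col (nat_lit 4)) (.col (nat_lit 3)) (.slot (nat_lit 2))) (.col (nat_lit 3)) (.slot (nat_lit 2))) (.col (nat_lit 3)) (.col (nat_lit 1)) (.node (.col (nat_lit 0)) (.slot (nat_lit 1)) (.slot (nat_lit 1)))
def w94 : Root := .mk (.col (nat_lit 3)) (.node (.col (nat_lit 2)) .junk (.node (.col (nat_lit 3)) (.node (.node (.col (nat_lit 3)) (.col (nat_lit 1)) (.node (.col (nat_lit 0)) (.slot (nat_lit 1)) (.slot (nat_lit 1)))) (.col (nat_lit 3)) (.slot (nat_lit 1))) (.col (nat_lit 0)))) (.col (nat_lit 2)) (.col (nat_lit 0))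
def w95 : Root := .mk (.col (nat_lit 3)) (.node .junk (.col (nat_lit 0)) (.node (.col (nat_lit 3)) (.node (.node (.col (nat_lit 3)) (.col (nat_lit 1)) (.node (.col (nat_lit 0)) (.slot (nat_lit 1)) (.slot (nat_lit 1)))) (.col (nat_lit 3)) (.slot (nat_lit 1))) (.col (nat_lit 2)))) (.col (nat_lit 2)) (.col (nat_lit 0))
def w96 : Root := .mk (.col (nat_lit 3)) (.node (.col (nat_lit 2)) (.col (nat_lit 0)) (.node (.col (nat_lit 3)) (.col (nat_lit 0)) (.node (.col (nat_lit 1)) (.slot (nat_lit 1)) (.slot (nat_lit 1))))) (.col (nat_lit 2)) (.col (nat_lit 0))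
def w97 : Root := .mk (.col (nat_lit 3)) (.node (.col (nat_lit 2)) (.col (nat_lit 0)) (.node (.col (nat_lit 3)) (.node (.node (.col (nat_lit 3)) (.col (nat_lit 1)) (.node (.col (nat_lit 0)) (.slot (nat_lit 1)) (.slot (nat_lit 1)))) (.col (nat_lit 3)) (.slot (nat_lit 1))) (.node (.col (nat_lit 1)) (.slot (nat_lit 1)) (.slot (nat_lit 1))))) (.col (nat_lit 2)) (.col (nat_lit 0))
def w98 : Root := .mk (.node (.node (.node .junk (.col (nat_lit 2)) (.col (nat_lit 0))) (.col (nat_lit 3)) (.node (.col (nat_lit 3)) (.slot (nat_lit 0)) (.slot (nat_lit 0)))) (.col (nat_lit 3)) (.slot (nat_lit 1))) (.col (nat_lit 3)) (.col (nat_lit 1)) (.node (.col (nat_lit 0)) (.slot (nat_lit 1)) (.slot (nat_lit 1)))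
def w99 : Root := .mk (.col (nat_lit 3)) (.node (.col (nat_lit 2)) (.col (nat_lit 0)) (.node (.col (nat_lit 3)) (.node (.node (.col (nat_lit 3)) (.col (nat_lit 1)) (.node (.col (nat_lit 0)) (.slot (nat_lit 1)) (.slot (nat_lit 1)))) (.col (nat_lit 3)) (.slot (nat_lit 1))) (.node (.col (nat_lit 4)) (.slot (nat_lit 1)) (.slot (nat_lit 1))))) (.col (nat_lit 2)) (.col (nat_lit 0))
def l31 : Root := .mk (.col (nat_lit 3)) (.node (.col (nat_lit 2)) (.col (nat_lit 0)) (.node (.col (nat_lit 3)) (.node (.node (.col (nat_lit 3)) (.col (nat_lit 1)) (.node (.col (nat_lit 0)) (.slot (nat_lit 1)) (.slot (nat_lit 1)))) (.col (nat_lit 3)) (.slot (nat_lit 2))) (.slot (nat_lit 2)))) (.col (nat_lit 2)) (.col (nat_lit 0))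
def w100 : Root := .mk (.col (nat_lit 3)) (.node (.col (nat_lit 2)) (.col (nat_lit 0)) (.node (.col (nat_lit 3)) (.node (.node (.col (nat_lit 3)) (.col (nat_lit 1)) (.slot (nat_lit 2))) (.col (nat_lit 3)) (.slot (nat_lit 2))) (.slot (nat_lit 2)))) (.col (nat_lit 2)) (.col (nat_lit 0))
def w101 : Root := .mk (.node (.node (.node .junk (.col (nat_lit 2)) (.col (nat_lit 0))) (.col (nat_lit 3)) (.slot (nat_lit 1))) (.col (nat_lit 3)) (.slot (nat_lit 1))) (.col (nat_lit 3)) (.col (nat_lit 2)) (.node (.col (nat_lit 0)) (.slot (nat_lit 1)) (.slot (nat_lit 1)))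
def w102 : Root := .mk (.col (nat_lit 3)) (.node (.col (nat_lit 2)) (.col (nat_lit 0)) (.node (.col (nat_lit 3)) (.node (.node (.col (nat_lit 3)) (.col (nat_lit 2)) (.node (.col (nat_lit 0)) (.slot (nat_lit 1)) .junk)) (.col (nat_lit 3)) (.col (nat_lit 2))) (.slot (nat_lit 1)))) (.col (nat_lit 2)) (.col (nat_lit 0))
def w103 : Root := .mk (.col (nat_lit 1)) (.node (.col (nat_lit 3)) (.col (nat_lit 2)) (.node (.col (nat_lit 0)) (.slot (nat_lit 1)) .junk)) (.col (nat_lit 3)) (.node (.col (nat_lit 0)) (.slot (nat_lit 1)) .junk)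
def w104 : Root := .mk (.node (.node (.node .junk (.col (nat_lit 2)) (.col (nat_lit 0))) (.col (nat_lit 3)) (.slot (nat_lit 1))) (.col (nat_lit 3)) (.node (.col (nat_lit 0)) (.slot (nat_lit 1)) .junk)) (.col (nat_lit 3)) (.col (nat_lit 2)) (.node (.col (nat_lit 0)) (.slot (nat_lit 1)) .junk)
def l32 : Root := .mk (.node (.col (nat_lit 1)) (.col (nat_lit 3)) (.node (.col (nat_lit 1)) (.slot (nat_lit 0)) (.slot (nat_lit 0)))) (.col (nat_lit 3)) (.col (nat_lit 2)) (.node (.col (nat_lit 0)) (.col (nat_lit 1)) (.slot (nat_lit 1)))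
def w105 : Root := .mk (.col (nat_lit 1)) (.node (.col (nat_lit 3)) (.col (nat_lit 2)) (.node (.col (nat_lit 0)) (.slot (nat_lit 1)) (.slot (nat_lit 1)))) (.col (nat_lit 3)) (.node (.col (nat_lit 1)) (.slot (nat_lit 0)) (.slot (nat_lit 0)))
def w106 : Root := .mk (.node (.node (.node .junk (.col (nat_lit 2)) (.col (nat_lit 0))) (.col (nat_lit 3)) (.slot (nat_lit 1))) (.col (nat_lit 3)) (.node (.col (nat_lit 1)) (.slot (nat_lit 0)) (.slot (nat_lit 0)))) (.col (nat_lit 3)) (.col (nat_lit 2)) (.node (.col (nat_lit 0)) (.slot (nat_lit 1)) (.slot (nat_lit 1)))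
def w107 : Root := .mk (.node (.node (.node .junk (.col (nat_lit 2)) (.col (nat_lit 0))) (.col (nat_lit 3)) (.slot (nat_lit 1))) (.col (nat_lit 3)) (.node (.col (nat_lit 2)) (.slot (nat_lit 1)) .junk)) (.col (nat_lit 3)) (.col (nat_lit 2)) (.node (.col (nat_lit 0)) (.slot (nat_lit 1)) .junk)
def w108 : Root := .mk (.node (.node (.node .junk (.col (nat_lit 2)) (.col (nat_lit 0))) (.col (nat_lit 3)) (.slot (nat_lit 1))) (.col (nat_lit 3)) (.node (.col (nat_lit 3)) (.slot (nat_lit 0)) (.slot (nat_lit 0)))) (.col (nat_lit 3)) (.col (nat_lit 2)) (.node (.col (nat_lit 0)) (.slot (nat_lit 1)) (.slot (nat_lit 1)))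
def l33 : Root := .mk (.col (nat_lit 0)) (.node (.col (nat_lit 3)) (.col (nat_lit 2)) (.node (.col (nat_lit 0)) (.col (nat_lit 2)) (.slot (nat_lit 1)))) (.col (nat_lit 3)) (.node (.col (nat_lit 2)) (.slot (nat_lit 1)) (.slot (nat_lit 1)))
def w109 : Root := .mk (.node (.col (nat_lit 0)) (.col (nat_lit 3)) (.slot (nat_lit 2))) (.col (nat_lit 3)) (.col (nat_lit 2)) (.node (.col (nat_lit 0)) (.col (nat_lit 2)) (.slot (nat_lit 1)))
def w110 : Root := .mk (.col (nat_lit 3)) (.node (.col (nat_lit 2)) (.col (nat_lit 0)) (.node (.col (nat_lit 3)) (.node (.node (.col (nat_lit 3)) (.col (nat_lit 2)) (.node (.col (nat_lit 0)) (.col (nat_lit 2)) (.slot (nat_lit 2)))) (.col (nat_lit 3)) (.slot (nat_lit 1))) (.slot (nat_lit 3)))) (.col (nat_lit 2)) (.col (nat_lit 0))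
def w111 : Root := .mk (.node (.node (.slot (nat_lit 0)) (.col (nat_lit 3)) (.slot (nat_lit 0))) (.col (nat_lit 3)) (.slot (nat_lit 3))) (.col (nat_lit 3)) (.col (nat_lit 2)) (.node (.col (nat_lit 0)) (.col (nat_lit 3)) (.slot (nat_lit 3)))
def w112 : Root := .mk (.node (.col (nat_lit 1)) (.col (nat_lit 3)) (.slot (nat_lit 1))) (.col (nat_lit 3)) (.col (nat_lit 2)) (.node (.col (nat_lit 0)) (.node (.col (nat_lit 0)) (.slot (nat_lit 0)) (.slot (nat_lit 0))) (.slot (nat_lit 1)))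
def w113 : Root := .mk (.node (.node (.node .junk (.col (nat_lit 2)) (.col (nat_lit 0))) (.col (nat_lit 3)) (.slot (nat_lit 1))) (.col (nat_lit 3)) (.slot (nat_lit 1))) (.col (nat_lit 3)) (.col (nat_lit 2)) (.node (.col (nat_lit 0)) (.node (.col (nat_lit 0)) (.slot (nat_lit 0)) (.slot (nat_lit 0))) (.slot (nat_lit 1)))
def w114 : Root := .mk (.node (.slot (nat_lit 0)) (.col (nat_lit 3)) (.slot (nat_lit 0))) (.col (nat_lit 3)) (.col (nat_lit 2)) (.node (.col (nat_lit 0)) (.node (.col (nat_lit 1)) (.slot (nat_lit 1)) (.slot (nat_lit 1))) (.slot (nat_lit 2)))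
def w115 : Root := .mk (.node (.slot (nat_lit 0)) (.col (nat_lit 3)) (.slot (nat_lit 0))) (.col (nat_lit 3)) (.col (nat_lit 2)) (.node (.col (nat_lit 0)) (.node (.col (nat_lit 2)) (.slot (nat_lit 1)) (.slot (nat_lit 1))) (.slot (nat_lit 2)))
def w116 : Root := .mk (.node (.slot (nat_lit 0)) (.col (nat_lit 3)) (.slot (nat_lit 0))) (.col (nat_lit 3)) (.col (nat_lit 2)) (.node (.col (nat_lit 0)) (.node (.col (nat_lit 3)) (.slot (nat_lit 1)) (.slot (nat_lit 1))) (.slot (nat_lit 2)))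
def w117 : Root := .mk (.col (nat_lit 3)) (.node (.col (nat_lit 2)) .junk (.node (.col (nat_lit 3)) (.node (.node (.col (nat_lit 3)) (.col (nat_lit 2)) (.node (.col (nat_lit 0)) (.slot (nat_lit 1)) (.slot (nat_lit 1)))) (.col (nat_lit 3)) (.slot (nat_lit 1))) (.col (nat_lit 0)))) (.col (nat_lit 2)) (.col (nat_lit 0))
def w118 : Root := .mk (.col (nat_lit 3)) (.node .junk (.col (nat_lit 0)) (.node (.col (nat_lit 3)) (.node (.node (.col (nat_lit 3)) (.col (nat_lit 2)) (.node (.col (nat_lit 0)) (.slot (nat_lit 1)) (.slot (nat_lit 1)))) (.col (nat_lit 3)) (.slot (nat_lit 1))) (.col (nat_lit 2)))) (.col (nat_lit 2)) (.col (nat_lit 0))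
def w119 : Root := .mk (.slot (nat_lit 0)) (.col (nat_lit 2)) (.col (nat_lit 0)) (.node (.col (nat_lit 3)) (.node (.node (.col (nat_lit 3)) (.col (nat_lit 2)) (.node (.col (nat_lit 0)) (.slot (nat_lit 1)) (.slot (nat_lit 1)))) (.col (nat_lit 3)) (.slot (nat_lit 2))) (.node (.col (nat_lit 1)) (.slot (nat_lit 1)) (.slot (nat_lit 1))))
def w120 : Root := .mk (.node (.node (.node .junk (.col (nat_lit 2)) (.col (nat_lit 0))) (.col (nat_lit 3)) (.node (.col (nat_lit 3)) (.slot (nat_lit 0)) (.slot (nat_lit 0)))) (.col (nat_lit 3)) (.slot (nat_lit 1))) (.col (nat_lit 3)) (.col (nat_lit 2)) (.node (.col (nat_lit 0)) (.slot (nat_lit 1)) (.slot (nat_lit 1)))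
def l34 : Root := .mk (.col (nat_lit 3)) (.node (.col (nat_lit 2)) (.col (nat_lit 0)) (.node (.col (nat_lit 3)) (.node (.node (.col (nat_lit 3)) (.col (nat_lit 2)) (.node (.col (nat_lit 0)) (.slot (nat_lit 3)) (.slot (nat_lit 3)))) (.col (nat_lit 3)) (.slot (nat_lit 3))) (.slot (nat_lit 3)))) (.col (nat_lit 2)) (.col (nat_lit 0))
def w121 : Root := .mk (.col (nat_lit 3)) (.node (.col (nat_lit 2)) (.col (nat_lit 0)) (.node (.col (nat_lit 3)) (.node (.node (.col (nat_lit 3)) (.col (nat_lit 2)) (.slot (nat_lit 4))) (.col (nat_lit 3)) (.slot (nat_lit 3))) (.slot (nat_lit 3)))) (.col (nat_lit 2)) (.col (nat_lit 0))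
def w122 : Root := .mk (.node (.node (.col (nat_lit 1)) (.col (nat_lit 3)) (.node (.col (nat_lit 0)) (.slot (nat_lit 1)) (.slot (nat_lit 1)))) (.col (nat_lit 3)) (.col (nat_lit 0))) (.col (nat_lit 0)) (.col (nat_lit 1)) (.node (.col (nat_lit 0)) (.col (nat_lit 1)) (.slot (nat_lit 1)))
def w123 : Root := .mk (.node (.node (.col (nat_lit 1)) (.col (nat_lit 3)) (.node (.col (nat_lit 0)) (.slot (nat_lit 2)) (.slot (nat_lit 2)))) (.col (nat_lit 3)) (.col (nat_lit 0))) (.col (nat_lit 0)) (.col (nat_lit 1)) (.node (.col (nat_lit 0)) (.col (nat_lit 2)) (.slot (nat_lit 0)))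
def l35 : Root := .mk (.col (nat_lit 1)) (.node (.col (nat_lit 3)) (.node (.col (nat_lit 0)) (.col (nat_lit 1)) (.node (.col (nat_lit 0)) (.slot (nat_lit 1)) (.slot (nat_lit 1)))) (.col (nat_lit 0))) (.col (nat_lit 3)) (.node (.col (nat_lit 0)) (.slot (nat_lit 2)) (.slot (nat_lit 2)))
def w124 : Root := .mk (.node (.node (.col (nat_lit 1)) (.col (nat_lit 3)) (.slot (nat_lit 3))) (.col (nat_lit 3)) (.col (nat_lit 0))) (.col (nat_lit 0)) (.col (nat_lit 1)) (.node (.col (nat_lit 0)) (.slot (nat_lit 1)) (.slot (nat_lit 1)))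
def l36 : Root := .mk (.col (nat_lit 1)) (.node (.col (nat_lit 3)) (.node (.col (nat_lit 0)) (.col (nat_lit 1)) (.node (.col (nat_lit 1)) (.slot (nat_lit 1)) (.slot (nat_lit 1)))) (.col (nat_lit 0))) (.col (nat_lit 3)) (.node (.col (nat_lit 0)) (.slot (nat_lit 1)) (.slot (nat_lit 1)))
def w125 : Root := .mk (.node (.node (.col (nat_lit 1)) (.col (nat_lit 3)) (.slot (nat_lit 2))) (.col (nat_lit 3)) (.col (nat_lit 0))) (.col (nat_lit 0)) (.col (nat_lit 1)) (.node (.col (nat_lit 1)) (.slot (nat_lit 1)) (.slot (nat_lit 1)))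
def l37 : Root := .mk (.node (.col (nat_lit 1)) (.col (nat_lit 3)) (.slot (nat_lit 3))) (.col (nat_lit 3)) (.node (.col (nat_lit 0)) (.col (nat_lit 1)) (.slot (nat_lit 3))) (.col (nat_lit 0))
def w126 : Root := .mk (.node (.col (nat_lit 1)) (.col (nat_lit 3)) (.slot (nat_lit 3))) (.col (nat_lit 3)) (.node (.col (nat_lit 0)) (.slot (nat_lit 1)) (.slot (nat_lit 3))) (.col (nat_lit 0))
def w127 : Root := .mk (.node (.node (.node .junk (.col (nat_lit 2)) (.col (nat_lit 0))) (.col (nat_lit 3)) (.slot (nat_lit 1))) (.col (nat_lit 3)) (.slot (nat_lit 3))) (.col (nat_lit 3)) (.node (.col (nat_lit 0)) (.slot (nat_lit 3)) (.slot (nat_lit 1))) (.col (nat_lit 0))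
def w128 : Root := .mk (.node (.slot (nat_lit 0)) (.col (nat_lit 3)) (.slot (nat_lit 0))) (.col (nat_lit 3)) (.node (.col (nat_lit 0)) (.slot (nat_lit 1)) (.slot (nat_lit 1))) (.node (.col (nat_lit 0)) (.slot (nat_lit 1)) (.slot (nat_lit 1)))
def w129 : Root := .mk (.col (nat_lit 3)) (.node (.col (nat_lit 2)) (.col (nat_lit 0)) (.node (.col (nat_lit 3)) (.node (.node (.col (nat_lit 3)) (.node (.col (nat_lit 0)) (.slot (nat_lit 1)) (.slot (nat_lit 1))) (.node (.col (nat_lit 1)) (.slot (nat_lit 0)) (.slot (nat_lit 0)))) (.col (nat_lit 3)) (.slot (nat_lit 2))) (.slot (nat_lit 2)))) (.col (nat_lit 2)) (.col (nat_lit 0))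
def w130 : Root := .mk (.col (nat_lit 3)) (.node (.col (nat_lit 2)) (.col (nat_lit 0)) (.node (.col (nat_lit 3)) (.node (.node (.col (nat_lit 3)) (.node (.col (nat_lit 0)) (.slot (nat_lit 0)) (.slot (nat_lit 0))) (.node (.col (nat_lit 2)) (.slot (nat_lit 1)) (.slot (nat_lit 1)))) (.col (nat_lit 3)) (.slot (nat_lit 2))) (.slot (nat_lit 2)))) (.col (nat_lit 2)) (.col (nat_lit 0))
def w131 : Root := .mk (.col (nat_lit 3)) (.node (.col (nat_lit 2)) (.col (nat_lit 0)) (.node (.col (nat_lit 3)) (.node (.node (.col (nat_lit 3)) (.node (.col (nat_lit 0)) (.slot (nat_lit 1)) (.slot (nat_lit 1))) (.node (.col (nat_lit 3)) (.slot (nat_lit 0)) (.slot (nat_lit 0)))) (.col (nat_lit 3)) (.slot (nat_lit 2))) (.slot (nat_lit 2)))) (.col (nat_lit 2)) (.col (nat_lit 0))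
def w132 : Root := .mk (.col (nat_lit 3)) (.node (.col (nat_lit 2)) (.col (nat_lit 0)) (.node (.col (nat_lit 3)) (.node (.node (.col (nat_lit 3)) (.node (.col (nat_lit 0)) (.slot (nat_lit 1)) (.slot (nat_lit 1))) (.node (.slot (nat_lit 0)) (.slot (nat_lit 0)) (.slot (nat_lit 0)))) (.col (nat_lit 3)) (.slot (nat_lit 2))) (.slot (nat_lit 2)))) (.col (nat_lit 2)) (.col (nat_lit 0))
def w133 : Root := .mk (.col (nat_lit 3)) (.node (.col (nat_lit 2)) (.col (nat_lit 0)) (.node (.col (nat_lit 3)) (.node (.node (.col (nat_lit 3)) (.node (.col (nat_lit 0)) (.slot (nat_lit 1)) (.slot (nat_lit 1))) (.slot (nat_lit 2))) (.col (nat_lit 3)) (.col (nat_lit 1))) (.slot (nat_lit 1)))) (.col (nat_lit 2)) (.col (nat_lit 0))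
def w134 : Root := .mk (.node (.node .junk (.col (nat_lit 2)) (.col (nat_lit 0))) (.col (nat_lit 3)) (.slot (nat_lit 1))) (.node (.col (nat_lit 3)) (.node (.col (nat_lit 0)) (.slot (nat_lit 1)) (.slot (nat_lit 1))) (.slot (nat_lit 2))) (.col (nat_lit 3)) (.node (.col (nat_lit 0)) (.slot (nat_lit 1)) .junk)
def w135 : Root := .mk (.col (nat_lit 3)) (.node (.col (nat_lit 2)) .junk (.node (.col (nat_lit 3)) (.node (.col (nat_lit 0)) (.col (nat_lit 3)) (.node (.col (nat_lit 1)) (.slot (nat_lit 1)) .junk)) (.col (nat_lit 0)))) (.col (nat_lit 2)) (.col (nat_lit 0))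
def w136 : Root := .mk (.col (nat_lit 3)) (.node .junk (.col (nat_lit 0)) (.node (.col (nat_lit 3)) (.node (.col (nat_lit 0)) (.col (nat_lit 3)) (.node (.col (nat_lit 1)) (.slot (nat_lit 1)) .junk)) (.col (nat_lit 2)))) (.col (nat_lit 2)) (.col (nat_lit 0))
def w137 : Root := .mk (.col (nat_lit 3)) (.node (.col (nat_lit 2)) (.col (nat_lit 0)) (.node (.col (nat_lit 3)) (.node (.col (nat_lit 0)) (.col (nat_lit 3)) (.slot (nat_lit 0))) (.node (.col (nat_lit 0)) (.slot (nat_lit 1)) (.slot (nat_lit 0))))) (.col (nat_lit 2)) (.col (nat_lit 0))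
def w138 : Root := .mk (.col (nat_lit 3)) (.node (.col (nat_lit 2)) (.col (nat_lit 0)) (.node (.col (nat_lit 3)) (.node (.col (nat_lit 0)) (.col (nat_lit 3)) (.node (.col (nat_lit 1)) (.slot (nat_lit 1)) .junk)) (.slot (nat_lit 0)))) (.col (nat_lit 2)) (.col (nat_lit 0))
def l38 : Root := .mk (.col (nat_lit 3)) (.node (.col (nat_lit 2)) (.col (nat_lit 0)) (.node (.col (nat_lit 3)) (.node (.col (nat_lit 0)) (.col (nat_lit 3)) (.node (.col (nat_lit 1)) (.slot (nat_lit 1)) (.slot (nat_lit 1)))) (.slot (nat_lit 2)))) (.col (nat_lit 2)) (.col (nat_lit 0))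
def w139 : Root := .mk (.col (nat_lit 3)) (.node (.col (nat_lit 2)) (.col (nat_lit 0)) (.node (.col (nat_lit 3)) (.node (.node (.col (nat_lit 3)) (.slot (nat_lit 0)) (.slot (nat_lit 0))) (.col (nat_lit 3)) (.node (.col (nat_lit 1)) (.slot (nat_lit 1)) (.slot (nat_lit 1)))) (.slot (nat_lit 2)))) (.col (nat_lit 2)) (.col (nat_lit 0))
def w140 : Root := .mk (.col (nat_lit 1)) (.node (.col (nat_lit 3)) (.node (.col (nat_lit 0)) (.col (nat_lit 1)) (.slot (nat_lit 1))) (.node (.col (nat_lit 0)) (.slot (nat_lit 1)) (.slot (nat_lit 0)))) (.col (nat_lit 3)) (.slot (nat_lit 0))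
def w141 : Root := .mk (.col (nat_lit 1)) (.node (.col (nat_lit 3)) (.node (.col (nat_lit 0)) (.col (nat_lit 1)) (.slot (nat_lit 1))) (.node (.col (nat_lit 1)) (.slot (nat_lit 1)) (.slot (nat_lit 0)))) (.col (nat_lit 3)) (.slot (nat_lit 0))
def w142 : Root := .mk (.col (nat_lit 1)) (.node (.col (nat_lit 3)) (.node (.col (nat_lit 0)) (.col (nat_lit 1)) (.slot (nat_lit 1))) (.slot (nat_lit 0))) (.col (nat_lit 3)) (.node (.col (nat_lit 2)) (.slot (nat_lit 1)) .junk)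
def w143 : Root := .mk (.col (nat_lit 1)) (.node (.col (nat_lit 3)) (.node (.col (nat_lit 0)) (.col (nat_lit 1)) (.slot (nat_lit 1))) (.slot (nat_lit 1))) (.col (nat_lit 3)) (.col (nat_lit 4))
def l39 : Root := .mk (.col (nat_lit 1)) (.node (.col (nat_lit 3)) (.node (.col (nat_lit 0)) (.col (nat_lit 1)) (.slot (nat_lit 1))) (.slot (nat_lit 2))) (.col (nat_lit 3)) (.node (.col (nat_lit 2)) (.slot (nat_lit 1)) (.slot (nat_lit 1)))
def w144 : Root := .mk (.col (nat_lit 1)) (.node (.col (nat_lit 3)) (.node (.col (nat_lit 0)) (.slot (nat_lit 1)) (.slot (nat_lit 1))) (.slot (nat_lit 2))) (.col (nat_lit 3)) (.node (.col (nat_lit 2)) (.slot (nat_lit 1)) (.slot (nat_lit 1)))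
def w145 : Root := .mk (.node (.node .junk (.col (nat_lit 2)) (.col (nat_lit 0))) (.col (nat_lit 3)) (.slot (nat_lit 1))) (.node (.col (nat_lit 3)) (.node (.col (nat_lit 0)) (.slot (nat_lit 1)) (.slot (nat_lit 1))) (.slot (nat_lit 2))) (.col (nat_lit 3)) (.node (.col (nat_lit 2)) (.slot (nat_lit 1)) (.slot (nat_lit 1)))
def w146 : Root := .mk (.col (nat_lit 3)) (.node (.col (nat_lit 2)) (.col (nat_lit 0)) (.node (.col (nat_lit 3)) (.node (.node (.col (nat_lit 3)) (.node (.col (nat_lit 0)) (.slot (nat_lit 1)) (.slot (nat_lit 1))) (.slot (nat_lit 2))) (.col (nat_lit 3)) (.node (.col (nat_lit 3)) (.slot (nat_lit 0)) (.slot (nat_lit 0)))) (.slot (nat_lit 1)))) (.col (nat_lit 2)) (.col (nat_lit 0))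
def w147 : Root := .mk (.col (nat_lit 3)) (.node (.col (nat_lit 2)) (.col (nat_lit 0)) (.node (.col (nat_lit 3)) (.node (.node (.col (nat_lit 3)) (.node (.col (nat_lit 0)) (.col (nat_lit 1)) .junk) (.slot (nat_lit 1))) (.col (nat_lit 3)) (.slot (nat_lit 1))) (.slot (nat_lit 1)))) (.col (nat_lit 2)) (.col (nat_lit 0))
def l40 : Root := .mk (.col (nat_lit 4)) (.col (nat_lit 3)) (.node (.col (nat_lit 0)) (.col (nat_lit 2)) (.node (.col (nat_lit 3)) (.slot (nat_lit 0)) (.slot (nat_lit 0)))) (.node (.col (nat_lit 0)) (.slot (nat_lit 1)) (.slot (nat_lit 0)))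
def w148 : Root := .mk (.node (.node (.col (nat_lit 1)) (.col (nat_lit 3)) (.slot (nat_lit 0))) (.col (nat_lit 3)) (.node (.col (nat_lit 0)) (.slot (nat_lit 1)) (.slot (nat_lit 0)))) (.col (nat_lit 0)) (.col (nat_lit 2)) (.node (.col (nat_lit 3)) (.slot (nat_lit 0)) (.slot (nat_lit 0)))
def l41 : Root := .mk (.node (.slot (nat_lit 0)) (.col (nat_lit 3)) (.node (.col (nat_lit 1)) (.slot (nat_lit 0)) (.slot (nat_lit 0)))) (.col (nat_lit 0)) (.col (nat_lit 2)) (.node (.col (nat_lit 3)) (.col (nat_lit 4)) (.slot (nat_lit 1)))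
def w149 : Root := .mk (.node (.slot (nat_lit 0)) (.col (nat_lit 3)) (.node (.col (nat_lit 1)) (.slot (nat_lit 0)) (.slot (nat_lit 0)))) (.col (nat_lit 0)) (.col (nat_lit 2)) (.node (.col (nat_lit 3)) (.slot (nat_lit 1)) (.slot (nat_lit 1)))
def l42 : Root := .mk (.node (.col (nat_lit 1)) (.col (nat_lit 3)) (.slot (nat_lit 0))) (.col (nat_lit 3)) (.node (.col (nat_lit 0)) (.col (nat_lit 2)) (.node (.col (nat_lit 3)) (.slot (nat_lit 1)) (.slot (nat_lit 0)))) (.col (nat_lit 1))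
def w150 : Root := .mk (.node (.node (.col (nat_lit 1)) (.col (nat_lit 3)) (.slot (nat_lit 0))) (.col (nat_lit 3)) (.node (.col (nat_lit 3)) (.slot (nat_lit 0)) (.slot (nat_lit 0)))) (.col (nat_lit 0)) (.col (nat_lit 2)) (.node (.col (nat_lit 3)) (.slot (nat_lit 1)) (.slot (nat_lit 0)))
def w151 : Root := .mk (.node (.node (.col (nat_lit 1)) (.col (nat_lit 3)) (.slot (nat_lit 0))) (.col (nat_lit 3)) (.slot (nat_lit 1))) (.col (nat_lit 0)) (.col (nat_lit 2)) (.node (.col (nat_lit 3)) (.col (nat_lit 0)) (.slot (nat_lit 1)))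
def w152 : Root := .mk (.node (.slot (nat_lit 0)) (.col (nat_lit 3)) (.slot (nat_lit 1))) (.col (nat_lit 0)) (.col (nat_lit 2)) (.node (.col (nat_lit 3)) (.node (.col (nat_lit 0)) (.slot (nat_lit 0)) (.slot (nat_lit 0))) (.slot (nat_lit 1)))
def w153 : Root := .mk (.node (.slot (nat_lit 0)) (.col (nat_lit 3)) (.slot (nat_lit 1))) (.col (nat_lit 0)) (.col (nat_lit 2)) (.node (.col (nat_lit 3)) (.node (.col (nat_lit 1)) (.slot (nat_lit 0)) (.slot (nat_lit 0))) (.slot (nat_lit 1)))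
def w154 : Root := .mk (.node (.slot (nat_lit 0)) (.col (nat_lit 3)) (.slot (nat_lit 1))) (.col (nat_lit 0)) (.col (nat_lit 2)) (.node (.col (nat_lit 3)) (.node (.col (nat_lit 3)) (.slot (nat_lit 0)) (.slot (nat_lit 0))) (.slot (nat_lit 1)))
def l43 : Root := .mk (.node (.node (.col (nat_lit 1)) (.col (nat_lit 3)) (.slot (nat_lit 1))) (.col (nat_lit 3)) (.slot (nat_lit 2))) (.col (nat_lit 0)) (.col (nat_lit 2)) (.node (.col (nat_lit 3)) (.slot (nat_lit 1)) (.slot (nat_lit 1)))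
def w155 : Root := .mk (.col (nat_lit 1)) (.node (.col (nat_lit 3)) (.node (.col (nat_lit 0)) (.col (nat_lit 2)) (.slot (nat_lit 2))) (.slot (nat_lit 2))) (.col (nat_lit 3)) (.slot (nat_lit 1))
def w156 : Root := .mk (.node (.node (.node (.node .junk (.col (nat_lit 2)) (.col (nat_lit 0))) (.col (nat_lit 3)) (.slot (nat_lit 1))) (.col (nat_lit 3)) (.slot (nat_lit 1))) (.col (nat_lit 3)) (.slot (nat_lit 2))) (.col (nat_lit 0)) (.col (nat_lit 2)) (.slot (nat_lit 2))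
def w157 : Root := .mk (.col (nat_lit 3)) (.node (.col (nat_lit 2)) (.col (nat_lit 0)) (.node (.col (nat_lit 3)) (.node (.node (.col (nat_lit 3)) (.node (.col (nat_lit 0)) (.col (nat_lit 3)) (.slot (nat_lit 3))) (.slot (nat_lit 1))) (.col (nat_lit 3)) (.slot (nat_lit 3))) (.slot (nat_lit 3)))) (.col (nat_lit 2)) (.col (nat_lit 0))
def w158 : Root := .mk (.node (.col (nat_lit 2)) (.col (nat_lit 3)) (.node (.col (nat_lit 0)) (.slot (nat_lit 1)) (.slot (nat_lit 1)))) (.col (nat_lit 0)) (.node (.col (nat_lit 0)) (.slot (nat_lit 0)) (.slot (nat_lit 0))) (.col (nat_lit 2))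
def l44 : Root := .mk (.node (.col (nat_lit 2)) (.col (nat_lit 3)) (.node (.col (nat_lit 0)) (.slot (nat_lit 1)) (.slot (nat_lit 0)))) (.col (nat_lit 0)) (.node (.col (nat_lit 0)) (.slot (nat_lit 0)) (.slot (nat_lit 0))) (.col (nat_lit 1))
def w159 : Root := .mk (.col (nat_lit 2)) (.col (nat_lit 3)) (.node (.col (nat_lit 0)) (.node (.col (nat_lit 0)) (.slot (nat_lit 0)) (.slot (nat_lit 0))) (.node (.col (nat_lit 0)) (.slot (nat_lit 0)) (.slot (nat_lit 0)))) (.node (.col (nat_lit 0)) (.slot (nat_lit 1)) (.slot (nat_lit 0)))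
def w160 : Root := .mk (.col (nat_lit 2)) (.col (nat_lit 3)) (.node (.col (nat_lit 0)) (.node (.col (nat_lit 0)) (.slot (nat_lit 0)) (.slot (nat_lit 0))) (.node (.col (nat_lit 2)) (.slot (nat_lit 1)) (.slot (nat_lit 0)))) (.node (.col (nat_lit 0)) (.slot (nat_lit 0)) (.slot (nat_lit 0)))
def w161 : Root := .mk (.col (nat_lit 2)) (.col (nat_lit 3)) (.node (.col (nat_lit 0)) (.node (.col (nat_lit 0)) (.slot (nat_lit 0)) (.slot (nat_lit 0))) (.slot (nat_lit 1))) (.node (.col (nat_lit 0)) (.col (nat_lit 2)) (.slot (nat_lit 1)))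
def l45 : Root := .mk (.col (nat_lit 2)) (.col (nat_lit 3)) (.node (.col (nat_lit 0)) (.node (.col (nat_lit 0)) (.slot (nat_lit 0)) (.slot (nat_lit 0))) (.slot (nat_lit 2))) (.node (.col (nat_lit 0)) (.slot (nat_lit 1)) (.slot (nat_lit 1)))
def w162 : Root := .mk (.col (nat_lit 2)) (.col (nat_lit 3)) (.node (.col (nat_lit 0)) (.node (.col (nat_lit 0)) (.slot (nat_lit 0)) (.slot (nat_lit 0))) (.slot (nat_lit 2))) (.slot (nat_lit 2))
def w163 : Root := .mk (.col (nat_lit 3)) (.node (.col (nat_lit 2)) (.col (nat_lit 0)) (.node (.col (nat_lit 3)) (.node (.node (.col (nat_lit 3)) (.node (.col (nat_lit 0)) (.node (.col (nat_lit 0)) (.slot (nat_lit 0)) (.slot (nat_lit 0))) (.slot (nat_lit 2))) (.slot (nat_lit 2))) (.col (nat_lit 3)) (.slot (nat_lit 1))) (.slot (nat_lit 1)))) (.col (nat_lit 2)) (.col (nat_lit 0))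
def w164 : Root := .mk (.col (nat_lit 2)) (.col (nat_lit 3)) (.node (.col (nat_lit 0)) (.node (.col (nat_lit 1)) (.slot (nat_lit 1)) (.slot (nat_lit 1))) (.slot (nat_lit 2))) (.slot (nat_lit 1))
def w165 : Root := .mk (.col (nat_lit 3)) (.node (.col (nat_lit 2)) (.col (nat_lit 0)) (.node (.col (nat_lit 3)) (.node (.node (.col (nat_lit 3)) (.node (.col (nat_lit 0)) (.node (.col (nat_lit 1)) (.slot (nat_lit 1)) (.slot (nat_lit 1))) (.slot (nat_lit 2))) (.slot (nat_lit 1))) (.col (nat_lit 3)) (.slot (nat_lit 1))) (.slot (nat_lit 1)))) (.col (nat_lit 2)) (.col (nat_lit 0))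
def w166 : Root := .mk (.col (nat_lit 3)) (.node (.col (nat_lit 2)) (.col (nat_lit 0)) (.node (.col (nat_lit 3)) (.node (.node (.col (nat_lit 3)) (.node (.col (nat_lit 0)) (.node (.col (nat_lit 2)) (.slot (nat_lit 1)) (.slot (nat_lit 0))) (.slot (nat_lit 1))) (.slot (nat_lit 1))) (.col (nat_lit 3)) (.slot (nat_lit 1))) (.slot (nat_lit 1)))) (.col (nat_lit 2)) (.col (nat_lit 0))
def w167 : Root := .mk (.node (.node (.slot (nat_lit 0)) (.col (nat_lit 3)) (.slot (nat_lit 0))) (.col (nat_lit 3)) (.slot (nat_lit 2))) (.col (nat_lit 0)) (.node (.col (nat_lit 3)) (.slot (nat_lit 1)) (.slot (nat_lit 1))) (.slot (nat_lit 1))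
def w168 : Root := .mk (.col (nat_lit 1)) (.col (nat_lit 3)) (.node (.col (nat_lit 2)) (.col (nat_lit 3)) (.slot (nat_lit 1))) (.node (.node (.col (nat_lit 1)) (.slot (nat_lit 0)) (.slot (nat_lit 0))) (.col (nat_lit 2)) (.slot (nat_lit 1)))
def w169 : Root := .mk (.col (nat_lit 1)) (.col (nat_lit 3)) (.node (.col (nat_lit 2)) (.col (nat_lit 3)) (.slot (nat_lit 1))) (.node (.node (.col (nat_lit 1)) (.slot (nat_lit 1)) (.slot (nat_lit 1))) (.col (nat_lit 2)) (.node (.col (nat_lit 0)) (.slot (nat_lit 0)) (.slot (nat_lit 0))))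
def w170 : Root := .mk (.col (nat_lit 1)) (.col (nat_lit 3)) (.slot (nat_lit 0)) (.node (.node (.col (nat_lit 1)) (.slot (nat_lit 1)) (.slot (nat_lit 1))) (.col (nat_lit 2)) (.node (.col (nat_lit 1)) (.slot (nat_lit 1)) (.slot (nat_lit 1))))
def w171 : Root := .mk (.col (nat_lit 1)) (.col (nat_lit 3)) (.node (.col (nat_lit 2)) (.col (nat_lit 3)) (.slot (nat_lit 1))) (.node (.node (.col (nat_lit 1)) (.slot (nat_lit 1)) (.slot (nat_lit 1))) (.col (nat_lit 2)) (.node (.col (nat_lit 2)) (.slot (nat_lit 0)) (.slot (nat_lit 0))))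
def l46 : Root := .mk (.node (.col (nat_lit 1)) (.col (nat_lit 3)) (.node (.col (nat_lit 2)) (.col (nat_lit 3)) (.slot (nat_lit 0)))) (.col (nat_lit 0)) (.col (nat_lit 2)) (.node (.col (nat_lit 3)) (.slot (nat_lit 1)) (.slot (nat_lit 0)))
def w172 : Root := .mk (.col (nat_lit 1)) (.col (nat_lit 3)) (.node (.col (nat_lit 2)) (.col (nat_lit 3)) (.slot (nat_lit 0))) (.node (.node (.col (nat_lit 1)) (.slot (nat_lit 0)) (.slot (nat_lit 0))) (.col (nat_lit 2)) (.node (.col (nat_lit 3)) (.slot (nat_lit 1)) (.slot (nat_lit 0))))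
def w173 : Root := .mk (.col (nat_lit 1)) (.col (nat_lit 3)) (.node (.col (nat_lit 2)) (.col (nat_lit 3)) (.slot (nat_lit 1))) (.node (.node (.col (nat_lit 1)) (.col (nat_lit 2)) (.slot (nat_lit 0))) (.col (nat_lit 2)) (.slot (nat_lit 1)))
def w174 : Root := .mk (.node (.col (nat_lit 1)) (.col (nat_lit 3)) (.node (.node (.col (nat_lit 1)) (.slot (nat_lit 1)) (.slot (nat_lit 1))) (.col (nat_lit 2)) (.slot (nat_lit 2)))) (.col (nat_lit 2)) (.col (nat_lit 3)) (.slot (nat_lit 0))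
def l47 : Root := .mk (.col (nat_lit 1)) (.col (nat_lit 3)) (.node (.col (nat_lit 2)) (.col (nat_lit 3)) (.slot (nat_lit 3))) (.node (.node (.col (nat_lit 1)) (.slot (nat_lit 1)) (.slot (nat_lit 1))) (.col (nat_lit 2)) (.slot (nat_lit 2)))
def w175 : Root := .mk (.col (nat_lit 1)) (.col (nat_lit 3)) (.node (.col (nat_lit 2)) (.col (nat_lit 3)) (.slot (nat_lit 3))) (.node (.node (.col (nat_lit 1)) (.slot (nat_lit 1)) (.slot (nat_lit 1))) (.slot (nat_lit 1)) (.slot (nat_lit 2)))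
def w176 : Root := .mk (.col (nat_lit 1)) (.col (nat_lit 3)) (.node (.node (.col (nat_lit 3)) (.node (.col (nat_lit 0)) (.slot (nat_lit 1)) (.slot (nat_lit 1))) (.slot (nat_lit 2))) (.col (nat_lit 3)) (.slot (nat_lit 3))) (.node (.node (.col (nat_lit 1)) (.slot (nat_lit 1)) (.slot (nat_lit 1))) (.slot (nat_lit 2)) (.slot (nat_lit 1)))
def w177 : Root := .mk (.col (nat_lit 1)) (.col (nat_lit 3)) (.col (nat_lit 0)) (.node (.node (.col (nat_lit 1)) (.slot (nat_lit 1)) (.slot (nat_lit 1))) (.slot (nat_lit 1)) (.slot (nat_lit 2)))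
def w178 : Root := .mk (.col (nat_lit 1)) .junk (.node (.node (.col (nat_lit 3)) (.node (.col (nat_lit 0)) (.slot (nat_lit 1)) (.slot (nat_lit 1))) (.slot (nat_lit 2))) (.col (nat_lit 3)) (.slot (nat_lit 1))) (.col (nat_lit 0))
def w179 : Root := .mk (.col (nat_lit 1)) .junk (.node (.node (.col (nat_lit 3)) (.node (.col (nat_lit 0)) (.slot (nat_lit 1)) (.slot (nat_lit 1))) (.slot (nat_lit 2))) (.col (nat_lit 3)) (.slot (nat_lit 1))) (.col (nat_lit 2))
def w180 : Root := .mk (.node (.col (nat_lit 1)) (.col (nat_lit 3)) (.node (.slot (nat_lit 0)) (.slot (nat_lit 0)) (.slot (nat_lit 0)))) (.node (.col (nat_lit 3)) (.node (.col (nat_lit 0)) (.slot (nat_lit 1)) (.slot (nat_lit 1))) (.slot (nat_lit 1))) (.col (nat_lit 3)) (.col (nat_lit 0))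
def l48 : Root := .mk (.col (nat_lit 0)) (.node (.col (nat_lit 3)) (.node (.col (nat_lit 0)) (.col (nat_lit 1)) (.slot (nat_lit 3))) (.slot (nat_lit 1))) (.col (nat_lit 3)) (.col (nat_lit 1))
def w181 : Root := .mk (.col (nat_lit 0)) (.node (.col (nat_lit 3)) (.node (.col (nat_lit 0)) (.slot (nat_lit 1)) (.slot (nat_lit 3))) (.slot (nat_lit 1))) (.col (nat_lit 3)) (.col (nat_lit 1))
def w182 : Root := .mk (.node (.col (nat_lit 1)) (.col (nat_lit 3)) (.node (.node (.col (nat_lit 1)) (.slot (nat_lit 1)) (.slot (nat_lit 1))) (.slot (nat_lit 2)) (.slot (nat_lit 1)))) (.node (.col (nat_lit 3)) (.node (.col (nat_lit 0)) (.slot (nat_lit 3)) (.slot (nat_lit 1))) (.slot (nat_lit 1))) (.col (nat_lit 3)) (.col (nat_lit 1))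
def w183 : Root := .mk (.node (.col (nat_lit 1)) .junk (.node (.slot (nat_lit 0)) (.slot (nat_lit 0)) (.slot (nat_lit 0)))) (.node (.col (nat_lit 3)) (.node (.col (nat_lit 0)) (.slot (nat_lit 1)) (.slot (nat_lit 1))) (.slot (nat_lit 2))) (.col (nat_lit 3)) (.col (nat_lit 2))
def w184 : Root := .mk (.col (nat_lit 1)) (.col (nat_lit 3)) (.node (.node (.col (nat_lit 3)) (.node (.col (nat_lit 0)) (.slot (nat_lit 1)) (.slot (nat_lit 1))) (.slot (nat_lit 2))) (.col (nat_lit 3)) (.node (.col (nat_lit 0)) (.slot (nat_lit 1)) (.slot (nat_lit 1)))) (.node (.slot (nat_lit 0)) (.slot (nat_lit 0)) (.slot (nat_lit 0)))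
def w185 : Root := .mk (.col (nat_lit 1)) (.col (nat_lit 3)) (.node (.node (.col (nat_lit 3)) (.node (.col (nat_lit 0)) (.slot (nat_lit 1)) (.slot (nat_lit 1))) (.slot (nat_lit 2))) (.col (nat_lit 3)) (.node (.col (nat_lit 1)) (.slot (nat_lit 1)) (.slot (nat_lit 1)))) (.node (.slot (nat_lit 0)) (.slot (nat_lit 0)) (.slot (nat_lit 0)))
def w186 : Root := .mk (.col (nat_lit 1)) (.col (nat_lit 3)) (.node (.node (.col (nat_lit 3)) (.node (.col (nat_lit 0)) (.slot (nat_lit 1)) (.slot (nat_lit 1))) (.slot (nat_lit 2))) (.col (nat_lit 3)) (.node (.col (nat_lit 2)) (.slot (nat_lit 1)) (.slot (nat_lit 1)))) (.node (.slot (nat_lit 0)) (.slot (nat_lit 0)) (.slot (nat_lit 0)))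
def w187 : Root := .mk (.node (.node (.col (nat_lit 1)) (.col (nat_lit 3)) (.node (.node (.col (nat_lit 1)) (.slot (nat_lit 0)) (.slot (nat_lit 0))) (.slot (nat_lit 1)) (.slot (nat_lit 1)))) (.col (nat_lit 2)) (.col (nat_lit 3))) (.col (nat_lit 3)) (.col (nat_lit 1)) (.node (.col (nat_lit 1)) (.slot (nat_lit 1)) (.slot (nat_lit 1)))
def w188 : Root := .mk (.node (.node (.col (nat_lit 1)) (.col (nat_lit 3)) (.node (.node (.col (nat_lit 1)) (.slot (nat_lit 0)) (.slot (nat_lit 0))) (.slot (nat_lit 1)) (.slot (nat_lit 1)))) (.col (nat_lit 2)) (.col (nat_lit 3))) (.col (nat_lit 3)) (.col (nat_lit 1)) (.node (.col (nat_lit 3)) (.slot (nat_lit 1)) (.slot (nat_lit 1)))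
def w189 : Root := .mk (.node (.node (.col (nat_lit 1)) (.col (nat_lit 3)) (.node (.node (.col (nat_lit 1)) (.slot (nat_lit 0)) (.slot (nat_lit 0))) (.slot (nat_lit 1)) (.slot (nat_lit 1)))) (.col (nat_lit 2)) (.col (nat_lit 3))) (.col (nat_lit 3)) (.col (nat_lit 1)) (.node (.slot (nat_lit 0)) (.slot (nat_lit 0)) (.slot (nat_lit 0)))
def w190 : Root := .mk (.node (.col (nat_lit 1)) (.col (nat_lit 3)) (.node (.col (nat_lit 2)) (.col (nat_lit 3)) (.node (.col (nat_lit 3)) (.col (nat_lit 1)) (.node (.col (nat_lit 2)) (.slot (nat_lit 1)) (.slot (nat_lit 1)))))) (.node (.col (nat_lit 1)) (.slot (nat_lit 0)) (.slot (nat_lit 0))) (.col (nat_lit 1)) (.col (nat_lit 2))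
def l49 : Root := .mk (.node (.node (.col (nat_lit 1)) (.col (nat_lit 3)) (.node (.node (.col (nat_lit 1)) (.slot (nat_lit 0)) (.slot (nat_lit 0))) (.col (nat_lit 1)) (.slot (nat_lit 1)))) (.col (nat_lit 2)) (.col (nat_lit 3))) (.col (nat_lit 3)) (.col (nat_lit 1)) (.node (.col (nat_lit 2)) (.slot (nat_lit 1)) (.slot (nat_lit 1)))
def w191 : Root := .mk (.col (nat_lit 1)) (.col (nat_lit 3)) (.node (.col (nat_lit 2)) (.col (nat_lit 3)) (.node (.col (nat_lit 3)) (.col (nat_lit 1)) (.slot (nat_lit 2)))) (.node (.node (.col (nat_lit 1)) (.slot (nat_lit 0)) (.slot (nat_lit 0))) (.col (nat_lit 1)) (.slot (nat_lit 1)))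
def w192 : Root := .mk (.col (nat_lit 1)) (.col (nat_lit 3)) (.node (.col (nat_lit 2)) (.col (nat_lit 3)) (.node .junk (.col (nat_lit 1)) (.slot (nat_lit 1)))) (.node (.node (.col (nat_lit 1)) (.col (nat_lit 2)) (.slot (nat_lit 0))) .junk (.col (nat_lit 2)))
def w193 : Root := .mk (.col (nat_lit 1)) (.col (nat_lit 3)) (.node (.col (nat_lit 2)) (.col (nat_lit 3)) (.node .junk (.col (nat_lit 1)) (.slot (nat_lit 1)))) (.node (.node (.col (nat_lit 1)) (.col (nat_lit 3)) (.slot (nat_lit 0))) .junk (.col (nat_lit 2)))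
def l50 : Root := .mk (.node (.col (nat_lit 1)) (.col (nat_lit 3)) (.node (.col (nat_lit 2)) (.col (nat_lit 3)) (.node (.col (nat_lit 3)) (.col (nat_lit 1)) (.slot (nat_lit 1))))) (.node (.col (nat_lit 1)) (.slot (nat_lit 1)) (.slot (nat_lit 0))) (.col (nat_lit 3)) (.col (nat_lit 2))
def w194 : Root := .mk (.col (nat_lit 1)) (.col (nat_lit 3)) (.node (.col (nat_lit 2)) (.col (nat_lit 3)) (.node (.col (nat_lit 3)) (.col (nat_lit 1)) (.slot (nat_lit 1)))) (.node (.node (.col (nat_lit 1)) (.slot (nat_lit 1)) (.slot (nat_lit 0))) (.col (nat_lit 3)) (.slot (nat_lit 1)))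
def l51 : Root := .mk (.node (.col (nat_lit 1)) (.col (nat_lit 3)) (.node (.node (.col (nat_lit 1)) (.slot (nat_lit 1)) (.slot (nat_lit 0))) (.slot (nat_lit 2)) (.slot (nat_lit 2)))) (.col (nat_lit 2)) (.col (nat_lit 3)) (.node (.col (nat_lit 3)) (.col (nat_lit 1)) (.slot (nat_lit 3)))
def w195 : Root := .mk (.node (.col (nat_lit 1)) (.col (nat_lit 3)) (.node (.node (.col (nat_lit 1)) (.slot (nat_lit 1)) (.slot (nat_lit 0))) (.slot (nat_lit 2)) (.slot (nat_lit 2)))) (.col (nat_lit 2)) (.col (nat_lit 3)) (.node (.col (nat_lit 3)) (.slot (nat_lit 1)) (.slot (nat_lit 3)))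
def w196 : Root := .mk (.col (nat_lit 1)) (.col (nat_lit 3)) (.node (.node (.col (nat_lit 3)) (.node (.col (nat_lit 0)) (.slot (nat_lit 1)) (.slot (nat_lit 1))) (.slot (nat_lit 2))) (.col (nat_lit 3)) (.node (.col (nat_lit 3)) (.slot (nat_lit 3)) (.slot (nat_lit 1)))) (.node (.node (.col (nat_lit 1)) (.slot (nat_lit 1)) (.slot (nat_lit 0))) (.slot (nat_lit 2)) (.slot (nat_lit 2)))
def l52 : Root := .mk (.node (.node (.col (nat_lit 1)) (.col (nat_lit 3)) (.node (.col (nat_lit 2)) (.col (nat_lit 3)) (.slot (nat_lit 0)))) (.col (nat_lit 2)) (.col (nat_lit 1))) (.col (nat_lit 1)) (.node (.col (nat_lit 2)) (.slot (nat_lit 1)) (.slot (nat_lit 1))) (.col (nat_lit 3))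
def w197 : Root := .mk (.node (.col (nat_lit 1)) (.col (nat_lit 3)) (.node (.col (nat_lit 2)) (.col (nat_lit 3)) (.slot (nat_lit 0)))) (.node (.col (nat_lit 1)) (.node (.col (nat_lit 2)) (.slot (nat_lit 1)) (.slot (nat_lit 1))) (.slot (nat_lit 1))) (.col (nat_lit 2)) (.col (nat_lit 1))
def w198 : Root := .mk (.node (.node .junk (.col (nat_lit 3)) (.node (.col (nat_lit 2)) (.col (nat_lit 3)) (.slot (nat_lit 0)))) (.col (nat_lit 2)) (.col (nat_lit 1))) (.col (nat_lit 1)) (.node (.col (nat_lit 2)) (.slot (nat_lit 1)) .junk) (.col (nat_lit 0))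
def w199 : Root := .mk (.node (.node (.col (nat_lit 1)) (.col (nat_lit 3)) (.slot (nat_lit 0))) (.node (.col (nat_lit 0)) (.slot (nat_lit 0)) (.slot (nat_lit 0))) (.slot (nat_lit 1))) (.col (nat_lit 1)) (.col (nat_lit 3)) (.col (nat_lit 0))
def w200 : Root := .mk (.node (.node (.col (nat_lit 1)) (.col (nat_lit 3)) (.slot (nat_lit 0))) (.node (.col (nat_lit 1)) (.slot (nat_lit 0)) (.slot (nat_lit 0))) (.slot (nat_lit 1))) (.col (nat_lit 1)) (.col (nat_lit 3)) (.col (nat_lit 0))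
def w201 : Root := .mk (.node (.node (.col (nat_lit 1)) (.col (nat_lit 3)) (.slot (nat_lit 0))) (.node (.col (nat_lit 2)) (.slot (nat_lit 0)) (.slot (nat_lit 0))) (.slot (nat_lit 1))) (.col (nat_lit 1)) (.col (nat_lit 3)) (.col (nat_lit 0))
def l53 : Root := .mk (.col (nat_lit 1)) (.col (nat_lit 3)) (.col (nat_lit 0)) (.node (.node (.col (nat_lit 1)) (.col (nat_lit 3)) (.col (nat_lit 0))) (.col (nat_lit 2)) (.slot (nat_lit 1)))
def w202 : Root := .mk (.col (nat_lit 1)) (.col (nat_lit 3)) (.col (nat_lit 0)) (.node (.node (.col (nat_lit 1)) (.col (nat_lit 3)) (.col (nat_lit 0))) (.slot (nat_lit 1)) (.slot (nat_lit 1)))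
def w203 : Root := .mk (.col (nat_lit 1)) (.col (nat_lit 3)) (.col (nat_lit 4)) (.node (.node (.col (nat_lit 1)) (.col (nat_lit 3)) (.col (nat_lit 0))) (.slot (nat_lit 1)) (.slot (nat_lit 1)))
def l54 : Root := .mk (.node (.node (.col (nat_lit 1)) (.col (nat_lit 3)) (.node (.col (nat_lit 2)) (.col (nat_lit 3)) (.node (.slot (nat_lit 0)) (.slot (nat_lit 0)) (.slot (nat_lit 0))))) (.slot (nat_lit 1)) (.slot (nat_lit 1))) (.col (nat_lit 1)) (.col (nat_lit 3)) (.col (nat_lit 0))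
def w204 : Root := .mk (.col (nat_lit 1)) (.col (nat_lit 3)) (.node (.col (nat_lit 2)) (.col (nat_lit 3)) (.node (.slot (nat_lit 0)) (.slot (nat_lit 0)) (.slot (nat_lit 0)))) (.node (.node (.col (nat_lit 1)) (.col (nat_lit 3)) (.slot (nat_lit 1))) (.slot (nat_lit 1)) (.slot (nat_lit 1)))
def w205 : Root := .mk (.node (.node (.col (nat_lit 1)) (.col (nat_lit 3)) (.node (.col (nat_lit 2)) (.col (nat_lit 3)) (.node (.slot (nat_lit 0)) (.slot (nat_lit 0)) (.slot (nat_lit 0))))) (.slot (nat_lit 1)) (.slot (nat_lit 1))) (.col (nat_lit 1)) (.col (nat_lit 3)) (.node (.col (nat_lit 1)) (.slot (nat_lit 0)) (.slot (nat_lit 0)))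
def w206 : Root := .mk (.node (.node (.col (nat_lit 1)) (.col (nat_lit 3)) (.node (.col (nat_lit 2)) (.col (nat_lit 3)) (.node (.slot (nat_lit 0)) (.slot (nat_lit 0)) (.slot (nat_lit 0))))) (.slot (nat_lit 1)) (.slot (nat_lit 1))) (.col (nat_lit 1)) (.col (nat_lit 3)) (.node (.col (nat_lit 3)) (.slot (nat_lit 0)) (.slot (nat_lit 0)))
def w207 : Root := .mk (.col (nat_lit 1)) (.col (nat_lit 3)) (.node (.col (nat_lit 2)) (.col (nat_lit 3)) (.node (.slot (nat_lit 0)) (.slot (nat_lit 0)) (.slot (nat_lit 0)))) (.node (.node (.col (nat_lit 1)) (.node (.col (nat_lit 2)) (.slot (nat_lit 1)) (.slot (nat_lit 1))) (.slot (nat_lit 2))) (.slot (nat_lit 1)) (.slot (nat_lit 1)))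
def w208 : Root := .mk (.col (nat_lit 1)) (.col (nat_lit 3)) (.node (.col (nat_lit 2)) (.col (nat_lit 3)) (.node (.slot (nat_lit 0)) (.slot (nat_lit 0)) (.slot (nat_lit 0)))) (.node (.node (.col (nat_lit 1)) (.col (nat_lit 0)) (.slot (nat_lit 1))) (.slot (nat_lit 1)) (.slot (nat_lit 1)))
def w209 : Root := .mk (.node (.node (.col (nat_lit 1)) (.col (nat_lit 3)) (.slot (nat_lit 0))) (.slot (nat_lit 1)) (.slot (nat_lit 1))) (.col (nat_lit 1)) (.node (.col (nat_lit 2)) (.slot (nat_lit 1)) (.slot (nat_lit 1))) (.col (nat_lit 0))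
def l55 : Root := .mk (.col (nat_lit 1)) (.col (nat_lit 3)) (.node (.col (nat_lit 2)) (.col (nat_lit 3)) (.node (.slot (nat_lit 0)) (.col (nat_lit 1)) (.col (nat_lit 2)))) (.node (.col (nat_lit 2)) (.col (nat_lit 0)) (.slot (nat_lit 1)))
def w210 : Root := .mk (.node (.col (nat_lit 1)) (.col (nat_lit 3)) (.node (.col (nat_lit 2)) (.slot (nat_lit 1)) (.slot (nat_lit 1)))) (.col (nat_lit 2)) (.col (nat_lit 3)) (.node (.slot (nat_lit 0)) (.col (nat_lit 1)) (.col (nat_lit 2)))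
def l56 : Root := .mk (.col (nat_lit 1)) (.col (nat_lit 3)) (.node (.col (nat_lit 2)) (.col (nat_lit 3)) (.node (.slot (nat_lit 0)) (.col (nat_lit 1)) (.col (nat_lit 3)))) (.node (.col (nat_lit 2)) (.col (nat_lit 0)) (.slot (nat_lit 1)))
def w211 : Root := .mk (.node (.col (nat_lit 1)) (.col (nat_lit 3)) (.node (.col (nat_lit 2)) (.slot (nat_lit 1)) (.slot (nat_lit 1)))) (.col (nat_lit 2)) (.col (nat_lit 3)) (.node (.slot (nat_lit 0)) (.col (nat_lit 1)) (.col (nat_lit 3)))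
def l57 : Root := .mk (.col (nat_lit 1)) (.col (nat_lit 3)) (.node (.col (nat_lit 2)) (.col (nat_lit 3)) (.node (.slot (nat_lit 0)) (.col (nat_lit 1)) (.slot (nat_lit 1)))) (.node (.col (nat_lit 2)) (.slot (nat_lit 1)) (.slot (nat_lit 1)))
def w212 : Root := .mk (.node (.col (nat_lit 1)) (.col (nat_lit 3)) (.node (.node (.col (nat_lit 1)) (.slot (nat_lit 0)) (.slot (nat_lit 0))) (.slot (nat_lit 1)) (.slot (nat_lit 1)))) (.col (nat_lit 2)) (.col (nat_lit 3)) (.node (.slot (nat_lit 0)) (.col (nat_lit 1)) (.slot (nat_lit 1)))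
def w213 : Root := .mk (.col (nat_lit 1)) (.col (nat_lit 3)) (.node (.node (.col (nat_lit 3)) (.node (.col (nat_lit 0)) (.slot (nat_lit 1)) (.slot (nat_lit 1))) (.slot (nat_lit 2))) (.col (nat_lit 3)) (.node (.slot (nat_lit 0)) (.col (nat_lit 1)) (.slot (nat_lit 1)))) (.node (.node (.col (nat_lit 1)) (.slot (nat_lit 0)) (.slot (nat_lit 0))) (.slot (nat_lit 1)) (.slot (nat_lit 1)))
def w214 : Root := .mk (.col (nat_lit 1)) (.col (nat_lit 3)) (.node (.node (.col (nat_lit 3)) (.slot (nat_lit 0)) (.slot (nat_lit 0))) (.col (nat_lit 3)) (.node (.col (nat_lit 0)) (.col (nat_lit 1)) (.slot (nat_lit 1)))) (.node (.slot (nat_lit 0)) (.slot (nat_lit 0)) (.slot (nat_lit 0)))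
def w216 : Root := .mk (.col (nat_lit 1)) (.col (nat_lit 3)) (.node (.node (.col (nat_lit 3)) (.slot (nat_lit 0)) (.slot (nat_lit 0))) (.col (nat_lit 3)) (.node .junk (.col (nat_lit 1)) (.col (nat_lit 0)))) (.node (.col (nat_lit 2)) (.slot (nat_lit 1)) .junk)
def l58 : Root := .mk (.node (.col (nat_lit 1)) (.col (nat_lit 3)) (.node (.node (.col (nat_lit 3)) (.slot (nat_lit 0)) (.col (nat_lit 0))) (.col (nat_lit 3)) (.col (nat_lit 0)))) (.col (nat_lit 3)) (.col (nat_lit 0)) (.node (.col (nat_lit 1)) (.slot (nat_lit 1)) (.slot (nat_lit 1)))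
def w217 : Root := .mk (.node (.node (.col (nat_lit 1)) (.col (nat_lit 3)) (.node (.col (nat_lit 3)) (.col (nat_lit 0)) (.slot (nat_lit 2)))) (.col (nat_lit 3)) (.col (nat_lit 0))) (.col (nat_lit 3)) (.slot (nat_lit 0)) (.col (nat_lit 0))
def w218 : Root := .mk (.node (.node (.col (nat_lit 1)) .junk (.node (.col (nat_lit 3)) (.col (nat_lit 0)) (.slot (nat_lit 0)))) (.col (nat_lit 3)) (.col (nat_lit 0))) (.col (nat_lit 3)) (.node (.col (nat_lit 0)) (.slot (nat_lit 1)) .junk) (.col (nat_lit 2))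
def w219 : Root := .mk (.slot (nat_lit 0)) (.node (.col (nat_lit 3)) (.node (.col (nat_lit 0)) (.slot (nat_lit 1)) (.slot (nat_lit 1))) (.node (.col (nat_lit 0)) (.slot (nat_lit 1)) (.slot (nat_lit 1)))) (.col (nat_lit 3)) (.col (nat_lit 0))
def w220 : Root := .mk (.col (nat_lit 2)) (.col (nat_lit 3)) (.node (.col (nat_lit 0)) (.slot (nat_lit 1)) (.slot (nat_lit 1))) (.node (.col (nat_lit 1)) (.slot (nat_lit 1)) (.slot (nat_lit 0)))
def w221 : Root := .mk (.node (.col (nat_lit 1)) .junk (.node (.col (nat_lit 3)) (.col (nat_lit 0)) (.slot (nat_lit 0)))) (.node (.col (nat_lit 3)) (.node (.col (nat_lit 0)) (.slot (nat_lit 1)) (.slot (nat_lit 1))) (.node (.col (nat_lit 1)) (.slot (nat_lit 1)) (.slot (nat_lit 0)))) (.col (nat_lit 3)) (.col (nat_lit 0))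
def w222 : Root := .mk (.node (.col (nat_lit 1)) (.col (nat_lit 3)) (.node (.col (nat_lit 3)) (.col (nat_lit 0)) (.slot (nat_lit 1)))) (.node (.col (nat_lit 3)) (.node (.col (nat_lit 0)) (.slot (nat_lit 1)) (.slot (nat_lit 0))) (.node (.col (nat_lit 2)) (.slot (nat_lit 0)) (.slot (nat_lit 0)))) (.col (nat_lit 3)) (.col (nat_lit 0))
def w223 : Root := .mk (.node (.col (nat_lit 1)) (.col (nat_lit 3)) (.node (.col (nat_lit 3)) (.col (nat_lit 0)) (.slot (nat_lit 1)))) (.node (.col (nat_lit 3)) (.node (.col (nat_lit 0)) (.slot (nat_lit 1)) (.slot (nat_lit 0))) (.node (.col (nat_lit 3)) (.slot (nat_lit 0)) (.slot (nat_lit 0)))) (.col (nat_lit 3)) (.col (nat_lit 0))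
def l59 : Root := .mk (.node (.node (.col (nat_lit 1)) (.col (nat_lit 3)) (.node (.col (nat_lit 3)) (.col (nat_lit 0)) (.slot (nat_lit 0)))) (.col (nat_lit 3)) (.col (nat_lit 0))) (.col (nat_lit 3)) (.node (.col (nat_lit 0)) (.slot (nat_lit 1)) (.slot (nat_lit 1))) (.col (nat_lit 1))
def w224 : Root := .mk (.node (.col (nat_lit 1)) (.col (nat_lit 3)) (.node (.node (.col (nat_lit 3)) (.node (.col (nat_lit 0)) (.slot (nat_lit 1)) (.slot (nat_lit 1))) (.slot (nat_lit 1))) (.col (nat_lit 3)) (.col (nat_lit 0)))) (.col (nat_lit 3)) (.col (nat_lit 0)) (.slot (nat_lit 0))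
def w225 : Root := .mk (.node (.col (nat_lit 1)) .junk (.node (.col (nat_lit 3)) (.col (nat_lit 0)) (.slot (nat_lit 0)))) (.node (.col (nat_lit 3)) (.node (.col (nat_lit 0)) (.col (nat_lit 1)) .junk) (.slot (nat_lit 1))) (.col (nat_lit 3)) (.col (nat_lit 0))
def w226 : Root := .mk (.node (.col (nat_lit 1)) (.col (nat_lit 3)) (.slot (nat_lit 0))) (.node (.col (nat_lit 3)) (.node (.col (nat_lit 0)) (.col (nat_lit 2)) (.slot (nat_lit 1))) (.slot (nat_lit 1))) (.col (nat_lit 3)) (.col (nat_lit 0))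
def l60 : Root := .mk (.node (.node (.col (nat_lit 1)) (.col (nat_lit 3)) (.node (.col (nat_lit 3)) (.col (nat_lit 0)) (.slot (nat_lit 1)))) (.col (nat_lit 3)) (.col (nat_lit 0))) (.col (nat_lit 3)) (.node (.col (nat_lit 0)) (.col (nat_lit 3)) (.slot (nat_lit 1))) (.col (nat_lit 1))
def w227 : Root := .mk (.node (.col (nat_lit 1)) (.col (nat_lit 3)) (.node (.col (nat_lit 3)) (.col (nat_lit 0)) (.slot (nat_lit 1)))) (.node (.col (nat_lit 3)) (.node (.col (nat_lit 0)) (.col (nat_lit 3)) (.slot (nat_lit 1))) (.slot (nat_lit 1))) (.col (nat_lit 3)) (.col (nat_lit 0))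
def l61 : Root := .mk (.node (.col (nat_lit 1)) (.col (nat_lit 3)) (.node (.col (nat_lit 3)) (.col (nat_lit 0)) (.slot (nat_lit 2)))) (.node (.col (nat_lit 3)) (.node (.col (nat_lit 0)) (.slot (nat_lit 1)) (.slot (nat_lit 1))) (.slot (nat_lit 2))) (.col (nat_lit 3)) (.col (nat_lit 0))
def w228 : Root := .mk (.col (nat_lit 1)) (.col (nat_lit 3)) (.node (.node (.col (nat_lit 3)) (.node (.col (nat_lit 0)) (.slot (nat_lit 1)) (.slot (nat_lit 1))) (.slot (nat_lit 2))) (.col (nat_lit 3)) (.node (.slot (nat_lit 0)) (.slot (nat_lit 0)) (.slot (nat_lit 0)))) (.node (.col (nat_lit 3)) (.col (nat_lit 0)) (.slot (nat_lit 2)))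
def w229 : Root := .mk (.col (nat_lit 1)) (.col (nat_lit 3)) (.node (.node (.col (nat_lit 3)) (.node (.col (nat_lit 0)) (.slot (nat_lit 1)) (.slot (nat_lit 1))) (.slot (nat_lit 2))) (.col (nat_lit 3)) (.node (.slot (nat_lit 0)) (.slot (nat_lit 0)) (.slot (nat_lit 0)))) (.node (.col (nat_lit 3)) (.col (nat_lit 2)) (.slot (nat_lit 2)))
def w230 : Root := .mk (.col (nat_lit 0)) (.node (.col (nat_lit 3)) (.node (.col (nat_lit 0)) (.slot (nat_lit 1)) (.slot (nat_lit 1))) (.slot (nat_lit 1))) (.col (nat_lit 3)) (.node (.slot (nat_lit 0)) (.col (nat_lit 1)) (.slot (nat_lit 1)))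
def w233 : Root := .mk (.node (.col (nat_lit 1)) (.col (nat_lit 3)) (.node (.node (.col (nat_lit 1)) (.slot (nat_lit 0)) (.slot (nat_lit 0))) (.col (nat_lit 2)) .junk)) (.node .junk (.col (nat_lit 4)) (.slot (nat_lit 1))) (.col (nat_lit 3)) (.col (nat_lit 2))
def w234 : Root := .mk (.node (.col (nat_lit 1)) .junk (.node (.slot (nat_lit 0)) (.col (nat_lit 2)) (.col (nat_lit 1)))) (.node (.col (nat_lit 3)) (.node (.col (nat_lit 0)) (.col (nat_lit 2)) .junk) (.slot (nat_lit 1))) (.col (nat_lit 3)) (.col (nat_lit 2))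
def w235 : Root := .mk (.node (.node (.col (nat_lit 1)) .junk (.node (.slot (nat_lit 0)) (.col (nat_lit 2)) (.col (nat_lit 1)))) (.col (nat_lit 3)) (.col (nat_lit 2))) (.col (nat_lit 3)) (.node (.col (nat_lit 0)) .junk (.slot (nat_lit 1))) (.col (nat_lit 2))
def w236 : Root := .mk (.node (.col (nat_lit 1)) .junk (.node (.slot (nat_lit 0)) (.col (nat_lit 2)) (.col (nat_lit 1)))) (.node (.col (nat_lit 3)) (.node (.col (nat_lit 0)) (.col (nat_lit 2)) (.slot (nat_lit 1))) (.slot (nat_lit 0))) (.col (nat_lit 3)) (.col (nat_lit 2))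
def w239 : Root := .mk (.col (nat_lit 1)) (.col (nat_lit 3)) (.node (.node (.col (nat_lit 3)) (.slot (nat_lit 0)) (.slot (nat_lit 0))) (.col (nat_lit 3)) (.node (.col (nat_lit 0)) (.col (nat_lit 1)) (.slot (nat_lit 1)))) (.node (.slot (nat_lit 0)) (.col (nat_lit 2)) (.col (nat_lit 1)))
def w241 : Root := .mk (.col (nat_lit 0)) (.node (.col (nat_lit 3)) (.node (.col (nat_lit 0)) (.slot (nat_lit 1)) (.slot (nat_lit 1))) (.slot (nat_lit 1))) (.col (nat_lit 3)) (.node (.col (nat_lit 3)) (.col (nat_lit 1)) (.slot (nat_lit 1)))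
def w243 : Root := .mk (.col (nat_lit 1)) (.col (nat_lit 3)) (.node (.node (.col (nat_lit 3)) (.slot (nat_lit 0)) (.slot (nat_lit 0))) (.col (nat_lit 3)) (.node .junk (.col (nat_lit 1)) (.col (nat_lit 0)))) (.node (.node (.col (nat_lit 1)) (.slot (nat_lit 0)) (.slot (nat_lit 0))) (.col (nat_lit 2)) .junk)
def w245 : Root := .mk (.node (.col (nat_lit 1)) (.col (nat_lit 3)) (.node (.node (.col (nat_lit 3)) (.slot (nat_lit 0)) (.slot (nat_lit 0))) (.col (nat_lit 3)) (.node (.slot (nat_lit 0)) (.slot (nat_lit 0)) (.slot (nat_lit 0))))) (.node (.col (nat_lit 1)) (.node (.col (nat_lit 2)) (.slot (nat_lit 1)) (.slot (nat_lit 1))) (.slot (nat_lit 1))) (.col (nat_lit 2)) (.col (nat_lit 1))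
def w248 : Root := .mk (.node (.node .junk (.col (nat_lit 3)) (.node (.slot (nat_lit 0)) (.col (nat_lit 3)) (.slot (nat_lit 0)))) (.col (nat_lit 2)) (.col (nat_lit 1))) (.col (nat_lit 1)) (.node (.col (nat_lit 2)) (.slot (nat_lit 1)) .junk) (.col (nat_lit 0))
def w249 : Root := .mk (.col (nat_lit 1)) (.col (nat_lit 3)) (.node (.node (.col (nat_lit 3)) (.node (.col (nat_lit 0)) (.slot (nat_lit 1)) (.slot (nat_lit 1))) (.slot (nat_lit 2))) (.col (nat_lit 3)) (.node (.slot (nat_lit 0)) (.slot (nat_lit 0)) (.slot (nat_lit 0)))) (.node (.node (.col (nat_lit 1)) (.col (nat_lit 3)) (.slot (nat_lit 1))) (.slot (nat_lit 1)) (.slot (nat_lit 1)))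
def w250 : Root := .mk (.col (nat_lit 1)) (.col (nat_lit 3)) (.node (.node (.col (nat_lit 3)) (.node (.col (nat_lit 0)) (.slot (nat_lit 1)) (.slot (nat_lit 1))) (.slot (nat_lit 2))) (.col (nat_lit 3)) (.node (.slot (nat_lit 0)) (.slot (nat_lit 0)) (.slot (nat_lit 0)))) (.node (.col (nat_lit 0)) (.slot (nat_lit 1)) (.slot (nat_lit 1)))
def w251 : Root := .mk (.col (nat_lit 1)) (.col (nat_lit 3)) (.node (.node (.col (nat_lit 3)) (.node (.col (nat_lit 0)) (.slot (nat_lit 1)) (.slot (nat_lit 1))) (.slot (nat_lit 2))) (.col (nat_lit 3)) (.node (.slot (nat_lit 0)) (.slot (nat_lit 0)) (.slot (nat_lit 0)))) (.node (.col (nat_lit 2)) (.slot (nat_lit 1)) (.slot (nat_lit 1)))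
def w254 : Root := .mk (.col (nat_lit 1)) (.col (nat_lit 3)) (.node (.slot (nat_lit 0)) (.col (nat_lit 3)) (.slot (nat_lit 0))) (.node (.node (.col (nat_lit 1)) (.node (.col (nat_lit 0)) (.slot (nat_lit 1)) (.slot (nat_lit 0))) (.slot (nat_lit 1))) (.col (nat_lit 0)) (.slot (nat_lit 1)))
def l64 : Root := .mk (.node (.col (nat_lit 1)) (.col (nat_lit 3)) (.node (.slot (nat_lit 0)) (.col (nat_lit 3)) (.slot (nat_lit 0)))) (.node (.col (nat_lit 1)) (.slot (nat_lit 0)) (.slot (nat_lit 1))) (.col (nat_lit 0)) (.col (nat_lit 2))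
def w255 : Root := .mk (.col (nat_lit 1)) (.col (nat_lit 3)) (.node (.slot (nat_lit 0)) (.col (nat_lit 3)) (.slot (nat_lit 0))) (.node (.node (.col (nat_lit 1)) (.slot (nat_lit 0)) (.slot (nat_lit 1))) (.col (nat_lit 0)) (.node (.col (nat_lit 0)) (.slot (nat_lit 0)) (.slot (nat_lit 0))))
def w256 : Root := .mk (.col (nat_lit 1)) (.col (nat_lit 3)) (.node (.slot (nat_lit 0)) (.col (nat_lit 3)) (.slot (nat_lit 0))) (.node (.node (.col (nat_lit 1)) (.slot (nat_lit 0)) (.slot (nat_lit 0))) (.col (nat_lit 0)) (.node (.col (nat_lit 1)) (.slot (nat_lit 1)) (.slot (nat_lit 0))))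
def w257 : Root := .mk (.col (nat_lit 1)) (.col (nat_lit 3)) (.node (.slot (nat_lit 0)) (.col (nat_lit 3)) (.slot (nat_lit 0))) (.node (.node (.col (nat_lit 1)) (.slot (nat_lit 0)) (.slot (nat_lit 1))) (.col (nat_lit 0)) (.node (.col (nat_lit 2)) (.slot (nat_lit 0)) (.slot (nat_lit 0))))
def w258 : Root := .mk (.col (nat_lit 1)) (.col (nat_lit 3)) (.node (.slot (nat_lit 0)) (.col (nat_lit 3)) (.slot (nat_lit 0))) (.node (.node (.col (nat_lit 1)) (.slot (nat_lit 0)) (.slot (nat_lit 0))) (.col (nat_lit 0)) (.node (.col (nat_lit 3)) (.slot (nat_lit 1)) (.slot (nat_lit 0))))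
def w259 : Root := .mk (.col (nat_lit 1)) (.col (nat_lit 3)) (.col (nat_lit 0)) (.node (.node (.col (nat_lit 1)) (.node (.col (nat_lit 0)) (.slot (nat_lit 0)) (.slot (nat_lit 0))) (.slot (nat_lit 3))) (.col (nat_lit 0)) (.slot (nat_lit 1)))
def l65 : Root := .mk (.node (.col (nat_lit 1)) (.col (nat_lit 3)) (.node (.slot (nat_lit 0)) (.col (nat_lit 3)) (.slot (nat_lit 0)))) (.node (.col (nat_lit 1)) (.node (.col (nat_lit 0)) (.slot (nat_lit 0)) (.slot (nat_lit 0))) (.col (nat_lit 0))) (.col (nat_lit 0)) (.col (nat_lit 2))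
def w260 : Root := .mk (.node (.node (.col (nat_lit 1)) (.col (nat_lit 3)) (.node (.slot (nat_lit 0)) (.col (nat_lit 3)) (.slot (nat_lit 0)))) (.col (nat_lit 0)) (.slot (nat_lit 1))) (.col (nat_lit 1)) (.node (.col (nat_lit 0)) (.slot (nat_lit 0)) (.slot (nat_lit 0))) (.col (nat_lit 0))
def w261 : Root := .mk (.node (.slot (nat_lit 0)) (.col (nat_lit 0)) (.slot (nat_lit 0))) (.col (nat_lit 1)) (.node (.col (nat_lit 0)) (.slot (nat_lit 1)) (.slot (nat_lit 1))) (.node (.col (nat_lit 0)) (.slot (nat_lit 1)) (.slot (nat_lit 1)))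
def l66 : Root := .mk (.node (.col (nat_lit 1)) (.col (nat_lit 3)) (.node (.slot (nat_lit 0)) (.col (nat_lit 3)) (.slot (nat_lit 0)))) (.node (.col (nat_lit 1)) (.node (.col (nat_lit 0)) (.slot (nat_lit 0)) (.slot (nat_lit 0))) (.slot (nat_lit 0))) (.col (nat_lit 0)) (.col (nat_lit 2))
def w262 : Root := .mk (.col (nat_lit 1)) (.col (nat_lit 3)) (.node (.slot (nat_lit 0)) (.col (nat_lit 3)) (.slot (nat_lit 0))) (.node (.node (.col (nat_lit 1)) (.node (.col (nat_lit 0)) (.slot (nat_lit 0)) (.slot (nat_lit 0))) (.slot (nat_lit 0))) (.col (nat_lit 0)) (.slot (nat_lit 1)))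
def w263 : Root := .mk (.node (.col (nat_lit 1)) (.col (nat_lit 3)) (.node (.node (.col (nat_lit 1)) (.slot (nat_lit 0)) (.slot (nat_lit 1))) (.col (nat_lit 0)) (.slot (nat_lit 1)))) (.col (nat_lit 1)) (.col (nat_lit 3)) (.slot (nat_lit 0))
def w264 : Root := .mk (.node (.col (nat_lit 1)) (.col (nat_lit 3)) (.node (.node (.col (nat_lit 1)) (.slot (nat_lit 0)) (.slot (nat_lit 0))) (.col (nat_lit 0)) (.slot (nat_lit 1)))) (.col (nat_lit 2)) (.col (nat_lit 3)) (.node (.slot (nat_lit 0)) (.slot (nat_lit 0)) (.slot (nat_lit 0)))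
def w265 : Root := .mk (.node (.col (nat_lit 1)) (.col (nat_lit 3)) (.node (.node (.col (nat_lit 1)) (.slot (nat_lit 0)) (.slot (nat_lit 0))) (.col (nat_lit 0)) (.slot (nat_lit 1)))) (.node (.col (nat_lit 3)) (.slot (nat_lit 0)) (.slot (nat_lit 0))) (.col (nat_lit 3)) (.col (nat_lit 0))
def w266 : Root := .mk (.node (.col (nat_lit 1)) (.col (nat_lit 3)) (.node (.node (.col (nat_lit 1)) (.slot (nat_lit 0)) (.slot (nat_lit 0))) (.col (nat_lit 0)) (.slot (nat_lit 1)))) (.node (.col (nat_lit 3)) (.slot (nat_lit 0)) (.slot (nat_lit 0))) (.col (nat_lit 3)) (.col (nat_lit 2))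
def w267 : Root := .mk (.col (nat_lit 1)) (.col (nat_lit 3)) (.node (.slot (nat_lit 0)) (.col (nat_lit 3)) (.slot (nat_lit 0))) (.node (.node (.col (nat_lit 1)) (.slot (nat_lit 0)) (.slot (nat_lit 1))) (.col (nat_lit 0)) (.slot (nat_lit 1)))
def l67 : Root := .mk (.col (nat_lit 1)) (.col (nat_lit 3)) (.node (.node (.col (nat_lit 3)) (.slot (nat_lit 0)) (.slot (nat_lit 0))) (.col (nat_lit 3)) (.node (.slot (nat_lit 0)) (.slot (nat_lit 0)) (.slot (nat_lit 0)))) (.node (.node (.col (nat_lit 1)) (.node (.col (nat_lit 0)) (.slot (nat_lit 1)) (.slot (nat_lit 1))) (.slot (nat_lit 3))) (.col (nat_lit 0)) (.slot (nat_lit 2)))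
def w268 : Root := .mk (.col (nat_lit 1)) (.col (nat_lit 3)) (.node (.node (.col (nat_lit 3)) (.slot (nat_lit 0)) (.slot (nat_lit 0))) (.col (nat_lit 3)) (.node (.slot (nat_lit 0)) (.slot (nat_lit 0)) (.slot (nat_lit 0)))) (.node (.node (.col (nat_lit 1)) (.node (.col (nat_lit 0)) (.slot (nat_lit 1)) (.slot (nat_lit 1))) (.slot (nat_lit 3))) (.slot (nat_lit 1)) (.slot (nat_lit 2)))
def w269 : Root := .mk (.col (nat_lit 1)) (.col (nat_lit 3)) (.node (.node (.col (nat_lit 3)) (.node (.col (nat_lit 0)) (.slot (nat_lit 1)) (.slot (nat_lit 1))) (.slot (nat_lit 2))) (.col (nat_lit 3)) (.node (.slot (nat_lit 0)) (.slot (nat_lit 0)) (.slot (nat_lit 0)))) (.node (.node (.col (nat_lit 1)) (.col (nat_lit 2)) (.slot (nat_lit 1))) (.slot (nat_lit 1)) (.slot (nat_lit 1)))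
def w270 : Root := .mk (.node (.col (nat_lit 1)) (.col (nat_lit 3)) (.node (.node (.col (nat_lit 1)) (.node (.col (nat_lit 0)) (.slot (nat_lit 0)) (.slot (nat_lit 0))) (.col (nat_lit 0))) (.slot (nat_lit 1)) (.slot (nat_lit 1)))) (.col (nat_lit 2)) (.col (nat_lit 3)) (.node (.slot (nat_lit 0)) (.slot (nat_lit 0)) (.slot (nat_lit 0)))
def w274 : Root := .mk (.node (.col (nat_lit 1)) (.col (nat_lit 3)) (.node (.node (.col (nat_lit 1)) (.node (.col (nat_lit 0)) (.slot (nat_lit 1)) (.slot (nat_lit 1))) (.node (.col (nat_lit 2)) (.slot (nat_lit 1)) (.slot (nat_lit 0)))) (.slot (nat_lit 1)) (.slot (nat_lit 1)))) (.col (nat_lit 2)) (.col (nat_lit 3)) (.node (.slot (nat_lit 0)) (.slot (nat_lit 0)) (.slot (nat_lit 0)))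
def w275 : Root := .mk (.col (nat_lit 1)) (.col (nat_lit 3)) (.node (.node (.col (nat_lit 3)) (.node (.col (nat_lit 0)) (.slot (nat_lit 1)) (.slot (nat_lit 1))) (.slot (nat_lit 2))) (.col (nat_lit 3)) (.node (.slot (nat_lit 0)) (.slot (nat_lit 0)) (.slot (nat_lit 0)))) (.node (.node (.col (nat_lit 1)) (.node (.col (nat_lit 0)) (.slot (nat_lit 1)) (.slot (nat_lit 1))) (.node (.col (nat_lit 2)) (.slot (nat_lit 1)) (.slot (nat_lit 0)))) (.slot (nat_lit 1)) (.slot (nat_lit 1)))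
def w276 : Root := .mk (.node (.col (nat_lit 1)) (.col (nat_lit 3)) (.node (.node (.col (nat_lit 1)) (.node (.col (nat_lit 0)) (.slot (nat_lit 1)) (.slot (nat_lit 1))) (.node (.col (nat_lit 3)) (.slot (nat_lit 1)) (.slot (nat_lit 0)))) (.slot (nat_lit 1)) (.slot (nat_lit 1)))) (.col (nat_lit 2)) (.col (nat_lit 3)) (.node (.slot (nat_lit 0)) (.slot (nat_lit 0)) (.slot (nat_lit 0)))
def l68 : Root := .mk (.col (nat_lit 1)) (.col (nat_lit 3)) (.col (nat_lit 0)) (.node (.node (.col (nat_lit 1)) (.node (.col (nat_lit 0)) (.col (nat_lit 4)) (.slot (nat_lit 1))) (.col (nat_lit 2))) (.col (nat_lit 0)) (.col (nat_lit 1)))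
def w278 : Root := .mk (.col (nat_lit 1)) (.col (nat_lit 3)) (.col (nat_lit 0)) (.node (.node (.col (nat_lit 1)) (.node (.col (nat_lit 0)) (.slot (nat_lit 1)) (.slot (nat_lit 1))) (.col (nat_lit 2))) (.col (nat_lit 0)) (.col (nat_lit 1)))
def w279 : Root := .mk (.col (nat_lit 1)) (.col (nat_lit 3)) (.col (nat_lit 0)) (.node (.node (.col (nat_lit 1)) (.node (.col (nat_lit 0)) (.slot (nat_lit 0)) (.slot (nat_lit 0))) (.col (nat_lit 2))) (.col (nat_lit 0)) (.node (.col (nat_lit 1)) (.slot (nat_lit 1)) (.slot (nat_lit 0))))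
def w280 : Root := .mk (.col (nat_lit 1)) (.col (nat_lit 3)) (.col (nat_lit 0)) (.node (.node (.col (nat_lit 1)) (.node (.col (nat_lit 0)) (.slot (nat_lit 0)) (.slot (nat_lit 0))) (.col (nat_lit 2))) (.col (nat_lit 0)) (.node (.col (nat_lit 2)) (.slot (nat_lit 1)) (.slot (nat_lit 0))))
def w281 : Root := .mk (.node (.slot (nat_lit 0)) (.col (nat_lit 0)) (.slot (nat_lit 1))) (.col (nat_lit 1)) (.node (.col (nat_lit 0)) (.col (nat_lit 1)) (.slot (nat_lit 2))) (.col (nat_lit 2))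
def l69 : Root := .mk (.col (nat_lit 1)) (.col (nat_lit 3)) (.col (nat_lit 0)) (.node (.node (.col (nat_lit 1)) (.node (.col (nat_lit 0)) (.slot (nat_lit 2)) (.slot (nat_lit 2))) (.col (nat_lit 2))) (.col (nat_lit 0)) (.slot (nat_lit 2)))
def w282 : Root := .mk (.col (nat_lit 1)) (.col (nat_lit 3)) (.col (nat_lit 0)) (.node (.node (.col (nat_lit 1)) (.node (.col (nat_lit 0)) (.slot (nat_lit 2)) (.slot (nat_lit 2))) (.node (.slot (nat_lit 0)) (.slot (nat_lit 0)) (.slot (nat_lit 0)))) (.col (nat_lit 0)) (.slot (nat_lit 2)))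
def w284 : Root := .mk (.node (.col (nat_lit 0)) (.slot (nat_lit 1)) (.slot (nat_lit 1))) (.col (nat_lit 1)) (.node (.col (nat_lit 0)) (.slot (nat_lit 1)) (.slot (nat_lit 1))) (.slot (nat_lit 1))
def w287 : Root := .mk (.col (nat_lit 1)) (.col (nat_lit 3)) (.node (.col (nat_lit 2)) .junk (.node (.slot (nat_lit 0)) (.slot (nat_lit 0)) (.slot (nat_lit 0)))) (.node (.node (.col (nat_lit 1)) (.node (.col (nat_lit 0)) (.slot (nat_lit 1)) (.slot (nat_lit 0))) (.slot (nat_lit 1))) (.col (nat_lit 3)) (.slot (nat_lit 1)))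
def w289 : Root := .mk (.col (nat_lit 1)) (.col (nat_lit 3)) (.col (nat_lit 0)) (.node (.node (.col (nat_lit 1)) (.node (.col (nat_lit 0)) (.slot (nat_lit 1)) (.slot (nat_lit 0))) (.col (nat_lit 2))) (.node (.col (nat_lit 0)) (.col (nat_lit 1)) (.slot (nat_lit 0))) (.col (nat_lit 0)))
def w290 : Root := .mk (.col (nat_lit 1)) (.col (nat_lit 3)) (.col (nat_lit 0)) (.node (.node (.col (nat_lit 1)) (.node (.col (nat_lit 0)) (.slot (nat_lit 1)) (.slot (nat_lit 0))) (.col (nat_lit 2))) (.node (.col (nat_lit 0)) (.col (nat_lit 2)) (.slot (nat_lit 0))) (.col (nat_lit 0)))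
def w291 : Root := .mk (.node (.node (.col (nat_lit 1)) (.col (nat_lit 3)) .junk) (.node (.col (nat_lit 0)) (.col (nat_lit 3)) (.slot (nat_lit 0))) (.col (nat_lit 0))) (.col (nat_lit 1)) (.node (.col (nat_lit 0)) (.slot (nat_lit 1)) .junk) (.col (nat_lit 2))
def w292 : Root := .mk (.col (nat_lit 1)) (.col (nat_lit 3)) (.col (nat_lit 0)) (.node (.node (.col (nat_lit 1)) (.node (.col (nat_lit 0)) (.slot (nat_lit 1)) (.slot (nat_lit 0))) (.col (nat_lit 2))) (.node (.col (nat_lit 0)) (.col (nat_lit 4)) (.slot (nat_lit 0))) (.col (nat_lit 0)))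
def l71 : Root := .mk (.col (nat_lit 1)) (.col (nat_lit 3)) (.col (nat_lit 0)) (.node (.node (.col (nat_lit 1)) (.node (.col (nat_lit 0)) (.slot (nat_lit 1)) (.slot (nat_lit 1))) (.col (nat_lit 2))) (.node (.col (nat_lit 0)) (.slot (nat_lit 0)) (.slot (nat_lit 0))) (.col (nat_lit 0)))
def w293 : Root := .mk (.col (nat_lit 1)) (.col (nat_lit 3)) (.col (nat_lit 0)) (.node (.node (.col (nat_lit 1)) (.node (.col (nat_lit 0)) (.slot (nat_lit 1)) (.slot (nat_lit 1))) (.slot (nat_lit 1))) (.node (.col (nat_lit 0)) (.slot (nat_lit 0)) (.slot (nat_lit 0))) (.col (nat_lit 0)))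
def w294 : Root := .mk (.col (nat_lit 1)) (.col (nat_lit 3)) (.node (.slot (nat_lit 0)) (.col (nat_lit 3)) (.slot (nat_lit 0))) (.node (.node (.col (nat_lit 1)) (.col (nat_lit 2)) (.slot (nat_lit 1))) (.node (.col (nat_lit 0)) (.slot (nat_lit 0)) (.slot (nat_lit 0))) (.col (nat_lit 0)))
def w295 : Root := .mk (.node (.node (.col (nat_lit 1)) (.col (nat_lit 3)) (.node (.slot (nat_lit 0)) (.col (nat_lit 3)) (.slot (nat_lit 0)))) (.node (.col (nat_lit 0)) (.slot (nat_lit 0)) (.slot (nat_lit 0))) (.col (nat_lit 0))) (.col (nat_lit 1)) (.node (.col (nat_lit 0)) (.slot (nat_lit 0)) (.slot (nat_lit 0))) (.col (nat_lit 0))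
def w296 : Root := .mk (.col (nat_lit 1)) (.col (nat_lit 3)) (.node (.slot (nat_lit 0)) (.col (nat_lit 3)) (.slot (nat_lit 0))) (.node (.node (.col (nat_lit 1)) (.node (.col (nat_lit 0)) (.slot (nat_lit 0)) (.slot (nat_lit 0))) (.slot (nat_lit 0))) (.node (.col (nat_lit 0)) (.slot (nat_lit 0)) (.slot (nat_lit 0))) (.col (nat_lit 0)))
def w297 : Root := .mk (.col (nat_lit 1)) (.col (nat_lit 3)) (.node (.slot (nat_lit 0)) (.col (nat_lit 3)) (.slot (nat_lit 0))) (.node (.node (.col (nat_lit 1)) (.node (.col (nat_lit 0)) (.slot (nat_lit 0)) (.slot (nat_lit 0))) (.slot (nat_lit 0))) (.node (.col (nat_lit 0)) (.col (nat_lit 1)) (.slot (nat_lit 0))) (.col (nat_lit 0)))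
def w298 : Root := .mk (.col (nat_lit 1)) (.col (nat_lit 3)) (.node (.slot (nat_lit 0)) (.col (nat_lit 3)) (.slot (nat_lit 0))) (.node (.node (.col (nat_lit 1)) (.node (.col (nat_lit 0)) (.slot (nat_lit 0)) (.slot (nat_lit 0))) (.slot (nat_lit 0))) (.node (.col (nat_lit 0)) (.col (nat_lit 2)) (.slot (nat_lit 0))) (.col (nat_lit 0)))
def w299 : Root := .mk (.col (nat_lit 1)) (.col (nat_lit 3)) (.node (.slot (nat_lit 0)) (.col (nat_lit 3)) (.slot (nat_lit 0))) (.node (.node (.col (nat_lit 1)) (.node (.col (nat_lit 0)) (.slot (nat_lit 0)) (.slot (nat_lit 0))) (.slot (nat_lit 0))) (.node (.col (nat_lit 0)) (.col (nat_lit 3)) (.slot (nat_lit 0))) (.col (nat_lit 0)))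
def w300 : Root := .mk (.node (.col (nat_lit 1)) (.col (nat_lit 3)) (.node (.node (.col (nat_lit 1)) (.node (.col (nat_lit 0)) (.slot (nat_lit 2)) (.slot (nat_lit 1))) (.slot (nat_lit 2))) (.node (.col (nat_lit 0)) (.slot (nat_lit 1)) (.slot (nat_lit 1))) (.col (nat_lit 0)))) (.col (nat_lit 0)) (.col (nat_lit 3)) (.node (.slot (nat_lit 0)) (.slot (nat_lit 0)) (.slot (nat_lit 0)))
def w301 : Root := .mk (.node (.col (nat_lit 1)) (.col (nat_lit 3)) (.node (.node (.col (nat_lit 1)) (.slot (nat_lit 0)) (.slot (nat_lit 1))) (.node (.col (nat_lit 0)) (.slot (nat_lit 0)) (.slot (nat_lit 0))) (.col (nat_lit 0)))) (.col (nat_lit 1)) (.col (nat_lit 3)) (.slot (nat_lit 0))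
def l72 : Root := .mk (.node (.col (nat_lit 1)) (.col (nat_lit 3)) (.node (.col (nat_lit 2)) (.col (nat_lit 3)) (.node (.slot (nat_lit 0)) (.slot (nat_lit 0)) (.slot (nat_lit 0))))) (.col (nat_lit 2)) (.node (.col (nat_lit 0)) (.slot (nat_lit 0)) (.slot (nat_lit 0))) (.col (nat_lit 0))
def w302 : Root := .mk (.node (.col (nat_lit 1)) (.col (nat_lit 3)) (.node (.node (.col (nat_lit 1)) (.slot (nat_lit 0)) (.slot (nat_lit 0))) (.node (.col (nat_lit 0)) (.slot (nat_lit 0)) (.slot (nat_lit 0))) (.col (nat_lit 0)))) (.col (nat_lit 2)) (.col (nat_lit 3)) (.node (.slot (nat_lit 0)) (.slot (nat_lit 0)) (.slot (nat_lit 0)))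
def w303 : Root := .mk (.node (.col (nat_lit 1)) (.col (nat_lit 3)) (.node (.node (.col (nat_lit 1)) (.node (.col (nat_lit 0)) (.slot (nat_lit 2)) (.slot (nat_lit 1))) (.slot (nat_lit 2))) (.node (.col (nat_lit 0)) (.slot (nat_lit 1)) (.slot (nat_lit 1))) (.col (nat_lit 0)))) (.node (.col (nat_lit 3)) (.slot (nat_lit 0)) (.slot (nat_lit 0))) (.col (nat_lit 3)) (.col (nat_lit 0))
def w304 : Root := .mk (.node (.col (nat_lit 1)) (.col (nat_lit 3)) (.node (.node (.col (nat_lit 1)) (.slot (nat_lit 0)) (.slot (nat_lit 0))) (.node (.col (nat_lit 0)) (.slot (nat_lit 0)) (.slot (nat_lit 0))) (.col (nat_lit 0)))) (.node (.col (nat_lit 3)) (.slot (nat_lit 0)) (.slot (nat_lit 0))) (.col (nat_lit 3)) (.col (nat_lit 2))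
def l73 : Root := .mk (.col (nat_lit 1)) (.col (nat_lit 3)) (.node (.node (.col (nat_lit 3)) (.slot (nat_lit 0)) (.slot (nat_lit 0))) (.col (nat_lit 3)) (.node (.slot (nat_lit 0)) (.slot (nat_lit 0)) (.slot (nat_lit 0)))) (.node (.node (.col (nat_lit 1)) (.node (.col (nat_lit 0)) (.slot (nat_lit 2)) (.slot (nat_lit 1))) (.slot (nat_lit 2))) (.node (.col (nat_lit 0)) (.slot (nat_lit 1)) (.slot (nat_lit 1))) (.col (nat_lit 0)))
def w305 : Root := .mk (.col (nat_lit 1)) (.col (nat_lit 3)) (.node (.node (.col (nat_lit 3)) (.slot (nat_lit 0)) (.slot (nat_lit 0))) (.col (nat_lit 3)) (.node (.slot (nat_lit 0)) (.slot (nat_lit 0)) (.slot (nat_lit 0)))) (.node (.node (.col (nat_lit 1)) (.node (.col (nat_lit 0)) (.slot (nat_lit 2)) (.slot (nat_lit 1))) (.slot (nat_lit 2))) (.node (.col (nat_lit 0)) (.slot (nat_lit 1)) (.slot (nat_lit 1))) (.slot (nat_lit 1)))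
def w306 : Root := .mk (.col (nat_lit 1)) (.col (nat_lit 3)) (.node (.node (.col (nat_lit 3)) (.slot (nat_lit 0)) (.slot (nat_lit 0))) (.col (nat_lit 3)) (.node (.slot (nat_lit 0)) (.slot (nat_lit 0)) (.slot (nat_lit 0)))) (.node (.node (.col (nat_lit 1)) (.node (.col (nat_lit 0)) (.slot (nat_lit 1)) (.slot (nat_lit 1))) (.slot (nat_lit 3))) (.node (.col (nat_lit 1)) (.slot (nat_lit 0)) (.slot (nat_lit 0))) (.slot (nat_lit 2)))
def w307 : Root := .mk (.col (nat_lit 1)) (.col (nat_lit 3)) (.node (.node (.col (nat_lit 3)) (.slot (nat_lit 0)) (.slot (nat_lit 0))) (.col (nat_lit 3)) (.node (.slot (nat_lit 0)) (.slot (nat_lit 0)) (.slot (nat_lit 0)))) (.node (.node (.col (nat_lit 1)) (.node (.col (nat_lit 0)) (.slot (nat_lit 1)) (.slot (nat_lit 1))) (.slot (nat_lit 3))) (.node (.col (nat_lit 2)) (.slot (nat_lit 0)) (.slot (nat_lit 0))) (.slot (nat_lit 2)))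
def w308 : Root := .mk (.col (nat_lit 1)) (.col (nat_lit 3)) (.node (.node (.col (nat_lit 3)) (.slot (nat_lit 0)) (.slot (nat_lit 0))) (.col (nat_lit 3)) (.node (.slot (nat_lit 0)) (.slot (nat_lit 0)) (.slot (nat_lit 0)))) (.node (.node (.col (nat_lit 1)) (.node (.col (nat_lit 0)) (.slot (nat_lit 1)) (.slot (nat_lit 1))) (.slot (nat_lit 3))) (.node (.col (nat_lit 3)) (.slot (nat_lit 0)) (.slot (nat_lit 0))) (.slot (nat_lit 2)))
def w309 : Root := .mk (.col (nat_lit 1)) (.col (nat_lit 3)) (.node (.node (.col (nat_lit 3)) (.node (.col (nat_lit 0)) (.slot (nat_lit 1)) (.slot (nat_lit 1))) (.slot (nat_lit 2))) (.col (nat_lit 3)) (.node (.slot (nat_lit 0)) (.slot (nat_lit 0)) (.slot (nat_lit 0)))) (.node (.node (.col (nat_lit 1)) (.col (nat_lit 0)) (.slot (nat_lit 1))) (.slot (nat_lit 1)) (.slot (nat_lit 1)))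
def w310 : Root := .mk (.node (.node (.col (nat_lit 1)) (.col (nat_lit 3)) (.node (.node (.col (nat_lit 3)) (.node (.col (nat_lit 0)) (.slot (nat_lit 1)) (.slot (nat_lit 1))) (.slot (nat_lit 2))) (.col (nat_lit 3)) (.node (.slot (nat_lit 0)) (.slot (nat_lit 0)) (.slot (nat_lit 0))))) (.slot (nat_lit 1)) (.slot (nat_lit 1))) (.col (nat_lit 1)) (.node (.col (nat_lit 2)) (.slot (nat_lit 0)) (.slot (nat_lit 0))) (.col (nat_lit 2))
def w311 : Root := .mk (.col (nat_lit 1)) (.col (nat_lit 3)) (.node (.node (.col (nat_lit 3)) (.node (.col (nat_lit 0)) (.slot (nat_lit 1)) (.slot (nat_lit 1))) (.slot (nat_lit 2))) (.col (nat_lit 3)) (.node (.slot (nat_lit 0)) (.slot (nat_lit 0)) (.slot (nat_lit 0)))) (.node (.node (.col (nat_lit 1)) (.node (.col (nat_lit 2)) (.slot (nat_lit 1)) (.slot (nat_lit 1))) (.node (.col (nat_lit 1)) (.slot (nat_lit 0)) (.slot (nat_lit 0)))) (.slot (nat_lit 1)) (.slot (nat_lit 1)))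
def w312 : Root := .mk (.col (nat_lit 1)) (.col (nat_lit 3)) (.node (.node (.col (nat_lit 3)) (.node (.col (nat_lit 0)) (.slot (nat_lit 1)) (.slot (nat_lit 1))) (.slot (nat_lit 2))) (.col (nat_lit 3)) (.node (.slot (nat_lit 0)) (.slot (nat_lit 0)) (.slot (nat_lit 0)))) (.node (.node (.col (nat_lit 1)) (.node (.col (nat_lit 2)) (.slot (nat_lit 1)) (.slot (nat_lit 1))) (.node (.col (nat_lit 3)) (.slot (nat_lit 1)) (.slot (nat_lit 0)))) (.slot (nat_lit 1)) (.slot (nat_lit 1)))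
def w313 : Root := .mk (.col (nat_lit 1)) (.col (nat_lit 3)) (.node (.node (.col (nat_lit 3)) (.node (.col (nat_lit 0)) (.slot (nat_lit 1)) (.slot (nat_lit 1))) (.slot (nat_lit 2))) (.col (nat_lit 3)) (.node (.slot (nat_lit 0)) (.slot (nat_lit 0)) (.slot (nat_lit 0)))) (.node (.node (.col (nat_lit 1)) (.node (.col (nat_lit 2)) (.slot (nat_lit 1)) (.slot (nat_lit 1))) (.node (.col (nat_lit 4)) (.slot (nat_lit 1)) (.slot (nat_lit 0)))) (.slot (nat_lit 1)) (.slot (nat_lit 1)))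
def l74 : Root := .mk (.col (nat_lit 1)) (.col (nat_lit 3)) (.node (.node (.col (nat_lit 3)) (.node (.col (nat_lit 0)) (.slot (nat_lit 1)) (.slot (nat_lit 1))) (.slot (nat_lit 2))) (.col (nat_lit 3)) (.node (.slot (nat_lit 0)) (.slot (nat_lit 0)) (.slot (nat_lit 0)))) (.node (.node (.col (nat_lit 1)) (.node (.col (nat_lit 2)) (.slot (nat_lit 2)) (.slot (nat_lit 2))) (.node (.slot (nat_lit 0)) (.slot (nat_lit 0)) (.slot (nat_lit 0)))) (.col (nat_lit 2)) (.slot (nat_lit 2)))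
def w314 : Root := .mk (.col (nat_lit 1)) (.col (nat_lit 3)) (.node (.node (.col (nat_lit 3)) (.node (.col (nat_lit 0)) (.slot (nat_lit 1)) (.slot (nat_lit 1))) (.slot (nat_lit 2))) (.col (nat_lit 3)) (.node (.slot (nat_lit 0)) (.slot (nat_lit 0)) (.slot (nat_lit 0)))) (.node (.node (.col (nat_lit 1)) (.node (.col (nat_lit 2)) (.slot (nat_lit 2)) (.slot (nat_lit 2))) (.node (.slot (nat_lit 0)) (.slot (nat_lit 0)) (.slot (nat_lit 0)))) (.slot (nat_lit 1)) (.slot (nat_lit 2)))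
def l75 : Root := .mk (.node (.col (nat_lit 1)) (.col (nat_lit 3)) (.node (.node (.col (nat_lit 3)) (.slot (nat_lit 0)) (.col (nat_lit 0))) (.col (nat_lit 3)) (.col (nat_lit 0)))) (.col (nat_lit 0)) (.col (nat_lit 1)) (.node (.col (nat_lit 3)) (.slot (nat_lit 1)) (.slot (nat_lit 1)))
def w315 : Root := .mk (.node (.node (.col (nat_lit 1)) (.col (nat_lit 3)) (.node (.col (nat_lit 0)) (.col (nat_lit 1)) (.slot (nat_lit 2)))) (.col (nat_lit 3)) (.col (nat_lit 0))) (.col (nat_lit 3)) (.slot (nat_lit 0)) (.col (nat_lit 0))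
def w316 : Root := .mk (.node (.col (nat_lit 1)) .junk (.node (.col (nat_lit 0)) (.col (nat_lit 1)) (.slot (nat_lit 0)))) (.node (.col (nat_lit 3)) (.node (.col (nat_lit 0)) (.slot (nat_lit 1)) (.slot (nat_lit 1))) (.node (.col (nat_lit 1)) (.slot (nat_lit 1)) (.slot (nat_lit 0)))) (.col (nat_lit 3)) (.col (nat_lit 0))
def w317 : Root := .mk (.node (.col (nat_lit 1)) (.col (nat_lit 3)) (.node (.col (nat_lit 0)) (.col (nat_lit 1)) (.slot (nat_lit 0)))) (.node (.col (nat_lit 3)) (.node (.col (nat_lit 0)) (.slot (nat_lit 1)) (.slot (nat_lit 1))) (.node (.col (nat_lit 2)) (.slot (nat_lit 0)) (.slot (nat_lit 0)))) (.col (nat_lit 3)) (.col (nat_lit 0))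
def w318 : Root := .mk (.node (.col (nat_lit 1)) (.col (nat_lit 3)) (.node (.col (nat_lit 0)) (.col (nat_lit 1)) (.slot (nat_lit 0)))) (.node (.col (nat_lit 3)) (.node (.col (nat_lit 0)) (.slot (nat_lit 1)) (.slot (nat_lit 1))) (.node (.col (nat_lit 3)) (.slot (nat_lit 0)) (.slot (nat_lit 0)))) (.col (nat_lit 3)) (.col (nat_lit 0))
def w319 : Root := .mk (.node (.col (nat_lit 1)) .junk (.node (.col (nat_lit 0)) (.col (nat_lit 1)) (.slot (nat_lit 0)))) (.node (.col (nat_lit 3)) (.node (.col (nat_lit 0)) (.col (nat_lit 1)) .junk) (.slot (nat_lit 1))) (.col (nat_lit 3)) (.col (nat_lit 0))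
def l76 : Root := .mk (.node (.node (.col (nat_lit 1)) (.col (nat_lit 3)) (.node (.col (nat_lit 0)) (.col (nat_lit 1)) (.slot (nat_lit 1)))) (.col (nat_lit 3)) (.col (nat_lit 0))) (.col (nat_lit 3)) (.node (.col (nat_lit 0)) (.col (nat_lit 3)) (.slot (nat_lit 1))) (.col (nat_lit 1))
def w320 : Root := .mk (.node (.col (nat_lit 1)) (.col (nat_lit 3)) (.node (.col (nat_lit 0)) (.col (nat_lit 1)) (.slot (nat_lit 1)))) (.node (.col (nat_lit 3)) (.node (.col (nat_lit 0)) (.col (nat_lit 3)) (.slot (nat_lit 1))) (.slot (nat_lit 1))) (.col (nat_lit 3)) (.col (nat_lit 0))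
def l77 : Root := .mk (.node (.col (nat_lit 1)) (.col (nat_lit 3)) (.node (.col (nat_lit 0)) (.col (nat_lit 1)) (.slot (nat_lit 1)))) (.node (.col (nat_lit 3)) (.node (.col (nat_lit 0)) (.col (nat_lit 2)) (.slot (nat_lit 1))) (.slot (nat_lit 1))) (.col (nat_lit 3)) (.col (nat_lit 0))
def w321 : Root := .mk (.node (.col (nat_lit 1)) (.col (nat_lit 3)) (.node (.col (nat_lit 0)) (.col (nat_lit 1)) (.slot (nat_lit 1)))) (.node (.col (nat_lit 3)) (.node (.col (nat_lit 0)) (.node (.col (nat_lit 0)) (.slot (nat_lit 0)) (.slot (nat_lit 0))) (.slot (nat_lit 1))) (.slot (nat_lit 1))) (.col (nat_lit 3)) (.col (nat_lit 0))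
def w322 : Root := .mk (.node (.col (nat_lit 1)) (.col (nat_lit 3)) (.node (.col (nat_lit 0)) (.col (nat_lit 1)) (.slot (nat_lit 1)))) (.node (.col (nat_lit 3)) (.node (.col (nat_lit 0)) (.node (.col (nat_lit 1)) (.slot (nat_lit 0)) (.slot (nat_lit 0))) (.slot (nat_lit 1))) (.slot (nat_lit 1))) (.col (nat_lit 3)) (.col (nat_lit 0))
def w323 : Root := .mk (.node (.col (nat_lit 1)) (.col (nat_lit 3)) (.node (.col (nat_lit 0)) (.col (nat_lit 1)) (.slot (nat_lit 1)))) (.node (.col (nat_lit 3)) (.node (.col (nat_lit 0)) (.node (.col (nat_lit 2)) (.slot (nat_lit 0)) (.slot (nat_lit 0))) (.slot (nat_lit 1))) (.slot (nat_lit 1))) (.col (nat_lit 3)) (.col (nat_lit 0))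
def w324 : Root := .mk (.node (.col (nat_lit 1)) (.col (nat_lit 3)) (.node (.col (nat_lit 0)) (.col (nat_lit 1)) (.slot (nat_lit 1)))) (.node (.col (nat_lit 3)) (.node (.col (nat_lit 0)) (.node (.col (nat_lit 3)) (.slot (nat_lit 0)) (.slot (nat_lit 0))) (.slot (nat_lit 1))) (.slot (nat_lit 1))) (.col (nat_lit 3)) (.col (nat_lit 0))
def l78 : Root := .mk (.node (.col (nat_lit 1)) (.col (nat_lit 3)) (.node (.col (nat_lit 0)) (.col (nat_lit 1)) (.slot (nat_lit 2)))) (.node (.col (nat_lit 3)) (.node (.col (nat_lit 0)) (.slot (nat_lit 1)) (.slot (nat_lit 1))) (.slot (nat_lit 2))) (.col (nat_lit 3)) (.col (nat_lit 0))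
def w325 : Root := .mk (.col (nat_lit 1)) (.col (nat_lit 3)) (.node (.node (.col (nat_lit 3)) (.node (.col (nat_lit 0)) (.slot (nat_lit 1)) (.slot (nat_lit 1))) (.slot (nat_lit 2))) (.col (nat_lit 3)) (.node (.slot (nat_lit 0)) (.slot (nat_lit 0)) (.slot (nat_lit 0)))) (.node (.col (nat_lit 0)) (.col (nat_lit 1)) (.slot (nat_lit 2)))
def w326 : Root := .mk (.col (nat_lit 1)) (.col (nat_lit 3)) (.node (.node (.col (nat_lit 3)) (.node (.col (nat_lit 0)) (.slot (nat_lit 1)) (.slot (nat_lit 1))) (.slot (nat_lit 2))) (.col (nat_lit 3)) (.node (.slot (nat_lit 0)) (.slot (nat_lit 0)) (.slot (nat_lit 0)))) (.node (.node (.col (nat_lit 1)) (.node (.col (nat_lit 2)) (.slot (nat_lit 1)) (.slot (nat_lit 1))) (.slot (nat_lit 2))) (.col (nat_lit 1)) (.slot (nat_lit 2)))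
def w327 : Root := .mk (.col (nat_lit 1)) (.col (nat_lit 3)) (.node (.node (.col (nat_lit 3)) (.node (.col (nat_lit 0)) (.slot (nat_lit 1)) (.slot (nat_lit 1))) (.slot (nat_lit 2))) (.col (nat_lit 3)) (.node (.slot (nat_lit 0)) (.slot (nat_lit 0)) (.slot (nat_lit 0)))) (.node (.node (.col (nat_lit 1)) (.node (.col (nat_lit 2)) (.slot (nat_lit 1)) (.slot (nat_lit 0))) (.slot (nat_lit 1))) (.col (nat_lit 3)) (.slot (nat_lit 1)))
def w328 : Root := .mk (.col (nat_lit 1)) (.col (nat_lit 3)) (.node (.col (nat_lit 2)) (.col (nat_lit 3)) (.node (.slot (nat_lit 0)) (.slot (nat_lit 0)) (.slot (nat_lit 0)))) (.node (.node (.col (nat_lit 1)) (.slot (nat_lit 0)) (.slot (nat_lit 0))) (.col (nat_lit 2)) (.node (.col (nat_lit 0)) (.slot (nat_lit 0)) (.slot (nat_lit 0))))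
def w329 : Root := .mk (.col (nat_lit 1)) (.col (nat_lit 3)) (.node (.col (nat_lit 2)) (.col (nat_lit 3)) (.node (.slot (nat_lit 0)) (.slot (nat_lit 0)) (.slot (nat_lit 0)))) (.node (.node (.col (nat_lit 1)) (.slot (nat_lit 0)) (.slot (nat_lit 0))) (.col (nat_lit 2)) (.node (.col (nat_lit 1)) (.slot (nat_lit 1)) (.slot (nat_lit 1))))
def l79 : Root := .mk (.node (.col (nat_lit 1)) (.col (nat_lit 3)) (.node (.col (nat_lit 2)) (.col (nat_lit 3)) (.node (.slot (nat_lit 0)) (.slot (nat_lit 0)) (.slot (nat_lit 0))))) (.col (nat_lit 0)) (.col (nat_lit 2)) (.node (.col (nat_lit 2)) (.slot (nat_lit 0)) (.slot (nat_lit 0)))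
def w330 : Root := .mk (.col (nat_lit 1)) (.col (nat_lit 3)) (.node (.col (nat_lit 2)) (.col (nat_lit 3)) (.node (.slot (nat_lit 0)) (.slot (nat_lit 0)) (.slot (nat_lit 0)))) (.node (.node (.col (nat_lit 1)) (.slot (nat_lit 0)) (.slot (nat_lit 0))) (.col (nat_lit 2)) (.node (.col (nat_lit 2)) (.slot (nat_lit 0)) (.slot (nat_lit 0))))
def w331 : Root := .mk (.node (.col (nat_lit 1)) (.col (nat_lit 3)) (.node (.node (.col (nat_lit 1)) (.slot (nat_lit 0)) (.slot (nat_lit 0))) (.col (nat_lit 2)) (.slot (nat_lit 1)))) (.col (nat_lit 2)) (.col (nat_lit 3)) (.node (.col (nat_lit 2)) (.slot (nat_lit 0)) (.slot (nat_lit 0)))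
def l80 : Root := .mk (.col (nat_lit 1)) (.col (nat_lit 3)) (.node (.col (nat_lit 2)) (.col (nat_lit 3)) (.node (.slot (nat_lit 0)) (.slot (nat_lit 1)) (.slot (nat_lit 1)))) (.node (.node (.col (nat_lit 1)) (.node (.col (nat_lit 2)) (.col (nat_lit 1)) (.slot (nat_lit 2))) (.slot (nat_lit 1))) (.col (nat_lit 2)) (.slot (nat_lit 2)))
def w332 : Root := .mk (.node (.col (nat_lit 1)) (.col (nat_lit 3)) (.node (.node (.col (nat_lit 1)) (.node (.col (nat_lit 2)) (.col (nat_lit 1)) (.slot (nat_lit 2))) (.slot (nat_lit 1))) (.slot (nat_lit 1)) (.slot (nat_lit 2)))) (.col (nat_lit 2)) (.col (nat_lit 3)) (.node (.slot (nat_lit 0)) (.slot (nat_lit 1)) (.slot (nat_lit 1)))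
def w333 : Root := .mk (.col (nat_lit 1)) (.col (nat_lit 3)) (.node (.node (.col (nat_lit 3)) (.node (.col (nat_lit 0)) (.slot (nat_lit 1)) (.slot (nat_lit 1))) (.slot (nat_lit 2))) (.col (nat_lit 3)) (.node (.slot (nat_lit 0)) (.slot (nat_lit 1)) (.slot (nat_lit 1)))) (.node (.node (.col (nat_lit 1)) (.node (.col (nat_lit 2)) (.col (nat_lit 1)) (.slot (nat_lit 2))) (.slot (nat_lit 1))) (.slot (nat_lit 2)) (.slot (nat_lit 1)))
def w334 : Root := .mk (.node (.col (nat_lit 1)) (.col (nat_lit 3)) (.node (.node (.col (nat_lit 1)) (.node (.col (nat_lit 2)) (.node (.col (nat_lit 0)) (.slot (nat_lit 1)) (.slot (nat_lit 0))) (.slot (nat_lit 1))) (.slot (nat_lit 1))) (.slot (nat_lit 1)) (.slot (nat_lit 1)))) (.col (nat_lit 4)) (.col (nat_lit 3)) (.node (.slot (nat_lit 0)) (.slot (nat_lit 0)) (.slot (nat_lit 0)))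
def w335 : Root := .mk (.col (nat_lit 1)) (.col (nat_lit 3)) (.node (.node (.col (nat_lit 3)) (.node (.col (nat_lit 0)) (.slot (nat_lit 1)) (.slot (nat_lit 1))) (.slot (nat_lit 2))) (.col (nat_lit 3)) (.node (.slot (nat_lit 0)) (.slot (nat_lit 0)) (.slot (nat_lit 0)))) (.node (.node (.col (nat_lit 1)) (.node (.col (nat_lit 2)) (.node (.col (nat_lit 0)) (.slot (nat_lit 1)) (.slot (nat_lit 0))) (.slot (nat_lit 1))) (.slot (nat_lit 1))) (.slot (nat_lit 1)) (.slot (nat_lit 1)))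
def w336 : Root := .mk (.col (nat_lit 1)) (.col (nat_lit 3)) (.node (.node (.col (nat_lit 3)) (.node (.col (nat_lit 0)) (.slot (nat_lit 1)) (.slot (nat_lit 1))) (.slot (nat_lit 2))) (.col (nat_lit 3)) (.node (.slot (nat_lit 0)) (.slot (nat_lit 0)) (.slot (nat_lit 0)))) (.node (.node (.col (nat_lit 1)) (.node (.col (nat_lit 2)) (.node (.col (nat_lit 2)) (.slot (nat_lit 0)) (.slot (nat_lit 0))) (.slot (nat_lit 2))) (.slot (nat_lit 2))) (.slot (nat_lit 1)) (.slot (nat_lit 1)))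
def l81 : Root := .mk (.node (.col (nat_lit 2)) (.slot (nat_lit 2)) (.slot (nat_lit 2))) (.col (nat_lit 1)) (.node (.col (nat_lit 2)) (.node (.col (nat_lit 3)) (.slot (nat_lit 1)) (.slot (nat_lit 0))) (.slot (nat_lit 1))) (.col (nat_lit 0))
def w337 : Root := .mk (.node (.col (nat_lit 2)) (.slot (nat_lit 2)) (.slot (nat_lit 2))) (.col (nat_lit 1)) (.node (.col (nat_lit 2)) (.node (.col (nat_lit 3)) (.slot (nat_lit 1)) (.slot (nat_lit 0))) (.slot (nat_lit 1))) (.slot (nat_lit 1))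
def w338 : Root := .mk (.col (nat_lit 1)) (.col (nat_lit 3)) (.node (.node (.col (nat_lit 3)) (.node (.col (nat_lit 0)) (.slot (nat_lit 1)) (.slot (nat_lit 1))) (.slot (nat_lit 2))) (.col (nat_lit 3)) (.node (.slot (nat_lit 0)) (.slot (nat_lit 0)) (.slot (nat_lit 0)))) (.node (.node (.col (nat_lit 1)) (.node (.col (nat_lit 2)) (.node (.col (nat_lit 3)) (.slot (nat_lit 1)) (.slot (nat_lit 0))) (.slot (nat_lit 1))) (.slot (nat_lit 1))) (.slot (nat_lit 2)) (.slot (nat_lit 2)))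
def w339 : Root := .mk (.node (.col (nat_lit 1)) (.col (nat_lit 3)) (.node (.node (.col (nat_lit 1)) (.node (.col (nat_lit 2)) (.node (.col (nat_lit 4)) (.slot (nat_lit 1)) (.slot (nat_lit 0))) (.slot (nat_lit 1))) (.slot (nat_lit 1))) (.slot (nat_lit 1)) (.slot (nat_lit 1)))) (.col (nat_lit 4)) (.col (nat_lit 3)) (.node (.slot (nat_lit 0)) (.slot (nat_lit 0)) (.slot (nat_lit 0)))
def w340 : Root := .mk (.col (nat_lit 1)) (.col (nat_lit 3)) (.node (.node (.col (nat_lit 3)) (.node (.col (nat_lit 0)) (.slot (nat_lit 1)) (.slot (nat_lit 1))) (.slot (nat_lit 2))) (.col (nat_lit 3)) (.node (.slot (nat_lit 0)) (.slot (nat_lit 0)) (.slot (nat_lit 0)))) (.node (.node (.col (nat_lit 1)) (.node (.col (nat_lit 2)) (.node (.col (nat_lit 4)) (.slot (nat_lit 1)) (.slot (nat_lit 0))) (.slot (nat_lit 1))) (.slot (nat_lit 1))) (.slot (nat_lit 1)) (.slot (nat_lit 1)))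
def w341 : Root := .mk (.col (nat_lit 1)) (.col (nat_lit 3)) (.col (nat_lit 0)) (.node (.node (.col (nat_lit 1)) (.node (.col (nat_lit 2)) (.slot (nat_lit 1)) (.slot (nat_lit 0))) (.slot (nat_lit 1))) (.slot (nat_lit 1)) (.slot (nat_lit 1)))
def w342 : Root := .mk (.col (nat_lit 1)) (.col (nat_lit 3)) (.col (nat_lit 2)) (.node (.node (.col (nat_lit 1)) (.node (.col (nat_lit 2)) (.slot (nat_lit 1)) (.slot (nat_lit 1))) (.slot (nat_lit 2))) (.slot (nat_lit 1)) (.slot (nat_lit 0)))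
def w343 : Root := .mk (.node (.col (nat_lit 1)) (.col (nat_lit 3)) (.node (.node (.col (nat_lit 1)) (.node (.col (nat_lit 2)) (.slot (nat_lit 1)) (.slot (nat_lit 1))) (.slot (nat_lit 2))) (.slot (nat_lit 1)) (.slot (nat_lit 1)))) (.col (nat_lit 0)) (.col (nat_lit 3)) (.node (.slot (nat_lit 0)) (.slot (nat_lit 0)) (.slot (nat_lit 0)))
def w344 : Root := .mk (.node (.col (nat_lit 1)) (.col (nat_lit 3)) (.node (.slot (nat_lit 0)) (.col (nat_lit 3)) (.col (nat_lit 1)))) (.node (.col (nat_lit 1)) (.node (.col (nat_lit 2)) (.slot (nat_lit 1)) (.slot (nat_lit 1))) (.slot (nat_lit 1))) (.col (nat_lit 2)) (.col (nat_lit 1))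
def w345 : Root := .mk (.col (nat_lit 1)) (.col (nat_lit 3)) (.node (.slot (nat_lit 0)) (.col (nat_lit 3)) (.col (nat_lit 1))) (.node (.node (.col (nat_lit 1)) (.slot (nat_lit 0)) (.slot (nat_lit 1))) (.col (nat_lit 2)) (.node (.col (nat_lit 0)) (.slot (nat_lit 0)) (.slot (nat_lit 0))))
def w346 : Root := .mk (.col (nat_lit 1)) (.col (nat_lit 3)) (.node (.slot (nat_lit 0)) (.col (nat_lit 3)) (.col (nat_lit 1))) (.node (.node (.col (nat_lit 1)) (.slot (nat_lit 0)) (.slot (nat_lit 0))) (.col (nat_lit 2)) (.node (.col (nat_lit 1)) (.slot (nat_lit 1)) (.slot (nat_lit 0))))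
def w347 : Root := .mk (.col (nat_lit 1)) (.col (nat_lit 3)) (.node (.slot (nat_lit 0)) (.col (nat_lit 3)) (.col (nat_lit 1))) (.node (.node (.col (nat_lit 1)) (.slot (nat_lit 0)) (.slot (nat_lit 0))) (.col (nat_lit 2)) (.node (.col (nat_lit 3)) (.slot (nat_lit 1)) (.slot (nat_lit 0))))
def l82 : Root := .mk (.node (.col (nat_lit 1)) (.col (nat_lit 3)) (.node (.slot (nat_lit 0)) (.col (nat_lit 3)) (.col (nat_lit 1)))) (.node (.col (nat_lit 1)) (.node (.col (nat_lit 2)) (.slot (nat_lit 0)) (.slot (nat_lit 0))) (.col (nat_lit 2))) (.col (nat_lit 2)) (.col (nat_lit 0))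
def w348 : Root := .mk (.node (.node (.col (nat_lit 1)) (.col (nat_lit 3)) (.node (.slot (nat_lit 0)) (.col (nat_lit 3)) (.col (nat_lit 1)))) (.col (nat_lit 2)) (.slot (nat_lit 1))) (.col (nat_lit 1)) (.node (.col (nat_lit 2)) (.slot (nat_lit 0)) (.slot (nat_lit 0))) (.col (nat_lit 2))
def l83 : Root := .mk (.node (.col (nat_lit 1)) (.col (nat_lit 3)) (.node (.slot (nat_lit 0)) (.col (nat_lit 3)) (.col (nat_lit 1)))) (.node (.col (nat_lit 1)) (.node (.col (nat_lit 2)) (.slot (nat_lit 0)) (.slot (nat_lit 0))) (.slot (nat_lit 0))) (.col (nat_lit 2)) (.col (nat_lit 0))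
def w349 : Root := .mk (.col (nat_lit 1)) (.col (nat_lit 3)) (.node (.slot (nat_lit 0)) (.col (nat_lit 3)) (.col (nat_lit 1))) (.node (.node (.col (nat_lit 1)) (.slot (nat_lit 0)) (.node (.col (nat_lit 0)) (.slot (nat_lit 0)) (.slot (nat_lit 0)))) (.col (nat_lit 2)) (.slot (nat_lit 1)))
def w350 : Root := .mk (.col (nat_lit 1)) (.col (nat_lit 3)) (.node (.slot (nat_lit 0)) (.col (nat_lit 3)) (.col (nat_lit 1))) (.node (.node (.col (nat_lit 1)) (.node (.col (nat_lit 2)) (.slot (nat_lit 0)) (.slot (nat_lit 0))) (.slot (nat_lit 0))) (.col (nat_lit 2)) (.slot (nat_lit 1)))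
def w351 : Root := .mk (.node (.col (nat_lit 1)) (.col (nat_lit 3)) (.node (.node (.col (nat_lit 1)) (.slot (nat_lit 0)) (.slot (nat_lit 1))) (.col (nat_lit 2)) (.slot (nat_lit 1)))) (.col (nat_lit 0)) (.col (nat_lit 3)) (.col (nat_lit 1))
def l84 : Root := .mk (.col (nat_lit 1)) (.col (nat_lit 3)) (.node (.slot (nat_lit 0)) (.col (nat_lit 3)) (.col (nat_lit 1))) (.node (.node (.col (nat_lit 1)) (.node (.col (nat_lit 2)) (.slot (nat_lit 1)) (.slot (nat_lit 1))) (.slot (nat_lit 3))) (.col (nat_lit 2)) (.slot (nat_lit 1)))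
def w352 : Root := .mk (.node (.col (nat_lit 1)) (.col (nat_lit 3)) (.node (.node (.col (nat_lit 1)) (.node (.col (nat_lit 2)) (.slot (nat_lit 1)) (.slot (nat_lit 1))) (.slot (nat_lit 3))) (.slot (nat_lit 1)) (.slot (nat_lit 1)))) (.slot (nat_lit 0)) (.col (nat_lit 3)) (.col (nat_lit 1))
def w353 : Root := .mk (.col (nat_lit 1)) (.col (nat_lit 3)) (.node (.node (.col (nat_lit 3)) (.col (nat_lit 1)) (.slot (nat_lit 3))) (.col (nat_lit 3)) (.node (.slot (nat_lit 0)) (.slot (nat_lit 0)) (.slot (nat_lit 0)))) (.node (.node (.col (nat_lit 1)) (.slot (nat_lit 0)) (.slot (nat_lit 1))) (.slot (nat_lit 2)) (.slot (nat_lit 2)))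
def l85 : Root := .mk (.node (.node (.col (nat_lit 1)) (.col (nat_lit 3)) (.node (.slot (nat_lit 0)) (.col (nat_lit 3)) (.slot (nat_lit 0)))) (.col (nat_lit 2)) (.col (nat_lit 1))) (.col (nat_lit 1)) (.node (.col (nat_lit 2)) (.slot (nat_lit 1)) (.slot (nat_lit 1))) (.col (nat_lit 3))
def w354 : Root := .mk (.node (.col (nat_lit 1)) (.col (nat_lit 3)) (.node (.slot (nat_lit 0)) (.col (nat_lit 3)) (.slot (nat_lit 0)))) (.node (.col (nat_lit 1)) (.node (.col (nat_lit 2)) (.slot (nat_lit 1)) (.slot (nat_lit 1))) (.slot (nat_lit 1))) (.col (nat_lit 2)) (.col (nat_lit 1))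
def w355 : Root := .mk (.node (.col (nat_lit 1)) (.col (nat_lit 3)) (.node (.node (.col (nat_lit 1)) (.node (.col (nat_lit 2)) (.slot (nat_lit 1)) (.slot (nat_lit 0))) (.slot (nat_lit 1))) (.col (nat_lit 2)) (.slot (nat_lit 1)))) (.slot (nat_lit 0)) (.col (nat_lit 3)) (.col (nat_lit 2))
def l86 : Root := .mk (.col (nat_lit 1)) (.col (nat_lit 3)) (.node (.node .junk (.col (nat_lit 2)) (.slot (nat_lit 1))) (.col (nat_lit 3)) (.node (.slot (nat_lit 0)) (.slot (nat_lit 0)) (.slot (nat_lit 0)))) (.node (.node (.col (nat_lit 1)) (.node (.col (nat_lit 2)) (.slot (nat_lit 1)) (.slot (nat_lit 1))) (.slot (nat_lit 3))) (.col (nat_lit 2)) (.slot (nat_lit 2)))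
def w356 : Root := .mk (.col (nat_lit 1)) (.col (nat_lit 3)) (.node (.node .junk (.col (nat_lit 2)) (.slot (nat_lit 1))) (.col (nat_lit 3)) (.node (.slot (nat_lit 0)) (.slot (nat_lit 0)) (.slot (nat_lit 0)))) (.node (.node (.col (nat_lit 1)) (.node (.col (nat_lit 2)) (.slot (nat_lit 1)) (.slot (nat_lit 1))) (.slot (nat_lit 3))) (.slot (nat_lit 1)) (.slot (nat_lit 2)))
def w357 : Root := .mk (.node (.col (nat_lit 1)) (.col (nat_lit 3)) (.node (.node (.col (nat_lit 1)) (.node (.col (nat_lit 2)) (.slot (nat_lit 1)) (.slot (nat_lit 0))) (.slot (nat_lit 1))) (.col (nat_lit 2)) (.slot (nat_lit 1)))) (.slot (nat_lit 0)) (.col (nat_lit 3)) (.col (nat_lit 0))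
def l87 : Root := .mk (.col (nat_lit 1)) (.col (nat_lit 3)) (.node (.slot (nat_lit 0)) (.col (nat_lit 3)) (.node (.slot (nat_lit 0)) (.slot (nat_lit 0)) (.slot (nat_lit 0)))) (.node (.node (.col (nat_lit 1)) (.node (.col (nat_lit 2)) (.slot (nat_lit 1)) (.slot (nat_lit 1))) (.slot (nat_lit 3))) (.col (nat_lit 2)) (.slot (nat_lit 2)))
def w358 : Root := .mk (.col (nat_lit 1)) (.col (nat_lit 3)) (.node (.slot (nat_lit 0)) (.col (nat_lit 3)) (.node (.slot (nat_lit 0)) (.slot (nat_lit 0)) (.slot (nat_lit 0)))) (.node (.node (.col (nat_lit 1)) (.node (.col (nat_lit 2)) (.slot (nat_lit 1)) (.slot (nat_lit 1))) (.slot (nat_lit 3))) (.slot (nat_lit 1)) (.slot (nat_lit 2)))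
def w359 : Root := .mk (.node (.col (nat_lit 1)) (.col (nat_lit 3)) (.node (.col (nat_lit 4)) (.slot (nat_lit 1)) (.slot (nat_lit 1)))) (.col (nat_lit 0)) (.col (nat_lit 3)) (.node (.slot (nat_lit 0)) (.col (nat_lit 0)) (.col (nat_lit 1)))
def w360 : Root := .mk (.col (nat_lit 1)) (.col (nat_lit 3)) (.node (.node (.col (nat_lit 3)) (.node (.col (nat_lit 0)) (.slot (nat_lit 1)) (.slot (nat_lit 1))) (.slot (nat_lit 2))) (.col (nat_lit 3)) (.node .junk (.col (nat_lit 0)) (.slot (nat_lit 1)))) (.node (.col (nat_lit 4)) (.slot (nat_lit 1)) .junk)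
def w361 : Root := .mk (.col (nat_lit 1)) (.col (nat_lit 3)) (.node (.node (.col (nat_lit 3)) (.node (.col (nat_lit 0)) (.slot (nat_lit 1)) (.slot (nat_lit 1))) (.slot (nat_lit 2))) (.col (nat_lit 3)) (.node .junk (.col (nat_lit 0)) (.slot (nat_lit 1)))) (.node (.node (.col (nat_lit 1)) (.node (.col (nat_lit 2)) (.slot (nat_lit 1)) (.slot (nat_lit 1))) (.slot (nat_lit 2))) (.slot (nat_lit 1)) (.slot (nat_lit 0)))
def w362 : Root := .mk (.col (nat_lit 1)) (.col (nat_lit 3)) (.node (.node (.col (nat_lit 3)) (.node (.col (nat_lit 0)) (.slot (nat_lit 1)) (.slot (nat_lit 1))) (.slot (nat_lit 1))) (.col (nat_lit 3)) (.node (.slot (nat_lit 0)) (.col (nat_lit 2)) (.slot (nat_lit 1)))) (.node (.col (nat_lit 4)) (.slot (nat_lit 1)) .junk)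
def w363 : Root := .mk (.col (nat_lit 1)) (.col (nat_lit 3)) (.node (.node (.col (nat_lit 3)) (.node (.col (nat_lit 0)) (.slot (nat_lit 1)) (.slot (nat_lit 1))) (.slot (nat_lit 1))) (.col (nat_lit 3)) (.node (.slot (nat_lit 0)) (.col (nat_lit 2)) (.slot (nat_lit 1)))) (.node (.node (.col (nat_lit 1)) (.node (.col (nat_lit 2)) (.slot (nat_lit 1)) (.slot (nat_lit 1))) (.slot (nat_lit 2))) (.slot (nat_lit 1)) (.slot (nat_lit 0)))
def w364 : Root := .mk (.col (nat_lit 1)) (.col (nat_lit 3)) (.node (.node (.col (nat_lit 3)) (.node (.col (nat_lit 0)) (.slot (nat_lit 1)) (.slot (nat_lit 1))) (.slot (nat_lit 2))) (.col (nat_lit 3)) (.slot (nat_lit 0))) (.node (.node (.col (nat_lit 1)) (.node (.col (nat_lit 2)) (.slot (nat_lit 1)) (.slot (nat_lit 1))) (.slot (nat_lit 3))) (.slot (nat_lit 1)) (.slot (nat_lit 1)))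
def l88 : Root := .mk (.col (nat_lit 1)) (.col (nat_lit 3)) (.node (.node (.col (nat_lit 3)) (.node (.col (nat_lit 0)) (.slot (nat_lit 1)) (.slot (nat_lit 1))) (.slot (nat_lit 3))) (.col (nat_lit 3)) (.node (.slot (nat_lit 0)) (.slot (nat_lit 3)) (.slot (nat_lit 1)))) (.node (.node (.col (nat_lit 1)) (.node (.col (nat_lit 2)) (.slot (nat_lit 2)) (.slot (nat_lit 2))) (.slot (nat_lit 3))) (.slot (nat_lit 2)) (.slot (nat_lit 2)))
def w365 : Root := .mk (.col (nat_lit 1)) (.col (nat_lit 3)) (.node (.node (.col (nat_lit 3)) (.node (.col (nat_lit 0)) (.slot (nat_lit 1)) (.slot (nat_lit 1))) (.slot (nat_lit 3))) (.col (nat_lit 3)) (.node (.slot (nat_lit 0)) (.slot (nat_lit 3)) (.slot (nat_lit 1)))) (.node (.node (.col (nat_lit 1)) (.slot (nat_lit 3)) (.slot (nat_lit 3))) (.slot (nat_lit 2)) (.slot (nat_lit 2)))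
def w366 : Root := .mk (.col (nat_lit 1)) (.col (nat_lit 3)) (.node (.node (.col (nat_lit 3)) (.node (.col (nat_lit 0)) (.slot (nat_lit 1)) (.slot (nat_lit 1))) (.slot (nat_lit 2))) (.col (nat_lit 3)) (.slot (nat_lit 1))) (.node (.col (nat_lit 0)) (.slot (nat_lit 1)) (.slot (nat_lit 1)))
def w367 : Root := .mk (.col (nat_lit 1)) (.col (nat_lit 3)) (.node (.node (.col (nat_lit 3)) (.node (.col (nat_lit 0)) (.slot (nat_lit 1)) (.slot (nat_lit 1))) (.slot (nat_lit 1))) (.col (nat_lit 3)) (.slot (nat_lit 2))) (.node (.col (nat_lit 2)) (.slot (nat_lit 1)) (.slot (nat_lit 1)))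
def w368 : Root := .mk (.col (nat_lit 1)) (.col (nat_lit 3)) (.node (.col (nat_lit 2)) (.col (nat_lit 3)) (.slot (nat_lit 3))) (.node (.col (nat_lit 3)) (.slot (nat_lit 1)) (.slot (nat_lit 3)))
def w369 : Root := .mk (.col (nat_lit 1)) (.col (nat_lit 3)) (.node (.node (.col (nat_lit 3)) (.node (.col (nat_lit 0)) (.slot (nat_lit 1)) (.slot (nat_lit 1))) (.slot (nat_lit 2))) (.col (nat_lit 3)) (.slot (nat_lit 3))) (.node (.col (nat_lit 3)) (.slot (nat_lit 3)) (.slot (nat_lit 1)))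
def w370 : Root := .mk (.col (nat_lit 1)) (.col (nat_lit 3)) (.node (.col (nat_lit 2)) (.col (nat_lit 3)) (.slot (nat_lit 3))) (.node (.node (.col (nat_lit 1)) (.slot (nat_lit 0)) (.slot (nat_lit 0))) (.col (nat_lit 1)) (.slot (nat_lit 3)))
def w371 : Root := .mk (.col (nat_lit 1)) (.col (nat_lit 3)) (.node (.node (.col (nat_lit 3)) (.node (.col (nat_lit 0)) (.slot (nat_lit 1)) (.slot (nat_lit 1))) (.slot (nat_lit 2))) (.col (nat_lit 3)) (.slot (nat_lit 3))) (.node (.node (.col (nat_lit 1)) (.slot (nat_lit 0)) (.slot (nat_lit 0))) (.col (nat_lit 1)) (.slot (nat_lit 3)))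
def w372 : Root := .mk (.col (nat_lit 1)) (.col (nat_lit 3)) (.node (.node (.col (nat_lit 3)) (.node (.col (nat_lit 0)) (.slot (nat_lit 1)) (.slot (nat_lit 1))) (.slot (nat_lit 2))) (.col (nat_lit 3)) (.slot (nat_lit 1))) (.node (.node (.col (nat_lit 1)) (.slot (nat_lit 1)) (.slot (nat_lit 1))) (.col (nat_lit 3)) (.slot (nat_lit 1)))
def w373 : Root := .mk (.col (nat_lit 1)) (.col (nat_lit 3)) (.node (.col (nat_lit 2)) (.col (nat_lit 3)) (.slot (nat_lit 3))) (.node (.node (.col (nat_lit 1)) (.slot (nat_lit 1)) (.slot (nat_lit 1))) (.node (.col (nat_lit 0)) (.slot (nat_lit 0)) (.slot (nat_lit 0))) (.slot (nat_lit 2)))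
def w374 : Root := .mk (.col (nat_lit 1)) (.col (nat_lit 3)) (.node (.node (.col (nat_lit 3)) (.node (.col (nat_lit 0)) (.slot (nat_lit 1)) (.slot (nat_lit 1))) (.slot (nat_lit 2))) (.col (nat_lit 3)) (.slot (nat_lit 3))) (.node (.node (.col (nat_lit 1)) (.slot (nat_lit 1)) (.slot (nat_lit 1))) (.node (.col (nat_lit 0)) (.slot (nat_lit 0)) (.slot (nat_lit 0))) (.slot (nat_lit 2)))
def w375 : Root := .mk (.col (nat_lit 1)) (.col (nat_lit 3)) (.node (.col (nat_lit 2)) (.col (nat_lit 3)) (.slot (nat_lit 3))) (.node (.node (.col (nat_lit 1)) (.slot (nat_lit 0)) (.slot (nat_lit 0))) (.node (.col (nat_lit 1)) (.slot (nat_lit 1)) (.slot (nat_lit 1))) (.slot (nat_lit 2)))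
def w376 : Root := .mk (.col (nat_lit 1)) (.col (nat_lit 3)) (.node (.node (.col (nat_lit 3)) (.node (.col (nat_lit 0)) (.slot (nat_lit 1)) (.slot (nat_lit 1))) (.slot (nat_lit 2))) (.col (nat_lit 3)) (.slot (nat_lit 3))) (.node (.node (.col (nat_lit 1)) (.slot (nat_lit 0)) (.slot (nat_lit 0))) (.node (.col (nat_lit 1)) (.slot (nat_lit 1)) (.slot (nat_lit 1))) (.slot (nat_lit 2)))
def l89 : Root := .mk (.node (.col (nat_lit 1)) (.col (nat_lit 3)) (.node (.col (nat_lit 2)) (.col (nat_lit 3)) (.slot (nat_lit 1)))) (.col (nat_lit 0)) (.node (.col (nat_lit 2)) (.slot (nat_lit 0)) (.slot (nat_lit 0))) (.col (nat_lit 2))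
def w377 : Root := .mk (.col (nat_lit 1)) (.col (nat_lit 3)) (.node (.col (nat_lit 2)) (.col (nat_lit 3)) (.slot (nat_lit 1))) (.node (.node (.col (nat_lit 1)) (.col (nat_lit 2)) (.slot (nat_lit 0))) (.node (.col (nat_lit 2)) (.slot (nat_lit 0)) (.slot (nat_lit 0))) (.col (nat_lit 2)))
def w378 : Root := .mk (.col (nat_lit 1)) (.col (nat_lit 3)) (.node (.col (nat_lit 2)) (.col (nat_lit 3)) (.slot (nat_lit 1))) (.node (.node (.col (nat_lit 1)) (.slot (nat_lit 1)) (.slot (nat_lit 1))) (.node (.col (nat_lit 2)) (.col (nat_lit 0)) (.slot (nat_lit 0))) (.col (nat_lit 2)))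
def w379 : Root := .mk (.col (nat_lit 1)) (.col (nat_lit 3)) (.node (.col (nat_lit 2)) (.col (nat_lit 3)) (.slot (nat_lit 1))) (.node (.node (.col (nat_lit 1)) (.slot (nat_lit 1)) (.slot (nat_lit 1))) (.node (.col (nat_lit 2)) (.col (nat_lit 1)) (.slot (nat_lit 0))) (.col (nat_lit 2)))
def l90 : Root := .mk (.node (.col (nat_lit 1)) (.col (nat_lit 3)) (.node (.col (nat_lit 2)) (.col (nat_lit 3)) (.slot (nat_lit 0)))) (.node (.col (nat_lit 1)) (.slot (nat_lit 1)) (.slot (nat_lit 0))) (.col (nat_lit 0)) (.col (nat_lit 2))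
def w380 : Root := .mk (.col (nat_lit 1)) (.col (nat_lit 3)) (.node (.col (nat_lit 2)) (.col (nat_lit 3)) (.slot (nat_lit 0))) (.node (.node (.col (nat_lit 1)) (.slot (nat_lit 1)) (.slot (nat_lit 0))) (.node (.col (nat_lit 2)) (.col (nat_lit 3)) (.slot (nat_lit 0))) (.col (nat_lit 2)))
def w381 : Root := .mk (.node (.col (nat_lit 1)) (.col (nat_lit 3)) (.node (.node (.col (nat_lit 1)) (.slot (nat_lit 1)) (.slot (nat_lit 0))) (.node (.col (nat_lit 2)) (.slot (nat_lit 0)) (.slot (nat_lit 0))) (.col (nat_lit 2)))) (.col (nat_lit 2)) (.col (nat_lit 3)) (.slot (nat_lit 0))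
def l91 : Root := .mk (.col (nat_lit 1)) (.col (nat_lit 3)) (.node (.col (nat_lit 2)) (.col (nat_lit 3)) (.slot (nat_lit 3))) (.node (.node (.col (nat_lit 1)) (.slot (nat_lit 1)) (.slot (nat_lit 1))) (.node (.col (nat_lit 2)) (.slot (nat_lit 1)) (.slot (nat_lit 1))) (.col (nat_lit 2)))
def w382 : Root := .mk (.col (nat_lit 1)) (.col (nat_lit 3)) (.node (.col (nat_lit 2)) (.col (nat_lit 3)) (.slot (nat_lit 3))) (.node (.node (.col (nat_lit 1)) (.slot (nat_lit 1)) (.slot (nat_lit 1))) (.node (.col (nat_lit 2)) (.slot (nat_lit 1)) (.slot (nat_lit 1))) (.slot (nat_lit 1)))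
def w383 : Root := .mk (.col (nat_lit 1)) (.col (nat_lit 3)) (.node (.node (.col (nat_lit 3)) (.node (.col (nat_lit 0)) (.slot (nat_lit 1)) (.slot (nat_lit 1))) (.slot (nat_lit 2))) (.col (nat_lit 3)) (.slot (nat_lit 3))) (.node (.node (.col (nat_lit 1)) (.slot (nat_lit 1)) (.slot (nat_lit 1))) (.node (.col (nat_lit 2)) (.slot (nat_lit 1)) (.slot (nat_lit 1))) (.slot (nat_lit 1)))
def w384 : Root := .mk (.col (nat_lit 1)) (.col (nat_lit 3)) (.node (.col (nat_lit 2)) (.col (nat_lit 3)) (.slot (nat_lit 3))) (.node (.node (.col (nat_lit 1)) (.slot (nat_lit 1)) (.slot (nat_lit 1))) (.node (.col (nat_lit 3)) (.slot (nat_lit 0)) (.slot (nat_lit 0))) (.slot (nat_lit 2)))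
def w385 : Root := .mk (.col (nat_lit 1)) (.col (nat_lit 3)) (.node (.node (.col (nat_lit 3)) (.node (.col (nat_lit 0)) (.slot (nat_lit 1)) (.slot (nat_lit 1))) (.slot (nat_lit 2))) (.col (nat_lit 3)) (.slot (nat_lit 3))) (.node (.node (.col (nat_lit 1)) (.slot (nat_lit 1)) (.slot (nat_lit 1))) (.node (.col (nat_lit 3)) (.slot (nat_lit 0)) (.slot (nat_lit 0))) (.slot (nat_lit 2)))
def w386 : Root := .mk (.col (nat_lit 1)) (.col (nat_lit 3)) (.node (.node (.col (nat_lit 3)) (.col (nat_lit 1)) (.slot (nat_lit 3))) (.col (nat_lit 3)) (.slot (nat_lit 1))) (.node (.node (.col (nat_lit 1)) (.slot (nat_lit 1)) (.slot (nat_lit 0))) (.slot (nat_lit 2)) (.slot (nat_lit 2)))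
def w387 : Root := .mk (.node (.node (.col (nat_lit 1)) (.col (nat_lit 3)) (.node (.node (.col (nat_lit 1)) (.slot (nat_lit 1)) (.slot (nat_lit 1))) (.slot (nat_lit 2)) (.slot (nat_lit 1)))) (.col (nat_lit 3)) (.slot (nat_lit 3))) (.col (nat_lit 3)) (.col (nat_lit 2)) (.node (.node (.col (nat_lit 2)) (.slot (nat_lit 1)) (.slot (nat_lit 1))) (.slot (nat_lit 2)) (.slot (nat_lit 1)))
def w388 : Root := .mk (.col (nat_lit 1)) (.col (nat_lit 3)) (.node (.node .junk (.col (nat_lit 2)) (.col (nat_lit 0))) (.col (nat_lit 3)) (.slot (nat_lit 1))) (.node (.node (.col (nat_lit 1)) (.slot (nat_lit 1)) (.slot (nat_lit 1))) (.slot (nat_lit 2)) (.slot (nat_lit 1)))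
def w389 : Root := .mk (.col (nat_lit 1)) (.col (nat_lit 3)) (.node (.node .junk (.col (nat_lit 2)) (.col (nat_lit 1))) (.col (nat_lit 3)) (.slot (nat_lit 1))) (.node (.node (.col (nat_lit 1)) (.slot (nat_lit 0)) (.slot (nat_lit 0))) (.col (nat_lit 0)) .junk)
def w390 : Root := .mk (.col (nat_lit 1)) (.col (nat_lit 3)) (.node (.col (nat_lit 4)) (.col (nat_lit 3)) (.slot (nat_lit 1))) (.node (.node (.col (nat_lit 1)) (.slot (nat_lit 0)) (.slot (nat_lit 0))) (.col (nat_lit 0)) (.slot (nat_lit 1)))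
def w391 : Root := .mk (.node (.col (nat_lit 1)) (.col (nat_lit 3)) (.node (.node (.col (nat_lit 1)) (.slot (nat_lit 1)) (.slot (nat_lit 0))) (.col (nat_lit 0)) (.slot (nat_lit 1)))) (.slot (nat_lit 0)) (.col (nat_lit 3)) (.col (nat_lit 2))
def l92 : Root := .mk (.col (nat_lit 1)) (.col (nat_lit 3)) (.node (.node .junk (.col (nat_lit 2)) (.col (nat_lit 1))) (.col (nat_lit 3)) (.slot (nat_lit 1))) (.node (.node (.col (nat_lit 1)) (.slot (nat_lit 1)) (.slot (nat_lit 1))) (.col (nat_lit 0)) (.slot (nat_lit 2)))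
def w392 : Root := .mk (.col (nat_lit 1)) (.col (nat_lit 3)) (.node (.node .junk (.col (nat_lit 2)) (.col (nat_lit 1))) (.col (nat_lit 3)) (.slot (nat_lit 1))) (.node (.node (.col (nat_lit 1)) (.slot (nat_lit 1)) (.slot (nat_lit 1))) (.slot (nat_lit 1)) (.slot (nat_lit 2)))
def l93 : Root := .mk (.col (nat_lit 1)) (.col (nat_lit 3)) (.node (.node (.col (nat_lit 3)) (.col (nat_lit 2)) (.node (.slot (nat_lit 0)) (.slot (nat_lit 0)) (.slot (nat_lit 0)))) (.col (nat_lit 3)) (.col (nat_lit 0))) (.node (.node (.col (nat_lit 1)) (.slot (nat_lit 1)) (.slot (nat_lit 1))) (.col (nat_lit 0)) (.slot (nat_lit 2)))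
def w393 : Root := .mk (.node (.col (nat_lit 1)) (.col (nat_lit 3)) (.node (.node (.col (nat_lit 1)) (.slot (nat_lit 1)) (.slot (nat_lit 1))) (.slot (nat_lit 1)) (.slot (nat_lit 2)))) (.node (.col (nat_lit 3)) (.col (nat_lit 2)) (.node (.slot (nat_lit 0)) (.slot (nat_lit 0)) (.slot (nat_lit 0)))) (.col (nat_lit 3)) (.col (nat_lit 0))
def w394 : Root := .mk (.col (nat_lit 1)) (.col (nat_lit 3)) (.node (.node .junk (.col (nat_lit 2)) (.node (.slot (nat_lit 0)) (.slot (nat_lit 0)) (.slot (nat_lit 0)))) (.col (nat_lit 3)) (.col (nat_lit 1))) (.node (.node (.col (nat_lit 1)) (.slot (nat_lit 0)) (.slot (nat_lit 0))) (.col (nat_lit 0)) .junk)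
def l94 : Root := .mk (.col (nat_lit 1)) (.col (nat_lit 3)) (.node (.node .junk (.col (nat_lit 2)) (.node (.slot (nat_lit 0)) (.slot (nat_lit 0)) (.slot (nat_lit 0)))) (.col (nat_lit 3)) (.col (nat_lit 1))) (.node (.node (.col (nat_lit 1)) (.slot (nat_lit 1)) (.slot (nat_lit 1))) (.col (nat_lit 0)) (.slot (nat_lit 2)))
def w395 : Root := .mk (.node (.col (nat_lit 1)) (.col (nat_lit 3)) (.node (.node (.col (nat_lit 1)) (.slot (nat_lit 1)) (.slot (nat_lit 1))) (.slot (nat_lit 1)) (.slot (nat_lit 2)))) (.node .junk (.col (nat_lit 2)) (.node (.slot (nat_lit 0)) (.slot (nat_lit 0)) (.slot (nat_lit 0)))) (.col (nat_lit 3)) (.col (nat_lit 1))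
def w396 : Root := .mk (.node (.col (nat_lit 2)) (.col (nat_lit 3)) (.node (.col (nat_lit 0)) (.slot (nat_lit 1)) .junk)) (.col (nat_lit 3)) (.col (nat_lit 2)) (.node (.node (.col (nat_lit 2)) (.slot (nat_lit 0)) (.slot (nat_lit 0))) (.col (nat_lit 1)) .junk)
def l95 : Root := .mk (.node (.col (nat_lit 2)) (.col (nat_lit 3)) (.node (.col (nat_lit 0)) (.slot (nat_lit 1)) .junk)) (.col (nat_lit 3)) (.col (nat_lit 2)) (.node (.node (.col (nat_lit 2)) (.slot (nat_lit 1)) (.slot (nat_lit 1))) (.col (nat_lit 1)) (.slot (nat_lit 2)))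
def w397 : Root := .mk (.col (nat_lit 2)) (.node (.col (nat_lit 3)) (.col (nat_lit 2)) (.node (.node (.col (nat_lit 2)) (.slot (nat_lit 1)) (.slot (nat_lit 1))) (.slot (nat_lit 1)) (.slot (nat_lit 2)))) (.col (nat_lit 3)) (.node (.col (nat_lit 0)) (.slot (nat_lit 1)) .junk)
def w398 : Root := .mk (.col (nat_lit 1)) (.col (nat_lit 3)) (.node (.node (.col (nat_lit 3)) (.col (nat_lit 2)) (.node (.node (.col (nat_lit 2)) (.slot (nat_lit 1)) (.slot (nat_lit 1))) (.slot (nat_lit 2)) (.slot (nat_lit 1)))) (.col (nat_lit 3)) (.node (.col (nat_lit 0)) (.slot (nat_lit 1)) .junk)) (.node (.node (.col (nat_lit 1)) (.slot (nat_lit 1)) (.slot (nat_lit 1))) (.slot (nat_lit 2)) (.slot (nat_lit 1)))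
def w399 : Root := .mk (.col (nat_lit 1)) (.col (nat_lit 3)) (.node (.node (.col (nat_lit 3)) (.col (nat_lit 2)) (.slot (nat_lit 0))) (.col (nat_lit 3)) (.node (.col (nat_lit 1)) (.slot (nat_lit 1)) (.slot (nat_lit 1)))) (.node (.col (nat_lit 3)) (.col (nat_lit 0)) (.slot (nat_lit 1)))
def w400 : Root := .mk (.node (.col (nat_lit 1)) (.col (nat_lit 3)) (.node (.node (.col (nat_lit 3)) (.col (nat_lit 2)) (.slot (nat_lit 0))) (.col (nat_lit 3)) (.node (.col (nat_lit 1)) (.slot (nat_lit 2)) (.slot (nat_lit 2))))) (.node (.col (nat_lit 1)) (.slot (nat_lit 1)) (.slot (nat_lit 1))) (.col (nat_lit 0)) (.col (nat_lit 1))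
def w401 : Root := .mk (.col (nat_lit 1)) (.col (nat_lit 3)) (.node (.slot (nat_lit 0)) (.col (nat_lit 3)) (.slot (nat_lit 0))) (.node (.node (.col (nat_lit 1)) (.col (nat_lit 0)) (.slot (nat_lit 1))) (.col (nat_lit 0)) (.slot (nat_lit 1)))
def l96 : Root := .mk (.col (nat_lit 1)) (.col (nat_lit 3)) (.node (.node (.col (nat_lit 3)) (.col (nat_lit 2)) (.node (.slot (nat_lit 0)) (.slot (nat_lit 0)) (.slot (nat_lit 0)))) (.col (nat_lit 3)) (.node (.col (nat_lit 1)) (.slot (nat_lit 2)) (.slot (nat_lit 2)))) (.node (.node (.col (nat_lit 1)) (.slot (nat_lit 1)) (.slot (nat_lit 1))) (.col (nat_lit 0)) (.slot (nat_lit 2)))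
def w402 : Root := .mk (.col (nat_lit 1)) (.col (nat_lit 3)) (.node (.node (.col (nat_lit 3)) (.col (nat_lit 2)) (.node (.slot (nat_lit 0)) (.slot (nat_lit 0)) (.slot (nat_lit 0)))) (.col (nat_lit 3)) (.node (.col (nat_lit 1)) (.slot (nat_lit 2)) (.slot (nat_lit 2)))) (.node (.node (.col (nat_lit 1)) (.slot (nat_lit 1)) (.slot (nat_lit 1))) (.slot (nat_lit 1)) (.slot (nat_lit 2)))
def w403 : Root := .mk (.col (nat_lit 1)) (.col (nat_lit 3)) (.node (.node (.col (nat_lit 3)) (.col (nat_lit 2)) (.node (.node (.col (nat_lit 2)) (.slot (nat_lit 1)) (.slot (nat_lit 0))) (.slot (nat_lit 2)) (.slot (nat_lit 2)))) (.col (nat_lit 3)) (.node (.col (nat_lit 3)) (.slot (nat_lit 3)) (.slot (nat_lit 1)))) (.node (.node (.col (nat_lit 1)) (.slot (nat_lit 1)) (.slot (nat_lit 1))) (.slot (nat_lit 2)) (.slot (nat_lit 1)))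
def w404 : Root := .mk (.col (nat_lit 1)) (.col (nat_lit 3)) (.node (.node (.col (nat_lit 3)) (.col (nat_lit 2)) (.slot (nat_lit 0))) (.col (nat_lit 3)) (.node .junk (.col (nat_lit 0)) (.col (nat_lit 1)))) (.node (.col (nat_lit 4)) (.slot (nat_lit 1)) .junk)
def w405 : Root := .mk (.col (nat_lit 1)) (.col (nat_lit 3)) (.node (.node (.col (nat_lit 3)) (.col (nat_lit 2)) (.slot (nat_lit 0))) (.col (nat_lit 3)) (.node .junk (.col (nat_lit 0)) (.col (nat_lit 1)))) (.col (nat_lit 0))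
def w407 : Root := .mk (.node (.node (.col (nat_lit 1)) (.col (nat_lit 3)) (.node (.col (nat_lit 3)) (.col (nat_lit 2)) (.node (.col (nat_lit 1)) .junk (.slot (nat_lit 1))))) .junk (.col (nat_lit 2))) (.col (nat_lit 3)) (.col (nat_lit 2)) (.col (nat_lit 0))
def l97 : Root := .mk (.node (.node (.col (nat_lit 1)) (.col (nat_lit 3)) (.node (.col (nat_lit 3)) (.col (nat_lit 2)) (.node (.col (nat_lit 1)) (.slot (nat_lit 1)) (.slot (nat_lit 1))))) (.col (nat_lit 3)) (.col (nat_lit 2))) (.col (nat_lit 3)) (.col (nat_lit 2)) (.col (nat_lit 0))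
def w408 : Root := .mk (.node (.node (.col (nat_lit 1)) (.col (nat_lit 3)) (.node (.col (nat_lit 3)) (.col (nat_lit 2)) (.slot (nat_lit 2)))) (.col (nat_lit 3)) (.col (nat_lit 2))) (.col (nat_lit 3)) (.col (nat_lit 2)) (.col (nat_lit 0))
def w409 : Root := .mk (.node (.col (nat_lit 1)) .junk (.node (.node (.col (nat_lit 3)) (.col (nat_lit 2)) (.node (.node (.col (nat_lit 2)) (.slot (nat_lit 0)) (.slot (nat_lit 0))) (.col (nat_lit 0)) .junk)) (.col (nat_lit 3)) (.col (nat_lit 2)))) (.col (nat_lit 3)) (.col (nat_lit 2)) (.col (nat_lit 1))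
def l98 : Root := .mk (.node (.col (nat_lit 1)) .junk (.node (.node (.col (nat_lit 3)) (.col (nat_lit 2)) (.node (.node (.col (nat_lit 2)) (.slot (nat_lit 1)) (.slot (nat_lit 1))) (.col (nat_lit 0)) (.slot (nat_lit 2)))) (.col (nat_lit 3)) (.col (nat_lit 2)))) (.col (nat_lit 3)) (.col (nat_lit 2)) (.col (nat_lit 1))
def w410 : Root := .mk (.node (.col (nat_lit 1)) .junk (.node (.node (.col (nat_lit 3)) (.col (nat_lit 2)) (.node (.node (.col (nat_lit 2)) (.slot (nat_lit 1)) (.slot (nat_lit 1))) (.slot (nat_lit 1)) (.slot (nat_lit 2)))) (.col (nat_lit 3)) (.col (nat_lit 2)))) (.col (nat_lit 3)) (.col (nat_lit 2)) (.col (nat_lit 1))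
def w411 : Root := .mk (.node (.col (nat_lit 1)) (.col (nat_lit 3)) (.node (.slot (nat_lit 0)) (.col (nat_lit 3)) (.col (nat_lit 2)))) (.col (nat_lit 3)) (.col (nat_lit 2)) (.node (.col (nat_lit 0)) (.slot (nat_lit 1)) (.slot (nat_lit 1)))
def w412 : Root := .mk (.node (.node (.col (nat_lit 1)) .junk (.node (.col (nat_lit 3)) (.col (nat_lit 2)) (.slot (nat_lit 0)))) (.col (nat_lit 3)) (.col (nat_lit 2))) (.col (nat_lit 3)) (.col (nat_lit 2)) (.node .junk (.col (nat_lit 0)) (.slot (nat_lit 1)))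
def w413 : Root := .mk (.node (.node (.col (nat_lit 1)) .junk (.node (.col (nat_lit 3)) (.col (nat_lit 2)) (.slot (nat_lit 0)))) (.col (nat_lit 3)) (.col (nat_lit 2))) (.col (nat_lit 3)) (.col (nat_lit 2)) (.node (.node (.col (nat_lit 2)) (.slot (nat_lit 0)) (.slot (nat_lit 0))) (.col (nat_lit 0)) .junk)
def l99 : Root := .mk (.node (.node (.col (nat_lit 1)) .junk (.node (.col (nat_lit 3)) (.col (nat_lit 2)) (.slot (nat_lit 0)))) (.col (nat_lit 3)) (.col (nat_lit 2))) (.col (nat_lit 3)) (.col (nat_lit 2)) (.node (.node (.col (nat_lit 2)) (.slot (nat_lit 1)) (.slot (nat_lit 1))) (.col (nat_lit 0)) (.slot (nat_lit 2)))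
def w414 : Root := .mk (.node (.col (nat_lit 1)) .junk (.node (.node (.col (nat_lit 3)) (.col (nat_lit 2)) (.node (.node (.col (nat_lit 2)) (.slot (nat_lit 1)) (.slot (nat_lit 1))) (.slot (nat_lit 1)) (.slot (nat_lit 2)))) (.col (nat_lit 3)) (.col (nat_lit 2)))) (.col (nat_lit 3)) (.col (nat_lit 2)) (.slot (nat_lit 0))
def l100 : Root := .mk (.node (.col (nat_lit 1)) (.col (nat_lit 3)) (.node (.col (nat_lit 3)) (.col (nat_lit 2)) (.slot (nat_lit 3)))) (.node (.col (nat_lit 3)) (.col (nat_lit 2)) (.node (.node (.col (nat_lit 2)) (.slot (nat_lit 1)) (.slot (nat_lit 1))) (.slot (nat_lit 2)) (.slot (nat_lit 1)))) (.col (nat_lit 3)) (.col (nat_lit 2))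
def w416 : Root := .mk (.col (nat_lit 1)) (.col (nat_lit 3)) (.node (.node (.col (nat_lit 3)) (.col (nat_lit 2)) (.node (.node (.col (nat_lit 2)) (.slot (nat_lit 1)) (.slot (nat_lit 1))) (.slot (nat_lit 2)) (.slot (nat_lit 1)))) (.col (nat_lit 3)) (.node (.slot (nat_lit 0)) (.slot (nat_lit 0)) (.slot (nat_lit 0)))) (.node (.node (.col (nat_lit 1)) (.col (nat_lit 3)) (.slot (nat_lit 2))) (.slot (nat_lit 1)) (.slot (nat_lit 1)))
def l101 : Root := .mk (.node (.node (.col (nat_lit 1)) (.col (nat_lit 3)) (.node (.col (nat_lit 0)) (.slot (nat_lit 1)) (.slot (nat_lit 1)))) (.col (nat_lit 3)) (.node (.slot (nat_lit 0)) (.slot (nat_lit 1)) (.slot (nat_lit 1)))) (.col (nat_lit 3)) (.col (nat_lit 2)) (.node (.col (nat_lit 4)) (.slot (nat_lit 1)) (.slot (nat_lit 1)))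
def w417 : Root := .mk (.col (nat_lit 1)) (.col (nat_lit 3)) (.node (.node (.col (nat_lit 3)) (.col (nat_lit 2)) (.node (.node (.col (nat_lit 2)) (.slot (nat_lit 0)) (.slot (nat_lit 0))) (.slot (nat_lit 1)) (.slot (nat_lit 1)))) (.col (nat_lit 3)) (.node (.slot (nat_lit 0)) (.slot (nat_lit 1)) (.slot (nat_lit 1)))) (.node (.col (nat_lit 0)) (.slot (nat_lit 1)) (.slot (nat_lit 1)))
def w418 : Root := .mk (.node (.node (.col (nat_lit 1)) (.col (nat_lit 3)) (.node (.col (nat_lit 2)) (.slot (nat_lit 2)) (.slot (nat_lit 2)))) (.col (nat_lit 3)) (.node (.slot (nat_lit 0)) (.slot (nat_lit 0)) (.slot (nat_lit 0)))) (.col (nat_lit 3)) (.col (nat_lit 2)) (.col (nat_lit 1))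
def w419 : Root := .mk (.node (.node (.col (nat_lit 1)) (.col (nat_lit 3)) (.node (.col (nat_lit 2)) (.slot (nat_lit 1)) (.slot (nat_lit 1)))) (.col (nat_lit 3)) (.node (.slot (nat_lit 0)) (.slot (nat_lit 0)) (.slot (nat_lit 0)))) (.col (nat_lit 3)) (.col (nat_lit 2)) (.node .junk (.col (nat_lit 0)) (.slot (nat_lit 1)))
def w420 : Root := .mk (.node (.node (.col (nat_lit 1)) (.col (nat_lit 3)) (.node (.col (nat_lit 2)) (.slot (nat_lit 1)) (.slot (nat_lit 1)))) (.col (nat_lit 3)) (.node (.slot (nat_lit 0)) (.slot (nat_lit 0)) (.slot (nat_lit 0)))) (.col (nat_lit 3)) (.col (nat_lit 2)) (.node (.node (.col (nat_lit 2)) (.slot (nat_lit 0)) (.slot (nat_lit 0))) (.col (nat_lit 0)) .junk)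
def l102 : Root := .mk (.node (.node (.col (nat_lit 1)) (.col (nat_lit 3)) (.node (.col (nat_lit 2)) (.slot (nat_lit 1)) (.slot (nat_lit 1)))) (.col (nat_lit 3)) (.node (.slot (nat_lit 0)) (.slot (nat_lit 0)) (.slot (nat_lit 0)))) (.col (nat_lit 3)) (.col (nat_lit 2)) (.node (.node (.col (nat_lit 2)) (.slot (nat_lit 1)) (.slot (nat_lit 1))) (.col (nat_lit 0)) (.slot (nat_lit 2)))
def w421 : Root := .mk (.col (nat_lit 1)) (.col (nat_lit 3)) (.node (.node (.col (nat_lit 3)) (.col (nat_lit 2)) (.node (.node (.col (nat_lit 2)) (.slot (nat_lit 1)) (.slot (nat_lit 1))) (.slot (nat_lit 1)) (.slot (nat_lit 2)))) (.col (nat_lit 3)) (.node (.slot (nat_lit 0)) (.slot (nat_lit 0)) (.slot (nat_lit 0)))) (.node (.col (nat_lit 2)) (.slot (nat_lit 1)) (.slot (nat_lit 1)))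
def w425 : Root := .mk (.col (nat_lit 1)) (.col (nat_lit 3)) (.node (.node (.col (nat_lit 3)) (.col (nat_lit 2)) (.node (.node (.col (nat_lit 2)) (.slot (nat_lit 1)) (.slot (nat_lit 1))) (.slot (nat_lit 2)) (.slot (nat_lit 1)))) (.col (nat_lit 3)) (.node (.slot (nat_lit 0)) (.slot (nat_lit 0)) (.slot (nat_lit 0)))) (.node (.node (.col (nat_lit 1)) (.col (nat_lit 2)) (.slot (nat_lit 1))) (.slot (nat_lit 1)) (.slot (nat_lit 1)))
def w426 : Root := .mk (.col (nat_lit 1)) (.col (nat_lit 3)) (.node (.node (.col (nat_lit 3)) (.col (nat_lit 2)) (.node (.node (.col (nat_lit 2)) (.slot (nat_lit 1)) (.slot (nat_lit 1))) (.slot (nat_lit 2)) (.slot (nat_lit 1)))) (.col (nat_lit 3)) (.node (.slot (nat_lit 0)) (.slot (nat_lit 0)) (.slot (nat_lit 0)))) (.node (.node (.col (nat_lit 1)) (.col (nat_lit 4)) (.slot (nat_lit 2))) (.slot (nat_lit 1)) (.slot (nat_lit 1)))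
def w427 : Root := .mk (.node (.node (.col (nat_lit 1)) (.col (nat_lit 3)) (.node (.node (.col (nat_lit 3)) (.col (nat_lit 2)) (.node (.node (.col (nat_lit 2)) (.slot (nat_lit 1)) (.slot (nat_lit 1))) (.slot (nat_lit 2)) (.slot (nat_lit 1)))) (.col (nat_lit 3)) (.node (.slot (nat_lit 0)) (.slot (nat_lit 0)) (.slot (nat_lit 0))))) (.slot (nat_lit 1)) (.slot (nat_lit 1))) (.col (nat_lit 1)) (.node (.col (nat_lit 0)) (.slot (nat_lit 0)) (.slot (nat_lit 0))) (.col (nat_lit 0))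
def w428 : Root := .mk (.col (nat_lit 4)) (.node (.col (nat_lit 1)) (.node (.col (nat_lit 0)) (.slot (nat_lit 0)) (.slot (nat_lit 0))) (.node (.col (nat_lit 1)) (.slot (nat_lit 0)) (.slot (nat_lit 0)))) (.col (nat_lit 2)) (.node (.col (nat_lit 1)) (.col (nat_lit 2)) (.slot (nat_lit 1)))
def w429 : Root := .mk (.col (nat_lit 4)) (.node (.col (nat_lit 1)) (.slot (nat_lit 0)) (.slot (nat_lit 0))) (.col (nat_lit 2)) (.node (.col (nat_lit 1)) (.node (.col (nat_lit 0)) (.slot (nat_lit 1)) (.slot (nat_lit 1))) (.slot (nat_lit 2)))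
def w430 : Root := .mk (.col (nat_lit 4)) (.node (.col (nat_lit 1)) (.node (.col (nat_lit 0)) (.slot (nat_lit 0)) (.slot (nat_lit 0))) (.slot (nat_lit 0))) (.col (nat_lit 2)) (.node (.col (nat_lit 1)) (.node (.col (nat_lit 1)) (.slot (nat_lit 0)) (.slot (nat_lit 0))) (.slot (nat_lit 1)))
def w431 : Root := .mk (.col (nat_lit 4)) (.node (.col (nat_lit 1)) (.slot (nat_lit 0)) (.slot (nat_lit 0))) (.col (nat_lit 2)) (.node (.col (nat_lit 1)) (.node (.col (nat_lit 2)) (.slot (nat_lit 1)) (.slot (nat_lit 0))) (.slot (nat_lit 1)))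
def l103 : Root := .mk (.col (nat_lit 4)) (.node (.col (nat_lit 1)) (.slot (nat_lit 0)) (.node (.col (nat_lit 1)) (.slot (nat_lit 0)) (.slot (nat_lit 0)))) (.col (nat_lit 2)) (.node (.col (nat_lit 1)) (.col (nat_lit 0)) (.slot (nat_lit 1)))
def w432 : Root := .mk (.col (nat_lit 4)) (.node (.col (nat_lit 1)) (.slot (nat_lit 0)) (.node (.col (nat_lit 1)) (.slot (nat_lit 0)) (.slot (nat_lit 0)))) (.col (nat_lit 2)) (.node (.col (nat_lit 1)) (.slot (nat_lit 1)) (.slot (nat_lit 1)))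
def l104 : Root := .mk (.col (nat_lit 4)) (.node (.col (nat_lit 1)) (.node (.col (nat_lit 0)) (.slot (nat_lit 1)) (.slot (nat_lit 0))) (.node (.col (nat_lit 1)) (.slot (nat_lit 0)) (.slot (nat_lit 0)))) (.col (nat_lit 2)) (.node (.col (nat_lit 1)) (.slot (nat_lit 2)) (.slot (nat_lit 2)))
def w433 : Root := .mk (.col (nat_lit 4)) (.node (.col (nat_lit 1)) (.node (.col (nat_lit 0)) (.slot (nat_lit 1)) (.slot (nat_lit 0))) (.node (.col (nat_lit 1)) (.slot (nat_lit 0)) (.slot (nat_lit 0)))) (.col (nat_lit 2)) (.slot (nat_lit 3))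
def l105 : Root := .mk (.col (nat_lit 1)) (.col (nat_lit 3)) (.col (nat_lit 0)) (.node (.node (.col (nat_lit 1)) (.node (.col (nat_lit 0)) (.slot (nat_lit 1)) (.slot (nat_lit 0))) (.node (.col (nat_lit 1)) (.slot (nat_lit 0)) (.slot (nat_lit 0)))) (.col (nat_lit 2)) (.slot (nat_lit 3)))
def w434 : Root := .mk (.col (nat_lit 1)) (.col (nat_lit 3)) (.col (nat_lit 0)) (.node (.node (.col (nat_lit 1)) (.node (.col (nat_lit 0)) (.slot (nat_lit 1)) (.slot (nat_lit 0))) (.node (.col (nat_lit 1)) (.slot (nat_lit 0)) (.slot (nat_lit 0)))) (.slot (nat_lit 1)) (.slot (nat_lit 3)))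
def l106 : Root := .mk (.col (nat_lit 1)) (.col (nat_lit 3)) (.col (nat_lit 4)) (.node (.node (.col (nat_lit 1)) (.node (.col (nat_lit 0)) (.slot (nat_lit 1)) (.slot (nat_lit 0))) (.col (nat_lit 3))) (.slot (nat_lit 1)) (.slot (nat_lit 1)))
def w435 : Root := .mk (.col (nat_lit 1)) (.col (nat_lit 3)) (.col (nat_lit 4)) (.node (.node (.col (nat_lit 1)) (.node (.col (nat_lit 0)) (.slot (nat_lit 1)) (.slot (nat_lit 0))) (.node (.col (nat_lit 1)) (.slot (nat_lit 0)) (.slot (nat_lit 0)))) (.slot (nat_lit 1)) (.slot (nat_lit 1)))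
def w436 : Root := .mk (.col (nat_lit 1)) (.col (nat_lit 3)) (.node (.col (nat_lit 0)) (.col (nat_lit 3)) (.slot (nat_lit 0))) (.node (.node (.col (nat_lit 1)) (.node (.col (nat_lit 0)) (.slot (nat_lit 1)) (.slot (nat_lit 1))) (.col (nat_lit 3))) (.col (nat_lit 1)) (.slot (nat_lit 1)))
def w437 : Root := .mk (.col (nat_lit 1)) (.col (nat_lit 3)) (.node (.col (nat_lit 0)) (.col (nat_lit 3)) (.slot (nat_lit 0))) (.node (.node (.col (nat_lit 1)) (.node (.col (nat_lit 0)) (.slot (nat_lit 1)) (.slot (nat_lit 1))) (.col (nat_lit 3))) (.col (nat_lit 3)) (.slot (nat_lit 1)))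
def w438 : Root := .mk (.col (nat_lit 1)) (.col (nat_lit 3)) (.slot (nat_lit 0)) (.node (.node (.col (nat_lit 1)) (.node (.col (nat_lit 0)) (.slot (nat_lit 1)) (.slot (nat_lit 1))) (.col (nat_lit 3))) (.node (.col (nat_lit 0)) (.slot (nat_lit 0)) (.slot (nat_lit 0))) (.slot (nat_lit 2)))
def w439 : Root := .mk (.col (nat_lit 1)) (.col (nat_lit 3)) (.node (.col (nat_lit 0)) .junk (.node (.slot (nat_lit 0)) (.slot (nat_lit 0)) (.slot (nat_lit 0)))) (.node (.node (.col (nat_lit 1)) (.node (.col (nat_lit 0)) (.slot (nat_lit 1)) (.slot (nat_lit 1))) (.col (nat_lit 3))) (.slot (nat_lit 0)) (.slot (nat_lit 1)))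
def w440 : Root := .mk (.node (.node (.col (nat_lit 1)) (.col (nat_lit 3)) (.node (.col (nat_lit 0)) (.col (nat_lit 3)) (.node (.slot (nat_lit 0)) (.slot (nat_lit 0)) (.slot (nat_lit 0))))) (.slot (nat_lit 1)) (.slot (nat_lit 1))) (.col (nat_lit 1)) (.node (.col (nat_lit 0)) (.col (nat_lit 1)) (.slot (nat_lit 0))) (.col (nat_lit 3))
def w441 : Root := .mk (.node (.node (.col (nat_lit 1)) (.col (nat_lit 3)) (.node (.col (nat_lit 0)) (.col (nat_lit 3)) (.node (.slot (nat_lit 0)) (.slot (nat_lit 0)) (.slot (nat_lit 0))))) (.slot (nat_lit 1)) (.slot (nat_lit 1))) (.col (nat_lit 1)) (.node (.col (nat_lit 0)) (.col (nat_lit 3)) (.slot (nat_lit 0))) (.col (nat_lit 3))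
def w442 : Root := .mk (.node (.node (.col (nat_lit 1)) (.col (nat_lit 3)) (.slot (nat_lit 0))) (.slot (nat_lit 1)) (.slot (nat_lit 1))) (.col (nat_lit 1)) (.node (.col (nat_lit 0)) (.node (.col (nat_lit 0)) (.slot (nat_lit 0)) (.slot (nat_lit 0))) (.slot (nat_lit 2))) (.col (nat_lit 3))
def l107 : Root := .mk (.node (.node (.col (nat_lit 1)) (.col (nat_lit 3)) (.node (.col (nat_lit 0)) (.col (nat_lit 3)) (.node (.slot (nat_lit 0)) (.slot (nat_lit 0)) (.slot (nat_lit 0))))) (.slot (nat_lit 1)) (.slot (nat_lit 2))) (.col (nat_lit 1)) (.node (.col (nat_lit 0)) (.slot (nat_lit 2)) (.slot (nat_lit 2))) (.col (nat_lit 3))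
def w443 : Root := .mk (.node (.col (nat_lit 1)) (.col (nat_lit 3)) (.node (.node (.col (nat_lit 1)) (.node (.col (nat_lit 0)) (.slot (nat_lit 2)) (.slot (nat_lit 2))) (.node (.col (nat_lit 1)) (.slot (nat_lit 0)) (.slot (nat_lit 0)))) (.slot (nat_lit 2)) (.slot (nat_lit 1)))) (.col (nat_lit 0)) (.col (nat_lit 3)) (.node (.slot (nat_lit 0)) (.slot (nat_lit 0)) (.slot (nat_lit 0)))
def w444 : Root := .mk (.col (nat_lit 1)) (.col (nat_lit 3)) (.node (.node (.col (nat_lit 3)) (.col (nat_lit 2)) (.node (.node (.col (nat_lit 2)) (.slot (nat_lit 1)) (.slot (nat_lit 1))) (.slot (nat_lit 2)) (.slot (nat_lit 1)))) (.col (nat_lit 3)) (.node (.slot (nat_lit 0)) (.slot (nat_lit 0)) (.slot (nat_lit 0)))) (.node (.node (.col (nat_lit 1)) (.node (.col (nat_lit 0)) (.slot (nat_lit 2)) (.slot (nat_lit 2))) (.node (.col (nat_lit 1)) (.slot (nat_lit 0)) (.slot (nat_lit 0)))) (.slot (nat_lit 2)) (.slot (nat_lit 1)))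
def w445 : Root := .mk (.col (nat_lit 1)) (.col (nat_lit 3)) (.node (.node (.col (nat_lit 3)) (.col (nat_lit 2)) (.node (.node (.col (nat_lit 2)) (.slot (nat_lit 0)) (.slot (nat_lit 0))) (.slot (nat_lit 1)) (.slot (nat_lit 1)))) (.col (nat_lit 3)) (.node (.slot (nat_lit 0)) (.slot (nat_lit 1)) (.slot (nat_lit 1)))) (.node (.node (.col (nat_lit 1)) (.node (.col (nat_lit 0)) (.slot (nat_lit 1)) (.slot (nat_lit 1))) (.node (.col (nat_lit 2)) (.slot (nat_lit 1)) (.slot (nat_lit 0)))) (.slot (nat_lit 1)) (.slot (nat_lit 1)))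
def w446 : Root := .mk (.col (nat_lit 1)) (.col (nat_lit 3)) (.node (.node (.col (nat_lit 3)) (.col (nat_lit 2)) (.node (.node (.col (nat_lit 2)) (.slot (nat_lit 1)) (.slot (nat_lit 1))) (.slot (nat_lit 2)) (.slot (nat_lit 1)))) (.col (nat_lit 3)) (.node (.slot (nat_lit 0)) (.slot (nat_lit 0)) (.slot (nat_lit 0)))) (.node (.node (.col (nat_lit 1)) (.node (.col (nat_lit 0)) (.slot (nat_lit 1)) (.slot (nat_lit 1))) (.node (.col (nat_lit 3)) (.slot (nat_lit 1)) (.slot (nat_lit 0)))) (.slot (nat_lit 1)) (.slot (nat_lit 1)))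
def w447 : Root := .mk (.col (nat_lit 1)) (.col (nat_lit 3)) (.node (.node (.col (nat_lit 3)) (.col (nat_lit 2)) (.node (.node (.col (nat_lit 2)) (.slot (nat_lit 1)) (.slot (nat_lit 1))) (.slot (nat_lit 2)) (.slot (nat_lit 1)))) (.col (nat_lit 3)) (.node (.slot (nat_lit 0)) (.slot (nat_lit 0)) (.slot (nat_lit 0)))) (.node (.node (.col (nat_lit 1)) (.node (.col (nat_lit 0)) (.slot (nat_lit 1)) (.slot (nat_lit 1))) (.node (.col (nat_lit 4)) (.slot (nat_lit 1)) (.slot (nat_lit 0)))) (.slot (nat_lit 1)) (.slot (nat_lit 1)))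
def w448 : Root := .mk (.col (nat_lit 4)) (.node (.col (nat_lit 1)) (.node (.col (nat_lit 0)) (.slot (nat_lit 1)) (.slot (nat_lit 0))) (.node (.slot (nat_lit 0)) (.slot (nat_lit 0)) (.slot (nat_lit 0)))) (.col (nat_lit 2)) (.slot (nat_lit 3))
def l108 : Root := .mk (.col (nat_lit 1)) (.col (nat_lit 3)) (.col (nat_lit 0)) (.node (.node (.col (nat_lit 1)) (.node (.col (nat_lit 0)) (.slot (nat_lit 1)) (.slot (nat_lit 0))) (.node (.slot (nat_lit 0)) (.slot (nat_lit 0)) (.slot (nat_lit 0)))) (.col (nat_lit 2)) (.slot (nat_lit 3)))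
def w449 : Root := .mk (.col (nat_lit 1)) (.col (nat_lit 3)) (.col (nat_lit 0)) (.node (.node (.col (nat_lit 1)) (.node (.col (nat_lit 0)) (.slot (nat_lit 1)) (.slot (nat_lit 0))) (.node (.slot (nat_lit 0)) (.slot (nat_lit 0)) (.slot (nat_lit 0)))) (.slot (nat_lit 1)) (.slot (nat_lit 3)))
def w450 : Root := .mk (.node (.col (nat_lit 1)) (.col (nat_lit 3)) (.node (.node (.col (nat_lit 1)) (.node (.col (nat_lit 0)) (.slot (nat_lit 2)) (.slot (nat_lit 2))) (.node (.slot (nat_lit 0)) (.slot (nat_lit 0)) (.slot (nat_lit 0)))) (.slot (nat_lit 2)) (.slot (nat_lit 1)))) (.col (nat_lit 0)) (.col (nat_lit 3)) (.node (.slot (nat_lit 0)) (.slot (nat_lit 0)) (.slot (nat_lit 0)))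
def w451 : Root := .mk (.col (nat_lit 1)) (.col (nat_lit 3)) (.node (.node (.col (nat_lit 3)) (.col (nat_lit 2)) (.node (.node (.col (nat_lit 2)) (.slot (nat_lit 1)) (.slot (nat_lit 1))) (.slot (nat_lit 2)) (.slot (nat_lit 1)))) (.col (nat_lit 3)) (.node (.slot (nat_lit 0)) (.slot (nat_lit 0)) (.slot (nat_lit 0)))) (.node (.node (.col (nat_lit 1)) (.node (.col (nat_lit 0)) (.slot (nat_lit 2)) (.slot (nat_lit 2))) (.node (.slot (nat_lit 0)) (.slot (nat_lit 0)) (.slot (nat_lit 0)))) (.slot (nat_lit 2)) (.slot (nat_lit 1)))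
def w452 : Root := .mk (.node (.col (nat_lit 1)) (.col (nat_lit 3)) (.node (.node (.col (nat_lit 1)) (.node (.col (nat_lit 0)) (.slot (nat_lit 1)) (.slot (nat_lit 1))) (.slot (nat_lit 2))) (.col (nat_lit 1)) (.slot (nat_lit 2)))) (.col (nat_lit 4)) (.col (nat_lit 3)) (.node (.slot (nat_lit 0)) (.slot (nat_lit 0)) (.slot (nat_lit 0)))
def w453 : Root := .mk (.col (nat_lit 1)) (.col (nat_lit 3)) (.node (.node (.col (nat_lit 3)) (.col (nat_lit 2)) (.node (.node (.col (nat_lit 2)) (.slot (nat_lit 1)) (.slot (nat_lit 1))) (.slot (nat_lit 2)) (.slot (nat_lit 1)))) (.col (nat_lit 3)) (.node (.slot (nat_lit 0)) (.slot (nat_lit 0)) (.slot (nat_lit 0)))) (.node (.node (.col (nat_lit 1)) (.node (.col (nat_lit 0)) (.slot (nat_lit 1)) (.slot (nat_lit 1))) (.slot (nat_lit 2))) (.col (nat_lit 1)) (.slot (nat_lit 2)))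
def w454 : Root := .mk (.col (nat_lit 1)) (.col (nat_lit 3)) (.node (.node (.col (nat_lit 3)) (.col (nat_lit 2)) (.node (.node (.col (nat_lit 2)) (.slot (nat_lit 1)) (.slot (nat_lit 1))) (.slot (nat_lit 2)) (.slot (nat_lit 1)))) (.col (nat_lit 3)) (.node (.slot (nat_lit 0)) (.slot (nat_lit 0)) (.slot (nat_lit 0)))) (.node (.node (.col (nat_lit 1)) (.node (.col (nat_lit 0)) (.slot (nat_lit 1)) (.slot (nat_lit 1))) (.slot (nat_lit 2))) (.col (nat_lit 3)) (.slot (nat_lit 1)))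
def w455 : Root := .mk (.col (nat_lit 2)) (.node (.col (nat_lit 1)) (.node (.col (nat_lit 0)) (.slot (nat_lit 1)) (.slot (nat_lit 1))) (.slot (nat_lit 2))) (.node (.col (nat_lit 0)) (.slot (nat_lit 1)) (.slot (nat_lit 1))) (.slot (nat_lit 2))
def w456 : Root := .mk (.col (nat_lit 1)) (.col (nat_lit 3)) (.node (.node (.col (nat_lit 3)) (.col (nat_lit 2)) (.node (.node (.col (nat_lit 2)) (.slot (nat_lit 1)) (.slot (nat_lit 1))) (.slot (nat_lit 2)) (.slot (nat_lit 1)))) (.col (nat_lit 3)) (.node (.slot (nat_lit 0)) (.slot (nat_lit 0)) (.slot (nat_lit 0)))) (.node (.node (.col (nat_lit 1)) (.node (.col (nat_lit 0)) (.slot (nat_lit 1)) (.slot (nat_lit 1))) (.slot (nat_lit 2))) (.node (.col (nat_lit 0)) (.slot (nat_lit 1)) (.slot (nat_lit 1))) (.slot (nat_lit 2)))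
def w457 : Root := .mk (.col (nat_lit 1)) (.col (nat_lit 3)) (.node (.slot (nat_lit 0)) (.col (nat_lit 3)) (.node (.slot (nat_lit 0)) (.slot (nat_lit 0)) (.slot (nat_lit 0)))) (.node (.node (.col (nat_lit 1)) (.node (.col (nat_lit 0)) (.slot (nat_lit 1)) (.slot (nat_lit 1))) (.slot (nat_lit 3))) (.node (.col (nat_lit 1)) (.slot (nat_lit 0)) (.slot (nat_lit 0))) (.slot (nat_lit 2)))
def w458 : Root := .mk (.col (nat_lit 1)) (.col (nat_lit 3)) (.node (.slot (nat_lit 0)) (.col (nat_lit 3)) (.node (.slot (nat_lit 0)) (.slot (nat_lit 0)) (.slot (nat_lit 0)))) (.node (.node (.col (nat_lit 1)) (.node (.col (nat_lit 0)) (.slot (nat_lit 1)) (.slot (nat_lit 1))) (.slot (nat_lit 3))) (.node (.col (nat_lit 2)) (.slot (nat_lit 0)) (.slot (nat_lit 0))) (.slot (nat_lit 2)))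
def w459 : Root := .mk (.col (nat_lit 1)) (.col (nat_lit 3)) (.node (.slot (nat_lit 0)) (.col (nat_lit 3)) (.node (.slot (nat_lit 0)) (.slot (nat_lit 0)) (.slot (nat_lit 0)))) (.node (.node (.col (nat_lit 1)) (.node (.col (nat_lit 0)) (.slot (nat_lit 1)) (.slot (nat_lit 1))) (.slot (nat_lit 3))) (.node (.col (nat_lit 3)) (.slot (nat_lit 0)) (.slot (nat_lit 0))) (.slot (nat_lit 2)))
def l109 : Root := .mk (.col (nat_lit 1)) (.col (nat_lit 3)) (.col (nat_lit 0)) (.node (.node (.col (nat_lit 1)) (.node (.col (nat_lit 0)) (.col (nat_lit 1)) (.slot (nat_lit 1))) (.slot (nat_lit 2))) (.col (nat_lit 2)) (.slot (nat_lit 2)))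
def w460 : Root := .mk (.col (nat_lit 1)) (.col (nat_lit 3)) (.col (nat_lit 0)) (.node (.node (.col (nat_lit 1)) (.node (.col (nat_lit 0)) (.col (nat_lit 1)) (.slot (nat_lit 1))) (.slot (nat_lit 2))) (.slot (nat_lit 1)) (.slot (nat_lit 2)))
def w461 : Root := .mk (.col (nat_lit 2)) (.node (.col (nat_lit 1)) (.node (.col (nat_lit 0)) (.col (nat_lit 1)) (.slot (nat_lit 1))) (.slot (nat_lit 1))) (.col (nat_lit 0)) (.slot (nat_lit 1))
def l110 : Root := .mk (.col (nat_lit 1)) (.col (nat_lit 3)) (.col (nat_lit 4)) (.node (.node (.col (nat_lit 1)) (.node (.col (nat_lit 0)) (.col (nat_lit 1)) (.slot (nat_lit 1))) (.slot (nat_lit 1))) (.col (nat_lit 0)) (.slot (nat_lit 1)))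
def w462 : Root := .mk (.col (nat_lit 1)) (.col (nat_lit 3)) (.col (nat_lit 4)) (.node (.node (.col (nat_lit 1)) (.node (.col (nat_lit 0)) (.col (nat_lit 1)) (.slot (nat_lit 1))) (.slot (nat_lit 1))) (.slot (nat_lit 1)) (.slot (nat_lit 1)))
def w463 : Root := .mk (.col (nat_lit 1)) (.col (nat_lit 3)) (.node (.node (.col (nat_lit 3)) (.col (nat_lit 2)) (.node (.node (.col (nat_lit 2)) (.slot (nat_lit 1)) (.slot (nat_lit 1))) (.slot (nat_lit 2)) (.slot (nat_lit 1)))) (.col (nat_lit 3)) (.node (.slot (nat_lit 0)) (.slot (nat_lit 1)) (.slot (nat_lit 1)))) (.node (.node (.col (nat_lit 1)) (.node (.col (nat_lit 0)) (.col (nat_lit 1)) (.slot (nat_lit 2))) (.slot (nat_lit 1))) (.slot (nat_lit 2)) (.slot (nat_lit 1)))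
def w464 : Root := .mk (.col (nat_lit 1)) (.col (nat_lit 3)) (.node (.node (.col (nat_lit 3)) (.col (nat_lit 2)) (.node (.node (.col (nat_lit 2)) (.slot (nat_lit 1)) (.slot (nat_lit 1))) (.slot (nat_lit 2)) (.slot (nat_lit 1)))) (.col (nat_lit 3)) (.node (.slot (nat_lit 0)) (.slot (nat_lit 0)) (.slot (nat_lit 0)))) (.node (.node (.col (nat_lit 1)) (.node (.col (nat_lit 0)) (.node (.col (nat_lit 0)) (.slot (nat_lit 0)) (.slot (nat_lit 0))) (.slot (nat_lit 2))) (.slot (nat_lit 2))) (.slot (nat_lit 1)) (.slot (nat_lit 1)))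
def w465 : Root := .mk (.col (nat_lit 1)) (.col (nat_lit 3)) (.node (.node (.col (nat_lit 3)) (.col (nat_lit 2)) (.node (.node (.col (nat_lit 2)) (.slot (nat_lit 0)) (.slot (nat_lit 0))) (.slot (nat_lit 1)) (.slot (nat_lit 1)))) (.col (nat_lit 3)) (.node (.slot (nat_lit 0)) (.slot (nat_lit 1)) (.slot (nat_lit 1)))) (.node (.node (.col (nat_lit 1)) (.node (.col (nat_lit 0)) (.node (.col (nat_lit 2)) (.slot (nat_lit 1)) (.slot (nat_lit 1))) (.slot (nat_lit 2))) (.slot (nat_lit 1))) (.slot (nat_lit 1)) (.slot (nat_lit 1)))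
def w466 : Root := .mk (.col (nat_lit 1)) (.col (nat_lit 3)) (.node (.node (.col (nat_lit 3)) (.col (nat_lit 2)) (.node (.node (.col (nat_lit 2)) (.slot (nat_lit 1)) (.slot (nat_lit 1))) (.slot (nat_lit 2)) (.slot (nat_lit 1)))) (.col (nat_lit 3)) (.node (.slot (nat_lit 0)) (.slot (nat_lit 0)) (.slot (nat_lit 0)))) (.node (.node (.col (nat_lit 1)) (.node (.col (nat_lit 0)) (.node (.col (nat_lit 3)) (.slot (nat_lit 1)) (.slot (nat_lit 1))) (.slot (nat_lit 2))) (.slot (nat_lit 1))) (.slot (nat_lit 1)) (.slot (nat_lit 1)))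
def w467 : Root := .mk (.col (nat_lit 1)) (.col (nat_lit 3)) (.node (.node (.col (nat_lit 3)) (.col (nat_lit 2)) (.node (.node (.col (nat_lit 2)) (.slot (nat_lit 0)) (.slot (nat_lit 0))) (.slot (nat_lit 1)) (.slot (nat_lit 1)))) (.col (nat_lit 3)) (.node (.slot (nat_lit 0)) (.slot (nat_lit 1)) (.slot (nat_lit 1)))) (.node (.node (.col (nat_lit 1)) (.node (.col (nat_lit 0)) (.node (.col (nat_lit 4)) (.slot (nat_lit 1)) (.slot (nat_lit 0))) (.slot (nat_lit 1))) (.slot (nat_lit 1))) (.slot (nat_lit 1)) (.slot (nat_lit 1)))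
def w468 : Root := .mk (.col (nat_lit 1)) (.col (nat_lit 3)) (.node (.node (.col (nat_lit 3)) (.col (nat_lit 2)) (.node (.slot (nat_lit 0)) (.slot (nat_lit 0)) (.slot (nat_lit 0)))) (.col (nat_lit 3)) (.node (.col (nat_lit 0)) (.slot (nat_lit 1)) (.slot (nat_lit 1)))) (.node (.node (.col (nat_lit 1)) (.node (.col (nat_lit 0)) (.slot (nat_lit 1)) (.slot (nat_lit 0))) (.slot (nat_lit 1))) (.slot (nat_lit 1)) (.slot (nat_lit 1)))
def w469 : Root := .mk (.col (nat_lit 1)) (.col (nat_lit 3)) (.node (.node (.col (nat_lit 3)) (.col (nat_lit 2)) (.slot (nat_lit 0))) (.col (nat_lit 3)) (.node (.col (nat_lit 1)) (.slot (nat_lit 1)) (.slot (nat_lit 1)))) (.node (.col (nat_lit 4)) (.slot (nat_lit 1)) (.slot (nat_lit 0)))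
def w470 : Root := .mk (.col (nat_lit 1)) (.col (nat_lit 3)) (.node (.node (.col (nat_lit 3)) (.col (nat_lit 2)) (.slot (nat_lit 0))) (.col (nat_lit 3)) (.node (.col (nat_lit 1)) (.slot (nat_lit 1)) (.slot (nat_lit 1)))) (.node (.node (.col (nat_lit 1)) (.node (.col (nat_lit 0)) (.slot (nat_lit 1)) (.slot (nat_lit 1))) (.slot (nat_lit 2))) (.slot (nat_lit 1)) (.slot (nat_lit 0)))
def w471 : Root := .mk (.col (nat_lit 1)) (.col (nat_lit 3)) (.node (.node (.col (nat_lit 3)) (.col (nat_lit 2)) (.node (.slot (nat_lit 0)) (.slot (nat_lit 0)) (.slot (nat_lit 0)))) (.col (nat_lit 3)) (.node (.col (nat_lit 4)) (.slot (nat_lit 1)) (.slot (nat_lit 1)))) (.node (.col (nat_lit 2)) (.slot (nat_lit 1)) .junk)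
def w472 : Root := .mk (.col (nat_lit 1)) (.col (nat_lit 3)) (.node (.node (.col (nat_lit 3)) (.col (nat_lit 2)) (.node (.slot (nat_lit 0)) (.slot (nat_lit 0)) (.slot (nat_lit 0)))) (.col (nat_lit 3)) (.node (.col (nat_lit 4)) (.slot (nat_lit 1)) (.slot (nat_lit 1)))) (.node (.node (.col (nat_lit 1)) (.node (.col (nat_lit 0)) (.slot (nat_lit 1)) (.slot (nat_lit 1))) (.slot (nat_lit 2))) (.slot (nat_lit 1)) (.slot (nat_lit 0)))
def l111 : Root := .mk (.node (.col (nat_lit 1)) (.col (nat_lit 3)) (.node (.col (nat_lit 2)) (.slot (nat_lit 1)) (.slot (nat_lit 0)))) (.col (nat_lit 4)) (.col (nat_lit 3)) (.node .junk (.col (nat_lit 0)) (.col (nat_lit 1)))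
def w473 : Root := .mk (.col (nat_lit 1)) (.col (nat_lit 3)) (.node (.node (.col (nat_lit 3)) (.col (nat_lit 2)) (.slot (nat_lit 0))) (.col (nat_lit 3)) (.node .junk (.col (nat_lit 0)) (.col (nat_lit 1)))) (.node (.col (nat_lit 2)) (.slot (nat_lit 1)) (.slot (nat_lit 0)))
def w476 : Root := .mk (.node (.node (.col (nat_lit 1)) (.col (nat_lit 3)) (.node (.col (nat_lit 2)) (.slot (nat_lit 1)) .junk)) (.col (nat_lit 3)) (.node .junk (.col (nat_lit 0)) (.slot (nat_lit 1)))) (.col (nat_lit 3)) (.col (nat_lit 2)) (.node .junk (.col (nat_lit 0)) (.slot (nat_lit 1)))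
def w477 : Root := .mk (.node (.node (.col (nat_lit 1)) (.col (nat_lit 3)) (.node (.col (nat_lit 2)) (.slot (nat_lit 1)) .junk)) (.col (nat_lit 3)) (.node .junk (.col (nat_lit 0)) (.slot (nat_lit 1)))) (.col (nat_lit 3)) (.col (nat_lit 2)) (.node (.node (.col (nat_lit 2)) (.slot (nat_lit 0)) (.slot (nat_lit 0))) (.col (nat_lit 0)) .junk)
def l112 : Root := .mk (.node (.node (.col (nat_lit 1)) (.col (nat_lit 3)) (.node (.col (nat_lit 2)) (.slot (nat_lit 1)) (.slot (nat_lit 1)))) (.col (nat_lit 3)) (.node (.slot (nat_lit 0)) (.col (nat_lit 0)) (.slot (nat_lit 1)))) (.col (nat_lit 3)) (.col (nat_lit 2)) (.node (.node (.col (nat_lit 2)) (.slot (nat_lit 1)) (.slot (nat_lit 1))) (.col (nat_lit 0)) (.slot (nat_lit 2)))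
def w478 : Root := .mk (.col (nat_lit 1)) (.col (nat_lit 3)) (.node (.node (.col (nat_lit 3)) (.col (nat_lit 2)) (.node (.node (.col (nat_lit 2)) (.slot (nat_lit 1)) (.slot (nat_lit 1))) (.slot (nat_lit 1)) (.slot (nat_lit 2)))) (.col (nat_lit 3)) (.node (.slot (nat_lit 0)) (.col (nat_lit 0)) (.slot (nat_lit 1)))) (.node (.col (nat_lit 2)) (.slot (nat_lit 1)) (.slot (nat_lit 1)))
def w479 : Root := .mk (.col (nat_lit 1)) (.col (nat_lit 3)) (.node (.node (.col (nat_lit 3)) (.col (nat_lit 2)) (.node (.node (.col (nat_lit 2)) (.slot (nat_lit 1)) (.slot (nat_lit 1))) (.slot (nat_lit 2)) (.slot (nat_lit 1)))) (.col (nat_lit 3)) (.node (.slot (nat_lit 0)) (.col (nat_lit 0)) (.slot (nat_lit 1)))) (.node (.node (.col (nat_lit 1)) (.node (.col (nat_lit 0)) (.slot (nat_lit 1)) (.slot (nat_lit 1))) (.slot (nat_lit 2))) (.slot (nat_lit 1)) (.slot (nat_lit 1)))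
def w480 : Root := .mk (.col (nat_lit 1)) (.col (nat_lit 3)) (.node (.node (.col (nat_lit 3)) (.col (nat_lit 2)) (.slot (nat_lit 0))) (.col (nat_lit 3)) (.node (.slot (nat_lit 0)) (.col (nat_lit 1)) (.slot (nat_lit 1)))) (.node (.col (nat_lit 4)) (.slot (nat_lit 1)) (.slot (nat_lit 1)))
def w481 : Root := .mk (.col (nat_lit 1)) (.col (nat_lit 3)) (.node (.node (.col (nat_lit 3)) (.col (nat_lit 2)) (.slot (nat_lit 0))) (.col (nat_lit 3)) (.node (.slot (nat_lit 0)) (.col (nat_lit 1)) (.slot (nat_lit 1)))) (.node (.node (.col (nat_lit 1)) (.node (.col (nat_lit 0)) (.slot (nat_lit 1)) (.slot (nat_lit 1))) (.slot (nat_lit 2))) (.slot (nat_lit 1)) (.slot (nat_lit 1)))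
def w482 : Root := .mk (.col (nat_lit 1)) (.col (nat_lit 3)) (.node (.node (.col (nat_lit 3)) (.col (nat_lit 2)) (.node (.node (.col (nat_lit 2)) (.slot (nat_lit 0)) (.slot (nat_lit 0))) (.slot (nat_lit 1)) (.slot (nat_lit 1)))) (.col (nat_lit 3)) (.node (.slot (nat_lit 0)) (.col (nat_lit 2)) (.slot (nat_lit 1)))) (.node (.node (.col (nat_lit 1)) (.node (.col (nat_lit 0)) (.slot (nat_lit 1)) (.slot (nat_lit 0))) (.slot (nat_lit 1))) (.slot (nat_lit 1)) (.slot (nat_lit 1)))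
def w483 : Root := .mk (.node (.col (nat_lit 1)) (.col (nat_lit 3)) (.node (.node (.col (nat_lit 1)) (.node (.col (nat_lit 0)) (.slot (nat_lit 1)) (.slot (nat_lit 1))) (.slot (nat_lit 2))) (.slot (nat_lit 1)) (.slot (nat_lit 1)))) (.col (nat_lit 0)) (.col (nat_lit 3)) (.node (.slot (nat_lit 0)) (.col (nat_lit 3)) (.slot (nat_lit 0)))
def w484 : Root := .mk (.col (nat_lit 1)) (.col (nat_lit 3)) (.node (.node (.col (nat_lit 3)) (.col (nat_lit 2)) (.node (.node (.col (nat_lit 2)) (.slot (nat_lit 1)) (.slot (nat_lit 1))) (.slot (nat_lit 2)) (.slot (nat_lit 1)))) (.col (nat_lit 3)) (.node (.slot (nat_lit 0)) (.col (nat_lit 3)) (.slot (nat_lit 0)))) (.node (.node (.col (nat_lit 1)) (.node (.col (nat_lit 0)) (.slot (nat_lit 1)) (.slot (nat_lit 1))) (.slot (nat_lit 2))) (.slot (nat_lit 1)) (.slot (nat_lit 1)))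
def w485 : Root := .mk (.col (nat_lit 1)) (.col (nat_lit 3)) (.node (.node (.col (nat_lit 3)) (.col (nat_lit 2)) (.node (.node (.col (nat_lit 2)) (.slot (nat_lit 1)) (.slot (nat_lit 1))) (.slot (nat_lit 2)) (.slot (nat_lit 1)))) (.col (nat_lit 3)) (.node (.slot (nat_lit 0)) (.col (nat_lit 4)) (.slot (nat_lit 1)))) (.node (.node (.col (nat_lit 1)) (.node (.col (nat_lit 0)) (.slot (nat_lit 1)) (.slot (nat_lit 1))) (.slot (nat_lit 2))) (.slot (nat_lit 1)) (.slot (nat_lit 1)))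
def l113 : Root := .mk (.col (nat_lit 1)) (.col (nat_lit 3)) (.node (.node (.col (nat_lit 3)) (.col (nat_lit 2)) (.node (.node (.col (nat_lit 2)) (.slot (nat_lit 1)) (.slot (nat_lit 1))) (.slot (nat_lit 2)) (.slot (nat_lit 1)))) (.col (nat_lit 3)) (.node (.slot (nat_lit 0)) (.slot (nat_lit 3)) (.slot (nat_lit 2)))) (.node (.node (.col (nat_lit 1)) (.node (.col (nat_lit 0)) (.slot (nat_lit 2)) (.slot (nat_lit 2))) (.slot (nat_lit 3))) (.slot (nat_lit 2)) (.slot (nat_lit 2)))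
def w486 : Root := .mk (.col (nat_lit 1)) (.col (nat_lit 3)) (.node (.node (.col (nat_lit 3)) (.col (nat_lit 2)) (.node (.node (.col (nat_lit 2)) (.slot (nat_lit 1)) (.slot (nat_lit 1))) (.slot (nat_lit 2)) (.slot (nat_lit 1)))) (.col (nat_lit 3)) (.node (.slot (nat_lit 0)) (.slot (nat_lit 3)) (.slot (nat_lit 2)))) (.node (.node (.col (nat_lit 1)) (.slot (nat_lit 3)) (.slot (nat_lit 3))) (.slot (nat_lit 2)) (.slot (nat_lit 2)))
def w487 : Root := .mk (.node (.node (.col (nat_lit 1)) (.col (nat_lit 3)) (.node (.node (.col (nat_lit 1)) (.slot (nat_lit 0)) (.slot (nat_lit 0))) (.slot (nat_lit 1)) (.slot (nat_lit 1)))) (.col (nat_lit 3)) (.slot (nat_lit 2))) (.col (nat_lit 3)) (.col (nat_lit 2)) (.node (.col (nat_lit 0)) (.slot (nat_lit 1)) (.slot (nat_lit 1)))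
def w488 : Root := .mk (.col (nat_lit 1)) (.col (nat_lit 3)) (.node (.node (.col (nat_lit 3)) (.col (nat_lit 2)) (.node (.col (nat_lit 1)) (.slot (nat_lit 2)) (.slot (nat_lit 2)))) (.col (nat_lit 3)) (.slot (nat_lit 1))) (.col (nat_lit 2))
def w489 : Root := .mk (.col (nat_lit 1)) (.col (nat_lit 3)) (.node (.node (.col (nat_lit 3)) (.col (nat_lit 2)) (.slot (nat_lit 0))) (.col (nat_lit 3)) (.slot (nat_lit 3))) (.node (.col (nat_lit 3)) (.col (nat_lit 0)) (.slot (nat_lit 3)))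
def w490 : Root := .mk (.col (nat_lit 1)) (.col (nat_lit 3)) (.node (.node (.col (nat_lit 3)) (.col (nat_lit 2)) (.node (.col (nat_lit 1)) (.slot (nat_lit 1)) (.slot (nat_lit 1)))) (.col (nat_lit 3)) (.slot (nat_lit 1))) (.node (.node (.col (nat_lit 1)) (.slot (nat_lit 0)) (.slot (nat_lit 0))) (.col (nat_lit 0)) .junk)
def l114 : Root := .mk (.col (nat_lit 1)) (.col (nat_lit 3)) (.node (.node (.col (nat_lit 3)) (.col (nat_lit 2)) (.node (.col (nat_lit 1)) (.slot (nat_lit 1)) (.slot (nat_lit 1)))) (.col (nat_lit 3)) (.slot (nat_lit 3))) (.node (.node (.col (nat_lit 1)) (.slot (nat_lit 1)) (.slot (nat_lit 1))) (.col (nat_lit 0)) (.slot (nat_lit 3)))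
def w491 : Root := .mk (.node (.node (.col (nat_lit 1)) (.col (nat_lit 3)) (.node (.node (.col (nat_lit 1)) (.slot (nat_lit 1)) (.slot (nat_lit 1))) (.slot (nat_lit 1)) (.slot (nat_lit 3)))) (.col (nat_lit 3)) (.slot (nat_lit 3))) (.col (nat_lit 3)) (.col (nat_lit 2)) (.node (.col (nat_lit 1)) (.slot (nat_lit 1)) (.slot (nat_lit 1)))
def w492 : Root := .mk (.node (.node (.col (nat_lit 1)) (.col (nat_lit 3)) (.node (.node (.col (nat_lit 1)) (.slot (nat_lit 1)) (.slot (nat_lit 1))) (.slot (nat_lit 2)) (.slot (nat_lit 1)))) (.col (nat_lit 3)) (.slot (nat_lit 3))) (.col (nat_lit 3)) (.col (nat_lit 2)) (.node (.col (nat_lit 3)) (.slot (nat_lit 3)) (.slot (nat_lit 1)))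
def w493 : Root := .mk (.node (.node (.col (nat_lit 1)) (.col (nat_lit 3)) (.node (.node (.col (nat_lit 1)) (.slot (nat_lit 1)) (.slot (nat_lit 1))) (.slot (nat_lit 2)) (.slot (nat_lit 1)))) (.col (nat_lit 3)) (.slot (nat_lit 3))) (.col (nat_lit 3)) (.col (nat_lit 2)) (.node (.node (.col (nat_lit 2)) (.slot (nat_lit 0)) (.slot (nat_lit 0))) (.col (nat_lit 2)) (.slot (nat_lit 3)))
def w494 : Root := .mk (.node (.node (.col (nat_lit 1)) (.col (nat_lit 3)) (.node (.node (.col (nat_lit 1)) (.slot (nat_lit 1)) (.slot (nat_lit 1))) (.slot (nat_lit 2)) (.slot (nat_lit 1)))) (.col (nat_lit 3)) (.slot (nat_lit 1))) (.col (nat_lit 3)) (.col (nat_lit 2)) (.node (.node (.col (nat_lit 2)) (.slot (nat_lit 1)) (.slot (nat_lit 1))) (.col (nat_lit 3)) (.slot (nat_lit 2)))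
def w495 : Root := .mk (.col (nat_lit 0)) (.col (nat_lit 3)) (.col (nat_lit 2)) (.node (.node (.col (nat_lit 2)) (.slot (nat_lit 0)) (.slot (nat_lit 0))) (.node (.col (nat_lit 0)) (.slot (nat_lit 1)) (.slot (nat_lit 1))) (.slot (nat_lit 2)))
def w496 : Root := .mk (.node (.node (.col (nat_lit 1)) (.col (nat_lit 3)) (.node (.node (.col (nat_lit 1)) (.slot (nat_lit 1)) (.slot (nat_lit 1))) (.slot (nat_lit 2)) (.slot (nat_lit 1)))) (.col (nat_lit 3)) (.slot (nat_lit 3))) (.col (nat_lit 3)) (.col (nat_lit 2)) (.node (.node (.col (nat_lit 2)) (.slot (nat_lit 0)) (.slot (nat_lit 0))) (.node (.col (nat_lit 0)) (.slot (nat_lit 1)) (.slot (nat_lit 1))) (.slot (nat_lit 2)))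
def w497 : Root := .mk (.col (nat_lit 0)) (.col (nat_lit 3)) (.col (nat_lit 2)) (.node (.node (.col (nat_lit 2)) (.slot (nat_lit 1)) (.slot (nat_lit 1))) (.node (.col (nat_lit 1)) (.slot (nat_lit 0)) (.slot (nat_lit 0))) (.slot (nat_lit 2)))
def w498 : Root := .mk (.node (.node (.col (nat_lit 1)) (.col (nat_lit 3)) (.node (.node (.col (nat_lit 1)) (.slot (nat_lit 1)) (.slot (nat_lit 1))) (.slot (nat_lit 2)) (.slot (nat_lit 1)))) (.col (nat_lit 3)) (.slot (nat_lit 3))) (.col (nat_lit 3)) (.col (nat_lit 2)) (.node (.node (.col (nat_lit 2)) (.slot (nat_lit 1)) (.slot (nat_lit 1))) (.node (.col (nat_lit 1)) (.slot (nat_lit 0)) (.slot (nat_lit 0))) (.slot (nat_lit 2)))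
def w499 : Root := .mk (.col (nat_lit 1)) (.col (nat_lit 3)) (.col (nat_lit 2)) (.node (.node (.col (nat_lit 2)) (.slot (nat_lit 1)) (.slot (nat_lit 1))) (.node (.col (nat_lit 2)) (.slot (nat_lit 1)) (.slot (nat_lit 1))) (.col (nat_lit 1)))
def w500 : Root := .mk (.slot (nat_lit 0)) (.col (nat_lit 3)) (.col (nat_lit 2)) (.node (.node (.col (nat_lit 2)) (.col (nat_lit 0)) (.slot (nat_lit 1))) (.node (.col (nat_lit 2)) (.slot (nat_lit 1)) (.slot (nat_lit 0))) (.col (nat_lit 1)))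
def w501 : Root := .mk (.node (.slot (nat_lit 0)) (.col (nat_lit 3)) (.slot (nat_lit 0))) (.col (nat_lit 3)) (.col (nat_lit 2)) (.node (.node (.col (nat_lit 2)) (.col (nat_lit 1)) (.slot (nat_lit 0))) (.node (.col (nat_lit 2)) (.slot (nat_lit 1)) (.slot (nat_lit 0))) (.col (nat_lit 1)))
def l115 : Root := .mk (.node (.slot (nat_lit 0)) (.col (nat_lit 3)) (.slot (nat_lit 0))) (.col (nat_lit 3)) (.col (nat_lit 2)) (.node (.node (.col (nat_lit 2)) (.slot (nat_lit 1)) (.slot (nat_lit 1))) (.node (.col (nat_lit 2)) (.slot (nat_lit 1)) (.slot (nat_lit 1))) (.col (nat_lit 1)))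
def w502 : Root := .mk (.node (.slot (nat_lit 0)) (.col (nat_lit 3)) (.slot (nat_lit 0))) (.col (nat_lit 3)) (.col (nat_lit 2)) (.node (.node (.col (nat_lit 2)) (.slot (nat_lit 1)) (.slot (nat_lit 1))) (.node (.col (nat_lit 2)) (.slot (nat_lit 1)) (.slot (nat_lit 1))) (.slot (nat_lit 1)))
def w503 : Root := .mk (.node (.node (.col (nat_lit 1)) (.col (nat_lit 3)) (.node (.node (.col (nat_lit 1)) (.slot (nat_lit 1)) (.slot (nat_lit 1))) (.slot (nat_lit 2)) (.slot (nat_lit 1)))) (.col (nat_lit 3)) (.slot (nat_lit 3))) (.col (nat_lit 3)) (.col (nat_lit 2)) (.node (.node (.col (nat_lit 2)) (.slot (nat_lit 1)) (.slot (nat_lit 1))) (.node (.col (nat_lit 3)) (.slot (nat_lit 0)) (.slot (nat_lit 0))) (.slot (nat_lit 2)))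
def w504 : Root := .mk (.node (.node (.col (nat_lit 1)) (.col (nat_lit 3)) (.node (.node (.col (nat_lit 1)) (.slot (nat_lit 1)) (.slot (nat_lit 1))) (.slot (nat_lit 2)) (.slot (nat_lit 1)))) (.col (nat_lit 3)) (.slot (nat_lit 1))) (.col (nat_lit 3)) (.col (nat_lit 2)) (.node (.node (.col (nat_lit 2)) (.col (nat_lit 0)) (.slot (nat_lit 2))) (.slot (nat_lit 1)) (.slot (nat_lit 1)))
def l116 : Root := .mk (.node (.node (.node (.col (nat_lit 0)) (.col (nat_lit 3)) (.slot (nat_lit 1))) (.col (nat_lit 3)) (.col (nat_lit 2))) (.slot (nat_lit 1)) (.slot (nat_lit 1))) (.col (nat_lit 2)) (.col (nat_lit 1)) (.col (nat_lit 3))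
def w505 : Root := .mk (.node (.col (nat_lit 0)) (.col (nat_lit 3)) (.slot (nat_lit 1))) (.col (nat_lit 3)) (.col (nat_lit 2)) (.node (.node (.col (nat_lit 2)) (.col (nat_lit 1)) (.slot (nat_lit 1))) (.slot (nat_lit 1)) (.slot (nat_lit 1)))
def w506 : Root := .mk (.node (.node (.col (nat_lit 1)) (.col (nat_lit 3)) (.node (.node (.col (nat_lit 1)) (.slot (nat_lit 1)) (.slot (nat_lit 1))) (.slot (nat_lit 2)) (.slot (nat_lit 1)))) (.col (nat_lit 3)) (.slot (nat_lit 1))) (.col (nat_lit 3)) (.col (nat_lit 2)) (.node (.node (.col (nat_lit 2)) (.col (nat_lit 1)) (.slot (nat_lit 1))) (.slot (nat_lit 1)) (.slot (nat_lit 1)))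
def w507 : Root := .mk (.node (.node (.col (nat_lit 1)) (.col (nat_lit 3)) (.node (.node (.col (nat_lit 1)) (.slot (nat_lit 1)) (.slot (nat_lit 1))) (.slot (nat_lit 2)) (.slot (nat_lit 1)))) (.col (nat_lit 3)) (.slot (nat_lit 1))) (.col (nat_lit 3)) (.col (nat_lit 2)) (.node (.node (.col (nat_lit 2)) (.col (nat_lit 3)) (.slot (nat_lit 2))) (.slot (nat_lit 1)) (.slot (nat_lit 1)))
def l117 : Root := .mk (.col (nat_lit 0)) (.col (nat_lit 3)) (.col (nat_lit 2)) (.node (.node (.col (nat_lit 2)) (.node (.col (nat_lit 2)) (.slot (nat_lit 0)) (.slot (nat_lit 0))) (.slot (nat_lit 2))) (.col (nat_lit 1)) (.slot (nat_lit 2)))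
def w508 : Root := .mk (.col (nat_lit 0)) (.col (nat_lit 3)) (.col (nat_lit 2)) (.node (.node (.col (nat_lit 2)) (.node (.col (nat_lit 2)) (.slot (nat_lit 0)) (.slot (nat_lit 0))) (.slot (nat_lit 2))) (.slot (nat_lit 1)) (.slot (nat_lit 2)))
def w509 : Root := .mk (.node (.node (.col (nat_lit 1)) (.col (nat_lit 3)) (.node (.node (.col (nat_lit 1)) (.slot (nat_lit 1)) (.slot (nat_lit 1))) (.slot (nat_lit 2)) (.slot (nat_lit 1)))) (.col (nat_lit 3)) (.slot (nat_lit 3))) (.col (nat_lit 3)) (.col (nat_lit 2)) (.node (.node (.col (nat_lit 2)) (.node (.col (nat_lit 2)) (.slot (nat_lit 0)) (.slot (nat_lit 0))) (.slot (nat_lit 2))) (.slot (nat_lit 2)) (.slot (nat_lit 1)))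
def w510 : Root := .mk (.node (.node (.col (nat_lit 1)) (.col (nat_lit 3)) (.node (.node (.col (nat_lit 1)) (.slot (nat_lit 0)) (.slot (nat_lit 0))) (.slot (nat_lit 1)) (.slot (nat_lit 1)))) (.col (nat_lit 3)) (.slot (nat_lit 2))) (.col (nat_lit 3)) (.col (nat_lit 2)) (.node (.node (.col (nat_lit 2)) (.node (.col (nat_lit 3)) (.slot (nat_lit 1)) (.slot (nat_lit 1))) (.slot (nat_lit 2))) (.slot (nat_lit 1)) (.slot (nat_lit 1)))
def l118 : Root := .mk (.node (.node (.col (nat_lit 1)) (.col (nat_lit 3)) (.node (.node (.col (nat_lit 1)) (.slot (nat_lit 3)) (.slot (nat_lit 3))) (.slot (nat_lit 3)) (.slot (nat_lit 3)))) (.col (nat_lit 3)) (.slot (nat_lit 4))) (.col (nat_lit 3)) (.col (nat_lit 2)) (.node (.node (.col (nat_lit 2)) (.slot (nat_lit 3)) (.slot (nat_lit 3))) (.slot (nat_lit 3)) (.slot (nat_lit 3)))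
def w511 : Root := .mk (.col (nat_lit 1)) (.col (nat_lit 3)) (.node (.node (.col (nat_lit 3)) (.col (nat_lit 2)) (.slot (nat_lit 5))) (.col (nat_lit 3)) (.slot (nat_lit 4))) (.node (.node (.col (nat_lit 1)) (.slot (nat_lit 3)) (.slot (nat_lit 3))) (.slot (nat_lit 3)) (.slot (nat_lit 3)))
def w512 : Root := .mk (.node (.node (.col (nat_lit 1)) (.col (nat_lit 3)) (.node (.node (.col (nat_lit 1)) (.slot (nat_lit 1)) (.slot (nat_lit 1))) (.slot (nat_lit 2)) (.slot (nat_lit 1)))) (.col (nat_lit 3)) (.slot (nat_lit 3))) (.col (nat_lit 3)) (.node (.col (nat_lit 0)) (.slot (nat_lit 3)) (.slot (nat_lit 1))) (.col (nat_lit 0))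
def w513 : Root := .mk (.col (nat_lit 1)) (.col (nat_lit 3)) (.node (.node (.col (nat_lit 3)) (.node (.col (nat_lit 0)) (.slot (nat_lit 1)) (.slot (nat_lit 1))) (.node (.col (nat_lit 1)) (.slot (nat_lit 1)) (.slot (nat_lit 0)))) (.col (nat_lit 3)) (.slot (nat_lit 3))) (.node (.node (.col (nat_lit 1)) (.slot (nat_lit 1)) (.slot (nat_lit 1))) (.slot (nat_lit 2)) (.slot (nat_lit 1)))
def w514 : Root := .mk (.col (nat_lit 1)) (.col (nat_lit 3)) (.node (.node (.col (nat_lit 3)) (.node (.col (nat_lit 0)) (.slot (nat_lit 1)) (.slot (nat_lit 1))) (.node (.col (nat_lit 2)) (.slot (nat_lit 1)) (.slot (nat_lit 0)))) (.col (nat_lit 3)) (.slot (nat_lit 3))) (.node (.node (.col (nat_lit 1)) (.slot (nat_lit 1)) (.slot (nat_lit 1))) (.slot (nat_lit 2)) (.slot (nat_lit 1)))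
def w515 : Root := .mk (.col (nat_lit 1)) (.col (nat_lit 3)) (.node (.node (.col (nat_lit 3)) (.node (.col (nat_lit 0)) (.slot (nat_lit 1)) (.slot (nat_lit 1))) (.node (.col (nat_lit 3)) (.node (.col (nat_lit 2)) (.slot (nat_lit 1)) (.slot (nat_lit 1))) (.slot (nat_lit 2)))) (.col (nat_lit 3)) (.slot (nat_lit 1))) (.node (.slot (nat_lit 0)) (.slot (nat_lit 0)) (.slot (nat_lit 0)))
def w516 : Root := .mk (.col (nat_lit 1)) (.col (nat_lit 3)) (.node (.node (.col (nat_lit 3)) (.node (.col (nat_lit 0)) (.slot (nat_lit 1)) (.slot (nat_lit 1))) (.node (.col (nat_lit 3)) (.col (nat_lit 0)) (.slot (nat_lit 1)))) (.col (nat_lit 3)) (.slot (nat_lit 3))) (.node (.node (.col (nat_lit 1)) (.slot (nat_lit 1)) (.slot (nat_lit 1))) (.slot (nat_lit 2)) (.slot (nat_lit 1)))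
def w517 : Root := .mk (.col (nat_lit 1)) (.col (nat_lit 3)) (.node (.node (.col (nat_lit 3)) (.node (.col (nat_lit 0)) (.slot (nat_lit 1)) (.slot (nat_lit 1))) (.node (.col (nat_lit 3)) (.col (nat_lit 1)) (.slot (nat_lit 1)))) (.col (nat_lit 3)) (.slot (nat_lit 3))) (.node (.node (.col (nat_lit 1)) (.slot (nat_lit 1)) (.slot (nat_lit 1))) (.slot (nat_lit 2)) (.slot (nat_lit 1)))
def w518 : Root := .mk (.col (nat_lit 1)) (.col (nat_lit 3)) (.node (.node (.col (nat_lit 3)) (.node (.col (nat_lit 0)) (.slot (nat_lit 1)) (.slot (nat_lit 1))) (.node (.col (nat_lit 3)) (.col (nat_lit 4)) (.slot (nat_lit 1)))) (.col (nat_lit 3)) (.slot (nat_lit 3))) (.node (.node (.col (nat_lit 1)) (.slot (nat_lit 1)) (.slot (nat_lit 1))) (.slot (nat_lit 2)) (.slot (nat_lit 1)))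
def w519 : Root := .mk (.node (.node (.slot (nat_lit 0)) (.col (nat_lit 3)) (.slot (nat_lit 0))) (.col (nat_lit 3)) (.node (.col (nat_lit 0)) (.slot (nat_lit 1)) (.slot (nat_lit 1)))) (.col (nat_lit 3)) (.node (.col (nat_lit 2)) (.slot (nat_lit 1)) (.slot (nat_lit 0))) (.col (nat_lit 0))
def w520 : Root := .mk (.node (.node (.slot (nat_lit 0)) (.col (nat_lit 3)) (.slot (nat_lit 0))) (.col (nat_lit 3)) (.node (.col (nat_lit 0)) (.col (nat_lit 1)) (.slot (nat_lit 2)))) (.col (nat_lit 3)) (.col (nat_lit 4)) (.col (nat_lit 1))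
def l119 : Root := .mk (.node (.node (.slot (nat_lit 0)) (.col (nat_lit 3)) (.slot (nat_lit 0))) (.col (nat_lit 3)) (.node (.col (nat_lit 0)) (.col (nat_lit 1)) (.slot (nat_lit 2)))) (.col (nat_lit 3)) (.node (.col (nat_lit 2)) (.slot (nat_lit 1)) (.slot (nat_lit 1))) (.col (nat_lit 1))
def w521 : Root := .mk (.node (.node (.slot (nat_lit 0)) (.col (nat_lit 3)) (.slot (nat_lit 0))) (.col (nat_lit 3)) (.node (.col (nat_lit 0)) (.slot (nat_lit 1)) (.slot (nat_lit 2)))) (.col (nat_lit 3)) (.node (.col (nat_lit 2)) (.slot (nat_lit 1)) (.slot (nat_lit 1))) (.col (nat_lit 1))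
def w522 : Root := .mk (.node (.node (.node (.col (nat_lit 1)) (.col (nat_lit 3)) (.node (.node (.col (nat_lit 1)) (.slot (nat_lit 1)) (.slot (nat_lit 1))) (.slot (nat_lit 2)) (.slot (nat_lit 1)))) (.col (nat_lit 3)) (.slot (nat_lit 3))) (.col (nat_lit 3)) (.node (.col (nat_lit 0)) (.slot (nat_lit 1)) (.slot (nat_lit 1)))) (.col (nat_lit 3)) (.node (.col (nat_lit 2)) (.slot (nat_lit 0)) (.slot (nat_lit 0))) (.col (nat_lit 2))
def w523 : Root := .mk (.col (nat_lit 1)) (.col (nat_lit 3)) (.node (.node (.col (nat_lit 3)) (.node (.col (nat_lit 0)) (.slot (nat_lit 1)) (.slot (nat_lit 1))) (.node (.col (nat_lit 3)) (.node (.col (nat_lit 2)) (.slot (nat_lit 1)) (.slot (nat_lit 1))) (.node (.col (nat_lit 0)) (.slot (nat_lit 1)) (.slot (nat_lit 0))))) (.col (nat_lit 3)) (.slot (nat_lit 1))) (.node (.slot (nat_lit 0)) (.slot (nat_lit 0)) (.slot (nat_lit 0)))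
def w524 : Root := .mk (.col (nat_lit 1)) (.col (nat_lit 3)) (.node (.node (.col (nat_lit 3)) (.node (.col (nat_lit 0)) (.slot (nat_lit 1)) (.slot (nat_lit 1))) (.node (.col (nat_lit 3)) (.node (.col (nat_lit 2)) (.slot (nat_lit 1)) (.slot (nat_lit 1))) (.node (.col (nat_lit 1)) (.slot (nat_lit 1)) (.slot (nat_lit 0))))) (.col (nat_lit 3)) (.slot (nat_lit 2))) (.node (.node (.col (nat_lit 1)) (.slot (nat_lit 0)) (.slot (nat_lit 0))) (.slot (nat_lit 1)) (.slot (nat_lit 1)))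
def w525 : Root := .mk (.col (nat_lit 1)) (.col (nat_lit 3)) (.node (.node (.col (nat_lit 3)) (.node (.col (nat_lit 0)) (.slot (nat_lit 1)) (.slot (nat_lit 0))) (.node (.col (nat_lit 3)) (.node (.col (nat_lit 2)) (.slot (nat_lit 1)) (.slot (nat_lit 1))) (.node (.col (nat_lit 3)) (.slot (nat_lit 0)) (.slot (nat_lit 0))))) (.col (nat_lit 3)) (.slot (nat_lit 3))) (.node (.node (.col (nat_lit 1)) (.slot (nat_lit 1)) (.slot (nat_lit 1))) (.slot (nat_lit 2)) (.slot (nat_lit 1)))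
def w526 : Root := .mk (.col (nat_lit 1)) (.col (nat_lit 3)) (.node (.node (.col (nat_lit 3)) (.node (.col (nat_lit 0)) (.slot (nat_lit 1)) (.slot (nat_lit 1))) (.node (.col (nat_lit 3)) (.node (.col (nat_lit 2)) (.slot (nat_lit 1)) (.slot (nat_lit 1))) (.node (.col (nat_lit 4)) (.slot (nat_lit 1)) (.slot (nat_lit 0))))) (.col (nat_lit 3)) (.slot (nat_lit 1))) (.node (.slot (nat_lit 0)) (.slot (nat_lit 0)) (.slot (nat_lit 0)))
def w527 : Root := .mk (.col (nat_lit 1)) (.col (nat_lit 3)) (.node (.node (.col (nat_lit 3)) (.node (.col (nat_lit 0)) (.slot (nat_lit 1)) (.slot (nat_lit 0))) (.node (.col (nat_lit 3)) (.node (.col (nat_lit 2)) (.slot (nat_lit 1)) (.slot (nat_lit 1))) (.node (.slot (nat_lit 0)) (.slot (nat_lit 0)) (.slot (nat_lit 0))))) (.col (nat_lit 3)) (.slot (nat_lit 3))) (.node (.node (.col (nat_lit 1)) (.slot (nat_lit 1)) (.slot (nat_lit 1))) (.slot (nat_lit 2)) (.slot (nat_lit 1)))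
def w528 : Root := .mk (.node (.node (.col (nat_lit 1)) (.col (nat_lit 3)) (.node (.node (.col (nat_lit 1)) (.slot (nat_lit 1)) (.slot (nat_lit 1))) (.slot (nat_lit 2)) (.slot (nat_lit 1)))) (.col (nat_lit 3)) (.slot (nat_lit 1))) (.col (nat_lit 3)) (.col (nat_lit 1)) (.node (.col (nat_lit 3)) (.node (.col (nat_lit 2)) (.slot (nat_lit 1)) (.slot (nat_lit 1))) (.slot (nat_lit 2)))
def w529 : Root := .mk (.node (.node (.col (nat_lit 1)) (.col (nat_lit 3)) (.node (.node (.col (nat_lit 1)) (.slot (nat_lit 1)) (.slot (nat_lit 1))) (.slot (nat_lit 2)) (.slot (nat_lit 1)))) (.col (nat_lit 3)) (.slot (nat_lit 1))) (.col (nat_lit 3)) (.col (nat_lit 4)) (.node (.col (nat_lit 3)) (.node (.col (nat_lit 2)) (.slot (nat_lit 1)) (.slot (nat_lit 1))) (.slot (nat_lit 2)))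
def w530 : Root := .mk (.col (nat_lit 1)) (.col (nat_lit 3)) (.node (.node (.col (nat_lit 3)) (.node (.col (nat_lit 0)) (.slot (nat_lit 1)) (.slot (nat_lit 1))) (.node (.col (nat_lit 3)) (.node (.col (nat_lit 2)) (.col (nat_lit 3)) (.slot (nat_lit 1))) (.slot (nat_lit 1)))) (.col (nat_lit 3)) (.slot (nat_lit 3))) (.node (.node (.col (nat_lit 1)) (.slot (nat_lit 1)) (.slot (nat_lit 1))) (.slot (nat_lit 2)) (.slot (nat_lit 1)))
def w531 : Root := .mk (.col (nat_lit 1)) (.col (nat_lit 3)) (.node (.node (.col (nat_lit 3)) (.node (.col (nat_lit 0)) (.slot (nat_lit 1)) (.slot (nat_lit 1))) (.node (.col (nat_lit 3)) (.node (.col (nat_lit 2)) (.node (.col (nat_lit 0)) (.slot (nat_lit 1)) (.slot (nat_lit 1))) (.slot (nat_lit 2))) (.slot (nat_lit 1)))) (.col (nat_lit 3)) (.slot (nat_lit 1))) (.node (.slot (nat_lit 0)) (.slot (nat_lit 0)) (.slot (nat_lit 0)))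
def w532 : Root := .mk (.col (nat_lit 1)) (.col (nat_lit 3)) (.node (.node (.col (nat_lit 3)) (.node (.col (nat_lit 0)) (.slot (nat_lit 1)) (.slot (nat_lit 1))) (.node (.col (nat_lit 3)) (.node (.col (nat_lit 2)) (.node (.col (nat_lit 1)) (.slot (nat_lit 1)) (.slot (nat_lit 0))) (.slot (nat_lit 1))) (.slot (nat_lit 1)))) (.col (nat_lit 3)) (.slot (nat_lit 1))) (.node (.slot (nat_lit 0)) (.slot (nat_lit 0)) (.slot (nat_lit 0)))
def w533 : Root := .mk (.col (nat_lit 1)) (.col (nat_lit 3)) (.node (.node (.col (nat_lit 3)) (.node (.col (nat_lit 0)) (.slot (nat_lit 1)) (.slot (nat_lit 1))) (.node (.col (nat_lit 3)) (.node (.col (nat_lit 2)) (.node (.col (nat_lit 2)) (.slot (nat_lit 0)) (.slot (nat_lit 0))) (.slot (nat_lit 2))) (.slot (nat_lit 2)))) (.col (nat_lit 3)) (.slot (nat_lit 1))) (.node (.slot (nat_lit 0)) (.slot (nat_lit 0)) (.slot (nat_lit 0)))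
def w534 : Root := .mk (.col (nat_lit 1)) (.col (nat_lit 3)) (.node (.node (.col (nat_lit 3)) (.node (.col (nat_lit 0)) (.slot (nat_lit 1)) (.slot (nat_lit 1))) (.node (.col (nat_lit 3)) (.node (.col (nat_lit 2)) (.node (.col (nat_lit 4)) (.slot (nat_lit 1)) (.slot (nat_lit 1))) (.slot (nat_lit 2))) (.slot (nat_lit 1)))) (.col (nat_lit 3)) (.slot (nat_lit 1))) (.node (.slot (nat_lit 0)) (.slot (nat_lit 0)) (.slot (nat_lit 0)))
def w535 : Root := .mk (.col (nat_lit 0)) (.node (.col (nat_lit 3)) (.node (.col (nat_lit 0)) (.slot (nat_lit 1)) (.slot (nat_lit 1))) (.node (.col (nat_lit 3)) (.node (.col (nat_lit 2)) (.slot (nat_lit 1)) (.slot (nat_lit 1))) (.slot (nat_lit 2)))) (.col (nat_lit 3)) (.slot (nat_lit 1))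
def w536 : Root := .mk (.col (nat_lit 2)) (.node (.col (nat_lit 3)) (.node (.col (nat_lit 0)) (.slot (nat_lit 1)) (.slot (nat_lit 1))) (.node (.col (nat_lit 3)) (.node (.col (nat_lit 2)) (.slot (nat_lit 1)) (.slot (nat_lit 1))) (.slot (nat_lit 2)))) (.col (nat_lit 3)) (.slot (nat_lit 1))
def w537 : Root := .mk (.col (nat_lit 4)) (.node (.col (nat_lit 3)) (.node (.col (nat_lit 0)) (.slot (nat_lit 1)) (.slot (nat_lit 1))) (.node (.col (nat_lit 3)) (.node (.col (nat_lit 2)) (.slot (nat_lit 1)) (.slot (nat_lit 1))) (.slot (nat_lit 2)))) (.col (nat_lit 3)) (.slot (nat_lit 1))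
def w538 : Root := .mk (.node (.col (nat_lit 1)) (.col (nat_lit 3)) (.node (.slot (nat_lit 0)) (.slot (nat_lit 0)) (.slot (nat_lit 0)))) (.node (.col (nat_lit 3)) (.node (.col (nat_lit 0)) (.slot (nat_lit 1)) (.slot (nat_lit 1))) (.node (.col (nat_lit 3)) (.slot (nat_lit 0)) (.slot (nat_lit 0)))) (.col (nat_lit 3)) (.col (nat_lit 0))
def l120 : Root := .mk (.node (.node (.col (nat_lit 1)) (.col (nat_lit 3)) (.slot (nat_lit 0))) (.col (nat_lit 3)) (.col (nat_lit 1))) (.col (nat_lit 3)) (.node (.col (nat_lit 0)) (.col (nat_lit 1)) (.slot (nat_lit 1))) (.col (nat_lit 4))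
def w539 : Root := .mk (.node (.node (.col (nat_lit 1)) (.col (nat_lit 3)) (.slot (nat_lit 0))) (.col (nat_lit 3)) (.col (nat_lit 1))) (.col (nat_lit 3)) (.node (.col (nat_lit 0)) (.slot (nat_lit 1)) (.slot (nat_lit 1))) (.col (nat_lit 4))
def w540 : Root := .mk (.node (.col (nat_lit 1)) (.col (nat_lit 3)) (.slot (nat_lit 0))) (.node (.col (nat_lit 3)) (.node (.col (nat_lit 0)) (.slot (nat_lit 1)) (.slot (nat_lit 1))) (.node (.col (nat_lit 3)) (.node (.col (nat_lit 2)) (.slot (nat_lit 1)) (.slot (nat_lit 1))) (.slot (nat_lit 2)))) (.col (nat_lit 3)) (.col (nat_lit 1))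
def w541 : Root := .mk (.node (.col (nat_lit 1)) .junk (.node (.slot (nat_lit 0)) (.slot (nat_lit 0)) (.slot (nat_lit 0)))) (.node (.col (nat_lit 3)) (.node (.col (nat_lit 0)) (.slot (nat_lit 1)) (.slot (nat_lit 1))) (.node (.col (nat_lit 3)) (.node (.col (nat_lit 2)) (.slot (nat_lit 1)) (.slot (nat_lit 1))) (.slot (nat_lit 2)))) (.col (nat_lit 3)) (.col (nat_lit 2))
def w542 : Root := .mk (.col (nat_lit 1)) (.col (nat_lit 3)) (.node (.node (.col (nat_lit 3)) (.node (.col (nat_lit 0)) (.slot (nat_lit 1)) (.slot (nat_lit 0))) (.node (.col (nat_lit 3)) (.node (.col (nat_lit 2)) (.slot (nat_lit 1)) (.slot (nat_lit 1))) (.slot (nat_lit 1)))) (.col (nat_lit 3)) (.node (.col (nat_lit 0)) (.slot (nat_lit 1)) (.slot (nat_lit 1)))) (.node (.slot (nat_lit 0)) (.slot (nat_lit 0)) (.slot (nat_lit 0)))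
def w543 : Root := .mk (.col (nat_lit 1)) (.col (nat_lit 3)) (.node (.node (.col (nat_lit 3)) (.node (.col (nat_lit 0)) (.slot (nat_lit 1)) (.slot (nat_lit 0))) (.node (.col (nat_lit 3)) (.node (.col (nat_lit 2)) (.slot (nat_lit 1)) (.slot (nat_lit 1))) (.slot (nat_lit 1)))) (.col (nat_lit 3)) (.node (.col (nat_lit 1)) (.slot (nat_lit 1)) (.slot (nat_lit 1)))) (.node (.slot (nat_lit 0)) (.slot (nat_lit 0)) (.slot (nat_lit 0)))
def w544 : Root := .mk (.col (nat_lit 1)) (.col (nat_lit 3)) (.node (.node (.col (nat_lit 3)) (.node (.col (nat_lit 0)) (.slot (nat_lit 1)) (.slot (nat_lit 1))) (.node (.col (nat_lit 3)) (.node (.col (nat_lit 2)) (.slot (nat_lit 1)) (.slot (nat_lit 1))) (.slot (nat_lit 2)))) (.col (nat_lit 3)) (.node (.col (nat_lit 2)) (.slot (nat_lit 1)) (.slot (nat_lit 1)))) (.node (.slot (nat_lit 0)) (.slot (nat_lit 0)) (.slot (nat_lit 0)))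
def w545 : Root := .mk (.node (.node (.col (nat_lit 1)) (.col (nat_lit 3)) (.node (.slot (nat_lit 0)) (.slot (nat_lit 0)) (.slot (nat_lit 0)))) (.col (nat_lit 3)) (.node (.col (nat_lit 3)) (.slot (nat_lit 0)) (.slot (nat_lit 0)))) (.col (nat_lit 3)) (.node (.col (nat_lit 0)) (.slot (nat_lit 1)) (.slot (nat_lit 1))) (.col (nat_lit 1))
def w546 : Root := .mk (.col (nat_lit 1)) (.col (nat_lit 3)) (.node (.node (.col (nat_lit 3)) (.node (.col (nat_lit 0)) (.slot (nat_lit 1)) (.slot (nat_lit 1))) (.node (.col (nat_lit 3)) (.node (.col (nat_lit 2)) (.slot (nat_lit 1)) (.slot (nat_lit 1))) (.slot (nat_lit 2)))) (.col (nat_lit 3)) (.node (.col (nat_lit 3)) (.slot (nat_lit 0)) (.slot (nat_lit 0)))) (.node (.slot (nat_lit 0)) (.slot (nat_lit 0)) (.slot (nat_lit 0)))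
def w547 : Root := .mk (.col (nat_lit 1)) (.col (nat_lit 3)) (.node (.node (.col (nat_lit 3)) (.node (.col (nat_lit 0)) (.slot (nat_lit 1)) (.slot (nat_lit 0))) (.node (.col (nat_lit 3)) (.node (.col (nat_lit 2)) (.slot (nat_lit 1)) (.slot (nat_lit 1))) (.slot (nat_lit 1)))) (.col (nat_lit 3)) (.node (.col (nat_lit 4)) (.slot (nat_lit 1)) (.slot (nat_lit 1)))) (.node (.slot (nat_lit 0)) (.slot (nat_lit 0)) (.slot (nat_lit 0)))
def w548 : Root := .mk (.node (.node (.slot (nat_lit 0)) (.col (nat_lit 3)) (.slot (nat_lit 0))) (.col (nat_lit 3)) (.node (.col (nat_lit 3)) (.node (.col (nat_lit 2)) (.slot (nat_lit 1)) (.slot (nat_lit 1))) (.slot (nat_lit 1)))) (.col (nat_lit 0)) (.col (nat_lit 1)) (.slot (nat_lit 2))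
def w549 : Root := .mk (.node (.slot (nat_lit 0)) (.col (nat_lit 3)) (.slot (nat_lit 0))) (.col (nat_lit 3)) (.node (.col (nat_lit 0)) (.col (nat_lit 2)) .junk) (.node (.col (nat_lit 3)) (.node (.col (nat_lit 2)) (.slot (nat_lit 1)) (.slot (nat_lit 1))) (.slot (nat_lit 2)))
def w550 : Root := .mk (.col (nat_lit 1)) (.col (nat_lit 3)) (.node (.node (.col (nat_lit 3)) (.node (.col (nat_lit 0)) (.col (nat_lit 3)) (.slot (nat_lit 1))) (.node (.col (nat_lit 3)) (.node (.col (nat_lit 2)) (.slot (nat_lit 1)) (.slot (nat_lit 1))) (.slot (nat_lit 1)))) (.col (nat_lit 3)) (.slot (nat_lit 3))) (.node (.node (.col (nat_lit 1)) (.slot (nat_lit 1)) (.slot (nat_lit 1))) (.slot (nat_lit 2)) (.slot (nat_lit 1)))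
def w551 : Root := .mk (.node (.node (.col (nat_lit 1)) .junk (.col (nat_lit 0))) (.col (nat_lit 3)) (.slot (nat_lit 1))) (.col (nat_lit 3)) (.node (.col (nat_lit 0)) (.slot (nat_lit 1)) (.slot (nat_lit 0))) (.node (.col (nat_lit 3)) (.node (.col (nat_lit 2)) (.slot (nat_lit 1)) (.slot (nat_lit 1))) (.slot (nat_lit 1)))
def w552 : Root := .mk (.node (.node (.col (nat_lit 1)) .junk (.col (nat_lit 2))) (.col (nat_lit 3)) (.slot (nat_lit 1))) (.col (nat_lit 3)) (.node (.col (nat_lit 0)) (.slot (nat_lit 1)) (.slot (nat_lit 1))) (.node (.col (nat_lit 3)) (.node (.col (nat_lit 2)) (.slot (nat_lit 1)) (.slot (nat_lit 1))) (.slot (nat_lit 2)))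
def w553 : Root := .mk (.node (.node (.col (nat_lit 1)) .junk (.col (nat_lit 4))) (.col (nat_lit 3)) (.slot (nat_lit 1))) (.col (nat_lit 3)) (.node (.col (nat_lit 0)) (.slot (nat_lit 1)) (.slot (nat_lit 0))) (.node (.col (nat_lit 3)) (.node (.col (nat_lit 2)) (.slot (nat_lit 1)) (.slot (nat_lit 1))) (.slot (nat_lit 1)))
def w554 : Root := .mk (.node (.node (.col (nat_lit 1)) (.col (nat_lit 3)) (.node (.col (nat_lit 0)) (.slot (nat_lit 1)) (.slot (nat_lit 1)))) (.col (nat_lit 3)) (.slot (nat_lit 1))) (.col (nat_lit 3)) (.node (.col (nat_lit 0)) (.slot (nat_lit 1)) .junk) (.col (nat_lit 1))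
def w555 : Root := .mk (.col (nat_lit 1)) (.col (nat_lit 3)) (.node (.node (.col (nat_lit 3)) (.node (.col (nat_lit 0)) (.slot (nat_lit 1)) .junk) (.node (.col (nat_lit 3)) (.node (.col (nat_lit 2)) (.slot (nat_lit 1)) (.slot (nat_lit 1))) (.slot (nat_lit 2)))) (.col (nat_lit 3)) (.slot (nat_lit 1))) (.node (.col (nat_lit 0)) (.slot (nat_lit 1)) (.slot (nat_lit 1)))
def w556 : Root := .mk (.col (nat_lit 1)) (.col (nat_lit 3)) (.node (.node (.col (nat_lit 3)) (.node (.col (nat_lit 0)) (.slot (nat_lit 1)) (.slot (nat_lit 1))) (.node (.col (nat_lit 3)) (.slot (nat_lit 0)) (.slot (nat_lit 0)))) (.col (nat_lit 3)) (.slot (nat_lit 2))) (.node (.col (nat_lit 2)) (.slot (nat_lit 1)) (.slot (nat_lit 1)))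
def w557 : Root := .mk (.node (.node (.col (nat_lit 1)) (.col (nat_lit 3)) (.node (.col (nat_lit 3)) (.slot (nat_lit 1)) (.slot (nat_lit 1)))) (.col (nat_lit 3)) (.slot (nat_lit 1))) (.col (nat_lit 3)) (.node (.col (nat_lit 0)) (.slot (nat_lit 1)) (.slot (nat_lit 1))) (.col (nat_lit 1))
def w558 : Root := .mk (.col (nat_lit 1)) (.col (nat_lit 3)) (.node (.node (.col (nat_lit 3)) (.node (.col (nat_lit 0)) (.slot (nat_lit 1)) (.slot (nat_lit 1))) (.node (.col (nat_lit 3)) (.node (.col (nat_lit 2)) (.slot (nat_lit 1)) (.slot (nat_lit 1))) (.slot (nat_lit 2)))) (.col (nat_lit 3)) (.slot (nat_lit 1))) (.node (.col (nat_lit 3)) (.slot (nat_lit 1)) (.slot (nat_lit 1)))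
def w559 : Root := .mk (.node (.node (.col (nat_lit 1)) (.col (nat_lit 3)) (.node (.slot (nat_lit 0)) (.col (nat_lit 1)) (.slot (nat_lit 0)))) (.col (nat_lit 3)) (.slot (nat_lit 1))) (.col (nat_lit 3)) (.node (.col (nat_lit 0)) (.slot (nat_lit 1)) (.slot (nat_lit 1))) (.col (nat_lit 1))
def w560 : Root := .mk (.col (nat_lit 1)) (.col (nat_lit 3)) (.node (.node (.col (nat_lit 3)) (.node (.col (nat_lit 0)) (.slot (nat_lit 1)) (.slot (nat_lit 1))) (.node (.col (nat_lit 3)) (.node (.col (nat_lit 2)) (.slot (nat_lit 1)) (.slot (nat_lit 1))) (.slot (nat_lit 2)))) (.col (nat_lit 3)) (.slot (nat_lit 1))) (.node (.slot (nat_lit 0)) (.col (nat_lit 1)) (.slot (nat_lit 0)))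
def w561 : Root := .mk (.col (nat_lit 1)) (.col (nat_lit 3)) (.node (.node (.col (nat_lit 3)) (.node (.col (nat_lit 0)) (.slot (nat_lit 1)) (.slot (nat_lit 0))) (.node (.col (nat_lit 3)) (.node (.col (nat_lit 2)) (.slot (nat_lit 1)) (.slot (nat_lit 1))) (.slot (nat_lit 1)))) (.col (nat_lit 3)) (.slot (nat_lit 1))) (.node (.node (.col (nat_lit 1)) (.slot (nat_lit 1)) (.slot (nat_lit 1))) (.col (nat_lit 3)) (.slot (nat_lit 1)))
def l121 : Root := .mk (.col (nat_lit 1)) (.col (nat_lit 3)) (.node (.node (.col (nat_lit 3)) (.node (.col (nat_lit 0)) (.slot (nat_lit 2)) (.slot (nat_lit 2))) (.node (.col (nat_lit 3)) (.node (.col (nat_lit 2)) (.slot (nat_lit 2)) (.slot (nat_lit 2))) (.slot (nat_lit 2)))) (.col (nat_lit 3)) (.slot (nat_lit 3))) (.node (.node (.col (nat_lit 1)) (.slot (nat_lit 1)) (.slot (nat_lit 1))) (.slot (nat_lit 2)) (.slot (nat_lit 1)))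
def w562 : Root := .mk (.col (nat_lit 1)) (.col (nat_lit 3)) (.node (.node (.col (nat_lit 3)) (.node (.col (nat_lit 0)) (.slot (nat_lit 2)) (.slot (nat_lit 2))) (.node (.col (nat_lit 3)) (.slot (nat_lit 3)) (.slot (nat_lit 2)))) (.col (nat_lit 3)) (.slot (nat_lit 3))) (.node (.node (.col (nat_lit 1)) (.slot (nat_lit 1)) (.slot (nat_lit 1))) (.slot (nat_lit 2)) (.slot (nat_lit 1)))
def w563 : Root := .mk (.col (nat_lit 1)) (.col (nat_lit 3)) (.node (.node (.col (nat_lit 3)) (.node (.col (nat_lit 0)) (.slot (nat_lit 1)) (.slot (nat_lit 1))) (.node (.slot (nat_lit 0)) (.col (nat_lit 0)) (.slot (nat_lit 1)))) (.col (nat_lit 3)) (.slot (nat_lit 1))) (.node (.col (nat_lit 0)) (.slot (nat_lit 1)) (.slot (nat_lit 1)))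
def w564 : Root := .mk (.node (.node (.col (nat_lit 1)) .junk (.col (nat_lit 2))) (.col (nat_lit 3)) (.slot (nat_lit 1))) (.col (nat_lit 3)) (.node (.col (nat_lit 0)) (.slot (nat_lit 1)) (.slot (nat_lit 1))) (.node (.slot (nat_lit 0)) (.col (nat_lit 0)) (.slot (nat_lit 1)))
def w565 : Root := .mk (.col (nat_lit 1)) (.col (nat_lit 3)) (.node (.node (.col (nat_lit 3)) (.node (.col (nat_lit 0)) (.slot (nat_lit 1)) (.slot (nat_lit 1))) (.node (.slot (nat_lit 0)) (.col (nat_lit 0)) (.slot (nat_lit 1)))) (.col (nat_lit 3)) (.slot (nat_lit 1))) (.node (.col (nat_lit 0)) (.node (.col (nat_lit 0)) (.slot (nat_lit 0)) (.slot (nat_lit 0))) (.slot (nat_lit 1)))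
def w567 : Root := .mk (.node (.node (.col (nat_lit 1)) .junk (.col (nat_lit 0))) (.col (nat_lit 3)) (.slot (nat_lit 1))) (.col (nat_lit 3)) (.node (.col (nat_lit 0)) (.slot (nat_lit 1)) (.slot (nat_lit 1))) (.node (.slot (nat_lit 0)) (.col (nat_lit 0)) (.slot (nat_lit 1)))
def w569 : Root := .mk (.node (.col (nat_lit 1)) (.col (nat_lit 3)) (.node (.slot (nat_lit 0)) (.slot (nat_lit 0)) (.slot (nat_lit 0)))) (.node (.col (nat_lit 3)) (.node (.col (nat_lit 0)) (.slot (nat_lit 1)) (.slot (nat_lit 1))) (.node (.slot (nat_lit 0)) (.col (nat_lit 0)) (.slot (nat_lit 0)))) (.col (nat_lit 3)) (.col (nat_lit 0))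
def w571 : Root := .mk (.col (nat_lit 1)) (.col (nat_lit 3)) (.node (.node (.col (nat_lit 3)) (.node (.col (nat_lit 0)) (.slot (nat_lit 1)) (.slot (nat_lit 1))) (.node (.slot (nat_lit 0)) (.col (nat_lit 0)) (.slot (nat_lit 1)))) (.col (nat_lit 3)) (.node (.col (nat_lit 1)) (.slot (nat_lit 1)) (.slot (nat_lit 1)))) (.node (.slot (nat_lit 0)) (.slot (nat_lit 0)) (.slot (nat_lit 0)))
def w572 : Root := .mk (.col (nat_lit 0)) (.node (.col (nat_lit 3)) (.node (.col (nat_lit 0)) (.slot (nat_lit 0)) (.slot (nat_lit 0))) (.node (.slot (nat_lit 0)) (.col (nat_lit 0)) (.slot (nat_lit 1)))) (.col (nat_lit 3)) (.node (.col (nat_lit 1)) (.slot (nat_lit 1)) (.slot (nat_lit 1)))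
def w573 : Root := .mk (.col (nat_lit 2)) (.node (.col (nat_lit 3)) (.node (.col (nat_lit 0)) (.slot (nat_lit 1)) (.slot (nat_lit 1))) (.node (.slot (nat_lit 0)) (.col (nat_lit 0)) (.slot (nat_lit 1)))) (.col (nat_lit 3)) (.node (.col (nat_lit 1)) (.slot (nat_lit 1)) .junk)
def w576 : Root := .mk (.node (.node (.col (nat_lit 1)) (.col (nat_lit 3)) (.slot (nat_lit 0))) (.col (nat_lit 3)) (.node (.col (nat_lit 1)) (.slot (nat_lit 1)) (.slot (nat_lit 1)))) (.col (nat_lit 3)) (.col (nat_lit 1)) (.node (.slot (nat_lit 0)) (.col (nat_lit 0)) (.slot (nat_lit 1)))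
def w577 : Root := .mk (.node (.node (.col (nat_lit 1)) (.col (nat_lit 3)) (.node (.slot (nat_lit 0)) (.slot (nat_lit 0)) (.slot (nat_lit 0)))) (.col (nat_lit 3)) (.node (.col (nat_lit 1)) (.slot (nat_lit 1)) (.slot (nat_lit 1)))) (.col (nat_lit 3)) (.col (nat_lit 2)) (.node .junk (.col (nat_lit 0)) (.slot (nat_lit 1)))
def w579 : Root := .mk (.col (nat_lit 1)) (.col (nat_lit 3)) (.node (.node (.col (nat_lit 3)) (.node (.col (nat_lit 0)) (.slot (nat_lit 1)) (.slot (nat_lit 1))) (.node (.slot (nat_lit 0)) (.col (nat_lit 0)) (.slot (nat_lit 1)))) (.col (nat_lit 3)) (.node (.col (nat_lit 1)) (.slot (nat_lit 1)) (.slot (nat_lit 1)))) (.node (.col (nat_lit 3)) (.slot (nat_lit 0)) (.slot (nat_lit 0)))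
def w581 : Root := .mk (.node (.node (.slot (nat_lit 0)) (.col (nat_lit 3)) (.slot (nat_lit 0))) (.col (nat_lit 3)) (.node (.slot (nat_lit 0)) (.col (nat_lit 0)) (.slot (nat_lit 1)))) (.col (nat_lit 0)) (.col (nat_lit 1)) (.slot (nat_lit 1))
def w590 : Root := .mk (.node (.col (nat_lit 1)) (.col (nat_lit 3)) (.node (.slot (nat_lit 0)) (.col (nat_lit 0)) (.col (nat_lit 1)))) (.node (.col (nat_lit 3)) (.node (.col (nat_lit 0)) (.slot (nat_lit 1)) (.slot (nat_lit 1))) (.node (.slot (nat_lit 0)) (.col (nat_lit 0)) (.slot (nat_lit 0)))) (.col (nat_lit 3)) (.col (nat_lit 0))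
def w591 : Root := .mk (.node (.col (nat_lit 1)) (.col (nat_lit 3)) (.node (.node (.col (nat_lit 3)) (.node (.col (nat_lit 0)) (.slot (nat_lit 1)) (.slot (nat_lit 1))) (.node (.slot (nat_lit 0)) (.col (nat_lit 0)) (.slot (nat_lit 0)))) (.col (nat_lit 3)) (.col (nat_lit 0)))) (.col (nat_lit 3)) (.col (nat_lit 0)) (.col (nat_lit 1))
def w592 : Root := .mk (.node (.col (nat_lit 1)) .junk (.node (.slot (nat_lit 0)) (.col (nat_lit 0)) (.col (nat_lit 1)))) (.node (.col (nat_lit 3)) (.node (.col (nat_lit 0)) (.col (nat_lit 3)) (.slot (nat_lit 2))) (.node (.slot (nat_lit 0)) (.col (nat_lit 0)) (.slot (nat_lit 1)))) (.col (nat_lit 3)) (.col (nat_lit 0))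
def w593 : Root := .mk (.node (.col (nat_lit 1)) .junk (.node (.slot (nat_lit 0)) (.col (nat_lit 0)) (.col (nat_lit 1)))) (.node (.col (nat_lit 3)) (.node (.col (nat_lit 0)) (.node (.col (nat_lit 0)) (.slot (nat_lit 0)) (.slot (nat_lit 0))) (.slot (nat_lit 1))) (.node (.slot (nat_lit 0)) (.col (nat_lit 0)) (.slot (nat_lit 1)))) (.col (nat_lit 3)) (.col (nat_lit 0))
def w594 : Root := .mk (.node (.col (nat_lit 1)) .junk (.node (.slot (nat_lit 0)) (.col (nat_lit 0)) (.col (nat_lit 1)))) (.node (.col (nat_lit 3)) (.node (.col (nat_lit 0)) (.node (.col (nat_lit 1)) (.slot (nat_lit 1)) (.slot (nat_lit 1))) (.slot (nat_lit 2))) (.node (.slot (nat_lit 0)) (.col (nat_lit 0)) (.slot (nat_lit 0)))) (.col (nat_lit 3)) (.col (nat_lit 0))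
def w595 : Root := .mk (.node (.col (nat_lit 1)) .junk (.node (.slot (nat_lit 0)) (.col (nat_lit 0)) (.col (nat_lit 1)))) (.node (.col (nat_lit 3)) (.node (.col (nat_lit 0)) (.node (.col (nat_lit 2)) (.slot (nat_lit 1)) (.slot (nat_lit 0))) (.slot (nat_lit 1))) (.node (.slot (nat_lit 0)) (.col (nat_lit 0)) (.slot (nat_lit 0)))) (.col (nat_lit 3)) (.col (nat_lit 0))
def w596 : Root := .mk (.node (.col (nat_lit 1)) .junk (.node (.slot (nat_lit 0)) (.col (nat_lit 0)) (.col (nat_lit 1)))) (.node (.col (nat_lit 3)) (.node (.col (nat_lit 0)) (.node (.col (nat_lit 3)) (.slot (nat_lit 1)) (.slot (nat_lit 0))) (.slot (nat_lit 1))) (.node (.slot (nat_lit 0)) (.col (nat_lit 0)) (.slot (nat_lit 0)))) (.col (nat_lit 3)) (.col (nat_lit 0))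
def w597 : Root := .mk (.node (.col (nat_lit 1)) .junk (.node (.slot (nat_lit 0)) (.col (nat_lit 0)) (.col (nat_lit 1)))) (.node (.col (nat_lit 3)) (.node (.col (nat_lit 0)) (.slot (nat_lit 0)) (.slot (nat_lit 0))) (.node .junk (.col (nat_lit 0)) (.col (nat_lit 1)))) (.col (nat_lit 3)) (.col (nat_lit 0))
def w598 : Root := .mk (.node (.col (nat_lit 1)) (.col (nat_lit 3)) (.node (.slot (nat_lit 0)) (.col (nat_lit 0)) (.col (nat_lit 1)))) (.node (.col (nat_lit 3)) (.node (.col (nat_lit 0)) (.slot (nat_lit 1)) (.slot (nat_lit 1))) (.node (.slot (nat_lit 0)) (.col (nat_lit 0)) (.col (nat_lit 2)))) (.col (nat_lit 3)) (.col (nat_lit 0))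
def w599 : Root := .mk (.node (.col (nat_lit 1)) (.col (nat_lit 3)) (.node (.slot (nat_lit 0)) (.col (nat_lit 0)) (.col (nat_lit 1)))) (.node (.col (nat_lit 3)) (.node (.col (nat_lit 0)) (.slot (nat_lit 1)) (.slot (nat_lit 1))) (.node (.slot (nat_lit 0)) (.col (nat_lit 0)) (.col (nat_lit 3)))) (.col (nat_lit 3)) (.col (nat_lit 0))
def l122 : Root := .mk (.node (.col (nat_lit 1)) (.col (nat_lit 3)) (.node (.node (.col (nat_lit 1)) (.slot (nat_lit 0)) (.slot (nat_lit 0))) (.col (nat_lit 0)) (.col (nat_lit 1)))) (.node (.col (nat_lit 3)) (.node (.col (nat_lit 0)) (.slot (nat_lit 2)) (.slot (nat_lit 2))) (.node (.slot (nat_lit 0)) (.col (nat_lit 0)) (.slot (nat_lit 2)))) (.col (nat_lit 3)) (.col (nat_lit 0))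
def w600 : Root := .mk (.col (nat_lit 1)) (.col (nat_lit 3)) (.node (.node (.col (nat_lit 3)) (.node (.col (nat_lit 0)) (.slot (nat_lit 2)) (.slot (nat_lit 2))) (.node (.slot (nat_lit 0)) (.col (nat_lit 0)) (.slot (nat_lit 2)))) (.col (nat_lit 3)) (.slot (nat_lit 1))) (.node (.node (.col (nat_lit 1)) (.slot (nat_lit 0)) (.slot (nat_lit 0))) (.col (nat_lit 0)) (.col (nat_lit 1)))
def w601 : Root := .mk (.node (.node (.col (nat_lit 1)) (.col (nat_lit 3)) (.node (.node (.col (nat_lit 1)) (.slot (nat_lit 0)) (.slot (nat_lit 0))) (.col (nat_lit 0)) .junk)) (.col (nat_lit 3)) (.slot (nat_lit 1))) (.col (nat_lit 3)) (.node (.col (nat_lit 0)) (.slot (nat_lit 1)) (.slot (nat_lit 1))) (.col (nat_lit 2))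
def w602 : Root := .mk (.node (.col (nat_lit 1)) (.col (nat_lit 3)) (.node (.node (.col (nat_lit 3)) (.node (.col (nat_lit 0)) (.slot (nat_lit 1)) (.slot (nat_lit 1))) (.node (.col (nat_lit 3)) (.col (nat_lit 0)) (.slot (nat_lit 0)))) (.col (nat_lit 3)) (.col (nat_lit 0)))) (.col (nat_lit 3)) (.col (nat_lit 0)) (.col (nat_lit 1))
def w603 : Root := .mk (.slot (nat_lit 0)) (.node (.col (nat_lit 3)) (.node (.col (nat_lit 0)) (.col (nat_lit 1)) (.slot (nat_lit 1))) (.node (.col (nat_lit 3)) (.col (nat_lit 0)) (.slot (nat_lit 1)))) (.col (nat_lit 3)) (.col (nat_lit 0))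
def w604 : Root := .mk (.slot (nat_lit 0)) (.node (.col (nat_lit 3)) (.node (.col (nat_lit 0)) (.col (nat_lit 3)) (.slot (nat_lit 3))) (.node (.col (nat_lit 3)) (.col (nat_lit 0)) (.slot (nat_lit 3)))) (.col (nat_lit 3)) (.col (nat_lit 0))
def w605 : Root := .mk (.node (.node (.node (.col (nat_lit 1)) (.col (nat_lit 3)) (.node (.slot (nat_lit 0)) (.col (nat_lit 0)) (.col (nat_lit 1)))) (.col (nat_lit 3)) (.col (nat_lit 0))) (.col (nat_lit 3)) (.node (.col (nat_lit 0)) (.slot (nat_lit 1)) (.slot (nat_lit 1)))) (.col (nat_lit 3)) (.col (nat_lit 0)) (.col (nat_lit 2))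
def l123 : Root := .mk (.node (.col (nat_lit 1)) (.col (nat_lit 3)) (.node (.node (.col (nat_lit 1)) (.slot (nat_lit 0)) (.slot (nat_lit 0))) (.col (nat_lit 0)) (.col (nat_lit 1)))) (.node (.col (nat_lit 3)) (.node (.col (nat_lit 0)) (.slot (nat_lit 3)) (.slot (nat_lit 3))) (.node (.col (nat_lit 3)) (.col (nat_lit 0)) (.slot (nat_lit 3)))) (.col (nat_lit 3)) (.col (nat_lit 0))
def w606 : Root := .mk (.col (nat_lit 1)) (.col (nat_lit 3)) (.node (.node (.col (nat_lit 3)) (.node (.col (nat_lit 0)) (.slot (nat_lit 3)) (.slot (nat_lit 3))) (.node (.col (nat_lit 3)) (.col (nat_lit 0)) (.slot (nat_lit 3)))) (.col (nat_lit 3)) (.slot (nat_lit 1))) (.node (.node (.col (nat_lit 1)) (.slot (nat_lit 0)) (.slot (nat_lit 0))) (.col (nat_lit 0)) (.col (nat_lit 1)))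
def l124 : Root := .mk (.node (.col (nat_lit 1)) (.col (nat_lit 3)) (.node (.node (.col (nat_lit 1)) (.col (nat_lit 0)) (.slot (nat_lit 1))) (.col (nat_lit 2)) (.col (nat_lit 1)))) (.col (nat_lit 4)) (.col (nat_lit 3)) (.col (nat_lit 2))
def w608 : Root := .mk (.col (nat_lit 1)) (.col (nat_lit 3)) (.node (.col (nat_lit 4)) (.col (nat_lit 3)) (.slot (nat_lit 1))) (.node (.node (.col (nat_lit 1)) (.col (nat_lit 0)) (.slot (nat_lit 1))) (.col (nat_lit 2)) (.col (nat_lit 1)))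
def l125 : Root := .mk (.col (nat_lit 2)) (.node (.col (nat_lit 3)) (.node (.col (nat_lit 0)) (.col (nat_lit 2)) (.slot (nat_lit 1))) (.node (.slot (nat_lit 0)) (.slot (nat_lit 0)) (.slot (nat_lit 0)))) (.col (nat_lit 3)) (.node (.col (nat_lit 1)) (.slot (nat_lit 1)) (.slot (nat_lit 1)))
def w616 : Root := .mk (.col (nat_lit 2)) (.node (.col (nat_lit 3)) (.node (.col (nat_lit 0)) (.slot (nat_lit 1)) (.slot (nat_lit 1))) (.node (.slot (nat_lit 0)) (.slot (nat_lit 0)) (.slot (nat_lit 0)))) (.col (nat_lit 3)) (.node (.col (nat_lit 1)) (.slot (nat_lit 1)) (.slot (nat_lit 1)))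
def w617 : Root := .mk (.node (.col (nat_lit 1)) (.col (nat_lit 3)) (.node (.node (.col (nat_lit 1)) (.slot (nat_lit 0)) (.slot (nat_lit 0))) (.col (nat_lit 2)) .junk)) (.col (nat_lit 0)) (.col (nat_lit 3)) (.node (.col (nat_lit 1)) (.slot (nat_lit 1)) .junk)
def w618 : Root := .mk (.col (nat_lit 1)) (.col (nat_lit 3)) (.node (.col (nat_lit 2)) (.col (nat_lit 3)) (.slot (nat_lit 1))) (.node (.node (.col (nat_lit 1)) (.col (nat_lit 3)) (.slot (nat_lit 1))) (.slot (nat_lit 1)) (.slot (nat_lit 1)))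
def l126 : Root := .mk (.node (.node (.col (nat_lit 1)) (.col (nat_lit 3)) (.node (.slot (nat_lit 0)) (.col (nat_lit 3)) (.slot (nat_lit 0)))) (.col (nat_lit 0)) (.col (nat_lit 3))) (.col (nat_lit 1)) (.col (nat_lit 3)) (.node (.col (nat_lit 0)) (.slot (nat_lit 1)) (.slot (nat_lit 1)))
def w619 : Root := .mk (.node (.col (nat_lit 1)) (.col (nat_lit 3)) (.node (.slot (nat_lit 0)) (.col (nat_lit 3)) (.slot (nat_lit 0)))) (.node (.col (nat_lit 1)) (.col (nat_lit 3)) (.slot (nat_lit 2))) (.col (nat_lit 0)) (.col (nat_lit 3))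
def l127 : Root := .mk (.col (nat_lit 1)) (.col (nat_lit 3)) (.node (.node (.col (nat_lit 3)) (.slot (nat_lit 0)) (.slot (nat_lit 0))) (.col (nat_lit 3)) (.slot (nat_lit 1))) (.node (.node (.col (nat_lit 1)) (.col (nat_lit 3)) (.slot (nat_lit 2))) (.col (nat_lit 0)) (.slot (nat_lit 1)))
def w620 : Root := .mk (.col (nat_lit 1)) (.col (nat_lit 3)) (.node (.node (.col (nat_lit 3)) (.slot (nat_lit 0)) (.slot (nat_lit 0))) (.col (nat_lit 3)) (.slot (nat_lit 1))) (.node (.node (.col (nat_lit 1)) (.col (nat_lit 3)) (.slot (nat_lit 2))) (.slot (nat_lit 1)) (.slot (nat_lit 1)))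
def w621 : Root := .mk (.node (.node (.col (nat_lit 1)) (.col (nat_lit 3)) (.node (.col (nat_lit 0)) (.slot (nat_lit 1)) (.slot (nat_lit 1)))) (.col (nat_lit 3)) (.slot (nat_lit 1))) (.col (nat_lit 3)) (.node (.col (nat_lit 0)) (.slot (nat_lit 1)) .junk) (.col (nat_lit 2))
def w622 : Root := .mk (.col (nat_lit 1)) (.col (nat_lit 3)) (.node (.node (.col (nat_lit 3)) (.node (.col (nat_lit 0)) (.slot (nat_lit 1)) (.slot (nat_lit 1))) (.node (.col (nat_lit 3)) (.col (nat_lit 0)) (.slot (nat_lit 1)))) (.col (nat_lit 3)) (.slot (nat_lit 1))) (.node (.col (nat_lit 0)) (.slot (nat_lit 1)) (.slot (nat_lit 1)))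
def w624 : Root := .mk (.col (nat_lit 1)) (.col (nat_lit 3)) (.node (.node (.col (nat_lit 3)) (.node (.col (nat_lit 0)) (.slot (nat_lit 0)) (.slot (nat_lit 0))) (.node .junk (.col (nat_lit 0)) (.col (nat_lit 2)))) (.col (nat_lit 3)) (.slot (nat_lit 1))) (.node (.col (nat_lit 0)) (.slot (nat_lit 1)) (.slot (nat_lit 1)))
def w627 : Root := .mk (.col (nat_lit 1)) (.col (nat_lit 3)) (.node (.node (.col (nat_lit 3)) (.node (.col (nat_lit 0)) (.col (nat_lit 2)) .junk) (.node (.slot (nat_lit 0)) (.slot (nat_lit 0)) (.slot (nat_lit 0)))) (.col (nat_lit 3)) (.slot (nat_lit 1))) (.node (.col (nat_lit 0)) (.slot (nat_lit 1)) (.slot (nat_lit 1)))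
def w628 : Root := .mk (.col (nat_lit 1)) (.col (nat_lit 3)) (.node (.node (.col (nat_lit 3)) (.node (.col (nat_lit 0)) (.col (nat_lit 1)) .junk) (.node (.slot (nat_lit 0)) (.col (nat_lit 0)) (.col (nat_lit 3)))) (.col (nat_lit 3)) (.node (.col (nat_lit 1)) (.slot (nat_lit 1)) (.slot (nat_lit 1)))) (.node (.slot (nat_lit 0)) (.slot (nat_lit 0)) (.slot (nat_lit 0)))
def w629 : Root := .mk (.col (nat_lit 1)) (.col (nat_lit 3)) (.node (.node (.col (nat_lit 3)) (.col (nat_lit 2)) (.slot (nat_lit 0))) (.col (nat_lit 3)) (.node (.col (nat_lit 1)) (.col (nat_lit 2)) (.slot (nat_lit 1)))) (.node (.slot (nat_lit 0)) (.slot (nat_lit 0)) (.slot (nat_lit 0)))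
def w632 : Root := .mk (.node (.col (nat_lit 1)) (.col (nat_lit 3)) (.node (.slot (nat_lit 0)) (.slot (nat_lit 0)) (.slot (nat_lit 0)))) (.node (.col (nat_lit 3)) (.node (.col (nat_lit 0)) (.slot (nat_lit 1)) (.slot (nat_lit 1))) (.node (.slot (nat_lit 0)) (.col (nat_lit 0)) (.col (nat_lit 3)))) (.col (nat_lit 3)) (.col (nat_lit 0))
def w633 : Root := .mk (.col (nat_lit 1)) (.col (nat_lit 3)) (.node (.node (.col (nat_lit 3)) (.slot (nat_lit 0)) (.slot (nat_lit 0))) (.col (nat_lit 3)) (.node (.col (nat_lit 1)) (.col (nat_lit 2)) .junk)) (.col (nat_lit 2))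
def l129 : Root := .mk (.col (nat_lit 2)) (.col (nat_lit 3)) (.node (.col (nat_lit 0)) (.col (nat_lit 1)) (.slot (nat_lit 1))) (.node (.slot (nat_lit 0)) (.col (nat_lit 0)) (.node (.col (nat_lit 2)) (.slot (nat_lit 0)) (.slot (nat_lit 0))))
def w638 : Root := .mk (.col (nat_lit 2)) (.col (nat_lit 3)) (.node (.col (nat_lit 0)) (.slot (nat_lit 1)) (.slot (nat_lit 1))) (.node (.slot (nat_lit 0)) (.col (nat_lit 0)) (.node (.col (nat_lit 2)) (.slot (nat_lit 0)) (.slot (nat_lit 0))))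
def w642 : Root := .mk (.col (nat_lit 1)) (.col (nat_lit 3)) (.node (.slot (nat_lit 0)) (.col (nat_lit 3)) (.slot (nat_lit 0))) (.node (.node (.col (nat_lit 1)) (.col (nat_lit 0)) (.slot (nat_lit 1))) (.col (nat_lit 3)) (.slot (nat_lit 1)))
def w644 : Root := .mk (.node (.node (.col (nat_lit 1)) (.col (nat_lit 3)) (.node (.node (.col (nat_lit 1)) (.col (nat_lit 0)) (.slot (nat_lit 0))) (.slot (nat_lit 1)) (.slot (nat_lit 1)))) (.col (nat_lit 3)) (.slot (nat_lit 2))) (.col (nat_lit 3)) (.node (.col (nat_lit 0)) (.slot (nat_lit 1)) (.slot (nat_lit 1))) (.col (nat_lit 2))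
def w645 : Root := .mk (.col (nat_lit 1)) (.col (nat_lit 3)) (.node (.node (.col (nat_lit 3)) (.node (.col (nat_lit 0)) (.slot (nat_lit 1)) (.slot (nat_lit 1))) (.node (.col (nat_lit 3)) (.col (nat_lit 0)) (.slot (nat_lit 1)))) (.col (nat_lit 3)) (.slot (nat_lit 1))) (.node (.node (.col (nat_lit 1)) (.col (nat_lit 0)) (.slot (nat_lit 1))) (.slot (nat_lit 1)) (.slot (nat_lit 1)))
def w646 : Root := .mk (.node (.col (nat_lit 1)) .junk (.node (.slot (nat_lit 0)) (.slot (nat_lit 0)) (.slot (nat_lit 0)))) (.node (.col (nat_lit 3)) (.node (.col (nat_lit 0)) (.slot (nat_lit 0)) (.slot (nat_lit 0))) (.node .junk (.col (nat_lit 0)) (.col (nat_lit 1)))) (.col (nat_lit 3)) (.col (nat_lit 0))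
def w648 : Root := .mk (.col (nat_lit 1)) (.col (nat_lit 3)) (.slot (nat_lit 0)) (.node (.node (.col (nat_lit 1)) (.col (nat_lit 0)) (.slot (nat_lit 1))) (.col (nat_lit 2)) (.node (.col (nat_lit 0)) (.slot (nat_lit 1)) (.slot (nat_lit 0))))
def w650 : Root := .mk (.col (nat_lit 1)) (.col (nat_lit 3)) (.node (.slot (nat_lit 0)) (.col (nat_lit 3)) (.slot (nat_lit 0))) (.node (.node (.col (nat_lit 1)) (.col (nat_lit 0)) (.slot (nat_lit 1))) (.col (nat_lit 2)) (.node (.col (nat_lit 4)) (.slot (nat_lit 0)) (.slot (nat_lit 0))))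
def w651 : Root := .mk (.node (.node (.col (nat_lit 1)) (.col (nat_lit 3)) (.node (.slot (nat_lit 0)) (.col (nat_lit 3)) (.slot (nat_lit 0)))) (.col (nat_lit 2)) (.slot (nat_lit 1))) (.col (nat_lit 1)) (.col (nat_lit 0)) (.col (nat_lit 2))
def w652 : Root := .mk (.node (.node (.col (nat_lit 1)) (.col (nat_lit 3)) (.slot (nat_lit 0))) (.col (nat_lit 2)) (.slot (nat_lit 1))) (.col (nat_lit 1)) (.col (nat_lit 0)) (.node (.col (nat_lit 0)) (.slot (nat_lit 0)) (.slot (nat_lit 0)))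
def w659 : Root := .mk (.node (.node (.col (nat_lit 1)) (.col (nat_lit 3)) (.node (.col (nat_lit 4)) .junk (.slot (nat_lit 1)))) (.slot (nat_lit 1)) (.slot (nat_lit 0))) (.col (nat_lit 1)) (.col (nat_lit 0)) (.col (nat_lit 4))
def w667 : Root := .mk (.col (nat_lit 2)) (.col (nat_lit 3)) (.node (.col (nat_lit 0)) (.slot (nat_lit 1)) (.slot (nat_lit 1))) (.node (.node (.col (nat_lit 0)) (.slot (nat_lit 0)) (.slot (nat_lit 0))) (.slot (nat_lit 1)) (.slot (nat_lit 2)))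
def w668 : Root := .mk (.col (nat_lit 1)) (.col (nat_lit 3)) (.node (.node (.col (nat_lit 3)) (.node (.col (nat_lit 0)) (.slot (nat_lit 1)) (.slot (nat_lit 1))) (.node (.node (.col (nat_lit 0)) (.slot (nat_lit 0)) (.slot (nat_lit 0))) (.slot (nat_lit 2)) (.slot (nat_lit 1)))) (.col (nat_lit 3)) (.slot (nat_lit 3))) (.node (.node (.col (nat_lit 1)) (.slot (nat_lit 1)) (.slot (nat_lit 1))) (.slot (nat_lit 2)) (.slot (nat_lit 1)))
def w669 : Root := .mk (.col (nat_lit 2)) (.col (nat_lit 3)) (.node (.col (nat_lit 0)) (.slot (nat_lit 1)) (.slot (nat_lit 1))) (.node (.node (.col (nat_lit 1)) (.slot (nat_lit 0)) (.slot (nat_lit 0))) (.slot (nat_lit 1)) (.slot (nat_lit 1)))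
def w670 : Root := .mk (.col (nat_lit 1)) (.col (nat_lit 3)) (.node (.node (.col (nat_lit 3)) (.node (.col (nat_lit 0)) (.slot (nat_lit 1)) (.slot (nat_lit 1))) (.node (.node (.col (nat_lit 1)) (.slot (nat_lit 0)) (.slot (nat_lit 0))) (.slot (nat_lit 1)) (.slot (nat_lit 1)))) (.col (nat_lit 3)) (.slot (nat_lit 3))) (.node (.node (.col (nat_lit 1)) (.slot (nat_lit 1)) (.slot (nat_lit 1))) (.slot (nat_lit 2)) (.slot (nat_lit 1)))
def w671 : Root := .mk (.col (nat_lit 1)) (.col (nat_lit 3)) (.node (.node (.col (nat_lit 3)) (.node (.col (nat_lit 0)) (.slot (nat_lit 2)) (.slot (nat_lit 2))) (.node (.node (.col (nat_lit 2)) (.slot (nat_lit 2)) (.slot (nat_lit 2))) (.slot (nat_lit 1)) (.slot (nat_lit 2)))) (.col (nat_lit 3)) (.slot (nat_lit 3))) (.node (.node (.col (nat_lit 1)) (.slot (nat_lit 1)) (.slot (nat_lit 1))) (.slot (nat_lit 2)) (.slot (nat_lit 1)))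
def w672 : Root := .mk (.col (nat_lit 1)) (.col (nat_lit 3)) (.node (.node (.col (nat_lit 3)) (.node (.col (nat_lit 0)) (.slot (nat_lit 1)) (.slot (nat_lit 1))) (.node (.node (.col (nat_lit 3)) (.slot (nat_lit 0)) (.slot (nat_lit 0))) (.slot (nat_lit 1)) (.slot (nat_lit 1)))) (.col (nat_lit 3)) (.slot (nat_lit 3))) (.node (.node (.col (nat_lit 1)) (.slot (nat_lit 1)) (.slot (nat_lit 1))) (.slot (nat_lit 2)) (.slot (nat_lit 1)))
def w673 : Root := .mk (.col (nat_lit 1)) (.col (nat_lit 3)) (.node (.node (.col (nat_lit 3)) (.node (.col (nat_lit 0)) (.slot (nat_lit 1)) (.slot (nat_lit 1))) (.slot (nat_lit 2))) (.col (nat_lit 3)) (.slot (nat_lit 1))) (.node (.node (.col (nat_lit 1)) (.col (nat_lit 0)) (.slot (nat_lit 1))) (.slot (nat_lit 1)) (.slot (nat_lit 1)))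
def w674 : Root := .mk (.col (nat_lit 1)) (.col (nat_lit 3)) (.node (.node (.col (nat_lit 3)) (.node (.col (nat_lit 0)) (.slot (nat_lit 1)) (.slot (nat_lit 1))) (.slot (nat_lit 2))) (.col (nat_lit 3)) (.slot (nat_lit 1))) (.node (.node (.col (nat_lit 1)) (.col (nat_lit 2)) (.slot (nat_lit 1))) (.slot (nat_lit 1)) (.slot (nat_lit 1)))
def l133 : Root := .mk (.node (.col (nat_lit 1)) (.col (nat_lit 3)) (.node (.node (.col (nat_lit 1)) (.slot (nat_lit 0)) (.slot (nat_lit 1))) (.col (nat_lit 2)) (.col (nat_lit 1)))) (.col (nat_lit 2)) (.col (nat_lit 3)) (.node (.col (nat_lit 1)) (.slot (nat_lit 2)) (.slot (nat_lit 2)))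
def w675 : Root := .mk (.node (.col (nat_lit 1)) (.col (nat_lit 3)) (.node (.col (nat_lit 2)) (.col (nat_lit 3)) (.slot (nat_lit 3)))) (.node (.col (nat_lit 1)) (.slot (nat_lit 0)) (.slot (nat_lit 1))) (.col (nat_lit 2)) (.col (nat_lit 1))
def l134 : Root := .mk (.col (nat_lit 1)) (.col (nat_lit 3)) (.node (.col (nat_lit 2)) (.col (nat_lit 3)) (.slot (nat_lit 3))) (.node (.node (.col (nat_lit 1)) (.slot (nat_lit 0)) (.slot (nat_lit 1))) (.col (nat_lit 2)) (.slot (nat_lit 2)))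
def w676 : Root := .mk (.col (nat_lit 1)) (.col (nat_lit 3)) (.node (.col (nat_lit 2)) (.col (nat_lit 3)) (.slot (nat_lit 3))) (.node (.node (.col (nat_lit 1)) (.slot (nat_lit 0)) (.slot (nat_lit 1))) (.slot (nat_lit 1)) (.slot (nat_lit 2)))
def w677 : Root := .mk (.col (nat_lit 1)) (.col (nat_lit 3)) (.node (.node (.col (nat_lit 3)) (.node (.col (nat_lit 0)) (.slot (nat_lit 1)) (.slot (nat_lit 1))) (.slot (nat_lit 2))) (.col (nat_lit 3)) (.slot (nat_lit 3))) (.node (.node (.col (nat_lit 1)) (.slot (nat_lit 0)) (.slot (nat_lit 1))) (.slot (nat_lit 2)) (.slot (nat_lit 1)))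
def w678 : Root := .mk (.col (nat_lit 1)) (.col (nat_lit 3)) (.node (.node (.col (nat_lit 3)) (.node (.col (nat_lit 0)) (.col (nat_lit 3)) (.slot (nat_lit 3))) (.slot (nat_lit 1))) (.col (nat_lit 3)) (.slot (nat_lit 3))) (.node (.node (.col (nat_lit 1)) (.slot (nat_lit 1)) (.slot (nat_lit 1))) (.slot (nat_lit 2)) (.slot (nat_lit 1)))
def w679 : Root := .mk (.col (nat_lit 1)) (.col (nat_lit 3)) (.node (.node (.col (nat_lit 3)) (.node (.col (nat_lit 0)) (.node (.col (nat_lit 0)) (.slot (nat_lit 0)) (.slot (nat_lit 0))) (.slot (nat_lit 2))) (.slot (nat_lit 2))) (.col (nat_lit 3)) (.slot (nat_lit 3))) (.node (.node (.col (nat_lit 1)) (.slot (nat_lit 1)) (.slot (nat_lit 1))) (.slot (nat_lit 2)) (.slot (nat_lit 1)))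
def w680 : Root := .mk (.col (nat_lit 1)) (.col (nat_lit 3)) (.node (.node (.col (nat_lit 3)) (.node (.col (nat_lit 0)) (.node (.col (nat_lit 1)) (.slot (nat_lit 1)) (.slot (nat_lit 1))) (.slot (nat_lit 2))) (.slot (nat_lit 1))) (.col (nat_lit 3)) (.slot (nat_lit 3))) (.node (.node (.col (nat_lit 1)) (.slot (nat_lit 1)) (.slot (nat_lit 1))) (.slot (nat_lit 2)) (.slot (nat_lit 1)))
def w681 : Root := .mk (.col (nat_lit 1)) (.col (nat_lit 3)) (.node (.node (.col (nat_lit 3)) (.node (.col (nat_lit 0)) (.node (.col (nat_lit 2)) (.slot (nat_lit 1)) (.slot (nat_lit 0))) (.slot (nat_lit 1))) (.slot (nat_lit 1))) (.col (nat_lit 3)) (.slot (nat_lit 3))) (.node (.node (.col (nat_lit 1)) (.slot (nat_lit 1)) (.slot (nat_lit 1))) (.slot (nat_lit 2)) (.slot (nat_lit 1)))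
def l135 : Root := .mk (.col (nat_lit 1)) (.col (nat_lit 3)) (.node (.node (.col (nat_lit 3)) (.node (.col (nat_lit 0)) (.slot (nat_lit 3)) (.slot (nat_lit 3))) (.slot (nat_lit 5))) (.col (nat_lit 3)) (.slot (nat_lit 4))) (.node (.node (.col (nat_lit 1)) (.slot (nat_lit 3)) (.slot (nat_lit 3))) (.slot (nat_lit 3)) (.slot (nat_lit 3)))
def w682 : Root := .mk (.col (nat_lit 1)) (.col (nat_lit 3)) (.node (.node (.col (nat_lit 3)) (.node (.col (nat_lit 0)) (.slot (nat_lit 3)) (.slot (nat_lit 3))) (.slot (nat_lit 5))) (.col (nat_lit 3)) (.slot (nat_lit 4))) (.slot (nat_lit 5))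
def w683 : Root := .mk (.col (nat_lit 3)) (.node (.col (nat_lit 2)) (.col (nat_lit 0)) (.node (.col (nat_lit 3)) (.node (.node (.col (nat_lit 3)) (.node (.col (nat_lit 0)) (.slot (nat_lit 1)) (.slot (nat_lit 1))) (.slot (nat_lit 2))) (.col (nat_lit 3)) (.slot (nat_lit 2))) (.col (nat_lit 0)))) (.col (nat_lit 2)) (.col (nat_lit 0))
def w684 : Root := .mk (.col (nat_lit 3)) (.node (.col (nat_lit 2)) (.col (nat_lit 0)) (.node (.col (nat_lit 3)) (.node (.node (.col (nat_lit 3)) (.slot (nat_lit 0)) (.slot (nat_lit 0))) (.col (nat_lit 3)) (.node (.col (nat_lit 2)) (.slot (nat_lit 1)) (.slot (nat_lit 1)))) (.col (nat_lit 2)))) (.col (nat_lit 2)) (.col (nat_lit 0))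
def w685 : Root := .mk (.col (nat_lit 3)) (.node .junk (.col (nat_lit 0)) (.node (.col (nat_lit 3)) (.node (.col (nat_lit 1)) (.col (nat_lit 3)) (.node (.col (nat_lit 2)) (.slot (nat_lit 1)) .junk)) (.col (nat_lit 2)))) (.col (nat_lit 2)) (.col (nat_lit 0))
def l136 : Root := .mk (.col (nat_lit 1)) (.col (nat_lit 2)) (.col (nat_lit 0)) (.node (.col (nat_lit 3)) (.node (.node (.col (nat_lit 3)) (.node (.col (nat_lit 0)) (.slot (nat_lit 3)) (.slot (nat_lit 1))) (.slot (nat_lit 2))) (.col (nat_lit 3)) (.col (nat_lit 1))) (.col (nat_lit 2)))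
def w686 : Root := .mk (.col (nat_lit 3)) (.node (.col (nat_lit 2)) (.col (nat_lit 0)) (.node (.col (nat_lit 3)) (.node (.node (.col (nat_lit 3)) (.node (.col (nat_lit 0)) (.slot (nat_lit 3)) (.slot (nat_lit 1))) (.slot (nat_lit 2))) (.col (nat_lit 3)) (.col (nat_lit 1))) (.col (nat_lit 2)))) (.col (nat_lit 2)) (.col (nat_lit 0))
def w687 : Root := .mk (.node (.col (nat_lit 1)) .junk (.col (nat_lit 2))) (.node (.col (nat_lit 3)) (.node (.col (nat_lit 0)) (.slot (nat_lit 1)) (.slot (nat_lit 1))) (.slot (nat_lit 2))) (.col (nat_lit 3)) (.node (.col (nat_lit 2)) (.slot (nat_lit 0)) (.slot (nat_lit 0)))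
def w688 : Root := .mk (.col (nat_lit 3)) (.node (.col (nat_lit 2)) (.col (nat_lit 0)) (.node (.col (nat_lit 3)) (.node (.node (.col (nat_lit 3)) (.col (nat_lit 1)) (.slot (nat_lit 0))) (.col (nat_lit 3)) (.node (.col (nat_lit 2)) (.slot (nat_lit 1)) (.slot (nat_lit 1)))) (.col (nat_lit 2)))) (.col (nat_lit 2)) (.col (nat_lit 0))
def w689 : Root := .mk (.col (nat_lit 3)) (.node (.col (nat_lit 2)) (.col (nat_lit 0)) (.node (.col (nat_lit 3)) (.node (.node (.col (nat_lit 3)) (.col (nat_lit 2)) (.slot (nat_lit 0))) (.col (nat_lit 3)) (.node (.col (nat_lit 2)) (.slot (nat_lit 1)) (.slot (nat_lit 1)))) (.col (nat_lit 2)))) (.col (nat_lit 2)) (.col (nat_lit 0))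
def w690 : Root := .mk (.col (nat_lit 3)) (.node .junk (.col (nat_lit 0)) (.node (.col (nat_lit 3)) (.node (.node (.col (nat_lit 3)) (.node (.col (nat_lit 0)) (.slot (nat_lit 0)) (.slot (nat_lit 0))) (.col (nat_lit 0))) (.col (nat_lit 3)) (.node (.col (nat_lit 2)) (.slot (nat_lit 1)) (.slot (nat_lit 1)))) (.col (nat_lit 2)))) (.col (nat_lit 2)) (.col (nat_lit 0))
def w691 : Root := .mk (.col (nat_lit 3)) (.node .junk (.col (nat_lit 0)) (.node (.col (nat_lit 3)) (.node (.node (.col (nat_lit 3)) (.slot (nat_lit 0)) (.slot (nat_lit 0))) (.col (nat_lit 3)) (.node (.col (nat_lit 2)) (.col (nat_lit 0)) .junk)) (.col (nat_lit 2)))) (.col (nat_lit 2)) (.col (nat_lit 0))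
def w692 : Root := .mk (.col (nat_lit 3)) (.node .junk (.col (nat_lit 0)) (.node (.col (nat_lit 3)) (.node (.node (.col (nat_lit 3)) (.node (.col (nat_lit 0)) (.slot (nat_lit 1)) (.slot (nat_lit 1))) (.slot (nat_lit 2))) (.col (nat_lit 3)) (.node (.col (nat_lit 2)) .junk (.slot (nat_lit 1)))) (.col (nat_lit 2)))) (.col (nat_lit 2)) (.col (nat_lit 0))
def l137 : Root := .mk (.col (nat_lit 3)) (.node (.col (nat_lit 2)) (.col (nat_lit 0)) (.node (.col (nat_lit 3)) (.node (.node (.col (nat_lit 3)) (.node (.col (nat_lit 0)) (.slot (nat_lit 3)) (.slot (nat_lit 1))) (.slot (nat_lit 2))) (.col (nat_lit 3)) (.node (.col (nat_lit 2)) (.slot (nat_lit 1)) (.slot (nat_lit 1)))) (.col (nat_lit 2)))) (.col (nat_lit 2)) (.col (nat_lit 0))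
def w693 : Root := .mk (.col (nat_lit 3)) (.node (.col (nat_lit 2)) (.col (nat_lit 0)) (.node (.col (nat_lit 3)) (.node (.node (.col (nat_lit 3)) (.node (.col (nat_lit 0)) (.slot (nat_lit 3)) (.slot (nat_lit 1))) (.slot (nat_lit 2))) (.col (nat_lit 3)) (.slot (nat_lit 2))) (.col (nat_lit 2)))) (.col (nat_lit 2)) (.col (nat_lit 0))
def l138 : Root := .mk (.col (nat_lit 1)) (.col (nat_lit 2)) (.col (nat_lit 0)) (.node (.col (nat_lit 3)) (.node (.col (nat_lit 1)) (.col (nat_lit 3)) (.slot (nat_lit 1))) (.node (.col (nat_lit 1)) (.slot (nat_lit 1)) (.slot (nat_lit 1))))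
def w694 : Root := .mk (.col (nat_lit 3)) (.node (.col (nat_lit 2)) (.col (nat_lit 0)) (.node (.col (nat_lit 3)) (.node (.col (nat_lit 1)) (.col (nat_lit 3)) (.slot (nat_lit 1))) (.node (.col (nat_lit 1)) (.slot (nat_lit 1)) (.slot (nat_lit 1))))) (.col (nat_lit 2)) (.col (nat_lit 0))
def w695 : Root := .mk (.col (nat_lit 3)) (.node (.col (nat_lit 2)) (.col (nat_lit 0)) (.node (.col (nat_lit 3)) (.node (.node (.col (nat_lit 3)) (.node (.col (nat_lit 0)) (.slot (nat_lit 1)) (.slot (nat_lit 1))) (.slot (nat_lit 2))) (.col (nat_lit 3)) (.slot (nat_lit 1))) (.node (.col (nat_lit 1)) (.slot (nat_lit 1)) (.slot (nat_lit 1))))) (.col (nat_lit 2)) (.col (nat_lit 0))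
def w696 : Root := .mk (.col (nat_lit 3)) (.node (.col (nat_lit 2)) (.col (nat_lit 0)) (.node (.col (nat_lit 3)) (.node (.col (nat_lit 2)) (.col (nat_lit 3)) (.slot (nat_lit 1))) (.node (.col (nat_lit 3)) (.slot (nat_lit 0)) (.slot (nat_lit 0))))) (.col (nat_lit 2)) (.col (nat_lit 0))
def w697 : Root := .mk (.col (nat_lit 3)) (.node (.col (nat_lit 2)) (.col (nat_lit 0)) (.node (.col (nat_lit 3)) (.node (.node (.col (nat_lit 3)) (.node (.col (nat_lit 0)) (.slot (nat_lit 1)) (.slot (nat_lit 1))) (.slot (nat_lit 2))) (.col (nat_lit 3)) (.slot (nat_lit 1))) (.node (.col (nat_lit 3)) (.slot (nat_lit 0)) (.slot (nat_lit 0))))) (.col (nat_lit 2)) (.col (nat_lit 0))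
def l139 : Root := .mk (.col (nat_lit 3)) (.node (.col (nat_lit 2)) (.col (nat_lit 0)) (.node (.col (nat_lit 3)) (.node (.node (.col (nat_lit 3)) (.node (.col (nat_lit 0)) (.slot (nat_lit 3)) (.slot (nat_lit 3))) (.slot (nat_lit 5))) (.col (nat_lit 3)) (.slot (nat_lit 4))) (.slot (nat_lit 5)))) (.col (nat_lit 2)) (.col (nat_lit 0))
def w698 : Root := .mk (.col (nat_lit 3)) (.node (.col (nat_lit 2)) (.col (nat_lit 0)) (.node (.col (nat_lit 3)) (.node (.node (.col (nat_lit 3)) (.slot (nat_lit 4)) (.slot (nat_lit 5))) (.col (nat_lit 3)) (.slot (nat_lit 4))) (.slot (nat_lit 5)))) (.col (nat_lit 2)) (.col (nat_lit 0))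
def w699 : Root := .mk (.col (nat_lit 3)) (.node (.col (nat_lit 2)) (.col (nat_lit 0)) (.node (.col (nat_lit 3)) (.node (.node (.col (nat_lit 3)) (.slot (nat_lit 1)) (.slot (nat_lit 1))) (.node (.col (nat_lit 0)) (.slot (nat_lit 0)) (.slot (nat_lit 0))) (.slot (nat_lit 2))) (.slot (nat_lit 1)))) (.col (nat_lit 2)) (.col (nat_lit 0))
def w700 : Root := .mk (.col (nat_lit 3)) (.node (.col (nat_lit 2)) (.col (nat_lit 0)) (.node (.col (nat_lit 3)) (.node (.node (.col (nat_lit 3)) (.slot (nat_lit 1)) (.slot (nat_lit 1))) (.node (.col (nat_lit 1)) (.slot (nat_lit 0)) (.slot (nat_lit 0))) (.slot (nat_lit 2))) (.slot (nat_lit 1)))) (.col (nat_lit 2)) (.col (nat_lit 0))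
def w701 : Root := .mk (.col (nat_lit 3)) (.node (.col (nat_lit 2)) (.col (nat_lit 0)) (.node (.col (nat_lit 3)) (.node (.node (.col (nat_lit 3)) (.slot (nat_lit 0)) (.slot (nat_lit 0))) (.node (.col (nat_lit 3)) (.slot (nat_lit 1)) (.slot (nat_lit 1))) (.slot (nat_lit 2))) (.slot (nat_lit 1)))) (.col (nat_lit 2)) (.col (nat_lit 0))
def w702 : Root := .mk (.node (.node (.node .junk (.col (nat_lit 2)) (.col (nat_lit 0))) (.col (nat_lit 3)) (.slot (nat_lit 1))) (.slot (nat_lit 1)) (.slot (nat_lit 1))) (.col (nat_lit 3)) (.col (nat_lit 0)) (.slot (nat_lit 2))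
def w703 : Root := .mk (.slot (nat_lit 0)) (.col (nat_lit 2)) (.col (nat_lit 0)) (.node (.col (nat_lit 3)) (.node (.node (.col (nat_lit 3)) (.col (nat_lit 1)) (.slot (nat_lit 3))) (.slot (nat_lit 1)) (.slot (nat_lit 1))) (.slot (nat_lit 3)))
def w704 : Root := .mk (.col (nat_lit 3)) (.node (.col (nat_lit 2)) (.col (nat_lit 0)) (.node (.col (nat_lit 3)) (.node (.node (.col (nat_lit 3)) (.node (.col (nat_lit 0)) (.slot (nat_lit 3)) (.slot (nat_lit 3))) (.slot (nat_lit 5))) (.slot (nat_lit 1)) (.slot (nat_lit 4))) (.slot (nat_lit 5)))) (.col (nat_lit 2)) (.col (nat_lit 0))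
def w705 : Root := .mk (.col (nat_lit 3)) (.node (.col (nat_lit 2)) (.col (nat_lit 0)) (.node (.col (nat_lit 3)) (.node (.node (.col (nat_lit 3)) (.node (.col (nat_lit 1)) (.slot (nat_lit 1)) (.slot (nat_lit 1))) (.slot (nat_lit 2))) (.slot (nat_lit 1)) (.slot (nat_lit 0))) (.slot (nat_lit 1)))) (.col (nat_lit 2)) (.col (nat_lit 0))
def w706 : Root := .mk (.col (nat_lit 3)) (.node (.col (nat_lit 2)) .junk (.node (.col (nat_lit 3)) (.node (.node (.col (nat_lit 3)) (.node (.col (nat_lit 3)) (.slot (nat_lit 0)) (.slot (nat_lit 0))) .junk) (.col (nat_lit 0)) (.col (nat_lit 2))) (.col (nat_lit 0)))) (.col (nat_lit 2)) (.col (nat_lit 0))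
def l140 : Root := .mk (.col (nat_lit 3)) (.node (.col (nat_lit 2)) (.col (nat_lit 0)) (.node (.col (nat_lit 3)) (.node (.node (.col (nat_lit 3)) (.node (.col (nat_lit 3)) (.slot (nat_lit 0)) (.slot (nat_lit 0))) (.slot (nat_lit 1))) (.col (nat_lit 0)) (.col (nat_lit 2))) (.col (nat_lit 0)))) (.col (nat_lit 2)) (.col (nat_lit 0))
def w707 : Root := .mk (.col (nat_lit 3)) (.node (.col (nat_lit 2)) (.col (nat_lit 0)) (.node (.col (nat_lit 3)) (.node (.node (.col (nat_lit 3)) (.node (.col (nat_lit 3)) (.slot (nat_lit 0)) (.slot (nat_lit 0))) (.slot (nat_lit 1))) (.col (nat_lit 0)) (.slot (nat_lit 1))) (.col (nat_lit 0)))) (.col (nat_lit 2)) (.col (nat_lit 0))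
def l141 : Root := .mk (.col (nat_lit 3)) (.node (.col (nat_lit 2)) (.col (nat_lit 0)) (.node (.col (nat_lit 3)) (.node (.node (.col (nat_lit 3)) (.node (.col (nat_lit 3)) (.slot (nat_lit 0)) (.slot (nat_lit 0))) (.slot (nat_lit 2))) (.col (nat_lit 0)) (.slot (nat_lit 2))) (.slot (nat_lit 1)))) (.col (nat_lit 2)) (.col (nat_lit 0))
def w708 : Root := .mk (.col (nat_lit 3)) (.node (.col (nat_lit 2)) (.col (nat_lit 0)) (.node (.col (nat_lit 3)) (.node (.node (.col (nat_lit 3)) (.node (.col (nat_lit 3)) (.slot (nat_lit 0)) (.slot (nat_lit 0))) (.slot (nat_lit 2))) (.slot (nat_lit 1)) (.slot (nat_lit 2))) (.slot (nat_lit 1)))) (.col (nat_lit 2)) (.col (nat_lit 0))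
def l142 : Root := .mk (.col (nat_lit 3)) (.node (.col (nat_lit 2)) (.col (nat_lit 0)) (.node (.col (nat_lit 3)) (.node (.node (.col (nat_lit 3)) (.slot (nat_lit 5)) (.slot (nat_lit 5))) (.slot (nat_lit 4)) (.slot (nat_lit 4))) (.slot (nat_lit 5)))) (.col (nat_lit 2)) (.col (nat_lit 0))
def w709 : Root := .mk (.col (nat_lit 3)) (.node (.col (nat_lit 2)) (.col (nat_lit 0)) (.node (.col (nat_lit 3)) (.slot (nat_lit 7)) (.slot (nat_lit 5)))) (.col (nat_lit 2)) (.col (nat_lit 0))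
def l143 : Root := .mk (.node (.col (nat_lit 3)) (.col (nat_lit 2)) (.slot (nat_lit 2))) (.col (nat_lit 2)) (.col (nat_lit 0)) (.node (.col (nat_lit 3)) (.slot (nat_lit 7)) (.slot (nat_lit 5)))
def w710 : Root := .mk (.node (.col (nat_lit 3)) (.col (nat_lit 2)) (.slot (nat_lit 2))) (.col (nat_lit 2)) (.col (nat_lit 0)) (.slot (nat_lit 8))
def l144 : Root := .mk (.col (nat_lit 3)) (.node (.node (.node (.col (nat_lit 0)) .junk .junk) (.slot (nat_lit 1)) (.slot (nat_lit 0))) (.col (nat_lit 0)) (.node (.col (nat_lit 0)) (.slot (nat_lit 0)) (.slot (nat_lit 0)))) (.col (nat_lit 2)) (.node (.col (nat_lit 0)) (.slot (nat_lit 1)) (.slot (nat_lit 1)))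
def w711 : Root := .mk (.node (.col (nat_lit 3)) (.col (nat_lit 2)) (.slot (nat_lit 2))) (.node (.node (.col (nat_lit 0)) .junk .junk) (.slot (nat_lit 1)) (.slot (nat_lit 0))) (.col (nat_lit 0)) (.node (.col (nat_lit 0)) (.slot (nat_lit 0)) (.slot (nat_lit 0)))
def w712 : Root := .mk (.node (.node (.slot (nat_lit 0)) (.col (nat_lit 0)) (.slot (nat_lit 0))) (.col (nat_lit 2)) (.node (.col (nat_lit 0)) (.slot (nat_lit 1)) (.slot (nat_lit 0)))) (.col (nat_lit 0)) (.node (.slot (nat_lit 0)) (.slot (nat_lit 0)) (.slot (nat_lit 0))) (.col (nat_lit 1))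
def w713 : Root := .mk (.node (.node (.slot (nat_lit 0)) (.col (nat_lit 0)) (.slot (nat_lit 0))) (.col (nat_lit 2)) (.node (.col (nat_lit 1)) (.slot (nat_lit 1)) (.slot (nat_lit 0)))) (.col (nat_lit 0)) (.node (.slot (nat_lit 0)) (.slot (nat_lit 0)) (.slot (nat_lit 0))) (.col (nat_lit 1))
def w714 : Root := .mk (.node (.node (.slot (nat_lit 0)) (.col (nat_lit 0)) (.slot (nat_lit 1))) (.col (nat_lit 2)) (.node (.col (nat_lit 3)) (.slot (nat_lit 0)) (.slot (nat_lit 0)))) (.col (nat_lit 0)) (.node (.slot (nat_lit 0)) (.slot (nat_lit 0)) (.slot (nat_lit 0))) (.col (nat_lit 1))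
def w715 : Root := .mk (.col (nat_lit 3)) (.node (.node (.node (.col (nat_lit 0)) (.node (.slot (nat_lit 0)) (.slot (nat_lit 0)) (.slot (nat_lit 0))) (.col (nat_lit 1))) (.col (nat_lit 2)) (.slot (nat_lit 1))) (.col (nat_lit 0)) (.col (nat_lit 2))) (.col (nat_lit 2)) (.col (nat_lit 0))
def w716 : Root := .mk (.node (.node (.slot (nat_lit 0)) (.col (nat_lit 0)) (.node (.col (nat_lit 0)) (.slot (nat_lit 0)) (.slot (nat_lit 0)))) (.col (nat_lit 2)) (.slot (nat_lit 1))) (.col (nat_lit 0)) (.node (.slot (nat_lit 0)) (.slot (nat_lit 0)) (.slot (nat_lit 0))) (.col (nat_lit 1))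
def l145 : Root := .mk (.node (.col (nat_lit 3)) (.col (nat_lit 2)) .junk) (.node (.node (.col (nat_lit 0)) (.slot (nat_lit 0)) (.col (nat_lit 1))) (.col (nat_lit 2)) (.slot (nat_lit 1))) (.col (nat_lit 0)) (.col (nat_lit 4))
def w717 : Root := .mk (.node (.node (.node (.col (nat_lit 3)) (.col (nat_lit 2)) .junk) (.col (nat_lit 0)) (.node (.col (nat_lit 1)) (.slot (nat_lit 0)) (.slot (nat_lit 0)))) (.col (nat_lit 2)) (.slot (nat_lit 1))) (.col (nat_lit 0)) (.slot (nat_lit 0)) (.col (nat_lit 1))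
def w718 : Root := .mk (.node (.node (.slot (nat_lit 0)) (.col (nat_lit 0)) (.node (.col (nat_lit 2)) (.slot (nat_lit 0)) (.slot (nat_lit 0)))) (.col (nat_lit 2)) (.slot (nat_lit 1))) (.col (nat_lit 0)) (.node (.slot (nat_lit 0)) (.slot (nat_lit 0)) (.slot (nat_lit 0))) (.col (nat_lit 1))
def w719 : Root := .mk (.node (.node (.slot (nat_lit 0)) (.col (nat_lit 0)) (.node (.col (nat_lit 3)) (.slot (nat_lit 0)) (.slot (nat_lit 0)))) (.col (nat_lit 2)) (.slot (nat_lit 1))) (.col (nat_lit 0)) (.node (.slot (nat_lit 0)) (.slot (nat_lit 0)) (.slot (nat_lit 0))) (.col (nat_lit 1))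
def w720 : Root := .mk (.node (.node (.node (.col (nat_lit 3)) (.col (nat_lit 2)) (.col (nat_lit 0))) (.col (nat_lit 0)) (.slot (nat_lit 1))) (.col (nat_lit 2)) (.slot (nat_lit 3))) (.col (nat_lit 0)) (.col (nat_lit 2)) (.col (nat_lit 1))
def w721 : Root := .mk (.node (.node (.slot (nat_lit 0)) (.col (nat_lit 0)) (.slot (nat_lit 1))) (.col (nat_lit 2)) (.slot (nat_lit 1))) (.col (nat_lit 0)) (.node (.slot (nat_lit 0)) (.col (nat_lit 0)) (.slot (nat_lit 0))) (.col (nat_lit 1))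
def w722 : Root := .mk (.node (.slot (nat_lit 0)) (.col (nat_lit 2)) (.slot (nat_lit 1))) (.col (nat_lit 0)) (.node (.node (.col (nat_lit 0)) (.slot (nat_lit 0)) (.slot (nat_lit 0))) (.col (nat_lit 3)) (.slot (nat_lit 1))) (.col (nat_lit 1))
def l146 : Root := .mk (.col (nat_lit 3)) (.node (.node (.node (.col (nat_lit 0)) (.node (.node (.col (nat_lit 0)) (.slot (nat_lit 0)) (.slot (nat_lit 0))) (.slot (nat_lit 1)) (.slot (nat_lit 1))) (.col (nat_lit 1))) (.col (nat_lit 2)) (.slot (nat_lit 3))) (.col (nat_lit 0)) (.slot (nat_lit 1))) (.col (nat_lit 2)) (.col (nat_lit 0))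
def w723 : Root := .mk (.col (nat_lit 3)) (.node (.node (.node (.col (nat_lit 0)) (.node (.node (.col (nat_lit 0)) (.slot (nat_lit 0)) (.slot (nat_lit 0))) (.slot (nat_lit 1)) (.slot (nat_lit 1))) (.col (nat_lit 1))) (.slot (nat_lit 1)) (.slot (nat_lit 3))) (.col (nat_lit 0)) (.slot (nat_lit 1))) (.col (nat_lit 2)) (.col (nat_lit 0))
def w724 : Root := .mk (.node (.node (.node (.col (nat_lit 3)) (.col (nat_lit 2)) .junk) (.col (nat_lit 0)) (.slot (nat_lit 1))) (.slot (nat_lit 1)) (.slot (nat_lit 0))) (.col (nat_lit 0)) (.col (nat_lit 2)) (.col (nat_lit 1))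
def l147 : Root := .mk (.node (.node (.node (.col (nat_lit 3)) (.col (nat_lit 2)) (.col (nat_lit 0))) (.col (nat_lit 0)) (.slot (nat_lit 1))) (.col (nat_lit 2)) (.slot (nat_lit 1))) (.col (nat_lit 0)) (.col (nat_lit 4)) (.col (nat_lit 1))
def w725 : Root := .mk (.node (.node (.node (.col (nat_lit 3)) (.col (nat_lit 2)) (.col (nat_lit 0))) (.col (nat_lit 0)) (.slot (nat_lit 1))) (.slot (nat_lit 1)) (.slot (nat_lit 1))) (.col (nat_lit 0)) (.col (nat_lit 4)) (.col (nat_lit 1))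
def w726 : Root := .mk (.node (.col (nat_lit 4)) (.col (nat_lit 0)) (.slot (nat_lit 2))) (.col (nat_lit 0)) (.node (.node (.col (nat_lit 0)) (.slot (nat_lit 0)) (.slot (nat_lit 0))) (.slot (nat_lit 7)) (.slot (nat_lit 5))) (.col (nat_lit 1))
def w727 : Root := .mk (.node (.node (.node (.col (nat_lit 3)) (.col (nat_lit 2)) .junk) (.col (nat_lit 0)) (.slot (nat_lit 1))) (.col (nat_lit 0)) (.slot (nat_lit 2))) (.col (nat_lit 0)) (.node (.node (.col (nat_lit 0)) (.slot (nat_lit 0)) (.slot (nat_lit 0))) (.slot (nat_lit 7)) (.slot (nat_lit 5))) (.col (nat_lit 1))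
def w728 : Root := .mk (.col (nat_lit 3)) (.node (.node (.node (.col (nat_lit 0)) (.node (.col (nat_lit 2)) .junk (.slot (nat_lit 1))) (.col (nat_lit 1))) (.col (nat_lit 1)) (.col (nat_lit 2))) (.col (nat_lit 0)) .junk) (.col (nat_lit 2)) (.col (nat_lit 0))
def l148 : Root := .mk (.col (nat_lit 3)) (.node (.node (.node (.col (nat_lit 0)) (.node (.col (nat_lit 2)) (.slot (nat_lit 1)) (.slot (nat_lit 1))) (.col (nat_lit 1))) (.col (nat_lit 1)) (.col (nat_lit 2))) (.col (nat_lit 0)) (.col (nat_lit 2))) (.col (nat_lit 2)) (.col (nat_lit 0))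
def w729 : Root := .mk (.col (nat_lit 3)) (.node (.node (.node (.col (nat_lit 0)) (.node (.node (.col (nat_lit 0)) (.slot (nat_lit 0)) (.slot (nat_lit 0))) (.slot (nat_lit 1)) (.slot (nat_lit 1))) (.col (nat_lit 1))) (.col (nat_lit 1)) (.col (nat_lit 2))) (.col (nat_lit 0)) (.col (nat_lit 2))) (.col (nat_lit 2)) (.col (nat_lit 0))
def w730 : Root := .mk (.col (nat_lit 3)) (.node (.node (.node (.col (nat_lit 0)) (.slot (nat_lit 0)) (.col (nat_lit 1))) (.col (nat_lit 1)) (.col (nat_lit 2))) (.col (nat_lit 0)) (.node (.col (nat_lit 1)) (.slot (nat_lit 1)) (.slot (nat_lit 0)))) (.col (nat_lit 2)) (.col (nat_lit 0))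
def w731 : Root := .mk (.col (nat_lit 3)) (.node (.node (.node (.col (nat_lit 0)) (.slot (nat_lit 0)) (.col (nat_lit 1))) (.col (nat_lit 1)) (.col (nat_lit 2))) (.col (nat_lit 0)) (.node (.col (nat_lit 2)) (.slot (nat_lit 1)) (.slot (nat_lit 0)))) (.col (nat_lit 2)) (.col (nat_lit 0))
def w732 : Root := .mk (.node (.node (.col (nat_lit 3)) (.col (nat_lit 2)) .junk) (.col (nat_lit 0)) (.node (.col (nat_lit 3)) (.slot (nat_lit 0)) (.slot (nat_lit 0)))) (.node (.col (nat_lit 0)) (.node (.slot (nat_lit 0)) (.slot (nat_lit 0)) (.slot (nat_lit 0))) .junk) (.col (nat_lit 1)) (.col (nat_lit 2))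
def w733 : Root := .mk (.col (nat_lit 3)) (.node (.node (.node (.col (nat_lit 0)) (.node (.slot (nat_lit 0)) (.slot (nat_lit 0)) (.slot (nat_lit 0))) (.col (nat_lit 1))) (.col (nat_lit 1)) (.col (nat_lit 2))) (.col (nat_lit 0)) (.node (.col (nat_lit 4)) (.slot (nat_lit 0)) (.slot (nat_lit 0)))) (.col (nat_lit 2)) (.col (nat_lit 0))
def w734 : Root := .mk (.col (nat_lit 3)) (.node (.node (.node (.col (nat_lit 0)) (.slot (nat_lit 0)) (.col (nat_lit 1))) (.col (nat_lit 1)) (.col (nat_lit 2))) (.col (nat_lit 0)) (.slot (nat_lit 1))) (.col (nat_lit 2)) (.col (nat_lit 0))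
def l149 : Root := .mk (.col (nat_lit 3)) (.node (.node (.node (.col (nat_lit 0)) (.node (.node (.col (nat_lit 0)) (.slot (nat_lit 0)) (.slot (nat_lit 0))) (.slot (nat_lit 1)) (.slot (nat_lit 1))) (.col (nat_lit 1))) (.col (nat_lit 1)) (.col (nat_lit 2))) (.col (nat_lit 0)) (.slot (nat_lit 2))) (.col (nat_lit 2)) (.col (nat_lit 0))
def w735 : Root := .mk (.col (nat_lit 3)) (.node (.node (.node (.col (nat_lit 0)) (.node (.node (.col (nat_lit 0)) (.slot (nat_lit 0)) (.slot (nat_lit 0))) (.slot (nat_lit 1)) (.slot (nat_lit 1))) (.col (nat_lit 1))) (.col (nat_lit 1)) (.slot (nat_lit 1))) (.col (nat_lit 0)) (.slot (nat_lit 2))) (.col (nat_lit 2)) (.col (nat_lit 0))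
def w736 : Root := .mk (.col (nat_lit 3)) (.node (.node (.node (.col (nat_lit 0)) (.node (.node (.col (nat_lit 0)) (.slot (nat_lit 0)) (.slot (nat_lit 0))) (.slot (nat_lit 1)) (.slot (nat_lit 1))) (.col (nat_lit 1))) (.node (.col (nat_lit 0)) (.slot (nat_lit 0)) (.slot (nat_lit 0))) (.slot (nat_lit 3))) (.col (nat_lit 0)) (.slot (nat_lit 1))) (.col (nat_lit 2)) (.col (nat_lit 0))
def w737 : Root := .mk (.col (nat_lit 3)) (.node (.node (.node (.col (nat_lit 0)) (.node (.node (.col (nat_lit 0)) (.slot (nat_lit 0)) (.slot (nat_lit 0))) (.slot (nat_lit 1)) (.slot (nat_lit 1))) (.col (nat_lit 1))) (.node (.col (nat_lit 1)) (.slot (nat_lit 0)) (.slot (nat_lit 0))) (.slot (nat_lit 3))) (.col (nat_lit 0)) (.slot (nat_lit 1))) (.col (nat_lit 2)) (.col (nat_lit 0))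
def w738 : Root := .mk (.col (nat_lit 3)) (.node (.node (.node (.col (nat_lit 0)) (.node (.node (.col (nat_lit 0)) (.slot (nat_lit 0)) (.slot (nat_lit 0))) (.slot (nat_lit 1)) (.slot (nat_lit 1))) (.col (nat_lit 1))) (.node (.col (nat_lit 2)) (.slot (nat_lit 0)) (.slot (nat_lit 0))) (.slot (nat_lit 3))) (.col (nat_lit 0)) (.slot (nat_lit 1))) (.col (nat_lit 2)) (.col (nat_lit 0))
def w739 : Root := .mk (.col (nat_lit 3)) (.node (.node (.node (.col (nat_lit 0)) (.node (.node (.col (nat_lit 0)) (.slot (nat_lit 0)) (.slot (nat_lit 0))) (.slot (nat_lit 1)) (.slot (nat_lit 1))) (.col (nat_lit 1))) (.node (.col (nat_lit 4)) (.slot (nat_lit 0)) (.slot (nat_lit 0))) (.slot (nat_lit 3))) (.col (nat_lit 0)) (.slot (nat_lit 1))) (.col (nat_lit 2)) (.col (nat_lit 0))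
def w740 : Root := .mk (.node (.node (.col (nat_lit 3)) (.col (nat_lit 2)) .junk) (.col (nat_lit 0)) (.slot (nat_lit 1))) (.node .junk (.node (.col (nat_lit 1)) (.slot (nat_lit 0)) (.slot (nat_lit 0))) (.col (nat_lit 1))) (.col (nat_lit 2)) (.col (nat_lit 0))
def l150 : Root := .mk (.col (nat_lit 3)) (.node (.node (.node (.col (nat_lit 0)) (.node (.col (nat_lit 1)) (.slot (nat_lit 0)) (.slot (nat_lit 0))) (.col (nat_lit 1))) (.col (nat_lit 2)) (.col (nat_lit 3))) (.col (nat_lit 0)) (.col (nat_lit 2))) (.col (nat_lit 2)) (.col (nat_lit 0))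
def w741 : Root := .mk (.col (nat_lit 3)) (.node (.node (.node (.col (nat_lit 0)) (.node (.col (nat_lit 1)) (.slot (nat_lit 0)) (.slot (nat_lit 0))) (.col (nat_lit 1))) (.col (nat_lit 2)) (.slot (nat_lit 1))) (.col (nat_lit 0)) (.col (nat_lit 2))) (.col (nat_lit 2)) (.col (nat_lit 0))
def w742 : Root := .mk (.node (.node (.node (.col (nat_lit 3)) (.col (nat_lit 2)) .junk) (.col (nat_lit 0)) (.node (.col (nat_lit 0)) (.slot (nat_lit 0)) (.slot (nat_lit 0)))) (.col (nat_lit 2)) (.slot (nat_lit 1))) (.col (nat_lit 0)) (.slot (nat_lit 0)) (.col (nat_lit 1))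
def w743 : Root := .mk (.node (.node (.slot (nat_lit 0)) (.col (nat_lit 0)) (.node (.col (nat_lit 3)) (.slot (nat_lit 0)) (.slot (nat_lit 0)))) (.col (nat_lit 2)) (.slot (nat_lit 1))) (.col (nat_lit 0)) (.node (.col (nat_lit 1)) (.slot (nat_lit 0)) (.slot (nat_lit 0))) (.col (nat_lit 1))
def l151 : Root := .mk (.col (nat_lit 3)) (.node (.node (.node (.col (nat_lit 0)) (.node (.col (nat_lit 1)) (.slot (nat_lit 1)) (.slot (nat_lit 1))) (.col (nat_lit 1))) (.col (nat_lit 2)) (.slot (nat_lit 3))) (.col (nat_lit 0)) (.slot (nat_lit 1))) (.col (nat_lit 2)) (.col (nat_lit 0))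
def w744 : Root := .mk (.col (nat_lit 3)) (.node (.node (.node (.col (nat_lit 0)) (.node (.col (nat_lit 1)) (.slot (nat_lit 1)) (.slot (nat_lit 1))) (.col (nat_lit 1))) (.slot (nat_lit 1)) (.slot (nat_lit 3))) (.col (nat_lit 0)) (.slot (nat_lit 1))) (.col (nat_lit 2)) (.col (nat_lit 0))
def w745 : Root := .mk (.node (.node (.col (nat_lit 3)) (.col (nat_lit 2)) .junk) (.col (nat_lit 0)) (.slot (nat_lit 1))) (.node .junk (.node (.slot (nat_lit 0)) (.col (nat_lit 0)) (.slot (nat_lit 0))) (.col (nat_lit 1))) (.col (nat_lit 2)) (.col (nat_lit 0))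
def w746 : Root := .mk (.node (.node (.slot (nat_lit 0)) (.col (nat_lit 0)) (.slot (nat_lit 0))) (.col (nat_lit 2)) (.node (.col (nat_lit 0)) (.slot (nat_lit 1)) (.slot (nat_lit 0)))) (.col (nat_lit 0)) (.node (.slot (nat_lit 0)) (.col (nat_lit 0)) (.slot (nat_lit 0))) (.col (nat_lit 1))
def w747 : Root := .mk (.node (.node (.slot (nat_lit 0)) (.col (nat_lit 0)) (.slot (nat_lit 1))) (.col (nat_lit 2)) (.node (.col (nat_lit 2)) (.slot (nat_lit 0)) (.slot (nat_lit 0)))) (.col (nat_lit 0)) (.node (.slot (nat_lit 0)) (.col (nat_lit 0)) (.slot (nat_lit 0))) (.col (nat_lit 1))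
def w748 : Root := .mk (.node (.node (.slot (nat_lit 0)) (.col (nat_lit 0)) (.slot (nat_lit 1))) (.col (nat_lit 2)) (.node (.col (nat_lit 3)) (.slot (nat_lit 0)) (.slot (nat_lit 0)))) (.col (nat_lit 0)) (.node (.slot (nat_lit 0)) (.col (nat_lit 0)) (.slot (nat_lit 0))) (.col (nat_lit 1))
def l152 : Root := .mk (.col (nat_lit 3)) (.node (.node (.node (.col (nat_lit 0)) (.node (.slot (nat_lit 0)) (.col (nat_lit 0)) (.slot (nat_lit 0))) (.col (nat_lit 1))) (.col (nat_lit 2)) (.col (nat_lit 3))) (.col (nat_lit 0)) (.col (nat_lit 2))) (.col (nat_lit 2)) (.col (nat_lit 0))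
def w749 : Root := .mk (.col (nat_lit 3)) (.node (.node (.node (.col (nat_lit 0)) (.node (.slot (nat_lit 0)) (.col (nat_lit 0)) (.slot (nat_lit 0))) (.col (nat_lit 1))) (.col (nat_lit 2)) (.slot (nat_lit 1))) (.col (nat_lit 0)) (.col (nat_lit 2))) (.col (nat_lit 2)) (.col (nat_lit 0))
def w750 : Root := .mk (.slot (nat_lit 0)) (.node (.node (.col (nat_lit 0)) (.node (.slot (nat_lit 0)) (.col (nat_lit 0)) (.slot (nat_lit 0))) (.col (nat_lit 1))) (.col (nat_lit 2)) (.slot (nat_lit 1))) (.col (nat_lit 0)) (.col (nat_lit 3))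
def w751 : Root := .mk (.node (.node (.node (.col (nat_lit 3)) (.col (nat_lit 2)) .junk) (.col (nat_lit 0)) (.node (.col (nat_lit 2)) (.slot (nat_lit 0)) (.slot (nat_lit 0)))) (.col (nat_lit 2)) (.slot (nat_lit 1))) (.col (nat_lit 0)) (.slot (nat_lit 0)) (.col (nat_lit 1))
def w752 : Root := .mk (.node (.node (.node (.col (nat_lit 3)) (.col (nat_lit 2)) .junk) (.col (nat_lit 0)) (.node (.col (nat_lit 3)) (.slot (nat_lit 0)) (.slot (nat_lit 0)))) (.col (nat_lit 2)) (.slot (nat_lit 1))) (.col (nat_lit 0)) (.slot (nat_lit 0)) (.col (nat_lit 1))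
def w753 : Root := .mk (.node (.col (nat_lit 3)) (.col (nat_lit 2)) .junk) (.node (.node (.col (nat_lit 0)) .junk (.col (nat_lit 1))) (.col (nat_lit 2)) (.slot (nat_lit 1))) (.col (nat_lit 0)) (.node (.col (nat_lit 4)) (.slot (nat_lit 0)) (.slot (nat_lit 0)))
def w754 : Root := .mk (.node (.node (.node (.col (nat_lit 3)) (.col (nat_lit 2)) .junk) (.col (nat_lit 0)) (.slot (nat_lit 1))) (.col (nat_lit 2)) (.slot (nat_lit 1))) (.col (nat_lit 0)) (.slot (nat_lit 0)) (.col (nat_lit 1))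
def l153 : Root := .mk (.col (nat_lit 3)) (.node (.node (.node (.col (nat_lit 0)) (.node (.slot (nat_lit 0)) (.col (nat_lit 0)) (.slot (nat_lit 2))) (.col (nat_lit 1))) (.col (nat_lit 2)) (.slot (nat_lit 3))) (.col (nat_lit 0)) (.slot (nat_lit 1))) (.col (nat_lit 2)) (.col (nat_lit 0))
def w755 : Root := .mk (.col (nat_lit 3)) (.node (.node (.node (.col (nat_lit 0)) (.node (.slot (nat_lit 0)) (.col (nat_lit 0)) (.slot (nat_lit 2))) (.col (nat_lit 1))) (.slot (nat_lit 1)) (.slot (nat_lit 3))) (.col (nat_lit 0)) (.slot (nat_lit 1))) (.col (nat_lit 2)) (.col (nat_lit 0))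
def l154 : Root := .mk (.col (nat_lit 3)) (.node (.node (.node (.col (nat_lit 0)) (.node (.node (.col (nat_lit 0)) (.slot (nat_lit 1)) (.slot (nat_lit 1))) (.col (nat_lit 1)) (.slot (nat_lit 1))) (.col (nat_lit 1))) (.col (nat_lit 2)) (.slot (nat_lit 3))) (.col (nat_lit 0)) (.slot (nat_lit 1))) (.col (nat_lit 2)) (.col (nat_lit 0))
def w756 : Root := .mk (.col (nat_lit 3)) (.node (.node (.node (.col (nat_lit 0)) (.node (.node (.col (nat_lit 0)) (.slot (nat_lit 1)) (.slot (nat_lit 1))) (.col (nat_lit 1)) (.slot (nat_lit 1))) (.col (nat_lit 1))) (.slot (nat_lit 1)) (.slot (nat_lit 3))) (.col (nat_lit 0)) (.slot (nat_lit 1))) (.col (nat_lit 2)) (.col (nat_lit 0))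
def w757 : Root := .mk (.col (nat_lit 3)) (.col (nat_lit 0)) (.node (.node (.col (nat_lit 0)) (.slot (nat_lit 0)) (.slot (nat_lit 0))) (.node (.col (nat_lit 0)) (.slot (nat_lit 1)) (.slot (nat_lit 1))) (.slot (nat_lit 2))) (.col (nat_lit 1))
def l155 : Root := .mk (.col (nat_lit 3)) (.node (.node (.node (.col (nat_lit 0)) (.node (.slot (nat_lit 0)) (.slot (nat_lit 0)) (.slot (nat_lit 0))) (.col (nat_lit 1))) (.col (nat_lit 2)) (.slot (nat_lit 3))) (.col (nat_lit 0)) (.slot (nat_lit 1))) (.col (nat_lit 2)) (.col (nat_lit 0))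
def w758 : Root := .mk (.col (nat_lit 3)) (.node (.node (.node (.col (nat_lit 0)) (.node (.slot (nat_lit 0)) (.slot (nat_lit 0)) (.slot (nat_lit 0))) (.col (nat_lit 1))) (.slot (nat_lit 1)) (.slot (nat_lit 3))) (.col (nat_lit 0)) (.slot (nat_lit 1))) (.col (nat_lit 2)) (.col (nat_lit 0))
def l156 : Root := .mk (.col (nat_lit 4)) (.node (.node (.col (nat_lit 0)) (.node (.node (.col (nat_lit 0)) (.slot (nat_lit 0)) (.slot (nat_lit 0))) (.col (nat_lit 2)) (.col (nat_lit 0))) (.col (nat_lit 1))) (.slot (nat_lit 1)) (.slot (nat_lit 1))) (.col (nat_lit 0)) (.col (nat_lit 1))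
def w759 : Root := .mk (.node (.node (.node (.col (nat_lit 4)) (.col (nat_lit 0)) (.slot (nat_lit 1))) (.slot (nat_lit 1)) (.slot (nat_lit 1))) (.col (nat_lit 0)) (.col (nat_lit 1))) (.node (.col (nat_lit 0)) (.slot (nat_lit 0)) (.slot (nat_lit 0))) (.col (nat_lit 2)) (.col (nat_lit 0))
def l157 : Root := .mk (.node (.node (.col (nat_lit 4)) (.col (nat_lit 0)) (.slot (nat_lit 2))) (.slot (nat_lit 1)) (.slot (nat_lit 1))) (.col (nat_lit 0)) (.node (.node (.col (nat_lit 0)) (.slot (nat_lit 1)) (.slot (nat_lit 1))) (.col (nat_lit 2)) (.slot (nat_lit 2))) (.col (nat_lit 1))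
def w760 : Root := .mk (.node (.node (.col (nat_lit 4)) (.col (nat_lit 0)) (.slot (nat_lit 2))) (.slot (nat_lit 1)) (.slot (nat_lit 1))) (.col (nat_lit 0)) (.node (.node (.col (nat_lit 0)) (.slot (nat_lit 1)) (.slot (nat_lit 1))) (.slot (nat_lit 1)) (.slot (nat_lit 2))) (.col (nat_lit 1))
def w761 : Root := .mk (.node (.col (nat_lit 4)) (.col (nat_lit 0)) (.slot (nat_lit 1))) (.col (nat_lit 0)) (.node (.node (.col (nat_lit 0)) (.slot (nat_lit 0)) (.slot (nat_lit 0))) (.col (nat_lit 3)) (.slot (nat_lit 1))) (.col (nat_lit 1))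
def w762 : Root := .mk (.slot (nat_lit 0)) (.node (.col (nat_lit 0)) (.node (.node (.col (nat_lit 0)) (.slot (nat_lit 1)) (.slot (nat_lit 0))) (.col (nat_lit 3)) (.slot (nat_lit 1))) (.col (nat_lit 1))) (.col (nat_lit 0)) (.col (nat_lit 2))
def l158 : Root := .mk (.node (.node (.col (nat_lit 1)) .junk (.col (nat_lit 2))) (.col (nat_lit 0)) (.slot (nat_lit 2))) (.col (nat_lit 0)) (.node (.node (.col (nat_lit 0)) (.slot (nat_lit 1)) (.slot (nat_lit 1))) (.col (nat_lit 3)) (.slot (nat_lit 2))) (.col (nat_lit 1))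
def w763 : Root := .mk (.node (.node (.col (nat_lit 1)) .junk (.col (nat_lit 2))) (.col (nat_lit 0)) (.slot (nat_lit 2))) (.col (nat_lit 0)) (.node (.node (.col (nat_lit 0)) (.slot (nat_lit 1)) (.slot (nat_lit 1))) (.slot (nat_lit 1)) (.slot (nat_lit 2))) (.col (nat_lit 1))
def l159 : Root := .mk (.col (nat_lit 1)) (.node (.node (.col (nat_lit 0)) (.node (.node (.col (nat_lit 0)) (.slot (nat_lit 1)) (.slot (nat_lit 1))) (.slot (nat_lit 2)) (.slot (nat_lit 1))) (.col (nat_lit 1))) (.slot (nat_lit 2)) (.slot (nat_lit 2))) (.col (nat_lit 0)) (.col (nat_lit 2))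
def w764 : Root := .mk (.col (nat_lit 3)) (.node (.node (.node (.col (nat_lit 0)) (.node (.node (.col (nat_lit 0)) (.slot (nat_lit 1)) (.slot (nat_lit 1))) (.slot (nat_lit 2)) (.slot (nat_lit 1))) (.col (nat_lit 1))) (.slot (nat_lit 2)) (.slot (nat_lit 2))) (.col (nat_lit 0)) (.col (nat_lit 2))) (.col (nat_lit 2)) (.col (nat_lit 0))
def w765 : Root := .mk (.node (.node (.slot (nat_lit 0)) (.col (nat_lit 0)) (.node (.col (nat_lit 0)) (.slot (nat_lit 0)) (.slot (nat_lit 0)))) (.col (nat_lit 2)) (.node (.col (nat_lit 2)) (.slot (nat_lit 0)) (.slot (nat_lit 0)))) (.col (nat_lit 0)) (.node (.slot (nat_lit 0)) (.slot (nat_lit 0)) (.slot (nat_lit 0))) (.col (nat_lit 1))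
def w766 : Root := .mk (.node (.node (.slot (nat_lit 0)) (.col (nat_lit 0)) (.node (.col (nat_lit 0)) (.slot (nat_lit 0)) (.slot (nat_lit 0)))) (.col (nat_lit 2)) (.node (.col (nat_lit 3)) (.slot (nat_lit 0)) (.slot (nat_lit 0)))) (.col (nat_lit 0)) (.node (.slot (nat_lit 0)) (.slot (nat_lit 0)) (.slot (nat_lit 0))) (.col (nat_lit 1))
def w767 : Root := .mk (.node (.col (nat_lit 3)) (.col (nat_lit 2)) .junk) (.node (.node (.col (nat_lit 0)) .junk (.col (nat_lit 1))) (.col (nat_lit 2)) (.slot (nat_lit 1))) (.col (nat_lit 0)) (.node (.col (nat_lit 0)) (.slot (nat_lit 0)) (.slot (nat_lit 0)))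
def w768 : Root := .mk (.node (.node (.node (.col (nat_lit 3)) (.col (nat_lit 2)) .junk) (.col (nat_lit 0)) (.node (.col (nat_lit 0)) (.col (nat_lit 1)) (.slot (nat_lit 0)))) (.col (nat_lit 2)) (.slot (nat_lit 1))) (.col (nat_lit 0)) (.slot (nat_lit 0)) (.col (nat_lit 1))
def w769 : Root := .mk (.node (.node (.node (.col (nat_lit 3)) (.col (nat_lit 2)) .junk) (.col (nat_lit 0)) (.node (.col (nat_lit 0)) (.col (nat_lit 2)) (.slot (nat_lit 0)))) (.col (nat_lit 2)) (.slot (nat_lit 1))) (.col (nat_lit 0)) (.slot (nat_lit 0)) (.col (nat_lit 1))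
def w770 : Root := .mk (.node (.node (.node (.col (nat_lit 3)) (.col (nat_lit 2)) .junk) (.col (nat_lit 0)) (.node (.col (nat_lit 0)) (.col (nat_lit 3)) (.slot (nat_lit 0)))) (.col (nat_lit 2)) (.slot (nat_lit 1))) (.col (nat_lit 0)) (.slot (nat_lit 0)) (.col (nat_lit 1))
def w771 : Root := .mk (.node (.node (.col (nat_lit 3)) (.col (nat_lit 2)) .junk) (.node (.node (.col (nat_lit 0)) .junk (.col (nat_lit 1))) (.col (nat_lit 2)) (.slot (nat_lit 1))) (.col (nat_lit 0))) (.col (nat_lit 0)) (.col (nat_lit 4)) (.slot (nat_lit 0))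
def l160 : Root := .mk (.col (nat_lit 3)) (.node (.node (.node (.col (nat_lit 0)) (.node (.slot (nat_lit 0)) (.slot (nat_lit 0)) (.slot (nat_lit 0))) (.col (nat_lit 1))) (.col (nat_lit 2)) (.slot (nat_lit 2))) (.col (nat_lit 0)) (.node (.col (nat_lit 0)) (.slot (nat_lit 0)) (.slot (nat_lit 0)))) (.col (nat_lit 2)) (.col (nat_lit 0))
def w772 : Root := .mk (.col (nat_lit 3)) (.node (.node (.node (.col (nat_lit 0)) (.node (.slot (nat_lit 0)) (.slot (nat_lit 0)) (.slot (nat_lit 0))) (.col (nat_lit 1))) (.slot (nat_lit 1)) (.slot (nat_lit 2))) (.col (nat_lit 0)) (.node (.col (nat_lit 0)) (.slot (nat_lit 0)) (.slot (nat_lit 0)))) (.col (nat_lit 2)) (.col (nat_lit 0))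
def w773 : Root := .mk (.col (nat_lit 3)) (.node (.node (.col (nat_lit 4)) (.col (nat_lit 2)) (.node (.col (nat_lit 0)) (.col (nat_lit 2)) (.slot (nat_lit 1)))) (.col (nat_lit 0)) (.node (.col (nat_lit 1)) (.slot (nat_lit 0)) (.slot (nat_lit 0)))) (.col (nat_lit 2)) (.col (nat_lit 0))
def w774 : Root := .mk (.node (.node (.col (nat_lit 3)) (.col (nat_lit 2)) .junk) (.col (nat_lit 0)) (.node (.col (nat_lit 1)) (.slot (nat_lit 0)) (.slot (nat_lit 0)))) (.col (nat_lit 4)) (.col (nat_lit 2)) (.node (.col (nat_lit 0)) .junk (.slot (nat_lit 1)))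
def w775 : Root := .mk (.col (nat_lit 3)) (.node (.node (.col (nat_lit 4)) (.col (nat_lit 2)) (.node (.col (nat_lit 0)) (.slot (nat_lit 1)) (.slot (nat_lit 0)))) (.col (nat_lit 0)) (.node (.col (nat_lit 1)) (.col (nat_lit 2)) (.slot (nat_lit 0)))) (.col (nat_lit 2)) (.col (nat_lit 0))
def w776 : Root := .mk (.node (.node (.col (nat_lit 3)) (.col (nat_lit 2)) .junk) (.col (nat_lit 0)) (.node (.col (nat_lit 1)) (.col (nat_lit 3)) (.slot (nat_lit 0)))) (.col (nat_lit 4)) (.col (nat_lit 2)) (.node (.col (nat_lit 0)) (.slot (nat_lit 1)) .junk)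
def w777 : Root := .mk (.col (nat_lit 3)) (.node (.node (.col (nat_lit 4)) (.col (nat_lit 2)) (.node (.col (nat_lit 0)) (.slot (nat_lit 1)) (.slot (nat_lit 0)))) (.col (nat_lit 0)) (.node (.col (nat_lit 1)) (.col (nat_lit 4)) (.slot (nat_lit 0)))) (.col (nat_lit 2)) (.col (nat_lit 0))
def l161 : Root := .mk (.col (nat_lit 3)) (.node (.node (.col (nat_lit 4)) (.col (nat_lit 2)) (.node (.col (nat_lit 0)) (.slot (nat_lit 1)) (.slot (nat_lit 1)))) (.col (nat_lit 0)) (.node (.col (nat_lit 1)) (.slot (nat_lit 1)) (.slot (nat_lit 0)))) (.col (nat_lit 2)) (.col (nat_lit 0))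
def w778 : Root := .mk (.col (nat_lit 3)) (.node (.node (.col (nat_lit 4)) (.col (nat_lit 2)) (.slot (nat_lit 2))) (.col (nat_lit 0)) (.node (.col (nat_lit 1)) (.slot (nat_lit 1)) (.slot (nat_lit 0)))) (.col (nat_lit 2)) (.col (nat_lit 0))
def l162 : Root := .mk (.node (.col (nat_lit 3)) (.col (nat_lit 2)) .junk) (.node (.node (.col (nat_lit 0)) (.node (.slot (nat_lit 0)) (.slot (nat_lit 0)) (.slot (nat_lit 0))) (.col (nat_lit 1))) (.col (nat_lit 2)) (.col (nat_lit 0))) (.col (nat_lit 0)) (.col (nat_lit 4))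
def w779 : Root := .mk (.node (.node (.col (nat_lit 3)) (.col (nat_lit 2)) .junk) (.col (nat_lit 0)) (.node (.col (nat_lit 1)) (.slot (nat_lit 0)) (.slot (nat_lit 0)))) (.node (.col (nat_lit 0)) (.node (.slot (nat_lit 0)) (.slot (nat_lit 0)) (.slot (nat_lit 0))) (.col (nat_lit 1))) (.col (nat_lit 2)) (.col (nat_lit 0))
def l163 : Root := .mk (.col (nat_lit 3)) (.node (.node (.node (.col (nat_lit 0)) (.node (.slot (nat_lit 0)) (.slot (nat_lit 0)) (.slot (nat_lit 0))) (.col (nat_lit 1))) (.col (nat_lit 2)) (.col (nat_lit 3))) (.col (nat_lit 0)) (.slot (nat_lit 0))) (.col (nat_lit 2)) (.col (nat_lit 0))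
def w780 : Root := .mk (.col (nat_lit 3)) (.node (.node (.node (.col (nat_lit 0)) (.node (.slot (nat_lit 0)) (.slot (nat_lit 0)) (.slot (nat_lit 0))) (.col (nat_lit 1))) (.col (nat_lit 2)) (.node (.col (nat_lit 2)) (.slot (nat_lit 0)) (.slot (nat_lit 0)))) (.col (nat_lit 0)) (.slot (nat_lit 0))) (.col (nat_lit 2)) (.col (nat_lit 0))
def l164 : Root := .mk (.col (nat_lit 3)) (.node (.node (.node (.col (nat_lit 0)) (.node (.slot (nat_lit 0)) (.slot (nat_lit 0)) (.slot (nat_lit 0))) (.col (nat_lit 1))) (.col (nat_lit 2)) (.col (nat_lit 4))) (.col (nat_lit 0)) (.slot (nat_lit 0))) (.col (nat_lit 2)) (.col (nat_lit 0))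
def w781 : Root := .mk (.col (nat_lit 3)) (.node (.node (.node (.col (nat_lit 0)) (.node (.slot (nat_lit 0)) (.slot (nat_lit 0)) (.slot (nat_lit 0))) (.col (nat_lit 1))) (.col (nat_lit 2)) (.node (.col (nat_lit 3)) (.slot (nat_lit 0)) (.slot (nat_lit 0)))) (.col (nat_lit 0)) (.slot (nat_lit 0))) (.col (nat_lit 2)) (.col (nat_lit 0))
def w782 : Root := .mk (.col (nat_lit 3)) (.node (.node (.node (.col (nat_lit 0)) (.node (.slot (nat_lit 0)) (.slot (nat_lit 0)) (.slot (nat_lit 0))) (.col (nat_lit 1))) (.col (nat_lit 2)) (.node (.col (nat_lit 4)) (.slot (nat_lit 0)) (.slot (nat_lit 0)))) (.col (nat_lit 0)) (.slot (nat_lit 0))) (.col (nat_lit 2)) (.col (nat_lit 0))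
def l165 : Root := .mk (.node (.node (.node (.col (nat_lit 3)) (.col (nat_lit 2)) .junk) (.col (nat_lit 0)) (.col (nat_lit 4))) (.col (nat_lit 2)) (.slot (nat_lit 1))) (.col (nat_lit 0)) (.col (nat_lit 2)) (.col (nat_lit 1))
def w783 : Root := .mk (.node (.node (.node (.col (nat_lit 3)) (.col (nat_lit 2)) .junk) (.col (nat_lit 0)) (.node (.col (nat_lit 1)) (.slot (nat_lit 0)) (.slot (nat_lit 0)))) (.col (nat_lit 2)) (.slot (nat_lit 1))) (.col (nat_lit 0)) (.col (nat_lit 2)) (.col (nat_lit 1))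
def w784 : Root := .mk (.col (nat_lit 3)) (.node (.node (.slot (nat_lit 0)) (.col (nat_lit 2)) (.slot (nat_lit 1))) (.col (nat_lit 0)) (.node (.col (nat_lit 1)) (.col (nat_lit 2)) (.slot (nat_lit 1)))) (.col (nat_lit 2)) (.col (nat_lit 0))
def w785 : Root := .mk (.col (nat_lit 3)) (.node (.node (.node (.col (nat_lit 0)) (.node (.slot (nat_lit 0)) (.slot (nat_lit 0)) (.slot (nat_lit 0))) (.col (nat_lit 1))) (.col (nat_lit 2)) (.slot (nat_lit 1))) (.col (nat_lit 0)) (.slot (nat_lit 0))) (.col (nat_lit 2)) (.col (nat_lit 0))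
def l166 : Root := .mk (.col (nat_lit 3)) (.node (.node (.node (.col (nat_lit 0)) (.node (.slot (nat_lit 0)) (.slot (nat_lit 0)) (.slot (nat_lit 0))) (.col (nat_lit 1))) (.col (nat_lit 2)) (.slot (nat_lit 2))) (.col (nat_lit 0)) (.node (.col (nat_lit 1)) (.slot (nat_lit 1)) (.slot (nat_lit 1)))) (.col (nat_lit 2)) (.col (nat_lit 0))
def w786 : Root := .mk (.col (nat_lit 3)) (.node (.node (.node (.col (nat_lit 0)) (.node (.slot (nat_lit 0)) (.slot (nat_lit 0)) (.slot (nat_lit 0))) (.col (nat_lit 1))) (.slot (nat_lit 1)) (.slot (nat_lit 2))) (.col (nat_lit 0)) (.node (.col (nat_lit 1)) (.slot (nat_lit 1)) (.slot (nat_lit 1)))) (.col (nat_lit 2)) (.col (nat_lit 0))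
def w787 : Root := .mk (.node (.node (.node (.col (nat_lit 3)) (.col (nat_lit 2)) .junk) (.col (nat_lit 0)) (.node (.col (nat_lit 4)) (.slot (nat_lit 0)) (.slot (nat_lit 0)))) (.slot (nat_lit 1)) (.slot (nat_lit 1))) (.col (nat_lit 0)) (.node (.node (.col (nat_lit 0)) (.slot (nat_lit 0)) (.slot (nat_lit 0))) (.slot (nat_lit 1)) (.slot (nat_lit 1))) (.col (nat_lit 1))
def l167 : Root := .mk (.col (nat_lit 3)) (.node (.node (.node (.col (nat_lit 0)) (.node (.node (.col (nat_lit 0)) (.slot (nat_lit 1)) (.slot (nat_lit 1))) (.slot (nat_lit 7)) (.slot (nat_lit 5))) (.col (nat_lit 1))) (.slot (nat_lit 3)) (.slot (nat_lit 3))) (.col (nat_lit 0)) (.slot (nat_lit 4))) (.col (nat_lit 2)) (.col (nat_lit 0))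
def w788 : Root := .mk (.col (nat_lit 3)) (.node (.node (.node (.col (nat_lit 0)) (.node (.node (.col (nat_lit 0)) (.slot (nat_lit 1)) (.slot (nat_lit 1))) (.slot (nat_lit 7)) (.slot (nat_lit 5))) (.slot (nat_lit 1))) (.slot (nat_lit 3)) (.slot (nat_lit 3))) (.col (nat_lit 0)) (.slot (nat_lit 4))) (.col (nat_lit 2)) (.col (nat_lit 0))
def w789 : Root := .mk (.col (nat_lit 3)) (.node (.node (.node (.col (nat_lit 0)) (.col (nat_lit 1)) (.slot (nat_lit 3))) (.slot (nat_lit 1)) (.slot (nat_lit 1))) (.col (nat_lit 0)) (.slot (nat_lit 3))) (.col (nat_lit 2)) (.col (nat_lit 0))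
def w790 : Root := .mk (.node (.node (.node (.col (nat_lit 3)) (.col (nat_lit 2)) .junk) (.col (nat_lit 0)) (.slot (nat_lit 1))) (.slot (nat_lit 1)) (.slot (nat_lit 1))) (.col (nat_lit 0)) (.node (.node (.col (nat_lit 0)) (.slot (nat_lit 0)) (.slot (nat_lit 0))) (.slot (nat_lit 1)) (.slot (nat_lit 1))) (.col (nat_lit 2))
def w791 : Root := .mk (.col (nat_lit 3)) (.node (.node (.node (.col (nat_lit 0)) (.node (.node (.col (nat_lit 0)) (.slot (nat_lit 1)) (.slot (nat_lit 1))) (.slot (nat_lit 7)) (.slot (nat_lit 5))) (.node (.col (nat_lit 0)) (.slot (nat_lit 0)) (.slot (nat_lit 0)))) (.slot (nat_lit 3)) (.slot (nat_lit 3))) (.col (nat_lit 0)) (.slot (nat_lit 4))) (.col (nat_lit 2)) (.col (nat_lit 0))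
def w793 : Root := .mk (.col (nat_lit 3)) (.node (.node (.node (.col (nat_lit 0)) (.node (.node (.col (nat_lit 0)) (.slot (nat_lit 1)) (.slot (nat_lit 1))) (.slot (nat_lit 7)) (.slot (nat_lit 5))) (.node (.col (nat_lit 2)) (.slot (nat_lit 0)) (.slot (nat_lit 0)))) (.slot (nat_lit 3)) (.slot (nat_lit 3))) (.col (nat_lit 0)) (.slot (nat_lit 4))) (.col (nat_lit 2)) (.col (nat_lit 0))
def l168 : Root := .mk (.node (.node (.col (nat_lit 2)) (.slot (nat_lit 1)) (.slot (nat_lit 0))) (.col (nat_lit 0)) (.slot (nat_lit 1))) (.node (.col (nat_lit 0)) (.slot (nat_lit 2)) (.slot (nat_lit 2))) (.col (nat_lit 2)) (.col (nat_lit 1))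
def w794 : Root := .mk (.node (.node (.col (nat_lit 2)) (.slot (nat_lit 1)) (.slot (nat_lit 0))) (.col (nat_lit 0)) (.slot (nat_lit 1))) (.node (.col (nat_lit 0)) (.slot (nat_lit 2)) (.slot (nat_lit 2))) (.col (nat_lit 2)) (.slot (nat_lit 1))
def w795 : Root := .mk (.node (.node (.col (nat_lit 2)) (.col (nat_lit 0)) (.slot (nat_lit 2))) (.col (nat_lit 0)) (.node (.col (nat_lit 2)) (.slot (nat_lit 7)) (.slot (nat_lit 5)))) (.slot (nat_lit 0)) (.col (nat_lit 2)) (.col (nat_lit 0))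
def w796 : Root := .mk (.node (.node (.col (nat_lit 2)) (.node (.col (nat_lit 0)) (.slot (nat_lit 1)) (.slot (nat_lit 0))) (.slot (nat_lit 1))) (.col (nat_lit 0)) (.node (.col (nat_lit 2)) (.slot (nat_lit 2)) (.slot (nat_lit 2)))) (.slot (nat_lit 0)) (.col (nat_lit 2)) (.col (nat_lit 0))
def w797 : Root := .mk (.node (.node (.col (nat_lit 2)) (.node (.col (nat_lit 1)) (.slot (nat_lit 1)) (.slot (nat_lit 0))) (.slot (nat_lit 1))) (.col (nat_lit 0)) (.node (.col (nat_lit 2)) (.slot (nat_lit 2)) (.slot (nat_lit 2)))) (.slot (nat_lit 0)) (.col (nat_lit 2)) (.col (nat_lit 0))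
def w798 : Root := .mk (.node (.node (.col (nat_lit 2)) (.node (.col (nat_lit 2)) (.slot (nat_lit 0)) (.slot (nat_lit 0))) (.slot (nat_lit 2))) (.col (nat_lit 0)) (.node (.col (nat_lit 2)) (.slot (nat_lit 1)) (.slot (nat_lit 1)))) (.slot (nat_lit 0)) (.col (nat_lit 2)) (.col (nat_lit 0))
def l169 : Root := .mk (.node (.node (.col (nat_lit 2)) (.slot (nat_lit 7)) (.slot (nat_lit 5))) (.col (nat_lit 0)) (.node (.col (nat_lit 2)) (.slot (nat_lit 7)) (.slot (nat_lit 5)))) (.node (.col (nat_lit 0)) (.slot (nat_lit 0)) (.slot (nat_lit 0))) (.col (nat_lit 2)) (.col (nat_lit 0))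
def w799 : Root := .mk (.node (.node (.col (nat_lit 2)) (.slot (nat_lit 7)) (.slot (nat_lit 5))) (.col (nat_lit 0)) (.slot (nat_lit 8))) (.node (.col (nat_lit 0)) (.slot (nat_lit 0)) (.slot (nat_lit 0))) (.col (nat_lit 2)) (.col (nat_lit 0))
def w800 : Root := .mk (.node (.node (.col (nat_lit 2)) (.slot (nat_lit 1)) (.slot (nat_lit 0))) (.col (nat_lit 0)) (.slot (nat_lit 1))) (.node (.col (nat_lit 0)) (.slot (nat_lit 2)) (.slot (nat_lit 2))) (.col (nat_lit 2)) (.node (.col (nat_lit 1)) (.slot (nat_lit 0)) (.slot (nat_lit 0)))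
def w801 : Root := .mk (.node (.node (.col (nat_lit 2)) (.slot (nat_lit 1)) (.slot (nat_lit 0))) (.col (nat_lit 0)) (.slot (nat_lit 1))) (.node (.col (nat_lit 0)) (.slot (nat_lit 2)) (.slot (nat_lit 2))) (.col (nat_lit 2)) (.node (.col (nat_lit 2)) (.slot (nat_lit 0)) (.slot (nat_lit 0)))
def w802 : Root := .mk (.node (.node (.col (nat_lit 2)) (.slot (nat_lit 1)) (.slot (nat_lit 1))) (.col (nat_lit 0)) (.col (nat_lit 1))) (.node (.col (nat_lit 0)) (.col (nat_lit 2)) (.slot (nat_lit 0))) (.col (nat_lit 2)) (.col (nat_lit 0))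
def l170 : Root := .mk (.node (.col (nat_lit 2)) (.slot (nat_lit 2)) (.slot (nat_lit 2))) (.col (nat_lit 0)) (.node (.node (.col (nat_lit 0)) (.col (nat_lit 2)) (.slot (nat_lit 1))) (.col (nat_lit 2)) (.slot (nat_lit 1))) (.col (nat_lit 1))
def w803 : Root := .mk (.node (.node (.node (.col (nat_lit 2)) (.slot (nat_lit 2)) (.slot (nat_lit 2))) (.col (nat_lit 0)) (.slot (nat_lit 1))) (.col (nat_lit 2)) (.slot (nat_lit 1))) (.col (nat_lit 0)) (.col (nat_lit 2)) (.slot (nat_lit 1))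
def l171 : Root := .mk (.node (.node (.col (nat_lit 2)) (.slot (nat_lit 7)) (.slot (nat_lit 5))) (.col (nat_lit 0)) (.slot (nat_lit 8))) (.node (.col (nat_lit 0)) (.slot (nat_lit 7)) (.slot (nat_lit 5))) (.col (nat_lit 2)) (.slot (nat_lit 8))
def w804 : Root := .mk (.node (.col (nat_lit 2)) (.slot (nat_lit 7)) (.slot (nat_lit 5))) (.col (nat_lit 0)) (.node (.node (.col (nat_lit 0)) (.slot (nat_lit 7)) (.slot (nat_lit 5))) (.slot (nat_lit 1)) (.slot (nat_lit 8))) (.slot (nat_lit 8))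
def w805 : Root := .mk (.col (nat_lit 1)) (.node (.col (nat_lit 0)) (.node (.slot (nat_lit 0)) (.col (nat_lit 1)) (.col (nat_lit 0))) (.node (.col (nat_lit 1)) (.col (nat_lit 2)) .junk)) (.col (nat_lit 0)) (.col (nat_lit 2))
def w806 : Root := .mk (.col (nat_lit 1)) (.node (.col (nat_lit 0)) (.node (.col (nat_lit 2)) (.col (nat_lit 1)) .junk) (.node (.col (nat_lit 1)) (.col (nat_lit 2)) (.slot (nat_lit 0)))) (.col (nat_lit 0)) (.col (nat_lit 2))
def w807 : Root := .mk (.node (.node (.col (nat_lit 1)) (.col (nat_lit 0)) (.col (nat_lit 2))) (.col (nat_lit 0)) (.node (.col (nat_lit 1)) (.col (nat_lit 2)) .junk)) (.col (nat_lit 3)) (.col (nat_lit 1)) (.col (nat_lit 0))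
def l172 : Root := .mk (.col (nat_lit 1)) (.node (.col (nat_lit 0)) (.node (.slot (nat_lit 0)) (.col (nat_lit 1)) (.col (nat_lit 0))) (.node (.col (nat_lit 1)) (.col (nat_lit 2)) (.slot (nat_lit 3)))) (.col (nat_lit 0)) (.col (nat_lit 2))
def w808 : Root := .mk (.col (nat_lit 1)) (.node (.col (nat_lit 0)) (.node (.slot (nat_lit 0)) (.col (nat_lit 1)) (.col (nat_lit 0))) (.node (.col (nat_lit 1)) (.slot (nat_lit 1)) (.slot (nat_lit 3)))) (.col (nat_lit 0)) (.col (nat_lit 2))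
def w809 : Root := .mk (.node (.col (nat_lit 1)) (.node (.col (nat_lit 0)) (.node (.slot (nat_lit 0)) (.col (nat_lit 1)) (.col (nat_lit 0))) (.node (.col (nat_lit 1)) (.slot (nat_lit 2)) (.slot (nat_lit 2)))) (.col (nat_lit 0))) (.col (nat_lit 0)) (.col (nat_lit 2)) (.col (nat_lit 1))
def w810 : Root := .mk (.node (.col (nat_lit 1)) (.node (.col (nat_lit 0)) (.node (.slot (nat_lit 0)) (.col (nat_lit 1)) (.col (nat_lit 0))) (.node (.col (nat_lit 1)) (.slot (nat_lit 1)) (.slot (nat_lit 1)))) (.col (nat_lit 0))) (.col (nat_lit 0)) (.col (nat_lit 2)) (.node (.col (nat_lit 0)) (.slot (nat_lit 0)) (.slot (nat_lit 0)))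
def w811 : Root := .mk (.node (.col (nat_lit 1)) (.node (.col (nat_lit 0)) (.node (.slot (nat_lit 0)) (.col (nat_lit 1)) (.col (nat_lit 0))) (.node (.col (nat_lit 1)) (.slot (nat_lit 1)) (.slot (nat_lit 1)))) (.col (nat_lit 0))) (.col (nat_lit 0)) (.col (nat_lit 2)) (.node (.col (nat_lit 2)) (.slot (nat_lit 0)) (.slot (nat_lit 0)))
def w812 : Root := .mk (.node (.col (nat_lit 1)) (.col (nat_lit 0)) (.node .junk (.col (nat_lit 2)) (.slot (nat_lit 1)))) (.col (nat_lit 0)) (.node (.node (.col (nat_lit 0)) (.slot (nat_lit 0)) (.slot (nat_lit 0))) (.col (nat_lit 1)) .junk) (.col (nat_lit 3))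
def w813 : Root := .mk (.col (nat_lit 1)) (.node (.col (nat_lit 0)) (.node (.node (.col (nat_lit 0)) (.slot (nat_lit 1)) (.slot (nat_lit 1))) (.col (nat_lit 1)) (.col (nat_lit 0))) (.node (.col (nat_lit 1)) (.col (nat_lit 0)) (.slot (nat_lit 2)))) (.col (nat_lit 0)) (.node .junk (.col (nat_lit 2)) (.slot (nat_lit 1)))
def w814 : Root := .mk (.col (nat_lit 1)) (.node (.col (nat_lit 0)) (.node (.node (.col (nat_lit 0)) (.slot (nat_lit 0)) (.slot (nat_lit 0))) (.col (nat_lit 1)) (.col (nat_lit 0))) (.node (.col (nat_lit 1)) (.col (nat_lit 2)) (.slot (nat_lit 1)))) (.col (nat_lit 0)) (.slot (nat_lit 0))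
def w815 : Root := .mk (.col (nat_lit 3)) (.col (nat_lit 0)) (.node (.slot (nat_lit 0)) (.col (nat_lit 1)) (.col (nat_lit 0))) (.node (.col (nat_lit 1)) (.node (.col (nat_lit 0)) (.slot (nat_lit 1)) (.slot (nat_lit 0))) (.slot (nat_lit 1)))
def w816 : Root := .mk (.col (nat_lit 1)) (.node (.col (nat_lit 0)) (.node (.slot (nat_lit 0)) (.col (nat_lit 1)) (.col (nat_lit 0))) (.node (.col (nat_lit 1)) (.node (.col (nat_lit 0)) (.slot (nat_lit 1)) (.slot (nat_lit 0))) (.slot (nat_lit 1)))) (.col (nat_lit 0)) (.node .junk (.col (nat_lit 2)) (.slot (nat_lit 1)))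
def w817 : Root := .mk (.col (nat_lit 3)) (.col (nat_lit 0)) (.node (.node (.col (nat_lit 0)) (.slot (nat_lit 0)) (.slot (nat_lit 0))) (.col (nat_lit 1)) (.col (nat_lit 0))) (.node (.col (nat_lit 1)) (.node (.col (nat_lit 1)) (.slot (nat_lit 0)) (.slot (nat_lit 0))) (.slot (nat_lit 1)))
def w818 : Root := .mk (.col (nat_lit 1)) (.node (.col (nat_lit 0)) (.node (.node (.col (nat_lit 0)) (.slot (nat_lit 0)) (.slot (nat_lit 0))) (.col (nat_lit 1)) (.col (nat_lit 0))) (.node (.col (nat_lit 1)) (.node (.col (nat_lit 1)) (.slot (nat_lit 0)) (.slot (nat_lit 0))) (.slot (nat_lit 1)))) (.col (nat_lit 0)) (.node .junk (.col (nat_lit 2)) (.slot (nat_lit 1)))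
def w819 : Root := .mk (.col (nat_lit 3)) (.col (nat_lit 0)) (.node (.slot (nat_lit 0)) (.col (nat_lit 1)) (.col (nat_lit 0))) (.node (.col (nat_lit 1)) (.node (.col (nat_lit 2)) (.slot (nat_lit 1)) (.slot (nat_lit 1))) (.slot (nat_lit 2)))
def w820 : Root := .mk (.col (nat_lit 1)) (.node (.col (nat_lit 0)) (.node (.slot (nat_lit 0)) (.col (nat_lit 1)) (.col (nat_lit 0))) (.node (.col (nat_lit 1)) (.node (.col (nat_lit 2)) (.slot (nat_lit 1)) (.slot (nat_lit 1))) (.slot (nat_lit 2)))) (.col (nat_lit 0)) (.node .junk (.col (nat_lit 2)) (.slot (nat_lit 1)))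
def w821 : Root := .mk (.col (nat_lit 1)) (.node (.col (nat_lit 0)) (.node (.slot (nat_lit 0)) (.col (nat_lit 1)) (.col (nat_lit 0))) (.node (.col (nat_lit 1)) (.node (.col (nat_lit 3)) (.slot (nat_lit 1)) (.slot (nat_lit 1))) (.slot (nat_lit 2)))) (.col (nat_lit 0)) (.node .junk (.col (nat_lit 2)) (.slot (nat_lit 1)))
def l173 : Root := .mk (.col (nat_lit 1)) (.node (.col (nat_lit 0)) (.node (.node (.col (nat_lit 0)) (.slot (nat_lit 1)) (.slot (nat_lit 1))) (.col (nat_lit 1)) (.col (nat_lit 0))) (.node (.col (nat_lit 1)) (.slot (nat_lit 3)) (.slot (nat_lit 2)))) (.col (nat_lit 0)) (.node (.col (nat_lit 0)) (.col (nat_lit 2)) (.slot (nat_lit 2)))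
def w822 : Root := .mk (.col (nat_lit 1)) (.node (.col (nat_lit 0)) (.node (.node (.col (nat_lit 0)) (.slot (nat_lit 1)) (.slot (nat_lit 1))) (.col (nat_lit 1)) (.col (nat_lit 0))) (.node (.col (nat_lit 1)) (.slot (nat_lit 3)) (.slot (nat_lit 2)))) (.col (nat_lit 0)) (.node (.col (nat_lit 0)) (.slot (nat_lit 1)) (.slot (nat_lit 2)))
def w823 : Root := .mk (.col (nat_lit 1)) (.node (.col (nat_lit 0)) (.node (.slot (nat_lit 0)) (.col (nat_lit 1)) (.col (nat_lit 0))) (.node (.col (nat_lit 1)) (.slot (nat_lit 1)) (.slot (nat_lit 1)))) (.col (nat_lit 0)) (.node (.col (nat_lit 1)) (.col (nat_lit 2)) (.slot (nat_lit 1)))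
def w824 : Root := .mk (.node (.col (nat_lit 1)) (.node (.col (nat_lit 0)) (.node (.slot (nat_lit 0)) (.col (nat_lit 1)) (.col (nat_lit 0))) (.node (.col (nat_lit 1)) (.slot (nat_lit 2)) (.slot (nat_lit 2)))) (.col (nat_lit 0))) (.col (nat_lit 1)) (.col (nat_lit 2)) (.node (.col (nat_lit 1)) (.slot (nat_lit 1)) (.slot (nat_lit 0)))
def w825 : Root := .mk (.node (.col (nat_lit 1)) (.node (.col (nat_lit 0)) (.node (.slot (nat_lit 0)) (.col (nat_lit 1)) (.col (nat_lit 0))) (.node (.col (nat_lit 1)) (.slot (nat_lit 1)) (.slot (nat_lit 1)))) (.col (nat_lit 0))) (.col (nat_lit 1)) (.col (nat_lit 2)) (.node (.col (nat_lit 2)) (.slot (nat_lit 1)) (.slot (nat_lit 1)))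
def l174 : Root := .mk (.col (nat_lit 1)) (.node (.col (nat_lit 0)) (.node (.node (.col (nat_lit 0)) (.slot (nat_lit 1)) (.slot (nat_lit 1))) (.col (nat_lit 1)) (.col (nat_lit 0))) (.node (.col (nat_lit 1)) (.slot (nat_lit 3)) (.slot (nat_lit 2)))) (.col (nat_lit 0)) (.node (.col (nat_lit 1)) (.col (nat_lit 2)) (.slot (nat_lit 2)))
def w826 : Root := .mk (.col (nat_lit 1)) (.node (.col (nat_lit 0)) (.node (.node (.col (nat_lit 0)) (.slot (nat_lit 1)) (.slot (nat_lit 1))) (.col (nat_lit 1)) (.col (nat_lit 0))) (.node (.col (nat_lit 1)) (.slot (nat_lit 3)) (.slot (nat_lit 2)))) (.col (nat_lit 0)) (.node (.col (nat_lit 1)) (.slot (nat_lit 1)) (.slot (nat_lit 2)))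
def w827 : Root := .mk (.node (.col (nat_lit 1)) (.col (nat_lit 0)) (.node (.slot (nat_lit 0)) (.col (nat_lit 2)) (.col (nat_lit 0)))) (.col (nat_lit 0)) (.col (nat_lit 2)) (.node (.col (nat_lit 1)) (.col (nat_lit 0)) (.slot (nat_lit 2)))
def l175 : Root := .mk (.node (.node (.col (nat_lit 1)) (.col (nat_lit 0)) (.node (.slot (nat_lit 0)) (.col (nat_lit 2)) (.col (nat_lit 0)))) (.col (nat_lit 0)) (.col (nat_lit 2))) (.col (nat_lit 1)) (.col (nat_lit 2)) (.node (.col (nat_lit 0)) (.slot (nat_lit 1)) (.slot (nat_lit 1)))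
def w828 : Root := .mk (.node (.col (nat_lit 1)) (.col (nat_lit 0)) (.node (.slot (nat_lit 0)) (.col (nat_lit 2)) (.col (nat_lit 0)))) (.col (nat_lit 0)) (.col (nat_lit 2)) (.node (.col (nat_lit 1)) (.col (nat_lit 2)) (.slot (nat_lit 2)))
def w829 : Root := .mk (.node (.col (nat_lit 1)) (.col (nat_lit 0)) (.node (.slot (nat_lit 0)) (.col (nat_lit 2)) (.col (nat_lit 0)))) (.col (nat_lit 0)) (.col (nat_lit 2)) (.node (.col (nat_lit 1)) (.node (.col (nat_lit 1)) (.slot (nat_lit 0)) (.slot (nat_lit 0))) (.slot (nat_lit 1)))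
def l176 : Root := .mk (.node (.col (nat_lit 1)) (.col (nat_lit 0)) (.node (.slot (nat_lit 0)) (.col (nat_lit 2)) (.col (nat_lit 0)))) (.col (nat_lit 0)) (.col (nat_lit 2)) (.node (.col (nat_lit 1)) (.slot (nat_lit 2)) (.slot (nat_lit 2)))
def w830 : Root := .mk (.col (nat_lit 1)) (.node (.col (nat_lit 0)) (.node (.slot (nat_lit 0)) (.col (nat_lit 1)) (.col (nat_lit 0))) (.node (.col (nat_lit 1)) (.slot (nat_lit 2)) (.slot (nat_lit 2)))) (.col (nat_lit 0)) (.node (.slot (nat_lit 0)) (.col (nat_lit 2)) (.col (nat_lit 0)))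
def w831 : Root := .mk (.node (.col (nat_lit 1)) (.col (nat_lit 0)) (.slot (nat_lit 0))) (.col (nat_lit 0)) (.col (nat_lit 2)) (.node (.col (nat_lit 1)) (.col (nat_lit 0)) (.slot (nat_lit 3)))
def l177 : Root := .mk (.node (.node (.col (nat_lit 1)) (.col (nat_lit 0)) (.node (.slot (nat_lit 0)) (.col (nat_lit 2)) (.col (nat_lit 1)))) (.col (nat_lit 0)) (.col (nat_lit 2))) (.col (nat_lit 1)) (.col (nat_lit 2)) (.node (.col (nat_lit 0)) (.slot (nat_lit 1)) (.slot (nat_lit 1)))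
def w832 : Root := .mk (.node (.col (nat_lit 1)) (.col (nat_lit 0)) (.node (.slot (nat_lit 0)) (.col (nat_lit 2)) (.col (nat_lit 1)))) (.col (nat_lit 0)) (.col (nat_lit 2)) (.node (.col (nat_lit 1)) (.col (nat_lit 2)) (.slot (nat_lit 2)))
def w833 : Root := .mk (.node (.col (nat_lit 1)) (.col (nat_lit 0)) (.node (.slot (nat_lit 0)) (.col (nat_lit 2)) (.col (nat_lit 1)))) (.col (nat_lit 0)) (.col (nat_lit 2)) (.node (.col (nat_lit 1)) (.node (.col (nat_lit 1)) (.slot (nat_lit 0)) (.slot (nat_lit 0))) (.slot (nat_lit 1)))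
def l178 : Root := .mk (.node (.col (nat_lit 1)) (.col (nat_lit 0)) (.node (.slot (nat_lit 0)) (.col (nat_lit 2)) (.col (nat_lit 1)))) (.col (nat_lit 0)) (.col (nat_lit 2)) (.node (.col (nat_lit 1)) (.slot (nat_lit 3)) (.slot (nat_lit 3)))
def w834 : Root := .mk (.col (nat_lit 1)) (.node (.col (nat_lit 0)) (.node (.slot (nat_lit 0)) (.col (nat_lit 1)) (.col (nat_lit 0))) (.node (.col (nat_lit 1)) (.slot (nat_lit 3)) (.slot (nat_lit 3)))) (.col (nat_lit 0)) (.node (.slot (nat_lit 0)) (.col (nat_lit 2)) (.col (nat_lit 1)))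
def w835 : Root := .mk (.col (nat_lit 1)) (.node (.col (nat_lit 0)) (.node (.node (.col (nat_lit 0)) (.slot (nat_lit 0)) (.slot (nat_lit 0))) (.col (nat_lit 1)) (.col (nat_lit 0))) (.node (.col (nat_lit 1)) (.slot (nat_lit 1)) (.slot (nat_lit 1)))) (.col (nat_lit 0)) (.node .junk (.col (nat_lit 2)) (.node (.col (nat_lit 0)) (.slot (nat_lit 0)) (.slot (nat_lit 0))))
def w836 : Root := .mk (.col (nat_lit 1)) (.node (.col (nat_lit 0)) (.node (.node (.col (nat_lit 0)) (.slot (nat_lit 0)) (.slot (nat_lit 0))) (.col (nat_lit 1)) (.col (nat_lit 0))) (.node (.col (nat_lit 1)) (.slot (nat_lit 1)) (.slot (nat_lit 1)))) (.col (nat_lit 0)) (.node .junk (.col (nat_lit 2)) (.node (.col (nat_lit 1)) (.slot (nat_lit 0)) (.slot (nat_lit 0))))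
def w837 : Root := .mk (.col (nat_lit 1)) (.node (.col (nat_lit 0)) (.node (.node (.col (nat_lit 0)) (.slot (nat_lit 0)) (.slot (nat_lit 0))) (.col (nat_lit 1)) (.col (nat_lit 0))) (.node (.col (nat_lit 1)) (.slot (nat_lit 1)) (.slot (nat_lit 1)))) (.col (nat_lit 0)) (.node .junk (.col (nat_lit 2)) (.node (.col (nat_lit 2)) (.slot (nat_lit 0)) (.slot (nat_lit 0))))
def w838 : Root := .mk (.col (nat_lit 1)) (.node (.col (nat_lit 0)) (.node (.node (.col (nat_lit 0)) (.slot (nat_lit 0)) (.slot (nat_lit 0))) (.col (nat_lit 1)) (.col (nat_lit 0))) (.node (.col (nat_lit 1)) (.slot (nat_lit 1)) (.slot (nat_lit 1)))) (.col (nat_lit 0)) (.node .junk (.col (nat_lit 2)) (.node (.col (nat_lit 3)) (.slot (nat_lit 0)) (.slot (nat_lit 0))))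
def l179 : Root := .mk (.col (nat_lit 1)) (.node (.col (nat_lit 0)) (.node (.node (.col (nat_lit 0)) (.slot (nat_lit 1)) (.slot (nat_lit 1))) (.col (nat_lit 1)) (.col (nat_lit 0))) (.node (.col (nat_lit 1)) (.slot (nat_lit 3)) (.slot (nat_lit 3)))) (.col (nat_lit 0)) (.node (.slot (nat_lit 0)) (.col (nat_lit 2)) (.slot (nat_lit 1)))
def w839 : Root := .mk (.col (nat_lit 1)) (.node (.col (nat_lit 0)) (.node (.node (.col (nat_lit 0)) (.slot (nat_lit 1)) (.slot (nat_lit 1))) (.col (nat_lit 1)) (.col (nat_lit 0))) (.node (.col (nat_lit 1)) (.slot (nat_lit 3)) (.slot (nat_lit 3)))) (.col (nat_lit 0)) (.node (.slot (nat_lit 0)) (.slot (nat_lit 1)) (.slot (nat_lit 1)))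
def w840 : Root := .mk (.node (.node (.col (nat_lit 1)) (.col (nat_lit 0)) (.slot (nat_lit 0))) (.col (nat_lit 0)) (.node (.slot (nat_lit 0)) (.col (nat_lit 1)) (.col (nat_lit 0)))) (.col (nat_lit 1)) (.node (.col (nat_lit 0)) (.slot (nat_lit 1)) (.slot (nat_lit 0))) (.col (nat_lit 2))
def l180 : Root := .mk (.node (.col (nat_lit 1)) (.col (nat_lit 0)) (.slot (nat_lit 1))) (.col (nat_lit 0)) (.col (nat_lit 3)) (.node (.col (nat_lit 1)) (.node (.col (nat_lit 0)) (.col (nat_lit 1)) (.slot (nat_lit 0))) (.col (nat_lit 2)))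
def w841 : Root := .mk (.node (.node (.col (nat_lit 1)) (.col (nat_lit 0)) (.slot (nat_lit 1))) (.col (nat_lit 0)) (.node (.slot (nat_lit 0)) (.col (nat_lit 1)) (.col (nat_lit 0)))) (.col (nat_lit 1)) (.node (.col (nat_lit 0)) (.col (nat_lit 1)) (.slot (nat_lit 0))) (.col (nat_lit 2))
def l181 : Root := .mk (.node (.col (nat_lit 1)) (.col (nat_lit 0)) (.slot (nat_lit 1))) (.col (nat_lit 0)) (.col (nat_lit 3)) (.node (.col (nat_lit 1)) (.node (.col (nat_lit 0)) (.col (nat_lit 2)) (.slot (nat_lit 0))) (.col (nat_lit 2)))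
def w842 : Root := .mk (.node (.node (.col (nat_lit 1)) (.col (nat_lit 0)) (.slot (nat_lit 1))) (.col (nat_lit 0)) (.node (.slot (nat_lit 0)) (.col (nat_lit 1)) (.col (nat_lit 0)))) (.col (nat_lit 1)) (.node (.col (nat_lit 0)) (.col (nat_lit 2)) (.slot (nat_lit 0))) (.col (nat_lit 2))
def l182 : Root := .mk (.node (.node (.col (nat_lit 1)) (.col (nat_lit 0)) (.slot (nat_lit 1))) (.col (nat_lit 0)) (.node (.node (.col (nat_lit 0)) (.slot (nat_lit 0)) (.slot (nat_lit 0))) (.col (nat_lit 1)) (.col (nat_lit 0)))) (.col (nat_lit 1)) (.node (.col (nat_lit 0)) (.slot (nat_lit 1)) (.slot (nat_lit 1))) (.col (nat_lit 2))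
def w843 : Root := .mk (.node (.node (.col (nat_lit 1)) (.col (nat_lit 0)) (.slot (nat_lit 1))) (.col (nat_lit 0)) (.node (.col (nat_lit 1)) (.node (.col (nat_lit 0)) (.slot (nat_lit 1)) (.slot (nat_lit 1))) (.slot (nat_lit 1)))) (.node (.col (nat_lit 0)) (.slot (nat_lit 0)) (.slot (nat_lit 0))) (.col (nat_lit 1)) (.col (nat_lit 0))
def w844 : Root := .mk (.col (nat_lit 1)) (.node (.col (nat_lit 0)) (.node (.slot (nat_lit 0)) (.col (nat_lit 1)) (.col (nat_lit 0))) (.node (.col (nat_lit 1)) (.node (.col (nat_lit 1)) (.slot (nat_lit 0)) (.slot (nat_lit 0))) (.slot (nat_lit 3)))) (.col (nat_lit 0)) (.col (nat_lit 3))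
def w845 : Root := .mk (.node (.node (.col (nat_lit 1)) (.col (nat_lit 0)) (.node (.col (nat_lit 2)) (.slot (nat_lit 2)) (.slot (nat_lit 2)))) (.col (nat_lit 0)) (.node (.slot (nat_lit 0)) (.col (nat_lit 1)) (.col (nat_lit 0)))) (.col (nat_lit 1)) (.slot (nat_lit 0)) (.col (nat_lit 0))
def w846 : Root := .mk (.node (.node (.col (nat_lit 1)) (.col (nat_lit 0)) (.node (.col (nat_lit 2)) (.slot (nat_lit 3)) (.slot (nat_lit 3)))) (.col (nat_lit 0)) (.node (.slot (nat_lit 0)) (.col (nat_lit 1)) (.col (nat_lit 0)))) (.col (nat_lit 1)) (.slot (nat_lit 0)) (.col (nat_lit 2))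
def w847 : Root := .mk (.col (nat_lit 1)) (.node (.col (nat_lit 0)) (.node (.slot (nat_lit 0)) (.col (nat_lit 1)) (.col (nat_lit 0))) (.node (.col (nat_lit 1)) .junk (.col (nat_lit 3)))) (.col (nat_lit 0)) (.node (.col (nat_lit 2)) (.slot (nat_lit 1)) (.slot (nat_lit 0)))
def w848 : Root := .mk (.col (nat_lit 1)) (.node (.col (nat_lit 0)) (.node (.slot (nat_lit 0)) (.col (nat_lit 1)) (.col (nat_lit 0))) (.node (.col (nat_lit 1)) (.slot (nat_lit 0)) (.slot (nat_lit 0)))) (.col (nat_lit 0)) (.node (.col (nat_lit 2)) (.slot (nat_lit 2)) (.slot (nat_lit 2)))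
def l183 : Root := .mk (.col (nat_lit 1)) (.node (.col (nat_lit 0)) (.node (.node (.col (nat_lit 0)) (.slot (nat_lit 1)) (.slot (nat_lit 1))) (.col (nat_lit 1)) (.col (nat_lit 0))) (.node (.col (nat_lit 1)) (.node (.col (nat_lit 1)) (.slot (nat_lit 0)) (.slot (nat_lit 0))) (.slot (nat_lit 3)))) (.col (nat_lit 0)) (.node (.col (nat_lit 2)) (.slot (nat_lit 3)) (.slot (nat_lit 3)))
def w849 : Root := .mk (.node (.node (.col (nat_lit 1)) (.col (nat_lit 0)) (.slot (nat_lit 4))) (.col (nat_lit 0)) (.node (.col (nat_lit 1)) (.node (.col (nat_lit 1)) (.slot (nat_lit 0)) (.slot (nat_lit 0))) (.slot (nat_lit 3)))) (.node (.col (nat_lit 0)) (.slot (nat_lit 1)) (.slot (nat_lit 1))) (.col (nat_lit 1)) (.col (nat_lit 0))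
def w850 : Root := .mk (.node (.node (.col (nat_lit 1)) (.col (nat_lit 0)) (.slot (nat_lit 3))) (.col (nat_lit 0)) (.node (.col (nat_lit 1)) (.node (.col (nat_lit 2)) (.slot (nat_lit 1)) (.slot (nat_lit 0))) (.slot (nat_lit 2)))) (.slot (nat_lit 0)) (.col (nat_lit 1)) (.col (nat_lit 0))
def l184 : Root := .mk (.node (.node (.col (nat_lit 1)) (.col (nat_lit 0)) (.slot (nat_lit 0))) (.col (nat_lit 0)) (.slot (nat_lit 0))) (.col (nat_lit 1)) (.node (.col (nat_lit 0)) (.col (nat_lit 2)) (.slot (nat_lit 1))) (.col (nat_lit 3))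
def w851 : Root := .mk (.node (.node (.node (.col (nat_lit 1)) (.col (nat_lit 0)) (.slot (nat_lit 0))) (.col (nat_lit 0)) (.slot (nat_lit 0))) (.col (nat_lit 1)) (.slot (nat_lit 1))) (.col (nat_lit 0)) (.col (nat_lit 2)) (.slot (nat_lit 1))
def w852 : Root := .mk (.col (nat_lit 1)) (.node (.col (nat_lit 0)) (.col (nat_lit 2)) (.node (.col (nat_lit 1)) (.node (.col (nat_lit 1)) (.col (nat_lit 2)) (.slot (nat_lit 1))) (.slot (nat_lit 1)))) (.col (nat_lit 0)) (.slot (nat_lit 0))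
def w853 : Root := .mk (.node (.col (nat_lit 1)) (.col (nat_lit 0)) (.slot (nat_lit 0))) (.col (nat_lit 0)) (.col (nat_lit 2)) (.node (.col (nat_lit 1)) (.node (.col (nat_lit 1)) (.col (nat_lit 2)) (.slot (nat_lit 0))) (.node (.col (nat_lit 0)) (.slot (nat_lit 1)) (.slot (nat_lit 0))))
def w854 : Root := .mk (.node (.col (nat_lit 1)) (.col (nat_lit 0)) (.slot (nat_lit 0))) (.col (nat_lit 0)) (.col (nat_lit 2)) (.node (.col (nat_lit 1)) (.node (.col (nat_lit 1)) (.col (nat_lit 2)) (.slot (nat_lit 1))) (.node (.col (nat_lit 3)) (.slot (nat_lit 0)) (.slot (nat_lit 0))))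
def l185 : Root := .mk (.node (.col (nat_lit 1)) (.col (nat_lit 0)) (.slot (nat_lit 2))) (.col (nat_lit 0)) (.col (nat_lit 2)) (.node (.col (nat_lit 1)) (.node (.col (nat_lit 1)) (.col (nat_lit 2)) (.slot (nat_lit 1))) (.slot (nat_lit 2)))
def w855 : Root := .mk (.node (.node (.col (nat_lit 1)) (.col (nat_lit 0)) (.slot (nat_lit 2))) (.col (nat_lit 0)) (.node (.col (nat_lit 1)) (.node (.col (nat_lit 1)) (.col (nat_lit 2)) (.slot (nat_lit 1))) (.slot (nat_lit 2)))) (.slot (nat_lit 0)) (.col (nat_lit 1)) (.col (nat_lit 0))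
def l187 : Root := .mk (.node (.col (nat_lit 1)) (.col (nat_lit 0)) (.slot (nat_lit 2))) (.col (nat_lit 0)) (.col (nat_lit 2)) (.node (.col (nat_lit 1)) (.node (.slot (nat_lit 0)) (.col (nat_lit 2)) (.col (nat_lit 0))) (.slot (nat_lit 1)))
def w857 : Root := .mk (.node (.node (.col (nat_lit 1)) (.col (nat_lit 0)) (.slot (nat_lit 2))) (.col (nat_lit 0)) (.node (.col (nat_lit 1)) (.node (.slot (nat_lit 0)) (.col (nat_lit 2)) (.col (nat_lit 0))) (.slot (nat_lit 1)))) (.slot (nat_lit 0)) (.col (nat_lit 1)) (.col (nat_lit 0))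
def w858 : Root := .mk (.node (.node (.col (nat_lit 1)) (.col (nat_lit 0)) (.slot (nat_lit 2))) (.col (nat_lit 0)) (.node (.col (nat_lit 1)) (.slot (nat_lit 0)) (.slot (nat_lit 1)))) (.node .junk (.col (nat_lit 2)) (.slot (nat_lit 1))) (.col (nat_lit 1)) (.col (nat_lit 0))
def w859 : Root := .mk (.node (.node (.col (nat_lit 1)) (.col (nat_lit 0)) (.slot (nat_lit 0))) (.col (nat_lit 0)) (.node (.col (nat_lit 1)) (.node (.slot (nat_lit 0)) (.col (nat_lit 2)) (.col (nat_lit 1))) (.slot (nat_lit 3)))) (.col (nat_lit 3)) (.col (nat_lit 1)) (.col (nat_lit 0))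
def w860 : Root := .mk (.col (nat_lit 1)) (.node (.col (nat_lit 0)) (.col (nat_lit 2)) (.node (.col (nat_lit 1)) (.node (.slot (nat_lit 0)) (.col (nat_lit 2)) (.col (nat_lit 1))) (.node (.col (nat_lit 2)) (.slot (nat_lit 1)) (.slot (nat_lit 0))))) (.col (nat_lit 0)) (.slot (nat_lit 0))
def w861 : Root := .mk (.node (.node .junk (.col (nat_lit 0)) (.col (nat_lit 2))) (.col (nat_lit 1)) (.node (.slot (nat_lit 0)) (.col (nat_lit 2)) (.col (nat_lit 1)))) (.col (nat_lit 2)) (.col (nat_lit 0)) (.slot (nat_lit 0))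
def w862 : Root := .mk (.node (.col (nat_lit 1)) (.col (nat_lit 0)) (.slot (nat_lit 0))) (.col (nat_lit 0)) (.col (nat_lit 2)) (.node (.col (nat_lit 1)) (.node (.slot (nat_lit 0)) (.col (nat_lit 2)) (.col (nat_lit 1))) (.node (.col (nat_lit 2)) (.col (nat_lit 3)) (.slot (nat_lit 1))))
def l188 : Root := .mk (.node (.col (nat_lit 1)) (.col (nat_lit 0)) (.slot (nat_lit 3))) (.col (nat_lit 0)) (.col (nat_lit 2)) (.node (.col (nat_lit 1)) (.node (.slot (nat_lit 0)) (.col (nat_lit 2)) (.col (nat_lit 1))) (.node (.col (nat_lit 2)) (.slot (nat_lit 1)) (.slot (nat_lit 1))))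
def w864 : Root := .mk (.node (.node (.col (nat_lit 1)) (.col (nat_lit 0)) (.slot (nat_lit 0))) (.col (nat_lit 0)) (.slot (nat_lit 0))) (.col (nat_lit 1)) (.col (nat_lit 3)) (.node (.col (nat_lit 2)) (.slot (nat_lit 1)) (.slot (nat_lit 1)))
def w865 : Root := .mk (.col (nat_lit 2)) (.col (nat_lit 0)) (.node (.node (.col (nat_lit 0)) (.slot (nat_lit 0)) (.slot (nat_lit 0))) (.col (nat_lit 1)) (.col (nat_lit 0))) (.node (.col (nat_lit 1)) (.node (.slot (nat_lit 0)) (.col (nat_lit 2)) (.col (nat_lit 1))) (.slot (nat_lit 1)))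
def w866 : Root := .mk (.col (nat_lit 3)) (.col (nat_lit 0)) (.node (.node (.col (nat_lit 0)) (.slot (nat_lit 0)) (.slot (nat_lit 0))) (.col (nat_lit 1)) (.col (nat_lit 0))) (.node (.col (nat_lit 1)) (.node (.slot (nat_lit 0)) (.col (nat_lit 2)) (.col (nat_lit 1))) (.slot (nat_lit 1)))
def w870 : Root := .mk (.col (nat_lit 1)) (.node (.col (nat_lit 0)) (.col (nat_lit 2)) (.node (.col (nat_lit 1)) (.node (.slot (nat_lit 0)) (.col (nat_lit 2)) (.slot (nat_lit 0))) (.node (.col (nat_lit 2)) (.slot (nat_lit 1)) (.slot (nat_lit 0))))) (.col (nat_lit 0)) (.slot (nat_lit 0))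
def w871 : Root := .mk (.node (.slot (nat_lit 0)) (.col (nat_lit 1)) (.node (.col (nat_lit 2)) (.slot (nat_lit 0)) (.slot (nat_lit 0)))) (.col (nat_lit 3)) (.col (nat_lit 2)) (.node (.col (nat_lit 0)) (.slot (nat_lit 1)) (.slot (nat_lit 1)))
def w872 : Root := .mk (.node (.col (nat_lit 1)) (.col (nat_lit 0)) (.slot (nat_lit 0))) (.col (nat_lit 0)) (.col (nat_lit 2)) (.node (.col (nat_lit 1)) (.node (.slot (nat_lit 0)) (.col (nat_lit 2)) (.col (nat_lit 3))) (.node (.col (nat_lit 2)) (.slot (nat_lit 1)) (.slot (nat_lit 0))))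
def w873 : Root := .mk (.node (.col (nat_lit 1)) (.col (nat_lit 0)) (.slot (nat_lit 0))) (.col (nat_lit 0)) (.col (nat_lit 2)) (.node (.col (nat_lit 1)) (.node (.slot (nat_lit 0)) (.col (nat_lit 2)) (.slot (nat_lit 0))) (.node (.col (nat_lit 2)) (.col (nat_lit 1)) (.slot (nat_lit 1))))
def w874 : Root := .mk (.slot (nat_lit 0)) (.col (nat_lit 0)) (.col (nat_lit 2)) (.node (.col (nat_lit 1)) (.node (.slot (nat_lit 0)) (.col (nat_lit 2)) (.node (.col (nat_lit 0)) (.slot (nat_lit 0)) (.slot (nat_lit 0)))) (.node (.col (nat_lit 2)) (.col (nat_lit 3)) (.slot (nat_lit 1))))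
def w876 : Root := .mk (.col (nat_lit 2)) (.col (nat_lit 0)) (.node (.node (.col (nat_lit 0)) (.slot (nat_lit 0)) (.slot (nat_lit 0))) (.col (nat_lit 1)) .junk) (.node (.col (nat_lit 1)) (.node .junk (.col (nat_lit 2)) (.node (.col (nat_lit 0)) (.slot (nat_lit 0)) (.slot (nat_lit 0)))) (.col (nat_lit 0)))
def w877 : Root := .mk (.col (nat_lit 1)) (.node (.col (nat_lit 0)) (.node (.slot (nat_lit 0)) (.col (nat_lit 1)) (.col (nat_lit 0))) (.node (.col (nat_lit 1)) (.node (.slot (nat_lit 0)) (.col (nat_lit 2)) (.slot (nat_lit 0))) (.slot (nat_lit 3)))) (.col (nat_lit 0)) (.col (nat_lit 3))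
def w878 : Root := .mk (.col (nat_lit 3)) (.col (nat_lit 0)) (.node (.node (.col (nat_lit 0)) (.slot (nat_lit 0)) (.slot (nat_lit 0))) (.col (nat_lit 1)) (.col (nat_lit 0))) (.node (.col (nat_lit 1)) (.node (.slot (nat_lit 0)) (.col (nat_lit 2)) (.slot (nat_lit 0))) (.slot (nat_lit 1)))
def w879 : Root := .mk (.col (nat_lit 1)) (.node (.col (nat_lit 0)) (.node (.node (.col (nat_lit 0)) (.slot (nat_lit 0)) (.slot (nat_lit 0))) (.col (nat_lit 1)) (.col (nat_lit 0))) (.node (.col (nat_lit 1)) (.node (.slot (nat_lit 0)) (.col (nat_lit 2)) (.slot (nat_lit 0))) (.slot (nat_lit 1)))) (.col (nat_lit 0)) (.node (.col (nat_lit 2)) .junk (.slot (nat_lit 1)))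
def w884 : Root := .mk (.node (.col (nat_lit 1)) (.col (nat_lit 0)) (.slot (nat_lit 0))) (.col (nat_lit 0)) (.col (nat_lit 2)) (.node (.col (nat_lit 1)) (.node (.slot (nat_lit 0)) (.col (nat_lit 2)) (.slot (nat_lit 1))) (.node (.col (nat_lit 1)) (.col (nat_lit 3)) (.slot (nat_lit 0))))
def l192 : Root := .mk (.node (.col (nat_lit 1)) (.col (nat_lit 0)) (.slot (nat_lit 3))) (.col (nat_lit 0)) (.col (nat_lit 2)) (.node (.col (nat_lit 1)) (.node (.slot (nat_lit 0)) (.col (nat_lit 2)) (.slot (nat_lit 1))) (.node (.col (nat_lit 1)) (.slot (nat_lit 1)) (.slot (nat_lit 1))))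
def l193 : Root := .mk (.node (.col (nat_lit 1)) (.col (nat_lit 0)) (.slot (nat_lit 1))) (.col (nat_lit 0)) (.col (nat_lit 2)) (.node (.col (nat_lit 1)) (.node (.slot (nat_lit 0)) (.col (nat_lit 2)) (.slot (nat_lit 1))) (.node (.col (nat_lit 2)) (.slot (nat_lit 1)) (.slot (nat_lit 1))))
def w887 : Root := .mk (.node (.node (.col (nat_lit 1)) (.col (nat_lit 0)) (.slot (nat_lit 2))) (.col (nat_lit 0)) (.node (.col (nat_lit 1)) (.node (.slot (nat_lit 0)) (.col (nat_lit 2)) (.slot (nat_lit 1))) (.node (.col (nat_lit 3)) (.slot (nat_lit 1)) (.slot (nat_lit 1))))) (.node (.col (nat_lit 0)) (.slot (nat_lit 1)) (.slot (nat_lit 1))) (.col (nat_lit 1)) (.col (nat_lit 0))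
def w888 : Root := .mk (.node (.col (nat_lit 1)) (.col (nat_lit 0)) (.slot (nat_lit 0))) (.col (nat_lit 0)) (.col (nat_lit 2)) (.node (.col (nat_lit 1)) (.node (.slot (nat_lit 0)) (.col (nat_lit 2)) (.slot (nat_lit 1))) (.node (.col (nat_lit 3)) (.slot (nat_lit 0)) (.slot (nat_lit 0))))
def l194 : Root := .mk (.node (.col (nat_lit 1)) (.col (nat_lit 0)) (.slot (nat_lit 3))) (.col (nat_lit 0)) (.col (nat_lit 2)) (.node (.col (nat_lit 1)) (.node (.slot (nat_lit 0)) (.col (nat_lit 2)) (.slot (nat_lit 1))) (.node (.slot (nat_lit 0)) (.slot (nat_lit 1)) (.slot (nat_lit 1))))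
def w889 : Root := .mk (.node (.node (.col (nat_lit 1)) (.col (nat_lit 0)) (.slot (nat_lit 3))) (.col (nat_lit 0)) (.node (.col (nat_lit 1)) (.node (.slot (nat_lit 0)) (.col (nat_lit 2)) (.slot (nat_lit 1))) (.node (.slot (nat_lit 0)) (.slot (nat_lit 1)) (.slot (nat_lit 1))))) (.slot (nat_lit 0)) (.col (nat_lit 1)) (.col (nat_lit 0))
def w890 : Root := .mk (.col (nat_lit 1)) (.node (.col (nat_lit 0)) (.node (.col (nat_lit 3)) (.col (nat_lit 1)) .junk) (.node (.col (nat_lit 1)) (.node (.slot (nat_lit 0)) (.col (nat_lit 2)) (.col (nat_lit 0))) (.slot (nat_lit 1)))) (.col (nat_lit 0)) (.col (nat_lit 2))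
def w891 : Root := .mk (.node (.slot (nat_lit 0)) (.col (nat_lit 0)) (.node (.col (nat_lit 1)) (.col (nat_lit 4)) (.node (.col (nat_lit 0)) (.slot (nat_lit 1)) (.slot (nat_lit 1))))) (.col (nat_lit 3)) (.col (nat_lit 1)) (.col (nat_lit 0))
def w892 : Root := .mk (.col (nat_lit 1)) (.node (.col (nat_lit 0)) (.node (.col (nat_lit 3)) (.col (nat_lit 1)) (.col (nat_lit 0))) (.node (.col (nat_lit 1)) (.col (nat_lit 4)) (.node (.col (nat_lit 0)) (.col (nat_lit 1)) (.slot (nat_lit 1))))) (.col (nat_lit 0)) (.col (nat_lit 2))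
def w893 : Root := .mk (.col (nat_lit 1)) (.node (.col (nat_lit 0)) (.node (.col (nat_lit 3)) (.col (nat_lit 1)) .junk) (.node (.col (nat_lit 1)) (.col (nat_lit 4)) (.node (.col (nat_lit 0)) .junk (.slot (nat_lit 1))))) (.col (nat_lit 0)) (.col (nat_lit 2))
def l195 : Root := .mk (.col (nat_lit 1)) (.node (.col (nat_lit 0)) (.node (.col (nat_lit 3)) (.col (nat_lit 1)) (.col (nat_lit 0))) (.node (.col (nat_lit 1)) (.col (nat_lit 4)) (.node (.col (nat_lit 0)) (.slot (nat_lit 1)) (.slot (nat_lit 1))))) (.col (nat_lit 0)) (.col (nat_lit 2))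
def w895 : Root := .mk (.node (.node (.node (.col (nat_lit 1)) (.col (nat_lit 0)) (.col (nat_lit 2))) (.col (nat_lit 0)) (.node (.col (nat_lit 3)) (.col (nat_lit 1)) .junk)) (.col (nat_lit 1)) (.slot (nat_lit 1))) (.col (nat_lit 1)) (.col (nat_lit 2)) (.col (nat_lit 0))
def w896 : Root := .mk (.node (.node (.col (nat_lit 1)) .junk (.col (nat_lit 2))) (.col (nat_lit 0)) (.node (.col (nat_lit 1)) (.node (.slot (nat_lit 0)) (.col (nat_lit 2)) (.slot (nat_lit 1))) (.node (.col (nat_lit 2)) (.slot (nat_lit 1)) (.slot (nat_lit 1))))) (.col (nat_lit 3)) (.col (nat_lit 1)) (.col (nat_lit 0))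
def w897 : Root := .mk (.col (nat_lit 1)) (.node (.col (nat_lit 0)) (.node (.col (nat_lit 3)) (.col (nat_lit 1)) .junk) (.node (.col (nat_lit 1)) (.col (nat_lit 0)) (.node (.col (nat_lit 2)) (.slot (nat_lit 1)) (.slot (nat_lit 0))))) (.col (nat_lit 0)) (.col (nat_lit 2))
def w898 : Root := .mk (.node (.slot (nat_lit 0)) (.col (nat_lit 0)) (.node (.col (nat_lit 1)) (.col (nat_lit 4)) (.node (.col (nat_lit 2)) (.slot (nat_lit 1)) (.slot (nat_lit 1))))) (.col (nat_lit 3)) (.col (nat_lit 1)) (.col (nat_lit 0))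
def w899 : Root := .mk (.col (nat_lit 1)) (.node (.col (nat_lit 0)) (.node (.col (nat_lit 3)) (.col (nat_lit 1)) .junk) (.node (.col (nat_lit 1)) (.node (.slot (nat_lit 0)) (.col (nat_lit 2)) (.slot (nat_lit 1))) (.col (nat_lit 4)))) (.col (nat_lit 0)) (.col (nat_lit 2))
def l196 : Root := .mk (.col (nat_lit 3)) (.col (nat_lit 0)) (.col (nat_lit 2)) (.node (.col (nat_lit 1)) (.node (.slot (nat_lit 0)) (.col (nat_lit 2)) (.slot (nat_lit 1))) (.node (.col (nat_lit 2)) (.slot (nat_lit 1)) (.slot (nat_lit 1))))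
def w901 : Root := .mk (.node (.node (.slot (nat_lit 0)) (.col (nat_lit 0)) (.slot (nat_lit 0))) (.col (nat_lit 1)) (.node (.col (nat_lit 2)) (.slot (nat_lit 7)) (.slot (nat_lit 5)))) (.col (nat_lit 1)) (.col (nat_lit 2)) (.slot (nat_lit 2))
def w903 : Root := .mk (.col (nat_lit 1)) (.node (.col (nat_lit 0)) (.node (.col (nat_lit 2)) (.col (nat_lit 1)) .junk) (.node (.col (nat_lit 1)) (.slot (nat_lit 0)) (.slot (nat_lit 0)))) (.col (nat_lit 0)) (.col (nat_lit 2))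
def w904 : Root := .mk (.node (.node (.col (nat_lit 1)) .junk (.col (nat_lit 2))) (.col (nat_lit 0)) (.node (.col (nat_lit 1)) (.slot (nat_lit 0)) (.slot (nat_lit 0)))) (.node .junk (.col (nat_lit 3)) (.slot (nat_lit 1))) (.col (nat_lit 1)) (.col (nat_lit 0))
def l197 : Root := .mk (.node (.node (.node (.col (nat_lit 1)) (.col (nat_lit 0)) (.node (.col (nat_lit 2)) (.slot (nat_lit 3)) (.slot (nat_lit 3)))) (.col (nat_lit 0)) (.node (.col (nat_lit 1)) (.node (.slot (nat_lit 0)) (.slot (nat_lit 0)) (.slot (nat_lit 0))) (.slot (nat_lit 3)))) (.col (nat_lit 1)) (.col (nat_lit 0))) (.col (nat_lit 0)) (.col (nat_lit 2)) (.col (nat_lit 1))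
def w906 : Root := .mk (.node (.node (.node (.col (nat_lit 1)) (.col (nat_lit 0)) (.slot (nat_lit 4))) (.col (nat_lit 0)) (.node (.col (nat_lit 1)) (.node (.slot (nat_lit 0)) (.slot (nat_lit 0)) (.slot (nat_lit 0))) (.slot (nat_lit 3)))) (.col (nat_lit 1)) (.col (nat_lit 0))) (.col (nat_lit 0)) (.col (nat_lit 2)) (.col (nat_lit 1))
def w907 : Root := .mk (.node (.node (.col (nat_lit 1)) (.col (nat_lit 0)) (.slot (nat_lit 2))) (.col (nat_lit 0)) (.node (.node .junk (.col (nat_lit 2)) (.slot (nat_lit 1))) (.col (nat_lit 1)) (.col (nat_lit 0)))) (.col (nat_lit 1)) (.node (.slot (nat_lit 0)) (.slot (nat_lit 0)) (.slot (nat_lit 0))) (.col (nat_lit 0))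

end Pool.Agent.W319.GCI.K5
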