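import Pool.Agent.W319.GCI.Sem

set_option autoImplicit false

namespace Pool.Agent.W319.GCI

section
variable {K : ℕ} (D : ℕ)

/-- two different edges sharing an endpoint -/
def Adj (e f : Wd) : Prop := ∃ x l m, Rd x ∧ l ≠ m ∧ e = eid x l ∧ f = eid x m

def Legal (γ : Stt K) (e : Wd) (a : Fin K) : Prop :=
  VE D e ∧ γ e = none ∧ ∀ f, VE D f → Adj e f → γ f ≠ some a

/-- a family of positions closed under the rules from Alice's point of view;
`true`: Alice is to move -/
structure Good (T : Bool → Stt K → Prop) : Prop where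
  done : ∀ b γ, T b γ → (∀ e a, ¬ Legal D γ e a) → ∀ e, VE D e → γ e ≠ none
  alice : ∀ γ, T true γ → (∃ e a, Legal D γ e a) →
    ∃ e a, Legal D γ e a ∧ T false (Function.update γ e (some a))
  bob : ∀ γ, T false γ → ∀ e a, Legal D γ e a → T true (Function.update γ e (some a))

variable {D}

theorem VE_finite : {w : Wd | VE D w}.Finite :=
  (List.finite_length_le (Fin 4) D).subset (fun _ hw => hw.2.2)

/-- a dead edge refutes -/
theorem dead_false {T : Bool → Stt K → Prop} (hT : Good D T) {b : Bool} {γ : Stt K} (h : T b γ) {e : Wd}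
    (he : VE D e) (hn : γ e = none) (hd : ∀ a : Fin K, ∃ f, VE D f ∧ Adj e f ∧ γ f = some a) : False := by
  obtain ⟨n, hn'⟩ : ∃ n, n = {w : Wd | VE D w ∧ γ w = none}.ncard := ⟨_, rfl⟩
  induction n using Nat.strong_induction_on generalizing b γ with
  | _ n ih =>
    by_cases hl : ∃ e' a, Legal D γ e' a
    · obtain ⟨e', a, hle, b', hT'⟩ : ∃ e' a, Legal D γ e' a ∧ ∃ b', T b' (Function.update γ e' (some a)) := by
        cases b with
        | true =>
          obtain ⟨e', a, h1, h2⟩ := hT.alice γ h hl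
          exact ⟨e', a, h1, false, h2⟩
        | false =>
          obtain ⟨e', a, h1⟩ := hl
          exact ⟨e', a, h1, true, hT.bob γ h e' a h1⟩
      have hne : e ≠ e' := by
        rintro rfl
        obtain ⟨f, hf1, hf2, hf3⟩ := hd a
        exact hle.2.2 f hf1 hf2 hf3
      refine ih _ ?_ hT' (by rw [Function.update_of_ne hne]; exact hn) ?_ rfl
      · rw [hn']
        apply Set.ncard_lt_ncard _ (VE_finite.subset (fun w hw => hw.1))
        refine ⟨?_, ?_⟩
        · rintro w ⟨hw1, hw2⟩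
          refine ⟨hw1, ?_⟩
          by_cases hwe : w = e'
          · subst hwe; simp at hw2
          · rwa [Function.update_of_ne hwe] at hw2
        · intro hsub
          have : e' ∈ {w : Wd | VE D w ∧ Function.update γ e' (some a) w = none} := hsub ⟨hle.1, hle.2.1⟩
          simp at this
      · intro a'
        obtain ⟨f, hf1, hf2, hf3⟩ := hd a'
        refine ⟨f, hf1, hf2, ?_⟩
        have : f ≠ e' := by
          rintro rfl
          rw [hle.2.1] at hf3; simp at hf3
        rw [Function.update_of_ne this]; exact hf3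
    · exact hT.done b γ h (fun e' a' hh => hl ⟨e', a', hh⟩) e he hn

variable (D)
/-- Bob, to move, wins from every position containing the pattern -/
def WF (T : Bool → Stt K → Prop) (R : Root) : Prop :=
  ∀ (σ : Equiv.Perm (Fin K)) (γ : Stt K) (x : Wd), Rd x → T false γ → ¬ RM D σ γ R x
/-- Bob wins with Alice to move -/
def LF (T : Bool → Stt K → Prop) (R : Root) : Prop :=
  ∀ (σ : Equiv.Perm (Fin K)) (γ : Stt K) (x : Wd), Rd x → T true γ → ¬ RM D σ γ R x
/-- pattern implication -/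
def Imp (K : ℕ) (F Q : Root) : Prop :=
  ∀ (σ : Equiv.Perm (Fin K)) (γ : Stt K) (x : Wd), Rd x → RM D σ γ Q x →
    ∃ σ' y, Rd y ∧ RM D σ' γ F y
variable {D}

theorem Imp.refl (R : Root) : Imp D K R R := fun σ _ x hx h => ⟨σ, x, hx, h⟩
theorem Imp.trans {A B C : Root} (h1 : Imp D K A B) (h2 : Imp D K B C) : Imp D K A C := by
  intro σ γ x hx h
  obtain ⟨σ', y, hy, h'⟩ := h2 σ γ x hx h
  exact h1 σ' γ y hy h'
theorem WF.imp {T : Bool → Stt K → Prop} {F Q : Root} (h : WF D T F) (hi : Imp D K F Q) : WF D T Q := by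
  intro σ γ x hx hT hm
  obtain ⟨σ', y, hy, h'⟩ := hi σ γ x hx hm
  exact h σ' γ y hy hT h'
theorem LF.imp {T : Bool → Stt K → Prop} {F Q : Root} (h : LF D T F) (hi : Imp D K F Q) : LF D T Q := by
  intro σ γ x hx hT hm
  obtain ⟨σ', y, hy, h'⟩ := hi σ γ x hx hm
  exact h σ' γ y hy hT h'

/-! ### rooted weakening -/

theorem le3_sound {s : Nat} {σ σ' : Equiv.Perm (Fin K)} (hs : Comp s σ σ') {γ : Stt K} {a b c u v w : Pat}
    (h : le3 s a b c u v w = true) {x : Wd} {l : Fin 4}
    (hm : ∃ i j k, D4 i j k l ∧ M D σ γ u x i ∧ M D σ γ v x j ∧ M D σ γ w x k) :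
    ∃ i j k, D4 i j k l ∧ M D σ' γ a x i ∧ M D σ' γ b x j ∧ M D σ' γ c x k :=
  three_perm (R := le s) (A := fun Q m => M D σ γ Q x m) (B := fun Q m => M D σ' γ Q x m)
    (fun _ hQ _ hm => le_sound hs hQ hm) (fun _ hQ _ hm => le_sound hs hQ hm)
    (fun _ hQ _ hm => le_sound hs hQ hm) h hm

theorem RM.rotL {σ : Equiv.Perm (Fin K)} {γ : Stt K} {a b c d : Pat} {x : Wd}
    (h : RM D σ γ (.mk a b c d) x) : RM D σ γ (.mk b c d a) x := h.s12.s23.s34

theorem RM.of_head {σ : Equiv.Perm (Fin K)} {γ : Stt K} {a b c d : Pat} {x : Wd} {l : Fin 4}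
    (ha : M D σ γ a x l) (h : ∃ i j k, D4 i j k l ∧ M D σ γ b x i ∧ M D σ γ c x j ∧ M D σ γ d x k) :
    RM D σ γ (.mk a b c d) x := by
  obtain ⟨i, j, k, hd, hb, hc, hdd⟩ := h
  have : RM D σ γ (.mk b c d a) x := ⟨i, j, k, l, hd, hb, hc, hdd, ha⟩
  exact this.s34.s23.s12

theorem RM.head {σ : Equiv.Perm (Fin K)} {γ : Stt K} {a b c d : Pat} {x : Wd}
    (h : RM D σ γ (.mk a b c d) x) :
    ∃ l, M D σ γ a x l ∧ ∃ i j k, D4 i j k l ∧ M D σ γ b x i ∧ M D σ γ c x j ∧ M D σ γ d x k := by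
  obtain ⟨i, j, k, l, hd, hb, hc, hdd, ha⟩ := h.rotL
  exact ⟨l, ha, i, j, k, hd, hb, hc, hdd⟩

theorem leRoot_sound {s : Nat} {σ σ' : Equiv.Perm (Fin K)} (hs : Comp s σ σ') {γ : Stt K} {F Q : Root}
    (h : leRoot s F Q = true) {x : Wd} (hm : RM D σ γ Q x) : RM D σ' γ F x := by
  obtain ⟨a, b, c, d⟩ := F
  obtain ⟨u, v, w, z⟩ := Q
  simp only [leRoot, Bool.or_eq_true, Bool.and_eq_true] at h
  rcases h with ⟨h1, h2⟩ | ⟨h1, h2⟩ | ⟨h1, h2⟩ | ⟨h1, h2⟩
  · obtain ⟨l, hl, hr⟩ := hm.head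
    exact RM.of_head (le_sound hs h1 hl) (le3_sound hs h2 hr)
  · obtain ⟨l, hl, hr⟩ := hm.s12.head
    exact RM.of_head (le_sound hs h1 hl) (le3_sound hs h2 hr)
  · obtain ⟨l, hl, hr⟩ := hm.s23.s12.head
    exact RM.of_head (le_sound hs h1 hl) (le3_sound hs h2 hr)
  · obtain ⟨l, hl, hr⟩ := hm.s34.s23.s12.head
    exact RM.of_head (le_sound hs h1 hl) (le3_sound hs h2 hr)

/-! ### re-rooting -/

def rot (i : Nat) : Root → Root
  | .mk a b c d => match i with
    | 0 => .mk a b c d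
    | 1 => .mk b a c d
    | 2 => .mk c a b d
    | _ => .mk d a b c

def go (u : Pat) : Pat → Root
  | .node x y z => .mk u x y z
  | .slot n => match n with
    | 0 => .mk .junk .junk .junk .junk
    | n+1 => .mk u (.slot n) (.slot n) (.slot n)
  | _ => .mk .junk .junk .junk .junk

def cross (i : Nat) (R : Root) : Root := match rot i R with
  | .mk a b c d => go (.node b c d) a

def reroot : Nat → Nat → Root → Root
  | 0, _, R => R
  | n+1, p, R => match p with
    | 0 => R
    | p'+1 => reroot n (Nat.shiftRight (Nat.succ p') 3) (cross (Nat.pred (Nat.land (Nat.succ p') 7)) R)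

theorem rot_sound {σ : Equiv.Perm (Fin K)} {γ : Stt K} {R : Root} {x : Wd} (i : Nat)
    (h : RM D σ γ R x) : RM D σ γ (rot i R) x := by
  obtain ⟨a, b, c, d⟩ := R
  rcases i with _ | _ | _ | i
  · exact h
  · exact h.s12
  · exact h.s23.s12
  · exact h.s34.s23.s12

theorem junk_sound {σ : Equiv.Perm (Fin K)} {γ : Stt K} {x : Wd} :
    RM D σ γ (.mk .junk .junk .junk .junk) x :=
  ⟨0, 1, 2, 3, by unfold D4; decide, trivial, trivial, trivial, trivial⟩

theorem node_cross {σ : Equiv.Perm (Fin K)} {γ : Stt K} {a b c p q r : Pat} {x : Wd} {l : Fin 4} (hx : Rd x)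
    (h1 : VE D (eid x l)) (h2 : γ (eid x l) = none)
    (h3 : ∃ i j k, D4 i j k l ∧ M D σ γ p (nb x l) i ∧ M D σ γ q (nb x l) j ∧ M D σ γ r (nb x l) k)
    (h4 : ∃ i j k, D4 i j k l ∧ M D σ γ a x i ∧ M D σ γ b x j ∧ M D σ γ c x k) :
    RM D σ γ (.mk (.node a b c) p q r) (nb x l) := by
  refine RM.of_head (l := l) ?_ h3
  refine ⟨by rw [eid_nb hx]; exact h1, by rw [eid_nb hx]; exact h2, ?_⟩
  rw [nb_nb hx]; exact h4

theorem cross_imp (i : Nat) (R : Root) : Imp D K (cross i R) R := by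
  intro σ γ x hx h
  have h' := rot_sound i h
  unfold cross
  generalize rot i R = R' at h'
  obtain ⟨a, b, c, d⟩ := R'
  simp only
  obtain ⟨l, ha, hr⟩ := h'.head
  cases a with
  | junk => exact ⟨σ, x, hx, junk_sound⟩
  | col _ => exact ⟨σ, x, hx, junk_sound⟩
  | node u v w =>
    obtain ⟨h1, h2, h3⟩ := ha
    exact ⟨σ, nb x l, hx.nb l, node_cross hx h1 h2 h3 hr⟩
  | slot n =>
    cases n with
    | zero => exact ⟨σ, x, hx, junk_sound⟩
    | succ n =>
      have ha' := M_slot_succ.1 ha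
      obtain ⟨h1, h2, h3⟩ := ha'
      exact ⟨σ, nb x l, hx.nb l, node_cross hx h1 h2 h3 hr⟩

theorem reroot_imp (n p : Nat) (R : Root) : Imp D K (reroot n p R) R := by
  induction n generalizing p R with
  | zero => exact Imp.refl R
  | succ n ih =>
    unfold reroot
    split
    · exact Imp.refl R
    · exact (ih _ _).trans (cross_imp _ _)

/-! ### adjacency and moves -/

theorem eid_inj {x : Wd} (hx : Rd x) {l m : Fin 4} (h : eid x l = eid x m) : l = m := by
  by_contra hlm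
  have h1 := BE_eid x l
  rw [h] at h1
  exact BE_disj hlm h1 (BE_eid x m)

theorem eid_eq {x y : Wd} (hx : Rd x) (hy : Rd y) {l m : Fin 4} (h : eid x l = eid y m) :
    l = m ∧ (y = x ∨ y = nb x l) := by
  unfold eid nb at *
  by_cases a : x.head? = some l
  · rw [if_pos a] at h ⊢
    by_cases b : y.head? = some m
    · rw [if_pos b] at h
      subst h
      rw [a] at b
      exact ⟨by simpa using b, Or.inl rfl⟩
    · rw [if_neg b] at h
      subst h
      simp at a
      exact ⟨a.symm, Or.inr rfl⟩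
  · rw [if_neg a] at h ⊢
    by_cases b : y.head? = some m
    · rw [if_pos b] at h
      subst h
      simp at b
      exact ⟨b, Or.inr rfl⟩
    · rw [if_neg b] at h
      simp at h
      exact ⟨h.1, Or.inl h.2.symm⟩

theorem adj_cases {x : Wd} (hx : Rd x) {l : Fin 4} {f : Wd} (h : Adj (eid x l) f) :
    ∃ m, m ≠ l ∧ (f = eid x m ∨ f = eid (nb x l) m) := by
  obtain ⟨y, l', m, hy, hlm, he, hf⟩ := h
  obtain ⟨h1, h2⟩ := eid_eq hx hy he
  subst h1
  refine ⟨m, hlm.symm, ?_⟩
  rcases h2 with rfl | rfl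
  · exact Or.inl hf
  · exact Or.inr hf

theorem adj_same {x : Wd} (hx : Rd x) {l m : Fin 4} (h : l ≠ m) : Adj (eid x l) (eid x m) :=
  ⟨x, l, m, hx, h, rfl, rfl⟩

theorem adj_far {x : Wd} (hx : Rd x) {l m : Fin 4} (h : l ≠ m) : Adj (eid x l) (eid (nb x l) m) :=
  ⟨nb x l, l, m, hx.nb l, h, (eid_nb hx l).symm, rfl⟩

/-- known not to be coloured `a` -/
def freeOf (a : Nat) : Pat → Bool
  | .junk => false
  | .slot _ => true
  | .col b => match Nat.beq a b with
    | true => false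
    | false => true
  | .node _ _ _ => true

def isCol (a : Nat) : Pat → Bool
  | .col b => Nat.beq a b
  | _ => false

def isOpen : Pat → Bool
  | .slot _ => true
  | .node _ _ _ => true
  | _ => false

theorem freeOf_sound {σ : Equiv.Perm (Fin K)} {γ : Stt K} {a : ℕ} (ha : a < K) {P : Pat}
    (h : freeOf a P = true) {x : Wd} {l : Fin 4} (hm : M D σ γ P x l) :
    γ (eid x l) ≠ some (σ ⟨a, ha⟩) := by
  cases P with
  | junk => simp [freeOf] at h
  | slot d => rw [(slotM_VE hm).2]; simp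
  | node p q r => rw [hm.2.1]; simp
  | col b =>
    obtain ⟨h1, h2, h3⟩ := hm
    rw [h3]
    intro h4
    have h5 : b = a := by
      have := σ.injective (Option.some.inj h4)
      simpa using this
    subst h5
    simp [freeOf] at h

theorem isCol_sound {σ : Equiv.Perm (Fin K)} {γ : Stt K} {a : ℕ} (ha : a < K) {P : Pat}
    (h : isCol a P = true) {x : Wd} {l : Fin 4} (hm : M D σ γ P x l) :
    VE D (eid x l) ∧ γ (eid x l) = some (σ ⟨a, ha⟩) := by
  cases P with
  | junk => simp [isCol] at h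
  | slot d => simp [isCol] at h
  | node p q r => simp [isCol] at h
  | col b =>
    obtain ⟨h1, h2, h3⟩ := hm
    have : a = b := Nat.eq_of_beq_eq_true h
    subst this
    exact ⟨h1, h3⟩

theorem isOpen_sound {σ : Equiv.Perm (Fin K)} {γ : Stt K} {P : Pat}
    (h : isOpen P = true) {x : Wd} {l : Fin 4} (hm : M D σ γ P x l) :
    VE D (eid x l) ∧ γ (eid x l) = none := by
  cases P with
  | junk => simp [isOpen] at h
  | slot d => exact slotM_VE hm
  | node p q r => exact ⟨hm.1, hm.2.1⟩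
  | col b => simp [isOpen] at h

theorem exists_legal {T : Bool → Stt K → Prop} (hT : Good D T) {b : Bool} {γ : Stt K} (h : T b γ) {e : Wd}
    (he : VE D e) (hn : γ e = none) : ∃ e a, Legal D γ e a := by
  by_contra hc
  exact hT.done b γ h (fun e' a' hh => hc ⟨e', a', hh⟩) e he hn

theorem upd_ne {γ : Stt K} {e w : Wd} {a : Fin K} (h : w ≠ e) : Function.update γ e (some a) w = γ w :=
  Function.update_of_ne h _ _

/-- patterns in other branches survive a move -/
theorem M_upd {σ : Equiv.Perm (Fin K)} {γ : Stt K} {P : Pat} {x : Wd} (hx : Rd x) {l m : Fin 4} (hlm : l ≠ m)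
    {e : Wd} (he : BE x m e) {b : Fin K} (hm : M D σ γ P x l) : M D σ (Function.update γ e (some b)) P x l := by
  refine M_congr hx (fun w hw => upd_ne ?_) hm
  rintro rfl
  exact BE_disj hlm hw he

theorem col_upd {σ : Equiv.Perm (Fin K)} {γ : Stt K} {a : ℕ} (ha : a < K) {x : Wd} {l : Fin 4}
    (h : VE D (eid x l)) : M D σ (Function.update γ (eid x l) (some (σ ⟨a, ha⟩))) (.col a) x l :=
  ⟨h, ha, by simp⟩

/-- after colouring the edge `(x,l)` the near side is known -/
theorem near_upd {σ : Equiv.Perm (Fin K)} {γ : Stt K} {A B C : Pat} {x : Wd} (hx : Rd x) {l : Fin 4} {a : ℕ}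
    (ha : a < K) (h : VE D (eid x l))
    (hr : ∃ i j k, D4 i j k l ∧ M D σ γ A x i ∧ M D σ γ B x j ∧ M D σ γ C x k) :
    ∃ i j k, D4 i j k l ∧ M D σ (Function.update γ (eid x l) (some (σ ⟨a, ha⟩))) A x i ∧
      M D σ (Function.update γ (eid x l) (some (σ ⟨a, ha⟩))) B x j ∧
      M D σ (Function.update γ (eid x l) (some (σ ⟨a, ha⟩))) C x k := by
  obtain ⟨i, j, k, hd, h1, h2, h3⟩ := hr
  exact ⟨i, j, k, hd, M_upd hx hd.2.2.1 (BE_eid x l) h1, M_upd hx hd.2.2.2.2.1 (BE_eid x l) h2,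
    M_upd hx hd.2.2.2.2.2 (BE_eid x l) h3⟩

end

end Pool.Agent.W319.GCI
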