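import Pool.Agent.W319.GCI.Basic

set_option autoImplicit false

namespace Pool.Agent.W319.GCI

section
variable (K D : ℕ)

/-- valid edge words -/
def VE (w : Wd) : Prop := w ≠ [] ∧ Rd w ∧ w.length ≤ D

abbrev Stt (K : ℕ) := Wd → Option (Fin K)

variable {K}

/-- the edge is uncoloured and so is everything up to depth `d` behind it -/
def slotM (γ : Stt K) : ℕ → Wd → Fin 4 → Prop
  | 0, x, l => VE D (eid x l) ∧ γ (eid x l) = none
  | d+1, x, l => VE D (eid x l) ∧ γ (eid x l) = none ∧ ∀ m, m ≠ l → slotM γ d (nb x l) m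

/-- meaning of a pattern behind the directed edge `(x,l)` -/
def M (σ : Equiv.Perm (Fin K)) (γ : Stt K) : Pat → Wd → Fin 4 → Prop
  | .junk, _, _ => True
  | .slot d, x, l => slotM D γ d x l
  | .col a, x, l => VE D (eid x l) ∧ ∃ h : a < K, γ (eid x l) = some (σ ⟨a, h⟩)
  | .node p q r, x, l => VE D (eid x l) ∧ γ (eid x l) = none ∧
      ∃ i j k, D4 i j k l ∧ M σ γ p (nb x l) i ∧ M σ γ q (nb x l) j ∧ M σ γ r (nb x l) k

/-- meaning of a rooted pattern at the vertex `x` -/
def RM (σ : Equiv.Perm (Fin K)) (γ : Stt K) : Root → Wd → Prop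
  | .mk a b c d, x => ∃ i j k l, D4 i j k l ∧ M D σ γ a x i ∧ M D σ γ b x j ∧ M D σ γ c x k ∧ M D σ γ d x l

variable {D}

theorem slotM_VE {γ : Stt K} {d : ℕ} {x : Wd} {l : Fin 4} (h : slotM D γ d x l) :
    VE D (eid x l) ∧ γ (eid x l) = none := by
  cases d with
  | zero => exact h
  | succ d => exact ⟨h.1, h.2.1⟩

theorem slotM_mono {γ : Stt K} {d e : ℕ} (hde : e ≤ d) {x : Wd} {l : Fin 4} (h : slotM D γ d x l) :
    slotM D γ e x l := by
  induction e generalizing d x l with
  | zero => exact slotM_VE h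
  | succ e ih =>
    cases d with
    | zero => omega
    | succ d => exact ⟨h.1, h.2.1, fun m hm => ih (by omega) (h.2.2 m hm)⟩

theorem slotM_congr {γ γ' : Stt K} {d : ℕ} {x : Wd} (hx : Rd x) {l : Fin 4}
    (h : ∀ w, BE x l w → γ' w = γ w) (hm : slotM D γ d x l) : slotM D γ' d x l := by
  induction d generalizing x l with
  | zero =>
    refine ⟨hm.1, ?_⟩
    rw [h _ (BE_eid x l)]; exact hm.2
  | succ d ih =>
    refine ⟨hm.1, ?_, ?_⟩
    · rw [h _ (BE_eid x l)]; exact hm.2.1
    · intro m hml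
      exact ih (hx.nb l) (fun w hw => h w (BE_sub hx hml hw).1) (hm.2.2 m hml)

theorem M_congr {σ : Equiv.Perm (Fin K)} {γ γ' : Stt K} {P : Pat} {x : Wd} (hx : Rd x) {l : Fin 4}
    (h : ∀ w, BE x l w → γ' w = γ w) (hm : M D σ γ P x l) : M D σ γ' P x l := by
  induction P generalizing x l with
  | junk => trivial
  | slot d => exact slotM_congr hx h hm
  | col a =>
    obtain ⟨h1, h2, h3⟩ := hm
    exact ⟨h1, h2, by rw [h _ (BE_eid x l)]; exact h3⟩
  | node p q r ihp ihq ihr =>
    obtain ⟨h1, h2, i, j, k, hd, hp, hq, hr⟩ := hm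
    refine ⟨h1, by rw [h _ (BE_eid x l)]; exact h2, i, j, k, hd, ?_, ?_, ?_⟩
    · exact ihp (hx.nb l) (fun w hw => h w (BE_sub hx hd.2.2.1 hw).1) hp
    · exact ihq (hx.nb l) (fun w hw => h w (BE_sub hx hd.2.2.2.2.1 hw).1) hq
    · exact ihr (hx.nb l) (fun w hw => h w (BE_sub hx hd.2.2.2.2.2 hw).1) hr

/-- slots unfold to nodes -/
theorem M_slot_succ {σ : Equiv.Perm (Fin K)} {γ : Stt K} {d : ℕ} {x : Wd} {l : Fin 4} :
    M D σ γ (.slot (d+1)) x l ↔ M D σ γ (.node (.slot d) (.slot d) (.slot d)) x l := by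
  constructor
  · rintro ⟨h1, h2, h3⟩
    obtain ⟨i, j, k, hd⟩ := D4.exists l
    exact ⟨h1, h2, i, j, k, hd, h3 i hd.2.2.1, h3 j hd.2.2.2.2.1, h3 k hd.2.2.2.2.2⟩
  · rintro ⟨h1, h2, i, j, k, hd, h3, h4, h5⟩
    refine ⟨h1, h2, ?_⟩
    intro m hm
    rcases hd.cover' hm with rfl | rfl | rfl
    · exact h3
    · exact h4
    · exact h5

theorem M_open {σ : Equiv.Perm (Fin K)} {γ : Stt K} {x : Wd} {l : Fin 4}
    (h1 : VE D (eid x l)) (h2 : γ (eid x l) = none) : M D σ γ (.slot 0) x l := ⟨h1, h2⟩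

/-! ### swapping the order in rooted patterns -/
section perms
variable {σ : Equiv.Perm (Fin K)} {γ : Stt K} {a b c d : Pat} {x : Wd}
theorem RM.s12 (h : RM D σ γ (.mk a b c d) x) : RM D σ γ (.mk b a c d) x := by
  obtain ⟨i, j, k, l, hd, ha, hb, hc, hdd⟩ := h; exact ⟨j, i, k, l, hd.s12, hb, ha, hc, hdd⟩
theorem RM.s23 (h : RM D σ γ (.mk a b c d) x) : RM D σ γ (.mk a c b d) x := by
  obtain ⟨i, j, k, l, hd, ha, hb, hc, hdd⟩ := h; exact ⟨i, k, j, l, hd.s23, ha, hc, hb, hdd⟩
theorem RM.s34 (h : RM D σ γ (.mk a b c d) x) : RM D σ γ (.mk a b d c) x := by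
  obtain ⟨i, j, k, l, hd, ha, hb, hc, hdd⟩ := h; exact ⟨i, j, l, k, hd.s34, ha, hb, hdd, hc⟩
end perms

/-! ### weakening of patterns -/

/-- digit `a` of the colour renaming code `s` -/
def tau (s a : Nat) : Nat := Nat.land (Nat.shiftRight s (Nat.mul 3 a)) 7

def leSlot (r : Nat) : Pat → Bool
  | .junk => false
  | .slot d => Nat.ble r d
  | .col _ => false
  | .node a b c => match r with
    | 0 => true
    | r+1 => leSlot r a && (leSlot r b && leSlot r c)

def satSlot (d : Nat) : Pat → Bool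
  | .junk => true
  | .slot r => Nat.ble r d
  | .col _ => false
  | .node a b c => match d with
    | 0 => false
    | d+1 => satSlot d a && (satSlot d b && satSlot d c)

/-- `le s F Q`: the pattern `Q` implies the pattern `F` with its colours renamed by `s` -/
def le (s : Nat) : Pat → Pat → Bool
  | .junk, _ => true
  | .slot r, Q => leSlot r Q
  | .col a, Q => match Q with
    | .col b => Nat.beq (tau s a) (Nat.succ b)
    | _ => false
  | .node a b c, Q => match Q with
    | .node x y z =>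
      (le s a x && ((le s b y && le s c z) || (le s b z && le s c y))) ||
      ((le s a y && ((le s b x && le s c z) || (le s b z && le s c x))) ||
       (le s a z && ((le s b x && le s c y) || (le s b y && le s c x))))
    | .slot d => match d with
      | 0 => false
      | d+1 => satSlot d a && (satSlot d b && satSlot d c)
    | _ => false

def le3 (s : Nat) (a b c x y z : Pat) : Bool :=
  (le s a x && ((le s b y && le s c z) || (le s b z && le s c y))) ||
      ((le s a y && ((le s b x && le s c z) || (le s b z && le s c x))) ||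
       (le s a z && ((le s b x && le s c y) || (le s b y && le s c x))))

def leRoot (s : Nat) : Root → Root → Bool
  | .mk a b c d, .mk x y z w =>
    (le s a x && le3 s b c d y z w) || ((le s a y && le3 s b c d x z w) ||
    ((le s a z && le3 s b c d x y w) || (le s a w && le3 s b c d x y z)))

/-- `s` codes a permutation of `Fin K` (digit `a` is the image of `a` plus one, digits from `K` on vanish)
and `σ'` is the composition -/
def Comp (s : Nat) (σ σ' : Equiv.Perm (Fin K)) : Prop :=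
  (∀ a : ℕ, ∀ h : a < K, ∃ b : Fin K, tau s a = b.1 + 1 ∧ σ' ⟨a, h⟩ = σ b) ∧
  (∀ a : ℕ, K ≤ a → tau s a = 0)

def orPow (s : Nat) : Nat → Nat
  | 0 => 0
  | n+1 => Nat.lor (Nat.shiftLeft 1 (tau s n)) (orPow s n)

def okCode (K s : Nat) : Bool := Nat.blt s (Nat.pow 8 K) && Nat.beq (orPow s K) (Nat.sub (Nat.pow 2 (Nat.succ K)) 2)

theorem orPow_testBit (s n b : Nat) (h : (orPow s n).testBit b = true) : ∃ a, a < n ∧ tau s a = b := by
  induction n with
  | zero => simp [orPow] at h
  | succ n ih =>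
    have h2 : ((1 <<< tau s n) ||| orPow s n).testBit b = true := h
    rw [Nat.testBit_or, Bool.or_eq_true] at h2
    rcases h2 with h2 | h2
    · refine ⟨n, Nat.lt_succ_self n, ?_⟩
      rw [Nat.shiftLeft_eq, one_mul] at h2
      rw [Nat.testBit_two_pow] at h2
      exact of_decide_eq_true h2
    · obtain ⟨a, ha, hb⟩ := ih h2
      exact ⟨a, by omega, hb⟩

theorem okCode_sound {s : Nat} (h : okCode K s = true) (σ : Equiv.Perm (Fin K)) : ∃ σ', Comp s σ σ' := by
  unfold okCode at h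
  rw [Bool.and_eq_true] at h
  obtain ⟨h1, h2⟩ := h
  have h1' : s < 8 ^ K := by
    have : Nat.ble (s+1) (8 ^ K) = true := h1
    exact Nat.le_of_ble_eq_true this
  have h2' : orPow s K = 2 ^ (K+1) - 2 := Nat.eq_of_beq_eq_true h2
  have h3 : ∀ b : Fin K, ∃ a : Fin K, tau s a = b.1 + 1 := by
    intro b
    have : (orPow s K).testBit (b.1+1) = true := by
      rw [h2']
      have h4 : 2 ^ (K+1) - 2 = 2 * (2 ^ K - 1) := by rw [pow_succ]; omega
      rw [h4, show b.1 + 1 = Nat.succ b.1 from rfl, Nat.testBit_succ]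
      have h5 : 2 * (2 ^ K - 1) / 2 = 2 ^ K - 1 := by omega
      rw [h5, Nat.testBit_two_pow_sub_one]
      exact decide_eq_true b.2
    obtain ⟨a, ha, hb⟩ := orPow_testBit _ _ _ this
    exact ⟨⟨a, ha⟩, hb⟩
  choose g hg using h3
  have hinj : Function.Injective g := by
    intro b c hbc
    have := hg b; rw [hbc, hg c] at this
    exact Fin.ext (by omega)
  have hbij : Function.Bijective g := ⟨hinj, Finite.surjective_of_injective hinj⟩
  refine ⟨(Equiv.ofBijective g hbij).symm.trans σ, ?_, ?_⟩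
  · intro a h
    refine ⟨(Equiv.ofBijective g hbij).symm ⟨a, h⟩, ?_, rfl⟩
    have h6 := hg ((Equiv.ofBijective g hbij).symm ⟨a, h⟩)
    have h7 : g ((Equiv.ofBijective g hbij).symm ⟨a, h⟩) = ⟨a, h⟩ :=
      (Equiv.ofBijective g hbij).apply_symm_apply ⟨a, h⟩
    rw [h7] at h6
    exact h6
  · intro a ha
    have h8 : s >>> (3 * a) = 0 := by
      rw [Nat.shiftRight_eq_div_pow]
      apply Nat.div_eq_of_lt
      calc s < 8 ^ K := h1'
        _ ≤ 8 ^ a := Nat.pow_le_pow_right (by norm_num) ha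
        _ = 2 ^ (3 * a) := by rw [pow_mul]; norm_num
    show Nat.land (s >>> (3 * a)) 7 = 0
    rw [h8]
    exact Nat.zero_and 7

theorem leSlot_sound {σ : Equiv.Perm (Fin K)} {γ : Stt K} {Q : Pat} {r : Nat} (h : leSlot r Q = true)
    {x : Wd} {l : Fin 4} (hm : M D σ γ Q x l) : slotM D γ r x l := by
  induction Q generalizing r x l with
  | junk => simp [leSlot] at h
  | col _ => simp [leSlot] at h
  | slot d =>
    simp only [leSlot] at h
    exact slotM_mono (Nat.le_of_ble_eq_true h) hm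
  | node a b c iha ihb ihc =>
    obtain ⟨h1, h2, i, j, k, hd, ha, hb, hc⟩ := hm
    cases r with
    | zero => exact ⟨h1, h2⟩
    | succ r =>
      simp only [leSlot, Bool.and_eq_true] at h
      refine ⟨h1, h2, ?_⟩
      intro m hm
      rcases hd.cover' hm with rfl | rfl | rfl
      · exact iha h.1 ha
      · exact ihb h.2.1 hb
      · exact ihc h.2.2 hc

theorem satSlot_sound {σ : Equiv.Perm (Fin K)} {γ : Stt K} {F : Pat} {d : Nat} (h : satSlot d F = true)
    {x : Wd} {l : Fin 4} (hm : slotM D γ d x l) : M D σ γ F x l := by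
  induction F generalizing d x l with
  | junk => trivial
  | col _ => simp [satSlot] at h
  | slot r =>
    simp only [satSlot] at h
    exact slotM_mono (Nat.le_of_ble_eq_true h) hm
  | node a b c iha ihb ihc =>
    cases d with
    | zero => simp [satSlot] at h
    | succ d =>
      simp only [satSlot, Bool.and_eq_true] at h
      obtain ⟨h1, h2, h3⟩ := hm
      obtain ⟨i, j, k, hd⟩ := D4.exists l
      exact ⟨h1, h2, i, j, k, hd, iha h.1 (h3 i hd.2.2.1), ihb h.2.1 (h3 j hd.2.2.2.2.1),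
        ihc h.2.2 (h3 k hd.2.2.2.2.2)⟩

/-- generic permutation lemma for three ports -/
theorem three_perm {A B : Pat → Fin 4 → Prop} {R : Pat → Pat → Bool} {a b c : Pat}
    (ha : ∀ Q, R a Q = true → ∀ m, A Q m → B a m) (hb : ∀ Q, R b Q = true → ∀ m, A Q m → B b m)
    (hc : ∀ Q, R c Q = true → ∀ m, A Q m → B c m)
    {x y z : Pat} {l : Fin 4}
    (h : ((R a x && ((R b y && R c z) || (R b z && R c y))) || ((R a y && ((R b x && R c z) || (R b z && R c x))) ||
       (R a z && ((R b x && R c y) || (R b y && R c x))))) = true)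
    (hm : ∃ i j k, D4 i j k l ∧ A x i ∧ A y j ∧ A z k) :
    ∃ i j k, D4 i j k l ∧ B a i ∧ B b j ∧ B c k := by
  obtain ⟨i, j, k, hd, hx, hy, hz⟩ := hm
  simp only [Bool.or_eq_true, Bool.and_eq_true] at h
  rcases h with ⟨h1, ⟨h2, h3⟩ | ⟨h2, h3⟩⟩ | ⟨h1, ⟨h2, h3⟩ | ⟨h2, h3⟩⟩ | ⟨h1, ⟨h2, h3⟩ | ⟨h2, h3⟩⟩
  · exact ⟨i, j, k, hd, ha _ h1 _ hx, hb _ h2 _ hy, hc _ h3 _ hz⟩
  · exact ⟨i, k, j, hd.s23, ha _ h1 _ hx, hb _ h2 _ hz, hc _ h3 _ hy⟩
  · exact ⟨j, i, k, hd.s12, ha _ h1 _ hy, hb _ h2 _ hx, hc _ h3 _ hz⟩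
  · exact ⟨j, k, i, hd.s12.s23, ha _ h1 _ hy, hb _ h2 _ hz, hc _ h3 _ hx⟩
  · exact ⟨k, i, j, hd.s23.s12, ha _ h1 _ hz, hb _ h2 _ hx, hc _ h3 _ hy⟩
  · exact ⟨k, j, i, hd.s23.s12.s23, ha _ h1 _ hz, hb _ h2 _ hy, hc _ h3 _ hx⟩

theorem le_sound {s : Nat} {σ σ' : Equiv.Perm (Fin K)} (hs : Comp s σ σ') {γ : Stt K} {F Q : Pat}
    (h : le s F Q = true) {x : Wd} {l : Fin 4} (hm : M D σ γ Q x l) : M D σ' γ F x l := by
  induction F generalizing Q x l with
  | junk => trivial
  | slot r => exact leSlot_sound (by simpa [le] using h) hm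
  | col a =>
    cases Q with
    | junk => simp [le] at h
    | slot _ => simp [le] at h
    | node _ _ _ => simp [le] at h
    | col b =>
      simp only [le] at h
      have hb : tau s a = b + 1 := Nat.eq_of_beq_eq_true h
      obtain ⟨h1, h2, h3⟩ := hm
      have ha : a < K := by
        by_contra hc
        have := hs.2 a (by omega)
        omega
      obtain ⟨b', h4, h5⟩ := hs.1 a ha
      refine ⟨h1, ha, ?_⟩
      rw [h3, h5]
      congr 2
      exact Fin.ext (by simp only; omega)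
  | node a b c iha ihb ihc =>
    cases Q with
    | junk => simp [le] at h
    | col _ => simp [le] at h
    | slot d =>
      cases d with
      | zero => simp [le] at h
      | succ d =>
        simp only [le, Bool.and_eq_true] at h
        obtain ⟨h1, h2, h3⟩ := hm
        obtain ⟨i, j, k, hd⟩ := D4.exists l
        exact ⟨h1, h2, i, j, k, hd, satSlot_sound h.1 (h3 i hd.2.2.1), satSlot_sound h.2.1 (h3 j hd.2.2.2.2.1),
          satSlot_sound h.2.2 (h3 k hd.2.2.2.2.2)⟩
    | node u v w =>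
      simp only [le] at h
      obtain ⟨h1, h2, h3⟩ := hm
      exact ⟨h1, h2, three_perm (A := fun Q m => M D σ γ Q (nb x l) m) (B := fun Q m => M D σ' γ Q (nb x l) m)
        (fun Q hQ m hm => iha hQ hm) (fun Q hQ m hm => ihb hQ hm) (fun Q hQ m hm => ihc hQ hm) h h3⟩

end

end Pool.Agent.W319.GCI
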