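import Pool.Agent.W319.GCI.Check

set_option autoImplicit false

namespace Pool.Agent.W319.GCI

/-- vertices of the ball of radius `D` in the 4-regular tree -/
@[ext] structure VV (D : ℕ) : Type where
  val : Wd
  rd : Rd val
  len : val.length ≤ D

instance (D : ℕ) : DecidableEq (VV D) := fun u v =>
  if h : u.val = v.val then isTrue (VV.ext h) else isFalse (fun e => h (congrArg VV.val e))

theorem VV_finite (D : ℕ) : {w : Wd | Rd w ∧ w.length ≤ D}.Finite :=
  (List.finite_length_le (Fin 4) D).subset (fun _ hw => hw.2)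

instance (D : ℕ) : Finite (VV D) := by
  have := (VV_finite D).to_subtype
  refine Finite.of_injective (fun v : VV D => (⟨v.val, v.rd, v.len⟩ : {w : Wd | Rd w ∧ w.length ≤ D})) ?_
  intro u v h
  exact VV.ext (congrArg Subtype.val h)

noncomputable instance (D : ℕ) : Fintype (VV D) := Fintype.ofFinite _

theorem tail_ne {w : Wd} (h : w ≠ []) : w.tail ≠ w := by
  intro e
  have := congrArg List.length e
  cases w with
  | nil => exact h rfl
  | cons a t => simp at this

def GG (D : ℕ) : SimpleGraph (VV D) where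
  Adj u v := (u.val = v.val.tail ∧ v.val ≠ []) ∨ (v.val = u.val.tail ∧ u.val ≠ [])
  symm := ⟨fun _ _ h => h.symm⟩
  loopless := by
    constructor
    intro u h
    rcases h with h | h
    · exact tail_ne h.2 h.1.symm
    · exact tail_ne h.2 h.1.symm

instance (D : ℕ) : DecidableRel (GG D).Adj := fun u v =>
  inferInstanceAs (Decidable ((u.val = v.val.tail ∧ v.val ≠ []) ∨ (v.val = u.val.tail ∧ u.val ≠ [])))

theorem adj_def {D : ℕ} {u v : VV D} :
    (GG D).Adj u v ↔ (u.val = v.val.tail ∧ v.val ≠ []) ∨ (v.val = u.val.tail ∧ u.val ≠ []) := Iff.rfl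

def root (D : ℕ) : VV D := ⟨[], by unfold Rd; simp, by simp⟩

theorem VE.tailR {D : ℕ} {w : Wd} (h : VE D w) : Rd w.tail := h.2.1.tail
theorem VE.tailL {D : ℕ} {w : Wd} (h : VE D w) : w.tail.length ≤ D := by
  have := h.2.2; simp; omega

/-- the two ends of an edge -/
def lo {D : ℕ} {w : Wd} (h : VE D w) : VV D := ⟨w.tail, h.tailR, h.tailL⟩
def hi {D : ℕ} {w : Wd} (h : VE D w) : VV D := ⟨w, h.2.1, h.2.2⟩

open Classical in
/-- the edge of the graph coded by a word -/
noncomputable def E (D : ℕ) (w : Wd) : Sym2 (VV D) :=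
  if h : VE D w then s(lo h, hi h) else s(root D, root D)

theorem E_eq {D : ℕ} {w : Wd} (h : VE D w) : E D w = s(lo h, hi h) := by
  unfold E; rw [dif_pos h]

theorem E_mem {D : ℕ} {w : Wd} (h : VE D w) : E D w ∈ (GG D).edgeSet := by
  rw [E_eq h, SimpleGraph.mem_edgeSet, adj_def]
  exact Or.inl ⟨rfl, h.1⟩

theorem VV.ve {D : ℕ} (v : VV D) (h : v.val ≠ []) : VE D v.val := ⟨h, v.rd, v.len⟩

theorem E_surj {D : ℕ} {e : Sym2 (VV D)} (he : e ∈ (GG D).edgeSet) : ∃ w, VE D w ∧ e = E D w := by
  induction e with
  | _ u v =>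
    rw [SimpleGraph.mem_edgeSet, adj_def] at he
    rcases he with h | h
    · refine ⟨v.val, v.ve h.2, ?_⟩
      rw [E_eq (v.ve h.2)]
      have h1 : u = lo (v.ve h.2) := VV.ext h.1
      have h2 : v = hi (v.ve h.2) := VV.ext rfl
      exact congrArg₂ (fun a b => s(a, b)) h1 h2
    · refine ⟨u.val, u.ve h.2, ?_⟩
      rw [E_eq (u.ve h.2), Sym2.eq_swap]
      have h1 : v = lo (u.ve h.2) := VV.ext h.1
      have h2 : u = hi (u.ve h.2) := VV.ext rfl
      exact congrArg₂ (fun a b => s(a, b)) h1 h2

theorem E_inj {D : ℕ} {w w' : Wd} (h : VE D w) (h' : VE D w') (he : E D w = E D w') : w = w' := by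
  rw [E_eq h, E_eq h', Sym2.eq_iff] at he
  rcases he with ⟨_, h2⟩ | ⟨h1, h2⟩
  · exact congrArg VV.val h2
  · have a1 : w.tail = w' := congrArg VV.val h1
    have a2 : w = w'.tail := congrArg VV.val h2
    exfalso
    have l1 := congrArg List.length a1
    have l2 := congrArg List.length a2
    simp at l1 l2
    have := List.length_pos_iff.2 h.1
    omega

theorem eid_head {w : Wd} (h : w ≠ []) : ∃ l, w = eid w l := by
  cases w with
  | nil => exact absurd rfl h
  | cons a t => exact ⟨a, by simp [eid]⟩

theorem eid_tail {w : Wd} (hr : Rd w) (h : w ≠ []) : ∃ l, w = eid w.tail l := by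
  cases w with
  | nil => exact absurd rfl h
  | cons a t =>
    refine ⟨a, ?_⟩
    have h3 : t.head? ≠ some a := fun h2 => hr.head_ne h2 rfl
    simp [eid, h3]

theorem mem_E {D : ℕ} {w : Wd} (h : VE D w) {v : VV D} (hv : v ∈ E D w) : ∃ l, w = eid v.val l := by
  rw [E_eq h, Sym2.mem_iff] at hv
  rcases hv with hv | hv
  · rw [hv]; exact eid_tail h.2.1 h.1
  · rw [hv]; exact eid_head h.1

theorem vert_mem_E {D : ℕ} {x : Wd} (hx : Rd x) {l : Fin 4} (h : VE D (eid x l)) :
    ∃ v : VV D, v.val = x ∧ v ∈ E D (eid x l) := by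
  have hlen : x.length ≤ D := by
    have := h.2.2
    unfold eid at this
    split_ifs at this
    · exact this
    · simp at this; omega
  refine ⟨⟨x, hx, hlen⟩, rfl, ?_⟩
  rw [E_eq h, Sym2.mem_iff]
  by_cases a : x.head? = some l
  · right
    exact VV.ext (by simp [hi, eid, a])
  · left
    exact VV.ext (by simp [lo, eid, a])

theorem adj_iff {D : ℕ} {w w' : Wd} (h : VE D w) (h' : VE D w') :
    Adj w w' ↔ (E D w' ≠ E D w ∧ ∃ v, v ∈ E D w ∧ v ∈ E D w') := by
  constructor
  · rintro ⟨x, l, m, hx, hlm, rfl, rfl⟩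
    refine ⟨?_, ?_⟩
    · intro he
      exact hlm (eid_inj hx (E_inj h h' he.symm))
    · obtain ⟨v, hv, h1⟩ := vert_mem_E hx h
      obtain ⟨v', hv', h2⟩ := vert_mem_E hx h'
      have : v' = v := VV.ext (hv'.trans hv.symm)
      rw [this] at h2
      exact ⟨_, h1, h2⟩
  · rintro ⟨hne, v, h1, h2⟩
    obtain ⟨l, hl⟩ := mem_E h h1
    obtain ⟨m, hm⟩ := mem_E h' h2
    refine ⟨v.val, l, m, v.rd, ?_, hl, hm⟩
    rintro rfl
    apply hne
    rw [hl.trans hm.symm]

/-! ### the tree -/

theorem reach_root {D : ℕ} (n : ℕ) : ∀ (v : VV D), v.val.length = n → (GG D).Reachable v (root D) := by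
  induction n with
  | zero =>
    intro v hv
    have : v = root D := VV.ext (List.length_eq_zero_iff.1 hv)
    rw [this]
  | succ n ih =>
    intro v hv
    have hne : v.val ≠ [] := by intro e; rw [e] at hv; simp at hv
    have h1 : (GG D).Adj v (lo (v.ve hne)) := Or.inr ⟨rfl, hne⟩
    exact h1.reachable.trans (ih _ (by simp [lo, hv]))

theorem connected_GG (D : ℕ) : (GG D).Connected := by
  have : Nonempty (VV D) := ⟨root D⟩
  exact SimpleGraph.Connected.mk (fun u v => (reach_root _ u rfl).trans (reach_root _ v rfl).symm)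

theorem ne_root {D : ℕ} {v : VV D} (h : v ≠ root D) : v.val ≠ [] := fun e => h (VV.ext e)

theorem isTree_GG (D : ℕ) : (GG D).IsTree := by
  rw [SimpleGraph.isTree_iff_connected_and_card]
  refine ⟨connected_GG D, ?_⟩
  have key : Nat.card (GG D).edgeSet = Nat.card {v : VV D // v ≠ root D} := by
    let f : {v : VV D // v ≠ root D} → (GG D).edgeSet := fun v => ⟨E D v.1.val, E_mem (v.1.ve (ne_root v.2))⟩
    have hf : Function.Bijective f := by
      constructor
      · intro u v huv
        have := congrArg Subtype.val huv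
        exact Subtype.ext (VV.ext (E_inj (u.1.ve (ne_root u.2)) (v.1.ve (ne_root v.2)) this))
      · rintro ⟨e, he⟩
        obtain ⟨w, hw, rfl⟩ := E_surj he
        refine ⟨⟨hi hw, fun h => hw.1 (congrArg VV.val h)⟩, rfl⟩
    exact (Nat.card_congr (Equiv.ofBijective f hf)).symm
  rw [key]
  classical
  rw [Nat.card_eq_fintype_card, Nat.card_eq_fintype_card]
  have := Fintype.card_subtype_compl (fun v : VV D => v = root D)
  simp only [Fintype.card_subtype_eq] at this
  have h1 : 0 < Fintype.card (VV D) := Fintype.card_pos_iff.2 ⟨root D⟩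
  have h2 : Fintype.card {v : VV D // v ≠ root D} = Fintype.card (VV D) - 1 := by
    convert this
  omega

theorem maxDegree_GG {D : ℕ} (hD : 2 ≤ D) : (GG D).maxDegree = 4 := by
  have hle : ∀ v : VV D, (GG D).degree v ≤ 4 := by
    intro v
    have hsub : (GG D).neighborFinset v ⊆ (Finset.univ : Finset (Fin 4)).biUnion
        (fun l => (Finset.univ : Finset (VV D)).filter (fun u => u.val = nb v.val l)) := by
      intro u hu
      rw [SimpleGraph.mem_neighborFinset, adj_def] at hu
      simp only [Finset.mem_biUnion, Finset.mem_univ, true_and, Finset.mem_filter]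
      rcases hu with h | h
      · obtain ⟨l, hl⟩ := eid_tail u.rd h.2
        refine ⟨l, ?_⟩
        have h3 : v.val.head? ≠ some l := by
          intro h4
          have : eid u.val.tail l = u.val.tail := by rw [← h.1]; simp [eid, h4]
          rw [this] at hl
          exact tail_ne h.2 hl.symm
        rw [← h.1] at hl
        rw [hl]; simp [eid, nb, h3]
      · have hv : v.val ≠ [] := h.2
        obtain ⟨l, t, hlt⟩ : ∃ l t, v.val = l :: t := by
          cases hv' : v.val with
          | nil => exact absurd hv' hv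
          | cons a t => exact ⟨a, t, rfl⟩
        refine ⟨l, ?_⟩
        rw [h.1, hlt]; simp [nb]
    rw [← SimpleGraph.card_neighborFinset_eq_degree]
    refine (Finset.card_le_card hsub).trans ?_
    refine Finset.card_biUnion_le.trans ?_
    refine (Finset.sum_le_card_nsmul _ _ 1 ?_).trans (by simp)
    intro l _
    rw [Finset.card_le_one]
    intro a ha b hb
    simp only [Finset.mem_filter, Finset.mem_univ, true_and] at ha hb
    exact VV.ext (ha.trans hb.symm)
  apply le_antisymm
  · exact SimpleGraph.maxDegree_le_of_forall_degree_le _ _ hle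
  · -- the vertex `[]` has degree at least 4
    have h4 : 4 ≤ (GG D).degree (root D) := by
      have hR : ∀ l : Fin 4, VE D [l] := fun l => ⟨by simp, by unfold Rd; simp, by simp; omega⟩
      rw [← SimpleGraph.card_neighborFinset_eq_degree]
      have hsub : (Finset.univ : Finset (Fin 4)).image (fun l => hi (hR l)) ⊆
          (GG D).neighborFinset (root D) := by
        intro u hu
        simp only [Finset.mem_image, Finset.mem_univ, true_and] at hu
        obtain ⟨l, rfl⟩ := hu
        rw [SimpleGraph.mem_neighborFinset, adj_def]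
        exact Or.inl ⟨rfl, by simp [hi]⟩
      refine le_trans ?_ (Finset.card_le_card hsub)
      have hinj : Function.Injective (fun l => hi (hR l)) := by
        intro a b hab
        have := congrArg VV.val hab
        simpa [hi] using this
      rw [Finset.card_image_of_injective _ hinj]
      simp
    exact h4.trans (SimpleGraph.degree_le_maxDegree _ _)

end Pool.Agent.W319.GCI
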